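import Mathlib

/-!
# Merged copies (generated) of the modules

* `Pool.Agent.SOR.Defs`
* `Pool.Agent.SOR.Stmts1`
* `Pool.Agent.SOR.Stmts2`
* `Pool.Agent.SOR.Stmts3`
* `Pool.Agent.Helper3_SOR.XSG`
* `Pool.Agent.Helper19_SOR.BRX`
* `Pool.Agent.Helper32_SOR.LEX`
* `Pool.Agent.Helper32_SOR.UNI`
* `Pool.Agent.Helper44_SOR.REL`
-/

set_option autoImplicit false

section -- Pool.Agent.SOR.Defs

/-!
# The second order relation (squad SOR): definitions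

Finite sets with an action of the braid group `B₄` and two cocycles with values in `ℚ / R`
(`R` a subring of `ℚ`).  Everything is written with functions with values in `ℚ` and congruences
modulo `R`.

`Fr` is the free group on `A`, `B`; `C = B⁻¹ A⁻¹ B A`.  The generators `a`, `b` of `B₃` act on it by
`A ↦ A`, `B ↦ A B` and by `A ↦ B⁻¹`, `B ↦ B A B`; both fix `C`, and `(a b) ^ 6` acts as the conjugation
with `C`.
-/

open scoped BigOperators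

noncomputable section

namespace Pool.Agent.SOR

/-- the free group on `A` (`false`) and `B` (`true`) -/
abbrev Fr : Type := FreeGroup Bool

/-- the letter `A` -/
def lA : Fr := FreeGroup.of false

/-- the letter `B` -/
def lB : Fr := FreeGroup.of true

/-- `C = B⁻¹ A⁻¹ B A` -/
def lC : Fr := lB⁻¹ * lA⁻¹ * lB * lA

/-- `A' = B⁻¹ A B` -/
def lA' : Fr := lB⁻¹ * lA * lB

/-- `A ↦ A`, `B ↦ A B` -/
def fa : Fr →* Fr := FreeGroup.lift (fun t => if t then lA * lB else lA)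

/-- `A ↦ A`, `B ↦ A⁻¹ B` -/
def fai : Fr →* Fr := FreeGroup.lift (fun t => if t then lA⁻¹ * lB else lA)

/-- `A ↦ B⁻¹`, `B ↦ B A B` -/
def fb : Fr →* Fr := FreeGroup.lift (fun t => if t then lB * lA * lB else lB⁻¹)

/-- `A ↦ A B A`, `B ↦ A⁻¹` -/
def fbi : Fr →* Fr := FreeGroup.lift (fun t => if t then lA⁻¹ else lA * lB * lA)

theorem fa_A : fa lA = lA := by simp [fa, lA]
theorem fa_B : fa lB = lA * lB := by simp [fa, lB]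
theorem fai_A : fai lA = lA := by simp [fai, lA]
theorem fai_B : fai lB = lA⁻¹ * lB := by simp [fai, lB]
theorem fb_A : fb lA = lB⁻¹ := by simp [fb, lA]
theorem fb_B : fb lB = lB * lA * lB := by simp [fb, lB]
theorem fbi_A : fbi lA = lA * lB * lA := by simp [fbi, lA]
theorem fbi_B : fbi lB = lA⁻¹ := by simp [fbi, lB]

theorem hom_ext {G : Type*} [Monoid G] {f g : Fr →* G} (h1 : f lA = g lA) (h2 : f lB = g lB) :
    f = g := by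
  ext t
  cases t
  · exact h1
  · exact h2

/-- the automorphism `A ↦ A`, `B ↦ A B` -/
def pa : MulAut Fr := MonoidHom.toMulEquiv fa fai
  (hom_ext (by simp [fa_A, fai_A]) (by simp [fa_B, fai_A, fai_B]))
  (hom_ext (by simp [fa_A, fai_A]) (by simp [fa_B, fa_A, fai_B]))

/-- the automorphism `A ↦ B⁻¹`, `B ↦ B A B` -/
def pb : MulAut Fr := MonoidHom.toMulEquiv fb fbi
  (hom_ext (by simp [fb_A, fbi_B]) (by simp [fb_B, fbi_A, fbi_B, mul_assoc]))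
  (hom_ext (by simp [fb_A, fb_B, fbi_A, mul_assoc]) (by simp [fb_A, fbi_B]))

section coc

variable {H Y : Type} [Group H]

/-- exact cocycles -/
def Cx (i : H →* Equiv.Perm Y) (u : H → Y → ℚ) : Prop :=
  ∀ g h y, u (g * h) y = u g (i h y) + u h y

/-- cocycles modulo `R` -/
def Cr (R : Subring ℚ) (i : H →* Equiv.Perm Y) (u : H → Y → ℚ) : Prop :=
  ∀ g h y, u (g * h) y - u g (i h y) - u h y ∈ R

/-- the coboundary of the function `f` -/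
def dl (i : H →* Equiv.Perm Y) (f : Y → ℚ) (g : H) (y : Y) : ℚ := f (i g y) - f y

/-- `θ` is a primitive of the cup product of `u` and `v` -/
def Th (i : H →* Equiv.Perm Y) (u v θ : H → Y → ℚ) : Prop :=
  ∀ g h y, θ (g * h) y = θ g (i h y) + θ h y + u g (i h y) * v h y

end coc

section fr

variable {Y : Type} [Fintype Y]

open Classical in
/-- The pairing `I(u, v) = ∑ θ(C, y)` of two exact cocycles of the free group, `θ` a primitive of their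
cup product with `θ(A, ·) = θ(B, ·) = 0`. -/
def Iv (i : Fr →* Equiv.Perm Y) (u v : Fr → Y → ℚ) : ℚ :=
  if h : ∃ θ, Th i u v θ ∧ (∀ y, θ lA y = 0) ∧ (∀ y, θ lB y = 0) then ∑ y, h.choose lC y else 0

/-- the transport of a function by an automorphism of the free group and a permutation -/
def tw {Y : Type} (φ : MulAut Fr) (π : Equiv.Perm Y) (u : Fr → Y → ℚ) (w : Fr) (y : Y) : ℚ :=
  u (φ⁻¹ w) (π⁻¹ y)

/-- The data for `τ`: `φ`, `π` are compatible and fix `C`, the cocycles `x₁`, `x₂` are moved by `φ`, `π`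
to `x₁ + δ g₁`, `x₂ + δ g₂` modulo `R`, `g₂` is invariant under `C` (and `g₁` modulo `R`). -/
structure Ad (R : Subring ℚ) (i : Fr →* Equiv.Perm Y) (x₁ x₂ : Fr → Y → ℚ) (h₁ h₂ : Y → ℚ)
    (φ : MulAut Fr) (π : Equiv.Perm Y) (g₁ g₂ : Y → ℚ) : Prop where
  act : ∀ w y, π (i w y) = i (φ w) (π y)
  fixC : φ lC = lC
  inv₁ : ∀ y, h₁ (π y) = h₁ y
  inv₂ : ∀ y, h₂ (π y) = h₂ y
  tr₁ : ∀ w y, tw φ π x₁ w y - x₁ w y - dl i g₁ w y ∈ R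
  tr₂ : ∀ w y, tw φ π x₂ w y - x₂ w y - dl i g₂ w y ∈ R
  c₁ : ∀ y, g₁ (i lC y) - g₁ y ∈ R
  c₂ : ∀ y, g₂ (i lC y) = g₂ y

/-- the basic data: `x₁`, `x₂` exact cocycles, with value `h₁`, `h₂` at `C` modulo `R` -/
structure Bs (R : Subring ℚ) (i : Fr →* Equiv.Perm Y) (x₁ x₂ : Fr → Y → ℚ) (h₁ h₂ : Y → ℚ) :
    Prop where
  ex₁ : Cx i x₁
  ex₂ : Cx i x₂
  hc₁ : ∀ y, h₁ (i lC y) = h₁ y
  hc₂ : ∀ y, h₂ (i lC y) = h₂ y
  xc₁ : ∀ y, x₁ lC y - h₁ y ∈ R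
  xc₂ : ∀ y, x₂ lC y - h₂ y ∈ R

/-- the cocycle `ε` -/
def eps (i : Fr →* Equiv.Perm Y) (x₂ : Fr → Y → ℚ) (φ : MulAut Fr) (π : Equiv.Perm Y)
    (g₂ : Y → ℚ) (w : Fr) (y : Y) : ℚ := tw φ π x₂ w y - x₂ w y - dl i g₂ w y

/-- the number `τ` -/
def tau (i : Fr →* Equiv.Perm Y) (x₁ x₂ : Fr → Y → ℚ) (h₁ h₂ : Y → ℚ) (φ : MulAut Fr)
    (π : Equiv.Perm Y) (g₁ g₂ : Y → ℚ) : ℚ :=
  Iv i (tw φ π x₁) (eps i x₂ φ π g₂) - ∑ y, h₁ y * g₂ y - ∑ y, g₁ y * (h₂ y - x₂ lC y)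

/-- the average over the orbits of the group generated by `s` and `t` -/
def av {Y : Type} (s t : Equiv.Perm Y) (f : Y → ℚ) (y : Y) : ℚ :=
  (∑ k ∈ Finset.range (orderOf s), ∑ l ∈ Finset.range (orderOf t), f ((s ^ k * t ^ l) y)) /
    ((orderOf s : ℚ) * orderOf t)

end fr

section bd

variable {Γ Y : Type} [Group Γ]

/-- The generators `a`, `b` of `B₃`, `A`, `B` of the free group and the central element `T*` of `B₄`. -/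
structure Bd (Γ : Type) [Group Γ] where
  /-- the generator `a` -/
  a : Γ
  /-- the generator `b` -/
  b : Γ
  /-- the letter `A` -/
  A : Γ
  /-- the letter `B` -/
  B : Γ
  /-- the central element -/
  Ts : Γ
  r1 : a * b * a = b * a * b
  r2 : a * A = A * a
  r3 : a * B = A * B * a
  r4 : b * A = B⁻¹ * b
  r5 : b * B = B * A * B * b
  r6 : (a * b) ^ 6 = B⁻¹ * A⁻¹ * B * A * Ts
  r7 : a * Ts = Ts * a
  r8 : b * Ts = Ts * b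
  r9 : A * Ts = Ts * A
  r10 : B * Ts = Ts * B

/-- the element `T = (a b) ^ 6` -/
def Bd.T (D : Bd Γ) : Γ := (D.a * D.b) ^ 6

/-- the element `a₃ = A⁻¹ a` -/
def Bd.a3 (D : Bd Γ) : Γ := D.A⁻¹ * D.a

/-- the element `A' = B⁻¹ A B` -/
def Bd.A' (D : Bd Γ) : Γ := D.B⁻¹ * D.A * D.B

/-- the element `C = B⁻¹ A⁻¹ B A` -/
def Bd.C (D : Bd Γ) : Γ := D.B⁻¹ * D.A⁻¹ * D.B * D.A

/-- the homomorphism from the free group -/
def Bd.j (D : Bd Γ) : Fr →* Γ := FreeGroup.lift (fun t => if t then D.B else D.A)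

/-- `(p, q)` is an exact pair for the commuting elements `s`, `t` and the cocycle `ρ`. -/
structure Ex (R : Subring ℚ) (i : Γ →* Equiv.Perm Y) (ρ : Γ → Y → ℚ) (s t : Γ)
    (p q : Y → ℚ) : Prop where
  ps : ∀ y, p (i s y) = p y
  pt : ∀ y, p (i t y) = p y
  qs : ∀ y, q (i s y) = q y
  qt : ∀ y, q (i t y) = q y
  ex : ∀ y (k l : ℤ), i (s ^ k * t ^ l) y = y → ρ (s ^ k * t ^ l) y - k * p y - l * q y ∈ R

/-- `μ` is the holonomy of `s` divided by the length of the cycle. -/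
structure Hl (R : Subring ℚ) (i : Γ →* Equiv.Perm Y) (ρ : Γ → Y → ℚ) (s : Γ) (μ : Y → ℚ) :
    Prop where
  inv : ∀ y, μ (i s y) = μ y
  hol : ∀ y (k : ℤ), i (s ^ k) y = y → ρ (s ^ k) y - k * μ y ∈ R

end bd

section xx

variable {Γ P X : Type} [Group Γ] [CommGroup P]

/-- the rational numbers with denominator prime to `ℓ` -/
def Rl (ℓ : ℕ) [Fact ℓ.Prime] : Subring ℚ where
  carrier := {q | ¬ ℓ ∣ q.den}
  mul_mem' := by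
    intro a b ha hb
    have h := Rat.mul_den_dvd a b
    have hp : Nat.Prime ℓ := Fact.out
    intro hd
    rcases (hp.dvd_mul).1 (hd.trans h) with h | h
    · exact ha h
    · exact hb h
  one_mem' := by
    have hp : Nat.Prime ℓ := Fact.out
    simpa using hp.one_lt.ne'
  add_mem' := by
    intro a b ha hb
    have h := Rat.add_den_dvd a b
    have hp : Nat.Prime ℓ := Fact.out
    intro hd
    rcases (hp.dvd_mul).1 (hd.trans h) with h | h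
    · exact ha h
    · exact hb h
  zero_mem' := by
    have hp : Nat.Prime ℓ := Fact.out
    simpa using hp.one_lt.ne'
  neg_mem' := by
    intro a ha
    simpa using ha

/-- A finite set `X` with commuting actions of `Γ` and of the subgroup `Q` of the commutative group `P`;
`T*` acts as `q₀ σ`, `σ` a permutation of order prime to `ℓ` which commutes with everything. -/
structure Xa (ℓ : ℕ) (D : Bd Γ) (Q : Subgroup P) (q₀ : Q) (i : Γ →* Equiv.Perm X)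
    (q : Q →* Equiv.Perm X) (σ : Equiv.Perm X) : Prop where
  comm : ∀ g p x, i g (q p x) = q p (i g x)
  sg : ∀ g x, i g (σ x) = σ (i g x)
  sq : ∀ p x, q p (σ x) = σ (q p x)
  cop : (orderOf σ).Coprime ℓ
  ts : i D.Ts = q q₀ * σ

/-- the elements with trivial stabiliser in `Q` -/
def Gd {Q : Subgroup P} (q : Q →* Equiv.Perm X) : Set X := {x | ∀ p, q p x = x → p = 1}

/-- the group `Z × Z × P`, `Z` cyclic of order `n` -/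
abbrev L2 (n : ℕ) (P : Type) : Type := Multiplicative (ZMod n) × Multiplicative (ZMod n) × P

/-- the group `Z × P`, `Z` cyclic of order `n` -/
abbrev L1 (n : ℕ) (P : Type) : Type := Multiplicative (ZMod n) × P

/-- the type of `x` for the elements `s`, `t`: the set of the `(k, l, p)` with `s ^ k t ^ l x = p x` -/
def ty2 (n : ℕ) {Q : Subgroup P} (i : Γ →* Equiv.Perm X) (q : Q →* Equiv.Perm X) (s t : Γ)
    (x : X) : Set (L2 n P) :=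
  {g | ∃ (k l : ℤ) (p : Q), g = (Multiplicative.ofAdd (k : ZMod n), Multiplicative.ofAdd (l : ZMod n),
    (p : P)) ∧ i (s ^ k * t ^ l) x = q p x}

/-- the type of `x` for the element `s`: the set of the `(k, p)` with `s ^ k x = p x` -/
def ty1 (n : ℕ) {Q : Subgroup P} (i : Γ →* Equiv.Perm X) (q : Q →* Equiv.Perm X) (s : Γ)
    (x : X) : Set (L1 n P) :=
  {g | ∃ (k : ℤ) (p : Q), g = (Multiplicative.ofAdd (k : ZMod n), (p : P)) ∧ i (s ^ k) x = q p x}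

end xx

end Pool.Agent.SOR
end
end -- Pool.Agent.SOR.Defs

section -- Pool.Agent.SOR.Stmts1

/-!
# The second order relation (squad SOR): the homomorphism `τ`

Complete proofs in the docstrings.  `≡` is congruence modulo the subring `R` of `ℚ` (which is not
mentioned below).  `(g u)` is short for `tw φ π u`: `(g u)(w, y) = u(φ⁻¹ w, π⁻¹ y)`, and `(g f)(y) = f(π⁻¹ y)`
for functions `f` on `Y`.
-/

open scoped BigOperators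

noncomputable section

namespace Pool.Agent.SOR

/-! ## 1. Cocycles of the free group -/

/-- LFT: exact cocycles of the free group are given by their values at `A` and `B`.

Proof.  Existence: the pairs `(π, f)`, `π` a permutation of `Y`, `f : Y → ℚ`, form a group with
`(π, f)(π', f') = (π π', y ↦ f(π' y) + f' y)` (a semidirect product); the homomorphism `Fr → ` this group
with `A ↦ (i A, fA)`, `B ↦ (i B, fB)` has first component `i` and second component `u`.  Uniqueness: induction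
on the word (`FreeGroup.induction_on`): `u(1, y) = 0`, `u(g⁻¹, y) = - u(g, g⁻¹ y)`.  The same induction
gives the statements modulo `R`: (ii) a cocycle modulo `R` (in particular an exact one) whose values at
`A` and `B` are in `R` has all values in `R`, apply it to the difference. -/
def LftStmt : Prop := ∀ (Y : Type) (i : Fr →* Equiv.Perm Y),
  (∀ fA fB : Y → ℚ, ∃ u, Cx i u ∧ (∀ y, u lA y = fA y) ∧ ∀ y, u lB y = fB y) ∧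
  (∀ u v, Cx i u → Cx i v → (∀ y, u lA y = v lA y) → (∀ y, u lB y = v lB y) → u = v) ∧
  ∀ R : Subring ℚ, ∀ u v, Cr R i u → Cr R i v → (∀ y, u lA y - v lA y ∈ R) →
    (∀ y, u lB y - v lB y ∈ R) → ∀ w y, u w y - v w y ∈ R

/-- THX: primitives of cup products.

Proof.  (i) The quadruples `(π, p, q, s)`, `π` a permutation of `Y` and `p q s : Y → ℚ`, form a group with
`(π, p, q, s)(π', p', q', s') = (π π', p∘π' + p', q∘π' + q', s∘π' + s' + (p∘π') q')`, unit `(1, 0, 0, 0)` and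
inverse `(π⁻¹, -p∘π⁻¹, -q∘π⁻¹, -s∘π⁻¹ + (p∘π⁻¹)(q∘π⁻¹))`.  The homomorphism of `Fr` with
`A ↦ (i A, u A, v A, 0)`, `B ↦ (i B, u B, v B, 0)` is `w ↦ (i w, u w, v w, θ w)` (uniqueness in LFT for the
second and third components), and the last component is a primitive.  (ii) The difference of two
primitives is an exact cocycle `c`; `w ↦ ∑ y, c(w, y)` is a homomorphism to `ℚ` (reindex by the
permutation `i h`), so it is `0` at the commutator `C`.  (iii) If `u`, `v` have values in `R` then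
so has every primitive with values in `R` at `A` and `B`: induction on the word; for the inverse
`θ(g⁻¹, g y) = θ(1, y) - θ(g, y) - u(g⁻¹, g y) v(g, y)`, `θ(1, y) = - u(1, y) v(1, y) = 0`. -/
def ThxStmt : Prop := ∀ (Y : Type) [Fintype Y] (i : Fr →* Equiv.Perm Y) (u v : Fr → Y → ℚ),
  Cx i u → Cx i v →
  (∃ θ, Th i u v θ ∧ (∀ y, θ lA y = 0) ∧ ∀ y, θ lB y = 0) ∧
  (∀ θ θ', Th i u v θ → Th i u v θ' → ∑ y, θ lC y = ∑ y, θ' lC y) ∧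
  ∀ R : Subring ℚ, (∀ w y, u w y ∈ R) → (∀ w y, v w y ∈ R) → ∀ θ, Th i u v θ →
    (∀ y, θ lA y ∈ R) → (∀ y, θ lB y ∈ R) → ∀ w y, θ w y ∈ R

/-- IVF: the properties of the pairing `I(u, v)`.

Proof.  By THX `I(u, v) = ∑ θ(C, y)` for EVERY primitive `θ` of `u ∪ v` (this is (i)).  (ii), (iii)
bilinearity: sums of primitives are primitives of the sum (`u + u'` with `v`, or `u` with `v + v'`).
(iv) `u = δ f`: `θ(g, y) = f(g y) v(g, y)` is a primitive: `f(g h y) v(g h, y) =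
f(g h y) v(g, h y) + f(g h y) v(h, y)` and `f(g h y) v(h, y) = f(h y) v(h, y) + (δ f)(g, h y) v(h, y)`.
(v) `v = δ f`: `θ(g, y) = - u(g, y) f(y)`.  (vi) transport: if `θ` is a primitive of `u ∪ v` then `tw φ π θ`
is one of `tw φ π u ∪ tw φ π v` (`π⁻¹ (i h y) = i(φ⁻¹ h)(π⁻¹ y)`), and `∑ θ(φ⁻¹ C, π⁻¹ y) = ∑ θ(C, y)`;
in the same way `tw φ π u` is an exact cocycle.  (vii) values in `R`: THX (iii). -/
def IvfStmt : Prop := ∀ (Y : Type) [Fintype Y] (i : Fr →* Equiv.Perm Y),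
  (∀ u v θ, Cx i u → Cx i v → Th i u v θ → Iv i u v = ∑ y, θ lC y) ∧
  (∀ u u' v, Cx i u → Cx i u' → Cx i v →
    Iv i (fun w y => u w y + u' w y) v = Iv i u v + Iv i u' v) ∧
  (∀ u v v', Cx i u → Cx i v → Cx i v' →
    Iv i u (fun w y => v w y + v' w y) = Iv i u v + Iv i u v') ∧
  (∀ (f : Y → ℚ) v, Cx i v → Iv i (dl i f) v = ∑ y, f (i lC y) * v lC y) ∧
  (∀ u (f : Y → ℚ), Cx i u → Iv i u (dl i f) = - ∑ y, u lC y * f y) ∧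
  (∀ (φ : MulAut Fr) (π : Equiv.Perm Y), (∀ w y, π (i w y) = i (φ w) (π y)) → φ lC = lC →
    ∀ u v, Cx i u → Cx i v → Cx i (tw φ π u) ∧ Iv i (tw φ π u) (tw φ π v) = Iv i u v) ∧
  ∀ R : Subring ℚ, ∀ u v, Cx i u → Cx i v → (∀ w y, u w y ∈ R) → (∀ w y, v w y ∈ R) → Iv i u v ∈ R

/-- PRG: the pairing with a cocycle which is `0` at `A`.

Proof.  `C = B⁻¹ A⁻¹ B A`.  Take the primitive `θ` with `θ(A) = θ(B) = 0` (THX), `e := v(B, ·)`.  From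
`θ(g⁻¹ g, y) = 0`: `θ(A⁻¹, ·) = 0` (as `v(A, ·) = 0`), `θ(B⁻¹, B y) = - u(B⁻¹, B y) e(y) = u(B, y) e(y)`.
`θ(B A, y) = 0`, `v(B A, y) = e(A y)`, `θ(A⁻¹ B A, y) = u(A⁻¹, B A y) e(A y) = - u(A, A⁻¹ B A y) e(A y)`,
`v(A⁻¹ B A, y) = e(A y)`, `θ(C, y) = u(B, C y) e(C y) - u(A, A⁻¹ B A y) e(A y) - u(B, C y) e(A y)`.  Sum
over `y` (substitute `C y → y`, `A y → y`; `C A⁻¹ = B⁻¹ A⁻¹ B`):
`∑ e(y) (u(B, y) - u(A, A⁻¹ B y) - u(B, B⁻¹ A⁻¹ B y))`, and the bracket is `u(B⁻¹ A⁻¹ B, y)`, because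
`u(A⁻¹ B, y) = - u(A, A⁻¹ B y) + u(B, y)` and `A⁻¹ B = B (B⁻¹ A⁻¹ B)`. -/
def PrgStmt : Prop := ∀ (Y : Type) [Fintype Y] (i : Fr →* Equiv.Perm Y) (u v : Fr → Y → ℚ),
  Cx i u → Cx i v → (∀ y, v lA y = 0) → Iv i u v = ∑ y, v lB y * u lA'⁻¹ y

/-- AUT: the automorphisms `φ_a = pa`, `φ_b = pb`.

Proof.  Compare the values at `A` and `B` (`hom_ext`); all words have length at most `25`, the last
identity `(φ_a φ_b) ^ 6 = ` conjugation by `C` is the longest (compute `(φ_a φ_b)`: `A ↦ φ_a(B⁻¹) =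
B⁻¹ A⁻¹`, `B ↦ φ_a(B A B) = A B A A B`; then `(φ_a φ_b) ^ 2`, `^ 3`, the cube, and its square;
the cube maps `A` and `B` to conjugates of `A⁻¹` and `B⁻¹`). -/
def AutStmt : Prop := pa lC = lC ∧ pb lC = lC ∧ pa lA' = lA' ∧ pa * pb * pa = pb * pa * pb ∧
  (pa * pb) ^ 6 = MulAut.conj lC

/-! ## 2. The homomorphism `τ` -/

/-- TIN: `τ` modulo `R` does not depend on `g₁`, `g₂`.

Proof.  Let `m = g₁' - g₁` and `k = g₂' - g₂`, with values in `R` (`k` is invariant under `C`).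
`ε' = ε - δ k`, so `I(g x₁, ε') - I(g x₁, ε) = - I(g x₁, δ k) = ∑ (g x₁)(C, y) k(y)` (IVF (v); `ε` is an
exact cocycle), `(g x₁)(C, y) = x₁(C, π⁻¹ y) ≡ h₁(π⁻¹ y) = h₁(y)`, so this is `≡ ∑ h₁ k`, which cancels
`- ∑ h₁ (g₂' - g₂)`.  The last term changes by `- ∑ m (h₂ - x₂(C, ·))`, in `R`. -/
def TinStmt : Prop := ∀ (Y : Type) [Fintype Y] (R : Subring ℚ) (i : Fr →* Equiv.Perm Y)
  (x₁ x₂ : Fr → Y → ℚ) (h₁ h₂ : Y → ℚ), Bs R i x₁ x₂ h₁ h₂ → ∀ φ π g₁ g₂ g₁' g₂',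
  Ad R i x₁ x₂ h₁ h₂ φ π g₁ g₂ → Ad R i x₁ x₂ h₁ h₂ φ π g₁' g₂' → (∀ y, g₁' y - g₁ y ∈ R) →
  (∀ y, g₂' y - g₂ y ∈ R) →
  tau i x₁ x₂ h₁ h₂ φ π g₁' g₂' - tau i x₁ x₂ h₁ h₂ φ π g₁ g₂ ∈ R

/-- TMU: `τ` is multiplicative.

Proof.  Let `β = (φ, π, g₁, g₂)`, `β' = (φ', π', g₁', g₂')`, and put `G_k = g_k + β g_k'`
(`(β f)(y) = f(π⁻¹ y)`).  `Ad` for `(φ φ', π π', G₁, G₂)`: `tw (φ φ') (π π') x = tw φ π (tw φ' π' x)`,
`tw φ π (δ f) = δ(β f)`, `C` commutes with `π` (`π (C y) = φ(C) π y = C π y`).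
`ε_(β β') = ε_β + β ε_β'` (exact equality, all are exact cocycles with values in `R`).
`I(β β' x₁, β ε_β') = I(β' x₁, ε_β')` (IVF (vi)).  `I(β β' x₁, ε_β) = I(β x₁, ε_β) + I(β(β' x₁ - x₁), ε_β)`
and `β' x₁ - x₁ = δ g₁' + r` with an exact cocycle `r` with values in `R`, so the last term is
`≡ I(δ(β g₁'), ε_β) = ∑ (β g₁')(C y) ε_β(C, y) ≡ ∑ (β g₁')(y) ε_β(C, y)` (IVF (iv), (vii); `g₁'` is invariant
under `C` modulo `R`).  With `j = h₂ - x₂(C, ·)` (values in `R`): `ε_β(C, y) = x₂(C, π⁻¹ y) - x₂(C, y) -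
(g₂(C y) - g₂(y)) = j(y) - (β j)(y)` because `h₂` is invariant.  So this term is
`∑ (β g₁') j - ∑ (β g₁')(β j) = ∑ (β g₁') j - ∑ g₁' j`.  `∑ h₁ (g₂ + β g₂') = ∑ h₁ g₂ + ∑ h₁ g₂'` (`h₁`
is invariant).  The last term of `τ` is `- ∑ (g₁ + β g₁') j`.  Sum: `τ(β) + τ(β')`. -/
def TmuStmt : Prop := ∀ (Y : Type) [Fintype Y] (R : Subring ℚ) (i : Fr →* Equiv.Perm Y)
  (x₁ x₂ : Fr → Y → ℚ) (h₁ h₂ : Y → ℚ), Bs R i x₁ x₂ h₁ h₂ →
  ∀ (φ : MulAut Fr) (π : Equiv.Perm Y) (g₁ g₂ : Y → ℚ) (φ' : MulAut Fr) (π' : Equiv.Perm Y)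
    (g₁' g₂' : Y → ℚ), Ad R i x₁ x₂ h₁ h₂ φ π g₁ g₂ → Ad R i x₁ x₂ h₁ h₂ φ' π' g₁' g₂' →
  Ad R i x₁ x₂ h₁ h₂ (φ * φ') (π * π') (fun y => g₁ y + g₁' (π⁻¹ y)) (fun y => g₂ y + g₂' (π⁻¹ y)) ∧
  tau i x₁ x₂ h₁ h₂ (φ * φ') (π * π') (fun y => g₁ y + g₁' (π⁻¹ y)) (fun y => g₂ y + g₂' (π⁻¹ y)) -
    tau i x₁ x₂ h₁ h₂ φ π g₁ g₂ - tau i x₁ x₂ h₁ h₂ φ' π' g₁' g₂' ∈ R

/-- TTT: the value of `τ` at `T`: `φ` = conjugation by `C`, `π = C`, `g_k = - (h_k + r_k)`.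

Proof.  For an exact cocycle `x`: `x(C⁻¹ w C, C⁻¹ y) = x(w, y) + f(w y) - f(y)`, `f(y) = x(C⁻¹, y) =
- x(C, C⁻¹ y)`.  So `(T x₂) - x₂ - δ g₂ = δ(f + h₂ + r₂)`, and `f(y) + h₂(y) + r₂ = r₂ + j(C⁻¹ y)`,
`j = h₂ - x₂(C, ·)` (`h₂` is invariant under `C`): `ε = δ(j ∘ C⁻¹)`, with values in `R`; in the same way
for `x₁`: this is `Ad`.  `I(T x₁, δ(j ∘ C⁻¹)) = - ∑ (T x₁)(C, y) j(C⁻¹ y) = - ∑ x₁(C, C⁻¹ y) j(C⁻¹ y) =
- ∑ x₁(C, y) j(y) ≡ - ∑ h₁ j`.  `- ∑ h₁ g₂ = ∑ h₁ (h₂ + r₂)`, `- ∑ g₁ j = ∑ (h₁ + r₁) j`.  Sum: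
`∑ h₁ (h₂ + r₂) + r₁ ∑ j`, and `∑ j = ∑ h₂` because `∑ x₂(C, y) = 0` (the sum of an exact cocycle over
`Y` is a homomorphism to `ℚ`, `C` is a commutator).  `h₁ (h₂ + r₂) + r₁ h₂ = (h₁ + r₁)(h₂ + r₂) - r₁ r₂`. -/
def TttStmt : Prop := ∀ (Y : Type) [Fintype Y] (R : Subring ℚ) (i : Fr →* Equiv.Perm Y)
  (x₁ x₂ : Fr → Y → ℚ) (h₁ h₂ : Y → ℚ), Bs R i x₁ x₂ h₁ h₂ → ∀ r₁ r₂ : ℚ,
  Ad R i x₁ x₂ h₁ h₂ (MulAut.conj lC) (i lC) (fun y => -(h₁ y + r₁)) (fun y => -(h₂ y + r₂)) ∧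
  tau i x₁ x₂ h₁ h₂ (MulAut.conj lC) (i lC) (fun y => -(h₁ y + r₁)) (fun y => -(h₂ y + r₂)) -
    ∑ y, ((h₁ y + r₁) * (h₂ y + r₂) - r₁ * r₂) ∈ R

/-- TAB: twelve times `τ(a)`.

Proof.  Write `β_a = (pa, πa, ga₁, ga₂)` and so on, and products as in TMU.  `τ` of `β_a β_b β_a` and of
`β_b β_a β_b` are `≡ 2 τ(a) + τ(b)` and `≡ 2 τ(b) + τ(a)` (TMU twice); the two products have the same `φ`
and `π` (AUT) and the third components are congruent modulo `R` (hypothesis), so the values are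
congruent (TIN): `τ(a) ≡ τ(b)`.  `τ((β_a β_b) ^ 6) ≡ 6 (τ(a) + τ(b)) ≡ 12 τ(a)`; its `φ` is the conjugation
by `C`, its `π` is `i C`, its third components are `≡ - (h_k + r_k)`: TIN and TTT.  The third components
of `(β_a β_b) ^ n`: `s 0 = 0`, `s (n+1) = (ga_k + gb_k ∘ πa⁻¹) + s n ∘ (πa πb)⁻¹`.  (The unit
`(1, 1, 0, 0)` satisfies `Ad` with `τ = 0`, or start with `n = 1`.) -/
def TabStmt : Prop := ∀ (Y : Type) [Fintype Y] (R : Subring ℚ) (i : Fr →* Equiv.Perm Y)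
  (x₁ x₂ : Fr → Y → ℚ) (h₁ h₂ : Y → ℚ), Bs R i x₁ x₂ h₁ h₂ → ∀ r₁ r₂ : ℚ,
  ∀ (πa πb : Equiv.Perm Y) (ga₁ ga₂ gb₁ gb₂ : Y → ℚ), Ad R i x₁ x₂ h₁ h₂ pa πa ga₁ ga₂ →
  Ad R i x₁ x₂ h₁ h₂ pb πb gb₁ gb₂ → πa * πb * πa = πb * πa * πb → (πa * πb) ^ 6 = i lC →
  (∀ y, (ga₁ y + gb₁ (πa⁻¹ y) + ga₁ ((πa * πb)⁻¹ y)) -
    (gb₁ y + ga₁ (πb⁻¹ y) + gb₁ ((πb * πa)⁻¹ y)) ∈ R) →
  (∀ y, (ga₂ y + gb₂ (πa⁻¹ y) + ga₂ ((πa * πb)⁻¹ y)) -
    (gb₂ y + ga₂ (πb⁻¹ y) + gb₂ ((πb * πa)⁻¹ y)) ∈ R) →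
  (∀ y, (∑ k ∈ Finset.range 6, (ga₁ (((πa * πb)⁻¹ ^ k) y) + gb₁ (πa⁻¹ (((πa * πb)⁻¹ ^ k) y)))) +
    (h₁ y + r₁) ∈ R) →
  (∀ y, (∑ k ∈ Finset.range 6, (ga₂ (((πa * πb)⁻¹ ^ k) y) + gb₂ (πa⁻¹ (((πa * πb)⁻¹ ^ k) y)))) +
    (h₂ y + r₂) ∈ R) →
  12 * tau i x₁ x₂ h₁ h₂ pa πa ga₁ ga₂ - ∑ y, ((h₁ y + r₁) * (h₂ y + r₂) - r₁ * r₂) ∈ R

/-! ## 3. The value of `τ` at `a` -/

/-- The hypotheses of the node formula: `x'_k = x_k + δ f_k` (`k = 1, 2`) are moved by `a` to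
`x'_k - δ μ_k` modulo `R`, `μ_k` is invariant under `a`, `A` and `A'`, `x'₂(A, ·)` is invariant under `a`. -/
structure Nd {Y : Type} (R : Subring ℚ) (i : Fr →* Equiv.Perm Y) (x₁ x₂ : Fr → Y → ℚ)
    (h₁ h₂ : Y → ℚ) (π : Equiv.Perm Y) (f₁ f₂ μ₁ μ₂ g₂ : Y → ℚ) : Prop where
  act : ∀ w y, π (i w y) = i (pa w) (π y)
  i₁ : ∀ y, h₁ (π y) = h₁ y
  i₂ : ∀ y, h₂ (π y) = h₂ y
  a₁ : ∀ y, μ₁ (π y) = μ₁ y
  a₂ : ∀ y, μ₂ (π y) = μ₂ y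
  b₁ : ∀ y, μ₁ (i lA y) = μ₁ y
  b₂ : ∀ y, μ₂ (i lA y) = μ₂ y
  c₁ : ∀ y, μ₁ (i lA' y) = μ₁ y
  c₂ : ∀ y, μ₂ (i lA' y) = μ₂ y
  m₁ : ∀ w y, (x₁ (pa⁻¹ w) (π⁻¹ y) + dl i f₁ (pa⁻¹ w) (π⁻¹ y)) - (x₁ w y + dl i f₁ w y) +
    dl i μ₁ w y ∈ R
  m₂ : ∀ w y, (x₂ (pa⁻¹ w) (π⁻¹ y) + dl i f₂ (pa⁻¹ w) (π⁻¹ y)) - (x₂ w y + dl i f₂ w y) +
    dl i μ₂ w y ∈ R
  gc : ∀ y, g₂ (i lC y) = g₂ y
  gr : ∀ y, g₂ y + f₂ (π⁻¹ y) - f₂ y + μ₂ y ∈ R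
  xi : ∀ y, x₂ lA (π y) + dl i f₂ lA (π y) = x₂ lA y + dl i f₂ lA y

/-- NDI: the change of the gauge.

Proof.  Write `(a f)(y) = f(π⁻¹ y)`, `x'_k = x_k + δ f_k`, `ε' = a x'₂ - x'₂ + δ μ₂`,
`k = g₂ + a f₂ - f₂ + μ₂` (values in `R`), `g₁ = - μ₁ - a f₁ + f₁`, `j = h₂ - x₂(C, ·)` (values in `R`).
`ε = a x₂ - x₂ - δ g₂ = ε' - δ k`, `a x₁ = a x'₁ - δ(a f₁)`.  So
`I(a x₁, ε) = I(a x'₁, ε') - I(δ(a f₁), ε') - I(a x₁, δ k) =
I(a x'₁, ε') - ∑ (a f₁)(C y) ε'(C, y) + ∑ (a x₁)(C, y) k(y)`, and the last sum is `≡ ∑ h₁ k`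
(`x₁(C, π⁻¹ y) ≡ h₁(π⁻¹ y) = h₁(y)`, `pa` fixes `C`).
`- ∑ h₁ g₂ = - ∑ h₁ k + ∑ h₁ (a f₂ - f₂) + ∑ h₁ μ₂ = - ∑ h₁ k + ∑ h₁ μ₂` (`h₁` is invariant).
`- ∑ g₁ j = ∑ μ₁ j + ∑ (a f₁ - f₁) j = ∑ μ₁ j + ∑ (a f₁)(j - a j)`.
`ε'(C, y) = ε(C, y) + k(C y) - k(y)` and `ε(C, y) = j(y) - (a j)(y)` (as in TMU; `g₂` and `h₂` are
invariant under `C`, `a`).  So with `D(y) = (a f₁)(C y) - (a f₁)(y)` the sum of the terms with `a f₁` is
`- ∑ D (j - a j) + ∑ D k`.  `D ≡ Δ`: `D(y) = f₁(C z) - f₁(z)`, `z = π⁻¹ y`, and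
`x'₁(C, z) = x₁(C, z) + f₁(C z) - f₁(z) ≡ h₁(z) + D(y)`, `x'₁(C, z) ≡ x'₁(C, y)` (`m₁` for `w = C`,
`μ₁(C y) = μ₁(y)` as `C = A'⁻¹ A`).  `j - a j` and `k` have values in `R`, so `D` can be replaced by `Δ`,
and `∑ Δ (j - a j) = 0` because `Δ` is invariant under `π`. -/
def NdiStmt : Prop := ∀ (Y : Type) [Fintype Y] (R : Subring ℚ) (i : Fr →* Equiv.Perm Y)
  (x₁ x₂ : Fr → Y → ℚ) (h₁ h₂ : Y → ℚ), Bs R i x₁ x₂ h₁ h₂ →
  ∀ (π : Equiv.Perm Y) (f₁ f₂ μ₁ μ₂ g₂ : Y → ℚ), Nd R i x₁ x₂ h₁ h₂ π f₁ f₂ μ₁ μ₂ g₂ →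
  ∀ Δ : Y → ℚ, (∀ y, Δ (π y) = Δ y) → (∀ y, Δ y - (x₁ lC y + dl i f₁ lC y - h₁ y) ∈ R) →
  tau i x₁ x₂ h₁ h₂ pa π (fun y => - μ₁ y - f₁ (π⁻¹ y) + f₁ y) g₂ -
    (Iv i (tw pa π (fun w y => x₁ w y + dl i f₁ w y))
        (fun w y => (x₂ (pa⁻¹ w) (π⁻¹ y) + dl i f₂ (pa⁻¹ w) (π⁻¹ y)) - (x₂ w y + dl i f₂ w y) +
          dl i μ₂ w y) +
      ∑ y, h₁ y * μ₂ y + ∑ y, μ₁ y * (h₂ y - x₂ lC y) +
      ∑ y, Δ y * (g₂ y + f₂ (π⁻¹ y) - f₂ y + μ₂ y)) ∈ R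

/-- NDJ: the pairing in the new gauge.

Proof.  `ε'` as in NDI, `x'₂ = x₂ + δ f₂`, `ξ = x'₂(A, ·)` (invariant under `a`).  `ε'(A, y) =
x'₂(A, π⁻¹ y) - x'₂(A, y) + μ₂(A y) - μ₂(y) = 0` (`pa⁻¹ A = A`).  By PRG
`I(a x'₁, ε') = ∑ ε'(B, y) (a x'₁)(A'⁻¹, y)`, and `(a x'₁)(A'⁻¹, y) = x'₁(A'⁻¹, π⁻¹ y) ≡ x'₁(A'⁻¹, y) ≡ Ψ(y)`
(`pa A' = A'`, `m₁`, `c₁`); `ε'(B, y)` is in `R` (`m₂`), so `I ≡ ∑ ε'(B, y) Ψ(y)`.
`pa⁻¹ B = A⁻¹ B`: `ε'(B, y) = x'₂(A⁻¹ B, π⁻¹ y) - x'₂(B, y) + μ₂(B y) - μ₂(y)`,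
`x'₂(A⁻¹ B, π⁻¹ y) = - x'₂(A, A⁻¹ B π⁻¹ y) + x'₂(B, π⁻¹ y)` and `A⁻¹ B π⁻¹ y = π⁻¹ B y`
(`π (A⁻¹ B z) = pa(A⁻¹ B) π z = B π z`), so the first term is `- ξ(π⁻¹ B y) = - ξ(B y)`.  In the sum with the
invariant function `Ψ` the terms `x'₂(B, π⁻¹ y) - x'₂(B, y)` cancel. -/
def NdjStmt : Prop := ∀ (Y : Type) [Fintype Y] (R : Subring ℚ) (i : Fr →* Equiv.Perm Y)
  (x₁ x₂ : Fr → Y → ℚ) (h₁ h₂ : Y → ℚ), Bs R i x₁ x₂ h₁ h₂ →
  ∀ (π : Equiv.Perm Y) (f₁ f₂ μ₁ μ₂ g₂ : Y → ℚ), Nd R i x₁ x₂ h₁ h₂ π f₁ f₂ μ₁ μ₂ g₂ →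
  ∀ Ψ : Y → ℚ, (∀ y, Ψ (π y) = Ψ y) → (∀ y, Ψ y - (x₁ lA'⁻¹ y + dl i f₁ lA'⁻¹ y) ∈ R) →
  Iv i (tw pa π (fun w y => x₁ w y + dl i f₁ w y))
      (fun w y => (x₂ (pa⁻¹ w) (π⁻¹ y) + dl i f₂ (pa⁻¹ w) (π⁻¹ y)) - (x₂ w y + dl i f₂ w y) +
        dl i μ₂ w y) -
    ∑ y, (μ₂ (i lB y) - μ₂ y - (x₂ lA (i lB y) + dl i f₂ lA (i lB y))) * Ψ y ∈ R

/-- NDK: the last terms.

Proof.  (i) `x'₂ = x₂ + δ f₂`; `∑ μ₁(y) x₂(C, y) = ∑ μ₁(y) x'₂(C, y)` because `μ₁` is invariant under `C =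
A'⁻¹ A`.  `x'₂(C, y) = - x'₂(B, C y) - x'₂(A, A⁻¹ B A y) + x'₂(B, A y) + x'₂(A, y)`.  In the sum with `μ₁`
(invariant under `A` and `C`) the two terms with `x'₂(B, ·)` cancel; in the second term put
`w = A⁻¹ B A y`, `μ₁(y) = μ₁(A⁻¹ B⁻¹ A w) = μ₁(B⁻¹ A w) = μ₁(A' B⁻¹ w) = μ₁(B⁻¹ w)`.
(ii) `∑ Δ(y) (f₂(π⁻¹ y) - f₂(y)) = 0` because `Δ` is invariant. -/
def NdkStmt : Prop := ∀ (Y : Type) [Fintype Y] (R : Subring ℚ) (i : Fr →* Equiv.Perm Y)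
  (x₁ x₂ : Fr → Y → ℚ) (h₁ h₂ : Y → ℚ), Bs R i x₁ x₂ h₁ h₂ →
  ∀ (π : Equiv.Perm Y) (f₁ f₂ μ₁ μ₂ g₂ : Y → ℚ), Nd R i x₁ x₂ h₁ h₂ π f₁ f₂ μ₁ μ₂ g₂ →
  (∑ y, μ₁ y * (h₂ y - x₂ lC y) = ∑ y, μ₁ y * h₂ y -
    ∑ y, (μ₁ y - μ₁ ((i lB)⁻¹ y)) * (x₂ lA y + dl i f₂ lA y)) ∧
  ∀ Δ : Y → ℚ, (∀ y, Δ (π y) = Δ y) →
    ∑ y, Δ y * (g₂ y + f₂ (π⁻¹ y) - f₂ y + μ₂ y) = ∑ y, Δ y * (g₂ y + μ₂ y)

end Pool.Agent.SOR
end
end -- Pool.Agent.SOR.Stmts1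

section -- Pool.Agent.SOR.Stmts2

/-!
# The second order relation (squad SOR): gauges, averages, the relation on `Y`

Complete proofs in the docstrings.  `≡` is congruence modulo `R`.  A gauge transformation of a cocycle `ρ`
modulo `R` by a function `f` is `ρ'(g, y) = ρ(g, y) + f(g y) - f(y)`; it does not change the values
`ρ(g, y)` with `g y = y`.
-/

open scoped BigOperators

noncomputable section

namespace Pool.Agent.SOR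

/-! ## 4. Gauges and averages -/

/-- GAU: a gauge in which `s` acts by the function `μ`.

Proof.  Choose a representative `y₀` in every orbit of `i s` and for every `y` an integer `k` with
`y = s ^ k y₀`; put `f(y) = k μ(y₀) - ρ(s ^ k, y₀)`.  Another `k'` with `s ^ k' y₀ = y` gives the same value
modulo `R`: `ρ(s ^ k', y₀) ≡ ρ(s ^ k, s ^ (k' - k) y₀) + ρ(s ^ (k' - k), y₀) ≡ ρ(s ^ k, y₀) + (k' - k) μ(y₀)`.
So `f(s y) ≡ (k + 1) μ(y₀) - ρ(s ^ (k + 1), y₀) ≡ f(y) + μ(y₀) - ρ(s, y)`, and `μ(y₀) = μ(y)`. -/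
def GauStmt : Prop := ∀ (Γ Y : Type) [Group Γ] (R : Subring ℚ) (i : Γ →* Equiv.Perm Y)
  (ρ : Γ → Y → ℚ), Cr R i ρ → ∀ (s : Γ) (μ : Y → ℚ), Hl R i ρ s μ →
  ∃ f : Y → ℚ, ∀ y, ρ s y + f (i s y) - f y - μ y ∈ R

/-- INV: exactly invariant lifts.

Proof.  Choose a representative in every orbit of `s` and put `f'(y) = f(representative of y)`. -/
def InvStmt : Prop := ∀ (Y : Type) (R : Subring ℚ) (s : Equiv.Perm Y) (f : Y → ℚ),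
  (∀ y, f (s y) - f y ∈ R) → ∃ f' : Y → ℚ, (∀ y, f' (s y) = f' y) ∧ ∀ y, f' y - f y ∈ R

/-- AVE: averages over the orbits of two commuting permutations.

Proof.  `av f (y) = (1 / (m n)) ∑_(k < m) ∑_(l < n) f(s ^ k t ^ l y)`, `m`, `n` the orders of `s` and `t`.
(i) invariance: shift `k` or `l` cyclically.  (ii) if `f` is invariant under `s` and `t` then `av f = f`.
(iii) for all `k`, `l`: `∑ f(y) g(y) = ∑ f(s ^ k t ^ l y) g(s ^ k t ^ l y) = ∑ f(t ^ l y) g(s ^ k y)` (`f` is invariant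
under `s`, `g` under `t`, `s t = t s`); the average over `k` and `l` is
`∑ ((1/n) ∑_l f(t ^ l y)) ((1/m) ∑_k g(s ^ k y)) = ∑ av f(y) av g(y)`.  (iv) let `f` be invariant under `s` and
`s ^ k t ^ l y = y`, `l` a natural number: `u(j) = f(t ^ j y)` is a function of `j` with period `l`
(`f(t ^ (j + l) y) = f(t ^ j s ^ (-k) y) = f(t ^ j y)`) and with period `n`; so
`n ∑_(j < l) u(j) = l ∑_(j < n) u(j)` (both are the sum over `n l` consecutive terms), and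
`av f(y) = (1/n) ∑_(j < n) u(j)`.  (v) linearity and `av (g ∘ s) = av g` (reindex). -/
def AveStmt : Prop := ∀ (Y : Type) [Fintype Y] (s t : Equiv.Perm Y), s * t = t * s →
  (∀ (f : Y → ℚ) y, av s t f (s y) = av s t f y ∧ av s t f (t y) = av s t f y) ∧
  (∀ f : Y → ℚ, (∀ y, f (s y) = f y) → (∀ y, f (t y) = f y) → ∀ y, av s t f y = f y) ∧
  (∀ f g : Y → ℚ, (∀ y, f (s y) = f y) → (∀ y, g (t y) = g y) →
    ∑ y, f y * g y = ∑ y, av s t f y * av s t g y) ∧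
  (∀ f : Y → ℚ, (∀ y, f (s y) = f y) → ∀ y (k : ℤ) (l : ℕ), (s ^ k * t ^ l) y = y →
    ∑ j ∈ Finset.range l, f ((t ^ j) y) = l * av s t f y) ∧
  (∀ (f g : Y → ℚ) y, av s t (fun z => f z + g z) y = av s t f y + av s t g y) ∧
  (∀ (f : Y → ℚ) y, av s t (fun z => - f z) y = - av s t f y) ∧
  ∀ (f : Y → ℚ) y, av s t (fun z => f (s z)) y = av s t f y ∧
    av s t (fun z => f (t z)) y = av s t f y

/-- HOL: exact pairs from averages.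

Proof.  `av θ` is invariant under `s` and `t` (AVE).  Let `s ^ k t ^ l y = y`.  If `l ≥ 0`:
`ρ(s ^ k t ^ l, y) ≡ ρ(s ^ k, t ^ l y) + ρ(t ^ l, y) ≡ k p(y) + ∑_(j < l) θ(t ^ j y) = k p(y) + l av θ(y)` (AVE (iv)
for `f = θ`).  If `l < 0` apply this to the inverse element `s ^ (-k) t ^ (-l)`:
`ρ(g⁻¹, y) ≡ - ρ(g, y)` for `g y = y`. -/
def HolStmt : Prop := ∀ (Γ Y : Type) [Group Γ] [Fintype Y] (R : Subring ℚ)
  (i : Γ →* Equiv.Perm Y) (ρ : Γ → Y → ℚ), Cr R i ρ → ∀ (s t : Γ), s * t = t * s →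
  ∀ p θ : Y → ℚ, (∀ y, p (i s y) = p y) → (∀ y, p (i t y) = p y) → (∀ y, ρ s y - p y ∈ R) →
  (∀ y, θ (i s y) = θ y) → (∀ y, ρ t y - θ y ∈ R) → Ex R i ρ s t p (av (i s) (i t) θ)

/-- IND: the independence lemma.

Proof.  (i) If `F` is a function on a finite set, invariant under a permutation `s`, and
`n(z) F(z) ∈ R` for all `z`, `n(z)` the length of the `s`-cycle of `z`, then `∑ F ∈ R`: the sum over a cycle is
`n(z) F(z)`.  (ii) Let `Y'` be the set of the `t`-cycles of `Y`, `n_t(z)` the length of the cycle of `z`.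
`∑_Y ε ζ = ∑_(Y') n_t ε ζ`, `s` permutes `Y'`; if `k > 0` is the length of the `s`-cycle of the class of `z` in
`Y'` then `s ^ k t ^ l z = z` for some `l`, so `k ε(z) ∈ R`, and `n_t(z) ζ(z) ∈ R`; so
`k (n_t ε ζ)(z) ∈ R` and (i) applies to `F = n_t ε ζ` on `Y'`. -/
def IndStmt : Prop := ∀ (Y : Type) [Fintype Y] (R : Subring ℚ) (s t : Equiv.Perm Y),
  s * t = t * s → ∀ ε ζ : Y → ℚ, (∀ y, ε (s y) = ε y) → (∀ y, ε (t y) = ε y) →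
  (∀ y, ζ (s y) = ζ y) → (∀ y, ζ (t y) = ζ y) →
  (∀ y (k l : ℤ), (s ^ k * t ^ l) y = y → k * ε y ∈ R) →
  (∀ y (l : ℤ), (t ^ l) y = y → l * ζ y ∈ R) → ∑ y, ε y * ζ y ∈ R

/-! ## 5. The relation on `Y` -/

/-- TWE: `12 τ(a)` for a set with an action of `B₄`, in the gauge in which `T` acts by `κ`.

Proof.  `i' = i ∘ j`, `x_k w ≡ ρ_k(j w)` for all `w` (LFT (ii)).  `T = C T*`, `T*` acts trivially on `Y` and
`T` commutes with `a`, `b` (braid relation: `(a b) ^ 3` is central in `⟨a, b⟩`), and `i C = i T`.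
`ρ_k(C, y) ≡ ρ_k(T, y) - ρ_k(T*, y) ≡ κ_k(y) - r_k = h_k(y)` (`C = T T*⁻¹`).  `κ_k` is invariant under `a`, `b`,
so under `T` and `C`: `Bs`.  For `g = a, b` with the automorphism `φ = pa, pb`: `g j(w) g⁻¹ = j(φ w)`
(`r2 - r5`, `hom_ext`), `tw φ (i g) x_k (w, y) = x_k(φ⁻¹ w, g⁻¹ y) ≡ ρ_k(g⁻¹ j(w) g, g⁻¹ y) ≡
ρ_k(g⁻¹, w y) + ρ_k(w, y) - ρ_k(g⁻¹, y)`, so `tr` holds for every function `g_k ≡ ρ_k(g⁻¹, ·)`; these are
invariant under `C` modulo `R`: `ρ_k(g⁻¹ T, y) ≡ ρ_k(T g⁻¹, y)` gives `ρ_k(g⁻¹, T y) + κ_k(y) ≡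
κ_k(g⁻¹ y) + ρ_k(g⁻¹, y)`.  Take exactly invariant lifts for `b` (INV).  The hypotheses of TAB about the
third components are the cocycle relation for `(a b a)⁻¹ = (b a b)⁻¹` and for `T⁻¹ = ((a b)⁻¹) ^ 6`:
`ρ(T⁻¹, y) ≡ ∑_(k < 6) ρ((a b)⁻¹, (a b)^(-k) y)` and `ρ_k(T⁻¹, y) ≡ - κ_k(y)`.  TAB. -/
def TweStmt : Prop := ∀ (Γ Y : Type) [Group Γ] [Fintype Y] (R : Subring ℚ) (D : Bd Γ)
  (i : Γ →* Equiv.Perm Y), i D.Ts = 1 → ∀ (ρ₁ ρ₂ : Γ → Y → ℚ), Cr R i ρ₁ → Cr R i ρ₂ →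
  ∀ (r₁ r₂ : ℚ) (κ₁ κ₂ : Y → ℚ), (∀ y, ρ₁ D.Ts y - r₁ ∈ R) → (∀ y, ρ₂ D.Ts y - r₂ ∈ R) →
  (∀ y, ρ₁ D.T y - κ₁ y ∈ R) → (∀ y, ρ₂ D.T y - κ₂ y ∈ R) → (∀ y, κ₁ (i D.a y) = κ₁ y) →
  (∀ y, κ₁ (i D.b y) = κ₁ y) → (∀ y, κ₂ (i D.a y) = κ₂ y) → (∀ y, κ₂ (i D.b y) = κ₂ y) →
  ∀ x₁ x₂ : Fr → Y → ℚ, Cx (i.comp D.j) x₁ → Cx (i.comp D.j) x₂ →
  (∀ y, x₁ lA y - ρ₁ D.A y ∈ R) → (∀ y, x₁ lB y - ρ₁ D.B y ∈ R) →
  (∀ y, x₂ lA y - ρ₂ D.A y ∈ R) → (∀ y, x₂ lB y - ρ₂ D.B y ∈ R) →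
  Bs R (i.comp D.j) x₁ x₂ (fun y => κ₁ y - r₁) (fun y => κ₂ y - r₂) ∧
  ∀ g₁ g₂ : Y → ℚ, (∀ y, g₁ y - ρ₁ D.a⁻¹ y ∈ R) → (∀ y, g₂ y - ρ₂ D.a⁻¹ y ∈ R) →
  (∀ y, g₂ (i D.C y) = g₂ y) →
  12 * tau (i.comp D.j) x₁ x₂ (fun y => κ₁ y - r₁) (fun y => κ₂ y - r₂) pa (i D.a) g₁ g₂ -
    ∑ y, (κ₁ y * κ₂ y - r₁ * r₂) ∈ R

/-- OOA: the sum over the orbits of `⟨a, a₃⟩`.

Proof.  `B a B⁻¹ = a₃` (`r3`: `a B = A B a`, so `B a = A⁻¹ a B = a₃ B`), `B A' B⁻¹ = A`, `a` commutes with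
`A`, `A'` (`r2`, `r3`); so `ν_k(y) = μ_k(B⁻¹ y)` is invariant under `a₃`, `A`, and `μ_k`, `ν_k` are both
invariant under `a`, `a₃`, `A`.  `χ(w) = Ψ(B⁻¹ w)` is invariant under `a₃`, `ξ` under `a`.  Substituting `w = B y`
the first sum is `∑ (μ₂ - ν₂ - ξ) χ - ∑ (μ₁ - ν₁) ξ`, and by AVE (ii), (iii) (for `a`, `a₃`; write `X, K` for
the averages of `ξ`, `χ`) it is `∑ (μ₂ - ν₂ - X) K - ∑ (μ₁ - ν₁) X = - ∑ [(μ₁ - ν₁)(μ₂ - ν₂) + η₀ ζ₀]`,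
`η₀ = μ₁ - ν₁ + K`, `ζ₀ = ν₂ - μ₂ + X`.
Exact pairs: (a) label 2, HOL with `s = a`, `p = μ₂`, `t = a₃ = A⁻¹ a`: `ρ₂(a₃, y) ≡ ρ₂(A⁻¹, a y) + μ₂(y) ≡
- ρ₂(A, A⁻¹ a y) + μ₂(y) ≡ μ₂(y) - ξ(a₃ y) = θ(y)`, invariant under `a`; `av θ = μ₂ - X = ν₂ - ζ₀`.
(b) label 1: let `ρ'''(g, w) = ρ₁(B⁻¹ g B, B⁻¹ w)`, a cocycle with the same values as `ρ₁` at the `(g, w)`
with `g w = w`.  HOL with `s = a₃`, `ρ'''(a₃, w) = ρ₁(a, B⁻¹ w) ≡ ν₁(w)`, `t = a`: `B⁻¹ a B = B⁻¹ A a₃ B = A' a`,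
`ρ'''(a, w) = ρ₁(A' a, z) ≡ ρ₁(A', a z) + μ₁(z)`, `z = B⁻¹ w`, `ρ₁(A', a z) ≡ ρ₁(A', z)` (`a A' = A' a`, `ρ₁(a, ·) ≡ μ₁`
invariant under `A'`) `≡ - ρ₁(A'⁻¹, A' z) ≡ - Ψ(A' z) = - χ(A w)`; `θ(w) = ν₁(w) - χ(A w)` is invariant
under `a₃`, `av θ = ν₁ - K = μ₁ - η₀` (AVE (v): `A = a a₃⁻¹`, averages are not changed).
So `(ν₁ - K, ν₁)` is exact for `(a, a₃)`, `ρ₁` (exchange the two elements).
Independence: `∑ η ζ - ∑ η₀ ζ₀ = ∑ (η - η₀) ζ + ∑ η₀ (ζ - ζ₀)`, both in `R` by IND.  First: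
`a ^ k a₃ ^ l y = y` gives `k (η - η₀) ∈ R` (two exact pairs with the same second entry); `a₃ ^ l y = y` gives
`l (ν₂ - ζ) ≡ ρ₂(a₃ ^ l, y) ≡ ρ₂(a ^ l, B⁻¹ y) ≡ l ν₂(y)`, so `l ζ ∈ R`.  Second (exchange `s`, `t`): `l (ζ - ζ₀) ∈ R` and
for `a ^ k y = y`: `k (μ₁ - η₀) ≡ ρ₁(a ^ k, y) ≡ k μ₁`, `k η₀ ∈ R`. -/
def OoaStmt : Prop := ∀ (Γ Y : Type) [Group Γ] [Fintype Y] (R : Subring ℚ) (D : Bd Γ)
  (i : Γ →* Equiv.Perm Y) (ρ₁ ρ₂ : Γ → Y → ℚ), Cr R i ρ₁ → Cr R i ρ₂ →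
  ∀ μ₁ μ₂ : Y → ℚ, (∀ y, μ₁ (i D.a y) = μ₁ y) → (∀ y, μ₁ (i D.A y) = μ₁ y) →
  (∀ y, μ₁ (i D.A' y) = μ₁ y) → (∀ y, μ₂ (i D.a y) = μ₂ y) → (∀ y, μ₂ (i D.A y) = μ₂ y) →
  (∀ y, μ₂ (i D.A' y) = μ₂ y) → (∀ y, ρ₁ D.a y - μ₁ y ∈ R) → (∀ y, ρ₂ D.a y - μ₂ y ∈ R) →
  ∀ ξ Ψ : Y → ℚ, (∀ y, ξ (i D.a y) = ξ y) → (∀ y, ρ₂ D.A y - ξ y ∈ R) →
  (∀ y, Ψ (i D.a y) = Ψ y) → (∀ y, ρ₁ D.A'⁻¹ y - Ψ y ∈ R) →
  ∀ η ζ : Y → ℚ,
  Ex R i ρ₁ D.a D.a3 (fun y => μ₁ y - η y) (fun y => μ₁ (i D.B⁻¹ y)) →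
  Ex R i ρ₂ D.a D.a3 μ₂ (fun y => μ₂ (i D.B⁻¹ y) - ζ y) →
  ∑ y, (μ₂ (i D.B y) - μ₂ y - ξ (i D.B y)) * Ψ y - ∑ y, (μ₁ y - μ₁ (i D.B⁻¹ y)) * ξ y +
    ∑ y, ((μ₁ y - μ₁ (i D.B⁻¹ y)) * (μ₂ y - μ₂ (i D.B⁻¹ y)) + η y * ζ y) ∈ R

/-- OOT: the sum over the orbits of `⟨a, T⟩`.

Proof.  `a T = T a` (TWE).  `∑ Δ (g + μ₂) = ∑ av Δ (av g + μ₂)` (AVE (ii), (iii) for `s = a`, `t = T`: `Δ` is
invariant under `a`, `g + μ₂` under `T`; `μ₂` under both).  Exact pairs: HOL with `s = a`, `p = μ₁`, `t = T`,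
`θ = κ₁ + Δ`: `(μ₁, κ₁ + av Δ)` for `ρ₁`.  HOL with `s = T`, `p = κ₂`, `t = a`, `θ(y) = - g(a y)`
(`ρ₂(a, y) ≡ - ρ₂(a⁻¹, a y)`; invariant under `T`): `(- av g, κ₂)` for `(a, T)` and `ρ₂` (AVE (v)).
`∑ av Δ (μ₂ + av g) - ∑ (μ₂ - m) δ = ∑ (av Δ - δ)(μ₂ + av g) + ∑ δ (av g + m)`.  IND: for the first sum
`a ^ k T ^ l y = y` gives `l (av Δ - δ) ∈ R` and `a ^ k y = y` gives `k (- av g) ≡ ρ₂(a ^ k, y) ≡ k μ₂`; for the
second `a ^ k T ^ l y = y` gives `k (m + av g) ∈ R` and `T ^ l y = y` gives `l (κ₁ + δ) ≡ ρ₁(T ^ l, y) ≡ l κ₁`. -/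
def OotStmt : Prop := ∀ (Γ Y : Type) [Group Γ] [Fintype Y] (R : Subring ℚ) (D : Bd Γ)
  (i : Γ →* Equiv.Perm Y) (ρ₁ ρ₂ : Γ → Y → ℚ), Cr R i ρ₁ → Cr R i ρ₂ →
  ∀ μ₁ μ₂ κ₁ κ₂ : Y → ℚ, (∀ y, μ₁ (i D.a y) = μ₁ y) → (∀ y, μ₁ (i D.T y) = μ₁ y) →
  (∀ y, μ₂ (i D.T y) = μ₂ y) → (∀ y, κ₁ (i D.a y) = κ₁ y) → (∀ y, κ₂ (i D.a y) = κ₂ y) →
  (∀ y, κ₂ (i D.T y) = κ₂ y) → (∀ y, ρ₁ D.a y - μ₁ y ∈ R) → Hl R i ρ₂ D.a μ₂ →
  Hl R i ρ₁ D.T κ₁ → (∀ y, ρ₂ D.T y - κ₂ y ∈ R) →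
  ∀ Δ g : Y → ℚ, (∀ y, Δ (i D.a y) = Δ y) → (∀ y, ρ₁ D.T y - (κ₁ y + Δ y) ∈ R) →
  (∀ y, g (i D.T y) = g y) → (∀ y, ρ₂ D.a⁻¹ y - g y ∈ R) →
  ∀ δ m : Y → ℚ, Ex R i ρ₁ D.a D.T μ₁ (fun y => κ₁ y + δ y) → Ex R i ρ₂ D.a D.T m κ₂ →
  ∑ y, Δ y * (g y + μ₂ y) - ∑ y, (μ₂ y - m y) * δ y ∈ R

/-- REL: THE SECOND ORDER RELATION.

Proof.  All hypotheses are about the values `ρ(g, y)` with `g y = y`, so gauge transformations are
allowed.  (1) GAU for `T`, `κ_k`: we may assume `ρ_k(T, y) ≡ κ_k(y)` (gauge T; `ρ_k(T*, ·) ≡ r_k` is not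
changed).  (2) GAU for `a`, `μ_k`: `f_k` such that `ρ'_k(g, y) = ρ_k(g, y) + f_k(g y) - f_k(y)` has
`ρ'_k(a, ·) ≡ μ_k`.  `a` commutes with `A`, `A'`, `C`, and `μ_k` is invariant under them, so `ρ'_k(s, a y) ≡
ρ'_k(s, y)` for `s = A, A'⁻¹, C`.  (3) INV: `ξ ≡ ρ'₂(A, ·)`, `Ψ ≡ ρ'₁(A'⁻¹, ·)`, `Δ ≡ ρ'₁(C, ·) - (κ₁ - r₁)`, exactly
invariant under `a`; `g₂ ≡ ρ₂(a⁻¹, ·)` exactly invariant under `C` (see TWE), that is under `T`.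
(4) LFT: exact cocycles `x₁`, `x₂` of the free group with `x₁(A) = ρ₁(A)`, `x₁(B) = ρ₁(B)`,
`x₂(A, y) = ξ(y) - f₂(A y) + f₂(y)`, `x₂(B) = ρ₂(B)`.  (5) TWE with `g₁(y) = - μ₁(y) - f₁(a⁻¹ y) + f₁(y) ≡
ρ₁(a⁻¹, y)`: `12 τ(a) ≡ ∑ (κ₁ κ₂ - r₁ r₂)`.  (6) `Nd` holds with `h_k = κ_k - r_k`: `m_k` says `x'_k(a⁻¹ w a, a⁻¹ y) ≡
x'_k(w, y) - μ_k(w y) + μ_k(y)`, the transport of `ρ'_k` by `a`; `gr`: `g₂ ≡ ρ₂(a⁻¹, ·)`,
`ρ'₂(a⁻¹, y) ≡ - μ₂(y)`.  NDI, NDJ, NDK: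
`τ(a) ≡ ∑ (μ₂(B y) - μ₂(y) - ξ(B y)) Ψ(y) - ∑ (μ₁ - ν₁) ξ + ∑ (h₁ μ₂ + μ₁ h₂) + ∑ Δ (g₂ + μ₂)`.
(7) OOA for `ρ'₁`, `ρ'₂` and OOT for `ρ'₁`, `ρ₂` (gauge T): the first two sums are
`≡ - ∑ [(μ₁ - ν₁)(μ₂ - ν₂) + η ζ]`, the last is `≡ ∑ (μ₂ - m) δ`.
(`ρ'₁(T, y) ≡ ρ'₁(C, y) + r₁ ≡ κ₁(y) + Δ(y)`.)  Multiply by `- 12`. -/
def RelStmt : Prop := ∀ (Γ Y : Type) [Group Γ] [Fintype Y] (R : Subring ℚ) (D : Bd Γ)
  (i : Γ →* Equiv.Perm Y), i D.Ts = 1 → ∀ (ρ₁ ρ₂ : Γ → Y → ℚ), Cr R i ρ₁ → Cr R i ρ₂ →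
  ∀ (r₁ r₂ : ℚ) (κ₁ κ₂ μ₁ μ₂ η ζ δ m : Y → ℚ), (∀ y, ρ₁ D.Ts y - r₁ ∈ R) →
  (∀ y, ρ₂ D.Ts y - r₂ ∈ R) → Hl R i ρ₁ D.T κ₁ → Hl R i ρ₂ D.T κ₂ →
  (∀ y, κ₁ (i D.a y) = κ₁ y) → (∀ y, κ₁ (i D.b y) = κ₁ y) → (∀ y, κ₂ (i D.a y) = κ₂ y) →
  (∀ y, κ₂ (i D.b y) = κ₂ y) → Hl R i ρ₁ D.a μ₁ → Hl R i ρ₂ D.a μ₂ →
  (∀ y, μ₁ (i D.A y) = μ₁ y) → (∀ y, μ₁ (i D.A' y) = μ₁ y) → (∀ y, μ₂ (i D.A y) = μ₂ y) →
  (∀ y, μ₂ (i D.A' y) = μ₂ y) →
  Ex R i ρ₁ D.a D.a3 (fun y => μ₁ y - η y) (fun y => μ₁ (i D.B⁻¹ y)) →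
  Ex R i ρ₂ D.a D.a3 μ₂ (fun y => μ₂ (i D.B⁻¹ y) - ζ y) →
  Ex R i ρ₁ D.a D.T μ₁ (fun y => κ₁ y + δ y) → Ex R i ρ₂ D.a D.T m κ₂ →
  ∑ y, (r₁ * r₂ - κ₁ y * κ₂ y) -
    12 * ∑ y, ((μ₁ y - μ₁ (i D.B⁻¹ y)) * (μ₂ y - μ₂ (i D.B⁻¹ y)) + η y * ζ y -
      (μ₂ y - m y) * δ y + (r₁ - κ₁ y) * μ₂ y + μ₁ y * (r₂ - κ₂ y)) ∈ R

end Pool.Agent.SOR
end
end -- Pool.Agent.SOR.Stmts2

section -- Pool.Agent.SOR.Stmts3

/-!
# The second order relation (squad SOR): sets with a free action of an abelian group, universal form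

Complete proofs in the docstrings.
-/

open scoped BigOperators

noncomputable section

namespace Pool.Agent.SOR

/-! ## 6. From `X` to `Y = X / P` -/

/-- The functions on `X` in the relation: `κ_k` for `T`, `μ_k` for `a`, exact pairs `(μ₁ - η, ν₁)`,
`(μ₂, ν₂ - ζ)` for `(a, a₃)`, `(μ₁, κ₁ + δ)`, `(m, κ₂)` for `(a, T)`, all functions invariant under `P`. -/
structure Fm {Γ P X : Type} [Group Γ] [CommGroup P] (R : Subring ℚ) (D : Bd Γ)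
    (i : Γ →* Equiv.Perm X) (q : P →* Equiv.Perm X) (r₁ r₂ : P → ℚ)
    (κ₁ κ₂ μ₁ μ₂ η ζ δ m : X → ℚ) : Prop where
  pinv : ∀ F ∈ ({κ₁, κ₂, μ₁, μ₂, η, ζ, δ, m} : Set (X → ℚ)), ∀ p x, F (q p x) = F x
  ainv : ∀ F ∈ ({κ₁, κ₂, μ₁, μ₂, η, ζ, δ, m} : Set (X → ℚ)), ∀ x, F (i D.a x) = F x
  binv : ∀ F ∈ ({κ₁, κ₂} : Set (X → ℚ)), ∀ x, F (i D.b x) = F x
  Ainv : ∀ F ∈ ({μ₁, μ₂, η, ζ} : Set (X → ℚ)), ∀ x, F (i D.A x) = F x
  A'inv : ∀ F ∈ ({μ₁, μ₂} : Set (X → ℚ)), ∀ x, F (i D.A' x) = F x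
  Tinv : ∀ F ∈ ({δ, m} : Set (X → ℚ)), ∀ x, F (i D.T x) = F x
  k₁ : ∀ x (k : ℤ) p, i (D.T ^ k) x = q p x → r₁ p - k * κ₁ x ∈ R
  k₂ : ∀ x (k : ℤ) p, i (D.T ^ k) x = q p x → r₂ p - k * κ₂ x ∈ R
  m₁ : ∀ x (k : ℤ) p, i (D.a ^ k) x = q p x → r₁ p - k * μ₁ x ∈ R
  m₂ : ∀ x (k : ℤ) p, i (D.a ^ k) x = q p x → r₂ p - k * μ₂ x ∈ R
  e₁ : ∀ x (k l : ℤ) p, i (D.a ^ k * D.a3 ^ l) x = q p x →
    r₁ p - k * (μ₁ x - η x) - l * μ₁ (i D.B⁻¹ x) ∈ R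
  e₂ : ∀ x (k l : ℤ) p, i (D.a ^ k * D.a3 ^ l) x = q p x →
    r₂ p - k * μ₂ x - l * (μ₂ (i D.B⁻¹ x) - ζ x) ∈ R
  t₁ : ∀ x (k l : ℤ) p, i (D.a ^ k * D.T ^ l) x = q p x → r₁ p - k * μ₁ x - l * (κ₁ x + δ x) ∈ R
  t₂ : ∀ x (k l : ℤ) p, i (D.a ^ k * D.T ^ l) x = q p x → r₂ p - k * m x - l * κ₂ x ∈ R

/-- XRE: the relation for a finite set `X` with a free action of the finite abelian group `P`.

Proof.  `Y = X / P`, `σ : Y → X` a section.  `Γ` acts on `Y`, `T*` trivially.  For `g ∈ Γ`, `y ∈ Y` there is a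
unique `c(g, y) ∈ P` with `g σ(y) = c(g, y) σ(g y)`; `c(g h, y) = c(g, h y) c(h, y)`, so `ρ_k(g, y) =
r_k(c(g, y))` is a cocycle modulo `R`; if `g y = y` then `g σ(y) = c(g, y) σ(y)`; `c(T*, y) = p₀`.  The
functions `F` on `X` are invariant under `P`: `F̄(y) = F(σ(y))`, `F̄(g y) = F(g σ(y))`.  All hypotheses of
`RelStmt` follow (`η`, `ζ`, `μ`, `ν` are invariant under `a`, `A`, so under `a₃`; `ν(x) = μ(B⁻¹ x)` is
invariant under `A`, `a₃` because `B⁻¹ A B = A'`, `B⁻¹ a₃ B = a`, and under `a = A a₃`; `B⁻¹ y` has the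
representative `B⁻¹ σ(y)` up to `P`).  `∑_X F = |P| ∑_Y F̄` for every invariant function `F` (the action
is free). -/
def XreStmt : Prop := ∀ (Γ P X : Type) [Group Γ] [CommGroup P] [Finite P] [Fintype X]
  (R : Subring ℚ) (D : Bd Γ) (i : Γ →* Equiv.Perm X) (q : P →* Equiv.Perm X) (p₀ : P),
  (∀ g p x, i g (q p x) = q p (i g x)) → i D.Ts = q p₀ → (∀ p x, q p x = x → p = 1) →
  ∀ r₁ r₂ : P → ℚ, (∀ p p', r₁ (p * p') - r₁ p - r₁ p' ∈ R) →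
  (∀ p p', r₂ (p * p') - r₂ p - r₂ p' ∈ R) →
  ∀ κ₁ κ₂ μ₁ μ₂ η ζ δ m : X → ℚ, Fm R D i q r₁ r₂ κ₁ κ₂ μ₁ μ₂ η ζ δ m →
  (∑ x, (r₁ p₀ * r₂ p₀ - κ₁ x * κ₂ x -
    12 * ((μ₁ x - μ₁ (i D.B⁻¹ x)) * (μ₂ x - μ₂ (i D.B⁻¹ x)) + η x * ζ x -
      (μ₂ x - m x) * δ x + (r₁ p₀ - κ₁ x) * μ₂ x + μ₁ x * (r₂ p₀ - κ₂ x)))) / Nat.card P ∈ R

/-- XSG: the same with an additional permutation `σ` of order prime to `ℓ`, for `R = Rl ℓ` and an
`ℓ`-group `P`.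

Proof.  `σ` commutes with `Γ` and `P`.  For `d > 0` let `X_d` be the set of the `x` whose `σ`-orbit has `d`
elements and `X̄_d = X_d / ⟨σ⟩`; `Γ` and `P` act on it and `T*` acts as `p₀`.  Let `N > 0` be a multiple of the
order of `σ` with `N ≡ 1` modulo a power `ℓ ^ f` which kills `P` and such that `ℓ ^ f` times every value of the
functions is in `Rl ℓ`.  If `g x = p σ ^ j x` (`g ∈ Γ`) then `g ^ N x = p ^ N x = p x`.  For `g = 1`: `p x = x`,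
`p = 1`, so `P` acts freely on `X̄_d`.  For `g = T ^ k`: `r_k(p) - k N κ_k(x) ∈ R`, and
`(N - 1) k κ_k(x) ∈ R`; in the same way for the other congruences: all hypotheses of XRE hold for `X̄_d`
and the functions induced there.  `∑_X F = ∑_d d ∑_(X̄_d) F`.  XRE for every `d`. -/
def XsgStmt : Prop := ∀ (ℓ : ℕ) [Fact ℓ.Prime] (Γ P X : Type) [Group Γ] [CommGroup P] [Finite P]
  [Fintype X] (D : Bd Γ) (i : Γ →* Equiv.Perm X) (q : P →* Equiv.Perm X) (p₀ : P)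
  (σ : Equiv.Perm X), IsPGroup ℓ P → (∀ g p x, i g (q p x) = q p (i g x)) →
  (∀ g x, i g (σ x) = σ (i g x)) → (∀ p x, q p (σ x) = σ (q p x)) → (orderOf σ).Coprime ℓ →
  i D.Ts = q p₀ * σ → (∀ p x, q p x = x → p = 1) →
  ∀ r₁ r₂ : P → ℚ, (∀ p p', r₁ (p * p') - r₁ p - r₁ p' ∈ Rl ℓ) →
  (∀ p p', r₂ (p * p') - r₂ p - r₂ p' ∈ Rl ℓ) →
  ∀ κ₁ κ₂ μ₁ μ₂ η ζ δ m : X → ℚ, Fm (Rl ℓ) D i q r₁ r₂ κ₁ κ₂ μ₁ μ₂ η ζ δ m →
  (∀ F ∈ ({κ₁, κ₂, μ₁, μ₂, η, ζ, δ, m} : Set (X → ℚ)), ∀ x, F (σ x) = F x) →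
  (∑ x, (r₁ p₀ * r₂ p₀ - κ₁ x * κ₂ x -
    12 * ((μ₁ x - μ₁ (i D.B⁻¹ x)) * (μ₂ x - μ₂ (i D.B⁻¹ x)) + η x * ζ x -
      (μ₂ x - m x) * δ x + (r₁ p₀ - κ₁ x) * μ₂ x + μ₁ x * (r₂ p₀ - κ₂ x)))) / Nat.card P ∈ Rl ℓ

/-! ## 7. Universal functions of the types -/

/-- LEX: the rational numbers for a type.

Proof.  All elements are written with integers: for the type of `x` (`s`, `t`, the action of `Q` free at
`x`, `s ^ n = t ^ n = 1`) the set `Λ = {(k, l, p) : s ^ k t ^ l x = p x}` is a subgroup of `ℤ × ℤ × Q` which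
contains `(n, 0, 1)`, `(0, n, 1)` and in which `p` is determined by `(k, l)`.  (i) `k₀ > 0` minimal with
`(k₀, 0, p₀) ∈ Λ`: the `(k, 0, p) ∈ Λ` are the powers `(c k₀, 0, p₀ ^ c)`, `μ = r(p₀)/k₀` has
`r(p₀ ^ c) - c k₀ μ ≡ c r(p₀) - c r(p₀) = 0`.  If `(1, 0, p) ∈ Λ` then `k₀ = 1`, `μ = r(p)`.  If `r(p) ∈ R` for
all of them, `μ = 0` is possible.  (ii) let `ν` be a number for the `(0, l, p) ∈ Λ`; `k₀ > 0` minimal such
that `(k₀, l₀, p₀) ∈ Λ` for some `l₀`, `p₀`, and `α = (r(p₀) - l₀ ν)/k₀`: an element `(k, l, p)` of `Λ` is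
`(k₀, l₀, p₀) ^ c (0, l', p')`, so `r(p) - k α - l ν ≡ c (r(p₀) - k₀ α - l₀ ν) + (r(p') - l' ν) ≡ 0`. -/
def LexStmt : Prop := ∀ (Γ X P : Type) [Group Γ] [CommGroup P] [Finite P] (R : Subring ℚ) (n : ℕ),
  0 < n → ∀ (Q : Subgroup P) (i : Γ →* Equiv.Perm X) (q : Q →* Equiv.Perm X) (s t : Γ),
  (∀ g p x, i g (q p x) = q p (i g x)) → s * t = t * s → i (s ^ n) = 1 → i (t ^ n) = 1 →
  ∀ x ∈ Gd q, ∀ r : P → ℚ, (∀ p p', r (p * p') - r p - r p' ∈ R) →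
  (∀ p : Q, ∀ k : ℤ, (Multiplicative.ofAdd (k : ZMod n), (p : P)) ∈ ty1 n i q s x ↔
    i (s ^ k) x = q p x) ∧
  (∀ p : Q, ∀ k l : ℤ, (Multiplicative.ofAdd (k : ZMod n), Multiplicative.ofAdd (l : ZMod n),
    (p : P)) ∈ ty2 n i q s t x ↔ i (s ^ k * t ^ l) x = q p x) ∧
  (∃ μ : ℚ, ∀ (k : ℤ) (p : P), (Multiplicative.ofAdd (k : ZMod n), p) ∈ ty1 n i q s x →
    r p - k * μ ∈ R) ∧
  (∀ p : P, (Multiplicative.ofAdd (1 : ZMod n), p) ∈ ty1 n i q s x →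
    ∀ (k : ℤ) (p' : P), (Multiplicative.ofAdd (k : ZMod n), p') ∈ ty1 n i q s x →
      r p' - k * r p ∈ R) ∧
  ∀ ν : ℚ, (∀ (l : ℤ) (p : P), (Multiplicative.ofAdd (l : ZMod n), p) ∈ ty1 n i q t x →
    r p - l * ν ∈ R) → ∃ α : ℚ, ∀ (k l : ℤ) (p : P),
      (Multiplicative.ofAdd (k : ZMod n), Multiplicative.ofAdd (l : ZMod n), p) ∈ ty2 n i q s t x →
        r p - k * α - l * ν ∈ R

open Classical in
/-- UNI: THE UNIVERSAL FORM OF THE SECOND ORDER RELATION.  The functions `Φ`, `Ψ`, `K` of the types of the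
points depend only on `ℓ`, `e`, `P`, `r₁`, `r₂`, `p₀`.

Proof.  `n = ℓ ^ e`.  For a set `U ⊆ Z × P` and `r = r₁, r₂` let `mu(U)` be: `r(p)` if `p` is the only element
with `(1, p) ∈ U`; otherwise `0` if `r(p) ∈ R` for all `(k, p) ∈ U`; otherwise some number `μ` with
`r(p) - k μ ∈ R` for all `(k, p) ∈ U` (`k` an integer) if there is one, and `0` if there is none.  In all
cases `mu(U) = 0` if `r ∈ R` on `U` (because `r(p) ∈ R` implies `r(p) = 0`), and for the type `ty1` of a point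
of `Gd q` the congruences hold (LEX).  For `Λ ⊆ Z × Z × P` let `Λ_s = {(k, p) : (k, 0, p) ∈ Λ}`,
`Λ_t = {(l, p) : (0, l, p) ∈ Λ}`, `μ_k = mu_k(Λ_s)`, `ν_k = mu_k(Λ_t)`; `α₁(Λ)` is a number with
`r₁(p) - k α₁ - l ν₁ ∈ R` on `Λ` (`0` if `r₁ ∈ R` on `Λ` or if there is none), `β₂(Λ)` a number with
`r₂(p) - k μ₂ - l β₂ ∈ R`, `β₁(Λ)` one with `r₁(p) - k μ₁ - l β₁ ∈ R`, `α₂(Λ)` one with
`r₂(p) - k α₂ - l ν₂ ∈ R`.  `Φ(Λ) = (μ₁ - ν₁)(μ₂ - ν₂) + (μ₁ - α₁)(ν₂ - β₂)`;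
`Ψ(Λ) = - (μ₂ - α₂)(β₁ - ν₁) + (r₁(p₀) - ν₁) μ₂ + μ₁ (r₂(p₀) - ν₂)`, `K(U) = mu₁(U) mu₂(U)`; take `β₁ = ν₁`
whenever this is possible, and `Ψ(Λ) = 0` if `r₁(p) - l ν₁ ∈ R` is not true on `Λ_t`.  The vanishing
statements are clear: in the second statement about `Ψ` (`(k, l, p) ∈ Λ` implies `(0, l, p) ∈ Λ`, `r_k ∈ R` on
`Λ_s`) one has `μ₁ = μ₂ = 0` and `β₁ = ν₁`.  For `X`: `Γ`, `σ` and `Q` act on `Gd q`, `Q` freely.  `s = a ^ M`, `t = a₃ ^ M`, `τ = T ^ M`.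
Put `μ_k(x) = mu_k(ty1 s x)`, `κ_k(x) = mu_k(ty1 τ x)`, `η = μ₁ - α₁`, `ζ = ν₂ - β₂` of `ty2 s t x`,
`δ = β₁ - κ₁`, `m = α₂` of `ty2 s τ x` (`(ty2 s t x)_s = ty1 s x`, `(ty2 s t x)_t = ty1 t x`).  The type of `x` for `s` is
invariant under all elements which commute with `a` and `Q`; `B a B⁻¹ = a₃`, so `ty1 s (B⁻¹ x) = ty1 t x`
and `ν_k(x) = μ_k(B⁻¹ x)`.  `Fm` for `a`, `a₃`, `T` follows from the congruences for `s`, `t`, `τ`: if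
`a ^ k a₃ ^ l x = p x` then `s ^ k t ^ l x = p ^ M x`, and `r(p ^ M) ≡ M r(p) ≡ r(p)` because `M - 1` is divisible
by `ℓ ^ e` and `ℓ ^ e r(p) ∈ R`.  XSG for `Q` and `Gd q` (all functions are invariant under `σ`). -/
def UniStmt : Prop := ∀ (ℓ : ℕ) [Fact ℓ.Prime] (e : ℕ) (P : Type) [CommGroup P] [Finite P],
  IsPGroup ℓ P → ∀ (r₁ r₂ : P → ℚ) (p₀ : P), (∀ p p', r₁ (p * p') - r₁ p - r₁ p' ∈ Rl ℓ) →
  (∀ p p', r₂ (p * p') - r₂ p - r₂ p' ∈ Rl ℓ) → (∀ p, (ℓ : ℚ) ^ e * r₁ p ∈ Rl ℓ) →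
  (∀ p, (ℓ : ℚ) ^ e * r₂ p ∈ Rl ℓ) → (∀ p, r₁ p ∈ Rl ℓ → r₁ p = 0) →
  (∀ p, r₂ p ∈ Rl ℓ → r₂ p = 0) →
  ∃ (Φ Ψ : Set (L2 (ℓ ^ e) P) → ℚ) (K : Set (L1 (ℓ ^ e) P) → ℚ),
    (∀ Λ, (∀ g ∈ Λ, r₁ g.2.2 ∈ Rl ℓ) → Φ Λ = 0) ∧ (∀ Λ, (∀ g ∈ Λ, r₂ g.2.2 ∈ Rl ℓ) → Φ Λ = 0) ∧
    (∀ Λ, (∀ g ∈ Λ, r₁ g.2.2 ∈ Rl ℓ) → (∀ g ∈ Λ, r₂ g.2.2 ∈ Rl ℓ) → Ψ Λ = 0) ∧
    (∀ Λ, (∀ g ∈ Λ, ((1 : Multiplicative (ZMod (ℓ ^ e))), g.2.1, g.2.2) ∈ Λ) →
      (∀ g ∈ Λ, g.2.1 = 1 → r₁ g.2.2 ∈ Rl ℓ ∧ r₂ g.2.2 ∈ Rl ℓ) → Ψ Λ = 0) ∧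
    (∀ U, (∀ g ∈ U, r₁ g.2 ∈ Rl ℓ) → K U = 0) ∧ (∀ U, (∀ g ∈ U, r₂ g.2 ∈ Rl ℓ) → K U = 0) ∧
    (∀ U p, (∀ p', (Multiplicative.ofAdd (1 : ZMod (ℓ ^ e)), p') ∈ U ↔ p' = p) →
      K U = r₁ p * r₂ p) ∧
    ∀ (Γ X : Type) [Group Γ] [Fintype X] (D : Bd Γ) (Q : Subgroup P) (q₀ : Q), (q₀ : P) = p₀ →
      ∀ (i : Γ →* Equiv.Perm X) (q : Q →* Equiv.Perm X) (σ : Equiv.Perm X),
      Xa ℓ D Q q₀ i q σ → ∀ M : ℕ, (M : ZMod (ℓ ^ e)) = 1 → i ((D.a ^ M) ^ ℓ ^ e) = 1 → i ((D.a3 ^ M) ^ ℓ ^ e) = 1 →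
      i ((D.T ^ M) ^ ℓ ^ e) = 1 →
      (∑ x ∈ Finset.univ.filter (· ∈ Gd q), (r₁ p₀ * r₂ p₀ - K (ty1 (ℓ ^ e) i q (D.T ^ M) x) -
        12 * Φ (ty2 (ℓ ^ e) i q (D.a ^ M) (D.a3 ^ M) x) -
        12 * Ψ (ty2 (ℓ ^ e) i q (D.a ^ M) (D.T ^ M) x))) / Nat.card Q ∈ Rl ℓ

/-! ## 8. Möbius inversion, the braid group on triples -/

open Classical in
/-- MOB: Möbius inversion on the subgroups of a finite group `L`.

Proof.  Define `Φ̂(Λ) = Φ(Λ) - ∑_(Λ' < Λ) Φ̂(Λ')` by induction on `|Λ|`.  (iii) by the same induction.  (iv)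
`∑_x w(x) Φ(St x) = ∑_x w(x) ∑_(Λ ≤ St x) Φ̂(Λ)`, and `Λ ≤ St x` means that `x` is fixed by `Λ`. -/
def MobStmt : Prop := ∀ (L : Type) [Group L] [Fintype (Subgroup L)] (Φ : Subgroup L → ℚ),
  ∃ Φ' : Subgroup L → ℚ, (∀ Λ, ∑ Λ' ∈ Finset.univ.filter (· ≤ Λ), Φ' Λ' = Φ Λ) ∧
    (∀ S : AddSubgroup ℚ, (∀ Λ, Φ Λ ∈ S) → ∀ Λ, Φ' Λ ∈ S) ∧
    (∀ Λ, (∀ Λ' ≤ Λ, Φ Λ' = 0) → Φ' Λ = 0) ∧
    ∀ (X : Type) [Fintype X] (St : X → Subgroup L) (w : X → ℂ),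
      ∑ x, w x * Φ (St x) = ∑ Λ, (Φ' Λ : ℂ) * ∑ x ∈ Finset.univ.filter (fun x => Λ ≤ St x), w x

/-- the set of the triples `(x, y, u)` with `x y x⁻¹ y⁻¹ = g₁ u g₂ u⁻¹` -/
def Tr (G : Type) [Group G] (g₁ g₂ : G) : Type :=
  {z : G × G × G // z.1 * z.2.1 * z.1⁻¹ * z.2.1⁻¹ = g₁ * z.2.2 * g₂ * z.2.2⁻¹}

/-- BRX: the braid group on triples.

Proof.  `a (x, y, u) = (x, y x, u)`, `b (x, y, u) = (x y⁻¹, y, u)`, `a₃ (x, y, u) = (x, g₁⁻¹ x y, g₁⁻¹ x u)` preserve the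
equation and are bijective; `A = a a₃⁻¹ : (x, y, u) ↦ (x, x⁻¹ g₁ y x, x⁻¹ g₁ u)`, `B = b A⁻¹ b⁻¹ : (x, y, u) ↦
(x y x y⁻¹ x⁻¹ g₁, g₁⁻¹ x y x⁻¹, g₁⁻¹ x y u)`.  `T = (a b) ^ 6 : (x, y, u) ↦ (κ⁻¹ x κ, κ⁻¹ y κ, u)` with
`κ = x y x⁻¹ y⁻¹`: `(a b)(x, y) = (x y⁻¹, y x y⁻¹)`, and `(a b) ^ 3 (x, y) = (y x⁻¹ y⁻¹, ...)` etc. (compute; a
computer check of all formulas in the symmetric group was done).  `T* (x, y, u) = (g₁⁻¹ x g₁, g₁⁻¹ y g₁,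
g₁⁻¹ u g₂)`.  The relations `r1 - r10` are identities between words in `x, y, u, g₁`, for `r6` use
`g₂ = u⁻¹ g₁⁻¹ κ u`.  The elements `p = (p₁, p₂)`, `p₁` in the centraliser of `g₁`, `p₂` in the centraliser of
`g₂`, act by `(p₁ x p₁⁻¹, p₁ y p₁⁻¹, p₁ u p₂⁻¹)`, and commute with `a`, `b`, `A`, `B`. -/
def BrxStmt : Prop := ∀ (G : Type) [Group G] (g₁ g₂ : G),
  ∃ D : Bd (Equiv.Perm (Tr G g₁ g₂)),
    (∀ z, (D.a z).1 = (z.1.1, z.1.2.1 * z.1.1, z.1.2.2)) ∧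
    (∀ z, (D.b z).1 = (z.1.1 * z.1.2.1⁻¹, z.1.2.1, z.1.2.2)) ∧
    (∀ z, (D.a3 z).1 = (z.1.1, g₁⁻¹ * z.1.1 * z.1.2.1, g₁⁻¹ * z.1.1 * z.1.2.2)) ∧
    (∀ z, (D.T z).1 = ((z.1.1 * z.1.2.1 * z.1.1⁻¹ * z.1.2.1⁻¹)⁻¹ * z.1.1 *
        (z.1.1 * z.1.2.1 * z.1.1⁻¹ * z.1.2.1⁻¹),
      (z.1.1 * z.1.2.1 * z.1.1⁻¹ * z.1.2.1⁻¹)⁻¹ * z.1.2.1 *
        (z.1.1 * z.1.2.1 * z.1.1⁻¹ * z.1.2.1⁻¹), z.1.2.2)) ∧
    (∀ z, (D.Ts z).1 = (g₁⁻¹ * z.1.1 * g₁, g₁⁻¹ * z.1.2.1 * g₁, g₁⁻¹ * z.1.2.2 * g₂)) ∧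
    (∀ z (k : ℤ), ((D.a ^ k) z).1 = (z.1.1, z.1.2.1 * z.1.1 ^ k, z.1.2.2)) ∧
    (∀ z (k : ℤ), ((D.a3 ^ k) z).1 =
      (z.1.1, (g₁⁻¹ * z.1.1) ^ k * z.1.2.1, (g₁⁻¹ * z.1.1) ^ k * z.1.2.2)) ∧
    (∀ z (k : ℤ), ((D.T ^ k) z).1 = ((z.1.1 * z.1.2.1 * z.1.1⁻¹ * z.1.2.1⁻¹) ^ (-k) * z.1.1 *
        (z.1.1 * z.1.2.1 * z.1.1⁻¹ * z.1.2.1⁻¹) ^ k,
      (z.1.1 * z.1.2.1 * z.1.1⁻¹ * z.1.2.1⁻¹) ^ (-k) * z.1.2.1 *
        (z.1.1 * z.1.2.1 * z.1.1⁻¹ * z.1.2.1⁻¹) ^ k, z.1.2.2)) ∧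
    ∀ (V₁ V₂ : Subgroup G), (∀ v ∈ V₁, v * g₁ = g₁ * v) → (∀ v ∈ V₂, v * g₂ = g₂ * v) →
      ∃ q : V₁ × V₂ →* Equiv.Perm (Tr G g₁ g₂),
        (∀ p z, (q p z).1 = (p.1 * z.1.1 * (p.1 : G)⁻¹, p.1 * z.1.2.1 * (p.1 : G)⁻¹,
          p.1 * z.1.2.2 * (p.2 : G)⁻¹)) ∧
        (∀ p z, D.a (q p z) = q p (D.a z)) ∧ (∀ p z, D.b (q p z) = q p (D.b z)) ∧
        (∀ p z, D.A (q p z) = q p (D.A z)) ∧ (∀ p z, D.B (q p z) = q p (D.B z)) ∧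
        ∀ p z, D.Ts (q p z) = q p (D.Ts z)

end Pool.Agent.SOR
end
end -- Pool.Agent.SOR.Stmts3

section -- Pool.Agent.Helper3_SOR.XSG

/-!
# Squad SOR, row XSG: an additional permutation of order prime to `ℓ`

For `d` a set of integers let `X_d` be the set of the `x` such that `σ ^ j x = x` iff `j ∈ d`.  The
group `P × ⟨σ⟩` acts freely on `X_d`; XRE is used for this group.
-/

open scoped BigOperators

noncomputable section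

namespace Pool.Agent.SOR.H3

section rl

variable (ℓ : ℕ) [Fact ℓ.Prime]

theorem mem_Rl {q : ℚ} : q ∈ Rl ℓ ↔ ¬ ℓ ∣ q.den := Iff.rfl

theorem rl_of_mul {q : ℚ} {m : ℕ} {a : ℤ} (hm : ¬ ℓ ∣ m) (h : q * m = a) : q ∈ Rl ℓ := by
  have hm0 : (m : ℚ) ≠ 0 := by
    intro h0
    have h1 : m = 0 := by exact_mod_cast h0
    exact hm (h1 ▸ dvd_zero _)
  have hq : q = Rat.divInt a m := by
    rw [Rat.divInt_eq_div, eq_div_iff (by exact_mod_cast hm0)]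
    exact_mod_cast h
  rw [mem_Rl]
  intro hd
  have h2 := Rat.den_dvd a m
  rw [← hq] at h2
  exact hm (hd.trans (by exact_mod_cast h2))

theorem exists_pow (v : ℚ) : ∃ f : ℕ, (ℓ : ℚ) ^ f * v ∈ Rl ℓ := by
  have hp : Nat.Prime ℓ := Fact.out
  obtain ⟨t, m, hm, hden⟩ := Nat.exists_eq_pow_mul_and_not_dvd v.den_ne_zero ℓ hp.one_lt.ne'
  refine ⟨t, rl_of_mul ℓ (a := v.num) hm ?_⟩
  have h1 := Rat.mul_den_eq_num v
  rw [hden] at h1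
  rw [← h1]
  push_cast
  ring

theorem nat_mem (n : ℕ) : (n : ℚ) ∈ Rl ℓ := natCast_mem (Rl ℓ) n

theorem int_mem (n : ℤ) : (n : ℚ) ∈ Rl ℓ := intCast_mem (Rl ℓ) n

theorem exists_pow_fin (S : Finset ℚ) : ∃ f : ℕ, ∀ v ∈ S, (ℓ : ℚ) ^ f * v ∈ Rl ℓ := by
  classical
  induction S using Finset.induction_on with
  | empty => exact ⟨0, by simp⟩
  | insert a S _ ih =>
    obtain ⟨f, hf⟩ := ih
    obtain ⟨g, hg⟩ := exists_pow ℓ a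
    have hl : ∀ n : ℕ, (ℓ : ℚ) ^ n ∈ Rl ℓ := fun n => pow_mem (nat_mem ℓ ℓ) n
    refine ⟨f + g, ?_⟩
    intro v hv
    rcases Finset.mem_insert.1 hv with rfl | hv
    · rw [pow_add, mul_assoc]
      exact mul_mem (hl f) hg
    · rw [add_comm, pow_add, mul_assoc]
      exact mul_mem (hl g) (hf v hv)

theorem exists_N {P X : Type} [CommGroup P] [Finite P] (hP : IsPGroup ℓ P) (σ : Equiv.Perm X)
    (hσ : (orderOf σ).Coprime ℓ) (S : Finset ℚ) :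
    ∃ N : ℕ, σ ^ N = 1 ∧ (∀ p : P, p ^ N = p) ∧ ∀ v ∈ S, ((N : ℚ) - 1) * v ∈ Rl ℓ := by
  obtain ⟨f, hf⟩ := exists_pow_fin ℓ S
  obtain ⟨c, hc⟩ := IsPGroup.iff_card.1 hP
  have hco : (orderOf σ).Coprime (ℓ ^ (c + f)) := Nat.Coprime.pow_right _ hσ
  obtain ⟨N, hN0, hN1⟩ := Nat.chineseRemainder hco 0 1
  refine ⟨N, ?_, ?_, ?_⟩
  · exact orderOf_dvd_iff_pow_eq_one.1 ((Nat.modEq_zero_iff_dvd).1 hN0)
  · intro p
    have h1 : orderOf p ∣ ℓ ^ (c + f) := by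
      refine (orderOf_dvd_natCard p).trans ?_
      rw [hc]
      exact pow_dvd_pow _ (Nat.le_add_right _ _)
    have h2 : p ^ N = p ^ 1 := pow_eq_pow_iff_modEq.2 (hN1.of_dvd h1)
    rw [h2, pow_one]
  · intro v hv
    have h1 : ((ℓ ^ (c + f) : ℕ) : ℤ) ∣ (N : ℤ) - ((1 : ℕ) : ℤ) := Nat.modEq_iff_dvd.1 hN1.symm
    obtain ⟨e, he⟩ := h1
    have h2 : (N : ℚ) - 1 = (ℓ : ℚ) ^ (c + f) * (e : ℚ) := by
      have h3 : (((N : ℤ) - ((1 : ℕ) : ℤ) : ℤ) : ℚ) = ((((ℓ ^ (c + f) : ℕ) : ℤ) * e : ℤ) : ℚ) := by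
        rw [he]
      push_cast at h3
      exact h3
    rw [h2, pow_add]
    have h4 : (ℓ : ℚ) ^ c * (ℓ : ℚ) ^ f * (e : ℚ) * v =
        ((ℓ : ℚ) ^ c * (e : ℚ)) * ((ℓ : ℚ) ^ f * v) := by ring
    rw [h4]
    exact mul_mem (mul_mem (pow_mem (nat_mem ℓ ℓ) c) (int_mem ℓ e)) (hf v hv)

end rl

section res

variable {X : Type}

/-- the restriction of an action -/
def resHom {H : Type} [Group H] (Y : X → Prop) (i : H →* Equiv.Perm X)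
    (h : ∀ g x, Y (i g x) ↔ Y x) : H →* Equiv.Perm {x // Y x} where
  toFun g := (i g).subtypePerm (h g)
  map_one' := by
    ext x
    change i 1 x.1 = x.1
    rw [map_one, Equiv.Perm.one_apply]
  map_mul' g g' := by
    ext x
    change i (g * g') x.1 = i g (i g' x.1)
    rw [map_mul, Equiv.Perm.mul_apply]

theorem resHom_apply {H : Type} [Group H] (Y : X → Prop) (i : H →* Equiv.Perm X)
    (h : ∀ g x, Y (i g x) ↔ Y x) (g : H) (x : {x // Y x}) :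
    ((resHom Y i h g x : {x // Y x}) : X) = i g x := rfl

end res

section bdl

variable {Γ : Type} [Group Γ] (D : Bd Γ)

theorem comm_a_a3 : Commute D.a D.a3 := by
  unfold Bd.a3
  have h := D.r2
  have h1 : Commute D.a D.A := h
  exact (h1.inv_right).mul_right (Commute.refl _)

theorem comm_a_T : Commute D.a D.T := by
  unfold Bd.T
  have h := D.r1
  have h3 : Commute D.a ((D.a * D.b) ^ 3) := by
    have e1 : (D.a * D.b) ^ 3 = D.a * D.b * D.a * (D.b * D.a * D.b) := by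
      rw [pow_succ, pow_two]
      simp only [mul_assoc]
    change D.a * _ = _ * D.a
    rw [e1, ← h]
    calc D.a * (D.a * D.b * D.a * (D.a * D.b * D.a))
        = D.a * (D.a * D.b * D.a) * (D.a * D.b * D.a) := by simp only [mul_assoc]
      _ = D.a * (D.b * D.a * D.b) * (D.a * D.b * D.a) := by rw [h]
      _ = (D.a * D.b * D.a) * (D.b * (D.a * D.b * D.a)) := by simp only [mul_assoc]
      _ = (D.a * D.b * D.a) * ((D.b * D.a * D.b) * D.a) := by simp only [mul_assoc]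
      _ = (D.a * D.b * D.a) * ((D.a * D.b * D.a) * D.a) := by rw [h]
      _ = (D.a * D.b * D.a) * (D.a * D.b * D.a) * D.a := by simp only [mul_assoc]
  have h6 : (D.a * D.b) ^ 6 = (D.a * D.b) ^ 3 * (D.a * D.b) ^ 3 := by
    rw [← pow_add]
  rw [h6]
  exact h3.mul_right h3

end bdl

section main

variable {Γ P X : Type} [Group Γ] [CommGroup P] (i : Γ →* Equiv.Perm X) (q : P →* Equiv.Perm X)
  (σ : Equiv.Perm X)

/-- the `N`-th power of a relation -/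
theorem pow_rel (hc : ∀ g p x, i g (q p x) = q p (i g x)) (hg : ∀ g x, i g (σ x) = σ (i g x))
    (hq : ∀ p x, q p (σ x) = σ (q p x)) (N : ℕ) (hN : σ ^ N = 1) (hp : ∀ p : P, p ^ N = p)
    {s t : Γ} (hst : Commute s t) (k l : ℤ) (p : P) (j : ℤ) (x : X)
    (h : i (s ^ k * t ^ l) x = q p ((σ ^ j) x)) : i (s ^ (N * k) * t ^ (N * l)) x = q p x := by
  have c1 : Commute (i (s ^ k * t ^ l)) (q p) := Equiv.ext fun y => hc _ _ y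
  have c2 : Commute (i (s ^ k * t ^ l)) σ := Equiv.ext fun y => hg _ y
  have c3 : Commute (q p) σ := Equiv.ext fun y => hq _ y
  have c4 : Commute (i (s ^ k * t ^ l)) (q p * σ ^ j) := c1.mul_right (c2.zpow_right j)
  have h1 : ∀ m : ℕ, ((i (s ^ k * t ^ l)) ^ m) x = ((q p * σ ^ j) ^ m) x := by
    intro m
    induction m with
    | zero => rfl
    | succ m ih =>
      have h2 : (i (s ^ k * t ^ l)) ^ (m + 1) = i (s ^ k * t ^ l) * (i (s ^ k * t ^ l)) ^ m :=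
        pow_succ' _ _
      rw [h2, Equiv.Perm.mul_apply, ih, ← Equiv.Perm.mul_apply, (c4.pow_right m).eq,
        Equiv.Perm.mul_apply, h, pow_succ, Equiv.Perm.mul_apply]
      rfl
  have h3 := h1 N
  have e1 : (q p * σ ^ j) ^ N = q p := by
    rw [(c3.zpow_right j).mul_pow, ← map_pow, hp p, ← zpow_natCast, ← zpow_mul, mul_comm j,
      zpow_mul, zpow_natCast, hN, one_zpow, mul_one]
  have e2 : (i (s ^ k * t ^ l)) ^ N = i (s ^ (N * k) * t ^ (N * l)) := by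
    rw [← map_pow, ((hst.zpow_right l).zpow_left k).mul_pow, ← zpow_natCast, ← zpow_natCast,
      ← zpow_mul, ← zpow_mul, mul_comm k, mul_comm l]
  rw [e1, e2] at h3
  exact h3

end main

/-- the fibre over a set of integers -/
theorem fibre (xre : XreStmt) (ℓ : ℕ) [Fact ℓ.Prime] (Γ P X : Type) [Group Γ] [CommGroup P]
    [Finite P] [Fintype X] (D : Bd Γ) (i : Γ →* Equiv.Perm X) (q : P →* Equiv.Perm X) (p₀ : P)
    (σ : Equiv.Perm X) (hc : ∀ g p x, i g (q p x) = q p (i g x))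
    (hg : ∀ g x, i g (σ x) = σ (i g x)) (hq : ∀ p x, q p (σ x) = σ (q p x))
    (hTs : i D.Ts = q p₀ * σ) (hfree : ∀ p x, q p x = x → p = 1) (r₁ r₂ : P → ℚ)
    (hr₁ : ∀ p p', r₁ (p * p') - r₁ p - r₁ p' ∈ Rl ℓ)
    (hr₂ : ∀ p p', r₂ (p * p') - r₂ p - r₂ p' ∈ Rl ℓ)
    (κ₁ κ₂ μ₁ μ₂ η ζ δ m : X → ℚ) (hF : Fm (Rl ℓ) D i q r₁ r₂ κ₁ κ₂ μ₁ μ₂ η ζ δ m)
    (hinv : ∀ F ∈ ({κ₁, κ₂, μ₁, μ₂, η, ζ, δ, m} : Set (X → ℚ)), ∀ x, F (σ x) = F x)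
    (N : ℕ) (hN : σ ^ N = 1) (hp : ∀ p : P, p ^ N = p)
    (hv : ∀ F ∈ ({κ₁, κ₂, μ₁, μ₂, η, ζ, δ, m} : Set (X → ℚ)), ∀ x,
      ((N : ℚ) - 1) * F x ∈ Rl ℓ) (Y : X → Prop) [Fintype {x // Y x}] (s : Set ℤ)
    (hY : ∀ x, Y x ↔ {j : ℤ | (σ ^ j) x = x} = s) :
    (∑ x : {x // Y x}, (r₁ p₀ * r₂ p₀ - κ₁ x * κ₂ x -
      12 * ((μ₁ x - μ₁ (i D.B⁻¹ x)) * (μ₂ x - μ₂ (i D.B⁻¹ x)) + η x * ζ x -
        (μ₂ x - m x) * δ x + (r₁ p₀ - κ₁ x) * μ₂ x + μ₁ x * (r₂ p₀ - κ₂ x)))) / Nat.card P ∈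
      Rl ℓ := by
  classical
  have cg : ∀ g : Γ, ∀ j : ℤ, Commute (i g) (σ ^ j) := fun g j =>
    Commute.zpow_right (show Commute (i g) σ from Equiv.ext fun y => hg g y) j
  have cq : ∀ p : P, ∀ j : ℤ, Commute (q p) (σ ^ j) := fun p j =>
    Commute.zpow_right (show Commute (q p) σ from Equiv.ext fun y => hq p y) j
  have cg' : ∀ g : Γ, ∀ j : ℤ, ∀ x, i g ((σ ^ j) x) = (σ ^ j) (i g x) := fun g j x =>
    congrArg (fun f : Equiv.Perm X => f x) (cg g j)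
  have cq' : ∀ p : P, ∀ j : ℤ, ∀ x, q p ((σ ^ j) x) = (σ ^ j) (q p x) := fun p j x =>
    congrArg (fun f : Equiv.Perm X => f x) (cq p j)
  have hYi : ∀ g x, Y (i g x) ↔ Y x := by
    intro g x
    rw [hY, hY]
    have : {j : ℤ | (σ ^ j) (i g x) = i g x} = {j : ℤ | (σ ^ j) x = x} := by
      ext j
      simp only [Set.mem_ofPred_eq]
      rw [← cg', EmbeddingLike.apply_eq_iff_eq]
    rw [this]
  have hYq : ∀ p x, Y (q p x) ↔ Y x := by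
    intro p x
    rw [hY, hY]
    have : {j : ℤ | (σ ^ j) (q p x) = q p x} = {j : ℤ | (σ ^ j) x = x} := by
      ext j
      simp only [Set.mem_ofPred_eq]
      rw [← cq', EmbeddingLike.apply_eq_iff_eq]
    rw [this]
  have hYσ : ∀ (w : Subgroup.zpowers σ) x, Y ((Subgroup.zpowers σ).subtype w x) ↔ Y x := by
    rintro ⟨w, hw⟩ x
    obtain ⟨k, rfl⟩ := Subgroup.mem_zpowers_iff.1 hw
    change Y ((σ ^ k) x) ↔ Y x
    rw [hY, hY]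
    have : {j : ℤ | (σ ^ j) ((σ ^ k) x) = (σ ^ k) x} = {j : ℤ | (σ ^ j) x = x} := by
      ext j
      simp only [Set.mem_ofPred_eq]
      rw [← Equiv.Perm.mul_apply, (Commute.zpow_zpow (Commute.refl σ) j k).eq,
        Equiv.Perm.mul_apply, EmbeddingLike.apply_eq_iff_eq]
    rw [this]
  let ρ : Subgroup.zpowers σ →* Equiv.Perm {x // Y x} :=
    resHom Y (Subgroup.zpowers σ).subtype hYσ
  let Zs : Subgroup (Equiv.Perm {x // Y x}) := ρ.range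
  have hz : ∀ z : Zs, ∃ j : ℤ, ∀ x : {x // Y x},
      ((((z : Equiv.Perm {x // Y x}) x) : {x // Y x}) : X) = (σ ^ j) x := by
    rintro ⟨z, ⟨⟨w, hw⟩, rfl⟩⟩
    obtain ⟨k, rfl⟩ := Subgroup.mem_zpowers_iff.1 hw
    exact ⟨k, fun x => rfl⟩
  have hcomm : ∀ z z' : Zs, z * z' = z' * z := by
    intro z z'
    obtain ⟨j, hj⟩ := hz z
    obtain ⟨j', hj'⟩ := hz z'
    apply Subtype.ext
    apply Equiv.ext
    intro x
    apply Subtype.ext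
    change (((z : Equiv.Perm {x // Y x}) ((z' : Equiv.Perm {x // Y x}) x) : {x // Y x}) : X) =
      (((z' : Equiv.Perm {x // Y x}) ((z : Equiv.Perm {x // Y x}) x) : {x // Y x}) : X)
    rw [hj, hj', hj', hj, ← Equiv.Perm.mul_apply, ← Equiv.Perm.mul_apply,
      (Commute.zpow_zpow (Commute.refl σ) j j').eq]
  let cgr : CommGroup Zs := { (inferInstance : Group Zs) with mul_comm := hcomm }
  let qr : P →* Equiv.Perm {x // Y x} := resHom Y q hYq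
  let ir : Γ →* Equiv.Perm {x // Y x} := resHom Y i hYi
  have hqz : ∀ (p : P) (z : Zs), qr p * (z : Equiv.Perm {x // Y x}) =
      (z : Equiv.Perm {x // Y x}) * qr p := by
    intro p z
    obtain ⟨j, hj⟩ := hz z
    apply Equiv.ext
    intro x
    apply Subtype.ext
    change q p (((z : Equiv.Perm {x // Y x}) x : {x // Y x}) : X) =
      ((z : Equiv.Perm {x // Y x}) (qr p x) : {x // Y x})
    rw [hj, hj]
    exact cq' p j x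
  let qs : P × Zs →* Equiv.Perm {x // Y x} :=
    { toFun := fun w => qr w.1 * (w.2 : Equiv.Perm {x // Y x})
      map_one' := by
        change qr 1 * ((1 : Zs) : Equiv.Perm {x // Y x}) = 1
        rw [map_one, Subgroup.coe_one, mul_one]
      map_mul' := by
        intro w w'
        change qr (w.1 * w'.1) * ((w.2 * w'.2 : Zs) : Equiv.Perm {x // Y x}) =
          qr w.1 * (w.2 : Equiv.Perm {x // Y x}) * (qr w'.1 * (w'.2 : Equiv.Perm {x // Y x}))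
        rw [map_mul]
        have h1 : ((w.2 * w'.2 : Zs) : Equiv.Perm {x // Y x}) =
          (w.2 : Equiv.Perm {x // Y x}) * (w'.2 : Equiv.Perm {x // Y x}) := rfl
        rw [h1, mul_assoc, mul_assoc, ← mul_assoc (qr w'.1), hqz w'.1 w.2, mul_assoc] }
  have hqs : ∀ (w : P × Zs) (x : {x // Y x}), ((qs w x : {x // Y x}) : X) =
      q w.1 (((w.2 : Equiv.Perm {x // Y x}) x : {x // Y x}) : X) := fun w x => rfl
  have hir : ∀ (g : Γ) (x : {x // Y x}), ((ir g x : {x // Y x}) : X) = i g x := fun g x => rfl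
  let zσ : Zs := ⟨ρ ⟨σ, Subgroup.mem_zpowers σ⟩, ⟨_, rfl⟩⟩
  -- the relation for elements
  have key : ∀ (s t : Γ), Commute s t → ∀ (k l : ℤ) (w : P × Zs) (x : {x // Y x}),
      ir (s ^ k * t ^ l) x = qs w x → i (s ^ (N * k) * t ^ (N * l)) (x : X) = q w.1 (x : X) := by
    intro s t hst k l w x h
    obtain ⟨j, hj⟩ := hz w.2
    have h1 := congrArg Subtype.val h
    rw [hir, hqs, hj] at h1
    exact pow_rel i q σ hc hg hq N hN hp hst k l w.1 j x h1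
  have key1 : ∀ (s : Γ), ∀ (k : ℤ) (w : P × Zs) (x : {x // Y x}),
      ir (s ^ k) x = qs w x → i (s ^ (N * k)) (x : X) = q w.1 (x : X) := by
    intro s k w x h
    have h1 := key s 1 (Commute.one_right s) k 0 w x (by rw [zpow_zero, mul_one]; exact h)
    rw [one_zpow, mul_one] at h1
    exact h1
  have conv : ∀ u v : ℚ, ((N : ℚ) - 1) * u ∈ Rl ℓ → ((N : ℚ) - 1) * v ∈ Rl ℓ →
      ∀ (k l : ℤ) (a : ℚ), a - ((N * k : ℤ) : ℚ) * u - ((N * l : ℤ) : ℚ) * v ∈ Rl ℓ →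
        a - k * u - l * v ∈ Rl ℓ := by
    intro u v hu hv k l a h
    have e1 : a - k * u - l * v = (a - ((N * k : ℤ) : ℚ) * u - ((N * l : ℤ) : ℚ) * v) +
        ((k : ℚ) * (((N : ℚ) - 1) * u) + (l : ℚ) * (((N : ℚ) - 1) * v)) := by
      push_cast
      ring
    rw [e1]
    exact add_mem h (add_mem (mul_mem (int_mem ℓ k) hu) (mul_mem (int_mem ℓ l) hv))
  have conv1 : ∀ u : ℚ, ((N : ℚ) - 1) * u ∈ Rl ℓ →
      ∀ (k : ℤ) (a : ℚ), a - ((N * k : ℤ) : ℚ) * u ∈ Rl ℓ → a - k * u ∈ Rl ℓ := by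
    intro u hu k a h
    have h1 := conv u 0 hu (by rw [mul_zero]; exact zero_mem _) k 0 a (by
      rw [mul_zero, sub_zero]
      exact h)
    rw [mul_zero, sub_zero] at h1
    exact h1
  have hinvz : ∀ F ∈ ({κ₁, κ₂, μ₁, μ₂, η, ζ, δ, m} : Set (X → ℚ)), ∀ (j : ℤ) x,
      F ((σ ^ j) x) = F x := by
    intro F hF' j
    have h1 : ∀ (n : ℕ) x, F ((σ ^ n) x) = F x := by
      intro n
      induction n with
      | zero => intro x; rfl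
      | succ n ih =>
        intro x
        rw [pow_succ, Equiv.Perm.mul_apply, ih, hinv F hF']
    intro x
    cases j with
    | ofNat n => exact h1 n x
    | negSucc n =>
      rw [zpow_negSucc]
      have h2 := h1 (n + 1) (((σ ^ (n + 1))⁻¹) x)
      rw [← h2, ← Equiv.Perm.mul_apply, mul_inv_cancel, Equiv.Perm.one_apply]
  have vκ₁ := hv κ₁ (by simp)
  have vκ₂ := hv κ₂ (by simp)
  have vμ₁ := hv μ₁ (by simp)
  have vμ₂ := hv μ₂ (by simp)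
  have vη := hv η (by simp)
  have vζ := hv ζ (by simp)
  have vδ := hv δ (by simp)
  have vm := hv m (by simp)
  have res := xre Γ (P × Zs) {x // Y x} (Rl ℓ) D ir qs (p₀, zσ) ?_ ?_ ?_
    (fun w => r₁ w.1) (fun w => r₂ w.1) ?_ ?_ (fun x => κ₁ x) (fun x => κ₂ x) (fun x => μ₁ x)
    (fun x => μ₂ x) (fun x => η x) (fun x => ζ x) (fun x => δ x) (fun x => m x) ?_
  · have hcard : Nat.card (P × Zs) = Nat.card P * Nat.card Zs := Nat.card_prod _ _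
    rw [hcard] at res
    have hZ : (Nat.card Zs : ℚ) ≠ 0 := by
      have : Nat.card Zs ≠ 0 := Nat.card_pos.ne'
      exact_mod_cast this
    have h1 := mul_mem res (nat_mem ℓ (Nat.card Zs))
    rw [Nat.cast_mul, div_mul_eq_mul_div, mul_div_mul_right _ _ hZ] at h1
    exact h1
  · intro g w x
    obtain ⟨j, hj⟩ := hz w.2
    apply Subtype.ext
    rw [hir, hqs, hqs, hj, hj, hir, hc, cg']
  · apply Equiv.ext
    intro x
    apply Subtype.ext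
    rw [hir, hqs, hTs]
    rfl
  · rintro ⟨p, z⟩ x h
    obtain ⟨j, hj⟩ := hz z
    have h0 := key1 1 0 (p, z) x (by rw [zpow_zero, map_one]; exact h.symm)
    rw [one_zpow, map_one] at h0
    have h1 : p = 1 := hfree p x h0.symm
    have h2 := congrArg Subtype.val h
    rw [hqs, hj] at h2
    change q p ((σ ^ j) x) = x at h2
    rw [h1, map_one] at h2
    have hjs : j ∈ s := by
      rw [← (hY x).1 x.2]
      exact h2
    have h3 : z = 1 := by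
      apply Subtype.ext
      apply Equiv.ext
      intro y
      apply Subtype.ext
      rw [hj]
      have : j ∈ {j : ℤ | (σ ^ j) (y : X) = y} := by
        rw [(hY y).1 y.2]
        exact hjs
      exact this
    rw [h1, h3]
    rfl
  · intro w w'
    exact hr₁ w.1 w'.1
  · intro w w'
    exact hr₂ w.1 w'.1
  · constructor
    · intro F hF' w x
      obtain ⟨j, hj⟩ := hz w.2
      have aux : ∀ F ∈ ({κ₁, κ₂, μ₁, μ₂, η, ζ, δ, m} : Set (X → ℚ)),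
          F ((qs w x : {x // Y x}) : X) = F x := by
        intro F hF''
        rw [hqs, hj, hF.pinv F hF'', hinvz F hF'']
      simp only [Set.mem_insert_iff, Set.mem_singleton_iff] at hF'
      rcases hF' with rfl | rfl | rfl | rfl | rfl | rfl | rfl | rfl
      all_goals exact aux _ (by simp)
    · intro F hF' x
      simp only [Set.mem_insert_iff, Set.mem_singleton_iff] at hF'
      rcases hF' with rfl | rfl | rfl | rfl | rfl | rfl | rfl | rfl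
      all_goals exact hF.ainv _ (by simp) x
    · intro F hF' x
      simp only [Set.mem_insert_iff, Set.mem_singleton_iff] at hF'
      rcases hF' with rfl | rfl
      all_goals exact hF.binv _ (by simp) x
    · intro F hF' x
      simp only [Set.mem_insert_iff, Set.mem_singleton_iff] at hF'
      rcases hF' with rfl | rfl | rfl | rfl
      all_goals exact hF.Ainv _ (by simp) x
    · intro F hF' x
      simp only [Set.mem_insert_iff, Set.mem_singleton_iff] at hF'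
      rcases hF' with rfl | rfl
      all_goals exact hF.A'inv _ (by simp) x
    · intro F hF' x
      simp only [Set.mem_insert_iff, Set.mem_singleton_iff] at hF'
      rcases hF' with rfl | rfl
      all_goals exact hF.Tinv _ (by simp) x
    · intro x k w h
      exact conv1 _ (vκ₁ x) k _ (hF.k₁ x _ _ (key1 _ _ _ _ h))
    · intro x k w h
      exact conv1 _ (vκ₂ x) k _ (hF.k₂ x _ _ (key1 _ _ _ _ h))
    · intro x k w h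
      exact conv1 _ (vμ₁ x) k _ (hF.m₁ x _ _ (key1 _ _ _ _ h))
    · intro x k w h
      exact conv1 _ (vμ₂ x) k _ (hF.m₂ x _ _ (key1 _ _ _ _ h))
    · intro x k l w h
      have h1 := hF.e₁ x _ _ _ (key _ _ (comm_a_a3 D) _ _ _ _ h)
      refine conv _ _ ?_ (vμ₁ _) k l _ h1
      rw [mul_sub]
      exact sub_mem (vμ₁ x) (vη x)
    · intro x k l w h
      have h1 := hF.e₂ x _ _ _ (key _ _ (comm_a_a3 D) _ _ _ _ h)
      refine conv _ _ (vμ₂ x) ?_ k l _ h1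
      rw [mul_sub]
      exact sub_mem (vμ₂ _) (vζ x)
    · intro x k l w h
      have h1 := hF.t₁ x _ _ _ (key _ _ (comm_a_T D) _ _ _ _ h)
      refine conv _ _ (vμ₁ x) ?_ k l _ h1
      rw [mul_add]
      exact add_mem (vκ₁ x) (vδ x)
    · intro x k l w h
      exact conv _ _ (vm x) (vκ₂ x) k l _ (hF.t₂ x _ _ _ (key _ _ (comm_a_T D) _ _ _ _ h))

theorem xsg (xre : XreStmt) : XsgStmt := by
  intro ℓ _ Γ P X _ _ _ _ D i q p₀ σ hP hc hg hq hσ hTs hfree r₁ r₂ hr₁ hr₂ κ₁ κ₂ μ₁ μ₂ η ζ δ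
    m hF hinv
  classical
  obtain ⟨N, hN, hp, hv⟩ := exists_N ℓ hP σ hσ
    ((Finset.univ : Finset (Fin 8 × X)).image
      (fun z => (![κ₁, κ₂, μ₁, μ₂, η, ζ, δ, m] : Fin 8 → X → ℚ) z.1 z.2))
  have hv' : ∀ F ∈ ({κ₁, κ₂, μ₁, μ₂, η, ζ, δ, m} : Set (X → ℚ)), ∀ x,
      ((N : ℚ) - 1) * F x ∈ Rl ℓ := by
    intro F hF' x
    have h1 : ∃ k : Fin 8, (![κ₁, κ₂, μ₁, μ₂, η, ζ, δ, m] : Fin 8 → X → ℚ) k = F := by
      simp only [Set.mem_insert_iff, Set.mem_singleton_iff] at hF'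
      rcases hF' with rfl | rfl | rfl | rfl | rfl | rfl | rfl | rfl
      · exact ⟨0, rfl⟩
      · exact ⟨1, rfl⟩
      · exact ⟨2, rfl⟩
      · exact ⟨3, rfl⟩
      · exact ⟨4, rfl⟩
      · exact ⟨5, rfl⟩
      · exact ⟨6, rfl⟩
      · exact ⟨7, rfl⟩
    obtain ⟨k, rfl⟩ := h1
    exact hv _ (Finset.mem_image.2 ⟨(k, x), Finset.mem_univ _, rfl⟩)
  let ty : X → Set ℤ := fun x => {j : ℤ | (σ ^ j) x = x}
  have hsum : ∀ G : X → ℚ, ∑ x, G x = ∑ s ∈ (Finset.univ : Finset X).image ty,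
      ∑ x ∈ Finset.univ.filter (fun x => ty x = s), G x := fun G =>
    (Finset.sum_fiberwise_of_maps_to (fun x _ => Finset.mem_image_of_mem ty (Finset.mem_univ x))
      G).symm
  rw [hsum, Finset.sum_div]
  refine sum_mem fun s _ => ?_
  rw [Finset.sum_subtype (p := fun x => ty x = s) (F := inferInstance)
    (Finset.univ.filter (fun x => ty x = s)) (by simp)]
  exact fibre xre ℓ Γ P X D i q p₀ σ hc hg hq hTs hfree r₁ r₂ hr₁ hr₂ κ₁ κ₂ μ₁ μ₂ η ζ δ m hF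
    hinv N hN hp hv' (fun x => ty x = s) s (fun x => Iff.rfl)

end Pool.Agent.SOR.H3
end
end -- Pool.Agent.Helper3_SOR.XSG

section -- Pool.Agent.Helper19_SOR.BRX

/-!
# Squad SOR, row BRX: the braid group on triples
-/

set_option autoImplicit false

namespace Pool.Agent.SOR.H19

open Pool.Agent.SOR

variable {G : Type} [Group G] {g₁ g₂ : G}

/-- the equation -/
def Eqn (g₁ g₂ : G) (w : G × G × G) : Prop :=
  w.1 * w.2.1 * w.1⁻¹ * w.2.1⁻¹ = g₁ * w.2.2 * g₂ * w.2.2⁻¹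

theorem eqn_g {x y u : G} (h : Eqn g₁ g₂ (x, y, u)) :
    g₂ = u⁻¹ * g₁⁻¹ * (x * y * x⁻¹ * y⁻¹) * u := by
  have h1 : x * y * x⁻¹ * y⁻¹ = g₁ * u * g₂ * u⁻¹ := h
  rw [h1]
  group

theorem eqn_of {x y u : G} (h : g₂ = u⁻¹ * g₁⁻¹ * (x * y * x⁻¹ * y⁻¹) * u) :
    Eqn g₁ g₂ (x, y, u) := by
  change x * y * x⁻¹ * y⁻¹ = g₁ * u * g₂ * u⁻¹
  rw [h]
  group

/-- a permutation of the triples -/
def pm (f f' : G × G × G → G × G × G) (hf : ∀ w, Eqn g₁ g₂ w → Eqn g₁ g₂ (f w))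
    (hf' : ∀ w, Eqn g₁ g₂ w → Eqn g₁ g₂ (f' w)) (h1 : ∀ w, f' (f w) = w)
    (h2 : ∀ w, f (f' w) = w) : Equiv.Perm (Tr G g₁ g₂) where
  toFun z := ⟨f z.1, hf z.1 z.2⟩
  invFun z := ⟨f' z.1, hf' z.1 z.2⟩
  left_inv z := Subtype.ext (h1 z.1)
  right_inv z := Subtype.ext (h2 z.1)

omit [Group G] in
theorem trip {a b c a' b' c' : G} (h1 : a = a') (h2 : b = b') (h3 : c = c') :
    ((a, b, c) : G × G × G) = (a', b', c') := by rw [h1, h2, h3]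

variable (g₁ g₂) in
def ga : Equiv.Perm (Tr G g₁ g₂) :=
  pm (fun w => (w.1, w.2.1 * w.1, w.2.2)) (fun w => (w.1, w.2.1 * w.1⁻¹, w.2.2))
    (by
      rintro ⟨x, y, u⟩ h
      apply eqn_of
      refine (eqn_g h).trans ?_
      group)
    (by
      rintro ⟨x, y, u⟩ h
      apply eqn_of
      refine (eqn_g h).trans ?_
      group)
    (by
      rintro ⟨x, y, u⟩
      exact trip rfl (by group) rfl)
    (by
      rintro ⟨x, y, u⟩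
      exact trip rfl (by group) rfl)

variable (g₁ g₂) in
def gb : Equiv.Perm (Tr G g₁ g₂) :=
  pm (fun w => (w.1 * w.2.1⁻¹, w.2.1, w.2.2)) (fun w => (w.1 * w.2.1, w.2.1, w.2.2))
    (by
      rintro ⟨x, y, u⟩ h
      apply eqn_of
      refine (eqn_g h).trans ?_
      group)
    (by
      rintro ⟨x, y, u⟩ h
      apply eqn_of
      refine (eqn_g h).trans ?_
      group)
    (by
      rintro ⟨x, y, u⟩
      exact trip (by group) rfl rfl)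
    (by
      rintro ⟨x, y, u⟩
      exact trip (by group) rfl rfl)

variable (g₁ g₂) in
def gc : Equiv.Perm (Tr G g₁ g₂) :=
  pm (fun w => (w.1, g₁⁻¹ * w.1 * w.2.1, g₁⁻¹ * w.1 * w.2.2))
    (fun w => (w.1, w.1⁻¹ * g₁ * w.2.1, w.1⁻¹ * g₁ * w.2.2))
    (by
      rintro ⟨x, y, u⟩ h
      apply eqn_of
      refine (eqn_g h).trans ?_
      group)
    (by
      rintro ⟨x, y, u⟩ h
      apply eqn_of
      refine (eqn_g h).trans ?_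
      group)
    (by
      rintro ⟨x, y, u⟩
      exact trip rfl (by group) (by group))
    (by
      rintro ⟨x, y, u⟩
      exact trip rfl (by group) (by group))

variable (g₁ g₂) in
def gt : Equiv.Perm (Tr G g₁ g₂) :=
  pm (fun w => (g₁⁻¹ * w.1 * g₁, g₁⁻¹ * w.2.1 * g₁, g₁⁻¹ * w.2.2 * g₂))
    (fun w => (g₁ * w.1 * g₁⁻¹, g₁ * w.2.1 * g₁⁻¹, g₁ * w.2.2 * g₂⁻¹))
    (by
      rintro ⟨x, y, u⟩ h
      change g₁⁻¹ * x * g₁ * (g₁⁻¹ * y * g₁) * (g₁⁻¹ * x * g₁)⁻¹ * (g₁⁻¹ * y * g₁)⁻¹ =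
        g₁ * (g₁⁻¹ * u * g₂) * g₂ * (g₁⁻¹ * u * g₂)⁻¹
      have h1 : x * y * x⁻¹ * y⁻¹ = g₁ * u * g₂ * u⁻¹ := h
      calc _ = g₁⁻¹ * (x * y * x⁻¹ * y⁻¹) * g₁ := by group
        _ = _ := by rw [h1]; group)
    (by
      rintro ⟨x, y, u⟩ h
      change g₁ * x * g₁⁻¹ * (g₁ * y * g₁⁻¹) * (g₁ * x * g₁⁻¹)⁻¹ * (g₁ * y * g₁⁻¹)⁻¹ =
        g₁ * (g₁ * u * g₂⁻¹) * g₂ * (g₁ * u * g₂⁻¹)⁻¹
      have h1 : x * y * x⁻¹ * y⁻¹ = g₁ * u * g₂ * u⁻¹ := h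
      calc _ = g₁ * (x * y * x⁻¹ * y⁻¹) * g₁⁻¹ := by group
        _ = _ := by rw [h1]; group)
    (by
      rintro ⟨x, y, u⟩
      exact trip (by group) (by group) (by group))
    (by
      rintro ⟨x, y, u⟩
      exact trip (by group) (by group) (by group))

theorem ga_v (z : Tr G g₁ g₂) : (ga g₁ g₂ z).1 = (z.1.1, z.1.2.1 * z.1.1, z.1.2.2) := rfl
theorem gai_v (z : Tr G g₁ g₂) : ((ga g₁ g₂)⁻¹ z).1 = (z.1.1, z.1.2.1 * z.1.1⁻¹, z.1.2.2) := rfl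
theorem gb_v (z : Tr G g₁ g₂) : (gb g₁ g₂ z).1 = (z.1.1 * z.1.2.1⁻¹, z.1.2.1, z.1.2.2) := rfl
theorem gbi_v (z : Tr G g₁ g₂) : ((gb g₁ g₂)⁻¹ z).1 = (z.1.1 * z.1.2.1, z.1.2.1, z.1.2.2) := rfl
theorem gc_v (z : Tr G g₁ g₂) :
    (gc g₁ g₂ z).1 = (z.1.1, g₁⁻¹ * z.1.1 * z.1.2.1, g₁⁻¹ * z.1.1 * z.1.2.2) := rfl
theorem gci_v (z : Tr G g₁ g₂) :
    ((gc g₁ g₂)⁻¹ z).1 = (z.1.1, z.1.1⁻¹ * g₁ * z.1.2.1, z.1.1⁻¹ * g₁ * z.1.2.2) := rfl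
theorem gt_v (z : Tr G g₁ g₂) :
    (gt g₁ g₂ z).1 = (g₁⁻¹ * z.1.1 * g₁, g₁⁻¹ * z.1.2.1 * g₁, g₁⁻¹ * z.1.2.2 * g₂) := rfl

variable (g₁ g₂) in
/-- `A` -/
def gA : Equiv.Perm (Tr G g₁ g₂) := ga g₁ g₂ * (gc g₁ g₂)⁻¹

variable (g₁ g₂) in
/-- `B` -/
def gB : Equiv.Perm (Tr G g₁ g₂) := gb g₁ g₂ * (gA g₁ g₂)⁻¹ * (gb g₁ g₂)⁻¹

theorem gA_v (z : Tr G g₁ g₂) :
    (gA g₁ g₂ z).1 = (z.1.1, z.1.1⁻¹ * g₁ * z.1.2.1 * z.1.1, z.1.1⁻¹ * g₁ * z.1.2.2) := rfl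

theorem gAi_v (z : Tr G g₁ g₂) :
    ((gA g₁ g₂)⁻¹ z).1 = (z.1.1, g₁⁻¹ * z.1.1 * (z.1.2.1 * z.1.1⁻¹), g₁⁻¹ * z.1.1 * z.1.2.2) := by
  unfold gA
  rw [mul_inv_rev, inv_inv]
  rfl

theorem gB_v (z : Tr G g₁ g₂) :
    (gB g₁ g₂ z).1 = (z.1.1 * z.1.2.1 * z.1.1 * z.1.2.1⁻¹ * z.1.1⁻¹ * g₁,
      g₁⁻¹ * z.1.1 * z.1.2.1 * z.1.1⁻¹, g₁⁻¹ * z.1.1 * z.1.2.1 * z.1.2.2) := by
  have h1 : (gB g₁ g₂ z).1 = (gb g₁ g₂ ((gA g₁ g₂)⁻¹ ((gb g₁ g₂)⁻¹ z))).1 := rfl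
  rw [h1, gb_v, gAi_v, gbi_v]
  exact trip (by group) (by group) (by group)

theorem perm_ext {P Q : Equiv.Perm (Tr G g₁ g₂)} (h : ∀ z, (P z).1 = (Q z).1) : P = Q :=
  Equiv.ext fun z => Subtype.ext (h z)

theorem gab3_v (z : Tr G g₁ g₂) :
    (((ga g₁ g₂ * gb g₁ g₂) ^ 3) z).1 = (z.1.2.1 * z.1.1⁻¹ * z.1.2.1⁻¹,
      z.1.2.1 * z.1.1 * z.1.2.1⁻¹ * z.1.1⁻¹ * z.1.2.1⁻¹, z.1.2.2) := by
  have h1 : (((ga g₁ g₂ * gb g₁ g₂) ^ 3) z) = ga g₁ g₂ (gb g₁ g₂ (ga g₁ g₂ (gb g₁ g₂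
      (ga g₁ g₂ (gb g₁ g₂ z))))) := by
    rw [pow_succ, pow_succ, pow_one]
    rfl
  rw [h1]
  simp only [ga_v, gb_v]
  exact trip (by group) (by group) rfl

theorem gab6_v (z : Tr G g₁ g₂) :
    (((ga g₁ g₂ * gb g₁ g₂) ^ 6) z).1 =
      ((z.1.1 * z.1.2.1 * z.1.1⁻¹ * z.1.2.1⁻¹)⁻¹ * z.1.1 *
        (z.1.1 * z.1.2.1 * z.1.1⁻¹ * z.1.2.1⁻¹),
      (z.1.1 * z.1.2.1 * z.1.1⁻¹ * z.1.2.1⁻¹)⁻¹ * z.1.2.1 *
        (z.1.1 * z.1.2.1 * z.1.1⁻¹ * z.1.2.1⁻¹), z.1.2.2) := by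
  have h1 : (((ga g₁ g₂ * gb g₁ g₂) ^ 6) z) = ((ga g₁ g₂ * gb g₁ g₂) ^ 3)
      (((ga g₁ g₂ * gb g₁ g₂) ^ 3) z) := by
    rw [show (6 : ℕ) = 3 + 3 from rfl, pow_add]
    rfl
  rw [h1]
  simp only [gab3_v]
  exact trip (by group) (by group) rfl

theorem r6aux (x y u h g : G) (hg : g = u⁻¹ * h⁻¹ * (x * y * x⁻¹ * y⁻¹) * u) :
    ((x * y * x⁻¹ * y⁻¹)⁻¹ * x * (x * y * x⁻¹ * y⁻¹) *
      ((x * y * x⁻¹ * y⁻¹)⁻¹ * y * (x * y * x⁻¹ * y⁻¹)) *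
      ((x * y * x⁻¹ * y⁻¹)⁻¹ * x * (x * y * x⁻¹ * y⁻¹)) *
      ((x * y * x⁻¹ * y⁻¹)⁻¹ * y * (x * y * x⁻¹ * y⁻¹))⁻¹ *
      ((x * y * x⁻¹ * y⁻¹)⁻¹ * x * (x * y * x⁻¹ * y⁻¹))⁻¹ * h)⁻¹ * h *
      (h⁻¹ * ((x * y * x⁻¹ * y⁻¹)⁻¹ * x * (x * y * x⁻¹ * y⁻¹)) *
        ((x * y * x⁻¹ * y⁻¹)⁻¹ * y * (x * y * x⁻¹ * y⁻¹)) * u) =
    h⁻¹ * (h⁻¹ * x * h) * ((h⁻¹ * x * h)⁻¹ * h * (h⁻¹ * y * h) * (h⁻¹ * x * h)) *
      ((h⁻¹ * x * h)⁻¹ * h * (h⁻¹ * u * g)) := by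
  rw [hg]
  group

variable (g₁ g₂) in
/-- the data -/
def gD : Bd (Equiv.Perm (Tr G g₁ g₂)) where
  a := ga g₁ g₂
  b := gb g₁ g₂
  A := gA g₁ g₂
  B := gB g₁ g₂
  Ts := gt g₁ g₂
  r1 := perm_ext fun z => by
    change (ga g₁ g₂ (gb g₁ g₂ (ga g₁ g₂ z))).1 = (gb g₁ g₂ (ga g₁ g₂ (gb g₁ g₂ z))).1
    simp only [ga_v, gb_v]
    exact trip (by group) (by group) rfl
  r2 := perm_ext fun z => by
    change (ga g₁ g₂ (gA g₁ g₂ z)).1 = (gA g₁ g₂ (ga g₁ g₂ z)).1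
    simp only [ga_v, gA_v]
    exact trip rfl (by group) (by group)
  r3 := perm_ext fun z => by
    change (ga g₁ g₂ (gB g₁ g₂ z)).1 = (gA g₁ g₂ (gB g₁ g₂ (ga g₁ g₂ z))).1
    simp only [ga_v, gA_v, gB_v]
    exact trip (by group) (by group) (by group)
  r4 := by
    unfold gB
    group
  r5 := perm_ext fun z => by
    change (gb g₁ g₂ (gB g₁ g₂ z)).1 = (gB g₁ g₂ (gA g₁ g₂ (gB g₁ g₂ (gb g₁ g₂ z)))).1
    simp only [gb_v, gA_v, gB_v]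
    exact trip (by group) (by group) (by group)
  r6 := by
    have h : gA g₁ g₂ * gB g₁ g₂ * (ga g₁ g₂ * gb g₁ g₂) ^ 6 = gB g₁ g₂ * gA g₁ g₂ * gt g₁ g₂ := by
      refine perm_ext fun z => ?_
      change (gA g₁ g₂ (gB g₁ g₂ (((ga g₁ g₂ * gb g₁ g₂) ^ 6) z))).1 =
        (gB g₁ g₂ (gA g₁ g₂ (gt g₁ g₂ z))).1
      have hg := eqn_g (show Eqn g₁ g₂ (z.1.1, z.1.2.1, z.1.2.2) from z.2)
      simp only [gA_v, gB_v, gab6_v, gt_v]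
      exact trip (by group) (by group) (r6aux _ _ _ _ _ hg)
    calc (ga g₁ g₂ * gb g₁ g₂) ^ 6 = (gB g₁ g₂)⁻¹ * (gA g₁ g₂)⁻¹ *
        (gA g₁ g₂ * gB g₁ g₂ * (ga g₁ g₂ * gb g₁ g₂) ^ 6) := by group
      _ = _ := by rw [h]; group
  r7 := perm_ext fun z => by
    change (ga g₁ g₂ (gt g₁ g₂ z)).1 = (gt g₁ g₂ (ga g₁ g₂ z)).1
    simp only [ga_v, gt_v]
    exact trip rfl (by group) rfl
  r8 := perm_ext fun z => by
    change (gb g₁ g₂ (gt g₁ g₂ z)).1 = (gt g₁ g₂ (gb g₁ g₂ z)).1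
    simp only [gb_v, gt_v]
    exact trip (by group) rfl rfl
  r9 := perm_ext fun z => by
    change (gA g₁ g₂ (gt g₁ g₂ z)).1 = (gt g₁ g₂ (gA g₁ g₂ z)).1
    simp only [gA_v, gt_v]
    exact trip rfl (by group) (by group)
  r10 := perm_ext fun z => by
    change (gB g₁ g₂ (gt g₁ g₂ z)).1 = (gt g₁ g₂ (gB g₁ g₂ z)).1
    simp only [gB_v, gt_v]
    exact trip (by group) (by group) (by group)

/-- formulas for powers -/
theorem zpow_formula {T R : Type} (v : T → R) (P : Equiv.Perm T) (F : ℤ → R → R)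
    (h0 : ∀ r, F 0 r = r) (h1 : ∀ z, v (P z) = F 1 (v z)) (hs : ∀ k r, F k (F 1 r) = F (k + 1) r)
    (k : ℤ) : ∀ z, v ((P ^ k) z) = F k (v z) := by
  induction k using Int.induction_on with
  | zero =>
    intro z
    rw [zpow_zero, h0]
    rfl
  | succ n ih =>
    intro z
    rw [zpow_add_one, Equiv.Perm.mul_apply, ih, h1, hs]
  | pred n ih =>
    intro z
    have h2 : v z = F 1 (v (P⁻¹ z)) := by
      rw [← h1, ← Equiv.Perm.mul_apply, mul_inv_cancel, Equiv.Perm.one_apply]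
    rw [zpow_sub_one, Equiv.Perm.mul_apply, ih, h2, hs]
    congr 1
    ring

theorem gD_a3 : (gD g₁ g₂).a3 = gc g₁ g₂ := by
  change (ga g₁ g₂ * (gc g₁ g₂)⁻¹)⁻¹ * ga g₁ g₂ = gc g₁ g₂
  group

/-- the action of the centralisers, raw -/
def rq (p₁ p₂ : G) (w : G × G × G) : G × G × G :=
  (p₁ * w.1 * p₁⁻¹, p₁ * w.2.1 * p₁⁻¹, p₁ * w.2.2 * p₂⁻¹)

theorem rq_eqn {p₁ p₂ : G} (h1 : p₁ * g₁ = g₁ * p₁) (h2 : p₂ * g₂ = g₂ * p₂) (w : G × G × G)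
    (h : Eqn g₁ g₂ w) : Eqn g₁ g₂ (rq p₁ p₂ w) := by
  obtain ⟨x, y, u⟩ := w
  have h3 : x * y * x⁻¹ * y⁻¹ = g₁ * u * g₂ * u⁻¹ := h
  change p₁ * x * p₁⁻¹ * (p₁ * y * p₁⁻¹) * (p₁ * x * p₁⁻¹)⁻¹ * (p₁ * y * p₁⁻¹)⁻¹ =
    g₁ * (p₁ * u * p₂⁻¹) * g₂ * (p₁ * u * p₂⁻¹)⁻¹
  have h4 : p₂⁻¹ * g₂ * p₂ = g₂ := by
    rw [mul_assoc, ← h2]
    group
  calc _ = p₁ * (x * y * x⁻¹ * y⁻¹) * p₁⁻¹ := by group
    _ = (p₁ * g₁) * u * g₂ * u⁻¹ * p₁⁻¹ := by rw [h3]; group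
    _ = (g₁ * p₁) * u * (p₂⁻¹ * g₂ * p₂) * u⁻¹ * p₁⁻¹ := by rw [h1, h4]
    _ = _ := by group

theorem rq_mul (p₁ p₂ r₁ r₂ : G) (w : G × G × G) :
    rq p₁ p₂ (rq r₁ r₂ w) = rq (p₁ * r₁) (p₂ * r₂) w := by
  unfold rq
  exact trip (by group) (by group) (by group)

theorem rq_one (w : G × G × G) : rq 1 1 w = w := by
  obtain ⟨x, y, u⟩ := w
  unfold rq
  exact trip (by group) (by group) (by group)

/-- the action of the centralisers -/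
def gq (V₁ V₂ : Subgroup G) (h1 : ∀ v ∈ V₁, v * g₁ = g₁ * v) (h2 : ∀ v ∈ V₂, v * g₂ = g₂ * v) :
    V₁ × V₂ →* Equiv.Perm (Tr G g₁ g₂) where
  toFun p :=
    { toFun := fun z => ⟨rq (p.1 : G) (p.2 : G) z.1, rq_eqn (h1 _ p.1.2) (h2 _ p.2.2) z.1 z.2⟩
      invFun := fun z => ⟨rq (p.1 : G)⁻¹ (p.2 : G)⁻¹ z.1,
        rq_eqn (h1 _ (V₁.inv_mem p.1.2)) (h2 _ (V₂.inv_mem p.2.2)) z.1 z.2⟩
      left_inv := fun z => Subtype.ext (by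
        change rq (p.1 : G)⁻¹ (p.2 : G)⁻¹ (rq (p.1 : G) (p.2 : G) z.1) = z.1
        rw [rq_mul, inv_mul_cancel, inv_mul_cancel, rq_one])
      right_inv := fun z => Subtype.ext (by
        change rq (p.1 : G) (p.2 : G) (rq (p.1 : G)⁻¹ (p.2 : G)⁻¹ z.1) = z.1
        rw [rq_mul, mul_inv_cancel, mul_inv_cancel, rq_one]) }
  map_one' := perm_ext fun z => by
    change rq ((1 : V₁) : G) ((1 : V₂) : G) z.1 = z.1
    rw [Subgroup.coe_one, Subgroup.coe_one, rq_one]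
  map_mul' p r := perm_ext fun z => by
    change rq (((p * r).1 : V₁) : G) (((p * r).2 : V₂) : G) z.1 =
      rq (p.1 : G) (p.2 : G) (rq (r.1 : G) (r.2 : G) z.1)
    rw [rq_mul]
    rfl

theorem brx : BrxStmt := by
  intro G _ g₁ g₂
  refine ⟨gD g₁ g₂, ga_v, gb_v, ?_, gab6_v, gt_v, ?_, ?_, ?_, ?_⟩
  · intro z
    rw [gD_a3]
    rfl
  · intro z k
    refine zpow_formula (fun z : Tr G g₁ g₂ => z.1) (ga g₁ g₂)
      (fun k w => (w.1, w.2.1 * w.1 ^ k, w.2.2)) ?_ ?_ ?_ k z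
    · rintro ⟨x, y, u⟩
      exact trip rfl (by rw [zpow_zero, mul_one]) rfl
    · intro z
      rw [ga_v]
      exact trip rfl (by rw [zpow_one]) rfl
    · rintro k ⟨x, y, u⟩
      exact trip rfl (by rw [zpow_one, add_comm, zpow_add, zpow_one, mul_assoc]) rfl
  · intro z k
    rw [gD_a3]
    refine zpow_formula (fun z : Tr G g₁ g₂ => z.1) (gc g₁ g₂)
      (fun k w => (w.1, (g₁⁻¹ * w.1) ^ k * w.2.1, (g₁⁻¹ * w.1) ^ k * w.2.2)) ?_ ?_ ?_ k z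
    · rintro ⟨x, y, u⟩
      exact trip rfl (by rw [zpow_zero, one_mul]) (by rw [zpow_zero, one_mul])
    · intro z
      rw [gc_v]
      exact trip rfl (by rw [zpow_one]) (by rw [zpow_one])
    · rintro k ⟨x, y, u⟩
      exact trip rfl (by rw [zpow_add, mul_assoc]) (by rw [zpow_add, mul_assoc])
  · intro z k
    refine zpow_formula (fun z : Tr G g₁ g₂ => z.1) ((ga g₁ g₂ * gb g₁ g₂) ^ 6)
      (fun k w => ((w.1 * w.2.1 * w.1⁻¹ * w.2.1⁻¹) ^ (-k) * w.1 *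
        (w.1 * w.2.1 * w.1⁻¹ * w.2.1⁻¹) ^ k,
        (w.1 * w.2.1 * w.1⁻¹ * w.2.1⁻¹) ^ (-k) * w.2.1 *
        (w.1 * w.2.1 * w.1⁻¹ * w.2.1⁻¹) ^ k, w.2.2)) ?_ ?_ ?_ k z
    · rintro ⟨x, y, u⟩
      exact trip (by simp) (by simp) rfl
    · intro z
      rw [gab6_v]
      exact trip (by simp) (by simp) rfl
    · rintro k ⟨x, y, u⟩
      have hk : ∀ c : G, c = x * y * x⁻¹ * y⁻¹ →
          (c ^ (-1 : ℤ) * x * c ^ (1 : ℤ)) * (c ^ (-1 : ℤ) * y * c ^ (1 : ℤ)) *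
            (c ^ (-1 : ℤ) * x * c ^ (1 : ℤ))⁻¹ * (c ^ (-1 : ℤ) * y * c ^ (1 : ℤ))⁻¹ = c := by
        intro c hc
        calc _ = c⁻¹ * (x * y * x⁻¹ * y⁻¹) * c := by group
          _ = c := by rw [← hc]; group
      have hk1 := hk _ rfl
      refine trip ?_ ?_ rfl
      · dsimp only
        rw [hk1]
        generalize x * y * x⁻¹ * y⁻¹ = c
        rw [neg_add, zpow_add, zpow_add, ← mul_assoc, ← mul_assoc]
        group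
      · dsimp only
        rw [hk1]
        generalize x * y * x⁻¹ * y⁻¹ = c
        rw [neg_add, zpow_add, zpow_add, ← mul_assoc, ← mul_assoc]
        group
  · intro V₁ V₂ h1 h2
    have hC : ∀ (p : V₁ × V₂), Commute (ga g₁ g₂) (gq V₁ V₂ h1 h2 p) ∧
        Commute (gb g₁ g₂) (gq V₁ V₂ h1 h2 p) ∧ Commute (gc g₁ g₂) (gq V₁ V₂ h1 h2 p) ∧
        Commute (gt g₁ g₂) (gq V₁ V₂ h1 h2 p) := by
      intro p
      have e1 : (p.1 : G)⁻¹ * g₁ * p.1 = g₁ := by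
        rw [mul_assoc, ← h1 _ p.1.2]
        group
      have e1' : g₁⁻¹ * (p.1 : G) = p.1 * g₁⁻¹ := by
        have := h1 _ p.1.2
        rw [inv_mul_eq_iff_eq_mul, ← mul_assoc, ← this]
        group
      have e1'' : (p.1 : G)⁻¹ * g₁ = g₁ * (p.1 : G)⁻¹ := by
        rw [inv_mul_eq_iff_eq_mul, ← mul_assoc, h1 _ p.1.2]
        group
      have e2 : (p.2 : G)⁻¹ * g₂ = g₂ * (p.2 : G)⁻¹ := by
        rw [inv_mul_eq_iff_eq_mul, ← mul_assoc, h2 _ p.2.2]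
        group
      refine ⟨perm_ext fun z => ?_, perm_ext fun z => ?_, perm_ext fun z => ?_,
        perm_ext fun z => ?_⟩
      · change (ga g₁ g₂ (gq V₁ V₂ h1 h2 p z)).1 = rq (p.1 : G) (p.2 : G) (ga g₁ g₂ z).1
        rw [ga_v, ga_v]
        change (_, _, _) = (_, _, _)
        exact trip rfl (by
          change (p.1 : G) * z.1.2.1 * (p.1 : G)⁻¹ * ((p.1 : G) * z.1.1 * (p.1 : G)⁻¹) =
            (p.1 : G) * (z.1.2.1 * z.1.1) * (p.1 : G)⁻¹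
          group) rfl
      · change (gb g₁ g₂ (gq V₁ V₂ h1 h2 p z)).1 = rq (p.1 : G) (p.2 : G) (gb g₁ g₂ z).1
        rw [gb_v, gb_v]
        exact trip (by
          change (p.1 : G) * z.1.1 * (p.1 : G)⁻¹ * ((p.1 : G) * z.1.2.1 * (p.1 : G)⁻¹)⁻¹ =
            (p.1 : G) * (z.1.1 * z.1.2.1⁻¹) * (p.1 : G)⁻¹
          group) rfl rfl
      · change (gc g₁ g₂ (gq V₁ V₂ h1 h2 p z)).1 = rq (p.1 : G) (p.2 : G) (gc g₁ g₂ z).1
        rw [gc_v, gc_v]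
        refine trip rfl ?_ ?_
        · change g₁⁻¹ * ((p.1 : G) * z.1.1 * (p.1 : G)⁻¹) * ((p.1 : G) * z.1.2.1 * (p.1 : G)⁻¹) =
            (p.1 : G) * (g₁⁻¹ * z.1.1 * z.1.2.1) * (p.1 : G)⁻¹
          calc _ = (g₁⁻¹ * (p.1 : G)) * z.1.1 * z.1.2.1 * (p.1 : G)⁻¹ := by group
            _ = _ := by rw [e1']; group
        · change g₁⁻¹ * ((p.1 : G) * z.1.1 * (p.1 : G)⁻¹) * ((p.1 : G) * z.1.2.2 * (p.2 : G)⁻¹) =
            (p.1 : G) * (g₁⁻¹ * z.1.1 * z.1.2.2) * (p.2 : G)⁻¹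
          calc _ = (g₁⁻¹ * (p.1 : G)) * z.1.1 * z.1.2.2 * (p.2 : G)⁻¹ := by group
            _ = _ := by rw [e1']; group
      · change (gt g₁ g₂ (gq V₁ V₂ h1 h2 p z)).1 = rq (p.1 : G) (p.2 : G) (gt g₁ g₂ z).1
        rw [gt_v, gt_v]
        refine trip ?_ ?_ ?_
        · change g₁⁻¹ * ((p.1 : G) * z.1.1 * (p.1 : G)⁻¹) * g₁ =
            (p.1 : G) * (g₁⁻¹ * z.1.1 * g₁) * (p.1 : G)⁻¹
          calc _ = (g₁⁻¹ * (p.1 : G)) * z.1.1 * ((p.1 : G)⁻¹ * g₁) := by group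
            _ = _ := by rw [e1', e1'']; group
        · change g₁⁻¹ * ((p.1 : G) * z.1.2.1 * (p.1 : G)⁻¹) * g₁ =
            (p.1 : G) * (g₁⁻¹ * z.1.2.1 * g₁) * (p.1 : G)⁻¹
          calc _ = (g₁⁻¹ * (p.1 : G)) * z.1.2.1 * ((p.1 : G)⁻¹ * g₁) := by group
            _ = _ := by rw [e1', e1'']; group
        · change g₁⁻¹ * ((p.1 : G) * z.1.2.2 * (p.2 : G)⁻¹) * g₂ =
            (p.1 : G) * (g₁⁻¹ * z.1.2.2 * g₂) * (p.2 : G)⁻¹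
          calc _ = (g₁⁻¹ * (p.1 : G)) * z.1.2.2 * ((p.2 : G)⁻¹ * g₂) := by group
            _ = _ := by rw [e1', e2]; group
    have hA : ∀ p, Commute (gA g₁ g₂) (gq V₁ V₂ h1 h2 p) := fun p =>
      (hC p).1.mul_left (hC p).2.2.1.inv_left
    have hB : ∀ p, Commute (gB g₁ g₂) (gq V₁ V₂ h1 h2 p) := fun p =>
      ((hC p).2.1.mul_left (hA p).inv_left).mul_left (hC p).2.1.inv_left
    have app : ∀ {P Q : Equiv.Perm (Tr G g₁ g₂)}, Commute P Q → ∀ z, P (Q z) = Q (P z) :=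
      fun h z => congrFun (congrArg DFunLike.coe h.eq) z
    refine ⟨gq V₁ V₂ h1 h2, fun p z => rfl, fun p z => app (hC p).1 z, fun p z => app (hC p).2.1 z,
      fun p z => app (hA p) z, fun p z => app (hB p) z, fun p z => app (hC p).2.2.2 z⟩

end Pool.Agent.SOR.H19
end -- Pool.Agent.Helper19_SOR.BRX

section -- Pool.Agent.Helper32_SOR.LEX

/-!
# Squad SOR, row LEX: the rational numbers for a type
-/

set_option autoImplicit false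

open scoped BigOperators

noncomputable section

namespace Pool.Agent.SOR.H32

section rr

variable {P : Type} [CommGroup P] {R : Subring ℚ} {r : P → ℚ}

theorem r_one (hr : ∀ p p', r (p * p') - r p - r p' ∈ R) : r 1 ∈ R := by
  have h := R.neg_mem (hr 1 1)
  rw [mul_one] at h
  have e : -(r 1 - r 1 - r 1) = r 1 := by ring
  rwa [e] at h

theorem r_zpow (hr : ∀ p p', r (p * p') - r p - r p' ∈ R) (p : P) (c : ℤ) :
    r (p ^ c) - c * r p ∈ R := by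
  induction c using Int.induction_on with
  | zero =>
    rw [zpow_zero, Int.cast_zero, zero_mul, sub_zero]
    exact r_one hr
  | succ n ih =>
    have h1 := hr (p ^ (n : ℤ)) p
    have h2 := R.add_mem h1 ih
    rw [zpow_add_one]
    have e : r (p ^ (n : ℤ) * p) - ((n : ℤ) + 1 : ℤ) * r p =
        r (p ^ (n : ℤ) * p) - r (p ^ (n : ℤ)) - r p + (r (p ^ (n : ℤ)) - ((n : ℤ) : ℚ) * r p) := by
      push_cast
      ring
    rw [e]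
    exact h2
  | pred n ih =>
    have h1 := hr (p ^ (-(n : ℤ) - 1)) p
    rw [← zpow_add_one, sub_add_cancel] at h1
    have h2 := R.sub_mem ih h1
    have e : r (p ^ (-(n : ℤ))) - ((-(n : ℤ) : ℤ) : ℚ) * r p -
        (r (p ^ (-(n : ℤ))) - r (p ^ (-(n : ℤ) - 1)) - r p) =
        r (p ^ (-(n : ℤ) - 1)) - ((-(n : ℤ) - 1 : ℤ) : ℚ) * r p := by
      push_cast
      ring
    rw [e] at h2
    exact h2

theorem int_mul_mem (c : ℤ) {x : ℚ} (hx : x ∈ R) : (c : ℚ) * x ∈ R := by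
  have h := R.zsmul_mem hx c
  rwa [zsmul_eq_mul] at h

end rr

section ss

variable {P : Type} [CommGroup P] {R : Subring ℚ} {r : P → ℚ}

theorem S_zpow {S : ℤ → ℤ → P → Prop} (h1 : S 0 0 1)
    (hm : ∀ k l p k' l' p', S k l p → S k' l' p' → S (k + k') (l + l') (p * p'))
    (hi : ∀ k l p, S k l p → S (-k) (-l) p⁻¹) {k l : ℤ} {p : P} (h : S k l p) (c : ℤ) :
    S (c * k) (c * l) (p ^ c) := by
  have hn : ∀ m : ℕ, S (m * k) (m * l) (p ^ m) := by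
    intro m
    induction m with
    | zero =>
      rw [Nat.cast_zero, zero_mul, zero_mul, pow_zero]
      exact h1
    | succ m ih =>
      have h2 := hm _ _ _ _ _ _ ih h
      have e1 : ((m + 1 : ℕ) : ℤ) * k = m * k + k := by push_cast; ring
      have e2 : ((m + 1 : ℕ) : ℤ) * l = m * l + l := by push_cast; ring
      rw [e1, e2, pow_succ]
      exact h2
  rcases Int.eq_nat_or_neg c with ⟨m, rfl | rfl⟩
  · rw [zpow_natCast]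
    exact hn m
  · have h2 := hi _ _ _ (hn m)
    rw [zpow_neg, zpow_natCast, neg_mul, neg_mul]
    exact h2

/-- the second number -/
theorem second (hr : ∀ p p', r (p * p') - r p - r p' ∈ R) {S : ℤ → ℤ → P → Prop} (h1 : S 0 0 1)
    (hm : ∀ k l p k' l' p', S k l p → S k' l' p' → S (k + k') (l + l') (p * p'))
    (hi : ∀ k l p, S k l p → S (-k) (-l) p⁻¹) {n : ℕ} (hn0 : 0 < n) (hn : S n 0 1) (ν : ℚ)
    (hν : ∀ l p, S 0 l p → r p - l * ν ∈ R) :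
    ∃ α : ℚ, ∀ k l p, S k l p → r p - k * α - l * ν ∈ R := by
  classical
  have hex : ∃ k₀ : ℕ, 0 < k₀ ∧ ∃ l₀ p₀, S k₀ l₀ p₀ := ⟨n, hn0, 0, 1, hn⟩
  obtain ⟨k₀, hk₀⟩ : ∃ k₀, k₀ = Nat.find hex := ⟨_, rfl⟩
  have hspec := Nat.find_spec hex
  rw [← hk₀] at hspec
  obtain ⟨hk0, l₀, p₀, hS⟩ := hspec
  have hmin : ∀ m : ℕ, m < k₀ → ∀ l p, S m l p → m = 0 := by
    intro m hm' l p h
    by_contra hne
    have h2 : ¬ (0 < m ∧ ∃ l₀ p₀, S m l₀ p₀) := Nat.find_min hex (by rw [← hk₀]; exact hm')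
    exact h2 ⟨Nat.pos_of_ne_zero hne, l, p, h⟩
  have hk0z : (0 : ℤ) < k₀ := by exact_mod_cast hk0
  have hk0q : (k₀ : ℚ) ≠ 0 := by exact_mod_cast hk0.ne'
  refine ⟨(r p₀ - l₀ * ν) / k₀, ?_⟩
  intro k l p h
  have h3 := S_zpow h1 hm hi hS (-(k / k₀))
  have h4 := hm _ _ _ _ _ _ h h3
  have e1 : k + -(k / (k₀ : ℤ)) * k₀ = k % k₀ := by
    rw [Int.emod_def]
    ring
  rw [e1] at h4
  have h5 : 0 ≤ k % (k₀ : ℤ) := Int.emod_nonneg _ hk0z.ne'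
  have h6 : k % (k₀ : ℤ) < k₀ := Int.emod_lt_of_pos _ hk0z
  obtain ⟨m, hm2⟩ := Int.eq_ofNat_of_zero_le h5
  rw [hm2] at h4 h6
  have h7 : m = 0 := hmin m (by exact_mod_cast h6) _ _ h4
  rw [h7] at h4 hm2
  have h8 := hν _ _ h4
  have h9 := hr p (p₀ ^ (-(k / (k₀ : ℤ))))
  have h10 := r_zpow hr p₀ (-(k / (k₀ : ℤ)))
  have h11 := R.sub_mem h8 (R.add_mem h9 h10)
  have e2 : k = (k / (k₀ : ℤ)) * k₀ := by
    have h12 := Int.mul_ediv_add_emod k k₀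
    rw [hm2, Nat.cast_zero, add_zero, mul_comm] at h12
    exact h12.symm
  have e2q : (k : ℚ) = ((k / (k₀ : ℤ) : ℤ) : ℚ) * k₀ := by
    conv_lhs => rw [e2]
    push_cast
    rfl
  obtain ⟨c, hc⟩ : ∃ c : ℤ, c = k / (k₀ : ℤ) := ⟨_, rfl⟩
  rw [← hc] at h11 e2q
  have e3 : r p - k * ((r p₀ - l₀ * ν) / k₀) - l * ν =
      r (p * p₀ ^ (-c)) - ((l + -c * l₀ : ℤ) : ℚ) * ν -
      (r (p * p₀ ^ (-c)) - r p - r (p₀ ^ (-c)) + (r (p₀ ^ (-c)) - ((-c : ℤ) : ℚ) * r p₀)) := by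
    rw [e2q]
    push_cast
    field_simp
    ring
  rw [e3]
  exact h11

end ss

section types

variable {Γ X P : Type} [Group Γ] [CommGroup P] {n : ℕ} {Q : Subgroup P}
  {i : Γ →* Equiv.Perm X} {q : Q →* Equiv.Perm X} {s t : Γ}

theorem perm_inv {X : Type} (σ : Equiv.Perm X) (x : X) : σ⁻¹ (σ x) = x :=
  DFunLike.congr_fun (inv_mul_cancel σ) x

theorem zpow_congr {g : Γ} (hg : i (g ^ n) = 1) {k k' : ℤ} (h : (k : ZMod n) = (k' : ZMod n)) :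
    i (g ^ k) = i (g ^ k') := by
  rw [ZMod.intCast_eq_intCast_iff_dvd_sub] at h
  obtain ⟨m, hm⟩ := h
  have e : k' = k + n * m := by linarith
  rw [e, zpow_add, zpow_mul, zpow_natCast, map_mul, map_zpow i (g ^ n) m, hg, one_zpow, mul_one]

theorem mem_ty1 (hs : i (s ^ n) = 1) {x : X} (p : Q) (k : ℤ) :
    (Multiplicative.ofAdd (k : ZMod n), (p : P)) ∈ ty1 n i q s x ↔ i (s ^ k) x = q p x := by
  constructor
  · rintro ⟨k', p', h1, h2⟩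
    rw [Prod.mk.injEq] at h1
    have h3 : (k : ZMod n) = (k' : ZMod n) := Multiplicative.ofAdd.injective h1.1
    have h4 : p = p' := Subtype.ext h1.2
    rw [zpow_congr hs h3, h4]
    exact h2
  · intro h
    exact ⟨k, p, rfl, h⟩

theorem mem_ty2 (hs : i (s ^ n) = 1) (ht : i (t ^ n) = 1) {x : X} (p : Q) (k l : ℤ) :
    (Multiplicative.ofAdd (k : ZMod n), Multiplicative.ofAdd (l : ZMod n), (p : P)) ∈
      ty2 n i q s t x ↔ i (s ^ k * t ^ l) x = q p x := by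
  constructor
  · rintro ⟨k', l', p', h1, h2⟩
    rw [Prod.mk.injEq, Prod.mk.injEq] at h1
    have h3 : (k : ZMod n) = (k' : ZMod n) := Multiplicative.ofAdd.injective h1.1
    have h5 : (l : ZMod n) = (l' : ZMod n) := Multiplicative.ofAdd.injective h1.2.1
    have h4 : p = p' := Subtype.ext h1.2.2
    rw [map_mul, zpow_congr hs h3, zpow_congr ht h5, h4, ← map_mul]
    exact h2
  · intro h
    exact ⟨k, l, p, rfl, h⟩

theorem mem_ty1_Q {x : X} {z : Multiplicative (ZMod n)} {p : P} (h : (z, p) ∈ ty1 n i q s x) :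
    p ∈ Q := by
  obtain ⟨k, p', h1, _⟩ := h
  rw [Prod.mk.injEq] at h1
  rw [h1.2]
  exact p'.2

theorem mem_ty2_Q {x : X} {z w : Multiplicative (ZMod n)} {p : P}
    (h : (z, w, p) ∈ ty2 n i q s t x) : p ∈ Q := by
  obtain ⟨k, l, p', h1, _⟩ := h
  rw [Prod.mk.injEq, Prod.mk.injEq] at h1
  rw [h1.2.2]
  exact p'.2

theorem mul_rel (hc : ∀ g p x, i g (q p x) = q p (i g x)) {x : X} {g g' : Γ} {p p' : Q}
    (h : i g x = q p x) (h' : i g' x = q p' x) : i (g * g') x = q (p * p') x := by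
  have e1 : i (g * g') x = i g (i g' x) := by
    rw [map_mul]
    rfl
  have e2 : q (p * p') x = q p' (q p x) := by
    rw [mul_comm, map_mul]
    rfl
  rw [e1, h', hc, h, e2]

theorem inv_rel (hc : ∀ g p x, i g (q p x) = q p (i g x)) {x : X} {g : Γ} {p : Q}
    (h : i g x = q p x) : i g⁻¹ x = q p⁻¹ x := by
  have e1 : i g⁻¹ (i g x) = x := by
    rw [map_inv]
    exact perm_inv _ _
  have e2 : q p⁻¹ (q p (i g⁻¹ x)) = i g⁻¹ x := by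
    rw [map_inv]
    exact perm_inv _ _
  rw [← e2, ← hc, ← h, e1]

theorem free_rel {x : X} (hx : x ∈ Gd q) {p p' : Q} (h : q p x = q p' x) : p = p' := by
  have h1 : q (p'⁻¹ * p) x = x := by
    have e : q (p'⁻¹ * p) x = q p'⁻¹ (q p x) := by
      rw [map_mul]
      rfl
    rw [e, h, map_inv]
    exact perm_inv _ _
  have h2 := hx _ h1
  exact (inv_mul_eq_one.1 h2).symm

end types

/-- LEX -/
theorem lex : LexStmt := by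
  intro Γ X P _ _ _ R n hn Q i q s t hc hst hs ht x hx r hr
  have hrQ : ∀ p p' : Q, r ((p * p' : Q) : P) - r (p : P) - r (p' : P) ∈ R := by
    intro p p'
    rw [Subgroup.coe_mul]
    exact hr _ _
  have hcm : Commute s t := hst
  have h00 : i (1 : Γ) x = q 1 x := by
    rw [map_one, map_one]
  refine ⟨fun p k => mem_ty1 hs p k, fun p k l => mem_ty2 hs ht p k l, ?_, ?_, ?_⟩
  · -- one variable
    obtain ⟨α, hα⟩ := second (P := Q) (R := R) (r := fun p : Q => r (p : P)) hrQ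
      (S := fun k l p => l = 0 ∧ i (s ^ k) x = q p x)
      ⟨rfl, by rw [zpow_zero]; exact h00⟩
      (by
        rintro k l p k' l' p' ⟨h1, h2⟩ ⟨h3, h4⟩
        refine ⟨by omega, ?_⟩
        rw [zpow_add]
        exact mul_rel hc h2 h4)
      (by
        rintro k l p ⟨h1, h2⟩
        refine ⟨by omega, ?_⟩
        rw [zpow_neg]
        exact inv_rel hc h2)
      hn ⟨rfl, by rw [zpow_natCast, hs, map_one]⟩ 0
      (by
        rintro l p ⟨h1, h2⟩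
        have h3 : p = 1 := by
          apply free_rel hx
          rw [← h2, zpow_zero]
          exact h00
        show r (p : P) - l * 0 ∈ R
        rw [h3, mul_zero, sub_zero]
        exact r_one hr)
    refine ⟨α, ?_⟩
    intro k p hp
    have hpQ := mem_ty1_Q hp
    have h1 := (mem_ty1 (q := q) hs ⟨p, hpQ⟩ k).1 hp
    have h2 := hα k 0 ⟨p, hpQ⟩ ⟨rfl, h1⟩
    rw [Int.cast_zero, zero_mul, sub_zero] at h2
    exact h2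
  · -- the number for an element `(1, p)`
    intro p hp k p' hp'
    have hpQ := mem_ty1_Q hp
    have hpQ' := mem_ty1_Q hp'
    have h1 := (mem_ty1 (q := q) hs ⟨p', hpQ'⟩ k).1 hp'
    have h2 : i (s ^ (1 : ℤ)) x = q ⟨p, hpQ⟩ x := by
      have h3 := mem_ty1 (q := q) (x := x) hs ⟨p, hpQ⟩ 1
      rw [Int.cast_one] at h3
      exact h3.1 hp
    have h4 := S_zpow (P := Q) (S := fun k l p => l = 0 ∧ i (s ^ k) x = q p x)
      ⟨rfl, by rw [zpow_zero]; exact h00⟩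
      (by
        rintro k l p k' l' p' ⟨h1, h2⟩ ⟨h3, h4⟩
        refine ⟨by omega, ?_⟩
        rw [zpow_add]
        exact mul_rel hc h2 h4)
      (by
        rintro k l p ⟨h1, h2⟩
        refine ⟨by omega, ?_⟩
        rw [zpow_neg]
        exact inv_rel hc h2) (k := 1) (l := 0) (p := ⟨p, hpQ⟩) ⟨rfl, h2⟩ k
    have h5 := h4.2
    rw [mul_one, h1] at h5
    have h6 := free_rel hx h5
    have h7 : p' = p ^ k := by
      have h8 := congrArg Subtype.val h6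
      rw [Subgroup.coe_zpow] at h8
      exact h8
    rw [h7]
    exact r_zpow hr p k
  · -- two variables
    intro ν hν
    obtain ⟨α, hα⟩ := second (P := Q) (R := R) (r := fun p : Q => r (p : P)) hrQ
      (S := fun k l p => i (s ^ k * t ^ l) x = q p x)
      (by rw [zpow_zero, zpow_zero, mul_one]; exact h00)
      (by
        intro k l p k' l' p' h1 h2
        have e : s ^ (k + k') * t ^ (l + l') = s ^ k * t ^ l * (s ^ k' * t ^ l') := by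
          have h3 : s ^ k' * t ^ l = t ^ l * s ^ k' := ((hcm.zpow_left k').zpow_right l).eq
          rw [zpow_add, zpow_add, mul_assoc (s ^ k), ← mul_assoc (s ^ k') (t ^ l) (t ^ l'), h3]
          simp only [mul_assoc]
        rw [e]
        exact mul_rel hc h1 h2)
      (by
        intro k l p h1
        have e : s ^ (-k) * t ^ (-l) = (s ^ k * t ^ l)⁻¹ := by
          have h3 : s ^ k * t ^ l = t ^ l * s ^ k := ((hcm.zpow_left k).zpow_right l).eq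
          rw [h3, mul_inv_rev, zpow_neg, zpow_neg]
        rw [e]
        exact inv_rel hc h1)
      hn (by rw [zpow_natCast, zpow_zero, mul_one, hs, map_one]) ν
      (by
        intro l p h1
        rw [zpow_zero, one_mul] at h1
        have h2 := (mem_ty1 (n := n) ht p l).2 h1
        exact hν l p h2)
    refine ⟨α, ?_⟩
    intro k l p hp
    have hpQ := mem_ty2_Q hp
    have h1 := (mem_ty2 (q := q) hs ht ⟨p, hpQ⟩ k l).1 hp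
    exact hα k l ⟨p, hpQ⟩ h1

end Pool.Agent.SOR.H32
end
end -- Pool.Agent.Helper32_SOR.LEX

section -- Pool.Agent.Helper32_SOR.UNI

/-!
# Squad SOR, row UNI: universal functions of the types
-/

set_option autoImplicit false
set_option linter.unusedSectionVars false

open scoped BigOperators

noncomputable section

namespace Pool.Agent.SOR.H32

/-! ### the functions of the types -/

section fn

variable {P : Type} [CommGroup P]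

open Classical in
/-- the number for a set of elements of `Z × P` -/
def mu (R : Subring ℚ) (n : ℕ) (r : P → ℚ) (U : Set (L1 n P)) : ℚ :=
  if h : ∃ p, ∀ p', (Multiplicative.ofAdd (1 : ZMod n), p') ∈ U ↔ p' = p then r h.choose
  else if ∀ g ∈ U, r g.2 ∈ R then 0
  else if h : ∃ μ : ℚ, ∀ (k : ℤ) (p : P), (Multiplicative.ofAdd (k : ZMod n), p) ∈ U →
    r p - k * μ ∈ R then h.choose
  else 0

open Classical in
/-- the first number for a set of elements of `Z × Z × P` -/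
def al (R : Subring ℚ) (n : ℕ) (r : P → ℚ) (ν : ℚ) (Λ : Set (L2 n P)) : ℚ :=
  if ∀ g ∈ Λ, r g.2.2 ∈ R then 0
  else if h : ∃ α : ℚ, ∀ (k l : ℤ) (p : P), (Multiplicative.ofAdd (k : ZMod n),
    Multiplicative.ofAdd (l : ZMod n), p) ∈ Λ → r p - k * α - l * ν ∈ R then h.choose
  else 0

open Classical in
/-- the second number for a set of elements of `Z × Z × P` -/
def be (R : Subring ℚ) (n : ℕ) (r : P → ℚ) (μ : ℚ) (Λ : Set (L2 n P)) : ℚ :=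
  if ∀ g ∈ Λ, r g.2.2 ∈ R then 0
  else if h : ∃ β : ℚ, ∀ (k l : ℤ) (p : P), (Multiplicative.ofAdd (k : ZMod n),
    Multiplicative.ofAdd (l : ZMod n), p) ∈ Λ → r p - k * μ - l * β ∈ R then h.choose
  else 0

open Classical in
/-- the second number for a set of elements of `Z × Z × P`, equal to `ν` if possible -/
def bf (R : Subring ℚ) (n : ℕ) (r : P → ℚ) (μ ν : ℚ) (Λ : Set (L2 n P)) : ℚ :=
  if ∀ g ∈ Λ, r g.2.2 ∈ R then 0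
  else if ∀ (k l : ℤ) (p : P), (Multiplicative.ofAdd (k : ZMod n),
    Multiplicative.ofAdd (l : ZMod n), p) ∈ Λ → r p - k * μ - l * ν ∈ R then ν
  else if h : ∃ β : ℚ, ∀ (k l : ℤ) (p : P), (Multiplicative.ofAdd (k : ZMod n),
    Multiplicative.ofAdd (l : ZMod n), p) ∈ Λ → r p - k * μ - l * β ∈ R then h.choose
  else 0

/-- the first slice -/
def Ls (n : ℕ) (Λ : Set (L2 n P)) : Set (L1 n P) := {g | (g.1, 1, g.2) ∈ Λ}

/-- the second slice -/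
def Lt (n : ℕ) (Λ : Set (L2 n P)) : Set (L1 n P) := {g | (1, g.1, g.2) ∈ Λ}

variable {R : Subring ℚ} {n : ℕ} {r : P → ℚ}

theorem mu_one {U : Set (L1 n P)} {p : P}
    (h : ∀ p', (Multiplicative.ofAdd (1 : ZMod n), p') ∈ U ↔ p' = p) : mu R n r U = r p := by
  have hex : ∃ p, ∀ p', (Multiplicative.ofAdd (1 : ZMod n), p') ∈ U ↔ p' = p := ⟨p, h⟩
  unfold mu
  rw [dif_pos hex]
  have h1 := hex.choose_spec p
  have h2 : p = hex.choose := h1.1 ((h p).2 rfl)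
  rw [← h2]

theorem mu_zero (h0 : ∀ p, r p ∈ R → r p = 0) {U : Set (L1 n P)} (h : ∀ g ∈ U, r g.2 ∈ R) :
    mu R n r U = 0 := by
  by_cases hex : ∃ p, ∀ p', (Multiplicative.ofAdd (1 : ZMod n), p') ∈ U ↔ p' = p
  · obtain ⟨p, hp⟩ := hex
    rw [mu_one hp]
    exact h0 p (h _ ((hp p).2 rfl))
  · unfold mu
    rw [dif_neg hex, if_pos h]

theorem mu_spec {U : Set (L1 n P)}
    (h3 : ∃ μ : ℚ, ∀ (k : ℤ) (p : P), (Multiplicative.ofAdd (k : ZMod n), p) ∈ U →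
      r p - k * μ ∈ R)
    (h4 : ∀ p : P, (Multiplicative.ofAdd (1 : ZMod n), p) ∈ U →
      ∀ (k : ℤ) (p' : P), (Multiplicative.ofAdd (k : ZMod n), p') ∈ U → r p' - k * r p ∈ R)
    (k : ℤ) (p : P) (hp : (Multiplicative.ofAdd (k : ZMod n), p) ∈ U) :
    r p - k * mu R n r U ∈ R := by
  by_cases hex : ∃ p, ∀ p', (Multiplicative.ofAdd (1 : ZMod n), p') ∈ U ↔ p' = p
  · obtain ⟨p₁, hp₁⟩ := hex
    rw [mu_one hp₁]
    exact h4 p₁ ((hp₁ p₁).2 rfl) k p hp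
  · by_cases hR : ∀ g ∈ U, r g.2 ∈ R
    · unfold mu
      rw [dif_neg hex, if_pos hR, mul_zero, sub_zero]
      exact hR _ hp
    · unfold mu
      rw [dif_neg hex, if_neg hR, dif_pos h3]
      exact h3.choose_spec k p hp

theorem al_zero {ν : ℚ} {Λ : Set (L2 n P)} (h : ∀ g ∈ Λ, r g.2.2 ∈ R) : al R n r ν Λ = 0 := by
  unfold al
  rw [if_pos h]

theorem be_zero {μ : ℚ} {Λ : Set (L2 n P)} (h : ∀ g ∈ Λ, r g.2.2 ∈ R) : be R n r μ Λ = 0 := by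
  unfold be
  rw [if_pos h]

theorem bf_zero {μ ν : ℚ} {Λ : Set (L2 n P)} (h : ∀ g ∈ Λ, r g.2.2 ∈ R) :
    bf R n r μ ν Λ = 0 := by
  unfold bf
  rw [if_pos h]

theorem bf_nu {μ ν : ℚ} {Λ : Set (L2 n P)} (h0 : (∀ g ∈ Λ, r g.2.2 ∈ R) → ν = 0)
    (h : ∀ (k l : ℤ) (p : P), (Multiplicative.ofAdd (k : ZMod n),
      Multiplicative.ofAdd (l : ZMod n), p) ∈ Λ → r p - k * μ - l * ν ∈ R) :
    bf R n r μ ν Λ = ν := by
  by_cases hR : ∀ g ∈ Λ, r g.2.2 ∈ R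
  · rw [bf_zero hR, h0 hR]
  · unfold bf
    rw [if_neg hR, if_pos h]

theorem bf_spec {μ ν : ℚ} {Λ : Set (L2 n P)} (h0 : (∀ g ∈ Λ, r g.2.2 ∈ R) → μ = 0)
    (h3 : ∃ β : ℚ, ∀ (k l : ℤ) (p : P), (Multiplicative.ofAdd (k : ZMod n),
      Multiplicative.ofAdd (l : ZMod n), p) ∈ Λ → r p - k * μ - l * β ∈ R)
    (k l : ℤ) (p : P) (hp : (Multiplicative.ofAdd (k : ZMod n),
      Multiplicative.ofAdd (l : ZMod n), p) ∈ Λ) : r p - k * μ - l * bf R n r μ ν Λ ∈ R := by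
  by_cases hR : ∀ g ∈ Λ, r g.2.2 ∈ R
  · rw [bf_zero hR, h0 hR, mul_zero, mul_zero, sub_zero, sub_zero]
    exact hR _ hp
  · by_cases hν : ∀ (k l : ℤ) (p : P), (Multiplicative.ofAdd (k : ZMod n),
      Multiplicative.ofAdd (l : ZMod n), p) ∈ Λ → r p - k * μ - l * ν ∈ R
    · unfold bf
      rw [if_neg hR, if_pos hν]
      exact hν k l p hp
    · unfold bf
      rw [if_neg hR, if_neg hν, dif_pos h3]
      exact h3.choose_spec k l p hp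

theorem al_spec {ν : ℚ} {Λ : Set (L2 n P)} (h0 : (∀ g ∈ Λ, r g.2.2 ∈ R) → ν = 0)
    (h3 : ∃ α : ℚ, ∀ (k l : ℤ) (p : P), (Multiplicative.ofAdd (k : ZMod n),
      Multiplicative.ofAdd (l : ZMod n), p) ∈ Λ → r p - k * α - l * ν ∈ R)
    (k l : ℤ) (p : P) (hp : (Multiplicative.ofAdd (k : ZMod n),
      Multiplicative.ofAdd (l : ZMod n), p) ∈ Λ) : r p - k * al R n r ν Λ - l * ν ∈ R := by
  by_cases hR : ∀ g ∈ Λ, r g.2.2 ∈ R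
  · rw [al_zero hR, h0 hR, mul_zero, mul_zero, sub_zero, sub_zero]
    exact hR _ hp
  · unfold al
    rw [if_neg hR, dif_pos h3]
    exact h3.choose_spec k l p hp

theorem be_spec {μ : ℚ} {Λ : Set (L2 n P)} (h0 : (∀ g ∈ Λ, r g.2.2 ∈ R) → μ = 0)
    (h3 : ∃ β : ℚ, ∀ (k l : ℤ) (p : P), (Multiplicative.ofAdd (k : ZMod n),
      Multiplicative.ofAdd (l : ZMod n), p) ∈ Λ → r p - k * μ - l * β ∈ R)
    (k l : ℤ) (p : P) (hp : (Multiplicative.ofAdd (k : ZMod n),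
      Multiplicative.ofAdd (l : ZMod n), p) ∈ Λ) : r p - k * μ - l * be R n r μ Λ ∈ R := by
  by_cases hR : ∀ g ∈ Λ, r g.2.2 ∈ R
  · rw [be_zero hR, h0 hR, mul_zero, mul_zero, sub_zero, sub_zero]
    exact hR _ hp
  · unfold be
    rw [if_neg hR, dif_pos h3]
    exact h3.choose_spec k l p hp

end fn

/-! ### invariance of the types -/

section inv

variable {Γ X P : Type} [Group Γ] [CommGroup P] {n : ℕ} {Q : Subgroup P}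
  {i : Γ →* Equiv.Perm X} {q : Q →* Equiv.Perm X} {s t : Γ}

theorem ty1_congr {s s' : Γ} {x x' : X}
    (h : ∀ (k : ℤ) (p : Q), i (s ^ k) x = q p x ↔ i (s' ^ k) x' = q p x') :
    ty1 n i q s x = ty1 n i q s' x' := by
  ext g
  constructor
  · rintro ⟨k, p, h1, h2⟩
    exact ⟨k, p, h1, (h k p).1 h2⟩
  · rintro ⟨k, p, h1, h2⟩
    exact ⟨k, p, h1, (h k p).2 h2⟩

theorem ty2_congr {s t s' t' : Γ} {x x' : X}
    (h : ∀ (k l : ℤ) (p : Q), i (s ^ k * t ^ l) x = q p x ↔ i (s' ^ k * t' ^ l) x' = q p x') :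
    ty2 n i q s t x = ty2 n i q s' t' x' := by
  ext g
  constructor
  · rintro ⟨k, l, p, h1, h2⟩
    exact ⟨k, l, p, h1, (h k l p).1 h2⟩
  · rintro ⟨k, l, p, h1, h2⟩
    exact ⟨k, l, p, h1, (h k l p).2 h2⟩

/-- a permutation which commutes with `g` and `q p` -/
theorem rel_perm {w g : Equiv.Perm X} {c : Equiv.Perm X} (h1 : ∀ x, w (g x) = g (w x))
    (h2 : ∀ x, w (c x) = c (w x)) (x : X) : g (w x) = c (w x) ↔ g x = c x := by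
  rw [← h1, ← h2]
  exact w.injective.eq_iff

theorem rel_conj (hc : ∀ g p x, i g (q p x) = q p (i g x)) (g w : Γ) (p : Q) (x : X) :
    i w (i g x) = q p (i g x) ↔ i (g⁻¹ * w * g) x = q p x := by
  have e1 : i (g⁻¹ * w * g) x = i g⁻¹ (i w (i g x)) := by
    rw [map_mul, map_mul]
    rfl
  have e2 : ∀ y, i g (i g⁻¹ y) = y := by
    intro y
    have h := DFunLike.congr_fun (map_mul i g g⁻¹) y
    rw [mul_inv_cancel, map_one] at h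
    exact h.symm
  rw [e1]
  constructor
  · intro h
    have h1 := congrArg (i g⁻¹) h
    rw [h1, hc]
    have h2 : i g⁻¹ (i g x) = x := by
      have h := DFunLike.congr_fun (map_mul i g⁻¹ g) x
      rw [inv_mul_cancel, map_one] at h
      exact h.symm
    rw [h2]
  · intro h
    have h1 := congrArg (i g) h
    rw [e2, hc] at h1
    exact h1

theorem ty1_conj (hc : ∀ g p x, i g (q p x) = q p (i g x)) (g : Γ) (x : X) :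
    ty1 n i q s (i g x) = ty1 n i q (g⁻¹ * s * g) x := by
  apply ty1_congr
  intro k p
  rw [rel_conj hc]
  have e : (g⁻¹ * s * g) ^ k = g⁻¹ * s ^ k * g := by
    have h := conj_zpow (i := k) (a := g⁻¹) (b := s)
    rw [inv_inv] at h
    exact h
  rw [e]

theorem ty2_conj (hc : ∀ g p x, i g (q p x) = q p (i g x)) (g : Γ) (x : X) :
    ty2 n i q s t (i g x) = ty2 n i q (g⁻¹ * s * g) (g⁻¹ * t * g) x := by
  apply ty2_congr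
  intro k l p
  rw [rel_conj hc]
  have e : ∀ (w : Γ) (k : ℤ), (g⁻¹ * w * g) ^ k = g⁻¹ * w ^ k * g := by
    intro w k
    have h := conj_zpow (i := k) (a := g⁻¹) (b := w)
    rw [inv_inv] at h
    exact h
  rw [e, e]
  have e2 : g⁻¹ * s ^ k * g * (g⁻¹ * t ^ l * g) = g⁻¹ * (s ^ k * t ^ l) * g := by
    group
  rw [e2]

theorem ty1_inv (hc : ∀ g p x, i g (q p x) = q p (i g x)) {g : Γ} (h : Commute g s) (x : X) :
    ty1 n i q s (i g x) = ty1 n i q s x := by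
  rw [ty1_conj hc]
  have e : g⁻¹ * s * g = s := by
    rw [mul_assoc, ← h.eq, inv_mul_cancel_left]
  rw [e]

theorem ty2_inv (hc : ∀ g p x, i g (q p x) = q p (i g x)) {g : Γ} (h : Commute g s)
    (h' : Commute g t) (x : X) : ty2 n i q s t (i g x) = ty2 n i q s t x := by
  rw [ty2_conj hc]
  have e : g⁻¹ * s * g = s := by
    rw [mul_assoc, ← h.eq, inv_mul_cancel_left]
  have e' : g⁻¹ * t * g = t := by
    rw [mul_assoc, ← h'.eq, inv_mul_cancel_left]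
  rw [e, e']

/-- a permutation which commutes with everything -/
theorem ty1_perm {w : Equiv.Perm X} (h1 : ∀ g x, w (i g x) = i g (w x))
    (h2 : ∀ p x, w (q p x) = q p (w x)) (x : X) : ty1 n i q s (w x) = ty1 n i q s x := by
  apply ty1_congr
  intro k p
  exact rel_perm (h1 _) (h2 _) x

theorem ty2_perm {w : Equiv.Perm X} (h1 : ∀ g x, w (i g x) = i g (w x))
    (h2 : ∀ p x, w (q p x) = q p (w x)) (x : X) : ty2 n i q s t (w x) = ty2 n i q s t x := by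
  apply ty2_congr
  intro k l p
  exact rel_perm (h1 _) (h2 _) x

theorem Ls_ty2 (hs : i (s ^ n) = 1) (ht : i (t ^ n) = 1) (x : X) :
    Ls n (ty2 n i q s t x) = ty1 n i q s x := by
  ext ⟨z, p⟩
  obtain ⟨k, hk⟩ := ZMod.intCast_surjective (Multiplicative.toAdd z)
  have hz : z = Multiplicative.ofAdd (k : ZMod n) := by
    rw [hk]
    rfl
  show (z, 1, p) ∈ ty2 n i q s t x ↔ _
  have h1 : (1 : Multiplicative (ZMod n)) = Multiplicative.ofAdd ((0 : ℤ) : ZMod n) := by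
    rw [Int.cast_zero]
    rfl
  rw [hz, h1]
  by_cases hp : p ∈ Q
  · rw [show p = ((⟨p, hp⟩ : Q) : P) from rfl, mem_ty2 hs ht, mem_ty1 hs, zpow_zero, mul_one]
  · constructor
    · intro h
      exact absurd (mem_ty2_Q h) hp
    · intro h
      exact absurd (mem_ty1_Q h) hp

theorem Lt_ty2 (hs : i (s ^ n) = 1) (ht : i (t ^ n) = 1) (x : X) :
    Lt n (ty2 n i q s t x) = ty1 n i q t x := by
  ext ⟨z, p⟩
  obtain ⟨k, hk⟩ := ZMod.intCast_surjective (Multiplicative.toAdd z)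
  have hz : z = Multiplicative.ofAdd (k : ZMod n) := by
    rw [hk]
    rfl
  show (1, z, p) ∈ ty2 n i q s t x ↔ _
  have h1 : (1 : Multiplicative (ZMod n)) = Multiplicative.ofAdd ((0 : ℤ) : ZMod n) := by
    rw [Int.cast_zero]
    rfl
  rw [hz, h1]
  by_cases hp : p ∈ Q
  · rw [show p = ((⟨p, hp⟩ : Q) : P) from rfl, mem_ty2 hs ht, mem_ty1 ht, zpow_zero, one_mul]
  · constructor
    · intro h
      exact absurd (mem_ty2_Q h) hp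
    · intro h
      exact absurd (mem_ty1_Q h) hp

end inv

/-! ### the numbers at a point -/

section pt

variable {Γ X P : Type} [Group Γ] [CommGroup P] [Finite P] {n : ℕ} {Q : Subgroup P}
  {i : Γ →* Equiv.Perm X} {q : Q →* Equiv.Perm X} {s t : Γ} {R : Subring ℚ} {r : P → ℚ}

theorem pt_mu (hlex : LexStmt) (hn : 0 < n) (hc : ∀ g p x, i g (q p x) = q p (i g x))
    (hs : i (s ^ n) = 1) {x : X} (hx : x ∈ Gd q) (hr : ∀ p p', r (p * p') - r p - r p' ∈ R)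
    (k : ℤ) (p : P) (hp : (Multiplicative.ofAdd (k : ZMod n), p) ∈ ty1 n i q s x) :
    r p - k * mu R n r (ty1 n i q s x) ∈ R := by
  obtain ⟨_, _, h3, h4, _⟩ := hlex Γ X P R n hn Q i q s s hc rfl hs hs x hx r hr
  exact mu_spec h3 h4 k p hp

theorem pt_al (hlex : LexStmt) (hn : 0 < n) (hc : ∀ g p x, i g (q p x) = q p (i g x))
    (hst : s * t = t * s) (hs : i (s ^ n) = 1) (ht : i (t ^ n) = 1) {x : X} (hx : x ∈ Gd q)
    (hr : ∀ p p', r (p * p') - r p - r p' ∈ R) (h0 : ∀ p, r p ∈ R → r p = 0)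
    (k l : ℤ) (p : P) (hp : (Multiplicative.ofAdd (k : ZMod n), Multiplicative.ofAdd (l : ZMod n),
      p) ∈ ty2 n i q s t x) :
    r p - k * al R n r (mu R n r (ty1 n i q t x)) (ty2 n i q s t x) -
      l * mu R n r (ty1 n i q t x) ∈ R := by
  obtain ⟨_, _, _, _, h5⟩ := hlex Γ X P R n hn Q i q s t hc hst hs ht x hx r hr
  apply al_spec _ (h5 _ fun l p hp => pt_mu hlex hn hc ht hx hr l p hp) k l p hp
  intro h
  apply mu_zero h0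
  intro g hg
  rw [← Lt_ty2 hs ht] at hg
  exact h _ hg

theorem ty2_swap (hst : s * t = t * s) (hs : i (s ^ n) = 1) (ht : i (t ^ n) = 1) {x : X}
    {k l : ℤ} {p : P} (hp : (Multiplicative.ofAdd (k : ZMod n),
      Multiplicative.ofAdd (l : ZMod n), p) ∈ ty2 n i q s t x) :
    (Multiplicative.ofAdd (l : ZMod n), Multiplicative.ofAdd (k : ZMod n), p) ∈
      ty2 n i q t s x := by
  have hpQ := mem_ty2_Q hp
  have h1 := (mem_ty2 (q := q) hs ht ⟨p, hpQ⟩ k l).1 hp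
  apply (mem_ty2 (q := q) ht hs ⟨p, hpQ⟩ l k).2
  have hcm : Commute s t := hst
  have h3 : s ^ k * t ^ l = t ^ l * s ^ k := ((hcm.zpow_left k).zpow_right l).eq
  rw [← h3]
  exact h1

theorem pt_be (hlex : LexStmt) (hn : 0 < n) (hc : ∀ g p x, i g (q p x) = q p (i g x))
    (hst : s * t = t * s) (hs : i (s ^ n) = 1) (ht : i (t ^ n) = 1) {x : X} (hx : x ∈ Gd q)
    (hr : ∀ p p', r (p * p') - r p - r p' ∈ R) (h0 : ∀ p, r p ∈ R → r p = 0)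
    (k l : ℤ) (p : P) (hp : (Multiplicative.ofAdd (k : ZMod n), Multiplicative.ofAdd (l : ZMod n),
      p) ∈ ty2 n i q s t x) :
    r p - k * mu R n r (ty1 n i q s x) -
      l * be R n r (mu R n r (ty1 n i q s x)) (ty2 n i q s t x) ∈ R := by
  obtain ⟨_, _, _, _, h5⟩ := hlex Γ X P R n hn Q i q t s hc hst.symm ht hs x hx r hr
  obtain ⟨α, hα⟩ := h5 _ fun l p hp => pt_mu hlex hn hc hs hx hr l p hp
  refine be_spec ?_ ⟨α, fun k l p hp => ?_⟩ k l p hp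
  · intro h
    apply mu_zero h0
    intro g hg
    rw [← Ls_ty2 hs ht] at hg
    exact h _ hg
  · have h6 := hα l k p (ty2_swap hst hs ht hp)
    have e : r p - k * mu R n r (ty1 n i q s x) - l * α =
        r p - l * α - k * mu R n r (ty1 n i q s x) := by ring
    rw [e]
    exact h6

theorem pt_bf (hlex : LexStmt) (hn : 0 < n) (hc : ∀ g p x, i g (q p x) = q p (i g x))
    (hst : s * t = t * s) (hs : i (s ^ n) = 1) (ht : i (t ^ n) = 1) {x : X} (hx : x ∈ Gd q)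
    (hr : ∀ p p', r (p * p') - r p - r p' ∈ R) (h0 : ∀ p, r p ∈ R → r p = 0) (ν : ℚ)
    (k l : ℤ) (p : P) (hp : (Multiplicative.ofAdd (k : ZMod n), Multiplicative.ofAdd (l : ZMod n),
      p) ∈ ty2 n i q s t x) :
    r p - k * mu R n r (ty1 n i q s x) -
      l * bf R n r (mu R n r (ty1 n i q s x)) ν (ty2 n i q s t x) ∈ R := by
  obtain ⟨_, _, _, _, h5⟩ := hlex Γ X P R n hn Q i q t s hc hst.symm ht hs x hx r hr
  obtain ⟨α, hα⟩ := h5 _ fun l p hp => pt_mu hlex hn hc hs hx hr l p hp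
  refine bf_spec ?_ ⟨α, fun k l p hp => ?_⟩ k l p hp
  · intro h
    apply mu_zero h0
    intro g hg
    rw [← Ls_ty2 hs ht] at hg
    exact h _ hg
  · have h6 := hα l k p (ty2_swap hst hs ht hp)
    have e : r p - k * mu R n r (ty1 n i q s x) - l * α =
        r p - l * α - k * mu R n r (ty1 n i q s x) := by ring
    rw [e]
    exact h6

/-- from the `M`-th powers to the elements -/
theorem pow_rel (hc : ∀ g p x, i g (q p x) = q p (i g x)) {x : X} {g : Γ} {p : Q}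
    (h : i g x = q p x) (M : ℕ) : i (g ^ M) x = q (p ^ M) x := by
  induction M with
  | zero =>
    rw [pow_zero, pow_zero, map_one, map_one]
  | succ m ih =>
    rw [pow_succ, pow_succ]
    exact mul_rel hc ih h

theorem r_pow_M {ℓ e M n : ℕ} [Fact ℓ.Prime] {P : Type} [CommGroup P] {r : P → ℚ}
    (hr : ∀ p p', r (p * p') - r p - r p' ∈ Rl ℓ) (hre : ∀ p, (ℓ : ℚ) ^ e * r p ∈ Rl ℓ)
    (hn : n = ℓ ^ e) (hM : (M : ZMod n) = 1) (p : P) : r (p ^ M) - r p ∈ Rl ℓ := by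
  subst hn
  have h1 := r_zpow hr p (M : ℤ)
  rw [zpow_natCast] at h1
  have h2 : ((M : ℤ) : ZMod (ℓ ^ e)) = ((1 : ℤ) : ZMod (ℓ ^ e)) := by
    push_cast
    exact hM
  rw [ZMod.intCast_eq_intCast_iff_dvd_sub] at h2
  obtain ⟨c, hc⟩ := h2
  have h3 := int_mul_mem (R := Rl ℓ) (-c) (hre p)
  have h4 := (Rl ℓ).add_mem h1 h3
  have e1 : r (p ^ M) - ((M : ℤ) : ℚ) * r p + ((-c : ℤ) : ℚ) * ((ℓ : ℚ) ^ e * r p) =
      r (p ^ M) - r p := by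
    have hq : (1 : ℚ) - M = (ℓ : ℚ) ^ e * c := by
      have h5 := congrArg (fun z : ℤ => (z : ℚ)) hc
      push_cast at h5
      exact h5
    have h6 : (M : ℚ) = 1 - (ℓ : ℚ) ^ e * c := by linarith
    push_cast
    rw [h6]
    ring
  rw [e1] at h4
  exact h4

end pt

/-! ### the braid relations -/

section br

variable {Γ : Type} [Group Γ] (D : Bd Γ)

theorem comm_a_T : Commute D.a D.T := by
  have h1 : D.a * (D.a * D.b * D.a) = D.a * D.b * D.a * D.b := by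
    have h2 := D.r1
    simp only [mul_assoc] at h2 ⊢
    rw [h2]
  have h2 : D.b * (D.a * D.b * D.a) = D.a * D.b * D.a * D.a := by
    conv_rhs => rw [D.r1]
    simp only [mul_assoc]
  have h3 : (D.a * D.b) ^ 3 = (D.a * D.b * D.a) * (D.a * D.b * D.a) := by
    have h4 : (D.a * D.b) ^ 3 = D.a * D.b * D.a * (D.b * D.a * D.b) := by
      rw [pow_succ, pow_two]
      simp only [mul_assoc]
    rw [h4, ← D.r1]
  have h5 : Commute D.a ((D.a * D.b) ^ 3) := by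
    show D.a * (D.a * D.b) ^ 3 = (D.a * D.b) ^ 3 * D.a
    rw [h3, ← mul_assoc, h1, mul_assoc (D.a * D.b * D.a) D.b, h2, ← mul_assoc]
  unfold Bd.T
  rw [show (6 : ℕ) = 3 * 2 from rfl, pow_mul]
  exact h5.pow_right 2

theorem comm_b_T : Commute D.b D.T := by
  have h1 : D.a * (D.a * D.b * D.a) = D.a * D.b * D.a * D.b := by
    have h2 := D.r1
    simp only [mul_assoc] at h2 ⊢
    rw [h2]
  have h2 : D.b * (D.a * D.b * D.a) = D.a * D.b * D.a * D.a := by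
    conv_rhs => rw [D.r1]
    simp only [mul_assoc]
  have h3 : (D.a * D.b) ^ 3 = (D.a * D.b * D.a) * (D.a * D.b * D.a) := by
    have h4 : (D.a * D.b) ^ 3 = D.a * D.b * D.a * (D.b * D.a * D.b) := by
      rw [pow_succ, pow_two]
      simp only [mul_assoc]
    rw [h4, ← D.r1]
  have h5 : Commute D.b ((D.a * D.b) ^ 3) := by
    show D.b * (D.a * D.b) ^ 3 = (D.a * D.b) ^ 3 * D.b
    rw [h3, ← mul_assoc, h2, mul_assoc (D.a * D.b * D.a) D.a, h1, ← mul_assoc]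
  unfold Bd.T
  rw [show (6 : ℕ) = 3 * 2 from rfl, pow_mul]
  exact h5.pow_right 2

theorem comm_a_A : Commute D.a D.A := D.r2

theorem comm_a_a3 : Commute D.a D.a3 := by
  unfold Bd.a3
  exact (comm_a_A D).inv_right.mul_right (Commute.refl _)

theorem comm_A_a3 : Commute D.A D.a3 := by
  unfold Bd.a3
  exact (Commute.refl _).inv_right.mul_right (comm_a_A D).symm

theorem conj_B : D.B * D.a * D.B⁻¹ = D.a3 := by
  unfold Bd.a3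
  rw [mul_inv_eq_iff_eq_mul, mul_assoc D.A⁻¹, eq_inv_mul_iff_mul_eq, ← mul_assoc]
  exact D.r3.symm

theorem comm_a_A' : Commute D.a D.A' := by
  have h1 : D.a * D.B * D.a⁻¹ = D.A * D.B := by
    rw [D.r3, mul_inv_cancel_right]
  have h2 : D.a * D.A * D.a⁻¹ = D.A := by
    rw [D.r2, mul_inv_cancel_right]
  have h3 : D.a * D.A' * D.a⁻¹ = D.A' := by
    unfold Bd.A'
    have e : D.a * (D.B⁻¹ * D.A * D.B) * D.a⁻¹ = (D.a * D.B * D.a⁻¹)⁻¹ *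
        (D.a * D.A * D.a⁻¹) * (D.a * D.B * D.a⁻¹) := by
      group
    rw [e, h1, h2]
    group
  exact mul_inv_eq_iff_eq_mul.1 h3

end br

/-! ### restriction to an invariant subset -/

section rs

variable {X : Type}

/-- the restriction of a permutation -/
def rst (f : Equiv.Perm X) (S : Set X) (h : ∀ x ∈ S, f x ∈ S) (h' : ∀ x ∈ S, f⁻¹ x ∈ S) :
    Equiv.Perm S where
  toFun x := ⟨f x, h x x.2⟩
  invFun x := ⟨f⁻¹ x, h' x x.2⟩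
  left_inv x := Subtype.ext (perm_inv f x)
  right_inv x := Subtype.ext (by
    have h1 := perm_inv f⁻¹ (x : X)
    rw [inv_inv] at h1
    exact h1)

theorem rst_coe (f : Equiv.Perm X) (S : Set X) (h : ∀ x ∈ S, f x ∈ S) (h' : ∀ x ∈ S, f⁻¹ x ∈ S)
    (x : S) : ((rst f S h h' x : S) : X) = f x := rfl

theorem rst_pow (f : Equiv.Perm X) (S : Set X) (h : ∀ x ∈ S, f x ∈ S)
    (h' : ∀ x ∈ S, f⁻¹ x ∈ S) (m : ℕ) (x : S) :
    (((rst f S h h' ^ m) x : S) : X) = (f ^ m) x := by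
  induction m generalizing x with
  | zero => rfl
  | succ m ih =>
    rw [pow_succ, pow_succ, Equiv.Perm.mul_apply, Equiv.Perm.mul_apply, ih, rst_coe]

/-- the restriction of an action -/
def rsth {G : Type} [Group G] (φ : G →* Equiv.Perm X) (S : Set X)
    (h : ∀ g, ∀ x ∈ S, φ g x ∈ S) : G →* Equiv.Perm S where
  toFun g := rst (φ g) S (h g) (fun x hx => by
    rw [← map_inv]
    exact h g⁻¹ x hx)
  map_one' := by
    ext x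
    rw [rst_coe, map_one]
    rfl
  map_mul' g g' := by
    ext x
    rw [rst_coe, map_mul, Equiv.Perm.mul_apply, Equiv.Perm.mul_apply, rst_coe, rst_coe]

theorem rsth_coe {G : Type} [Group G] (φ : G →* Equiv.Perm X) (S : Set X)
    (h : ∀ g, ∀ x ∈ S, φ g x ∈ S) (g : G) (x : S) :
    ((rsth φ S h g x : S) : X) = φ g x := rfl

end rs

/-! ### the theorem -/

section uni

variable {P : Type} [CommGroup P]

/-- the first function -/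
def Phi (R : Subring ℚ) (n : ℕ) (r₁ r₂ : P → ℚ) (Λ : Set (L2 n P)) : ℚ :=
  (mu R n r₁ (Ls n Λ) - mu R n r₁ (Lt n Λ)) * (mu R n r₂ (Ls n Λ) - mu R n r₂ (Lt n Λ)) +
    (mu R n r₁ (Ls n Λ) - al R n r₁ (mu R n r₁ (Lt n Λ)) Λ) *
      (mu R n r₂ (Lt n Λ) - be R n r₂ (mu R n r₂ (Ls n Λ)) Λ)

/-- the second function, main case -/
def Psi' (R : Subring ℚ) (n : ℕ) (r₁ r₂ : P → ℚ) (p₀ : P) (Λ : Set (L2 n P)) : ℚ :=
  -((mu R n r₂ (Ls n Λ) - al R n r₂ (mu R n r₂ (Lt n Λ)) Λ) *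
      (bf R n r₁ (mu R n r₁ (Ls n Λ)) (mu R n r₁ (Lt n Λ)) Λ - mu R n r₁ (Lt n Λ))) +
    (r₁ p₀ - mu R n r₁ (Lt n Λ)) * mu R n r₂ (Ls n Λ) +
    mu R n r₁ (Ls n Λ) * (r₂ p₀ - mu R n r₂ (Lt n Λ))

open Classical in
/-- the second function -/
def Psi (R : Subring ℚ) (n : ℕ) (r₁ r₂ : P → ℚ) (p₀ : P) (Λ : Set (L2 n P)) : ℚ :=
  if ∀ (l : ℤ) (p : P), (Multiplicative.ofAdd (l : ZMod n), p) ∈ Lt n Λ →
    r₁ p - l * mu R n r₁ (Lt n Λ) ∈ R then Psi' R n r₁ r₂ p₀ Λ else 0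

variable {R : Subring ℚ} {n : ℕ} {r : P → ℚ}

theorem mu_Ls (h0 : ∀ p, r p ∈ R → r p = 0) {Λ : Set (L2 n P)} (h : ∀ g ∈ Λ, r g.2.2 ∈ R) :
    mu R n r (Ls n Λ) = 0 :=
  mu_zero h0 fun g hg => h (g.1, 1, g.2) hg

theorem mu_Lt (h0 : ∀ p, r p ∈ R → r p = 0) {Λ : Set (L2 n P)} (h : ∀ g ∈ Λ, r g.2.2 ∈ R) :
    mu R n r (Lt n Λ) = 0 :=
  mu_zero h0 fun g hg => h (1, g.1, g.2) hg

end uni

/-- UNI -/
theorem uni (hlex : LexStmt) (hxsg : XsgStmt) : UniStmt := by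
  intro ℓ _ e P _ _ hP r₁ r₂ p₀ hr₁ hr₂ he₁ he₂ h0₁ h0₂
  have hℓ : ℓ.Prime := Fact.out
  obtain ⟨n, hn⟩ : ∃ n, n = ℓ ^ e := ⟨_, rfl⟩
  have hn0 : 0 < n := by
    rw [hn]
    exact pow_pos hℓ.pos e
  rw [← hn]
  obtain ⟨R, hR⟩ : ∃ R, R = Rl ℓ := ⟨_, rfl⟩
  rw [← hR] at hr₁ hr₂ he₁ he₂ h0₁ h0₂ ⊢
  refine ⟨Phi R n r₁ r₂, Psi R n r₁ r₂ p₀, fun U => mu R n r₁ U * mu R n r₂ U, ?_, ?_, ?_, ?_,
    ?_, ?_, ?_, ?_⟩
  · intro Λ h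
    unfold Phi
    rw [mu_Ls h0₁ h, mu_Lt h0₁ h, al_zero h]
    ring
  · intro Λ h
    unfold Phi
    rw [mu_Ls h0₂ h, mu_Lt h0₂ h, be_zero h]
    ring
  · intro Λ h h'
    unfold Psi
    split_ifs
    · unfold Psi'
      rw [mu_Ls h0₂ h', mu_Lt h0₂ h', al_zero h', mu_Ls h0₁ h]
      ring
    · rfl
  · intro Λ h h'
    unfold Psi
    split_ifs with hL
    · have e1 : mu R n r₁ (Ls n Λ) = 0 := mu_zero h0₁ fun g hg => (h' (g.1, 1, g.2) hg rfl).1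
      have e2 : mu R n r₂ (Ls n Λ) = 0 := mu_zero h0₂ fun g hg => (h' (g.1, 1, g.2) hg rfl).2
      have e3 : bf R n r₁ 0 (mu R n r₁ (Lt n Λ)) Λ = mu R n r₁ (Lt n Λ) := by
        apply bf_nu
        · intro h1
          exact mu_Lt h0₁ h1
        · intro k l p hp
          rw [mul_zero, sub_zero]
          exact hL l p (h _ hp)
      unfold Psi'
      rw [e1, e2, e3]
      ring
    · rfl
  · intro U h
    show mu R n r₁ U * mu R n r₂ U = 0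
    rw [mu_zero h0₁ h, zero_mul]
  · intro U h
    show mu R n r₁ U * mu R n r₂ U = 0
    rw [mu_zero h0₂ h, mul_zero]
  · intro U p h
    show mu R n r₁ U * mu R n r₂ U = _
    rw [mu_one h, mu_one h]
  intro Γ X _ _ D Q q₀ hq₀ i q σ hXa M hM has ha3 hTs
  have hc := hXa.comm
  obtain ⟨s, hs⟩ : ∃ s, s = D.a ^ M := ⟨_, rfl⟩
  obtain ⟨t, ht⟩ : ∃ t, t = D.a3 ^ M := ⟨_, rfl⟩
  obtain ⟨τ, hτ⟩ : ∃ τ, τ = D.T ^ M := ⟨_, rfl⟩
  rw [← hs, ← ht, ← hτ]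
  rw [← hs] at has
  rw [← ht] at ha3
  rw [← hτ] at hTs
  -- commuting elements
  have c_as : Commute D.a s := by
    rw [hs]
    exact (Commute.refl _).pow_right M
  have c_at : Commute D.a t := by
    rw [ht]
    exact (comm_a_a3 D).pow_right M
  have c_aτ : Commute D.a τ := by
    rw [hτ]
    exact (comm_a_T D).pow_right M
  have c_bτ : Commute D.b τ := by
    rw [hτ]
    exact (comm_b_T D).pow_right M
  have c_As : Commute D.A s := by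
    rw [hs]
    exact (comm_a_A D).symm.pow_right M
  have c_At : Commute D.A t := by
    rw [ht]
    exact (comm_A_a3 D).pow_right M
  have c_A's : Commute D.A' s := by
    rw [hs]
    exact (comm_a_A' D).symm.pow_right M
  have c_Ts : Commute D.T s := by
    rw [hs]
    exact (comm_a_T D).symm.pow_right M
  have c_Tτ : Commute D.T τ := by
    rw [hτ]
    exact (Commute.refl _).pow_right M
  have c_st : s * t = t * s := by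
    rw [hs, ht]
    exact ((comm_a_a3 D).pow_pow M M).eq
  have c_sτ : s * τ = τ * s := by
    rw [hs, hτ]
    exact ((comm_a_T D).pow_pow M M).eq
  have hBs : D.B * s * D.B⁻¹ = t := by
    rw [hs, ht, ← conj_B D, conj_pow]
  -- the invariant subset
  have hqq : ∀ p p' x, q p (q p' x) = q p' (q p x) := by
    intro p p' x
    have h1 : q p (q p' x) = q (p * p') x := by
      rw [map_mul]
      rfl
    have h2 : q p' (q p x) = q (p' * p) x := by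
      rw [map_mul]
      rfl
    rw [h1, h2, mul_comm]
  have hgd : ∀ w : Equiv.Perm X, (∀ p x, w (q p x) = q p (w x)) → ∀ x ∈ Gd q, w x ∈ Gd q := by
    intro w hw x hx p hp
    rw [← hw] at hp
    exact hx p (w.injective hp)
  have hgi : ∀ g, ∀ x ∈ Gd q, i g x ∈ Gd q := fun g => hgd _ fun p x => hc g p x
  have hgq : ∀ p, ∀ x ∈ Gd q, q p x ∈ Gd q := fun p => hgd _ fun p' x => hqq p p' x
  have hσq : ∀ p x, σ (q p x) = q p (σ x) := fun p x => (hXa.sq p x).symm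
  have hσq' : ∀ p x, σ⁻¹ (q p x) = q p (σ⁻¹ x) := by
    intro p x
    apply σ.injective
    rw [hσq]
    have h1 : ∀ y, σ (σ⁻¹ y) = y := by
      intro y
      have h2 := perm_inv σ⁻¹ y
      rw [inv_inv] at h2
      exact h2
    rw [h1, h1]
  have hgσ : ∀ x ∈ Gd q, σ x ∈ Gd q := hgd _ hσq
  have hgσ' : ∀ x ∈ Gd q, σ⁻¹ x ∈ Gd q := hgd _ hσq'
  obtain ⟨i', hi'⟩ : ∃ i' : Γ →* Equiv.Perm (Gd q), i' = rsth i (Gd q) hgi := ⟨_, rfl⟩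
  obtain ⟨q', hq'⟩ : ∃ q' : Q →* Equiv.Perm (Gd q), q' = rsth q (Gd q) hgq := ⟨_, rfl⟩
  obtain ⟨σ', hσ'⟩ : ∃ σ' : Equiv.Perm (Gd q), σ' = rst σ (Gd q) hgσ hgσ' := ⟨_, rfl⟩
  have ic : ∀ g (x : Gd q), ((i' g x : Gd q) : X) = i g x := by
    intro g x
    rw [hi', rsth_coe]
  have qc : ∀ p (x : Gd q), ((q' p x : Gd q) : X) = q p x := by
    intro p x
    rw [hq', rsth_coe]
  have σc : ∀ (x : Gd q), ((σ' x : Gd q) : X) = σ x := by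
    intro x
    rw [hσ', rst_coe]
  have hcop : (orderOf σ').Coprime ℓ := by
    apply Nat.Coprime.coprime_dvd_left _ hXa.cop
    apply orderOf_dvd_of_pow_eq_one
    ext x
    rw [hσ', rst_pow, pow_orderOf_eq_one]
    rfl
  -- the functions
  obtain ⟨κ₁, hκ₁⟩ : ∃ κ₁ : Gd q → ℚ, ∀ x, κ₁ x = mu R n r₁ (ty1 n i q τ x) := ⟨_, fun _ => rfl⟩
  obtain ⟨κ₂, hκ₂⟩ : ∃ κ₂ : Gd q → ℚ, ∀ x, κ₂ x = mu R n r₂ (ty1 n i q τ x) := ⟨_, fun _ => rfl⟩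
  obtain ⟨μ₁, hμ₁⟩ : ∃ μ₁ : Gd q → ℚ, ∀ x, μ₁ x = mu R n r₁ (ty1 n i q s x) := ⟨_, fun _ => rfl⟩
  obtain ⟨μ₂, hμ₂⟩ : ∃ μ₂ : Gd q → ℚ, ∀ x, μ₂ x = mu R n r₂ (ty1 n i q s x) := ⟨_, fun _ => rfl⟩
  obtain ⟨η, hη⟩ : ∃ η : Gd q → ℚ, ∀ x, η x = mu R n r₁ (ty1 n i q s x) -
      al R n r₁ (mu R n r₁ (ty1 n i q t x)) (ty2 n i q s t x) := ⟨_, fun _ => rfl⟩
  obtain ⟨ζ, hζ⟩ : ∃ ζ : Gd q → ℚ, ∀ x, ζ x = mu R n r₂ (ty1 n i q t x) -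
      be R n r₂ (mu R n r₂ (ty1 n i q s x)) (ty2 n i q s t x) := ⟨_, fun _ => rfl⟩
  obtain ⟨δ, hδ⟩ : ∃ δ : Gd q → ℚ, ∀ x, δ x =
      bf R n r₁ (mu R n r₁ (ty1 n i q s x)) (mu R n r₁ (ty1 n i q τ x)) (ty2 n i q s τ x) -
        mu R n r₁ (ty1 n i q τ x) :=
    ⟨_, fun _ => rfl⟩
  obtain ⟨m, hm⟩ : ∃ m : Gd q → ℚ, ∀ x, m x =
      al R n r₂ (mu R n r₂ (ty1 n i q τ x)) (ty2 n i q s τ x) := ⟨_, fun _ => rfl⟩
  -- invariance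
  have hall : ∀ x y : Gd q, ty1 n i q s x = ty1 n i q s y → ty1 n i q t x = ty1 n i q t y →
      ty1 n i q τ x = ty1 n i q τ y → ty2 n i q s t x = ty2 n i q s t y →
      ty2 n i q s τ x = ty2 n i q s τ y →
      ∀ F ∈ ({κ₁, κ₂, μ₁, μ₂, η, ζ, δ, m} : Set (Gd q → ℚ)), F x = F y := by
    intro x y e1 e2 e3 e4 e5 F hF
    simp only [Set.mem_insert_iff, Set.mem_singleton_iff] at hF
    rcases hF with h | h | h | h | h | h | h | h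
    · rw [h, hκ₁, hκ₁, e3]
    · rw [h, hκ₂, hκ₂, e3]
    · rw [h, hμ₁, hμ₁, e1]
    · rw [h, hμ₂, hμ₂, e1]
    · rw [h, hη, hη, e1, e2, e4]
    · rw [h, hζ, hζ, e1, e2, e4]
    · rw [h, hδ, hδ, e1, e3, e5]
    · rw [h, hm, hm, e3, e5]
  have hνB : ∀ x : X, ty1 n i q s (i D.B⁻¹ x) = ty1 n i q t x := by
    intro x
    rw [ty1_conj hc, inv_inv, hBs]
  have hμB₁ : ∀ x : Gd q, μ₁ (i' D.B⁻¹ x) = mu R n r₁ (ty1 n i q t x) := by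
    intro x
    rw [hμ₁, ic, hνB]
  have hμB₂ : ∀ x : Gd q, μ₂ (i' D.B⁻¹ x) = mu R n r₂ (ty1 n i q t x) := by
    intro x
    rw [hμ₂, ic, hνB]
  -- from the elements to the `M`-th powers
  have hMr₁ : ∀ p, r₁ (p ^ M) - r₁ p ∈ R := by
    intro p
    rw [hR]
    rw [hR] at hr₁ he₁
    exact r_pow_M hr₁ he₁ hn hM p
  have hMr₂ : ∀ p, r₂ (p ^ M) - r₂ p ∈ R := by
    intro p
    rw [hR]
    rw [hR] at hr₂ he₂
    exact r_pow_M hr₂ he₂ hn hM p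
  have hto : ∀ {r : P → ℚ}, (∀ p, r (p ^ M) - r p ∈ R) → ∀ (p : Q) (c : ℚ),
      r (((p ^ M : Q)) : P) - c ∈ R → r (p : P) - c ∈ R := by
    intro r hr p c h
    rw [Subgroup.coe_pow] at h
    have h1 := R.sub_mem h (hr p)
    have e1 : r ((p : P) ^ M) - c - (r ((p : P) ^ M) - r p) = r (p : P) - c := by ring
    rwa [e1] at h1
  have hm1 : ∀ (g : Γ) (x : Gd q) (k : ℤ) (p : Q), i' (g ^ k) x = q' p x →
      i ((g ^ M) ^ k) x = q (p ^ M) x := by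
    intro g x k p h
    have h1 : i (g ^ k) x = q p x := by
      rw [← ic, ← qc, h]
    have h2 := pow_rel hc h1 M
    have e1 : (g ^ M) ^ k = (g ^ k) ^ M := by
      rw [← zpow_natCast, ← zpow_natCast, ← zpow_mul, ← zpow_mul, mul_comm]
    rw [e1]
    exact h2
  have hm2 : ∀ (g g' : Γ), Commute g g' → ∀ (x : Gd q) (k l : ℤ) (p : Q),
      i' (g ^ k * g' ^ l) x = q' p x → i ((g ^ M) ^ k * (g' ^ M) ^ l) x = q (p ^ M) x := by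
    intro g g' hg x k l p h
    have h1 : i (g ^ k * g' ^ l) x = q p x := by
      rw [← ic, ← qc, h]
    have h2 := pow_rel hc h1 M
    have e1 : ∀ (w : Γ) (k : ℤ), (w ^ M) ^ k = (w ^ k) ^ M := by
      intro w k
      rw [← zpow_natCast, ← zpow_natCast, ← zpow_mul, ← zpow_mul, mul_comm]
    rw [e1, e1, ← ((hg.zpow_left k).zpow_right l).mul_pow]
    exact h2
  have hFm : Fm R D i' q' (fun p : Q => r₁ p) (fun p : Q => r₂ p) κ₁ κ₂ μ₁ μ₂ η ζ δ m := by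
    constructor
    · intro F hF p x
      have hw1 : ∀ g x, q p (i g x) = i g (q p x) := fun g x => (hc g p x).symm
      have hw2 : ∀ p' x, q p (q p' x) = q p' (q p x) := fun p' x => hqq p p' x
      apply hall _ _ _ _ _ _ _ F hF
      · rw [qc, ty1_perm hw1 hw2]
      · rw [qc, ty1_perm hw1 hw2]
      · rw [qc, ty1_perm hw1 hw2]
      · rw [qc, ty2_perm hw1 hw2]
      · rw [qc, ty2_perm hw1 hw2]
    · intro F hF x
      apply hall _ _ _ _ _ _ _ F hF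
      · rw [ic, ty1_inv hc c_as]
      · rw [ic, ty1_inv hc c_at]
      · rw [ic, ty1_inv hc c_aτ]
      · rw [ic, ty2_inv hc c_as c_at]
      · rw [ic, ty2_inv hc c_as c_aτ]
    · intro F hF x
      simp only [Set.mem_insert_iff, Set.mem_singleton_iff] at hF
      rcases hF with h | h
      · rw [h, hκ₁, hκ₁, ic, ty1_inv hc c_bτ]
      · rw [h, hκ₂, hκ₂, ic, ty1_inv hc c_bτ]
    · intro F hF x
      simp only [Set.mem_insert_iff, Set.mem_singleton_iff] at hF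
      rcases hF with h | h | h | h
      · rw [h, hμ₁, hμ₁, ic, ty1_inv hc c_As]
      · rw [h, hμ₂, hμ₂, ic, ty1_inv hc c_As]
      · rw [h, hη, hη, ic, ty1_inv hc c_As, ty1_inv hc c_At, ty2_inv hc c_As c_At]
      · rw [h, hζ, hζ, ic, ty1_inv hc c_As, ty1_inv hc c_At, ty2_inv hc c_As c_At]
    · intro F hF x
      simp only [Set.mem_insert_iff, Set.mem_singleton_iff] at hF
      rcases hF with h | h
      · rw [h, hμ₁, hμ₁, ic, ty1_inv hc c_A's]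
      · rw [h, hμ₂, hμ₂, ic, ty1_inv hc c_A's]
    · intro F hF x
      simp only [Set.mem_insert_iff, Set.mem_singleton_iff] at hF
      rcases hF with h | h
      · rw [h, hδ, hδ, ic, ty1_inv hc c_Ts, ty1_inv hc c_Tτ, ty2_inv hc c_Ts c_Tτ]
      · rw [h, hm, hm, ic, ty1_inv hc c_Tτ, ty2_inv hc c_Ts c_Tτ]
    · intro x k p h
      have h1 := hm1 _ _ _ _ h
      rw [← hτ] at h1
      have h2 := (mem_ty1 (n := n) hTs (p ^ M) k).2 h1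
      rw [hκ₁]
      exact hto hMr₁ p _ (pt_mu hlex hn0 hc hTs x.2 hr₁ k _ h2)
    · intro x k p h
      have h1 := hm1 _ _ _ _ h
      rw [← hτ] at h1
      have h2 := (mem_ty1 (n := n) hTs (p ^ M) k).2 h1
      rw [hκ₂]
      exact hto hMr₂ p _ (pt_mu hlex hn0 hc hTs x.2 hr₂ k _ h2)
    · intro x k p h
      have h1 := hm1 _ _ _ _ h
      rw [← hs] at h1
      have h2 := (mem_ty1 (n := n) has (p ^ M) k).2 h1
      rw [hμ₁]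
      exact hto hMr₁ p _ (pt_mu hlex hn0 hc has x.2 hr₁ k _ h2)
    · intro x k p h
      have h1 := hm1 _ _ _ _ h
      rw [← hs] at h1
      have h2 := (mem_ty1 (n := n) has (p ^ M) k).2 h1
      rw [hμ₂]
      exact hto hMr₂ p _ (pt_mu hlex hn0 hc has x.2 hr₂ k _ h2)
    · intro x k l p h
      have h1 := hm2 _ _ (comm_a_a3 D) _ _ _ _ h
      rw [← hs, ← ht] at h1
      have h2 := (mem_ty2 (n := n) has ha3 (p ^ M) k l).2 h1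
      have h3 := pt_al hlex hn0 hc c_st has ha3 x.2 hr₁ h0₁ k l _ h2
      rw [hμB₁, hμ₁, hη, sub_sub_cancel, sub_sub]
      rw [sub_sub] at h3
      exact hto hMr₁ p _ h3
    · intro x k l p h
      have h1 := hm2 _ _ (comm_a_a3 D) _ _ _ _ h
      rw [← hs, ← ht] at h1
      have h2 := (mem_ty2 (n := n) has ha3 (p ^ M) k l).2 h1
      have h3 := pt_be hlex hn0 hc c_st has ha3 x.2 hr₂ h0₂ k l _ h2
      rw [hμB₂, hμ₂, hζ, sub_sub_cancel, sub_sub]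
      rw [sub_sub] at h3
      exact hto hMr₂ p _ h3
    · intro x k l p h
      have h1 := hm2 _ _ (comm_a_T D) _ _ _ _ h
      rw [← hs, ← hτ] at h1
      have h2 := (mem_ty2 (n := n) has hTs (p ^ M) k l).2 h1
      have h3 := pt_bf hlex hn0 hc c_sτ has hTs x.2 hr₁ h0₁ (mu R n r₁ (ty1 n i q τ x)) k l _ h2
      rw [hμ₁, hδ, hκ₁, add_sub_cancel, sub_sub]
      rw [sub_sub] at h3
      exact hto hMr₁ p _ h3
    · intro x k l p h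
      have h1 := hm2 _ _ (comm_a_T D) _ _ _ _ h
      rw [← hs, ← hτ] at h1
      have h2 := (mem_ty2 (n := n) has hTs (p ^ M) k l).2 h1
      have h3 := pt_al hlex hn0 hc c_sτ has hTs x.2 hr₂ h0₂ k l _ h2
      rw [hm, hκ₂, sub_sub]
      rw [sub_sub] at h3
      exact hto hMr₂ p _ h3
  have hσall : ∀ F ∈ ({κ₁, κ₂, μ₁, μ₂, η, ζ, δ, m} : Set (Gd q → ℚ)), ∀ x, F (σ' x) = F x := by
    intro F hF x
    have hw1 : ∀ g x, σ (i g x) = i g (σ x) := fun g x => (hXa.sg g x).symm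
    apply hall _ _ _ _ _ _ _ F hF
    · rw [σc, ty1_perm hw1 hσq]
    · rw [σc, ty1_perm hw1 hσq]
    · rw [σc, ty1_perm hw1 hσq]
    · rw [σc, ty2_perm hw1 hσq]
    · rw [σc, ty2_perm hw1 hσq]
  classical
  rw [hR] at hr₁ hr₂ hFm
  have hfin := hxsg ℓ Γ Q (Gd q) D i' q' q₀ σ' (hP.to_subgroup Q)
    (by
      intro g p x
      apply Subtype.ext
      rw [ic, qc, qc, ic, hc])
    (by
      intro g x
      apply Subtype.ext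
      rw [ic, σc, σc, ic, hXa.sg])
    (by
      intro p x
      apply Subtype.ext
      rw [qc, σc, σc, qc, hXa.sq])
    hcop
    (by
      ext x
      rw [ic, hXa.ts, Equiv.Perm.mul_apply, Equiv.Perm.mul_apply, qc, σc])
    (by
      intro p x h
      apply x.2
      rw [← qc, h])
    (fun p => r₁ p) (fun p => r₂ p)
    (by
      intro p p'
      show r₁ ((p * p' : Q) : P) - r₁ p - r₁ p' ∈ _
      rw [Subgroup.coe_mul]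
      exact hr₁ _ _)
    (by
      intro p p'
      show r₂ ((p * p' : Q) : P) - r₂ p - r₂ p' ∈ _
      rw [Subgroup.coe_mul]
      exact hr₂ _ _)
    κ₁ κ₂ μ₁ μ₂ η ζ δ m hFm hσall
  rw [hR]
  refine (congrArg (· ∈ Rl ℓ) ?_).mp hfin
  congr 1
  rw [Finset.sum_subtype (Finset.univ.filter (· ∈ Gd q)) (p := fun x => x ∈ Gd q) (by
    intro x
    simp)]
  apply Finset.sum_congr rfl
  intro x _
  have hPsi : Psi R n r₁ r₂ p₀ (ty2 n i q s τ (x : X)) =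
      Psi' R n r₁ r₂ p₀ (ty2 n i q s τ (x : X)) := by
    unfold Psi
    rw [if_pos]
    intro l p hp
    rw [Lt_ty2 has hTs] at hp ⊢
    rw [← hR] at hr₁
    exact pt_mu hlex hn0 hc hTs x.2 hr₁ l p hp
  rw [hR] at hPsi
  rw [hPsi]
  unfold Phi Psi'
  rw [Ls_ty2 has ha3, Lt_ty2 has ha3, Ls_ty2 has hTs, Lt_ty2 has hTs, hμB₁, hμB₂, hκ₁, hκ₂,
    hμ₁, hμ₂, hη, hζ, hδ, hm, hq₀, hR]
  ring

end Pool.Agent.SOR.H32
end
end -- Pool.Agent.Helper32_SOR.UNI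

section -- Pool.Agent.Helper44_SOR.REL

/-!
# Squad SOR, row REL: the second order relation
-/

set_option autoImplicit false

open scoped BigOperators

noncomputable section

namespace Pool.Agent.SOR.H44

open Pool.Agent.SOR

/-! ## Membership modulo `R` -/

theorem mem_eq {R : Subring ℚ} {x y : ℚ} (h : x ∈ R) (e : y = x) : y ∈ R := e ▸ h

/-! ## Gauge transformations -/

section gauge

variable {Γ Y : Type} [Group Γ]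

/-- the gauge transformation of `ρ` by `f` -/
def gt (i : Γ →* Equiv.Perm Y) (f : Y → ℚ) (ρ : Γ → Y → ℚ) (g : Γ) (y : Y) : ℚ :=
  ρ g y + f (i g y) - f y

variable {R : Subring ℚ} {i : Γ →* Equiv.Perm Y} {ρ : Γ → Y → ℚ}

theorem gt_cr (h : Cr R i ρ) (f : Y → ℚ) : Cr R i (gt i f ρ) := by
  intro g k y
  refine mem_eq (h g k y) ?_
  unfold gt
  rw [map_mul, Equiv.Perm.mul_apply]
  ring

theorem gt_fix (f : Y → ℚ) {g : Γ} {y : Y} (h : i g y = y) : gt i f ρ g y = ρ g y := by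
  unfold gt
  rw [h]
  ring

theorem gt_hl {s : Γ} {μ : Y → ℚ} (h : Hl R i ρ s μ) (f : Y → ℚ) : Hl R i (gt i f ρ) s μ := by
  refine ⟨h.inv, ?_⟩
  intro y k hk
  rw [gt_fix f hk]
  exact h.hol y k hk

theorem gt_ex {s t : Γ} {p q : Y → ℚ} (h : Ex R i ρ s t p q) (f : Y → ℚ) :
    Ex R i (gt i f ρ) s t p q := by
  refine ⟨h.ps, h.pt, h.qs, h.qt, ?_⟩
  intro y k l hk
  rw [gt_fix f hk]
  exact h.ex y k l hk

theorem cr_inv (h : Cr R i ρ) (g : Γ) (y : Y) : ρ g⁻¹ y + ρ g (i g⁻¹ y) ∈ R := by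
  have h1 := h 1 1 y
  have h2 := h g g⁻¹ y
  rw [mul_inv_cancel] at h2
  rw [mul_one, map_one, Equiv.Perm.one_apply] at h1
  have h3 : ρ 1 y ∈ R := mem_eq (R.neg_mem h1) (by ring)
  exact mem_eq (R.sub_mem h3 h2) (by ring)

theorem ap_inv (i : Γ →* Equiv.Perm Y) (g : Γ) (y : Y) : i g (i g⁻¹ y) = y := by
  rw [← Equiv.Perm.mul_apply, ← map_mul, mul_inv_cancel, map_one, Equiv.Perm.one_apply]

theorem inv_iv {μ : Y → ℚ} {g : Γ} (h : ∀ y, μ (i g y) = μ y) (y : Y) : μ (i g⁻¹ y) = μ y := by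
  have h1 := h (i g⁻¹ y)
  rw [ap_inv] at h1
  exact h1.symm

theorem inv_mu {μ : Y → ℚ} {g k : Γ} (h : ∀ y, μ (i g y) = μ y) (h' : ∀ y, μ (i k y) = μ y)
    (y : Y) : μ (i (g * k) y) = μ y := by
  rw [map_mul, Equiv.Perm.mul_apply, h, h']

theorem inv_pw {μ : Y → ℚ} {g : Γ} (h : ∀ y, μ (i g y) = μ y) (n : ℕ) (y : Y) :
    μ (i (g ^ n) y) = μ y := by
  induction n generalizing y with
  | zero => rw [pow_zero, map_one, Equiv.Perm.one_apply]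
  | succ n ih => rw [pow_succ]; exact inv_mu ih h y

theorem inv_comm (h : Cr R i ρ) {μ : Y → ℚ} {a s : Γ} (hμ : ∀ y, ρ a y - μ y ∈ R)
    (hs : a * s = s * a) (hμs : ∀ y, μ (i s y) = μ y) (y : Y) :
    ρ s (i a y) - ρ s y ∈ R := by
  have h1 := h a s y
  have h2 := h s a y
  have h3 := hμ (i s y)
  have h4 := hμ y
  rw [hs] at h1
  rw [hμs] at h3
  exact mem_eq (R.add_mem (R.sub_mem h1 h2) (R.sub_mem h3 h4)) (by ring)

theorem neg_of (h : Cr R i ρ) {μ : Y → ℚ} {a : Γ} (hμ : ∀ y, ρ a y - μ y ∈ R)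
    (hμa : ∀ y, μ (i a y) = μ y) (y : Y) : ρ a⁻¹ y + μ y ∈ R := by
  have h1 := cr_inv h a y
  have h2 := hμ (i a⁻¹ y)
  rw [inv_iv hμa] at h2
  exact mem_eq (R.sub_mem h1 h2) (by ring)

theorem transport (h : Cr R i ρ) {μ : Y → ℚ} {a : Γ} (hμ : ∀ y, ρ a y - μ y ∈ R)
    (hμa : ∀ y, μ (i a y) = μ y) (g : Γ) (y : Y) :
    ρ (a⁻¹ * g * a) (i a⁻¹ y) - ρ g y + (μ (i g y) - μ y) ∈ R := by
  have h1 := h (a⁻¹ * g) a (i a⁻¹ y)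
  have h2 := h a⁻¹ g y
  have h3 := neg_of h hμ hμa (i g y)
  have h4 := hμ (i a⁻¹ y)
  rw [ap_inv] at h1
  rw [inv_iv hμa] at h4
  exact mem_eq (R.add_mem (R.add_mem h1 h2) (R.add_mem h3 h4)) (by ring)

end gauge

/-! ## The relations of the braid group -/

section braid

variable {Γ : Type} [Group Γ] (D : Bd Γ)

theorem j_A : D.j lA = D.A := by simp [Bd.j, lA]

theorem j_B : D.j lB = D.B := by simp [Bd.j, lB]

theorem j_C : D.j lC = D.C := by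
  unfold lC Bd.C
  rw [map_mul, map_mul, map_mul, map_inv, map_inv, j_A, j_B]

theorem j_A' : D.j lA' = D.A' := by
  unfold lA' Bd.A'
  rw [map_mul, map_mul, map_inv, j_A, j_B]

theorem a_A' : D.a * D.A' = D.A' * D.a := by
  have h1 : D.a * D.B⁻¹ = D.B⁻¹ * (D.A⁻¹ * D.a) := by
    rw [eq_inv_mul_iff_mul_eq, ← mul_assoc, mul_inv_eq_iff_eq_mul, mul_assoc, D.r3]
    group
  unfold Bd.A'
  calc D.a * (D.B⁻¹ * D.A * D.B) = D.a * D.B⁻¹ * D.A * D.B := by group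
    _ = D.B⁻¹ * (D.A⁻¹ * D.a) * D.A * D.B := by rw [h1]
    _ = D.B⁻¹ * D.A⁻¹ * (D.a * D.A) * D.B := by group
    _ = D.B⁻¹ * D.A⁻¹ * (D.A * D.a) * D.B := by rw [D.r2]
    _ = D.B⁻¹ * (D.a * D.B) := by group
    _ = D.B⁻¹ * (D.A * D.B * D.a) := by rw [D.r3]
    _ = D.B⁻¹ * D.A * D.B * D.a := by group

theorem C_eq : D.C = D.A'⁻¹ * D.A := by
  unfold Bd.C Bd.A'
  group

theorem a_C : D.a * D.C = D.C * D.a := by
  rw [C_eq]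
  have h1 : Commute D.a D.A' := a_A' D
  have h2 : Commute D.a D.A := D.r2
  exact (h1.inv_right).mul_right h2

theorem T_eq : D.T = D.C * D.Ts := by
  unfold Bd.T Bd.C
  exact D.r6

theorem a_T : D.a * D.T = D.T * D.a := by
  rw [T_eq]
  have h1 : Commute D.a D.C := a_C D
  have h2 : Commute D.a D.Ts := D.r7
  exact h1.mul_right h2

theorem j_pa (w : Fr) : D.j (pa w) * D.a = D.a * D.j w := by
  have h : D.j.comp (pa : MulAut Fr).toMonoidHom = (MulAut.conj D.a).toMonoidHom.comp D.j := by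
    apply hom_ext
    · show D.j (fa lA) = D.a * D.j lA * D.a⁻¹
      rw [fa_A, j_A, D.r2]
      group
    · show D.j (fa lB) = D.a * D.j lB * D.a⁻¹
      rw [fa_B, map_mul, j_A, j_B, D.r3]
      group
  have h1 := DFunLike.congr_fun h w
  have h2 : D.j (pa w) = D.a * D.j w * D.a⁻¹ := h1
  rw [h2]
  group

theorem j_pai (w : Fr) : D.j (pa⁻¹ w) = D.a⁻¹ * D.j w * D.a := by
  have h := j_pa D (pa⁻¹ w)
  rw [MulAut.apply_inv_self] at h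
  rw [mul_assoc, h]
  group

end braid

/-! ## The relation in the gauge `T` -/

theorem relT (hInv : InvStmt) (hLft : LftStmt) (hTwe : TweStmt) (hNdi : NdiStmt)
    (hNdj : NdjStmt) (hNdk : NdkStmt) (hOoa : OoaStmt) (hOot : OotStmt)
    {Γ Y : Type} [Group Γ] [Fintype Y] (R : Subring ℚ) (D : Bd Γ)
    (i : Γ →* Equiv.Perm Y) (hTs : i D.Ts = 1) (ρ₁ ρ₂ : Γ → Y → ℚ) (c₁ : Cr R i ρ₁)
    (c₂ : Cr R i ρ₂) (r₁ r₂ : ℚ) (κ₁ κ₂ μ₁ μ₂ η ζ δ m : Y → ℚ)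
    (t₁ : ∀ y, ρ₁ D.Ts y - r₁ ∈ R) (t₂ : ∀ y, ρ₂ D.Ts y - r₂ ∈ R)
    (T₁ : Hl R i ρ₁ D.T κ₁) (k₁ : ∀ y, ρ₁ D.T y - κ₁ y ∈ R) (k₂ : ∀ y, ρ₂ D.T y - κ₂ y ∈ R)
    (κa₁ : ∀ y, κ₁ (i D.a y) = κ₁ y) (κb₁ : ∀ y, κ₁ (i D.b y) = κ₁ y)
    (κa₂ : ∀ y, κ₂ (i D.a y) = κ₂ y) (κb₂ : ∀ y, κ₂ (i D.b y) = κ₂ y)
    (M₁ : Hl R i ρ₁ D.a μ₁) (M₂ : Hl R i ρ₂ D.a μ₂)
    (f₁ f₂ : Y → ℚ) (F₁ : ∀ y, gt i f₁ ρ₁ D.a y - μ₁ y ∈ R)
    (F₂ : ∀ y, gt i f₂ ρ₂ D.a y - μ₂ y ∈ R)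
    (μA₁ : ∀ y, μ₁ (i D.A y) = μ₁ y) (μB₁ : ∀ y, μ₁ (i D.A' y) = μ₁ y)
    (μA₂ : ∀ y, μ₂ (i D.A y) = μ₂ y) (μB₂ : ∀ y, μ₂ (i D.A' y) = μ₂ y)
    (e1 : Ex R i ρ₁ D.a D.a3 (fun y => μ₁ y - η y) (fun y => μ₁ (i D.B⁻¹ y)))
    (e2 : Ex R i ρ₂ D.a D.a3 μ₂ (fun y => μ₂ (i D.B⁻¹ y) - ζ y))
    (e3 : Ex R i ρ₁ D.a D.T μ₁ (fun y => κ₁ y + δ y)) (e4 : Ex R i ρ₂ D.a D.T m κ₂) :
    ∑ y, (r₁ * r₂ - κ₁ y * κ₂ y) -
      12 * ∑ y, ((μ₁ y - μ₁ (i D.B⁻¹ y)) * (μ₂ y - μ₂ (i D.B⁻¹ y)) + η y * ζ y -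
        (μ₂ y - m y) * δ y + (r₁ - κ₁ y) * μ₂ y + μ₁ y * (r₂ - κ₂ y)) ∈ R := by
  have c₁' := gt_cr c₁ f₁
  have c₂' := gt_cr c₂ f₂
  -- the action of `T` is the action of `C`
  have hiT : i D.T = i D.C := by
    rw [T_eq, map_mul, hTs, mul_one]
  have μC₁ : ∀ y, μ₁ (i D.C y) = μ₁ y := by
    rw [C_eq]; exact inv_mu (inv_iv μB₁) μA₁
  have μC₂ : ∀ y, μ₂ (i D.C y) = μ₂ y := by
    rw [C_eq]; exact inv_mu (inv_iv μB₂) μA₂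
  have κT₂ : ∀ y, κ₂ (i D.T y) = κ₂ y := inv_pw (inv_mu κa₂ κb₂) 6
  -- invariant lifts
  obtain ⟨ξ, ξa, ξr⟩ := hInv Y R (i D.a) (gt i f₂ ρ₂ D.A)
    (inv_comm c₂' F₂ D.r2 μA₂)
  have aAi : D.a * D.A'⁻¹ = D.A'⁻¹ * D.a := by
    have h : Commute D.a D.A' := a_A' D
    exact h.inv_right
  obtain ⟨Ψ, Ψa, Ψr⟩ := hInv Y R (i D.a) (gt i f₁ ρ₁ D.A'⁻¹)
    (inv_comm c₁' F₁ aAi (inv_iv μB₁))
  obtain ⟨Δ, Δa, Δr⟩ := hInv Y R (i D.a) (fun y => gt i f₁ ρ₁ D.C y - (κ₁ y - r₁)) (by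
    intro y
    have h1 := inv_comm c₁' F₁ (a_C D) μC₁ y
    refine mem_eq h1 ?_
    simp only [κa₁]
    ring)
  have aTi : D.T * D.a⁻¹ = D.a⁻¹ * D.T := by
    have h : Commute D.a D.T := a_T D
    exact h.inv_left.symm
  obtain ⟨g₂, gC, gr⟩ := hInv Y R (i D.C) (ρ₂ D.a⁻¹) (by
    intro y
    have h1 := inv_comm c₂ k₂ aTi (inv_iv κa₂) y
    rw [hiT] at h1
    exact h1)
  -- exact cocycles of the free group
  have iA : (i.comp D.j) lA = i D.A := by rw [MonoidHom.comp_apply, j_A]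
  have iB : (i.comp D.j) lB = i D.B := by rw [MonoidHom.comp_apply, j_B]
  have iC : (i.comp D.j) lC = i D.C := by rw [MonoidHom.comp_apply, j_C]
  have iA' : (i.comp D.j) lA' = i D.A' := by rw [MonoidHom.comp_apply, j_A']
  obtain ⟨x₁, X₁, x₁A, x₁B⟩ := (hLft Y (i.comp D.j)).1 (ρ₁ D.A) (ρ₁ D.B)
  obtain ⟨x₂, X₂, x₂A, x₂B⟩ := (hLft Y (i.comp D.j)).1
    (fun y => ξ y - f₂ (i D.A y) + f₂ y) (ρ₂ D.B)
  have cj : ∀ ρ : Γ → Y → ℚ, Cr R i ρ → Cr R (i.comp D.j) (fun w y => ρ (D.j w) y) := by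
    intro ρ hρ g k y
    have h1 := hρ (D.j g) (D.j k) y
    rw [← map_mul] at h1
    exact h1
  have xc : ∀ x : Fr → Y → ℚ, Cx (i.comp D.j) x → Cr R (i.comp D.j) x := by
    intro x hx g k y
    rw [hx g k y]
    exact mem_eq R.zero_mem (by ring)
  have q₁A : ∀ y, x₁ lA y - ρ₁ D.A y ∈ R := fun y => by
    rw [x₁A]; exact mem_eq R.zero_mem (by ring)
  have q₁B : ∀ y, x₁ lB y - ρ₁ D.B y ∈ R := fun y => by
    rw [x₁B]; exact mem_eq R.zero_mem (by ring)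
  have q₂A : ∀ y, x₂ lA y - ρ₂ D.A y ∈ R := fun y => by
    rw [x₂A]
    refine mem_eq (ξr y) ?_
    unfold gt
    ring
  have q₂B : ∀ y, x₂ lB y - ρ₂ D.B y ∈ R := fun y => by
    rw [x₂B]; exact mem_eq R.zero_mem (by ring)
  have w₁ : ∀ w y, x₁ w y - ρ₁ (D.j w) y ∈ R :=
    (hLft Y (i.comp D.j)).2.2 R x₁ _ (xc x₁ X₁) (cj ρ₁ c₁)
      (fun y => by simp only [j_A]; exact q₁A y) (fun y => by simp only [j_B]; exact q₁B y)
  have w₂ : ∀ w y, x₂ w y - ρ₂ (D.j w) y ∈ R :=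
    (hLft Y (i.comp D.j)).2.2 R x₂ _ (xc x₂ X₂) (cj ρ₂ c₂)
      (fun y => by simp only [j_A]; exact q₂A y) (fun y => by simp only [j_B]; exact q₂B y)
  -- `x'_k ≡ ρ'_k`
  have v₁ : ∀ w y, x₁ w y + dl (i.comp D.j) f₁ w y - gt i f₁ ρ₁ (D.j w) y ∈ R := by
    intro w y
    refine mem_eq (w₁ w y) ?_
    unfold gt dl
    rw [MonoidHom.comp_apply]
    ring
  have v₂ : ∀ w y, x₂ w y + dl (i.comp D.j) f₂ w y - gt i f₂ ρ₂ (D.j w) y ∈ R := by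
    intro w y
    refine mem_eq (w₂ w y) ?_
    unfold gt dl
    rw [MonoidHom.comp_apply]
    ring
  have hxi : ∀ y, x₂ lA y + dl (i.comp D.j) f₂ lA y = ξ y := by
    intro y
    unfold dl
    rw [x₂A, iA]
    ring
  -- TWE
  obtain ⟨hBs, hτ⟩ := hTwe Γ Y R D i hTs ρ₁ ρ₂ c₁ c₂ r₁ r₂ κ₁ κ₂ t₁ t₂ k₁ k₂ κa₁ κb₁ κa₂ κb₂
    x₁ x₂ X₁ X₂ q₁A q₁B q₂A q₂B
  have n₁ : ∀ y, gt i f₁ ρ₁ D.a⁻¹ y + μ₁ y ∈ R := neg_of c₁' F₁ M₁.inv
  have n₂ : ∀ y, gt i f₂ ρ₂ D.a⁻¹ y + μ₂ y ∈ R := neg_of c₂' F₂ M₂.inv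
  have hπ : ∀ y, (i D.a)⁻¹ y = i D.a⁻¹ y := fun y => by rw [map_inv]
  have hτ' := hτ (fun y => - μ₁ y - f₁ ((i D.a)⁻¹ y) + f₁ y) g₂ (by
    intro y
    refine mem_eq (R.neg_mem (n₁ y)) ?_
    simp only [hπ]
    unfold gt
    ring) gr gC
  -- the node data
  have hNd : Nd R (i.comp D.j) x₁ x₂ (fun y => κ₁ y - r₁) (fun y => κ₂ y - r₂) (i D.a)
      f₁ f₂ μ₁ μ₂ g₂ := by
    refine ⟨?_, ?_, ?_, M₁.inv, M₂.inv, ?_, ?_, ?_, ?_, ?_, ?_, ?_, ?_, ?_⟩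
    · intro w y
      rw [MonoidHom.comp_apply, MonoidHom.comp_apply, ← Equiv.Perm.mul_apply,
        ← Equiv.Perm.mul_apply, ← map_mul, ← map_mul, j_pa]
    · intro y; simp only [κa₁]
    · intro y; simp only [κa₂]
    · intro y; rw [iA]; exact μA₁ y
    · intro y; rw [iA]; exact μA₂ y
    · intro y; rw [iA']; exact μB₁ y
    · intro y; rw [iA']; exact μB₂ y
    · intro w y
      have h1 := transport c₁' F₁ M₁.inv (D.j w) y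
      have h2 := v₁ (pa⁻¹ w) ((i D.a)⁻¹ y)
      have h3 := v₁ w y
      rw [j_pai, hπ] at h2
      rw [hπ]
      refine mem_eq (R.add_mem (R.sub_mem h2 h3) h1) ?_
      have h4 : dl (i.comp D.j) μ₁ w y = μ₁ (i (D.j w) y) - μ₁ y := rfl
      rw [h4]
      ring
    · intro w y
      have h1 := transport c₂' F₂ M₂.inv (D.j w) y
      have h2 := v₂ (pa⁻¹ w) ((i D.a)⁻¹ y)
      have h3 := v₂ w y
      rw [j_pai, hπ] at h2
      rw [hπ]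
      refine mem_eq (R.add_mem (R.sub_mem h2 h3) h1) ?_
      have h4 : dl (i.comp D.j) μ₂ w y = μ₂ (i (D.j w) y) - μ₂ y := rfl
      rw [h4]
      ring
    · intro y; rw [iC]; exact gC y
    · intro y
      refine mem_eq (R.add_mem (gr y) (n₂ y)) ?_
      rw [hπ]
      unfold gt
      ring
    · intro y
      rw [hxi, hxi]
      exact ξa y
  have hI := hNdi Y R (i.comp D.j) x₁ x₂ _ _ hBs (i D.a) f₁ f₂ μ₁ μ₂ g₂ hNd Δ Δa (by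
    intro y
    have h1 := v₁ lC y
    rw [j_C] at h1
    refine mem_eq (R.sub_mem (Δr y) h1) ?_
    ring)
  have hJ := hNdj Y R (i.comp D.j) x₁ x₂ _ _ hBs (i D.a) f₁ f₂ μ₁ μ₂ g₂ hNd Ψ Ψa (by
    intro y
    have h1 := v₁ lA'⁻¹ y
    rw [map_inv, j_A'] at h1
    exact mem_eq (R.sub_mem (Ψr y) h1) (by ring))
  obtain ⟨hK1, hK2⟩ := hNdk Y R (i.comp D.j) x₁ x₂ _ _ hBs (i D.a) f₁ f₂ μ₁ μ₂ g₂ hNd
  have hK2' := hK2 Δ Δa
  simp only [hxi, iB] at hJ hK1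
  have hBi : ∀ y, (i D.B)⁻¹ y = i D.B⁻¹ y := fun y => by rw [map_inv]
  simp only [hBi] at hK1
  -- orbits
  have hA := hOoa Γ Y R D i (gt i f₁ ρ₁) (gt i f₂ ρ₂) c₁' c₂' μ₁ μ₂ M₁.inv μA₁ μB₁ M₂.inv
    μA₂ μB₂ F₁ F₂ ξ Ψ ξa (fun y => mem_eq (R.neg_mem (ξr y)) (by ring)) Ψa
    (fun y => mem_eq (R.neg_mem (Ψr y)) (by ring)) η ζ (gt_ex e1 f₁) (gt_ex e2 f₂)
  have hTT := hOot Γ Y R D i (gt i f₁ ρ₁) ρ₂ c₁' c₂ μ₁ μ₂ κ₁ κ₂ M₁.inv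
    (by rw [hiT]; exact μC₁) (by rw [hiT]; exact μC₂) κa₁ κa₂ κT₂ F₁ M₂ (gt_hl T₁ f₁) k₂ Δ g₂ Δa
    (by
      intro y
      have h1 := c₁' D.C D.Ts y
      rw [← T_eq, hTs, Equiv.Perm.one_apply] at h1
      have h2 : gt i f₁ ρ₁ D.Ts y = ρ₁ D.Ts y := gt_fix f₁ (by rw [hTs, Equiv.Perm.one_apply])
      rw [h2] at h1
      exact mem_eq (R.sub_mem (R.add_mem h1 (t₁ y)) (Δr y)) (by ring))
    (by rw [hiT]; exact gC) (fun y => mem_eq (R.neg_mem (gr y)) (by ring)) δ m (gt_ex e3 f₁) e4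
  -- the end
  rw [hK1, hK2'] at hI
  have hfin := R.add_mem (R.add_mem hI hJ) (R.add_mem hA hTT)
  have h12 : (12 : ℚ) ∈ R := by
    have := natCast_mem R 12
    exact_mod_cast this
  have h13 := R.sub_mem hτ' (R.mul_mem h12 hfin)
  refine mem_eq h13 ?_
  have s1 : ∑ y, (κ₁ y * κ₂ y - r₁ * r₂) = - ∑ y, (r₁ * r₂ - κ₁ y * κ₂ y) := by
    rw [← Finset.sum_neg_distrib]
    exact Finset.sum_congr rfl fun y _ => by ring
  have s2 : ∑ y, ((μ₁ y - μ₁ (i D.B⁻¹ y)) * (μ₂ y - μ₂ (i D.B⁻¹ y)) + η y * ζ y -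
        (μ₂ y - m y) * δ y + (r₁ - κ₁ y) * μ₂ y + μ₁ y * (r₂ - κ₂ y)) =
      ∑ y, ((μ₁ y - μ₁ (i D.B⁻¹ y)) * (μ₂ y - μ₂ (i D.B⁻¹ y)) + η y * ζ y) -
        ∑ y, (μ₂ y - m y) * δ y - ∑ y, (κ₁ y - r₁) * μ₂ y - ∑ y, μ₁ y * (κ₂ y - r₂) := by
    rw [← Finset.sum_sub_distrib, ← Finset.sum_sub_distrib, ← Finset.sum_sub_distrib]
    exact Finset.sum_congr rfl fun y _ => by ring
  rw [s1, s2]
  ring

theorem rel (hGau : GauStmt) (hInv : InvStmt) (hLft : LftStmt) (hTwe : TweStmt)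
    (hNdi : NdiStmt) (hNdj : NdjStmt) (hNdk : NdkStmt) (hOoa : OoaStmt) (hOot : OotStmt) :
    RelStmt := by
  intro Γ Y _ _ R D i hTs ρ₁ ρ₂ c₁ c₂ r₁ r₂ κ₁ κ₂ μ₁ μ₂ η ζ δ m t₁ t₂ T₁ T₂ κa₁ κb₁ κa₂ κb₂
    M₁ M₂ μA₁ μB₁ μA₂ μB₂ e1 e2 e3 e4
  obtain ⟨p₁, P₁⟩ := hGau Γ Y R i ρ₁ c₁ D.T κ₁ T₁
  obtain ⟨p₂, P₂⟩ := hGau Γ Y R i ρ₂ c₂ D.T κ₂ T₂
  have hfix : ∀ y, i D.Ts y = y := fun y => by rw [hTs, Equiv.Perm.one_apply]
  have d₁ := gt_cr c₁ p₁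
  have d₂ := gt_cr c₂ p₂
  have N₁ := gt_hl M₁ p₁
  have N₂ := gt_hl M₂ p₂
  obtain ⟨f₁, F₁⟩ := hGau Γ Y R i (gt i p₁ ρ₁) d₁ D.a μ₁ N₁
  obtain ⟨f₂, F₂⟩ := hGau Γ Y R i (gt i p₂ ρ₂) d₂ D.a μ₂ N₂
  exact relT hInv hLft hTwe hNdi hNdj hNdk hOoa hOot R D i hTs (gt i p₁ ρ₁) (gt i p₂ ρ₂) d₁ d₂
    r₁ r₂ κ₁ κ₂ μ₁ μ₂ η ζ δ m (fun y => by rw [gt_fix p₁ (hfix y)]; exact t₁ y)
    (fun y => by rw [gt_fix p₂ (hfix y)]; exact t₂ y) (gt_hl T₁ p₁)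
    (fun y => mem_eq (P₁ y) (by unfold gt; ring)) (fun y => mem_eq (P₂ y) (by unfold gt; ring))
    κa₁ κb₁ κa₂ κb₂ N₁ N₂ f₁ f₂ (fun y => mem_eq (F₁ y) (by rw [gt]))
    (fun y => mem_eq (F₂ y) (by rw [gt])) μA₁ μB₁ μA₂ μB₂ (gt_ex e1 p₁) (gt_ex e2 p₂)
    (gt_ex e3 p₁) (gt_ex e4 p₂)

end Pool.Agent.SOR.H44
end
end -- Pool.Agent.Helper44_SOR.REL
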