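import Pool.Agent.Helper12_AWB.B000

/-!
# Merged copies (generated) of the modules

* `Pool.Agent.Helper10_SOR.TIN`
* `Pool.Agent.Helper13_SOR.NDI`
* `Pool.Agent.Helper13_SOR.TAB`
* `Pool.Agent.Helper15_SOR.HOL`
* `Pool.Agent.Helper16_SOR.AVE`
* `Pool.Agent.Helper17_SOR.IND`
* `Pool.Agent.Helper17_SOR.NDJ`
* `Pool.Agent.Helper27_SOR.TWE`
* `Pool.Agent.Helper45_SOR.NDK`
* `Pool.Agent.Helper47_SOR.AUT`
* `Pool.Agent.Helper47_SOR.PRG`
* `Pool.Agent.Helper56_SOR.IVF`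
* `Pool.Agent.Helper62_SOR.OOA`
* `Pool.Agent.Helper69_SOR.LFT`
* `Pool.Agent.Helper69_SOR.THX`
* `Pool.Agent.Helper76_SOR.GAU`
* `Pool.Agent.Helper77_SOR.TTT`
* `Pool.Agent.Helper81_SOR.MOB`
* `Pool.Agent.Helper81_SOR.XRE`
* `Pool.Agent.Helper82_SOR.OOT`
* `Pool.Agent.Helper86_SOR.TMU`
* `Pool.Agent.Helper95_SOR.INV`
* `Pool.Agent.Helper66_SOR.Asm`
-/

set_option autoImplicit false

section -- Pool.Agent.Helper10_SOR.TIN

/-!
# Row TIN of the squad SOR: `τ` modulo `R` does not depend on `g₁`, `g₂`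
-/

open scoped BigOperators

noncomputable section

namespace Pool.Agent.SOR.H10

/-- the coboundary of a function is an exact cocycle -/
theorem cx_dl {H Y : Type} [Group H] (i : H →* Equiv.Perm Y) (f : Y → ℚ) : Cx i (dl i f) := by
  intro g h y
  simp only [dl, map_mul, Equiv.Perm.mul_apply]
  ring

/-- sums of exact cocycles -/
theorem cx_sub {H Y : Type} [Group H] (i : H →* Equiv.Perm Y) (u v : H → Y → ℚ) (hu : Cx i u)
    (hv : Cx i v) : Cx i (fun w y => u w y - v w y) := by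
  intro g h y
  have h1 := hu g h y
  have h2 := hv g h y
  simp only [h1, h2]
  ring

/-- Row TIN. -/
theorem tin (hI : IvfStmt) : TinStmt := by
  intro Y _ R i x₁ x₂ h₁ h₂ hB φ π g₁ g₂ g₁' g₂' hA hA' hg1 hg2
  obtain ⟨-, -, hadd, -, hdl, htr, -⟩ := hI Y i
  have hX : Cx i (tw φ π x₁) := (htr φ π hA.act hA.fixC x₁ x₁ hB.ex₁ hB.ex₁).1
  have hX2 : Cx i (tw φ π x₂) := (htr φ π hA.act hA.fixC x₂ x₂ hB.ex₂ hB.ex₂).1
  have he' : Cx i (eps i x₂ φ π g₂') := by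
    have h := cx_sub i _ _ (cx_sub i _ _ hX2 hB.ex₂) (cx_dl i g₂')
    exact h
  have hsum : eps i x₂ φ π g₂ =
      fun w y => eps i x₂ φ π g₂' w y + dl i (fun y => g₂' y - g₂ y) w y := by
    funext w y
    simp only [eps, dl]
    ring
  have h1 : Iv i (tw φ π x₁) (eps i x₂ φ π g₂) = Iv i (tw φ π x₁) (eps i x₂ φ π g₂') +
      Iv i (tw φ π x₁) (dl i (fun y => g₂' y - g₂ y)) := by
    rw [hsum]
    exact hadd _ _ _ hX he' (cx_dl i _)
  have h2 := hdl (tw φ π x₁) (fun y => g₂' y - g₂ y) hX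
  have hC : φ⁻¹ lC = lC := by
    have h : φ⁻¹ (φ lC) = lC := by simp
    rw [hA.fixC] at h
    exact h
  have hinv : ∀ y, h₁ (π⁻¹ y) = h₁ y := by
    intro y
    have h := hA.inv₁ (π⁻¹ y)
    rw [show π (π⁻¹ y) = y from by simp] at h
    exact h.symm
  have hkey : tau i x₁ x₂ h₁ h₂ φ π g₁' g₂' - tau i x₁ x₂ h₁ h₂ φ π g₁ g₂ =
      ∑ y, ((x₁ lC (π⁻¹ y) - h₁ (π⁻¹ y)) * (g₂' y - g₂ y) -
        (g₁' y - g₁ y) * (h₂ y - x₂ lC y)) := by
    have e1 : Iv i (tw φ π x₁) (eps i x₂ φ π g₂') - Iv i (tw φ π x₁) (eps i x₂ φ π g₂) =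
        ∑ y, x₁ lC (π⁻¹ y) * (g₂' y - g₂ y) := by
      rw [h1, h2]
      have e : ∀ y, tw φ π x₁ lC y = x₁ lC (π⁻¹ y) := by
        intro y
        simp only [tw, hC]
      simp only [e]
      ring
    have e2 : tau i x₁ x₂ h₁ h₂ φ π g₁' g₂' - tau i x₁ x₂ h₁ h₂ φ π g₁ g₂ =
        (Iv i (tw φ π x₁) (eps i x₂ φ π g₂') - Iv i (tw φ π x₁) (eps i x₂ φ π g₂)) -
        ∑ y, h₁ y * g₂' y - ∑ y, g₁' y * (h₂ y - x₂ lC y) + ∑ y, h₁ y * g₂ y +
        ∑ y, g₁ y * (h₂ y - x₂ lC y) := by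
      simp only [tau]
      ring
    rw [e2, e1, ← Finset.sum_sub_distrib, ← Finset.sum_sub_distrib, ← Finset.sum_add_distrib,
      ← Finset.sum_add_distrib]
    apply Finset.sum_congr rfl
    intro y _
    rw [hinv y]
    ring
  rw [hkey]
  apply Subring.sum_mem
  intro y _
  exact Subring.sub_mem R (Subring.mul_mem R (hB.xc₁ _) (hg2 y))
    (Subring.mul_mem R (hg1 y) (by
      have h := Subring.neg_mem R (hB.xc₂ y)
      have e : -(x₂ lC y - h₂ y) = h₂ y - x₂ lC y := by ring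
      rwa [e] at h))

end Pool.Agent.SOR.H10
end
end -- Pool.Agent.Helper10_SOR.TIN

section -- Pool.Agent.Helper13_SOR.NDI

/-! Squad SOR, row NDI: the change of the gauge. -/

open scoped BigOperators

noncomputable section

namespace Pool.Agent.SOR.H13

open Pool.Agent.SOR

section

variable {Y : Type}

theorem pinv (π : Equiv.Perm Y) (y : Y) : π (π⁻¹ y) = y := π.apply_symm_apply y

theorem cx_dl (i : Fr →* Equiv.Perm Y) (f : Y → ℚ) : Cx i (dl i f) := by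
  intro g h y
  simp only [dl, map_mul, Equiv.Perm.mul_apply]
  ring

theorem cx_add {i : Fr →* Equiv.Perm Y} {u v : Fr → Y → ℚ} (hu : Cx i u) (hv : Cx i v) :
    Cx i (fun w y => u w y + v w y) := by
  intro g h y
  simp only [hu g h y, hv g h y]
  ring

theorem cx_sub {i : Fr →* Equiv.Perm Y} {u v : Fr → Y → ℚ} (hu : Cx i u) (hv : Cx i v) :
    Cx i (fun w y => u w y - v w y) := by
  intro g h y
  simp only [hu g h y, hv g h y]
  ring

theorem act_inv {i : Fr →* Equiv.Perm Y} {φ : MulAut Fr} {π : Equiv.Perm Y}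
    (h : ∀ w y, π (i w y) = i (φ w) (π y)) (w : Fr) (y : Y) :
    π⁻¹ (i w y) = i (φ⁻¹ w) (π⁻¹ y) := by
  rw [Equiv.Perm.inv_eq_iff_eq, h, pinv, MulAut.apply_inv_self]

theorem cx_tw {i : Fr →* Equiv.Perm Y} {φ : MulAut Fr} {π : Equiv.Perm Y}
    (h : ∀ w y, π (i w y) = i (φ w) (π y)) {u : Fr → Y → ℚ} (hu : Cx i u) : Cx i (tw φ π u) := by
  intro g k y
  simp only [tw, map_mul]
  rw [hu, act_inv h]

theorem pa_C : pa lC = lC := by
  show fa lC = lC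
  simp only [lC, map_mul, map_inv, fa_A, fa_B]
  group

theorem pa_inv_C : pa⁻¹ lC = lC := by
  show pa.symm lC = lC
  rw [MulEquiv.symm_apply_eq]
  exact pa_C.symm

theorem C_eq : lC = lA'⁻¹ * lA := by
  simp only [lC, lA']
  group

end

theorem ndi (hIVF : IvfStmt) : NdiStmt := by
  intro Y _ R i x₁ x₂ h₁ h₂ hB π f₁ f₂ μ₁ μ₂ g₂ hN Δ hΔ1 hΔ2
  obtain ⟨_, hii, hiii, hiv, hv, _, _⟩ := hIVF Y i
  -- invariance of `h`
  have i1 : ∀ y, h₁ (π⁻¹ y) = h₁ y := fun y => by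
    have := hN.i₁ (π⁻¹ y)
    rwa [pinv, eq_comm] at this
  have i2 : ∀ y, h₂ (π⁻¹ y) = h₂ y := fun y => by
    have := hN.i₂ (π⁻¹ y)
    rwa [pinv, eq_comm] at this
  have iΔ : ∀ y, Δ (π⁻¹ y) = Δ y := fun y => by
    have := hΔ1 (π⁻¹ y)
    rwa [pinv, eq_comm] at this
  have hai := act_inv hN.act
  have haC : ∀ y, π⁻¹ (i lC y) = i lC (π⁻¹ y) := fun y => by rw [hai, pa_inv_C]
  -- the functions
  obtain ⟨k, hk⟩ : ∃ k : Y → ℚ, ∀ y, k y = g₂ y + f₂ (π⁻¹ y) - f₂ y + μ₂ y := ⟨_, fun _ => rfl⟩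
  obtain ⟨j, hj⟩ : ∃ j : Y → ℚ, ∀ y, j y = h₂ y - x₂ lC y := ⟨_, fun _ => rfl⟩
  obtain ⟨D, hD⟩ : ∃ D : Y → ℚ, ∀ y, D y = f₁ (i lC (π⁻¹ y)) - f₁ (π⁻¹ y) := ⟨_, fun _ => rfl⟩
  obtain ⟨X, hX⟩ : ∃ X : Fr → Y → ℚ, X = tw pa π (fun w y => x₁ w y + dl i f₁ w y) := ⟨_, rfl⟩
  obtain ⟨E, hE⟩ : ∃ E : Fr → Y → ℚ, E = (fun w y => (x₂ (pa⁻¹ w) (π⁻¹ y) +
    dl i f₂ (pa⁻¹ w) (π⁻¹ y)) - (x₂ w y + dl i f₂ w y) + dl i μ₂ w y) := ⟨_, rfl⟩
  have kR : ∀ y, k y ∈ R := fun y => by rw [hk]; exact hN.gr y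
  have jR : ∀ y, j y ∈ R := fun y => by
    have := R.neg_mem (hB.xc₂ y)
    rw [hj]
    rwa [neg_sub] at this
  have cX : Cx i X := by
    rw [hX]
    exact cx_tw hN.act (cx_add hB.ex₁ (cx_dl i f₁))
  have cE : Cx i E := by
    rw [hE]
    have h1 : Cx i (tw pa π (fun w y => x₂ w y + dl i f₂ w y)) :=
      cx_tw hN.act (cx_add hB.ex₂ (cx_dl i f₂))
    exact cx_add (cx_sub h1 (cx_add hB.ex₂ (cx_dl i f₂))) (cx_dl i μ₂)
  have e1 : tw pa π x₁ = fun w y => X w y + dl i (fun y => - f₁ (π⁻¹ y)) w y := by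
    funext w y
    rw [hX]
    simp only [tw, dl, hai]
    ring
  have e2 : eps i x₂ pa π g₂ = fun w y => E w y + dl i (fun y => - k y) w y := by
    funext w y
    rw [hE]
    simp only [eps, tw, dl, hk, hai]
    ring
  have cEps : Cx i (eps i x₂ pa π g₂) := by
    rw [e2]
    exact cx_add cE (cx_dl i _)
  have eC : ∀ y, eps i x₂ pa π g₂ lC y = j y - j (π⁻¹ y) := by
    intro y
    simp only [eps, tw, dl, hj, pa_inv_C, hN.gc, i2]
    ring
  have XC : ∀ y, X lC y = x₁ lC (π⁻¹ y) + D y := by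
    intro y
    rw [hX, hD]
    simp only [tw, dl, pa_inv_C]
  have e3 : Iv i (tw pa π x₁) (eps i x₂ pa π g₂) = Iv i X E + ∑ y, X lC y * k y -
      ∑ y, f₁ (π⁻¹ (i lC y)) * (j y - j (π⁻¹ y)) := by
    rw [e1, hii X (dl i (fun y => - f₁ (π⁻¹ y))) _ cX (cx_dl i _) cEps, hiv _ _ cEps]
    have e4 : Iv i X (eps i x₂ pa π g₂) = Iv i X E + ∑ y, X lC y * k y := by
      rw [e2, hiii X E (dl i (fun y => - k y)) cX cE (cx_dl i _), hv X _ cX]
      simp only [mul_neg, Finset.sum_neg_distrib, neg_neg]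
    rw [e4]
    have e5 : ∑ y, (fun y => - f₁ (π⁻¹ y)) (i lC y) * eps i x₂ pa π g₂ lC y =
        - ∑ y, f₁ (π⁻¹ (i lC y)) * (j y - j (π⁻¹ y)) := by
      rw [← Finset.sum_neg_distrib]
      refine Finset.sum_congr rfl fun y _ => ?_
      rw [eC]
      simp only
      ring
    rw [e5]
    ring
  -- reindexing
  have rei : ∀ F : Y → ℚ, ∑ y, F (π⁻¹ y) = ∑ y, F y := fun F => Equiv.sum_comp π⁻¹ F
  have e6 : ∑ y, f₁ y * j y = ∑ y, f₁ (π⁻¹ y) * j (π⁻¹ y) := (rei (fun y => f₁ y * j y)).symm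
  have e7 : ∑ y, h₁ y * f₂ (π⁻¹ y) = ∑ y, h₁ y * f₂ y := by
    rw [← rei (fun y => h₁ y * f₂ y)]
    refine Finset.sum_congr rfl fun y _ => ?_
    rw [i1]
  have e8 : ∑ y, Δ y * j (π⁻¹ y) = ∑ y, Δ y * j y := by
    rw [← rei (fun y => Δ y * j y)]
    refine Finset.sum_congr rfl fun y _ => ?_
    rw [iΔ]
  have dR : ∀ y, D y - Δ y ∈ R := by
    intro y
    have h1 := hN.m₁ lC y
    have h2 : dl i μ₁ lC y = 0 := by
      have e : i lC y = i lA'⁻¹ (i lA y) := by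
        rw [C_eq, map_mul, Equiv.Perm.mul_apply]
      have e' : μ₁ (i lA'⁻¹ (i lA y)) = μ₁ (i lA y) := by
        have := hN.c₁ (i lA'⁻¹ (i lA y))
        rw [← this, ← Equiv.Perm.mul_apply, ← map_mul, mul_inv_cancel, map_one,
          Equiv.Perm.one_apply]
      simp only [dl]
      rw [e, e', hN.b₁, sub_self]
    rw [pa_inv_C, h2, add_zero] at h1
    have h3 := hB.xc₁ (π⁻¹ y)
    rw [i1] at h3
    have h4 := hΔ2 y
    have e : D y - Δ y = ((x₁ lC (π⁻¹ y) + dl i f₁ lC (π⁻¹ y)) - (x₁ lC y + dl i f₁ lC y)) -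
        (x₁ lC (π⁻¹ y) - h₁ y) - (Δ y - (x₁ lC y + dl i f₁ lC y - h₁ y)) := by
      rw [hD]
      simp only [dl]
      ring
    rw [e]
    exact R.sub_mem (R.sub_mem h1 h3) h4
  -- the main identity
  have main : tau i x₁ x₂ h₁ h₂ pa π (fun y => - μ₁ y - f₁ (π⁻¹ y) + f₁ y) g₂ -
      (Iv i X E + ∑ y, h₁ y * μ₂ y + ∑ y, μ₁ y * (h₂ y - x₂ lC y) +
        ∑ y, Δ y * (g₂ y + f₂ (π⁻¹ y) - f₂ y + μ₂ y)) =
      ∑ y, ((x₁ lC (π⁻¹ y) - h₁ (π⁻¹ y)) * k y + (D y - Δ y) * k y -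
        (D y - Δ y) * (j y - j (π⁻¹ y))) := by
    have e9 : ∑ y, h₁ y * g₂ y = ∑ y, h₁ y * k y - ∑ y, h₁ y * μ₂ y := by
      have : ∑ y, h₁ y * k y = ∑ y, h₁ y * g₂ y + ∑ y, h₁ y * f₂ (π⁻¹ y) - ∑ y, h₁ y * f₂ y +
          ∑ y, h₁ y * μ₂ y := by
        rw [← Finset.sum_add_distrib, ← Finset.sum_sub_distrib, ← Finset.sum_add_distrib]
        refine Finset.sum_congr rfl fun y _ => ?_
        rw [hk]
        ring
      rw [this, e7]
      ring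
    have e10 : ∑ y, (- μ₁ y - f₁ (π⁻¹ y) + f₁ y) * (h₂ y - x₂ lC y) =
        - ∑ y, μ₁ y * (h₂ y - x₂ lC y) - ∑ y, f₁ (π⁻¹ y) * (j y - j (π⁻¹ y)) := by
      have h1 : ∑ y, (- μ₁ y - f₁ (π⁻¹ y) + f₁ y) * (h₂ y - x₂ lC y) =
          - ∑ y, μ₁ y * (h₂ y - x₂ lC y) - ∑ y, f₁ (π⁻¹ y) * j y + ∑ y, f₁ y * j y := by
        rw [← Finset.sum_neg_distrib, ← Finset.sum_sub_distrib, ← Finset.sum_add_distrib]
        refine Finset.sum_congr rfl fun y _ => ?_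
        rw [hj]
        ring
      rw [h1, e6]
      have h2 : ∑ y, f₁ (π⁻¹ y) * (j y - j (π⁻¹ y)) = ∑ y, f₁ (π⁻¹ y) * j y -
          ∑ y, f₁ (π⁻¹ y) * j (π⁻¹ y) := by
        rw [← Finset.sum_sub_distrib]
        refine Finset.sum_congr rfl fun y _ => ?_
        ring
      rw [h2]
      ring
    have e11 : ∑ y, Δ y * (g₂ y + f₂ (π⁻¹ y) - f₂ y + μ₂ y) = ∑ y, Δ y * k y := by
      refine Finset.sum_congr rfl fun y _ => ?_
      rw [hk]
    have e12 : ∑ y, ((x₁ lC (π⁻¹ y) - h₁ (π⁻¹ y)) * k y + (D y - Δ y) * k y -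
        (D y - Δ y) * (j y - j (π⁻¹ y))) = ∑ y, X lC y * k y - ∑ y, h₁ y * k y -
        ∑ y, Δ y * k y - ∑ y, f₁ (π⁻¹ (i lC y)) * (j y - j (π⁻¹ y)) +
        ∑ y, f₁ (π⁻¹ y) * (j y - j (π⁻¹ y)) + (∑ y, Δ y * j y - ∑ y, Δ y * j (π⁻¹ y)) := by
      rw [← Finset.sum_sub_distrib, ← Finset.sum_sub_distrib, ← Finset.sum_sub_distrib,
        ← Finset.sum_add_distrib, ← Finset.sum_sub_distrib, ← Finset.sum_add_distrib]
      refine Finset.sum_congr rfl fun y _ => ?_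
      rw [XC, hD, haC, i1]
      ring
    rw [e12, e8, e11]
    simp only [tau]
    rw [e3, e9, e10]
    ring
  rw [hX, hE] at main
  rw [main]
  refine R.sum_mem fun y _ => R.sub_mem (R.add_mem ?_ ?_) ?_
  · exact R.mul_mem (hB.xc₁ _) (kR y)
  · exact R.mul_mem (dR y) (kR y)
  · exact R.mul_mem (dR y) (R.sub_mem (jR _) (jR _))

end Pool.Agent.SOR.H13
end
end -- Pool.Agent.Helper13_SOR.NDI

section -- Pool.Agent.Helper13_SOR.TAB

/-! Squad SOR, row TAB: twelve times `τ(a)`. -/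

open scoped BigOperators

noncomputable section

namespace Pool.Agent.SOR.H13

open Pool.Agent.SOR

theorem tab_pow (hTMU : TmuStmt) (Y : Type) [Fintype Y] (R : Subring ℚ) (i : Fr →* Equiv.Perm Y)
    (x₁ x₂ : Fr → Y → ℚ) (h₁ h₂ : Y → ℚ) (hB : Bs R i x₁ x₂ h₁ h₂) (φ : MulAut Fr)
    (π : Equiv.Perm Y) (G₁ G₂ : Y → ℚ) (hA : Ad R i x₁ x₂ h₁ h₂ φ π G₁ G₂) (n : ℕ) :
    Ad R i x₁ x₂ h₁ h₂ (φ ^ (n + 1)) (π ^ (n + 1))
      (fun y => ∑ k ∈ Finset.range (n + 1), G₁ ((π⁻¹ ^ k) y))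
      (fun y => ∑ k ∈ Finset.range (n + 1), G₂ ((π⁻¹ ^ k) y)) ∧
    tau i x₁ x₂ h₁ h₂ (φ ^ (n + 1)) (π ^ (n + 1))
      (fun y => ∑ k ∈ Finset.range (n + 1), G₁ ((π⁻¹ ^ k) y))
      (fun y => ∑ k ∈ Finset.range (n + 1), G₂ ((π⁻¹ ^ k) y)) -
      ((n : ℚ) + 1) * tau i x₁ x₂ h₁ h₂ φ π G₁ G₂ ∈ R := by
  induction n with
  | zero =>
    have e : ∀ G : Y → ℚ, (fun y => ∑ k ∈ Finset.range (0 + 1), G ((π⁻¹ ^ k) y)) = G := by
      intro G
      funext y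
      rw [zero_add, Finset.sum_range_one, pow_zero, Equiv.Perm.one_apply]
    rw [e, e, zero_add, pow_one, pow_one]
    refine ⟨hA, ?_⟩
    have : tau i x₁ x₂ h₁ h₂ φ π G₁ G₂ - (((0 : ℕ) : ℚ) + 1) * tau i x₁ x₂ h₁ h₂ φ π G₁ G₂ = 0 := by
      push_cast
      ring
    rw [this]
    exact R.zero_mem
  | succ n ih =>
    obtain ⟨ih1, ih2⟩ := ih
    obtain ⟨h3, h4⟩ := hTMU Y R i x₁ x₂ h₁ h₂ hB φ π G₁ G₂ _ _ _ _ hA ih1
    have e : ∀ G : Y → ℚ, (fun y => G y +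
        (fun y => ∑ k ∈ Finset.range (n + 1), G ((π⁻¹ ^ k) y)) (π⁻¹ y)) =
        fun y => ∑ k ∈ Finset.range (n + 1 + 1), G ((π⁻¹ ^ k) y) := by
      intro G
      funext y
      rw [Finset.sum_range_succ' _ (n + 1)]
      have e1 : ∀ k, (π⁻¹ ^ k) (π⁻¹ y) = (π⁻¹ ^ (k + 1)) y := by
        intro k
        rw [pow_succ, Equiv.Perm.mul_apply]
      simp only [e1, pow_zero, Equiv.Perm.coe_one, id_eq]
      rw [add_comm]
    rw [e, e] at h3 h4
    rw [← pow_succ', ← pow_succ'] at h3 h4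
    refine ⟨h3, ?_⟩
    have h5 := R.add_mem h4 ih2
    have e2 : tau i x₁ x₂ h₁ h₂ (φ ^ (n + 1 + 1)) (π ^ (n + 1 + 1))
        (fun y => ∑ k ∈ Finset.range (n + 1 + 1), G₁ ((π⁻¹ ^ k) y))
        (fun y => ∑ k ∈ Finset.range (n + 1 + 1), G₂ ((π⁻¹ ^ k) y)) -
        (((n + 1 : ℕ) : ℚ) + 1) * tau i x₁ x₂ h₁ h₂ φ π G₁ G₂ =
        tau i x₁ x₂ h₁ h₂ (φ ^ (n + 1 + 1)) (π ^ (n + 1 + 1))
        (fun y => ∑ k ∈ Finset.range (n + 1 + 1), G₁ ((π⁻¹ ^ k) y))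
        (fun y => ∑ k ∈ Finset.range (n + 1 + 1), G₂ ((π⁻¹ ^ k) y)) -
        tau i x₁ x₂ h₁ h₂ φ π G₁ G₂ - tau i x₁ x₂ h₁ h₂ (φ ^ (n + 1)) (π ^ (n + 1))
        (fun y => ∑ k ∈ Finset.range (n + 1), G₁ ((π⁻¹ ^ k) y))
        (fun y => ∑ k ∈ Finset.range (n + 1), G₂ ((π⁻¹ ^ k) y)) +
        (tau i x₁ x₂ h₁ h₂ (φ ^ (n + 1)) (π ^ (n + 1))
        (fun y => ∑ k ∈ Finset.range (n + 1), G₁ ((π⁻¹ ^ k) y))
        (fun y => ∑ k ∈ Finset.range (n + 1), G₂ ((π⁻¹ ^ k) y)) -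
        ((n : ℚ) + 1) * tau i x₁ x₂ h₁ h₂ φ π G₁ G₂) := by
      push_cast
      ring
    rw [e2]
    exact h5

theorem tab_fin (R : Subring ℚ) (ta tb tab tba taba tbab t6 tT S : ℚ) (e1 : tab - ta - tb ∈ R)
    (e2 : tba - tb - ta ∈ R) (e3 : taba - tab - ta ∈ R) (e4 : tbab - tba - tb ∈ R)
    (e5 : taba - tbab ∈ R) (e6 : t6 - (((5 : ℕ) : ℚ) + 1) * tab ∈ R) (e7 : tT - S ∈ R)
    (e8 : t6 - tT ∈ R) : 12 * ta - S ∈ R := by
  have h1 : ta - tb ∈ R := by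
    have e : ta - tb = (taba - tbab) - (taba - tab - ta) - (tab - ta - tb) + (tbab - tba - tb) +
        (tba - tb - ta) := by ring
    rw [e]
    exact R.add_mem (R.add_mem (R.sub_mem (R.sub_mem e5 e3) e1) e4) e2
  have h6 : (6 : ℚ) ∈ R := by
    have := natCast_mem R 6
    simpa using this
  have e : 12 * ta - S = 6 * (ta - tb) - 6 * (tab - ta - tb) - (t6 - (((5 : ℕ) : ℚ) + 1) * tab) +
      (t6 - tT) + (tT - S) := by
    push_cast
    ring
  rw [e]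
  exact R.add_mem (R.add_mem (R.sub_mem (R.sub_mem (R.mul_mem h6 h1) (R.mul_mem h6 e1)) e6) e8) e7

theorem tab (hTIN : TinStmt) (hTMU : TmuStmt) (hTTT : TttStmt) (hAUT : AutStmt) : TabStmt := by
  intro Y _ R i x₁ x₂ h₁ h₂ hB r₁ r₂ πa πb ga₁ ga₂ gb₁ gb₂ hA hBb hπ hπ6 hg1 hg2 hs1 hs2
  obtain ⟨_, _, _, haut, haut6⟩ := hAUT
  obtain ⟨hab, tab⟩ := hTMU Y R i x₁ x₂ h₁ h₂ hB pa πa ga₁ ga₂ pb πb gb₁ gb₂ hA hBb
  obtain ⟨hba, tba⟩ := hTMU Y R i x₁ x₂ h₁ h₂ hB pb πb gb₁ gb₂ pa πa ga₁ ga₂ hBb hA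
  obtain ⟨haba, taba⟩ := hTMU Y R i x₁ x₂ h₁ h₂ hB _ _ _ _ pa πa ga₁ ga₂ hab hA
  obtain ⟨hbab, tbab⟩ := hTMU Y R i x₁ x₂ h₁ h₂ hB _ _ _ _ pb πb gb₁ gb₂ hba hBb
  rw [← haut, ← hπ] at hbab tbab
  have t1 := hTIN Y R i x₁ x₂ h₁ h₂ hB _ _ _ _ _ _ hbab haba hg1 hg2
  obtain ⟨h6, t6⟩ := tab_pow hTMU Y R i x₁ x₂ h₁ h₂ hB _ _ _ _ hab 5
  obtain ⟨hT, tT⟩ := hTTT Y R i x₁ x₂ h₁ h₂ hB r₁ r₂
  have ep : (pa * pb) ^ (5 + 1) = MulAut.conj lC := haut6
  have eπ : (πa * πb) ^ (5 + 1) = i lC := hπ6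
  rw [ep, eπ] at h6 t6
  have t2 := hTIN Y R i x₁ x₂ h₁ h₂ hB _ _ _ _ _ _ hT h6
    (fun y => by
      have h := hs1 y
      have e : (∑ k ∈ Finset.range (5 + 1), (fun y => ga₁ y + gb₁ (πa⁻¹ y)) (((πa * πb)⁻¹ ^ k) y)) -
          -(h₁ y + r₁) = (∑ k ∈ Finset.range 6, (ga₁ (((πa * πb)⁻¹ ^ k) y) +
            gb₁ (πa⁻¹ (((πa * πb)⁻¹ ^ k) y)))) + (h₁ y + r₁) := by
        rw [sub_neg_eq_add]
      exact e ▸ h)
    (fun y => by
      have h := hs2 y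
      have e : (∑ k ∈ Finset.range (5 + 1), (fun y => ga₂ y + gb₂ (πa⁻¹ y)) (((πa * πb)⁻¹ ^ k) y)) -
          -(h₂ y + r₂) = (∑ k ∈ Finset.range 6, (ga₂ (((πa * πb)⁻¹ ^ k) y) +
            gb₂ (πa⁻¹ (((πa * πb)⁻¹ ^ k) y)))) + (h₂ y + r₂) := by
        rw [sub_neg_eq_add]
      exact e ▸ h)
  exact tab_fin R _ _ _ _ _ _ _ _ _ tab tba taba tbab t1 t6 tT t2

end Pool.Agent.SOR.H13
end
end -- Pool.Agent.Helper13_SOR.TAB

section -- Pool.Agent.Helper15_SOR.HOL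

/-!
# Squad SOR, row HOL: exact pairs from averages
-/

open scoped BigOperators

noncomputable section

namespace Pool.Agent.SOR.H15

section

variable {Γ Y : Type} [Group Γ] {R : Subring ℚ} {i : Γ →* Equiv.Perm Y} {ρ : Γ → Y → ℚ}

theorem rho_one (h : Cr R i ρ) (y : Y) : ρ 1 y ∈ R := by
  have h1 := h 1 1 y
  rw [mul_one, map_one, Equiv.Perm.one_apply] at h1
  have h2 := R.neg_mem h1
  have e : -(ρ 1 y - ρ 1 y - ρ 1 y) = ρ 1 y := by ring
  rwa [e] at h2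

theorem rho_inv (h : Cr R i ρ) (g : Γ) (y : Y) (hy : i g y = y) : ρ g⁻¹ y + ρ g y ∈ R := by
  have h1 := h g⁻¹ g y
  rw [inv_mul_cancel, hy] at h1
  have h2 := R.sub_mem (rho_one h y) h1
  have e : ρ 1 y - (ρ 1 y - ρ g⁻¹ y - ρ g y) = ρ g⁻¹ y + ρ g y := by ring
  rwa [e] at h2

theorem p_pow {s : Γ} {p : Y → ℚ} (hp : ∀ y, p (i s y) = p y) (k : ℕ) (y : Y) :
    p (i (s ^ k) y) = p y := by
  induction k generalizing y with
  | zero => rw [pow_zero, map_one, Equiv.Perm.one_apply]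
  | succ k ih =>
    rw [pow_succ, map_mul, Equiv.Perm.mul_apply, ih, hp]

theorem rho_pow (h : Cr R i ρ) {s : Γ} {p : Y → ℚ} (hp : ∀ y, p (i s y) = p y)
    (hs : ∀ y, ρ s y - p y ∈ R) (k : ℕ) (y : Y) : ρ (s ^ k) y - k * p y ∈ R := by
  induction k generalizing y with
  | zero =>
    rw [pow_zero, Nat.cast_zero, zero_mul, sub_zero]
    exact rho_one h y
  | succ k ih =>
    have h1 := h (s ^ k) s y
    have h2 := ih (i s y)
    rw [hp] at h2
    have h3 := R.add_mem (R.add_mem h1 h2) (hs y)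
    rw [pow_succ]
    have e : ρ (s ^ k * s) y - ρ (s ^ k) (i s y) - ρ s y + (ρ (s ^ k) (i s y) - ↑k * p y) +
        (ρ s y - p y) = ρ (s ^ k * s) y - ((k + 1 : ℕ) : ℚ) * p y := by
      push_cast
      ring
    rwa [e] at h3

theorem rho_zpow (h : Cr R i ρ) {s : Γ} {p : Y → ℚ} (hp : ∀ y, p (i s y) = p y)
    (hs : ∀ y, ρ s y - p y ∈ R) (k : ℤ) (y : Y) : ρ (s ^ k) y - k * p y ∈ R := by
  obtain ⟨n, rfl | rfl⟩ := Int.eq_nat_or_neg k
  · rw [zpow_natCast, Int.cast_natCast]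
    exact rho_pow h hp hs n y
  · have h1 := h (s ^ (-(n : ℤ))) (s ^ n) ((i (s ^ n))⁻¹ y)
    have h2 := rho_pow h hp hs n ((i (s ^ n))⁻¹ y)
    have e1 : i (s ^ n) ((i (s ^ n))⁻¹ y) = y := by
      rw [← Equiv.Perm.mul_apply, mul_inv_cancel, Equiv.Perm.one_apply]
    have e2 : p ((i (s ^ n))⁻¹ y) = p y := by
      rw [← p_pow hp n ((i (s ^ n))⁻¹ y), e1]
    have e3 : s ^ (-(n : ℤ)) * s ^ n = 1 := by
      rw [zpow_neg, zpow_natCast, inv_mul_cancel]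
    rw [e3, e1] at h1
    rw [e2] at h2
    have h3 := R.sub_mem (R.sub_mem (rho_one h ((i (s ^ n))⁻¹ y)) h1) h2
    have e : ρ 1 ((i (s ^ n))⁻¹ y) - (ρ 1 ((i (s ^ n))⁻¹ y) - ρ (s ^ (-(n : ℤ))) y -
        ρ (s ^ n) ((i (s ^ n))⁻¹ y)) - (ρ (s ^ n) ((i (s ^ n))⁻¹ y) - ↑n * p y) =
        ρ (s ^ (-(n : ℤ))) y - ((-(n : ℤ) : ℤ) : ℚ) * p y := by
      push_cast
      ring
    rwa [e] at h3

theorem rho_sum (h : Cr R i ρ) {t : Γ} {θ : Y → ℚ} (ht : ∀ y, ρ t y - θ y ∈ R) (l : ℕ) (y : Y) :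
    ρ (t ^ l) y - ∑ j ∈ Finset.range l, θ (((i t) ^ j) y) ∈ R := by
  induction l with
  | zero =>
    rw [pow_zero, Finset.sum_range_zero, sub_zero]
    exact rho_one h y
  | succ l ih =>
    have h1 := h t (t ^ l) y
    have h2 := ht (i (t ^ l) y)
    have h3 := R.add_mem (R.add_mem h1 h2) ih
    rw [pow_succ', Finset.sum_range_succ, ← map_pow]
    have e : ρ (t * t ^ l) y - ρ t (i (t ^ l) y) - ρ (t ^ l) y + (ρ t (i (t ^ l) y) -
        θ (i (t ^ l) y)) + (ρ (t ^ l) y - ∑ j ∈ Finset.range l, θ ((i t ^ j) y)) =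
        ρ (t * t ^ l) y - (∑ j ∈ Finset.range l, θ ((i t ^ j) y) + θ (i (t ^ l) y)) := by
      ring
    rwa [e] at h3

end

theorem hol (have_ : AveStmt) : HolStmt := by
  intro Γ Y _ _ R i ρ hC s t hst p θ hps hpt hs hθ ht
  have hc : i s * i t = i t * i s := by rw [← map_mul, hst, map_mul]
  obtain ⟨a1, _, _, a4, _⟩ := have_ Y (i s) (i t) hc
  have hpos : ∀ y (k : ℤ) (l : ℕ), i (s ^ k * t ^ l) y = y →
      ρ (s ^ k * t ^ l) y - k * p y - l * av (i s) (i t) θ y ∈ R := by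
    intro y k l hy
    have h1 := hC (s ^ k) (t ^ l) y
    have h2 := rho_zpow hC hps hs k (i (t ^ l) y)
    rw [p_pow hpt] at h2
    have h3 := rho_sum hC ht l y
    have h4 := a4 θ hθ y k l (by rw [← map_zpow, ← map_pow, ← map_mul]; exact hy)
    rw [h4] at h3
    have h5 := R.add_mem (R.add_mem h1 h2) h3
    have e : ρ (s ^ k * t ^ l) y - ρ (s ^ k) (i (t ^ l) y) - ρ (t ^ l) y +
        (ρ (s ^ k) (i (t ^ l) y) - ↑k * p y) + (ρ (t ^ l) y - ↑l * av (i s) (i t) θ y) =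
        ρ (s ^ k * t ^ l) y - k * p y - l * av (i s) (i t) θ y := by ring
    rwa [e] at h5
  refine ⟨hps, hpt, fun y => (a1 θ y).1, fun y => (a1 θ y).2, ?_⟩
  intro y k l hy
  obtain ⟨n, rfl | rfl⟩ := Int.eq_nat_or_neg l
  · rw [zpow_natCast, Int.cast_natCast] at *
    exact hpos y k n hy
  · have e1 : (s ^ k * t ^ (-(n : ℤ)))⁻¹ = s ^ (-k) * t ^ n := by
      have hcm : Commute s t := hst
      rw [mul_inv_rev, ← zpow_neg, ← zpow_neg, neg_neg, zpow_natCast]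
      exact ((hcm.symm.pow_left n).zpow_right (-k)).eq
    have hy' : i (s ^ (-k) * t ^ n) y = y := by
      rw [← e1, map_inv, Equiv.Perm.inv_eq_iff_eq]
      exact hy.symm
    have h1 := hpos y (-k) n hy'
    have h2 := rho_inv hC _ y hy
    rw [e1] at h2
    have h3 := R.sub_mem h2 h1
    have e : ρ (s ^ (-k) * t ^ n) y + ρ (s ^ k * t ^ (-(n : ℤ))) y -
        (ρ (s ^ (-k) * t ^ n) y - ((-k : ℤ) : ℚ) * p y - ↑n * av (i s) (i t) θ y) =
        ρ (s ^ k * t ^ (-(n : ℤ))) y - k * p y - ((-(n : ℤ) : ℤ) : ℚ) * av (i s) (i t) θ y := by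
      push_cast
      ring
    rwa [e] at h3

end Pool.Agent.SOR.H15
end
end -- Pool.Agent.Helper15_SOR.HOL

section -- Pool.Agent.Helper16_SOR.AVE

/-!
# Squad SOR, row AVE: averages over the orbits of two commuting permutations
-/

open scoped BigOperators

noncomputable section

namespace Pool.Agent.SOR.H16

theorem cyc (u : ℕ → ℚ) (m : ℕ) (h : u m = u 0) :
    ∑ k ∈ Finset.range m, u (k + 1) = ∑ k ∈ Finset.range m, u k := by
  have h1 := Finset.sum_range_succ u m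
  have h2 := Finset.sum_range_succ' u m
  linarith

theorem per (u : ℕ → ℚ) (l : ℕ) (h : ∀ j, u (l + j) = u j) (n : ℕ) :
    ∑ j ∈ Finset.range (n * l), u j = n * ∑ j ∈ Finset.range l, u j := by
  induction n with
  | zero => simp
  | succ n ih =>
    have e : (n + 1) * l = l + n * l := by ring
    rw [e, Finset.sum_range_add]
    have : ∑ x ∈ Finset.range (n * l), u (l + x) = ∑ x ∈ Finset.range (n * l), u x :=
      Finset.sum_congr rfl fun x _ => h x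
    rw [this, ih]
    push_cast
    ring

theorem inv_pow {Y : Type} (s : Equiv.Perm Y) (f : Y → ℚ) (h : ∀ y, f (s y) = f y) (k : ℕ)
    (y : Y) : f ((s ^ k) y) = f y := by
  induction k generalizing y with
  | zero => simp
  | succ k ih =>
    rw [pow_succ, Equiv.Perm.mul_apply, ih, h]

theorem inv_zpow {Y : Type} (s : Equiv.Perm Y) (f : Y → ℚ) (h : ∀ y, f (s y) = f y) (k : ℤ)
    (y : Y) : f ((s ^ k) y) = f y := by
  have hi : ∀ y, f (s⁻¹ y) = f y := by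
    intro y
    have h1 := h (s⁻¹ y)
    have h2 : s (s⁻¹ y) = y := by
      rw [← Equiv.Perm.mul_apply, mul_inv_cancel, Equiv.Perm.one_apply]
    rw [h2] at h1
    exact h1.symm
  obtain ⟨n, rfl | rfl⟩ := k.eq_nat_or_neg
  · rw [zpow_natCast]
    exact inv_pow s f h n y
  · have e : s ^ (-(n : ℤ)) = s⁻¹ ^ n := by
      rw [zpow_neg, zpow_natCast, _root_.inv_pow]
    rw [e]
    exact inv_pow s⁻¹ f hi n y

theorem ave : AveStmt := by
  intro Y _ s t hst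
  have hc : Commute s t := hst
  have hm : 0 < orderOf s := orderOf_pos s
  have hn : 0 < orderOf t := orderOf_pos t
  have hmq : (orderOf s : ℚ) ≠ 0 := by exact_mod_cast hm.ne'
  have hnq : (orderOf t : ℚ) ≠ 0 := by exact_mod_cast hn.ne'
  have hs : ∀ (f : Y → ℚ) y, av s t f (s y) = av s t f y := by
    intro f y
    unfold av
    congr 1
    have e : ∀ k l : ℕ, (s ^ k * t ^ l) (s y) = (s ^ (k + 1) * t ^ l) y := by
      intro k l
      rw [← Equiv.Perm.mul_apply, mul_assoc, ((hc.pow_right l).eq).symm, ← mul_assoc, ← pow_succ]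
    simp only [e]
    refine cyc (fun k => ∑ l ∈ Finset.range (orderOf t), f ((s ^ k * t ^ l) y)) _ ?_
    simp only [pow_orderOf_eq_one, pow_zero]
  have ht : ∀ (f : Y → ℚ) y, av s t f (t y) = av s t f y := by
    intro f y
    unfold av
    congr 1
    refine Finset.sum_congr rfl fun k _ => ?_
    have e : ∀ l : ℕ, (s ^ k * t ^ l) (t y) = (s ^ k * t ^ (l + 1)) y := by
      intro l
      rw [← Equiv.Perm.mul_apply, mul_assoc, ← pow_succ]
    simp only [e]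
    refine cyc (fun l => f ((s ^ k * t ^ l) y)) _ ?_
    simp only [pow_orderOf_eq_one, pow_zero]
  have hfs : ∀ f : Y → ℚ, (∀ y, f (s y) = f y) → ∀ y,
      av s t f y = (∑ l ∈ Finset.range (orderOf t), f ((t ^ l) y)) / orderOf t := by
    intro f hf y
    unfold av
    have e : ∀ k l : ℕ, f ((s ^ k * t ^ l) y) = f ((t ^ l) y) := by
      intro k l
      rw [Equiv.Perm.mul_apply]
      exact inv_pow s f hf k _
    simp only [e, Finset.sum_const, Finset.card_range, nsmul_eq_mul]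
    field_simp
  have hgt : ∀ f : Y → ℚ, (∀ y, f (t y) = f y) → ∀ y,
      av s t f y = (∑ k ∈ Finset.range (orderOf s), f ((s ^ k) y)) / orderOf s := by
    intro f hf y
    unfold av
    have e : ∀ k l : ℕ, f ((s ^ k * t ^ l) y) = f ((s ^ k) y) := by
      intro k l
      rw [(hc.pow_pow k l).eq, Equiv.Perm.mul_apply]
      exact inv_pow t f hf l _
    simp only [e, Finset.sum_const, Finset.card_range, nsmul_eq_mul, ← Finset.mul_sum]
    field_simp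
  refine ⟨fun f y => ⟨hs f y, ht f y⟩, ?_, ?_, ?_, ?_, ?_, ?_⟩
  · intro f hf1 hf2 y
    rw [hfs f hf1 y]
    have e : ∀ l : ℕ, f ((t ^ l) y) = f y := fun l => inv_pow t f hf2 l y
    simp only [e, Finset.sum_const, Finset.card_range, nsmul_eq_mul]
    field_simp
  · intro f g hf hg
    have h1 : ∀ k l : ℕ, ∑ y, f ((t ^ l) y) * g ((s ^ k) y) = ∑ y, f y * g y := by
      intro k l
      rw [← Equiv.sum_comp (s ^ k * t ^ l) (fun y => f y * g y)]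
      refine Finset.sum_congr rfl fun y _ => ?_
      congr 1
      · rw [Equiv.Perm.mul_apply]
        exact (inv_pow s f hf k _).symm
      · rw [(hc.pow_pow k l).eq, Equiv.Perm.mul_apply]
        exact (inv_pow t g hg l _).symm
    have h2 : ∑ y, av s t f y * av s t g y =
        (∑ y, (∑ l ∈ Finset.range (orderOf t), f ((t ^ l) y)) *
          (∑ k ∈ Finset.range (orderOf s), g ((s ^ k) y))) / ((orderOf t : ℚ) * orderOf s) := by
      rw [Finset.sum_div]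
      refine Finset.sum_congr rfl fun y _ => ?_
      rw [hfs f hf y, hgt g hg y]
      field_simp
    have h3 : ∑ y, (∑ l ∈ Finset.range (orderOf t), f ((t ^ l) y)) *
          (∑ k ∈ Finset.range (orderOf s), g ((s ^ k) y)) =
        ((orderOf t : ℚ) * orderOf s) * ∑ y, f y * g y := by
      simp only [Finset.sum_mul_sum]
      rw [Finset.sum_comm]
      have : ∀ l ∈ Finset.range (orderOf t), ∑ y, ∑ k ∈ Finset.range (orderOf s),
          f ((t ^ l) y) * g ((s ^ k) y) = (orderOf s : ℚ) * ∑ y, f y * g y := by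
        intro l _
        rw [Finset.sum_comm]
        simp only [h1, Finset.sum_const, Finset.card_range, nsmul_eq_mul]
      rw [Finset.sum_congr rfl this]
      simp only [Finset.sum_const, Finset.card_range, nsmul_eq_mul]
      ring
    rw [h2, h3]
    field_simp
  · intro f hf y k l hkl
    rw [hfs f hf y]
    have e0 : (t ^ l) y = (s ^ (-k)) y := by
      have : (s ^ (-k)) ((s ^ k * t ^ l) y) = (s ^ (-k)) y := by rw [hkl]
      rw [← this, ← Equiv.Perm.mul_apply, ← mul_assoc, ← zpow_add]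
      simp
    have p1 : ∀ j, f ((t ^ (l + j)) y) = f ((t ^ j) y) := by
      intro j
      have hj : (t ^ j * s ^ (-k)) = s ^ (-k) * t ^ j :=
        ((hc.zpow_left (-k)).pow_right j).eq.symm
      rw [add_comm, pow_add, Equiv.Perm.mul_apply, e0, ← Equiv.Perm.mul_apply, hj,
        Equiv.Perm.mul_apply]
      exact inv_zpow s f hf (-k) _
    have p2 : ∀ j, f ((t ^ (orderOf t + j)) y) = f ((t ^ j) y) := by
      intro j
      rw [pow_add, pow_orderOf_eq_one, one_mul]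
    have q1 := per (fun j => f ((t ^ j) y)) l p1 (orderOf t)
    have q2 := per (fun j => f ((t ^ j) y)) (orderOf t) p2 l
    rw [mul_comm l] at q2
    have q3 : (orderOf t : ℚ) * ∑ j ∈ Finset.range l, f ((t ^ j) y) =
        l * ∑ j ∈ Finset.range (orderOf t), f ((t ^ j) y) := by
      rw [← q1, ← q2]
    field_simp
    linarith
  · intro f g y
    unfold av
    simp only [Finset.sum_add_distrib, add_div]
  · intro f y
    unfold av
    simp only [Finset.sum_neg_distrib, neg_div]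
  · intro f y
    constructor
    · rw [← hs f y]
      unfold av
      congr 1
      refine Finset.sum_congr rfl fun k _ => Finset.sum_congr rfl fun l _ => ?_
      have : s ((s ^ k * t ^ l) y) = (s ^ k * t ^ l) (s y) := by
        rw [← Equiv.Perm.mul_apply, ← Equiv.Perm.mul_apply]
        congr 1
        exact ((Commute.refl s).pow_right k |>.mul_right (hc.pow_right l)).eq
      show f (s ((s ^ k * t ^ l) y)) = _
      rw [this]
    · rw [← ht f y]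
      unfold av
      congr 1
      refine Finset.sum_congr rfl fun k _ => Finset.sum_congr rfl fun l _ => ?_
      have : t ((s ^ k * t ^ l) y) = (s ^ k * t ^ l) (t y) := by
        rw [← Equiv.Perm.mul_apply, ← Equiv.Perm.mul_apply]
        congr 1
        exact ((hc.symm.pow_right k).mul_right ((Commute.refl t).pow_right l)).eq
      show f (t ((s ^ k * t ^ l) y)) = _
      rw [this]

end Pool.Agent.SOR.H16
end
end -- Pool.Agent.Helper16_SOR.AVE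

section -- Pool.Agent.Helper17_SOR.IND

/-!
# Squad SOR, row IND: sums over the orbits of two commuting permutations (author helper17)
-/

open scoped BigOperators

noncomputable section

namespace Pool.Agent.SOR.H17

/-- the permutations under which a function is invariant -/
def invSub {Y : Type} (f : Y → ℚ) : Subgroup (Equiv.Perm Y) where
  carrier := {π | ∀ y, f (π y) = f y}
  one_mem' := fun _ => rfl
  mul_mem' := by
    intro a b ha hb y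
    change f (a (b y)) = f y
    rw [ha, hb]
  inv_mem' := by
    intro a ha y
    have h := ha (a⁻¹ y)
    have e : a (a⁻¹ y) = y := a.apply_symm_apply y
    rw [e] at h
    exact h.symm

theorem inv_zpow {Y : Type} {f : Y → ℚ} {s t : Equiv.Perm Y} (hs : ∀ y, f (s y) = f y)
    (ht : ∀ y, f (t y) = f y) (a b : ℤ) (y : Y) : f ((s ^ a * t ^ b) y) = f y := by
  have h1 : s ∈ invSub f := hs
  have h2 : t ∈ invSub f := ht
  have h3 : s ^ a * t ^ b ∈ invSub f := mul_mem (zpow_mem h1 a) (zpow_mem h2 b)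
  exact h3 y

theorem ea (j : ℤ) (n : ℕ) :
    Multiplicative.toAdd ((((1 : Multiplicative ℤ), Multiplicative.ofAdd (1 : ℤ)) ^ j)⁻¹ *
      (Multiplicative.ofAdd (1 : ℤ), (1 : Multiplicative ℤ)) ^ n).1 = (n : ℤ) := by
  simp

theorem eb (j : ℤ) (n : ℕ) :
    Multiplicative.toAdd ((((1 : Multiplicative ℤ), Multiplicative.ofAdd (1 : ℤ)) ^ j)⁻¹ *
      (Multiplicative.ofAdd (1 : ℤ), (1 : Multiplicative ℤ)) ^ n).2 = -j := by
  simp

theorem ec (n : ℕ) :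
    Multiplicative.toAdd (((1 : Multiplicative ℤ), Multiplicative.ofAdd (1 : ℤ)) ^ n).1 = 0 := by
  simp

theorem ed (n : ℕ) :
    Multiplicative.toAdd (((1 : Multiplicative ℤ), Multiplicative.ofAdd (1 : ℤ)) ^ n).2 =
      (n : ℤ) := by
  simp

/-- IND -/
theorem ind : IndStmt := by
  intro Y _ R s t hst ε ζ hεs hεt hζs hζt hk hl
  classical
  let A := Multiplicative ℤ × Multiplicative ℤ
  let φ : A →* Equiv.Perm Y := MonoidHom.noncommCoprod (zpowersHom _ s) (zpowersHom _ t) (by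
    intro a b
    rw [zpowersHom_apply, zpowersHom_apply]
    exact Commute.zpow_zpow hst _ _)
  have hφ : ∀ g : A, φ g = s ^ (Multiplicative.toAdd g.1) * t ^ (Multiplicative.toAdd g.2) := by
    intro g
    rfl
  letI : MulAction A Y := MulAction.compHom Y φ
  have hsm : ∀ (g : A) (y : Y),
      g • y = (s ^ (Multiplicative.toAdd g.1) * t ^ (Multiplicative.toAdd g.2)) y := by
    intro g y
    rfl
  have hε : ∀ (g : A) (y : Y), ε (g • y) = ε y := fun g y => by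
    rw [hsm]
    exact inv_zpow hεs hεt _ _ y
  have hζ : ∀ (g : A) (y : Y), ζ (g • y) = ζ y := fun g y => by
    rw [hsm]
    exact inv_zpow hζs hζt _ _ y
  -- the size of an orbit
  have key : ∀ z : Y, ((MulAction.orbit A z).ncard : ℚ) * (ε z * ζ z) ∈ R := by
    intro z
    let L : Subgroup A := MulAction.stabilizer A z
    let τ : A := (1, Multiplicative.ofAdd 1)
    let T : Subgroup A := Subgroup.zpowers τ
    have h1 : L.relIndex T * (T ⊔ L).index = (MulAction.orbit A z).ncard := by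
      rw [← MulAction.index_stabilizer]
      rw [← Subgroup.relIndex_sup_right T L]
      exact Subgroup.relIndex_mul_index le_sup_right
    -- the first factor
    have h2 : ((T ⊔ L).index : ℚ) * ε z ∈ R := by
      let σ : A := (Multiplicative.ofAdd 1, 1)
      have h3 : σ ^ (T ⊔ L).index ∈ T ⊔ L := Subgroup.pow_index_mem _ σ
      obtain ⟨u, hu, v, hv, huv⟩ := Subgroup.mem_sup.1 h3
      obtain ⟨j, hj⟩ := Subgroup.mem_zpowers_iff.1 hu
      have h4 : u⁻¹ * σ ^ (T ⊔ L).index = v := by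
        rw [← huv, inv_mul_cancel_left]
      have h5 : (u⁻¹ * σ ^ (T ⊔ L).index) • z = z := by
        rw [h4]
        exact hv
      rw [← hj, hsm] at h5
      have e1 : Multiplicative.toAdd ((τ ^ j)⁻¹ * σ ^ (T ⊔ L).index).1 =
          ((T ⊔ L).index : ℤ) := ea j _
      have e2 : Multiplicative.toAdd ((τ ^ j)⁻¹ * σ ^ (T ⊔ L).index).2 = -j := eb j _
      rw [e1, e2] at h5
      have h6 := hk z _ _ h5
      rw [Int.cast_natCast] at h6
      exact h6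
    have h3 : ((L.relIndex T : ℕ) : ℚ) * ζ z ∈ R := by
      have h4 : (⟨τ, Subgroup.mem_zpowers τ⟩ : T) ^ (L.subgroupOf T).index ∈ L.subgroupOf T :=
        Subgroup.pow_index_mem _ _
      rw [Subgroup.mem_subgroupOf] at h4
      have h5 : (τ ^ (L.relIndex T)) • z = z := h4
      rw [hsm] at h5
      have e1 : Multiplicative.toAdd (τ ^ (L.relIndex T)).1 = 0 := ec _
      have e2 : Multiplicative.toAdd (τ ^ (L.relIndex T)).2 = ((L.relIndex T : ℕ) : ℤ) := ed _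
      rw [e1, e2, zpow_zero, one_mul] at h5
      have h6 := hl z _ h5
      rw [Int.cast_natCast] at h6
      exact h6
    have h4 := R.mul_mem h2 h3
    rw [← h1]
    push_cast
    have e : ((L.relIndex T : ℕ) : ℚ) * ((T ⊔ L).index : ℚ) * (ε z * ζ z) =
        ((T ⊔ L).index : ℚ) * ε z * (((L.relIndex T : ℕ) : ℚ) * ζ z) := by ring
    rw [e]
    exact h4
  -- the sum over the orbits
  rw [← Finset.sum_fiberwise (s := Finset.univ) (g := fun y : Y =>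
    (Quotient.mk (MulAction.orbitRel A Y) y)) (f := fun y => ε y * ζ y)]
  apply Subring.sum_mem
  intro q _
  obtain ⟨z, rfl⟩ := Quotient.exists_rep q
  have h1 : ∀ y, (Quotient.mk (MulAction.orbitRel A Y) y) = Quotient.mk (MulAction.orbitRel A Y) z ↔
      y ∈ MulAction.orbit A z := by
    intro y
    rw [Quotient.eq]
    exact MulAction.orbitRel_apply
  have h2 : ∑ y ∈ Finset.univ.filter (fun y : Y => Quotient.mk (MulAction.orbitRel A Y) y =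
      Quotient.mk (MulAction.orbitRel A Y) z), ε y * ζ y =
      ∑ y ∈ Finset.univ.filter (fun y : Y => Quotient.mk (MulAction.orbitRel A Y) y =
      Quotient.mk (MulAction.orbitRel A Y) z), ε z * ζ z := by
    apply Finset.sum_congr rfl
    intro y hy
    obtain ⟨g, rfl⟩ := (h1 y).1 (Finset.mem_filter.1 hy).2
    change ε (g • z) * ζ (g • z) = _
    rw [hε, hζ]
  have h3 : (Finset.univ.filter (fun y : Y => Quotient.mk (MulAction.orbitRel A Y) y =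
      Quotient.mk (MulAction.orbitRel A Y) z)).card = (MulAction.orbit A z).ncard := by
    rw [← Set.ncard_coe_finset]
    congr 1
    ext y
    rw [Finset.mem_coe, Finset.mem_filter]
    rw [h1 y]
    simp
  have h4 := key z
  rw [← h3] at h4
  rw [h2, Finset.sum_const, nsmul_eq_mul]
  exact h4

end Pool.Agent.SOR.H17
end
end -- Pool.Agent.Helper17_SOR.IND

section -- Pool.Agent.Helper17_SOR.NDJ

/-!
# Squad SOR, row NDJ: the pairing in the new gauge (author helper17)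
-/

open scoped BigOperators

noncomputable section

namespace Pool.Agent.SOR.H17

theorem pa_inv_A : pa⁻¹ lA = lA := by
  change fai lA = lA
  exact fai_A

theorem pa_inv_B : pa⁻¹ lB = lA⁻¹ * lB := by
  change fai lB = lA⁻¹ * lB
  exact fai_B

theorem pa_inv_A' : pa⁻¹ lA'⁻¹ = lA'⁻¹ := by
  change fai lA'⁻¹ = lA'⁻¹
  simp only [lA', map_inv, map_mul, fai_A, fai_B]
  group

theorem pa_AB : pa (lA⁻¹ * lB) = lB := by
  change fa (lA⁻¹ * lB) = lB
  simp only [map_inv, map_mul, fa_A, fa_B]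
  group

section

variable {Y : Type} {i : Fr →* Equiv.Perm Y}

theorem cx_dl (f : Y → ℚ) : Cx i (dl i f) := by
  intro g h y
  unfold dl
  rw [map_mul, Equiv.Perm.mul_apply]
  ring

theorem cx_add {u v : Fr → Y → ℚ} (hu : Cx i u) (hv : Cx i v) :
    Cx i (fun w y => u w y + v w y) := by
  intro g h y
  change u (g * h) y + v (g * h) y = (u g (i h y) + v g (i h y)) + (u h y + v h y)
  rw [hu, hv]
  ring

theorem cx_sub {u v : Fr → Y → ℚ} (hu : Cx i u) (hv : Cx i v) :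
    Cx i (fun w y => u w y - v w y) := by
  intro g h y
  change u (g * h) y - v (g * h) y = (u g (i h y) - v g (i h y)) + (u h y - v h y)
  rw [hu, hv]
  ring

theorem act_inv {φ : MulAut Fr} {π : Equiv.Perm Y} (act : ∀ w y, π (i w y) = i (φ w) (π y))
    (w : Fr) (y : Y) : i (φ⁻¹ w) (π⁻¹ y) = π⁻¹ (i w y) := by
  have h := act (φ⁻¹ w) (π⁻¹ y)
  have e1 : φ (φ⁻¹ w) = w := φ.apply_symm_apply w
  have e2 : π (π⁻¹ y) = y := π.apply_symm_apply y
  rw [e1, e2] at h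
  have h2 := congrArg (fun z => π⁻¹ z) h
  change π⁻¹ (π (i (φ⁻¹ w) (π⁻¹ y))) = π⁻¹ (i w y) at h2
  have e3 : π⁻¹ (π (i (φ⁻¹ w) (π⁻¹ y))) = i (φ⁻¹ w) (π⁻¹ y) := π.symm_apply_apply _
  rw [e3] at h2
  exact h2

theorem cx_tw {φ : MulAut Fr} {π : Equiv.Perm Y} (act : ∀ w y, π (i w y) = i (φ w) (π y))
    {u : Fr → Y → ℚ} (hu : Cx i u) : Cx i (tw φ π u) := by
  intro g h y
  unfold tw
  rw [map_mul, hu, act_inv act]

theorem cx_inv {u : Fr → Y → ℚ} (hu : Cx i u) (g : Fr) (y : Y) :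
    u g⁻¹ y = - u g (i g⁻¹ y) := by
  have h1 : u 1 y = 0 := by
    have h := hu 1 1 y
    rw [mul_one, map_one, Equiv.Perm.one_apply] at h
    linarith
  have h2 := hu g g⁻¹ y
  rw [mul_inv_cancel, h1] at h2
  linarith

end

/-- NDJ -/
theorem ndj (prg : PrgStmt) (_ivf : IvfStmt) : NdjStmt := by
  intro Y _ R i x₁ x₂ h₁ h₂ hB π f₁ f₂ μ₁ μ₂ g₂ hN Ψ hΨ hΨx
  set x1 : Fr → Y → ℚ := fun w y => x₁ w y + dl i f₁ w y with hx1
  set x2 : Fr → Y → ℚ := fun w y => x₂ w y + dl i f₂ w y with hx2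
  have cx1 : Cx i x1 := cx_add hB.ex₁ (cx_dl f₁)
  have cx2 : Cx i x2 := cx_add hB.ex₂ (cx_dl f₂)
  set v : Fr → Y → ℚ := fun w y => (x₂ (pa⁻¹ w) (π⁻¹ y) + dl i f₂ (pa⁻¹ w) (π⁻¹ y)) -
    (x₂ w y + dl i f₂ w y) + dl i μ₂ w y with hv
  have hv' : ∀ w y, v w y = x2 (pa⁻¹ w) (π⁻¹ y) - x2 w y + dl i μ₂ w y := fun _ _ => rfl
  have cu : Cx i (tw pa π x1) := cx_tw hN.act cx1
  have cv : Cx i v := cx_add (cx_sub (cx_tw hN.act cx2) cx2) (cx_dl μ₂)
  have hπ : ∀ y, π (π⁻¹ y) = y := fun y => π.apply_symm_apply y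
  have hxi : ∀ y, x2 lA (π⁻¹ y) = x2 lA y := by
    intro y
    have h := hN.xi (π⁻¹ y)
    rw [hπ] at h
    exact h.symm
  have hvA : ∀ y, v lA y = 0 := by
    intro y
    rw [hv', pa_inv_A, hxi]
    unfold dl
    rw [hN.b₂]
    ring
  have hI := prg Y i (tw pa π x1) v cu cv hvA
  change Iv i (tw pa π x1) v - _ ∈ R
  rw [hI]
  -- the second factor
  have hu : ∀ y, tw pa π x1 lA'⁻¹ y - Ψ y ∈ R := by
    intro y
    have h1 := hN.m₁ lA'⁻¹ y
    have h2 : dl i μ₁ lA'⁻¹ y = 0 := by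
      unfold dl
      have h3 := hN.c₁ (i lA'⁻¹ y)
      have h4 : i lA' (i lA'⁻¹ y) = y := by
        rw [← Equiv.Perm.mul_apply, ← map_mul, mul_inv_cancel, map_one, Equiv.Perm.one_apply]
      rw [h4] at h3
      rw [h3]
      ring
    rw [h2] at h1
    have h5 := R.sub_mem h1 (hΨx y)
    have h6 : tw pa π x1 lA'⁻¹ y = x₁ (pa⁻¹ lA'⁻¹) (π⁻¹ y) + dl i f₁ (pa⁻¹ lA'⁻¹) (π⁻¹ y) := rfl
    rw [h6]
    have e : x₁ (pa⁻¹ lA'⁻¹) (π⁻¹ y) + dl i f₁ (pa⁻¹ lA'⁻¹) (π⁻¹ y) - Ψ y =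
        (x₁ (pa⁻¹ lA'⁻¹) (π⁻¹ y) + dl i f₁ (pa⁻¹ lA'⁻¹) (π⁻¹ y)) -
          (x₁ lA'⁻¹ y + dl i f₁ lA'⁻¹ y) + 0 - (Ψ y - (x₁ lA'⁻¹ y + dl i f₁ lA'⁻¹ y)) := by
      ring
    rw [e]
    exact h5
  have hvB : ∀ y, v lB y ∈ R := fun y => hN.m₂ lB y
  -- the value at `B`
  have hval : ∀ y, v lB y = (μ₂ (i lB y) - μ₂ y - x2 lA (i lB y)) +
      (x2 lB (π⁻¹ y) - x2 lB y) := by
    intro y
    rw [hv', pa_inv_B, cx2, cx_inv cx2]
    have h1 : i lA⁻¹ (i lB (π⁻¹ y)) = π⁻¹ (i lB y) := by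
      have h2 := act_inv hN.act lB y
      rw [pa_inv_B, map_mul, Equiv.Perm.mul_apply] at h2
      exact h2
    rw [h1, hxi]
    unfold dl
    ring
  have hsum : ∑ y, v lB y * Ψ y = ∑ y, (μ₂ (i lB y) - μ₂ y - x2 lA (i lB y)) * Ψ y := by
    have h1 : ∑ y, x2 lB (π⁻¹ y) * Ψ y = ∑ y, x2 lB y * Ψ y := by
      rw [← Equiv.sum_comp π (fun y => x2 lB (π⁻¹ y) * Ψ y)]
      apply Finset.sum_congr rfl
      intro y _
      have e : π⁻¹ (π y) = y := π.symm_apply_apply y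
      rw [e, hΨ]
    have h2 : ∑ y, v lB y * Ψ y = ∑ y, ((μ₂ (i lB y) - μ₂ y - x2 lA (i lB y)) * Ψ y +
        (x2 lB (π⁻¹ y) * Ψ y - x2 lB y * Ψ y)) := by
      apply Finset.sum_congr rfl
      intro y _
      rw [hval]
      ring
    rw [h2, Finset.sum_add_distrib, Finset.sum_sub_distrib, h1, sub_self, add_zero]
  have hfin : ∑ y, v lB y * tw pa π x1 lA'⁻¹ y - ∑ y, v lB y * Ψ y ∈ R := by
    rw [← Finset.sum_sub_distrib]
    apply Subring.sum_mem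
    intro y _
    rw [← mul_sub]
    exact R.mul_mem (hvB y) (hu y)
  rw [hsum] at hfin
  exact hfin

end Pool.Agent.SOR.H17
end
end -- Pool.Agent.Helper17_SOR.NDJ

section -- Pool.Agent.Helper27_SOR.TWE

/-!
# Squad SOR, row TWE: `12 τ(a)` for a set with an action of `B₄`
-/

open scoped BigOperators

noncomputable section

namespace Pool.Agent.SOR.H27

open Pool.Agent.SOR

section one

variable {Γ Y : Type} [Group Γ] {R : Subring ℚ} {i : Γ →* Equiv.Perm Y} {ρ : Γ → Y → ℚ}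

theorem cr_one (h : Cr R i ρ) (y : Y) : ρ 1 y ∈ R := by
  have h1 := h 1 1 y
  rw [one_mul, map_one, Equiv.Perm.coe_one, id, sub_self, zero_sub] at h1
  simpa using R.neg_mem h1

theorem cr_inv (h : Cr R i ρ) (g : Γ) (y : Y) : ρ g (i g⁻¹ y) + ρ g⁻¹ y ∈ R := by
  have h1 := h g g⁻¹ y
  rw [mul_inv_cancel] at h1
  have h2 := R.sub_mem (cr_one h y) h1
  have e : ρ 1 y - (ρ 1 y - ρ g (i g⁻¹ y) - ρ g⁻¹ y) = ρ g (i g⁻¹ y) + ρ g⁻¹ y := by ring
  rwa [e] at h2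

theorem cr_pow (h : Cr R i ρ) (c : Γ) (n : ℕ) (y : Y) :
    ρ (c ^ n) y - ∑ k ∈ Finset.range n, ρ c (((i c) ^ k) y) ∈ R := by
  induction n with
  | zero =>
    rw [pow_zero, Finset.sum_range_zero, sub_zero]
    exact cr_one h y
  | succ n ih =>
    rw [Finset.sum_range_succ, pow_succ']
    have h1 := h c (c ^ n) y
    rw [map_pow] at h1
    have e : ρ (c * c ^ n) y - (∑ k ∈ Finset.range n, ρ c (((i c) ^ k) y) +
        ρ c (((i c) ^ n) y)) = (ρ (c * c ^ n) y - ρ c (((i c) ^ n) y) - ρ (c ^ n) y) +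
        (ρ (c ^ n) y - ∑ k ∈ Finset.range n, ρ c (((i c) ^ k) y)) := by ring
    rw [e]
    exact R.add_mem h1 ih

theorem cr3 (h : Cr R i ρ) (u v w : Γ) (y : Y) :
    ρ (u * v * w) y - ρ u (i v (i w y)) - ρ v (i w y) - ρ w y ∈ R := by
  have h1 := h (u * v) w y
  have h2 := h u v (i w y)
  have e : ρ (u * v * w) y - ρ u (i v (i w y)) - ρ v (i w y) - ρ w y =
    (ρ (u * v * w) y - ρ (u * v) (i w y) - ρ w y) +
      (ρ (u * v) (i w y) - ρ u (i v (i w y)) - ρ v (i w y)) := by ring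
  rw [e]
  exact R.add_mem h1 h2

/-- the functions invariant under `g` -/
def stb (i : Γ →* Equiv.Perm Y) (κ : Y → ℚ) : Subgroup Γ where
  carrier := {g | ∀ y, κ (i g y) = κ y}
  mul_mem' := by
    intro x z hx hz y
    rw [map_mul, Equiv.Perm.mul_apply, hx, hz]
  one_mem' := by
    intro y
    rw [map_one, Equiv.Perm.coe_one, id]
  inv_mem' := by
    intro x hx y
    have h1 := hx (i x⁻¹ y)
    rw [← Equiv.Perm.mul_apply, ← map_mul, mul_inv_cancel, map_one, Equiv.Perm.coe_one, id] at h1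
    exact h1.symm

end one

section bd

variable {Γ Y : Type} [Group Γ] (D : Bd Γ)

theorem j_A : D.j lA = D.A := by simp [Bd.j, lA]

theorem j_B : D.j lB = D.B := by simp [Bd.j, lB]

theorem j_C : D.j lC = D.C := by
  unfold lC Bd.C
  simp only [map_mul, map_inv, j_A, j_B]

theorem T_eq : D.T = D.C * D.Ts := D.r6

/-- the square of the half twist -/
theorem cube_eq : (D.a * D.b) ^ 3 = (D.a * D.b * D.a) * (D.a * D.b * D.a) := by
  calc (D.a * D.b) ^ 3 = (D.a * D.b * D.a) * (D.b * D.a * D.b) := by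
        simp only [pow_succ, pow_zero, one_mul, mul_assoc]
    _ = _ := by rw [D.r1]

theorem comm_a : D.a * D.T = D.T * D.a := by
  obtain ⟨x, hx⟩ : ∃ x, x = D.a * D.b * D.a := ⟨_, rfl⟩
  have h1 : D.a * x = x * D.b := by
    calc D.a * x = D.a * (D.b * D.a * D.b) := by rw [hx, D.r1]
      _ = D.a * D.b * D.a * D.b := by simp only [mul_assoc]
      _ = x * D.b := by rw [hx]
  have h2 : D.b * x = x * D.a := by
    calc D.b * x = D.b * (D.a * D.b * D.a) := by rw [hx]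
      _ = D.b * D.a * D.b * D.a := by simp only [mul_assoc]
      _ = x * D.a := by rw [hx, D.r1]
  have h3 : D.T = x * x * (x * x) := by
    unfold Bd.T
    have e : (D.a * D.b) ^ 6 = (D.a * D.b) ^ 3 * (D.a * D.b) ^ 3 := by
      rw [← pow_add]
    rw [e, cube_eq, hx]
  have h4 : D.a * (x * x) = x * x * D.a := by
    rw [← mul_assoc, h1, mul_assoc, h2, ← mul_assoc]
  rw [h3, ← mul_assoc, h4, mul_assoc, h4, ← mul_assoc]

theorem comm_b : D.b * D.T = D.T * D.b := by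
  obtain ⟨x, hx⟩ : ∃ x, x = D.a * D.b * D.a := ⟨_, rfl⟩
  have h1 : D.a * x = x * D.b := by
    calc D.a * x = D.a * (D.b * D.a * D.b) := by rw [hx, D.r1]
      _ = D.a * D.b * D.a * D.b := by simp only [mul_assoc]
      _ = x * D.b := by rw [hx]
  have h2 : D.b * x = x * D.a := by
    calc D.b * x = D.b * (D.a * D.b * D.a) := by rw [hx]
      _ = D.b * D.a * D.b * D.a := by simp only [mul_assoc]
      _ = x * D.a := by rw [hx, D.r1]
  have h3 : D.T = x * x * (x * x) := by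
    unfold Bd.T
    have e : (D.a * D.b) ^ 6 = (D.a * D.b) ^ 3 * (D.a * D.b) ^ 3 := by
      rw [← pow_add]
    rw [e, cube_eq, hx]
  have h4 : D.b * (x * x) = x * x * D.b := by
    rw [← mul_assoc, h2, mul_assoc, h1, ← mul_assoc]
  rw [h3, ← mul_assoc, h4, mul_assoc, h4, ← mul_assoc]

theorem act_a (w : Fr) : D.a * D.j w = D.j (pa w) * D.a := by
  have h : (MulAut.conj D.a).toMonoidHom.comp D.j = D.j.comp pa.toMonoidHom := by
    refine hom_ext ?_ ?_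
    · change D.a * D.j lA * D.a⁻¹ = D.j (fa lA)
      rw [fa_A, j_A, D.r2, mul_inv_cancel_right]
    · change D.a * D.j lB * D.a⁻¹ = D.j (fa lB)
      rw [fa_B, map_mul, j_A, j_B, D.r3, mul_inv_cancel_right]
  have h1 := DFunLike.congr_fun h w
  change D.a * D.j w * D.a⁻¹ = D.j (pa w) at h1
  rw [← h1, inv_mul_cancel_right]

theorem act_b (w : Fr) : D.b * D.j w = D.j (pb w) * D.b := by
  have h : (MulAut.conj D.b).toMonoidHom.comp D.j = D.j.comp pb.toMonoidHom := by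
    refine hom_ext ?_ ?_
    · change D.b * D.j lA * D.b⁻¹ = D.j (fb lA)
      rw [fb_A, map_inv, j_A, j_B, D.r4, mul_inv_cancel_right]
    · change D.b * D.j lB * D.b⁻¹ = D.j (fb lB)
      rw [fb_B, map_mul, map_mul, j_A, j_B, D.r5, mul_inv_cancel_right]
  have h1 := DFunLike.congr_fun h w
  change D.b * D.j w * D.b⁻¹ = D.j (pb w) at h1
  rw [← h1, inv_mul_cancel_right]

end bd

section side

variable {Γ Y : Type} [Group Γ] {R : Subring ℚ} (D : Bd Γ) {i : Γ →* Equiv.Perm Y}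
  {ρ : Γ → Y → ℚ} {r : ℚ} {κ : Y → ℚ} {x : Fr → Y → ℚ}

theorem iT (hTs : i D.Ts = 1) : i D.T = i D.C := by
  rw [T_eq, map_mul, hTs, mul_one]

theorem kT (ka : ∀ y, κ (i D.a y) = κ y) (kb : ∀ y, κ (i D.b y) = κ y) : D.T ∈ stb i κ :=
  Subgroup.pow_mem _ (Subgroup.mul_mem _ (show D.a ∈ stb i κ from ka)
    (show D.b ∈ stb i κ from kb)) 6

theorem x_eq (lft : LftStmt) (hρ : Cr R i ρ) (hx : Cx (i.comp D.j) x)
    (xA : ∀ y, x lA y - ρ D.A y ∈ R) (xB : ∀ y, x lB y - ρ D.B y ∈ R) (w : Fr) (y : Y) :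
    x w y - ρ (D.j w) y ∈ R := by
  refine (lft Y (i.comp D.j)).2.2 R x (fun w y => ρ (D.j w) y) ?_ ?_ ?_ ?_ w y
  · intro g h z
    rw [hx g h z]
    have e : x g ((i.comp D.j) h z) + x h z - x g ((i.comp D.j) h z) - x h z = 0 := by ring
    rw [e]
    exact R.zero_mem
  · intro g h z
    have h1 := hρ (D.j g) (D.j h) z
    rw [← map_mul] at h1
    exact h1
  · intro z
    rw [j_A]
    exact xA z
  · intro z
    rw [j_B]
    exact xB z

theorem tr_gen (hρ : Cr R i ρ) (hxe : ∀ w y, x w y - ρ (D.j w) y ∈ R) (s : Γ) (φ : MulAut Fr)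
    (act : ∀ w, s * D.j w = D.j (φ w) * s) (g : Y → ℚ) (hg : ∀ y, g y - ρ s⁻¹ y ∈ R)
    (w : Fr) (y : Y) : tw φ (i s) x w y - x w y - dl (i.comp D.j) g w y ∈ R := by
  obtain ⟨z, hz⟩ : ∃ z, z = i s⁻¹ y := ⟨_, rfl⟩
  have hsz : i s z = y := by
    rw [hz, ← Equiv.Perm.mul_apply, ← map_mul, mul_inv_cancel, map_one, Equiv.Perm.coe_one, id]
  have hj : D.j (φ⁻¹ w) = s⁻¹ * D.j w * s := by
    have h1 := act (φ⁻¹ w)
    have h2 : φ (φ⁻¹ w) = w := by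
      rw [← MulAut.mul_apply, mul_inv_cancel, MulAut.one_apply]
    rw [h2] at h1
    rw [mul_assoc, ← h1, inv_mul_cancel_left]
  have h1 := hxe (φ⁻¹ w) z
  have h2 := cr3 hρ s⁻¹ (D.j w) s z
  rw [← hj, hsz] at h2
  have h3 := hxe w y
  have h4 := hg (i (D.j w) y)
  have h5 := hg y
  have h6 := cr_inv hρ s y
  rw [← hz] at h6
  have e : tw φ (i s) x w y - x w y - dl (i.comp D.j) g w y =
      (x (φ⁻¹ w) z - ρ (D.j (φ⁻¹ w)) z) +
      (ρ (D.j (φ⁻¹ w)) z - ρ s⁻¹ (i (D.j w) y) - ρ (D.j w) y - ρ s z) -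
      (x w y - ρ (D.j w) y) - (g (i (D.j w) y) - ρ s⁻¹ (i (D.j w) y)) + (g y - ρ s⁻¹ y) +
      (ρ s z + ρ s⁻¹ y) := by
    have e1 : tw φ (i s) x w y = x (φ⁻¹ w) z := by
      unfold tw
      rw [hz, map_inv]
    have e2 : dl (i.comp D.j) g w y = g (i (D.j w) y) - g y := rfl
    rw [e1, e2]
    ring
  rw [e]
  exact R.add_mem (R.add_mem (R.sub_mem (R.sub_mem (R.add_mem h1 h2) h3) h4) h5) h6

theorem c_gen (hTs : i D.Ts = 1) (hρ : Cr R i ρ) (hκ : ∀ y, ρ D.T y - κ y ∈ R) (s : Γ)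
    (hs : s ∈ stb i κ) (hc : s * D.T = D.T * s) (y : Y) :
    ρ s⁻¹ (i D.C y) - ρ s⁻¹ y ∈ R := by
  rw [← iT D hTs]
  have h1 := hρ s⁻¹ D.T y
  have h2 := hρ D.T s⁻¹ y
  have hc' : s⁻¹ * D.T = D.T * s⁻¹ := by
    rw [inv_mul_eq_iff_eq_mul, ← mul_assoc, hc, mul_inv_cancel_right]
  rw [hc'] at h1
  have h3 := hκ y
  have h4 := hκ (i s⁻¹ y)
  have h5 : κ (i s⁻¹ y) = κ y := (Subgroup.inv_mem _ hs) y
  rw [h5] at h4
  have e : ρ s⁻¹ (i D.T y) - ρ s⁻¹ y = (ρ (D.T * s⁻¹) y - ρ D.T (i s⁻¹ y) - ρ s⁻¹ y) -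
      (ρ (D.T * s⁻¹) y - ρ s⁻¹ (i D.T y) - ρ D.T y) - (ρ D.T y - κ y) +
      (ρ D.T (i s⁻¹ y) - κ y) := by ring
  rw [e]
  exact R.add_mem (R.sub_mem (R.sub_mem h2 h1) h3) h4

theorem c_gen' (hTs : i D.Ts = 1) (hρ : Cr R i ρ) (hκ : ∀ y, ρ D.T y - κ y ∈ R) (s : Γ)
    (hs : s ∈ stb i κ) (hc : s * D.T = D.T * s) (g : Y → ℚ) (hg : ∀ y, g y - ρ s⁻¹ y ∈ R)
    (y : Y) : g (i D.C y) - g y ∈ R := by
  have h1 := c_gen D hTs hρ hκ s hs hc y
  have h2 := hg (i D.C y)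
  have h3 := hg y
  have e : g (i D.C y) - g y = (g (i D.C y) - ρ s⁻¹ (i D.C y)) +
      (ρ s⁻¹ (i D.C y) - ρ s⁻¹ y) - (g y - ρ s⁻¹ y) := by ring
  rw [e]
  exact R.sub_mem (R.add_mem h2 h1) h3

theorem x_C (hTs : i D.Ts = 1) (hρ : Cr R i ρ) (hr : ∀ y, ρ D.Ts y - r ∈ R)
    (hκ : ∀ y, ρ D.T y - κ y ∈ R) (hxe : ∀ w y, x w y - ρ (D.j w) y ∈ R) (y : Y) :
    x lC y - (κ y - r) ∈ R := by
  have h1 := hxe lC y
  rw [j_C] at h1
  have h2 := hρ D.C D.Ts y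
  rw [hTs, Equiv.Perm.coe_one, id, ← T_eq] at h2
  have h3 := hκ y
  have h4 := hr y
  have e : x lC y - (κ y - r) = (x lC y - ρ D.C y) - (ρ D.T y - ρ D.C y - ρ D.Ts y) +
      (ρ D.T y - κ y) - (ρ D.Ts y - r) := by ring
  rw [e]
  exact R.sub_mem (R.add_mem (R.sub_mem h1 h2) h3) h4

theorem braid (hρ : Cr R i ρ) (ga gb : Y → ℚ) (hga : ∀ y, ga y - ρ D.a⁻¹ y ∈ R)
    (hgb : ∀ y, gb y - ρ D.b⁻¹ y ∈ R) (y : Y) :
    (ga y + gb ((i D.a)⁻¹ y) + ga ((i D.a * i D.b)⁻¹ y)) -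
      (gb y + ga ((i D.b)⁻¹ y) + gb ((i D.b * i D.a)⁻¹ y)) ∈ R := by
  rw [mul_inv_rev, mul_inv_rev, Equiv.Perm.mul_apply, Equiv.Perm.mul_apply]
  simp only [← map_inv]
  have h1 := cr3 hρ D.a⁻¹ D.b⁻¹ D.a⁻¹ y
  have h2 := cr3 hρ D.b⁻¹ D.a⁻¹ D.b⁻¹ y
  have e0 : D.b⁻¹ * D.a⁻¹ * D.b⁻¹ = D.a⁻¹ * D.b⁻¹ * D.a⁻¹ := by
    have h3 : (D.b * D.a * D.b)⁻¹ = (D.a * D.b * D.a)⁻¹ := by rw [D.r1]
    simp only [mul_inv_rev] at h3
    rw [mul_assoc, mul_assoc]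
    exact h3
  rw [e0] at h2
  have a1 := hga y
  have a2 := hgb (i D.a⁻¹ y)
  have a3 := hga (i D.b⁻¹ (i D.a⁻¹ y))
  have b1 := hgb y
  have b2 := hga (i D.b⁻¹ y)
  have b3 := hgb (i D.a⁻¹ (i D.b⁻¹ y))
  have e : (ga y + gb (i D.a⁻¹ y) + ga (i D.b⁻¹ (i D.a⁻¹ y))) -
      (gb y + ga (i D.b⁻¹ y) + gb (i D.a⁻¹ (i D.b⁻¹ y))) =
      (ga y - ρ D.a⁻¹ y) + (gb (i D.a⁻¹ y) - ρ D.b⁻¹ (i D.a⁻¹ y)) +
      (ga (i D.b⁻¹ (i D.a⁻¹ y)) - ρ D.a⁻¹ (i D.b⁻¹ (i D.a⁻¹ y))) -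
      (gb y - ρ D.b⁻¹ y) - (ga (i D.b⁻¹ y) - ρ D.a⁻¹ (i D.b⁻¹ y)) -
      (gb (i D.a⁻¹ (i D.b⁻¹ y)) - ρ D.b⁻¹ (i D.a⁻¹ (i D.b⁻¹ y))) -
      (ρ (D.a⁻¹ * D.b⁻¹ * D.a⁻¹) y - ρ D.a⁻¹ (i D.b⁻¹ (i D.a⁻¹ y)) - ρ D.b⁻¹ (i D.a⁻¹ y) -
        ρ D.a⁻¹ y) +
      (ρ (D.a⁻¹ * D.b⁻¹ * D.a⁻¹) y - ρ D.b⁻¹ (i D.a⁻¹ (i D.b⁻¹ y)) - ρ D.a⁻¹ (i D.b⁻¹ y) -
        ρ D.b⁻¹ y) := by ring
  rw [e]
  exact R.add_mem (R.sub_mem (R.sub_mem (R.sub_mem (R.sub_mem (R.add_mem (R.add_mem a1 a2) a3)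
    b1) b2) b3) h1) h2

theorem power (hρ : Cr R i ρ) (hκ : ∀ y, ρ D.T y - κ y ∈ R) (hT : D.T ∈ stb i κ)
    (ga gb : Y → ℚ) (hga : ∀ y, ga y - ρ D.a⁻¹ y ∈ R) (hgb : ∀ y, gb y - ρ D.b⁻¹ y ∈ R)
    (y : Y) :
    (∑ k ∈ Finset.range 6, (ga (((i D.a * i D.b)⁻¹ ^ k) y) +
      gb ((i D.a)⁻¹ (((i D.a * i D.b)⁻¹ ^ k) y)))) + (κ y - r + r) ∈ R := by
  obtain ⟨c, hc⟩ : ∃ c, c = (D.a * D.b)⁻¹ := ⟨_, rfl⟩
  have hic : (i D.a * i D.b)⁻¹ = i c := by rw [hc, map_inv, map_mul]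
  have hcT : c ^ 6 = D.T⁻¹ := by
    rw [hc, inv_pow]
    rfl
  rw [hic]
  have h1 : ∀ z, ga z + gb ((i D.a)⁻¹ z) - ρ c z ∈ R := by
    intro z
    have h2 := hρ D.b⁻¹ D.a⁻¹ z
    have e0 : D.b⁻¹ * D.a⁻¹ = c := by rw [hc, mul_inv_rev]
    rw [e0] at h2
    have h3 := hga z
    have h4 := hgb (i D.a⁻¹ z)
    rw [← map_inv]
    have e : ga z + gb (i D.a⁻¹ z) - ρ c z = (ga z - ρ D.a⁻¹ z) +
        (gb (i D.a⁻¹ z) - ρ D.b⁻¹ (i D.a⁻¹ z)) -
        (ρ c z - ρ D.b⁻¹ (i D.a⁻¹ z) - ρ D.a⁻¹ z) := by ring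
    rw [e]
    exact R.sub_mem (R.add_mem h3 h4) h2
  have h5 : ∑ k ∈ Finset.range 6, (ga ((i c ^ k) y) + gb ((i D.a)⁻¹ ((i c ^ k) y)) -
      ρ c ((i c ^ k) y)) ∈ R := R.sum_mem fun k _ => h1 _
  rw [Finset.sum_sub_distrib] at h5
  have h6 := cr_pow hρ c 6 y
  rw [hcT] at h6
  have h7 := cr_inv hρ D.T y
  have h8 := hκ (i D.T⁻¹ y)
  have h9 : κ (i D.T⁻¹ y) = κ y := (Subgroup.inv_mem _ hT) y
  rw [h9] at h8
  have e : (∑ k ∈ Finset.range 6, (ga ((i c ^ k) y) + gb ((i D.a)⁻¹ ((i c ^ k) y)))) +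
      (κ y - r + r) =
      (∑ k ∈ Finset.range 6, (ga ((i c ^ k) y) + gb ((i D.a)⁻¹ ((i c ^ k) y))) -
        ∑ k ∈ Finset.range 6, ρ c ((i c ^ k) y)) -
      (ρ D.T⁻¹ y - ∑ k ∈ Finset.range 6, ρ c ((i c ^ k) y)) +
      (ρ D.T (i D.T⁻¹ y) + ρ D.T⁻¹ y) - (ρ D.T (i D.T⁻¹ y) - κ y) := by ring
  rw [e]
  exact R.sub_mem (R.add_mem (R.sub_mem h5 h6) h7) h8

end side

/-- TWE -/
theorem twe (tab : TabStmt) (aut : AutStmt) (inv : InvStmt) (lft : LftStmt) : TweStmt := by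
  intro Γ Y _ _ R D i hTs ρ₁ ρ₂ hρ₁ hρ₂ r₁ r₂ κ₁ κ₂ hr₁ hr₂ hκ₁ hκ₂ ka₁ kb₁ ka₂ kb₂ x₁ x₂ hx₁ hx₂
    xA₁ xB₁ xA₂ xB₂
  have hxe₁ := x_eq D lft hρ₁ hx₁ xA₁ xB₁
  have hxe₂ := x_eq D lft hρ₂ hx₂ xA₂ xB₂
  have hT₁ := kT D ka₁ kb₁
  have hT₂ := kT D ka₂ kb₂
  have hC : i D.T = i D.C := iT D hTs
  have hiC : ∀ y, (i.comp D.j) lC y = i D.C y := by
    intro y
    rw [MonoidHom.comp_apply, j_C]
  have kC₁ : ∀ y, κ₁ (i D.C y) = κ₁ y := by
    intro y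
    rw [← hC]
    exact hT₁ y
  have kC₂ : ∀ y, κ₂ (i D.C y) = κ₂ y := by
    intro y
    rw [← hC]
    exact hT₂ y
  have hbs : Bs R (i.comp D.j) x₁ x₂ (fun y => κ₁ y - r₁) (fun y => κ₂ y - r₂) := by
    refine ⟨hx₁, hx₂, ?_, ?_, ?_, ?_⟩
    · intro y
      simp only [hiC, kC₁]
    · intro y
      simp only [hiC, kC₂]
    · exact x_C D hTs hρ₁ hr₁ hκ₁ hxe₁
    · exact x_C D hTs hρ₂ hr₂ hκ₂ hxe₂
  refine ⟨hbs, ?_⟩
  intro g₁ g₂ hg₁ hg₂ hg₂C
  have hsa₁ : D.a ∈ stb i κ₁ := ka₁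
  have hsb₁ : D.b ∈ stb i κ₁ := kb₁
  have hsa₂ : D.a ∈ stb i κ₂ := ka₂
  have hsb₂ : D.b ∈ stb i κ₂ := kb₂
  obtain ⟨gb₂, hgb₂C, hgb₂'⟩ := inv Y R (i D.C) (fun y => ρ₂ D.b⁻¹ y)
    (c_gen D hTs hρ₂ hκ₂ D.b hsb₂ (comm_b D))
  have hgb₁' : ∀ y, (fun y => ρ₁ D.b⁻¹ y) y - ρ₁ D.b⁻¹ y ∈ R := by
    intro y
    simp only [sub_self]
    exact R.zero_mem
  have hada : Ad R (i.comp D.j) x₁ x₂ (fun y => κ₁ y - r₁) (fun y => κ₂ y - r₂) pa (i D.a)
      g₁ g₂ := by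
    refine ⟨?_, aut.1, ?_, ?_, ?_, ?_, ?_, ?_⟩
    · intro w y
      rw [MonoidHom.comp_apply, MonoidHom.comp_apply, ← Equiv.Perm.mul_apply, ← map_mul, act_a,
        map_mul, Equiv.Perm.mul_apply]
    · intro y
      simp only [ka₁]
    · intro y
      simp only [ka₂]
    · exact tr_gen D hρ₁ hxe₁ D.a pa (act_a D) g₁ hg₁
    · exact tr_gen D hρ₂ hxe₂ D.a pa (act_a D) g₂ hg₂
    · intro y
      rw [hiC]
      exact c_gen' D hTs hρ₁ hκ₁ D.a hsa₁ (comm_a D) g₁ hg₁ y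
    · intro y
      rw [hiC]
      exact hg₂C y
  have hadb : Ad R (i.comp D.j) x₁ x₂ (fun y => κ₁ y - r₁) (fun y => κ₂ y - r₂) pb (i D.b)
      (fun y => ρ₁ D.b⁻¹ y) gb₂ := by
    refine ⟨?_, aut.2.1, ?_, ?_, ?_, ?_, ?_, ?_⟩
    · intro w y
      rw [MonoidHom.comp_apply, MonoidHom.comp_apply, ← Equiv.Perm.mul_apply, ← map_mul, act_b,
        map_mul, Equiv.Perm.mul_apply]
    · intro y
      simp only [kb₁]
    · intro y
      simp only [kb₂]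
    · exact tr_gen D hρ₁ hxe₁ D.b pb (act_b D) _ hgb₁'
    · exact tr_gen D hρ₂ hxe₂ D.b pb (act_b D) gb₂ hgb₂'
    · intro y
      rw [hiC]
      exact c_gen' D hTs hρ₁ hκ₁ D.b hsb₁ (comm_b D) _ hgb₁' y
    · intro y
      rw [hiC]
      exact hgb₂C y
  have h := tab Y R (i.comp D.j) x₁ x₂ _ _ hbs r₁ r₂ (i D.a) (i D.b) g₁ g₂ _ gb₂ hada hadb
    (by rw [← map_mul, ← map_mul, D.r1, map_mul, map_mul])
    (by
      rw [← map_mul, ← map_pow]
      change i D.T = (i.comp D.j) lC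
      rw [hC, MonoidHom.comp_apply, j_C])
    (braid D hρ₁ g₁ _ hg₁ hgb₁') (braid D hρ₂ g₂ gb₂ hg₂ hgb₂')
    (power D hρ₁ hκ₁ hT₁ g₁ _ hg₁ hgb₁') (power D hρ₂ hκ₂ hT₂ g₂ gb₂ hg₂ hgb₂')
  simp only [sub_add_cancel] at h
  exact h

end Pool.Agent.SOR.H27
end
end -- Pool.Agent.Helper27_SOR.TWE

section -- Pool.Agent.Helper45_SOR.NDK

/-!
# Squad SOR, row NDK: the last terms of the node formula
-/

set_option autoImplicit false

open scoped BigOperators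

noncomputable section

namespace Pool.Agent.SOR.H45

open Pool.Agent.SOR

section coc

variable {H Y : Type} [Group H] {i : H →* Equiv.Perm Y} {u : H → Y → ℚ}

theorem cx_one (hu : Cx i u) (y : Y) : u 1 y = 0 := by
  have h := hu 1 1 y
  rw [mul_one, map_one, Equiv.Perm.one_apply] at h
  linarith

theorem cx_inv (hu : Cx i u) (g : H) (y : Y) : u g⁻¹ y = - u g (i g⁻¹ y) := by
  have h := hu g g⁻¹ y
  rw [mul_inv_cancel, cx_one hu] at h
  linarith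

theorem cx_dl (f : Y → ℚ) : Cx i (dl i f) := by
  intro g h y
  unfold dl
  rw [map_mul, Equiv.Perm.mul_apply]
  ring

end coc

theorem mul_app {Y : Type} (i : Fr →* Equiv.Perm Y) (g h : Fr) (y : Y) :
    i (g * h) y = i g (i h y) := by
  rw [map_mul, Equiv.Perm.mul_apply]

theorem ndk : NdkStmt := by
  intro Y _ R i x₁ x₂ h₁ h₂ hB π f₁ f₂ μ₁ μ₂ g₂ hN
  have hμC : ∀ y, μ₁ (i lC y) = μ₁ y := by
    intro y
    have h1 := hN.c₁ (i lC y)
    have h2 : i lA' (i lC y) = i lA y := by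
      rw [← mul_app]
      congr 2
      unfold lA' lC
      group
    rw [h2, hN.b₁] at h1
    exact h1.symm
  constructor
  · obtain ⟨X, hX⟩ : ∃ X : Fr → Y → ℚ, X = fun w y => x₂ w y + dl i f₂ w y := ⟨_, rfl⟩
    have hXc : Cx i X := by
      intro g h y
      rw [hX]
      show x₂ (g * h) y + dl i f₂ (g * h) y = _
      rw [hB.ex₂ g h y, cx_dl f₂ g h y]
      ring
    have e1 : ∑ y, μ₁ y * x₂ lC y = ∑ y, μ₁ y * X lC y := by
      have h1 : ∑ y, μ₁ y * dl i f₂ lC y = 0 := by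
        have h2 : ∑ y, μ₁ (i lC y) * f₂ (i lC y) = ∑ y, μ₁ y * f₂ y :=
          Equiv.sum_comp (i lC) fun y => μ₁ y * f₂ y
        have h3 : ∑ y, μ₁ y * dl i f₂ lC y =
            ∑ y, μ₁ (i lC y) * f₂ (i lC y) - ∑ y, μ₁ y * f₂ y := by
          rw [← Finset.sum_sub_distrib]
          refine Finset.sum_congr rfl fun y _ => ?_
          rw [hμC]
          unfold dl
          ring
        rw [h3, h2, sub_self]
      have h4 : ∑ y, μ₁ y * X lC y = ∑ y, μ₁ y * x₂ lC y + ∑ y, μ₁ y * dl i f₂ lC y := by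
        rw [← Finset.sum_add_distrib]
        refine Finset.sum_congr rfl fun y _ => ?_
        rw [hX]
        ring
      rw [h4, h1, add_zero]
    have e2 : ∀ y, X lC y = - X lB (i lC y) - X lA (i (lA⁻¹ * lB * lA) y) + X lB (i lA y) +
        X lA y := by
      intro y
      have h1 : lC = lB⁻¹ * (lA⁻¹ * (lB * lA)) := by
        unfold lC
        group
      have h2 : X lC y = X lB⁻¹ (i (lA⁻¹ * (lB * lA)) y) + X (lA⁻¹ * (lB * lA)) y := by
        rw [← hXc, ← h1]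
      have h3 : X lB⁻¹ (i (lA⁻¹ * (lB * lA)) y) = - X lB (i lC y) := by
        rw [cx_inv hXc, ← mul_app, ← h1]
      have h4 : X lA⁻¹ (i (lB * lA) y) = - X lA (i (lA⁻¹ * lB * lA) y) := by
        rw [cx_inv hXc, ← mul_app, ← mul_assoc]
      rw [h2, h3, hXc lA⁻¹ (lB * lA) y, hXc lB lA y, h4]
      ring
    have s1 : ∑ y, μ₁ y * X lB (i lC y) = ∑ y, μ₁ y * X lB y := by
      rw [← Equiv.sum_comp (i lC) fun y => μ₁ y * X lB y]
      refine Finset.sum_congr rfl fun y _ => ?_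
      rw [hμC]
    have s2 : ∑ y, μ₁ y * X lB (i lA y) = ∑ y, μ₁ y * X lB y := by
      rw [← Equiv.sum_comp (i lA) fun y => μ₁ y * X lB y]
      refine Finset.sum_congr rfl fun y _ => ?_
      rw [hN.b₁]
    have s3 : ∑ y, μ₁ y * X lA (i (lA⁻¹ * lB * lA) y) = ∑ y, μ₁ ((i lB)⁻¹ y) * X lA y := by
      rw [← Equiv.sum_comp (i (lA⁻¹ * lB * lA)) fun y => μ₁ ((i lB)⁻¹ y) * X lA y]
      refine Finset.sum_congr rfl fun y _ => ?_
      congr 1
      rw [← map_inv, ← mul_app, show lB⁻¹ * (lA⁻¹ * lB * lA) = lC from by unfold lC; group, hμC]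
    have e3 : ∑ y, μ₁ y * X lC y = ∑ y, (μ₁ y - μ₁ ((i lB)⁻¹ y)) * X lA y := by
      have h1 : ∑ y, μ₁ y * X lC y = - (∑ y, μ₁ y * X lB (i lC y)) -
          ∑ y, μ₁ y * X lA (i (lA⁻¹ * lB * lA) y) + ∑ y, μ₁ y * X lB (i lA y) +
          ∑ y, μ₁ y * X lA y := by
        rw [← Finset.sum_neg_distrib, ← Finset.sum_sub_distrib, ← Finset.sum_add_distrib,
          ← Finset.sum_add_distrib]
        refine Finset.sum_congr rfl fun y _ => ?_
        rw [e2]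
        ring
      have h2 : ∑ y, (μ₁ y - μ₁ ((i lB)⁻¹ y)) * X lA y =
          ∑ y, μ₁ y * X lA y - ∑ y, μ₁ ((i lB)⁻¹ y) * X lA y := by
        rw [← Finset.sum_sub_distrib]
        refine Finset.sum_congr rfl fun y _ => ?_
        ring
      rw [h1, h2, s1, s2, s3]
      ring
    have e4 : ∑ y, μ₁ y * (h₂ y - x₂ lC y) = ∑ y, μ₁ y * h₂ y - ∑ y, μ₁ y * x₂ lC y := by
      rw [← Finset.sum_sub_distrib]
      refine Finset.sum_congr rfl fun y _ => ?_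
      ring
    rw [e4, e1, e3, hX]
  · intro Δ hΔ
    have h1 : ∑ y, Δ y * f₂ (π⁻¹ y) = ∑ y, Δ y * f₂ y := by
      rw [← Equiv.sum_comp π fun y => Δ y * f₂ (π⁻¹ y)]
      refine Finset.sum_congr rfl fun y _ => ?_
      rw [hΔ, ← Equiv.Perm.mul_apply, inv_mul_cancel, Equiv.Perm.one_apply]
    have h2 : ∑ y, Δ y * (g₂ y + f₂ (π⁻¹ y) - f₂ y + μ₂ y) =
        ∑ y, Δ y * (g₂ y + μ₂ y) + (∑ y, Δ y * f₂ (π⁻¹ y) - ∑ y, Δ y * f₂ y) := by
      rw [← Finset.sum_sub_distrib, ← Finset.sum_add_distrib]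
      refine Finset.sum_congr rfl fun y _ => ?_
      ring
    rw [h2, h1, sub_self, add_zero]

end Pool.Agent.SOR.H45
end
end -- Pool.Agent.Helper45_SOR.NDK

section -- Pool.Agent.Helper47_SOR.AUT

/-!
# SOR, row AUT: the automorphisms `pa`, `pb` of the free group
-/

noncomputable section

namespace Pool.Agent.SOR.H47

theorem pa_A : pa lA = lA := fa_A
theorem pa_B : pa lB = lA * lB := fa_B
theorem pb_A : pb lA = lB⁻¹ := fb_A
theorem pb_B : pb lB = lB * lA * lB := fb_B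

theorem mulAut_ext {φ ψ : MulAut Fr} (h1 : φ lA = ψ lA) (h2 : φ lB = ψ lB) : φ = ψ := by
  have h : φ.toMonoidHom = ψ.toMonoidHom := hom_ext h1 h2
  ext1 x
  exact DFunLike.congr_fun h x

theorem p1_A : (pa * pb) lA = lB⁻¹ * lA⁻¹ := by
  rw [MulAut.mul_apply, pb_A, map_inv, pa_B, mul_inv_rev]

theorem p1_B : (pa * pb) lB = lA * lB * lA * lA * lB := by
  rw [MulAut.mul_apply, pb_B, map_mul, map_mul, pa_B, pa_A]
  simp only [mul_assoc]

theorem p3_A (P : MulAut Fr) (hA : P lA = lB⁻¹ * lA⁻¹) (hB : P lB = lA * lB * lA * lA * lB) :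
    P (P (P lA)) = lB⁻¹ * lA⁻¹ * lB := by
  simp only [hA, hB, map_mul, map_inv]
  group

theorem p3_B (P : MulAut Fr) (hA : P lA = lB⁻¹ * lA⁻¹) (hB : P lB = lA * lB * lA * lA * lB) :
    P (P (P lB)) = lB⁻¹ * lA⁻¹ * lB⁻¹ * lA * lB := by
  simp only [hA, hB, map_mul, map_inv]
  group

/-- **AUT**. -/
theorem aut : AutStmt := by
  refine ⟨?_, ?_, ?_, ?_, ?_⟩
  · simp only [lC, map_mul, map_inv, pa_A, pa_B]
    group
  · simp only [lC, map_mul, map_inv, pb_A, pb_B]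
    group
  · simp only [lA', map_mul, map_inv, pa_A, pa_B]
    group
  · apply mulAut_ext
    · simp only [MulAut.mul_apply, map_mul, map_inv, pa_A, pa_B, pb_A, pb_B]
      group
    · simp only [MulAut.mul_apply, map_mul, map_inv, pa_A, pa_B, pb_A, pb_B]
      group
  · have hA := p3_A _ p1_A p1_B
    have hB := p3_B _ p1_A p1_B
    generalize pa * pb = P at hA hB ⊢
    have h6 : ∀ x, (P ^ 6) x = P (P (P (P (P (P x))))) := by
      intro x
      simp only [pow_succ, pow_zero, one_mul, MulAut.mul_apply]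
    apply mulAut_ext
    · rw [h6, hA, MulAut.conj_apply]
      simp only [map_mul, map_inv, hA, hB, lC]
      group
    · rw [h6, hB, MulAut.conj_apply]
      simp only [map_mul, map_inv, hA, hB, lC]
      group

end Pool.Agent.SOR.H47
end
end -- Pool.Agent.Helper47_SOR.AUT

section -- Pool.Agent.Helper47_SOR.PRG

/-!
# SOR, row PRG: the pairing with a cocycle which is `0` at `A`
-/

open scoped BigOperators

noncomputable section

namespace Pool.Agent.SOR.H47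

variable {Y : Type}

theorem cx_one {i : Fr →* Equiv.Perm Y} {u : Fr → Y → ℚ} (hu : Cx i u) (y : Y) : u 1 y = 0 := by
  have h := hu 1 1 y
  rw [mul_one, map_one] at h
  simpa using h

theorem cx_inv {i : Fr →* Equiv.Perm Y} {u : Fr → Y → ℚ} (hu : Cx i u) (g : Fr) (y : Y) :
    u g⁻¹ (i g y) = - u g y := by
  have h := hu g⁻¹ g y
  rw [inv_mul_cancel, cx_one hu] at h
  linarith

theorem perm_ai (π : Equiv.Perm Y) (y : Y) : π (π⁻¹ y) = y := by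
  rw [← Equiv.Perm.mul_apply, mul_inv_cancel]
  rfl

/-- **PRG** from THX. -/
theorem prg (hT : ThxStmt) : PrgStmt := by
  intro Y _ i u v hu hv hA
  obtain ⟨hex, -, -⟩ := hT Y i u v hu hv
  have hI : Iv i u v = ∑ y, hex.choose lC y := by
    unfold Iv
    rw [dif_pos hex]
  obtain ⟨hth, h1, h2⟩ := hex.choose_spec
  rw [hI]
  generalize hex.choose = θ at hth h1 h2 ⊢
  have t1 : ∀ y, θ 1 y = 0 := by
    intro y
    have h := hth 1 1 y
    rw [mul_one, map_one, cx_one hu, zero_mul] at h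
    simpa using h
  have vAi : ∀ y, v lA⁻¹ y = 0 := by
    intro y
    have h := cx_inv hv lA ((i lA)⁻¹ y)
    rw [hA, perm_ai] at h
    simpa using h
  have tAi : ∀ y, θ lA⁻¹ y = 0 := by
    intro y
    have h := hth lA⁻¹ lA ((i lA)⁻¹ y)
    rw [inv_mul_cancel, t1, h1, hA, perm_ai] at h
    linarith
  have tBi : ∀ y, θ lB⁻¹ (i lB y) = u lB y * v lB y := by
    intro y
    have h := hth lB⁻¹ lB y
    rw [inv_mul_cancel, t1, h2, cx_inv hu] at h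
    linarith
  have tBA : ∀ y, θ (lB * lA) y = 0 := by
    intro y
    rw [hth, h1, h2, hA]
    ring
  have vBA : ∀ y, v (lB * lA) y = v lB (i lA y) := by
    intro y
    rw [hv, hA, add_zero]
  have tABA : ∀ y, θ (lA⁻¹ * (lB * lA)) y = u lA⁻¹ (i (lB * lA) y) * v lB (i lA y) := by
    intro y
    rw [hth, tAi, tBA, vBA]
    ring
  have vABA : ∀ y, v (lA⁻¹ * (lB * lA)) y = v lB (i lA y) := by
    intro y
    rw [hv, vAi, vBA, zero_add]
  have hCe : lC = lB⁻¹ * (lA⁻¹ * (lB * lA)) := by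
    simp only [lC, mul_assoc]
  have hz : ∀ y, i (lA⁻¹ * (lB * lA)) y = i lB (i lC y) := by
    intro y
    rw [← Equiv.Perm.mul_apply, ← map_mul, hCe, mul_inv_cancel_left]
  have tC : ∀ y, θ lC y = u lB (i lC y) * v lB (i lC y) +
      (u lA⁻¹ (i (lB * lA) y) - u lB (i lC y)) * v lB (i lA y) := by
    intro y
    have h := hth lB⁻¹ (lA⁻¹ * (lB * lA)) y
    rw [← hCe, hz, tBi, tABA, vABA, cx_inv hu] at h
    rw [h]
    ring
  have e1 : ∑ y, u lB (i lC y) * v lB (i lC y) = ∑ y, u lB y * v lB y :=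
    Equiv.sum_comp (i lC) (fun y => u lB y * v lB y)
  have e2 : ∑ y, (u lA⁻¹ (i (lB * lA) y) - u lB (i lC y)) * v lB (i lA y) =
      ∑ y, (u lA⁻¹ (i lB y) - u lB (i (lB⁻¹ * lA⁻¹ * lB) y)) * v lB y := by
    rw [← Equiv.sum_comp (i lA)
      (fun y => (u lA⁻¹ (i lB y) - u lB (i (lB⁻¹ * lA⁻¹ * lB) y)) * v lB y)]
    refine Finset.sum_congr rfl fun y _ => ?_
    rw [← Equiv.Perm.mul_apply (i lB), ← Equiv.Perm.mul_apply (i (lB⁻¹ * lA⁻¹ * lB)), ← map_mul,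
      ← map_mul]
    rfl
  have hA'i : lA'⁻¹ = lB⁻¹ * (lA⁻¹ * lB) := by
    simp only [lA', mul_inv_rev, inv_inv]
  have e3 : ∀ y, u lA'⁻¹ y = u lA⁻¹ (i lB y) - u lB (i (lB⁻¹ * lA⁻¹ * lB) y) + u lB y := by
    intro y
    have hq : i (lA⁻¹ * lB) y = i lB (i (lB⁻¹ * lA⁻¹ * lB) y) := by
      rw [← Equiv.Perm.mul_apply, ← map_mul]
      congr 2
      group
    rw [hA'i, hu, hu, hq, cx_inv hu]
    ring
  calc ∑ y, θ lC y = ∑ y, (u lB (i lC y) * v lB (i lC y) +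
      (u lA⁻¹ (i (lB * lA) y) - u lB (i lC y)) * v lB (i lA y)) :=
        Finset.sum_congr rfl fun y _ => tC y
    _ = ∑ y, u lB y * v lB y +
      ∑ y, (u lA⁻¹ (i lB y) - u lB (i (lB⁻¹ * lA⁻¹ * lB) y)) * v lB y := by
        rw [Finset.sum_add_distrib, e1, e2]
    _ = ∑ y, v lB y * u lA'⁻¹ y := by
        rw [← Finset.sum_add_distrib]
        refine Finset.sum_congr rfl fun y _ => ?_
        rw [e3]
        ring

end Pool.Agent.SOR.H47
end
end -- Pool.Agent.Helper47_SOR.PRG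

section -- Pool.Agent.Helper56_SOR.IVF

/-!
# SOR, IVF: the properties of the pairing
-/

open scoped BigOperators

noncomputable section

namespace Pool.Agent.SOR.H56

variable {Y : Type} {i : Fr →* Equiv.Perm Y}

theorem i_mul (g h : Fr) (y : Y) : i (g * h) y = i g (i h y) := by
  rw [map_mul, Equiv.Perm.mul_apply]

theorem cx_add {u v : Fr → Y → ℚ} (hu : Cx i u) (hv : Cx i v) :
    Cx i (fun w y => u w y + v w y) := by
  intro g h y
  simp only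
  rw [hu g h y, hv g h y]
  ring

theorem cx_dl (f : Y → ℚ) : Cx i (dl i f) := by
  intro g h y
  unfold dl
  rw [i_mul]
  ring

theorem ivf (thx : ThxStmt) : IvfStmt := by
  intro Y _ i
  have key : ∀ u v θ, Cx i u → Cx i v → Th i u v θ → Iv i u v = ∑ y, θ lC y := by
    intro u v θ hu hv hθ
    obtain ⟨h1, h2, _⟩ := thx Y i u v hu hv
    have h3 : ∃ θ, Th i u v θ ∧ (∀ y, θ lA y = 0) ∧ (∀ y, θ lB y = 0) := h1
    unfold Iv
    rw [dif_pos h3]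
    exact h2 _ _ h3.choose_spec.1 hθ
  refine ⟨key, ?_, ?_, ?_, ?_, ?_, ?_⟩
  · intro u u' v hu hu' hv
    obtain ⟨θ, hθ, _⟩ := (thx Y i u v hu hv).1
    obtain ⟨θ', hθ', _⟩ := (thx Y i u' v hu' hv).1
    rw [key u v θ hu hv hθ, key u' v θ' hu' hv hθ',
      key _ v (fun w y => θ w y + θ' w y) (cx_add hu hu') hv ?_, Finset.sum_add_distrib]
    intro g h y
    simp only
    rw [hθ g h y, hθ' g h y]
    ring
  · intro u v v' hu hv hv'
    obtain ⟨θ, hθ, _⟩ := (thx Y i u v hu hv).1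
    obtain ⟨θ', hθ', _⟩ := (thx Y i u v' hu hv').1
    rw [key u v θ hu hv hθ, key u v' θ' hu hv' hθ',
      key u _ (fun w y => θ w y + θ' w y) hu (cx_add hv hv') ?_, Finset.sum_add_distrib]
    intro g h y
    simp only
    rw [hθ g h y, hθ' g h y]
    ring
  · intro f v hv
    rw [key (dl i f) v (fun g y => f (i g y) * v g y) (cx_dl f) hv ?_]
    intro g h y
    simp only [dl]
    rw [i_mul, hv g h y]
    ring
  · intro u f hu
    rw [key u (dl i f) (fun g y => -(u g y * f y)) hu (cx_dl f) ?_, Finset.sum_neg_distrib]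
    intro g h y
    simp only [dl]
    rw [hu g h y]
    ring
  · intro φ π hact hC u v hu hv
    have h1 : ∀ h y, π⁻¹ (i h y) = i (φ⁻¹ h) (π⁻¹ y) := by
      intro h y
      have h2 : π (π⁻¹ y) = y := π.apply_symm_apply y
      rw [Equiv.Perm.inv_eq_iff_eq, hact, MulAut.apply_inv_self, h2]
    have hcx : ∀ w, Cx i w → Cx i (tw φ π w) := by
      intro w hw g h y
      unfold tw
      rw [map_mul, hw, h1]
    refine ⟨hcx u hu, ?_⟩
    obtain ⟨θ, hθ, _⟩ := (thx Y i u v hu hv).1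
    rw [key u v θ hu hv hθ, key _ _ (tw φ π θ) (hcx u hu) (hcx v hv) ?_]
    · have h2 : φ⁻¹ lC = lC := by
        rw [MulAut.inv_def, MulEquiv.symm_apply_eq, hC]
      unfold tw
      rw [h2]
      exact Equiv.sum_comp π⁻¹ fun y => θ lC y
    · intro g h y
      unfold tw
      rw [map_mul, hθ, h1]
  · intro R u v hu hv hRu hRv
    obtain ⟨h1, _, h3⟩ := thx Y i u v hu hv
    obtain ⟨θ, hθ, hA, hB⟩ := h1
    rw [key u v θ hu hv hθ]
    refine sum_mem fun y _ => ?_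
    exact h3 R hRu hRv θ hθ (fun y => by rw [hA]; exact R.zero_mem)
      (fun y => by rw [hB]; exact R.zero_mem) lC y

end Pool.Agent.SOR.H56
end
end -- Pool.Agent.Helper56_SOR.IVF

section -- Pool.Agent.Helper62_SOR.OOA

/-!
# Squad SOR, row OOA: the sum over the orbits of `⟨a, a₃⟩`
-/

open scoped BigOperators

set_option autoImplicit false

noncomputable section

namespace Pool.Agent.SOR.H62

section coc

variable {Γ Y : Type} [Group Γ] {R : Subring ℚ} {i : Γ →* Equiv.Perm Y} {ρ : Γ → Y → ℚ}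

theorem im (g h : Γ) (y : Y) : i (g * h) y = i g (i h y) := by
  rw [map_mul]
  rfl

theorem iinv (g : Γ) (y : Y) : i g (i g⁻¹ y) = y := by
  rw [← im, mul_inv_cancel, map_one]
  rfl

theorem iinv' (g : Γ) (y : Y) : i g⁻¹ (i g y) = y := by
  rw [← im, inv_mul_cancel, map_one]
  rfl

theorem cr_one (h : Cr R i ρ) (y : Y) : ρ 1 y ∈ R := by
  have h1 := h 1 1 y
  rw [one_mul, map_one] at h1
  have h2 : ρ 1 ((1 : Equiv.Perm Y) y) = ρ 1 y := rfl
  rw [h2] at h1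
  have h3 : ρ 1 y = -(ρ 1 y - ρ 1 y - ρ 1 y) := by ring
  rw [h3]
  exact R.neg_mem h1

theorem cr_inv (h : Cr R i ρ) (g : Γ) (y : Y) : ρ g⁻¹ (i g y) + ρ g y ∈ R := by
  have h1 := h g⁻¹ g y
  rw [inv_mul_cancel] at h1
  have h3 : ρ g⁻¹ (i g y) + ρ g y = ρ 1 y - (ρ 1 y - ρ g⁻¹ (i g y) - ρ g y) := by ring
  rw [h3]
  exact R.sub_mem (cr_one h y) h1

theorem cr_inv' (h : Cr R i ρ) (g : Γ) (y : Y) : ρ g (i g⁻¹ y) + ρ g⁻¹ y ∈ R := by
  have h1 := cr_inv h g⁻¹ y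
  rwa [inv_inv] at h1

theorem cr_zpow (h : Cr R i ρ) (g : Γ) {μ : Y → ℚ} (hinv : ∀ y, μ (i g y) = μ y)
    (hμ : ∀ y, ρ g y - μ y ∈ R) (k : ℤ) : ∀ y, ρ (g ^ k) y - k * μ y ∈ R := by
  induction k using Int.induction_on with
  | zero =>
    intro y
    rw [zpow_zero]
    have : ρ 1 y - ((0 : ℤ) : ℚ) * μ y = ρ 1 y := by push_cast; ring
    rw [this]
    exact cr_one h y
  | succ k ih =>
    intro y
    have h1 := h (g ^ (k : ℤ)) g y
    have h2 := ih (i g y)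
    rw [hinv] at h2
    rw [zpow_add_one]
    have h3 : ρ (g ^ (k : ℤ) * g) y - (((k : ℤ) + 1 : ℤ) : ℚ) * μ y =
        (ρ (g ^ (k : ℤ) * g) y - ρ (g ^ (k : ℤ)) (i g y) - ρ g y) +
        (ρ (g ^ (k : ℤ)) (i g y) - ((k : ℤ) : ℚ) * μ y) + (ρ g y - μ y) := by
      push_cast
      ring
    rw [h3]
    exact R.add_mem (R.add_mem h1 h2) (hμ y)
  | pred k ih =>
    intro y
    have e1 : i g (i g⁻¹ y) = y := iinv g y
    have e2 : μ (i g⁻¹ y) = μ y := by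
      rw [← hinv (i g⁻¹ y), e1]
    have h1 := h (g ^ (-(k : ℤ) - 1)) g (i g⁻¹ y)
    rw [← zpow_add_one, sub_add_cancel, e1] at h1
    have h2 := ih (i g⁻¹ y)
    have h4 := hμ (i g⁻¹ y)
    rw [e2] at h2 h4
    have h3 : ρ (g ^ (-(k : ℤ) - 1)) y - ((-(k : ℤ) - 1 : ℤ) : ℚ) * μ y =
        (ρ (g ^ (-(k : ℤ))) (i g⁻¹ y) - ((-(k : ℤ) : ℤ) : ℚ) * μ y) -
        (ρ g (i g⁻¹ y) - μ y) -
        (ρ (g ^ (-(k : ℤ))) (i g⁻¹ y) - ρ (g ^ (-(k : ℤ) - 1)) y - ρ g (i g⁻¹ y)) := by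
      push_cast
      ring
    rw [h3]
    exact R.sub_mem (R.sub_mem h2 h4) h1

/-- conjugation does not change the values at fixed points -/
theorem fixc (h : Cr R i ρ) (b g : Γ) {w : Y} (hg : i g w = w) :
    ρ (b⁻¹ * g * b) (i b⁻¹ w) - ρ g w ∈ R := by
  have h1 := h b⁻¹ (g * b) (i b⁻¹ w)
  have h2 := h g b (i b⁻¹ w)
  have h3 := cr_inv' h b w
  rw [im, iinv, hg, ← mul_assoc] at h1
  rw [iinv] at h2
  have h4 : ρ (b⁻¹ * g * b) (i b⁻¹ w) - ρ g w =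
      (ρ (b⁻¹ * g * b) (i b⁻¹ w) - ρ b⁻¹ w - ρ (g * b) (i b⁻¹ w)) +
      (ρ (g * b) (i b⁻¹ w) - ρ g w - ρ b (i b⁻¹ w)) + (ρ b (i b⁻¹ w) + ρ b⁻¹ w) := by
    ring
  rw [h4]
  exact R.add_mem (R.add_mem h1 h2) h3

/-- the conjugate cocycle -/
theorem cr_conj (h : Cr R i ρ) (b : Γ) : Cr R i (fun g w => ρ (b⁻¹ * g * b) (i b⁻¹ w)) := by
  intro g k w
  have h1 := h (b⁻¹ * g * b) (b⁻¹ * k * b) (i b⁻¹ w)
  have e1 : b⁻¹ * g * b * (b⁻¹ * k * b) = b⁻¹ * (g * k) * b := by group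
  have e2 : i (b⁻¹ * k * b) (i b⁻¹ w) = i b⁻¹ (i k w) := by
    rw [im, im, iinv]
  rw [e1, e2] at h1
  exact h1

end coc

section av

variable {Y : Type}

theorem av_comm {s t : Equiv.Perm Y} (hst : s * t = t * s) (f : Y → ℚ) (y : Y) :
    av s t f y = av t s f y := by
  unfold av
  rw [Finset.sum_comm]
  have hc : Commute s t := hst
  have h1 : ∀ k l : ℕ, s ^ k * t ^ l = t ^ l * s ^ k := fun k l =>
    (hc.pow_pow k l).eq
  rw [mul_comm (orderOf s : ℚ)]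
  refine congrArg₂ _ (Finset.sum_congr rfl fun l _ => Finset.sum_congr rfl fun k _ => ?_) rfl
  rw [h1]

end av

section rel

variable {Γ : Type} [Group Γ] (D : Bd Γ)

theorem a3B : D.a3 * D.B = D.B * D.a := by
  unfold Bd.a3
  rw [mul_assoc, D.r3]
  group

theorem Bia3 : D.B⁻¹ * D.a3 = D.a * D.B⁻¹ := by
  have h := a3B D
  calc D.B⁻¹ * D.a3 = D.B⁻¹ * (D.a3 * D.B) * D.B⁻¹ := by group
    _ = D.B⁻¹ * (D.B * D.a) * D.B⁻¹ := by rw [h]
    _ = D.a * D.B⁻¹ := by group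

theorem BiA : D.B⁻¹ * D.A = D.A' * D.B⁻¹ := by
  unfold Bd.A'
  group

theorem Aa3 : D.A * D.a3 = D.a := by
  unfold Bd.a3
  group

theorem a3A : D.a3 * D.A = D.a := by
  unfold Bd.a3
  rw [mul_assoc, D.r2]
  group

theorem aa3 : D.a * D.a3 = D.a3 * D.a := by
  have h : D.a * D.A⁻¹ = D.A⁻¹ * D.a := by
    calc D.a * D.A⁻¹ = D.A⁻¹ * (D.A * D.a) * D.A⁻¹ := by group
      _ = D.A⁻¹ * (D.a * D.A) * D.A⁻¹ := by rw [D.r2]
      _ = D.A⁻¹ * D.a := by group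
  unfold Bd.a3
  rw [← mul_assoc, h]

theorem BaB : D.B⁻¹ * D.a * D.B = D.A' * D.a := by
  unfold Bd.A'
  rw [mul_assoc, D.r3]
  group

theorem aA' : D.a * D.A' = D.A' * D.a := by
  have h1 := Bia3 D
  calc D.a * D.A' = (D.a * D.B⁻¹) * D.A * D.B := by unfold Bd.A'; group
    _ = (D.B⁻¹ * D.a3) * D.A * D.B := by rw [h1]
    _ = D.B⁻¹ * (D.a3 * D.A) * D.B := by group
    _ = D.B⁻¹ * D.a * D.B := by rw [a3A]
    _ = D.A' * D.a := BaB D

end rel

theorem ooa (ave : AveStmt) (hol : HolStmt) (ind : IndStmt) : OoaStmt := by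
  intro Γ Y _ _ R D i ρ₁ ρ₂ hρ₁ hρ₂ μ₁ μ₂ m1a m1A m1A' m2a m2A m2A' hm1 hm2 ξ Ψ hξa hξ hΨa hΨ η ζ
    E1 E2
  have mc : ∀ {μ : Y → ℚ}, (∀ y, μ (i D.a y) = μ y) → (∀ y, μ (i D.A y) = μ y) →
      ∀ y, μ (i D.a3 y) = μ y := by
    intro μ h1 h2 y
    have h3 : i D.a y = i D.A (i D.a3 y) := by rw [← im, Aa3]
    rw [← h2 (i D.a3 y), ← h3, h1]
  have nc3 : ∀ {μ : Y → ℚ}, (∀ y, μ (i D.a y) = μ y) →
      ∀ y, μ (i D.B⁻¹ (i D.a3 y)) = μ (i D.B⁻¹ y) := by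
    intro μ h1 y
    rw [← im, Bia3, im, h1]
  have ncA : ∀ {μ : Y → ℚ}, (∀ y, μ (i D.A' y) = μ y) →
      ∀ y, μ (i D.B⁻¹ (i D.A y)) = μ (i D.B⁻¹ y) := by
    intro μ h1 y
    rw [← im, BiA, im, h1]
  have nca : ∀ {μ : Y → ℚ}, (∀ y, μ (i D.a y) = μ y) → (∀ y, μ (i D.A' y) = μ y) →
      ∀ y, μ (i D.B⁻¹ (i D.a y)) = μ (i D.B⁻¹ y) := by
    intro μ h1 h2 y
    have h3 : i D.a y = i D.A (i D.a3 y) := by rw [← im, Aa3]
    rw [h3, ncA h2, nc3 h1]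
  have m13 := mc m1a m1A
  have m23 := mc m2a m2A
  have n13 := nc3 m1a
  have n23 := nc3 m2a
  have n1a := nca m1a m1A'
  have n2a := nca m2a m2A'
  have hst : i D.a * i D.a3 = i D.a3 * i D.a := by
    rw [← map_mul, ← map_mul, aa3]
  have hts : i D.a3 * i D.a = i D.a * i D.a3 := hst.symm
  have ic : ∀ y, i D.a (i D.a3 y) = i D.a3 (i D.a y) := by
    intro y
    rw [← im, ← im, aa3]
  obtain ⟨av1, av2, av3, -, av5, av6, av7⟩ := ave Y (i D.a) (i D.a3) hst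
  obtain ⟨bv1, bv2, -, -, bv5, bv6, bv7⟩ := ave Y (i D.a3) (i D.a) hts
  -- the function `χ`
  obtain ⟨χ, hχ⟩ : ∃ χ : Y → ℚ, χ = fun w => Ψ (i D.B⁻¹ w) := ⟨_, rfl⟩
  have hχ' : ∀ w, χ w = Ψ (i D.B⁻¹ w) := fun w => by rw [hχ]
  have hχ3 : ∀ w, χ (i D.a3 w) = χ w := fun w => by rw [hχ', hχ', nc3 hΨa]
  obtain ⟨K, hK⟩ : ∃ K : Y → ℚ, K = av (i D.a) (i D.a3) χ := ⟨_, rfl⟩
  obtain ⟨X, hX⟩ : ∃ X : Y → ℚ, X = av (i D.a) (i D.a3) ξ := ⟨_, rfl⟩
  have hKa : ∀ y, K (i D.a y) = K y := fun y => by rw [hK]; exact (av1 χ y).1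
  have hK3 : ∀ y, K (i D.a3 y) = K y := fun y => by rw [hK]; exact (av1 χ y).2
  have hXa : ∀ y, X (i D.a y) = X y := fun y => by rw [hX]; exact (av1 ξ y).1
  have hX3 : ∀ y, X (i D.a3 y) = X y := fun y => by rw [hX]; exact (av1 ξ y).2
  -- the two exact pairs
  have F2 : Ex R i ρ₂ D.a D.a3 μ₂ (fun y => μ₂ y - X y) := by
    have h1 := hol Γ Y R i ρ₂ hρ₂ D.a D.a3 (aa3 D) μ₂ (fun y => μ₂ y - ξ (i D.a3 y)) m2a m23 hm2
      (fun y => by
        change μ₂ (i D.a y) - ξ (i D.a3 (i D.a y)) = _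
        rw [m2a, ← ic, hξa])
      (fun y => by
        have e1 := hρ₂ D.A⁻¹ D.a y
        have e2 := cr_inv' hρ₂ D.A (i D.a y)
        have e3 := hξ (i D.a3 y)
        have e4 : i D.A⁻¹ (i D.a y) = i D.a3 y := by rw [← im]; rfl
        have e5 : D.A⁻¹ * D.a = D.a3 := rfl
        rw [e5] at e1
        rw [e4] at e2
        change ρ₂ D.a3 y - (μ₂ y - ξ (i D.a3 y)) ∈ R
        have e6 : ρ₂ D.a3 y - (μ₂ y - ξ (i D.a3 y)) =
            (ρ₂ D.a3 y - ρ₂ D.A⁻¹ (i D.a y) - ρ₂ D.a y) + (ρ₂ D.A (i D.a3 y) + ρ₂ D.A⁻¹ (i D.a y)) +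
            (ρ₂ D.a y - μ₂ y) - (ρ₂ D.A (i D.a3 y) - ξ (i D.a3 y)) := by ring
        rw [e6]
        exact R.sub_mem (R.add_mem (R.add_mem e1 e2) (hm2 y)) e3)
    have h2 : av (i D.a) (i D.a3) (fun y => μ₂ y - ξ (i D.a3 y)) = fun y => μ₂ y - X y := by
      funext y
      have e1 : (fun y => μ₂ y - ξ (i D.a3 y)) = fun y => μ₂ y + (fun z => - ξ (i D.a3 z)) y := by
        funext y
        ring
      rw [e1, av5, av6 (fun z => ξ (i D.a3 z)), (av7 ξ y).2, av2 μ₂ m2a m23, hX]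
      ring
    rw [h2] at h1
    exact h1
  have F1' : Ex R i (fun g w => ρ₁ (D.B⁻¹ * g * D.B) (i D.B⁻¹ w)) D.a3 D.a
      (fun y => μ₁ (i D.B⁻¹ y)) (fun y => μ₁ (i D.B⁻¹ y) - K y) := by
    have h1 := hol Γ Y R i (fun g w => ρ₁ (D.B⁻¹ * g * D.B) (i D.B⁻¹ w)) (cr_conj hρ₁ D.B) D.a3 D.a
      (aa3 D).symm (fun y => μ₁ (i D.B⁻¹ y)) (fun w => μ₁ (i D.B⁻¹ w) - χ (i D.A w)) n13 n1a
      (fun y => by
        have e1 : D.B⁻¹ * D.a3 * D.B = D.a := by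
          rw [Bia3]
          group
        change ρ₁ (D.B⁻¹ * D.a3 * D.B) (i D.B⁻¹ y) - μ₁ (i D.B⁻¹ y) ∈ R
        rw [e1]
        exact hm1 _)
      (fun y => by
        have e1 : i D.A (i D.a3 y) = i D.a3 (i D.A y) := by
          rw [← im, ← im, Aa3, a3A]
        change μ₁ (i D.B⁻¹ (i D.a3 y)) - χ (i D.A (i D.a3 y)) = _
        rw [n13, e1, hχ3])
      (fun y => by
        change ρ₁ (D.B⁻¹ * D.a * D.B) (i D.B⁻¹ y) - (μ₁ (i D.B⁻¹ y) - χ (i D.A y)) ∈ R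
        obtain ⟨z, hz⟩ : ∃ z, z = i D.B⁻¹ y := ⟨_, rfl⟩
        have e0 : χ (i D.A y) = Ψ (i D.A' z) := by
          rw [hχ', ← im, BiA, im, hz]
        rw [BaB, ← aA', e0, ← hz]
        have e1 := hρ₁ D.a D.A' z
        have e2 := hm1 (i D.A' z)
        rw [m1A'] at e2
        have e3 := cr_inv hρ₁ D.A' z
        have e4 := hΨ (i D.A' z)
        have e6 : ρ₁ (D.a * D.A') z - (μ₁ z - Ψ (i D.A' z)) =
            (ρ₁ (D.a * D.A') z - ρ₁ D.a (i D.A' z) - ρ₁ D.A' z) + (ρ₁ D.a (i D.A' z) - μ₁ z) +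
            (ρ₁ D.A'⁻¹ (i D.A' z) + ρ₁ D.A' z) - (ρ₁ D.A'⁻¹ (i D.A' z) - Ψ (i D.A' z)) := by ring
        rw [e6]
        exact R.sub_mem (R.add_mem (R.add_mem e1 e2) e3) e4)
    have h2 : av (i D.a3) (i D.a) (fun w => μ₁ (i D.B⁻¹ w) - χ (i D.A w)) =
        fun y => μ₁ (i D.B⁻¹ y) - K y := by
      funext y
      have e1 : (fun w => μ₁ (i D.B⁻¹ w) - χ (i D.A w)) =
          fun y => (fun z => μ₁ (i D.B⁻¹ z)) y + (fun z => - χ (i D.A z)) y := by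
        funext y
        ring
      have e2 : av (i D.a3) (i D.a) (fun z => χ (i D.A z)) y = K y := by
        have e3 : (fun z => (fun z => χ (i D.A z)) (i D.a3 z)) = fun z => χ (i D.a z) := by
          funext z
          change χ (i D.A (i D.a3 z)) = _
          rw [← im, Aa3]
        rw [← (bv7 (fun z => χ (i D.A z)) y).1, e3, (bv7 χ y).2, hK, av_comm hst]
      rw [e1, bv5, bv6 (fun z => χ (i D.A z)), e2, bv2 _ n13 n1a]
      ring
    rw [h2] at h1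
    exact h1
  -- the numbers `η₀` and `ζ₀`
  obtain ⟨η₀, hη₀⟩ : ∃ η₀ : Y → ℚ, ∀ y, η₀ y = μ₁ y - μ₁ (i D.B⁻¹ y) + K y := ⟨_, fun _ => rfl⟩
  obtain ⟨ζ₀, hζ₀⟩ : ∃ ζ₀ : Y → ℚ, ∀ y, ζ₀ y = μ₂ (i D.B⁻¹ y) - μ₂ y + X y := ⟨_, fun _ => rfl⟩
  have F1 : ∀ y (k l : ℤ), i (D.a ^ k * D.a3 ^ l) y = y →
      ρ₁ (D.a ^ k * D.a3 ^ l) y - k * (μ₁ y - η₀ y) - l * μ₁ (i D.B⁻¹ y) ∈ R := by
    intro y k l hy
    have hc : D.a ^ k * D.a3 ^ l = D.a3 ^ l * D.a ^ k :=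
      ((show Commute D.a D.a3 from aa3 D).zpow_zpow k l).eq
    have h1 := F1'.ex y l k (by rw [← hc]; exact hy)
    rw [← hc] at h1
    have h2 := fixc hρ₁ D.B _ hy
    have e6 : ρ₁ (D.a ^ k * D.a3 ^ l) y - k * (μ₁ y - η₀ y) - l * μ₁ (i D.B⁻¹ y) =
        (ρ₁ (D.B⁻¹ * (D.a ^ k * D.a3 ^ l) * D.B) (i D.B⁻¹ y) - l * μ₁ (i D.B⁻¹ y) -
          k * (μ₁ (i D.B⁻¹ y) - K y)) -
        (ρ₁ (D.B⁻¹ * (D.a ^ k * D.a3 ^ l) * D.B) (i D.B⁻¹ y) - ρ₁ (D.a ^ k * D.a3 ^ l) y) := by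
      rw [hη₀]
      ring
    rw [e6]
    exact R.sub_mem h1 h2
  have hηa : ∀ y, η (i D.a y) = η y := by
    intro y
    have := E1.ps y
    rw [m1a] at this
    linarith
  have hη3 : ∀ y, η (i D.a3 y) = η y := by
    intro y
    have := E1.pt y
    rw [m13] at this
    linarith
  have hζa : ∀ y, ζ (i D.a y) = ζ y := by
    intro y
    have := E2.qs y
    rw [n2a] at this
    linarith
  have hζ3 : ∀ y, ζ (i D.a3 y) = ζ y := by
    intro y
    have := E2.qt y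
    rw [n23] at this
    linarith
  have hη₀a : ∀ y, η₀ (i D.a y) = η₀ y := fun y => by rw [hη₀, hη₀, m1a, n1a, hKa]
  have hη₀3 : ∀ y, η₀ (i D.a3 y) = η₀ y := fun y => by rw [hη₀, hη₀, m13, n13, hK3]
  have hζ₀a : ∀ y, ζ₀ (i D.a y) = ζ₀ y := fun y => by rw [hζ₀, hζ₀, m2a, n2a, hXa]
  have hζ₀3 : ∀ y, ζ₀ (i D.a3 y) = ζ₀ y := fun y => by rw [hζ₀, hζ₀, m23, n23, hX3]
  have I1 : ∑ y, (η y - η₀ y) * ζ y ∈ R := by
    refine ind Y R (i D.a) (i D.a3) hst (fun y => η y - η₀ y) ζ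
      (fun y => by
        change η (i D.a y) - η₀ (i D.a y) = _
        rw [hηa, hη₀a])
      (fun y => by
        change η (i D.a3 y) - η₀ (i D.a3 y) = _
        rw [hη3, hη₀3]) hζa hζ3 ?_ ?_
    · intro y k l hy
      have hy' : i (D.a ^ k * D.a3 ^ l) y = y := by
        rw [map_mul, map_zpow, map_zpow]
        exact hy
      have h1 := E1.ex y k l hy'
      have h2 := F1 y k l hy'
      change (k : ℚ) * (η y - η₀ y) ∈ R
      have e : (k : ℚ) * (η y - η₀ y) =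
          (ρ₁ (D.a ^ k * D.a3 ^ l) y - k * (μ₁ y - η y) - l * μ₁ (i D.B⁻¹ y)) -
          (ρ₁ (D.a ^ k * D.a3 ^ l) y - k * (μ₁ y - η₀ y) - l * μ₁ (i D.B⁻¹ y)) := by ring
      rw [e]
      exact R.sub_mem h1 h2
    · intro y l hy
      have hy' : i (D.a3 ^ l) y = y := by
        rw [map_zpow]
        exact hy
      have hy2 : i (D.a ^ (0 : ℤ) * D.a3 ^ l) y = y := by
        rw [zpow_zero, one_mul]
        exact hy'
      have h1 := E2.ex y 0 l hy2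
      rw [zpow_zero, one_mul] at h1
      have hcj : D.B⁻¹ * D.a3 ^ l * D.B = D.a ^ l := by
        have h3 := conj_zpow (i := l) (a := D.B⁻¹) (b := D.a3)
        rw [inv_inv] at h3
        rw [← h3, Bia3]
        group
      have h2 := fixc hρ₂ D.B _ hy'
      rw [hcj] at h2
      have h3 := cr_zpow hρ₂ D.a m2a hm2 l (i D.B⁻¹ y)
      have e : (l : ℚ) * ζ y =
          (ρ₂ (D.a3 ^ l) y - ((0 : ℤ) : ℚ) * μ₂ y - l * (μ₂ (i D.B⁻¹ y) - ζ y)) +
          (ρ₂ (D.a ^ l) (i D.B⁻¹ y) - ρ₂ (D.a3 ^ l) y) -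
          (ρ₂ (D.a ^ l) (i D.B⁻¹ y) - l * μ₂ (i D.B⁻¹ y)) := by
        push_cast
        ring
      rw [e]
      exact R.sub_mem (R.add_mem h1 h2) h3
  have I2 : ∑ y, (ζ y - ζ₀ y) * η₀ y ∈ R := by
    refine ind Y R (i D.a3) (i D.a) hts (fun y => ζ y - ζ₀ y) η₀
      (fun y => by
        change ζ (i D.a3 y) - ζ₀ (i D.a3 y) = _
        rw [hζ3, hζ₀3])
      (fun y => by
        change ζ (i D.a y) - ζ₀ (i D.a y) = _
        rw [hζa, hζ₀a]) hη₀3 hη₀a ?_ ?_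
    · intro y k l hy
      have hc : D.a ^ l * D.a3 ^ k = D.a3 ^ k * D.a ^ l :=
        ((show Commute D.a D.a3 from aa3 D).zpow_zpow l k).eq
      have hy' : i (D.a ^ l * D.a3 ^ k) y = y := by
        rw [hc, map_mul, map_zpow, map_zpow]
        exact hy
      have h1 := E2.ex y l k hy'
      have h2 := F2.ex y l k hy'
      change (k : ℚ) * (ζ y - ζ₀ y) ∈ R
      have e : (k : ℚ) * (ζ y - ζ₀ y) =
          (ρ₂ (D.a ^ l * D.a3 ^ k) y - l * μ₂ y - k * (μ₂ (i D.B⁻¹ y) - ζ y)) -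
          (ρ₂ (D.a ^ l * D.a3 ^ k) y - l * μ₂ y - k * (μ₂ y - X y)) := by
        rw [hζ₀]
        ring
      rw [e]
      exact R.sub_mem h1 h2
    · intro y l hy
      have hy' : i (D.a ^ l * D.a3 ^ (0 : ℤ)) y = y := by
        rw [zpow_zero, mul_one, map_zpow]
        exact hy
      have h1 := F1 y l 0 hy'
      rw [zpow_zero, mul_one] at h1
      have h3 := cr_zpow hρ₁ D.a m1a hm1 l y
      have e : (l : ℚ) * η₀ y =
          (ρ₁ (D.a ^ l) y - l * (μ₁ y - η₀ y) - ((0 : ℤ) : ℚ) * μ₁ (i D.B⁻¹ y)) -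
          (ρ₁ (D.a ^ l) y - l * μ₁ y) := by
        push_cast
        ring
      rw [e]
      exact R.sub_mem h1 h3
  -- the sums
  have S1 : ∑ y, (μ₂ (i D.B y) - μ₂ y - ξ (i D.B y)) * Ψ y =
      ∑ y, (μ₂ y - μ₂ (i D.B⁻¹ y) - X y) * K y := by
    rw [← Equiv.sum_comp (i D.B⁻¹)]
    have e1 : ∀ y, (μ₂ (i D.B (i D.B⁻¹ y)) - μ₂ (i D.B⁻¹ y) - ξ (i D.B (i D.B⁻¹ y))) *
        Ψ (i D.B⁻¹ y) = (fun z => μ₂ z - μ₂ (i D.B⁻¹ z) - ξ z) y * χ y := by
      intro y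
      rw [iinv, hχ']
    rw [Finset.sum_congr rfl fun y _ => e1 y]
    rw [av3 (fun z => μ₂ z - μ₂ (i D.B⁻¹ z) - ξ z) χ
      (fun y => by
        change μ₂ (i D.a y) - μ₂ (i D.B⁻¹ (i D.a y)) - ξ (i D.a y) = _
        rw [m2a, n2a, hξa]) hχ3]
    refine Finset.sum_congr rfl fun y _ => ?_
    have e2 : (fun z => μ₂ z - μ₂ (i D.B⁻¹ z) - ξ z) =
        fun y => (fun z => μ₂ z - μ₂ (i D.B⁻¹ z)) y + (fun z => - ξ z) y := by
      funext z
      ring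
    rw [e2, av5, av6 ξ, av2 (fun z => μ₂ z - μ₂ (i D.B⁻¹ z))
      (fun y => by
        change μ₂ (i D.a y) - μ₂ (i D.B⁻¹ (i D.a y)) = _
        rw [m2a, n2a])
      (fun y => by
        change μ₂ (i D.a3 y) - μ₂ (i D.B⁻¹ (i D.a3 y)) = _
        rw [m23, n23]), hX, hK]
    ring
  have S2 : ∑ y, (μ₁ y - μ₁ (i D.B⁻¹ y)) * ξ y = ∑ y, (μ₁ y - μ₁ (i D.B⁻¹ y)) * X y := by
    have e1 : ∀ y, (μ₁ y - μ₁ (i D.B⁻¹ y)) * ξ y =
        ξ y * (fun z => μ₁ z - μ₁ (i D.B⁻¹ z)) y := fun y => mul_comm _ _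
    have g1 : ∀ y, (fun z => μ₁ z - μ₁ (i D.B⁻¹ z)) (i D.a y) =
        (fun z => μ₁ z - μ₁ (i D.B⁻¹ z)) y := fun y => by
      change μ₁ (i D.a y) - μ₁ (i D.B⁻¹ (i D.a y)) = _
      rw [m1a, n1a]
    have g2 : ∀ y, (fun z => μ₁ z - μ₁ (i D.B⁻¹ z)) (i D.a3 y) =
        (fun z => μ₁ z - μ₁ (i D.B⁻¹ z)) y := fun y => by
      change μ₁ (i D.a3 y) - μ₁ (i D.B⁻¹ (i D.a3 y)) = _
      rw [m13, n13]
    rw [Finset.sum_congr rfl fun y _ => e1 y, av3 ξ _ hξa g2]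
    refine Finset.sum_congr rfl fun y _ => ?_
    rw [av2 (fun z => μ₁ z - μ₁ (i D.B⁻¹ z)) g1 g2, hX]
    ring
  have fin : ∑ y, (μ₂ (i D.B y) - μ₂ y - ξ (i D.B y)) * Ψ y -
      ∑ y, (μ₁ y - μ₁ (i D.B⁻¹ y)) * ξ y +
      ∑ y, ((μ₁ y - μ₁ (i D.B⁻¹ y)) * (μ₂ y - μ₂ (i D.B⁻¹ y)) + η y * ζ y) =
      ∑ y, (η y - η₀ y) * ζ y + ∑ y, (ζ y - ζ₀ y) * η₀ y := by
    rw [S1, S2, ← Finset.sum_sub_distrib, ← Finset.sum_add_distrib, ← Finset.sum_add_distrib]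
    refine Finset.sum_congr rfl fun y _ => ?_
    rw [hη₀, hζ₀]
    ring
  rw [fin]
  exact R.add_mem I1 I2

end Pool.Agent.SOR.H62
end
end -- Pool.Agent.Helper62_SOR.OOA

section -- Pool.Agent.Helper69_SOR.LFT

/-!
# Squad SOR, row LFT (helper69): exact cocycles of the free group
-/

open scoped BigOperators

noncomputable section

namespace Pool.Agent.SOR.H69

open Pool.Agent.SOR

/-- induction on words -/
theorem fr_ind {C : Fr → Prop} (h1 : C 1) (hA : C lA) (hB : C lB)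
    (hi : ∀ g, C g → C g⁻¹) (hm : ∀ g h, C g → C h → C (g * h)) (w : Fr) : C w := by
  refine FreeGroup.induction_on w h1 ?_ (fun t ht => hi _ ht) hm
  intro t
  cases t
  · exact hA
  · exact hB

/-- the permutation `(y, s) ↦ (π y, s + f y)` -/
def sh {Y : Type} (π : Equiv.Perm Y) (f : Y → ℚ) : Equiv.Perm (Y × ℚ) where
  toFun z := (π z.1, z.2 + f z.1)
  invFun z := (π.symm z.1, z.2 - f (π.symm z.1))
  left_inv z := by simp
  right_inv z := by simp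

/-- the homomorphism -/
def shH {Y : Type} (i : Fr →* Equiv.Perm Y) (fA fB : Y → ℚ) : Fr →* Equiv.Perm (Y × ℚ) :=
  FreeGroup.lift (fun t => if t then sh (i lB) fB else sh (i lA) fA)

theorem shH_A {Y : Type} (i : Fr →* Equiv.Perm Y) (fA fB : Y → ℚ) :
    shH i fA fB lA = sh (i lA) fA := by simp [shH, lA]

theorem shH_B {Y : Type} (i : Fr →* Equiv.Perm Y) (fA fB : Y → ℚ) :
    shH i fA fB lB = sh (i lB) fB := by simp [shH, lB]

theorem shH_apply {Y : Type} (i : Fr →* Equiv.Perm Y) (fA fB : Y → ℚ) (w : Fr) :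
    ∀ (y : Y) (s : ℚ), shH i fA fB w (y, s) = (i w y, s + (shH i fA fB w (y, 0)).2) := by
  refine fr_ind (C := fun w => ∀ (y : Y) (s : ℚ),
    shH i fA fB w (y, s) = (i w y, s + (shH i fA fB w (y, 0)).2)) ?_ ?_ ?_ ?_ ?_ w
  · intro y s
    simp
  · intro y s
    rw [shH_A]
    simp [sh]
  · intro y s
    rw [shH_B]
    simp [sh]
  · intro g hg y s
    have h1 : ∀ s : ℚ, shH i fA fB g⁻¹ (y, s) =
        (i g⁻¹ y, s - (shH i fA fB g (i g⁻¹ y, 0)).2) := by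
      intro s
      rw [map_inv, Equiv.Perm.inv_eq_iff_eq, hg]
      simp
    rw [h1 s, h1 0]
    ext
    · rfl
    · simp only
      ring
  · intro g h hg hh y s
    have h1 : ∀ s : ℚ, shH i fA fB (g * h) (y, s) =
        (i (g * h) y, s + (shH i fA fB h (y, 0)).2 + (shH i fA fB g (i h y, 0)).2) := by
      intro s
      rw [map_mul, Equiv.Perm.mul_apply, hh y s, hg, map_mul, Equiv.Perm.mul_apply]
    rw [h1 s, h1 0]
    ext
    · rfl
    · simp only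
      ring

theorem cx_one {H Y : Type} [Group H] {i : H →* Equiv.Perm Y} {u : H → Y → ℚ} (hu : Cx i u)
    (y : Y) : u 1 y = 0 := by
  have h := hu 1 1 y
  rw [mul_one, map_one, Equiv.Perm.one_apply] at h
  linarith

theorem cx_inv {H Y : Type} [Group H] {i : H →* Equiv.Perm Y} {u : H → Y → ℚ} (hu : Cx i u)
    (g : H) (y : Y) : u g⁻¹ y = -u g (i g⁻¹ y) := by
  have h := hu g g⁻¹ y
  rw [mul_inv_cancel, cx_one hu] at h
  linarith

theorem lft : LftStmt := by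
  intro Y i
  refine ⟨?_, ?_, ?_⟩
  · intro fA fB
    refine ⟨fun w y => (shH i fA fB w (y, 0)).2, ?_, ?_, ?_⟩
    · intro g h y
      show (shH i fA fB (g * h) (y, 0)).2 = _
      rw [map_mul, Equiv.Perm.mul_apply, shH_apply i fA fB h y 0, shH_apply]
      simp only
      ring
    · intro y
      show (shH i fA fB lA (y, 0)).2 = _
      rw [shH_A]
      simp [sh]
    · intro y
      show (shH i fA fB lB (y, 0)).2 = _
      rw [shH_B]
      simp [sh]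
  · intro u v hu hv hA hB
    funext w
    refine fr_ind (C := fun w => u w = v w) ?_ ?_ ?_ ?_ ?_ w
    · funext y
      rw [cx_one hu, cx_one hv]
    · funext y
      exact hA y
    · funext y
      exact hB y
    · intro g hg
      funext y
      rw [cx_inv hu, cx_inv hv, hg]
    · intro g h hg hh
      funext y
      rw [hu, hv, hg, hh]
  · intro R u v hu hv hA hB w
    refine fr_ind (C := fun w => ∀ y, u w y - v w y ∈ R) ?_ hA hB ?_ ?_ w
    · intro y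
      have h1 := hu 1 1 y
      have h2 := hv 1 1 y
      rw [mul_one, map_one, Equiv.Perm.one_apply] at h1 h2
      have h3 := R.sub_mem h2 h1
      have h4 : v 1 y - v 1 y - v 1 y - (u 1 y - u 1 y - u 1 y) = u 1 y - v 1 y := by ring
      rwa [h4] at h3
    · intro g hg y
      have h1 := hu g g⁻¹ y
      have h2 := hv g g⁻¹ y
      have h3 := hg (i g⁻¹ y)
      have h5 := hu 1 1 y
      have h6 := hv 1 1 y
      rw [mul_one, map_one, Equiv.Perm.one_apply] at h5 h6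
      rw [mul_inv_cancel] at h1 h2
      have h7 := R.sub_mem (R.sub_mem (R.sub_mem h2 h1) h3) (R.sub_mem h5 h6)
      have h8 : v 1 y - v g (i g⁻¹ y) - v g⁻¹ y - (u 1 y - u g (i g⁻¹ y) - u g⁻¹ y) -
          (u g (i g⁻¹ y) - v g (i g⁻¹ y)) - (u 1 y - u 1 y - u 1 y - (v 1 y - v 1 y - v 1 y)) =
          u g⁻¹ y - v g⁻¹ y := by ring
      rwa [h8] at h7
    · intro g h hg hh y
      have h1 := hu g h y
      have h2 := hv g h y
      have h7 := R.add_mem (R.add_mem (R.sub_mem h1 h2) (hg (i h y))) (hh y)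
      have h8 : u (g * h) y - u g (i h y) - u h y - (v (g * h) y - v g (i h y) - v h y) +
          (u g (i h y) - v g (i h y)) + (u h y - v h y) = u (g * h) y - v (g * h) y := by ring
      rwa [h8] at h7

end Pool.Agent.SOR.H69
end
end -- Pool.Agent.Helper69_SOR.LFT

section -- Pool.Agent.Helper69_SOR.THX

/-!
# Squad SOR, row THX (helper69): primitives of cup products
-/

open scoped BigOperators

noncomputable section

namespace Pool.Agent.SOR.H69.T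

open Pool.Agent.SOR

/-- induction on words -/
theorem fr_ind {C : Fr → Prop} (h1 : C 1) (hA : C lA) (hB : C lB)
    (hi : ∀ g, C g → C g⁻¹) (hm : ∀ g h, C g → C h → C (g * h)) (w : Fr) : C w := by
  refine FreeGroup.induction_on w h1 ?_ (fun t ht => hi _ ht) hm
  intro t
  cases t
  · exact hA
  · exact hB

theorem cx_one {H Y : Type} [Group H] {i : H →* Equiv.Perm Y} {u : H → Y → ℚ} (hu : Cx i u)
    (y : Y) : u 1 y = 0 := by
  have h := hu 1 1 y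
  rw [mul_one, map_one, Equiv.Perm.one_apply] at h
  linarith

theorem cx_inv {H Y : Type} [Group H] {i : H →* Equiv.Perm Y} {u : H → Y → ℚ} (hu : Cx i u)
    (g : H) (y : Y) : u g⁻¹ y = -u g (i g⁻¹ y) := by
  have h := hu g g⁻¹ y
  rw [mul_inv_cancel, cx_one hu] at h
  linarith

/-- the permutation `(y, b, c) ↦ (π y, b + q y, c + p y * b)` -/
def hs {Y : Type} (π : Equiv.Perm Y) (p q : Y → ℚ) : Equiv.Perm (Y × ℚ × ℚ) where
  toFun z := (π z.1, z.2.1 + q z.1, z.2.2 + p z.1 * z.2.1)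
  invFun z := (π.symm z.1, z.2.1 - q (π.symm z.1),
    z.2.2 - p (π.symm z.1) * (z.2.1 - q (π.symm z.1)))
  left_inv z := by simp
  right_inv z := by simp

/-- the homomorphism -/
def hsH {Y : Type} (i : Fr →* Equiv.Perm Y) (u v : Fr → Y → ℚ) : Fr →* Equiv.Perm (Y × ℚ × ℚ) :=
  FreeGroup.lift (fun t => if t then hs (i lB) (u lB) (v lB) else hs (i lA) (u lA) (v lA))

theorem hsH_A {Y : Type} (i : Fr →* Equiv.Perm Y) (u v : Fr → Y → ℚ) :
    hsH i u v lA = hs (i lA) (u lA) (v lA) := by simp [hsH, lA]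

theorem hsH_B {Y : Type} (i : Fr →* Equiv.Perm Y) (u v : Fr → Y → ℚ) :
    hsH i u v lB = hs (i lB) (u lB) (v lB) := by simp [hsH, lB]

theorem hsH_apply {Y : Type} (i : Fr →* Equiv.Perm Y) (u v : Fr → Y → ℚ) (hu : Cx i u)
    (hv : Cx i v) (w : Fr) : ∀ (y : Y) (b c : ℚ), hsH i u v w (y, b, c) =
      (i w y, b + v w y, c + (hsH i u v w (y, 0, 0)).2.2 + u w y * b) := by
  refine fr_ind (C := fun w => ∀ (y : Y) (b c : ℚ), hsH i u v w (y, b, c) =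
      (i w y, b + v w y, c + (hsH i u v w (y, 0, 0)).2.2 + u w y * b)) ?_ ?_ ?_ ?_ ?_ w
  · intro y b c
    simp [cx_one hu, cx_one hv]
  · intro y b c
    rw [hsH_A]
    simp [hs]
  · intro y b c
    rw [hsH_B]
    simp [hs]
  · intro g hg y b c
    have h1 : ∀ b c : ℚ, hsH i u v g⁻¹ (y, b, c) =
        (i g⁻¹ y, b - v g (i g⁻¹ y), c - (hsH i u v g (i g⁻¹ y, 0, 0)).2.2 -
          u g (i g⁻¹ y) * (b - v g (i g⁻¹ y))) := by
      intro b c
      rw [map_inv, Equiv.Perm.inv_eq_iff_eq, hg]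
      ext
      · simp
      · simp
      · simp only
        ring
    rw [h1 b c, h1 0 0, cx_inv hu, cx_inv hv]
    ext
    · rfl
    · simp only
      ring
    · simp only
      ring
  · intro g h hg hh y b c
    have h1 : ∀ b c : ℚ, hsH i u v (g * h) (y, b, c) =
        (i (g * h) y, b + v (g * h) y, c + (hsH i u v h (y, 0, 0)).2.2 + u h y * b +
          (hsH i u v g (i h y, 0, 0)).2.2 + u g (i h y) * (b + v h y)) := by
      intro b c
      rw [map_mul, Equiv.Perm.mul_apply, hh y b c, hg, map_mul, Equiv.Perm.mul_apply, hv g h y]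
      ext
      · rfl
      · simp only
        ring
      · rfl
    rw [h1 b c, h1 0 0, hu g h y]
    ext
    · rfl
    · rfl
    · simp only
      ring

theorem thx : ThxStmt := by
  intro Y _ i u v hu hv
  refine ⟨?_, ?_, ?_⟩
  · refine ⟨fun w y => (hsH i u v w (y, 0, 0)).2.2, ?_, ?_, ?_⟩
    · intro g h y
      show (hsH i u v (g * h) (y, 0, 0)).2.2 = _
      rw [map_mul, Equiv.Perm.mul_apply, hsH_apply i u v hu hv h y 0 0,
        hsH_apply i u v hu hv g]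
      simp only
      ring
    · intro y
      show (hsH i u v lA (y, 0, 0)).2.2 = _
      rw [hsH_A]
      simp [hs]
    · intro y
      show (hsH i u v lB (y, 0, 0)).2.2 = _
      rw [hsH_B]
      simp [hs]
  · intro θ θ' h1 h2
    have hc : Cx i (fun g y => θ g y - θ' g y) := by
      intro g h y
      show θ (g * h) y - θ' (g * h) y = θ g (i h y) - θ' g (i h y) + (θ h y - θ' h y)
      rw [h1, h2]
      ring
    have hmul : ∀ g h, ∑ y, (θ (g * h) y - θ' (g * h) y) =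
        ∑ y, (θ g y - θ' g y) + ∑ y, (θ h y - θ' h y) := by
      intro g h
      rw [← Equiv.sum_comp (i h) (fun y => θ g y - θ' g y), ← Finset.sum_add_distrib]
      exact Finset.sum_congr rfl (fun y _ => hc g h y)
    have h1' : ∑ y, (θ 1 y - θ' 1 y) = 0 :=
      Finset.sum_eq_zero (fun y _ => cx_one hc y)
    have hinv : ∀ g, ∑ y, (θ g⁻¹ y - θ' g⁻¹ y) = -∑ y, (θ g y - θ' g y) := by
      intro g
      have h3 := hmul g g⁻¹
      rw [mul_inv_cancel, h1'] at h3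
      linarith
    have h4 : ∑ y, (θ lC y - θ' lC y) = 0 := by
      show ∑ y, (θ (lB⁻¹ * lA⁻¹ * lB * lA) y - θ' (lB⁻¹ * lA⁻¹ * lB * lA) y) = 0
      rw [hmul, hmul, hmul, hinv, hinv]
      ring
    rw [Finset.sum_sub_distrib] at h4
    linarith
  · intro R hRu hRv θ hθ hA hB w
    have h1 : ∀ y, θ 1 y ∈ R := by
      intro y
      have h2 := hθ 1 1 y
      rw [mul_one, map_one, Equiv.Perm.one_apply] at h2
      have h3 : θ 1 y = -(u 1 y * v 1 y) := by linarith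
      rw [h3]
      exact R.neg_mem (R.mul_mem (hRu _ _) (hRv _ _))
    refine fr_ind (C := fun w => ∀ y, θ w y ∈ R) h1 hA hB ?_ ?_ w
    · intro g hg y
      have h2 := hθ g g⁻¹ y
      rw [mul_inv_cancel] at h2
      have h3 : θ g⁻¹ y = θ 1 y - θ g (i g⁻¹ y) - u g (i g⁻¹ y) * v g⁻¹ y := by linarith
      rw [h3]
      exact R.sub_mem (R.sub_mem (h1 y) (hg _)) (R.mul_mem (hRu _ _) (hRv _ _))
    · intro g h hg hh y
      rw [hθ g h y]
      exact R.add_mem (R.add_mem (hg _) (hh _)) (R.mul_mem (hRu _ _) (hRv _ _))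

end Pool.Agent.SOR.H69.T
end
end -- Pool.Agent.Helper69_SOR.THX

section -- Pool.Agent.Helper76_SOR.GAU

/-!
# Squad SOR, row GAU: a gauge in which `s` acts by `μ`
-/

set_option autoImplicit false

noncomputable section

namespace Pool.Agent.SOR.H76

theorem ai {Y : Type} (e : Equiv.Perm Y) (y : Y) : e (e⁻¹ y) = y := e.apply_symm_apply y

theorem ia {Y : Type} (e : Equiv.Perm Y) (y : Y) : e⁻¹ (e y) = y := e.symm_apply_apply y

/-- the invariant function is constant on the orbits -/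
theorem mu_zpow {Γ Y : Type} [Group Γ] {i : Γ →* Equiv.Perm Y} {s : Γ} {μ : Y → ℚ}
    (h : ∀ y, μ (i s y) = μ y) (k : ℤ) : ∀ y : Y, μ (i (s ^ k) y) = μ y := by
  induction k using Int.induction_on with
  | zero =>
    intro y
    rw [zpow_zero, map_one, Equiv.Perm.one_apply]
  | succ k ih =>
    intro y
    rw [zpow_add_one, map_mul, Equiv.Perm.mul_apply, ih, h]
  | pred k ih =>
    intro y
    rw [zpow_sub_one, map_mul, Equiv.Perm.mul_apply, ih, ← h (i s⁻¹ y), map_inv,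
      ai]

/-- GAU -/
theorem gau : GauStmt := by
  classical
  intro Γ Y _ R i ρ hρ s μ hμ
  let S : Setoid Y := Equiv.Perm.SameCycle.setoid (i s)
  obtain ⟨rep, hrep⟩ : ∃ rep : Y → Y, rep = fun y => (Quotient.mk S y).out := ⟨_, rfl⟩
  have h1 : ∀ y, ∃ k : ℤ, i (s ^ k) (rep y) = y := by
    intro y
    have h2 : Equiv.Perm.SameCycle (i s) (rep y) y := by
      rw [hrep]
      exact Quotient.exact (s := S) (Quotient.out_eq (Quotient.mk S y))
    obtain ⟨k, hk⟩ := h2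
    exact ⟨k, by rw [map_zpow]; exact hk⟩
  have h2 : ∀ y, rep (i s y) = rep y := by
    intro y
    rw [hrep]
    have h3 : Quotient.mk S (i s y) = Quotient.mk S y := by
      apply Quotient.sound (s := S)
      exact ⟨-1, by rw [zpow_neg_one, ia]⟩
    change (Quotient.mk S (i s y)).out = (Quotient.mk S y).out
    rw [h3]
  choose K hK using h1
  refine ⟨fun y => K y * μ (rep y) - ρ (s ^ K y) (rep y), fun y => ?_⟩
  obtain ⟨y₀, hy₀⟩ : ∃ y₀, y₀ = rep y := ⟨_, rfl⟩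
  obtain ⟨k, hk⟩ : ∃ k, k = K y := ⟨_, rfl⟩
  obtain ⟨k', hk'⟩ : ∃ k', k' = K (i s y) := ⟨_, rfl⟩
  have e1 : i (s ^ k) y₀ = y := by rw [hk, hy₀]; exact hK y
  have e2 : i (s ^ k') y₀ = i s y := by
    have := hK (i s y)
    rw [h2, ← hy₀, ← hk'] at this
    exact this
  obtain ⟨m, hm⟩ : ∃ m, m = k' - (k + 1) := ⟨_, rfl⟩
  have e3 : i (s ^ m) y₀ = y₀ := by
    have h4 : s ^ m = (s ^ (k + 1))⁻¹ * s ^ k' := by
      rw [hm, ← zpow_neg, ← zpow_add]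
      congr 1
      ring
    have h5 : i (s ^ (k + 1)) y₀ = i s y := by
      rw [add_comm, zpow_one_add, map_mul, Equiv.Perm.mul_apply, e1]
    rw [h4, map_mul, Equiv.Perm.mul_apply, e2, ← h5, map_inv, ia]
  have c1 := hρ (s ^ (k + 1)) (s ^ m) y₀
  rw [e3, ← zpow_add, show k + 1 + m = k' by rw [hm]; ring] at c1
  have c2 := hρ s (s ^ k) y₀
  rw [e1, ← zpow_one_add, add_comm 1 k] at c2
  have c3 := hμ.hol y₀ m e3
  have c4 : μ y = μ y₀ := by
    rw [← e1]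
    exact mu_zpow hμ.inv k y₀
  change ρ s y + (K (i s y) * μ (rep (i s y)) - ρ (s ^ K (i s y)) (rep (i s y))) -
    (K y * μ (rep y) - ρ (s ^ K y) (rep y)) - μ y ∈ R
  rw [h2, ← hy₀, ← hk, ← hk', c4]
  have c5 := R.sub_mem (R.sub_mem (R.neg_mem c1) c2) c3
  have c6 : (m : ℚ) = k' - (k + 1) := by rw [hm]; push_cast; ring
  rw [c6] at c5
  have c7 : ρ s y + (k' * μ y₀ - ρ (s ^ k') y₀) - (k * μ y₀ - ρ (s ^ k) y₀) - μ y₀ =
      -(ρ (s ^ k') y₀ - ρ (s ^ (k + 1)) y₀ - ρ (s ^ m) y₀) -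
        (ρ (s ^ (k + 1)) y₀ - ρ s y - ρ (s ^ k) y₀) -
        (ρ (s ^ m) y₀ - (k' - (k + 1)) * μ y₀) := by ring
  rw [c7]
  exact c5

end Pool.Agent.SOR.H76
end
end -- Pool.Agent.Helper76_SOR.GAU

section -- Pool.Agent.Helper77_SOR.TTT

/-!
# TTT: the value of `τ` at `T`
-/

set_option autoImplicit false

open scoped BigOperators

noncomputable section

namespace Pool.Agent.SOR.H77

variable {Y : Type} {i : Fr →* Equiv.Perm Y} {u : Fr → Y → ℚ}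

theorem cx_one (h : Cx i u) (y : Y) : u 1 y = 0 := by
  have h1 := h 1 1 y
  rw [mul_one, map_one, Equiv.Perm.one_apply] at h1
  linarith

theorem sum_hom [Fintype Y] (h : Cx i u) (g k : Fr) :
    ∑ y, u (g * k) y = ∑ y, u g y + ∑ y, u k y := by
  rw [Finset.sum_congr rfl fun y _ => h g k y, Finset.sum_add_distrib,
    Equiv.sum_comp (i k) (u g)]

theorem sum_inv [Fintype Y] (h : Cx i u) (g : Fr) : ∑ y, u g⁻¹ y = - ∑ y, u g y := by
  have h1 := sum_hom h g g⁻¹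
  rw [mul_inv_cancel, Finset.sum_congr rfl fun y _ => cx_one h y, Finset.sum_const_zero] at h1
  linarith

theorem sum_C [Fintype Y] (h : Cx i u) : ∑ y, u lC y = 0 := by
  unfold lC
  rw [sum_hom h, sum_hom h, sum_hom h, sum_inv h, sum_inv h]
  ring

/-- the transport by `T` of an exact cocycle -/
theorem tw_T (h : Cx i u) (w : Fr) (y : Y) :
    tw (MulAut.conj lC) (i lC) u w y = u w y + u lC⁻¹ (i w y) - u lC⁻¹ y := by
  unfold tw
  have e1 : (MulAut.conj lC)⁻¹ w = lC⁻¹ * (w * lC) := by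
    rw [← map_inv, MulAut.conj_apply, inv_inv, mul_assoc]
  have e2 : i lC ((i lC)⁻¹ y) = y := (i lC).apply_symm_apply y
  have e3 : i (w * lC) ((i lC)⁻¹ y) = i w y := by
    rw [map_mul, Equiv.Perm.mul_apply, e2]
  have e4 : u (lC * lC⁻¹) y = 0 := by
    rw [mul_inv_cancel]
    exact cx_one h y
  have e5 := h lC lC⁻¹ y
  rw [e4, map_inv] at e5
  rw [e1, h, e3, h, e2]
  linarith

theorem ttt (hI : IvfStmt) : TttStmt := by
  classical
  intro Y _ R i x₁ x₂ h₁ h₂ hB r₁ r₂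
  obtain ⟨-, -, -, -, hv, hvi, -⟩ := hI Y i
  have hact : ∀ w y, (i lC) (i w y) = i (MulAut.conj lC w) ((i lC) y) := by
    intro w y
    rw [MulAut.conj_apply, ← Equiv.Perm.mul_apply, ← Equiv.Perm.mul_apply, ← map_mul, ← map_mul]
    congr 2
    group
  have hfix : MulAut.conj lC lC = lC := by
    rw [MulAut.conj_apply]
    group
  have hinv : ∀ (h : Y → ℚ), (∀ y, h (i lC y) = h y) → ∀ y, h ((i lC)⁻¹ y) = h y := by
    intro h hh y
    have h1 := hh ((i lC)⁻¹ y)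
    have h2 : i lC ((i lC)⁻¹ y) = y := (i lC).apply_symm_apply y
    rw [h2] at h1
    exact h1.symm
  -- the function `j`
  have hx : ∀ (x : Fr → Y → ℚ) (h : Y → ℚ), Cx i x → (∀ y, h (i lC y) = h y) → ∀ (r : ℚ) w y,
      tw (MulAut.conj lC) (i lC) x w y - x w y - dl i (fun y => -(h y + r)) w y =
        dl i (fun y => h ((i lC)⁻¹ y) - x lC ((i lC)⁻¹ y)) w y := by
    intro x h hxx hh r w y
    rw [tw_T hxx]
    unfold dl
    have e5 : ∀ z, x lC⁻¹ z = - x lC ((i lC)⁻¹ z) := by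
      intro z
      have h1 := hxx lC lC⁻¹ z
      rw [mul_inv_cancel, cx_one hxx, map_inv] at h1
      linarith
    simp only [e5, hinv h hh]
    ring
  have hj : ∀ (x : Fr → Y → ℚ) (h : Y → ℚ), (∀ y, x lC y - h y ∈ R) → ∀ w y,
      dl i (fun y => h ((i lC)⁻¹ y) - x lC ((i lC)⁻¹ y)) w y ∈ R := by
    intro x h hh w y
    unfold dl
    have h1 := R.neg_mem (hh ((i lC)⁻¹ (i w y)))
    have h2 := R.neg_mem (hh ((i lC)⁻¹ y))
    have h3 := R.sub_mem h1 h2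
    rw [neg_sub, neg_sub] at h3
    exact h3
  refine ⟨⟨hact, hfix, hB.hc₁, hB.hc₂, ?_, ?_, ?_, ?_⟩, ?_⟩
  · intro w y
    rw [hx x₁ h₁ hB.ex₁ hB.hc₁]
    exact hj x₁ h₁ hB.xc₁ w y
  · intro w y
    rw [hx x₂ h₂ hB.ex₂ hB.hc₂]
    exact hj x₂ h₂ hB.xc₂ w y
  · intro y
    rw [hB.hc₁, sub_self]
    exact R.zero_mem
  · intro y
    rw [hB.hc₂]
  · have he : eps i x₂ (MulAut.conj lC) (i lC) (fun y => -(h₂ y + r₂)) =
        dl i (fun y => h₂ ((i lC)⁻¹ y) - x₂ lC ((i lC)⁻¹ y)) := by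
      funext w y
      exact hx x₂ h₂ hB.ex₂ hB.hc₂ r₂ w y
    have hT1 := (hvi (MulAut.conj lC) (i lC) hact hfix x₁ x₁ hB.ex₁ hB.ex₁).1
    have hI1 : Iv i (tw (MulAut.conj lC) (i lC) x₁)
        (dl i (fun y => h₂ ((i lC)⁻¹ y) - x₂ lC ((i lC)⁻¹ y))) =
        - ∑ y, x₁ lC y * (h₂ y - x₂ lC y) := by
      rw [hv _ _ hT1]
      congr 1
      rw [← Equiv.sum_comp (i lC)⁻¹ (fun y => x₁ lC y * (h₂ y - x₂ lC y))]
      apply Finset.sum_congr rfl
      intro y _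
      congr 1
      unfold tw
      have : (MulAut.conj lC)⁻¹ lC = lC := by
        rw [← map_inv, MulAut.conj_apply]
        group
      rw [this]
    have hs := sum_C hB.ex₂
    have key : tau i x₁ x₂ h₁ h₂ (MulAut.conj lC) (i lC) (fun y => -(h₁ y + r₁))
        (fun y => -(h₂ y + r₂)) - ∑ y, ((h₁ y + r₁) * (h₂ y + r₂) - r₁ * r₂) =
        ∑ y, (x₁ lC y - h₁ y) * (x₂ lC y - h₂ y) := by
      unfold tau
      rw [he, hI1]
      have e1 : ∑ y, (x₁ lC y - h₁ y) * (x₂ lC y - h₂ y) =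
          ∑ y, ((x₁ lC y - h₁ y) * (x₂ lC y - h₂ y) - r₁ * x₂ lC y) := by
        rw [Finset.sum_sub_distrib, ← Finset.mul_sum, hs]
        ring
      rw [e1, ← Finset.sum_neg_distrib, ← Finset.sum_sub_distrib, ← Finset.sum_sub_distrib,
        ← Finset.sum_sub_distrib]
      apply Finset.sum_congr rfl
      intro y _
      ring
    rw [key]
    exact R.sum_mem fun y _ => R.mul_mem (hB.xc₁ y) (hB.xc₂ y)

end Pool.Agent.SOR.H77
end
end -- Pool.Agent.Helper77_SOR.TTT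

section -- Pool.Agent.Helper81_SOR.MOB

/-!
# MOB (squad SOR): Möbius inversion on the subgroups of a finite group
-/

open scoped BigOperators

noncomputable section

namespace Pool.Agent.SOR.H81

open Classical in
theorem mob : MobStmt := by
  intro L _ _ Φ
  have wf : WellFounded (fun a b : Subgroup L => a < b) := wellFounded_lt
  let Φ' : Subgroup L → ℚ := wf.fix (fun Λ ih => Φ Λ - ∑ Λ' : {Λ' : Subgroup L // Λ' < Λ},
    ih Λ'.1 Λ'.2)
  have hfix : ∀ Λ, Φ' Λ = Φ Λ - ∑ Λ' ∈ Finset.univ.filter (· < Λ), Φ' Λ' := by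
    intro Λ
    have h1 : Φ' Λ = Φ Λ - ∑ Λ' : {Λ' : Subgroup L // Λ' < Λ}, Φ' Λ'.1 := by
      show wf.fix _ Λ = _
      rw [WellFounded.fix_eq]
    rw [h1]
    congr 1
    symm
    apply Finset.sum_subtype
    intro x
    simp
  have hsum : ∀ Λ, ∑ Λ' ∈ Finset.univ.filter (· ≤ Λ), Φ' Λ' = Φ Λ := by
    intro Λ
    have h1 : Finset.univ.filter (· ≤ Λ) = insert Λ (Finset.univ.filter (· < Λ)) := by
      ext x
      simp only [Finset.mem_filter, Finset.mem_univ, true_and, Finset.mem_insert]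
      exact le_iff_eq_or_lt
    rw [h1, Finset.sum_insert (by simp), hfix Λ]
    ring
  refine ⟨Φ', hsum, ?_, ?_, ?_⟩
  · intro S hS Λ
    induction Λ using wf.induction with
    | _ Λ ih =>
      rw [hfix Λ]
      apply S.sub_mem (hS Λ)
      apply S.sum_mem
      intro Λ' h'
      exact ih Λ' (Finset.mem_filter.1 h').2
  · intro Λ
    induction Λ using wf.induction with
    | _ Λ ih =>
      intro h
      rw [hfix Λ, h Λ le_rfl, zero_sub, neg_eq_zero]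
      apply Finset.sum_eq_zero
      intro Λ' h'
      have hlt := (Finset.mem_filter.1 h').2
      exact ih Λ' hlt (fun Λ'' h'' => h Λ'' (h''.trans hlt.le))
  · intro X _ St w
    have h1 : ∀ x, w x * (Φ (St x) : ℂ) =
        ∑ Λ, if Λ ≤ St x then (Φ' Λ : ℂ) * w x else 0 := by
      intro x
      rw [← hsum (St x), Rat.cast_sum, Finset.mul_sum, Finset.sum_filter]
      apply Finset.sum_congr rfl
      intro Λ _
      split_ifs
      · ring
      · rfl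
    rw [Finset.sum_congr rfl (fun x _ => h1 x), Finset.sum_comm]
    apply Finset.sum_congr rfl
    intro Λ _
    rw [Finset.mul_sum, Finset.sum_filter]

end Pool.Agent.SOR.H81
end
end -- Pool.Agent.Helper81_SOR.MOB

section -- Pool.Agent.Helper81_SOR.XRE

/-!
# XRE (squad SOR): the relation for a set with a free action of a finite abelian group
-/

open scoped BigOperators

noncomputable section

namespace Pool.Agent.SOR.H81

/-- the quotient by the free action of `P` -/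
theorem quo (Γ P X : Type) [Group Γ] [CommGroup P] [Finite P] [Fintype X]
    (i : Γ →* Equiv.Perm X) (q : P →* Equiv.Perm X)
    (hc : ∀ g p x, i g (q p x) = q p (i g x)) (hf : ∀ p x, q p x = x → p = 1) :
    ∃ (Y : Type) (_ : Fintype Y) (j : Γ →* Equiv.Perm Y) (s : Y → X) (c : Γ → Y → P),
      (∀ g y, i g (s y) = q (c g y) (s (j g y))) ∧
      (∀ g h y, c (g * h) y = c g (j h y) * c h y) ∧
      (∀ g p, (∀ x, i g x = q p x) → j g = 1 ∧ ∀ y, c g y = p) ∧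
      (∀ F : X → ℚ, (∀ p x, F (q p x) = F x) → ∑ x, F x = (Nat.card P : ℚ) * ∑ y, F (s y)) := by
  classical
  let S : Setoid X :=
    { r := fun x x' => ∃ p, q p x = x'
      iseqv :=
        { refl := fun x => ⟨1, by simp⟩
          symm := by
            rintro x x' ⟨p, rfl⟩
            refine ⟨p⁻¹, ?_⟩
            rw [← Equiv.Perm.mul_apply, ← map_mul, inv_mul_cancel, map_one, Equiv.Perm.one_apply]
          trans := by
            rintro x x' x'' ⟨p, rfl⟩ ⟨p', rfl⟩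
            refine ⟨p' * p, ?_⟩
            rw [map_mul, Equiv.Perm.mul_apply] } }
  let Y : Type := Quotient S
  have : Finite Y := Quotient.finite S
  have fY : Fintype Y := Fintype.ofFinite Y
  have huniq : ∀ p p' x, q p x = q p' x → p = p' := by
    intro p p' x h
    have h1 : q (p'⁻¹ * p) x = x := by
      rw [map_mul, Equiv.Perm.mul_apply, h, ← Equiv.Perm.mul_apply, ← map_mul, inv_mul_cancel,
        map_one, Equiv.Perm.one_apply]
    have h2 := hf _ _ h1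
    exact (inv_mul_eq_one.1 h2).symm
  let f : Γ → Y → Y := fun g => Quotient.map (i g) (by
    rintro x x' ⟨p, rfl⟩
    exact ⟨p, (hc g p x).symm⟩)
  have hfm : ∀ g x, f g (Quotient.mk S x) = Quotient.mk S (i g x) := fun g x => rfl
  have hf1 : ∀ y, f 1 y = y := by
    intro y
    induction y using Quotient.inductionOn with
    | _ x => rw [hfm, map_one, Equiv.Perm.one_apply]
  have hf2 : ∀ g h y, f (g * h) y = f g (f h y) := by
    intro g h y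
    induction y using Quotient.inductionOn with
    | _ x => rw [hfm, hfm, hfm, map_mul, Equiv.Perm.mul_apply]
  let j : Γ →* Equiv.Perm Y :=
    { toFun := fun g =>
        { toFun := f g
          invFun := f g⁻¹
          left_inv := fun y => by rw [← hf2, inv_mul_cancel, hf1]
          right_inv := fun y => by rw [← hf2, mul_inv_cancel, hf1] }
      map_one' := by
        ext y
        exact hf1 y
      map_mul' := by
        intro g h
        ext y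
        exact hf2 g h y }
  have hj : ∀ g x, j g (Quotient.mk S x) = Quotient.mk S (i g x) := fun g x => rfl
  let s : Y → X := Quotient.out
  have hs : ∀ y, Quotient.mk S (s y) = y := Quotient.out_eq
  have hex : ∀ g y, ∃ p, i g (s y) = q p (s (j g y)) := by
    intro g y
    have h1 : Quotient.mk S (s (j g y)) = Quotient.mk S (i g (s y)) := by
      rw [hs, ← hj, hs]
    obtain ⟨p, hp⟩ := Quotient.exact h1
    exact ⟨p, hp.symm⟩
  choose c hcc using hex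
  refine ⟨Y, fY, j, s, c, hcc, ?_, ?_, ?_⟩
  · intro g h y
    apply huniq _ _ (s (j (g * h) y))
    rw [← hcc, map_mul, Equiv.Perm.mul_apply, hcc h y, hc, hcc g, mul_comm (c g (j h y)),
      map_mul, Equiv.Perm.mul_apply, map_mul, Equiv.Perm.mul_apply]
  · intro g p hg
    have h1 : j g = 1 := by
      ext y
      rw [Equiv.Perm.one_apply]
      induction y using Quotient.inductionOn with
      | _ x =>
        rw [hj, hg x]
        apply Quotient.sound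
        refine ⟨p⁻¹, ?_⟩
        rw [← Equiv.Perm.mul_apply, ← map_mul, inv_mul_cancel, map_one, Equiv.Perm.one_apply]
    refine ⟨h1, ?_⟩
    intro y
    apply huniq _ _ (s y)
    have h2 := hcc g y
    rw [h1, Equiv.Perm.one_apply] at h2
    rw [← h2, hg]
  · intro F hF
    have : Fintype P := Fintype.ofFinite P
    have hbij : Function.Bijective (fun z : P × Y => q z.1 (s z.2)) := by
      constructor
      · rintro ⟨p, y⟩ ⟨p', y'⟩ h
        have h' : q p (s y) = q p' (s y') := h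
        have hy : y = y' := by
          rw [← hs y, ← hs y']
          have e1 : Quotient.mk S (s y) = Quotient.mk S (q p (s y)) := Quotient.sound ⟨p, rfl⟩
          have e2 : Quotient.mk S (s y') = Quotient.mk S (q p' (s y')) := Quotient.sound ⟨p', rfl⟩
          rw [e1, e2, h']
        subst hy
        rw [huniq _ _ _ h']
      · intro x
        have h1 : Quotient.mk S (s (Quotient.mk S x)) = Quotient.mk S x := hs _
        obtain ⟨p, hp⟩ := Quotient.exact h1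
        exact ⟨(p, Quotient.mk S x), hp⟩
    rw [← hbij.sum_comp F, Fintype.sum_prod_type]
    have h2 : ∀ p : P, ∑ y : Y, F (q (p, y).1 (s (p, y).2)) = ∑ y : Y, F (s y) := by
      intro p
      apply Finset.sum_congr rfl
      intro y _
      exact hF p (s y)
    rw [Finset.sum_congr rfl (fun p _ => h2 p), Finset.sum_const, Finset.card_univ,
      Nat.card_eq_fintype_card, nsmul_eq_mul]

theorem xre (hrel : RelStmt) : XreStmt := by
  intro Γ P X _ _ _ _ R D i q p₀ hc hTs hf r₁ r₂ hr₁ hr₂ κ₁ κ₂ μ₁ μ₂ η ζ δ m hF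
  obtain ⟨Y, fY, j, s, c, hcs, hcm, hct, hsum⟩ := quo Γ P X i q hc hf
  obtain ⟨hjT, hcT⟩ := hct D.Ts p₀ (fun x => by rw [hTs])
  -- invariant functions
  have hP : ∀ F : X → ℚ, (∀ p x, F (q p x) = F x) → ∀ g y, F (s (j g y)) = F (i g (s y)) := by
    intro F hF' g y
    rw [hcs g y, hF']
  have pκ₁ := hF.pinv κ₁ (by simp)
  have pκ₂ := hF.pinv κ₂ (by simp)
  have pμ₁ := hF.pinv μ₁ (by simp)
  have pμ₂ := hF.pinv μ₂ (by simp)
  have pη := hF.pinv η (by simp)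
  have pζ := hF.pinv ζ (by simp)
  have pδ := hF.pinv δ (by simp)
  have pm := hF.pinv m (by simp)
  have aκ₁ := hF.ainv κ₁ (by simp)
  have aκ₂ := hF.ainv κ₂ (by simp)
  have aμ₁ := hF.ainv μ₁ (by simp)
  have aμ₂ := hF.ainv μ₂ (by simp)
  have aη := hF.ainv η (by simp)
  have aζ := hF.ainv ζ (by simp)
  have aδ := hF.ainv δ (by simp)
  have am := hF.ainv m (by simp)
  have bκ₁ := hF.binv κ₁ (by simp)
  have bκ₂ := hF.binv κ₂ (by simp)
  have Aμ₁ := hF.Ainv μ₁ (by simp)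
  have Aμ₂ := hF.Ainv μ₂ (by simp)
  have Aη := hF.Ainv η (by simp)
  have Aζ := hF.Ainv ζ (by simp)
  have A'μ₁ := hF.A'inv μ₁ (by simp)
  have A'μ₂ := hF.A'inv μ₂ (by simp)
  have Tδ := hF.Tinv δ (by simp)
  have Tm := hF.Tinv m (by simp)
  -- the subgroup of the invariances
  have hinv : ∀ (F : X → ℚ) (g : Γ), (∀ x, F (i g x) = F x) → ∀ x, F (i g⁻¹ x) = F x := by
    intro F g h x
    rw [← h (i g⁻¹ x), ← Equiv.Perm.mul_apply, ← map_mul, mul_inv_cancel, map_one,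
      Equiv.Perm.one_apply]
  have hmul : ∀ (F : X → ℚ) (g h : Γ), (∀ x, F (i g x) = F x) → (∀ x, F (i h x) = F x) →
      ∀ x, F (i (g * h) x) = F x := by
    intro F g h hg hh x
    rw [map_mul, Equiv.Perm.mul_apply, hg, hh]
  have hpow : ∀ (F : X → ℚ) (g : Γ), (∀ x, F (i g x) = F x) → ∀ (n : ℕ) x,
      F (i (g ^ n) x) = F x := by
    intro F g hg n
    induction n with
    | zero => intro x; rw [pow_zero, map_one, Equiv.Perm.one_apply]
    | succ n ih => rw [pow_succ]; exact hmul F _ _ ih hg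
  have Tκ₁ : ∀ x, κ₁ (i D.T x) = κ₁ x := hpow κ₁ _ (hmul κ₁ _ _ aκ₁ bκ₁) 6
  have Tκ₂ : ∀ x, κ₂ (i D.T x) = κ₂ x := hpow κ₂ _ (hmul κ₂ _ _ aκ₂ bκ₂) 6
  have hTe : D.T = D.A'⁻¹ * D.A * D.Ts := by
    unfold Bd.T Bd.A'
    rw [D.r6]
    group
  have Tof : ∀ F : X → ℚ, (∀ p x, F (q p x) = F x) → (∀ x, F (i D.A x) = F x) →
      (∀ x, F (i D.A' x) = F x) → ∀ x, F (i D.T x) = F x := by
    intro F hp hA hA' x
    rw [hTe]
    exact hmul F _ _ (hmul F _ _ (hinv F _ hA') hA) (fun x => by rw [hTs]; exact hp _ _) x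
  have Tμ₁ := Tof μ₁ pμ₁ Aμ₁ A'μ₁
  have a3of : ∀ F : X → ℚ, (∀ x, F (i D.a x) = F x) → (∀ x, F (i D.A x) = F x) →
      ∀ x, F (i D.a3 x) = F x := by
    intro F ha hA
    exact hmul F _ _ (hinv F _ hA) ha
  -- `ν`
  have hBA : D.B⁻¹ * D.A = D.A' * D.B⁻¹ := by
    unfold Bd.A'
    group
  have hBa3 : D.B⁻¹ * D.a3 = D.a * D.B⁻¹ := by
    unfold Bd.a3
    have h1 : D.A⁻¹ * D.a * D.B = D.B * D.a := by
      rw [mul_assoc, D.r3]
      group
    calc D.B⁻¹ * (D.A⁻¹ * D.a) = D.B⁻¹ * (D.A⁻¹ * D.a * D.B) * D.B⁻¹ := by group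
      _ = D.B⁻¹ * (D.B * D.a) * D.B⁻¹ := by rw [h1]
      _ = D.a * D.B⁻¹ := by group
  have hae : D.a = D.A * D.a3 := by
    unfold Bd.a3
    group
  have νA : ∀ F : X → ℚ, (∀ x, F (i D.A' x) = F x) → ∀ x,
      F (i D.B⁻¹ (i D.A x)) = F (i D.B⁻¹ x) := by
    intro F h x
    rw [← Equiv.Perm.mul_apply, ← map_mul, hBA, map_mul, Equiv.Perm.mul_apply, h]
  have νa3 : ∀ F : X → ℚ, (∀ x, F (i D.a x) = F x) → ∀ x,
      F (i D.B⁻¹ (i D.a3 x)) = F (i D.B⁻¹ x) := by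
    intro F h x
    rw [← Equiv.Perm.mul_apply, ← map_mul, hBa3, map_mul, Equiv.Perm.mul_apply, h]
  have νa : ∀ F : X → ℚ, (∀ x, F (i D.a x) = F x) → (∀ x, F (i D.A' x) = F x) → ∀ x,
      F (i D.B⁻¹ (i D.a x)) = F (i D.B⁻¹ x) := by
    intro F h h' x
    rw [hae, map_mul, Equiv.Perm.mul_apply, νA F h', νa3 F h]
  -- descent
  have dinv : ∀ F : X → ℚ, (∀ p x, F (q p x) = F x) → ∀ g, (∀ x, F (i g x) = F x) →
      ∀ y, F (s (j g y)) = F (s y) := by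
    intro F hp g hg y
    rw [hP F hp, hg]
  have hν : ∀ F : X → ℚ, (∀ p x, F (q p x) = F x) → ∀ y,
      F (s (j D.B⁻¹ y)) = F (i D.B⁻¹ (s y)) := fun F hp y => hP F hp _ _
  have pν : ∀ F : X → ℚ, (∀ p x, F (q p x) = F x) → ∀ p x,
      F (i D.B⁻¹ (q p x)) = F (i D.B⁻¹ x) := by
    intro F hp p x
    rw [hc, hp]
  have dν : ∀ F : X → ℚ, (∀ p x, F (q p x) = F x) → ∀ g,
      (∀ x, F (i D.B⁻¹ (i g x)) = F (i D.B⁻¹ x)) →
      ∀ y, F (s (j D.B⁻¹ (j g y))) = F (s (j D.B⁻¹ y)) := by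
    intro F hp g hg y
    rw [hν F hp, hν F hp, hP (fun x => F (i D.B⁻¹ x)) (pν F hp) g y]
    exact hg (s y)
  have hfix : ∀ g y, j g y = y → i g (s y) = q (c g y) (s y) := by
    intro g y hy
    have := hcs g y
    rwa [hy] at this
  have key := hrel Γ Y R D j hjT (fun g y => r₁ (c g y)) (fun g y => r₂ (c g y))
    (by
      intro g h y
      show r₁ (c (g * h) y) - r₁ (c g (j h y)) - r₁ (c h y) ∈ R
      rw [hcm]
      exact hr₁ _ _)
    (by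
      intro g h y
      show r₂ (c (g * h) y) - r₂ (c g (j h y)) - r₂ (c h y) ∈ R
      rw [hcm]
      exact hr₂ _ _)
    (r₁ p₀) (r₂ p₀) (fun y => κ₁ (s y)) (fun y => κ₂ (s y)) (fun y => μ₁ (s y))
    (fun y => μ₂ (s y)) (fun y => η (s y)) (fun y => ζ (s y)) (fun y => δ (s y))
    (fun y => m (s y))
    (by intro y; show r₁ (c D.Ts y) - r₁ p₀ ∈ R; rw [hcT, sub_self]; exact R.zero_mem)
    (by intro y; show r₂ (c D.Ts y) - r₂ p₀ ∈ R; rw [hcT, sub_self]; exact R.zero_mem)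
    ⟨dinv κ₁ pκ₁ _ Tκ₁, fun y k hy => hF.k₁ (s y) k _ (hfix _ _ hy)⟩
    ⟨dinv κ₂ pκ₂ _ Tκ₂, fun y k hy => hF.k₂ (s y) k _ (hfix _ _ hy)⟩
    (dinv κ₁ pκ₁ _ aκ₁) (dinv κ₁ pκ₁ _ bκ₁) (dinv κ₂ pκ₂ _ aκ₂) (dinv κ₂ pκ₂ _ bκ₂)
    ⟨dinv μ₁ pμ₁ _ aμ₁, fun y k hy => hF.m₁ (s y) k _ (hfix _ _ hy)⟩
    ⟨dinv μ₂ pμ₂ _ aμ₂, fun y k hy => hF.m₂ (s y) k _ (hfix _ _ hy)⟩
    (dinv μ₁ pμ₁ _ Aμ₁) (dinv μ₁ pμ₁ _ A'μ₁) (dinv μ₂ pμ₂ _ Aμ₂) (dinv μ₂ pμ₂ _ A'μ₂)
    ⟨fun y => by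
        show μ₁ (s (j D.a y)) - η (s (j D.a y)) = μ₁ (s y) - η (s y)
        rw [dinv μ₁ pμ₁ _ aμ₁, dinv η pη _ aη],
      fun y => by
        show μ₁ (s (j D.a3 y)) - η (s (j D.a3 y)) = μ₁ (s y) - η (s y)
        rw [dinv μ₁ pμ₁ _ (a3of _ aμ₁ Aμ₁), dinv η pη _ (a3of _ aη Aη)],
      dν μ₁ pμ₁ _ (νa _ aμ₁ A'μ₁), dν μ₁ pμ₁ _ (νa3 _ aμ₁),
      fun y k l hy => by
        have := hF.e₁ (s y) k l _ (hfix _ _ hy)
        show r₁ _ - k * (μ₁ (s y) - η (s y)) - l * μ₁ (s (j D.B⁻¹ y)) ∈ R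
        rw [hν μ₁ pμ₁]
        exact this⟩
    ⟨dinv μ₂ pμ₂ _ aμ₂, dinv μ₂ pμ₂ _ (a3of _ aμ₂ Aμ₂),
      fun y => by
        show μ₂ (s (j D.B⁻¹ (j D.a y))) - ζ (s (j D.a y)) = μ₂ (s (j D.B⁻¹ y)) - ζ (s y)
        rw [dν μ₂ pμ₂ _ (νa _ aμ₂ A'μ₂), dinv ζ pζ _ aζ],
      fun y => by
        show μ₂ (s (j D.B⁻¹ (j D.a3 y))) - ζ (s (j D.a3 y)) = μ₂ (s (j D.B⁻¹ y)) - ζ (s y)
        rw [dν μ₂ pμ₂ _ (νa3 _ aμ₂), dinv ζ pζ _ (a3of _ aζ Aζ)],
      fun y k l hy => by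
        have := hF.e₂ (s y) k l _ (hfix _ _ hy)
        show r₂ _ - k * μ₂ (s y) - l * (μ₂ (s (j D.B⁻¹ y)) - ζ (s y)) ∈ R
        rw [hν μ₂ pμ₂]
        exact this⟩
    ⟨dinv μ₁ pμ₁ _ aμ₁, dinv μ₁ pμ₁ _ Tμ₁,
      fun y => by
        show κ₁ (s (j D.a y)) + δ (s (j D.a y)) = κ₁ (s y) + δ (s y)
        rw [dinv κ₁ pκ₁ _ aκ₁, dinv δ pδ _ aδ],
      fun y => by
        show κ₁ (s (j D.T y)) + δ (s (j D.T y)) = κ₁ (s y) + δ (s y)
        rw [dinv κ₁ pκ₁ _ Tκ₁, dinv δ pδ _ Tδ],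
      fun y k l hy => hF.t₁ (s y) k l _ (hfix _ _ hy)⟩
    ⟨dinv m pm _ am, dinv m pm _ Tm, dinv κ₂ pκ₂ _ aκ₂, dinv κ₂ pκ₂ _ Tκ₂,
      fun y k l hy => hF.t₂ (s y) k l _ (hfix _ _ hy)⟩
  -- the sum
  have hS := hsum (fun x => r₁ p₀ * r₂ p₀ - κ₁ x * κ₂ x -
    12 * ((μ₁ x - μ₁ (i D.B⁻¹ x)) * (μ₂ x - μ₂ (i D.B⁻¹ x)) + η x * ζ x -
      (μ₂ x - m x) * δ x + (r₁ p₀ - κ₁ x) * μ₂ x + μ₁ x * (r₂ p₀ - κ₂ x))) (by
    intro p x
    show r₁ p₀ * r₂ p₀ - κ₁ (q p x) * κ₂ (q p x) -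
      12 * ((μ₁ (q p x) - μ₁ (i D.B⁻¹ (q p x))) * (μ₂ (q p x) - μ₂ (i D.B⁻¹ (q p x))) +
      η (q p x) * ζ (q p x) - (μ₂ (q p x) - m (q p x)) * δ (q p x) +
      (r₁ p₀ - κ₁ (q p x)) * μ₂ (q p x) + μ₁ (q p x) * (r₂ p₀ - κ₂ (q p x))) = _
    rw [pκ₁, pκ₂, pμ₁, pμ₂, pη, pζ, pδ, pm, pν μ₁ pμ₁, pν μ₂ pμ₂])
  have hne : (Nat.card P : ℚ) ≠ 0 := by
    have : 0 < Nat.card P := Nat.card_pos
    exact_mod_cast this.ne'
  rw [hS, mul_div_cancel_left₀ _ hne]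
  have hk : ∑ y, (r₁ p₀ * r₂ p₀ - κ₁ (s y) * κ₂ (s y) -
      12 * ((μ₁ (s y) - μ₁ (i D.B⁻¹ (s y))) * (μ₂ (s y) - μ₂ (i D.B⁻¹ (s y))) +
      η (s y) * ζ (s y) - (μ₂ (s y) - m (s y)) * δ (s y) + (r₁ p₀ - κ₁ (s y)) * μ₂ (s y) +
      μ₁ (s y) * (r₂ p₀ - κ₂ (s y)))) =
    ∑ y, (r₁ p₀ * r₂ p₀ - κ₁ (s y) * κ₂ (s y)) -
    12 * ∑ y, ((μ₁ (s y) - μ₁ (s (j D.B⁻¹ y))) * (μ₂ (s y) - μ₂ (s (j D.B⁻¹ y))) +
      η (s y) * ζ (s y) - (μ₂ (s y) - m (s y)) * δ (s y) + (r₁ p₀ - κ₁ (s y)) * μ₂ (s y) +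
      μ₁ (s y) * (r₂ p₀ - κ₂ (s y))) := by
    rw [Finset.mul_sum, ← Finset.sum_sub_distrib]
    apply Finset.sum_congr rfl
    intro y _
    rw [hν μ₁ pμ₁, hν μ₂ pμ₂]
  rw [hk]
  exact key

end Pool.Agent.SOR.H81
end
end -- Pool.Agent.Helper81_SOR.XRE

section -- Pool.Agent.Helper82_SOR.OOT

/-!
# Squad SOR, row OOT: the sum over the orbits of `⟨a, T⟩`
-/

open scoped BigOperators

noncomputable section

namespace Pool.Agent.SOR.H82

theorem av_comm {Y : Type} (s t : Equiv.Perm Y) (hst : s * t = t * s) (f : Y → ℚ) (y : Y) :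
    av s t f y = av t s f y := by
  unfold av
  rw [Finset.sum_comm, mul_comm (orderOf s : ℚ) (orderOf t : ℚ)]
  congr 1
  apply Finset.sum_congr rfl
  intro l _
  apply Finset.sum_congr rfl
  intro k _
  have h : Commute s t := hst
  rw [(h.pow_pow k l).eq]

theorem aT {Γ : Type} [Group Γ] (D : Bd Γ) : D.a * D.T = D.T * D.a := by
  have h1 := D.r1
  have h2 : (D.a * D.b * D.a) * D.a = D.b * (D.a * D.b * D.a) := by
    rw [h1]
    simp only [mul_assoc]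
    rw [← mul_assoc D.a D.b D.a, h1]
    simp only [mul_assoc]
  have h3 : (D.a * D.b * D.a) * D.b = D.a * (D.a * D.b * D.a) := by
    calc (D.a * D.b * D.a) * D.b = D.a * (D.b * D.a * D.b) := by simp only [mul_assoc]
      _ = D.a * (D.a * D.b * D.a) := by rw [← h1]
  have h4 : D.T = (D.a * D.b * D.a) ^ 4 := by
    have h5 : (D.a * D.b) ^ 3 = (D.a * D.b * D.a) ^ 2 := by
      calc (D.a * D.b) ^ 3 = (D.a * D.b * D.a) * (D.b * D.a * D.b) := by
            simp only [pow_succ, pow_zero, one_mul, mul_assoc]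
        _ = (D.a * D.b * D.a) ^ 2 := by rw [← h1, sq]
    unfold Bd.T
    rw [show (6 : ℕ) = 3 * 2 from rfl, pow_mul, h5, ← pow_mul]
  have h6 : (D.a * D.b * D.a) ^ 2 * D.a = D.a * (D.a * D.b * D.a) ^ 2 := by
    rw [sq, mul_assoc, h2, ← mul_assoc, h3, mul_assoc]
  have h7 : Commute ((D.a * D.b * D.a) ^ 2) D.a := h6
  have h8 := h7.pow_left 2
  rw [← pow_mul] at h8
  rw [h4]
  exact h8.eq.symm

theorem oot (hAVE : AveStmt) (hHOL : HolStmt) (hIND : IndStmt) : OotStmt := by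
  intro Γ Y _ _ R D i ρ₁ ρ₂ hρ₁ hρ₂ μ₁ μ₂ κ₁ κ₂ hμ₁a hμ₁T hμ₂T hκ₁a hκ₂a hκ₂T hμ₁ hHμ₂ hHκ₁ hκ₂
    Δ g hΔa hΔ hgT hg δ m hE₁ hE₂
  have haT := aT D
  have hc : i D.a * i D.T = i D.T * i D.a := by rw [← map_mul, haT, map_mul]
  have hc' : ∀ y, i D.a (i D.T y) = i D.T (i D.a y) := fun y => by
    have := congrArg (fun p : Equiv.Perm Y => p y) hc
    simpa using this
  obtain ⟨A1, A2, A3, -, A5, -, -⟩ := hAVE Y (i D.a) (i D.T) hc
  obtain ⟨B1, -, -, -, -, B6, B7⟩ := hAVE Y (i D.T) (i D.a) hc.symm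
  have hμ₂a : ∀ y, μ₂ (i D.a y) = μ₂ y := hHμ₂.inv
  have hκ₁T : ∀ y, κ₁ (i D.T y) = κ₁ y := hHκ₁.inv
  set G : Y → ℚ := av (i D.a) (i D.T) g with hG
  set E : Y → ℚ := av (i D.a) (i D.T) Δ with hEdef
  -- the first exact pair
  have hX₁ : Ex R i ρ₁ D.a D.T μ₁ (fun y => κ₁ y + E y) := by
    have h := hHOL Γ Y R i ρ₁ hρ₁ D.a D.T haT μ₁ (fun y => κ₁ y + Δ y) hμ₁a hμ₁T hμ₁
      (fun y => by simp only [hκ₁a, hΔa]) hΔ
    have h2 : av (i D.a) (i D.T) (fun y => κ₁ y + Δ y) = fun y => κ₁ y + E y := by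
      funext y
      rw [A5 κ₁ Δ y, A2 κ₁ hκ₁a hκ₁T y]
    rw [h2] at h
    exact h
  -- the second exact pair
  have hone : ∀ y, ρ₂ 1 y ∈ R := by
    intro y
    have h := hρ₂ 1 1 y
    rw [mul_one, map_one, Equiv.Perm.one_apply] at h
    have h2 := R.neg_mem h
    have h3 : -(ρ₂ 1 y - ρ₂ 1 y - ρ₂ 1 y) = ρ₂ 1 y := by ring
    rwa [h3] at h2
  have hX₂ : Ex R i ρ₂ D.T D.a κ₂ (fun y => - G y) := by
    have h := hHOL Γ Y R i ρ₂ hρ₂ D.T D.a haT.symm κ₂ (fun y => - g (i D.a y)) hκ₂T hκ₂a hκ₂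
      (fun y => by rw [hc' y, hgT]) (fun y => by
        have h1 := hρ₂ D.a⁻¹ D.a y
        rw [inv_mul_cancel] at h1
        have h2 := hg (i D.a y)
        have h3 := hone y
        have h4 : ρ₂ D.a y - -g (i D.a y) =
            ρ₂ 1 y - (ρ₂ 1 y - ρ₂ D.a⁻¹ (i D.a y) - ρ₂ D.a y) -
              (ρ₂ D.a⁻¹ (i D.a y) - g (i D.a y)) := by ring
        rw [h4]
        exact R.sub_mem (R.sub_mem h3 h1) h2)
    have h2 : av (i D.T) (i D.a) (fun y => - g (i D.a y)) = fun y => - G y := by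
      funext y
      rw [B6 (fun y => g (i D.a y)) y, (B7 g y).2, hG, av_comm _ _ hc]
    rw [h2] at h
    exact h
  -- the sum
  have hs : ∑ y, Δ y * (g y + μ₂ y) = ∑ y, E y * (G y + μ₂ y) := by
    rw [A3 Δ (fun y => g y + μ₂ y) hΔa (fun y => by simp only [hgT, hμ₂T])]
    apply Finset.sum_congr rfl
    intro y _
    rw [A5 g μ₂ y, A2 μ₂ hμ₂a hμ₂T y]
  have hδa : ∀ y, δ (i D.a y) = δ y := by
    intro y
    have := hE₁.qs y
    simp only [hκ₁a] at this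
    linarith
  have hδT : ∀ y, δ (i D.T y) = δ y := by
    intro y
    have := hE₁.qt y
    simp only [hκ₁T] at this
    linarith
  have hzp : ∀ (x z : Γ) (k l : ℤ) (y : Y), ((i x) ^ k * (i z) ^ l) y = i (x ^ k * z ^ l) y := by
    intro x z k l y
    rw [map_mul, map_zpow, map_zpow]
  have hcz : ∀ k l : ℤ, D.a ^ k * D.T ^ l = D.T ^ l * D.a ^ k := by
    intro k l
    have h : Commute D.a D.T := haT
    exact (h.zpow_zpow k l).eq
  have h1 : ∑ y, (E y - δ y) * (μ₂ y + G y) ∈ R := by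
    apply hIND Y R (i D.T) (i D.a) hc.symm (fun y => E y - δ y) (fun y => μ₂ y + G y)
    · intro y
      simp only [hδT, hEdef, (A1 Δ y).2]
    · intro y
      simp only [hδa, hEdef, (A1 Δ y).1]
    · intro y
      simp only [hμ₂T, hG, (A1 g y).2]
    · intro y
      simp only [hμ₂a, hG, (A1 g y).1]
    · intro y k l hy
      rw [hzp, ← hcz l k] at hy
      have h1 := hX₁.ex y l k hy
      have h2 := hE₁.ex y l k hy
      have h3 : (k : ℚ) * (E y - δ y) =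
          (ρ₁ (D.a ^ l * D.T ^ k) y - l * μ₁ y - k * (κ₁ y + δ y)) -
          (ρ₁ (D.a ^ l * D.T ^ k) y - l * μ₁ y - k * (κ₁ y + E y)) := by ring
      rw [h3]
      exact R.sub_mem h2 h1
    · intro y l hy
      have hy' : i (D.a ^ l) y = y := by rw [map_zpow]; exact hy
      have h1 := hHμ₂.hol y l hy'
      have h2 := hX₂.ex y 0 l (by rw [zpow_zero, one_mul]; exact hy')
      rw [zpow_zero, one_mul] at h2
      have h3 : (l : ℚ) * (μ₂ y + G y) = (ρ₂ (D.a ^ l) y - ((0 : ℤ) : ℚ) * κ₂ y - l * (- G y)) -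
          (ρ₂ (D.a ^ l) y - l * μ₂ y) := by push_cast; ring
      rw [h3]
      exact R.sub_mem h2 h1
  have h2 : ∑ y, (G y + m y) * δ y ∈ R := by
    apply hIND Y R (i D.a) (i D.T) hc (fun y => G y + m y) δ
    · intro y
      simp only [hE₂.ps y, hG, (A1 g y).1]
    · intro y
      simp only [hE₂.pt y, hG, (A1 g y).2]
    · exact hδa
    · exact hδT
    · intro y k l hy
      rw [hzp] at hy
      have h1 := hE₂.ex y k l hy
      rw [hcz] at hy h1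
      have h2 := hX₂.ex y l k hy
      have h3 : (k : ℚ) * (G y + m y) =
          (ρ₂ (D.T ^ l * D.a ^ k) y - l * κ₂ y - k * (- G y)) -
          (ρ₂ (D.T ^ l * D.a ^ k) y - k * m y - l * κ₂ y) := by ring
      rw [h3]
      exact R.sub_mem h2 h1
    · intro y l hy
      have hy' : i (D.T ^ l) y = y := by rw [map_zpow]; exact hy
      have h1 := hHκ₁.hol y l hy'
      have h2 := hE₁.ex y 0 l (by rw [zpow_zero, one_mul]; exact hy')
      rw [zpow_zero, one_mul] at h2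
      have h3 : (l : ℚ) * δ y = (ρ₁ (D.T ^ l) y - l * κ₁ y) -
          (ρ₁ (D.T ^ l) y - ((0 : ℤ) : ℚ) * μ₁ y - l * (κ₁ y + δ y)) := by push_cast; ring
      rw [h3]
      exact R.sub_mem h1 h2
  have h3 : ∑ y, Δ y * (g y + μ₂ y) - ∑ y, (μ₂ y - m y) * δ y =
      ∑ y, (E y - δ y) * (μ₂ y + G y) + ∑ y, (G y + m y) * δ y := by
    rw [hs, ← Finset.sum_add_distrib, ← Finset.sum_sub_distrib]
    apply Finset.sum_congr rfl
    intro y _
    ring
  rw [h3]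
  exact R.add_mem h1 h2

end Pool.Agent.SOR.H82
end
end -- Pool.Agent.Helper82_SOR.OOT

section -- Pool.Agent.Helper86_SOR.TMU

/-!
# Squad SOR, row TMU: `τ` is multiplicative
-/

open scoped BigOperators

noncomputable section

namespace Pool.Agent.SOR.H86

variable {Y : Type}

theorem cx_dl (i : Fr →* Equiv.Perm Y) (f : Y → ℚ) : Cx i (dl i f) := by
  intro g h y
  unfold dl
  rw [map_mul, Equiv.Perm.mul_apply]
  ring

theorem cx_sub {i : Fr →* Equiv.Perm Y} {u v : Fr → Y → ℚ} (hu : Cx i u) (hv : Cx i v) :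
    Cx i (fun w y => u w y - v w y) := by
  intro g h y
  change u (g * h) y - v (g * h) y = (u g (i h y) - v g (i h y)) + (u h y - v h y)
  rw [hu, hv]
  ring

theorem cx_eps {i : Fr →* Equiv.Perm Y} {x : Fr → Y → ℚ} {φ : MulAut Fr} {π : Equiv.Perm Y}
    (h1 : Cx i (tw φ π x)) (h2 : Cx i x) (g : Y → ℚ) : Cx i (eps i x φ π g) :=
  cx_sub (cx_sub h1 h2) (cx_dl i g)

/-- the inverse of the action -/
theorem act_inv {i : Fr →* Equiv.Perm Y} {φ : MulAut Fr} {π : Equiv.Perm Y}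
    (h : ∀ w y, π (i w y) = i (φ w) (π y)) (w : Fr) (y : Y) :
    π⁻¹ (i w y) = i (φ⁻¹ w) (π⁻¹ y) := by
  rw [Equiv.Perm.inv_eq_iff_eq, h]
  rw [← MulAut.mul_apply, mul_inv_cancel, MulAut.one_apply, ← Equiv.Perm.mul_apply π π⁻¹,
    mul_inv_cancel, Equiv.Perm.one_apply]

theorem fix_inv {φ : MulAut Fr} (h : φ lC = lC) : φ⁻¹ lC = lC := by
  have h1 : φ⁻¹ (φ lC) = lC := by
    rw [← MulAut.mul_apply, inv_mul_cancel, MulAut.one_apply]
  rwa [h] at h1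

theorem inv_fun {h : Y → ℚ} {π : Equiv.Perm Y} (hh : ∀ y, h (π y) = h y) (y : Y) :
    h (π⁻¹ y) = h y := by
  have h1 := hh (π⁻¹ y)
  rw [← Equiv.Perm.mul_apply, mul_inv_cancel, Equiv.Perm.one_apply] at h1
  exact h1.symm

theorem tw_mul (φ φ' : MulAut Fr) (π π' : Equiv.Perm Y) (u : Fr → Y → ℚ) :
    tw (φ * φ') (π * π') u = tw φ π (tw φ' π' u) := by
  funext w y
  unfold tw
  rw [mul_inv_rev, mul_inv_rev, MulAut.mul_apply, Equiv.Perm.mul_apply]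

/-- the coboundary of a product -/
theorem dl_prod {i : Fr →* Equiv.Perm Y} {φ : MulAut Fr} {π : Equiv.Perm Y}
    (h : ∀ w y, π (i w y) = i (φ w) (π y)) (g g' : Y → ℚ) (w : Fr) (y : Y) :
    dl i (fun y => g y + g' (π⁻¹ y)) w y = dl i g w y + dl i g' (φ⁻¹ w) (π⁻¹ y) := by
  change g (i w y) + g' (π⁻¹ (i w y)) - (g y + g' (π⁻¹ y)) =
    (g (i w y) - g y) + (g' (i (φ⁻¹ w) (π⁻¹ y)) - g' (π⁻¹ y))
  rw [act_inv h]
  ring

theorem tw_dl {i : Fr →* Equiv.Perm Y} {φ : MulAut Fr} {π : Equiv.Perm Y}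
    (h : ∀ w y, π (i w y) = i (φ w) (π y)) (g : Y → ℚ) :
    tw φ π (dl i g) = dl i (fun y => g (π⁻¹ y)) := by
  funext w y
  change g (i (φ⁻¹ w) (π⁻¹ y)) - g (π⁻¹ y) = g (π⁻¹ (i w y)) - g (π⁻¹ y)
  rw [act_inv h]

/-- the translated congruence -/
theorem tr_prod {R : Subring ℚ} {i : Fr →* Equiv.Perm Y} {x : Fr → Y → ℚ} {φ φ' : MulAut Fr}
    {π π' : Equiv.Perm Y} {g g' : Y → ℚ} (h : ∀ w y, π (i w y) = i (φ w) (π y))
    (h1 : ∀ w y, tw φ π x w y - x w y - dl i g w y ∈ R)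
    (h2 : ∀ w y, tw φ' π' x w y - x w y - dl i g' w y ∈ R) (w : Fr) (y : Y) :
    tw (φ * φ') (π * π') x w y - x w y - dl i (fun y => g y + g' (π⁻¹ y)) w y ∈ R := by
  rw [tw_mul, dl_prod h]
  have h3 := R.add_mem (h2 (φ⁻¹ w) (π⁻¹ y)) (h1 w y)
  have h4 : tw φ π (tw φ' π' x) w y - x w y - (dl i g w y + dl i g' (φ⁻¹ w) (π⁻¹ y)) =
      (tw φ' π' x (φ⁻¹ w) (π⁻¹ y) - x (φ⁻¹ w) (π⁻¹ y) - dl i g' (φ⁻¹ w) (π⁻¹ y)) +
        (tw φ π x w y - x w y - dl i g w y) := by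
    change tw φ' π' x (φ⁻¹ w) (π⁻¹ y) - x w y - (dl i g w y + dl i g' (φ⁻¹ w) (π⁻¹ y)) = _
    have h5 : tw φ π x w y = x (φ⁻¹ w) (π⁻¹ y) := rfl
    rw [h5]
    ring
  rw [h4]
  exact h3

/-- the product of the data -/
theorem ad_mul {R : Subring ℚ} {i : Fr →* Equiv.Perm Y} {x₁ x₂ : Fr → Y → ℚ} {h₁ h₂ : Y → ℚ}
    {φ : MulAut Fr} {π : Equiv.Perm Y} {g₁ g₂ : Y → ℚ} {φ' : MulAut Fr} {π' : Equiv.Perm Y}
    {g₁' g₂' : Y → ℚ} (h : Ad R i x₁ x₂ h₁ h₂ φ π g₁ g₂) (h' : Ad R i x₁ x₂ h₁ h₂ φ' π' g₁' g₂') :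
    Ad R i x₁ x₂ h₁ h₂ (φ * φ') (π * π') (fun y => g₁ y + g₁' (π⁻¹ y))
      (fun y => g₂ y + g₂' (π⁻¹ y)) where
  act := by
    intro w y
    rw [Equiv.Perm.mul_apply, Equiv.Perm.mul_apply, MulAut.mul_apply, h'.act, h.act]
  fixC := by rw [MulAut.mul_apply, h'.fixC, h.fixC]
  inv₁ := by
    intro y
    rw [Equiv.Perm.mul_apply, h.inv₁, h'.inv₁]
  inv₂ := by
    intro y
    rw [Equiv.Perm.mul_apply, h.inv₂, h'.inv₂]
  tr₁ := tr_prod h.act h.tr₁ h'.tr₁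
  tr₂ := tr_prod h.act h.tr₂ h'.tr₂
  c₁ := by
    intro y
    have h3 := R.add_mem (h.c₁ y) (h'.c₁ (π⁻¹ y))
    have h4 : g₁ (i lC y) + g₁' (π⁻¹ (i lC y)) - (g₁ y + g₁' (π⁻¹ y)) =
        (g₁ (i lC y) - g₁ y) + (g₁' (i lC (π⁻¹ y)) - g₁' (π⁻¹ y)) := by
      rw [act_inv h.act, fix_inv h.fixC]
      ring
    change g₁ (i lC y) + g₁' (π⁻¹ (i lC y)) - (g₁ y + g₁' (π⁻¹ y)) ∈ R
    rw [h4]
    exact h3
  c₂ := by
    intro y
    rw [act_inv h.act, fix_inv h.fixC, h.c₂, h'.c₂]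

theorem sum_inv [Fintype Y] (π : Equiv.Perm Y) (f : Y → ℚ) : ∑ y, f (π⁻¹ y) = ∑ y, f y :=
  Equiv.sum_comp π⁻¹ f

/-- row TMU -/
theorem tmu (hIVF : IvfStmt) : TmuStmt := by
  intro Y _ R i x₁ x₂ h₁ h₂ hB φ π g₁ g₂ φ' π' g₁' g₂' h h'
  refine ⟨ad_mul h h', ?_⟩
  obtain ⟨-, Iadd, Iadd', Idl, -, Itw, IR⟩ := hIVF Y i
  have hx₁ := hB.ex₁
  have hx₂ := hB.ex₂
  -- the cocycles
  have hx₁π' : Cx i (tw φ' π' x₁) := (Itw φ' π' h'.act h'.fixC x₁ x₁ hx₁ hx₁).1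
  have hx₂π' : Cx i (tw φ' π' x₂) := (Itw φ' π' h'.act h'.fixC x₂ x₂ hx₂ hx₂).1
  have hx₁π : Cx i (tw φ π x₁) := (Itw φ π h.act h.fixC x₁ x₁ hx₁ hx₁).1
  have hx₂π : Cx i (tw φ π x₂) := (Itw φ π h.act h.fixC x₂ x₂ hx₂ hx₂).1
  have he : Cx i (eps i x₂ φ π g₂) := cx_eps hx₂π hx₂ g₂
  have he' : Cx i (eps i x₂ φ' π' g₂') := cx_eps hx₂π' hx₂ g₂'
  have hU : Cx i (tw φ π (tw φ' π' x₁)) := (Itw φ π h.act h.fixC _ _ hx₁π' hx₁π').1
  have hee' : Cx i (tw φ π (eps i x₂ φ' π' g₂')) := (Itw φ π h.act h.fixC _ _ he' he').1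
  -- the cocycle `ε` of the product
  have heps : eps i x₂ (φ * φ') (π * π') (fun y => g₂ y + g₂' (π⁻¹ y)) =
      fun w y => eps i x₂ φ π g₂ w y + tw φ π (eps i x₂ φ' π' g₂') w y := by
    funext w y
    change tw (φ * φ') (π * π') x₂ w y - x₂ w y - dl i (fun y => g₂ y + g₂' (π⁻¹ y)) w y =
      (tw φ π x₂ w y - x₂ w y - dl i g₂ w y) +
        (tw φ' π' x₂ (φ⁻¹ w) (π⁻¹ y) - x₂ (φ⁻¹ w) (π⁻¹ y) - dl i g₂' (φ⁻¹ w) (π⁻¹ y))
    rw [tw_mul, dl_prod h.act]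
    change tw φ' π' x₂ (φ⁻¹ w) (π⁻¹ y) - x₂ w y - (dl i g₂ w y + dl i g₂' (φ⁻¹ w) (π⁻¹ y)) =
      (x₂ (φ⁻¹ w) (π⁻¹ y) - x₂ w y - dl i g₂ w y) +
        (tw φ' π' x₂ (φ⁻¹ w) (π⁻¹ y) - x₂ (φ⁻¹ w) (π⁻¹ y) - dl i g₂' (φ⁻¹ w) (π⁻¹ y))
    ring
  -- the rest `r`
  obtain ⟨r, hr⟩ : ∃ r : Fr → Y → ℚ, r = fun w y => tw φ' π' x₁ w y - x₁ w y - dl i g₁' w y :=
    ⟨_, rfl⟩
  have hrC : Cx i r := by
    rw [hr]
    exact cx_sub (cx_sub hx₁π' hx₁) (cx_dl i g₁')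
  have hrR : ∀ w y, r w y ∈ R := by
    intro w y
    rw [hr]
    exact h'.tr₁ w y
  have hrπ : Cx i (tw φ π r) := (Itw φ π h.act h.fixC _ _ hrC hrC).1
  obtain ⟨f, hf⟩ : ∃ f : Y → ℚ, f = fun y => g₁' (π⁻¹ y) := ⟨_, rfl⟩
  have hUdec : tw φ π (tw φ' π' x₁) =
      fun w y => tw φ π x₁ w y + (dl i f w y + tw φ π r w y) := by
    funext w y
    rw [hf, ← tw_dl h.act, hr]
    unfold tw
    ring
  have hdr : Cx i (fun w y => dl i f w y + tw φ π r w y) := by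
    intro a b y
    change dl i f (a * b) y + tw φ π r (a * b) y =
      (dl i f a (i b y) + tw φ π r a (i b y)) + (dl i f b y + tw φ π r b y)
    rw [cx_dl i f a b y, hrπ a b y]
    ring
  -- the pairing
  have hI : Iv i (tw (φ * φ') (π * π') x₁)
      (eps i x₂ (φ * φ') (π * π') (fun y => g₂ y + g₂' (π⁻¹ y))) =
      (Iv i (tw φ π x₁) (eps i x₂ φ π g₂) + (∑ y, f (i lC y) * eps i x₂ φ π g₂ lC y +
        Iv i (tw φ π r) (eps i x₂ φ π g₂))) + Iv i (tw φ' π' x₁) (eps i x₂ φ' π' g₂') := by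
    rw [heps, tw_mul, Iadd' _ _ _ hU he hee', (Itw φ π h.act h.fixC _ _ hx₁π' he').2]
    congr 1
    rw [hUdec, Iadd _ _ _ hx₁π hdr he, Iadd _ _ _ (cx_dl i f) hrπ he, Idl f _ he]
  -- `ε(C, y)`
  obtain ⟨j, hj⟩ : ∃ j : Y → ℚ, j = fun y => h₂ y - x₂ lC y := ⟨_, rfl⟩
  have heC : ∀ y, eps i x₂ φ π g₂ lC y = j y - j (π⁻¹ y) := by
    intro y
    change x₂ (φ⁻¹ lC) (π⁻¹ y) - x₂ lC y - (g₂ (i lC y) - g₂ y) = j y - j (π⁻¹ y)
    rw [fix_inv h.fixC, h.c₂, hj]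
    change _ = (h₂ y - x₂ lC y) - (h₂ (π⁻¹ y) - x₂ lC (π⁻¹ y))
    rw [inv_fun h.inv₂]
    ring
  have heR : ∀ w y, eps i x₂ φ π g₂ w y ∈ R := h.tr₂
  have h1 : ∑ y, f (i lC y) * eps i x₂ φ π g₂ lC y - ∑ y, f y * eps i x₂ φ π g₂ lC y ∈ R := by
    rw [← Finset.sum_sub_distrib]
    refine sum_mem fun y _ => ?_
    rw [← sub_mul]
    refine R.mul_mem ?_ (heR _ _)
    rw [hf]
    change g₁' (π⁻¹ (i lC y)) - g₁' (π⁻¹ y) ∈ R
    rw [act_inv h.act, fix_inv h.fixC]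
    exact h'.c₁ _
  have h2 : ∑ y, f y * eps i x₂ φ π g₂ lC y = ∑ y, f y * j y - ∑ y, g₁' y * j y := by
    rw [← sum_inv π (fun y => g₁' y * j y), ← Finset.sum_sub_distrib]
    refine Finset.sum_congr rfl fun y _ => ?_
    rw [heC, hf]
    ring
  have h3 : Iv i (tw φ π r) (eps i x₂ φ π g₂) ∈ R :=
    IR R _ _ hrπ he (fun w y => hrR _ _) heR
  have h4 : ∑ y, h₁ y * (g₂ y + g₂' (π⁻¹ y)) = ∑ y, h₁ y * g₂ y + ∑ y, h₁ y * g₂' y := by
    rw [← sum_inv π (fun y => h₁ y * g₂' y), ← Finset.sum_add_distrib]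
    refine Finset.sum_congr rfl fun y _ => ?_
    rw [inv_fun h.inv₁]
    ring
  have h5 : ∑ y, (g₁ y + g₁' (π⁻¹ y)) * (h₂ y - x₂ lC y) =
      ∑ y, g₁ y * (h₂ y - x₂ lC y) + ∑ y, f y * j y := by
    rw [← Finset.sum_add_distrib]
    refine Finset.sum_congr rfl fun y _ => ?_
    rw [hf, hj]
    ring
  have h6 : ∑ y, g₁' y * (h₂ y - x₂ lC y) = ∑ y, g₁' y * j y := by
    rw [hj]
  have h7 := R.add_mem h1 h3
  have h8 : tau i x₁ x₂ h₁ h₂ (φ * φ') (π * π') (fun y => g₁ y + g₁' (π⁻¹ y))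
      (fun y => g₂ y + g₂' (π⁻¹ y)) - tau i x₁ x₂ h₁ h₂ φ π g₁ g₂ -
      tau i x₁ x₂ h₁ h₂ φ' π' g₁' g₂' =
      (∑ y, f (i lC y) * eps i x₂ φ π g₂ lC y - ∑ y, f y * eps i x₂ φ π g₂ lC y) +
        Iv i (tw φ π r) (eps i x₂ φ π g₂) := by
    unfold tau
    rw [hI, h2, h4, h5, h6]
    ring
  rw [h8]
  exact h7

end Pool.Agent.SOR.H86
end
end -- Pool.Agent.Helper86_SOR.TMU

section -- Pool.Agent.Helper95_SOR.INV

/-!
# Squad SOR, row INV: exactly invariant lifts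
-/

open scoped BigOperators

noncomputable section

namespace Pool.Agent.SOR.H95

open Pool.Agent.SOR

theorem mem_of_zpow {Y : Type} {R : Subring ℚ} {s : Equiv.Perm Y} {f : Y → ℚ}
    (h : ∀ y, f (s y) - f y ∈ R) (k : ℤ) : ∀ y, f ((s ^ k) y) - f y ∈ R := by
  induction k using Int.induction_on with
  | zero =>
    intro y
    simp
  | succ n ih =>
    intro y
    have h1 := ih (s y)
    have h2 := h y
    have h3 : (s ^ ((n : ℤ) + 1)) y = (s ^ (n : ℤ)) (s y) := by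
      rw [zpow_add_one, Equiv.Perm.mul_apply]
    rw [h3]
    have h4 := R.add_mem h1 h2
    rwa [sub_add_sub_cancel] at h4
  | pred n ih =>
    intro y
    have h1 := ih (s⁻¹ y)
    have h2 := h (s⁻¹ y)
    rw [← Equiv.Perm.mul_apply, mul_inv_cancel, Equiv.Perm.one_apply] at h2
    have h3 : (s ^ (-(n : ℤ) - 1)) y = (s ^ (-(n : ℤ))) (s⁻¹ y) := by
      rw [zpow_sub_one, Equiv.Perm.mul_apply]
    rw [h3]
    have h4 := R.sub_mem h1 h2
    rwa [sub_sub_sub_cancel_right] at h4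

theorem inv : InvStmt := by
  intro Y R s f h
  let S : Setoid Y := Equiv.Perm.SameCycle.setoid s
  refine ⟨fun y => f (Quotient.out (Quotient.mk S y)), ?_, ?_⟩
  · intro y
    have : Quotient.mk S (s y) = Quotient.mk S y := by
      apply Quotient.sound
      change Equiv.Perm.SameCycle s (s y) y
      exact Equiv.Perm.sameCycle_apply_left.2 (Equiv.Perm.SameCycle.refl s y)
    simp only [this]
  · intro y
    have h1 : S (Quotient.out (Quotient.mk S y)) y := Quotient.mk_out (s := S) y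
    have h2 : Equiv.Perm.SameCycle s y (Quotient.out (Quotient.mk S y)) :=
      Equiv.Perm.SameCycle.symm h1
    obtain ⟨k, hk⟩ := h2
    have h3 := mem_of_zpow h k y
    rw [hk] at h3
    exact h3

end Pool.Agent.SOR.H95
end
end -- Pool.Agent.Helper95_SOR.INV

section -- Pool.Agent.Helper66_SOR.Asm

/-!
# Squad SOR: the second order relation, closed statements
-/

namespace Pool.Agent.SOR

theorem thx_ : ThxStmt := H69.T.thx
theorem lft_ : LftStmt := H69.lft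
theorem aut_ : AutStmt := H47.aut
theorem ave_ : AveStmt := H16.ave
theorem ind_ : IndStmt := H17.ind
theorem inv_ : InvStmt := H95.inv
theorem gau_ : GauStmt := H76.gau
theorem ndk_ : NdkStmt := H45.ndk
theorem mob_ : MobStmt := H81.mob
theorem brx_ : BrxStmt := H19.brx
theorem lex_ : LexStmt := H32.lex
theorem ivf_ : IvfStmt := H56.ivf thx_
theorem prg_ : PrgStmt := H47.prg thx_
theorem tin_ : TinStmt := H10.tin ivf_
theorem tmu_ : TmuStmt := H86.tmu ivf_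
theorem ttt_ : TttStmt := H77.ttt ivf_
theorem tab_ : TabStmt := H13.tab tin_ tmu_ ttt_ aut_
theorem twe_ : TweStmt := H27.twe tab_ aut_ inv_ lft_
theorem ndi_ : NdiStmt := H13.ndi ivf_
theorem ndj_ : NdjStmt := H17.ndj prg_ ivf_
theorem hol_ : HolStmt := H15.hol ave_
theorem ooa_ : OoaStmt := H62.ooa ave_ hol_ ind_
theorem oot_ : OotStmt := H82.oot ave_ hol_ ind_
theorem rel_ : RelStmt := H44.rel gau_ inv_ lft_ twe_ ndi_ ndj_ ndk_ ooa_ oot_
theorem xre_ : XreStmt := H81.xre rel_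
theorem xsg_ : XsgStmt := H3.xsg xre_

/-- the universal form of the second order relation -/
theorem uni_ : UniStmt := H32.uni lex_ xsg_

end Pool.Agent.SOR
end -- Pool.Agent.Helper66_SOR.Asm
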