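import Mathlib

/-!
# Merged copies (generated) of the modules

* `Pool.Agent.PFC.DefsB4`
* `Pool.Agent.PFC.DefsP`
* `Pool.Agent.PFC.DefsP2`
* `Pool.Agent.PFC.B4.Key`
-/

set_option autoImplicit false

section -- Pool.Agent.PFC.DefsB4

/-!
Squad PFC, block B4: linear representations of a finite group H on an F-space M,
fixed vectors, Brauer kernels, permutation summands (frames), the Higman form of
projectivity, and the bimodule representation of an interior algebra.
-/

namespace Pool.Agent.PFC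

section Defs

variable {F H M : Type} [Field F] [Group H] [AddCommGroup M] [Module F M]

/-- The vectors fixed by the subgroup P. -/
def Fx (ρ : H →* (M →ₗ[F] M)) (P : Subgroup H) : Submodule F M where
  carrier := {m | ∀ h ∈ P, ρ h m = m}
  add_mem' := by
    intro a b ha hb h hh
    rw [map_add, ha h hh, hb h hh]
  zero_mem' := by
    intro h _
    exact map_zero _
  smul_mem' := by
    intro c a ha h hh
    rw [map_smul, ha h hh]

/-- S is a left transversal of P' in P. -/
def IsTv (P' P : Subgroup H) (S : Finset H) : Prop :=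
  (∀ s ∈ S, s ∈ P) ∧ ∀ p ∈ P, ∃! s, s ∈ S ∧ s⁻¹ * p ∈ P'

/-- The Brauer kernel at P: the span of all relative traces from proper subgroups of P.
The Brauer quotient M(P) is Fx ρ P modulo BK ρ P. -/
def BK (ρ : H →* (M →ₗ[F] M)) (P : Subgroup H) : Submodule F M :=
  Submodule.span F {n | ∃ (P' : Subgroup H) (S : Finset H) (m : M),
    P' < P ∧ IsTv P' P S ∧ m ∈ Fx ρ P' ∧ n = ∑ x ∈ S, ρ x m}

/-- An equivariant frame: vectors b and functionals c indexed by a finite H-set with
m = sum of c ω m • b ω. It is the same as a realisation of M as a direct summand of the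
permutation module of Ω. -/
def IsFr (ρ : H →* (M →ₗ[F] M)) {Ω : Type} [Fintype Ω] [MulAction H Ω]
    (b : Ω → M) (c : Ω → (M →ₗ[F] F)) : Prop :=
  (∀ (h : H) (ω : Ω), b (h • ω) = ρ h (b ω)) ∧
  (∀ (h : H) (ω : Ω) (m : M), c (h • ω) (ρ h m) = c ω m) ∧
  ∀ m : M, ∑ ω, c ω m • b ω = m

/-- M is a direct summand of a permutation module all whose stabilisers satisfy X. -/
def PS (X : Subgroup H → Prop) (ρ : H →* (M →ₗ[F] M)) : Prop :=
  ∃ (Ω : Type) (_ : Fintype Ω) (_ : MulAction H Ω) (b : Ω → M) (c : Ω → (M →ₗ[F] F)),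
    IsFr ρ b c ∧ ∀ ω : Ω, X (MulAction.stabilizer H ω)

/-- Higman form of projectivity (for the whole finite group H). -/
def Hig [Fintype H] (ρ : H →* (M →ₗ[F] M)) : Prop :=
  ∃ a : M →ₗ[F] M, ∀ m : M, ∑ h : H, ρ h (a (ρ h⁻¹ m)) = m

/-- Restriction of a representation along a homomorphism. -/
def rst {K : Type} [Group K] (ρ : H →* (M →ₗ[F] M)) (φ : K →* H) : K →* (M →ₗ[F] M) :=
  ρ.comp φ

end Defs

section Interior

variable {F V A : Type} [Field F] [Group V] [Ring A] [Algebra F A]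

/-- The V × V representation of an interior V-algebra: (u, v) a = u a v⁻¹. -/
def bi (F : Type) [Field F] [Algebra F A] (α : V →* A) : V × V →* (A →ₗ[F] A) where
  toFun := fun w =>
    (LinearMap.mulLeft F (α w.1)).comp (LinearMap.mulRight F (α w.2⁻¹))
  map_one' := by
    ext a
    simp
  map_mul' := by
    intro x y
    ext a
    simp [mul_assoc]

/-- The conjugation representation of an interior V-algebra: u a u⁻¹. -/
def cj (F : Type) [Field F] [Algebra F A] (α : V →* A) : V →* (A →ₗ[F] A) where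
  toFun := fun u => bi F α (u, u)
  map_one' := (bi F α).map_one
  map_mul' := by
    intro x y
    have h : ((x * y, x * y) : V × V) = (x, x) * (y, y) := rfl
    rw [h, (bi F α).map_mul]

/-- The twisted diagonal subgroup of V × V: all (φ u, u) with u in R. -/
def tw (φ : V →* V) (R : Subgroup V) : Subgroup (V × V) :=
  R.map (φ.prod (MonoidHom.id V))

end Interior

end Pool.Agent.PFC
end -- Pool.Agent.PFC.DefsB4

section -- Pool.Agent.PFC.DefsP

/-!
# Squad PFC: the output of part (0) (stable equivalence) and the number of simple modules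
-/

open scoped BigOperators TensorProduct

noncomputable section

namespace Pool.Agent.PFC

section ls

variable (F A : Type) [Field F] [Ring A] [Algebra F A]

/-- The kernels of the irreducible representations of `A` (over an algebraically closed field the
irreducible representations are the surjective homomorphisms to matrix algebras of positive
size). -/
def kers : Set (Set A) :=
  {K | ∃ (n : ℕ) (ρ : A →ₐ[F] Matrix (Fin n) (Fin n) F), 0 < n ∧ Function.Surjective ρ ∧
    K = {a | ρ a = 0}}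

/-- the number of simple modules of `A` -/
def ls : ℕ := (kers F A).ncard

end ls

section sep

variable (F : Type) {A Γ : Type} [Field F] [Ring A] [Algebra F A] [Group Γ]

/-- `A` is relatively separable over the image of `γ`. -/
def Sep (γ : Γ →* A) : Prop :=
  ∃ (κ : Type) (_ : Fintype κ) (u v : κ → A), ∑ k, u k * v k = 1 ∧
    ∀ (X : Type) [AddCommGroup X] [Module F X] (B : A →ₗ[F] A →ₗ[F] X),
      (∀ a b g, B (a * γ g) b = B a (γ g * b)) →
      ∀ c, ∑ k, B (c * u k) (v k) = ∑ k, B (u k) (v k * c)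

/-- the projection to the complement of `F Γ` which is given by the functional `lam` -/
def cpr [Fintype Γ] (γ : Γ →* A) (lam : A →ₗ[F] F) (a : A) : A :=
  a - ∑ g, lam (γ g⁻¹ * a) • γ g

/-- The output of part (0): `A = F Γ + P`, `P` a projective `Γ`-bimodule, `A` is relatively
`Γ`-separable and symmetric. -/
structure SExt [Fintype Γ] (γ : Γ →* A) : Prop where
  fin : FiniteDimensional F A
  sep : Sep F γ
  frob : ∃ μ : A →ₗ[F] F, (∀ a b, μ (a * b) = μ (b * a)) ∧ ∀ a, (∀ b, μ (a * b) = 0) → a = 0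
  hig : ∃ lam : A →ₗ[F] F, lam 1 = 1 ∧ (∀ g, g ≠ 1 → lam (γ g) = 0) ∧
    (∀ g a, lam (γ g * a) = lam (a * γ g)) ∧
    ∃ al : A →ₗ[F] A, ∀ x, ∑ g, ∑ h, γ g * al (γ g⁻¹ * x * γ h⁻¹) * γ h = cpr F γ lam x

end sep

end Pool.Agent.PFC
end
end -- Pool.Agent.PFC.DefsP

section -- Pool.Agent.PFC.DefsP2

/-!
# Squad PFC: the input of part (0) (the stable equivalence), and its chain

`F` is an algebraically closed field of characteristic `ℓ`, `V` a finite abelian `ℓ`-group, `E` a
cyclic `ℓ'`-group with generator `e0` which acts freely on `V - 1`, `A` a finite-dimensional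
`F`-algebra and `α : V → A` a homomorphism to the units (an interior `V`-algebra).
-/

open scoped BigOperators TensorProduct

noncomputable section

namespace Pool.Agent.PFC

/-- The groups: `V` an `ℓ`-group, the order of `E` is prime to `ℓ`, `W ≠ V` an `E`-stable subgroup
with an `E`-stable complement, and `E` acts freely on the complement, i.e. the nontrivial elements of
`E` have their fixed points in `W`.  (`W = 1`: `E` acts freely on `V - 1`.) -/
structure Ctf {V E : Type} [CommGroup V] [Group E] (ℓ : ℕ) (φ : E →* MulAut V)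
    (W : Subgroup V) : Prop where
  pr : ℓ.Prime
  pg : IsPGroup ℓ V
  nt : ∃ u : V, u ∉ W
  cop : ¬ ℓ ∣ Nat.card E
  stab : ∀ e : E, ∀ u ∈ W, φ e u ∈ W
  cmp : ∃ U : Subgroup V, IsCompl U W ∧ ∀ e : E, ∀ u ∈ U, φ e u ∈ U
  free : ∀ (e : E) (u : V), φ e u = u → e = 1 ∨ u ∈ W

/-- The groups for `E` cyclic: `V` a nontrivial `ℓ`-group, `E` cyclic with generator `e0`, of order
prime to `ℓ`, free on `V - 1`. -/
structure Ctx {V E : Type} [CommGroup V] [Group E] (ℓ : ℕ) (φ : E →* MulAut V) (e0 : E) :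
    Prop where
  pr : ℓ.Prime
  pg : IsPGroup ℓ V
  nt : ∃ u : V, u ≠ 1
  cop : ¬ ℓ ∣ Nat.card E
  gen : ∀ e : E, e ∈ Subgroup.zpowers e0
  free : ∀ (e : E) (u : V), φ e u = u → e = 1 ∨ u = 1

theorem Ctx.ctf {V E : Type} [CommGroup V] [Group E] {ℓ : ℕ} {φ : E →* MulAut V} {e0 : E}
    (h : Ctx ℓ φ e0) : Ctf ℓ φ ⊥ := by
  refine ⟨h.pr, h.pg, ?_, h.cop, ?_, ⟨⊤, isCompl_top_bot, fun _ _ _ => trivial⟩, ?_⟩
  · obtain ⟨u, hu⟩ := h.nt
    exact ⟨u, fun h' => hu (Subgroup.mem_bot.1 h')⟩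
  · intro e u hu
    rw [Subgroup.mem_bot.1 hu, map_one]
    exact Subgroup.one_mem _
  · intro e u hu
    rcases h.free e u hu with h1 | h1
    · exact Or.inl h1
    · exact Or.inr (Subgroup.mem_bot.2 h1)

section inp

variable (F : Type) {V E A : Type} [Field F] [CommGroup V] [Group E] [Ring A] [Algebra F A]

/-- the centraliser of the subgroup `Q` of `V` in `A` -/
def Cz (α : V →* A) (Q : Subgroup V) : Subalgebra F A :=
  Subalgebra.centralizer F (α '' (Q : Set V))

/-- `lam` is a symmetrising form, and it does not vanish at the sum of the elements of `V`. -/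
structure Frm [Fintype V] (α : V →* A) (lam : A →ₗ[F] F) : Prop where
  sym : ∀ a b, lam (a * b) = lam (b * a)
  nd : ∀ a, (∀ b, lam (a * b) = 0) → a = 0
  nz : lam (∑ u, α u) ≠ 0

/-- `A(V) = F V`: the centraliser of `V` is the direct sum of the span of `V` (which is free) and
of the Brauer kernel. -/
structure Tpv [Fintype V] (α : V →* A) : Prop where
  span : ∀ a ∈ Fx (cj F α) ⊤, ∃ c : V → F, a - ∑ u, c u • α u ∈ BK (cj F α) ⊤
  free : ∀ c : V → F, ∑ u, c u • α u ∈ BK (cj F α) ⊤ → c = 0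

/-- `π` is the surjection `A(Q) → A(Q)/J(A(Q)) = Mat_n(F)`, and `n` is prime to `ℓ`. -/
structure Lcq (α : V →* A) (Q : Subgroup V) (n : ℕ)
    (π : Cz F α Q →ₐ[F] Matrix (Fin n) (Fin n) F) : Prop where
  pos : 0 < n
  sur : Function.Surjective π
  bk : ∀ a : Cz F α Q, (a : A) ∈ BK (cj F α) Q → π a = 0
  nil : ∀ a : Cz F α Q, π a = 0 → ∃ N : ℕ, (a : A) ^ N ∈ BK (cj F α) Q
  cop : (n : F) ≠ 0

/-- The input of part (0): the local conditions are for the subgroups which are not in `W`. -/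
structure PIn [Fintype V] (φ : E →* MulAut V) (W : Subgroup V) (α : V →* A) : Prop where
  fin : FiniteDimensional F A
  frm : ∃ lam, Frm F α lam
  loc : IsLocalRing (Cz F α ⊤)
  ps : PS (fun K => ∃ (e : E) (R : Subgroup V), K = tw (φ e).toMonoidHom R) (bi F α)
  top : Tpv F α
  lcq : ∀ Q : Subgroup V, ¬ Q ≤ W → ∃ n π, Lcq F α Q n π
  uni : ∀ e : E, ∃ y y' : A, y * y' = 1 ∧ y' * y = 1 ∧ ∀ u, y * α u = α (φ e u) * y

/-- The output of part (0) for every `E` (before the choice of the units which give the group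
algebra of `V : E`, or the twisted group algebra): `A(R) = F V` for all `R` not in `W`. -/
structure PMid [Fintype V] (φ : E →* MulAut V) (W : Subgroup V) (α : V →* A) : Prop where
  fin : FiniteDimensional F A
  frm : ∃ lam, Frm F α lam
  loc : IsLocalRing (Cz F α ⊤)
  one : (1 : A) ∉ BK (cj F α) ⊤
  ps : PS (fun K => ∃ (e : E) (R : Subgroup V), K = tw (φ e).toMonoidHom R) (bi F α)
  spn : ∀ R : Subgroup V, ¬ R ≤ W → ∀ a ∈ Fx (cj F α) R, ∃ c : V → F,
    a - ∑ u, c u • α u ∈ BK (cj F α) R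
  uni : ∀ e : E, ∃ y y' : A, y * y' = 1 ∧ y' * y = 1 ∧ ∀ u, y * α u = α (φ e u) * y

end inp

/-- Part (0) for every `E`. -/
def PmdStmt : Prop :=
  ∀ (F V E A : Type) [Field F] [IsAlgClosed F] [CommGroup V] [Fintype V] [Group E] [Fintype E]
    [Ring A] [Algebra F A] (ℓ : ℕ) [CharP F ℓ] (φ : E →* MulAut V) (W : Subgroup V)
    (α : V →* A), Ctf ℓ φ W → PIn F φ W α →
    ∃ (A' : Type) (_ : Ring A') (_ : Algebra F A') (α' : V →* A'),
      PMid F φ W α' ∧ ls F A' ≤ ls F A

/-- Part (0) for every `E`, with the dimension of the centre. -/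
def PmzStmt : Prop :=
  ∀ (F V E A : Type) [Field F] [IsAlgClosed F] [CommGroup V] [Fintype V] [Group E] [Fintype E]
    [Ring A] [Algebra F A] (ℓ : ℕ) [CharP F ℓ] (φ : E →* MulAut V) (W : Subgroup V)
    (α : V →* A), Ctf ℓ φ W → PIn F φ W α →
    ∃ (A' : Type) (_ : Ring A') (_ : Algebra F A') (α' : V →* A'),
      PMid F φ W α' ∧ ls F A' = ls F A ∧ Module.finrank F (Subalgebra.center F A') =
        Module.finrank F (Subalgebra.center F A)

/-- Part (0), `E` cyclic: from the input to the stably trivial extension of `F[V : E]`. -/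
def PuiStmt : Prop :=
  ∀ (F V E A : Type) [Field F] [IsAlgClosed F] [CommGroup V] [Fintype V] [Group E] [Fintype E]
    [Ring A] [Algebra F A] (ℓ : ℕ) [CharP F ℓ] (φ : E →* MulAut V) (e0 : E) (α : V →* A)
    [Fintype (V ⋊[φ] E)],
    Ctx ℓ φ e0 → PIn F φ ⊥ α →
    ∃ (A' : Type) (_ : Ring A') (_ : Algebra F A') (γ : V ⋊[φ] E →* A'),
      SExt F γ ∧ ls F A' ≤ ls F A

end Pool.Agent.PFC
end
end -- Pool.Agent.PFC.DefsP2

section -- Pool.Agent.PFC.B4.Key

/-!
Squad PFC, block B4: the key lemma on frames. For a frame, the Brauer kernel at an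
l-subgroup P consists of the fixed vectors killed by the functionals of the fixed points.
-/

namespace Pool.Agent.PFC

open MulAction

/-- The points of Ω fixed by P. -/
noncomputable def fp {H : Type} [Group H] (P : Subgroup H) (Ω : Type) [Fintype Ω]
    [MulAction H Ω] : Finset Ω := by
  classical
  exact Finset.univ.filter (fun ω => ∀ h ∈ P, h • ω = ω)

theorem mem_fp {H : Type} [Group H] (P : Subgroup H) (Ω : Type) [Fintype Ω]
    [MulAction H Ω] (ω : Ω) : ω ∈ fp P Ω ↔ ∀ h ∈ P, h • ω = ω := by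
  classical
  unfold fp
  simp

/-- Existence of a left transversal adapted to the orbit of a point. -/
theorem exTv {H : Type} [Group H] [Finite H] (P : Subgroup H) {Ω : Type} [MulAction H Ω]
    (ω : Ω) : ∃ S : Finset H, IsTv (P ⊓ stabilizer H ω) P S ∧
      (∀ x ∈ S, ∀ y ∈ S, x • ω = y • ω → x = y) ∧
      ∀ h ∈ P, ∃ x ∈ S, x • ω = h • ω := by
  classical
  have : Fintype H := Fintype.ofFinite H
  -- a section of the map from P to the orbit
  let g : Ω → H := fun ω' => if h : ∃ x ∈ P, x • ω = ω' then h.choose else 1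
  have hg : ∀ h ∈ P, g (h • ω) ∈ P ∧ g (h • ω) • ω = h • ω := by
    intro h hh
    have hex : ∃ x ∈ P, x • ω = h • ω := ⟨h, hh, rfl⟩
    have : g (h • ω) = hex.choose := by
      simp only [g]
      rw [dif_pos hex]
    rw [this]
    exact hex.choose_spec
  refine ⟨(Finset.univ.filter (fun h => h ∈ P)).image (fun h => g (h • ω)), ⟨?_, ?_⟩, ?_, ?_⟩
  · intro s hs
    obtain ⟨h, hh, rfl⟩ := Finset.mem_image.1 hs
    exact (hg h (Finset.mem_filter.1 hh).2).1
  · intro p hp
    refine ⟨g (p • ω), ⟨Finset.mem_image.2 ⟨p, Finset.mem_filter.2 ⟨Finset.mem_univ _, hp⟩, rfl⟩,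
      ?_⟩, ?_⟩
    · refine Subgroup.mem_inf.2 ⟨P.mul_mem (P.inv_mem (hg p hp).1) hp, ?_⟩
      rw [mem_stabilizer_iff, mul_smul]
      exact inv_smul_eq_iff.2 (hg p hp).2.symm
    · rintro s ⟨hs, hs2⟩
      obtain ⟨h, hh, rfl⟩ := Finset.mem_image.1 hs
      have hh' := (Finset.mem_filter.1 hh).2
      have h2 := (Subgroup.mem_inf.1 hs2).2
      rw [mem_stabilizer_iff, mul_smul, inv_smul_eq_iff] at h2
      rw [h2, (hg h hh').2]
  · intro x hx y hy hxy
    obtain ⟨h, hh, rfl⟩ := Finset.mem_image.1 hx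
    obtain ⟨k, hk, rfl⟩ := Finset.mem_image.1 hy
    have hh' := (Finset.mem_filter.1 hh).2
    have hk' := (Finset.mem_filter.1 hk).2
    rw [(hg h hh').2, (hg k hk').2] at hxy
    rw [hxy]
  · intro h hh
    exact ⟨g (h • ω), Finset.mem_image.2 ⟨h, Finset.mem_filter.2 ⟨Finset.mem_univ _, hh⟩, rfl⟩,
      (hg h hh).2⟩

/-- The size of a left transversal is the index. -/
theorem card_tv {H : Type} [Group H] [Finite H] (P' P : Subgroup H) (hle : P' ≤ P)
    (S : Finset H) (hS : IsTv P' P S) : S.card * Nat.card P' = Nat.card P := by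
  classical
  have : Fintype H := Fintype.ofFinite H
  have hf : ∀ p : P, ∃ z : S × P', ((z.1 : H) * (z.2 : H)) = p := by
    intro p
    obtain ⟨s, ⟨hs, hs2⟩, -⟩ := hS.2 p p.2
    exact ⟨(⟨s, hs⟩, ⟨_, hs2⟩), by simp⟩
  have hb : Function.Bijective (fun z : S × P' =>
      (⟨(z.1 : H) * (z.2 : H), P.mul_mem (hS.1 _ z.1.2) (hle z.2.2)⟩ : P)) := by
    constructor
    · rintro ⟨⟨s, hs⟩, ⟨q, hq⟩⟩ ⟨⟨s', hs'⟩, ⟨q', hq'⟩⟩ h
      simp only [Subtype.mk.injEq] at h
      have hp : s * q ∈ P := P.mul_mem (hS.1 _ hs) (hle hq)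
      obtain ⟨t, -, ht⟩ := hS.2 (s * q) hp
      have h1 : s = t := ht s ⟨hs, by simpa using hq⟩
      have h2 : s' = t := ht s' ⟨hs', by rw [h]; simpa using hq'⟩
      have h3 : s = s' := h1.trans h2.symm
      subst h3
      have h4 : q = q' := mul_left_cancel h
      subst h4
      rfl
    · intro p
      obtain ⟨z, hz⟩ := hf p
      exact ⟨z, Subtype.ext hz⟩
  have := Nat.card_congr (Equiv.ofBijective _ hb)
  rw [Nat.card_prod, Nat.card_eq_fintype_card, Fintype.card_coe] at this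
  exact this

variable {F H M : Type} [Field F] [Group H] [AddCommGroup M] [Module F M]

theorem mem_Fx {ρ : H →* (M →ₗ[F] M)} {P : Subgroup H} {m : M} :
    m ∈ Fx ρ P ↔ ∀ h ∈ P, ρ h m = m := Iff.rfl

/-- Functionals of fixed points kill the Brauer kernel. -/
theorem frame_BK {ℓ : ℕ} [Fact ℓ.Prime] [CharP F ℓ] [Finite H]
    {ρ : H →* (M →ₗ[F] M)} {Ω : Type} [Fintype Ω] [MulAction H Ω]
    {b : Ω → M} {c : Ω → (M →ₗ[F] F)} (hfr : IsFr ρ b c) (P : Subgroup H)
    (hP : IsPGroup ℓ P) {m : M} (hm : m ∈ BK ρ P) (ω : Ω) (hω : ∀ h ∈ P, h • ω = ω) :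
    c ω m = 0 := by
  classical
  unfold BK at hm
  induction hm using Submodule.span_induction with
  | mem n hn =>
    obtain ⟨P', S, x, hlt, hS, hx, rfl⟩ := hn
    have h1 : ∀ y ∈ S, c ω (ρ y x) = c ω x := by
      intro y hy
      have h2 := hfr.2.1 y ω x
      rw [hω y (hS.1 y hy)] at h2
      exact h2
    rw [map_sum, Finset.sum_congr rfl h1, Finset.sum_const]
    have hdvd : ℓ ∣ S.card := by
      have hc := card_tv P' P hlt.le S hS
      obtain ⟨k, hk⟩ := (IsPGroup.iff_card).1 hP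
      have hdiv : S.card ∣ ℓ ^ k := ⟨_, by rw [← hk]; exact hc.symm⟩
      obtain ⟨j, -, hj⟩ := (Nat.dvd_prime_pow (Fact.out : ℓ.Prime)).1 hdiv
      rcases Nat.eq_zero_or_pos j with h0 | h0
      · exfalso
        rw [h0, pow_zero] at hj
        rw [hj, one_mul] at hc
        exact hlt.ne (Subgroup.eq_of_le_of_card_ge hlt.le hc.ge)
      · rw [hj]
        exact dvd_pow_self ℓ h0.ne'
    obtain ⟨d, hd⟩ := hdvd
    rw [hd, mul_smul, nsmul_eq_mul, CharP.cast_eq_zero, zero_mul]
  | zero => exact map_zero _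
  | add a b _ _ ha hb => rw [map_add, ha, hb, add_zero]
  | smul r a _ ha => rw [map_smul, ha, smul_zero]

/-- The orbit sum of a point which is not fixed lies in the Brauer kernel. -/
theorem orbit_BK [Finite H]
    {ρ : H →* (M →ₗ[F] M)} {Ω : Type} [Fintype Ω] [MulAction H Ω]
    {b : Ω → M} {c : Ω → (M →ₗ[F] F)} (hfr : IsFr ρ b c) (P : Subgroup H)
    {m : M} (hm : m ∈ Fx ρ P) (T : Finset Ω)
    (hT : ∀ ω ∈ T, ∀ h ∈ P, h • ω ∈ T) (hT2 : ∀ ω ∈ T, ¬ ∀ h ∈ P, h • ω = ω) :
    ∑ ω ∈ T, c ω m • b ω ∈ BK ρ P := by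
  classical
  induction hn : T.card using Nat.strong_induction_on generalizing T with
  | _ n ih =>
    rcases T.eq_empty_or_nonempty with rfl | ⟨ω, hω⟩
    · rw [Finset.sum_empty]
      exact Submodule.zero_mem _
    · obtain ⟨S, hS, hinj, hsur⟩ := exTv P ω
      let O : Finset Ω := S.image (fun x => x • ω)
      have hO : O ⊆ T := by
        intro y hy
        obtain ⟨x, hx, rfl⟩ := Finset.mem_image.1 hy
        exact hT ω hω x (hS.1 x hx)
      have hOst : ∀ y ∈ O, ∀ h ∈ P, h • y ∈ O := by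
        intro y hy h hh
        obtain ⟨x, hx, rfl⟩ := Finset.mem_image.1 hy
        obtain ⟨z, hz, hz2⟩ := hsur (h * x) (P.mul_mem hh (hS.1 x hx))
        refine Finset.mem_image.2 ⟨z, hz, ?_⟩
        rw [hz2, mul_smul]
      have hωO : ω ∈ O := by
        obtain ⟨z, hz, hz2⟩ := hsur 1 P.one_mem
        refine Finset.mem_image.2 ⟨z, hz, ?_⟩
        rw [hz2, one_smul]
      have hrest : ∑ ω ∈ T \ O, c ω m • b ω ∈ BK ρ P := by
        refine ih (T \ O).card ?_ (T \ O) ?_ ?_ rfl
        · rw [← hn]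
          exact Finset.card_lt_card (Finset.sdiff_ssubset hO ⟨ω, hωO⟩)
        · intro y hy h hh
          rw [Finset.mem_sdiff] at hy ⊢
          refine ⟨hT y hy.1 h hh, fun hc => hy.2 ?_⟩
          have := hOst _ hc h⁻¹ (P.inv_mem hh)
          rwa [inv_smul_smul] at this
        · intro y hy
          exact hT2 y (Finset.mem_sdiff.1 hy).1
      have horb : ∑ ω ∈ O, c ω m • b ω ∈ BK ρ P := by
        have h1 : ∑ ω ∈ O, c ω m • b ω = c ω m • ∑ x ∈ S, ρ x (b ω) := by
          rw [Finset.sum_image (by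
            intro x hx y hy hxy
            exact hinj x hx y hy hxy), Finset.smul_sum]
          refine Finset.sum_congr rfl ?_
          intro x hx
          have h2 : c (x • ω) m = c ω m := by
            have h3 := hfr.2.1 x ω m
            rw [hm x (hS.1 x hx)] at h3
            exact h3
          rw [h2, hfr.1]
        rw [h1]
        refine Submodule.smul_mem _ _ (Submodule.subset_span ?_)
        refine ⟨P ⊓ stabilizer H ω, S, b ω, ?_, hS, ?_, rfl⟩
        · refine lt_of_le_of_ne inf_le_left ?_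
          intro heq
          apply hT2 ω hω
          intro h hh
          have : h ∈ P ⊓ stabilizer H ω := by
            rw [heq]
            exact hh
          exact mem_stabilizer_iff.1 (Subgroup.mem_inf.1 this).2
        · intro h hh
          rw [← hfr.1, mem_stabilizer_iff.1 (Subgroup.mem_inf.1 hh).2]
      rw [← Finset.sum_sdiff hO]
      exact Submodule.add_mem _ hrest horb

/-- KEY2: a fixed vector is the sum over the fixed points, modulo the Brauer kernel. -/
theorem frame_sub [Finite H]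
    {ρ : H →* (M →ₗ[F] M)} {Ω : Type} [Fintype Ω] [MulAction H Ω]
    {b : Ω → M} {c : Ω → (M →ₗ[F] F)} (hfr : IsFr ρ b c) (P : Subgroup H)
    {m : M} (hm : m ∈ Fx ρ P) :
    m - ∑ ω ∈ fp P Ω, c ω m • b ω ∈ BK ρ P := by
  classical
  have h1 : m - ∑ ω ∈ fp P Ω, c ω m • b ω = ∑ ω ∈ Finset.univ \ fp P Ω, c ω m • b ω := by
    have h2 := Finset.sum_sdiff (Finset.subset_univ (fp P Ω)) (f := fun ω => c ω m • b ω)
    rw [hfr.2.2 m] at h2
    exact sub_eq_of_eq_add h2.symm
  rw [h1]
  apply orbit_BK hfr P hm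
  · intro ω hω h hh
    rw [Finset.mem_sdiff] at hω ⊢
    refine ⟨Finset.mem_univ _, fun hc => hω.2 ?_⟩
    rw [mem_fp] at hc ⊢
    have h3 : ∀ k ∈ P, k • ω = ω := by
      intro k hk
      have h4 := hc (h * k * h⁻¹) (P.mul_mem (P.mul_mem hh hk) (P.inv_mem hh))
      rw [mul_smul, mul_smul, inv_smul_smul] at h4
      exact smul_left_cancel h h4
    exact h3
  · intro ω hω hc
    exact (Finset.mem_sdiff.1 hω).2 ((mem_fp P Ω ω).2 hc)

/-- KEY1: the Brauer kernel in terms of a frame. -/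
theorem frame_iff {ℓ : ℕ} [Fact ℓ.Prime] [CharP F ℓ] [Finite H]
    {ρ : H →* (M →ₗ[F] M)} {Ω : Type} [Fintype Ω] [MulAction H Ω]
    {b : Ω → M} {c : Ω → (M →ₗ[F] F)} (hfr : IsFr ρ b c) (P : Subgroup H)
    (hP : IsPGroup ℓ P) {m : M} (hm : m ∈ Fx ρ P) :
    m ∈ BK ρ P ↔ ∀ ω : Ω, (∀ h ∈ P, h • ω = ω) → c ω m = 0 := by
  constructor
  · intro h ω hω
    exact frame_BK hfr P hP h ω hω
  · intro h
    have h1 := frame_sub hfr P hm
    rwa [Finset.sum_eq_zero, sub_zero] at h1
    intro ω hω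
    rw [h ω ((mem_fp P Ω ω).1 hω), zero_smul]

/-- The Brauer kernel consists of fixed vectors. -/
theorem BK_le_Fx [Finite H] (ρ : H →* (M →ₗ[F] M)) (P : Subgroup H) : BK ρ P ≤ Fx ρ P := by
  classical
  unfold BK
  rw [Submodule.span_le]
  rintro n ⟨P', S, m, hlt, hS, hm, rfl⟩
  intro h hh
  rw [map_sum]
  -- left multiplication by h permutes the cosets
  have hc : ∀ x ∈ S, ∃ y, (y ∈ S ∧ y⁻¹ * (h * x) ∈ P') := by
    intro x hx
    obtain ⟨y, hy, -⟩ := hS.2 (h * x) (P.mul_mem hh (hS.1 x hx))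
    exact ⟨y, hy⟩
  choose! f hf using hc
  refine Finset.sum_bij (fun x _ => f x) (fun x hx => (hf x hx).1) ?_ ?_ ?_
  · intro x hx y hy hxy
    have h1 := (hf x hx).2
    have h2 := (hf y hy).2
    rw [← hxy] at h2
    have h3 : x⁻¹ * y ∈ P' := by
      have h4 := P'.mul_mem (P'.inv_mem h1) h2
      have h5 : ((f x)⁻¹ * (h * x))⁻¹ * ((f x)⁻¹ * (h * y)) = x⁻¹ * y := by group
      rwa [h5] at h4
    obtain ⟨z, -, hz⟩ := hS.2 y (hS.1 y hy)
    rw [hz x ⟨hx, h3⟩, hz y ⟨hy, by simp [P'.one_mem]⟩]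
  · intro y hy
    obtain ⟨x, ⟨hx, hx2⟩, -⟩ := hS.2 (h⁻¹ * y) (P.mul_mem (P.inv_mem hh) (hS.1 y hy))
    refine ⟨x, hx, ?_⟩
    obtain ⟨z, -, hz⟩ := hS.2 (h * x) (P.mul_mem hh (hS.1 x hx))
    have h1 : y = z := by
      apply hz
      refine ⟨hy, ?_⟩
      have h5 : y⁻¹ * (h * x) = (x⁻¹ * (h⁻¹ * y))⁻¹ := by group
      rw [h5]
      exact P'.inv_mem hx2
    rw [h1]
    exact hz _ (hf x hx)
  · intro x hx
    have h1 := (hf x hx).2
    have h2 : ρ (h * x) m = ρ (f x) m := by
      have h3 : h * x = f x * ((f x)⁻¹ * (h * x)) := by group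
      rw [h3, map_mul]
      exact congrArg (ρ (f x)) (hm _ h1)
    rw [← h2, map_mul]
    rfl

end Pool.Agent.PFC
end -- Pool.Agent.PFC.B4.Key
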