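import Pool.Agent.Helper12_AWB.B002

/-!
# Merged copies (generated) of the modules

* `Pool.Agent.PFC.StmtsB4a`
* `Pool.Agent.PFC.StmtsB5b`
* `Pool.Agent.PFC.StmtsB5a`
* `Pool.Agent.Helper41_PFC.HGX`
* `Pool.Agent.Helper53_PFC.CASa`
* `Pool.Agent.Helper75_PFC.Muv`
* `Pool.Agent.Helper77_PFC.CMP`
* `Pool.Agent.Helper91_PFC.QPSa`
* `Pool.Agent.Helper92_PFC.PRJ`
* `Pool.Agent.Helper94_PFC.ALV`
* `Pool.Agent.PFC.B4.UpwHgs_helper1`
-/

set_option autoImplicit false

section -- Pool.Agent.PFC.StmtsB4a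

/-!
Squad PFC, block B4, statements a (helper71): Brauer quotients of summands of permutation
modules, removal of stabilisers, projectivity test, Higman criterion.
-/

namespace Pool.Agent.PFC

open TensorProduct

/-- π is a model of the Brauer quotient M(P): it is surjective on the fixed vectors and its
kernel there is the Brauer kernel. (π is a linear map on all of M; only its values on the
fixed vectors matter.) -/
def IsBQ {F H M N : Type} [Field F] [Group H] [AddCommGroup M] [Module F M]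
    [AddCommGroup N] [Module F N] (ρ : H →* (M →ₗ[F] M)) (P : Subgroup H)
    (π : M →ₗ[F] N) : Prop :=
  (∀ m ∈ Fx ρ P, π m = 0 ↔ m ∈ BK ρ P) ∧ ∀ n : N, ∃ m ∈ Fx ρ P, π m = n

/-- Tensor product of two representations. -/
noncomputable def tns {F H M N : Type} [Field F] [Group H] [AddCommGroup M] [Module F M]
    [AddCommGroup N] [Module F N] (ρ : H →* (M →ₗ[F] M)) (σ : H →* (N →ₗ[F] N)) :
    H →* (M ⊗[F] N →ₗ[F] M ⊗[F] N) where
  toFun := fun h => TensorProduct.map (ρ h) (σ h)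
  map_one' := by
    rw [map_one, map_one]
    exact TensorProduct.map_id
  map_mul' := by
    intro x y
    rw [map_mul, map_mul]
    exact TensorProduct.map_mul _ _ _ _

/-- Dual representation: (h f) m = f (h⁻¹ m). -/
def dul {F H M : Type} [Field F] [Group H] [AddCommGroup M] [Module F M]
    (ρ : H →* (M →ₗ[F] M)) : H →* ((M →ₗ[F] F) →ₗ[F] (M →ₗ[F] F)) where
  toFun := fun h =>
    { toFun := fun f => f.comp (ρ h⁻¹)
      map_add' := by
        intro f g
        rfl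
      map_smul' := by
        intro c f
        rfl }
  map_one' := by
    ext f m
    simp
  map_mul' := by
    intro x y
    ext f m
    simp

/-- SUR: M^P → M(R)^P is surjective for R normalised by P. -/
def SurStmt : Prop :=
  ∀ (ℓ : ℕ) [Fact ℓ.Prime] (F H M : Type) [Field F] [CharP F ℓ] [Group H] [Finite H]
    [AddCommGroup M] [Module F M] (ρ : H →* (M →ₗ[F] M)) (X : Subgroup H → Prop),
    PS X ρ → ∀ (R P : Subgroup H), IsPGroup ℓ R → R ≤ P →
    (∀ x ∈ P, ∀ r ∈ R, x * r * x⁻¹ ∈ R) →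
    ∀ m ∈ Fx ρ R, (∀ x ∈ P, ρ x m - m ∈ BK ρ R) → ∃ m' ∈ Fx ρ P, m' - m ∈ BK ρ R

/-- CMP: a P-fixed vector in the Brauer kernel of R ≤ P is in the Brauer kernel of P. -/
def CmpStmt : Prop :=
  ∀ (ℓ : ℕ) [Fact ℓ.Prime] (F H M : Type) [Field F] [CharP F ℓ] [Group H] [Finite H]
    [AddCommGroup M] [Module F M] (ρ : H →* (M →ₗ[F] M)) (X : Subgroup H → Prop),
    PS X ρ → ∀ (R P : Subgroup H), IsPGroup ℓ P → R ≤ P →
    ∀ m ∈ Fx ρ P, m ∈ BK ρ R → m ∈ BK ρ P

/-- EXF: an invariant functional on M(R) comes from an invariant functional on M. -/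
def ExfStmt : Prop :=
  ∀ (ℓ : ℕ) [Fact ℓ.Prime] (F H M : Type) [Field F] [CharP F ℓ] [Group H] [Finite H]
    [AddCommGroup M] [Module F M] (ρ : H →* (M →ₗ[F] M)) (X : Subgroup H → Prop),
    PS X ρ → ∀ (R : Subgroup H), IsPGroup ℓ R → R.Normal →
    ∀ (lam : M →ₗ[F] F), (∀ m ∈ BK ρ R, lam m = 0) →
    (∀ (h : H), ∀ m ∈ Fx ρ R, lam (ρ h m) = lam m) →
    ∃ τ : M →ₗ[F] F, (∀ (h : H) (m : M), τ (ρ h m) = τ m) ∧ ∀ m ∈ Fx ρ R, τ m = lam m

/-- TEM: Brauer quotients of tensor products (only the first factor is a summand of a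
permutation module). -/
def TemStmt : Prop :=
  ∀ (ℓ : ℕ) [Fact ℓ.Prime] (F H M N M' N' : Type) [Field F] [CharP F ℓ] [Group H] [Finite H]
    [AddCommGroup M] [Module F M] [AddCommGroup N] [Module F N]
    [AddCommGroup M'] [Module F M'] [AddCommGroup N'] [Module F N']
    (ρ : H →* (M →ₗ[F] M)) (σ : H →* (N →ₗ[F] N)) (X : Subgroup H → Prop),
    PS X ρ → ∀ (P : Subgroup H), IsPGroup ℓ P →
    ∀ (π : M →ₗ[F] M') (π' : N →ₗ[F] N'), IsBQ ρ P π → IsBQ σ P π' →
    (∃ q : M ⊗[F] N →ₗ[F] M' ⊗[F] N', IsBQ (tns ρ σ) P q ∧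
      ∀ m ∈ Fx ρ P, ∀ n ∈ Fx σ P, q (m ⊗ₜ[F] n) = π m ⊗ₜ[F] π' n) ∧
    ∀ x ∈ Fx (tns ρ σ) P, ∃ y ∈ Submodule.span F
      {z : M ⊗[F] N | ∃ m ∈ Fx ρ P, ∃ n ∈ Fx σ P, z = m ⊗ₜ[F] n},
      x - y ∈ BK (tns ρ σ) P

/-- DIM: the dimension of M and of M(H) agree modulo ℓ. -/
def DimStmt : Prop :=
  ∀ (ℓ : ℕ) [Fact ℓ.Prime] (F H M N : Type) [Field F] [CharP F ℓ] [Group H] [Finite H]
    [AddCommGroup M] [Module F M] [AddCommGroup N] [Module F N]
    (ρ : H →* (M →ₗ[F] M)) (X : Subgroup H → Prop),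
    PS X ρ → ∀ (P : Subgroup H), IsPGroup ℓ P → ∀ (π : M →ₗ[F] N), IsBQ ρ P π →
    (Module.finrank F M : F) = (Module.finrank F N : F)

/-- PSX: H an abelian l-group; the orbits whose stabiliser K has M(K) = 0 can be removed. -/
def PsxStmt : Prop :=
  ∀ (ℓ : ℕ) [Fact ℓ.Prime] (F H M : Type) [Field F] [CharP F ℓ] [Group H] [Finite H]
    [AddCommGroup M] [Module F M] (ρ : H →* (M →ₗ[F] M)) (X : Subgroup H → Prop),
    IsPGroup ℓ H → (∀ x y : H, x * y = y * x) → PS X ρ →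
    PS (fun K => X K ∧ ¬ Fx ρ K ≤ BK ρ K) ρ

/-- UPW: if M(C) = 0 then M(K) = 0 for every K ≥ C. -/
def UpwStmt : Prop :=
  ∀ (ℓ : ℕ) [Fact ℓ.Prime] (F H M : Type) [Field F] [CharP F ℓ] [Group H] [Finite H]
    [AddCommGroup M] [Module F M] (ρ : H →* (M →ₗ[F] M)) (X : Subgroup H → Prop),
    PS X ρ → ∀ (C K : Subgroup H), IsPGroup ℓ K → C ≤ K → Fx ρ C ≤ BK ρ C →
    Fx ρ K ≤ BK ρ K

/-- PRJ: the projectivity test. -/
def PrjStmt : Prop :=
  ∀ (ℓ : ℕ) [Fact ℓ.Prime] (F H M : Type) [Field F] [CharP F ℓ] [Group H] [Fintype H]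
    [AddCommGroup M] [Module F M] (ρ : H →* (M →ₗ[F] M)) (X : Subgroup H → Prop),
    IsPGroup ℓ H → (∀ x y : H, x * y = y * x) → PS X ρ →
    (∀ C : Subgroup H, Nat.card C = ℓ → Fx ρ C ≤ BK ρ C) → Hig ρ

/-- HGX: from a subgroup of index prime to l to the whole group. -/
def HgxStmt : Prop :=
  ∀ (ℓ : ℕ) [Fact ℓ.Prime] (F H K M : Type) [Field F] [CharP F ℓ] [Group H] [Fintype H]
    [Group K] [Fintype K] [AddCommGroup M] [Module F M] (ρ : H →* (M →ₗ[F] M))
    (φ : K →* H), Function.Injective φ → ¬ ℓ ∣ φ.range.index →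
    Hig (rst ρ φ) → Hig ρ

/-- HGR: restriction to a subgroup preserves the Higman form. -/
def HgrStmt : Prop :=
  ∀ (F H K M : Type) [Field F] [Group H] [Fintype H]
    [Group K] [Fintype K] [AddCommGroup M] [Module F M] (ρ : H →* (M →ₗ[F] M))
    (φ : K →* H), Function.Injective φ → Hig ρ → Hig (rst ρ φ)

/-- HGS: a summand of a projective is projective; HGM: fixed vectors are traces. -/
def HgsStmt : Prop :=
  ∀ (F H M N : Type) [Field F] [Group H] [Fintype H] [AddCommGroup M] [Module F M]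
    [AddCommGroup N] [Module F N] (ρ : H →* (M →ₗ[F] M)) (σ : H →* (N →ₗ[F] N)),
    Hig ρ → ((∀ (i : N →ₗ[F] M) (p : M →ₗ[F] N), (∀ h n, i (σ h n) = ρ h (i n)) →
      (∀ h m, p (ρ h m) = σ h (p m)) → (∀ n, p (i n) = n) → Hig σ) ∧
      (∀ m ∈ Fx ρ ⊤, ∃ m', m = ∑ h : H, ρ h m'))

/-- YSP: a submodule with the Higman property is a direct summand. -/
def YspStmt : Prop :=
  ∀ (F H M N : Type) [Field F] [Group H] [Fintype H] [AddCommGroup M] [Module F M]
    [AddCommGroup N] [Module F N] (ρ : H →* (M →ₗ[F] M)) (σ : H →* (N →ₗ[F] N)),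
    Hig σ → ((∀ (i : N →ₗ[F] M), (∀ h n, i (σ h n) = ρ h (i n)) → Function.Injective i →
      ∃ p : M →ₗ[F] N, (∀ h m, p (ρ h m) = σ h (p m)) ∧ ∀ n, p (i n) = n) ∧
      (∀ (p : M →ₗ[F] N), (∀ h m, p (ρ h m) = σ h (p m)) → Function.Surjective p →
      ∃ i : N →ₗ[F] M, (∀ h n, i (σ h n) = ρ h (i n)) ∧ ∀ n, p (i n) = n))

/-- PSR: restriction along a homomorphism. -/
def PsrStmt : Prop :=
  ∀ (F H K M : Type) [Field F] [Group H] [Group K] [AddCommGroup M] [Module F M]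
    (ρ : H →* (M →ₗ[F] M)) (φ : K →* H) (X : Subgroup H → Prop),
    PS X ρ → PS (fun L => ∃ S : Subgroup H, X S ∧ L = S.comap φ) (rst ρ φ)

/-- PSM: equivariant retracts. -/
def PsmStmt : Prop :=
  ∀ (F H M N : Type) [Field F] [Group H] [AddCommGroup M] [Module F M]
    [AddCommGroup N] [Module F N] (ρ : H →* (M →ₗ[F] M)) (σ : H →* (N →ₗ[F] N))
    (X : Subgroup H → Prop) (i : N →ₗ[F] M) (p : M →ₗ[F] N),
    (∀ h n, i (σ h n) = ρ h (i n)) → (∀ h m, p (ρ h m) = σ h (p m)) →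
    (∀ n, p (i n) = n) → PS X ρ → PS X σ

/-- PST: tensor products. -/
def PstStmt : Prop :=
  ∀ (F H M N : Type) [Field F] [Group H] [AddCommGroup M] [Module F M]
    [AddCommGroup N] [Module F N] (ρ : H →* (M →ₗ[F] M)) (σ : H →* (N →ₗ[F] N))
    (X Y : Subgroup H → Prop), PS X ρ → PS Y σ →
    PS (fun K => ∃ S T : Subgroup H, X S ∧ Y T ∧ K = S ⊓ T) (tns ρ σ)

/-- PSD: the dual. -/
def PsdStmt : Prop :=
  ∀ (F H M : Type) [Field F] [Group H] [AddCommGroup M] [Module F M]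
    (ρ : H →* (M →ₗ[F] M)) (X : Subgroup H → Prop), PS X ρ → PS X (dul ρ)

/-- PSQ: a quotient of a (V × W)-module by the right action of W, with the residual action
of V (used for Z4). -/
def PsqStmt : Prop :=
  ∀ (F V W M S : Type) [Field F] [Group V] [Group W] [AddCommGroup M] [Module F M]
    [AddCommGroup S] [Module F S] (ρ : V × W →* (M →ₗ[F] M)) (σ : V →* (S →ₗ[F] S))
    (X : Subgroup (V × W) → Prop), PS X ρ →
    ∀ (q : M →ₗ[F] S) (s : S →ₗ[F] M) (f : V → W),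
    (∀ w m, q (ρ w m) = σ w.1 (q m)) → (∀ u x, s (σ u x) = ρ (u, f u) (s x)) →
    (∀ x, q (s x) = x) → PS (fun _ => True) σ

/-- PSF: the permutation module itself and its corners: M is a module with a basis
permuted by H, and N a retract of it; in frame form: the family b permuted by H and
functionals. FG-version: for a group G, a homomorphism u : V → G, and e in FG commuting with
the image of V, idempotent, the corner e FG e is a summand of the V × V-permutation module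
G. -/
def PsgStmt : Prop :=
  ∀ (F G V A : Type) [Field F] [Group G] [Finite G] [Group V] [Ring A] [Algebra F A]
    (u : V →* G) (e : MonoidAlgebra F G), e * e = e →
    (∀ v : V, e * MonoidAlgebra.of F G (u v) = MonoidAlgebra.of F G (u v) * e) →
    ∀ (i : A →ₗ[F] MonoidAlgebra F G) (α : V →* A), Function.Injective i →
    (∀ a b : A, i (a * b) = i a * i b) → (∀ x, (∃ a, i a = x) ↔ e * x * e = x) →
    (∀ v : V, i (α v) = e * MonoidAlgebra.of F G (u v)) →
    PS (fun K => ∃ g : G, ∀ w : V × V, w ∈ K ↔ u w.1 * g = g * u w.2) (bi F α)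

end Pool.Agent.PFC
end -- Pool.Agent.PFC.StmtsB4a

section -- Pool.Agent.PFC.StmtsB5b

/-!
# Squad PFC, block B5b, part 1: number of simple modules of corners; the last step of part (0)

Definitions: `DefsP.lean` (`kers`, `ls`, `Sep`, `cpr`, `SExt`), `DefsP2.lean` (`Ctx`, `Cz`, `Frm`,
`Tpv`, `Lcq`, `PIn`, `PuiStmt`), `DefsB4.lean` (`Fx`, `BK`, `IsFr`, `PS`, `Hig`, `bi`, `cj`, `tw`).
-/

open scoped BigOperators TensorProduct

noncomputable section

namespace Pool.Agent.PFC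

/-- `Y` is the corner `j X j` of the algebra `X`, with inclusion `κ`. -/
structure Cnr {F X Y : Type} [Field F] [Ring X] [Algebra F X] [Ring Y] [Algebra F Y]
    (j : X) (κ : Y →ₗ[F] X) : Prop where
  inj : Function.Injective κ
  mul : ∀ a b, κ (a * b) = κ a * κ b
  one : κ 1 = j
  ran : ∀ a, j * a = a → a * j = a → ∃ b, κ b = a

/-- LSC: a corner has at most as many simple modules.

Proof.  Let `ρ : Y → Mat_d(F)` be surjective, `K` its kernel; `K` is a maximal ideal (`Mat_d(F)` is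
simple).  Put `K^ = {x ∈ X : j a x b j ∈ κ(K) for all a, b ∈ X}`, a two-sided ideal of `X`;
`K^ ∩ κ(Y) = κ(K)` (so `K` is determined by `K^`, and `j ∉ K^`).  The algebra `Z = X/K^` is simple up
to the following argument: every ideal `I` of `X` which contains `K^` properly contains some
`j a x b j ∉ κ(K)`, so `κ⁻¹(I)` is an ideal of `Y` which contains `K` properly, so `j ∈ I`.  Hence the
image of `j` is in every nonzero ideal of `Z`; the radical of `Z` is nilpotent and does not contain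
the idempotent `j ≠ 0`, so it is zero; `Z` is semisimple and all its nonzero ideals contain the image
of `j`, so `Z` is simple, `Z = Mat_n(F)` (`F` is algebraically closed, `Z` is finite-dimensional).  So
`K^ ∈ kers F X`, and `K ↦ K^` is injective; `kers F X` is finite (`X` is finite-dimensional: the
maximal ideals `K_1, …, K_r` are pairwise comaximal, so `r ≤ dim X`).
Or: a simple `Y`-module `U` gives the simple quotient of `X j ⊗ U`. -/
def LscStmt : Prop :=
  ∀ (F X Y : Type) [Field F] [IsAlgClosed F] [Ring X] [Algebra F X] [FiniteDimensional F X]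
    [Ring Y] [Algebra F Y] (j : X) (κ : Y →ₗ[F] X), Cnr j κ → ls F Y ≤ ls F X

/-- LSF: a full corner (`X j X = X`) has at least as many simple modules.

Proof.  Let `ρ : X → Mat_n(F)` be surjective, `K` its kernel.  `ρ(j)` is an idempotent, it is not `0`
because `1 ∈ X j X`.  Let `r > 0` be its rank; choose an isomorphism of `ρ(j) Mat_n(F) ρ(j)` with
`Mat_r(F)` (conjugate `ρ(j)` to a diagonal idempotent).  So `Y → Mat_r(F)` is surjective with kernel
`κ⁻¹(K)`.  `K` is determined by `κ⁻¹(K)`: `x ∈ K` if and only if all `j a x b j` are in `K` (if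
`ρ(x) ≠ 0` then `ρ(j) Mat_n ρ(x) Mat_n ρ(j) ≠ 0`, elementary matrices).  `kers F Y` is finite. -/
def LsfStmt : Prop :=
  ∀ (F X Y : Type) [Field F] [IsAlgClosed F] [Ring X] [Algebra F X] [FiniteDimensional F X]
    [Ring Y] [Algebra F Y] (j : X) (κ : Y →ₗ[F] X), Cnr j κ →
    (1 : X) ∈ Submodule.span F {x | ∃ a b : X, x = a * j * b} → ls F X ≤ ls F Y

/-- LSM: `N ⊗ A` has at most as many simple modules as `A` if `N` is a full matrix algebra.

Proof.  `LSF` with `X = N ⊗ A`, `Y = A`, `j = e_11 ⊗ 1`, `κ(a) = e_11 ⊗ a`: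
`1 = ∑ (e_i1 ⊗ 1) j (e_1i ⊗ 1)`, and `j (x ⊗ a) j = x_11 e_11 ⊗ a` (identify `N ⊗ A` with the matrices
over `A`, or use the `F`-linear map `x ⊗ a ↦ x_11 a`). -/
def LsmStmt : Prop :=
  ∀ (F N A : Type) [Field F] [IsAlgClosed F] [Ring N] [Algebra F N] [Ring A] [Algebra F A]
    [FiniteDimensional F A] (n : ℕ), 0 < n → Nonempty (N ≃ₐ[F] Matrix (Fin n) (Fin n) F) →
    ls F (N ⊗[F] A) ≤ ls F A

/-- SMD: a homomorphism of the semidirect product.

Proof.  `E` is cyclic with generator `e0`; the units of `A`: `u ↦ α(u)`, `e0^k ↦ y^k` is well defined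
because `y^|E| = 1`; `y^k α(u) = α(φ(e0^k) u) y^k`.  `SemidirectProduct.lift` to the units of `A`. -/
def SmdStmt : Prop :=
  ∀ (V E A : Type) [CommGroup V] [Group E] [Finite E] [Ring A] (φ : E →* MulAut V) (e0 : E)
    (α : V →* A) (y : A), (∀ e : E, e ∈ Subgroup.zpowers e0) →
    (∀ u, y * α u = α (φ e0 u) * y) → y ^ Nat.card E = 1 →
    ∃ γ : V ⋊[φ] E →* A, (∀ u, γ (SemidirectProduct.inl u) = α u) ∧
      γ (SemidirectProduct.inr e0) = y

/-- the Higman maps for all the invariant retractions -/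
def HigA (F : Type) {Γ A : Type} [Field F] [Ring A] [Algebra F A] [Group Γ] [Fintype Γ]
    (γ : Γ →* A) : Prop :=
  ∀ lam : A →ₗ[F] F, lam 1 = 1 → (∀ g, g ≠ 1 → lam (γ g) = 0) →
    (∀ g a, lam (γ g * a) = lam (a * γ g)) →
    ∃ al : A →ₗ[F] A, ∀ x, ∑ g, ∑ h, γ g * al (γ g⁻¹ * x * γ h⁻¹) * γ h = cpr F γ lam x

/-- `A(R) = F V` for all `R ≠ 1`, in the spanning form -/
def Spn (F : Type) {V A : Type} [Field F] [CommGroup V] [Fintype V] [Ring A] [Algebra F A]
    (α : V →* A) : Prop :=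
  ∀ R : Subgroup V, R ≠ ⊥ → ∀ a ∈ Fx (cj F α) R, ∃ c : V → F,
    a - ∑ u, c u • α u ∈ BK (cj F α) R

/-- HGP: the complement of `F Γ` is a projective bimodule.

Proof.  Write `α = γ ∘ inl`, `n_e = γ(inr e)`.  `cpr` is an idempotent linear map which commutes with
left and right multiplication by `γ(Γ)`, and it is `0` on the span of `γ(Γ)` (formal from the three
properties of `lam`).  Let `P` be its image, a retract of `A` as `V × V`-module, so `PS X` holds for `P`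
(row `PSM`).  Let `C ≤ V × V` have order `ℓ`.  Claim: every `C`-fixed vector of `P` is in the Brauer
kernel at `C`.  If no stabiliser of the frame of `A` contains `C` this is the key lemma on frames
(`frame_iff`: no fixed points in `Ω`), for `A` and so for the retract.  Otherwise `C ≤ tw e R`, so
`C = tw e R'` with `R' ≤ R` of order `ℓ` (`tw e` is injective on subgroups).  Let `x ∈ P` be fixed by `C`:
`α(e u) x = x α(u)` for `u ∈ R'`.  Then `n_e⁻¹ x` commutes with `α(R')` (`n_e α(u) n_e⁻¹ = α(e u)`), so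
`n_e⁻¹ x = ∑ c_u α(u) + z`, `z ∈ BK (cj) R'`; hence `x = ∑ c_u n_e α(u) + n_e z`, and `n_e z` is in
`BK (bi) C` (left multiplication by `n_e` carries conjugation by `u` to `(e u, u)`; subgroups of `R'` and
transversals correspond; `R'` has order `ℓ`, so only the traces from `1` occur).  Apply `cpr`:
`x = cpr x = cpr (n_e z)`, in the Brauer kernel of `P` at `C`.  So the projectivity test `PRJ` gives
`Hig` for `V × V` on `P`, and `HGX` (index of `V × V` in `Γ × Γ` is `|E|²`, prime to `ℓ`) gives `Hig` for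
`Γ × Γ` on `P` with `(g, h) x = g x h⁻¹`.  With `a : P → P` put `al = ι ∘ a ∘ cpr`, replace `h` by
`h⁻¹` in the sum. -/
def HgpStmt : Prop :=
  ∀ (F V E A : Type) [Field F] [CommGroup V] [Fintype V] [Group E] [Fintype E]
    [Ring A] [Algebra F A] (ℓ : ℕ) [CharP F ℓ] (φ : E →* MulAut V) (e0 : E)
    [Fintype (V ⋊[φ] E)] (γ : V ⋊[φ] E →* A), Ctx ℓ φ e0 →
    PS (fun K => ∃ (e : E) (R : Subgroup V), K = tw (φ e).toMonoidHom R)
      (bi F (γ.comp SemidirectProduct.inl)) →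
    Spn F (γ.comp (SemidirectProduct.inl : V →* V ⋊[φ] E)) → HigA F γ

/-- SEX (author helper79): separability and the form.

`mu` symmetrising with `mu(∑ V) ≠ 0`, the centraliser of `V` is local, `1` is not in the Brauer kernel,
the complement is projective: all of `SExt`. -/
def SexStmt : Prop :=
  ∀ (F V E A : Type) [Field F] [IsAlgClosed F] [CommGroup V] [Fintype V] [Group E] [Fintype E]
    [Ring A] [Algebra F A] [FiniteDimensional F A] (ℓ : ℕ) [CharP F ℓ] (φ : E →* MulAut V)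
    (e0 : E) [Fintype (V ⋊[φ] E)] (γ : V ⋊[φ] E →* A) (mu : A →ₗ[F] F), Ctx ℓ φ e0 →
    Frm F (γ.comp (SemidirectProduct.inl : V →* V ⋊[φ] E)) mu →
    IsLocalRing (Cz F (γ.comp (SemidirectProduct.inl : V →* V ⋊[φ] E)) ⊤) →
    (1 : A) ∉ BK (cj F (γ.comp (SemidirectProduct.inl : V →* V ⋊[φ] E))) ⊤ →
    HigA F γ → SExt F γ

/-- The result of the chain before the last step. -/
structure Mid (F : Type) {V E A : Type} [Field F] [CommGroup V] [Fintype V] [Group E]
    [Ring A] [Algebra F A] (φ : E →* MulAut V) (e0 : E) (α : V →* A) : Prop where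
  fin : FiniteDimensional F A
  frm : ∃ lam, Frm F α lam
  loc : IsLocalRing (Cz F α ⊤)
  one : (1 : A) ∉ BK (cj F α) ⊤
  ps : PS (fun K => ∃ (e : E) (R : Subgroup V), K = tw (φ e).toMonoidHom R) (bi F α)
  spn : Spn F α
  uni : ∃ y : A, (∀ u, y * α u = α (φ e0 u) * y) ∧ y ^ Nat.card E = 1

/-- MID: the last step.  Proof: `SMD` gives `γ`, `HGP` the Higman maps, `SEX` the rest. -/
def MidStmt : Prop :=
  ∀ (F V E A : Type) [Field F] [IsAlgClosed F] [CommGroup V] [Fintype V] [Group E] [Fintype E]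
    [Ring A] [Algebra F A] (ℓ : ℕ) [CharP F ℓ] (φ : E →* MulAut V) (e0 : E) (α : V →* A)
    [Fintype (V ⋊[φ] E)], Ctx ℓ φ e0 → Mid F φ e0 α → ∃ γ : V ⋊[φ] E →* A, SExt F γ

end Pool.Agent.PFC
end
end -- Pool.Agent.PFC.StmtsB5b

section -- Pool.Agent.PFC.StmtsB5a

/-!
# Squad PFC, block B5a (helper79): the local structure `A(Q) = Mat_n(F) ⊗ F V` and separability

Complete proofs in the docstrings.  `V` is a finite abelian `ℓ`-group, `F` a field of characteristic
`ℓ`, `β : V → B` an interior `V`-algebra, `bi F β (u, v) x = β u * x * β v⁻¹`,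
`cj F β u x = β u * x * β u⁻¹`.

* Part 1: combinatorics of frames (OMZ, TRS, FVT).
* Part 2: symmetric algebras over a group algebra: relative dual bases (FDB, CUG, CAS, BKI, UNS).
* Part 3: the complement of `F V` (QFR, ALV, SPV, MUV).
* Part 4: the lifting theorem and the local structure (NIL, KWA, KWB, LFT, SUV, INJ, LOC, CPS).
* Part 5: the algebra `A(Q)` (QEX, QFC, QFM, QPS, QTP, QMT, LOQ).
* Part 6: separability of the final algebra (LAM, SPG, SEX).
-/

open scoped BigOperators TensorProduct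

noncomputable section

namespace Pool.Agent.PFC.B5a

section defs

variable (F : Type) {Γ V B A : Type} [Field F] [Group Γ] [CommGroup V] [Ring B] [Algebra F B]
  [Ring A] [Algebra F A]

/-- `E(x) = ∑ lam(g⁻¹ x) g`: the bimodule map from `B` to the span of `Γ` -/
def Ee [Fintype Γ] (γ : Γ →* B) (lam : B →ₗ[F] F) (x : B) : B := ∑ g, lam (γ g⁻¹ * x) • γ g

/-- `c'` is the inverse of `E(1) = ∑ lam(g⁻¹) g`, it commutes with `Γ` and is in the span of `Γ`. -/
structure Ci [Fintype Γ] (γ : Γ →* B) (lam : B →ₗ[F] F) (c' : B) : Prop where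
  lin : c' * Ee F γ lam 1 = 1
  rin : Ee F γ lam 1 * c' = 1
  com : ∀ g, c' * γ g = γ g * c'
  spn : c' ∈ Submodule.span F (Set.range γ)

/-- dual bases of `lam` -/
def Du (lam : B →ₗ[F] F) {κ : Type} [Fintype κ] (b b' : κ → B) : Prop :=
  ∀ x, ∑ k, lam (b' k * x) • b k = x

/-- Casimir element over `Γ` -/
def Csm (γ : Γ →* B) {κ : Type} [Fintype κ] (u v : κ → B) : Prop :=
  ∀ (X : Type) [AddCommGroup X] [Module F X] (T : B →ₗ[F] B →ₗ[F] X),
    (∀ a b g, T (a * γ g) b = T a (γ g * b)) →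
    ∀ c, ∑ k, T (c * u k) (v k) = ∑ k, T (u k) (v k * c)

/-- A frame for the projection `q`: `q x = ∑ c ω x • b ω`, `b` and `c` are equivariant, and the
stabilisers are diagonal subgroups of `V × V`, different from the whole diagonal. -/
structure Qf (β : V →* B) (q : B →ₗ[F] B) {Ω : Type} [Fintype Ω] [MulAction (V × V) Ω]
    (b : Ω → B) (c : Ω → (B →ₗ[F] F)) : Prop where
  eb : ∀ (w : V × V) (ω : Ω), b (w • ω) = bi F β w (b ω)
  ec : ∀ (w : V × V) (ω : Ω) (x : B), c (w • ω) (bi F β w x) = c ω x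
  sum : ∀ x : B, ∑ ω, c ω x • b ω = q x
  st : ∀ ω : Ω, ∃ R : Subgroup V, R ≠ ⊤ ∧
    MulAction.stabilizer (V × V) ω = tw (MonoidHom.id V) R

/-- the augmentation of `F V` -/
def au (V : Type) [CommGroup V] : MonoidAlgebra F V →ₐ[F] F := MonoidAlgebra.lift F F V 1

/-- `f : B → Mat_n(F V)` lifts `π : B → Mat_n(F)` and maps `u` to `π(u) ⊗ u`. -/
structure Lf (β : V →* B) (n : ℕ) (π : B →ₐ[F] Matrix (Fin n) (Fin n) F)
    (f : B → Matrix (Fin n) (Fin n) (MonoidAlgebra F V)) : Prop where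
  aug : ∀ x i j, au F V (f x i j) = π x i j
  grp : ∀ u i j, f (β u) i j = MonoidAlgebra.single u (π (β u) i j)

/-- The local data: `B = A(Q)` for `Q ≠ 1`. -/
structure LB [Fintype V] (β : V →* B) (n : ℕ) (π : B →ₐ[F] Matrix (Fin n) (Fin n) F) : Prop where
  fin : FiniteDimensional F B
  frm : ∃ lam, Frm F β lam
  loc : IsLocalRing (Cz F β ⊤)
  ps : PS (fun K => ∃ R : Subgroup V, K = tw (MonoidHom.id V) R) (bi F β)
  top : Tpv F β
  pos : 0 < n
  sur : Function.Surjective π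
  nil : ∀ b, π b = 0 → IsNilpotent b
  cop : (n : F) ≠ 0

/-- `V → Cz F α Q` (`V` is commutative) -/
def zin (α : V →* A) (Q : Subgroup V) : V →* Cz F α Q where
  toFun u := ⟨α u, by
    rw [Cz, Subalgebra.mem_centralizer_iff]
    rintro _ ⟨v, -, rfl⟩
    rw [← map_mul, ← map_mul, mul_comm]⟩
  map_one' := by
    apply Subtype.ext
    exact map_one α
  map_mul' u v := by
    apply Subtype.ext
    exact map_mul α u v

/-- `q : Cz F α Q → B` is the quotient map to `B = A(Q)`. -/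
structure QA (α : V →* A) (Q : Subgroup V) (q : Cz F α Q →ₐ[F] B) : Prop where
  sur : Function.Surjective q
  ker : ∀ a : Cz F α Q, q a = 0 ↔ (a : A) ∈ BK (cj F α) Q

/-- the structure homomorphism of `A(Q)` -/
def be (α : V →* A) (Q : Subgroup V) (q : Cz F α Q →ₐ[F] B) : V →* B :=
  (q : Cz F α Q →* B).comp (zin F α Q)

end defs

/-! ## Part 1 -/

/-- OMZ: representatives of the orbits of `1 × V`, stable under the diagonal.

Proof.  Choose a point `ω_O` in every orbit `O` of `V × V` on `Ω` (`Quotient.out`), its stabiliser is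
`{(r, r) | r ∈ R}`, and put `Ω₀ = {ω | ∃ a, ω = (a, a) • ω_O, O the orbit of ω}` (a filter of
`Finset.univ`).  `Ω₀` is stable under the diagonal.  The map `(ω, h) ↦ (1, h) • ω` from `Ω₀ × V` to
`Ω` is bijective: `(a, b) • ω_O = (1, b a⁻¹) • ((a, a) • ω_O)`; and if
`(1, h) • (a, a) • ω_O = (1, h') • (a', a') • ω_O`, then
`(a'⁻¹ a, a'⁻¹ h'⁻¹ h a)` is in the stabiliser, so its two coordinates are equal and `h = h'`; then
`(a, a) • ω_O = (a', a') • ω_O` as `(1, h) • ` is injective.  Now the formula is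
`Finset.sum_bij` / `Function.Bijective.sum_comp`. -/
def OmzStmt : Prop := ∀ (V Ω : Type) [CommGroup V] [Fintype V] [Fintype Ω]
  [MulAction (V × V) Ω],
  (∀ ω : Ω, ∃ R : Subgroup V, MulAction.stabilizer (V × V) ω = tw (MonoidHom.id V) R) →
  ∃ Ω₀ : Finset Ω, (∀ g : V, ∀ ω ∈ Ω₀, ((g, g) : V × V) • ω ∈ Ω₀) ∧
    ∀ (M : Type) [AddCommMonoid M] (f : Ω → M),
      ∑ ω, f ω = ∑ ω ∈ Ω₀, ∑ h : V, f (((1, h) : V × V) • ω)

/-- TRS: the sum of an equivariant family over a finite `H`-set without `P`-fixed points is in the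
Brauer kernel.

Proof.  Induction on the size of the set `T`, as in `orbit_BK` (`PFC/B4/Key.lean`): take `ω ∈ T`, the
transversal `S` of `P ⊓ stabilizer ω` in `P` from `exTv`, the orbit `O = S.image (· • ω)`;
`∑_{O} W = ∑_{x ∈ S} ρ x (W ω)`, `W ω` is fixed by `P ⊓ stabilizer ω`, which is a proper subgroup of
`P`. -/
def TrsStmt : Prop := ∀ (F H M Ω : Type) [Field F] [Group H] [Finite H] [AddCommGroup M]
  [Module F M] [MulAction H Ω] (ρ : H →* (M →ₗ[F] M)) (P : Subgroup H) (W : Ω → M)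
  (T : Finset Ω), (∀ ω ∈ T, ∀ h ∈ P, h • ω ∈ T) → (∀ ω ∈ T, ¬ ∀ h ∈ P, h • ω = ω) →
  (∀ h ∈ P, ∀ ω, W (h • ω) = ρ h (W ω)) → ∑ ω ∈ T, W ω ∈ BK ρ P

/-- FVT: an `ℓ`-group acting on a nonzero `F`-space has a nonzero fixed vector.

Proof.  Let `S` be the additive subgroup of `N` generated by the finitely many elements `ρ h m`.  It
is a finitely generated `ZMod ℓ`-module (`ℓ x = 0` for all `x`), so it is finite, its order is a power
of `ℓ` and it is not trivial; `H` acts on it; `0` is a fixed point, so there is another one by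
`IsPGroup.exists_fixed_point_of_prime_dvd_card_of_fixed_point`. -/
def FvtStmt : Prop := ∀ (ℓ : ℕ) [Fact ℓ.Prime] (F H M : Type) [Field F] [CharP F ℓ] [Group H]
  [Finite H] [AddCommGroup M] [Module F M] (ρ : H →* (M →ₗ[F] M)) (N : Submodule F M),
  IsPGroup ℓ H → (∀ h : H, ∀ m ∈ N, ρ h m ∈ N) → N ≠ ⊥ → ∃ m ∈ N, m ≠ 0 ∧ m ∈ Fx ρ ⊤

/-! ## Part 2 -/

/-- FDB: dual bases.

Proof.  Take a basis `b` of `B` and the dual basis `b'` for the bilinear form `lam (x y)`, so
`lam (b' i * b j) = δ_ij` (`LinearMap.BilinForm.dualBasis`, or invert the Gram matrix). -/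
def FdbStmt : Prop := ∀ (F B : Type) [Field F] [Ring B] [Algebra F B] [FiniteDimensional F B]
  (lam : B →ₗ[F] F), (∀ a b, lam (a * b) = lam (b * a)) →
  (∀ a, (∀ b, lam (a * b) = 0) → a = 0) →
  ∃ (m : ℕ) (b b' : Fin m → B), Du F lam b b' ∧ ∀ x, ∑ k, lam (x * b k) • b' k = x

/-- CUG: `E(1)` is a unit.

Proof.  Let `c = E(1) = ∑ lam(g⁻¹) g`.  `γ h * c = c * γ h`:
`γ h c γ h⁻¹ = ∑ lam(γ g⁻¹) γ(h g h⁻¹) = ∑ lam(γ(h⁻¹ g⁻¹ h)) γ g = c` by the symmetry of `lam`.
Left multiplication by `c` is injective: let `N = {b | c b = 0}`; it is stable under left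
multiplication by `Γ`, so if `N ≠ 0` there is `b ∈ N`, `b ≠ 0`, `γ w b = b` for all `w ∈ W` (FVT for
the group `W`).  Group the sum by the cosets `t W`: if `t ∉ W` then for all `w ∈ W` the element `t w` is
conjugate to `t` by an element of `W`: the map `W → W`, `w ↦ t⁻¹ w t w⁻¹` (in `W` as `W` is normal) is
injective, as `t⁻¹ w t w⁻¹ = t⁻¹ v t v⁻¹` gives that `v⁻¹ w` commutes with `t` (`W` commutative), so it
is surjective, and `w t w⁻¹ = t (t⁻¹ w t w⁻¹)`.  So `lam(γ (t w)⁻¹) = lam(γ t⁻¹)` for all `w`, and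
the coset contributes `|W| lam(γ t⁻¹) γ t b = 0` (`ℓ` divides `|W|`).  The coset `W` contributes
`(∑_{w ∈ W} lam(γ w⁻¹)) b = lam(∑_W γ w) b`.  So `0 = c b = lam(∑_W γ w) b ≠ 0`, a contradiction.
The span `L` of `γ(Γ)` is a finite dimensional subalgebra which contains `c`; `x ↦ c x` is an injective
map from `L` to `L`, so it is surjective: `c c' = 1` with `c' ∈ L`; it is also a left inverse
(`c (c' c - 1) = 0`), and it commutes with `Γ`. -/
def CugStmt : Prop := FvtStmt → ∀ (ℓ : ℕ) [Fact ℓ.Prime] (F Γ B : Type) [Field F] [CharP F ℓ]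
  [Group Γ] [Fintype Γ] [Ring B] [Algebra F B] [FiniteDimensional F B] (γ : Γ →* B)
  (lam : B →ₗ[F] F) (W : Subgroup Γ), (∀ a b, lam (a * b) = lam (b * a)) → W.Normal →
  W ≠ ⊥ → IsPGroup ℓ W → (∀ a ∈ W, ∀ b ∈ W, a * b = b * a) →
  (∀ t, t ∉ W → ∀ w ∈ W, t * w = w * t → w = 1) →
  lam (∑ᶠ w : W, γ w) ≠ 0 → ∃ c', Ci F γ lam c'

/-- CAS: the relative dual basis and the Casimir element.  `al` is the projectivity of the
complement as a right `Γ`-module.

Proof.  Let `E = Ee F γ lam`, `x_0 = c'`, `y_0 = 1`, `x_k = al (b k)`, `y_k = b' k`.  (1) `E` is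
`F`-linear, `E(γ g x) = γ g E(x)`, `E(x γ g) = E(x) γ g` (symmetry of `lam`), the values are in the
span of `Γ`, so `c'` commutes with them.  (2) `a = ∑ x_i E(y_i a)`:
`∑_k al(b k) E(b' k a) = ∑_h al(∑_k lam(γ h⁻¹ b' k a) b k) γ h = ∑_h al(a γ h⁻¹) γ h`
(`lam(γ h⁻¹ b' k a) = lam(b' k a γ h⁻¹)`, `Du`) `= a - E(a) c'`.  (3) `lam(z E(y)) = lam(E(z) y)`:
both are `∑ lam(γ g⁻¹ y) lam(z γ g)`, `∑ lam(γ g⁻¹ z) lam(γ g y)`, replace `g` by `g⁻¹`.  (4) so
`lam(b a) = ∑ lam(b x_i E(y_i a)) = lam((∑ E(b x_i) y_i) a)` for all `a`, so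
`b = ∑ E(b x_i) y_i`.  (5) For balanced `T`: `∑_i T(c x_i)(y_i) = ∑_{i,j} T(x_j E(y_j c x_i))(y_i) =
∑_{i,j} T(x_j)(E(y_j c x_i) y_i) = ∑_j T(x_j)(y_j c)`. -/
def CasStmt : Prop := ∀ (F Γ B : Type) [Field F] [Group Γ] [Fintype Γ] [Ring B] [Algebra F B]
  (γ : Γ →* B) (lam : B →ₗ[F] F) (c' : B) (al : B →ₗ[F] B) (m : ℕ) (b b' : Fin m → B),
  (∀ a b, lam (a * b) = lam (b * a)) → (∀ a, (∀ b, lam (a * b) = 0) → a = 0) →
  Ci F γ lam c' → (∀ x, ∑ h, al (x * γ h⁻¹) * γ h = x - Ee F γ lam x * c') → Du F lam b b' →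
  Csm F γ (fun k : Option (Fin m) => k.elim c' (fun k => al (b k)))
    (fun k : Option (Fin m) => k.elim 1 b')

/-- BKI: the Brauer kernel is an ideal of the centraliser.

Proof.  `a ∈ Cz F α Q`, `n = ∑_{x ∈ S} x m x⁻¹`, `S ⊆ Q`: `a n = ∑ x (a m) x⁻¹` and `a m` is fixed by
`P'` if `m` is.  The Brauer kernel consists of fixed vectors: `BK_le_Fx` (`PFC/B4/Key.lean`), and
`Fx (cj F α) Q` is the centraliser. -/
def BkiStmt : Prop := ∀ (F V A : Type) [Field F] [CommGroup V] [Finite V] [Ring A] [Algebra F A]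
  (α : V →* A) (Q : Subgroup V),
  (∀ a : A, a ∈ Fx (cj F α) Q ↔ a ∈ Cz F α Q) ∧
  (∀ a ∈ BK (cj F α) Q, a ∈ Cz F α Q) ∧
  ∀ a ∈ Cz F α Q, ∀ n ∈ BK (cj F α) Q, a * n ∈ BK (cj F α) Q ∧ n * a ∈ BK (cj F α) Q

/-- UNS: from a Casimir element to separability.

Proof.  `z = ∑ u k * v k` is central: `Csm` for `T(a)(b) = a b`.  `w = z - c'` is in the Brauer kernel,
an ideal of the local ring `Cz F δ ⊤` which does not contain `1` (BKI).  `c'` is a unit of
`Cz F δ ⊤` (its inverse `d` commutes with `δ(V)` as well), `c' = z + (-w)`; if `z` is not a unit of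
the local ring then `-w` is a unit, and `1 = w⁻¹ w` is in the Brauer kernel, a contradiction.  So
`z z' = z' z = 1`, and `z'` is central.  Take `u k`, `v k * z'`; for balanced `T` apply `Csm` to
`(a, b) ↦ T(a)(b z')`. -/
def UnsStmt : Prop := BkiStmt → ∀ (F Γ V B : Type) [Field F] [Group Γ] [CommGroup V] [Finite V]
  [Ring B] [Algebra F B] (γ : Γ →* B) (δ : V →* B) (κ : Type) [Fintype κ] (u v : κ → B)
  (c' d : B), Csm F γ u v → (∑ k, u k * v k) - c' ∈ BK (cj F δ) ⊤ → c' * d = 1 → d * c' = 1 →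
  (∀ g, c' * δ g = δ g * c') → IsLocalRing (Cz F δ ⊤) → (1 : B) ∉ BK (cj F δ) ⊤ → Sep F γ

/-! ## Part 3 -/

/-- QFR: a frame for the projection to the complement of `F V`, without full stabilisers.

Proof.  `E = Ee F β lam` is linear, `E(β u x) = β u E(x)`, `E(x β u) = E(x) β u` (symmetry of `lam`), so
`E(x s) = E(x) s` for `s` in the span of `β(V)`, in particular `E(x c') = E(x) c'` and
`E(c') = E(1) c' = 1`.  `q x = x - E(x) c'`: `q (β u x) = β u q x`, `q (x β u) = q x β u`, `q (β u) = 0`;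
`E(E(x) c') = E(x)` because `E(x)` is in the span (`E(s c') = s E(c') = s`), so `E(q x) = 0` and
`q (q x) = q x`.  Let `(Ω, b, c)` be the frame from `PS`.  If `ω` is fixed by the diagonal, then
`b ω ∈ Fx (cj F β) ⊤`, `b ω = ∑ k_u β u + m`, `m ∈ BK (cj F β) ⊤` (`Tpv`), and `q (b ω) = q m` is in the
Brauer kernel (`q` commutes with conjugation); so `c ω' (q (b ω)) = 0` for `ω, ω'` both fixed by the
diagonal: the functional `c ω'` of a point fixed by the diagonal kills the Brauer kernel (`frame_BK`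
for the frame restricted to the diagonal copy of `V`: `cj F β u = bi F β (u, u)`, the action of `V` on
`Ω` by `MulAction.compHom`).  Take the `V × V`-set `Ω₂` of the pairs `(ω, ω')` which are not both
fixed by the diagonal (a subtype of `Ω × Ω`), `b₂ (ω, ω') = c ω' (q (b ω)) • b ω'`,
`c₂ (ω, ω') x = c ω (q x)`.  Then `∑ c₂ b₂ = ∑_ω c ω (q x) • q (b ω) = q (q x) = q x` (the pairs which are
left out contribute zero).  The stabiliser of `(ω, ω')` is the intersection `tw id (R ⊓ R')`, and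
`R ⊓ R' ≠ ⊤` (if `R = ⊤` then `ω` is fixed by the diagonal). -/
def QfrStmt : Prop := ∀ (ℓ : ℕ) [Fact ℓ.Prime] (F V B : Type) [Field F] [CharP F ℓ]
  [CommGroup V] [Fintype V] [Ring B] [Algebra F B] [FiniteDimensional F B] (β : V →* B)
  (lam : B →ₗ[F] F) (c' : B), IsPGroup ℓ V → Frm F β lam → Ci F β lam c' →
  PS (fun K => ∃ R : Subgroup V, K = tw (MonoidHom.id V) R) (bi F β) → Tpv F β →
  ∃ q : B →ₗ[F] B, (∀ x, q x = x - Ee F β lam x * c') ∧ (∀ x, q (q x) = q x) ∧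
    ∃ (Ω : Type) (_ : Fintype Ω) (_ : MulAction (V × V) Ω) (b : Ω → B) (c : Ω → (B →ₗ[F] F)),
      Qf F β q b c

/-- ALV: projectivity of the complement as a right module.

Proof.  Let `Ω₀` be as in OMZ and `al x = ∑_{ω ∈ Ω₀} c ω x • b ω`.  `Qf` gives
`q x = ∑_{ω ∈ Ω₀} ∑_h c ((1,h) • ω) x • b ((1,h) • ω)`, `b ((1,h) • ω) = b ω β h⁻¹`,
`c ((1,h) • ω) x = c ω (x β h)`; replace `h` by `h⁻¹`: the first claim.  Second claim: let
`W ω = ∑_k c ω (d_k) • (b ω * d'_k)`; `∑_{Ω₀} W = ∑_k al(d_k) d'_k`.  The element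
`s ω = ∑_k c ω (d_k) • d'_k` satisfies `lam(s ω * x) = c ω x` for all `x` (`Du`), it is determined by
this, so `s ((g,g) • ω) = β g (s ω) β g⁻¹` and `W ((g,g) • ω) = β g (W ω) β g⁻¹`.  TRS for the group `V`
acting on `Ω` through the diagonal (`MulAction.compHom`), `ρ = cj F β`, `P = ⊤`, `T = Ω₀`: no point is
fixed by the diagonal, because the stabiliser is `tw id R` with `R ≠ ⊤`. -/
def AlvStmt : Prop := OmzStmt → TrsStmt → ∀ (F V B : Type)
  [Field F] [CommGroup V] [Fintype V] [Ring B] [Algebra F B] [FiniteDimensional F B]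
  (β : V →* B) (lam : B →ₗ[F] F) (q : B →ₗ[F] B) (Ω : Type) [Fintype Ω] [MulAction (V × V) Ω]
  (b : Ω → B) (c : Ω → (B →ₗ[F] F)), Frm F β lam → Qf F β q b c →
  ∃ al : B →ₗ[F] B, (∀ x, ∑ h, al (x * β h⁻¹) * β h = q x) ∧
    ∀ (m : ℕ) (d d' : Fin m → B), Du F lam d d' → ∑ k, al (d k) * d' k ∈ BK (cj F β) ⊤

/-- SPV: `B` is separable over `F V`.

Proof.  CUG with `Γ = V`, `W = ⊤` gives `c'` (`V` is not trivial).  QFR, ALV give `al`, FDB the dual
bases, CAS the Casimir element, its product is `c' + ∑ al(b k) b' k`; UNS with `δ = β`,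
`d = E(1)`; `1 ∉ BK (cj F β) ⊤` by `Tpv.free` for the indicator function of `1`. -/
def SpvStmt : Prop := FvtStmt → OmzStmt → TrsStmt → BkiStmt → FdbStmt → CugStmt →
  CasStmt → UnsStmt → QfrStmt → AlvStmt → ∀ (ℓ : ℕ) [Fact ℓ.Prime] (F V B : Type) [Field F]
  [CharP F ℓ] [CommGroup V] [Fintype V] [Nontrivial V] [Ring B] [Algebra F B] (β : V →* B)
  (n : ℕ) (π : B →ₐ[F] Matrix (Fin n) (Fin n) F), IsPGroup ℓ V → LB F β n π → Sep F β

/-- MUV: `B` is relatively projective with respect to the diagonal.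

Proof.  The frame `(Ω, b, c)` of `PS`, `Ω₀` of OMZ, `μ x = ∑_{ω ∈ Ω₀} c ω x • b ω`.  As in ALV.  `μ`
commutes with the conjugation because `Ω₀` is stable under the diagonal. -/
def MuvStmt : Prop := OmzStmt → ∀ (F V B : Type) [Field F] [CommGroup V] [Fintype V] [Ring B]
  [Algebra F B] (β : V →* B),
  PS (fun K => ∃ R : Subgroup V, K = tw (MonoidHom.id V) R) (bi F β) →
  ∃ μ : B →ₗ[F] B, (∀ g x, μ (β g * x * β g⁻¹) = β g * μ x * β g⁻¹) ∧
    ∀ x, ∑ h, μ (x * β h⁻¹) * β h = x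

/-! ## Part 4 -/

/-- NIL: the augmentation ideal is nilpotent.

Proof.  The kernel is generated by the finitely many elements `u - 1` (`MonoidAlgebra.of F V u - 1`),
`(u - 1) ^ |V| = u ^ |V| - 1 = 0` if `|V|` is a power of `ℓ`; a finitely generated nil ideal of a
commutative ring is nilpotent (`Ideal.FG.isNilpotent_iff_le_nilradical`). -/
def NilStmt : Prop := ∀ (ℓ : ℕ) [Fact ℓ.Prime] (F V : Type) [Field F] [CharP F ℓ] [CommGroup V]
  [Fintype V], IsPGroup ℓ V → ∃ N : ℕ, RingHom.ker (au F V) ^ N = ⊥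

/-- KWA: the bimodule lift.

Proof.  `τ u = π (β u)`, `g u = τ u ⊗ u` (the matrix with entries `single u (τ u i j)`),
`f₀ b = ∑_v (π(μ(b β v⁻¹)) τ v) ⊗ v`.  Augmentation: `π(∑ μ(b β v⁻¹) β v) = π b`.  Right: `f₀(b β w) =
f₀(b) g w` (substitute `v = v' w`).  Left: `μ(β w b β v⁻¹) = β w μ(b β(w v⁻¹)) β w⁻¹`, so
`f₀(β w b) = g w f₀(b)` (substitute `v = w v'`; `V` is commutative).  `f₀ 1` commutes with all
`g w`, and its augmentation is `1`, so `f₀ 1 = 1 + ν` with `ν` nilpotent (NIL: `ν` has entries in the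
augmentation ideal, `ν ^ N = 0`), it is a unit; take `f b = f₀ b (f₀ 1)⁻¹`. -/
def KwaStmt : Prop := NilStmt → ∀ (ℓ : ℕ) [Fact ℓ.Prime] (F V B : Type) [Field F] [CharP F ℓ]
  [CommGroup V] [Fintype V] [Ring B] [Algebra F B] (β : V →* B) (n : ℕ)
  (π : B →ₐ[F] Matrix (Fin n) (Fin n) F) (μ : B →ₗ[F] B), IsPGroup ℓ V →
  (∀ g x, μ (β g * x * β g⁻¹) = β g * μ x * β g⁻¹) → (∀ x, ∑ h, μ (x * β h⁻¹) * β h = x) →
  ∃ f : B →ₗ[F] Matrix (Fin n) (Fin n) (MonoidAlgebra F V), Lf F β n π f ∧ f 1 = 1 ∧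
    (∀ u x, f (β u * x) = f (β u) * f x) ∧ ∀ u x, f (x * β u) = f x * f (β u)

/-- KWB: the correction step (Külshammer, Okuyama, Watanabe).  `I` is the augmentation ideal.

Proof.  `ω(a, b) = f(a b) - f(a) f(b)`, exactly `ω(a b, c) + ω(a, b) f(c) = ω(a, b c) + f(a) ω(b, c)`.
`T(x)(y) = f(x) ω(y, a)` is balanced: `f(x β g) = f(x) f(β g)`, `ω(β g y, a) = f(β g) ω(y, a)`.
`ν(a) = ∑_k f(u_k) ω(v_k, a)`, `f' = f + ν`.  From the identity with `(v_k, a, b)`:
`ν(a b) = ∑ f(u_k) ω(v_k a, b) + ν(a) f(b) - (∑ f(u_k) f(v_k)) ω(a, b)`; by the Casimir property the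
first sum is `∑ f(a u_k) ω(v_k, b) = f(a) ν(b) + ∑ ω(a, u_k) ω(v_k, b)`, and
`∑ f(u_k) f(v_k) = f(1) - ∑ ω(u_k, v_k) = 1 - ∑ ω(u_k, v_k)`.  So
`f'(a b) - f'(a) f'(b) = ω(a,b) + ν(ab) - f(a) ν(b) - ν(a) f(b) - ν(a) ν(b)` has entries in
`(I ^ k) ^ 2 ≤ I ^ (k + 1)`.  `ν` has entries in `I ^ k ≤ I`, so the augmentation does not change;
`ν(1) = ∑ f(u_k) ω(v_k, 1) = 0`; `ν(a β w) = ν(a) f(β w)`; `ω(v_k, β w a) = ω(v_k β w, a)`, so
`ν(β w a) = ∑ f(u_k) ω(v_k β w, a) = ∑ f(β w u_k) ω(v_k, a) = f(β w) ν(a)`;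
`ν(β w) = ν(1) f(β w) = 0`, so `f'(β w) = f(β w)`. -/
def KwbStmt : Prop := ∀ (F V B : Type) [Field F] [CommGroup V] [Fintype V] [Ring B]
  [Algebra F B] (β : V →* B) (n : ℕ) (π : B →ₐ[F] Matrix (Fin n) (Fin n) F) (k : ℕ)
  (f : B →ₗ[F] Matrix (Fin n) (Fin n) (MonoidAlgebra F V)), Sep F β → 1 ≤ k →
  Lf F β n π f → f 1 = 1 → (∀ u x, f (β u * x) = f (β u) * f x) →
  (∀ u x, f (x * β u) = f x * f (β u)) →
  (∀ x y i j, (f (x * y) - f x * f y) i j ∈ RingHom.ker (au F V) ^ k) →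
  ∃ f' : B →ₗ[F] Matrix (Fin n) (Fin n) (MonoidAlgebra F V), Lf F β n π f' ∧ f' 1 = 1 ∧
    (∀ u x, f' (β u * x) = f' (β u) * f' x) ∧ (∀ u x, f' (x * β u) = f' x * f' (β u)) ∧
    ∀ x y i j, (f' (x * y) - f' x * f' y) i j ∈ RingHom.ker (au F V) ^ (k + 1)

/-- LFT: the lifting theorem.

Proof.  MUV, KWA; the defect `f(x y) - f(x) f(y)` has entries in `I ^ 1` because `π` is
multiplicative; KWB and induction, `I ^ N = 0` (NIL). -/
def LftStmt : Prop := OmzStmt → MuvStmt → NilStmt → KwaStmt → KwbStmt → ∀ (ℓ : ℕ) [Fact ℓ.Prime]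
  (F V B : Type) [Field F] [CharP F ℓ] [CommGroup V] [Fintype V] [Ring B] [Algebra F B]
  (β : V →* B) (n : ℕ) (π : B →ₐ[F] Matrix (Fin n) (Fin n) F), IsPGroup ℓ V → Sep F β →
  PS (fun K => ∃ R : Subgroup V, K = tw (MonoidHom.id V) R) (bi F β) →
  ∃ f : B →ₐ[F] Matrix (Fin n) (Fin n) (MonoidAlgebra F V), Lf F β n π f

/-- SUV: the lift is surjective.

Proof.  `I` the augmentation ideal of `F V`, `B₁` the range of `f`.  Let
`U = {a ∈ I | ∃ b ∈ B₁, all entries of b - a • 1 are in I ^ 2}`, an `F`-subspace of `I` which contains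
`I ^ 2`.  Claim: `U = I`.  Otherwise `u₀ - 1 ∉ U` for some `u₀ ∈ V` (the `u - 1` span `I`), and there is
a linear functional `θ` on `F V` with `θ(1) = 0`, `θ(U) = 0` and `θ(u₀) ≠ 0` (`u₀ - 1` is not in
`F 1 + U`: apply the augmentation).  Put `t₁(b) = θ(tr(f b))`, an `F`-linear map `B → F` with
`t₁(b b') = t₁(b' b)`.  It vanishes on `ker π`: if `π b = 0` then the entries `x_ij` of `f b` are in
`I`; let `e_k, e'_k ∈ B` be preimages under `π` of the matrix units `E_ki`, `E_jk`; the element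
`∑_k e_k b e'_k` has `f`-value congruent to `x_ij • 1` modulo `I ^ 2` (the entries of `f e_k` are those
of `E_ki` modulo `I`), so `x_ij ∈ U` and `θ(x_ij) = 0`.  So `t₁ = t ∘ π` for a linear
`t : Mat_n(F) → F` which vanishes on the commutators, so `t = c tr` for some `c : F`, and
`c n = t(1) = θ(n) = 0`, so `c = 0` and `t₁ = 0`.  But `t₁(β u) = θ(tr(τ u) u) = tr(τ u) θ(u)`, and
`tr(τ u) = n ≠ 0` because `τ u - 1` is nilpotent (`(τ u - 1) ^ |V| = τ(u ^ |V|) - 1 = 0` in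
characteristic `ℓ`; the trace of a nilpotent matrix is `0`).  So `θ(u) = 0` for all `u`, a
contradiction.
Now every matrix with entries in `I ^ k` is in `B₁` modulo the matrices with entries in `I ^ (k+1)`:
for `k = 0` lift `π`; for `k ≥ 1` it is enough to take `a_1 ... a_k E_ij` with `a_s ∈ I`; with
`b_s ∈ B₁` congruent to `a_s • 1` modulo `I ^ 2` and `e ∈ B₁` congruent to `E_ij` modulo `I`, the
product `b_1 ... b_k e` is congruent to it modulo `I ^ (k+1)`.  `I ^ N = 0` (NIL), so `B₁` is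
everything. -/
def SuvStmt : Prop := NilStmt → ∀ (ℓ : ℕ) [Fact ℓ.Prime] (F V B : Type) [Field F] [CharP F ℓ]
  [CommGroup V] [Fintype V] [Ring B] [Algebra F B] (β : V →* B) (n : ℕ)
  (π : B →ₐ[F] Matrix (Fin n) (Fin n) F)
  (f : B →ₐ[F] Matrix (Fin n) (Fin n) (MonoidAlgebra F V)), IsPGroup ℓ V →
  Function.Surjective π → (n : F) ≠ 0 → Lf F β n π f → Function.Surjective f

/-- INJ: the lift is injective.

Proof.  `C = Mat_n(F V)`, `g u = τ u ⊗ u`.  For `c ∈ C` let `y_u(c)` be the matrix of the coefficients at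
`u` of the entries, `κ_u(c) = τ u⁻¹ y_u(c)`, so `c = ∑_u g u (κ_u(c) ⊗ 1)`, and `κ_u(g v c) =
κ_{v⁻¹u}(c)`.  Put `w_ij(c) = ∑_u κ_u(c)_ij β u ∈ B`: `w_ij(g v c) = β v w_ij(c)` and
`c = ∑_ij f(w_ij(c)) (E_ij ⊗ 1)`.  With the separability element `u_k, v_k` put
`s_ij(c) = ∑_k u_k w_ij(f(v_k) c)`.  By the Casimir property for the balanced map
`T(x)(y) = x w_ij(f(y) c)`: `s_ij(f(b) c) = b s_ij(c)`; and `∑_ij f(s_ij(c)) (E_ij ⊗ 1) =
∑_k f(u_k) f(v_k) c = c`.  Let `f k = 0`.  For all `b`: `k b s_ij(1) = s_ij(f(k b)) = 0`.  Not all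
`π(s_ij(1))` are zero: otherwise the entries of `1 = ∑ f(s_ij(1)) (E_ij ⊗ 1)` are in the augmentation
ideal, but `n > 0`.  Let `x = s_ij(1)`, `π(x)_pq ≠ 0`, `e_m, e'_m ∈ B` preimages of `E_mp`, `E_qm`,
`y = π(x)_pq⁻¹ ∑_m e_m x e'_m`; then `π y = 1`, `k y = 0`, and `1 - y` is nilpotent, so `y` is a unit
and `k = 0`. -/
def InjStmt : Prop := ∀ (F V B : Type) [Field F] [CommGroup V] [Fintype V] [Ring B]
  [Algebra F B] (β : V →* B) (n : ℕ) (π : B →ₐ[F] Matrix (Fin n) (Fin n) F)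
  (f : B →ₐ[F] Matrix (Fin n) (Fin n) (MonoidAlgebra F V)), 0 < n → Sep F β →
  Function.Surjective π → (∀ b, π b = 0 → IsNilpotent b) → Lf F β n π f → Function.Injective f

/-- LOC: the local structure.

Proof.  SPV, LFT, SUV, INJ. -/
def LocStmt : Prop := FvtStmt → OmzStmt → TrsStmt → BkiStmt → FdbStmt → CugStmt →
  CasStmt → UnsStmt → QfrStmt → AlvStmt → MuvStmt → NilStmt → KwaStmt → KwbStmt →
  SpvStmt → LftStmt → SuvStmt → InjStmt → ∀ (ℓ : ℕ) [Fact ℓ.Prime] (F V B : Type)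
  [Field F] [CharP F ℓ] [CommGroup V] [Fintype V] [Nontrivial V] [Ring B] [Algebra F B]
  (β : V →* B) (n : ℕ) (π : B →ₐ[F] Matrix (Fin n) (Fin n) F), IsPGroup ℓ V → LB F β n π →
  ∃ f : B →ₐ[F] Matrix (Fin n) (Fin n) (MonoidAlgebra F V), Lf F β n π f ∧
    Function.Bijective f

/-- CPS: `Mat_n(F)` with the conjugation by `τ u = π (β u)` is a summand of a permutation module.

Proof.  The frame `(Ω, b, c)` of `bi F β`, `V` acts on `Ω` through the diagonal.  `s : Mat_n(F) → B`,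
`s(x) = f⁻¹(x ⊗ 1)` (entries `single 1 (x i j)`), `r : B → Mat_n(F)`, `r(b)` = the coefficients at
`1` of the entries of `f b`.  `r(s x) = x`; both commute with the conjugations
(`f(β u b β u⁻¹) = (τ u ⊗ u) f(b) (τ u⁻¹ ⊗ u⁻¹)`, `V` is commutative).  The new frame is
`r (b ω)`, `x ↦ c ω (s x)`. -/
def CpsStmt : Prop := ∀ (F V B : Type) [Field F] [CommGroup V] [Fintype V] [Ring B]
  [Algebra F B] (β : V →* B) (n : ℕ) (π : B →ₐ[F] Matrix (Fin n) (Fin n) F)
  (f : B →ₐ[F] Matrix (Fin n) (Fin n) (MonoidAlgebra F V)) (X : Subgroup (V × V) → Prop),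
  Lf F β n π f → Function.Bijective f → PS X (bi F β) →
  PS (fun _ => True) (cj F ((π : B →* Matrix (Fin n) (Fin n) F).comp β))

/-! ## Part 5 -/

/-- QEX: the quotient algebra exists.

Proof.  By BKI the elements of `Cz F α Q` which are in the Brauer kernel form a two-sided ideal; take
the quotient ring (`Ideal.Quotient.mkₐ`, `Ideal.IsTwoSided`). -/
def QexStmt : Prop := BkiStmt → ∀ (F V A : Type) [Field F] [CommGroup V] [Finite V] [Ring A]
  [Algebra F A] (α : V →* A) (Q : Subgroup V),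
  ∃ (B : Type) (_ : Ring B) (_ : Algebra F B) (q : Cz F α Q →ₐ[F] B), QA F α Q q

/-- QFC: the frame of `A(Q)`.

Proof.  `bi F α` has the frame `(Ω, b, c)`.  Let `Ω'` be the set of the points fixed by the
subgroup `Δ = tw id Q`; it is stable under `V × V` (commutative).  `b ω` (`ω ∈ Ω'`) is in `Cz F α Q`
(`BKI`), put `b' ω = q ⟨b ω, _⟩`.  `c ω` (`ω ∈ Ω'`) vanishes on `BK (cj F α) Q`: `frame_BK` for the frame
restricted to the diagonal copy of `V` (`cj F α u = bi F α (u, u)`), so there is `c' ω` with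
`c' ω (q a) = c ω a`.  Equivariance: `q` commutes with the multiplications by `α u`.
`q a = ∑_{Ω'} c ω a • b' ω`: `frame_sub` (again for the diagonal copy of `V`). -/
def QfcStmt : Prop := BkiStmt → ∀ (ℓ : ℕ) [Fact ℓ.Prime] (F V A B : Type) [Field F] [CharP F ℓ]
  [CommGroup V] [Fintype V] [Ring A] [Algebra F A] [Ring B] [Algebra F B] (α : V →* A)
  (Q : Subgroup V) (q : Cz F α Q →ₐ[F] B) (Ω : Type) [Fintype Ω] [MulAction (V × V) Ω]
  (b : Ω → A) (c : Ω → (A →ₗ[F] F)), IsPGroup ℓ V → QA F α Q q → IsFr (bi F α) b c →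
  ∃ (Ω' : Type) (_ : Fintype Ω') (_ : MulAction (V × V) Ω') (j : Ω' → Ω) (b' : Ω' → B)
    (c' : Ω' → (B →ₗ[F] F)), IsFr (bi F (be F α Q q)) b' c' ∧ Function.Injective j ∧
    (∀ ω : Ω, (∃ ω', j ω' = ω) ↔ ∀ u ∈ Q, ((u, u) : V × V) • ω = ω) ∧
    (∀ (w : V × V) (ω' : Ω'), j (w • ω') = w • j ω') ∧
    (∀ (ω' : Ω') (a : Cz F α Q), c' ω' (q a) = c (j ω') a) ∧
    ∀ (ω' : Ω'), ∃ a : Cz F α Q, (a : A) = b (j ω') ∧ q a = b' ω'

/-- QFM: the form of `A(Q)`.

Proof.  `lam` vanishes on `BK (cj F α) Q`: it is invariant under conjugation, so it maps a relative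
trace to `|S| lam(m)`, and `ℓ` divides `|S|` (`card_tv`, as in `frame_BK`).  So there is `lam'` with
`lam'(q a) = lam a`.  Nondegenerate: let `a ∈ Cz F α Q`, `lam(a b) = 0` for all `b ∈ Cz F α Q`.  For a
point `ω` of the frame fixed by the diagonal of `Q`, let `s ∈ A` with `c ω x = lam(s x)` for all
`x` (`lam` is nondegenerate, `A` is finite dimensional); `c ω (u x u⁻¹) = c ω x` for `u ∈ Q` gives
`s ∈ Cz F α Q`, and `c ω a = lam(s a) = lam(a s) = 0`.  By `frame_iff` (the frame restricted to the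
diagonal copy of `V`) `a ∈ BK (cj F α) Q`, so `q a = 0`.  `lam'(∑ be u) = lam(∑ α u) ≠ 0`. -/
def QfmStmt : Prop := BkiStmt → ∀ (ℓ : ℕ) [Fact ℓ.Prime] (F V A B : Type) [Field F] [CharP F ℓ]
  [CommGroup V] [Fintype V] [Ring A] [Algebra F A] [FiniteDimensional F A] [Ring B] [Algebra F B]
  (α : V →* A) (Q : Subgroup V) (q : Cz F α Q →ₐ[F] B) (X : Subgroup (V × V) → Prop)
  (lam : A →ₗ[F] F), IsPGroup ℓ V → QA F α Q q → PS X (bi F α) → Frm F α lam →
  ∃ lam' : B →ₗ[F] F, Frm F (be F α Q q) lam'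

/-- QPS: the stabilisers for `A(Q)`.

Proof.  QFC.  The stabiliser of `ω'` is that of `j ω'` (`j` is injective and equivariant), it is
`tw (φ e) R` and contains `(u, u)` for `u ∈ Q`; take `u ∉ W`: `(u, u) = (φ e r, r)`, so `φ e u = u` and
`e = 1` (`Ctf.free`). -/
def QpsStmt : Prop := BkiStmt → QfcStmt → ∀ (ℓ : ℕ) [Fact ℓ.Prime] (F V E A B : Type) [Field F]
  [CharP F ℓ] [CommGroup V] [Fintype V] [Group E] [Ring A] [Algebra F A] [Ring B] [Algebra F B]
  (φ : E →* MulAut V) (W : Subgroup V) (α : V →* A) (Q : Subgroup V) (q : Cz F α Q →ₐ[F] B),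
  Ctf ℓ φ W → QA F α Q q → ¬ Q ≤ W →
  PS (fun K => ∃ (e : E) (R : Subgroup V), K = tw (φ e).toMonoidHom R) (bi F α) →
  PS (fun K => ∃ R : Subgroup V, K = tw (MonoidHom.id V) R) (bi F (be F α Q q))

/-- QTP: `A(Q)(V) = A(V) = F V`, and the centraliser of `V` in `A(Q)` is local.

Proof.  QFC.  (1) Every `x` in the centraliser of `be(V)` is `q a` with `a ∈ Cz F α ⊤`: `x = q a₁`,
`a = ∑_{ω'} c' ω' x • b (j ω')`; `c' (w • ω') x = c' ω' x` for `w` in the diagonal of `V`, because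
`x` is fixed; so `a` is fixed by the diagonal of `V`, and `q a = ∑ c' ω' x • b' ω' = x`.  (2) For
`a ∈ Cz F α ⊤`: `q a ∈ BK (cj F be) ⊤` iff `a ∈ BK (cj F α) ⊤`: both are equivalent to `c ω a = 0` for all
`ω` fixed by the diagonal of `V` (`frame_iff` for the two frames restricted to the diagonal copy of
`V`; the points of `Ω'` fixed by the diagonal of `V` are those of `Ω`).  (3) `Tpv`: span and free by
(1), (2).  (4) The centraliser of `be(V)` is the image of the local ring `Cz F α ⊤` and it is not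
trivial by `Tpv.free`; in a quotient `x + y = 1`: lift `x` to `a`, then `a` or `1 - a` is a unit. -/
def QtpStmt : Prop := BkiStmt → QfcStmt → ∀ (ℓ : ℕ) [Fact ℓ.Prime] (F V A B : Type) [Field F]
  [CharP F ℓ] [CommGroup V] [Fintype V] [Ring A] [Algebra F A] [Ring B] [Algebra F B]
  (α : V →* A) (Q : Subgroup V) (q : Cz F α Q →ₐ[F] B) (X : Subgroup (V × V) → Prop),
  IsPGroup ℓ V → QA F α Q q → PS X (bi F α) → Tpv F α → IsLocalRing (Cz F α ⊤) →
  Tpv F (be F α Q q) ∧ IsLocalRing (Cz F (be F α Q q) ⊤)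

/-- QMT: the map to the matrix algebra.

Proof.  `π a = 0` if `q a = 0` (`Lcq.bk`), so `π = π' ∘ q`, `π'` is surjective; its kernel is nil by
`Lcq.nil`.  `B` is finite dimensional as a quotient of a subspace of `A`. -/
def QmtStmt : Prop := ∀ (F V A B : Type) [Field F] [CommGroup V] [Fintype V] [Ring A]
  [Algebra F A] [FiniteDimensional F A] [Ring B] [Algebra F B] (α : V →* A) (Q : Subgroup V)
  (q : Cz F α Q →ₐ[F] B) (n : ℕ) (π : Cz F α Q →ₐ[F] Matrix (Fin n) (Fin n) F),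
  QA F α Q q → Lcq F α Q n π →
  ∃ π' : B →ₐ[F] Matrix (Fin n) (Fin n) F, (∀ a, π' (q a) = π a) ∧ Function.Surjective π' ∧
    FiniteDimensional F B ∧ ∀ b, π' b = 0 → IsNilpotent b

/-- LOQ: the local structure of `A(Q)`.

Proof.  QEX, `β = be F α Q q`; `LB F β n π'` by QMT, QFM, QPS, QTP (`V` is not trivial, `Ctf.nt`); LOC gives
`f : B → Mat_n(F V)`, bijective; `Mat_n(F V) = Mat_n(F) ⊗ F V` (`matrixEquivTensor` and
`Algebra.TensorProduct.comm`); compose with `q`.  `f(β u) = τ u ⊗ u` with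
`τ u = π' (β u) = π (zin u)`.  The first claim is CPS. -/
def LoqStmt : Prop := BkiStmt → QexStmt → QfcStmt → QfmStmt → QpsStmt → QtpStmt → QmtStmt →
  CpsStmt → (∀ (ℓ : ℕ) [Fact ℓ.Prime] (F V B : Type)
    [Field F] [CharP F ℓ] [CommGroup V] [Fintype V] [Nontrivial V] [Ring B] [Algebra F B]
    (β : V →* B) (n : ℕ) (π : B →ₐ[F] Matrix (Fin n) (Fin n) F), IsPGroup ℓ V → LB F β n π →
    ∃ f : B →ₐ[F] Matrix (Fin n) (Fin n) (MonoidAlgebra F V), Lf F β n π f ∧
      Function.Bijective f) →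
  ∀ (F V E A : Type) [Field F] [CommGroup V] [Fintype V] [Group E] [Ring A] [Algebra F A]
    (ℓ : ℕ) [CharP F ℓ] (φ : E →* MulAut V) (W : Subgroup V) (α : V →* A) (Q : Subgroup V) (n : ℕ)
    (π : Cz F α Q →ₐ[F] Matrix (Fin n) (Fin n) F),
    Ctf ℓ φ W → PIn F φ W α → ¬ Q ≤ W → Lcq F α Q n π →
    PS (fun _ => True) (cj F ((π : Cz F α Q →* Matrix (Fin n) (Fin n) F).comp (zin F α Q))) ∧
    ∃ q : Cz F α Q →ₐ[F] Matrix (Fin n) (Fin n) F ⊗[F] MonoidAlgebra F V,
      Function.Surjective q ∧ (∀ a : Cz F α Q, q a = 0 ↔ (a : A) ∈ BK (cj F α) Q) ∧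
      ∀ u, q (zin F α Q u) = π (zin F α Q u) ⊗ₜ[F] MonoidAlgebra.of F V u

/-! ## Part 6 -/

/-- LAM: the functional of the retraction to `F Γ`, `Γ = V ⋊ E`.

Proof.  CUG with `W` = the range of `SemidirectProduct.inl` (normal; `t ∉ W` has a component `e ≠ 1` and
`t w = w t` gives `φ e w = w`, so `w = 1`) gives `c'`.  `lam x = mu (x * c')`.  As in QFR, `E = Ee F γ mu`:
`E(γ g x) = γ g E(x)`, `E(x s) = E(x) s` for `s` in the span of `γ(Γ)`, `E(c') = E(1) c' = 1`.
The `γ g` are linearly independent: let `N` be the space of the `k : Γ → F` with `∑ k_g γ g = 0`; it is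
stable under the left translations with `V`; if it is not zero, it contains a nonzero `k` with
`k_{v g} = k_g` for `v ∈ V` (FVT), so `∑_{e ∈ E} κ_e σ γ(inr e) = 0`, `σ = ∑_{u ∈ V} γ(inl u)`; multiply by
`γ(inr e₁)⁻¹` from the right, `κ_{e₁} ≠ 0`, and apply `mu`: for `e ≠ 1` `mu(σ γ(inr e)) = 0`, because
the elements `inl u * inr e`, `u ∈ V`, are all conjugate under `V` (`e` acts freely), so
`mu(σ γ(inr e)) = |V| mu(γ(inr e)) = 0`; so `κ_{e₁} mu(σ) = 0`, a contradiction.  Now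
`∑_g mu(γ g⁻¹ γ h c') γ g = E(γ h c') = γ h E(c') = γ h`, so `lam (γ g⁻¹ γ h) = 1` if `g = h` and `0`
otherwise: `lam 1 = 1`, `lam (γ g) = 0` for `g ≠ 1`.
`lam (γ g a) = mu (γ g a c') = mu (a c' γ g) = mu (a γ g c') = lam (a γ g)`.  And
`∑ lam(γ g⁻¹ x) γ g = E(x c') = E(x) c'`. -/
def LamStmt : Prop := FvtStmt → CugStmt → ∀ (ℓ : ℕ) [Fact ℓ.Prime] (F V E A : Type) [Field F]
  [CharP F ℓ] [CommGroup V] [Fintype V] [Group E] [Fintype E] [Ring A] [Algebra F A]
  [FiniteDimensional F A] (φ : E →* MulAut V) (e0 : E) [Fintype (V ⋊[φ] E)]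
  (γ : V ⋊[φ] E →* A) (mu : A →ₗ[F] F), Ctx ℓ φ e0 →
  Frm F (γ.comp (SemidirectProduct.inl : V →* V ⋊[φ] E)) mu →
  ∃ c', Ci F γ mu c' ∧ ∃ lam : A →ₗ[F] F, (∀ x, lam x = mu (x * c')) ∧ lam 1 = 1 ∧
    (∀ g, g ≠ 1 → lam (γ g) = 0) ∧ (∀ g a, lam (γ g * a) = lam (a * γ g)) ∧
    ∀ x, Ee F γ mu x * c' = ∑ g, lam (γ g⁻¹ * x) • γ g

/-- SPG: separability of the final algebra over `F Γ`.

Proof.  `al₁(y) = ∑_g γ g * al(γ g⁻¹ * y)`, so `∑_h al₁(x γ h⁻¹) γ h = cpr F γ lam x =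
x - E(x) c'`.  FDB, CAS give the Casimir element; its product is `c' + w`,
`w = ∑_k al₁(b_k) b'_k = ∑_g γ g (∑_k al(γ g⁻¹ b_k) b'_k) = ∑_g γ g w₀ γ g⁻¹`,
`w₀ = ∑_k al(b_k) b'_k`: the element `∑_k al(b_k) b'_k` does not depend on the dual bases
(`b''_k = γ g⁻¹ b_k`, `b'''_k = b'_k γ g` are dual bases, and two dual bases give the same element:
expand `b''_j = ∑_k mu(b'_k b''_j) b_k`, `∑_j mu(b'_k b''_j) b'''_j = b'_k`).  The sum over `Γ` is a sum
over `V` of conjugates of `∑_{e ∈ E} ..` (every `g` is `inl v * inr e`), so `w` is the relative trace from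
`1` to `V` of one element, `w ∈ BK (cj F (γ.comp inl)) ⊤` (`⊥ < ⊤`).  UNS with `δ = γ.comp inl`,
`d = E(1)` (it commutes with `γ`, `c'` commutes with `γ`). -/
def SpgStmt : Prop := BkiStmt → FdbStmt → CasStmt → UnsStmt → ∀ (F V E A : Type) [Field F]
  [CommGroup V] [Fintype V] [Nontrivial V] [Group E] [Fintype E] [Ring A] [Algebra F A]
  [FiniteDimensional F A] (φ : E →* MulAut V) [Fintype (V ⋊[φ] E)] (γ : V ⋊[φ] E →* A)
  (mu lam : A →ₗ[F] F) (c' : A) (al : A →ₗ[F] A),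
  (∀ a b, mu (a * b) = mu (b * a)) → (∀ a, (∀ b, mu (a * b) = 0) → a = 0) →
  Ci F γ mu c' → (∀ x, Ee F γ mu x * c' = ∑ g, lam (γ g⁻¹ * x) • γ g) →
  (∀ x, ∑ g, ∑ h, γ g * al (γ g⁻¹ * x * γ h⁻¹) * γ h = cpr F γ lam x) →
  IsLocalRing (Cz F (γ.comp (SemidirectProduct.inl : V →* V ⋊[φ] E)) ⊤) →
  (1 : A) ∉ BK (cj F (γ.comp (SemidirectProduct.inl : V →* V ⋊[φ] E))) ⊤ → Sep F γ

/-- SEX: `SexStmt` of `StmtsB5b.lean` from the rows of this file.

Proof.  LAM gives `c'` and `lam`, `HigA` the Higman map for `lam`, SPG the separability, `frob` is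
`Frm.sym`, `Frm.nd`. -/
def SexRow : Prop := FvtStmt → BkiStmt → FdbStmt → CugStmt → CasStmt → UnsStmt → LamStmt →
  SpgStmt → SexStmt

end Pool.Agent.PFC.B5a
end
end -- Pool.Agent.PFC.StmtsB5a

section -- Pool.Agent.Helper41_PFC.HGX

namespace Pool.Agent.PFC.H41

theorem out_mul_bij {H : Type} [Group H] (S : Subgroup H) :
    Function.Bijective (fun z : (H ⧸ S) × S => z.1.out * (z.2 : H)) := by
  constructor
  · rintro ⟨q, s⟩ ⟨q', s'⟩ h
    simp only at h
    have h1 : q = q' := by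
      have e1 : (QuotientGroup.mk (q.out * (s : H)) : H ⧸ S) = q := by
        rw [QuotientGroup.mk_mul_of_mem _ s.2]
        exact Quotient.out_eq' q
      have e2 : (QuotientGroup.mk (q'.out * (s' : H)) : H ⧸ S) = q' := by
        rw [QuotientGroup.mk_mul_of_mem _ s'.2]
        exact Quotient.out_eq' q'
      rw [← e1, ← e2, h]
    subst h1
    have h2 : (s : H) = s' := mul_left_cancel h
    have h3 : s = s' := Subtype.ext h2
    rw [h3]
  · intro h
    have h1 : (QuotientGroup.mk h : H ⧸ S).out⁻¹ * h ∈ S := by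
      rw [← QuotientGroup.eq]
      exact Quotient.out_eq' _
    refine ⟨(QuotientGroup.mk h, ⟨_, h1⟩), ?_⟩
    simp

theorem coset_sum {H A : Type} [Group H] [Fintype H] [AddCommMonoid A] (S : Subgroup H)
    [Fintype (H ⧸ S)] [Fintype S] (f : H → A) :
    ∑ h, f h = ∑ q : H ⧸ S, ∑ s : S, f (q.out * (s : H)) := by
  have h1 := Fintype.sum_bijective (fun z : (H ⧸ S) × S => z.1.out * (z.2 : H))
    (out_mul_bij S) (fun z => f (z.1.out * (z.2 : H))) f (fun _ => rfl)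
  rw [← h1, Fintype.sum_prod_type]

theorem range_sum {H K A : Type} [Group H] [Group K] [Fintype K] [AddCommMonoid A]
    (φ : K →* H) (hφ : Function.Injective φ) [Fintype φ.range] (f : H → A) :
    ∑ s : φ.range, f (s : H) = ∑ k : K, f (φ k) := by
  symm
  refine Fintype.sum_bijective (fun k : K => (⟨φ k, ⟨k, rfl⟩⟩ : φ.range)) ⟨?_, ?_⟩ _ _
    (fun _ => rfl)
  · intro x y hxy
    exact hφ (congrArg Subtype.val hxy)
  · rintro ⟨_, ⟨k, rfl⟩⟩
    exact ⟨k, rfl⟩

theorem hgx : HgxStmt := by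
  intro ℓ _ F H K M _ _ _ _ _ _ _ _ ρ φ hφ hind hK
  classical
  obtain ⟨a, ha⟩ := hK
  have hc : (φ.range.index : F) ≠ 0 := by
    intro h0
    exact hind ((CharP.cast_eq_zero_iff F ℓ _).1 h0)
  refine ⟨(φ.range.index : F)⁻¹ • a, ?_⟩
  intro m
  rw [coset_sum φ.range]
  have key : ∀ q : H ⧸ φ.range, ∑ s : φ.range,
      ρ (q.out * (s : H)) (((φ.range.index : F)⁻¹ • a) (ρ (q.out * (s : H))⁻¹ m)) =
        (φ.range.index : F)⁻¹ • m := by
    intro q
    have h1 : ∀ s : φ.range,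
        ρ (q.out * (s : H)) (((φ.range.index : F)⁻¹ • a) (ρ (q.out * (s : H))⁻¹ m)) =
        (φ.range.index : F)⁻¹ • ρ q.out (ρ (s : H) (a (ρ (s : H)⁻¹ (ρ q.out⁻¹ m)))) := by
      intro s
      rw [mul_inv_rev, map_mul, map_mul]
      simp only [Module.End.mul_apply, LinearMap.smul_apply, map_smul]
    rw [Finset.sum_congr rfl (fun s _ => h1 s), ← Finset.smul_sum, ← map_sum]
    have h2 := range_sum φ hφ (fun h => ρ h (a (ρ h⁻¹ (ρ q.out⁻¹ m))))
    have h3 := ha (ρ q.out⁻¹ m)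
    have h4 : ∑ s : φ.range, ρ (s : H) (a (ρ (s : H)⁻¹ (ρ q.out⁻¹ m))) = ρ q.out⁻¹ m := by
      rw [h2]
      refine Eq.trans (Finset.sum_congr rfl ?_) h3
      intro k _
      show ρ (φ k) (a (ρ (φ k)⁻¹ (ρ q.out⁻¹ m))) = ρ (φ k) (a (ρ (φ k⁻¹) (ρ q.out⁻¹ m)))
      rw [map_inv φ k]
    rw [h4]
    congr 1
    have h5 : ρ q.out (ρ q.out⁻¹ m) = (ρ q.out * ρ q.out⁻¹) m := rfl
    rw [h5, ← map_mul, mul_inv_cancel, map_one]
    rfl
  rw [Finset.sum_congr rfl (fun q _ => key q), Finset.sum_const, Finset.card_univ,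
    ← Nat.card_eq_fintype_card]
  have h6 : Nat.card (H ⧸ φ.range) = φ.range.index := rfl
  rw [h6, ← Nat.cast_smul_eq_nsmul F, smul_smul, mul_inv_cancel₀ hc, one_smul]

end Pool.Agent.PFC.H41
end -- Pool.Agent.Helper41_PFC.HGX

section -- Pool.Agent.Helper53_PFC.CASa

/-!
# Squad PFC, block B5a, row CASa (helper53)
-/

open scoped BigOperators TensorProduct

noncomputable section

namespace Pool.Agent.PFC.B5a.H53

variable {F Γ B : Type} [Field F] [Group Γ] [Fintype Γ] [Ring B] [Algebra F B]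

theorem Ee_add (γ : Γ →* B) (lam : B →ₗ[F] F) (x y : B) :
    Ee F γ lam (x + y) = Ee F γ lam x + Ee F γ lam y := by
  unfold Ee
  rw [← Finset.sum_add_distrib]
  refine Finset.sum_congr rfl fun g _ => ?_
  rw [mul_add, map_add, add_smul]

theorem Ee_left (γ : Γ →* B) (lam : B →ₗ[F] F) (k : Γ) (x : B) :
    Ee F γ lam (γ k * x) = γ k * Ee F γ lam x := by
  unfold Ee
  rw [Finset.mul_sum]
  refine (Fintype.sum_equiv (Equiv.mulLeft k) _ _ fun g => ?_).symm
  have h1 : γ (k * g)⁻¹ * (γ k * x) = γ g⁻¹ * x := by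
    rw [← mul_assoc, ← map_mul, mul_inv_rev, inv_mul_cancel_right]
  rw [Equiv.coe_mulLeft, mul_smul_comm, h1, map_mul γ k g]

theorem Ee_right (γ : Γ →* B) (lam : B →ₗ[F] F) (hs : ∀ a b, lam (a * b) = lam (b * a)) (k : Γ)
    (x : B) : Ee F γ lam (x * γ k) = Ee F γ lam x * γ k := by
  unfold Ee
  rw [Finset.sum_mul]
  refine (Fintype.sum_equiv (Equiv.mulRight k) _ _ fun g => ?_).symm
  have h1 : lam (γ (g * k)⁻¹ * (x * γ k)) = lam (γ g⁻¹ * x) := by
    rw [← mul_assoc, hs _ (γ k), ← mul_assoc, ← map_mul, mul_inv_rev, mul_inv_cancel_left]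
  rw [Equiv.coe_mulRight, smul_mul_assoc, h1, map_mul γ g k]

theorem Ee_com (γ : Γ →* B) (lam : B →ₗ[F] F) (c : B) (hc : ∀ g, c * γ g = γ g * c) (x : B) :
    c * Ee F γ lam x = Ee F γ lam x * c := by
  unfold Ee
  rw [Finset.mul_sum, Finset.sum_mul]
  refine Finset.sum_congr rfl fun g _ => ?_
  rw [mul_smul_comm, smul_mul_assoc, hc g]

theorem lam_Ee (γ : Γ →* B) (lam : B →ₗ[F] F) (hs : ∀ a b, lam (a * b) = lam (b * a)) (z y : B) :
    lam (z * Ee F γ lam y) = lam (Ee F γ lam z * y) := by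
  unfold Ee
  rw [Finset.mul_sum, Finset.sum_mul, map_sum, map_sum]
  refine Fintype.sum_equiv (Equiv.inv Γ) _ _ fun g => ?_
  rw [mul_smul_comm, smul_mul_assoc, map_smul, map_smul, Equiv.inv_apply, inv_inv, smul_eq_mul,
    smul_eq_mul, hs z (γ g), mul_comm]

theorem T_bal (γ : Γ →* B) (lam : B →ₗ[F] F) {X : Type} [AddCommGroup X] [Module F X]
    (T : B →ₗ[F] B →ₗ[F] X) (hT : ∀ a b g, T (a * γ g) b = T a (γ g * b)) (a z b : B) :
    T (a * Ee F γ lam z) b = T a (Ee F γ lam z * b) := by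
  unfold Ee
  rw [Finset.mul_sum, Finset.sum_mul, map_sum, map_sum, LinearMap.sum_apply]
  refine Finset.sum_congr rfl fun g _ => ?_
  rw [mul_smul_comm, smul_mul_assoc, map_smul, map_smul, LinearMap.smul_apply, hT]

theorem cas : CasStmt := by
  intro F Γ B _ _ _ _ _ γ lam c' al m b b' hs hnd hc hal hd X _ _ T hT c
  have h2 : ∀ a : B, c' * Ee F γ lam a + ∑ k, al (b k) * Ee F γ lam (b' k * a) = a := by
    intro a
    have h1 : ∑ k, al (b k) * Ee F γ lam (b' k * a) = a - Ee F γ lam a * c' := by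
      rw [← hal a]
      have h3 : ∀ k, al (b k) * Ee F γ lam (b' k * a) =
          ∑ h, lam (b' k * (a * γ h⁻¹)) • (al (b k) * γ h) := by
        intro k
        unfold Ee
        rw [Finset.mul_sum]
        refine Finset.sum_congr rfl fun h _ => ?_
        rw [mul_smul_comm, hs (γ h⁻¹), mul_assoc]
      rw [Finset.sum_congr rfl fun k _ => h3 k, Finset.sum_comm]
      refine Finset.sum_congr rfl fun h _ => ?_
      rw [show al (a * γ h⁻¹) = al (∑ k, lam (b' k * (a * γ h⁻¹)) • b k) from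
        congrArg al (hd _).symm, map_sum, Finset.sum_mul]
      refine Finset.sum_congr rfl fun k _ => ?_
      rw [map_smul, smul_mul_assoc]
    rw [h1, Ee_com γ lam c' hc.com]
    abel
  have h4 : ∀ z : B, Ee F γ lam (z * c') * 1 + ∑ k, Ee F γ lam (z * al (b k)) * b' k = z := by
    intro z
    rw [← sub_eq_zero]
    refine hnd _ fun a => ?_
    rw [sub_mul, map_sub, sub_eq_zero, add_mul, map_add, Finset.sum_mul, map_sum]
    have e1 : lam (z * a) = lam (z * c' * Ee F γ lam a) +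
        ∑ k, lam (z * al (b k) * Ee F γ lam (b' k * a)) := by
      conv_lhs => rw [← h2 a]
      rw [mul_add, map_add, Finset.mul_sum, map_sum, ← mul_assoc]
      congr 1
      refine Finset.sum_congr rfl fun k _ => ?_
      rw [mul_assoc]
    rw [e1, mul_one, lam_Ee γ lam hs]
    congr 1
    refine Finset.sum_congr rfl fun k _ => ?_
    rw [lam_Ee γ lam hs, mul_assoc]
  rw [Fintype.sum_option, Fintype.sum_option]
  simp only [Option.elim]
  have h5 : ∀ a y : B, T a y = T c' (Ee F γ lam a * y) +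
      ∑ k, T (al (b k)) (Ee F γ lam (b' k * a) * y) := by
    intro a y
    conv_lhs => rw [← h2 a]
    rw [map_add, LinearMap.add_apply, map_sum, LinearMap.sum_apply, T_bal γ lam T hT]
    congr 1
    refine Finset.sum_congr rfl fun k _ => ?_
    rw [T_bal γ lam T hT]
  have h6 : ∀ z : B, T c' (1 * z) = T c' (Ee F γ lam (z * c') * 1) +
      ∑ k, T c' (Ee F γ lam (z * al (b k)) * b' k) := by
    intro z
    conv_lhs => rw [one_mul, ← h4 z]
    rw [map_add, map_sum]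
  have h7 : ∀ (j : Fin m), T (al (b j)) (b' j * c) =
      T (al (b j)) (Ee F γ lam (b' j * (c * c')) * 1) +
      ∑ k, T (al (b j)) (Ee F γ lam (b' j * (c * al (b k))) * b' k) := by
    intro j
    conv_lhs => rw [← h4 (b' j * c)]
    rw [map_add, map_sum, mul_assoc]
    congr 1
    refine Finset.sum_congr rfl fun k _ => ?_
    rw [mul_assoc (b' j)]
  rw [h5 (c * c') 1, Finset.sum_congr rfl fun k (_ : k ∈ Finset.univ) => h5 (c * al (b k)) (b' k),
    h6 c, Finset.sum_congr rfl fun j (_ : j ∈ Finset.univ) => h7 j, Finset.sum_add_distrib,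
    Finset.sum_add_distrib, Finset.sum_comm]
  abel

end Pool.Agent.PFC.B5a.H53
end
end -- Pool.Agent.Helper53_PFC.CASa

section -- Pool.Agent.Helper75_PFC.Muv

/-!
# Squad PFC, block B5a: row MUV (helper75)
-/

open scoped BigOperators TensorProduct

noncomputable section

namespace Pool.Agent.PFC.B5a.H75

theorem bi_apply {F V B : Type} [Field F] [CommGroup V] [Ring B] [Algebra F B] (β : V →* B)
    (u v : V) (x : B) : bi F β (u, v) x = β u * (x * β v⁻¹) := rfl

theorem muv : MuvStmt := by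
  intro homz F V B _ _ _ _ _ β hps
  obtain ⟨Ω, _, _, b, c, ⟨hb, hc, hs⟩, hst⟩ := hps
  obtain ⟨Ω₀, hΩ, hsum⟩ := homz V Ω hst
  set μ : B →ₗ[F] B := ∑ ω ∈ Ω₀, (c ω).smulRight (b ω) with hμ
  have hμa : ∀ x, μ x = ∑ ω ∈ Ω₀, c ω x • b ω := by
    intro x
    simp [hμ]
  refine ⟨μ, ?_, ?_⟩
  · intro g x
    rw [hμa, hμa, Finset.mul_sum, Finset.sum_mul]
    symm
    refine Finset.sum_nbij' (fun ω => ((g, g) : V × V) • ω) (fun ω => ((g⁻¹, g⁻¹) : V × V) • ω)
      (fun ω hω => hΩ g ω hω) (fun ω hω => hΩ g⁻¹ ω hω) ?_ ?_ ?_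
    · intro ω _
      rw [smul_smul, Prod.mk_mul_mk, inv_mul_cancel]
      exact one_smul _ _
    · intro ω _
      rw [smul_smul, Prod.mk_mul_mk, mul_inv_cancel]
      exact one_smul _ _
    · intro ω _
      have h1 : β g * x * β g⁻¹ = bi F β (g, g) x := by rw [bi_apply, mul_assoc]
      rw [h1, hc, hb, bi_apply, mul_smul_comm, smul_mul_assoc, mul_assoc]
  · intro x
    have h1 : ∀ (ω : Ω) (h : V), c (((1, h) : V × V) • ω) x = c ω (x * β h) := by
      intro ω h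
      have h2 := hc ((1, h) : V × V) ω (x * β h)
      rw [bi_apply, map_one, one_mul, mul_assoc, ← map_mul, mul_inv_cancel, map_one,
        mul_one] at h2
      exact h2
    have h3 : ∀ (ω : Ω) (h : V), b (((1, h) : V × V) • ω) = b ω * β h⁻¹ := by
      intro ω h
      rw [hb, bi_apply, map_one, one_mul]
    calc ∑ h, μ (x * β h⁻¹) * β h
        = ∑ h, ∑ ω ∈ Ω₀, c ω (x * β h⁻¹) • (b ω * β h) := by
          refine Finset.sum_congr rfl fun h _ => ?_
          rw [hμa, Finset.sum_mul]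
          exact Finset.sum_congr rfl fun ω _ => smul_mul_assoc _ _ _
      _ = ∑ ω ∈ Ω₀, ∑ h, c ω (x * β h⁻¹) • (b ω * β h) := Finset.sum_comm
      _ = ∑ ω ∈ Ω₀, ∑ h : V, c (((1, h) : V × V) • ω) x • b (((1, h) : V × V) • ω) := by
          refine Finset.sum_congr rfl fun ω _ => ?_
          rw [← Equiv.sum_comp (Equiv.inv V)]
          refine Finset.sum_congr rfl fun h _ => ?_
          rw [h1, h3, Equiv.inv_apply, inv_inv]
      _ = ∑ ω, c ω x • b ω := (hsum B fun ω => c ω x • b ω).symm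
      _ = x := hs x

end Pool.Agent.PFC.B5a.H75
end
end -- Pool.Agent.Helper75_PFC.Muv

section -- Pool.Agent.Helper77_PFC.CMP

set_option autoImplicit false

/-!
PFC row CMP: compatibility of the Brauer kernels.
-/

namespace Pool.Agent.PFC.H77

open Pool.Agent.PFC

theorem cmp : CmpStmt := by
  intro ℓ _ F H M _ _ _ _ _ _ ρ X hX R P hP hRP m hm hmR
  obtain ⟨Ω, _, _, b, c, hfr, -⟩ := hX
  have hR : IsPGroup ℓ R := hP.to_le hRP
  rw [frame_iff hfr P hP hm]
  intro ω hω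
  exact frame_BK hfr R hR hmR ω fun h hh => hω h (hRP hh)

end Pool.Agent.PFC.H77
end -- Pool.Agent.Helper77_PFC.CMP

section -- Pool.Agent.Helper91_PFC.QPSa

/-!
# Squad PFC, row QPSa: the stabilisers for `A(Q)`
-/

set_option autoImplicit false

noncomputable section

namespace Pool.Agent.PFC.H91

open Pool.Agent.PFC.B5a

/-- row QPSa -/
theorem qpsa : QpsStmt := by
  intro hbki hqfc ℓ _ F V E A B _ _ _ _ _ _ _ _ _ φ W α Q q hctx hqa hQ hps
  obtain ⟨Ω, _, _, b, c, hfr, hst⟩ := hps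
  obtain ⟨Ω', i1, i2, j, b', c', hfr', hj, hj2, hj3, -, -⟩ :=
    hqfc hbki ℓ F V A B α Q q Ω b c hctx.pg hqa hfr
  refine ⟨Ω', i1, i2, b', c', hfr', fun ω' => ?_⟩
  obtain ⟨e, R, hR⟩ := hst (j ω')
  have hs : MulAction.stabilizer (V × V) ω' = MulAction.stabilizer (V × V) (j ω') := by
    ext w
    rw [MulAction.mem_stabilizer_iff, MulAction.mem_stabilizer_iff, ← hj3]
    exact ⟨fun h => by rw [h], fun h => hj h⟩
  obtain ⟨u, hu, hu1⟩ : ∃ u ∈ Q, u ∉ W := SetLike.not_le_iff_exists.1 hQ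
  have h1 : ((u, u) : V × V) ∈ MulAction.stabilizer (V × V) (j ω') := by
    rw [MulAction.mem_stabilizer_iff]
    exact (hj2 (j ω')).1 ⟨ω', rfl⟩ u hu
  rw [hR] at h1
  obtain ⟨r, -, hr2⟩ := h1
  have h2 : φ e r = u := congrArg Prod.fst hr2
  have h3 : r = u := congrArg Prod.snd hr2
  rw [h3] at h2
  have he : e = 1 := (hctx.free e u h2).resolve_right hu1
  refine ⟨R, ?_⟩
  rw [hs, hR, he, map_one]
  rfl

end Pool.Agent.PFC.H91
end
end -- Pool.Agent.Helper91_PFC.QPSa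

section -- Pool.Agent.Helper92_PFC.PRJ

set_option autoImplicit false

/-!
# The projectivity test
-/

namespace Pool.Agent.PFC.H92

open MulAction

theorem prj (hpsx : PsxStmt) (hupw : UpwStmt) : PrjStmt := by
  classical
  intro ℓ _ F H M _ _ _ _ _ _ ρ X hH hab hPS hC
  obtain ⟨Ω, _, _, b, c, hfr, hst⟩ := hpsx ℓ F H M ρ X hH hab hPS
  -- all stabilisers are trivial
  have htriv : ∀ ω : Ω, stabilizer H ω = ⊥ := by
    intro ω
    by_contra hne
    refine (hst ω).2 ?_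
    have hK : IsPGroup ℓ (stabilizer H ω) := hH.to_subgroup _
    have hnt : Nontrivial (stabilizer H ω) := (Subgroup.nontrivial_iff_ne_bot _).2 hne
    obtain ⟨n, hn0, hn⟩ := hK.nontrivial_iff_card.1 hnt
    have hdvd : ℓ ∣ Nat.card (stabilizer H ω) := by
      rw [hn]
      exact dvd_pow_self ℓ hn0.ne'
    obtain ⟨x, hx⟩ := exists_prime_orderOf_dvd_card' ℓ hdvd
    have hx' : orderOf (x : H) = ℓ := by
      rw [← hx]
      exact Subgroup.orderOf_coe x
    have hle : Subgroup.zpowers (x : H) ≤ stabilizer H ω := by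
      rw [Subgroup.zpowers_le]
      exact x.2
    refine hupw ℓ F H M ρ X hPS (Subgroup.zpowers (x : H)) (stabilizer H ω) hK hle ?_
    refine hC _ ?_
    rw [Nat.card_zpowers, hx']
  let Q := Quotient (orbitRel H Ω)
  have hQ : Fintype Q := Fintype.ofFinite Q
  have hfree : ∀ (ω : Ω) (h k : H), h • ω = k • ω → h = k := by
    intro ω h k hhk
    have h1 : k⁻¹ * h ∈ stabilizer H ω := by
      rw [mem_stabilizer_iff, mul_smul, hhk, inv_smul_smul]
    rw [htriv ω, Subgroup.mem_bot] at h1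
    exact (inv_mul_eq_one.1 h1).symm
  have hbij : Function.Bijective (fun z : H × Q => z.1 • (z.2.out : Ω)) := by
    constructor
    · rintro ⟨h, q⟩ ⟨k, r⟩ hhk
      change h • q.out = k • r.out at hhk
      have h1 : q = r := by
        rw [← Quotient.out_eq q, ← Quotient.out_eq r]
        refine Quotient.sound ?_
        change (orbitRel H Ω) q.out r.out
        rw [orbitRel_apply, mem_orbit_iff]
        refine ⟨h⁻¹ * k, ?_⟩
        rw [mul_smul, ← hhk, inv_smul_smul]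
      subst h1
      rw [hfree _ h k hhk]
    · intro ω
      have h1 : (orbitRel H Ω) ω (Quotient.mk (orbitRel H Ω) ω).out :=
        (orbitRel H Ω).symm (Quotient.mk_out (s := orbitRel H Ω) ω)
      rw [orbitRel_apply, mem_orbit_iff] at h1
      obtain ⟨h, hh⟩ := h1
      exact ⟨(h, Quotient.mk (orbitRel H Ω) ω), hh⟩
  refine ⟨∑ q : Q, (c q.out).smulRight (b q.out), fun m => ?_⟩
  have h1 : ∀ h : H, ρ h ((∑ q : Q, (c q.out).smulRight (b q.out)) (ρ h⁻¹ m)) =
      ∑ q : Q, c (h • (q.out : Ω)) m • b (h • (q.out : Ω)) := by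
    intro h
    rw [LinearMap.sum_apply, map_sum]
    refine Finset.sum_congr rfl fun q _ => ?_
    rw [LinearMap.smulRight_apply, map_smul, ← hfr.1]
    have h2 := hfr.2.1 h q.out (ρ h⁻¹ m)
    have h3 : ρ h (ρ h⁻¹ m) = m := by
      rw [← Module.End.mul_apply, ← map_mul, mul_inv_cancel, map_one, Module.End.one_apply]
    rw [h3] at h2
    rw [h2]
  rw [Finset.sum_congr rfl fun h _ => h1 h, ← Fintype.sum_prod_type'
    (f := fun (h : H) (q : Q) => c (h • (q.out : Ω)) m • b (h • (q.out : Ω)))]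
  exact (Fintype.sum_bijective _ hbij _ (fun ω => c ω m • b ω) fun z => rfl).trans
    (hfr.2.2 m)

end Pool.Agent.PFC.H92
end -- Pool.Agent.Helper92_PFC.PRJ

section -- Pool.Agent.Helper94_PFC.ALV

/-!
# Squad PFC, block B5a: row ALV (helper94)
-/

open scoped BigOperators TensorProduct

noncomputable section

namespace Pool.Agent.PFC.B5a.H94

theorem bi_apply {F V B : Type} [Field F] [CommGroup V] [Ring B] [Algebra F B] (β : V →* B)
    (u v : V) (x : B) : bi F β (u, v) x = β u * (x * β v⁻¹) := rfl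

theorem alv : AlvStmt := by
  intro homz htrs F V B _ _ _ _ _ _ β lam q Ω _ _ b c hfrm hq
  have hst : ∀ ω : Ω, ∃ R : Subgroup V,
      MulAction.stabilizer (V × V) ω = tw (MonoidHom.id V) R := by
    intro ω
    obtain ⟨R, -, hR⟩ := hq.st ω
    exact ⟨R, hR⟩
  obtain ⟨Ω₀, hΩ, hsum⟩ := homz V Ω hst
  obtain ⟨al, hal⟩ : ∃ al : B →ₗ[F] B, ∀ x, al x = ∑ ω ∈ Ω₀, c ω x • b ω :=
    ⟨∑ ω ∈ Ω₀, (c ω).smulRight (b ω), fun x => by simp⟩
  refine ⟨al, ?_, ?_⟩
  · intro x
    have h1 : ∀ (ω : Ω) (h : V), c (((1, h) : V × V) • ω) x = c ω (x * β h) := by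
      intro ω h
      have h2 := hq.ec ((1, h) : V × V) ω (x * β h)
      rw [bi_apply, map_one, one_mul, mul_assoc, ← map_mul, mul_inv_cancel, map_one,
        mul_one] at h2
      exact h2
    have h3 : ∀ (ω : Ω) (h : V), b (((1, h) : V × V) • ω) = b ω * β h⁻¹ := by
      intro ω h
      rw [hq.eb, bi_apply, map_one, one_mul]
    calc ∑ h, al (x * β h⁻¹) * β h
        = ∑ h, ∑ ω ∈ Ω₀, c ω (x * β h⁻¹) • (b ω * β h) := by
          refine Finset.sum_congr rfl fun h _ => ?_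
          rw [hal, Finset.sum_mul]
          exact Finset.sum_congr rfl fun ω _ => smul_mul_assoc _ _ _
      _ = ∑ ω ∈ Ω₀, ∑ h, c ω (x * β h⁻¹) • (b ω * β h) := Finset.sum_comm
      _ = ∑ ω ∈ Ω₀, ∑ h : V, c (((1, h) : V × V) • ω) x • b (((1, h) : V × V) • ω) := by
          refine Finset.sum_congr rfl fun ω _ => ?_
          rw [← Equiv.sum_comp (Equiv.inv V)]
          refine Finset.sum_congr rfl fun h _ => ?_
          rw [h1, h3, Equiv.inv_apply, inv_inv]
      _ = ∑ ω, c ω x • b ω := (hsum B fun ω => c ω x • b ω).symm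
      _ = q x := hq.sum x
  · intro m d d' hdu
    obtain ⟨s, hs⟩ : ∃ s : Ω → B, ∀ ω, s ω = ∑ k, c ω (d k) • d' k := ⟨_, fun _ => rfl⟩
    have hlam : ∀ ω x, lam (s ω * x) = c ω x := by
      intro ω x
      have h1 : ∑ k, lam (d' k * x) • c ω (d k) = c ω x := by
        have h2 := congrArg (c ω) (hdu x)
        rw [map_sum] at h2
        rw [← h2]
        exact Finset.sum_congr rfl fun k _ => (map_smul (c ω) _ _).symm
      rw [← h1, hs, Finset.sum_mul, map_sum]
      refine Finset.sum_congr rfl fun k _ => ?_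
      rw [smul_mul_assoc, map_smul, smul_eq_mul, smul_eq_mul, mul_comm]
    have hgg : ∀ g : V, β g * β g⁻¹ = 1 := by
      intro g
      rw [← map_mul, mul_inv_cancel, map_one]
    have hgg' : ∀ g : V, β g⁻¹ * β g = 1 := by
      intro g
      rw [← map_mul, inv_mul_cancel, map_one]
    have hseq : ∀ (g : V) (ω : Ω), s (((g, g) : V × V) • ω) = β g * s ω * β g⁻¹ := by
      intro g ω
      rw [← sub_eq_zero]
      refine hfrm.nd _ fun x => ?_
      rw [sub_mul, map_sub, hlam, sub_eq_zero]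
      have h1 : bi F β (g, g) (β g⁻¹ * x * β g) = x := by
        rw [bi_apply]
        calc β g * (β g⁻¹ * x * β g * β g⁻¹) = (β g * β g⁻¹) * x * (β g * β g⁻¹) := by
              simp only [mul_assoc]
          _ = x := by rw [hgg, one_mul, mul_one]
      have h2 := hq.ec ((g, g) : V × V) ω (β g⁻¹ * x * β g)
      rw [h1] at h2
      rw [h2, ← hlam]
      calc lam (s ω * (β g⁻¹ * x * β g)) = lam (s ω * β g⁻¹ * x * β g) := by
            simp only [mul_assoc]
        _ = lam (β g * (s ω * β g⁻¹ * x)) := hfrm.sym _ _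
        _ = lam (β g * s ω * β g⁻¹ * x) := by simp only [mul_assoc]
    have hbeq : ∀ (g : V) (ω : Ω), b (((g, g) : V × V) • ω) = β g * b ω * β g⁻¹ := by
      intro g ω
      rw [hq.eb, bi_apply, mul_assoc]
    have hW : ∑ k, al (d k) * d' k = ∑ ω ∈ Ω₀, b ω * s ω := by
      have h1 : ∀ k, al (d k) * d' k = ∑ ω ∈ Ω₀, b ω * (c ω (d k) • d' k) := by
        intro k
        rw [hal, Finset.sum_mul]
        exact Finset.sum_congr rfl fun ω _ => by rw [smul_mul_assoc, mul_smul_comm]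
      simp only [h1]
      rw [Finset.sum_comm]
      refine Finset.sum_congr rfl fun ω _ => ?_
      rw [hs, Finset.mul_sum]
    rw [hW]
    letI act : MulAction V Ω := MulAction.compHom Ω ((MonoidHom.id V).prod (MonoidHom.id V))
    have hact : ∀ (g : V) (ω : Ω), g • ω = ((g, g) : V × V) • ω := fun _ _ => rfl
    refine htrs F V B Ω (cj F β) ⊤ (fun ω => b ω * s ω) Ω₀ ?_ ?_ ?_
    · intro ω hω g _
      rw [hact]
      exact hΩ g ω hω
    · intro ω _ hfix
      obtain ⟨R, hR1, hR2⟩ := hq.st ω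
      apply hR1
      rw [eq_top_iff]
      intro g _
      have h1 : ((g, g) : V × V) ∈ MulAction.stabilizer (V × V) ω := by
        rw [MulAction.mem_stabilizer_iff, ← hact]
        exact hfix g (Subgroup.mem_top g)
      rw [hR2, tw, Subgroup.mem_map] at h1
      obtain ⟨r, hr, hr2⟩ := h1
      have h3 : r = g := congrArg Prod.snd hr2
      rw [← h3]
      exact hr
    · intro g _ ω
      show b (g • ω) * s (g • ω) = bi F β (g, g) (b ω * s ω)
      rw [hact, hbeq, hseq, bi_apply]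
      calc β g * b ω * β g⁻¹ * (β g * s ω * β g⁻¹) = β g * b ω * (β g⁻¹ * β g) * (s ω * β g⁻¹) := by
            simp only [mul_assoc]
        _ = β g * (b ω * s ω * β g⁻¹) := by
            rw [hgg', mul_one]
            simp only [mul_assoc]

end Pool.Agent.PFC.B5a.H94
end
end -- Pool.Agent.Helper94_PFC.ALV

section -- Pool.Agent.PFC.B4.UpwHgs_helper1

namespace Hhelper1

open Pool.Agent.PFC

theorem UPW : UpwStmt := by
  intro ℓ _ F H M _ _ _ _ _ _ ρ X hPS C K hK hCK hC m hm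
  obtain ⟨Ω, _, _, b, c, hfr, -⟩ := hPS
  rw [frame_iff hfr K hK hm]
  intro ω hω
  refine frame_BK hfr C (hK.to_le hCK) (hC (fun h hh => hm h (hCK hh))) ω ?_
  intro h hh
  exact hω h (hCK hh)

theorem HGS : HgsStmt := by
  intro F H M N _ _ _ _ _ _ _ ρ σ hρ
  obtain ⟨a, ha⟩ := hρ
  constructor
  · intro i p hi hp hpi
    refine ⟨p ∘ₗ a ∘ₗ i, ?_⟩
    intro n
    have h1 : ∀ h : H, σ h ((p ∘ₗ a ∘ₗ i) (σ h⁻¹ n)) = p (ρ h (a (ρ h⁻¹ (i n)))) := by
      intro h
      rw [hp, LinearMap.comp_apply, LinearMap.comp_apply, hi]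
    rw [Finset.sum_congr rfl (fun h _ => h1 h), ← map_sum, ha, hpi]
  · intro m hm
    refine ⟨a m, ?_⟩
    have h1 : ∀ h : H, ρ h (a (ρ h⁻¹ m)) = ρ h (a m) := by
      intro h
      have h2 : ρ h⁻¹ m = m := hm h⁻¹ (Subgroup.mem_top _)
      rw [h2]
    rw [← Finset.sum_congr rfl (fun h _ => h1 h)]
    exact (ha m).symm

end Hhelper1
end -- Pool.Agent.PFC.B4.UpwHgs_helper1
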