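import Pool.Agent.Helper12_AWB.B003

/-!
# Merged copies (generated) of the modules

* `Pool.Agent.PFC.DefsB4b`
* `Pool.Agent.PFC.StmtsB4b`
* `Pool.Agent.PFC.StmtsB5c`
* `Pool.Agent.Helper13_PFC.QLX`
* `Pool.Agent.Helper13_PFC.QOP`
* `Pool.Agent.Helper15_PFC.BRK`
* `Pool.Agent.Helper18_PFC.QKE`
* `Pool.Agent.Helper24_PFC.QLU`
* `Pool.Agent.Helper30_PFC.TPB`
* `Pool.Agent.Helper33_PFC.NDM`
* `Pool.Agent.Helper39_PFC.Qun`
* `Pool.Agent.Helper41_PFC.JBK`
* `Pool.Agent.Helper41_PFC.QAL`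
* `Pool.Agent.Helper41_PFC.QZS`
* `Pool.Agent.Helper44_PFC.FRT`
* `Pool.Agent.Helper44_PFC.QDI`
* `Pool.Agent.Helper48_PFC.QCA`
* `Pool.Agent.Helper52_PFC.ZMX`
* `Pool.Agent.Helper76_PFC.ZCN`
* `Pool.Agent.Helper81_PFC.QLQ`
* `Pool.Agent.Helper85_PFC.QIS`
* `Pool.Agent.Helper92_PFC.FAM`
* `Pool.Agent.Helper92_PFC.FRC`
* `Pool.Agent.PFC.B4.QCE`
* `Pool.Agent.PFC.B5c.Itw_helper65`
* `Pool.Agent.Helper62_PFC.QMX`
* `Pool.Agent.Helper67_PFC.QTM`
* `Pool.Agent.Helper6_PFC.QRT`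
-/

set_option autoImplicit false

section -- Pool.Agent.PFC.DefsB4b

/-!
# Squad PFC, block B4b: definitions (algebras with an interior action of an abelian group)

Theorem FC: blocks with abelian defect group `V` and cyclic inertial quotient acting freely on
`V - 1`.  Notes 3054, 3064 on MP_6a3f1a_al.  `F` is a field (of characteristic `ℓ`), `V` a finite
abelian `ℓ`-group.  Fixed vectors `Fx`, transversals `IsTv`, Brauer kernels `BK`, frames, `PS`, `bi`,
`cj`, `tw`: `DefsB4.lean`.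
-/

open scoped BigOperators TensorProduct

noncomputable section

namespace Pool.Agent.PFC

section modules

variable {F V M N : Type} [Field F] [Group V] [AddCommGroup M] [Module F M]
  [AddCommGroup N] [Module F N]

/-- the span of the relative traces from proper subgroups of `Q` to `Q` in `End(M)` -/
def PT (ρ : V →* (M →ₗ[F] M)) (Q : Subgroup V) : Submodule F (M →ₗ[F] M) :=
  Submodule.span F {T | ∃ (K : Subgroup V) (S : Finset V) (h : M →ₗ[F] M), K < Q ∧ IsTv K Q S ∧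
    (∀ k ∈ K, ∀ m, ρ k (h m) = h (ρ k m)) ∧ ∀ m, T m = ∑ x ∈ S, ρ x (h (ρ x⁻¹ m))}

/-- `N` (with `β`, `s`) is the Brauer quotient `M(Q)`, and it is a direct summand of `M`: `M` is the
sum of `s(N)` and a complement which is relatively projective for the proper subgroups of `Q`. -/
structure BrS (ρ : V →* (M →ₗ[F] M)) (ρ' : V →* (N →ₗ[F] N)) (Q : Subgroup V)
    (β : M →ₗ[F] N) (s : N →ₗ[F] M) : Prop where
  bs : ∀ n, β (s n) = n
  eb : ∀ v m, β (ρ v m) = ρ' v (β m)
  es : ∀ v n, s (ρ' v n) = ρ v (s n)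
  tr : ∀ q ∈ Q, ∀ n, ρ' q n = n
  hg : LinearMap.id - s ∘ₗ β ∈ PT ρ Q

end modules

/-- interior `V`-algebra (bundled) -/
structure IA (F V : Type) [Field F] [CommGroup V] where
  /-- the algebra -/
  A : Type
  [rg : Ring A]
  [al : Algebra F A]
  [fi : FiniteDimensional F A]
  /-- the structure homomorphism -/
  ι : V →* A

attribute [instance] IA.rg IA.al IA.fi

section algebras

variable {F V : Type} [Field F] [CommGroup V]

/-- `Y` (with `β`, `s`) is the Brauer quotient `X(Q)` as an interior `V`-algebra -/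
structure ABr (X Y : IA F V) (Q : Subgroup V) (β : X.A →ₗ[F] Y.A) (s : Y.A →ₗ[F] X.A) : Prop
    extends BrS (cj F X.ι) (cj F Y.ι) Q β s where
  mul : ∀ a ∈ Fx (cj F X.ι) Q, ∀ b ∈ Fx (cj F X.ι) Q, β (a * b) = β a * β b
  cov : ∀ v, β (X.ι v) = Y.ι v

/-- `Y` is isomorphic to `X(Q)` -/
def BQ (X Y : IA F V) (Q : Subgroup V) : Prop :=
  ∃ (β : X.A →ₗ[F] Y.A) (s : Y.A →ₗ[F] X.A), ABr X Y Q β s

/-- `X` is a direct summand of a permutation module for the conjugation action of `V` -/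
def CP (X : IA F V) : Prop := PS (fun _ => True) (cj F X.ι)

/-- isomorphism of interior algebras -/
def Iso (X Y : IA F V) : Prop := ∃ e : X.A ≃ₐ[F] Y.A, ∀ v, e (X.ι v) = Y.ι v

/-- isomorphism which twists the action by the automorphism `σ` -/
def IsoT (σ : MulAut V) (X Y : IA F V) : Prop := ∃ e : X.A ≃ₐ[F] Y.A, ∀ v, e (X.ι v) = Y.ι (σ v)

/-- tensor product -/
def IA.tens (X Y : IA F V) : IA F V where
  A := X.A ⊗[F] Y.A
  ι :=
    { toFun := fun v => X.ι v ⊗ₜ[F] Y.ι v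
      map_one' := by
        rw [map_one, map_one, Algebra.TensorProduct.one_def]
      map_mul' := by
        intro u v
        rw [map_mul, map_mul, Algebra.TensorProduct.tmul_mul_tmul] }

/-- the opposite algebra, `v` acts as the opposite of `v⁻¹` -/
def IA.op (X : IA F V) : IA F V where
  A := X.Aᵐᵒᵖ
  ι :=
    { toFun := fun v => MulOpposite.op (X.ι v⁻¹)
      map_one' := by simp
      map_mul' := by
        intro u v
        rw [← MulOpposite.op_mul, ← map_mul, mul_inv_rev] }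

/-- the field -/
def IA.one (F V : Type) [Field F] [CommGroup V] : IA F V where
  A := F
  ι := 1

/-- the group algebra of `V` -/
def IA.gr (F V : Type) [Field F] [CommGroup V] [Finite V] : IA F V where
  A := MonoidAlgebra F V
  fi := by
    have : Fintype V := Fintype.ofFinite V
    exact inferInstance
  ι := MonoidAlgebra.of F V

/-- `Y` is the corner `j X j` of `X`, `κ` the inclusion (`j` is an idempotent which commutes with
`V`) -/
structure Cor (X Y : IA F V) (j : X.A) (κ : Y.A →ₗ[F] X.A) : Prop where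
  inj : Function.Injective κ
  mul : ∀ a b, κ (a * b) = κ a * κ b
  one : κ 1 = j
  ran : ∀ a, j * a = a → a * j = a → ∃ b, κ b = a
  com : ∀ v, X.ι v * j = j * X.ι v
  cov : ∀ v, κ (Y.ι v) = X.ι v * j

/-- full matrix algebra -/
def Mx (X : IA F V) : Prop := ∃ n : ℕ, 0 < n ∧ Nonempty (X.A ≃ₐ[F] Matrix (Fin n) (Fin n) F)

/-- there is an idempotent `π` with `v π = π = π v` and corner `F`: for a matrix algebra `End(W)` this
means that the trivial module is a direct summand of `W` -/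
def Ret (X : IA F V) : Prop :=
  ∃ π : X.A, π * π = π ∧ π ≠ 0 ∧ (∀ v, X.ι v * π = π) ∧ (∀ v, π * X.ι v = π) ∧
    ∀ a, ∃ c : F, π * a * π = c • π

/-- the automorphism `σ` of `V` is realised by a unit -/
def Rz (X : IA F V) (σ : MulAut V) : Prop :=
  ∃ y : X.Aˣ, ∀ v, (y : X.A) * X.ι v = X.ι (σ v) * y

/-- `b` is a character of the fixed algebra of `V`, extended to a functional which is invariant under
conjugation -/
structure Chr (X : IA F V) (b : X.A →ₗ[F] F) : Prop where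
  one : b 1 = 1
  mul : ∀ x ∈ Fx (cj F X.ι) ⊤, ∀ y ∈ Fx (cj F X.ι) ⊤, b (x * y) = b x * b y
  inv : ∀ v a, b (cj F X.ι v a) = b a

/-- `j` is a local idempotent of the fixed algebra of `V`, over the character `b` -/
structure Loc (X : IA F V) (b : X.A →ₗ[F] F) (j : X.A) : Prop where
  fx : j ∈ Fx (cj F X.ι) ⊤
  id : j * j = j
  bj : b j = 1
  nil : ∀ x ∈ Fx (cj F X.ι) ⊤, b (j * x * j) = 0 → IsNilpotent (j * x * j)

/-- the product over a signed list -/
def prd {ι : Type} (S : ι → IA F V) : List (ι × Bool) → IA F V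
  | [] => IA.one F V
  | (Q, true) :: L => (S Q).tens (prd S L)
  | (Q, false) :: L => (S Q).op.tens (prd S L)

/-- the twisted diagonal subgroups -/
def DD (E : Set (MulAut V)) : Subgroup (V × V) → Prop :=
  fun K => ∃ σ ∈ E, ∃ R : Subgroup V, K = tw σ.toMonoidHom R

end algebras

end Pool.Agent.PFC
end
end -- Pool.Agent.PFC.DefsB4b

section -- Pool.Agent.PFC.StmtsB4b

/-!
# Squad PFC, block B4b: statements (split Brauer quotients, interior algebras, gluing)

Definitions: `DefsB4.lean` (`Fx`, `IsTv`, `BK`, `IsFr`, `PS`, `bi`, `cj`, `tw`), `DefsB4b.lean` (`PT`, `BrS`, `IA`,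
`ABr`, `BQ`, `CP`, `Iso`, `IsoT`, `IA.tens`, `IA.op`, `IA.one`, `IA.gr`, `Cor`, `Mx`, `Ret`, `Rz`, `Chr`, `Loc`, `prd`),
`DefsP2.lean` (`Cz`).  Key lemma on frames: `B4/Key.lean`.

Two standard remarks, used everywhere.
(R1) Let `V` be a finite abelian `ℓ`-group, `char F = ℓ`, `K < Q ≤ V`, `S` a transversal of `K` in `Q`.
`|S|` is divisible by `ℓ`, so `|S| = 0` in `F`.  If `φ : M → N` is linear, `φ(ρ(q) m) = φ(m)` for `q ∈ Q`, then
`φ` kills `BK ρ Q`.
(R2) `PT ρ Q` is stable under left and right multiplication by linear maps which commute with all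
`ρ(q)`, `q ∈ Q`; an element `T` of `PT ρ Q` maps `Fx ρ Q` into `BK ρ Q`
(`T m = ∑ ρ(x) h(ρ(x⁻¹) m) = ∑ ρ(x) (h m)`, `h m ∈ Fx ρ K`).
-/

open scoped BigOperators TensorProduct

noncomputable section

namespace Pool.Agent.PFC

/-! ## Modules -/

/-- QSB: a summand of a permutation module has split Brauer quotients.

Proof.  Frame `b, c` on `Ω`.  `T(m) = ∑_(ω fixed by Q) c_ω(m) b_ω` commutes with `V` (`V` is abelian, so
`V` permutes the points fixed by `Q`), its values are in `Fx ρ Q`.  `D = 1 - T ∈ PT ρ Q`: the sum over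
the other points; for a `Q`-orbit of `ω`, `K` the stabiliser of `ω` in `Q`, `S` a transversal
(`exTv` in `B4/Key.lean`): `∑_(x ∈ S) c_(xω)(m) b_(xω) = ∑_x ρ(x) h(ρ(x⁻¹) m)` with `h(m) = c_ω(m) b_ω`.
`T` kills `BK ρ Q` (R1: `T` is equivariant with values in `Fx`: `T(∑ ρ(x) m) = ∑ ρ(x) T m = |S| T m = 0`),
and `T D T m ∈ T(BK) = 0` (R2), so `T² = T³`, `e = T²` is an idempotent which commutes with `V`.
`N` = the range of `e`, `ρ'` the restriction, `s` the inclusion, `β = e`; `1 - e = D (1 + T) ∈ PT`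
(R2). -/
def QsbStmt : Prop :=
  ∀ (ℓ : ℕ) [Fact ℓ.Prime] (F V M : Type) [Field F] [CharP F ℓ] [CommGroup V] [Finite V]
    [AddCommGroup M] [Module F M] (ρ : V →* (M →ₗ[F] M)), IsPGroup ℓ V →
    PS (fun _ => True) ρ → ∀ Q : Subgroup V,
    ∃ (N : Type) (_ : AddCommGroup N) (_ : Module F N) (ρ' : V →* (N →ₗ[F] N))
      (β : M →ₗ[F] N) (s : N →ₗ[F] M), BrS ρ ρ' Q β s

/-- QKE: kernel and image of a split Brauer quotient on the fixed vectors.

Proof.  (1) `ρ(q) s(n) = s(ρ'(q) n) = s(n)`.  (2) `β(BK) = 0` by (R1); if `β m = 0`, `m` fixed, then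
`m = (1 - sβ) m ∈ BK` by (R2).  (3) the same. -/
def QkeStmt : Prop :=
  ∀ (ℓ : ℕ) [Fact ℓ.Prime] (F V M N : Type) [Field F] [CharP F ℓ] [CommGroup V] [Finite V]
    [AddCommGroup M] [Module F M] [AddCommGroup N] [Module F N]
    (ρ : V →* (M →ₗ[F] M)) (ρ' : V →* (N →ₗ[F] N)) (Q : Subgroup V) (β : M →ₗ[F] N)
    (s : N →ₗ[F] M), IsPGroup ℓ V → BrS ρ ρ' Q β s →
    (∀ n, s n ∈ Fx ρ Q) ∧ (∀ m ∈ Fx ρ Q, β m = 0 ↔ m ∈ BK ρ Q) ∧
    ∀ m ∈ Fx ρ Q, m - s (β m) ∈ BK ρ Q

/-- QDI: dimensions modulo `ℓ`.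

Proof.  The trace of an element of `PT ρ Q` is `0`: `tr(∑_x ρ(x) h ρ(x)⁻¹) = |S| tr(h) = 0`.  So
`dim M = tr(1) = tr(s β) = tr(β s) = dim N` in `F`. -/
def QdiStmt : Prop :=
  ∀ (ℓ : ℕ) [Fact ℓ.Prime] (F V M N : Type) [Field F] [CharP F ℓ] [CommGroup V] [Finite V]
    [AddCommGroup M] [Module F M] [Module.Finite F M] [AddCommGroup N] [Module F N]
    [Module.Finite F N]
    (ρ : V →* (M →ₗ[F] M)) (ρ' : V →* (N →ₗ[F] N)) (Q : Subgroup V) (β : M →ₗ[F] N)
    (s : N →ₗ[F] M), IsPGroup ℓ V → BrS ρ ρ' Q β s →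
    (Module.finrank F M : F) = (Module.finrank F N : F)

/-- QTM: tensor products of split Brauer quotients.

Proof.  `1 - (sβ ⊗ s'β') = (1 - sβ) ⊗ 1 + sβ ⊗ (1 - s'β')`; `h ⊗ 1` commutes with `ρ(k) ⊗ σ(k)` if `h`
commutes with `ρ(k)`, and `∑ (ρ(x) ⊗ σ(x)) (h ⊗ 1) (ρ(x)⁻¹ ⊗ σ(x)⁻¹) = (∑ ρ(x) h ρ(x)⁻¹) ⊗ 1`; in the
second term `sβ` commutes with `ρ(x)`: `∑ (ρ(x) ⊗ σ(x)) (sβ ⊗ h') (..)⁻¹ = sβ ⊗ ∑ σ(x) h' σ(x)⁻¹`. -/
def QtmStmt : Prop :=
  ∀ (F V M N M' N' : Type) [Field F] [CommGroup V] [Finite V]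
    [AddCommGroup M] [Module F M] [AddCommGroup N] [Module F N]
    [AddCommGroup M'] [Module F M'] [AddCommGroup N'] [Module F N']
    (ρ : V →* (M →ₗ[F] M)) (ρ' : V →* (N →ₗ[F] N)) (σ : V →* (M' →ₗ[F] M'))
    (σ' : V →* (N' →ₗ[F] N')) (Q : Subgroup V) (β : M →ₗ[F] N) (s : N →ₗ[F] M)
    (β' : M' →ₗ[F] N') (s' : N' →ₗ[F] M'), BrS ρ ρ' Q β s → BrS σ σ' Q β' s' →
    BrS (tns ρ σ) (tns ρ' σ') Q (TensorProduct.map β β') (TensorProduct.map s s')

/-! ## Algebras -/

/-- QAL: existence of `X(Q)` as an interior algebra.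

Proof.  QSB for `cj` gives `N, β, s`.  `Fx (cj) Q` is the centraliser of `Q`, `BK (cj) Q` is a two-sided
ideal of it (`a ∑ x m x⁻¹ = ∑ x (a m) x⁻¹` for `a` in the centraliser of `Q`).  By QKE `β` induces a
linear isomorphism of the quotient algebra with `N`; take `Y.A` = the quotient algebra of the
centraliser `Cz F X.ι Q` by the ideal (or `N` with the transported multiplication
`n n' = β(s n · s n')`), `Y.ι v` the class of `X.ι v` (`V` is abelian).  The action `ρ'` of `BrS` is `cj` of `Y`: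
`β(v m v⁻¹) = β(v) β(m) β(v)⁻¹` for `m = s n`. -/
def QalStmt : Prop :=
  ∀ (ℓ : ℕ) [Fact ℓ.Prime] (F V : Type) [Field F] [CharP F ℓ] [CommGroup V] [Finite V]
    (X : IA F V), IsPGroup ℓ V → CP X → ∀ Q : Subgroup V, ∃ Y : IA F V, BQ X Y Q

/-- QAH: a given model of `X(Q)`.

Proof.  QAL gives `Y', β', s'`.  By QKE (for `β'`) and the hypothesis on `π` both have the kernel
`BK` on the fixed algebra, and both are surjective on it, so there is an isomorphism `e : Y' → Y` of
algebras, `e(β' a) = π a` for fixed `a`.  `β = e β'`, `s = s' e⁻¹`. -/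
def QahStmt : Prop :=
  ∀ (ℓ : ℕ) [Fact ℓ.Prime] (F V : Type) [Field F] [CharP F ℓ] [CommGroup V] [Finite V]
    (X Y : IA F V), IsPGroup ℓ V → CP X → ∀ (Q : Subgroup V) (π : Cz F X.ι Q →ₐ[F] Y.A),
    Function.Surjective π → (∀ a, π a = 0 ↔ (a : X.A) ∈ BK (cj F X.ι) Q) →
    (∀ (v : V) (h : X.ι v ∈ Cz F X.ι Q), π ⟨X.ι v, h⟩ = Y.ι v) →
    ∃ (β : X.A →ₗ[F] Y.A) (s : Y.A →ₗ[F] X.A), ABr X Y Q β s ∧ ∀ a : Cz F X.ι Q, β a = π a

/-- QUN: uniqueness of `X(Q)`.  Proof.  `e(y) = β'(s y)`; by QKE `β` and `β'` have the same kernel on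
the fixed vectors, so `e(β x) = β'(x)` for fixed `x`. -/
def QunStmt : Prop :=
  ∀ (ℓ : ℕ) [Fact ℓ.Prime] (F V : Type) [Field F] [CharP F ℓ] [CommGroup V] [Finite V]
    (X Y Y' : IA F V) (Q : Subgroup V) (β : X.A →ₗ[F] Y.A) (s : Y.A →ₗ[F] X.A)
    (β' : X.A →ₗ[F] Y'.A) (s' : Y'.A →ₗ[F] X.A), IsPGroup ℓ V → ABr X Y Q β s → ABr X Y' Q β' s' →
    ∃ e : Y.A ≃ₐ[F] Y'.A, (∀ v, e (Y.ι v) = Y'.ι v) ∧ ∀ x ∈ Fx (cj F X.ι) Q, e (β x) = β' x

/-- QIS: `BQ` and the other notions are invariant under isomorphism; `Iso` is an equivalence relation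
and respects tensor products and opposites; twisted isomorphisms.  All parts are formal
(`Algebra.TensorProduct.congr`, `Algebra.TensorProduct.comm`, `Algebra.TensorProduct.assoc`,
`Algebra.TensorProduct.lid`, `AlgEquiv.op`). -/
def QisStmt : Prop :=
  ∀ (F V : Type) [Field F] [CommGroup V] [Finite V],
    (∀ X : IA F V, Iso X X) ∧ (∀ X Y : IA F V, Iso X Y → Iso Y X) ∧
    (∀ X Y Z : IA F V, Iso X Y → Iso Y Z → Iso X Z) ∧
    (∀ (X X' Y Y' : IA F V) (Q : Subgroup V), Iso X X' → Iso Y Y' → BQ X Y Q → BQ X' Y' Q) ∧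
    (∀ X Y : IA F V, Iso X Y → CP X → CP Y) ∧ (∀ X Y : IA F V, Iso X Y → Mx X → Mx Y) ∧
    (∀ X Y : IA F V, Iso X Y → Ret X → Ret Y) ∧
    (∀ X X' Y Y' : IA F V, Iso X X' → Iso Y Y' → Iso (X.tens Y) (X'.tens Y')) ∧
    (∀ X Y : IA F V, Iso X Y → Iso X.op Y.op) ∧
    (∀ X Y : IA F V, Iso (X.tens Y) (Y.tens X)) ∧
    (∀ X Y Z : IA F V, Iso ((X.tens Y).tens Z) (X.tens (Y.tens Z))) ∧
    (∀ X : IA F V, Iso ((IA.one F V).tens X) X) ∧ Iso (IA.one F V).op (IA.one F V) ∧
    (∀ (σ τ : MulAut V) (X Y Z : IA F V), IsoT σ X Y → IsoT τ Y Z → IsoT (τ * σ) X Z) ∧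
    (∀ (X Y : IA F V), IsoT 1 X Y ↔ Iso X Y) ∧
    (∀ (σ : MulAut V) (X X' Y Y' : IA F V), IsoT σ X X' → IsoT σ Y Y' →
      IsoT σ (X.tens Y) (X'.tens Y')) ∧
    (∀ (σ : MulAut V) (X Y : IA F V), IsoT σ X Y → IsoT σ X.op Y.op) ∧
    ∀ σ : MulAut V, IsoT σ (IA.one F V) (IA.one F V)

/-- QTE: tensor products of algebras.

Proof.  `TensorProduct.map β β'`, `TensorProduct.map s s'`, `BrS` by QTM (`cj` of the tensor product is
`tns` of the `cj`, check on pure tensors).  Multiplicativity on the fixed algebra: for `t` fixed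
`t = t₀ + z` with `t₀ = (sβ ⊗ s'β') t` in the span of the products of fixed vectors and
`z ∈ BK` (R2), `BK` is a two-sided ideal of the fixed algebra killed by `β ⊗ β'` (R1); on products
of fixed vectors `β ⊗ β'` is multiplicative. -/
def QteStmt : Prop :=
  ∀ (ℓ : ℕ) [Fact ℓ.Prime] (F V : Type) [Field F] [CharP F ℓ] [CommGroup V] [Finite V]
    (X Y X' Y' : IA F V) (Q : Subgroup V) (β : X.A →ₗ[F] Y.A) (s : Y.A →ₗ[F] X.A)
    (β' : X'.A →ₗ[F] Y'.A) (s' : Y'.A →ₗ[F] X'.A), IsPGroup ℓ V → ABr X Y Q β s →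
    ABr X' Y' Q β' s' →
    ABr (X.tens X') (Y.tens Y') Q (TensorProduct.map β β') (TensorProduct.map s s')

/-- QOP: opposite algebras and the trivial cases.

Proof.  `cj` of `X.op` is the same representation as `cj` of `X` (through `MulOpposite.op`), `β` and `s` are the
same maps; `mul` for the opposite is `mul` with the factors exchanged.  `V` acts trivially on `F` and
(by conjugation) on `F V`: `β = s = 1`. -/
def QopStmt : Prop :=
  ∀ (F V : Type) [Field F] [CommGroup V] [Finite V],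
    (∀ (X Y : IA F V) (Q : Subgroup V), BQ X Y Q → BQ X.op Y.op Q) ∧
    (∀ Q : Subgroup V, BQ (IA.one F V) (IA.one F V) Q) ∧
    ∀ Q : Subgroup V, BQ (IA.gr F V) (IA.gr F V) Q

/-- QCP: summands of permutation modules.

Proof.  Tensor products: `PstStmt`-frame `b_ω ⊗ b_ω'`, `c_ω ⊗ c_ω'` (`cj` of the tensor product is `tns`).
Opposite: the same frame.  Brauer quotient: `β b_ω`, `c_ω s` (`β` and `s` are equivariant, `β s = 1`).
Corner: `κ⁻¹(j b_ω j)`, `c_ω κ` (`j` commutes with `V`).  `F` and `F V`: trivial action, basis. -/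
def QcpStmt : Prop :=
  ∀ (F V : Type) [Field F] [CommGroup V] [Finite V],
    (∀ X Y : IA F V, CP X → CP Y → CP (X.tens Y)) ∧ (∀ X : IA F V, CP X → CP X.op) ∧
    (∀ (X Y : IA F V) (Q : Subgroup V), BQ X Y Q → CP X → CP Y) ∧
    (∀ (X Y : IA F V) (j : X.A) (κ : Y.A →ₗ[F] X.A), Cor X Y j κ → CP X → CP Y) ∧
    (∀ (P : Subgroup (V × V) → Prop) (X Y : IA F V) (j : X.A) (κ : Y.A →ₗ[F] X.A),
      Cor X Y j κ → PS P (bi F X.ι) → PS P (bi F Y.ι)) ∧
    CP (IA.one F V) ∧ CP (IA.gr F V)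

/-- QTR: transitivity.

Proof.  `CP Y` (QCP), so there is `Z'` with `BQ Y Z' R` (QAL).  Frame `b, c` of `X`; `β b_ω`, `c_ω s` is a
frame of `Y`, also if one uses only the points `ω` fixed by `Q` (`β b_ω`.. : for `y ∈ Y`,
`s y = ∑_(ω fixed by Q) c_ω(s y) b_ω + BK` by `frame_sub`, apply `β`).  With the key lemma
`frame_iff`: for `x` fixed by `Q ⊔ R`: `β x ∈ BK (cj Y) R` iff `c_ω(s β x) = 0` for all `ω` fixed by `Q` and `R`,
and `c_ω(s β x) = c_ω(x)` for these (`x - s β x ∈ BK (cj X) Q`, `frame_BK`), iff `x ∈ BK (cj X) (Q ⊔ R)`.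
The map `Fx X (Q ⊔ R) → Fx Y R → Z'` is surjective (use the sections `s`; `s` of an `R`-fixed element is
fixed by `Q` and by `R`).  So `Z` and `Z'` are the same quotient, `Iso Z' Z`, and QIS. -/
def QtrStmt : Prop :=
  ∀ (ℓ : ℕ) [Fact ℓ.Prime] (F V : Type) [Field F] [CharP F ℓ] [CommGroup V] [Finite V]
    (X Y Z : IA F V) (Q R : Subgroup V), IsPGroup ℓ V → CP X → BQ X Y Q → BQ X Z (Q ⊔ R) →
    BQ Y Z R

/-- QCE: existence of corners.  Proof.  `Y.A` = the subspace `{a : j a = a, a j = a}` with the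
multiplication of `X.A` and the unit `j`, `Y.ι v = X.ι v * j`. -/
def QceStmt : Prop :=
  ∀ (F V : Type) [Field F] [CommGroup V] (X : IA F V) (j : X.A), j * j = j →
    (∀ v, X.ι v * j = j * X.ι v) → ∃ (Y : IA F V) (κ : Y.A →ₗ[F] X.A), Cor X Y j κ

/-- QCB: the Brauer quotient of a corner.

Proof.  `θ(a) = j a j` on `X.A`, `κ'(b) = β(j) b β(j)` on `Y.A`, both commute with `V`, `X'.A = θ(X.A)`,
`Y'.A = κ'(Y.A)` through `κ`, `κy`.  Put `β'(a) = κ'(β a)`, `s'(b) = θ(s b)`.  For fixed `a`: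
`β(j a j) = β(j) β(a) β(j)`, so `β' s' = 1` and `β'(a) = β(a)` for fixed `a` in the corner.
`1 - s'β' ∈ PT`: `φ = β θ - κ' β` is equivariant and vanishes on `Fx Q`, so
`φ = φ (sβ + T) = φ T` with `T = 1 - sβ ∈ PT`; on the corner
`1 - s'β' = θ - θ s κ' β = θ - θ s β θ + θ s φ = θ T θ + θ s φ T` (`θ = 1` on the corner, `sβ = 1 - T`),
in `PT` by (R2) (transport to the corner with `κ`: `h` becomes `κ⁻¹ θ h κ`). -/
def QcbStmt : Prop :=
  ∀ (ℓ : ℕ) [Fact ℓ.Prime] (F V : Type) [Field F] [CharP F ℓ] [CommGroup V] [Finite V]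
    (X Y X' Y' : IA F V) (Q : Subgroup V) (β : X.A →ₗ[F] Y.A) (s : Y.A →ₗ[F] X.A) (j : X.A)
    (κ : X'.A →ₗ[F] X.A) (κy : Y'.A →ₗ[F] Y.A), IsPGroup ℓ V → ABr X Y Q β s → Cor X X' j κ →
    Cor Y Y' (β j) κy →
    ∃ (β' : X'.A →ₗ[F] Y'.A) (s' : Y'.A →ₗ[F] X'.A), ABr X' Y' Q β' s' ∧
      ∀ a ∈ Fx (cj F X'.ι) Q, κy (β' a) = β (κ a)

/-- QCA: cancellation of `F V`.

Proof.  Let `g : S ⊗ F V → S' ⊗ F V → S'` be the isomorphism followed by the augmentation, a surjective
homomorphism with `g(S.ι v ⊗ v) = S'.ι v`.  The augmentation ideal `J` of `F V` is nilpotent (`V` is an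
`ℓ`-group), `S ⊗ J` is a nilpotent ideal, its image in the simple algebra `S'` is a nilpotent ideal,
so `0`.  So `g` factors through `S ⊗ F V → S` (augmentation): `g' : S → S'` surjective,
`g'(S.ι v) = S'.ι v`.  The dimensions of `S` and `S'` agree (`dim S |V| = dim S' |V|`). -/
def QcaStmt : Prop :=
  ∀ (ℓ : ℕ) [Fact ℓ.Prime] (F V : Type) [Field F] [CharP F ℓ] [CommGroup V] [Finite V]
    (S S' : IA F V), IsPGroup ℓ V → Mx S' → Iso (S.tens (IA.gr F V)) (S'.tens (IA.gr F V)) →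
    Iso S S'

/-- QMX: matrix algebras.  Proof.  `Mat_n ⊗ Mat_m = Mat_nm`, transpose, `F = Mat_1`. -/
def QmxStmt : Prop :=
  ∀ (F V : Type) [Field F] [CommGroup V],
    (∀ X Y : IA F V, Mx X → Mx Y → Mx (X.tens Y)) ∧ (∀ X : IA F V, Mx X → Mx X.op) ∧
    Mx (IA.one F V)

/-- QRE: `S ⊗ S^op` has the trivial summand.

Proof.  Identify `S` with `Mat_n(F)`, `n ≠ 0` in `F` (`dim S = n²`).
`π = n⁻¹ ∑_(k,l) E_kl ⊗ op(E_lk)`.  `(a ⊗ op b)` acts on `S` by `x ↦ a x b`; this is a faithful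
representation of `S ⊗ S^op` (it is a simple algebra; or compute with matrix units), and `π` acts as
`x ↦ n⁻¹ tr(x) 1`.  `v = ι(v) ⊗ op(ι(v)⁻¹)` acts by conjugation, so `v π = π = π v`; `π² = π`;
`π a π = (n⁻¹ tr(a · 1)) π`.  Direct formulas: `(a ⊗ op b) π = (1 ⊗ op (b a)) π`.. also give it. -/
def QreStmt : Prop :=
  ∀ (F V : Type) [Field F] [CommGroup V] (S : IA F V), Mx S → (Module.finrank F S.A : F) ≠ 0 →
    Ret (S.tens S.op)

/-- QRT: `Ret` for tensor products.  Proof.  `π ⊗ π'`; a tensor product of nonzero vectors is not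
zero; `(π ⊗ π') (a ⊗ b) (π ⊗ π') = c c' π ⊗ π'`, linear in `a ⊗ b`.  `F`: `π = 1`. -/
def QrtStmt : Prop :=
  ∀ (F V : Type) [Field F] [CommGroup V],
    (∀ X Y : IA F V, Ret X → Ret Y → Ret (X.tens Y)) ∧ Ret (IA.one F V)

/-! ## Local idempotents -/

/-- QCX: the character of `X^V` if `X(V) = F V`, and its uniqueness.

Proof.  `b(x) = ` the sum of the coefficients of `β x`.  Any character `b` (`Chr`) kills `BK ⊤` (R1);
for fixed `x`: `x - s(β x) ∈ BK` (QKE), so `b(x) = b(s(β x))`, and `y ↦ b(s y)` is an algebra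
homomorphism `F V → F` (`s(y) s(y') - s(y y') ∈ BK` because `β` of it is `0`), so it is the
augmentation: an element of the `ℓ`-group `V` goes to an element of `ℓ`-power order of `F`, i.e. `1`. -/
def QcxStmt : Prop :=
  ∀ (ℓ : ℕ) [Fact ℓ.Prime] (F V : Type) [Field F] [CharP F ℓ] [CommGroup V] [Finite V]
    (X : IA F V), IsPGroup ℓ V → BQ X (IA.gr F V) ⊤ →
    (∃ b, Chr X b) ∧ ∀ b b', Chr X b → Chr X b' → ∀ x ∈ Fx (cj F X.ι) ⊤, b x = b' x

/-- QLX: existence of a local idempotent over a character.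

Proof.  `C = Fx ⊤` is a finite-dimensional algebra, `b : C → F` a homomorphism.  `C/J(C)` is semisimple,
`b` is the projection to a factor `F`; lift the idempotent `(1, 0)` to `j ∈ C`; `j C j / j J j = F`.
Or: among the idempotents `j` of `C` with `b(j) = 1` take one with `dim j C j` minimal; if
`x ∈ j C j`, `b(x) = 0`, is not nilpotent then `F[x]` contains an idempotent `f ≠ 0`, `f ∈ x F[x]`
(Fitting), so `b(f) = 0`, and `j - f` has `b(j - f) = 1` and a smaller corner: contradiction. -/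
def QlxStmt : Prop :=
  ∀ (F V : Type) [Field F] [CommGroup V] (X : IA F V) (b : X.A →ₗ[F] F), Chr X b →
    ∃ j, Loc X b j

/-- QLU: uniqueness up to conjugation.

Proof.  `C = Fx ⊤`.  `j j' j` is in `j C j` with `b = 1`, so it is a unit of `j C j` (`1` plus a nilpotent
element); the same for `j' j j'`.  Let `p ∈ j C j` be the inverse of `j j' j`, `x = p j'`, `y = j' j`:
`x y = p j' j = p (j j' j) = j`, and `y x = j' j p j'` is an idempotent of `j' C j'` with `b = 1`, so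
`j' - y x` is an idempotent with `b = 0`, nilpotent, so `0`: `y x = j'`.  So `j` and `j'` are equivalent
idempotents of the finite-dimensional algebra `C`; then `1 - j` and `1 - j'` are equivalent too
(Krull-Schmidt; or modulo the radical: for `c ∈ j C` in the kernel of `b`.. the images of `j` and `j'` in
`C/J(C)` are both the unit of the factor `F`, so `j - j' ∈ J(C)` and `u = j' j + (1 - j')(1 - j)` is a unit,
`u j = j' u`).  To see `j - j' ∈ J(C)`: `C = C/J × ..`; `b(z) = 0`, `z ∈ C`: `j z ∈ J(C)` because `j z w j` is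
nilpotent for all `w ∈ C` (it is `j (z w) j`, `b = 0`), so `1 - j z w` is invertible for all `w`
(`j z w` is nilpotent: `(j z w)^(n+1) = (j z w j)^n z w`).  With `z = 1 - j'`: `j - j j' ∈ J(C)`, and
`j' j - j ∈ J(C)` in the same way from the other side, `j' - j j' ∈ J(C)` with the roles exchanged, so
`j ≡ j j' ≡ j'`. -/
def QluStmt : Prop :=
  ∀ (F V : Type) [Field F] [CommGroup V] (X : IA F V) (b : X.A →ₗ[F] F) (j j' : X.A), Chr X b →
    Loc X b j → Loc X b j' → ∃ u : X.Aˣ, (∀ v, (u : X.A) * X.ι v = X.ι v * u) ∧ u * j = j' * u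

/-- QLB: the image of a local idempotent in a Brauer quotient.

Proof.  `c = b s`.  `c(v y v⁻¹) = b(v s(y) v⁻¹) = c(y)`.  For fixed `x`: `x - s β x` is in `BK R` and fixed
by `V`, so it is in `BK ⊤` (`CmpStmt`, key lemma), killed by `b` (R1): `c(β x) = b(x)`.  For `V`-fixed
`y, y'`: `s y`, `s y'` are fixed, `c(y y') = c(β(s y s y')) = b(s y s y') = c(y) c(y')`;
`c(1) = c(β 1) = 1`.  `β(j)`: idempotent, fixed, `c(β j) = 1`; if `y` is fixed, `x = s y`,
`c(β(j) y β(j)) = c(β(j x j)) = b(j x j) = 0` then `j x j` is nilpotent, and so is its image. -/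
def QlbStmt : Prop :=
  ∀ (ℓ : ℕ) [Fact ℓ.Prime] (F V : Type) [Field F] [CharP F ℓ] [CommGroup V] [Finite V]
    (X Y : IA F V) (R : Subgroup V) (b : X.A →ₗ[F] F) (j : X.A) (β : X.A →ₗ[F] Y.A)
    (s : Y.A →ₗ[F] X.A), IsPGroup ℓ V → CP X → Chr X b → Loc X b j → ABr X Y R β s →
    ∃ c : Y.A →ₗ[F] F, Chr Y c ∧ (∀ x ∈ Fx (cj F X.ι) ⊤, c (β x) = b x) ∧ Loc Y c (β j)

/-- QLW: the idempotent `π ⊗ 1`.

Proof.  `c_W(w) = c(w ⊗ 1)` is a character of `W` (`Chr W`).  `BQ W F ⊤` with `β, s`: `π - β(π) s(1) ∈ BK ⊤`,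
`1 - s(1) ∈ BK ⊤`, so `c_W(π) = β(π) =: κ`, `κ² = κ`.  `κ ≠ 0`: otherwise `π ∈ BK ⊤`,
`π = ∑_i ∑_x x m_i x⁻¹` (`m_i` fixed by `K_i < ⊤`), `π = π π π = ∑_i ∑_x x (π m_i π) x⁻¹` (`v π = π = π v`)
`= ∑_i |S_i| c_i π = 0`.  So `c(π ⊗ 1) = 1`.  `nil`: `(π ⊗ 1) x (π ⊗ 1) = π ⊗ y`, `y ∈ F V`
(`π W π = F π`); `y ↦ c(π ⊗ y)` is an algebra homomorphism `F V → F` (all `π ⊗ y` are fixed), so the
augmentation; `y` in the augmentation ideal is nilpotent. -/
def QlwStmt : Prop :=
  ∀ (ℓ : ℕ) [Fact ℓ.Prime] (F V : Type) [Field F] [CharP F ℓ] [CommGroup V] [Finite V]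
    (W : IA F V) (c : (W.tens (IA.gr F V)).A →ₗ[F] F) (π : W.A), IsPGroup ℓ V →
    BQ W (IA.one F V) ⊤ → Chr (W.tens (IA.gr F V)) c → π * π = π → π ≠ 0 →
    (∀ v, W.ι v * π = π) → (∀ v, π * W.ι v = π) → (∀ a, ∃ t : F, π * a * π = t • π) →
    Loc (W.tens (IA.gr F V)) c (π ⊗ₜ[F] (1 : (IA.gr F V).A))

/-- QZS: the corner at a local idempotent has the Brauer quotients `F V`.

Proof.  `Y = W ⊗ F V`, `β, s`.  QLB: `c`, `Loc Y c (β j)`.  QLW: `Loc Y c (π ⊗ 1)`.  QLU: `u (π ⊗ 1) = (β j) u`,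
`u` commutes with `V`.  `κy(y) = u (π ⊗ y) u⁻¹` is a corner `Cor Y (F V) (β j) κy`.  QCB. -/
def QzsStmt : Prop :=
  ∀ (ℓ : ℕ) [Fact ℓ.Prime] (F V : Type) [Field F] [CharP F ℓ] [CommGroup V] [Finite V]
    (X X' W : IA F V) (R : Subgroup V) (b : X.A →ₗ[F] F) (j : X.A) (κ : X'.A →ₗ[F] X.A),
    IsPGroup ℓ V → CP X → Chr X b → Loc X b j → Cor X X' j κ → BQ X (W.tens (IA.gr F V)) R →
    Ret W → BQ W (IA.one F V) ⊤ → BQ X' (IA.gr F V) R

/-- QSP: from `BQ` to the spanning form (`Spn`, `Tpv` of `DefsP2`, `StmtsB5b`).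

Proof.  `a` fixed, `β a = ∑ c_u u = β(∑ c_u ι(u))`, so the difference is in `BK` (QKE).  If
`∑ c_u ι(u) ∈ BK` then `∑ c_u u = β(..) = 0`. -/
def QspStmt : Prop :=
  ∀ (ℓ : ℕ) [Fact ℓ.Prime] (F V : Type) [Field F] [CharP F ℓ] [CommGroup V] [Fintype V]
    (X : IA F V) (R : Subgroup V), IsPGroup ℓ V → BQ X (IA.gr F V) R →
    (∀ a ∈ Fx (cj F X.ι) R, ∃ c : V → F, a - ∑ u, c u • X.ι u ∈ BK (cj F X.ι) R) ∧
    ∀ c : V → F, ∑ u, c u • X.ι u ∈ BK (cj F X.ι) R → c = 0

/-- QLL: the fixed algebra of the corner is local.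

Proof.  `κ(a)` is fixed, `κ(a) = j κ(a) j`; `t = b(κ a)`, `κ(a) - t j` is `j (..) j` with `b = 0`, nilpotent.
So every element of the fixed algebra is a scalar plus a nilpotent element, the elements with
`t = 0` are closed under addition because `t` is linear; `1 ≠ 0` because `b(j) = 1`. -/
def QllStmt : Prop :=
  ∀ (F V : Type) [Field F] [CommGroup V] (X X' : IA F V) (b : X.A →ₗ[F] F) (j : X.A)
    (κ : X'.A →ₗ[F] X.A), Chr X b → Loc X b j → Cor X X' j κ →
    (∀ a ∈ Fx (cj F X'.ι) ⊤, ∃ t : F, IsNilpotent (a - algebraMap F X'.A t)) ∧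
    IsLocalRing (Cz F X'.ι ⊤)

/-- QTJ: a unit which realises `σ` in the corner.

Proof.  `y` a unit of `X`, `y v = σ(v) y`.  `b'(a) = b(y a y⁻¹)` is a character (`Chr X b'`), so `b' = b` on
the fixed algebra (QCX); so `y j y⁻¹` is local over `b`.  QLU: a unit `u` which commutes with `V`,
`u (y j y⁻¹) = j u`.  `z = u y` commutes with `j`, `z v = σ(v) z`.  The unit of the corner: `κ⁻¹(z j)`, with
inverse `κ⁻¹(z⁻¹ j)`. -/
def QtjStmt : Prop :=
  ∀ (ℓ : ℕ) [Fact ℓ.Prime] (F V : Type) [Field F] [CharP F ℓ] [CommGroup V] [Finite V]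
    (X X' : IA F V) (b : X.A →ₗ[F] F) (j : X.A) (κ : X'.A →ₗ[F] X.A) (σ : MulAut V),
    IsPGroup ℓ V → BQ X (IA.gr F V) ⊤ → Chr X b → Loc X b j → Cor X X' j κ → Rz X σ → Rz X' σ

/-- QTA: a unit of finite order.

Proof.  `w = y^m` is fixed by `V` (`σ^m = 1`) and commutes with `y`; `w = t (1 + n)`, `t ≠ 0`, `n`
nilpotent, `n` commutes with `y` and with `V`, `(1 + n)^(ℓ^a) = 1 + n^(ℓ^a) = 1` for large `a`.  Let
`k m = 1` modulo `ℓ^a`, `t = r^m` (`F` algebraically closed); `y' = r⁻¹ (1 + n)^(ℓ^a N - k) y`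
(with `ℓ^a N ≥ k`), `y'^m = t⁻¹ (1 + n)^(-k m) w = 1`. -/
def QtaStmt : Prop :=
  ∀ (ℓ : ℕ) [Fact ℓ.Prime] (F V : Type) [Field F] [IsAlgClosed F] [CharP F ℓ] [CommGroup V]
    (X : IA F V) (σ : MulAut V) (m : ℕ), 0 < m → ¬ ℓ ∣ m → σ ^ m = 1 → Nontrivial X.A →
    (∀ a ∈ Fx (cj F X.ι) ⊤, ∃ t : F, IsNilpotent (a - algebraMap F X.A t)) → Rz X σ →
    ∃ y : X.Aˣ, (∀ v, (y : X.A) * X.ι v = X.ι (σ v) * y) ∧ y ^ m = 1

/-- QSN: Skolem-Noether, and closure of `Rz`.

Proof.  An automorphism of `Mat_n(F)` is inner: `e(a) = y a y⁻¹`.  The rest: `y y'`, `1`, `y ⊗ y'`,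
`op (y⁻¹)`. -/
def QsnStmt : Prop :=
  ∀ (F V : Type) [Field F] [CommGroup V],
    (∀ (X : IA F V) (σ : MulAut V), Mx X → IsoT σ X X → Rz X σ) ∧ (∀ X : IA F V, Rz X 1) ∧
    (∀ (X : IA F V) (σ τ : MulAut V), Rz X σ → Rz X τ → Rz X (σ * τ)) ∧
    (∀ (X Y : IA F V) (σ : MulAut V), Rz X σ → Rz Y σ → Rz (X.tens Y) σ)

/-- QVP: the `V × V`-structure of `S ⊗ X`.

Proof (helper71).  Frame `b, c` of `cj S` on `Ω_S`, frame `b', c'` of `bi X` on `Ω`, stabilisers `tw σ_ω R_ω`,
`σ_ω` constant on orbits (choose it for every orbit; `V × V` is abelian so the stabiliser is constant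
on orbits).  `t_ω` a unit of `S` with `t_ω S.ι(u) = S.ι(σ_ω u) t_ω`, constant on orbits.  Choose
`d : Ω → V` with `d((u,v) ω) = u d(ω) σ(v)⁻¹` (representative `ω₀`: `d((x,y) ω₀) = x σ(y)⁻¹`, well defined
because `(σ r, r)` goes to `1`).  On `Ω_S × Ω` let `(u, v) (k, ω) = (v k, (u, v) ω)`; vectors
`S.ι(d ω) t_ω b_k ⊗ b'_ω`, functionals `s ⊗ a ↦ c_k(t_ω⁻¹ S.ι(d ω)⁻¹ s) c'_ω(a)`.  Check:
`S.ι(u) S.ι(d ω) t_ω b_k S.ι(v)⁻¹ = S.ι(u d(ω) σ(v)⁻¹) t_ω S.ι(v) b_k S.ι(v)⁻¹`.  The stabiliser of `(k, ω)` is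
`tw σ (R ⊓ Stab k)`. -/
def QvpStmt : Prop :=
  ∀ (F V E : Type) [Field F] [CommGroup V] [Finite V] [Group E] (φ : E →* MulAut V)
    (S X : IA F V), CP S → (∀ e, Rz S (φ e)) →
    PS (fun K => ∃ (e : E) (R : Subgroup V), K = tw (φ e).toMonoidHom R) (bi F X.ι) →
    PS (fun K => ∃ (e : E) (R : Subgroup V), K = tw (φ e).toMonoidHom R) (bi F (S.tens X).ι)

/-! ## Gluing -/

/-- QMO: the Moebius function of the subgroup lattice (Weisner).

Proof.  Define `μ` by recursion on `|S|`: `∑_(Q ≤ S) μ(Q) = 1` if `S = ⊥`, `0` otherwise; it is unique, so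
invariant under automorphisms; `μ(⊥) = 1`.  For `R ≠ ⊥`, `S ≥ R` let `f(S) = ∑_(Q ⊔ R = S) μ(Q)` (all `Q`).
`∑_(R ≤ S' ≤ S) f(S') = ∑_(Q ≤ S) μ(Q) = 0`, so `f(S) = 0` for all `S ≥ R` by induction.  The term
`Q = ⊥` occurs only for `S = R`, it is `1`. -/
def QmoStmt : Prop :=
  ∀ (V : Type) [CommGroup V] [Finite V], ∃ μ : Subgroup V → ℤ,
    (∀ (σ : MulAut V) (Q : Subgroup V), μ (Q.map σ.toMonoidHom) = μ Q) ∧
    ∀ R S : Subgroup V, R ≠ ⊥ →
      (S = R → ∑ᶠ Q ∈ {Q : Subgroup V | Q ≠ ⊥ ∧ Q ⊔ R = S}, μ Q = -1) ∧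
      (S ≠ R → ∑ᶠ Q ∈ {Q : Subgroup V | Q ≠ ⊥ ∧ Q ⊔ R = S}, μ Q = 0)

/-- QLP: products over permuted lists.  Proof.  Induction on `List.Perm` with QIS (swap: associativity,
commutativity, associativity). -/
def QlpStmt : Prop :=
  ∀ (F V ι : Type) [Field F] [CommGroup V] [Finite V] (S : ι → IA F V) (L L' : List (ι × Bool)),
    L.Perm L' → Iso (prd S L) (prd S L')

/-- QLA: products of concatenated lists.  Proof.  Induction with QIS. -/
def QlaStmt : Prop :=
  ∀ (F V ι : Type) [Field F] [CommGroup V] [Finite V] (S : ι → IA F V) (L L' : List (ι × Bool)),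
    Iso (prd S (L ++ L')) ((prd S L).tens (prd S L'))

/-- QLQ: properties of products over lists.  Proof.  Induction with QTE, QOP, QMX, QCP, QIS. -/
def QlqStmt : Prop :=
  ∀ (ℓ : ℕ) [Fact ℓ.Prime] (F V ι ι' : Type) [Field F] [CharP F ℓ] [CommGroup V] [Finite V]
    (S : ι → IA F V) (S' : ι' → IA F V) (f : ι → ι') (L : List (ι × Bool)), IsPGroup ℓ V →
    ((∀ p ∈ L, Mx (S p.1)) → Mx (prd S L)) ∧ ((∀ p ∈ L, CP (S p.1)) → CP (prd S L)) ∧
    (∀ Q : Subgroup V, (∀ p ∈ L, BQ (S p.1) (S' (f p.1)) Q) →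
      BQ (prd S L) (prd S' (L.map (fun p => (f p.1, p.2)))) Q) ∧
    (∀ σ : MulAut V, (∀ p ∈ L, IsoT σ (S p.1) (S' (f p.1))) →
      IsoT σ (prd S L) (prd S' (L.map (fun p => (f p.1, p.2))))) ∧
    ((∀ p ∈ L, Iso (S p.1) (IA.one F V)) → Iso (prd S L) (IA.one F V))

/-- QLR: a balanced product has the trivial summand.

Proof.  Induction on the length.  `L = []`: `F`.  `L = (Q, ε) :: L₁`: `(Q, !ε)` occurs in `L₁`, so
`L` is a permutation of `(Q, true) :: (Q, false) :: L₂` with `L₂` balanced; the product is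
isomorphic to `(S Q ⊗ (S Q)^op) ⊗ prd L₂` (QLP, QIS); QRE, QRT. -/
def QlrStmt : Prop :=
  ∀ (F V ι : Type) [Field F] [CommGroup V] [Finite V] [DecidableEq ι] (S : ι → IA F V)
    (L : List (ι × Bool)), (∀ p ∈ L, Mx (S p.1) ∧ (Module.finrank F (S p.1).A : F) ≠ 0) →
    (∀ Q, L.count (Q, true) = L.count (Q, false)) → Ret (prd S L)

/-- QGL: gluing.

Proof.  `μ` from QMO; `L` the list which contains, for every `Q ≠ ⊥`, `|μ(Q)|` times the pair
`(Q, true)` if `μ(Q) > 0`, `(Q, false)` if `μ(Q) < 0`; `N = prd S L`.  `Mx`, `CP`: QLQ.  For `σ ∈ Sg`: `IsoT σ N (prd S L^σ)`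
(QLQ, `f(Q) = Q.map σ`), `L^σ` is a permutation of `L` (invariance of `μ`), QLP: `IsoT σ N N`; QSN: `Rz`.
`R ≠ ⊥`: `N' = prd S L_R`, `L_R` = the image of `L` under `Q ↦ Q ⊔ R` (QLQ).  `N' ⊗ S_R` is isomorphic to
`prd S ((R, true) :: L_R)` (QIS), which is balanced: the signed number of `S` in `L_R` is
`∑_(Q ≠ ⊥, Q ⊔ R = S) μ(Q) = -1` for `S = R` and `0` otherwise; QLR (`dim S_Q = 1` in `F` by QDI and
`BQ (S Q) (S ⊤) ⊤`, `S ⊤ = F`).  `(N' ⊗ S_R)(⊤)`: QLQ with `f(Q) = Q ⊔ ⊤ = ⊤`, `S ⊤ = F`; the same for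
`N(⊤)`. -/
def QglStmt : Prop :=
  ∀ (ℓ : ℕ) [Fact ℓ.Prime] (F V : Type) [Field F] [CharP F ℓ] [CommGroup V] [Finite V]
    (Sg : Set (MulAut V)) (S : Subgroup V → IA F V), IsPGroup ℓ V →
    (∀ Q, Q ≠ ⊥ → Mx (S Q) ∧ CP (S Q)) →
    (∀ Q, Q ≠ ⊥ → ∀ R : Subgroup V, BQ (S Q) (S (Q ⊔ R)) R) → Iso (S ⊤) (IA.one F V) →
    (∀ σ ∈ Sg, ∀ Q, Q ≠ ⊥ → IsoT σ (S Q) (S (Q.map σ.toMonoidHom))) →
    ∃ N : IA F V, Mx N ∧ CP N ∧ (∀ σ ∈ Sg, Rz N σ) ∧ BQ N (IA.one F V) ⊤ ∧
      ∀ R : Subgroup V, R ≠ ⊥ → ∃ N' : IA F V, BQ N N' R ∧ Ret (N'.tens (S R)) ∧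
        BQ (N'.tens (S R)) (IA.one F V) ⊤

end Pool.Agent.PFC
end
end -- Pool.Agent.PFC.StmtsB4b

section -- Pool.Agent.PFC.StmtsB5c

/-!
# Squad PFC, block B5c: the chain `PIn → PMid`, part 1 (helper43)

Definitions: `DefsP2.lean` (`Ctf`, `Cz`, `Frm`, `Tpv`, `Lcq`, `PIn`, `PMid`, `PmdStmt`, `PmzStmt`),
`DefsB4.lean` (frames, `PS`, `Fx`, `BK`, `bi`, `cj`, `tw`), `DefsB4b.lean` (`IA`, `BrS`, `ABr`, `BQ`, `CP`,
`Iso`, `IsoT`, `tens`, `gr`, `Cor`, `Mx`, `Rz`, `Chr`, `Loc`), `StmtsB5a.lean` (`zin`).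
-/

open scoped BigOperators TensorProduct

noncomputable section

namespace Pool.Agent.PFC.B5c

open Pool.Agent.PFC.B5a (zin)

section defs

variable (F : Type) {V A E : Type} [Field F] [CommGroup V] [Group E] [Ring A] [Algebra F A]

/-- the bundle of an interior algebra -/
def bd [FiniteDimensional F A] (α : V →* A) : IA F V where
  A := A
  ι := α

variable {F} in
/-- the bundle of a matrix algebra -/
def mx {n : ℕ} (τ : V →* Matrix (Fin n) (Fin n) F) : IA F V where
  A := Matrix (Fin n) (Fin n) F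
  ι := τ

/-- `V → A(Q)/J(A(Q)) = Mat_n(F)` -/
def sg (α : V →* A) (Q : Subgroup V) {n : ℕ} (π : Cz F α Q →ₐ[F] Matrix (Fin n) (Fin n) F) :
    V →* Matrix (Fin n) (Fin n) F :=
  (π : Cz F α Q →* Matrix (Fin n) (Fin n) F).comp (zin F α Q)

variable {F} in
/-- The family of the matrix algebras `S_Q`: `X(Q) = S_Q ⊗ F V` for the subgroups `Q` not in `W`. -/
structure Fam [Finite V] (X : IA F V) (φ : E →* MulAut V) (W : Subgroup V)
    (S : Subgroup V → IA F V) : Prop where
  mx : ∀ Q, ¬ Q ≤ W → Mx (S Q)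
  cp : ∀ Q, ¬ Q ≤ W → CP (S Q)
  bq : ∀ Q, ¬ Q ≤ W → BQ X ((S Q).tens (IA.gr F V)) Q
  tw : ∀ Q, ¬ Q ≤ W → ∀ e, IsoT (φ e) (S Q) (S (Q.map (φ e).toMonoidHom))

end defs

/-- The output of block B5a (`LoqStmt` without its hypotheses). -/
def LoqOut : Prop :=
  ∀ (F V E A : Type) [Field F] [CommGroup V] [Fintype V] [Group E] [Ring A] [Algebra F A]
    (ℓ : ℕ) [CharP F ℓ] (φ : E →* MulAut V) (W : Subgroup V) (α : V →* A) (Q : Subgroup V) (n : ℕ)
    (π : Cz F α Q →ₐ[F] Matrix (Fin n) (Fin n) F),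
    Ctf ℓ φ W → PIn F φ W α → ¬ Q ≤ W → Lcq F α Q n π →
    PS (fun _ => True) (cj F ((π : Cz F α Q →* Matrix (Fin n) (Fin n) F).comp (zin F α Q))) ∧
    ∃ q : Cz F α Q →ₐ[F] Matrix (Fin n) (Fin n) F ⊗[F] MonoidAlgebra F V,
      Function.Surjective q ∧ (∀ a : Cz F α Q, q a = 0 ↔ (a : A) ∈ BK (cj F α) Q) ∧
      ∀ u, q (zin F α Q u) = π (zin F α Q u) ⊗ₜ[F] MonoidAlgebra.of F V u

/-! ## 1. Brauer quotients -/

/-- TRB: a model of the Brauer quotient of a summand of a permutation module is split.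

Proof.  Frame `b ω`, `c ω` for `cj F X.ι` (`CP`).  Put `Ω' = {ω fixed by Q}`; it is stable under `V`
(`V` is commutative), `b ω ∈ Fx Q` for `ω ∈ Ω'` (so `b ω` is in the centraliser `Cz F X.ι Q`).
`e m = ∑_{ω ∈ Ω'} c ω m • b ω`, a `V`-equivariant map, `β m = ∑_{ω ∈ Ω'} c ω m • q (b ω)`.  By the key
lemma on frames (`PFC/B4/Key.lean`: `frame_sub`, `frame_iff`) `m - e m ∈ BK` for `m ∈ Fx Q`, so
`β m = q m` for `m ∈ Fx Q`; and `c ω m = 0` for `ω ∈ Ω'`, `m ∈ BK`.  Section: `s (q m) = e m` for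
`m ∈ Fx Q`, well defined because `e` kills `BK`; it is linear and equivariant (use a linear right
inverse of `q`).  `β (s (q m)) = β (e m) = q (e m) = q m`.  `s (β m) = ∑ c ω m • e (b ω) = e (e m)`.
`LinearMap.id - e ∘ e = (id - e) ∘ (id + e)`, and `id - e = ∑_{ω ∉ Ω'} c ω (·) • b ω` is the sum over the
orbits of `Q` on the complement of `Ω'` of the relative traces of `h = c ω (·) • b ω` from the
stabiliser of `ω` in `Q` (a proper subgroup); replace `h` by `h ∘ (id + e)` (`id + e` commutes with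
`V`).  `tr`: elements of `Q` act trivially on `Y` by conjugation because `q` is onto from the
centraliser of `Q`.  `mul`, `cov`: `β = q` on `Fx Q`. -/
def TrbStmt : Prop :=
  ∀ (ℓ : ℕ) [Fact ℓ.Prime] (F V : Type) [Field F] [CharP F ℓ] [CommGroup V] [Finite V]
    (X Y : IA F V) (Q : Subgroup V) (q : Cz F X.ι Q →ₐ[F] Y.A), IsPGroup ℓ V → CP X →
    Function.Surjective q → (∀ a : Cz F X.ι Q, q a = 0 ↔ (a : X.A) ∈ BK (cj F X.ι) Q) →
    (∀ u, q (zin F X.ι Q u) = Y.ι u) → BQ X Y Q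

/-- BRK: the kernel of a split Brauer quotient on the fixed vectors is the Brauer kernel.

Proof.  If `m ∈ Fx Q` and `β m = 0` then `m = (id - s ∘ β) m`, and an element of `PT ρ Q` maps a vector
fixed by `Q` into `BK ρ Q`: `∑_{x ∈ S} ρ x (h (ρ x⁻¹ m)) = ∑ ρ x (h m)`, `h m ∈ Fx K`.  Conversely
`β (∑_{x ∈ S} ρ x m) = |S| β m = 0` for `m ∈ Fx K`, `K < Q`: the elements of `Q` act trivially on the
quotient, and `ℓ` divides `|S|` (`card_tv`). -/
def BrkStmt : Prop :=
  ∀ (ℓ : ℕ) [Fact ℓ.Prime] (F V M N : Type) [Field F] [CharP F ℓ] [CommGroup V] [Finite V]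
    [AddCommGroup M] [Module F M] [AddCommGroup N] [Module F N]
    (ρ : V →* (M →ₗ[F] M)) (ρ' : V →* (N →ₗ[F] N)) (Q : Subgroup V) (β : M →ₗ[F] N)
    (s : N →ₗ[F] M), IsPGroup ℓ V → BrS ρ ρ' Q β s → ∀ m ∈ Fx ρ Q, β m = 0 ↔ m ∈ BK ρ Q

/-- TPB: `A(V) = F V` as a split Brauer quotient.

Proof.  `q : Cz F X.ι ⊤ → F V`: `q a = ∑ c u • u` if `a - ∑ c u • X.ι u ∈ BK ⊤` (`Tpv.span`, unique by
`Tpv.free`; `BK ⊤` is stable under multiplication with elements of the centraliser of `V`, and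
`V` is commutative, so `q` is multiplicative).  `TRB`. -/
def TpbStmt : Prop :=
  ∀ (ℓ : ℕ) [Fact ℓ.Prime] (F V : Type) [Field F] [CharP F ℓ] [CommGroup V] [Fintype V]
    (X : IA F V), IsPGroup ℓ V → CP X → Tpv F X.ι → BQ X (IA.gr F V) ⊤

/-! ## 2. The family `S_Q` -/

/-- ITW: conjugation by the unit `y`.

Proof.  `c(a) = y a y'` is an automorphism of `A`, `c(α u) = α(σ u)`; it maps `Cz F α Q` onto
`Cz F α (σ Q)` and `BK (cj) Q` onto `BK (cj) (σ Q)` (transversals are mapped by `σ`).  `π' ∘ c` and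
`π` are surjections of `Cz F α Q` to simple algebras; `π (ker (π' ∘ c))` is a two-sided ideal of
`Mat_n(F)` in which every element is nilpotent (`Lcq.nil` for `π'`: `c(a)^N ∈ BK (σ Q)`, so
`a^N ∈ BK Q`, `π(a)^N = 0` by `Lcq.bk`), so it is not everything (`n > 0`), so it is `0`
(`Mat_n(F)` is simple): `ker (π' ∘ c) ≤ ker π`, and the other inclusion in the same way.  Hence the
isomorphism `Mat_n(F) → Mat_n'(F)` with `π a ↦ π' (c a)`. -/
def ItwStmt : Prop :=
  ∀ (F V A : Type) [Field F] [CommGroup V] [Finite V] [Ring A] [Algebra F A] (α : V →* A)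
    (σ : MulAut V) (y y' : A) (Q : Subgroup V) (n n' : ℕ)
    (π : Cz F α Q →ₐ[F] Matrix (Fin n) (Fin n) F)
    (π' : Cz F α (Q.map σ.toMonoidHom) →ₐ[F] Matrix (Fin n') (Fin n') F),
    y * y' = 1 → y' * y = 1 → (∀ u, y * α u = α (σ u) * y) → Lcq F α Q n π →
    Lcq F α (Q.map σ.toMonoidHom) n' π' →
    IsoT σ (mx (sg F α Q π)) (mx (sg F α (Q.map σ.toMonoidHom) π'))

/-- FAM: the family `S_Q`.

Proof.  For `Q` not in `W` choose `n`, `π` by `PIn.lcq` and put `S Q = mx (sg F α Q π)` (`IA.one` for the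
other `Q`).  `LoqOut` and `TRB` (with `CP (bd F α)` from `PIn.ps`: restrict the frame to the diagonal,
row `PSR` of B4a; `cj F α u = bi F α (u, u)`) give `bq`, `ITW` gives `tw` (if `Q` is not in `W` then
`φ e Q` is not in `W`, by `Ctf.stab` for `e⁻¹`). -/
def FamStmt : Prop :=
  ∀ (F V E A : Type) [Field F] [CommGroup V] [Fintype V] [Group E] [Ring A] [Algebra F A]
    [FiniteDimensional F A] (ℓ : ℕ) [CharP F ℓ] (φ : E →* MulAut V) (W : Subgroup V)
    (α : V →* A), Ctf ℓ φ W → PIn F φ W α → ∃ S : Subgroup V → IA F V, Fam (bd F α) φ W S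

/-! ## 3. Forms, local rings, the last data of `PMid` -/

/-- NDM: the degree of `N` is prime to `ℓ`.

Proof.  `finrank N = n²`, and `finrank N = finrank F = 1` in `F` (row `DIM` of B4a for `cj F N.ι`, `P = ⊤`;
`BQ N one ⊤` gives a model `IsBQ` by `BRK`). -/
def NdmStmt : Prop :=
  ∀ (ℓ : ℕ) [Fact ℓ.Prime] (F V : Type) [Field F] [CharP F ℓ] [CommGroup V] [Finite V]
    (N : IA F V), IsPGroup ℓ V → Mx N → CP N → BQ N (IA.one F V) ⊤ →
    ∃ n : ℕ, 0 < n ∧ (n : F) ≠ 0 ∧ Nonempty (N.A ≃ₐ[F] Matrix (Fin n) (Fin n) F)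

/-- FRT: the form on `N ⊗ X`.

Proof.  `lam' (x ⊗ a) = tr(e x) lam(a)`, `e : N ≃ Mat_n(F)`.  Symmetric and nondegenerate (trace form of
`Mat_n(F)`).  `u ∈ V` has order a power of `ℓ`, so `e(N.ι u) - 1` is nilpotent, `tr e(N.ι u) = n`;
`lam'(∑ u) = n lam(∑ u) ≠ 0`. -/
def FrtStmt : Prop :=
  ∀ (ℓ : ℕ) [Fact ℓ.Prime] (F V : Type) [Field F] [CharP F ℓ] [CommGroup V] [Fintype V]
    (N X : IA F V) (n : ℕ), IsPGroup ℓ V → (n : F) ≠ 0 →
    Nonempty (N.A ≃ₐ[F] Matrix (Fin n) (Fin n) F) → ∀ lam, Frm F X.ι lam →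
    ∃ lam', Frm F (N.tens X).ι lam'

/-- JBK: an idempotent outside of the Brauer kernel is `1` modulo the Brauer kernel.

Proof.  `β : X → F V` multiplicative on `Fx ⊤`; `β j` is an idempotent of the local ring `F V`
(`V` an `ℓ`-group: the augmentation ideal is nil), so it is `0` or `1`; it is not `0` by `BRK`; so
`β (1 - j) = 0`, `1 - j ∈ BK ⊤` by `BRK`. -/
def JbkStmt : Prop :=
  ∀ (ℓ : ℕ) [Fact ℓ.Prime] (F V : Type) [Field F] [CharP F ℓ] [CommGroup V] [Finite V]
    (X : IA F V) (j : X.A), IsPGroup ℓ V → BQ X (IA.gr F V) ⊤ → j ∈ Fx (cj F X.ι) ⊤ →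
    j * j = j → j ∉ BK (cj F X.ι) ⊤ → 1 - j ∈ BK (cj F X.ι) ⊤

/-- FRC: the form on a corner.

Proof.  `lam' = lam ∘ κ`.  Symmetric.  Nondegenerate: if `lam(κ a κ b) = 0` for all `b` then
`lam(κ a x) = lam(j κ a j x) = lam(κ a (j x j)) = 0` for all `x`, so `κ a = 0`.  With `s = ∑ X.ι u`:
`lam(s (1 - j)) = 0` because `s ∑_{x ∈ S} x m x⁻¹ = ∑ x (s m) x⁻¹` has `lam` equal to
`|S| lam(s m) = 0`; so `lam'(∑ Y.ι u) = lam(s j) = lam(s) ≠ 0`. -/
def FrcStmt : Prop :=
  ∀ (ℓ : ℕ) [Fact ℓ.Prime] (F V : Type) [Field F] [CharP F ℓ] [CommGroup V] [Fintype V]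
    (X Y : IA F V) (j : X.A) (κ : Y.A →ₗ[F] X.A), IsPGroup ℓ V → Cor X Y j κ →
    1 - j ∈ BK (cj F X.ι) ⊤ → ∀ lam, Frm F X.ι lam → ∃ lam', Frm F Y.ι lam'

/-- LCR: the centraliser of `V` in the corner of a local idempotent is a local ring.

Proof.  `y ↦ b (κ y)` is a homomorphism of the centraliser of `V` in `Y` to `F` (`Chr.mul`, `b j = 1`), an
element of its kernel is nilpotent (`Loc.nil`, `κ y = j κ(y) j`).  So an element `y` with
`b (κ y) = c ≠ 0` is a unit (`y - c` is nilpotent), and of `y`, `z` with `y + z = 1` one has `b ≠ 0`. -/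
def LcrStmt : Prop :=
  ∀ (F V : Type) [Field F] [CommGroup V] (X Y : IA F V) (b : X.A →ₗ[F] F) (j : X.A)
    (κ : Y.A →ₗ[F] X.A), Chr X b → Loc X b j → Cor X Y j κ → IsLocalRing (Cz F Y.ι ⊤)

/-- SPN: from the split quotients to the last fields of `PMid`.

Proof.  (1) `a ∈ Fx R`, `β a = ∑ c u • u`; then `a - ∑ c u • Y.ι u` is in `Fx R` and in the kernel of `β`,
`BRK`.  (2) `β 1 = 1 ≠ 0`, `BRK`. -/
def SpnStmt : Prop :=
  ∀ (ℓ : ℕ) [Fact ℓ.Prime] (F V : Type) [Field F] [CharP F ℓ] [CommGroup V] [Fintype V]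
    (Y : IA F V) (R : Subgroup V), IsPGroup ℓ V → BQ Y (IA.gr F V) R →
    (∀ a ∈ Fx (cj F Y.ι) R, ∃ c : V → F, a - ∑ u, c u • Y.ι u ∈ BK (cj F Y.ι) R) ∧
    (1 : Y.A) ∉ BK (cj F Y.ι) R

/-! ## 4. Fullness and centres (only for `PmzStmt`) -/

/-- FUL: an idempotent which is `1` modulo the Brauer kernel of `V` is full.

Proof.  Frame `b ω`, `c ω` of `bi F α` over `Ω`, stabilisers `tw (φ e) R`; `c ω x = lam(s ω * x)` with
unique `s ω ∈ A`.  For `v ∈ V`: `b ((1,v) ω) = b ω α(v)⁻¹`, `s ((1,v) ω) = α(v) s ω`.  Let `Z` be the set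
of orbits of `1 × V` on `Ω`, and for `w ∈ Cz F α ⊤` put `T w = ∑_{ω ∈ Z} b ω * w * s ω` (well defined, `w`
commutes with `V`).
(1) `T w` is central: `y b ω = ∑_{ω' ∈ Z} b ω' E(s ω' y b ω)`, `E x = ∑_v lam(α v x) α(v)⁻¹`, and
`∑_{ω ∈ Z} E(x b ω) s ω = ∑_{ω ∈ Ω} lam(x b ω) s ω = x`; `E(..)` commutes with `w` (its values are in the
span of `V`, which commutes with `w`): `y T w = ∑_{ω'} b ω' w ∑_ω E(s ω' y b ω) s ω = T w y`.
(2) For an orbit of `V × V` with stabiliser `tw (φ e) R` the part of `T w` is the relative trace from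
`φ e R` to `V` of `b ω w s ω`: in `BK ⊤` if `R ≠ ⊤`.  If `R = ⊤`: `α(φ e u) b ω = b ω α(u)`,
`α(u) s ω = s ω α(φ e u)`, so for `w = ∑_{x ∈ S} x m x⁻¹`, `m` in the centraliser of `K < V`,
`b ω w s ω = ∑ φ_e(x) (b ω m s ω) φ_e(x)⁻¹ ∈ BK ⊤`.  So `T (BK ⊤) ≤ BK ⊤`.
(3) `T 1 ∉ BK ⊤`.  Let `chi : Cz F α ⊤ → F` be the character `aug ∘ β` (kernel: nilpotent modulo
`BK ⊤`; it is invariant under conjugation by `y_e`).  `E` vanishes on `BK ⊤` and `E(x) = q(x) E(1)` for
`x` in the centraliser with `β x = q(x)`.  For `e = 1`: `1 = ∑ c ω 1 • b ω` over the points fixed by the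
diagonal of `V`, modulo `BK ⊤`, i.e. `1 = ∑_{O} b_O E(s_O)` over the orbits of type `(e, R) = (1, ⊤)`,
so `1 = chi(∑ b_O s_O) chi(E 1)`, `chi(E 1) = lam(∑ α u) ≠ 0`.  For general `e` the same with the
vectors `y_e⁻¹ b ω` and `s ω y_e` (a frame for the twisted action, the orbits of type `(e, ⊤)` become
those of type `(1, ⊤)`): `chi(∑_{O of type (e, ⊤)} b_O s_O) = chi(E 1)⁻¹`.  The types are disjoint for
different `e` (`φ` is injective: `Ctf.free`, `Ctf.nt`).  So `chi(T 1) = |E| chi(E 1)⁻¹ ≠ 0`.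
(4) `1 - j ∈ BK ⊤`: `T j = T 1 - T (1 - j)`, `chi(T j) ≠ 0`; `T j` is central and all central elements
are units or nilpotent (hypothesis); so `T j` is a unit `z` and `1 = ∑ (z⁻¹ b ω) j (s ω)`. -/
def FulStmt : Prop :=
  ∀ (ℓ : ℕ) [Fact ℓ.Prime] (F V E A : Type) [Field F] [CharP F ℓ] [CommGroup V] [Fintype V]
    [Group E] [Fintype E] [Ring A] [Algebra F A] [FiniteDimensional F A] (φ : E →* MulAut V)
    (W : Subgroup V) (α : V →* A) (lam : A →ₗ[F] F) (j : A), Ctf ℓ φ W → Frm F α lam →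
    PS (fun K => ∃ (e : E) (R : Subgroup V), K = tw (φ e).toMonoidHom R) (bi F α) →
    BQ (bd F α) (IA.gr F V) ⊤ →
    (∀ e : E, ∃ y y' : A, y * y' = 1 ∧ y' * y = 1 ∧ ∀ u, y * α u = α (φ e u) * y) →
    (∀ z : A, (∀ a, z * a = a * z) → IsUnit z ∨ IsNilpotent z) →
    j ∈ Fx (cj F α) ⊤ → j * j = j → 1 - j ∈ BK (cj F α) ⊤ →
    (1 : A) ∈ Submodule.span F {x | ∃ a b : A, x = a * j * b}

/-- ZCN: the centre of a full corner.

Proof.  `z ↦ z j` from the centre of `X` to the centre of `j X j`: injective because `z j = 0` gives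
`z a j b = 0` and `1 = ∑ a j b`; surjective: for `c` in the centre of `j X j` and
`1 = ∑_k a_k j b_k` put `z = ∑ a_k c b_k`; then `x z = ∑_{k,l} a_l j b_l x a_k c b_k =
∑ a_l c (j b_l x a_k j) b_k = z x` and `z j = ∑ a_k c b_k j = ∑ a_k j c j b_k j = ..= c`
(`j b_k j` commutes with `c`: insert `j = ∑_l j a_l j b_l j`). -/
def ZcnStmt : Prop :=
  ∀ (F X Y : Type) [Field F] [Ring X] [Algebra F X] [Ring Y] [Algebra F Y] (j : X)
    (κ : Y →ₗ[F] X), Cnr j κ → (1 : X) ∈ Submodule.span F {x | ∃ a b : X, x = a * j * b} →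
    Module.finrank F (Subalgebra.center F Y) = Module.finrank F (Subalgebra.center F X)

/-- ZMX: the centre of `N ⊗ A` for a matrix algebra `N`.

Proof.  (1) `Z(Mat_n(F) ⊗ A) = 1 ⊗ Z(A)` (for example `Subalgebra.centralizer` of tensor products,
`Algebra.IsCentral`, or matrix units, or `ZCN` with `j = e_11 ⊗ 1`).  (2) So if the elements of the centre
of `A` are units or nilpotent the same holds for `N ⊗ A`. -/
def ZmxStmt : Prop :=
  ∀ (F N A : Type) [Field F] [Ring N] [Algebra F N] [Ring A] [Algebra F A] (n : ℕ), 0 < n →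
    Nonempty (N ≃ₐ[F] Matrix (Fin n) (Fin n) F) →
    (∀ z : N ⊗[F] A, (∀ a, z * a = a * z) → ∃ c : A, (∀ a, c * a = a * c) ∧ z = 1 ⊗ₜ[F] c) ∧
    Module.finrank F (Subalgebra.center F (N ⊗[F] A)) = Module.finrank F (Subalgebra.center F A)

end Pool.Agent.PFC.B5c
end
end -- Pool.Agent.PFC.StmtsB5c

section -- Pool.Agent.Helper13_PFC.QLX

/-! Squad PFC, row QLX (helper13): existence of a local idempotent over a character. -/

noncomputable section

namespace Pool.Agent.PFC.H13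

open Pool.Agent.PFC Polynomial

/-- Fitting idempotent: a polynomial without constant term in a non nilpotent element -/
theorem fit {F A : Type} [Field F] [Ring A] [Algebra F A] [FiniteDimensional F A] (x : A)
    (hx : ¬ IsNilpotent x) :
    ∃ p : F[X], (x * aeval x p) * (x * aeval x p) = x * aeval x p ∧ x * aeval x p ≠ 0 := by
  have hint : IsIntegral F x := Algebra.IsIntegral.isIntegral x
  have hμ : minpoly F x ≠ 0 := minpoly.ne_zero hint
  obtain ⟨g, hg, hg0⟩ := Polynomial.exists_eq_pow_rootMultiplicity_mul_and_not_dvd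
    (minpoly F x) hμ 0
  rw [C_0, sub_zero] at hg hg0
  set k := rootMultiplicity 0 (minpoly F x) with hk
  have hco : IsCoprime ((X : F[X]) ^ (k + 1)) g :=
    ((Polynomial.irreducible_X (R := F)).coprime_iff_not_dvd.mpr hg0).pow_left
  obtain ⟨a, c, hac⟩ := hco
  have h0 : aeval x ((X : F[X]) ^ k * g) = 0 := by
    rw [← hg]
    exact minpoly.aeval F x
  have hf : x * aeval x (a * X ^ k) = aeval x (a * X ^ (k + 1)) := by
    have h1 : a * (X : F[X]) ^ (k + 1) = X * (a * X ^ k) := by ring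
    rw [h1, map_mul (aeval x) X, aeval_X]
  refine ⟨a * X ^ k, ?_, ?_⟩
  · rw [hf, ← map_mul]
    have h1 : (a * (X : F[X]) ^ (k + 1)) * (a * X ^ (k + 1)) =
        a * X ^ (k + 1) - (a * X * c) * (X ^ k * g) := by
      linear_combination (a * (X : F[X]) ^ (k + 1)) * hac
    rw [h1, map_sub, map_mul (aeval x) (a * X * c), h0, mul_zero, sub_zero]
  · intro h
    rw [hf] at h
    apply hx
    refine ⟨k, ?_⟩
    have h1 : (X : F[X]) ^ k = X ^ k * (a * X ^ (k + 1)) + c * (X ^ k * g) := by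
      linear_combination -((X : F[X]) ^ k) * hac
    have h2 := congrArg (aeval x) h1
    rw [map_add, map_mul (aeval x) (X ^ k) (a * X ^ (k + 1)), h, mul_zero,
      map_mul (aeval x) c, h0, mul_zero, add_zero, map_pow, aeval_X] at h2
    exact h2

theorem mem_fx {F V : Type} [Field F] [CommGroup V] (X : IA F V) (a : X.A) :
    a ∈ Fx (cj F X.ι) ⊤ ↔ ∀ v, X.ι v * a = a * X.ι v := by
  constructor
  · intro h v
    have h1 : X.ι v * (a * X.ι v⁻¹) = a := h v (Subgroup.mem_top v)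
    calc X.ι v * a = X.ι v * (a * X.ι v⁻¹) * X.ι v := by
          rw [mul_assoc, mul_assoc, ← map_mul, inv_mul_cancel, map_one, mul_one]
      _ = a * X.ι v := by rw [h1]
  · intro h v _
    show X.ι v * (a * X.ι v⁻¹) = a
    rw [← mul_assoc, h v, mul_assoc, ← map_mul, mul_inv_cancel, map_one, mul_one]

theorem qlx : QlxStmt := by
  classical
  intro F V _ _ X b hb
  let Cn : Subalgebra F X.A := Subalgebra.centralizer F (Set.range X.ι)
  have hC : ∀ a, a ∈ Fx (cj F X.ι) ⊤ ↔ a ∈ Cn := by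
    intro a
    rw [mem_fx, Subalgebra.mem_centralizer_iff]
    constructor
    · rintro h _ ⟨v, rfl⟩
      exact h v
    · intro h v
      exact h _ ⟨v, rfl⟩
  let L : X.A → (X.A →ₗ[F] X.A) := fun j => LinearMap.mulLeft F j ∘ₗ LinearMap.mulRight F j
  have hL : ∀ j a, L j a = j * (a * j) := fun j a => rfl
  let D : X.A → ℕ := fun j => Module.finrank F (LinearMap.range (L j))
  have main : ∀ n : ℕ, ∀ j, j ∈ Cn → j * j = j → b j = 1 → D j = n → ∃ j, Loc X b j := by
    intro n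
    induction n using Nat.strong_induction_on with
    | _ n ih =>
      intro j hj hjj hbj hD
      by_cases hnil : ∀ x ∈ Fx (cj F X.ι) ⊤, b (j * x * j) = 0 → IsNilpotent (j * x * j)
      · exact ⟨j, (hC j).mpr hj, hjj, hbj, hnil⟩
      · push Not at hnil
        obtain ⟨y, hy, hby, hyn⟩ := hnil
        set x := j * y * j with hxdef
        have hx : x ∈ Cn := Cn.mul_mem (Cn.mul_mem hj ((hC y).mp hy)) hj
        have hjx : j * x = x := by rw [hxdef, ← mul_assoc, ← mul_assoc, hjj]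
        have hxj : x * j = x := by rw [hxdef, mul_assoc, hjj]
        obtain ⟨p, hp1, hp2⟩ := fit (F := F) x hyn
        have hcom : x * aeval x p = aeval x p * x := by
          have h1 : aeval x (Polynomial.X * p) = aeval x (p * Polynomial.X) := by rw [mul_comm]
          rw [map_mul, map_mul, aeval_X] at h1
          exact h1
        have hpC : aeval x p ∈ Cn := by
          have h1 : aeval x p ∈ Algebra.adjoin F {x} := Polynomial.aeval_mem_adjoin_singleton F x
          exact Algebra.adjoin_le (Set.singleton_subset_iff.mpr hx) h1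
        set f := x * aeval x p with hfdef
        have hfC : f ∈ Cn := Cn.mul_mem hx hpC
        have hjf : j * f = f := by rw [hfdef, ← mul_assoc, hjx]
        have hfj : f * j = f := by rw [hcom, mul_assoc, hxj]
        have hbf : b f = 0 := by
          rw [hfdef, hb.mul x ((hC x).mpr hx) _ ((hC _).mpr hpC), hby, zero_mul]
        have hid : (j - f) * (j - f) = j - f := by
          rw [sub_mul, mul_sub, mul_sub, hjj, hjf, hfj, hp1]
          abel
        refine ih (D (j - f)) ?_ (j - f) (Cn.sub_mem hj hfC) hid ?_ rfl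
        · rw [← hD]
          refine Submodule.finrank_lt_finrank_of_lt ?_
          refine lt_of_le_of_ne ?_ ?_
          · rintro _ ⟨a, rfl⟩
            refine ⟨(j - f) * (a * (j - f)), ?_⟩
            rw [hL, hL]
            have h1 : j * (j - f) = j - f := by rw [mul_sub, hjj, hjf]
            have h2 : (j - f) * j = j - f := by rw [sub_mul, hjj, hfj]
            rw [mul_assoc (j - f), mul_assoc a, h2, ← mul_assoc, h1]
          · intro h
            have h1 : f ∈ LinearMap.range (L j) := ⟨f, by rw [hL, hfj, hjf]⟩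
            rw [← h] at h1
            obtain ⟨a, ha⟩ := h1
            rw [hL] at ha
            apply hp2
            have h2 : f * (j - f) = 0 := by rw [mul_sub, hfj, hp1, sub_self]
            calc f = f * f := hp1.symm
              _ = f * ((j - f) * (a * (j - f))) := by rw [ha]
              _ = 0 := by rw [← mul_assoc, h2, zero_mul]
        · rw [map_sub, hbj, hbf, sub_zero]
  exact main _ 1 Cn.one_mem (mul_one 1) hb.one rfl

end Pool.Agent.PFC.H13
end
end -- Pool.Agent.Helper13_PFC.QLX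

section -- Pool.Agent.Helper13_PFC.QOP

/-! Squad PFC, row QOP (helper13): Brauer quotients of opposite algebras and the trivial cases. -/

noncomputable section

namespace Pool.Agent.PFC.H13

open Pool.Agent.PFC

theorem cj_app {F V A : Type} [Field F] [Group V] [Ring A] [Algebra F A] (α : V →* A) (v : V)
    (a : A) : cj F α v a = α v * (a * α v⁻¹) := rfl

/-- transport of a split Brauer quotient along isomorphisms of representations -/
theorem brs_congr {F V M N M2 N2 : Type} [Field F] [Group V] [AddCommGroup M] [Module F M]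
    [AddCommGroup N] [Module F N] [AddCommGroup M2] [Module F M2] [AddCommGroup N2] [Module F N2]
    (ρ : V →* (M →ₗ[F] M)) (ρ' : V →* (N →ₗ[F] N)) (ρ2 : V →* (M2 →ₗ[F] M2))
    (ρ2' : V →* (N2 →ₗ[F] N2)) (Q : Subgroup V) (β : M →ₗ[F] N) (s : N →ₗ[F] M)
    (e : M ≃ₗ[F] M2) (e' : N ≃ₗ[F] N2) (he : ∀ v m, ρ2 v (e m) = e (ρ v m))
    (he' : ∀ v n, ρ2' v (e' n) = e' (ρ' v n)) (h : BrS ρ ρ' Q β s) :
    BrS ρ2 ρ2' Q (e'.toLinearMap ∘ₗ β ∘ₗ e.symm.toLinearMap)
      (e.toLinearMap ∘ₗ s ∘ₗ e'.symm.toLinearMap) := by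
  have hs : ∀ v m, e.symm (ρ2 v m) = ρ v (e.symm m) := by
    intro v m
    obtain ⟨m, rfl⟩ := e.surjective m
    rw [he, LinearEquiv.symm_apply_apply, LinearEquiv.symm_apply_apply]
  have hs' : ∀ v m, e'.symm (ρ2' v m) = ρ' v (e'.symm m) := by
    intro v m
    obtain ⟨m, rfl⟩ := e'.surjective m
    rw [he', LinearEquiv.symm_apply_apply, LinearEquiv.symm_apply_apply]
  refine ⟨?_, ?_, ?_, ?_, ?_⟩
  · intro n
    show e' (β (e.symm (e (s (e'.symm n))))) = n
    rw [LinearEquiv.symm_apply_apply, h.bs, LinearEquiv.apply_symm_apply]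
  · intro v m
    show e' (β (e.symm (ρ2 v m))) = ρ2' v (e' (β (e.symm m)))
    rw [hs, h.eb, he']
  · intro v n
    show e (s (e'.symm (ρ2' v n))) = ρ2 v (e (s (e'.symm n)))
    rw [hs', h.es, he]
  · intro q hq n
    obtain ⟨n, rfl⟩ := e'.surjective n
    rw [he', h.tr q hq]
  · have key : ∀ T ∈ PT ρ Q, e.toLinearMap ∘ₗ T ∘ₗ e.symm.toLinearMap ∈ PT ρ2 Q := by
      intro T hT
      refine Submodule.span_induction ?_ ?_ ?_ ?_ hT
      · rintro T ⟨K, S, f, hK, hS, hf, hT⟩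
        refine Submodule.subset_span
          ⟨K, S, e.toLinearMap ∘ₗ f ∘ₗ e.symm.toLinearMap, hK, hS, ?_, ?_⟩
        · intro k hk m
          show ρ2 k (e (f (e.symm m))) = e (f (e.symm (ρ2 k m)))
          rw [he, hf k hk, hs]
        · intro m
          show e (T (e.symm m)) = ∑ x ∈ S, ρ2 x (e (f (e.symm (ρ2 x⁻¹ m))))
          rw [hT, map_sum]
          refine Finset.sum_congr rfl fun x _ => ?_
          rw [he, hs]
      · rw [LinearMap.zero_comp, LinearMap.comp_zero]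
        exact Submodule.zero_mem _
      · intro T T' _ _ h1 h2
        rw [LinearMap.add_comp, LinearMap.comp_add]
        exact Submodule.add_mem _ h1 h2
      · intro c T _ h1
        rw [LinearMap.smul_comp, LinearMap.comp_smul]
        exact Submodule.smul_mem _ _ h1
    have h1 := key _ h.hg
    have h2 : e.toLinearMap ∘ₗ (LinearMap.id - s ∘ₗ β) ∘ₗ e.symm.toLinearMap =
        LinearMap.id - (e.toLinearMap ∘ₗ s ∘ₗ e'.symm.toLinearMap) ∘ₗ
          (e'.toLinearMap ∘ₗ β ∘ₗ e.symm.toLinearMap) := by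
      refine LinearMap.ext fun m => ?_
      show e (e.symm m - s (β (e.symm m))) = m - e (s (e'.symm (e' (β (e.symm m)))))
      rw [map_sub, LinearEquiv.apply_symm_apply, LinearEquiv.symm_apply_apply]
    rw [h2] at h1
    exact h1

/-- the identity splits the Brauer quotient of a trivial action -/
theorem brs_triv {F V M : Type} [Field F] [Group V] [AddCommGroup M] [Module F M]
    (ρ : V →* (M →ₗ[F] M)) (Q : Subgroup V) (h : ∀ v m, ρ v m = m) :
    BrS ρ ρ Q LinearMap.id LinearMap.id := by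
  refine ⟨fun _ => rfl, fun _ _ => rfl, fun _ _ => rfl, fun q _ n => h q n, ?_⟩
  rw [LinearMap.id_comp, sub_self]
  exact Submodule.zero_mem _

theorem abr_triv {F V : Type} [Field F] [CommGroup V] (X : IA F V) (Q : Subgroup V)
    (h : ∀ v m, cj F X.ι v m = m) : BQ X X Q :=
  ⟨LinearMap.id, LinearMap.id, ⟨brs_triv _ Q h, fun _ _ _ _ => rfl, fun _ => rfl⟩⟩

theorem qop : QopStmt := by
  intro F V _ _ _
  refine ⟨?_, ?_, ?_⟩
  · rintro X Y Q ⟨β, s, h⟩
    have hc : ∀ (Z : IA F V) v (a : Z.A),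
        cj F Z.op.ι v (MulOpposite.op a : Z.Aᵐᵒᵖ) = (MulOpposite.op (cj F Z.ι v a) : Z.Aᵐᵒᵖ) := by
      intro Z v a
      show (MulOpposite.op (Z.ι v⁻¹) * (MulOpposite.op a * MulOpposite.op (Z.ι v⁻¹⁻¹)) : Z.Aᵐᵒᵖ) =
        (MulOpposite.op (Z.ι v * (a * Z.ι v⁻¹)) : Z.Aᵐᵒᵖ)
      rw [inv_inv, ← MulOpposite.op_mul, ← MulOpposite.op_mul, mul_assoc]
    let eX : X.A ≃ₗ[F] X.op.A := MulOpposite.opLinearEquiv F
    let eY : Y.A ≃ₗ[F] Y.op.A := MulOpposite.opLinearEquiv F
    refine ⟨eY.toLinearMap ∘ₗ β ∘ₗ eX.symm.toLinearMap,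
      eX.toLinearMap ∘ₗ s ∘ₗ eY.symm.toLinearMap, ⟨?_, ?_, ?_⟩⟩
    · exact brs_congr (cj F X.ι) (cj F Y.ι) (cj F X.op.ι) (cj F Y.op.ι) Q β s eX eY
        (fun v m => hc X v m) (fun v n => hc Y v n) h.toBrS
    · have hfx : ∀ a : X.A, eX a ∈ Fx (cj F X.op.ι) Q → a ∈ Fx (cj F X.ι) Q := by
        intro a ha v hv
        have h1 := ha v hv
        have h2 : eX (cj F X.ι v a) = eX a := (hc X v a).symm.trans h1
        exact eX.injective h2
      intro a ha b hb
      obtain ⟨a, rfl⟩ := eX.surjective a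
      obtain ⟨b, rfl⟩ := eX.surjective b
      show MulOpposite.op (β (b * a)) = MulOpposite.op (β a) * MulOpposite.op (β b)
      rw [h.mul b (hfx b hb) a (hfx a ha), MulOpposite.op_mul]
    · intro v
      show MulOpposite.op (β (X.ι v⁻¹)) = MulOpposite.op (Y.ι v⁻¹)
      rw [h.cov]
  · intro Q
    refine abr_triv _ Q fun v m => ?_
    have key : ∀ x : F, (1 : F) * (x * 1) = x := fun x => by rw [one_mul, mul_one]
    exact key m
  · intro Q
    refine abr_triv _ Q fun v m => ?_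
    have key : ∀ x : MonoidAlgebra F V,
        MonoidAlgebra.of F V v * (x * MonoidAlgebra.of F V v⁻¹) = x := by
      intro x
      rw [mul_comm x, ← mul_assoc, ← map_mul, mul_inv_cancel, map_one, one_mul]
    exact key m

end Pool.Agent.PFC.H13
end
end -- Pool.Agent.Helper13_PFC.QOP

section -- Pool.Agent.Helper15_PFC.BRK

/-!
Squad PFC, block B5c, row BRK (helper15): the kernel of a split Brauer quotient on the fixed vectors
is the Brauer kernel.
-/

set_option autoImplicit false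

noncomputable section

namespace Pool.Agent.PFC.B5c.H15

open scoped BigOperators

/-- the size of a transversal of a proper subgroup is divisible by `ℓ` -/
private theorem dvd_card {H : Type} [Group H] [Finite H] (ℓ : ℕ) [Fact ℓ.Prime]
    (P' P : Subgroup H) (hlt : P' < P) (hP : IsPGroup ℓ P) (S : Finset H) (hS : IsTv P' P S) :
    ℓ ∣ S.card := by
  have hc := card_tv P' P hlt.le S hS
  obtain ⟨k, hk⟩ := (IsPGroup.iff_card).1 hP
  have hdiv : S.card ∣ ℓ ^ k := ⟨_, by rw [← hk]; exact hc.symm⟩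
  obtain ⟨j, -, hj⟩ := (Nat.dvd_prime_pow (Fact.out : ℓ.Prime)).1 hdiv
  rcases Nat.eq_zero_or_pos j with h0 | h0
  · exfalso
    rw [h0, pow_zero] at hj
    rw [hj, one_mul] at hc
    exact hlt.ne (Subgroup.eq_of_le_of_card_ge hlt.le hc.ge)
  · rw [hj]
    exact dvd_pow_self ℓ h0.ne'

/-- BRK. -/
theorem brk : BrkStmt := by
  intro ℓ _ F V M N _ _ _ _ _ _ _ _ ρ ρ' Q β s hV hB m hm
  constructor
  · intro h0
    have key : ∀ T ∈ PT ρ Q, T m ∈ BK ρ Q := by
      intro T hT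
      unfold PT at hT
      induction hT using Submodule.span_induction with
      | mem T hT =>
        obtain ⟨K, S, h, hK, hS, hh, hT⟩ := hT
        refine Submodule.subset_span ⟨K, S, h m, hK, hS, ?_, ?_⟩
        · intro k hk
          rw [hh k hk, hm k (hK.le hk)]
        · rw [hT m]
          refine Finset.sum_congr rfl fun x hx => ?_
          rw [hm x⁻¹ (Q.inv_mem (hS.1 x hx))]
      | zero => exact Submodule.zero_mem _
      | add a b _ _ ha hb => exact Submodule.add_mem _ ha hb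
      | smul r a _ ha => exact Submodule.smul_mem _ _ ha
    have h1 := key _ hB.hg
    rw [LinearMap.sub_apply, LinearMap.id_apply, LinearMap.comp_apply, h0, map_zero,
      sub_zero] at h1
    exact h1
  · intro h
    clear hm
    unfold BK at h
    induction h using Submodule.span_induction with
    | mem n hn =>
      obtain ⟨K, S, x, hK, hS, hx, rfl⟩ := hn
      have h1 : ∀ y ∈ S, β (ρ y x) = β x := by
        intro y hy
        rw [hB.eb, hB.tr y (hS.1 y hy)]
      rw [map_sum, Finset.sum_congr rfl h1, Finset.sum_const]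
      obtain ⟨d, hd⟩ := dvd_card ℓ K Q hK (hV.to_subgroup Q) S hS
      rw [hd, ← Nat.cast_smul_eq_nsmul F, Nat.cast_mul, CharP.cast_eq_zero, zero_mul, zero_smul]
    | zero => exact map_zero _
    | add a b _ _ ha hb => rw [map_add, ha, hb, add_zero]
    | smul r a _ ha => rw [map_smul, ha, smul_zero]

end Pool.Agent.PFC.B5c.H15
end
end -- Pool.Agent.Helper15_PFC.BRK

section -- Pool.Agent.Helper18_PFC.QKE

/-!
Squad PFC, block B4b, row QKE (helper18): kernel and image of a split Brauer quotient on the fixed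
vectors.
-/

set_option autoImplicit false

noncomputable section

namespace Pool.Agent.PFC.H18

open scoped BigOperators

/-- QKE. -/
theorem qke : QkeStmt := by
  intro ℓ _ F V M N _ _ _ _ _ _ _ _ ρ ρ' Q β s hV hB
  refine ⟨?_, ?_, ?_⟩
  · intro n q hq
    rw [← hB.es, hB.tr q hq]
  · exact B5c.H15.brk ℓ F V M N ρ ρ' Q β s hV hB
  · intro m hm
    have key : ∀ T ∈ PT ρ Q, T m ∈ BK ρ Q := by
      intro T hT
      unfold PT at hT
      induction hT using Submodule.span_induction with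
      | mem T hT =>
        obtain ⟨K, S, h, hK, hS, hh, hT⟩ := hT
        refine Submodule.subset_span ⟨K, S, h m, hK, hS, ?_, ?_⟩
        · intro k hk
          rw [hh k hk, hm k (hK.le hk)]
        · rw [hT m]
          refine Finset.sum_congr rfl fun x hx => ?_
          rw [hm x⁻¹ (Q.inv_mem (hS.1 x hx))]
      | zero => exact Submodule.zero_mem _
      | add a b _ _ ha hb => exact Submodule.add_mem _ ha hb
      | smul r a _ ha => exact Submodule.smul_mem _ _ ha
    exact key _ hB.hg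

end Pool.Agent.PFC.H18
end
end -- Pool.Agent.Helper18_PFC.QKE

section -- Pool.Agent.Helper24_PFC.QLU

/-!
# Squad PFC, block B4b, row QLU
-/

open scoped BigOperators TensorProduct

noncomputable section

namespace Pool.Agent.PFC.H24

open Pool.Agent.PFC

section ring

variable {R : Type} [Ring R]

theorem pow_mul_swap (a b : R) (k : ℕ) : (a * b) ^ (k + 1) = a * (b * a) ^ k * b := by
  induction k with
  | zero => rw [zero_add, pow_one, pow_zero, mul_one]
  | succ k ih =>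
    rw [pow_succ, ih, pow_succ]
    simp only [mul_assoc]

theorem nilp_swap {a b : R} (h : IsNilpotent (b * a)) : IsNilpotent (a * b) := by
  obtain ⟨k, hk⟩ := h
  exact ⟨k + 1, by rw [pow_mul_swap, hk, mul_zero, zero_mul]⟩

theorem prod_aux (e f g h : R) (he : e * e = e) (hg : g * g = g) (hf : f * f = f)
    (hh : h * h = h) (hfh : f * h = 0) (hhf : h * f = 0) (h1 : e + g = 1) (h2 : f + h = 1) :
    (e * f + g * h) * (f * e + h * g) = 1 - (e * h * e + g * f * g) := by
  have e1 : (e * f + g * h) * (f * e + h * g) =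
      e * (f * f) * e + e * (f * h) * g + g * (h * f) * e + g * (h * h) * g := by
    noncomm_ring
  have e2 : e * (f + h) * e + g * (f + h) * g = 1 := by
    rw [h2, mul_one, mul_one, he, hg, h1]
  rw [e1, hf, hh, hfh, hhf, ← e2]
  noncomm_ring

/-- the units which conjugate two idempotents with nilpotent differences in the corners -/
theorem unit_aux (e f : R) (he : e * e = e) (hf : f * f = f)
    (n1 : IsNilpotent (e * (1 - f) * e)) (n2 : IsNilpotent (f * (1 - e) * f)) :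
    IsUnit ((1 - (e * (1 - f) * e + (1 - e) * f * (1 - e)) : R)) := by
  have hg : (1 - e) * (1 - e) = 1 - e := by
    rw [mul_sub, mul_one, sub_mul, one_mul, he, sub_self, sub_zero]
  have hge : (1 - e) * e = 0 := by rw [sub_mul, one_mul, he, sub_self]
  have heg : e * (1 - e) = 0 := by rw [mul_sub, mul_one, he, sub_self]
  have n3 : IsNilpotent ((1 - e) * f * (1 - e)) := by
    have h1 : (1 - e) * f * (1 - e) = ((1 - e) * f) * (f * (1 - e)) := by
      rw [mul_assoc ((1 - e)) f (f * (1 - e)), ← mul_assoc f f, hf, mul_assoc]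
    rw [h1]
    apply nilp_swap
    have h2 : f * (1 - e) * ((1 - e) * f) = f * (1 - e) * f := by
      rw [mul_assoc, ← mul_assoc (1 - e) (1 - e) f, hg, mul_assoc]
    rw [h2]
    exact n2
  have c1 : e * (1 - f) * e * ((1 - e) * f * (1 - e)) = 0 := by
    rw [mul_assoc (e * (1 - f)) e, ← mul_assoc e, ← mul_assoc e, heg, zero_mul, zero_mul, mul_zero]
  have c2 : (1 - e) * f * (1 - e) * (e * (1 - f) * e) = 0 := by
    rw [mul_assoc ((1 - e) * f) (1 - e), ← mul_assoc (1 - e), ← mul_assoc (1 - e), hge, zero_mul,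
      zero_mul, mul_zero]
  have hc : Commute (e * (1 - f) * e) ((1 - e) * f * (1 - e)) := by
    rw [commute_iff_eq, c1, c2]
  exact (hc.isNilpotent_add n1 n3).isUnit_one_sub

theorem conj_aux (e f : R) (he : e * e = e) (hf : f * f = f)
    (n1 : IsNilpotent (e * (1 - f) * e)) (n2 : IsNilpotent (f * (1 - e) * f)) :
    IsUnit (f * e + (1 - f) * (1 - e)) := by
  have hg : (1 - e) * (1 - e) = 1 - e := by
    rw [mul_sub, mul_one, sub_mul, one_mul, he, sub_self, sub_zero]
  have hh : (1 - f) * (1 - f) = 1 - f := by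
    rw [mul_sub, mul_one, sub_mul, one_mul, hf, sub_self, sub_zero]
  have hge : (1 - e) * e = 0 := by rw [sub_mul, one_mul, he, sub_self]
  have heg : e * (1 - e) = 0 := by rw [mul_sub, mul_one, he, sub_self]
  have hhf : (1 - f) * f = 0 := by rw [sub_mul, one_mul, hf, sub_self]
  have hfh : f * (1 - f) = 0 := by rw [mul_sub, mul_one, hf, sub_self]
  have u1 : IsUnit ((e * f + (1 - e) * (1 - f)) * (f * e + (1 - f) * (1 - e))) := by
    rw [prod_aux e f (1 - e) (1 - f) he hg hf hh hfh hhf (add_sub_cancel e 1)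
      (add_sub_cancel f 1)]
    exact unit_aux e f he hf n1 n2
  have u2 : IsUnit ((f * e + (1 - f) * (1 - e)) * (e * f + (1 - e) * (1 - f))) := by
    rw [prod_aux f e (1 - f) (1 - e) hf hh he hg heg hge (add_sub_cancel f 1)
      (add_sub_cancel e 1)]
    exact unit_aux f e hf he n2 n1
  obtain ⟨a, ha⟩ := u1
  obtain ⟨c, hc⟩ := u2
  set u := f * e + (1 - f) * (1 - e) with hu
  set v := e * f + (1 - e) * (1 - f) with hv
  have l1 : ((a⁻¹ : Rˣ) : R) * v * u = 1 := by
    rw [mul_assoc, ← ha, Units.inv_mul]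
  have r1 : u * (v * ((c⁻¹ : Rˣ) : R)) = 1 := by
    rw [← mul_assoc, ← hc, Units.mul_inv]
  have l2 : v * ((c⁻¹ : Rˣ) : R) * u = 1 := by
    rw [← left_inv_eq_right_inv l1 r1]; exact l1
  exact ⟨⟨u, v * ((c⁻¹ : Rˣ) : R), r1, l2⟩, rfl⟩

end ring

theorem qlu : QluStmt := by
  intro F V _ _ X b j j' hb hj hj'
  have hone : (1 : X.A) ∈ Fx (cj F X.ι) ⊤ := by
    intro v _
    change X.ι v * (1 * X.ι v⁻¹) = 1
    rw [one_mul, ← map_mul, mul_inv_cancel, map_one]
  have hcomm : ∀ x ∈ Fx (cj F X.ι) ⊤, ∀ v, X.ι v * x = x * X.ι v := by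
    intro x hx v
    have h := hx v (Subgroup.mem_top v)
    change X.ι v * (x * X.ι v⁻¹) = x at h
    calc X.ι v * x = X.ι v * (x * X.ι v⁻¹) * X.ι v := by
          rw [mul_assoc, mul_assoc, ← map_mul, inv_mul_cancel, map_one, mul_one]
      _ = x * X.ι v := by rw [h]
  have hmulF : ∀ x ∈ Fx (cj F X.ι) ⊤, ∀ y ∈ Fx (cj F X.ι) ⊤, x * y ∈ Fx (cj F X.ι) ⊤ := by
    intro x hx y hy v _
    change X.ι v * (x * y * X.ι v⁻¹) = x * y
    rw [mul_assoc x y, ← hcomm y hy v⁻¹, ← mul_assoc, ← mul_assoc, hcomm x hx v, mul_assoc x,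
      ← map_mul, mul_inv_cancel, map_one, mul_one]
  have hsub : ∀ x ∈ Fx (cj F X.ι) ⊤, 1 - x ∈ Fx (cj F X.ι) ⊤ := fun x hx =>
    Submodule.sub_mem _ hone hx
  have hn : ∀ i i' : X.A, Loc X b i → Loc X b i' → IsNilpotent (i * (1 - i') * i) := by
    intro i i' h h'
    refine h.nil _ (hsub _ h'.fx) ?_
    have h1 : b (1 - i') = 0 := by rw [map_sub, hb.one, h'.bj, sub_self]
    rw [hb.mul _ (hmulF _ h.fx _ (hsub _ h'.fx)) _ h.fx, hb.mul _ h.fx _ (hsub _ h'.fx), h1,
      mul_zero, zero_mul]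
  obtain ⟨u, hu⟩ := conj_aux j j' hj.id hj'.id (hn j j' hj hj') (hn j' j hj' hj)
  refine ⟨u, fun v => ?_, ?_⟩
  · have : j' * j + (1 - j') * (1 - j) ∈ Fx (cj F X.ι) ⊤ :=
      Submodule.add_mem _ (hmulF _ hj'.fx _ hj.fx)
        (hmulF _ (hsub _ hj'.fx) _ (hsub _ hj.fx))
    rw [hu, hcomm _ this v]
  · rw [hu, add_mul, mul_add, mul_assoc, hj.id, mul_assoc (1 - j'), sub_mul 1 j j, one_mul, hj.id,
      sub_self, mul_zero, ← mul_assoc j' j' j, hj'.id, ← mul_assoc j' (1 - j'), mul_sub j' 1 j',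
      mul_one, hj'.id, sub_self, zero_mul]

end Pool.Agent.PFC.H24
end
end -- Pool.Agent.Helper24_PFC.QLU

section -- Pool.Agent.Helper30_PFC.TPB

/-! Squad PFC, row TPB: the split Brauer quotient at V is the group algebra of V. -/

open scoped BigOperators TensorProduct

noncomputable section

namespace Pool.Agent.PFC.B5c.H30

open Pool.Agent.PFC.B5a (zin BkiStmt)

theorem lsum {F V A : Type} [Field F] [CommGroup V] [Fintype V] [Ring A] [Algebra F A]
    (α : V →* A) (x : MonoidAlgebra F V) :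
    MonoidAlgebra.lift F A V α x = ∑ u, x.coeff u • α u := by
  rw [MonoidAlgebra.lift_apply]
  rw [Finsupp.sum_fintype]
  intro u
  exact zero_smul _ _

theorem tpb (hbki : BkiStmt) (htrb : TrbStmt) : TpbStmt := by
  intro ℓ hℓ F V _ _ _ _ X hV hcp htp
  obtain ⟨h1, h2, h3⟩ := hbki F V X.A X.ι ⊤
  let f : MonoidAlgebra F V →ₐ[F] X.A := MonoidAlgebra.lift F X.A V X.ι
  have hf : ∀ x, f x = ∑ u, x.coeff u • X.ι u := fun x => lsum X.ι x
  have hfC : ∀ x, f x ∈ Cz F X.ι ⊤ := by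
    intro x
    rw [hf]
    refine Subalgebra.sum_mem _ fun u _ => Subalgebra.smul_mem _ ?_ _
    exact (zin F X.ι ⊤ u).2
  have hex : ∀ a : Cz F X.ι ⊤, ∃ x : MonoidAlgebra F V, (a : X.A) - f x ∈ BK (cj F X.ι) ⊤ := by
    intro a
    obtain ⟨c, hc⟩ := htp.span a ((h1 a).2 a.2)
    refine ⟨MonoidAlgebra.ofCoeff (Finsupp.equivFunOnFinite.symm c), ?_⟩
    rw [hf]
    exact hc
  choose g hg using hex
  have huq : ∀ (a : Cz F X.ι ⊤) (x : MonoidAlgebra F V), (a : X.A) - f x ∈ BK (cj F X.ι) ⊤ →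
      g a = x := by
    intro a x hx
    have h4 : f (x - g a) ∈ BK (cj F X.ι) ⊤ := by
      have h5 := Submodule.sub_mem _ (hg a) hx
      rw [map_sub]
      have h6 : (a : X.A) - f (g a) - ((a : X.A) - f x) = f x - f (g a) := by abel
      rwa [h6] at h5
    rw [hf] at h4
    have h5 := htp.free _ h4
    have h6 : x - g a = 0 := by
      ext u
      exact congrFun h5 u
    exact (sub_eq_zero.1 h6).symm
  let q : Cz F X.ι ⊤ →ₐ[F] MonoidAlgebra F V :=
    { toFun := g
      map_one' := by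
        apply huq
        rw [map_one]
        simp
      map_zero' := by
        apply huq
        rw [map_zero]
        simp
      map_add' := by
        intro a b
        apply huq
        rw [map_add]
        have h6 : ((a + b : Cz F X.ι ⊤) : X.A) - (f (g a) + f (g b)) =
            ((a : X.A) - f (g a)) + ((b : X.A) - f (g b)) := by
          rw [Subalgebra.coe_add]
          abel
        rw [h6]
        exact Submodule.add_mem _ (hg a) (hg b)
      map_mul' := by
        intro a b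
        apply huq
        rw [map_mul]
        have h6 : ((a * b : Cz F X.ι ⊤) : X.A) - (f (g a) * f (g b)) =
            ((a : X.A) - f (g a)) * b + f (g a) * ((b : X.A) - f (g b)) := by
          rw [Subalgebra.coe_mul, sub_mul, mul_sub]
          abel
        rw [h6]
        exact Submodule.add_mem _ (h3 _ b.2 _ (hg a)).2 (h3 _ (hfC _) _ (hg b)).1
      commutes' := by
        intro r
        apply huq
        rw [f.commutes]
        simp }
  refine htrb ℓ F V X (IA.gr F V) ⊤ q hV hcp ?_ ?_ ?_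
  · intro x
    refine ⟨⟨f x, hfC x⟩, ?_⟩
    change g _ = x
    apply huq
    rw [sub_self]
    exact Submodule.zero_mem _
  · intro a
    change g a = 0 ↔ _
    constructor
    · intro h
      have h4 := hg a
      rw [h, map_zero, sub_zero] at h4
      exact h4
    · intro h
      apply huq
      rw [map_zero, sub_zero]
      exact h
  · intro u
    change g _ = _
    apply huq
    have h5 : f ((IA.gr F V).ι u) = X.ι u := by
      change MonoidAlgebra.lift F X.A V X.ι (MonoidAlgebra.of F V u) = _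
      rw [MonoidAlgebra.lift_of]
    rw [h5]
    have h6 : ((zin F X.ι ⊤ u : Cz F X.ι ⊤) : X.A) = X.ι u := rfl
    rw [h6, sub_self]
    exact Submodule.zero_mem _

end Pool.Agent.PFC.B5c.H30
end
end -- Pool.Agent.Helper30_PFC.TPB

section -- Pool.Agent.Helper33_PFC.NDM

/-!
# Squad PFC, row NDM: the degree of `N` is prime to `ℓ`
-/

open scoped BigOperators TensorProduct

noncomputable section

namespace Pool.Agent.PFC.H33

open Pool.Agent.PFC

/-- the number of elements of a transversal of a proper subgroup is zero in characteristic `ℓ` -/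
theorem card_tv_zero (ℓ : ℕ) [Fact ℓ.Prime] {F V : Type} [Field F] [CharP F ℓ] [Group V]
    [Finite V] {K Q : Subgroup V} (hQ : IsPGroup ℓ Q) (hlt : K < Q) {S : Finset V}
    (hS : IsTv K Q S) : (S.card : F) = 0 := by
  have hc := card_tv K Q hlt.le S hS
  obtain ⟨k, hk⟩ := (IsPGroup.iff_card).1 hQ
  have hdiv : S.card ∣ ℓ ^ k := ⟨_, by rw [← hk]; exact hc.symm⟩
  obtain ⟨j, -, hj⟩ := (Nat.dvd_prime_pow (Fact.out : ℓ.Prime)).1 hdiv
  rcases Nat.eq_zero_or_pos j with h0 | h0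
  · exfalso
    rw [h0, pow_zero] at hj
    rw [hj, one_mul] at hc
    exact hlt.ne (Subgroup.eq_of_le_of_card_ge hlt.le hc.ge)
  · rw [hj, Nat.cast_pow, CharP.cast_eq_zero, zero_pow h0.ne']

/-- a relative trace from a proper subgroup has trace zero -/
theorem trace_PT (ℓ : ℕ) [Fact ℓ.Prime] {F V M : Type} [Field F] [CharP F ℓ] [Group V]
    [Finite V] [AddCommGroup M] [Module F M] [FiniteDimensional F M]
    (ρ : V →* (M →ₗ[F] M)) {Q : Subgroup V} (hQ : IsPGroup ℓ Q) (T : M →ₗ[F] M)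
    (hT : T ∈ PT ρ Q) : LinearMap.trace F M T = 0 := by
  unfold PT at hT
  induction hT using Submodule.span_induction with
  | mem T hT =>
    obtain ⟨K, S, h, hlt, hS, -, hTm⟩ := hT
    have h1 : T = ∑ x ∈ S, ρ x * (h * ρ x⁻¹) := by
      apply LinearMap.ext
      intro m
      rw [hTm m, LinearMap.sum_apply]
      rfl
    rw [h1, map_sum]
    have h2 : ∀ x ∈ S, LinearMap.trace F M (ρ x * (h * ρ x⁻¹)) = LinearMap.trace F M h := by
      intro x _
      rw [LinearMap.trace_mul_comm, mul_assoc, ← map_mul, inv_mul_cancel, map_one, mul_one]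
    rw [Finset.sum_congr rfl h2, Finset.sum_const, nsmul_eq_mul, card_tv_zero ℓ hQ hlt hS,
      zero_mul]
  | zero => exact map_zero _
  | add a b _ _ ha hb => rw [map_add, ha, hb, add_zero]
  | smul r a _ ha => rw [map_smul, ha, smul_zero]

/-- the dimensions of a module and of its Brauer quotient agree in characteristic `ℓ` -/
theorem finrank_BrS (ℓ : ℕ) [Fact ℓ.Prime] {F V M N : Type} [Field F] [CharP F ℓ] [Group V]
    [Finite V] [AddCommGroup M] [Module F M] [FiniteDimensional F M]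
    [AddCommGroup N] [Module F N] [FiniteDimensional F N]
    (ρ : V →* (M →ₗ[F] M)) (ρ' : V →* (N →ₗ[F] N)) {Q : Subgroup V} (hQ : IsPGroup ℓ Q)
    {β : M →ₗ[F] N} {s : N →ₗ[F] M} (h : BrS ρ ρ' Q β s) :
    (Module.finrank F M : F) = (Module.finrank F N : F) := by
  have h1 := trace_PT ℓ ρ hQ _ h.hg
  rw [map_sub, LinearMap.trace_id, sub_eq_zero] at h1
  rw [h1, LinearMap.trace_comp_comm']
  have h2 : β ∘ₗ s = LinearMap.id := LinearMap.ext h.bs
  rw [h2, LinearMap.trace_id]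

/-- NDM -/
theorem ndm : B5c.NdmStmt := by
  intro ℓ _ F V _ _ _ _ N hV hN _ hq
  obtain ⟨n, hn, ⟨e⟩⟩ := hN
  obtain ⟨β, s, hb⟩ := hq
  refine ⟨n, hn, ?_, ⟨e⟩⟩
  have h1 := finrank_BrS ℓ _ _ (hV.to_subgroup ⊤) hb.toBrS
  have h2 : Module.finrank F (IA.one F V).A = 1 := Module.finrank_self F
  have h3 : Module.finrank F N.A = n * n := by
    rw [e.toLinearEquiv.finrank_eq, Module.finrank_matrix]
    simp
  rw [h2, h3] at h1
  intro h0
  rw [Nat.cast_mul, h0, zero_mul, Nat.cast_one] at h1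
  exact zero_ne_one h1

end Pool.Agent.PFC.H33
end
end -- Pool.Agent.Helper33_PFC.NDM

section -- Pool.Agent.Helper39_PFC.Qun

/-! Row QUN of block B4b of squad PFC. -/

set_option autoImplicit false

noncomputable section

namespace Pool.Agent.PFC.H39

variable {F V : Type} [Field F] [CommGroup V]

/-- the two Brauer maps have the same values on fixed vectors with the same image -/
theorem qun_key {ℓ : ℕ} [Fact ℓ.Prime] (hQ : QkeStmt) [CharP F ℓ] [Finite V] {X Y Y' : IA F V}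
    {Q : Subgroup V} {β : X.A →ₗ[F] Y.A} {s : Y.A →ₗ[F] X.A} {β' : X.A →ₗ[F] Y'.A}
    {s' : Y'.A →ₗ[F] X.A} (hV : IsPGroup ℓ V) (h : ABr X Y Q β s) (h' : ABr X Y' Q β' s')
    {x : X.A} (hx : x ∈ Fx (cj F X.ι) Q) : β' (s (β x)) = β' x := by
  obtain ⟨h1, h2, h3⟩ := hQ ℓ F V X.A Y.A (cj F X.ι) (cj F Y.ι) Q β s hV h.toBrS
  obtain ⟨h1', h2', h3'⟩ := hQ ℓ F V X.A Y'.A (cj F X.ι) (cj F Y'.ι) Q β' s' hV h'.toBrS
  have h4 : x - s (β x) ∈ Fx (cj F X.ι) Q := Submodule.sub_mem _ hx (h1 _)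
  have h5 := (h2' _ h4).2 (h3 x hx)
  rw [map_sub, sub_eq_zero] at h5
  exact h5.symm

theorem io_fx {X : IA F V} (Q : Subgroup V) (v : V) : X.ι v ∈ Fx (cj F X.ι) Q := by
  intro h _
  show X.ι h * (X.ι v * X.ι h⁻¹) = X.ι v
  rw [← map_mul, ← map_mul, mul_comm v, mul_inv_cancel_left]

/-- QUN -/
theorem qun (hQ : QkeStmt) : QunStmt := by
  intro ℓ _ F V _ _ _ _ X Y Y' Q β s β' s' hV h h'
  obtain ⟨h1, -, -⟩ := hQ ℓ F V X.A Y.A (cj F X.ι) (cj F Y.ι) Q β s hV h.toBrS
  obtain ⟨h1', -, -⟩ := hQ ℓ F V X.A Y'.A (cj F X.ι) (cj F Y'.ι) Q β' s' hV h'.toBrS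
  have one : (1 : X.A) ∈ Fx (cj F X.ι) Q := by
    have := io_fx (X := X) Q 1
    rwa [map_one] at this
  have hβ1 : β 1 = 1 := by
    have := h.cov 1
    rwa [map_one X.ι, map_one Y.ι] at this
  have hβ1' : β' 1 = 1 := by
    have := h'.cov 1
    rwa [map_one X.ι, map_one Y'.ι] at this
  have hmul : ∀ a b : Y.A, β' (s (a * b)) = β' (s a) * β' (s b) := by
    intro a b
    have h5 : s a * s b ∈ Fx (cj F X.ι) Q := by
      intro g hg
      have ha : X.ι g * (s a * X.ι g⁻¹) = s a := h1 a g hg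
      have hb : X.ι g * (s b * X.ι g⁻¹) = s b := h1 b g hg
      show X.ι g * (s a * s b * X.ι g⁻¹) = s a * s b
      conv_rhs => rw [← ha, ← hb]
      have hg1 : X.ι g⁻¹ * X.ι g = 1 := by rw [← map_mul, inv_mul_cancel, map_one]
      have : X.ι g * (s a * X.ι g⁻¹) * (X.ι g * (s b * X.ι g⁻¹)) =
          X.ι g * (s a * ((X.ι g⁻¹ * X.ι g) * (s b * X.ι g⁻¹))) := by
        simp only [mul_assoc]
      rw [this, hg1, one_mul]
      simp only [mul_assoc]
    have h6 := qun_key hQ hV h h' h5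
    rw [h.mul _ (h1 a) _ (h1 b), h.bs, h.bs, h'.mul _ (h1 a) _ (h1 b)] at h6
    exact h6
  let e0 : Y.A →ₐ[F] Y'.A := AlgHom.ofLinearMap (β'.comp s)
    (by
      show β' (s 1) = 1
      have := qun_key hQ hV h h' one
      rwa [hβ1, hβ1'] at this)
    (fun a b => hmul a b)
  have he0 : ∀ a, e0 a = β' (s a) := fun a => rfl
  have hinv1 : ∀ a, β (s' (β' (s a))) = a := by
    intro a
    rw [qun_key hQ hV h' h (h1 a), h.bs]
  have hinv2 : ∀ a, β' (s (β (s' a))) = a := by
    intro a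
    rw [qun_key hQ hV h h' (h1' a), h'.bs]
  refine ⟨AlgEquiv.ofBijective e0 ⟨?_, ?_⟩, ?_, ?_⟩
  · intro a b hab
    rw [he0, he0] at hab
    rw [← hinv1 a, hab, hinv1]
  · intro a
    exact ⟨β (s' a), hinv2 a⟩
  · intro v
    rw [AlgEquiv.ofBijective_apply, he0, ← h.cov v, qun_key hQ hV h h' (io_fx Q v), h'.cov]
  · intro x hx
    rw [AlgEquiv.ofBijective_apply, he0, qun_key hQ hV h h' hx]

end Pool.Agent.PFC.H39
end
end -- Pool.Agent.Helper39_PFC.Qun

section -- Pool.Agent.Helper41_PFC.JBK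

namespace Pool.Agent.PFC.B5c.H41

noncomputable section

theorem pow_FV {ℓ : ℕ} [Fact ℓ.Prime] {F V : Type} [Field F] [CharP F ℓ] [CommGroup V]
    (m : ℕ) (hm : ∀ v : V, v ^ ℓ ^ m = 1) (z : MonoidAlgebra F V) :
    z ^ ℓ ^ m = algebraMap F (MonoidAlgebra F V)
      ((MonoidAlgebra.lift F F V (1 : V →* F) z) ^ ℓ ^ m) := by
  have hch : CharP (MonoidAlgebra F V) ℓ :=
    charP_of_injective_algebraMap (FaithfulSMul.algebraMap_injective F (MonoidAlgebra F V)) ℓ
  induction z using MonoidAlgebra.induction_on with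
  | of v =>
    rw [← map_pow, hm, MonoidAlgebra.lift_of]
    simp
  | add x y hx hy =>
    rw [add_pow_char_pow, map_add, add_pow_char_pow, map_add, hx, hy]
  | smul r x hx =>
    rw [smul_pow, map_smul, smul_eq_mul, mul_pow, map_mul, hx, Algebra.smul_def]

theorem idem_FV {ℓ : ℕ} [Fact ℓ.Prime] {F V : Type} [Field F] [CharP F ℓ] [CommGroup V]
    [Finite V] (hV : IsPGroup ℓ V) (f : MonoidAlgebra F V) (hf : f * f = f) : f = 0 ∨ f = 1 := by
  have hℓ : ℓ.Prime := Fact.out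
  obtain ⟨m, hm⟩ : ∃ m : ℕ, ∀ v : V, v ^ ℓ ^ m = 1 := by
    obtain ⟨m, hm⟩ := (IsPGroup.iff_card).1 hV
    refine ⟨m, fun v => ?_⟩
    rw [← hm]
    exact pow_card_eq_one'
  have hpos : ℓ ^ m ≠ 0 := pow_ne_zero _ hℓ.ne_zero
  have key : ∀ g : MonoidAlgebra F V, g * g = g →
      MonoidAlgebra.lift F F V (1 : V →* F) g = 0 → g = 0 := by
    intro g hg h0
    have h1 := pow_FV m hm g
    obtain ⟨k, hk⟩ := Nat.exists_eq_succ_of_ne_zero hpos
    have hi : IsIdempotentElem g := hg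
    have h2 : g ^ (k + 1) = g := hi.pow_succ_eq k
    rw [h0, zero_pow hpos, map_zero, hk, h2] at h1
    exact h1
  have hε : MonoidAlgebra.lift F F V (1 : V →* F) f * MonoidAlgebra.lift F F V (1 : V →* F) f =
      MonoidAlgebra.lift F F V (1 : V →* F) f := by
    rw [← map_mul, hf]
  have hε' : IsIdempotentElem (MonoidAlgebra.lift F F V (1 : V →* F) f) := hε
  rcases (IsIdempotentElem.iff_eq_zero_or_one.1 hε') with h | h
  · exact Or.inl (key f hf h)
  · right
    have h1 : (1 - f) * (1 - f) = 1 - f := by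
      rw [mul_sub, sub_mul, sub_mul, hf]
      simp
    have h2 := key (1 - f) h1 (by rw [map_sub, map_one, h, sub_self])
    exact (sub_eq_zero.1 h2).symm

theorem jbk (hBrk : BrkStmt) : JbkStmt := by
  intro ℓ _ F V _ _ _ _ X j hV hBQ hj hjj hjn
  obtain ⟨β, s, h⟩ := hBQ
  have hbrk := hBrk ℓ F V X.A (IA.gr F V).A (cj F X.ι) (cj F (IA.gr F V).ι) ⊤ β s hV h.toBrS
  have h1f : (1 : X.A) ∈ Fx (cj F X.ι) ⊤ := by
    intro u _
    show X.ι u * ((1 : X.A) * X.ι u⁻¹) = 1
    rw [one_mul, ← map_mul, mul_inv_cancel, map_one]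
  have hβ1 : β 1 = 1 := by
    have h1 := h.cov 1
    rw [(X.ι).map_one, ((IA.gr F V).ι).map_one] at h1
    exact h1
  have hidem : β j * β j = β j := by
    rw [← h.mul j hj j hj, hjj]
  rcases idem_FV hV (β j) hidem with h0 | h0
  · exact absurd ((hbrk j hj).1 h0) hjn
  · rw [← hbrk (1 - j) (Submodule.sub_mem _ h1f hj), map_sub, hβ1]
    exact sub_eq_zero.2 h0.symm

end

end Pool.Agent.PFC.B5c.H41
end -- Pool.Agent.Helper41_PFC.JBK

section -- Pool.Agent.Helper41_PFC.QAL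

namespace Pool.Agent.PFC.H41

noncomputable section

section

variable {F V A : Type} [Field F] [CommGroup V] [Ring A] [Algebra F A]

theorem cj_ap (α : V →* A) (u : V) (a : A) : cj F α u a = α u * (a * α u⁻¹) := rfl

theorem inv_mul' (α : V →* A) (u : V) : α u⁻¹ * α u = 1 := by
  rw [← map_mul, inv_mul_cancel, map_one]

theorem mem_cj (α : V →* A) (Q : Subgroup V) (a : A) :
    a ∈ Fx (cj F α) Q ↔ ∀ u ∈ Q, α u * a = a * α u := by
  constructor
  · intro h u hu
    have h1 : α u * (a * α u⁻¹) = a := h u hu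
    calc α u * a = α u * (a * (α u⁻¹ * α u)) := by rw [inv_mul', mul_one]
      _ = (α u * (a * α u⁻¹)) * α u := by simp only [mul_assoc]
      _ = _ := by rw [h1]
  · intro h u hu
    rw [cj_ap, ← mul_assoc, h u hu, mul_assoc, ← map_mul, mul_inv_cancel, map_one, mul_one]

theorem mul_Fx (α : V →* A) (Q : Subgroup V) {a b : A} (ha : a ∈ Fx (cj F α) Q)
    (hb : b ∈ Fx (cj F α) Q) : a * b ∈ Fx (cj F α) Q := by
  rw [mem_cj] at ha hb ⊢
  intro u hu
  rw [← mul_assoc, ha u hu, mul_assoc, hb u hu, mul_assoc]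

theorem one_Fx (α : V →* A) (Q : Subgroup V) : (1 : A) ∈ Fx (cj F α) Q := by
  rw [mem_cj]
  intro u _
  rw [mul_one, one_mul]

theorem io_Fx (α : V →* A) (Q : Subgroup V) (v : V) : α v ∈ Fx (cj F α) Q := by
  rw [mem_cj]
  intro u _
  rw [← map_mul, ← map_mul, mul_comm]

theorem mul_BK (α : V →* A) (Q : Subgroup V) {a z : A} (ha : a ∈ Fx (cj F α) Q)
    (hz : z ∈ BK (cj F α) Q) : a * z ∈ BK (cj F α) Q ∧ z * a ∈ BK (cj F α) Q := by
  have ha' := (mem_cj α Q a).1 ha
  unfold BK at hz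
  induction hz using Submodule.span_induction with
  | mem n hn =>
    obtain ⟨P', S, m, hlt, hS, hm, rfl⟩ := hn
    have haP : a ∈ Fx (cj F α) P' := fun h hh => ha h (hlt.le hh)
    constructor
    · refine Submodule.subset_span ⟨P', S, a * m, hlt, hS, mul_Fx α P' haP hm, ?_⟩
      rw [Finset.mul_sum]
      refine Finset.sum_congr rfl ?_
      intro x hx
      rw [cj_ap, cj_ap, ← mul_assoc, ← ha' x (hS.1 x hx)]
      simp only [mul_assoc]
    · refine Submodule.subset_span ⟨P', S, m * a, hlt, hS, mul_Fx α P' hm haP, ?_⟩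
      rw [Finset.sum_mul]
      refine Finset.sum_congr rfl ?_
      intro x hx
      have h1 := ha' x⁻¹ (Q.inv_mem (hS.1 x hx))
      rw [cj_ap, cj_ap, mul_assoc, mul_assoc, h1]
      simp only [mul_assoc]
  | zero =>
    rw [mul_zero, zero_mul]
    exact ⟨Submodule.zero_mem _, Submodule.zero_mem _⟩
  | add x y _ _ hx hy =>
    rw [mul_add, add_mul]
    exact ⟨Submodule.add_mem _ hx.1 hy.1, Submodule.add_mem _ hx.2 hy.2⟩
  | smul r x _ hx =>
    rw [mul_smul_comm, smul_mul_assoc]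
    exact ⟨Submodule.smul_mem _ _ hx.1, Submodule.smul_mem _ _ hx.2⟩

end

theorem qal (hQsb : QsbStmt) (hQke : QkeStmt) : QalStmt := by
  intro ℓ _ F V _ _ _ _ X hV hCP Q
  obtain ⟨N, iN, iM, ρ', β, s, h⟩ := hQsb ℓ F V X.A (cj F X.ι) hV hCP Q
  obtain ⟨hs, hk, hd⟩ := hQke ℓ F V X.A N (cj F X.ι) ρ' Q β s hV h
  -- multiplicativity
  have hmul : ∀ a ∈ Fx (cj F X.ι) Q, ∀ b ∈ Fx (cj F X.ι) Q,
      β (a * b) = β (s (β a) * s (β b)) := by
    intro a ha b hb
    have h1 : a * b - s (β a) * s (β b) ∈ BK (cj F X.ι) Q := by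
      have e1 : a * b - s (β a) * s (β b) = (a - s (β a)) * b + s (β a) * (b - s (β b)) := by
        rw [sub_mul, mul_sub]
        abel
      rw [e1]
      exact Submodule.add_mem _ (mul_BK X.ι Q hb (hd a ha)).2
        (mul_BK X.ι Q (hs (β a)) (hd b hb)).1
    have h2 : a * b - s (β a) * s (β b) ∈ Fx (cj F X.ι) Q :=
      Submodule.sub_mem _ (mul_Fx X.ι Q ha hb) (mul_Fx X.ι Q (hs _) (hs _))
    have h3 := (hk _ h2).2 h1
    rw [map_sub] at h3
    exact sub_eq_zero.1 h3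
  let rg : Ring N :=
    { iN with
      mul := fun n n' => β (s n * s n')
      one := β 1
      zero_mul := by
        intro n
        show β (s 0 * s n) = 0
        rw [map_zero, zero_mul, map_zero]
      mul_zero := by
        intro n
        show β (s n * s 0) = 0
        rw [map_zero, mul_zero, map_zero]
      left_distrib := by
        intro a b c
        show β (s a * s (b + c)) = β (s a * s b) + β (s a * s c)
        rw [map_add, mul_add, map_add]
      right_distrib := by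
        intro a b c
        show β (s (a + b) * s c) = β (s a * s c) + β (s b * s c)
        rw [map_add, add_mul, map_add]
      mul_assoc := by
        intro a b c
        show β (s (β (s a * s b)) * s c) = β (s a * s (β (s b * s c)))
        have h1 := hmul (s a * s b) (mul_Fx X.ι Q (hs a) (hs b)) (s c) (hs c)
        have h2 := hmul (s a) (hs a) (s b * s c) (mul_Fx X.ι Q (hs b) (hs c))
        rw [h.bs] at h1 h2
        rw [← h1, ← h2, mul_assoc]
      one_mul := by
        intro a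
        show β (s (β 1) * s a) = a
        have h1 := hmul 1 (one_Fx X.ι Q) (s a) (hs a)
        rw [h.bs] at h1
        rw [← h1, one_mul, h.bs]
      mul_one := by
        intro a
        show β (s a * s (β 1)) = a
        have h1 := hmul (s a) (hs a) 1 (one_Fx X.ι Q)
        rw [h.bs] at h1
        rw [← h1, mul_one, h.bs] }
  let al : Algebra F N := Algebra.ofModule
    (by
      intro r x y
      show β (s (r • x) * s y) = r • β (s x * s y)
      rw [map_smul, smul_mul_assoc, map_smul])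
    (by
      intro r x y
      show β (s x * s (r • y)) = r • β (s x * s y)
      rw [map_smul, mul_smul_comm, map_smul])
  have hfin : @Module.Finite F N _ _ (@Algebra.toModule F N _ _ al) := by
    have h1 : Module.Finite F N := Module.Finite.of_surjective β (fun n => ⟨s n, h.bs n⟩)
    exact h1
  let Y : IA F V :=
    { A := N
      rg := rg
      al := al
      fi := hfin
      ι :=
        { toFun := fun v => β (X.ι v)
          map_one' := by
            rw [map_one]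
            rfl
          map_mul' := by
            intro u v
            rw [map_mul]
            exact hmul (X.ι u) (io_Fx X.ι Q u) (X.ι v) (io_Fx X.ι Q v) } }
  have hY : ∀ (v : V) (n : N), cj F Y.ι v n = ρ' v n := by
    intro v n
    show β (s (β (X.ι v)) * s (β (s n * s (β (X.ι v⁻¹))))) = ρ' v n
    have h1 := hmul (s n) (hs n) (X.ι v⁻¹) (io_Fx X.ι Q v⁻¹)
    rw [h.bs] at h1
    rw [← h1]
    have h2 := hmul (X.ι v) (io_Fx X.ι Q v) (s n * X.ι v⁻¹)
      (mul_Fx X.ι Q (hs n) (io_Fx X.ι Q v⁻¹))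
    rw [← h2]
    have h3 := h.eb v (s n)
    rw [h.bs] at h3
    exact h3
  refine ⟨Y, { toFun := β, map_add' := β.map_add, map_smul' := β.map_smul },
    { toFun := s, map_add' := s.map_add, map_smul' := s.map_smul }, ⟨⟨?_, ?_, ?_, ?_, ?_⟩, ?_, ?_⟩⟩
  · intro n
    exact h.bs n
  · intro v m
    show β (cj F X.ι v m) = cj F Y.ι v (β m)
    rw [hY, h.eb]
  · intro v n
    show s (cj F Y.ι v n) = cj F X.ι v (s n)
    rw [hY, h.es]
  · intro q hq n
    rw [hY]
    exact h.tr q hq n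
  · exact h.hg
  · intro a ha b hb
    exact hmul a ha b hb
  · intro v
    rfl

end

end Pool.Agent.PFC.H41
end -- Pool.Agent.Helper41_PFC.QAL

section -- Pool.Agent.Helper41_PFC.QZS

open scoped TensorProduct

namespace Pool.Agent.PFC.H41

noncomputable section

theorem tmul_inj {F A B : Type} [Field F] [AddCommGroup A] [Module F A] [AddCommGroup B]
    [Module F B] {a : A} (ha : a ≠ 0) {b : B} (h : a ⊗ₜ[F] b = 0) : b = 0 := by
  obtain ⟨f, hf⟩ := Module.Projective.exists_dual_ne_zero F ha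
  have h1 := congrArg ((TensorProduct.lid F B) ∘ (LinearMap.rTensor B f)) h
  simp only [Function.comp_apply, LinearMap.rTensor_tmul, TensorProduct.lid_tmul, map_zero] at h1
  exact (smul_eq_zero.1 h1).resolve_left hf

theorem qzs (hQlb : QlbStmt) (hQlw : QlwStmt) (hQlu : QluStmt) (hQcb : QcbStmt) : QzsStmt := by
  intro ℓ _ F V _ _ _ _ X X' W R b j κ hV hCP hChr hLoc hCor hBQ hRet hBQW
  obtain ⟨β, s, hABr⟩ := hBQ
  obtain ⟨c, hc, -, hLb⟩ := hQlb ℓ F V X (W.tens (IA.gr F V)) R b j β s hV hCP hChr hLoc hABr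
  obtain ⟨π, hπ2, hπ0, hvπ, hπv, hπa⟩ := hRet
  have hLw := hQlw ℓ F V W c π hV hBQW hc hπ2 hπ0 hvπ hπv hπa
  obtain ⟨u, huv, huj⟩ := hQlu F V (W.tens (IA.gr F V)) c _ (β j) hc hLw hLb
  let e : W.A ⊗[F] MonoidAlgebra F V := π ⊗ₜ[F] (1 : MonoidAlgebra F V)
  let U : W.A ⊗[F] MonoidAlgebra F V := ((u : (W.tens (IA.gr F V)).Aˣ) : (W.tens (IA.gr F V)).A)
  let U' : W.A ⊗[F] MonoidAlgebra F V :=
    ((u⁻¹ : (W.tens (IA.gr F V)).Aˣ) : (W.tens (IA.gr F V)).A)
  let bj : W.A ⊗[F] MonoidAlgebra F V := β j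
  have hUU' : U * U' = 1 := u.mul_inv
  have hU'U : U' * U = 1 := u.inv_mul
  have hUe : U * e = bj * U := huj
  have hbj : bj = U * e * U' := by rw [hUe, mul_assoc, hUU', mul_one]
  have hιv : ∀ v : V, U * (W.ι v ⊗ₜ[F] MonoidAlgebra.of F V v) =
      (W.ι v ⊗ₜ[F] MonoidAlgebra.of F V v) * U := fun v => huv v
  let κy : MonoidAlgebra F V →ₗ[F] (W.A ⊗[F] MonoidAlgebra F V) :=
    (LinearMap.mulLeft F U).comp ((LinearMap.mulRight F U').comp
      (TensorProduct.mk F W.A (MonoidAlgebra F V) π))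
  have hκ : ∀ y : MonoidAlgebra F V, κy y = U * ((π ⊗ₜ[F] y) * U') := fun _ => rfl
  have hκ' : ∀ y : MonoidAlgebra F V, U' * κy y * U = π ⊗ₜ[F] y := by
    intro y
    rw [hκ]
    calc U' * (U * ((π ⊗ₜ[F] y) * U')) * U = (U' * U) * (π ⊗ₜ[F] y) * (U' * U) := by
          simp only [mul_assoc]
      _ = _ := by rw [hU'U, one_mul, mul_one]
  have hinj : ∀ y y' : MonoidAlgebra F V, κy y = κy y' → y = y' := by
    intro y y' h0
    have h1 : (π ⊗ₜ[F] y : W.A ⊗[F] MonoidAlgebra F V) = π ⊗ₜ[F] y' := by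
      rw [← hκ' y, ← hκ' y', h0]
    have h2 : (π ⊗ₜ[F] (y - y') : W.A ⊗[F] MonoidAlgebra F V) = 0 := by
      rw [TensorProduct.tmul_sub, h1, sub_self]
    exact sub_eq_zero.1 (tmul_inj hπ0 h2)
  have hmul : ∀ y y' : MonoidAlgebra F V, κy (y * y') = κy y * κy y' := by
      intro y y'
      rw [hκ, hκ, hκ]
      have h1 : (π ⊗ₜ[F] (y * y') : W.A ⊗[F] MonoidAlgebra F V) =
          (π ⊗ₜ[F] y) * (π ⊗ₜ[F] y') := by
        rw [Algebra.TensorProduct.tmul_mul_tmul, hπ2]
      rw [h1]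
      calc U * ((π ⊗ₜ[F] y) * (π ⊗ₜ[F] y') * U')
          = U * ((π ⊗ₜ[F] y) * 1 * (π ⊗ₜ[F] y') * U') := by rw [mul_one]
        _ = U * ((π ⊗ₜ[F] y) * (U' * U) * (π ⊗ₜ[F] y') * U') := by rw [hU'U]
        _ = _ := by simp only [mul_assoc]
  have hcor : Cor (W.tens (IA.gr F V)) (IA.gr F V) (β j) κy := by
    refine ⟨?_, ?_, ?_, ?_, ?_, ?_⟩
    · intro y y' h
      exact hinj y y' h
    · intro y y'
      exact hmul y y'
    · show κy 1 = bj
      rw [hκ, hbj, ← mul_assoc]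
    · intro a ha1 ha2
      let a0 : W.A ⊗[F] MonoidAlgebra F V := a
      have h1 : bj * a0 = a0 := ha1
      have h2 : a0 * bj = a0 := ha2
      have h3 : ∀ t : W.A ⊗[F] MonoidAlgebra F V, ∃ y : MonoidAlgebra F V,
          e * t * e = π ⊗ₜ[F] y := by
        intro t
        induction t using TensorProduct.induction_on with
        | zero => exact ⟨0, by rw [mul_zero, zero_mul, TensorProduct.tmul_zero]⟩
        | tmul w y =>
          obtain ⟨r, hr⟩ := hπa w
          refine ⟨r • y, ?_⟩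
          show (π ⊗ₜ[F] (1 : MonoidAlgebra F V)) * (w ⊗ₜ[F] y) *
            (π ⊗ₜ[F] (1 : MonoidAlgebra F V)) = _
          rw [Algebra.TensorProduct.tmul_mul_tmul, Algebra.TensorProduct.tmul_mul_tmul, hr,
            one_mul, mul_one, TensorProduct.smul_tmul]
        | add x y hx hy =>
          obtain ⟨p, hp⟩ := hx
          obtain ⟨q, hq⟩ := hy
          exact ⟨p + q, by rw [mul_add, add_mul, hp, hq, TensorProduct.tmul_add]⟩
      obtain ⟨y, hy⟩ := h3 (U' * a0 * U)
      refine ⟨y, ?_⟩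
      show κy y = a0
      rw [hκ, ← hy]
      calc U * (e * (U' * a0 * U) * e * U')
          = (U * e * U') * a0 * (U * e * U') := by simp only [mul_assoc]
        _ = a0 := by rw [← hbj, h1, h2]
    · intro v
      have h1 := hLb.fx v trivial
      have h2 : (W.tens (IA.gr F V)).ι v * (β j * (W.tens (IA.gr F V)).ι v⁻¹) = β j := h1
      calc (W.tens (IA.gr F V)).ι v * β j
          = (W.tens (IA.gr F V)).ι v * β j * ((W.tens (IA.gr F V)).ι v⁻¹ *
              (W.tens (IA.gr F V)).ι v) := by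
            rw [← ((W.tens (IA.gr F V)).ι).map_mul, inv_mul_cancel,
              ((W.tens (IA.gr F V)).ι).map_one, mul_one]
        _ = ((W.tens (IA.gr F V)).ι v * (β j * (W.tens (IA.gr F V)).ι v⁻¹)) *
              (W.tens (IA.gr F V)).ι v := by simp only [mul_assoc]
        _ = _ := by rw [h2]
    · intro v
      show κy (MonoidAlgebra.of F V v) = (W.ι v ⊗ₜ[F] MonoidAlgebra.of F V v) * bj
      rw [hκ, hbj, ← mul_assoc, ← mul_assoc, ← mul_assoc, ← hιv]
      have h1 : (W.ι v ⊗ₜ[F] MonoidAlgebra.of F V v : W.A ⊗[F] MonoidAlgebra F V) * e =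
          π ⊗ₜ[F] MonoidAlgebra.of F V v := by
        show (W.ι v ⊗ₜ[F] MonoidAlgebra.of F V v) * (π ⊗ₜ[F] (1 : MonoidAlgebra F V)) = _
        rw [Algebra.TensorProduct.tmul_mul_tmul, hvπ, mul_one]
      rw [mul_assoc U _ e, h1]
  obtain ⟨β', s', h', -⟩ := hQcb ℓ F V X (W.tens (IA.gr F V)) X' (IA.gr F V) R β s j κ κy hV
    hABr hCor hcor
  exact ⟨β', s', h'⟩

end

end Pool.Agent.PFC.H41
end -- Pool.Agent.Helper41_PFC.QZS

section -- Pool.Agent.Helper44_PFC.FRT

/-!
# Squad PFC, row FRT: the form on `N ⊗ X`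
-/

set_option autoImplicit false

open scoped BigOperators TensorProduct

noncomputable section

namespace Pool.Agent.PFC.B5c.H44

open Pool.Agent.PFC Pool.Agent.PFC.B5c

section

variable {F A B : Type} [Field F] [Ring A] [Algebra F A] [Ring B] [Algebra F B] {n : ℕ}

/-- `x ⊗ a ↦ tr(e x) lam(a)` -/
def lamT (e : A ≃ₐ[F] Matrix (Fin n) (Fin n) F) (lam : B →ₗ[F] F) : A ⊗[F] B →ₗ[F] F :=
  LinearMap.mul' F F ∘ₗ TensorProduct.map
    ((Matrix.traceLinearMap (Fin n) F F) ∘ₗ e.toLinearMap) lam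

theorem lamT_tmul (e : A ≃ₐ[F] Matrix (Fin n) (Fin n) F) (lam : B →ₗ[F] F) (x : A) (b : B) :
    lamT e lam (x ⊗ₜ[F] b) = (e x).trace * lam b := rfl

theorem lamT_sym (e : A ≃ₐ[F] Matrix (Fin n) (Fin n) F) (lam : B →ₗ[F] F)
    (hs : ∀ a b, lam (a * b) = lam (b * a)) (s t : A ⊗[F] B) :
    lamT e lam (s * t) = lamT e lam (t * s) := by
  induction s using TensorProduct.induction_on with
  | zero => rw [zero_mul, mul_zero]
  | add s s' h h' => rw [add_mul, mul_add, map_add, map_add, h, h']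
  | tmul x a =>
    induction t using TensorProduct.induction_on with
    | zero => rw [zero_mul, mul_zero]
    | add t t' h h' => rw [add_mul, mul_add, map_add, map_add, h, h']
    | tmul y b =>
      rw [Algebra.TensorProduct.tmul_mul_tmul, Algebra.TensorProduct.tmul_mul_tmul, lamT_tmul,
        lamT_tmul, map_mul e x y, map_mul e y x, Matrix.trace_mul_comm, hs]

/-- expansion in the matrix units -/
theorem expand (e : A ≃ₐ[F] Matrix (Fin n) (Fin n) F) (t : A ⊗[F] B) :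
    ∃ a : Fin n → Fin n → B, t = ∑ i, ∑ j, e.symm (Matrix.single i j 1) ⊗ₜ[F] a i j := by
  induction t using TensorProduct.induction_on with
  | zero => exact ⟨fun _ _ => 0, by simp⟩
  | add s t hs ht =>
    obtain ⟨a, ha⟩ := hs
    obtain ⟨b, hb⟩ := ht
    refine ⟨fun i j => a i j + b i j, ?_⟩
    rw [ha, hb, ← Finset.sum_add_distrib]
    apply Finset.sum_congr rfl
    intro i _
    rw [← Finset.sum_add_distrib]
    apply Finset.sum_congr rfl
    intro j _
    rw [TensorProduct.tmul_add]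
  | tmul x b =>
    refine ⟨fun i j => e x i j • b, ?_⟩
    have h1 : x = ∑ i, ∑ j, e x i j • e.symm (Matrix.single i j 1) := by
      apply e.injective
      rw [map_sum]
      conv_lhs => rw [Matrix.matrix_eq_sum_single (e x)]
      apply Finset.sum_congr rfl
      intro i _
      rw [map_sum]
      apply Finset.sum_congr rfl
      intro j _
      rw [map_smul, e.apply_symm_apply, Matrix.smul_single, smul_eq_mul, mul_one]
    conv_lhs => rw [h1]
    rw [TensorProduct.sum_tmul]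
    apply Finset.sum_congr rfl
    intro i _
    rw [TensorProduct.sum_tmul]
    apply Finset.sum_congr rfl
    intro j _
    rw [TensorProduct.smul_tmul]

theorem lamT_nd (e : A ≃ₐ[F] Matrix (Fin n) (Fin n) F) (lam : B →ₗ[F] F)
    (hn : ∀ a, (∀ b, lam (a * b) = 0) → a = 0) (t : A ⊗[F] B)
    (ht : ∀ s, lamT e lam (t * s) = 0) : t = 0 := by
  obtain ⟨a, ha⟩ := expand e t
  have h0 : ∀ k l, a l k = 0 := by
    intro k l
    apply hn
    intro b
    have h1 := ht (e.symm (Matrix.single k l 1) ⊗ₜ[F] b)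
    rw [ha, Finset.sum_mul, map_sum] at h1
    have h2 : ∀ i, lamT e lam ((∑ j, e.symm (Matrix.single i j 1) ⊗ₜ[F] a i j) *
        e.symm (Matrix.single k l 1) ⊗ₜ[F] b) = if i = l then lam (a i k * b) else 0 := by
      intro i
      rw [Finset.sum_mul, map_sum, Finset.sum_eq_single k]
      · rw [Algebra.TensorProduct.tmul_mul_tmul, lamT_tmul, map_mul, e.apply_symm_apply,
          e.apply_symm_apply, Matrix.single_mul_single_same, mul_one]
        by_cases h : i = l
        · subst h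
          rw [if_pos rfl, Matrix.trace_single_eq_same, one_mul]
        · rw [if_neg h, Matrix.trace_single_eq_of_ne _ _ _ h, zero_mul]
      · intro j _ hj
        rw [Algebra.TensorProduct.tmul_mul_tmul, lamT_tmul, map_mul, e.apply_symm_apply,
          e.apply_symm_apply, Matrix.single_mul_single_of_ne _ _ _ _ hj, Matrix.trace_zero,
          zero_mul]
      · intro h
        exact absurd (Finset.mem_univ k) h
    rw [Finset.sum_congr rfl fun i _ => h2 i, Finset.sum_ite_eq' Finset.univ l] at h1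
    rw [if_pos (Finset.mem_univ l)] at h1
    exact h1
  rw [ha]
  apply Finset.sum_eq_zero
  intro i _
  apply Finset.sum_eq_zero
  intro j _
  rw [h0 j i, TensorProduct.tmul_zero]

/-- the trace of a matrix of order a power of the characteristic -/
theorem trace_unip (ℓ : ℕ) [Fact ℓ.Prime] [CharP F ℓ] (hn : (n : F) ≠ 0)
    (m : Matrix (Fin n) (Fin n) F) (k : ℕ) (hm : m ^ ℓ ^ k = 1) : m.trace = (n : F) := by
  have hn0 : n ≠ 0 := by
    rintro rfl
    exact hn (by simp)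
  have : Nonempty (Fin n) := ⟨⟨0, Nat.pos_of_ne_zero hn0⟩⟩
  have h1 : (m - 1) ^ ℓ ^ k = 0 := by
    have : CharP (Matrix (Fin n) (Fin n) F) ℓ := Matrix.charP ℓ
    rw [sub_pow_char_pow_of_commute ℓ k (Commute.one_right m), hm, one_pow, sub_self]
  have h2 : IsNilpotent (m - 1) := ⟨_, h1⟩
  have h3 := Matrix.isNilpotent_trace_of_isNilpotent h2
  have h4 : (m - 1).trace = 0 := h3.eq_zero
  rw [Matrix.trace_sub, Matrix.trace_one, Fintype.card_fin, sub_eq_zero] at h4
  exact h4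

end

theorem frt : FrtStmt := by
  intro ℓ _ F V _ _ _ _ N X n hV hn hN lam hlam
  obtain ⟨e⟩ := hN
  refine ⟨lamT e lam, lamT_sym e lam hlam.sym, lamT_nd e lam hlam.nd, ?_⟩
  have h1 : ∀ u : V, lamT e lam ((N.tens X).ι u) = (n : F) * lam (X.ι u) := by
    intro u
    have h2 : lamT e lam ((N.tens X).ι u) = (e (N.ι u)).trace * lam (X.ι u) := rfl
    rw [h2]
    obtain ⟨k, hk⟩ := hV u
    rw [trace_unip ℓ hn (e (N.ι u)) k (by rw [← map_pow, ← map_pow, hk, map_one, map_one])]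
  have h3 : lamT e lam (∑ u : V, (N.ι u ⊗ₜ[F] X.ι u : N.A ⊗[F] X.A)) =
      (n : F) * lam (∑ u : V, X.ι u) := by
    rw [map_sum, map_sum, Finset.mul_sum]
    exact Finset.sum_congr rfl fun u _ => h1 u
  have h4 : (n : F) * lam (∑ u : V, X.ι u) ≠ 0 := mul_ne_zero hn hlam.nz
  rw [← h3] at h4
  exact h4

end Pool.Agent.PFC.B5c.H44
end
end -- Pool.Agent.Helper44_PFC.FRT

section -- Pool.Agent.Helper44_PFC.QDI

/-!
# Squad PFC, row QDI: dimensions modulo `ℓ`
-/

set_option autoImplicit false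

open scoped BigOperators TensorProduct

noncomputable section

namespace Pool.Agent.PFC.H44

open Pool.Agent.PFC

/-- the trace of a relatively projective endomorphism is zero -/
theorem trace_PT (ℓ : ℕ) [Fact ℓ.Prime] {F V M : Type} [Field F] [CharP F ℓ] [CommGroup V]
    [Finite V] [AddCommGroup M] [Module F M] [Module.Finite F M] (ρ : V →* (M →ₗ[F] M))
    (Q : Subgroup V) (hV : IsPGroup ℓ V) (T : M →ₗ[F] M) (hT : T ∈ PT ρ Q) :
    LinearMap.trace F M T = 0 := by
  have hsub : PT ρ Q ≤ LinearMap.ker (LinearMap.trace F M) := by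
    apply Submodule.span_le.2
    rintro T ⟨K, S, h, hK, hS, -, hT⟩
    rw [SetLike.mem_coe, LinearMap.mem_ker]
    have h1 : T = ∑ x ∈ S, ρ x * (h * ρ x⁻¹) := by
      ext m
      rw [hT m, LinearMap.sum_apply]
      rfl
    rw [h1, map_sum]
    have h2 : ∀ x ∈ S, LinearMap.trace F M (ρ x * (h * ρ x⁻¹)) = LinearMap.trace F M h := by
      intro x _
      rw [LinearMap.trace_mul_comm, mul_assoc, ← map_mul, inv_mul_cancel, map_one, mul_one]
    rw [Finset.sum_congr rfl h2, Finset.sum_const, nsmul_eq_mul]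
    have h3 := card_tv K Q hK.le S hS
    obtain ⟨a, ha⟩ := (hV.to_subgroup K).exists_card_eq
    obtain ⟨b, hb⟩ := (hV.to_subgroup Q).exists_card_eq
    have h4 : (ℓ : ℕ) ∣ S.card := by
      rw [ha, hb] at h3
      have h5 : S.card ∣ ℓ ^ b := ⟨_, h3.symm⟩
      obtain ⟨c, -, hc⟩ := (Nat.dvd_prime_pow (Fact.out : ℓ.Prime)).1 h5
      rcases Nat.eq_zero_or_pos c with h0 | h0
      · exfalso
        rw [h0, pow_zero] at hc
        rw [hc, one_mul] at h3
        have h6 : Nat.card K = Nat.card Q := by rw [ha, hb, h3]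
        have h7 : K = Q := by
          apply SetLike.coe_injective
          apply Set.eq_of_subset_of_ncard_le hK.le
          rw [← Nat.card_coe_set_eq, ← Nat.card_coe_set_eq]
          exact h6.ge
        exact hK.ne h7
      · rw [hc]
        exact dvd_pow_self _ h0.ne'
    rw [(CharP.cast_eq_zero_iff F ℓ S.card).2 h4, zero_mul]
  exact hsub hT

theorem qdi : QdiStmt := by
  intro ℓ _ F V M N _ _ _ _ _ _ _ _ _ _ ρ ρ' Q β s hV h
  have h1 := trace_PT ℓ ρ Q hV _ h.hg
  rw [map_sub, sub_eq_zero, LinearMap.trace_id] at h1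
  have h2 : LinearMap.trace F M (s ∘ₗ β) = LinearMap.trace F N (β ∘ₗ s) :=
    LinearMap.trace_comp_comm' _ _
  have h3 : β ∘ₗ s = LinearMap.id := by
    ext n
    exact h.bs n
  rw [h1, h2, h3, LinearMap.trace_id]

end Pool.Agent.PFC.H44
end
end -- Pool.Agent.Helper44_PFC.QDI

section -- Pool.Agent.Helper48_PFC.QCA

/-!
# Squad PFC, row QCA (block B4b): cancellation of the group algebra
-/

set_option autoImplicit false

open scoped BigOperators TensorProduct

noncomputable section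

namespace Pool.Agent.PFC.H48

/-- augmentation -/
def ep (F V : Type) [Field F] [CommGroup V] : MonoidAlgebra F V →ₐ[F] F :=
  MonoidAlgebra.lift F F V 1

theorem ep_of {F V : Type} [Field F] [CommGroup V] (v : V) :
    ep F V (MonoidAlgebra.of F V v) = 1 := by
  unfold ep
  rw [MonoidAlgebra.lift_of]
  rfl

theorem scal {ℓ : ℕ} [Fact ℓ.Prime] {F : Type} [Field F] [CharP F ℓ] {n k : ℕ} (hn : 0 < n)
    (x : Matrix (Fin n) (Fin n) F) (hx : ∀ y, x * y = y * x) (h : x ^ (ℓ ^ k) = 1) : x = 1 := by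
  obtain ⟨c, hc⟩ : x ∈ Set.range (Matrix.scalar (Fin n)) :=
    Matrix.mem_range_scalar_of_commute_single fun i j _ => (hx _).symm
  have h1 : Matrix.scalar (Fin n) (c ^ (ℓ ^ k)) = 1 := by
    rw [map_pow, hc, h]
  have h2 : c ^ (ℓ ^ k) = 1 := by
    have h3 := congrFun (congrFun h1 ⟨0, hn⟩) ⟨0, hn⟩
    rwa [Matrix.scalar_apply, Matrix.diagonal_apply_eq, Matrix.one_apply_eq] at h3
  have h3 : (c - 1) ^ (ℓ ^ k) = 0 := by
    rw [sub_pow_char_pow, one_pow, h2, sub_self]
  have h4 : c = 1 := sub_eq_zero.1 (pow_eq_zero_iff (pow_ne_zero _ (Fact.out : ℓ.Prime).ne_zero) |>.1 h3)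
  rw [← hc, h4, map_one]

theorem core (ℓ : ℕ) [Fact ℓ.Prime] (F V A A' : Type) [Field F] [CharP F ℓ] [CommGroup V]
    [Finite V] [Ring A] [Algebra F A] [FiniteDimensional F A] [Ring A'] [Algebra F A']
    [FiniteDimensional F A'] (hV : IsPGroup ℓ V) (ι : V →* A) (ι' : V →* A') (n : ℕ) (hn : 0 < n)
    (f : A' ≃ₐ[F] Matrix (Fin n) (Fin n) F)
    (e : A ⊗[F] MonoidAlgebra F V ≃ₐ[F] A' ⊗[F] MonoidAlgebra F V)
    (he : ∀ v, e (ι v ⊗ₜ[F] MonoidAlgebra.of F V v) = ι' v ⊗ₜ[F] MonoidAlgebra.of F V v) :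
    ∃ e' : A ≃ₐ[F] A', ∀ v, e' (ι v) = ι' v := by
  obtain ⟨p, hp⟩ : ∃ p : A' ⊗[F] MonoidAlgebra F V →ₐ[F] A',
      ∀ a x, p (a ⊗ₜ[F] x) = ep F V x • a :=
    ⟨(Algebra.TensorProduct.rid F F A').toAlgHom.comp
      (Algebra.TensorProduct.map (AlgHom.id F A') (ep F V)), fun a x => by
        show Algebra.TensorProduct.rid F F A' ((AlgHom.id F A') a ⊗ₜ[F] ep F V x) = _
        rw [Algebra.TensorProduct.rid_tmul]
        rfl⟩
  have hps : Function.Surjective p := fun a => ⟨a ⊗ₜ[F] 1, by rw [hp, map_one, one_smul]⟩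
  obtain ⟨g, hg⟩ : ∃ g : A ⊗[F] MonoidAlgebra F V →ₐ[F] A', ∀ t, g t = p (e t) :=
    ⟨p.comp e.toAlgHom, fun t => rfl⟩
  have hgs : Function.Surjective g := fun a => by
    obtain ⟨t, ht⟩ := hps a
    obtain ⟨t', ht'⟩ := e.surjective t
    exact ⟨t', by rw [hg, ht', ht]⟩
  have hcen : ∀ (v : V) (t : A ⊗[F] MonoidAlgebra F V),
      (1 ⊗ₜ[F] MonoidAlgebra.of F V v) * t = t * (1 ⊗ₜ[F] MonoidAlgebra.of F V v) := by
    intro v t
    induction t using TensorProduct.induction_on with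
    | zero => rw [mul_zero, zero_mul]
    | tmul a x =>
      rw [Algebra.TensorProduct.tmul_mul_tmul, Algebra.TensorProduct.tmul_mul_tmul, one_mul,
        mul_one, mul_comm]
    | add x y hx hy => rw [mul_add, add_mul, hx, hy]
  have hu : ∀ v : V, g (1 ⊗ₜ[F] MonoidAlgebra.of F V v) = 1 := by
    intro v
    obtain ⟨k, hk⟩ := hV v
    have h1 : g (1 ⊗ₜ[F] MonoidAlgebra.of F V v) ^ (ℓ ^ k) = 1 := by
      rw [← map_pow, Algebra.TensorProduct.tmul_pow, one_pow, ← map_pow, hk, map_one]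
      exact map_one g
    have h2 : f (g (1 ⊗ₜ[F] MonoidAlgebra.of F V v)) = 1 := by
      apply scal (ℓ := ℓ) (k := k) hn
      · intro y
        obtain ⟨t, ht⟩ := hgs (f.symm y)
        have h3 := congrArg f (congrArg g (hcen v t))
        rw [map_mul g, map_mul g, map_mul f, map_mul f, ht, f.apply_symm_apply] at h3
        exact h3
      · rw [← map_pow, h1, map_one]
    apply f.injective
    rw [h2, map_one]
  obtain ⟨g', hg'⟩ : ∃ g' : A →ₐ[F] A', ∀ a, g' a = g (a ⊗ₜ[F] 1) :=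
    ⟨g.comp Algebra.TensorProduct.includeLeft, fun a => rfl⟩
  have hgo : ∀ (a : A) (v : V), g (a ⊗ₜ[F] MonoidAlgebra.of F V v) = g' a := by
    intro a v
    have h1 : a ⊗ₜ[F] MonoidAlgebra.of F V v =
        (a ⊗ₜ[F] 1) * (1 ⊗ₜ[F] MonoidAlgebra.of F V v) := by
      rw [Algebra.TensorProduct.tmul_mul_tmul, mul_one, one_mul]
    rw [h1, map_mul, hu, mul_one, hg']
  have hga : ∀ (a : A) (x : MonoidAlgebra F V), g (a ⊗ₜ[F] x) = ep F V x • g' a := by
    intro a x
    induction x using MonoidAlgebra.induction_on with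
    | of v => rw [hgo, ep_of, one_smul]
    | add x y hx hy => rw [TensorProduct.tmul_add, map_add, hx, hy, map_add, add_smul]
    | smul r x hx => rw [TensorProduct.tmul_smul, map_smul, hx, map_smul, smul_assoc]
  have hs' : Function.Surjective g' := by
    intro y
    obtain ⟨t, ht⟩ := hgs y
    rw [← ht]
    clear ht
    induction t using TensorProduct.induction_on with
    | zero => exact ⟨0, by rw [map_zero, map_zero]⟩
    | tmul a x => exact ⟨ep F V x • a, by rw [map_smul, hga]⟩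
    | add x y hx hy =>
      obtain ⟨a, ha⟩ := hx
      obtain ⟨b, hb⟩ := hy
      exact ⟨a + b, by rw [map_add, map_add, ha, hb]⟩
  have : Fintype V := Fintype.ofFinite V
  have hd : Module.finrank F A = Module.finrank F A' := by
    have h1 := e.toLinearEquiv.finrank_eq
    rw [Module.finrank_tensorProduct, Module.finrank_tensorProduct] at h1
    exact Nat.eq_of_mul_eq_mul_right Module.finrank_pos h1
  have hi : Function.Injective g' :=
    (LinearMap.injective_iff_surjective_of_finrank_eq_finrank (f := g'.toLinearMap) hd).2 hs'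
  refine ⟨AlgEquiv.ofBijective g' ⟨hi, hs'⟩, fun v => ?_⟩
  show g' (ι v) = ι' v
  rw [← hgo (ι v) v, hg, he, hp, ep_of, one_smul]

theorem qca : QcaStmt := by
  intro ℓ _ F V _ _ _ _ S S' hV hM hI
  obtain ⟨n, hn, ⟨f⟩⟩ := hM
  obtain ⟨e, he⟩ := hI
  exact core ℓ F V S.A S'.A hV S.ι S'.ι n hn f e he

end Pool.Agent.PFC.H48
end
end -- Pool.Agent.Helper48_PFC.QCA

section -- Pool.Agent.Helper52_PFC.ZMX

set_option autoImplicit false

open scoped BigOperators TensorProduct

noncomputable section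

namespace Pool.Agent.PFC.H52

open Pool.Agent.PFC.B5c

theorem zmx : ZmxStmt := by
  intro F N A _ _ _ _ _ n hn ⟨e⟩
  have : NeZero n := ⟨hn.ne'⟩
  have hcen : Algebra.IsCentral F N := Algebra.IsCentral.of_algEquiv F _ _ e.symm
  have hnt : Nontrivial N := e.toEquiv.nontrivial
  have hinj : Function.Injective (Algebra.TensorProduct.includeRight : A →ₐ[F] N ⊗[F] A) :=
    Algebra.TensorProduct.includeRight_injective (FaithfulSMul.algebraMap_injective F N)
  have hin : ∀ a : A, (Algebra.TensorProduct.includeRight : A →ₐ[F] N ⊗[F] A) a = 1 ⊗ₜ[F] a :=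
    fun a => rfl
  have key : ∀ z : N ⊗[F] A, (∀ a, z * a = a * z) →
      ∃ c : A, (∀ a, c * a = a * c) ∧ z = 1 ⊗ₜ[F] c := by
    intro z hz
    have h1 : z ∈ Subalgebra.centralizer F
        ((Algebra.TensorProduct.includeLeft : N →ₐ[F] N ⊗[F] A).range : Set (N ⊗[F] A)) := by
      rw [Subalgebra.mem_centralizer_iff]
      intro g _
      exact (hz g).symm
    rw [Subalgebra.centralizer_coe_range_includeLeft_eq_center_tensorProduct] at h1
    obtain ⟨w, rfl⟩ := h1
    have h2 : ∀ w : (Subalgebra.center F N) ⊗[F] A, ∃ c : A,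
        Algebra.TensorProduct.map (Subalgebra.center F N).val (AlgHom.id F A) w = 1 ⊗ₜ[F] c := by
      intro w
      induction w using TensorProduct.induction_on with
      | zero => exact ⟨0, by rw [map_zero, TensorProduct.tmul_zero]⟩
      | tmul b a =>
        obtain ⟨b, hb⟩ := b
        have hb' := hb
        rw [Algebra.IsCentral.center_eq_bot, Algebra.mem_bot] at hb'
        obtain ⟨r, hr⟩ := hb'
        refine ⟨r • a, ?_⟩
        rw [Algebra.TensorProduct.map_tmul]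
        change b ⊗ₜ[F] a = _
        rw [← hr, Algebra.algebraMap_eq_smul_one, TensorProduct.smul_tmul]
      | add x y hx hy =>
        obtain ⟨c, hc⟩ := hx
        obtain ⟨d, hd⟩ := hy
        exact ⟨c + d, by rw [map_add, hc, hd, TensorProduct.tmul_add]⟩
    obtain ⟨c, hc⟩ := h2 w
    have hz' : ∀ a, ((1 : N) ⊗ₜ[F] c) * a = a * ((1 : N) ⊗ₜ[F] c) := by
      intro a
      rw [← hc]
      exact hz a
    refine ⟨c, fun a => ?_, hc⟩
    apply hinj
    have h3 := hz' (1 ⊗ₜ[F] a)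
    rw [Algebra.TensorProduct.tmul_mul_tmul, Algebra.TensorProduct.tmul_mul_tmul, one_mul] at h3
    exact h3
  refine ⟨key, ?_⟩
  let T : Subalgebra.center F A →ₗ[F] Subalgebra.center F (N ⊗[F] A) :=
    { toFun := fun c => ⟨1 ⊗ₜ[F] (c : A), Algebra.TensorProduct.includeRight_map_center_le F N A
        ⟨c, c.2, rfl⟩⟩
      map_add' := fun c d => Subtype.ext (TensorProduct.tmul_add _ _ _)
      map_smul' := fun r c => Subtype.ext (TensorProduct.tmul_smul _ _ _) }
  have hT : Function.Bijective T := by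
    constructor
    · intro c d h
      have h1 := congrArg Subtype.val h
      exact Subtype.ext (hinj h1)
    · rintro ⟨z, hz⟩
      rw [Subalgebra.mem_center_iff] at hz
      obtain ⟨c, hc, hzc⟩ := key z (fun a => (hz a).symm)
      exact ⟨⟨c, Subalgebra.mem_center_iff.mpr fun a => (hc a).symm⟩, Subtype.ext hzc.symm⟩
  exact (LinearEquiv.ofBijective T hT).finrank_eq.symm

end Pool.Agent.PFC.H52
end
end -- Pool.Agent.Helper52_PFC.ZMX

section -- Pool.Agent.Helper76_PFC.ZCN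

/-! Row ZCN of squad PFC: the centre of a full corner. -/

open scoped BigOperators TensorProduct

noncomputable section

namespace Pool.Agent.PFC.B5c.H76

open Pool.Agent.PFC Pool.Agent.PFC.B5c

section

variable {F X Y : Type} [Field F] [Ring X] [Algebra F X] [Ring Y] [Algebra F Y] {j : X}
  {κ : Y →ₗ[F] X}

/-- a finite sum -/
theorem exists_sum (h : (1 : X) ∈ Submodule.span F {x | ∃ a b : X, x = a * j * b}) :
    ∃ (n : ℕ) (a b : Fin n → X), ∑ k, a k * j * b k = 1 := by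
  obtain ⟨n, f, g, hg⟩ := Submodule.mem_span_set'.1 h
  choose a b hab using fun i => (g i).2
  refine ⟨n, fun i => f i • a i, b, ?_⟩
  rw [← hg]
  refine Finset.sum_congr rfl fun i _ => ?_
  rw [hab, smul_mul_assoc, smul_mul_assoc]

theorem zcn_aux (hc : Cnr j κ) (h : (1 : X) ∈ Submodule.span F {x | ∃ a b : X, x = a * j * b}) :
    Nonempty (Subalgebra.center F X ≃ₗ[F] Subalgebra.center F Y) := by
  have hjj : j * j = j := by rw [← hc.one, ← hc.mul, one_mul]
  have hl : ∀ y, j * κ y = κ y := fun y => by rw [← hc.one, ← hc.mul, one_mul]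
  have hr : ∀ y, κ y * j = κ y := fun y => by rw [← hc.one, ← hc.mul, mul_one]
  obtain ⟨n, a, b, hab⟩ := exists_sum h
  have hcen : ∀ z : Subalgebra.center F X, ∀ x, (z : X) * x = x * z := fun z x =>
    (Subalgebra.mem_center_iff.1 z.2 x).symm
  have hex : ∀ z : Subalgebra.center F X, ∃ y : Subalgebra.center F Y, κ y = z * j := by
    intro z
    obtain ⟨y, hy⟩ := hc.ran (z * j) (by rw [← mul_assoc, ← hcen, mul_assoc, hjj])
      (by rw [mul_assoc, hjj])
    refine ⟨⟨y, ?_⟩, hy⟩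
    rw [Subalgebra.mem_center_iff]
    intro w
    apply hc.inj
    rw [hc.mul, hc.mul, hy, ← mul_assoc, ← hcen, mul_assoc, hr, mul_assoc, hl]
  choose φ hφ using hex
  obtain ⟨Φ, hΦ⟩ : ∃ Φ : Subalgebra.center F X →ₗ[F] Subalgebra.center F Y, ∀ z, Φ z = φ z :=
    ⟨{ toFun := φ
       map_add' := fun z w => by
        apply Subtype.ext
        apply hc.inj
        rw [hφ, Subalgebra.coe_add, Subalgebra.coe_add, map_add, hφ, hφ, add_mul]
       map_smul' := fun r z => by
        apply Subtype.ext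
        apply hc.inj
        rw [hφ, Subalgebra.coe_smul, RingHom.id_apply, Subalgebra.coe_smul, map_smul, hφ,
          smul_mul_assoc] }, fun _ => rfl⟩
  refine ⟨LinearEquiv.ofBijective Φ ⟨?_, ?_⟩⟩
  · rw [← LinearMap.ker_eq_bot, LinearMap.ker_eq_bot']
    intro z hz
    have h1 : (z : X) * j = 0 := by
      rw [← hφ, ← hΦ, hz]
      exact map_zero κ
    apply Subtype.ext
    change (z : X) = 0
    rw [← mul_one (z : X), ← hab, Finset.mul_sum]
    refine Finset.sum_eq_zero fun k _ => ?_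
    rw [← mul_assoc, ← mul_assoc, hcen, mul_assoc (a k), h1, mul_zero, zero_mul]
  · intro y
    obtain ⟨c, hcdef⟩ : ∃ c : X, c = κ y := ⟨_, rfl⟩
    have hjc : j * c = c := by rw [hcdef, hl]
    have hcj : c * j = c := by rw [hcdef, hr]
    have hcom : ∀ x, j * x * j * c = c * (j * x * j) := by
      intro x
      obtain ⟨w, hw⟩ := hc.ran (j * x * j) (by rw [← mul_assoc, ← mul_assoc, hjj])
        (by rw [mul_assoc, hjj])
      rw [← hw, hcdef, ← hc.mul, ← hc.mul, Subalgebra.mem_center_iff.1 y.2 w]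
    obtain ⟨z, hz⟩ : ∃ z : X, z = ∑ k, a k * c * b k := ⟨_, rfl⟩
    have hzc : ∀ x, x * z = z * x := by
      intro x
      have h1 : x * z = (∑ l, a l * j * b l) * (x * z) := by rw [hab, one_mul]
      have h2 : z * x = z * x * ∑ k, a k * j * b k := by rw [hab, mul_one]
      rw [h1, h2, hz, Finset.sum_mul, Finset.sum_mul, Finset.sum_mul]
      refine Finset.sum_congr rfl fun l _ => ?_
      rw [Finset.mul_sum, Finset.mul_sum, Finset.mul_sum]
      refine Finset.sum_congr rfl fun k _ => ?_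
      calc a l * j * b l * (x * (a k * c * b k))
          = a l * (j * (b l * x * a k) * (j * c)) * b k := by rw [hjc]; simp only [mul_assoc]
        _ = a l * (j * (b l * x * a k) * j * c) * b k := by simp only [mul_assoc]
        _ = a l * (c * (j * (b l * x * a k) * j)) * b k := by rw [hcom]
        _ = a l * (c * j * (b l * x * a k) * j) * b k := by simp only [mul_assoc]
        _ = a l * (c * (b l * x * a k) * j) * b k := by rw [hcj]
        _ = a l * c * b l * x * (a k * j * b k) := by simp only [mul_assoc]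
    have hzj : z * j = c := by
      have h1 : c = (∑ l, a l * j * b l) * c := by rw [hab, one_mul]
      rw [h1, hz, Finset.sum_mul, Finset.sum_mul]
      refine Finset.sum_congr rfl fun k _ => ?_
      calc a k * c * b k * j = a k * (c * j * b k) * j := by rw [hcj]; simp only [mul_assoc]
        _ = a k * (c * (j * b k * j)) := by simp only [mul_assoc]
        _ = a k * (j * b k * j * c) := by rw [hcom]
        _ = a k * j * b k * (j * c) := by simp only [mul_assoc]
        _ = a k * j * b k * c := by rw [hjc]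
    refine ⟨⟨z, Subalgebra.mem_center_iff.2 hzc⟩, ?_⟩
    rw [hΦ]
    apply Subtype.ext
    apply hc.inj
    rw [hφ, ← hcdef, ← hzj]

end

theorem zcn : ZcnStmt := by
  intro F X Y _ _ _ _ _ j κ hc h
  obtain ⟨e⟩ := zcn_aux hc h
  exact e.finrank_eq.symm

end Pool.Agent.PFC.B5c.H76
end
end -- Pool.Agent.Helper76_PFC.ZCN

section -- Pool.Agent.Helper81_PFC.QLQ

/-!
Squad PFC, row QLQ (helper81): properties of products over signed lists.
-/

set_option autoImplicit false

open scoped BigOperators TensorProduct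

namespace Pool.Agent.PFC.H81

/-- row QLQ -/
theorem qlq (qte : QteStmt) (qop : QopStmt) (qmx : QmxStmt) (qcp : QcpStmt) (qis : QisStmt) :
    QlqStmt := by
  intro ℓ _ F V ι ι' _ _ _ _ S S' f L hV
  obtain ⟨qop1, qop2, -⟩ := qop F V
  obtain ⟨qmx1, qmx2, qmx3⟩ := qmx F V
  obtain ⟨qcp1, qcp2, -, -, -, qcp6, -⟩ := qcp F V
  obtain ⟨-, -, itr, -, -, -, -, iten, iop, -, -, ione, iopone, -, -, tten, top, tone⟩ := qis F V
  refine ⟨?_, ?_, ?_, ?_, ?_⟩
  · intro h
    induction L with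
    | nil => exact qmx3
    | cons p L ih =>
      have h1 := h p (List.mem_cons_self ..)
      have h2 := ih fun p' hp' => h p' (List.mem_cons_of_mem _ hp')
      obtain ⟨Q, _ | _⟩ := p
      · exact qmx1 _ _ (qmx2 _ h1) h2
      · exact qmx1 _ _ h1 h2
  · intro h
    induction L with
    | nil => exact qcp6
    | cons p L ih =>
      have h1 := h p (List.mem_cons_self ..)
      have h2 := ih fun p' hp' => h p' (List.mem_cons_of_mem _ hp')
      obtain ⟨Q, _ | _⟩ := p
      · exact qcp1 _ _ (qcp2 _ h1) h2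
      · exact qcp1 _ _ h1 h2
  · intro Q h
    have hten : ∀ X Y X' Y' : IA F V, BQ X Y Q → BQ X' Y' Q → BQ (X.tens X') (Y.tens Y') Q := by
      rintro X Y X' Y' ⟨β, s, hb⟩ ⟨β', s', hb'⟩
      exact ⟨_, _, qte ℓ F V X Y X' Y' Q β s β' s' hV hb hb'⟩
    induction L with
    | nil => exact qop2 Q
    | cons p L ih =>
      have h1 := h p (List.mem_cons_self ..)
      have h2 := ih fun p' hp' => h p' (List.mem_cons_of_mem _ hp')
      obtain ⟨K, _ | _⟩ := p
      · exact hten _ _ _ _ (qop1 _ _ Q h1) h2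
      · exact hten _ _ _ _ h1 h2
  · intro σ h
    induction L with
    | nil => exact tone σ
    | cons p L ih =>
      have h1 := h p (List.mem_cons_self ..)
      have h2 := ih fun p' hp' => h p' (List.mem_cons_of_mem _ hp')
      obtain ⟨K, _ | _⟩ := p
      · exact tten σ _ _ _ _ (top σ _ _ h1) h2
      · exact tten σ _ _ _ _ h1 h2
  · intro h
    induction L with
    | nil =>
      exact ⟨AlgEquiv.refl, fun v => rfl⟩
    | cons p L ih =>
      have h1 := h p (List.mem_cons_self ..)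
      have h2 := ih fun p' hp' => h p' (List.mem_cons_of_mem _ hp')
      obtain ⟨K, _ | _⟩ := p
      · exact itr _ _ _ (iten _ _ _ _ (itr _ _ _ (iop _ _ h1) iopone) h2) (ione _)
      · exact itr _ _ _ (iten _ _ _ _ h1 h2) (ione _)

end Pool.Agent.PFC.H81
end -- Pool.Agent.Helper81_PFC.QLQ

section -- Pool.Agent.Helper85_PFC.QIS

/-!
# Squad PFC, row QIS: invariance under isomorphism of interior algebras
-/

set_option autoImplicit false

open scoped BigOperators TensorProduct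

noncomputable section

namespace Pool.Agent.PFC.H85Q

open Pool.Agent.PFC

variable {F V : Type} [Field F] [CommGroup V]

theorem cj_apply {A : Type} [Ring A] [Algebra F A] (α : V →* A) (v : V) (a : A) :
    cj F α v a = α v * (a * α v⁻¹) := rfl

theorem iso_refl (X : IA F V) : Iso X X := ⟨AlgEquiv.refl, fun _ => rfl⟩

theorem iso_symm {X Y : IA F V} (h : Iso X Y) : Iso Y X := by
  obtain ⟨e, he⟩ := h
  exact ⟨e.symm, fun v => by rw [← he v, AlgEquiv.symm_apply_apply]⟩

theorem iso_trans {X Y Z : IA F V} (h : Iso X Y) (h' : Iso Y Z) : Iso X Z := by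
  obtain ⟨e, he⟩ := h
  obtain ⟨f, hf⟩ := h'
  exact ⟨e.trans f, fun v => by rw [AlgEquiv.trans_apply, he, hf]⟩

theorem e_cj {X Y : IA F V} (e : X.A ≃ₐ[F] Y.A) (he : ∀ v, e (X.ι v) = Y.ι v) (v : V) (a : X.A) :
    e (cj F X.ι v a) = cj F Y.ι v (e a) := by
  rw [cj_apply, cj_apply, map_mul, map_mul, he, he]

theorem symm_he {X Y : IA F V} (e : X.A ≃ₐ[F] Y.A) (he : ∀ v, e (X.ι v) = Y.ι v) (v : V) :
    e.symm (Y.ι v) = X.ι v := by
  rw [← he v, AlgEquiv.symm_apply_apply]

/-- transport of the projective maps -/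
theorem pt_transport {X Y : IA F V} (e : X.A ≃ₐ[F] Y.A) (he : ∀ v, e (X.ι v) = Y.ι v)
    (Q : Subgroup V) (T : X.A →ₗ[F] X.A) (hT : T ∈ PT (cj F X.ι) Q) :
    (e.toLinearMap ∘ₗ T) ∘ₗ e.symm.toLinearMap ∈ PT (cj F Y.ι) Q := by
  unfold PT at hT
  induction hT using Submodule.span_induction with
  | mem T hT =>
    obtain ⟨K, S, h, hK, hS, hc, hs⟩ := hT
    apply Submodule.subset_span
    refine ⟨K, S, (e.toLinearMap ∘ₗ h) ∘ₗ e.symm.toLinearMap, hK, hS, ?_, ?_⟩
    · intro k hk m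
      have h1 := hc k hk (e.symm m)
      show cj F Y.ι k (e (h (e.symm m))) = e (h (e.symm (cj F Y.ι k m)))
      rw [← e_cj e he, h1, e_cj e.symm (symm_he e he)]
    · intro m
      show e (T (e.symm m)) = ∑ x ∈ S, cj F Y.ι x (e (h (e.symm (cj F Y.ι x⁻¹ m))))
      rw [hs, map_sum]
      refine Finset.sum_congr rfl fun x _ => ?_
      rw [e_cj e he, e_cj e.symm (symm_he e he)]
  | zero =>
    rw [LinearMap.comp_zero, LinearMap.zero_comp]
    exact Submodule.zero_mem _
  | add T T' _ _ hT hT' =>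
    rw [LinearMap.comp_add, LinearMap.add_comp]
    exact Submodule.add_mem _ hT hT'
  | smul a T _ hT =>
    rw [LinearMap.comp_smul, LinearMap.smul_comp]
    exact Submodule.smul_mem _ _ hT

theorem bq_iso {X X' Y Y' : IA F V} {Q : Subgroup V} (h : Iso X X') (h' : Iso Y Y')
    (hB : BQ X Y Q) : BQ X' Y' Q := by
  obtain ⟨e, he⟩ := h
  obtain ⟨f, hf⟩ := h'
  obtain ⟨β, s, hb⟩ := hB
  have he' := symm_he e he
  have hf' := symm_he f hf
  have hfx : ∀ a ∈ Fx (cj F X'.ι) Q, e.symm a ∈ Fx (cj F X.ι) Q := by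
    intro a ha q hq
    rw [← e_cj e.symm he']
    exact congrArg e.symm (ha q hq)
  refine ⟨(f.toLinearMap ∘ₗ β) ∘ₗ e.symm.toLinearMap, (e.toLinearMap ∘ₗ s) ∘ₗ f.symm.toLinearMap,
    ⟨⟨?_, ?_, ?_, ?_, ?_⟩, ?_, ?_⟩⟩
  · intro n
    show f (β (e.symm (e (s (f.symm n))))) = n
    rw [AlgEquiv.symm_apply_apply, hb.bs, AlgEquiv.apply_symm_apply]
  · intro v m
    show f (β (e.symm (cj F X'.ι v m))) = cj F Y'.ι v (f (β (e.symm m)))
    rw [e_cj e.symm he', hb.eb, e_cj f hf]
  · intro v n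
    show e (s (f.symm (cj F Y'.ι v n))) = cj F X'.ι v (e (s (f.symm n)))
    rw [e_cj f.symm hf', hb.es, e_cj e he]
  · intro q hq n
    have h1 := hb.tr q hq (f.symm n)
    have h2 := congrArg f h1
    rwa [e_cj f hf, AlgEquiv.apply_symm_apply] at h2
  · have h1 := pt_transport e he Q _ hb.hg
    have h2 : (e.toLinearMap ∘ₗ (LinearMap.id - s ∘ₗ β)) ∘ₗ e.symm.toLinearMap =
        LinearMap.id - ((e.toLinearMap ∘ₗ s) ∘ₗ f.symm.toLinearMap) ∘ₗ
          ((f.toLinearMap ∘ₗ β) ∘ₗ e.symm.toLinearMap) := by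
      apply LinearMap.ext
      intro m
      show e (e.symm m - s (β (e.symm m))) = m - e (s (f.symm (f (β (e.symm m)))))
      rw [AlgEquiv.symm_apply_apply, map_sub, AlgEquiv.apply_symm_apply]
    rwa [h2] at h1
  · intro a ha b hb'
    show f (β (e.symm (a * b))) = f (β (e.symm a)) * f (β (e.symm b))
    rw [map_mul, hb.mul _ (hfx a ha) _ (hfx b hb'), map_mul]
  · intro v
    show f (β (e.symm (X'.ι v))) = Y'.ι v
    rw [he', hb.cov, hf]

theorem cp_iso {X Y : IA F V} (h : Iso X Y) (hX : CP X) : CP Y := by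
  obtain ⟨e, he⟩ := h
  have he' := symm_he e he
  obtain ⟨Ω, i1, i2, b, c, ⟨h1, h2, h3⟩, h4⟩ := hX
  refine ⟨Ω, i1, i2, fun ω => e (b ω), fun ω => (c ω) ∘ₗ e.symm.toLinearMap, ⟨?_, ?_, ?_⟩, h4⟩
  · intro h ω
    show e (b (h • ω)) = cj F Y.ι h (e (b ω))
    rw [h1, e_cj e he]
  · intro h ω m
    show c (h • ω) (e.symm (cj F Y.ι h m)) = c ω (e.symm m)
    rw [e_cj e.symm he', h2]
  · intro m
    show ∑ ω, c ω (e.symm m) • e (b ω) = m
    have h5 := congrArg e (h3 (e.symm m))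
    rw [map_sum, AlgEquiv.apply_symm_apply] at h5
    rw [← h5]
    refine Finset.sum_congr rfl fun ω _ => ?_
    rw [map_smul, h5]

theorem mx_iso {X Y : IA F V} (h : Iso X Y) (hX : Mx X) : Mx Y := by
  obtain ⟨e, -⟩ := h
  obtain ⟨n, hn, ⟨g⟩⟩ := hX
  exact ⟨n, hn, ⟨e.symm.trans g⟩⟩

theorem ret_iso {X Y : IA F V} (h : Iso X Y) (hX : Ret X) : Ret Y := by
  obtain ⟨e, he⟩ := h
  obtain ⟨p, h1, h2, h3, h4, h5⟩ := hX
  refine ⟨e p, ?_, ?_, ?_, ?_, ?_⟩
  · rw [← map_mul, h1]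
  · intro h0
    exact h2 ((map_eq_zero_iff e e.injective).mp h0)
  · intro v
    rw [← he, ← map_mul, h3]
  · intro v
    rw [← he, ← map_mul, h4]
  · intro a
    obtain ⟨c, hc⟩ := h5 (e.symm a)
    refine ⟨c, ?_⟩
    have h6 := congrArg e hc
    rwa [map_mul, map_mul, AlgEquiv.apply_symm_apply, map_smul] at h6

theorem isoT_tens {σ : MulAut V} {X X' Y Y' : IA F V} (h : IsoT σ X X') (h' : IsoT σ Y Y') :
    IsoT σ (X.tens Y) (X'.tens Y') := by
  obtain ⟨e, he⟩ := h
  obtain ⟨f, hf⟩ := h'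
  refine ⟨Algebra.TensorProduct.congr e f, fun v => ?_⟩
  show Algebra.TensorProduct.congr e f (X.ι v ⊗ₜ[F] Y.ι v) = X'.ι (σ v) ⊗ₜ[F] Y'.ι (σ v)
  rw [Algebra.TensorProduct.congr_apply, Algebra.TensorProduct.map_tmul]
  show e (X.ι v) ⊗ₜ[F] f (Y.ι v) = _
  rw [he, hf]

theorem isoT_op {σ : MulAut V} {X Y : IA F V} (h : IsoT σ X Y) : IsoT σ X.op Y.op := by
  obtain ⟨e, he⟩ := h
  refine ⟨AlgEquiv.op e, fun v => ?_⟩
  show MulOpposite.op (e (X.ι v⁻¹)) = MulOpposite.op (Y.ι (σ v)⁻¹)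
  rw [he, map_inv]

theorem isoT_one {X Y : IA F V} : IsoT 1 X Y ↔ Iso X Y := Iff.rfl

theorem comm_iso (X Y : IA F V) : Iso (X.tens Y) (Y.tens X) := by
  refine ⟨Algebra.TensorProduct.comm F X.A Y.A, fun v => ?_⟩
  rfl

theorem assoc_iso (X Y Z : IA F V) : Iso ((X.tens Y).tens Z) (X.tens (Y.tens Z)) := by
  refine ⟨Algebra.TensorProduct.assoc F F F X.A Y.A Z.A, fun v => ?_⟩
  rfl

theorem lid_iso (X : IA F V) : Iso ((IA.one F V).tens X) X := by
  refine ⟨Algebra.TensorProduct.lid F X.A, fun v => ?_⟩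
  show Algebra.TensorProduct.lid F X.A ((1 : F) ⊗ₜ[F] X.ι v) = X.ι v
  rw [Algebra.TensorProduct.lid_tmul, one_smul]

theorem one_op : Iso (IA.one F V).op (IA.one F V) := by
  refine ⟨(AlgEquiv.toOpposite F F).symm, fun v => ?_⟩
  show MulOpposite.unop (MulOpposite.op (1 : F)) = 1
  rfl

/-- QIS -/
theorem qis : QisStmt := by
  intro F V _ _ _
  refine ⟨iso_refl, fun X Y h => iso_symm h, fun X Y Z h h' => iso_trans h h',
    fun X X' Y Y' Q h h' hB => bq_iso h h' hB, fun X Y h => cp_iso h, fun X Y h => mx_iso h,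
    fun X Y h => ret_iso h, ?_, ?_, comm_iso, assoc_iso, lid_iso, one_op, ?_,
    fun X Y => isoT_one, fun σ X X' Y Y' h h' => isoT_tens h h', fun σ X Y h => isoT_op h, ?_⟩
  · intro X X' Y Y' h h'
    exact isoT_one.mp (isoT_tens (isoT_one.mpr h) (isoT_one.mpr h'))
  · intro X Y h
    exact isoT_one.mp (isoT_op (isoT_one.mpr h))
  · rintro σ τ X Y Z ⟨e, he⟩ ⟨f, hf⟩
    exact ⟨e.trans f, fun v => by rw [AlgEquiv.trans_apply, he, hf]; rfl⟩
  · intro σ
    exact ⟨AlgEquiv.refl, fun v => rfl⟩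

end Pool.Agent.PFC.H85Q
end
end -- Pool.Agent.Helper85_PFC.QIS

section -- Pool.Agent.Helper92_PFC.FAM

set_option autoImplicit false

/-!
# Squad PFC, block B5c, row FAM
-/

open scoped BigOperators TensorProduct

noncomputable section

namespace Pool.Agent.PFC.H92

open Pool.Agent.PFC.B5a (zin)
open Pool.Agent.PFC.B5c (LoqOut TrbStmt ItwStmt FamStmt Fam bd sg)

theorem fam (hloq : LoqOut) (htrb : TrbStmt) (hitw : ItwStmt) (hpsr : PsrStmt) : FamStmt := by
  intro F V E A _ _ _ _ _ _ _ ℓ _ φ W α hctf hin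
  classical
  have hp : Fact ℓ.Prime := ⟨hctf.pr⟩
  choose n π hL using hin.lcq
  -- conjugation is the restriction to the diagonal
  have hcp : CP (bd F α) := by
    have h1 := hpsr F (V × V) V A (bi F α) ((MonoidHom.id V).prod (MonoidHom.id V)) _ hin.ps
    obtain ⟨Ω, i1, i2, b, c, hfr, hst⟩ := h1
    exact ⟨Ω, i1, i2, b, c, hfr, fun _ => trivial⟩
  obtain ⟨S, hS⟩ : ∃ S : Subgroup V → IA F V, ∀ (Q : Subgroup V) (h : ¬ Q ≤ W),
      S Q = B5c.mx (sg F α Q (π Q h)) := by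
    refine ⟨fun Q => if h : ¬ Q ≤ W then B5c.mx (sg F α Q (π Q h)) else IA.one F V, fun Q h => ?_⟩
    exact dif_pos h
  refine ⟨S, ?_, ?_, ?_, ?_⟩
  · intro Q h
    rw [hS Q h]
    exact ⟨n Q h, (hL Q h).pos, ⟨AlgEquiv.refl⟩⟩
  · intro Q h
    rw [hS Q h]
    exact (hloq F V E A ℓ φ W α Q (n Q h) (π Q h) hctf hin h (hL Q h)).1
  · intro Q h
    rw [hS Q h]
    obtain ⟨-, q, hq1, hq2, hq3⟩ := hloq F V E A ℓ φ W α Q (n Q h) (π Q h) hctf hin h (hL Q h)
    exact htrb ℓ F V (bd F α) ((B5c.mx (sg F α Q (π Q h))).tens (IA.gr F V)) Q q hctf.pg hcp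
      hq1 hq2 hq3
  · intro Q h e
    have h' : ¬ Q.map (φ e).toMonoidHom ≤ W := by
      intro hle
      apply h
      intro u hu
      have h1 : φ e u ∈ W := hle ⟨u, hu, rfl⟩
      have h2 := hctf.stab e⁻¹ _ h1
      rw [← MulAut.mul_apply, ← map_mul, inv_mul_cancel, map_one, MulAut.one_apply] at h2
      exact h2
    rw [hS Q h, hS _ h']
    obtain ⟨y, y', hy, hy', hyu⟩ := hin.uni e
    exact hitw F V A α (φ e) y y' Q (n Q h) (n _ h') (π Q h) (π _ h') hy hy' hyu (hL Q h)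
      (hL _ h')

end Pool.Agent.PFC.H92
end
end -- Pool.Agent.Helper92_PFC.FAM

section -- Pool.Agent.Helper92_PFC.FRC

set_option autoImplicit false

/-!
# Squad PFC, block B5c, row FRC
-/

open scoped BigOperators TensorProduct

noncomputable section

namespace Pool.Agent.PFC.H92

open MulAction

/-- a functional which is invariant under conjugation kills the Brauer kernel -/
theorem inv_BK {ℓ : ℕ} [Fact ℓ.Prime] {F H M : Type} [Field F] [CharP F ℓ] [Group H] [Finite H]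
    [AddCommGroup M] [Module F M] (ρ : H →* (M →ₗ[F] M)) (μ : M →ₗ[F] F) (Q : Subgroup H)
    (hμ : ∀ y ∈ Q, ∀ x, μ (ρ y x) = μ x) (hQ : IsPGroup ℓ Q) (m : M)
    (hm : m ∈ BK ρ Q) : μ m = 0 := by
  classical
  unfold BK at hm
  induction hm using Submodule.span_induction with
  | mem n hn =>
    obtain ⟨P', S, x, hlt, hS, hx, rfl⟩ := hn
    have h1 : ∀ y ∈ S, μ (ρ y x) = μ x := fun y hy => hμ y (hS.1 y hy) x
    rw [map_sum, Finset.sum_congr rfl h1, Finset.sum_const]
    have hdvd : ℓ ∣ S.card := by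
      have hc := card_tv P' Q hlt.le S hS
      obtain ⟨k, hk⟩ := (IsPGroup.iff_card).1 hQ
      have hdiv : S.card ∣ ℓ ^ k := ⟨_, by rw [← hk]; exact hc.symm⟩
      obtain ⟨j, -, hj⟩ := (Nat.dvd_prime_pow (Fact.out : ℓ.Prime)).1 hdiv
      rcases Nat.eq_zero_or_pos j with h0 | h0
      · exfalso
        rw [h0, pow_zero] at hj
        rw [hj, one_mul] at hc
        exact hlt.ne (Subgroup.eq_of_le_of_card_ge hlt.le hc.ge)
      · rw [hj]
        exact dvd_pow_self ℓ h0.ne'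
    obtain ⟨d, hd⟩ := hdvd
    rw [hd, mul_smul, nsmul_eq_mul, CharP.cast_eq_zero, zero_mul]
  | zero => exact map_zero _
  | add a b _ _ ha hb => rw [map_add, ha, hb, add_zero]
  | smul r a _ ha => rw [map_smul, ha, smul_zero]

theorem frc : B5c.FrcStmt := by
  intro ℓ _ F V _ _ _ _ X Y j κ hV hcor hj lam hfrm
  classical
  obtain ⟨hsym, hnd, hnz⟩ := hfrm
  obtain ⟨hinj, hmul, hone, hran, hcom, hcov⟩ := hcor
  have hjj : j * j = j := by
    rw [← hone, ← hmul, one_mul]
  refine ⟨lam ∘ₗ κ, ?_, ?_, ?_⟩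
  · intro a b
    rw [LinearMap.comp_apply, LinearMap.comp_apply, hmul, hmul, hsym]
  · intro a ha
    apply hinj
    rw [map_zero]
    apply hnd
    intro x
    obtain ⟨b, hb⟩ := hran (j * x * j) (by rw [← mul_assoc, ← mul_assoc, hjj])
      (by rw [mul_assoc, hjj])
    have h1 : κ a = j * κ a * j := by
      rw [← hone, ← hmul, ← hmul, one_mul, mul_one]
    have h2 := ha b
    rw [LinearMap.comp_apply, hmul, hb] at h2
    calc lam (κ a * x) = lam (j * (κ a * j * x)) := by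
          conv_lhs => rw [h1]
          simp only [mul_assoc]
      _ = lam (κ a * j * x * j) := hsym _ _
      _ = lam (κ a * (j * x * j)) := by simp only [mul_assoc]
      _ = 0 := h2
  · obtain ⟨s, hs⟩ : ∃ s : X.A, s = ∑ u, X.ι u := ⟨_, rfl⟩
    have hsc : ∀ y, X.ι y * s = s * X.ι y := by
      intro y
      rw [hs, Finset.mul_sum, Finset.sum_mul]
      refine Finset.sum_congr rfl fun u _ => ?_
      rw [← map_mul, ← map_mul, mul_comm]
    have h1 : lam (s * (1 - j)) = 0 := by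
      refine inv_BK (ℓ := ℓ) (cj F X.ι) (lam ∘ₗ LinearMap.mulLeft F s) ⊤ (fun y _ x => ?_)
        (hV.to_subgroup _) _ hj
      change lam (s * (X.ι y * (x * X.ι y⁻¹))) = lam (s * x)
      have h2 : s * (X.ι y * (x * X.ι y⁻¹)) = X.ι y * (s * x) * X.ι y⁻¹ := by
        rw [← mul_assoc, ← hsc]
        simp only [mul_assoc]
      rw [h2, hsym, ← mul_assoc, ← map_mul, inv_mul_cancel, map_one, one_mul]
    have h3 : κ (∑ u, Y.ι u) = s * j := by
      rw [map_sum, hs, Finset.sum_mul]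
      exact Finset.sum_congr rfl fun u _ => hcov u
    rw [LinearMap.comp_apply, h3]
    rw [mul_sub, mul_one, map_sub, sub_eq_zero] at h1
    rw [← h1, hs]
    exact hnz

end Pool.Agent.PFC.H92
end
end -- Pool.Agent.Helper92_PFC.FRC

section -- Pool.Agent.PFC.B4.QCE

/-!
# Squad PFC, block B4b, row QCE (helper46): existence of corners
-/

set_option autoImplicit false

noncomputable section

namespace Pool.Agent.PFC.H46

open Pool.Agent.PFC

section corner

variable {F A : Type} [Field F] [Ring A] [Algebra F A]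

/-- the corner `j A j` as a subspace -/
def crn (F : Type) {A : Type} [Field F] [Ring A] [Algebra F A] (j : A) : Submodule F A where
  carrier := {a | j * a = a ∧ a * j = a}
  add_mem' := by
    rintro a b ⟨h1, h2⟩ ⟨h3, h4⟩
    exact ⟨by rw [mul_add, h1, h3], by rw [add_mul, h2, h4]⟩
  zero_mem' := ⟨mul_zero _, zero_mul _⟩
  smul_mem' := by
    rintro c a ⟨h1, h2⟩
    exact ⟨by rw [mul_smul_comm, h1], by rw [smul_mul_assoc, h2]⟩

theorem crn_mul {j a b : A} (ha : a ∈ crn F j) (hb : b ∈ crn F j) : a * b ∈ crn F j :=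
  ⟨by rw [← mul_assoc, ha.1], by rw [mul_assoc, hb.2]⟩

/-- the ring structure of the corner -/
@[reducible] def crnRing (j : A) (hj : j * j = j) : Ring (crn F j) :=
  { (inferInstance : AddCommGroup (crn F j)) with
    mul := fun a b => ⟨a.1 * b.1, crn_mul a.2 b.2⟩
    one := ⟨j, hj, hj⟩
    mul_assoc := fun a b c => Subtype.ext (mul_assoc a.1 b.1 c.1)
    one_mul := fun a => Subtype.ext a.2.1
    mul_one := fun a => Subtype.ext a.2.2
    left_distrib := fun a b c => Subtype.ext (mul_add a.1 b.1 c.1)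
    right_distrib := fun a b c => Subtype.ext (add_mul a.1 b.1 c.1)
    zero_mul := fun a => Subtype.ext (zero_mul a.1)
    mul_zero := fun a => Subtype.ext (mul_zero a.1) }

end corner

theorem qce : QceStmt := by
  intro F V _ _ X j hj hc
  letI := crnRing (F := F) j hj
  letI : Algebra F (crn F j) := Algebra.ofModule
    (fun r x y => Subtype.ext (smul_mul_assoc r x.1 y.1))
    (fun r x y => Subtype.ext (mul_smul_comm r x.1 y.1))
  have hfin : FiniteDimensional F (crn F j) := inferInstance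
  have hmem : ∀ v, X.ι v * j ∈ crn F j := by
    intro v
    exact ⟨by rw [← mul_assoc, ← hc, mul_assoc, hj], by rw [mul_assoc, hj]⟩
  let Y : IA F V :=
    { A := crn F j
      ι :=
        { toFun := fun v => ⟨X.ι v * j, hmem v⟩
          map_one' := Subtype.ext (by
            change X.ι 1 * j = j
            rw [map_one, one_mul])
          map_mul' := fun u v => Subtype.ext (by
            change X.ι (u * v) * j = X.ι u * j * (X.ι v * j)
            rw [map_mul, mul_assoc (X.ι u), mul_assoc (X.ι u), ← mul_assoc j, ← hc v,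
              mul_assoc (X.ι v), hj]) } }
  refine ⟨Y, (crn F j).subtype, ?_⟩
  exact
    { inj := Subtype.coe_injective
      mul := fun a b => rfl
      one := rfl
      ran := fun a h1 h2 => ⟨⟨a, h1, h2⟩, rfl⟩
      com := hc
      cov := fun v => rfl }

end Pool.Agent.PFC.H46
end
end -- Pool.Agent.PFC.B4.QCE

section -- Pool.Agent.PFC.B5c.Itw_helper65

/-!
# Squad PFC, block B5c, row ITW: conjugation by the unit `y`
-/

set_option autoImplicit false

namespace Pool.Agent.PFC.B5c.H65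

open Pool.Agent.PFC Pool.Agent.PFC.B5c
open Pool.Agent.PFC.B5a (zin)

/-- a two-sided set of nilpotent elements in a matrix algebra is zero -/
theorem mat_nil {F : Type} [Field F] {n : ℕ} (M : Matrix (Fin n) (Fin n) F)
    (h : ∀ a b : Matrix (Fin n) (Fin n) F, ∃ N : ℕ, (a * M * b) ^ N = 0) : M = 0 := by
  by_contra hM
  obtain ⟨i, j, hij⟩ : ∃ i j, M i j ≠ 0 := by
    by_contra hcon
    push Not at hcon
    exact hM (Matrix.ext fun i j => hcon i j)
  obtain ⟨N, hN⟩ := h (Matrix.single i i 1) (Matrix.single j i (M i j)⁻¹)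
  have h1 : Matrix.single i i 1 * M * Matrix.single j i (M i j)⁻¹ =
      Matrix.single i i (1 : F) := by
    ext a b
    by_cases ha : i = a
    · by_cases hb : i = b
      · subst ha hb
        rw [Matrix.mul_single_apply_same, Matrix.single_mul_apply_same, one_mul,
          mul_inv_cancel₀ hij, Matrix.single_apply_same]
      · rw [Matrix.mul_single_apply_of_ne _ _ _ _ _ (fun h => hb h.symm),
          Matrix.single_apply_of_col_ne _ _ hb]
    · rw [Matrix.mul_assoc, Matrix.single_mul_apply_of_ne _ _ _ _ _ (fun h => ha h.symm),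
        Matrix.single_apply_of_row_ne ha]
  rw [h1] at hN
  have h2 : ∀ k : ℕ, (Matrix.single i i (1 : F)) ^ (k + 1) = Matrix.single i i (1 : F) := by
    intro k
    induction k with
    | zero => rw [zero_add, pow_one]
    | succ k ih => rw [pow_succ, ih, Matrix.single_mul_single_same, one_mul]
  have h3 := h2 N
  rw [pow_succ, hN, zero_mul] at h3
  have h4 := congrFun (congrFun h3 i) i
  rw [Matrix.single_apply_same] at h4
  exact zero_ne_one h4

theorem core {F B B' : Type} [Field F] [Ring B] [Algebra F B] [Ring B'] [Algebra F B'] {n n' : ℕ}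
    (π : B →ₐ[F] Matrix (Fin n) (Fin n) F) (π' : B' →ₐ[F] Matrix (Fin n') (Fin n') F)
    (C : B →ₐ[F] B') (hs : Function.Surjective π)
    (hnil : ∀ b : B, π' (C b) = 0 → ∃ N : ℕ, π b ^ N = 0) (b : B) (hb : π' (C b) = 0) :
    π b = 0 := by
  apply mat_nil
  intro x z
  obtain ⟨x', rfl⟩ := hs x
  obtain ⟨z', rfl⟩ := hs z
  obtain ⟨N, hN⟩ := hnil (x' * b * z') (by
    rw [map_mul, map_mul, map_mul, map_mul, hb, mul_zero, zero_mul])
  refine ⟨N, ?_⟩
  rw [map_mul, map_mul] at hN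
  exact hN

theorem iso_of {F B B' : Type} [Field F] [Ring B] [Algebra F B] [Ring B'] [Algebra F B'] {n n' : ℕ}
    (π : B →ₐ[F] Matrix (Fin n) (Fin n) F) (π' : B' →ₐ[F] Matrix (Fin n') (Fin n') F)
    (C : B →ₐ[F] B') (hC : Function.Surjective C) (hs : Function.Surjective π)
    (hs' : Function.Surjective π') (h : ∀ b, π b = 0 ↔ π' (C b) = 0) :
    ∃ e : Matrix (Fin n) (Fin n) F ≃ₐ[F] Matrix (Fin n') (Fin n') F, ∀ b, e (π b) = π' (C b) := by
  have hk : ∀ b, π' (C (Function.surjInv hs (π b))) = π' (C b) := by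
    intro b
    have h1 : π (Function.surjInv hs (π b) - b) = 0 := by
      rw [map_sub, Function.surjInv_eq hs, sub_self]
    have h2 := (h _).1 h1
    rw [map_sub, map_sub] at h2
    exact sub_eq_zero.1 h2
  let f : Matrix (Fin n) (Fin n) F →ₐ[F] Matrix (Fin n') (Fin n') F :=
    { toFun := fun m => π' (C (Function.surjInv hs m))
      map_one' := by
        have h1 := hk 1
        rw [map_one, map_one, map_one] at h1
        exact h1
      map_mul' := by
        intro a b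
        obtain ⟨a, rfl⟩ := hs a
        obtain ⟨b, rfl⟩ := hs b
        rw [hk a, hk b, ← map_mul, hk, map_mul, map_mul]
      map_zero' := by
        have h1 := hk 0
        rw [map_zero, map_zero, map_zero] at h1
        exact h1
      map_add' := by
        intro a b
        obtain ⟨a, rfl⟩ := hs a
        obtain ⟨b, rfl⟩ := hs b
        rw [hk a, hk b, ← map_add, hk, map_add, map_add]
      commutes' := by
        intro r
        have h1 := hk (algebraMap F B r)
        rw [AlgHom.commutes, AlgHom.commutes, AlgHom.commutes] at h1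
        exact h1 }
  have hf : ∀ b, f (π b) = π' (C b) := hk
  have hbij : Function.Bijective f := by
    constructor
    · rw [injective_iff_map_eq_zero]
      intro a ha
      obtain ⟨a, rfl⟩ := hs a
      rw [hf] at ha
      exact (h a).2 ha
    · intro m
      obtain ⟨b', rfl⟩ := hs' m
      obtain ⟨b, rfl⟩ := hC b'
      exact ⟨π b, hf b⟩
  exact ⟨AlgEquiv.ofBijective f hbij, hf⟩

section conj
variable {F V A : Type} [Field F] [CommGroup V] [Ring A] [Algebra F A] (α : V →* A)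
    (σ : MulAut V) (y y' : A)

theorem conj_cj (h1 : y * y' = 1) (h2 : y' * y = 1) (h3 : ∀ u, y * α u = α (σ u) * y) (u : V)
    (a : A) : y * cj F α u a * y' = cj F α (σ u) (y * a * y') := by
  have e1 : ∀ (w : V) (b : A), cj F α w b = α w * (b * α w⁻¹) := fun w b => rfl
  have e2 : α u⁻¹ * y' = y' * α (σ u)⁻¹ := by
    have h4 := h3 u⁻¹
    have h5 : σ u⁻¹ = (σ u)⁻¹ := map_inv σ u
    rw [h5] at h4
    calc α u⁻¹ * y' = (y' * y) * (α u⁻¹ * y') := by rw [h2, one_mul]
      _ = y' * ((y * α u⁻¹) * y') := by simp only [mul_assoc]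
      _ = y' * ((α (σ u)⁻¹ * y) * y') := by rw [h4]
      _ = y' * α (σ u)⁻¹ * (y * y') := by simp only [mul_assoc]
      _ = y' * α (σ u)⁻¹ := by rw [h1, mul_one]
  rw [e1, e1]
  calc y * (α u * (a * α u⁻¹)) * y' = (y * α u) * a * (α u⁻¹ * y') := by simp only [mul_assoc]
    _ = (α (σ u) * y) * a * (y' * α (σ u)⁻¹) := by rw [h3, e2]
    _ = α (σ u) * (y * a * y' * α (σ u)⁻¹) := by simp only [mul_assoc]

theorem conj_fx (h1 : y * y' = 1) (h2 : y' * y = 1) (h3 : ∀ u, y * α u = α (σ u) * y)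
    (P : Subgroup V) (m : A) (hm : m ∈ Fx (cj F α) P) :
    y * m * y' ∈ Fx (cj F α) (P.map σ.toMonoidHom) := by
  rintro _ ⟨u, hu, rfl⟩
  have h4 := conj_cj (F := F) α σ y y' h1 h2 h3 u m
  rw [hm u hu] at h4
  exact h4.symm

theorem tv_map [DecidableEq V] {P' P : Subgroup V} {S : Finset V} (h : IsTv P' P S) :
    IsTv (P'.map σ.toMonoidHom) (P.map σ.toMonoidHom) (S.image σ) := by
  refine ⟨?_, ?_⟩
  · intro s hs
    obtain ⟨x, hx, rfl⟩ := Finset.mem_image.1 hs
    exact ⟨x, h.1 x hx, rfl⟩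
  · rintro _ ⟨p, hp, rfl⟩
    obtain ⟨s, ⟨hs1, hs2⟩, hs3⟩ := h.2 p hp
    refine ⟨σ s, ⟨Finset.mem_image_of_mem _ hs1, ⟨s⁻¹ * p, hs2, ?_⟩⟩, ?_⟩
    · show σ (s⁻¹ * p) = (σ s)⁻¹ * σ p
      rw [map_mul, map_inv]
    · rintro t ⟨ht1, ht2⟩
      obtain ⟨x, hx, rfl⟩ := Finset.mem_image.1 ht1
      obtain ⟨z, hz, hz2⟩ := ht2
      have h5 : z = x⁻¹ * p := by
        apply σ.injective
        rw [map_mul, map_inv]
        exact hz2
      rw [h5] at hz
      rw [hs3 x ⟨hx, hz⟩]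

theorem conj_bk (h1 : y * y' = 1) (h2 : y' * y = 1) (h3 : ∀ u, y * α u = α (σ u) * y)
    (P : Subgroup V) (m : A) (hm : m ∈ BK (cj F α) P) :
    y * m * y' ∈ BK (cj F α) (P.map σ.toMonoidHom) := by
  classical
  refine Submodule.span_induction (p := fun m _ => y * m * y' ∈
    BK (cj F α) (P.map σ.toMonoidHom)) ?_ ?_ ?_ ?_ hm
  · rintro n ⟨P', S, m, hP, hS, hm, rfl⟩
    apply Submodule.subset_span
    refine ⟨P'.map σ.toMonoidHom, S.image σ, y * m * y', ?_, tv_map σ hS,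
      conj_fx α σ y y' h1 h2 h3 P' m hm, ?_⟩
    · exact (Subgroup.map_lt_map_iff_of_injective σ.injective).2 hP
    · rw [Finset.sum_image (fun a _ b _ hab => σ.injective hab), Finset.mul_sum, Finset.sum_mul]
      exact Finset.sum_congr rfl fun x _ => conj_cj α σ y y' h1 h2 h3 x m
  · rw [mul_zero, zero_mul]
    exact Submodule.zero_mem _
  · intro a b _ _ ha hb
    rw [mul_add, add_mul]
    exact Submodule.add_mem _ ha hb
  · intro c a _ ha
    rw [mul_smul_comm, smul_mul_assoc]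
    exact Submodule.smul_mem _ c ha

theorem conj_cz (h1 : y * y' = 1) (h2 : y' * y = 1) (h3 : ∀ u, y * α u = α (σ u) * y)
    (Q : Subgroup V) (a : A) (ha : a ∈ Cz F α Q) :
    y * a * y' ∈ Cz F α (Q.map σ.toMonoidHom) := by
  rw [Cz, Subalgebra.mem_centralizer_iff] at ha ⊢
  rintro _ ⟨_, ⟨u, hu, rfl⟩, rfl⟩
  have h4 := ha (α u) ⟨u, hu, rfl⟩
  show α (σ u) * (y * a * y') = y * a * y' * α (σ u)
  have h5 : α u * y' = y' * α (σ u) := by
    calc α u * y' = (y' * y) * (α u * y') := by rw [h2, one_mul]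
      _ = y' * ((y * α u) * y') := by simp only [mul_assoc]
      _ = y' * ((α (σ u) * y) * y') := by rw [h3]
      _ = y' * α (σ u) * (y * y') := by simp only [mul_assoc]
      _ = y' * α (σ u) := by rw [h1, mul_one]
  calc α (σ u) * (y * a * y') = (α (σ u) * y) * a * y' := by simp only [mul_assoc]
    _ = (y * α u) * a * y' := by rw [h3]
    _ = y * (α u * a) * y' := by simp only [mul_assoc]
    _ = y * (a * α u) * y' := by rw [h4]
    _ = y * a * (α u * y') := by simp only [mul_assoc]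
    _ = y * a * (y' * α (σ u)) := by rw [h5]
    _ = y * a * y' * α (σ u) := by simp only [mul_assoc]

theorem swap_rel (h1 : y * y' = 1) (h2 : y' * y = 1) (h3 : ∀ u, y * α u = α (σ u) * y) (u : V) :
    y' * α u = α (σ⁻¹ u) * y' := by
  have h4 := h3 (σ⁻¹ u)
  rw [MulAut.apply_inv_self] at h4
  calc y' * α u = y' * α u * (y * y') := by rw [h1, mul_one]
    _ = y' * (α u * y) * y' := by simp only [mul_assoc]
    _ = y' * (y * α (σ⁻¹ u)) * y' := by rw [h4]
    _ = (y' * y) * α (σ⁻¹ u) * y' := by simp only [mul_assoc]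
    _ = α (σ⁻¹ u) * y' := by rw [h2, one_mul]

theorem map_map_inv (Q : Subgroup V) :
    (Q.map σ.toMonoidHom).map (σ⁻¹ : MulAut V).toMonoidHom = Q := by
  ext v
  constructor
  · rintro ⟨_, ⟨u, hu, rfl⟩, rfl⟩
    have : (σ⁻¹ : MulAut V).toMonoidHom (σ.toMonoidHom u) = u := MulAut.inv_apply_self V σ u
    rw [this]
    exact hu
  · intro hv
    exact ⟨σ v, ⟨v, hv, rfl⟩, MulAut.inv_apply_self V σ v⟩

end conj

theorem itw : ItwStmt := by
  intro F V A _ _ _ _ _ α σ y y' Q n n' π π' h1 h2 h3 hL hL'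
  have h3' := swap_rel α σ y y' h1 h2 h3
  let c : A →ₐ[F] A :=
    { toFun := fun a => y * a * y'
      map_one' := by rw [mul_one, h1]
      map_mul' := by
        intro a b
        calc y * (a * b) * y' = y * a * (1 * (b * y')) := by rw [one_mul]; simp only [mul_assoc]
          _ = y * a * y' * (y * b * y') := by rw [← h2]; simp only [mul_assoc]
      map_zero' := by rw [mul_zero, zero_mul]
      map_add' := by
        intro a b
        rw [mul_add, add_mul]
      commutes' := by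
        intro r
        show y * algebraMap F A r * y' = algebraMap F A r
        rw [← Algebra.commutes, mul_assoc, h1, mul_one] }
  have hc : ∀ a, c a = y * a * y' := fun a => rfl
  have hcz : ∀ a : Cz F α Q, c a ∈ Cz F α (Q.map σ.toMonoidHom) := fun a =>
    conj_cz α σ y y' h1 h2 h3 Q a a.2
  let C : Cz F α Q →ₐ[F] Cz F α (Q.map σ.toMonoidHom) :=
    (c.comp (Cz F α Q).val).codRestrict (Cz F α (Q.map σ.toMonoidHom)) hcz
  have hC : ∀ a, (C a : A) = y * a * y' := fun a => rfl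
  have hback : ∀ a : A, y' * (y * a * y') * y = a := by
    intro a
    calc y' * (y * a * y') * y = (y' * y) * a * (y' * y) := by simp only [mul_assoc]
      _ = a := by rw [h2, one_mul, mul_one]
  have hforth : ∀ a : A, y * (y' * a * y) * y' = a := by
    intro a
    calc y * (y' * a * y) * y' = (y * y') * a * (y * y') := by simp only [mul_assoc]
      _ = a := by rw [h1, one_mul, mul_one]
  have hCs : Function.Surjective C := by
    intro b
    have h4 := conj_cz (F := F) α σ⁻¹ y' y h2 h1 h3' (Q.map σ.toMonoidHom) b b.2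
    rw [map_map_inv] at h4
    exact ⟨⟨y' * b * y, h4⟩, Subtype.ext (hforth b)⟩
  have hker : ∀ b, π b = 0 ↔ π' (C b) = 0 := by
    intro b
    constructor
    · intro hb
      -- the map in the other direction
      have hinj : Function.Injective C := by
        intro a a' haa
        have h5 := congrArg (fun z : Cz F α (Q.map σ.toMonoidHom) => y' * (z : A) * y) haa
        simp only [hC, hback] at h5
        exact Subtype.ext h5
      let D : Cz F α (Q.map σ.toMonoidHom) →ₐ[F] Cz F α Q :=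
        ((AlgEquiv.ofBijective C ⟨hinj, hCs⟩).symm : _ ≃ₐ[F] _).toAlgHom
      have hD : ∀ a, D (C a) = a := fun a =>
        (AlgEquiv.ofBijective C ⟨hinj, hCs⟩).symm_apply_apply a
      have hCD : ∀ a, C (D a) = a := fun a =>
        (AlgEquiv.ofBijective C ⟨hinj, hCs⟩).apply_symm_apply a
      refine core π' π D hL'.sur ?_ (C b) (by rw [hD]; exact hb)
      intro b' hb'
      obtain ⟨N, hN⟩ := hL.nil (D b') hb'
      refine ⟨N, ?_⟩
      have h6 := conj_bk (F := F) α σ y y' h1 h2 h3 Q _ hN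
      rw [← map_pow]
      apply hL'.bk
      have h7 : ((b' ^ N : Cz F α (Q.map σ.toMonoidHom)) : A) = y * ((D b' : A) ^ N) * y' := by
        have h8 : b' ^ N = C (D b' ^ N) := by
          rw [map_pow, hCD]
        rw [h8, hC]
        rfl
      rw [h7]
      exact h6
    · intro hb
      refine core π π' C hL.sur ?_ b hb
      intro b' hb'
      obtain ⟨N, hN⟩ := hL'.nil (C b') hb'
      refine ⟨N, ?_⟩
      have h6 := conj_bk (F := F) α σ⁻¹ y' y h2 h1 h3' (Q.map σ.toMonoidHom) _ hN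
      rw [map_map_inv] at h6
      rw [← map_pow]
      apply hL.bk
      have h7 : ((b' ^ N : Cz F α Q) : A) = y' * ((C b' : A) ^ N) * y := by
        have h8 : (C b' : A) ^ N = y * ((b' ^ N : Cz F α Q) : A) * y' := by
          rw [← hC, map_pow]
          rfl
        rw [h8, hback]
      rw [h7]
      exact h6
  obtain ⟨e, he⟩ := iso_of π π' C hCs hL.sur hL'.sur hker
  refine ⟨e, fun v => ?_⟩
  show e (π (zin F α Q v)) = π' (zin F α (Q.map σ.toMonoidHom) (σ v))
  rw [he]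
  congr 1
  apply Subtype.ext
  rw [hC]
  show y * α v * y' = α (σ v)
  rw [h3, mul_assoc, h1, mul_one]

end Pool.Agent.PFC.B5c.H65
end -- Pool.Agent.PFC.B5c.Itw_helper65

section -- Pool.Agent.Helper62_PFC.QMX

/-!
# Row QMX of squad PFC (MP_6a3f1a_al)
-/

set_option autoImplicit false

open scoped BigOperators TensorProduct

noncomputable section

namespace Pool.Agent.PFC.H62

/-- a field is the algebra of `1 × 1` matrices -/
def fieldMat (F : Type) [Field F] : F ≃ₐ[F] Matrix (Fin 1) (Fin 1) F :=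
  AlgEquiv.ofBijective (Algebra.ofId F (Matrix (Fin 1) (Fin 1) F)) (by
    refine ⟨?_, ?_⟩
    · intro a b hab
      have h := congrFun (congrFun hab 0) 0
      simpa [Algebra.ofId_apply, Matrix.algebraMap_matrix_apply] using h
    · intro M
      refine ⟨M 0 0, ?_⟩
      ext i j
      rw [Subsingleton.elim i 0, Subsingleton.elim j 0]
      simp [Algebra.ofId_apply, Matrix.algebraMap_matrix_apply])

theorem qmx : QmxStmt := by
  intro F V _ _
  refine ⟨?_, ?_, ?_⟩
  · rintro X Y ⟨n, hn, ⟨e⟩⟩ ⟨m, hm, ⟨f⟩⟩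
    refine ⟨m * n, Nat.mul_pos hm hn, ⟨?_⟩⟩
    exact (((Algebra.TensorProduct.congr e f).trans
      (matrixEquivTensor (Fin m) F (Matrix (Fin n) (Fin n) F)).symm).trans
        (Matrix.compAlgEquiv (Fin m) (Fin n) F F)).trans
          (Matrix.reindexAlgEquiv F F finProdFinEquiv)
  · rintro X ⟨n, hn, ⟨e⟩⟩
    refine ⟨n, hn, ⟨?_⟩⟩
    exact (AlgEquiv.op e).trans (Matrix.transposeAlgEquiv (Fin n) F F).symm
  · exact ⟨1, Nat.one_pos, ⟨fieldMat F⟩⟩

end Pool.Agent.PFC.H62
end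
end -- Pool.Agent.Helper62_PFC.QMX

section -- Pool.Agent.Helper67_PFC.QTM

/-! Squad PFC, block B4b, row QTM (helper67): tensor products of split Brauer quotients. -/

open scoped BigOperators TensorProduct

noncomputable section

namespace Pool.Agent.PFC.H67

open Pool.Agent.PFC

variable {F V M M' : Type} [Field F] [Group V]
  [AddCommGroup M] [Module F M] [AddCommGroup M'] [Module F M']

theorem tns_apply (ρ : V →* (M →ₗ[F] M)) (σ : V →* (M' →ₗ[F] M')) (v : V) :
    tns ρ σ v = TensorProduct.map (ρ v) (σ v) := rfl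

theorem comp_inv_self (ρ : V →* (M →ₗ[F] M)) (v : V) : ρ v ∘ₗ ρ v⁻¹ = LinearMap.id := by
  have h : ρ v * ρ v⁻¹ = 1 := by rw [← map_mul, mul_inv_cancel, map_one]
  exact h

theorem map_sum_left (S : Finset V) (f : V → (M →ₗ[F] M)) (u : M' →ₗ[F] M') :
    TensorProduct.map (∑ y ∈ S, f y) u = ∑ y ∈ S, TensorProduct.map (f y) u := by
  classical
  induction S using Finset.induction_on with
  | empty => rw [Finset.sum_empty, Finset.sum_empty, TensorProduct.map_zero_left]
  | insert a S ha ih =>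
    rw [Finset.sum_insert ha, Finset.sum_insert ha, TensorProduct.map_add_left, ih]

theorem map_sum_right (S : Finset V) (f : V → (M' →ₗ[F] M')) (u : M →ₗ[F] M) :
    TensorProduct.map u (∑ y ∈ S, f y) = ∑ y ∈ S, TensorProduct.map u (f y) := by
  classical
  induction S using Finset.induction_on with
  | empty => rw [Finset.sum_empty, Finset.sum_empty, TensorProduct.map_zero_right]
  | insert a S ha ih =>
    rw [Finset.sum_insert ha, Finset.sum_insert ha, TensorProduct.map_add_right, ih]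

theorem pt_left (ρ : V →* (M →ₗ[F] M)) (σ : V →* (M' →ₗ[F] M')) (Q : Subgroup V)
    (T : M →ₗ[F] M) (hT : T ∈ PT ρ Q) (u : M' →ₗ[F] M')
    (hu : ∀ v m, u (σ v m) = σ v (u m)) :
    TensorProduct.map T u ∈ PT (tns ρ σ) Q := by
  unfold PT at hT
  induction hT using Submodule.span_induction with
  | zero =>
    rw [TensorProduct.map_zero_left]
    exact Submodule.zero_mem _
  | add x y _ _ hx hy =>
    rw [TensorProduct.map_add_left]
    exact Submodule.add_mem _ hx hy
  | smul c x _ hx =>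
    rw [TensorProduct.map_smul_left]
    exact Submodule.smul_mem _ c hx
  | mem x hx =>
    obtain ⟨K, S, h, hK, hS, hc, hx⟩ := hx
    refine Submodule.subset_span ⟨K, S, TensorProduct.map h u, hK, hS, ?_, ?_⟩
    · intro k hk m
      rw [tns_apply, ← LinearMap.comp_apply, ← LinearMap.comp_apply, ← TensorProduct.map_comp,
        ← TensorProduct.map_comp]
      have e1 : ρ k ∘ₗ h = h ∘ₗ ρ k := LinearMap.ext fun m => hc k hk m
      have e2 : σ k ∘ₗ u = u ∘ₗ σ k := LinearMap.ext fun m => (hu k m).symm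
      rw [e1, e2]
    · intro m
      have e0 : x = ∑ y ∈ S, ρ y ∘ₗ (h ∘ₗ ρ y⁻¹) := by
        ext m
        rw [hx m, LinearMap.sum_apply]
        rfl
      have e3 : ∀ y : V, σ y ∘ₗ (u ∘ₗ σ y⁻¹) = u := by
        intro y
        have e2 : u ∘ₗ σ y⁻¹ = σ y⁻¹ ∘ₗ u := LinearMap.ext fun m => hu y⁻¹ m
        rw [e2, ← LinearMap.comp_assoc, comp_inv_self, LinearMap.id_comp]
      have e4 : TensorProduct.map x u =
          ∑ y ∈ S, TensorProduct.map (ρ y) (σ y) ∘ₗ
            (TensorProduct.map h u ∘ₗ TensorProduct.map (ρ y⁻¹) (σ y⁻¹)) := by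
        have e5 : ∀ y ∈ S, TensorProduct.map (ρ y) (σ y) ∘ₗ
            (TensorProduct.map h u ∘ₗ TensorProduct.map (ρ y⁻¹) (σ y⁻¹)) =
            TensorProduct.map (ρ y ∘ₗ (h ∘ₗ ρ y⁻¹)) u := by
          intro y _
          rw [← TensorProduct.map_comp, ← TensorProduct.map_comp, e3]
        rw [Finset.sum_congr rfl e5, e0]
        exact map_sum_left S _ u
      rw [e4, LinearMap.sum_apply]
      rfl

theorem pt_right (ρ : V →* (M →ₗ[F] M)) (σ : V →* (M' →ₗ[F] M')) (Q : Subgroup V)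
    (T : M' →ₗ[F] M') (hT : T ∈ PT σ Q) (u : M →ₗ[F] M)
    (hu : ∀ v m, u (ρ v m) = ρ v (u m)) :
    TensorProduct.map u T ∈ PT (tns ρ σ) Q := by
  unfold PT at hT
  induction hT using Submodule.span_induction with
  | zero =>
    rw [TensorProduct.map_zero_right]
    exact Submodule.zero_mem _
  | add x y _ _ hx hy =>
    rw [TensorProduct.map_add_right]
    exact Submodule.add_mem _ hx hy
  | smul c x _ hx =>
    rw [TensorProduct.map_smul_right]
    exact Submodule.smul_mem _ c hx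
  | mem x hx =>
    obtain ⟨K, S, h, hK, hS, hc, hx⟩ := hx
    refine Submodule.subset_span ⟨K, S, TensorProduct.map u h, hK, hS, ?_, ?_⟩
    · intro k hk m
      rw [tns_apply, ← LinearMap.comp_apply, ← LinearMap.comp_apply, ← TensorProduct.map_comp,
        ← TensorProduct.map_comp]
      have e1 : σ k ∘ₗ h = h ∘ₗ σ k := LinearMap.ext fun m => hc k hk m
      have e2 : ρ k ∘ₗ u = u ∘ₗ ρ k := LinearMap.ext fun m => (hu k m).symm
      rw [e1, e2]
    · intro m
      have e0 : x = ∑ y ∈ S, σ y ∘ₗ (h ∘ₗ σ y⁻¹) := by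
        ext m
        rw [hx m, LinearMap.sum_apply]
        rfl
      have e3 : ∀ y : V, ρ y ∘ₗ (u ∘ₗ ρ y⁻¹) = u := by
        intro y
        have e2 : u ∘ₗ ρ y⁻¹ = ρ y⁻¹ ∘ₗ u := LinearMap.ext fun m => hu y⁻¹ m
        rw [e2, ← LinearMap.comp_assoc, comp_inv_self, LinearMap.id_comp]
      have e4 : TensorProduct.map u x =
          ∑ y ∈ S, TensorProduct.map (ρ y) (σ y) ∘ₗ
            (TensorProduct.map u h ∘ₗ TensorProduct.map (ρ y⁻¹) (σ y⁻¹)) := by
        have e5 : ∀ y ∈ S, TensorProduct.map (ρ y) (σ y) ∘ₗ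
            (TensorProduct.map u h ∘ₗ TensorProduct.map (ρ y⁻¹) (σ y⁻¹)) =
            TensorProduct.map u (σ y ∘ₗ (h ∘ₗ σ y⁻¹)) := by
          intro y _
          rw [← TensorProduct.map_comp, ← TensorProduct.map_comp, e3]
        rw [Finset.sum_congr rfl e5, e0]
        exact map_sum_right S _ u
      rw [e4, LinearMap.sum_apply]
      rfl

theorem qtm : QtmStmt := by
  intro F V M N M' N' _ _ _ _ _ _ _ _ _ _ _ ρ ρ' σ σ' Q β s β' s' h h'
  have hbs : β ∘ₗ s = LinearMap.id := LinearMap.ext h.bs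
  have hbs' : β' ∘ₗ s' = LinearMap.id := LinearMap.ext h'.bs
  refine ⟨?_, ?_, ?_, ?_, ?_⟩
  · intro n
    rw [← LinearMap.comp_apply, ← TensorProduct.map_comp, hbs, hbs', TensorProduct.map_id]
    rfl
  · intro v m
    rw [tns_apply, tns_apply, ← LinearMap.comp_apply, ← LinearMap.comp_apply,
      ← TensorProduct.map_comp, ← TensorProduct.map_comp]
    have e1 : β ∘ₗ ρ v = ρ' v ∘ₗ β := LinearMap.ext fun m => h.eb v m
    have e2 : β' ∘ₗ σ v = σ' v ∘ₗ β' := LinearMap.ext fun m => h'.eb v m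
    rw [e1, e2]
  · intro v m
    rw [tns_apply, tns_apply, ← LinearMap.comp_apply, ← LinearMap.comp_apply,
      ← TensorProduct.map_comp, ← TensorProduct.map_comp]
    have e1 : s ∘ₗ ρ' v = ρ v ∘ₗ s := LinearMap.ext fun m => h.es v m
    have e2 : s' ∘ₗ σ' v = σ v ∘ₗ s' := LinearMap.ext fun m => h'.es v m
    rw [e1, e2]
  · intro q hq n
    have e1 : ρ' q = LinearMap.id := LinearMap.ext fun m => h.tr q hq m
    have e2 : σ' q = LinearMap.id := LinearMap.ext fun m => h'.tr q hq m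
    rw [tns_apply, e1, e2, TensorProduct.map_id]
    rfl
  · have key : LinearMap.id - TensorProduct.map s s' ∘ₗ TensorProduct.map β β' =
        TensorProduct.map (LinearMap.id - s ∘ₗ β) (LinearMap.id : M' →ₗ[F] M') +
          TensorProduct.map (s ∘ₗ β) (LinearMap.id - s' ∘ₗ β') := by
      rw [← TensorProduct.map_comp]
      apply TensorProduct.ext'
      intro x y
      simp only [LinearMap.sub_apply, LinearMap.add_apply, TensorProduct.map_tmul,
        LinearMap.id_apply, LinearMap.comp_apply, TensorProduct.sub_tmul, TensorProduct.tmul_sub]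
      abel
    rw [key]
    refine Submodule.add_mem _ ?_ ?_
    · exact pt_left ρ σ Q _ h.hg _ fun v m => rfl
    · refine pt_right ρ σ Q _ h'.hg _ fun v m => ?_
      rw [LinearMap.comp_apply, LinearMap.comp_apply, h.eb, h.es]

end Pool.Agent.PFC.H67
end
end -- Pool.Agent.Helper67_PFC.QTM

section -- Pool.Agent.Helper6_PFC.QRT

/-!
Squad PFC, block B4b, row QRT: `Ret` for tensor products.
-/

open scoped BigOperators TensorProduct

noncomputable section

namespace Pool.Agent.PFC.H6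

theorem tmul_ne {F A B : Type} [Field F] [AddCommGroup A] [Module F A] [AddCommGroup B]
    [Module F B] {a : A} {b : B} (ha : a ≠ 0) (hb : b ≠ 0) : a ⊗ₜ[F] b ≠ 0 := by
  obtain ⟨f, hf⟩ := Module.Projective.exists_dual_eq_one F ha
  obtain ⟨g, hg⟩ := Module.Projective.exists_dual_eq_one F hb
  intro h
  have h1 : (TensorProduct.lid F F) ((TensorProduct.map f g) (a ⊗ₜ[F] b)) = 0 := by
    rw [h, map_zero, map_zero]
  rw [TensorProduct.map_tmul, TensorProduct.lid_tmul, hf, hg] at h1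
  simp at h1

theorem qrt : QrtStmt := by
  intro F V _ _
  refine ⟨?_, ?_⟩
  · rintro X Y ⟨π, h1, h2, h3, h4, h5⟩ ⟨π', k1, k2, k3, k4, k5⟩
    refine ⟨π ⊗ₜ[F] π', ?_, tmul_ne h2 k2, ?_, ?_, ?_⟩
    · change (π ⊗ₜ[F] π') * (π ⊗ₜ[F] π') = π ⊗ₜ[F] π'
      rw [Algebra.TensorProduct.tmul_mul_tmul, h1, k1]
    · intro v
      change (X.ι v ⊗ₜ[F] Y.ι v) * (π ⊗ₜ[F] π') = π ⊗ₜ[F] π'
      rw [Algebra.TensorProduct.tmul_mul_tmul, h3, k3]
    · intro v
      change (π ⊗ₜ[F] π') * (X.ι v ⊗ₜ[F] Y.ι v) = π ⊗ₜ[F] π'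
      rw [Algebra.TensorProduct.tmul_mul_tmul, h4, k4]
    · have key : ∀ a : X.A ⊗[F] Y.A,
          ∃ c : F, (π ⊗ₜ[F] π') * a * (π ⊗ₜ[F] π') = c • (π ⊗ₜ[F] π') := by
        intro a
        induction a using TensorProduct.induction_on with
        | zero => exact ⟨0, by rw [mul_zero, zero_mul, zero_smul]⟩
        | tmul x y =>
          obtain ⟨c, hc⟩ := h5 x
          obtain ⟨d, hd⟩ := k5 y
          refine ⟨c * d, ?_⟩
          rw [Algebra.TensorProduct.tmul_mul_tmul, Algebra.TensorProduct.tmul_mul_tmul, hc, hd,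
            TensorProduct.smul_tmul_smul]
        | add x y hx hy =>
          obtain ⟨c, hc⟩ := hx
          obtain ⟨d, hd⟩ := hy
          exact ⟨c + d, by rw [mul_add, add_mul, hc, hd, add_smul]⟩
      exact key
  · have k1 : ∀ a : F, ∃ c : F, (1 : F) * a * 1 = c • (1 : F) := by
      intro a
      exact ⟨a, by rw [one_mul, mul_one, smul_eq_mul, mul_one]⟩
    refine ⟨(1 : F), ?_, (one_ne_zero : (1 : F) ≠ 0), ?_, ?_, k1⟩
    · change (1 : F) * 1 = 1
      rw [mul_one]
    · intro v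
      change (1 : F) * 1 = 1
      rw [mul_one]
    · intro v
      change (1 : F) * 1 = 1
      rw [mul_one]

end Pool.Agent.PFC.H6
end
end -- Pool.Agent.Helper6_PFC.QRT
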