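import Pool.Agent.Helper12_AWB.B002

/-!
# Merged copies (generated) of the modules

* `Pool.Agent.PFC.DefsB1`
* `Pool.Agent.PFC.StmtsB1`
* `Pool.Agent.PFD.DefsD2`
* `Pool.Agent.PFD.DefsD2b`
* `Pool.Agent.PSS.DefsS`
* `Pool.Agent.PSS.StmtsS0`
* `Pool.Agent.PFD.StmtsD2b`
* `Pool.Agent.PFD.DefsD1`
* `Pool.Agent.PFD.StmtsD1`
* `Pool.Agent.Helper86_PFC.Pen`
-/

set_option autoImplicit false

section -- Pool.Agent.PFC.DefsB1

/-!
Squad PFC, part B1 (helper51): Frobenius systems, representations of orders, Higman projective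
representations, coinduction, and the deformation data over `F[[t]]`.
Everything is written with explicit finite sums.
-/

namespace Pool.Agent.PFC.B1

/-- Frobenius system of an `R`-algebra `A`: a linear form with two dual families. -/
structure FS (R A I : Type) [CommRing R] [Ring A] [Algebra R A] [Fintype I] where
  lam : A →ₗ[R] R
  b : I → A
  b' : I → A
  h1 : ∀ x, ∑ i, lam (b' i * x) • b i = x
  h2 : ∀ x, ∑ i, lam (x * b i) • b' i = x

/-- A representation of the `R`-algebra `A` on the `k`-module `M`, where `k` is a commutative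
`R`-algebra (`k = R`: lattices, `k` the fraction field: generic fibre, `k` the residue field:
special fibre). -/
structure Rp (R A k M : Type) [CommRing R] [Ring A] [Algebra R A] [CommRing k] [Algebra R k]
    [AddCommGroup M] [Module k M] where
  ρ : A →+* Module.End k M
  sc : ∀ (r : R) (x : M), ρ (algebraMap R A r) x = algebraMap R k r • x

section
variable {R A Γ k M N S T I J : Type} [CommRing R] [Ring A] [Algebra R A] [Ring Γ] [Algebra R Γ]
  [CommRing k] [Algebra R k] [AddCommGroup M] [Module k M] [AddCommGroup N] [Module k N]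
  [AddCommGroup S] [Module k S] [AddCommGroup T] [Module k T] [Fintype I] [Fintype J]

/-- intertwiners -/
def IsHom (ρ : Rp R A k M) (σ : Rp R A k N) (f : M →ₗ[k] N) : Prop :=
  ∀ a x, f (ρ.ρ a x) = σ.ρ a (f x)

/-- the trace operator of a Frobenius system -/
def FS.tr (c : FS R A I) (ρ : Rp R A k M) (σ : Rp R A k N) (f : M →ₗ[k] N) : M →ₗ[k] N :=
  ∑ i, (σ.ρ (c.b i)) ∘ₗ f ∘ₗ (ρ.ρ (c.b' i))

/-- Higman projective representation -/
def HP (c : FS R A I) (ρ : Rp R A k M) : Prop :=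
  ∃ a : M →ₗ[k] M, c.tr ρ ρ a = LinearMap.id

/-- stably zero linear map -/
def SZ (c : FS R A I) (ρ : Rp R A k M) (σ : Rp R A k N) (f : M →ₗ[k] N) : Prop :=
  ∃ a : M →ₗ[k] N, c.tr ρ σ a = f

/-- restriction along an algebra map -/
def Rp.res (ρ : Rp R A k M) (j : Γ →ₐ[R] A) : Rp R Γ k M where
  ρ := ρ.ρ.comp j.toRingHom
  sc := fun r x => by
    have h : j.toRingHom (algebraMap R Γ r) = algebraMap R A r := j.commutes r
    rw [RingHom.comp_apply, h]
    exact ρ.sc r x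

/-- the underlying space of the coinduced representation `Hom_Γ(A, S)` -/
def Co (j : Γ →ₐ[R] A) (σ : Rp R Γ k S) : Submodule k (A → S) where
  carrier := {f | (∀ x y, f (x + y) = f x + f y) ∧ ∀ γ x, f (j γ * x) = σ.ρ γ (f x)}
  zero_mem' := ⟨fun _ _ => by simp, fun _ _ => by simp⟩
  add_mem' := fun {f g} hf hg => ⟨fun x y => by
      simp only [Pi.add_apply, hf.1, hg.1]; abel, fun γ x => by
      simp only [Pi.add_apply, hf.2, hg.2, map_add]⟩
  smul_mem' := fun c f hf => ⟨fun x y => by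
      simp only [Pi.smul_apply, hf.1, smul_add], fun γ x => by
      simp only [Pi.smul_apply, hf.2, map_smul]⟩

/-- the coinduced representation, `(a f)(x) = f (x a)` -/
def coRp (j : Γ →ₐ[R] A) (σ : Rp R Γ k S) : Rp R A k (Co j σ) where
  ρ :=
    { toFun := fun a =>
        { toFun := fun f => ⟨fun x => f.1 (x * a),
            fun x y => by
              show f.1 ((x + y) * a) = f.1 (x * a) + f.1 (y * a)
              rw [add_mul]; exact f.2.1 _ _,
            fun γ x => by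
              show f.1 (j γ * x * a) = σ.ρ γ (f.1 (x * a))
              rw [mul_assoc]; exact f.2.2 _ _⟩
          map_add' := fun f g => rfl
          map_smul' := fun c f => rfl }
      map_one' := by
        apply LinearMap.ext; intro f; apply Subtype.ext; funext x
        show f.1 (x * 1) = f.1 x
        rw [mul_one]
      map_mul' := fun a b => by
        apply LinearMap.ext; intro f; apply Subtype.ext; funext x
        show f.1 (x * (a * b)) = f.1 (x * a * b)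
        rw [mul_assoc]
      map_zero' := by
        apply LinearMap.ext; intro f; apply Subtype.ext; funext x
        show f.1 (x * 0) = 0
        have h := f.2.1 0 0
        rw [mul_zero]
        rw [add_zero] at h
        exact left_eq_add.mp h
      map_add' := fun a b => by
        apply LinearMap.ext; intro f; apply Subtype.ext; funext x
        show f.1 (x * (a + b)) = f.1 (x * a) + f.1 (x * b)
        rw [mul_add]; exact f.2.1 _ _ }
  sc := fun r f => by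
    apply Subtype.ext; funext x
    show f.1 (x * algebraMap R A r) = algebraMap R k r • f.1 x
    rw [← Algebra.commutes r x]
    have h := f.2.2 (algebraMap R Γ r) x
    rw [j.commutes] at h
    rw [h]; exact σ.sc r _

/-- the underlying space of `Coind(T) / T`: the `Γ`-linear `f : A → T` with `f 1 = 0` -/
def QQ (j : Γ →ₐ[R] A) (τ : Rp R A k T) : Submodule k (A → T) where
  carrier := {f | (∀ x y, f (x + y) = f x + f y) ∧ (∀ γ x, f (j γ * x) = τ.ρ (j γ) (f x)) ∧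
    f 1 = 0}
  zero_mem' := ⟨fun _ _ => by simp, fun _ _ => by simp, rfl⟩
  add_mem' := fun {f g} hf hg => ⟨fun x y => by
      simp only [Pi.add_apply, hf.1, hg.1]; abel, fun γ x => by
      simp only [Pi.add_apply, hf.2.1, hg.2.1, map_add], by
      simp only [Pi.add_apply, hf.2.2, hg.2.2, add_zero]⟩
  smul_mem' := fun c f hf => ⟨fun x y => by
      simp only [Pi.smul_apply, hf.1, smul_add], fun γ x => by
      simp only [Pi.smul_apply, hf.2.1, map_smul], by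
      simp only [Pi.smul_apply, hf.2.2, smul_zero]⟩

/-- the representation on `QQ`, `(a f)(x) = f (x a) - x (f a)` -/
def qqRp (j : Γ →ₐ[R] A) (τ : Rp R A k T) : Rp R A k (QQ j τ) where
  ρ :=
    { toFun := fun a =>
        { toFun := fun f => ⟨fun x => f.1 (x * a) - τ.ρ x (f.1 a),
            fun x y => by
              show f.1 ((x + y) * a) - τ.ρ (x + y) (f.1 a) =
                (f.1 (x * a) - τ.ρ x (f.1 a)) + (f.1 (y * a) - τ.ρ y (f.1 a))
              rw [add_mul, f.2.1, map_add, LinearMap.add_apply]; abel,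
            fun γ x => by
              show f.1 (j γ * x * a) - τ.ρ (j γ * x) (f.1 a) =
                τ.ρ (j γ) (f.1 (x * a) - τ.ρ x (f.1 a))
              rw [mul_assoc, f.2.2.1, map_mul, map_sub]; rfl,
            by
              show f.1 (1 * a) - τ.ρ 1 (f.1 a) = 0
              rw [one_mul, map_one]; exact sub_self _⟩
          map_add' := fun f g => by
            apply Subtype.ext; funext x
            show (f.1 (x * a) + g.1 (x * a)) - τ.ρ x (f.1 a + g.1 a) =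
              (f.1 (x * a) - τ.ρ x (f.1 a)) + (g.1 (x * a) - τ.ρ x (g.1 a))
            rw [map_add]; abel
          map_smul' := fun c f => by
            apply Subtype.ext; funext x
            show (c • f.1 (x * a)) - τ.ρ x (c • f.1 a) =
              c • (f.1 (x * a) - τ.ρ x (f.1 a))
            rw [map_smul, smul_sub] }
      map_one' := by
        apply LinearMap.ext; intro f; apply Subtype.ext; funext x
        show f.1 (x * 1) - τ.ρ x (f.1 1) = f.1 x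
        rw [mul_one, f.2.2.2, map_zero, sub_zero]
      map_mul' := fun a b => by
        apply LinearMap.ext; intro f; apply Subtype.ext; funext x
        show f.1 (x * (a * b)) - τ.ρ x (f.1 (a * b)) =
          (f.1 (x * a * b) - τ.ρ (x * a) (f.1 b)) - τ.ρ x (f.1 (a * b) - τ.ρ a (f.1 b))
        rw [mul_assoc, map_mul, map_sub, Module.End.mul_apply]; abel
      map_zero' := by
        apply LinearMap.ext; intro f; apply Subtype.ext; funext x
        have h := f.2.1 0 0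
        rw [add_zero] at h
        have h0 : f.1 0 = 0 := left_eq_add.mp h
        show f.1 (x * 0) - τ.ρ x (f.1 0) = 0
        rw [mul_zero, h0, map_zero, sub_zero]
      map_add' := fun a b => by
        apply LinearMap.ext; intro f; apply Subtype.ext; funext x
        show f.1 (x * (a + b)) - τ.ρ x (f.1 (a + b)) =
          (f.1 (x * a) - τ.ρ x (f.1 a)) + (f.1 (x * b) - τ.ρ x (f.1 b))
        rw [mul_add, f.2.1, f.2.1, map_add]; abel }
  sc := fun r f => by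
    apply Subtype.ext; funext x
    have h := f.2.2.1 (algebraMap R Γ r) x
    have h' := f.2.2.1 (algebraMap R Γ r) 1
    rw [j.commutes] at h
    rw [j.commutes, mul_one, f.2.2.2, map_zero] at h'
    show f.1 (x * algebraMap R A r) - τ.ρ x (f.1 (algebraMap R A r)) = algebraMap R k r • f.1 x
    rw [← Algebra.commutes r x, h, h', map_zero, sub_zero]
    exact τ.sc r _

/-- `A = Γ ⊕ P` with `P` a (Higman) projective `Γ`-bimodule: `x ↦ x - j (pr x)` is the projector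
onto `P`, and it is a two-sided trace. -/
structure Split (c : FS R Γ I) (A : Type) [Ring A] [Algebra R A] where
  j : Γ →ₐ[R] A
  pr : A →ₗ[R] Γ
  pr_j : ∀ γ, pr (j γ) = γ
  pr_l : ∀ γ x, pr (j γ * x) = γ * pr x
  pr_r : ∀ x γ, pr (x * j γ) = pr x * γ
  a : A →ₗ[R] A
  a_id : ∀ x, ∑ i, ∑ l, j (c.b i) * a (j (c.b' i) * x * j (c.b l)) * j (c.b' l) = x - j (pr x)

/-- relative separability of `A` over (the image of) `Γ` -/
structure Sep (Γ A K : Type) [Ring Γ] [Ring A] [Fintype K] (j : Γ →+* A) where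
  u : K → A
  v : K → A
  one : ∑ i, u i * v i = 1
  bal : ∀ (X : Type) [AddCommGroup X] (B : A →+ A →+ X),
    (∀ x γ y, B (x * j γ) y = B x (j γ * y)) →
    ∀ x, ∑ i, B (x * u i) (v i) = ∑ i, B (u i) (v i * x)

end

end Pool.Agent.PFC.B1
end -- Pool.Agent.PFC.DefsB1

section -- Pool.Agent.PFC.StmtsB1

/-!
Squad PFC, part B1 (helper51): statements of the rows.
`PowerSeries F` is the ring `R = F[[t]]`, `t = PowerSeries.X`.
-/

namespace Pool.Agent.PFC.B1

open MulOpposite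

/-! ### Part 1: Casimir calculus -/

/-- CAS: the Casimir identity for balanced (here: `R`-bilinear) maps. -/
def CasStmt : Prop :=
  ∀ (R A I X : Type) [CommRing R] [Ring A] [Algebra R A] [Fintype I] [AddCommGroup X] [Module R X]
    (c : FS R A I) (B : A →ₗ[R] A →ₗ[R] X) (x : A),
    ∑ i, B (x * c.b i) (c.b' i) = ∑ i, B (c.b i) (c.b' i * x)

/-- TRH: the trace operator gives intertwiners and is compatible with intertwiners. -/
def TrhStmt : Prop :=
  (∀ (R A I k M N : Type) [CommRing R] [Ring A] [Algebra R A] [Fintype I] [CommRing k]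
    [Algebra R k] [AddCommGroup M] [Module k M] [AddCommGroup N] [Module k N]
    (c : FS R A I) (ρ : Rp R A k M) (σ : Rp R A k N) (f : M →ₗ[k] N),
    IsHom ρ σ (c.tr ρ σ f)) ∧
  (∀ (R A I k M N M' N' : Type) [CommRing R] [Ring A] [Algebra R A] [Fintype I] [CommRing k]
    [Algebra R k] [AddCommGroup M] [Module k M] [AddCommGroup N] [Module k N]
    [AddCommGroup M'] [Module k M'] [AddCommGroup N'] [Module k N']
    (c : FS R A I) (ρ : Rp R A k M) (σ : Rp R A k N) (ρ' : Rp R A k M') (σ' : Rp R A k N')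
    (f : M →ₗ[k] N) (g : M' →ₗ[k] M) (h : N →ₗ[k] N'),
    IsHom ρ' ρ g → IsHom σ σ' h → h ∘ₗ c.tr ρ σ f ∘ₗ g = c.tr ρ' σ' (h ∘ₗ f ∘ₗ g))

/-- PIN: Higman projective representations are projective and injective relative to `k`,
and retracts of HP are HP. -/
def PinStmt : Prop :=
  (∀ (R A I k M N X : Type) [CommRing R] [Ring A] [Algebra R A] [Fintype I] [CommRing k]
    [Algebra R k] [AddCommGroup M] [Module k M] [AddCommGroup N] [Module k N]
    [AddCommGroup X] [Module k X] (c : FS R A I) (ρ : Rp R A k M) (σ : Rp R A k N)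
    (τ : Rp R A k X), HP c ρ →
    (∀ (p : X →ₗ[k] N) (s : N →ₗ[k] X) (f : M →ₗ[k] N), IsHom τ σ p → p ∘ₗ s = LinearMap.id →
      IsHom ρ σ f → ∃ g : M →ₗ[k] X, IsHom ρ τ g ∧ p ∘ₗ g = f) ∧
    (∀ (i : N →ₗ[k] X) (r : X →ₗ[k] N) (f : N →ₗ[k] M), IsHom σ τ i → r ∘ₗ i = LinearMap.id →
      IsHom σ ρ f → ∃ g : X →ₗ[k] M, IsHom τ ρ g ∧ g ∘ₗ i = f)) ∧
  (∀ (R A I k M N : Type) [CommRing R] [Ring A] [Algebra R A] [Fintype I] [CommRing k]
    [Algebra R k] [AddCommGroup M] [Module k M] [AddCommGroup N] [Module k N]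
    (c : FS R A I) (ρ : Rp R A k M) (σ : Rp R A k N) (i : N →ₗ[k] M) (p : M →ₗ[k] N),
    IsHom σ ρ i → IsHom ρ σ p → p ∘ₗ i = LinearMap.id → HP c ρ → HP c σ)

/-- UNI: an endomorphism of a finite `F[[t]]`-module congruent to the identity modulo `t` is
bijective. -/
def UniStmt : Prop :=
  ∀ (F M : Type) [Field F] [AddCommGroup M] [Module (PowerSeries F) M]
    [Module.Finite (PowerSeries F) M] (u : M →ₗ[PowerSeries F] M),
    (∀ x, ∃ y, u x - x = (PowerSeries.X : PowerSeries F) • y) → Function.Bijective u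

/-- HPL: Higman projectivity modulo `t` lifts. -/
def HplStmt : Prop :=
  ∀ (F A I M : Type) [Field F] [Ring A] [Algebra (PowerSeries F) A] [Fintype I]
    [AddCommGroup M] [Module (PowerSeries F) M] [Module.Finite (PowerSeries F) M]
    (c : FS (PowerSeries F) A I) (ρ : Rp (PowerSeries F) A (PowerSeries F) M)
    (a : M →ₗ[PowerSeries F] M),
    (∀ x, ∃ y, c.tr ρ ρ a x - x = (PowerSeries.X : PowerSeries F) • y) → HP c ρ

/-- RES: restriction to `Γ` preserves HP. -/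
def ResStmt : Prop :=
  ∀ (R Γ A I J k T : Type) [CommRing R] [Ring Γ] [Algebra R Γ] [Ring A] [Algebra R A]
    [Fintype I] [Fintype J] [CommRing k] [Algebra R k] [AddCommGroup T] [Module k T]
    (c : FS R Γ I) (d : FS R A J) (sp : Split c A) (τ : Rp R A k T),
    HP d τ → HP c (τ.res sp.j)

/-- COH: coinduction preserves HP. -/
def CohStmt : Prop :=
  ∀ (R Γ A I J k S : Type) [CommRing R] [Ring Γ] [Algebra R Γ] [Ring A] [Algebra R A]
    [Fintype I] [Fintype J] [CommRing k] [Algebra R k] [AddCommGroup S] [Module k S]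
    (c : FS R Γ I) (d : FS R A J) (j : Γ →ₐ[R] A) (σ : Rp R Γ k S),
    HP c σ → HP d (coRp j σ)

/-- COS: `σ` is a direct summand of the restriction of its coinduced representation. -/
def CosStmt : Prop :=
  ∀ (R Γ A I k S : Type) [CommRing R] [Ring Γ] [Algebra R Γ] [Ring A] [Algebra R A]
    [Fintype I] [CommRing k] [Algebra R k] [AddCommGroup S] [Module k S]
    (c : FS R Γ I) (sp : Split c A) (σ : Rp R Γ k S),
    ∃ (i : S →ₗ[k] Co sp.j σ) (p : Co sp.j σ →ₗ[k] S),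
      IsHom σ ((coRp sp.j σ).res sp.j) i ∧ IsHom ((coRp sp.j σ).res sp.j) σ p ∧
      (∀ f, p f = f.1 1) ∧ p ∘ₗ i = LinearMap.id

/-- QEX: the exact sequence `0 → T → Coind T → QQ T → 0`. -/
def QexStmt : Prop :=
  ∀ (R Γ A k T : Type) [CommRing R] [Ring Γ] [Algebra R Γ] [Ring A] [Algebra R A]
    [CommRing k] [Algebra R k] [AddCommGroup T] [Module k T]
    (j : Γ →ₐ[R] A) (τ : Rp R A k T),
    ∃ (ι : T →ₗ[k] Co j (τ.res j)) (π : Co j (τ.res j) →ₗ[k] QQ j τ)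
      (s : QQ j τ →ₗ[k] Co j (τ.res j)),
      IsHom τ (coRp j (τ.res j)) ι ∧ IsHom (coRp j (τ.res j)) (qqRp j τ) π ∧
      (∀ t x, (ι t).1 x = τ.ρ x t) ∧ (∀ f x, (π f).1 x = f.1 x - τ.ρ x (f.1 1)) ∧
      (∀ f x, (s f).1 x = f.1 x) ∧ Function.Injective ι ∧ π ∘ₗ s = LinearMap.id ∧
      LinearMap.ker π = LinearMap.range ι

/-! ### Part 2: successive approximation, idempotents, lifting of the bimodule -/

/-- SUC: successive approximation over `F[[t]]`. -/
def SucStmt : Prop :=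
  ∀ (F M : Type) [Field F] [AddCommGroup M] [Module (PowerSeries F) M]
    [Module.Finite (PowerSeries F) M] [Module.Free (PowerSeries F) M] (P : ℕ → M → Prop),
    (∀ n x z, P n x → P n (x + (PowerSeries.X : PowerSeries F) ^ n • z)) →
    (∀ n x, 1 ≤ n → P n x → ∃ z, P (n + 1) (x + (PowerSeries.X : PowerSeries F) ^ n • z)) →
    ∀ x, P 1 x → ∃ z, ∀ n, 1 ≤ n → P n (x + (PowerSeries.X : PowerSeries F) • z)

/-- IDL: lifting of idempotent endomorphisms commuting with a given set of endomorphisms. -/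
def IdlStmt : Prop :=
  ∀ (F M : Type) [Field F] [AddCommGroup M] [Module (PowerSeries F) M]
    [Module.Finite (PowerSeries F) M] [Module.Free (PowerSeries F) M]
    (S : Set (Module.End (PowerSeries F) M)) (e : Module.End (PowerSeries F) M),
    (∀ s ∈ S, s * e = e * s) → (∀ x, ∃ y, e (e x) - e x = (PowerSeries.X : PowerSeries F) • y) →
    ∃ g : Module.End (PowerSeries F) M, g * g = g ∧ (∀ s ∈ S, s * g = g * s) ∧
      ∀ x, ∃ y, g x - e x = (PowerSeries.X : PowerSeries F) • y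

/-- bimodules over `Γ` (`R`-central), as commuting algebra maps to the endomorphism ring;
`rm (op γ) x` is `x γ`. -/
structure BiM (R Γ P : Type) [CommRing R] [Ring Γ] [Algebra R Γ] [AddCommGroup P]
    [Module R P] where
  lm : Γ →ₐ[R] Module.End R P
  rm : Γᵐᵒᵖ →ₐ[R] Module.End R P
  comm : ∀ a b x, lm a (rm b x) = rm b (lm a x)

/-- the residue level: an `F[[t]]`-algebra `A` killed by `t` with a map `j : Γ → A` (kernel
`t Γ`), the projector `e` onto the image of `j` with complement the bimodule `P0 = ker e`, and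
the Higman operator `a` of `P0`. -/
structure Res (F Γ A I : Type) [Field F] [Ring Γ] [Algebra (PowerSeries F) Γ] [Ring A]
    [Algebra (PowerSeries F) A] [Fintype I] (c : FS (PowerSeries F) Γ I) where
  j : Γ →ₐ[PowerSeries F] A
  hX : algebraMap (PowerSeries F) A PowerSeries.X = 0
  hj : ∀ γ, j γ = 0 → ∃ γ', γ = (PowerSeries.X : PowerSeries F) • γ'
  e : A →ₗ[PowerSeries F] A
  e1 : ∀ x, ∃ γ, e x = j γ
  e2 : ∀ γ, e (j γ) = j γ
  e3 : ∀ γ x, e (j γ * x) = j γ * e x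
  e4 : ∀ γ x, e (x * j γ) = e x * j γ
  a : A →ₗ[PowerSeries F] A
  a_id : ∀ x, ∑ i, ∑ l, j (c.b i) * a (j (c.b' i) * x * j (c.b l)) * j (c.b' l) = x - e x

/-- a lift `P` over `F[[t]]` of the bimodule `P0 = ker e` -/
structure PL (F Γ A I P : Type) [Field F] [Ring Γ] [Algebra (PowerSeries F) Γ] [Ring A]
    [Algebra (PowerSeries F) A] [Fintype I] (c : FS (PowerSeries F) Γ I) (D : Res F Γ A I c)
    [AddCommGroup P] [Module (PowerSeries F) P] extends BiM (PowerSeries F) Γ P where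
  q : P →ₗ[PowerSeries F] A
  q1 : ∀ γ x, q (lm γ x) = D.j γ * q x
  q2 : ∀ γ x, q (rm (op γ) x) = q x * D.j γ
  q3 : ∀ x, D.e (q x) = 0
  q4 : ∀ y, D.e y = 0 → ∃ x, q x = y
  q5 : ∀ x, q x = 0 → ∃ y, x = (PowerSeries.X : PowerSeries F) • y
  a' : P →ₗ[PowerSeries F] P
  a'_id : ∀ x, q (∑ i, ∑ l, lm (c.b i) (rm (op (c.b' l))
    (a' (lm (c.b' i) (rm (op (c.b l)) x))))) = q x

/-- PLF: the projective bimodule lifts. -/
def PlfStmt : Prop :=
  ∀ (F Γ A I : Type) [Field F] [Ring Γ] [Algebra (PowerSeries F) Γ]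
    [Module.Finite (PowerSeries F) Γ] [Module.Free (PowerSeries F) Γ] [Ring A]
    [Algebra (PowerSeries F) A] [Module.Finite (PowerSeries F) A] [Fintype I]
    (c : FS (PowerSeries F) Γ I) (D : Res F Γ A I c),
    ∃ (P : Type) (_ : AddCommGroup P) (_ : Module (PowerSeries F) P)
      (_ : Module.Finite (PowerSeries F) P) (_ : Module.Free (PowerSeries F) P),
      Nonempty (PL F Γ A I P c D)

/-! ### Part 3: lifting the multiplication -/

section
variable {R Γ P : Type} [CommRing R] [Ring Γ] [Algebra R Γ] [AddCommGroup P] [Module R P]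

/-- left action of `Γ` on `Γ × P` -/
def BiM.la (B : BiM R Γ P) (γ : Γ) (x : Γ × P) : Γ × P := (γ * x.1, B.lm γ x.2)

/-- right action of `Γ` on `Γ × P` -/
def BiM.ra (B : BiM R Γ P) (x : Γ × P) (γ : Γ) : Γ × P := (x.1 * γ, B.rm (op γ) x.2)

/-- balanced bilinear maps `P × P → Γ × P` -/
def BiM.Bal (B : BiM R Γ P) (β : P →ₗ[R] P →ₗ[R] Γ × P) : Prop :=
  (∀ γ p p', β (B.lm γ p) p' = B.la γ (β p p')) ∧
  (∀ γ p p', β (B.rm (op γ) p) p' = β p (B.lm γ p')) ∧
  (∀ γ p p', β p (B.rm (op γ) p') = B.ra (β p p') γ)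

/-- the multiplication on `Γ × P` given by `β` -/
def BiM.mu (B : BiM R Γ P) (β : P →ₗ[R] P →ₗ[R] Γ × P) (x y : Γ × P) : Γ × P :=
  (x.1 * y.1, B.lm x.1 y.2 + B.rm (op y.1) x.2) + β x.2 y.2

/-- the associator -/
def BiM.as (B : BiM R Γ P) (β : P →ₗ[R] P →ₗ[R] Γ × P) (x y z : Γ × P) : Γ × P :=
  B.mu β (B.mu β x y) z - B.mu β x (B.mu β y z)

end

/-- the map `Γ × P → A` -/
noncomputable def PL.qq {F Γ A I P : Type} [Field F] [Ring Γ] [Algebra (PowerSeries F) Γ] [Ring A]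
    [Algebra (PowerSeries F) A] [Fintype I] {c : FS (PowerSeries F) Γ I} {D : Res F Γ A I c}
    [AddCommGroup P] [Module (PowerSeries F) P] (L : PL F Γ A I P c D) (x : Γ × P) : A :=
  D.j x.1 + L.q x.2

/-- LFB: a balanced bilinear map to `A` lifts to a balanced bilinear map to `Γ × P`. -/
def LfbStmt : Prop :=
  ∀ (F Γ A I P : Type) [Field F] [Ring Γ] [Algebra (PowerSeries F) Γ]
    [Module.Finite (PowerSeries F) Γ] [Module.Free (PowerSeries F) Γ] [Ring A]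
    [Algebra (PowerSeries F) A] [Fintype I]
    (c : FS (PowerSeries F) Γ I) (D : Res F Γ A I c)
    [AddCommGroup P] [Module (PowerSeries F) P] [Module.Finite (PowerSeries F) P]
    [Module.Free (PowerSeries F) P] (L : PL F Γ A I P c D)
    (β0 : P →ₗ[PowerSeries F] P →ₗ[PowerSeries F] A),
    (∀ γ p p', β0 (L.lm γ p) p' = D.j γ * β0 p p') →
    (∀ γ p p', β0 (L.rm (op γ) p) p' = β0 p (L.lm γ p')) →
    (∀ γ p p', β0 p (L.rm (op γ) p') = β0 p p' * D.j γ) →
    ∃ β : P →ₗ[PowerSeries F] P →ₗ[PowerSeries F] Γ × P, L.toBiM.Bal β ∧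
      ∀ p p', L.qq (β p p') = β0 p p'

/-- PEN: general identities for balanced `β`: the associator is balanced in all places, vanishes
if one of the arguments is in `Γ`, and satisfies the pentagon identity. -/
def PenStmt : Prop :=
  ∀ (R Γ P : Type) [CommRing R] [Ring Γ] [Algebra R Γ] [AddCommGroup P] [Module R P]
    (B : BiM R Γ P) (β : P →ₗ[R] P →ₗ[R] Γ × P), B.Bal β →
    (∀ γ y z, B.as β (γ, 0) y z = 0) ∧ (∀ γ x z, B.as β x (γ, 0) z = 0) ∧
    (∀ γ x y, B.as β x y (γ, 0) = 0) ∧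
    (∀ γ x y z, B.as β (B.la γ x) y z = B.la γ (B.as β x y z)) ∧
    (∀ γ x y z, B.as β (B.ra x γ) y z = B.as β x (B.la γ y) z) ∧
    (∀ γ x y z, B.as β x (B.ra y γ) z = B.as β x y (B.la γ z)) ∧
    (∀ γ x y z, B.as β x y (B.ra z γ) = B.ra (B.as β x y z) γ) ∧
    (∀ x y z u, B.mu β (B.as β x y z) u + B.as β x (B.mu β y z) u +
      B.mu β x (B.as β y z u) = B.as β (B.mu β x y) z u + B.as β x y (B.mu β z u))

/-- STP: one step of the lifting of the multiplication. -/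
def StpStmt : Prop :=
  ∀ (F Γ A I K P : Type) [Field F] [Ring Γ] [Algebra (PowerSeries F) Γ]
    [Module.Finite (PowerSeries F) Γ] [Module.Free (PowerSeries F) Γ] [Ring A]
    [Algebra (PowerSeries F) A] [Fintype I] [Fintype K]
    (c : FS (PowerSeries F) Γ I) (D : Res F Γ A I c) (_ : Sep Γ A K D.j.toRingHom)
    [AddCommGroup P] [Module (PowerSeries F) P] [Module.Finite (PowerSeries F) P]
    [Module.Free (PowerSeries F) P] (L : PL F Γ A I P c D)
    (β : P →ₗ[PowerSeries F] P →ₗ[PowerSeries F] Γ × P) (n : ℕ), 1 ≤ n → L.toBiM.Bal β →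
    (∀ p p', L.qq (β p p') = L.q p * L.q p') →
    (∀ x y z, ∃ w, L.toBiM.as β x y z = (PowerSeries.X : PowerSeries F) ^ n • w) →
    ∃ ν : P →ₗ[PowerSeries F] P →ₗ[PowerSeries F] Γ × P, L.toBiM.Bal ν ∧
      (∀ x y z, ∃ w, L.toBiM.as (β + (PowerSeries.X : PowerSeries F) ^ n • ν) x y z =
        (PowerSeries.X : PowerSeries F) ^ (n + 1) • w)

/-- ALG: the multiplication lifts. -/
def AlgStmt : Prop :=
  ∀ (F Γ A I K P : Type) [Field F] [Ring Γ] [Algebra (PowerSeries F) Γ]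
    [Module.Finite (PowerSeries F) Γ] [Module.Free (PowerSeries F) Γ] [Ring A]
    [Algebra (PowerSeries F) A] [Fintype I] [Fintype K]
    (c : FS (PowerSeries F) Γ I) (D : Res F Γ A I c) (_ : Sep Γ A K D.j.toRingHom)
    [AddCommGroup P] [Module (PowerSeries F) P] [Module.Finite (PowerSeries F) P]
    [Module.Free (PowerSeries F) P] (L : PL F Γ A I P c D),
    ∃ β : P →ₗ[PowerSeries F] P →ₗ[PowerSeries F] Γ × P, L.toBiM.Bal β ∧
      (∀ x y z, L.toBiM.as β x y z = 0) ∧ ∀ p p', L.qq (β p p') = L.q p * L.q p'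

/-- RNG: an associative balanced `β` gives an algebra `A'` with `Γ → A'` split. -/
def RngStmt : Prop :=
  ∀ (R Γ P : Type) [CommRing R] [Ring Γ] [Algebra R Γ] [AddCommGroup P] [Module R P]
    (B : BiM R Γ P) (β : P →ₗ[R] P →ₗ[R] Γ × P), B.Bal β → (∀ x y z, B.as β x y z = 0) →
    ∃ (A' : Type) (_ : Ring A') (_ : Algebra R A') (φ : (Γ × P) ≃ₗ[R] A'),
      φ (1, 0) = 1 ∧ (∀ x y, φ (B.mu β x y) = φ x * φ y)

/-- USE: the Higman identity for `P` modulo `t` becomes exact after a change of the operator. -/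
def UseStmt : Prop :=
  ∀ (F Γ A I P : Type) [Field F] [Ring Γ] [Algebra (PowerSeries F) Γ]
    [Module.Finite (PowerSeries F) Γ] [Module.Free (PowerSeries F) Γ] [Ring A]
    [Algebra (PowerSeries F) A] [Fintype I]
    (c : FS (PowerSeries F) Γ I) (D : Res F Γ A I c)
    [AddCommGroup P] [Module (PowerSeries F) P] [Module.Finite (PowerSeries F) P]
    [Module.Free (PowerSeries F) P] (L : PL F Γ A I P c D),
    ∃ a : P →ₗ[PowerSeries F] P, ∀ x, ∑ i, ∑ l, L.lm (c.b i) (L.rm (op (c.b' l))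
      (a (L.lm (c.b' i) (L.rm (op (c.b l)) x)))) = x

/-! ### Part 4: the deformed algebra -/

/-- the special fibre map `q : A' → A` of an `F[[t]]`-algebra onto an `F`-algebra -/
structure Fib (F A' A : Type) [Field F] [Ring A'] [Algebra (PowerSeries F) A'] [Ring A]
    [Algebra F A] where
  q : A' →+* A
  sc : ∀ r : PowerSeries F,
    q (algebraMap (PowerSeries F) A' r) = algebraMap F A (PowerSeries.constantCoeff r)
  surj : Function.Surjective q
  ker : ∀ x, q x = 0 → ∃ y, x = (PowerSeries.X : PowerSeries F) • y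

/-- FSL: a Frobenius system of the special fibre lifts. -/
def FslStmt : Prop :=
  ∀ (F A' A J : Type) [Field F] [Ring A'] [Algebra (PowerSeries F) A']
    [Module.Finite (PowerSeries F) A'] [Module.Free (PowerSeries F) A'] [Ring A] [Algebra F A]
    [Fintype J] (_ : Fib F A' A) (_ : FS F A J),
    ∃ (J' : Type) (_ : Fintype J'), Nonempty (FS (PowerSeries F) A' J')

/-- CNV: change of the Frobenius system in the Higman identity of the complement. -/
def CnvStmt : Prop :=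
  ∀ (F Γ Γ0 A I I0 : Type) [Field F] [Ring Γ] [Algebra (PowerSeries F) Γ] [Ring Γ0]
    [Algebra F Γ0] [Ring A] [Algebra F A] [Fintype I] [Fintype I0]
    (c : FS (PowerSeries F) Γ I) (c0 : FS F Γ0 I0) (f : Fib F Γ Γ0) (sp : Split c0 A),
    ∃ a : A →ₗ[F] A, ∀ x, ∑ i, ∑ l, sp.j (f.q (c.b i)) *
      a (sp.j (f.q (c.b' i)) * x * sp.j (f.q (c.b l))) * sp.j (f.q (c.b' l)) =
        x - sp.j (sp.pr x)

/-- the full deformation data of `(Γ0 → A)` along `Γ` -/
structure Dfm (F Γ Γ0 A A' I I0 J' : Type) [Field F] [Ring Γ] [Algebra (PowerSeries F) Γ]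
    [Ring Γ0] [Algebra F Γ0] [Ring A] [Algebra F A] [Ring A'] [Algebra (PowerSeries F) A']
    [Fintype I] [Fintype I0] [Fintype J']
    (c : FS (PowerSeries F) Γ I) (c0 : FS F Γ0 I0) (f : Fib F Γ Γ0) (sp0 : Split c0 A) where
  d : FS (PowerSeries F) A' J'
  sp : Split c A'
  fb : Fib F A' A
  cj : ∀ γ, fb.q (sp.j γ) = sp0.j (f.q γ)
  cp : ∀ x, sp0.pr (fb.q x) = f.q (sp.pr x)

/-- EXI: existence of the deformation. -/
def ExiStmt : Prop :=
  ∀ (F Γ Γ0 A I I0 J K : Type) [Field F] [Ring Γ] [Algebra (PowerSeries F) Γ]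
    [Module.Finite (PowerSeries F) Γ] [Module.Free (PowerSeries F) Γ]
    [Ring Γ0] [Algebra F Γ0] [Ring A] [Algebra F A] [Module.Finite F A]
    [Fintype I] [Fintype I0] [Fintype J] [Fintype K]
    (c : FS (PowerSeries F) Γ I) (c0 : FS F Γ0 I0) (f : Fib F Γ Γ0) (sp0 : Split c0 A)
    (_ : Sep Γ0 A K sp0.j.toRingHom) (_ : FS F A J),
    ∃ (A' J' : Type) (_ : Ring A') (_ : Algebra (PowerSeries F) A')
      (_ : Module.Finite (PowerSeries F) A') (_ : Module.Free (PowerSeries F) A')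
      (_ : Fintype J'), Nonempty (Dfm F Γ Γ0 A A' I I0 J' c c0 f sp0)

/-- ZID: the operator on `QQ` given by relative separability of the special fibre is a Higman
operator modulo `t` (for a representation over any commutative `F[[t]]`-algebra `k`, pointwise
modulo `t T`).  The operator is `f ↦ z (f ∘ b)`, with `b : A' → A'` left `Γ`-linear. -/
def ZidStmt : Prop :=
  ∀ (F Γ Γ0 A A' I I0 J' K : Type) [Field F] [Ring Γ] [Algebra (PowerSeries F) Γ]
    [Ring Γ0] [Algebra F Γ0] [Ring A] [Algebra F A] [Ring A'] [Algebra (PowerSeries F) A']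
    [Fintype I] [Fintype I0] [Fintype J'] [Fintype K]
    (c : FS (PowerSeries F) Γ I) (c0 : FS F Γ0 I0) (f : Fib F Γ Γ0) (sp0 : Split c0 A)
    (_ : Sep Γ0 A K sp0.j.toRingHom) (D : Dfm F Γ Γ0 A A' I I0 J' c c0 f sp0),
    ∃ (z : A') (b : A' →ₗ[PowerSeries F] A'),
      (∀ γ x, b (D.sp.j γ * x) = D.sp.j γ * b x) ∧ b 1 = 0 ∧
      ∀ (k T : Type) [CommRing k] [Algebra (PowerSeries F) k] [AddCommGroup T] [Module k T]
        (τ : Rp (PowerSeries F) A' k T) (a : QQ D.sp.j τ →ₗ[k] QQ D.sp.j τ)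
        (_ : ∀ g x, (a g).1 x = g.1 (b (x * z)) - τ.ρ x (g.1 (b z))),
        ∀ g x, ∃ y, (D.d.tr (qqRp D.sp.j τ) (qqRp D.sp.j τ) a g).1 x - g.1 x =
          algebraMap (PowerSeries F) k PowerSeries.X • y

/-- QHR: `QQ T` is Higman projective for lattices `T`. -/
def QhrStmt : Prop :=
  ∀ (F Γ Γ0 A A' I I0 J' K T : Type) [Field F] [Ring Γ] [Algebra (PowerSeries F) Γ]
    [Ring Γ0] [Algebra F Γ0] [Ring A] [Algebra F A] [Ring A'] [Algebra (PowerSeries F) A']
    [Module.Finite (PowerSeries F) A'] [Module.Free (PowerSeries F) A']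
    [Fintype I] [Fintype I0] [Fintype J'] [Fintype K]
    (c : FS (PowerSeries F) Γ I) (c0 : FS F Γ0 I0) (f : Fib F Γ Γ0) (sp0 : Split c0 A)
    (_ : Sep Γ0 A K sp0.j.toRingHom) (D : Dfm F Γ Γ0 A A' I I0 J' c c0 f sp0)
    [AddCommGroup T] [Module (PowerSeries F) T] [Module.Finite (PowerSeries F) T]
    [Module.Free (PowerSeries F) T] (τ : Rp (PowerSeries F) A' (PowerSeries F) T),
    HP D.d (qqRp D.sp.j τ)

/-- QHK: `QQ T` is Higman projective for finite dimensional representations over the fraction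
field. -/
def QhkStmt : Prop :=
  ∀ (F Γ Γ0 A A' I I0 J' K L T : Type) [Field F] [Ring Γ] [Algebra (PowerSeries F) Γ]
    [Ring Γ0] [Algebra F Γ0] [Ring A] [Algebra F A] [Ring A'] [Algebra (PowerSeries F) A']
    [Module.Finite (PowerSeries F) A'] [Module.Free (PowerSeries F) A']
    [Fintype I] [Fintype I0] [Fintype J'] [Fintype K]
    (c : FS (PowerSeries F) Γ I) (c0 : FS F Γ0 I0) (f : Fib F Γ Γ0) (sp0 : Split c0 A)
    (_ : Sep Γ0 A K sp0.j.toRingHom) (D : Dfm F Γ Γ0 A A' I I0 J' c c0 f sp0)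
    [Field L] [Algebra (PowerSeries F) L] [IsFractionRing (PowerSeries F) L]
    [AddCommGroup T] [Module L T] [Module.Finite L T] (τ : Rp (PowerSeries F) A' L T),
    HP D.d (qqRp D.sp.j τ)

/-- LAT: existence of invariant lattices in finite dimensional representations over the fraction
field. -/
def LatStmt : Prop :=
  ∀ (F A' L T : Type) [Field F] [Ring A'] [Algebra (PowerSeries F) A']
    [Module.Finite (PowerSeries F) A']
    [Field L] [Algebra (PowerSeries F) L] [IsFractionRing (PowerSeries F) L]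
    [AddCommGroup T] [Module L T] [Module.Finite L T] (τ : Rp (PowerSeries F) A' L T),
    ∃ (T' : Type) (_ : AddCommGroup T') (_ : Module (PowerSeries F) T')
      (_ : Module.Finite (PowerSeries F) T') (_ : Module.Free (PowerSeries F) T')
      (τ' : Rp (PowerSeries F) A' (PowerSeries F) T') (i : T' →+ T),
      Function.Injective i ∧
      (∀ (r : PowerSeries F) x, i (r • x) = algebraMap (PowerSeries F) L r • i x) ∧
      (∀ a x, i (τ'.ρ a x) = τ.ρ a (i x)) ∧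
      ∀ t : T, ∃ (n : ℕ) (x : T'), algebraMap (PowerSeries F) L PowerSeries.X ^ n • t = i x

/-- INP: from the output `SExt` of part (0) (`DefsP.lean`) to the input of the deformation. -/
def InpStmt : Prop :=
  ∀ (F A G : Type) [Field F] [Ring A] [Algebra F A] [Group G] [Fintype G] (α : G →* A),
    Pool.Agent.PFC.SExt F α →
    ∃ (c0 : FS F (MonoidAlgebra F G) G) (sp : Split c0 A),
      (∀ g, c0.b g = MonoidAlgebra.of F G g) ∧ (∀ g, c0.b' g = MonoidAlgebra.of F G g⁻¹) ∧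
      (∀ g, sp.j (MonoidAlgebra.of F G g) = α g) ∧
      (∃ (K : Type) (_ : Fintype K), Nonempty (Sep (MonoidAlgebra F G) A K sp.j.toRingHom)) ∧
      ∃ (J : Type) (_ : Fintype J), Nonempty (FS F A J)

end Pool.Agent.PFC.B1
end -- Pool.Agent.PFC.StmtsB1

section -- Pool.Agent.PFD.DefsD2

/-!
Squad PFD, part D2 (helper51): lifting over a complete discrete valuation ring.
Definitions.  The basic notions (`FS`, `Rp`, `Split`, `Sep`, `BiM`, `Bal`, `mu`, `as`) are those of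
`PFC/DefsB1.lean`, `PFC/StmtsB1.lean`.
-/

namespace Pool.Agent.PFD.D2

open MulOpposite
open Pool.Agent.PFC.B1 (BiM)

/-- `R` is complete for the powers of the nonzero divisor `π`, local, with residue map `κ`. -/
structure Cdv (R F : Type) [CommRing R] [Field F] where
  π : R
  κ : R →+* F
  surj : Function.Surjective κ
  ker : ∀ r, κ r = 0 ↔ ∃ s, r = π * s
  reg : ∀ r, π * r = 0 → r = 0
  loc : ∀ r, κ r ≠ 0 → IsUnit r
  sep : ∀ r, (∀ n : ℕ, ∃ s, r = π ^ n * s) → r = 0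
  cpl : ∀ u : ℕ → R, ∃ r, ∀ n : ℕ, ∃ s, r - ∑ i ∈ Finset.range n, π ^ i * u i = π ^ n * s

section
variable {R Γ X N : Type} [CommRing R] [Ring Γ] [Algebra R Γ] [AddCommGroup X] [Module R X]
  [AddCommGroup N] [Module R N]

/-- `Γ` as a bimodule over itself -/
def regB (R Γ : Type) [CommRing R] [Ring Γ] [Algebra R Γ] : BiM R Γ Γ where
  lm := Algebra.lmul R Γ
  rm :=
    { toFun := fun a => LinearMap.mulRight R a.unop
      map_one' := by ext x; simp
      map_mul' := fun a b => by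
        ext x
        show x * (a * b).unop = x * b.unop * a.unop
        rw [unop_mul, mul_assoc]
      map_zero' := by ext x; simp
      map_add' := fun a b => by ext x; simp [mul_add]
      commutes' := fun r => by
        ext x
        show x * (algebraMap R Γᵐᵒᵖ r).unop = r • x
        rw [MulOpposite.algebraMap_apply, unop_op, ← Algebra.commutes, Algebra.smul_def] }
  comm := fun a b x => by
    show a * (x * b.unop) = a * x * b.unop
    rw [mul_assoc]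

/-- bimodule homomorphisms -/
def BHom (BX : BiM R Γ X) (BN : BiM R Γ N) (g : X →ₗ[R] N) : Prop :=
  (∀ γ x, g (BX.lm γ x) = BN.lm γ (g x)) ∧ (∀ γ x, g (BX.rm γ x) = BN.rm γ (g x))

/-- balanced bilinear maps `X × X → N` -/
def Bal2 (BX : BiM R Γ X) (BN : BiM R Γ N) (β : X →ₗ[R] X →ₗ[R] N) : Prop :=
  (∀ γ x y, β (BX.lm γ x) y = BN.lm γ (β x y)) ∧
  (∀ γ x y, β (BX.rm (op γ) x) y = β x (BX.lm γ y)) ∧
  (∀ γ x y, β x (BX.rm γ y) = BN.rm γ (β x y))

/-- bimodule homomorphisms modulo `p` -/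
def BHomP (p : R) (BX : BiM R Γ X) (BN : BiM R Γ N) (g : X →ₗ[R] N) : Prop :=
  (∀ γ x, ∃ n, g (BX.lm γ x) - BN.lm γ (g x) = p • n) ∧
  (∀ γ x, ∃ n, g (BX.rm γ x) - BN.rm γ (g x) = p • n)

/-- balanced bilinear maps modulo `p` -/
def Bal2P (p : R) (BX : BiM R Γ X) (BN : BiM R Γ N) (β : X →ₗ[R] X →ₗ[R] N) : Prop :=
  (∀ γ x y, ∃ n, β (BX.lm γ x) y - BN.lm γ (β x y) = p • n) ∧
  (∀ γ x y, ∃ n, β (BX.rm (op γ) x) y - β x (BX.lm γ y) = p • n) ∧
  (∀ γ x y, ∃ n, β x (BX.rm γ y) - BN.rm γ (β x y) = p • n)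

/-- bimodule homomorphisms modulo `p` lift -/
def Lif1 (p : R) (BX : BiM R Γ X) (BN : BiM R Γ N) : Prop :=
  ∀ g : X →ₗ[R] N, BHomP p BX BN g → ∃ g' : X →ₗ[R] N, BHom BX BN g' ∧
    ∀ x, ∃ n, g' x - g x = p • n

/-- balanced bilinear maps modulo `p` lift -/
def Lif2 (p : R) (BX : BiM R Γ X) (BN : BiM R Γ N) : Prop :=
  ∀ β : X →ₗ[R] X →ₗ[R] N, Bal2P p BX BN β → ∃ β' : X →ₗ[R] X →ₗ[R] N, Bal2 BX BN β' ∧
    ∀ x y, ∃ n, β' x y - β x y = p • n

/-- the liftable bimodules: bimodule homomorphisms `X → X` and balanced maps `X × X → X`,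
`X × X → Γ` lift -/
structure Lft (p : R) (BX : BiM R Γ X) : Prop where
  l1 : Lif1 p BX BX
  l2 : Lif2 p BX BX
  l3 : Lif2 p BX (regB R Γ)

end

/-- the residue level: `A` is killed by `π`; `e` the projector onto the image of `Γ`; `ker e` is a
retract (by `i0`, `p0`) of the reduction `X0` of the bimodule `X`. -/
structure ResX {R F : Type} (Γ A X X0 : Type) [CommRing R] [Field F] (c : Cdv R F) [Ring Γ]
    [Algebra R Γ] [Ring A] [Algebra R A] [AddCommGroup X] [Module R X] [AddCommGroup X0]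
    [Module R X0] (BX : BiM R Γ X) where
  j : Γ →ₐ[R] A
  hA : algebraMap R A c.π = 0
  hj : ∀ γ, j γ = 0 → ∃ γ', γ = c.π • γ'
  e : A →ₗ[R] A
  e1 : ∀ x, ∃ γ, e x = j γ
  e2 : ∀ γ, e (j γ) = j γ
  e3 : ∀ γ x, e (j γ * x) = j γ * e x
  e4 : ∀ γ x, e (x * j γ) = e x * j γ
  B0 : BiM R Γ X0
  s : X →ₗ[R] X0
  s1 : BHom BX B0 s
  s2 : Function.Surjective s
  s3 : ∀ x, s x = 0 ↔ ∃ y, x = c.π • y
  i0 : A →ₗ[R] X0
  i1 : ∀ γ x, i0 (j γ * x) = B0.lm γ (i0 x)
  i2 : ∀ γ x, i0 (x * j γ) = B0.rm (op γ) (i0 x)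
  p0 : X0 →ₗ[R] A
  p1 : ∀ γ x, p0 (B0.lm γ x) = j γ * p0 x
  p2 : ∀ γ x, p0 (B0.rm (op γ) x) = p0 x * j γ
  ip : ∀ x, p0 (i0 x) = x - e x

/-- a lift `P` of the bimodule `ker e`, a retract of `X` -/
structure PLX {R F : Type} {Γ A X X0 : Type} (P : Type) [CommRing R] [Field F] {c : Cdv R F}
    [Ring Γ] [Algebra R Γ] [Ring A] [Algebra R A] [AddCommGroup X] [Module R X]
    [AddCommGroup X0] [Module R X0] {BX : BiM R Γ X} (D : ResX Γ A X X0 c BX)
    [AddCommGroup P] [Module R P] extends BiM R Γ P where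
  q : P →ₗ[R] A
  q1 : ∀ γ x, q (lm γ x) = D.j γ * q x
  q2 : ∀ γ x, q (rm (op γ) x) = q x * D.j γ
  q3 : ∀ x, D.e (q x) = 0
  q4 : ∀ y, D.e y = 0 → ∃ x, q x = y
  q5 : ∀ x, q x = 0 ↔ ∃ y, x = c.π • y
  i : P →ₗ[R] X
  i1 : BHom toBiM BX i
  p : X →ₗ[R] P
  p1 : BHom BX toBiM p
  pi : p ∘ₗ i = LinearMap.id

/-- the map `Γ × P → A` -/
noncomputable def PLX.qq {R F : Type} {Γ A X X0 P : Type} [CommRing R] [Field F] {c : Cdv R F}
    [Ring Γ] [Algebra R Γ] [Ring A] [Algebra R A] [AddCommGroup X] [Module R X]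
    [AddCommGroup X0] [Module R X0] {BX : BiM R Γ X} {D : ResX Γ A X X0 c BX}
    [AddCommGroup P] [Module R P] (L : PLX P D) (x : Γ × P) : A :=
  D.j x.1 + L.q x.2

/-- the special fibre map `q : A' → A` of an `R`-algebra onto an `F`-algebra -/
structure FibG {R F : Type} (A' A : Type) [CommRing R] [Field F] (c : Cdv R F) [Ring A']
    [Algebra R A'] [Ring A] [Algebra F A] where
  q : A' →+* A
  sc : ∀ r : R, q (algebraMap R A' r) = algebraMap F A (c.κ r)
  surj : Function.Surjective q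
  ker : ∀ x, q x = 0 → ∃ y, x = c.π • y

/-- the special fibre map `s : X → X0` of bimodules -/
structure FibM {R F : Type} {Γ Γ0 : Type} (X X0 : Type) [CommRing R] [Field F] {c : Cdv R F}
    [Ring Γ] [Algebra R Γ] [Ring Γ0] [Algebra F Γ0] (f : FibG Γ Γ0 c) [AddCommGroup X]
    [Module R X] [AddCommGroup X0] [Module F X0] (BX : BiM R Γ X) (B0 : BiM F Γ0 X0) where
  s : X →+ X0
  sc : ∀ (r : R) x, s (r • x) = c.κ r • s x
  lm : ∀ γ x, s (BX.lm γ x) = B0.lm (f.q γ) (s x)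
  rm : ∀ γ x, s (BX.rm (op γ) x) = B0.rm (op (f.q γ)) (s x)
  surj : Function.Surjective s
  ker : ∀ x, s x = 0 → ∃ y, x = c.π • y

/-- `A = Γ ⊕ P` with `P` (the kernel of `pr`) a retract of the bimodule `X` -/
structure SplitX {R Γ X : Type} (A : Type) [CommRing R] [Ring Γ] [Algebra R Γ]
    [AddCommGroup X] [Module R X] (BX : BiM R Γ X) [Ring A] [Algebra R A] where
  j : Γ →ₐ[R] A
  pr : A →ₗ[R] Γ
  pr_j : ∀ γ, pr (j γ) = γ
  pr_l : ∀ γ x, pr (j γ * x) = γ * pr x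
  pr_r : ∀ x γ, pr (x * j γ) = pr x * γ
  i : A →ₗ[R] X
  i1 : ∀ γ x, i (j γ * x) = BX.lm γ (i x)
  i2 : ∀ γ x, i (x * j γ) = BX.rm (op γ) (i x)
  p : X →ₗ[R] A
  p1 : ∀ γ x, p (BX.lm γ x) = j γ * p x
  p2 : ∀ γ x, p (BX.rm (op γ) x) = p x * j γ
  ip : ∀ x, p (i x) = x - j (pr x)

/-- the deformation data -/
structure DfmX {R F : Type} {Γ Γ0 X X0 : Type} (A A' : Type) [CommRing R] [Field F]
    (c : Cdv R F) [Ring Γ] [Algebra R Γ] [Ring Γ0] [Algebra F Γ0] [Ring A] [Algebra F A]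
    [Ring A'] [Algebra R A'] [AddCommGroup X] [Module R X] [AddCommGroup X0] [Module F X0]
    (f : FibG Γ Γ0 c) (BX : BiM R Γ X) (B0 : BiM F Γ0 X0) (sp0 : SplitX A B0) where
  sp : SplitX A' BX
  fb : FibG A' A c
  cj : ∀ γ, fb.q (sp.j γ) = sp0.j (f.q γ)
  cp : ∀ x, sp0.pr (fb.q x) = f.q (sp.pr x)

end Pool.Agent.PFD.D2
end -- Pool.Agent.PFD.DefsD2

section -- Pool.Agent.PFD.DefsD2b

/-!
Squad PFD, part D2b (helper36): the liftable bimodule attached to a subgroup `W`.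

`WFS`: a symmetric algebra `Γ` over `R` with a group homomorphism `om : W → Γ` and relative dual
families `cf`, `cf'` over `W` (the families `cf i * om w`, `om w⁻¹ * cf' i` are dual).
`IsX D Ω BX`: `BX` is the bimodule structure of `Γ ⊗_(R W) (R Ω ⊗ Γ)` on the functions
`I × Ω → Γ` (the function `f` is the element `∑ cf i ⊗ ω ⊗ f (i, ω)`).
-/

open scoped BigOperators

noncomputable section

namespace Pool.Agent.PFD.D2b

open MulOpposite
open Pool.Agent.PFC.B1 (BiM FS)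
open Pool.Agent.PFD.D2

section frames

variable {R G N T : Type} [CommRing R] [Group G] [AddCommGroup N] [Module R N]

/-- a permutation frame over a commutative ring -/
def FrR (ρ : G →* (N →ₗ[R] N)) [Fintype T] [MulAction G T] (b : T → N)
    (c : T → (N →ₗ[R] R)) : Prop :=
  (∀ g t, b (g • t) = ρ g (b t)) ∧ (∀ g t n, c (g • t) (ρ g n) = c t n) ∧
  ∀ n, ∑ t, c t n • b t = n

/-- vectors which are fixed modulo `p` by a subgroup lift to fixed vectors -/
def FPl (p : R) (ρ : G →* (N →ₗ[R] N)) : Prop :=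
  ∀ (S : Subgroup G) (n : N), (∀ s ∈ S, ∃ x, ρ s n - n = p • x) →
    ∃ m, (∀ s ∈ S, ρ s m = m) ∧ ∃ x, m - n = p • x

end frames

/-- a symmetric algebra with relative dual families over the group `W` -/
structure WFS (R Γ W I : Type) [CommRing R] [Ring Γ] [Algebra R Γ] [CommGroup W] [Fintype W]
    [Fintype I] where
  lam : Γ →ₗ[R] R
  sym : ∀ x y, lam (x * y) = lam (y * x)
  om : W →* Γ
  cf : I → Γ
  cf' : I → Γ
  h1 : ∀ x, ∑ i, ∑ w, lam (om w⁻¹ * cf' i * x) • (cf i * om w) = x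
  h2 : ∀ x, ∑ i, ∑ w, lam (x * (cf i * om w)) • (om w⁻¹ * cf' i) = x
  d1 : ∀ i w, lam (om w⁻¹ * cf' i * (cf i * om w)) = 1
  d0 : ∀ i j u w, (i ≠ j ∨ u ≠ w) → lam (om u⁻¹ * cf' i * (cf j * om w)) = 0
  ph : I → W →* W
  phb : ∀ i, Function.Bijective (ph i)
  nrm : ∀ i w, om w * cf i = cf i * om (ph i w)

section

variable {R Γ W I N : Type} [CommRing R] [Ring Γ] [Algebra R Γ] [CommGroup W] [Fintype W]
  [Fintype I] [AddCommGroup N] [Module R N]

/-- the Frobenius system of a `WFS` -/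
def WFS.fs (D : WFS R Γ W I) : FS R Γ (I × W) where
  lam := D.lam
  b := fun t => D.cf t.1 * D.om t.2
  b' := fun t => D.om t.2⁻¹ * D.cf' t.1
  h1 := fun x => by
    rw [Fintype.sum_prod_type]
    exact D.h1 x
  h2 := fun x => by
    rw [Fintype.sum_prod_type]
    exact D.h2 x

/-- the action of `W × W` on a bimodule, `(u, v) n = om u n om v⁻¹` -/
def wrp (om : W →* Γ) (B : BiM R Γ N) : W × W →* (N →ₗ[R] N) where
  toFun := fun w => (B.lm (om w.1)) ∘ₗ (B.rm (op (om w.2⁻¹)))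
  map_one' := by
    ext n
    simp
  map_mul' := fun u v => by
    ext n
    show B.lm (om (u.1 * v.1)) (B.rm (op (om (u.2 * v.2)⁻¹)) n) =
      B.lm (om u.1) (B.rm (op (om u.2⁻¹)) (B.lm (om v.1) (B.rm (op (om v.2⁻¹)) n)))
    rw [map_mul, map_mul, mul_inv_rev, map_mul, op_mul, map_mul, Module.End.mul_apply,
      Module.End.mul_apply, B.comm]

/-- the bimodule `Γ ⊗_(R W) (R Ω ⊗ Γ)`, on the functions `I × Ω → Γ` -/
def IsX (D : WFS R Γ W I) (Ω : Type) [MulAction W Ω] (BX : BiM R Γ (I × Ω → Γ)) : Prop :=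
  (∀ γ f j ω, BX.lm γ f (j, ω) =
    ∑ i, ∑ w, D.lam (D.om w⁻¹ * D.cf' j * γ * D.cf i) • (D.om w * f (i, w⁻¹ • ω))) ∧
  ∀ γ f x, BX.rm (op γ) f x = f x * γ

/-- equivariant maps from `Ω` to a bimodule (conjugation action) -/
def EqM (om : W →* Γ) {Ω : Type} [MulAction W Ω] (B : BiM R Γ N) (m : Ω → N) : Prop :=
  ∀ w ω, m (w • ω) = B.lm (om w) (B.rm (op (om w⁻¹)) (m ω))

end

end Pool.Agent.PFD.D2b
end
end -- Pool.Agent.PFD.DefsD2b

section -- Pool.Agent.PSS.DefsS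

/-!
# Squad PSS (theorem (S)): definitions

`R` is a commutative ring (a field `F`, a complete discrete valuation ring `O`, `O⟦X⟧`, `F⟦X⟧`),
`V` a finite abelian `ℓ`-group, `E` an `ℓ'`-group which acts on `V` (not necessarily faithfully),
`A` an `R`-algebra with `α : V →* A`.

* `bw R α`: the representation of `V × V` on `A`, `(u, v) a = α u * a * α v⁻¹` (for a field this is
  `PFC.bi`); `cw R α`: conjugation.
* `FxR`, `BKR`: fixed vectors and Brauer kernel over a commutative ring (for a field `PFC.Fx`, `PFC.BK`).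
* `RF R α lam x y`: `lam` is symmetric and `x k * α v`, `α v⁻¹ * y k` are dual families.
* `C0 R φ α`: the class: a form with a relative Frobenius system over `V`, a permutation frame for
  `V × V` whose stabilisers are `tw (φ e) S`, units which induce `φ e`.
* `Cl F φ α`: the class over a field, with `∑ x k * y k` a unit, and `br_V(e) ≠ 0` for all nonzero
  central idempotents `e` of `A(Q)`, for all `Q ≤ V` (`Q = ⊥`: the central idempotents of `A`).
* `IsNW R α W B`: `B` is `N_W(A) = ⊕ A(W, ε)`, `ε : MulAut W`, the sum of the twisted Brauer quotients.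
* `Cpl R p`: `R` is complete for the powers of the nonzero divisor `p`.
* `Df`: a deformation `A'` over `R` of the algebra `A` over `R₀ = R/p`, relative to `W`.
* `Cyp n φ W`: `V` is the product of `W` and of `n` cyclic `E`-stable subgroups.
-/

open scoped BigOperators TensorProduct

noncomputable section

namespace Pool.Agent.PSS

open Pool.Agent.PFC (tw IsTv)
open Pool.Agent.PFD.D2b (FrR)

/-! ## Representations over a commutative ring -/

section rep

variable {R H M : Type} [CommRing R] [Group H] [AddCommGroup M] [Module R M]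

/-- The vectors fixed by the subgroup `P`. -/
def FxR (ρ : H →* (M →ₗ[R] M)) (P : Subgroup H) : Submodule R M where
  carrier := {m | ∀ h ∈ P, ρ h m = m}
  add_mem' := by
    intro a b ha hb h hh
    rw [map_add, ha h hh, hb h hh]
  zero_mem' := by
    intro h _
    exact map_zero _
  smul_mem' := by
    intro c a ha h hh
    rw [map_smul, ha h hh]

/-- The Brauer kernel at `P`: the span of the relative traces from the proper subgroups of `P`. -/
def BKR (ρ : H →* (M →ₗ[R] M)) (P : Subgroup H) : Submodule R M :=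
  Submodule.span R {n | ∃ (P' : Subgroup H) (S : Finset H) (m : M),
    P' < P ∧ IsTv P' P S ∧ m ∈ FxR ρ P' ∧ n = ∑ x ∈ S, ρ x m}

end rep

section alg

variable (R : Type) {V E A : Type} [CommRing R] [CommGroup V] [Group E] [Ring A] [Algebra R A]

/-- `(u, v) a = α u * a * α v⁻¹` -/
def bw (α : V →* A) : V × V →* (A →ₗ[R] A) where
  toFun := fun w =>
    (LinearMap.mulLeft R (α w.1)).comp (LinearMap.mulRight R (α w.2⁻¹))
  map_one' := by
    ext a
    simp
  map_mul' := by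
    intro x y
    ext a
    simp [mul_assoc]

/-- conjugation by `V` -/
def cw (α : V →* A) : V →* (A →ₗ[R] A) where
  toFun := fun u => bw R α (u, u)
  map_one' := (bw R α).map_one
  map_mul' := by
    intro x y
    have h : ((x * y, x * y) : V × V) = (x, x) * (y, y) := rfl
    rw [h, (bw R α).map_mul]

/-- `lam` is symmetric, and the families `x k * α v`, `α v⁻¹ * y k` are dual to each other. -/
structure RF [Fintype V] {K : Type} [Fintype K] (α : V →* A) (lam : A →ₗ[R] R) (x y : K → A) :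
    Prop where
  sym : ∀ a b, lam (a * b) = lam (b * a)
  e1 : ∀ a, ∑ k, ∑ v, lam (α v⁻¹ * y k * a) • (x k * α v) = a
  e2 : ∀ a, ∑ k, ∑ v, lam (a * (x k * α v)) • (α v⁻¹ * y k) = a

/-- permutation frame for `V × V`, all stabilisers are twisted diagonals `tw (φ e) S` -/
def Per (φ : E →* MulAut V) (α : V →* A) : Prop :=
  ∃ (Ω : Type) (_ : Fintype Ω) (_ : MulAction (V × V) Ω) (b : Ω → A) (c : Ω → (A →ₗ[R] R)),
    FrR (bw R α) b c ∧
    ∀ ω : Ω, ∃ (e : E) (S : Subgroup V),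
      MulAction.stabilizer (V × V) ω = tw (φ e).toMonoidHom S

/-- units which induce the action of `E` -/
def Uni (φ : E →* MulAut V) (α : V →* A) : Prop :=
  ∀ e : E, ∃ y y' : A, y * y' = 1 ∧ y' * y = 1 ∧ ∀ u, y * α u = α (φ e u) * y

/-- The class over a commutative ring. -/
structure C0 [Fintype V] (φ : E →* MulAut V) (α : V →* A) : Prop where
  frm : ∃ (lam : A →ₗ[R] R) (K : Type) (_ : Fintype K) (x y : K → A), RF R α lam x y
  per : Per R φ α
  uni : Uni φ α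

end alg

/-- The class over a field. -/
structure Cl (F : Type) {V E A : Type} [Field F] [CommGroup V] [Fintype V] [Group E] [Ring A]
    [Algebra F A] (φ : E →* MulAut V) (α : V →* A) : Prop where
  fin : FiniteDimensional F A
  per : Per F φ α
  uni : Uni φ α
  rt : ∃ (lam : A →ₗ[F] F) (K : Type) (_ : Fintype K) (x y : K → A), RF F α lam x y ∧
    ∃ u : A, u * ∑ k, x k * y k = 1
  blk : ∀ (Q : Subgroup V), ∀ e ∈ FxR (cw F α) ⊤, e * e - e ∈ BKR (cw F α) Q →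
    (∀ a ∈ FxR (cw F α) Q, e * a - a * e ∈ BKR (cw F α) Q) →
    e ∈ BKR (cw F α) ⊤ → e ∈ BKR (cw F α) Q

/-! ## The sum of the twisted Brauer quotients -/

section NW

variable {V A : Type} [CommGroup V]

/-- the twisted diagonal subgroup `(ε w, w)`, `w ∈ W` -/
def twW (W : Subgroup V) (ε : MulAut W) : Subgroup (V × V) :=
  (W.subtype.comp ε.toMonoidHom |>.prod W.subtype).range

/-- `B = N_W(A)`: `β ε` is the Brauer map on the elements `a` with `α (ε w) a = a α w` (only the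
values there are used). -/
structure IsNW (R : Type) [CommRing R] [Ring A] [Algebra R A] (α : V →* A) (W : Subgroup V)
    (B : Type) [Ring B] [Algebra R B] where
  β : MulAut W → (A →ₗ[R] B)
  one : β 1 1 = 1
  mul : ∀ ε δ, ∀ a ∈ FxR (bw R α) (twW W ε), ∀ b ∈ FxR (bw R α) (twW W δ),
    β (ε * δ) (a * b) = β ε a * β δ b
  ker : ∀ ε, ∀ a ∈ FxR (bw R α) (twW W ε), β ε a = 0 ↔ a ∈ BKR (bw R α) (twW W ε)
  ind : ∀ f : MulAut W → A, (∀ ε, f ε ∈ FxR (bw R α) (twW W ε)) →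
    ∑ᶠ ε, β ε (f ε) = 0 → ∀ ε, β ε (f ε) = 0
  spn : ∀ b : B, ∃ f : MulAut W → A, (∀ ε, f ε ∈ FxR (bw R α) (twW W ε)) ∧
    ∑ᶠ ε, β ε (f ε) = b

end NW

/-! ## Completeness, deformations -/

/-- `R` is complete for the powers of the nonzero divisor `p`. -/
structure Cpl (R : Type) [CommRing R] (p : R) : Prop where
  reg : ∀ r, p * r = 0 → r = 0
  sep : ∀ r, (∀ n : ℕ, ∃ s, r = p ^ n * s) → r = 0
  cpl : ∀ u : ℕ → R, ∃ r, ∀ n : ℕ, ∃ s, r - ∑ i ∈ Finset.range n, p ^ i * u i = p ^ n * s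

/-- `κ : R → R₀` is the reduction modulo `p`. -/
structure Red {R R₀ : Type} [CommRing R] [CommRing R₀] (p : R) (κ : R →+* R₀) : Prop where
  surj : Function.Surjective κ
  ker : ∀ r, κ r = 0 ↔ ∃ s, r = p * s

/-- `A'` (over `R`) is a deformation of `A` (over `R₀ = R/p`), relative to the group `W`. -/
structure Df {R R₀ W A A' : Type} [CommRing R] [CommRing R₀] [CommGroup W] [Ring A]
    [Algebra R₀ A] [Ring A'] [Algebra R A'] (p : R) (κ : R →+* R₀) (α : W →* A)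
    (α' : W →* A') where
  q : A' →+* A
  sc : ∀ r : R, q (algebraMap R A' r) = algebraMap R₀ A (κ r)
  surj : Function.Surjective q
  ker : ∀ x, q x = 0 → ∃ y, x = p • y
  qw : ∀ w, q (α' w) = α w
  per : ∃ (Ω : Type) (_ : Fintype Ω) (_ : MulAction (W × W) Ω) (b : Ω → A')
    (c : Ω → (A' →ₗ[R] R)), FrR (bw R α') b c

/-- the group `W → S ⊗ A` -/
def bcw {R S W A : Type} [CommRing R] [CommRing S] [Algebra R S] [CommGroup W] [Ring A]
    [Algebra R A] (α : W →* A) : W →* S ⊗[R] A :=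
  (Algebra.TensorProduct.includeRight (R := R) (A := S) (B := A)).toMonoidHom.comp α

/-! ## Groups -/

/-- `V = Y × W`, both factors stable under `E`, `Y` cyclic. -/
structure Cyf {V E : Type} [CommGroup V] [Group E] (φ : E →* MulAut V) (Y W : Subgroup V) :
    Prop where
  cmp : IsCompl Y W
  cyc : IsCyclic Y
  sy : ∀ e : E, ∀ u ∈ Y, φ e u ∈ Y
  sw : ∀ e : E, ∀ u ∈ W, φ e u ∈ W

/-- the restriction of the action to the stable subgroup `W` -/
def IsRs {V E : Type} [CommGroup V] [Group E] (φ : E →* MulAut V) (W : Subgroup V)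
    (ψ : E →* MulAut W) : Prop :=
  ∀ (e : E) (w : W), (ψ e w : V) = φ e w

/-- `V` is the product of `W` and of `n` cyclic `E`-stable subgroups, `W` is `E`-stable. -/
def Cyp : ℕ → ∀ (V E : Type) [CommGroup V] [Group E] (_ : E →* MulAut V) (_ : Subgroup V), Prop
  | 0, _, _, _, _, _, W => W = ⊤
  | n + 1, V, E, _, _, φ, W => ∃ (Y W' : Subgroup V) (ψ : E →* MulAut W'),
      Cyf φ Y W' ∧ W ≤ W' ∧ IsRs φ W' ψ ∧ Cyp n W' E ψ (W.subgroupOf W')

/-- The group induced by `E` on `V` acts freely on `U - 1` for a nontrivial `E`-stable direct factor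
`U` with an `E`-stable complement. -/
def Fre {V E : Type} [CommGroup V] [Group E] (φ : E →* MulAut V) : Prop :=
  ∃ U W : Subgroup V, U ≠ ⊥ ∧ IsCompl U W ∧ (∀ e : E, ∀ u ∈ U, φ e u ∈ U) ∧
    (∀ e : E, ∀ u ∈ W, φ e u ∈ W) ∧ ∀ e : E, ∀ u ∈ U, u ≠ 1 → φ e u = u → φ e = 1

/-! ## The top statements for algebras -/

/-- STP: one step: remove the cyclic factor `Y`. -/
def StpStmt : Prop :=
  ∀ (ℓ : ℕ) [Fact ℓ.Prime] (F V E A B : Type) [Field F] [IsAlgClosed F] [CharP F ℓ]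
    [CommGroup V] [Fintype V] [Group E] [Fintype E] [Ring A] [Algebra F A] [Ring B] [Algebra F B]
    (φ : E →* MulAut V) (α : V →* A) (Y W' W : Subgroup V) [Fintype W'] (ψ : E →* MulAut W'),
    IsPGroup ℓ V → ¬ ℓ ∣ Nat.card E → Cyf φ Y W' → IsRs φ W' ψ →
    W ≤ W' → (∀ e : E, ∀ w ∈ W, φ e w ∈ W) → Cl F φ α → IsNW F α W B →
    ∃ (F' C B' : Type) (_ : Field F') (_ : IsAlgClosed F') (_ : CharP F' ℓ) (_ : Ring C)
      (_ : Algebra F' C) (_ : Ring B') (_ : Algebra F' B') (γ : W' →* C)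
      (_ : IsNW F' γ (W.subgroupOf W') B'), Cl F' ψ γ ∧
      Module.finrank F' (Subalgebra.center F' C) = Module.finrank F (Subalgebra.center F A) ∧
      Module.finrank F' (Subalgebra.center F' B') = Module.finrank F (Subalgebra.center F B)

/-- BAS: the base case `W = V`. -/
def BasStmt : Prop :=
  ∀ (ℓ : ℕ) [Fact ℓ.Prime] (F V E A B : Type) [Field F] [IsAlgClosed F] [CharP F ℓ]
    [CommGroup V] [Fintype V] [Group E] [Fintype E] [Ring A] [Algebra F A] [Ring B] [Algebra F B]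
    (φ : E →* MulAut V) (α : V →* A),
    IsPGroup ℓ V → ¬ ℓ ∣ Nat.card E → (Nat.card V = 1 ∨ Fre φ) → Cl F φ α →
    IsNW F α ⊤ B →
    Module.finrank F (Subalgebra.center F A) = Module.finrank F (Subalgebra.center F B)

/-- ATS: the theorem for algebras. -/
def AtsStmt : Prop :=
  ∀ (n ℓ : ℕ) [Fact ℓ.Prime] (F V E A B : Type) [Field F] [IsAlgClosed F] [CharP F ℓ]
    [CommGroup V] [Fintype V] [Group E] [Fintype E] [Ring A] [Algebra F A] [Ring B] [Algebra F B]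
    (φ : E →* MulAut V) (α : V →* A) (W : Subgroup V) (ψ : E →* MulAut W),
    IsPGroup ℓ V → ¬ ℓ ∣ Nat.card E → Cyp n V E φ W → IsRs φ W ψ →
    (W = ⊥ ∨ Fre ψ) → Cl F φ α → IsNW F α W B →
    Module.finrank F (Subalgebra.center F A) = Module.finrank F (Subalgebra.center F B)

end Pool.Agent.PSS
end
end -- Pool.Agent.PSS.DefsS

section -- Pool.Agent.PSS.StmtsS0

/-!
# Squad PSS (theorem (S)), block S0 (helper30): Brauer quotients in characteristic `ℓ`

`R` is a commutative ring with `ℓ = 0` (a field, `F⟦X⟧`), `V` a finite abelian `ℓ`-group,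
`α : V →* A`.  For `Q ≤ V` the Brauer quotient `A(Q) = A^Q / BK(Q)` is given by `IsBQ R α Q αB β`:
a ring `B`, the Brauer map `β : A → B` (only its values on the centraliser of `Q` are used) and the
group `αB = β ∘ α`.  All rows are elementary; the proofs in the docstrings are complete.

Notation of the proofs: `u a = α u * a` etc. (`α` is omitted), `rt(a) = ∑ x k * a * y k`,
`Ω^Q = {ω | (q, q) • ω = ω for all q ∈ Q}`, `Tr` the relative trace.
-/

open scoped BigOperators TensorProduct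

noncomputable section

namespace Pool.Agent.PSS.S0

open Pool.Agent.PFC (tw IsTv)
open Pool.Agent.PFD.D2b (FrR)

/-! ## Definitions -/

section defs

variable (R : Type) {V E A Ω : Type} [CommRing R] [CommGroup V] [Group E] [Ring A] [Algebra R A]

/-- `β` is the Brauer map onto `B = A(Q)` (only the values on the centraliser of `Q` are used). -/
structure IsBQ (α : V →* A) (Q : Subgroup V) {B : Type} [Ring B] [Algebra R B] (αB : V →* B)
    (β : A → B) : Prop where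
  add : ∀ a ∈ FxR (cw R α) Q, ∀ b ∈ FxR (cw R α) Q, β (a + b) = β a + β b
  smul : ∀ (r : R), ∀ a ∈ FxR (cw R α) Q, β (r • a) = r • β a
  one : β 1 = 1
  mul : ∀ a ∈ FxR (cw R α) Q, ∀ b ∈ FxR (cw R α) Q, β (a * b) = β a * β b
  ker : ∀ a ∈ FxR (cw R α) Q, (β a = 0 ↔ a ∈ BKR (cw R α) Q)
  surj : ∀ y : B, ∃ a ∈ FxR (cw R α) Q, β a = y
  om : ∀ v, β (α v) = αB v

/-- A permutation frame `b` of `A` with the dual family `d` with respect to the symmetric form
`lam`; the right action is twisted by `θ`; it is free. -/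
structure SF [Fintype Ω] [MulAction (V × V) Ω] (θ : MulAut V) (α : V →* A) (lam : A →ₗ[R] R)
    (b d : Ω → A) : Prop where
  sym : ∀ x y, lam (x * y) = lam (y * x)
  eb : ∀ (g : V × V) (ω : Ω), b (g • ω) = α g.1 * b ω * α (θ g.2)⁻¹
  ed : ∀ (g : V × V) (ω : Ω), d (g • ω) = α (θ g.2) * d ω * α g.1⁻¹
  fr : ∀ a, ∑ ω, lam (d ω * a) • b ω = a
  free : ∀ (v : V) (ω : Ω), ((1, v) : V × V) • ω = ω → v = 1

/-- The points of `Ω` fixed by all `(q, θ⁻¹ q)`, `q ∈ Q`. -/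
def OQt (Q : Subgroup V) (θ : MulAut V) (Ω : Type) [MulAction (V × V) Ω] :
    SubMulAction (V × V) Ω where
  carrier := {ω | ∀ q ∈ Q, ((q, θ⁻¹ q) : V × V) • ω = ω}
  smul_mem' := by
    intro g ω h q hq
    rw [smul_smul, mul_comm, ← smul_smul, h q hq]

/-- The orbits of the right action `(1, v)`. -/
def ROrb (V Ω : Type) [CommGroup V] [MulAction (V × V) Ω] : Setoid Ω where
  r := fun ω ω' => ∃ v : V, ((1, v) : V × V) • ω = ω'
  iseqv := by
    refine ⟨fun ω => ⟨1, one_smul _ ω⟩, ?_, ?_⟩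
    · rintro ω ω' ⟨v, rfl⟩
      refine ⟨v⁻¹, ?_⟩
      rw [smul_smul]
      simp only [Prod.mk_mul_mk, one_mul, inv_mul_cancel]
      exact one_smul _ ω
    · rintro ω ω' ω'' ⟨v, rfl⟩ ⟨w, rfl⟩
      exact ⟨w * v, by rw [smul_smul]; simp⟩

end defs

/-! ## A. Permutation frames -/

/-- BKF.  The Brauer kernel consists of fixed vectors.  Proof: `S` a left transversal of `P'` in `P`,
`m` fixed by `P'`; for `h ∈ P` the map `x ↦` (the element of `S` in `h x P'`) is a bijection of `S`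
and `ρ (h x) m = ρ x' m`. -/
def BkfStmt : Prop :=
  ∀ (R H M : Type) [CommRing R] [Group H] [AddCommGroup M] [Module R M]
    (ρ : H →* (M →ₗ[R] M)) (P : Subgroup H), BKR ρ P ≤ FxR ρ P

/-- FPX.  Sums over an `H`-set modulo the Brauer kernel.  Proof: group `∑ κ, g κ` in `P`-orbits; the
one point orbits give the sum over `K0`; the sum over a larger orbit is `∑_(x ∈ S) ρ x (g κ)`, `S` a left
transversal in `P` of the stabiliser `P'` of `κ` in `P`, `P' < P`, and `g κ` is fixed by `P'`. -/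
def FpxStmt : Prop :=
  ∀ (R H M K : Type) [CommRing R] [Group H] [Finite H] [AddCommGroup M] [Module R M] [Fintype K]
    [MulAction H K] (ρ : H →* (M →ₗ[R] M)) (P : Subgroup H) (g : K → M)
    (K0 : Finset K), (∀ h ∈ P, ∀ κ, g (h • κ) = ρ h (g κ)) →
    (∀ κ, κ ∈ K0 ↔ ∀ h ∈ P, h • κ = κ) →
    ∑ κ, g κ - ∑ κ ∈ K0, g κ ∈ BKR ρ P

/-- FCO.  Coefficients of elements of the Brauer kernel at fixed points.  Proof: for `P' < P`,
`S` a transversal, `m` fixed by `P'`, `ω` fixed by `P`: `c ω (ρ x m) = c (x⁻¹ ω) m = c ω m` for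
`x ∈ P`, so `c ω (∑ ρ x m) = |S| c ω m`, and `ℓ` divides `|S| = |P : P'|`. -/
def FcoStmt : Prop :=
  ∀ (ℓ : ℕ) [Fact ℓ.Prime] (R H M Ω : Type) [CommRing R] [Group H] [Finite H] [AddCommGroup M]
    [Module R M] [Fintype Ω] [MulAction H Ω] (ρ : H →* (M →ₗ[R] M)) (b : Ω → M)
    (c : Ω → (M →ₗ[R] R)), (ℓ : R) = 0 → IsPGroup ℓ H → FrR ρ b c →
    ∀ (P : Subgroup H), ∀ m ∈ BKR ρ P, ∀ ω : Ω, (∀ h ∈ P, h • ω = ω) → c ω m = 0

/-- FBK (uses FPX).  A fixed vector whose coefficients at the fixed points vanish is in the Brauer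
kernel.  Proof: `m = ∑ c ω m • b ω`, and `g ω = c ω m • b ω` satisfies `g (h ω) = ρ h (g ω)` for `h ∈ P`
(`c (h ω) m = c (h ω) (ρ h m) = c ω m`). -/
def FbkStmt : Prop :=
  ∀ (R H M Ω : Type) [CommRing R] [Group H] [Finite H] [AddCommGroup M]
    [Module R M] [Fintype Ω] [MulAction H Ω] (ρ : H →* (M →ₗ[R] M)) (b : Ω → M)
    (c : Ω → (M →ₗ[R] R)), FrR ρ b c →
    ∀ (P : Subgroup H), ∀ m ∈ FxR ρ P, (∀ ω : Ω, (∀ h ∈ P, h • ω = ω) → c ω m = 0) →
      m ∈ BKR ρ P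

/-- FTR (uses FCO, FPX).  Let `m` be fixed by the abelian group `H` and in `BK(P')` for all `P' > P`.
Then `m` is a trace from `P` modulo `BK(P)`.  Proof: `c ω m = 0` if the stabiliser of `ω` is `> P`
(FCO).  The sum over the `ω` with stabiliser `P` is a sum of orbit sums (the stabilisers are constant
on orbits as `H` is abelian): `m' = ∑ c ω m • b ω` over representatives of these orbits is fixed by
`P`, and `∑_(x ∈ S) ρ x m'` is this part.  The difference with `m` is `∑ g ω`, `g ω = c ω m • b ω` if the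
stabiliser of `ω` does not contain `P`, `g ω = 0` otherwise: FPX (`g` is zero on the fixed points). -/
def FtrStmt : Prop :=
  ∀ (ℓ : ℕ) [Fact ℓ.Prime] (R H M Ω : Type) [CommRing R] [CommGroup H] [Finite H]
    [AddCommGroup M] [Module R M] [Fintype Ω] [MulAction H Ω] (ρ : H →* (M →ₗ[R] M)) (b : Ω → M)
    (c : Ω → (M →ₗ[R] R)), (ℓ : R) = 0 → IsPGroup ℓ H → FrR ρ b c →
    ∀ (P : Subgroup H), ∀ m ∈ FxR ρ ⊤, (∀ P' : Subgroup H, P < P' → m ∈ BKR ρ P') →
      ∃ m' ∈ FxR ρ P, ∃ S : Finset H, IsTv P ⊤ S ∧ m - ∑ x ∈ S, ρ x m' ∈ BKR ρ P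

/-- BKI.  The Brauer kernel is an ideal of the centraliser.  Proof: `a` commutes with `P`:
`a ∑ x m x⁻¹ = ∑ x (a m) x⁻¹`, and `a m` is fixed by `P'`. -/
def BkiStmt : Prop :=
  ∀ (R V A : Type) [CommRing R] [CommGroup V] [Ring A] [Algebra R A] (α : V →* A)
    (P : Subgroup V), ∀ a ∈ FxR (cw R α) P, ∀ m ∈ BKR (cw R α) P,
      a * m ∈ BKR (cw R α) P ∧ m * a ∈ BKR (cw R α) P

/-- RES.  Fixed vectors and Brauer kernels of a subgroup `W` of `V`. Proof: definitions; the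
subgroups of `P` mapped to `V` are the subgroups of the image of `P`. -/
def ResStmt : Prop :=
  ∀ (R V A : Type) [CommRing R] [CommGroup V] [Ring A] [Algebra R A] (α : V →* A)
    (W : Subgroup V) (P : Subgroup W),
    FxR (cw R (α.comp W.subtype)) P = FxR (cw R α) (P.map W.subtype) ∧
    BKR (cw R (α.comp W.subtype)) P = BKR (cw R α) (P.map W.subtype)

/-! ## B. Relative Frobenius systems -/

/-- RFD.  The dual family of a frame.  Proof: `d ω = ∑_(k, v) c ω (x k v) • v⁻¹ y k`; by `RF.e1` (with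
`c ω` applied) `lam (d ω a) = c ω a`.  Nondegeneracy: `lam (z a) = 0` for all `a` gives `z = 0`
(`RF.e1` and symmetry).  `ed`: `lam (d (g ω) a) = c (g ω) a = c ω (g⁻¹ a) = lam (v d ω u⁻¹ a)`, `g = (u, v)`. -/
def RfdStmt : Prop :=
  ∀ (R V A K Ω : Type) [CommRing R] [CommGroup V] [Fintype V] [Ring A] [Algebra R A] [Fintype K]
    [Fintype Ω] [MulAction (V × V) Ω] (α : V →* A) (lam : A →ₗ[R] R) (x y : K → A) (b : Ω → A)
    (c : Ω → (A →ₗ[R] R)), RF R α lam x y → FrR (bw R α) b c →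
    (∀ (v : V) (ω : Ω), ((1, v) : V × V) • ω = ω → v = 1) →
    ∃ d : Ω → A, (∀ ω a, c ω a = lam (d ω * a)) ∧ SF R 1 α lam b d

/-- IND.  `rt` does not depend on the system.  Proof: put `E(c) = ∑_v lam (v⁻¹ c) v`.  `e1`, `e2` say
`a = ∑ x k E(y k a) = ∑ E(a x k) y k` (symmetry).  `x' j = ∑_k x k E(y k x' j)`,
`y k = ∑_j E(y k x' j) y' j`; for `a` in the centraliser of `V`:
`∑_j x' j a y' j = ∑_(j, k) x k E(y k x' j) a y' j = ∑_k x k a y k`. -/
def IndStmt : Prop :=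
  ∀ (R V A K K' : Type) [CommRing R] [CommGroup V] [Fintype V] [Ring A] [Algebra R A] [Fintype K]
    [Fintype K'] (α : V →* A) (lam : A →ₗ[R] R) (x y : K → A) (x' y' : K' → A),
    RF R α lam x y → RF R α lam x' y' → ∀ a ∈ FxR (cw R α) ⊤,
      ∑ k, x k * a * y k = ∑ k, x' k * a * y' k

/-- ZRT.  `rt(a)` is central, and `rt(a) * z = rt(a z)` for central `z` (trivial).  Proof:
`c ∑ x k a y k = ∑_(k, l) x l E(y l c x k) a y k = ∑_l x l a y l c`. -/
def ZrtStmt : Prop :=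
  ∀ (R V A K : Type) [CommRing R] [CommGroup V] [Fintype V] [Ring A] [Algebra R A] [Fintype K]
    (α : V →* A) (lam : A →ₗ[R] R) (x y : K → A), RF R α lam x y →
    ∀ a ∈ FxR (cw R α) ⊤, ∀ c : A, c * ∑ k, x k * a * y k = (∑ k, x k * a * y k) * c

/-- TRS.  `rt` is a trace map.  Proof: by nondegeneracy it is enough that `lam (rt(ab) z)` is symmetric
in `a, b`.  `lam (rt(ab) z) = lam (a b m)`, `m = ∑ y k z x k`.  `b m = ∑_(k, l) E(b y k x l) y l z x k`,
`m b = ∑_(k, l) y l z x k E(y k x l b)` and `E(b y k x l) = E(y k x l b) =: g k l` as `b` commutes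
with `V`.  So `lam (a (b m - m b)) = ∑ lam (a g (y l z x k) - a (y l z x k) g) = 0` as `a` commutes
with `g k l`, a combination of the `v ∈ V`; and `lam (a m b) = lam (b a m)`. -/
def TrsStmt : Prop :=
  ∀ (R V A K : Type) [CommRing R] [CommGroup V] [Fintype V] [Ring A] [Algebra R A] [Fintype K]
    (α : V →* A) (lam : A →ₗ[R] R) (x y : K → A), RF R α lam x y →
    ∀ a ∈ FxR (cw R α) ⊤, ∀ b ∈ FxR (cw R α) ⊤,
      ∑ k, x k * (a * b) * y k = ∑ k, x k * (b * a) * y k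

/-- RFS.  A system over a subgroup.  Proof: `(t, q) ↦ t q` is a bijection of `T × Q` onto `V`. -/
def RfsStmt : Prop :=
  ∀ (R V A K : Type) [CommRing R] [CommGroup V] [Fintype V] [Ring A] [Algebra R A] [Fintype K]
    (α : V →* A) (lam : A →ₗ[R] R) (x y : K → A) (Q : Subgroup V) [Fintype Q] (T : Finset V),
    RF R α lam x y → IsTv Q ⊤ T →
    RF R (α.comp Q.subtype) lam (fun p : K × T => x p.1 * α p.2) (fun p => α (p.2 : V)⁻¹ * y p.1)

/-- RFO.  The system of a frame.  Proof: choose representatives `t κ` of the classes `κ` of `ROrb`;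
`(κ, v) ↦ (1, θ⁻¹ v⁻¹) • t κ` is a bijection onto `Ω` (`free`), and with `x = b ∘ t`, `y = d ∘ t`:
`b ((1, θ⁻¹ v⁻¹) t) = x v`, `d (..) = v⁻¹ y`: this is `e1`; `e2` follows by nondegeneracy.  `rt(a)` is
the sum over `κ` of `b a d` at the representatives. -/
def RfoStmt : Prop :=
  ∀ (R V A Ω : Type) [CommRing R] [CommGroup V] [Fintype V] [Ring A] [Algebra R A] [Fintype Ω]
    [MulAction (V × V) Ω] (θ : MulAut V) (α : V →* A) (lam : A →ₗ[R] R) (b d : Ω → A)
    [Fintype (Quotient (ROrb V Ω))],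
    SF R θ α lam b d → ∃ x y : Quotient (ROrb V Ω) → A, RF R α lam x y ∧
      ∀ a ∈ FxR (cw R α) ⊤, ∀ g : Quotient (ROrb V Ω) → A,
        (∀ ω, g (Quotient.mk (ROrb V Ω) ω) = b ω * a * d ω) →
        ∑ κ, x κ * a * y κ = ∑ κ, g κ

/-! ## C. The Brauer quotient -/

/-- BQX.  Existence.  Proof: `FxR (cw R α) Q` is a subalgebra (the centraliser of `α Q`), the Brauer
kernel is a two-sided ideal of it (BKF, BKI); `B` the quotient, `β a = 0` outside of the subalgebra. -/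
def BqxStmt : Prop :=
  ∀ (R V A : Type) [CommRing R] [CommGroup V] [Ring A] [Algebra R A] (α : V →* A)
    (Q : Subgroup V), ∃ (B : Type) (_ : Ring B) (_ : Algebra R B) (αB : V →* B) (β : A → B),
    IsBQ R α Q αB β

/-- LMB.  The form of `A(Q)`.  Proof: `lam (∑_(x ∈ S) x m x⁻¹) = |S| lam m = 0` as `ℓ` divides `|P : P'|`:
`lam` is zero on the Brauer kernel. -/
def LmbStmt : Prop :=
  ∀ (ℓ : ℕ) [Fact ℓ.Prime] (R V A B : Type) [CommRing R] [CommGroup V] [Finite V] [Ring A]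
    [Algebra R A] [Ring B] [Algebra R B] (α : V →* A) (Q : Subgroup V) (αB : V →* B) (β : A → B)
    (lam : A →ₗ[R] R), (ℓ : R) = 0 → IsPGroup ℓ V → (∀ x y, lam (x * y) = lam (y * x)) →
    IsBQ R α Q αB β →
    ∃ lamB : B →ₗ[R] R, ∀ a ∈ FxR (cw R α) Q, lamB (β a) = lam a

/-- SFQ (uses FPX, BKF).  The frame of `A(Q)` from the points of type `θ`.  `n' = n⁻¹`, `n u = θ(u) n`.  For
`ω ∈ OQt Q θ Ω`: `q b ω = b ω θ⁻¹(q)`, so `q b ω n' = b ω n' q`: `b ω n'` and `n d ω` are in the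
centraliser of `Q`.  `eb`, `ed`: `b (g ω) n' = u b ω v⁻¹ n' = u b ω n' θ(v)⁻¹`.  `fr`: let `a` be in the
centraliser of `Q`; then `a n` satisfies `q a n θ⁻¹(q)⁻¹ = a n`, it is fixed by the subgroup
`P = {(q, θ⁻¹ q)}` of `V × V`; FPX with `g ω = lam (d ω a n) b ω` (equivariant for `P`, `OQt` = the fixed
points of `P`): `a n - ∑_(ω ∈ OQt) lam (d ω a n) b ω` is in `BKR (bw) P`, so after multiplication by `n'` on
the right `a - ∑_(ω ∈ OQt) lam (n d ω a) b ω n'` is in `BKR (cw) Q`: for `m` fixed by `P' < P` and a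
transversal `S` of `P'` in `P`, `(∑_(x ∈ S) x.1 m x.2⁻¹) n' = ∑ x.1 (m n') x.1⁻¹` as `θ x.2 = x.1`, and
`m n'` is fixed by the projection of `P'` (which is `< Q`).  Apply `β`. -/
def SfqStmt : Prop :=
  ∀ (R V A B Ω : Type) [CommRing R] [CommGroup V] [Finite V] [Ring A]
    [Algebra R A] [Ring B] [Algebra R B] [Fintype Ω] [MulAction (V × V) Ω] (α : V →* A)
    (Q : Subgroup V) (αB : V →* B) (β : A → B) (lam : A →ₗ[R] R) (lamB : B →ₗ[R] R)
    (b d : Ω → A) (θ : MulAut V) (n n' : A) [Fintype (OQt Q θ Ω)],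
    SF R 1 α lam b d → IsBQ R α Q αB β → (∀ a ∈ FxR (cw R α) Q, lamB (β a) = lam a) →
    n * n' = 1 → n' * n = 1 → (∀ u, n * α u = α (θ u) * n) →
    (∀ ω ∈ OQt Q θ Ω, b ω * n' ∈ FxR (cw R α) Q ∧ n * d ω ∈ FxR (cw R α) Q) ∧
    SF R θ αB lamB (fun ω : OQt Q θ Ω => β (b ω * n')) (fun ω : OQt Q θ Ω => β (n * d ω))

/-- MCK (uses RFD, IND, RFO, SFQ, FPX).  MACKEY FORMULA.  `T` represents the restrictions to `Q` of the
`(φ e)⁻¹`.  Proof.  RFD: a frame `b, d` (`SF R 1 α lam b d`) with stabilisers `tw (φ e) S`; RFO, IND: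
`rt(a) = ∑_κ g κ`, `κ` in the right orbits of `Ω`, `g (mk ω) = b ω a d ω`.  `V` acts on the right orbits by
`q • mk ω = mk ((q, 1) ω)` and `g (q κ) = q g(κ) q⁻¹`.  FPX (`H = V`, `P = Q`, `ρ = cw`): modulo the Brauer
kernel only the fixed `κ` remain.  `mk ω` is fixed iff for every `q ∈ Q` there is `v` with `(q, v) ω = ω`; by the
form of the stabiliser `q = φ e v`, i.e. `v = (φ e)⁻¹ q`: iff `ω ∈ OQt Q (φ e) Ω`, with `e` from the
stabiliser; there is exactly one `t ∈ T` with `ω ∈ OQt Q (φ t) Ω` (right action free).  So the fixed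
`κ` are the disjoint union over `t ∈ T` of the right orbits of `OQt Q (φ t) Ω`.  For such `ω`:
`g (mk ω) = (b ω n'_t) (n_t a n'_t) (n_t d ω)`, all three factors in the centraliser of `Q`.  SFQ, RFO
and IND in `B`: `β (∑_(κ of type t) g κ) = rt_B (β (n_t a n'_t))`. -/
def MckStmt : Prop :=
  ∀ (ℓ : ℕ) [Fact ℓ.Prime] (R V E A B K KB : Type) [CommRing R] [CommGroup V] [Fintype V] [Group E]
    [Ring A] [Algebra R A] [Ring B] [Algebra R B] [Fintype K] [Fintype KB] (φ : E →* MulAut V)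
    (α : V →* A) (Q : Subgroup V) (αB : V →* B) (β : A → B) (lam : A →ₗ[R] R) (x y : K → A)
    (lamB : B →ₗ[R] R) (xB yB : KB → B) (n n' : E → A) (T : Finset E),
    (ℓ : R) = 0 → IsPGroup ℓ V → Per R φ α → RF R α lam x y → IsBQ R α Q αB β →
    RF R αB lamB xB yB → (∀ a ∈ FxR (cw R α) Q, lamB (β a) = lam a) →
    (∀ e, n e * n' e = 1 ∧ n' e * n e = 1 ∧ ∀ u, n e * α u = α (φ e u) * n e) →
    (∀ e : E, ∃! t, t ∈ T ∧ ∀ q ∈ Q, (φ t)⁻¹ q = (φ e)⁻¹ q) →
    ∀ a ∈ FxR (cw R α) ⊤,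
      β (∑ k, x k * a * y k) = ∑ t ∈ T, ∑ k, xB k * β (n t * a * n' t) * yB k

/-- BPU (uses SFQ, LMB, RFD, RFO).  The class is stable under Brauer quotients.  `E1` = the elements
of `E` which act trivially on `Q`.  Proof.  SFQ with `θ = 1`, `n = 1`: frame with a dual family; the
stabiliser of `ω ∈ OQt Q 1 Ω` is `tw (φ e) S` and contains `(q, q)`, so `q ∈ S` and `φ e q = q`: `e ∈ E1`.
The functionals are `z ↦ lamB (d ω z)`.  `RF`: RFO.  Units: `n_e` for `e ∈ E1` is in the centraliser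
of `Q`; take `β n_e`, `β n'_e`. -/
def BpuStmt : Prop :=
  ∀ (ℓ : ℕ) [Fact ℓ.Prime] (R V E A B K : Type) [CommRing R] [CommGroup V] [Fintype V] [Group E]
    [Ring A] [Algebra R A] [Ring B] [Algebra R B] [Fintype K] (φ : E →* MulAut V)
    (α : V →* A) (Q : Subgroup V) (αB : V →* B) (β : A → B) (lam : A →ₗ[R] R) (x y : K → A)
    (E1 : Subgroup E), (ℓ : R) = 0 → IsPGroup ℓ V → Per R φ α → Uni φ α → RF R α lam x y →
    IsBQ R α Q αB β → (∀ e, e ∈ E1 ↔ ∀ q ∈ Q, φ e q = q) →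
    Per R (φ.comp E1.subtype) αB ∧ Uni (φ.comp E1.subtype) αB ∧
    ∃ (lamB : B →ₗ[R] R) (KB : Type) (_ : Fintype KB) (xB yB : KB → B),
      RF R αB lamB xB yB ∧ ∀ a ∈ FxR (cw R α) Q, lamB (β a) = lam a

/-- BBK (uses FCO, FBK, SFQ, LMB, RFD).  Brauer kernels of `A(Q)`.  `P ≤ V`, `PQ = P ⊔ Q`.  (1) If
`a ∈ A^(PQ)` then `β a` is fixed by `P`, and `β a ∈ BK_B(P) ↔ a ∈ BK_A(PQ)`.  (2) Every element of `B`
fixed by `P` is `β a` with `a ∈ A^(PQ)`.  Proof.  `B` has the frame `β (b ω)`, `ω ∈ Ω^Q`, with the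
functionals `lamB (β (d ω) ·)`, `lamB (β (d ω) β a) = lam (d ω a)`.  FCO and FBK for the
conjugation action of `P` on `B` and of `PQ` on `A`: both sides say that `lam (d ω a) = 0` for
all `ω ∈ (Ω^Q)^P = Ω^(PQ)`.  (2): `z = ∑_(ω ∈ Ω^Q) c_ω β (b ω)` with `c` constant on the `P`-orbits
(`Ω^Q` is stable under `(u, u)`); `a = ∑ c_ω b ω` is fixed by `P` and by `Q`. -/
def BbkStmt : Prop :=
  ∀ (ℓ : ℕ) [Fact ℓ.Prime] (R V E A B K : Type) [CommRing R] [CommGroup V] [Fintype V] [Group E]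
    [Ring A] [Algebra R A] [Ring B] [Algebra R B] [Fintype K] (φ : E →* MulAut V)
    (α : V →* A) (Q : Subgroup V) (αB : V →* B) (β : A → B) (lam : A →ₗ[R] R) (x y : K → A)
    (P : Subgroup V), (ℓ : R) = 0 → IsPGroup ℓ V → Per R φ α → RF R α lam x y →
    IsBQ R α Q αB β →
    (∀ a ∈ FxR (cw R α) (P ⊔ Q), β a ∈ FxR (cw R αB) P ∧
      (β a ∈ BKR (cw R αB) P ↔ a ∈ BKR (cw R α) (P ⊔ Q))) ∧
    ∀ z ∈ FxR (cw R αB) P, ∃ a ∈ FxR (cw R α) (P ⊔ Q), β a = z

/-- BCL (uses MCK, BPU, BBK).  `A(Q)` is in the class with `E1 = C_E(Q)`.  Proof.  `fin`: `B` is a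
quotient of `A^Q`.  `per`, `uni`, `RF`: BPU.  `rt`: MCK with `a = 1`: `β (rt(1)) = |T| rt_B(1)`, `|T| = |E : E1|`
(the classes of `T` are the right cosets of `E1`) is prime to `ℓ`, and `β u β (rt(1)) = 1`.  `blk`: for
`P ≤ V` and `e` as in the definition, lift `e` to `e' ∈ A^V` (BBK (2) with `P = ⊤`); by BBK (1), (2)
`e'` satisfies the hypotheses of `blk` of `A` at `P ⊔ Q`; so `e' ∈ BK_A(P ⊔ Q)`, `e ∈ BK_B(P)`. -/
def BclStmt : Prop :=
  ∀ (ℓ : ℕ) [Fact ℓ.Prime] (F V E A B : Type) [Field F] [CharP F ℓ] [CommGroup V] [Fintype V]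
    [Group E] [Finite E] [Ring A] [Algebra F A] [Ring B] [Algebra F B] (φ : E →* MulAut V)
    (α : V →* A) (Q : Subgroup V) (αB : V →* B) (β : A → B) (E1 : Subgroup E),
    IsPGroup ℓ V → ¬ ℓ ∣ Nat.card E → Cl F φ α → IsBQ F α Q αB β →
    (∀ e, e ∈ E1 ↔ ∀ q ∈ Q, φ e q = q) → Cl F (φ.comp E1.subtype) αB

end Pool.Agent.PSS.S0
end
end -- Pool.Agent.PSS.StmtsS0

section -- Pool.Agent.PFD.StmtsD2b

/-!
Squad PFD, part D2b, block 1 (helper36): the bimodule `X = Γ ⊗_(R W) (R Ω ⊗ Γ)` is liftable.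
Complete proofs in the docstrings.  `c_i = cf i`, `c_i' = cf' i`, `b_(i,w) = c_i om w`,
`b'_(i,w) = om w⁻¹ c_i'` (dual families for the symmetric form `lam`).
-/

open scoped BigOperators

noncomputable section

namespace Pool.Agent.PFD.D2b

open MulOpposite
open Pool.Agent.PFC.B1 (BiM FS)
open Pool.Agent.PFD.D2

/-- FPF: frames give the lifting of fixed vectors.

Proof.  Let `n` be fixed modulo `p` by `S`.  Put `d t = c t n`.  For `s` in `S`
`d (s • t) = c (s • t) n`, `c (s • t) (ρ s n) = c t n = d t` and `n - ρ s n` is in `p N`, so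
`d (s • t) - d t` is in `p R`.  Choose a representative `r t` of the `S`-orbit of `t`
(`Quotient.out` of the orbit relation of `S`) and put `d' t = d (r t)`: `d'` is constant on the
`S`-orbits and `d' t - d t` in `p R`.  `m = ∑ d' t • b t`: for `s` in `S`
`ρ s m = ∑ d' t • b (s • t) = m` (reindex), and `m - n = ∑ (d' t - d t) • b t` is in `p N`. -/
def FpfStmt : Prop :=
  ∀ (R G N T : Type) [CommRing R] [Group G] [AddCommGroup N] [Module R N] [Fintype T]
    [MulAction G T] (ρ : G →* (N →ₗ[R] N)) (b : T → N) (c : T → (N →ₗ[R] R)) (p : R),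
    FrR ρ b c → FPl p ρ

/-- EQF: maps which are equivariant modulo `p` lift to equivariant maps.

Proof.  Choose representatives `ω₀` of the `G`-orbits on `Ω`.  `m ω₀` is fixed modulo `p` by the
stabiliser of `ω₀` (put `g` in the stabiliser in the hypothesis), so there is `n₀` fixed by the
stabiliser, congruent to `m ω₀`.  For `ω = g • ω₀` put `m' ω = ρ g n₀` (independent of `g`).
`m' ω - m ω = ρ g (n₀ - m ω₀) + (ρ g (m ω₀) - m (g • ω₀))` is in `p N`. -/
def EqfStmt : Prop :=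
  ∀ (R G N Ω : Type) [CommRing R] [Group G] [AddCommGroup N] [Module R N] [MulAction G Ω]
    (ρ : G →* (N →ₗ[R] N)) (p : R), FPl p ρ →
    ∀ m : Ω → N, (∀ g ω, ∃ x, m (g • ω) - ρ g (m ω) = p • x) →
      ∃ m' : Ω → N, (∀ g ω, m' (g • ω) = ρ g (m' ω)) ∧ ∀ ω, ∃ x, m' ω - m ω = p • x

/-- INX: the formula of `IsX` defines a bimodule.

Proof.  `lm γ` is linear in `f` and in `γ`.  `lm 1 = 1`: `lam (om w⁻¹ c_j' c_i)` is
`lam (om w⁻¹ c_j' (c_i om 1))`, so `1` for `i = j`, `w = 1` and `0` otherwise (`d1`, `d0`).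
`lm (γ δ) = lm γ lm δ`: `(lm γ (lm δ f)) (j, ω)` is the sum over `i, w, k, u` of
`lam (om w⁻¹ c_j' γ c_i) lam (om u⁻¹ c_i' δ c_k) • om (w u) f (k, (w u)⁻¹ • ω)`; with `v = w u` the
coefficient of `om v f (k, v⁻¹ • ω)` is
`∑_(i,w) lam (om w⁻¹ c_j' γ c_i) lam (om v⁻¹ om w c_i' δ c_k)`, and by `sym`
`lam (om w⁻¹ c_j' γ c_i) = lam (c_j' γ (c_i om w⁻¹))`; `h2` for `x = c_j' γ` (index `w⁻¹` instead of
`w`) gives `∑ lam (c_j' γ (c_i om w⁻¹)) • (om w c_i') = c_j' γ`, so the coefficient is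
`lam (om v⁻¹ c_j' γ δ c_k)`.  Scalars: `lm (algebraMap r) = r` from linearity and `lm 1 = 1`.
`rm` and `comm` are clear. -/
def InxStmt : Prop :=
  ∀ (R Γ W I Ω : Type) [CommRing R] [Ring Γ] [Algebra R Γ] [CommGroup W] [Fintype W]
    [Fintype I] [Fintype Ω] [MulAction W Ω] (D : WFS R Γ W I),
    ∃ BX : BiM R Γ (I × Ω → Γ), IsX D Ω BX

/-- ING: the generators `ε ω = 1 ⊗ ω ⊗ 1`.

Proof.  `ε ω (i, ω') = ∑_(w : w • ω = ω') lam (om w⁻¹ c_i') • om w`.  With `s_(i,ω)` = the function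
which is `1` at `(i, ω)` and `0` elsewhere: `lm (c_i) (ε ω) = s_(i,ω)`, because the value of the
left side at `(j, ω')` is `∑_(k,w) ∑_(u : w u ω = ω') lam (om w⁻¹ c_j' c_i c_k)
lam (om u⁻¹ c_k') • om (w u)`, and for fixed `v = w u`:
`∑_(k,w) lam (om w⁻¹ c_j' c_i c_k) lam (om v⁻¹ om w c_k') = lam (om v⁻¹ c_j' c_i)`
(as in INX, `h2` for `x = c_j' c_i`), so the value is
`∑_(v : v ω = ω') lam (om v⁻¹ c_j' c_i) • om v`, by `d1`, `d0` (`v = 1`, `i = j`) the value of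
`s_(i,ω)`.  So `f = ∑ s_(i,ω) f (i,ω) = ∑ c_i ε ω f (i, ω)`.  Equivariance: the value of
`om u (ε ω) om u⁻¹` at `(j, ω')` is `∑_(v : v ω = ω') lam (om v⁻¹ c_j' om u) • om v om u⁻¹` (same
computation with `om u` instead of `c_i`), by `sym` and `v = t u`:
`∑_(t : t u ω = ω') lam (om t⁻¹ c_j') • om t`. -/
def IngStmt : Prop :=
  ∀ (R Γ W I Ω : Type) [CommRing R] [Ring Γ] [Algebra R Γ] [CommGroup W] [Fintype W]
    [Fintype I] [Fintype Ω] [MulAction W Ω] (D : WFS R Γ W I)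
    (BX : BiM R Γ (I × Ω → Γ)), IsX D Ω BX →
    ∃ ε : Ω → (I × Ω → Γ), EqM D.om BX ε ∧
      (∀ (f : I × Ω → Γ), ∑ i, ∑ ω, BX.lm (D.cf i) (BX.rm (op (f (i, ω))) (ε ω)) = f) ∧
      ∀ (ω : Ω) (x : I × Ω) [DecidableEq Ω], ε ω x =
        ∑ w : W, if w • ω = x.2 then D.lam (D.om w⁻¹ * D.cf' x.1) • D.om w else 0

/-- INM: the bimodule homomorphism given by an equivariant map, and its value at `ε ω`.

Proof.  `g f = ∑ c_i m ω f(i, ω)`.  Left linear:
`g (γ f) = ∑_(j,ω') c_j m ω' (γ f) (j, ω') = ∑_(j,ω',i,w) lam (om w⁻¹ c_j' γ c_i) •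
c_j m(ω') om w f (i, w⁻¹ ω')`, with `ω' = w ω`, `m (w ω) om w = om w m ω`:
`∑_(i,ω) (∑_(j,w) lam (om w⁻¹ c_j' (γ c_i)) • c_j om w) m ω f (i, ω) = ∑ γ c_i m ω f (i, ω)` by `h1`.
`g (ε ω) = ∑_(i,w) lam (om w⁻¹ c_i') • c_i m (w ω) om w = (∑ lam (om w⁻¹ c_i' 1) • c_i om w) m ω = m ω`
by `h1`. -/
def InmStmt : Prop :=
  ∀ (R Γ W I Ω N : Type) [CommRing R] [Ring Γ] [Algebra R Γ] [CommGroup W] [Fintype W]
    [Fintype I] [Fintype Ω] [MulAction W Ω] (D : WFS R Γ W I)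
    (BX : BiM R Γ (I × Ω → Γ)) (_ : IsX D Ω BX) [AddCommGroup N] [Module R N]
    (BN : BiM R Γ N) (m : Ω → N), EqM D.om BN m →
    ∃ g : (I × Ω → Γ) →ₗ[R] N, BHom BX BN g ∧
      (∀ f, g f = ∑ i, ∑ ω, BN.lm (D.cf i) (BN.rm (op (f (i, ω))) (m ω))) ∧
      ∀ (ω : Ω) (e : I × Ω → Γ) [DecidableEq Ω], (∀ x : I × Ω, e x =
        ∑ w : W, if w • ω = x.2 then D.lam (D.om w⁻¹ * D.cf' x.1) • D.om w else 0) → g e = m ω

/-- INB: the balanced bilinear map given by an equivariant family `μ ω ω' : Γ → N`.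

Proof.  `β f f' = ∑_(i,ω,i',ω') c_i μ ω ω' (f (i,ω) c_(i')) f' (i',ω')`.
Left linear: as in INM with `μ (w ω) ω' (om w γ) = om w μ ω ω' γ`.
Balanced: `β f (γ f') = ∑_(i,ω) ∑_(j,ω'') ∑_(i',w) lam (om w⁻¹ c_j' γ c_(i')) •
c_i μ ω ω'' (f (i,ω) c_j) om w f' (i', w⁻¹ ω'')`; with `ω'' = w ω'` and
`μ ω (w ω') (x) om w = μ ω ω' (x om w)`:
`∑ c_i μ ω ω' (f (i,ω) ∑_(j,w) lam (om w⁻¹ c_j' (γ c_(i'))) • c_j om w) f' (i',ω')
= ∑ c_i μ ω ω' (f (i,ω) γ c_(i')) f' (i',ω') = β (f γ) f'` by `h1`.  Right linear: clear. -/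
def InbStmt : Prop :=
  ∀ (R Γ W I Ω N : Type) [CommRing R] [Ring Γ] [Algebra R Γ] [CommGroup W] [Fintype W]
    [Fintype I] [Fintype Ω] [MulAction W Ω] (D : WFS R Γ W I)
    (BX : BiM R Γ (I × Ω → Γ)) (_ : IsX D Ω BX) [AddCommGroup N] [Module R N]
    (BN : BiM R Γ N) (μ : Ω → Ω → (Γ →ₗ[R] N)),
    (∀ u v ω ω' γ, μ (u • ω) (v • ω') (D.om u * γ * D.om v⁻¹) =
      wrp D.om BN (u, v) (μ ω ω' γ)) →
    ∃ β : (I × Ω → Γ) →ₗ[R] (I × Ω → Γ) →ₗ[R] N, Bal2 BX BN β ∧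
      ∀ f f', β f f' = ∑ i, ∑ ω, ∑ i', ∑ ω', BN.lm (D.cf i)
        (BN.rm (op (f' (i', ω'))) (μ ω ω' (f (i, ω) * D.cf i')))

/-- FPG: the frame of `Γ` for `W × W`.

Proof.  `(u, v) (i, w) = (i, ph i u * w * v⁻¹)`; `om u (c_i om w) om v⁻¹ = c_i om (ph i u w v⁻¹)` by
`nrm`.  `c (i, w) x = lam (om w⁻¹ c_i' x)`.  Equivariance of `c`: it is enough to check it on the
spanning family `b_(j,t)` (`h1`): both sides are the Kronecker symbol (`d1`, `d0`; the action is by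
bijections).  -/
def FpgStmt : Prop :=
  ∀ (R Γ W I : Type) [CommRing R] [Ring Γ] [Algebra R Γ] [CommGroup W] [Fintype W]
    [Fintype I] (D : WFS R Γ W I),
    ∃ (_ : MulAction (W × W) (I × W)) (c : I × W → (Γ →ₗ[R] R)),
      (∀ (u v : W) (i : I) (w : W), ((u, v) : W × W) • ((i, w) : I × W) =
        (i, D.ph i u * w * v⁻¹)) ∧
      (∀ t x, c t x = D.lam (D.om t.2⁻¹ * D.cf' t.1 * x)) ∧
      FrR (wrp D.om (regB R Γ)) (fun t : I × W => D.cf t.1 * D.om t.2) c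

/-- FPX: the bimodule `X` has a permutation frame for `W × W`, so fixed vectors lift.

Proof.  `(om u f om v⁻¹) (j, ω) = ∑_(i,w) lam (om w⁻¹ c_j' om u c_i) • om w f (i, w⁻¹ ω) om v⁻¹`, and
`om u c_i = c_i om (ph i u)`, so by `d1`, `d0` only `i = j`, `w = ph j u` remains: the value is
`om (ph j u) f (j, (ph j u)⁻¹ ω) om v⁻¹`.  Frame: `T = I × Ω × (I × W)`,
`b (j, ω, (i, w))` = the function with the value `c_i om w` at `(j, ω)` and `0` elsewhere, functional
`f ↦ lam (om w⁻¹ c_i' f (j, ω))`, action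
`(u, v) (j, ω, (i, w)) = (j, ph j u • ω, (i, ph i (ph j u) * w * v⁻¹))` (an action since `ph j` is a
homomorphism and `W` is abelian).  Use FPG for the values and FPF. -/
def FpxStmt : Prop :=
  ∀ (R Γ W I Ω : Type) [CommRing R] [Ring Γ] [Algebra R Γ] [CommGroup W] [Fintype W]
    [Fintype I] [Fintype Ω] [MulAction W Ω] (D : WFS R Γ W I)
    (BX : BiM R Γ (I × Ω → Γ)), IsX D Ω BX → ∀ p : R,
    FPl p (wrp D.om BX) ∧ FPl p (wrp D.om (regB R Γ))

/-- LFA: bimodule homomorphisms `X → N` modulo `p` lift, if the fixed vectors of `N` lift.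

Proof.  `g` a homomorphism modulo `p`.  `m ω = g (ε ω)` is equivariant modulo `p` for the
conjugation action `ρ w = wrp om BN (w, w)` of `W` (`EqM` of `ε`, ING).  `FPl p ρ` follows from
`FPl p (wrp ..)` for the subgroups `{(s, s)}`.  EQF: `m'` equivariant, `m' = m` modulo `p`.
INM gives `g'`, and by ING `g f = g (∑ c_i ε ω f (i,ω))` is congruent to
`∑ c_i (g (ε ω)) f (i,ω)`, hence to `g' f`. -/
def LfaStmt : Prop :=
  ∀ (R Γ W I Ω N : Type) [CommRing R] [Ring Γ] [Algebra R Γ] [CommGroup W] [Fintype W]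
    [Fintype I] [Fintype Ω] [MulAction W Ω] (D : WFS R Γ W I)
    (BX : BiM R Γ (I × Ω → Γ)) (_ : IsX D Ω BX) [AddCommGroup N] [Module R N]
    (BN : BiM R Γ N) (p : R), FPl p (wrp D.om BN) → Lif1 p BX BN

/-- LFB: balanced maps `X × X → N` modulo `p` lift, if the fixed vectors of `N` lift.

Proof.  `W × W` acts on `Ω × Ω × (I × W)` by `(u, v) (ω, ω', t) = (u ω, v ω', (u, v) t)` (the action
of FPG on `I × W`).  `m (ω, ω', t) = β (ε ω b_t) (ε ω')` is equivariant modulo `p` for `wrp om BN`: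
`om u (ε ω b_t) = ε (u ω) om u b_t`, `(ε (u ω) x) (ε (v ω')) om v = (ε (u ω) x) (om v (ε ω'))` is
congruent to `(ε (u ω) x om v) (ε ω')`, with `x = om u b_t om v⁻¹ = b_((u,v) t)`.
EQF: `m'`.  Put `μ ω ω' γ = ∑_t lam (b'_t γ) • m' (ω, ω', t)`; it satisfies the hypothesis of INB
(FPG: equivariance of the coordinates).  INB gives `β'`; `β f f'` is congruent to
`∑ c_i β (ε ω f (i,ω) c_(i')) (ε ω') f' (i',ω')` (ING, and balancedness to move `c_(i')` to the
left), and `x = ∑ lam (b'_t x) b_t` for `x = f (i,ω) c_(i')`, so it is congruent to `β' f f'`. -/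
def LfbStmt : Prop :=
  ∀ (R Γ W I Ω N : Type) [CommRing R] [Ring Γ] [Algebra R Γ] [CommGroup W] [Fintype W]
    [Fintype I] [Fintype Ω] [MulAction W Ω] (D : WFS R Γ W I)
    (BX : BiM R Γ (I × Ω → Γ)) (_ : IsX D Ω BX) [AddCommGroup N] [Module R N]
    (BN : BiM R Γ N) (p : R), FPl p (wrp D.om BN) → Lif2 p BX BN

/-- LFX: `X` is liftable.  From FPX, LFA (`N = X`), LFB (`N = X`, `N = Γ`). -/
def LfxStmt : Prop :=
  ∀ (R Γ W I Ω : Type) [CommRing R] [Ring Γ] [Algebra R Γ] [CommGroup W] [Fintype W]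
    [Fintype I] [Fintype Ω] [MulAction W Ω] (D : WFS R Γ W I)
    (BX : BiM R Γ (I × Ω → Γ)) (p : R), IsX D Ω BX → Lft p BX

/-- HGR: `X` is Higman projective up to the factor `|W|`.

Proof.  `s_ω f = ∑_(j,w) lam (c_j om w⁻¹) * lam (om w f (j, w⁻¹ ω))`, `a f = ∑_ω s_ω f • ε ω`.  For
`f = γ1 (ε ω') γ2` one has `s_ω f = ∑_(u : u ω' = ω) lam (γ1 om u⁻¹) lam (om u γ2)`: by
INM-type computation `f (j, ω'') = ∑_(v : v ω' = ω'') lam (om v⁻¹ c_j' γ1) • om v γ2`, so
`s_ω f = ∑_(j,w,v : w v ω' = ω) lam (c_j om w⁻¹) lam (om v⁻¹ c_j' γ1) lam (om (w v) γ2)`, and with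
`u = w v` fixed `∑_(j,v) lam (om v⁻¹ c_j' γ1) • c_j om v = γ1` gives `lam (γ1 om u⁻¹)`
(`c_j om w⁻¹ = c_j om v om u⁻¹`).
(1) `a (om w x om w⁻¹) = om w (a x) om w⁻¹` (from the formula, `sym`).
(2) `∑_(i) ∑_t c_i (a (c_i' x b_t)) b'_t = x`: for `x = γ1 (ε ω') γ2` the left side is
`∑_(i,u,t) lam (c_i' γ1 om u⁻¹) lam (om u γ2 b_t) • c_i (ε (u ω')) b'_t`
`= ∑_(i,u) lam (om u⁻¹ c_i' γ1) • c_i (ε (u ω')) om u γ2` (`h2`)
`= ∑_(i,u) lam (om u⁻¹ c_i' γ1) • c_i om u (ε ω') γ2 = x` (`h1`).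
(3) `∑_(i,w) ∑_t c_i om w (a (om w⁻¹ c_i' x b_t)) b'_t`: by (1) with `y = c_i' x b_t`
`om w (a (om w⁻¹ y)) = a (y om w⁻¹) om w`, and `∑_t b_t om w⁻¹ ⊗ om w b'_t = ∑_t b_t ⊗ b'_t`
(Casimir, `B1.CasStmt` for `D.fs`), so each `w` gives (2). -/
def HgrStmt : Prop :=
  ∀ (R Γ W I Ω : Type) [CommRing R] [Ring Γ] [Algebra R Γ] [CommGroup W] [Fintype W]
    [Fintype I] [Fintype Ω] [MulAction W Ω] (D : WFS R Γ W I)
    (BX : BiM R Γ (I × Ω → Γ)), IsX D Ω BX →
    ∃ a : (I × Ω → Γ) →ₗ[R] (I × Ω → Γ), ∀ x, ∑ s, ∑ t,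
      BX.lm (D.fs.b s) (BX.rm (op (D.fs.b' t)) (a (BX.lm (D.fs.b' s)
        (BX.rm (op (D.fs.b t)) x)))) = (Fintype.card W : R) • x

end Pool.Agent.PFD.D2b
end
end -- Pool.Agent.PFD.StmtsD2b

section -- Pool.Agent.PFD.DefsD1

/-!
# Squad PFD, block D1: the first order theorem (helper78)

`B → A` symmetric algebras over a commutative ring, the form of `A` restricts to the form of `B`,
the orthogonal complement `P` of `B` is a projective `B`-bimodule.  The complement is given by a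
family `x r, y r` of its elements (`Net`).  All objects are explicit finite sums.
-/

open scoped BigOperators

noncomputable section

namespace Pool.Agent.PFD

open Pool.Agent.PFC.B1

/-- Relative Frobenius system of `A` over `B` with respect to the bimodule projection `pr`. -/
structure RF (R B A N : Type) [CommRing R] [Ring B] [Algebra R B] [Ring A] [Algebra R A]
    [Fintype N] (j : B →ₐ[R] A) (pr : A →ₗ[R] B) where
  x : N → A
  y : N → A
  e1 : ∀ a, ∑ k, x k * j (pr (y k * a)) = a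
  e2 : ∀ a, ∑ k, j (pr (a * x k)) * y k = a

/-- the relative trace -/
def RF.rt {R B A N : Type} [CommRing R] [Ring B] [Algebra R B] [Ring A] [Algebra R A]
    [Fintype N] {j : B →ₐ[R] A} {pr : A →ₗ[R] B} (s : RF R B A N j pr) (a : A) : A :=
  ∑ k, s.x k * a * s.y k

/-- Bilinear functions. -/
structure Bil (R : Type) {M M' X : Type} [CommRing R] [AddCommGroup M] [Module R M]
    [AddCommGroup M'] [Module R M'] [AddCommGroup X] [Module R X] (F : M → M' → X) : Prop where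
  a1 : ∀ a a' b, F (a + a') b = F a b + F a' b
  a2 : ∀ a b b', F a (b + b') = F a b + F a b'
  s1 : ∀ (r : R) a b, F (r • a) b = r • F a b
  s2 : ∀ (r : R) a b, F a (r • b) = r • F a b

/-- Network data: symmetric algebras `B → A` (Frobenius systems `c`, `d`), the orthogonal
projection `pr`, and a family `x r, y r` in the complement `P` of `B` such that
`∑ b_i x_r b_l' ⊗ b_l y_r b_i'` is the Casimir element of `P` (for `x, y` and for `y, x`). -/
structure Net (R B A I J N : Type) [CommRing R] [Ring B] [Algebra R B] [Ring A] [Algebra R A]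
    [Fintype I] [Fintype J] [Fintype N] where
  c : FS R B I
  d : FS R A J
  cs : ∀ x y, c.lam (x * y) = c.lam (y * x)
  ds : ∀ x y, d.lam (x * y) = d.lam (y * x)
  j : B →ₐ[R] A
  pr : A →ₗ[R] B
  pr_j : ∀ b, pr (j b) = b
  pr_l : ∀ b a, pr (j b * a) = b * pr a
  pr_r : ∀ a b, pr (a * j b) = pr a * b
  ort : ∀ a, d.lam a = c.lam (pr a)
  x : N → A
  y : N → A
  px : ∀ r, pr (x r) = 0
  py : ∀ r, pr (y r) = 0
  cx : ∀ a, ∑ r, ∑ i, ∑ l, d.lam (j (c.b l) * y r * j (c.b' i) * a) •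
    (j (c.b i) * x r * j (c.b' l)) = a - j (pr a)
  cy : ∀ a, ∑ r, ∑ i, ∑ l, d.lam (j (c.b l) * x r * j (c.b' i) * a) •
    (j (c.b i) * y r * j (c.b' l)) = a - j (pr a)

section
variable {R B A I J N : Type} [CommRing R] [Ring B] [Algebra R B] [Ring A] [Algebra R A]
    [Fintype I] [Fintype J] [Fintype N]

/-- the flipped family -/
def Net.op (D : Net R B A I J N) : Net R B A I J N where
  c := D.c
  d := D.d
  cs := D.cs
  ds := D.ds
  j := D.j
  pr := D.pr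
  pr_j := D.pr_j
  pr_l := D.pr_l
  pr_r := D.pr_r
  ort := D.ort
  x := D.y
  y := D.x
  px := D.py
  py := D.px
  cx := D.cy
  cy := D.cx

/-- the element `b_i` in `A` -/
def Net.u (D : Net R B A I J N) (i : I) : A := D.j (D.c.b i)

/-- the element `b_i'` in `A` -/
def Net.u' (D : Net R B A I J N) (i : I) : A := D.j (D.c.b' i)

/-- the form of `A` -/
def Net.T (D : Net R B A I J N) (a : A) : R := D.d.lam a

/-- the weight `t (f1 a1 * f2 a2 * f3 a3 * f4 a4)` -/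
def Net.w4 (D : Net R B A I J N) (f1 f2 f3 f4 : B →ₗ[R] B) (a1 a2 a3 a4 : B) : R :=
  D.c.lam (f1 a1 * f2 a2 * f3 a3 * f4 a4)

/-- the 4-gon with walls `X, X'` and `Y, Y'` -/
def Net.H4 (D : Net R B A I J N) (X X' Y Y' : N → A) (f1 f2 f3 f4 : B →ₗ[R] B) : R :=
  ∑ r, ∑ s, ∑ i1, ∑ i2, ∑ i3, ∑ i4,
    D.w4 f1 f2 f3 f4 (D.c.b' i1) (D.c.b' i2) (D.c.b' i3) (D.c.b' i4) *
      D.T (X r * D.u i1 * Y s * D.u i2 * X' r * D.u i3 * Y' s * D.u i4)

/-- the part of the 4-gon `H4 x y x y` which belongs to `B` -/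
def Net.GB (D : Net R B A I J N) (f1 f2 f3 f4 : B →ₗ[R] B) : R :=
  ∑ r, ∑ s, ∑ i1, ∑ i2, ∑ i3, ∑ i4, ∑ k,
    D.w4 f1 f2 f3 f4 (D.c.b' i1) (D.c.b' i2) (D.c.b' i3) (D.c.b' i4) *
      (D.T (D.x r * D.u i1 * D.x s * D.u i2 * D.u k) *
        D.T (D.u' k * D.y r * D.u i3 * D.y s * D.u i4))

/-- the hexagon; the arguments of the weight are `x1', y3', x2', y1', x3', y2'` -/
def Net.G6 (D : Net R B A I J N) (W : B → B → B → B → B → B → R) : R :=
  ∑ r, ∑ s, ∑ m, ∑ i1, ∑ i2, ∑ i3, ∑ k1, ∑ k2, ∑ k3,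
    W (D.c.b' i1) (D.c.b' k3) (D.c.b' i2) (D.c.b' k1) (D.c.b' i3) (D.c.b' k2) *
      (D.T (D.x r * D.u i1 * D.x s * D.u i2 * D.x m * D.u i3) *
        D.T (D.y r * D.u k1 * D.y s * D.u k2 * D.y m * D.u k3))

/-- the weight of the hexagon -/
def Net.w6 (D : Net R B A I J N) (f1 f2 f3 f4 f5 f6 : B →ₗ[R] B) (a1 a2 a3 a4 a5 a6 : B) : R :=
  D.c.lam (f1 a1 * f2 a2 * f3 a3 * f4 a4 * f5 a5 * f6 a6)

/-- the trace of `z` on `P^B` -/
def Net.E (D : Net R B A I J N) (z : B) : R :=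
  ∑ r, ∑ i, ∑ k, D.T (D.u' k * D.y r * D.u i * D.u k * D.x r * D.j z * D.u' i)

/-- the right connection for which `y` is flat: `b x_r b' ⊗ b' y_r v(b)` -/
def Net.Ry (D : Net R B A I J N) (v : B →ₗ[R] B) (a : A) : A :=
  ∑ s, ∑ i, ∑ l, D.T (D.u i * D.x s * D.u l * a) • (D.u' l * D.y s * D.j (v (D.c.b' i)))

/-- the left connection for which `y` is flat -/
def Net.Ly (D : Net R B A I J N) (v : B →ₗ[R] B) (a : A) : A :=
  ∑ s, ∑ i, ∑ l, D.T (D.u i * D.x s * D.u l * a) • (D.j (v (D.c.b' l)) * D.y s * D.u' i)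

/-- the 4-gon with a bimodule map `de` inserted -/
def Net.N4 (D : Net R B A I J N) (X X' : N → A) (de : A → A) : R :=
  ∑ r, ∑ i, ∑ p, D.T (X r * D.d.b p * X' r * D.u i * de (D.d.b' p) * D.u' i)

/-- A derivation `v` of `B` with divergence `De`. -/
structure Net.Der (D : Net R B A I J N) (v : B →ₗ[R] B) (De : B) : Prop where
  der : ∀ a b, v (a * b) = v a * b + a * v b
  cen : ∀ a, De * a = a * De
  div : ∀ a, D.c.lam (v a) = - D.c.lam (a * De)

end

end Pool.Agent.PFD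
end
end -- Pool.Agent.PFD.DefsD1

section -- Pool.Agent.PFD.StmtsD1

/-!
# Squad PFD, block D1: statements of the rows, with complete proofs (helper78)

Notation of the proofs: `j` is omitted; `b_i, b_i'` are the dual bases of `B` (`u i, u' i` in `A`),
`e_p, e_p'` the dual bases `d.b p, d.b' p` of `A`, `t = c.lam`, `T = d.lam` (both symmetric),
`q a = a - j (pr a)`.  A MOVE (Casimir rules, all in `D1/Key.lean`, for every bilinear `F`):
(M1) `∑ F(x b_i, b_i') = ∑ F(b_i, b_i' x)`, (M2) `∑ F(b_i x, b_i') = ∑ F(b_i, x b_i')`,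
(M3) `∑ F(b_i, b_i') = ∑ F(b_i', b_i)`, (M4) `∑ t(a b_i) b_i' = a = ∑ t(a b_i') b_i`,
(M5) `∑ F(b_i, v b_i') = - ∑ F(v b_i + b_i De, b_i')`; the same M1 - M4 for `A`, and
(CP) `∑_(r,i,l) F(b_i x_r b_l', b_l y_r b_i') = ∑_p F(e_p, e_p') - ∑_i F(b_i, b_i')` (also with `x, y`
exchanged), (CQ) `∑_(s,i,l) T(b_i x_s b_l a) b_l' y_s b_i' = q a` (also with `x, y` exchanged),
(OR) `T(x_r b) = 0 = T(y_r b)` for `b ∈ B`, `T(q(a) a') = T(a q(a'))`.
-/

open scoped BigOperators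

noncomputable section

namespace Pool.Agent.PFD

open Pool.Agent.PFC.B1

/-- `1` -/
abbrev I1 (R B : Type) [CommRing R] [Ring B] [Algebra R B] : B →ₗ[R] B := LinearMap.id

/-- left multiplication -/
abbrev Lz (R : Type) {B : Type} [CommRing R] [Ring B] [Algebra R B] (z : B) : B →ₗ[R] B :=
  LinearMap.mulLeft R z

/-- SUM: the sum over the corners.

Proof.  Pointwise: `t(v(a1) a2 a3 a4) + t(a1 v(a2) a3 a4) + .. = t(v(a1 a2 a3 a4)) =
- t(a1 a2 a3 a4 De) = - t(De a1 a2 a3 a4)`; then add up.  The same with six factors. -/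
def SumStmt : Prop :=
  ∀ (R B A I J N : Type) [CommRing R] [Ring B] [Algebra R B] [Ring A] [Algebra R A]
    [Fintype I] [Fintype J] [Fintype N] (D : Net R B A I J N) (v : B →ₗ[R] B) (De : B),
    D.Der v De →
    (∀ X X' Y Y' : N → A, D.H4 X X' Y Y' v (I1 R B) (I1 R B) (I1 R B) +
      D.H4 X X' Y Y' (I1 R B) v (I1 R B) (I1 R B) + D.H4 X X' Y Y' (I1 R B) (I1 R B) v (I1 R B) +
      D.H4 X X' Y Y' (I1 R B) (I1 R B) (I1 R B) v =
        - D.H4 X X' Y Y' (Lz R De) (I1 R B) (I1 R B) (I1 R B)) ∧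
    (D.GB v (I1 R B) (I1 R B) (I1 R B) + D.GB (I1 R B) v (I1 R B) (I1 R B) +
      D.GB (I1 R B) (I1 R B) v (I1 R B) + D.GB (I1 R B) (I1 R B) (I1 R B) v =
        - D.GB (Lz R De) (I1 R B) (I1 R B) (I1 R B)) ∧
    (D.G6 (D.w6 v (I1 R B) (I1 R B) (I1 R B) (I1 R B) (I1 R B)) +
      D.G6 (D.w6 (I1 R B) v (I1 R B) (I1 R B) (I1 R B) (I1 R B)) +
      D.G6 (D.w6 (I1 R B) (I1 R B) v (I1 R B) (I1 R B) (I1 R B)) +
      D.G6 (D.w6 (I1 R B) (I1 R B) (I1 R B) v (I1 R B) (I1 R B)) +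
      D.G6 (D.w6 (I1 R B) (I1 R B) (I1 R B) (I1 R B) v (I1 R B)) +
      D.G6 (D.w6 (I1 R B) (I1 R B) (I1 R B) (I1 R B) (I1 R B) v) =
        - D.G6 (D.w6 (Lz R De) (I1 R B) (I1 R B) (I1 R B) (I1 R B) (I1 R B)))

/-- ROT: rotation of the 4-gon.

Proof.  In the left side `T(X_r b1 Y_s b2 X'_r b3 Y'_s b4) = T(Y_s b2 X'_r b3 Y'_s b4 X_r b1)` and
`t(f1 b1' f2 b2' f3 b3' f4 b4') = t(f2 b2' f3 b3' f4 b4' f1 b1')`; rename
`(r, s, i1, i2, i3, i4)` into `(s, r, i4, i1, i2, i3)` (`Finset.sum_comm`). -/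
def RotStmt : Prop :=
  ∀ (R B A I J N : Type) [CommRing R] [Ring B] [Algebra R B] [Ring A] [Algebra R A]
    [Fintype I] [Fintype J] [Fintype N] (D : Net R B A I J N) (X X' Y Y' : N → A)
    (f1 f2 f3 f4 : B →ₗ[R] B), D.H4 X X' Y Y' f1 f2 f3 f4 = D.H4 Y Y' X' X f2 f3 f4 f1

/-- RO6: rotation of the hexagon.

Proof.  Rename in the left side `(i1,i2,i3) = (j3,j1,j2)`, `(k1,k2,k3) = (l3,l1,l2)`,
`(r,s,m) = (m',r',s')`: the weight `t(f1 b'_j3 f2 b'_l2 f3 b'_j1 f4 b'_l3 f5 b'_j2 f6 b'_l1)` is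
`t(f3 b'_j1 f4 b'_l3 f5 b'_j2 f6 b'_l1 f1 b'_j3 f2 b'_l2)`, and
`T(x_m' b_j3 x_r' b_j1 x_s' b_j2) = T(x_r' b_j1 x_s' b_j2 x_m' b_j3)`, the same for `y`. -/
def Ro6Stmt : Prop :=
  ∀ (R B A I J N : Type) [CommRing R] [Ring B] [Algebra R B] [Ring A] [Algebra R A]
    [Fintype I] [Fintype J] [Fintype N] (D : Net R B A I J N)
    (f1 f2 f3 f4 f5 f6 : B →ₗ[R] B),
    D.G6 (D.w6 f1 f2 f3 f4 f5 f6) = D.G6 (D.w6 f3 f4 f5 f6 f1 f2)

/-- RES: resolution of the 4-gon.

Proof.  (1) For `a, b ∈ A`: `T(a b) = ∑_k T(a b_k) T(b_k' b) + ∑_(m,i,l) T(a b_i x_m b_l') T(b_l y_m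
b_i' b)` (CP with `F(p, q) = T(a p) T(q b)`, `∑_p T(a e_p) T(e_p' b) = T(a b)`).  Use it in the
4-gon with `a = x_r b_1 x_s b_2`, `b = y_r b_3 y_s b_4`; the first sum is `GB`.
(2) In the second sum: on `b_2` (M2): `∑ (b_2 b_i) ⊗ b_2' = ∑ b_2 ⊗ (b_i b_2')`, so the weight
becomes `f2(b_i b_2')` and the first trace `T(x_r b_1 x_s b_2 x_m b_l')`.  The second trace is
`T(y_r b_3 y_s (b_4 b_l) y_m b_i')`, on `b_4` (M2): the weight becomes `f4(b_l b_4')`, the trace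
`T(y_r b_3 y_s b_4 y_m b_i')`.
(3) M3 for `i` and `l`: weight `t(f1 b_1' f2(b_i' b_2') f3 b_3' f4(b_l' b_4'))`, traces
`T(x_r b_1 x_s b_2 x_m b_l) T(y_r b_3 y_s b_4 y_m b_i)`: this is the hexagon with `i1 = 1, i2 = 2,
i3 = l, k1 = 3, k2 = 4, k3 = i`. -/
def ResStmt : Prop :=
  ∀ (R B A I J N : Type) [CommRing R] [Ring B] [Algebra R B] [Ring A] [Algebra R A]
    [Fintype I] [Fintype J] [Fintype N] (D : Net R B A I J N) (f1 f2 f3 f4 : B →ₗ[R] B),
    D.H4 D.x D.y D.x D.y f1 f2 f3 f4 = D.GB f1 f2 f3 f4 +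
      D.G6 (fun a1 a2 a3 a4 a5 a6 => D.c.lam (f1 a1 * f2 (a2 * a3) * f3 a4 * f4 (a5 * a6)))

/-- GBZ: the `B`-part with a central element.

Proof.  Weight `t(z b1' b2' b3' b4')`.  On `b_3` (M2, `x = b_2'`): `∑ b_3 ⊗ (b_2' b_3') =
∑ (b_3 b_2') ⊗ b_3'`.  Then `∑_4 t(z b1' b3' b4') b_4 = z b_1' b_3'` (M4).  So `GB` is the sum over
`r, k, 3` and `s, 1, 2` of `T((b_1 x_s b_2) b_k x_r) T(b_k' y_r b_3 (b_2' y_s b_1') z b_3')` (`z`
commutes with `b_1'`).  The sum over `s, 1, 2` is `q(b_k x_r) = b_k x_r` (CQ), the result is `E`. -/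
def GbzStmt : Prop :=
  ∀ (R B A I J N : Type) [CommRing R] [Ring B] [Algebra R B] [Ring A] [Algebra R A]
    [Fintype I] [Fintype J] [Fintype N] (D : Net R B A I J N) (z : B), (∀ a, z * a = a * z) →
    D.GB (Lz R z) (I1 R B) (I1 R B) (I1 R B) = D.E z

/-- CON: the connections.

Proof.  Linearity is clear.  Left linearity of `Ry`: on `l` (M2) `∑ (b_l b) ⊗ b_l' = ∑ b_l ⊗
(b b_l')`.  `Ry (a b)`: `T(b_i x_s b_l a b) = T(b b_i x_s b_l a)`, on `i` (M1 with
`F(p, q) = .. v(q)`): `∑ (b b_i) ⊗ v(b_i') = ∑ b_i ⊗ v(b_i' b)`, `v(b_i' b) = v(b_i') b + b_i' v(b)`;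
the second term gives `q(a) v(b)` (CQ).  `Ry 1 = 0` by OR, `pr (Ry a) = 0` by `py`.  `Ly`: the same. -/
def ConStmt : Prop :=
  ∀ (R B A I J N : Type) [CommRing R] [Ring B] [Algebra R B] [Ring A] [Algebra R A]
    [Fintype I] [Fintype J] [Fintype N] (D : Net R B A I J N) (v : B →ₗ[R] B) (De : B),
    D.Der v De →
    (∀ a a', D.Ry v (a + a') = D.Ry v a + D.Ry v a') ∧
    (∀ (r : R) a, D.Ry v (r • a) = r • D.Ry v a) ∧
    (∀ b a, D.Ry v (D.j b * a) = D.j b * D.Ry v a) ∧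
    (∀ a b, D.Ry v (a * D.j b) = D.Ry v a * D.j b + (a - D.j (D.pr a)) * D.j (v b)) ∧
    D.Ry v 1 = 0 ∧ (∀ a, D.pr (D.Ry v a) = 0) ∧
    (∀ a a', D.Ly v (a + a') = D.Ly v a + D.Ly v a') ∧
    (∀ (r : R) a, D.Ly v (r • a) = r • D.Ly v a) ∧
    (∀ a b, D.Ly v (a * D.j b) = D.Ly v a * D.j b) ∧
    (∀ b a, D.Ly v (D.j b * a) = D.j (v b) * (a - D.j (D.pr a)) + D.j b * D.Ly v a)

/-- the sum of GB1 -/
def Net.S1 {R B A I J N : Type} [CommRing R] [Ring B] [Algebra R B] [Ring A] [Algebra R A]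
    [Fintype I] [Fintype J] [Fintype N] (D : Net R B A I J N) (v : B →ₗ[R] B) : R :=
  ∑ r, ∑ i, ∑ k, D.T (D.u' k * D.y r * D.u i * D.u k * D.Ry v (D.x r) * D.u' i)

/-- GB1: the `B`-part with `v` in the first corner.

Proof.  As GBZ: on `b_3` (M2, `x = b_2'`), then `∑_4 t(v(b1') b3' b4') b_4 = v(b_1') b_3'`: the sum
over `r, k, 3` and `s, 1, 2` of `T((b_1 x_s b_2) b_k x_r) T(b_k' y_r b_3 (b_2' y_s v(b_1')) b_3')`; the
sum over `s, 1, 2` is `Ry (b_k x_r) = b_k Ry (x_r)` (definition of `Ry`; M2 as in CON). -/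
def Gb1Stmt : Prop :=
  ∀ (R B A I J N : Type) [CommRing R] [Ring B] [Algebra R B] [Ring A] [Algebra R A]
    [Fintype I] [Fintype J] [Fintype N] (D : Net R B A I J N) (v : B →ₗ[R] B),
    D.GB v (I1 R B) (I1 R B) (I1 R B) = D.S1 v

/-- GB3: the `B`-part, rotated by two.

Proof.  Rename `(i1,i2,i3,i4)` into `(i3,i4,i1,i2)` in the left side: weight
`t(b3' b4' v(b1') b2') = t(v(b1') b2' b3' b4')`, traces `T(x_r b_3 x_s b_4 b_k) T(b_k' y_r b_1 y_s
b_2) = T(b_k x_r b_3 x_s b_4) T(y_r b_1 y_s b_2 b_k')`, M3 for `k`. -/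
def Gb3Stmt : Prop :=
  ∀ (R B A I J N : Type) [CommRing R] [Ring B] [Algebra R B] [Ring A] [Algebra R A]
    [Fintype I] [Fintype J] [Fintype N] (D : Net R B A I J N) (v : B →ₗ[R] B),
    D.GB (I1 R B) (I1 R B) v (I1 R B) = D.op.GB v (I1 R B) (I1 R B) (I1 R B)

/-- ADJ: the adjoint of the right connection for which `x` is flat.

Proof.  `T(Rx(a) b) = ∑ T(b_i y_s b_l a) T(b_l' x_s v(b_i') b)`.  M5 on `i`:
`- ∑ T((v(b_i) + b_i De) y_s b_l a) T(b_l' x_s b_i' b) = - T(a Z)`, `Z = ∑ T(b_l' x_s b_i' b)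
(v(b_i) + De b_i) y_s b_l` (`De` central).  By M3 for `i` and `l` (and exchanging the names) the
first part of `Z` is `Ly b`, the second is `De q(b)` (CQ). -/
def AdjStmt : Prop :=
  ∀ (R B A I J N : Type) [CommRing R] [Ring B] [Algebra R B] [Ring A] [Algebra R A]
    [Fintype I] [Fintype J] [Fintype N] (D : Net R B A I J N) (v : B →ₗ[R] B) (De : B),
    D.Der v De → ∀ a b : A,
    D.T (D.op.Ry v a * b) = - D.T (a * (D.Ly v b + D.j De * (b - D.j (D.pr b))))

/-- KAP: the tensor `κ = ∑_(i,k) b_i' b_k' ⊗ b_i b_k`.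

Proof.  (1) M3 for `i` and `k`.  (2) first factor central, in the form `∑ b_i b_k ⊗ b_i' b_k'`:
`∑ x b_i b_k ⊗ b_i' b_k' = ∑ b_i b_k ⊗ b_i' x b_k'` (M1 on `i`) `= ∑ b_i b_k x ⊗ b_i' b_k'` (M2 on
`k`).  (3) second factor central: `∑ b_i b_k ⊗ b_i' b_k' x = ∑ b_i x b_k ⊗ b_i' b_k'` (M1 on `k`)
`= ∑ b_i b_k ⊗ x b_i' b_k'` (M2 on `i`).  (4) `z` central: `∑ z b_i b_k ⊗ b_i' b_k' =
∑ b_i b_k ⊗ b_i' z b_k'` (M1).  (5) Leibniz and M5 for `i` and for `k`.  Transfer between the two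
forms by (1). -/
def KapStmt : Prop :=
  ∀ (R B A I J N X : Type) [CommRing R] [Ring B] [Algebra R B] [Ring A] [Algebra R A]
    [Fintype I] [Fintype J] [Fintype N] [AddCommGroup X] [Module R X] (D : Net R B A I J N)
    (F : B → B → X), Bil R F →
    (∑ i, ∑ k, F (D.c.b' i * D.c.b' k) (D.c.b i * D.c.b k) =
      ∑ i, ∑ k, F (D.c.b i * D.c.b k) (D.c.b' i * D.c.b' k)) ∧
    (∀ x, ∑ i, ∑ k, F (x * (D.c.b' i * D.c.b' k)) (D.c.b i * D.c.b k) =
      ∑ i, ∑ k, F (D.c.b' i * D.c.b' k * x) (D.c.b i * D.c.b k)) ∧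
    (∀ x, ∑ i, ∑ k, F (D.c.b' i * D.c.b' k) (x * (D.c.b i * D.c.b k)) =
      ∑ i, ∑ k, F (D.c.b' i * D.c.b' k) (D.c.b i * D.c.b k * x)) ∧
    (∀ z, (∀ a, z * a = a * z) → ∑ i, ∑ k, F (z * (D.c.b' i * D.c.b' k)) (D.c.b i * D.c.b k) =
      ∑ i, ∑ k, F (D.c.b' i * D.c.b' k) (z * (D.c.b i * D.c.b k))) ∧
    (∀ (v : B →ₗ[R] B) (De : B), D.Der v De →
      ∑ i, ∑ k, F (v (D.c.b' i * D.c.b' k)) (D.c.b i * D.c.b k) +
      ∑ i, ∑ k, F (D.c.b' i * D.c.b' k) (v (D.c.b i * D.c.b k)) =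
        - ((2 : R) • ∑ i, ∑ k, F (De * (D.c.b' i * D.c.b' k)) (D.c.b i * D.c.b k)))

/-- the sum `∑ T(y_r v(κ1) x_r κ2)` -/
def Net.e1 {R B A I J N : Type} [CommRing R] [Ring B] [Algebra R B] [Ring A] [Algebra R A]
    [Fintype I] [Fintype J] [Fintype N] (D : Net R B A I J N) (v : B →ₗ[R] B) : R :=
  ∑ r, ∑ i, ∑ k, D.T (D.y r * D.j (v (D.c.b' i * D.c.b' k)) * D.x r * D.j (D.c.b i * D.c.b k))

/-- S1A.

Proof.  Write `κ1 = b_i' b_k'`, `κ2 = b_i b_k` (sum over `i, k`).  `S1 D = ∑ T(y_r κ2 Ry(x_r) κ1)`,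
`S1 D.op = ∑ T(x_r κ2 Rx(y_r) κ1) = ∑ T(Rx(y_r) κ1 x_r κ2)` (`Rx = D.op.Ry v`), by ADJ
`= - ∑ T(y_r Ly(κ1 x_r κ2)) - ∑ T(y_r De κ1 x_r κ2)` (`q(κ1 x_r κ2) = κ1 x_r κ2`), and (CON)
`Ly(κ1 x_r κ2) = v(κ1) x_r κ2 + κ1 Ly(x_r) κ2`.  So `S1 D.op = - e1 - S' - E De` with
`S' = ∑ T(y_r κ1 Ly(x_r) κ2)`; `∑ T(y_r De κ1 x_r κ2) = E De` by KAP (4), (1).  `S' = S1 D`: insert
the definitions, `S' = ∑ T(b_i x_s b_l x_r) T(y_r κ1 v(b_l') y_s b_i' κ2)`; exchange the names
`r, s` and `i, l`: `∑ T(b_l x_r b_i x_s) T(y_s κ1 v(b_i') y_r b_l' κ2)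
= ∑ T(b_i x_s b_l x_r) T(y_r b_l' κ2 y_s κ1 v(b_i'))`, and `b_l' κ2 = κ2 b_l'`, `κ1 v(b_i') = v(b_i') κ1`
(KAP (2), (3)) gives `∑ T(b_i x_s b_l x_r) T(y_r κ2 b_l' y_s v(b_i') κ1) = S1 D`. -/
def S1aStmt : Prop :=
  ∀ (R B A I J N : Type) [CommRing R] [Ring B] [Algebra R B] [Ring A] [Algebra R A]
    [Fintype I] [Fintype J] [Fintype N] (D : Net R B A I J N) (v : B →ₗ[R] B) (De : B),
    D.Der v De → D.S1 v + D.op.S1 v = - (D.e1 v + D.E De)

/-- S1B.

Proof.  `E z = ∑ T(y_r κ2 x_r z κ1)`; `D.op.E z = ∑ T(x_r κ2 y_r z κ1) = ∑ T(y_r z κ1 x_r κ2)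
= ∑ T(y_r κ1 x_r z κ2)` (KAP (4)) `= ∑ T(y_r κ2 x_r z κ1)` (KAP (1)).  `e1 D.op =
∑ T(x_r v(κ1) y_r κ2) = ∑ T(y_r κ2 x_r v(κ1)) = ∑ T(y_r κ1 x_r v(κ2))` (KAP (1)), so by KAP (5)
`e1 D + e1 D.op = - 2 ∑ T(y_r De κ1 x_r κ2) = - 2 E De`. -/
def S1bStmt : Prop :=
  ∀ (R B A I J N : Type) [CommRing R] [Ring B] [Algebra R B] [Ring A] [Algebra R A]
    [Fintype I] [Fintype J] [Fintype N] (D : Net R B A I J N) (v : B →ₗ[R] B) (De : B),
    D.Der v De → D.e1 v + D.op.e1 v = - (2 * D.E De) ∧ D.op.E De = D.E De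

/-- LNK: the 4-gon with `v` in the first corner, as a sum over one wall.

Proof.  `∑ t(v(b1') b2' b3' b4') T(X_r b_1 x_s b_2 X'_r b_3 y_s b_4)`.  On `b_3` (M2, `x = b_2'`):
`∑ b_3 ⊗ (b_2' b_3') = ∑ (b_3 b_2') ⊗ b_3'`; `∑_4 t(v(b1') b3' b4') b_4 = v(b_1') b_3'` (M4):
`∑ T(X_r (b_1 x_s b_2) X'_r b_3 (b_2' y_s v(b_1')) b_3')`.  And `∑_p F(e_p, Ry(e_p')) =
∑ F(b_1 x_s b_2, b_2' y_s v(b_1'))` for bilinear `F`, because `∑_p T(b_1 x_s b_2 e_p') e_p =
b_1 x_s b_2`. -/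
def LnkStmt : Prop :=
  ∀ (R B A I J N : Type) [CommRing R] [Ring B] [Algebra R B] [Ring A] [Algebra R A]
    [Fintype I] [Fintype J] [Fintype N] (D : Net R B A I J N) (v : B →ₗ[R] B) (X X' : N → A),
    D.H4 X X' D.x D.y v (I1 R B) (I1 R B) (I1 R B) = D.N4 X X' (D.Ry v)

/-- GAU: independence of the family.

Proof.  `de` is a bimodule map with `de 1 = 0`, so `de b = 0` for `b ∈ B`.  By CP (and
`de(b_l y_s b_i') = b_l de(y_s) b_i'`) `∑_p F(e_p, de e_p') = ∑_(s,1,2) F(b_1 x_s b_2,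
b_2' de(y_s) b_1')` (M3 for one index).  So `N4 X X' de = ∑ T(X_r b_1 x_s b_2 X'_r b_i b_2' de(y_s)
b_1' b_i')`.  Three moves: on `i` (M2, `x = b_2'`): slots `(b_i, b_1' b_2' b_i')`; on `2` (M2,
`x = b_1'`): `(b_2, b_1' b_2')` becomes `(b_2 b_1', b_2')`; on `i` (M2, `x = b_2'`) back:
`T((b_i' X_r b_1) x_s b_2 (b_1' X'_r b_i) b_2' de(y_s))`.  For `(X, X') = (x, y)` and for
`(X, X') = (y, x)` the sum over `r, i, 1` is by CP (M3) the sum over `p` of
`T(q(e_p) x_s b_2 e_p' b_2' de(y_s))`: the same. -/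
def GauStmt : Prop :=
  ∀ (R B A I J N : Type) [CommRing R] [Ring B] [Algebra R B] [Ring A] [Algebra R A]
    [Fintype I] [Fintype J] [Fintype N] (D : Net R B A I J N) (de : A →ₗ[R] A),
    (∀ b a, de (D.j b * a) = D.j b * de a) → (∀ a b, de (a * D.j b) = de a * D.j b) →
    de 1 = 0 → D.N4 D.x D.y de = D.N4 D.y D.x de

/-- W13: the gauge identity.

Proof.  LNK for `D` and for `D.op` (`D.op.x = D.y`, `D.op.y = D.x`): the four sums are
`N4 x y Ry`, `N4 y x Rx`, `N4 x y Rx`, `N4 y x Ry` (`H4` and `N4` for `D.op` are those of `D`, `rfl`).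
`de = Ry - Rx` is a linear bimodule map with `de 1 = 0` (CON for `D` and `D.op`), `N4` is additive in
`de`, GAU. -/
def W13Stmt : Prop :=
  ∀ (R B A I J N : Type) [CommRing R] [Ring B] [Algebra R B] [Ring A] [Algebra R A]
    [Fintype I] [Fintype J] [Fintype N] (D : Net R B A I J N) (v : B →ₗ[R] B) (De : B),
    D.Der v De →
    D.H4 D.x D.y D.x D.y v (I1 R B) (I1 R B) (I1 R B) +
      D.H4 D.y D.x D.y D.x v (I1 R B) (I1 R B) (I1 R B) =
    D.H4 D.x D.y D.y D.x v (I1 R B) (I1 R B) (I1 R B) +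
      D.H4 D.y D.x D.x D.y v (I1 R B) (I1 R B) (I1 R B)

/-- NID: the network identity (theorem (II) without traces).

Proof.  `W1..W4` the four sums of SUM for `x y x y`, `GB1..GB4` the sums of SUM for `GB`, `p`, `m` the
hexagons with `v` in the first, second place; by RO6 the places 1, 3, 5 give `p`, the places 2, 4, 6
give `m`.  RES and Leibniz (`v(a2 a3) = v(a2) a3 + a2 v(a3)`): `W1 = GB1 + p`, `W2 = GB2 + m + p`,
`W3 = GB3 + m`, `W4 = GB4 + p + m`.  ROT: `W2 = H4 x y y x v 1 1 1`, `W3 = H4 y x y x v 1 1 1`,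
`W4 = H4 y x x y v 1 1 1`; W13: `W1 + W3 = W2 + W4`.  GB1, GB3: `GB1 + GB3 = S1 D + S1 D.op`, and
`2 (S1 D + S1 D.op) = 0` by S1A for `D` and `D.op` and S1B, so it is `0`.  SUM: `GB2 + GB4 = - E De`
(GBZ).  So `p + m = 2 (p + m) - E De`, `p + m = E De`; SUM: `3 (p + m) = - G6(De)`.  RES with
`f1 = De`: `H4(De) = E De + G6(De) = - 2 E De`. -/
def NidStmt : Prop :=
  ∀ (K B A I J N : Type) [Field K] [CharZero K] [Ring B] [Algebra K B] [Ring A] [Algebra K A]
    [Fintype I] [Fintype J] [Fintype N] (D : Net K B A I J N) (v : B →ₗ[K] B) (De : B),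
    D.Der v De → 2 * D.E De + D.H4 D.x D.y D.x D.y (Lz K De) (I1 K B) (I1 K B) (I1 K B) = 0

/-! ### traces -/

/-- TRF: the trace of an endomorphism by a Frobenius system.

Proof.  `h x = ∑ lam(b_i' x) h(b_i)` (h1), so `h` is the sum of the rank one maps
`(lam(b_i' ·)) ⊗ h(b_i)`, whose traces are `lam(b_i' h(b_i))`. -/
def TrfStmt : Prop :=
  ∀ (K A J : Type) [Field K] [Ring A] [Algebra K A] [Module.Finite K A] [Fintype J]
    (d : FS K A J) (h : A →ₗ[K] A), LinearMap.trace K A h = ∑ p, d.lam (d.b' p * h (d.b p))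

/-- the centraliser of `B` in the complement `P` -/
def Net.PB {R B A I J N : Type} [CommRing R] [Ring B] [Algebra R B] [Ring A] [Algebra R A]
    [Fintype I] [Fintype J] [Fintype N] (D : Net R B A I J N) : Submodule R A where
  carrier := {a | D.pr a = 0 ∧ ∀ b, D.j b * a = a * D.j b}
  zero_mem' := ⟨by simp, fun b => by simp⟩
  add_mem' := fun {a a'} h h' => ⟨by rw [map_add, h.1, h'.1, add_zero], fun b => by
    rw [mul_add, add_mul, h.2, h'.2]⟩
  smul_mem' := fun r a h => ⟨by rw [map_smul, h.1, smul_zero], fun b => by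
    rw [mul_smul_comm, smul_mul_assoc, h.2]⟩

/-- TPB: the trace on `P^B`.

Proof.  `β : PB → A`, `β p = ∑_(l,r) T(y_r p b_l) x_r b_l'`, `τ : A → A`, `τ a = ∑ b_i a b_i'`.  `τ a`
commutes with `B` (M1).  For `p ∈ PB`: `τ(β p) = ∑ T(y_r p b_l) b_i x_r b_l' b_i' = ∑ T(y_r p b_i'
b_l) b_i x_r b_l'` (M1 on `l`, `x = b_i'`) `= ∑ T(b_l y_r b_i' p) b_i x_r b_l' = q p = p` (`cx`).  So
`h = g ∘ τ ∘ β` (`g ∘ τ : A → PB`, because `τ a` commutes with `B`), and `trace h = trace (β ∘ g ∘ τ)` on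
`A` (`LinearMap.trace_comp_comm'`), by TRF `= ∑_p T(e_p' β(g(τ(e_p)))) = ∑ T(y_r g(τ(e_p)) b_l)
T(x_r b_l' e_p') = ∑ T(y_r g(τ(x_r b_l')) b_l)`. -/
def TpbStmt : Prop :=
  ∀ (K B A I J N : Type) [Field K] [Ring B] [Algebra K B] [Ring A] [Algebra K A]
    [Module.Finite K A] [Fintype I] [Fintype J] [Fintype N] (D : Net K B A I J N)
    (g : A →ₗ[K] A) (h : D.PB →ₗ[K] D.PB),
    (∀ a, (∀ b, D.j b * a = a * D.j b) → g a ∈ D.PB) → (∀ p : D.PB, (h p : A) = g p) →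
    LinearMap.trace K D.PB h =
      ∑ r, ∑ i, ∑ l, D.T (g (D.u i * D.x r * D.u' l * D.u' i) * D.u l * D.y r)

/-- TZB: a trace on the centre of `B`.

Proof.  `h` is the composition of the inclusion `Z(B) → B`, of `ps : B → B` and of
`b ↦ z ∑ b_i b b_i'`, which maps `B` to `Z(B)` (M1).  So `trace h` is the trace of
`b ↦ z ∑ b_i ps(b) b_i'` on `B` (`LinearMap.trace_comp_comm'`), TRF. -/
def TzbStmt : Prop :=
  ∀ (K B A I J N : Type) [Field K] [Ring B] [Algebra K B] [Module.Finite K B] [Ring A]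
    [Algebra K A] [Fintype I] [Fintype J] [Fintype N] (D : Net K B A I J N)
    (z : B) (ps : B →ₗ[K] B) (h : Subalgebra.center K B →ₗ[K] Subalgebra.center K B),
    (∀ a, z * a = a * z) →
    (∀ w : Subalgebra.center K B, (h w : B) = z * ∑ i, D.c.b i * ps w * D.c.b' i) →
    LinearMap.trace K (Subalgebra.center K B) h =
      ∑ l, ∑ i, D.c.lam (D.c.b' l * (z * (D.c.b i * ps (D.c.b l) * D.c.b' i)))

/-- DPP: the sum which the trace formula gives is the 4-gon.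

Proof.  The left side is `∑ T(x_s b_i x_r (b_l' b_i') y_s (b_k' b_l) y_r (z b_k))`.  On `l` (M1,
`x = b_i'`, after M3): `(b_l' b_i', b_l)` becomes `(b_l', b_i' b_l)`: the third slot is `b_k' b_i' b_l`.
On `k`: `(b_k' (b_i' b_l), b_k)` becomes `(b_k', b_i' b_l b_k)`.  Result:
`T(x_s b_i x_r b_l' y_s b_k' y_r z b_i' b_l b_k)`.  With M3 for `l` and `k` and M4
(`∑_4 t(z b1' b2' b3' b4') b_4 = z b_1' b_2' b_3'`) it is the 4-gon (`1 = i`, `2 = l`, `3 = k`, the
names `r, s` exchanged). -/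
def DppStmt : Prop :=
  ∀ (R B A I J N : Type) [CommRing R] [Ring B] [Algebra R B] [Ring A] [Algebra R A]
    [Fintype I] [Fintype J] [Fintype N] (D : Net R B A I J N) (z : B), (∀ a, z * a = a * z) →
    ∑ s, ∑ k, ∑ r, ∑ i, ∑ l, D.T (D.j z * (D.u k * D.x s * (D.u i * D.x r * D.u' l * D.u' i) *
      D.y s * D.u' k) * D.u l * D.y r) =
    D.H4 D.x D.y D.x D.y (Lz R z) (I1 R B) (I1 R B) (I1 R B)

/-- the relative trace of the family `x, y` -/
def Net.rx {R B A I J N : Type} [CommRing R] [Ring B] [Algebra R B] [Ring A] [Algebra R A]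
    [Fintype I] [Fintype J] [Fintype N] (D : Net R B A I J N) (a : A) : A :=
  a + ∑ r, ∑ i, D.u i * D.x r * a * (D.y r * D.u' i)

/-- RTX: the relative Frobenius system of the family.

Proof.  System: `none ↦ (1, 1)`, `(r, i) ↦ (b_i x_r, y_r b_i')`.  (e1): `j(pr(c)) = ∑_l T(c b_l) b_l'`
(from `ort`, `pr_r`, M4), so the sum is `j(pr a) + ∑ b_i x_r T(y_r b_i' a b_l) b_l' = j(pr a) + q a`
(`cx`).  (e2): `j(pr a) + ∑ j(pr(a b_i x_r)) y_r b_i'`, `j(pr(a b_i x_r)) = ∑_l T(b_l' a b_i x_r) b_l`: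
`∑ T(a b_i x_r b_l') b_l y_r b_i' = q a` (CQ). -/
def RtxStmt : Prop :=
  ∀ (R B A I J N : Type) [CommRing R] [Ring B] [Algebra R B] [Ring A] [Algebra R A]
    [Fintype I] [Fintype J] [Fintype N] (D : Net R B A I J N),
    ∃ s : RF R B A (Option (N × I)) D.j D.pr, ∀ a, s.rt a = D.rx a

/-- RTU: the relative trace is intrinsic.

Proof.  Let `a` commute with `B`.  Independence: `∑ x_k a y_k = ∑_(k,l) x~_l j(pr(y~_l x_k)) a y_k
= ∑ x~_l a j(pr(y~_l x_k)) y_k = ∑_l x~_l a y~_l` (e1 for `s~`, `a` commutes, e2 for `s`).  Central: for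
`c ∈ A`, `c x_k = ∑_l x_l j(pr(y_l c x_k))`, so `c rt(a) = ∑ x_l a j(pr(y_l c x_k)) y_k = ∑ x_l a y_l c`
(e2).  The last claim is clear (`w` central). -/
def RtuStmt : Prop :=
  ∀ (R B A N N' : Type) [CommRing R] [Ring B] [Algebra R B] [Ring A] [Algebra R A]
    [Fintype N] [Fintype N'] (j : B →ₐ[R] A) (pr : A →ₗ[R] B) (s : RF R B A N j pr)
    (s' : RF R B A N' j pr) (a : A), (∀ b, j b * a = a * j b) →
    s.rt a = s'.rt a ∧ (∀ c, c * s.rt a = s.rt a * c) ∧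
    ∀ w : A, (∀ c, w * c = c * w) → s.rt (w * a) = w * s.rt a

/-- TRC: the trace of the multiplication with the relative trace of `z`.

Proof.  `C = {a : b a = a b for all b ∈ B}` (a submodule), `z ∈ Z(B)`, `rx : C → Z(A)` (RTX, RTU),
`rx(z) w = rx(z w)` for `w ∈ Z(A)`.  So `f` is the composition of `Z(A) → C, w ↦ z w` and of `rx`;
`trace f = trace (H : C → C, H c = z rx(c))` (`LinearMap.trace_comp_comm'`).  `C = j Z(B) + PB`:
`i1 = j : Z(B) → C`, `p1 = pr : C → Z(B)`, `i2 : PB → C`, `p2 = q : C → PB`, `i1 p1 + i2 p2 = 1`, so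
`trace H = trace (p1 H i1) + trace (p2 H i2)`.
(1) `p1 H i1 (w) = pr(z rx(w)) = z w + z ∑_i b_i ps(w) b_i'`, `ps(b) = ∑_r pr(x_r b y_r)`: by TZB the
trace is `trace g + ∑_(l,i,r) T(b_l' z b_i x_r b_l y_r b_i')` (`t(pr a) = T(a)`); by KAP (with
`κ1 = b_i' b_l'` ...) the sum is `E z`: it is `∑ T(x_r b_l y_r (b_i' b_l' b_i) z)`, on `i` (M3, M1
`x = b_l`; it is `∑_l b_l ⊗ τ(b_l')`, `τ(b) = ∑ b_i' b b_i`) equal to `κ2 ⊗ κ1` in the slots.
(2) `p2 H i2 (p) = q(z rx(p)) = z p + q(z ∑ b_k x_s p y_s b_k')`; TPB with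
`g a = z q(a) + q(z ∑ b_k x_s a y_s b_k')`; `T(q(c) b_l y_r) = T(c b_l y_r)` (OR): the first term gives
`∑ T(z b_i x_r b_l' b_i' b_l y_r) = E z` (KAP), the second the 4-gon (DPP). -/
def TrcStmt : Prop :=
  ∀ (K B A I J N : Type) [Field K] [Ring B] [Algebra K B] [Module.Finite K B] [Ring A]
    [Algebra K A] [Module.Finite K A] [Fintype I] [Fintype J] [Fintype N] (D : Net K B A I J N)
    (z : B) (f : Subalgebra.center K A →ₗ[K] Subalgebra.center K A)
    (g : Subalgebra.center K B →ₗ[K] Subalgebra.center K B), (∀ a, z * a = a * z) →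
    (∀ w, (f w : A) = D.rx (D.j z) * w) → (∀ w, (g w : B) = z * w) →
    LinearMap.trace K _ f = LinearMap.trace K _ g + 2 * D.E z +
      D.H4 D.x D.y D.x D.y (Lz K z) (I1 K B) (I1 K B) (I1 K B)

/-- NTX: the network data of a Higman operator.

Proof.  `q a = a - j (pr a)` is a bimodule map, `q q = q`, `T(q(a) a') = T(a q(a'))`.  With `al = sp.a`,
`N = J`: `x_p = q(al(q(e_p)))`, `y_p = q(e_p')`.  (`cx`): put `c_il = b_i' a b_l`; the sum over `p` of
`T(q(e_p') c_il) q(al(q(e_p)))` is `q(al(q(c_il)))` (M4), and `∑ b_i q(al(q(c_il))) b_l' =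
q(∑ b_i al(b_i' q(a) b_l) b_l') = q(q(q a)) = q a`.  (`cy`): let `al* f = ∑_p T(al(e_p) f) e_p'`, the
adjoint, `T(al(e) f) = T(e al*(f))`; the sum over `p` of `T(q(al(q(e_p))) c_il) q(e_p')` is
`q(al*(q(c_il)))`, and `Z = ∑ b_i al*(b_i' e b_l) b_l'` satisfies `T(Z f) = ∑ T(b_i' e b_l al(b_l' f
b_i)) = T(e ∑ b_l al(b_l' f b_i) b_i') = T(e q(f)) = T(q(e) f)` for all `f`, so `Z = q(e)`. -/
def NtxStmt : Prop :=
  ∀ (R B A I J : Type) [CommRing R] [Ring B] [Algebra R B] [Ring A] [Algebra R A]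
    [Fintype I] [Fintype J] (c : FS R B I) (d : FS R A J) (sp : Split c A),
    (∀ x y, c.lam (x * y) = c.lam (y * x)) → (∀ x y, d.lam (x * y) = d.lam (y * x)) →
    (∀ x, d.lam x = c.lam (sp.pr x)) →
    ∃ D : Net R B A I J J, D.c = c ∧ D.d = d ∧ D.j = sp.j ∧ D.pr = sp.pr

/-- FOT: the first order theorem.

Proof.  NTX, RTX and RTU (the given system and the system of the family have the same relative trace
on elements commuting with `B`), TRC with `z = De`, NID. -/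
def FotStmt : Prop :=
  ∀ (K B A I J N : Type) [Field K] [CharZero K] [Ring B] [Algebra K B] [Module.Finite K B]
    [Ring A] [Algebra K A] [Module.Finite K A] [Fintype I] [Fintype J] [Fintype N]
    (c : FS K B I) (d : FS K A J) (sp : Split c A) (s : RF K B A N sp.j sp.pr),
    (∀ x y, c.lam (x * y) = c.lam (y * x)) → (∀ x y, d.lam (x * y) = d.lam (y * x)) →
    (∀ x, d.lam x = c.lam (sp.pr x)) →
    ∀ (v : B →ₗ[K] B) (De : B), (∀ a b, v (a * b) = v a * b + a * v b) →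
    (∀ a, De * a = a * De) → (∀ a, c.lam (v a) = - c.lam (a * De)) →
    (∀ a, a * s.rt (sp.j De) = s.rt (sp.j De) * a) ∧
    ∀ (f : Subalgebra.center K A →ₗ[K] Subalgebra.center K A)
      (g : Subalgebra.center K B →ₗ[K] Subalgebra.center K B),
      (∀ w, (f w : A) = s.rt (sp.j De) * w) → (∀ w, (g w : B) = De * w) →
      LinearMap.trace K _ f = LinearMap.trace K _ g

end Pool.Agent.PFD
end
end -- Pool.Agent.PFD.StmtsD1

section -- Pool.Agent.Helper86_PFC.Pen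

/-!
Squad PFC, row PEN (helper86).
-/

namespace Pool.Agent.Helper86_PFC

open Pool.Agent.PFC.B1 MulOpposite

section
variable {R Γ P : Type} [CommRing R] [Ring Γ] [Algebra R Γ] [AddCommGroup P] [Module R P]
  (B : BiM R Γ P) (β : P →ₗ[R] P →ₗ[R] Γ × P)

theorem mu_add_left (x x' y : Γ × P) : B.mu β (x + x') y = B.mu β x y + B.mu β x' y := by
  unfold BiM.mu
  have e : (((x + x').1 * y.1, B.lm (x + x').1 y.2 + B.rm (op y.1) (x + x').2) : Γ × P) =
      (x.1 * y.1, B.lm x.1 y.2 + B.rm (op y.1) x.2) +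
        (x'.1 * y.1, B.lm x'.1 y.2 + B.rm (op y.1) x'.2) := by
    apply Prod.ext
    · simp [add_mul]
    · simp only [Prod.fst_add, Prod.snd_add, map_add, LinearMap.add_apply]
      abel
  rw [e, Prod.snd_add, map_add, LinearMap.add_apply]
  abel

theorem mu_add_right (x y y' : Γ × P) : B.mu β x (y + y') = B.mu β x y + B.mu β x y' := by
  unfold BiM.mu
  have e : ((x.1 * (y + y').1, B.lm x.1 (y + y').2 + B.rm (op (y + y').1) x.2) : Γ × P) =
      (x.1 * y.1, B.lm x.1 y.2 + B.rm (op y.1) x.2) +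
        (x.1 * y'.1, B.lm x.1 y'.2 + B.rm (op y'.1) x.2) := by
    apply Prod.ext
    · simp [mul_add]
    · simp only [Prod.fst_add, Prod.snd_add, map_add, LinearMap.add_apply, op_add]
      abel
  rw [e, Prod.snd_add, map_add]
  abel

theorem mu_sub_left (x x' y : Γ × P) : B.mu β (x - x') y = B.mu β x y - B.mu β x' y := by
  have h := mu_add_left B β (x - x') x' y
  rw [sub_add_cancel] at h
  rw [h]; abel

theorem mu_sub_right (x y y' : Γ × P) : B.mu β x (y - y') = B.mu β x y - B.mu β x y' := by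
  have h := mu_add_right B β x (y - y') y'
  rw [sub_add_cancel] at h
  rw [h]; abel

theorem la_add (γ : Γ) (x y : Γ × P) : B.la γ (x + y) = B.la γ x + B.la γ y := by
  unfold BiM.la
  apply Prod.ext
  · simp [mul_add]
  · simp [map_add]

theorem la_sub (γ : Γ) (x y : Γ × P) : B.la γ (x - y) = B.la γ x - B.la γ y := by
  have h := la_add B γ (x - y) y
  rw [sub_add_cancel] at h
  rw [h]; abel

theorem ra_add (γ : Γ) (x y : Γ × P) : B.ra (x + y) γ = B.ra x γ + B.ra y γ := by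
  unfold BiM.ra
  apply Prod.ext
  · simp [add_mul]
  · simp [map_add]

theorem ra_sub (γ : Γ) (x y : Γ × P) : B.ra (x - y) γ = B.ra x γ - B.ra y γ := by
  have h := ra_add B γ (x - y) y
  rw [sub_add_cancel] at h
  rw [h]; abel

theorem mu_g_left (γ : Γ) (y : Γ × P) : B.mu β (γ, 0) y = B.la γ y := by
  unfold BiM.mu BiM.la
  simp

theorem mu_g_right (γ : Γ) (x : Γ × P) : B.mu β x (γ, 0) = B.ra x γ := by
  unfold BiM.mu BiM.ra
  simp

variable {B β}

theorem mu_la (hB : B.Bal β) (γ : Γ) (x y : Γ × P) :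
    B.mu β (B.la γ x) y = B.la γ (B.mu β x y) := by
  unfold BiM.mu
  rw [la_add]
  have h1 : β (B.la γ x).2 y.2 = B.la γ (β x.2 y.2) := hB.1 γ x.2 y.2
  rw [h1]
  refine congrArg (· + B.la γ (β x.2 y.2)) ?_
  unfold BiM.la
  apply Prod.ext
  · show γ * x.1 * y.1 = γ * (x.1 * y.1)
    rw [mul_assoc]
  · show B.lm (γ * x.1) y.2 + B.rm (op y.1) (B.lm γ x.2) =
      B.lm γ (B.lm x.1 y.2 + B.rm (op y.1) x.2)
    rw [map_mul, map_add, ← B.comm]; rfl

theorem mu_ra_la (hB : B.Bal β) (γ : Γ) (x y : Γ × P) :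
    B.mu β (B.ra x γ) y = B.mu β x (B.la γ y) := by
  unfold BiM.mu
  have h1 : β (B.ra x γ).2 y.2 = β x.2 (B.la γ y).2 := hB.2.1 γ x.2 y.2
  rw [h1]
  refine congrArg (· + β x.2 (B.la γ y).2) ?_
  unfold BiM.la BiM.ra
  apply Prod.ext
  · show x.1 * γ * y.1 = x.1 * (γ * y.1)
    rw [mul_assoc]
  · show B.lm (x.1 * γ) y.2 + B.rm (op y.1) (B.rm (op γ) x.2) =
      B.lm x.1 (B.lm γ y.2) + B.rm (op (γ * y.1)) x.2
    rw [map_mul, op_mul, map_mul]; rfl

theorem mu_ra (hB : B.Bal β) (γ : Γ) (x y : Γ × P) :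
    B.mu β x (B.ra y γ) = B.ra (B.mu β x y) γ := by
  unfold BiM.mu
  rw [ra_add]
  have h1 : β x.2 (B.ra y γ).2 = B.ra (β x.2 y.2) γ := hB.2.2 γ x.2 y.2
  rw [h1]
  refine congrArg (· + B.ra (β x.2 y.2) γ) ?_
  unfold BiM.ra
  apply Prod.ext
  · show x.1 * (y.1 * γ) = x.1 * y.1 * γ
    rw [mul_assoc]
  · show B.lm x.1 (B.rm (op γ) y.2) + B.rm (op (y.1 * γ)) x.2 =
      B.rm (op γ) (B.lm x.1 y.2 + B.rm (op y.1) x.2)
    rw [map_add, ← B.comm, op_mul, map_mul]; rfl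

end

/-- PEN. -/
theorem pen : PenStmt := by
  intro R Γ P _ _ _ _ _ B β hB
  refine ⟨?_, ?_, ?_, ?_, ?_, ?_, ?_, ?_⟩
  · intro γ y z
    unfold BiM.as
    rw [mu_g_left, mu_g_left, mu_la hB, sub_self]
  · intro γ x z
    unfold BiM.as
    rw [mu_g_left, mu_g_right, mu_ra_la hB, sub_self]
  · intro γ x y
    unfold BiM.as
    rw [mu_g_right, mu_g_right, mu_ra hB, sub_self]
  · intro γ x y z
    unfold BiM.as
    rw [mu_la hB, mu_la hB, mu_la hB, la_sub]
  · intro γ x y z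
    unfold BiM.as
    rw [mu_ra_la hB, mu_ra_la hB, mu_la hB]
  · intro γ x y z
    unfold BiM.as
    rw [mu_ra hB, mu_ra_la hB, mu_ra_la hB]
  · intro γ x y z
    unfold BiM.as
    rw [mu_ra hB, mu_ra hB, mu_ra hB, ra_sub]
  · intro x y z u
    unfold BiM.as
    rw [mu_sub_left, mu_sub_right]
    abel

end Pool.Agent.Helper86_PFC
end -- Pool.Agent.Helper86_PFC.Pen
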