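import Pool.Agent.Helper12_AWB.B005

/-!
# Merged copies (generated) of the modules

* `Pool.Agent.PSS.StmtsS3`
* `Pool.Agent.PSS.StmtsS3p`
* `Pool.Agent.Helper10_PSS.UNW`
* `Pool.Agent.PST.StmtsUC`
* `Pool.Agent.Helper20_PST.QLU`
* `Pool.Agent.Helper21_PST.NIA`
* `Pool.Agent.Helper28_PST.QTX`
* `Pool.Agent.Helper39_PST.QTF`
* `Pool.Agent.Helper87_PST.QFR`
* `Pool.Agent.Helper92_PST.CIL`
-/

set_option autoImplicit false

section -- Pool.Agent.PSS.StmtsS3

/-!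
# Squad PSS (theorem (S)), block S3 (helper30): the generic fibre

`F` a field of characteristic `ℓ`, `V = ⟨z⟩ × W`, `A` in the class `Cl` for `V, E`, `As` an
`F⟦X⟧`-algebra, a deformation of `A` relative to `W` (`q : As → A` is the reduction modulo `X`), with
`∑ x k * y k = X • unit` (this is the result of block S2).  Then `C = F' ⊗ As` is in the class for `W, E`,
for every field `F'` over `F⟦X⟧`.  All in characteristic `ℓ`.  Structure `Dpr`.

Notation of the proofs: `rt(a) = ∑ x k * a * y k`; `w` for `α w`, `γ w`, ...; `A(Q)`, `As(Q)`, `C(Q)` the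
Brauer quotients (block S0, `IsBQ`).
-/

open scoped BigOperators TensorProduct PowerSeries

noncomputable section

namespace Pool.Agent.PSS.S3

open Pool.Agent.PFC (tw IsTv)
open Pool.Agent.PFD.D2b (FrR)
open Pool.Agent.PSS.S0

/-- `As` is a deformation of `A` relative to `W`, with forms and relative Frobenius systems
(`lam, x, y` of `As` over `W`; `lam0, x0, y0` of `A` over `V`), and `∑ x k * y k = X • unit`. -/
structure Dpr (F : Type) {V E A As K K0 : Type} [Field F] [CommGroup V] [Fintype V] [Group E]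
    [Ring A] [Algebra F A] [Ring As] [Algebra F⟦X⟧ As] [Fintype K] [Fintype K0]
    (φ : E →* MulAut V) (α : V →* A) (W : Subgroup V) [Fintype W] (ψ : E →* MulAut W)
    (γ : W →* As) (q : As →+* A) (lam : As →ₗ[F⟦X⟧] F⟦X⟧) (lam0 : A →ₗ[F] F)
    (x y : K → As) (x0 y0 : K0 → A) : Prop where
  cl : Cl F φ α
  rs : IsRs φ W ψ
  per : Per F⟦X⟧ ψ γ
  uni : Uni ψ γ
  sc : ∀ r : F⟦X⟧, q (algebraMap F⟦X⟧ As r) = algebraMap F A (PowerSeries.constantCoeff r)
  surj : Function.Surjective q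
  ker : ∀ a, q a = 0 → ∃ a', a = (PowerSeries.X : F⟦X⟧) • a'
  qw : ∀ w : W, q (γ w) = α w
  rf : RF F⟦X⟧ γ lam x y
  rf0 : RF F α lam0 x0 y0
  lr : ∀ a, PowerSeries.constantCoeff (lam a) = lam0 (q a)
  unt : ∃ u u' : As, u * u' = 1 ∧ u' * u = 1 ∧ ∑ k, x k * y k = (PowerSeries.X : F⟦X⟧) • u

/-! ## A. Vanishing (Green's theorem on zeros of characters, in characteristic `ℓ`) -/

/-- VAN.  Proof.  `e = ∑ a g`, `n = |G|`.  `a 1 = a 1 e^(n-1)`, so
`f (γ w a(1)) = ∑ f (γ w a(1) a(h_1) a(h_1 h_2) .. a(h_1 .. h_(n-1)))`, the sum over all `(h_1, .., h_n)` in `G^n`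
with `h_1 h_2 .. h_n = π w` (the last one is determined by the others).  Let `Φ(h)` be the summand.
(1) `Φ (h_2, .., h_n, h_1) = Φ (h_1, .., h_n)`: let `π v = h_1`; conjugate by `γ v` (`f (u z u⁻¹) = f z`;
`γ v` commutes with `γ w`): `Φ (h_2, .., h_n, h_1) = f (γ w a(h_1) a(h_1 h_2) .. a(h_1 .. h_n)) =
f (γ w Y γ w a(1) γ w⁻¹) = f (Y γ w a(1)) = f (γ w a(1) Y)`, `Y = a(h_1) .. a(h_1 .. h_(n-1))`, as
`h_1 .. h_n = π w`.  (2) The rotation `σ` of this set of `n`-tuples has `σ^n = 1`, `n` is a power of `ℓ`,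
and `σ` has no fixed point: a constant tuple `h` would give `π w = h^n = 1`.  So for every value `z` of
`Φ` the fibre `Φ⁻¹ z` is `σ`-stable and its cardinality is divisible by `ℓ`
(`IsPGroup.card_modEq_card_fixedPoints` for the group generated by `σ`);
`∑ Φ = ∑_z |Φ⁻¹ z| • z = 0`. -/
def VanStmt : Prop :=
  ∀ (ℓ : ℕ) [Fact ℓ.Prime] (W G B Z : Type) [CommGroup W] [CommGroup G] [Fintype G] [Ring B]
    [AddCommGroup Z] (γ : W →* B) (π : W →* G) (a : G → B) (f : B →+ Z), IsPGroup ℓ G →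
    (∀ z : Z, ℓ • z = 0) → (∀ x y, f (x * y) = f (y * x)) → Function.Surjective π →
    (∀ v g, γ v * a g * γ v⁻¹ = a (π v * g)) → a 1 * ∑ g, a g = a 1 →
    ∀ w, π w ≠ 1 → f (γ w * a 1) = 0

/-- BLS (uses VAN, S0: FTR, RFS, TRS).  Proof.  FTR (`H = W`, `ρ = cw`; a frame from `Per`
restricted to the diagonal): `e = ∑_(t ∈ S) t m t⁻¹` modulo `BK(Q)`, `m ∈ C^Q`.  In `B`: `ē = β e` is a
central idempotent, `c = β m ē`; `ē = ∑_(t ∈ S) t c t⁻¹`, `c ē = c`.  `γB q` is central in `B` for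
`q ∈ Q`, so `a : W ⧸ Q → B`, `a (t Q) = t c t⁻¹` is well defined.  `f z = ∑_(k, t) xB k t z t⁻¹ yB k` is a trace
map on `B` with values in `B` (RFS and TRS for the subgroup `Q`: all of `B` centralises `γB Q`).  VAN:
`0 = f (w c) = ∑_k xB k (w ∑_t t c t⁻¹) yB k = ∑_k xB k w ē yB k = ē ∑_k xB k w yB k`. -/
def BlsStmt : Prop :=
  ∀ (ℓ : ℕ) [Fact ℓ.Prime] (R W E C B K : Type) [CommRing R] [CommGroup W] [Fintype W] [Group E]
    [Ring C] [Algebra R C] [Ring B] [Algebra R B] [Fintype K] (ψ : E →* MulAut W) (γ : W →* C)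
    (Q : Subgroup W) (γB : W →* B) (β : C → B) (lamB : B →ₗ[R] R) (xB yB : K → B) (e : C) (w : W),
    (ℓ : R) = 0 → IsPGroup ℓ W → Per R ψ γ → IsBQ R γ Q γB β → RF R γB lamB xB yB →
    e ∈ FxR (cw R γ) ⊤ → e * e - e ∈ BKR (cw R γ) Q →
    (∀ a ∈ FxR (cw R γ) Q, e * a - a * e ∈ BKR (cw R γ) Q) →
    (∀ Q' : Subgroup W, Q < Q' → e ∈ BKR (cw R γ) Q') → w ∉ Q →
    β e * ∑ k, xB k * γB w * yB k = 0

/-! ## B. The units `rt(w) / X` -/

/-- DIV (uses S0: RFS, IND).  Proof.  RFS for `W ≤ V` and a transversal `T`, IND over `W` (`α v` is in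
the centraliser of `W`): `∑ x k v y k = ∑_(k, t) x0 k t v t⁻¹ y0 k = |T| ∑ x0 k v y0 k`, `|T|` = the index. -/
def DivStmt : Prop :=
  ∀ (ℓ : ℕ) [Fact ℓ.Prime] (F V A K K0 : Type) [Field F] [CharP F ℓ] [CommGroup V] [Fintype V]
    [Ring A] [Algebra F A] [Fintype K] [Fintype K0] (α : V →* A) (W : Subgroup V) [Fintype W]
    (lam : A →ₗ[F] F) (x y : K → A) (x0 y0 : K0 → A), RF F α lam x0 y0 →
    RF F (α.comp W.subtype) lam x y → ℓ ∣ W.index → ∀ v : V, ∑ k, x k * α v * y k = 0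

/-- RDX.  Reduction modulo `X`.  Proof.  `q (r • a) = constantCoeff r • q a`; apply `q` to `e1`, `e2`;
symmetry of `lam0` by lifting. -/
def RdxStmt : Prop :=
  ∀ (F W A As K : Type) [Field F] [CommGroup W] [Fintype W] [Ring A] [Algebra F A] [Ring As]
    [Algebra F⟦X⟧ As] [Fintype K] (ω : W →* A) (γ : W →* As) (q : As →+* A)
    (lam : As →ₗ[F⟦X⟧] F⟦X⟧) (lam0 : A →ₗ[F] F) (x y : K → As),
    (∀ r : F⟦X⟧, q (algebraMap F⟦X⟧ As r) = algebraMap F A (PowerSeries.constantCoeff r)) →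
    Function.Surjective q → (∀ w, q (γ w) = ω w) →
    (∀ a, PowerSeries.constantCoeff (lam a) = lam0 (q a)) → RF F⟦X⟧ γ lam x y →
    RF F ω lam0 (fun k => q (x k)) (fun k => q (y k))

/-- QBK.  `q` maps fixed vectors to fixed vectors and Brauer kernels to Brauer kernels.  Proof:
definitions (`q (∑ x m x⁻¹) = ∑ x q(m) x⁻¹`; span induction, `q (r • a) = constantCoeff r • q a`). -/
def QbkStmt : Prop :=
  ∀ (F W A As : Type) [Field F] [CommGroup W] [Ring A] [Algebra F A] [Ring As]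
    [Algebra F⟦X⟧ As] (ω : W →* A) (γ : W →* As) (q : As →+* A),
    (∀ r : F⟦X⟧, q (algebraMap F⟦X⟧ As r) = algebraMap F A (PowerSeries.constantCoeff r)) →
    (∀ w, q (γ w) = ω w) → ∀ P : Subgroup W,
    (∀ a ∈ FxR (cw F⟦X⟧ γ) P, q a ∈ FxR (cw F ω) P) ∧
    ∀ a ∈ BKR (cw F⟦X⟧ γ) P, q a ∈ BKR (cw F ω) P

/-- TFX (uses S0: FCO, FBK).  `As` and `As^P / BK(P)` are `X`-torsion free.  Proof: frame from `Per`
restricted to the diagonal.  `c ω (X • m) = X * c ω m`, `F⟦X⟧` is a domain. -/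
def TfxStmt : Prop :=
  ∀ (ℓ : ℕ) [Fact ℓ.Prime] (F W E As : Type) [Field F] [CharP F ℓ] [CommGroup W] [Fintype W]
    [Group E] [Ring As] [Algebra F⟦X⟧ As] (ψ : E →* MulAut W) (γ : W →* As), IsPGroup ℓ W →
    Per F⟦X⟧ ψ γ → (∀ a : As, (PowerSeries.X : F⟦X⟧) • a = 0 → a = 0) ∧
    ∀ P : Subgroup W, ∀ a ∈ FxR (cw F⟦X⟧ γ) P,
      (PowerSeries.X : F⟦X⟧) • a ∈ BKR (cw F⟦X⟧ γ) P → a ∈ BKR (cw F⟦X⟧ γ) P

/-- UNX.  Units lift.  Proof.  `As` is a finite `F⟦X⟧`-module (`Per`).  Let `q u1 = v`; `u u1 = 1 - X • c` =: `d`.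
`As = d As + X • As`, so `d As = As` by Nakayama (`F⟦X⟧` is local, `X` is in the maximal ideal); `d d' = 1`,
so `u` has a right inverse; the same on the other side. -/
def UnxStmt : Prop :=
  ∀ (F W E A As : Type) [Field F] [CommGroup W] [Group E] [Ring A] [Algebra F A] [Ring As]
    [Algebra F⟦X⟧ As] (ψ : E →* MulAut W) (γ : W →* As) (q : As →+* A), Per F⟦X⟧ ψ γ →
    Function.Surjective q → (∀ a, q a = 0 → ∃ a', a = (PowerSeries.X : F⟦X⟧) • a') →
    ∀ (u : As) (v : A), q u * v = 1 → v * q u = 1 → ∃ u', u * u' = 1 ∧ u' * u = 1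

/-- IDN (uses S0: BKI, FCO, FBK, BKF).  A central element in a Brauer kernel is nilpotent.  Proof.
The commutative algebra `F[z]` is finite dimensional: `z^n = z^(n+1) c` with `n ≥ 1`, `c ∈ F[z]`;
`e = z^n c^n` is an idempotent (`z^n = z^(2n) c^n`), central, and `z^n = z^n e`.  `e ∈ BK(P)` (BKI).  `e` is
fixed by `V` and its coefficients (frame from `Per`) at the `V`-fixed points vanish, because these
are `P`-fixed (FCO): `e ∈ BK(V)` (FBK).  `Cl.blk` with `Q = ⊥`: `e ∈ BK(⊥) = 0`.  So `z^n = 0`. -/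
def IdnStmt : Prop :=
  ∀ (ℓ : ℕ) [Fact ℓ.Prime] (F V E A : Type) [Field F] [CharP F ℓ] [CommGroup V] [Fintype V]
    [Group E] [Ring A] [Algebra F A] (φ : E →* MulAut V) (α : V →* A) (P : Subgroup V) (z : A),
    IsPGroup ℓ V → Cl F φ α → (∀ a, z * a = a * z) → z ∈ BKR (cw F α) P → IsNilpotent z

/-- UNW (uses DIV, RDX, QBK, TFX, UNX, IDN, S0: MCK, BQX, LMB, BPU, ZRT, BKI, BKF, RES).
`rt(w) = X • unit` for every `w ∈ W`.  Proof.  (1) RDX, DIV: `q (rt(w)) = 0`, so `rt(w) = X • u_w`.  `u_w`, `u`,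
`u'` are central (ZRT and TFX; `u = u_1`).  (2) MCK over `F⟦X⟧` for the group `W`, `φ = ψ`, `Q = ⊤`,
`B = As(W)` (BQX, BPU), `T` a set of representatives of the `e ∈ E` modulo `ψ e = ψ e'`:
`β (rt(w)) = ∑_(t ∈ T) rtB (β (n_t w n'_t)) = ∑_t β (ψ_t w) rtB(1)` (`n_t w n'_t = ψ_t w`, and the elements of `W`
are central in `B`), `β (rt(1)) = |T| rtB(1)`; `|T|` = the index of the kernel of `ψ`, prime to `ℓ`.  With
`ν = |T|⁻¹ ∑_t γ (ψ_t w)`: `X • (u_w - ν u) ∈ BK(⊤)`, so `u_w - ν u ∈ BK(⊤)` (TFX).  (3) Apply `q` (QBK, RES):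
`ū_w - ν̄ ū ∈ BK_A(W)`; `z = ū_w ū⁻¹` is central in `A` (`q` surjective) and `z - ν̄ ∈ BK_A(W)` (BKI).  With
`N = |W|`, a power of `ℓ`: `ν̄^N = |T|^(-N) ∑_t (ψ_t w)^N = 1` (commuting elements, characteristic `ℓ`,
`|T|` in the prime field), and `(z - 1)^N = z^N - 1 = (z^N - ν̄^N)`, which is in `BK_A(W)` (an ideal of `A^W`;
`z` central).  IDN: `z - 1` is nilpotent, `z` and `ū_w` are units, `u_w` is a unit (UNX). -/
def UnwStmt : Prop :=
  ∀ (ℓ : ℕ) [Fact ℓ.Prime] (F V E A As K K0 : Type) [Field F] [CharP F ℓ] [CommGroup V]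
    [Fintype V] [Group E] [Finite E] [Ring A] [Algebra F A] [Ring As] [Algebra F⟦X⟧ As]
    [Fintype K] [Fintype K0] (φ : E →* MulAut V) (α : V →* A) (W : Subgroup V) [Fintype W]
    (ψ : E →* MulAut W) (γ : W →* As) (q : As →+* A) (lam : As →ₗ[F⟦X⟧] F⟦X⟧)
    (lam0 : A →ₗ[F] F) (x y : K → As) (x0 y0 : K0 → A), IsPGroup ℓ V → ¬ ℓ ∣ Nat.card E →
    ℓ ∣ W.index → Dpr F φ α W ψ γ q lam lam0 x y x0 y0 →
    ∀ w : W, ∃ u u' : As, u * u' = 1 ∧ u' * u = 1 ∧
      ∑ k, x k * γ w * y k = (PowerSeries.X : F⟦X⟧) • u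

/-- PRQ (uses QBK, TFX, S0: BCL, BPU, LMB, MCK, RES, FCO, FPX, BKF, ZRT).  The pair `(As(Q), A(Q))`.
`E1 = C_E(Q)`.  Proof.  `cl`: BCL.  `rs`, `qw`: clear.  `per`, `uni`, `rf`, `rf0`: BPU for `As` and for `A`;
`lamB (βs a) = lam a`, `lamB0 (β a) = lam0 a`.  `qB (βs a) = β (q a)` is well defined (QBK, RES) and a ring
homomorphism; `sc`, `lr` follow.  `surj`: `b ω, c ω` a frame of `As` for `W × W`; `q (b ω)`,
`c̄ ω (q a) = constantCoeff (c ω a)` is a frame of `A`; an element `a` of `A^Q` is `∑ c̄ ω a • q (b ω)` with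
`c̄ ω a` constant on the `Q`-orbits, and `∑ C (c̄ ω a) • b ω` is a lift in `As^Q`.  `ker`: let `a ∈ As^Q`,
`q a ∈ BK(Q)`; for the `Q`-fixed `ω` `constantCoeff (c ω a) = 0` (FCO), `c ω a = X * r ω`, and FPX:
`a = ∑_(ω fixed) c ω a • b ω = X • ∑ r ω • b ω` modulo `BK(Q)`, `b ω ∈ As^Q`.  `unt`: MCK with `a = 1`:
`βs (∑ x k y k) = |T| ∑ xB k yB k`, `|T| = |E : E1|` prime to `ℓ`; `u`, `u'` are central (ZRT, TFX), so in
`As^Q`, and `∑ xB k yB k = X • (|T|⁻¹ • βs u)`. -/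
def PrqStmt : Prop :=
  ∀ (ℓ : ℕ) [Fact ℓ.Prime] (F V E A As K K0 B Bs : Type) [Field F] [CharP F ℓ] [CommGroup V]
    [Fintype V] [Group E] [Finite E] [Ring A] [Algebra F A] [Ring As] [Algebra F⟦X⟧ As]
    [Fintype K] [Fintype K0] [Ring B] [Algebra F B] [Ring Bs] [Algebra F⟦X⟧ Bs]
    (φ : E →* MulAut V) (α : V →* A) (W : Subgroup V) [Fintype W]
    (ψ : E →* MulAut W) (γ : W →* As) (q : As →+* A) (lam : As →ₗ[F⟦X⟧] F⟦X⟧)
    (lam0 : A →ₗ[F] F) (x y : K → As) (x0 y0 : K0 → A) (Q : Subgroup W) (E1 : Subgroup E)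
    (γB : W →* Bs) (βs : As → Bs) (αB : V →* B) (β : A → B), IsPGroup ℓ V →
    ¬ ℓ ∣ Nat.card E → Dpr F φ α W ψ γ q lam lam0 x y x0 y0 → IsBQ F⟦X⟧ γ Q γB βs →
    IsBQ F α (Q.map W.subtype) αB β → (∀ e, e ∈ E1 ↔ ∀ u ∈ Q, ψ e u = u) →
    ∃ (qB : Bs →+* B) (lamB : Bs →ₗ[F⟦X⟧] F⟦X⟧) (lamB0 : B →ₗ[F] F) (KB KB0 : Type)
      (_ : Fintype KB) (_ : Fintype KB0) (xB yB : KB → Bs) (xB0 yB0 : KB0 → B),
      (∀ a ∈ FxR (cw F⟦X⟧ γ) Q, qB (βs a) = β (q a)) ∧
      (∀ a ∈ FxR (cw F⟦X⟧ γ) Q, lamB (βs a) = lam a) ∧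
      Dpr F (φ.comp E1.subtype) αB W (ψ.comp E1.subtype) γB qB lamB lamB0 xB yB xB0 yB0

/-! ## C. The generic fibre -/

/-- GFB.  Base change of the class.  Proof.  `lamS = lam ⊗ S`, `lamS (s ⊗ a) = s * algebraMap (lam a)`;
the families `1 ⊗ x k`, `1 ⊗ y k`; the frame `1 ⊗ b ω`, `c ω ⊗ S`; the units `1 ⊗ n`: check the identities on
pure tensors. -/
def GfbStmt : Prop :=
  ∀ (R S W E A K : Type) [CommRing R] [CommRing S] [Algebra R S] [CommGroup W] [Fintype W]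
    [Group E] [Ring A] [Algebra R A] [Fintype K] (ψ : E →* MulAut W) (γ : W →* A)
    (lam : A →ₗ[R] R) (x y : K → A), RF R γ lam x y → Per R ψ γ → Uni ψ γ →
    (∃ lamS : S ⊗[R] A →ₗ[S] S, (∀ s a, lamS (s ⊗ₜ a) = s * algebraMap R S (lam a)) ∧
      RF S (bcw (R := R) (S := S) γ) lamS (fun k => (1 : S) ⊗ₜ[R] x k) (fun k => (1 : S) ⊗ₜ[R] y k)) ∧
    Per S ψ (bcw (R := R) (S := S) γ) ∧ Uni ψ (bcw (R := R) (S := S) γ) ∧
    ∀ P : Subgroup W, (∀ a ∈ FxR (cw R γ) P, (1 : S) ⊗ₜ[R] a ∈ FxR (cw S (bcw (R := R) (S := S) γ)) P) ∧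
      ∀ a ∈ BKR (cw R γ) P, (1 : S) ⊗ₜ[R] a ∈ BKR (cw S (bcw (R := R) (S := S) γ)) P

/-- GFQ (uses GFB, S0: FPX, LMB).  The Brauer quotient of the base change.  Proof.  `κ (βs a) = βD (1 ⊗ a)` is
well defined (GFB) and a ring homomorphism.  Frame `b ω, c ω` of `A` (`Per`): an element `m` of
`(S ⊗ A)^Q` is `∑ cS ω m • 1 ⊗ b ω` with `cS ω m` constant on `Q`-orbits, so by FPX
`βD m = ∑_(ω fixed by Q) cS ω m • κ (βs (b ω))`: `D` is spanned over `S` by the image of `κ`.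
`lamD (βD m) = lamS m` (LMB for `S ⊗ A`), so `lamD (κ b) = algebraMap (lamB b)`; `e1`, `e2` for
`κ ∘ xs`, `κ ∘ ys` hold on the image of `κ`, so on `D`. -/
def GfqStmt : Prop :=
  ∀ (ℓ : ℕ) [Fact ℓ.Prime] (R S W E A Bs D K KB : Type) [CommRing R] [CommRing S] [Algebra R S]
    [CommGroup W] [Fintype W] [Group E] [Ring A] [Algebra R A] [Ring Bs] [Algebra R Bs] [Ring D]
    [Algebra S D] [Fintype K] [Fintype KB] (ψ : E →* MulAut W) (γ : W →* A) (lam : A →ₗ[R] R)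
    (x y : K → A) (Q : Subgroup W) (γB : W →* Bs) (βs : A → Bs) (γD : W →* D)
    (βD : S ⊗[R] A → D) (lamB : Bs →ₗ[R] R) (xs ys : KB → Bs), (ℓ : R) = 0 → IsPGroup ℓ W →
    RF R γ lam x y → Per R ψ γ → Uni ψ γ → IsBQ R γ Q γB βs → IsBQ S (bcw (R := R) (S := S) γ) Q γD βD →
    RF R γB lamB xs ys → (∀ a ∈ FxR (cw R γ) Q, lamB (βs a) = lam a) →
    ∃ (κ : Bs →+* D) (lamD : D →ₗ[S] S), (∀ a ∈ FxR (cw R γ) Q, κ (βs a) = βD (1 ⊗ₜ[R] a)) ∧
      (∀ (r : R) b, κ (r • b) = algebraMap R S r • κ b) ∧ (∀ w, κ (γB w) = γD w) ∧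
      RF S γD lamD (fun k => κ (xs k)) (fun k => κ (ys k))

/-- BLK (uses BLS, UNW, PRQ, GFB, GFQ, S0: BQX, BKF, FCO, FBK).  Proof.  Downward induction on `Q`;
`Q = ⊤` is trivial.  `C = F' ⊗ As`, frame by GFB.  Let `Q < Q'`: `e` satisfies the hypotheses at `Q'`: an element
of `BK(Q)` which is fixed by `Q'` is in `BK(Q')` (FCO, FBK: the `Q'`-fixed points are `Q`-fixed).  So
`e ∈ BK(Q')` by induction, for all `Q' > Q`.  Choose `w ∉ Q`.  BQX: `Bs = As(Q)`, `B = A(Q)`, `D = C(Q)`;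
`E1 = C_E(Q)`.  PRQ and UNW for the pair `(Bs, B)`: `∑ xB k w yB k = X • u`, `u` a unit of `Bs`.  GFQ:
`κ : Bs → D`, the system `κ xB, κ yB`, `∑ κ xB k w κ yB k = X • κ u`, a unit of `D` (`X ≠ 0` in `F'`).  BLS:
`βD e * unit = 0`, `βD e = 0`, `e ∈ BK(Q)`. -/
def BlkStmt : Prop :=
  ∀ (ℓ : ℕ) [Fact ℓ.Prime] (F F' V E A As K K0 : Type) [Field F] [CharP F ℓ] [Field F']
    [CharP F' ℓ] [Algebra F⟦X⟧ F'] [CommGroup V]
    [Fintype V] [Group E] [Finite E] [Ring A] [Algebra F A] [Ring As] [Algebra F⟦X⟧ As]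
    [Fintype K] [Fintype K0] (φ : E →* MulAut V) (α : V →* A) (W : Subgroup V) [Fintype W]
    (ψ : E →* MulAut W) (γ : W →* As) (q : As →+* A) (lam : As →ₗ[F⟦X⟧] F⟦X⟧)
    (lam0 : A →ₗ[F] F) (x y : K → As) (x0 y0 : K0 → A), Function.Injective (algebraMap F⟦X⟧ F') →
    IsPGroup ℓ V → ¬ ℓ ∣ Nat.card E → ℓ ∣ W.index → Dpr F φ α W ψ γ q lam lam0 x y x0 y0 →
    ∀ (Q : Subgroup W), ∀ e ∈ FxR (cw F' (bcw (R := F⟦X⟧) (S := F') γ)) ⊤,
      e * e - e ∈ BKR (cw F' (bcw (R := F⟦X⟧) (S := F') γ)) Q →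
      (∀ a ∈ FxR (cw F' (bcw (R := F⟦X⟧) (S := F') γ)) Q, e * a - a * e ∈ BKR (cw F' (bcw (R := F⟦X⟧) (S := F') γ)) Q) →
      e ∈ BKR (cw F' (bcw (R := F⟦X⟧) (S := F') γ)) ⊤ → e ∈ BKR (cw F' (bcw (R := F⟦X⟧) (S := F') γ)) Q

/-- GFC (uses BLK, GFB).  THE GENERIC FIBRE IS IN THE CLASS.  Proof.  `fin`: `C` is spanned by the
`1 ⊗ b ω`.  `per`, `uni`, the system: GFB.  `rt`: `∑ (1 ⊗ x k) (1 ⊗ y k) = 1 ⊗ X • u = X • (1 ⊗ u)`.
`blk`: BLK. -/
def GfcStmt : Prop :=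
  ∀ (ℓ : ℕ) [Fact ℓ.Prime] (F F' V E A As K K0 : Type) [Field F] [CharP F ℓ] [Field F']
    [CharP F' ℓ] [Algebra F⟦X⟧ F'] [CommGroup V]
    [Fintype V] [Group E] [Finite E] [Ring A] [Algebra F A] [Ring As] [Algebra F⟦X⟧ As]
    [Fintype K] [Fintype K0] (φ : E →* MulAut V) (α : V →* A) (W : Subgroup V) [Fintype W]
    (ψ : E →* MulAut W) (γ : W →* As) (q : As →+* A) (lam : As →ₗ[F⟦X⟧] F⟦X⟧)
    (lam0 : A →ₗ[F] F) (x y : K → As) (x0 y0 : K0 → A), Function.Injective (algebraMap F⟦X⟧ F') →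
    IsPGroup ℓ V → ¬ ℓ ∣ Nat.card E → ℓ ∣ W.index → Dpr F φ α W ψ γ q lam lam0 x y x0 y0 →
    Cl F' ψ (bcw (R := F⟦X⟧) (S := F') γ)

end Pool.Agent.PSS.S3
end
end -- Pool.Agent.PSS.StmtsS3

section -- Pool.Agent.PSS.StmtsS3p

/-!
# Theorem (S+), block S3 (helper30): the generic fibre, general form

`F` a field of characteristic `ℓ`, `W` a finite abelian `ℓ`-group, `As` an `F⟦X⟧`-algebra in `C0`
(form with a relative Frobenius system, permutation frame, units).  If `∑ x k * y k` divides a power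
of `X` and the relative traces `rt(w) - rt(1)` of all Brauer quotients `As(Q)` are nilpotent, then
`F' ⊗ As` is in the class `Cl`, for every field `F'` over `F⟦X⟧`.
-/

open scoped BigOperators TensorProduct PowerSeries

noncomputable section

namespace Pool.Agent.PSS.S3

open Pool.Agent.PFC (tw IsTv)
open Pool.Agent.PFD.D2b (FrR)
open Pool.Agent.PSS.S0

/-- (N): in every Brauer quotient `Bs = As(Q)`, with the form and a system induced by `lam`, all
`rt(w) - rt(1)`, `w ∈ W`, are nilpotent. -/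
def NilQ (R : Type) {W As : Type} [CommRing R] [CommGroup W] [Fintype W] [Ring As] [Algebra R As]
    (γ : W →* As) (lam : As →ₗ[R] R) : Prop :=
  ∀ (Q : Subgroup W) (Bs KB : Type) [Ring Bs] [Algebra R Bs] [Fintype KB] (γB : W →* Bs)
    (βs : As → Bs) (lamB : Bs →ₗ[R] R) (xB yB : KB → Bs), IsBQ R γ Q γB βs →
    RF R γB lamB xB yB → (∀ a ∈ FxR (cw R γ) Q, lamB (βs a) = lam a) →
    ∀ w : W, IsNilpotent (∑ k, xB k * γB w * yB k - ∑ k, xB k * yB k)

/-- GFP (uses BLS, GFB, GFQ, S0: BQX, BPU, MCK, ZRT, FCO, FBK).  THE GENERIC FIBRE IS IN THE CLASS,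
general form.  Proof.  `fin`, `per`, `uni`, the system: as in GFC.  `rt`: `u * rt(1) = X^m`.
`blk`: downward induction on `Q` as in BLK (`Q = ⊤` trivial; the hypotheses at `Q' > Q` follow by
FCO, FBK).  BQX: `Bs = As(Q)`, `D = C(Q)`; `E1 = C_E(Q)`; BPU: `lamB`, `xB`, `yB`.  `u` is central
(`rt(1)` is central, `As` is `X`-torsion free), so in `As^Q`; MCK with `a = 1`:
`βs (rt(1)) = |T| rtB(1)`, so `|T| βs(u) rtB(1) = X^m`: `κ (rtB(1))` is a unit of `D` (GFQ).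
`rtB(w) - rtB(1)` is nilpotent and commutes with `rtB(1)` (ZRT): `κ (rtB(w))` is a unit.  BLS with
`w ∉ Q`: `βD e * κ (rtB(w)) = 0`, `βD e = 0`. -/
def GfpStmt : Prop :=
  ∀ (ℓ : ℕ) [Fact ℓ.Prime] (F F' W E As K : Type) [Field F] [CharP F ℓ] [Field F']
    [CharP F' ℓ] [Algebra F⟦X⟧ F'] [CommGroup W] [Fintype W] [Group E] [Finite E] [Ring As]
    [Algebra F⟦X⟧ As] [Fintype K] (ψ : E →* MulAut W) (γ : W →* As) (lam : As →ₗ[F⟦X⟧] F⟦X⟧)
    (x y : K → As), Function.Injective (algebraMap F⟦X⟧ F') → IsPGroup ℓ W →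
    ¬ ℓ ∣ Nat.card E → Per F⟦X⟧ ψ γ → Uni ψ γ → RF F⟦X⟧ γ lam x y →
    (∃ (m : ℕ) (u : As), u * ∑ k, x k * y k = (PowerSeries.X ^ m : F⟦X⟧) • (1 : As)) →
    NilQ F⟦X⟧ γ lam → Cl F' ψ (bcw (R := F⟦X⟧) (S := F') γ)

end Pool.Agent.PSS.S3
end
end -- Pool.Agent.PSS.StmtsS3p

section -- Pool.Agent.Helper10_PSS.UNW

/-!
# PSS, block S3, row UNW: `rt(w) = X • unit`
-/

open scoped BigOperators TensorProduct PowerSeries

noncomputable section

namespace Pool.Agent.PSS.H10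

open Pool.Agent.PFC (tw IsTv)
open Pool.Agent.PFD.D2b (FrR)
open Pool.Agent.PSS.S0 Pool.Agent.PSS.S3

section gen

variable {R V A : Type} [CommRing R] [CommGroup V] [Ring A] [Algebra R A] {α : V →* A}

theorem unw_mem {P : Subgroup V} {a : A} (h : ∀ u ∈ P, α u * a = a * α u) :
    a ∈ FxR (cw R α) P := by
  intro u hu
  show α u * (a * α u⁻¹) = a
  rw [← mul_assoc, h u hu, mul_assoc, ← map_mul, mul_inv_cancel, map_one, mul_one]

theorem unw_comm {P : Subgroup V} {a : A} (h : a ∈ FxR (cw R α) P) {u : V} (hu : u ∈ P) :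
    α u * a = a * α u := by
  have h1 : α u * (a * α u⁻¹) = a := h u hu
  calc α u * a = α u * (a * (α u⁻¹ * α u)) := by
        rw [← map_mul, inv_mul_cancel, map_one, mul_one]
    _ = (α u * (a * α u⁻¹)) * α u := by simp only [mul_assoc]
    _ = a * α u := by rw [h1]

theorem unw_pow (bki : BkiStmt) (bkf : BkfStmt) {P : Subgroup V} {m : A}
    (hm : m ∈ BKR (cw R α) P) (n : ℕ) : m ^ (n + 1) ∈ BKR (cw R α) P := by
  induction n with
  | zero => simpa using hm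
  | succ n ih =>
    rw [pow_succ' m (n + 1)]
    exact (bki R V A α P m (bkf R V A (cw R α) P hm) _ ih).1

end gen

theorem unw_frob {A : Type} [Ring A] (ℓ : ℕ) [Fact ℓ.Prime] [CharP A ℓ] {ι : Type}
    (T : Finset ι) (f : ι → A) (h : ∀ i j, f i * f j = f j * f i) (k : ℕ) :
    (∑ t ∈ T, f t) ^ (ℓ ^ k) = ∑ t ∈ T, (f t) ^ (ℓ ^ k) := by
  classical
  induction T using Finset.induction_on with
  | empty =>
    rw [Finset.sum_empty, Finset.sum_empty, zero_pow]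
    exact pow_ne_zero _ (Fact.out (p := ℓ.Prime)).ne_zero
  | insert a T ha ih =>
    rw [Finset.sum_insert ha, Finset.sum_insert ha, ← ih]
    apply add_pow_char_pow_of_commute
    exact Commute.sum_right _ _ _ (fun j _ => h a j)

theorem unw (div : DivStmt) (rdx : RdxStmt) (qbk : QbkStmt) (tfx : TfxStmt) (unx : UnxStmt)
    (idn : IdnStmt) (mck : MckStmt) (bqx : BqxStmt) (bpu : BpuStmt) (zrt : ZrtStmt)
    (bki : BkiStmt) (bkf : BkfStmt) (res : ResStmt) : UnwStmt := by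
  classical
  intro ℓ _ F V E A As K K0 _ _ _ _ _ _ _ _ _ _ _ _ φ α W _ ψ γ q lam lam0 x y x0 y0 hV hE hi D w
  have hW : IsPGroup ℓ W := hV.to_subgroup W
  have hℓR : (ℓ : F⟦X⟧) = 0 := by
    rw [← map_natCast (PowerSeries.C (R := F)) ℓ, CharP.cast_eq_zero, map_zero]
  -- the elements `u_w`
  have hRx := rdx F W A As K (α.comp W.subtype) γ q lam lam0 x y D.sc D.surj D.qw D.lr D.rf
  have hq0 : ∀ w : W, q (∑ k, x k * γ w * y k) = 0 := by
    intro w
    rw [map_sum]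
    have h1 := div ℓ F V A K K0 α W lam0 (fun k => q (x k)) (fun k => q (y k)) x0 y0 D.rf0 hRx hi w
    rw [← h1]
    refine Finset.sum_congr rfl fun k _ => ?_
    rw [map_mul, map_mul, D.qw]
  obtain ⟨uw, huw⟩ := D.ker _ (hq0 w)
  obtain ⟨u, u', huu', hu'u, hu⟩ := D.unt
  have htf := tfx ℓ F W E As ψ γ hW D.per
  -- central elements
  have hmw : ∀ w : W, γ w ∈ FxR (cw F⟦X⟧ γ) ⊤ := by
    intro w
    apply unw_mem
    intro v _
    rw [← map_mul, ← map_mul, mul_comm]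
  have hm1 : (1 : As) ∈ FxR (cw F⟦X⟧ γ) ⊤ := unw_mem fun v _ => by rw [mul_one, one_mul]
  have hcen : ∀ c, c * uw = uw * c := by
    intro c
    have h1 := zrt F⟦X⟧ W As K γ lam x y D.rf (γ w) (hmw w) c
    rw [huw, mul_smul_comm, smul_mul_assoc] at h1
    have h2 := htf.1 (c * uw - uw * c) (by rw [smul_sub, h1, sub_self])
    exact sub_eq_zero.1 h2
  have hcu : ∀ c, c * u = u * c := by
    intro c
    have h1 := zrt F⟦X⟧ W As K γ lam x y D.rf 1 hm1 c
    simp only [mul_one] at h1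
    rw [hu, mul_smul_comm, smul_mul_assoc] at h1
    have h2 := htf.1 (c * u - u * c) (by rw [smul_sub, h1, sub_self])
    exact sub_eq_zero.1 h2
  -- the representatives
  have : Fintype ψ.range := Fintype.ofFinite _
  have hs : ∀ g : ψ.range, ∃ e : E, ψ e = g := fun g => g.2
  choose s hs using hs
  obtain ⟨T, hTd⟩ : ∃ T : Finset E, T = Finset.univ.image s := ⟨_, rfl⟩
  have hinj : Function.Injective s := by
    intro g g' hg
    apply Subtype.ext
    rw [← hs g, ← hs g', hg]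
  have hTc : ¬ ℓ ∣ T.card := by
    intro h
    apply hE
    rw [hTd, Finset.card_image_of_injective _ hinj, Finset.card_univ, ← Nat.card_eq_fintype_card] at h
    exact h.trans (Subgroup.card_range_dvd ψ)
  have hT : ∀ e : E, ∃! t, t ∈ T ∧ ∀ q ∈ (⊤ : Subgroup W), (ψ t)⁻¹ q = (ψ e)⁻¹ q := by
    intro e
    refine ⟨s ⟨ψ e, e, rfl⟩, ⟨?_, ?_⟩, ?_⟩
    · rw [hTd]
      exact Finset.mem_image_of_mem _ (Finset.mem_univ _)
    · intro v _
      rw [hs]
    · rintro t ⟨ht, ht'⟩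
      rw [hTd] at ht
      obtain ⟨g, -, rfl⟩ := Finset.mem_image.1 ht
      have h1 : ψ (s g) = ψ e := by
        have h2 : (ψ (s g))⁻¹ = (ψ e)⁻¹ := by
          apply MulEquiv.ext
          intro v
          exact ht' v trivial
        exact inv_injective h2
      have h3 : g = ⟨ψ e, e, rfl⟩ := by
        apply Subtype.ext
        show (g : MulAut W) = ψ e
        rw [← h1, hs]
      rw [h3]
  -- units
  choose n n' hn1 hn2 hn3 using D.uni
  -- the Brauer quotient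
  obtain ⟨B, _, _, γB, β, hB⟩ := bqx F⟦X⟧ W As γ ⊤
  obtain ⟨-, -, lamB, KB, _, xB, yB, hRB, hlB⟩ := bpu ℓ F⟦X⟧ W E As B K ψ γ ⊤ γB β lam x y ψ.ker
    hℓR hW D.per D.uni D.rf hB (by
      intro e
      constructor
      · intro he v _
        rw [MonoidHom.mem_ker.1 he]
        rfl
      · intro he
        rw [MonoidHom.mem_ker]
        apply MulEquiv.ext
        intro v
        exact he v trivial)
  have hmk := mck ℓ F⟦X⟧ W E As B K KB ψ γ ⊤ γB β lam x y lamB xB yB n n' T hℓR hW D.per D.rf hB hRB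
    hlB (fun e => ⟨hn1 e, hn2 e, hn3 e⟩) hT
  have hcB : ∀ (v : W) (z : B), γB v * z = z * γB v := by
    intro v z
    obtain ⟨a, ha, rfl⟩ := hB.surj z
    rw [← hB.om, ← hB.mul _ (hmw v) _ ha, ← hB.mul _ ha _ (hmw v), unw_comm ha (Subgroup.mem_top v)]
  obtain ⟨S, hS⟩ : ∃ S : B, S = ∑ k, xB k * yB k := ⟨_, rfl⟩
  have hbw : β (∑ k, x k * γ w * y k) = (∑ t ∈ T, γB (ψ t w)) * S := by
    rw [hmk _ (hmw w), Finset.sum_mul]
    refine Finset.sum_congr rfl fun t _ => ?_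
    have h1 : n t * γ w * n' t = γ (ψ t w) := by
      rw [hn3, mul_assoc, hn1, mul_one]
    rw [h1, hB.om, hS, Finset.mul_sum]
    refine Finset.sum_congr rfl fun k _ => ?_
    rw [← hcB, mul_assoc]
  have hb1 : β (∑ k, x k * y k) = (T.card : F⟦X⟧) • S := by
    have h1 := hmk _ hm1
    simp only [mul_one] at h1
    rw [h1]
    have h2 : ∀ t ∈ T, ∑ k, xB k * β (n t * n' t) * yB k = S := by
      intro t _
      rw [hn1, hB.one, hS]
      simp only [mul_one]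
    rw [Finset.sum_congr rfl h2, Finset.sum_const, ← Nat.cast_smul_eq_nsmul F⟦X⟧]
  -- the linear Brauer map
  obtain ⟨bl, hbl⟩ : ∃ bl : FxR (cw F⟦X⟧ γ) ⊤ →ₗ[F⟦X⟧] B, ∀ a, bl a = β a :=
    ⟨{  toFun := fun a => β a
        map_add' := fun a b => hB.add a a.2 b b.2
        map_smul' := fun r a => hB.smul r a a.2 }, fun a => rfl⟩
  obtain ⟨Sg, hSg⟩ : ∃ Sg : As, Sg = ∑ t ∈ T, γ (ψ t w) := ⟨_, rfl⟩
  have hSgm : Sg ∈ FxR (cw F⟦X⟧ γ) ⊤ := by
    rw [hSg]
    exact Submodule.sum_mem _ fun t _ => hmw _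
  have hum : u ∈ FxR (cw F⟦X⟧ γ) ⊤ := unw_mem fun v _ => hcu _
  have huwm : uw ∈ FxR (cw F⟦X⟧ γ) ⊤ := unw_mem fun v _ => hcen _
  have hSgu : Sg * u ∈ FxR (cw F⟦X⟧ γ) ⊤ := by
    apply unw_mem
    intro v hv
    rw [← mul_assoc, unw_comm hSgm hv, mul_assoc, hcu, mul_assoc]
  have hbS : β Sg = ∑ t ∈ T, γB (ψ t w) := by
    have h1 : bl (∑ t ∈ T, (⟨γ (ψ t w), hmw _⟩ : FxR (cw F⟦X⟧ γ) ⊤)) = ∑ t ∈ T, γB (ψ t w) := by
      rw [map_sum]
      refine Finset.sum_congr rfl fun t _ => ?_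
      rw [hbl]
      exact hB.om _
    rw [hbl] at h1
    rw [← h1, hSg]
    congr 1
    rw [Submodule.coe_sum]
  have hem : (T.card : F⟦X⟧) • uw - Sg * u ∈ FxR (cw F⟦X⟧ γ) ⊤ :=
    Submodule.sub_mem _ (Submodule.smul_mem _ _ huwm) hSgu
  have hbk : (T.card : F⟦X⟧) • uw - Sg * u ∈ BKR (cw F⟦X⟧ γ) ⊤ := by
    apply htf.2 ⊤ _ hem
    rw [← hB.ker _ (Submodule.smul_mem _ _ hem)]
    have h1 : (PowerSeries.X : F⟦X⟧) • ((T.card : F⟦X⟧) • uw - Sg * u) =
        (T.card : F⟦X⟧) • ∑ k, x k * γ w * y k - Sg * ∑ k, x k * y k := by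
      rw [huw, hu, smul_sub, smul_comm, mul_smul_comm]
    have hr : ∑ k, x k * γ w * y k ∈ FxR (cw F⟦X⟧ γ) ⊤ := by
      rw [huw]
      exact Submodule.smul_mem _ _ huwm
    have hr1 : ∑ k, x k * y k ∈ FxR (cw F⟦X⟧ γ) ⊤ := by
      rw [hu]
      exact Submodule.smul_mem _ _ hum
    have hr2 : Sg * ∑ k, x k * y k ∈ FxR (cw F⟦X⟧ γ) ⊤ := by
      rw [hu, mul_smul_comm]
      exact Submodule.smul_mem _ _ hSgu
    have h2 : β ((T.card : F⟦X⟧) • ∑ k, x k * γ w * y k - Sg * ∑ k, x k * y k) =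
        β ((T.card : F⟦X⟧) • ∑ k, x k * γ w * y k) - β (Sg * ∑ k, x k * y k) := by
      have h3 := map_sub bl (⟨_, Submodule.smul_mem _ (T.card : F⟦X⟧) hr⟩ : FxR (cw F⟦X⟧ γ) ⊤)
        ⟨_, hr2⟩
      rw [hbl, hbl, hbl] at h3
      exact h3
    rw [h1, h2, hB.smul _ _ hr, hB.mul _ hSgm _ hr1, hbw, hb1, hbS, mul_smul_comm, sub_self]
  -- reduction modulo `X`
  have hqb := (qbk F W A As (α.comp W.subtype) γ q D.sc D.qw ⊤).2 _ hbk
  rw [(res F V A α W ⊤).2] at hqb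
  obtain ⟨P, hP⟩ : ∃ P : Subgroup V, P = (⊤ : Subgroup W).map W.subtype := ⟨_, rfl⟩
  rw [← hP] at hqb
  have hcA : ∀ a : A, a * q uw = q uw * a := by
    intro a
    obtain ⟨a, rfl⟩ := D.surj a
    rw [← map_mul, hcen, map_mul]
  have hcAu : ∀ a : A, a * q u = q u * a := by
    intro a
    obtain ⟨a, rfl⟩ := D.surj a
    rw [← map_mul, hcu, map_mul]
  have hqu : q u * q u' = 1 := by rw [← map_mul, huu', map_one]
  have hqu' : q u' * q u = 1 := by rw [← map_mul, hu'u, map_one]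
  have hcAu' : ∀ a : A, a * q u' = q u' * a := by
    intro a
    calc a * q u' = q u' * q u * (a * q u') := by rw [hqu', one_mul]
      _ = q u' * (q u * a) * q u' := by simp only [mul_assoc]
      _ = q u' * (a * q u) * q u' := by rw [hcAu]
      _ = q u' * a * (q u * q u') := by simp only [mul_assoc]
      _ = q u' * a := by rw [hqu, mul_one]
  obtain ⟨z, hz⟩ : ∃ z : A, z = q uw * q u' := ⟨_, rfl⟩
  have hzc : ∀ a, z * a = a * z := by
    intro a
    rw [hz, mul_assoc, ← hcAu', ← mul_assoc, ← hcA, mul_assoc]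
  have hquw : z * q u = q uw := by
    rw [hz, mul_assoc, hqu', mul_one]
  rcases subsingleton_or_nontrivial A with hA | hA
  · obtain ⟨v, hv1, hv2⟩ := unx F W E A As ψ γ q D.per D.surj D.ker uw 1
      (Subsingleton.elim _ _) (Subsingleton.elim _ _)
    exact ⟨uw, v, hv1, hv2, huw⟩
  have : CharP A ℓ := charP_of_injective_algebraMap (algebraMap F A).injective ℓ
  have hNz : (T.card : A) * z - ∑ t ∈ T, α (ψ t w) ∈ BKR (cw F α) P := by
    have hcm : q u' ∈ FxR (cw F α) P := unw_mem fun v _ => hcAu' _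
    have h1 := (bki F V A α P _ hcm _ hqb).2
    have h2 : q ((T.card : F⟦X⟧) • uw - Sg * u) * q u' =
        (T.card : A) * z - ∑ t ∈ T, α (ψ t w) := by
      have h3 : (T.card : F⟦X⟧) • uw = (T.card : As) * uw := by
        rw [Algebra.smul_def, map_natCast]
      rw [h3, map_sub, map_mul, map_mul, map_natCast, sub_mul, mul_assoc, mul_assoc, hqu, mul_one,
        ← hz, hSg, map_sum]
      simp only [D.qw]
    rw [h2] at h1
    exact h1
  obtain ⟨k, hk⟩ := hW w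
  have hℓk : ℓ ^ k ≠ 0 := pow_ne_zero _ (Fact.out (p := ℓ.Prime)).ne_zero
  have hcomm : ∀ t t' : E, α (ψ t w) * α (ψ t' w) = α (ψ t' w) * α (ψ t w) := by
    intro t t'
    rw [← map_mul, ← map_mul, mul_comm]
  have hpow : ((T.card : A) * z - ∑ t ∈ T, α (ψ t w)) ^ (ℓ ^ k) = (T.card : A) * (z - 1) ^ (ℓ ^ k) := by
    have h0 : ((T.card : A)) ^ (ℓ ^ k) = (T.card : A) := by
      have h1 := unw_frob (A := A) ℓ T (fun _ => (1 : A)) (fun _ _ => rfl) k
      simpa using h1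
    rw [sub_pow_char_pow_of_commute, unw_frob ℓ T _ hcomm, Commute.mul_pow, h0,
      sub_pow_char_pow_of_commute, one_pow, mul_sub, mul_one]
    · congr 1
      have h1 : ∀ t ∈ T, α (ψ t w) ^ (ℓ ^ k) = 1 := by
        intro t _
        rw [← map_pow, ← Subgroup.coe_pow, ← map_pow, hk, map_one]
        simp
      rw [Finset.sum_congr rfl h1]
      simp
    · exact Commute.one_right _
    · exact (Nat.cast_commute _ _)
    · exact Commute.mul_left (Nat.cast_commute _ _) (hzc _)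
  have hz1 : (z - 1) ^ (ℓ ^ k) ∈ BKR (cw F α) P := by
    obtain ⟨j, hj⟩ := Nat.exists_eq_succ_of_ne_zero hℓk
    have h1 := unw_pow bki bkf hNz j
    rw [← Nat.succ_eq_add_one, ← hj, hpow] at h1
    have hne : (T.card : F) ≠ 0 := by
      intro h
      exact hTc ((CharP.cast_eq_zero_iff F ℓ _).1 h)
    have h2 := Submodule.smul_mem _ ((T.card : F)⁻¹) h1
    have h3 : (T.card : A) = algebraMap F A (T.card : F) := by rw [map_natCast]
    rw [h3, ← Algebra.smul_def, smul_smul, inv_mul_cancel₀ hne, one_smul] at h2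
    exact h2
  have hnil : IsNilpotent (z - 1) := by
    have h1 := idn ℓ F V E A φ α P ((z - 1) ^ (ℓ ^ k)) hV D.cl (by
      intro a
      have h2 : Commute (z - 1) a := by
        show (z - 1) * a = a * (z - 1)
        rw [sub_mul, mul_sub, hzc, one_mul, mul_one]
      exact (h2.pow_left _)) hz1
    obtain ⟨j, hj⟩ := h1
    exact ⟨ℓ ^ k * j, by rw [pow_mul, hj]⟩
  have hzu : IsUnit z := by
    have h1 := hnil.isUnit_one_add
    have h2 : 1 + (z - 1) = z := by abel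
    rwa [h2] at h1
  obtain ⟨zu, hzu⟩ := hzu
  have hz2 : z * (zu⁻¹ : Aˣ) = 1 := by rw [← hzu]; exact zu.mul_inv
  have hz3 : ((zu⁻¹ : Aˣ) : A) * z = 1 := by rw [← hzu]; exact zu.inv_mul
  obtain ⟨v, hv1, hv2⟩ := unx F W E A As ψ γ q D.per D.surj D.ker uw (q u' * (zu⁻¹ : Aˣ)) (by
      rw [← hquw, mul_assoc, ← mul_assoc (q u), hqu, one_mul, hz2]) (by
      rw [← hquw, mul_assoc, ← mul_assoc _ z, hz3, one_mul, hqu'])
  exact ⟨uw, v, hv1, hv2, huw⟩

end Pool.Agent.PSS.H10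
end
end -- Pool.Agent.Helper10_PSS.UNW

section -- Pool.Agent.PST.StmtsUC

/-!
# Squad PST, block UC (helper30): reduction of the etaleness to the closed case, part 1

`N ≤ V` a subgroup with central image in `A`, `H = A / (N - 1) A` with the group `V ⧸ N` (`IsQt`).
Used for `A(W)`, `N = W` (group `V`), over the field `F`, and for `As(W)`, `N = ⊤` (group `W`), over
`F⟦X⟧`.  Result: `H` is in the class `Cl` for `V ⧸ N` (QCL); forms, frames and Brauer kernels of `H`.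

Complete proofs in the docstrings.  All rows of S0, S3 are PROVED: `Pool.Agent.Helper30_PSS.S3All`
(`Pool.Agent.PSS.All30.bkf`, `fco`, `fbk`, `bki`, `bqx`, `lmb`, `sfq`, `bpu`, `bbk`, `bcl`, `rfd`, ..).
`(R : char ℓ)`.  We write `v` for `α v`, `v̄` for the class of `v` in `V ⧸ N`.
-/

open scoped BigOperators TensorProduct PowerSeries

noncomputable section

namespace Pool.Agent.PST.UC

open Pool.Agent.PFC (tw IsTv)
open Pool.Agent.PFD.D2b (FrR)
open Pool.Agent.PSS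
open Pool.Agent.PSS.S0

/-! ## Definitions -/

/-- the span of the elements `(ν n - 1) * b`, `b ∈ J` -/
def Aug (R : Type) {N B : Type} [CommRing R] [Group N] [Ring B] [Algebra R B] (ν : N →* B)
    (J : Submodule R B) : Submodule R B :=
  Submodule.span R {x | ∃ n, ∃ b ∈ J, x = (ν n - 1) * b}

/-- `H = A / (N - 1) A`, `N ≤ V` a subgroup with central image in `A` -/
structure IsQt (R : Type) {V A H : Type} [CommRing R] [CommGroup V] [Ring A] [Algebra R A] [Ring H]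
    [Algebra R H] (α : V →* A) (N : Subgroup V) (αH : V ⧸ N →* H) (π : A →ₐ[R] H) : Prop where
  cen : ∀ n ∈ N, ∀ a, α n * a = a * α n
  surj : Function.Surjective π
  ker : ∀ a, π a = 0 ↔ a ∈ Aug R (α.comp N.subtype) ⊤
  om : ∀ v : V, αH (v : V ⧸ N) = π (α v)

/-- a permutation frame whose points are fixed by the `(n, n)`, `n ∈ N` -/
structure FrN (R : Type) {V E A Ω : Type} [CommRing R] [CommGroup V] [Group E] [Ring A]
    [Algebra R A] [Fintype Ω] [MulAction (V × V) Ω] (φ : E →* MulAut V) (α : V →* A)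
    (N : Subgroup V) (b : Ω → A) (c : Ω → (A →ₗ[R] R)) : Prop where
  fr : FrR (bw R α) b c
  st : ∀ ω : Ω, ∃ (e : E) (S : Subgroup V),
    MulAction.stabilizer (V × V) ω = tw (φ e).toMonoidHom S
  nn : ∀ n ∈ N, ∀ ω : Ω, ((n, n) : V × V) • ω = ω

open Classical in
/-- the frame of the quotient: `σ : Ω → Ω'` is the quotient by `N × N`, `s` a section of `σ` which is
equivariant for the diagonal action, `ω = (m ω, 1) • s (σ ω)`. -/
structure QFr (R : Type) {V E A H Ω Ω' : Type} [CommRing R] [CommGroup V] [Group E] [Ring A]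
    [Algebra R A] [Ring H] [Algebra R H] [Fintype Ω] [MulAction (V × V) Ω] [Fintype Ω']
    (N : Subgroup V) [MulAction ((V ⧸ N) × (V ⧸ N)) Ω'] (φH : E →* MulAut (V ⧸ N))
    (αH : V ⧸ N →* H) (π : A →ₐ[R] H) (b : Ω → A) (c : Ω → (A →ₗ[R] R))
    (b' : Ω' → H) (c' : Ω' → (H →ₗ[R] R)) (σ : Ω → Ω') (s : Ω' → Ω) (m : Ω → V) : Prop where
  fr : FrR (bw R αH) b' c'
  st : ∀ ω : Ω', ∃ (e : E) (S : Subgroup (V ⧸ N)),
    MulAction.stabilizer ((V ⧸ N) × (V ⧸ N)) ω = tw (φH e).toMonoidHom S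
  hb : ∀ ω, b' (σ ω) = π (b ω)
  hc : ∀ ω' a, c' ω' (π a) = ∑ ω ∈ Finset.univ.filter (fun ω => σ ω = ω'), c ω a
  sg : ∀ (u v : V) (ω : Ω), (((u : V ⧸ N), (v : V ⧸ N)) : (V ⧸ N) × (V ⧸ N)) • σ ω =
    σ (((u, v) : V × V) • ω)
  fx : ∀ (v : V) (ω : Ω), (((v : V ⧸ N), (v : V ⧸ N)) : (V ⧸ N) × (V ⧸ N)) • σ ω = σ ω →
    ((v, v) : V × V) • ω = ω
  ss : ∀ ω', σ (s ω') = ω'
  se : ∀ (v : V) (ω' : Ω'), s ((((v : V ⧸ N), (v : V ⧸ N)) : (V ⧸ N) × (V ⧸ N)) • ω') =
    ((v, v) : V × V) • s ω'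
  mn : ∀ ω, m ω ∈ N
  ms : ∀ ω, ω = ((m ω, 1) : V × V) • s (σ ω)
  me : ∀ (v : V) (ω : Ω), m (((v, v) : V × V) • ω) = m ω

/-! ## A. The augmentation ideal -/

/-- NIA (330).  Proof.  `(ν n - 1)^|N| = ν n^|N| - 1 = 0` in characteristic `ℓ` (`|N|` is a power of `ℓ`); the elements
`ν n - 1` are central, so a product of `|N| * |N|` of them is `0` (one of them occurs at least `|N|` times).  So
`(Aug R ν)^[k] ⊤ = ⊥`, `k = |N|^2`.  (2) `Aug` is monotone: `J ≤ Aug J ≤ .. ≤ Aug^k J ≤ Aug^k ⊤ = ⊥`.  (3)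
`Aug^i ⊤ * Aug^j ⊤ ≤ Aug^(i+j) ⊤`, so `x^k = 0`. -/
def NiaStmt : Prop :=
  ∀ (ℓ : ℕ) [Fact ℓ.Prime] (R N B : Type) [CommRing R] [CommGroup N] [Finite N] [Ring B]
    [Algebra R B] (ν : N →* B), (ℓ : R) = 0 → IsPGroup ℓ N → (∀ n b, ν n * b = b * ν n) →
    (∃ k : ℕ, (Aug R ν)^[k] ⊤ = ⊥) ∧ (∀ J : Submodule R B, J ≤ Aug R ν J → J = ⊥) ∧
      ∀ x ∈ Aug R ν ⊤, IsNilpotent x

/-- CIL (331, uses NIA).  Central idempotents lift.  Proof.  `I = Aug R ν ⊤`, a two-sided ideal.  `n = b * b - b` is nilpotent,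
`n^k = 0`, `k ≥ 1`.  `f = 1 - (1 - b^k)^k`: divisible by `b^k`, `1 - f` is divisible by `(1 - b)^k`, so `f (1 - f) = 0`;
`f - b` is in `I` (modulo `I`, `b` is idempotent).  `f x - x f` is in `I` for all `x`.  Let `J` be the submodule of the
`f x (1 - f)`, `x` in `B`: `f x (1 - f) = f (f x - x f) (1 - f)`.. is in `I`, and if `y = f x (1 - f) = ∑ (ν n - 1) x_n` then
`y = f y (1 - f) = ∑ (ν n - 1) f x_n (1 - f)`, so `J ≤ Aug R ν J`, `J = ⊥` (NIA).  In the same way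
`(1 - f) x f = 0`: `f x = f x f = x f`. -/
def CilStmt : Prop :=
  ∀ (ℓ : ℕ) [Fact ℓ.Prime] (R N B : Type) [CommRing R] [CommGroup N] [Finite N] [Ring B]
    [Algebra R B] (ν : N →* B) (b : B), (ℓ : R) = 0 → IsPGroup ℓ N →
    (∀ n b, ν n * b = b * ν n) → b * b - b ∈ Aug R ν ⊤ →
    (∀ x, b * x - x * b ∈ Aug R ν ⊤) →
    ∃ (f : B) (g : Polynomial R), f = b * Polynomial.aeval b g ∧ f * f = f ∧
      (∀ x, f * x = x * f) ∧ f - b ∈ Aug R ν ⊤

/-- QLU (332, uses NIA).  Proof.  `u = π u₁`; `n = u₁ z - X^m • 1` is in the kernel of `π`, so in `Aug`, `n^k = 0`; `n` commutes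
with `X^m • 1`, and `s (X^m • 1 + n) = (X^m • 1)^k - (-n)^k = X^(mk) • 1` for
`s = ∑_(i<k) (X^m)^(k-1-i) • (-n)^i` (`Commute.mul_geom_sum₂` or so).  `u' = s u₁`, `m' = m k`. -/
def QluStmt : Prop :=
  ∀ (ℓ : ℕ) [Fact ℓ.Prime] (F N B H : Type) [Field F] [CharP F ℓ] [CommGroup N] [Finite N]
    [Ring B] [Algebra F⟦X⟧ B] [Ring H] [Algebra F⟦X⟧ H] (ν : N →* B) (π : B →ₐ[F⟦X⟧] H) (z : B)
    (m : ℕ) (u : H), IsPGroup ℓ N → (∀ n b, ν n * b = b * ν n) → Function.Surjective π →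
    (∀ a, π a = 0 → a ∈ Aug F⟦X⟧ ν ⊤) → u * π z = (PowerSeries.X ^ m : F⟦X⟧) • (1 : H) →
    ∃ (m' : ℕ) (u' : B), u' * z = (PowerSeries.X ^ m' : F⟦X⟧) • (1 : B)

/-! ## B. The quotient -/

/-- QTX (333).  Existence.  Proof: `Aug R _ ⊤` is a two-sided ideal (`N` is central); the quotient ring (as in the row
BQX, `Helper70_PSS`); `α` descends. -/
def QtxStmt : Prop :=
  ∀ (R V A : Type) [CommRing R] [CommGroup V] [Ring A] [Algebra R A] (α : V →* A)
    (N : Subgroup V), (∀ n ∈ N, ∀ a, α n * a = a * α n) →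
    ∃ (H : Type) (_ : Ring H) (_ : Algebra R H) (αH : V ⧸ N →* H) (π : A →ₐ[R] H),
      IsQt R α N αH π

/-- QTF (334).  The form of the quotient.  Proof.  `a ↦ ∑_(n in N) lam (n a)` vanishes at `(n' - 1) a` (reindex).
Symmetric: `∑ lam (n a b) = ∑ lam (b n a) = ∑ lam (n b a)`.  `e1`: `∑_k ∑_(v̄) lamH (v̄⁻¹ ȳ_k ā) x̄_k v̄ =
∑_k ∑_(v̄) ∑_n lam (n v⁻¹ y_k a) π (x_k v)`, `v = out v̄`, `= ∑_k ∑_(v̄, n) lam ((v n⁻¹)⁻¹ y_k a) π (x_k (v n⁻¹))
= π (∑_k ∑_v lam (v⁻¹ y_k a) x_k v) = ā` (`(v̄, n) ↦ v n⁻¹` is a bijection onto `V`).  `e2` in the same way. -/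
def QtfStmt : Prop :=
  ∀ (R V A H K : Type) [CommRing R] [CommGroup V] [Fintype V] [Ring A] [Algebra R A] [Ring H]
    [Algebra R H] [Fintype K] (α : V →* A) (N : Subgroup V) [Fintype N] [Fintype (V ⧸ N)]
    (αH : V ⧸ N →* H) (π : A →ₐ[R] H) (lam : A →ₗ[R] R) (x y : K → A), IsQt R α N αH π →
    RF R α lam x y → ∃ lamH : H →ₗ[R] R, (∀ a, lamH (π a) = ∑ n : N, lam (α n * a)) ∧
      RF R αH lamH (fun k => π (x k)) (fun k => π (y k))

/-- QFR (335).  The frame of the quotient.  Proof.  `Ω'` = the quotient of `Ω` by the action of `N × N`, with the action of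
`(V × V) / (N × N) = V ⧸ N × V ⧸ N`; `σ` = the projection.  Since `(n, n) ω = ω`, the `N × N`-orbit of `ω` is the set of the
`(n, 1) ω`.  `b' (σ ω) = π (b ω)` (well defined: `π ((n, n') b ω) = π (b ω)`), `c' ω' (π a) = ∑_(σ ω = ω') c ω a`: well defined
as `∑_(σ ω = ω') c ω (n a) = ∑ c ((n⁻¹, 1) ω) a` is the same sum.  `fr`: `π a = ∑ c ω a • π (b ω)`.  `st`: the stabiliser
of `σ ω` is the image of the stabiliser `tw (φ e) S` of `ω` (if `(u, v) ω = (n, 1) ω` then `(n⁻¹ u, v)` fixes `ω`), so it is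
`tw (φH e) (image of S)`.  `fx`: if `(v, v) ω = (n, 1) ω` then `(n⁻¹ v, v)` is in `tw (φ e) S`, `φ e v = n⁻¹ v`; `φ e n = n`, so
`φ (e^k) v = n^(-k) v`, for `k` the order of `e` (prime to `ℓ`) `n^k = 1`, and `n` has `ℓ`-power order, so `n = 1`.
`s`: choose in every orbit of the diagonal action of `V` on `Ω'` a point `ω'₀ = σ ω₀`, `s ((v̄, v̄) ω'₀) = (v, v) ω₀`: well
defined by `fx`, and `σ s = 1`.  `m`: choose in every orbit of the diagonal action on `Ω` a point `ω₀` and `n` with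
`ω₀ = (n, 1) s (σ ω₀)`, `m = n` on this orbit. -/
def QfrStmt : Prop :=
  ∀ (ℓ : ℕ) [Fact ℓ.Prime] (R V E A H Ω : Type) [CommRing R] [CommGroup V] [Finite V] [Group E]
    [Finite E] [Ring A] [Algebra R A] [Ring H] [Algebra R H] [Fintype Ω] [MulAction (V × V) Ω]
    (φ : E →* MulAut V) (α : V →* A) (N : Subgroup V) (φH : E →* MulAut (V ⧸ N))
    (αH : V ⧸ N →* H) (π : A →ₐ[R] H) (b : Ω → A) (c : Ω → (A →ₗ[R] R)), IsPGroup ℓ V →
    ¬ ℓ ∣ Nat.card E → IsQt R α N αH π → FrN R φ α N b c → (∀ e, ∀ n ∈ N, φ e n = n) →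
    (∀ (e : E) (v : V), φH e (v : V ⧸ N) = (φ e v : V ⧸ N)) →
    ∃ (Ω' : Type) (_ : Fintype Ω') (_ : MulAction ((V ⧸ N) × (V ⧸ N)) Ω') (b' : Ω' → H)
      (c' : Ω' → (H →ₗ[R] R)) (σ : Ω → Ω') (s : Ω' → Ω) (m : Ω → V),
      QFr R N φH αH π b c b' c' σ s m

/-- QSC (336).  Fixed vectors and Brauer kernels of the quotient.  `P' = P.map (mk' N)`.  Proof.
`S h = ∑_(ω') c' ω' h • b (s ω')`: `π (S h) = ∑ c' ω' h • b' ω' = h`, and `S (v̄ h v̄⁻¹) = v S(h) v⁻¹` (`se`).  (1) clear.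
(2) clear: `N` is central.  (3) `h` = a sum of traces `∑_(x ∈ T) x m x⁻¹`, `m` fixed by `P1' < P'`, `T` a transversal: let
`P1` be the preimage of `P1'` in `P`, `P1 < P`, the representatives of the elements of `T` are a transversal of `P1` in `P`, and
`S m` is fixed by `P1`.  (4) `π a` is fixed by `P'` (BKF); for `ω'` fixed by `P'` (diagonal) every `ω` with `σ ω = ω'` is fixed by `P`
(`fx`), so `c ω a = 0` (FCO) and `c' ω' (π a) = 0` (`hc`); FBK.  (5) `a = ∑ c ω a • b ω`, `∑_(σ ω = ω') c ω a = 0` for all `ω'`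
(`hc`), so `a = ∑_ω c ω a • (b ω - b (s (σ ω))) = ∑_(n in N) (n - 1) a_n`, `a_n = ∑_(m ω = n) c ω a • b (s (σ ω))` (`ms`), and
`a_n` is fixed by `P` (`c ((v,v) ω) a = c ω a`, `me`, `se`, `sg`). -/
def QscStmt : Prop :=
  ∀ (ℓ : ℕ) [Fact ℓ.Prime] (R V E A H Ω Ω' : Type) [CommRing R] [CommGroup V] [Finite V]
    [Group E] [Ring A] [Algebra R A] [Ring H] [Algebra R H] [Fintype Ω] [MulAction (V × V) Ω]
    [Fintype Ω'] (φ : E →* MulAut V) (α : V →* A) (N : Subgroup V)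
    [MulAction ((V ⧸ N) × (V ⧸ N)) Ω'] (φH : E →* MulAut (V ⧸ N)) (αH : V ⧸ N →* H)
    (π : A →ₐ[R] H) (b : Ω → A) (c : Ω → (A →ₗ[R] R)) (b' : Ω' → H) (c' : Ω' → (H →ₗ[R] R))
    (σ : Ω → Ω') (s : Ω' → Ω) (m : Ω → V), (ℓ : R) = 0 → IsPGroup ℓ V → IsQt R α N αH π →
    FrN R φ α N b c → QFr R N φH αH π b c b' c' σ s m →
    ∃ S : H →ₗ[R] A, (∀ h, π (S h) = h) ∧ ∀ P : Subgroup V, N ≤ P →
      (∀ h ∈ FxR (cw R αH) (P.map (QuotientGroup.mk' N)), S h ∈ FxR (cw R α) P) ∧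
      (∀ a ∈ FxR (cw R α) P, π a ∈ FxR (cw R αH) (P.map (QuotientGroup.mk' N))) ∧
      (∀ h ∈ BKR (cw R αH) (P.map (QuotientGroup.mk' N)), S h ∈ BKR (cw R α) P) ∧
      (∀ a ∈ BKR (cw R α) P, π a ∈ BKR (cw R αH) (P.map (QuotientGroup.mk' N))) ∧
      ∀ a ∈ FxR (cw R α) P, π a = 0 → a ∈ Aug R (α.comp N.subtype) (FxR (cw R α) P)

/-- QCL (337, uses NIA CIL QTF QFR QSC; S0: BQX BBK BCL BKI BKF).  THE QUOTIENT IS IN THE CLASS.  Proof.  `fin`, `uni`: images.
`per`: QFR.  `rt`: QTF, `π u * ∑ π x π y = 1`.  `blk`: let `Q' ≤ V ⧸ N`, `Q` = its preimage (`N ≤ Q`, `Q.map mk' = Q'`), `e` as in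
the definition, `a = S e` (QSC), fixed by `V`, in `BK(⊤)`.  `a * a - a - S (e * e - e)` is in the kernel of `π` and fixed by
`Q`, so `a * a - a` is in `BK(Q) + Aug (A^Q)` (QSC (3), (5)); for `x` in `A^Q` also `a x - x a`.  `B = A(Q)`, `β` (BQX),
`ν n = αB n = β n`, central in `B`; `b' = β a`: `b' * b' - b'` and all `b' y - y b'` are in `Aug R ν ⊤` (every `y` is `β x`).
CIL: `f = b' g(b')`, idempotent, central, `f - b'` in `Aug`.  `b'` is in `BK_B(⊤)` (BBK: `a` is in `BK(⊤)`), so `f` is (BKI; `b'` and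
`g(b')` are fixed by `V`).  BCL: `B` is in the class, `blk` at `⊥`: `f` is in `BK_B(⊥) = 0`.  So `b'` is in `Aug R ν ⊤`:
`b' = ∑ (n - 1) β (a_n)`, `a_n` in `A^Q`, so `a - ∑ (n - 1) a_n` is in `BK(Q)`; apply `π`: `e = π a` is in `BK(Q')` (QSC (4)). -/
def QclStmt : Prop :=
  ∀ (ℓ : ℕ) [Fact ℓ.Prime] (F V E A H Ω : Type) [Field F] [CharP F ℓ] [CommGroup V] [Fintype V]
    [Group E] [Finite E] [Ring A] [Algebra F A] [Ring H] [Algebra F H] [Fintype Ω]
    [MulAction (V × V) Ω] (φ : E →* MulAut V) (α : V →* A) (N : Subgroup V) [Fintype (V ⧸ N)]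
    (φH : E →* MulAut (V ⧸ N)) (αH : V ⧸ N →* H) (π : A →ₐ[F] H) (b : Ω → A)
    (c : Ω → (A →ₗ[F] F)), IsPGroup ℓ V → ¬ ℓ ∣ Nat.card E → Cl F φ α → FrN F φ α N b c →
    IsQt F α N αH π → (∀ e, ∀ n ∈ N, φ e n = n) →
    (∀ (e : E) (v : V), φH e (v : V ⧸ N) = (φ e v : V ⧸ N)) → Cl F φH αH

/-- BFN (338; S0: RFD SFQ LMB, proved).  The frame of `A(Q)` has the points fixed by `(q, q)`.  Proof: as in BPU (`Helper65_PSS`):
RFD, SFQ with `θ = 1`, `n = n' = 1`, `Ω' = OQt Q 1 Ω = {ω | (q, q) ω = ω for q ∈ Q}`; the stabiliser of `ω` is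
`tw (φ e) S` with `φ e q = q` for `q ∈ Q`.  (Right freeness of `Ω`: the stabilisers are twisted diagonals.) -/
def BfnStmt : Prop :=
  ∀ (ℓ : ℕ) [Fact ℓ.Prime] (R V E A B K : Type) [CommRing R] [CommGroup V] [Fintype V] [Group E]
    [Ring A] [Algebra R A] [Ring B] [Algebra R B] [Fintype K] (φ : E →* MulAut V)
    (α : V →* A) (Q : Subgroup V) (αB : V →* B) (β : A → B) (lam : A →ₗ[R] R) (x y : K → A)
    (E1 : Subgroup E), (ℓ : R) = 0 → IsPGroup ℓ V → Per R φ α → RF R α lam x y →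
    IsBQ R α Q αB β → (∀ e, e ∈ E1 ↔ ∀ q ∈ Q, φ e q = q) →
    ∃ (Ω : Type) (_ : Fintype Ω) (_ : MulAction (V × V) Ω) (b : Ω → B) (c : Ω → (B →ₗ[R] R)),
      FrN R (φ.comp E1.subtype) αB Q b c

end Pool.Agent.PST.UC
end
end -- Pool.Agent.PST.StmtsUC

section -- Pool.Agent.Helper20_PST.QLU

/-!
# Squad PST, block UC, row QLU: a left inverse up to a power of `X` lifts to the ring
-/

set_option autoImplicit false

noncomputable section

namespace Pool.Agent.PST.UC.H20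

/-- row QLU -/
theorem qlu (nia : NiaStmt) : QluStmt := by
  intro ℓ iℓ F N B H iF iC iN ifN iB iAB iH iAH ν π z m u hN hc hs hk hu
  have hℓ0 : (ℓ : F) = 0 := CharP.cast_eq_zero F ℓ
  have hR : (ℓ : PowerSeries F) = 0 := by
    rw [← map_natCast (PowerSeries.C (R := F)) ℓ, hℓ0, map_zero]
  obtain ⟨_, _, hnil⟩ := nia ℓ (PowerSeries F) N B ν hR hN hc
  obtain ⟨u1, rfl⟩ := hs u
  obtain ⟨a, ha⟩ : ∃ a : B, a = ((PowerSeries.X : PowerSeries F) ^ m) • (1 : B) := ⟨_, rfl⟩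
  obtain ⟨n, hn⟩ : ∃ n : B, n = u1 * z - a := ⟨_, rfl⟩
  have h1 : π n = 0 := by
    rw [hn, ha, map_sub, map_mul, hu, map_smul, map_one, sub_self]
  obtain ⟨k, hk0⟩ := hnil n (hk n h1)
  have hcom : Commute a (-n) := by
    rw [ha]
    unfold Commute SemiconjBy
    rw [smul_mul_assoc, one_mul, mul_smul_comm, mul_one]
  have h2 := hcom.geom_sum₂_mul k
  have h3 : a - -n = u1 * z := by
    rw [hn]
    abel
  rw [h3] at h2
  have h4 : (-n) ^ k = 0 := by
    rw [neg_pow, hk0, mul_zero]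
  rw [h4, sub_zero, ← mul_assoc] at h2
  refine ⟨m * k, _, h2.trans ?_⟩
  rw [ha, smul_pow, one_pow, ← pow_mul]

end Pool.Agent.PST.UC.H20
end
end -- Pool.Agent.Helper20_PST.QLU

section -- Pool.Agent.Helper21_PST.NIA

/-!
# Squad PST, row NIA: the augmentation ideal of a finite ell-group in characteristic ell is nilpotent
-/

set_option autoImplicit false

noncomputable section

namespace Pool.Agent.PST.UC.H21

open Pool.Agent.PST.UC

variable {R N B : Type} [CommRing R] [CommGroup N] [Ring B] [Algebra R B]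

/-- the augmentation ideal of the group ring -/
def aug (R N : Type) [CommRing R] [CommGroup N] : Ideal (MonoidAlgebra R N) :=
  Ideal.span (Set.range fun n : N => MonoidAlgebra.of R N n - 1)

theorem aug_nil (ℓ : ℕ) [Fact ℓ.Prime] [Finite N] (h0 : (ℓ : R) = 0) (hN : IsPGroup ℓ N) :
    ∃ k : ℕ, aug R N ^ k = ⊥ := by
  have hfg : (aug R N).FG := Submodule.fg_span (Set.finite_range _)
  have h1 : IsNilpotent (aug R N) := by
    rw [Ideal.FG.isNilpotent_iff_le_nilradical hfg]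
    refine Ideal.span_le.2 ?_
    rintro _ ⟨n, rfl⟩
    show _ ∈ nilradical _
    rw [mem_nilradical]
    rcases subsingleton_or_nontrivial (MonoidAlgebra R N) with hS | hS
    · exact ⟨1, Subsingleton.elim _ _⟩
    · have hc : ((ℓ : ℕ) : MonoidAlgebra R N) = 0 := by
        have : ((ℓ : ℕ) : MonoidAlgebra R N) = algebraMap R (MonoidAlgebra R N) (ℓ : R) := by
          rw [map_natCast]
        rw [this, h0, map_zero]
      have : CharP (MonoidAlgebra R N) ℓ :=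
        (CharP.charP_iff_prime_eq_zero (Fact.out : ℓ.Prime)).2 hc
      obtain ⟨m, hm⟩ := hN n
      refine ⟨ℓ ^ m, ?_⟩
      rw [sub_pow_char_pow, one_pow, ← map_pow, hm, map_one, sub_self]
  obtain ⟨k, hk⟩ := h1
  exact ⟨k, by rw [hk]; rfl⟩

/-- the map of the group ring -/
def th (ν : N →* B) : MonoidAlgebra R N →ₐ[R] B := MonoidAlgebra.lift R B N ν

theorem th_of (ν : N →* B) (n : N) :
    th (R := R) ν (MonoidAlgebra.of R N n - 1) = ν n - 1 := by
  rw [map_sub, map_one, th, MonoidAlgebra.lift_of]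

theorem th_comm (ν : N →* B) (hν : ∀ n b, ν n * b = b * ν n) (s : MonoidAlgebra R N) (b : B) :
    th (R := R) ν s * b = b * th (R := R) ν s := by
  induction s using MonoidAlgebra.induction_on with
  | of g => rw [th, MonoidAlgebra.lift_of, hν]
  | add f g hf hg => rw [map_add, add_mul, mul_add, hf, hg]
  | smul r f hf => rw [map_smul, smul_mul_assoc, mul_smul_comm, hf]

/-- the submodule generated by the products -/
def Q (ν : N →* B) (k : ℕ) (J : Submodule R B) : Submodule R B :=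
  Submodule.span R {y | ∃ s ∈ aug R N ^ k, ∃ b ∈ J, y = th (R := R) ν s * b}

theorem q_bot (ν : N →* B) {k : ℕ} (hk : aug R N ^ k = ⊥) (J : Submodule R B) :
    Q ν k J = ⊥ := by
  rw [Q, Submodule.span_eq_bot]
  rintro _ ⟨s, hs, b, -, rfl⟩
  rw [hk, Ideal.mem_bot] at hs
  rw [hs, map_zero, zero_mul]

theorem aug_le (ν : N →* B) (J J' : Submodule R B) (k : ℕ) (h : J ≤ Q ν k J') :
    Aug R ν J ≤ Q ν (k + 1) J' := by
  refine Submodule.span_le.2 ?_
  rintro _ ⟨n, b, hb, rfl⟩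
  have h1 : Q ν k J' ≤ (Q ν (k + 1) J').comap (LinearMap.mulLeft R (ν n - 1)) := by
    refine Submodule.span_le.2 ?_
    rintro _ ⟨s, hs, c, hc, rfl⟩
    refine Submodule.subset_span ⟨(MonoidAlgebra.of R N n - 1) * s, ?_, c, hc, ?_⟩
    · rw [pow_succ']
      exact Ideal.mul_mem_mul (Ideal.subset_span ⟨n, rfl⟩) hs
    · show (ν n - 1) * (th (R := R) ν s * c) = th (R := R) ν _ * c
      rw [map_mul, th_of, mul_assoc]
  exact h1 (h hb)

theorem iter_le (ν : N →* B) (J : Submodule R B) (k : ℕ) : (Aug R ν)^[k] J ≤ Q ν k J := by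
  induction k with
  | zero =>
    intro x hx
    refine Submodule.subset_span ⟨1, ?_, x, hx, ?_⟩
    · rw [pow_zero, Ideal.one_eq_top]
      trivial
    · rw [map_one, one_mul]
  | succ k ih =>
    rw [Function.iterate_succ_apply']
    exact aug_le ν _ J k ih

theorem aug_mono (ν : N →* B) : Monotone (Aug R ν) := by
  intro J J' h
  refine Submodule.span_mono ?_
  rintro _ ⟨n, b, hb, rfl⟩
  exact ⟨n, b, h hb, rfl⟩

theorem nia : NiaStmt := by
  intro ℓ _ R N B _ _ _ _ _ ν h0 hN hν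
  obtain ⟨k, hk⟩ := aug_nil (R := R) (N := N) ℓ h0 hN
  refine ⟨⟨k, ?_⟩, ?_, ?_⟩
  · rw [eq_bot_iff, ← q_bot ν hk ⊤]
    exact iter_le ν ⊤ k
  · intro J hJ
    have h1 : ∀ i, J ≤ (Aug R ν)^[i] J := by
      intro i
      induction i with
      | zero => exact le_rfl
      | succ i ih =>
        rw [Function.iterate_succ_apply']
        exact hJ.trans (aug_mono ν ih)
    rw [eq_bot_iff, ← q_bot ν hk J]
    exact (h1 k).trans (iter_le ν J k)
  · intro x hx
    refine ⟨k, ?_⟩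
    have h1 : ∀ i, x ^ i ∈ Q ν i (⊤ : Submodule R B) := by
      intro i
      induction i with
      | zero =>
        refine Submodule.subset_span ⟨1, ?_, 1, trivial, ?_⟩
        · rw [pow_zero, Ideal.one_eq_top]
          trivial
        · rw [pow_zero, map_one, one_mul]
      | succ i ih =>
        have hx' : Aug R ν ⊤ ≤ (Q ν (i + 1) ⊤).comap (LinearMap.mulRight R (x ^ i)) := by
          refine Submodule.span_le.2 ?_
          rintro _ ⟨n, b, -, rfl⟩
          have h2 : Q ν i ⊤ ≤ (Q ν (i + 1) ⊤).comap (LinearMap.mulLeft R ((ν n - 1) * b)) := by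
            refine Submodule.span_le.2 ?_
            rintro _ ⟨s, hs, c, -, rfl⟩
            refine Submodule.subset_span ⟨(MonoidAlgebra.of R N n - 1) * s, ?_, b * c,
              trivial, ?_⟩
            · rw [pow_succ']
              exact Ideal.mul_mem_mul (Ideal.subset_span ⟨n, rfl⟩) hs
            · show (ν n - 1) * b * (th (R := R) ν s * c) = th (R := R) ν _ * (b * c)
              rw [map_mul, th_of, mul_assoc, ← mul_assoc b, ← th_comm ν hν s b]
              simp only [mul_assoc]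
          exact h2 ih
        rw [pow_succ']
        exact hx' hx
    have h3 := h1 k
    rw [q_bot ν hk ⊤] at h3
    exact (Submodule.mem_bot R).1 h3

end Pool.Agent.PST.UC.H21
end
end -- Pool.Agent.Helper21_PST.NIA

section -- Pool.Agent.Helper28_PST.QTX

/-!
# Squad PST, block UC, row QTX (helper28): existence of the quotient
-/

set_option autoImplicit false

open scoped BigOperators

noncomputable section

namespace Pool.Agent.PST.UC.H28

open Pool.Agent.PSS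
open Pool.Agent.PSS.S0

section

variable (R : Type) {V A : Type} [CommRing R] [CommGroup V] [Ring A] [Algebra R A]

theorem aug_mul_left (α : V →* A) (N : Subgroup V) (hc : ∀ n ∈ N, ∀ a, α n * a = a * α n)
    (c x : A) (hx : x ∈ Aug R (α.comp N.subtype) ⊤) : c * x ∈ Aug R (α.comp N.subtype) ⊤ := by
  unfold Aug at hx ⊢
  induction hx using Submodule.span_induction with
  | mem y hy =>
    obtain ⟨n, b, -, rfl⟩ := hy
    refine Submodule.subset_span ⟨n, c * b, trivial, ?_⟩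
    have h : c * α (n : V) = α (n : V) * c := (hc n n.2 c).symm
    show c * ((α (n : V) - 1) * b) = (α (n : V) - 1) * (c * b)
    rw [← mul_assoc, mul_sub, mul_one, h, sub_mul, sub_mul, one_mul, mul_assoc]
  | zero => rw [mul_zero]; exact Submodule.zero_mem _
  | add x y _ _ hx hy => rw [mul_add]; exact Submodule.add_mem _ hx hy
  | smul r x _ hx => rw [mul_smul_comm]; exact Submodule.smul_mem _ r hx

theorem aug_mul_right (α : V →* A) (N : Subgroup V)
    (c x : A) (hx : x ∈ Aug R (α.comp N.subtype) ⊤) : x * c ∈ Aug R (α.comp N.subtype) ⊤ := by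
  unfold Aug at hx ⊢
  induction hx using Submodule.span_induction with
  | mem y hy =>
    obtain ⟨n, b, -, rfl⟩ := hy
    exact Submodule.subset_span ⟨n, b * c, trivial, mul_assoc _ _ _⟩
  | zero => rw [zero_mul]; exact Submodule.zero_mem _
  | add x y _ _ hx hy => rw [add_mul]; exact Submodule.add_mem _ hx hy
  | smul r x _ hx => rw [smul_mul_assoc]; exact Submodule.smul_mem _ r hx

/-- the ideal -/
def augI (α : V →* A) (N : Subgroup V) (hc : ∀ n ∈ N, ∀ a, α n * a = a * α n) : Ideal A where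
  carrier := {a | a ∈ Aug R (α.comp N.subtype) ⊤}
  add_mem' := by
    intro a b ha hb
    exact (Aug R (α.comp N.subtype) ⊤).add_mem ha hb
  zero_mem' := (Aug R (α.comp N.subtype) ⊤).zero_mem
  smul_mem' := by
    intro c x hx
    exact aug_mul_left R α N hc c x hx

theorem mem_augI (α : V →* A) (N : Subgroup V) (hc : ∀ n ∈ N, ∀ a, α n * a = a * α n) (a : A) :
    a ∈ augI R α N hc ↔ a ∈ Aug R (α.comp N.subtype) ⊤ := Iff.rfl

instance (α : V →* A) (N : Subgroup V) (hc : ∀ n ∈ N, ∀ a, α n * a = a * α n) :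
    (augI R α N hc).IsTwoSided where
  mul_mem_of_left := by
    intro a b ha
    exact aug_mul_right R α N b a ha

end

theorem qtx : QtxStmt := by
  intro R V A _ _ _ _ α N hc
  refine ⟨A ⧸ augI R α N hc, inferInstance, inferInstance,
    QuotientGroup.lift N
      (((Ideal.Quotient.mkₐ R (augI R α N hc)) : A →* A ⧸ augI R α N hc).comp α) ?_,
    Ideal.Quotient.mkₐ R (augI R α N hc), ?_⟩
  · intro n hn
    show Ideal.Quotient.mk (augI R α N hc) (α n) = 1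
    rw [← map_one (Ideal.Quotient.mk (augI R α N hc)), Ideal.Quotient.eq]
    show α n - 1 ∈ Aug R (α.comp N.subtype) ⊤
    exact Submodule.subset_span ⟨⟨n, hn⟩, 1, trivial, (mul_one _).symm⟩
  · constructor
    · exact hc
    · exact Ideal.Quotient.mk_surjective
    · intro a
      show Ideal.Quotient.mk (augI R α N hc) a = 0 ↔ _
      rw [Ideal.Quotient.eq_zero_iff_mem]
      rfl
    · intro v
      rfl

end Pool.Agent.PST.UC.H28
end
end -- Pool.Agent.Helper28_PST.QTX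

section -- Pool.Agent.Helper39_PST.QTF

/-!
# Squad PST, block UC, row QTF (helper39): the form of the quotient
-/

open scoped BigOperators TensorProduct PowerSeries

noncomputable section

namespace Pool.Agent.PST.UC.H39

open Pool.Agent.PSS

variable {V M : Type} [CommGroup V] [AddCommMonoid M]

/-- sum over the cosets -/
theorem fib [Fintype V] (N : Subgroup V) [Fintype N] [Fintype (V ⧸ N)] (f : V → M) :
    ∑ v, f v = ∑ q : V ⧸ N, ∑ n : N, f (q.out * (n : V)⁻¹) := by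
  rw [← Fintype.sum_prod_type' (f := fun (q : V ⧸ N) (n : N) => f (q.out * (n : V)⁻¹))]
  symm
  refine Fintype.sum_bijective (fun p : (V ⧸ N) × N => p.1.out * (p.2 : V)⁻¹) ⟨?_, ?_⟩ _ _
    (fun p => rfl)
  · rintro ⟨q, n⟩ ⟨q', n'⟩ h
    have hq : ∀ (q : V ⧸ N) (n : N), ((q.out * (n : V)⁻¹ : V) : V ⧸ N) = q := by
      intro q n
      rw [QuotientGroup.mk_mul, QuotientGroup.out_eq',
        (QuotientGroup.eq_one_iff _).mpr (N.inv_mem n.2), mul_one]
    have h1 : q = q' := by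
      have := congrArg (fun v : V => (v : V ⧸ N)) h
      simp only [hq] at this
      exact this
    subst h1
    have h2 : (n : V)⁻¹ = (n' : V)⁻¹ := mul_left_cancel h
    have h3 : n = n' := Subtype.ext (inv_injective h2)
    rw [h3]
  · intro v
    have hm : v⁻¹ * ((v : V ⧸ N)).out ∈ N := by
      rw [← QuotientGroup.eq, QuotientGroup.out_eq']
    refine ⟨((v : V ⧸ N), ⟨_, hm⟩), ?_⟩
    simp

theorem qtf : QtfStmt := by
  intro R V A H K _ _ _ _ _ _ _ _ α N _ _ αH π lam x y hQ hF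
  -- the form
  let L : A →ₗ[R] R := ∑ n : N, lam ∘ₗ (LinearMap.mulLeft R (α (n : V)))
  have hL : ∀ a, L a = ∑ n : N, lam (α n * a) := by
    intro a
    simp [L, LinearMap.sum_apply]
  have hinv : ∀ (n' : N) (a : A), L (α n' * a) = L a := by
    intro n' a
    rw [hL, hL]
    refine Fintype.sum_equiv (Equiv.mulRight n') _ _ ?_
    intro n
    rw [← mul_assoc, ← map_mul]
    rfl
  have hker : ∀ a, π a = 0 → L a = 0 := by
    intro a ha
    rw [hQ.ker] at ha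
    have hle : Aug R (α.comp N.subtype) ⊤ ≤ LinearMap.ker L := by
      refine Submodule.span_le.mpr ?_
      rintro z ⟨n, b, -, rfl⟩
      simp only [SetLike.mem_coe, LinearMap.mem_ker]
      rw [sub_mul, one_mul, map_sub]
      have := hinv n b
      simp only [MonoidHom.coe_comp, Function.comp_apply, Subgroup.coe_subtype]
      rw [this, sub_self]
    exact hle ha
  have hsurj : Function.Surjective π.toLinearMap := hQ.surj
  let lamH : H →ₗ[R] R := ((LinearMap.ker π.toLinearMap).liftQ L (fun a ha => by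
    rw [LinearMap.mem_ker] at ha ⊢
    exact hker a ha)) ∘ₗ (π.toLinearMap.quotKerEquivOfSurjective hsurj).symm.toLinearMap
  have hlam0 : ∀ a, lamH (π a) = L a := by
    intro a
    have h1 : (π.toLinearMap.quotKerEquivOfSurjective hsurj).symm (π a) =
        Submodule.Quotient.mk a := by
      rw [LinearEquiv.symm_apply_eq]
      rfl
    simp only [lamH, LinearMap.coe_comp, Function.comp_apply, LinearEquiv.coe_coe]
    rw [h1]
    rfl
  have hlam : ∀ a, lamH (π a) = ∑ n : N, lam (α n * a) := fun a => by rw [hlam0, hL]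
  have hq : ∀ (q : V ⧸ N) (n : N), ((q.out * (n : V)⁻¹ : V) : V ⧸ N) = q := by
    intro q n
    rw [QuotientGroup.mk_mul, QuotientGroup.out_eq',
      (QuotientGroup.eq_one_iff _).mpr (N.inv_mem n.2), mul_one]
  have hqo : ∀ q : V ⧸ N, αH q = π (α q.out) := by
    intro q
    rw [← hQ.om, QuotientGroup.out_eq']
  have hqi : ∀ q : V ⧸ N, αH q⁻¹ = π (α q.out⁻¹) := by
    intro q
    rw [← hQ.om, QuotientGroup.mk_inv, QuotientGroup.out_eq']
  refine ⟨lamH, hlam, ⟨?_, ?_, ?_⟩⟩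
  · intro a b
    obtain ⟨a, rfl⟩ := hQ.surj a
    obtain ⟨b, rfl⟩ := hQ.surj b
    rw [← map_mul, ← map_mul, hlam, hlam]
    refine Finset.sum_congr rfl fun n _ => ?_
    rw [← mul_assoc, hF.sym, ← mul_assoc, ← mul_assoc, hQ.cen n n.2 b]
  · intro h
    obtain ⟨a, rfl⟩ := hQ.surj h
    conv_rhs => rw [← hF.e1 a]
    rw [map_sum]
    refine Finset.sum_congr rfl fun k _ => ?_
    rw [map_sum, fib N]
    refine Finset.sum_congr rfl fun q _ => ?_
    have e1 : lamH (αH q⁻¹ * π (y k) * π a) =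
        ∑ n : N, lam (α (q.out * (n : V)⁻¹)⁻¹ * y k * a) := by
      rw [hqi, ← map_mul, ← map_mul, hlam]
      refine Finset.sum_congr rfl fun n _ => ?_
      congr 1
      rw [← mul_assoc, ← mul_assoc, ← map_mul]
      congr 3
      rw [mul_inv, inv_inv, mul_comm]
    rw [e1, Finset.sum_smul]
    refine Finset.sum_congr rfl fun n _ => ?_
    rw [map_smul, map_mul π, ← hQ.om, hq]
  · intro h
    obtain ⟨a, rfl⟩ := hQ.surj h
    conv_rhs => rw [← hF.e2 a]
    rw [map_sum]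
    refine Finset.sum_congr rfl fun k _ => ?_
    rw [map_sum, fib N]
    refine Finset.sum_congr rfl fun q _ => ?_
    have e1 : lamH (π a * (π (x k) * αH q)) =
        ∑ n : N, lam (a * (x k * α (q.out * (n : V)⁻¹))) := by
      rw [hqo, ← map_mul, ← map_mul, hlam]
      refine Fintype.sum_equiv (Equiv.inv N) _ _ ?_
      intro n
      rw [hF.sym]
      congr 1
      simp only [Equiv.inv_apply, Subgroup.coe_inv, inv_inv, map_mul, mul_assoc]
    rw [e1, Finset.sum_smul]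
    refine Finset.sum_congr rfl fun n _ => ?_
    rw [map_smul, map_mul π, ← hQ.om, QuotientGroup.mk_inv, hq]

end Pool.Agent.PST.UC.H39
end
end -- Pool.Agent.Helper39_PST.QTF

section -- Pool.Agent.Helper87_PST.QFR

/-!
# Squad PST, block UC, row QFR (335): the frame of the quotient
-/

set_option autoImplicit false

open scoped BigOperators TensorProduct PowerSeries

noncomputable section

namespace Pool.Agent.PST.UC.H87

open Pool.Agent.PFC (tw IsTv)
open Pool.Agent.PFD.D2b (FrR)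
open Pool.Agent.PSS
open Pool.Agent.PSS.S0

section quot

variable {V Ω : Type} [CommGroup V] [MulAction (V × V) Ω] (N : Subgroup V)

/-- the relation `ω₂ = (n, 1) ω₁`, `n ∈ N` -/
def relN : Setoid Ω where
  r ω₁ ω₂ := ∃ n ∈ N, ((n, 1) : V × V) • ω₁ = ω₂
  iseqv := by
    refine ⟨fun ω => ⟨1, N.one_mem, one_smul (V × V) ω⟩, ?_, ?_⟩
    · rintro ω₁ ω₂ ⟨n, hn, rfl⟩
      refine ⟨n⁻¹, N.inv_mem hn, ?_⟩
      rw [smul_smul, Prod.mk_mul_mk, inv_mul_cancel, one_mul]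
      exact one_smul (V × V) ω₁
    · rintro ω₁ ω₂ ω₃ ⟨n, hn, rfl⟩ ⟨m, hm, rfl⟩
      refine ⟨m * n, N.mul_mem hm hn, ?_⟩
      rw [smul_smul, Prod.mk_mul_mk, one_mul]

/-- the quotient -/
def Qn (Ω : Type) [MulAction (V × V) Ω] : Type := Quotient (relN (Ω := Ω) N)

/-- the projection -/
def mkN (ω : Ω) : Qn N Ω := Quotient.mk (relN N) ω

/-- a representative -/
def outN (q : Qn N Ω) : Ω := Quotient.out q

theorem mkN_outN (q : Qn N Ω) : mkN N (outN N q) = q := Quotient.out_eq q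

theorem mkN_eq {ω₁ ω₂ : Ω} : mkN N ω₁ = mkN N ω₂ ↔ ∃ n ∈ N, ((n, 1) : V × V) • ω₁ = ω₂ :=
  ⟨fun h => Quotient.exact h, fun h => Quotient.sound h⟩

theorem mkN_smul (hnn : ∀ n ∈ N, ∀ ω : Ω, ((n, n) : V × V) • ω = ω) {u u' v v' : V} {ω ω' : Ω}
    (hu : u⁻¹ * u' ∈ N) (hv : v⁻¹ * v' ∈ N) (h : mkN N ω = mkN N ω') :
    mkN N (((u, v) : V × V) • ω) = mkN N (((u', v') : V × V) • ω') := by
  rw [mkN_eq] at h ⊢
  obtain ⟨n, hn, rfl⟩ := h
  refine ⟨u⁻¹ * u' * (v⁻¹ * v')⁻¹ * n, N.mul_mem (N.mul_mem hu (N.inv_mem hv)) hn, ?_⟩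
  have h1 : ((u', v') : V × V) • ((n, 1) : V × V) • ω =
      ((u', v') : V × V) • ((n, 1) : V × V) • (((v⁻¹ * v')⁻¹, (v⁻¹ * v')⁻¹) : V × V) • ω := by
    rw [hnn _ (N.inv_mem hv)]
  rw [h1, smul_smul, smul_smul, smul_smul]
  congr 1
  rw [Prod.mk_mul_mk, Prod.mk_mul_mk, Prod.mk_mul_mk, Prod.mk.injEq]
  constructor
  · rw [show u⁻¹ * u' * (v⁻¹ * v')⁻¹ * n * u = u * u⁻¹ * (u' * n * (v⁻¹ * v')⁻¹) from by ac_rfl,
      mul_inv_cancel, one_mul]
  · rw [one_mul, mul_one, mul_inv, inv_inv, mul_comm v v'⁻¹, mul_inv_cancel_left]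

/-- the action on the quotient -/
@[reducible]
def actN (hnn : ∀ n ∈ N, ∀ ω : Ω, ((n, n) : V × V) • ω = ω) :
    MulAction ((V ⧸ N) × (V ⧸ N)) (Qn N Ω) where
  smul g q := mkN N (((Quotient.out g.1, Quotient.out g.2) : V × V) • outN N q)
  one_smul q := by
    show mkN N (((Quotient.out (1 : V ⧸ N), Quotient.out (1 : V ⧸ N)) : V × V) • outN N q) = q
    have h1 : ((1 : V))⁻¹ * (Quotient.out (1 : V ⧸ N)) ∈ N := by
      rw [← QuotientGroup.eq]
      exact (QuotientGroup.out_eq' (1 : V ⧸ N)).symm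
    rw [← mkN_smul N hnn h1 h1 (rfl : mkN N (outN N q) = mkN N (outN N q))]
    rw [show ((1, 1) : V × V) = 1 from rfl, one_smul, mkN_outN]
  mul_smul g h q := by
    show mkN N (((Quotient.out (g * h).1, Quotient.out (g * h).2) : V × V) • outN N q) =
      mkN N (((Quotient.out g.1, Quotient.out g.2) : V × V) •
        outN N (mkN N (((Quotient.out h.1, Quotient.out h.2) : V × V) • outN N q)))
    have h1 : ∀ x y : V ⧸ N, (Quotient.out x * Quotient.out y)⁻¹ * Quotient.out (x * y) ∈ N := by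
      intro x y
      rw [← QuotientGroup.eq, QuotientGroup.mk_mul, QuotientGroup.out_eq', QuotientGroup.out_eq',
        QuotientGroup.out_eq']
    have h2 : ∀ x : V, x⁻¹ * x ∈ N := fun x => by
      rw [inv_mul_cancel]
      exact N.one_mem
    rw [mkN_smul N hnn (h2 _) (h2 _) (mkN_outN N (mkN N
      (((Quotient.out h.1, Quotient.out h.2) : V × V) • outN N q))), smul_smul, Prod.mk_mul_mk]
    exact (mkN_smul N hnn (h1 g.1 h.1) (h1 g.2 h.2) rfl).symm

theorem actN_mk (hnn : ∀ n ∈ N, ∀ ω : Ω, ((n, n) : V × V) • ω = ω) (u v : V) (ω : Ω) :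
    (actN N hnn).smul ((u : V ⧸ N), (v : V ⧸ N)) (mkN N ω) =
      mkN N (((u, v) : V × V) • ω) := by
  have h1 : ∀ x : V, (Quotient.out (x : V ⧸ N))⁻¹ * x ∈ N := by
    intro x
    rw [← QuotientGroup.eq]
    exact QuotientGroup.out_eq' (x : V ⧸ N)
  exact mkN_smul N hnn (h1 u) (h1 v) (mkN_outN N (mkN N ω))

end quot

theorem qfr : QfrStmt := by
  classical
  intro ℓ _ R V E A H Ω _ _ _ _ _ _ _ _ _ _ _ φ α N φH αH π b c hV hE hQ hF hφN hφH
  obtain ⟨hcen, hsurj, hker, hom⟩ := hQ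
  obtain ⟨⟨hb1, hc1, hfr⟩, hst, hnn⟩ := hF
  let act : MulAction ((V ⧸ N) × (V ⧸ N)) (Qn N Ω) := actN N hnn
  have hsg : ∀ (u v : V) (ω : Ω), (((u : V ⧸ N), (v : V ⧸ N)) : (V ⧸ N) × (V ⧸ N)) • mkN N ω =
      mkN N (((u, v) : V × V) • ω) := fun u v ω => actN_mk N hnn u v ω
  let fin : Fintype (Qn N Ω) := Fintype.ofSurjective (mkN N) (fun q => ⟨outN N q, mkN_outN N q⟩)
  have hbw : ∀ (u v : V) (a : A), bw R αH ((u : V ⧸ N), (v : V ⧸ N)) (π a) =
      π (bw R α (u, v) a) := by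
    intro u v a
    show αH (u : V ⧸ N) * (π a * αH ((v : V ⧸ N)⁻¹)) = π (α u * (a * α v⁻¹))
    rw [map_mul, map_mul, hom u, ← hom v⁻¹, QuotientGroup.mk_inv]
  have hpb : ∀ n ∈ N, ∀ ω, π (b (((n, 1) : V × V) • ω)) = π (b ω) := by
    intro n hn ω
    rw [hb1, ← hbw, (QuotientGroup.eq_one_iff n).2 hn]
    show bw R αH (1 : (V ⧸ N) × (V ⧸ N)) (π (b ω)) = _
    rw [map_one]
    rfl
  have hb' : ∀ ω, π (b (outN N (mkN N ω))) = π (b ω) := by
    intro ω
    obtain ⟨n, hn, h⟩ := (mkN_eq N).1 (mkN_outN N (mkN N ω))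
    have h1 := hpb n hn (outN N (mkN N ω))
    rw [h] at h1
    exact h1.symm
  -- the coordinates
  have hsum : ∀ (u v : V) (q : Qn N Ω) (a : A),
      ∑ ω ∈ Finset.univ.filter (fun ω => mkN N ω =
        (((u : V ⧸ N), (v : V ⧸ N)) : (V ⧸ N) × (V ⧸ N)) • q), c ω (bw R α (u, v) a) =
      ∑ ω ∈ Finset.univ.filter (fun ω => mkN N ω = q), c ω a := by
    intro u v q a
    symm
    refine Finset.sum_bij (fun ω _ => ((u, v) : V × V) • ω) ?_ ?_ ?_ ?_
    · intro ω hω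
      rw [Finset.mem_filter] at hω ⊢
      refine ⟨Finset.mem_univ _, ?_⟩
      rw [← hsg, hω.2]
    · intro ω _ ω' _ h
      exact smul_left_cancel _ h
    · intro ω hω
      rw [Finset.mem_filter] at hω
      refine ⟨((u, v) : V × V)⁻¹ • ω, ?_, smul_inv_smul _ _⟩
      rw [Finset.mem_filter]
      refine ⟨Finset.mem_univ _, ?_⟩
      have h1 : (((u : V ⧸ N), (v : V ⧸ N)) : (V ⧸ N) × (V ⧸ N)) •
          mkN N (((u, v) : V × V)⁻¹ • ω) =
          (((u : V ⧸ N), (v : V ⧸ N)) : (V ⧸ N) × (V ⧸ N)) • q := by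
        rw [hsg, smul_inv_smul, hω.2]
      exact smul_left_cancel _ h1
    · intro ω _
      exact (hc1 _ _ _).symm
  have hc0 : ∀ (q : Qn N Ω) (a : A), π a = 0 →
      ∑ ω ∈ Finset.univ.filter (fun ω => mkN N ω = q), c ω a = 0 := by
    intro q a ha
    have h0 : Aug R (α.comp N.subtype) ⊤ ≤
        LinearMap.ker (∑ ω ∈ Finset.univ.filter (fun ω => mkN N ω = q), c ω) := by
      refine Submodule.span_le.2 ?_
      rintro x ⟨n, y, -, rfl⟩
      show _ = _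
      rw [LinearMap.sum_apply]
      have h2 := hsum n 1 q y
      have h3 : ((((n : V) : V ⧸ N), ((1 : V) : V ⧸ N)) : (V ⧸ N) × (V ⧸ N)) • q = q := by
        rw [(QuotientGroup.eq_one_iff (n : V)).2 n.2]
        exact one_smul _ q
      rw [h3] at h2
      have h4 : bw R α ((n : V), 1) y = α n * y := by
        show α n * (y * α 1⁻¹) = _
        rw [inv_one, map_one, mul_one]
      rw [h4] at h2
      have h5 : ∀ ω, c ω ((α.comp N.subtype n - 1) * y) = c ω (α n * y) - c ω y := by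
        intro ω
        rw [sub_mul, one_mul, map_sub]
        rfl
      rw [Finset.sum_congr rfl (fun ω _ => h5 ω), Finset.sum_sub_distrib, h2, sub_self]
    have h1 := h0 ((hker a).1 ha)
    rw [LinearMap.mem_ker, LinearMap.sum_apply] at h1
    exact h1
  have hcx : ∀ q : Qn N Ω, ∃ f : H →ₗ[R] R, ∀ a, f (π a) =
      ∑ ω ∈ Finset.univ.filter (fun ω => mkN N ω = q), c ω a := by
    intro q
    have hk : ∀ h a, π a = h → ∑ ω ∈ Finset.univ.filter (fun ω => mkN N ω = q),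
        c ω (Function.surjInv hsurj h) =
        ∑ ω ∈ Finset.univ.filter (fun ω => mkN N ω = q), c ω a := by
      intro h a ha
      have h1 := hc0 q (Function.surjInv hsurj h - a) (by
        rw [map_sub, Function.surjInv_eq hsurj, ha, sub_self])
      rw [Finset.sum_congr rfl (fun ω _ => map_sub (c ω) _ _), Finset.sum_sub_distrib] at h1
      exact sub_eq_zero.1 h1
    refine ⟨{ toFun := fun h => ∑ ω ∈ Finset.univ.filter (fun ω => mkN N ω = q),
                c ω (Function.surjInv hsurj h)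
              map_add' := ?_
              map_smul' := ?_ }, fun a => hk _ a rfl⟩
    · intro x y
      rw [hk (x + y) (Function.surjInv hsurj x + Function.surjInv hsurj y) (by
        rw [map_add, Function.surjInv_eq hsurj, Function.surjInv_eq hsurj]), ← Finset.sum_add_distrib]
      exact Finset.sum_congr rfl fun ω _ => map_add _ _ _
    · intro r x
      rw [hk (r • x) (r • Function.surjInv hsurj x) (by
        rw [map_smul, Function.surjInv_eq hsurj]), RingHom.id_apply, Finset.smul_sum]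
      exact Finset.sum_congr rfl fun ω _ => map_smul _ _ _
  choose c' hc' using hcx
  -- the stabilisers
  have hfix : ∀ (v : V) (ω : Ω),
      (((v : V ⧸ N), (v : V ⧸ N)) : (V ⧸ N) × (V ⧸ N)) • mkN N ω = mkN N ω →
      ((v, v) : V × V) • ω = ω := by
    intro v ω h
    rw [hsg] at h
    obtain ⟨n, hn, h1⟩ := (mkN_eq N).1 h
    obtain ⟨e, S, hS⟩ := hst ω
    rw [smul_smul, Prod.mk_mul_mk, one_mul] at h1
    have h2 : ((n * v, v) : V × V) ∈ MulAction.stabilizer (V × V) ω := h1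
    rw [hS] at h2
    obtain ⟨s, hs, h3⟩ := h2
    have h4 : φ e s = n * v ∧ s = v := Prod.mk.inj h3
    obtain ⟨h5, rfl⟩ := h4
    have h6 : ∀ k : ℕ, φ (e ^ k) s = n ^ k * s := by
      intro k
      induction k with
      | zero => simp
      | succ k ih =>
        rw [pow_succ', map_mul, MulAut.mul_apply, ih, map_mul, map_pow, hφN e n hn, h5,
          ← mul_assoc, ← pow_succ]
    have h7 := h6 (orderOf e)
    rw [pow_orderOf_eq_one, map_one, MulAut.one_apply] at h7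
    have h8 : n ^ orderOf e = 1 := mul_eq_right.1 h7.symm
    have h9 : Nat.Coprime (orderOf e) (orderOf n) := by
      obtain ⟨k, hk⟩ := hV n
      have hprime : ℓ.Prime := Fact.out
      have h10 : orderOf n ∣ ℓ ^ k := orderOf_dvd_of_pow_eq_one hk
      have h11 : Nat.Coprime ℓ (orderOf e) := by
        rw [Nat.Prime.coprime_iff_not_dvd hprime]
        intro h
        exact hE (h.trans (orderOf_dvd_natCard e))
      exact (Nat.Coprime.pow_left k h11).symm.coprime_dvd_right h10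
    have h12 : orderOf n ∣ orderOf e := orderOf_dvd_of_pow_eq_one h8
    have h13 : orderOf n = 1 := by
      have := Nat.Coprime.eq_one_of_dvd h9.symm h12
      exact this
    rw [orderOf_eq_one_iff] at h13
    rw [h13, one_mul] at h1
    exact h1
  -- the section
  have hrep : ∀ q : Qn N Ω, ∃ q0 : Qn N Ω, ∃ v : V,
      (((v : V ⧸ N), (v : V ⧸ N)) : (V ⧸ N) × (V ⧸ N)) • q0 = q := fun q =>
    ⟨q, 1, one_smul _ q⟩
  obtain ⟨rep, hrep1, hrep2⟩ : ∃ rep : Qn N Ω → Qn N Ω,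
      (∀ q, ∃ v : V, (((v : V ⧸ N), (v : V ⧸ N)) : (V ⧸ N) × (V ⧸ N)) • rep q = q) ∧
      ∀ (v : V) q, rep ((((v : V ⧸ N), (v : V ⧸ N)) : (V ⧸ N) × (V ⧸ N)) • q) = rep q := by
    refine ⟨fun q => @Classical.epsilon (Qn N Ω) ⟨q⟩ (fun q0 => ∃ v : V,
      (((v : V ⧸ N), (v : V ⧸ N)) : (V ⧸ N) × (V ⧸ N)) • q0 = q), ?_, ?_⟩
    · intro q
      exact Classical.epsilon_spec (hrep q)
    · intro w q
      have h1 : (fun q0 : Qn N Ω => ∃ v : V, (((v : V ⧸ N), (v : V ⧸ N)) : (V ⧸ N) × (V ⧸ N)) • q0 =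
          (((w : V ⧸ N), (w : V ⧸ N)) : (V ⧸ N) × (V ⧸ N)) • q) =
          fun q0 : Qn N Ω => ∃ v : V, (((v : V ⧸ N), (v : V ⧸ N)) : (V ⧸ N) × (V ⧸ N)) • q0 = q := by
        funext q0
        refine propext ⟨?_, ?_⟩
        · rintro ⟨v, hv⟩
          refine ⟨w⁻¹ * v, ?_⟩
          rw [QuotientGroup.mk_mul, ← Prod.mk_mul_mk, ← smul_smul, hv, smul_smul,
            Prod.mk_mul_mk, QuotientGroup.mk_inv, inv_mul_cancel]
          exact one_smul _ q
        · rintro ⟨v, hv⟩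
          refine ⟨w * v, ?_⟩
          rw [QuotientGroup.mk_mul, ← Prod.mk_mul_mk, ← smul_smul, hv]
      show @Classical.epsilon (Qn N Ω) ⟨q⟩ _ = @Classical.epsilon (Qn N Ω) ⟨q⟩ _
      rw [h1]
  choose vv hvv using hrep1
  have hs1 : ∀ q, mkN N (((vv q, vv q) : V × V) • outN N (rep q)) = q := by
    intro q
    rw [← hsg, mkN_outN, hvv]
  have hs2 : ∀ (v : V) (q : Qn N Ω),
      ((vv ((((v : V ⧸ N), (v : V ⧸ N)) : (V ⧸ N) × (V ⧸ N)) • q),
        vv ((((v : V ⧸ N), (v : V ⧸ N)) : (V ⧸ N) × (V ⧸ N)) • q)) : V × V) •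
        outN N (rep ((((v : V ⧸ N), (v : V ⧸ N)) : (V ⧸ N) × (V ⧸ N)) • q)) =
      ((v, v) : V × V) • ((vv q, vv q) : V × V) • outN N (rep q) := by
    intro v q
    have h1 := hvv ((((v : V ⧸ N), (v : V ⧸ N)) : (V ⧸ N) × (V ⧸ N)) • q)
    rw [hrep2] at h1 ⊢
    set v' := vv ((((v : V ⧸ N), (v : V ⧸ N)) : (V ⧸ N) × (V ⧸ N)) • q) with hv'
    have h2 : (((v' : V ⧸ N), (v' : V ⧸ N)) : (V ⧸ N) × (V ⧸ N)) • rep q =
        (((v : V ⧸ N), (v : V ⧸ N)) : (V ⧸ N) × (V ⧸ N)) •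
        (((vv q : V ⧸ N), (vv q : V ⧸ N)) : (V ⧸ N) × (V ⧸ N)) • rep q := by
      rw [h1, hvv]
    have hd : ∀ x y : V, (((x * y : V) : V ⧸ N), ((x * y : V) : V ⧸ N)) =
        (((x : V ⧸ N), (x : V ⧸ N)) : (V ⧸ N) × (V ⧸ N)) * ((y : V ⧸ N), (y : V ⧸ N)) :=
      fun x y => rfl
    have h3 := hfix (v'⁻¹ * (v * vv q)) (outN N (rep q)) (by
      rw [mkN_outN, hd, hd, mul_smul, mul_smul, ← h2, smul_smul, ← hd, inv_mul_cancel]
      exact one_smul ((V ⧸ N) × (V ⧸ N)) (rep q))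
    have h4 : ((v', v') : V × V) • ((v'⁻¹ * (v * vv q), v'⁻¹ * (v * vv q)) : V × V) •
        outN N (rep q) = ((v', v') : V × V) • outN N (rep q) := by rw [h3]
    rw [← h4, smul_smul, smul_smul, Prod.mk_mul_mk, Prod.mk_mul_mk, mul_inv_cancel_left]
  set s : Qn N Ω → Ω := fun q => ((vv q, vv q) : V × V) • outN N (rep q) with hs
  -- the elements m
  have hm0 : ∀ ω : Ω, ∃ n : V, n ∈ N ∧ ω = ((n, 1) : V × V) • s (mkN N ω) := by
    intro ω
    obtain ⟨n, hn, h1⟩ := (mkN_eq N).1 (hs1 (mkN N ω))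
    exact ⟨n, hn, h1.symm⟩
  obtain ⟨m, hm1, hm2⟩ : ∃ m : Ω → V, (∀ ω, m ω ∈ N ∧ ω = ((m ω, 1) : V × V) • s (mkN N ω)) ∧
      ∀ (v : V) ω, m (((v, v) : V × V) • ω) = m ω := by
    refine ⟨fun ω => @Classical.epsilon V ⟨1⟩ (fun n => n ∈ N ∧
      ω = ((n, 1) : V × V) • s (mkN N ω)), fun ω => Classical.epsilon_spec (hm0 ω), ?_⟩
    intro v ω
    have h1 : (fun n : V => n ∈ N ∧ ((v, v) : V × V) • ω = ((n, 1) : V × V) •
        s (mkN N (((v, v) : V × V) • ω))) =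
        fun n : V => n ∈ N ∧ ω = ((n, 1) : V × V) • s (mkN N ω) := by
      funext n
      have h2 : s (mkN N (((v, v) : V × V) • ω)) = ((v, v) : V × V) • s (mkN N ω) := by
        rw [← hsg v v ω]
        exact hs2 v (mkN N ω)
      rw [h2, smul_smul, show ((n, 1) : V × V) * (v, v) = (v, v) * (n, 1) from mul_comm _ _,
        ← smul_smul, smul_left_cancel_iff]
    show @Classical.epsilon V ⟨1⟩ _ = @Classical.epsilon V ⟨1⟩ _
    rw [h1]
  refine ⟨Qn N Ω, fin, act, fun q => π (b (outN N q)), c', mkN N, s, m, ?_⟩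
  refine ⟨⟨?_, ?_, ?_⟩, ?_, hb', ?_, fun u v ω => hsg u v ω, hfix, hs1, hs2, fun ω => (hm1 ω).1,
    fun ω => (hm1 ω).2, hm2⟩
  · rintro ⟨g1, g2⟩ q
    obtain ⟨u, rfl⟩ := QuotientGroup.mk_surjective g1
    obtain ⟨v, rfl⟩ := QuotientGroup.mk_surjective g2
    show π (b (outN N ((((u : V ⧸ N), (v : V ⧸ N)) : (V ⧸ N) × (V ⧸ N)) • q))) =
      bw R αH ((u : V ⧸ N), (v : V ⧸ N)) (π (b (outN N q)))
    rw [hbw, ← hb1, ← hb' (((u, v) : V × V) • outN N q), ← hsg, mkN_outN]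
  · rintro ⟨g1, g2⟩ q h
    obtain ⟨u, rfl⟩ := QuotientGroup.mk_surjective g1
    obtain ⟨v, rfl⟩ := QuotientGroup.mk_surjective g2
    obtain ⟨a, rfl⟩ := hsurj h
    rw [hbw, hc', hc', hsum]
  · intro h
    obtain ⟨a, rfl⟩ := hsurj h
    have h1 : ∀ q : Qn N Ω, c' q (π a) • π (b (outN N q)) =
        ∑ ω ∈ Finset.univ.filter (fun ω => mkN N ω = q), c ω a • π (b ω) := by
      intro q
      rw [hc', Finset.sum_smul]
      refine Finset.sum_congr rfl fun ω hω => ?_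
      rw [Finset.mem_filter] at hω
      rw [← hω.2, hb']
    rw [Finset.sum_congr rfl fun q _ => h1 q,
      Finset.sum_fiberwise Finset.univ (mkN N) (fun ω => c ω a • π (b ω))]
    conv_rhs => rw [← hfr a, map_sum]
    exact Finset.sum_congr rfl fun ω _ => (map_smul _ _ _).symm
  · intro q
    obtain ⟨e, S, hS⟩ := hst (outN N q)
    refine ⟨e, S.map (QuotientGroup.mk' N), ?_⟩
    ext ⟨g1, g2⟩
    obtain ⟨u, rfl⟩ := QuotientGroup.mk_surjective g1
    obtain ⟨v, rfl⟩ := QuotientGroup.mk_surjective g2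
    have hq : mkN N (outN N q) = q := mkN_outN N q
    constructor
    · intro h
      have h1 : (((u : V ⧸ N), (v : V ⧸ N)) : (V ⧸ N) × (V ⧸ N)) • q = q := h
      rw [← hq, hsg] at h1
      obtain ⟨n, hn, h2⟩ := (mkN_eq N).1 h1
      rw [smul_smul, Prod.mk_mul_mk, one_mul] at h2
      have h3 : ((n * u, v) : V × V) ∈ MulAction.stabilizer (V × V) (outN N q) := h2
      rw [hS] at h3
      obtain ⟨x, hx, h4⟩ := h3
      have h5 : φ e x = n * u ∧ x = v := Prod.mk.inj h4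
      obtain ⟨h6, rfl⟩ := h5
      refine ⟨(x : V ⧸ N), ⟨x, hx, rfl⟩, ?_⟩
      show ((φH e (x : V ⧸ N), (x : V ⧸ N)) : (V ⧸ N) × (V ⧸ N)) = _
      rw [hφH, h6, QuotientGroup.mk_mul, (QuotientGroup.eq_one_iff n).2 hn, one_mul]
    · rintro ⟨y, ⟨x, hx, rfl⟩, h4⟩
      have h5 : ((φH e (x : V ⧸ N), (x : V ⧸ N)) : (V ⧸ N) × (V ⧸ N)) =
        ((u : V ⧸ N), (v : V ⧸ N)) := h4
      have h6 : ((φ e x, x) : V × V) ∈ MulAction.stabilizer (V × V) (outN N q) := by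
        rw [hS]
        exact ⟨x, hx, rfl⟩
      have h7 : ((φ e x, x) : V × V) • outN N q = outN N q := h6
      show (((u : V ⧸ N), (v : V ⧸ N)) : (V ⧸ N) × (V ⧸ N)) • q = q
      rw [← h5, hφH, ← hq, hsg, h7]
  · intro q a
    exact hc' q a

end Pool.Agent.PST.UC.H87
end
end -- Pool.Agent.Helper87_PST.QFR

section -- Pool.Agent.Helper92_PST.CIL

set_option autoImplicit false

open scoped BigOperators TensorProduct PowerSeries

noncomputable section

namespace Pool.Agent.PST.UC.H92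

open Pool.Agent.PST.UC

section

variable {R N B : Type} [CommRing R] [CommGroup N] [Ring B] [Algebra R B] {ν : N →* B}

theorem aug_mul_right {y : B} (hy : y ∈ Aug R ν ⊤) (x : B) : y * x ∈ Aug R ν ⊤ := by
  refine Submodule.span_induction (p := fun y _ => y * x ∈ Aug R ν ⊤) ?_ ?_ ?_ ?_ hy
  · rintro _ ⟨n, b, -, rfl⟩
    refine Submodule.subset_span ⟨n, b * x, Submodule.mem_top, ?_⟩
    rw [mul_assoc]
  · rw [zero_mul]
    exact Submodule.zero_mem _
  · intro a b _ _ ha hb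
    rw [add_mul]
    exact Submodule.add_mem _ ha hb
  · intro r a _ ha
    rw [smul_mul_assoc]
    exact Submodule.smul_mem _ r ha

theorem aug_mul_left (hc : ∀ n b, ν n * b = b * ν n) {y : B} (hy : y ∈ Aug R ν ⊤) (x : B) :
    x * y ∈ Aug R ν ⊤ := by
  refine Submodule.span_induction (p := fun y _ => x * y ∈ Aug R ν ⊤) ?_ ?_ ?_ ?_ hy
  · rintro _ ⟨n, b, -, rfl⟩
    refine Submodule.subset_span ⟨n, x * b, Submodule.mem_top, ?_⟩
    rw [← mul_assoc, mul_sub, ← hc n x, mul_one, sub_mul, sub_mul, one_mul, mul_assoc]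
  · rw [mul_zero]
    exact Submodule.zero_mem _
  · intro a b _ _ ha hb
    rw [mul_add]
    exact Submodule.add_mem _ ha hb
  · intro r a _ ha
    rw [mul_smul_comm]
    exact Submodule.smul_mem _ r ha

theorem corner (hc : ∀ n b, ν n * b = b * ν n)
    (hJ : ∀ J : Submodule R B, J ≤ Aug R ν J → J = ⊥) {e1 e2 : B} (h1 : e1 * e1 = e1)
    (h2 : e2 * e2 = e2) (h : ∀ x, e1 * x * e2 ∈ Aug R ν ⊤) (x : B) : e1 * x * e2 = 0 := by
  let L : B →ₗ[R] B := (LinearMap.mulRight R e2).comp (LinearMap.mulLeft R e1)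
  have hL : ∀ z, L z = e1 * z * e2 := fun z => rfl
  have hmain : LinearMap.range L ≤ Aug R ν (LinearMap.range L) := by
    rintro _ ⟨z, rfl⟩
    have h3 : L (L z) = L z := by
      simp only [hL]
      calc e1 * (e1 * z * e2) * e2 = (e1 * e1) * z * (e2 * e2) := by simp only [mul_assoc]
        _ = e1 * z * e2 := by rw [h1, h2]
    have h4 : ∀ y ∈ Aug R ν ⊤, L y ∈ Aug R ν (LinearMap.range L) := by
      intro y hy
      refine Submodule.span_induction (p := fun y _ => L y ∈ Aug R ν (LinearMap.range L))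
        ?_ ?_ ?_ ?_ hy
      · rintro _ ⟨n, b, -, rfl⟩
        refine Submodule.subset_span ⟨n, L b, ⟨b, rfl⟩, ?_⟩
        simp only [hL]
        calc e1 * ((ν n - 1) * b) * e2 = (e1 * ν n) * b * e2 - e1 * b * e2 := by noncomm_ring
          _ = (ν n * e1) * b * e2 - e1 * b * e2 := by rw [hc]
          _ = (ν n - 1) * (e1 * b * e2) := by noncomm_ring
      · rw [map_zero]
        exact Submodule.zero_mem _
      · intro a b _ _ ha hb
        rw [map_add]
        exact Submodule.add_mem _ ha hb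
      · intro r a _ ha
        rw [map_smul]
        exact Submodule.smul_mem _ r ha
    rw [← h3]
    exact h4 _ (h z)
  have h5 := hJ _ hmain
  have h6 : L x ∈ LinearMap.range L := ⟨x, rfl⟩
  rw [h5, Submodule.mem_bot] at h6
  exact h6

end

theorem cil (hNIA : NiaStmt) : CilStmt := by
  intro ℓ hp R N B _ _ _ _ _ ν b hℓ hN hc hbb hbc
  obtain ⟨-, hJ, hnil⟩ := hNIA ℓ R N B ν hℓ hN hc
  obtain ⟨k₀, hk₀⟩ := hnil _ hbb
  obtain ⟨k, hk⟩ : ∃ k, k = k₀ + 1 := ⟨_, rfl⟩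
  have hk0 : k ≠ 0 := by omega
  have hnk : (b * b - b) ^ k = 0 := by rw [hk, pow_succ, hk₀, zero_mul]
  obtain ⟨P, hP⟩ : ∃ P : Polynomial R, P = 1 - (1 - Polynomial.X ^ k) ^ k := ⟨_, rfl⟩
  obtain ⟨q1, hq1⟩ : Polynomial.X ^ k ∣ P := by
    have h1 : (Polynomial.X ^ k : Polynomial R) = 1 - (1 - Polynomial.X ^ k) := by ring
    rw [hP]
    calc (Polynomial.X ^ k : Polynomial R) = 1 - (1 - Polynomial.X ^ k) := h1
      _ ∣ 1 ^ k - (1 - Polynomial.X ^ k) ^ k := sub_dvd_pow_sub_pow _ _ k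
      _ = 1 - (1 - Polynomial.X ^ k) ^ k := by rw [one_pow]
  obtain ⟨q2, hq2⟩ : (1 - Polynomial.X : Polynomial R) ^ k ∣ 1 - P := by
    have h2 : 1 - P = (1 - Polynomial.X ^ k) ^ k := by rw [hP]; ring
    rw [h2]
    refine pow_dvd_pow_of_dvd ?_ k
    calc (1 - Polynomial.X : Polynomial R) ∣ 1 ^ k - Polynomial.X ^ k := sub_dvd_pow_sub_pow _ _ k
      _ = 1 - Polynomial.X ^ k := by rw [one_pow]
  obtain ⟨g, hg⟩ : (Polynomial.X : Polynomial R) ∣ P :=
    dvd_trans (dvd_pow_self _ hk0) ⟨q1, hq1⟩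
  obtain ⟨h, hh⟩ : (Polynomial.X - Polynomial.C 1 : Polynomial R) ∣ g - 1 := by
    rw [Polynomial.dvd_iff_isRoot, Polynomial.IsRoot.def]
    have h3 := congrArg (Polynomial.eval 1) hg
    rw [Polynomial.eval_mul, Polynomial.eval_X, one_mul, hP] at h3
    rw [Polynomial.eval_sub, ← h3]
    simp [hk0]
  have hPX : P - Polynomial.X = (Polynomial.X * Polynomial.X - Polynomial.X) * h := by
    rw [hg]
    have : g = 1 + (Polynomial.X - Polynomial.C 1) * h := by rw [← hh]; ring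
    rw [this, map_one]
    ring
  set f : B := Polynomial.aeval b P with hf
  have hf1 : f = b * Polynomial.aeval b g := by
    rw [hf, hg, map_mul, Polynomial.aeval_X]
  have hff : f * (1 - f) = 0 := by
    have h4 : P * (1 - P) = (Polynomial.X * (1 - Polynomial.X)) ^ k * (q1 * q2) := by
      conv_lhs => rw [hq2]
      rw [mul_pow]
      conv_lhs => rw [hq1]
      ring
    have h5 := congrArg (Polynomial.aeval b) h4
    simp only [map_mul, map_sub, map_one, map_pow, Polynomial.aeval_X] at h5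
    rw [← hf] at h5
    have h6 : b * (1 - b) = -(b * b - b) := by noncomm_ring
    rw [h6, neg_pow, hnk, mul_zero, zero_mul] at h5
    exact h5
  have hidem : f * f = f := by
    rw [mul_sub, mul_one, sub_eq_zero] at hff
    exact hff.symm
  have hidem' : (1 - f) * (1 - f) = 1 - f := by
    calc (1 - f) * (1 - f) = 1 - f - f + f * f := by noncomm_ring
      _ = 1 - f := by rw [hidem]; abel
  have hfb : f - b ∈ Aug R ν ⊤ := by
    have h5 := congrArg (Polynomial.aeval b) hPX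
    simp only [map_sub, map_mul, Polynomial.aeval_X] at h5
    rw [hf, h5]
    exact aug_mul_right hbb _
  have hcomm : ∀ x, f * x - x * f ∈ Aug R ν ⊤ := by
    intro x
    have h7 : f * x - x * f = (f - b) * x - x * (f - b) + (b * x - x * b) := by noncomm_ring
    rw [h7]
    exact Submodule.add_mem _ (Submodule.sub_mem _ (aug_mul_right hfb x)
      (aug_mul_left hc hfb x)) (hbc x)
  have h8 : ∀ x, f * x * (1 - f) = 0 := by
    refine corner hc hJ hidem hidem' fun x => ?_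
    have h9 : f * x * (1 - f) = (f * x - x * f) * (1 - f) + x * (f * (1 - f)) := by noncomm_ring
    rw [h9, hff, mul_zero, add_zero]
    exact aug_mul_right (hcomm x) _
  have h10 : ∀ x, (1 - f) * x * f = 0 := by
    refine corner hc hJ hidem' hidem fun x => ?_
    have h9 : (1 - f) * x * f = -((f * x - x * f) * f) + x * (f - f * f) := by noncomm_ring
    rw [h9, hidem, sub_self, mul_zero, add_zero]
    exact Submodule.neg_mem _ (aug_mul_right (hcomm x) _)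
  refine ⟨f, g, hf1, hidem, fun x => ?_, hfb⟩
  have h11 := h8 x
  have h12 := h10 x
  have h13 : f * x = f * x * f := by
    have : f * x * (1 - f) = f * x - f * x * f := by noncomm_ring
    rw [this] at h11
    exact sub_eq_zero.1 h11
  have h14 : x * f = f * x * f := by
    have : (1 - f) * x * f = x * f - f * x * f := by noncomm_ring
    rw [this] at h12
    exact sub_eq_zero.1 h12
  rw [h13, h14]

end Pool.Agent.PST.UC.H92
end
end -- Pool.Agent.Helper92_PST.CIL
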