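import Pool.Agent.Helper12_AWB.B005

/-!
# Merged copies (generated) of the modules

* `Pool.Agent.PSS.Nwe`
* `Pool.Agent.Helper6_PSS.BKI`
* `Pool.Agent.Helper63_PSS.BKF`
* `Pool.Agent.Helper70_PSS.BQX`
-/

set_option autoImplicit false

section -- Pool.Agent.PSS.Nwe

/-!
# Squad PSS, rows NWE and NWU: existence and uniqueness of the sum of the twisted Brauer quotients
-/

open scoped BigOperators

noncomputable section

namespace Pool.Agent.PSS

open Pool.Agent.PFC (tw IsTv)
open Pool.Agent.PFD.D2b (FrR)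

/-! ## General facts on fixed vectors and Brauer kernels -/

section rep

variable {R H K M M' : Type} [CommRing R] [Group H] [Group K] [AddCommGroup M] [Module R M]
  [AddCommGroup M'] [Module R M']

theorem mem_FxR {ρ : H →* (M →ₗ[R] M)} {P : Subgroup H} {m : M} :
    m ∈ FxR ρ P ↔ ∀ h ∈ P, ρ h m = m := Iff.rfl

theorem FxR_range (ρ : H →* (M →ₗ[R] M)) (f : K →* H) :
    FxR ρ f.range = FxR (ρ.comp f) ⊤ := by
  ext m
  constructor
  · intro h k _
    exact h (f k) ⟨k, rfl⟩
  · rintro h _ ⟨k, rfl⟩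
    exact h k (Subgroup.mem_top k)

theorem FxR_map (ρ : H →* (M →ₗ[R] M)) (f : K →* H) (P : Subgroup K) :
    FxR ρ (P.map f) = FxR (ρ.comp f) P := by
  ext m
  constructor
  · intro h k hk
    exact h (f k) ⟨k, hk, rfl⟩
  · rintro h _ ⟨k, hk, rfl⟩
    exact h k hk

theorem IsTv_map {f : K →* H} (hf : Function.Injective f) [DecidableEq H] {P' P : Subgroup K}
    {S : Finset K} (h : IsTv P' P S) : IsTv (P'.map f) (P.map f) (S.image f) := by
  constructor
  · intro s hs
    obtain ⟨t, ht, rfl⟩ := Finset.mem_image.1 hs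
    exact ⟨t, h.1 t ht, rfl⟩
  · rintro _ ⟨p, hp, rfl⟩
    obtain ⟨s, ⟨hs, hs'⟩, hu⟩ := h.2 p hp
    refine ⟨f s, ⟨Finset.mem_image.2 ⟨s, hs, rfl⟩, ?_⟩, ?_⟩
    · exact ⟨s⁻¹ * p, hs', by rw [map_mul, map_inv]⟩
    · rintro y ⟨hy, hy'⟩
      obtain ⟨t, ht, rfl⟩ := Finset.mem_image.1 hy
      obtain ⟨q, hq, hq'⟩ := hy'
      have : q = t⁻¹ * p := hf (by rw [hq', map_mul, map_inv])
      subst this
      rw [hu t ⟨ht, hq⟩]

theorem BKR_map (ρ : H →* (M →ₗ[R] M)) {f : K →* H} (hf : Function.Injective f)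
    (P : Subgroup K) : BKR ρ (P.map f) = BKR (ρ.comp f) P := by
  classical
  apply le_antisymm
  · apply Submodule.span_le.2
    rintro n ⟨Q, S, m, hQ, hS, hm, rfl⟩
    have hQr : Q ≤ f.range := hQ.le.trans (Subgroup.map_le_range f P)
    have hQm : (Q.comap f).map f = Q := Subgroup.map_comap_eq_self hQr
    refine Submodule.subset_span ⟨Q.comap f, S.preimage f hf.injOn, m, ?_, ?_, ?_, ?_⟩
    · constructor
      · intro k hk
        obtain ⟨p, hp, hpk⟩ := hQ.le (Subgroup.mem_comap.1 hk)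
        exact hf hpk ▸ hp
      · intro h
        apply hQ.not_ge
        rintro _ ⟨p, hp, rfl⟩
        exact h hp
    · constructor
      · intro s hs
        obtain ⟨p, hp, hps⟩ := hS.1 (f s) (Finset.mem_preimage.1 hs)
        exact hf hps ▸ hp
      · intro p hp
        obtain ⟨s, ⟨hs, hs'⟩, hu⟩ := hS.2 (f p) ⟨p, hp, rfl⟩
        obtain ⟨t, ht, rfl⟩ := hS.1 s hs
        refine ⟨t, ⟨Finset.mem_preimage.2 hs, ?_⟩, ?_⟩
        · rw [Subgroup.mem_comap, map_mul, map_inv]
          exact hs'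
        · rintro y ⟨hy, hy'⟩
          apply hf
          apply hu
          refine ⟨Finset.mem_preimage.1 hy, ?_⟩
          rw [Subgroup.mem_comap, map_mul, map_inv] at hy'
          exact hy'
    · intro k hk
      exact hm (f k) hk
    · symm
      apply Finset.sum_preimage f S hf.injOn (fun x => ρ x m)
      intro x hx hx'
      obtain ⟨p, hp, rfl⟩ := hS.1 x hx
      exact (hx' ⟨p, rfl⟩).elim
  · apply Submodule.span_le.2
    rintro n ⟨Q, S, m, hQ, hS, hm, rfl⟩
    refine Submodule.subset_span ⟨Q.map f, S.image f, m, ?_, IsTv_map hf hS, ?_, ?_⟩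
    · constructor
      · exact Subgroup.map_mono hQ.le
      · intro h
        apply hQ.not_ge
        intro p hp
        obtain ⟨q, hq, hqp⟩ := h ⟨p, hp, rfl⟩
        exact hf hqp ▸ hq
    · rw [FxR_map]
      exact hm
    · rw [Finset.sum_image (fun a _ b _ h => hf h)]
      rfl

theorem BKR_range (ρ : H →* (M →ₗ[R] M)) {f : K →* H} (hf : Function.Injective f) :
    BKR ρ f.range = BKR (ρ.comp f) ⊤ := by
  rw [MonoidHom.range_eq_map]
  exact BKR_map ρ hf ⊤

theorem FxR_hom {ρ : H →* (M →ₗ[R] M)} {ρ' : H →* (M' →ₗ[R] M')} {L : M →ₗ[R] M'}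
    (hL : ∀ h m, L (ρ h m) = ρ' h (L m)) {P : Subgroup H} {m : M} (hm : m ∈ FxR ρ P) :
    L m ∈ FxR ρ' P := by
  intro h hh
  rw [← hL, hm h hh]

theorem BKR_hom {ρ : H →* (M →ₗ[R] M)} {ρ' : H →* (M' →ₗ[R] M')} {L : M →ₗ[R] M'}
    (hL : ∀ h m, L (ρ h m) = ρ' h (L m)) {P : Subgroup H} {m : M} (hm : m ∈ BKR ρ P) :
    L m ∈ BKR ρ' P := by
  have : BKR ρ P ≤ (BKR ρ' P).comap L := by
    apply Submodule.span_le.2
    rintro n ⟨Q, S, m, hQ, hS, hm, rfl⟩
    refine Submodule.subset_span ⟨Q, S, L m, hQ, hS, FxR_hom hL hm, ?_⟩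
    rw [map_sum]
    exact Finset.sum_congr rfl fun x _ => hL x m
  exact this hm

theorem BKR_le_FxR {ρ : H →* (M →ₗ[R] M)} {P : Subgroup H} : BKR ρ P ≤ FxR ρ P := by
  apply Submodule.span_le.2
  rintro n ⟨Q, S, m, hQ, hS, hm, rfl⟩
  intro h hh
  rw [map_sum]
  -- `h s = σ(s) q` with `σ` a permutation of `S`
  have key : ∀ s ∈ S, ∃ t ∈ S, t⁻¹ * (h * s) ∈ Q := by
    intro s hs
    obtain ⟨t, ⟨ht, ht'⟩, _⟩ := hS.2 (h * s) (P.mul_mem hh (hS.1 s hs))
    exact ⟨t, ht, ht'⟩
  choose! σ hσ hσ' using key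
  refine Finset.sum_bij (fun s _ => σ s) (fun s hs => hσ s hs) ?_ ?_ ?_
  · intro s hs t ht hst
    have h1 := hσ' s hs
    have h2 := hσ' t ht
    change σ s = σ t at hst
    rw [hst] at h1
    have h3 : s⁻¹ * t ∈ Q := by
      have := Q.mul_mem (Q.inv_mem h1) h2
      have e : ((σ t)⁻¹ * (h * s))⁻¹ * ((σ t)⁻¹ * (h * t)) = s⁻¹ * t := by group
      rwa [e] at this
    obtain ⟨r, hr, hu⟩ := hS.2 t (hS.1 t ht)
    rw [hu s ⟨hs, h3⟩, hu t ⟨ht, by rw [inv_mul_cancel]; exact Q.one_mem⟩]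
  · intro t ht
    obtain ⟨s, ⟨hs, hs'⟩, _⟩ := hS.2 (h⁻¹ * t) (P.mul_mem (P.inv_mem hh) (hS.1 t ht))
    refine ⟨s, hs, ?_⟩
    obtain ⟨r, hr, hu⟩ := hS.2 (h * s) (P.mul_mem hh (hS.1 s hs))
    have h1 : σ s = r := hu _ ⟨hσ s hs, hσ' s hs⟩
    have h2 : t = r := by
      apply hu
      refine ⟨ht, ?_⟩
      have := Q.inv_mem hs'
      have e : (s⁻¹ * (h⁻¹ * t))⁻¹ = t⁻¹ * (h * s) := by group
      rwa [e] at this
    change σ s = t
    rw [h1, h2]
  · intro s hs
    have e : h * s = σ s * ((σ s)⁻¹ * (h * s)) := by group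
    rw [← Module.End.mul_apply, ← map_mul, e, map_mul, Module.End.mul_apply,
      hm _ (hσ' s hs)]

/-- the projection onto the fixed vectors -/
theorem exists_prj {Ω : Type} [Fintype Ω] [MulAction H Ω] {ρ : H →* (M →ₗ[R] M)} {b : Ω → M}
    {c : Ω → (M →ₗ[R] R)} (hf : FrR ρ b c) (P : Subgroup H) :
    ∃ π : M →ₗ[R] M, (∀ m, π m ∈ FxR ρ P) ∧ ∀ m ∈ FxR ρ P, π m = m := by
  classical
  let rep : Ω → Ω := fun ω => (Quotient.mk'' ω : MulAction.orbitRel.Quotient P Ω).out
  have hrep : ∀ ω, ∃ h ∈ P, h • ω = rep ω := by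
    intro ω
    have : MulAction.orbitRel P Ω (rep ω) ω := Quotient.exact (Quotient.out_eq _)
    obtain ⟨h, hh⟩ := this
    exact ⟨h, h.2, hh⟩
  have hrep' : ∀ h ∈ P, ∀ ω, rep (h • ω) = rep ω := by
    intro h hh ω
    have : (Quotient.mk'' (h • ω) : MulAction.orbitRel.Quotient P Ω) = Quotient.mk'' ω := by
      apply Quotient.sound
      exact ⟨⟨h, hh⟩, rfl⟩
    change (Quotient.mk'' (h • ω) : MulAction.orbitRel.Quotient P Ω).out = _
    rw [this]
  refine ⟨∑ ω, (c (rep ω)).smulRight (b ω), ?_, ?_⟩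
  · intro m h hh
    rw [LinearMap.sum_apply, map_sum]
    refine Fintype.sum_equiv (MulAction.toPerm h) _ _ ?_
    intro ω
    rw [LinearMap.smulRight_apply, LinearMap.smulRight_apply, map_smul, ← hf.1]
    change _ = c (rep (h • ω)) m • b (h • ω)
    rw [hrep' h hh]
  · intro m hm
    rw [LinearMap.sum_apply]
    conv_rhs => rw [← hf.2.2 m]
    refine Finset.sum_congr rfl ?_
    intro ω _
    rw [LinearMap.smulRight_apply]
    obtain ⟨h, hh, e⟩ := hrep ω
    rw [← e]
    have := hf.2.1 h ω m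
    rw [hm h hh] at this
    rw [this]

end rep

/-! ## The twisted diagonal subgroups -/

section tw

variable {R V A : Type} [CommRing R] [CommGroup V] [Ring A] [Algebra R A]

/-- the embedding of `W` with image `twW W ε` -/
def tm (W : Subgroup V) (ε : MulAut W) : W →* V × V :=
  (W.subtype.comp ε.toMonoidHom).prod W.subtype

theorem tm_inj (W : Subgroup V) (ε : MulAut W) : Function.Injective (tm W ε) := by
  intro a b h
  exact Subtype.ext (congrArg Prod.snd h)

theorem twW_eq (W : Subgroup V) (ε : MulAut W) : twW W ε = (tm W ε).range := rfl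

/-- the representation `w a = α (ε w) a α w⁻¹` of `W` -/
def rw' (R : Type) [CommRing R] [Algebra R A] (α : V →* A) (W : Subgroup V) (ε : MulAut W) :
    W →* (A →ₗ[R] A) :=
  (bw R α).comp (tm W ε)

theorem rw'_apply (α : V →* A) (W : Subgroup V) (ε : MulAut W) (w : W) (a : A) :
    rw' R α W ε w a = α (ε w) * (a * α (w : V)⁻¹) := rfl

theorem FxR_tw (α : V →* A) (W : Subgroup V) (ε : MulAut W) :
    FxR (bw R α) (twW W ε) = FxR (rw' R α W ε) ⊤ := by
  rw [twW_eq, FxR_range]
  rfl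

theorem BKR_tw (α : V →* A) (W : Subgroup V) (ε : MulAut W) :
    BKR (bw R α) (twW W ε) = BKR (rw' R α W ε) ⊤ := by
  rw [twW_eq, BKR_range _ (tm_inj W ε)]
  rfl

theorem mem_tw (α : V →* A) (W : Subgroup V) (ε : MulAut W) {a : A} :
    a ∈ FxR (bw R α) (twW W ε) ↔ ∀ w : W, α (ε w) * a = a * α w := by
  rw [FxR_tw]
  constructor
  · intro h w
    have h1 := h w (Subgroup.mem_top w)
    rw [rw'_apply] at h1
    calc α (ε w) * a = α (ε w) * (a * α (w : V)⁻¹) * α w := by
          rw [mul_assoc, mul_assoc, ← map_mul, inv_mul_cancel, map_one, mul_one]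
      _ = a * α w := by rw [h1]
  · intro h w _
    rw [rw'_apply, ← mul_assoc, h w, mul_assoc, ← map_mul, mul_inv_cancel, map_one, mul_one]

theorem tw_mulL (α : V →* A) (W : Subgroup V) (ε δ : MulAut W) {a : A}
    (ha : a ∈ FxR (bw R α) (twW W ε)) (w : W) (b : A) :
    a * rw' R α W δ w b = rw' R α W (ε * δ) w (a * b) := by
  rw [mem_tw] at ha
  rw [rw'_apply, rw'_apply, ← mul_assoc, ← ha (δ w), MulAut.mul_apply, mul_assoc, mul_assoc]

theorem tw_mulR (α : V →* A) (W : Subgroup V) (ε δ : MulAut W) {b : A}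
    (hb : b ∈ FxR (bw R α) (twW W δ)) (w : W) (a : A) :
    rw' R α W ε (δ w) a * b = rw' R α W (ε * δ) w (a * b) := by
  rw [mem_tw] at hb
  have h1 : α ((δ w : W) : V)⁻¹ * b = b * α (w : V)⁻¹ := by
    have := hb w⁻¹
    rw [map_inv] at this
    exact this
  rw [rw'_apply, rw'_apply, MulAut.mul_apply, mul_assoc, mul_assoc, h1, mul_assoc]

theorem Fx_mul (α : V →* A) (W : Subgroup V) (ε δ : MulAut W) {a b : A}
    (ha : a ∈ FxR (bw R α) (twW W ε)) (hb : b ∈ FxR (bw R α) (twW W δ)) :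
    a * b ∈ FxR (bw R α) (twW W (ε * δ)) := by
  rw [mem_tw] at *
  intro w
  rw [MulAut.mul_apply, ← mul_assoc, ha, mul_assoc, hb, mul_assoc]

theorem BK_mulL (α : V →* A) (W : Subgroup V) (ε δ : MulAut W) {a b : A}
    (ha : a ∈ FxR (bw R α) (twW W ε)) (hb : b ∈ BKR (bw R α) (twW W δ)) :
    a * b ∈ BKR (bw R α) (twW W (ε * δ)) := by
  rw [BKR_tw] at *
  exact BKR_hom (L := LinearMap.mulLeft R a) (fun w b => tw_mulL α W ε δ ha w b) hb

theorem BK_mulR (α : V →* A) (W : Subgroup V) (ε δ : MulAut W) {a b : A}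
    (ha : a ∈ BKR (bw R α) (twW W ε)) (hb : b ∈ FxR (bw R α) (twW W δ)) :
    a * b ∈ BKR (bw R α) (twW W (ε * δ)) := by
  rw [BKR_tw] at *
  have h1 : BKR (rw' R α W ε) ⊤ = BKR ((rw' R α W ε).comp δ.toMonoidHom) ⊤ := by
    have h2 : (⊤ : Subgroup W).map δ.toMonoidHom = ⊤ :=
      Subgroup.map_top_of_surjective _ δ.surjective
    rw [← BKR_map (rw' R α W ε) (f := δ.toMonoidHom) δ.injective ⊤, h2]
  rw [h1] at ha
  exact BKR_hom (ρ := (rw' R α W ε).comp δ.toMonoidHom) (L := LinearMap.mulRight R b)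
    (fun w a => tw_mulR α W ε δ hb w a) ha

theorem one_mem_tw (α : V →* A) (W : Subgroup V) :
    (1 : A) ∈ FxR (bw R α) (twW W (1 : MulAut W)) := by
  rw [mem_tw]
  intro w
  rw [MulAut.one_apply, mul_one, one_mul]

/-- the subalgebra of the graded elements -/
def gsub (R : Type) [CommRing R] [Algebra R A] (α : V →* A) (W : Subgroup V) :
    Subalgebra R (MonoidAlgebra A (MulAut W)) where
  carrier := {f | ∀ ε, f.coeff ε ∈ FxR (bw R α) (twW W ε)}
  mul_mem' := by
    classical
    intro f g hf hg ε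
    rw [MonoidAlgebra.coeff_mul]
    refine Submodule.sum_mem _ fun x _ => Submodule.sum_mem _ fun y _ => ?_
    dsimp only
    split_ifs with h
    · rw [← h]
      exact Fx_mul α W x y (hf x) (hg y)
    · exact Submodule.zero_mem _
  one_mem' := by
    classical
    intro ε
    rw [MonoidAlgebra.one_def, MonoidAlgebra.coeff_single, Finsupp.single_apply]
    split_ifs with h
    · rw [← h]
      exact one_mem_tw α W
    · exact Submodule.zero_mem _
  add_mem' := by
    intro f g hf hg ε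
    rw [MonoidAlgebra.coeff_add, Finsupp.add_apply]
    exact Submodule.add_mem _ (hf ε) (hg ε)
  zero_mem' := by
    intro ε
    exact Submodule.zero_mem _
  algebraMap_mem' := by
    classical
    intro r ε
    rw [Algebra.algebraMap_eq_smul_one, MonoidAlgebra.coeff_smul, Finsupp.smul_apply,
      MonoidAlgebra.one_def, MonoidAlgebra.coeff_single, Finsupp.single_apply]
    refine Submodule.smul_mem _ _ ?_
    split_ifs with h
    · rw [← h]
      exact one_mem_tw α W
    · exact Submodule.zero_mem _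

/-- the ideal of the elements whose components are in the Brauer kernels -/
def gidl (R : Type) [CommRing R] [Algebra R A] (α : V →* A) (W : Subgroup V) :
    Ideal (gsub R α W) where
  carrier := {f | ∀ ε, f.1.coeff ε ∈ BKR (bw R α) (twW W ε)}
  add_mem' := by
    intro f g hf hg ε
    change (f.1 + g.1).coeff ε ∈ _
    rw [MonoidAlgebra.coeff_add, Finsupp.add_apply]
    exact Submodule.add_mem _ (hf ε) (hg ε)
  zero_mem' := by
    intro ε
    exact Submodule.zero_mem _
  smul_mem' := by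
    classical
    intro f g hg ε
    change (f.1 * g.1).coeff ε ∈ _
    rw [MonoidAlgebra.coeff_mul]
    refine Submodule.sum_mem _ fun x _ => Submodule.sum_mem _ fun y _ => ?_
    dsimp only
    split_ifs with h
    · rw [← h]
      exact BK_mulL α W x y (f.2 x) (hg y)
    · exact Submodule.zero_mem _

instance gidl_two (α : V →* A) (W : Subgroup V) : (gidl R α W).IsTwoSided := by
  classical
  constructor
  intro f g hf ε
  change (f.1 * g.1).coeff ε ∈ _
  rw [MonoidAlgebra.coeff_mul]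
  refine Submodule.sum_mem _ fun x _ => Submodule.sum_mem _ fun y _ => ?_
  dsimp only
  split_ifs with h
  · rw [← h]
    exact BK_mulR α W x y (hf x) (g.2 y)
  · exact Submodule.zero_mem _

/-- the element `a` in degree `ε` -/
def gsg (R : Type) [CommRing R] [Algebra R A] (α : V →* A) (W : Subgroup V) (ε : MulAut W) :
    FxR (bw R α) (twW W ε) →ₗ[R] gsub R α W where
  toFun := fun a => ⟨MonoidAlgebra.single ε (a : A), by
    classical
    intro δ
    rw [MonoidAlgebra.coeff_single, Finsupp.single_apply]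
    split_ifs with h
    · rw [← h]
      exact a.2
    · exact Submodule.zero_mem _⟩
  map_add' := by
    intro a b
    apply Subtype.ext
    exact MonoidAlgebra.single_add _ _ _
  map_smul' := by
    intro r a
    apply Subtype.ext
    exact (MonoidAlgebra.smul_single _ _ _).symm

theorem gsg_mem (α : V →* A) (W : Subgroup V) (ε : MulAut W) (a : FxR (bw R α) (twW W ε)) :
    gsg R α W ε a ∈ gidl R α W ↔ (a : A) ∈ BKR (bw R α) (twW W ε) := by
  classical
  constructor
  · intro h
    have := h ε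
    change (MonoidAlgebra.single ε (a : A)).coeff ε ∈ _ at this
    rwa [MonoidAlgebra.coeff_single, Finsupp.single_eq_same] at this
  · intro h δ
    change (MonoidAlgebra.single ε (a : A)).coeff δ ∈ _
    rw [MonoidAlgebra.coeff_single, Finsupp.single_apply]
    split_ifs with h'
    · rw [← h']
      exact h
    · exact Submodule.zero_mem _

theorem gsum [Finite V] (α : V →* A) (W : Subgroup V)
    (f : ∀ ε : MulAut W, FxR (bw R α) (twW W ε)) (δ : MulAut W) [Fintype (MulAut W)] :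
    (∑ ε, gsg R α W ε (f ε)).1.coeff δ = f δ := by
  classical
  have h1 : (∑ ε, gsg R α W ε (f ε)).1 = ∑ ε, MonoidAlgebra.single ε (f ε : A) := by
    rw [AddSubmonoidClass.coe_finsetSum]
    rfl
  rw [h1]
  have h2 : (∑ ε, MonoidAlgebra.single ε (f ε : A)).coeff δ =
      ∑ ε, (MonoidAlgebra.single ε (f ε : A)).coeff δ := by
    rw [MonoidAlgebra.coeff_sum, Finsupp.finsetSum_apply]
  rw [h2, Finset.sum_eq_single δ]
  · rw [MonoidAlgebra.coeff_single, Finsupp.single_eq_same]
  · intro ε _ h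
    rw [MonoidAlgebra.coeff_single, Finsupp.single_apply, if_neg h]
  · intro h
    exact (h (Finset.mem_univ δ)).elim

/-- NWE -/
theorem nwe [Finite V] {Ω : Type} [Fintype Ω] [MulAction (V × V) Ω] (α : V →* A) {b : Ω → A}
    {c : Ω → (A →ₗ[R] R)} (hf : FrR (bw R α) b c) (W : Subgroup V) :
    ∃ (B : Type) (_ : Ring B) (_ : Algebra R B), Nonempty (IsNW R α W B) := by
  classical
  have : Finite (MulAut W) := Finite.of_injective (fun f => (f : W → W)) DFunLike.coe_injective
  have : Fintype (MulAut W) := Fintype.ofFinite _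
  choose π hπ hπ' using fun ε : MulAut W => exists_prj hf (twW W ε)
  have key : ∀ (ε : MulAut W) (a : A) (ha : a ∈ FxR (bw R α) (twW W ε)),
      (π ε).codRestrict (FxR (bw R α) (twW W ε)) (hπ ε) a = ⟨a, ha⟩ := by
    intro ε a ha
    apply Subtype.ext
    rw [LinearMap.codRestrict_apply]
    exact hπ' ε a ha
  refine ⟨gsub R α W ⧸ gidl R α W, inferInstance, inferInstance, ⟨?_⟩⟩
  refine
    { β := fun ε => ((Ideal.Quotient.mkₐ R (gidl R α W)).toLinearMap.comp (gsg R α W ε)).comp
        ((π ε).codRestrict (FxR (bw R α) (twW W ε)) (hπ ε))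
      one := ?_
      mul := ?_
      ker := ?_
      ind := ?_
      spn := ?_ }
  · rw [LinearMap.comp_apply, key 1 1 (one_mem_tw α W)]
    exact map_one (Ideal.Quotient.mkₐ R (gidl R α W))
  · intro ε δ a ha b hb
    simp only [LinearMap.comp_apply]
    rw [key ε a ha, key δ b hb, key (ε * δ) (a * b) (Fx_mul α W ε δ ha hb)]
    change Ideal.Quotient.mkₐ R (gidl R α W) _ = Ideal.Quotient.mkₐ R (gidl R α W) _ *
      Ideal.Quotient.mkₐ R (gidl R α W) _
    rw [← map_mul]
    refine congrArg _ (Subtype.ext ?_)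
    change MonoidAlgebra.single (ε * δ) (a * b) =
      MonoidAlgebra.single ε a * MonoidAlgebra.single δ b
    rw [MonoidAlgebra.single_mul_single]
  · intro ε a ha
    rw [LinearMap.comp_apply, key ε a ha]
    change Ideal.Quotient.mk (gidl R α W) _ = 0 ↔ _
    rw [Ideal.Quotient.eq_zero_iff_mem, gsg_mem]
  · intro f hf0 h ε
    rw [finsum_eq_sum_of_fintype] at h
    have h1 : ∀ δ, (((Ideal.Quotient.mkₐ R (gidl R α W)).toLinearMap.comp
        (gsg R α W δ)).comp ((π δ).codRestrict (FxR (bw R α) (twW W δ)) (hπ δ))) (f δ) =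
        Ideal.Quotient.mk (gidl R α W) (gsg R α W δ ⟨f δ, hf0 δ⟩) := by
      intro δ
      rw [LinearMap.comp_apply, key δ (f δ) (hf0 δ)]
      rfl
    rw [Finset.sum_congr rfl (fun δ _ => h1 δ), ← map_sum, Ideal.Quotient.eq_zero_iff_mem] at h
    have h2 := h ε
    rw [gsum] at h2
    rw [h1 ε, Ideal.Quotient.eq_zero_iff_mem, gsg_mem]
    exact h2
  · intro x
    obtain ⟨f, rfl⟩ := Ideal.Quotient.mk_surjective x
    refine ⟨fun ε => f.1.coeff ε, f.2, ?_⟩
    rw [finsum_eq_sum_of_fintype]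
    have h1 : ∀ δ, (((Ideal.Quotient.mkₐ R (gidl R α W)).toLinearMap.comp
        (gsg R α W δ)).comp ((π δ).codRestrict (FxR (bw R α) (twW W δ)) (hπ δ)))
          (f.1.coeff δ) =
        Ideal.Quotient.mk (gidl R α W) (gsg R α W δ ⟨f.1.coeff δ, f.2 δ⟩) := by
      intro δ
      rw [LinearMap.comp_apply, key δ _ (f.2 δ)]
      rfl
    rw [Finset.sum_congr rfl (fun δ _ => h1 δ), ← map_sum]
    refine congrArg _ (Subtype.ext ?_)
    apply MonoidAlgebra.coeff_injective
    ext ε
    rw [gsum (R := R) α W (fun ε => ⟨f.1.coeff ε, f.2 ε⟩)]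

/-- the map from the graded algebra to `N_W(A)` -/
theorem IsNW.exists_hom [Finite V] {α : V →* A} {W : Subgroup V} {B : Type} [Ring B]
    [Algebra R B] (N : IsNW R α W B) :
    ∃ g : gsub R α W →ₐ[R] B, Function.Surjective g ∧ (∀ f, g f = 0 ↔ f ∈ gidl R α W) ∧
      ∀ ε (a : FxR (bw R α) (twW W ε)), g (gsg R α W ε a) = N.β ε a := by
  classical
  have : Finite (MulAut W) := Finite.of_injective (fun f => (f : W → W)) DFunLike.coe_injective
  have : Fintype (MulAut W) := Fintype.ofFinite _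
  let G : gsub R α W →ₗ[R] B :=
    { toFun := fun f => ∑ ε, N.β ε (f.1.coeff ε)
      map_add' := by
        intro f g
        rw [← Finset.sum_add_distrib]
        refine Finset.sum_congr rfl fun ε _ => ?_
        rw [← map_add]
        rfl
      map_smul' := by
        intro r f
        rw [RingHom.id_apply, Finset.smul_sum]
        refine Finset.sum_congr rfl fun ε _ => ?_
        rw [← map_smul]
        rfl }
  have hG : ∀ f, G f = ∑ ε, N.β ε (f.1.coeff ε) := fun f => rfl
  have hsg : ∀ ε (a : FxR (bw R α) (twW W ε)), G (gsg R α W ε a) = N.β ε a := by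
    intro ε a
    rw [hG, Finset.sum_eq_single ε]
    · change N.β ε ((MonoidAlgebra.single ε (a : A)).coeff ε) = _
      rw [MonoidAlgebra.coeff_single, Finsupp.single_eq_same]
    · intro δ _ h
      change N.β δ ((MonoidAlgebra.single ε (a : A)).coeff δ) = _
      rw [MonoidAlgebra.coeff_single, Finsupp.single_apply, if_neg (Ne.symm h), map_zero]
    · intro h
      exact (h (Finset.mem_univ ε)).elim
  have hdec : ∀ f : gsub R α W, f = ∑ ε, gsg R α W ε ⟨f.1.coeff ε, f.2 ε⟩ := by
    intro f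
    apply Subtype.ext
    apply MonoidAlgebra.coeff_injective
    ext ε
    rw [gsum (R := R) α W (fun ε => ⟨f.1.coeff ε, f.2 ε⟩)]
  have hmul : ∀ f g, G (f * g) = G f * G g := by
    intro f g
    rw [hdec f, hdec g, Finset.sum_mul_sum, map_sum, map_sum, map_sum, Finset.sum_mul_sum]
    refine Finset.sum_congr rfl fun ε _ => ?_
    rw [map_sum]
    refine Finset.sum_congr rfl fun δ _ => ?_
    have h1 : gsg R α W ε ⟨f.1.coeff ε, f.2 ε⟩ * gsg R α W δ ⟨g.1.coeff δ, g.2 δ⟩ =
        gsg R α W (ε * δ) ⟨f.1.coeff ε * g.1.coeff δ, Fx_mul α W ε δ (f.2 ε) (g.2 δ)⟩ := by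
      apply Subtype.ext
      exact MonoidAlgebra.single_mul_single _ _ _ _
    rw [h1, hsg, hsg, hsg]
    exact N.mul ε δ _ (f.2 ε) _ (g.2 δ)
  have hone : G 1 = 1 := by
    have h1 : (1 : gsub R α W) = gsg R α W 1 ⟨1, one_mem_tw α W⟩ := rfl
    rw [h1, hsg]
    exact N.one
  refine ⟨AlgHom.ofLinearMap G hone hmul, ?_, ?_, hsg⟩
  · intro x
    obtain ⟨f, hf, rfl⟩ := N.spn x
    refine ⟨∑ ε, gsg R α W ε ⟨f ε, hf ε⟩, ?_⟩
    change G _ = _
    rw [hG, finsum_eq_sum_of_fintype]
    refine Finset.sum_congr rfl fun ε _ => ?_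
    rw [gsum (R := R) α W (fun ε => ⟨f ε, hf ε⟩)]
  · intro f
    change G f = 0 ↔ _
    constructor
    · intro h ε
      have h1 := N.ind (fun ε => f.1.coeff ε) f.2 (by
        rw [finsum_eq_sum_of_fintype]
        exact h) ε
      exact (N.ker ε _ (f.2 ε)).1 h1
    · intro h
      rw [hG]
      exact Finset.sum_eq_zero fun ε _ => (N.ker ε _ (f.2 ε)).2 (h ε)

/-- NWU -/
theorem nwu [Finite V] {α : V →* A} {W : Subgroup V} {B B' : Type} [Ring B] [Algebra R B]
    [Ring B'] [Algebra R B'] (N : IsNW R α W B) (N' : IsNW R α W B') :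
    ∃ g : B ≃ₐ[R] B', ∀ ε, ∀ a ∈ FxR (bw R α) (twW W ε), g (N.β ε a) = N'.β ε a := by
  obtain ⟨p, hp, hk, hv⟩ := N.exists_hom
  obtain ⟨p', hp', hk', hv'⟩ := N'.exists_hom
  have hs : ∀ x, p (Function.surjInv hp x) = x := Function.surjInv_eq hp
  have heq : ∀ f g, p f = p g → p' f = p' g := by
    intro f g h
    have h1 : p (f - g) = 0 := by rw [map_sub, h, sub_self]
    have h2 : p' (f - g) = 0 := (hk' _).2 ((hk _).1 h1)
    rw [map_sub] at h2
    exact sub_eq_zero.1 h2
  let G : B →ₐ[R] B' :=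
    { toFun := fun x => p' (Function.surjInv hp x)
      map_one' := by
        rw [← map_one p']
        exact heq _ _ (by rw [hs, map_one])
      map_mul' := by
        intro x y
        rw [← map_mul p']
        exact heq _ _ (by rw [hs, map_mul, hs, hs])
      map_zero' := by
        rw [← map_zero p']
        exact heq _ _ (by rw [hs, map_zero])
      map_add' := by
        intro x y
        rw [← map_add p']
        exact heq _ _ (by rw [hs, map_add, hs, hs])
      commutes' := by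
        intro r
        rw [← AlgHom.commutes p']
        exact heq _ _ (by rw [hs, AlgHom.commutes]) }
  have hG : ∀ f, G (p f) = p' f := by
    intro f
    exact heq _ _ (hs _)
  have hb : Function.Bijective G := by
    constructor
    · rw [injective_iff_map_eq_zero]
      intro x hx
      obtain ⟨f, rfl⟩ := hp x
      rw [hG, hk'] at hx
      exact (hk f).2 hx
    · intro y
      obtain ⟨f, rfl⟩ := hp' y
      exact ⟨p f, hG f⟩
  refine ⟨AlgEquiv.ofBijective G hb, ?_⟩
  intro ε a ha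
  change G (N.β ε a) = _
  have h1 := hv ε ⟨a, ha⟩
  have h2 := hv' ε ⟨a, ha⟩
  rw [← h1, ← h2, hG]

end tw

end Pool.Agent.PSS
end
end -- Pool.Agent.PSS.Nwe

section -- Pool.Agent.Helper6_PSS.BKI

/-!
# Squad PSS, row BKI (helper6): the Brauer kernel is an ideal of the centraliser
-/

open scoped BigOperators

noncomputable section

namespace Pool.Agent.PSS.S0.H6

open Pool.Agent.PFC (tw IsTv)
open Pool.Agent.PFD.D2b (FrR)

section

variable {R V A : Type} [CommRing R] [CommGroup V] [Ring A] [Algebra R A]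

theorem cw_apply (α : V →* A) (u : V) (a : A) : cw R α u a = α u * (a * α u⁻¹) := rfl

theorem cw_mul (α : V →* A) (u : V) (a b : A) :
    cw R α u (a * b) = cw R α u a * cw R α u b := by
  simp only [cw_apply]
  have h : α u⁻¹ * α u = 1 := by rw [← map_mul, inv_mul_cancel, map_one]
  calc α u * (a * b * α u⁻¹) = α u * (a * (1 * b * α u⁻¹)) := by simp only [one_mul, mul_assoc]
    _ = α u * (a * α u⁻¹) * (α u * (b * α u⁻¹)) := by
        rw [← h]
        simp only [mul_assoc]

theorem fx_mono (α : V →* A) {P P' : Subgroup V} (h : P' ≤ P) {a : A}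
    (ha : a ∈ FxR (cw R α) P) : a ∈ FxR (cw R α) P' := fun u hu => ha u (h hu)

theorem fx_mul (α : V →* A) {P : Subgroup V} {a b : A} (ha : a ∈ FxR (cw R α) P)
    (hb : b ∈ FxR (cw R α) P) : a * b ∈ FxR (cw R α) P := by
  intro u hu
  rw [cw_mul, ha u hu, hb u hu]

end

theorem bki : BkiStmt := by
  intro R V A _ _ _ _ α P a ha m hm
  refine Submodule.span_induction (p := fun m _ => a * m ∈ BKR (cw R α) P ∧
    m * a ∈ BKR (cw R α) P) ?_ ?_ ?_ ?_ hm
  · rintro n ⟨P', S, m', hlt, hS, hm', rfl⟩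
    have hmem : ∀ x ∈ S, x ∈ P := hS.1
    constructor
    · refine Submodule.subset_span ⟨P', S, a * m', hlt, hS, fx_mul α (fx_mono α hlt.le ha) hm', ?_⟩
      rw [Finset.mul_sum]
      refine Finset.sum_congr rfl fun x hx => ?_
      rw [cw_mul, ha x (hmem x hx)]
    · refine Submodule.subset_span ⟨P', S, m' * a, hlt, hS, fx_mul α hm' (fx_mono α hlt.le ha), ?_⟩
      rw [Finset.sum_mul]
      refine Finset.sum_congr rfl fun x hx => ?_
      rw [cw_mul, ha x (hmem x hx)]
  · rw [mul_zero, zero_mul]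
    exact ⟨Submodule.zero_mem _, Submodule.zero_mem _⟩
  · rintro x y - - ⟨hx1, hx2⟩ ⟨hy1, hy2⟩
    rw [mul_add, add_mul]
    exact ⟨Submodule.add_mem _ hx1 hy1, Submodule.add_mem _ hx2 hy2⟩
  · rintro r x - ⟨hx1, hx2⟩
    rw [mul_smul_comm, smul_mul_assoc]
    exact ⟨Submodule.smul_mem _ _ hx1, Submodule.smul_mem _ _ hx2⟩

end Pool.Agent.PSS.S0.H6
end
end -- Pool.Agent.Helper6_PSS.BKI

section -- Pool.Agent.Helper63_PSS.BKF

/-!
# Squad PSS, row S0.BKF: the Brauer kernel consists of fixed vectors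
-/

noncomputable section

namespace Pool.Agent.PSS.S0.H63

/-- BKF -/
theorem bkf : BkfStmt := by
  intro R H M _ _ _ _ ρ P
  exact BKR_le_FxR

end Pool.Agent.PSS.S0.H63
end
end -- Pool.Agent.Helper63_PSS.BKF

section -- Pool.Agent.Helper70_PSS.BQX

/-!
# Squad PSS, row BQX (helper70): existence of the Brauer quotient
-/

set_option autoImplicit false

open scoped BigOperators

noncomputable section

namespace Pool.Agent.PSS.S0.H70

section

variable (R : Type) {V A : Type} [CommRing R] [CommGroup V] [Ring A] [Algebra R A]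

theorem fx_om (α : V →* A) (Q : Subgroup V) (v : V) : α v ∈ FxR (cw R α) Q := by
  intro u _
  rw [H6.cw_apply, ← map_mul, ← map_mul, mul_left_comm, mul_inv_cancel, mul_one]

theorem fx_one (α : V →* A) (Q : Subgroup V) : (1 : A) ∈ FxR (cw R α) Q := by
  have h := fx_om R α Q 1
  rwa [map_one] at h

/-- the centraliser of `α Q` -/
def cenS (α : V →* A) (Q : Subgroup V) : Subalgebra R A where
  carrier := {a | a ∈ FxR (cw R α) Q}
  mul_mem' := by
    intro a b ha hb
    exact H6.fx_mul α ha hb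
  add_mem' := by
    intro a b ha hb
    exact (FxR (cw R α) Q).add_mem ha hb
  algebraMap_mem' := by
    intro r
    show algebraMap R A r ∈ FxR (cw R α) Q
    rw [Algebra.algebraMap_eq_smul_one]
    exact (FxR (cw R α) Q).smul_mem r (fx_one R α Q)

theorem mem_cenS (α : V →* A) (Q : Subgroup V) (a : A) :
    a ∈ cenS R α Q ↔ a ∈ FxR (cw R α) Q := Iff.rfl

/-- the Brauer kernel as an ideal of the centraliser -/
def bkI (α : V →* A) (Q : Subgroup V) : Ideal (cenS R α Q) where
  carrier := {a | (a : A) ∈ BKR (cw R α) Q}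
  add_mem' := by
    intro a b ha hb
    exact (BKR (cw R α) Q).add_mem ha hb
  zero_mem' := (BKR (cw R α) Q).zero_mem
  smul_mem' := by
    intro c x hx
    exact (H6.bki R V A α Q c c.2 x hx).1

theorem mem_bkI (α : V →* A) (Q : Subgroup V) (a : cenS R α Q) :
    a ∈ bkI R α Q ↔ (a : A) ∈ BKR (cw R α) Q := Iff.rfl

instance (α : V →* A) (Q : Subgroup V) : (bkI R α Q).IsTwoSided where
  mul_mem_of_left := by
    intro a b ha
    exact (H6.bki R V A α Q b b.2 a ha).2

open Classical in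
/-- the Brauer map -/
def brm (α : V →* A) (Q : Subgroup V) (a : A) : cenS R α Q ⧸ bkI R α Q :=
  if h : a ∈ FxR (cw R α) Q then Ideal.Quotient.mk (bkI R α Q) ⟨a, h⟩ else 0

theorem brm_of (α : V →* A) (Q : Subgroup V) (a : A) (h : a ∈ FxR (cw R α) Q) :
    brm R α Q a = Ideal.Quotient.mk (bkI R α Q) ⟨a, h⟩ := dif_pos h

end

theorem bqx : BqxStmt := by
  intro R V A _ _ _ _ α Q
  refine ⟨cenS R α Q ⧸ bkI R α Q, inferInstance, inferInstance,
    { toFun := fun v => Ideal.Quotient.mk (bkI R α Q) ⟨α v, fx_om R α Q v⟩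
      map_one' := ?_
      map_mul' := ?_ }, brm R α Q, ?_⟩
  · rw [← map_one (Ideal.Quotient.mk (bkI R α Q))]
    exact congrArg _ (Subtype.ext (map_one α))
  · intro u v
    rw [← map_mul]
    exact congrArg _ (Subtype.ext (map_mul α u v))
  · constructor
    · intro a ha b hb
      rw [brm_of R α Q a ha, brm_of R α Q b hb,
        brm_of R α Q (a + b) ((FxR (cw R α) Q).add_mem ha hb), ← map_add]
      rfl
    · intro r a ha
      rw [brm_of R α Q a ha, brm_of R α Q (r • a) ((FxR (cw R α) Q).smul_mem r ha)]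
      rfl
    · rw [brm_of R α Q 1 (fx_one R α Q)]
      exact map_one (Ideal.Quotient.mk (bkI R α Q))
    · intro a ha b hb
      rw [brm_of R α Q a ha, brm_of R α Q b hb,
        brm_of R α Q (a * b) (H6.fx_mul α ha hb), ← map_mul]
      rfl
    · intro a ha
      rw [brm_of R α Q a ha, Ideal.Quotient.eq_zero_iff_mem]
      rfl
    · intro y
      obtain ⟨a, rfl⟩ := Ideal.Quotient.mk_surjective y
      exact ⟨a.1, a.2, brm_of R α Q a.1 a.2⟩
    · intro v
      exact brm_of R α Q (α v) (fx_om R α Q v)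

end Pool.Agent.PSS.S0.H70
end
end -- Pool.Agent.Helper70_PSS.BQX
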