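import Pool.Agent.Helper12_AWB.B007

/-!
# Merged copies (generated) of the modules

* `Pool.Agent.PSS.DefsN`
* `Pool.Agent.PSS.Ngf`
* `Pool.Agent.PSS.StmtsS4`
* `Pool.Agent.PST.StmtsNW`
* `Pool.Agent.Helper52_PSS.FRB`
* `Pool.Agent.Helper45_PSS.NFR`
* `Pool.Agent.Helper85_PSS.ORB`
* `Pool.Agent.Helper15_PST.NCB`
* `Pool.Agent.Helper21_PST.NCG`
* `Pool.Agent.Helper41_PSS.NDF`
* `Pool.Agent.Helper60_PSS.BLA`
* `Pool.Agent.Helper4_PSS.BLB`
* `Pool.Agent.Helper60_PSS.BLW`
* `Pool.Agent.Helper56_PST.NWC`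
-/

set_option autoImplicit false

section -- Pool.Agent.PSS.DefsN

/-!
# Squad PSS, block S4: definitions (fixed points and orbits, dual frames, the Brauer quotient `A(Q)`)

* `Fp Ω P`: the points of `Ω` which are fixed by `P`.
* `Qt Ω`: the orbits of `1 × V` on the `V × V`-set `Ω`; `V × V` acts on it.
* `DFr R α lam b d`: a frame `b` with its dual `d` with respect to the form `lam`.
* `IsAQ R α Q B`: `B = A(Q)` is the Brauer quotient.
* `nwh`, `aqh`: the homomorphisms of `V` into `N_W(A)` and `A(Q)`.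
* `CE φ Q`, `NE φ Q`: the centraliser and the normaliser of `Q ≤ V` in `E`.
-/

open scoped BigOperators TensorProduct

noncomputable section

namespace Pool.Agent.PSS

open Pool.Agent.PFC (tw IsTv)
open Pool.Agent.PFD.D2b (FrR)

/-! ## Fixed points and orbits -/

section fixed

variable {H : Type} [Group H] (Ω : Type) [MulAction H Ω]

/-- the fixed points of `P` -/
def Fp (P : Subgroup H) : Type := {ω : Ω // P ≤ MulAction.stabilizer H ω}

instance [Finite Ω] (P : Subgroup H) : Finite (Fp Ω P) :=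
  inferInstanceAs (Finite {ω : Ω // P ≤ MulAction.stabilizer H ω})

instance [Finite Ω] (P : Subgroup H) : Fintype (Fp Ω P) := Fintype.ofFinite _

end fixed

section comm

variable {H : Type} [CommGroup H] (Ω : Type) [MulAction H Ω]

instance (P : Subgroup H) : MulAction H (Fp Ω P) where
  smul h ω := ⟨h • ω.1, by
    intro p hp
    have h1 : p • ω.1 = ω.1 := ω.2 hp
    change p • h • ω.1 = h • ω.1
    rw [smul_smul, mul_comm, ← smul_smul, h1]⟩
  one_smul ω := Subtype.ext (one_smul H ω.1)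
  mul_smul g h ω := Subtype.ext (mul_smul g h ω.1)

theorem Fp.smul_val {P : Subgroup H} (h : H) (ω : Fp Ω P) : (h • ω).1 = h • ω.1 := rfl

end comm

section orbits

variable {V : Type} [CommGroup V] (Ω : Type) [MulAction (V × V) Ω]

/-- the equivalence relation of the orbits of `1 × V` -/
def qst : Setoid Ω where
  r := fun ω ω' => ∃ v : V, ((1, v) : V × V) • ω = ω'
  iseqv :=
    { refl := fun ω => ⟨1, one_smul (V × V) ω⟩
      symm := by
        rintro ω _ ⟨v, rfl⟩
        refine ⟨v⁻¹, ?_⟩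
        rw [smul_smul, Prod.mk_mul_mk, one_mul, inv_mul_cancel]
        exact one_smul (V × V) ω
      trans := by
        rintro ω _ _ ⟨v, rfl⟩ ⟨u, rfl⟩
        refine ⟨u * v, ?_⟩
        rw [smul_smul, Prod.mk_mul_mk, one_mul] }

/-- the orbits of `1 × V` -/
def Qt : Type := Quotient (qst (V := V) Ω)

instance [Finite Ω] : Finite (Qt (V := V) Ω) :=
  inferInstanceAs (Finite (Quotient (qst (V := V) Ω)))

instance [Finite Ω] : Fintype (Qt (V := V) Ω) := Fintype.ofFinite _

variable {Ω}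

/-- the orbit of a point -/
def qmk (ω : Ω) : Qt (V := V) Ω := Quotient.mk (qst (V := V) Ω) ω

/-- a representative -/
def Qt.rep (k : Qt (V := V) Ω) : Ω := Quotient.out k

theorem Qt.mk_rep (k : Qt (V := V) Ω) : qmk k.rep = k := Quotient.out_eq k

theorem qmk_eq {ω ω' : Ω} : (qmk ω : Qt (V := V) Ω) = qmk ω' ↔
    ∃ v : V, ((1, v) : V × V) • ω = ω' :=
  ⟨fun h => Quotient.exact h, fun h => Quotient.sound h⟩

instance : MulAction (V × V) (Qt (V := V) Ω) where
  smul h := Quotient.map (fun ω => h • ω) (by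
    rintro ω _ ⟨v, rfl⟩
    refine ⟨v, ?_⟩
    rw [smul_smul, smul_smul, mul_comm])
  one_smul := by
    intro k
    obtain ⟨ω, rfl⟩ : ∃ ω, qmk ω = k := ⟨k.rep, k.mk_rep⟩
    exact congrArg qmk (one_smul (V × V) ω)
  mul_smul := by
    intro g h k
    obtain ⟨ω, rfl⟩ : ∃ ω, qmk ω = k := ⟨k.rep, k.mk_rep⟩
    exact congrArg qmk (mul_smul g h ω)

theorem smul_qmk (h : V × V) (ω : Ω) : h • (qmk ω : Qt (V := V) Ω) = qmk (h • ω) := rfl

end orbits

/-! ## Dual frames -/

/-- A `V × V`-frame `b` with its dual `d` with respect to the symmetric form `lam`; `V × 1` and `1 × V`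
act freely on `Ω`. -/
structure DFr (R : Type) {V A Ω : Type} [CommRing R] [CommGroup V] [Ring A] [Algebra R A]
    [Fintype Ω] [MulAction (V × V) Ω] (α : V →* A) (lam : A →ₗ[R] R) (b d : Ω → A) : Prop where
  sym : ∀ a a', lam (a * a') = lam (a' * a)
  eb : ∀ (u v : V) (ω : Ω), b ((u, v) • ω) = α u * b ω * α v⁻¹
  ed : ∀ (u v : V) (ω : Ω), d ((u, v) • ω) = α v * d ω * α u⁻¹
  sum : ∀ a, ∑ ω, lam (d ω * a) • b ω = a
  fl : ∀ (u : V) (ω : Ω), ((u, 1) : V × V) • ω = ω → u = 1
  fr : ∀ (v : V) (ω : Ω), ((1, v) : V × V) • ω = ω → v = 1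

/-! ## The Brauer quotient -/

/-- `B = A(Q)`: `β` is the Brauer map on the elements which commute with `Q`. -/
structure IsAQ (R : Type) {V A : Type} [CommRing R] [CommGroup V] [Ring A] [Algebra R A]
    (α : V →* A) (Q : Subgroup V) (B : Type) [Ring B] [Algebra R B] where
  β : A →ₗ[R] B
  one : β 1 = 1
  mul : ∀ a ∈ FxR (cw R α) Q, ∀ b ∈ FxR (cw R α) Q, β (a * b) = β a * β b
  ker : ∀ a ∈ FxR (cw R α) Q, β a = 0 ↔ a ∈ BKR (cw R α) Q
  sur : ∀ b : B, ∃ a ∈ FxR (cw R α) Q, β a = b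

section homs

variable {R V A B : Type} [CommRing R] [CommGroup V] [Ring A] [Algebra R A] [Ring B] [Algebra R B]
  {α : V →* A}

theorem mem_cw {Q : Subgroup V} {a : A} :
    a ∈ FxR (cw R α) Q ↔ ∀ q ∈ Q, α q * a = a * α q := by
  constructor
  · intro h q hq
    have h1 : α q * (a * α q⁻¹) = a := h q hq
    calc α q * a = α q * (a * α q⁻¹) * α q := by
          rw [mul_assoc, mul_assoc, ← map_mul, inv_mul_cancel, map_one, mul_one]
      _ = a * α q := by rw [h1]
  · intro h q hq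
    change α q * (a * α q⁻¹) = a
    rw [← mul_assoc, h q hq, mul_assoc, ← map_mul, mul_inv_cancel, map_one, mul_one]

theorem al_mem_cw (v : V) (Q : Subgroup V) : α v ∈ FxR (cw R α) Q := by
  rw [mem_cw]
  intro q _
  rw [← map_mul, ← map_mul, mul_comm]

theorem al_mem_tw (v : V) (W : Subgroup V) : α v ∈ FxR (bw R α) (twW W (1 : MulAut W)) := by
  rw [mem_tw]
  intro q
  rw [← map_mul, ← map_mul, mul_comm]
  rfl

/-- the homomorphism `V → N_W(A)` -/
def IsNW.nwh {W : Subgroup V} (N : IsNW R α W B) : V →* B where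
  toFun := fun v => N.β 1 (α v)
  map_one' := by rw [map_one, N.one]
  map_mul' := by
    intro u v
    have := N.mul 1 1 (α u) (al_mem_tw u W) (α v) (al_mem_tw v W)
    rw [mul_one, ← map_mul] at this
    exact this

theorem IsNW.nwh_apply {W : Subgroup V} (N : IsNW R α W B) (v : V) : N.nwh v = N.β 1 (α v) := rfl

/-- the homomorphism `V → A(Q)` -/
def IsAQ.aqh {Q : Subgroup V} (N : IsAQ R α Q B) : V →* B where
  toFun := fun v => N.β (α v)
  map_one' := by rw [map_one, N.one]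
  map_mul' := by
    intro u v
    rw [map_mul, N.mul _ (al_mem_cw u Q) _ (al_mem_cw v Q)]

theorem IsAQ.aqh_apply {Q : Subgroup V} (N : IsAQ R α Q B) (v : V) : N.aqh v = N.β (α v) := rfl

end homs

/-! ## Subgroups of `E` -/

section groups

variable {V E : Type} [CommGroup V] [Group E] (φ : E →* MulAut V) (Q : Subgroup V)

/-- the centraliser of `Q` in `E` -/
def CE : Subgroup E where
  carrier := {e | ∀ q ∈ Q, φ e q = q}
  one_mem' := by
    intro q _
    rw [map_one]
    rfl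
  mul_mem' := by
    intro a b ha hb q hq
    rw [map_mul, MulAut.mul_apply, hb q hq, ha q hq]
  inv_mem' := by
    intro a ha q hq
    rw [map_inv]
    apply (φ a).injective
    rw [MulAut.apply_inv_self, ha q hq]

/-- the normaliser of `Q` in `E` -/
def NE : Subgroup E where
  carrier := {e | Q.map (φ e).toMonoidHom = Q}
  one_mem' := by
    change Q.map (φ 1).toMonoidHom = Q
    rw [map_one]
    exact Subgroup.map_id Q
  mul_mem' := by
    intro a b ha hb
    change Q.map (φ (a * b)).toMonoidHom = Q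
    have h1 : (φ (a * b)).toMonoidHom = (φ a).toMonoidHom.comp (φ b).toMonoidHom := by
      rw [map_mul]
      rfl
    rw [h1, ← Subgroup.map_map]
    change Q.map (φ a).toMonoidHom = Q at ha
    change Q.map (φ b).toMonoidHom = Q at hb
    rw [hb, ha]
  inv_mem' := by
    intro a ha
    change Q.map (φ a).toMonoidHom = Q at ha
    change Q.map (φ a⁻¹).toMonoidHom = Q
    conv_lhs => rw [← ha]
    rw [Subgroup.map_map]
    have h1 : (φ a⁻¹).toMonoidHom.comp (φ a).toMonoidHom = MonoidHom.id V := by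
      ext v
      change φ a⁻¹ (φ a v) = v
      rw [map_inv, MulAut.inv_apply_self]
    rw [h1, Subgroup.map_id]

end groups

end Pool.Agent.PSS
end
end -- Pool.Agent.PSS.DefsN

section -- Pool.Agent.PSS.Ngf

/-!
# Squad PSS, row NGF: the sum of the twisted Brauer quotients commutes with base change
-/

open scoped BigOperators TensorProduct

noncomputable section

namespace Pool.Agent.PSS

open Pool.Agent.PFC (tw IsTv)
open Pool.Agent.PFD.D2b (FrR)

section

variable {R S V A : Type} [CommRing R] [CommRing S] [Algebra R S] [CommGroup V] [Ring A]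
  [Algebra R A]

theorem bcw_apply (α : V →* A) (v : V) : bcw (S := S) (R := R) α v = 1 ⊗ₜ[R] α v := rfl

theorem bw_bcw (α : V →* A) (g : V × V) (s : S) (a : A) :
    bw S (bcw (S := S) (R := R) α) g (s ⊗ₜ[R] a) = s ⊗ₜ[R] bw R α g a := by
  change (1 ⊗ₜ[R] α g.1) * ((s ⊗ₜ[R] a) * (1 ⊗ₜ[R] α g.2⁻¹)) = _
  rw [Algebra.TensorProduct.tmul_mul_tmul, Algebra.TensorProduct.tmul_mul_tmul, mul_one,
    one_mul]
  rfl

theorem bw_bch (α : V →* A) (g : V × V) :
    bw S (bcw (S := S) (R := R) α) g = (bw R α g).baseChange S := by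
  apply TensorProduct.AlgebraTensorModule.ext
  intro s a
  rw [bw_bcw, LinearMap.baseChange_tmul]

/-- the functional `s ⊗ a ↦ c a • s` -/
def bcf (S : Type) [CommRing S] [Algebra R S] (c : A →ₗ[R] R) : S ⊗[R] A →ₗ[S] S :=
  (TensorProduct.AlgebraTensorModule.rid R S S).toLinearMap.comp (c.baseChange S)

theorem bcf_tmul (c : A →ₗ[R] R) (s : S) (a : A) : bcf S c (s ⊗ₜ[R] a) = c a • s := by
  change TensorProduct.AlgebraTensorModule.rid R S S (c.baseChange S (s ⊗ₜ[R] a)) = _
  rw [LinearMap.baseChange_tmul, TensorProduct.AlgebraTensorModule.rid_tmul]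

theorem FrR.bch {Ω : Type} [Fintype Ω] [MulAction (V × V) Ω] {α : V →* A} {b : Ω → A}
    {c : Ω → (A →ₗ[R] R)} (hf : FrR (bw R α) b c) :
    FrR (bw S (bcw (S := S) (R := R) α)) (fun ω => 1 ⊗ₜ[R] b ω) (fun ω => bcf S (c ω)) := by
  refine ⟨?_, ?_, ?_⟩
  · intro g t
    change (1 : S) ⊗ₜ[R] b (g • t) = _
    rw [bw_bcw, hf.1]
  · intro g t n
    induction n using TensorProduct.induction_on with
    | zero => rw [map_zero, map_zero, map_zero]
    | tmul s a => rw [bw_bcw, bcf_tmul, bcf_tmul, hf.2.1]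
    | add x y hx hy => rw [map_add, map_add, map_add, hx, hy]
  · intro n
    induction n using TensorProduct.induction_on with
    | zero => simp only [map_zero, zero_smul, Finset.sum_const_zero]
    | tmul s a =>
      have h1 : ∀ t, bcf S (c t) (s ⊗ₜ[R] a) • ((1 : S) ⊗ₜ[R] b t) = s ⊗ₜ[R] (c t a • b t) := by
        intro t
        rw [bcf_tmul, TensorProduct.smul_tmul', smul_eq_mul, mul_one, TensorProduct.smul_tmul]
      rw [Finset.sum_congr rfl fun t _ => h1 t, ← TensorProduct.tmul_sum, hf.2.2]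
    | add x y hx hy =>
      conv_rhs => rw [← hx, ← hy]
      rw [← Finset.sum_add_distrib]
      refine Finset.sum_congr rfl fun t _ => ?_
      rw [map_add, add_smul]

/-- the fixed vectors after base change are spanned by the fixed vectors -/
theorem FxR_bch {Ω : Type} [Fintype Ω] [MulAction (V × V) Ω] {α : V →* A} {b : Ω → A}
    {c : Ω → (A →ₗ[R] R)} (hf : FrR (bw R α) b c) (P : Subgroup (V × V)) :
    FxR (bw S (bcw (S := S) (R := R) α)) P =
      Submodule.span S {x | ∃ a ∈ FxR (bw R α) P, x = 1 ⊗ₜ[R] a} := by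
  classical
  apply le_antisymm
  · intro x hx
    -- the projection of `S ⊗ A` is the base change of the projection of `A`
    let rep : Ω → Ω := fun ω => (Quotient.mk'' ω : MulAction.orbitRel.Quotient P Ω).out
    have hrep : ∀ ω, ∃ h ∈ P, h • ω = rep ω := by
      intro ω
      have : MulAction.orbitRel P Ω (rep ω) ω := Quotient.exact (Quotient.out_eq _)
      obtain ⟨h, hh⟩ := this
      exact ⟨h, h.2, hh⟩
    have hrep' : ∀ h ∈ P, ∀ ω, rep (h • ω) = rep ω := by
      intro h hh ω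
      have : (Quotient.mk'' (h • ω) : MulAction.orbitRel.Quotient P Ω) = Quotient.mk'' ω := by
        apply Quotient.sound
        exact ⟨⟨h, hh⟩, rfl⟩
      change (Quotient.mk'' (h • ω) : MulAction.orbitRel.Quotient P Ω).out = _
      rw [this]
    have hπ : ∀ a : A, ∑ ω, c (rep ω) a • b ω ∈ FxR (bw R α) P := by
      intro m h hh
      rw [map_sum]
      refine Fintype.sum_equiv (MulAction.toPerm h) _ _ ?_
      intro ω
      rw [map_smul, ← hf.1]
      change _ = c (rep (h • ω)) m • b (h • ω)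
      rw [hrep' h hh]
    have hfx : ∑ ω, bcf S (c (rep ω)) x • ((1 : S) ⊗ₜ[R] b ω) = x := by
      have hF : FrR (bw S (bcw (S := S) (R := R) α)) (fun ω => 1 ⊗ₜ[R] b ω)
        (fun ω => bcf S (c ω)) := FrR.bch (S := S) hf
      conv_rhs => rw [← hF.2.2 x]
      refine Finset.sum_congr rfl ?_
      intro ω _
      obtain ⟨h, hh, e⟩ := hrep ω
      rw [← e]
      have := hF.2.1 h ω x
      dsimp only at this
      rw [hx h hh] at this
      rw [this]
    have hsp : ∀ y : S ⊗[R] A, ∑ ω, bcf S (c (rep ω)) y • ((1 : S) ⊗ₜ[R] b ω) ∈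
        Submodule.span S {x | ∃ a ∈ FxR (bw R α) P, x = 1 ⊗ₜ[R] a} := by
      intro y
      induction y using TensorProduct.induction_on with
      | zero =>
        simp only [map_zero, zero_smul, Finset.sum_const_zero]
        exact Submodule.zero_mem _
      | tmul s a =>
        have h1 : ∀ t, bcf S (c (rep t)) (s ⊗ₜ[R] a) • ((1 : S) ⊗ₜ[R] b t) =
            s • ((1 : S) ⊗ₜ[R] (c (rep t) a • b t)) := by
          intro t
          rw [bcf_tmul, TensorProduct.smul_tmul', TensorProduct.smul_tmul', smul_eq_mul,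
            smul_eq_mul, mul_one, mul_one, TensorProduct.smul_tmul]
        rw [Finset.sum_congr rfl fun t _ => h1 t, ← Finset.smul_sum, ← TensorProduct.tmul_sum]
        exact Submodule.smul_mem _ _ (Submodule.subset_span ⟨_, hπ a, rfl⟩)
      | add x y hx hy =>
        have h1 : ∑ ω, bcf S (c (rep ω)) (x + y) • ((1 : S) ⊗ₜ[R] b ω) =
            ∑ ω, bcf S (c (rep ω)) x • ((1 : S) ⊗ₜ[R] b ω) +
            ∑ ω, bcf S (c (rep ω)) y • ((1 : S) ⊗ₜ[R] b ω) := by
          rw [← Finset.sum_add_distrib]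
          refine Finset.sum_congr rfl fun t _ => ?_
          rw [map_add, add_smul]
        rw [h1]
        exact Submodule.add_mem _ hx hy
    rw [← hfx]
    exact hsp x
  · apply Submodule.span_le.2
    rintro _ ⟨a, ha, rfl⟩
    intro h hh
    rw [bw_bcw, ha h hh]

theorem BKR_bch {α : V →* A} (P : Subgroup (V × V)) {a : A} (ha : a ∈ BKR (bw R α) P) (s : S) :
    s ⊗ₜ[R] a ∈ BKR (bw S (bcw (S := S) (R := R) α)) P := by
  have h1 : s ⊗ₜ[R] a = s • ((1 : S) ⊗ₜ[R] a) := by
    rw [TensorProduct.smul_tmul', smul_eq_mul, mul_one]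
  rw [h1]
  apply Submodule.smul_mem
  have h2 : BKR (bw R α) P ≤
      ((BKR (bw S (bcw (S := S) (R := R) α)) P).restrictScalars R).comap
        (TensorProduct.mk R S A 1) := by
    apply Submodule.span_le.2
    rintro n ⟨Q, T, m, hQ, hT, hm, rfl⟩
    refine Submodule.subset_span ⟨Q, T, 1 ⊗ₜ[R] m, hQ, hT, ?_, ?_⟩
    · intro h hh
      rw [bw_bcw, hm h hh]
    · rw [TensorProduct.mk_apply, TensorProduct.tmul_sum]
      exact Finset.sum_congr rfl fun x _ => (bw_bcw α x 1 m).symm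
  exact h2 ha

/-- The Brauer kernel after base change. -/
theorem BKR_bch_le {Ω : Type} [Fintype Ω] [MulAction (V × V) Ω] {α : V →* A} {b : Ω → A}
    {c : Ω → (A →ₗ[R] R)} (hf : FrR (bw R α) b c) (P : Subgroup (V × V)) :
    BKR (bw S (bcw (S := S) (R := R) α)) P ≤
      Submodule.span S {x | ∃ a ∈ BKR (bw R α) P, x = 1 ⊗ₜ[R] a} := by
  apply Submodule.span_le.2
  rintro n ⟨Q, T, m, hQ, hT, hm, rfl⟩
  rw [FxR_bch hf] at hm
  rw [SetLike.mem_coe]
  induction hm using Submodule.span_induction with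
  | mem x hx =>
    obtain ⟨a, ha, rfl⟩ := hx
    refine Submodule.subset_span ⟨∑ x ∈ T, bw R α x a,
      Submodule.subset_span ⟨Q, T, a, hQ, hT, ha, rfl⟩, ?_⟩
    rw [TensorProduct.tmul_sum]
    exact Finset.sum_congr rfl fun x _ => bw_bcw α x 1 a
  | zero =>
    simp only [map_zero, Finset.sum_const_zero]
    exact Submodule.zero_mem _
  | add x y _ _ hx hy =>
    simp only [map_add, Finset.sum_add_distrib]
    exact Submodule.add_mem _ hx hy
  | smul r x _ hx =>
    simp only [map_smul]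
    rw [← Finset.smul_sum]
    exact Submodule.smul_mem _ _ hx

/-- the coefficient map `B → A / BK` -/
theorem IsNW.exists_cf [Finite V] {α : V →* A} {W : Subgroup V} {B : Type} [Ring B]
    [Algebra R B] (N : IsNW R α W B) (ε : MulAut W) :
    ∃ r : B →ₗ[R] (A ⧸ BKR (bw R α) (twW W ε)),
      (∀ a ∈ FxR (bw R α) (twW W ε), r (N.β ε a) = Submodule.Quotient.mk a) ∧
      ∀ δ, δ ≠ ε → ∀ a ∈ FxR (bw R α) (twW W δ), r (N.β δ a) = 0 := by
  classical
  obtain ⟨g, hg, hk, hv⟩ := N.exists_hom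
  let cf : gsub R α W →ₗ[R] (A ⧸ BKR (bw R α) (twW W ε)) :=
    { toFun := fun f => Submodule.Quotient.mk (f.1.coeff ε)
      map_add' := by
        intro f f'
        rfl
      map_smul' := by
        intro r f
        rfl }
  have hcf : ∀ f, cf f = Submodule.Quotient.mk (f.1.coeff ε) := fun f => rfl
  have hker : LinearMap.ker g.toLinearMap ≤ LinearMap.ker cf := by
    intro f hf
    have h1 : g f = 0 := hf
    rw [LinearMap.mem_ker, hcf, Submodule.Quotient.mk_eq_zero]
    exact (hk f).1 h1 ε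
  obtain ⟨r, hr⟩ : ∃ r : B →ₗ[R] (A ⧸ BKR (bw R α) (twW W ε)),
      ∀ f, r (g f) = cf f := by
    have e := g.toLinearMap.quotKerEquivOfSurjective hg
    refine ⟨((LinearMap.ker g.toLinearMap).liftQ cf hker).comp
      (g.toLinearMap.quotKerEquivOfSurjective hg).symm.toLinearMap, ?_⟩
    intro f
    rw [LinearMap.comp_apply]
    have h1 : (g.toLinearMap.quotKerEquivOfSurjective hg).symm.toLinearMap (g f) =
        Submodule.Quotient.mk f := by
      change (g.toLinearMap.quotKerEquivOfSurjective hg).symm (g f) = _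
      rw [LinearEquiv.symm_apply_eq]
      rfl
    rw [h1]
    rfl
  refine ⟨r, ?_, ?_⟩
  · intro a ha
    have h1 := hv ε ⟨a, ha⟩
    rw [← h1, hr, hcf]
    change Submodule.Quotient.mk ((MonoidAlgebra.single ε a).coeff ε) = _
    rw [MonoidAlgebra.coeff_single, Finsupp.single_eq_same]
  · intro δ hδ a ha
    have h1 := hv δ ⟨a, ha⟩
    rw [← h1, hr, hcf]
    change Submodule.Quotient.mk ((MonoidAlgebra.single δ a).coeff ε) = _
    rw [MonoidAlgebra.coeff_single, Finsupp.single_apply, if_neg hδ]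
    rfl

/-- NGF -/
theorem ngf [Finite V] {Ω : Type} [Fintype Ω] [MulAction (V × V) Ω] {α : V →* A} {b : Ω → A}
    {c : Ω → (A →ₗ[R] R)} (hf : FrR (bw R α) b c) {W : Subgroup V} {B : Type} [Ring B]
    [Algebra R B] (N : IsNW R α W B) :
    ∃ N' : IsNW S (bcw (S := S) (R := R) α) W (S ⊗[R] B),
      ∀ ε, N'.β ε = (N.β ε).baseChange S := by
  classical
  have : Finite (MulAut W) := Finite.of_injective (fun f => (f : W → W)) DFunLike.coe_injective
  have : Fintype (MulAut W) := Fintype.ofFinite _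
  have hmul : ∀ ε δ, ∀ x ∈ FxR (bw S (bcw (S := S) (R := R) α)) (twW W ε),
      ∀ y ∈ FxR (bw S (bcw (S := S) (R := R) α)) (twW W δ),
      (N.β (ε * δ)).baseChange S (x * y) =
        (N.β ε).baseChange S x * (N.β δ).baseChange S y := by
    intro ε δ x hx y hy
    rw [FxR_bch hf] at hx hy
    induction hx using Submodule.span_induction with
    | mem x hx =>
      obtain ⟨a, ha, rfl⟩ := hx
      induction hy using Submodule.span_induction with
      | mem y hy =>
        obtain ⟨a', ha', rfl⟩ := hy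
        rw [Algebra.TensorProduct.tmul_mul_tmul, LinearMap.baseChange_tmul,
          LinearMap.baseChange_tmul, LinearMap.baseChange_tmul,
          Algebra.TensorProduct.tmul_mul_tmul, N.mul ε δ a ha a' ha']
      | zero => rw [mul_zero, map_zero, map_zero, mul_zero]
      | add y z _ _ hy hz => rw [mul_add, map_add, map_add, mul_add, hy, hz]
      | smul r y _ hy => rw [mul_smul_comm, map_smul, map_smul, mul_smul_comm, hy]
    | zero => rw [zero_mul, map_zero, map_zero, zero_mul]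
    | add y z _ _ hy hz => rw [add_mul, map_add, map_add, add_mul, hy, hz]
    | smul r y _ hy => rw [smul_mul_assoc, map_smul, map_smul, smul_mul_assoc, hy]
  have hcf : ∀ ε, ∃ r : S ⊗[R] B →ₗ[R] S ⊗[R] (A ⧸ BKR (bw R α) (twW W ε)),
      (∀ x ∈ FxR (bw S (bcw (S := S) (R := R) α)) (twW W ε),
        r ((N.β ε).baseChange S x) = (BKR (bw R α) (twW W ε)).mkQ.lTensor S x) ∧
      ∀ δ, δ ≠ ε → ∀ x ∈ FxR (bw S (bcw (S := S) (R := R) α)) (twW W δ),
        r ((N.β δ).baseChange S x) = 0 := by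
    intro ε
    obtain ⟨r, h1, h2⟩ := N.exists_cf ε
    refine ⟨r.lTensor S, ?_, ?_⟩
    · intro x hx
      rw [FxR_bch hf] at hx
      have key : ∀ s : S, ∀ x ∈ Submodule.span S
          {x | ∃ a ∈ FxR (bw R α) (twW W ε), x = (1 : S) ⊗ₜ[R] a},
          r.lTensor S ((N.β ε).baseChange S (s • x)) =
            (BKR (bw R α) (twW W ε)).mkQ.lTensor S (s • x) := by
        intro s x hx
        induction hx using Submodule.span_induction generalizing s with
        | mem x hx =>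
          obtain ⟨a, ha, rfl⟩ := hx
          rw [TensorProduct.smul_tmul', LinearMap.baseChange_tmul, LinearMap.lTensor_tmul,
            LinearMap.lTensor_tmul, h1 a ha]
          rfl
        | zero => rw [smul_zero, map_zero, map_zero, map_zero]
        | add y z _ _ hy hz => rw [smul_add, map_add, map_add, map_add, hy, hz]
        | smul r y _ hy =>
          rw [smul_smul]
          exact hy _
      have := key 1 x hx
      rwa [one_smul] at this
    · intro δ hδ x hx
      rw [FxR_bch hf] at hx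
      have key : ∀ s : S, ∀ x ∈ Submodule.span S
          {x | ∃ a ∈ FxR (bw R α) (twW W δ), x = (1 : S) ⊗ₜ[R] a},
          r.lTensor S ((N.β δ).baseChange S (s • x)) = 0 := by
        intro s x hx
        induction hx using Submodule.span_induction generalizing s with
        | mem x hx =>
          obtain ⟨a, ha, rfl⟩ := hx
          rw [TensorProduct.smul_tmul', LinearMap.baseChange_tmul, LinearMap.lTensor_tmul,
            h2 δ hδ a ha, TensorProduct.tmul_zero]
        | zero => rw [smul_zero, map_zero, map_zero]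
        | add y z _ _ hy hz => rw [smul_add, map_add, map_add, hy, hz, add_zero]
        | smul r y _ hy =>
          rw [smul_smul]
          exact hy _
      have := key 1 x hx
      rwa [one_smul] at this
  have hexact : ∀ ε (x : S ⊗[R] A), (BKR (bw R α) (twW W ε)).mkQ.lTensor S x = 0 →
      x ∈ BKR (bw S (bcw (S := S) (R := R) α)) (twW W ε) := by
    intro ε x hx
    have he : Function.Exact (BKR (bw R α) (twW W ε)).subtype (BKR (bw R α) (twW W ε)).mkQ := by
      intro y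
      rw [Submodule.mkQ_apply, Submodule.Quotient.mk_eq_zero]
      constructor
      · intro h
        exact ⟨⟨y, h⟩, rfl⟩
      · rintro ⟨z, rfl⟩
        exact z.2
    obtain ⟨z, rfl⟩ := (lTensor_exact S he (Submodule.mkQ_surjective _) x).1 hx
    induction z using TensorProduct.induction_on with
    | zero =>
      rw [map_zero]
      exact Submodule.zero_mem _
    | tmul s a =>
      rw [LinearMap.lTensor_tmul]
      exact BKR_bch _ a.2 s
    | add y z hy hz =>
      rw [map_add]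
      apply Submodule.add_mem
      · apply hy
        exact (lTensor_exact S he (Submodule.mkQ_surjective _) _).2 ⟨y, rfl⟩
      · apply hz
        exact (lTensor_exact S he (Submodule.mkQ_surjective _) _).2 ⟨z, rfl⟩
  have hker0 : ∀ ε, ∀ x ∈ BKR (bw S (bcw (S := S) (R := R) α)) (twW W ε),
      (N.β ε).baseChange S x = 0 := by
    intro ε x hx
    have h1 : Submodule.span S {x | ∃ a ∈ BKR (bw R α) (twW W ε), x = (1 : S) ⊗ₜ[R] a} ≤
        LinearMap.ker ((N.β ε).baseChange S) := by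
      apply Submodule.span_le.2
      rintro _ ⟨a, ha, rfl⟩
      rw [SetLike.mem_coe, LinearMap.mem_ker, LinearMap.baseChange_tmul,
        (N.ker ε a (BKR_le_FxR ha)).2 ha, TensorProduct.tmul_zero]
    exact h1 (BKR_bch_le hf _ hx)
  refine ⟨
    { β := fun ε => (N.β ε).baseChange S
      one := ?_
      mul := hmul
      ker := ?_
      ind := ?_
      spn := ?_ }, fun ε => rfl⟩
  · change (N.β 1).baseChange S (1 ⊗ₜ[R] 1) = _
    rw [LinearMap.baseChange_tmul, N.one]
    rfl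
  · intro ε x hx
    constructor
    · intro h
      apply hexact
      obtain ⟨r, h1, _⟩ := hcf ε
      rw [← h1 x hx, h, map_zero]
    · exact hker0 ε x
  · intro f hfx h ε
    rw [finsum_eq_sum_of_fintype] at h
    apply hker0
    apply hexact
    obtain ⟨r, h1, h2⟩ := hcf ε
    rw [← h1 _ (hfx ε)]
    have h3 := congrArg r h
    rw [map_sum, map_zero, Finset.sum_eq_single ε] at h3
    · exact h3
    · intro δ _ hδ
      exact h2 δ hδ _ (hfx δ)
    · intro hn
      exact (hn (Finset.mem_univ ε)).elim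
  · intro x
    induction x using TensorProduct.induction_on with
    | zero =>
      refine ⟨fun _ => 0, fun _ => Submodule.zero_mem _, ?_⟩
      rw [finsum_eq_sum_of_fintype]
      exact Finset.sum_eq_zero fun ε _ => map_zero _
    | tmul s y =>
      obtain ⟨f, hf1, rfl⟩ := N.spn y
      refine ⟨fun ε => s ⊗ₜ[R] f ε, ?_, ?_⟩
      · intro ε h hh
        rw [bw_bcw, hf1 ε h hh]
      · rw [finsum_eq_sum_of_fintype, finsum_eq_sum_of_fintype, TensorProduct.tmul_sum]
        exact Finset.sum_congr rfl fun ε _ => LinearMap.baseChange_tmul _ _ _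
    | add y z hy hz =>
      obtain ⟨f, hf1, hf2⟩ := hy
      obtain ⟨g, hg1, hg2⟩ := hz
      rw [finsum_eq_sum_of_fintype] at hf2 hg2
      refine ⟨fun ε => f ε + g ε, fun ε => Submodule.add_mem _ (hf1 ε) (hg1 ε), ?_⟩
      rw [finsum_eq_sum_of_fintype]
      simp only [map_add]
      rw [Finset.sum_add_distrib, hf2, hg2]

end

end Pool.Agent.PSS
end
end -- Pool.Agent.PSS.Ngf

section -- Pool.Agent.PSS.StmtsS4

/-!
# Squad PSS, block S4: `N_W(A)`, the Brauer quotients `A(Q)`, the condition on the blocks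

1. ORB FRB DFR RFU DRF QOR: frames, dual frames, relative Frobenius systems (any commutative ring).
2. NFR NFP NFD NRF NDF NRS TPF: the algebra `N_W(A)` (NWE, NWU: `Nwe.lean`; base change: `ngf`, `Ngf.lean`).
3. AQE AQV ADR CAS AQR AQP AQC: the algebra `A(Q)` is in the class for `C_E(Q)`.
4. FTZ BLA BLB BLW: the condition `blk` follows from the case `Q = 1`.

Complete proofs in the docstrings.  We write `v` for `α v`.  `β` is the Brauer map.  Useful: `Nwe.lean`
(`FxR_range`, `BKR_range`, `BKR_map`, `BKR_hom`, `BKR_le_FxR`, `exists_prj`, `mem_tw`, `BK_mulL`,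
`IsNW.exists_hom`), `DefsN.lean` (`mem_cw`, `al_mem_cw`, `qmk_eq`, `smul_qmk`).
-/

open scoped BigOperators TensorProduct

noncomputable section

namespace Pool.Agent.PSS

open Pool.Agent.PFC (tw IsTv)
open Pool.Agent.PFD.D2b (FrR)

/-! ## 1. Frames -/

/-- ORB: the sum of an equivariant function is the sum over the fixed points modulo the Brauer kernel.

Proof.  The sum over an orbit of `P` on `K` which is not a fixed point, with the point `k`: for every `k'` of the
orbit choose `x k'` in `P` with `x k' • k = k'`; `S` = the set of these elements is a transversal of the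
stabiliser `P' < P` of `k`, and the sum is `∑_(x ∈ S) ρ x (f k)`, `f k ∈ FxR ρ P'`.  Sum over the orbits
(`Finset.sum_fiberwise` for the quotient `MulAction.orbitRel.Quotient P K`); the orbit of a fixed point is a
point. -/
def OrbStmt : Prop := ∀ (R P K M : Type) [CommRing R] [Group P] [Finite P] [Fintype K]
  [MulAction P K] [AddCommGroup M] [Module R M] (ρ : P →* (M →ₗ[R] M)) (f : K → M),
  (∀ p k, f (p • k) = ρ p (f k)) →
  ∑ k, f k - ∑ k : Fp K (⊤ : Subgroup P), f k.1 ∈ BKR ρ ⊤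

/-- FRB: frames and Brauer kernels in characteristic `ℓ`.

Proof.  (1) For a trace `m = ∑_(x ∈ S) ρ x m'` from `P' < P`: `c ω (ρ x m') = c (x • ω) (ρ x m') = c ω m'`, so
`c ω m = |S| c ω m'`, and `|S| = |P : P'|` is divisible by `ℓ`.  (2) ORB for the group `P` (restrict `ρ` to `P`;
`BKR_range` for `P.subtype`) and `f ω = c ω m • b ω`. -/
def FrbStmt : Prop := ∀ (ℓ : ℕ) [Fact ℓ.Prime] (R H M Ω : Type) [CommRing R] [Group H]
  [AddCommGroup M] [Module R M] [Fintype Ω] [MulAction H Ω] (ρ : H →* (M →ₗ[R] M)) (b : Ω → M)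
  (c : Ω → (M →ₗ[R] R)) (P : Subgroup H), (ℓ : R) = 0 → IsPGroup ℓ P → Finite P →
  FrR ρ b c →
  (∀ ω, P ≤ MulAction.stabilizer H ω → ∀ m ∈ BKR ρ P, c ω m = 0) ∧
  ∀ m ∈ FxR ρ P, m - ∑ ω : Fp Ω P, c ω.1 m • b ω.1 ∈ BKR ρ P

/-- RFU: the relative trace depends only on the form.

Proof.  `E a = ∑_v lam (v⁻¹ a) v = ∑_v lam (a v⁻¹) v`.  `e1` (both systems): `a = ∑_k x k * E (y k * a)`; `e2`:
`a = ∑_k E (a * x k) * y k`.  So `∑_k x_k z y_k = ∑_k ∑_k' x'_k' E(y'_k' x_k) z y_k = ∑_k' x'_k' z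
∑_k E(y'_k' x_k) y_k = ∑_k' x'_k' z y'_k'`, since `z` commutes with `V`. -/
def RfuStmt : Prop := ∀ (R V A K K' : Type) [CommRing R] [CommGroup V] [Fintype V] [Ring A]
  [Algebra R A] [Fintype K] [Fintype K'] (α : V →* A) (lam : A →ₗ[R] R) (x y : K → A)
  (x' y' : K' → A), RF R α lam x y → RF R α lam x' y' → ∀ z ∈ FxR (cw R α) ⊤,
  ∑ k, x k * z * y k = ∑ k, x' k * z * y' k

/-- DFR: the dual frame.

Proof.  `d ω = ∑_k ∑_v c ω (x k * v) • (v⁻¹ * y k)`; by `e1`, `lam (d ω * a) = c ω a`.  `lam` is nondegenerate: if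
`lam (a * a') = 0` for all `a'` then `a = 0` by `e2`.  `ed`: `lam (d (g ω) a) = c (g ω) a = c ω (g⁻¹ a) =
lam (d ω * (u⁻¹ a v)) = lam ((v * d ω * u⁻¹) * a)` for `g = (u, v)`.  `fl`, `fr`: the stabiliser of `ω` is
`tw (φ e) S = {(φ e s, s)}`, it meets `V × 1` and `1 × V` only in `1`. -/
def DfrStmt : Prop := ∀ (R V E A K Ω : Type) [CommRing R] [CommGroup V] [Fintype V] [Group E]
  [Ring A] [Algebra R A] [Fintype K] [Fintype Ω] [MulAction (V × V) Ω] (φ : E →* MulAut V)
  (α : V →* A) (lam : A →ₗ[R] R) (x y : K → A) (b : Ω → A) (c : Ω → (A →ₗ[R] R)),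
  RF R α lam x y → FrR (bw R α) b c →
  (∀ ω : Ω, ∃ (e : E) (S : Subgroup V),
    MulAction.stabilizer (V × V) ω = tw (φ e).toMonoidHom S) →
  ∃ d : Ω → A, (∀ ω a, c ω a = lam (d ω * a)) ∧ DFr R α lam b d

/-- DRF: the relative Frobenius system of a dual frame, indexed by the orbits of `1 × V`.

Proof.  `V × Qt Ω → Ω`, `(v, k) ↦ (1, v) • k.rep`, is bijective (`fr`).  `e1`: `a = ∑_ω lam (d ω * a) • b ω =
∑_k ∑_v lam (v * d k.rep * a) • (b k.rep * v⁻¹)`.  Nondegeneracy: if `lam (a * a') = 0` for all `a'`, then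
`a = ∑ lam (d ω * a) • b ω = 0` (`sym`).  `e2` follows: for all `a'`, `lam ((∑_k ∑_v lam (a x_k v) v⁻¹ y_k) a') =
lam (a * ∑_k ∑_v lam (v⁻¹ y_k a') x_k v) = lam (a a')`. -/
def DrfStmt : Prop := ∀ (R V A Ω : Type) [CommRing R] [CommGroup V] [Fintype V] [Ring A]
  [Algebra R A] [Fintype Ω] [MulAction (V × V) Ω] (α : V →* A) (lam : A →ₗ[R] R) (b d : Ω → A),
  DFr R α lam b d →
  RF R α lam (fun k : Qt (V := V) Ω => b k.rep) (fun k : Qt (V := V) Ω => d k.rep)

/-- QOR: only the orbits of `1 × V` which are fixed by `Q` contribute to the relative trace.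

Proof.  ORB for the group `Q`, acting on `Qt Ω` by `q • k = (q, 1) • k`, and `f k = b k.rep * z * d k.rep`.  For all
`ω`: `f (qmk ω) = b ω * z * d ω` as `z` commutes with `V` (`eb`, `ed` for `(1, v)`); so
`f (q • k) = q * f k * q⁻¹`.  (`BKR_map` or `BKR_range` for `Q.subtype`.) -/
def QorStmt : Prop := ∀ (R V A Ω : Type) [CommRing R] [CommGroup V] [Fintype V] [Ring A]
  [Algebra R A] [Fintype Ω] [MulAction (V × V) Ω] (α : V →* A) (lam : A →ₗ[R] R) (b d : Ω → A),
  DFr R α lam b d → ∀ Q : Subgroup V, ∀ z ∈ FxR (cw R α) ⊤,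
  ∑ k : Qt (V := V) Ω, b k.rep * z * d k.rep -
    ∑ k : Fp (Qt (V := V) Ω) (Q.prod (⊥ : Subgroup V)), b k.1.rep * z * d k.1.rep ∈
    BKR (cw R α) Q

/-! ## 2. The algebra `N_W(A)` -/

/-- NFR: the frame of `N_W(A)`: index set: pairs of `ε` and of a point fixed by `twW W ε`.

Proof.  Existence of `c'`: `IsNW.exists_hom`: the linear map `f ↦ (c ω (f ε))` on `gsub` kills `gidl` (FRB (1),
`twW W ε` is an `ℓ`-group), so it factors through `B`.  Equations of `FrR`: every element of `B` is a sum of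
elements `β δ a`, `a` fixed by `twW W δ`; `u * β δ a * v⁻¹ = β δ (u * a * v⁻¹)`;
`∑_t c' t (β δ a) • b' t = β δ (∑_(ω fixed by twW W δ) c ω a • b ω) = β δ a` by FRB (2). -/
def NfrStmt : Prop := ∀ (ℓ : ℕ) [Fact ℓ.Prime] (R V A B Ω : Type) [CommRing R] [CommGroup V]
  [Fintype V] [Ring A] [Algebra R A] [Ring B] [Algebra R B] [Fintype Ω] [MulAction (V × V) Ω]
  (α : V →* A) (b : Ω → A) (c : Ω → (A →ₗ[R] R)) (W : Subgroup V) (N : IsNW R α W B)
  [Fintype (Σ ε : MulAut W, Fp Ω (twW W ε))], (ℓ : R) = 0 → IsPGroup ℓ V → FrR (bw R α) b c →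
  ∃ c' : (Σ ε : MulAut W, Fp Ω (twW W ε)) → (B →ₗ[R] R),
    (∀ t, ∀ a ∈ FxR (bw R α) (twW W t.1), c' t (N.β t.1 a) = c t.2.1 a) ∧
    (∀ t δ, δ ≠ t.1 → ∀ a ∈ FxR (bw R α) (twW W δ), c' t (N.β δ a) = 0) ∧
    FrR (bw R N.nwh) (fun t => N.β t.1 (b t.2.1)) c'

/-- NFP: permutation frame and units of `N_W(A)`.

Proof.  NFR; the stabiliser of `(ε, ω)` is the stabiliser of `ω`.  Units: `y` with `y v = φ e (v) y` is fixed by
`twW W ε`, `ε` = the restriction of `φ e` to `W` (an automorphism, as `W` is finite and `E`-stable), and `β ε y`,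
`β ε⁻¹ y'` are inverse to each other. -/
def NfpStmt : Prop := ∀ (ℓ : ℕ) [Fact ℓ.Prime] (R V E A B : Type) [CommRing R] [CommGroup V]
  [Fintype V] [Group E] [Ring A] [Algebra R A] [Ring B] [Algebra R B] (φ : E →* MulAut V)
  (α : V →* A) (W : Subgroup V) (N : IsNW R α W B), (ℓ : R) = 0 → IsPGroup ℓ V →
  (∀ e : E, ∀ w ∈ W, φ e w ∈ W) → Per R φ α → Uni φ α → Per R φ N.nwh ∧ Uni φ N.nwh

/-- NFD: the dual frame of `N_W(A)`.

Proof.  `lam'`: NFR-like: the linear map `f ↦ lam (f 1)` on `gsub` kills `gidl`: `lam` of a trace from `P' < twW W 1`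
is `|P : P'|` times a value of `lam`.  `sym`: on `β ε a`, `β δ a'`; both sides are zero unless `ε δ = 1`.  `eb`, `ed`:
`mul`.  `d ω` is fixed by `twW W ε⁻¹` if `ω` is fixed by `twW W ε`: for `w`, `(ε w, w) • ω = ω` gives
`d ω = w * d ω * (ε w)⁻¹`.  `sum`: for `a` fixed by `twW W δ`: `∑_((ε, ω)) lam' (β ε⁻¹ (d ω) * β δ a) • β ε (b ω) =
β δ (∑_(ω fixed) lam (d ω * a) • b ω) = β δ a` by FRB (2) with `c ω a = lam (d ω * a)`. -/
def NfdStmt : Prop := ∀ (ℓ : ℕ) [Fact ℓ.Prime] (R V A B Ω : Type) [CommRing R] [CommGroup V]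
  [Fintype V] [Ring A] [Algebra R A] [Ring B] [Algebra R B] [Fintype Ω] [MulAction (V × V) Ω]
  (α : V →* A) (lam : A →ₗ[R] R) (b d : Ω → A) (W : Subgroup V) (N : IsNW R α W B)
  [Fintype (Σ ε : MulAut W, Fp Ω (twW W ε))], (ℓ : R) = 0 → IsPGroup ℓ V → DFr R α lam b d →
  ∃ lam' : B →ₗ[R] R,
    (∀ a ∈ FxR (bw R α) (twW W 1), lam' (N.β 1 a) = lam a) ∧
    DFr R N.nwh lam' (fun t : Σ ε : MulAut W, Fp Ω (twW W ε) => N.β t.1 (b t.2.1))
      (fun t => N.β t.1⁻¹ (d t.2.1))

/-- NRF: the relative Frobenius system of `N_W(A)`; its Casimir element is `β 1 (∑ x y)`.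

Proof.  DFR: dual frame `b`, `d` of `A`; by DRF, RFU: `∑ x y = ∑_(k : Qt Ω) b k.rep * d k.rep`, which is the sum over
the orbits fixed by `W × 1` modulo `BKR (cw) W = BKR (bw) (twW W 1)` (QOR, `z = 1`; `BKR_range` for both
embeddings of `W`).  NFD, DRF: the relative Frobenius system of `B` indexed by the `1 × V`-orbits of
`Σ ε, Fp Ω (twW W ε)`.  The map `(ε, ω) ↦ ω` induces a bijection of these orbits with the orbits of `1 × V` on
`Ω` which are fixed by `W × 1`: injective as `ε` is determined by `ω` (`fl`); surjective: if the orbit of `ω` is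
fixed by `W × 1`, and the stabiliser of `ω` is `tw (φ e) S`, then for `w ∈ W` there is `v` with
`(w, v) ∈ tw (φ e) S`: `w = φ e v`, `v ∈ S`; so `W ≤ φ e (S)`, `φ e⁻¹ W = W ≤ S`, and `twW W ε ≤ tw (φ e) S` for `ε` =
the restriction of `φ e`. -/
def NrfStmt : Prop := ∀ (ℓ : ℕ) [Fact ℓ.Prime] (R V E A B K : Type) [CommRing R] [CommGroup V]
  [Fintype V] [Group E] [Ring A] [Algebra R A] [Ring B] [Algebra R B] [Fintype K]
  (φ : E →* MulAut V) (α : V →* A) (W : Subgroup V) (N : IsNW R α W B) (lam : A →ₗ[R] R)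
  (x y : K → A), (ℓ : R) = 0 → IsPGroup ℓ V → (∀ e : E, ∀ w ∈ W, φ e w ∈ W) → Per R φ α →
  RF R α lam x y →
  ∃ (lam' : B →ₗ[R] R) (K' : Type) (_ : Fintype K') (x' y' : K' → B),
    RF R N.nwh lam' x' y' ∧ ∑ k, x' k * y' k = N.β 1 (∑ k, x k * y k)

/-- NDF: `N_W` of a deformation is a deformation of `N_W`.

`R₀ = R/p` and `R` have characteristic `ℓ`, `A'` is a deformation of `A` relative to the group `V`.

Proof.  Frame `(b, c)` of `A'`, and its reduction `(b₀, c₀)`: `b₀ ω = q (b ω)`, `c₀ ω (q x) = κ (c ω x)`.  The additive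
map `Q : B' → B` with `Q (β' ε a) = β ε (q a)` for fixed `a`: as `q` maps fixed vectors to fixed vectors and
`BKR` to `BKR` (on generators; `q (r • x) = κ r • q x`), it exists by `IsNW.exists_hom` for `B'` (additive version).
It is a ring homomorphism (check on generators), `Q (algebraMap r) = algebraMap (κ r)`.  Surjective: a fixed
vector `a` of `A` is `∑ c₀ ω a • b₀ ω` with coefficients which are constant on the orbits of `twW W ε`; lift them to
`R`, constant on the orbits.  Kernel: `x = ∑_t c' t x • b' t` (NFR for `B'`), and `κ (c' t x) = c₀' t (Q x)` (check on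
generators), so `Q x = 0` gives `c' t x = p s_t`, `x = p ∑ s_t • b' t`.  `per`: NFR for `B'`. -/
def NdfStmt : Prop := ∀ (ℓ : ℕ) [Fact ℓ.Prime] (R R₀ V A A' B B' : Type) [CommRing R]
  [CommRing R₀] [CommGroup V] [Fintype V] [Ring A] [Algebra R₀ A] [Ring A'] [Algebra R A']
  [Ring B] [Algebra R₀ B] [Ring B'] [Algebra R B'] (p : R) (κ : R →+* R₀) (α : V →* A)
  (α' : V →* A') (W : Subgroup V) (N : IsNW R₀ α W B) (N' : IsNW R α' W B')
  (D : Df p κ α α'), (ℓ : R) = 0 → IsPGroup ℓ V → Red p κ →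
  ∃ D' : Df p κ N.nwh N'.nwh, ∀ ε, ∀ a ∈ FxR (bw R α') (twW W ε), D'.q (N'.β ε a) = N.β ε (D.q a)

/-- NRS: restriction from `V` to `V' ≥ W`.

Proof.  `s : W.subgroupOf V' ≃* W` (`Subgroup.subgroupOfEquivOfLe`).  `β' ε' = β (s ε' s⁻¹)`; the conditions
`mem_tw` for `ε'` and for `s ε' s⁻¹` are the same; so are the Brauer kernels (`BKR_map` for
`V' × V' → V × V`).  The sums over `MulAut` correspond by the bijection `ε' ↦ s ε' s⁻¹`. -/
def NrsStmt : Prop := ∀ (R V A B : Type) [CommRing R] [CommGroup V] [Finite V] [Ring A]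
  [Algebra R A] [Ring B] [Algebra R B] (α : V →* A) (W V' : Subgroup V) (N : IsNW R α W B),
  W ≤ V' → ∃ N' : IsNW R (α.comp V'.subtype) (W.subgroupOf V') B,
    ∀ v : V', N'.nwh v = N.nwh v

/-- DZF: the export E1 of block S1 (helper36): the dimension of the centre of the generic fibre of a deformation
over `F⟦X⟧` relative to `W'`, `V = Y × W'`, `Y` cyclic. -/
def DzfStmt : Prop := ∀ (ℓ : ℕ) [Fact ℓ.Prime] (F V E A A' F' : Type) [Field F] [IsAlgClosed F]
  [CharP F ℓ] [CommGroup V] [Fintype V] [Group E] [Fintype E] [Ring A] [Algebra F A] [Ring A']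
  [Algebra (PowerSeries F) A'] [Field F'] [Algebra (PowerSeries F) F']
  (φ : E →* MulAut V) (α : V →* A) (Y W' : Subgroup V) (α' : W' →* A'),
  IsPGroup ℓ V → Cyf φ Y W' → FiniteDimensional F A → Per F φ α →
  (∃ (lam : A →ₗ[F] F) (K : Type) (_ : Fintype K) (x y : K → A), RF F α lam x y ∧
    ∃ u : A, u * ∑ k, x k * y k = 1) →
  Df (PowerSeries.X : PowerSeries F) PowerSeries.constantCoeff (α.comp W'.subtype) α' →
  Function.Injective (algebraMap (PowerSeries F) F') →
  Module.finrank F' (Subalgebra.center F' (F' ⊗[PowerSeries F] A')) =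
    Module.finrank F (Subalgebra.center F A)

/-- TPF: TOP of S4: `dim Z` of the generic fibre of `N_W`.

Proof.  `R = F⟦X⟧`.  NRS: `N₁ : IsNW F (α|W') (W.subgroupOf W') B`.  NWE for the frame of `A'` (`Df.per`):
`N' : IsNW R α' (W.subgroupOf W') B'`.  NDF (group `W'`): `Df X constantCoeff N₁.nwh N'.nwh`, and
`N₁.nwh = N.nwh|W'`.  NFP, NRF: `B` has a frame and a relative Frobenius system over `V` with a unit as Casimir
element (`β 1 ζ β 1 u = 1`: `u` is central, `ζ` and `u` are in `FxR`), and it is finite-dimensional (`spn`).  DZF for `B`, `N.nwh`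
and `B'`: `dim Z(F' ⊗ B') = dim Z(B)`.  `ngf` (`Ngf.lean`): `IsNW F' (bcw α') (W.subgroupOf W') (F' ⊗ B')`. -/
def TpfStmt : Prop := ∀ (ℓ : ℕ) [Fact ℓ.Prime] (F V E A A' B F' : Type) [Field F] [IsAlgClosed F]
  [CharP F ℓ] [CommGroup V] [Fintype V] [Group E] [Fintype E] [Ring A] [Algebra F A] [Ring A']
  [Algebra (PowerSeries F) A'] [Ring B] [Algebra F B] [Field F'] [Algebra (PowerSeries F) F']
  (φ : E →* MulAut V) (α : V →* A) (Y W' W : Subgroup V) (α' : W' →* A'),
  IsPGroup ℓ V → Cyf φ Y W' → W ≤ W' → (∀ e : E, ∀ w ∈ W, φ e w ∈ W) → Cl F φ α →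
  IsNW F α W B →
  Df (PowerSeries.X : PowerSeries F) PowerSeries.constantCoeff (α.comp W'.subtype) α' →
  Function.Injective (algebraMap (PowerSeries F) F') →
  ∃ (B' : Type) (_ : Ring B') (_ : Algebra F' B')
    (_ : IsNW F' (bcw (R := PowerSeries F) (S := F') α') (W.subgroupOf W') B'),
    Module.finrank F' (Subalgebra.center F' B') = Module.finrank F (Subalgebra.center F B)

/-! ## 3. The algebra `A(Q)` -/

/-- AQE: existence of the Brauer quotient.

Proof.  As NWE: the subalgebra `FxR (cw) Q` of `A` (the centraliser of `α '' Q`), its two-sided ideal `BKR (cw) Q`,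
and the projection of `exists_prj` (frame for `cw`: restrict the frame to the diagonal). -/
def AqeStmt : Prop := ∀ (R V A Ω : Type) [CommRing R] [CommGroup V] [Fintype V] [Ring A]
  [Algebra R A] [Fintype Ω] [MulAction (V × V) Ω] (α : V →* A) (b : Ω → A)
  (c : Ω → (A →ₗ[R] R)) (Q : Subgroup V), FrR (bw R α) b c →
  ∃ (B : Type) (_ : Ring B) (_ : Algebra R B), Nonempty (IsAQ R α Q B)

/-- AQV: fixed vectors of `V` in `A(Q)` lift.  `Q ≤ Q'`: the elements of `A(Q)` which commute with `Q'` are the images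
of the elements of `A` which commute with `Q'`, and the Brauer kernels of `Q'` correspond to each other.

Proof.  `Δ(Q)` = the diagonal subgroup.  (1) Let `β a` commute with `Q'`, `a ∈ FxR (cw) Q`.  `a' = ∑_(ω fixed by
Δ(Q)) c ω a • b ω`, `β a' = β a` (FRB (2)).  For `q ∈ Q'`: `q a q⁻¹ - a ∈ BKR (cw) Q`, so `c ω a = c ω (q a q⁻¹) =
c (q⁻¹ ω) a` for `ω` fixed by `Δ(Q)` (FRB (1)); so `a'` commutes with `Q'`.  (2) `a ∈ FxR (cw R α) Q'`.  If `a ∈ BKR
(cw R α) Q'` then `β a ∈ BKR (cw R N.aqh) Q'`: a trace from `P' < Q'` of `m`: if `Q ≤ P'` then `β` of the trace is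
the trace of `β m`; otherwise the trace is in `BKR (cw) Q` (`V` is abelian: it is a sum of traces from `P' ⊓ Q` to
`Q`), or by coordinates: FRB.  Conversely let `β a ∈ BKR (cw R N.aqh) Q'`.  The frame `β (b ω)`, `ω` fixed by
`Δ(Q)`, with the coordinates `c'_ω (β a) = c ω a` (as NFR) of `A(Q)`: FRB (1) for it gives `c ω a = 0` for all `ω` fixed
by `Δ(Q')`; FRB (2) for `A`: `a ∈ BKR (cw R α) Q'`.  (The same argument with FRB (1) for `A` and FRB (2) for `A(Q)`
gives the first direction.) -/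
def AqvStmt : Prop := ∀ (ℓ : ℕ) [Fact ℓ.Prime] (R V A B Ω : Type) [CommRing R] [CommGroup V]
  [Fintype V] [Ring A] [Algebra R A] [Ring B] [Algebra R B] [Fintype Ω] [MulAction (V × V) Ω]
  (α : V →* A) (b : Ω → A) (c : Ω → (A →ₗ[R] R)) (Q Q' : Subgroup V) (N : IsAQ R α Q B),
  (ℓ : R) = 0 → IsPGroup ℓ V → FrR (bw R α) b c → Q ≤ Q' →
  (∀ x ∈ FxR (cw R N.aqh) Q', ∃ a ∈ FxR (cw R α) Q', N.β a = x) ∧
  ∀ a ∈ FxR (cw R α) Q', N.β a ∈ FxR (cw R N.aqh) Q' ∧
    (N.β a ∈ BKR (cw R N.aqh) Q' ↔ a ∈ BKR (cw R α) Q')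

/-- ADR: the dual frame of `A(Q)`: the points which are fixed by the diagonal `tw id Q`.

Proof.  As NFR, NFD (only the degree `1`). -/
def AdrStmt : Prop := ∀ (ℓ : ℕ) [Fact ℓ.Prime] (R V A B Ω : Type) [CommRing R] [CommGroup V]
  [Fintype V] [Ring A] [Algebra R A] [Ring B] [Algebra R B] [Fintype Ω] [MulAction (V × V) Ω]
  (α : V →* A) (lam : A →ₗ[R] R) (b d : Ω → A) (Q : Subgroup V) (N : IsAQ R α Q B),
  (ℓ : R) = 0 → IsPGroup ℓ V → DFr R α lam b d →
  ∃ lam' : B →ₗ[R] R, (∀ a ∈ FxR (cw R α) Q, lam' (N.β a) = lam a) ∧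
    DFr R N.aqh lam' (fun ω : Fp Ω (tw (MonoidHom.id V) Q) => N.β (b ω.1))
      (fun ω => N.β (d ω.1))

/-- CAS: for every `g ∈ E` the sum of the `b ω * d ω` over the orbits of `1 × V` which are fixed by the elements
`(q, φ g⁻¹ q)`, `q ∈ Q`, has the same image in `A(Q)`, namely the Casimir element of `A(Q)`.

Proof.  `y`, `y'` the units for `g` (`y v = φ g (v) y`).  `V × V` acts on `Ω` also by `(u, v) * ω = (u, φ g⁻¹ v) • ω`
(call this set `Ω'`, a type synonym), and `b' ω = b ω * y'`, `d' ω = y * d ω` is a dual frame for this action: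
`b' ((u, v) * ω) = u b ω (φ g⁻¹ v)⁻¹ y' = u (b ω y') v⁻¹`; `∑ lam (y d ω a) b ω y' = (∑ lam (d ω (a y)) b ω) y' = a`.  ADR and
DRF for both frames: two relative Frobenius systems of `A(Q)` for the same form `lam'` (`lam'` is determined by
its values on the `β a`), indexed by the orbits of `1 × V` on the points which are fixed by the `(q, q)`, for the
two actions; RFU (`z = 1`).  The orbits of `1 × V` are the same for both actions, and `b' ω * d' ω = b ω * d ω`; the
sum over the orbits of `Fp` is the sum over the orbits of `Ω` which satisfy the condition (`k.rep` may be replaced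
by every other point of the orbit, as `b ω * d ω` depends only on the orbit). -/
def CasStmt : Prop := ∀ (ℓ : ℕ) [Fact ℓ.Prime] (R V E A B Ω : Type) [CommRing R] [CommGroup V]
  [Fintype V] [Group E] [Ring A] [Algebra R A] [Ring B] [Algebra R B] [Fintype Ω]
  [MulAction (V × V) Ω] (φ : E →* MulAut V) (α : V →* A) (lam : A →ₗ[R] R) (b d : Ω → A)
  (Q : Subgroup V) (N : IsAQ R α Q B), (ℓ : R) = 0 → IsPGroup ℓ V → Uni φ α →
  DFr R α lam b d →
  ∃ (lam' : B →ₗ[R] R) (K : Type) (_ : Fintype K) (x y : K → B), RF R N.aqh lam' x y ∧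
    (∀ a ∈ FxR (cw R α) Q, lam' (N.β a) = lam a) ∧
    ∀ g : E, ∑ᶠ k : {k : Qt (V := V) Ω // ∀ q ∈ Q, ((q, φ g⁻¹ q) : V × V) • k.rep = k.rep},
      N.β (b k.1.rep * d k.1.rep) = ∑ k, x k * y k

/-- AQR: the Casimir element of `A(Q)` is, up to the index of `C_E(Q)`, the image of the Casimir element of `A`.

Proof.  Frame and dual frame (DFR), CAS.  `∑ x y = ∑_(k : Qt Ω) b k.rep * d k.rep` (DRF, RFU), by QOR its image in `A(Q)`
is the sum over the orbits `k` which are fixed by `Q × 1`.  For such a `k` with stabiliser `tw (φ e) S` of `k.rep`: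
`(q, v)` fixes `k.rep` for some `v` (`qmk_eq`), so `q = φ e v`, `v = φ e⁻¹ q`: `k` satisfies the condition of CAS for
`g = e`; and it satisfies it exactly for the `g` with `φ g⁻¹ q = φ e⁻¹ q` for all `q ∈ Q` (`fr`), i.e. `g ∈ C_E(Q) e`:
`|C_E(Q)|` elements.  So `∑_(g ∈ E)` of CAS is `|C_E(Q)| β (∑ x y) = |E| ∑ x' y'`. -/
def AqrStmt : Prop := ∀ (ℓ : ℕ) [Fact ℓ.Prime] (R V E A B K : Type) [CommRing R] [CommGroup V]
  [Fintype V] [Group E] [Fintype E] [Ring A] [Algebra R A] [Ring B] [Algebra R B] [Fintype K]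
  (φ : E →* MulAut V) (α : V →* A) (lam : A →ₗ[R] R) (x y : K → A)
  (Q : Subgroup V) (N : IsAQ R α Q B), (ℓ : R) = 0 → IsPGroup ℓ V → Uni φ α → Per R φ α →
  RF R α lam x y →
  ∃ (lam' : B →ₗ[R] R) (K' : Type) (_ : Fintype K') (x' y' : K' → B), RF R N.aqh lam' x' y' ∧
    (∀ a ∈ FxR (cw R α) Q, lam' (N.β a) = lam a) ∧
    Nat.card (CE φ Q) • N.β (∑ k, x k * y k) = Nat.card E • ∑ k, x' k * y' k

/-- AQP: frame and units of `A(Q)` for `C_E(Q)`.

Proof.  As NFR, NFP in degree `1`: if `tw id Q` is contained in `tw (φ e) S` then `Q ≤ S` and `φ e q = q` for `q ∈ Q`, so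
`e ∈ C_E(Q)`. -/
def AqpStmt : Prop := ∀ (ℓ : ℕ) [Fact ℓ.Prime] (R V E A B : Type) [CommRing R] [CommGroup V]
  [Fintype V] [Group E] [Ring A] [Algebra R A] [Ring B] [Algebra R B] (φ : E →* MulAut V)
  (α : V →* A) (Q : Subgroup V) (N : IsAQ R α Q B), (ℓ : R) = 0 → IsPGroup ℓ V → Per R φ α →
  Uni φ α → Per R (φ.comp (CE φ Q).subtype) N.aqh ∧ Uni (φ.comp (CE φ Q).subtype) N.aqh

/-! ## 4. The condition on the blocks -/

/-- FTZ: a central element of a subspace without nonzero central idempotents is nilpotent.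

Proof.  Minimal polynomial of `z` over `F`: `X ^ n * q`, `q 0 ≠ 0`; `s X ^ n + r q = 1`; `e = s(z) z ^ n` is a central
idempotent in `I` (for `n = 0`: `z` is a unit, `1 = z * z⁻¹ ∈ I`, `z⁻¹` a polynomial in `z`, so `1 = 0`; or take
`n ≥ 1`), and `z ^ n = z ^ n * e = 0`. -/
def FtzStmt : Prop := ∀ (F A : Type) [Field F] [Ring A] [Algebra F A], FiniteDimensional F A →
  ∀ I : Submodule F A, (∀ z ∈ I, ∀ a, (∀ x, a * x = x * a) → a * z ∈ I) →
  (∀ e ∈ I, e * e = e → (∀ a, e * a = a * e) → e = 0) →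
  ∀ z ∈ I, (∀ a, z * a = a * z) → IsNilpotent z

/-- The local datum of a violation of `blk`: `e` is a trace from `R < V` of `m`, a central idempotent modulo
`BKR (cw) R`, invariant under `N_E(R)`, and not zero. -/
structure BadE (F : Type) {V E A : Type} [Field F] [CommGroup V] [Group E] [Ring A] [Algebra F A]
    (φ : E →* MulAut V) (α : V →* A) (R : Subgroup V) (e m : A) (S : Finset V) : Prop where
  lt : R ≠ ⊤
  fx : e ∈ FxR (cw F α) ⊤
  tv : IsTv R ⊤ S
  fm : m ∈ FxR (cw F α) R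
  tr : e = ∑ s ∈ S, cw F α s m
  id : e * e - e ∈ BKR (cw F α) R
  cn : ∀ a ∈ FxR (cw F α) R, e * a - a * e ∈ BKR (cw F α) R
  inv : ∀ g ∈ NE φ R, ∀ y y' : A, y * y' = 1 → y' * y = 1 → (∀ u, y * α u = α (φ g u) * y) →
    y * e * y' - e ∈ BKR (cw F α) R
  nb : e ∉ BKR (cw F α) R

/-- BLA: a violation of `blk` gives a local datum.

Proof.  Let `e`, `Q` be the violation.  Frame `(Ω, b, c)`.

(1) For `Q ≤ R`: `BKR (cw) Q ⊓ FxR (cw) R ≤ BKR (cw) R` (FRB for the diagonal subgroups `tw id Q ≤ tw id R`: the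
coordinates at the points fixed by `tw id R`, which are also fixed by `tw id Q`, vanish).  Choose `R ≥ Q` maximal
with `e ∉ BKR (cw) R` (`Q` is such a subgroup, `⊤` is not).  By (1), `e * e - e` and `e * a - a * e`
(`a ∈ FxR (cw) R`) are in `BKR (cw) R`, and `e ∈ BKR (cw) R'` for all `R' > R`.

(2) `N = N_E(R)`; for `h ∈ N` units `y_h`, `y_h'`, `e_h = y_h e y_h'`.  `e_h` commutes with `V`, and modulo
`BKR (cw) R` (a two-sided ideal of `FxR (cw) R`) it is a central idempotent (`x ↦ y_h x y_h'` maps `FxR (cw) R` onto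
itself and `BKR (cw) R` onto itself) which depends only on `h` (two choices of `y_h` differ by a unit of
`FxR (cw) ⊤`, and `e` is central modulo `BKR (cw) R`).  `e⁺ = 1 - ∏_(h ∈ N) (1 - e_h)` (a product in some order, over a
list): it commutes with `V`; modulo `BKR (cw) R` it is a central idempotent, `e⁺ e = e`, so `e⁺ ∉ BKR (cw) R`;
`y_h e⁺ y_h' = e⁺` for `h ∈ N` (the factors `1 - e_g` commute modulo `BKR (cw) R`, and are permuted);
`e⁺ ∈ BKR (cw) R'` for all `R' > R` (`1 - ∏ (1 - e_h)` is in the ideal generated by the `e_h` in `FxR (cw) ⊤`, and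
`e_h ∈ BKR (cw) R'` because `e ∈ BKR (cw) (φ h⁻¹ R')`, `φ h⁻¹ R' > R`).

(3) `e⁰ = ∑_(ω fixed by tw id R) c ω e⁺ • b ω` commutes with `V`, `e⁰ - e⁺ ∈ BKR (cw) R` (FRB (2)), and it is a trace
`∑_(s ∈ S) s m s⁻¹`, `m ∈ FxR (cw) R`: `V` acts on the points fixed by `tw id R` by `v ω = (v, v) • ω`, the function
`ω ↦ c ω e⁺ • b ω` is equivariant, and the points with `c ω e⁺ ≠ 0` have the stabiliser `R` in `V` (if `R' > R` fixes
`ω` then `c ω e⁺ = 0` by FRB (1) for `R'`); `m` = the sum over representatives of the `V`-orbits of these points. -/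
def BlaStmt : Prop := ∀ (ℓ : ℕ) [Fact ℓ.Prime] (F V E A : Type) [Field F] [CharP F ℓ]
  [CommGroup V] [Fintype V] [Group E] [Fintype E] [Ring A] [Algebra F A] (φ : E →* MulAut V)
  (α : V →* A), IsPGroup ℓ V → Per F φ α → Uni φ α → ∀ (Q : Subgroup V) (e : A),
  e ∈ FxR (cw F α) ⊤ → e * e - e ∈ BKR (cw F α) Q →
  (∀ a ∈ FxR (cw F α) Q, e * a - a * e ∈ BKR (cw F α) Q) →
  e ∈ BKR (cw F α) ⊤ → e ∉ BKR (cw F α) Q →
  ∃ (R : Subgroup V) (e' m : A) (S : Finset V), BadE F φ α R e' m S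

/-- BLB: a local datum gives a central element in `BKR (cw) ⊤` which is not nilpotent.

Proof.  Frame, dual frame `(Ω, b, d)` (DFR).  `B = A(R)`, `β` (AQE), `f = β e`.  `ζ = ∑ x y`, central (`RF`: for `a`,
`∑ a x_k ⊗ y_k = ∑ x_k ⊗ y_k a` over `F V`), `u ζ = 1`, `u` is central.  `z = u * ∑_(k : Qt Ω) b k.rep * e * d k.rep`: it
is central, because `e` commutes with `V` (same computation, DRF).

(1) `y e y' ∈ BKR (cw) R` for the units `y`, `y'` for `g ∉ N_E(R)`: it is the trace from `φ g R` to `V` of `y m y'`; as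
`V` is abelian, it is a sum of traces from `R ⊓ φ g R < R` to `R`.  In the same way `y e y' ∈ BKR (cw) ⊤` for all `g`.

(2) `z ∈ BKR (cw) ⊤`: QOR for `⊤`: modulo `BKR (cw) ⊤` only the orbits `k` fixed by `V × 1` contribute; the stabiliser
of `k.rep` is then `tw (φ g) ⊤`, and `b e d = (b y') (y e y') (y d)` with `b y'`, `y d` in `FxR (cw) ⊤`.

(3) QOR for `R`: `β (ζ z)` is the sum over the orbits `k` fixed by `R × 1`.  If the stabiliser of `k.rep` is
`tw (φ g) S`, then `(r, φ g⁻¹ r)` fixes `k.rep` for `r ∈ R`, `b y'` and `y d` are in `FxR (cw) R`, and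
`β (b e d) = β (b y') β (y e y') β (y d)`, which is `0` for `g ∉ N_E(R)` and `f β (b d)` for `g ∈ N_E(R)`.
`∑_(g ∈ N_E(R))` of CAS: every orbit `k` of a type in `N_E(R)` is counted `|C_E(R)|` times:
`|C_E(R)| β (ζ z) = |N_E(R)| f ζ₁`, `ζ₁ = ∑ x' y'`; `∑_(g ∈ E)` of CAS (AQR): `|C_E(R)| β ζ = |E| ζ₁`.  `β ζ` is a unit, so
`ζ₁` is, and `|E| β z = |N_E(R)| f`.  `|E|`, `|N_E(R)|` are prime to `ℓ`, `f` is an idempotent `≠ 0`: `β (z ^ n) ≠ 0`. -/
def BlbStmt : Prop := ∀ (ℓ : ℕ) [Fact ℓ.Prime] (F V E A K : Type) [Field F] [CharP F ℓ]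
  [CommGroup V] [Fintype V] [Group E] [Fintype E] [Ring A] [Algebra F A] [Fintype K]
  (φ : E →* MulAut V) (α : V →* A) (lam : A →ₗ[F] F) (x y : K → A) (u : A),
  IsPGroup ℓ V → ¬ ℓ ∣ Nat.card E → Per F φ α → Uni φ α → RF F α lam x y →
  u * ∑ k, x k * y k = 1 → ∀ (R : Subgroup V) (e m : A) (S : Finset V), BadE F φ α R e m S →
  ∃ z : A, (∀ a, z * a = a * z) ∧ z ∈ BKR (cw F α) ⊤ ∧ ¬ IsNilpotent z

/-- BLW: the condition `blk` follows from the case `Q = 1`.

Proof.  BLA, BLB, and FTZ for `I = BKR (cw F α) ⊤` (`BKR_hom` for the multiplication by a central element). -/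
def BlwStmt : Prop := ∀ (ℓ : ℕ) [Fact ℓ.Prime] (F V E A : Type) [Field F] [CharP F ℓ]
  [CommGroup V] [Fintype V] [Group E] [Fintype E] [Ring A] [Algebra F A] (φ : E →* MulAut V)
  (α : V →* A), IsPGroup ℓ V → ¬ ℓ ∣ Nat.card E → FiniteDimensional F A → Per F φ α →
  Uni φ α →
  (∃ (lam : A →ₗ[F] F) (K : Type) (_ : Fintype K) (x y : K → A), RF F α lam x y ∧
    ∃ u : A, u * ∑ k, x k * y k = 1) →
  (∀ e : A, e * e = e → (∀ a, e * a = a * e) → e ∈ BKR (cw F α) ⊤ → e = 0) →
  Cl F φ α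

/-- AQC: `A(Q)` is in the class for `C_E(Q)`.

Proof.  `fin`: `sur`.  AQP.  AQR: `ℓ` divides neither `|E|` nor `|C_E(Q)|`, and `β (∑ x y)` is a unit.  By BLW only the
idempotents `e'` of the centre of `B` in `BKR (cw) ⊤` have to be considered.  `e'` commutes with `V`; AQV: `e' = β e`,
`e ∈ FxR (cw F α) ⊤`, `e ∈ BKR (cw F α) ⊤`; `e * e - e` and `e * a - a * e` are in the kernel of `β`; `Cl.blk` gives
`e ∈ BKR (cw F α) Q`, so `e' = 0`. -/
def AqcStmt : Prop := ∀ (ℓ : ℕ) [Fact ℓ.Prime] (F V E A B : Type) [Field F] [CharP F ℓ]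
  [CommGroup V] [Fintype V] [Group E] [Fintype E] [Ring A] [Algebra F A] [Ring B] [Algebra F B]
  (φ : E →* MulAut V) (α : V →* A) (Q : Subgroup V) (N : IsAQ F α Q B),
  IsPGroup ℓ V → ¬ ℓ ∣ Nat.card E → Cl F φ α → Cl F (φ.comp (CE φ Q).subtype) N.aqh

end Pool.Agent.PSS
end
end -- Pool.Agent.PSS.StmtsS4

section -- Pool.Agent.PST.StmtsNW

/-!
# Squad PST, rows 350 - 353 (helper71): `N_W(A)` is in the class `Cl`

`A` in `Cl F φ α`, `W` an `E`-stable subgroup, `N : IsNW F α W B`, `B = N_W(A)`, `N.nwh : V →* B`.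
Then `B` is in `Cl F φ N.nwh` (NWC).  Complete proofs in the docstrings.  We write `v` for `N.nwh v`.
-/

open scoped BigOperators TensorProduct

noncomputable section

namespace Pool.Agent.PST

open Pool.Agent.PFC (tw IsTv)
open Pool.Agent.PFD.D2b (FrR)
open Pool.Agent.PSS

/-- NCG (350): the components of a fixed vector of `B` are fixed.

Proof.  `N.spn` gives `f` with sum `x`.  For `p` in `P`: `v ↦ p * v * p⁻¹` maps `β ε (f ε)` to
`β ε (p * f ε * p⁻¹)` (`N.mul` for `α p`, `f ε`, `α p⁻¹`, see `al_mem_tw`, `Fx_mul`; `1 * ε * 1 = ε`), and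
`p * f ε * p⁻¹ - f ε` is in `FxR (bw R α) (twW W ε)`.  The sum over `ε` of `β ε (p * f ε * p⁻¹ - f ε)` is
`cw p x - x = 0`, so by `N.ind` every `β ε (p * f ε * p⁻¹ - f ε)` is `0`. -/
def NcgStmt : Prop := ∀ (R V A B : Type) [CommRing R] [CommGroup V] [Finite V] [Ring A]
  [Algebra R A] [Ring B] [Algebra R B] (α : V →* A) (W : Subgroup V) (N : IsNW R α W B)
  (P : Subgroup V) (x : B), x ∈ FxR (cw R N.nwh) P →
  ∃ f : MulAut W → A, (∀ ε, f ε ∈ FxR (bw R α) (twW W ε)) ∧
    (∀ ε, N.β ε (f ε) ∈ FxR (cw R N.nwh) P) ∧ ∑ᶠ ε, N.β ε (f ε) = x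

/-- NCB (351): `B(P) = A(P)` for `P ≥ W`.

Proof.  `N.nwh` has the frame `b' (ε, ω) = β ε (b ω)`, `ω` fixed by `twW W ε`, with coordinates `c'` (row NFR of
`StmtsS4`, proved: `Pool.Agent.PSS.H45.nfr (Pool.Agent.PSS.H52.frb Pool.Agent.PSS.H85.orb)`).  The frame for `cw`
is the same with the action of `V` through `v ↦ (v, v)`.  FRB (`H52.frb`) for `cw F α`, `cw F N.nwh` and the group `P`: a vector
`m` fixed by `P` is in the Brauer kernel of `P` if and only if its coordinates at the points fixed by `P` are `0`.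
(1) The coordinate of `β 1 a` at `(1, ω)` is `c ω a`, the others are `0`; a point `ω` of `Ω` fixed by `(p, p)`, `p` in `P`,
is fixed by `twW W 1`, since `W ≤ P`.
(2) Let `(ε, ω)` be fixed by `(p, p)` for all `p` in `P ≥ W`.  For `w` in `W`, `(w, w)` and `(ε w, w)` fix `ω`, so
`(w * (ε w)⁻¹, 1)` fixes `ω`, so `ε w = w` by the hypothesis `fre`.  For `ε ≠ 1` there is no such point, so the
coordinates of `β ε a` at points fixed by `P` are `0` (its coordinates at `(δ, ω)`, `δ ≠ ε`, are `0`).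
(3) `a' = ∑ (ω fixed by twW W 1), c' (1, ω) (β 1 a) • b ω`.  The coordinates are invariant under `P'` (frame), the set of the points
fixed by `twW W 1` is stable under `V × V` (abelian), so `a'` is fixed by `P'`.  `β 1 a' = β 1 a` by the frame. -/
def NcbStmt : Prop := ∀ (ℓ : ℕ) [Fact ℓ.Prime] (F V A B Ω : Type) [Field F] [CharP F ℓ]
  [CommGroup V] [Fintype V] [Ring A] [Algebra F A] [Ring B] [Algebra F B] [Fintype Ω]
  [MulAction (V × V) Ω] (α : V →* A) (b : Ω → A) (c : Ω → (A →ₗ[F] F)) (W P : Subgroup V)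
  (N : IsNW F α W B), IsPGroup ℓ V → FrR (bw F α) b c →
  (∀ (u : V) (ω : Ω), ((u, 1) : V × V) • ω = ω → u = 1) → W ≤ P →
  (∀ a ∈ FxR (cw F α) P, N.β 1 a ∈ BKR (cw F N.nwh) P ↔ a ∈ BKR (cw F α) P) ∧
  (∀ ε : MulAut W, ε ≠ 1 → ∀ a ∈ FxR (bw F α) (twW W ε), N.β ε a ∈ FxR (cw F N.nwh) P →
    N.β ε a ∈ BKR (cw F N.nwh) P) ∧
  (∀ a ∈ FxR (bw F α) (twW W (1 : MulAut W)), N.β 1 a ∈ FxR (cw F N.nwh) P →
    ∃ a' ∈ FxR (cw F α) P, N.β 1 a' = N.β 1 a)

/-- NCN (352): an idempotent of `B(Q)` which vanishes in `B(QW)` is `0`.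

Proof.  `I n` = the span of `(w₁ - 1) * .. * (w_n - 1) * y`, `w_i` in `W`, `y` in `FxR (cw) Q` (as a submodule:
`Submodule.span F {x | ∃ (l : List W) (y : B), l.length = n ∧ y ∈ FxR (cw F N.nwh) Q ∧
x = (l.map (fun w => N.nwh w - 1)).prod * y}`).
(a) `I n * I m ≤ I (n + m)`: for `y` in `FxR Q`, NCG (`P = Q`) writes `y = ∑ β ε (f ε)` with components `y_ε` in `FxR Q`, and
`y_ε * w = ε w * y_ε` (as `f ε` is in `FxR (bw F α) (twW W ε)`, `mem_tw`), so `y * (w - 1) = ∑ (ε w - 1) * y_ε`.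
(b) `I n = 0` for large `n`: `(w - 1) ^ |V| = w ^ |V| - 1 = 0` in characteristic `ℓ` (`|V|` is a power of `ℓ`), the
elements `w - 1` commute, so a product of `|W| * |V|` of them is `0` (pigeonhole; or: the ideal of the commutative
algebra `MonoidAlgebra F W` generated by the finitely many nilpotent elements `w - 1` is nilpotent).
(c) `x` is in `I 1 + BKR (cw) Q`: `x` is a sum of traces `∑ (s ∈ S) s * y * s⁻¹`, `S` a transversal of `T < Q ⊔ W` in
`Q ⊔ W`, `y` in `FxR (cw) T`.  If `Q ≤ T`: every element of `Q ⊔ W` is `q * w`, so `s = w_s` modulo `Q ≤ T`: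
`s * y * s⁻¹ = w_s * y * w_s⁻¹`, which is congruent to `y` modulo `I 1` (`(w - 1) y w⁻¹ + y (w⁻¹ - 1)`, (a) for `m = 0`), so the trace
is congruent to `|S| • y = 0`, `ℓ ∣ |S|`.  If `Q` is not contained in `T`: the trace from `T` to `Q ⊔ W` is the trace from `T ⊔ Q` to `Q ⊔ W` of the trace
from `T` to `T ⊔ Q`, which is the trace from `T ⊓ Q < Q` to `Q` of `y`, an element of `BKR (cw) Q`; and `BKR (cw) Q` is stable
under conjugation by `V` (`V` is abelian).  (Cleaner: restrict `cw` to `Q`, use that the set `Q ⊔ W / T` decomposes into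
`Q`-orbits `≅ Q / (Q ⊓ T)`.)
(d) `BKR (cw) Q` is an ideal of `FxR (cw) Q` (`BK_mulL`, `BK_mulR` with `ε = δ = 1` for the group `Q`, `BKR_tw`), `x` is
congruent to `x ^ n` modulo `BKR (cw) Q`, and `x ^ n` is in `I n + BKR (cw) Q` by (a), so for large `n` in `BKR (cw) Q`. -/
def NcnStmt : Prop := ∀ (ℓ : ℕ) [Fact ℓ.Prime] (F V A B : Type) [Field F] [CharP F ℓ]
  [CommGroup V] [Fintype V] [Ring A] [Algebra F A] [Ring B] [Algebra F B]
  (α : V →* A) (W Q : Subgroup V) (N : IsNW F α W B) (x : B), IsPGroup ℓ V →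
  x ∈ FxR (cw F N.nwh) Q → x * x - x ∈ BKR (cw F N.nwh) Q → x ∈ BKR (cw F N.nwh) (Q ⊔ W) →
  x ∈ BKR (cw F N.nwh) Q

/-- NWC (353): `N_W(A)` is in the class.

Proof.  `fin`: `N.spn` (`MulAut W` is finite), `per`, `uni`: row NFP (`Pool.Agent.PSS.H79.nfp`), `rt`: row NRF
(`Pool.Agent.PSS.H77N.nrf`): the Casimir element of `B` is `β 1 ζ`, `ζ = ∑ x y` is central in `A` and has the inverse `u`,
so `β 1 u * β 1 ζ = β 1 (u ζ) = 1` (all are in `FxR (bw) (twW W 1)`).
`blk`: let `e` be as in `blk` for `B` and `Q`, `e` in `BKR (cw) ⊤`; `P = Q ⊔ W`.  By NCG (`P := ⊤`) `e = ∑ β ε (f ε)` with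
components `e_ε` in `FxR (cw) ⊤`; for `ε ≠ 1`, `e_ε` is in `BKR (cw) P` and in `BKR (cw) ⊤` (NCB (2) for `P` and for `⊤`).  NCB (3) for
`⊤`: `e_1 = β 1 g`, `g` in `FxR (cw F α) ⊤`.  So `β 1 g` is in `BKR (cw) ⊤`, hence `g` is in `BKR (cw F α) ⊤` (NCB (1) for `⊤`).
`e * e - e` is in `BKR (cw) Q ∩ FxR (cw) P ≤ BKR (cw) P` (coordinates: FRB; a point fixed by `P` is fixed by `Q`), so `β 1 (g * g - g)` is in
`BKR (cw) P` (`BKR (cw) P` is an ideal of `FxR (cw) P`), so `g * g - g` is in `BKR (cw F α) P`.  For `a` in `FxR (cw F α) P`, `β 1 a` is in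
`FxR (cw) P ≤ FxR (cw) Q`, so `e * β 1 a - β 1 a * e` is in `BKR (cw) Q ∩ FxR (cw) P ≤ BKR (cw) P`, so `g * a - a * g` is in
`BKR (cw F α) P`.  `blk` for `A` and `P`: `g` is in `BKR (cw F α) P`, so `e_1` and `e` are in `BKR (cw) P`.  NCN: `e` is in
`BKR (cw) Q`. -/
def NwcStmt : Prop := ∀ (ℓ : ℕ) [Fact ℓ.Prime] (F V E A B : Type) [Field F] [CharP F ℓ]
  [CommGroup V] [Fintype V] [Group E] [Ring A] [Algebra F A] [Ring B] [Algebra F B]
  (φ : E →* MulAut V) (α : V →* A) (W : Subgroup V) (N : IsNW F α W B), IsPGroup ℓ V →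
  (∀ e : E, ∀ w ∈ W, φ e w ∈ W) → Cl F φ α → Cl F φ N.nwh

end Pool.Agent.PST
end
end -- Pool.Agent.PST.StmtsNW

section -- Pool.Agent.Helper52_PSS.FRB

/-!
# Squad PSS, row FRB: frames and Brauer kernels in characteristic `ℓ`
-/

set_option autoImplicit false

open scoped BigOperators TensorProduct

noncomputable section

namespace Pool.Agent.PSS.H52

open Pool.Agent.PSS
open Pool.Agent.PFC (tw IsTv)
open Pool.Agent.PFD.D2b (FrR)

theorem card_tv {H : Type} [Group H] (P' P : Subgroup H) (hle : P' ≤ P)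
    (S : Finset H) (hS : IsTv P' P S) : S.card * Nat.card P' = Nat.card P := by
  classical
  have hb : Function.Bijective (fun z : S × P' =>
      (⟨(z.1 : H) * (z.2 : H), P.mul_mem (hS.1 _ z.1.2) (hle z.2.2)⟩ : P)) := by
    constructor
    · rintro ⟨⟨s, hs⟩, ⟨q, hq⟩⟩ ⟨⟨s', hs'⟩, ⟨q', hq'⟩⟩ h
      simp only [Subtype.mk.injEq] at h
      have hp : s * q ∈ P := P.mul_mem (hS.1 _ hs) (hle hq)
      obtain ⟨t, -, ht⟩ := hS.2 (s * q) hp
      have h1 : s = t := ht s ⟨hs, by simpa using hq⟩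
      have h2 : s' = t := ht s' ⟨hs', by rw [h]; simpa using hq'⟩
      have h3 : s = s' := h1.trans h2.symm
      subst h3
      have h4 : q = q' := mul_left_cancel h
      subst h4
      rfl
    · intro p
      obtain ⟨s, ⟨hs, hs2⟩, -⟩ := hS.2 p p.2
      exact ⟨(⟨s, hs⟩, ⟨_, hs2⟩), Subtype.ext (by simp)⟩
  have := Nat.card_congr (Equiv.ofBijective _ hb)
  rw [Nat.card_prod, Nat.card_eq_fintype_card, Fintype.card_coe] at this
  exact this

theorem card_tv_zero (ℓ : ℕ) [Fact ℓ.Prime] {R H : Type} [CommRing R] [Group H] (hR : (ℓ : R) = 0)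
    {K Q : Subgroup H} [Finite Q] (hQ : IsPGroup ℓ Q) (hlt : K < Q) {S : Finset H}
    (hS : IsTv K Q S) : (S.card : R) = 0 := by
  have hc := card_tv K Q hlt.le S hS
  obtain ⟨k, hk⟩ := (IsPGroup.iff_card).1 hQ
  have hdiv : S.card ∣ ℓ ^ k := ⟨_, by rw [← hk]; exact hc.symm⟩
  obtain ⟨j, -, hj⟩ := (Nat.dvd_prime_pow (Fact.out : ℓ.Prime)).1 hdiv
  rcases Nat.eq_zero_or_pos j with h0 | h0
  · exfalso
    rw [h0, pow_zero] at hj
    rw [hj, one_mul] at hc
    have hfin : (Q : Set H).Finite := Set.toFinite _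
    apply hlt.ne
    apply SetLike.coe_injective
    refine Set.eq_of_subset_of_ncard_le hlt.le ?_ hfin
    have h1 : (K : Set H).ncard = Nat.card K := rfl
    have h2 : (Q : Set H).ncard = Nat.card Q := rfl
    rw [h1, h2, hc]
  · rw [hj, Nat.cast_pow, hR, zero_pow h0.ne']

theorem frb (orb : OrbStmt) : FrbStmt := by
  classical
  intro ℓ _ R H M Ω _ _ _ _ _ _ ρ b c P hR hP hfin hfr
  obtain ⟨fb, fc, fs⟩ := hfr
  constructor
  · intro ω hω m hm
    unfold BKR at hm
    induction hm using Submodule.span_induction with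
    | mem n hn =>
      obtain ⟨P', S, m', hlt, hS, hm', rfl⟩ := hn
      rw [map_sum]
      have h1 : ∀ x ∈ S, c ω (ρ x m') = c ω m' := by
        intro x hx
        have h2 : x • ω = ω := hω (hS.1 x hx)
        conv_lhs => rw [← h2]
        exact fc x ω m'
      rw [Finset.sum_congr rfl h1, Finset.sum_const, nsmul_eq_mul, card_tv_zero ℓ hR hP hlt hS,
        zero_mul]
    | zero => exact map_zero _
    | add a b _ _ ha hb => rw [map_add, ha, hb, add_zero]
    | smul r a _ ha => rw [map_smul, ha, smul_zero]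
  · intro m hm
    have h1 : ∀ (p : P) (ω : Ω), c (p • ω) m • b (p • ω) =
        (ρ.comp P.subtype) p (c ω m • b ω) := by
      intro p ω
      have h2 : (p • ω : Ω) = (p : H) • ω := rfl
      have h3 : c ((p : H) • ω) m = c ω m := by
        have h4 : ρ (p : H) m = m := hm p p.2
        conv_lhs => rw [← h4]
        exact fc (p : H) ω m
      rw [h2, h3, fb, map_smul]
      rfl
    obtain ⟨f, hf⟩ : ∃ f : Ω → M, ∀ ω, f ω = c ω m • b ω := ⟨fun ω => c ω m • b ω, fun _ => rfl⟩
    have h5 : ∑ k, f k - ∑ k : Fp Ω (⊤ : Subgroup P), f k.1 ∈ BKR (ρ.comp P.subtype) ⊤ := by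
      apply orb R P Ω M (ρ.comp P.subtype) f
      intro p ω
      rw [hf, hf]
      exact h1 p ω
    have h6 : ∑ k, f k = m := by
      rw [Finset.sum_congr rfl fun ω _ => hf ω]
      exact fs m
    have h7 : (∑ k : Fp Ω (⊤ : Subgroup P), f k.1 : M) = ∑ ω : Fp Ω P, f ω.1 := by
      obtain ⟨g, hg⟩ : ∃ g : Fp Ω (⊤ : Subgroup P) → Fp Ω P, ∀ k, (g k).1 = k.1 :=
        ⟨fun k => ⟨k.1, fun p hp => k.2 (Subgroup.mem_top (⟨p, hp⟩ : P))⟩, fun _ => rfl⟩
      have hbij : Function.Bijective g := by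
        constructor
        · intro k k' h
          apply Subtype.ext
          rw [← hg, ← hg, h]
        · intro k
          refine ⟨⟨k.1, fun p _ => k.2 p.2⟩, Subtype.ext ?_⟩
          rw [hg]
      exact Fintype.sum_bijective g hbij (fun k => f k.1) (fun ω => f ω.1)
        (fun k => by rw [hg])
    have h8 : BKR (ρ.comp P.subtype) ⊤ = BKR ρ P := by
      have := BKR_range ρ (f := P.subtype) P.subtype_injective
      rw [Subgroup.range_subtype] at this
      exact this.symm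
    rw [h6, h7, h8] at h5
    have h9 : (∑ ω : Fp Ω P, c ω.1 m • b ω.1 : M) = ∑ ω : Fp Ω P, f ω.1 :=
      Finset.sum_congr rfl fun ω _ => (hf ω.1).symm
    rw [h9]
    exact h5

end Pool.Agent.PSS.H52
end
end -- Pool.Agent.Helper52_PSS.FRB

section -- Pool.Agent.Helper45_PSS.NFR

/-!
# Squad PSS, row NFR: the frame of `N_W(A)`
-/

open scoped BigOperators TensorProduct

noncomputable section

namespace Pool.Agent.PSS.H45

open Pool.Agent.PFC (tw IsTv)
open Pool.Agent.PFD.D2b (FrR)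

theorem sum_inst {ι M : Type} [AddCommMonoid M] (i1 i2 : Fintype ι) (F : ι → M) :
    @Finset.sum ι M _ (@Finset.univ ι i1) F = @Finset.sum ι M _ (@Finset.univ ι i2) F := by
  rw [Subsingleton.elim i1 i2]

section

variable {R V A B : Type} [CommRing R] [CommGroup V] [Ring A] [Algebra R A] [Ring B] [Algebra R B]
  {α : V →* A} {W : Subgroup V}

/-- two linear maps which agree on the homogeneous elements are equal -/
theorem ext_lin [Finite V] (N : IsNW R α W B) {M : Type} [AddCommGroup M] [Module R M]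
    (L L' : B →ₗ[R] M)
    (h : ∀ δ, ∀ a ∈ FxR (bw R α) (twW W δ), L (N.β δ a) = L' (N.β δ a)) (x : B) : L x = L' x := by
  have : Finite (MulAut W) := Finite.of_injective (fun f => (f : W → W)) DFunLike.coe_injective
  have : Fintype (MulAut W) := Fintype.ofFinite _
  obtain ⟨f, hf, rfl⟩ := N.spn x
  rw [finsum_eq_sum_of_fintype, map_sum, map_sum]
  exact Finset.sum_congr rfl fun ε _ => h ε (f ε) (hf ε)

theorem tw_pg {ℓ : ℕ} [Finite V] (hV : IsPGroup ℓ V) (ε : MulAut W) :
    IsPGroup ℓ (twW W ε) := by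
  rw [twW_eq]
  exact (hV.to_subgroup W).of_surjective (tm W ε).rangeRestrict
    (tm W ε).rangeRestrict_surjective

theorem bw_apply (h : V × V) (a : A) : bw R α h a = α h.1 * (a * α h.2⁻¹) := rfl

theorem bw_Fx (h : V × V) {δ : MulAut W} {a : A} (ha : a ∈ FxR (bw R α) (twW W δ)) :
    bw R α h a ∈ FxR (bw R α) (twW W δ) := by
  intro p hp
  rw [← Module.End.mul_apply, ← map_mul, mul_comm, map_mul, Module.End.mul_apply, ha p hp]

theorem bw_nw (N : IsNW R α W B) (h : V × V) {δ : MulAut W} {a : A}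
    (ha : a ∈ FxR (bw R α) (twW W δ)) :
    bw R N.nwh h (N.β δ a) = N.β δ (bw R α h a) := by
  rw [bw_apply, bw_apply, N.nwh_apply, N.nwh_apply]
  have h1 := N.mul δ 1 a ha (α h.2⁻¹) (al_mem_tw h.2⁻¹ W)
  rw [mul_one] at h1
  have h3 := Fx_mul α W δ 1 ha (al_mem_tw (R := R) (α := α) h.2⁻¹ W)
  rw [mul_one] at h3
  have h2 := N.mul 1 δ (α h.1) (al_mem_tw h.1 W) (a * α h.2⁻¹) h3
  rw [one_mul] at h2
  rw [h2, h1]

end

theorem nfr (frb : FrbStmt) : NfrStmt := by
  intro ℓ _ R V A B Ω _ _ _ _ _ _ _ _ _ α b c W N _ hℓ hV hF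
  classical
  have : Finite (MulAut W) := Finite.of_injective (fun f => (f : W → W)) DFunLike.coe_injective
  have : Fintype (MulAut W) := Fintype.ofFinite _
  obtain ⟨g, hg, hk, hs⟩ := N.exists_hom
  have hfrb := fun ε : MulAut W => frb ℓ R (V × V) A Ω (bw R α) b c (twW W ε) hℓ (tw_pg hV ε)
    inferInstance hF
  -- the functional on the graded algebra
  obtain ⟨L, hL⟩ : ∃ L : (Σ ε : MulAut W, Fp Ω (twW W ε)) → (gsub R α W →ₗ[R] R),
      ∀ t f, L t f = c t.2.1 (f.1.coeff t.1) := by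
    refine ⟨fun t =>
      { toFun := fun f => c t.2.1 (f.1.coeff t.1)
        map_add' := ?_
        map_smul' := ?_ }, fun t f => rfl⟩
    · intro f h
      rw [← map_add]
      rfl
    · intro r f
      rw [RingHom.id_apply, ← map_smul]
      rfl
  have hL0 : ∀ t f, g f = 0 → L t f = 0 := by
    intro t f hf
    rw [hL]
    exact (hfrb t.1).1 t.2.1 t.2.2 _ ((hk f).1 hf t.1)
  have hLe : ∀ t f f', g f = g f' → L t f = L t f' := by
    intro t f f' h
    have h1 : L t (f - f') = 0 := hL0 t _ (by rw [map_sub, h, sub_self])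
    rw [map_sub] at h1
    exact sub_eq_zero.1 h1
  have hsi : ∀ x, g (Function.surjInv hg x) = x := Function.surjInv_eq hg
  obtain ⟨c', hc'⟩ : ∃ c' : (Σ ε : MulAut W, Fp Ω (twW W ε)) → (B →ₗ[R] R),
      ∀ t f, c' t (g f) = L t f := by
    refine ⟨fun t =>
      { toFun := fun x => L t (Function.surjInv hg x)
        map_add' := ?_
        map_smul' := ?_ }, fun t f => hLe t _ _ (hsi _)⟩
    · intro x y
      rw [← map_add]
      exact hLe t _ _ (by rw [hsi, map_add, hsi, hsi])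
    · intro r x
      rw [RingHom.id_apply, ← map_smul]
      exact hLe t _ _ (by rw [hsi, map_smul, hsi])
  have h1 : ∀ t, ∀ a ∈ FxR (bw R α) (twW W t.1), c' t (N.β t.1 a) = c t.2.1 a := by
    intro t a ha
    rw [← hs t.1 ⟨a, ha⟩, hc', hL]
    change c t.2.1 ((MonoidAlgebra.single t.1 a).coeff t.1) = _
    rw [MonoidAlgebra.coeff_single, Finsupp.single_eq_same]
  have h2 : ∀ t δ, δ ≠ t.1 → ∀ a ∈ FxR (bw R α) (twW W δ), c' t (N.β δ a) = 0 := by
    intro t δ hδ a ha
    rw [← hs δ ⟨a, ha⟩, hc', hL]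
    change c t.2.1 ((MonoidAlgebra.single δ a).coeff t.1) = _
    rw [MonoidAlgebra.coeff_single, Finsupp.single_apply, if_neg hδ, map_zero]
  have hb : ∀ t : (Σ ε : MulAut W, Fp Ω (twW W ε)), b t.2.1 ∈ FxR (bw R α) (twW W t.1) := by
    intro t p hp
    rw [← hF.1, show p • t.2.1 = t.2.1 from t.2.2 hp]
  refine ⟨c', h1, h2, ?_, ?_, ?_⟩
  · intro h t
    change N.β t.1 (b (h • t.2.1)) = _
    rw [hF.1, bw_nw N h (hb t)]
  · intro h t m
    have key := ext_lin N ((c' (h • t)).comp (bw R N.nwh h)) (c' t) ?_ m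
    · exact key
    · intro δ a ha
      rw [LinearMap.comp_apply, bw_nw N h ha]
      by_cases hδ : δ = t.1
      · subst hδ
        rw [h1 t a ha]
        exact (h1 (h • t) (bw R α h a) (bw_Fx h ha)).trans (hF.2.1 h t.2.1 a)
      · rw [h2 t δ hδ a ha]
        exact h2 (h • t) δ hδ _ (bw_Fx h ha)
  · intro m
    have key := ext_lin N (∑ t : (Σ ε : MulAut W, Fp Ω (twW W ε)),
      (c' t).smulRight (N.β t.1 (b t.2.1))) LinearMap.id ?_ m
    · rw [LinearMap.sum_apply] at key
      exact key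
    · intro δ a ha
      rw [LinearMap.sum_apply, LinearMap.id_apply]
      have h3 : ∀ t : (Σ ε : MulAut W, Fp Ω (twW W ε)),
          ((c' t).smulRight (N.β t.1 (b t.2.1))) (N.β δ a) =
            c' t (N.β δ a) • N.β t.1 (b t.2.1) := fun t => rfl
      rw [Finset.sum_congr rfl fun t _ => h3 t, sum_inst _ Sigma.instFintype,
        Fintype.sum_sigma, Finset.sum_eq_single δ]
      · have h4 : ∀ ω : Fp Ω (twW W δ), c' ⟨δ, ω⟩ (N.β δ a) • N.β δ (b ω.1) =
            N.β δ (c ω.1 a • b ω.1) := by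
          intro ω
          rw [h1 ⟨δ, ω⟩ a ha, map_smul]
        rw [Finset.sum_congr rfl fun ω _ => h4 ω, ← map_sum]
        have h5 := (hfrb δ).2 a ha
        have h6 := (N.ker δ _ (BKR_le_FxR h5)).2 h5
        rw [map_sub] at h6
        exact (sub_eq_zero.1 h6).symm
      · intro ε _ hε
        refine Finset.sum_eq_zero fun ω _ => ?_
        rw [h2 ⟨ε, ω⟩ δ (Ne.symm hε) a ha, zero_smul]
      · intro h
        exact absurd (Finset.mem_univ δ) h

end Pool.Agent.PSS.H45
end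
end -- Pool.Agent.Helper45_PSS.NFR

section -- Pool.Agent.Helper85_PSS.ORB

/-! Squad PSS, row ORB (400). -/

set_option autoImplicit false

namespace Pool.Agent.PSS.H85

open Pool.Agent.PFC (tw IsTv)

/-- the sum over the orbit of a point which is not fixed -/
theorem orbit_sum {R P K M : Type} [CommRing R] [Group P] [Fintype K] [DecidableEq K]
    [MulAction P K] [AddCommGroup M] [Module R M] (ρ : P →* (M →ₗ[R] M)) (f : K → M)
    (hf : ∀ p k, f (p • k) = ρ p (f k)) (k0 : K)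
    (hk : ¬ (⊤ : Subgroup P) ≤ MulAction.stabilizer P k0) (s : Finset K)
    (hs : ∀ k, k ∈ s ↔ ∃ p : P, p • k0 = k) : ∑ k ∈ s, f k ∈ BKR ρ ⊤ := by
  classical
  have h1 : ∀ k, ∃ p : P, k ∈ s → p • k0 = k := by
    intro k
    by_cases hks : k ∈ s
    · obtain ⟨p, hp⟩ := (hs k).1 hks
      exact ⟨p, fun _ => hp⟩
    · exact ⟨1, fun h => absurd h hks⟩
  choose x hx using h1
  refine Submodule.subset_span ⟨MulAction.stabilizer P k0, s.image x, f k0, ?_, ?_, ?_, ?_⟩
  · exact lt_of_le_of_ne le_top fun h => hk (le_of_eq h.symm)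
  · refine ⟨fun _ _ => Subgroup.mem_top _, fun p _ => ?_⟩
    have hps : p • k0 ∈ s := (hs _).2 ⟨p, rfl⟩
    refine ⟨x (p • k0), ⟨Finset.mem_image_of_mem x hps, ?_⟩, ?_⟩
    · rw [MulAction.mem_stabilizer_iff, mul_smul, inv_smul_eq_iff, hx _ hps]
    · rintro y ⟨hy, hy2⟩
      obtain ⟨k, hks, rfl⟩ := Finset.mem_image.1 hy
      rw [MulAction.mem_stabilizer_iff, mul_smul, inv_smul_eq_iff, hx _ hks] at hy2
      rw [hy2]
  · intro p hp
    rw [MulAction.mem_stabilizer_iff] at hp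
    rw [← hf, hp]
  · rw [Finset.sum_image]
    · refine Finset.sum_congr rfl fun k hks => ?_
      rw [← hf, hx k hks]
    · intro a ha b hb hab
      rw [← hx a ha, ← hx b hb, hab]

theorem orb : OrbStmt := by
  intro R P K M _ _ _ _ _ _ _ ρ f hf
  classical
  have h1 : ∑ k : Fp K (⊤ : Subgroup P), f k.1 =
      ∑ k ∈ Finset.univ.filter (fun k : K => (⊤ : Subgroup P) ≤ MulAction.stabilizer P k), f k := by
    symm
    refine Finset.sum_bij' (fun k hk => (⟨k, (Finset.mem_filter.1 hk).2⟩ : Fp K (⊤ : Subgroup P)))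
      (fun k _ => k.1) ?_ ?_ ?_ ?_ ?_
    · intro k _
      exact Finset.mem_univ _
    · intro k _
      exact Finset.mem_filter.2 ⟨Finset.mem_univ _, k.2⟩
    · intro k _
      rfl
    · intro k _
      rfl
    · intro k _
      rfl
  rw [h1, ← Finset.sum_filter_add_sum_filter_not Finset.univ
    (fun k : K => (⊤ : Subgroup P) ≤ MulAction.stabilizer P k) f, add_sub_cancel_left,
    ← Finset.sum_fiberwise _ (fun k => (Quotient.mk (MulAction.orbitRel P K) k)) f]
  refine Submodule.sum_mem _ fun q _ => ?_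
  by_cases hq : ∃ k0, ¬ (⊤ : Subgroup P) ≤ MulAction.stabilizer P k0 ∧
      Quotient.mk (MulAction.orbitRel P K) k0 = q
  · obtain ⟨k0, hk0, rfl⟩ := hq
    refine orbit_sum ρ f hf k0 hk0 _ fun k => ?_
    rw [Finset.mem_filter, Finset.mem_filter]
    constructor
    · rintro ⟨_, h⟩
      have h2 : (MulAction.orbitRel P K).r k k0 := Quotient.exact h
      exact h2
    · rintro ⟨p, rfl⟩
      refine ⟨⟨Finset.mem_univ _, fun h => hk0 fun g _ => ?_⟩, Quotient.sound ⟨p, rfl⟩⟩
      have h3 : p * g * p⁻¹ ∈ MulAction.stabilizer P (p • k0) := h (Subgroup.mem_top _)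
      rw [MulAction.mem_stabilizer_iff, mul_smul, inv_smul_smul, mul_smul] at h3
      rw [MulAction.mem_stabilizer_iff]
      exact smul_left_cancel p h3
  · rw [Finset.filter_eq_empty_iff.2, Finset.sum_empty]
    · exact Submodule.zero_mem _
    · intro k hk h
      exact hq ⟨k, (Finset.mem_filter.1 hk).2, h⟩

end Pool.Agent.PSS.H85
end -- Pool.Agent.Helper85_PSS.ORB

section -- Pool.Agent.Helper15_PST.NCB

/-!
# Squad PST, row NCB: `B(P) = A(P)` for `P ≥ W`
-/

open scoped BigOperators TensorProduct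

noncomputable section

namespace Pool.Agent.PST.H15

open Pool.Agent.PFC (tw IsTv)
open Pool.Agent.PFD.D2b (FrR)
open Pool.Agent.PSS Pool.Agent.PST

/-- the diagonal -/
def dg (V : Type) [CommGroup V] : V →* V × V := (MonoidHom.id V).prod (MonoidHom.id V)

theorem dg_inj (V : Type) [CommGroup V] : Function.Injective (dg V) := fun _ _ h =>
  congrArg Prod.fst h

theorem cw_dg {R V A : Type} [CommRing R] [CommGroup V] [Ring A] [Algebra R A] (α : V →* A) :
    cw R α = (bw R α).comp (dg V) := rfl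

/-- the Brauer kernel in terms of the coordinates at the fixed points -/
theorem bk_iff {ℓ : ℕ} [Fact ℓ.Prime] {F V A Ω : Type} [Field F] [CharP F ℓ] [CommGroup V]
    [Fintype V] [Ring A] [Algebra F A] [Fintype Ω] [MulAction (V × V) Ω] (α : V →* A)
    {b : Ω → A} {c : Ω → (A →ₗ[F] F)} (hV : IsPGroup ℓ V) (hf : FrR (bw F α) b c)
    (P : Subgroup V) {a : A} (ha : a ∈ FxR (cw F α) P) :
    a ∈ BKR (cw F α) P ↔ ∀ ω, P.map (dg V) ≤ MulAction.stabilizer (V × V) ω → c ω a = 0 := by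
  have hℓ : (ℓ : F) = 0 := CharP.cast_eq_zero F ℓ
  have hP : IsPGroup ℓ (P.map (dg V)) := (hV.to_subgroup P).map (dg V)
  obtain ⟨h1, h2⟩ := H52.frb H85.orb ℓ F (V × V) A Ω (bw F α) b c (P.map (dg V)) hℓ hP
    inferInstance hf
  rw [cw_dg, ← FxR_map] at ha
  rw [cw_dg, ← BKR_map _ (dg_inj V)]
  constructor
  · intro h ω hω
    exact h1 ω hω a h
  · intro h
    have h3 := h2 a ha
    rwa [Finset.sum_eq_zero (fun ω _ => by rw [h ω.1 ω.2, zero_smul]), sub_zero] at h3

theorem ncb : NcbStmt := by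
  intro ℓ _ F V A B Ω _ _ _ _ _ _ _ _ _ _ α b c W P N hV hf hfre hWP
  classical
  have : Finite (MulAut W) := Finite.of_injective (fun f => (f : W → W)) DFunLike.coe_injective
  haveI : Fintype (MulAut W) := Fintype.ofFinite _
  have hℓ : (ℓ : F) = 0 := CharP.cast_eq_zero F ℓ
  obtain ⟨c', hc1, hc2, hf'⟩ := H45.nfr (H52.frb H85.orb) ℓ F V A B Ω α b c W N hℓ hV hf
  have hst : ∀ t : (Σ ε : MulAut W, Fp Ω (twW W ε)), P.map (dg V) ≤ MulAction.stabilizer (V × V) t →
      P.map (dg V) ≤ MulAction.stabilizer (V × V) t.2.1 := by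
    rintro ⟨ε, ω⟩ h p hp
    have h1 : p • (⟨ε, ω⟩ : Σ ε : MulAut W, Fp Ω (twW W ε)) = ⟨ε, ω⟩ := h hp
    have h2 : (⟨ε, p • ω⟩ : Σ ε : MulAut W, Fp Ω (twW W ε)) = ⟨ε, ω⟩ := h1
    have h3 : p • ω = ω := eq_of_heq (Sigma.mk.inj_iff.1 h2).2
    exact congrArg (fun x : Fp Ω (twW W ε) => x.1) h3
  have hst' : ∀ t : (Σ ε : MulAut W, Fp Ω (twW W ε)),
      P.map (dg V) ≤ MulAction.stabilizer (V × V) t.2.1 →
      P.map (dg V) ≤ MulAction.stabilizer (V × V) t := by
    rintro ⟨ε, ω⟩ h p hp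
    have h1 : p • ω.1 = ω.1 := h hp
    have h3 : p • ω = ω := Subtype.ext h1
    change (⟨ε, p • ω⟩ : Σ ε : MulAut W, Fp Ω (twW W ε)) = ⟨ε, ω⟩
    rw [h3]
  have htw1 : ∀ ω : Ω, P.map (dg V) ≤ MulAction.stabilizer (V × V) ω →
      twW W 1 ≤ MulAction.stabilizer (V × V) ω := by
    rintro ω h _ ⟨w, rfl⟩
    exact h ⟨(w : V), hWP w.2, rfl⟩
  have hFx : ∀ a, a ∈ FxR (cw F α) P → a ∈ FxR (bw F α) (twW W (1 : MulAut W)) := by
    intro a ha
    rw [mem_tw]
    intro w
    rw [mem_cw] at ha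
    exact ha w (hWP w.2)
  refine ⟨?_, ?_, ?_⟩
  · intro a ha
    have ha1 := hFx a ha
    have hb : N.β 1 a ∈ FxR (cw F N.nwh) P := by
      intro p hp
      have h1 := H45.bw_nw N (p, p) ha1
      change bw F N.nwh (p, p) (N.β 1 a) = N.β 1 a
      rw [h1]
      exact congrArg (N.β 1) (ha p hp)
    rw [bk_iff N.nwh hV hf' P hb, bk_iff α hV hf P ha]
    constructor
    · intro h ω hω
      have h1 := h ⟨1, ⟨ω, htw1 ω hω⟩⟩ (hst' _ hω)
      have h2 := hc1 ⟨1, ⟨ω, htw1 ω hω⟩⟩ a ha1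
      rw [h2] at h1
      exact h1
    · rintro h ⟨ε, ω⟩ ht
      by_cases hε : ε = 1
      · subst hε
        have h2 := hc1 ⟨1, ω⟩ a ha1
        rw [h2]
        exact h ω.1 (hst ⟨1, ω⟩ ht)
      · exact hc2 ⟨ε, ω⟩ 1 (fun h => hε h.symm) a ha1
  · intro ε hε a ha hb
    rw [bk_iff N.nwh hV hf' P hb]
    rintro ⟨δ, ω⟩ ht
    by_cases hδ : ε = δ
    · exfalso
      subst hδ
      apply hε
      have h1 := hst ⟨ε, ω⟩ ht
      ext w
      have h2 : ((w : V), (w : V)) • ω.1 = ω.1 := h1 ⟨(w : V), hWP w.2, rfl⟩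
      have h3 : (((ε w : W) : V), (w : V)) • ω.1 = ω.1 := ω.2 ⟨w, rfl⟩
      have h4 : ((((w : V)⁻¹ * ((ε w : W) : V)), (1 : V)) : V × V) • ω.1 = ω.1 := by
        have e : ((((w : V)⁻¹ * ((ε w : W) : V)), (1 : V)) : V × V) =
            ((w : V), (w : V))⁻¹ * (((ε w : W) : V), (w : V)) := by
          ext
          · rfl
          · exact (inv_mul_cancel (w : V)).symm
        rw [e, ← smul_smul, h3]
        exact inv_smul_eq_iff.2 h2.symm
      have h5 := hfre _ _ h4
      have h6 : ((ε w : W) : V) = w := by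
        have h7 := congrArg (fun x => (w : V) * x) h5
        simp only [mul_inv_cancel_left, mul_one] at h7
        exact h7
      exact h6
    · exact hc2 ⟨δ, ω⟩ ε hδ a ha
  · intro a ha hb
    obtain ⟨x, hx⟩ : ∃ x, x = N.β 1 a := ⟨_, rfl⟩
    rw [← hx] at hb ⊢
    refine ⟨∑ ω : Fp Ω (twW W (1 : MulAut W)), c' ⟨1, ω⟩ x • b ω.1, ?_, ?_⟩
    · intro p hp
      change bw F α (p, p) _ = _
      rw [map_sum]
      refine Fintype.sum_equiv (MulAction.toPerm ((p, p) : V × V)) _ _ ?_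
      intro ω
      rw [map_smul, ← hf.1]
      have h1 := hf'.2.1 (p, p) ⟨1, ω⟩ x
      have h2 : bw F N.nwh (p, p) x = x := hb p hp
      rw [h2] at h1
      change _ = c' ⟨1, ((p, p) : V × V) • ω⟩ x • b (((p, p) : V × V) • ω.1)
      rw [← h1]
      rfl
    · rw [map_sum]
      have h1 := hf'.2.2 x
      rw [Fintype.sum_sigma, Finset.sum_eq_single (1 : MulAut W)] at h1
      · conv_rhs => rw [← h1]
        refine Finset.sum_congr (by congr) fun ω _ => ?_
        rw [map_smul]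
      · intro ε _ hε
        apply Finset.sum_eq_zero
        intro ω _
        rw [hx, hc2 ⟨ε, ω⟩ 1 (fun h => hε h.symm) a ha, zero_smul]
      · intro h
        exact absurd (Finset.mem_univ _) h

end Pool.Agent.PST.H15
end
end -- Pool.Agent.Helper15_PST.NCB

section -- Pool.Agent.Helper21_PST.NCG

/-!
# Row pst:NCG, the components of a fixed vector of `N_W(A)` are fixed
-/

noncomputable section

namespace Pool.Agent.PST.H21

open Pool.Agent.PSS

theorem ncg : NcgStmt := by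
  intro R V A B _ _ _ _ _ _ _ α W N P x hx
  classical
  have : Finite (MulAut W) :=
    Finite.of_injective (fun e : MulAut W => (fun w => e w : W → W)) (fun e e' h => by
      ext w
      exact congrArg Subtype.val (congrFun h w))
  letI : Fintype (MulAut W) := Fintype.ofFinite _
  obtain ⟨f, hf, hfx⟩ := N.spn x
  rw [finsum_eq_sum_of_fintype] at hfx
  refine ⟨f, hf, ?_, by rw [finsum_eq_sum_of_fintype]; exact hfx⟩
  have hm : ∀ (p : V) (ε : MulAut W), α p * f ε * α p⁻¹ ∈ FxR (bw R α) (twW W ε) ∧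
      N.β ε (α p * f ε * α p⁻¹) = N.nwh p * N.β ε (f ε) * N.nwh p⁻¹ := by
    intro p ε
    have h1 := Fx_mul α W 1 ε (al_mem_tw p W) (hf ε)
    have h2 := Fx_mul α W (1 * ε) 1 h1 (al_mem_tw p⁻¹ W)
    have h3 := N.mul 1 ε _ (al_mem_tw p W) _ (hf ε)
    have h4 := N.mul (1 * ε) 1 _ h1 _ (al_mem_tw p⁻¹ W)
    rw [h3] at h4
    rw [one_mul, mul_one] at h2 h4
    exact ⟨h2, h4⟩
  intro ε p hp
  have h0 := N.ind (fun ε => α p * f ε * α p⁻¹ - f ε)
    (fun ε => Submodule.sub_mem _ (hm p ε).1 (hf ε)) (by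
      rw [finsum_eq_sum_of_fintype]
      have h1 : ∀ ε ∈ (Finset.univ : Finset (MulAut W)), N.β ε (α p * f ε * α p⁻¹ - f ε) =
          N.nwh p * N.β ε (f ε) * N.nwh p⁻¹ - N.β ε (f ε) := by
        intro ε _
        rw [map_sub, (hm p ε).2]
      rw [Finset.sum_congr rfl h1, Finset.sum_sub_distrib, ← Finset.sum_mul, ← Finset.mul_sum, hfx]
      have h2 := hx p hp
      have h3 : cw R N.nwh p x = N.nwh p * (x * N.nwh p⁻¹) := rfl
      rw [h3, ← mul_assoc] at h2
      rw [h2, sub_self]) ε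
  rw [map_sub, (hm p ε).2, sub_eq_zero] at h0
  show N.nwh p * (N.β ε (f ε) * N.nwh p⁻¹) = N.β ε (f ε)
  rw [← mul_assoc, h0]

end Pool.Agent.PST.H21
end
end -- Pool.Agent.Helper21_PST.NCG

section -- Pool.Agent.Helper41_PSS.NDF

/-!
# Squad PSS, row NDF
-/

set_option autoImplicit false

open scoped BigOperators

noncomputable section

namespace Pool.Agent.PSS.H41

open Pool.Agent.PFC (tw IsTv)
open Pool.Agent.PFD.D2b (FrR)

section

variable {R R₀ V A A' : Type} [CommRing R] [CommRing R₀] [CommGroup V] [Ring A] [Algebra R₀ A]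
  [Ring A'] [Algebra R A'] {p : R} {κ : R →+* R₀} {α : V →* A} {α' : V →* A'}

theorem q_smul (D : Df p κ α α') (r : R) (x : A') : D.q (r • x) = κ r • D.q x := by
  rw [Algebra.smul_def, map_mul, D.sc, ← Algebra.smul_def]

theorem kp (hκ : Red p κ) (s : R) : κ (p * s) = 0 := (hκ.ker _).2 ⟨s, rfl⟩

theorem wd (D : Df p κ α α') (hκ : Red p κ) (c : A' →ₗ[R] R) {x y : A'} (h : D.q x = D.q y) :
    κ (c x) = κ (c y) := by
  obtain ⟨z, hz⟩ := D.ker (x - y) (by rw [map_sub, h, sub_self])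
  rw [← sub_eq_zero, ← map_sub, ← map_sub, hz, map_smul, smul_eq_mul, kp hκ]

/-- the reduction of a form -/
def c0 (D : Df p κ α α') (hκ : Red p κ) (c : A' →ₗ[R] R) : A →ₗ[R₀] R₀ where
  toFun x := κ (c (Function.surjInv D.surj x))
  map_add' := by
    intro x y
    have hs : ∀ z, D.q (Function.surjInv D.surj z) = z := Function.surjInv_eq D.surj
    rw [← map_add, ← map_add]
    exact wd D hκ c (by rw [map_add, hs, hs, hs])
  map_smul' := by
    intro r x
    have hs : ∀ z, D.q (Function.surjInv D.surj z) = z := Function.surjInv_eq D.surj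
    obtain ⟨s, rfl⟩ := hκ.surj r
    rw [RingHom.id_apply, smul_eq_mul, ← map_mul, ← smul_eq_mul s, ← map_smul]
    exact wd D hκ c (by rw [q_smul, hs, hs])

theorem c0_q (D : Df p κ α α') (hκ : Red p κ) (c : A' →ₗ[R] R) (x : A') :
    c0 D hκ c (D.q x) = κ (c x) := wd D hκ c (Function.surjInv_eq _ _)

theorem q_bw (D : Df p κ α α') (g : V × V) (x : A') :
    D.q (bw R α' g x) = bw R₀ α g (D.q x) := by
  change D.q (α' g.1 * (x * α' g.2⁻¹)) = α g.1 * (D.q x * α g.2⁻¹)
  rw [map_mul, map_mul, D.qw, D.qw]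

theorem q_fx (D : Df p κ α α') {P : Subgroup (V × V)} {a : A'} (ha : a ∈ FxR (bw R α') P) :
    D.q a ∈ FxR (bw R₀ α) P := by
  intro h hh
  rw [← q_bw, ha h hh]

theorem fr0 (D : Df p κ α α') (hκ : Red p κ) {Ω : Type} [Fintype Ω] [MulAction (V × V) Ω]
    {b : Ω → A'} {c : Ω → (A' →ₗ[R] R)} (hf : FrR (bw R α') b c) :
    FrR (bw R₀ α) (fun ω => D.q (b ω)) (fun ω => c0 D hκ (c ω)) := by
  refine ⟨?_, ?_, ?_⟩
  · intro g t
    dsimp only
    rw [hf.1, q_bw]
  · intro g t n
    obtain ⟨x, rfl⟩ := D.surj n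
    dsimp only
    rw [← q_bw, c0_q, c0_q, hf.2.1]
  · intro n
    obtain ⟨x, rfl⟩ := D.surj n
    conv_rhs => rw [← hf.2.2 x, map_sum]
    refine Finset.sum_congr rfl fun ω _ => ?_
    rw [c0_q, q_smul]

end

theorem ndf (hN : NfrStmt) : NdfStmt := by
  intro ℓ _ R R₀ V A A' B B' _ _ _ _ _ _ _ _ _ _ _ _ p κ α α' W N N' D hℓ hV hκ
  classical
  have : Finite (MulAut W) := Finite.of_injective (fun f => (f : W → W)) DFunLike.coe_injective
  have : Fintype (MulAut W) := Fintype.ofFinite _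
  obtain ⟨Ω, _, _, b, c, hf⟩ := D.per
  have : Fintype (Σ ε : MulAut W, Fp Ω (twW W ε)) := Fintype.ofFinite _
  have hℓ0 : (ℓ : R₀) = 0 := by
    rw [← map_natCast κ, hℓ, map_zero]
  obtain ⟨c', hc1, hc2, hfr⟩ := hN ℓ R V A' B' Ω α' b c W N' hℓ hV hf
  obtain ⟨d', hd1, hd2, hfr0⟩ := hN ℓ R₀ V A B Ω α (fun ω => D.q (b ω))
    (fun ω => c0 D hκ (c ω)) W N hℓ0 hV (fr0 D hκ hf)
  -- the map
  let Q : B' → B := fun x => ∑ t : (Σ ε : MulAut W, Fp Ω (twW W ε)),
    κ (c' t x) • N.β t.1 (D.q (b t.2.1))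
  have hQ : ∀ x, Q x = ∑ t : (Σ ε : MulAut W, Fp Ω (twW W ε)),
    κ (c' t x) • N.β t.1 (D.q (b t.2.1)) := fun _ => rfl
  have hcd : ∀ t ε, ∀ a ∈ FxR (bw R α') (twW W ε),
      κ (c' t (N'.β ε a)) = d' t (N.β ε (D.q a)) := by
    intro t ε a ha
    by_cases h : ε = t.1
    · subst h
      rw [hc1 t a ha, hd1 t _ (q_fx D ha), c0_q]
    · rw [hc2 t ε h a ha, hd2 t ε h _ (q_fx D ha), map_zero]
  have hQb : ∀ ε, ∀ a ∈ FxR (bw R α') (twW W ε), Q (N'.β ε a) = N.β ε (D.q a) := by
    intro ε a ha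
    rw [hQ]
    refine Eq.trans ?_ (hfr0.2.2 (N.β ε (D.q a)))
    exact Finset.sum_congr rfl fun t _ => by rw [hcd t ε a ha]
  have hQadd : ∀ x y, Q (x + y) = Q x + Q y := by
    intro x y
    rw [hQ, hQ, hQ, ← Finset.sum_add_distrib]
    exact Finset.sum_congr rfl fun t _ => by rw [map_add, map_add, add_smul]
  have hQ0 : Q 0 = 0 := by
    rw [hQ]
    exact Finset.sum_eq_zero fun t _ => by rw [map_zero, map_zero, zero_smul]
  let Qa : B' →+ B := ⟨⟨Q, hQ0⟩, hQadd⟩
  have hQa : ∀ x, Qa x = Q x := fun _ => rfl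
  have hspn : ∀ x : B', ∃ f : MulAut W → A', (∀ ε, f ε ∈ FxR (bw R α') (twW W ε)) ∧
      x = ∑ ε, N'.β ε (f ε) := by
    intro x
    obtain ⟨f, h1, h2⟩ := N'.spn x
    refine ⟨f, h1, ?_⟩
    rw [← h2, finsum_eq_sum_of_fintype]
  have hQmul : ∀ x y, Q (x * y) = Q x * Q y := by
    intro x y
    obtain ⟨f, hf1, rfl⟩ := hspn x
    obtain ⟨g, hg1, rfl⟩ := hspn y
    rw [← hQa, ← hQa, ← hQa, Finset.sum_mul_sum, map_sum, map_sum, map_sum, Finset.sum_mul_sum]
    refine Finset.sum_congr rfl fun ε _ => ?_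
    rw [map_sum]
    refine Finset.sum_congr rfl fun δ _ => ?_
    rw [← N'.mul ε δ _ (hf1 ε) _ (hg1 δ), hQa, hQa, hQa,
      hQb _ _ (Fx_mul α' W ε δ (hf1 ε) (hg1 δ)), hQb _ _ (hf1 ε), hQb _ _ (hg1 δ), map_mul,
      N.mul ε δ _ (q_fx D (hf1 ε)) _ (q_fx D (hg1 δ))]
  have hQ1 : Q 1 = 1 := by
    rw [← N'.one, hQb 1 1 (one_mem_tw α' W), map_one, N.one]
  have hQs : ∀ (r : R) x, Q (r • x) = κ r • Q x := by
    intro r x
    rw [hQ, hQ, Finset.smul_sum]
    exact Finset.sum_congr rfl fun t _ => by rw [map_smul, smul_eq_mul, map_mul, mul_smul]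
  have hbfx : ∀ t : (Σ ε : MulAut W, Fp Ω (twW W ε)),
      b t.2.1 ∈ FxR (bw R α') (twW W t.1) := by
    intro t h hh
    rw [← hf.1]
    have h1 : h • t.2.1 = t.2.1 := t.2.2 hh
    rw [h1]
  have hck : ∀ t x, κ (c' t x) = d' t (Q x) := by
    intro t x
    obtain ⟨f, hf1, rfl⟩ := hspn x
    rw [map_sum, map_sum, ← hQa, map_sum, map_sum]
    refine Finset.sum_congr rfl fun ε _ => ?_
    rw [hQa, hQb _ _ (hf1 ε), hcd t ε _ (hf1 ε)]
  refine ⟨{
    q := { toFun := Q, map_one' := hQ1, map_mul' := hQmul, map_zero' := hQ0, map_add' := hQadd }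
    sc := ?_
    surj := ?_
    ker := ?_
    qw := ?_
    per := ⟨(Σ ε : MulAut W, Fp Ω (twW W ε)), inferInstance, inferInstance, _, c', hfr⟩ },
    hQb⟩
  · intro r
    change Q (algebraMap R B' r) = _
    rw [Algebra.algebraMap_eq_smul_one, hQs, hQ1, ← Algebra.algebraMap_eq_smul_one]
  · intro y
    choose r hr using fun t => hκ.surj (d' t y)
    refine ⟨∑ t : (Σ ε : MulAut W, Fp Ω (twW W ε)), r t • N'.β t.1 (b t.2.1), ?_⟩
    change Q _ = y
    rw [← hQa, map_sum]
    refine Eq.trans ?_ (hfr0.2.2 y)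
    refine Finset.sum_congr rfl fun t _ => ?_
    rw [hQa, hQs, hr, hQb _ _ (hbfx t)]
  · intro x hx
    change Q x = 0 at hx
    have h1 : ∀ t, ∃ s, c' t x = p * s := by
      intro t
      apply (hκ.ker _).1
      rw [hck, hx, map_zero]
    choose s hs using h1
    refine ⟨∑ t : (Σ ε : MulAut W, Fp Ω (twW W ε)), s t • N'.β t.1 (b t.2.1), ?_⟩
    conv_lhs => rw [← hfr.2.2 x]
    rw [Finset.smul_sum]
    refine Finset.sum_congr rfl fun t _ => ?_
    rw [hs, mul_smul]
  · intro v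
    change Q (N'.β 1 (α' v)) = N.β 1 (α v)
    rw [hQb _ _ (al_mem_tw v W), D.qw]

end Pool.Agent.PSS.H41
end
end -- Pool.Agent.Helper41_PSS.NDF

section -- Pool.Agent.Helper60_PSS.BLA

/-!
# Squad PSS, row BLA: a violation of `blk` gives a local datum
-/

noncomputable section

namespace Pool.Agent.PSS.H60

open Pool.Agent.PFC (tw IsTv)
open Pool.Agent.PFD.D2b (FrR)
open Pool.Agent.PSS

section conj

variable {F V E A : Type} [Field F] [CommGroup V] [Group E] [Ring A] [Algebra F A]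
  {φ : E →* MulAut V} {α : V →* A}

/-- `y` is a unit (with inverse `y'`) which induces `φ g` -/
structure UF (φ : E →* MulAut V) (α : V →* A) (g : E) (y y' : A) : Prop where
  l : y * y' = 1
  r : y' * y = 1
  c : ∀ u, y * α u = α (φ g u) * y

theorem UF.c' {g : E} {y y' : A} (h : UF φ α g y y') (u : V) :
    y' * α (φ g u) = α u * y' := by
  calc y' * α (φ g u) = y' * (α (φ g u) * y) * y' := by
        rw [mul_assoc, mul_assoc, h.l, mul_one]
    _ = y' * (y * α u) * y' := by rw [h.c]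
    _ = α u * y' := by rw [← mul_assoc, h.r, one_mul]

theorem UF.inv {g : E} {y y' : A} (h : UF φ α g y y') : UF φ α g⁻¹ y' y := by
  refine ⟨h.r, h.l, ?_⟩
  intro u
  have h1 := h.c' (φ g⁻¹ u)
  have h2 : φ g (φ g⁻¹ u) = u := by
    rw [map_inv, MulAut.apply_inv_self]
  rwa [h2] at h1

theorem UF.mul {g k : E} {y y' z z' : A} (h : UF φ α g y y') (h' : UF φ α k z z') :
    UF φ α (g * k) (y * z) (z' * y') := by
  refine ⟨?_, ?_, ?_⟩
  · calc y * z * (z' * y') = y * (z * z') * y' := by simp only [mul_assoc]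
      _ = 1 := by rw [h'.l, mul_one, h.l]
  · calc z' * y' * (y * z) = z' * (y' * y) * z := by simp only [mul_assoc]
      _ = 1 := by rw [h.r, mul_one, h'.r]
  · intro u
    rw [mul_assoc, h'.c, ← mul_assoc, h.c, mul_assoc, map_mul, MulAut.mul_apply]

theorem UF.one : UF φ α 1 (1 : A) 1 := by
  refine ⟨one_mul 1, one_mul 1, ?_⟩
  intro u
  rw [one_mul, mul_one, map_one]
  rfl

theorem UF.hom {g : E} {y y' : A} (h : UF φ α g y y') (v : V) (m : A) :
    ((LinearMap.mulLeft F y).comp (LinearMap.mulRight F y')) (cw F α v m) =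
      ((cw F α).comp (φ g).toMonoidHom) v
        (((LinearMap.mulLeft F y).comp (LinearMap.mulRight F y')) m) := by
  change y * (α v * (m * α v⁻¹) * y') = α (φ g v) * (y * (m * y') * α (φ g v)⁻¹)
  have h1 : α v⁻¹ * y' = y' * α (φ g v)⁻¹ := by
    rw [← h.c' v⁻¹, map_inv]
  calc y * (α v * (m * α v⁻¹) * y') = (y * α v) * (m * (α v⁻¹ * y')) := by
        simp only [mul_assoc]
    _ = α (φ g v) * (y * (m * y') * α (φ g v)⁻¹) := by
        rw [h.c, h1]
        simp only [mul_assoc]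

theorem UF.fx {g : E} {y y' : A} (h : UF φ α g y y') {R : Subgroup V} {m : A}
    (hm : m ∈ FxR (cw F α) R) :
    y * m * y' ∈ FxR (cw F α) (R.map (φ g).toMonoidHom) := by
  rw [FxR_map, mul_assoc]
  exact FxR_hom (L := (LinearMap.mulLeft F y).comp (LinearMap.mulRight F y'))
    (fun v m => h.hom v m) hm

theorem UF.bk {g : E} {y y' : A} (h : UF φ α g y y') {R : Subgroup V} {m : A}
    (hm : m ∈ BKR (cw F α) R) :
    y * m * y' ∈ BKR (cw F α) (R.map (φ g).toMonoidHom) := by
  rw [BKR_map (cw F α) (f := (φ g).toMonoidHom) (φ g).injective R, mul_assoc]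
  exact BKR_hom (L := (LinearMap.mulLeft F y).comp (LinearMap.mulRight F y'))
    (fun v m => h.hom v m) hm

theorem fx_top {R : Subgroup V} {m : A} (hm : m ∈ FxR (cw F α) ⊤) : m ∈ FxR (cw F α) R :=
  fun v _ => hm v (Subgroup.mem_top v)

theorem map_top_eq (g : E) : (⊤ : Subgroup V).map (φ g).toMonoidHom = ⊤ :=
  Subgroup.map_top_of_surjective _ (φ g).surjective

end conj

theorem bla (hfco : S0.FcoStmt) (hfbk : S0.FbkStmt) (hftr : S0.FtrStmt) (hbki : S0.BkiStmt)
    (hbqx : S0.BqxStmt) : BlaStmt := by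
  classical
  intro ℓ _ F V E A _ _ _ _ _ _ _ _ φ α hV hper huni Q e he heid hecn hetop heQ
  obtain ⟨Ω, _, _, b, c, hfr, _⟩ := hper
  have hℓ : (ℓ : F) = 0 := CharP.cast_eq_zero F ℓ
  letI actV : MulAction V Ω :=
    MulAction.compHom Ω (MonoidHom.prod (MonoidHom.id V) (MonoidHom.id V))
  have hfr' : FrR (cw F α) b c :=
    ⟨fun g t => hfr.1 (g, g) t, fun g t n => hfr.2.1 (g, g) t n, hfr.2.2⟩
  have hco := hfco ℓ F V A Ω (cw F α) b c hℓ hV hfr'
  have hbk := hfbk F V A Ω (cw F α) b c hfr'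
  have mono : ∀ {P R : Subgroup V}, P ≤ R → ∀ m ∈ BKR (cw F α) P, m ∈ FxR (cw F α) R →
      m ∈ BKR (cw F α) R := by
    intro P R hPR m hm hmR
    exact hbk R m hmR fun ω hω => hco P m hm ω fun h hh => hω h (hPR hh)
  -- the maximal subgroup
  obtain ⟨R, hRm⟩ : ∃ R : Subgroup V, Maximal (fun R => Q ≤ R ∧ e ∉ BKR (cw F α) R) R := by
    have hne : {R : Subgroup V | Q ≤ R ∧ e ∉ BKR (cw F α) R}.Nonempty := ⟨Q, le_rfl, heQ⟩
    exact (Set.toFinite {R : Subgroup V | Q ≤ R ∧ e ∉ BKR (cw F α) R}).exists_maximal hne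
  obtain ⟨⟨hQR, heR⟩, hmax⟩ := hRm
  have hgt : ∀ P : Subgroup V, R < P → e ∈ BKR (cw F α) P := by
    intro P hP
    by_contra hc
    exact hP.not_ge (hmax ⟨hQR.trans hP.le, hc⟩ hP.le)
  have hRtop : R ≠ ⊤ := by
    rintro rfl
    exact heR hetop
  have hid : e * e - e ∈ BKR (cw F α) R := by
    refine mono hQR _ heid ?_
    have h1 : e * e ∈ FxR (cw F α) R := by
      rw [mem_cw]
      intro q hq
      have := mem_cw.1 (fx_top he (R := R)) q hq
      rw [← mul_assoc, this, mul_assoc, this, mul_assoc]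
    exact Submodule.sub_mem _ h1 (fx_top he)
  have hfm : ∀ {P : Subgroup V} {a a' : A}, a ∈ FxR (cw F α) P → a' ∈ FxR (cw F α) P →
      a * a' ∈ FxR (cw F α) P := by
    intro P a a' ha ha'
    rw [mem_cw] at *
    intro q hq
    rw [← mul_assoc, ha q hq, mul_assoc, ha' q hq, mul_assoc]
  have hcn : ∀ a ∈ FxR (cw F α) R, e * a - a * e ∈ BKR (cw F α) R := by
    intro a ha
    refine mono hQR _ (hecn a fun v hv => ha v (hQR hv)) ?_
    exact Submodule.sub_mem _ (hfm (fx_top he) ha) (hfm ha (fx_top he))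
  -- the Brauer quotient
  obtain ⟨B, _, _, αB, β, hβ⟩ := hbqx F V A α R
  have βsub : ∀ a ∈ FxR (cw F α) R, ∀ a' ∈ FxR (cw F α) R, β (a - a') = β a - β a' := by
    intro a ha a' ha'
    have h1 := hβ.add (a - a') (Submodule.sub_mem _ ha ha') a' ha'
    rw [sub_add_cancel] at h1
    rw [h1, add_sub_cancel_right]
  have βeq : ∀ a ∈ FxR (cw F α) R, ∀ a' ∈ FxR (cw F α) R,
      (β a = β a' ↔ a - a' ∈ BKR (cw F α) R) := by
    intro a ha a' ha'
    rw [← hβ.ker _ (Submodule.sub_mem _ ha ha'), βsub a ha a' ha', sub_eq_zero]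
  -- the units
  have huni' : ∀ g : E, ∃ y y' : A, UF φ α g y y' := by
    intro g
    obtain ⟨y, y', h1, h2, h3⟩ := huni g
    exact ⟨y, y', h1, h2, h3⟩
  choose y y' hy using huni'
  have hNE : ∀ g ∈ NE φ R, R.map (φ g).toMonoidHom = R := fun g hg => hg
  -- conjugates of e
  have hconjfx : ∀ {g : E} {z z' : A}, UF φ α g z z' → ∀ {m : A}, m ∈ FxR (cw F α) ⊤ →
      z * m * z' ∈ FxR (cw F α) ⊤ := by
    intro g z z' h m hm
    have := h.fx hm
    rwa [map_top_eq] at this
  have key : ∀ {g : E} {z z' w w' : A}, g ∈ NE φ R → UF φ α g z z' → UF φ α g w w' →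
      β (z * e * z') = β (w * e * w') := by
    intro g z z' w w' hg hz hw
    have hu : UF φ α 1 (w' * z) (z' * w) := by
      have := hw.inv.mul hz
      rwa [inv_mul_cancel] at this
    have hufx : ∀ {a a' : A}, UF φ α 1 a a' → a ∈ FxR (cw F α) ⊤ := by
      intro a a' h
      rw [mem_cw]
      intro q _
      rw [h.c, map_one]
      rfl
    have h1 : w' * z ∈ FxR (cw F α) ⊤ := hufx hu
    have h2 : z' * w ∈ FxR (cw F α) ⊤ := hufx (by simpa using hu.inv)
    have h3 : w * ((w' * z) * e * (z' * w)) * w' = z * e * z' := by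
      calc w * ((w' * z) * e * (z' * w)) * w' = (w * w') * z * e * z' * (w * w') := by
            simp only [mul_assoc]
        _ = z * e * z' := by rw [hw.l, one_mul, mul_one]
    have h4 : (w' * z) * e * (z' * w) - e ∈ BKR (cw F α) R := by
      have h5 := hcn (w' * z) (fx_top h1)
      have h6 := (hbki F V A α R (z' * w) (fx_top h2) _ h5).2
      have h7 : (e * (w' * z) - w' * z * e) * (z' * w) =
          e * ((w' * z) * (z' * w)) - (w' * z) * e * (z' * w) := by
        rw [sub_mul]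
        simp only [mul_assoc]
      rw [h7, hu.l, mul_one] at h6
      have := Submodule.neg_mem _ h6
      rwa [neg_sub] at this
    rw [βeq _ (fx_top (hconjfx hz he)) _ (fx_top (hconjfx hw he))]
    have h8 := hw.bk h4
    rw [hNE g hg] at h8
    have h9 : w * ((w' * z) * e * (z' * w) - e) * w' = z * e * z' - w * e * w' := by
      rw [mul_sub, sub_mul, h3]
    rwa [h9] at h8
  -- central idempotents of `B`
  have hcen : ∀ {g : E} {z z' : A}, g ∈ NE φ R → UF φ α g z z' → ∀ x : B,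
      β (z * e * z') * x = x * β (z * e * z') := by
    intro g z z' hg hz x
    obtain ⟨a, ha, rfl⟩ := hβ.surj x
    have h1 : z * e * z' ∈ FxR (cw F α) R := fx_top (hconjfx hz he)
    rw [← hβ.mul _ h1 _ ha, ← hβ.mul _ ha _ h1, βeq _ (hfm h1 ha) _ (hfm ha h1)]
    have hg' : g⁻¹ ∈ NE φ R := (NE φ R).inv_mem hg
    have h2 : z' * a * z ∈ FxR (cw F α) R := by
      have := hz.inv.fx ha
      rwa [hNE _ hg'] at this
    have h3 := hz.bk (hcn _ h2)
    rw [hNE g hg] at h3
    have h4 : z * (e * (z' * a * z) - z' * a * z * e) * z' =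
        z * e * z' * a - a * (z * e * z') := by
      rw [mul_sub, sub_mul]
      have e1 : z * (e * (z' * a * z)) * z' = z * e * z' * a := by
        calc z * (e * (z' * a * z)) * z' = z * e * z' * a * (z * z') := by
              simp only [mul_assoc]
          _ = _ := by rw [hz.l, mul_one]
      have e2 : z * (z' * a * z * e) * z' = a * (z * e * z') := by
        calc z * (z' * a * z * e) * z' = (z * z') * (a * (z * e * z')) := by
              simp only [mul_assoc]
          _ = _ := by rw [hz.l, one_mul]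
      rw [e1, e2]
    rwa [h4] at h3
  have hidm : ∀ {g : E} {z z' : A}, g ∈ NE φ R → UF φ α g z z' →
      β (z * e * z') * β (z * e * z') = β (z * e * z') := by
    intro g z z' hg hz
    have h1 : z * e * z' ∈ FxR (cw F α) R := fx_top (hconjfx hz he)
    rw [← hβ.mul _ h1 _ h1, βeq _ (hfm h1 h1) _ h1]
    have h3 := hz.bk hid
    rw [hNE g hg] at h3
    have h4 : z * (e * e - e) * z' = z * e * z' * (z * e * z') - z * e * z' := by
      rw [mul_sub, sub_mul]
      have e1 : z * e * z' * (z * e * z') = z * (e * e) * z' := by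
        calc z * e * z' * (z * e * z') = z * e * (z' * z) * e * z' := by
              simp only [mul_assoc]
          _ = z * (e * e) * z' := by
              rw [hz.r, mul_one]
              simp only [mul_assoc]
      rw [e1]
    rwa [h4] at h3
  -- the elements of the centre of `B`
  let N := NE φ R
  let f : N → Subring.center B := fun h => ⟨β (y h * e * y' h), by
    rw [Subring.mem_center_iff]
    intro x
    exact (hcen h.2 (hy h) x).symm⟩
  have hf : ∀ h : N, ((f h : Subring.center B) : B) = β (y h * e * y' h) := fun h => rfl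
  have hff : ∀ h, f h * f h = f h := by
    intro h
    apply Subtype.ext
    exact hidm h.2 (hy h)
  -- the product
  let L : List N := (Finset.univ : Finset N).toList
  have hLprod : ∀ g : N → Subring.center B, (L.map g).prod = ∏ h, g h := by
    intro g
    exact Finset.prod_map_toList _ _
  have hP1 : ∀ (z z' : N → A), (∀ h, z h * z' h = 1) → (∀ h, z' h * z h = 1) →
      (∀ h, z h * e * z' h ∈ FxR (cw F α) ⊤) → ∀ M : List N,
      (M.map fun h => 1 - z h * e * z' h).prod ∈ FxR (cw F α) ⊤ := by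
    intro z z' _ _ hz M
    induction M with
    | nil =>
      rw [List.map_nil, List.prod_nil, mem_cw]
      intro q _
      rw [mul_one, one_mul]
    | cons a M ih =>
      rw [List.map_cons, List.prod_cons]
      refine hfm (Submodule.sub_mem _ ?_ (hz a)) ih
      rw [mem_cw]
      intro q _
      rw [mul_one, one_mul]
  have hone : ∀ {P : Subgroup V}, (1 : A) ∈ FxR (cw F α) P := by
    intro P
    rw [mem_cw]
    intro q _
    rw [mul_one, one_mul]
  have hβP : ∀ (z z' : N → A) (g : N → Subring.center B),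
      (∀ h, z h * e * z' h ∈ FxR (cw F α) ⊤) →
      (∀ h, β (z h * e * z' h) = (g h : B)) → (∀ h, z h * z' h = 1) →
      (∀ h, z' h * z h = 1) → ∀ M : List N,
      β ((M.map fun h => 1 - z h * e * z' h).prod) =
        (((M.map fun h => 1 - g h).prod : Subring.center B) : B) := by
    intro z z' g hz hg h1 h2 M
    induction M with
    | nil =>
      rw [List.map_nil, List.prod_nil, List.map_nil, List.prod_nil, hβ.one]
      rfl
    | cons a M ih =>
      rw [List.map_cons, List.prod_cons, List.map_cons, List.prod_cons,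
        hβ.mul _ (Submodule.sub_mem _ hone (fx_top (hz a))) _ (fx_top (hP1 z z' h1 h2 hz M)),
        ih, βsub _ hone _ (fx_top (hz a)), hβ.one, hg a]
      rfl
  let P : A := (L.map fun h : N => 1 - y h * e * y' h).prod
  have hPfx : P ∈ FxR (cw F α) ⊤ :=
    hP1 (fun h => y h) (fun h => y' h) (fun h => (hy h).l) (fun h => (hy h).r)
      (fun h => hconjfx (hy h) he) L
  have hPβ : β P = ((∏ h, (1 - f h) : Subring.center B) : B) := by
    rw [← hLprod]
    exact hβP (fun h => y h) (fun h => y' h) f (fun h => hconjfx (hy h) he) (fun h => rfl)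
      (fun h => (hy h).l) (fun h => (hy h).r) L
  -- invariance
  have hPinv : ∀ g ∈ NE φ R, ∀ z z' : A, UF φ α g z z' → β (z * P * z') = β P := by
    intro g hg z z' hz
    have h1 : ∀ M : List N, z * (M.map fun h : N => 1 - y h * e * y' h).prod * z' =
        (M.map fun h : N => 1 - (z * y h) * e * (y' h * z')).prod := by
      intro M
      induction M with
      | nil =>
        rw [List.map_nil, List.prod_nil, List.map_nil, List.prod_nil, mul_one, hz.l]
      | cons a M ih =>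
        rw [List.map_cons, List.prod_cons, List.map_cons, List.prod_cons, ← ih]
        have h3 : z * (1 - y a * e * y' a) * z' = 1 - z * y a * e * (y' a * z') := by
          rw [mul_sub, sub_mul, mul_one, hz.l]
          simp only [mul_assoc]
        rw [← h3]
        calc z * ((1 - y a * e * y' a) * (M.map fun h : N => 1 - y h * e * y' h).prod) * z' =
            z * (1 - y a * e * y' a) * (1 * ((M.map fun h : N => 1 - y h * e * y' h).prod * z')) := by
              simp only [mul_assoc, one_mul]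
          _ = _ := by
              rw [← hz.r]
              simp only [mul_assoc]
    have h2 : ∀ h : N, UF φ α (g * h) (z * y h) (y' h * z') := fun h => hz.mul (hy h)
    rw [h1 L, hβP (fun h => z * y h) (fun h => y' h * z') (fun h => f (⟨g, hg⟩ * h))
      (fun h => hconjfx (h2 h) he) ?_ (fun h => (h2 h).l) (fun h => (h2 h).r) L, hLprod, hPβ]
    · refine congrArg _ ?_
      exact Fintype.prod_equiv (Equiv.mulLeft (⟨g, hg⟩ : N)) _ _ (fun h => rfl)
    · intro h
      rw [hf]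
      exact key ((NE φ R).mul_mem hg h.2) (h2 h) (hy (g * h))
  -- `1 - P` in the Brauer kernels of the larger subgroups
  have hPgt : ∀ R' : Subgroup V, R < R' → 1 - P ∈ BKR (cw F α) R' := by
    intro R' hR'
    have h1 : ∀ h : N, y h * e * y' h ∈ BKR (cw F α) R' := by
      intro h
      have h2 : R < R'.map (φ (h : E)⁻¹).toMonoidHom := by
        have h3 : (h : E)⁻¹ ∈ NE φ R := (NE φ R).inv_mem h.2
        have h4 := hNE _ h3
        constructor
        · conv_lhs => rw [← h4]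
          exact Subgroup.map_mono hR'.le
        · intro h5
          apply hR'.not_ge
          intro v hv
          have h6 : φ (h : E)⁻¹ v ∈ R := h5 ⟨v, hv, rfl⟩
          rw [← hNE _ h.2]
          refine ⟨φ (h : E)⁻¹ v, h6, ?_⟩
          change φ (h : E) (φ (h : E)⁻¹ v) = v
          rw [map_inv, MulAut.apply_inv_self]
      have h7 := (hy h).bk (hgt _ h2)
      have h8 : (R'.map (φ (h : E)⁻¹).toMonoidHom).map (φ (h : E)).toMonoidHom = R' := by
        rw [Subgroup.map_map]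
        have h9 : (φ (h : E)).toMonoidHom.comp (φ (h : E)⁻¹).toMonoidHom = MonoidHom.id V := by
          ext v
          change φ (h : E) (φ (h : E)⁻¹ v) = v
          rw [map_inv, MulAut.apply_inv_self]
        rw [h9, Subgroup.map_id]
      rwa [h8] at h7
    have h2 : ∀ M : List N, 1 - (M.map fun h : N => 1 - y h * e * y' h).prod ∈
        BKR (cw F α) R' := by
      intro M
      induction M with
      | nil =>
        rw [List.map_nil, List.prod_nil, sub_self]
        exact Submodule.zero_mem _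
      | cons a M ih =>
        rw [List.map_cons, List.prod_cons, sub_mul, one_mul, sub_sub_eq_add_sub,
          add_sub_right_comm]
        refine Submodule.add_mem _ ih ?_
        refine (hbki F V A α R' _ ?_ _ (h1 a)).2
        exact fx_top (hP1 (fun h => y h) (fun h => y' h) (fun h => (hy h).l)
          (fun h => (hy h).r) (fun h => hconjfx (hy h) he) M)
    exact h2 L
  -- the idempotent `1 - P`
  have hpfx : 1 - P ∈ FxR (cw F α) ⊤ := Submodule.sub_mem _ hone hPfx
  have hPid : β P * β P = β P := by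
    rw [hPβ]
    have h1 : (∏ h, (1 - f h)) * (∏ h, (1 - f h)) = ∏ h, (1 - f h) := by
      rw [← Finset.prod_mul_distrib]
      refine Finset.prod_congr rfl fun h _ => ?_
      have := hff h
      linear_combination this
    exact congrArg Subtype.val h1
  have hPcen : ∀ x : B, β P * x = x * β P := by
    intro x
    rw [hPβ]
    exact (Subring.mem_center_iff.1 (∏ h, (1 - f h) : Subring.center B).2 x).symm
  have hpβ : β (1 - P) = 1 - β P := by
    rw [βsub _ hone _ (fx_top hPfx), hβ.one]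
  -- the trace
  obtain ⟨m, hm, S, hS, hmS⟩ := hftr ℓ F V A Ω (cw F α) b c hℓ hV hfr' R (1 - P) hpfx hPgt
  have hlt : R < ⊤ := lt_top_iff_ne_top.2 hRtop
  have he0 : (∑ s ∈ S, cw F α s m) ∈ BKR (cw F α) ⊤ :=
    Submodule.subset_span ⟨R, S, m, hlt, hS, hm, rfl⟩
  have he0f : (∑ s ∈ S, cw F α s m) ∈ FxR (cw F α) ⊤ := BKR_le_FxR he0
  have hβ0 : β (∑ s ∈ S, cw F α s m) = 1 - β P := by
    rw [← hpβ]
    exact ((βeq _ (fx_top hpfx) _ (fx_top he0f)).2 hmS).symm
  have hcenP : ∀ x : B, (1 - β P) * x = x * (1 - β P) := by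
    intro x
    rw [sub_mul, mul_sub, hPcen, one_mul, mul_one]
  refine ⟨R, ∑ s ∈ S, cw F α s m, m, S, ⟨hRtop, he0f, hS, hm, rfl, ?_, ?_, ?_, ?_⟩⟩
  · rw [← βeq _ (hfm (fx_top he0f) (fx_top he0f)) _ (fx_top he0f),
      hβ.mul _ (fx_top he0f) _ (fx_top he0f), hβ0]
    rw [sub_mul, mul_sub, mul_sub, hPid, one_mul, mul_one, one_mul]
    abel
  · intro a ha
    rw [← βeq _ (hfm (fx_top he0f) ha) _ (hfm ha (fx_top he0f)),
      hβ.mul _ (fx_top he0f) _ ha, hβ.mul _ ha _ (fx_top he0f), hβ0]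
    exact hcenP _
  · intro g hg z z' h1 h2 h3
    have hz : UF φ α g z z' := ⟨h1, h2, h3⟩
    rw [← βeq _ (fx_top (hconjfx hz he0f)) _ (fx_top he0f), hβ0]
    have h4 := hz.bk hmS
    rw [hNE g hg] at h4
    have h5 : z * (1 - P - ∑ s ∈ S, cw F α s m) * z' =
        z * (1 - P) * z' - z * (∑ s ∈ S, cw F α s m) * z' := by
      rw [mul_sub, sub_mul]
    rw [h5, ← βeq _ (fx_top (hconjfx hz hpfx)) _ (fx_top (hconjfx hz he0f))] at h4
    rw [← h4]
    have h6 : z * (1 - P) * z' = 1 - z * P * z' := by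
      rw [mul_sub, sub_mul, mul_one, h1]
    rw [h6, βsub _ hone _ (fx_top (hconjfx hz hPfx)), hβ.one, hPinv g hg z z' hz]
  · intro h0
    rw [← hβ.ker _ (fx_top he0f), hβ0] at h0
    have h1 : UF φ α (1 : E) (y 1) (y' 1) := hy 1
    have h2 : β (y 1 * e * y' 1) = β e := by
      rw [key (NE φ R).one_mem h1 UF.one, one_mul, mul_one]
    have h3 : β P * β e = 0 := by
      rw [hPβ, ← h2]
      have h4 : (∏ h, (1 - f h)) * f 1 = 0 := by
        rw [← Finset.mul_prod_erase Finset.univ _ (Finset.mem_univ (1 : N))]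
        have := hff 1
        linear_combination (-(∏ x ∈ Finset.univ.erase (1 : N), (1 - f x))) * this
      exact congrArg Subtype.val h4
    apply heR
    rw [← hβ.ker _ (fx_top he)]
    calc β e = (1 - β P) * β e := by rw [sub_mul, one_mul, h3, sub_zero]
      _ = 0 := by rw [h0, zero_mul]

end Pool.Agent.PSS.H60
end
end -- Pool.Agent.Helper60_PSS.BLA

section -- Pool.Agent.Helper4_PSS.BLB

/-!
# Squad PSS, row BLB: a local datum gives a central element in `BKR (cw) ⊤` which is not nilpotent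
-/

open scoped BigOperators

noncomputable section

namespace Pool.Agent.PSS.H4

open Pool.Agent.PFC (tw IsTv)
open Pool.Agent.PFD.D2b (FrR)
open Pool.Agent.PSS.H60

/-- A trace from `P` to the abelian group `V` is in the Brauer kernel at `R` if `R` is not contained
in `P`. -/
theorem trace_bk (fpx : S0.FpxStmt) {F V M : Type} [CommRing F] [CommGroup V] [Finite V]
    [AddCommGroup M] [Module F M] (ρ : V →* (M →ₗ[F] M)) (P R : Subgroup V) (m : M)
    (hm : m ∈ FxR ρ P) (S : Finset V) (hS : IsTv P ⊤ S) (hPR : ¬ R ≤ P) :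
    ∑ s ∈ S, ρ s m ∈ BKR ρ R := by
  classical
  let _ : Fintype (V ⧸ P) := Fintype.ofFinite _
  have hρ : ∀ a b : V, a⁻¹ * b ∈ P → ρ a m = ρ b m := by
    intro a b h
    have h1 : ρ b m = ρ a (ρ (a⁻¹ * b) m) := by
      have h2 : ρ b = ρ a * ρ (a⁻¹ * b) := by rw [← map_mul, mul_inv_cancel_left]
      rw [h2]
      rfl
    rw [h1, hm _ h]
  let g : V ⧸ P → M := fun κ => ρ (Quotient.out κ) m
  have hg : ∀ v : V, g (QuotientGroup.mk v) = ρ v m := by
    intro v
    apply hρ
    rw [← QuotientGroup.eq]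
    exact Quotient.out_eq _
  have h1 := fpx F V M (V ⧸ P) ρ R g ∅ (by
    intro h _ κ
    obtain ⟨v, rfl⟩ := QuotientGroup.mk_surjective κ
    change g (QuotientGroup.mk (h * v)) = _
    rw [hg, hg, map_mul]
    rfl) (by
    intro κ
    constructor
    · intro h
      exact absurd h (Finset.notMem_empty _)
    · intro h
      exfalso
      apply hPR
      intro r hr
      obtain ⟨v, rfl⟩ := QuotientGroup.mk_surjective κ
      have h2 : (QuotientGroup.mk (r * v) : V ⧸ P) = QuotientGroup.mk v := h r hr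
      have h3 := QuotientGroup.eq.1 h2.symm
      rwa [mul_comm r v, inv_mul_cancel_left] at h3)
  rw [Finset.sum_empty, sub_zero] at h1
  have h2 : ∑ s ∈ S, ρ s m = ∑ κ : V ⧸ P, g κ := by
    refine Finset.sum_bij (fun s _ => QuotientGroup.mk s) (fun _ _ => Finset.mem_univ _) ?_ ?_ ?_
    · intro s hs s' hs' h
      have h3 := QuotientGroup.eq.1 h
      obtain ⟨t, -, ht⟩ := hS.2 s' (Subgroup.mem_top _)
      rw [ht s ⟨hs, h3⟩, ht s' ⟨hs', by rw [inv_mul_cancel]; exact P.one_mem⟩]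
    · intro κ _
      obtain ⟨v, rfl⟩ := QuotientGroup.mk_surjective κ
      obtain ⟨t, ⟨ht, ht'⟩, -⟩ := hS.2 v (Subgroup.mem_top _)
      exact ⟨t, ht, QuotientGroup.eq.2 ht'⟩
    · intro s _
      rw [hg]
  rw [h2]
  exact h1

/-- representatives of the fibres of a map -/
theorem exists_repr {E X : Type} [Fintype E] (r : E → X) :
    ∃ T : Finset E, ∀ e, ∃! t, t ∈ T ∧ r t = r e := by
  classical
  have hp : ∀ e : E, ∃ t : E, r t = r e := fun e => ⟨e, rfl⟩
  let p : X → E → E := fun f e => if h : ∃ t : E, r t = f then h.choose else e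
  have hpe : ∀ e e', r e = r e' → p (r e) e = p (r e') e' := by
    intro e e' h
    have h1 : ∃ t : E, r t = r e := ⟨e, rfl⟩
    have h2 : ∃ t : E, r t = r e' := ⟨e', rfl⟩
    change (if h : ∃ t : E, r t = r e then h.choose else e) =
      (if h : ∃ t : E, r t = r e' then h.choose else e')
    rw [dif_pos h1, dif_pos h2]
    congr 1
    rw [h]
  have hpr : ∀ e, r (p (r e) e) = r e := by
    intro e
    have h1 : ∃ t : E, r t = r e := ⟨e, rfl⟩
    change r (if h : ∃ t : E, r t = r e then h.choose else e) = _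
    rw [dif_pos h1]
    exact h1.choose_spec
  refine ⟨Finset.univ.image fun e => p (r e) e, ?_⟩
  intro e
  refine ⟨p (r e) e, ⟨Finset.mem_image_of_mem _ (Finset.mem_univ e), hpr e⟩, ?_⟩
  rintro t ⟨ht, ht'⟩
  obtain ⟨e', -, rfl⟩ := Finset.mem_image.1 ht
  apply hpe
  rw [← hpr e', ht']

section count

variable {V E : Type} [CommGroup V] [Group E] (φ : E →* MulAut V) (R : Subgroup V)

theorem card_dvd (T : Finset E) [DecidablePred fun t => t ∈ NE φ R]
    (hT : ∀ e : E, ∃! t, t ∈ T ∧ ∀ q ∈ R, (φ t)⁻¹ q = (φ e)⁻¹ q) :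
    (T.filter fun t => t ∈ NE φ R).card ∣ Nat.card E := by
  classical
  have hCN : ∀ c ∈ CE φ R, c ∈ NE φ R := by
    intro c hc
    change R.map (φ c).toMonoidHom = R
    ext v
    constructor
    · rintro ⟨w, hw, rfl⟩
      have h1 : φ c w = w := hc w hw
      change φ c w ∈ R
      rw [h1]
      exact hw
    · intro hv
      exact ⟨v, hv, hc v hv⟩
  let T' := T.filter fun t => t ∈ NE φ R
  let f : CE φ R × T' → NE φ R := fun p =>
    ⟨(p.1 : E) * (p.2 : E), (NE φ R).mul_mem (hCN _ p.1.2) (Finset.mem_filter.1 p.2.2).2⟩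
  have hr : ∀ (c : CE φ R) (t : E), ∀ q ∈ R, (φ ((c : E) * t))⁻¹ q = (φ t)⁻¹ q := by
    intro c t q hq
    have h1 : (φ (c : E))⁻¹ q = q := by
      apply (φ (c : E)).injective
      rw [MulAut.apply_inv_self]
      exact (c.2 q hq).symm
    rw [map_mul, mul_inv_rev, MulAut.mul_apply, h1]
  have hf : Function.Bijective f := by
    constructor
    · rintro ⟨c, t⟩ ⟨c', t'⟩ h
      have h1 : (c : E) * (t : E) = (c' : E) * (t' : E) := congrArg Subtype.val h
      obtain ⟨s, -, hs⟩ := hT (c * t)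
      have h2 : (t : E) = (t' : E) := by
        rw [hs t ⟨(Finset.mem_filter.1 t.2).1, fun q hq => (hr c t q hq).symm⟩,
          hs t' ⟨(Finset.mem_filter.1 t'.2).1, fun q hq => by rw [h1]; exact (hr c' t' q hq).symm⟩]
      have h3 : (c : E) = (c' : E) := by
        rw [h2] at h1
        exact mul_right_cancel h1
      exact Prod.ext (Subtype.ext h3) (Subtype.ext h2)
    · rintro ⟨e, he⟩
      obtain ⟨t, ⟨ht, ht'⟩, -⟩ := hT e
      have hc : e * t⁻¹ ∈ CE φ R := by
        intro q hq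
        rw [map_mul, map_inv, MulAut.mul_apply, ht' q hq, MulAut.apply_inv_self]
      have htN : t ∈ NE φ R := by
        have h1 : t = (e * t⁻¹)⁻¹ * e := by
          rw [mul_inv_rev, inv_inv, inv_mul_cancel_right]
        rw [h1]
        exact (NE φ R).mul_mem ((NE φ R).inv_mem (hCN _ hc)) he
      refine ⟨⟨⟨e * t⁻¹, hc⟩, ⟨t, Finset.mem_filter.2 ⟨ht, htN⟩⟩⟩, ?_⟩
      apply Subtype.ext
      change e * t⁻¹ * t = e
      rw [inv_mul_cancel_right]
  have h1 : Nat.card (CE φ R) * Nat.card T' = Nat.card (NE φ R) := by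
    rw [← Nat.card_prod]
    exact Nat.card_congr (Equiv.ofBijective f hf)
  have h2 : Nat.card T' = T'.card := by
    rw [Nat.card_eq_fintype_card, Fintype.card_coe]
  rw [h2] at h1
  exact (Dvd.intro_left _ h1).trans (Subgroup.card_subgroup_dvd_card _)

end count

theorem blb (fpx : S0.FpxStmt) (zrt : S0.ZrtStmt) (bqx : S0.BqxStmt) (bki : S0.BkiStmt)
    (bpu : S0.BpuStmt) (mck : S0.MckStmt) : BlbStmt := by
  classical
  intro ℓ _ F V E A K _ _ _ _ _ _ _ _ _ φ α lam x y u hV hE hper huni hRF hu R e m S hb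
  have hℓ : (ℓ : F) = 0 := CharP.cast_eq_zero F ℓ
  have hone : ∀ {P : Subgroup V}, (1 : A) ∈ FxR (cw F α) P := by
    intro P
    rw [mem_cw]
    intro q _
    rw [mul_one, one_mul]
  have hfm : ∀ {P : Subgroup V} {a a' : A}, a ∈ FxR (cw F α) P → a' ∈ FxR (cw F α) P →
      a * a' ∈ FxR (cw F α) P := by
    intro P a a' ha ha'
    rw [mem_cw] at *
    intro q hq
    rw [← mul_assoc, ha q hq, mul_assoc, ha' q hq, mul_assoc]
  have hcfx : ∀ {a : A}, (∀ c, c * a = a * c) → ∀ {P : Subgroup V}, a ∈ FxR (cw F α) P := by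
    intro a ha P
    rw [mem_cw]
    intro q _
    exact ha _
  have hζc : ∀ c, c * ∑ k, x k * y k = (∑ k, x k * y k) * c := by
    intro c
    have h1 := zrt F V A K α lam x y hRF 1 hone c
    simp only [mul_one] at h1
    exact h1
  have hrc : ∀ c, c * ∑ k, x k * e * y k = (∑ k, x k * e * y k) * c :=
    zrt F V A K α lam x y hRF e hb.fx
  have hu' : (∑ k, x k * y k) * u = 1 := by rw [← hζc, hu]
  have huc : ∀ c, c * u = u * c := by
    intro c
    calc c * u = u * (∑ k, x k * y k) * (c * u) := by rw [hu, one_mul]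
      _ = u * ((∑ k, x k * y k) * c) * u := by simp only [mul_assoc]
      _ = u * (c * ∑ k, x k * y k) * u := by rw [hζc]
      _ = u * c * ((∑ k, x k * y k) * u) := by simp only [mul_assoc]
      _ = u * c := by rw [hu', mul_one]
  have huni' : ∀ g : E, ∃ y y' : A, UF φ α g y y' := by
    intro g
    obtain ⟨y, y', h1, h2, h3⟩ := huni g
    exact ⟨y, y', h1, h2, h3⟩
  choose n n' hn using huni'
  have hconjfx : ∀ g : E, n g * e * n' g ∈ FxR (cw F α) ⊤ := by
    intro g
    have := (hn g).fx hb.fx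
    rwa [map_top_eq] at this
  -- the Mackey formula
  have key : ∀ P : Subgroup V, ∃ (B : Type) (_ : Ring B) (_ : Algebra F B) (αB : V →* B)
      (β : A → B) (_ : S0.IsBQ F α P αB β) (KB : Type) (_ : Fintype KB) (xB yB : KB → B)
      (T : Finset E), (∀ e : E, ∃! t, t ∈ T ∧ ∀ q ∈ P, (φ t)⁻¹ q = (φ e)⁻¹ q) ∧
      ∀ a ∈ FxR (cw F α) ⊤,
        β (∑ k, x k * a * y k) = ∑ t ∈ T, ∑ k, xB k * β (n t * a * n' t) * yB k := by
    intro P
    obtain ⟨B, iB, iA, αB, β, hB⟩ := bqx F V A α P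
    obtain ⟨-, -, lamB, KB, iK, xB, yB, hRB, hlB⟩ := bpu ℓ F V E A B K φ α P αB β lam x y
      (CE φ P) hℓ hV hper huni hRF hB (fun e => Iff.rfl)
    obtain ⟨T, hT⟩ := exists_repr (fun (e : E) (q : P) => (φ e)⁻¹ (q : V))
    have hT' : ∀ e : E, ∃! t, t ∈ T ∧ ∀ q ∈ P, (φ t)⁻¹ q = (φ e)⁻¹ q := by
      intro e
      obtain ⟨t, ⟨ht, ht1⟩, ht2⟩ := hT e
      refine ⟨t, ⟨ht, fun q hq => congrFun ht1 ⟨q, hq⟩⟩, ?_⟩
      rintro t' ⟨h1, h2⟩
      exact ht2 t' ⟨h1, funext fun q => h2 q q.2⟩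
    refine ⟨B, iB, iA, αB, β, hB, KB, iK, xB, yB, T, hT', ?_⟩
    exact mck ℓ F V E A B K KB φ α P αB β lam x y lamB xB yB n n' T hℓ hV hper hRF hB hRB
      hlB (fun e => ⟨(hn e).l, (hn e).r, (hn e).c⟩) hT'
  refine ⟨u * ∑ k, x k * e * y k, ?_, ?_, ?_⟩
  · intro a
    rw [mul_assoc, ← hrc, ← mul_assoc, ← huc, mul_assoc]
  · -- the Brauer kernel
    obtain ⟨B, _, _, αB, β, hB, KB, _, xB, yB, T, hT, hmk⟩ := key ⊤
    have hlt : R < ⊤ := lt_top_iff_ne_top.2 hb.lt
    have he0 : e ∈ BKR (cw F α) ⊤ := by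
      rw [hb.tr]
      exact Submodule.subset_span ⟨R, S, m, hlt, hb.tv, hb.fm, rfl⟩
    have h1 : β (∑ k, x k * e * y k) = 0 := by
      rw [hmk e hb.fx]
      refine Finset.sum_eq_zero fun t _ => Finset.sum_eq_zero fun k _ => ?_
      have h2 : n t * e * n' t ∈ BKR (cw F α) ⊤ := by
        have := (hn t).bk he0
        rwa [map_top_eq] at this
      rw [(hB.ker _ (hconjfx t)).2 h2, mul_zero, zero_mul]
    have h3 := (hB.ker _ (hcfx hrc)).1 h1
    exact (bki F V A α ⊤ u (hcfx huc) _ h3).1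
  · -- not nilpotent
    obtain ⟨B, _, _, αB, β, hB, KB, _, xB, yB, T, hT, hmk⟩ := key R
    have fx_R : ∀ {a : A}, a ∈ FxR (cw F α) ⊤ → a ∈ FxR (cw F α) R :=
      fun ha v _ => ha v (Subgroup.mem_top v)
    have βsub : ∀ a ∈ FxR (cw F α) R, ∀ a' ∈ FxR (cw F α) R, β (a - a') = β a - β a' := by
      intro a ha a' ha'
      have h1 := hB.add (a - a') (Submodule.sub_mem _ ha ha') a' ha'
      rw [sub_add_cancel] at h1
      rw [h1, add_sub_cancel_right]
    have βeq : ∀ a ∈ FxR (cw F α) R, ∀ a' ∈ FxR (cw F α) R,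
        a - a' ∈ BKR (cw F α) R → β a = β a' := by
      intro a ha a' ha' h
      rw [← hB.ker _ (Submodule.sub_mem _ ha ha'), βsub a ha a' ha', sub_eq_zero] at h
      exact h
    have heR : e ∈ FxR (cw F α) R := fx_R hb.fx
    obtain ⟨f, hf⟩ : ∃ f : B, f = β e := ⟨_, rfl⟩
    have hff : f * f = f := by
      rw [hf, ← hB.mul _ heR _ heR]
      exact βeq _ (hfm heR heR) _ heR hb.id
    have hfc : ∀ z : B, f * z = z * f := by
      intro z
      obtain ⟨a, ha, rfl⟩ := hB.surj z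
      rw [hf, ← hB.mul _ heR _ ha, ← hB.mul _ ha _ heR]
      exact βeq _ (hfm heR ha) _ (hfm ha heR) (hb.cn a ha)
    have hf0 : f ≠ 0 := by
      intro h
      rw [hf] at h
      exact hb.nb ((hB.ker _ heR).1 h)
    have hin : ∀ t ∈ NE φ R, β (n t * e * n' t) = f := by
      intro t ht
      rw [hf]
      exact βeq _ (fx_R (hconjfx t)) _ heR (hb.inv t ht _ _ (hn t).l (hn t).r (hn t).c)
    have hout : ∀ t, t ∉ NE φ R → β (n t * e * n' t) = 0 := by
      intro t ht
      rw [hB.ker _ (fx_R (hconjfx t))]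
      have h1 : n t * e * n' t = ∑ s ∈ S.image (φ t), cw F α s (n t * m * n' t) := by
        rw [Finset.sum_image fun a _ b _ h => (φ t).injective h]
        have h2 : n t * e * n' t = ((LinearMap.mulLeft F (n t)).comp
            (LinearMap.mulRight F (n' t))) e := by
          change _ = n t * (e * n' t)
          rw [mul_assoc]
        rw [h2, hb.tr, map_sum]
        refine Finset.sum_congr rfl fun s _ => ?_
        rw [(hn t).hom]
        change cw F α (φ t s) (n t * (m * n' t)) = _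
        rw [mul_assoc]
      rw [h1]
      refine trace_bk fpx (cw F α) (R.map (φ t).toMonoidHom) R _ ((hn t).fx hb.fm) _ ?_ ?_
      · refine ⟨fun _ _ => Subgroup.mem_top _, ?_⟩
        intro p _
        obtain ⟨s, ⟨hs, hs1⟩, hs2⟩ := hb.tv.2 ((φ t)⁻¹ p) (Subgroup.mem_top _)
        refine ⟨φ t s, ⟨Finset.mem_image_of_mem _ hs, ?_⟩, ?_⟩
        · refine ⟨_, hs1, ?_⟩
          change φ t (s⁻¹ * (φ t)⁻¹ p) = _
          rw [map_mul, map_inv, MulAut.apply_inv_self]
        · rintro s' ⟨h2, h3⟩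
          obtain ⟨w, hw, rfl⟩ := Finset.mem_image.1 h2
          obtain ⟨r, hr, hr1⟩ := h3
          have h4 : w⁻¹ * (φ t)⁻¹ p ∈ R := by
            have h5 : w⁻¹ * (φ t)⁻¹ p = r := by
              apply (φ t).injective
              rw [map_mul, map_inv, MulAut.apply_inv_self]
              exact hr1.symm
            rw [h5]
            exact hr
          rw [hs2 w ⟨hw, h4⟩]
      · intro h
        apply ht
        change R.map (φ t).toMonoidHom = R
        symm
        apply Subgroup.eq_of_le_of_card_ge h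
        exact (Nat.card_congr (R.equivMapOfInjective _ (φ t).injective).toEquiv).ge
    obtain ⟨Q, hQ⟩ : ∃ Q : B, Q = ∑ k, xB k * yB k := ⟨_, rfl⟩
    obtain ⟨T', hT'⟩ : ∃ T' : Finset E, T' = T.filter fun t => t ∈ NE φ R := ⟨_, rfl⟩
    have hβe : β (∑ k, x k * e * y k) = (T'.card : B) * (f * Q) := by
      rw [hmk e hb.fx]
      have h1 : ∀ t ∈ T, ∑ k, xB k * β (n t * e * n' t) * yB k =
          if t ∈ NE φ R then f * Q else 0 := by
        intro t _
        by_cases ht : t ∈ NE φ R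
        · rw [if_pos ht, hin t ht, hQ, Finset.mul_sum]
          refine Finset.sum_congr rfl fun k _ => ?_
          rw [← hfc, mul_assoc]
        · rw [if_neg ht, hout t ht]
          refine Finset.sum_eq_zero fun k _ => ?_
          rw [mul_zero, zero_mul]
      rw [Finset.sum_congr rfl h1, ← Finset.sum_filter, ← hT', Finset.sum_const, nsmul_eq_mul]
    have hβ1 : β (∑ k, x k * y k) = (T.card : B) * Q := by
      have h1 := hmk 1 hone
      simp only [mul_one] at h1
      rw [h1]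
      have h2 : ∀ t ∈ T, ∑ k, xB k * β (n t * n' t) * yB k = Q := by
        intro t _
        rw [(hn t).l, hB.one, hQ]
        simp only [mul_one]
      rw [Finset.sum_congr rfl h2, Finset.sum_const, nsmul_eq_mul]
    have huB : β u * ((T.card : B) * Q) = 1 := by
      rw [← hβ1, ← hB.mul _ (hcfx huc) _ (hcfx hζc), hu, hB.one]
    obtain ⟨z, hz⟩ : ∃ z : A, z = u * ∑ k, x k * e * y k := ⟨_, rfl⟩
    rw [← hz]
    have hzR : z ∈ FxR (cw F α) R := by
      rw [hz]
      exact hfm (hcfx huc) (hcfx hrc)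
    have hβz : (T.card : B) * β z = (T'.card : B) * f := by
      rw [hz, hB.mul _ (hcfx huc) _ (hcfx hrc), hβe]
      have c1 : ∀ b : B, (T.card : B) * b = b * (T.card : B) := fun b => Nat.cast_commute _ _
      have c2 : ∀ b : B, (T'.card : B) * b = b * (T'.card : B) := fun b => Nat.cast_commute _ _
      calc (T.card : B) * (β u * ((T'.card : B) * (f * Q)))
          = (T.card : B) * β u * (T'.card : B) * (f * Q) := by simp only [mul_assoc]
        _ = (T'.card : B) * ((T.card : B) * β u * (f * Q)) := by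
            rw [← c2]
            simp only [mul_assoc]
        _ = (T'.card : B) * (β u * (T.card : B) * (f * Q)) := by rw [c1]
        _ = (T'.card : B) * (β u * ((T.card : B) * f * Q)) := by simp only [mul_assoc]
        _ = (T'.card : B) * (β u * (f * (T.card : B) * Q)) := by rw [c1]
        _ = (T'.card : B) * (β u * f * ((T.card : B) * Q)) := by simp only [mul_assoc]
        _ = (T'.card : B) * (f * β u * ((T.card : B) * Q)) := by rw [hfc]
        _ = (T'.card : B) * (f * (β u * ((T.card : B) * Q))) := by simp only [mul_assoc]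
        _ = (T'.card : B) * f := by rw [huB, mul_one]
    have hpfx : ∀ N : ℕ, z ^ N ∈ FxR (cw F α) R ∧ β (z ^ N) = β z ^ N := by
      intro N
      induction N with
      | zero =>
        rw [pow_zero, pow_zero]
        exact ⟨hone, hB.one⟩
      | succ N ih =>
        rw [pow_succ, pow_succ, hB.mul _ ih.1 _ hzR, ih.2]
        exact ⟨hfm ih.1 hzR, rfl⟩
    rintro ⟨N, hN⟩
    have h0 : β (0 : A) = 0 := (hB.ker 0 (Submodule.zero_mem _)).2 (Submodule.zero_mem _)
    have h1 : β z ^ (N + 1) = 0 := by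
      rw [← (hpfx (N + 1)).2, pow_succ, hN, zero_mul, h0]
    have h2 : ((T'.card : B) * f) ^ (N + 1) = 0 := by
      rw [← hβz, (Nat.cast_commute _ _ : Commute (T.card : B) (β z)).mul_pow, h1, mul_zero]
    have hfN : f ^ (N + 1) = f := by
      have : IsIdempotentElem f := hff
      exact this.pow_succ_eq N
    rw [(Nat.cast_commute _ _ : Commute (T'.card : B) f).mul_pow, hfN] at h2
    have hTc : (T'.card : F) ≠ 0 := by
      intro h
      apply hE
      have h3 := (CharP.cast_eq_zero_iff F ℓ _).1 h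
      rw [hT'] at h3
      exact h3.trans (card_dvd φ R T hT)
    have h3 : ((T'.card : F) ^ (N + 1)) • f = 0 := by
      rw [← h2, Algebra.smul_def, map_pow, map_natCast]
    rcases smul_eq_zero.1 h3 with h4 | h4
    · exact pow_ne_zero _ hTc h4
    · exact hf0 h4

end Pool.Agent.PSS.H4
end
end -- Pool.Agent.Helper4_PSS.BLB

section -- Pool.Agent.Helper60_PSS.BLW

/-!
# Squad PSS, row BLW: the condition `blk` follows from the case `Q = 1`
-/

noncomputable section

namespace Pool.Agent.PSS.H60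

open Pool.Agent.PSS

theorem blw (bla : BlaStmt) (blb : BlbStmt) (ftz : FtzStmt) : BlwStmt := by
  intro ℓ _ F V E A _ _ _ _ _ _ _ _ φ α hV hE hfin hper huni hrt hbl
  refine ⟨hfin, hper, huni, hrt, ?_⟩
  intro Q e he h1 h2 h3
  by_contra h
  obtain ⟨R, e', m, S, hB⟩ := bla ℓ F V E A φ α hV hper huni Q e he h1 h2 h3 h
  obtain ⟨lam, K, _, x, y, hRF, u, hu⟩ := hrt
  obtain ⟨z, hz1, hz2, hz3⟩ := blb ℓ F V E A K φ α lam x y u hV hE hper huni hRF hu R e' m S hB
  refine hz3 (ftz F A hfin (BKR (cw F α) ⊤) ?_ ?_ z hz2 hz1)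
  · intro z hz a ha
    refine BKR_hom (L := LinearMap.mulLeft F a) ?_ hz
    intro v m
    change a * (α v * (m * α v⁻¹)) = α v * (a * m * α v⁻¹)
    rw [← mul_assoc, ha, mul_assoc, mul_assoc]
  · intro e he hee hea
    exact hbl e hee hea he

end Pool.Agent.PSS.H60
end
end -- Pool.Agent.Helper60_PSS.BLW

section -- Pool.Agent.Helper56_PST.NWC

/-!
# Squad PST, row NWC (helper56): `N_W(A)` is in the class `Cl`
-/

set_option autoImplicit false

open scoped BigOperators TensorProduct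

noncomputable section

namespace Pool.Agent.PST.H56

open Pool.Agent.PFC (tw IsTv)
open Pool.Agent.PFD.D2b (FrR)
open Pool.Agent.PSS

/-- the Casimir element is central -/
theorem cas_central {F V A K : Type} [CommRing F] [CommGroup V] [Fintype V] [Ring A] [Algebra F A]
    [Fintype K] {α : V →* A} {lam : A →ₗ[F] F} {x y : K → A} (h : RF F α lam x y) (a : A) :
    a * ∑ k, x k * y k = (∑ k, x k * y k) * a := by
  calc a * ∑ k, x k * y k = ∑ k, (a * x k) * y k := by
        rw [Finset.mul_sum]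
        exact Finset.sum_congr rfl fun k _ => (mul_assoc _ _ _).symm
    _ = ∑ k, ∑ j, ∑ v, lam (α v⁻¹ * y j * (a * x k)) • (x j * α v * y k) := by
        refine Finset.sum_congr rfl fun k _ => ?_
        conv_lhs => rw [← h.e1 (a * x k)]
        rw [Finset.sum_mul]
        refine Finset.sum_congr rfl fun j _ => ?_
        rw [Finset.sum_mul]
        exact Finset.sum_congr rfl fun v _ => smul_mul_assoc _ _ _
    _ = ∑ j, ∑ k, ∑ v, lam (α v⁻¹ * y j * (a * x k)) • (x j * α v * y k) := Finset.sum_comm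
    _ = ∑ j, x j * (y j * a) := by
        refine Finset.sum_congr rfl fun j _ => ?_
        conv_rhs => rw [← h.e2 (y j * a)]
        rw [Finset.mul_sum]
        refine Finset.sum_congr rfl fun k _ => ?_
        rw [← Equiv.sum_comp (Equiv.inv V), Finset.mul_sum]
        refine Finset.sum_congr rfl fun v _ => ?_
        rw [Equiv.inv_apply, inv_inv, mul_smul_comm, mul_assoc (x j)]
        have e : lam (α v * y j * (a * x k)) = lam (y j * a * (x k * α v)) := by
          rw [mul_assoc (α v), h.sym]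
          simp only [mul_assoc]
        rw [e]
    _ = (∑ k, x k * y k) * a := by
        rw [Finset.sum_mul]
        exact Finset.sum_congr rfl fun j _ => (mul_assoc _ _ _).symm

/-- a traced element which is fixed by a larger group -/
theorem bkr_up {ℓ : ℕ} [Fact ℓ.Prime] {F V B Ω : Type} [CommRing F] [CommGroup V] [Fintype V]
    [Ring B] [Algebra F B] [Fintype Ω] [MulAction (V × V) Ω] (γ : V →* B) (b : Ω → B)
    (c : Ω → (B →ₗ[F] F)) (h0 : (ℓ : F) = 0) (hV : IsPGroup ℓ V) (hf : FrR (bw F γ) b c)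
    {Q P : Subgroup V} (hQP : Q ≤ P) {m : B} (h1 : m ∈ BKR (cw F γ) Q)
    (h2 : m ∈ FxR (cw F γ) P) : m ∈ BKR (cw F γ) P := by
  letI : MulAction V Ω :=
    MulAction.compHom Ω ((MonoidHom.id V).prod (MonoidHom.id V) : V →* V × V)
  have hfr : FrR (cw F γ) b c :=
    ⟨fun g t => hf.1 (g, g) t, fun g t n => hf.2.1 (g, g) t n, hf.2.2⟩
  have frb := Pool.Agent.PSS.H52.frb Pool.Agent.PSS.H85.orb
  have k1 := (frb ℓ F V B Ω (cw F γ) b c Q h0 (hV.to_subgroup Q) inferInstance hfr).1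
  have k2 := (frb ℓ F V B Ω (cw F γ) b c P h0 (hV.to_subgroup P) inferInstance hfr).2 m h2
  have k3 : ∑ ω : Fp Ω P, c ω.1 m • b ω.1 = 0 := by
    refine Finset.sum_eq_zero fun ω _ => ?_
    rw [k1 ω.1 (hQP.trans ω.2) m h1, zero_smul]
  rw [k3, sub_zero] at k2
  exact k2

section

variable {F V A B : Type} [CommRing F] [CommGroup V] [Ring A] [Algebra F A] [Ring B] [Algebra F B]

theorem fx_tw1 {α : V →* A} {W P : Subgroup V} (h : W ≤ P) {a : A}
    (ha : a ∈ FxR (cw F α) P) : a ∈ FxR (bw F α) (twW W (1 : MulAut W)) := by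
  rw [mem_tw]
  intro w
  rw [mem_cw] at ha
  exact ha w (h w.2)

theorem be_fx {α : V →* A} {W P : Subgroup V} (N : IsNW F α W B) (h : W ≤ P) {a : A}
    (ha : a ∈ FxR (cw F α) P) : N.β 1 a ∈ FxR (cw F N.nwh) P := by
  rw [mem_cw]
  intro p hp
  rw [N.nwh_apply]
  have h1 := N.mul 1 1 (α p) (al_mem_tw p W) a (fx_tw1 h ha)
  have h2 := N.mul 1 1 a (fx_tw1 h ha) (α p) (al_mem_tw p W)
  rw [mul_one] at h1 h2
  rw [← h1, ← h2]
  rw [mem_cw] at ha
  rw [ha p hp]

theorem be_mul {α : V →* A} {W P : Subgroup V} (N : IsNW F α W B) (h : W ≤ P) {a a' : A}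
    (ha : a ∈ FxR (cw F α) P) (ha' : a' ∈ FxR (cw F α) P) :
    N.β 1 (a * a') = N.β 1 a * N.β 1 a' := by
  have h1 := N.mul 1 1 a (fx_tw1 h ha) a' (fx_tw1 h ha')
  rw [mul_one] at h1
  exact h1

end

/-- NWC -/
theorem nwc (nfp : NfpStmt) (nrf : NrfStmt) (ncg : NcgStmt) (ncb : NcbStmt) (ncn : NcnStmt) :
    NwcStmt := by
  classical
  intro ℓ _ F V E A B _ _ _ _ _ _ _ _ _ φ α W N hV hW h
  have h0 : (ℓ : F) = 0 := CharP.cast_eq_zero F ℓ
  have hfin := h.fin
  haveI : Finite (MulAut W) := Finite.of_injective (fun f => (f : W → W)) DFunLike.coe_injective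
  letI : Fintype (MulAut W) := Fintype.ofFinite _
  obtain ⟨hper, huni⟩ := nfp ℓ F V E A B φ α W N h0 hV hW h.per h.uni
  refine ⟨?_, hper, huni, ?_, ?_⟩
  · -- fin
    let L : (MulAut W → A) →ₗ[F] B :=
      ∑ ε, (N.β ε).comp (LinearMap.proj (R := F) (φ := fun _ : MulAut W => A) ε)
    refine Module.Finite.of_surjective L ?_
    intro b
    obtain ⟨f, -, hf⟩ := N.spn b
    refine ⟨f, ?_⟩
    rw [← hf, finsum_eq_sum_of_fintype]
    show (∑ ε, (N.β ε).comp (LinearMap.proj (R := F) (φ := fun _ : MulAut W => A) ε)) f = _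
    rw [LinearMap.sum_apply]
    rfl
  · -- rt
    obtain ⟨lam, K, _, x, y, hRF, u, hu⟩ := h.rt
    obtain ⟨lam', K', _, x', y', hRF', hsum⟩ := nrf ℓ F V E A B K φ α W N lam x y h0 hV hW h.per
      hRF
    refine ⟨lam', K', inferInstance, x', y', hRF', N.β 1 u, ?_⟩
    have hc := cas_central hRF
    obtain ⟨ζ, hζ⟩ : ∃ ζ, ζ = ∑ k, x k * y k := ⟨_, rfl⟩
    rw [← hζ] at hc hu hsum
    have hζfx : ζ ∈ FxR (cw F α) ⊤ := by
      rw [mem_cw]
      intro q _
      exact hc _
    have hufx : u ∈ FxR (cw F α) ⊤ := by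
      rw [mem_cw]
      intro q _
      calc α q * u = u * ζ * α q * u := by rw [hu, one_mul]
        _ = u * (ζ * α q) * u := by rw [mul_assoc u]
        _ = u * (α q * ζ) * u := by rw [← hc]
        _ = u * α q * (ζ * u) := by simp only [mul_assoc]
        _ = u * α q * (u * ζ) := by rw [← hc u]
        _ = u * α q := by rw [hu, mul_one]
    rw [hsum, ← be_mul N le_top hufx hζfx, hu, N.one]
  · -- blk
    intro Q e he hee hcomm heT
    obtain ⟨Ω, _, _, b, c, hfr, hst⟩ := h.per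
    obtain ⟨Ω', _, _, b', c', hfr', -⟩ := hper
    have hfre : ∀ (u : V) (ω : Ω), ((u, 1) : V × V) • ω = ω → u = 1 := by
      intro u ω hu
      obtain ⟨ε, S, hS⟩ := hst ω
      have h1 : ((u, 1) : V × V) ∈ MulAction.stabilizer (V × V) ω := hu
      rw [hS] at h1
      obtain ⟨s, _, hs⟩ := h1
      have h2 : s = 1 := congrArg Prod.snd hs
      have h3 : φ ε s = u := congrArg Prod.fst hs
      rw [← h3, h2, map_one]
    have bki := Pool.Agent.PSS.S0.H6.bki
    obtain ⟨P, hP⟩ : ∃ P, P = Q ⊔ W := ⟨_, rfl⟩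
    have hQP : Q ≤ P := by rw [hP]; exact le_sup_left
    have hWP : W ≤ P := by rw [hP]; exact le_sup_right
    obtain ⟨f, hf1, hf2, hf3⟩ := ncg F V A B α W N ⊤ e he
    obtain ⟨p1, p2, -⟩ := ncb ℓ F V A B Ω α b c W P N hV hfr hfre hWP
    obtain ⟨t1, t2, t3⟩ := ncb ℓ F V A B Ω α b c W ⊤ N hV hfr hfre le_top
    obtain ⟨g, hg, hgf⟩ := t3 (f 1) (hf1 1) (hf2 1)
    have mono : ∀ {γ : V →* B} {a : B} {S : Subgroup V}, a ∈ FxR (cw F γ) ⊤ →
        a ∈ FxR (cw F γ) S := fun ha v _ => ha v trivial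
    have monoA : ∀ {a : A} {S : Subgroup V}, a ∈ FxR (cw F α) ⊤ →
        a ∈ FxR (cw F α) S := fun ha v _ => ha v trivial
    -- the rest `n`
    obtain ⟨n, hn⟩ : ∃ n, n = ∑ ε ∈ Finset.univ.erase (1 : MulAut W), N.β ε (f ε) := ⟨_, rfl⟩
    have hen : e = N.β 1 g + n := by
      rw [hn, hgf, ← hf3, finsum_eq_sum_of_fintype]
      exact (Finset.add_sum_erase _ _ (Finset.mem_univ _)).symm
    have hnT : n ∈ BKR (cw F N.nwh) ⊤ := by
      rw [hn]
      refine Submodule.sum_mem _ fun ε hε => ?_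
      exact t2 ε (Finset.ne_of_mem_erase hε) _ (hf1 ε) (hf2 ε)
    have hnP : n ∈ BKR (cw F N.nwh) P := by
      rw [hn]
      refine Submodule.sum_mem _ fun ε hε => ?_
      exact p2 ε (Finset.ne_of_mem_erase hε) _ (hf1 ε) (mono (hf2 ε))
    have hnfx : n ∈ FxR (cw F N.nwh) P := BKR_le_FxR hnP
    obtain ⟨e1, he1⟩ : ∃ e1, e1 = N.β 1 g := ⟨_, rfl⟩
    have he1fx : e1 ∈ FxR (cw F N.nwh) ⊤ := by
      rw [he1]
      exact be_fx N le_top hg
    have he1P : e1 ∈ FxR (cw F N.nwh) P := mono he1fx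
    rw [← he1] at hen
    have hgT : g ∈ BKR (cw F α) ⊤ := by
      refine (t1 g hg).1 ?_
      rw [← he1]
      have h1 : e1 = e - n := by rw [hen, add_sub_cancel_right]
      rw [h1]
      exact Submodule.sub_mem _ heT hnT
    have hmul : ∀ {a a' : B}, a ∈ FxR (cw F N.nwh) P → a' ∈ FxR (cw F N.nwh) P →
        a * a' ∈ FxR (cw F N.nwh) P := fun ha ha' => Pool.Agent.PSS.S0.H6.fx_mul _ ha ha'
    have hmulA : ∀ {a a' : A} {S : Subgroup V}, a ∈ FxR (cw F α) S → a' ∈ FxR (cw F α) S →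
        a * a' ∈ FxR (cw F α) S := fun ha ha' => Pool.Agent.PSS.S0.H6.fx_mul _ ha ha'
    have heP : e ∈ FxR (cw F N.nwh) P := mono he
    have hgP : g ∈ FxR (cw F α) P := monoA hg
    -- `g` is idempotent modulo the kernel
    have hgg : g * g - g ∈ BKR (cw F α) P := by
      refine (p1 _ (Submodule.sub_mem _ (hmulA hgP hgP) hgP)).1 ?_
      have h1 : e * e - e ∈ BKR (cw F N.nwh) P :=
        bkr_up N.nwh b' c' h0 hV hfr' hQP hee (Submodule.sub_mem _ (hmul heP heP) heP)
      have h2 : N.β 1 (g * g - g) = (e * e - e) - (e1 * n + n * e1 + n * n - n) := by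
        rw [map_sub, be_mul N le_top hg hg, ← he1, hen]
        noncomm_ring
      rw [h2]
      refine Submodule.sub_mem _ h1 (Submodule.sub_mem _ (Submodule.add_mem _
        (Submodule.add_mem _ ?_ ?_) ?_) hnP)
      · exact (bki F V B N.nwh P e1 he1P n hnP).1
      · exact (bki F V B N.nwh P e1 he1P n hnP).2
      · exact (bki F V B N.nwh P n hnfx n hnP).1
    have hgc : ∀ a ∈ FxR (cw F α) P, g * a - a * g ∈ BKR (cw F α) P := by
      intro a ha
      refine (p1 _ (Submodule.sub_mem _ (hmulA hgP ha) (hmulA ha hgP))).1 ?_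
      obtain ⟨a', ha'⟩ : ∃ a', a' = N.β 1 a := ⟨_, rfl⟩
      have ha'P : a' ∈ FxR (cw F N.nwh) P := by
        rw [ha']
        exact be_fx N hWP ha
      have ha'Q : a' ∈ FxR (cw F N.nwh) Q := fun v hv => ha'P v (hQP hv)
      have h1 : e * a' - a' * e ∈ BKR (cw F N.nwh) P :=
        bkr_up N.nwh b' c' h0 hV hfr' hQP (hcomm a' ha'Q)
          (Submodule.sub_mem _ (hmul heP ha'P) (hmul ha'P heP))
      have h2 : N.β 1 (g * a - a * g) = (e * a' - a' * e) - (n * a' - a' * n) := by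
        rw [map_sub, be_mul N hWP hgP ha, be_mul N hWP ha hgP, ← he1, ← ha', hen]
        noncomm_ring
      rw [h2]
      refine Submodule.sub_mem _ h1 (Submodule.sub_mem _ ?_ ?_)
      · exact (bki F V B N.nwh P a' ha'P n hnP).2
      · exact (bki F V B N.nwh P a' ha'P n hnP).1
    have hgk := h.blk P g hg hgg hgc hgT
    have hek : e ∈ BKR (cw F N.nwh) P := by
      rw [hen, he1]
      exact Submodule.add_mem _ ((p1 g hgP).2 hgk) hnP
    rw [hP] at hek
    exact ncn ℓ F V A B α W Q N e hV (mono he) hee hek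

end Pool.Agent.PST.H56
end
end -- Pool.Agent.Helper56_PST.NWC
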