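import Pool.Agent.Helper12_AWB.B005

/-!
# Merged copies (generated) of the modules

* `Pool.Agent.PSS.Dm`
* `Pool.Agent.PSS.DefsS1`
* `Pool.Agent.PSS.StmtsS1a`
* `Pool.Agent.PSS.StmtsS2`
* `Pool.Agent.Helper51_PSS.LFT`
-/

set_option autoImplicit false

section -- Pool.Agent.PSS.Dm

/-!
Squad PSS (theorem (S)), block S1 (helper36): relative deformations over `k[[s]]`.

`Dm k om`: a deformation `x * y = ∑ s^n m n x y` of the algebra `A`, relative to the group `W`
(`om : W → A` is not deformed).  `Dm.R D`: the ring of the deformation, an algebra over the power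
series ring `k[[s]]`; its elements are the sequences `f : ℕ → A` (`Dm.of D f`, `Dm.sq x`), with the
product `Dm.mul`.
-/

open scoped BigOperators

noncomputable section

namespace Pool.Agent.PSS

open Finset

/-- exchange of sums over antidiagonals -/
theorem ad_swap {M : Type} [AddCommMonoid M] (n : ℕ) (T : ℕ → ℕ → ℕ → ℕ → M) :
    ∑ p ∈ antidiagonal n, ∑ q ∈ antidiagonal p.1, ∑ r ∈ antidiagonal p.2,
      T q.1 q.2 r.1 r.2 =
    ∑ p ∈ antidiagonal n, ∑ q ∈ antidiagonal p.1, ∑ r ∈ antidiagonal p.2,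
      T r.1 q.1 r.2 q.2 := by
  have key : ∀ S : ℕ → ℕ → ℕ → ℕ → M,
      ∑ p ∈ antidiagonal n, ∑ q ∈ antidiagonal p.1, ∑ r ∈ antidiagonal p.2,
        S q.1 q.2 r.1 r.2 =
      ∑ x ∈ (antidiagonal n).sigma (fun p => antidiagonal p.1 ×ˢ antidiagonal p.2),
        S x.2.1.1 x.2.1.2 x.2.2.1 x.2.2.2 := by
    intro S
    rw [Finset.sum_sigma]
    refine Finset.sum_congr rfl fun p _ => ?_
    rw [Finset.sum_product]
  rw [key T, key (fun a b c d => T c a d b)]
  refine Finset.sum_nbij'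
    (i := fun x => ⟨(x.2.1.2 + x.2.2.2, x.2.1.1 + x.2.2.1),
      ((x.2.1.2, x.2.2.2), (x.2.1.1, x.2.2.1))⟩)
    (j := fun x => ⟨(x.2.2.1 + x.2.1.1, x.2.2.2 + x.2.1.2),
      ((x.2.2.1, x.2.1.1), (x.2.2.2, x.2.1.2))⟩) ?_ ?_ ?_ ?_ ?_
  · rintro ⟨⟨a, b⟩, ⟨c, d⟩, ⟨e, f⟩⟩ h
    simp only [mem_sigma, Finset.HasAntidiagonal.mem_antidiagonal, mem_product] at h ⊢
    refine ⟨?_, trivial, trivial⟩
    omega
  · rintro ⟨⟨a, b⟩, ⟨c, d⟩, ⟨e, f⟩⟩ h
    simp only [mem_sigma, Finset.HasAntidiagonal.mem_antidiagonal, mem_product] at h ⊢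
    refine ⟨?_, trivial, trivial⟩
    omega
  · rintro ⟨⟨a, b⟩, ⟨c, d⟩, ⟨e, f⟩⟩ h
    simp only [mem_sigma, Finset.HasAntidiagonal.mem_antidiagonal, mem_product] at h
    obtain ⟨h1, h2, h3⟩ := h
    subst h2 h3
    rfl
  · rintro ⟨⟨a, b⟩, ⟨c, d⟩, ⟨e, f⟩⟩ h
    simp only [mem_sigma, Finset.HasAntidiagonal.mem_antidiagonal, mem_product] at h
    obtain ⟨h1, h2, h3⟩ := h
    subst h2 h3
    rfl
  · rintro ⟨⟨a, b⟩, ⟨c, d⟩, ⟨e, f⟩⟩ h
    rfl

/-- deformation over `k[[s]]` of the `k`-algebra `A`, relative to the group `W` -/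
structure Dm (k : Type) {A W : Type} [CommRing k] [Ring A] [Algebra k A] [Group W]
    (om : W →* A) where
  m : ℕ → (A →ₗ[k] A →ₗ[k] A)
  m0 : ∀ x y, m 0 x y = x * y
  ass : ∀ n x y z, ∑ p ∈ antidiagonal n, m p.1 (m p.2 x y) z =
    ∑ p ∈ antidiagonal n, m p.1 x (m p.2 y z)
  wl : ∀ n w x y, m n (om w * x) y = om w * m n x y
  wm : ∀ n w x y, m n (x * om w) y = m n x (om w * y)
  wr : ∀ n w x y, m n x (y * om w) = m n x y * om w
  n1 : ∀ n x, m (n + 1) 1 x = 0
  n2 : ∀ n x, m (n + 1) x 1 = 0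

namespace Dm

variable {k A W : Type} [CommRing k] [Ring A] [Algebra k A] [Group W] {om : W →* A}
  (D : Dm k om)

/-- the product of sequences -/
def mul (f g : ℕ → A) (n : ℕ) : A :=
  ∑ p ∈ antidiagonal n, ∑ q ∈ antidiagonal p.2, D.m p.1 (f q.1) (g q.2)

/-- the left multiplication of a sequence -/
def lft (f : ℕ → A) : PowerSeries (Module.End k A) :=
  PowerSeries.mk fun n => ∑ p ∈ antidiagonal n, D.m p.1 (f p.2)

theorem lft_coeff (f : ℕ → A) (n : ℕ) :
    PowerSeries.coeff n (D.lft f) = ∑ p ∈ antidiagonal n, D.m p.1 (f p.2) := by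
  rw [lft, PowerSeries.coeff_mk]

theorem lft_apply (f : ℕ → A) (n : ℕ) (x : A) :
    (PowerSeries.coeff n (D.lft f)) x = ∑ p ∈ antidiagonal n, D.m p.1 (f p.2) x := by
  rw [lft_coeff, LinearMap.sum_apply]

theorem lft_one (f : ℕ → A) (n : ℕ) : (PowerSeries.coeff n (D.lft f)) 1 = f n := by
  rw [lft_apply, Finset.sum_eq_single (0, n)]
  · rw [D.m0, mul_one]
  · rintro ⟨a, b⟩ h hne
    rcases a with _ | a
    · rw [Finset.HasAntidiagonal.mem_antidiagonal] at h
      simp only [zero_add] at h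
      exact absurd (by rw [h]) hne
    · exact D.n2 a _
  · intro h
    exact absurd (by rw [Finset.HasAntidiagonal.mem_antidiagonal]; simp) h

theorem lft_inj {f g : ℕ → A} (h : D.lft f = D.lft g) : f = g := by
  funext n
  rw [← D.lft_one f n, h, D.lft_one]

theorem lft_add (f g : ℕ → A) : D.lft (f + g) = D.lft f + D.lft g := by
  ext n x
  rw [map_add, LinearMap.add_apply, lft_apply, lft_apply, lft_apply, ← Finset.sum_add_distrib]
  refine Finset.sum_congr rfl fun p _ => ?_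
  rw [Pi.add_apply, map_add, LinearMap.add_apply]

theorem lft_zero : D.lft 0 = 0 := by
  ext n x
  rw [lft_apply, map_zero, LinearMap.zero_apply]
  refine Finset.sum_eq_zero fun p _ => ?_
  rw [Pi.zero_apply, map_zero, LinearMap.zero_apply]

theorem lft_neg (f : ℕ → A) : D.lft (-f) = -D.lft f := by
  have h := D.lft_add f (-f)
  rw [add_neg_cancel, lft_zero] at h
  exact eq_neg_of_add_eq_zero_right h.symm

/-- the sequence of an element of `A` -/
def cst (a : A) (n : ℕ) : A := if n = 0 then a else 0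

theorem lft_cst_one : D.lft (cst 1) = 1 := by
  ext n x
  rw [lft_apply, PowerSeries.coeff_one]
  rcases n with _ | n
  · simp [cst, D.m0]
  · rw [if_neg (Nat.succ_ne_zero n), LinearMap.zero_apply]
    refine Finset.sum_eq_zero fun p hp => ?_
    rw [cst]
    split_ifs with h
    · rw [Finset.HasAntidiagonal.mem_antidiagonal, h, add_zero] at hp
      rw [hp]
      exact D.n1 n x
    · rw [map_zero, LinearMap.zero_apply]

theorem lft_mul (f g : ℕ → A) : D.lft (D.mul f g) = D.lft f * D.lft g := by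
  ext n x
  rw [lft_apply, PowerSeries.coeff_mul, LinearMap.sum_apply]
  have h1 : ∀ p : ℕ × ℕ, ((PowerSeries.coeff p.1) (D.lft f) *
      (PowerSeries.coeff p.2) (D.lft g)) x =
      ∑ q ∈ antidiagonal p.1, ∑ r ∈ antidiagonal p.2,
        D.m q.1 (f q.2) (D.m r.1 (g r.2) x) := by
    intro p
    rw [Module.End.mul_apply, lft_apply, lft_apply]
    refine Finset.sum_congr rfl fun q _ => ?_
    rw [map_sum]
  simp_rw [h1]
  rw [ad_swap n (fun a b c d => D.m a (f b) (D.m c (g d) x))]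
  -- right side: ∑_(j,l) ∑_(i,k) m_i (f_j) (m_k g_l x)
  have h2 : ∀ p : ℕ × ℕ, ∀ q : ℕ × ℕ, ∑ r ∈ antidiagonal p.2,
      D.m r.1 (f q.1) (D.m r.2 (g q.2) x) =
      ∑ r ∈ antidiagonal p.2, D.m r.1 (D.m r.2 (f q.1) (g q.2)) x := by
    intro p q
    exact (D.ass p.2 (f q.1) (g q.2) x).symm
  simp_rw [h2]
  -- left side
  have h3 : ∀ p : ℕ × ℕ, D.m p.1 (D.mul f g p.2) x =
      ∑ q ∈ antidiagonal p.2, ∑ r ∈ antidiagonal q.2,
        D.m p.1 (D.m q.1 (f r.1) (g r.2)) x := by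
    intro p
    rw [mul, map_sum, LinearMap.sum_apply]
    refine Finset.sum_congr rfl fun q _ => ?_
    rw [map_sum, LinearMap.sum_apply]
  simp_rw [h3]
  -- ∑_(p1 + (q1 + (r1 + r2)) = n)
  have key : ∀ S : ℕ → ℕ → ℕ → ℕ → A,
      ∑ p ∈ antidiagonal n, ∑ q ∈ antidiagonal p.2, ∑ r ∈ antidiagonal q.2,
        S p.1 q.1 r.1 r.2 =
      ∑ p ∈ antidiagonal n, ∑ q ∈ antidiagonal p.1, ∑ r ∈ antidiagonal p.2,
        S r.1 r.2 q.1 q.2 := by
    intro S
    have e1 : ∑ p ∈ antidiagonal n, ∑ q ∈ antidiagonal p.2, ∑ r ∈ antidiagonal q.2,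
        S p.1 q.1 r.1 r.2 =
        ∑ x ∈ (antidiagonal n).sigma (fun p => (antidiagonal p.2).sigma
          (fun q => antidiagonal q.2)), S x.1.1 x.2.1.1 x.2.2.1 x.2.2.2 := by
      rw [Finset.sum_sigma]
      refine Finset.sum_congr rfl fun p _ => ?_
      rw [Finset.sum_sigma]
    have e2 : ∑ p ∈ antidiagonal n, ∑ q ∈ antidiagonal p.1, ∑ r ∈ antidiagonal p.2,
        S r.1 r.2 q.1 q.2 =
        ∑ x ∈ (antidiagonal n).sigma (fun p => antidiagonal p.1 ×ˢ antidiagonal p.2),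
          S x.2.2.1 x.2.2.2 x.2.1.1 x.2.1.2 := by
      rw [Finset.sum_sigma]
      refine Finset.sum_congr rfl fun p _ => ?_
      rw [Finset.sum_product]
    rw [e1, e2]
    refine Finset.sum_nbij'
      (i := fun x => ⟨(x.2.2.1 + x.2.2.2, x.1.1 + x.2.1.1),
        ((x.2.2.1, x.2.2.2), (x.1.1, x.2.1.1))⟩)
      (j := fun x => ⟨(x.2.2.1, x.2.2.2 + (x.2.1.1 + x.2.1.2)),
        ⟨(x.2.2.2, x.2.1.1 + x.2.1.2), (x.2.1.1, x.2.1.2)⟩⟩) ?_ ?_ ?_ ?_ ?_
    · rintro ⟨⟨a, b⟩, ⟨c, d⟩, ⟨e, f⟩⟩ h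
      simp only [mem_sigma, Finset.HasAntidiagonal.mem_antidiagonal, mem_product] at h ⊢
      refine ⟨?_, trivial, trivial⟩
      omega
    · rintro ⟨⟨a, b⟩, ⟨c, d⟩, ⟨e, f⟩⟩ h
      simp only [mem_sigma, Finset.HasAntidiagonal.mem_antidiagonal, mem_product] at h ⊢
      refine ⟨?_, trivial, trivial⟩
      omega
    · rintro ⟨⟨a, b⟩, ⟨c, d⟩, ⟨e, f⟩⟩ h
      simp only [mem_sigma, Finset.HasAntidiagonal.mem_antidiagonal] at h
      obtain ⟨h1, h2, h3⟩ := h
      subst h3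
      subst h2
      rfl
    · rintro ⟨⟨a, b⟩, ⟨c, d⟩, ⟨e, f⟩⟩ h
      simp only [mem_sigma, Finset.HasAntidiagonal.mem_antidiagonal, mem_product] at h
      obtain ⟨h1, h2, h3⟩ := h
      subst h2 h3
      rfl
    · rintro ⟨⟨a, b⟩, ⟨c, d⟩, ⟨e, f⟩⟩ h
      rfl
  exact key (fun a b c d => D.m a (D.m b (f c) (g d)) x)

/-- the action of a power series on a sequence -/
def smulq (c : PowerSeries k) (f : ℕ → A) (n : ℕ) : A :=
  ∑ p ∈ antidiagonal n, PowerSeries.coeff p.1 c • f p.2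

/-- power series with coefficients in `k` as power series with coefficients in `End A` -/
def scl (k A : Type) [CommRing k] [Ring A] [Algebra k A] :
    PowerSeries k →+* PowerSeries (Module.End k A) :=
  PowerSeries.map (algebraMap k (Module.End k A))

theorem scl_comm (c : PowerSeries k) (x : PowerSeries (Module.End k A)) :
    scl k A c * x = x * scl k A c := by
  ext n y
  rw [PowerSeries.coeff_mul, PowerSeries.coeff_mul]
  rw [← Finset.Nat.sum_antidiagonal_swap (f := fun p : ℕ × ℕ =>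
    (PowerSeries.coeff p.1) x * (PowerSeries.coeff p.2) ((scl k A) c))]
  rw [LinearMap.sum_apply, LinearMap.sum_apply]
  refine Finset.sum_congr rfl fun p _ => ?_
  simp only [Prod.fst_swap, Prod.snd_swap]
  rw [scl, PowerSeries.coeff_map, Module.End.mul_apply, Module.End.mul_apply,
    Module.algebraMap_end_apply, Module.algebraMap_end_apply, map_smul]

theorem lft_smul (c : PowerSeries k) (f : ℕ → A) : D.lft (smulq c f) = scl k A c * D.lft f := by
  ext n x
  rw [lft_apply, PowerSeries.coeff_mul, LinearMap.sum_apply]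
  have h1 : ∀ p : ℕ × ℕ, ((PowerSeries.coeff p.1) (scl k A c) *
      (PowerSeries.coeff p.2) (D.lft f)) x =
      ∑ q ∈ antidiagonal p.2, PowerSeries.coeff p.1 c • D.m q.1 (f q.2) x := by
    intro p
    rw [Module.End.mul_apply, lft_apply, scl, PowerSeries.coeff_map,
      Module.algebraMap_end_apply, Finset.smul_sum]
  have h2 : ∀ p : ℕ × ℕ, D.m p.1 (smulq c f p.2) x =
      ∑ q ∈ antidiagonal p.2, PowerSeries.coeff q.1 c • D.m p.1 (f q.2) x := by
    intro p
    rw [smulq, map_sum, LinearMap.sum_apply]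
    refine Finset.sum_congr rfl fun q _ => ?_
    rw [map_smul, LinearMap.smul_apply]
  simp_rw [h1, h2]
  have e : ∀ S : ℕ → ℕ → ℕ → A, ∑ p ∈ antidiagonal n, ∑ q ∈ antidiagonal p.2,
      S p.1 q.1 q.2 = ∑ x ∈ (antidiagonal n).sigma (fun p => antidiagonal p.2),
        S x.1.1 x.2.1 x.2.2 := by
    intro S
    rw [Finset.sum_sigma]
  rw [e (fun a b c' => PowerSeries.coeff b c • D.m a (f c') x),
    e (fun a b c' => PowerSeries.coeff a c • D.m b (f c') x)]
  refine Finset.sum_nbij'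
    (i := fun x => ⟨(x.2.1, x.1.1 + x.2.2), (x.1.1, x.2.2)⟩)
    (j := fun x => ⟨(x.2.1, x.1.1 + x.2.2), (x.1.1, x.2.2)⟩) ?_ ?_ ?_ ?_ ?_
  · rintro ⟨⟨a, b⟩, ⟨c, d⟩⟩ h
    simp only [mem_sigma, Finset.HasAntidiagonal.mem_antidiagonal] at h ⊢
    refine ⟨?_, trivial⟩
    omega
  · rintro ⟨⟨a, b⟩, ⟨c, d⟩⟩ h
    simp only [mem_sigma, Finset.HasAntidiagonal.mem_antidiagonal] at h ⊢
    refine ⟨?_, trivial⟩
    omega
  · rintro ⟨⟨a, b⟩, ⟨c, d⟩⟩ h
    simp only [mem_sigma, Finset.HasAntidiagonal.mem_antidiagonal] at h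
    obtain ⟨h1, h2⟩ := h
    subst h2
    rfl
  · rintro ⟨⟨a, b⟩, ⟨c, d⟩⟩ h
    simp only [mem_sigma, Finset.HasAntidiagonal.mem_antidiagonal] at h
    obtain ⟨h1, h2⟩ := h
    subst h2
    rfl
  · rintro ⟨⟨a, b⟩, ⟨c, d⟩⟩ h
    rfl

/-- the ring of the deformation, as a subring -/
def S : Subring (PowerSeries (Module.End k A)) where
  carrier := {x | ∃ f : ℕ → A, x = D.lft f}
  mul_mem' := by
    rintro _ _ ⟨f, rfl⟩ ⟨g, rfl⟩
    exact ⟨D.mul f g, (D.lft_mul f g).symm⟩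
  one_mem' := ⟨cst 1, D.lft_cst_one.symm⟩
  add_mem' := by
    rintro _ _ ⟨f, rfl⟩ ⟨g, rfl⟩
    exact ⟨f + g, (D.lft_add f g).symm⟩
  zero_mem' := ⟨0, D.lft_zero.symm⟩
  neg_mem' := by
    rintro _ ⟨f, rfl⟩
    exact ⟨-f, (D.lft_neg f).symm⟩

/-- the ring of the deformation -/
def R : Type := D.S

instance : Ring D.R := inferInstanceAs (Ring D.S)

/-- the element given by a sequence -/
def of (f : ℕ → A) : D.R := ⟨D.lft f, f, rfl⟩

/-- the sequence of an element -/
def sq (x : D.R) : ℕ → A := x.2.choose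

theorem of_sq (x : D.R) : D.of (D.sq x) = x := Subtype.ext x.2.choose_spec.symm

theorem sq_of (f : ℕ → A) : D.sq (D.of f) = f :=
  D.lft_inj (congrArg Subtype.val (D.of_sq (D.of f)))

theorem of_add (f g : ℕ → A) : D.of (f + g) = D.of f + D.of g := Subtype.ext (D.lft_add f g)

theorem of_neg (f : ℕ → A) : D.of (-f) = -D.of f := Subtype.ext (D.lft_neg f)

theorem of_zero : D.of 0 = 0 := Subtype.ext D.lft_zero

theorem of_one : D.of (cst 1) = 1 := Subtype.ext D.lft_cst_one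

theorem of_mul (f g : ℕ → A) : D.of (D.mul f g) = D.of f * D.of g := Subtype.ext (D.lft_mul f g)

theorem scl_mem (c : PowerSeries k) : scl k A c ∈ D.S := by
  refine ⟨smulq c (cst 1), ?_⟩
  rw [D.lft_smul, D.lft_cst_one, mul_one]

/-- the ring is an algebra over the power series ring -/
instance : Algebra (PowerSeries k) D.R :=
  RingHom.toAlgebra' ((scl k A).codRestrict D.S D.scl_mem) fun c x =>
    Subtype.ext (scl_comm c x.1)

theorem of_smul (c : PowerSeries k) (f : ℕ → A) : D.of (smulq c f) = c • D.of f := by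
  rw [Algebra.smul_def]
  exact Subtype.ext (D.lft_smul c f)

end Dm

end Pool.Agent.PSS
end
end -- Pool.Agent.PSS.Dm

section -- Pool.Agent.PSS.DefsS1

/-!
# Squad PSS, block S1 (helper36): definitions

`Vz φ W z`: `V = ⟨z⟩ × W`, `W` stable.  `StE φ Ω`: stabilisers are twisted diagonals (weak form).
`Csm k α u v`: relative Casimir families over `V`.  `rt x y a = ∑ x k * a * y k`.
`KC`: an `R`-order `A` in the `K`-algebra `B`, with frame and dual families.
`WBl`, `WB2`, `Nrm`, `dl`, `d1`: relative normalised cochains with values in `B`.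
`Trv β W P m`: the trivialisation `P = 1 + s P_1 + ..` over `K`, `P x · P y = P (x * y)`,
`x * y = ∑ s^n m n x y`.
`Dm.w`: the group `W` in the ring of the deformation.
-/

open scoped BigOperators TensorProduct

noncomputable section

namespace Pool.Agent.PSS

open Pool.Agent.PFD.D2 (Cdv FibG)
open Pool.Agent.PFD.D2b (FrR)
open Finset

/-- `V = ⟨z⟩ × W`, `W` is `E`-stable. -/
structure Vz {V E : Type} [CommGroup V] [Group E] (φ : E →* MulAut V) (W : Subgroup V) (z : V) :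
    Prop where
  gen : ∀ v : V, ∃ j : ℕ, ∃ w ∈ W, v = z ^ j * w
  dis : ∀ j : ℕ, z ^ j ∈ W → z ^ j = 1
  stb : ∀ e : E, ∀ w ∈ W, φ e w ∈ W

/-- the elements of the stabilisers are twisted diagonal -/
def StE {V E : Type} [CommGroup V] [Group E] (φ : E →* MulAut V) (Ω : Type)
    [MulAction (V × V) Ω] : Prop :=
  ∀ (ω : Ω) (u v : V), ((u, v) : V × V) • ω = ω → ∃ e : E, u = φ e v

section csm

variable (k : Type) {V A K : Type} [CommRing k] [Group V] [Ring A] [Algebra k A] [Fintype K]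

/-- relative Casimir families over `V` -/
def Csm (α : V →* A) (u v : K → A) : Prop :=
  ∑ i, u i * v i = 1 ∧
  ∀ (X : Type) [AddCommGroup X] [Module k X] (f : A →ₗ[k] A →ₗ[k] X),
    (∀ a g b, f (a * α g) b = f a (α g * b)) → ∀ a, ∑ i, f (a * u i) (v i) = ∑ i, f (u i) (v i * a)

/-- the relative trace -/
def rt {A K : Type} [Ring A] [Fintype K] (x y : K → A) (a : A) : A := ∑ i, x i * a * y i

end csm

/-! ## Orders -/

/-- the group in `B` -/
def ia {R V A B : Type} [CommRing R] [Group V] [Ring A] [Algebra R A] [Ring B] [Algebra R B]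
    (i : A →ₐ[R] B) (α : V →* A) : V →* B := (i : A →* B).comp α

@[simp] theorem ia_apply {R V A B : Type} [CommRing R] [Group V] [Ring A] [Algebra R A] [Ring B]
    [Algebra R B] (i : A →ₐ[R] B) (α : V →* A) (v : V) : ia i α v = i (α v) := rfl

/-- `A` is an `R`-order in the `K`-algebra `B`, compatible frames and dual families -/
structure KC (R K B : Type) {V A κ Ω : Type} [CommRing R] [Field K] [Algebra R K] [CommGroup V]
    [Fintype V] [Ring A] [Algebra R A] [Ring B] [Algebra R B] [Algebra K B] [Fintype κ] [Fintype Ω]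
    [MulAction (V × V) Ω] (α : V →* A) (lam : A →ₗ[R] R) (x y : κ → A) (b : Ω → A)
    (c : Ω → (A →ₗ[R] R)) where
  i : A →ₐ[R] B
  inj : Function.Injective i
  tow : ∀ (r : R) (a : B), algebraMap R K r • a = r • a
  rinj : Function.Injective (algebraMap R K)
  rf : RF R α lam x y
  fr : FrR (bw R α) b c
  lamK : B →ₗ[K] K
  lk : ∀ a, lamK (i a) = algebraMap R K (lam a)
  rfK : RF K (ia i α) lamK (fun t => i (x t)) (fun t => i (y t))
  cK : Ω → (B →ₗ[K] K)
  ck : ∀ ω a, cK ω (i a) = algebraMap R K (c ω a)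
  frK : FrR (bw K (ia i α)) (fun ω => i (b ω)) cK

section coch

variable {V A B : Type} [CommGroup V] [Ring A] [Ring B]

/-- the element `x` of `B` is in the image of `i` -/
def In (i : A → B) (x : B) : Prop := ∃ a, i a = x

/-- `W`-`W`-linear -/
def WBl (β : V →* B) (W : Subgroup V) (g : B → B) : Prop :=
  ∀ w ∈ W, ∀ x, g (β w * x) = β w * g x ∧ g (x * β w) = g x * β w

/-- relative 2-cochain -/
def WB2 (β : V →* B) (W : Subgroup V) (c : B → B → B) : Prop :=
  ∀ w ∈ W, ∀ x y, c (β w * x) y = β w * c x y ∧ c (x * β w) y = c x (β w * y) ∧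
    c x (y * β w) = c x y * β w

/-- normalised 2-cochain -/
def Nrm (c : B → B → B) : Prop := (∀ x, c 1 x = 0) ∧ ∀ x, c x 1 = 0

/-- the coboundary of a 2-cochain -/
def dl (c : B → B → B) (x y z : B) : B := x * c y z - c (x * y) z + c x (y * z) - c x y * z

/-- the coboundary of a 1-cochain -/
def d1 (g : B → B) (x y : B) : B := x * g y - g (x * y) + g x * y

end coch

/-- the trivialisation `P` over `K` of the deformation `m` -/
structure Trv {K V B : Type} [Field K] [CommGroup V] [Ring B] [Algebra K B] (β : V →* B)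
    (W : Subgroup V) (P : ℕ → (B →ₗ[K] B)) (m : ℕ → (B →ₗ[K] B →ₗ[K] B)) : Prop where
  p0 : P 0 = LinearMap.id
  pw : ∀ n, WBl β W (P n)
  p1 : ∀ n, P (n + 1) 1 = 0
  pm : ∀ n x y, ∑ p ∈ antidiagonal n, P p.1 x * P p.2 y =
    ∑ p ∈ antidiagonal n, P p.1 (m p.2 x y)

/-- the restriction of the structure map to `W` -/
def aw {V A : Type} [CommGroup V] [Ring A] (α : V →* A) (W : Subgroup V) : W →* A :=
  α.comp W.subtype

namespace Dm

variable {k A W : Type} [CommRing k] [Ring A] [Algebra k A] [Group W] {om : W →* A}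
  (D : Dm k om)

theorem m_om_left (n : ℕ) (w : W) (x : A) : D.m (n + 1) (om w) x = 0 := by
  have h := D.wl (n + 1) w 1 x
  rw [mul_one, D.n1, mul_zero] at h
  exact h

theorem m_om_right (n : ℕ) (w : W) (x : A) : D.m (n + 1) x (om w) = 0 := by
  have h := D.wr (n + 1) w x 1
  rw [one_mul, D.n2, zero_mul] at h
  exact h

theorem mul_cst_left (w : W) (f : ℕ → A) : D.mul (cst (om w)) f = fun n => om w * f n := by
  funext n
  rw [mul, Finset.sum_eq_single (0, n)]
  · rw [Finset.sum_eq_single (0, n)]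
    · simp only [cst, if_true, D.m0]
    · rintro ⟨a, b⟩ h hne
      rcases a with _ | a
      · rw [Finset.HasAntidiagonal.mem_antidiagonal] at h
        simp only [zero_add] at h
        exact absurd (by rw [h]) hne
      · simp [cst]
    · intro h
      exact absurd (by rw [Finset.HasAntidiagonal.mem_antidiagonal]; simp) h
  · rintro ⟨a, b⟩ h hne
    rcases a with _ | a
    · rw [Finset.HasAntidiagonal.mem_antidiagonal] at h
      simp only [zero_add] at h
      exact absurd (by rw [h]) hne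
    · refine Finset.sum_eq_zero fun q _ => ?_
      rw [cst]
      split_ifs
      · exact D.m_om_left a w _
      · rw [map_zero, LinearMap.zero_apply]
  · intro h
    exact absurd (by rw [Finset.HasAntidiagonal.mem_antidiagonal]; simp) h

/-- the group `W` in the ring of the deformation -/
def w : W →* D.R where
  toFun := fun g => D.of (cst (om g))
  map_one' := by rw [map_one, D.of_one]
  map_mul' := fun g h => by
    rw [← D.of_mul, D.mul_cst_left]
    congr 1
    funext n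
    rw [cst, cst]
    split_ifs
    · rw [map_mul]
    · rw [mul_zero]

theorem w_mul_of (g : W) (f : ℕ → A) : D.w g * D.of f = D.of (fun n => om g * f n) := by
  show D.of (cst (om g)) * D.of f = _
  rw [← D.of_mul, D.mul_cst_left]

end Dm

end Pool.Agent.PSS
end
end -- Pool.Agent.PSS.DefsS1

section -- Pool.Agent.PSS.StmtsS1a

/-!
# Squad PSS, block S1, part a (helper36): Casimir families, lifting over a complete ring

Complete proofs in the docstrings.  `R` is complete for `π` (`c : Cdv R F`), `A` is a finite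
dimensional `F`-algebra with a group `V`; it is lifted to `R` relative to `V` (rows MOL .. LFT).

The rows of squad PFD which are used here are all PROVED (import the files, no hypotheses):
`D2.SugStmt` Pool.Agent.Helper10_PFD.Sug : Pool.Agent.PFD.D2.H10.sug;
`D2.IdgStmt` Pool.Agent.Helper76_PFD.IDG : Pool.Agent.PFD.D2.H76.idg (hypothesis SugStmt);
`D2.UngStmt` Pool.Agent.Helper49_PFD.UNG : Pool.Agent.PFD.D2.H49.ung;
`D2b.FpfStmt` Pool.Agent.Helper49_PFD.FPF : Pool.Agent.PFD.D2b.H49.fpf;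
`D2b.EqfStmt` Pool.Agent.Helper13_PFD.EQF : Pool.Agent.PFD.D2b.H13.eqf.
-/

open scoped BigOperators TensorProduct

noncomputable section

namespace Pool.Agent.PSS

open Pool.Agent.PFD.D2 (Cdv FibG)
open Pool.Agent.PFD.D2b (FrR)
open Finset

/-! ### Dual families -/

/-- CSR: the dual families are a Casimir element over `V`.

Proof.  `a x_i = ∑_j ∑_v lam (v⁻¹ y_j a x_i) x_j v` (`e1`), so with `f` bilinear and balanced
`∑_i f (a x_i) (y_i) = ∑_j ∑_v ∑_i lam (v⁻¹ y_j a x_i) f (x_j) (v y_i)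
= ∑_j f x_j (∑_i ∑_v lam (y_j a x_i v⁻¹) v y_i)` (`sym`) and by `e2` for `y_j a` (with `v⁻¹` for `v`)
the inner sum is `y_j a`. -/
def CsrStmt : Prop :=
  ∀ (k V A K X : Type) [CommRing k] [CommGroup V] [Fintype V] [Ring A] [Algebra k A] [Fintype K]
    [AddCommGroup X] [Module k X] (α : V →* A) (lam : A →ₗ[k] k) (x y : K → A),
    RF k α lam x y → ∀ f : A →ₗ[k] A →ₗ[k] X, (∀ a g b, f (a * α g) b = f a (α g * b)) →
      ∀ a, ∑ i, f (a * x i) (y i) = ∑ i, f (x i) (y i * a)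

/-- RTC: relative traces are central, and they do not depend on the families; change of the form by
a central unit.

Proof.  (1) CSR with `f a' b' = a' * a * b'` (balanced, as `a` commutes with `V`).
(2) `x'_j = ∑_k ∑_v lam (v⁻¹ y_k x'_j) x_k v`, so
`∑_j x'_j a y'_j = ∑_k x_k a (∑_j ∑_v lam (v⁻¹ y_k x'_j) v y'_j)` and
`lam (v⁻¹ y_k x'_j) = lam (y_k x'_j v⁻¹) = lam' (u' y_k x'_j v⁻¹)` (`u u' = 1`), so by `e2` for
`lam'`, `u' y_k` the inner sum is `u' y_k`. -/
def RtcStmt : Prop :=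
  ∀ (k V A K K' : Type) [CommRing k] [CommGroup V] [Fintype V] [Ring A] [Algebra k A] [Fintype K]
    [Fintype K'] (α : V →* A) (lam : A →ₗ[k] k) (x y : K → A), RF k α lam x y →
    (∀ a, (∀ v, α v * a = a * α v) → ∀ b, b * rt x y a = rt x y a * b) ∧
    ∀ (lam' : A →ₗ[k] k) (x' y' : K' → A) (u u' : A), RF k α lam' x' y' →
      (∀ b, u * b = b * u) → u * u' = 1 → (∀ b, lam' b = lam (u * b)) →
      ∀ a, (∀ v, α v * a = a * α v) → u * rt x' y' a = rt x y a

/-- CSU: if `rt 1` is a unit, there are Casimir families with `∑ u_i v_i = 1`.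

Proof.  `z = rt x y 1` is central (RTC), `u z = 1`, so `u = u (b z u) ..`: `u b = u b z u = b u`
(`z` central, `z u = u z = 1`), `u` is central.  Families `x_i`, `y_i u`: CSR for
`f' a b = f a (b u)`. -/
def CsuStmt : Prop :=
  ∀ (k V A K : Type) [CommRing k] [CommGroup V] [Fintype V] [Ring A] [Algebra k A] [Fintype K]
    (α : V →* A) (lam : A →ₗ[k] k) (x y : K → A) (u : A), RF k α lam x y →
    u * rt x y 1 = 1 → (∀ b, u * b = b * u) ∧ Csm k α x (fun i => y i * u)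

/-- RFE: the second identity follows from the first.

Proof.  Nondegeneracy: if `lam (d a) = 0` for all `a`, then `d = 0`: by `e1` for `d`,
`lam (v⁻¹ y_k d) = lam (d v⁻¹ y_k) = 0`.  For `d = ∑ lam (a x_k v) v⁻¹ y_k - a` and all `b`:
`lam (∑ lam (a x_k v) v⁻¹ y_k b) = lam (a ∑ lam (v⁻¹ y_k b) x_k v) = lam (a b)`.
Functionals: `d = ∑_k ∑_v σ (x_k v) v⁻¹ y_k`. -/
def RfeStmt : Prop :=
  ∀ (k V A K : Type) [CommRing k] [CommGroup V] [Fintype V] [Ring A] [Algebra k A] [Fintype K]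
    (α : V →* A) (lam : A →ₗ[k] k) (x y : K → A), (∀ a b, lam (a * b) = lam (b * a)) →
    (∀ a, ∑ k, ∑ v, lam (α v⁻¹ * y k * a) • (x k * α v) = a) →
    RF k α lam x y ∧ (∀ d, (∀ a, lam (d * a) = 0) → d = 0) ∧
    ∀ σ : A →ₗ[k] k, ∃ d, ∀ a, σ a = lam (d * a)

/-- UNJ: Nakayama.

Proof.  `range u + p M = M`, and `p` is in the Jacobson radical (`hj`), `M` finite: `u` is
surjective (`Submodule.le_of_le_smul_of_le_jacobson_bot` or similar), hence injective
(`OrzechProperty.injective_of_surjective_endomorphism`). -/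
def UnjStmt : Prop :=
  ∀ (R M : Type) [CommRing R] (p : R) [AddCommGroup M] [Module R M] [Module.Finite R M],
    (∀ r, IsUnit (1 + p * r)) → ∀ u : M →ₗ[R] M, (∀ x, ∃ y, u x - x = p • y) →
      Function.Bijective u

/-- RFL: dual families lift.

Proof.  (a) `lam'` is perfect: every `σ : A' → R` is `lam' (y ·)`.  `σ` induces `σ0 : A → R0` with
`σ0 (q a) = κ (σ a)` (well defined by `q.ker`), `σ0 = lam (y0 ·)` by RFE, `y0 = q y`, so
`σ - lam' (y ·)` has values in `p R`, and it is `p` times a functional (`A'` is free); the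
submodule of the functionals `lam' (y ·)` and `p (A')^*` generate `(A')^*` (a finite module), so by
Nakayama all functionals have this form.
(b) Lift `x k` to `X k` (`q (X k) = x k`) and `lam (y k ·)` to functionals `σ k` on `A'`
(by (a) for any lift `Y k` of `y k`: `σ k = lam' (Y k ·)`).
`θ a = ∑_k ∑_v σ k (a v⁻¹) X k v` is right `V`-linear and `θ a - a` is in `p A'`, so it is
bijective (UNJ), its inverse `θ'` is right `V`-linear and congruent to `1`.
`σ k ∘ θ' = lam' (Y' k ·)` by (a), `q (Y' k) = y k` since `lam` is nondegenerate, and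
`∑ lam' (v⁻¹ Y' k a) X k v = ∑ σ k (θ' (a v⁻¹)) X k v = ∑ σ k (θ' a v⁻¹) X k v = θ (θ' a) = a`.
RFE. -/
def RflStmt : Prop :=
  ∀ (R R₀ V A A' K : Type) [CommRing R] [CommRing R₀] [CommGroup V] [Fintype V] [Ring A]
    [Algebra R₀ A] [Ring A'] [Algebra R A'] [Module.Finite R A'] [Module.Free R A'] [Fintype K]
    (p : R) (κ : R →+* R₀) (α : V →* A) (α' : V →* A') (q : A' →+* A) (lam : A →ₗ[R₀] R₀)
    (lam' : A' →ₗ[R] R) (x y : K → A),
    (∀ r, IsUnit (1 + p * r)) → (∀ r, p * r = 0 → r = 0) → Red p κ →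
    (∀ r : R, q (algebraMap R A' r) = algebraMap R₀ A (κ r)) → Function.Surjective q →
    (∀ a, q a = 0 → ∃ b, a = p • b) → (∀ v, q (α' v) = α v) →
    (∀ a, κ (lam' a) = lam (q a)) → (∀ a b, lam' (a * b) = lam' (b * a)) →
    RF R₀ α lam x y →
    ∃ x' y' : K → A', RF R α' lam' x' y' ∧ (∀ t, q (x' t) = x t) ∧ ∀ t, q (y' t) = y t

/-- the same with prescribed lifts `x'` of the family `x` (see the proof of RFL) -/
def RfmStmt : Prop :=
  ∀ (R R₀ V A A' K : Type) [CommRing R] [CommRing R₀] [CommGroup V] [Fintype V] [Ring A]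
    [Algebra R₀ A] [Ring A'] [Algebra R A'] [Module.Finite R A'] [Module.Free R A'] [Fintype K]
    (p : R) (κ : R →+* R₀) (α : V →* A) (α' : V →* A') (q : A' →+* A) (lam : A →ₗ[R₀] R₀)
    (lam' : A' →ₗ[R] R) (x y : K → A) (x' : K → A'),
    (∀ r, IsUnit (1 + p * r)) → (∀ r, p * r = 0 → r = 0) → Red p κ →
    (∀ r : R, q (algebraMap R A' r) = algebraMap R₀ A (κ r)) → Function.Surjective q →
    (∀ a, q a = 0 → ∃ b, a = p • b) → (∀ v, q (α' v) = α v) →
    (∀ a, κ (lam' a) = lam (q a)) → (∀ a b, lam' (a * b) = lam' (b * a)) →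
    RF R₀ α lam x y → (∀ t, q (x' t) = x t) →
    ∃ y' : K → A', RF R α' lam' x' y' ∧ ∀ t, q (y' t) = y t

/-! ### The lift of the module -/

/-- `q : M → M₀` is the reduction of an `R`-module with an action of `G` -/
structure RedM {R F G M M₀ : Type} [CommRing R] [Field F] [Group G] [AddCommGroup M] [Module R M]
    [AddCommGroup M₀] [Module F M₀] (c : Cdv R F) (ρ : G →* (M →ₗ[R] M))
    (ρ₀ : G →* (M₀ →ₗ[F] M₀)) (q : M →+ M₀) : Prop where
  sc : ∀ (r : R) x, q (r • x) = c.κ r • q x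
  sj : Function.Surjective q
  kr : ∀ x, q x = 0 ↔ ∃ y, x = c.π • y
  eq : ∀ g x, q (ρ g x) = ρ₀ g (q x)

/-- MOL: a permutation frame lifts.

Proof.  `ε₀ ω' ω = c₀ ω' (b₀ ω)` is the matrix of an idempotent which commutes with the permutation
action on `Ω → F` (`ε₀ (g ω') (g ω) = ε₀ ω' ω`); choose a section `s` of `κ`; the matrix
`s (ε₀ ω' ω)` over `R` commutes with the action of `G` on `Ω → R` and is idempotent modulo `π`;
`D2.IdgStmt` gives an idempotent endomorphism `g` of `Ω → R` commuting with `G`.  `M` = its range (as a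
submodule; finite, and free since `R` is a PID), `ρ` = the restriction, `b ω = g (e_ω)`, `c ω` = the
coordinate at `ω`, `q m = ∑ κ (m ω) • b₀ ω`.  Then `q (b ω) = ∑ ε₀ ω' ω b₀ ω' = b₀ ω`,
`c₀ ω (q m) = κ (m ω)` (as `κ m` is in the range of `ε₀`).  Kernel: if `q m = 0` then
`κ (m ω) = 0` for all `ω`, `m = π • m'`, `m' = g m'` as `π` is a nonzero divisor. -/
def MolStmt : Prop :=
  ∀ (R F G M₀ Ω : Type) [CommRing R] [IsDomain R] [IsPrincipalIdealRing R] [Field F]
    (c : Cdv R F) [Group G] [AddCommGroup M₀] [Module F M₀] [Fintype Ω] [MulAction G Ω]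
    (ρ₀ : G →* (M₀ →ₗ[F] M₀)) (b₀ : Ω → M₀) (c₀ : Ω → (M₀ →ₗ[F] F)), FrR ρ₀ b₀ c₀ →
    ∃ (M : Type) (_ : AddCommGroup M) (_ : Module R M) (_ : Module.Finite R M)
      (_ : Module.Free R M) (ρ : G →* (M →ₗ[R] M)) (b : Ω → M) (cc : Ω → (M →ₗ[R] R))
      (q : M →+ M₀), FrR ρ b cc ∧ RedM c ρ ρ₀ q ∧ (∀ ω, q (b ω) = b₀ ω) ∧
        ∀ ω m, c.κ (cc ω m) = c₀ ω (q m)

/-- relative bilinear maps for the action of `H × H` (`(g, h) x = g x h⁻¹`) -/
def RB {k H M : Type} [CommRing k] [Group H] [AddCommGroup M] [Module k M]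
    (ρ : H × H →* (M →ₗ[k] M)) (μ : M →ₗ[k] M →ₗ[k] M) : Prop :=
  (∀ g x y, μ (ρ (g, 1) x) y = ρ (g, 1) (μ x y)) ∧
  (∀ g x y, μ (ρ (1, g) x) y = μ x (ρ (g⁻¹, 1) y)) ∧
  ∀ g x y, μ x (ρ (1, g) y) = ρ (1, g) (μ x y)

/-- BVL: relative bilinear maps lift.

Proof.  `H × H × H` acts on `Ω × Ω` by `(g, h, l) (ω, ω') = ((g, h) ω, (h, l) ω')` and on `M` through
`(g, l)`; for this representation `M` has a frame (the same `Ω`, action through `(g, l)`), so fixed
vectors modulo `π` lift for all subgroups (`D2b.FpfStmt`).  `m (ω, ω')` = a lift of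
`μ₀ (q b_ω) (q b_ω')` is equivariant modulo `π`, so by `D2b.EqfStmt` there is an equivariant `m'`
congruent to `m`.  `μ x y = ∑_(ω,ω') cc ω x * cc ω' y • m' (ω, ω')`; the three identities follow from
`cc (g ω) (ρ g x) = cc ω x` by reindexing: `μ (ρ (g,1) x) y = ∑ cc ω x cc ω' y m' ((g,1) ω, ω')`,
`μ (ρ (1,h) x) y = ∑ cc ω x cc ω' y m' ((1,h) ω, ω')`,
`μ x (ρ (h⁻¹,1) y) = ∑ cc ω x cc ω' y m' (ω, (h⁻¹,1) ω')`, equal by the element `(1, h, 1)`.
`q (μ x y) = μ₀ (q x) (q y)` from `x = ∑ cc ω x • b ω`. -/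
def BvlStmt : Prop :=
  ∀ (R F H M M₀ Ω : Type) [CommRing R] [Field F] (c : Cdv R F) [Group H] [AddCommGroup M]
    [Module R M] [AddCommGroup M₀] [Module F M₀] [Fintype Ω] [MulAction (H × H) Ω]
    (ρ : H × H →* (M →ₗ[R] M)) (ρ₀ : H × H →* (M₀ →ₗ[F] M₀)) (q : M →+ M₀) (b : Ω → M)
    (cc : Ω → (M →ₗ[R] R)), FrR ρ b cc → RedM c ρ ρ₀ q →
    ∀ μ₀ : M₀ →ₗ[F] M₀ →ₗ[F] M₀, RB ρ₀ μ₀ →
      ∃ μ : M →ₗ[R] M →ₗ[R] M, RB ρ μ ∧ ∀ x y, q (μ x y) = μ₀ (q x) (q y)

/-! ### The lift of the algebra relative to `V` -/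

/-- the associator -/
def asr {k M : Type} [CommRing k] [AddCommGroup M] [Module k M] (β : M →ₗ[k] M →ₗ[k] M)
    (x y z : M) : M := β (β x y) z - β x (β y z)

/-- STV: one step.

Proof.  `asr β = π^n w`, `w` is trilinear (`π` is a nonzero divisor on the free module `M`), and
relative (in all four places), `w₀ (q x) (q y) (q z) = q (w x y z)` is well defined (trilinear over
`F`).  The identity
`β x (asr y z u) + asr x (β y z) u + β (asr x y z) u = asr (β x y) z u + asr x y (β z u)` of any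
bilinear `β` gives `x w₀(y,z,u) - w₀(xy,z,u) + w₀(x,yz,u) - w₀(x,y,zu) + w₀(x,y,z) u = 0`.
`ν₀ x y = ∑_i u_i w₀ (v_i, x, y)` is relative (left: `w₀ (v_i, g x, y) = w₀ (v_i g, x, y)` and the
Casimir property for the balanced form `a, b ↦ a w₀ (b, x, y)`: `∑ u_i w₀ (v_i g, x, y) =
∑ g u_i w₀ (v_i, x, y)`).  Then
`x ν₀(y,z) - ν₀(xy,z) + ν₀(x,yz) - ν₀(x,y) z = ∑ u_i [w₀(v_i x,y,z) - w₀(v_i,xy,z) + w₀(v_i,x,yz) -
w₀(v_i,x,y) z] = ∑ u_i v_i w₀(x,y,z) = w₀(x,y,z)`.
Lift `ν₀` to `ν` (`hL`).  `asr (β + π^n ν)` is modulo `π^(n+1)` equal to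
`π^n (w + ν(x,y) z + ν(xy,z) - x ν(y,z) - ν(x,yz))`, whose bracket has reduction
`w₀ - (x ν₀(y,z) - ν₀(xy,z) + ν₀(x,yz) - ν₀(x,y) z) = 0`. -/
def StvStmt : Prop :=
  ∀ (R F V A M K : Type) [CommRing R] [IsDomain R] [Field F] (c : Cdv R F) [CommGroup V]
    [Ring A] [Algebra F A] [AddCommGroup M] [Module R M] [Module.Finite R M] [Module.Free R M]
    [Fintype K] (α : V →* A) (u v : K → A) (_ : Csm F α u v) (ρ : V × V →* (M →ₗ[R] M))
    (q : M →+ A) (_ : RedM c ρ (bw F α) q)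
    (_ : ∀ μ₀ : A →ₗ[F] A →ₗ[F] A, RB (bw F α) μ₀ →
      ∃ μ : M →ₗ[R] M →ₗ[R] M, RB ρ μ ∧ ∀ x y, q (μ x y) = μ₀ (q x) (q y))
    (β : M →ₗ[R] M →ₗ[R] M) (n : ℕ), 1 ≤ n → RB ρ β → (∀ x y, q (β x y) = q x * q y) →
    (∀ x y z, ∃ w, asr β x y z = c.π ^ n • w) →
    ∃ ν : M →ₗ[R] M →ₗ[R] M, RB ρ ν ∧
      ∀ x y z, ∃ w, asr (β + c.π ^ n • ν) x y z = c.π ^ (n + 1) • w

/-- ALV: the multiplication lifts.

Proof.  `β₁` from `hL` for the multiplication (`RB (bw F α) (LinearMap.mul F A)`).  Successive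
approximation `D2.SugStmt` for the finite free module of the bilinear maps `M → M → M`; work with
`β` = current approximation: `P n β` = `RB ρ β`, `β` lifts the multiplication, `asr β` divisible by
`π^n`; SUG wants `P n x → P n (x + π^n z)` for all `z`, so use for `P n β` the condition: there is
`β'` with these properties and `β - β'` divisible by `π^n`.  In the limit `asr β` is divisible by all
`π^n`, so it is `0`, and the relations `RB` hold modulo all `π^n`, so they hold. -/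
def AlvStmt : Prop :=
  ∀ (R F V A M K : Type) [CommRing R] [IsDomain R] [Field F] (c : Cdv R F) [CommGroup V]
    [Ring A] [Algebra F A] [AddCommGroup M] [Module R M] [Module.Finite R M] [Module.Free R M]
    [Fintype K] (α : V →* A) (u v : K → A) (_ : Csm F α u v) (ρ : V × V →* (M →ₗ[R] M))
    (q : M →+ A) (_ : RedM c ρ (bw F α) q)
    (_ : ∀ μ₀ : A →ₗ[F] A →ₗ[F] A, RB (bw F α) μ₀ →
      ∃ μ : M →ₗ[R] M →ₗ[R] M, RB ρ μ ∧ ∀ x y, q (μ x y) = μ₀ (q x) (q y)),
    ∃ β : M →ₗ[R] M →ₗ[R] M, RB ρ β ∧ (∀ x y, q (β x y) = q x * q y) ∧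
      ∀ x y z, asr β x y z = 0

/-- RGV: the ring.

Proof.  Unit: let `q e = 1`; `β e` and `β · e` are congruent to the identity, so bijective
(`D2.UngStmt`); `β e e1 = e`, `β e2 e = e`; then `β e (β e1 x) = β e x`, so `β e1 x = x`, similarly
`β x e2 = x`, so `e1 = e2`.  `A' = M` with this multiplication (e.g. as a structure / `let`
instances, or the subring of `Module.End R M` of the left multiplications: `x ↦ β x`), algebra over
`R`, `α' v = ρ (v, 1) e1` (`= ρ (1, v⁻¹) e1`: by `RB`, `x (v e1) = x v` (`= ρ (1, v⁻¹) x`) and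
`(v e1) x = v x`, `(e1 v) x = v x`, `x (e1 v) = x v`; so `v e1 = (e1 v) e1 = e1 v`),
`ρ (u, v) x = α' u x α' v⁻¹`. -/
def RgvStmt : Prop :=
  ∀ (R F V A M : Type) [CommRing R] [Field F] (c : Cdv R F) [CommGroup V]
    [Ring A] [Algebra F A] [AddCommGroup M] [Module R M] [Module.Finite R M] [Module.Free R M]
    (α : V →* A) (ρ : V × V →* (M →ₗ[R] M)) (q : M →+ A) (_ : RedM c ρ (bw F α) q)
    (β : M →ₗ[R] M →ₗ[R] M), RB ρ β → (∀ x y, q (β x y) = q x * q y) →
    (∀ x y z, asr β x y z = 0) →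
    ∃ (A' : Type) (_ : Ring A') (_ : Algebra R A') (φ : M ≃ₗ[R] A') (α' : V →* A'),
      (∀ x y, φ (β x y) = φ x * φ y) ∧ (∀ u v x, φ (ρ (u, v) x) = α' u * φ x * α' v⁻¹) ∧
      (∀ v, q (φ.symm (α' v)) = α v) ∧ q (φ.symm 1) = 1

/-- FLV: the form lifts.

Proof.  Successive approximation (`D2.SugStmt` for the finite free module `A' →ₗ[R] R`): `P n l` :=
there is `l'` with `l - l'` divisible by `π^n`, `κ (l' x) = lam (q x)`, `l' (g x) = l' (x g)` for `g`
in `V`, and `l' (x y) - l' (y x)` divisible by `π^n`.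
Start: `l0 = ∑ cc ω (·) r ω`, `r ω = s (lam (q (b ω)))` with a section `s` of `κ`
(`r ((v,v) ω) = r ω`, so `l0` is invariant under conjugation by `V`; `l0 x ≡ lam (q x)`).
Step: `l' (x y) - l' (y x) = π^n d(x,y)`; the reduction `d₀` on `A` (well defined, bilinear)
satisfies `d₀(x,y) = - d₀(y,x)`, `d₀(xy,z) + d₀(yz,x) + d₀(zx,y) = 0`, `d₀(x, g) = 0` for `g` in `V`,
hence `d₀(x g, z) = d₀(x, g z)`.  `τ₀ x = ∑_i d₀(u_i, v_i x)`:
`∑ d₀(u_i, v_i y x) = ∑ d₀(y u_i, v_i x)` (Casimir), and by the cyclic identity for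
`(y, u_i, v_i x)`: `d₀(y u_i, v_i x) = - d₀(u_i v_i x, y) - d₀(v_i x y, u_i)
= - d₀(u_i v_i x, y) + d₀(u_i, v_i x y)`; sum: `τ₀(xy) - τ₀(yx) = d₀(x,y)`.  In particular `τ₀` is
invariant under conjugation by `V`; lift it to an invariant `τ` (as `l0`), `l' - π^n τ`.
The limit `l` satisfies all identities modulo all `π^n`. -/
def FlvStmt : Prop :=
  ∀ (R F V A A' Ω K : Type) [CommRing R] [IsDomain R] [Field F] (c : Cdv R F) [CommGroup V]
    [Ring A] [Algebra F A] [Ring A'] [Algebra R A'] [Module.Finite R A'] [Module.Free R A']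
    [Fintype Ω] [MulAction (V × V) Ω] [Fintype K] (α : V →* A) (α' : V →* A')
    (f : FibG A' A c) (b : Ω → A') (cc : Ω → (A' →ₗ[R] R)) (lam : A →ₗ[F] F) (u v : K → A),
    (∀ v, f.q (α' v) = α v) → FrR (bw R α') b cc → Csm F α u v →
    (∀ x y, lam (x * y) = lam (y * x)) →
    ∃ lam' : A' →ₗ[R] R, (∀ x y, lam' (x * y) = lam' (y * x)) ∧
      ∀ x, c.κ (lam' x) = lam (f.q x)

/-- the lift of an algebra with all its data -/
structure LiftV {R F V A A' K Ω : Type} [CommRing R] [Field F] (c : Cdv R F) [CommGroup V]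
    [Fintype V] [Ring A] [Algebra F A] [Ring A'] [Algebra R A'] [Fintype K] [Fintype Ω]
    [MulAction (V × V) Ω] (α : V →* A) (lam : A →ₗ[F] F) (x y : K → A) (b : Ω → A)
    (cc : Ω → (A →ₗ[F] F)) (f : FibG A' A c) (α' : V →* A') (lam' : A' →ₗ[R] R) (x' y' : K → A')
    (b' : Ω → A') (cc' : Ω → (A' →ₗ[R] R)) : Prop where
  qa : ∀ v, f.q (α' v) = α v
  ql : ∀ a, c.κ (lam' a) = lam (f.q a)
  qx : ∀ t, f.q (x' t) = x t
  qy : ∀ t, f.q (y' t) = y t
  qb : ∀ ω, f.q (b' ω) = b ω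
  qc : ∀ ω a, c.κ (cc' ω a) = cc ω (f.q a)
  rf : RF R α' lam' x' y'
  fr : FrR (bw R α') b' cc'

/-- LFT (the O-lift, E5).

Proof.  MOL (`G = V × V`, `M₀ = A`), BVL, CSU, ALV, RGV; transport the frame by `φ`; `f.q = q ∘ φ⁻¹`
(a ring homomorphism: additive, multiplicative by `q (β x y) = q x * q y`, `1` by RGV).  FLV, RFL
(`p = π`; `1 + π r` is a unit by `c.loc`). -/
def LftStmt : Prop :=
  ∀ (R F V A K Ω : Type) [CommRing R] [IsDomain R] [IsPrincipalIdealRing R] [Field F]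
    (c : Cdv R F) [CommGroup V] [Fintype V] [Ring A] [Algebra F A] [Fintype K] [Fintype Ω]
    [MulAction (V × V) Ω] (α : V →* A) (lam : A →ₗ[F] F) (x y : K → A) (b : Ω → A)
    (cc : Ω → (A →ₗ[F] F)) (u : A), FiniteDimensional F A → RF F α lam x y →
    FrR (bw F α) b cc → u * rt x y 1 = 1 →
    ∃ (A' : Type) (_ : Ring A') (_ : Algebra R A') (_ : Module.Finite R A')
      (_ : Module.Free R A') (f : FibG A' A c) (α' : V →* A') (lam' : A' →ₗ[R] R)
      (x' y' : K → A') (b' : Ω → A') (cc' : Ω → (A' →ₗ[R] R)) (u' : A'),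
      LiftV c α lam x y b cc f α' lam' x' y' b' cc' ∧ u' * rt x' y' 1 = 1

/-- UZL: `rt 1` is a unit in the lift (used in LFT), and the centre and the fixed vectors lift.

Proof.  (1) `u₁` a lift of `u`: `u₁ * rt x' y' 1` is congruent to `1`, so the right multiplication by
it is congruent to the identity, so bijective (UNJ); `rt x' y' 1` is central, so a left inverse
exists.  (2) fixed vectors: choose lifts of the coordinates by a section of `κ` (as in FLV).
(3) `z₀` central in `A`: lift `z` with `g z = z g` for `g` in `V` (2);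
`z a - a z = π D a` (`A'` free, `D` linear), `D` is a derivation which kills `V`.
`D a = y₁ a - a y₁` for `y₁ = - ∑ u_i D(v_i)`, `(u_i, v_i)` the Casimir families of `A'` (CSU):
`a ∑ u_i D(v_i) = ∑ u_i D(v_i a) = ∑ u_i D(v_i) a + D a`.  `z - π y₁` is central. -/
def UzlStmt : Prop :=
  ∀ (R F V A A' K Ω : Type) [CommRing R] [IsDomain R] [Field F]
    (c : Cdv R F) [CommGroup V] [Fintype V] [Ring A] [Algebra F A] [Ring A'] [Algebra R A']
    [Module.Finite R A'] [Module.Free R A'] [Fintype K] [Fintype Ω]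
    [MulAction (V × V) Ω] (α : V →* A) (lam : A →ₗ[F] F) (x y : K → A) (b : Ω → A)
    (cc : Ω → (A →ₗ[F] F)) (f : FibG A' A c) (α' : V →* A') (lam' : A' →ₗ[R] R)
    (x' y' : K → A') (b' : Ω → A') (cc' : Ω → (A' →ₗ[R] R)) (u : A),
    LiftV c α lam x y b cc f α' lam' x' y' b' cc' → u * rt x y 1 = 1 →
    (∃ u' : A', u' * rt x' y' 1 = 1) ∧
    (∀ X : Subgroup (V × V), ∀ a ∈ FxR (bw F α) X, ∃ a' ∈ FxR (bw R α') X, f.q a' = a) ∧
    ∀ z₀ : A, (∀ a, z₀ * a = a * z₀) → ∃ z : A', (∀ a, z * a = a * z) ∧ f.q z = z₀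

end Pool.Agent.PSS
end
end -- Pool.Agent.PSS.StmtsS1a

section -- Pool.Agent.PSS.StmtsS2

/-!
# Squad PSS (theorem (S)), block S2: the direction of the deformation (helper75)

Setting: `V` a finite abelian group, `z ∈ V`, `χ : V → R` additive (modulo `q`) with `χ z = 1`,
`A` with the relative Frobenius system `RF R α lam x y`; `E (a) = ∑ v, lam (α v⁻¹ * a) v`.

* `rt x y a = ∑ x k * a * y k` is `PSS.rt`; `PSS.RtcStmt` (row RTC of S1): it is central.
* A connection `N` is a linear map with `N (a α v) = N a α v + χ v a α v` (modulo `q`).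
* `Gz α z x y N a = ∑ k, (N (a x k) - a N (x k)) (1 - α z⁻¹) y k` is a derivation modulo `q`
  (the transfer of the derivation `v ↦ χ v • v (1 - z⁻¹)` of `R V`).
* Over `O`, with `q = n = orderOf z` and `N` adapted to `W`, `Gz / n` is the first order term of the
  deformation; over `F` (`n = 0` there) the first order term of `∑ x' k * α' w * y' k` is
  `- (rt_V (z⁻¹) rt_V (w) + Gz (rt_V w))`, and block S2 proves: this is `- (rt_V (1) ^ 2 + nilpotent)`.

Main tools over `F`, `σ = ∑ v, α v`: for `f` commuting with `V` on both sides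
`∑ k, lam (y k σ f (x k)) = ∑ k, lam (y k f (x k) σ)` (STR), and the second sum is the trace of `f`
on `A / A I_V`, so it is `0` for `f = ` multiplication by a nilpotent element (NLM).
-/

open scoped BigOperators

noncomputable section

namespace Pool.Agent.PSS.S2

open Pool.Agent.PFC (tw IsTv)
open Pool.Agent.PFD.D2b (FrR)

/-! ## Definitions -/

section defs

variable {R V E A K Ω : Type} [CommRing R] [CommGroup V] [Fintype V] [Group E] [Ring A]
  [Algebra R A] [Fintype K] [Fintype Ω]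

/-- congruence modulo `q` -/
def Cg {R M : Type} [CommRing R] [AddCommGroup M] [Module R M] (q : R) (a b : M) : Prop :=
  ∃ d : M, a - b = q • d

/-- the sum of the elements of `V` -/
def sg (α : V →* A) : A := ∑ v, α v

/-- the coefficient of `1` in the trace of a right `V`-linear endomorphism -/
def t1 (lam : A →ₗ[R] R) (x y : K → A) (f : A →ₗ[R] A) : R := ∑ k, lam (y k * f (x k))

/-- right `V`-linear modulo `q` -/
def RLq (q : R) (α : V →* A) (f : A →ₗ[R] A) : Prop := ∀ a v, Cg q (f (a * α v)) (f a * α v)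

/-- `N` is a connection for `χ`, modulo `q` -/
structure Cn (q : R) (α : V →* A) (χ : V → R) (N : A →ₗ[R] A) : Prop where
  add : ∀ u v, Cg q (χ (u * v)) (χ u + χ v)
  lin : ∀ a v, Cg q (N (a * α v)) (N a * α v + χ v • (a * α v))

/-- the transfer of `χ · (1 - z⁻¹)` -/
def Gz (α : V →* A) (z : V) (x y : K → A) (N : A →ₗ[R] A) : A →ₗ[R] A :=
  ∑ k, (LinearMap.mulRight R ((1 - α z⁻¹) * y k)).comp
    (N.comp (LinearMap.mulRight R (x k)) - LinearMap.mulRight R (N (x k)))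

/-- the connection of a function `H` on the frame -/
def Nh (H : Ω → R) (b : Ω → A) (c : Ω → (A →ₗ[R] R)) : A →ₗ[R] A :=
  ∑ ω, (c ω).smulRight (H ω • b ω)

/-- a permutation frame, all stabilisers twisted diagonals -/
structure PrD (R : Type) {V E A Ω : Type} [CommRing R] [CommGroup V] [Group E] [Ring A]
    [Algebra R A] [Fintype Ω] [MulAction (V × V) Ω] (φ : E →* MulAut V) (α : V →* A)
    (b : Ω → A) (c : Ω → (A →ₗ[R] R)) : Prop where
  fr : FrR (bw R α) b c
  st : ∀ ω : Ω, ∃ (e : E) (S : Subgroup V),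
    MulAction.stabilizer (V × V) ω = tw (φ e).toMonoidHom S

/-- `h` is a trivialisation of the right action of `V` -/
def Tz {V Ω : Type} [CommGroup V] [MulAction (V × V) Ω] (h : Ω → V) : Prop :=
  ∀ (v : V) (ω : Ω), h (((1 : V), v) • ω) = h ω * v⁻¹

/-- `a` commutes with `V` -/
def CV (α : V →* A) (a : A) : Prop := ∀ v, α v * a = a * α v

/-- the span of the elements `(α u - 1) * a`, `a` commutes with `V` -/
def AgI (R : Type) {V A : Type} [CommRing R] [CommGroup V] [Ring A] [Algebra R A] (α : V →* A) :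
    Submodule R A :=
  Submodule.span R {n | ∃ (u : V) (a : A), a ∈ FxR (cw R α) ⊤ ∧ n = (α u - 1) * a}

end defs

theorem cg_zero {R M : Type} [CommRing R] [AddCommGroup M] [Module R M] (a b : M) :
    Cg (0 : R) a b ↔ a = b := by
  constructor
  · rintro ⟨d, hd⟩
    rw [zero_smul] at hd
    exact sub_eq_zero.mp hd
  · rintro rfl
    exact ⟨0, by simp⟩

theorem gz_apply {R V A K : Type} [CommRing R] [CommGroup V] [Ring A]
    [Algebra R A] [Fintype K] (α : V →* A) (z : V) (x y : K → A) (N : A →ₗ[R] A) (a : A) :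
    Gz α z x y N a = ∑ k, (N (a * x k) - a * N (x k)) * ((1 - α z⁻¹) * y k) := by
  simp [Gz, LinearMap.sum_apply, mul_assoc]

theorem nh_apply {R A Ω : Type} [CommRing R] [Ring A]
    [Algebra R A] [Fintype Ω] (H : Ω → R) (b : Ω → A) (c : Ω → (A →ₗ[R] R)) (a : A) :
    Nh H b c a = ∑ ω, (c ω a * H ω) • b ω := by
  simp [Nh, LinearMap.sum_apply, smul_smul]

/-! ## Part 1: identities over a commutative ring, modulo `q` -/

/-- TPR (200). Trace property. Proof: `g (x k) = ∑ j v, lam (α v⁻¹ * y j * g (x k)) • (x j * α v)`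
(RF.e1), so modulo `q`: `lam (y k * f (g (x k))) ≡ ∑ j v, lam (α v⁻¹ * y j * g (x k)) *
lam (y k * f (x j) * α v)` and `lam (y k * f (x j) * α v) = lam (α v * y k * f (x j))`. In the same
way the other side is `∑ k j v, lam (α v⁻¹ * y j * f (x k)) * lam (α v * y k * g (x j))`; exchange
`j` and `k` and substitute `v ↦ v⁻¹`. -/
def TprStmt : Prop :=
  ∀ (R V A K : Type) [CommRing R] [CommGroup V] [Fintype V] [Ring A] [Algebra R A] [Fintype K]
    (q : R) (α : V →* A) (lam : A →ₗ[R] R) (x y : K → A) (f g : A →ₗ[R] A),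
    RF R α lam x y → RLq q α f → RLq q α g →
    Cg q (t1 lam x y (f ∘ₗ g)) (t1 lam x y (g ∘ₗ f))

/-- THL (201). Proof: `f (a * x k) ≡ ∑ j v, lam (α v⁻¹ * y j * (a * x k)) • (f (x j) * α v)` by
RF.e1 for `a * x k`, so the left side is `∑ j, f (x j) * ∑ k v, lam (y j * a * (x k * α v⁻¹)) •
(α v * y k)` (symmetry of `lam`), substitute `v ↦ v⁻¹` and use RF.e2 for `y j * a`. -/
def ThlStmt : Prop :=
  ∀ (R V A K : Type) [CommRing R] [CommGroup V] [Fintype V] [Ring A] [Algebra R A] [Fintype K]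
    (q : R) (α : V →* A) (lam : A →ₗ[R] R) (x y : K → A) (f : A →ₗ[R] A),
    RF R α lam x y → RLq q α f → ∀ a : A,
    Cg q (∑ k, f (a * x k) * y k) ((∑ k, f (x k) * y k) * a)

/-- DGZ (203). `Gz` is a derivation modulo `q`. Proof: for fixed `a` the map
`f b = (N (a * b) - a * N b) * (1 - α z⁻¹)` is right `V`-linear modulo `q` (`N (a b α v) ≡
N (a b) α v + χ v • a b α v`, `a N (b α v) ≡ a N b α v + χ v • a b α v`, and `α v` commutes with
`1 - α z⁻¹`). `N (a b x k) - a b N (x k) = (N (a (b x k)) - a N (b x k)) + a (N (b x k) - b N (x k))`,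
so `Gz (a b) = ∑ k, f (b * x k) * y k + a * Gz b` and THL gives `∑ k, f (b * x k) * y k ≡
(∑ k, f (x k) * y k) * b = Gz a * b`. -/
def DgzStmt : Prop :=
  ∀ (R V A K : Type) [CommRing R] [CommGroup V] [Fintype V] [Ring A] [Algebra R A] [Fintype K]
    (q : R) (α : V →* A) (z : V) (lam : A →ₗ[R] R) (x y : K → A) (χ : V → R) (N : A →ₗ[R] A),
    RF R α lam x y → Cn q α χ N → ∀ a b : A,
    Cg q (Gz α z x y N (a * b)) (Gz α z x y N a * b + a * Gz α z x y N b)

/-- DTR (204). The trace of `[N, g]` is `0` modulo `q` for a right `V`-linear `g`. Proof: write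
`P j k v = lam (α v⁻¹ * y j * g (x k))`, `D k j v = lam (α v⁻¹ * y k * x j)`.
`N (g (x k)) ≡ ∑ j v, P j k v • (N (x j) * α v + χ v • (x j * α v))` and
`g (N (x k)) ≡ ∑ j v, lam (α v⁻¹ * y j * N (x k)) • (g (x j) * α v)`. After multiplication by `y k`,
`lam` and the sum over `k`, the terms with `N (x j)` and the second sum cancel (exchange `j`, `k`,
`v ↦ v⁻¹`, as in TPR). Remains `B (g) := ∑ k j v, χ v * P j k v * D k j (v⁻¹)`; `v ↦ v⁻¹`,
`χ (v⁻¹) ≡ - χ v`: `B (g) ≡ - ∑ k j v, χ v * D k j v * P j k (v⁻¹) =: - C`. Expand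
`x j = ∑ l u, lam (α u⁻¹ * y l * x j) • (x l * α u)` inside `D k j v = lam (α v⁻¹ * y k * x j)
= ∑ l u, D l j u * D k l (u⁻¹ * v)`, put `v = u * v'`, `χ v ≡ χ u + χ v'`:
the part with `χ u` is `∑ χ u * D l j u * ∑ k v', D k l v' * P j k ((u v')⁻¹)`, and
`∑ k v', D k l v' • (x k * α v') = x l` gives (g right linear) `∑ k v', D k l v' * P j k ((u v')⁻¹)
≡ P j l (u⁻¹)`, so this part is `C`; the part with `χ v'` is
`∑ χ v' * D k l v' * ∑ j u, D l j u * P j k ((u v')⁻¹)`, and `∑ j u, D l j u • (α u * y j) = y l`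
(RF.e2) gives `∑ j u, D l j u * P j k ((u v')⁻¹) = P l k (v'⁻¹)`, so this part is `C` too. Hence
`C ≡ 2 C`, `C ≡ 0`. -/
def DtrStmt : Prop :=
  ∀ (R V A K : Type) [CommRing R] [CommGroup V] [Fintype V] [Ring A] [Algebra R A] [Fintype K]
    (q : R) (α : V →* A) (lam : A →ₗ[R] R) (x y : K → A) (χ : V → R) (N g : A →ₗ[R] A),
    RF R α lam x y → Cn q α χ N → RLq q α g →
    Cg q (∑ k, lam (y k * (N (g (x k)) - g (N (x k))))) 0

/-- TRC (205). Proof: `g b = a * b * (1 - α z⁻¹)` is right `V`-linear, and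
`N (g b) - g (N b) = N (a b) - N (a b α z⁻¹) - a N b (1 - α z⁻¹) ≡
(N (a b) - a N b) (1 - α z⁻¹) + a b α z⁻¹` since `χ (z⁻¹) ≡ - χ z ≡ - 1` (`χ 1 ≡ 0`). DTR:
`0 ≡ ∑ k, lam (y k * (N (a x k) - a N (x k)) * (1 - α z⁻¹)) + ∑ k, lam (y k * a * x k * α z⁻¹)
= lam (Gz a) + lam (a * ∑ k, x k * α z⁻¹ * y k)` (symmetry of `lam`). -/
def TrcStmt : Prop :=
  ∀ (R V A K : Type) [CommRing R] [CommGroup V] [Fintype V] [Ring A] [Algebra R A] [Fintype K]
    (q : R) (α : V →* A) (z : V) (lam : A →ₗ[R] R) (x y : K → A) (χ : V → R) (N : A →ₗ[R] A),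
    RF R α lam x y → Cn q α χ N → Cg q (χ z) 1 → ∀ a : A,
    Cg q (lam (Gz α z x y N a)) (- lam (a * rt x y (α z⁻¹)))

/-! ## Part 2: sets with an action of `V × V` -/

/-- TOR (206). Proof: choose representatives `ω₀` of the orbits (`Quotient.out` of the orbit
relation), for `ω = g • ω₀` put `H ω = ψ ω₀ g`: well defined because `g • ω₀ = g' • ω₀` gives
`ψ ω₀ (g'⁻¹ * g) = 0`. -/
def TorStmt : Prop :=
  ∀ (G Ω B : Type) [Group G] [MulAction G Ω] [AddCommGroup B] (ψ : Ω → G → B),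
    (∀ (ω : Ω) (g : G), ψ (g • ω) = ψ ω) →
    (∀ (ω : Ω) (g g' : G), ψ ω (g * g') = ψ ω g + ψ ω g') →
    (∀ (ω : Ω) (g : G), g • ω = ω → ψ ω g = 0) →
    ∃ H : Ω → B, ∀ (g : G) (ω : Ω), H (g • ω) = H ω + ψ ω g

/-- HTR (207). The right action of `V` on the frame is free, so it has a trivialisation. Proof: TOR
for the group `V` acting by `(1, v)`, `B = Additive V`, `ψ ω v = v⁻¹`; if `(1, v) • ω = ω` then
`(1, v) ∈ tw (φ e) S`, so `(1, v) = (φ e s, s)`, `s = 1`. -/
def HtrStmt : Prop :=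
  ∀ (R V E A Ω : Type) [CommRing R] [CommGroup V] [Group E] [Ring A]
    [Algebra R A] [Fintype Ω] [MulAction (V × V) Ω] (φ : E →* MulAut V) (α : V →* A)
    (b : Ω → A) (c : Ω → (A →ₗ[R] R)), PrD R φ α b c → ∃ h : Ω → V, Tz h

/-- EOR (208). The twist can be chosen constant on orbits. Proof: `V × V` is abelian, so the
stabilisers of `p • ω` and `ω` are equal; choose `e` and `S` as functions of the stabiliser. -/
def EorStmt : Prop :=
  ∀ (R V E A Ω : Type) [CommRing R] [CommGroup V] [Group E] [Ring A]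
    [Algebra R A] [Fintype Ω] [MulAction (V × V) Ω] (φ : E →* MulAut V) (α : V →* A)
    (b : Ω → A) (c : Ω → (A →ₗ[R] R)), PrD R φ α b c →
    ∃ (e : Ω → E) (S : Ω → Subgroup V), (∀ (p : V × V) ω, e (p • ω) = e ω) ∧
      (∀ (p : V × V) ω, S (p • ω) = S ω) ∧
      ∀ ω : Ω, MulAction.stabilizer (V × V) ω = tw (φ (e ω)).toMonoidHom (S ω)

/-- WTR (209). Sum over the representatives `h ω = 1` of the right orbits. Proof: every element of
`Ω` is uniquely `(1, v⁻¹) • ω` with `h ω = 1` (`v = h` of it). `b ((1, v⁻¹) • ω) = b ω * α v`,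
`c ((1, v⁻¹) • ω) a = c ω (a * α v⁻¹)` (from `c (g • t) (ρ g n) = c t n`), so the part of the left
side over this right orbit is `κ ω * ∑ v k, c ω (x k * α v⁻¹) * lam (y k * f (b ω) * α v) =
κ ω * c ω (∑ v k, lam (α v * y k * f (b ω)) • (x k * α v⁻¹)) = κ ω * c ω (f (b ω))` by RF.e1. -/
def WtrStmt : Prop :=
  ∀ (R V A K Ω : Type) [CommRing R] [CommGroup V] [Fintype V] [Ring A]
    [Algebra R A] [Fintype K] [Fintype Ω] [DecidableEq V] [MulAction (V × V) Ω] (α : V →* A)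
    (lam : A →ₗ[R] R) (x y : K → A) (b : Ω → A) (c : Ω → (A →ₗ[R] R)) (h : Ω → V) (κ : Ω → R)
    (f : A →ₗ[R] A), RF R α lam x y → FrR (bw R α) b c → Tz h →
    (∀ (v : V) ω, κ (((1 : V), v) • ω) = κ ω) → (∀ a v, f (a * α v) = f a * α v) →
    ∑ ω, κ ω * ∑ k, c ω (x k) * lam (y k * f (b ω)) =
      ∑ ω with h ω = 1, κ ω * c ω (f (b ω))

/-- FPS (210). A sum of a `V × V`-invariant function over the right orbits is the sum over the
right orbits which are fixed by the left action (`V` an `ℓ`-group, characteristic `ℓ`). Proof: `V`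
acts on `T = {ω | h ω = 1}` by `u * ω = (u, h ((u, 1) • ω)) • ω` (the unique element
`(u, v) • ω` of `T`); the fixed points are the `ω` of the right side. For each value `t` of `g` the
set `{ω ∈ T | g ω = t}` is stable, so its cardinality is congruent modulo `ℓ` to the number of its
fixed points (`IsPGroup.card_modEq_card_fixedPoints`); sum over `t` (`Finset.sum_fiberwise`). -/
def FpsStmt : Prop :=
  ∀ (ℓ : ℕ) [Fact ℓ.Prime] (F V Ω : Type) [Field F] [CharP F ℓ] [CommGroup V] [Fintype V]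
    [DecidableEq V] [Fintype Ω] [MulAction (V × V) Ω] (h : Ω → V) (g : Ω → F),
    IsPGroup ℓ V → Tz h → (∀ (p : V × V) ω, g (p • ω) = g ω) → ∀ (P : Ω → Prop)
    [DecidablePred P], (∀ ω, P ω ↔ ∀ u : V, ∃ v : V, (u, v) • ω = ω) →
    ∑ ω with h ω = 1, g ω = ∑ ω with (h ω = 1 ∧ P ω), g ω

/-! ## Part 3: over a field of characteristic `ℓ` -/

/-- STR (211). For `f` which commutes with `V` on both sides: the trace of `f` followed by left
multiplication with `σ` is the trace of `f` followed by right multiplication with `σ`. Proof: WTR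
with `κ = 1` (and `∑ ω, c ω (x k) • b ω = x k`) for `σ f` and `f σ`: the two sides are
`∑ (h ω = 1) g₁ ω`, `g₁ ω = ∑ u, c ω (f (b ((u, 1) • ω)))` and `∑ (h ω = 1) g₂ ω`,
`g₂ ω = ∑ v, c ω (f (b ((1, v⁻¹) • ω)))`. Both are `V × V`-invariant, by FPS only the `ω` count for
which all `(u, *) • ω = ω`; then `S = ⊤` in the stabiliser `tw (φ e) S`, `(u, 1) • ω =
(1, (φ e⁻¹ u)⁻¹) • ω`, and `g₁ ω = g₂ ω` (substitute `v = φ e⁻¹ u`). -/
def StrStmt : Prop :=
  ∀ (ℓ : ℕ) [Fact ℓ.Prime] (F V E A K Ω : Type) [Field F] [CharP F ℓ] [CommGroup V] [Fintype V]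
    [Group E] [Ring A] [Algebra F A] [Fintype K] [Fintype Ω] [MulAction (V × V) Ω]
    (φ : E →* MulAut V) (α : V →* A) (lam : A →ₗ[F] F) (x y : K → A) (b : Ω → A)
    (c : Ω → (A →ₗ[F] F)) (f : A →ₗ[F] A), IsPGroup ℓ V → RF F α lam x y → PrD F φ α b c →
    (∀ a v, f (a * α v) = f a * α v) → (∀ v a, f (α v * a) = α v * f a) →
    ∑ k, lam (y k * (sg α * f (x k))) = ∑ k, lam (y k * (f (x k) * sg α))

/-- NLM (212). Proof: the matrix `m a (j, k) = ∑ v, lam (α v⁻¹ * y j * a * x k)` is multiplicative: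
`m (a b) = m a * m b` (expand `b * x l = ∑ k u, lam (α u⁻¹ * y k * b * x l) • (x k * α u)` and use
`∑ v, lam (α v⁻¹ * y j * a * x k * α u) = ∑ v, lam (α (u v⁻¹) * y j * a * x k)`), so `m a` is
nilpotent, its trace is nilpotent (`Matrix.isNilpotent_trace_of_isNilpotent`), hence `0`; the trace
is the left side (`v ↦ v⁻¹`, symmetry). -/
def NlmStmt : Prop :=
  ∀ (F V A K : Type) [Field F] [CommGroup V] [Fintype V] [Ring A] [Algebra F A] [Fintype K]
    (α : V →* A) (lam : A →ₗ[F] F) (x y : K → A) (a : A), RF F α lam x y → IsNilpotent a →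
    ∑ k, lam (y k * (a * x k * sg α)) = 0

/-- SVI (213). Independence of the connection. Proof: `g = N₁ - N₂` is right `V`-linear. The
difference is `∑ k, lam ((g (α u x k) - α u g (x k)) (1 - α z⁻¹) y k a) =
t1 (L_a g L_u R) - t1 (L_a L_u g R)`, `R` = right multiplication by `1 - α z⁻¹` (it commutes with
right linear maps up to `g (b α v) = g b α v`), `t1 (L_a g L_u R) = t1 (L_u L_a g R)` by TPR
(`q = 0`) and `L_u L_a = L_a L_u`. -/
def SviStmt : Prop :=
  ∀ (F V A K : Type) [CommRing F] [CommGroup V] [Fintype V] [Ring A] [Algebra F A] [Fintype K]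
    (α : V →* A) (z : V) (lam : A →ₗ[F] F) (x y : K → A) (χ : V → F) (N₁ N₂ : A →ₗ[F] A) (a : A),
    RF F α lam x y → Cn 0 α χ N₁ → Cn 0 α χ N₂ → CV α a → ∀ u : V,
    lam (Gz α z x y N₁ (α u) * a) = lam (Gz α z x y N₂ (α u) * a)

/-- SVH (214). The connection adapted to the two sided action: `H ((u, v) • ω) = H ω +
χ (φ (e ω)⁻¹ u) - χ v`. Proof: TOR with `ψ ω (u, v) = χ (φ (e ω)⁻¹ u) - χ v`; for
`(u, v) = (φ (e ω) s, s)` it is `0`. -/
def SvhStmt : Prop :=
  ∀ (B V E Ω : Type) [AddCommGroup B] [CommGroup V] [Group E] [MulAction (V × V) Ω]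
    (φ : E →* MulAut V) (χ : V → B) (e : Ω → E) (S : Ω → Subgroup V),
    (∀ u v, χ (u * v) = χ u + χ v) → (∀ (p : V × V) ω, e (p • ω) = e ω) →
    (∀ ω : Ω, MulAction.stabilizer (V × V) ω = tw (φ (e ω)).toMonoidHom (S ω)) →
    ∃ H : Ω → B, ∀ (u v : V) (ω : Ω), H ((u, v) • ω) = H ω + χ (φ (e ω)⁻¹ u) - χ v

/-- CNH (215). `Nh H b c` is a connection. Proof: `c ω (a * α v) = c ((1, v) • ω) a`
(`(1, v)` maps `a * α v` to `a`), substitute `ω = (1, v⁻¹) • ω'`: `Nh H (a α v) =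
∑ ω', c ω' a • H ((1, v⁻¹) • ω') • b ω' * α v` and `H ((1, v⁻¹) • ω') ≡ H ω' - χ (v⁻¹) ≡
H ω' + χ v` (`χ 1 ≡ 0`, `χ v⁻¹ ≡ - χ v`). -/
def CnhStmt : Prop :=
  ∀ (R V A Ω : Type) [CommRing R] [CommGroup V] [Ring A] [Algebra R A] [Fintype Ω]
    [MulAction (V × V) Ω] (q : R) (α : V →* A) (χ : V → R) (H : Ω → R) (b : Ω → A)
    (c : Ω → (A →ₗ[R] R)), FrR (bw R α) b c → (∀ u v, Cg q (χ (u * v)) (χ u + χ v)) →
    (∀ (v : V) ω, Cg q (H (((1 : V), v) • ω)) (H ω - χ v)) → Cn q α χ (Nh H b c)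

/-- SVK (216). Proof: with `N = Nh H b c`: `N (α u b') - α u N b' = ∑ ω, (H ((u, 1) • ω) - H ω) *
c ω b' • (α u * b ω)` (substitute `ω ↦ (u, 1) • ω` in the first sum, `c ((u, 1) • ω) (α u b') =
c ω b'`), `H ((u, 1) • ω) - H ω = χ (φ (e ω)⁻¹ u) =: κ ω` (`χ 1 = 0`), which is invariant. So
`lam (Gz (α u) * a) = ∑ k ω, κ ω * c ω (x k) * lam (α u * b ω * (1 - α z⁻¹) * y k * a)
= ∑ ω, κ ω * ∑ k, c ω (x k) * lam (y k * f (b ω))` with `f b' = a * α u * b' * (1 - α z⁻¹)`
(symmetry of `lam`); use WTR. -/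
def SvkStmt : Prop :=
  ∀ (F V E A K Ω : Type) [CommRing F] [CommGroup V] [Fintype V] [DecidableEq V] [Group E]
    [Ring A] [Algebra F A] [Fintype K] [Fintype Ω] [MulAction (V × V) Ω]
    (φ : E →* MulAut V) (α : V →* A) (z : V) (lam : A →ₗ[F] F) (x y : K → A) (b : Ω → A)
    (c : Ω → (A →ₗ[F] F)) (h : Ω → V) (χ : V → F) (H : Ω → F) (e : Ω → E) (a : A),
    RF F α lam x y → FrR (bw F α) b c → Tz h → (∀ u v, χ (u * v) = χ u + χ v) →
    (∀ (p : V × V) ω, e (p • ω) = e ω) →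
    (∀ (u v : V) (ω : Ω), H ((u, v) • ω) = H ω + χ (φ (e ω)⁻¹ u) - χ v) → CV α a → ∀ u : V,
    lam (Gz α z x y (Nh H b c) (α u) * a) =
      ∑ ω with h ω = 1, χ (φ (e ω)⁻¹ u) * c ω (a * α u * b ω * (1 - α z⁻¹))

/-- SVG (217). Proof: EOR, HTR, SVH and CNH (`q = 0`) give `e`, `S`, `h`, `H`; by SVI the connection
`N` may be replaced by `Nh H b c`, and SVK gives the left side `∑ (h ω = 1) g ω` with
`g ω = ∑ u, χ (φ (e ω)⁻¹ u) * c ω (a * α u * b ω * (1 - α z⁻¹))`. `g` is `V × V`-invariant (`a`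
commutes with `V`, frame property), so by FPS only the `ω` count with `S ω = ⊤`. For these
`α u * b ω = b ω * α (φ (e ω)⁻¹ u)`, and with `v = φ (e ω)⁻¹ u`:
`g ω = ∑ v, χ v * (c ω (a b ω α v) - c ω (a b ω α (v z⁻¹))) = ∑ v, (χ v - χ (v z)) *
c ω (a b ω α v) = - ∑ v, c ω (a b ω α v)` (`a * α u = α u * a`). On the other side
`∑ k, lam (y k * (a * x k * sg α)) = ∑ (h ω = 1) ∑ v, c ω (a * b ω * α v)` by WTR (`κ = 1`,
`f b' = a b' sg α`), again invariant, so by FPS it is the same sum over the `ω` with `S ω = ⊤`. -/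
def SvgStmt : Prop :=
  ∀ (ℓ : ℕ) [Fact ℓ.Prime] (F V E A K Ω : Type) [Field F] [CharP F ℓ] [CommGroup V] [Fintype V]
    [Group E] [Ring A] [Algebra F A] [Fintype K] [Fintype Ω] [MulAction (V × V) Ω]
    (φ : E →* MulAut V) (α : V →* A) (z : V) (lam : A →ₗ[F] F) (x y : K → A) (b : Ω → A)
    (c : Ω → (A →ₗ[F] F)) (χ : V → F) (N : A →ₗ[F] A) (a : A), IsPGroup ℓ V →
    RF F α lam x y → PrD F φ α b c → Cn 0 α χ N → χ z = 1 → CV α a →
    ∑ u, lam (Gz α z x y N (α u) * a) = - ∑ k, lam (y k * (a * x k * sg α))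

/-- IDT (218). Proof: `D j = D j * j + j * D j`, so `j * D j * j = 0`. `lam (s * D j * c) =
lam (s * D j * j * c) + lam (s * j * D j * c)`; `s`, `c` commute with `j` and `c` is central:
`lam (s * D j * j * j * c) = lam (j * s * D j * j * c) = lam (s * (j * D j * j) * c) = 0`, and
`lam (s * j * j * D j * c) = lam (s * j * (D j) * c * j) = 0` in the same way. -/
def IdtStmt : Prop :=
  ∀ (F A : Type) [CommRing F] [Ring A] [Algebra F A] (lam : A →ₗ[F] F) (D : A → A) (s c j : A),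
    (∀ a b, lam (a * b) = lam (b * a)) → (∀ a b, D (a * b) = D a * b + a * D b) →
    j * j = j → s * j = j * s → (∀ a, c * a = a * c) → lam (s * D j * c) = 0

/-- SPI (219). Every element of a finite dimensional algebra over an algebraically closed field is
a linear combination of idempotents and a nilpotent element, all in `F [a]`. Proof: `F [a]` is a
commutative finite dimensional algebra. Either Jordan - Chevalley
(`Module.End.exists_isNilpotent_isSemisimple` for the multiplication by `a` on `F [a]`) and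
Lagrange interpolation for the semisimple part (its minimal polynomial is split and squarefree), or
directly: `∏ (X - t i) ^ (m i)` kills `a`, Chinese remainder theorem for these coprime factors gives
orthogonal idempotents `e i = p i (a)` with sum `1` and `(a - t i) ^ (m i) * e i = 0`;
`a = ∑ t i • e i + ∑ (a - t i) * e i`. -/
def SpiStmt : Prop :=
  ∀ (F A : Type) [Field F] [IsAlgClosed F] [Ring A] [Algebra F A] [FiniteDimensional F A] (a : A),
    ∃ (n : ℕ) (c : Fin n → F) (e : Fin n → A) (m : A), a = ∑ i, c i • e i + m ∧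
      (∀ i, e i * e i = e i ∧ e i ∈ Algebra.adjoin F {a}) ∧ IsNilpotent m ∧
      m ∈ Algebra.adjoin F {a}

/-- FIT (220). Proof: the powers of `r` in the finite dimensional commutative algebra `F [r]`:
`r ^ n = r ^ (n + 1) * p` for some `n` and some `p ∈ F [r]` (the ideals generated by the powers
become stationary, or minimal polynomial), so `r ^ n = r ^ (2 n) * p ^ n` and
`e = r ^ n * p ^ n` is idempotent, with `r ^ n = r ^ n * e`. If `e = 0` then `r ^ n = 0`; otherwise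
`n ≠ 0` w.l.o.g. (`n + 1` also works) and `e = r * s`, `s = r ^ (n - 1) * p ^ n`. -/
def FitStmt : Prop :=
  ∀ (F A : Type) [Field F] [Ring A] [Algebra F A] [FiniteDimensional F A] (r : A),
    IsNilpotent r ∨ ∃ s ∈ Algebra.adjoin F {r}, (r * s) * (r * s) = r * s ∧ r * s ≠ 0

/-- NLT (221). `lam (σ * a) = 0` for a nilpotent `a` which commutes with `V`. Proof: `ζ = rt x y 1`
is central (`PSS.RtcStmt` of S1, hypothesis) and `u` is its inverse, `u` is central too. `a' = u * a` is nilpotent and commutes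
with `V`; `lam (σ * a) = lam (σ * ζ * a') = ∑ k, lam (σ * x k * y k * a')
= ∑ k, lam (y k * (σ * (a' * x k)))` (`a'` commutes with `σ`; symmetry) `= ∑ k, lam (y k * (a' * x k * σ))`
by STR for `f b = a' * b`, and this is `0` by NLM. -/
def NltStmt : Prop :=
  ∀ (ℓ : ℕ) [Fact ℓ.Prime] (F V E A K Ω : Type) [Field F] [CharP F ℓ] [CommGroup V] [Fintype V]
    [Group E] [Ring A] [Algebra F A] [Fintype K] [Fintype Ω] [MulAction (V × V) Ω]
    (φ : E →* MulAut V) (α : V →* A) (lam : A →ₗ[F] F) (x y : K → A) (b : Ω → A)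
    (c : Ω → (A →ₗ[F] F)) (u a : A), IsPGroup ℓ V → RF F α lam x y → PrD F φ α b c →
    u * rt x y 1 = 1 → CV α a → IsNilpotent a → lam (sg α * a) = 0

/-- RTW (222). Proof: `lam (σ * a * rt x y (α w)) = ∑ k, lam (y k * (σ * (a * x k * α w)))
= ∑ k, lam (y k * (a * x k * α w * σ))` by STR for `f b = a * b * α w`, and `α w * σ = σ`; so the
value does not depend on `w`. -/
def RtwStmt : Prop :=
  ∀ (ℓ : ℕ) [Fact ℓ.Prime] (F V E A K Ω : Type) [Field F] [CharP F ℓ] [CommGroup V] [Fintype V]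
    [Group E] [Ring A] [Algebra F A] [Fintype K] [Fintype Ω] [MulAction (V × V) Ω]
    (φ : E →* MulAut V) (α : V →* A) (lam : A →ₗ[F] F) (x y : K → A) (b : Ω → A)
    (c : Ω → (A →ₗ[F] F)) (a : A) (w : V), IsPGroup ℓ V → RF F α lam x y → PrD F φ α b c →
    CV α a → lam (sg α * a * rt x y (α w)) = lam (sg α * a * rt x y 1) ∧
      lam (sg α * a * rt x y (α w)) = ∑ k, lam (y k * (a * x k * sg α))

/-- TVC (223). Proof. `G = Gz α z x y N` is a derivation (DGZ, `q = 0`); `G c` is central for central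
`c` (`G c * b - b * G c = G (c b - b c) - (c * G b - G b * c) = 0`). (i) `a = j` an idempotent which
commutes with `V`, `c` central: `G (σ j c) = G σ * (j c) + σ * G j * c + σ * j * G c`, so
`lam (σ j G c) = lam (G (σ j c)) - lam (G σ * (j c)) - lam (σ * G j * c)`. The last term is `0` (IDT).
`lam (G (σ j c)) = - lam (σ * (j c) * rt x y (α z⁻¹)) = - ∑ k, lam (y k * ((j c) * x k * sg α))`
(TRC, RTW) and `lam (G σ * (j c)) = ∑ u, lam (G (α u) * (j c)) = - ∑ k, lam (y k * ((j c) * x k * sg α))`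
(SVG). So `lam (σ j G c) = 0`. (ii) `a` nilpotent: `a * G c` is nilpotent (`G c` central) and
commutes with `V`, so `lam (σ * (a * G c)) = 0` by NLT. (iii) in general decompose `a` by SPI; the
elements of `F [a]` commute with `V`. -/
def TvcStmt : Prop :=
  ∀ (ℓ : ℕ) [Fact ℓ.Prime] (F V E A K Ω : Type) [Field F] [IsAlgClosed F] [CharP F ℓ]
    [CommGroup V] [Fintype V] [Group E] [Ring A] [Algebra F A] [FiniteDimensional F A] [Fintype K]
    [Fintype Ω] [MulAction (V × V) Ω] (φ : E →* MulAut V) (α : V →* A) (z : V)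
    (lam : A →ₗ[F] F) (x y : K → A) (b : Ω → A) (c : Ω → (A →ₗ[F] F)) (χ : V → F)
    (N : A →ₗ[F] A) (u a d : A), IsPGroup ℓ V → RF F α lam x y → PrD F φ α b c →
    u * rt x y 1 = 1 → Cn 0 α χ N → χ z = 1 → CV α a → (∀ a', d * a' = a' * d) →
    lam (sg α * a * Gz α z x y N d) = 0

/-- NDA (224). Proof: for `ω` fixed by all `(v, v)` put `ĉ = ∑ k v, c ω (x k * α v) • (α v⁻¹ * y k)`;
`lam (ĉ * d) = c ω d` (RF.e1) and `ĉ` commutes with `V` (`c ω (α v d α v⁻¹) = c ω d`,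
nondegeneracy of `lam` from RF.e1). So `0 = lam (σ a ĉ) = c ω (σ a) = ∑ u, c ((u, 1) • ω) a`.
`a = ∑ ω, c ω a • b ω` and `c ω a` is constant on the orbits of the diagonal; the orbits with more
than one point give relative traces of `c ω a • b ω` from the (proper) stabiliser: they are in
`BKR (cw F α) ⊤`. The fixed points form a set on which `V` acts by `(u, 1)`; the sum over one orbit
is `∑ c ((u, 1) • ω) a • α u * b ω` with coefficients of sum `0` (up to the size of the stabiliser,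
which is `1`: `(u, 1) ∈ tw (φ e) S` only for `u = 1`), `= ∑ c ((u, 1) • ω) a • (α u - 1) * b ω`,
and `b ω` commutes with `V`. -/
def NdaStmt : Prop :=
  ∀ (F V E A K Ω : Type) [Field F] [CommGroup V] [Fintype V] [Group E] [Ring A] [Algebra F A]
    [Fintype K] [Fintype Ω] [MulAction (V × V) Ω] (φ : E →* MulAut V) (α : V →* A)
    (lam : A →ₗ[F] F) (x y : K → A) (b : Ω → A) (c : Ω → (A →ₗ[F] F)) (a : A),
    RF F α lam x y → PrD F φ α b c → CV α a →
    (∀ d, CV α d → lam (sg α * a * d) = 0) → a ∈ BKR (cw F α) ⊤ ⊔ AgI F α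

/-- NDB (225). Proof: let `I ≤ F V` be the augmentation ideal; every element of `I` is nilpotent
(`x ^ (ℓ ^ k) = ∑ c u ^ (ℓ ^ k) u ^ (ℓ ^ k)`), `F V` is commutative and noetherian, so `I ^ m = 0`
for some `m`. `J m = span of i * a`, `i ∈ α (I ^ m)`, `a` commuting with `V`: `AgI ≤ J 1`,
`J m * J m' ≤ J (m + m')` and `BKR (cw F α) ⊤` is an ideal of the algebra of the elements which
commute with `V`. From `e ∈ BKR + J 1` and `e = e ^ m`: `e ∈ BKR + J m = BKR`. -/
def NdbStmt : Prop :=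
  ∀ (ℓ : ℕ) [Fact ℓ.Prime] (F V A : Type) [Field F] [CharP F ℓ] [CommGroup V] [Fintype V]
    [Ring A] [Algebra F A] (α : V →* A) (e : A), IsPGroup ℓ V → CV α e → e * e = e →
    e ∈ BKR (cw F α) ⊤ ⊔ AgI F α → e ∈ BKR (cw F α) ⊤

/-- RAD (226). Proof: if `d` is not nilpotent, FIT gives the idempotent `e = d * s ≠ 0`,
`s ∈ F [d]`, so `e` is central; `lam (σ * e * a) = lam (σ * (s a) * d) = 0` for all `a` commuting
with `V`, so `e ∈ BKR ⊔ AgI` (NDA), `e ∈ BKR` (NDB), `e = 0` by the last hypothesis. -/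
def RadStmt : Prop :=
  ∀ (ℓ : ℕ) [Fact ℓ.Prime] (F V E A K Ω : Type) [Field F] [CharP F ℓ]
    [CommGroup V] [Fintype V] [Group E] [Ring A] [Algebra F A] [FiniteDimensional F A] [Fintype K]
    [Fintype Ω] [MulAction (V × V) Ω] (φ : E →* MulAut V) (α : V →* A)
    (lam : A →ₗ[F] F) (x y : K → A) (b : Ω → A) (c : Ω → (A →ₗ[F] F)) (d : A),
    IsPGroup ℓ V → RF F α lam x y → PrD F φ α b c → (∀ a', d * a' = a' * d) →
    (∀ a, CV α a → lam (sg α * a * d) = 0) →
    (∀ e : A, (∀ a', e * a' = a' * e) → e * e = e → e ∈ BKR (cw F α) ⊤ → e = 0) →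
    IsNilpotent d

/-- UNT (227). Main theorem over `F`. Proof: `ζ = rt x y 1`, `rt x y (α w)` are central (`PSS.RtcStmt` of S1, hypothesis), and
`G (rt x y (α w))` is central (see TVC). For `a` commuting with `V`:
`lam (σ a (rt (α w) - ζ)) = 0` by RTW; `lam (σ a rt (α z⁻¹) rt (α w)) = lam (σ (a rt (α w)) ζ)
= lam (σ (a ζ) rt (α w)) = lam (σ a ζ ζ)` by RTW twice, and `lam (σ a G (rt (α w))) = 0` by TVC.
So both elements are nilpotent by RAD. -/
def UntStmt : Prop :=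
  ∀ (ℓ : ℕ) [Fact ℓ.Prime] (F V E A K Ω : Type) [Field F] [IsAlgClosed F] [CharP F ℓ]
    [CommGroup V] [Fintype V] [Group E] [Ring A] [Algebra F A] [FiniteDimensional F A] [Fintype K]
    [Fintype Ω] [MulAction (V × V) Ω] (φ : E →* MulAut V) (α : V →* A) (z : V)
    (lam : A →ₗ[F] F) (x y : K → A) (b : Ω → A) (c : Ω → (A →ₗ[F] F)) (χ : V → F)
    (N : A →ₗ[F] A) (u : A), IsPGroup ℓ V → RF F α lam x y → PrD F φ α b c →
    u * rt x y 1 = 1 → Cn 0 α χ N → χ z = 1 →
    (∀ e : A, (∀ a', e * a' = a' * e) → e * e = e → e ∈ BKR (cw F α) ⊤ → e = 0) →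
    ∀ w : V, IsNilpotent (rt x y (α w) - rt x y 1) ∧
      IsNilpotent (rt x y (α z⁻¹) * rt x y (α w) + Gz α z x y N (rt x y (α w)) -
        rt x y 1 * rt x y 1)

/-! ## Part 4: the direction over `O` -/

/-- CHI (228). The exponent of `z`. Proof: `V = ⟨z⟩ × W`: every `v` is uniquely `z ^ i * w`,
`i : ZMod (orderOf z)`. -/
def ChiStmt : Prop :=
  ∀ (V : Type) [CommGroup V] [Fintype V] (W : Subgroup V) (z : V),
    IsCompl (Subgroup.zpowers z) W →
    ∃ χ : V → ZMod (orderOf z), (∀ u v, χ (u * v) = χ u + χ v) ∧ χ z = 1 ∧ ∀ v, χ v = 0 ↔ v ∈ W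

/-- HEW (229). The function `H` adapted to `W`. Proof: TOR for the subgroup `G = W × V` of `V × V`
(elements `(w, v)`, `w ∈ W`) and `ψ (w, v) = - χ v`: if `(w, v) • ω = ω` then `(w, v) = (φ e s, s)`,
`w = φ e s ∈ W`, so `s = v ∈ W` (`W` is stable under `φ e⁻¹`) and `χ v = 0`. -/
def HewStmt : Prop :=
  ∀ (R V E A Ω : Type) [CommRing R] [CommGroup V] [Group E] [Ring A]
    [Algebra R A] [Fintype Ω] [MulAction (V × V) Ω] (φ : E →* MulAut V) (α : V →* A)
    (b : Ω → A) (c : Ω → (A →ₗ[R] R)) (W : Subgroup V) (B : Type) [AddCommGroup B] (χ : V → B),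
    PrD R φ α b c → (∀ (e : E), ∀ w ∈ W, φ e w ∈ W) → (∀ u v, χ (u * v) = χ u + χ v) →
    (∀ w ∈ W, χ w = 0) →
    ∃ H : Ω → B, ∀ w ∈ W, ∀ (v : V) (ω : Ω), H ((w, v) • ω) = H ω - χ v

/-- GWZ (230). `Gz (α w) ≡ 0` for `w ∈ W`, if `H` is left `W`-invariant modulo `q`. Proof:
`N (α w b') - α w N b' = ∑ ω, (H ((w, 1) • ω) - H ω) * c ω b' • (α w * b ω)`
(as in SVK) is in `q A`. -/
def GwzStmt : Prop :=
  ∀ (R V A K Ω : Type) [CommRing R] [CommGroup V] [Fintype V] [Ring A] [Algebra R A] [Fintype K]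
    [Fintype Ω] [MulAction (V × V) Ω] (q : R) (α : V →* A) (z : V) (x y : K → A) (H : Ω → R)
    (b : Ω → A) (c : Ω → (A →ₗ[R] R)) (w : V), FrR (bw R α) b c →
    (∀ ω, Cg q (H ((w, (1 : V)) • ω)) (H ω)) → Cg q (Gz α z x y (Nh H b c) (α w)) 0

/-- WWL (231). A map which is `W × W`-linear modulo `q` is congruent to a `W × W`-linear one.
Proof: `r (η, ω) = c η (G (b ω))`; for `s ∈ W × W` (acting by `(w, v)`), `r (s • η, s • ω) ≡
r (η, ω)` modulo `q`. Choose representatives of the orbits of `W × W` on `Ω × Ω` and let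
`r' (p) = r (representative of p)`, so `r'` is invariant and `r' ≡ r`. Put
`v a = ∑ ω η, (c ω a * r' (η, ω)) • b η`: `W × W`-linear, and `v a ≡ ∑ ω η, c ω a • c η (G (b ω)) •
b η = G a`. -/
def WwlStmt : Prop :=
  ∀ (R V A Ω : Type) [CommRing R] [CommGroup V] [Ring A] [Algebra R A]
    [Fintype Ω] [MulAction (V × V) Ω] (q : R) (α : V →* A) (b : Ω → A) (c : Ω → (A →ₗ[R] R))
    (W : Subgroup V) (G : A →ₗ[R] A), FrR (bw R α) b c →
    (∀ w ∈ W, ∀ a, Cg q (G (α w * a)) (α w * G a) ∧ Cg q (G (a * α w)) (G a * α w)) →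
    ∃ v : A →ₗ[R] A, (∀ w ∈ W, ∀ a, v (α w * a) = α w * v a ∧ v (a * α w) = v a * α w) ∧
      ∀ a, Cg q (v a) (G a)

/-- VDR (232). The direction over `R`. Proof: CHI, HEW give `χ₀`, `H₀` with values in
`ZMod n`, `n = orderOf z`; `χ v = ((χ₀ v).val : R)`, `H ω = ((H₀ ω).val : R)` satisfy the congruences
modulo `n` (`(a + b).val ≡ a.val + b.val` modulo `n`), CNH: `N = Nh H b c` is a connection modulo
`n`. `G = Gz α z x y N`: DGZ, GWZ give `G (α w * a) ≡ G (α w) * a + α w * G a ≡ α w * G a`, and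
the same on the right; WWL gives `v`. The congruences for `G` (DGZ, TRC) pass to `v`. -/
def VdrStmt : Prop :=
  ∀ (R V E A K Ω : Type) [CommRing R] [CommGroup V] [Fintype V] [Group E] [Ring A] [Algebra R A]
    [Fintype K] [Fintype Ω] [MulAction (V × V) Ω] (φ : E →* MulAut V) (α : V →* A) (z : V)
    (W : Subgroup V) (lam : A →ₗ[R] R) (x y : K → A) (b : Ω → A) (c : Ω → (A →ₗ[R] R)),
    RF R α lam x y → PrD R φ α b c → (∀ (e : E), ∀ w ∈ W, φ e w ∈ W) →
    IsCompl (Subgroup.zpowers z) W →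
    ∃ (H₀ : Ω → ZMod (orderOf z)) (v : A →ₗ[R] A),
      (∀ w ∈ W, ∀ a, v (α w * a) = α w * v a ∧ v (a * α w) = v a * α w) ∧
      (∀ a d, Cg (orderOf z : R) (v (a * d)) (v a * d + a * v d)) ∧
      (∀ a, Cg (orderOf z : R) (lam (v a)) (- lam (a * rt x y (α z⁻¹)))) ∧
      (∃ χ₀ : V → ZMod (orderOf z), (∀ u v, χ₀ (u * v) = χ₀ u + χ₀ v) ∧ χ₀ z = 1 ∧
        ∀ (v : V) (ω : Ω), H₀ (((1 : V), v) • ω) = H₀ ω - χ₀ v) ∧
      ∀ a, Cg (orderOf z : R) (v a) (Gz α z x y (Nh (fun ω => ((H₀ ω).val : R)) b c) a)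

end Pool.Agent.PSS.S2
end
end -- Pool.Agent.PSS.StmtsS2

section -- Pool.Agent.Helper51_PSS.LFT

/-!
# Squad PSS, row LFT (helper51): the lift of the algebra with all its data.
-/

open scoped BigOperators TensorProduct

noncomputable section

namespace Pool.Agent.PSS.H51

open Pool.Agent.PFD.D2 (Cdv FibG)
open Pool.Agent.PFD.D2b (FrR)
open Pool.Agent.PSS
open Finset

/-- the special fibre map transported to the ring `A'` -/
def fq {R F V A M A' : Type} [CommRing R] [Field F] {c : Cdv R F} [CommGroup V]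
    [Ring A] [Algebra F A] [AddCommGroup M] [Module R M] [Ring A'] [Algebra R A']
    {α : V →* A} {ρ : V × V →* (M →ₗ[R] M)} {q : M →+ A} (hred : RedM c ρ (bw F α) q)
    {β : M →ₗ[R] M →ₗ[R] M} (hβ : ∀ x y, q (β x y) = q x * q y) (φ : M ≃ₗ[R] A')
    (hφ : ∀ x y, φ (β x y) = φ x * φ y) (h1 : q (φ.symm 1) = 1) : FibG A' A c where
  q :=
    { toFun := fun a => q (φ.symm a)
      map_one' := h1
      map_mul' := fun a a' => by
        have h : φ.symm (a * a') = β (φ.symm a) (φ.symm a') := by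
          rw [LinearEquiv.symm_apply_eq, hφ, LinearEquiv.apply_symm_apply,
            LinearEquiv.apply_symm_apply]
        rw [h, hβ]
      map_zero' := by rw [map_zero, map_zero]
      map_add' := fun a a' => by rw [map_add, map_add] }
  sc := fun r => by
    show q (φ.symm (algebraMap R A' r)) = algebraMap F A (c.κ r)
    rw [Algebra.algebraMap_eq_smul_one, map_smul, hred.sc, h1, Algebra.algebraMap_eq_smul_one]
  surj := fun a => by
    obtain ⟨m, hm⟩ := hred.sj a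
    refine ⟨φ m, ?_⟩
    show q (φ.symm (φ m)) = a
    rw [LinearEquiv.symm_apply_apply, hm]
  ker := fun a ha => by
    obtain ⟨m, hm⟩ := (hred.kr _).1 ha
    refine ⟨φ m, ?_⟩
    rw [← map_smul, ← hm, LinearEquiv.apply_symm_apply]

theorem fq_apply {R F V A M A' : Type} [CommRing R] [Field F] {c : Cdv R F} [CommGroup V]
    [Ring A] [Algebra F A] [AddCommGroup M] [Module R M] [Ring A'] [Algebra R A']
    {α : V →* A} {ρ : V × V →* (M →ₗ[R] M)} {q : M →+ A} (hred : RedM c ρ (bw F α) q)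
    {β : M →ₗ[R] M →ₗ[R] M} (hβ : ∀ x y, q (β x y) = q x * q y) (φ : M ≃ₗ[R] A')
    (hφ : ∀ x y, φ (β x y) = φ x * φ y) (h1 : q (φ.symm 1) = 1) (a : A') :
    (fq hred hβ φ hφ h1).q a = q (φ.symm a) := rfl

/-- the frame transported to the ring `A'` -/
theorem frm_tr {R V M A' Ω : Type} [CommRing R] [CommGroup V] [AddCommGroup M] [Module R M]
    [Ring A'] [Algebra R A'] [Fintype Ω] [MulAction (V × V) Ω] {ρ : V × V →* (M →ₗ[R] M)}
    {b : Ω → M} {cc : Ω → (M →ₗ[R] R)} (h : FrR ρ b cc) (φ : M ≃ₗ[R] A') (α' : V →* A')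
    (hρ : ∀ u v x, φ (ρ (u, v) x) = α' u * φ x * α' v⁻¹) :
    FrR (bw R α') (fun ω => φ (b ω)) (fun ω => (cc ω).comp (φ.symm : A' →ₗ[R] M)) := by
  have hbw : ∀ (g : V × V) (m : M), bw R α' g (φ m) = φ (ρ g m) := by
    rintro ⟨u, v⟩ m
    rw [hρ]
    show α' u * (φ m * α' v⁻¹) = α' u * φ m * α' v⁻¹
    rw [mul_assoc]
  refine ⟨?_, ?_, ?_⟩
  · intro g t
    show φ (b (g • t)) = bw R α' g (φ (b t))
    rw [h.1, hbw]
  · intro g t n
    obtain ⟨m, rfl⟩ := φ.surjective n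
    rw [hbw]
    show cc (g • t) (φ.symm (φ (ρ g m))) = cc t (φ.symm (φ m))
    rw [LinearEquiv.symm_apply_apply, LinearEquiv.symm_apply_apply, h.2.1]
  · intro n
    obtain ⟨m, rfl⟩ := φ.surjective n
    have h3 := h.2.2 m
    show ∑ t, cc t (φ.symm (φ m)) • φ (b t) = φ m
    rw [LinearEquiv.symm_apply_apply]
    conv_rhs => rw [← h3, map_sum]
    refine Finset.sum_congr rfl fun t _ => ?_
    rw [map_smul]

theorem lft (hMOL : MolStmt) (hBVL : BvlStmt) (hCSU : CsuStmt) (hALV : AlvStmt)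
    (hRGV : RgvStmt) (hFLV : FlvStmt) (hRFM : RfmStmt) (hUZL : UzlStmt) : LftStmt := by
  intro R F V A K Ω _ _ _ _ c _ _ _ _ _ _ _ α lam x y b cc u _ hRF hFr hu
  obtain ⟨M, _, _, _, _, ρ, b₁, cc₁, q, hfr1, hred, hqb, hqc⟩ :=
    hMOL R F (V × V) A Ω c (bw F α) b cc hFr
  have hL := hBVL R F V M A Ω c ρ (bw F α) q b₁ cc₁ hfr1 hred
  obtain ⟨_, hcsm⟩ := hCSU F V A K α lam x y u hRF hu
  obtain ⟨β, hβ1, hβ2, hβ3⟩ :=
    hALV R F V A M K c α x (fun i => y i * u) hcsm ρ q hred hL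
  obtain ⟨A', _, _, φ, α', hφ, hρ, hqα, hq1⟩ :=
    hRGV R F V A M c α ρ q hred β hβ1 hβ2 hβ3
  have hfin : Module.Finite R A' := Module.Finite.equiv φ
  have hfree : Module.Free R A' := Module.Free.of_equiv φ
  have hfr' := frm_tr hfr1 φ α' hρ
  obtain ⟨lam', hlam1, hlam2⟩ := hFLV R F V A A' Ω K c α α' (fq hred hβ2 φ hφ hq1)
    (fun ω => φ (b₁ ω)) (fun ω => (cc₁ ω).comp (φ.symm : A' →ₗ[R] M)) lam x
    (fun i => y i * u) hqα hfr' hcsm hRF.sym
  have hx : ∀ t, ∃ a, (fq hred hβ2 φ hφ hq1).q a = x t := fun t =>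
    (fq hred hβ2 φ hφ hq1).surj (x t)
  choose x' hx' using hx
  have hunit : ∀ r, IsUnit (1 + c.π * r) := by
    intro r
    refine c.loc _ ?_
    have h0 : c.κ (c.π * r) = 0 := (c.ker _).2 ⟨r, rfl⟩
    rw [map_add, h0, map_one, add_zero]
    exact one_ne_zero
  obtain ⟨y', hrf', hy'⟩ := hRFM R F V A A' K c.π c.κ α α' (fq hred hβ2 φ hφ hq1).q lam lam'
    x y x' hunit c.reg ⟨c.surj, c.ker⟩ (fq hred hβ2 φ hφ hq1).sc (fq hred hβ2 φ hφ hq1).surj
    (fq hred hβ2 φ hφ hq1).ker hqα hlam2 hlam1 hRF hx'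
  have hLift : LiftV c α lam x y b cc (fq hred hβ2 φ hφ hq1) α' lam' x' y'
      (fun ω => φ (b₁ ω)) (fun ω => (cc₁ ω).comp (φ.symm : A' →ₗ[R] M)) :=
    { qa := hqα
      ql := hlam2
      qx := hx'
      qy := hy'
      qb := fun ω => by
        show q (φ.symm (φ (b₁ ω))) = b ω
        rw [LinearEquiv.symm_apply_apply, hqb]
      qc := fun ω a => hqc ω (φ.symm a)
      rf := hrf'
      fr := hfr' }
  obtain ⟨⟨u', hu'⟩, _, _⟩ := hUZL R F V A A' K Ω c α lam x y b cc (fq hred hβ2 φ hφ hq1)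
    α' lam' x' y' (fun ω => φ (b₁ ω)) (fun ω => (cc₁ ω).comp (φ.symm : A' →ₗ[R] M)) u hLift hu
  exact ⟨A', inferInstance, inferInstance, hfin, hfree, fq hred hβ2 φ hφ hq1, α', lam', x', y',
    (fun ω => φ (b₁ ω)), (fun ω => (cc₁ ω).comp (φ.symm : A' →ₗ[R] M)), u', hLift, hu'⟩

end Pool.Agent.PSS.H51
end
end -- Pool.Agent.Helper51_PSS.LFT
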