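import Pool.Agent.Helper12_AWB.B009

/-!
# Merged copies (generated) of the modules

* `Pool.Agent.PSS.StmtsS1b`
* `Pool.Agent.PSS.StmtsS1c`
* `Pool.Agent.Helper20_PSS.HCC`
* `Pool.Agent.Helper20_PSS.TRX`
* `Pool.Agent.Helper21_PSS.DLC`
* `Pool.Agent.Helper29_PSS.DMF`
* `Pool.Agent.Helper41_PSS.KEX`
* `Pool.Agent.Helper49_PSS.HCB`
* `Pool.Agent.Helper75_PSS.LIM`
* `Pool.Agent.Helper75_PSS.TGN`
* `Pool.Agent.Helper82_PSS.BLT`
* `Pool.Agent.Helper84_PSS.TRC`
-/

set_option autoImplicit false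

section -- Pool.Agent.PSS.StmtsS1b

/-!
# Squad PSS, block S1, part b (helper36): relative cohomology of an order

Complete proofs in the docstrings.  `i : A → B` is an `R`-order in a `K`-algebra (structure `KC`),
`V = ⟨z⟩ × W`, `n = orderOf z`.  Notation: `v` for `i (α v)`, `≡` = congruent modulo `i A` (products
of `≡` with elements of `i A` are allowed).  Results: `H^1(A|W; A) = 0` (H1V) and
`H^2(A|W; B/A) = 0` (H2V).  All sums are finite; the cochains are relative to `W` and normalised.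
-/

open scoped BigOperators TensorProduct

noncomputable section

namespace Pool.Agent.PSS

open Pool.Agent.PFD.D2b (FrR)
open Finset

/-- TAU: the projection `τ` onto a complement, `∑_(j<n) z^j τ (z^-j x) = x`.

Proof.  On `Ω` let `ω ~ ω'` iff `ω' = (z^j w, w') ω` for some `j`, `w, w'` in `W`; choose
representatives `r`, and `T₀` = the set of the `ω = (w, w') (r ω)` (`w, w'` in `W`).  If
`(z^j w, w') ω = ω` then by `StE` `z^j w = φ e w'` is in `W` (`stb`), so `z^j` is in `W`, `z^j = 1`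
(`dis`).  Hence every `ω` is `(z^j, 1) ω'` for exactly one pair `j < n`, `ω'` in `T₀` (existence:
`ω = (z^j w, w') r`, reduce `j` modulo `n`).  `τ x = ∑_(ω in T₀) cK ω x • i (b ω)`.
`z^j τ (z^-j x) = ∑_(ω in T₀) cK ω (z^-j x) • i (b ((z^j,1) ω)) = ∑ cK ((z^j,1) ω) x • i (b ((z^j,1) ω))`. -/
def TauStmt : Prop :=
  ∀ (R K V E A B κ Ω : Type) [CommRing R] [Field K] [CharZero K] [Algebra R K] [CommGroup V]
    [Fintype V] [Group E] [Ring A] [Algebra R A] [Ring B] [Algebra R B] [Algebra K B] [Fintype κ]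
    [Fintype Ω] [MulAction (V × V) Ω] (φ : E →* MulAut V) (W : Subgroup V) (z : V) (α : V →* A)
    (lam : A →ₗ[R] R) (x y : κ → A) (b : Ω → A) (c : Ω → (A →ₗ[R] R))
    (C : KC R K B α lam x y b c), Vz φ W z → StE φ Ω →
    ∃ τ : B →ₗ[K] B, (∀ a, In C.i (τ (C.i a))) ∧ WBl (ia C.i α) W τ ∧
      ∀ x, ∑ j ∈ range (orderOf z), C.i (α (z ^ j)) * τ (C.i (α (z ^ j)⁻¹) * x) = x

/-- FXL: vectors fixed modulo `i A` by a subgroup of `V × V` are congruent to fixed vectors.

Proof.  `d ω = cK ω x`; for `g` in `X` `d (g ω) - d ω = cK (g ω) (x - g x)` is in the image of `R`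
(`ck`).  Choose representatives `r` of the `X`-orbits, `d' ω = d (r ω)`, `y = ∑ d' ω • i (b ω)`:
fixed by `X`, and `y - x = ∑ (d' ω - d ω) • i (b ω)` is in `i A` (`tow`). -/
def FxlStmt : Prop :=
  ∀ (R K V A B κ Ω : Type) [CommRing R] [Field K] [CharZero K] [Algebra R K] [CommGroup V]
    [Fintype V] [Ring A] [Algebra R A] [Ring B] [Algebra R B] [Algebra K B] [Fintype κ]
    [Fintype Ω] [MulAction (V × V) Ω] (α : V →* A)
    (lam : A →ₗ[R] R) (x y : κ → A) (b : Ω → A) (c : Ω → (A →ₗ[R] R))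
    (C : KC R K B α lam x y b c) (X : Subgroup (V × V)) (s : B),
    (∀ g ∈ X, In C.i (bw K (ia C.i α) g s - s)) →
    ∃ t : B, (∀ g ∈ X, bw K (ia C.i α) g t = t) ∧ In C.i (t - s)

/-- HCB: a 2-cocycle modulo `i A` is cohomologous to one which vanishes on `V × A`.

Proof.  Write `c` for `cc`.  `f_j = c (z^j, z) z^-(j+1)` (commutes with `W` exactly, by `WB2`;
`f_(j+n) = f_j`).  `γ = ∑_(j<n) f_j`.  The cocycle identity for `(z, z^j, z)` gives
`z f_j z⁻¹ ≡ f_(j+1) - h_(j+1) + h_j`, `h_j = c (z, z^j) z^-(j+1)`, so `z γ z⁻¹ ≡ γ`; with `gen` the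
element `γ` is fixed modulo `i A` by the diagonal `{(v, v)}`, FXL: `γ'` commuting with `V`,
`γ' ≡ γ`.  `e = - n⁻¹ • γ'` and `γ_j = (j • e + ∑_(l<j) f_l) z^j` (`j : ℕ`).  Then `γ_0 = 0`,
`γ_j w = w γ_j`, `γ_(j+n) = γ_j + (γ - γ') z^j ≡ γ_j`, and
(1) `γ_(j+k) ≡ z^k γ_j + γ_k z^j + c (z^k, z^j)`: induction on `j`, as
`γ_(j+1) = γ_j z + e z^(j+1) + c (z^j, z)` and the cocycle identity for `(z^k, z^j, z)`.
With `τ` (TAU): `g₁ x = ∑_(j<n) (γ_j τ(z^-j x) + c (z^j, τ(z^-j x)))`, `K`-linear, `W`-`W`-linear.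
(2) for `x` in `i A`: `g₁ (z^k x) ≡ z^k g₁ x + γ_k x + c (z^k, x)`: the summand of `g₁ (z^k x)` is
periodic in `j` modulo `n` up to `≡`, so `g₁ (z^k x) ≡ ∑_(j<n) (γ_(j+k) x_j + c (z^(j+k), x_j))`,
`x_j = τ(z^-j x)` in `i A`; use (1), the cocycle identity for `(z^k, z^j, x_j)`
(`c (z^(j+k), x_j) ≡ z^k c (z^j, x_j) + c (z^k, z^j x_j) - c (z^k, z^j) x_j`), `∑ z^j x_j = x`.
`e' = g₁ 1` commutes with `W`; `g x = g₁ x - e' x`: `g 1 = 0`, and
`d1 g (z^k, x) = z^k g₁ x - g₁ (z^k x) + g₁ (z^k) x - z^k e' x ≡ - γ_k x - c (z^k, x) +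
(z^k e' + γ_k + c (z^k, 1)) x - z^k e' x = - c (z^k, x)`.  For `v = z^k w`:
`c (z^k w, x) = c (z^k, w x)`, `d1 g (z^k w, x) = d1 g (z^k, w x)`. -/
def HcbStmt : Prop :=
  ∀ (R K V E A B κ Ω : Type) [CommRing R] [Field K] [CharZero K] [Algebra R K] [CommGroup V]
    [Fintype V] [Group E] [Ring A] [Algebra R A] [Ring B] [Algebra R B] [Algebra K B] [Fintype κ]
    [Fintype Ω] [MulAction (V × V) Ω] (φ : E →* MulAut V) (W : Subgroup V) (z : V) (α : V →* A)
    (lam : A →ₗ[R] R) (x y : κ → A) (b : Ω → A) (c : Ω → (A →ₗ[R] R))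
    (C : KC R K B α lam x y b c), Vz φ W z → StE φ Ω →
    ∀ cc : B →ₗ[K] B →ₗ[K] B, WB2 (ia C.i α) W (fun a b => cc a b) →
    Nrm (fun a b => cc a b) →
    (∀ a₁ a₂ a₃, In C.i (dl (fun a b => cc a b) (C.i a₁) (C.i a₂) (C.i a₃))) →
    ∃ g : B →ₗ[K] B, WBl (ia C.i α) W g ∧ g 1 = 0 ∧
      ∀ v a, In C.i (cc (C.i (α v)) (C.i a) + d1 g (C.i (α v)) (C.i a))

/-- HCC: the contraction with the Casimir families.

Proof.  `g a = ∑_i u_i c (v_i, a)` (write `u_i` for `i (u_i)` ..).  The cocycle identity for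
`(g, b, a₀)`, `g` in `V`, and `c (g, ·) ≡ 0` on `i A` give `c (g b, a₀) ≡ g c (b, a₀)`, so
`(a, b) ↦ a c (b, a₀)` with values in the `R`-module `B / i A` is balanced, and `Csm` applies:
`∑ a u_i c (v_i, a₀) ≡ ∑ u_i c (v_i a, a₀)`.  Hence
`a g(b) - g(a b) + g(a) b ≡ ∑ u_i (c (v_i a, b) - c (v_i, a b) + c (v_i, a) b) ≡ ∑ u_i v_i c (a, b)
= c (a, b)` (cocycle identity for `(v_i, a, b)`).  Left `W`-linearity modulo `i A`:
`g (w a) = ∑ u_i c (v_i w, a) ≡ ∑ w u_i c (v_i, a)`; right: exact; `g 1 = 0`. -/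
def HccStmt : Prop :=
  ∀ (R K V A B κ Ω : Type) [CommRing R] [Field K] [CharZero K] [Algebra R K] [CommGroup V]
    [Fintype V] [Ring A] [Algebra R A] [Ring B] [Algebra R B] [Algebra K B] [Fintype κ]
    [Fintype Ω] [MulAction (V × V) Ω] (W : Subgroup V) (α : V →* A)
    (lam : A →ₗ[R] R) (x y : κ → A) (b : Ω → A) (c : Ω → (A →ₗ[R] R))
    (C : KC R K B α lam x y b c) (κ' : Type) [Fintype κ'] (u v : κ' → A), Csm R α u v →
    ∀ cc : B →ₗ[K] B →ₗ[K] B, WB2 (ia C.i α) W (fun a b => cc a b) →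
    Nrm (fun a b => cc a b) →
    (∀ a₁ a₂ a₃, In C.i (dl (fun a b => cc a b) (C.i a₁) (C.i a₂) (C.i a₃))) →
    (∀ v a, In C.i (cc (C.i (α v)) (C.i a))) →
    ∃ g : A →ₗ[R] B, (∀ w ∈ W, ∀ a, In C.i (g (α w * a) - C.i (α w) * g a) ∧
        In C.i (g (a * α w) - g a * C.i (α w))) ∧ In C.i (g 1) ∧
      ∀ a₁ a₂, In C.i (cc (C.i a₁) (C.i a₂) - (C.i a₁ * g a₂ - g (a₁ * a₂) + g a₁ * C.i a₂))

/-- LFG: a map which is `W`-`W`-linear modulo `i A` is congruent to a `W`-`W`-linear one.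

Proof.  `W × W` acts on `Ω`; for a representative `ω₀` of an orbit, `g (b ω₀)` is fixed modulo `i A`
by the stabiliser of `ω₀` in `W × W`; FXL gives a fixed `h ω₀ ≡ g (b ω₀)`; put
`h ((w, w') ω₀) = w (h ω₀) w'⁻¹` (well defined) `≡ g (b ((w, w') ω₀))`.
`H₁ x = ∑ cK ω x • h ω` is `W`-`W`-linear and `H₁ (i a) = ∑ c ω a • h ω ≡ g a`.  `e = H₁ 1` is in
`i A` and commutes with `W`: `H x = H₁ x - x e`. -/
def LfgStmt : Prop :=
  ∀ (R K V A B κ Ω : Type) [CommRing R] [Field K] [CharZero K] [Algebra R K] [CommGroup V]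
    [Fintype V] [Ring A] [Algebra R A] [Ring B] [Algebra R B] [Algebra K B] [Fintype κ]
    [Fintype Ω] [MulAction (V × V) Ω] (W : Subgroup V) (α : V →* A)
    (lam : A →ₗ[R] R) (x y : κ → A) (b : Ω → A) (c : Ω → (A →ₗ[R] R))
    (C : KC R K B α lam x y b c) (g : A →ₗ[R] B),
    (∀ w ∈ W, ∀ a, In C.i (g (α w * a) - C.i (α w) * g a) ∧
        In C.i (g (a * α w) - g a * C.i (α w))) → In C.i (g 1) →
    ∃ H : B →ₗ[K] B, WBl (ia C.i α) W H ∧ H 1 = 0 ∧ ∀ a, In C.i (H (C.i a) - g a)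

/-- H2V: `H^2(A|W; B/A) = 0`.

Proof.  CSU for the Casimir families of `A` (`u * rt x y 1 = 1`).  HCB: `g₁`;
`c₁ = cc + d1 g₁` is `K`-bilinear, relative, normalised (`g₁ 1 = 0`), `dl c₁ = dl cc`
(`dl (d1 g) = 0`), and `c₁ (v, a)` is in `i A`.  HCC: `g₂`, LFG: `H₂`.  `H = H₂ - g₁`:
`cc - d1 H = c₁ - d1 H₂ ≡ c₁ - d1 g₂ ≡ 0` on `i A`. -/
def H2vStmt : Prop :=
  ∀ (R K V E A B κ Ω : Type) [CommRing R] [Field K] [CharZero K] [Algebra R K] [CommGroup V]
    [Fintype V] [Group E] [Ring A] [Algebra R A] [Ring B] [Algebra R B] [Algebra K B] [Fintype κ]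
    [Fintype Ω] [MulAction (V × V) Ω] (φ : E →* MulAut V) (W : Subgroup V) (z : V) (α : V →* A)
    (lam : A →ₗ[R] R) (x y : κ → A) (b : Ω → A) (c : Ω → (A →ₗ[R] R))
    (C : KC R K B α lam x y b c) (u : A), Vz φ W z → StE φ Ω → u * rt x y 1 = 1 →
    ∀ cc : B →ₗ[K] B →ₗ[K] B, WB2 (ia C.i α) W (fun a b => cc a b) →
    Nrm (fun a b => cc a b) →
    (∀ a₁ a₂ a₃, In C.i (dl (fun a b => cc a b) (C.i a₁) (C.i a₂) (C.i a₃))) →
    ∃ H : B →ₗ[K] B, WBl (ia C.i α) W H ∧ H 1 = 0 ∧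
      ∀ a₁ a₂, In C.i (cc (C.i a₁) (C.i a₂) - d1 H (C.i a₁) (C.i a₂))

/-- H1V: `H^1(A|W; A) = 0`.

Proof.  `d_j = D(z^j) z^-j`, `d_(j+k) = d_j + z^j d_k z^-j`, `d_n = d_0 = 0`, `d_j` commutes with `W`.
In `B`: `y₀ = - n⁻¹ • ∑_(j<n) d_j`: `z y₀ z⁻¹ = y₀ + d_1` (`z d_j z⁻¹ = d_(j+1) - d_1`).  So `y₀` is
fixed modulo `i A` by the diagonal of `V` (`gen`; it commutes with `W`); FXL: `y' ≡ y₀` commuting
with `V`; `y₁ = y₀ - y'` is in `i A`, commutes with `W`, and `z y₁ z⁻¹ - y₁ = d_1`.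
`D₁ a = D a - (a y₁ - y₁ a)` is a derivation which kills `W` and `z`, hence `V` (`gen`).
`y₂ = ∑ u_i D₁(v_i)` (Casimir families of `A`, CSU): `a y₂ = ∑ u_i D₁(v_i a) = y₂ a + D₁ a`
(`Csm` for the balanced form `a' D₁(b')`), and `w y₂ = y₂ w`.  `y = y₁ + y₂`. -/
def H1vStmt : Prop :=
  ∀ (R K V E A B κ Ω : Type) [CommRing R] [Field K] [CharZero K] [Algebra R K] [CommGroup V]
    [Fintype V] [Group E] [Ring A] [Algebra R A] [Ring B] [Algebra R B] [Algebra K B] [Fintype κ]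
    [Fintype Ω] [MulAction (V × V) Ω] (φ : E →* MulAut V) (W : Subgroup V) (z : V) (α : V →* A)
    (lam : A →ₗ[R] R) (x y : κ → A) (b : Ω → A) (c : Ω → (A →ₗ[R] R))
    (_ : KC R K B α lam x y b c) (u : A), Vz φ W z → u * rt x y 1 = 1 →
    ∀ D : A →ₗ[R] A, (∀ a₁ a₂, D (a₁ * a₂) = D a₁ * a₂ + a₁ * D a₂) →
    (∀ w ∈ W, D (α w) = 0) →
    ∃ e : A, (∀ w ∈ W, e * α w = α w * e) ∧ ∀ a, D a = a * e - e * a

/-- KEX: existence of the context `KC` over the fraction field.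

Proof.  `B = K ⊗[R] A`, `i = Algebra.TensorProduct.includeRight`, injective because `A` is free over
the domain `R` (flat; `R → K` injective).  `lamK`, `cK` = base change of `lam`, `c ω`
(`LinearMap.baseChange` and `TensorProduct.rid`), the identities on pure tensors. -/
def KexStmt : Prop :=
  ∀ (R K V A κ Ω : Type) [CommRing R] [IsDomain R] [Field K] [Algebra R K] [IsFractionRing R K]
    [CommGroup V] [Fintype V] [Ring A] [Algebra R A] [Module.Finite R A] [Module.Free R A]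
    [Fintype κ] [Fintype Ω] [MulAction (V × V) Ω] (α : V →* A) (lam : A →ₗ[R] R) (x y : κ → A)
    (b : Ω → A) (c : Ω → (A →ₗ[R] R)), RF R α lam x y → FrR (bw R α) b c →
    Nonempty (KC R K (K ⊗[R] A) α lam x y b c)

end Pool.Agent.PSS
end
end -- Pool.Agent.PSS.StmtsS1b

section -- Pool.Agent.PSS.StmtsS1c

/-!
# Squad PSS, block S1, part c (helper36): the deformation

Complete proofs in the docstrings.  Over `K` the deformation is trivial: `P = 1 + s P_1 + ..`,
`P x · P y = P (x * y)`, `x * y = ∑ s^n m n x y` (structure `Trv`).  Step from `N` to `N + 1`: the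
coefficient `m (N + 1)` is a 2-cocycle modulo the order, `H2V` corrects `P_(N+1)`.
-/

open scoped BigOperators TensorProduct

noncomputable section

namespace Pool.Agent.PSS

open Pool.Agent.PFD.D2 (Cdv FibG)
open Pool.Agent.PFD.D2b (FrR)
open Finset

/-- TRX: existence of `m`.

Proof.  Strong recursion: `m n x y = ∑_(p in antidiagonal n) P p.1 x * P p.2 y -
∑_(p in antidiagonal n, p.1 ≠ 0) P p.1 (m p.2 x y)` (`p.2 < n` in the second sum). -/
def TrxStmt : Prop :=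
  ∀ (K V B : Type) [Field K] [CommGroup V] [Ring B] [Algebra K B] (β : V →* B) (W : Subgroup V)
    (P : ℕ → (B →ₗ[K] B)), P 0 = LinearMap.id → (∀ n, WBl β W (P n)) →
    (∀ n, P (n + 1) 1 = 0) → ∃ m : ℕ → (B →ₗ[K] B →ₗ[K] B), Trv β W P m

/-- TRA: `m` is a deformation over `K`.

Proof.  All by strong induction on `n`, using that `∑_(i+j=n) P i (e_j) = 0` and `e_j = 0` for
`j < n` give `e_n = P 0 e_n = 0`.  `n = 0`: `m 0 x y = x y`.  Associativity:
`e_j = ∑_(k+l=j) (m k (m l x y) z - m k x (m l y z))`; then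
`∑_(i+k+l=n) P i (m k (m l x y) z) = ∑_(a+b+l=n) P a (m l x y) P b z = ∑_(a+b+c=n) P a x P b y P c z`
and the same for the other bracket.  Relative: `e_j = m j (w x) y - w (m j x y)`:
`∑ P i (m j (w x) y) = ∑ P i (w x) P j y = w ∑ P i x P j y = w ∑ P i (m j x y) = ∑ P i (w (m j x y))`;
the same for the other two.  Normalised: `∑_(i+j=n) P i (m j 1 y) = ∑ P i 1 P j y = P n y` and the
term `j = 0` is `P n y`, so `e_0 = 0`, `e_j = m j 1 y` (`j > 0`). -/
def TraStmt : Prop :=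
  ∀ (K V B : Type) [Field K] [CommGroup V] [Ring B] [Algebra K B] (β : V →* B) (W : Subgroup V)
    (P : ℕ → (B →ₗ[K] B)) (m : ℕ → (B →ₗ[K] B →ₗ[K] B)), Trv β W P m →
    (∃ D : Dm K (aw β W), D.m = m) ∧ (∀ n, WB2 β W (fun a b => m n a b)) ∧
      ∀ n, Nrm (fun a b => m (n + 1) a b)

/-- TRC: change of `P`.

Proof.  Strong induction on `n`: if `P' i = P i` for all `i ≤ n` then the identities `pm` give
`∑_(i+j=n) P i (m' j x y - m j x y) = 0`, so `m' n = m n`.  For `n = N + 1` the identities differ by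
`G x * y + x * G y = G (x y) + (m' (N+1) x y - m (N+1) x y)` (the terms with `i = N + 1`, and the term
`P 0 (m' (N+1) x y)`). -/
def TrcStmt : Prop :=
  ∀ (K V B : Type) [Field K] [CommGroup V] [Ring B] [Algebra K B] (β : V →* B) (W : Subgroup V)
    (P P' : ℕ → (B →ₗ[K] B)) (m m' : ℕ → (B →ₗ[K] B →ₗ[K] B)) (N : ℕ), Trv β W P m →
    Trv β W P' m' → (∀ n ≤ N, P' n = P n) →
    (∀ n ≤ N, m' n = m n) ∧ ∀ x y, m' (N + 1) x y = m (N + 1) x y +
      d1 (fun a => P' (N + 1) a - P (N + 1) a) x y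

/-- DLC: the coboundary of the coefficient `m (N + 1)`.

Proof.  Associativity (TRA) in degree `N + 1`; the terms `(0, N + 1)` and `(N + 1, 0)` give
`m (N+1) x y * z + m (N+1) (x y) z` and `x * m (N+1) y z + m (N+1) x (y z)`. -/
def DlcStmt : Prop :=
  ∀ (K V B : Type) [Field K] [CommGroup V] [Ring B] [Algebra K B] (β : V →* B) (W : Subgroup V)
    (P : ℕ → (B →ₗ[K] B)) (m : ℕ → (B →ₗ[K] B →ₗ[K] B)) (N : ℕ), Trv β W P m →
    ∀ x y z, dl (fun a b => m (N + 1) a b) x y z =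
      ∑ p ∈ (antidiagonal (N + 1)).filter (fun p => p.1 ≠ 0 ∧ p.2 ≠ 0),
        (m p.1 (m p.2 x y) z - m p.1 x (m p.2 y z))

/-- STN: one step without target.

Proof.  `cc = m (N + 1)`: `WB2`, `Nrm` (TRA), `dl cc` maps `i A` to `i A` (DLC, all terms of the sum
have indices `≤ N`).  H2V: `H`.  `P' n = P n` for `n ≤ N`, `P' (N+1) = P (N+1) - H`, `P' n = P n`
(or `0`) for `n > N + 1`; TRX: `m'`; TRC: `m' (N+1) = m (N+1) - d1 H` on `B`, integral. -/
def StnStmt : Prop :=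
  ∀ (R K V E A B κ Ω : Type) [CommRing R] [Field K] [CharZero K] [Algebra R K] [CommGroup V]
    [Fintype V] [Group E] [Ring A] [Algebra R A] [Ring B] [Algebra R B] [Algebra K B] [Fintype κ]
    [Fintype Ω] [MulAction (V × V) Ω] (φ : E →* MulAut V) (W : Subgroup V) (z : V) (α : V →* A)
    (lam : A →ₗ[R] R) (x y : κ → A) (b : Ω → A) (c : Ω → (A →ₗ[R] R))
    (C : KC R K B α lam x y b c) (u : A), Vz φ W z → StE φ Ω → u * rt x y 1 = 1 →
    ∀ (P : ℕ → (B →ₗ[K] B)) (m : ℕ → (B →ₗ[K] B →ₗ[K] B)) (N : ℕ), Trv (ia C.i α) W P m →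
    (∀ n ≤ N, ∀ a₁ a₂, In C.i (m n (C.i a₁) (C.i a₂))) →
    ∃ (P' : ℕ → (B →ₗ[K] B)) (m' : ℕ → (B →ₗ[K] B →ₗ[K] B)), Trv (ia C.i α) W P' m' ∧
      (∀ n ≤ N, P' n = P n) ∧ ∀ n ≤ N + 1, ∀ a₁ a₂, In C.i (m' n (C.i a₁) (C.i a₂))

/-- BLT: relative normalised bilinear maps lift.

Proof.  BVL for `H = W` (the frame `b`, `c` restricted to `W × W`, `RedM` from `f`): a relative `μ`;
`RB` for `bw R (aw α W)` is `WB2`.  Normalisation: `μ' a a' = μ a a' - a (μ 1 a')` is relative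
(`μ 1 (w a') = μ w a' = w μ 1 a'`), `μ' 1 a' = 0`; `μ'' a a' = μ' a a' - (μ' a 1) a'`
(`w` commutes: `μ' (a w) 1 = μ' a w = (μ' a 1) w`), `μ'' a 1 = 0`, `μ'' 1 a' = 0`; the corrections
have reduction `0`, as `μ₀` is normalised. -/
def BltStmt : Prop :=
  ∀ (R F V A A₀ Ω : Type) [CommRing R] [Field F] [CommGroup V] [Ring A] [Algebra R A] [Ring A₀]
    [Algebra F A₀] [Fintype Ω] [MulAction (V × V) Ω] (W : Subgroup V) (α : V →* A)
    (b : Ω → A) (c : Ω → (A →ₗ[R] R)) (cv : Cdv R F) (f : FibG A A₀ cv) (α₀ : V →* A₀)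
    (μ₀ : A₀ →ₗ[F] A₀ →ₗ[F] A₀), FrR (bw R α) b c → (∀ v, f.q (α v) = α₀ v) →
    WB2 α₀ W (fun a b => μ₀ a b) → Nrm (fun a b => μ₀ a b) →
    ∃ μ : A →ₗ[R] A →ₗ[R] A, WB2 α W (fun a b => μ a b) ∧ Nrm (fun a b => μ a b) ∧
      ∀ a a', f.q (μ a a') = μ₀ (f.q a) (f.q a')

/-- STT: one step with target `D₀`.

Proof.  BLT for `D₀.m (N + 1)`: `μ` on `A`; extend it to `B`: `μB x y = ∑_(ω,ω') cK ω x * cK ω' y •
i (μ (b ω) (b ω'))`; it is `K`-bilinear, `μB (i a) (i a') = i (μ a a')`, relative and normalised (check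
on the elements `i (b ω)`, which span `B` over `K`).  `cc = π⁻¹ • (m (N+1) - μB)` (`π` in `K`, not
zero).  `dl cc` maps `i A` to `i A`: for `a_j` in `A`, `dl (m (N+1))` is by DLC the value of an
expression in the `m n`, `n ≤ N`, so it is `i e` with `q e` = the same expression for `D₀`, which is
`dl (D₀.m (N+1)) (q a₁) (q a₂) (q a₃)` (associativity of `D₀`), and this is `q` of `dl μ`; so the
difference is `i` of an element of `π A`.  H2V: `H` with `cc - d1 H` integral.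
`P' (N+1) = P (N+1) - π • H`; `m' (N+1) = m (N+1) - π d1 H = μB + π (cc - d1 H)` on `i A` (TRC). -/
def SttStmt : Prop :=
  ∀ (R K F V E A A₀ B κ Ω : Type) [CommRing R] [IsDomain R] [Field K] [CharZero K] [Algebra R K]
    [Field F] [CommGroup V] [Fintype V] [Group E] [Ring A] [Algebra R A] [Module.Finite R A]
    [Module.Free R A] [Ring A₀] [Algebra F A₀] [Ring B] [Algebra R B] [Algebra K B] [Fintype κ]
    [Fintype Ω] [MulAction (V × V) Ω] (φ : E →* MulAut V) (W : Subgroup V) (z : V) (α : V →* A)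
    (lam : A →ₗ[R] R) (x y : κ → A) (b : Ω → A) (c : Ω → (A →ₗ[R] R))
    (C : KC R K B α lam x y b c) (u : A) (cv : Cdv R F) (f : FibG A A₀ cv) (α₀ : V →* A₀)
    (D₀ : Dm F (aw α₀ W)), Vz φ W z → StE φ Ω → u * rt x y 1 = 1 → (∀ v, f.q (α v) = α₀ v) →
    ∀ (P : ℕ → (B →ₗ[K] B)) (m : ℕ → (B →ₗ[K] B →ₗ[K] B)) (N : ℕ), Trv (ia C.i α) W P m →
    (∀ n ≤ N, ∀ a₁ a₂, ∃ e, C.i e = m n (C.i a₁) (C.i a₂) ∧
      f.q e = D₀.m n (f.q a₁) (f.q a₂)) →
    ∃ (P' : ℕ → (B →ₗ[K] B)) (m' : ℕ → (B →ₗ[K] B →ₗ[K] B)), Trv (ia C.i α) W P' m' ∧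
      (∀ n ≤ N, P' n = P n) ∧ ∀ n ≤ N + 1, ∀ a₁ a₂, ∃ e, C.i e = m' n (C.i a₁) (C.i a₂) ∧
      f.q e = D₀.m n (f.q a₁) (f.q a₂)

/-- LIM: the limit of a sequence of approximations.

Proof.  Dependent choice: `f_N` with `Q (N₀ + N) f_N`, `f_(N+1) = f_N` on `n ≤ N₀ + N`;
`f n = f_(n - N₀) n` agrees with `f_N` on `n ≤ N₀ + N`. -/
def LimStmt : Prop :=
  ∀ (X : Type) (Q : ℕ → (ℕ → X) → Prop), (∀ N f g, (∀ n ≤ N, f n = g n) → Q N f → Q N g) →
    (∀ N f, Q N f → ∃ g, (∀ n ≤ N, g n = f n) ∧ Q (N + 1) g) →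
    ∀ (N₀ : ℕ) (f₀ : ℕ → X), Q N₀ f₀ → ∃ f, (∀ n ≤ N₀, f n = f₀ n) ∧ ∀ N, N₀ ≤ N → Q N f

/-- TGN: the deformation with given first order term.

Proof.  LIM for `X = (B →ₗ[K] B) × (B →ₗ[K] B →ₗ[K] B)`, `Q N` = for all `n ≤ N` the conditions of
`Trv` in degree `n` (`P 0 = 1`, `WBl (P n)`, `P n 1 = 0` for `n > 0`, `pm` in degree `n`) and the
integrality of `m n`.  Start `N₀ = 1`: `P = (1, g, 0, ..)`, `m` by TRX, `m 0 = mult`,
`m 1 x y = d1 g x y` (from `pm` in degree 1).  Step: replace `P n` by `0` for `n > N`, TRX, the new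
`m` agrees up to `N` (the argument of TRC), then STN. -/
def TgnStmt : Prop :=
  ∀ (R K V E A B κ Ω : Type) [CommRing R] [Field K] [CharZero K] [Algebra R K] [CommGroup V]
    [Fintype V] [Group E] [Ring A] [Algebra R A] [Ring B] [Algebra R B] [Algebra K B] [Fintype κ]
    [Fintype Ω] [MulAction (V × V) Ω] (φ : E →* MulAut V) (W : Subgroup V) (z : V) (α : V →* A)
    (lam : A →ₗ[R] R) (x y : κ → A) (b : Ω → A) (c : Ω → (A →ₗ[R] R))
    (C : KC R K B α lam x y b c) (u : A), Vz φ W z → StE φ Ω → u * rt x y 1 = 1 →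
    ∀ g : B →ₗ[K] B, WBl (ia C.i α) W g → g 1 = 0 →
    (∀ a₁ a₂, In C.i (d1 g (C.i a₁) (C.i a₂))) →
    ∃ (P : ℕ → (B →ₗ[K] B)) (m : ℕ → (B →ₗ[K] B →ₗ[K] B)), Trv (ia C.i α) W P m ∧ P 1 = g ∧
      ∀ n a₁ a₂, In C.i (m n (C.i a₁) (C.i a₂))

/-- TLF: every deformation of `A₀` lifts to a deformation of `A`.

Proof.  As TGN, start `N₀ = 0`, `P = (1, 0, ..)`, with STT. -/
def TlfStmt : Prop :=
  ∀ (R K F V E A A₀ B κ Ω : Type) [CommRing R] [IsDomain R] [Field K] [CharZero K] [Algebra R K]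
    [Field F] [CommGroup V] [Fintype V] [Group E] [Ring A] [Algebra R A] [Module.Finite R A]
    [Module.Free R A] [Ring A₀] [Algebra F A₀] [Ring B] [Algebra R B] [Algebra K B] [Fintype κ]
    [Fintype Ω] [MulAction (V × V) Ω] (φ : E →* MulAut V) (W : Subgroup V) (z : V) (α : V →* A)
    (lam : A →ₗ[R] R) (x y : κ → A) (b : Ω → A) (c : Ω → (A →ₗ[R] R))
    (C : KC R K B α lam x y b c) (u : A) (cv : Cdv R F) (f : FibG A A₀ cv) (α₀ : V →* A₀)
    (D₀ : Dm F (aw α₀ W)), Vz φ W z → StE φ Ω → u * rt x y 1 = 1 → (∀ v, f.q (α v) = α₀ v) →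
    ∃ (P : ℕ → (B →ₗ[K] B)) (m : ℕ → (B →ₗ[K] B →ₗ[K] B)), Trv (ia C.i α) W P m ∧
      ∀ n a₁ a₂, ∃ e, C.i e = m n (C.i a₁) (C.i a₂) ∧ f.q e = D₀.m n (f.q a₁) (f.q a₂)

/-- DMR: the deformation of the order.

Proof.  `D.m n a b` is the unique element of `A` with `i (D.m n a b) = m n (i a) (i b)` (`inj`); the
identities of `Dm` from TRA and the injectivity of `i`. -/
def DmrStmt : Prop :=
  ∀ (R K V A B : Type) [CommRing R] [Field K] [Algebra R K] [CommGroup V]
    [Ring A] [Algebra R A] [Ring B] [Algebra R B] [Algebra K B] (W : Subgroup V) (α : V →* A)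
    (i : A →ₐ[R] B), Function.Injective i → (∀ (r : R) (a : B), algebraMap R K r • a = r • a) →
    ∀ (P : ℕ → (B →ₗ[K] B)) (m : ℕ → (B →ₗ[K] B →ₗ[K] B)), Trv (ia i α) W P m →
    (∀ n a₁ a₂, In i (m n (i a₁) (i a₂))) →
    ∃ D : Dm R (aw α W), ∀ n a₁ a₂, i (D.m n a₁ a₂) = m n (i a₁) (i a₂)

/-- DMF: reduction of a deformation.

Proof.  `D₀.m n (q a) (q b) = q (D.m n a b)`: well defined since `q a = 0` gives `a = π • a'`. -/
def DmfStmt : Prop :=
  ∀ (R F V A A₀ : Type) [CommRing R] [Field F] [CommGroup V] [Ring A] [Algebra R A] [Ring A₀]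
    [Algebra F A₀] (W : Subgroup V) (α : V →* A) (cv : Cdv R F) (f : FibG A A₀ cv)
    (α₀ : V →* A₀) (D : Dm R (aw α W)), (∀ v, f.q (α v) = α₀ v) →
    ∃ D₀ : Dm F (aw α₀ W), ∀ n a₁ a₂, f.q (D.m n a₁ a₂) = D₀.m n (f.q a₁) (f.q a₂)

end Pool.Agent.PSS
end
end -- Pool.Agent.PSS.StmtsS1c

section -- Pool.Agent.Helper20_PSS.HCC

/-!
# Squad PSS, row HCC: the contraction with the Casimir families
-/

open scoped BigOperators TensorProduct

noncomputable section

namespace Pool.Agent.PSS.H20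

open Pool.Agent.PFD.D2b (FrR)
open Finset

theorem hcc : HccStmt := by
  intro R K V A B κ Ω _ _ _ _ _ _ _ _ _ _ _ _ _ _ W α lam x y b c C κ' _ u v hcs cc hW hN hdl hv
  obtain ⟨P, hP⟩ : ∃ P : Submodule R B, ∀ x, x ∈ P ↔ In C.i x :=
    ⟨LinearMap.range C.i.toLinearMap, fun x => Iff.rfl⟩
  have hPl : ∀ (a : A) (t : B), t ∈ P → C.i a * t ∈ P := by
    intro a t ht
    obtain ⟨s, rfl⟩ := (hP t).1 ht
    exact (hP _).2 ⟨a * s, by rw [map_mul]⟩
  have hPr : ∀ (a : A) (t : B), t ∈ P → t * C.i a ∈ P := by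
    intro a t ht
    obtain ⟨s, rfl⟩ := (hP t).1 ht
    exact (hP _).2 ⟨s * a, by rw [map_mul]⟩
  have hs1 : ∀ (r : R) (p q : B), cc (r • p) q = r • cc p q := by
    intro r p q
    rw [← C.tow r p, map_smul, LinearMap.smul_apply, C.tow]
  have hs2 : ∀ (r : R) (p q : B), cc p (r • q) = r • cc p q := by
    intro r p q
    rw [← C.tow r q, map_smul, C.tow]
  have hd : ∀ a₁ a₂ a₃ : A, C.i a₁ * cc (C.i a₂) (C.i a₃) - cc (C.i (a₁ * a₂)) (C.i a₃) +
      cc (C.i a₁) (C.i (a₂ * a₃)) - cc (C.i a₁) (C.i a₂) * C.i a₃ ∈ P := by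
    intro a₁ a₂ a₃
    rw [hP, map_mul C.i, map_mul C.i]
    exact hdl a₁ a₂ a₃
  -- (A)
  have hA : ∀ (g : V) (p a₀ : A),
      C.i (α g) * cc (C.i p) (C.i a₀) - cc (C.i (α g * p)) (C.i a₀) ∈ P := by
    intro g p a₀
    have h1 := hd (α g) p a₀
    have h2 : cc (C.i (α g)) (C.i (p * a₀)) ∈ P := (hP _).2 (hv g (p * a₀))
    have h3 : cc (C.i (α g)) (C.i p) * C.i a₀ ∈ P := hPr _ _ ((hP _).2 (hv g p))
    have h4 := P.sub_mem (P.add_mem h1 h3) h2
    have h5 : C.i (α g) * cc (C.i p) (C.i a₀) - cc (C.i (α g * p)) (C.i a₀) =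
        C.i (α g) * cc (C.i p) (C.i a₀) - cc (C.i (α g * p)) (C.i a₀) +
        cc (C.i (α g)) (C.i (p * a₀)) - cc (C.i (α g)) (C.i p) * C.i a₀ +
        cc (C.i (α g)) (C.i p) * C.i a₀ - cc (C.i (α g)) (C.i (p * a₀)) := by
      abel
    rw [h5]
    exact h4
  -- (B)
  have hB : ∀ (a a₀ : A), ∑ i, C.i (a * u i) * cc (C.i (v i)) (C.i a₀) -
      ∑ i, C.i (u i) * cc (C.i (v i * a)) (C.i a₀) ∈ P := by
    intro a a₀
    obtain ⟨f, hf⟩ : ∃ f : A →ₗ[R] A →ₗ[R] (B ⧸ P), ∀ p q,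
        f p q = P.mkQ (C.i p * cc (C.i q) (C.i a₀)) := by
      refine ⟨LinearMap.mk₂ R (fun p q => P.mkQ (C.i p * cc (C.i q) (C.i a₀))) ?_ ?_ ?_ ?_,
        fun p q => rfl⟩
      · intro p p' q
        rw [map_add, add_mul, map_add]
      · intro r p q
        rw [map_smul, smul_mul_assoc, map_smul]
      · intro p q q'
        rw [map_add, map_add, LinearMap.add_apply, mul_add, map_add]
      · intro r p q
        rw [map_smul, hs1, mul_smul_comm, map_smul]
    have h1 := hcs.2 (B ⧸ P) f (by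
      intro p g q
      rw [hf, hf, ← sub_eq_zero, ← map_sub, Submodule.mkQ_apply, Submodule.Quotient.mk_eq_zero,
        map_mul C.i, mul_assoc, ← mul_sub]
      exact hPl _ _ (hA g q a₀)) a
    simp only [hf] at h1
    rw [← map_sum, ← map_sum, ← sub_eq_zero, ← map_sub, Submodule.mkQ_apply,
      Submodule.Quotient.mk_eq_zero] at h1
    exact h1
  obtain ⟨g, hg⟩ : ∃ g : A →ₗ[R] B, ∀ a, g a = ∑ i, C.i (u i) * cc (C.i (v i)) (C.i a) := by
    refine ⟨{ toFun := fun a => ∑ i, C.i (u i) * cc (C.i (v i)) (C.i a)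
              map_add' := ?_
              map_smul' := ?_ }, fun a => rfl⟩
    · intro a a'
      rw [← Finset.sum_add_distrib]
      refine Finset.sum_congr rfl fun i _ => ?_
      rw [map_add, map_add, mul_add]
    · intro r a
      rw [RingHom.id_apply, Finset.smul_sum]
      refine Finset.sum_congr rfl fun i _ => ?_
      rw [map_smul, hs2, mul_smul_comm]
  refine ⟨g, ?_, ?_, ?_⟩
  · intro w hw a
    constructor
    · rw [← hP]
      have h1 := P.neg_mem (hB (α w) a)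
      have h2 : ∑ i, C.i (α w * u i) * cc (C.i (v i)) (C.i a) = C.i (α w) * g a := by
        rw [hg, Finset.mul_sum]
        refine Finset.sum_congr rfl fun i _ => ?_
        rw [map_mul, mul_assoc]
      have h3 : ∑ i, C.i (u i) * cc (C.i (v i * α w)) (C.i a) = g (α w * a) := by
        rw [hg]
        refine Finset.sum_congr rfl fun i _ => ?_
        have h4 : cc (C.i (v i) * C.i (α w)) (C.i a) = cc (C.i (v i)) (C.i (α w) * C.i a) :=
          (hW w hw (C.i (v i)) (C.i a)).2.1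
        rw [map_mul C.i, map_mul C.i, h4]
      rw [h2, h3, neg_sub] at h1
      exact h1
    · refine ⟨0, ?_⟩
      rw [map_zero, hg, hg, Finset.sum_mul, ← Finset.sum_sub_distrib]
      symm
      refine Finset.sum_eq_zero fun i _ => ?_
      have h4 : cc (C.i (v i)) (C.i a * C.i (α w)) = cc (C.i (v i)) (C.i a) * C.i (α w) :=
        (hW w hw (C.i (v i)) (C.i a)).2.2
      rw [map_mul C.i, h4, mul_assoc, sub_self]
  · refine ⟨0, ?_⟩
    rw [map_zero, hg]
    symm
    refine Finset.sum_eq_zero fun i _ => ?_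
    have h4 : cc (C.i (v i)) 1 = 0 := hN.2 _
    rw [map_one, h4, mul_zero]
  · intro a₁ a₂
    rw [← hP]
    have h1 := hB a₁ a₂
    have h2 : ∑ i, C.i (a₁ * u i) * cc (C.i (v i)) (C.i a₂) = C.i a₁ * g a₂ := by
      rw [hg, Finset.mul_sum]
      refine Finset.sum_congr rfl fun i _ => ?_
      rw [map_mul, mul_assoc]
    rw [h2] at h1
    have h3 : ∑ i, C.i (u i) * (C.i (v i) * cc (C.i a₁) (C.i a₂) -
        cc (C.i (v i * a₁)) (C.i a₂) + cc (C.i (v i)) (C.i (a₁ * a₂)) -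
        cc (C.i (v i)) (C.i a₁) * C.i a₂) ∈ P :=
      P.sum_mem fun i _ => hPl _ _ (hd (v i) a₁ a₂)
    have h4 : ∑ i, C.i (u i) * (C.i (v i) * cc (C.i a₁) (C.i a₂) -
        cc (C.i (v i * a₁)) (C.i a₂) + cc (C.i (v i)) (C.i (a₁ * a₂)) -
        cc (C.i (v i)) (C.i a₁) * C.i a₂) = cc (C.i a₁) (C.i a₂) -
        ∑ i, C.i (u i) * cc (C.i (v i * a₁)) (C.i a₂) + g (a₁ * a₂) - g a₁ * C.i a₂ := by
      have h5 : cc (C.i a₁) (C.i a₂) = ∑ i, C.i (u i) * (C.i (v i) * cc (C.i a₁) (C.i a₂)) := by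
        have h6 : (1 : B) = ∑ i, C.i (u i) * C.i (v i) := by
          rw [← map_one C.i, ← hcs.1, map_sum]
          refine Finset.sum_congr rfl fun i _ => ?_
          rw [map_mul]
        calc cc (C.i a₁) (C.i a₂) = 1 * cc (C.i a₁) (C.i a₂) := (one_mul _).symm
          _ = ∑ i, C.i (u i) * (C.i (v i) * cc (C.i a₁) (C.i a₂)) := by
            rw [h6, Finset.sum_mul]
            refine Finset.sum_congr rfl fun i _ => ?_
            rw [mul_assoc]
      have h7 : g a₁ * C.i a₂ = ∑ i, C.i (u i) * (cc (C.i (v i)) (C.i a₁) * C.i a₂) := by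
        rw [hg, Finset.sum_mul]
        refine Finset.sum_congr rfl fun i _ => ?_
        rw [mul_assoc]
      rw [h7, hg]
      nth_rewrite 2 [h5]
      rw [← Finset.sum_sub_distrib, ← Finset.sum_add_distrib, ← Finset.sum_sub_distrib]
      refine Finset.sum_congr rfl fun i _ => ?_
      rw [mul_sub, mul_add, mul_sub]
    rw [h4] at h3
    have h8 := P.sub_mem h3 h1
    have h9 : cc (C.i a₁) (C.i a₂) - (C.i a₁ * g a₂ - g (a₁ * a₂) + g a₁ * C.i a₂) =
        cc (C.i a₁) (C.i a₂) - ∑ i, C.i (u i) * cc (C.i (v i * a₁)) (C.i a₂) + g (a₁ * a₂) -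
        g a₁ * C.i a₂ - (C.i a₁ * g a₂ - ∑ i, C.i (u i) * cc (C.i (v i * a₁)) (C.i a₂)) := by
      abel
    rw [h9]
    exact h8

end Pool.Agent.PSS.H20
end
end -- Pool.Agent.Helper20_PSS.HCC

section -- Pool.Agent.Helper20_PSS.TRX

/-!
# Squad PSS, row TRX: strong recursion
-/

open scoped BigOperators TensorProduct

noncomputable section

namespace Pool.Agent.PSS.H20

open Finset

variable {K B : Type} [Field K] [Ring B] [Algebra K B]

/-- the coefficients of the transported multiplication -/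
noncomputable def mm (P : ℕ → (B →ₗ[K] B)) (n : ℕ) : B →ₗ[K] B →ₗ[K] B :=
  (∑ p ∈ antidiagonal n, (LinearMap.mul K B).compl₁₂ (P p.1) (P p.2)) -
    ∑ j : Fin n, (mm P j).compr₂ (P (n - j))
termination_by n
decreasing_by exact j.2

theorem mm_apply (P : ℕ → (B →ₗ[K] B)) (n : ℕ) (x y : B) :
    mm P n x y = ∑ p ∈ antidiagonal n, P p.1 x * P p.2 y -
      ∑ j ∈ range n, P (n - j) (mm P j x y) := by
  conv_lhs => rw [mm]
  rw [LinearMap.sub_apply, LinearMap.sub_apply, LinearMap.sum_apply, LinearMap.sum_apply,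
    LinearMap.sum_apply, LinearMap.sum_apply]
  congr 1
  rw [← Fin.sum_univ_eq_sum_range (fun j => P (n - j) (mm P j x y))]
  rfl

theorem trx : TrxStmt := by
  intro K V B _ _ _ _ β W P h0 hW h1
  refine ⟨mm P, h0, hW, h1, ?_⟩
  intro n x y
  have h2 : ∑ p ∈ antidiagonal n, P p.1 (mm P p.2 x y) =
      ∑ j ∈ range n, P (n - j) (mm P j x y) + mm P n x y := by
    rw [← Finset.Nat.sum_antidiagonal_swap]
    have h3 := Finset.Nat.sum_antidiagonal_eq_sum_range_succ
      (fun i j => P j (mm P i x y)) n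
    have h4 : ∑ p ∈ antidiagonal n, P p.swap.1 (mm P p.swap.2 x y) =
        ∑ p ∈ antidiagonal n, P p.2 (mm P p.1 x y) := rfl
    rw [h4, h3, Finset.sum_range_succ, Nat.sub_self, h0]
    rfl
  rw [h2, mm_apply]
  abel

end Pool.Agent.PSS.H20
end
end -- Pool.Agent.Helper20_PSS.TRX

section -- Pool.Agent.Helper21_PSS.DLC

/-!
# Row pss:DLC, the coboundary of the coefficient `m (N + 1)`
-/

open scoped BigOperators TensorProduct

noncomputable section

namespace Pool.Agent.PSS.H21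

open Finset

theorem not_filter (N : ℕ) : (antidiagonal (N + 1)).filter (fun p => ¬ (p.1 ≠ 0 ∧ p.2 ≠ 0)) =
    {((0 : ℕ), N + 1), (N + 1, 0)} := by
  ext ⟨a, b⟩
  simp only [mem_filter, HasAntidiagonal.mem_antidiagonal, mem_insert, mem_singleton, Prod.mk.injEq]
  omega

theorem dlc (hT : TraStmt) : DlcStmt := by
  intro K V B _ _ _ _ β W P m N h x y z
  obtain ⟨⟨D, hD⟩, -, -⟩ := hT K V B β W P m h
  subst hD
  have h1 := D.ass (N + 1) x y z
  rw [← sub_eq_zero, ← Finset.sum_sub_distrib] at h1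
  rw [← Finset.sum_filter_add_sum_filter_not (antidiagonal (N + 1))
    (fun p => p.1 ≠ 0 ∧ p.2 ≠ 0), not_filter, Finset.sum_pair (by simp)] at h1
  simp only [D.m0] at h1
  rw [eq_neg_of_add_eq_zero_left h1]
  unfold dl
  abel

end Pool.Agent.PSS.H21
end
end -- Pool.Agent.Helper21_PSS.DLC

section -- Pool.Agent.Helper29_PSS.DMF

/-!
# Squad PSS, rows DMF and DMR: reduction of a deformation, deformation of the order (helper29)
-/

noncomputable section

namespace Pool.Agent.PSS.H29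

open Pool.Agent.PSS
open Pool.Agent.PFD.D2 (Cdv FibG)
open Finset

/-- DMF. -/
theorem dmf : DmfStmt := by
  intro R F V A A₀ _ _ _ _ _ _ _ W α cv f α₀ D hα
  have hq : ∀ (r : R) (x : A), f.q (r • x) = cv.κ r • f.q x := by
    intro r x
    rw [Algebra.smul_def, map_mul, f.sc, ← Algebra.smul_def]
  have hπ : cv.κ cv.π = 0 := (cv.ker _).2 ⟨1, (mul_one _).symm⟩
  have hwd : ∀ (n : ℕ) (a a' b b' : A), f.q a = f.q a' → f.q b = f.q b' →
      f.q (D.m n a b) = f.q (D.m n a' b') := by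
    intro n a a' b b' ha hb
    obtain ⟨c, hc⟩ := f.ker (a - a') (by rw [map_sub, ha, sub_self])
    obtain ⟨d, hd⟩ := f.ker (b - b') (by rw [map_sub, hb, sub_self])
    have h1 : a = a' + cv.π • c := by rw [← hc]; abel
    have h2 : b = b' + cv.π • d := by rw [← hd]; abel
    have h3 : ∀ b, f.q (D.m n (a' + cv.π • c) b) = f.q (D.m n a' b) := by
      intro b
      rw [map_add (D.m n), LinearMap.add_apply, map_smul (D.m n), LinearMap.smul_apply,
        map_add f.q, hq, hπ, zero_smul, add_zero]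
    rw [h1, h2, h3, map_add (D.m n a'), map_smul (D.m n a'), map_add f.q, hq, hπ, zero_smul,
      add_zero]
  choose s hs using f.surj
  have hsc : ∀ c : F, ∃ r : R, cv.κ r = c := cv.surj
  have key : ∀ (n : ℕ) (a b : A), f.q (D.m n (s (f.q a)) (s (f.q b))) = f.q (D.m n a b) :=
    fun n a b => hwd n _ _ _ _ (hs _) (hs _)
  let m : ℕ → (A₀ →ₗ[F] A₀ →ₗ[F] A₀) := fun n =>
    LinearMap.mk₂ F (fun x y => f.q (D.m n (s x) (s y)))
      (fun x x' y => by
        rw [hwd n (s (x + x')) (s x + s x') (s y) (s y) (by rw [hs, map_add, hs, hs]) rfl,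
          map_add, LinearMap.add_apply, map_add])
      (fun c x y => by
        obtain ⟨r, rfl⟩ := hsc c
        rw [hwd n (s (cv.κ r • x)) (r • s x) (s y) (s y) (by rw [hs, hq, hs]) rfl,
          map_smul, LinearMap.smul_apply, hq])
      (fun x y y' => by
        rw [hwd n (s x) (s x) (s (y + y')) (s y + s y') rfl (by rw [hs, map_add, hs, hs]),
          map_add, map_add])
      (fun c x y => by
        obtain ⟨r, rfl⟩ := hsc c
        rw [hwd n (s x) (s x) (s (cv.κ r • y)) (r • s y) rfl (by rw [hs, hq, hs]),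
          map_smul, hq])
  have hm : ∀ (n : ℕ) (a b : A), m n (f.q a) (f.q b) = f.q (D.m n a b) := key
  have haw : ∀ w : W, aw α₀ W w = f.q (aw α W w) := fun w => (hα w).symm
  refine ⟨{ m := m, m0 := ?_, ass := ?_, wl := ?_, wm := ?_, wr := ?_, n1 := ?_, n2 := ?_ },
    fun n a b => (hm n a b).symm⟩
  · intro x y
    obtain ⟨a, rfl⟩ := f.surj x
    obtain ⟨b, rfl⟩ := f.surj y
    rw [hm, D.m0, map_mul]
  · intro n x y z
    obtain ⟨a, rfl⟩ := f.surj x
    obtain ⟨b, rfl⟩ := f.surj y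
    obtain ⟨c, rfl⟩ := f.surj z
    have h1 := congrArg f.q (D.ass n a b c)
    rw [map_sum, map_sum] at h1
    simp only [hm]
    exact h1
  · intro n w x y
    obtain ⟨a, rfl⟩ := f.surj x
    obtain ⟨b, rfl⟩ := f.surj y
    rw [haw, ← map_mul, hm, hm, D.wl, map_mul]
  · intro n w x y
    obtain ⟨a, rfl⟩ := f.surj x
    obtain ⟨b, rfl⟩ := f.surj y
    rw [haw, ← map_mul, ← map_mul, hm, hm, D.wm]
  · intro n w x y
    obtain ⟨a, rfl⟩ := f.surj x
    obtain ⟨b, rfl⟩ := f.surj y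
    rw [haw, ← map_mul, hm, hm, D.wr, map_mul]
  · intro n x
    obtain ⟨a, rfl⟩ := f.surj x
    rw [← map_one f.q, hm, D.n1, map_zero]
  · intro n x
    obtain ⟨a, rfl⟩ := f.surj x
    rw [← map_one f.q, hm, D.n2, map_zero]

/-- DMR. -/
theorem dmr (hT : TraStmt) : DmrStmt := by
  intro R K V A B _ _ _ _ _ _ _ _ _ W α i hi htow P m hm hin
  obtain ⟨⟨DK, hDK⟩, -, -⟩ := hT K V B (ia i α) W P m hm
  choose g hg using hin
  let mm : ℕ → (A →ₗ[R] A →ₗ[R] A) := fun n =>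
    LinearMap.mk₂ R (fun a b => g n a b)
      (fun a a' b => hi (by rw [map_add, hg, hg, hg, map_add, map_add, LinearMap.add_apply]))
      (fun r a b => hi (by
        rw [hg, map_smul i, map_smul i, hg, ← htow r (i a), map_smul (m n), LinearMap.smul_apply,
          htow]))
      (fun a b b' => hi (by rw [map_add, hg, hg, hg, map_add, map_add]))
      (fun r a b => hi (by
        rw [hg, map_smul i, map_smul i, hg, ← htow r (i b), map_smul (m n (i a)), htow]))
  have hmm : ∀ n a b, i (mm n a b) = DK.m n (i a) (i b) := by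
    intro n a b
    rw [hDK]
    exact hg n a b
  refine ⟨{ m := mm, m0 := ?_, ass := ?_, wl := ?_, wm := ?_, wr := ?_, n1 := ?_, n2 := ?_ },
    fun n a b => hg n a b⟩
  · intro a b
    apply hi
    rw [hmm, DK.m0, map_mul i]
  · intro n a b c
    apply hi
    rw [map_sum i, map_sum i]
    simp only [hmm]
    exact DK.ass n (i a) (i b) (i c)
  · intro n w a b
    apply hi
    rw [hmm, map_mul i, map_mul i, hmm]
    exact DK.wl n w (i a) (i b)
  · intro n w a b
    apply hi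
    rw [hmm, hmm, map_mul i, map_mul i]
    exact DK.wm n w (i a) (i b)
  · intro n w a b
    apply hi
    rw [hmm, map_mul i, map_mul i, hmm]
    exact DK.wr n w (i a) (i b)
  · intro n a
    apply hi
    rw [hmm, map_one i, map_zero i]
    exact DK.n1 n (i a)
  · intro n a
    apply hi
    rw [hmm, map_one i, map_zero i]
    exact DK.n2 n (i a)

end Pool.Agent.PSS.H29
end
end -- Pool.Agent.Helper29_PSS.DMF

section -- Pool.Agent.Helper41_PSS.KEX

/-!
# Squad PSS, row KEX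
-/

set_option autoImplicit false

open scoped BigOperators TensorProduct

noncomputable section

namespace Pool.Agent.PSS.H41

open Pool.Agent.PFD.D2b (FrR)
open Pool.Agent.PSS

section

variable {R K A : Type} [CommRing R] [Field K] [Algebra R K] [Ring A] [Algebra R A]

/-- the base change of a form -/
def kf (f : A →ₗ[R] R) : K ⊗[R] A →ₗ[K] K :=
  (TensorProduct.AlgebraTensorModule.rid R K K).toLinearMap ∘ₗ f.baseChange K

theorem kf_tmul (f : A →ₗ[R] R) (s : K) (a : A) :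
    kf f (s ⊗ₜ[R] a) = s * algebraMap R K (f a) := by
  unfold kf
  rw [LinearMap.comp_apply, LinearMap.baseChange_tmul]
  change TensorProduct.AlgebraTensorModule.rid R K K (s ⊗ₜ[R] f a) = _
  rw [TensorProduct.AlgebraTensorModule.rid_tmul, Algebra.smul_def, mul_comm]

theorem kf_ir (f : A →ₗ[R] R) (a : A) :
    kf f ((Algebra.TensorProduct.includeRight : A →ₐ[R] K ⊗[R] A) a) = algebraMap R K (f a) := by
  rw [Algebra.TensorProduct.includeRight_apply, kf_tmul, one_mul]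

theorem tmul_eq (s : K) (a : A) : (s ⊗ₜ[R] a : K ⊗[R] A) =
    s • (Algebra.TensorProduct.includeRight : A →ₐ[R] K ⊗[R] A) a := by
  rw [Algebra.TensorProduct.includeRight_apply, TensorProduct.smul_tmul', smul_eq_mul, mul_one]

theorem smul_ir (r : R) (a : A) : algebraMap R K r •
    (Algebra.TensorProduct.includeRight : A →ₐ[R] K ⊗[R] A) a =
    (Algebra.TensorProduct.includeRight : A →ₐ[R] K ⊗[R] A) (r • a) := by
  rw [algebraMap_smul, map_smul]

end

theorem kex : KexStmt := by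
  intro R K V A κ Ω _ _ _ _ _ _ _ _ _ _ _ _ _ _ α lam x y b c hrf hfr
  have hinj : Function.Injective (algebraMap R K) := IsFractionRing.injective R K
  refine ⟨{
    i := Algebra.TensorProduct.includeRight
    inj := Algebra.TensorProduct.includeRight_injective hinj
    tow := fun r a => algebraMap_smul K r a
    rinj := hinj
    rf := hrf
    fr := hfr
    lamK := kf lam
    lk := kf_ir lam
    rfK := ⟨?_, ?_, ?_⟩
    cK := fun ω => kf (c ω)
    ck := fun ω => kf_ir (c ω)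
    frK := ⟨?_, ?_, ?_⟩ }⟩
  · intro a b
    induction a using TensorProduct.induction_on with
    | zero => rw [zero_mul, mul_zero]
    | add a a' h h' => rw [add_mul, mul_add, map_add, map_add, h, h']
    | tmul s a =>
      induction b using TensorProduct.induction_on with
      | zero => rw [zero_mul, mul_zero]
      | add a a' h h' => rw [add_mul, mul_add, map_add, map_add, h, h']
      | tmul t b =>
        rw [Algebra.TensorProduct.tmul_mul_tmul, Algebra.TensorProduct.tmul_mul_tmul, kf_tmul,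
          kf_tmul, hrf.sym, mul_comm s t]
  · intro a
    induction a using TensorProduct.induction_on with
    | zero => simp
    | add a a' h h' =>
      conv_rhs => rw [← h, ← h']
      rw [← Finset.sum_add_distrib]
      refine Finset.sum_congr rfl fun k _ => ?_
      rw [← Finset.sum_add_distrib]
      refine Finset.sum_congr rfl fun v _ => ?_
      rw [mul_add, map_add, add_smul]
    | tmul s a =>
      rw [tmul_eq]
      conv_rhs => rw [← hrf.e1 a, map_sum, Finset.smul_sum]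
      refine Finset.sum_congr rfl fun k _ => ?_
      rw [map_sum, Finset.smul_sum]
      refine Finset.sum_congr rfl fun v _ => ?_
      rw [mul_smul_comm, map_smul, ia_apply, ia_apply, ← map_mul, ← map_mul, ← map_mul, kf_ir,
        smul_assoc, smul_ir]
  · intro a
    induction a using TensorProduct.induction_on with
    | zero => simp
    | add a a' h h' =>
      conv_rhs => rw [← h, ← h']
      rw [← Finset.sum_add_distrib]
      refine Finset.sum_congr rfl fun k _ => ?_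
      rw [← Finset.sum_add_distrib]
      refine Finset.sum_congr rfl fun v _ => ?_
      rw [add_mul, map_add, add_smul]
    | tmul s a =>
      rw [tmul_eq]
      conv_rhs => rw [← hrf.e2 a, map_sum, Finset.smul_sum]
      refine Finset.sum_congr rfl fun k _ => ?_
      rw [map_sum, Finset.smul_sum]
      refine Finset.sum_congr rfl fun v _ => ?_
      rw [smul_mul_assoc, map_smul, ia_apply, ia_apply, ← map_mul, ← map_mul, ← map_mul, kf_ir,
        smul_assoc, smul_ir]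
  · intro g t
    have h := hfr.1 g t
    change b (g • t) = α g.1 * (b t * α g.2⁻¹) at h
    change (Algebra.TensorProduct.includeRight : A →ₐ[R] K ⊗[R] A) (b (g • t)) =
      (Algebra.TensorProduct.includeRight : A →ₐ[R] K ⊗[R] A) (α g.1) *
      ((Algebra.TensorProduct.includeRight : A →ₐ[R] K ⊗[R] A) (b t) *
      (Algebra.TensorProduct.includeRight : A →ₐ[R] K ⊗[R] A) (α g.2⁻¹))
    rw [h, map_mul, map_mul]
  · intro g t n
    change kf (c (g • t)) ((Algebra.TensorProduct.includeRight : A →ₐ[R] K ⊗[R] A) (α g.1) *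
      (n * (Algebra.TensorProduct.includeRight : A →ₐ[R] K ⊗[R] A) (α g.2⁻¹))) = kf (c t) n
    induction n using TensorProduct.induction_on with
    | zero => simp
    | add a a' h h' => rw [add_mul, mul_add, map_add, map_add, h, h']
    | tmul s a =>
      rw [tmul_eq, smul_mul_assoc, mul_smul_comm, map_smul, map_smul,
        ← map_mul, ← map_mul, kf_ir, kf_ir]
      have h := hfr.2.1 g t a
      change c (g • t) (α g.1 * (a * α g.2⁻¹)) = c t a at h
      rw [h]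
  · intro n
    induction n using TensorProduct.induction_on with
    | zero => simp
    | add a a' h h' =>
      conv_rhs => rw [← h, ← h']
      rw [← Finset.sum_add_distrib]
      refine Finset.sum_congr rfl fun k _ => ?_
      rw [map_add, add_smul]
    | tmul s a =>
      rw [tmul_eq]
      conv_rhs => rw [← hfr.2.2 a, map_sum, Finset.smul_sum]
      refine Finset.sum_congr rfl fun k _ => ?_
      rw [map_smul, kf_ir, smul_assoc, smul_ir]

end Pool.Agent.PSS.H41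
end
end -- Pool.Agent.Helper41_PSS.KEX

section -- Pool.Agent.Helper49_PSS.HCB

/-!
# Squad PSS, rows HCB and LFG (helper49)
-/

set_option autoImplicit false

open scoped BigOperators TensorProduct

namespace Pool.Agent.PSS.H49

open Pool.Agent.PSS
open Pool.Agent.PFD.D2b (FrR)
open Finset

/-! ## LFG -/

section lfg

variable {R K V A B κ Ω : Type} [CommRing R] [Field K] [Algebra R K] [CommGroup V]
  [Fintype V] [Ring A] [Algebra R A] [Ring B] [Algebra R B] [Algebra K B] [Fintype κ]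
  [Fintype Ω] [MulAction (V × V) Ω] {α : V →* A} {lam : A →ₗ[R] R} {x y : κ → A} {b : Ω → A}
  {c : Ω → (A →ₗ[R] R)}

theorem bw_apply' {S V' A' : Type} [CommRing S] [CommGroup V'] [Ring A'] [Algebra S A']
    (α' : V' →* A') (g : V' × V') (a : A') :
    bw S α' g a = α' g.1 * (a * α' g.2⁻¹) := rfl

theorem in_iff (C : KC R K B α lam x y b c) (s : B) : In C.i s ↔ s ∈ C.i.range :=
  (AlgHom.mem_range C.i).symm

/-- a map which is `W`-`W`-linear modulo `i A` commutes with the action modulo `i A` -/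
theorem act_mod (C : KC R K B α lam x y b c) {W : Subgroup V} {g : A →ₗ[R] B}
    (hg : ∀ w ∈ W, ∀ a, In C.i (g (α w * a) - C.i (α w) * g a) ∧
        In C.i (g (a * α w) - g a * C.i (α w))) {q : V × V} (hq : q ∈ W.prod W) (a : A) :
    bw K (ia C.i α) q (g a) - g (bw R α q a) ∈ C.i.range := by
  rw [bw_apply', bw_apply']
  have h1 := (in_iff C _).1 (hg q.1 hq.1 (a * α q.2⁻¹)).1
  have h2 := (in_iff C _).1 (hg q.2⁻¹ (inv_mem hq.2) a).2
  have h3 : C.i (α q.1) ∈ C.i.range := ⟨_, rfl⟩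
  have h4 := C.i.range.mul_mem h3 h2
  have h5 := C.i.range.neg_mem (C.i.range.add_mem h1 h4)
  have h6 : ia C.i α q.1 * (g a * ia C.i α q.2⁻¹) - g (α q.1 * (a * α q.2⁻¹)) =
      -(g (α q.1 * (a * α q.2⁻¹)) - C.i (α q.1) * g (a * α q.2⁻¹) +
        C.i (α q.1) * (g (a * α q.2⁻¹) - g a * C.i (α q.2⁻¹))) := by
    rw [ia_apply, ia_apply]
    noncomm_ring
  rw [h6]
  exact h5

theorem act_range (C : KC R K B α lam x y b c) (q : V × V) {s : B} (hs : s ∈ C.i.range) :
    bw K (ia C.i α) q s ∈ C.i.range := by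
  rw [bw_apply']
  exact C.i.range.mul_mem ⟨_, rfl⟩ (C.i.range.mul_mem hs ⟨_, rfl⟩)

theorem bw_mul' {S V' A' : Type} [CommRing S] [CommGroup V'] [Ring A'] [Algebra S A']
    (α' : V' →* A') (g h : V' × V') (a : A') :
    bw S α' (g * h) a = bw S α' g (bw S α' h a) := by
  rw [map_mul]
  rfl

/-- the equivariant family `h ω` congruent to `g (b ω)` -/
theorem fam (hfx : FxlStmt) [CharZero K] (C : KC R K B α lam x y b c) {W : Subgroup V}
    {g : A →ₗ[R] B}
    (hg : ∀ w ∈ W, ∀ a, In C.i (g (α w * a) - C.i (α w) * g a) ∧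
        In C.i (g (a * α w) - g a * C.i (α w))) :
    ∃ h : Ω → B, (∀ q ∈ W.prod W, ∀ ω, h (q • ω) = bw K (ia C.i α) q (h ω)) ∧
      ∀ ω, h ω - g (b ω) ∈ C.i.range := by
  classical
  let P : Subgroup (V × V) := W.prod W
  have h0 : ∀ ω : Ω, ∃ t : B, (∀ q ∈ P, q • ω = ω → bw K (ia C.i α) q t = t) ∧
      t - g (b ω) ∈ C.i.range := by
    intro ω
    let X : Subgroup (V × V) := P ⊓ MulAction.stabilizer (V × V) ω
    obtain ⟨t, ht1, ht2⟩ := hfx R K V A B κ Ω α lam x y b c C X (g (b ω)) (by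
      intro q hq
      have hq2 : q • ω = ω := hq.2
      have h1 := act_mod C hg (q := q) hq.1 (b ω)
      rw [← C.fr.1 q ω, hq2] at h1
      exact (in_iff C _).2 h1)
    exact ⟨t, fun q hq hqω => ht1 q ⟨hq, hqω⟩, (in_iff C _).1 ht2⟩
  choose t ht1 ht2 using h0
  let r : Ω → Ω := fun ω => (Quotient.out (Quotient.mk (MulAction.orbitRel P Ω) ω))
  have hr : ∀ ω, ∃ p ∈ P, p • r ω = ω := by
    intro ω
    have h1 : (MulAction.orbitRel P Ω).r (r ω) ω := Quotient.exact (Quotient.out_eq _)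
    have h2 : (MulAction.orbitRel P Ω).r ω (r ω) := (MulAction.orbitRel P Ω).symm h1
    obtain ⟨p, hp⟩ := h2
    exact ⟨p.1, p.2, hp⟩
  choose p hp1 hp2 using hr
  have hrq : ∀ q ∈ P, ∀ ω, r (q • ω) = r ω := by
    intro q hq ω
    have h1 : Quotient.mk (MulAction.orbitRel P Ω) (q • ω) =
        Quotient.mk (MulAction.orbitRel P Ω) ω := Quotient.sound ⟨⟨q, hq⟩, rfl⟩
    show Quotient.out (Quotient.mk (MulAction.orbitRel P Ω) (q • ω)) = _
    rw [h1]
  refine ⟨fun ω => bw K (ia C.i α) (p ω) (t (r ω)), ?_, ?_⟩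
  · intro q hq ω
    show bw K (ia C.i α) (p (q • ω)) (t (r (q • ω))) = bw K (ia C.i α) q
      (bw K (ia C.i α) (p ω) (t (r ω)))
    rw [hrq q hq ω, ← bw_mul']
    have h1 : ((q * p ω)⁻¹ * p (q • ω)) • r ω = r ω := by
      rw [mul_smul]
      have h2 : p (q • ω) • r ω = (q * p ω) • r ω := by
        rw [mul_smul, hp2 ω]
        have h3 := hp2 (q • ω)
        rwa [hrq q hq ω] at h3
      rw [h2, inv_smul_smul]
    have h4 := ht1 (r ω) ((q * p ω)⁻¹ * p (q • ω))
      (mul_mem (inv_mem (mul_mem hq (hp1 ω))) (hp1 _)) h1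
    have h5 : p (q • ω) = (q * p ω) * ((q * p ω)⁻¹ * p (q • ω)) := by group
    conv_lhs => rw [h5, bw_mul', h4]
  · intro ω
    have h1 := act_range C (p ω) (ht2 (r ω))
    have h2 := act_mod C hg (q := p ω) (hp1 ω) (b (r ω))
    have h3 := C.i.range.add_mem h1 h2
    rw [← C.fr.1 (p ω) (r ω), hp2 ω, map_sub, sub_add_sub_cancel] at h3
    exact h3

end lfg

/-- LFG. -/
theorem lfg (hfx : FxlStmt) : LfgStmt := by
  intro R K V A B κ Ω _ _ _ _ _ _ _ _ _ _ _ _ _ _ W α lam x y b c C g hg hg1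
  obtain ⟨h, hh1, hh2⟩ := fam hfx C hg
  let H₁ : B →ₗ[K] B := ∑ ω, (C.cK ω).smulRight (h ω)
  have hH : ∀ s, H₁ s = ∑ ω, C.cK ω s • h ω := by
    intro s
    simp only [H₁, LinearMap.sum_apply, LinearMap.smulRight_apply]
  have heq : ∀ q ∈ W.prod W, ∀ s, H₁ (bw K (ia C.i α) q s) = bw K (ia C.i α) q (H₁ s) := by
    intro q hq s
    rw [hH, hH, map_sum, ← Equiv.sum_comp (MulAction.toPerm q)]
    refine Finset.sum_congr rfl fun ω _ => ?_
    rw [MulAction.toPerm_apply, C.frK.2.1, hh1 q hq ω, map_smul]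
  have hl : ∀ w ∈ W, ∀ s, H₁ (ia C.i α w * s) = ia C.i α w * H₁ s := by
    intro w hw s
    have h1 := heq (w, 1) ⟨hw, one_mem _⟩ s
    rw [bw_apply', bw_apply'] at h1
    simpa using h1
  have hrr : ∀ w ∈ W, ∀ s, H₁ (s * ia C.i α w) = H₁ s * ia C.i α w := by
    intro w hw s
    have h1 := heq (1, w⁻¹) ⟨W.one_mem, W.inv_mem hw⟩ s
    rw [bw_apply', bw_apply'] at h1
    simpa using h1
  have hcg : ∀ a, H₁ (C.i a) - g a ∈ C.i.range := by
    intro a
    have h1 : g a = ∑ ω, c ω a • g (b ω) := by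
      conv_lhs => rw [← C.fr.2.2 a]
      rw [map_sum]
      exact Finset.sum_congr rfl fun ω _ => map_smul _ _ _
    have h2 : H₁ (C.i a) = ∑ ω, c ω a • h ω := by
      rw [hH]
      exact Finset.sum_congr rfl fun ω _ => by rw [C.ck, C.tow]
    rw [h1, h2, ← Finset.sum_sub_distrib]
    refine Subalgebra.sum_mem _ fun ω _ => ?_
    rw [← smul_sub]
    exact Subalgebra.smul_mem _ (hh2 ω) _
  obtain ⟨e, he⟩ : ∃ e, e = H₁ 1 := ⟨_, rfl⟩
  have heM : e ∈ C.i.range := by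
    have h1 := hcg 1
    rw [map_one] at h1
    have h2 := C.i.range.add_mem h1 ((in_iff C _).1 hg1)
    rw [sub_add_cancel] at h2
    rw [he]
    exact h2
  have hec : ∀ w ∈ W, ia C.i α w * e = e * ia C.i α w := by
    intro w hw
    rw [he, ← hl w hw, ← hrr w hw, mul_one, one_mul]
  refine ⟨H₁ - LinearMap.mulRight K e, ?_, ?_, ?_⟩
  · intro w hw s
    constructor
    · show H₁ (ia C.i α w * s) - (ia C.i α w * s) * e = ia C.i α w * (H₁ s - s * e)
      rw [hl w hw, mul_sub, mul_assoc]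
    · show H₁ (s * ia C.i α w) - (s * ia C.i α w) * e = (H₁ s - s * e) * ia C.i α w
      rw [hrr w hw, sub_mul, mul_assoc, hec w hw, mul_assoc]
  · show H₁ 1 - 1 * e = 0
    rw [one_mul, he, sub_self]
  · intro a
    rw [in_iff]
    show H₁ (C.i a) - C.i a * e - g a ∈ _
    have h1 := C.i.range.sub_mem (hcg a) (C.i.range.mul_mem (show C.i a ∈ C.i.range from
      ⟨a, rfl⟩) heM)
    have h2 : H₁ (C.i a) - C.i a * e - g a = H₁ (C.i a) - g a - C.i a * e := by abel
    rw [h2]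
    exact h1

/-! ## HCB -/

section core

variable {K V B : Type} [Field K] [CommGroup V] [Ring B] [Algebra K B]
  (β : V →* B) (M : Subring B) (z : V) (cc : B →ₗ[K] B →ₗ[K] B)

/-- `f_j = c (z^j, z) z^-(j+1)` -/
def ff (j : ℕ) : B := cc (β (z ^ j)) (β z) * β (z ^ (j + 1))⁻¹

/-- `h_j = c (z, z^j) z^-(j+1)` -/
def hj (j : ℕ) : B := cc (β z) (β (z ^ j)) * β (z ^ (j + 1))⁻¹

theorem bb (u v : V) : β u * β v = β (u * v) := (map_mul β u v).symm

theorem ff_per (j : ℕ) : ff β z cc (j + orderOf z) = ff β z cc j := by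
  unfold ff
  have h1 : z ^ (j + orderOf z) = z ^ j := by rw [pow_add, pow_orderOf_eq_one, mul_one]
  have h2 : z ^ (j + orderOf z + 1) = z ^ (j + 1) := by
    rw [pow_succ, h1, ← pow_succ]
  rw [h1, h2]

variable {β M z cc}

theorem z_comm {v : V} {j : ℕ} : β v * β (z ^ j) = β (z ^ j) * β v := by
  rw [bb, bb, mul_comm]

theorem v_comm (u v : V) : β u * β v = β v * β u := by
  rw [bb, bb, mul_comm]

/-- `f_j` commutes with `W` -/
theorem ff_comm {W : Subgroup V} (hW : WB2 β W fun a b => cc a b) {w : V} (hw : w ∈ W) (j : ℕ) :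
    β w * ff β z cc j = ff β z cc j * β w := by
  unfold ff
  have h1 : β w * cc (β (z ^ j)) (β z) = cc (β (z ^ j)) (β z) * β w := by
    rw [← (hW w hw _ _).1, v_comm w, (hW w hw _ _).2.1, v_comm w, (hW w hw _ _).2.2]
  rw [← mul_assoc, h1, mul_assoc, v_comm w, mul_assoc]

/-- the cocycle identity for `(z, z^j, z)` -/
theorem ff_step (hM : ∀ v, β v ∈ M)
    (hc : ∀ x ∈ M, ∀ y ∈ M, ∀ t ∈ M, dl (fun a b => cc a b) x y t ∈ M) (j : ℕ) :
    β z * (ff β z cc j * β z⁻¹) - ff β z cc (j + 1) + hj β z cc (j + 1) - hj β z cc j ∈ M := by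
  have h1 := hc (β z) (hM _) (β (z ^ j)) (hM _) (β z) (hM _)
  have h2 := M.mul_mem h1 (hM (z ^ (j + 2))⁻¹)
  have e1 : β z * β (z ^ j) = β (z ^ (j + 1)) := by rw [bb, pow_succ']
  have e2 : β (z ^ j) * β z = β (z ^ (j + 1)) := by rw [bb, pow_succ]
  have e3 : β (z ^ (j + 1))⁻¹ * β z⁻¹ = β (z ^ (j + 2))⁻¹ := by
    rw [bb]
    congr 1
    rw [← mul_inv, ← pow_succ]
  have e4 : β z * β (z ^ (j + 2))⁻¹ = β (z ^ (j + 1))⁻¹ := by
    rw [bb]
    congr 1
    rw [pow_succ z (j + 1), mul_inv, mul_comm (z ^ (j + 1))⁻¹, mul_inv_cancel_left]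
  have e5 : β z * (ff β z cc j * β z⁻¹) - ff β z cc (j + 1) + hj β z cc (j + 1) - hj β z cc j =
      dl (fun a b => cc a b) (β z) (β (z ^ j)) (β z) * β (z ^ (j + 2))⁻¹ := by
    unfold ff hj dl
    simp only [e1, e2]
    rw [mul_assoc (cc (β (z ^ j)) (β z)), e3, sub_mul, add_mul, sub_mul,
      mul_assoc (cc (β z) (β (z ^ j))), e4]
    simp only [mul_assoc]
  rw [e5]
  exact h2

theorem sum_per {F : ℕ → B} {n : ℕ} (hF : ∀ j, F (j + n) = F j) :
    ∑ j ∈ range n, F (j + 1) = ∑ j ∈ range n, F j := by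
  have h1 := Finset.sum_range_succ F n
  have h2 := Finset.sum_range_succ' F n
  have h3 := hF 0
  rw [zero_add] at h3
  rw [h1, h3] at h2
  exact (add_right_cancel h2).symm

theorem sum_per' {F : ℕ → B} {n : ℕ} (hF : ∀ j, F (j + n) = F j) (k : ℕ) :
    ∑ j ∈ range n, F (j + k) = ∑ j ∈ range n, F j := by
  induction k with
  | zero => rfl
  | succ k ih =>
    rw [← ih]
    have h1 := sum_per (F := fun j => F (j + k)) (n := n) (fun j => by
      show F (j + n + k) = F (j + k)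
      rw [add_right_comm, hF])
    rw [← h1]
    exact Finset.sum_congr rfl fun j _ => by
      show F (j + (k + 1)) = F (j + 1 + k)
      rw [add_assoc, add_comm 1 k]

/-- shifted sums of a function which is periodic modulo `M` -/
theorem sum_mod {F : ℕ → B} {n : ℕ} (hF : ∀ j, F (j + n) - F j ∈ M) (k : ℕ) :
    ∑ j ∈ range n, F (j + k) - ∑ j ∈ range n, F j ∈ M := by
  induction k with
  | zero =>
    simp only [add_zero, sub_self]
    exact M.zero_mem
  | succ k ih =>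
    have h1 := Finset.sum_range_succ (fun j => F (j + k)) n
    have h2 := Finset.sum_range_succ' (fun j => F (j + k)) n
    have h3 : ∑ j ∈ range n, F (j + (k + 1)) = ∑ j ∈ range n, F (j + 1 + k) :=
      Finset.sum_congr rfl fun j _ => by rw [add_assoc, add_comm 1 k]
    have h4 : ∑ j ∈ range n, F (j + (k + 1)) - ∑ j ∈ range n, F j =
        (F (k + n) - F k) + (∑ j ∈ range n, F (j + k) - ∑ j ∈ range n, F j) := by
      rw [h3]
      rw [h1] at h2
      simp only [zero_add] at h2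
      rw [add_comm k n]
      have h5 : ∑ j ∈ range n, F (j + 1 + k) =
        ∑ j ∈ range n, F (j + k) + F (n + k) - F k := by
        rw [h2]
        abel
      rw [h5]
      abel
    rw [h4]
    exact M.add_mem (hF k) ih

/-- `gamma = sum f_j` is fixed by `z` modulo `M` -/
theorem gam_z (hM : ∀ v, β v ∈ M)
    (hc : ∀ x ∈ M, ∀ y ∈ M, ∀ t ∈ M, dl (fun a b => cc a b) x y t ∈ M) :
    β z * ((∑ j ∈ range (orderOf z), ff β z cc j) * β z⁻¹) -
      ∑ j ∈ range (orderOf z), ff β z cc j ∈ M := by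
  have h1 := M.sum_mem fun j (_ : j ∈ range (orderOf z)) => ff_step (cc := cc) (z := z) hM hc j
  rw [Finset.sum_sub_distrib, Finset.sum_add_distrib, Finset.sum_sub_distrib,
    sum_per (ff_per β z cc)] at h1
  have h2 : ∑ j ∈ range (orderOf z), hj β z cc (j + 1) =
      ∑ j ∈ range (orderOf z), hj β z cc j := by
    apply sum_per
    intro j
    unfold hj
    have h1 : z ^ (j + orderOf z) = z ^ j := by rw [pow_add, pow_orderOf_eq_one, mul_one]
    have h2 : z ^ (j + orderOf z + 1) = z ^ (j + 1) := by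
      rw [pow_succ, h1, ← pow_succ]
    rw [h1, h2]
  rw [h2, add_sub_cancel_right, ← Finset.mul_sum, ← Finset.sum_mul] at h1
  exact h1

theorem gam_v {W : Subgroup V} (hM : ∀ v, β v ∈ M)
    (hc : ∀ x ∈ M, ∀ y ∈ M, ∀ t ∈ M, dl (fun a b => cc a b) x y t ∈ M)
    (hW : WB2 β W fun a b => cc a b) (gen : ∀ v : V, ∃ j : ℕ, ∃ w ∈ W, v = z ^ j * w) (v : V) :
    β v * ((∑ j ∈ range (orderOf z), ff β z cc j) * β v⁻¹) -
      ∑ j ∈ range (orderOf z), ff β z cc j ∈ M := by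
  obtain ⟨γ, hγ⟩ : ∃ γ, γ = ∑ j ∈ range (orderOf z), ff β z cc j := ⟨_, rfl⟩
  have hz : β z * (γ * β z⁻¹) - γ ∈ M := by
    rw [hγ]
    exact gam_z hM hc
  rw [← hγ]
  have hw : ∀ w ∈ W, β w * γ = γ * β w := by
    intro w hw
    rw [hγ, Finset.mul_sum, Finset.sum_mul]
    exact Finset.sum_congr rfl fun j _ => ff_comm hW hw j
  have hj : ∀ j : ℕ, β (z ^ j) * (γ * β (z ^ j)⁻¹) - γ ∈ M := by
    intro j
    induction j with
    | zero =>
      rw [pow_zero, inv_one, map_one, mul_one, one_mul, sub_self]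
      exact M.zero_mem
    | succ j ih =>
      have h1 := M.mul_mem (hM z) (M.mul_mem ih (hM z⁻¹))
      have h2 := M.add_mem h1 hz
      have h3 : β (z ^ (j + 1)) * (γ * β (z ^ (j + 1))⁻¹) - γ =
          β z * ((β (z ^ j) * (γ * β (z ^ j)⁻¹) - γ) * β z⁻¹) + (β z * (γ * β z⁻¹) - γ) := by
        rw [pow_succ' z j, mul_inv, map_mul, mul_comm z⁻¹, map_mul]
        noncomm_ring
      rw [h3]
      exact h2
  obtain ⟨j, w, hwW, rfl⟩ := gen v
  have h1 := hj j
  have h2 : β (z ^ j * w) * (γ * β (z ^ j * w)⁻¹) - γ =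
      β (z ^ j) * (γ * β (z ^ j)⁻¹) - γ := by
    rw [mul_inv, mul_comm (z ^ j)⁻¹, map_mul, map_mul, mul_assoc (β (z ^ j)),
      ← mul_assoc (β w), hw w hwW, mul_assoc γ, ← mul_assoc (β w), bb, mul_inv_cancel, map_one,
      one_mul]
  rw [h2]
  exact h1

variable (β z cc) in
/-- `γ_j` -/
def gj (e : B) (j : ℕ) : B := (j • e + ∑ l ∈ range j, ff β z cc l) * β (z ^ j)

theorem gj_succ (e : B) (j : ℕ) :
    gj β z cc e (j + 1) = gj β z cc e j * β z + e * β (z ^ (j + 1)) + cc (β (z ^ j)) (β z) := by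
  unfold gj
  rw [Finset.sum_range_succ]
  have h1 : ff β z cc j * β (z ^ (j + 1)) = cc (β (z ^ j)) (β z) := by
    unfold ff
    rw [mul_assoc, bb, inv_mul_cancel, map_one, mul_one]
  have h2 : β (z ^ j) * β z = β (z ^ (j + 1)) := by rw [bb, pow_succ]
  rw [mul_assoc, h2, succ_nsmul, ← add_assoc, add_mul _ (ff β z cc j), h1]
  noncomm_ring

theorem gj_zero (e : B) : gj β z cc e 0 = 0 := by
  unfold gj
  rw [zero_smul, Finset.sum_range_zero, add_zero, zero_mul]

theorem gj_comm {W : Subgroup V} (hW : WB2 β W fun a b => cc a b) {w : V} (hw : w ∈ W) {e : B}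
    (he : β w * e = e * β w) (j : ℕ) : β w * gj β z cc e j = gj β z cc e j * β w := by
  unfold gj
  have h1 : β w * (j • e + ∑ l ∈ range j, ff β z cc l) =
      (j • e + ∑ l ∈ range j, ff β z cc l) * β w := by
    rw [mul_add, add_mul, mul_smul_comm, smul_mul_assoc, he, Finset.mul_sum, Finset.sum_mul]
    congr 1
    exact Finset.sum_congr rfl fun j _ => ff_comm hW hw j
  rw [← mul_assoc, h1, mul_assoc, v_comm w, mul_assoc]

theorem gj_per {e γ' : B} (hM : ∀ v, β v ∈ M) (he : (orderOf z) • e = -γ')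
    (hγ : γ' - ∑ j ∈ range (orderOf z), ff β z cc j ∈ M) (j : ℕ) :
    gj β z cc e (j + orderOf z) - gj β z cc e j ∈ M := by
  unfold gj
  have h1 : z ^ (j + orderOf z) = z ^ j := by rw [pow_add, pow_orderOf_eq_one, mul_one]
  have h2 : ∑ l ∈ range (j + orderOf z), ff β z cc l =
      ∑ l ∈ range j, ff β z cc l + ∑ l ∈ range (orderOf z), ff β z cc l := by
    rw [Finset.sum_range_add]
    congr 1
    have h3 := sum_per' (ff_per β z cc) j
    rw [← h3]
    exact Finset.sum_congr rfl fun l _ => by rw [add_comm]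
  rw [h1, h2, add_smul, he]
  have h4 := M.mul_mem (M.neg_mem hγ) (hM (z ^ j))
  have h5 : (j • e + -γ' + (∑ l ∈ range j, ff β z cc l + ∑ l ∈ range (orderOf z), ff β z cc l)) *
      β (z ^ j) - (j • e + ∑ l ∈ range j, ff β z cc l) * β (z ^ j) =
      -(γ' - ∑ j ∈ range (orderOf z), ff β z cc j) * β (z ^ j) := by
    rw [← sub_mul]
    congr 1
    abel
  rw [h5]
  exact h4

/-- (1) -/
theorem gj_add (hM : ∀ v, β v ∈ M) (hN : Nrm fun a b => cc a b)
    (hc : ∀ x ∈ M, ∀ y ∈ M, ∀ t ∈ M, dl (fun a b => cc a b) x y t ∈ M) {e : B}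
    (he : ∀ v, β v * e = e * β v) (k j : ℕ) :
    gj β z cc e (j + k) - (β (z ^ k) * gj β z cc e j + gj β z cc e k * β (z ^ j) +
      cc (β (z ^ k)) (β (z ^ j))) ∈ M := by
  induction j with
  | zero =>
    have h1 : cc (β (z ^ k)) 1 = 0 := hN.2 _
    rw [zero_add, gj_zero, pow_zero, map_one, mul_zero, zero_add, mul_one, h1, add_zero, sub_self]
    exact M.zero_mem
  | succ j ih =>
    have h1 := M.mul_mem ih (hM z)
    have h2 := hc _ (hM (z ^ k)) _ (hM (z ^ j)) _ (hM z)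
    have h3 := M.sub_mem h1 h2
    have e1 : β (z ^ k) * β (z ^ j) = β (z ^ (j + k)) := by rw [bb, ← pow_add, add_comm]
    have e2 : β (z ^ j) * β z = β (z ^ (j + 1)) := by rw [bb, pow_succ]
    have e3 : j + 1 + k = (j + k) + 1 := by omega
    have e4 : β (z ^ k) * (e * β (z ^ (j + 1))) = e * β (z ^ (j + k + 1)) := by
      rw [← mul_assoc, he, mul_assoc, bb, ← pow_add]
      congr 3
      omega
    have h4 : gj β z cc e (j + 1 + k) - (β (z ^ k) * gj β z cc e (j + 1) +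
        gj β z cc e k * β (z ^ (j + 1)) + cc (β (z ^ k)) (β (z ^ (j + 1)))) =
        (gj β z cc e (j + k) - (β (z ^ k) * gj β z cc e j + gj β z cc e k * β (z ^ j) +
          cc (β (z ^ k)) (β (z ^ j)))) * β z -
          dl (fun a b => cc a b) (β (z ^ k)) (β (z ^ j)) (β z) := by
      unfold dl
      simp only [e1, e2]
      rw [e3, gj_succ e (j + k), gj_succ e j, mul_add, mul_add, e4, ← e2]
      noncomm_ring
    rw [h4]
    exact h3

/-- HCB in the language of a subring -/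
theorem hcb_core [CharZero K] [Finite V] {W : Subgroup V} (hM : ∀ v, β v ∈ M)
    (gen : ∀ v : V, ∃ j : ℕ, ∃ w ∈ W, v = z ^ j * w) (τ : B →ₗ[K] B) (τM : ∀ x ∈ M, τ x ∈ M)
    (τW : WBl β W τ)
    (τs : ∀ x, ∑ j ∈ range (orderOf z), β (z ^ j) * τ (β (z ^ j)⁻¹ * x) = x)
    (hW : WB2 β W fun a b => cc a b) (hN : Nrm fun a b => cc a b)
    (hc : ∀ x ∈ M, ∀ y ∈ M, ∀ t ∈ M, dl (fun a b => cc a b) x y t ∈ M)
    (fix : ∀ s : B, (∀ v, β v * (s * β v⁻¹) - s ∈ M) →
      ∃ t, (∀ v, β v * t = t * β v) ∧ t - s ∈ M) :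
    ∃ g : B →ₗ[K] B, WBl β W g ∧ g 1 = 0 ∧ ∀ v, ∀ x ∈ M, cc (β v) x + d1 g (β v) x ∈ M := by
  obtain ⟨γ', hγ1, hγ2⟩ := fix (∑ j ∈ range (orderOf z), ff β z cc j)
    (gam_v hM hc hW gen)
  have hn : (orderOf z : K) ≠ 0 := Nat.cast_ne_zero.2 (orderOf_pos z).ne'
  obtain ⟨e, he⟩ : ∃ e : B, e = -((orderOf z : K)⁻¹ • γ') := ⟨_, rfl⟩
  have hne : (orderOf z) • e = -γ' := by
    rw [he, ← Nat.cast_smul_eq_nsmul K, smul_neg, smul_smul, mul_inv_cancel₀ hn, one_smul]
  have hec : ∀ v, β v * e = e * β v := by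
    intro v
    rw [he, mul_neg, neg_mul, mul_smul_comm, smul_mul_assoc, hγ1]
  obtain ⟨G, hG⟩ : ∃ G : ℕ → B, G = gj β z cc e := ⟨_, rfl⟩
  have G0 : ∀ w ∈ W, ∀ j, β w * G j = G j * β w := fun w hw j => by
    rw [hG]
    exact gj_comm hW hw (hec w) j
  have Gper : ∀ j, G (j + orderOf z) - G j ∈ M := fun j => by
    rw [hG]
    exact gj_per hM hne hγ2 j
  have Gadd : ∀ k j, G (j + k) - (β (z ^ k) * G j + G k * β (z ^ j) +
      cc (β (z ^ k)) (β (z ^ j))) ∈ M := fun k j => by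
    rw [hG]
    exact gj_add hM hN hc hec k j
  let g₁ : B →ₗ[K] B := ∑ j ∈ range (orderOf z),
    ((LinearMap.mulLeft K (G j)).comp (τ.comp (LinearMap.mulLeft K (β (z ^ j)⁻¹))) +
      (cc (β (z ^ j))).comp (τ.comp (LinearMap.mulLeft K (β (z ^ j)⁻¹))))
  have hg : ∀ x, g₁ x = ∑ j ∈ range (orderOf z), (G j * τ (β (z ^ j)⁻¹ * x) +
      cc (β (z ^ j)) (τ (β (z ^ j)⁻¹ * x))) := by
    intro x
    simp only [g₁, LinearMap.sum_apply, LinearMap.add_apply, LinearMap.comp_apply,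
      LinearMap.mulLeft_apply]
  -- linearity over W
  have hgW : WBl β W g₁ := by
    intro w hw x
    constructor
    · rw [hg, hg, Finset.mul_sum]
      refine Finset.sum_congr rfl fun j _ => ?_
      have h1 : τ (β (z ^ j)⁻¹ * (β w * x)) = β w * τ (β (z ^ j)⁻¹ * x) := by
        rw [← mul_assoc, v_comm, mul_assoc, (τW w hw _).1]
      rw [h1, ← mul_assoc (G j), ← G0 w hw j]
      have h2 : cc (β (z ^ j)) (β w * τ (β (z ^ j)⁻¹ * x)) =
          β w * cc (β (z ^ j)) (τ (β (z ^ j)⁻¹ * x)) := by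
        have a1 : cc (β (z ^ j) * β w) (τ (β (z ^ j)⁻¹ * x)) =
            cc (β (z ^ j)) (β w * τ (β (z ^ j)⁻¹ * x)) := (hW w hw _ _).2.1
        have a2 : cc (β w * β (z ^ j)) (τ (β (z ^ j)⁻¹ * x)) =
            β w * cc (β (z ^ j)) (τ (β (z ^ j)⁻¹ * x)) := (hW w hw _ _).1
        rw [← a1, v_comm, a2]
      rw [h2, mul_add, mul_assoc]
    · rw [hg, hg, Finset.sum_mul]
      refine Finset.sum_congr rfl fun j _ => ?_
      have h1 : τ (β (z ^ j)⁻¹ * (x * β w)) = τ (β (z ^ j)⁻¹ * x) * β w := by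
        rw [← mul_assoc, (τW w hw _).2]
      rw [h1]
      have h2 : cc (β (z ^ j)) (τ (β (z ^ j)⁻¹ * x) * β w) =
          cc (β (z ^ j)) (τ (β (z ^ j)⁻¹ * x)) * β w := (hW w hw _ _).2.2
      rw [h2, add_mul, mul_assoc]
  -- (2)
  have hkey : ∀ (k : ℕ), ∀ x ∈ M, g₁ (β (z ^ k) * x) -
      (β (z ^ k) * g₁ x + G k * x + cc (β (z ^ k)) x) ∈ M := by
    intro k x hx
    obtain ⟨t, ht⟩ : ∃ t : ℕ → B, t = fun j => τ (β (z ^ j)⁻¹ * x) := ⟨_, rfl⟩
    have htM : ∀ j, t j ∈ M := fun j => by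
      rw [ht]
      exact τM _ (M.mul_mem (hM _) hx)
    have hts : ∑ j ∈ range (orderOf z), β (z ^ j) * t j = x := by
      rw [ht]
      exact τs x
    obtain ⟨F, hF⟩ : ∃ F : ℕ → B, F = fun j => G j * τ (β (z ^ j)⁻¹ * (β (z ^ k) * x)) +
      cc (β (z ^ j)) (τ (β (z ^ j)⁻¹ * (β (z ^ k) * x))) := ⟨_, rfl⟩
    have hFper : ∀ j, F (j + orderOf z) - F j ∈ M := by
      intro j
      rw [hF]
      show (G (j + orderOf z) * τ (β (z ^ (j + orderOf z))⁻¹ * (β (z ^ k) * x)) +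
        cc (β (z ^ (j + orderOf z))) (τ (β (z ^ (j + orderOf z))⁻¹ * (β (z ^ k) * x)))) -
        (G j * τ (β (z ^ j)⁻¹ * (β (z ^ k) * x)) +
          cc (β (z ^ j)) (τ (β (z ^ j)⁻¹ * (β (z ^ k) * x)))) ∈ M
      have h1 : z ^ (j + orderOf z) = z ^ j := by rw [pow_add, pow_orderOf_eq_one, mul_one]
      rw [h1, add_sub_add_right_eq_sub, ← sub_mul]
      exact M.mul_mem (Gper j) (τM _ (M.mul_mem (hM _) (M.mul_mem (hM _) hx)))
    have h1 := sum_mod hFper k
    have hFk : ∀ j, F (j + k) = G (j + k) * t j + cc (β (z ^ (j + k))) (t j) := by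
      intro j
      have h2 : β (z ^ (j + k))⁻¹ * (β (z ^ k) * x) = β (z ^ j)⁻¹ * x := by
        rw [← mul_assoc, bb, pow_add, mul_inv, inv_mul_cancel_right]
      rw [hF, ht]
      show G (j + k) * τ (β (z ^ (j + k))⁻¹ * (β (z ^ k) * x)) +
        cc (β (z ^ (j + k))) (τ (β (z ^ (j + k))⁻¹ * (β (z ^ k) * x))) = _
      rw [h2]
    have hstep : ∀ j, F (j + k) - (β (z ^ k) * (G j * t j + cc (β (z ^ j)) (t j)) +
        G k * (β (z ^ j) * t j) + cc (β (z ^ k)) (β (z ^ j) * t j)) ∈ M := by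
      intro j
      have h2 := M.mul_mem (Gadd k j) (htM j)
      have h3 := hc _ (hM (z ^ k)) _ (hM (z ^ j)) _ (htM j)
      have h4 := M.sub_mem h2 h3
      have e1 : β (z ^ k) * β (z ^ j) = β (z ^ (j + k)) := by rw [bb, ← pow_add, add_comm]
      have h5 : F (j + k) - (β (z ^ k) * (G j * t j + cc (β (z ^ j)) (t j)) +
          G k * (β (z ^ j) * t j) + cc (β (z ^ k)) (β (z ^ j) * t j)) =
          (G (j + k) - (β (z ^ k) * G j + G k * β (z ^ j) + cc (β (z ^ k)) (β (z ^ j)))) * t j -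
            dl (fun a b => cc a b) (β (z ^ k)) (β (z ^ j)) (t j) := by
        unfold dl
        rw [hFk]
        simp only [e1]
        noncomm_ring
      rw [h5]
      exact h4
    have h6 := M.sum_mem fun j (_ : j ∈ range (orderOf z)) => hstep j
    have e2 : ∑ j ∈ range (orderOf z), (β (z ^ k) * (G j * t j + cc (β (z ^ j)) (t j)) +
        G k * (β (z ^ j) * t j) + cc (β (z ^ k)) (β (z ^ j) * t j)) =
        β (z ^ k) * g₁ x + G k * x + cc (β (z ^ k)) x := by
      rw [Finset.sum_add_distrib, Finset.sum_add_distrib, ← Finset.mul_sum, ← Finset.mul_sum,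
        ← map_sum, hts, hg, ht]
    have e3 : g₁ (β (z ^ k) * x) = ∑ j ∈ range (orderOf z), F j := by
      rw [hg, hF]
    rw [Finset.sum_sub_distrib, e2] at h6
    have h7 := M.sub_mem h6 h1
    rw [e3]
    have e4 : ∑ j ∈ range (orderOf z), F (j + k) - (β (z ^ k) * g₁ x + G k * x +
        cc (β (z ^ k)) x) - (∑ j ∈ range (orderOf z), F (j + k) -
        ∑ j ∈ range (orderOf z), F j) = ∑ j ∈ range (orderOf z), F j -
        (β (z ^ k) * g₁ x + G k * x + cc (β (z ^ k)) x) := by abel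
    rw [e4] at h7
    exact h7
  -- normalisation
  obtain ⟨e', he'⟩ : ∃ e', e' = g₁ 1 := ⟨_, rfl⟩
  have hec' : ∀ w ∈ W, β w * e' = e' * β w := by
    intro w hw
    rw [he', ← (hgW w hw 1).1, ← (hgW w hw 1).2, mul_one, one_mul]
  obtain ⟨g, hgd⟩ : ∃ g : B →ₗ[K] B, g = g₁ - LinearMap.mulLeft K e' := ⟨_, rfl⟩
  have hgx : ∀ x, g x = g₁ x - e' * x := by
    intro x
    rw [hgd]
    rfl
  have hWg : WBl β W g := by
    intro w hw x
    constructor
    · rw [hgx, hgx, (hgW w hw x).1, ← mul_assoc e', ← hec' w hw, mul_sub, mul_assoc]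
    · rw [hgx, hgx, (hgW w hw x).2, sub_mul, mul_assoc]
  refine ⟨g, hWg, by rw [hgx, ← he', mul_one, sub_self], ?_⟩
  have hzk : ∀ (k : ℕ), ∀ x ∈ M, cc (β (z ^ k)) x + d1 g (β (z ^ k)) x ∈ M := by
    intro k x hx
    have h1 := hkey k x hx
    have h2 := hkey k 1 M.one_mem
    have h3 : cc (β (z ^ k)) 1 = 0 := hN.2 _
    rw [mul_one, mul_one, ← he', h3, add_zero] at h2
    have h4 := M.sub_mem (M.mul_mem h2 hx) h1
    have h5 : cc (β (z ^ k)) x + d1 g (β (z ^ k)) x =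
        (g₁ (β (z ^ k)) - (β (z ^ k) * e' + G k)) * x - (g₁ (β (z ^ k) * x) -
          (β (z ^ k) * g₁ x + G k * x + cc (β (z ^ k)) x)) := by
      unfold d1
      rw [hgx, hgx, hgx]
      noncomm_ring
    rw [h5]
    exact h4
  intro v x hx
  obtain ⟨k, w, hw, rfl⟩ := gen v
  have h1 := hzk k (β w * x) (M.mul_mem (hM w) hx)
  have h2 : cc (β (z ^ k * w)) x = cc (β (z ^ k)) (β w * x) := by
    rw [map_mul]
    exact (hW w hw _ _).2.1
  have h3 : d1 g (β (z ^ k * w)) x = d1 g (β (z ^ k)) (β w * x) := by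
    unfold d1
    have h4 : g (β (z ^ k) * β w) = g (β (z ^ k)) * β w := (hWg w hw _).2
    have h5 : g (β w * x) = β w * g x := (hWg w hw _).1
    rw [map_mul, h4, h5]
    simp only [mul_assoc]
  rw [h2, h3]
  exact h1

end core

/-- HCB. -/
theorem hcb (ht : TauStmt) (hf : FxlStmt) : HcbStmt := by
  intro R K V E A B κ Ω _ _ _ _ _ _ _ _ _ _ _ _ _ _ _ φ W z α lam x y b c C hz hst cc hW hN hc
  obtain ⟨τ, h1, h2, h3⟩ := ht R K V E A B κ Ω φ W z α lam x y b c C hz hst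
  have hmem : ∀ s, s ∈ C.i.range.toSubring ↔ In C.i s := fun s => by
    rw [in_iff]
    rfl
  obtain ⟨g, g1, g2, g3⟩ := hcb_core (β := ia C.i α) (M := C.i.range.toSubring) (z := z)
    (cc := cc) (W := W) (fun v => ⟨α v, rfl⟩) hz.gen τ
    (by
      rintro _ ⟨a, rfl⟩
      exact (hmem _).2 (h1 a)) h2 h3 hW hN
    (by
      rintro _ ⟨a₁, rfl⟩ _ ⟨a₂, rfl⟩ _ ⟨a₃, rfl⟩
      exact (hmem _).2 (hc a₁ a₂ a₃))
    (by
      intro s hs
      let X : Subgroup (V × V) := (MonoidHom.prod (MonoidHom.id V) (MonoidHom.id V)).range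
      obtain ⟨t, ht1, ht2⟩ := hf R K V A B κ Ω α lam x y b c C X s (by
        rintro _ ⟨v, rfl⟩
        exact (hmem _).1 (hs v))
      refine ⟨t, ?_, (hmem _).2 ht2⟩
      intro v
      have h4 : ia C.i α v * (t * ia C.i α v⁻¹) = t := ht1 (v, v) ⟨v, rfl⟩
      conv_rhs => rw [← h4]
      rw [mul_assoc, mul_assoc, bb, inv_mul_cancel, map_one, mul_one])
  exact ⟨g, g1, g2, fun v a => (hmem _).1 (g3 v _ ⟨a, rfl⟩)⟩

end Pool.Agent.PSS.H49
end -- Pool.Agent.Helper49_PSS.HCB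

section -- Pool.Agent.Helper75_PSS.LIM

noncomputable section

namespace Pool.Agent.PSS.H75

theorem lim : LimStmt := by
  intro X Q hQ hs N₀ f₀ h₀
  let F : (k : ℕ) → {f : ℕ → X // Q (N₀ + k) f} := fun k =>
    Nat.rec (motive := fun k => {f : ℕ → X // Q (N₀ + k) f}) ⟨f₀, h₀⟩
      (fun k f => ⟨Classical.choose (hs (N₀ + k) f.1 f.2),
        (Classical.choose_spec (hs (N₀ + k) f.1 f.2)).2⟩) k
  have hF : ∀ k, ∀ n ≤ N₀ + k, (F (k + 1)).1 n = (F k).1 n := fun k =>
    (Classical.choose_spec (hs (N₀ + k) (F k).1 (F k).2)).1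
  have hF' : ∀ k j, ∀ n ≤ N₀ + k, (F (k + j)).1 n = (F k).1 n := by
    intro k j
    induction j with
    | zero => intro n _; rfl
    | succ j ih =>
      intro n hn
      rw [← ih n hn]
      exact hF (k + j) n (by omega)
  have key : ∀ k, ∀ n ≤ N₀ + k, (F (n - N₀)).1 n = (F k).1 n := by
    intro k n hn
    have h := hF' (n - N₀) (k - (n - N₀)) n (by omega)
    have e : n - N₀ + (k - (n - N₀)) = k := by omega
    rw [e] at h
    exact h.symm
  refine ⟨fun n => (F (n - N₀)).1 n, ?_, ?_⟩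
  · intro n hn
    exact key 0 n (by omega)
  · intro N hN
    obtain ⟨k, rfl⟩ := Nat.exists_eq_add_of_le hN
    refine hQ (N₀ + k) (F k).1 _ ?_ (F k).2
    intro n hn
    exact (key k n hn).symm

end Pool.Agent.PSS.H75
end
end -- Pool.Agent.Helper75_PSS.LIM

section -- Pool.Agent.Helper75_PSS.TGN

noncomputable section

namespace Pool.Agent.PSS.H75

open Finset

theorem tgn (hTRX : TrxStmt) (hTRA : TraStmt) (hTRC : TrcStmt) (hSTN : StnStmt)
    (hLIM : LimStmt) : TgnStmt := by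
  intro R K V E A B κ Ω _ _ _ _ _ _ _ _ _ _ _ _ _ _ _ φ W z α lam x y b c C u hz hst hu g hg hg1
    hgd
  set β := ia C.i α with hβ
  let Q : ℕ → (ℕ → (B →ₗ[K] B) × (B →ₗ[K] B →ₗ[K] B)) → Prop := fun N f =>
    (f 0).1 = LinearMap.id ∧ (∀ n ≤ N, WBl β W (f n).1) ∧ (∀ n, n + 1 ≤ N → (f (n + 1)).1 1 = 0) ∧
    (∀ n ≤ N, ∀ x y, ∑ p ∈ antidiagonal n, (f p.1).1 x * (f p.2).1 y =
      ∑ p ∈ antidiagonal n, (f p.1).1 ((f p.2).2 x y)) ∧
    (∀ n ≤ N, ∀ a₁ a₂, In C.i ((f n).2 (C.i a₁) (C.i a₂)))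
  have hQ1 : ∀ N f f', (∀ n ≤ N, f n = f' n) → Q N f → Q N f' := by
    intro N f f' h hf
    obtain ⟨q0, q1, q2, q3, q4⟩ := hf
    refine ⟨?_, ?_, ?_, ?_, ?_⟩
    · rw [← h 0 (Nat.zero_le _)]; exact q0
    · intro n hn; rw [← h n hn]; exact q1 n hn
    · intro n hn; rw [← h _ hn]; exact q2 n hn
    · intro n hn x y
      have e := q3 n hn x y
      have e1 : ∑ p ∈ antidiagonal n, (f p.1).1 x * (f p.2).1 y =
          ∑ p ∈ antidiagonal n, (f' p.1).1 x * (f' p.2).1 y := by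
        refine sum_congr rfl fun p hp => ?_
        rw [Finset.HasAntidiagonal.mem_antidiagonal] at hp
        rw [h p.1 (by omega), h p.2 (by omega)]
      have e2 : ∑ p ∈ antidiagonal n, (f p.1).1 ((f p.2).2 x y) =
          ∑ p ∈ antidiagonal n, (f' p.1).1 ((f' p.2).2 x y) := by
        refine sum_congr rfl fun p hp => ?_
        rw [Finset.HasAntidiagonal.mem_antidiagonal] at hp
        rw [h p.1 (by omega), h p.2 (by omega)]
      rw [← e1, ← e2]; exact e
    · intro n hn; rw [← h n hn]; exact q4 n hn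
  have hQ2 : ∀ N f, Q N f → ∃ f', (∀ n ≤ N, f' n = f n) ∧ Q (N + 1) f' := by
    intro N f hf
    obtain ⟨q0, q1, q2, q3, q4⟩ := hf
    let P₁ : ℕ → (B →ₗ[K] B) := fun n => if n ≤ N then (f n).1 else 0
    have hP : ∀ n ≤ N, P₁ n = (f n).1 := fun n hn => by simp only [P₁, if_pos hn]
    obtain ⟨m₁, hm₁⟩ := hTRX K V B β W P₁ (by rw [hP 0 (Nat.zero_le _)]; exact q0)
      (by
        intro n
        by_cases hn : n ≤ N
        · rw [hP n hn]; exact q1 n hn
        · simp only [P₁, if_neg hn]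
          intro w _ x
          simp)
      (by
        intro n
        by_cases hn : n + 1 ≤ N
        · rw [hP _ hn]; exact q2 n hn
        · simp only [P₁, if_neg hn]; rfl)
    have hm : ∀ n ≤ N, m₁ n = (f n).2 := by
      intro n
      induction n using Nat.strong_induction_on with
      | _ n ih =>
        intro hn
        apply LinearMap.ext
        intro x
        apply LinearMap.ext
        intro y
        have e1 := hm₁.pm n x y
        have e2 := q3 n hn x y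
        have e3 : ∑ p ∈ antidiagonal n, P₁ p.1 x * P₁ p.2 y =
            ∑ p ∈ antidiagonal n, (f p.1).1 x * (f p.2).1 y := by
          refine sum_congr rfl fun p hp => ?_
          rw [Finset.HasAntidiagonal.mem_antidiagonal] at hp
          rw [hP p.1 (by omega), hP p.2 (by omega)]
        have e4 : ∑ p ∈ antidiagonal n, P₁ p.1 (m₁ p.2 x y) =
            ∑ p ∈ antidiagonal n, (f p.1).1 (m₁ p.2 x y) := by
          refine sum_congr rfl fun p hp => ?_
          rw [Finset.HasAntidiagonal.mem_antidiagonal] at hp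
          rw [hP p.1 (by omega)]
        have e5 : ∑ p ∈ antidiagonal n, (f p.1).1 (m₁ p.2 x y - (f p.2).2 x y) = 0 := by
          simp only [map_sub, sum_sub_distrib]
          rw [← e4, ← e1, e3, e2, sub_self]
        rw [sum_eq_single (0, n)] at e5
        · rw [q0] at e5
          exact sub_eq_zero.mp e5
        · rintro ⟨i, j⟩ hp hne
          rw [Finset.HasAntidiagonal.mem_antidiagonal] at hp
          simp only at hp
          have hj : j < n := by
            rcases Nat.lt_or_ge j n with h | h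
            · exact h
            · exfalso
              apply hne
              have : j = n := by omega
              have : i = 0 := by omega
              simp [*]
          simp only
          rw [ih j hj (by omega), sub_self, map_zero]
        · intro h
          exact absurd (by rw [Finset.HasAntidiagonal.mem_antidiagonal]; simp) h
    obtain ⟨P', m', hT, hPP, hI⟩ := hSTN R K V E A B κ Ω φ W z α lam x y b c C u hz hst hu P₁ m₁ N
      hm₁ (by
        intro n hn a₁ a₂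
        rw [hm n hn]
        exact q4 n hn a₁ a₂)
    have hmm := (hTRC K V B β W P₁ P' m₁ m' N hm₁ hT hPP).1
    refine ⟨fun n => (P' n, m' n), ?_, ?_⟩
    · intro n hn
      show (P' n, m' n) = f n
      rw [hPP n hn, hmm n hn, hP n hn, hm n hn]
    · exact ⟨hT.p0, fun n _ => hT.pw n, fun n _ => hT.p1 n, fun n _ => hT.pm n, hI⟩
  -- start
  let P₀ : ℕ → (B →ₗ[K] B) := fun n => if n = 0 then LinearMap.id else if n = 1 then g else 0
  obtain ⟨m₀, hm₀⟩ := hTRX K V B β W P₀ rfl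
    (by
      intro n
      rcases n with _ | _ | n
      · intro w _ x; simp [P₀]
      · exact hg
      · intro w _ x; simp [P₀])
    (by
      intro n
      rcases n with _ | n
      · exact hg1
      · simp [P₀])
  obtain ⟨⟨D, hD⟩, -, -⟩ := hTRA K V B β W P₀ m₀ hm₀
  have hm0 : ∀ x y, m₀ 0 x y = x * y := by
    intro x y
    rw [← hD]
    exact D.m0 x y
  have hm1 : ∀ x y, m₀ 1 x y = d1 g x y := by
    intro x y
    have h := hm₀.pm 1 x y
    have ha : antidiagonal 1 = {((0 : ℕ), 1), (1, 0)} := rfl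
    rw [ha, sum_pair (by decide), sum_pair (by decide)] at h
    simp only [P₀, if_true, one_ne_zero, if_false, LinearMap.id_coe, id_eq] at h
    rw [hm0] at h
    rw [d1]
    rw [sub_add_eq_add_sub, h]
    abel
  have hstart : Q 1 (fun n => (P₀ n, m₀ n)) := by
    refine ⟨hm₀.p0, fun n _ => hm₀.pw n, fun n _ => hm₀.p1 n, fun n _ => hm₀.pm n, ?_⟩
    intro n hn a₁ a₂
    rcases n with _ | n
    · refine ⟨a₁ * a₂, ?_⟩
      show C.i (a₁ * a₂) = m₀ 0 (C.i a₁) (C.i a₂)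
      rw [hm0, map_mul]
    · obtain rfl : n = 0 := by omega
      show In C.i (m₀ 1 (C.i a₁) (C.i a₂))
      rw [hm1]
      exact hgd a₁ a₂
  obtain ⟨f, hf0, hfQ⟩ := hLIM _ Q hQ1 hQ2 1 (fun n => (P₀ n, m₀ n)) hstart
  have hQm : ∀ n, Q (n + 1) f := fun n => hfQ (n + 1) (by omega)
  refine ⟨fun n => (f n).1, fun n => (f n).2, ?_, ?_, ?_⟩
  · refine ⟨(hQm 0).1, fun n => (hQm n).2.1 n (by omega), fun n => (hQm n).2.2.1 n (by omega),
      fun n => (hQm n).2.2.2.1 n (by omega)⟩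
  · show (f 1).1 = g
    rw [hf0 1 le_rfl]
    rfl
  · intro n
    exact (hQm n).2.2.2.2 n (by omega)

end Pool.Agent.PSS.H75
end
end -- Pool.Agent.Helper75_PSS.TGN

section -- Pool.Agent.Helper82_PSS.BLT

/-!
Squad PSS, row BLT (helper82): relative normalised bilinear maps lift.
-/

open scoped BigOperators TensorProduct

noncomputable section

namespace Pool.Agent.PSS.H82

open Pool.Agent.PFD.D2 (Cdv FibG)
open Pool.Agent.PFD.D2b (FrR)
open Finset

theorem bw_ap (R : Type) {V A : Type} [CommRing R] [CommGroup V] [Ring A] [Algebra R A]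
    (α : V →* A) (u v : V) (a : A) : bw R α (u, v) a = α u * (a * α v⁻¹) := rfl

theorem rb_of_wb {F V A₀ : Type} [CommRing F] [CommGroup V] [Ring A₀] [Algebra F A₀]
    (W : Subgroup V) (α₀ : V →* A₀) (μ₀ : A₀ →ₗ[F] A₀ →ₗ[F] A₀)
    (h : WB2 α₀ W (fun a b => μ₀ a b)) : RB (bw F (aw α₀ W)) μ₀ := by
  refine ⟨fun g x y => ?_, fun g x y => ?_, fun g x y => ?_⟩
  · rw [bw_ap, bw_ap, inv_one, map_one, mul_one, mul_one]
    exact (h _ g.2 x y).1
  · rw [bw_ap, bw_ap, inv_one, map_one, mul_one, one_mul]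
    exact (h _ (g⁻¹).2 x y).2.1
  · rw [bw_ap, bw_ap, map_one, one_mul, one_mul]
    exact (h _ (g⁻¹).2 x y).2.2

theorem wb_of_rb {F V A₀ : Type} [CommRing F] [CommGroup V] [Ring A₀] [Algebra F A₀]
    (W : Subgroup V) (α₀ : V →* A₀) (μ₀ : A₀ →ₗ[F] A₀ →ₗ[F] A₀)
    (h : RB (bw F (aw α₀ W)) μ₀) : WB2 α₀ W (fun a b => μ₀ a b) := by
  intro w hw x y
  refine ⟨?_, ?_, ?_⟩
  · have h1 := h.1 ⟨w, hw⟩ x y
    rw [bw_ap, bw_ap, inv_one, map_one, mul_one, mul_one] at h1
    exact h1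
  · have h1 := h.2.1 (⟨w, hw⟩⁻¹ : W) x y
    rw [bw_ap, bw_ap, inv_one, map_one, mul_one, one_mul, inv_inv] at h1
    exact h1
  · have h1 := h.2.2 (⟨w, hw⟩⁻¹ : W) x y
    rw [bw_ap, bw_ap, map_one, one_mul, one_mul, inv_inv] at h1
    exact h1

theorem blt (hb : BvlStmt) : BltStmt := by
  intro R F V A A₀ Ω _ _ _ _ _ _ _ _ _ W α b c cv f α₀ μ₀ hfr hα hw0 hn0
  letI act : MulAction (W × W) Ω := MulAction.compHom Ω (W.subtype.prodMap W.subtype)
  have hsm : ∀ (g : W × W) (ω : Ω), g • ω = (((g.1 : V), (g.2 : V)) : V × V) • ω :=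
    fun g ω => rfl
  have hbw : ∀ (g : W × W), bw R (aw α W) g = bw R α ((g.1 : V), (g.2 : V)) := by
    intro g
    rfl
  have hfr' : FrR (bw R (aw α W)) b c := by
    refine ⟨fun g t => ?_, fun g t n => ?_, hfr.2.2⟩
    · rw [hsm, hbw]
      exact hfr.1 _ t
    · rw [hsm, hbw]
      exact hfr.2.1 _ t n
  have hsc : ∀ (r : R) (x : A), f.q (r • x) = cv.κ r • f.q x := by
    intro r x
    rw [Algebra.smul_def, map_mul, f.sc, ← Algebra.smul_def]
  have hred : RedM cv (bw R (aw α W)) (bw F (aw α₀ W)) f.q.toAddMonoidHom := by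
    refine ⟨hsc, f.surj, fun x => ⟨f.ker x, ?_⟩, ?_⟩
    · rintro ⟨y, rfl⟩
      show f.q (cv.π • y) = 0
      rw [hsc, (cv.ker cv.π).2 ⟨1, (mul_one _).symm⟩, zero_smul]
    · intro g x
      show f.q (α (g.1 : V) * (x * α ((g.2⁻¹ : W) : V))) = α₀ (g.1 : V) * (f.q x * α₀ ((g.2⁻¹ : W) : V))
      rw [map_mul, map_mul, hα, hα]
  obtain ⟨μ, hμ, hμq⟩ := hb R F W A A₀ Ω cv (bw R (aw α W)) (bw F (aw α₀ W))
    f.q.toAddMonoidHom b c hfr' hred μ₀ (rb_of_wb W α₀ μ₀ hw0)
  have hW := wb_of_rb W α μ hμ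
  have hq : ∀ x y, f.q (μ x y) = μ₀ (f.q x) (f.q y) := hμq
  -- first correction
  let μ1 : A →ₗ[R] A →ₗ[R] A := μ - (LinearMap.mul R A).compl₂ (μ 1)
  have h1 : ∀ x y, μ1 x y = μ x y - x * μ 1 y := fun x y => rfl
  let μ2 : A →ₗ[R] A →ₗ[R] A := μ1 - (LinearMap.mul R A).comp (μ1.flip 1)
  have h2 : ∀ x y, μ2 x y = μ1 x y - μ1 x 1 * y := fun x y => rfl
  have hW1 : WB2 α W (fun a b => μ1 a b) := by
    intro w hw x y
    obtain ⟨a1, a2, a3⟩ := hW w hw x y
    beta_reduce at a1 a2 a3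
    have e1 : μ 1 (α w * y) = α w * μ 1 y := by
      have := (hW w hw 1 y).2.1
      have h' := (hW w hw 1 y).1
      beta_reduce at this h'
      rw [one_mul] at this
      rw [mul_one] at h'
      rw [← this, h']
    have e2 : μ 1 (y * α w) = μ 1 y * α w := (hW w hw 1 y).2.2
    refine ⟨?_, ?_, ?_⟩
    · show μ1 (α w * x) y = α w * μ1 x y
      rw [h1, h1, a1, mul_sub, mul_assoc]
    · show μ1 (x * α w) y = μ1 x (α w * y)
      rw [h1, h1, a2, e1, mul_assoc]
    · show μ1 x (y * α w) = μ1 x y * α w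
      rw [h1, h1, a3, e2, sub_mul, mul_assoc]
  have hz1 : ∀ y, μ1 1 y = 0 := fun y => by rw [h1, one_mul, sub_self]
  have hW2 : WB2 α W (fun a b => μ2 a b) := by
    intro w hw x y
    obtain ⟨a1, a2, a3⟩ := hW1 w hw x y
    obtain ⟨c1, c2, c3⟩ := hW1 w hw x 1
    beta_reduce at a1 a2 a3 c1 c2 c3
    refine ⟨?_, ?_, ?_⟩
    · show μ2 (α w * x) y = α w * μ2 x y
      rw [h2, h2, a1, c1, mul_sub, mul_assoc]
    · show μ2 (x * α w) y = μ2 x (α w * y)
      have e : μ1 (x * α w) 1 = μ1 x 1 * α w := by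
        rw [c2, mul_one]
        rw [one_mul] at c3
        exact c3
      rw [h2, h2, a2, e, mul_assoc]
    · show μ2 x (y * α w) = μ2 x y * α w
      rw [h2, h2, a3, sub_mul, mul_assoc]
  refine ⟨μ2, hW2, ⟨fun x => ?_, fun x => ?_⟩, fun a a' => ?_⟩
  · show μ2 1 x = 0
    rw [h2, hz1, hz1, zero_mul, sub_self]
  · show μ2 x 1 = 0
    rw [h2, mul_one, sub_self]
  · have n1 : ∀ y, μ₀ 1 y = 0 := hn0.1
    have n2 : ∀ y, μ₀ y 1 = 0 := hn0.2
    have hq1 : ∀ x y, f.q (μ1 x y) = μ₀ (f.q x) (f.q y) := by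
      intro x y
      rw [h1, map_sub, map_mul, hq, hq, map_one, n1, mul_zero, sub_zero]
    rw [h2, map_sub, map_mul, hq1, hq1, map_one, n2, zero_mul, sub_zero]

end Pool.Agent.PSS.H82
end
end -- Pool.Agent.Helper82_PSS.BLT

section -- Pool.Agent.Helper84_PSS.TRC

/-! TRC: change of `P`. -/

set_option autoImplicit false

open scoped BigOperators TensorProduct

noncomputable section

namespace Pool.Agent.PSS.H84

open Finset

section

variable {K V B : Type} [Field K] [CommGroup V] [Ring B] [Algebra K B] {β : V →* B}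
  {W : Subgroup V} {P P' : ℕ → (B →ₗ[K] B)} {m m' : ℕ → (B →ₗ[K] B →ₗ[K] B)} {N : ℕ}

theorem trv_m0 (T : Trv β W P m) (x y : B) : m 0 x y = x * y := by
  have h := T.pm 0 x y
  simp only [Finset.Nat.antidiagonal_zero, sum_singleton, T.p0, LinearMap.id_apply] at h
  exact h.symm

theorem trv_eq (T : Trv β W P m) (T' : Trv β W P' m') (h : ∀ n ≤ N, P' n = P n) (n : ℕ) :
    n ≤ N → m' n = m n := by
  induction n using Nat.strong_induction_on with
  | _ n ih =>
    intro hn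
    ext x y
    have h1 := T.pm n x y
    have h2 := T'.pm n x y
    have h3 : ∑ p ∈ antidiagonal n, P' p.1 x * P' p.2 y = ∑ p ∈ antidiagonal n, P p.1 x * P p.2 y := by
      refine sum_congr rfl fun p hp => ?_
      have hp1 := HasAntidiagonal.mem_antidiagonal.1 hp
      rw [h p.1 (by omega), h p.2 (by omega)]
    rw [h3, h1] at h2
    have h4 : ∑ p ∈ antidiagonal n, (P' p.1 (m' p.2 x y) - P p.1 (m p.2 x y)) = 0 := by
      rw [sum_sub_distrib, ← h2, sub_self]
    rw [sum_eq_single (0, n)] at h4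
    · simp only [T.p0, T'.p0, LinearMap.id_apply] at h4
      exact sub_eq_zero.1 h4
    · intro p hp hne
      have hp1 := HasAntidiagonal.mem_antidiagonal.1 hp
      have hlt : p.2 < n := by
        rcases Nat.eq_zero_or_pos p.1 with h0 | h0
        · exact absurd (Prod.ext h0 (by simp only; omega)) hne
        · omega
      rw [ih p.2 hlt (by omega), h p.1 (by omega), sub_self]
    · intro hc
      exact absurd (HasAntidiagonal.mem_antidiagonal.2 (by simp)) hc

end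

theorem trc : TrcStmt := by
  intro K V B _ _ _ _ β W P P' m m' N T T' h
  refine ⟨fun n hn => trv_eq T T' h n hn, fun x y => ?_⟩
  have hm := fun n hn => trv_eq T T' h n hn
  have h1 := T.pm (N + 1) x y
  have h2 := T'.pm (N + 1) x y
  have h3 : ∑ p ∈ antidiagonal (N + 1), (P' p.1 x * P' p.2 y - P p.1 x * P p.2 y) =
      ∑ p ∈ antidiagonal (N + 1), (P' p.1 (m' p.2 x y) - P p.1 (m p.2 x y)) := by
    rw [sum_sub_distrib, sum_sub_distrib, h1, h2]
  have hne : ((0 : ℕ), N + 1) ≠ (N + 1, 0) := by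
    intro hc
    have := congrArg Prod.fst hc
    simp at this
  have hmid : ∀ p ∈ antidiagonal (N + 1), p ≠ ((0 : ℕ), N + 1) ∧ p ≠ (N + 1, 0) →
      p.1 ≤ N ∧ p.2 ≤ N := by
    intro p hp hc
    have hp1 := HasAntidiagonal.mem_antidiagonal.1 hp
    constructor
    · by_contra hcc
      exact hc.2 (Prod.ext (by simp only; omega) (by simp only; omega))
    · by_contra hcc
      exact hc.1 (Prod.ext (by simp only; omega) (by simp only; omega))
  rw [sum_eq_add (0, N + 1) (N + 1, 0) hne, sum_eq_add (0, N + 1) (N + 1, 0) hne] at h3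
  · simp only [T.p0, T'.p0, LinearMap.id_apply, trv_m0 T, trv_m0 T'] at h3
    unfold d1
    have h4 : m' (N + 1) x y = m (N + 1) x y + ((x * P' (N + 1) y - x * P (N + 1) y +
        (P' (N + 1) x * y - P (N + 1) x * y)) - (P' (N + 1) (x * y) - P (N + 1) (x * y))) := by
      rw [h3]
      abel
    rw [h4]
    simp only [mul_sub, sub_mul]
    abel
  · intro p hp hc
    obtain ⟨a, b⟩ := hmid p hp hc
    rw [h _ a, hm _ b, sub_self]
  · intro hc
    exact absurd (HasAntidiagonal.mem_antidiagonal.2 (by simp)) hc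
  · intro hc
    exact absurd (HasAntidiagonal.mem_antidiagonal.2 (by simp)) hc
  · intro p hp hc
    obtain ⟨a, b⟩ := hmid p hp hc
    rw [h _ a, h _ b, sub_self]
  · intro hc
    exact absurd (HasAntidiagonal.mem_antidiagonal.2 (by simp)) hc
  · intro hc
    exact absurd (HasAntidiagonal.mem_antidiagonal.2 (by simp)) hc

end Pool.Agent.PSS.H84
end
end -- Pool.Agent.Helper84_PSS.TRC
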