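import Pool.Agent.Helper12_AWB.B009

/-!
# Merged copies (generated) of the modules

* `Pool.Agent.Helper27_PSS.NDB`
* `Pool.Agent.Helper32_PSS.RTW`
* `Pool.Agent.Helper39_PSS.TVC`
* `Pool.Agent.Helper41_PSS.SVI`
* `Pool.Agent.Helper52_PSS.WTR`
* `Pool.Agent.Helper56_PSS.FPS`
* `Pool.Agent.Helper56_PSS.STR`
* `Pool.Agent.Helper68_PSS.SPI`
* `Pool.Agent.Helper68_PSS.TRC`
* `Pool.Agent.Helper69_PSS.STV`
* `Pool.Agent.Helper6_PSS.VDR`
* `Pool.Agent.Helper79_PSS.SVG`
* `Pool.Agent.Helper80_PSS.HTR`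
* `Pool.Agent.Helper83_PSS.HEW`
* `Pool.Agent.Helper83_PSS.RAD`
* `Pool.Agent.Helper85_PSS.FIT`
* `Pool.Agent.Helper85_PSS.GWZ`
* `Pool.Agent.Helper92_PSS.CHI`
-/

set_option autoImplicit false

section -- Pool.Agent.Helper27_PSS.NDB

set_option autoImplicit false

open scoped BigOperators

noncomputable section

namespace Pool.Agent.PSS.S2.H27

open Pool.Agent.PSS Pool.Agent.PSS.S2

section

variable {F V A : Type} [Field F] [CommGroup V] [Ring A] [Algebra F A]

theorem cw_ap (α : V →* A) (u : V) (a : A) : cw F α u a = α u * (a * α u⁻¹) := rfl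

theorem cw_mul (α : V →* A) (u : V) (b a : A) (hb : CV α b) :
    cw F α u (b * a) = b * cw F α u a := by
  rw [cw_ap, cw_ap, mul_assoc b a, ← mul_assoc (α u) b, hb u, mul_assoc]

theorem cw_mul' (α : V →* A) (u : V) (b a : A) (hb : CV α b) :
    cw F α u (a * b) = cw F α u a * b := by
  rw [cw_ap, cw_ap, mul_assoc a b, ← hb u⁻¹]
  simp only [mul_assoc]

theorem mem_fx (α : V →* A) (a : A) : a ∈ FxR (cw F α) ⊤ ↔ CV α a := by
  constructor
  · intro h u
    have h1 : α u * (a * α u⁻¹) = a := h u (Subgroup.mem_top u)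
    calc α u * a = α u * (a * α u⁻¹) * α u := by
          rw [mul_assoc, mul_assoc a, ← map_mul, inv_mul_cancel, map_one, mul_one]
      _ = a * α u := by rw [h1]
  · intro h u _
    show α u * (a * α u⁻¹) = a
    rw [← mul_assoc, h u, mul_assoc, ← map_mul, mul_inv_cancel, map_one, mul_one]

theorem bk_left (α : V →* A) (b n : A) (hb : CV α b) (hn : n ∈ BKR (cw F α) ⊤) :
    b * n ∈ BKR (cw F α) ⊤ := by
  refine Submodule.span_induction (p := fun n _ => b * n ∈ BKR (cw F α) ⊤) ?_ ?_ ?_ ?_ hn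
  · rintro n ⟨P', S, m, h1, h2, h3, rfl⟩
    apply Submodule.subset_span
    refine ⟨P', S, b * m, h1, h2, ?_, ?_⟩
    · intro h hh
      rw [cw_mul α h b m hb, h3 h hh]
    · rw [Finset.mul_sum]
      apply Finset.sum_congr rfl
      intro x _
      rw [cw_mul α x b m hb]
  · show b * 0 ∈ _
    rw [mul_zero]
    exact Submodule.zero_mem _
  · intro x y _ _ hx hy
    show b * (x + y) ∈ _
    rw [mul_add]
    exact Submodule.add_mem _ hx hy
  · intro c x _ hx
    show b * (c • x) ∈ _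
    rw [mul_smul_comm]
    exact Submodule.smul_mem _ _ hx

theorem bk_right (α : V →* A) (b n : A) (hb : CV α b) (hn : n ∈ BKR (cw F α) ⊤) :
    n * b ∈ BKR (cw F α) ⊤ := by
  refine Submodule.span_induction (p := fun n _ => n * b ∈ BKR (cw F α) ⊤) ?_ ?_ ?_ ?_ hn
  · rintro n ⟨P', S, m, h1, h2, h3, rfl⟩
    apply Submodule.subset_span
    refine ⟨P', S, m * b, h1, h2, ?_, ?_⟩
    · intro h hh
      rw [cw_mul' α h b m hb, h3 h hh]
    · rw [Finset.sum_mul]
      apply Finset.sum_congr rfl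
      intro x _
      rw [cw_mul' α x b m hb]
  · show 0 * b ∈ _
    rw [zero_mul]
    exact Submodule.zero_mem _
  · intro x y _ _ hx hy
    show (x + y) * b ∈ _
    rw [add_mul]
    exact Submodule.add_mem _ hx hy
  · intro c x _ hx
    show (c • x) * b ∈ _
    rw [smul_mul_assoc]
    exact Submodule.smul_mem _ _ hx

theorem cv_mul (α : V →* A) (a b : A) (ha : CV α a) (hb : CV α b) : CV α (a * b) := by
  intro v
  rw [← mul_assoc, ha v, mul_assoc, hb v, mul_assoc]

/-- the algebra map from the group algebra -/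
def pa (α : V →* A) : MonoidAlgebra F V →ₐ[F] A := MonoidAlgebra.lift F A V α

theorem pa_of (α : V →* A) (v : V) : pa (F := F) α (MonoidAlgebra.of F V v) = α v := by
  unfold pa
  exact MonoidAlgebra.lift_of _ _

theorem pa_comm (α : V →* A) (a : A) (ha : CV α a) (s : MonoidAlgebra F V) :
    pa α s * a = a * pa α s := by
  refine MonoidAlgebra.induction_on (motive := fun s => pa α s * a = a * pa α s) s ?_ ?_ ?_
  · intro v
    rw [pa_of]
    exact ha v
  · intro x y hx hy
    rw [map_add, add_mul, mul_add, hx, hy]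
  · intro c x hx
    rw [map_smul, smul_mul_assoc, mul_smul_comm, hx]

theorem pa_cv (α : V →* A) (s : MonoidAlgebra F V) : CV α (pa α s) := by
  intro v
  have h := map_mul (pa (F := F) α) (MonoidAlgebra.of F V v) s
  have h' := map_mul (pa (F := F) α) s (MonoidAlgebra.of F V v)
  rw [pa_of] at h h'
  rw [← h, ← h', mul_comm]

/-- the augmentation ideal -/
def aug (F V : Type) [Field F] [CommGroup V] : Ideal (MonoidAlgebra F V) :=
  Ideal.span (Set.range (fun u : V => MonoidAlgebra.of F V u - 1))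

theorem aug_nil (ℓ : ℕ) [Fact ℓ.Prime] [CharP F ℓ] [Fintype V] (hV : IsPGroup ℓ V) :
    ∃ m : ℕ, aug F V ^ m = ⊥ := by
  have : CharP (MonoidAlgebra F V) ℓ :=
    charP_of_injective_algebraMap (algebraMap F (MonoidAlgebra F V)).injective ℓ
  have hfg : (aug F V).FG := Submodule.fg_span (Set.finite_range _)
  have hle : aug F V ≤ nilradical (MonoidAlgebra F V) := by
    unfold aug
    rw [Ideal.span_le]
    rintro x ⟨u, rfl⟩
    show MonoidAlgebra.of F V u - 1 ∈ nilradical (MonoidAlgebra F V)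
    rw [mem_nilradical]
    obtain ⟨k, hk⟩ := hV u
    refine ⟨ℓ ^ k, ?_⟩
    rw [sub_pow_char_pow, one_pow, ← map_pow, hk, map_one, sub_self]
  exact (Ideal.FG.isNilpotent_iff_le_nilradical hfg).mpr hle

/-- generators of the powers -/
def Gn (α : V →* A) (m : ℕ) : Set A :=
  {x | ∃ s ∈ aug F V ^ m, ∃ a : A, CV α a ∧ x = pa (F := F) α s * a}

theorem gn_cv (α : V →* A) (m : ℕ) (x : A) (hx : x ∈ Submodule.span F (Gn (F := F) α m)) :
    CV α x := by
  refine Submodule.span_induction (p := fun x _ => CV α x) ?_ ?_ ?_ ?_ hx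
  · rintro x ⟨s, _, a, ha, rfl⟩
    exact cv_mul α _ _ (pa_cv α s) ha
  · intro v
    rw [mul_zero, zero_mul]
  · intro x y _ _ hx hy v
    rw [mul_add, add_mul, hx v, hy v]
  · intro c x _ hx v
    rw [mul_smul_comm, smul_mul_assoc, hx v]

theorem gn_mul (α : V →* A) (m : ℕ) (x y : A) (hx : x ∈ Submodule.span F (Gn (F := F) α m))
    (hy : y ∈ Submodule.span F (Gn (F := F) α 1)) :
    x * y ∈ Submodule.span F (Gn (F := F) α (m + 1)) := by
  have h1 : x * y ∈ Submodule.span F (Gn (F := F) α m) * Submodule.span F (Gn (F := F) α 1) :=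
    Submodule.mul_mem_mul hx hy
  rw [Submodule.span_mul_span] at h1
  refine Submodule.span_mono ?_ h1
  rintro z ⟨x, ⟨s, hs, a, ha, rfl⟩, y, ⟨t, ht, b, hb, rfl⟩, rfl⟩
  refine ⟨s * t, ?_, a * b, cv_mul α _ _ ha hb, ?_⟩
  · rw [pow_succ]
    rw [pow_one] at ht
    exact Ideal.mul_mem_mul hs ht
  · show pa α s * a * (pa α t * b) = pa α (s * t) * (a * b)
    rw [map_mul, mul_assoc (pa α s) a, ← mul_assoc a, ← pa_comm α a ha t]
    simp only [mul_assoc]

theorem ag_le (α : V →* A) : AgI F α ≤ Submodule.span F (Gn (F := F) α 1) := by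
  unfold AgI
  rw [Submodule.span_le]
  rintro n ⟨u, a, ha, rfl⟩
  apply Submodule.subset_span
  refine ⟨MonoidAlgebra.of F V u - 1, ?_, a, (mem_fx α a).mp ha, ?_⟩
  · rw [pow_one]
    exact Ideal.subset_span ⟨u, rfl⟩
  · rw [map_sub, pa_of, map_one]

end

theorem ndb : NdbStmt := by
  intro ℓ _ F V A _ _ _ _ _ _ α e hV hce hee he
  have h1 : e ∈ BKR (cw F α) ⊤ ⊔ Submodule.span F (Gn (F := F) α 1) :=
    (sup_le_sup_left (ag_le α) _) he
  have hm : ∀ m : ℕ, e ∈ BKR (cw F α) ⊤ ⊔ Submodule.span F (Gn (F := F) α (m + 1)) := by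
    intro m
    induction m with
    | zero => exact h1
    | succ m ih =>
      obtain ⟨b, hb, j, hj, hbj⟩ := Submodule.mem_sup.mp ih
      obtain ⟨b', hb', j', hj', hbj'⟩ := Submodule.mem_sup.mp h1
      have hjc : CV α j := gn_cv α _ j hj
      have h2 : e = b * e + (j * b' + j * j') := by
        calc e = e * e := hee.symm
          _ = (b + j) * e := by rw [hbj]
          _ = b * e + j * (b' + j') := by rw [add_mul, hbj']
          _ = _ := by rw [mul_add]
      rw [h2, ← add_assoc]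
      apply Submodule.add_mem_sup
      · exact Submodule.add_mem _ (bk_right α e b hce hb) (bk_left α j b' hjc hb')
      · exact gn_mul α (m + 1) j j' hj hj'
  obtain ⟨m, hm0⟩ := aug_nil (F := F) ℓ hV
  have hz : Submodule.span F (Gn (F := F) α (m + 1)) = ⊥ := by
    rw [Submodule.span_eq_bot]
    rintro x ⟨s, hs, a, _, rfl⟩
    rw [pow_succ, hm0, Ideal.bot_mul, Ideal.mem_bot] at hs
    rw [hs, map_zero, zero_mul]
  have h3 := hm m
  rw [hz, sup_bot_eq] at h3
  exact h3

end Pool.Agent.PSS.S2.H27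
end
end -- Pool.Agent.Helper27_PSS.NDB

section -- Pool.Agent.Helper32_PSS.RTW

/-!
Squad PSS, block S2, rows RTW and NLT (helper32).
-/

set_option autoImplicit false

open scoped BigOperators

noncomputable section

namespace Pool.Agent.PSS.S2.H32

open Pool.Agent.PFC (tw IsTv)
open Pool.Agent.PFD.D2b (FrR)
open Pool.Agent.PSS Pool.Agent.PSS.S2

section aux

variable {V A : Type} [CommGroup V] [Fintype V] [Ring A]

/-- `α w * σ = σ` -/
theorem al_sg (α : V →* A) (w : V) : α w * sg α = sg α := by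
  unfold sg
  rw [Finset.mul_sum]
  refine Fintype.sum_equiv (Equiv.mulLeft w) _ _ fun v => ?_
  rw [Equiv.coe_mulLeft, map_mul]

/-- an element which commutes with `V` commutes with `σ` -/
theorem cv_sg (α : V →* A) {a : A} (ha : CV α a) : sg α * a = a * sg α := by
  unfold sg
  rw [Finset.sum_mul, Finset.mul_sum]
  exact Finset.sum_congr rfl fun v _ => ha v

end aux

theorem rtw (str : StrStmt) : RtwStmt := by
  intro ℓ _ F V E A K Ω _ _ _ _ _ _ _ _ _ _ φ α lam x y b c a w hpg hrf hpr ha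
  have key : ∀ w : V, lam (sg α * a * rt x y (α w)) = ∑ k, lam (y k * (a * x k * sg α)) := by
    intro w
    let f : A →ₗ[F] A := (LinearMap.mulRight F (α w)).comp (LinearMap.mulLeft F a)
    have hf : ∀ b, f b = a * b * α w := fun b => rfl
    have h1 : ∀ a' v, f (a' * α v) = f a' * α v := by
      intro a' v
      have h0 : α v * α w = α w * α v := by rw [← map_mul, ← map_mul, mul_comm v w]
      rw [hf, hf]
      simp only [mul_assoc]
      rw [h0]
    have h2 : ∀ v a', f (α v * a') = α v * f a' := by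
      intro v a'
      rw [hf, hf, ← mul_assoc a, ← ha v]
      simp only [mul_assoc]
    have h3 := str ℓ F V E A K Ω φ α lam x y b c f hpg hrf hpr h1 h2
    have h4 : lam (sg α * a * rt x y (α w)) = ∑ k, lam (y k * (sg α * f (x k))) := by
      unfold rt
      rw [Finset.mul_sum, map_sum]
      refine Finset.sum_congr rfl fun k _ => ?_
      rw [hrf.sym (y k), hf]
      simp only [mul_assoc]
    rw [h4, h3]
    refine Finset.sum_congr rfl fun k _ => ?_
    rw [hf, mul_assoc (a * x k), al_sg]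
  have k1 := key 1
  rw [map_one] at k1
  exact ⟨(key w).trans k1.symm, key w⟩

theorem nlt (str : StrStmt) (nlm : NlmStmt) (rtc : RtcStmt) : NltStmt := by
  intro ℓ _ F V E A K Ω _ _ _ _ _ _ _ _ _ _ φ α lam x y b c u a hpg hrf hpr hu ha hn
  obtain ⟨ζ, hζ⟩ : ∃ ζ : A, ζ = rt x y 1 := ⟨_, rfl⟩
  rw [← hζ] at hu
  have hzc : ∀ b, b * ζ = ζ * b := by
    rw [hζ]
    exact (rtc F V A K K α lam x y hrf).1 1 (fun v => by rw [mul_one, one_mul])
  have hzu : ζ * u = 1 := by rw [← hzc, hu]
  have huc : ∀ b, u * b = b * u := by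
    intro b
    calc u * b = u * b * (ζ * u) := by rw [hzu, mul_one]
      _ = u * (b * ζ) * u := by simp only [mul_assoc]
      _ = u * (ζ * b) * u := by rw [hzc]
      _ = u * ζ * b * u := by simp only [mul_assoc]
      _ = b * u := by rw [hu, one_mul]
  have hCV : CV α (u * a) := by
    intro v
    rw [← mul_assoc, ← huc, mul_assoc, ha v, mul_assoc]
  have hnil : IsNilpotent (u * a) := by
    have hc : Commute u a := huc a
    exact hc.isNilpotent_mul_left hn
  let f : A →ₗ[F] A := LinearMap.mulLeft F (u * a)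
  have hf : ∀ b, f b = u * a * b := fun b => rfl
  have h1 : ∀ a' v, f (a' * α v) = f a' * α v := by
    intro a' v
    rw [hf, hf]
    simp only [mul_assoc]
  have h2 : ∀ v a', f (α v * a') = α v * f a' := by
    intro v a'
    rw [hf, hf, ← mul_assoc, ← hCV v, mul_assoc]
  have h3 := str ℓ F V E A K Ω φ α lam x y b c f hpg hrf hpr h1 h2
  have h4 : lam (sg α * a) = ∑ k, lam (y k * (sg α * f (x k))) := by
    have h5 : sg α * a = (u * a) * sg α * ζ := by
      rw [← cv_sg α hCV]
      calc sg α * a = sg α * ((ζ * u) * a) := by rw [hzu, one_mul]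
        _ = sg α * (ζ * (u * a)) := by rw [mul_assoc ζ]
        _ = sg α * ((u * a) * ζ) := by rw [hzc]
        _ = sg α * (u * a) * ζ := by rw [mul_assoc (sg α)]
    rw [h5, hζ]
    unfold rt
    rw [Finset.mul_sum, map_sum]
    refine Finset.sum_congr rfl fun k _ => ?_
    rw [hrf.sym (y k), hf, ← cv_sg α hCV]
    simp only [mul_assoc, one_mul]
  rw [h4, h3]
  exact nlm F V A K α lam x y (u * a) hrf hnil

end Pool.Agent.PSS.S2.H32
end
end -- Pool.Agent.Helper32_PSS.RTW

section -- Pool.Agent.Helper39_PSS.TVC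

/-! PSS, block S2, row TVC. -/

set_option autoImplicit false

open scoped BigOperators

namespace Pool.Agent.PSS.S2.H39

theorem tvc (hDgz : DgzStmt) (hTrc : TrcStmt) (hRtw : RtwStmt) (hSvg : SvgStmt) (hIdt : IdtStmt)
    (hNlt : NltStmt) (hSpi : SpiStmt) : TvcStmt := by
  intro ℓ _ F V E A K Ω _ _ _ _ _ _ _ _ _ _ _ _ φ α z lam x y b c χ N u a d hV hRF hPr hu hN hχ ha hd
  -- the derivation
  have hD : ∀ p q : A, Gz α z x y N (p * q) = Gz α z x y N p * q + p * Gz α z x y N q := by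
    intro p q
    exact (cg_zero _ _).1 (hDgz F V A K 0 α z lam x y χ N hRF hN p q)
  -- central
  have hGd : ∀ p : A, Gz α z x y N d * p = p * Gz α z x y N d := by
    intro p
    have h1 := hD d p
    have h2 := hD p d
    rw [hd p, h2, ← hd (Gz α z x y N p)] at h1
    have h3 : d * Gz α z x y N p + p * Gz α z x y N d
        = d * Gz α z x y N p + Gz α z x y N d * p := by
      rw [h1, add_comm]
    exact (add_left_cancel h3).symm
  have hsg : ∀ p : A, CV α p → sg α * p = p * sg α := by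
    intro p hp
    unfold sg
    rw [Finset.sum_mul, Finset.mul_sum]
    exact Finset.sum_congr rfl fun v _ => hp v
  -- idempotents
  have hI : ∀ j : A, CV α j → j * j = j → lam (sg α * j * Gz α z x y N d) = 0 := by
    intro j hj hjj
    have hjd : CV α (j * d) := by
      intro v
      rw [← mul_assoc, hj v, mul_assoc, mul_assoc, hd (α v)]
    have e1 : Gz α z x y N (sg α * (j * d))
        = Gz α z x y N (sg α) * (j * d) + (sg α * Gz α z x y N j * d
          + sg α * j * Gz α z x y N d) := by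
      rw [hD, hD, mul_add, mul_assoc (sg α) (Gz α z x y N j) d, mul_assoc (sg α) j]
    have e2 : lam (Gz α z x y N (sg α * (j * d)))
        = - ∑ k, lam (y k * (j * d * x k * sg α)) := by
      have h1 := (cg_zero _ _).1 (hTrc F V A K 0 α z lam x y χ N hRF hN
        ((cg_zero _ _).2 hχ) (sg α * (j * d)))
      rw [h1, (hRtw ℓ F V E A K Ω φ α lam x y b c (j * d) z⁻¹ hV hRF hPr hjd).2]
    have e3 : lam (Gz α z x y N (sg α) * (j * d))
        = - ∑ k, lam (y k * (j * d * x k * sg α)) := by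
      rw [← hSvg ℓ F V E A K Ω φ α z lam x y b c χ N (j * d) hV hRF hPr hN hχ hjd]
      unfold sg
      rw [map_sum, Finset.sum_mul, map_sum]
    have e4 : lam (sg α * Gz α z x y N j * d) = 0 :=
      hIdt F A lam (fun p => Gz α z x y N p) (sg α) d j hRF.sym hD hjj (hsg j hj) hd
    rw [e1, map_add, map_add, e3, e4, zero_add] at e2
    exact add_left_cancel (e2.trans (add_zero _).symm)
  -- decomposition
  obtain ⟨n, cc, e, m, hae, he, hm, hma⟩ := hSpi F A a
  have hadj : ∀ p ∈ Algebra.adjoin F {a}, CV α p := by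
    intro p hp
    have hle : Algebra.adjoin F {a} ≤ Subalgebra.centralizer F (Set.range α) := by
      refine Algebra.adjoin_le ?_
      intro q hq
      rw [Set.mem_singleton_iff] at hq
      subst hq
      rw [SetLike.mem_coe, Subalgebra.mem_centralizer_iff]
      rintro _ ⟨v, rfl⟩
      exact ha v
    have h2 := hle hp
    rw [Subalgebra.mem_centralizer_iff] at h2
    intro v
    exact h2 _ ⟨v, rfl⟩
  have hM : lam (sg α * m * Gz α z x y N d) = 0 := by
    have hcv : CV α (m * Gz α z x y N d) := by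
      intro v
      rw [← mul_assoc, hadj m hma v, mul_assoc, mul_assoc, hGd (α v)]
    have hnil : IsNilpotent (m * Gz α z x y N d) :=
      Commute.isNilpotent_mul_right (hGd m).symm hm
    rw [mul_assoc]
    exact hNlt ℓ F V E A K Ω φ α lam x y b c u _ hV hRF hPr hu hcv hnil
  rw [hae, mul_add, add_mul, map_add, hM, add_zero, Finset.mul_sum, Finset.sum_mul, map_sum]
  refine Finset.sum_eq_zero fun i _ => ?_
  rw [mul_smul_comm, smul_mul_assoc, map_smul, hI (e i) (hadj _ (he i).2) (he i).1, smul_zero]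

end Pool.Agent.PSS.S2.H39
end -- Pool.Agent.Helper39_PSS.TVC

section -- Pool.Agent.Helper41_PSS.SVI

/-!
# Squad PSS, rows SVI and SVK
-/

set_option autoImplicit false

open scoped BigOperators

noncomputable section

namespace Pool.Agent.PSS.S2.H41

open Pool.Agent.PFC (tw IsTv)
open Pool.Agent.PFD.D2b (FrR)

theorem svi (hT : TprStmt) : SviStmt := by
  intro F V A K _ _ _ _ _ _ α z lam x y χ N₁ N₂ a hrf h1 h2 ha u
  have hg : ∀ b v, (N₁ - N₂) (b * α v) = (N₁ - N₂) b * α v := by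
    intro b v
    have e1 := (cg_zero _ _).1 (h1.lin b v)
    have e2 := (cg_zero _ _).1 (h2.lin b v)
    rw [LinearMap.sub_apply, LinearMap.sub_apply, e1, e2, sub_mul]
    abel
  set g := N₁ - N₂ with hgd
  let P : A →ₗ[F] A := (LinearMap.mulLeft F a).comp g
  let Q : A →ₗ[F] A := (LinearMap.mulRight F (1 - α z⁻¹)).comp (LinearMap.mulLeft F (α u))
  have hP : ∀ b, P b = a * g b := fun b => rfl
  have hQ : ∀ b, Q b = α u * b * (1 - α z⁻¹) := fun b => rfl
  have hPr : RLq 0 α P := by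
    intro b v
    rw [cg_zero, hP, hP, hg, mul_assoc]
  have hQr : RLq 0 α Q := by
    intro b v
    rw [cg_zero, hQ, hQ]
    have e : α v * (1 - α z⁻¹) = (1 - α z⁻¹) * α v := by
      rw [mul_sub, sub_mul, mul_one, one_mul, ← map_mul, ← map_mul, mul_comm v z⁻¹]
    calc α u * (b * α v) * (1 - α z⁻¹) = α u * b * (α v * (1 - α z⁻¹)) := by
          simp only [mul_assoc]
      _ = α u * b * (1 - α z⁻¹) * α v := by rw [e]; simp only [mul_assoc]
  have hpq := (cg_zero _ _).1 (hT F V A K 0 α lam x y P Q hrf hPr hQr)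
  unfold t1 at hpq
  have hgr : ∀ b, g (b * (1 - α z⁻¹)) = g b * (1 - α z⁻¹) := by
    intro b
    rw [mul_sub, mul_sub, map_sub, hg, mul_one, mul_one]
  have key : ∀ k, lam ((g (α u * x k) - α u * g (x k)) * ((1 - α z⁻¹) * y k) * a) =
      lam (y k * P (Q (x k))) - lam (y k * Q (P (x k))) := by
    intro k
    rw [hP, hQ, hQ, hP, hgr]
    rw [← map_sub, ← mul_sub]
    have e1 : α u * (a * g (x k)) * (1 - α z⁻¹) = a * (α u * g (x k) * (1 - α z⁻¹)) := by
      rw [← mul_assoc (α u) a, ha u]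
      simp only [mul_assoc]
    rw [e1, ← mul_sub, ← sub_mul]
    generalize g (α u * x k) - α u * g (x k) = D
    rw [show D * ((1 - α z⁻¹) * y k) * a = (D * (1 - α z⁻¹)) * (y k * a) by
      simp only [mul_assoc], hrf.sym, mul_assoc]
  have hd : lam (Gz α z x y N₁ (α u) * a) - lam (Gz α z x y N₂ (α u) * a) = 0 := by
    rw [← map_sub, ← sub_mul, gz_apply, gz_apply, ← Finset.sum_sub_distrib, Finset.sum_mul,
      map_sum]
    have e2 : ∀ k, lam (((N₁ (α u * x k) - α u * N₁ (x k)) * ((1 - α z⁻¹) * y k) -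
        (N₂ (α u * x k) - α u * N₂ (x k)) * ((1 - α z⁻¹) * y k)) * a) =
        lam (y k * P (Q (x k))) - lam (y k * Q (P (x k))) := by
      intro k
      rw [← key k]
      congr 2
      rw [hgd, LinearMap.sub_apply, LinearMap.sub_apply, ← sub_mul, mul_sub]
      congr 1
      abel
    rw [Finset.sum_congr rfl fun k _ => e2 k, Finset.sum_sub_distrib]
    exact sub_eq_zero.2 hpq
  exact sub_eq_zero.1 hd

theorem svk (hW : WtrStmt) : SvkStmt := by
  intro F V E A K Ω _ _ _ _ _ _ _ _ _ _ φ α z lam x y b c h χ H e a hrf hfr hh hχ he hH ha u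
  have hχ1 : χ 1 = 0 := by
    have := hχ 1 1
    rw [mul_one] at this
    exact left_eq_add.1 this
  have hN : ∀ b', Nh H b c (α u * b') - α u * Nh H b c b' =
      ∑ ω, (c ω b' * χ (φ (e ω)⁻¹ u)) • (α u * b ω) := by
    intro b'
    rw [nh_apply, nh_apply, Finset.mul_sum]
    have e1 : ∑ ω, (c ω (α u * b') * H ω) • b ω =
        ∑ ω, (c ω b' * H ((u, (1 : V)) • ω)) • (α u * b ω) := by
      rw [← Equiv.sum_comp (MulAction.toPerm ((u, (1 : V)) : V × V))]
      refine Finset.sum_congr rfl fun ω _ => ?_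
      change (c ((u, (1 : V)) • ω) (α u * b') * H ((u, (1 : V)) • ω)) •
        b ((u, (1 : V)) • ω) = _
      have h1 := hfr.1 (u, 1) ω
      change b ((u, (1 : V)) • ω) = α u * (b ω * α 1⁻¹) at h1
      rw [inv_one, map_one, mul_one] at h1
      have h2 := hfr.2.1 (u, 1) ω b'
      change c ((u, (1 : V)) • ω) (α u * (b' * α 1⁻¹)) = c ω b' at h2
      rw [inv_one, map_one, mul_one] at h2
      rw [h1, h2]
    rw [e1, ← Finset.sum_sub_distrib]
    refine Finset.sum_congr rfl fun ω _ => ?_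
    rw [mul_smul_comm, ← sub_smul, ← mul_sub, hH, hχ1]
    congr 2
    ring
  let f : A →ₗ[F] A := (LinearMap.mulRight F (1 - α z⁻¹)).comp (LinearMap.mulLeft F (a * α u))
  have hf : ∀ b', f b' = a * α u * b' * (1 - α z⁻¹) := fun b' => rfl
  have hw := hW F V A K Ω α lam x y b c h (fun ω => χ (φ (e ω)⁻¹ u)) f hrf hfr hh
    (fun v ω => by rw [he]) (by
      intro b' v
      rw [hf, hf]
      have e : α v * (1 - α z⁻¹) = (1 - α z⁻¹) * α v := by
        rw [mul_sub, sub_mul, mul_one, one_mul, ← map_mul, ← map_mul, mul_comm v z⁻¹]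
      calc a * α u * (b' * α v) * (1 - α z⁻¹) = a * α u * b' * (α v * (1 - α z⁻¹)) := by
            simp only [mul_assoc]
        _ = a * α u * b' * (1 - α z⁻¹) * α v := by rw [e]; simp only [mul_assoc])
  rw [gz_apply, Finset.sum_mul, map_sum]
  refine Eq.trans ?_ hw
  have e3 : ∀ k, lam ((Nh H b c (α u * x k) - α u * Nh H b c (x k)) *
      ((1 - α z⁻¹) * y k) * a) =
      ∑ ω, χ (φ (e ω)⁻¹ u) * (c ω (x k) * lam (y k * f (b ω))) := by
    intro k
    rw [hN, Finset.sum_mul, Finset.sum_mul, map_sum]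
    refine Finset.sum_congr rfl fun ω _ => ?_
    rw [smul_mul_assoc, smul_mul_assoc, map_smul, smul_eq_mul, hf]
    have e4 : lam (α u * b ω * ((1 - α z⁻¹) * y k) * a) =
        lam (y k * (a * α u * b ω * (1 - α z⁻¹))) := by
      rw [show α u * b ω * ((1 - α z⁻¹) * y k) * a =
        (α u * b ω * (1 - α z⁻¹)) * (y k * a) by simp only [mul_assoc], hrf.sym]
      congr 1
      simp only [mul_assoc]
    rw [e4]
    ring
  rw [Finset.sum_congr rfl fun k _ => e3 k, Finset.sum_comm]
  refine Finset.sum_congr rfl fun ω _ => ?_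
  rw [Finset.mul_sum]

end Pool.Agent.PSS.S2.H41
end
end -- Pool.Agent.Helper41_PSS.SVI

section -- Pool.Agent.Helper52_PSS.WTR

/-!
# Squad PSS, row WTR: sum over the representatives of the right orbits
-/

set_option autoImplicit false

open scoped BigOperators

noncomputable section

namespace Pool.Agent.PSS.S2.H52

open Pool.Agent.PSS Pool.Agent.PSS.S2
open Pool.Agent.PFC (tw IsTv)
open Pool.Agent.PFD.D2b (FrR)

theorem bw_right {R V A : Type} [CommRing R] [CommGroup V] [Ring A] [Algebra R A] (α : V →* A)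
    (v : V) (a : A) : bw R α ((1 : V), v⁻¹) a = a * α v := by
  change α (1 : V) * (a * α (v⁻¹)⁻¹) = a * α v
  rw [map_one, one_mul, inv_inv]

theorem wtr : WtrStmt := by
  intro R V A K Ω _ _ _ _ _ _ _ _ _ α lam x y b c h κ f hrf hfr htz hκ hf
  obtain ⟨fb, fc, _⟩ := hfr
  have hb : ∀ (v : V) ω, b (((1 : V), v⁻¹) • ω) = b ω * α v := by
    intro v ω
    rw [fb, bw_right]
  have hc : ∀ (v : V) ω n, c (((1 : V), v⁻¹) • ω) n = c ω (n * α v⁻¹) := by
    intro v ω n
    rw [← fc ((1 : V), v⁻¹) ω (n * α v⁻¹), bw_right, mul_assoc, ← map_mul, inv_mul_cancel, map_one,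
      mul_one]
  set F : Ω → R := fun ω => κ ω * ∑ k, c ω (x k) * lam (y k * f (b ω)) with hF
  have h1 : ∀ v ω, F (((1 : V), v⁻¹) • ω) =
      κ ω * ∑ k, c ω (x k * α v⁻¹) * lam (α v * y k * f (b ω)) := by
    intro v ω
    rw [hF]
    simp only
    rw [hκ]
    congr 1
    refine Finset.sum_congr rfl fun k _ => ?_
    rw [hc, hb, hf, hrf.sym, mul_assoc (f (b ω)), hrf.sym]
  have h2 : ∀ ω, ∑ v : V, F (((1 : V), v⁻¹) • ω) = κ ω * c ω (f (b ω)) := by
    intro ω
    rw [Finset.sum_congr rfl fun v _ => h1 v ω, ← Finset.mul_sum, Finset.sum_comm]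
    congr 1
    conv_rhs => rw [← hrf.e1 (f (b ω))]
    rw [map_sum]
    refine Finset.sum_congr rfl fun k _ => ?_
    rw [map_sum]
    refine Fintype.sum_equiv (Equiv.inv V) _ _ fun v => ?_
    rw [Equiv.inv_apply, inv_inv, map_smul, smul_eq_mul, mul_comm]
  have h3 : ∑ ω, F ω = ∑ v : V, ∑ ω with h ω = 1, F (((1 : V), v⁻¹) • ω) := by
    rw [← Finset.sum_fiberwise Finset.univ h]
    refine Finset.sum_congr rfl fun v _ => ?_
    refine Finset.sum_bij' (fun ω _ => ((1 : V), v) • ω) (fun ω _ => ((1 : V), v⁻¹) • ω)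
      ?_ ?_ ?_ ?_ ?_
    · intro ω hω
      rw [Finset.mem_filter] at hω ⊢
      exact ⟨Finset.mem_univ _, by rw [htz, hω.2, mul_inv_cancel]⟩
    · intro ω hω
      rw [Finset.mem_filter] at hω ⊢
      exact ⟨Finset.mem_univ _, by rw [htz, hω.2, one_mul, inv_inv]⟩
    · intro ω _
      rw [smul_smul, Prod.mk_mul_mk, one_mul, inv_mul_cancel]
      exact one_smul _ _
    · intro ω _
      rw [smul_smul, Prod.mk_mul_mk, one_mul, mul_inv_cancel]
      exact one_smul _ _
    · intro ω _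
      rw [smul_smul, Prod.mk_mul_mk, one_mul, inv_mul_cancel]
      congr 1
      exact (one_smul _ _).symm
  rw [h3, Finset.sum_comm]
  exact Finset.sum_congr rfl fun ω _ => h2 ω

end Pool.Agent.PSS.S2.H52
end
end -- Pool.Agent.Helper52_PSS.WTR

section -- Pool.Agent.Helper56_PSS.FPS

/-!
# Squad PSS, row FPS: sums over the right orbits, fixed points of an `ℓ`-group
-/

set_option autoImplicit false

open scoped BigOperators

noncomputable section

namespace Pool.Agent.PSS.S2.H56

/-- The sum of an invariant function of a finite `ℓ`-group action, in characteristic `ℓ`. -/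
theorem sum_fixed {ℓ : ℕ} [Fact ℓ.Prime] {F G T : Type} [Field F] [CharP F ℓ] [Group G]
    [Fintype T] [MulAction G T] (hG : IsPGroup ℓ G) (g : T → F) (hg : ∀ (u : G) t, g (u • t) = g t)
    (P : T → Prop) [DecidablePred P] (hP : ∀ t, P t ↔ ∀ u : G, u • t = t) :
    ∑ t, g t = ∑ t with P t, g t := by
  classical
  have h1 : ∑ t, g t = ∑ s ∈ Finset.univ.image g,
      ((Finset.univ.filter fun t => g t = s).card : F) * s := by
    rw [← Finset.sum_fiberwise_of_maps_to (s := Finset.univ) (t := Finset.univ.image g) (g := g)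
      (fun t _ => Finset.mem_image_of_mem g (Finset.mem_univ t))]
    refine Finset.sum_congr rfl fun s _ => ?_
    rw [Finset.sum_congr rfl (g := fun _ => s) (fun t ht => (Finset.mem_filter.1 ht).2),
      Finset.sum_const, nsmul_eq_mul]
  have h2 : ∑ t with P t, g t = ∑ s ∈ Finset.univ.image g,
      (((Finset.univ.filter P).filter fun t => g t = s).card : F) * s := by
    rw [← Finset.sum_fiberwise_of_maps_to (s := Finset.univ.filter P)
      (t := Finset.univ.image g) (g := g)
      (fun t _ => Finset.mem_image_of_mem g (Finset.mem_univ t))]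
    refine Finset.sum_congr rfl fun s _ => ?_
    rw [Finset.sum_congr rfl (g := fun _ => s) (fun t ht => (Finset.mem_filter.1 ht).2),
      Finset.sum_const, nsmul_eq_mul]
  rw [h1, h2]
  refine Finset.sum_congr rfl fun s _ => ?_
  congr 1
  letI : MulAction G {t : T // g t = s} :=
    { smul := fun u t => ⟨u • t.1, by rw [hg, t.2]⟩
      one_smul := fun t => Subtype.ext (one_smul G t.1)
      mul_smul := fun u v t => Subtype.ext (mul_smul u v t.1) }
  have h3 := hG.card_modEq_card_fixedPoints {t : T // g t = s}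
  have h4 : Nat.card {t : T // g t = s} = (Finset.univ.filter fun t => g t = s).card := by
    rw [Nat.card_eq_fintype_card, Fintype.card_subtype]
  have h5 : Nat.card (MulAction.fixedPoints G {t : T // g t = s}) =
      ((Finset.univ.filter P).filter fun t => g t = s).card := by
    have e : MulAction.fixedPoints G {t : T // g t = s} ≃
        {t : T // t ∈ (Finset.univ.filter P).filter fun t => g t = s} :=
      { toFun := fun t => ⟨t.1.1, by
          rw [Finset.mem_filter, Finset.mem_filter]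
          refine ⟨⟨Finset.mem_univ _, (hP _).2 fun u => ?_⟩, t.1.2⟩
          exact congrArg Subtype.val (t.2 u)⟩
        invFun := fun t => ⟨⟨t.1, (Finset.mem_filter.1 t.2).2⟩, fun u => Subtype.ext
          ((hP _).1 (Finset.mem_filter.1 (Finset.mem_filter.1 t.2).1).2 u)⟩
        left_inv := fun t => rfl
        right_inv := fun t => rfl }
    rw [Nat.card_congr e, Nat.card_eq_fintype_card, Fintype.card_coe]
  rw [h4, h5] at h3
  exact (CharP.natCast_eq_natCast F ℓ).2 h3

section act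

variable {V Ω : Type} [CommGroup V] [MulAction (V × V) Ω]

/-- the representative of the right orbit -/
def nrm (h : Ω → V) (ω : Ω) : Ω := ((1 : V), h ω) • ω

theorem h_nrm {h : Ω → V} (hT : Tz h) (ω : Ω) : h (nrm h ω) = 1 := by
  unfold nrm
  rw [hT, mul_inv_cancel]

theorem nrm_right {h : Ω → V} (hT : Tz h) (v : V) (ω : Ω) :
    nrm h (((1 : V), v) • ω) = nrm h ω := by
  unfold nrm
  rw [hT, smul_smul, Prod.mk_mul_mk, one_mul, inv_mul_cancel_right]

theorem nrm_self {h : Ω → V} {ω : Ω} (h1 : h ω = 1) : nrm h ω = ω := by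
  unfold nrm
  rw [h1]
  exact one_smul (V × V) ω

theorem nrm_nrm {h : Ω → V} (hT : Tz h) (u : V) (ω : Ω) :
    nrm h ((u, (1 : V)) • nrm h ω) = nrm h ((u, (1 : V)) • ω) := by
  have h1 : (u, (1 : V)) • nrm h ω = ((1 : V), h ω) • ((u, (1 : V)) • ω) := by
    unfold nrm
    rw [smul_smul, smul_smul, mul_comm]
  rw [h1, nrm_right hT]

/-- the left action on the representatives of the right orbits -/
def lact {h : Ω → V} (hT : Tz h) : MulAction V {ω : Ω // h ω = 1} where
  smul := fun u ω => ⟨nrm h ((u, (1 : V)) • ω.1), h_nrm hT _⟩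
  one_smul := fun ω => Subtype.ext (by
    change nrm h (((1 : V), (1 : V)) • ω.1) = ω.1
    rw [nrm_right hT, nrm_self ω.2])
  mul_smul := fun u v ω => Subtype.ext (by
    change nrm h ((u * v, (1 : V)) • ω.1) = nrm h ((u, (1 : V)) • nrm h ((v, (1 : V)) • ω.1))
    rw [nrm_nrm hT, smul_smul, Prod.mk_mul_mk, one_mul])

theorem fix_iff {h : Ω → V} (hT : Tz h) (u : V) (ω : Ω) (h1 : h ω = 1) :
    nrm h ((u, (1 : V)) • ω) = ω ↔ ∃ v : V, (u, v) • ω = ω := by
  constructor
  · intro h2
    refine ⟨h ((u, (1 : V)) • ω), ?_⟩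
    unfold nrm at h2
    rwa [smul_smul, Prod.mk_mul_mk, one_mul, mul_one] at h2
  · rintro ⟨v, hv⟩
    have h2 : ((1 : V), v) • ((u, (1 : V)) • ω) = ω := by
      rw [smul_smul, Prod.mk_mul_mk, one_mul, mul_one, hv]
    rw [← nrm_right hT v, h2, nrm_self h1]

end act

/-- FPS. -/
theorem fps : FpsStmt := by
  intro ℓ _ F V Ω _ _ _ _ _ _ _ h g hV hT hg P _ hP
  letI := lact hT
  have h1 := sum_fixed (F := F) hV (fun ω : {ω : Ω // h ω = 1} => g ω.1) (fun u ω => by
    change g (nrm h ((u, (1 : V)) • ω.1)) = g ω.1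
    unfold nrm
    rw [hg, hg]) (fun ω => P ω.1) (fun ω => by
    rw [hP]
    refine forall_congr' fun u => ?_
    rw [← fix_iff hT u ω.1 ω.2]
    exact ⟨fun h => Subtype.ext h, fun h => congrArg Subtype.val h⟩)
  have h2 : ∑ ω with h ω = 1, g ω = ∑ ω : {ω : Ω // h ω = 1}, g ω.1 :=
    (Finset.sum_subtype (Finset.univ.filter fun ω => h ω = 1)
      (p := fun ω => h ω = 1) (fun ω => by simp) g)
  have h3 : ∑ ω with (h ω = 1 ∧ P ω), g ω =
      ∑ ω : {ω : Ω // h ω = 1} with P ω.1, g ω.1 := by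
    rw [Finset.sum_filter (s := (Finset.univ : Finset {ω : Ω // h ω = 1})),
      ← Finset.filter_filter, Finset.sum_filter (s := Finset.univ.filter fun ω => h ω = 1)]
    exact (Finset.sum_subtype (Finset.univ.filter fun ω => h ω = 1)
      (p := fun ω => h ω = 1) (fun ω => by simp) (fun ω => if P ω then g ω else 0))
  rw [h2, h3, h1]

end Pool.Agent.PSS.S2.H56
end
end -- Pool.Agent.Helper56_PSS.FPS

section -- Pool.Agent.Helper56_PSS.STR

/-!
# Squad PSS, row STR: left and right multiplication with the sum of the group have the same trace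
-/

set_option autoImplicit false

open scoped BigOperators

noncomputable section

namespace Pool.Agent.PSS.S2.H56

open Pool.Agent.PFC (tw IsTv)
open Pool.Agent.PFD.D2b (FrR)

theorem bw_apply' {R V A : Type} [CommRing R] [CommGroup V] [Ring A] [Algebra R A] (α : V →* A)
    (p : V × V) (a : A) : bw R α p a = α p.1 * (a * α p.2⁻¹) := rfl

theorem comm_al {V A : Type} [CommGroup V] [Ring A] (α : V →* A) (u v : V) :
    α u * α v = α v * α u := by
  rw [← map_mul, ← map_mul, mul_comm]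

theorem sg_comm {V A : Type} [CommGroup V] [Fintype V] [Ring A] (α : V →* A) (v : V) :
    α v * sg α = sg α * α v := by
  unfold sg
  rw [Finset.mul_sum, Finset.sum_mul]
  exact Finset.sum_congr rfl fun u _ => comm_al α v u

/-- the trace through the frame -/
theorem frame_trace {R V A K Ω : Type} [CommRing R] [CommGroup V] [Ring A]
    [Algebra R A] [Fintype K] [Fintype Ω] [MulAction (V × V) Ω] (α : V →* A)
    (lam : A →ₗ[R] R) (x y : K → A) (b : Ω → A) (c : Ω → (A →ₗ[R] R)) (f : A →ₗ[R] A)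
    (hb : FrR (bw R α) b c) :
    ∑ ω, (1 : R) * ∑ k, c ω (x k) * lam (y k * f (b ω)) = ∑ k, lam (y k * f (x k)) := by
  simp only [one_mul]
  rw [Finset.sum_comm]
  refine Finset.sum_congr rfl fun k _ => ?_
  conv_rhs => rw [← hb.2.2 (x k)]
  rw [map_sum, Finset.mul_sum, map_sum]
  refine Finset.sum_congr rfl fun ω _ => ?_
  rw [map_smul, mul_smul_comm, map_smul, smul_eq_mul]

/-- STR. -/
theorem str (htr : HtrStmt) (wtr : WtrStmt) (fps : FpsStmt) : StrStmt := by
  intro ℓ _ F V E A K Ω _ _ _ _ _ _ _ _ _ _ φ α lam x y b c f hV hRF hPr hfr hfl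
  classical
  obtain ⟨h, hT⟩ := htr F V E A Ω φ α b c hPr
  have hfr' := hPr.fr
  -- the two maps
  let f₁ : A →ₗ[F] A := (LinearMap.mulLeft F (sg α)).comp f
  let f₂ : A →ₗ[F] A := (LinearMap.mulRight F (sg α)).comp f
  have e1 := wtr F V A K Ω α lam x y b c h (fun _ => 1) f₁ hRF hfr' hT (fun _ _ => rfl)
    (fun a v => by
      change sg α * f (a * α v) = sg α * f a * α v
      rw [hfr, mul_assoc])
  have e2 := wtr F V A K Ω α lam x y b c h (fun _ => 1) f₂ hRF hfr' hT (fun _ _ => rfl)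
    (fun a v => by
      change f (a * α v) * sg α = f a * sg α * α v
      rw [hfr, mul_assoc, sg_comm, mul_assoc])
  rw [frame_trace α lam x y b c f₁ hfr'] at e1
  rw [frame_trace α lam x y b c f₂ hfr'] at e2
  have k1 : ∑ k, lam (y k * (sg α * f (x k))) =
      ∑ ω with h ω = 1, ∑ u, c ω (α u * f (b ω)) := by
    refine e1.trans (Finset.sum_congr rfl fun ω _ => ?_)
    rw [one_mul]
    change c ω (sg α * f (b ω)) = _
    unfold sg
    rw [Finset.sum_mul, map_sum]
  have k2 : ∑ k, lam (y k * (f (x k) * sg α)) =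
      ∑ ω with h ω = 1, ∑ v, c ω (f (b ω) * α v) := by
    refine e2.trans (Finset.sum_congr rfl fun ω _ => ?_)
    rw [one_mul]
    change c ω (f (b ω) * sg α) = _
    unfold sg
    rw [Finset.mul_sum, map_sum]
  have hfb : ∀ (p : V × V) ω, f (b (p • ω)) = bw F α p (f (b ω)) := by
    intro p ω
    rw [hfr'.1, bw_apply', bw_apply', hfl, hfr]
  have i1 : ∀ (p : V × V) ω, ∑ u, c (p • ω) (α u * f (b (p • ω))) =
      ∑ u, c ω (α u * f (b ω)) := by
    intro p ω
    refine Finset.sum_congr rfl fun u _ => ?_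
    rw [← hfr'.2.1 p ω (α u * f (b ω)), hfb]
    congr 1
    rw [bw_apply', bw_apply', ← mul_assoc, comm_al α u p.1, mul_assoc, mul_assoc]
  have i2 : ∀ (p : V × V) ω, ∑ v, c (p • ω) (f (b (p • ω)) * α v) =
      ∑ v, c ω (f (b ω) * α v) := by
    intro p ω
    refine Finset.sum_congr rfl fun u _ => ?_
    rw [← hfr'.2.1 p ω (f (b ω) * α u), hfb]
    congr 1
    rw [bw_apply', bw_apply', mul_assoc, mul_assoc, mul_assoc, comm_al α p.2⁻¹ u]
  rw [k1, k2, fps ℓ F V Ω h (fun ω => ∑ u, c ω (α u * f (b ω))) hV hT i1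
      (fun ω => ∀ u : V, ∃ v : V, (u, v) • ω = ω) (fun _ => Iff.rfl),
    fps ℓ F V Ω h (fun ω => ∑ v, c ω (f (b ω) * α v)) hV hT i2
      (fun ω => ∀ u : V, ∃ v : V, (u, v) • ω = ω) (fun _ => Iff.rfl)]
  refine Finset.sum_congr rfl fun ω hω => ?_
  obtain ⟨-, hP⟩ := (Finset.mem_filter.1 hω).2
  obtain ⟨e, S, hst⟩ := hPr.st ω
  have hv : ∀ v : V, (φ e v, v) • ω = ω := by
    intro v
    obtain ⟨v', hv'⟩ := hP (φ e v)
    have h1 : (φ e v, v') ∈ MulAction.stabilizer (V × V) ω := hv'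
    rw [hst] at h1
    obtain ⟨s, -, hs⟩ := h1
    have h2 : φ e s = φ e v := congrArg Prod.fst hs
    have h3 : s = v' := congrArg Prod.snd hs
    have h4 : s = v := (φ e).injective h2
    rw [← h3, h4] at hv'
    exact hv'
  have hbv : ∀ v : V, α (φ e v) * b ω = b ω * α v := by
    intro v
    have h1 : b ω = α (φ e v) * (b ω * α v⁻¹) := by
      conv_lhs => rw [← hv v, hfr'.1]
      rfl
    calc α (φ e v) * b ω = α (φ e v) * (b ω * (α v⁻¹ * α v)) := by
          rw [← map_mul, inv_mul_cancel, map_one, mul_one]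
      _ = α (φ e v) * (b ω * α v⁻¹) * α v := by simp only [mul_assoc]
      _ = b ω * α v := by rw [← h1]
  have hfv : ∀ v : V, f (b ω) * α v = α (φ e v) * f (b ω) := by
    intro v
    rw [← hfr, ← hbv, hfl]
  simp only [hfv]
  exact (Equiv.sum_comp (φ e).toEquiv fun u => c ω (α u * f (b ω))).symm

end Pool.Agent.PSS.S2.H56
end
end -- Pool.Agent.Helper56_PSS.STR

section -- Pool.Agent.Helper68_PSS.SPI

/-!
# Squad PSS, row SPI
-/

open scoped BigOperators Polynomial

noncomputable section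

namespace Pool.Agent.PSS.H68

open Pool.Agent.PSS.S2
open Polynomial

theorem spi_dvd {F : Type} [Field F] (T : Finset F) (f : F[X]) (h : ∀ t ∈ T, f.eval t = 0) :
    (∏ t ∈ T, (X - C t)) ∣ f := by
  classical
  refine Finset.prod_dvd_of_coprime ?_ ?_
  · intro i _ j _ hij
    exact pairwise_coprime_X_sub_C (s := fun t : F => t) Function.injective_id hij
  · intro t ht
    exact dvd_iff_isRoot.mpr (h t ht)

theorem spi_interp {F A : Type} [Field F] [Ring A] [Algebra F A] (T : Finset F) (s : A)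
    (hs : aeval s (∏ t ∈ T, (X - C t)) = 0) [DecidableEq F] :
    (s = ∑ t ∈ T, t • aeval s (Lagrange.basis T id t)) ∧
      ∀ t ∈ T, aeval s (Lagrange.basis T id t) * aeval s (Lagrange.basis T id t) =
        aeval s (Lagrange.basis T id t) := by
  have hev : ∀ i ∈ T, ∀ t ∈ T, (Lagrange.basis T id i).eval t = if i = t then 1 else 0 := by
    intro i hi t ht
    split_ifs with h
    · subst h
      exact Lagrange.eval_basis_self (v := id) (Function.injective_id.injOn) hi
    · exact Lagrange.eval_basis_of_ne (v := id) h ht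
  have key : ∀ f : F[X], (∀ t ∈ T, f.eval t = 0) → aeval s f = 0 := by
    intro f hf
    obtain ⟨g, hg⟩ := spi_dvd T f hf
    rw [hg, map_mul, hs, zero_mul]
  constructor
  · have h := key (X - ∑ t ∈ T, C t * Lagrange.basis T id t) (by
      intro t ht
      rw [eval_sub, eval_X, eval_finsetSum]
      simp only [eval_mul, eval_C]
      rw [Finset.sum_congr rfl (fun i hi => by rw [hev i hi t ht])]
      simp [ht])
    rw [map_sub, aeval_X, sub_eq_zero, map_sum] at h
    refine h.trans (Finset.sum_congr rfl ?_)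
    intro t _
    rw [map_mul, aeval_C, ← Algebra.smul_def]
  · intro i hi
    have h := key (Lagrange.basis T id i * Lagrange.basis T id i - Lagrange.basis T id i) (by
      intro t ht
      rw [eval_sub, eval_mul, hev i hi t ht]
      split_ifs <;> simp)
    rw [map_sub, map_mul, sub_eq_zero] at h
    exact h

theorem spi_jc {F A : Type} [Field F] [IsAlgClosed F] [Ring A] [Algebra F A]
    [FiniteDimensional F A] (a : A) :
    ∃ (T : Finset F) (g : F[X]), aeval (aeval a g) (∏ t ∈ T, (X - C t)) = 0 ∧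
      IsNilpotent (a - aeval a g) := by
  classical
  have hint : IsIntegral F a := Algebra.IsIntegral.isIntegral a
  set p := minpoly F a with hp
  have hp0 : p ≠ 0 := minpoly.ne_zero hint
  have hmon : p.Monic := minpoly.monic hint
  set T := p.roots.toFinset with hT
  set q : F[X] := ∏ t ∈ T, (X - C t) with hq
  have hspl : p = (p.roots.map (fun t => X - C t)).prod :=
    (IsAlgClosed.splits p).eq_prod_roots_of_monic hmon
  have hdvd : p ∣ q ^ p.natDegree := by
    have h1 : p = ∏ t ∈ T, (X - C t) ^ p.roots.count t := by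
      conv_lhs => rw [hspl]
      rw [Finset.prod_multiset_map_count]
    rw [hq, ← Finset.prod_pow]
    conv_lhs => rw [h1]
    refine Finset.prod_dvd_prod_of_dvd _ _ ?_
    intro t _
    refine pow_dvd_pow _ ?_
    exact (Multiset.count_le_card _ _).trans (card_roots' p)
  have hx : ∀ f : F[X], aeval (AdjoinRoot.root p) f = AdjoinRoot.mk p f := fun f =>
    AdjoinRoot.aeval_eq f
  have hnil : IsNilpotent (aeval (AdjoinRoot.root p) q) := by
    refine ⟨p.natDegree, ?_⟩
    rw [← map_pow, hx, AdjoinRoot.mk_eq_zero]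
    exact hdvd
  have hsep : q.Separable := by
    rw [hq]
    exact separable_prod_X_sub_C_iff'.mpr (fun x _ y _ h => h)
  have hunit : IsUnit (aeval (AdjoinRoot.root p) (derivative q)) := by
    obtain ⟨u, v, huv⟩ := hsep
    have h := congrArg (aeval (AdjoinRoot.root p)) huv
    rw [map_add, map_mul, map_mul, map_one] at h
    have h2 : aeval (AdjoinRoot.root p) v * aeval (AdjoinRoot.root p) (derivative q) =
        1 - aeval (AdjoinRoot.root p) u * aeval (AdjoinRoot.root p) q := by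
      linear_combination h
    have h3 : IsUnit (aeval (AdjoinRoot.root p) v * aeval (AdjoinRoot.root p) (derivative q)) := by
      rw [h2]
      exact (Commute.isNilpotent_mul_left (Commute.all _ _) hnil).isUnit_one_sub
    exact isUnit_of_mul_isUnit_right h3
  obtain ⟨r, ⟨hr1, hr2⟩, -⟩ := existsUnique_nilpotent_sub_and_aeval_eq_zero hnil hunit
  obtain ⟨g, rfl⟩ := AdjoinRoot.mk_surjective r
  have hmk : ∀ f : F[X], AdjoinRoot.mk p f = 0 → aeval a f = 0 := by
    intro f hf
    obtain ⟨k, hk⟩ := AdjoinRoot.mk_eq_zero.mp hf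
    rw [hk, map_mul, hp, minpoly.aeval, zero_mul]
  refine ⟨T, g, ?_, ?_⟩
  · rw [← hq, ← aeval_comp]
    refine hmk _ ?_
    rw [← hx, aeval_comp, hx]
    exact hr2
  · obtain ⟨n, hn⟩ := hr1
    refine ⟨n, ?_⟩
    have h1 : AdjoinRoot.mk p ((X - g) ^ n) = 0 := by
      rw [map_pow, map_sub, AdjoinRoot.mk_X]
      exact hn
    have h2 := hmk _ h1
    rw [map_pow, map_sub, aeval_X] at h2
    exact h2

theorem spi : SpiStmt := by
  intro F A _ _ _ _ _ a
  classical
  obtain ⟨T, g, hT, hnil⟩ := spi_jc (F := F) a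
  obtain ⟨h1, h2⟩ := spi_interp T (aeval a g) hT
  refine ⟨T.card, fun i => (T.equivFin.symm i : F),
    fun i => aeval (aeval a g) (Lagrange.basis T id (T.equivFin.symm i : F)), a - aeval a g,
    ?_, ?_, hnil, ?_⟩
  · have h3 : ∑ i : Fin T.card, (T.equivFin.symm i : F) •
        aeval (aeval a g) (Lagrange.basis T id (T.equivFin.symm i : F)) = aeval a g := by
      rw [T.equivFin.symm.sum_comp (fun t : T => (t : F) •
        aeval (aeval a g) (Lagrange.basis T id (t : F)))]
      conv_rhs => rw [h1]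
      exact Finset.sum_coe_sort T (fun t => t • aeval (aeval a g) (Lagrange.basis T id t))
    rw [h3]
    abel
  · intro i
    refine ⟨h2 _ (T.equivFin.symm i).2, ?_⟩
    change aeval (aeval a g) (Lagrange.basis T id (T.equivFin.symm i : F)) ∈ _
    rw [← aeval_comp]
    exact aeval_mem_adjoin_singleton F a
  · exact Subalgebra.sub_mem _ (Algebra.subset_adjoin rfl) (aeval_mem_adjoin_singleton F a)

end Pool.Agent.PSS.H68
end
end -- Pool.Agent.Helper68_PSS.SPI

section -- Pool.Agent.Helper68_PSS.TRC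

/-!
# Squad PSS, row TRC
-/

open scoped BigOperators

noncomputable section

namespace Pool.Agent.PSS.H68

open Pool.Agent.PSS.S2

theorem cg_chi_one {R V A : Type} [CommRing R] [CommGroup V] [Ring A] [Algebra R A]
    {q : R} {α : V →* A} {χ : V → R} {N : A →ₗ[R] A} (hN : Cn q α χ N) : ∃ d, χ 1 = q * d := by
  obtain ⟨d, hd⟩ := hN.add 1 1
  refine ⟨-d, ?_⟩
  rw [mul_one, smul_eq_mul] at hd
  linear_combination -hd

theorem cg_chi_inv {R V A : Type} [CommRing R] [CommGroup V] [Ring A] [Algebra R A]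
    {q : R} {α : V →* A} {χ : V → R} {N : A →ₗ[R] A} (hN : Cn q α χ N) (z : V)
    (hz : Cg q (χ z) 1) : ∃ d, χ z⁻¹ = -1 + q * d := by
  obtain ⟨d, hd⟩ := hN.add z⁻¹ z
  obtain ⟨d1, hd1⟩ := cg_chi_one hN
  obtain ⟨d2, hd2⟩ := hz
  refine ⟨d1 - d2 - d, ?_⟩
  rw [inv_mul_cancel, smul_eq_mul] at hd
  rw [smul_eq_mul] at hd2
  linear_combination hd1 - hd2 - hd

theorem trc (hD : DtrStmt) : TrcStmt := by
  intro R V A K _ _ _ _ _ _ q α z lam x y χ N hRF hN hz a
  obtain ⟨dz, hdz⟩ := cg_chi_inv hN z hz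
  set g : A →ₗ[R] A := (LinearMap.mulRight R (1 - α z⁻¹)).comp (LinearMap.mulLeft R a) with hg
  have hga : ∀ b, g b = a * b * (1 - α z⁻¹) := fun b => rfl
  have hcomm : ∀ v, α v * (1 - α z⁻¹) = (1 - α z⁻¹) * α v := by
    intro v
    rw [mul_sub, sub_mul, mul_one, one_mul, ← map_mul, ← map_mul, mul_comm]
  have hgl : RLq q α g := by
    intro b v
    refine ⟨0, ?_⟩
    rw [smul_zero, sub_eq_zero, hga, hga, ← mul_assoc a b, mul_assoc (a * b), hcomm, ← mul_assoc]
  obtain ⟨d0, hd0⟩ := hD R V A K q α lam x y χ N g hRF hN hgl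
  choose e he using fun k => hN.lin (a * x k) z⁻¹
  have h1 : ∀ k, N (g (x k)) - g (N (x k)) =
      (N (a * x k) - a * N (x k)) * (1 - α z⁻¹) - χ z⁻¹ • (a * x k * α z⁻¹) - q • e k := by
    intro k
    rw [← he k, hga, hga, mul_sub, mul_one, map_sub]
    noncomm_ring
  have h2 : ∀ k, lam (y k * (N (g (x k)) - g (N (x k)))) =
      lam ((N (a * x k) - a * N (x k)) * ((1 - α z⁻¹) * y k)) -
        χ z⁻¹ * lam (a * (x k * α z⁻¹ * y k)) - q * lam (y k * e k) := by
    intro k
    rw [h1 k, mul_sub, mul_sub, map_sub, map_sub, mul_smul_comm, mul_smul_comm, map_smul, map_smul,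
      smul_eq_mul, smul_eq_mul, hRF.sym (y k) _, hRF.sym (y k) (a * x k * α z⁻¹)]
    simp only [mul_assoc]
  rw [sub_zero, Finset.sum_congr rfl (fun k _ => h2 k), Finset.sum_sub_distrib,
    Finset.sum_sub_distrib, ← Finset.mul_sum, ← Finset.mul_sum, ← map_sum, ← map_sum,
    ← Finset.mul_sum, ← gz_apply] at hd0
  refine ⟨d0 + ∑ k, lam (y k * e k) + dz * lam (a * rt x y (α z⁻¹)), ?_⟩
  have h3 : rt x y (α z⁻¹) = ∑ k, x k * α z⁻¹ * y k := by
    simp [rt]
  rw [h3]
  rw [smul_eq_mul] at hd0 ⊢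
  rw [hdz] at hd0
  linear_combination hd0

end Pool.Agent.PSS.H68
end
end -- Pool.Agent.Helper68_PSS.TRC

section -- Pool.Agent.Helper69_PSS.STV

/-!
# Squad PSS, row STV (helper69): one step of the lift of the multiplication
-/

open scoped BigOperators TensorProduct

noncomputable section

namespace Pool.Agent.PSS.H69

open Pool.Agent.PFD.D2 (Cdv FibG)
open Pool.Agent.PFD.D2b (FrR)
open Finset

theorem bw1 {F V A : Type} [Field F] [CommGroup V] [Ring A] [Algebra F A] (α : V →* A) (g : V)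
    (a : A) : bw F α (g, 1) a = α g * a := by
  change α g * (a * α (1 : V)⁻¹) = α g * a
  rw [inv_one, map_one, mul_one]

theorem bw2 {F V A : Type} [Field F] [CommGroup V] [Ring A] [Algebra F A] (α : V →* A) (g : V)
    (a : A) : bw F α (1, g) a = a * α g⁻¹ := by
  change α 1 * (a * α g⁻¹) = a * α g⁻¹
  rw [map_one, one_mul]

theorem stv : StvStmt := by
  intro R F V A M K _ _ _ c _ _ _ _ _ _ _ _ α u v hC ρ q hq hL β n hn hβ hβq hasr
  choose w hw using hasr
  obtain ⟨h1, h2, h3⟩ := hβ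
  have hπ : c.π ≠ 0 := by
    intro h0
    have := c.reg 1 (by rw [h0, zero_mul])
    exact one_ne_zero this
  have hinj : ∀ a b : M, c.π ^ n • a = c.π ^ n • b → a = b := fun a b h =>
    smul_right_injective M (pow_ne_zero n hπ) h
  have hκ : c.κ c.π = 0 := (c.ker c.π).mpr ⟨1, (mul_one _).symm⟩
  have hqs : ∀ (r : R) x, q (r • x) = c.κ r • q x := hq.sc
  -- multilinearity
  have wa1 : ∀ x x' y z, w (x + x') y z = w x y z + w x' y z := by
    intro x x' y z
    apply hinj
    rw [smul_add, ← hw, ← hw, ← hw]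
    simp only [asr, map_add, LinearMap.add_apply]
    abel
  have wa2 : ∀ x y y' z, w x (y + y') z = w x y z + w x y' z := by
    intro x y y' z
    apply hinj
    rw [smul_add, ← hw, ← hw, ← hw]
    simp only [asr, map_add, LinearMap.add_apply]
    abel
  have wa3 : ∀ x y z z', w x y (z + z') = w x y z + w x y z' := by
    intro x y z z'
    apply hinj
    rw [smul_add, ← hw, ← hw, ← hw]
    simp only [asr, map_add]
    abel
  have ws1 : ∀ (r : R) x y z, w (r • x) y z = r • w x y z := by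
    intro r x y z
    apply hinj
    rw [smul_comm, ← hw, ← hw]
    simp only [asr, map_smul, LinearMap.smul_apply, smul_sub]
  have ws2 : ∀ (r : R) x y z, w x (r • y) z = r • w x y z := by
    intro r x y z
    apply hinj
    rw [smul_comm, ← hw, ← hw]
    simp only [asr, map_smul, LinearMap.smul_apply, smul_sub]
  have ws3 : ∀ (r : R) x y z, w x y (r • z) = r • w x y z := by
    intro r x y z
    apply hinj
    rw [smul_comm, ← hw, ← hw]
    simp only [asr, map_smul, smul_sub]
  -- the reduction depends only on the reductions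
  have hd : ∀ x x', q x = q x' → ∃ t, x = x' + c.π • t := by
    intro x x' h
    have h0 : q (x - x') = 0 := by rw [map_sub, h, sub_self]
    obtain ⟨t, ht⟩ := (hq.kr _).mp h0
    exact ⟨t, by rw [← ht]; abel⟩
  have hz : ∀ t, q (c.π • t) = 0 := by
    intro t
    rw [hqs, hκ, zero_smul]
  have d1' : ∀ x x' y z, q x = q x' → q (w x y z) = q (w x' y z) := by
    intro x x' y z h
    obtain ⟨t, rfl⟩ := hd x x' h
    rw [wa1, ws1, map_add, hz, add_zero]
  have d2' : ∀ x y y' z, q y = q y' → q (w x y z) = q (w x y' z) := by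
    intro x y y' z h
    obtain ⟨t, rfl⟩ := hd y y' h
    rw [wa2, ws2, map_add, hz, add_zero]
  have d3' : ∀ x y z z', q z = q z' → q (w x y z) = q (w x y z') := by
    intro x y z z' h
    obtain ⟨t, rfl⟩ := hd z z' h
    rw [wa3, ws3, map_add, hz, add_zero]
  -- the reduction
  set s : A → M := Function.surjInv hq.sj with hs0
  have hs : ∀ a, q (s a) = a := Function.surjInv_eq hq.sj
  set W : A → A → A → A := fun a b d => q (w (s a) (s b) (s d)) with hW0
  have hW : ∀ x y z, W (q x) (q y) (q z) = q (w x y z) := by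
    intro x y z
    change q (w (s (q x)) (s (q y)) (s (q z))) = q (w x y z)
    rw [d1' _ x _ _ (hs _), d2' _ _ y _ (hs _), d3' _ _ _ z (hs _)]
  clear_value W s
  have Wa1 : ∀ a a' b d, W (a + a') b d = W a b d + W a' b d := by
    intro a a' b d
    obtain ⟨a, rfl⟩ := hq.sj a
    obtain ⟨a', rfl⟩ := hq.sj a'
    obtain ⟨b, rfl⟩ := hq.sj b
    obtain ⟨d, rfl⟩ := hq.sj d
    rw [← map_add, hW, hW, hW, wa1, map_add]
  have Wa2 : ∀ a b b' d, W a (b + b') d = W a b d + W a b' d := by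
    intro a b b' d
    obtain ⟨a, rfl⟩ := hq.sj a
    obtain ⟨b', rfl⟩ := hq.sj b'
    obtain ⟨b, rfl⟩ := hq.sj b
    obtain ⟨d, rfl⟩ := hq.sj d
    rw [← map_add, hW, hW, hW, wa2, map_add]
  have Wa3 : ∀ a b d d', W a b (d + d') = W a b d + W a b d' := by
    intro a b d d'
    obtain ⟨a, rfl⟩ := hq.sj a
    obtain ⟨d', rfl⟩ := hq.sj d'
    obtain ⟨b, rfl⟩ := hq.sj b
    obtain ⟨d, rfl⟩ := hq.sj d
    rw [← map_add, hW, hW, hW, wa3, map_add]
  have Ws1 : ∀ (r : F) a b d, W (r • a) b d = r • W a b d := by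
    intro r a b d
    obtain ⟨r, rfl⟩ := c.surj r
    obtain ⟨a, rfl⟩ := hq.sj a
    obtain ⟨b, rfl⟩ := hq.sj b
    obtain ⟨d, rfl⟩ := hq.sj d
    rw [← hqs, hW, hW, ws1, hqs]
  have Ws2 : ∀ (r : F) a b d, W a (r • b) d = r • W a b d := by
    intro r a b d
    obtain ⟨r, rfl⟩ := c.surj r
    obtain ⟨a, rfl⟩ := hq.sj a
    obtain ⟨b, rfl⟩ := hq.sj b
    obtain ⟨d, rfl⟩ := hq.sj d
    rw [← hqs, hW, hW, ws2, hqs]
  have Ws3 : ∀ (r : F) a b d, W a b (r • d) = r • W a b d := by
    intro r a b d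
    obtain ⟨r, rfl⟩ := c.surj r
    obtain ⟨a, rfl⟩ := hq.sj a
    obtain ⟨b, rfl⟩ := hq.sj b
    obtain ⟨d, rfl⟩ := hq.sj d
    rw [← hqs, hW, hW, ws3, hqs]
  -- relative
  have wg1 : ∀ g x y z, w (ρ (g, 1) x) y z = ρ (g, 1) (w x y z) := by
    intro g x y z
    apply hinj
    rw [← map_smul, ← hw, ← hw]
    simp only [asr, h1, map_sub]
  have wg2 : ∀ g x y z, w (ρ (1, g) x) y z = w x (ρ (g⁻¹, 1) y) z := by
    intro g x y z
    apply hinj
    rw [← hw, ← hw]
    simp only [asr, h2, h1]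
  have wg3 : ∀ g x y z, w x (ρ (1, g) y) z = w x y (ρ (g⁻¹, 1) z) := by
    intro g x y z
    apply hinj
    rw [← hw, ← hw]
    simp only [asr, h3, h2]
  have wg4 : ∀ g x y z, w x y (ρ (1, g) z) = ρ (1, g) (w x y z) := by
    intro g x y z
    apply hinj
    rw [← map_smul, ← hw, ← hw]
    simp only [asr, h3, map_sub]
  have Wg1 : ∀ g a b d, W (α g * a) b d = α g * W a b d := by
    intro g a b d
    obtain ⟨a, rfl⟩ := hq.sj a
    obtain ⟨b, rfl⟩ := hq.sj b
    obtain ⟨d, rfl⟩ := hq.sj d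
    rw [← bw1 (F := F), ← hq.eq, hW, hW, wg1, hq.eq, bw1]
  have Wg2 : ∀ g a b d, W (a * α g) b d = W a (α g * b) d := by
    intro g a b d
    obtain ⟨a, rfl⟩ := hq.sj a
    obtain ⟨b, rfl⟩ := hq.sj b
    obtain ⟨d, rfl⟩ := hq.sj d
    have e1 : q a * α g = q (ρ (1, g⁻¹) a) := by rw [hq.eq, bw2, inv_inv]
    have e2 : α g * q b = q (ρ (g, 1) b) := by rw [hq.eq, bw1]
    rw [e1, e2, hW, hW, wg2, inv_inv]
  have Wg3 : ∀ g a b d, W a (b * α g) d = W a b (α g * d) := by
    intro g a b d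
    obtain ⟨a, rfl⟩ := hq.sj a
    obtain ⟨b, rfl⟩ := hq.sj b
    obtain ⟨d, rfl⟩ := hq.sj d
    have e1 : q b * α g = q (ρ (1, g⁻¹) b) := by rw [hq.eq, bw2, inv_inv]
    have e2 : α g * q d = q (ρ (g, 1) d) := by rw [hq.eq, bw1]
    rw [e1, e2, hW, hW, wg3, inv_inv]
  have Wg4 : ∀ g a b d, W a b (d * α g) = W a b d * α g := by
    intro g a b d
    obtain ⟨a, rfl⟩ := hq.sj a
    obtain ⟨b, rfl⟩ := hq.sj b
    obtain ⟨d, rfl⟩ := hq.sj d
    have e1 : q d * α g = q (ρ (1, g⁻¹) d) := by rw [hq.eq, bw2, inv_inv]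
    rw [e1, hW, hW, wg4, hq.eq, bw2, inv_inv]
  -- the cocycle identity
  have wid : ∀ x y z t, β x (w y z t) + w x (β y z) t + β (w x y z) t =
      w (β x y) z t + w x y (β z t) := by
    intro x y z t
    apply hinj
    have e1 : c.π ^ n • β x (w y z t) = β x (asr β y z t) := by rw [hw, map_smul]
    have e3 : c.π ^ n • β (w x y z) t = β (asr β x y z) t := by
      rw [hw, map_smul, LinearMap.smul_apply]
    rw [smul_add, smul_add, smul_add, e1, e3, ← hw, ← hw, ← hw]
    simp only [asr, map_sub, LinearMap.sub_apply]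
    abel
  have Wid : ∀ a b d e, a * W b d e + W a (b * d) e + W a b d * e =
      W (a * b) d e + W a b (d * e) := by
    intro a b d e
    obtain ⟨a, rfl⟩ := hq.sj a
    obtain ⟨b, rfl⟩ := hq.sj b
    obtain ⟨d, rfl⟩ := hq.sj d
    obtain ⟨e, rfl⟩ := hq.sj e
    rw [← hβq, ← hβq, ← hβq, hW, hW, hW, hW, hW, ← hβq, ← hβq, ← map_add, ← map_add, ← map_add,
      wid]
  -- the homotopy
  obtain ⟨hC1, hC2⟩ := hC
  have hcas : ∀ a b d, ∑ i, d * u i * W (v i) a b = ∑ i, u i * W (v i * d) a b := by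
    intro a b d
    have h := hC2 A (LinearMap.mk₂ F (fun a' b' => a' * W b' a b)
      (fun m₁ m₂ n => add_mul _ _ _) (fun r m n => smul_mul_assoc _ _ _)
      (fun m n₁ n₂ => by rw [Wa1, mul_add]) (fun r m n => by rw [Ws1, mul_smul_comm]))
      (fun a' g b' => by
        simp only [LinearMap.mk₂_apply]
        rw [Wg1, mul_assoc]) d
    simpa only [LinearMap.mk₂_apply] using h
  set ν₀ : A →ₗ[F] A →ₗ[F] A := LinearMap.mk₂ F (fun a b => ∑ i, u i * W (v i) a b)
    (fun m₁ m₂ n => by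
      rw [← Finset.sum_add_distrib]
      exact Finset.sum_congr rfl fun i _ => by rw [Wa2, mul_add])
    (fun r m n => by
      rw [Finset.smul_sum]
      exact Finset.sum_congr rfl fun i _ => by rw [Ws2, mul_smul_comm])
    (fun m n₁ n₂ => by
      rw [← Finset.sum_add_distrib]
      exact Finset.sum_congr rfl fun i _ => by rw [Wa3, mul_add])
    (fun r m n => by
      rw [Finset.smul_sum]
      exact Finset.sum_congr rfl fun i _ => by rw [Ws3, mul_smul_comm]) with hν₀
  have hν₀a : ∀ a b, ν₀ a b = ∑ i, u i * W (v i) a b := fun a b => rfl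
  clear_value ν₀
  have hRB : RB (bw F α) ν₀ := by
    refine ⟨?_, ?_, ?_⟩
    · intro g x y
      rw [bw1, bw1, hν₀a, hν₀a, Finset.mul_sum]
      have e1 : ∀ i, u i * W (v i) (α g * x) y = u i * W (v i * α g) x y := by
        intro i
        rw [Wg2]
      rw [Finset.sum_congr rfl fun i _ => e1 i, ← hcas]
      exact Finset.sum_congr rfl fun i _ => mul_assoc _ _ _
    · intro g x y
      rw [bw1, bw2, hν₀a, hν₀a]
      exact Finset.sum_congr rfl fun i _ => by rw [Wg3]
    · intro g x y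
      rw [bw2, bw2, hν₀a, hν₀a, Finset.sum_mul]
      exact Finset.sum_congr rfl fun i _ => by rw [Wg4, mul_assoc]
  have hcob : ∀ a b d, a * ν₀ b d + ν₀ a (b * d) = W a b d + ν₀ (a * b) d + ν₀ a b * d := by
    intro a b d
    have e0 : a * ν₀ b d = ∑ i, u i * W (v i * a) b d := by
      rw [hν₀a, ← hcas, Finset.mul_sum]
      exact Finset.sum_congr rfl fun i _ => (mul_assoc _ _ _).symm
    have e1 : W a b d = ∑ i, u i * (v i * W a b d) := by
      have : ∑ i, u i * (v i * W a b d) = (∑ i, u i * v i) * W a b d := by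
        rw [Finset.sum_mul]
        exact Finset.sum_congr rfl fun i _ => (mul_assoc _ _ _).symm
      rw [this, hC1, one_mul]
    rw [e0, e1, hν₀a, hν₀a, hν₀a, Finset.sum_mul, ← Finset.sum_add_distrib,
      ← Finset.sum_add_distrib, ← Finset.sum_add_distrib]
    refine Finset.sum_congr rfl fun i _ => ?_
    rw [mul_assoc (u i) (W (v i) a b) d, ← mul_add, ← mul_add, ← mul_add, Wid]
  obtain ⟨ν, hν, hνq⟩ := hL ν₀ hRB
  refine ⟨ν, hν, fun x y z => ?_⟩
  set T : M := w x y z + (β (ν x y) z + ν (β x y) z - β x (ν y z) - ν x (β y z)) +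
    c.π ^ n • (ν (ν x y) z - ν x (ν y z)) with hT0
  have hT : q T = 0 := by
    have hκn : c.κ (c.π ^ n) = 0 := by
      rw [map_pow, hκ, zero_pow (by omega)]
    rw [hT0, map_add, map_add, map_sub, map_sub, map_add, hqs, hκn, zero_smul, add_zero,
      hβq, hβq, hνq, hνq, hνq, hνq, hβq, hβq, ← hW]
    have h := hcob (q x) (q y) (q z)
    have h' : W (q x) (q y) (q z) + (ν₀ (q x) (q y) * q z + ν₀ (q x * q y) (q z) -
        q x * ν₀ (q y) (q z) - ν₀ (q x) (q y * q z)) =
        (W (q x) (q y) (q z) + ν₀ (q x * q y) (q z) + ν₀ (q x) (q y) * q z) -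
        (q x * ν₀ (q y) (q z) + ν₀ (q x) (q y * q z)) := by abel
    rw [h', h, sub_self]
  obtain ⟨t, ht⟩ := (hq.kr T).mp hT
  refine ⟨t, ?_⟩
  have hexp : asr (β + c.π ^ n • ν) x y z = c.π ^ n • T := by
    have h5 := hw x y z
    have h6 : β (β x y) z = β x (β y z) + c.π ^ n • w x y z := by
      rw [← h5, asr]
      abel
    rw [hT0]
    simp only [asr, LinearMap.add_apply, LinearMap.smul_apply, map_add, map_smul]
    rw [h6]
    module
  rw [hexp, ht, smul_smul, ← pow_succ]

end Pool.Agent.PSS.H69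
end
end -- Pool.Agent.Helper69_PSS.STV

section -- Pool.Agent.Helper6_PSS.VDR

/-!
# Squad PSS, row VDR (helper6): the direction over `R`
-/

open scoped BigOperators

noncomputable section

namespace Pool.Agent.PSS.H6

open Pool.Agent.PSS.S2
open Pool.Agent.PFC (tw IsTv)
open Pool.Agent.PFD.D2b (FrR)

section cg

variable {R M : Type} [CommRing R] [AddCommGroup M] [Module R M]

theorem cg_refl (q : R) (a : M) : Cg q a a := ⟨0, by simp⟩

theorem cg_symm {q : R} {a b : M} (h : Cg q a b) : Cg q b a := by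
  obtain ⟨d, hd⟩ := h
  exact ⟨-d, by rw [smul_neg, ← hd]; abel⟩

theorem cg_trans {q : R} {a b c : M} (h : Cg q a b) (h' : Cg q b c) : Cg q a c := by
  obtain ⟨d, hd⟩ := h
  obtain ⟨e, he⟩ := h'
  exact ⟨d + e, by rw [smul_add, ← hd, ← he]; abel⟩

theorem cg_add {q : R} {a b c d : M} (h : Cg q a b) (h' : Cg q c d) : Cg q (a + c) (b + d) := by
  obtain ⟨e, he⟩ := h
  obtain ⟨f, hf⟩ := h'
  exact ⟨e + f, by rw [smul_add, ← he, ← hf]; abel⟩

theorem cg_sub {q : R} {a b c d : M} (h : Cg q a b) (h' : Cg q c d) : Cg q (a - c) (b - d) := by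
  obtain ⟨e, he⟩ := h
  obtain ⟨f, hf⟩ := h'
  exact ⟨e - f, by rw [smul_sub, ← he, ← hf]; abel⟩

theorem cg_map {N : Type} [AddCommGroup N] [Module R N] {q : R} {a b : M} (f : M →ₗ[R] N)
    (h : Cg q a b) : Cg q (f a) (f b) := by
  obtain ⟨d, hd⟩ := h
  exact ⟨f d, by rw [← map_sub, hd, map_smul]⟩

end cg

section val

variable {R : Type} [CommRing R]

theorem val_add_cg (n : ℕ) [NeZero n] (p q : ZMod n) :
    Cg (n : R) (((p + q).val : ℕ) : R) ((p.val : R) + (q.val : R)) := by
  refine ⟨-(((p.val + q.val) / n : ℕ) : R), ?_⟩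
  have h : (p + q).val = (p.val + q.val) % n := ZMod.val_add p q
  have h2 : (p.val + q.val) % n + n * ((p.val + q.val) / n) = p.val + q.val :=
    Nat.mod_add_div _ _
  have h3 : (((p + q).val : ℕ) : R) + (n : R) * (((p.val + q.val) / n : ℕ) : R) =
      (p.val : R) + (q.val : R) := by
    rw [h]
    exact_mod_cast congrArg (fun t : ℕ => (t : R)) h2
  rw [← h3, smul_eq_mul]
  ring

theorem val_sub_cg (n : ℕ) [NeZero n] (p q : ZMod n) :
    Cg (n : R) (((p - q).val : ℕ) : R) ((p.val : R) - (q.val : R)) := by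
  have h := val_add_cg (R := R) n (p - q) q
  rw [sub_add_cancel] at h
  have h2 := cg_sub (cg_symm h) (cg_refl (n : R) ((q.val : ℕ) : R))
  simpa using h2

theorem val_one_cg (n : ℕ) [NeZero n] : Cg (n : R) ((((1 : ZMod n)).val : ℕ) : R) 1 := by
  refine ⟨-(((1 / n : ℕ)) : R), ?_⟩
  have h : (1 : ZMod n).val = 1 % n := ZMod.val_one_eq_one_mod n
  have h2 : 1 % n + n * (1 / n) = 1 := Nat.mod_add_div _ _
  have h3 : ((((1 : ZMod n)).val : ℕ) : R) + (n : R) * (((1 / n : ℕ)) : R) = 1 := by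
    rw [h]
    have h4 := congrArg (fun t : ℕ => (t : R)) h2
    simpa using h4
  rw [← h3, smul_eq_mul]
  ring

end val

theorem vdr (chi : ChiStmt) (hew : HewStmt) (cnh : CnhStmt) (dgz : DgzStmt) (trc : TrcStmt)
    (gwz : GwzStmt) (wwl : WwlStmt) : VdrStmt := by
  intro R V E A K Ω _ _ _ _ _ _ _ _ _ φ α z W lam x y b c hRF hP hs hc
  obtain ⟨χ₀, hadd, hz, hW⟩ := chi V W z hc
  obtain ⟨H₀, hH⟩ := hew R V E A Ω φ α b c W (ZMod (orderOf z)) χ₀ hP hs hadd
    (fun w hw => (hW w).2 hw)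
  have : NeZero (orderOf z) := ⟨(orderOf_pos z).ne'⟩
  have h1 : χ₀ 1 = 0 := (hW 1).2 (one_mem W)
  have hadd' : ∀ u v, Cg ((orderOf z : ℕ) : R) (((χ₀ (u * v)).val : ℕ) : R)
      (((χ₀ u).val : ℕ) + ((χ₀ v).val : ℕ) : R) := by
    intro u v
    rw [hadd]
    exact val_add_cg _ _ _
  have hH' : ∀ (v : V) (ω : Ω), Cg ((orderOf z : ℕ) : R)
      (((H₀ (((1 : V), v) • ω)).val : ℕ) : R) (((H₀ ω).val : ℕ) - ((χ₀ v).val : ℕ) : R) := by
    intro v ω
    rw [hH 1 (one_mem W) v ω]
    exact val_sub_cg _ _ _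
  have hN : Cn ((orderOf z : ℕ) : R) α (fun v => (((χ₀ v).val : ℕ) : R))
      (Nh (fun ω => (((H₀ ω).val : ℕ) : R)) b c) :=
    cnh R V A Ω ((orderOf z : ℕ) : R) α (fun v => (((χ₀ v).val : ℕ) : R))
      (fun ω => (((H₀ ω).val : ℕ) : R)) b c hP.fr hadd' hH'
  have hD := dgz R V A K ((orderOf z : ℕ) : R) α z lam x y (fun v => (((χ₀ v).val : ℕ) : R))
    (Nh (fun ω => (((H₀ ω).val : ℕ) : R)) b c) hRF hN
  have hz' : Cg ((orderOf z : ℕ) : R) ((((χ₀ z).val : ℕ)) : R) 1 := by
    rw [hz]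
    exact val_one_cg _
  have hT := trc R V A K ((orderOf z : ℕ) : R) α z lam x y (fun v => (((χ₀ v).val : ℕ) : R))
    (Nh (fun ω => (((H₀ ω).val : ℕ) : R)) b c) hRF hN hz'
  have hG : ∀ w ∈ W, Cg ((orderOf z : ℕ) : R)
      (Gz α z x y (Nh (fun ω => (((H₀ ω).val : ℕ) : R)) b c) (α w)) 0 := by
    intro w hw
    refine gwz R V A K Ω ((orderOf z : ℕ) : R) α z x y (fun ω => (((H₀ ω).val : ℕ) : R)) b c w
      hP.fr ?_
    intro ω
    have h2 := hH w hw 1 ω
    rw [h1, sub_zero] at h2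
    simp only [h2]
    exact cg_refl _ _
  obtain ⟨v, hv1, hv2⟩ := wwl R V A Ω ((orderOf z : ℕ) : R) α b c W
    (Gz α z x y (Nh (fun ω => (((H₀ ω).val : ℕ) : R)) b c)) hP.fr (by
      intro w hw a
      constructor
      · have h3 := cg_add (cg_map (LinearMap.mulRight R a) (hG w hw))
          (cg_refl ((orderOf z : ℕ) : R)
            (α w * Gz α z x y (Nh (fun ω => (((H₀ ω).val : ℕ) : R)) b c) a))
        simp only [LinearMap.mulRight_apply, zero_mul, zero_add] at h3
        exact cg_trans (hD (α w) a) h3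
      · have h3 := cg_add (cg_refl ((orderOf z : ℕ) : R)
            (Gz α z x y (Nh (fun ω => (((H₀ ω).val : ℕ) : R)) b c) a * α w))
          (cg_map (LinearMap.mulLeft R a) (hG w hw))
        simp only [LinearMap.mulLeft_apply, mul_zero, add_zero] at h3
        exact cg_trans (hD a (α w)) h3)
  refine ⟨H₀, v, hv1, ?_, ?_, ⟨χ₀, hadd, hz, fun v' ω => hH 1 (one_mem W) v' ω⟩, hv2⟩
  · intro a d
    refine cg_trans (hv2 (a * d)) (cg_trans (hD a d) ?_)
    have h4 := cg_add (cg_map (LinearMap.mulRight R d) (cg_symm (hv2 a)))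
      (cg_map (LinearMap.mulLeft R a) (cg_symm (hv2 d)))
    simpa only [LinearMap.mulRight_apply, LinearMap.mulLeft_apply] using h4
  · intro a
    exact cg_trans (cg_map lam (hv2 a)) (hT a)

end Pool.Agent.PSS.H6
end
end -- Pool.Agent.Helper6_PSS.VDR

section -- Pool.Agent.Helper79_PSS.SVG

/-!
# Squad PSS, row SVG (helper79)
-/

open scoped BigOperators

noncomputable section

namespace Pool.Agent.PSS.S2.H79

open Pool.Agent.PFC (tw IsTv)
open Pool.Agent.PFD.D2b (FrR)

section basic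

variable {F V A Ω : Type} [Field F] [CommGroup V] [Ring A] [Algebra F A] [Fintype Ω]
  [MulAction (V × V) Ω]

theorem frb {α : V →* A} {b : Ω → A} {c : Ω → (A →ₗ[F] F)} (hf : FrR (bw F α) b c)
    (u v : V) (ω : Ω) : b ((u, v) • ω) = α u * b ω * α v⁻¹ := by
  rw [hf.1]
  simp [bw, mul_assoc]

theorem frc {α : V →* A} {b : Ω → A} {c : Ω → (A →ₗ[F] F)} (hf : FrR (bw F α) b c)
    (u v : V) (ω : Ω) (n : A) : c ((u, v) • ω) (α u * n * α v⁻¹) = c ω n := by
  rw [← hf.2.1 (u, v) ω n]
  simp [bw, mul_assoc]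

/-- the invariance of the coefficient function -/
theorem inv {α : V →* A} {b : Ω → A} {c : Ω → (A →ₗ[F] F)} (hf : FrR (bw F α) b c)
    {a : A} (ha : CV α a) (s : A) (hs : ∀ v, s * α v = α v * s) (t : A)
    (ht : ∀ v, t * α v = α v * t) (u v : V) (ω : Ω) :
    c ((u, v) • ω) (a * s * b ((u, v) • ω) * t) = c ω (a * s * b ω * t) := by
  rw [← frc hf u v ω (a * s * b ω * t), frb hf]
  refine congrArg _ ?_
  have h1 : a * s * α u = α u * (a * s) := by
    rw [mul_assoc, hs, ← mul_assoc, ← ha u, mul_assoc]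
  calc a * s * (α u * b ω * α v⁻¹) * t = (a * s * α u) * b ω * (α v⁻¹ * t) := by
        simp only [mul_assoc]
    _ = (α u * (a * s)) * b ω * (t * α v⁻¹) := by rw [h1, ht]
    _ = α u * (a * s * b ω * t) * α v⁻¹ := by simp only [mul_assoc]

end basic

theorem sg_l {V A : Type} [CommGroup V] [Fintype V] [Ring A] (α : V →* A) (v : V) :
    α v * sg α = sg α := by
  unfold sg
  rw [Finset.mul_sum]
  refine Fintype.sum_equiv (Equiv.mulLeft v) _ _ (fun w => ?_)
  simp

theorem sg_r {V A : Type} [CommGroup V] [Fintype V] [Ring A] (α : V →* A) (v : V) :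
    sg α * α v = sg α := by
  unfold sg
  rw [Finset.sum_mul]
  refine Fintype.sum_equiv (Equiv.mulRight v) _ _ (fun w => ?_)
  simp

/-- the value at a fixed point -/
theorem loc {F V E A Ω : Type} [Field F] [CommGroup V] [Fintype V]
    [Group E] [Ring A] [Algebra F A] [Fintype Ω] [MulAction (V × V) Ω]
    (φ : E →* MulAut V) (α : V →* A) (z : V) (b : Ω → A)
    (c : Ω → (A →ₗ[F] F)) (χ : V → F) (a : A) (e : E) (ω : Ω)
    (hχ : ∀ u v, χ (u * v) = χ u + χ v) (hz : χ z = 1)
    (hb : ∀ u, α u * b ω = b ω * α (φ e⁻¹ u)) :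
    ∑ u, χ (φ e⁻¹ u) * c ω (a * α u * b ω * (1 - α z⁻¹)) = - c ω (a * b ω * sg α) := by
  have h1 : ∑ u, χ (φ e⁻¹ u) * c ω (a * α u * b ω * (1 - α z⁻¹)) =
      ∑ v, χ v * c ω (a * b ω * α v * (1 - α z⁻¹)) := by
    refine Fintype.sum_equiv (φ e⁻¹).toEquiv _ _ (fun u => ?_)
    have h2 : a * α u * b ω = a * b ω * α (φ e⁻¹ u) := by
      rw [mul_assoc, hb, ← mul_assoc]
    rw [h2]
    rfl
  have h3 : ∑ v, χ v * c ω (a * b ω * α (v * z⁻¹)) = ∑ v, χ (v * z) * c ω (a * b ω * α v) := by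
    refine Fintype.sum_equiv (Equiv.mulRight z⁻¹) _ _ (fun u => ?_)
    simp
  have h4 : ∀ v, χ v * c ω (a * b ω * α v * (1 - α z⁻¹)) =
      χ v * c ω (a * b ω * α v) - χ v * c ω (a * b ω * α (v * z⁻¹)) := by
    intro v
    rw [mul_sub, mul_one, mul_assoc (a * b ω) (α v) (α z⁻¹), ← map_mul, map_sub, mul_sub]
  rw [h1, Finset.sum_congr rfl (fun v _ => h4 v), Finset.sum_sub_distrib, h3,
    ← Finset.sum_sub_distrib, sg, Finset.mul_sum, map_sum, ← Finset.sum_neg_distrib]
  refine Finset.sum_congr rfl (fun v _ => ?_)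
  rw [hχ, hz]
  ring

theorem svg (hHTR : HtrStmt) (hEOR : EorStmt) (hSVH : SvhStmt) (hCNH : CnhStmt) (hSVI : SviStmt)
    (hSVK : SvkStmt) (hWTR : WtrStmt) (hFPS : FpsStmt) : SvgStmt := by
  intro ℓ _ F V E A K Ω _ _ _ _ _ _ _ _ _ _ φ α z lam x y b c χ N a hV hRF hPr hN hz ha
  classical
  have hχ : ∀ u v, χ (u * v) = χ u + χ v := fun u v => (cg_zero _ _).1 (hN.add u v)
  obtain ⟨h, hh⟩ := hHTR F V E A Ω φ α b c hPr
  obtain ⟨e, S, he, hS, hst⟩ := hEOR F V E A Ω φ α b c hPr
  obtain ⟨H, hH⟩ := hSVH F V E Ω φ χ e S hχ he hst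
  have hfr := hPr.fr
  have hχ1 : χ 1 = 0 := by
    have := hχ 1 1
    rw [mul_one] at this
    simpa using this
  have hCn : Cn 0 α χ (Nh H b c) := by
    refine hCNH F V A Ω 0 α χ H b c hfr hN.add ?_
    intro v ω
    rw [cg_zero, hH 1 v ω, map_one, hχ1, add_zero]
  -- the left side
  have hL : ∑ u, lam (Gz α z x y N (α u) * a) =
      ∑ ω with h ω = 1, ∑ u, χ (φ (e ω)⁻¹ u) * c ω (a * α u * b ω * (1 - α z⁻¹)) := by
    rw [Finset.sum_comm]
    refine Finset.sum_congr rfl (fun u _ => ?_)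
    rw [hSVI F V A K α z lam x y χ N (Nh H b c) a hRF hN hCn ha u]
    exact hSVK F V E A K Ω φ α z lam x y b c h χ H e a hRF hfr hh hχ he hH ha u
  -- the right side
  have hR : ∑ k, lam (y k * (a * x k * sg α)) =
      ∑ ω with h ω = 1, c ω (a * b ω * sg α) := by
    have h1 := hWTR F V A K Ω α lam x y b c h (fun _ => 1)
      ((LinearMap.mulRight F (sg α)).comp (LinearMap.mulLeft F a)) hRF hfr hh (fun _ _ => rfl)
      (by
        intro d v
        simp only [LinearMap.comp_apply, LinearMap.mulRight_apply, LinearMap.mulLeft_apply]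
        rw [mul_assoc (a * d), sg_r, ← mul_assoc a d (α v), mul_assoc (a * d), sg_l])
    simp only [one_mul, LinearMap.comp_apply, LinearMap.mulRight_apply,
      LinearMap.mulLeft_apply] at h1
    rw [← h1, Finset.sum_comm]
    refine Finset.sum_congr rfl (fun k _ => ?_)
    conv_lhs => rw [← hfr.2.2 (x k)]
    rw [Finset.mul_sum, Finset.sum_mul, Finset.mul_sum, map_sum]
    refine Finset.sum_congr rfl (fun ω _ => ?_)
    rw [mul_smul_comm, smul_mul_assoc, mul_smul_comm, map_smul, smul_eq_mul]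
  rw [hL, hR]
  have hcomm : ∀ u v : V, α u * α v = α v * α u := by
    intro u v
    rw [← map_mul, mul_comm, map_mul]
  rw [hFPS ℓ F V Ω h (fun ω => ∑ u, χ (φ (e ω)⁻¹ u) * c ω (a * α u * b ω * (1 - α z⁻¹))) hV hh
      ?_ (fun ω => ∀ u : V, ∃ v : V, (u, v) • ω = ω) (fun _ => Iff.rfl),
    hFPS ℓ F V Ω h (fun ω => c ω (a * b ω * sg α)) hV hh
      ?_ (fun ω => ∀ u : V, ∃ v : V, (u, v) • ω = ω) (fun _ => Iff.rfl), ← Finset.sum_neg_distrib]
  · refine Finset.sum_congr rfl (fun ω hω => ?_)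
    have hP : ∀ u : V, ∃ v : V, (u, v) • ω = ω := (Finset.mem_filter.1 hω).2.2
    refine loc φ α z b c χ a (e ω) ω hχ hz ?_
    intro u
    obtain ⟨v, hv⟩ := hP u
    have hm : (u, v) ∈ MulAction.stabilizer (V × V) ω := hv
    rw [hst ω] at hm
    obtain ⟨s, -, hs⟩ := Subgroup.mem_map.1 hm
    have h1 : φ (e ω) s = u := congrArg Prod.fst hs
    have h2 : s = v := congrArg Prod.snd hs
    have h3 : φ (e ω)⁻¹ u = v := by
      rw [← h1, ← h2, map_inv]
      exact (φ (e ω)).symm_apply_apply s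
    rw [h3]
    have h4 := frb hfr u v ω
    rw [hv] at h4
    calc α u * b ω = α u * b ω * (α v⁻¹ * α v) := by rw [← map_mul]; simp
      _ = (α u * b ω * α v⁻¹) * α v := by simp only [mul_assoc]
      _ = b ω * α v := by rw [← h4]
  · rintro ⟨p, q⟩ ω
    have := inv hfr ha 1 (fun v => by rw [one_mul, mul_one]) (sg α)
      (fun v => by rw [sg_r, sg_l]) p q ω
    simpa using this
  · rintro ⟨p, q⟩ ω
    refine Finset.sum_congr rfl (fun u _ => ?_)
    rw [he]
    refine congrArg _ ?_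
    refine inv hfr ha (α u) (fun v => hcomm u v) (1 - α z⁻¹) (fun v => ?_) p q ω
    rw [sub_mul, mul_sub, one_mul, mul_one, hcomm]

end Pool.Agent.PSS.S2.H79
end
end -- Pool.Agent.Helper79_PSS.SVG

section -- Pool.Agent.Helper80_PSS.HTR

/-!
# Row HTR of squad PSS: trivialisation of a free right action
-/

open scoped BigOperators

namespace Pool.Agent.PSS.H80

open Pool.Agent.PSS.S2 Pool.Agent.PFC

theorem htr (hT : TorStmt) : HtrStmt := by
  intro R V E A Ω _ _ _ _ _ _ _ φ α b c hP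
  let act : MulAction V Ω :=
    MulAction.compHom Ω (MonoidHom.inr V V)
  have key : ∀ (v : V) (ω : Ω), ((1 : V), v) • ω = ω → v = 1 := by
    intro v ω h
    obtain ⟨e, S, hS⟩ := hP.st ω
    have h1 : ((1 : V), v) ∈ MulAction.stabilizer (V × V) ω := h
    rw [hS] at h1
    obtain ⟨s, -, hs⟩ := h1
    have h2 : (φ e) s = 1 := congrArg Prod.fst hs
    have h3 : s = v := congrArg Prod.snd hs
    have h4 : s = 1 := (MulEquiv.map_eq_one_iff (φ e)).mp h2
    rw [← h3, h4]
  obtain ⟨H, hH⟩ := @hT V Ω (Additive V) _ act _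
    (fun _ v => Additive.ofMul v⁻¹)
    (fun _ _ => rfl)
    (fun _ g g' => by
      rw [mul_inv]; rfl)
    (fun ω g hg => by
      have h := key g ω hg
      rw [h, inv_one]; rfl)
  exact ⟨fun ω => (H ω).toMul, fun v ω => congrArg Additive.toMul (hH v ω)⟩

end Pool.Agent.PSS.H80
end -- Pool.Agent.Helper80_PSS.HTR

section -- Pool.Agent.Helper83_PSS.HEW

/-!
Squad PSS, row HEW: the function adapted to a subgroup.
-/

set_option autoImplicit false

open scoped BigOperators

namespace Pool.Agent.PSS.S2.H83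

theorem hew (tor : TorStmt) : HewStmt := by
  intro R V E A Ω _ _ _ _ _ _ _ φ α b c W B _ χ hfr hW hχ hχ0
  obtain ⟨H, hH⟩ := tor (Subgroup.prod W (⊤ : Subgroup V)) Ω B (fun _ g => -χ g.1.2)
    (fun _ _ => rfl)
    (fun _ g g' => by
      show -χ (g.1.2 * g'.1.2) = -χ g.1.2 + -χ g'.1.2
      rw [hχ]
      abel)
    (fun ω g hg => by
      obtain ⟨e, S, hS⟩ := hfr.st ω
      have h1 : g.1 ∈ MulAction.stabilizer (V × V) ω := hg
      rw [hS] at h1
      obtain ⟨s, hs, h2⟩ := h1
      have h3 : φ e s ∈ W := by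
        have h4 : g.1.1 ∈ W := (Subgroup.mem_prod.1 g.2).1
        have h5 : g.1.1 = φ e s := by rw [← h2]; rfl
        rw [← h5]
        exact h4
      have h6 : s ∈ W := by
        have h7 := hW e⁻¹ _ h3
        have h8 : φ e⁻¹ (φ e s) = s := by
          rw [map_inv]
          exact MulAut.inv_apply_self V (φ e) s
        rwa [h8] at h7
      have h9 : g.1.2 = s := by rw [← h2]; rfl
      show -χ g.1.2 = 0
      rw [h9, hχ0 s h6, neg_zero])
  refine ⟨H, fun w hw v ω => ?_⟩
  have h1 := hH ⟨(w, v), Subgroup.mem_prod.2 ⟨hw, Subgroup.mem_top v⟩⟩ ω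
  rw [sub_eq_add_neg]
  exact h1

end Pool.Agent.PSS.S2.H83
end -- Pool.Agent.Helper83_PSS.HEW

section -- Pool.Agent.Helper83_PSS.RAD

/-!
Squad PSS, row RAD: a central element in the radical of the form is nilpotent.
-/

set_option autoImplicit false

open scoped BigOperators

namespace Pool.Agent.PSS.S2.H83

theorem rad (nda : NdaStmt) (ndb : NdbStmt) (fit : FitStmt) : RadStmt := by
  intro ℓ _ F V E A K Ω _ _ _ _ _ _ _ _ _ _ _ φ α lam x y b c d hV hrf hfr hd hlam he
  rcases fit F A d with h | ⟨s, hs, h1, h2⟩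
  · exact h
  · exfalso
    have hsc : ∀ a', s * a' = a' * s := by
      intro a'
      clear h1 h2
      induction hs using Algebra.adjoin_induction with
      | mem z hz =>
        rw [Set.mem_singleton_iff] at hz
        rw [hz]
        exact hd a'
      | algebraMap r => exact Algebra.commutes r a'
      | add z w _ _ hz hw => rw [add_mul, mul_add, hz, hw]
      | mul z w _ _ hz hw => rw [mul_assoc, hw, ← mul_assoc, hz, mul_assoc]
    have hec : ∀ a', d * s * a' = a' * (d * s) := by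
      intro a'
      rw [mul_assoc, hsc, ← mul_assoc, hd, mul_assoc]
    have hCV : CV α (d * s) := fun v => (hec (α v)).symm
    have h3 := nda F V E A K Ω φ α lam x y b c (d * s) hrf hfr hCV (by
      intro d' hd'
      have hCV' : CV α (s * d') := by
        intro v
        rw [← mul_assoc, ← hsc, mul_assoc, hd' v, mul_assoc]
      have h4 := hlam (s * d') hCV'
      have e1 : sg α * (d * s) * d' = sg α * (s * d') * d := by
        rw [mul_assoc (sg α), mul_assoc d s d', hd (s * d'), ← mul_assoc]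
      rw [e1]
      exact h4)
    exact h2 (he _ hec h1 (ndb ℓ F V A α (d * s) hV hCV h1 h3))

end Pool.Agent.PSS.S2.H83
end -- Pool.Agent.Helper83_PSS.RAD

section -- Pool.Agent.Helper85_PSS.FIT

/-! Squad PSS, row FIT (220). -/

set_option autoImplicit false

namespace Pool.Agent.PSS.S2.H85F

open Polynomial

theorem fit : FitStmt := by
  intro F A _ _ _ _ r
  have hint : IsIntegral F r := IsIntegral.of_finite F r
  have hne : minpoly F r ≠ 0 := minpoly.ne_zero hint
  obtain ⟨g, hg, hg2⟩ := exists_eq_pow_rootMultiplicity_mul_and_not_dvd (minpoly F r) hne 0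
  obtain ⟨k, hk⟩ : ∃ k, k = rootMultiplicity 0 (minpoly F r) := ⟨_, rfl⟩
  rw [← hk, C_0, sub_zero] at hg
  rw [C_0, sub_zero] at hg2
  have hcop : IsCoprime ((X : F[X]) ^ (k + 1)) g :=
    ((irreducible_X.coprime_iff_not_dvd).2 hg2).pow_left
  obtain ⟨a, b, hab⟩ := hcop
  have h0 : r ^ k * aeval r g = 0 := by
    have h := minpoly.aeval F r
    rw [hg, map_mul, map_pow, aeval_X] at h
    exact h
  have h1 : aeval r a * r ^ (k + 1) + aeval r b * aeval r g = 1 := by
    have h := congrArg (aeval r) hab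
    rw [map_add, map_mul, map_mul, map_pow, aeval_X, map_one] at h
    exact h
  have hc : ∀ p q : F[X], aeval r p * aeval r q = aeval r q * aeval r p := by
    intro p q
    rw [← map_mul, mul_comm, map_mul]
  have hr : ∀ (p : F[X]) (n : ℕ), aeval r p * r ^ n = r ^ n * aeval r p := by
    intro p n
    have h := hc p (X ^ n)
    rw [map_pow, aeval_X] at h
    exact h
  have he : r * (aeval r a * r ^ k) = aeval r a * r ^ (k + 1) := by
    have h := hr a 1
    rw [pow_one] at h
    rw [← mul_assoc, ← h, mul_assoc, ← pow_succ']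
  by_cases hz : aeval r a * r ^ (k + 1) = 0
  · left
    rw [hz, zero_add] at h1
    refine ⟨k, ?_⟩
    calc r ^ k = r ^ k * (aeval r b * aeval r g) := by rw [h1, mul_one]
      _ = r ^ k * aeval r g * aeval r b := by rw [hc b g, mul_assoc]
      _ = 0 := by rw [h0, zero_mul]
  · right
    refine ⟨aeval r a * r ^ k, ?_, ?_, ?_⟩
    · refine Subalgebra.mul_mem _ (aeval_mem_adjoin_singleton F r) (Subalgebra.pow_mem _ ?_ _)
      exact Algebra.subset_adjoin rfl
    · rw [he]
      have h2 : aeval r a * r ^ (k + 1) * (aeval r b * aeval r g) = 0 := by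
        rw [hc b g, pow_succ']
        calc aeval r a * (r * r ^ k) * (aeval r g * aeval r b)
            = aeval r a * r * (r ^ k * aeval r g) * aeval r b := by noncomm_ring
          _ = 0 := by rw [h0, mul_zero, zero_mul]
      have h3 : aeval r a * r ^ (k + 1) * (aeval r a * r ^ (k + 1)) +
          aeval r a * r ^ (k + 1) * (aeval r b * aeval r g) = aeval r a * r ^ (k + 1) := by
        rw [← mul_add, h1, mul_one]
      rw [h2, add_zero] at h3
      exact h3
    · rw [he]
      exact hz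

end Pool.Agent.PSS.S2.H85F
end -- Pool.Agent.Helper85_PSS.FIT

section -- Pool.Agent.Helper85_PSS.GWZ

/-! Squad PSS, row GWZ (230). -/

set_option autoImplicit false

namespace Pool.Agent.PSS.S2.H85

open Pool.Agent.PFD.D2b (FrR)

theorem cg_sum {R M ι : Type} [CommRing R] [AddCommGroup M] [Module R M] (q : R) (s : Finset ι)
    (f : ι → M) (h : ∀ i ∈ s, Cg q (f i) 0) : Cg q (∑ i ∈ s, f i) 0 := by
  classical
  induction s using Finset.induction with
  | empty => exact ⟨0, by simp⟩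
  | insert i s hi ih =>
    obtain ⟨d, hd⟩ := h i (Finset.mem_insert_self _ _)
    obtain ⟨d', hd'⟩ := ih fun j hj => h j (Finset.mem_insert_of_mem hj)
    refine ⟨d + d', ?_⟩
    rw [sub_zero] at hd hd' ⊢
    rw [Finset.sum_insert hi, hd, hd', smul_add]

theorem gwz : GwzStmt := by
  intro R V A K Ω _ _ _ _ _ _ _ _ q α z x y H b c w hfr hH
  obtain ⟨h1, h2, h3⟩ := hfr
  have hw : ∀ b' : A, bw R α (w, (1 : V)) b' = α w * b' := by
    intro b'
    simp [bw]
  have key : ∀ b' : A, Cg q (Nh H b c (α w * b') - α w * Nh H b c b') 0 := by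
    intro b'
    have e1 : Nh H b c (α w * b') = ∑ ω, (c ω b' * H ((w, (1 : V)) • ω)) • (α w * b ω) := by
      rw [nh_apply, ← Equiv.sum_comp (MulAction.toPerm ((w, (1 : V)) : V × V))]
      refine Finset.sum_congr rfl fun ω _ => ?_
      rw [MulAction.toPerm_apply, h1, ← hw b', h2, hw]
    have e2 : α w * Nh H b c b' = ∑ ω, (c ω b' * H ω) • (α w * b ω) := by
      rw [nh_apply, Finset.mul_sum]
      refine Finset.sum_congr rfl fun ω _ => ?_
      rw [mul_smul_comm]
    rw [e1, e2, ← Finset.sum_sub_distrib]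
    refine cg_sum q _ _ fun ω _ => ?_
    obtain ⟨d, hd⟩ := hH ω
    refine ⟨(c ω b' * d) • (α w * b ω), ?_⟩
    rw [sub_zero, ← sub_smul, ← mul_sub, hd, smul_smul]
    congr 1
    rw [smul_eq_mul]
    ring
  rw [gz_apply]
  refine cg_sum q _ _ fun k _ => ?_
  obtain ⟨d, hd⟩ := key (x k)
  rw [sub_zero] at hd
  refine ⟨d * ((1 - α z⁻¹) * y k), ?_⟩
  rw [sub_zero, hd, smul_mul_assoc]

end Pool.Agent.PSS.S2.H85
end -- Pool.Agent.Helper85_PSS.GWZ

section -- Pool.Agent.Helper92_PSS.CHI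

/-!
# The exponent of a generator of a complement
-/

set_option autoImplicit false

namespace Pool.Agent.PSS.S2.H92

open Pool.Agent.PSS

theorem chi : ChiStmt := by
  intro V _ _ W z hc
  have hbot : ∀ v : V, v ∈ Subgroup.zpowers z → v ∈ W → v = 1 := by
    intro v h1 h2
    have h3 : v ∈ Subgroup.zpowers z ⊓ W := ⟨h1, h2⟩
    rw [hc.inf_eq_bot] at h3
    exact Subgroup.mem_bot.mp h3
  have hex : ∀ v : V, ∃ i : ℤ, ∃ w ∈ W, v = z ^ i * w := by
    intro v
    have h1 : v ∈ Subgroup.zpowers z ⊔ W := by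
      rw [hc.sup_eq_top]
      exact Subgroup.mem_top v
    obtain ⟨y, hy, w, hw, h2⟩ := Subgroup.mem_sup.mp h1
    obtain ⟨i, rfl⟩ := Subgroup.mem_zpowers_iff.mp hy
    exact ⟨i, w, hw, h2.symm⟩
  have hzero : ∀ i : ℤ, z ^ i ∈ W → (i : ZMod (orderOf z)) = 0 := by
    intro i hi
    have h1 : z ^ i = 1 := hbot _ (Subgroup.zpow_mem_zpowers z i) hi
    exact (ZMod.intCast_zmod_eq_zero_iff_dvd i (orderOf z)).mpr (orderOf_dvd_iff_zpow_eq_one.mpr h1)
  have key : ∀ (i j : ℤ) (w w' : V), w ∈ W → w' ∈ W → z ^ i * w = z ^ j * w' →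
      (i : ZMod (orderOf z)) = (j : ZMod (orderOf z)) := by
    intro i j w w' hw hw' h
    have h1 : z ^ (i - j) ∈ W := by
      have h2 : z ^ (i - j) = w' * w⁻¹ := by
        rw [zpow_sub]
        rw [mul_inv_eq_iff_eq_mul, mul_assoc, mul_comm w⁻¹, ← mul_assoc, eq_mul_inv_iff_mul_eq, h,
          mul_comm]
      rw [h2]
      exact W.mul_mem hw' (W.inv_mem hw)
    have h3 := hzero (i - j) h1
    rw [Int.cast_sub, sub_eq_zero] at h3
    exact h3
  choose i w hw hv using hex
  refine ⟨fun v => (i v : ZMod (orderOf z)), ?_, ?_, ?_⟩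
  · intro u v
    have h1 : z ^ i (u * v) * w (u * v) = z ^ (i u + i v) * (w u * w v) := by
      rw [← hv (u * v), zpow_add]
      conv_lhs => rw [hv u, hv v]
      exact mul_mul_mul_comm _ _ _ _
    have h2 := key _ _ _ _ (hw _) (W.mul_mem (hw u) (hw v)) h1
    show (i (u * v) : ZMod (orderOf z)) = i u + i v
    rw [h2, Int.cast_add]
  · have h1 : z ^ i z * w z = z ^ (1 : ℤ) * 1 := by
      rw [← hv z, zpow_one, mul_one]
    have h2 := key _ _ _ _ (hw _) W.one_mem h1
    show (i z : ZMod (orderOf z)) = 1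
    rw [h2, Int.cast_one]
  · intro v
    show (i v : ZMod (orderOf z)) = 0 ↔ v ∈ W
    constructor
    · intro h
      have h1 := (ZMod.intCast_zmod_eq_zero_iff_dvd _ _).mp h
      have h2 : z ^ i v = 1 := orderOf_dvd_iff_zpow_eq_one.mp h1
      rw [hv v, h2, one_mul]
      exact hw v
    · intro h
      have h1 : z ^ i v * w v = z ^ (0 : ℤ) * v := by
        rw [← hv v, zpow_zero, one_mul]
      have h2 := key _ _ _ _ (hw _) h h1
      rw [h2, Int.cast_zero]

end Pool.Agent.PSS.S2.H92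
end -- Pool.Agent.Helper92_PSS.CHI
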