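import Pool.Agent.Helper12_AWB.B005

/-!
# Merged copies (generated) of the modules

* `Pool.Agent.PFD.StmtsD2`
* `Pool.Agent.Helper17_PFD.LBG`
* `Pool.Agent.Helper72_PFD.Alx`
* `Pool.Agent.Helper79_PFD.EXX`
* `Pool.Agent.PFC.B1.Stp_60`
* `Pool.Agent.Helper84_PFD.STG`
* `Pool.Agent.Helper94_PFD.PLG`
-/

set_option autoImplicit false

section -- Pool.Agent.PFD.StmtsD2

/-!
Squad PFD, part D2 (helper51): lifting over a complete discrete valuation ring `R` (residue map
`c.κ : R → F`, `c : Cdv R F`).  Statements.  The rows are the rows UNI SUC IDL PLF LFB STP ALG EXI FSL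
of `PFC/StmtsB1.lean` with `PowerSeries F`, `PowerSeries.X` replaced by `R`, `c.π`, and with the Higman
projective bimodule replaced by a retract of a liftable bimodule `X`.
-/

namespace Pool.Agent.PFD.D2

open MulOpposite
open Pool.Agent.PFC.B1 (BiM FS Sep RngStmt PenStmt)

/-- UNG (= B1/UNI). -/
def UngStmt : Prop :=
  ∀ (R F M : Type) [CommRing R] [Field F] (c : Cdv R F) [AddCommGroup M] [Module R M]
    [Module.Finite R M] (u : M →ₗ[R] M),
    (∀ x, ∃ y, u x - x = c.π • y) → Function.Bijective u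

/-- SUG (= B1/SUC): successive approximation. -/
def SugStmt : Prop :=
  ∀ (R F M : Type) [CommRing R] [Field F] (c : Cdv R F) [AddCommGroup M] [Module R M]
    [Module.Finite R M] [Module.Free R M] (P : ℕ → M → Prop),
    (∀ n x z, P n x → P n (x + c.π ^ n • z)) →
    (∀ n x, 1 ≤ n → P n x → ∃ z, P (n + 1) (x + c.π ^ n • z)) →
    ∀ x, P 1 x → ∃ z, ∀ n, 1 ≤ n → P n (x + c.π • z)

/-- IDG (= B1/IDL): lifting of idempotent endomorphisms commuting with a set of endomorphisms. -/
def IdgStmt : Prop :=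
  ∀ (R F M : Type) [CommRing R] [IsDomain R] [IsPrincipalIdealRing R] [Field F] (c : Cdv R F)
    [AddCommGroup M] [Module R M] [Module.Finite R M] [Module.Free R M]
    (S : Set (Module.End R M)) (e : Module.End R M),
    (∀ s ∈ S, s * e = e * s) → (∀ x, ∃ y, e (e x) - e x = c.π • y) →
    ∃ g : Module.End R M, g * g = g ∧ (∀ s ∈ S, s * g = g * s) ∧
      ∀ x, ∃ y, g x - e x = c.π • y

/-- PLG: the bimodule `ker e` lifts to a retract `P` of `X`.
Proof.  Replace `i0`, `p0` by `i0 (1 - e)`, `(1 - e) p0`.  `e0 = i0 p0 s : X → X0` lifts to an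
`R`-linear `g0 : X → X` (`X` free, `s` onto), a bimodule homomorphism modulo `π`, so by `l1` to a
bimodule homomorphism `g`, idempotent modulo `π`.  IDG with `S` = all `lm γ`, `rm γ`: idempotent `h`.
`P = range h` (a submodule of `X`, finite free over the PID), `q = p0 s` on `P`. -/
def PlgStmt : Prop :=
  ∀ (R F Γ A X X0 : Type) [CommRing R] [IsDomain R] [IsPrincipalIdealRing R] [Field F]
    (c : Cdv R F) [Ring Γ] [Algebra R Γ] [Ring A] [Algebra R A] [AddCommGroup X] [Module R X]
    [Module.Finite R X] [Module.Free R X] [AddCommGroup X0] [Module R X0] (BX : BiM R Γ X)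
    (D : ResX Γ A X X0 c BX), Lft c.π BX →
    ∃ (P : Type) (_ : AddCommGroup P) (_ : Module R P) (_ : Module.Finite R P)
      (_ : Module.Free R P), Nonempty (PLX P D)

/-- LBG: a balanced bilinear map `P × P → A` lifts to a balanced bilinear map to `Γ × P`.
Proof.  `β0 (p x) (p x')` on `X × X` has the components `e β0` (values in the image of `Γ`) and
`(1 - e) β0 = p0' i0' β0`; lift `R`-bilinearly to `Γ` and to `X`, then by `l3`, `l2`; compose the second
with `p` and both with `i × i`. -/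
def LbgStmt : Prop :=
  ∀ (R F Γ A X X0 P : Type) [CommRing R] [IsDomain R] [IsPrincipalIdealRing R] [Field F]
    (c : Cdv R F) [Ring Γ] [Algebra R Γ] [Module.Finite R Γ] [Module.Free R Γ] [Ring A]
    [Algebra R A] [AddCommGroup X] [Module R X]
    [Module.Finite R X] [Module.Free R X] [AddCommGroup X0] [Module R X0] (BX : BiM R Γ X)
    (D : ResX Γ A X X0 c BX) (_ : Lft c.π BX)
    [AddCommGroup P] [Module R P] [Module.Finite R P] [Module.Free R P] (L : PLX P D)
    (β0 : P →ₗ[R] P →ₗ[R] A),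
    (∀ γ p p', β0 (L.lm γ p) p' = D.j γ * β0 p p') →
    (∀ γ p p', β0 (L.rm (op γ) p) p' = β0 p (L.lm γ p')) →
    (∀ γ p p', β0 p (L.rm (op γ) p') = β0 p p' * D.j γ) →
    ∃ β : P →ₗ[R] P →ₗ[R] Γ × P, L.toBiM.Bal β ∧ ∀ p p', L.qq (β p p') = β0 p p'

/-- STG (= B1/STP): one step of the lifting of the multiplication; `hB` is the conclusion of LBG. -/
def StgStmt : Prop :=
  ∀ (R F Γ A X X0 K P : Type) [CommRing R] [IsDomain R] [IsPrincipalIdealRing R] [Field F]
    (c : Cdv R F) [Ring Γ] [Algebra R Γ] [Module.Finite R Γ] [Module.Free R Γ] [Ring A]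
    [Algebra R A] [AddCommGroup X] [Module R X] [AddCommGroup X0] [Module R X0] (BX : BiM R Γ X)
    (D : ResX Γ A X X0 c BX) [Fintype K] (_ : Sep Γ A K D.j.toRingHom)
    [AddCommGroup P] [Module R P] [Module.Finite R P] [Module.Free R P] (L : PLX P D)
    (_ : ∀ β0 : P →ₗ[R] P →ₗ[R] A,
      (∀ γ p p', β0 (L.lm γ p) p' = D.j γ * β0 p p') →
      (∀ γ p p', β0 (L.rm (op γ) p) p' = β0 p (L.lm γ p')) →
      (∀ γ p p', β0 p (L.rm (op γ) p') = β0 p p' * D.j γ) →
      ∃ β : P →ₗ[R] P →ₗ[R] Γ × P, L.toBiM.Bal β ∧ ∀ p p', L.qq (β p p') = β0 p p')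
    (β : P →ₗ[R] P →ₗ[R] Γ × P) (n : ℕ), 1 ≤ n → L.toBiM.Bal β →
    (∀ p p', L.qq (β p p') = L.q p * L.q p') →
    (∀ x y z, ∃ w, L.toBiM.as β x y z = c.π ^ n • w) →
    ∃ ν : P →ₗ[R] P →ₗ[R] Γ × P, L.toBiM.Bal ν ∧
      (∀ x y z, ∃ w, L.toBiM.as (β + c.π ^ n • ν) x y z = c.π ^ (n + 1) • w)

/-- ALX (= B1/ALG): the multiplication lifts; `hB` is the conclusion of LBG. -/
def AlxStmt : Prop :=
  ∀ (R F Γ A X X0 K P : Type) [CommRing R] [IsDomain R] [IsPrincipalIdealRing R] [Field F]
    (c : Cdv R F) [Ring Γ] [Algebra R Γ] [Module.Finite R Γ] [Module.Free R Γ] [Ring A]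
    [Algebra R A] [AddCommGroup X] [Module R X] [AddCommGroup X0] [Module R X0] (BX : BiM R Γ X)
    (D : ResX Γ A X X0 c BX) [Fintype K] (_ : Sep Γ A K D.j.toRingHom)
    [AddCommGroup P] [Module R P] [Module.Finite R P] [Module.Free R P] (L : PLX P D)
    (_ : ∀ β0 : P →ₗ[R] P →ₗ[R] A,
      (∀ γ p p', β0 (L.lm γ p) p' = D.j γ * β0 p p') →
      (∀ γ p p', β0 (L.rm (op γ) p) p' = β0 p (L.lm γ p')) →
      (∀ γ p p', β0 p (L.rm (op γ) p') = β0 p p' * D.j γ) →
      ∃ β : P →ₗ[R] P →ₗ[R] Γ × P, L.toBiM.Bal β ∧ ∀ p p', L.qq (β p p') = β0 p p'),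
    ∃ β : P →ₗ[R] P →ₗ[R] Γ × P, L.toBiM.Bal β ∧ (∀ x y z, L.toBiM.as β x y z = 0) ∧
      ∀ p p', L.qq (β p p') = L.q p * L.q p'

/-- EXX (= B1/EXI): existence of the deformation.
Proof.  `R`-algebra (module) structures on `A`, `X0` by `c.κ`; `ResX` from `sp0` and `FibM`; PLG, LBG,
ALX, `B1.RngStmt`. -/
def ExxStmt : Prop :=
  ∀ (R F Γ Γ0 A X X0 K : Type) [CommRing R] [IsDomain R] [IsPrincipalIdealRing R] [Field F]
    (c : Cdv R F) [Ring Γ] [Algebra R Γ] [Module.Finite R Γ] [Module.Free R Γ] [Ring Γ0]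
    [Algebra F Γ0] [Ring A] [Algebra F A] [AddCommGroup X] [Module R X] [Module.Finite R X]
    [Module.Free R X] [AddCommGroup X0] [Module F X0] (f : FibG Γ Γ0 c) (BX : BiM R Γ X)
    (B0 : BiM F Γ0 X0) (_ : FibM X X0 f BX B0) (_ : Lft c.π BX) (sp0 : SplitX A B0)
    [Fintype K] (_ : Sep Γ0 A K sp0.j.toRingHom),
    ∃ (A' : Type) (_ : Ring A') (_ : Algebra R A') (_ : Module.Finite R A')
      (_ : Module.Free R A'), Nonempty (DfmX A A' c f BX B0 sp0)

/-- FRG (= B1/FSL): a Frobenius system of the special fibre lifts. -/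
def FrgStmt : Prop :=
  ∀ (R F A' A J : Type) [CommRing R] [IsDomain R] [IsPrincipalIdealRing R] [Field F]
    (c : Cdv R F) [Ring A'] [Algebra R A'] [Module.Finite R A'] [Module.Free R A'] [Ring A]
    [Algebra F A] [Fintype J] (_ : FibG A' A c) (_ : FS F A J),
    ∃ (J' : Type) (_ : Fintype J'), Nonempty (FS R A' J')

/-- HGL: the free bimodule `Γ ⊗ Γ` is liftable; more generally a bimodule `X` with a Higman operator
modulo `π` is liftable (average over a Frobenius system of `Γ`). -/
def HglStmt : Prop :=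
  ∀ (R F Γ X I : Type) [CommRing R] [IsDomain R] [IsPrincipalIdealRing R] [Field F]
    (c : Cdv R F) [Ring Γ] [Algebra R Γ] [Fintype I] (d : FS R Γ I) [AddCommGroup X] [Module R X]
    (BX : BiM R Γ X) (a : X →ₗ[R] X),
    (∀ x, ∃ y, ∑ i, ∑ l, BX.lm (d.b i) (BX.rm (op (d.b' l))
      (a (BX.lm (d.b' i) (BX.rm (op (d.b l)) x)))) - x = c.π • y) → Lft c.π BX

end Pool.Agent.PFD.D2
end -- Pool.Agent.PFD.StmtsD2

section -- Pool.Agent.Helper17_PFD.LBG

/-!
Squad PFD, block D2, row LBG: a balanced bilinear map `P × P → A` lifts to a balanced bilinear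
map to `Γ × P`.
-/

namespace Pool.Agent.PFD.D2.H17

open MulOpposite
open Pool.Agent.PFC.B1 (BiM)

/-- lifting of a bilinear map on a free module along a linear map -/
theorem bil_lift {R X P A : Type} [CommRing R] [AddCommGroup X] [Module R X]
    [Module.Free R X] [AddCommGroup P] [Module R P] [AddCommGroup A] [Module R A]
    (q : P →ₗ[R] A) (g : X →ₗ[R] X →ₗ[R] A) (h : ∀ x y, ∃ p, q p = g x y) :
    ∃ b : X →ₗ[R] X →ₗ[R] P, ∀ x y, q (b x y) = g x y := by
  classical
  let bs := Module.Free.chooseBasis R X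
  choose f hf using h
  let b : X →ₗ[R] X →ₗ[R] P := bs.constr R (fun i => bs.constr R (fun k => f (bs i) (bs k)))
  have hb : b.compr₂ q = g := by
    refine bs.ext fun i => bs.ext fun k => ?_
    rw [LinearMap.compr₂_apply]
    show q ((bs.constr R (fun i => bs.constr R (fun k => f (bs i) (bs k)))) (bs i) (bs k)) = _
    rw [Module.Basis.constr_basis, Module.Basis.constr_basis]
    exact hf _ _
  refine ⟨b, fun x y => ?_⟩
  rw [← hb, LinearMap.compr₂_apply]

theorem lbg : LbgStmt := by
  intro R F Γ A X X0 P _ _ _ _ c _ _ _ _ _ _ _ _ _ _ _ _ BX D hL _ _ _ _ L β0 h1 h2 h3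
  -- the map on `X × X`
  let g : X →ₗ[R] X →ₗ[R] A := β0.compl₁₂ L.p L.p
  have hg : ∀ x y, g x y = β0 (L.p x) (L.p y) := fun x y => rfl
  have g1 : ∀ γ x y, g (BX.lm γ x) y = D.j γ * g x y := by
    intro γ x y
    rw [hg, hg, L.p1.1, h1]
  have g2 : ∀ γ x y, g (BX.rm (op γ) x) y = g x (BX.lm γ y) := by
    intro γ x y
    rw [hg, hg, L.p1.2, h2, L.p1.1]
  have g3 : ∀ γ x y, g x (BX.rm (op γ) y) = g x y * D.j γ := by
    intro γ x y
    rw [hg, hg, L.p1.2, h3]
  have jz : ∀ n : Γ, D.j (c.π • n) = 0 := by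
    intro n
    rw [map_smul, Algebra.smul_def, D.hA, zero_mul]
  have qz : ∀ n : P, L.q (c.π • n) = 0 := by
    intro n
    rw [map_smul, Algebra.smul_def, D.hA, zero_mul]
  -- the component in `Γ`
  obtain ⟨b1, hb1⟩ := bil_lift D.j.toLinearMap (g.compr₂ D.e) (by
    intro x y
    obtain ⟨γ, hγ⟩ := D.e1 (g x y)
    exact ⟨γ, by rw [LinearMap.compr₂_apply]; exact hγ.symm⟩)
  have hb1' : ∀ x y, D.j (b1 x y) = D.e (g x y) := fun x y => hb1 x y
  have P1 : Bal2P c.π BX (regB R Γ) b1 := by
    refine ⟨?_, ?_, ?_⟩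
    · intro γ x y
      apply D.hj
      show D.j (b1 (BX.lm γ x) y - γ * b1 x y) = 0
      rw [map_sub, map_mul, hb1', hb1', g1, D.e3, sub_self]
    · intro γ x y
      apply D.hj
      rw [map_sub, hb1', hb1', g2, sub_self]
    · intro γ x y
      apply D.hj
      show D.j (b1 x (BX.rm γ y) - b1 x y * γ.unop) = 0
      have h := g3 γ.unop x y
      rw [op_unop] at h
      rw [map_sub, map_mul, hb1', hb1', h, D.e4, sub_self]
  obtain ⟨B1, hB1, hB1e⟩ := hL.l3 b1 P1
  have jB1 : ∀ x y, D.j (B1 x y) = D.e (g x y) := by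
    intro x y
    obtain ⟨n, hn⟩ := hB1e x y
    rw [sub_eq_iff_eq_add] at hn
    rw [hn, map_add, jz, zero_add, hb1']
  -- the component in `P`
  obtain ⟨b2, hb2⟩ := bil_lift L.q (g - g.compr₂ D.e) (by
    intro x y
    apply L.q4
    show D.e (g x y - D.e (g x y)) = 0
    obtain ⟨γ, hγ⟩ := D.e1 (g x y)
    rw [map_sub, hγ, D.e2, ← hγ, sub_self])
  have hb2' : ∀ x y, L.q (b2 x y) = g x y - D.e (g x y) := fun x y => hb2 x y
  have P2 : Bal2P c.π BX BX (b2.compr₂ L.i) := by
    refine ⟨?_, ?_, ?_⟩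
    · intro γ x y
      show ∃ n, L.i (b2 (BX.lm γ x) y) - BX.lm γ (L.i (b2 x y)) = c.π • n
      obtain ⟨z, hz⟩ := (L.q5 (b2 (BX.lm γ x) y - L.lm γ (b2 x y))).1 (by
        rw [map_sub, L.q1, hb2', hb2', g1, D.e3, mul_sub, sub_self])
      refine ⟨L.i z, ?_⟩
      rw [← map_smul, ← hz, map_sub, L.i1.1]
    · intro γ x y
      show ∃ n, L.i (b2 (BX.rm (op γ) x) y) - L.i (b2 x (BX.lm γ y)) = c.π • n
      obtain ⟨z, hz⟩ := (L.q5 (b2 (BX.rm (op γ) x) y - b2 x (BX.lm γ y))).1 (by
        rw [map_sub, hb2', hb2', g2, sub_self])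
      refine ⟨L.i z, ?_⟩
      rw [← map_smul, ← hz, map_sub]
    · intro γ x y
      show ∃ n, L.i (b2 x (BX.rm γ y)) - BX.rm γ (L.i (b2 x y)) = c.π • n
      have h := g3 γ.unop x y
      rw [op_unop] at h
      have hq := L.q2 γ.unop (b2 x y)
      rw [op_unop] at hq
      obtain ⟨z, hz⟩ := (L.q5 (b2 x (BX.rm γ y) - L.rm γ (b2 x y))).1 (by
        rw [map_sub, hq, hb2', hb2', h, D.e4, sub_mul, sub_self])
      refine ⟨L.i z, ?_⟩
      rw [← map_smul, ← hz, map_sub, L.i1.2]
  obtain ⟨B2, hB2, hB2e⟩ := hL.l2 (b2.compr₂ L.i) P2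
  have hpi : ∀ z, L.p (L.i z) = z := fun z => LinearMap.congr_fun L.pi z
  have qB2 : ∀ x y, L.q (L.p (B2 x y)) = g x y - D.e (g x y) := by
    intro x y
    obtain ⟨n, hn⟩ := hB2e x y
    rw [sub_eq_iff_eq_add] at hn
    rw [hn, map_add, map_smul, map_add, qz, zero_add, LinearMap.compr₂_apply, hpi, hb2']
  -- the lift
  let β : P →ₗ[R] P →ₗ[R] Γ × P :=
    LinearMap.mk₂ R (fun p p' => (B1 (L.i p) (L.i p'), L.p (B2 (L.i p) (L.i p'))))
      (fun p p' z => by simp only [map_add, LinearMap.add_apply, Prod.mk_add_mk])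
      (fun r p z => by simp only [map_smul, LinearMap.smul_apply, Prod.smul_mk])
      (fun p z z' => by simp only [map_add, Prod.mk_add_mk])
      (fun r p z => by simp only [map_smul, Prod.smul_mk])
  have hβ : ∀ p p', β p p' = (B1 (L.i p) (L.i p'), L.p (B2 (L.i p) (L.i p'))) :=
    fun p p' => rfl
  refine ⟨β, ⟨?_, ?_, ?_⟩, ?_⟩
  · intro γ p p'
    rw [hβ, hβ, L.i1.1, hB1.1, hB2.1, L.p1.1]
    rfl
  · intro γ p p'
    rw [hβ, hβ, L.i1.2, hB1.2.1, hB2.2.1, L.i1.1]
  · intro γ p p'
    rw [hβ, hβ, L.i1.2, hB1.2.2, hB2.2.2, L.p1.2]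
    rfl
  · intro p p'
    rw [hβ]
    show D.j (B1 (L.i p) (L.i p')) + L.q (L.p (B2 (L.i p) (L.i p'))) = β0 p p'
    rw [jB1, qB2, add_sub_cancel, hg, hpi, hpi]

end Pool.Agent.PFD.D2.H17
end -- Pool.Agent.Helper17_PFD.LBG

section -- Pool.Agent.Helper72_PFD.Alx

/-! ALX: the multiplication lifts (copy of B1/ALG). -/

noncomputable section

namespace Pool.Agent.PFD.D2.H72

open MulOpposite Pool.Agent.PFD.D2
open Pool.Agent.PFC.B1 (BiM FS Sep RngStmt PenStmt)




section
variable {R Γ P : Type} [CommRing R] [Ring Γ] [Algebra R Γ] [AddCommGroup P] [Module R P]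

private theorem mu_add_left (B : BiM R Γ P) (β : P →ₗ[R] P →ₗ[R] Γ × P) (x x' y : Γ × P) :
    B.mu β (x + x') y = B.mu β x y + B.mu β x' y := by
  unfold BiM.mu
  ext
  · simp [add_mul]
    abel
  · simp only [Prod.fst_add, Prod.snd_add, map_add, LinearMap.add_apply, Prod.snd_add]
    abel

private theorem mu_add_right (B : BiM R Γ P) (β : P →ₗ[R] P →ₗ[R] Γ × P) (x y y' : Γ × P) :
    B.mu β x (y + y') = B.mu β x y + B.mu β x y' := by
  unfold BiM.mu
  ext
  · simp [mul_add]
    abel
  · simp only [Prod.fst_add, Prod.snd_add, map_add, LinearMap.add_apply, Prod.snd_add, op_add]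
    abel

private theorem mu_smul_left (B : BiM R Γ P) (β : P →ₗ[R] P →ₗ[R] Γ × P) (r : R) (x y : Γ × P) :
    B.mu β (r • x) y = r • B.mu β x y := by
  unfold BiM.mu
  ext
  · simp [smul_add]
  · simp only [Prod.smul_fst, Prod.smul_snd, map_smul, LinearMap.smul_apply, Prod.snd_add,
      smul_add]

private theorem mu_smul_right (B : BiM R Γ P) (β : P →ₗ[R] P →ₗ[R] Γ × P) (r : R)
    (x y : Γ × P) : B.mu β x (r • y) = r • B.mu β x y := by
  unfold BiM.mu
  ext
  · simp [smul_add]
  · simp only [Prod.smul_fst, Prod.smul_snd, map_smul, LinearMap.smul_apply, Prod.snd_add,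
      smul_add, op_smul]

private theorem mu_beta (B : BiM R Γ P) (β ν : P →ₗ[R] P →ₗ[R] Γ × P) (r : R) (x y : Γ × P) :
    B.mu (β + r • ν) x y = B.mu β x y + r • ν x.2 y.2 := by
  unfold BiM.mu
  simp only [LinearMap.add_apply, LinearMap.smul_apply]
  abel

private theorem as_beta (B : BiM R Γ P) (β ν : P →ₗ[R] P →ₗ[R] Γ × P) (r : R) (x y z : Γ × P) :
    ∃ w, B.as (β + r • ν) x y z = B.as β x y z + r • w := by
  refine ⟨B.mu β (ν x.2 y.2) z + ν (B.mu (β + r • ν) x y).2 z.2
    - (B.mu β x (ν y.2 z.2) + ν x.2 (B.mu (β + r • ν) y z).2), ?_⟩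
  unfold BiM.as
  rw [mu_beta B β ν r (B.mu (β + r • ν) x y) z, mu_beta B β ν r x (B.mu (β + r • ν) y z)]
  have h1 : B.mu β (B.mu (β + r • ν) x y) z
      = B.mu β (B.mu β x y) z + r • B.mu β (ν x.2 y.2) z := by
    rw [mu_beta B β ν r x y, mu_add_left, mu_smul_left]
  have h2 : B.mu β x (B.mu (β + r • ν) y z)
      = B.mu β x (B.mu β y z) + r • B.mu β x (ν y.2 z.2) := by
    rw [mu_beta B β ν r y z, mu_add_right, mu_smul_right]
  rw [h1, h2, smul_sub, smul_add, smul_add]
  abel

/-- the submodule of balanced maps -/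
private def balS (B : BiM R Γ P) : Submodule R (P →ₗ[R] P →ₗ[R] Γ × P) where
  carrier := {β | B.Bal β}
  zero_mem' := by
    refine ⟨fun γ p p' => ?_, fun γ p p' => ?_, fun γ p p' => ?_⟩ <;>
      simp [BiM.la, BiM.ra] <;> rfl
  add_mem' := by
    intro β β' h h'
    refine ⟨fun γ p p' => ?_, fun γ p p' => ?_, fun γ p p' => ?_⟩
    · simp only [LinearMap.add_apply, h.1, h'.1, BiM.la]
      ext
      · simp [mul_add]
      · simp
    · simp only [LinearMap.add_apply, h.2.1, h'.2.1]
    · simp only [LinearMap.add_apply, h.2.2, h'.2.2, BiM.ra]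
      ext
      · simp [add_mul]
      · simp
  smul_mem' := by
    intro r β h
    refine ⟨fun γ p p' => ?_, fun γ p p' => ?_, fun γ p p' => ?_⟩
    · simp only [LinearMap.smul_apply, h.1, BiM.la]
      ext
      · simp
      · simp
    · simp only [LinearMap.smul_apply, h.2.1]
    · simp only [LinearMap.smul_apply, h.2.2, BiM.ra]
      ext
      · simp
      · simp

end

theorem sep_of {R F M : Type} [CommRing R] [Field F] (c : Cdv R F) [AddCommGroup M] [Module R M]
    [Module.Finite R M] [Module.Free R M] (v : M)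
    (h : ∀ n, 1 ≤ n → ∃ w, v = c.π ^ n • w) : v = 0 := by
  have b := Module.Free.chooseBasis R M
  apply b.ext_elem
  intro i
  rw [map_zero, Finsupp.zero_apply]
  refine c.sep _ fun n => ?_
  rcases Nat.eq_zero_or_pos n with hn | hn
  · exact ⟨b.repr v i, by rw [hn, pow_zero, one_mul]⟩
  · obtain ⟨w, hw⟩ := h n hn
    refine ⟨b.repr w i, ?_⟩
    conv_lhs => rw [hw]
    rw [map_smul, Finsupp.smul_apply, smul_eq_mul]

theorem suc_sub (hSuc : SugStmt) (R F M : Type) [CommRing R] [IsDomain R]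
    [IsPrincipalIdealRing R] [Field F] (c : Cdv R F) [AddCommGroup M]
    [Module R M] [Module.Finite R M] [Module.Free R M]
    (S : Submodule R M) (P : ℕ → M → Prop)
    (h1 : ∀ n, ∀ x ∈ S, ∀ z ∈ S, P n x → P n (x + c.π ^ n • z))
    (h2 : ∀ n, 1 ≤ n → ∀ x ∈ S, P n x →
      ∃ z ∈ S, P (n + 1) (x + c.π ^ n • z)) :
    ∀ x ∈ S, P 1 x → ∃ z ∈ S, ∀ n, 1 ≤ n → P n (x + c.π • z) := by
  intro x hx hP
  have : IsNoetherian R M := isNoetherian_of_isNoetherianRing_of_finite _ M
  have : Module.Finite R S := Module.IsNoetherian.finite _ _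
  have : Module.Free R S := inferInstance
  obtain ⟨z, hz⟩ := hSuc R F S c (fun n y => P n y.1)
    (fun n y z hy => h1 n y.1 y.2 z.1 z.2 hy)
    (fun n y hn hy => by
      obtain ⟨z, hz, hz2⟩ := h2 n hn y.1 y.2 hy
      exact ⟨⟨z, hz⟩, hz2⟩)
    ⟨x, hx⟩ hP
  exact ⟨z.1, z.2, hz⟩

theorem alx (hSug : SugStmt) (_hPen : PenStmt) (hStg : StgStmt) : AlxStmt := by
  intro R F Γ A X X0 K P _ _ _ _ c _ _ _ _ _ _ _ _ _ _ BX D _ sep _ _ _ _ L hB
  -- the multiplicativity of qq
  have hqX : ∀ (n : ℕ) (v : Γ × P), 1 ≤ n →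
      L.qq (c.π ^ n • v) = 0 := by
    intro n v hn
    obtain ⟨m, rfl⟩ : ∃ m, n = m + 1 := ⟨n - 1, by omega⟩
    have h1 : ∀ a : A, c.π ^ (m + 1) • a = 0 := by
      intro a
      rw [Algebra.smul_def, map_pow, D.hA, zero_pow (by omega), zero_mul]
    unfold PLX.qq
    rw [Prod.smul_fst, Prod.smul_snd, map_smul, map_smul, h1, h1, add_zero]
  have hqadd : ∀ v w : Γ × P, L.qq (v + w) = L.qq v + L.qq w := by
    intro v w
    unfold PLX.qq
    rw [Prod.fst_add, Prod.snd_add, map_add, map_add]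
    abel
  have hqsub : ∀ v w : Γ × P, L.qq (v - w) = L.qq v - L.qq w := by
    intro v w
    unfold PLX.qq
    rw [Prod.fst_sub, Prod.snd_sub, map_sub, map_sub]
    abel
  have hqmul : ∀ β : P →ₗ[R] P →ₗ[R] Γ × P,
      (∀ p p', L.qq (β p p') = L.q p * L.q p') →
      ∀ x y, L.qq (L.toBiM.mu β x y) = L.qq x * L.qq y := by
    intro β hβ x y
    unfold BiM.mu
    rw [hqadd, hβ]
    unfold PLX.qq
    simp only
    rw [map_mul, map_add, L.q1, L.q2]
    noncomm_ring
  have hqker : ∀ v : Γ × P, L.qq v = 0 →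
      ∃ w, v = c.π ^ 1 • w := by
    rintro ⟨γ, p⟩ hv
    unfold PLX.qq at hv
    simp only at hv
    have h1 : D.j γ = 0 := by
      have h2 := congrArg D.e hv
      rw [map_add, D.e2, L.q3, add_zero, map_zero] at h2
      exact h2
    have h2 : L.q p = 0 := by
      rw [h1, zero_add] at hv
      exact hv
    obtain ⟨γ', hγ'⟩ := D.hj γ h1
    obtain ⟨y, hy⟩ := (L.q5 p).1 h2
    refine ⟨(γ', y), ?_⟩
    rw [pow_one, hγ', hy]
    rfl
  -- the start
  obtain ⟨β1, hB1, hq1⟩ := hB
    ((LinearMap.mul (R) A).compl₁₂ L.q L.q)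
    (by
      intro γ p p'
      simp only [LinearMap.compl₁₂_apply, LinearMap.mul_apply', L.q1]
      rw [mul_assoc])
    (by
      intro γ p p'
      simp only [LinearMap.compl₁₂_apply, LinearMap.mul_apply', L.q1, L.q2]
      rw [mul_assoc])
    (by
      intro γ p p'
      simp only [LinearMap.compl₁₂_apply, LinearMap.mul_apply', L.q2]
      rw [mul_assoc])
  have hq1' : ∀ p p', L.qq (β1 p p') = L.q p * L.q p' := fun p p' => by
    rw [hq1]
    rfl
  -- successive approximation
  obtain ⟨z, hzS, hz⟩ := suc_sub hSug R F (P →ₗ[R] P →ₗ[R] Γ × P) c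
    (balS L.toBiM)
    (fun n β => n = 0 ∨ ((∀ p p', L.qq (β p p') = L.q p * L.q p') ∧
      ∀ x y w, ∃ u, L.toBiM.as β x y w = c.π ^ n • u))
    (by
      rintro n β hβ ν hν (h | ⟨h1, h2⟩)
      · exact Or.inl h
      · rcases Nat.eq_zero_or_pos n with hn | hn
        · exact Or.inl hn
        · right
          refine ⟨fun p p' => ?_, fun x y w => ?_⟩
          · rw [LinearMap.add_apply, LinearMap.add_apply, hqadd, LinearMap.smul_apply,
              LinearMap.smul_apply, hqX n _ hn, add_zero, h1]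
          · obtain ⟨u, hu⟩ := h2 x y w
            obtain ⟨u', hu'⟩ := as_beta L.toBiM β ν (c.π ^ n) x y w
            refine ⟨u + u', ?_⟩
            rw [hu', hu, smul_add])
    (by
      rintro n hn β hβ (h | ⟨h1, h2⟩)
      · omega
      · obtain ⟨ν, hν, hν2⟩ := hStg R F Γ A X X0 K P c BX D sep L hB β n hn hβ h1 h2
        refine ⟨ν, hν, Or.inr ⟨fun p p' => ?_, hν2⟩⟩
        rw [LinearMap.add_apply, LinearMap.add_apply, hqadd, LinearMap.smul_apply,
              LinearMap.smul_apply, hqX n _ hn, add_zero, h1])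
    β1 hB1
    (by
      right
      refine ⟨hq1', fun x y w => hqker _ ?_⟩
      unfold BiM.as
      rw [hqsub, hqmul β1 hq1', hqmul β1 hq1', hqmul β1 hq1', hqmul β1 hq1', mul_assoc, sub_self])
  refine ⟨β1 + c.π • z,
    (balS L.toBiM).add_mem hB1 ((balS L.toBiM).smul_mem _ hzS), fun x y w => ?_, ?_⟩
  · refine sep_of c _ ?_
    intro n hn
    rcases hz n hn with h | h
    · omega
    · exact h.2 x y w
  · rcases hz 1 le_rfl with h | h
    · omega
    · exact h.1

end Pool.Agent.PFD.D2.H72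
end
end -- Pool.Agent.Helper72_PFD.Alx

section -- Pool.Agent.Helper79_PFD.EXX

/-!
# PFD row EXX: existence of the deformation over a complete discrete valuation ring
-/

open scoped BigOperators

noncomputable section

namespace Pool.Agent.PFD.D2.H79

open MulOpposite
open Pool.Agent.PFC.B1 (BiM FS Sep RngStmt PenStmt)

theorem exx (hP : PlgStmt) (hL : LbgStmt) (hA : AlxStmt) (hR : RngStmt) : ExxStmt := by
  intro R F Γ Γ0 A X X0 K _ _ _ _ c _ _ _ _ _ _ _ _ _ _ _ _ _ _ f BX B0 g hlft sp0 _ sepA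
  let algA : Algebra R A := RingHom.toAlgebra' ((algebraMap F A).comp c.κ) (by
    intro r x
    exact Algebra.commutes _ _)
  have amA : ∀ r : R, algebraMap R A r = algebraMap F A (c.κ r) := fun r => rfl
  have smA : ∀ (r : R) (x : A), r • x = c.κ r • x := by
    intro r x
    rw [Algebra.smul_def, Algebra.smul_def, amA]
  let modX : Module R X0 := Module.compHom X0 c.κ
  have smX : ∀ (r : R) (x : X0), r • x = c.κ r • x := fun r x => rfl
  have hkπ : c.κ c.π = 0 := (c.ker c.π).2 ⟨1, by rw [mul_one]⟩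
  -- the residue data
  let jj : Γ →ₐ[R] A :=
    { toRingHom := (sp0.j : Γ0 →+* A).comp f.q
      commutes' := by
        intro r
        show sp0.j (f.q (algebraMap R Γ r)) = _
        rw [f.sc, AlgHom.commutes, amA] }
  have hjj : ∀ γ, jj γ = sp0.j (f.q γ) := fun γ => rfl
  let B0' : BiM R Γ X0 :=
    { lm :=
        { toFun := fun γ =>
            { toFun := fun x => B0.lm (f.q γ) x
              map_add' := fun x y => map_add _ x y
              map_smul' := fun r x => by
                show B0.lm (f.q γ) (c.κ r • x) = c.κ r • B0.lm (f.q γ) x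
                exact map_smul _ _ _ }
          map_one' := by
            apply LinearMap.ext
            intro x
            show B0.lm (f.q 1) x = x
            rw [map_one, map_one]
            rfl
          map_mul' := by
            intro a b
            apply LinearMap.ext
            intro x
            show B0.lm (f.q (a * b)) x = B0.lm (f.q a) (B0.lm (f.q b) x)
            rw [map_mul, map_mul]
            rfl
          map_zero' := by
            apply LinearMap.ext
            intro x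
            show B0.lm (f.q 0) x = 0
            rw [map_zero, map_zero]
            rfl
          map_add' := by
            intro a b
            apply LinearMap.ext
            intro x
            show B0.lm (f.q (a + b)) x = B0.lm (f.q a) x + B0.lm (f.q b) x
            rw [map_add, map_add]
            rfl
          commutes' := by
            intro r
            apply LinearMap.ext
            intro x
            show B0.lm (f.q (algebraMap R Γ r)) x = c.κ r • x
            rw [f.sc, AlgHom.commutes, Module.algebraMap_end_apply] }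
      rm :=
        { toFun := fun γ =>
            { toFun := fun x => B0.rm (op (f.q γ.unop)) x
              map_add' := fun x y => map_add _ x y
              map_smul' := fun r x => by
                show B0.rm (op (f.q γ.unop)) (c.κ r • x) = c.κ r • B0.rm (op (f.q γ.unop)) x
                exact map_smul _ _ _ }
          map_one' := by
            apply LinearMap.ext
            intro x
            show B0.rm (op (f.q (1 : Γᵐᵒᵖ).unop)) x = x
            rw [unop_one, map_one, op_one, map_one]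
            rfl
          map_mul' := by
            intro a b
            apply LinearMap.ext
            intro x
            show B0.rm (op (f.q (a * b).unop)) x =
              B0.rm (op (f.q a.unop)) (B0.rm (op (f.q b.unop)) x)
            rw [unop_mul, map_mul, op_mul, map_mul]
            rfl
          map_zero' := by
            apply LinearMap.ext
            intro x
            show B0.rm (op (f.q (0 : Γᵐᵒᵖ).unop)) x = 0
            rw [unop_zero, map_zero, op_zero, map_zero]
            rfl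
          map_add' := by
            intro a b
            apply LinearMap.ext
            intro x
            show B0.rm (op (f.q (a + b).unop)) x =
              B0.rm (op (f.q a.unop)) x + B0.rm (op (f.q b.unop)) x
            rw [unop_add, map_add, op_add, map_add]
            rfl
          commutes' := by
            intro r
            apply LinearMap.ext
            intro x
            show B0.rm (op (f.q (algebraMap R Γᵐᵒᵖ r).unop)) x = c.κ r • x
            rw [MulOpposite.algebraMap_apply, unop_op, f.sc]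
            have h2 := B0.rm.commutes (c.κ r)
            rw [MulOpposite.algebraMap_apply] at h2
            rw [h2, Module.algebraMap_end_apply] }
      comm := fun a b x => B0.comm _ _ _ }
  have hlm : ∀ γ x, B0'.lm γ x = B0.lm (f.q γ) x := fun _ _ => rfl
  have hrm : ∀ (γ : Γ) x, B0'.rm (op γ) x = B0.rm (op (f.q γ)) x := fun _ _ => rfl
  let D : ResX Γ A X X0 c BX :=
    { j := jj
      hA := by rw [amA, hkπ, map_zero]
      hj := by
        intro γ h
        rw [hjj] at h
        have h2 : f.q γ = 0 := by rw [← sp0.pr_j (f.q γ), h, map_zero]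
        exact f.ker γ h2
      e :=
        { toFun := fun x => sp0.j (sp0.pr x)
          map_add' := fun x y => by rw [map_add, map_add]
          map_smul' := fun r x => by
            rw [smA, map_smul, map_smul, RingHom.id_apply, smA] }
      e1 := by
        intro x
        obtain ⟨γ, hγ⟩ := f.surj (sp0.pr x)
        refine ⟨γ, ?_⟩
        show sp0.j (sp0.pr x) = sp0.j (f.q γ)
        rw [hγ]
      e2 := by
        intro γ
        show sp0.j (sp0.pr (sp0.j (f.q γ))) = sp0.j (f.q γ)
        rw [sp0.pr_j]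
      e3 := by
        intro γ x
        show sp0.j (sp0.pr (sp0.j (f.q γ) * x)) = sp0.j (f.q γ) * sp0.j (sp0.pr x)
        rw [sp0.pr_l, map_mul]
      e4 := by
        intro γ x
        show sp0.j (sp0.pr (x * sp0.j (f.q γ))) = sp0.j (sp0.pr x) * sp0.j (f.q γ)
        rw [sp0.pr_r, map_mul]
      B0 := B0'
      s :=
        { toFun := fun x => g.s x
          map_add' := fun x y => map_add _ x y
          map_smul' := fun r x => g.sc r x }
      s1 := by
        constructor
        · intro γ x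
          exact g.lm γ x
        · intro γ x
          exact g.rm γ.unop x
      s2 := g.surj
      s3 := by
        intro x
        constructor
        · intro h
          exact g.ker x h
        · rintro ⟨y, rfl⟩
          show g.s (c.π • y) = 0
          rw [g.sc, hkπ, zero_smul]
      i0 :=
        { toFun := fun x => sp0.i x
          map_add' := fun x y => map_add _ x y
          map_smul' := fun r x => by
            rw [smA, map_smul, RingHom.id_apply, smX] }
      i1 := by
        intro γ x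
        exact sp0.i1 _ _
      i2 := by
        intro γ x
        exact sp0.i2 _ _
      p0 :=
        { toFun := fun x => sp0.p x
          map_add' := fun x y => map_add _ x y
          map_smul' := fun r x => by
            rw [smX, map_smul, RingHom.id_apply, smA] }
      p1 := by
        intro γ x
        exact sp0.p1 _ _
      p2 := by
        intro γ x
        exact sp0.p2 _ _
      ip := by
        intro x
        exact sp0.ip x }
  have hDj : ∀ γ, D.j γ = sp0.j (f.q γ) := fun _ => rfl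
  have hDe : ∀ x, D.e x = sp0.j (sp0.pr x) := fun _ => rfl
  obtain ⟨P, _, _, _, _, ⟨L⟩⟩ := hP R F Γ A X X0 c BX D hlft
  let sepD : Sep Γ A K D.j.toRingHom :=
    { u := sepA.u
      v := sepA.v
      one := sepA.one
      bal := by
        intro Y _ B hB
        apply sepA.bal
        intro x γ0 y
        obtain ⟨γ, rfl⟩ := f.surj γ0
        exact hB x γ y }
  have hB := hL R F Γ A X X0 P c BX D hlft L
  obtain ⟨β, hβ, has, hqq⟩ := hA R F Γ A X X0 K P c BX D sepD L hB
  obtain ⟨A', _, _, φ, φ1, φm⟩ := hR R Γ P L.toBiM β hβ has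
  have finA' : Module.Finite R A' := Module.Finite.equiv φ
  have freeA' : Module.Free R A' := Module.Free.of_equiv φ
  refine ⟨A', _, _, finA', freeA', ⟨?_⟩⟩
  have φs : ∀ x y, φ.symm (x * y) = L.toBiM.mu β (φ.symm x) (φ.symm y) := by
    intro x y
    rw [LinearEquiv.symm_apply_eq, φm, LinearEquiv.apply_symm_apply,
      LinearEquiv.apply_symm_apply]
  have mu1 : ∀ (γ : Γ) (y : Γ × P), L.toBiM.mu β (γ, 0) y = (γ * y.1, L.lm γ y.2) := by
    intro γ y
    simp [BiM.mu, Pool.Agent.PFC.B1.BiM.mu]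
  have mu2 : ∀ (γ : Γ) (y : Γ × P), L.toBiM.mu β y (γ, 0) = (y.1 * γ, L.rm (op γ) y.2) := by
    intro γ y
    simp [Pool.Agent.PFC.B1.BiM.mu]
  let sp : SplitX A' BX :=
    { j :=
        { toFun := fun γ => φ (γ, 0)
          map_one' := φ1
          map_mul' := by
            intro a b
            rw [← φm, mu1]
            congr 2
            exact (map_zero _).symm
          map_zero' := by
            rw [show ((0 : Γ), (0 : P)) = 0 from rfl, map_zero]
          map_add' := by
            intro a b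
            rw [← map_add, Prod.mk_add_mk, add_zero]
          commutes' := by
            intro r
            rw [Algebra.algebraMap_eq_smul_one, Algebra.algebraMap_eq_smul_one (A := A'), ← φ1,
              ← map_smul, Prod.smul_mk, smul_zero] }
      pr :=
        { toFun := fun x => (φ.symm x).1
          map_add' := fun x y => by rw [map_add]; rfl
          map_smul' := fun r x => by rw [map_smul]; rfl }
      pr_j := by
        intro γ
        show (φ.symm (φ (γ, 0))).1 = γ
        rw [LinearEquiv.symm_apply_apply]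
      pr_l := by
        intro γ x
        show (φ.symm (φ (γ, 0) * x)).1 = γ * (φ.symm x).1
        rw [φs, LinearEquiv.symm_apply_apply, mu1]
      pr_r := by
        intro x γ
        show (φ.symm (x * φ (γ, 0))).1 = (φ.symm x).1 * γ
        rw [φs, LinearEquiv.symm_apply_apply, mu2]
      i :=
        { toFun := fun x => L.i (φ.symm x).2
          map_add' := fun x y => by
            rw [map_add φ.symm, Prod.snd_add, map_add]
          map_smul' := fun r x => by
            rw [map_smul φ.symm, Prod.smul_snd, map_smul]; rfl }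
      i1 := by
        intro γ x
        show L.i (φ.symm (φ (γ, 0) * x)).2 = BX.lm γ (L.i (φ.symm x).2)
        rw [φs, LinearEquiv.symm_apply_apply, mu1]
        exact L.i1.1 _ _
      i2 := by
        intro γ x
        show L.i (φ.symm (x * φ (γ, 0))).2 = BX.rm (op γ) (L.i (φ.symm x).2)
        rw [φs, LinearEquiv.symm_apply_apply, mu2]
        exact L.i1.2 _ _
      p :=
        { toFun := fun x => φ (0, L.p x)
          map_add' := fun x y => by
            rw [← map_add, Prod.mk_add_mk, add_zero, map_add]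
          map_smul' := fun r x => by
            rw [RingHom.id_apply, ← map_smul φ, Prod.smul_mk, smul_zero, map_smul] }
      p1 := by
        intro γ x
        show φ (0, L.p (BX.lm γ x)) = φ (γ, 0) * φ (0, L.p x)
        rw [← φm, mu1, mul_zero, L.p1.1]
      p2 := by
        intro γ x
        show φ (0, L.p (BX.rm (op γ) x)) = φ (0, L.p x) * φ (γ, 0)
        rw [← φm, mu2, zero_mul, L.p1.2]
      ip := by
        intro x
        show φ (0, L.p (L.i (φ.symm x).2)) = x - φ ((φ.symm x).1, 0)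
        have h1 : L.p (L.i (φ.symm x).2) = (φ.symm x).2 :=
          LinearMap.congr_fun L.pi _
        rw [h1]
        have h2 : x = φ ((φ.symm x).1, (φ.symm x).2) := (LinearEquiv.apply_symm_apply φ x).symm
        rw [eq_sub_iff_add_eq, ← map_add, Prod.mk_add_mk, zero_add, add_zero]
        exact h2.symm }
  have qq_mul : ∀ x y, L.qq (L.toBiM.mu β x y) = L.qq x * L.qq y := by
    intro x y
    have h1 : L.toBiM.mu β x y =
        (x.1 * y.1, L.lm x.1 y.2 + L.rm (op y.1) x.2) + β x.2 y.2 := rfl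
    have hadd : ∀ a b : Γ × P, L.qq (a + b) = L.qq a + L.qq b := by
      intro a b
      show D.j (a.1 + b.1) + L.q (a.2 + b.2) = (D.j a.1 + L.q a.2) + (D.j b.1 + L.q b.2)
      rw [map_add, map_add]
      abel
    rw [h1, hadd, hqq]
    show D.j (x.1 * y.1) + L.q (L.lm x.1 y.2 + L.rm (op y.1) x.2) + L.q x.2 * L.q y.2 =
      (D.j x.1 + L.q x.2) * (D.j y.1 + L.q y.2)
    rw [map_mul, map_add, L.q1, L.q2]
    noncomm_ring
  have hqs : ∀ (γ : Γ) (x : P), L.qq (γ, x) = sp0.j (f.q γ) + L.q x := fun _ _ => rfl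
  let fb : FibG A' A c :=
    { q :=
        { toFun := fun x => L.qq (φ.symm x)
          map_one' := by
            rw [← φ1, LinearEquiv.symm_apply_apply, hqs, map_one, map_one, map_zero, add_zero]
          map_mul' := by
            intro x y
            rw [φs, qq_mul]
          map_zero' := by
            rw [map_zero]
            show D.j 0 + L.q 0 = 0
            rw [map_zero, map_zero, add_zero]
          map_add' := by
            intro x y
            rw [map_add]
            show D.j ((φ.symm x).1 + (φ.symm y).1) + L.q ((φ.symm x).2 + (φ.symm y).2) =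
              (D.j (φ.symm x).1 + L.q (φ.symm x).2) + (D.j (φ.symm y).1 + L.q (φ.symm y).2)
            rw [map_add, map_add]
            abel }
      sc := by
        intro r
        show L.qq (φ.symm (algebraMap R A' r)) = algebraMap F A (c.κ r)
        have h1 : algebraMap R A' r = φ (algebraMap R Γ r, 0) := (sp.j.commutes r).symm
        rw [h1, LinearEquiv.symm_apply_apply, hqs, map_zero, add_zero, f.sc, AlgHom.commutes]
      surj := by
        intro a
        obtain ⟨γ, hγ⟩ := D.e1 a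
        have h0 : D.e (a - D.e a) = 0 := by
          rw [map_sub, hγ, D.e2, sub_self]
        obtain ⟨x, hx⟩ := L.q4 _ h0
        refine ⟨φ (γ, x), ?_⟩
        show L.qq (φ.symm (φ (γ, x))) = a
        rw [LinearEquiv.symm_apply_apply]
        show D.j γ + L.q x = a
        rw [hx, ← hγ]
        abel
      ker := by
        intro x hx
        have hx' : D.j (φ.symm x).1 + L.q (φ.symm x).2 = 0 := hx
        have h1 : D.j (φ.symm x).1 = 0 := by
          have h2 : D.e (D.j (φ.symm x).1 + L.q (φ.symm x).2) = 0 := by rw [hx', map_zero]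
          rw [map_add, D.e2, L.q3, add_zero] at h2
          exact h2
        have h3 : L.q (φ.symm x).2 = 0 := by rw [h1, zero_add] at hx'; exact hx'
        obtain ⟨γ', hγ'⟩ := D.hj _ h1
        obtain ⟨y, hy⟩ := (L.q5 _).1 h3
        refine ⟨φ (γ', y), ?_⟩
        rw [← map_smul, Prod.smul_mk, ← hγ', ← hy]
        exact (LinearEquiv.apply_symm_apply φ x).symm }
  exact
    { sp := sp
      fb := fb
      cj := by
        intro γ
        show L.qq (φ.symm (φ (γ, 0))) = sp0.j (f.q γ)
        rw [LinearEquiv.symm_apply_apply, hqs, map_zero, add_zero]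
      cp := by
        intro x
        show sp0.pr (D.j (φ.symm x).1 + L.q (φ.symm x).2) = f.q (φ.symm x).1
        have h1 : sp0.pr (L.q (φ.symm x).2) = 0 := by
          have h2 : sp0.j (sp0.pr (L.q (φ.symm x).2)) = 0 := L.q3 _
          rw [← sp0.pr_j (sp0.pr (L.q (φ.symm x).2)), h2, map_zero]
        rw [map_add, h1, add_zero, hDj, sp0.pr_j] }

end Pool.Agent.PFD.D2.H79
end
end -- Pool.Agent.Helper79_PFD.EXX

section -- Pool.Agent.PFC.B1.Stp_60

/-!
Squad PFC, row STP: one step of the lifting of the multiplication.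
-/

set_option autoImplicit false

namespace Pool.Agent.PFC.B1.H60

open MulOpposite

section
variable {R Γ P : Type} [CommRing R] [Ring Γ] [Algebra R Γ] [AddCommGroup P] [Module R P]

/-- the multiplication as a bilinear map -/
noncomputable def M (B : BiM R Γ P) (β : P →ₗ[R] P →ₗ[R] Γ × P) :
    (Γ × P) →ₗ[R] (Γ × P) →ₗ[R] Γ × P :=
  LinearMap.mk₂ R (B.mu β)
    (fun x x' y => by
      unfold BiM.mu
      simp only [Prod.fst_add, Prod.snd_add, add_mul, map_add, LinearMap.add_apply]
      refine Prod.ext ?_ ?_ <;> simp only [Prod.fst_add, Prod.snd_add] <;> abel)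
    (fun r x y => by
      unfold BiM.mu
      simp only [Prod.smul_fst, Prod.smul_snd, smul_mul_assoc, map_smul, LinearMap.smul_apply]
      refine Prod.ext ?_ ?_ <;>
        simp only [Prod.fst_add, Prod.snd_add, Prod.smul_fst, Prod.smul_snd, smul_add])
    (fun x y y' => by
      unfold BiM.mu
      simp only [Prod.fst_add, Prod.snd_add, mul_add, map_add, LinearMap.add_apply, op_add]
      refine Prod.ext ?_ ?_ <;> simp only [Prod.fst_add, Prod.snd_add] <;> abel)
    (fun r x y => by
      unfold BiM.mu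
      simp only [Prod.smul_fst, Prod.smul_snd, mul_smul_comm, map_smul, LinearMap.smul_apply,
        op_smul]
      refine Prod.ext ?_ ?_ <;>
        simp only [Prod.fst_add, Prod.snd_add, Prod.smul_fst, Prod.smul_snd, smul_add])

theorem M_apply (B : BiM R Γ P) (β : P →ₗ[R] P →ₗ[R] Γ × P) (x y : Γ × P) :
    M B β x y = B.mu β x y := rfl

/-- the associator through the bilinear map -/
theorem as_eq (B : BiM R Γ P) (β : P →ₗ[R] P →ₗ[R] Γ × P) (x y z : Γ × P) :
    B.as β x y z = M B β (M B β x y) z - M B β x (M B β y z) := rfl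

theorem M_change (B : BiM R Γ P) (β ν : P →ₗ[R] P →ₗ[R] Γ × P) (r : R) (x y : Γ × P) :
    M B (β + r • ν) x y = M B β x y + r • ν x.2 y.2 := by
  rw [M_apply, M_apply]
  unfold BiM.mu
  simp only [LinearMap.add_apply, LinearMap.smul_apply]
  abel

theorem as_change (B : BiM R Γ P) (β ν : P →ₗ[R] P →ₗ[R] Γ × P) (r : R) (x y z : Γ × P) :
    B.as (β + r • ν) x y z = B.as β x y z +
      r • (M B β (ν x.2 y.2) z + ν (M B β x y).2 z.2 - M B β x (ν y.2 z.2) -
        ν x.2 (M B β y z).2) +
      (r * r) • (ν (ν x.2 y.2).2 z.2 - ν x.2 (ν y.2 z.2).2) := by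
  rw [as_eq, as_eq]
  simp only [M_change, map_add, map_smul, LinearMap.add_apply, LinearMap.smul_apply,
    smul_add, smul_sub, mul_smul]
  abel

theorem as_add1 (B : BiM R Γ P) (β : P →ₗ[R] P →ₗ[R] Γ × P) (x x' y z : Γ × P) :
    B.as β (x + x') y z = B.as β x y z + B.as β x' y z := by
  simp only [as_eq, map_add, LinearMap.add_apply]
  abel

theorem as_add2 (B : BiM R Γ P) (β : P →ₗ[R] P →ₗ[R] Γ × P) (x y y' z : Γ × P) :
    B.as β x (y + y') z = B.as β x y z + B.as β x y' z := by
  simp only [as_eq, map_add, LinearMap.add_apply]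
  abel

theorem as_add3 (B : BiM R Γ P) (β : P →ₗ[R] P →ₗ[R] Γ × P) (x y z z' : Γ × P) :
    B.as β x y (z + z') = B.as β x y z + B.as β x y z' := by
  simp only [as_eq, map_add]
  abel

theorem as_smul1 (B : BiM R Γ P) (β : P →ₗ[R] P →ₗ[R] Γ × P) (r : R) (x y z : Γ × P) :
    B.as β (r • x) y z = r • B.as β x y z := by
  simp only [as_eq, map_smul, LinearMap.smul_apply, smul_sub]

theorem as_smul2 (B : BiM R Γ P) (β : P →ₗ[R] P →ₗ[R] Γ × P) (r : R) (x y z : Γ × P) :
    B.as β x (r • y) z = r • B.as β x y z := by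
  simp only [as_eq, map_smul, LinearMap.smul_apply, smul_sub]

theorem as_smul3 (B : BiM R Γ P) (β : P →ₗ[R] P →ₗ[R] Γ × P) (r : R) (x y z : Γ × P) :
    B.as β x y (r • z) = r • B.as β x y z := by
  simp only [as_eq, map_smul, smul_sub]

theorem la_smul (B : BiM R Γ P) (γ : Γ) (r : R) (x : Γ × P) :
    B.la γ (r • x) = r • B.la γ x := by
  unfold BiM.la
  refine Prod.ext ?_ ?_ <;> simp only [Prod.smul_fst, Prod.smul_snd, mul_smul_comm, map_smul]

theorem ra_smul (B : BiM R Γ P) (γ : Γ) (r : R) (x : Γ × P) :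
    B.ra (r • x) γ = r • B.ra x γ := by
  unfold BiM.ra
  refine Prod.ext ?_ ?_ <;> simp only [Prod.smul_fst, Prod.smul_snd, smul_mul_assoc, map_smul]

end

section
variable {F Γ A I P : Type} [Field F] [Ring Γ] [Algebra (PowerSeries F) Γ] [Ring A]
    [Algebra (PowerSeries F) A] [Fintype I] {c : FS (PowerSeries F) Γ I} {D : Res F Γ A I c}
    [AddCommGroup P] [Module (PowerSeries F) P]

theorem X_smul_A (D : Res F Γ A I c) (a : A) : (PowerSeries.X : PowerSeries F) • a = 0 := by
  rw [Algebra.smul_def, D.hX, zero_mul]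

/-- `qq` as a linear map -/
noncomputable def Q (L : PL F Γ A I P c D) : (Γ × P) →ₗ[PowerSeries F] A :=
  LinearMap.coprod D.j.toLinearMap L.q

theorem Q_apply (L : PL F Γ A I P c D) (x : Γ × P) : Q L x = L.qq x := rfl

theorem Q_mul (L : PL F Γ A I P c D) (β : P →ₗ[PowerSeries F] P →ₗ[PowerSeries F] Γ × P)
    (hq : ∀ p p', L.qq (β p p') = L.q p * L.q p') (x y : Γ × P) :
    Q L (M L.toBiM β x y) = Q L x * Q L y := by
  rw [M_apply]
  unfold BiM.mu
  rw [map_add, Q_apply L (β x.2 y.2), hq, Q_apply, Q_apply, Q_apply]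
  unfold PL.qq
  simp only [map_mul, map_add, L.q1, L.q2]
  noncomm_ring

theorem Q_la (L : PL F Γ A I P c D) (γ : Γ) (x : Γ × P) :
    Q L (L.toBiM.la γ x) = D.j γ * Q L x := by
  rw [Q_apply, Q_apply]
  unfold BiM.la PL.qq
  simp only [map_mul, L.q1, mul_add]

theorem Q_ra (L : PL F Γ A I P c D) (γ : Γ) (x : Γ × P) :
    Q L (L.toBiM.ra x γ) = Q L x * D.j γ := by
  rw [Q_apply, Q_apply]
  unfold BiM.ra PL.qq
  simp only [map_mul, L.q2, add_mul]

theorem Q_surj (L : PL F Γ A I P c D) (a : A) : ∃ x, Q L x = a := by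
  obtain ⟨γ, hγ⟩ := D.e1 a
  have h : D.e (a - D.e a) = 0 := by
    rw [map_sub, hγ, D.e2, sub_self]
  obtain ⟨x, hx⟩ := L.q4 _ h
  refine ⟨(γ, x), ?_⟩
  rw [Q_apply]
  unfold PL.qq
  simp only [hx, hγ]
  abel

theorem Q_ker (L : PL F Γ A I P c D) (x : Γ × P) (h : Q L x = 0) :
    ∃ y, x = (PowerSeries.X : PowerSeries F) • y := by
  rw [Q_apply] at h
  unfold PL.qq at h
  have h1 : D.j x.1 = 0 := by
    have := congrArg D.e h
    rw [map_add, D.e2, L.q3, add_zero, map_zero] at this
    exact this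
  rw [h1, zero_add] at h
  obtain ⟨γ, hγ⟩ := D.hj _ h1
  obtain ⟨y, hy⟩ := L.q5 _ h
  exact ⟨(γ, y), Prod.ext hγ hy⟩

end

theorem stp (hPen : PenStmt) (hLfb : LfbStmt) : StpStmt := by
  intro F Γ A I K P _ _ _ _ _ _ _ _ _ c D sep _ _ _ _ L β n hn hB hq has
  obtain ⟨p1, p2, p3, p4, p5, p6, p7, p8⟩ := hPen (PowerSeries F) Γ P L.toBiM β hB
  have inj : ∀ u v : Γ × P,
      (PowerSeries.X : PowerSeries F) ^ n • u = (PowerSeries.X : PowerSeries F) ^ n • v → u = v :=
    fun u v h => smul_right_injective (Γ × P)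
      (pow_ne_zero n (PowerSeries.X_ne_zero : (PowerSeries.X : PowerSeries F) ≠ 0)) h
  choose w hw using has
  have hw' : ∀ x y z u, L.toBiM.as β x y z = (PowerSeries.X : PowerSeries F) ^ n • u →
      w x y z = u := fun x y z u h => inj _ _ ((hw x y z).symm.trans h)
  -- multilinearity of `w`
  have wadd1 : ∀ x x' y z, w (x + x') y z = w x y z + w x' y z := fun x x' y z => hw' _ _ _ _ (by
    rw [as_add1, hw x, hw x', smul_add])
  have wadd2 : ∀ x y y' z, w x (y + y') z = w x y z + w x y' z := fun x y y' z => hw' _ _ _ _ (by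
    rw [as_add2, hw x, hw x, smul_add])
  have wadd3 : ∀ x y z z', w x y (z + z') = w x y z + w x y z' := fun x y z z' => hw' _ _ _ _ (by
    rw [as_add3, hw x, hw x, smul_add])
  have wsm1 : ∀ (r : PowerSeries F) x y z, w (r • x) y z = r • w x y z := fun r x y z =>
    hw' _ _ _ _ (by rw [as_smul1, hw x, smul_comm])
  have wsm2 : ∀ (r : PowerSeries F) x y z, w x (r • y) z = r • w x y z := fun r x y z =>
    hw' _ _ _ _ (by rw [as_smul2, hw x, smul_comm])
  have wsm3 : ∀ (r : PowerSeries F) x y z, w x y (r • z) = r • w x y z := fun r x y z =>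
    hw' _ _ _ _ (by rw [as_smul3, hw x, smul_comm])
  -- balance
  have w2 : ∀ γ x z, w x (γ, 0) z = 0 := fun γ x z => hw' _ _ _ _ (by rw [p2, smul_zero])
  have w3 : ∀ γ x y, w x y (γ, 0) = 0 := fun γ x y => hw' _ _ _ _ (by rw [p3, smul_zero])
  have w4 : ∀ γ x y z, w (L.toBiM.la γ x) y z = L.toBiM.la γ (w x y z) := fun γ x y z =>
    hw' _ _ _ _ (by rw [p4, hw x, la_smul])
  have w5 : ∀ γ x y z, w (L.toBiM.ra x γ) y z = w x (L.toBiM.la γ y) z := fun γ x y z =>
    hw' _ _ _ _ (by rw [p5, hw x])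
  have w6 : ∀ γ x y z, w x (L.toBiM.ra y γ) z = w x y (L.toBiM.la γ z) := fun γ x y z =>
    hw' _ _ _ _ (by rw [p6, hw x])
  have w7 : ∀ γ x y z, w x y (L.toBiM.ra z γ) = L.toBiM.ra (w x y z) γ := fun γ x y z =>
    hw' _ _ _ _ (by rw [p7, hw x, ra_smul])
  have w8 : ∀ x y z u, M L.toBiM β (w x y z) u + w x (M L.toBiM β y z) u +
      M L.toBiM β x (w y z u) = w (M L.toBiM β x y) z u + w x y (M L.toBiM β z u) := by
    intro x y z u
    apply inj
    have h := p8 x y z u
    simp only [← M_apply] at h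
    rw [hw x y z, hw x _ u, hw y z u, hw _ z u, hw x y _] at h
    simp only [map_smul, LinearMap.smul_apply] at h
    rw [smul_add, smul_add, smul_add]
    exact h
  -- reduction
  choose lift hl using Q_surj L
  have wd : ∀ x x' y z, Q L x = Q L x' → Q L (w x y z) = Q L (w x' y z) := by
    intro x x' y z h
    obtain ⟨u, hu⟩ := Q_ker L (x - x') (by rw [map_sub, h, sub_self])
    have e : x = x' + (PowerSeries.X : PowerSeries F) • u := by rw [← hu]; abel
    rw [e, wadd1, wsm1, map_add, map_smul, X_smul_A D, add_zero]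
  obtain ⟨W, hW⟩ : ∃ W : (Γ × P) → (Γ × P) → A →+ A, ∀ y z x, W y z (Q L x) = Q L (w x y z) := by
    refine ⟨fun y z => AddMonoidHom.mk' (fun a => Q L (w (lift a) y z)) ?_, ?_⟩
    · intro a b
      rw [wd (lift (a + b)) (lift a + lift b) y z (by rw [map_add, hl, hl, hl]), wadd1, map_add]
    · intro y z x
      exact wd _ _ _ _ (hl _)
  have W2 : ∀ y y' z a, W (y + y') z a = W y z a + W y' z a := by
    intro y y' z a
    rw [← hl a, hW, hW, hW, wadd2, map_add]
  have W3 : ∀ y z z' a, W y (z + z') a = W y z a + W y z' a := by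
    intro y z z' a
    rw [← hl a, hW, hW, hW, wadd3, map_add]
  have Ws2 : ∀ (r : PowerSeries F) y z a, W (r • y) z a = r • W y z a := by
    intro r y z a
    rw [← hl a, hW, hW, wsm2, map_smul]
  have Ws3 : ∀ (r : PowerSeries F) y z a, W y (r • z) a = r • W y z a := by
    intro r y z a
    rw [← hl a, hW, hW, wsm3, map_smul]
  have Wl : ∀ γ y z a, W y z (D.j γ * a) = D.j γ * W y z a := by
    intro γ y z a
    rw [← hl a, ← Q_la, hW, hW, w4, Q_la]
  have Wr : ∀ γ y z a, W y z (a * D.j γ) = W (L.toBiM.la γ y) z a := by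
    intro γ y z a
    rw [← hl a, ← Q_ra, hW, hW, w5]
  have Wm : ∀ γ y z a, W (L.toBiM.ra y γ) z a = W y (L.toBiM.la γ z) a := by
    intro γ y z a
    rw [← hl a, hW, hW, w6]
  have We : ∀ γ y z a, W y (L.toBiM.ra z γ) a = W y z a * D.j γ := by
    intro γ y z a
    rw [← hl a, hW, hW, w7, Q_ra]
  have Wn : ∀ y z a, W y z a = W (0, y.2) (0, z.2) a := by
    intro y z a
    have e1 : y = (y.1, 0) + (0, y.2) := by simp
    have e2 : z = (z.1, 0) + (0, z.2) := by simp
    rw [← hl a, hW, hW]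
    conv_lhs => rw [e1, e2]
    rw [wadd2, wadd3, wadd3, w2, w2, w3, zero_add, zero_add, zero_add]
  have Wbal : ∀ y z a, ∑ k, a * sep.u k * W y z (sep.v k) =
      ∑ k, sep.u k * W y z (sep.v k * a) := by
    intro y z a
    have h := sep.bal A (AddMonoidHom.mk' (fun u => (AddMonoidHom.mulLeft u).comp (W y z))
      (fun u u' => by
        ext v
        simp only [AddMonoidHom.comp_apply, AddMonoidHom.coe_mulLeft, AddMonoidHom.add_apply,
          add_mul])) (by
      intro x γ v
      show x * D.j γ * W y z v = x * W y z (D.j γ * v)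
      rw [Wl, mul_assoc]) a
    exact h
  -- the cochain
  obtain ⟨ν0, hν0⟩ : ∃ ν0 : P →ₗ[PowerSeries F] P →ₗ[PowerSeries F] A, ∀ x y : Γ × P,
      ν0 x.2 y.2 = ∑ k, sep.u k * W x y (sep.v k) := by
    refine ⟨LinearMap.mk₂ (PowerSeries F)
      (fun p p' => ∑ k, sep.u k * W (0, p) (0, p') (sep.v k)) ?_ ?_ ?_ ?_, ?_⟩
    · intro p q p'
      rw [← Finset.sum_add_distrib]
      refine Finset.sum_congr rfl fun k _ => ?_
      have e : ((0 : Γ), p + q) = (0, p) + (0, q) := by simp
      rw [e, W2, mul_add]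
    · intro r p p'
      rw [Finset.smul_sum]
      refine Finset.sum_congr rfl fun k _ => ?_
      have e : ((0 : Γ), r • p) = r • ((0 : Γ), p) := by simp
      rw [e, Ws2, mul_smul_comm]
    · intro p p' q
      rw [← Finset.sum_add_distrib]
      refine Finset.sum_congr rfl fun k _ => ?_
      have e : ((0 : Γ), p' + q) = (0, p') + (0, q) := by simp
      rw [e, W3, mul_add]
    · intro r p p'
      rw [Finset.smul_sum]
      refine Finset.sum_congr rfl fun k _ => ?_
      have e : ((0 : Γ), r • p') = r • ((0 : Γ), p') := by simp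
      rw [e, Ws3, mul_smul_comm]
    · intro x y
      show ∑ k, sep.u k * W (0, x.2) (0, y.2) (sep.v k) = _
      refine Finset.sum_congr rfl fun k _ => ?_
      rw [← Wn]
  obtain ⟨ν, hν, hνq⟩ := hLfb F Γ A I P c D L ν0
    (by
      intro γ p p'
      have h1 := hν0 (L.toBiM.la γ (0, p)) (0, p')
      have h2 := hν0 (0, p) (0, p')
      change ν0 (L.lm γ p) p' = _ at h1
      change ν0 p p' = _ at h2
      rw [h1, h2, Finset.mul_sum]
      simp only [← Wr]
      rw [← Wbal]
      exact Finset.sum_congr rfl fun k _ => mul_assoc _ _ _)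
    (by
      intro γ p p'
      have h1 := hν0 (L.toBiM.ra (0, p) γ) (0, p')
      have h2 := hν0 (0, p) (L.toBiM.la γ (0, p'))
      change ν0 (L.rm (op γ) p) p' = _ at h1
      change ν0 p (L.lm γ p') = _ at h2
      rw [h1, h2]
      simp only [Wm])
    (by
      intro γ p p'
      have h1 := hν0 (0, p) (L.toBiM.ra (0, p') γ)
      have h2 := hν0 (0, p) (0, p')
      change ν0 p (L.rm (op γ) p') = _ at h1
      change ν0 p p' = _ at h2
      rw [h1, h2, Finset.sum_mul]
      simp only [We, mul_assoc])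
  refine ⟨ν, hν, fun x y z => ?_⟩
  have key : Q L (w x y z + (M L.toBiM β (ν x.2 y.2) z + ν (M L.toBiM β x y).2 z.2 -
      M L.toBiM β x (ν y.2 z.2) - ν x.2 (M L.toBiM β y z).2)) = 0 := by
    have hν' : ∀ a b : Γ × P, Q L (ν a.2 b.2) = ∑ k, sep.u k * W a b (sep.v k) := by
      intro a b
      rw [Q_apply, hνq, hν0]
    rw [map_add, map_sub, map_sub, map_add, Q_mul L β hq, Q_mul L β hq, hν', hν', hν', hν']
    have pent' : ∀ v, W x y (Q L v) * Q L z + W (M L.toBiM β x y) z (Q L v) +
        Q L v * Q L (w x y z) =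
        W y z (Q L v * Q L x) + W x (M L.toBiM β y z) (Q L v) := by
      intro v
      have h := congrArg (Q L) (w8 v x y z)
      simp only [map_add, Q_mul L β hq] at h
      rw [← Q_mul L β hq v x, hW, hW, hW, hW]
      exact h
    have pent : ∀ k, W x y (sep.v k) * Q L z + W (M L.toBiM β x y) z (sep.v k) +
        sep.v k * Q L (w x y z) =
        W y z (sep.v k * Q L x) + W x (M L.toBiM β y z) (sep.v k) := by
      intro k
      have h := pent' (lift (sep.v k))
      rwa [hl] at h
    have h := Finset.sum_congr (rfl : (Finset.univ : Finset K) = Finset.univ)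
      (fun k _ => congrArg (fun a => sep.u k * a) (pent k))
    simp only [mul_add, Finset.sum_add_distrib, ← mul_assoc] at h
    rw [← Finset.sum_mul, ← Finset.sum_mul, sep.one, one_mul, ← Wbal] at h
    rw [Finset.mul_sum]
    simp only [← mul_assoc]
    rw [← sub_eq_zero] at h
    rw [← h]
    abel
  obtain ⟨y', hy'⟩ := Q_ker L _ key
  refine ⟨y' + (PowerSeries.X : PowerSeries F) ^ (n - 1) •
    (ν (ν x.2 y.2).2 z.2 - ν x.2 (ν y.2 z.2).2), ?_⟩
  rw [as_change, hw x y z, ← smul_add, hy', smul_add, smul_smul, smul_smul, ← pow_succ, ← pow_add,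
    ← pow_add]
  congr 3
  omega

end Pool.Agent.PFC.B1.H60
end -- Pool.Agent.PFC.B1.Stp_60

section -- Pool.Agent.Helper84_PFD.STG

/-!
Squad PFD, row STG: one step of the lifting of the multiplication over a complete discrete
valuation ring (adapted from `PFC/B1/Stp_60.lean`).
-/

set_option autoImplicit false

namespace Pool.Agent.PFD.D2.H84

open MulOpposite
open Pool.Agent.PFC.B1 (BiM FS Sep RngStmt PenStmt)
open Pool.Agent.PFC.B1.H60 (M M_apply as_eq M_change as_change as_add1 as_add2 as_add3 as_smul1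
  as_smul2 as_smul3 la_smul ra_smul)

section
variable {R F Γ A X X0 P : Type} [CommRing R] [Field F] {c : Cdv R F}
    [Ring Γ] [Algebra R Γ] [Ring A] [Algebra R A] [AddCommGroup X] [Module R X]
    [AddCommGroup X0] [Module R X0] {BX : BiM R Γ X} {D : ResX Γ A X X0 c BX}
    [AddCommGroup P] [Module R P]

theorem X_smul_A (D : ResX Γ A X X0 c BX) (a : A) : c.π • a = 0 := by
  rw [Algebra.smul_def, D.hA, zero_mul]

/-- `qq` as a linear map -/
noncomputable def Q (L : PLX P D) : (Γ × P) →ₗ[R] A :=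
  LinearMap.coprod D.j.toLinearMap L.q

theorem Q_apply (L : PLX P D) (x : Γ × P) : Q L x = L.qq x := rfl

theorem Q_mul (L : PLX P D) (β : P →ₗ[R] P →ₗ[R] Γ × P)
    (hq : ∀ p p', L.qq (β p p') = L.q p * L.q p') (x y : Γ × P) :
    Q L (M L.toBiM β x y) = Q L x * Q L y := by
  rw [M_apply]
  unfold BiM.mu
  rw [map_add, Q_apply L (β x.2 y.2), hq, Q_apply, Q_apply, Q_apply]
  unfold PLX.qq
  simp only [map_mul, map_add, L.q1, L.q2]
  noncomm_ring

theorem Q_la (L : PLX P D) (γ : Γ) (x : Γ × P) :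
    Q L (L.toBiM.la γ x) = D.j γ * Q L x := by
  rw [Q_apply, Q_apply]
  unfold BiM.la PLX.qq
  simp only [map_mul, L.q1, mul_add]

theorem Q_ra (L : PLX P D) (γ : Γ) (x : Γ × P) :
    Q L (L.toBiM.ra x γ) = Q L x * D.j γ := by
  rw [Q_apply, Q_apply]
  unfold BiM.ra PLX.qq
  simp only [map_mul, L.q2, add_mul]

theorem Q_surj (L : PLX P D) (a : A) : ∃ x, Q L x = a := by
  obtain ⟨γ, hγ⟩ := D.e1 a
  have h : D.e (a - D.e a) = 0 := by
    rw [map_sub, hγ, D.e2, sub_self]
  obtain ⟨x, hx⟩ := L.q4 _ h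
  refine ⟨(γ, x), ?_⟩
  rw [Q_apply]
  unfold PLX.qq
  simp only [hx, hγ]
  abel

theorem Q_ker (L : PLX P D) (x : Γ × P) (h : Q L x = 0) :
    ∃ y, x = c.π • y := by
  rw [Q_apply] at h
  unfold PLX.qq at h
  have h1 : D.j x.1 = 0 := by
    have := congrArg D.e h
    rw [map_add, D.e2, L.q3, add_zero, map_zero] at this
    exact this
  rw [h1, zero_add] at h
  obtain ⟨γ, hγ⟩ := D.hj _ h1
  obtain ⟨y, hy⟩ := (L.q5 _).1 h
  exact ⟨(γ, y), Prod.ext hγ hy⟩

end

/-- module STG -/
theorem stg (hPen : PenStmt) : StgStmt := by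
  intro R F Γ A X X0 K P _ _ _ _ c _ _ _ _ _ _ _ _ _ _ BX D _ sep _ _ _ _ L hLb β n hn hB hq has
  obtain ⟨p1, p2, p3, p4, p5, p6, p7, p8⟩ := hPen R Γ P L.toBiM β hB
  have hpi : c.π ≠ 0 := by
    intro h
    exact one_ne_zero (c.reg 1 (by rw [h, zero_mul]))
  have inj : ∀ u v : Γ × P,
      c.π ^ n • u = c.π ^ n • v → u = v :=
    fun u v h => smul_right_injective (Γ × P) (pow_ne_zero n hpi) h
  choose w hw using has
  have hw' : ∀ x y z u, L.toBiM.as β x y z = c.π ^ n • u →
      w x y z = u := fun x y z u h => inj _ _ ((hw x y z).symm.trans h)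
  -- multilinearity of `w`
  have wadd1 : ∀ x x' y z, w (x + x') y z = w x y z + w x' y z := fun x x' y z => hw' _ _ _ _ (by
    rw [as_add1, hw x, hw x', smul_add])
  have wadd2 : ∀ x y y' z, w x (y + y') z = w x y z + w x y' z := fun x y y' z => hw' _ _ _ _ (by
    rw [as_add2, hw x, hw x, smul_add])
  have wadd3 : ∀ x y z z', w x y (z + z') = w x y z + w x y z' := fun x y z z' => hw' _ _ _ _ (by
    rw [as_add3, hw x, hw x, smul_add])
  have wsm1 : ∀ (r : R) x y z, w (r • x) y z = r • w x y z := fun r x y z =>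
    hw' _ _ _ _ (by rw [as_smul1, hw x, smul_comm])
  have wsm2 : ∀ (r : R) x y z, w x (r • y) z = r • w x y z := fun r x y z =>
    hw' _ _ _ _ (by rw [as_smul2, hw x, smul_comm])
  have wsm3 : ∀ (r : R) x y z, w x y (r • z) = r • w x y z := fun r x y z =>
    hw' _ _ _ _ (by rw [as_smul3, hw x, smul_comm])
  -- balance
  have w2 : ∀ γ x z, w x (γ, 0) z = 0 := fun γ x z => hw' _ _ _ _ (by rw [p2, smul_zero])
  have w3 : ∀ γ x y, w x y (γ, 0) = 0 := fun γ x y => hw' _ _ _ _ (by rw [p3, smul_zero])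
  have w4 : ∀ γ x y z, w (L.toBiM.la γ x) y z = L.toBiM.la γ (w x y z) := fun γ x y z =>
    hw' _ _ _ _ (by rw [p4, hw x, la_smul])
  have w5 : ∀ γ x y z, w (L.toBiM.ra x γ) y z = w x (L.toBiM.la γ y) z := fun γ x y z =>
    hw' _ _ _ _ (by rw [p5, hw x])
  have w6 : ∀ γ x y z, w x (L.toBiM.ra y γ) z = w x y (L.toBiM.la γ z) := fun γ x y z =>
    hw' _ _ _ _ (by rw [p6, hw x])
  have w7 : ∀ γ x y z, w x y (L.toBiM.ra z γ) = L.toBiM.ra (w x y z) γ := fun γ x y z =>
    hw' _ _ _ _ (by rw [p7, hw x, ra_smul])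
  have w8 : ∀ x y z u, M L.toBiM β (w x y z) u + w x (M L.toBiM β y z) u +
      M L.toBiM β x (w y z u) = w (M L.toBiM β x y) z u + w x y (M L.toBiM β z u) := by
    intro x y z u
    apply inj
    have h := p8 x y z u
    simp only [← M_apply] at h
    rw [hw x y z, hw x _ u, hw y z u, hw _ z u, hw x y _] at h
    simp only [map_smul, LinearMap.smul_apply] at h
    rw [smul_add, smul_add, smul_add]
    exact h
  -- reduction
  choose lift hl using Q_surj L
  have wd : ∀ x x' y z, Q L x = Q L x' → Q L (w x y z) = Q L (w x' y z) := by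
    intro x x' y z h
    obtain ⟨u, hu⟩ := Q_ker L (x - x') (by rw [map_sub, h, sub_self])
    have e : x = x' + c.π • u := by rw [← hu]; abel
    rw [e, wadd1, wsm1, map_add, map_smul, X_smul_A D, add_zero]
  obtain ⟨W, hW⟩ : ∃ W : (Γ × P) → (Γ × P) → A →+ A, ∀ y z x, W y z (Q L x) = Q L (w x y z) := by
    refine ⟨fun y z => AddMonoidHom.mk' (fun a => Q L (w (lift a) y z)) ?_, ?_⟩
    · intro a b
      rw [wd (lift (a + b)) (lift a + lift b) y z (by rw [map_add, hl, hl, hl]), wadd1, map_add]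
    · intro y z x
      exact wd _ _ _ _ (hl _)
  have W2 : ∀ y y' z a, W (y + y') z a = W y z a + W y' z a := by
    intro y y' z a
    rw [← hl a, hW, hW, hW, wadd2, map_add]
  have W3 : ∀ y z z' a, W y (z + z') a = W y z a + W y z' a := by
    intro y z z' a
    rw [← hl a, hW, hW, hW, wadd3, map_add]
  have Ws2 : ∀ (r : R) y z a, W (r • y) z a = r • W y z a := by
    intro r y z a
    rw [← hl a, hW, hW, wsm2, map_smul]
  have Ws3 : ∀ (r : R) y z a, W y (r • z) a = r • W y z a := by
    intro r y z a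
    rw [← hl a, hW, hW, wsm3, map_smul]
  have Wl : ∀ γ y z a, W y z (D.j γ * a) = D.j γ * W y z a := by
    intro γ y z a
    rw [← hl a, ← Q_la, hW, hW, w4, Q_la]
  have Wr : ∀ γ y z a, W y z (a * D.j γ) = W (L.toBiM.la γ y) z a := by
    intro γ y z a
    rw [← hl a, ← Q_ra, hW, hW, w5]
  have Wm : ∀ γ y z a, W (L.toBiM.ra y γ) z a = W y (L.toBiM.la γ z) a := by
    intro γ y z a
    rw [← hl a, hW, hW, w6]
  have We : ∀ γ y z a, W y (L.toBiM.ra z γ) a = W y z a * D.j γ := by
    intro γ y z a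
    rw [← hl a, hW, hW, w7, Q_ra]
  have Wn : ∀ y z a, W y z a = W (0, y.2) (0, z.2) a := by
    intro y z a
    have e1 : y = (y.1, 0) + (0, y.2) := by simp
    have e2 : z = (z.1, 0) + (0, z.2) := by simp
    rw [← hl a, hW, hW]
    conv_lhs => rw [e1, e2]
    rw [wadd2, wadd3, wadd3, w2, w2, w3, zero_add, zero_add, zero_add]
  have Wbal : ∀ y z a, ∑ k, a * sep.u k * W y z (sep.v k) =
      ∑ k, sep.u k * W y z (sep.v k * a) := by
    intro y z a
    have h := sep.bal A (AddMonoidHom.mk' (fun u => (AddMonoidHom.mulLeft u).comp (W y z))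
      (fun u u' => by
        ext v
        simp only [AddMonoidHom.comp_apply, AddMonoidHom.coe_mulLeft, AddMonoidHom.add_apply,
          add_mul])) (by
      intro x γ v
      show x * D.j γ * W y z v = x * W y z (D.j γ * v)
      rw [Wl, mul_assoc]) a
    exact h
  -- the cochain
  obtain ⟨ν0, hν0⟩ : ∃ ν0 : P →ₗ[R] P →ₗ[R] A, ∀ x y : Γ × P,
      ν0 x.2 y.2 = ∑ k, sep.u k * W x y (sep.v k) := by
    refine ⟨LinearMap.mk₂ R
      (fun p p' => ∑ k, sep.u k * W (0, p) (0, p') (sep.v k)) ?_ ?_ ?_ ?_, ?_⟩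
    · intro p q p'
      rw [← Finset.sum_add_distrib]
      refine Finset.sum_congr rfl fun k _ => ?_
      have e : ((0 : Γ), p + q) = (0, p) + (0, q) := by simp
      rw [e, W2, mul_add]
    · intro r p p'
      rw [Finset.smul_sum]
      refine Finset.sum_congr rfl fun k _ => ?_
      have e : ((0 : Γ), r • p) = r • ((0 : Γ), p) := by simp
      rw [e, Ws2, mul_smul_comm]
    · intro p p' q
      rw [← Finset.sum_add_distrib]
      refine Finset.sum_congr rfl fun k _ => ?_
      have e : ((0 : Γ), p' + q) = (0, p') + (0, q) := by simp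
      rw [e, W3, mul_add]
    · intro r p p'
      rw [Finset.smul_sum]
      refine Finset.sum_congr rfl fun k _ => ?_
      have e : ((0 : Γ), r • p') = r • ((0 : Γ), p') := by simp
      rw [e, Ws3, mul_smul_comm]
    · intro x y
      show ∑ k, sep.u k * W (0, x.2) (0, y.2) (sep.v k) = _
      refine Finset.sum_congr rfl fun k _ => ?_
      rw [← Wn]
  obtain ⟨ν, hν, hνq⟩ := hLb ν0
    (by
      intro γ p p'
      have h1 := hν0 (L.toBiM.la γ (0, p)) (0, p')
      have h2 := hν0 (0, p) (0, p')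
      change ν0 (L.lm γ p) p' = _ at h1
      change ν0 p p' = _ at h2
      rw [h1, h2, Finset.mul_sum]
      simp only [← Wr]
      rw [← Wbal]
      exact Finset.sum_congr rfl fun k _ => mul_assoc _ _ _)
    (by
      intro γ p p'
      have h1 := hν0 (L.toBiM.ra (0, p) γ) (0, p')
      have h2 := hν0 (0, p) (L.toBiM.la γ (0, p'))
      change ν0 (L.rm (op γ) p) p' = _ at h1
      change ν0 p (L.lm γ p') = _ at h2
      rw [h1, h2]
      simp only [Wm])
    (by
      intro γ p p'
      have h1 := hν0 (0, p) (L.toBiM.ra (0, p') γ)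
      have h2 := hν0 (0, p) (0, p')
      change ν0 p (L.rm (op γ) p') = _ at h1
      change ν0 p p' = _ at h2
      rw [h1, h2, Finset.sum_mul]
      simp only [We, mul_assoc])
  refine ⟨ν, hν, fun x y z => ?_⟩
  have key : Q L (w x y z + (M L.toBiM β (ν x.2 y.2) z + ν (M L.toBiM β x y).2 z.2 -
      M L.toBiM β x (ν y.2 z.2) - ν x.2 (M L.toBiM β y z).2)) = 0 := by
    have hν' : ∀ a b : Γ × P, Q L (ν a.2 b.2) = ∑ k, sep.u k * W a b (sep.v k) := by
      intro a b
      rw [Q_apply, hνq, hν0]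
    rw [map_add, map_sub, map_sub, map_add, Q_mul L β hq, Q_mul L β hq, hν', hν', hν', hν']
    have pent' : ∀ v, W x y (Q L v) * Q L z + W (M L.toBiM β x y) z (Q L v) +
        Q L v * Q L (w x y z) =
        W y z (Q L v * Q L x) + W x (M L.toBiM β y z) (Q L v) := by
      intro v
      have h := congrArg (Q L) (w8 v x y z)
      simp only [map_add, Q_mul L β hq] at h
      rw [← Q_mul L β hq v x, hW, hW, hW, hW]
      exact h
    have pent : ∀ k, W x y (sep.v k) * Q L z + W (M L.toBiM β x y) z (sep.v k) +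
        sep.v k * Q L (w x y z) =
        W y z (sep.v k * Q L x) + W x (M L.toBiM β y z) (sep.v k) := by
      intro k
      have h := pent' (lift (sep.v k))
      rwa [hl] at h
    have h := Finset.sum_congr (rfl : (Finset.univ : Finset K) = Finset.univ)
      (fun k _ => congrArg (fun a => sep.u k * a) (pent k))
    simp only [mul_add, Finset.sum_add_distrib, ← mul_assoc] at h
    rw [← Finset.sum_mul, ← Finset.sum_mul, sep.one, one_mul, ← Wbal] at h
    rw [Finset.mul_sum]
    simp only [← mul_assoc]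
    rw [← sub_eq_zero] at h
    rw [← h]
    abel
  obtain ⟨y', hy'⟩ := Q_ker L _ key
  refine ⟨y' + c.π ^ (n - 1) •
    (ν (ν x.2 y.2).2 z.2 - ν x.2 (ν y.2 z.2).2), ?_⟩
  rw [as_change, hw x y z, ← smul_add, hy', smul_add, smul_smul, smul_smul, ← pow_succ, ← pow_add,
    ← pow_add]
  congr 3
  omega

end Pool.Agent.PFD.D2.H84
end -- Pool.Agent.Helper84_PFD.STG

section -- Pool.Agent.Helper94_PFD.PLG

set_option autoImplicit false

/-!
# Squad PFD, part D2: row PLG (helper94)
-/

namespace Pool.Agent.PFD.D2.H94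

open MulOpposite
open Pool.Agent.PFC.B1 (BiM FS Sep)

section res

variable {R : Type} [CommRing R]

/-- restriction of an action to a submodule -/
def rst {B V : Type} [Ring B] [Algebra R B] [AddCommGroup V] [Module R V]
    (f : B →ₐ[R] Module.End R V) (P : Submodule R V) (h : ∀ b, ∀ z ∈ P, f b z ∈ P) :
    B →ₐ[R] Module.End R P where
  toFun b := (f b).restrict (h b)
  map_one' := by
    apply LinearMap.ext; intro z; apply Subtype.ext
    change f 1 z = z
    rw [map_one]; rfl
  map_mul' a b := by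
    apply LinearMap.ext; intro z; apply Subtype.ext
    change f (a * b) z = f a (f b z)
    rw [map_mul]; rfl
  map_zero' := by
    apply LinearMap.ext; intro z; apply Subtype.ext
    change f 0 z = 0
    rw [map_zero]; rfl
  map_add' a b := by
    apply LinearMap.ext; intro z; apply Subtype.ext
    change f (a + b) z = f a z + f b z
    rw [map_add]; rfl
  commutes' r := by
    apply LinearMap.ext; intro z; apply Subtype.ext
    change f (algebraMap R B r) z = r • (z : V)
    rw [f.commutes]; rfl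

theorem rst_apply {B V : Type} [Ring B] [Algebra R B] [AddCommGroup V] [Module R V]
    (f : B →ₐ[R] Module.End R V) (P : Submodule R V) (h : ∀ b, ∀ z ∈ P, f b z ∈ P) (b : B)
    (z : P) : (rst f P h b z : V) = f b z := rfl

end res

/-- row PLG -/
theorem plg (idg : IdgStmt) : PlgStmt := by
  intro R F Γ A X X0 _ _ _ _ c _ _ _ _ _ _ _ _ _ _ BX D hL
  have hee : ∀ x, D.e (D.e x) = D.e x := fun x => by
    obtain ⟨γ, hγ⟩ := D.e1 x
    rw [hγ, D.e2]
  have hπA : ∀ x : A, c.π • x = 0 := fun x => by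
    rw [Algebra.smul_def, D.hA, zero_mul]
  obtain ⟨i0, hi0⟩ : ∃ i0 : A →ₗ[R] X0, ∀ x, i0 x = D.i0 (x - D.e x) :=
    ⟨D.i0 ∘ₗ (LinearMap.id - D.e), fun _ => rfl⟩
  obtain ⟨p0, hp0⟩ : ∃ p0 : X0 →ₗ[R] A, ∀ x, p0 x = D.p0 x - D.e (D.p0 x) :=
    ⟨D.p0 - D.e ∘ₗ D.p0, fun _ => rfl⟩
  have hep : ∀ x, D.e (p0 x) = 0 := fun x => by rw [hp0, map_sub, hee, sub_self]
  have hpi : ∀ x, p0 (i0 x) = x - D.e x := fun x => by
    rw [hp0, hi0, D.ip]
    simp only [map_sub, hee]
    abel
  have hpip : ∀ x, p0 (i0 (p0 x)) = p0 x := fun x => by rw [hpi, hep, sub_zero]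
  have i1 : ∀ γ x, i0 (D.j γ * x) = D.B0.lm γ (i0 x) := fun γ x => by
    rw [hi0, hi0, D.e3, ← mul_sub, D.i1]
  have i2 : ∀ γ x, i0 (x * D.j γ) = D.B0.rm (op γ) (i0 x) := fun γ x => by
    rw [hi0, hi0, D.e4, ← sub_mul, D.i2]
  have p1 : ∀ γ x, p0 (D.B0.lm γ x) = D.j γ * p0 x := fun γ x => by
    rw [hp0, hp0, D.p1, D.e3, ← mul_sub]
  have p2 : ∀ γ x, p0 (D.B0.rm (op γ) x) = p0 x * D.j γ := fun γ x => by
    rw [hp0, hp0, D.p2, D.e4, ← sub_mul]
  have hsπ : ∀ y, D.s (c.π • y) = 0 := fun y => (D.s3 _).2 ⟨y, rfl⟩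
  -- the lift of the projector
  obtain ⟨g0, hg0⟩ : ∃ g0 : X →ₗ[R] X, ∀ x, D.s (g0 x) = i0 (p0 (D.s x)) := by
    obtain ⟨g, hg⟩ := Module.projective_lifting_property D.s (i0 ∘ₗ p0 ∘ₗ D.s) D.s2
    exact ⟨g, fun x => LinearMap.congr_fun hg x⟩
  obtain ⟨g1, ⟨hg1l, hg1r⟩, hg1⟩ := hL.l1 g0 (by
    constructor
    · intro γ x
      refine (D.s3 _).1 ?_
      rw [map_sub, hg0, D.s1.1, D.s1.1, p1, i1, hg0, sub_self]
    · intro γ x
      refine (D.s3 _).1 ?_
      obtain ⟨γ, rfl⟩ := op_surjective γ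
      rw [map_sub, hg0, D.s1.2, D.s1.2, p2, i2, hg0, sub_self])
  have hsg : ∀ x, D.s (g1 x) = i0 (p0 (D.s x)) := fun x => by
    obtain ⟨y, hy⟩ := hg1 x
    have h1 : g1 x = g0 x + c.π • y := by rw [← hy]; abel
    rw [h1, map_add, hsπ, add_zero, hg0]
  obtain ⟨h, hhh, hhS, hh⟩ := idg R F X c (Set.range BX.lm ∪ Set.range BX.rm) g1 (by
    rintro s (⟨γ, rfl⟩ | ⟨γ, rfl⟩)
    · exact LinearMap.ext fun x => (hg1l γ x).symm
    · exact LinearMap.ext fun x => (hg1r γ x).symm) (fun x => by
    refine (D.s3 _).1 ?_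
    rw [map_sub, hsg, hsg, hpip, sub_self])
  have hl : ∀ γ x, h (BX.lm γ x) = BX.lm γ (h x) :=
    fun γ x => (LinearMap.congr_fun (hhS _ (Or.inl ⟨γ, rfl⟩)) x).symm
  have hr : ∀ γ x, h (BX.rm γ x) = BX.rm γ (h x) :=
    fun γ x => (LinearMap.congr_fun (hhS _ (Or.inr ⟨γ, rfl⟩)) x).symm
  have hh2 : ∀ x, h (h x) = h x := fun x => LinearMap.congr_fun hhh x
  have hsh : ∀ x, D.s (h x) = i0 (p0 (D.s x)) := fun x => by
    obtain ⟨y, hy⟩ := hh x
    have h1 : h x = g1 x + c.π • y := by rw [← hy]; abel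
    rw [h1, map_add, hsπ, add_zero, hsg]
  have hlP : ∀ γ, ∀ z ∈ LinearMap.range h, BX.lm γ z ∈ LinearMap.range h := by
    rintro γ _ ⟨z, rfl⟩
    exact ⟨_, hl γ z⟩
  have hrP : ∀ γ, ∀ z ∈ LinearMap.range h, BX.rm γ z ∈ LinearMap.range h := by
    rintro γ _ ⟨z, rfl⟩
    exact ⟨_, hr γ z⟩
  have hPh : ∀ z : LinearMap.range h, h z = z := by
    rintro ⟨_, ⟨z, rfl⟩⟩
    exact hh2 z
  obtain ⟨q, hq⟩ : ∃ q : LinearMap.range h →ₗ[R] A, ∀ z, q z = p0 (D.s z) :=
    ⟨p0 ∘ₗ D.s ∘ₗ (LinearMap.range h).subtype, fun z => rfl⟩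
  have hfree : Module.Free R (LinearMap.range h) := by
    obtain ⟨k, bN⟩ := Submodule.basisOfPid (Module.Free.chooseBasis R X) (LinearMap.range h)
    exact Module.Free.of_basis bN
  have hfin : Module.Finite R (LinearMap.range h) := inferInstance
  have hq1 : ∀ γ x, q (rst BX.lm _ hlP γ x) = D.j γ * q x := fun γ x => by
    rw [hq, hq, rst_apply, D.s1.1, p1]
  have hq2 : ∀ γ x, q (rst BX.rm _ hrP (op γ) x) = q x * D.j γ := fun γ x => by
    rw [hq, hq, rst_apply, D.s1.2, p2]
  refine ⟨LinearMap.range h, inferInstance, inferInstance, hfin, hfree, ⟨{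
    lm := rst BX.lm _ hlP
    rm := rst BX.rm _ hrP
    comm := fun a b x => Subtype.ext (BX.comm a b (x : X))
    q := q
    q1 := hq1
    q2 := hq2
    q3 := fun x => by rw [hq]; exact hep _
    q4 := ?_
    q5 := ?_
    i := (LinearMap.range h).subtype
    i1 := ⟨fun _ _ => rfl, fun _ _ => rfl⟩
    p := h.rangeRestrict
    p1 := ⟨fun γ x => Subtype.ext (hl γ x), fun γ x => Subtype.ext (hr γ x)⟩
    pi := LinearMap.ext fun x => Subtype.ext (hPh x) }⟩⟩
  · intro y hy
    obtain ⟨x0, hx0⟩ := D.s2 (i0 y)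
    refine ⟨⟨h x0, ⟨x0, rfl⟩⟩, ?_⟩
    rw [hq]
    show p0 (D.s (h x0)) = y
    rw [hsh, hpip, hx0, hpi, hy, sub_zero]
  · intro x
    constructor
    · intro hx
      rw [hq] at hx
      have h1 : D.s (h x) = 0 := by rw [hsh, hx, map_zero]
      obtain ⟨y, hy⟩ := (D.s3 _).1 h1
      refine ⟨⟨h y, ⟨y, rfl⟩⟩, Subtype.ext ?_⟩
      change (x : X) = c.π • h y
      rw [← map_smul, ← hy, hh2, hPh]
    · rintro ⟨y, rfl⟩
      rw [map_smul]
      exact hπA _

end Pool.Agent.PFD.D2.H94
end -- Pool.Agent.Helper94_PFD.PLG
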