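import Pool.Agent.Helper12_AWB.B003
import Pool.Agent.Helper12_AWB.B005

/-!
# Merged copies (generated) of the modules

* `Pool.Agent.PFD.DefsCP`
* `Pool.Agent.PFD.DefsD3`
* `Pool.Agent.PFD.StmtsD6`
* `Pool.Agent.PFD.DefsD6`
* `Pool.Agent.PFE.DefsN`
* `Pool.Agent.Helper84_PFD.UNT`
-/

set_option autoImplicit false

section -- Pool.Agent.PFD.DefsCP

/-!
# Squad PFD: crossed products `S_c E` (twisted skew group algebras)

`S` is a commutative `k`-algebra on which the finite group `E` acts by `k`-automorphisms, `c` is a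
normalised 2-cocycle of `E` with values in the units of `k`.  `CP D` is the free `S`-module with
basis `n e` (`e` in `E`), with `n e * s = e(s) * n e` and `n e * n f = c e f • n (e f)`.

* over the residue field `F`: `S = F V`, the twisted group algebra of `V : E`;
* over the discrete valuation ring: `S = R_V` (a lift of `F V`);
* over the fraction field: `S = K ⊗ R_V`.
-/

open scoped BigOperators

noncomputable section

namespace Pool.Agent.PFD

/-- The datum of a crossed product. -/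
structure CD (k S E : Type) [CommRing k] [CommRing S] [Algebra k S] [Group E] where
  act : E →* (S ≃ₐ[k] S)
  c : E → E → kˣ
  one_left : ∀ e, c 1 e = 1
  one_right : ∀ e, c e 1 = 1
  coc : ∀ e f g, c e f * c (e * f) g = c f g * c e (f * g)

/-- The crossed product: the function `f` stands for the sum of the `f e * n e`. -/
@[ext] structure CP {k S E : Type} [CommRing k] [CommRing S] [Algebra k S] [Group E]
    (D : CD k S E) : Type where
  f : E → S

namespace CP

section

variable {k S E : Type} [CommRing k] [CommRing S] [Algebra k S] [Group E] {D : CD k S E}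

instance : Zero (CP D) := ⟨⟨0⟩⟩
instance : Add (CP D) := ⟨fun a b => ⟨a.f + b.f⟩⟩
instance : Neg (CP D) := ⟨fun a => ⟨-a.f⟩⟩
instance : Sub (CP D) := ⟨fun a b => ⟨a.f - b.f⟩⟩
instance : SMul k (CP D) := ⟨fun r a => ⟨fun e => r • a.f e⟩⟩
instance : SMul ℕ (CP D) := ⟨fun r a => ⟨fun e => r • a.f e⟩⟩
instance : SMul ℤ (CP D) := ⟨fun r a => ⟨fun e => r • a.f e⟩⟩

theorem inj : Function.Injective (CP.f : CP D → (E → S)) := fun _ _ h => CP.ext h

instance : AddCommGroup (CP D) :=
  Function.Injective.addCommGroup (CP.f : CP D → (E → S)) inj rfl (fun _ _ => rfl)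
    (fun _ => rfl) (fun _ _ => rfl) (fun _ _ => rfl) (fun _ _ => rfl)

@[simp] theorem zero_f (e : E) : (0 : CP D).f e = 0 := rfl
@[simp] theorem add_f (a b : CP D) (e : E) : (a + b).f e = a.f e + b.f e := rfl
@[simp] theorem neg_f (a : CP D) (e : E) : (-a).f e = -a.f e := rfl
@[simp] theorem sub_f (a b : CP D) (e : E) : (a - b).f e = a.f e - b.f e := rfl
@[simp] theorem smul_f (r : k) (a : CP D) (e : E) : (r • a).f e = r • a.f e := rfl

/-- the coefficients, as an additive map -/
def cf (D : CD k S E) (e : E) : CP D →+ S where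
  toFun := fun a => a.f e
  map_zero' := rfl
  map_add' := fun _ _ => rfl

instance : Module k (CP D) where
  one_smul := fun a => by apply CP.ext; funext e; exact one_smul _ _
  mul_smul := fun r s a => by apply CP.ext; funext e; exact mul_smul _ _ _
  smul_zero := fun r => by apply CP.ext; funext e; exact smul_zero _
  smul_add := fun r a b => by apply CP.ext; funext e; exact smul_add _ _ _
  add_smul := fun r s a => by apply CP.ext; funext e; exact add_smul _ _ _
  zero_smul := fun a => by apply CP.ext; funext e; exact zero_smul _ _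

open Classical in
/-- the element `s * n e` -/
def sn (D : CD k S E) (s : S) (e : E) : CP D := ⟨fun h => if h = e then s else 0⟩

open Classical in
theorem sn_f (s : S) (e h : E) : (sn D s e).f h = if h = e then s else 0 := rfl

instance : One (CP D) := ⟨sn D 1 1⟩

theorem one_def : (1 : CP D) = sn D 1 1 := rfl

/-- the basis elements -/
def n (D : CD k S E) (e : E) : CP D := sn D 1 e

theorem n_one : n D 1 = 1 := rfl

theorem sn_add (s t : S) (e : E) : sn D (s + t) e = sn D s e + sn D t e := by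
  apply CP.ext; funext h
  rw [add_f, sn_f, sn_f, sn_f]
  by_cases hh : h = e
  · rw [if_pos hh, if_pos hh, if_pos hh]
  · rw [if_neg hh, if_neg hh, if_neg hh, add_zero]

theorem sn_zero (e : E) : sn D 0 e = 0 := by
  apply CP.ext; funext h
  rw [sn_f, zero_f]
  exact ite_self _

theorem sn_smul (r : k) (s : S) (e : E) : sn D (r • s) e = r • sn D s e := by
  apply CP.ext; funext h
  rw [smul_f, sn_f, sn_f]
  by_cases hh : h = e
  · rw [if_pos hh, if_pos hh]
  · rw [if_neg hh, if_neg hh, smul_zero]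

theorem c_inv_symm (e : E) : D.c e e⁻¹ = D.c e⁻¹ e := by
  have h := D.coc e e⁻¹ e
  rw [mul_inv_cancel, D.one_left, inv_mul_cancel, D.one_right, mul_one, mul_one] at h
  exact h

theorem sum_f {I : Type} (s : Finset I) (g : I → CP D) (e : E) :
    (∑ i ∈ s, g i).f e = ∑ i ∈ s, (g i).f e := by
  have h := map_sum (cf D e) g s
  exact h

end

section

variable {k S E : Type} [CommRing k] [CommRing S] [Algebra k S] [Group E] [Fintype E]
  {D : CD k S E}

instance : Mul (CP D) :=
  ⟨fun a b => ⟨fun e => ∑ h, (D.c h (h⁻¹ * e) : k) • (a.f h * D.act h (b.f (h⁻¹ * e)))⟩⟩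

theorem mul_f (a b : CP D) (e : E) :
    (a * b).f e = ∑ h, (D.c h (h⁻¹ * e) : k) • (a.f h * D.act h (b.f (h⁻¹ * e))) := rfl

theorem sum_sn (a : CP D) : ∑ e, sn D (a.f e) e = a := by
  apply CP.ext; funext h
  rw [sum_f]
  have : ∀ e ∈ Finset.univ, e ≠ h → (sn D (a.f e) e).f h = 0 := by
    intro e _ he
    rw [sn_f, if_neg (Ne.symm he)]
  rw [Finset.sum_eq_single h this (fun hh => absurd (Finset.mem_univ _) hh), sn_f, if_pos rfl]

theorem sn_mul_f (s : S) (e : E) (b : CP D) (g : E) :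
    (sn D s e * b).f g = (D.c e (e⁻¹ * g) : k) • (s * D.act e (b.f (e⁻¹ * g))) := by
  rw [mul_f]
  have : ∀ h ∈ Finset.univ, h ≠ e →
      (D.c h (h⁻¹ * g) : k) • ((sn D s e).f h * D.act h (b.f (h⁻¹ * g))) = 0 := by
    intro h _ hh
    rw [sn_f, if_neg hh, zero_mul, smul_zero]
  rw [Finset.sum_eq_single e this (fun hh => absurd (Finset.mem_univ _) hh), sn_f, if_pos rfl]

theorem sn_mul_sn (s t : S) (e g : E) :
    sn D s e * sn D t g = (D.c e g : k) • sn D (s * D.act e t) (e * g) := by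
  apply CP.ext; funext x
  rw [sn_mul_f, smul_f, sn_f, sn_f]
  by_cases hx : x = e * g
  · rw [if_pos hx, hx, inv_mul_cancel_left, if_pos rfl]
  · rw [if_neg hx, if_neg, map_zero, mul_zero, smul_zero, smul_zero]
    intro h
    apply hx
    rw [← h, mul_inv_cancel_left]

theorem add_mul' (a b d : CP D) : (a + b) * d = a * d + b * d := by
  apply CP.ext; funext e
  rw [add_f, mul_f, mul_f, mul_f, ← Finset.sum_add_distrib]
  apply Finset.sum_congr rfl
  intro h _
  rw [add_f, add_mul, smul_add]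

theorem mul_add' (a b d : CP D) : a * (b + d) = a * b + a * d := by
  apply CP.ext; funext e
  rw [add_f, mul_f, mul_f, mul_f, ← Finset.sum_add_distrib]
  apply Finset.sum_congr rfl
  intro h _
  rw [add_f, map_add, mul_add, smul_add]

theorem zero_mul' (a : CP D) : 0 * a = 0 := by
  apply CP.ext; funext e
  rw [mul_f, zero_f]
  apply Finset.sum_eq_zero
  intro h _
  rw [zero_f, zero_mul, smul_zero]

theorem mul_zero' (a : CP D) : a * 0 = 0 := by
  apply CP.ext; funext e
  rw [mul_f, zero_f]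
  apply Finset.sum_eq_zero
  intro h _
  rw [zero_f, map_zero, mul_zero, smul_zero]

theorem one_mul' (a : CP D) : 1 * a = a := by
  apply CP.ext; funext e
  rw [one_def, sn_mul_f, inv_one, one_mul, D.one_left, one_mul, map_one, Units.val_one, one_smul]
  rfl

theorem mul_one' (a : CP D) : a * 1 = a := by
  apply CP.ext; funext e
  rw [mul_f]
  have : ∀ h ∈ Finset.univ, h ≠ e →
      (D.c h (h⁻¹ * e) : k) • (a.f h * D.act h ((1 : CP D).f (h⁻¹ * e))) = 0 := by
    intro h _ hh
    rw [one_def, sn_f, if_neg, map_zero, mul_zero, smul_zero]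
    intro h1
    exact hh (inv_mul_eq_one.mp h1)
  rw [Finset.sum_eq_single e this (fun hh => absurd (Finset.mem_univ _) hh), inv_mul_cancel,
    D.one_right, one_def, sn_f, if_pos rfl, map_one, mul_one, Units.val_one, one_smul]

theorem mul_assoc' (a b d : CP D) : a * b * d = a * (b * d) := by
  apply CP.ext; funext e
  rw [mul_f, mul_f]
  have h1 : ∀ h : E, (D.c h (h⁻¹ * e) : k) • ((a * b).f h * D.act h (d.f (h⁻¹ * e)))
      = ∑ x, (D.c h (h⁻¹ * e) : k) • ((D.c x (x⁻¹ * h) : k) •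
          (a.f x * D.act x (b.f (x⁻¹ * h))) * D.act h (d.f (h⁻¹ * e))) := by
    intro h
    rw [mul_f, Finset.sum_mul, Finset.smul_sum]
  have h2 : ∀ x : E, (D.c x (x⁻¹ * e) : k) • (a.f x * D.act x ((b * d).f (x⁻¹ * e)))
      = ∑ h, (D.c x (x⁻¹ * e) : k) • (a.f x * D.act x ((D.c (x⁻¹ * h) (h⁻¹ * e) : k) •
          (b.f (x⁻¹ * h) * D.act (x⁻¹ * h) (d.f (h⁻¹ * e))))) := by
    intro x
    rw [mul_f, map_sum, Finset.mul_sum, Finset.smul_sum]
    have := Equiv.sum_comp (Equiv.mulLeft x⁻¹) (fun y => (D.c x (x⁻¹ * e) : k) •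
      (a.f x * D.act x ((D.c y (y⁻¹ * (x⁻¹ * e)) : k) •
        (b.f y * D.act y (d.f (y⁻¹ * (x⁻¹ * e)))))))
    rw [← this]
    apply Finset.sum_congr rfl
    intro h _
    have h3 : (x⁻¹ * h)⁻¹ * (x⁻¹ * e) = h⁻¹ * e := by group
    rw [Equiv.coe_mulLeft, h3]
  rw [Finset.sum_congr rfl (fun h _ => h1 h), Finset.sum_congr rfl (fun x _ => h2 x),
    Finset.sum_comm]
  apply Finset.sum_congr rfl
  intro x _
  apply Finset.sum_congr rfl
  intro h _
  have hc := D.coc x (x⁻¹ * h) (h⁻¹ * e)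
  have h4 : x * (x⁻¹ * h) = h := by group
  have h5 : x⁻¹ * h * (h⁻¹ * e) = x⁻¹ * e := by group
  rw [h4, h5] at hc
  have hc' : (D.c x (x⁻¹ * h) : k) * (D.c h (h⁻¹ * e) : k)
      = (D.c (x⁻¹ * h) (h⁻¹ * e) : k) * (D.c x (x⁻¹ * e) : k) := by
    rw [← Units.val_mul, ← Units.val_mul, hc]
  have hact : D.act x (D.act (x⁻¹ * h) (d.f (h⁻¹ * e))) = D.act h (d.f (h⁻¹ * e)) := by
    have := congrArg (fun u => u (d.f (h⁻¹ * e))) (map_mul D.act x (x⁻¹ * h))
    rw [h4] at this
    exact this.symm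
  rw [map_smul, map_mul, hact, smul_mul_assoc, smul_smul, mul_smul_comm, smul_smul, mul_comm
    (D.c h (h⁻¹ * e) : k), hc', mul_comm (D.c (x⁻¹ * h) (h⁻¹ * e) : k), mul_assoc]

instance : Ring (CP D) :=
  { (inferInstance : AddCommGroup (CP D)) with
    mul := (· * ·)
    one := 1
    mul_assoc := mul_assoc'
    one_mul := one_mul'
    mul_one := mul_one'
    left_distrib := mul_add'
    right_distrib := add_mul'
    zero_mul := zero_mul'
    mul_zero := mul_zero' }

theorem smul_mul' (r : k) (a b : CP D) : (r • a) * b = r • (a * b) := by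
  apply CP.ext; funext e
  rw [smul_f, mul_f, mul_f, Finset.smul_sum]
  apply Finset.sum_congr rfl
  intro h _
  rw [smul_f, smul_mul_assoc, smul_comm]

theorem mul_smul' (r : k) (a b : CP D) : a * (r • b) = r • (a * b) := by
  apply CP.ext; funext e
  rw [smul_f, mul_f, mul_f, Finset.smul_sum]
  apply Finset.sum_congr rfl
  intro h _
  rw [smul_f, map_smul, mul_smul_comm, smul_comm]

instance : Algebra k (CP D) := Algebra.ofModule smul_mul' mul_smul'

/-- the embedding of `S` -/
def iS (D : CD k S E) : S →ₐ[k] CP D :=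
  AlgHom.ofLinearMap
    { toFun := fun s => sn D s 1
      map_add' := fun s t => sn_add s t 1
      map_smul' := fun r s => sn_smul r s 1 }
    rfl
    (fun s t => by
      show sn D (s * t) 1 = sn D s 1 * sn D t 1
      rw [sn_mul_sn, D.one_left, map_one, mul_one, Units.val_one, one_smul]
      rfl)

theorem iS_apply (s : S) : iS D s = sn D s 1 := rfl

theorem n_mul_n (e g : E) : n D e * n D g = (D.c e g : k) • n D (e * g) := by
  unfold n
  rw [sn_mul_sn, map_one, mul_one]

theorem n_mul_iS (e : E) (s : S) : n D e * iS D s = iS D (D.act e s) * n D e := by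
  unfold n
  rw [iS_apply, iS_apply, sn_mul_sn, sn_mul_sn, D.one_left, D.one_right, one_mul, mul_one,
    one_mul, map_one, mul_one]

theorem iS_mul_n (s : S) (e : E) : iS D s * n D e = sn D s e := by
  unfold n
  rw [iS_apply, sn_mul_sn, map_one, mul_one, one_mul, D.one_left, Units.val_one, one_smul]

theorem sum_iS_n (a : CP D) : ∑ e, iS D (a.f e) * n D e = a := by
  rw [← sum_sn a]
  apply Finset.sum_congr rfl
  intro e _
  rw [iS_mul_n, sum_sn]

/-- the units `n e` -/
theorem n_mul_inv (e : E) : n D e * (((D.c e e⁻¹)⁻¹ : kˣ) : k) • n D e⁻¹ = 1 := by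
  rw [mul_smul_comm, n_mul_n, mul_inv_cancel, smul_smul, Units.inv_mul, one_smul, n_one]

theorem inv_mul_n (e : E) : (((D.c e e⁻¹)⁻¹ : kˣ) : k) • n D e⁻¹ * n D e = 1 := by
  rw [smul_mul_assoc, n_mul_n, inv_mul_cancel, smul_smul, c_inv_symm, Units.inv_mul, one_smul,
    n_one]

/-- the universal property -/
theorem lift {A : Type} [Ring A] [Algebra k A] (al : S →ₐ[k] A) (m : E → A) (m1 : m 1 = 1)
    (mm : ∀ e g, m e * m g = (D.c e g : k) • m (e * g))
    (ms : ∀ e s, m e * al s = al (D.act e s) * m e) :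
    ∃ j : CP D →ₐ[k] A, (∀ s, j (iS D s) = al s) ∧ (∀ e, j (n D e) = m e) ∧
      ∀ a, j a = ∑ e, al (a.f e) * m e := by
  classical
  let L : CP D →ₗ[k] A :=
    { toFun := fun a => ∑ e, al (a.f e) * m e
      map_add' := fun a b => by
        rw [← Finset.sum_add_distrib]
        apply Finset.sum_congr rfl
        intro e _
        rw [add_f, map_add, add_mul]
      map_smul' := fun r a => by
        rw [RingHom.id_apply, Finset.smul_sum]
        apply Finset.sum_congr rfl
        intro e _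
        rw [smul_f, map_smul, smul_mul_assoc] }
  have Ls : ∀ s e, L (sn D s e) = al s * m e := by
    intro s e
    show ∑ h, al ((sn D s e).f h) * m h = _
    have : ∀ h ∈ Finset.univ, h ≠ e → al ((sn D s e).f h) * m h = 0 := by
      intro h _ hh
      rw [sn_f, if_neg hh, map_zero, zero_mul]
    rw [Finset.sum_eq_single e this (fun hh => absurd (Finset.mem_univ _) hh), sn_f, if_pos rfl]
  have L1 : L 1 = 1 := by
    rw [one_def, Ls, m1, map_one, one_mul]
  have Lsm : ∀ s e t g, L (sn D s e * sn D t g) = L (sn D s e) * L (sn D t g) := by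
    intro s e t g
    rw [sn_mul_sn, map_smul, Ls, Ls, Ls, mul_assoc, ← mul_assoc (m e), ms, mul_assoc (al _) (m e),
      mm, map_mul, mul_smul_comm, mul_smul_comm, mul_assoc]
  have Lm : ∀ a b, L (a * b) = L a * L b := by
    intro a b
    have ha := sum_sn a
    have hb := sum_sn b
    rw [← ha, ← hb, Finset.sum_mul, map_sum, map_sum, Finset.sum_mul]
    apply Finset.sum_congr rfl
    intro e _
    rw [Finset.mul_sum, map_sum, map_sum, Finset.mul_sum]
    apply Finset.sum_congr rfl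
    intro g _
    exact Lsm _ _ _ _
  refine ⟨AlgHom.ofLinearMap L L1 Lm, ?_, ?_, fun a => rfl⟩
  · intro s
    show L (sn D s 1) = _
    rw [Ls, m1, mul_one]
  · intro e
    show L (sn D 1 e) = _
    rw [Ls, map_one, one_mul]

end

end CP

end Pool.Agent.PFD
end
end -- Pool.Agent.PFD.DefsCP

section -- Pool.Agent.PFD.DefsD3

/-!
# Squad PFD, block D3 (helper18): the order `B1` over `R` which lifts `F_c[V : E]`

`Og ℓ c`: the base: `R` complete discrete valuation ring of characteristic `0` with residue field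
`F` of characteristic `ℓ`, with a multiplicative section `F → R`.

`CtW ℓ φ Va W`: `V` abelian `ℓ`-group, `E` an `ℓ'`-group, `V = Va × W` with `E`-stable `Va ≠ 1`, `W`, and `E`
acts freely on `Va - 1`.

`D0`: the datum of the twisted group algebra `F_c[V : E] = CP (D0 φ z)`.

`BO`: the properties of the order `B1` (output of D3).

`RFS`, `Crd`, `GrL`, `SO`: intermediate data (relative Frobenius systems, coordinates of `F Va`, its
graded lift `R1`, the lift `R1 [W]` of `F V`).
-/

open scoped BigOperators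

noncomputable section

namespace Pool.Agent.PFD

open MvPolynomial

/-- The base ring. -/
structure Og {R F : Type} [CommRing R] [Field F] (ℓ : ℕ) (c : D2.Cdv R F) where
  pr : ℓ.Prime
  ch : CharP F ℓ
  ch0 : CharZero R
  dom : IsDomain R
  pid : IsPrincipalIdealRing R
  τ : F →* R
  τκ : ∀ a, c.κ (τ a) = a

/-- The groups. -/
structure CtW {V E : Type} [CommGroup V] [Group E] (ℓ : ℕ) (φ : E →* MulAut V)
    (Va W : Subgroup V) : Prop where
  pr : ℓ.Prime
  pg : IsPGroup ℓ V
  fin : Finite V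
  cop : ¬ ℓ ∣ Nat.card E
  sa : ∀ e, ∀ u ∈ Va, φ e u ∈ Va
  sw : ∀ e, ∀ u ∈ W, φ e u ∈ W
  dis : Va ⊓ W = ⊥
  sup : Va ⊔ W = ⊤
  nt : ∃ u ∈ Va, u ≠ 1
  free : ∀ e, ∀ u ∈ Va, φ e u = u → e = 1 ∨ u = 1

/-- `E` acts on the group algebra `k V` -/
def acV (k : Type) {V E : Type} [CommRing k] [CommGroup V] [Group E] (φ : E →* MulAut V) :
    E →* (MonoidAlgebra k V ≃ₐ[k] MonoidAlgebra k V) where
  toFun := fun e => MonoidAlgebra.domCongr k k (φ e)
  map_one' := by
    apply AlgEquiv.ext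
    intro x
    induction x using MonoidAlgebra.induction_linear with
    | zero => simp
    | add f g hf hg => rw [map_add, hf, hg, map_add]
    | single v r => simp
  map_mul' := fun e g => by
    apply AlgEquiv.ext
    intro x
    induction x using MonoidAlgebra.induction_linear with
    | zero => simp
    | add f g hf hg => rw [map_add, hf, hg, map_add]
    | single v r => simp

theorem acV_single (k : Type) {V E : Type} [CommRing k] [CommGroup V] [Group E]
    (φ : E →* MulAut V) (e : E) (u : V) (r : k) :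
    acV k φ e (MonoidAlgebra.single u r) = MonoidAlgebra.single (φ e u) r := by
  show MonoidAlgebra.domCongr k k (φ e) _ = _
  simp

/-- normalised 2-cocycles of `E` with values in the units of `k` -/
structure Coc (k E : Type) [CommRing k] [Group E] where
  c : E → E → kˣ
  one_left : ∀ e, c 1 e = 1
  one_right : ∀ e, c e 1 = 1
  coc : ∀ e f g, c e f * c (e * f) g = c f g * c e (f * g)

/-- the datum of the twisted group algebra `F_c[V : E]` -/
def D0 {F V E : Type} [CommRing F] [CommGroup V] [Group E] (φ : E →* MulAut V) (c : Coc F E) :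
    CD F (MonoidAlgebra F V) E where
  act := acV F φ
  c := c.c
  one_left := c.one_left
  one_right := c.one_right
  coc := c.coc

/-- the element of `F_c[V : E]` which belongs to `v` in `V` -/
def vv {F V E : Type} [CommRing F] [CommGroup V] [Group E] [Fintype E] (φ : E →* MulAut V)
    (c : Coc F E) : V →* CP (D0 φ c) :=
  (CP.iS (D0 φ c)).toMonoidHom.comp (MonoidAlgebra.of F V)

/-- the lift of the cocycle -/
def Og.up {R F E : Type} [CommRing R] [Field F] [Group E] {ℓ : ℕ} {c : D2.Cdv R F}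
    (o : Og ℓ c) (z : Coc F E) : Coc R E where
  c := fun e f => Units.map o.τ (z.c e f)
  one_left := fun e => by rw [z.one_left, map_one]
  one_right := fun e => by rw [z.one_right, map_one]
  coc := fun e f g => by rw [← map_mul, ← map_mul, z.coc]

/-- The order `Γ` over `R` which lifts `F_c[V : E]`. -/
structure BO {R F V E : Type} (Γ : Type) [CommRing R] [Field F] [CommGroup V] [Group E]
    [Fintype E] {ℓ : ℕ} {c : D2.Cdv R F} (o : Og ℓ c) (φ : E →* MulAut V) (W : Subgroup V)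
    (z : Coc F E) [Ring Γ] [Algebra R Γ] where
  /-- the special fibre -/
  fb : D2.FibG Γ (CP (D0 φ z)) c
  /-- the subgroup `W` -/
  om : W →* Γ
  om_q : ∀ w : W, fb.q (om w) = vv φ z (w : V)
  /-- the units `n e` -/
  n : E → Γ
  n_one : n 1 = 1
  n_mul : ∀ e g, n e * n g = o.τ (z.c e g : F) • n (e * g)
  n_om : ∀ e (w w' : W), (w' : V) = φ e w → n e * om w = om w' * n e
  n_q : ∀ e, fb.q (n e) = CP.n (D0 φ z) e
  /-- the Frobenius system `x i * w`, `w⁻¹ * x' i` -/
  I : Type
  fi : Fintype I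
  fw : Fintype W
  x : I → Γ
  x' : I → Γ
  t : Γ →ₗ[R] R
  ts : ∀ a b, t (a * b) = t (b * a)
  t1 : ∀ a, ∑ i, ∑ w, t (om w⁻¹ * x' i * a) • (x i * om w) = a
  t2 : ∀ a, ∑ i, ∑ w, t (a * (x i * om w)) • (om w⁻¹ * x' i) = a
  /-- the basis `x i * w`, and `om w` normalises it -/
  bs : Module.Basis (I × W) R Γ
  bs_eq : ∀ i w, bs (i, w) = x i * om w
  ph : I → W →* W
  phb : ∀ i, Function.Bijective (ph i)
  nrm : ∀ i w, om w * x i = x i * om (ph i w)
  /-- the derivation -/
  v : Γ →ₗ[R] Γ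
  v_mul : ∀ a b, v (a * b) = v a * b + a * v b
  v_om : ∀ w, v (om w) = 0
  v_n : ∀ e, v (n e) = 0
  wt : ℕ
  wt_pos : 0 < wt
  t_v : ∀ a, t (v a) = (wt : R) * t a
  /-- the nilpotent ideal -/
  P : Submodule R Γ
  P_l : ∀ a, ∀ y ∈ P, a * y ∈ P
  P_r : ∀ a, ∀ y ∈ P, y * a ∈ P
  P_v : ∀ a, v a ∈ P
  N : ℕ
  P_nil : ∀ y : ℕ → Γ, (∀ i, y i ∈ P) → ((List.range N).map y).prod = 0
  /-- the centre of the special fibre lifts -/
  ctr : ∀ a ∈ Subalgebra.center F (CP (D0 φ z)), ∃ b ∈ Subalgebra.center R Γ, fb.q b = a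

open Classical in
/-- Relative Frobenius system over the subgroup `W` with its basis. -/
structure RFS (R Γ W I : Type) [CommRing R] [Ring Γ] [Algebra R Γ] [Group W] [Fintype W]
    [Fintype I] where
  t : Γ →ₗ[R] R
  ts : ∀ x y, t (x * y) = t (y * x)
  om : W →* Γ
  x : I → Γ
  x' : I → Γ
  t1 : ∀ a, ∑ i, ∑ w, t (om w⁻¹ * x' i * a) • (x i * om w) = a
  t2 : ∀ a, ∑ i, ∑ w, t (a * (x i * om w)) • (om w⁻¹ * x' i) = a
  du : ∀ i j u v, t (om u⁻¹ * x' i * (x j * om v)) = if i = j ∧ u = v then 1 else 0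
  ph : I → W →* W
  phb : ∀ i, Function.Bijective (ph i)
  nrm : ∀ i w, om w * x i = x i * om (ph i w)

/-! ### Intermediate data -/

/-- Coordinates of `F V` (`V` an abelian `ℓ`-group): blocks `b` with exponents `ℓ ^ a b`, `E` acts
linearly on the span of the `x ⟨b, j⟩` for every block `b`. -/
structure Crd (ℓ : ℕ) (F V E B : Type) [Field F] [CommGroup V] [Group E] (φ : E →* MulAut V)
    (J : B → Type) [∀ b, Fintype (J b)] [∀ b, DecidableEq (J b)] [Fintype B] where
  a : B → ℕ
  a1 : ∀ b, 1 ≤ a b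
  D : ∀ b, E →* Matrix (J b) (J b) F
  x : (Σ b, J b) → MonoidAlgebra F V
  x0 : ∀ i, x i ^ ℓ ^ a i.1 = 0
  xe : ∀ e b j, acV F φ e (x ⟨b, j⟩) = ∑ k, D b e k j • x ⟨b, k⟩
  bs : Module.Basis (∀ i : Σ b, J b, Fin (ℓ ^ a i.1)) F (MonoidAlgebra F V)
  bs_eq : ∀ α, bs α = ∏ i, x i ^ (α i : ℕ)

/-- the linear action on polynomials -/
def Lb {R E B : Type} [CommRing R] [Group E] {J : B → Type} [∀ b, Fintype (J b)]
    [∀ b, DecidableEq (J b)] (D : ∀ b, E →* Matrix (J b) (J b) R) (e : E) :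
    MvPolynomial (Σ b, J b) R →ₐ[R] MvPolynomial (Σ b, J b) R :=
  aeval (fun i => ∑ k : J i.1, C (D i.1 e k i.2) * X ⟨i.1, k⟩)

open Classical in
/-- The graded lift `R1` of `F V`: a commutative `R`-algebra with an action of `E`, reduction
`rho`, dual bases `y`, `y'` for the form `t`, derivation `v`, nilpotent ideal `P`, which is the kernel
of `eps`, socle element `sg`. -/
structure GrL {R F V E : Type} [CommRing R] [Field F] [CommGroup V] [Fintype V] [Group E]
    (c : D2.Cdv R F) (φ : E →* MulAut V) (R1 : Type) [CommRing R1] [Algebra R R1] where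
  act : E →* (R1 ≃ₐ[R] R1)
  rho : D2.FibG R1 (MonoidAlgebra F V) c
  rho_act : ∀ e x, rho.q (act e x) = acV F φ e (rho.q x)
  J : Type
  fJ : Fintype J
  y : J → R1
  y' : J → R1
  t : R1 →ₗ[R] R
  h1 : ∀ a, ∑ j, t (y' j * a) • y j = a
  du : ∀ i j, t (y' i * y j) = if i = j then 1 else 0
  t_act : ∀ e x, t (act e x) = t x
  v : R1 →ₗ[R] R1
  v_mul : ∀ a b, v (a * b) = v a * b + a * v b
  v_act : ∀ e x, v (act e x) = act e (v x)
  wt : ℕ
  wt_pos : 0 < wt
  t_v : ∀ a, t (v a) = (wt : R) * t a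
  eps : R1 →ₐ[R] R
  eps_act : ∀ e x, eps (act e x) = eps x
  eps_v : ∀ x, eps (v x) = 0
  N : ℕ
  eps_nil : ∀ y : Fin N → R1, (∀ i, eps (y i) = 0) → ∏ i, y i = 0
  sg : R1
  sg_eps : ∀ x, x * sg = eps x • sg
  sg_q : rho.q sg = ∑ u : V, MonoidAlgebra.of F V u

open Classical in
/-- The lift `S` of `F V` for `V = Va × W`. -/
structure SO {R F V E : Type} [CommRing R] [Field F] [CommGroup V] [Group E]
    (c : D2.Cdv R F) (φ : E →* MulAut V) (W : Subgroup V) [Fintype W] (S : Type) [CommRing S]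
    [Algebra R S] where
  act : E →* (S ≃ₐ[R] S)
  fb : D2.FibG S (MonoidAlgebra F V) c
  fb_act : ∀ e s, fb.q (act e s) = acV F φ e (fb.q s)
  om : W →* S
  om_q : ∀ w : W, fb.q (om w) = MonoidAlgebra.of F V (w : V)
  om_act : ∀ e (w w' : W), (w' : V) = φ e w → act e (om w) = om w'
  J : Type
  fJ : Fintype J
  y : J → S
  y' : J → S
  t : S →ₗ[R] R
  h1 : ∀ a, ∑ j, ∑ w, t (om w⁻¹ * y' j * a) • (y j * om w) = a
  du : ∀ i j u v, t (om u⁻¹ * y' i * (y j * om v)) = if i = j ∧ u = v then 1 else 0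
  t_act : ∀ e x, t (act e x) = t x
  v : S →ₗ[R] S
  v_mul : ∀ a b, v (a * b) = v a * b + a * v b
  v_om : ∀ w, v (om w) = 0
  v_act : ∀ e x, v (act e x) = act e (v x)
  wt : ℕ
  wt_pos : 0 < wt
  t_v : ∀ a, t (v a) = (wt : R) * t a
  P : Ideal S
  P_v : ∀ a, v a ∈ P
  P_act : ∀ e, ∀ y ∈ P, act e y ∈ P
  N : ℕ
  P_nil : P ^ N = ⊥
  ann : ∀ e, ∀ z : MonoidAlgebra F V,
    (∀ u : V, MonoidAlgebra.of F V (φ e u) * z = MonoidAlgebra.of F V u * z) →
    ∃ y : S, fb.q y = z ∧ ∀ s, act e s * y = s * y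

end Pool.Agent.PFD
end
end -- Pool.Agent.PFD.DefsD3

section -- Pool.Agent.PFD.StmtsD6

/-!
# Squad PFD, block D6 (helper43): from `PMid` to the twisted group algebra of `V : E`

`PMid F φ W α`: `A(R) = F V` for the subgroups `R` of `V` which are not in `W`, units for all `e ∈ E`.
Output: units `n e` with `n e n f = c(e, f) n (e f)`, `c(e, f) ∈ F`, and the `V × V`-frame of the
complement of the twisted group algebra, with stabilisers `tw (φ e) R`, `R ≤ W`.
-/

open scoped BigOperators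

noncomputable section

namespace Pool.Agent.PFD.D6

open Pool.Agent.PFC

/-- units which realise `E` up to scalars -/
structure Unt {F V E A : Type} [Field F] [CommGroup V] [Group E] [Ring A] [Algebra F A]
    (φ : E →* MulAut V) (α : V →* A) (n n' : E → A) (c : E → E → F) : Prop where
  one : n 1 = 1
  li : ∀ e, n' e * n e = 1
  ri : ∀ e, n e * n' e = 1
  tw : ∀ e u, n e * α u = α (φ e u) * n e
  mul : ∀ e f, n e * n f = c e f • n (e * f)

/-- UNT: the units can be chosen multiplicative up to scalars.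

Proof.  Let `L = Cz F α ⊤`, a local finite-dimensional algebra over the algebraically closed field `F`:
`L = F + J`, `J` a nilpotent ideal (nonunits; a finite-dimensional division algebra over `F` is `F`), `J^N = 0`.
Choose units `y_e` by `PMid.uni`, `y_1 = 1`.  Conjugation by `y_e` maps `L` to `L` and `J^k` to `J^k`.
`y_e y_f y_(ef)⁻¹ ∈ L` is a unit.  Claim for every `k ≥ 1`: there are such `y_e` and scalars
`c(e,f) ≠ 0` with `y_e y_f y_(ef)⁻¹ ∈ c(e,f) (1 + J^k)`.  `k = 1`: `L = F + J`.  Step: write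
`y_e y_f y_(ef)⁻¹ = c(e,f) (1 + j(e,f))`, `j(e,f) ∈ J^k`.  `(y_e y_f) y_g = y_e (y_f y_g)` gives
`c(e,f) c(ef,g) = c(f,g) c(e,fg)` (modulo `J`) and, modulo `J^(k+1)`,
`j(e,f) + j(ef,g) = y_e j(f,g) y_e⁻¹ + j(e,fg)`.  Put `a_e = |E|⁻¹ ∑_g j(e,g)` (`|E| ≠ 0` in `F`); the sum
over `g` gives `j(e,f) + a_(ef) = y_e a_f y_e⁻¹ + a_e` modulo `J^(k+1)`.  Replace `y_e` by
`(1 + a_e)⁻¹ y_e` (for `e = 1` use that `j(1,g) = 0`): the new `j(e,f)` is
`j(e,f) - a_e - y_e a_f y_e⁻¹ + a_(ef) = 0` modulo `J^(k+1)`.  With `k = N` one has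
`y_e y_f = c(e,f) y_(ef)`. -/
def UntStmt : Prop :=
  ∀ (F V E A : Type) [Field F] [IsAlgClosed F] [CommGroup V] [Fintype V] [Group E] [Fintype E]
    [Ring A] [Algebra F A] (ℓ : ℕ) [CharP F ℓ] (φ : E →* MulAut V) (W : Subgroup V)
    (α : V →* A), Ctf ℓ φ W → PMid F φ W α →
    ∃ (n n' : E → A) (c : E → E → F), Unt φ α n n' c

/-- QWF: the frame of the complement.

Proof.  `P = range q`, a retract of `A` as `V × V`-module, so `PS` (all stabilisers `tw (φ e) R`) holds for
`P` (row `PSM`).  By `PSX` the points of the frame whose stabiliser `K` has `P(K) = 0`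
(`Fx K ≤ BK K`) can be removed.  So it is enough to show `P(K) = 0` for `K = tw (φ e) R`, `R` not in `W`;
then the remaining stabilisers are `tw (φ e) R` with `R ≤ W`, and `b`, `c ∘ q` is the frame for `q`.  Let
`x ∈ P` be fixed by `K`: `α(φ e u) x = x α(u)` for `u ∈ R`.  Then `n'_e x` commutes with `α(R)`, so
`n'_e x = ∑ c_u α(u) + z` with `z ∈ BK (cj) R` (`spn`), and `x = ∑ c_u n_e α(u) + n_e z`; left
multiplication by `n_e` maps `BK (cj) R` into `BK (bi) K` (it intertwines conjugation by `u` and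
`(φ e u, u)`; subgroups `R' < R` correspond to `tw (φ e) R'`, transversals to transversals).  Apply
`q`: `x = q x = q (n_e z) ∈ BK (bi) K`, as a vector of `P` (`q` is equivariant). -/
def QwfStmt : Prop :=
  ∀ (F V E A : Type) [Field F] [CommGroup V] [Fintype V] [Group E] [Fintype E]
    [Ring A] [Algebra F A] (ℓ : ℕ) [CharP F ℓ] (φ : E →* MulAut V) (W : Subgroup V)
    (α : V →* A) (n n' : E → A) (c : E → E → F) (q : A →ₗ[F] A), Ctf ℓ φ W → Unt φ α n n' c →
    PS (fun K => ∃ (e : E) (R : Subgroup V), K = tw (φ e).toMonoidHom R) (bi F α) →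
    (∀ R : Subgroup V, ¬ R ≤ W → ∀ a ∈ Fx (cj F α) R, ∃ c : V → F,
      a - ∑ u, c u • α u ∈ BK (cj F α) R) →
    (∀ x, q (q x) = q x) → (∀ u x, q (α u * x) = α u * q x) → (∀ u x, q (x * α u) = q x * α u) →
    (∀ e u, q (n e * α u) = 0) →
    ∃ (Ω : Type) (_ : Fintype Ω) (_ : MulAction (V × V) Ω) (b : Ω → A) (d : Ω → (A →ₗ[F] F)),
      (∀ (w : V × V) (ω : Ω), b (w • ω) = bi F α w (b ω)) ∧
      (∀ (w : V × V) (ω : Ω) (x : A), d (w • ω) (bi F α w x) = d ω x) ∧
      (∀ x, ∑ ω, d ω x • b ω = q x) ∧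
      ∀ ω : Ω, ∃ (e : E) (R : Subgroup V), R ≤ W ∧
        MulAction.stabilizer (V × V) ω = tw (φ e).toMonoidHom R

end Pool.Agent.PFD.D6
end
end -- Pool.Agent.PFD.StmtsD6

section -- Pool.Agent.PFD.DefsD6

/-!
# Squad PFD, block D6: the twisted extension `F_c[V : E] → A` (definitions)

* `Tg F S g g'`: the subalgebra `S` is spanned by the family `g`, and `∑ g' i ⊗ g i` is a symmetric
  Casimir element of `S`.  Example: `g (v, e) = α v * n e`, `g' (v, e) = n' e * α v⁻¹`.
* `Ev F g g' lam x = ∑ lam (g' i * x) • g i`: the bimodule map from `A` to `S`.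
* `Cg`: the inverse of `Ev 1`.
* `Cs`: Casimir elements over `S`.
* `TX A φ W z`: the output of D6.
-/

open scoped BigOperators

noncomputable section

namespace Pool.Agent.PFD.D6

open Pool.Agent.PFC

section defs

variable (F : Type) {V E A ι κ Ω : Type} [Field F] [CommGroup V] [Group E] [Ring A] [Algebra F A]

/-- the elements `v n_e` of the twisted group -/
def gg (α : V →* A) (n : E → A) (p : V × E) : A := α p.1 * n p.2

/-- their inverses -/
def gg' (α : V →* A) (n' : E → A) (p : V × E) : A := n' p.2 * α p.1⁻¹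

/-- `S` is the span of the `g i`, and `∑ g' i ⊗ g i` is a symmetric Casimir element of `S`. -/
structure Tg [Fintype ι] (S : Subalgebra F A) (g g' : ι → A) : Prop where
  spn : ∀ x : A, x ∈ S ↔ x ∈ Submodule.span F (Set.range g)
  mem : ∀ i, g' i ∈ S
  cs1 : ∀ (X : Type) [AddCommGroup X] [Module F X] (T : A →ₗ[F] A →ₗ[F] X), ∀ s ∈ S,
    ∑ i, T (g' i * s) (g i) = ∑ i, T (g' i) (s * g i)
  cs2 : ∀ (X : Type) [AddCommGroup X] [Module F X] (T : A →ₗ[F] A →ₗ[F] X), ∀ s ∈ S,
    ∑ i, T (s * g' i) (g i) = ∑ i, T (g' i) (g i * s)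
  cs3 : ∀ (X : Type) [AddCommGroup X] [Module F X] (T : A →ₗ[F] A →ₗ[F] X),
    ∑ i, T (g' i) (g i) = ∑ i, T (g i) (g' i)

/-- the bimodule map `A → S` given by the functional `lam` -/
def Ev [Fintype ι] (g g' : ι → A) (lam : A →ₗ[F] F) (x : A) : A := ∑ i, lam (g' i * x) • g i

/-- `c'` is the inverse of `Ev 1`, it is in the centre of `S`. -/
structure Cg [Fintype ι] (S : Subalgebra F A) (g g' : ι → A) (lam : A →ₗ[F] F) (c' : A) :
    Prop where
  mem : c' ∈ S
  lin : c' * Ev F g g' lam 1 = 1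
  rin : Ev F g g' lam 1 * c' = 1
  com : ∀ s ∈ S, c' * s = s * c'

/-- Casimir elements over `S` -/
def Cs [Fintype κ] (S : Subalgebra F A) (u v : κ → A) : Prop :=
  ∀ (X : Type) [AddCommGroup X] [Module F X] (T : A →ₗ[F] A →ₗ[F] X),
    (∀ a b, ∀ s ∈ S, T (a * s) b = T a (s * b)) →
    ∀ c, ∑ k, T (c * u k) (v k) = ∑ k, T (u k) (v k * c)

/-- a frame of the projection `q` over the `V × V`-set `Ω`, with stabilisers `tw (φ e) R`,
`R ≤ W` -/
structure Fq [Fintype Ω] [MulAction (V × V) Ω] (φ : E →* MulAut V) (W : Subgroup V) (α : V →* A)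
    (q : A →ₗ[F] A) (b : Ω → A) (d : Ω → (A →ₗ[F] F)) : Prop where
  eb : ∀ (w : V × V) (ω : Ω), b (w • ω) = bi F α w (b ω)
  ed : ∀ (w : V × V) (ω : Ω) (x : A), d (w • ω) (bi F α w x) = d ω x
  sum : ∀ x, ∑ ω, d ω x • b ω = q x
  st : ∀ ω : Ω, ∃ (e : E) (R : Subgroup V), R ≤ W ∧
    MulAction.stabilizer (V × V) ω = tw (φ e).toMonoidHom R

end defs

/-- the inverse of `n e` in the crossed product -/
def ni {k S E : Type} [CommRing k] [CommRing S] [Algebra k S] [Group E] [Fintype E]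
    (D : CD k S E) (e : E) : CP D := (((D.c e e⁻¹)⁻¹ : kˣ) : k) • CP.n D e⁻¹

/-- The output of D6: `A` is a split, relatively separable, symmetric extension of the twisted
group algebra `Γ0 = CP (D0 φ z)` of `V : E`.

`mu` is the form, `pr` the orthogonal projection, `x`, `y` a relative Frobenius system, `Om`, `m`, `τ`
the `W`-relative form of the complement (`T` is any transversal of `W` in `V`). -/
structure TX {F V E : Type} (A : Type) [Field F] [CommGroup V] [Fintype V] [Group E]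
    [Fintype E] [Ring A] [Algebra F A] (φ : E →* MulAut V) (W : Subgroup V) (z : Coc F E) where
  j : CP (D0 φ z) →ₐ[F] A
  pr : A →ₗ[F] CP (D0 φ z)
  pr_j : ∀ γ, pr (j γ) = γ
  pr_l : ∀ γ x, pr (j γ * x) = γ * pr x
  pr_r : ∀ x γ, pr (x * j γ) = pr x * γ
  fin : FiniteDimensional F A
  mu : A →ₗ[F] F
  mus : ∀ a b, mu (a * b) = mu (b * a)
  mun : ∀ a, (∀ b, mu (a * b) = 0) → a = 0
  orth : ∀ x, mu (j (pr x)) = mu x
  K : Type
  fK : Fintype K
  sep : Pool.Agent.PFC.B1.Sep (CP (D0 φ z)) A K j.toRingHom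
  N : Type
  fN : Fintype N
  x : N → A
  y : N → A
  e1 : ∀ a, ∑ k, x k * j (pr (y k * a)) = a
  e2 : ∀ a, ∑ k, j (pr (a * x k)) * y k = a
  unt : ∀ w : CP (D0 φ z), (∀ γ, w * γ = γ * w) → IsUnit w → IsUnit (∑ k, x k * j w * y k)
  Om : Type
  fOm : Fintype Om
  aOm : MulAction W Om
  m : Om → A
  τ : Om → (A →ₗ[F] F)
  m_eq : ∀ (w : W) (ω : Om), m (w • ω) =
    j (vv φ z (w : V)) * m ω * j (vv φ z (w : V)⁻¹)
  τ_eq : ∀ (w : W) (ω : Om) (a : A),
    τ (w • ω) (j (vv φ z (w : V)) * a * j (vv φ z (w : V)⁻¹)) = τ ω a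
  hw : ∀ T : Finset V, IsTv W ⊤ T → ∀ a : A,
    ∑ h : E, ∑ t ∈ T, ∑ g : E, ∑ v : V, ∑ ω,
      τ ω (j (vv φ z t⁻¹ * ni (D0 φ z) h) * a * j (CP.n (D0 φ z) g * vv φ z v)) •
        (j (CP.n (D0 φ z) h * vv φ z t) * m ω * j (vv φ z v⁻¹ * ni (D0 φ z) g)) =
      a - j (pr a)

/-- TOP of D6: from `PMid` to the twisted extension. -/
def TxtStmt : Prop :=
  ∀ (F V E A : Type) [Field F] [IsAlgClosed F] [CommGroup V] [Fintype V] [Group E] [Fintype E]
    [Ring A] [Algebra F A] (ℓ : ℕ) [CharP F ℓ] (φ : E →* MulAut V) (W : Subgroup V)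
    (α : V →* A), Ctf ℓ φ W → PMid F φ W α → ∃ z : Coc F E, Nonempty (TX A φ W z)

end Pool.Agent.PFD.D6
end
end -- Pool.Agent.PFD.DefsD6

section -- Pool.Agent.PFE.DefsN

/-!
# Squad PFE: part (0) for a family `NN` of subgroups (helper79)

`NN` is a family of subgroups of `V` which is closed upwards and stable under `E`, and no nontrivial
element of `E` centralises a member of `NN`.  The definitions `Ctf`, `PIn`, `PMid` (`PFC/DefsP2.lean`)
and `TX` (`PFD/DefsD6.lean`) are the case `NN Q ↔ ¬ Q ≤ W`.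
-/

open scoped BigOperators

noncomputable section

namespace Pool.Agent.PFE

open Pool.Agent.PFC Pool.Agent.PFD

/-- The groups and the family. -/
structure Ctn {V E : Type} [CommGroup V] [Group E] (ℓ : ℕ) (φ : E →* MulAut V)
    (NN : Subgroup V → Prop) : Prop where
  pr : ℓ.Prime
  pg : IsPGroup ℓ V
  cop : ¬ ℓ ∣ Nat.card E
  top : NN ⊤
  bot : ¬ NN ⊥
  up : ∀ Q S : Subgroup V, NN Q → Q ≤ S → NN S
  st : ∀ (e : E) (Q : Subgroup V), NN Q → NN (Q.map (φ e).toMonoidHom)
  cf : ∀ Q : Subgroup V, NN Q → ∀ e : E, (∀ u ∈ Q, φ e u = u) → e = 1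

theorem Ctn.fa {V E : Type} [CommGroup V] [Group E] {ℓ : ℕ} {φ : E →* MulAut V}
    {NN : Subgroup V → Prop} (h : Ctn ℓ φ NN) (e : E) (he : ∀ u, φ e u = u) : e = 1 :=
  h.cf ⊤ h.top e (fun u _ => he u)

theorem Ctn.nt {V E : Type} [CommGroup V] [Group E] {ℓ : ℕ} {φ : E →* MulAut V}
    {NN : Subgroup V → Prop} (h : Ctn ℓ φ NN) : ∃ u : V, u ≠ 1 := by
  by_contra h1
  apply h.bot
  have h2 : (⊥ : Subgroup V) = ⊤ := by
    apply le_antisymm bot_le
    intro u _
    rw [Subgroup.mem_bot]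
    by_contra h3
    exact h1 ⟨u, h3⟩
  rw [h2]
  exact h.top

theorem ctn_of_ctf {V E : Type} [CommGroup V] [Group E] {ℓ : ℕ} {φ : E →* MulAut V}
    {W : Subgroup V} (h : Ctf ℓ φ W) : Ctn ℓ φ (fun Q => ¬ Q ≤ W) := by
  refine ⟨h.pr, h.pg, h.cop, ?_, ?_, ?_, ?_, ?_⟩
  · intro h1
    obtain ⟨u, hu⟩ := h.nt
    exact hu (h1 (Subgroup.mem_top u))
  · intro h1
    exact h1 bot_le
  · intro Q S hQ hQS hS
    exact hQ (hQS.trans hS)
  · intro e Q hQ h1
    apply hQ
    intro u hu
    have h2 : φ e u ∈ W := h1 (Subgroup.mem_map_of_mem _ hu)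
    have h3 : φ e⁻¹ (φ e u) = u := by
      rw [← MulAut.mul_apply, ← map_mul, inv_mul_cancel, map_one, MulAut.one_apply]
    rw [← h3]
    exact h.stab _ _ h2
  · intro Q hQ e he
    obtain ⟨u, hu, hu1⟩ : ∃ u ∈ Q, u ∉ W := SetLike.not_le_iff_exists.1 hQ
    exact (h.free e u (he u hu)).resolve_right hu1

section inp

variable (F : Type) {V E A : Type} [Field F] [CommGroup V] [Group E] [Ring A] [Algebra F A]

/-- The input of part (0): the local conditions are for the subgroups in `NN`. -/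
structure PInN [Fintype V] (φ : E →* MulAut V) (NN : Subgroup V → Prop) (α : V →* A) :
    Prop where
  fin : FiniteDimensional F A
  frm : ∃ lam, Frm F α lam
  loc : IsLocalRing (Cz F α ⊤)
  ps : PS (fun K => ∃ (e : E) (R : Subgroup V), K = tw (φ e).toMonoidHom R) (bi F α)
  top : Tpv F α
  lcq : ∀ Q : Subgroup V, NN Q → ∃ n π, Lcq F α Q n π
  uni : ∀ e : E, ∃ y y' : A, y * y' = 1 ∧ y' * y = 1 ∧ ∀ u, y * α u = α (φ e u) * y

/-- The output of part (0): `A(R) = F V` for all `R` in `NN`. -/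
structure PMidN [Fintype V] (φ : E →* MulAut V) (NN : Subgroup V → Prop) (α : V →* A) :
    Prop where
  fin : FiniteDimensional F A
  frm : ∃ lam, Frm F α lam
  loc : IsLocalRing (Cz F α ⊤)
  one : (1 : A) ∉ BK (cj F α) ⊤
  ps : PS (fun K => ∃ (e : E) (R : Subgroup V), K = tw (φ e).toMonoidHom R) (bi F α)
  spn : ∀ R : Subgroup V, NN R → ∀ a ∈ Fx (cj F α) R, ∃ c : V → F,
    a - ∑ u, c u • α u ∈ BK (cj F α) R
  uni : ∀ e : E, ∃ y y' : A, y * y' = 1 ∧ y' * y = 1 ∧ ∀ u, y * α u = α (φ e u) * y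

end inp

/-- Part (0) for a family, with the number of simple modules and the dimension of the centre. -/
def PmzNStmt : Prop :=
  ∀ (F V E A : Type) [Field F] [IsAlgClosed F] [CommGroup V] [Fintype V] [Group E] [Fintype E]
    [Ring A] [Algebra F A] (ℓ : ℕ) [CharP F ℓ] (φ : E →* MulAut V) (NN : Subgroup V → Prop)
    (α : V →* A), Ctn ℓ φ NN → PInN F φ NN α →
    ∃ (A' : Type) (_ : Ring A') (_ : Algebra F A') (α' : V →* A'),
      PMidN F φ NN α' ∧ ls F A' = ls F A ∧ Module.finrank F (Subalgebra.center F A') =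
        Module.finrank F (Subalgebra.center F A)

/-- The twisted extension for a family `NN` (`TX` of `PFD/DefsD6.lean` with the `V × V`-frame of the
complement instead of the `W`-relative form).  `sepV`: `A` is relatively separable over `F V`. -/
structure TXN {F V E : Type} (A : Type) [Field F] [CommGroup V] [Fintype V] [Group E]
    [Fintype E] [Ring A] [Algebra F A] (φ : E →* MulAut V) (NN : Subgroup V → Prop)
    (z : Coc F E) where
  j : CP (D0 φ z) →ₐ[F] A
  pr : A →ₗ[F] CP (D0 φ z)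
  pr_j : ∀ γ, pr (j γ) = γ
  pr_l : ∀ γ x, pr (j γ * x) = γ * pr x
  pr_r : ∀ x γ, pr (x * j γ) = pr x * γ
  fin : FiniteDimensional F A
  mu : A →ₗ[F] F
  mus : ∀ a b, mu (a * b) = mu (b * a)
  mun : ∀ a, (∀ b, mu (a * b) = 0) → a = 0
  orth : ∀ x, mu (j (pr x)) = mu x
  K : Type
  fK : Fintype K
  sep : Pool.Agent.PFC.B1.Sep (CP (D0 φ z)) A K j.toRingHom
  sepV : Pool.Agent.PFC.B1.Sep (MonoidAlgebra F V) A (K × E)
    (j.comp (CP.iS (D0 φ z))).toRingHom
  N : Type
  fN : Fintype N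
  x : N → A
  y : N → A
  e1 : ∀ a, ∑ k, x k * j (pr (y k * a)) = a
  e2 : ∀ a, ∑ k, j (pr (a * x k)) * y k = a
  unt : ∀ w : CP (D0 φ z), (∀ γ, w * γ = γ * w) → IsUnit w → IsUnit (∑ k, x k * j w * y k)
  Om : Type
  fOm : Fintype Om
  aOm : MulAction (V × V) Om
  b : Om → A
  d : Om → (A →ₗ[F] F)
  b_eq : ∀ (w : V × V) (ω : Om), b (w • ω) = j (vv φ z w.1) * b ω * j (vv φ z w.2⁻¹)
  d_eq : ∀ (w : V × V) (ω : Om) (a : A),
    d (w • ω) (j (vv φ z w.1) * a * j (vv φ z w.2⁻¹)) = d ω a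
  sum : ∀ a : A, ∑ ω, d ω a • b ω = a - j (pr a)
  st : ∀ ω : Om, ∃ (e : E) (R : Subgroup V), ¬ NN R ∧
    MulAction.stabilizer (V × V) ω = tw (φ e).toMonoidHom R

/-- TOP: from `PMidN` to the twisted extension. -/
def TxnStmt : Prop :=
  ∀ (F V E A : Type) [Field F] [IsAlgClosed F] [CommGroup V] [Fintype V] [Group E] [Fintype E]
    [Ring A] [Algebra F A] (ℓ : ℕ) [CharP F ℓ] (φ : E →* MulAut V) (NN : Subgroup V → Prop)
    (α : V →* A), Ctn ℓ φ NN → PMidN F φ NN α →
    ∃ (z : Coc F E) (T : TXN A φ NN z), ∀ u, T.j (vv φ z u) = α u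

end Pool.Agent.PFE
end
end -- Pool.Agent.PFE.DefsN

section -- Pool.Agent.Helper84_PFD.UNT

/-!
Squad PFD, row UNT: the units which realise `E` can be chosen multiplicative up to scalars.
-/

set_option autoImplicit false

open scoped BigOperators

namespace Pool.Agent.PFD.D6.H84

open Pool.Agent.PFC

section loc

variable {F L : Type} [Field F] [Ring L] [Algebra F L]

/-- in a finite-dimensional local algebra, the radical consists of the nonunits -/
theorem mem_jac [FiniteDimensional F L] [IsLocalRing L] (x : L) :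
    x ∈ Ring.jacobson L ↔ ¬ IsUnit x := by
  have : IsArtinianRing L := IsArtinianRing.of_finite F L
  rw [← Ideal.jacobson_bot]
  constructor
  · intro hx hu
    have h1 : (Ideal.jacobson (⊥ : Ideal L)) = ⊤ := Ideal.eq_top_of_isUnit_mem _ hx hu
    rw [Ideal.jacobson_eq_top_iff] at h1
    exact bot_ne_top h1
  · intro hx
    rw [Ideal.mem_jacobson_iff]
    intro y
    have h1 : (-(y * x)) + (1 + y * x) = 1 := by abel
    rcases IsLocalRing.isUnit_or_isUnit_of_add_one h1 with h2 | h2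
    · exfalso
      apply hx
      obtain ⟨v, hv⟩ := h2.exists_left_inv
      have h3 : (-(v * y)) * x = 1 := by
        rw [← hv]
        noncomm_ring
      exact IsUnit.of_mul_eq_one _ (mul_eq_one_symm h3)
    · obtain ⟨v, hv⟩ := h2.exists_left_inv
      refine ⟨v, ?_⟩
      rw [Ideal.mem_bot, ← hv]
      noncomm_ring

theorem exists_scalar [IsAlgClosed F] [FiniteDimensional F L] [IsLocalRing L] (x : L) :
    ∃ a : F, x - algebraMap F L a ∈ Ring.jacobson L := by
  obtain ⟨a, ha⟩ := spectrum.nonempty_of_isAlgClosed_of_finiteDimensional F x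
  refine ⟨a, ?_⟩
  rw [mem_jac (F := F)]
  intro h
  apply ha
  rw [spectrum.mem_resolventSet_iff, ← neg_sub]
  exact h.neg

theorem jac_nil [FiniteDimensional F L] : ∃ K : ℕ, (Ring.jacobson L) ^ K = ⊥ := by
  have : IsArtinianRing L := IsArtinianRing.of_finite F L
  obtain ⟨K, hK⟩ := IsSemiprimaryRing.isNilpotent (R := L)
  exact ⟨K, hK⟩

end loc


section fil

variable {F A E : Type} [Field F] [Ring A] [Algebra F A] [Group E]

/-- an ideal `N` of the subalgebra `L`, without scalars -/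
structure Fil (L : Subalgebra F A) (N : Submodule F A) : Prop where
  le : ∀ x ∈ N, x ∈ L
  l : ∀ x ∈ L, ∀ n ∈ N, x * n ∈ N
  r : ∀ x ∈ L, ∀ n ∈ N, n * x ∈ N
  one : ∀ a : F, a • (1 : A) ∈ N → a = 0

/-- units which are multiplicative up to scalars modulo `N ^ k` -/
structure Ap (N : Submodule F A) (y y' : E → A) (c : E → E → F) (k : ℕ) : Prop where
  li : ∀ e, y' e * y e = 1
  ri : ∀ e, y e * y' e = 1
  cj : ∀ e, ∀ n ∈ N, y e * n * y' e ∈ N
  ne : ∀ e f, c e f ≠ 0
  mul : ∀ e f, ∃ j ∈ N ^ k, y e * y f = c e f • ((1 + j) * y (e * f))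

variable {L : Subalgebra F A} {N : Submodule F A}

theorem pow_mulR (h : Fil L N) (k : ℕ) (hk : 1 ≤ k) (x : A) (hx : x ∈ L) (n : A)
    (hn : n ∈ N ^ k) : n * x ∈ N ^ k := by
  obtain ⟨l, rfl⟩ := Nat.exists_eq_add_of_le' hk
  rw [pow_succ] at hn ⊢
  refine Submodule.mul_induction_on hn (fun m hm n hn => ?_) (fun a b ha hb => ?_)
  · rw [mul_assoc]
    exact Submodule.mul_mem_mul hm (h.r x hx n hn)
  · rw [add_mul]
    exact add_mem ha hb

theorem pow_succ_le (h : Fil L N) (k : ℕ) (hk : 1 ≤ k) : N ^ (k + 1) ≤ N ^ k := by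
  intro n hn
  rw [pow_succ] at hn
  refine Submodule.mul_induction_on hn (fun m hm n hn => ?_) (fun a b ha hb => ?_)
  · exact pow_mulR h k hk n (h.le n hn) m hm
  · exact add_mem ha hb

theorem pow_anti (h : Fil L N) (k l : ℕ) (hk : 1 ≤ k) (hl : k ≤ l) : N ^ l ≤ N ^ k := by
  induction l, hl using Nat.le_induction with
  | base => exact le_rfl
  | succ l hl ih => exact (pow_succ_le h l (hk.trans hl)).trans ih

theorem mul_pow_mem (h : Fil L N) (k : ℕ) (hk : 1 ≤ k) (a b : A) (ha : a ∈ N ^ k)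
    (hb : b ∈ N ^ k) : a * b ∈ N ^ (k + 1) := by
  have h1 := Submodule.mul_mem_mul ha hb
  rw [← pow_add] at h1
  exact pow_anti h (k + 1) (k + k) (by omega) (by omega) h1

theorem cj_pow (y y' : A) (hr : y * y' = 1) (hl : y' * y = 1)
    (hc : ∀ n ∈ N, y * n * y' ∈ N) (k : ℕ) : ∀ n ∈ N ^ k, y * n * y' ∈ N ^ k := by
  induction k with
  | zero =>
    intro n hn
    rw [pow_zero, Submodule.mem_one] at hn ⊢
    obtain ⟨a, rfl⟩ := hn
    refine ⟨a, ?_⟩
    rw [← Algebra.commutes, mul_assoc, hr, mul_one]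
  | succ k ih =>
    intro n hn
    rw [pow_succ] at hn ⊢
    refine Submodule.mul_induction_on hn (fun m hm n hn => ?_) (fun a b ha hb => ?_)
    · have e : y * (m * n) * y' = (y * m * y') * (y * n * y') := by
        calc y * (m * n) * y' = y * m * 1 * n * y' := by rw [mul_one, ← mul_assoc y m n]
          _ = y * m * (y' * y) * n * y' := by rw [hl]
          _ = _ := by noncomm_ring
      rw [e]
      exact Submodule.mul_mem_mul (ih m hm) (hc n hn)
    · rw [mul_add, add_mul]
      exact add_mem ha hb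

theorem inv_mem (h : Fil L N) (K : ℕ) (hK : N ^ K = ⊥) (n : A) (hn : n ∈ N) :
    ∃ v ∈ L, (1 - n) * v = 1 ∧ v * (1 - n) = 1 := by
  have h1 : n ^ K = 0 := by
    have := Submodule.pow_mem_pow N hn K
    rwa [hK, Submodule.mem_bot] at this
  refine ⟨∑ i ∈ Finset.range K, n ^ i, ?_, ?_, ?_⟩
  · exact Subalgebra.sum_mem L fun i _ => Subalgebra.pow_mem L (h.le n hn) i
  · rw [mul_neg_geom_sum, h1, sub_zero]
  · rw [geom_sum_mul_neg, h1, sub_zero]

theorem step [Fintype E] (h : Fil L N) (K : ℕ) (hK : N ^ K = ⊥) (hE : (Fintype.card E : F) ≠ 0)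
    (y y' : E → A) (c : E → E → F) (k : ℕ) (hk : 1 ≤ k) (ap : Ap N y y' c k) :
    ∃ t t' : E → A, (∀ e, t e ∈ L) ∧ (∀ e, t' e ∈ L) ∧ (∀ e, t e * t' e = 1) ∧
      (∀ e, t' e * t e = 1) ∧ Ap N (fun e => t e * y e) (fun e => y' e * t' e) c (k + 1) := by
  classical
  choose j hj hmul using ap.mul
  have hN : ∀ n ∈ N ^ k, n ∈ N := fun n hn => by
    have := pow_anti h 1 k le_rfl hk hn
    rwa [pow_one] at this
  have hs : ∀ e, ∀ n ∈ N ^ k, y e * n * y' e ∈ N ^ k := fun e =>
    cj_pow (y e) (y' e) (ap.ri e) (ap.li e) (ap.cj e) k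
  have hys : ∀ e x, y e * x = (y e * x * y' e) * y e := by
    intro e x
    rw [mul_assoc, ap.li, mul_one]
  -- the cocycle identity
  have coc : ∀ e f g, j e f + j (e * f) g - y e * j f g * y' e - j e (f * g) ∈ N ^ (k + 1) := by
    intro e f g
    set s := y e * j f g * y' e with hs'
    have hsN : s ∈ N ^ k := hs e _ (hj f g)
    have h1 : (c e f * c (e * f) g) • ((1 + j e f) * (1 + j (e * f) g) * y (e * f * g)) =
        (c f g * c e (f * g)) • ((1 + s) * (1 + j e (f * g)) * y (e * f * g)) := by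
      have a1 : y e * y f * y g =
          (c e f * c (e * f) g) • ((1 + j e f) * (1 + j (e * f) g) * y (e * f * g)) := by
        rw [hmul e f, smul_mul_assoc, mul_assoc (1 + j e f), hmul (e * f) g, mul_smul_comm,
          smul_smul, ← mul_assoc (1 + j e f)]
      have a2 : y e * (y f * y g) =
          (c f g * c e (f * g)) • ((1 + s) * (1 + j e (f * g)) * y (e * f * g)) := by
        rw [hmul f g, mul_smul_comm, ← mul_assoc, hys e (1 + j f g), mul_assoc _ (y e),
          hmul e (f * g), mul_smul_comm, smul_smul, ← mul_assoc, mul_assoc e f g]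
        congr 3
        rw [mul_add, add_mul, mul_one, ap.ri]
      rw [← a1, ← a2, mul_assoc]
    have h2 : (c e f * c (e * f) g) • ((1 + j e f) * (1 + j (e * f) g)) =
        (c f g * c e (f * g)) • ((1 + s) * (1 + j e (f * g))) := by
      have := congrArg (fun z => z * y' (e * f * g)) h1
      simp only [smul_mul_assoc] at this
      rwa [mul_assoc _ (y (e * f * g)), mul_assoc _ (y (e * f * g)), ap.ri, mul_one, mul_one]
        at this
    have m1 : j e f * j (e * f) g ∈ N ^ (k + 1) := mul_pow_mem h k hk _ _ (hj _ _) (hj _ _)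
    have m2 : s * j e (f * g) ∈ N ^ (k + 1) := mul_pow_mem h k hk _ _ hsN (hj _ _)
    have hN' : ∀ n ∈ N ^ (k + 1), n ∈ N := fun n hn => hN n (pow_succ_le h k hk hn)
    have h3 : c e f * c (e * f) g = c f g * c e (f * g) := by
      rw [← sub_eq_zero]
      apply h.one
      have h4 : (c e f * c (e * f) g - c f g * c e (f * g)) • (1 : A) =
          (c f g * c e (f * g)) • (s + j e (f * g) + s * j e (f * g)) -
          (c e f * c (e * f) g) • (j e f + j (e * f) g + j e f * j (e * f) g) := by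
        have e1 : (1 + j e f) * (1 + j (e * f) g) =
          1 + (j e f + j (e * f) g + j e f * j (e * f) g) := by noncomm_ring
        have e2 : (1 + s) * (1 + j e (f * g)) = 1 + (s + j e (f * g) + s * j e (f * g)) := by
          noncomm_ring
        rw [e1, e2, smul_add (c e f * c (e * f) g) 1, smul_add (c f g * c e (f * g)) 1] at h2
        rw [sub_smul]
        rw [sub_eq_sub_iff_add_eq_add]
        rw [h2]
        abel
      rw [h4]
      refine sub_mem (N.smul_mem _ (add_mem (add_mem (hN _ hsN) (hN _ (hj _ _))) (hN' _ m2)))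
        (N.smul_mem _ (add_mem (add_mem (hN _ (hj _ _)) (hN _ (hj _ _))) (hN' _ m1)))
    have h5 : (1 + j e f) * (1 + j (e * f) g) = (1 + s) * (1 + j e (f * g)) := by
      rw [h3] at h2
      exact smul_right_injective A (mul_ne_zero (ap.ne _ _) (ap.ne _ _)) h2
    have h6 : j e f + j (e * f) g - s - j e (f * g) =
        s * j e (f * g) - j e f * j (e * f) g := by
      have e1 : (1 + j e f) * (1 + j (e * f) g) - (1 + s) * (1 + j e (f * g)) =
        (j e f + j (e * f) g - s - j e (f * g)) - (s * j e (f * g) - j e f * j (e * f) g) := by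
        noncomm_ring
      rw [h5, sub_self] at e1
      exact (sub_eq_zero.1 e1.symm)
    rw [h6]
    exact sub_mem m2 m1
  -- the cochain
  obtain ⟨a, ha⟩ : ∃ a : E → A, ∀ e, a e = (Fintype.card E : F)⁻¹ • ∑ g, j e g :=
    ⟨_, fun _ => rfl⟩
  have haN : ∀ e, a e ∈ N ^ k := fun e => by
    rw [ha]
    exact Submodule.smul_mem _ _ (Submodule.sum_mem _ fun g _ => hj e g)
  have hcob : ∀ e f, j e f + a (e * f) - y e * a f * y' e - a e ∈ N ^ (k + 1) := by
    intro e f
    have h1 : ∑ g, (j e f + j (e * f) g - y e * j f g * y' e - j e (f * g)) ∈ N ^ (k + 1) :=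
      Submodule.sum_mem _ fun g _ => coc e f g
    have h2 : j e f + a (e * f) - y e * a f * y' e - a e = (Fintype.card E : F)⁻¹ •
        ∑ g, (j e f + j (e * f) g - y e * j f g * y' e - j e (f * g)) := by
      have e3 : ∑ x, j e (f * x) = ∑ g, j e g :=
        Equiv.sum_comp (Equiv.mulLeft f) (fun g => j e g)
      rw [Finset.sum_sub_distrib, Finset.sum_sub_distrib, Finset.sum_add_distrib,
        Finset.sum_const, Finset.card_univ, ← Finset.sum_mul, ← Finset.mul_sum, e3, smul_sub, smul_sub, smul_add, ha, ha, ha,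
        ← Nat.cast_smul_eq_nsmul F, smul_smul, inv_mul_cancel₀ hE, one_smul, mul_smul_comm,
        smul_mul_assoc]
    rw [h2]
    exact Submodule.smul_mem _ _ h1
  choose v hv hv1 hv2 using fun e => inv_mem h K hK (a e) (hN _ (haN e))
  have ht : ∀ e, 1 - a e ∈ L := fun e => sub_mem (one_mem L) (h.le _ (hN _ (haN e)))
  refine ⟨fun e => 1 - a e, v, ht, hv, hv1, hv2, ?_, ?_, ?_, ap.ne, ?_⟩
  · intro e
    calc y' e * v e * ((1 - a e) * y e) = y' e * (v e * (1 - a e)) * y e := by noncomm_ring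
      _ = 1 := by rw [hv2, mul_one, ap.li]
  · intro e
    calc (1 - a e) * y e * (y' e * v e) = (1 - a e) * (y e * y' e) * v e := by noncomm_ring
      _ = 1 := by rw [ap.ri, mul_one, hv1]
  · intro e n hn
    have h1 := h.r _ (hv e) _ (h.l _ (ht e) _ (ap.cj e n hn))
    have e1 : (1 - a e) * y e * n * (y' e * v e) = (1 - a e) * (y e * n * y' e) * v e := by
      noncomm_ring
    show (1 - a e) * y e * n * (y' e * v e) ∈ N
    rw [e1]
    exact h1
  · intro e f
    set s := y e * a f * y' e with hs'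
    have hsN : s ∈ N ^ k := hs e _ (haN f)
    refine ⟨((1 - a e) * (1 - s) * (1 + j e f) - (1 - a (e * f))) * v (e * f), ?_, ?_⟩
    · apply pow_mulR h (k + 1) (by omega) _ (hv _)
      have e1 : (1 - a e) * (1 - s) * (1 + j e f) - (1 - a (e * f)) =
          (j e f + a (e * f) - s - a e) + (a e * s - a e * j e f - s * j e f +
            a e * (s * j e f)) := by noncomm_ring
      rw [e1]
      have m1 := mul_pow_mem h k hk _ _ (haN e) hsN
      have m2 := mul_pow_mem h k hk _ _ (haN e) (hj e f)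
      have m3 := mul_pow_mem h k hk _ _ hsN (hj e f)
      have m4 := mul_pow_mem h k hk _ _ (haN e) (pow_succ_le h k hk m3)
      exact add_mem (hcob e f) (add_mem (sub_mem (sub_mem m1 m2) m3) m4)
    · show (1 - a e) * y e * ((1 - a f) * y f) = _
      have e1 : (1 - a e) * y e * ((1 - a f) * y f) =
          c e f • ((1 - a e) * (1 - s) * (1 + j e f) * y (e * f)) := by
        calc (1 - a e) * y e * ((1 - a f) * y f)
            = (1 - a e) * (y e * (1 - a f)) * y f := by noncomm_ring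
          _ = (1 - a e) * ((1 - s) * y e) * y f := by
            rw [hys e (1 - a f)]
            congr 3
            rw [mul_sub, sub_mul, mul_one, ap.ri]
          _ = (1 - a e) * (1 - s) * (y e * y f) := by noncomm_ring
          _ = _ := by rw [hmul, mul_smul_comm, ← mul_assoc]
      rw [e1]
      congr 1
      calc (1 - a e) * (1 - s) * (1 + j e f) * y (e * f)
          = ((1 - a (e * f)) + ((1 - a e) * (1 - s) * (1 + j e f) - (1 - a (e * f))) *
              1) * y (e * f) := by noncomm_ring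
        _ = ((1 - a (e * f)) + ((1 - a e) * (1 - s) * (1 + j e f) - (1 - a (e * f))) *
              (v (e * f) * (1 - a (e * f)))) * y (e * f) := by rw [hv2]
        _ = _ := by noncomm_ring

theorem iter [Fintype E] (h : Fil L N) (K : ℕ) (hK : N ^ K = ⊥)
    (hE : (Fintype.card E : F) ≠ 0) (y y' : E → A) (c : E → E → F) (ap : Ap N y y' c 1) (k : ℕ)
    (hk : 1 ≤ k) :
    ∃ t t' : E → A, (∀ e, t e ∈ L) ∧ (∀ e, t' e ∈ L) ∧ (∀ e, t e * t' e = 1) ∧
      (∀ e, t' e * t e = 1) ∧ Ap N (fun e => t e * y e) (fun e => y' e * t' e) c k := by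
  induction k, hk using Nat.le_induction with
  | base =>
    refine ⟨fun _ => 1, fun _ => 1, fun _ => one_mem L, fun _ => one_mem L, fun _ => one_mul 1,
      fun _ => one_mul 1, ?_⟩
    simpa only [one_mul, mul_one] using ap
  | succ k hk ih =>
    obtain ⟨t, t', ht, ht', h1, h2, ap1⟩ := ih
    obtain ⟨s, s', hs, hs', h3, h4, ap2⟩ := step h K hK hE _ _ c k hk ap1
    refine ⟨fun e => s e * t e, fun e => t' e * s' e, fun e => mul_mem (hs e) (ht e),
      fun e => mul_mem (ht' e) (hs' e), ?_, ?_, ?_⟩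
    · intro e
      calc s e * t e * (t' e * s' e) = s e * (t e * t' e) * s' e := by noncomm_ring
        _ = 1 := by rw [h1, mul_one, h3]
    · intro e
      calc t' e * s' e * (s e * t e) = t' e * (s' e * s e) * t e := by noncomm_ring
        _ = 1 := by rw [h4, mul_one, h2]
    · have e1 : (fun e => s e * t e * y e) = fun e => s e * (t e * y e) := by
        funext e
        rw [mul_assoc]
      have e2 : (fun e => y' e * (t' e * s' e)) = fun e => y' e * t' e * s' e := by
        funext e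
        rw [mul_assoc]
      rw [e1, e2]
      exact ap2

end fil

section main

variable {F V E A : Type} [Field F] [IsAlgClosed F] [CommGroup V] [Group E] [Ring A]
  [Algebra F A]

/-- the nonunits of the centraliser of `V` -/
noncomputable def NN (α : V →* A) : Submodule F A :=
  Submodule.map (Cz F α ⊤).val.toLinearMap ((Ring.jacobson (Cz F α ⊤)).restrictScalars F)

omit [IsAlgClosed F] in
theorem mem_NN (α : V →* A) (x : A) :
    x ∈ NN (F := F) α ↔ ∃ z : Cz F α ⊤, z ∈ Ring.jacobson (Cz F α ⊤) ∧ (z : A) = x := by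
  unfold NN
  rw [Submodule.mem_map]
  rfl

omit [IsAlgClosed F] in
theorem mem_Cz (α : V →* A) (x : A) : x ∈ Cz F α ⊤ ↔ ∀ u, α u * x = x * α u := by
  unfold Cz
  rw [Subalgebra.mem_centralizer_iff]
  constructor
  · intro h u
    exact h _ ⟨u, trivial, rfl⟩
  · rintro h _ ⟨u, -, rfl⟩
    exact h u

omit [IsAlgClosed F] in
theorem fil [FiniteDimensional F A] (α : V →* A) (hl : IsLocalRing (Cz F α ⊤)) :
    Fil (Cz F α ⊤) (NN (F := F) α) where
  le := by
    intro x hx
    obtain ⟨z, -, rfl⟩ := (mem_NN α x).1 hx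
    exact z.2
  l := by
    intro x hx n hn
    obtain ⟨z, hz, rfl⟩ := (mem_NN α n).1 hn
    exact (mem_NN α _).2 ⟨⟨x, hx⟩ * z, Ideal.mul_mem_left _ _ hz, rfl⟩
  r := by
    intro x hx n hn
    obtain ⟨z, hz, rfl⟩ := (mem_NN α n).1 hn
    exact (mem_NN α _).2 ⟨z * ⟨x, hx⟩, Ideal.mul_mem_right _ _ hz, rfl⟩
  one := by
    intro a ha
    by_contra hne
    obtain ⟨z, hz, h⟩ := (mem_NN α _).1 ha
    rw [mem_jac (F := F)] at hz
    apply hz
    have e : z = algebraMap F (Cz F α ⊤) a := by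
      apply Subtype.ext
      rw [h, Algebra.smul_def, mul_one]
      rfl
    rw [e]
    exact (isUnit_iff_ne_zero.2 hne).map _

omit [IsAlgClosed F] in
theorem nn_nil [FiniteDimensional F A] (α : V →* A) :
    ∃ K : ℕ, (NN (F := F) α) ^ K = ⊥ := by
  obtain ⟨K, hK⟩ := jac_nil (F := F) (L := Cz F α ⊤)
  refine ⟨K, ?_⟩
  have h1 : ∀ k : ℕ, ∀ x ∈ (NN (F := F) α) ^ k,
      ∃ z : Cz F α ⊤, z ∈ (Ring.jacobson (Cz F α ⊤)) ^ k ∧ (z : A) = x := by
    intro k
    induction k with
    | zero =>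
      intro x hx
      rw [pow_zero, Submodule.mem_one] at hx
      obtain ⟨a, rfl⟩ := hx
      refine ⟨algebraMap F _ a, ?_, rfl⟩
      rw [Submodule.pow_zero, Ideal.one_eq_top]
      exact Submodule.mem_top
    | succ k ih =>
      intro x hx
      rw [pow_succ] at hx
      refine Submodule.mul_induction_on hx (fun m hm n hn => ?_) (fun a b ha hb => ?_)
      · obtain ⟨z, hz, rfl⟩ := ih m hm
        obtain ⟨w, hw, rfl⟩ := (mem_NN α n).1 hn
        refine ⟨z * w, ?_, rfl⟩
        rw [Submodule.pow_succ]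
        exact Ideal.mul_mem_mul hz hw
      · obtain ⟨z, hz, rfl⟩ := ha
        obtain ⟨w, hw, rfl⟩ := hb
        exact ⟨z + w, add_mem hz hw, rfl⟩
  rw [eq_bot_iff]
  intro x hx
  obtain ⟨z, hz, rfl⟩ := h1 K x hx
  rw [hK] at hz
  have hz' : z = 0 := hz
  rw [hz']
  exact Submodule.zero_mem _

/-- module UNT -/
theorem unt : UntStmt := by
  intro F V E A _ _ _ _ _ _ _ _ ℓ _ φ W α hC hP
  classical
  have hfin := hP.fin
  have hloc := hP.loc
  have hF := fil (F := F) α hloc
  obtain ⟨K, hK⟩ := nn_nil (F := F) α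
  have hE : (Fintype.card E : F) ≠ 0 := by
    intro h
    rw [CharP.cast_eq_zero_iff F ℓ, ← Nat.card_eq_fintype_card] at h
    exact hC.cop h
  choose y y' hr hl htw using hP.uni
  have htw' : ∀ e u, y' e * α (φ e u) = α u * y' e := by
    intro e u
    calc y' e * α (φ e u) = y' e * α (φ e u) * (y e * y' e) := by rw [hr, mul_one]
      _ = y' e * (α (φ e u) * y e) * y' e := by noncomm_ring
      _ = y' e * (y e * α u) * y' e := by rw [htw]
      _ = (y' e * y e) * (α u * y' e) := by noncomm_ring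
      _ = α u * y' e := by rw [hl, one_mul]
  have htw'' : ∀ e u, y' e * α u = α (φ e⁻¹ u) * y' e := by
    intro e u
    rw [← htw', ← MulAut.mul_apply, ← map_mul, mul_inv_cancel, map_one, MulAut.one_apply]
  have cjL : ∀ e, ∀ x ∈ Cz F α ⊤, y e * x * y' e ∈ Cz F α ⊤ := by
    intro e x hx
    rw [mem_Cz] at hx ⊢
    intro u
    have e1 : α u * y e = y e * α (φ e⁻¹ u) := by
      rw [htw, ← MulAut.mul_apply, ← map_mul, mul_inv_cancel, map_one, MulAut.one_apply]
    calc α u * (y e * x * y' e) = (α u * y e) * x * y' e := by noncomm_ring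
      _ = y e * (α (φ e⁻¹ u) * x) * y' e := by rw [e1]; noncomm_ring
      _ = y e * x * (α (φ e⁻¹ u) * y' e) := by rw [hx]; noncomm_ring
      _ = y e * x * y' e * α u := by rw [← htw'']; noncomm_ring
  have cjL' : ∀ e, ∀ x ∈ Cz F α ⊤, y' e * x * y e ∈ Cz F α ⊤ := by
    intro e x hx
    rw [mem_Cz] at hx ⊢
    intro u
    calc α u * (y' e * x * y e) = (α u * y' e) * x * y e := by noncomm_ring
      _ = y' e * (α (φ e u) * x) * y e := by rw [← htw']; noncomm_ring
      _ = y' e * x * (α (φ e u) * y e) := by rw [hx]; noncomm_ring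
      _ = y' e * x * y e * α u := by rw [← htw]; noncomm_ring
  have cjN : ∀ e, ∀ n ∈ NN (F := F) α, y e * n * y' e ∈ NN (F := F) α := by
    intro e n hn
    obtain ⟨z, hz, rfl⟩ := (mem_NN α n).1 hn
    refine (mem_NN α _).2 ⟨⟨_, cjL e z z.2⟩, ?_, rfl⟩
    rw [mem_jac (F := F)] at hz ⊢
    intro hu
    apply hz
    have hart : IsArtinianRing (Cz F α ⊤) := IsArtinianRing.of_finite F _
    obtain ⟨w, hw⟩ := hu.exists_right_inv
    have hw' : y e * (z : A) * y' e * (w : A) = 1 := congrArg Subtype.val hw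
    refine IsUnit.of_mul_eq_one ⟨_, cjL' e w w.2⟩ (Subtype.ext ?_)
    show (z : A) * (y' e * (w : A) * y e) = 1
    calc (z : A) * (y' e * (w : A) * y e)
        = 1 * (z : A) * y' e * (w : A) * y e := by noncomm_ring
      _ = (y' e * y e) * (z : A) * y' e * (w : A) * y e := by rw [hl]
      _ = y' e * (y e * (z : A) * y' e * (w : A)) * y e := by noncomm_ring
      _ = 1 := by rw [hw', mul_one, hl]
  have h0 : ∀ e f, ∃ c : F, c ≠ 0 ∧ ∃ j ∈ NN (F := F) α,
      y e * y f = c • ((1 + j) * y (e * f)) := by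
    intro e f
    have hz : y e * y f * y' (e * f) ∈ Cz F α ⊤ := by
      rw [mem_Cz]
      intro u
      have e1 : y' (e * f) * α u = α (φ (e * f)⁻¹ u) * y' (e * f) := htw'' _ _
      have e2 : φ e (φ f (φ (e * f)⁻¹ u)) = u := by
        rw [← MulAut.mul_apply, ← MulAut.mul_apply, ← map_mul, ← map_mul, mul_inv_cancel,
          map_one, MulAut.one_apply]
      calc α u * (y e * y f * y' (e * f))
          = (α (φ e (φ f (φ (e * f)⁻¹ u))) * y e) * y f * y' (e * f) := by
            rw [e2]; noncomm_ring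
        _ = y e * (α (φ f (φ (e * f)⁻¹ u)) * y f) * y' (e * f) := by rw [← htw]; noncomm_ring
        _ = y e * y f * (α (φ (e * f)⁻¹ u) * y' (e * f)) := by rw [← htw]; noncomm_ring
        _ = y e * y f * y' (e * f) * α u := by rw [← e1]; noncomm_ring
    have hz' : y (e * f) * y' f * y' e ∈ Cz F α ⊤ := by
      rw [mem_Cz]
      intro u
      have e2 : φ (e * f) (φ f⁻¹ (φ e⁻¹ u)) = u := by
        rw [← MulAut.mul_apply, ← MulAut.mul_apply, ← map_mul, ← map_mul]
        have : e * f * f⁻¹ * e⁻¹ = 1 := by group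
        rw [this, map_one, MulAut.one_apply]
      calc α u * (y (e * f) * y' f * y' e)
          = (α (φ (e * f) (φ f⁻¹ (φ e⁻¹ u))) * y (e * f)) * y' f * y' e := by
            rw [e2]; noncomm_ring
        _ = y (e * f) * (α (φ f⁻¹ (φ e⁻¹ u)) * y' f) * y' e := by rw [← htw]; noncomm_ring
        _ = y (e * f) * y' f * (α (φ e⁻¹ u) * y' e) := by rw [← htw'']; noncomm_ring
        _ = y (e * f) * y' f * y' e * α u := by rw [← htw'']; noncomm_ring
    obtain ⟨c, hc⟩ := exists_scalar (F := F) (⟨_, hz⟩ : Cz F α ⊤)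
    have hun : IsUnit (⟨_, hz⟩ : Cz F α ⊤) := by
      have hart : IsArtinianRing (Cz F α ⊤) := IsArtinianRing.of_finite F _
      refine IsUnit.of_mul_eq_one ⟨_, hz'⟩ (Subtype.ext ?_)
      show y e * y f * y' (e * f) * (y (e * f) * y' f * y' e) = 1
      calc y e * y f * y' (e * f) * (y (e * f) * y' f * y' e)
          = y e * y f * (y' (e * f) * y (e * f)) * y' f * y' e := by noncomm_ring
        _ = y e * (y f * y' f) * y' e := by rw [hl]; noncomm_ring
        _ = 1 := by rw [hr, mul_one, hr]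
    have hc0 : c ≠ 0 := by
      rintro rfl
      rw [map_zero, sub_zero, mem_jac (F := F)] at hc
      exact hc hun
    refine ⟨c, hc0, c⁻¹ • (y e * y f * y' (e * f) - c • (1 : A)), ?_, ?_⟩
    · apply Submodule.smul_mem
      refine (mem_NN α _).2 ⟨_, hc, ?_⟩
      show y e * y f * y' (e * f) - algebraMap F A c = _
      rw [Algebra.smul_def, mul_one]
    · rw [smul_sub, smul_smul, inv_mul_cancel₀ hc0, one_smul, add_sub_cancel, smul_mul_assoc,
        smul_smul, mul_inv_cancel₀ hc0, one_smul, mul_assoc (y e * y f), hl, mul_one]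
  choose c hc hj using h0
  have ap : Ap (NN (F := F) α) y y' c 1 := by
    refine ⟨hl, hr, cjN, hc, ?_⟩
    intro e f
    rw [pow_one]
    exact hj e f
  obtain ⟨t, t', ht, ht', h1, h2, ap'⟩ := iter hF K hK hE y y' c ap (K + 1) (by omega)
  have hK1 : (NN (F := F) α) ^ (K + 1) = ⊥ := by
    rw [pow_succ, hK, Submodule.bot_mul]
  have hm : ∀ e f, (t e * y e) * (t f * y f) = c e f • (t (e * f) * y (e * f)) := by
    intro e f
    obtain ⟨j, hj, h⟩ := ap'.mul e f
    rw [hK1, Submodule.mem_bot] at hj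
    rw [hj, add_zero, one_mul] at h
    exact h
  have hone : t 1 * y 1 = c 1 1 • 1 := by
    have h3 := hm 1 1
    rw [mul_one] at h3
    have h4 := congrArg (fun z => z * (y' 1 * t' 1)) h3
    simp only [smul_mul_assoc] at h4
    have h5 : t 1 * y 1 * (y' 1 * t' 1) = 1 := ap'.ri 1
    rw [mul_assoc (t 1 * y 1), h5, mul_one] at h4
    exact h4
  refine ⟨fun e => (c 1 1)⁻¹ • (t e * y e), fun e => (c 1 1) • (y' e * t' e),
    fun e f => (c 1 1)⁻¹ * c e f, ?_, ?_, ?_, ?_, ?_⟩
  · show (c 1 1)⁻¹ • (t 1 * y 1) = 1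
    rw [hone, smul_smul, inv_mul_cancel₀ (hc 1 1), one_smul]
  · intro e
    have h5 : y' e * t' e * (t e * y e) = 1 := ap'.li e
    show (c 1 1) • (y' e * t' e) * (c 1 1)⁻¹ • (t e * y e) = 1
    rw [smul_mul_smul_comm, h5, mul_inv_cancel₀ (hc 1 1), one_smul]
  · intro e
    have h5 : t e * y e * (y' e * t' e) = 1 := ap'.ri e
    show (c 1 1)⁻¹ • (t e * y e) * (c 1 1) • (y' e * t' e) = 1
    rw [smul_mul_smul_comm, h5, inv_mul_cancel₀ (hc 1 1), one_smul]
  · intro e u
    show (c 1 1)⁻¹ • (t e * y e) * α u = α (φ e u) * ((c 1 1)⁻¹ • (t e * y e))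
    rw [smul_mul_assoc, mul_smul_comm]
    congr 1
    rw [mul_assoc, htw, ← mul_assoc, ← mul_assoc, (mem_Cz α _).1 (ht e)]
  · intro e f
    show (c 1 1)⁻¹ • (t e * y e) * (c 1 1)⁻¹ • (t f * y f) =
      ((c 1 1)⁻¹ * c e f) • ((c 1 1)⁻¹ • (t (e * f) * y (e * f)))
    rw [smul_mul_smul_comm, hm, smul_smul, smul_smul]
    congr 1
    ring

end main

end Pool.Agent.PFD.D6.H84
end -- Pool.Agent.Helper84_PFD.UNT
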