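import Pool.Agent.Helper12_AWB.B012
import Pool.Agent.Helper12_AWB.B013

/-!
# Merged copies (generated) of the modules

* `Pool.Agent.PFD.DefsD4`
* `Pool.Agent.PFD.StmtsD2c`
* `Pool.Agent.PFD.StmtsD4`
* `Pool.Agent.PFE.DefsE1`
* `Pool.Agent.PFE.StmtsE1`
* `Pool.Agent.Helper10_PFE.RFC`
* `Pool.Agent.Helper29_PFD.SPX`
* `Pool.Agent.Helper52_PFD.XCL`
* `Pool.Agent.Helper81_PFE.ZCS`
-/

set_option autoImplicit false

section -- Pool.Agent.PFD.DefsD4

/-!
Squad PFD, parts D2b (second half) and D4 (helper36).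

`WFr`: the `W`-relative form of the complement of `Γ` in `A` (as in helper79's `TX`).
`LA`: a lift `A1` over `R` of the extension `j0 : Γ0 → A`.
`LR`: the same with the orthogonal projection, the form and a relative Frobenius system.
`KL`: the data over an algebraically closed field of characteristic `0`.
-/

open scoped BigOperators

noncomputable section

namespace Pool.Agent.PFD.D2b

open MulOpposite
open Pool.Agent.PFC.B1 (BiM FS Split)
open Pool.Agent.PFD.D2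

/-- the `W`-relative form of the projection `x ↦ x - j (pr x)` -/
structure WFr {R Γ W I A : Type} [CommRing R] [Ring Γ] [Algebra R Γ] [CommGroup W] [Fintype W]
    [Fintype I] [Ring A] [Algebra R A] (D : WFS R Γ W I) (j : Γ →ₐ[R] A) (pr : A →ₗ[R] Γ)
    (Ω : Type) [Fintype Ω] [MulAction W Ω] where
  m : Ω → A
  τ : Ω → (A →ₗ[R] R)
  m1 : ∀ w ω, m (w • ω) = j (D.om w) * m ω * j (D.om w⁻¹)
  t1 : ∀ w ω a, τ (w • ω) (j (D.om w) * a * j (D.om w⁻¹)) = τ ω a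
  id : ∀ a, ∑ i, ∑ k, ∑ w, ∑ ω, τ ω (j (D.cf' i) * a * j (D.cf k * D.om w)) •
    (j (D.cf i) * m ω * j (D.om w⁻¹ * D.cf' k)) = a - j (pr a)

/-- a lift `A1` of the extension `j0 : Γ0 → A` -/
structure LA {R F Γ Γ0 A W I : Type} (A1 : Type) [CommRing R] [Field F] {c : Cdv R F} [Ring Γ]
    [Algebra R Γ] [Ring Γ0] [Algebra F Γ0] [Ring A] [Algebra F A] [CommGroup W] [Fintype W]
    [Fintype I] [Ring A1] [Algebra R A1] (D : WFS R Γ W I) (f : FibG Γ Γ0 c)
    (j0 : Γ0 →ₐ[F] A) (pr0 : A →ₗ[F] Γ0) where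
  fb : FibG A1 A c
  j : Γ →ₐ[R] A1
  pr : A1 →ₗ[R] Γ
  pr_j : ∀ γ, pr (j γ) = γ
  pr_l : ∀ γ x, pr (j γ * x) = γ * pr x
  pr_r : ∀ x γ, pr (x * j γ) = pr x * γ
  cj : ∀ γ, fb.q (j γ) = j0 (f.q γ)
  cp : ∀ x, pr0 (fb.q x) = f.q (pr x)
  /-- the Higman operator -/
  a : A1 →ₗ[R] A1
  a_id : ∀ x, ∑ s, ∑ t, j (D.fs.b s) * a (j (D.fs.b' s) * x * j (D.fs.b t)) * j (D.fs.b' t) =
    (Fintype.card W : R) • (x - j (pr x))
  /-- the centraliser of `Γ0` lifts -/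
  cl : ∀ x0 : A, (∀ γ, j0 γ * x0 = x0 * j0 γ) →
    ∃ x : A1, (∀ γ, j γ * x = x * j γ) ∧ fb.q x = x0

/-- a lift with the orthogonal projection -/
structure LR {R F Γ Γ0 A W I : Type} (A1 : Type) [CommRing R] [Field F] {c : Cdv R F} [Ring Γ]
    [Algebra R Γ] [Ring Γ0] [Algebra F Γ0] [Ring A] [Algebra F A] [CommGroup W] [Fintype W]
    [Fintype I] [Ring A1] [Algebra R A1] (D : WFS R Γ W I) (f : FibG Γ Γ0 c)
    (j0 : Γ0 →ₐ[F] A) (pr0 : A →ₗ[F] Γ0) extends LA A1 D f j0 pr0 where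
  N : Type
  fN : Fintype N
  rf : RF R Γ A1 N j pr
  tA : A1 →ₗ[R] R
  ts : ∀ a b, tA (a * b) = tA (b * a)
  u : Γ
  u' : Γ
  uc : ∀ γ, u * γ = γ * u
  uu : u * u' = 1
  ort : ∀ x, tA x = D.lam (u * pr x)
  un1 : IsUnit (rf.rt 1)
  unu : IsUnit (rf.rt (j u'))

end Pool.Agent.PFD.D2b

namespace Pool.Agent.PFD.D4

open Pool.Agent.PFC.B1 (FS Split)

/-- the data over a field: symmetric algebras `B → A`, a derivation `v` of `B` with
`t (v b) = wt * t b` for the form `t b = c.lam (u' * b)` -/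
structure KL (K B A I J N : Type) [Field K] [Ring B] [Algebra K B] [Ring A] [Algebra K A]
    [Fintype I] [Fintype J] [Fintype N] where
  c : FS K B I
  cs : ∀ x y, c.lam (x * y) = c.lam (y * x)
  sp : Split c A
  d : FS K A J
  ds : ∀ x y, d.lam (x * y) = d.lam (y * x)
  ort : ∀ x, d.lam x = c.lam (sp.pr x)
  s : RF K B A N sp.j sp.pr
  u : B
  u' : B
  uc : ∀ b, u * b = b * u
  uu : u * u' = 1
  v : B →ₗ[K] B
  vm : ∀ a b, v (a * b) = v a * b + a * v b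
  wt : ℕ
  wp : 0 < wt
  tv : ∀ b, c.lam (u' * v b) = (wt : K) * c.lam (u' * b)
  nil : ∀ b, IsNilpotent (v b)
  un1 : IsUnit (s.rt 1)
  unu : IsUnit (s.rt (sp.j u'))

section
variable {K B A I J N : Type} [Field K] [Ring B] [Algebra K B] [Ring A] [Algebra K A]
    [Fintype I] [Fintype J] [Fintype N]

/-- `∑ e_p a e_p'` -/
def KL.TA (D : KL K B A I J N) (a : A) : A := ∑ p, D.d.b p * a * D.d.b' p

/-- `∑ j(b_i) a j(b_i')` -/
def KL.TB (D : KL K B A I J N) (a : A) : A := ∑ i, D.sp.j (D.c.b i) * a * D.sp.j (D.c.b' i)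

end

end Pool.Agent.PFD.D4
end
end -- Pool.Agent.PFD.DefsD4

section -- Pool.Agent.PFD.StmtsD2c

/-!
Squad PFD, part D2b, block 2 (helper36): from helper79's `TX` and helper18's `BO` to the lift `A1`.
Complete proofs in the docstrings.  Notation as in StmtsD2b: `c_i = cf i`, `c_i' = cf' i`,
`b_(i,w) = c_i om w`, `b'_(i,w) = om w⁻¹ c_i'`.
-/

open scoped BigOperators

noncomputable section

namespace Pool.Agent.PFD.D2b

open MulOpposite
open Pool.Agent.PFC.B1 (BiM FS Sep)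
open Pool.Agent.PFD.D2

/-- LCU: a symmetric form is `t x = lam (z x)` with `z` central; if it comes from another `WFS`
then `z` is a unit.

Proof.  `z = ∑ t (b_s) b'_s`: `lam (z x) = t (∑ lam (b'_s x) b_s) = t x` (`D.fs.h1`).
`lam ((z γ - γ z) x) = t (γ x) - t (x γ) = 0` for all `x`, and `y = ∑ lam (y b_s) b'_s` (`h2`), so `z` is
central.  If `lam x = t (z' x)` in the same way then `lam x = lam (z z' x)` for all `x`, so
`z z' = 1`. -/
def LcuStmt : Prop :=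
  ∀ (R Γ W I : Type) [CommRing R] [Ring Γ] [Algebra R Γ] [CommGroup W] [Fintype W]
    [Fintype I] (D : WFS R Γ W I),
    (∀ t : Γ →ₗ[R] R, (∀ x y, t (x * y) = t (y * x)) →
      ∃ z : Γ, (∀ γ, z * γ = γ * z) ∧ ∀ x, t x = D.lam (z * x)) ∧
    ∀ (I' : Type) [Fintype I'] (D' : WFS R Γ W I'),
      ∃ z z' : Γ, (∀ γ, z * γ = γ * z) ∧ z * z' = 1 ∧ z' * z = 1 ∧ (∀ γ, z' * γ = γ * z') ∧
        ∀ x, D.lam x = D'.lam (z * x)

/-- CZW: the relative Casimir elements of two `WFS` with the same `om`.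

Proof.  `c_i = ∑_(k,w) D'.lam (om w⁻¹ e_k' c_i) • e_k om w` (`D'.h1`, `e = D'.cf`).  So the left side is
`∑_(i,k,w) D'.lam (om w⁻¹ e_k' c_i) β (e_k om w) c_i' = ∑_k β e_k (∑_(i,w) D'.lam (om w⁻¹ e_k' c_i) •
om w c_i')`, and `D'.lam y = D.lam (z' y)`, `D.lam (z' om w⁻¹ e_k' c_i) = D.lam (z' e_k' (c_i om w⁻¹))`
(`sym`, `z'` central); by `D.h2` (index `w⁻¹`) the inner sum is `z' e_k'`. -/
def CzwStmt : Prop :=
  ∀ (R Γ W I I' X : Type) [CommRing R] [Ring Γ] [Algebra R Γ] [CommGroup W] [Fintype W]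
    [Fintype I] [Fintype I'] [AddCommGroup X] [Module R X] (D : WFS R Γ W I) (D' : WFS R Γ W I')
    (z z' : Γ), (∀ w, D.om w = D'.om w) → (∀ γ, z * γ = γ * z) → (∀ γ, z' * γ = γ * z') →
    z * z' = 1 → (∀ x, D.lam x = D'.lam (z * x)) →
    ∀ β : Γ →ₗ[R] Γ →ₗ[R] X, (∀ x y w, β (x * D.om w) y = β x (D.om w * y)) →
      ∑ i, β (D.cf i) (D.cf' i) = ∑ k, β (D'.cf k) (z' * D'.cf' k)

/-- CHF: change of the relative Frobenius family in a `WFr`.

Proof.  `m` the same, `τ ω a = τ' ω (j z * a * j z)` (`z` commutes with `om w`, so `t1` holds).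
`id`: (1) for fixed `k, w` the map
`β1 x y = ∑_w ∑_k ∑_ω τ ω (j y * a * j (c_k om w)) • (j x * m ω * j (om w⁻¹ c_k'))` is balanced over
`om W`: replace `ω` by `u • ω` (`m1`, `t1`) and `w` by `w u`.  CZW replaces `c_i, c_i'` by
`e_i, z' e_i'`.  (2) for the full sum `∑_(k,w) β2 (c_k om w) (om w⁻¹ c_k')` use CZW with
`β x y = ∑_w β2 (x om w) (om w⁻¹ y)` (balanced: replace `w` by `u⁻¹ w`); it becomes
`∑_(k,w) β2 (e_k om w) (om w⁻¹ z' e_k')`.  (3) The result is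
`∑ τ' ω (j z j z' j e_i' a j (e_k om w) j z) • (j e_i m ω j (om w⁻¹ z' e_k'))`; `z z' = 1`, and
`∑_(k,w) β2 (e_k om w z) (z' om w⁻¹ e_k') = ∑_(k,w) β2 (e_k om w) (z z' om w⁻¹ e_k')` is the Casimir
identity (`B1.CasStmt` for `D'.fs`, `z` central; use it for the bilinear map `(x, y) ↦ β2 x (z' y)`).
So the sum is the one of `D'`. -/
def ChfStmt : Prop :=
  ∀ (R Γ W I I' A Ω : Type) [CommRing R] [Ring Γ] [Algebra R Γ] [CommGroup W] [Fintype W]
    [Fintype I] [Fintype I'] [Ring A] [Algebra R A] [Fintype Ω] [MulAction W Ω]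
    (D : WFS R Γ W I) (D' : WFS R Γ W I')
    (z z' : Γ), (∀ w, D.om w = D'.om w) → (∀ γ, z * γ = γ * z) → (∀ γ, z' * γ = γ * z') →
    z * z' = 1 → (∀ x, D.lam x = D'.lam (z * x)) →
    ∀ (j : Γ →ₐ[R] A) (pr : A →ₗ[R] Γ), Nonempty (WFr D' j pr Ω) → Nonempty (WFr D j pr Ω)

/-- SPX: a `WFr` makes the complement of `Γ` in `A` a retract of `X`.

Proof.  `BN`: `A` as a bimodule, `lm γ a = j γ * a`, `rm (op γ) a = a * j γ`; `m` is `EqM` by `m1`.
`p` is the homomorphism of INM.  `(i a) (j', ω) = ∑_(k,w) τ ω (j (c_(j')') * a * j (c_k om w)) •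
(om w⁻¹ c_k')`.  Right linear: Casimir identity for `D.fs`.  Left linear: `(γ (i a)) (j', ω) =
∑_(l,u) lam (om u⁻¹ c_(j')' γ c_l) • om u (i a) (l, u⁻¹ ω)`, and by `t1`
`τ (u⁻¹ ω) (c_l' a b_t) = τ ω (om u c_l' a b_t om u⁻¹)`, `∑_t b_t om u⁻¹ ⊗ om u b'_t = ∑_t b_t ⊗ b'_t`,
and `∑_(l,u) lam (om u⁻¹ c_(j')' γ c_l) • om u c_l' = c_(j')' γ` (`sym`, `h2` with `u⁻¹`), so it is
`∑_t τ ω (c_(j')' γ a b_t) • b'_t = (i (j γ a)) (j', ω)`.
`p (i a) = ∑_(i,ω) c_i m ω (i a) (i, ω)` is the left side of `WFr.id`. -/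
def SpxStmt : Prop :=
  ∀ (R Γ W I A Ω : Type) [CommRing R] [Ring Γ] [Algebra R Γ] [CommGroup W] [Fintype W]
    [Fintype I] [Ring A] [Algebra R A] [Fintype Ω] [MulAction W Ω] (D : WFS R Γ W I)
    (BX : BiM R Γ (I × Ω → Γ)), IsX D Ω BX →
    ∀ (j : Γ →ₐ[R] A) (pr : A →ₗ[R] Γ), (∀ γ, pr (j γ) = γ) → (∀ γ x, pr (j γ * x) = γ * pr x) →
      (∀ x γ, pr (x * j γ) = pr x * γ) → WFr D j pr Ω →
      ∃ sp : SplitX A BX, sp.j = j ∧ sp.pr = pr

/-- RWF: the reduction of a `WFS` and of the bimodule `X`.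

Proof.  `lam0 (f.q x) = κ (lam x)` is well defined: `f.q x = 0` gives `x = π y`,
`κ (lam x) = κ π κ (lam y) = 0` (`κ π = 0` by `c.ker`); additive, and `F`-linear since `κ` is onto.
`om0 = f.q ∘ om`, `cf0 = f.q ∘ cf`, `cf0' = f.q ∘ cf'`, the same `ph`.  All identities are the images under
`f.q` and `κ` of the identities over `R` (for `h1`, `h2`: `f.q` is onto,
`f.q (r • x) = κ r • f.q x` by `sc`).  The map of bimodules is `x ↦ f.q ∘ x`; `ker`: choose `y` at every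
point. -/
def RwfStmt : Prop :=
  ∀ (R F Γ Γ0 W I : Type) [CommRing R] [Field F] (c : Cdv R F) [Ring Γ] [Algebra R Γ] [Ring Γ0]
    [Algebra F Γ0] (f : FibG Γ Γ0 c) [CommGroup W] [Fintype W] [Fintype I] (D : WFS R Γ W I),
    ∃ D0 : WFS F Γ0 W I, (∀ x, D0.lam (f.q x) = c.κ (D.lam x)) ∧
      (∀ w, D0.om w = f.q (D.om w)) ∧ (∀ i, D0.cf i = f.q (D.cf i)) ∧
      (∀ i, D0.cf' i = f.q (D.cf' i)) ∧
      ∀ (Ω : Type) [Fintype Ω] [MulAction W Ω] (BX : BiM R Γ (I × Ω → Γ))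
        (B0 : BiM F Γ0 (I × Ω → Γ0)), IsX D Ω BX → IsX D0 Ω B0 →
        Nonempty (FibM (I × Ω → Γ) (I × Ω → Γ0) f BX B0)

/-- XCL: central elements of `X` lift.

Proof.  Put `E γ x ω = ∑_(i,t) lam (γ c_i om t⁻¹) • om t x (i, t⁻¹ ω)`.
(1) `E 1 (γ x) = E γ x`: the coefficient of `om t x (i, t⁻¹ ω)` in `E 1 (lm γ x) ω` is
`∑_(j,w) lam (c_j om w⁻¹) lam (om (w t⁻¹) c_j' γ c_i)`, `lam (om (w t⁻¹) c_j' γ c_i) =
lam (om w c_j' (γ c_i om t⁻¹))` (`sym`), and `∑_(j,w) lam (om w c_j' y) • c_j om w⁻¹ = y` (`h1`).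
(2) `E c_k' x ω = x (k, ω)`: `lam (c_k' c_i om t⁻¹) = lam (om t⁻¹ c_k' (c_i om 1))` is `1` for `i = k`,
`t = 1`, else `0`.  (3) `E (om w) x ω = om w (E 1 x (w⁻¹ ω))`.  (4) `E 1 (x γ) = (E 1 x) γ`.
Let `x` be central modulo `p`, `e = E 1 x`.  By (3), (1), (4) `om w e(w⁻¹ ω)` is congruent to
`e(ω) om w`, i.e. `e (w • ω) - om w e(ω) om w⁻¹` is in `p Γ`.  EQF (with FPX, second part, restricted to
the diagonal: `w ↦ wrp om regB (w, w)`) gives `y` equivariant, `y - e` in `p`.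
`x' (i, ω) = y ω c_i'`.  Central: `(γ x') (j, ω) = ∑_(i,w) lam (om w⁻¹ c_j' γ c_i) • om w y(w⁻¹ ω) c_i' =
y ω ∑ lam (c_j' γ c_i om w⁻¹) • om w c_i' = y ω c_j' γ` (`h2`).  Congruent:
`x (i, ω) = E c_i' x ω = E 1 (c_i' x) ω`, congruent to `E 1 (x c_i') ω = e ω c_i'`. -/
def XclStmt : Prop :=
  ∀ (R Γ W I Ω : Type) [CommRing R] [Ring Γ] [Algebra R Γ] [CommGroup W] [Fintype W]
    [Fintype I] [Fintype Ω] [MulAction W Ω] (D : WFS R Γ W I)
    (BX : BiM R Γ (I × Ω → Γ)) (p : R), IsX D Ω BX →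
    ∀ x, (∀ γ, ∃ y, BX.lm γ x - BX.rm (op γ) x = p • y) →
      ∃ x', (∀ γ, BX.lm γ x' = BX.rm (op γ) x') ∧ ∃ y, x' - x = p • y

/-- LAX: the lift `A1`.

Proof.  `sp = df.sp`: `fb = df.fb`, `j = sp.j`, `pr = sp.pr`, `cj`, `cp` from `df`.
`a = sp.p ∘ aX ∘ sp.i` with `aX` from HGR:
`∑ j(b_s) p (aX (i (j(b'_s) x j(b_t)))) j(b'_t) = p (∑ b_s aX (b'_s (i x) b_t) b'_t) = p (|W| i x)
= |W| (x - j (pr x))`.
`cl`: let `x0` commute with `j0 Γ0`.  `pr0 x0` is central in `Γ0` (`pr_l`, `pr_r` of `sp0`), so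
`pr0 x0 = f.q ζ` with `ζ` central (hypothesis `ctr`).  Choose `a1` with `fb.q a1 = x0`; for `γ`
`fb.q (j γ a1 - a1 j γ) = 0` (`cj`), so `j γ a1 - a1 j γ = π a2`, and `sp.i a1` is central modulo `π`
in `X`.  XCL: `x'` central in `X`, `x' = sp.i a1 + π y`.  `x = j ζ + sp.p x'` commutes with `j Γ`, and
`fb.q x = j0 (pr0 x0) + fb.q (p (i a1)) = j0 (pr0 x0) + fb.q (a1 - j (pr a1)) = x0`. -/
def LaxStmt : Prop :=
  ∀ (R F Γ Γ0 A X0 W I Ω A1 : Type) [CommRing R] [Field F] (c : Cdv R F) [Ring Γ] [Algebra R Γ]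
    [Ring Γ0] [Algebra F Γ0] [Ring A] [Algebra F A] [AddCommGroup X0] [Module F X0]
    [CommGroup W] [Fintype W] [Fintype I] [Fintype Ω] [MulAction W Ω] [Ring A1] [Algebra R A1]
    (D : WFS R Γ W I) (f : FibG Γ Γ0 c) (BX : BiM R Γ (I × Ω → Γ)) (_ : IsX D Ω BX)
    (B0 : BiM F Γ0 X0) (sp0 : SplitX A B0) (_ : DfmX A A1 c f BX B0 sp0),
    (∀ a : Γ0, (∀ γ, a * γ = γ * a) → ∃ b : Γ, (∀ γ, b * γ = γ * b) ∧ f.q b = a) →
    Nonempty (LA A1 D f sp0.j sp0.pr)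

/-- WGD: the twisted group algebra as a `WFS`; `T` is a transversal of `W` in `V`.

Proof.  `lam a = (a.f 1) 1` (the coefficient of `1` in the component of `1`).  `sn_mul_sn`,
`c e e⁻¹ = c e⁻¹ e` (`CP.c_inv_symm`) give `sym`.  `cf (h, t) om w = n h vv (t w)` runs over a basis
`n h vv v` of `CP` (every `v` is `t w` with a unique `t ∈ T`, `w ∈ W`), `om w⁻¹ cf' (h, t) =
vv (t w)⁻¹ ni h` is its inverse, and `lam (vv v⁻¹ ni h n g vv u)` is `1` if `h = g`, `v = u`, else `0`.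
`ph (h, t) w = (φ h)⁻¹ w`: `vv w n h vv t = n h vv (φ h⁻¹ w) vv t`. -/
def WgdStmt : Prop :=
  ∀ (F V E : Type) [Field F] [CommGroup V] [Fintype V] [Group E] [Fintype E]
    (φ : E →* MulAut V) (W : Subgroup V) [Fintype W] (z : Coc F E),
    (∀ e, ∀ w ∈ W, φ e w ∈ W) → ∀ T : Finset V, Pool.Agent.PFC.IsTv W ⊤ T →
    ∃ D : WFS F (CP (D0 φ z)) W (E × T), (∀ w : W, D.om w = vv φ z (w : V)) ∧
      (∀ i, D.cf i = CP.n (D0 φ z) i.1 * vv φ z (i.2 : V)) ∧
      ∀ i, D.cf' i = vv φ z (i.2 : V)⁻¹ * D6.ni (D0 φ z) i.1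

/-- WGF: the frame of `TX` is a `WFr` for the group `WFS`.

Proof.  `hw` for `T`; in the sum over `v : V` put `v = t w` (`t ∈ T`, `w ∈ W` unique; sums over the
subtype `T` and over `T`). -/
def WgfStmt : Prop :=
  ∀ (F V E A : Type) [Field F] [CommGroup V] [Fintype V] [Group E] [Fintype E] [Ring A]
    [Algebra F A] (φ : E →* MulAut V) (W : Subgroup V) [Fintype W] (z : Coc F E)
    (tx : D6.TX A φ W z) (T : Finset V), Pool.Agent.PFC.IsTv W ⊤ T →
    ∀ D : WFS F (CP (D0 φ z)) W (E × T), (∀ w : W, D.om w = vv φ z (w : V)) →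
      (∀ i, D.cf i = CP.n (D0 φ z) i.1 * vv φ z (i.2 : V)) →
      (∀ i, D.cf' i = vv φ z (i.2 : V)⁻¹ * D6.ni (D0 φ z) i.1) →
      ∃ (Ω : Type) (_ : Fintype Ω) (_ : MulAction W Ω), Nonempty (WFr D tx.j tx.pr Ω)

/-- BWF: helper18's `BO` gives a `WFS`.

Proof.  `lam = t`, `cf = x`, `cf' = x'`; `h1`, `h2` are `t1`, `t2` (any two `Fintype W` are equal);
`d1`, `d0`: `t1` for `a = bs (j, w)` and the uniqueness of coordinates in the basis `bs`. -/
def BwfStmt : Prop :=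
  ∀ (R F V E Γ : Type) [CommRing R] [Field F] [CommGroup V] [Group E] [Fintype E] (ℓ : ℕ)
    (c : Cdv R F) (o : Og ℓ c) (φ : E →* MulAut V) (W : Subgroup V) [Fintype W] (z : Coc F E)
    [Ring Γ] [Algebra R Γ] (bo : BO Γ o φ W z),
    ∃ (I : Type) (_ : Fintype I) (D : WFS R Γ W I), D.lam = bo.t ∧ D.om = bo.om

/-- LAT: the lift `A1` exists (assembly).

Proof.  `D` from BWF, `D0` its reduction (RWF), `Ω` from WGF, `B0`, `BX` from INX; `T` a transversal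
of `W` in `V` (representatives of the cosets), `DG` from WGD, its frame from WGF; `z, z'` from LCU for
`D0`, `DG` (`D0.om w = f.q (om w) = vv w = DG.om w` by `om_q`), frame of `D0` from CHF; SPX gives `sp0`
with `sp0.j = tx.j`, `sp0.pr = tx.pr`; `FibM` from RWF; LFX; `D2.ExxStmt` with `tx.sep`; LAX with
`bo.ctr` (`Subalgebra.mem_center_iff`). -/
def LatStmt : Prop :=
  ∀ (R F V E A Γ : Type) [CommRing R] [Field F] [CommGroup V] [Fintype V] [Group E] [Fintype E]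
    [Ring A] [Algebra F A] (ℓ : ℕ) (c : Cdv R F) (o : Og ℓ c) (φ : E →* MulAut V)
    (W : Subgroup V) [Fintype W] (z : Coc F E) [Ring Γ] [Algebra R Γ] [Module.Finite R Γ]
    [Module.Free R Γ] (bo : BO Γ o φ W z) (tx : D6.TX A φ W z), (∀ e, ∀ w ∈ W, φ e w ∈ W) →
    ∃ (I : Type) (_ : Fintype I) (D : WFS R Γ W I) (A1 : Type) (_ : Ring A1)
      (_ : Algebra R A1) (_ : Module.Finite R A1) (_ : Module.Free R A1), D.lam = bo.t ∧
      D.om = bo.om ∧ Nonempty (LA A1 D bo.fb tx.j tx.pr)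

end Pool.Agent.PFD.D2b
end
end -- Pool.Agent.PFD.StmtsD2c

section -- Pool.Agent.PFD.StmtsD4

/-!
Squad PFD, part D4 (helper36): from the lift `A1` to `dim Z(A) = dim Z(F_c[V : E])`.
Complete proofs in the docstrings.
-/

open scoped BigOperators TensorProduct

noncomputable section

namespace Pool.Agent.PFD.D4

open Pool.Agent.PFC.B1 (BiM FS Sep Split)
open Pool.Agent.PFD.D2
open Pool.Agent.PFD.D2b

/-! ### the level of `R` -/

section R

/-- RFL: a relative Frobenius system lifts.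

Proof.  Choose `X k`, `y' k` with `fb.q (X k) = x k`, `fb.q (y' k) = y k`.
`Φ a = ∑ X k * j (pr (y' k * a))` is `R`-linear, `Φ (a * j γ) = Φ a * j γ`, and `fb.q (Φ a) = fb.q a`
(`e1`, `cj`, `cp`), so `Φ a - a` is in `π A1` and `Φ` is bijective (`UngStmt`).  Its inverse is right
`Γ`-linear; `s.x k = Φ⁻¹ (X k)`, `s.y k = y' k` satisfy `e1`, and `Φ⁻¹ (X k) - X k` is in `π A1`.
`e2`: for `d = ∑ j (pr (a * s.x k)) * s.y k - a` one has `pr (d * b) = 0` for all `b` (`pr_l`, `pr_r`, `e1`).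
Claim: `pr (d * b) = 0` for all `b` implies `d = 0`: `fb.q d = ∑ j0 (pr0 (fb.q d * x k)) * y k = 0`
(`cp`), `d = π d'`, `π pr (d' b) = 0`, and `Γ` is free, so `pr (d' b) = 0`; repeat: `d` is in all
`π^n A1`, and `A1` is free and finite (`c.sep`). -/
def RflStmt : Prop :=
  ∀ (R F Γ Γ0 A A1 N : Type) [CommRing R] [Field F] (c : Cdv R F) [Ring Γ]
    [Algebra R Γ] [Module.Finite R Γ] [Module.Free R Γ] [Ring Γ0] [Algebra F Γ0] [Ring A]
    [Algebra F A] [Ring A1] [Algebra R A1] [Module.Finite R A1] [Module.Free R A1]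
    (f : FibG Γ Γ0 c) (fb : FibG A1 A c) (j0 : Γ0 →ₐ[F] A) (pr0 : A →ₗ[F] Γ0) (j : Γ →ₐ[R] A1)
    (pr : A1 →ₗ[R] Γ) [Fintype N] (x y : N → A),
    (∀ γ, pr (j γ) = γ) → (∀ γ a, pr (j γ * a) = γ * pr a) → (∀ a γ, pr (a * j γ) = pr a * γ) →
    (∀ γ, fb.q (j γ) = j0 (f.q γ)) → (∀ a, pr0 (fb.q a) = f.q (pr a)) →
    (∀ a, ∑ k, x k * j0 (pr0 (y k * a)) = a) → (∀ a, ∑ k, j0 (pr0 (a * x k)) * y k = a) →
    ∃ s : RF R Γ A1 N j pr, (∀ k, fb.q (s.x k) = x k) ∧ ∀ k, fb.q (s.y k) = y k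

/-- UNM: an element of `A1` is a unit if its image in `A` is a unit.

Proof.  Let `fb.q b` be the inverse of `fb.q a`.  `a b - 1`, `b a - 1` are in `π A1`; left multiplication
by `a b` is bijective (`UngStmt`), so `a` has a right inverse; in the same way for `b a`: left
inverse. -/
def UnmStmt : Prop :=
  ∀ (R F A A1 : Type) [CommRing R] [Field F] (c : Cdv R F) [Ring A] [Algebra F A] [Ring A1]
    [Algebra R A1] [Module.Finite R A1] [Module.Free R A1] (fb : FibG A1 A c) (a : A1),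
    IsUnit (fb.q a) → IsUnit a

/-- RTC: rules for the relative trace of a relative Frobenius system over any commutative ring.

Proof.  `a x_k = ∑_l x_l j (pr (y_l a x_k))` (`e1`), so
`a (∑_k x_k s y_k) = ∑_(k,l) x_l j (pr (y_l a x_k)) s y_k = ∑_l x_l s ∑_k j (pr (y_l a x_k)) y_k =
∑_l x_l s y_l a` (`e2`), if `s` commutes with `j Γ`.  The others are clear. -/
def RtcStmt : Prop :=
  ∀ (R B A N : Type) [CommRing R] [Ring B] [Algebra R B] [Ring A] [Algebra R A] [Fintype N]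
    (j : B →ₐ[R] A) (pr : A →ₗ[R] B) (s : RF R B A N j pr),
    (∀ b : A, (∀ γ, j γ * b = b * j γ) → ∀ a, a * s.rt b = s.rt b * a) ∧
    (∀ z b : A, (∀ a, z * a = a * z) → s.rt (z * b) = z * s.rt b) ∧
    (∀ (X : Type) [AddCommGroup X] [Module R X] (β : A →ₗ[R] A →ₗ[R] X),
      (∀ a b γ, β (a * j γ) b = β a (j γ * b)) →
      ∀ a, ∑ k, β (a * s.x k) (s.y k) = ∑ k, β (s.x k) (s.y k * a))

/-- FRM: the symmetric form lifts.

Proof.  `z1 = s.rt 1` is central (RTC), so is its inverse `z2`.  `la a = D.lam (u * pr a)` has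
`la (j γ * a) = la (a * j γ)` (`D.sym`, `u` central).  `tA a = ∑_k la (y_k z2 a x_k)`.
`tA (a b) = ∑ la (y_k z2 a (b x_k)) = ∑ la (y_k b z2 a x_k)` (RTC, third part, for the balanced map
`β x y = la (y * (z2 * a * x))`, `β (x j γ) y = β x (j γ y)` by the rule for `la`) `= tA (b a)`.
`κ (la a) = κ (D.lam (u * pr a)) = mu (j0 (f.q (pr a))) = mu (j0 (pr0 (fb.q a))) = mu (fb.q a)`, so
`κ (tA a) = mu (∑ y_k z2 a x_k) = mu (z2 a ∑ x_k y_k)... = mu (fb.q a)` (`mu` symmetric). -/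
def FrmStmt : Prop :=
  ∀ (R F Γ Γ0 A A1 W I N : Type) [CommRing R] [Field F] (c : Cdv R F) [Ring Γ]
    [Algebra R Γ] [Ring Γ0] [Algebra F Γ0] [Ring A] [Algebra F A] [Ring A1] [Algebra R A1]
    [CommGroup W] [Fintype W] [Fintype I] [Fintype N] (D : WFS R Γ W I)
    (f : FibG Γ Γ0 c) (fb : FibG A1 A c) (j0 : Γ0 →ₐ[F] A) (pr0 : A →ₗ[F] Γ0) (j : Γ →ₐ[R] A1)
    (pr : A1 →ₗ[R] Γ) (s : RF R Γ A1 N j pr) (u : Γ) (mu : A →ₗ[F] F),
    (∀ γ a, pr (j γ * a) = γ * pr a) → (∀ a γ, pr (a * j γ) = pr a * γ) →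
    (∀ a, pr0 (fb.q a) = f.q (pr a)) → IsUnit (s.rt 1) → (∀ γ, u * γ = γ * u) →
    (∀ a b, mu (a * b) = mu (b * a)) → (∀ a, mu (j0 (pr0 a)) = mu a) →
    (∀ γ, c.κ (D.lam (u * γ)) = mu (j0 (f.q γ))) →
    ∃ tA : A1 →ₗ[R] R, (∀ a b, tA (a * b) = tA (b * a)) ∧ ∀ a, c.κ (tA a) = mu (fb.q a)

/-- ULF: the form of `Γ0` lifts.

Proof.  `D0` = the reduction of `D` (`RwfStmt`).  `t0 γ = mu (j0 γ)` is symmetric, so
`t0 γ = D0.lam (u0 γ)` with `u0` central (`LcuStmt`).  If `u0 γ = 0` then `mu (j0 γ * j0 δ) = 0` for all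
`δ`, so `mu (j0 γ * a) = mu (j0 (pr0 (j0 γ * a))) = mu (j0 (γ * pr0 a)) = 0` for all `a`, and `γ = 0`
(`mun`, `pr0_j`).  `Γ0` is finite-dimensional, so `u0` is a unit.  Lift `u0` to a central `u`
(hypothesis `ctr`); `κ (D.lam (u γ)) = D0.lam (f.q (u γ)) = t0 (f.q γ)`. -/
def UlfStmt : Prop :=
  ∀ (R F Γ Γ0 A W I : Type) [CommRing R] [Field F] (c : Cdv R F) [Ring Γ]
    [Algebra R Γ] [Ring Γ0] [Algebra F Γ0] [FiniteDimensional F Γ0] [Ring A] [Algebra F A]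
    [CommGroup W] [Fintype W] [Fintype I] (D : WFS R Γ W I)
    (f : FibG Γ Γ0 c) (j0 : Γ0 →ₐ[F] A) (pr0 : A →ₗ[F] Γ0) (mu : A →ₗ[F] F),
    (∀ γ, pr0 (j0 γ) = γ) → (∀ γ a, pr0 (j0 γ * a) = γ * pr0 a) →
    (∀ a b, mu (a * b) = mu (b * a)) → (∀ a, mu (j0 (pr0 a)) = mu a) →
    (∀ a, (∀ b, mu (a * b) = 0) → a = 0) →
    (∀ a : Γ0, (∀ γ, a * γ = γ * a) → ∃ b : Γ, (∀ γ, b * γ = γ * b) ∧ f.q b = a) →
    ∃ u : Γ, (∀ γ, u * γ = γ * u) ∧ IsUnit (f.q u) ∧
      ∀ γ, c.κ (D.lam (u * γ)) = mu (j0 (f.q γ))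

/-- ORT: the orthogonal projection.

Proof.  `t' γ = tA (j γ)` is symmetric, `t' γ = D.lam (u γ)` with `u` central (`LcuStmt`).
`D0` = reduction of `D` (`RwfStmt`): `D0.lam (f.q u * f.q γ) = κ (tA (j γ)) = mu (j0 (f.q γ))`, and `f.q u`
is a unit as in ULF, so `u` is a unit (`UnmStmt` for `f`), `u u' = 1`.
`e a = ∑_s tA (a * j (b_s)) • b'_s` (`b = D.fs.b`) has `D.lam (e a * γ) = tA (a * j γ)`; elements of `Γ`
are determined by the values `D.lam (· * γ)`; `pr' a = u' * e a` is a bimodule map with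
`pr' (j γ) = γ` (`tA` symmetric, `u` central), `D.lam (u * pr' a) = tA a`.
`f.q (pr' a) = pr0 (fb.q a)`: both `y` satisfy
`D0.lam (f.q u * y * f.q γ) = mu (fb.q a * j0 (f.q γ))`.
New `LA`: `fb`, `j`, `cl` the same, `pr'`, operator `a' x = a x - j (pr' (a x))`:
with `q' x = x - j (pr' x)`, a bimodule map, the sum for `a'` is `q' (|W| (x - j (pr x))) =
|W| (x - j (pr' x))`. -/
def OrtStmt : Prop :=
  ∀ (R F Γ Γ0 A A1 W I : Type) [CommRing R] [Field F] (c : Cdv R F) [Ring Γ]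
    [Algebra R Γ] [Module.Finite R Γ] [Module.Free R Γ] [Ring Γ0] [Algebra F Γ0]
    [FiniteDimensional F Γ0] [Ring A] [Algebra F A] [Ring A1] [Algebra R A1]
    [CommGroup W] [Fintype W] [Fintype I] (D : WFS R Γ W I) (f : FibG Γ Γ0 c)
    (j0 : Γ0 →ₐ[F] A) (pr0 : A →ₗ[F] Γ0) (mu : A →ₗ[F] F) (la : LA A1 D f j0 pr0)
    (tA : A1 →ₗ[R] R),
    (∀ γ, pr0 (j0 γ) = γ) → (∀ γ a, pr0 (j0 γ * a) = γ * pr0 a) →
    (∀ a γ, pr0 (a * j0 γ) = pr0 a * γ) →
    (∀ a b, mu (a * b) = mu (b * a)) → (∀ a, mu (j0 (pr0 a)) = mu a) →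
    (∀ a, (∀ b, mu (a * b) = 0) → a = 0) →
    (∀ a b, tA (a * b) = tA (b * a)) → (∀ a, c.κ (tA a) = mu (la.fb.q a)) →
    ∃ (la' : LA A1 D f j0 pr0) (u u' : Γ), la'.fb = la.fb ∧ la'.j = la.j ∧
      (∀ γ, u * γ = γ * u) ∧ u * u' = 1 ∧ ∀ a, tA a = D.lam (u * la'.pr a)

/-- LRX: the final lift (assembly).

Proof.  RFL for `la`: `s`, `s.rt 1` reduces to `∑ x_k * j0 1 * y_k`, a unit by `unt` for `w = 1`; UNM.
ULF: `u`.  FRM: `tA`.  ORT: `la'`, `u1`, `u1'`.  RFL for `la'` (with `la'.fb`, `la'.j`, `la'.pr`): `s'`.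
`s'.rt 1`, `s'.rt (j u1')` reduce to `∑ x_k j0 1 y_k`, `∑ x_k j0 (f.q u1') y_k`, units by `unt`
(`f.q u1'` is central and a unit); UNM. -/
def LrxStmt : Prop :=
  ∀ (R F Γ Γ0 A A1 W I N : Type) [CommRing R] [Field F] (c : Cdv R F) [Ring Γ]
    [Algebra R Γ] [Module.Finite R Γ] [Module.Free R Γ] [Ring Γ0] [Algebra F Γ0]
    [FiniteDimensional F Γ0] [Ring A] [Algebra F A] [Ring A1] [Algebra R A1]
    [Module.Finite R A1] [Module.Free R A1]
    [CommGroup W] [Fintype W] [Fintype I] [Fintype N] (D : WFS R Γ W I) (f : FibG Γ Γ0 c)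
    (j0 : Γ0 →ₐ[F] A) (pr0 : A →ₗ[F] Γ0) (mu : A →ₗ[F] F) (_ : LA A1 D f j0 pr0)
    (x y : N → A),
    (∀ γ, pr0 (j0 γ) = γ) → (∀ γ a, pr0 (j0 γ * a) = γ * pr0 a) →
    (∀ a γ, pr0 (a * j0 γ) = pr0 a * γ) →
    (∀ a b, mu (a * b) = mu (b * a)) → (∀ a, mu (j0 (pr0 a)) = mu a) →
    (∀ a, (∀ b, mu (a * b) = 0) → a = 0) →
    (∀ a : Γ0, (∀ γ, a * γ = γ * a) → ∃ b : Γ, (∀ γ, b * γ = γ * b) ∧ f.q b = a) →
    (∀ a, ∑ k, x k * j0 (pr0 (y k * a)) = a) → (∀ a, ∑ k, j0 (pr0 (a * x k)) * y k = a) →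
    (∀ w : Γ0, (∀ γ, w * γ = γ * w) → IsUnit w → IsUnit (∑ k, x k * j0 w * y k)) →
    Nonempty (LR A1 D f j0 pr0)

/-- ZON: the centre of `A1` maps onto the centre of `A`.

Proof.  `z` in the centre; by `cl` there is `b` commuting with `j Γ`, `fb.q b = z`.  `rf.rt b` is
central (RTC), `rf.rt 1` is a central unit with inverse `i`; the element `rf.rt b * i` is central, and
`fb.q (rf.rt b) = z * fb.q (rf.rt 1)` since `z` is central. -/
def ZonStmt : Prop :=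
  ∀ (R F Γ Γ0 A A1 W I : Type) [CommRing R] [Field F] (c : Cdv R F) [Ring Γ]
    [Algebra R Γ] [Ring Γ0] [Algebra F Γ0] [Ring A] [Algebra F A] [Ring A1] [Algebra R A1]
    [CommGroup W] [Fintype W] [Fintype I] (D : WFS R Γ W I) (f : FibG Γ Γ0 c)
    (j0 : Γ0 →ₐ[F] A) (pr0 : A →ₗ[F] Γ0) (lr : LR A1 D f j0 pr0),
    ∀ z : A, (∀ a, z * a = a * z) → ∃ b : A1, (∀ a, b * a = a * b) ∧ lr.fb.q b = z

/-- CNR: ranks of centres, special fibre.

Proof.  The centre of `A1` is a submodule of the finite free module `A1` over the principal ideal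
domain `R`, so it has a finite basis `z_i`.  The images `fb.q z_i` are a basis of the centre of `A`:
they span it (every central element lifts to a central element; `fb.q (r • x) = κ r • fb.q x`);
independent: `∑ κ (r_i) fb.q z_i = 0` gives `∑ r_i z_i = π a`, `π (a b - b a) = 0`, so `a` is central
(`A1` is free, `c.reg`), `a = ∑ s_i z_i`, `r_i = π s_i`, `κ r_i = 0`. -/
def CnrStmt : Prop :=
  ∀ (R F A A1 : Type) [CommRing R] [IsDomain R] [IsPrincipalIdealRing R] [Field F]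
    (c : Cdv R F) [Ring A] [Algebra F A] [Ring A1] [Algebra R A1] [Module.Finite R A1]
    [Module.Free R A1] (fb : FibG A1 A c),
    (∀ z : A, (∀ a, z * a = a * z) → ∃ b : A1, (∀ a, b * a = a * b) ∧ fb.q b = z) →
    Module.finrank F (Subalgebra.center F A) = Module.finrank R (Subalgebra.center R A1)

/-- CNK: ranks of centres, generic fibre.

Proof.  The centre is the kernel of the linear map `g : A1 → (ι → A1)`, `a ↦ (a e_i - e_i a)_i` for a
basis `e` of `A1`; the kernel of the base change of `g` is the base change of the kernel, since `K`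
is flat (torsion free over a principal ideal domain); `Module.finrank_baseChange`. -/
def CnkStmt : Prop :=
  ∀ (R K A1 : Type) [CommRing R] [IsDomain R] [IsPrincipalIdealRing R] [Field K] [Algebra R K]
    [FaithfulSMul R K] [Ring A1] [Algebra R A1] [Module.Finite R A1] [Module.Free R A1],
    Module.finrank K (Subalgebra.center K (K ⊗[R] A1)) =
      Module.finrank R (Subalgebra.center R A1)

end R

/-! ### base change to `K` -/

section base

/-- BFS: base change of a Frobenius system with a given form. -/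
def BfsStmt : Prop :=
  ∀ (R K A I : Type) [CommRing R] [Field K] [Algebra R K] [Ring A] [Algebra R A] [Fintype I]
    (c : FS R A I), ∃ c' : FS K (K ⊗[R] A) I, (∀ i, c'.b i = 1 ⊗ₜ c.b i) ∧
      (∀ i, c'.b' i = 1 ⊗ₜ c.b' i) ∧ (∀ k a, c'.lam (k ⊗ₜ a) = algebraMap R K (c.lam a) * k) ∧
      ((∀ x y, c.lam (x * y) = c.lam (y * x)) → ∀ x y, c'.lam (x * y) = c'.lam (y * x))

/-- BSP: base change of `Γ → A1` with a Higman operator up to the invertible scalar `m`: the form of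
`Γ` is `c.lam`, divide the operator by `m`. -/
def BspStmt : Prop :=
  ∀ (R K Γ A I : Type) [CommRing R] [Field K] [Algebra R K] [Ring Γ] [Algebra R Γ] [Ring A]
    [Algebra R A] [Fintype I] (c : FS R Γ I) (c' : FS K (K ⊗[R] Γ) I) (j : Γ →ₐ[R] A)
    (pr : A →ₗ[R] Γ) (a : A →ₗ[R] A) (m : R),
    (∀ i, c'.b i = 1 ⊗ₜ c.b i) → (∀ i, c'.b' i = 1 ⊗ₜ c.b' i) →
    (∀ γ, pr (j γ) = γ) → (∀ γ x, pr (j γ * x) = γ * pr x) → (∀ x γ, pr (x * j γ) = pr x * γ) →
    (∀ x, ∑ s, ∑ t, j (c.b s) * a (j (c.b' s) * x * j (c.b t)) * j (c.b' t) =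
      m • (x - j (pr x))) → algebraMap R K m ≠ 0 →
    ∃ sp : Split c' (K ⊗[R] A), (∀ k γ, sp.j (k ⊗ₜ γ) = k ⊗ₜ j γ) ∧
      ∀ k x, sp.pr (k ⊗ₜ x) = k ⊗ₜ pr x

/-- BRF: base change of a relative Frobenius system. -/
def BrfStmt : Prop :=
  ∀ (R K Γ A N : Type) [CommRing R] [Field K] [Algebra R K] [Ring Γ] [Algebra R Γ] [Ring A]
    [Algebra R A] [Fintype N] (j : Γ →ₐ[R] A) (pr : A →ₗ[R] Γ) (s : RF R Γ A N j pr)
    (j' : K ⊗[R] Γ →ₐ[K] K ⊗[R] A) (pr' : K ⊗[R] A →ₗ[K] K ⊗[R] Γ),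
    (∀ k γ, j' (k ⊗ₜ γ) = k ⊗ₜ j γ) → (∀ k x, pr' (k ⊗ₜ x) = k ⊗ₜ pr x) →
    ∃ s' : RF K (K ⊗[R] Γ) (K ⊗[R] A) N j' pr', (∀ k, s'.x k = 1 ⊗ₜ s.x k) ∧
      (∀ k, s'.y k = 1 ⊗ₜ s.y k) ∧ ∀ a, s'.rt (1 ⊗ₜ a) = 1 ⊗ₜ s.rt a

/-- BDV: base change of the derivation.

Proof.  `v' = LinearMap.baseChange K v`.  Nilpotent: let `Q` be the `K`-span of the elements `1 ⊗ y`,
`y ∈ P`; `v' b ∈ Q`.  `Q ^ N = span (S ^ N)` (`Submodule.span_pow`), `S ^ N` consists of
products of `N` elements of `S` (`Set.mem_pow`), which are `1 ⊗ 0` by `P_nil`; so `(v' b) ^ N = 0`. -/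
def BdvStmt : Prop :=
  ∀ (R K Γ : Type) [CommRing R] [Field K] [Algebra R K] [Ring Γ] [Algebra R Γ]
    (v : Γ →ₗ[R] Γ) (P : Submodule R Γ) (N : ℕ),
    (∀ a b, v (a * b) = v a * b + a * v b) → (∀ a, v a ∈ P) →
    (∀ y : ℕ → Γ, (∀ i, y i ∈ P) → ((List.range N).map y).prod = 0) →
    ∃ v' : K ⊗[R] Γ →ₗ[K] K ⊗[R] Γ, (∀ k a, v' (k ⊗ₜ a) = k ⊗ₜ v a) ∧
      (∀ a b, v' (a * b) = v' a * b + a * v' b) ∧ ∀ b, IsNilpotent (v' b)

/-- KBC: the data over `K` (assembly).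

Proof.  `c1`: the Frobenius system of `Γ` with the form `x ↦ D.lam (u x)`: `b = D.fs.b`,
`b' = u' * D.fs.b'` (`u`, `u'` central), symmetric.  `a1 x = lr.a (j u * x) * j u`; then
`∑ j(b_s) a1 (j (u' b'_s) x j(b_t)) j (u' b'_t) = ∑ j(b_s) a (j(b'_s) x j(b_t)) j(b'_t)` (`u`
central).  `d1`: index `N × (I × W)`, `b (k, s) = x_k j(b_s)`, `b' (k, s) = j (u' b'_s) y_k`, form `tA`:
`∑ tA (j (u' b'_s) y_k a) • (x_k j(b_s)) = ∑_k x_k j (∑_s D.lam (u u' b'_s pr (y_k a)) • b_s) = a`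
(`ort`, `pr_l`, `e1`), in the same way `h2`.  BFS for `c1`, `d1`; BSP with `m = |W|` (not `0` in `K`);
BRF; BDV; `tv`: `c.lam (1 ⊗ u' * x) = D.lam x` on `Γ`; images of units are units. -/
def KbcStmt : Prop :=
  ∀ (R F Γ Γ0 A A1 W I K : Type) [CommRing R] [Field F] (c : Cdv R F) [Ring Γ]
    [Algebra R Γ] [Ring Γ0] [Algebra F Γ0] [Ring A] [Algebra F A] [Ring A1] [Algebra R A1]
    [CommGroup W] [Fintype W] [Fintype I] (D : WFS R Γ W I) (f : FibG Γ Γ0 c)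
    (j0 : Γ0 →ₐ[F] A) (pr0 : A →ₗ[F] Γ0) (_ : LR A1 D f j0 pr0) [Field K] [CharZero K]
    [Algebra R K] (v : Γ →ₗ[R] Γ) (P : Submodule R Γ) (M wt : ℕ),
    (∀ a b, v (a * b) = v a * b + a * v b) → (∀ a, v a ∈ P) →
    (∀ y : ℕ → Γ, (∀ i, y i ∈ P) → ((List.range M).map y).prod = 0) →
    0 < wt → (∀ a, D.lam (v a) = (wt : R) * D.lam a) →
    ∃ (J N : Type) (_ : Fintype J) (_ : Fintype N),
      Nonempty (KL K (K ⊗[R] Γ) (K ⊗[R] A1) (I × W) J N)

end base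

/-! ### the level of `K` -/

section K

/-- CRS: `rt s - s` is a trace from `1` to `B`.

Proof.  `al y = ∑_i j(b_i) a (j(b'_i) y)` (`a = sp.a`).
(1) `x - j (pr x) = ∑_k al (e_k) j (pr (e'_k x))`: `a_id` says `x - j (pr x) = ∑_l al (x j(b_l)) j(b'_l)`,
`x j(b_l) = ∑_k d.lam (e'_k x j(b_l)) e_k`, `d.lam (e'_k x j(b_l)) = c.lam (pr (e'_k x) b_l)` (`ort`),
`∑_l c.lam (pr (e'_k x) b_l) b'_l = pr (e'_k x)` (`c.h2`).
(2) `rt s = ∑ x_k s y_k`; put `x_k = j (pr x_k) + ∑_l al (e_l) j (pr (e'_l x_k))`; `s` commutes with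
`j B` and `∑_k j (pr (a x_k)) y_k = a` (`e2`): `rt s = s + ∑_l al (e_l) s e'_l`.
(3) `∑_l al (e_l) s e'_l = ∑_(l,i) j(b_i) a (j(b'_i) e_l) s e'_l = ∑_i j(b_i) (∑_l a (e_l) s e'_l) j(b'_i)`
(Casimir identity of `d`: `∑_l (j(b'_i) e_l) ⊗ e'_l = ∑_l e_l ⊗ (e'_l j(b'_i))`). -/
def CrsStmt : Prop :=
  ∀ (K B A I J N : Type) [Field K] [Ring B] [Algebra K B] [Ring A] [Algebra K A] [Fintype I]
    [Fintype J] [Fintype N] (D : KL K B A I J N) (s : A),
    (∀ b, D.sp.j b * s = s * D.sp.j b) →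
    ∃ t : A, D.s.rt s = s + D.TB t

/-- TTR: transitivity of the trace, and the rules of `TB`.

Proof.  The families `x_k j(b_i)`, `j(b'_i) y_k` are dual for `d.lam`:
`∑ d.lam (j(b'_i) y_k x) x_k j(b_i) = ∑_k x_k j (∑_i c.lam (b'_i pr (y_k x)) b_i) = ∑_k x_k j (pr (y_k x)) = x`.
So `∑_p e_p a e'_p = ∑_p ∑_(k,i) d.lam (j(b'_i) y_k e_p) x_k j(b_i) a e'_p = ∑_(k,i) x_k j(b_i) a
(∑_p d.lam (j(b'_i) y_k e_p) e'_p) = ∑ x_k j(b_i) a j(b'_i) y_k`.
`TB a` commutes with `j B`: Casimir identity of `c`. -/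
def TtrStmt : Prop :=
  ∀ (K B A I J N : Type) [Field K] [Ring B] [Algebra K B] [Ring A] [Algebra K A] [Fintype I]
    [Fintype J] [Fintype N] (D : KL K B A I J N),
    (∀ a, D.s.rt (D.TB a) = D.TA a) ∧ (∀ a b, D.sp.j b * D.TB a = D.TB a * D.sp.j b) ∧
    (∀ a z, (∀ b, D.sp.j b * z = z * D.sp.j b) → z * D.TB a = D.TB (z * a) ∧
      D.TB a * z = D.TB (a * z)) ∧
    (∀ a z, (∀ b, b * z = z * b) → z * D.TA a = D.TA (z * a)) ∧
    (∀ a z, z * D.TA a = D.TA a * z)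

/-- HSV: the Hattori-Stallings trace has form `0`.

Proof.  `f k l = pr (y_k e x_l)`: `f f = f` by `pr_r`, `e1`, `e e = e`.  With `v f` the matrix of the
`v (f k l)`: `v f = (v f) f + f (v f)`, so `f (v f) f = 0`.  `t b = c.lam (u' b)` is symmetric (`u'` is
central), `t (v b) = wt * t b`.
`wt * t (∑ f k k) = ∑ t (v (f k k)) = ∑_(k,m) t (v(f k m) f m k) + t (f k m v(f m k)) =
2 ∑_(k,m) t (v(f k m) f m k) = 2 ∑_(k,m,l) t (v(f k m) f m l f l k) = 2 ∑_l t ((f (v f) f) l l) = 0`.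
`K` has characteristic `0`, `wt > 0`. -/
def HsvStmt : Prop :=
  ∀ (K B A I J N : Type) [Field K] [CharZero K] [Ring B] [Algebra K B] [Ring A] [Algebra K A]
    [Fintype I] [Fintype J] [Fintype N] (D : KL K B A I J N) (e : A), e * e = e →
    D.d.lam (D.s.rt (D.sp.j D.u') * e) = 0

/-- TFS: the trace of a linear map by a Frobenius system.

Proof.  `T a = ∑_p d.lam (b'_p a) • T (b_p)`, a sum of maps of rank one. -/
def TfsStmt : Prop :=
  ∀ (K A J : Type) [Field K] [Ring A] [Algebra K A] [Module.Finite K A] [Fintype J]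
    (d : FS K A J) (T : A →ₗ[K] A), LinearMap.trace K A T = ∑ p, d.lam (d.b' p * T (d.b p))

/-- IDM: idempotents of a commutative algebra.

Proof.  There is an algebra homomorphism `χ : Z → K` with `χ x ≠ 0` (a maximal ideal which does not
contain `x`; `x` is not in the nilradical = Jacobson radical; `K` algebraically closed).  The
indicator of `χ` in `Z / nil = K^r` lifts to an idempotent `e`; `e z - χ z e` is nilpotent for all
`z`; for `z = x`: `e x = χ x e + n`, so `e x` has an inverse `y` in `e Z`, `e = x y`. -/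
def IdmStmt : Prop :=
  ∀ (K Z : Type) [Field K] [IsAlgClosed K] [CommRing Z] [Algebra K Z] [Module.Finite K Z]
    (x : Z), ¬ IsNilpotent x → ∃ e y : Z, e * e = e ∧ e ≠ 0 ∧ e = x * y ∧
      ∀ z : Z, ∃ k : K, IsNilpotent (e * z - k • e)

/-- ZPN: central elements which are traces from `1` are nilpotent.

Proof.  Suppose not.  IDM for the centre and `x = TA a`: `e = x y = TA (a y)`, put `b = a y`.
(1) If `ν` is central and nilpotent with `ν e = ν` then `ν = 0`: for all `s`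
`d.lam (ν s) = ∑_p d.lam (ν e_p b e'_p s) = ∑_p d.lam (e'_p (ν b e_p s))` (`∑ e_p ⊗ e'_p =
∑ e'_p ⊗ e_p`: `e_p = ∑_r d.lam (e_p e_r) e'_r`, symmetric; and `d.lam` symmetric) is the trace of
`a ↦ ν b a s` (TFS), which is nilpotent (`ν` central), so `0`; `d.lam` is nondegenerate (`d.h2`).
(2) So `e z = k e` for all central `z`.
(3) `c_A = ∑ e_p e'_p` is central; trace of `a ↦ e a` is `∑ d.lam (e'_p e e_p) = d.lam (e c_A) =
k d.lam e`, and it is the dimension of `e A`, not `0` in `K`; so `d.lam e ≠ 0`.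
(4) `y0 = rt (j u')` is central and a unit, `e y0 = k e`, `k ≠ 0`, and `d.lam (y0 e) = 0` (HSV), so
`d.lam e = 0`. -/
def ZpnStmt : Prop :=
  ∀ (K B A I J N : Type) [Field K] [CharZero K] [IsAlgClosed K] [Ring B] [Algebra K B]
    [Module.Finite K B] [Ring A] [Algebra K A] [Module.Finite K A]
    [Fintype I] [Fintype J] [Fintype N] (D : KL K B A I J N) (a : A), IsNilpotent (D.TA a)

/-- ZET: the divergence.

Proof.  `De = u' * v u - wt`.  `u'` is central, `v u` is central (apply `v` to `u b = b u`), `v u` is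
nilpotent (`nil`), so `ν = u' * v u` is central and nilpotent.  `c.lam (v a) = - c.lam (a * De)`:
`tv` for `b = u a`: `c.lam (u' v(u) a) + c.lam (u' u v a) = wt c.lam (a)`.
`ζ = rt (j De) + wt`: `rt (j De) = j De + TB t` (CRS), so `ζ = j ν + TB t`.  By induction
`ζ ^ m = j ν ^ m + TB t_m` (TTR), so `ζ ^ M = TB t'` for some `M`; `ζ` is central (`RtcStmt`).
`ζ ^ M * rt 1 = rt (ζ ^ M) = rt (TB t') = TA t'` (RTC, TTR), with `i` the inverse of the central unit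
`rt 1`: `ζ ^ M = TA (i t')`, nilpotent by ZPN. -/
def ZetStmt : Prop :=
  ∀ (K B A I J N : Type) [Field K] [CharZero K] [IsAlgClosed K] [Ring B] [Algebra K B]
    [Module.Finite K B] [Ring A] [Algebra K A] [Module.Finite K A]
    [Fintype I] [Fintype J] [Fintype N] (D : KL K B A I J N),
    ∃ (De ν : B), De = ν - algebraMap K B (D.wt : K) ∧ IsNilpotent ν ∧ (∀ b, ν * b = b * ν) ∧
      (∀ a, D.c.lam (D.v a) = - D.c.lam (a * De)) ∧
      IsNilpotent (D.s.rt (D.sp.j De) + algebraMap K A (D.wt : K))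

/-- KLT: equality of the dimensions of the centres.

Proof.  ZET and `FotStmt` for `v`, `De`: the trace of `rt (j De) = ζ - wt` on the centre of `A`
is `- wt * dim Z(A)` (`ζ` central and nilpotent, the trace of a nilpotent map is `0`), the trace of
`De = ν - wt` on the centre of `B` is `- wt * dim Z(B)`. -/
def KltStmt : Prop :=
  ∀ (K B A I J N : Type) [Field K] [CharZero K] [IsAlgClosed K] [Ring B] [Algebra K B]
    [Module.Finite K B] [Ring A] [Algebra K A] [Module.Finite K A]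
    [Fintype I] [Fintype J] [Fintype N] (_ : KL K B A I J N),
    Module.finrank K (Subalgebra.center K A) = Module.finrank K (Subalgebra.center K B)

end K

/-- MEQ: TOP of D2b and D4.

Proof.  LAT: `I`, `D`, `A1`, `la`.  LRX for `mu = tx.mu`, `x`, `y` of `tx`: `lr`.  ZON.  `K` = algebraic closure of
the fraction field of `R` (characteristic `0`).  KBC with `v`, `P` of `bo`; KLT.  CNR, CNK for `A1`,
`lr.fb` (with ZON) and for `Γ`, `bo.fb` (with `bo.ctr`). -/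
def MeqStmt : Prop :=
  ∀ (R F V E A Γ : Type) [CommRing R] [Field F] [CommGroup V] [Fintype V] [Group E] [Fintype E]
    [Ring A] [Algebra F A] (ℓ : ℕ) (c : Cdv R F) (o : Og ℓ c) (φ : E →* MulAut V)
    (W : Subgroup V) (z : Coc F E) [Ring Γ] [Algebra R Γ] [Module.Finite R Γ]
    [Module.Free R Γ] (_ : BO Γ o φ W z) (_ : D6.TX A φ W z), (∀ e, ∀ w ∈ W, φ e w ∈ W) →
    Module.finrank F (Subalgebra.center F A) =
      Module.finrank F (Subalgebra.center F (CP (D0 φ z)))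

end Pool.Agent.PFD.D4
end
end -- Pool.Agent.PFD.StmtsD4

section -- Pool.Agent.PFE.DefsE1

/-!
# Squad PFE (theorem (R)), part E1: definitions (helper3)

`A` is an algebra over a commutative ring `R`, `y` an element with `y ^ l = 0`, `X` a finite group and
`χ : X → Rˣ` a faithful character of exponent dividing `l - 1`.
`Nx y χ x = {a : y a = χ(x) a y}`, `Tx y l c a = ∑ c^(l-1-j) y^j a y^(l-1-j)`,
`Jx = Tx(A) + y Nx`.  The local algebra `S` is the direct sum of the quotients `Nx / Jx`.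
-/

open scoped BigOperators

noncomputable section

namespace Pool.Agent.PFE

open Pool.Agent.PFC.B1 (FS Split)
open Pool.Agent.PFD (RF)

section basic

variable {R A X : Type} [CommRing R] [Ring A] [Algebra R A] [Group X]

/-- the elements with `y a = χ(x) a y` -/
def Nx (y : A) (χ : X →* R) (x : X) : Submodule R A where
  carrier := {a | y * a = χ x • (a * y)}
  add_mem' := by
    intro a b ha hb
    show y * (a + b) = χ x • ((a + b) * y)
    rw [mul_add, add_mul, smul_add, show y * a = χ x • (a * y) from ha,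
      show y * b = χ x • (b * y) from hb]
  zero_mem' := by
    show y * 0 = χ x • (0 * y)
    rw [mul_zero, zero_mul, smul_zero]
  smul_mem' := by
    intro c a ha
    show y * (c • a) = χ x • (c • a * y)
    rw [mul_smul_comm, smul_mul_assoc, show y * a = χ x • (a * y) from ha, smul_comm]

theorem Nx_one (y : A) (χ : X →* R) : (1 : A) ∈ Nx y χ 1 := by
  show y * 1 = χ 1 • (1 * y)
  rw [map_one, one_smul, mul_one, one_mul]

theorem Nx_mul {y : A} {χ : X →* R} {x x' : X} {a b : A} (ha : a ∈ Nx y χ x)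
    (hb : b ∈ Nx y χ x') : a * b ∈ Nx y χ (x * x') := by
  show y * (a * b) = χ (x * x') • (a * b * y)
  rw [← mul_assoc, show y * a = χ x • (a * y) from ha, smul_mul_assoc, mul_assoc a y b,
    show y * b = χ x' • (b * y) from hb, mul_smul_comm, smul_smul, ← map_mul, mul_assoc]

/-- the twisted trace from `1` to `R[y]` -/
def Tx (y : A) (l : ℕ) (c : R) (a : A) : A :=
  ∑ j ∈ Finset.range l, c ^ (l - 1 - j) • (y ^ j * a * y ^ (l - 1 - j))

/-- the ideal: twisted traces and `y` times the twisted commuting elements -/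
def Jx (y : A) (l : ℕ) (χ : X →* R) (x : X) : Submodule R A :=
  Submodule.span R {b | (∃ a, b = Tx y l (χ x) a) ∨ ∃ n ∈ Nx y χ x, b = y * n}

/-- the span of the products of `n` homogeneous elements of the ideal -/
def JP (y : A) (l : ℕ) (χ : X →* R) (n : ℕ) : Submodule R A :=
  Submodule.span R {b | ∃ f : ℕ → A, (∀ i, ∃ x, f i ∈ Jx y l χ x) ∧
    b = ((List.range n).map f).prod}

end basic

/-- a grading of the algebra `S` by `X`; `c x` is the projection to the part of degree `x` -/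
structure GS (R S X : Type) [CommRing R] [Ring S] [Algebra R S] [Group X] [Fintype X] where
  c : X → (S →ₗ[R] S)
  cs : ∀ s, ∑ x, c x s = s
  ci : ∀ x s, c x (c x s) = c x s
  co : ∀ x x' s, x ≠ x' → c x (c x' s) = 0
  c1 : c 1 1 = 1
  cm : ∀ x x' s s', c (x * x') (c x s * c x' s') = c x s * c x' s'

section GS

variable {R S X : Type} [CommRing R] [Ring S] [Algebra R S] [Group X] [Fintype X]

/-- the part of degree `1` -/
def GS.S1 (G : GS R S X) : Subalgebra R S where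
  carrier := {s | G.c 1 s = s}
  mul_mem' := by
    intro a b ha hb
    have h := G.cm 1 1 a b
    rw [mul_one, show G.c 1 a = a from ha, show G.c 1 b = b from hb] at h
    exact h
  add_mem' := by
    intro a b ha hb
    show G.c 1 (a + b) = a + b
    rw [map_add, show G.c 1 a = a from ha, show G.c 1 b = b from hb]
  algebraMap_mem' := by
    intro r
    show G.c 1 (algebraMap R S r) = algebraMap R S r
    rw [Algebra.algebraMap_eq_smul_one, map_smul, G.c1]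

/-- the automorphism `σ` which is `χ(x)` in degree `x` -/
def GS.sg (G : GS R S X) (χ : X →* R) : S →ₗ[R] S := ∑ x, χ x • G.c x

end GS

/-- `S` is the local algebra of `A` at `y` -/
structure LS (R A X S : Type) [CommRing R] [Ring A] [Algebra R A] [Group X] [Fintype X] [Ring S]
    [Algebra R S] (y : A) (l : ℕ) (χ : X →* R) extends GS R S X where
  p : ∀ x, Nx y χ x →ₗ[R] S
  pc : ∀ x a, c x (p x a) = p x a
  ps : ∀ x s, ∃ a, p x a = c x s
  ker : ∀ x a, p x a = 0 ↔ (a : A) ∈ Jx y l χ x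
  one : p 1 ⟨1, Nx_one y χ⟩ = 1
  mul : ∀ x x' a b, p x a * p x' b = p (x * x') ⟨a * b, Nx_mul a.2 b.2⟩

/-- The frame: as a bimodule over `R[y]` (truncated polynomials) `A` is a direct summand of a sum of
twisted bimodules `R[y]` (generators `g o`, degree `deg o`) and free ones (generators `h o`). -/
structure Yd (R A X J Ω Ω' : Type) [CommRing R] [Ring A] [Algebra R A] [Group X] [Fintype J]
    [Fintype Ω] [Fintype Ω'] (y : A) (l : ℕ) (χ : X →* R) where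
  hl : 2 ≤ l
  χl : ∀ x, χ x ^ (l - 1) = 1
  χu : ∀ x, x ≠ 1 → IsUnit (1 - χ x)
  yl : y ^ l = 0
  d : FS R A J
  ds : ∀ a b, d.lam (a * b) = d.lam (b * a)
  deg : Ω → X
  g : Ω → A
  g' : Ω → A
  gy : ∀ o, y * g o = χ (deg o) • (g o * y)
  g'y : ∀ o, g' o * y = χ (deg o) • (y * g' o)
  h : Ω' → A
  h' : Ω' → A
  fr : ∀ a, ∑ o, ∑ i ∈ Finset.range l, d.lam (g' o * y ^ (l - 1 - i) * a) • (y ^ i * g o) +
    ∑ o, ∑ i ∈ Finset.range l, ∑ k ∈ Finset.range l,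
      d.lam (h' o * (y ^ (l - 1 - i) * a * y ^ (l - 1 - k))) • (y ^ i * h o * y ^ k) = a

section Yd

variable {R A X J Ω Ω' : Type} [CommRing R] [Ring A] [Algebra R A] [Group X] [Fintype J]
    [Fintype Ω] [Fintype Ω'] {y : A} {l : ℕ} {χ : X →* R}

/-- the Frobenius homomorphism `A → R[y]` -/
def Yd.pi (D : Yd R A X J Ω Ω' y l χ) (a : A) : A :=
  ∑ i ∈ Finset.range l, D.d.lam (y ^ (l - 1 - i) * a) • y ^ i

/-- the generators over `R[y]` -/
def Yd.e (D : Yd R A X J Ω Ω' y l χ) : Ω ⊕ (Ω' × Fin l) → A :=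
  Sum.elim D.g (fun p => y ^ (p.2 : ℕ) * D.h p.1)

/-- the dual generators over `R[y]` -/
def Yd.e' (D : Yd R A X J Ω Ω' y l χ) : Ω ⊕ (Ω' × Fin l) → A :=
  Sum.elim D.g' (fun p => D.h' p.1 * y ^ (l - 1 - (p.2 : ℕ)))

/-- the relative trace from `R[y]` to `A` -/
def Yd.RT (D : Yd R A X J Ω Ω' y l χ) (a : A) : A := ∑ r, D.e r * a * D.e' r

/-- the trace from `1` to `A` -/
def Yd.TA (D : Yd R A X J Ω Ω' y l χ) (a : A) : A := ∑ p, D.d.b p * a * D.d.b' p

end Yd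

/-- The data over a field: `A` is relatively separable over `K[y]` (`RT w = 1`), and the traces from
`1` are nilpotent. -/
structure Yk (K A X J Ω Ω' : Type) [Field K] [Ring A] [Algebra K A] [Group X] [Fintype J]
    [Fintype Ω] [Fintype Ω'] (y : A) (l : ℕ) (χ : X →* K) extends Yd K A X J Ω Ω' y l χ where
  w : A
  wy : y * w = w * y
  rw : toYd.RT w = 1
  np : ∀ a, IsNilpotent (toYd.TA a)

/-- a graded Frobenius system of `S` with a separating element -/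
structure SF (K S X Ω : Type) [Field K] [Ring S] [Algebra K S] [Group X] [Fintype X] [Fintype Ω]
    (G : GS K S X) where
  f : FS K S Ω
  sy : ∀ a b, f.lam (a * b) = f.lam (b * a)
  t1 : ∀ x s, x ≠ 1 → f.lam (G.c x s) = 0
  deg : Ω → X
  gb : ∀ o, G.c (deg o) (f.b o) = f.b o
  gb' : ∀ o, G.c (deg o)⁻¹ (f.b' o) = f.b' o
  w : S
  w1 : G.c 1 w = w
  sep : ∑ o, f.b o * w * f.b' o = 1

/-- the twisted truncated polynomial algebra `C = S[y; σ] / y^l`; `co k` is the `k`-th coefficient -/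
structure CC (K S C X : Type) [Field K] [Ring S] [Algebra K S] [Ring C] [Algebra K C] [Group X]
    [Fintype X] (G : GS K S X) (l : ℕ) (χ : X →* K) where
  i : S →ₐ[K] C
  y : C
  yl : y ^ l = 0
  ys : ∀ s, y * i s = i (G.sg χ s) * y
  co : ℕ → (C →ₗ[K] S)
  ex : ∀ c, ∑ k ∈ Finset.range l, i (co k c) * y ^ k = c
  un : ∀ (s : ℕ → S) (k : ℕ), k < l → co k (∑ j ∈ Finset.range l, i (s j) * y ^ j) = s k

/-- the Frobenius system of `S` which comes from the frame -/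
structure SFd {K A X S J Ω Ω' : Type} [Field K] [Ring A] [Algebra K A] [Group X] [Fintype X]
    [Ring S] [Algebra K S] [Fintype J] [Fintype Ω] [Fintype Ω'] {y : A} {l : ℕ} {χ : X →* K}
    (D : Yk K A X J Ω Ω' y l χ) (L : LS K A X S y l χ) extends SF K S X Ω L.toGS where
  ed : deg = D.deg
  eb : ∀ o, f.b o = L.p (D.deg o) ⟨D.g o, D.gy o⟩
  eb' : ∀ o h, f.b' o = L.p (D.deg o)⁻¹ ⟨D.g' o, h⟩
  el : ∀ x a, f.lam (L.p x a) = D.d.lam (y ^ (l - 1) * (a : A))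
  ew : ∀ h, w = L.p 1 ⟨D.w, h⟩

/-- a graded section `S → A` of the local algebra -/
structure Rho {K A X S : Type} [Field K] [Ring A] [Algebra K A] [Group X] [Fintype X]
    [Ring S] [Algebra K S] {y : A} {l : ℕ} {χ : X →* K} (L : LS K A X S y l χ) where
  r : S →ₐ[K] A
  rx : ∀ x s, r (L.c x s) ∈ Nx y χ x
  rp : ∀ x s, L.p x ⟨r (L.c x s), rx x s⟩ = L.c x s

/-- the subalgebra `C` of `A`, the form `t0` of `C`, and the unit `u` with `t_A | C = t0(u .)` -/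
structure CD {K A X S J Ω Ω' : Type} (C : Type) [Field K] [Ring A] [Algebra K A] [Group X]
    [Fintype X] [Ring S] [Algebra K S] [Fintype J] [Fintype Ω] [Fintype Ω'] [Ring C] [Algebra K C]
    {y : A} {l : ℕ} {χ : X →* K} {D : Yk K A X J Ω Ω' y l χ} {L : LS K A X S y l χ}
    (F : SFd D L) where
  Q : CC K S C X L.toGS l χ
  j : C →ₐ[K] A
  jy : j Q.y = y
  jx : ∀ x s, j (Q.i (L.c x s)) ∈ Nx y χ x
  jp : ∀ x s, L.p x ⟨j (Q.i (L.c x s)), jx x s⟩ = L.c x s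
  t0 : C →ₗ[K] K
  t0e : ∀ c, t0 c = F.f.lam (Q.co (l - 1) c)
  u : C
  u' : C
  uc : ∀ c, u * c = c * u
  uu : u * u' = 1
  ut : ∀ c, D.d.lam (j c) = t0 (u * c)

/-- the data for the first order theorem over a field of characteristic `0` (as `KL` of PFD/DefsD4,
with `w`, `np` in place of the units) -/
structure KM (K B A I J N : Type) [Field K] [Ring B] [Algebra K B] [Ring A] [Algebra K A]
    [Fintype I] [Fintype J] [Fintype N] where
  c : FS K B I
  cs : ∀ x y, c.lam (x * y) = c.lam (y * x)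
  sp : Split c A
  d : FS K A J
  ds : ∀ x y, d.lam (x * y) = d.lam (y * x)
  ort : ∀ x, d.lam x = c.lam (sp.pr x)
  s : RF K B A N sp.j sp.pr
  u : B
  u' : B
  uc : ∀ b, u * b = b * u
  uu : u * u' = 1
  v : B →ₗ[K] B
  vm : ∀ a b, v (a * b) = v a * b + a * v b
  wt : ℕ
  wp : 0 < wt
  tv : ∀ b, c.lam (u' * v b) = (wt : K) * c.lam (u' * b)
  nil : ∀ b, IsNilpotent (v b)
  w : A
  wc : ∀ b, sp.j b * w = w * sp.j b
  rw : s.rt w = 1
  np : ∀ a, IsNilpotent (∑ p, d.b p * a * d.b' p)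

section KM

variable {K B A I J N : Type} [Field K] [Ring B] [Algebra K B] [Ring A] [Algebra K A]
    [Fintype I] [Fintype J] [Fintype N]

/-- `∑ e_p a e_p'` -/
def KM.TA (D : KM K B A I J N) (a : A) : A := ∑ p, D.d.b p * a * D.d.b' p

/-- `∑ j(b_i) a j(b_i')` -/
def KM.TB (D : KM K B A I J N) (a : A) : A := ∑ i, D.sp.j (D.c.b i) * a * D.sp.j (D.c.b' i)

end KM

end Pool.Agent.PFE
end
end -- Pool.Agent.PFE.DefsE1

section -- Pool.Agent.PFE.StmtsE1

/-!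
# Squad PFE (theorem (R)), part E1: statements (helper3)

Result of this part (TPE): `dim Z(A) = dim Z(S) + (l-1)/|X| dim Z(S1)`, over a field of
characteristic `0`.  Conventions: `c = χ x`, `T_c = Tx y l c`, `λ = D.d.lam`, `e r`, `e' r` = `D.e r`,
`D.e' r` (`r` in `Ω ⊕ Ω' × Fin l`), `N_x = Nx y χ x`, `J_x = Jx y l χ x`.  A row is a theorem
`Pool.Agent.PFE.HNN.xxx : XxxStmt` with the statements of the column `uses` as hypotheses; any row may
take any other row as a hypothesis.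
-/

open scoped BigOperators

noncomputable section

namespace Pool.Agent.PFE

open Pool.Agent.PFC.B1 (FS Split)
open Pool.Agent.PFD (RF FotStmt)

/-! ## Rules -/

/-- TXR: rules for `N_x` and `T_c`.

Proof.  `n y = c' y n` with `c' = c ^ (l-2)`.. better: for `n ∈ N_x`, `y^j n = c^j n y^j`, hence
`n y^j = c^(l-1-j) y^j n` for `j < l` (multiply by `c^(l-1-j)`, `c^(l-1) = 1`).
(1) `y T_c(a) = ∑_(j<l-1) c^(l-1-j) y^(j+1) a y^(l-1-j)` (the term `j = l-1` has `y^l`),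
`c T_c(a) y = ∑_(j≥1) c^(l-j) y^j a y^(l-j)` (the term `j = 0` has `y^l`): the same sum.
(2) `n T_c'(a) = ∑ c'^(l-1-j) n y^j a y^(l-1-j) = ∑ (c c')^(l-1-j) y^j n a y^(l-1-j)`.
(3) `T_c'(a) n = ∑ c'^(l-1-j) y^j a y^(l-1-j) n`, `y^k n = c^k n y^k` with `k = l-1-j`.
(4) by definition. (5) `n ∈ N_x'`, `x ≠ x'`, `ρ = χ(x x'⁻¹)`: `n y^k = χ(x'⁻¹)^k y^k n`, so
`T_c(n) = ∑_(k<l) ρ^k y^(l-1) n`; `(1-ρ) ∑_(k<l-1) ρ^k = 1 - ρ^(l-1) = 0` and `1 - ρ` is a unit, so the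
sum is `ρ^(l-1) = 1`. (6) the same with `ρ = 1`. -/
def TxrStmt : Prop :=
  ∀ (R A X : Type) [CommRing R] [Ring A] [Algebra R A] [Group X] (y : A) (l : ℕ) (χ : X →* R),
    1 ≤ l → y ^ l = 0 → (∀ x, χ x ^ (l - 1) = 1) →
    (∀ x a, Tx y l (χ x) a ∈ Nx y χ x) ∧
    (∀ x x' n a, n ∈ Nx y χ x → n * Tx y l (χ x') a = Tx y l (χ (x * x')) (n * a)) ∧
    (∀ x x' n a, n ∈ Nx y χ x → Tx y l (χ x') a * n = Tx y l (χ (x' * x)) (a * n)) ∧
    (∀ (c : R) (a : A), y * Tx y l c a = Tx y l c (y * a) ∧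
      Tx y l c a * y = Tx y l c (a * y)) ∧
    (∀ x n, n ∈ Nx y χ x → y * n ∈ Nx y χ x ∧ n * y ∈ Nx y χ x ∧
      ∀ j, y ^ j * n = χ x ^ j • (n * y ^ j)) ∧
    (∀ x x' n, IsUnit (1 - χ (x * x'⁻¹)) → n ∈ Nx y χ x' → Tx y l (χ x) n = y ^ (l - 1) * n) ∧
    (∀ x n, n ∈ Nx y χ x → Tx y l (χ x) n = (l : R) • (y ^ (l - 1) * n))

/-- TXA: `Tx` is linear, and `J_x` is an ideal.

Proof.  (2) The set of the sums `T_c(a) + y n` is a submodule.  (3), (4) TXR; `n (y n') = χ(x)^(l-2)..`: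
`n y = χ(x⁻¹) y n`, so `n y n' = χ(x⁻¹) y (n n')` is `y` times an element of `N_(x x')`. -/
def TxaStmt : Prop :=
  ∀ (R A X : Type) [CommRing R] [Ring A] [Algebra R A] [Group X] (y : A) (l : ℕ) (χ : X →* R),
    1 ≤ l → y ^ l = 0 → (∀ x, χ x ^ (l - 1) = 1) →
    (∀ (c : R) (a b : A), Tx y l c (a + b) = Tx y l c a + Tx y l c b) ∧
    (∀ (c r : R) (a : A), Tx y l c (r • a) = r • Tx y l c a) ∧
    (∀ x b, b ∈ Jx y l χ x ↔ ∃ a, ∃ n ∈ Nx y χ x, b = Tx y l (χ x) a + y * n) ∧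
    (∀ x b, b ∈ Jx y l χ x → b ∈ Nx y χ x) ∧
    (∀ x x' n b, n ∈ Nx y χ x → b ∈ Jx y l χ x' → n * b ∈ Jx y l χ (x * x') ∧
      b * n ∈ Jx y l χ (x' * x))

/-- NFR: `N_x` in terms of the frame.

Proof.  (1) For `k ≥ 1`, `a ∈ N_x`, `c_o = χ(deg o)`:
`λ(g'_o y^k a) = λ(g'_o y^(k-1) (y a)) = c λ(g'_o y^(k-1) a y) = c λ(y g'_o y^(k-1) a)
= c c_o⁻¹ λ(g'_o y^k a)` (`c_o y g'_o = g'_o y`); `1 - χ(x (deg o)⁻¹)` is a unit.
(2) In `fr` for `a` the terms of `o` with `deg o ≠ x` are `λ(g'_o a) y^(l-1) g_o = T_c(λ(g'_o a) g_o)`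
(TXR (6)).  Free part: `a y^r = c^(-r) y^r a`, `c^(-(l-1-k)) = c^k`, so
`λ(h' y^(l-1-i) a y^(l-1-k)) = c^k λ(h' y^(2l-2-i-k) a)`, which is `0` unless `i + k ≥ l-1`; with
`s = i + k - (l-1)` the sum is `∑_s λ(h' y^(l-1-s) a) ∑_(k=s)^(l-1) c^k y^(l-1+s-k) h y^k` and the inner
sum is `c^s T_c(h y^s)` (`T_c(h) y^s = ∑_j c^(l-1-j) y^j h y^(l-1-j+s)`, terms with `j < s` vanish,
put `j = l-1+s-k`).
(3) The terms with `i ≥ 1` in (2) are in `y N_x`. -/
def NfrStmt : Prop :=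
  ∀ (R A X J Ω Ω' : Type) [CommRing R] [Ring A] [Algebra R A] [Group X] [DecidableEq X]
    [Fintype J] [Fintype Ω] [Fintype Ω'] (y : A) (l : ℕ) (χ : X →* R)
    (D : Yd R A X J Ω Ω' y l χ),
    (∀ x a, a ∈ Nx y χ x → ∀ o k, D.deg o ≠ x → 1 ≤ k → D.d.lam (D.g' o * y ^ k * a) = 0) ∧
    (∀ x a, a ∈ Nx y χ x → ∃ b, a = (∑ o, if D.deg o = x then ∑ i ∈ Finset.range l,
      D.d.lam (D.g' o * y ^ (l - 1 - i) * a) • (y ^ i * D.g o) else 0) + Tx y l (χ x) b) ∧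
    ∀ x a, a ∈ Nx y χ x → (a - ∑ o, if D.deg o = x then
      D.d.lam (D.g' o * y ^ (l - 1) * a) • D.g o else 0) ∈ Jx y l χ x

/-- STF: the form and the Frobenius system of the local algebra (over any `R`).

Proof.  `τ(p_x a) = λ(y^(l-1) a)`: well defined, since `λ(y^(l-1) y n) = 0`,
`λ(y^(l-1) T_c(b)) = ∑ c^(l-1-j) λ(y^(l-1+j) b y^(l-1-j)) = λ(y^(2l-2) b) = 0` (`l ≥ 2`); it is `0` for
`x ≠ 1`: `λ(y^(l-1) a) = c λ(y^(l-2) a y) = c λ(y^(l-1) a)`.  Define `τ` on `S` by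
`τ s = ∑_x τ(c_x s)`, each `c_x s = p_x a`.  Symmetric: `λ(y^(l-1) a b) = λ(b y^(l-1) a) =
λ(y^(l-1) b a)` (`c'^(l-1) = 1`).  `b o = p g_o`, `b' o = p g'_o`:
`τ(b'_o p_x a) = λ(y^(l-1) g'_o a) = λ(g'_o y^(l-1) a)` (`g'_o` has degree `(deg o)⁻¹`), which is `0` for
`deg o ≠ x` (NFR (1)); so `∑ τ(b'_o s) b_o = s` by NFR (3), i.e. `h1`.  `h2`: for
`z = ∑ τ(s b_o) b'_o - s` one has `τ(z b) = τ(s ∑ τ(b'_o b) b_o) - τ(s b) = 0` for all `b`, so
`z = ∑ τ(b'_o z) b_o = 0`. -/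
def StfStmt : Prop :=
  ∀ (R A X S J Ω Ω' : Type) [CommRing R] [Ring A] [Algebra R A] [Group X] [Fintype X]
    [Ring S] [Algebra R S] [Fintype J] [Fintype Ω] [Fintype Ω'] (y : A) (l : ℕ) (χ : X →* R)
    (D : Yd R A X J Ω Ω' y l χ) (L : LS R A X S y l χ),
    ∃ (f : FS R S Ω) (hg' : ∀ o, D.g' o ∈ Nx y χ (D.deg o)⁻¹),
      (∀ a b, f.lam (a * b) = f.lam (b * a)) ∧ (∀ x s, x ≠ 1 → f.lam (L.c x s) = 0) ∧
      (∀ o, f.b o = L.p (D.deg o) ⟨D.g o, D.gy o⟩) ∧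
      (∀ o, f.b' o = L.p (D.deg o)⁻¹ ⟨D.g' o, hg' o⟩) ∧
      ∀ x a, f.lam (L.p x a) = D.d.lam (y ^ (l - 1) * (a : A))

/-- RTK: the relative Frobenius system over `R[y]` and the relative trace.

Proof.  (1) `∑_r e_r pi(e'_r a)`: for `r = o`: `g_o y^i = c_o^(-i) y^i g_o`,
`λ(y^(l-1-i) g'_o a) = c_o^(-(l-1-i)) λ(g'_o y^(l-1-i) a) = c_o^i λ(..)`: the term is
`λ(g'_o y^(l-1-i) a) y^i g_o`; for `r = (o, i)`: `y^i h_o λ(y^(l-1-k) h'_o y^(l-1-i) a) y^k`; it is `fr`.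
(2) `λ(b ∑_r pi(a e_r) e'_r) = ∑_r ∑_i λ(y^(l-1-i) a e_r) λ(b y^i e'_r) =
λ(a ∑_r e_r pi(e'_r b)) = λ(a b) = λ(b a)` for all `b`, and `λ` is nondegenerate.
(3) `pi(a)` commutes with `a'` if `y` does.  `b RT(a) = ∑_r b e_r a e'_r = ∑_(r,r') e_r' pi(e'_r' b e_r)
a e'_r = ∑ e_r' a pi(e'_r' b e_r) e'_r = ∑_r' e_r' a e'_r' b`.
(4) clear.  (5) `a = ∑_(r,i) λ(y^(l-1-i) e'_r a) e_r y^i` by (1), so `e_r y^i`, `y^(l-1-i) e'_r` are dual
families for `λ` and `TA(a) = ∑_(r,i) e_r y^i a y^(l-1-i) e'_r = RT(T_1(a))`. -/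
def RtkStmt : Prop :=
  ∀ (R A X J Ω Ω' : Type) [CommRing R] [Ring A] [Algebra R A] [Group X] [Fintype J]
    [Fintype Ω] [Fintype Ω'] (y : A) (l : ℕ) (χ : X →* R) (D : Yd R A X J Ω Ω' y l χ),
    (∀ a, ∑ r, D.e r * D.pi (D.e' r * a) = a) ∧ (∀ a, ∑ r, D.pi (a * D.e r) * D.e' r = a) ∧
    (∀ a, y * a = a * y → ∀ b, b * D.RT a = D.RT a * b) ∧
    (∀ z a, (∀ b, z * b = b * z) → D.RT (z * a) = z * D.RT a) ∧
    (∀ a, D.RT (Tx y l (1 : R) a) = D.TA a) ∧ (∀ a, y * D.pi a = D.pi a * y) ∧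
    (∀ a, D.pi (y * a) = y * D.pi a) ∧ ∀ a, D.pi (a * y) = D.pi a * y

/-- SFE: the Frobenius system with a separating element over a field.

Proof.  STF; `w = p_1 w`: `1 = RT w = ∑_o g_o w g'_o + T_1(∑_o h_o w h'_o)` (`w` commutes with `y`);
apply `p_1`: `1 = ∑ b_o w b'_o` (`g_o w g'_o ∈ N_1`). -/
def SfeStmt : Prop :=
  ∀ (K A X S J Ω Ω' : Type) [Field K] [Ring A] [Algebra K A] [Group X] [Fintype X]
    [Ring S] [Algebra K S] [Fintype J] [Fintype Ω] [Fintype Ω'] (y : A) (l : ℕ) (χ : X →* K)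
    (D : Yk K A X J Ω Ω' y l χ) (L : LS K A X S y l χ), Nonempty (SFd D L)

/-! ## The idempotent -/

/-- IDF: the idempotent `f`.

Proof.  `N` = the centraliser of `y`, `I = T_1(A)`, a two-sided ideal of `N` (TXR with `x = 1`).
Choose an idempotent `e ∈ I` with `dim (e A)` maximal, `f = 1 - e`.  Every `x ∈ f I f` is nilpotent:
otherwise there is a polynomial without constant term with `e' = q(x) ≠ 0` idempotent (Fitting;
e.g. from `x^k = x^(2k) q(x)`), `e' ∈ f I f`, `e + e' ∈ I` is an idempotent and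
`dim ((e+e')A) > dim (e A)`.  The left ideal `I f` of `N` is nil: `(i f)^(k+1) = i (f i f)^k`.  `N` is
Artinian, so a nil left ideal is contained in the Jacobson radical, which is nilpotent: every product
of `M` elements of `f I f ⊂ I f` is `0`. -/
def IdfStmt : Prop :=
  ∀ (K A : Type) [Field K] [Ring A] [Algebra K A] [Module.Finite K A] (y : A) (l : ℕ),
    1 ≤ l → y ^ l = 0 → ∃ f : A, f * f = f ∧ y * f = f * y ∧ (∃ a, 1 - f = Tx y l (1 : K) a) ∧
      ∃ M : ℕ, ∀ a : ℕ → A,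
        ((List.range M).map fun i => f * Tx y l (1 : K) (a i) * f).prod = 0

/-- CRN: reduction to the corner `A' = f A f` (with the same local algebra `S`).

Proof.  `A'` = the corner with unit `f`, `κ` the inclusion, `y' = f y = y f`.  Frobenius system
`λ ∘ κ`, `f b_p f`, `f b'_p f`; frame `f g_o f`, `f g'_o f`, `f h_o f`, `f h'_o f` (for `a = f a f` multiply
`fr` by `f` on both sides, `λ(g' y^k f a f) = λ((f g' f) y^k a)`).  `RT'(x) = f RT(x)` for `x ∈ f A f`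
commuting with `y`.  `w = f w f + ` elements of the ideal `T_1(A)` of `N_1` (`1 - f = T_1(a)`), so
`RT(f w f) = 1 - TA(b)`, `TA(b)` central and nilpotent, `ζ` its central inverse, `w' = ζ f w f`.
`TA'(a) = f TA(a)` nilpotent.  `p'_x a = p_x(κ a)`: kernel: `κ a = f (T_c(b) + y n) f = T_c(f b f) +
y (f n f)`; surjective: `a - f a f ∈ J_x` (`1 - f ∈ J_1`). -/
def CrnStmt : Prop :=
  ∀ (K A X S J Ω Ω' : Type) [Field K] [Ring A] [Algebra K A] [Module.Finite K A] [Group X]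
    [Fintype X] [Ring S] [Algebra K S] [Fintype J] [Fintype Ω] [Fintype Ω'] (y : A) (l : ℕ)
    (χ : X →* K) (D : Yk K A X J Ω Ω' y l χ) (L : LS K A X S y l χ) (f : A), f * f = f →
    y * f = f * y → (∃ a, 1 - f = Tx y l (1 : K) a) →
    ∃ (A' : Type) (_ : Ring A') (_ : Algebra K A') (_ : Module.Finite K A') (κ : A' →ₗ[K] A)
      (y' : A') (_ : Yk K A' X J Ω Ω' y' l χ) (L' : LS K A' X S y' l χ),
      Function.Injective κ ∧ (∀ a b, κ (a * b) = κ a * κ b) ∧ κ 1 = f ∧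
      (∀ a, f * a * f = a → ∃ b, κ b = a) ∧ κ y' = y * f ∧ L'.toGS = L.toGS

/-- CZF: the centre of the corner.

Proof.  `RT(f w f)` is a unit (see CRN), so `1 = ∑_k a_k f b_k`.  `z ↦ z f` is a linear map from the
centre of `A` to the centre of the corner; injective: `z = ∑ a_k z f b_k`; surjective: for `z'` in the
centre of `f A f` put `z = ∑ a_k z' b_k`:
`a z = ∑_(k,l) a_l (f b_l a a_k f) z' b_k = ∑ a_l z' (f b_l a a_k f) b_k = z a` and
`z f = ∑ a_k z' (f b_k f) = ∑ a_k (f b_k f) z' = z'`. -/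
def CzfStmt : Prop :=
  ∀ (K A X J Ω Ω' A' : Type) [Field K] [Ring A] [Algebra K A] [Module.Finite K A] [Group X]
    [Fintype J] [Fintype Ω] [Fintype Ω'] (y : A) (l : ℕ)
    (χ : X →* K) (_ : Yk K A X J Ω Ω' y l χ) (f : A) [Ring A'] [Algebra K A']
    (κ : A' →ₗ[K] A), f * f = f → y * f = f * y → (∃ a, 1 - f = Tx y l (1 : K) a) →
    Function.Injective κ → (∀ a b, κ (a * b) = κ a * κ b) → κ 1 = f →
    (∀ a, f * a * f = a → ∃ b, κ b = a) →
    Module.finrank K (Subalgebra.center K A) = Module.finrank K (Subalgebra.center K A')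

/-- NIL: the homogeneous ideal is nilpotent.

Proof.  Let `M` be as in the hypothesis, `m = |X|`.  A product of `m M` elements `t_1 t_2 ...`,
`t_i = T_(χ x_i)(a_i)`: among the `m M + 1` partial products `x_1 ... x_i` (`i = 0 .. m M`) at least
`M + 1` are equal, `i_0 < ... < i_M`; the blocks `t_(i_k + 1) ... t_(i_(k+1))` have degree `1`, so they are
of the form `T_1(b)` (TXR), and their product is `0`.  In general a factor is `T(a_i) + y n_i`; expand a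
product of `l (m M + 1)` factors: a term with at least `l` factors `y n_i` is a multiple of `y^l`
(`n y = χ(x⁻¹) y n`); otherwise there are `m M` consecutive factors `T(a_i)`. -/
def NilStmt : Prop :=
  ∀ (K A X : Type) [Field K] [Ring A] [Algebra K A] [Group X] [Fintype X] (y : A) (l : ℕ)
    (χ : X →* K), 1 ≤ l → y ^ l = 0 → (∀ x, χ x ^ (l - 1) = 1) →
    (∃ M : ℕ, ∀ a : ℕ → A, ((List.range M).map fun i => Tx y l (1 : K) (a i)).prod = 0) →
    ∃ M : ℕ, JP y l χ M = ⊥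

/-- JPR: rules for `JP`.

Proof.  Products of lists; `n b ∈ J` for homogeneous `n ∈ N_x`, `b ∈ J_x'` (TXA). -/
def JprStmt : Prop :=
  ∀ (K A X : Type) [Field K] [Ring A] [Algebra K A] [Group X] [Fintype X] (y : A) (l : ℕ)
    (χ : X →* K), 1 ≤ l → y ^ l = 0 → (∀ x, χ x ^ (l - 1) = 1) →
    (∀ x b, b ∈ Jx y l χ x → b ∈ JP y l χ 1) ∧
    (∀ m n a b, a ∈ JP y l χ m → b ∈ JP y l χ n → a * b ∈ JP y l χ (m + n)) ∧
    (∀ n x a b, 1 ≤ n → a ∈ Nx y χ x → b ∈ JP y l χ n → a * b ∈ JP y l χ n) ∧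
    ∀ m n, m ≤ n → JP y l χ m = ⊥ → JP y l χ n = ⊥

/-! ## The section -/

/-- LSC: a graded linear section with `1 ↦ 1`.

Proof.  `σ_x` = a linear section of `p_x : N_x → S_x` (`S_x` = the image of `c x`, `ps`, `pc`),
`ρ' s = ∑_x σ_x (c_x s)`.  `δ = 1 - ρ' 1 ∈ J_1` (`p_1(ρ' 1) = c_1 1 = 1`) is nilpotent, `v = ∑ δ^k`
is the inverse of `ρ' 1`, `v ∈ N_1`, `p_1 v = 1` (`v - 1 ∈ J_1`).  `ρ s = ρ' s * v`. -/
def LscStmt : Prop :=
  ∀ (K A X S : Type) [Field K] [Ring A] [Algebra K A] [Group X] [Fintype X] [Ring S]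
    [Algebra K S] (y : A) (l : ℕ) (χ : X →* K) (L : LS K A X S y l χ), 1 ≤ l → y ^ l = 0 →
    (∀ x, χ x ^ (l - 1) = 1) → (∃ M, JP y l χ M = ⊥) →
    ∃ ρ : S →ₗ[K] A, ρ 1 = 1 ∧ ∃ h : ∀ x s, ρ (L.c x s) ∈ Nx y χ x,
      ∀ x s, L.p x ⟨ρ (L.c x s), h x s⟩ = L.c x s

/-- NWS: the Newton step for algebra homomorphisms.

Proof.  `D(a,b) = ρ(ab) - ρ(a)ρ(b)`, `θ(a) = ∑_k ρ(u_k) D(v_k, a)`, `ψ = ρ + θ`.
`D(a,1) = 0`, so `ψ 1 = 1`; `θ(a) ∈ P`.
Identity (cocycle): `ρ(a)D(b,c) + D(a,bc) - D(ab,c) - D(a,b)ρ(c) = 0`.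
`θ(ab) - θ(a)ρ(b) = ∑ ρ(u_k)(D(v_k,ab) - D(v_k,a)ρ(b)) = ∑ ρ(u_k)(D(v_k a,b) - ρ(v_k)D(a,b))`;
`∑ ρ(u_k)D(v_k a,b) = ∑ ρ(a u_k)D(v_k,b)` (hypothesis, with the bilinear map `(s,t) ↦ ρ(s)D(t,b)`)
`= ρ(a)θ(b) + ∑ D(a,u_k)D(v_k,b)`; `∑ ρ(u_k)ρ(v_k) = 1 - ∑ D(u_k,v_k)`.  So
`ψ(ab) - ψ(a)ψ(b) = ∑ D(a,u_k)D(v_k,b) + ∑ D(u_k,v_k) D(a,b) - θ(a)θ(b) ∈ Q`. -/
def NwsStmt : Prop :=
  ∀ (K A S κ : Type) [Field K] [Ring A] [Algebra K A] [Ring S] [Algebra K S] [Fintype κ]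
    (u v : κ → S) (P Q : Submodule K A) (ρ : S →ₗ[K] A),
    ∑ k, u k * v k = 1 →
    (∀ B : S →ₗ[K] S →ₗ[K] A, ∀ a, ∑ k, B (u k) (v k * a) = ∑ k, B (a * u k) (v k)) →
    ρ 1 = 1 → (∀ a b, ρ (a * b) - ρ a * ρ b ∈ P) → (∀ a p, p ∈ P → ρ a * p ∈ P) →
    (∀ p q, p ∈ P → q ∈ P → p * q ∈ Q) →
    ∃ ψ : S →ₗ[K] A, (∀ a, ψ a = ρ a + ∑ k, ρ (u k) * (ρ (v k * a) - ρ (v k) * ρ a)) ∧
      ψ 1 = 1 ∧ ∀ a b, ψ (a * b) - ψ a * ψ b ∈ Q

/-- RHO: the section.

Proof.  Start with LSC; `D(a,b) ∈ JP 1`: for homogeneous `a, b` `p` of it is `0`.  Newton steps (NWS)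
with `u_o = b_o w`, `v_o = b'_o` (`F.f`, `F.w`; the hypothesis on `B` from `h1`, `h2`, `sep`), `P = JP (2^n)`,
`Q = JP (2^(n+1))` (JPR).  `ψ` is graded: for `a` of degree `x` the element `D(v_o, a)` is in
`J_((deg o)⁻¹ x)` and `ρ(u_o) ∈ N_(deg o)`; so `ψ(c_x s) - ρ(c_x s) ∈ J_x` and `p_x` does not change.
For `2^n ≥ M` the map is multiplicative. -/
def RhoStmt : Prop :=
  ∀ (K A X S J Ω Ω' : Type) [Field K] [Ring A] [Algebra K A] [Group X] [Fintype X]
    [Ring S] [Algebra K S] [Fintype J] [Fintype Ω] [Fintype Ω'] (y : A) (l : ℕ) (χ : X →* K)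
    (D : Yk K A X J Ω Ω' y l χ) (L : LS K A X S y l χ) (_ : SFd D L), (∃ M, JP y l χ M = ⊥) →
    Nonempty (Rho L)

/-! ## The algebra `C` -/

/-- CCE: the algebra `C = S[y; σ]/y^l` and its embedding.

Proof.  `C` = the set of the `∑_(k<l) ρ(s_k) y^k`, a subalgebra of `A` (`y ρ(s) = ρ(σ s) y`).
Uniqueness: if `∑ ρ(s_k) y^k = 0` and `k0` is the first index with `s_k0 ≠ 0`, multiply by
`y^(l-1-k0)`: `ρ(s_k0) y^(l-1) = 0`, so `τ(s s_k0) = λ(y^(l-1) ρ(s) ρ(s_k0)) = λ(ρ(s_k0) y^(l-1) ρ(s)) = 0`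
for all `s` (`τ(t) = λ(y^(l-1) ρ(t))` by `el`, `rp`, for all `t`), and `s_k0 = 0` by `h1`. -/
def CceStmt : Prop :=
  ∀ (K A X S J Ω Ω' : Type) [Field K] [Ring A] [Algebra K A] [Module.Finite K A] [Group X]
    [Fintype X] [Ring S] [Algebra K S] [Fintype J] [Fintype Ω] [Fintype Ω'] (y : A) (l : ℕ)
    (χ : X →* K) (D : Yk K A X J Ω Ω' y l χ) (L : LS K A X S y l χ) (_ : SFd D L)
    (ρ : Rho L),
    ∃ (C : Type) (_ : Ring C) (_ : Algebra K C) (_ : Module.Finite K C)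
      (Q : CC K S C X L.toGS l χ) (j : C →ₐ[K] A), Function.Injective j ∧ j Q.y = y ∧
      ∀ s, j (Q.i s) = ρ.r s

/-- SGR: rules for `σ`.

Proof.  `σ(s) = ∑ χ(x) c_x s`; multiplicative on homogeneous elements; `σ^(l-1) = 1`;
`τ ∘ σ = τ` (`τ` is `0` in degrees `≠ 1`); dual families go to dual families. -/
def SgrStmt : Prop :=
  ∀ (K S X Ω : Type) [Field K] [Ring S] [Algebra K S] [Group X] [Fintype X] [Fintype Ω]
    (G : GS K S X) (F : SF K S X Ω G) (l : ℕ) (χ : X →* K), (∀ x, χ x ^ (l - 1) = 1) →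
    (∀ a b, G.sg χ (a * b) = G.sg χ a * G.sg χ b) ∧ G.sg χ 1 = 1 ∧
    (∀ a, (G.sg χ ^ (l - 1)) a = a) ∧ (∀ a, F.f.lam (G.sg χ a) = F.f.lam a) ∧
    (∀ x s, G.sg χ (G.c x s) = χ x • G.c x s) ∧
    (∀ k s, ∑ o, F.f.lam ((G.sg χ ^ k) (F.f.b' o) * s) • (G.sg χ ^ k) (F.f.b o) = s) ∧
    ∀ k s, ∑ o, F.f.lam (s * (G.sg χ ^ k) (F.f.b o)) • (G.sg χ ^ k) (F.f.b' o) = s

/-- CFS: the form `t0(i(s) y^k) = δ_(k,l-1) τ(s)` of `C`, its dual families, and the Euler
derivation.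

Proof.  `y^k i(s) = i(σ^k s) y^k`.  Symmetric: for `k + k' = l-1`: `τ(s σ^k(s')) =
τ(σ^k(s') s) = τ(σ^(l-1)(s') σ^(k')(s)) = τ(s' σ^k'(s))`; otherwise both sides are `0` (for
`k + k' < l-1` not the top coefficient, for `k + k' ≥ l` zero).  `h1`: for `c = i(s) y^j`:
`y^(l-1-k) i(b'_o) i(s) y^j = i(σ^(l-1-k)(b'_o s)) y^(l-1-k+j)`, so `t0` of it is `δ_(jk) τ(b'_o s)`.
`h2` with SGR.  `v(i(s) y^k) = k i(s) y^k`; `(i(s)y^k)(i(s')y^k') = i(s σ^k s') y^(k+k')`;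
`v(c)` is a combination of elements `i(s) y^k`, `k ≥ 1`, and a product of `l` such elements is `0`. -/
def CfsStmt : Prop :=
  ∀ (K S C X Ω : Type) [Field K] [Ring S] [Algebra K S] [Ring C] [Algebra K C] [Group X]
    [Fintype X] [Fintype Ω] (G : GS K S X) (F : SF K S X Ω G) (l : ℕ) (χ : X →* K)
    (Q : CC K S C X G l χ), 2 ≤ l → (∀ x, χ x ^ (l - 1) = 1) →
    ∃ (c : FS K C (Ω × Fin l)) (v : C →ₗ[K] C), (∀ a, c.lam a = F.f.lam (Q.co (l - 1) a)) ∧
      (∀ p, c.b p = Q.i (F.f.b p.1) * Q.y ^ (p.2 : ℕ)) ∧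
      (∀ p, c.b' p = Q.y ^ (l - 1 - (p.2 : ℕ)) * Q.i (F.f.b' p.1)) ∧
      (∀ a b, c.lam (a * b) = c.lam (b * a)) ∧
      (∀ a b, v (a * b) = v a * b + a * v b) ∧ (∀ a, IsNilpotent (v a)) ∧
      ∀ a, c.lam (v a) = ((l - 1 : ℕ) : K) * c.lam a

/-- CFU: the unit `u` (gives `CD`).

Proof.  `t0` is the form of CFS (`c`).  `t(c) = λ(j c)` is symmetric: `t(c) = t0(u c)` with
`u = ∑ t(b_p) b'_p` central (as in PFD LCU).  `t` is nondegenerate: if `t(c b) = 0` for all `b`, write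
`c = ∑ i(s_k) y^k`, `k0` the first index with `s_k0 ≠ 0`, `b = y^(l-1-k0) i(s)`:
`0 = λ(ρ(s_k0) y^(l-1) ρ(s)) = λ(y^(l-1) ρ(s) ρ(s_k0)) = τ(s s_k0)`, so `s_k0 = 0`.  So `u b = 0` implies
`t(b c) = 0` for all `c`, `b = 0`; `C` is finite-dimensional: `u` is a unit.  `jp` from `rp`. -/
def CfuStmt : Prop :=
  ∀ (K A X S J Ω Ω' C : Type) [Field K] [Ring A] [Algebra K A] [Group X]
    [Fintype X] [Ring S] [Algebra K S] [Fintype J] [Fintype Ω] [Fintype Ω'] [Ring C]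
    [Algebra K C] [Module.Finite K C] (y : A) (l : ℕ)
    (χ : X →* K) (D : Yk K A X J Ω Ω' y l χ) (L : LS K A X S y l χ) (F : SFd D L)
    (ρ : Rho L) (Q : CC K S C X L.toGS l χ) (j : C →ₐ[K] A), Function.Injective j →
    j Q.y = y → (∀ s, j (Q.i s) = ρ.r s) → ∃ E : CD C F, E.j = j

/-- CUF: the Frobenius system of `C` for the form `λ ∘ j`.

Proof.  CFS with `b' ↦ u' b'` (`u`, `u'` central, `λ(j c) = t0(u c)`). -/
def CufStmt : Prop :=
  ∀ (K A X S J Ω Ω' C : Type) [Field K] [Ring A] [Algebra K A] [Group X]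
    [Fintype X] [Ring S] [Algebra K S] [Fintype J] [Fintype Ω] [Fintype Ω'] [Ring C]
    [Algebra K C] (y : A) (l : ℕ) (χ : X →* K) (D : Yk K A X J Ω Ω' y l χ)
    (L : LS K A X S y l χ) (F : SFd D L) (E : CD C F),
    (∀ c, E.u' * c = c * E.u') ∧ E.u' * E.u = 1 ∧
    ∃ c : FS K C (Ω × Fin l), (∀ a, c.lam a = D.d.lam (E.j a)) ∧
      (∀ p, c.b p = E.Q.i (F.f.b p.1) * E.Q.y ^ (p.2 : ℕ)) ∧
      (∀ p, c.b' p = E.u' * (E.Q.y ^ (l - 1 - (p.2 : ℕ)) * E.Q.i (F.f.b' p.1))) ∧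
      ∀ a b, c.lam (a * b) = c.lam (b * a)

/-- PRJ: the orthogonal projection.

Proof.  `pr a = ∑_p λ(j(b'_p) a) b_p` with CUF.  `λ(j(pr a) j(c)) = λ(a j(c))` for all `c`
(`h2` and symmetry), and elements of `C` are determined by the values `λ(j(.) j(c))`. -/
def PrjStmt : Prop :=
  ∀ (K A X S J Ω Ω' C : Type) [Field K] [Ring A] [Algebra K A] [Group X]
    [Fintype X] [Ring S] [Algebra K S] [Fintype J] [Fintype Ω] [Fintype Ω'] [Ring C]
    [Algebra K C] (y : A) (l : ℕ) (χ : X →* K) (D : Yk K A X J Ω Ω' y l χ)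
    (L : LS K A X S y l χ) (F : SFd D L) (E : CD C F),
    ∃ pr : A →ₗ[K] C, (∀ c, pr (E.j c) = c) ∧ (∀ c a, pr (E.j c * a) = c * pr a) ∧
      (∀ a c, pr (a * E.j c) = pr a * c) ∧ ∀ a, D.d.lam (E.j (pr a)) = D.d.lam a

/-- KNX: the kernel of the projection in `N_x`.

Proof.  `q a = a - j(pr a)`, a bimodule map for `y`.  Claim: `N_x = ∑_k y^k ρ(S_x) + T_c(A)`,
`ρ = j i`.  By NFR (2) `a ∈ N_x` is `∑ (scalar) y^i g_o + T_c(b)` (`deg o = x`), and
`g_o - ρ(p g_o) ∈ J_x` (`p_x` of it is `0`) `= T_c(b) + y n`; iterate `l` times (`y T_c(b) = T_c(y b)`,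
`y^l = 0`).  `q` kills `y^k ρ(S_x)` and `q T_c(b) = T_c(q b)`. -/
def KnxStmt : Prop :=
  ∀ (K A X S J Ω Ω' C : Type) [Field K] [Ring A] [Algebra K A] [Group X]
    [Fintype X] [Ring S] [Algebra K S] [Fintype J] [Fintype Ω] [Fintype Ω'] [Ring C]
    [Algebra K C] (y : A) (l : ℕ) (χ : X →* K) (D : Yk K A X J Ω Ω' y l χ)
    (L : LS K A X S y l χ) (F : SFd D L) (E : CD C F) (pr : A →ₗ[K] C),
    (∀ c, pr (E.j c) = c) → (∀ c a, pr (E.j c * a) = c * pr a) →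
    (∀ a c, pr (a * E.j c) = pr a * c) →
    ∀ x a, a ∈ Nx y χ x → ∃ b, a - E.j (pr a) = Tx y l (χ x) b

/-- TWT: `q = 1 - j pr` is a two-sided trace over `K[y]`.

Proof.  Apply `q` (a bimodule map over `K[y]`) to `fr`.  KNX: `q g_o = T_(c_o)(x_o)`.  Free part:
`y^i q(h_o) y^k λ(h'_o (y^(l-1-i) a y^(l-1-k)))`.  Twisted part:
`∑_(i,k) λ(g'_o y^(l-1-i) a y^(l-1-k)) y^i x_o y^k`, where
`λ(g' y^(l-1-i) a y^(l-1-k)) = λ(y^(l-1-k) g' y^(l-1-i) a) = c_o^k λ(g' y^(2l-2-i-k) a)`; with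
`k = l-1-k'`, `i = j + k'` (the terms with `i < k'` vanish) it is
`∑_(j,k') λ(g' y^(l-1-j) a) y^j c_o^(l-1-k') y^k' x_o y^(l-1-k') = ∑_j λ(g' y^(l-1-j) a) y^j T_(c_o)(x_o)`,
the twisted part of `q(fr)`.  `ψ a = ∑_o λ(g'_o a) x_o + ∑_o λ(h'_o a) q(h_o)`. -/
def TwtStmt : Prop :=
  ∀ (K A X S J Ω Ω' C : Type) [Field K] [Ring A] [Algebra K A] [Group X]
    [Fintype X] [Ring S] [Algebra K S] [Fintype J] [Fintype Ω] [Fintype Ω'] [Ring C]
    [Algebra K C] (y : A) (l : ℕ) (χ : X →* K) (D : Yk K A X J Ω Ω' y l χ)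
    (L : LS K A X S y l χ) (F : SFd D L) (E : CD C F) (pr : A →ₗ[K] C),
    (∀ c, pr (E.j c) = c) → (∀ c a, pr (E.j c * a) = c * pr a) →
    (∀ a c, pr (a * E.j c) = pr a * c) →
    ∃ ψ : A →ₗ[K] A, ∀ a, a - E.j (pr a) = ∑ i ∈ Finset.range l, ∑ k ∈ Finset.range l,
      y ^ i * ψ (y ^ (l - 1 - i) * a * y ^ (l - 1 - k)) * y ^ k

/-- SPC: `A` splits over `C` with a projective complement.

Proof.  CUF, PRJ, TWT.  `q` is a `C`-bimodule map and `∑_o ρ(b_o) ρ(w) ρ(b'_o) = 1`, so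
`q(x) = ∑_(o,o') ρ(b_o) ρ(w) q(ρ(b'_o) x ρ(b_o') ρ(w)) ρ(b'_o')`; insert TWT, `ρ(w)` commutes with `y`:
`= ∑ ρ(b_o) y^i ψ'(y^(l-1-i) ρ(b'_o) x ρ(b_o') y^(l-1-k)) y^k ρ(b'_o')`, `ψ'(z) = ρ(w) ψ(z ρ(w))`, i.e.
`∑_(p,p') B_p ψ'(B'_p x B_p') B'_p'` for the dual families of CFS (`p' = (o', l-1-k)`).  With
`b' = u' B'`, `a(z) = ψ'(j(u) z) j(u)` it is `∑ b_p a(b'_p x b_p') b'_p'`. -/
def SpcStmt : Prop :=
  ∀ (K A X S J Ω Ω' C : Type) [Field K] [Ring A] [Algebra K A] [Group X]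
    [Fintype X] [Ring S] [Algebra K S] [Fintype J] [Fintype Ω] [Fintype Ω'] [Ring C]
    [Algebra K C] (y : A) (l : ℕ) (χ : X →* K) (D : Yk K A X J Ω Ω' y l χ)
    (L : LS K A X S y l χ) (F : SFd D L) (E : CD C F),
    ∃ (c : FS K C (Ω × Fin l)) (sp : Split c A), (∀ a, c.lam a = D.d.lam (E.j a)) ∧
      sp.j = E.j ∧ (∀ a, D.d.lam (E.j (sp.pr a)) = D.d.lam a)

/-- RFC: the relative Frobenius system of `A` over `C` and the separating element.

Proof.  `G_o = i(b_o)`, `G'_o = u' i(b'_o)` in `C`, `q = u i(w)`.  For `c` in `C`: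
`pi(j c) = π0(u c)`, `π0(i(s) y^k) = τ(s) y^k`, and `∑_o pi(j(c G_o)) G'_o = c`,
`∑_o G_o pi(j(G'_o c)) = c` (SGR: `c = i(s) y^k`, `u c i(b_o) = i(s σ^k(b_o)) y^k`, ...), where `pi(..)` is
in the span of the powers of `y`; `pi(j(pr a)) = pi(a)`.  `x_r = e_r j(q)`, `y_r = e'_r`:
`∑_r e_r j(q) j(pr(e'_r a)) = ∑_(r,o) e_r q pi(e'_r a G_o) G'_o = ∑_o (∑_r e_r pi(e'_r a G_o)) q G'_o =
a ∑_o G_o q G'_o = a` (`q` commutes with `y`; `∑ G_o q G'_o = i(∑ b_o w b'_o) = 1`).  `e2` in the same way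
with `pi(b q) = pi(q b)`.
Separating element: `w' = ∑_o j(G_o) w j(G'_o)`; it commutes with `j C` (`c G_o = ∑_o' G_o' pi(G'_o' c G_o)`);
`∑_r e_r q w' e'_r = ∑_(r,o) e_r q G_o w G'_o e'_r`, insert `G'_o e'_r = ∑_r' pi(G'_o e'_r e_r') e'_r'` (RTK (2)):
`= ∑_(r,r') e_r q j(pr(e'_r e_r')) w e'_r' = ∑_r' e_r' w e'_r' = RT w = 1`. -/
def RfcStmt : Prop :=
  ∀ (K A X S J Ω Ω' C : Type) [Field K] [Ring A] [Algebra K A] [Group X]
    [Fintype X] [Ring S] [Algebra K S] [Fintype J] [Fintype Ω] [Fintype Ω'] [Ring C]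
    [Algebra K C] (y : A) (l : ℕ) (χ : X →* K) (D : Yk K A X J Ω Ω' y l χ)
    (L : LS K A X S y l χ) (F : SFd D L) (E : CD C F) (pr : A →ₗ[K] C),
    (∀ c, pr (E.j c) = c) → (∀ c a, pr (E.j c * a) = c * pr a) →
    (∀ a c, pr (a * E.j c) = pr a * c) → (∀ a, D.d.lam (E.j (pr a)) = D.d.lam a) →
    ∃ s : RF K C A (Ω ⊕ (Ω' × Fin l)) E.j pr, ∃ w : A, (∀ c, E.j c * w = w * E.j c) ∧
      s.rt w = 1

/-- KMX: the data `KM`.

Proof.  SPC (`c`, `sp`), RFC for `sp.pr` (transport along `sp.j = E.j`), `d`, `ds`, `np` of `D`,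
`ort`, `v` from CFS, `wt = l - 1`, `c.lam (u' b) = t0 b`. -/
def KmxStmt : Prop :=
  ∀ (K A X S J Ω Ω' C : Type) [Field K] [Ring A] [Algebra K A] [Group X]
    [Fintype X] [Ring S] [Algebra K S] [Fintype J] [Fintype Ω] [Fintype Ω'] [Ring C]
    [Algebra K C] (y : A) (l : ℕ) (χ : X →* K) (D : Yk K A X J Ω Ω' y l χ)
    (L : LS K A X S y l χ) (F : SFd D L) (_ : CD C F),
    Nonempty (KM K C A (Ω × Fin l) J (Ω ⊕ (Ω' × Fin l)))

/-! ## The first order theorem with a separating element -/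

/-- KCR: `rt s - s` is a trace from `1` to `B` (proof of PFD CRS). -/
def KcrStmt : Prop :=
  ∀ (K B A I J N : Type) [Field K] [Ring B] [Algebra K B] [Ring A] [Algebra K A] [Fintype I]
    [Fintype J] [Fintype N] (D : KM K B A I J N) (s : A),
    (∀ b, D.sp.j b * s = s * D.sp.j b) →
    ∃ t : A, D.s.rt s = s + D.TB t

/-- KTT: transitivity of the trace, and the rules of `TB` (proof of PFD TTR). -/
def KttStmt : Prop :=
  ∀ (K B A I J N : Type) [Field K] [Ring B] [Algebra K B] [Ring A] [Algebra K A] [Fintype I]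
    [Fintype J] [Fintype N] (D : KM K B A I J N),
    (∀ a, D.s.rt (D.TB a) = D.TA a) ∧ (∀ a b, D.sp.j b * D.TB a = D.TB a * D.sp.j b) ∧
    (∀ a z, (∀ b, D.sp.j b * z = z * D.sp.j b) → z * D.TB a = D.TB (z * a) ∧
      D.TB a * z = D.TB (a * z)) ∧
    (∀ a z, (∀ b, b * z = z * b) → z * D.TA a = D.TA (z * a)) ∧
    (∀ a z, z * D.TA a = D.TA a * z)

/-- KZT: the divergence.

Proof.  As PFD ZET (`Helper3_PFD/ZET.lean`) up to `ζ ^ M = TB t'`, `ζ` central; then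
`ζ ^ M = ζ ^ M * rt w = rt (TB t' * w) = rt (TB (t' w)) = TA (t' w)`, nilpotent by `np`. -/
def KztStmt : Prop :=
  ∀ (K B A I J N : Type) [Field K] [Ring B] [Algebra K B] [Ring A] [Algebra K A] [Fintype I]
    [Fintype J] [Fintype N] (D : KM K B A I J N),
    ∃ (De ν : B), De = ν - algebraMap K B (D.wt : K) ∧ IsNilpotent ν ∧ (∀ b, ν * b = b * ν) ∧
      (∀ a, D.c.lam (D.v a) = - D.c.lam (a * De)) ∧
      (∀ a, a * D.s.rt (D.sp.j De) = D.s.rt (D.sp.j De) * a) ∧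
      IsNilpotent (D.s.rt (D.sp.j De) + algebraMap K A (D.wt : K))

/-- KKL: equality of the dimensions of the centres (proof of PFD KLT with KZT and `FotStmt`). -/
def KklStmt : Prop :=
  ∀ (K B A I J N : Type) [Field K] [CharZero K] [Ring B] [Algebra K B]
    [Module.Finite K B] [Ring A] [Algebra K A] [Module.Finite K A]
    [Fintype I] [Fintype J] [Fintype N] (_ : KM K B A I J N),
    Module.finrank K (Subalgebra.center K A) = Module.finrank K (Subalgebra.center K B)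

/-! ## The centre of `C` -/

/-- ZCB: the centre of `C` in terms of `S`.

Proof.  `c = ∑ i(s_k) y^k` commutes with `y` iff `σ s_k = s_k` for `k ≤ l-2`, i.e. `s_k ∈ S1`
(`χ x ≠ 1` for `x ≠ 1`); it commutes with `i(s)` iff `s s_k = s_k σ^k(s)`; for `k = l-1`: `σ^(l-1) = 1`.
So the centre is isomorphic to `Z(S) × ∏_(k<l-1) Z_k`, `Z_k` the space below. -/
def ZcbStmt : Prop :=
  ∀ (K S C X : Type) [Field K] [Ring S] [Algebra K S] [Module.Finite K S] [Ring C]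
    [Algebra K C] [Group X] [Fintype X] (G : GS K S X) (l : ℕ) (χ : X →* K)
    (_ : CC K S C X G l χ), 2 ≤ l → (∀ x, χ x ^ (l - 1) = 1) →
    (∀ x, x ≠ 1 → IsUnit (1 - χ x)) →
    ∃ Z : ℕ → Submodule K S,
      (∀ k s, s ∈ Z k ↔ G.c 1 s = s ∧ ∀ x t, G.c x t * s = χ x ^ k • (s * G.c x t)) ∧
      Module.finrank K (Subalgebra.center K C) =
        Module.finrank K (Subalgebra.center K S) +
          ∑ k ∈ Finset.range (l - 1), Module.finrank K (Z k)

/-- ZCS: the sum of the eigenspaces.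

Proof.  `Z_0' = Z(S1)` (as a subspace of `S`).  `X` acts on `Z(S1)` by `x · s = g_x s g_x⁻¹` (`g_x` a
homogeneous unit of degree `x`; independent of the choice, since two choices differ by an element of
`S1`).  `Z_k = {s ∈ Z(S1) : x · s = χ(x)^k s}`.  `X` is cyclic (`χ` is injective, a finite subgroup of
`Kˣ`) and the characters of `X` are the `χ^k`, `0 ≤ k < |X|`, `|X|` divides `l - 1`, `|X| ≠ 0` in `K`:
`Z(S1) = ⊕_(k<|X|) Z_k` (projections `|X|⁻¹ ∑_x χ(x)^(-k) x·`), and `Z_(k+|X|) = Z_k`. -/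
def ZcsStmt : Prop :=
  ∀ (K S X : Type) [Field K] [CharZero K] [Ring S] [Algebra K S] [Module.Finite K S] [Group X]
    [Fintype X] (G : GS K S X) (l : ℕ) (χ : X →* K), 2 ≤ l → (∀ x, χ x ^ (l - 1) = 1) →
    (∀ x, x ≠ 1 → IsUnit (1 - χ x)) →
    (∀ x, ∃ g g' : S, G.c x g = g ∧ g * g' = 1 ∧ g' * g = 1) →
    ∀ Z : ℕ → Submodule K S,
      (∀ k s, s ∈ Z k ↔ G.c 1 s = s ∧ ∀ x t, G.c x t * s = χ x ^ k • (s * G.c x t)) →
      ∑ k ∈ Finset.range (l - 1), Module.finrank K (Z k) =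
        (l - 1) / Fintype.card X * Module.finrank K (Subalgebra.center K G.S1)

/-- TPE: TOP of E1.

Proof.  IDF: `f`.  CRN: `A'`, CZF.  `JP y' l χ M = ⊥` for some `M`: NIL, with `κ (T'_1(a)) =
f T_1(κ a) f` (IDF).  SFE, RHO, CCE, CFU, KMX, KKL for `A'`: `dim Z(A') = dim Z(C)`.  ZCB, ZCS. -/
def TpeStmt : Prop :=
  ∀ (K A X S J Ω Ω' : Type) [Field K] [CharZero K] [Ring A] [Algebra K A] [Module.Finite K A]
    [Group X] [Fintype X] [Ring S] [Algebra K S] [Module.Finite K S] [Fintype J] [Fintype Ω]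
    [Fintype Ω'] (y : A) (l : ℕ) (χ : X →* K) (_ : Yk K A X J Ω Ω' y l χ)
    (L : LS K A X S y l χ),
    (∀ x, ∃ g g' : S, L.c x g = g ∧ g * g' = 1 ∧ g' * g = 1) →
    Module.finrank K (Subalgebra.center K A) =
      Module.finrank K (Subalgebra.center K S) +
        (l - 1) / Fintype.card X * Module.finrank K (Subalgebra.center K L.toGS.S1)

end Pool.Agent.PFE
end
end -- Pool.Agent.PFE.StmtsE1

section -- Pool.Agent.Helper10_PFE.RFC

/-!
# Squad PFE, row RFC: the relative Frobenius system of `A` over `C` and the separating element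
-/

open scoped BigOperators

namespace Pool.Agent.PFE.H10

open Pool.Agent.PFC.B1 (FS Split)
open Pool.Agent.PFD (RF)
open Pool.Agent.PFE

section abs

variable {A I N : Type} [Ring A] [Fintype I] [Fintype N] {g g' : I → A} {e e' : N → A}
  {pi rh : A → A} {q w : A}

theorem ab1 (H2 : ∀ a, ∑ o, pi (a * g o) * g' o = rh a)
    (H3 : ∀ a, ∑ r, e r * pi (e' r * a) = a) (H5 : ∀ a, q * pi a = pi a * q)
    (H7 : ∑ o, g o * q * g' o = 1) (a : A) : ∑ r, e r * q * rh (e' r * a) = a := by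
  have h5 : ∀ a b, q * (pi a * b) = pi a * (q * b) := fun a b => by
    rw [← mul_assoc, H5, mul_assoc]
  calc ∑ r, e r * q * rh (e' r * a)
      = ∑ r, ∑ o, e r * pi (e' r * (a * g o)) * (q * g' o) := by
        refine Finset.sum_congr rfl fun r _ => ?_
        rw [← H2, Finset.mul_sum]
        refine Finset.sum_congr rfl fun o _ => ?_
        simp only [mul_assoc, h5]
    _ = ∑ o, a * (g o * q * g' o) := by
        rw [Finset.sum_comm]
        refine Finset.sum_congr rfl fun o _ => ?_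
        rw [← Finset.sum_mul, H3]
        simp only [mul_assoc]
    _ = a := by rw [← Finset.mul_sum, H7, mul_one]

theorem ab2 (H1 : ∀ a, ∑ o, g o * pi (g' o * a) = rh a)
    (H4 : ∀ a, ∑ r, pi (a * e r) * e' r = a) (H6 : ∀ b, pi (b * q) = pi (q * b))
    (H7 : ∑ o, g o * q * g' o = 1) (a : A) : ∑ r, rh (a * (e r * q)) * e' r = a := by
  calc ∑ r, rh (a * (e r * q)) * e' r
      = ∑ r, ∑ o, g o * (pi (q * g' o * a * e r) * e' r) := by
        refine Finset.sum_congr rfl fun r _ => ?_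
        rw [← H1, Finset.sum_mul]
        refine Finset.sum_congr rfl fun o _ => ?_
        have h : g' o * (a * (e r * q)) = (g' o * a * e r) * q := by simp only [mul_assoc]
        rw [h, H6]
        simp only [mul_assoc]
    _ = ∑ o, g o * q * g' o * a := by
        rw [Finset.sum_comm]
        refine Finset.sum_congr rfl fun o _ => ?_
        rw [← Finset.mul_sum, H4]
        simp only [mul_assoc]
    _ = a := by rw [← Finset.sum_mul, H7, one_mul]

theorem ab3 (H1 : ∀ a, ∑ o, g o * pi (g' o * a) = rh a)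
    (H2 : ∀ a, ∑ o, pi (a * g o) * g' o = rh a) (H5 : ∀ a, w * pi a = pi a * w) (c : A)
    (h1 : ∀ o, rh (c * g o) = c * g o) (h2 : ∀ o, rh (g' o * c) = g' o * c) :
    c * ∑ o, g o * w * g' o = (∑ o, g o * w * g' o) * c := by
  have h5 : ∀ a b, w * (pi a * b) = pi a * (w * b) := fun a b => by
    rw [← mul_assoc, H5, mul_assoc]
  calc c * ∑ o, g o * w * g' o
      = ∑ o, ∑ p, g p * w * (pi (g' p * c * g o) * g' o) := by
        rw [Finset.mul_sum]
        refine Finset.sum_congr rfl fun o _ => ?_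
        have h3 : c * (g o * w * g' o) = (c * g o) * (w * g' o) := by simp only [mul_assoc]
        rw [h3, ← h1, ← H1, Finset.sum_mul]
        refine Finset.sum_congr rfl fun p _ => ?_
        simp only [mul_assoc, h5]
    _ = ∑ p, g p * w * (g' p * c) := by
        rw [Finset.sum_comm]
        refine Finset.sum_congr rfl fun p _ => ?_
        rw [← Finset.mul_sum, H2, h2]
    _ = _ := by
        rw [Finset.sum_mul]
        refine Finset.sum_congr rfl fun p _ => ?_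
        simp only [mul_assoc]

theorem ab4 (H1 : ∀ a, ∑ o, g o * pi (g' o * a) = rh a)
    (H4 : ∀ a, ∑ r, pi (a * e r) * e' r = a) (H5 : ∀ a, w * pi a = pi a * w)
    (he : ∀ a, ∑ r, e r * q * rh (e' r * a) = a) (H8 : ∑ r, e r * w * e' r = 1) :
    ∑ r, e r * q * (∑ o, g o * w * g' o) * e' r = 1 := by
  have h5 : ∀ a b, w * (pi a * b) = pi a * (w * b) := fun a b => by
    rw [← mul_assoc, H5, mul_assoc]
  calc ∑ r, e r * q * (∑ o, g o * w * g' o) * e' r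
      = ∑ r, ∑ s, e r * q * rh (e' r * e s) * (w * e' s) := by
        refine Finset.sum_congr rfl fun r _ => ?_
        have h1 : (∑ o, g o * w * g' o) * e' r = ∑ s, rh (e' r * e s) * (w * e' s) := by
          calc (∑ o, g o * w * g' o) * e' r
              = ∑ o, ∑ s, g o * pi (g' o * (e' r * e s)) * (w * e' s) := by
                rw [Finset.sum_mul]
                refine Finset.sum_congr rfl fun o _ => ?_
                have h2 : g o * w * g' o * e' r = g o * w * (g' o * e' r) := by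
                  simp only [mul_assoc]
                rw [h2, ← H4 (g' o * e' r), Finset.mul_sum]
                refine Finset.sum_congr rfl fun s _ => ?_
                simp only [mul_assoc, h5]
            _ = _ := by
                rw [Finset.sum_comm]
                refine Finset.sum_congr rfl fun s _ => ?_
                rw [← Finset.sum_mul, H1]
        rw [mul_assoc, h1, Finset.mul_sum]
        refine Finset.sum_congr rfl fun s _ => ?_
        simp only [mul_assoc]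
    _ = ∑ s, e s * w * e' s := by
        rw [Finset.sum_comm]
        refine Finset.sum_congr rfl fun s _ => ?_
        rw [← Finset.sum_mul, he, mul_assoc]
    _ = 1 := H8

end abs

section tw

variable {K S C X Ω : Type} [Field K] [Ring S] [Algebra K S] [Ring C] [Algebra K C] [Group X]
  [Fintype X] [Fintype Ω] {G : GS K S X} {l : ℕ} {χ : X →* K} (Q : CC K S C X G l χ)

theorem ypow (k : ℕ) (s : S) : Q.y ^ k * Q.i s = Q.i ((G.sg χ ^ k) s) * Q.y ^ k := by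
  induction k generalizing s with
  | zero => rw [pow_zero, pow_zero, one_mul, mul_one]; rfl
  | succ k ih =>
    rw [pow_succ, mul_assoc, Q.ys, ← mul_assoc, ih, mul_assoc, ← pow_succ, pow_succ (G.sg χ)]
    rfl

theorem co_i_mul {k : ℕ} (hk : k < l) (t : S) (c : C) : Q.co k (Q.i t * c) = t * Q.co k c := by
  have h : Q.i t * c = ∑ j ∈ Finset.range l, Q.i (t * Q.co j c) * Q.y ^ j := by
    conv_lhs => rw [← Q.ex c]
    rw [Finset.mul_sum]
    refine Finset.sum_congr rfl fun j _ => ?_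
    rw [map_mul, mul_assoc]
  rw [h, Q.un (fun j => t * Q.co j c) k hk]

theorem co_mul_i {k : ℕ} (hk : k < l) (c : C) (t : S) :
    Q.co k (c * Q.i t) = Q.co k c * (G.sg χ ^ k) t := by
  have h : c * Q.i t = ∑ j ∈ Finset.range l, Q.i (Q.co j c * (G.sg χ ^ j) t) * Q.y ^ j := by
    conv_lhs => rw [← Q.ex c]
    rw [Finset.sum_mul]
    refine Finset.sum_congr rfl fun j _ => ?_
    rw [mul_assoc, ypow, map_mul, mul_assoc]
  rw [h, Q.un (fun j => Q.co j c * (G.sg χ ^ j) t) k hk]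

theorem co_mono {k n : ℕ} (hk : k < l) (hn : n < l) (s : S) :
    Q.co k (Q.i s * Q.y ^ n) = if k = n then s else 0 := by
  have h : Q.i s * Q.y ^ n =
      ∑ j ∈ Finset.range l, Q.i (if j = n then s else 0) * Q.y ^ j := by
    rw [Finset.sum_eq_single_of_mem n (Finset.mem_range.2 hn)]
    · rw [if_pos rfl]
    · intro j _ hj
      rw [if_neg hj, map_zero, zero_mul]
  rw [h, Q.un (fun j => if j = n then s else 0) k hk]

theorem co_top {m : ℕ} (hm : m < l) (c : C) :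
    Q.co (l - 1) (Q.y ^ (l - 1 - m) * c) = (G.sg χ ^ (l - 1 - m)) (Q.co m c) := by
  have h : Q.y ^ (l - 1 - m) * c =
      ∑ j ∈ Finset.range l, Q.i ((G.sg χ ^ (l - 1 - m)) (Q.co j c)) * Q.y ^ (l - 1 - m + j) := by
    conv_lhs => rw [← Q.ex c]
    rw [Finset.mul_sum]
    refine Finset.sum_congr rfl fun j _ => ?_
    rw [← mul_assoc, ypow, mul_assoc, ← pow_add]
  rw [h, map_sum, Finset.sum_eq_single_of_mem m (Finset.mem_range.2 hm)]
  · have e : l - 1 - m + m = l - 1 := by omega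
    rw [e, co_mono Q (by omega) (by omega), if_pos rfl]
  · intro j _ hj
    by_cases hlt : l - 1 - m + j < l
    · rw [co_mono Q (by omega) hlt, if_neg (by omega)]
    · have h0 : Q.y ^ (l - 1 - m + j) = 0 := pow_eq_zero_of_le (by omega) Q.yl
      rw [h0, mul_zero, map_zero]

/-- the projection to the span of the powers of `y` -/
noncomputable def p0 (t : S →ₗ[K] K) (c : C) : C := ∑ k ∈ Finset.range l, t (Q.co k c) • Q.y ^ k

theorem k1 (f : FS K S Ω) (c : C) :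
    ∑ o, Q.i (f.b o) * p0 Q f.lam (Q.i (f.b' o) * c) = c := by
  have h : ∀ o, Q.i (f.b o) * p0 Q f.lam (Q.i (f.b' o) * c) =
      ∑ k ∈ Finset.range l, Q.i (f.lam (f.b' o * Q.co k c) • f.b o) * Q.y ^ k := by
    intro o
    unfold p0
    rw [Finset.mul_sum]
    refine Finset.sum_congr rfl fun k hk => ?_
    rw [co_i_mul Q (Finset.mem_range.1 hk), mul_smul_comm, map_smul, smul_mul_assoc]
  simp only [h]
  rw [Finset.sum_comm]
  conv_rhs => rw [← Q.ex c]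
  refine Finset.sum_congr rfl fun k _ => ?_
  rw [← Finset.sum_mul, ← map_sum, f.h1]

theorem k2 (f : FS K S Ω)
    (hs : ∀ k s, ∑ o, f.lam (s * (G.sg χ ^ k) (f.b o)) • (G.sg χ ^ k) (f.b' o) = s) (c : C) :
    ∑ o, p0 Q f.lam (c * Q.i (f.b o)) * Q.i (f.b' o) = c := by
  have h : ∀ o, p0 Q f.lam (c * Q.i (f.b o)) * Q.i (f.b' o) =
      ∑ k ∈ Finset.range l, Q.i (f.lam (Q.co k c * (G.sg χ ^ k) (f.b o)) •
        (G.sg χ ^ k) (f.b' o)) * Q.y ^ k := by
    intro o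
    unfold p0
    rw [Finset.sum_mul]
    refine Finset.sum_congr rfl fun k hk => ?_
    rw [co_mul_i Q (Finset.mem_range.1 hk), smul_mul_assoc, ypow, map_smul, smul_mul_assoc]
  simp only [h]
  rw [Finset.sum_comm]
  conv_rhs => rw [← Q.ex c]
  refine Finset.sum_congr rfl fun k _ => ?_
  rw [← Finset.sum_mul, ← map_sum, hs]

end tw

theorem pi_comm {K A X J Ω Ω' : Type} [Field K] [Ring A] [Algebra K A] [Group X] [Fintype J]
    [Fintype Ω] [Fintype Ω'] {y : A} {l : ℕ} {χ : X →* K} (D : Yd K A X J Ω Ω' y l χ) {z : A}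
    (hz : z * y = y * z) (a : A) : z * D.pi a = D.pi a * z := by
  unfold Yd.pi
  rw [Finset.mul_sum, Finset.sum_mul]
  refine Finset.sum_congr rfl fun i _ => ?_
  have h : z * y ^ i = y ^ i * z := (show Commute z y from hz).pow_right i
  rw [mul_smul_comm, smul_mul_assoc, h]

theorem pi_swap {K A X J Ω Ω' : Type} [Field K] [Ring A] [Algebra K A] [Group X] [Fintype J]
    [Fintype Ω] [Fintype Ω'] {y : A} {l : ℕ} {χ : X →* K} (D : Yd K A X J Ω Ω' y l χ) {z : A}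
    (hz : z * y = y * z) (a : A) : D.pi (a * z) = D.pi (z * a) := by
  unfold Yd.pi
  refine Finset.sum_congr rfl fun i _ => ?_
  have h : z * y ^ (l - 1 - i) = y ^ (l - 1 - i) * z := (show Commute z y from hz).pow_right _
  rw [← mul_assoc, D.ds, ← mul_assoc, h, mul_assoc]

theorem rfc (hR : RtkStmt) (hG : SgrStmt) : RfcStmt := by
  intro K A X S J Ω Ω' C _ _ _ _ _ _ _ _ _ _ _ _ y l χ D L F E pr hpr hpl hprr hpo
  obtain ⟨R1, R2, -, -, -, -, -, -⟩ := hR K A X J Ω Ω' y l χ D.toYd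
  obtain ⟨-, -, -, s4, s5, -, s7⟩ := hG K S X Ω L.toGS F.toSF l χ D.χl
  have hl := D.hl
  -- the unit
  have hu1 : E.u' * E.u = 1 := by rw [← E.uc, E.uu]
  have hu2 : ∀ c, E.u' * c = c * E.u' := by
    intro c
    calc E.u' * c = E.u' * c * (E.u * E.u') := by rw [E.uu, mul_one]
      _ = E.u' * (c * E.u) * E.u' := by simp only [mul_assoc]
      _ = E.u' * (E.u * c) * E.u' := by rw [E.uc]
      _ = E.u' * E.u * (c * E.u') := by simp only [mul_assoc]
      _ = c * E.u' := by rw [hu1, one_mul]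
  have hjp : ∀ k : ℕ, y ^ k = E.j (E.Q.y ^ k) := fun k => by rw [map_pow, E.jy]
  have hts : ∀ (k : ℕ) (s : S), F.f.lam ((L.toGS.sg χ ^ k) s) = F.f.lam s := by
    intro k
    induction k with
    | zero => intro s; rw [pow_zero]; rfl
    | succ k ih =>
      intro s
      rw [pow_succ]
      show F.f.lam ((L.toGS.sg χ ^ k) (L.toGS.sg χ s)) = _
      rw [ih, s4]
  -- `pi` on `C`
  have hpj : ∀ c, D.pi (E.j c) = E.j (p0 E.Q F.f.lam (E.u * c)) := by
    intro c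
    unfold Yd.pi p0
    rw [map_sum]
    refine Finset.sum_congr rfl fun i hi => ?_
    rw [map_smul, ← hjp, hjp (l - 1 - i), ← map_mul, E.ut, E.t0e]
    have h : E.u * (E.Q.y ^ (l - 1 - i) * c) = E.Q.y ^ (l - 1 - i) * (E.u * c) := by
      rw [← mul_assoc, E.uc, mul_assoc]
    rw [h, co_top E.Q (Finset.mem_range.1 hi), hts]
  have hpp : ∀ a, D.pi a = D.pi (E.j (pr a)) := by
    intro a
    unfold Yd.pi
    refine Finset.sum_congr rfl fun i _ => ?_
    rw [hjp (l - 1 - i), ← map_mul, ← hpl, hpo]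
  -- the families
  let g : Ω → A := fun o => E.j (E.Q.i (F.f.b o))
  let g' : Ω → A := fun o => E.j (E.u' * E.Q.i (F.f.b' o))
  let q : A := E.j (E.u * E.Q.i F.w)
  have hsw : L.toGS.sg χ F.w = F.w := by
    have h := s5 1 F.w
    rwa [F.w1, map_one, one_smul] at h
  have hqy : q * y = y * q := by
    have h : E.u * E.Q.i F.w * E.Q.y = E.Q.y * (E.u * E.Q.i F.w) := by
      rw [← mul_assoc, ← E.uc, mul_assoc, mul_assoc, E.Q.ys, hsw]
    have h2 := congrArg E.j h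
    rw [map_mul, map_mul E.j E.Q.y, E.jy] at h2
    exact h2
  have H1 : ∀ a, ∑ o, g o * D.pi (g' o * a) = E.j (pr a) := by
    intro a
    have h : ∀ o, g o * D.pi (g' o * a) =
        E.j (E.Q.i (F.f.b o) * p0 E.Q F.f.lam (E.Q.i (F.f.b' o) * pr a)) := by
      intro o
      show E.j (E.Q.i (F.f.b o)) * D.pi (E.j (E.u' * E.Q.i (F.f.b' o)) * a) = _
      rw [hpp, hpl, hpj, ← map_mul]
      have h1 : E.u * (E.u' * E.Q.i (F.f.b' o) * pr a) = E.Q.i (F.f.b' o) * pr a := by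
        rw [mul_assoc, ← mul_assoc, E.uu, one_mul]
      rw [h1]
    simp only [h]
    rw [← map_sum, k1]
  have H2 : ∀ a, ∑ o, D.pi (a * g o) * g' o = E.j (pr a) := by
    intro a
    have h : ∀ o, D.pi (a * g o) * g' o =
        E.j (E.u' * (p0 E.Q F.f.lam (E.u * pr a * E.Q.i (F.f.b o)) * E.Q.i (F.f.b' o))) := by
      intro o
      show D.pi (a * E.j (E.Q.i (F.f.b o))) * E.j (E.u' * E.Q.i (F.f.b' o)) = _
      rw [hpp, hprr, hpj, ← map_mul, ← mul_assoc, ← mul_assoc, ← hu2, mul_assoc, mul_assoc]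
    simp only [h]
    rw [← map_sum, ← Finset.mul_sum, k2 E.Q F.f s7, ← mul_assoc, hu1, one_mul]
  have H7 : ∑ o, g o * q * g' o = 1 := by
    have h : ∀ o, g o * q * g' o = E.j (E.Q.i (F.f.b o * F.w * F.f.b' o)) := by
      intro o
      show E.j (E.Q.i (F.f.b o)) * E.j (E.u * E.Q.i F.w) * E.j (E.u' * E.Q.i (F.f.b' o)) = _
      rw [← map_mul, ← map_mul]
      congr 1
      calc E.Q.i (F.f.b o) * (E.u * E.Q.i F.w) * (E.u' * E.Q.i (F.f.b' o))
          = (E.Q.i (F.f.b o) * E.u) * (E.Q.i F.w * E.u') * E.Q.i (F.f.b' o) := by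
            simp only [mul_assoc]
        _ = (E.u * E.Q.i (F.f.b o)) * (E.u' * E.Q.i F.w) * E.Q.i (F.f.b' o) := by
            rw [E.uc, hu2]
        _ = E.u * (E.Q.i (F.f.b o) * E.u') * (E.Q.i F.w * E.Q.i (F.f.b' o)) := by
            simp only [mul_assoc]
        _ = (E.u * E.u') * (E.Q.i (F.f.b o) * E.Q.i F.w * E.Q.i (F.f.b' o)) := by
            rw [← hu2]
            simp only [mul_assoc]
        _ = _ := by rw [E.uu, one_mul, map_mul, map_mul]
    simp only [h]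
    rw [← map_sum, ← map_sum, F.sep, map_one, map_one]
  have H5 : ∀ a, q * D.pi a = D.pi a * q := pi_comm D.toYd hqy
  have H5w : ∀ a, D.w * D.pi a = D.pi a * D.w := pi_comm D.toYd D.wy.symm
  have H6 : ∀ b, D.pi (b * q) = D.pi (q * b) := pi_swap D.toYd hqy
  have e1 := ab1 (e := D.e) (e' := D.e') (pi := D.pi) (rh := fun a => E.j (pr a)) H2 R1 H5 H7
  have e2 := ab2 (e := D.e) (e' := D.e') (pi := D.pi) (rh := fun a => E.j (pr a)) H1 R2 H6 H7
  refine ⟨⟨fun r => D.e r * q, D.e', e1, e2⟩, ∑ o, g o * D.w * g' o, ?_, ?_⟩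
  · intro c
    refine ab3 (pi := D.pi) (rh := fun a => E.j (pr a)) H1 H2 H5w (E.j c) ?_ ?_
    · intro o
      show E.j (pr (E.j c * E.j (E.Q.i (F.f.b o)))) = E.j c * E.j (E.Q.i (F.f.b o))
      rw [← map_mul, hpr]
    · intro o
      show E.j (pr (E.j (E.u' * E.Q.i (F.f.b' o)) * E.j c)) =
        E.j (E.u' * E.Q.i (F.f.b' o)) * E.j c
      rw [← map_mul, hpr]
  · exact ab4 (pi := D.pi) (rh := fun a => E.j (pr a)) H1 R2 H5w e1 D.rw

end Pool.Agent.PFE.H10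
end -- Pool.Agent.Helper10_PFE.RFC

section -- Pool.Agent.Helper29_PFD.SPX

/-!
# Squad PFD, part D2b, row SPX: a `WFr` makes the complement of `Γ` in `A` a retract of `X`
-/

open scoped BigOperators

noncomputable section

namespace Pool.Agent.PFD.D2b.H29

open MulOpposite
open Pool.Agent.PFC.B1 (BiM FS Sep)
open Pool.Agent.PFD.D2 Pool.Agent.PFD.D2b

section
variable {R Γ W I A Ω : Type} [CommRing R] [Ring Γ] [Algebra R Γ] [CommGroup W] [Fintype W]
    [Fintype I] [Ring A] [Algebra R A]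

/-- `A` as a bimodule over `Γ` -/
def bim (j : Γ →ₐ[R] A) : BiM R Γ A where
  lm := (Algebra.lmul R A).comp j
  rm := (regB R A).rm.comp (AlgHom.op j)
  comm := fun a b x => by
    show j a * (x * j b.unop) = j a * x * j b.unop
    rw [mul_assoc]

theorem bim_lm (j : Γ →ₐ[R] A) (γ : Γ) (a : A) : (bim j).lm γ a = j γ * a := rfl

theorem bim_rm (j : Γ →ₐ[R] A) (γ : Γ) (a : A) : (bim j).rm (op γ) a = a * j γ := rfl

/-- `y ↦ ∑ τ (j y * a * j b_t) • b'_t` -/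
def EL (D : WFS R Γ W I) (j : Γ →ₐ[R] A) (τ : A →ₗ[R] R) (a : A) : Γ →ₗ[R] Γ where
  toFun y := ∑ k, ∑ w, τ (j y * a * j (D.cf k * D.om w)) • (D.om w⁻¹ * D.cf' k)
  map_add' y y' := by
    simp only [map_add, add_mul, add_smul, Finset.sum_add_distrib]
  map_smul' c y := by
    simp only [map_smul, smul_mul_assoc, smul_eq_mul, mul_smul, RingHom.id_apply,
      ← Finset.smul_sum]

theorem EL_apply (D : WFS R Γ W I) (j : Γ →ₐ[R] A) (τ : A →ₗ[R] R) (a : A) (y : Γ) :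
    EL D j τ a y = ∑ k, ∑ w, τ (j y * a * j (D.cf k * D.om w)) • (D.om w⁻¹ * D.cf' k) := rfl

theorem EL_l (D : WFS R Γ W I) (j : Γ →ₐ[R] A) (τ : A →ₗ[R] R) (a : A) (y γ : Γ) :
    EL D j τ (j γ * a) y = EL D j τ a (y * γ) := by
  rw [EL_apply, EL_apply]
  simp only [map_mul, mul_assoc]

theorem EL_r (hc : Pool.Agent.PFC.B1.CasStmt) (D : WFS R Γ W I) (j : Γ →ₐ[R] A) (τ : A →ₗ[R] R)
    (a : A) (y γ : Γ) : EL D j τ (a * j γ) y = EL D j τ a y * γ := by
  let B : Γ →ₗ[R] Γ →ₗ[R] Γ :=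
    LinearMap.mk₂ R (fun u v => τ (j y * a * j u) • v)
      (fun u u' v => by rw [map_add, mul_add, map_add, add_smul])
      (fun c u v => by rw [map_smul, mul_smul_comm, map_smul, smul_eq_mul, mul_smul])
      (fun u v v' => by rw [smul_add])
      (fun c u v => by rw [smul_comm])
  have h := hc R Γ (I × W) Γ D.fs B γ
  have hB : ∀ u v, B u v = τ (j y * a * j u) • v := fun u v => rfl
  simp only [hB] at h
  rw [Fintype.sum_prod_type, Fintype.sum_prod_type] at h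
  rw [EL_apply, EL_apply, Finset.sum_mul]
  have h1 : ∀ k w, τ (j y * (a * j γ) * j (D.cf k * D.om w)) • (D.om w⁻¹ * D.cf' k) =
      τ (j y * a * j (γ * D.fs.b (k, w))) • D.fs.b' (k, w) := by
    intro k w
    change _ = τ (j y * a * j (γ * (D.cf k * D.om w))) • (D.om w⁻¹ * D.cf' k)
    rw [map_mul j γ]
    simp only [mul_assoc]
  rw [Finset.sum_congr rfl fun k _ => Finset.sum_congr rfl fun w _ => h1 k w, h]
  refine Finset.sum_congr rfl fun k _ => ?_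
  rw [Finset.sum_mul]
  refine Finset.sum_congr rfl fun w _ => ?_
  rw [smul_mul_assoc]
  rfl

/-- equivariance -/
theorem EL_e (D : WFS R Γ W I) (j : Γ →ₐ[R] A) (τ τ' : A →ₗ[R] R) (u : W)
    (h : ∀ a, τ (j (D.om u) * a * j (D.om u⁻¹)) = τ' a) (a : A) (y : Γ) :
    D.om u * EL D j τ' a y = EL D j τ a (D.om u * y) := by
  rw [EL_apply, EL_apply, Finset.mul_sum]
  refine Finset.sum_congr rfl fun k _ => ?_
  rw [Finset.mul_sum]
  refine Fintype.sum_equiv (Equiv.mulRight u⁻¹) _ _ fun w => ?_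
  have e1 : τ' (j y * a * j (D.cf k * D.om w)) =
      τ (j (D.om u * y) * a * j (D.cf k * D.om (w * u⁻¹))) := by
    rw [← h]
    congr 1
    simp only [map_mul, mul_assoc]
  have e2 : D.om u * (D.om w⁻¹ * D.cf' k) = D.om (w * u⁻¹)⁻¹ * D.cf' k := by
    rw [mul_inv_rev, inv_inv, map_mul, mul_assoc]
  change D.om u * (τ' (j y * a * j (D.cf k * D.om w)) • (D.om w⁻¹ * D.cf' k)) =
    τ (j (D.om u * y) * a * j (D.cf k * D.om (w * u⁻¹))) • (D.om (w * u⁻¹)⁻¹ * D.cf' k)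
  rw [mul_smul_comm, e1, e2]

variable [Fintype Ω] [MulAction W Ω]

/-- SPX -/
theorem spx (hI : InmStmt) (hc : Pool.Agent.PFC.B1.CasStmt) : SpxStmt := by
  intro R Γ W I A Ω _ _ _ _ _ _ _ _ _ _ D BX hX j pr h1 h2 h3 w
  obtain ⟨p, ⟨hp1, hp2⟩, hp3, -⟩ := hI R Γ W I Ω A D BX hX (bim j) w.m (by
    intro u ω
    rw [w.m1, bim_rm, bim_lm, mul_assoc])
  let i : A →ₗ[R] (I × Ω → Γ) :=
    { toFun := fun a x => EL D j (w.τ x.2) a (D.cf' x.1)
      map_add' := fun a b => by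
        funext x
        simp only [Pi.add_apply, EL_apply, mul_add, add_mul, map_add, add_smul,
          Finset.sum_add_distrib]
      map_smul' := fun c a => by
        funext x
        simp only [Pi.smul_apply, EL_apply, mul_smul_comm, smul_mul_assoc, map_smul, smul_eq_mul,
          mul_smul, RingHom.id_apply, ← Finset.smul_sum] }
  have hi : ∀ a x, i a x = EL D j (w.τ x.2) a (D.cf' x.1) := fun a x => rfl
  refine ⟨⟨j, pr, h1, h2, h3, i, ?_, ?_, p, ?_, ?_, ?_⟩, rfl, rfl⟩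
  · intro γ a
    funext x
    obtain ⟨l, ω⟩ := x
    rw [hi, EL_l, hX.1]
    have h4 : ∑ i, ∑ u, D.lam (D.om u⁻¹ * D.cf' l * γ * D.cf i) • (D.om u * D.cf' i) =
        D.cf' l * γ := by
      rw [← D.h2 (D.cf' l * γ)]
      refine Finset.sum_congr rfl fun i _ => ?_
      refine Fintype.sum_equiv (Equiv.inv W) _ _ fun u => ?_
      rw [Equiv.inv_apply, inv_inv]
      congr 1
      rw [mul_assoc (D.om u⁻¹), mul_assoc (D.om u⁻¹), D.sym, mul_assoc]
    rw [← h4, map_sum]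
    refine Finset.sum_congr rfl fun i' _ => ?_
    rw [map_sum]
    refine Finset.sum_congr rfl fun u _ => ?_
    rw [map_smul, hi]
    congr 1
    refine (EL_e D j (w.τ ω) (w.τ (u⁻¹ • ω)) u (fun a => ?_) a (D.cf' i')).symm
    have h5 := w.t1 u (u⁻¹ • ω) a
    rw [smul_inv_smul] at h5
    exact h5
  · intro γ a
    funext x
    rw [hi, EL_r hc, hX.2, hi]
  · intro γ x
    rw [hp1, bim_lm]
  · intro γ x
    rw [hp2, bim_rm]
  · intro a
    rw [hp3, ← w.id a]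
    refine Finset.sum_congr rfl fun i' _ => ?_
    have h6 : ∀ ω, (bim j).lm (D.cf i') ((bim j).rm (op (i a (i', ω))) (w.m ω)) =
        ∑ k, ∑ u, w.τ ω (j (D.cf' i') * a * j (D.cf k * D.om u)) •
          (j (D.cf i') * w.m ω * j (D.om u⁻¹ * D.cf' k)) := by
      intro ω
      rw [bim_rm, bim_lm, hi, EL_apply]
      simp only [map_sum, map_smul, Finset.mul_sum, mul_smul_comm, mul_assoc]
    rw [Finset.sum_congr rfl fun ω _ => h6 ω, Finset.sum_comm]
    refine Finset.sum_congr rfl fun k _ => ?_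
    rw [Finset.sum_comm]

end

end Pool.Agent.PFD.D2b.H29
end
end -- Pool.Agent.Helper29_PFD.SPX

section -- Pool.Agent.Helper52_PFD.XCL

set_option autoImplicit false

open scoped BigOperators

noncomputable section

namespace Pool.Agent.PFD.H52

open MulOpposite
open Pool.Agent.PFC.B1 (BiM FS Sep)
open Pool.Agent.PFD.D2 Pool.Agent.PFD.D2b

section xcl

variable {R Γ W I Ω : Type} [CommRing R] [Ring Γ] [Algebra R Γ] [CommGroup W] [Fintype W]
  [Fintype I] [Fintype Ω] [MulAction W Ω] (D : WFS R Γ W I)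

/-- The sums `E γ x ω`. -/
def EE (γ : Γ) (x : I × Ω → Γ) (ω : Ω) : Γ :=
  ∑ i, ∑ t, D.lam (γ * D.cf i * D.om t⁻¹) • (D.om t * x (i, t⁻¹ • ω))

theorem lam_h1 (y : Γ) :
    ∑ j, ∑ u, D.lam (D.cf j * D.om u⁻¹) * D.lam (D.om u * D.cf' j * y) = D.lam y := by
  conv_rhs => rw [← D.h1 y]
  rw [map_sum]
  refine Finset.sum_congr rfl fun j _ => ?_
  rw [map_sum]
  refine Fintype.sum_equiv (Equiv.inv W) _ _ fun u => ?_
  rw [map_smul, smul_eq_mul, Equiv.inv_apply, inv_inv, mul_comm]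

theorem sum_h2 (y : Γ) :
    ∑ i, ∑ w, D.lam (y * (D.cf i * D.om w⁻¹)) • (D.om w * D.cf' i) = y := by
  conv_rhs => rw [← D.h2 y]
  refine Finset.sum_congr rfl fun j _ => ?_
  refine Fintype.sum_equiv (Equiv.inv W) _ _ fun u => ?_
  rw [Equiv.inv_apply, inv_inv]

variable {D} in
theorem EE_lm {BX : BiM R Γ (I × Ω → Γ)} (hX : IsX D Ω BX) (γ : Γ) (x : I × Ω → Γ) (ω : Ω) :
    EE D 1 (BX.lm γ x) ω = EE D γ x ω := by
  unfold EE
  have h1 : ∀ j u, D.lam (1 * D.cf j * D.om u⁻¹) • (D.om u * BX.lm γ x (j, u⁻¹ • ω)) =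
      ∑ i, ∑ t, (D.lam (D.cf j * D.om u⁻¹) * D.lam (D.om u * D.cf' j *
        (γ * D.cf i * D.om t⁻¹))) • (D.om t * x (i, t⁻¹ • ω)) := by
    intro j u
    rw [hX.1, one_mul, Finset.mul_sum, Finset.smul_sum]
    refine Finset.sum_congr rfl fun i _ => ?_
    rw [Finset.mul_sum, Finset.smul_sum]
    refine Fintype.sum_equiv (Equiv.mulLeft u) _ _ fun w => ?_
    rw [Equiv.coe_mulLeft, mul_smul_comm, smul_smul]
    have h2 : D.lam (D.om w⁻¹ * D.cf' j * γ * D.cf i) =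
        D.lam (D.om u * D.cf' j * (γ * D.cf i * D.om (u * w)⁻¹)) := by
      have h3 : D.om u * D.cf' j * (γ * D.cf i * D.om (u * w)⁻¹) =
          (D.om u * D.cf' j * γ * D.cf i) * D.om (u * w)⁻¹ := by
        simp only [mul_assoc]
      rw [h3, D.sym (D.om u * D.cf' j * γ * D.cf i)]
      have h4 : D.om w⁻¹ = D.om (u * w)⁻¹ * D.om u := by
        rw [← map_mul, mul_inv, mul_assoc, mul_comm w⁻¹ u, ← mul_assoc, inv_mul_cancel, one_mul]
      rw [h4]
      simp only [mul_assoc]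
    have h5 : D.om u * (D.om w * x (i, w⁻¹ • u⁻¹ • ω)) = D.om (u * w) * x (i, (u * w)⁻¹ • ω) := by
      rw [← mul_assoc, ← map_mul, smul_smul, ← mul_inv_rev]
    rw [h2, h5]
  rw [Finset.sum_congr rfl fun j _ => Finset.sum_congr rfl fun u _ => h1 j u]
  have h6 : ∀ i t, D.lam (γ * D.cf i * D.om t⁻¹) • (D.om t * x (i, t⁻¹ • ω)) =
      ∑ j, ∑ u, (D.lam (D.cf j * D.om u⁻¹) * D.lam (D.om u * D.cf' j *
        (γ * D.cf i * D.om t⁻¹))) • (D.om t * x (i, t⁻¹ • ω)) := by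
    intro i t
    conv_lhs => rw [← lam_h1 D (γ * D.cf i * D.om t⁻¹)]
    rw [Finset.sum_smul]
    refine Finset.sum_congr rfl fun j _ => ?_
    rw [Finset.sum_smul]
  rw [Finset.sum_congr rfl fun i _ => Finset.sum_congr rfl fun t _ => h6 i t]
  calc ∑ j, ∑ u, ∑ i, ∑ t, (D.lam (D.cf j * D.om u⁻¹) * D.lam (D.om u * D.cf' j *
        (γ * D.cf i * D.om t⁻¹))) • (D.om t * x (i, t⁻¹ • ω))
      = ∑ j, ∑ i, ∑ u, ∑ t, (D.lam (D.cf j * D.om u⁻¹) * D.lam (D.om u * D.cf' j *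
        (γ * D.cf i * D.om t⁻¹))) • (D.om t * x (i, t⁻¹ • ω)) :=
        Finset.sum_congr rfl fun j _ => Finset.sum_comm
    _ = ∑ j, ∑ i, ∑ t, ∑ u, (D.lam (D.cf j * D.om u⁻¹) * D.lam (D.om u * D.cf' j *
        (γ * D.cf i * D.om t⁻¹))) • (D.om t * x (i, t⁻¹ • ω)) :=
        Finset.sum_congr rfl fun j _ => Finset.sum_congr rfl fun i _ => Finset.sum_comm
    _ = ∑ i, ∑ j, ∑ t, ∑ u, (D.lam (D.cf j * D.om u⁻¹) * D.lam (D.om u * D.cf' j *
        (γ * D.cf i * D.om t⁻¹))) • (D.om t * x (i, t⁻¹ • ω)) := Finset.sum_comm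
    _ = _ := Finset.sum_congr rfl fun i _ => Finset.sum_comm

theorem EE_cf' [DecidableEq I] [DecidableEq W] (k : I) (x : I × Ω → Γ) (ω : Ω) :
    EE D (D.cf' k) x ω = x (k, ω) := by
  unfold EE
  have h1 : ∀ i t, D.lam (D.cf' k * D.cf i * D.om t⁻¹) =
      D.lam (D.om t⁻¹ * D.cf' k * (D.cf i * D.om 1)) := by
    intro i t
    rw [D.sym, map_one, mul_one]
    simp only [mul_assoc]
  rw [Finset.sum_eq_single k]
  · rw [Finset.sum_eq_single 1]
    · rw [h1, D.d1, one_smul, map_one, one_mul, inv_one, one_smul]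
    · intro t _ ht
      rw [h1, D.d0 _ _ _ _ (Or.inr ht), zero_smul]
    · intro h
      exact absurd (Finset.mem_univ _) h
  · intro i _ hi
    refine Finset.sum_eq_zero fun t _ => ?_
    rw [h1, D.d0 _ _ _ _ (Or.inl (Ne.symm hi)), zero_smul]
  · intro h
    exact absurd (Finset.mem_univ _) h

theorem EE_om (w : W) (x : I × Ω → Γ) (ω : Ω) :
    EE D (D.om w) x ω = D.om w * EE D 1 x (w⁻¹ • ω) := by
  unfold EE
  rw [Finset.mul_sum]
  refine Finset.sum_congr rfl fun i _ => ?_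
  rw [Finset.mul_sum]
  symm
  refine Fintype.sum_equiv (Equiv.mulLeft w) _ _ fun s => ?_
  rw [Equiv.coe_mulLeft, mul_smul_comm, ← mul_assoc, ← map_mul, smul_smul, ← mul_inv_rev, one_mul]
  congr 1
  rw [mul_assoc, D.sym (D.om w), mul_assoc, ← map_mul]
  congr 3
  rw [mul_inv, mul_comm w⁻¹, mul_assoc, inv_mul_cancel, mul_one]

variable {D} in
theorem EE_rm {BX : BiM R Γ (I × Ω → Γ)} (hX : IsX D Ω BX) (γ δ : Γ) (x : I × Ω → Γ) (ω : Ω) :
    EE D γ (BX.rm (op δ) x) ω = EE D γ x ω * δ := by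
  unfold EE
  rw [Finset.sum_mul]
  refine Finset.sum_congr rfl fun i _ => ?_
  rw [Finset.sum_mul]
  refine Finset.sum_congr rfl fun t _ => ?_
  rw [hX.2, smul_mul_assoc, mul_assoc (D.om t)]

theorem EE_add (γ : Γ) (x y : I × Ω → Γ) (ω : Ω) :
    EE D γ (x + y) ω = EE D γ x ω + EE D γ y ω := by
  unfold EE
  simp only [Pi.add_apply, mul_add, smul_add, Finset.sum_add_distrib]

theorem EE_smul (γ : Γ) (p : R) (x : I × Ω → Γ) (ω : Ω) :
    EE D γ (p • x) ω = p • EE D γ x ω := by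
  unfold EE
  rw [Finset.smul_sum]
  refine Finset.sum_congr rfl fun i _ => ?_
  rw [Finset.smul_sum]
  refine Finset.sum_congr rfl fun t _ => ?_
  rw [Pi.smul_apply, mul_smul_comm, smul_comm]

end xcl

/-- the conjugation action -/
def cjg {R Γ W : Type} [CommRing R] [Ring Γ] [Algebra R Γ] [CommGroup W] (om : W →* Γ) :
    W →* (Γ →ₗ[R] Γ) :=
  (wrp om (regB R Γ)).comp ((MonoidHom.id W).prod (MonoidHom.id W))

theorem cjg_apply {R Γ W : Type} [CommRing R] [Ring Γ] [Algebra R Γ] [CommGroup W] (om : W →* Γ)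
    (w : W) (x : Γ) : cjg (R := R) om w x = om w * (x * om w⁻¹) := rfl

theorem xcl (eqf : EqfStmt) (fpx : FpxStmt) : XclStmt := by
  classical
  intro R Γ W I Ω _ _ _ _ _ _ _ _ D BX p hX x hx
  have hfp := (fpx R Γ W I Ω D BX hX p).2
  have hfd : FPl p (cjg (R := R) D.om) := by
    intro S n hn
    obtain ⟨m, hm, hmn⟩ := hfp (S.map ((MonoidHom.id W).prod (MonoidHom.id W))) n (by
      rintro _ ⟨s, hs, rfl⟩
      exact hn s hs)
    exact ⟨m, fun s hs => hm _ ⟨s, hs, rfl⟩, hmn⟩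
  -- `E γ x ω` is congruent to `e ω γ`
  have key : ∀ γ ω, ∃ z, EE D γ x ω - EE D 1 x ω * γ = p • z := by
    intro γ ω
    obtain ⟨y, hy⟩ := hx γ
    have h1 : BX.lm γ x = BX.rm (op γ) x + p • y := by
      rw [← hy, add_sub_cancel]
    have h2 := EE_lm hX γ x ω
    rw [h1, EE_add, EE_smul, EE_rm hX] at h2
    refine ⟨EE D 1 y ω, ?_⟩
    rw [← h2, add_sub_cancel_left]
  obtain ⟨y, hy1, hy2⟩ := eqf R W Γ Ω (cjg (R := R) D.om) p hfd (EE D 1 x) (by
    intro w ω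
    obtain ⟨z, hz⟩ := key (D.om w) (w • ω)
    rw [EE_om, inv_smul_smul] at hz
    refine ⟨-(z * D.om w⁻¹), ?_⟩
    rw [smul_neg, ← smul_mul_assoc, ← hz, cjg_apply, sub_mul, mul_assoc, mul_assoc,
      ← map_mul D.om w w⁻¹, mul_inv_cancel, map_one, mul_one, neg_sub])
  have hy3 : ∀ w ω, D.om w * y (w⁻¹ • ω) = y ω * D.om w := by
    intro w ω
    have h1 := hy1 w (w⁻¹ • ω)
    rw [smul_inv_smul, cjg_apply] at h1
    rw [h1, mul_assoc, mul_assoc, ← map_mul D.om w⁻¹ w, inv_mul_cancel, map_one, mul_one]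
  refine ⟨fun q => y q.2 * D.cf' q.1, ?_, ?_⟩
  · intro γ
    funext q
    obtain ⟨j, ω⟩ := q
    rw [hX.1, hX.2]
    have h1 : ∀ i w, D.lam (D.om w⁻¹ * D.cf' j * γ * D.cf i) •
        (D.om w * (y (w⁻¹ • ω) * D.cf' i)) =
        y ω * (D.lam (D.cf' j * γ * (D.cf i * D.om w⁻¹)) • (D.om w * D.cf' i)) := by
      intro i w
      have h2 : D.lam (D.om w⁻¹ * D.cf' j * γ * D.cf i) =
          D.lam (D.cf' j * γ * (D.cf i * D.om w⁻¹)) := by
        rw [mul_assoc (D.om w⁻¹), mul_assoc (D.om w⁻¹), D.sym]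
        simp only [mul_assoc]
      rw [h2, ← mul_assoc (D.om w), hy3, mul_smul_comm, mul_assoc (y ω)]
    change ∑ i, ∑ w, D.lam (D.om w⁻¹ * D.cf' j * γ * D.cf i) •
        (D.om w * (y (w⁻¹ • ω) * D.cf' i)) = y ω * D.cf' j * γ
    rw [Finset.sum_congr rfl fun i _ => Finset.sum_congr rfl fun w _ => h1 i w]
    simp only [← Finset.mul_sum]
    rw [sum_h2, mul_assoc]
  · have h1 : ∀ q : I × Ω, ∃ z, y q.2 * D.cf' q.1 - x q = p • z := by
      rintro ⟨i, ω⟩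
      obtain ⟨z, hz⟩ := key (D.cf' i) ω
      rw [EE_cf'] at hz
      obtain ⟨z', hz'⟩ := hy2 ω
      refine ⟨z' * D.cf' i - z, ?_⟩
      rw [smul_sub, ← hz, ← smul_mul_assoc, ← hz', sub_mul]
      abel
    choose z hz using h1
    exact ⟨z, funext fun q => hz q⟩

end Pool.Agent.PFD.H52
end
end -- Pool.Agent.Helper52_PFD.XCL

section -- Pool.Agent.Helper81_PFE.ZCS

/-!
# Squad PFE, row ZCS (helper81): the sum of the eigenspaces
-/

set_option autoImplicit false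

open scoped BigOperators

noncomputable section

namespace Pool.Agent.PFE.H81

open Pool.Agent.PFE

section

variable {K S X : Type} [Field K] [Ring S] [Algebra K S] [Group X] [Fintype X] (G : GS K S X)

theorem cmul {x y : X} {a b : S} (ha : G.c x a = a) (hb : G.c y b = b) :
    G.c (x * y) (a * b) = a * b := by
  have h := G.cm x y a b
  rw [ha, hb] at h
  exact h

/-- the centre of the part of degree one, as a subspace -/
def M1 : Submodule K S where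
  carrier := {s | G.c 1 s = s ∧ ∀ t, G.c 1 t * s = s * G.c 1 t}
  add_mem' := by
    rintro a b ⟨ha, ha'⟩ ⟨hb, hb'⟩
    exact ⟨by rw [map_add, ha, hb], fun t => by rw [mul_add, add_mul, ha', hb']⟩
  zero_mem' := ⟨map_zero _, fun t => by rw [mul_zero, zero_mul]⟩
  smul_mem' := by
    rintro r a ⟨ha, ha'⟩
    exact ⟨by rw [map_smul, ha], fun t => by rw [mul_smul_comm, smul_mul_assoc, ha']⟩

theorem cen_mem (z : Subalgebra.center K G.S1) : (((z : G.S1) : S)) ∈ M1 G := by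
  refine ⟨z.1.2, fun t => ?_⟩
  have h := Subalgebra.mem_center_iff.1 z.2 ⟨G.c 1 t, G.ci 1 t⟩
  exact congrArg Subtype.val h

/-- the centre is `M1` -/
def eqv : Subalgebra.center K G.S1 ≃ₗ[K] M1 G where
  toFun z := ⟨((z : G.S1) : S), cen_mem G z⟩
  invFun m := ⟨⟨m.1, m.2.1⟩, Subalgebra.mem_center_iff.2 fun b => Subtype.ext (by
    show (b : S) * m.1 = m.1 * (b : S)
    have h := m.2.2 (b : S)
    rw [show G.c 1 (b : S) = b from b.2] at h
    exact h)⟩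
  map_add' _ _ := rfl
  map_smul' _ _ := rfl
  left_inv _ := rfl
  right_inv _ := rfl

/-- the inverse of a homogeneous unit is homogeneous -/
theorem inv_hom {x : X} {g g' : S} (hg : G.c x g = g) (h1 : g * g' = 1) (h2 : g' * g = 1) :
    G.c x⁻¹ g' = g' := by
  classical
  have h3 : ∀ y, G.c 1 (g * G.c y g') = if y = x⁻¹ then g * G.c x⁻¹ g' else 0 := by
    intro y
    have h4 : G.c (x * y) (g * G.c y g') = g * G.c y g' := cmul G hg (G.ci y g')
    split_ifs with h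
    · subst h
      rw [mul_inv_cancel] at h4
      exact h4
    · rw [← h4]
      apply G.co
      intro h5
      exact h (eq_inv_of_mul_eq_one_right h5.symm)
  have h5 : g * G.c x⁻¹ g' = 1 := by
    have h6 : G.c 1 (g * ∑ y, G.c y g') = 1 := by rw [G.cs, h1, G.c1]
    rw [Finset.mul_sum, map_sum, Finset.sum_congr rfl fun y _ => h3 y, Finset.sum_ite_eq'] at h6
    simpa using h6
  calc G.c x⁻¹ g' = (g' * g) * G.c x⁻¹ g' := by rw [h2, one_mul]
    _ = g' := by rw [mul_assoc, h5, mul_one]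

/-- conjugation -/
def Tc (g g' : S) : S →ₗ[K] S := (LinearMap.mulLeft K g).comp (LinearMap.mulRight K g')

theorem Tc_apply (g g' s : S) : Tc (K := K) g g' s = g * (s * g') := rfl

theorem Tc_mem {x : X} {g g' : S} (hg : G.c x g = g) (h1 : g * g' = 1) (h2 : g' * g = 1) {s : S}
    (hs : s ∈ M1 G) : Tc (K := K) g g' s ∈ M1 G := by
  have hg' := inv_hom G hg h1 h2
  obtain ⟨hs1, hs2⟩ := hs
  rw [Tc_apply]
  refine ⟨?_, fun t => ?_⟩
  · have h3 := cmul G hg (cmul G hs1 hg')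
    rw [one_mul, mul_inv_cancel] at h3
    exact h3
  · have h4 : G.c 1 (g' * (G.c 1 t * g)) = g' * (G.c 1 t * g) := by
      have h3 := cmul G hg' (cmul G (G.ci 1 t) hg)
      rw [one_mul, inv_mul_cancel] at h3
      exact h3
    have h5 := hs2 (g' * (G.c 1 t * g))
    rw [h4] at h5
    calc G.c 1 t * (g * (s * g')) = (g * g') * (G.c 1 t * (g * (s * g'))) := by rw [h1, one_mul]
      _ = g * ((g' * (G.c 1 t * g)) * s) * g' := by simp only [mul_assoc]
      _ = g * (s * (g' * (G.c 1 t * g))) * g' := by rw [h5]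
      _ = g * (s * g') * G.c 1 t * (g * g') := by simp only [mul_assoc]
      _ = g * (s * g') * G.c 1 t := by rw [h1, mul_one]

theorem Tc_rule {x : X} {g g' : S} (hg : G.c x g = g) (h1 : g * g' = 1) (h2 : g' * g = 1) {s : S}
    (hs : s ∈ M1 G) (t : S) : G.c x t * s = Tc (K := K) g g' s * G.c x t := by
  have hg' := inv_hom G hg h1 h2
  have h3 : G.c 1 (G.c x t * g') = G.c x t * g' := by
    have h4 := cmul G (G.ci x t) hg'
    rw [mul_inv_cancel] at h4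
    exact h4
  have h5 := (Tc_mem G hg h1 h2 hs).2 (G.c x t * g')
  rw [h3, Tc_apply] at h5
  rw [Tc_apply]
  calc G.c x t * s = G.c x t * (g' * g) * (s * (g' * g)) := by rw [h2, mul_one, mul_one]
    _ = (G.c x t * g' * (g * (s * g'))) * g := by simp only [mul_assoc]
    _ = (g * (s * g') * (G.c x t * g')) * g := by rw [h5]
    _ = g * (s * g') * G.c x t * (g' * g) := by simp only [mul_assoc]
    _ = g * (s * g') * G.c x t := by rw [h2, mul_one]

end

/-- row ZCS -/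
theorem zcs : ZcsStmt := by
  classical
  intro K S X _ _ _ _ _ _ _ G l χ hl hχl hχu hg Z hZ
  choose g g' hg1 hg2 hg3 using hg
  have hχ1 : ∀ x, x ≠ 1 → χ x ≠ 1 := by
    intro x hx h
    have h1 := hχu x hx
    rw [h, sub_self] at h1
    exact not_isUnit_zero h1
  have hinj : Function.Injective χ := by
    rw [injective_iff_map_eq_one]
    intro x hx
    by_contra h
    exact hχ1 x h hx
  have hχ0 : ∀ x, χ x ≠ 0 := by
    intro x h
    have h1 := hχl x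
    rw [h, zero_pow (by omega)] at h1
    exact zero_ne_one h1
  have hdvd : Fintype.card X ∣ l - 1 := by
    have : IsCyclic X := isCyclic_of_injective_ringHom χ hinj
    obtain ⟨x, hx⟩ := IsCyclic.exists_generator (α := X)
    have h1 : orderOf x = Fintype.card X := by
      rw [orderOf_eq_card_of_forall_mem_zpowers hx, Nat.card_eq_fintype_card]
    rw [← h1]
    apply orderOf_dvd_of_pow_eq_one
    apply hinj
    rw [map_pow, hχl, map_one]
  have hn : (Fintype.card X : K) ≠ 0 := Nat.cast_ne_zero.2 Fintype.card_ne_zero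
  -- the action
  let T : X → (M1 G →ₗ[K] M1 G) := fun x =>
    (Tc (K := K) (g x) (g' x)).restrict fun s hs => Tc_mem G (hg1 x) (hg2 x) (hg3 x) hs
  have hTv : ∀ x (s : M1 G), ((T x s : M1 G) : S) = Tc (K := K) (g x) (g' x) s := fun _ _ => rfl
  have hrule : ∀ x (s : M1 G) t, G.c x t * (s : S) = (T x s : M1 G) * G.c x t := fun x s t =>
    Tc_rule G (hg1 x) (hg2 x) (hg3 x) s.2 t
  have hcan : ∀ x (a b : S), a * g x = b * g x → a = b := by
    intro x a b h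
    have h1 := congrArg (fun c => c * g' x) h
    simpa [mul_assoc, hg2] using h1
  have hTg : ∀ x (s : M1 G), g x * (s : S) = (T x s : M1 G) * g x := by
    intro x s
    have h := hrule x s (g x)
    rw [hg1] at h
    exact h
  have hTm : ∀ x y s, T (x * y) s = T x (T y s) := by
    intro x y s
    apply Subtype.ext
    apply hcan y
    have hh : G.c (x * y) (g x * g y) = g x * g y := cmul G (hg1 x) (hg1 y)
    have h1 := hrule (x * y) s (g x * g y)
    rw [hh] at h1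
    have h2 : (T (x * y) s : M1 G) * (g x * g y) = (T x (T y s) : M1 G) * (g x * g y) := by
      rw [← h1, mul_assoc, hTg y s, ← mul_assoc, hTg x (T y s), mul_assoc]
    have h3 := congrArg (fun c => c * (g' y * g' x)) h2
    have h4 : g x * g y * (g' y * g' x) = 1 := by
      rw [mul_assoc, ← mul_assoc (g y), hg2, one_mul, hg2]
    simp only [mul_assoc] at h3
    rw [show g x * (g y * (g' y * g' x)) = 1 from by rw [← mul_assoc, h4], mul_one, mul_one] at h3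
    rw [h3]
  have hT1 : ∀ s, T 1 s = s := by
    intro s
    apply Subtype.ext
    have h1 := hrule 1 s 1
    rw [G.c1, one_mul, mul_one] at h1
    exact h1.symm
  -- the eigenspaces
  have hZT : ∀ k (s : M1 G), (s : S) ∈ Z k ↔ ∀ x, T x s = χ x ^ k • s := by
    intro k s
    rw [hZ]
    constructor
    · rintro ⟨-, h⟩ x
      apply Subtype.ext
      apply hcan x
      have h1 := h x (g x)
      rw [hg1] at h1
      rw [← hTg, h1]
      exact (smul_mul_assoc _ _ _).symm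
    · intro h
      refine ⟨s.2.1, fun x t => ?_⟩
      rw [hrule, h]
      exact smul_mul_assoc _ _ _
  have hZM : ∀ k, Z k ≤ M1 G := by
    intro k s hs
    obtain ⟨h1, h2⟩ := (hZ k s).1 hs
    refine ⟨h1, fun t => ?_⟩
    rw [h2, map_one, one_pow, one_smul]
  let P : ℕ → (M1 G →ₗ[K] M1 G) := fun k =>
    ((Fintype.card X : K)⁻¹) • ∑ x, ((χ x)⁻¹ ^ k) • T x
  have hP : ∀ k s, P k s = ((Fintype.card X : K)⁻¹) • ∑ x, ((χ x)⁻¹ ^ k) • T x s := by
    intro k s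
    show (((Fintype.card X : K)⁻¹) • ∑ x, ((χ x)⁻¹ ^ k) • T x) s = _
    rw [LinearMap.smul_apply, LinearMap.sum_apply]
    rfl
  let Z' : ℕ → Submodule K (M1 G) := fun k => (Z k).comap (M1 G).subtype
  have hproj : ∀ k, LinearMap.IsProj (Z' k) (P k) := by
    intro k
    constructor
    · intro s
      show ((P k s : M1 G) : S) ∈ Z k
      rw [hZT]
      intro x
      rw [hP, map_smul, smul_comm, map_sum, Finset.smul_sum (r := χ x ^ k)]
      congr 1
      rw [← Equiv.sum_comp (Equiv.mulLeft x)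
        (fun z => χ x ^ k • ((χ z)⁻¹ ^ k) • T z s)]
      refine Finset.sum_congr rfl fun y _ => ?_
      rw [map_smul, ← hTm, Equiv.coe_mulLeft, smul_smul]
      congr 1
      rw [map_mul, mul_inv, mul_pow, ← mul_assoc, ← mul_pow, mul_inv_cancel₀ (hχ0 x), one_pow,
        one_mul]
    · intro s hs
      have h1 := (hZT k s).1 hs
      rw [hP]
      have h2 : ∀ x, ((χ x)⁻¹ ^ k) • T x s = s := by
        intro x
        rw [h1, smul_smul, ← mul_pow, inv_mul_cancel₀ (hχ0 x), one_pow, one_smul]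
      rw [Finset.sum_congr rfl fun x _ => h2 x, Finset.sum_const, Finset.card_univ,
        ← Nat.cast_smul_eq_nsmul K, smul_smul, inv_mul_cancel₀ hn, one_smul]
  have hdim : ∀ k, (Module.finrank K (Z k) : K) =
      ((Fintype.card X : K)⁻¹) * ∑ x, ((χ x)⁻¹ ^ k) * LinearMap.trace K (M1 G) (T x) := by
    intro k
    have h1 : Module.finrank K (Z' k) = Module.finrank K (Z k) :=
      LinearEquiv.finrank_eq (Submodule.comapSubtypeEquivOfLe (hZM k))
    have f0 : Module.Finite K (M1 G) := inferInstance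
    have f1 : Module.Free K (Z' k) := Module.Free.of_divisionRing K (Z' k)
    have f2 : Module.Free K (LinearMap.ker (P k)) :=
      Module.Free.of_divisionRing K (LinearMap.ker (P k))
    have h2 := LinearMap.IsProj.trace (hproj k)
    rw [← h1, ← h2]
    show LinearMap.trace K (M1 G) (((Fintype.card X : K)⁻¹) • ∑ x, ((χ x)⁻¹ ^ k) • T x) = _
    rw [map_smul, map_sum, smul_eq_mul]
    congr 1
    refine Finset.sum_congr rfl fun x _ => ?_
    rw [map_smul, smul_eq_mul]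
  have hgeo : ∀ x, ∑ k ∈ Finset.range (l - 1), ((χ x)⁻¹ ^ k) =
      if x = 1 then ((l - 1 : ℕ) : K) else 0 := by
    intro x
    split_ifs with h
    · subst h
      simp
    · have h1 : (χ x)⁻¹ ≠ 1 := by
        intro h2
        exact hχ1 x h (inv_eq_one.1 h2)
      rw [geom_sum_eq h1, inv_pow, hχl, inv_one, sub_self, zero_div]
  have htr1 : LinearMap.trace K (M1 G) (T 1) = (Module.finrank K (M1 G) : K) := by
    have h1 : T 1 = LinearMap.id := LinearMap.ext hT1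
    rw [h1, LinearMap.trace_id]
  have hfin : Module.finrank K (Subalgebra.center K G.S1) = Module.finrank K (M1 G) :=
    LinearEquiv.finrank_eq (eqv G)
  have hsum : ((∑ k ∈ Finset.range (l - 1), Module.finrank K (Z k) : ℕ) : K) =
      ((Fintype.card X : K)⁻¹) * (((l - 1 : ℕ) : K) * (Module.finrank K (M1 G) : K)) := by
    rw [Nat.cast_sum, Finset.sum_congr rfl fun k _ => hdim k, ← Finset.mul_sum, Finset.sum_comm]
    congr 1
    have h1 : ∀ x, ∑ k ∈ Finset.range (l - 1), ((χ x)⁻¹ ^ k) * LinearMap.trace K (M1 G) (T x) =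
        if x = 1 then ((l - 1 : ℕ) : K) * LinearMap.trace K (M1 G) (T x) else 0 := by
      intro x
      rw [← Finset.sum_mul, hgeo, ite_mul, zero_mul]
    rw [Finset.sum_congr rfl fun x _ => h1 x, Finset.sum_ite_eq']
    simp only [Finset.mem_univ, if_true]
    rw [htr1]
  rw [hfin]
  obtain ⟨m, hm⟩ := hdvd
  have hc : 0 < Fintype.card X := Fintype.card_pos
  rw [hm, Nat.mul_div_cancel_left _ hc]
  rw [hm] at hsum
  have h9 : ((∑ k ∈ Finset.range (Fintype.card X * m), Module.finrank K (Z k) : ℕ) : K) =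
      ((m * Module.finrank K (M1 G) : ℕ) : K) := by
    rw [hsum]
    push_cast
    field_simp
  exact Nat.cast_injective h9

end Pool.Agent.PFE.H81
end
end -- Pool.Agent.Helper81_PFE.ZCS
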