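import Pool.Agent.Helper12_AWB.B014

/-!
# Merged copies (generated) of the modules

* `Pool.Agent.PFD.D1.Key`
* `Pool.Agent.Helper33_PFD.LNK`
* `Pool.Agent.Helper34_PFD.GBZ`
* `Pool.Agent.Helper69_PFD.TPB`
* `Pool.Agent.Helper77_PFD.S1B`
* `Pool.Agent.Helper81_PFD.Conn`
* `Pool.Agent.Helper92_PFD.S1A`
* `Pool.Agent.Helper40_PFE.PRJ`
-/

set_option autoImplicit false

section -- Pool.Agent.PFD.D1.Key

/-!
# Squad PFD, block D1: the Casimir rules (helper78)

For a Frobenius system `c` with symmetric form: `FS.m1 .. FS.m4`.  For `D : Net ..`: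
`Net.m1 .. Net.m5` (functions on `B`), `Net.n1, n2, n3` (functions on `A`, applied to elements of
`B`), `Net.k1 .. k4` (the rules for `A`), `Net.cp`, `Net.cp'`, `Net.cq`, `Net.cq'`, `Net.ox ..`.
-/

open scoped BigOperators

noncomputable section

namespace Pool.Agent.PFD

open Pool.Agent.PFC.B1

section bil
variable {R M M' X ι : Type} [CommRing R] [AddCommGroup M] [Module R M]
  [AddCommGroup M'] [Module R M'] [AddCommGroup X] [Module R X] {F : M → M' → X}

theorem Bil.z1 (h : Bil R F) (b : M') : F 0 b = 0 := by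
  have := h.s1 0 0 b
  simpa using this

theorem Bil.z2 (h : Bil R F) (a : M) : F a 0 = 0 := by
  have := h.s2 0 a 0
  simpa using this

theorem Bil.n1 (h : Bil R F) (a : M) (b : M') : F (-a) b = - F a b := by
  have := h.s1 (-1) a b
  simpa using this

theorem Bil.n2 (h : Bil R F) (a : M) (b : M') : F a (-b) = - F a b := by
  have := h.s2 (-1) a b
  simpa using this

theorem Bil.d1 (h : Bil R F) (a a' : M) (b : M') : F (a - a') b = F a b - F a' b := by
  rw [sub_eq_add_neg, h.a1, h.n1, sub_eq_add_neg]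

theorem Bil.d2 (h : Bil R F) (a : M) (b b' : M') : F a (b - b') = F a b - F a b' := by
  rw [sub_eq_add_neg, h.a2, h.n2, sub_eq_add_neg]

theorem Bil.sum1 (h : Bil R F) (s : Finset ι) (f : ι → M) (b : M') :
    F (∑ i ∈ s, f i) b = ∑ i ∈ s, F (f i) b := by
  classical
  induction s using Finset.induction_on with
  | empty => simpa using h.z1 b
  | insert a s ha ih => rw [Finset.sum_insert ha, h.a1, ih, Finset.sum_insert ha]

theorem Bil.sum2 (h : Bil R F) (s : Finset ι) (f : ι → M') (a : M) :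
    F a (∑ i ∈ s, f i) = ∑ i ∈ s, F a (f i) := by
  classical
  induction s using Finset.induction_on with
  | empty => simpa using h.z2 a
  | insert b s hb ih => rw [Finset.sum_insert hb, h.a2, ih, Finset.sum_insert hb]

/-- a bilinear function from linear maps -/
theorem Bil.of (f : M →ₗ[R] M' →ₗ[R] X) : Bil R (fun a b => f a b) :=
  ⟨fun a a' b => by simp, fun a b b' => by simp, fun r a b => by simp, fun r a b => by simp⟩

end bil

section fs
variable {R A J X : Type} [CommRing R] [Ring A] [Algebra R A] [Fintype J] [AddCommGroup X]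
  [Module R X]

theorem FS.m1 (c : FS R A J) {F : A → A → X} (h : Bil R F) (x : A) :
    ∑ i, F (x * c.b i) (c.b' i) = ∑ i, F (c.b i) (c.b' i * x) := by
  have e1 : ∀ i, F (x * c.b i) (c.b' i) =
      ∑ k, c.lam (c.b' k * (x * c.b i)) • F (c.b k) (c.b' i) := fun i => by
    conv_lhs => rw [← c.h1 (x * c.b i), h.sum1]
    exact Finset.sum_congr rfl fun k _ => h.s1 _ _ _
  have e2 : ∀ k, F (c.b k) (c.b' k * x) =
      ∑ i, c.lam (c.b' k * x * c.b i) • F (c.b k) (c.b' i) := fun k => by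
    conv_lhs => rw [← c.h2 (c.b' k * x), h.sum2]
    exact Finset.sum_congr rfl fun i _ => h.s2 _ _ _
  rw [Finset.sum_congr rfl fun i _ => e1 i, Finset.sum_comm,
    Finset.sum_congr rfl fun i _ => e2 i]
  exact Finset.sum_congr rfl fun k _ => Finset.sum_congr rfl fun i _ => by rw [mul_assoc]

theorem FS.m3 (c : FS R A J) (cs : ∀ x y, c.lam (x * y) = c.lam (y * x)) {F : A → A → X}
    (h : Bil R F) : ∑ i, F (c.b i) (c.b' i) = ∑ i, F (c.b' i) (c.b i) := by
  have e1 : ∀ k, F (c.b k) (c.b' k) = ∑ i, c.lam (c.b' i * c.b' k) • F (c.b k) (c.b i) :=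
    fun k => by
    conv_lhs => rw [← c.h1 (c.b' k), h.sum2]
    exact Finset.sum_congr rfl fun i _ => h.s2 _ _ _
  have e2 : ∀ i, F (c.b' i) (c.b i) = ∑ k, c.lam (c.b' k * c.b' i) • F (c.b k) (c.b i) :=
    fun i => by
    conv_lhs => rw [← c.h1 (c.b' i), h.sum1]
    exact Finset.sum_congr rfl fun k _ => h.s1 _ _ _
  rw [Finset.sum_congr rfl fun i _ => e1 i, Finset.sum_comm,
    Finset.sum_congr rfl fun i _ => e2 i]
  exact Finset.sum_congr rfl fun k _ => Finset.sum_congr rfl fun i _ => by rw [cs]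

theorem FS.m2 (c : FS R A J) (cs : ∀ x y, c.lam (x * y) = c.lam (y * x)) {F : A → A → X}
    (h : Bil R F) (x : A) :
    ∑ i, F (c.b i * x) (c.b' i) = ∑ i, F (c.b i) (x * c.b' i) := by
  have e1 : ∀ i, F (c.b i * x) (c.b' i) =
      ∑ k, c.lam (c.b' k * (c.b i * x)) • F (c.b k) (c.b' i) := fun i => by
    conv_lhs => rw [← c.h1 (c.b i * x), h.sum1]
    exact Finset.sum_congr rfl fun k _ => h.s1 _ _ _
  have e2 : ∀ k, F (c.b k) (x * c.b' k) =
      ∑ i, c.lam (x * c.b' k * c.b i) • F (c.b k) (c.b' i) := fun k => by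
    conv_lhs => rw [← c.h2 (x * c.b' k), h.sum2]
    exact Finset.sum_congr rfl fun i _ => h.s2 _ _ _
  rw [Finset.sum_congr rfl fun i _ => e1 i, Finset.sum_comm,
    Finset.sum_congr rfl fun i _ => e2 i]
  exact Finset.sum_congr rfl fun k _ => Finset.sum_congr rfl fun i _ => by
    rw [mul_assoc x, cs x, mul_assoc]

/-- (M4) in its four forms -/
theorem FS.m4a (c : FS R A J) (a : A) : ∑ i, c.lam (a * c.b i) • c.b' i = a := c.h2 a

theorem FS.m4b (c : FS R A J) (cs : ∀ x y, c.lam (x * y) = c.lam (y * x)) (a : A) :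
    ∑ i, c.lam (a * c.b' i) • c.b i = a := by
  conv_rhs => rw [← c.h1 a]
  exact Finset.sum_congr rfl fun i _ => by rw [cs]

theorem FS.m4c (c : FS R A J) (cs : ∀ x y, c.lam (x * y) = c.lam (y * x)) (a : A) :
    ∑ i, c.lam (c.b i * a) • c.b' i = a := by
  conv_rhs => rw [← c.h2 a]
  exact Finset.sum_congr rfl fun i _ => by rw [cs]

theorem FS.m4d (c : FS R A J) (a : A) : ∑ i, c.lam (c.b' i * a) • c.b i = a := c.h1 a

/-- an element is determined by the form -/
theorem FS.ext (c : FS R A J) {a a' : A} (h : ∀ x, c.lam (a * x) = c.lam (a' * x)) : a = a' := by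
  rw [← c.h2 a, ← c.h2 a']
  exact Finset.sum_congr rfl fun i _ => by rw [h]

end fs

section net
variable {R B A I J N X : Type} [CommRing R] [Ring B] [Algebra R B] [Ring A] [Algebra R A]
    [Fintype I] [Fintype J] [Fintype N] [AddCommGroup X] [Module R X] (D : Net R B A I J N)

/-! ### functions on `B` -/

theorem Net.m1 {F : B → B → X} (h : Bil R F) (x : B) :
    ∑ i, F (x * D.c.b i) (D.c.b' i) = ∑ i, F (D.c.b i) (D.c.b' i * x) := FS.m1 D.c h x

theorem Net.m2 {F : B → B → X} (h : Bil R F) (x : B) :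
    ∑ i, F (D.c.b i * x) (D.c.b' i) = ∑ i, F (D.c.b i) (x * D.c.b' i) := FS.m2 D.c D.cs h x

theorem Net.m3 {F : B → B → X} (h : Bil R F) :
    ∑ i, F (D.c.b i) (D.c.b' i) = ∑ i, F (D.c.b' i) (D.c.b i) := FS.m3 D.c D.cs h

theorem Net.m4a (a : B) : ∑ i, D.c.lam (a * D.c.b i) • D.c.b' i = a := D.c.h2 a
theorem Net.m4b (a : B) : ∑ i, D.c.lam (a * D.c.b' i) • D.c.b i = a := FS.m4b D.c D.cs a
theorem Net.m4c (a : B) : ∑ i, D.c.lam (D.c.b i * a) • D.c.b' i = a := FS.m4c D.c D.cs a
theorem Net.m4d (a : B) : ∑ i, D.c.lam (D.c.b' i * a) • D.c.b i = a := D.c.h1 a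

theorem Net.m5 {F : B → B → X} (h : Bil R F) {v : B →ₗ[R] B} {De : B} (hv : D.Der v De) :
    ∑ i, F (D.c.b i) (v (D.c.b' i)) = - ∑ i, F (v (D.c.b i) + D.c.b i * De) (D.c.b' i) := by
  have e1 : ∀ i, F (D.c.b i) (v (D.c.b' i)) =
      ∑ k, D.c.lam (v (D.c.b' i) * D.c.b k) • F (D.c.b i) (D.c.b' k) := fun i => by
    conv_lhs => rw [← D.c.h2 (v (D.c.b' i)), h.sum2]
    exact Finset.sum_congr rfl fun k _ => h.s2 _ _ _
  have e2 : ∀ k, F (v (D.c.b k) + D.c.b k * De) (D.c.b' k) =
      ∑ i, D.c.lam (D.c.b' i * (v (D.c.b k) + D.c.b k * De)) • F (D.c.b i) (D.c.b' k) :=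
    fun k => by
    conv_lhs => rw [← D.c.h1 (v (D.c.b k) + D.c.b k * De), h.sum1]
    exact Finset.sum_congr rfl fun i _ => h.s1 _ _ _
  rw [Finset.sum_congr rfl fun i _ => e1 i, Finset.sum_comm,
    Finset.sum_congr rfl fun k _ => e2 k, ← Finset.sum_neg_distrib]
  refine Finset.sum_congr rfl fun k _ => ?_
  rw [← Finset.sum_neg_distrib]
  refine Finset.sum_congr rfl fun i _ => ?_
  rw [← neg_smul]
  congr 1
  have h1 := hv.div (D.c.b' i * D.c.b k)
  rw [hv.der, map_add] at h1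
  rw [mul_add, map_add, ← mul_assoc]
  linear_combination h1

/-! ### functions on `A`, applied to elements of `B` -/

theorem Net.bilj {F : A → A → X} (h : Bil R F) : Bil R (fun a b => F (D.j a) (D.j b)) :=
  ⟨fun a a' b => by simp only [map_add]; rw [h.a1], fun a b b' => by simp only [map_add]; rw [h.a2],
    fun r a b => by simp only [map_smul]; rw [h.s1], fun r a b => by simp only [map_smul]; rw [h.s2]⟩

theorem Net.n1 {F : A → A → X} (h : Bil R F) (x : B) :
    ∑ i, F (D.j x * D.u i) (D.u' i) = ∑ i, F (D.u i) (D.u' i * D.j x) := by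
  have := D.m1 (D.bilj h) x
  simp only [map_mul] at this
  exact this

theorem Net.n2 {F : A → A → X} (h : Bil R F) (x : B) :
    ∑ i, F (D.u i * D.j x) (D.u' i) = ∑ i, F (D.u i) (D.j x * D.u' i) := by
  have := D.m2 (D.bilj h) x
  simp only [map_mul] at this
  exact this

theorem Net.n3 {F : A → A → X} (h : Bil R F) :
    ∑ i, F (D.u i) (D.u' i) = ∑ i, F (D.u' i) (D.u i) := D.m3 (D.bilj h)

/-! ### the rules for `A` -/

theorem Net.k1 {F : A → A → X} (h : Bil R F) (x : A) :
    ∑ p, F (x * D.d.b p) (D.d.b' p) = ∑ p, F (D.d.b p) (D.d.b' p * x) := FS.m1 D.d h x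

theorem Net.k2 {F : A → A → X} (h : Bil R F) (x : A) :
    ∑ p, F (D.d.b p * x) (D.d.b' p) = ∑ p, F (D.d.b p) (x * D.d.b' p) := FS.m2 D.d D.ds h x

theorem Net.k3 {F : A → A → X} (h : Bil R F) :
    ∑ p, F (D.d.b p) (D.d.b' p) = ∑ p, F (D.d.b' p) (D.d.b p) := FS.m3 D.d D.ds h

theorem Net.k4a (a : A) : ∑ p, D.T (a * D.d.b p) • D.d.b' p = a := D.d.h2 a
theorem Net.k4b (a : A) : ∑ p, D.T (a * D.d.b' p) • D.d.b p = a := FS.m4b D.d D.ds a
theorem Net.k4c (a : A) : ∑ p, D.T (D.d.b p * a) • D.d.b' p = a := FS.m4c D.d D.ds a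
theorem Net.k4d (a : A) : ∑ p, D.T (D.d.b' p * a) • D.d.b p = a := D.d.h1 a

/-! ### the form `T` -/

theorem Net.T_add (a a' : A) : D.T (a + a') = D.T a + D.T a' := map_add _ _ _
theorem Net.T_sub (a a' : A) : D.T (a - a') = D.T a - D.T a' := map_sub _ _ _
theorem Net.T_neg (a : A) : D.T (-a) = - D.T a := map_neg _ _
theorem Net.T_zero : D.T 0 = 0 := map_zero _
theorem Net.T_smul (r : R) (a : A) : D.T (r • a) = r * D.T a := by
  show D.d.lam (r • a) = r * D.d.lam a
  rw [map_smul, smul_eq_mul]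
theorem Net.T_sum {ι : Type} (s : Finset ι) (f : ι → A) : D.T (∑ i ∈ s, f i) = ∑ i ∈ s, D.T (f i) :=
  map_sum _ _ _
theorem Net.T_comm (a b : A) : D.T (a * b) = D.T (b * a) := D.ds a b
theorem Net.T_pr (a : A) : D.T a = D.c.lam (D.pr a) := D.ort a
theorem Net.T_j (b : B) : D.T (D.j b) = D.c.lam b := by rw [D.T_pr, D.pr_j]

/-- `T(b a) = t(b pr a)` -/
theorem Net.T_jl (b : B) (a : A) : D.T (D.j b * a) = D.c.lam (b * D.pr a) := by
  rw [D.T_pr, D.pr_l]

theorem Net.T_jr (a : A) (b : B) : D.T (a * D.j b) = D.c.lam (D.pr a * b) := by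
  rw [D.T_pr, D.pr_r]

/-! ### orthogonality -/

theorem Net.oxr (r : N) (b : B) : D.T (D.x r * D.j b) = 0 := by
  rw [D.T_jr, D.px, zero_mul, map_zero]
theorem Net.oxl (r : N) (b : B) : D.T (D.j b * D.x r) = 0 := by
  rw [D.T_jl, D.px, mul_zero, map_zero]
theorem Net.oyr (r : N) (b : B) : D.T (D.y r * D.j b) = 0 := by
  rw [D.T_jr, D.py, zero_mul, map_zero]
theorem Net.oyl (r : N) (b : B) : D.T (D.j b * D.y r) = 0 := by
  rw [D.T_jl, D.py, mul_zero, map_zero]

/-- `T(q(a) a') = T(a q(a'))` -/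
theorem Net.qadj (a a' : A) : D.T ((a - D.j (D.pr a)) * a') = D.T (a * (a' - D.j (D.pr a'))) := by
  rw [sub_mul, mul_sub, D.T_sub, D.T_sub, D.T_jl, D.T_jr]

/-- `T(q(a) p) = T(a p)` if `pr p = 0` -/
theorem Net.qT (a p : A) (hp : D.pr p = 0) : D.T ((a - D.j (D.pr a)) * p) = D.T (a * p) := by
  rw [D.qadj, hp, map_zero, sub_zero]

theorem Net.qT' (a p : A) (hp : D.pr p = 0) : D.T (p * (a - D.j (D.pr a))) = D.T (p * a) := by
  rw [D.T_comm, D.qT a p hp, D.T_comm]

/-- `j (pr a) = ∑ T(a b_i) b_i'` and its variants -/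
theorem Net.jpr_a (a : A) : D.j (D.pr a) = ∑ i, D.T (a * D.u i) • D.u' i := by
  conv_lhs => rw [← D.c.h2 (D.pr a), map_sum]
  exact Finset.sum_congr rfl fun i _ => by rw [map_smul, Net.u, D.T_jr]; rfl

theorem Net.jpr_b (a : A) : D.j (D.pr a) = ∑ i, D.T (D.u' i * a) • D.u i := by
  conv_lhs => rw [← D.c.h1 (D.pr a), map_sum]
  exact Finset.sum_congr rfl fun i _ => by rw [map_smul, Net.u', D.T_jl]; rfl

theorem Net.jpr_c (a : A) : D.j (D.pr a) = ∑ i, D.T (a * D.u' i) • D.u i := by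
  rw [D.jpr_b]
  exact Finset.sum_congr rfl fun i _ => by rw [D.T_comm]

theorem Net.jpr_d (a : A) : D.j (D.pr a) = ∑ i, D.T (D.u i * a) • D.u' i := by
  rw [D.jpr_a]
  exact Finset.sum_congr rfl fun i _ => by rw [D.T_comm]

/-! ### (CP) and (CQ) -/

theorem Net.cp {F : A → A → X} (h : Bil R F) :
    ∑ r, ∑ i, ∑ l, F (D.u i * D.x r * D.u' l) (D.u l * D.y r * D.u' i) =
      ∑ p, F (D.d.b p) (D.d.b' p) - ∑ i, F (D.u i) (D.u' i) := by
  have e0 : ∀ p, F (D.j (D.pr (D.d.b p))) (D.d.b' p) =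
      ∑ i, D.T (D.u' i * D.d.b p) • F (D.u i) (D.d.b' p) := fun p => by
    rw [D.jpr_b, h.sum1]
    exact Finset.sum_congr rfl fun i _ => h.s1 _ _ _
  have e1 : ∑ p, F (D.j (D.pr (D.d.b p))) (D.d.b' p) = ∑ i, F (D.u i) (D.u' i) := by
    rw [Finset.sum_congr rfl fun p _ => e0 p, Finset.sum_comm]
    refine Finset.sum_congr rfl fun i _ => ?_
    conv_rhs => rw [← D.k4a (D.u' i), h.sum2]
    exact Finset.sum_congr rfl fun p _ => (h.s2 _ _ _).symm
  have e2 : ∀ p, F (D.d.b p - D.j (D.pr (D.d.b p))) (D.d.b' p) =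
      ∑ r, ∑ i, ∑ l, D.T (D.u l * D.y r * D.u' i * D.d.b p) •
        F (D.u i * D.x r * D.u' l) (D.d.b' p) := fun p => by
    rw [← D.cx, h.sum1]
    refine Finset.sum_congr rfl fun r _ => ?_
    rw [h.sum1]
    refine Finset.sum_congr rfl fun i _ => ?_
    rw [h.sum1]
    exact Finset.sum_congr rfl fun l _ => h.s1 _ _ _
  have e3 : ∑ p, F (D.d.b p - D.j (D.pr (D.d.b p))) (D.d.b' p) =
      ∑ r, ∑ i, ∑ l, F (D.u i * D.x r * D.u' l) (D.u l * D.y r * D.u' i) := by
    rw [Finset.sum_congr rfl fun p _ => e2 p, Finset.sum_comm]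
    refine Finset.sum_congr rfl fun r _ => ?_
    rw [Finset.sum_comm]
    refine Finset.sum_congr rfl fun i _ => ?_
    rw [Finset.sum_comm]
    refine Finset.sum_congr rfl fun l _ => ?_
    conv_rhs => rw [← D.k4a (D.u l * D.y r * D.u' i), h.sum2]
    exact Finset.sum_congr rfl fun p _ => (h.s2 _ _ _).symm
  rw [← e3, ← e1, ← Finset.sum_sub_distrib]
  exact Finset.sum_congr rfl fun p _ => h.d1 _ _ _

/-- (CP) with `x` and `y` exchanged -/
theorem Net.cp' {F : A → A → X} (h : Bil R F) :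
    ∑ r, ∑ i, ∑ l, F (D.u i * D.y r * D.u' l) (D.u l * D.x r * D.u' i) =
      ∑ p, F (D.d.b p) (D.d.b' p) - ∑ i, F (D.u i) (D.u' i) := D.op.cp h

/-- (CQ) -/
theorem Net.cq (a : A) : ∑ s, ∑ i, ∑ l, D.T (D.u i * D.x s * D.u l * a) •
    (D.u' l * D.y s * D.u' i) = a - D.j (D.pr a) := by
  rw [← D.cy a]
  refine Finset.sum_congr rfl fun s _ => ?_
  rw [Finset.sum_comm]
  have key : ∀ i : I, Bil R (fun p q : A => D.T (D.u i * D.x s * p * a) • (q * D.y s * D.u' i)) :=
    fun i => ⟨fun p p' q => by simp only [mul_add, add_mul, D.T_add, add_smul],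
      fun p q q' => by simp only [add_mul, smul_add],
      fun r p q => by simp only [mul_smul_comm, smul_mul_assoc, D.T_smul, mul_smul],
      fun r p q => by rw [smul_mul_assoc, smul_mul_assoc, smul_comm]⟩
  rw [Finset.sum_comm]
  calc ∑ i, ∑ l, D.T (D.u i * D.x s * D.u l * a) • (D.u' l * D.y s * D.u' i)
      = ∑ i, ∑ l, D.T (D.u i * D.x s * D.u' l * a) • (D.u l * D.y s * D.u' i) :=
        Finset.sum_congr rfl fun i _ => D.n3 (key i)
    _ = ∑ l, ∑ i, D.T (D.u i * D.x s * D.u' l * a) • (D.u l * D.y s * D.u' i) :=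
        Finset.sum_comm

/-- (CQ) with `x` and `y` exchanged -/
theorem Net.cq' (a : A) : ∑ s, ∑ i, ∑ l, D.T (D.u i * D.y s * D.u l * a) •
    (D.u' l * D.x s * D.u' i) = a - D.j (D.pr a) := D.op.cq a

/-- (CQ) applied to a linear function -/
theorem Net.cqf (f : A →ₗ[R] X) (a : A) : ∑ s, ∑ i, ∑ l, D.T (D.u i * D.x s * D.u l * a) •
    f (D.u' l * D.y s * D.u' i) = f (a - D.j (D.pr a)) := by
  rw [← D.cq a, map_sum]
  refine Finset.sum_congr rfl fun s _ => ?_
  rw [map_sum]
  refine Finset.sum_congr rfl fun i _ => ?_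
  rw [map_sum]
  exact Finset.sum_congr rfl fun l _ => (map_smul _ _ _).symm

/-- `pr` of a two-sided multiple -/
theorem Net.pr_lr (b b' : B) (a : A) : D.pr (D.j b * a * D.j b') = b * D.pr a * b' := by
  rw [D.pr_r, D.pr_l]

end net

end Pool.Agent.PFD
end
end -- Pool.Agent.PFD.D1.Key

section -- Pool.Agent.Helper33_PFD.LNK

/-!
# Squad PFD, row LNK: the 4-gon with `v` in the first corner, as a sum over one wall
-/

open scoped BigOperators

noncomputable section

namespace Pool.Agent.PFD.H33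

open Pool.Agent.PFC.B1 Pool.Agent.PFD

section

variable {R B A I J N : Type} [CommRing R] [Ring B] [Algebra R B] [Ring A] [Algebra R A]
  [Fintype I] [Fintype J] [Fintype N] (D : Net R B A I J N)

/-- the last index of the weight -/
theorem col4 (P : A) (a : B) :
    ∑ i, D.c.lam (a * D.c.b' i) * D.T (P * D.u i) = D.T (P * D.j a) := by
  conv_rhs => rw [← D.m4b a]
  rw [map_sum, Finset.mul_sum, D.T_sum]
  refine Finset.sum_congr rfl fun i _ => ?_
  rw [map_smul, mul_smul_comm, D.T_smul]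
  rfl

/-- the last two indices of the weight -/
theorem col34 (P Q : A) (w β : B) :
    ∑ i3, ∑ i4, D.c.lam (w * β * D.c.b' i3 * D.c.b' i4) * D.T (P * D.u i3 * Q * D.u i4) =
      ∑ i, D.T (P * D.u i * D.j β * Q * D.j w * D.u' i) := by
  have hF : Bil R (fun a b => D.T (P * D.j a * Q * D.j (w * b))) := by
    refine ⟨fun a a' b => ?_, fun a b b' => ?_, fun r a b => ?_, fun r a b => ?_⟩
    · simp only [map_add, mul_add, add_mul, D.T_add]
    · simp only [map_add, mul_add, D.T_add]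
    · simp only [map_smul, mul_smul_comm, smul_mul_assoc, D.T_smul, smul_eq_mul]
    · simp only [map_smul, mul_smul_comm, D.T_smul, smul_eq_mul]
  have h1 : ∀ i3, ∑ i4, D.c.lam (w * β * D.c.b' i3 * D.c.b' i4) *
      D.T (P * D.u i3 * Q * D.u i4) =
      D.T (P * D.j (D.c.b i3) * Q * D.j (w * (β * D.c.b' i3))) := by
    intro i3
    rw [col4 D (P * D.u i3 * Q) (w * β * D.c.b' i3), mul_assoc w]
    rfl
  rw [Finset.sum_congr rfl fun i3 _ => h1 i3, ← D.m2 hF β]
  refine Finset.sum_congr rfl fun i _ => ?_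
  show D.T (P * D.j (D.c.b i * β) * Q * D.j (w * D.c.b' i)) = _
  rw [map_mul, map_mul]
  simp only [mul_assoc]
  rfl

/-- the sum over the dual bases of `A` -/
theorem colp (P Q a : A) :
    ∑ p, D.T (a * D.d.b' p) * D.T (P * D.d.b p * Q) = D.T (P * a * Q) := by
  conv_rhs => rw [← D.k4b a]
  rw [Finset.mul_sum, Finset.sum_mul, D.T_sum]
  refine Finset.sum_congr rfl fun p _ => ?_
  rw [mul_smul_comm, smul_mul_assoc, D.T_smul]

end

theorem rot4 {R I N : Type} [AddCommMonoid R] [Fintype I] [Fintype N] (G : I → N → I → I → R) :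
    ∑ i, ∑ s, ∑ i1, ∑ i2, G i s i1 i2 = ∑ s, ∑ i1, ∑ i2, ∑ i, G i s i1 i2 := by
  rw [Finset.sum_comm]
  refine Finset.sum_congr rfl fun s _ => ?_
  rw [Finset.sum_comm]
  refine Finset.sum_congr rfl fun i1 _ => ?_
  rw [Finset.sum_comm]

/-- LNK -/
theorem lnk : LnkStmt := by
  intro R B A I J N _ _ _ _ _ _ _ _ D v X X'
  have hN : ∀ (r : N) (i : I), ∑ p, D.T (X r * D.d.b p * X' r * D.u i *
      D.Ry v (D.d.b' p) * D.u' i) = ∑ s, ∑ i1, ∑ i2,
        D.T (X r * D.u i1 * D.x s * D.u i2 * X' r * D.u i * D.u' i2 * D.y s *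
          D.j (v (D.c.b' i1)) * D.u' i) := by
    intro r i
    have h1 : ∀ p, D.T (X r * D.d.b p * X' r * D.u i * D.Ry v (D.d.b' p) * D.u' i) =
        ∑ s, ∑ i1, ∑ i2, D.T (D.u i1 * D.x s * D.u i2 * D.d.b' p) *
          D.T (X r * D.d.b p * (X' r * D.u i * (D.u' i2 * D.y s * D.j (v (D.c.b' i1))) *
            D.u' i)) := by
      intro p
      unfold Net.Ry
      rw [Finset.mul_sum, Finset.sum_mul, D.T_sum]
      refine Finset.sum_congr rfl fun s _ => ?_
      rw [Finset.mul_sum, Finset.sum_mul, D.T_sum]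
      refine Finset.sum_congr rfl fun i1 _ => ?_
      rw [Finset.mul_sum, Finset.sum_mul, D.T_sum]
      refine Finset.sum_congr rfl fun i2 _ => ?_
      rw [mul_smul_comm, smul_mul_assoc, D.T_smul]
      simp only [mul_assoc]
    rw [Finset.sum_congr rfl fun p _ => h1 p, Finset.sum_comm]
    refine Finset.sum_congr rfl fun s _ => ?_
    rw [Finset.sum_comm]
    refine Finset.sum_congr rfl fun i1 _ => ?_
    rw [Finset.sum_comm]
    refine Finset.sum_congr rfl fun i2 _ => ?_
    rw [colp]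
    simp only [mul_assoc]
  unfold Net.N4 Net.H4
  refine Finset.sum_congr rfl fun r _ => ?_
  rw [show (∑ i, ∑ p, D.T (X r * D.d.b p * X' r * D.u i * D.Ry v (D.d.b' p) * D.u' i)) = _ from
    Finset.sum_congr rfl fun i _ => hN r i, rot4]
  refine Finset.sum_congr rfl fun s _ => Finset.sum_congr rfl fun i1 _ =>
    Finset.sum_congr rfl fun i2 _ => ?_
  exact col34 D (X r * D.u i1 * D.x s * D.u i2 * X' r) (D.y s) (v (D.c.b' i1))
    (D.c.b' i2)

end Pool.Agent.PFD.H33
end
end -- Pool.Agent.Helper33_PFD.LNK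

section -- Pool.Agent.Helper34_PFD.GBZ

/-!
Row GBZ of squad PFD, block D1: the B-part with a central element (helper34).
-/

open scoped BigOperators

noncomputable section

namespace Pool.Agent.PFD.H34

open Pool.Agent.PFD Pool.Agent.PFC.B1

theorem swap5 {S A B C K M : Type} [Fintype S] [Fintype A] [Fintype B] [Fintype C] [Fintype K]
    [AddCommMonoid M] (f : S → A → B → C → K → M) :
    ∑ s, ∑ a, ∑ b, ∑ c, ∑ k, f s a b c k = ∑ c, ∑ k, ∑ s, ∑ a, ∑ b, f s a b c k := by
  calc ∑ s, ∑ a, ∑ b, ∑ c, ∑ k, f s a b c k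
      = ∑ s, ∑ a, ∑ c, ∑ b, ∑ k, f s a b c k :=
        Finset.sum_congr rfl fun s _ => Finset.sum_congr rfl fun a _ => Finset.sum_comm
    _ = ∑ s, ∑ a, ∑ c, ∑ k, ∑ b, f s a b c k :=
        Finset.sum_congr rfl fun s _ => Finset.sum_congr rfl fun a _ =>
          Finset.sum_congr rfl fun c _ => Finset.sum_comm
    _ = ∑ s, ∑ c, ∑ a, ∑ k, ∑ b, f s a b c k :=
        Finset.sum_congr rfl fun s _ => Finset.sum_comm
    _ = ∑ s, ∑ c, ∑ k, ∑ a, ∑ b, f s a b c k :=
        Finset.sum_congr rfl fun s _ => Finset.sum_congr rfl fun c _ => Finset.sum_comm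
    _ = ∑ c, ∑ s, ∑ k, ∑ a, ∑ b, f s a b c k := Finset.sum_comm
    _ = ∑ c, ∑ k, ∑ s, ∑ a, ∑ b, f s a b c k :=
        Finset.sum_congr rfl fun c _ => Finset.sum_comm

theorem gbz : GbzStmt := by
  intro R B A I J N _ _ _ _ _ _ _ _ D z hz
  unfold Net.GB Net.E Net.w4
  simp only [Lz, I1, LinearMap.mulLeft_apply, LinearMap.id_apply]
  refine Finset.sum_congr rfl fun r _ => ?_
  -- step A
  have hA : ∀ s i1 i2, (∑ i3, ∑ i4, ∑ k,
      D.c.lam (z * D.c.b' i1 * D.c.b' i2 * D.c.b' i3 * D.c.b' i4) *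
        (D.T (D.x r * D.u i1 * D.x s * D.u i2 * D.u k) *
          D.T (D.u' k * D.y r * D.u i3 * D.y s * D.u i4))) =
      ∑ i3, ∑ i4, ∑ k, D.c.lam (z * D.c.b' i1 * D.c.b' i3 * D.c.b' i4) *
        (D.T (D.x r * D.u i1 * D.x s * D.u i2 * D.u k) *
          D.T (D.u' k * D.y r * (D.u i3 * D.u' i2) * D.y s * D.u i4)) := by
    intro s i1 i2
    have hb : Bil R (fun p q : B => ∑ i4, ∑ k,
        D.c.lam (z * D.c.b' i1 * q * D.c.b' i4) *
        (D.T (D.x r * D.u i1 * D.x s * D.u i2 * D.u k) *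
          D.T (D.u' k * D.y r * D.j p * D.y s * D.u i4))) := by
      refine ⟨?_, ?_, ?_, ?_⟩
      · intro a a' b
        simp only [← Finset.sum_add_distrib]
        refine Finset.sum_congr rfl fun i4 _ => Finset.sum_congr rfl fun k _ => ?_
        rw [map_add, mul_add, add_mul, add_mul, D.T_add]
        ring
      · intro a b b'
        simp only [← Finset.sum_add_distrib]
        refine Finset.sum_congr rfl fun i4 _ => Finset.sum_congr rfl fun k _ => ?_
        rw [mul_add, add_mul, map_add]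
        ring
      · intro t a b
        simp only [smul_eq_mul, Finset.mul_sum]
        refine Finset.sum_congr rfl fun i4 _ => Finset.sum_congr rfl fun k _ => ?_
        rw [map_smul, mul_smul_comm, smul_mul_assoc, smul_mul_assoc, D.T_smul]
        ring
      · intro t a b
        simp only [smul_eq_mul, Finset.mul_sum]
        refine Finset.sum_congr rfl fun i4 _ => Finset.sum_congr rfl fun k _ => ?_
        rw [mul_smul_comm, smul_mul_assoc, map_smul, smul_eq_mul]
        ring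
    have h := D.m2 hb (D.c.b' i2)
    refine Eq.trans ?_ (h.symm.trans ?_)
    · refine Finset.sum_congr rfl fun i3 _ => Finset.sum_congr rfl fun i4 _ =>
        Finset.sum_congr rfl fun k _ => ?_
      rw [← mul_assoc (z * D.c.b' i1)]
      rfl
    · refine Finset.sum_congr rfl fun i3 _ => Finset.sum_congr rfl fun i4 _ =>
        Finset.sum_congr rfl fun k _ => ?_
      show _ * (_ * D.T (D.u' k * D.y r * D.j (D.c.b i3 * D.c.b' i2) * D.y s * D.u i4)) = _
      rw [show D.j (D.c.b i3 * D.c.b' i2) = D.u i3 * D.u' i2 from map_mul D.j _ _]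
  -- step B
  have hB : ∀ s i1 i2 i3, (∑ i4, ∑ k, D.c.lam (z * D.c.b' i1 * D.c.b' i3 * D.c.b' i4) *
        (D.T (D.x r * D.u i1 * D.x s * D.u i2 * D.u k) *
          D.T (D.u' k * D.y r * (D.u i3 * D.u' i2) * D.y s * D.u i4))) =
      ∑ k, D.T (D.u i1 * D.x s * D.u i2 * (D.u k * D.x r)) *
          D.T (D.u' k * D.y r * D.u i3 * (D.u' i2 * D.y s * D.u' i1) * (D.j z * D.u' i3)) := by
    intro s i1 i2 i3
    rw [Finset.sum_comm]
    refine Finset.sum_congr rfl fun k _ => ?_
    have h4 := D.m4b (z * D.c.b' i1 * D.c.b' i3)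
    have h5 : D.T (D.u' k * D.y r * (D.u i3 * D.u' i2) * D.y s *
        D.j (z * D.c.b' i1 * D.c.b' i3)) =
        ∑ i4, D.c.lam (z * D.c.b' i1 * D.c.b' i3 * D.c.b' i4) *
          D.T (D.u' k * D.y r * (D.u i3 * D.u' i2) * D.y s * D.u i4) := by
      conv_lhs => rw [← h4]
      rw [map_sum, Finset.mul_sum, D.T_sum]
      refine Finset.sum_congr rfl fun i4 _ => ?_
      rw [map_smul, mul_smul_comm, D.T_smul]
      rfl
    have h6 : D.T (D.x r * D.u i1 * D.x s * D.u i2 * D.u k) =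
        D.T (D.u i1 * D.x s * D.u i2 * (D.u k * D.x r)) := by
      rw [show D.x r * D.u i1 * D.x s * D.u i2 * D.u k =
        D.x r * (D.u i1 * D.x s * D.u i2 * D.u k) by simp only [mul_assoc], D.T_comm]
      simp only [mul_assoc]
    have h7 : D.j (z * D.c.b' i1 * D.c.b' i3) = D.u' i1 * (D.j z * D.u' i3) := by
      rw [hz, map_mul, map_mul, mul_assoc]
      rfl
    rw [h7] at h5
    have h8 : D.u' k * D.y r * (D.u i3 * D.u' i2) * D.y s * (D.u' i1 * (D.j z * D.u' i3)) =
        D.u' k * D.y r * D.u i3 * (D.u' i2 * D.y s * D.u' i1) * (D.j z * D.u' i3) := by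
      simp only [mul_assoc]
    rw [h8] at h5
    rw [h5, ← h6, Finset.mul_sum]
    refine Finset.sum_congr rfl fun i4 _ => ?_
    ring
  have hAB : ∀ s i1 i2, (∑ i3, ∑ i4, ∑ k,
      D.c.lam (z * D.c.b' i1 * D.c.b' i2 * D.c.b' i3 * D.c.b' i4) *
        (D.T (D.x r * D.u i1 * D.x s * D.u i2 * D.u k) *
          D.T (D.u' k * D.y r * D.u i3 * D.y s * D.u i4))) =
      ∑ i3, ∑ k, D.T (D.u i1 * D.x s * D.u i2 * (D.u k * D.x r)) *
          D.T (D.u' k * D.y r * D.u i3 * (D.u' i2 * D.y s * D.u' i1) * (D.j z * D.u' i3)) :=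
    fun s i1 i2 => (hA s i1 i2).trans (Finset.sum_congr rfl fun i3 _ => hB s i1 i2 i3)
  rw [Finset.sum_congr rfl fun s _ => Finset.sum_congr rfl fun i1 _ =>
    Finset.sum_congr rfl fun i2 _ => hAB s i1 i2]
  rw [swap5]
  refine Finset.sum_congr rfl fun i3 _ => Finset.sum_congr rfl fun k _ => ?_
  -- step C
  let f : A →ₗ[R] R := D.d.lam ∘ₗ (LinearMap.mulLeft R (D.u' k * D.y r * D.u i3)) ∘ₗ
    (LinearMap.mulRight R (D.j z * D.u' i3))
  have hf : ∀ v, f v = D.T (D.u' k * D.y r * D.u i3 * v * (D.j z * D.u' i3)) := by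
    intro v
    show D.d.lam (D.u' k * D.y r * D.u i3 * (v * (D.j z * D.u' i3))) = _
    rw [← mul_assoc]
    rfl
  have h9 := D.cqf f (D.u k * D.x r)
  have h10 : D.u k * D.x r - D.j (D.pr (D.u k * D.x r)) = D.u k * D.x r := by
    rw [Net.u, D.pr_l, D.px, mul_zero, map_zero, sub_zero]
  rw [h10, hf] at h9
  have h11 : D.u' k * D.y r * D.u i3 * (D.u k * D.x r) * (D.j z * D.u' i3) =
      D.u' k * D.y r * D.u i3 * D.u k * D.x r * D.j z * D.u' i3 := by
    simp only [mul_assoc]
  rw [h11] at h9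
  rw [← h9]
  refine Finset.sum_congr rfl fun s _ => Finset.sum_congr rfl fun i1 _ =>
    Finset.sum_congr rfl fun i2 _ => ?_
  rw [hf, smul_eq_mul]

end Pool.Agent.PFD.H34
end
end -- Pool.Agent.Helper34_PFD.GBZ

section -- Pool.Agent.Helper69_PFD.TPB

/-!
# Row TPB of squad PFD: the trace on `P^B`
-/

open scoped BigOperators

noncomputable section

namespace Pool.Agent.PFD.H69

open Pool.Agent.PFC.B1

section
variable {K B A I J N : Type} [Field K] [Ring B] [Algebra K B] [Ring A] [Algebra K A]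
    [Module.Finite K A] [Fintype I] [Fintype J] [Fintype N] (D : Net K B A I J N)

/-- `a ↦ ∑ b_i a b_i'` -/
def tpbT : A →ₗ[K] A where
  toFun := fun a => ∑ i, D.u i * a * D.u' i
  map_add' := fun a a' => by
    simp only [mul_add, add_mul, Finset.sum_add_distrib]
  map_smul' := fun r a => by
    simp only [mul_smul_comm, smul_mul_assoc, RingHom.id_apply, Finset.smul_sum]

/-- `p ↦ ∑ T(y_r p b_l) x_r b_l'` -/
def tpbB : A →ₗ[K] A where
  toFun := fun p => ∑ r, ∑ l, D.T (D.y r * p * D.u l) • (D.x r * D.u' l)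
  map_add' := fun a a' => by
    simp only [mul_add, add_mul, D.T_add, add_smul, Finset.sum_add_distrib]
  map_smul' := fun r a => by
    simp only [mul_smul_comm, smul_mul_assoc, RingHom.id_apply, Finset.smul_sum, D.T_smul,
      mul_smul]

theorem tpbT_comm (a : A) (b : B) : D.j b * tpbT D a = tpbT D a * D.j b := by
  show D.j b * (∑ i, D.u i * a * D.u' i) = (∑ i, D.u i * a * D.u' i) * D.j b
  have h : Bil K (fun p q : A => p * a * q) :=
    ⟨fun p p' q => by simp only [add_mul], fun p q q' => by simp only [mul_add],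
      fun r p q => by simp only [smul_mul_assoc], fun r p q => by simp only [mul_smul_comm]⟩
  have h1 := D.n1 h b
  rw [Finset.mul_sum, Finset.sum_mul]
  calc ∑ i, D.j b * (D.u i * a * D.u' i) = ∑ i, D.j b * D.u i * a * D.u' i :=
        Finset.sum_congr rfl fun i _ => by simp only [mul_assoc]
    _ = ∑ i, D.u i * a * (D.u' i * D.j b) := h1
    _ = ∑ i, D.u i * a * D.u' i * D.j b :=
        Finset.sum_congr rfl fun i _ => by simp only [mul_assoc]

theorem tpb_fix (p : D.PB) : tpbT D (tpbB D (p : A)) = p := by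
  obtain ⟨p, hp0, hp⟩ := p
  show ∑ i, D.u i * (∑ r, ∑ l, D.T (D.y r * p * D.u l) • (D.x r * D.u' l)) * D.u' i = p
  have e1 : ∀ i, D.u i * (∑ r, ∑ l, D.T (D.y r * p * D.u l) • (D.x r * D.u' l)) * D.u' i
      = ∑ r, ∑ l, D.T (D.u l * D.y r * D.u' i * p) • (D.u i * D.x r * D.u' l) := by
    intro i
    rw [Finset.mul_sum, Finset.sum_mul]
    refine Finset.sum_congr rfl fun r _ => ?_
    rw [Finset.mul_sum, Finset.sum_mul]
    have hb : Bil K (fun c q : A => D.T (D.y r * p * c) • (D.u i * D.x r * q)) :=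
      ⟨fun c c' q => by simp only [mul_add, D.T_add, add_smul],
        fun c q q' => by simp only [mul_add, smul_add],
        fun s c q => by simp only [mul_smul_comm, D.T_smul, mul_smul],
        fun s c q => by simp only [mul_smul_comm]; rw [smul_comm]⟩
    have h1 := D.n1 hb (D.c.b' i)
    calc ∑ l, D.u i * (D.T (D.y r * p * D.u l) • (D.x r * D.u' l)) * D.u' i
        = ∑ l, D.T (D.y r * p * D.u l) • (D.u i * D.x r * (D.u' l * D.j (D.c.b' i))) :=
          Finset.sum_congr rfl fun l _ => by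
            rw [mul_smul_comm, smul_mul_assoc]
            simp only [mul_assoc, Net.u']
      _ = ∑ l, D.T (D.y r * p * (D.j (D.c.b' i) * D.u l)) • (D.u i * D.x r * D.u' l) := h1.symm
      _ = ∑ l, D.T (D.u l * D.y r * D.u' i * p) • (D.u i * D.x r * D.u' l) :=
          Finset.sum_congr rfl fun l _ => by
            have e2 : D.y r * p * (D.j (D.c.b' i) * D.u l)
                = D.y r * (D.j (D.c.b' i) * p) * D.u l := by
              rw [hp (D.c.b' i)]
              simp only [mul_assoc]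
            rw [e2, D.T_comm]
            simp only [mul_assoc, Net.u']
  rw [Finset.sum_congr rfl fun i _ => e1 i, Finset.sum_comm]
  have h2 := D.cx p
  rw [hp0, map_zero, sub_zero] at h2
  exact h2

end

theorem tpb (trf : TrfStmt) : TpbStmt := by
  intro K B A I J N _ _ _ _ _ _ _ _ _ D g h hg hh
  let G : A →ₗ[K] D.PB := (g ∘ₗ tpbT D).codRestrict D.PB
    (fun a => hg _ (fun b => tpbT_comm D a b))
  let F : D.PB →ₗ[K] A := (tpbB D) ∘ₗ D.PB.subtype
  have e0 : h = G ∘ₗ F := by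
    apply LinearMap.ext
    intro p
    apply Subtype.ext
    rw [hh p]
    show g p = g (tpbT D (tpbB D (p : A)))
    rw [tpb_fix]
  rw [e0, LinearMap.trace_comp_comm' F G, trf K A J D.d (F ∘ₗ G)]
  have e1 : ∀ p, D.d.lam (D.d.b' p * (F ∘ₗ G) (D.d.b p)) =
      ∑ r, ∑ l, D.T (D.y r * g (tpbT D (D.d.b p)) * D.u l) *
        D.T (D.d.b' p * (D.x r * D.u' l)) := by
    intro p
    show D.T (D.d.b' p * ∑ r, ∑ l, D.T (D.y r * g (tpbT D (D.d.b p)) * D.u l) •
      (D.x r * D.u' l)) = _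
    rw [Finset.mul_sum, D.T_sum]
    refine Finset.sum_congr rfl fun r _ => ?_
    rw [Finset.mul_sum, D.T_sum]
    refine Finset.sum_congr rfl fun l _ => ?_
    rw [mul_smul_comm, D.T_smul]
  rw [Finset.sum_congr rfl fun p _ => e1 p, Finset.sum_comm]
  refine Finset.sum_congr rfl fun r _ => ?_
  conv_rhs => rw [Finset.sum_comm]
  conv_lhs => rw [Finset.sum_comm]
  refine Finset.sum_congr rfl fun l _ => ?_
  -- the linear functional
  let L : A →ₗ[K] K :=
    { toFun := fun z => D.T (D.y r * g (tpbT D z) * D.u l)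
      map_add' := fun z z' => by simp only [map_add, mul_add, add_mul, D.T_add]
      map_smul' := fun s z => by
        simp only [map_smul, mul_smul_comm, smul_mul_assoc, D.T_smul, RingHom.id_apply,
          smul_eq_mul] }
  have e2 : ∑ p, D.T (D.y r * g (tpbT D (D.d.b p)) * D.u l) * D.T (D.d.b' p * (D.x r * D.u' l))
      = L (D.x r * D.u' l) := by
    conv_rhs => rw [← D.k4d (D.x r * D.u' l), map_sum]
    refine Finset.sum_congr rfl fun p _ => ?_
    rw [map_smul, smul_eq_mul, mul_comm]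
    rfl
  rw [e2]
  show D.T (D.y r * g (∑ i, D.u i * (D.x r * D.u' l) * D.u' i) * D.u l) = _
  rw [map_sum, Finset.mul_sum, Finset.sum_mul, D.T_sum]
  refine Finset.sum_congr rfl fun i _ => ?_
  rw [mul_assoc, D.T_comm]
  simp only [mul_assoc]

end Pool.Agent.PFD.H69
end
end -- Pool.Agent.Helper69_PFD.TPB

section -- Pool.Agent.Helper77_PFD.S1B

/-!
# Squad PFD, row S1B (helper77): flips of the Casimir tensor
-/

open scoped BigOperators

noncomputable section

namespace Pool.Agent.PFD.H77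

open Pool.Agent.PFC.B1

section
variable {R B A I J N X : Type} [CommRing R] [Ring B] [Algebra R B] [Ring A] [Algebra R A]
    [Fintype I] [Fintype J] [Fintype N] [AddCommGroup X] [Module R X]

theorem bilG (D : Net R B A I J N) (p q : A) :
    Bil R (fun a b : B => D.T (p * D.j a * q * D.j b)) :=
  ⟨fun a a' b => by simp only [map_add, mul_add, add_mul, D.T_add],
   fun a b b' => by simp only [map_add, mul_add, D.T_add],
   fun r a b => by simp only [map_smul, mul_smul_comm, smul_mul_assoc, D.T_smul, smul_eq_mul],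
   fun r a b => by simp only [map_smul, mul_smul_comm, D.T_smul, smul_eq_mul]⟩

theorem bil_flip {F : B → B → X} (h : Bil R F) : Bil R (fun a b => F b a) :=
  ⟨fun a a' b => h.a2 _ _ _, fun a b b' => h.a1 _ _ _, fun r a b => h.s2 _ _ _,
   fun r a b => h.s1 _ _ _⟩

theorem bil_l {F : B → B → X} (h : Bil R F) (f : B →ₗ[R] B) : Bil R (fun a b => F (f a) b) :=
  ⟨fun a a' b => by rw [map_add, h.a1], fun a b b' => h.a2 _ _ _,
   fun r a b => by rw [map_smul, h.s1], fun r a b => h.s2 _ _ _⟩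

/-- `E z` for the flipped family, as a sum of values of `G_r` -/
theorem E_op_eq (D : Net R B A I J N) (z : B) :
    D.op.E z = ∑ r, ∑ i, ∑ k, D.T (D.y r * D.j (z * (D.c.b' i * D.c.b' k)) * D.x r *
      D.j (D.c.b i * D.c.b k)) := by
  refine Finset.sum_congr rfl fun r _ => Finset.sum_congr rfl fun i _ =>
    Finset.sum_congr rfl fun k _ => ?_
  show D.T (D.u' k * D.x r * D.u i * D.u k * D.y r * D.j z * D.u' i) = _
  have e1 : D.u' k * D.x r * D.u i * D.u k * D.y r * D.j z * D.u' i =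
      (D.u' k * D.x r * D.u i * D.u k) * (D.y r * D.j z * D.u' i) := by noncomm_ring
  rw [e1, D.T_comm]
  congr 1
  simp only [map_mul, Net.u, Net.u']
  noncomm_ring

theorem E_eq (D : Net R B A I J N) (z : B) :
    D.E z = ∑ r, ∑ i, ∑ k, D.T (D.y r * D.j (D.c.b i * D.c.b k) * D.x r *
      D.j (z * (D.c.b' i * D.c.b' k))) := by
  refine Finset.sum_congr rfl fun r _ => Finset.sum_congr rfl fun i _ =>
    Finset.sum_congr rfl fun k _ => ?_
  have e1 : D.u' k * D.y r * D.u i * D.u k * D.x r * D.j z * D.u' i =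
      D.u' k * (D.y r * D.u i * D.u k * D.x r * D.j z * D.u' i) := by noncomm_ring
  rw [e1, D.T_comm]
  congr 1
  simp only [map_mul, Net.u, Net.u']
  noncomm_ring

theorem e1_op_eq (D : Net R B A I J N) (v : B →ₗ[R] B) :
    D.op.e1 v = ∑ r, ∑ i, ∑ k, D.T (D.y r * D.j (D.c.b i * D.c.b k) * D.x r *
      D.j (v (D.c.b' i * D.c.b' k))) := by
  refine Finset.sum_congr rfl fun r _ => Finset.sum_congr rfl fun i _ =>
    Finset.sum_congr rfl fun k _ => ?_
  show D.T (D.x r * D.j (v (D.c.b' i * D.c.b' k)) * D.y r * D.j (D.c.b i * D.c.b k)) = _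
  rw [mul_assoc (D.x r * D.j (v (D.c.b' i * D.c.b' k))), D.T_comm]
  congr 1
  noncomm_ring

theorem E_op (hK : KapStmt) (D : Net R B A I J N) (z : B) (hz : ∀ a, z * a = a * z) :
    D.op.E z = D.E z := by
  rw [E_op_eq, E_eq]
  refine Finset.sum_congr rfl fun r _ => ?_
  have h1 := (hK R B A I J N R D _ (bilG D (D.y r) (D.x r))).2.2.2.1 z hz
  have h2 := (hK R B A I J N R D _
    (bil_flip (bil_l (bil_flip (bilG D (D.y r) (D.x r))) (LinearMap.mulLeft R z)))).1
  simp only [LinearMap.mulLeft_apply] at h2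
  exact h1.trans h2

theorem e1_sum (hK : KapStmt) (D : Net R B A I J N) (v : B →ₗ[R] B) (De : B) (hv : D.Der v De) :
    D.e1 v + D.op.e1 v = - (2 * D.op.E De) := by
  rw [e1_op_eq, E_op_eq]
  unfold Net.e1
  rw [← Finset.sum_add_distrib, Finset.mul_sum, ← Finset.sum_neg_distrib]
  refine Finset.sum_congr rfl fun r _ => ?_
  have h1 := (hK R B A I J N R D _ (bilG D (D.y r) (D.x r))).2.2.2.2 v De hv
  have h2 := (hK R B A I J N R D _
    (bil_flip (bil_l (bil_flip (bilG D (D.y r) (D.x r))) v))).1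
  simp only [smul_eq_mul] at h1
  rw [← h1, h2]

end

theorem s1b (hK : KapStmt) : S1bStmt := by
  intro R B A I J N _ _ _ _ _ _ _ _ D v De hv
  have hE := E_op hK D De hv.cen
  exact ⟨by rw [e1_sum hK D v De hv, hE], hE⟩

end Pool.Agent.PFD.H77
end
end -- Pool.Agent.Helper77_PFD.S1B

section -- Pool.Agent.Helper81_PFD.Conn

/-!
Squad PFD, rows CON, DPP (helper81).
-/

set_option autoImplicit false

open scoped BigOperators

namespace Pool.Agent.PFD.H81

open Pool.Agent.PFC.B1

section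

variable {R B A I J N : Type} [CommRing R] [Ring B] [Algebra R B] [Ring A] [Algebra R A]
    [Fintype I] [Fintype J] [Fintype N] (D : Net R B A I J N)

theorem Ry_def (v : B →ₗ[R] B) (a : A) : D.Ry v a =
    ∑ s, ∑ i, ∑ l, D.T (D.u i * D.x s * D.u l * a) • (D.u' l * D.y s * D.j (v (D.c.b' i))) := rfl

theorem Ly_def (v : B →ₗ[R] B) (a : A) : D.Ly v a =
    ∑ s, ∑ i, ∑ l, D.T (D.u i * D.x s * D.u l * a) • (D.j (v (D.c.b' l)) * D.y s * D.u' i) := rfl

theorem Ry_add (v : B →ₗ[R] B) (a a' : A) : D.Ry v (a + a') = D.Ry v a + D.Ry v a' := by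
  simp only [Ry_def, mul_add, D.T_add, add_smul, Finset.sum_add_distrib]

theorem Ly_add (v : B →ₗ[R] B) (a a' : A) : D.Ly v (a + a') = D.Ly v a + D.Ly v a' := by
  simp only [Ly_def, mul_add, D.T_add, add_smul, Finset.sum_add_distrib]

theorem Ry_smul (v : B →ₗ[R] B) (r : R) (a : A) : D.Ry v (r • a) = r • D.Ry v a := by
  simp only [Ry_def, mul_smul_comm, D.T_smul, Finset.smul_sum, smul_smul]

theorem Ly_smul (v : B →ₗ[R] B) (r : R) (a : A) : D.Ly v (r • a) = r • D.Ly v a := by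
  simp only [Ly_def, mul_smul_comm, D.T_smul, Finset.smul_sum, smul_smul]

theorem Ry_left (v : B →ₗ[R] B) (b : B) (a : A) : D.Ry v (D.j b * a) = D.j b * D.Ry v a := by
  simp only [Ry_def, Finset.mul_sum]
  refine Finset.sum_congr rfl fun s _ => Finset.sum_congr rfl fun i _ => ?_
  have hB : Bil R (fun p q : A => D.T (D.u i * D.x s * p * a) •
      (q * D.y s * D.j (v (D.c.b' i)))) :=
    ⟨fun p p' q => by simp only [mul_add, add_mul, D.T_add, add_smul],
      fun p q q' => by simp only [add_mul, smul_add],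
      fun r p q => by simp only [mul_smul_comm, smul_mul_assoc, D.T_smul, mul_smul],
      fun r p q => by rw [smul_mul_assoc, smul_mul_assoc, smul_comm]⟩
  have h := D.n2 hB b
  simp only [mul_assoc] at h ⊢
  rw [h]
  exact Finset.sum_congr rfl fun l _ => (mul_smul_comm _ _ _).symm

theorem Ly_right (v : B →ₗ[R] B) (a : A) (b : B) : D.Ly v (a * D.j b) = D.Ly v a * D.j b := by
  simp only [Ly_def, Finset.sum_mul]
  refine Finset.sum_congr rfl fun s _ => ?_
  rw [Finset.sum_comm]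
  conv_rhs => rw [Finset.sum_comm]
  refine Finset.sum_congr rfl fun l _ => ?_
  have hB : Bil R (fun p q : A => D.T (p * D.x s * D.u l * a) •
      (D.j (v (D.c.b' l)) * D.y s * q)) :=
    ⟨fun p p' q => by simp only [add_mul, D.T_add, add_smul],
      fun p q q' => by simp only [mul_add, smul_add],
      fun r p q => by simp only [smul_mul_assoc, D.T_smul, mul_smul],
      fun r p q => by rw [mul_smul_comm, smul_comm]⟩
  have h := D.n1 hB b
  calc ∑ i, D.T (D.u i * D.x s * D.u l * (a * D.j b)) • (D.j (v (D.c.b' l)) * D.y s * D.u' i)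
      = ∑ i, D.T (D.j b * D.u i * D.x s * D.u l * a) •
          (D.j (v (D.c.b' l)) * D.y s * D.u' i) := by
        refine Finset.sum_congr rfl fun i _ => ?_
        rw [← mul_assoc, D.T_comm]
        simp only [mul_assoc]
    _ = ∑ i, D.T (D.u i * D.x s * D.u l * a) •
          (D.j (v (D.c.b' l)) * D.y s * (D.u' i * D.j b)) := h
    _ = ∑ i, D.T (D.u i * D.x s * D.u l * a) •
          (D.j (v (D.c.b' l)) * D.y s * D.u' i) * D.j b := by
        refine Finset.sum_congr rfl fun i _ => ?_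
        rw [smul_mul_assoc]
        simp only [mul_assoc]

theorem Ry_right (v : B →ₗ[R] B) {De : B} (hv : D.Der v De) (a : A) (b : B) :
    D.Ry v (a * D.j b) = D.Ry v a * D.j b + (a - D.j (D.pr a)) * D.j (v b) := by
  rw [← D.cq a, Ry_def, Ry_def, Finset.sum_mul, Finset.sum_mul, ← Finset.sum_add_distrib]
  refine Finset.sum_congr rfl fun s _ => ?_
  rw [Finset.sum_comm, Finset.sum_comm (f := fun i l => D.T (D.u i * D.x s * D.u l * a) •
      (D.u' l * D.y s * D.j (v (D.c.b' i)))), Finset.sum_comm (f := fun i l =>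
      D.T (D.u i * D.x s * D.u l * a) • (D.u' l * D.y s * D.u' i)), Finset.sum_mul, Finset.sum_mul,
    ← Finset.sum_add_distrib]
  refine Finset.sum_congr rfl fun l _ => ?_
  have hB : Bil R (fun p q : B => D.T (D.j p * D.x s * D.u l * a) •
      (D.u' l * D.y s * D.j (v q))) :=
    ⟨fun p p' q => by simp only [map_add, add_mul, D.T_add, add_smul],
      fun p q q' => by simp only [map_add, mul_add, smul_add],
      fun r p q => by simp only [map_smul, smul_mul_assoc, D.T_smul, mul_smul],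
      fun r p q => by rw [map_smul, map_smul, mul_smul_comm, smul_comm]⟩
  have h := D.m1 hB b
  calc ∑ i, D.T (D.u i * D.x s * D.u l * (a * D.j b)) • (D.u' l * D.y s * D.j (v (D.c.b' i)))
      = ∑ i, D.T (D.j (b * D.c.b i) * D.x s * D.u l * a) •
          (D.u' l * D.y s * D.j (v (D.c.b' i))) := by
        refine Finset.sum_congr rfl fun i _ => ?_
        rw [← mul_assoc, D.T_comm, map_mul]
        simp only [mul_assoc]
        rfl
    _ = ∑ i, D.T (D.j (D.c.b i) * D.x s * D.u l * a) •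
          (D.u' l * D.y s * D.j (v (D.c.b' i * b))) := h
    _ = _ := by
        rw [Finset.sum_mul, Finset.sum_mul, ← Finset.sum_add_distrib]
        refine Finset.sum_congr rfl fun i _ => ?_
        rw [hv.der, map_add, map_mul, map_mul, mul_add, smul_add, smul_mul_assoc, smul_mul_assoc]
        simp only [mul_assoc]
        rfl

theorem Ly_left (v : B →ₗ[R] B) {De : B} (hv : D.Der v De) (b : B) (a : A) :
    D.Ly v (D.j b * a) = D.j (v b) * (a - D.j (D.pr a)) + D.j b * D.Ly v a := by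
  rw [← D.cq a, Ly_def, Ly_def, Finset.mul_sum, Finset.mul_sum, ← Finset.sum_add_distrib]
  refine Finset.sum_congr rfl fun s _ => ?_
  rw [Finset.mul_sum, Finset.mul_sum, ← Finset.sum_add_distrib]
  refine Finset.sum_congr rfl fun i _ => ?_
  have hB : Bil R (fun p q : B => D.T (D.u i * D.x s * D.j p * a) •
      (D.j (v q) * D.y s * D.u' i)) :=
    ⟨fun p p' q => by simp only [map_add, mul_add, add_mul, D.T_add, add_smul],
      fun p q q' => by simp only [map_add, add_mul, smul_add],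
      fun r p q => by simp only [map_smul, mul_smul_comm, smul_mul_assoc, D.T_smul, mul_smul],
      fun r p q => by rw [map_smul, map_smul, smul_mul_assoc, smul_mul_assoc, smul_comm]⟩
  have h := D.m2 hB b
  calc ∑ l, D.T (D.u i * D.x s * D.u l * (D.j b * a)) • (D.j (v (D.c.b' l)) * D.y s * D.u' i)
      = ∑ l, D.T (D.u i * D.x s * D.j (D.c.b l * b) * a) •
          (D.j (v (D.c.b' l)) * D.y s * D.u' i) := by
        refine Finset.sum_congr rfl fun l _ => ?_
        rw [map_mul]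
        simp only [mul_assoc]
        rfl
    _ = ∑ l, D.T (D.u i * D.x s * D.j (D.c.b l) * a) •
          (D.j (v (b * D.c.b' l)) * D.y s * D.u' i) := h
    _ = _ := by
        rw [Finset.mul_sum, Finset.mul_sum, ← Finset.sum_add_distrib]
        refine Finset.sum_congr rfl fun l _ => ?_
        rw [hv.der, map_add, map_mul, map_mul, add_mul, add_mul, smul_add, mul_smul_comm,
          mul_smul_comm]
        simp only [mul_assoc]
        rfl

end

/-- row CON -/
theorem con : ConStmt := by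
  intro R B A I J N _ _ _ _ _ _ _ _ D v De hv
  refine ⟨Ry_add D v, Ry_smul D v, Ry_left D v, Ry_right D v hv, ?_, ?_, Ly_add D v, Ly_smul D v,
    Ly_right D v, Ly_left D v hv⟩
  · rw [Ry_def]
    refine Finset.sum_eq_zero fun s _ => Finset.sum_eq_zero fun i _ => Finset.sum_eq_zero
      fun l _ => ?_
    rw [mul_one, D.T_pr]
    have h := D.pr_lr (D.c.b i) (D.c.b l) (D.x s)
    rw [D.px, mul_zero, zero_mul] at h
    have h2 : D.pr (D.u i * D.x s * D.u l) = 0 := h
    rw [h2, map_zero, zero_smul]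
  · intro a
    rw [Ry_def, map_sum]
    refine Finset.sum_eq_zero fun s _ => ?_
    rw [map_sum]
    refine Finset.sum_eq_zero fun i _ => ?_
    rw [map_sum]
    refine Finset.sum_eq_zero fun l _ => ?_
    rw [map_smul]
    have h := D.pr_lr (D.c.b' l) (v (D.c.b' i)) (D.y s)
    rw [D.py, mul_zero, zero_mul] at h
    have h2 : D.pr (D.u' l * D.y s * D.j (v (D.c.b' i))) = 0 := h
    rw [h2, smul_zero]

/-- row DPP -/
theorem dpp : DppStmt := by
  intro R B A I J N _ _ _ _ _ _ _ _ D z _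
  -- the right side
  have hR : D.H4 D.x D.y D.x D.y (Lz R z) (I1 R B) (I1 R B) (I1 R B) =
      ∑ s, ∑ r, ∑ i, ∑ l, ∑ k, D.T (D.x s * D.u i * D.x r * D.u l * D.y s * D.u k * D.y r *
        (D.j z * D.u' i * D.u' l * D.u' k)) := by
    unfold Net.H4
    refine Finset.sum_congr rfl fun s _ => Finset.sum_congr rfl fun r _ =>
      Finset.sum_congr rfl fun i _ => Finset.sum_congr rfl fun l _ =>
      Finset.sum_congr rfl fun k _ => ?_
    have h1 : D.j z * D.u' i * D.u' l * D.u' k =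
        ∑ m, D.c.lam (z * D.c.b' i * D.c.b' l * D.c.b' k * D.c.b' m) • D.u m := by
      have h2 : D.j z * D.u' i * D.u' l * D.u' k = D.j (z * D.c.b' i * D.c.b' l * D.c.b' k) := by
        rw [map_mul, map_mul, map_mul]
        rfl
      rw [h2]
      conv_lhs => rw [← D.m4b (z * D.c.b' i * D.c.b' l * D.c.b' k), map_sum]
      exact Finset.sum_congr rfl fun m _ => map_smul _ _ _
    rw [h1, Finset.mul_sum, D.T_sum]
    refine Finset.sum_congr rfl fun m _ => ?_
    rw [mul_smul_comm, D.T_smul]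
    rfl
  rw [hR]
  refine Finset.sum_congr rfl fun s _ => ?_
  rw [Finset.sum_comm]
  refine Finset.sum_congr rfl fun r _ => ?_
  rw [Finset.sum_comm]
  refine Finset.sum_congr rfl fun i _ => ?_
  -- first move, on `l`
  have h1 : ∀ k, ∑ l, D.T (D.j z * (D.u k * D.x s * (D.u i * D.x r * D.u' l * D.u' i) *
      D.y s * D.u' k) * D.u l * D.y r) = ∑ l, D.T (D.x s * D.u i * D.x r * D.u' l * D.y s *
        (D.u' k * (D.u' i * D.u l)) * D.y r * D.j z * D.u k) := by
    intro k
    have hB : Bil R (fun p q : A => D.T (D.x s * D.u i * D.x r * q * D.y s * (D.u' k * p) *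
        D.y r * D.j z * D.u k)) :=
      ⟨fun p p' q => by simp only [mul_add, add_mul, D.T_add],
        fun p q q' => by simp only [mul_add, add_mul, D.T_add],
        fun r p q => by simp only [mul_smul_comm, smul_mul_assoc, D.T_smul, smul_eq_mul],
        fun r p q => by simp only [mul_smul_comm, smul_mul_assoc, D.T_smul, smul_eq_mul]⟩
    have h2 := D.n1 hB (D.c.b' i)
    calc ∑ l, D.T (D.j z * (D.u k * D.x s * (D.u i * D.x r * D.u' l * D.u' i) *
          D.y s * D.u' k) * D.u l * D.y r)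
        = ∑ l, D.T (D.x s * D.u i * D.x r * (D.u' l * D.j (D.c.b' i)) * D.y s *
            (D.u' k * D.u l) * D.y r * D.j z * D.u k) := by
          refine Finset.sum_congr rfl fun l _ => ?_
          have h3 : D.j z * (D.u k * D.x s * (D.u i * D.x r * D.u' l * D.u' i) *
              D.y s * D.u' k) * D.u l * D.y r = (D.j z * D.u k) * (D.x s * D.u i * D.x r *
              (D.u' l * D.j (D.c.b' i)) * D.y s * (D.u' k * D.u l) * D.y r) := by
            simp only [mul_assoc]
            rfl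
          rw [h3, D.T_comm]
          simp only [mul_assoc]
      _ = _ := h2.symm
  have h2 : ∀ l, ∑ k, D.T (D.x s * D.u i * D.x r * D.u' l * D.y s *
        (D.u' k * (D.u' i * D.u l)) * D.y r * D.j z * D.u k) =
      ∑ k, D.T (D.x s * D.u i * D.x r * D.u' l * D.y s * D.u k * D.y r * D.j z *
        (D.u' i * D.u l * D.u' k)) := by
    intro l
    have hB : Bil R (fun p q : A => D.T (D.x s * D.u i * D.x r * D.u' l * D.y s * q * D.y r *
        D.j z * p)) :=
      ⟨fun p p' q => by simp only [mul_add, D.T_add],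
        fun p q q' => by simp only [mul_add, add_mul, D.T_add],
        fun r p q => by simp only [mul_smul_comm, D.T_smul, smul_eq_mul],
        fun r p q => by simp only [mul_smul_comm, smul_mul_assoc, D.T_smul, smul_eq_mul]⟩
    have h3 := D.n1 hB (D.c.b' i * D.c.b l)
    rw [map_mul] at h3
    have hB2 : Bil R (fun p q : A => D.T (D.x s * D.u i * D.x r * D.u' l * D.y s * q * D.y r *
        D.j z * (D.u' i * D.u l * p))) :=
      ⟨fun p p' q => by simp only [mul_add, D.T_add],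
        fun p q q' => by simp only [mul_add, add_mul, D.T_add],
        fun r p q => by simp only [mul_smul_comm, D.T_smul, smul_eq_mul],
        fun r p q => by simp only [mul_smul_comm, smul_mul_assoc, D.T_smul, smul_eq_mul]⟩
    exact h3.symm.trans (D.n3 hB2)
  rw [Finset.sum_congr rfl fun k _ => h1 k, Finset.sum_comm, Finset.sum_congr rfl fun l _ => h2 l]
  -- last move, on `l`
  rw [Finset.sum_comm]
  conv_rhs => rw [Finset.sum_comm]
  refine Finset.sum_congr rfl fun k _ => ?_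
  have hB : Bil R (fun p q : A => D.T (D.x s * D.u i * D.x r * q * D.y s * D.u k * D.y r *
      D.j z * (D.u' i * p * D.u' k))) :=
    ⟨fun p p' q => by simp only [mul_add, add_mul, D.T_add],
      fun p q q' => by simp only [mul_add, add_mul, D.T_add],
      fun r p q => by simp only [mul_smul_comm, smul_mul_assoc, D.T_smul, smul_eq_mul],
      fun r p q => by simp only [mul_smul_comm, smul_mul_assoc, D.T_smul, smul_eq_mul]⟩
  refine (D.n3 hB).trans ?_
  refine Finset.sum_congr rfl fun l _ => ?_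
  simp only [mul_assoc]

end Pool.Agent.PFD.H81
end -- Pool.Agent.Helper81_PFD.Conn

section -- Pool.Agent.Helper92_PFD.S1A

/-!
# Squad PFD, block D1: row S1A (helper92)
-/

open scoped BigOperators

noncomputable section

namespace Pool.Agent.PFD.H92

open Pool.Agent.PFC.B1

variable {R B A I J N : Type} [CommRing R] [Ring B] [Algebra R B] [Ring A] [Algebra R A]
    [Fintype I] [Fintype J] [Fintype N]

/-- the bilinear function `T (c1 * j p * c2 * j q)` -/
theorem bilT (D : Net R B A I J N) (c1 c2 : A) :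
    Bil R (fun p q : B => D.T (c1 * D.j p * c2 * D.j q)) :=
  ⟨fun a a' b => by simp only [map_add, mul_add, add_mul, D.T_add],
    fun a b b' => by simp only [map_add, mul_add, D.T_add],
    fun r a b => by
      simp only [map_smul, mul_smul_comm, smul_mul_assoc, D.T_smul, smul_eq_mul],
    fun r a b => by
      simp only [map_smul, mul_smul_comm, D.T_smul, smul_eq_mul]⟩

/-- composition of a bilinear function with a multiplication in the second slot -/
theorem bil_r {F : B → B → R} (h : Bil R F) (x : B) : Bil R (fun p q => F p (x * q)) :=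
  ⟨fun a a' b => h.a1 a a' _, fun a b b' => by simp only [mul_add]; exact h.a2 _ _ _,
    fun r a b => h.s1 r a _, fun r a b => by
      simp only [mul_smul_comm]; exact h.s2 _ _ _⟩

theorem bil_l {F : B → B → R} (h : Bil R F) (x : B) : Bil R (fun p q => F (x * p) q) :=
  ⟨fun a a' b => by simp only [mul_add]; exact h.a1 _ _ _, fun a b b' => h.a2 _ _ _,
    fun r a b => by
      simp only [mul_smul_comm]; exact h.s1 _ _ _, fun r a b => h.s2 _ _ _⟩

/-- the sum over `κ` of `T (c1 κ1 c2 κ2)` -/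
theorem s1_eq (D : Net R B A I J N) (v : B →ₗ[R] B) :
    D.S1 v = ∑ r, ∑ i, ∑ k, D.T (D.y r * D.j (D.c.b i * D.c.b k) * D.Ry v (D.x r) *
      D.j (D.c.b' i * D.c.b' k)) := by
  refine Finset.sum_congr rfl fun r _ => Finset.sum_congr rfl fun i _ =>
    Finset.sum_congr rfl fun k _ => ?_
  rw [mul_assoc, mul_assoc, mul_assoc, mul_assoc, D.T_comm, map_mul, map_mul]
  simp only [Net.u, Net.u', mul_assoc]

theorem e_eq (D : Net R B A I J N) (z : B) :
    D.E z = ∑ r, ∑ i, ∑ k, D.T (D.y r * D.j (D.c.b i * D.c.b k) * D.x r *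
      D.j (z * (D.c.b' i * D.c.b' k))) := by
  refine Finset.sum_congr rfl fun r _ => Finset.sum_congr rfl fun i _ =>
    Finset.sum_congr rfl fun k _ => ?_
  rw [mul_assoc, mul_assoc, mul_assoc, mul_assoc, mul_assoc, D.T_comm, map_mul, map_mul, map_mul]
  simp only [Net.u, Net.u', mul_assoc]

/-- the sum `S'` -/
def s' (D : Net R B A I J N) (v : B →ₗ[R] B) : R :=
  ∑ r, ∑ i, ∑ k, D.T (D.y r * D.j (D.c.b' i * D.c.b' k) * D.Ly v (D.x r) *
      D.j (D.c.b i * D.c.b k))

theorem s'_eq (hkap : KapStmt) (D : Net R B A I J N) (v : B →ₗ[R] B) : s' D v = D.S1 v := by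
  -- left side
  have eL : s' D v = ∑ r, ∑ s, ∑ i, ∑ l, D.T (D.u i * D.x s * D.u l * D.x r) *
      ∑ i', ∑ k', D.T (D.y r * D.j (D.c.b' i' * D.c.b' k') * (D.j (v (D.c.b' l)) * D.y s *
        D.u' i) * D.j (D.c.b i' * D.c.b k')) := by
    refine Finset.sum_congr rfl fun r _ => ?_
    have e0 : ∀ i' k', D.T (D.y r * D.j (D.c.b' i' * D.c.b' k') * D.Ly v (D.x r) *
        D.j (D.c.b i' * D.c.b k')) = ∑ s, ∑ i, ∑ l, D.T (D.u i * D.x s * D.u l * D.x r) *
          D.T (D.y r * D.j (D.c.b' i' * D.c.b' k') * (D.j (v (D.c.b' l)) * D.y s *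
        D.u' i) * D.j (D.c.b i' * D.c.b k')) := fun i' k' => by
      rw [Net.Ly, Finset.mul_sum, Finset.sum_mul, D.T_sum]
      refine Finset.sum_congr rfl fun s _ => ?_
      rw [Finset.mul_sum, Finset.sum_mul, D.T_sum]
      refine Finset.sum_congr rfl fun i _ => ?_
      rw [Finset.mul_sum, Finset.sum_mul, D.T_sum]
      refine Finset.sum_congr rfl fun l _ => ?_
      rw [mul_smul_comm, smul_mul_assoc, D.T_smul]
    calc _ = ∑ i', ∑ k', ∑ s, ∑ i, ∑ l, D.T (D.u i * D.x s * D.u l * D.x r) *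
          D.T (D.y r * D.j (D.c.b' i' * D.c.b' k') * (D.j (v (D.c.b' l)) * D.y s *
        D.u' i) * D.j (D.c.b i' * D.c.b k')) :=
          Finset.sum_congr rfl fun i' _ => Finset.sum_congr rfl fun k' _ => e0 i' k'
      _ = ∑ i', ∑ s, ∑ k', ∑ i, ∑ l, D.T (D.u i * D.x s * D.u l * D.x r) *
          D.T (D.y r * D.j (D.c.b' i' * D.c.b' k') * (D.j (v (D.c.b' l)) * D.y s *
        D.u' i) * D.j (D.c.b i' * D.c.b k')) :=
          Finset.sum_congr rfl fun i' _ => Finset.sum_comm
      _ = ∑ s, ∑ i', ∑ k', ∑ i, ∑ l, D.T (D.u i * D.x s * D.u l * D.x r) *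
          D.T (D.y r * D.j (D.c.b' i' * D.c.b' k') * (D.j (v (D.c.b' l)) * D.y s *
        D.u' i) * D.j (D.c.b i' * D.c.b k')) := Finset.sum_comm
      _ = ∑ s, ∑ i', ∑ i, ∑ k', ∑ l, D.T (D.u i * D.x s * D.u l * D.x r) *
          D.T (D.y r * D.j (D.c.b' i' * D.c.b' k') * (D.j (v (D.c.b' l)) * D.y s *
        D.u' i) * D.j (D.c.b i' * D.c.b k')) :=
          Finset.sum_congr rfl fun s _ => Finset.sum_congr rfl fun i' _ => Finset.sum_comm
      _ = ∑ s, ∑ i, ∑ i', ∑ k', ∑ l, D.T (D.u i * D.x s * D.u l * D.x r) *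
          D.T (D.y r * D.j (D.c.b' i' * D.c.b' k') * (D.j (v (D.c.b' l)) * D.y s *
        D.u' i) * D.j (D.c.b i' * D.c.b k')) :=
          Finset.sum_congr rfl fun s _ => Finset.sum_comm
      _ = ∑ s, ∑ i, ∑ i', ∑ l, ∑ k', D.T (D.u i * D.x s * D.u l * D.x r) *
          D.T (D.y r * D.j (D.c.b' i' * D.c.b' k') * (D.j (v (D.c.b' l)) * D.y s *
        D.u' i) * D.j (D.c.b i' * D.c.b k')) :=
          Finset.sum_congr rfl fun s _ => Finset.sum_congr rfl fun i _ =>
            Finset.sum_congr rfl fun i' _ => Finset.sum_comm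
      _ = ∑ s, ∑ i, ∑ l, ∑ i', ∑ k', D.T (D.u i * D.x s * D.u l * D.x r) *
          D.T (D.y r * D.j (D.c.b' i' * D.c.b' k') * (D.j (v (D.c.b' l)) * D.y s *
        D.u' i) * D.j (D.c.b i' * D.c.b k')) :=
          Finset.sum_congr rfl fun s _ => Finset.sum_congr rfl fun i _ => Finset.sum_comm
      _ = _ := by
          refine Finset.sum_congr rfl fun s _ => Finset.sum_congr rfl fun i _ =>
            Finset.sum_congr rfl fun l _ => ?_
          rw [Finset.mul_sum]
          exact Finset.sum_congr rfl fun i' _ => by rw [Finset.mul_sum]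
  have eR : D.S1 v = ∑ r, ∑ s, ∑ i, ∑ l, D.T (D.u i * D.x s * D.u l * D.x r) *
      ∑ i', ∑ k', D.T (D.y r * D.j (D.c.b i' * D.c.b k') * (D.u' l * D.y s *
        D.j (v (D.c.b' i))) * D.j (D.c.b' i' * D.c.b' k')) := by
    rw [s1_eq]
    refine Finset.sum_congr rfl fun r _ => ?_
    have e0 : ∀ i' k', D.T (D.y r * D.j (D.c.b i' * D.c.b k') * D.Ry v (D.x r) *
        D.j (D.c.b' i' * D.c.b' k')) = ∑ s, ∑ i, ∑ l, D.T (D.u i * D.x s * D.u l * D.x r) *
          D.T (D.y r * D.j (D.c.b i' * D.c.b k') * (D.u' l * D.y s *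
        D.j (v (D.c.b' i))) * D.j (D.c.b' i' * D.c.b' k')) := fun i' k' => by
      rw [Net.Ry, Finset.mul_sum, Finset.sum_mul, D.T_sum]
      refine Finset.sum_congr rfl fun s _ => ?_
      rw [Finset.mul_sum, Finset.sum_mul, D.T_sum]
      refine Finset.sum_congr rfl fun i _ => ?_
      rw [Finset.mul_sum, Finset.sum_mul, D.T_sum]
      refine Finset.sum_congr rfl fun l _ => ?_
      rw [mul_smul_comm, smul_mul_assoc, D.T_smul]
    calc _ = ∑ i', ∑ k', ∑ s, ∑ i, ∑ l, D.T (D.u i * D.x s * D.u l * D.x r) *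
          D.T (D.y r * D.j (D.c.b i' * D.c.b k') * (D.u' l * D.y s *
        D.j (v (D.c.b' i))) * D.j (D.c.b' i' * D.c.b' k')) :=
          Finset.sum_congr rfl fun i' _ => Finset.sum_congr rfl fun k' _ => e0 i' k'
      _ = ∑ i', ∑ s, ∑ k', ∑ i, ∑ l, D.T (D.u i * D.x s * D.u l * D.x r) *
          D.T (D.y r * D.j (D.c.b i' * D.c.b k') * (D.u' l * D.y s *
        D.j (v (D.c.b' i))) * D.j (D.c.b' i' * D.c.b' k')) :=
          Finset.sum_congr rfl fun i' _ => Finset.sum_comm
      _ = ∑ s, ∑ i', ∑ k', ∑ i, ∑ l, D.T (D.u i * D.x s * D.u l * D.x r) *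
          D.T (D.y r * D.j (D.c.b i' * D.c.b k') * (D.u' l * D.y s *
        D.j (v (D.c.b' i))) * D.j (D.c.b' i' * D.c.b' k')) := Finset.sum_comm
      _ = ∑ s, ∑ i', ∑ i, ∑ k', ∑ l, D.T (D.u i * D.x s * D.u l * D.x r) *
          D.T (D.y r * D.j (D.c.b i' * D.c.b k') * (D.u' l * D.y s *
        D.j (v (D.c.b' i))) * D.j (D.c.b' i' * D.c.b' k')) :=
          Finset.sum_congr rfl fun s _ => Finset.sum_congr rfl fun i' _ => Finset.sum_comm
      _ = ∑ s, ∑ i, ∑ i', ∑ k', ∑ l, D.T (D.u i * D.x s * D.u l * D.x r) *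
          D.T (D.y r * D.j (D.c.b i' * D.c.b k') * (D.u' l * D.y s *
        D.j (v (D.c.b' i))) * D.j (D.c.b' i' * D.c.b' k')) :=
          Finset.sum_congr rfl fun s _ => Finset.sum_comm
      _ = ∑ s, ∑ i, ∑ i', ∑ l, ∑ k', D.T (D.u i * D.x s * D.u l * D.x r) *
          D.T (D.y r * D.j (D.c.b i' * D.c.b k') * (D.u' l * D.y s *
        D.j (v (D.c.b' i))) * D.j (D.c.b' i' * D.c.b' k')) :=
          Finset.sum_congr rfl fun s _ => Finset.sum_congr rfl fun i _ =>
            Finset.sum_congr rfl fun i' _ => Finset.sum_comm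
      _ = ∑ s, ∑ i, ∑ l, ∑ i', ∑ k', D.T (D.u i * D.x s * D.u l * D.x r) *
          D.T (D.y r * D.j (D.c.b i' * D.c.b k') * (D.u' l * D.y s *
        D.j (v (D.c.b' i))) * D.j (D.c.b' i' * D.c.b' k')) :=
          Finset.sum_congr rfl fun s _ => Finset.sum_congr rfl fun i _ => Finset.sum_comm
      _ = _ := by
          refine Finset.sum_congr rfl fun s _ => Finset.sum_congr rfl fun i _ =>
            Finset.sum_congr rfl fun l _ => ?_
          rw [Finset.mul_sum]
          exact Finset.sum_congr rfl fun i' _ => by rw [Finset.mul_sum]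
  rw [eL, eR, Finset.sum_comm]
  refine Finset.sum_congr rfl fun r _ => Finset.sum_congr rfl fun s _ => ?_
  rw [Finset.sum_comm]
  refine Finset.sum_congr rfl fun i _ => Finset.sum_congr rfl fun l _ => ?_
  -- now: the names `r, s` and `i, l` are exchanged
  have h1 : D.T (D.u l * D.x r * D.u i * D.x s) = D.T (D.u i * D.x s * D.u l * D.x r) := by
    rw [mul_assoc, D.T_comm, ← mul_assoc]
  rw [h1]
  congr 1
  -- the two sums over `κ`
  have hF := bilT D (D.y s) (D.y r)
  -- F p q = T (y s * p * y r * q)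
  obtain ⟨_, k2, -, -, -⟩ := hkap R B A I J N R D
    (fun p q => D.T (D.y s * D.j p * D.y r * D.j (D.c.b' l * q))) (bil_r hF (D.c.b' l))
  obtain ⟨_, -, k3, -, -⟩ := hkap R B A I J N R D
    (fun p q => D.T (D.y s * D.j (v (D.c.b' i) * p) * D.y r * D.j q)) (bil_l hF (v (D.c.b' i)))
  have k2' := k2 (v (D.c.b' i))
  have k3' := k3 (D.c.b' l)
  calc ∑ i', ∑ k', D.T (D.y s * D.j (D.c.b' i' * D.c.b' k') * (D.j (v (D.c.b' i)) * D.y r *
        D.u' l) * D.j (D.c.b i' * D.c.b k'))
      = ∑ i', ∑ k', D.T (D.y s * D.j (D.c.b' i' * D.c.b' k' * v (D.c.b' i)) * D.y r *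
          D.j (D.c.b' l * (D.c.b i' * D.c.b k'))) := by
        refine Finset.sum_congr rfl fun i' _ => Finset.sum_congr rfl fun k' _ => ?_
        rw [map_mul D.j (D.c.b' i' * D.c.b' k') (v (D.c.b' i)), map_mul D.j (D.c.b' l)]
        simp only [Net.u', mul_assoc]
    _ = ∑ i', ∑ k', D.T (D.y s * D.j (v (D.c.b' i) * (D.c.b' i' * D.c.b' k')) * D.y r *
          D.j (D.c.b' l * (D.c.b i' * D.c.b k'))) := k2'.symm
    _ = ∑ i', ∑ k', D.T (D.y s * D.j (v (D.c.b' i) * (D.c.b' i' * D.c.b' k')) * D.y r *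
          D.j (D.c.b i' * D.c.b k' * D.c.b' l)) := k3'
    _ = ∑ i', ∑ k', D.T (D.y r * D.j (D.c.b i' * D.c.b k') * (D.u' l * D.y s *
        D.j (v (D.c.b' i))) * D.j (D.c.b' i' * D.c.b' k')) := by
        refine Finset.sum_congr rfl fun i' _ => Finset.sum_congr rfl fun k' _ => ?_
        rw [mul_assoc (D.y s * D.j (v (D.c.b' i) * (D.c.b' i' * D.c.b' k'))), D.T_comm,
          map_mul D.j (D.c.b i' * D.c.b k'), map_mul D.j (v (D.c.b' i))]
        simp only [Net.u', mul_assoc]

theorem s1a (hadj : AdjStmt) (hcon : ConStmt) (hkap : KapStmt) : S1aStmt := by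
  intro R B A I J N _ _ _ _ _ _ _ _ D v De hv
  obtain ⟨-, -, -, -, -, -, -, -, cr, cl⟩ := hcon R B A I J N D v De hv
  have hadj' := hadj R B A I J N D v De hv
  -- `S1 D.op`
  have e1 : D.op.S1 v = ∑ r, ∑ i, ∑ k, - D.T (D.y r * (D.Ly v (D.j (D.c.b' i * D.c.b' k) *
      D.x r * D.j (D.c.b i * D.c.b k)) + D.j De * (D.j (D.c.b' i * D.c.b' k) *
      D.x r * D.j (D.c.b i * D.c.b k)))) := by
    rw [s1_eq]
    refine Finset.sum_congr rfl fun r _ => Finset.sum_congr rfl fun i _ =>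
      Finset.sum_congr rfl fun k _ => ?_
    have hp : D.pr (D.j (D.c.b' i * D.c.b' k) * D.x r * D.j (D.c.b i * D.c.b k)) = 0 := by
      rw [D.pr_lr, D.px, mul_zero, zero_mul]
    have h0 := hadj' (D.y r) (D.j (D.c.b' i * D.c.b' k) * D.x r * D.j (D.c.b i * D.c.b k))
    rw [hp, map_zero, sub_zero] at h0
    rw [← h0]
    show D.T (D.x r * D.j (D.c.b i * D.c.b k) * D.op.Ry v (D.y r) *
      D.j (D.c.b' i * D.c.b' k)) = _
    rw [mul_assoc (D.x r * D.j (D.c.b i * D.c.b k)), D.T_comm]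
    simp only [mul_assoc]
  have e2 : ∀ r i k, D.Ly v (D.j (D.c.b' i * D.c.b' k) * D.x r * D.j (D.c.b i * D.c.b k)) =
      D.j (v (D.c.b' i * D.c.b' k)) * D.x r * D.j (D.c.b i * D.c.b k) +
        D.j (D.c.b' i * D.c.b' k) * D.Ly v (D.x r) * D.j (D.c.b i * D.c.b k) := fun r i k => by
    rw [cr, cl, D.px, map_zero, sub_zero, add_mul]
  have e3 : D.op.S1 v = - (D.e1 v + s' D v + ∑ r, ∑ i, ∑ k, D.T (D.y r *
      D.j (De * (D.c.b' i * D.c.b' k)) * D.x r * D.j (D.c.b i * D.c.b k))) := by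
    rw [e1, Net.e1, s', ← Finset.sum_add_distrib, ← Finset.sum_add_distrib,
      ← Finset.sum_neg_distrib]
    refine Finset.sum_congr rfl fun r _ => ?_
    rw [← Finset.sum_add_distrib, ← Finset.sum_add_distrib, ← Finset.sum_neg_distrib]
    refine Finset.sum_congr rfl fun i _ => ?_
    rw [← Finset.sum_add_distrib, ← Finset.sum_add_distrib, ← Finset.sum_neg_distrib]
    refine Finset.sum_congr rfl fun k _ => ?_
    rw [e2, mul_add, mul_add, D.T_add, D.T_add, map_mul D.j De]
    simp only [mul_assoc]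
  -- the last sum is `E De`
  have e4 : ∑ r, ∑ i, ∑ k, D.T (D.y r * D.j (De * (D.c.b' i * D.c.b' k)) * D.x r *
      D.j (D.c.b i * D.c.b k)) = D.E De := by
    rw [e_eq]
    refine Finset.sum_congr rfl fun r _ => ?_
    have hF := bilT D (D.y r) (D.x r)
    obtain ⟨-, -, -, k4, -⟩ := hkap R B A I J N R D _ hF
    obtain ⟨k1, -, -, -, -⟩ := hkap R B A I J N R D _ (bil_r hF De)
    exact (k4 De hv.cen).trans k1
  rw [e3, e4, s'_eq hkap]
  ring

end Pool.Agent.PFD.H92
end
end -- Pool.Agent.Helper92_PFD.S1A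

section -- Pool.Agent.Helper40_PFE.PRJ

/-!
# Squad PFE, row PRJ: the orthogonal projection
-/

noncomputable section

namespace Pool.Agent.PFE.H40

open Pool.Agent.PFC.B1 (FS Split)

/-- PRJ -/
theorem prj (hcuf : CufStmt) : PrjStmt := by
  intro K A X S J Ω Ω' C _ _ _ _ _ _ _ _ _ _ _ _ y l χ D L F E
  obtain ⟨_, _, c, hlam, _, _, hsy⟩ := hcuf K A X S J Ω Ω' C y l χ D L F E
  let pr : A →ₗ[K] C := ∑ p, ((D.d.lam).comp (LinearMap.mulLeft K (E.j (c.b' p)))).smulRight (c.b p)
  have hpr : ∀ a, pr a = ∑ p, D.d.lam (E.j (c.b' p) * a) • c.b p := by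
    intro a
    show (∑ p, ((D.d.lam).comp (LinearMap.mulLeft K (E.j (c.b' p)))).smulRight (c.b p)) a = _
    rw [LinearMap.sum_apply]
    rfl
  have key : ∀ a x, c.lam (pr a * x) = D.d.lam (a * E.j x) := by
    intro a x
    rw [hpr, Finset.sum_mul, map_sum, D.ds a (E.j x)]
    conv_rhs => rw [← c.h2 x]
    rw [map_sum, Finset.sum_mul, map_sum]
    apply Finset.sum_congr rfl
    intro p _
    rw [smul_mul_assoc, map_smul, map_smul, smul_mul_assoc, map_smul, smul_eq_mul, smul_eq_mul,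
      hsy x (c.b p), mul_comm]
  refine ⟨pr, ?_, ?_, ?_, ?_⟩
  · intro a
    apply Pool.Agent.PFD.FS.ext c
    intro x
    rw [key, ← map_mul, hlam]
  · intro b a
    apply Pool.Agent.PFD.FS.ext c
    intro x
    rw [key, mul_assoc b (pr a) x, hsy b (pr a * x), mul_assoc (pr a) x b, key, map_mul E.j,
      mul_assoc (E.j b) a (E.j x), D.ds (E.j b) (a * E.j x), mul_assoc a (E.j x) (E.j b)]
  · intro a b
    apply Pool.Agent.PFD.FS.ext c
    intro x
    rw [key, mul_assoc (pr a) b x, key, map_mul E.j, mul_assoc]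
  · intro a
    have h := key a 1
    rw [mul_one, map_one, mul_one, hlam] at h
    exact h

end Pool.Agent.PFE.H40
end
end -- Pool.Agent.Helper40_PFE.PRJ
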