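import Pool.Agent.Helper12_AWB.B004
import Pool.Agent.Helper12_AWB.B013

/-!
# Merged copies (generated) of the modules

* `Pool.Agent.PFE.DefsS`
* `Pool.Agent.PFC.StmtsB5d`
* `Pool.Agent.PFE.StmtsS`
* `Pool.Agent.Helper69_PFC.QSN`
* `Pool.Agent.Helper20_PFE.TBU`
* `Pool.Agent.Helper22_PFE.SGT`
* `Pool.Agent.Helper32_PFC.QGW`
* `Pool.Agent.Helper43_PFC.AsmB5`
* `Pool.Agent.Helper60_PFC.LSN`
* `Pool.Agent.Helper91_PFC.CMR`
* `Pool.Agent.PFC.B5.QMW`
-/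

set_option autoImplicit false

section -- Pool.Agent.PFE.DefsS

/-!
# Squad PFE: the graded algebra `S(A)` (helper79)

`V1` is a group of order `ℓ` with `i : V1 → V`, `C` a finite commutative group (in theorem (R):
`C = E / C_E(V1)`, cyclic; or `C = 1`), `θ : C → Aut(V1)`.  For an interior `V`-algebra `A` let
`N_c = {a : v a = a θ_c(v) for v in V1}`, the fixed points of the twisted conjugation `tj`, and
`I_c` the span of the traces `∑_v v a θ_c(v)⁻¹` and of the `(v - 1) a`, `a ∈ N_c`.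
`S(A) = ⊕_c N_c / I_c` is a `C`-graded algebra.  `SG` says that `S`, with maps `q c`, is a model of it.
-/

open scoped BigOperators TensorProduct

noncomputable section

namespace Pool.Agent.PFE

open Pool.Agent.PFC

section gr

variable (F : Type) {V V1 C A N B S : Type} [Field F] [CommGroup V] [CommGroup V1] [Fintype V1]
  [CommGroup C] [Fintype C] [Ring A] [Algebra F A] [Ring S] [Algebra F S] [Ring N] [Algebra F N]
  [Ring B] [Algebra F B]

/-- The twisted conjugation of `V1`: `tj v a = v a σ(v)⁻¹`. -/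
def tj (α : V →* A) (i : V1 →* V) (σ : MulAut V1) : V1 →* (A →ₗ[F] A) :=
  rst (bi F α) (i.prod (i.comp σ.toMonoidHom))

/-- `N_σ` -/
def Nt (α : V →* A) (i : V1 →* V) (σ : MulAut V1) : Submodule F A := Fx (tj F α i σ) ⊤

/-- the trace from `1` to `V1` -/
def Tr (α : V →* A) (i : V1 →* V) (σ : MulAut V1) : A →ₗ[F] A := ∑ v : V1, tj F α i σ v

/-- `I_σ` -/
def It (α : V →* A) (i : V1 →* V) (σ : MulAut V1) : Submodule F A :=
  Submodule.span F {x | (∃ a, x = Tr F α i σ a) ∨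
    ∃ v : V1, ∃ a ∈ Nt F α i σ, x = α (i v) * a - a}

/-- `S` (with the maps `q c : N_c → S`, extended to `A`) is the graded algebra `S(A)`. -/
structure SG (α : V →* A) (i : V1 →* V) (θ : C →* MulAut V1) (q : C → (A →ₗ[F] S)) : Prop where
  sur : ∀ s : S, ∃ a : C → A, (∀ c, a c ∈ Nt F α i (θ c)) ∧ ∑ c, q c (a c) = s
  ker : ∀ a : C → A, (∀ c, a c ∈ Nt F α i (θ c)) →
    (∑ c, q c (a c) = 0 ↔ ∀ c, a c ∈ It F α i (θ c))
  mul : ∀ c d, ∀ a ∈ Nt F α i (θ c), ∀ b ∈ Nt F α i (θ d), q (c * d) (a * b) = q c a * q d b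
  one : q 1 1 = 1

/-- The twisted Brauer maps of `N`, trivialised: `β c : N → B`, `B = N(V1)`, with sections `s c`. -/
structure TB (α : V →* N) (i : V1 →* V) (θ : C →* MulAut V1) (β : C → (N →ₗ[F] B))
    (s : C → (B →ₗ[F] N)) (h : C → (N →ₗ[F] N)) : Prop where
  bs : ∀ c b, β c (s c b) = b
  eb : ∀ c v a, β c (tj F α i (θ c) v a) = β c a
  fs : ∀ c b, s c b ∈ Nt F α i (θ c)
  hg : ∀ c a, a - s c (β c a) = ∑ v, tj F α i (θ c) v (h c (tj F α i (θ c) v⁻¹ a))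
  mul : ∀ c d, ∀ a ∈ Nt F α i (θ c), ∀ b ∈ Nt F α i (θ d), β (c * d) (a * b) = β c a * β d b
  one : β 1 1 = 1
  tv : ∀ v, β 1 (α (i v)) = 1

/-- The spanning form of fullness of an element `j`. -/
def Fl (j : A) : Prop := (1 : A) ∈ Submodule.span F {x | ∃ a b : A, x = a * j * b}

end gr

end Pool.Agent.PFE
end
end -- Pool.Agent.PFE.DefsS

section -- Pool.Agent.PFC.StmtsB5d

/-!
# Squad PFC, block B5d: the chain `PIn → PMid`, part 2 (helper43)

The gluing with the subgroup `W`, and small rows for the assembly.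
-/

open scoped BigOperators TensorProduct

noncomputable section

namespace Pool.Agent.PFC.B5c

/-- QMW: the Moebius function of the subgroups which are not in `W` (QMO is the case `W = ⊥`).

Proof.  Define `c` on the subgroups `Q` not in `W` by recursion on `|Q|`: the sum of `c Q` over the
`Q ≤ S` which are not in `W` is `1` for every `S` which is not in `W` (`c S = 1 - ∑_(Q < S) c Q`);
`c Q = 0` for `Q ≤ W`.  It is unique, so invariant under the automorphisms with `W.map σ = W`.  Let `R`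
be not in `W`, `f(S) = ∑_(Q ⊔ R = S, Q not in W) c Q`.  For `S ≥ R` (so `S` is not in `W`):
`∑_(R ≤ S' ≤ S) f(S') = ∑_(Q ≤ S, Q not in W) c Q = 1` (`Q ⊔ R ≤ S` iff `Q ≤ S`).  `S = R`: `f(R) = 1`; by
induction on `|S|` then `f(S) = 0` for `S > R`.  If `S` does not contain `R` the sum is empty.
`μ = -c`. -/
def QmwStmt : Prop :=
  ∀ (V : Type) [CommGroup V] [Finite V] (W : Subgroup V), ∃ μ : Subgroup V → ℤ,
    (∀ (σ : MulAut V), W.map σ.toMonoidHom = W → ∀ Q : Subgroup V,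
      μ (Q.map σ.toMonoidHom) = μ Q) ∧
    ∀ R S : Subgroup V, ¬ R ≤ W →
      (S = R → ∑ᶠ Q ∈ {Q : Subgroup V | ¬ Q ≤ W ∧ Q ⊔ R = S}, μ Q = -1) ∧
      (S ≠ R → ∑ᶠ Q ∈ {Q : Subgroup V | ¬ Q ≤ W ∧ Q ⊔ R = S}, μ Q = 0)

/-- QGW: gluing over the subgroups which are not in `W` (QGL is the case `W = ⊥`).

Proof.  As QGL with QMW: `L` the list which contains, for every `Q` not in `W`, `|μ(Q)|` times the pair
`(Q, true)` if `μ(Q) > 0`, `(Q, false)` if `μ(Q) < 0`; `N = prd S L`.  `Mx`, `CP`: QLQ.  For `σ ∈ Sg`: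
`IsoT σ N (prd S L^σ)` (QLQ, `f(Q) = Q.map σ`), `L^σ` is a permutation of `L` (invariance of `μ`, `σ` maps
the subgroups not in `W` onto themselves), QLP: `IsoT σ N N`; QSN: `Rz`.  `R` not in `W`:
`N' = prd S L_R`, `L_R` = the image of `L` under `Q ↦ Q ⊔ R` (QLQ; `Q ⊔ R` is not in `W`).
`N' ⊗ S_R` is isomorphic to `prd S ((R, true) :: L_R)` (QIS), which is balanced: the signed number of `S` in
`L_R` is `∑_(Q not in W, Q ⊔ R = S) μ(Q) = -1` for `S = R` and `0` otherwise; QLR (`dim S_Q = 1` in `F` by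
QDI and `BQ (S Q) (S ⊤) ⊤`, `S ⊤ = F`).  `(N' ⊗ S_R)(⊤)`: QLQ with `f(Q) = Q ⊔ ⊤ = ⊤`, `S ⊤ = F`; the
same for `N(⊤)`. -/
def QgwStmt : Prop :=
  ∀ (ℓ : ℕ) [Fact ℓ.Prime] (F V : Type) [Field F] [CharP F ℓ] [CommGroup V] [Finite V]
    (W : Subgroup V) (Sg : Set (MulAut V)) (S : Subgroup V → IA F V), IsPGroup ℓ V →
    ¬ (⊤ : Subgroup V) ≤ W → (∀ σ ∈ Sg, W.map σ.toMonoidHom = W) →
    (∀ Q, ¬ Q ≤ W → Mx (S Q) ∧ CP (S Q)) →
    (∀ Q, ¬ Q ≤ W → ∀ R : Subgroup V, BQ (S Q) (S (Q ⊔ R)) R) → Iso (S ⊤) (IA.one F V) →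
    (∀ σ ∈ Sg, ∀ Q, ¬ Q ≤ W → IsoT σ (S Q) (S (Q.map σ.toMonoidHom))) →
    ∃ N : IA F V, Mx N ∧ CP N ∧ (∀ σ ∈ Sg, Rz N σ) ∧ BQ N (IA.one F V) ⊤ ∧
      ∀ R : Subgroup V, ¬ R ≤ W → ∃ N' : IA F V, BQ N N' R ∧ Ret (N'.tens (S R)) ∧
        BQ (N'.tens (S R)) (IA.one F V) ⊤

/-- CPX: the conjugation module of `A`.

Proof.  The frame of `bi F α` over `V × V`, restricted along `u ↦ (u, u)`: `cj F α u = bi F α (u, u)`
(`MulAction.compHom`). -/
def CpxStmt : Prop :=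
  ∀ (F V A : Type) [Field F] [CommGroup V] [Ring A] [Algebra F A] (α : V →* A)
    (P : Subgroup (V × V) → Prop), PS P (bi F α) → PS (fun _ => True) (cj F α)

/-- CMR: comparison of the local matrix algebras.

Proof.  (1) QTR: `BQ (S_Q ⊗ F V) (S_(QR) ⊗ F V) R`.  QAL: `T` with `BQ (S_Q) T R` (`CP (S Q)`); QTE with QOP:
`BQ (S_Q ⊗ F V) (T ⊗ F V) R`; QUN: `T ⊗ F V = S_(QR) ⊗ F V`; QCA: `T = S_(QR)`; QIS.  (2) `BQ X (F V) ⊤` and
`BQ X (S_⊤ ⊗ F V) ⊤`; QUN and QIS (`F V = F ⊗ F V`), QCA with `S' = F` (QMX: `Mx F`). -/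
def CmrStmt : Prop :=
  ∀ (ℓ : ℕ) [Fact ℓ.Prime] (F V E : Type) [Field F] [CharP F ℓ] [CommGroup V] [Finite V]
    [Group E] (X : IA F V) (φ : E →* MulAut V) (W : Subgroup V) (S : Subgroup V → IA F V),
    IsPGroup ℓ V → ¬ (⊤ : Subgroup V) ≤ W → CP X → BQ X (IA.gr F V) ⊤ → Fam X φ W S →
    (∀ Q, ¬ Q ≤ W → ∀ R : Subgroup V, BQ (S Q) (S (Q ⊔ R)) R) ∧ Iso (S ⊤) (IA.one F V)

/-- LSN: `A` has at most as many simple modules as `N ⊗ A` (`LSC` with `j = e_11 ⊗ 1`,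
`κ a = e_11 ⊗ a`). -/
def LsnStmt : Prop :=
  ∀ (F N A : Type) [Field F] [IsAlgClosed F] [Ring N] [Algebra F N] [Ring A] [Algebra F A]
    [FiniteDimensional F A] (n : ℕ), 0 < n → Nonempty (N ≃ₐ[F] Matrix (Fin n) (Fin n) F) →
    ls F A ≤ ls F (N ⊗[F] A)

/-- LCN: the elements of a local finite-dimensional algebra.

Proof.  Let `x` be in `A`.  (1) If `x` is not a unit it is nilpotent: `x^k A = x^(k+1) A` for some `k`
(Fitting for left multiplication by `x` on `A`), so `x^k = x^(2k) y` for a `y` which is a polynomial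
in `x` (minimal polynomial), `f = x^k y` is an idempotent; `f = 1` would make `x` a unit, so (local)
`f = 0` and `x^k = f x^k = 0`.  (2) `F` is algebraically closed: `x` has an eigenvalue `t` on `A` (left
multiplication, `A ≠ 0`), `x - t` is not injective on `A`, so it is not a unit, so it is nilpotent. -/
def LcnStmt : Prop :=
  ∀ (F A : Type) [Field F] [IsAlgClosed F] [Ring A] [Algebra F A] [FiniteDimensional F A],
    IsLocalRing A → (∀ x : A, IsUnit x ∨ IsNilpotent x) ∧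
      ∀ x : A, ∃ t : F, IsNilpotent (x - algebraMap F A t)

end Pool.Agent.PFC.B5c
end
end -- Pool.Agent.PFC.StmtsB5d

section -- Pool.Agent.PFE.StmtsS

/-!
# Squad PFE, block S: the invariance of the graded algebra `S(A)` (helper79)

Goal: `dim Z(S(A')) = dim Z(S(A))` for the algebra `A'` of part (0), the corner of `N ⊗ A` at the local
idempotent `j`.  Definitions: `DefsS.lean`; `Fx`, `BK`, `IsTv`, `PS`, `bi`, `cj`, `tw`, `rst`: `PFC/DefsB4.lean`;
`PT`, `BrS`, `IA`, `ABr`, `BQ`, `CP`, `Mx`, `Rz`, `Cor`, `IA.tens`: `PFC/DefsB4b.lean`; `Cz`, `Frm`: `PFC/DefsP2.lean`;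
`QA`, `be`, `zin`: `PFC/StmtsB5a.lean`; `Cnr`: `PFC/StmtsB5b.lean`; `tns`: `PFC/StmtsB4b.lean` or its imports.

`bi F α w a = α w.1 * (a * α w.2⁻¹)`, so `tj F α i σ v a = α (i v) * (a * α (i (σ v))⁻¹)` (up to
`map_inv`), and `tj F α i 1 v a = cj F α (i v) a`.

Every row is to be proved in `Pool/Agent/HelperN_PFE/XXX.lean`, namespace `Pool.Agent.PFE.HN`.
-/

open scoped BigOperators TensorProduct

noncomputable section

namespace Pool.Agent.PFE.S

open Pool.Agent.PFC Pool.Agent.PFE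
open Pool.Agent.PFC.B5a (QA be zin)

/-- TWL: twisted fixed points and traces, formal rules.

Proof.  (1) `a ∈ N_σ` iff `v a = a σ(v)` for all `v` (multiply by `α (i (σ v))` from the right).
(2) `v a b = a σ(v) b = a b τ(σ(v))`, and `(τ * σ) v = τ (σ v)`.  (3) clear.  (4) `V` is commutative.
(5) The traces are fixed: `tj w (∑_v tj v a) = ∑_v tj (w v) a`.  (6) `a ∑_v v m τ(v)⁻¹ =
∑_w a σ(w) m τ(σ(w))⁻¹ = ∑_w w (a m) (τσ)(w)⁻¹` (`v = σ w`, a bijection).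
(7) `∑_v v m σ(v)⁻¹ b = ∑_v v m b τ(σ(v))⁻¹`.  (8) Check on pure tensors (`Algebra.TensorProduct.tmul_mul_tmul`).
(9), (10), (11) from (8).  60 lines. -/
def TwlStmt : Prop :=
  (∀ (F V V1 A : Type) [Field F] [CommGroup V] [CommGroup V1] [Fintype V1] [Ring A] [Algebra F A]
    (α : V →* A) (i : V1 →* V),
    (∀ (σ : MulAut V1) (a : A), a ∈ Nt F α i σ ↔ ∀ v, α (i v) * a = a * α (i (σ v))) ∧
    (∀ (σ τ : MulAut V1) (a b : A), a ∈ Nt F α i σ → b ∈ Nt F α i τ → a * b ∈ Nt F α i (τ * σ)) ∧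
    (1 : A) ∈ Nt F α i 1 ∧
    (∀ (σ : MulAut V1) (v : V) (a : A), a ∈ Nt F α i σ → α v * a ∈ Nt F α i σ ∧
      a * α v ∈ Nt F α i σ) ∧
    (∀ (σ : MulAut V1) (a : A), Tr F α i σ a ∈ Nt F α i σ) ∧
    (∀ (σ τ : MulAut V1) (a m : A), a ∈ Nt F α i σ → a * Tr F α i τ m = Tr F α i (τ * σ) (a * m)) ∧
    ∀ (σ τ : MulAut V1) (m b : A), b ∈ Nt F α i τ →
      Tr F α i σ m * b = Tr F α i (τ * σ) (m * b)) ∧
  ∀ (F V V1 : Type) [Field F] [CommGroup V] [CommGroup V1] [Fintype V1] (N X : IA F V)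
    (i : V1 →* V) (σ : MulAut V1),
    tj F (N.tens X).ι i σ = tns (tj F N.ι i σ) (tj F X.ι i σ) ∧
    (∀ (a : N.A) (x : X.A), a ∈ Nt F N.ι i σ → x ∈ Nt F X.ι i σ →
      (a ⊗ₜ[F] x : N.A ⊗[F] X.A) ∈ Nt F (N.tens X).ι i σ) ∧
    (∀ (a : N.A) (x : X.A), a ∈ Nt F N.ι i σ →
      Tr F (N.tens X).ι i σ (a ⊗ₜ[F] x : N.A ⊗[F] X.A) =
        (a ⊗ₜ[F] Tr F X.ι i σ x : N.A ⊗[F] X.A)) ∧
    ∀ (a : N.A) (x : X.A), x ∈ Nt F X.ι i σ →
      Tr F (N.tens X).ι i σ (a ⊗ₜ[F] x : N.A ⊗[F] X.A) =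
        (Tr F N.ι i σ a ⊗ₜ[F] x : N.A ⊗[F] X.A)

/-- PTT: relative traces for a subgroup `i.range` of prime order.

Proof.  A proper subgroup `K` of `i.range` is `⊥` (`Nat.card i.range = ℓ`, `Subgroup.card_dvd_of_le`,
`Nat.dvd_prime`, `Subgroup.eq_of_le_of_card_ge`).  A transversal `S` (`IsTv ⊥ i.range S`) is the set of all
elements of `i.range`, so `∑_(x ∈ S) = ∑_(v : V1)` of `i v` (`Finset.sum_bij` or `Finset.sum_image`; `i` injective).
(1), (2): span induction, the sets `{∑_v ρ(i v) m}` and `{m ↦ ∑_v ρ(i v) h(ρ(i v)⁻¹ m)}` are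
subspaces.  (3) the converse inclusion: `K = ⊥`, `S` = all elements; for `V1` of order `ℓ > 1` `⊥ < i.range`.
60 lines. -/
def PttStmt : Prop :=
  ∀ (ℓ : ℕ) [Fact ℓ.Prime] (F V V1 M : Type) [Field F] [CommGroup V] [Finite V] [CommGroup V1]
    [Fintype V1] [AddCommGroup M] [Module F M] (ρ : V →* (M →ₗ[F] M)) (i : V1 →* V),
    Nat.card V1 = ℓ → Function.Injective i →
    (∀ x ∈ BK ρ i.range, ∃ m, x = ∑ v : V1, ρ (i v) m) ∧
    (∀ T ∈ PT ρ i.range, ∃ h : M →ₗ[F] M, ∀ m, T m = ∑ v : V1, ρ (i v) (h (ρ (i v)⁻¹ m))) ∧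
    ∀ m, ∑ v : V1, ρ (i v) m ∈ BK ρ i.range

/-- SGT: the graded algebra of `N ⊗ X`.

Proof.  `Q c = β c ⊗ q c`, `Y = N ⊗ X`.  (a) `q c` kills `Tr`: `SG.ker` for the family supported at `c`
(`Pi.single`), so `Q c (Tr_Y m) = 0` for all `m`: it is enough for `m = a ⊗ x`, and
`Q c (∑_v tj v a ⊗ tj v x) = ∑_v β c (tj v a) ⊗ q c (tj v x) = β c a ⊗ q c (Tr x) = 0` (`TB.eb`).
(b) Let `y ∈ N_c(Y)`.  `y = (s β ⊗ 1) y + ((1 - s β) ⊗ 1) y`, and the second term is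
`∑_v (tj v h tj v⁻¹ ⊗ 1) y = ∑_v tj_Y v ((h ⊗ 1) (tj_Y v⁻¹ y)) = Tr_Y ((h ⊗ 1) y)` (`TB.hg`, `y` fixed).
The first term is `∑_k s(b_k) ⊗ x_k` with a basis `b_k` of `B` (or: the range of `s c ⊗ 1`,
`B ⊗ X → N ⊗ X` is injective, it has the left inverse `β c ⊗ 1`, and it commutes with the action:
`tj_Y v (s b ⊗ x) = s b ⊗ tj v x`; so `(β ⊗ 1) y ∈ B ⊗ X` is fixed by `1 ⊗ tj v`, and the fixed points
of `1 ⊗ tj` on `B ⊗ X` are `B ⊗ N_c(X)`: coordinates with respect to a basis of `B`).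
So `y = ∑_k s(b_k) ⊗ x_k + Tr_Y(z)`, `x_k ∈ N_c(X)`.
(c) `mul`: bilinear; traces go to `0` by (a) and TWL (6), (7); on `a ⊗ x`, `a' ⊗ x'`: `TB.mul`, `SG.mul`.
(d) `one`: clear.  (e) `sur`: `b ⊗ q_c(x_c)`-sums: `Q c (s c b ⊗ x) = b ⊗ q c x`; `S` is the span of the
`q c (x)`, `x ∈ N_c`.  (f) `ker`, `⇐`: `Q c` kills `Tr` by (a), and for `y = ∑ s(b_k) ⊗ x_k + Tr z`:
`Q c ((v ⊗ v) y - y) = ∑ β c (v s(b_k)) ⊗ q c (v x_k) - ∑ b_k ⊗ q c x_k = 0`, because
`β c (v a) = β 1 (v) β c a = β c a` (`TB.mul`, `TB.tv`, `1 * c = c`) and `q c (v x) = q c x` (`SG.ker`).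
(g) `ker`, `⇒`: let `∑_c Q c (y_c) = 0`, `y_c = ∑_k s_c(b_k) ⊗ x_(c,k) + Tr z_c` (the same basis for all `c`):
`∑_k b_k ⊗ ∑_c q c (x_(c,k)) = 0`, so `∑_c q c (x_(c,k)) = 0` for every `k`, so `x_(c,k) ∈ I_c(X)` (`SG.ker`).
And `s(b) ⊗ x ∈ I_c(Y)` for `x ∈ I_c(X)`: `s(b) ⊗ Tr m = Tr_Y(s(b) ⊗ m)` (TWL (10)), and
`s(b) ⊗ (v x - x) = ((v ⊗ v) (s b ⊗ x) - s b ⊗ x) - (v s(b) - s(b)) ⊗ v x`, where `a = v s(b) - s(b)` is in
`N_c(N)` and `β c a = 0`, so `a = Tr (h a)` (`TB.hg`, `a` fixed), `a ⊗ v x = Tr_Y (..)` (TWL (11)).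
150 lines.  STRONG. -/
def SgtStmt : Prop := TwlStmt →
  ∀ (F V V1 C B S : Type) [Field F] [CommGroup V] [CommGroup V1] [Fintype V1]
    [CommGroup C] [Fintype C] [Ring B] [Algebra F B] [FiniteDimensional F B] [Ring S] [Algebra F S]
    (N X : IA F V) (i : V1 →* V) (θ : C →* MulAut V1) (β : C → (N.A →ₗ[F] B))
    (s : C → (B →ₗ[F] N.A)) (h : C → (N.A →ₗ[F] N.A)) (q : C → (X.A →ₗ[F] S)),
    TB F N.ι i θ β s h → SG F X.ι i θ q →
    SG F (N.tens X).ι i θ (fun c =>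
      (TensorProduct.map (β c) (q c) : N.A ⊗[F] X.A →ₗ[F] B ⊗[F] S))

/-- TBU: the trivialising element.

Proof.  `Rz N σ`: a unit `r` with `r v = σ(v) r` for all `v ∈ V`; `g = r⁻¹`, so `v g = g σ(v)`.
Let `A0 = Fx (cj F N.ι) i.range`.  `g x g⁻¹ ∈ A0` for `x ∈ A0`, `g⁻¹ x g ∈ A0`, and the same for the Brauer
kernel (with PTT: `g (∑_v v m v⁻¹) g⁻¹ = ∑_v w (g m g⁻¹) w⁻¹`, `w = σ⁻¹ v`).  By `QKE` (`QkeStmt`: `β x = 0` iff
`x ∈ BK` for `x ∈ A0`, `x - s β x ∈ BK`) there is an automorphism `e` of `B` with `e (β x) = β (g x g⁻¹)` for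
`x ∈ A0`: `e b = β (g s(b) g⁻¹)`, inverse `b ↦ β (g⁻¹ s(b) g)`.  Skolem-Noether
(`Pool.Agent.PFC.H69.qsn_inner`): a unit `w` of `B` with `w b = e(b) w`.  `u = s(w⁻¹)`, `t₀ = u g`.  For
`x ∈ A0`: `β((t₀ x - x t₀) g⁻¹) = β(u g x g⁻¹) - β(x u) = w⁻¹ e(β x) - β(x) w⁻¹ = 0`.
`t₀^k g^(-k)` is in `A0` and `β` of it is a unit: `t₀^(k+1) g^(-k-1) = t₀^k g^(-k) · (g^k u g^(-k))`,
`β(g^k u g^(-k)) = e^k(w⁻¹)`.  With `c0^m = 1`, `g^m ∈ A0` (`v g^m = g^m θ(c0)^m(v)`), a unit with inverse in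
`A0`, so `λ = β(t₀^m)` is a unit of `B`.  `λ` is central: `t₀ (N_c-trace) ⊆ traces` (TWL (6)), so
`t₀^k x - x t₀^k` is a trace (in `N_(c0^k)`) for all `k` (induction; for `k = 1`:
`(t₀ x - x t₀) g⁻¹ ∈ BK`, multiply by `g`), so `β(t₀^m x) = β(x t₀^m)`.  `B` is a matrix algebra, so `λ` is a
scalar `≠ 0`; `r^m = λ⁻¹` (`IsAlgClosed.exists_pow_nat_eq`), `t = r t₀`.  150 lines.  STRONG. -/
def TbuStmt : Prop := TwlStmt → PttStmt → QkeStmt →
  ∀ (ℓ : ℕ) [Fact ℓ.Prime] (F V V1 : Type) [Field F] [IsAlgClosed F] [CharP F ℓ] [CommGroup V]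
    [Finite V] [CommGroup V1] [Fintype V1] (N B : IA F V) (i : V1 →* V)
    (β : N.A →ₗ[F] B.A) (s : B.A →ₗ[F] N.A) (τ : MulAut V1) (m : ℕ) (σ : MulAut V),
    IsPGroup ℓ V → Nat.card V1 = ℓ → Function.Injective i → Mx B → ABr N B i.range β s →
    0 < m → τ ^ m = 1 → Rz N σ → (∀ v, σ (i v) = i (τ v)) →
    ∃ (g : N.Aˣ) (t : N.A), (∀ v : V, N.ι v * g = g * N.ι (σ v)) ∧ t ∈ Nt F N.ι i τ ∧
      (∀ x ∈ Nt F N.ι i 1, β ((t * x - x * t) * (g⁻¹ : N.Aˣ)) = 0) ∧ β (t ^ m) = 1 ∧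
      (∀ k : ℕ, IsUnit (β (t ^ k * ((g⁻¹ : N.Aˣ) : N.A) ^ k)))

/-- TBN: the twisted Brauer maps of `N` exist.

Proof.  `c0` a generator of `C`, `m = Nat.card C` (`c0^m = 1`), `g`, `t` from TBU (`τ = θ c0`).  For `c ∈ C` choose
`k c` with `c0^(k c) = c`, `k 1 = 0`, and put `t_c = t^(k c)`, `g_c = g^(k c)`, `W_c = β(t_c g_c⁻¹)`, a unit of `B`.
`β_c a = β(a g_c⁻¹) W_c⁻¹`, `s_c b = s(b W_c) g_c`, `h_c a = h(a g_c⁻¹) g_c` with the `h` of `PTT` (2) for
`1 - s β ∈ PT`.  `tj_c v a g_c⁻¹ = cj (i v) (a g_c⁻¹)` (`g_c⁻¹ v = θ_c(v) g_c⁻¹`): this gives `fs`, `hg`, and `eb`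
from `tv`-like: `β(v x v⁻¹) = B.ι(v) β(x) B.ι(v)⁻¹` (`BrS.eb`) and `B.ι(v) = 1` for `v ∈ i.range`: `B.ι(v)` is
central in `B` (`BrS.tr`), so a scalar (`Mx B`), of `ℓ`-power order in `Fˣ`, so `1`.  `tv`: `ABr.cov`.
`β_c(x t_c) = β(x)` for `x ∈ A0 = Nt F N.ι i 1`: `x t_c g_c⁻¹`, `ABr.mul`.  `mul`: `a ∈ N_c`: `a - s(β_c a) t_c` has `β_c = 0`, so it
is a trace (`hg`, fixed).  So `a ≡ x t_c`, `a' ≡ x' t_d`, `x = s(β_c a)`, and `a a' ≡ x t_c x' t_d ≡ x x' t_c t_d`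
modulo traces in `N_(cd)` (TWL (6), (7); `t^k x' - x' t^k` is a trace, induction from TBU), `t_c t_d =
t^(k c + k d)`, and `t^(k + m) ≡ t^k` (`β(t^m - 1) = 0`, so `t^m - 1` is a trace), so `a a' ≡ x x' t_(cd)`
and `β_(cd)(a a') = β(x x') = β_c(a) β_d(a')`.  `one`: `k 1 = 0`.  150 lines.  STRONG. -/
def TbnStmt : Prop := TwlStmt → PttStmt → QkeStmt → TbuStmt →
  ∀ (ℓ : ℕ) [Fact ℓ.Prime] (F V V1 C : Type) [Field F] [IsAlgClosed F] [CharP F ℓ] [CommGroup V]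
    [Finite V] [CommGroup V1] [Fintype V1] [CommGroup C] [Fintype C] [IsCyclic C] (N B : IA F V)
    (i : V1 →* V) (θ : C →* MulAut V1),
    IsPGroup ℓ V → Nat.card V1 = ℓ → Function.Injective i → Mx B → BQ N B i.range →
    (∀ c, ∃ σ : MulAut V, Rz N σ ∧ ∀ v, σ (i v) = i (θ c v)) →
    ∃ (β : C → (N.A →ₗ[F] B.A)) (s : C → (B.A →ₗ[F] N.A)) (h : C → (N.A →ₗ[F] N.A)),
      TB F N.ι i θ β s h

/-- SGC: the graded algebra of a corner.

Proof.  `κ 1 = j`, `j² = j`, `j` commutes with `V` (`Cor.com`), so `j ∈ N_1(Y)`, `ȷ = q 1 j` is an idempotent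
(`SG.mul` with `c = d = 1`).  `S'` = the corner `ȷ S ȷ` (model: the proof of `QceStmt` in `PFC/B4/QCE.lean`; a ring
structure on the subtype `{x // ȷ x = x ∧ x ȷ = x}`), `κ'` the inclusion, `q' c a` = the element of
`S'` over `ȷ (q c (κ a)) ȷ`.  `a ∈ N_c(Y')` iff `κ a ∈ N_c(Y)` (`κ (Y'.ι v) = Y.ι v j`, `j κ a = κ a = κ a j`, `κ`
injective), and then `ȷ q c (κ a) ȷ = q c (j κ a j) = q c (κ a)`.  `sur`: `x ∈ S'`: `x = ∑ q c (y_c)`,
`x = ȷ x ȷ = ∑ q c (j y_c j)` and `j y_c j = κ a_c` (`Cor.ran`), `a_c ∈ N_c(Y')`.  `ker`: `κ (I_c(Y')) = j I_c(Y) j ∩ ..`: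
`κ (Tr a) = Tr (κ a)`, `κ (v a - a) = v κ a - κ a`, so `⇐`; `⇒`: `κ a_c ∈ I_c(Y)` for all `c` (`SG.ker`), `κ a_c = j κ a_c j`, and
`j x j ∈ κ (I_c(Y'))` for `x ∈ I_c(Y)` (`j Tr(z) j = Tr(j z j)`, `j (v y - y) j = v (j y j) - j y j`); `κ` injective.
`mul`, `one`: clear.  100 lines. -/
def SgcStmt : Prop := TwlStmt →
  ∀ (F V V1 C S : Type) [Field F] [CommGroup V] [CommGroup V1] [Fintype V1]
    [CommGroup C] [Fintype C] [Ring S] [Algebra F S] (Y Y' : IA F V) (i : V1 →* V)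
    (θ : C →* MulAut V1) (q : C → (Y.A →ₗ[F] S)) (j : Y.A) (κ : Y'.A →ₗ[F] Y.A),
    Cor Y Y' j κ → SG F Y.ι i θ q →
    ∃ (S' : Type) (_ : Ring S') (_ : Algebra F S') (κ' : S' →ₗ[F] S) (q' : C → (Y'.A →ₗ[F] S')),
      Cnr (q 1 j) κ' ∧ SG F Y'.ι i θ q'

/-- SGF: fullness goes from `Y(V1)` to `S(Y)`.

Proof.  `1 = ∑ a_k β(j) b_k` in `B` (`Submodule.mem_span` as a finite sum, e.g. `Submodule.mem_span_set'`,
absorb the coefficients), `y = ∑ s(a_k) j s(b_k) ∈ Fx (cj) i.range`, `β y = 1 = β 1` (`ABr.mul`, `ABr.cov`), so `1 - y ∈ BK`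
(`QkeStmt`), a trace (PTT (1)), so `q 1 (1 - y) = 0` (`SG.ker`, `Pi.single`): `1 = q 1 1 = q 1 y =
∑ q 1 (s a_k) q 1 j q 1 (s b_k)` (`SG.mul` with `c = d = 1`).  40 lines. -/
def SgfStmt : Prop := TwlStmt → PttStmt → QkeStmt →
  ∀ (ℓ : ℕ) [Fact ℓ.Prime] (F V V1 C S : Type) [Field F] [CharP F ℓ] [CommGroup V] [Finite V]
    [CommGroup V1] [Fintype V1] [CommGroup C] [Fintype C] [Ring S] [Algebra F S] (Y B : IA F V)
    (i : V1 →* V) (θ : C →* MulAut V1) (q : C → (Y.A →ₗ[F] S)) (j : Y.A)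
    (β : Y.A →ₗ[F] B.A) (s : B.A →ₗ[F] Y.A),
    IsPGroup ℓ V → Nat.card V1 = ℓ → Function.Injective i → ABr Y B i.range β s →
    SG F Y.ι i θ q → j ∈ Fx (cj F Y.ι) i.range → Fl F (β j) → Fl F (q 1 j)

/-- SGU: two models of `S(A)` are isomorphic.

Proof.  `e (∑ q c (a c)) = ∑ q' c (a c)`, well defined and injective by the two `ker`, surjective by `sur`,
multiplicative by `mul` (bilinear), `e 1 = 1` (`a = Pi.single 1 1`).  Formally: `L` = the subspace of the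
families `a` with `a c ∈ N_c` (a subspace of `C → A`), `Q a = ∑ q c (a c)`, a surjective linear map from `L`, the
same kernel for `Q` and `Q'` (`LinearMap.quotKerEquivOfSurjective`, or choose preimages).  60 lines. -/
def SguStmt : Prop :=
  ∀ (F V V1 C A S S' : Type) [Field F] [CommGroup V] [CommGroup V1] [Fintype V1]
    [CommGroup C] [Fintype C] [Ring A] [Algebra F A] [Ring S] [Algebra F S] [Ring S']
    [Algebra F S'] (α : V →* A) (i : V1 →* V) (θ : C →* MulAut V1) (q : C → (A →ₗ[F] S))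
    (q' : C → (A →ₗ[F] S')), SG F α i θ q → SG F α i θ q' →
    ∃ e : S ≃ₐ[F] S', ∀ c, ∀ a ∈ Nt F α i (θ c), e (q c a) = q' c a

/-- ABQ: from a split Brauer quotient to the quotient map of the centraliser.

Proof.  `Cz F Y.ι Q` and `Fx (cj F Y.ι) Q` have the same elements (`v a v⁻¹ = a` iff `v a = a v`); `q a = β a`
is multiplicative (`ABr.mul`), `q 1 = β (Y.ι 1) = 1` (`ABr.cov`), surjective (`β (s b) = b`, `s b` fixed: `QkeStmt` (1)),
kernel `BK` (`QkeStmt` (2)); `be F Y.ι Q q v = β (Y.ι v) = B.ι v`.  30 lines. -/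
def AbqStmt : Prop := QkeStmt →
  ∀ (ℓ : ℕ) [Fact ℓ.Prime] (F V : Type) [Field F] [CharP F ℓ] [CommGroup V] [Finite V]
    (Y B : IA F V) (Q : Subgroup V) (β : Y.A →ₗ[F] B.A) (s : B.A →ₗ[F] Y.A), IsPGroup ℓ V →
    ABr Y B Q β s → ∃ q : Cz F Y.ι Q →ₐ[F] B.A, QA F Y.ι Q q ∧ (∀ a, q a = β a) ∧
      be F Y.ι Q q = B.ι

/-- FLA: the structure of `B = Y(Q)` for any subgroup `Q`, with respect to the group
`E1 = C_E(Q) = {e | φ e u = u for u ∈ Q}`.

Proof.  ABQ gives `q`.  `Frm`: `QfmStmt`.  `PS`: the proof of `qpn` in `Helper79_PFE/Lon.lean` (from `QfcStmt`): the stabiliser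
of `ω'` is that of `j ω'`, `tw (φ e) R`, and contains `(u, u)` for `u ∈ Q`, so `φ e u = u` for `u ∈ Q`: `e ∈ E1`.
`BQ B (F V) ⊤`: `QtrStmt` with `R = ⊤` (`Q ⊔ ⊤ = ⊤`).  Units: `y ∈ Y` a unit with `y v = φ_e(v) y`, `e ∈ E1`: `y` and `y⁻¹` commute
with `Q`, so `β y` is a unit with inverse `β y⁻¹` (`ABr.mul`), `β(y) B.ι(u) = β(y u) = β(φ_e(u) y) = B.ι(φ_e u) β(y)` (the elements
of `V` are fixed by `Q`).  `j`: `β j` is fixed, idempotent, `1 - β j = β (1 - j) ∈ BK (cj F B.ι) ⊤`: `β` is equivariant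
(`BrS.eb`), so it maps relative traces to relative traces.  Cited theorems (no hypotheses): `H49d.bki`
(`PFC/B5/CUG_49`), `B5a.H70.qfc` (`Helper70_PFC/QFCa`), `H92.qfm` (`Helper92_PFC/QFM`), as in `Helper79_PFE/Lon.lean`.  100 lines. -/
def FlaStmt : Prop := QkeStmt → AbqStmt → QtrStmt →
  ∀ (ℓ : ℕ) [Fact ℓ.Prime] (F V E : Type) [Field F] [CharP F ℓ] [CommGroup V] [Fintype V]
    [Group E] (φ : E →* MulAut V) (E1 : Subgroup E) (Y B : IA F V) (Q : Subgroup V)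
    (β : Y.A →ₗ[F] B.A) (s : B.A →ₗ[F] Y.A) (lam : Y.A →ₗ[F] F) (j : Y.A), IsPGroup ℓ V →
    (∀ e : E, e ∈ E1 ↔ ∀ u ∈ Q, φ e u = u) → CP Y → ABr Y B Q β s → Frm F Y.ι lam →
    PS (fun K => ∃ (e : E) (R : Subgroup V), K = tw (φ e).toMonoidHom R) (bi F Y.ι) →
    BQ Y (IA.gr F V) ⊤ → (∀ e, Rz Y (φ e)) → j ∈ Fx (cj F Y.ι) ⊤ → j * j = j →
    1 - j ∈ BK (cj F Y.ι) ⊤ →
    (∃ lam', Frm F B.ι lam') ∧
    PS (fun K => ∃ (e : E1) (R : Subgroup V), K = tw (φ.comp E1.subtype e).toMonoidHom R)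
      (bi F B.ι) ∧
    BQ B (IA.gr F V) ⊤ ∧
    (∀ e : E1, ∃ y y' : B.A, y * y' = 1 ∧ y' * y = 1 ∧
      ∀ u, y * B.ι u = B.ι (φ.comp E1.subtype e u) * y) ∧
    β j ∈ Fx (cj F B.ι) ⊤ ∧ β j * β j = β j ∧ 1 - β j ∈ BK (cj F B.ι) ⊤

/-- FLZ: the centre of `B = Y(Q)`, `Y = N ⊗ X`.

Proof.  `QalStmt`: `X1`, `BQ X X1 Q`; `QteStmt`: `BQ Y (N1 ⊗ X1) Q`; `QunStmt`: an isomorphism `e : B → N1 ⊗ X1` of interior algebras.
For `z` central in `B`: `e z = 1 ⊗ c`, `c` central in `X1` (`ZmxStmt` (1), `Mx N1`).  The centraliser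
of `V` in `X1` is local: ABQ for `X, X1` gives `q` with `be F X.ι Q q = X1.ι`, and `QtpStmt` (second part; cited theorem
`B5a.H83.qtpa H49d.bki B5a.H70.qfc`, as in `Helper79_PFE/Lon.lean`) gives `IsLocalRing (Cz F (be ..) ⊤)`.  `c` is in it, so (LcnStmt)
`c` is a unit or nilpotent in it, and so is `z`.  60 lines. -/
def FlzStmt : Prop := QkeStmt → AbqStmt → QalStmt → QteStmt → QunStmt → B5c.ZmxStmt →
  B5c.LcnStmt →
  ∀ (ℓ : ℕ) [Fact ℓ.Prime] (F V : Type) [Field F] [IsAlgClosed F] [CharP F ℓ] [CommGroup V]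
    [Fintype V] (N N1 X B : IA F V) (Q : Subgroup V) (P : Subgroup (V × V) → Prop),
    IsPGroup ℓ V → CP X → PS P (bi F X.ι) → Tpv F X.ι → IsLocalRing (Cz F X.ι ⊤) → Mx N1 →
    BQ N N1 Q → BQ (N.tens X) B Q →
    ∀ z : B.A, (∀ a, z * a = a * z) → IsUnit z ∨ IsNilpotent z

/-- TOP (assembly, helper79): part (0) for a family, with the invariance of the centre of `S(A)` for every
`C` which is realised by elements of `E`. -/
def SznStmt : Prop :=
  ∀ (F V E A : Type) [Field F] [IsAlgClosed F] [CommGroup V] [Fintype V] [Group E] [Fintype E]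
    [Ring A] [Algebra F A] (ℓ : ℕ) [CharP F ℓ] (φ : E →* MulAut V) (NN : Subgroup V → Prop)
    (α : V →* A), Ctn ℓ φ NN → PInN F φ NN α →
    ∃ (A' : Type) (_ : Ring A') (_ : Algebra F A') (α' : V →* A'),
      PMidN F φ NN α' ∧ ls F A' = ls F A ∧
      Module.finrank F (Subalgebra.center F A') = Module.finrank F (Subalgebra.center F A) ∧
      ∀ (V1 C : Type) [CommGroup V1] [Fintype V1] [CommGroup C] [Fintype C] [IsCyclic C]
        (i : V1 →* V) (θ : C →* MulAut V1), Nat.card V1 = ℓ → Function.Injective i →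
        (∀ c, ∃ e : E, ∀ v, φ e (i v) = i (θ c v)) →
        ∀ (S : Type) [Ring S] [Algebra F S] (q : C → (A →ₗ[F] S)), SG F α i θ q →
        ∃ (S' : Type) (_ : Ring S') (_ : Algebra F S') (q' : C → (A' →ₗ[F] S')),
          SG F α' i θ q' ∧ Module.finrank F (Subalgebra.center F S') =
            Module.finrank F (Subalgebra.center F S)

end Pool.Agent.PFE.S
end
end -- Pool.Agent.PFE.StmtsS

section -- Pool.Agent.Helper69_PFC.QSN

/-!
# Row QSN of squad PFC: Skolem-Noether for matrix algebras, closure of `Rz`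
-/

open scoped BigOperators TensorProduct

noncomputable section

namespace Pool.Agent.PFC.H69

theorem qsn_inner {F A : Type} [Field F] [Ring A] [Algebra F A] (n : ℕ)
    (f : A ≃ₐ[F] Matrix (Fin n) (Fin n) F) (e : A ≃ₐ[F] A) :
    ∃ y : Aˣ, ∀ a, (y : A) * a = e a * y := by
  let g : A ≃ₐ[F] Module.End F (Fin n → F) := f.trans Matrix.toLinAlgEquiv'
  obtain ⟨T, hT⟩ := AlgEquiv.eq_linearEquivConjAlgEquiv (g.symm.trans (e.trans g))
  have h1 : (T : (Fin n → F) →ₗ[F] (Fin n → F)) ∘ₗ (T.symm : (Fin n → F) →ₗ[F] (Fin n → F))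
      = LinearMap.id := by
    ext x; simp
  have h2 : (T.symm : (Fin n → F) →ₗ[F] (Fin n → F)) ∘ₗ (T : (Fin n → F) →ₗ[F] (Fin n → F))
      = LinearMap.id := by
    ext x; simp
  refine ⟨⟨g.symm (T : (Fin n → F) →ₗ[F] (Fin n → F)),
    g.symm (T.symm : (Fin n → F) →ₗ[F] (Fin n → F)), ?_, ?_⟩, ?_⟩
  · rw [← map_mul, Module.End.mul_eq_comp, h1]
    exact map_one g.symm
  · rw [← map_mul, Module.End.mul_eq_comp, h2]
    exact map_one g.symm
  · intro a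
    have h3 : g (e a) = (T : (Fin n → F) →ₗ[F] (Fin n → F)) ∘ₗ g a ∘ₗ
        (T.symm : (Fin n → F) →ₗ[F] (Fin n → F)) := by
      have h4 := congrArg (fun φ : Module.End F (Fin n → F) ≃ₐ[F] Module.End F (Fin n → F) =>
        φ (g a)) hT
      simp only [AlgEquiv.trans_apply, AlgEquiv.symm_apply_apply] at h4
      rw [h4]
      rfl
    show g.symm (T : (Fin n → F) →ₗ[F] (Fin n → F)) * a
      = e a * g.symm (T : (Fin n → F) →ₗ[F] (Fin n → F))
    apply g.injective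
    rw [map_mul, map_mul, AlgEquiv.apply_symm_apply, h3]
    simp only [Module.End.mul_eq_comp, LinearMap.comp_assoc, h2, LinearMap.comp_id]

theorem qsn : QsnStmt := by
  intro F V _ _
  refine ⟨?_, ?_, ?_, ?_⟩
  · rintro X σ ⟨n, _, ⟨f⟩⟩ ⟨e, he⟩
    obtain ⟨y, hy⟩ := qsn_inner n f e
    exact ⟨y, fun v => by rw [hy, he]⟩
  · intro X
    exact ⟨1, fun v => by simp⟩
  · rintro X σ τ ⟨y, hy⟩ ⟨z, hz⟩
    refine ⟨y * z, fun v => ?_⟩
    rw [Units.val_mul, mul_assoc, hz, ← mul_assoc, hy, mul_assoc]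
    rfl
  · rintro X Y σ ⟨y, hy⟩ ⟨z, hz⟩
    refine ⟨⟨(y : X.A) ⊗ₜ[F] (z : Y.A), ((y⁻¹ : X.Aˣ) : X.A) ⊗ₜ[F] ((z⁻¹ : Y.Aˣ) : Y.A), ?_, ?_⟩, ?_⟩
    · show ((y : X.A) ⊗ₜ[F] (z : Y.A)) * (((y⁻¹ : X.Aˣ) : X.A) ⊗ₜ[F] ((z⁻¹ : Y.Aˣ) : Y.A)) = 1
      rw [Algebra.TensorProduct.tmul_mul_tmul, Units.mul_inv, Units.mul_inv]
      rfl
    · show (((y⁻¹ : X.Aˣ) : X.A) ⊗ₜ[F] ((z⁻¹ : Y.Aˣ) : Y.A)) * ((y : X.A) ⊗ₜ[F] (z : Y.A)) = 1
      rw [Algebra.TensorProduct.tmul_mul_tmul, Units.inv_mul, Units.inv_mul]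
      rfl
    · intro v
      show ((y : X.A) ⊗ₜ[F] (z : Y.A)) * (X.ι v ⊗ₜ[F] Y.ι v)
        = (X.ι (σ v) ⊗ₜ[F] Y.ι (σ v)) * ((y : X.A) ⊗ₜ[F] (z : Y.A))
      rw [Algebra.TensorProduct.tmul_mul_tmul, Algebra.TensorProduct.tmul_mul_tmul, hy, hz]

end Pool.Agent.PFC.H69
end
end -- Pool.Agent.Helper69_PFC.QSN

section -- Pool.Agent.Helper20_PFE.TBU

/-!
# Squad PFE, row TBU: the trivialising element
-/

open scoped BigOperators TensorProduct

noncomputable section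

namespace Pool.Agent.PFE.H20

open Pool.Agent.PFC Pool.Agent.PFE Pool.Agent.PFE.S

section gen

variable {F V V1 A : Type} [Field F] [CommGroup V] [CommGroup V1] [Ring A] [Algebra F A]

theorem al_inv (α : V →* A) (v : V) : α v⁻¹ * α v = 1 := by
  rw [← map_mul, inv_mul_cancel, map_one]

theorem al_inv' (α : V →* A) (v : V) : α v * α v⁻¹ = 1 := by
  rw [← map_mul, mul_inv_cancel, map_one]

theorem fx_iff (α : V →* A) (i : V1 →* V) (x : A) :
    x ∈ Fx (cj F α) i.range ↔ ∀ v : V1, α (i v) * x = x * α (i v) := by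
  constructor
  · intro h v
    have h1 : α (i v) * (x * α (i v)⁻¹) = x := h (i v) ⟨v, rfl⟩
    calc α (i v) * x = α (i v) * (x * α (i v)⁻¹) * α (i v) := by
          rw [mul_assoc, mul_assoc, al_inv, mul_one]
      _ = x * α (i v) := by rw [h1]
  · rintro h _ ⟨v, rfl⟩
    show α (i v) * (x * α (i v)⁻¹) = x
    rw [← mul_assoc, h, mul_assoc, al_inv', mul_one]

theorem hinv {α : V →* A} {i : V1 →* V} {τ : MulAut V1} {g : Aˣ}
    (h : ∀ v, α (i v) * g = g * α (i (τ v))) (v : V1) :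
    α (i (τ v)) * ((g⁻¹ : Aˣ) : A) = ((g⁻¹ : Aˣ) : A) * α (i v) := by
  calc α (i (τ v)) * ((g⁻¹ : Aˣ) : A)
      = ((g⁻¹ : Aˣ) : A) * ((g : A) * α (i (τ v))) * ((g⁻¹ : Aˣ) : A) := by
        rw [Units.inv_mul_cancel_left]
    _ = ((g⁻¹ : Aˣ) : A) * (α (i v) * (g : A)) * ((g⁻¹ : Aˣ) : A) := by rw [h]
    _ = ((g⁻¹ : Aˣ) : A) * α (i v) := by
        rw [mul_assoc, mul_assoc, Units.mul_inv, mul_one]

theorem hinv2 {α : V →* A} {i : V1 →* V} {τ : MulAut V1} {g : Aˣ}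
    (h : ∀ v, α (i v) * g = g * α (i (τ v))) (v : V1) :
    α (i v) * ((g⁻¹ : Aˣ) : A) = ((g⁻¹ : Aˣ) : A) * α (i (τ⁻¹ v)) := by
  have h1 := hinv h (τ⁻¹ v)
  have h2 : τ (τ⁻¹ v) = v := by
    rw [← MulAut.mul_apply, mul_inv_cancel, MulAut.one_apply]
  rwa [h2] at h1

theorem hpow {α : V →* A} {i : V1 →* V} {τ : MulAut V1} {g : A}
    (h : ∀ v, α (i v) * g = g * α (i (τ v))) (k : ℕ) :
    ∀ v, α (i v) * g ^ k = g ^ k * α (i ((τ ^ k) v)) := by
  induction k with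
  | zero =>
    intro v
    rw [pow_zero, pow_zero, mul_one, one_mul, MulAut.one_apply]
  | succ k ih =>
    intro v
    rw [pow_succ, ← mul_assoc, ih, mul_assoc, h, pow_succ' τ, MulAut.mul_apply, mul_assoc]

theorem conj_fx {α : V →* A} {i : V1 →* V} {τ : MulAut V1} {g : Aˣ}
    (h : ∀ v, α (i v) * g = g * α (i (τ v))) {x : A} (hx : x ∈ Fx (cj F α) i.range) :
    (g : A) * (x * ((g⁻¹ : Aˣ) : A)) ∈ Fx (cj F α) i.range := by
  rw [fx_iff] at hx ⊢
  intro v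
  calc α (i v) * ((g : A) * (x * ((g⁻¹ : Aˣ) : A)))
      = (α (i v) * (g : A)) * (x * ((g⁻¹ : Aˣ) : A)) := by rw [mul_assoc]
    _ = (g : A) * ((α (i (τ v)) * x) * ((g⁻¹ : Aˣ) : A)) := by
        rw [h]
        simp only [mul_assoc]
    _ = (g : A) * (x * (α (i (τ v)) * ((g⁻¹ : Aˣ) : A))) := by
        rw [hx]
        simp only [mul_assoc]
    _ = (g : A) * (x * ((g⁻¹ : Aˣ) : A)) * α (i v) := by
        rw [hinv h]
        simp only [mul_assoc]

theorem conj_tr [Fintype V1] {α : V →* A} {i : V1 →* V} {τ : MulAut V1} {g : Aˣ}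
    (h : ∀ v, α (i v) * g = g * α (i (τ v))) (x : A) :
    (g : A) * ((∑ v : V1, cj F α (i v) x) * ((g⁻¹ : Aˣ) : A)) =
      ∑ v : V1, cj F α (i v) ((g : A) * (x * ((g⁻¹ : Aˣ) : A))) := by
  rw [Finset.sum_mul, Finset.mul_sum, ← Equiv.sum_comp τ.toEquiv]
  refine Finset.sum_congr rfl fun v _ => ?_
  show (g : A) * (α (i (τ v)) * (x * α (i (τ v))⁻¹) * ((g⁻¹ : Aˣ) : A)) =
    α (i v) * ((g : A) * (x * ((g⁻¹ : Aˣ) : A)) * α (i v)⁻¹)
  have h1 : α (i (τ v))⁻¹ * ((g⁻¹ : Aˣ) : A) = ((g⁻¹ : Aˣ) : A) * α (i v)⁻¹ := by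
    rw [← map_inv i, ← map_inv τ, hinv h, map_inv]
  calc (g : A) * (α (i (τ v)) * (x * α (i (τ v))⁻¹) * ((g⁻¹ : Aˣ) : A))
      = ((g : A) * α (i (τ v))) * (x * (α (i (τ v))⁻¹ * ((g⁻¹ : Aˣ) : A))) := by
        simp only [mul_assoc]
    _ = (α (i v) * (g : A)) * (x * (((g⁻¹ : Aˣ) : A) * α (i v)⁻¹)) := by
        rw [h1, h]
    _ = _ := by simp only [mul_assoc]

theorem mul_fx {α : V →* A} {i : V1 →* V} {a b : A} (ha : a ∈ Fx (cj F α) i.range)
    (hb : b ∈ Fx (cj F α) i.range) : a * b ∈ Fx (cj F α) i.range := by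
  rw [fx_iff] at ha hb ⊢
  intro v
  rw [← mul_assoc, ha, mul_assoc, hb, mul_assoc]

theorem one_fx (α : V →* A) (i : V1 →* V) : (1 : A) ∈ Fx (cj F α) i.range := by
  rw [fx_iff]
  intro v
  rw [mul_one, one_mul]

/-- a central element of a matrix algebra is a scalar -/
theorem ctr_mat (n : ℕ) (f : A ≃ₐ[F] Matrix (Fin n) (Fin n) F) (z : A)
    (hz : ∀ a, z * a = a * z) : ∃ c : F, z = algebraMap F A c := by
  have h1 : f z ∈ Subalgebra.center F (Matrix (Fin n) (Fin n) F) := by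
    rw [Subalgebra.mem_center_iff]
    intro M
    have h2 := congrArg f (hz (f.symm M))
    rw [map_mul, map_mul, AlgEquiv.apply_symm_apply] at h2
    exact h2.symm
  obtain ⟨c, hc⟩ := (Algebra.IsCentral.mem_center_iff F).1 h1
  refine ⟨c, f.injective ?_⟩
  rw [AlgEquiv.commutes]
  exact hc

end gen

section main

variable {ℓ : ℕ} [Fact ℓ.Prime] {F V V1 : Type} [Field F] [CharP F ℓ] [CommGroup V]
  [Finite V] [CommGroup V1] [Fintype V1] {N B : IA F V} {i : V1 →* V}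
  {β : N.A →ₗ[F] B.A} {s : B.A →ₗ[F] N.A}

omit [Finite V] in
theorem be_one {Q : Subgroup V} (hB : ABr N B Q β s) : β 1 = 1 := by
  have h := hB.cov 1
  rwa [map_one N.ι, map_one B.ι] at h

theorem ex_hom (hP : PttStmt) (hQ : QkeStmt) (hV : IsPGroup ℓ V) (hc : Nat.card V1 = ℓ)
    (hi : Function.Injective i) (hB : ABr N B i.range β s) {τ : MulAut V1} {g : N.Aˣ}
    (h : ∀ v, N.ι (i v) * g = g * N.ι (i (τ v))) :
    ∃ e : B.A →ₐ[F] B.A, ∀ x ∈ Fx (cj F N.ι) i.range,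
      e (β x) = β ((g : N.A) * (x * ((g⁻¹ : N.Aˣ) : N.A))) := by
  obtain ⟨q1, q2, q3⟩ := hQ ℓ F V N.A B.A (cj F N.ι) (cj F B.ι) i.range β s hV hB.toBrS
  obtain ⟨p1, -, p3⟩ := hP ℓ F V V1 N.A (cj F N.ι) i hc hi
  obtain ⟨L, hL⟩ : ∃ L : B.A →ₗ[F] B.A, ∀ b,
      L b = β ((g : N.A) * (s b * ((g⁻¹ : N.Aˣ) : N.A))) :=
    ⟨β ∘ₗ (LinearMap.mulLeft F (g : N.A)) ∘ₗ (LinearMap.mulRight F ((g⁻¹ : N.Aˣ) : N.A)) ∘ₗ s,
      fun b => rfl⟩
  have key : ∀ x ∈ Fx (cj F N.ι) i.range,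
      L (β x) = β ((g : N.A) * (x * ((g⁻¹ : N.Aˣ) : N.A))) := by
    intro x hx
    have h1 : x - s (β x) ∈ Fx (cj F N.ι) i.range := Submodule.sub_mem _ hx (q1 _)
    obtain ⟨y, hy⟩ := p1 _ (q3 x hx)
    have h2 : (g : N.A) * ((x - s (β x)) * ((g⁻¹ : N.Aˣ) : N.A)) ∈ BK (cj F N.ι) i.range := by
      rw [hy, conj_tr h]
      exact p3 _
    have h3 := (q2 _ (conj_fx h h1)).2 h2
    rw [sub_mul, mul_sub, map_sub, sub_eq_zero] at h3
    rw [hL, h3]
  refine ⟨AlgHom.ofLinearMap L ?_ ?_, fun x hx => key x hx⟩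
  · have h1 := key 1 (one_fx N.ι i)
    rw [be_one hB, one_mul, Units.mul_inv, be_one hB] at h1
    exact h1
  · intro a b
    have ha : β (s a) = a := hB.bs a
    have hb : β (s b) = b := hB.bs b
    have h1 : L (a * b) = L (β (s a * s b)) := by
      rw [hB.mul _ (q1 a) _ (q1 b), ha, hb]
    rw [h1, key _ (mul_fx (q1 a) (q1 b))]
    have h2 : (g : N.A) * (s a * s b * ((g⁻¹ : N.Aˣ) : N.A)) =
        ((g : N.A) * (s a * ((g⁻¹ : N.Aˣ) : N.A))) *
          ((g : N.A) * (s b * ((g⁻¹ : N.Aˣ) : N.A))) := by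
      simp only [mul_assoc]
      rw [Units.inv_mul_cancel_left]
    rw [h2, hB.mul _ (conj_fx h (q1 a)) _ (conj_fx h (q1 b)), ← hL, ← hL]

theorem ex_equiv (hP : PttStmt) (hQ : QkeStmt) (hV : IsPGroup ℓ V) (hc : Nat.card V1 = ℓ)
    (hi : Function.Injective i) (hB : ABr N B i.range β s) {τ : MulAut V1} {g : N.Aˣ}
    (h : ∀ v, N.ι (i v) * g = g * N.ι (i (τ v))) :
    ∃ e : B.A ≃ₐ[F] B.A, ∀ x ∈ Fx (cj F N.ι) i.range,
      e (β x) = β ((g : N.A) * (x * ((g⁻¹ : N.Aˣ) : N.A))) := by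
  obtain ⟨q1, q2, q3⟩ := hQ ℓ F V N.A B.A (cj F N.ι) (cj F B.ι) i.range β s hV hB.toBrS
  obtain ⟨e, he⟩ := ex_hom hP hQ hV hc hi hB h
  obtain ⟨e', he'⟩ := ex_hom hP hQ hV hc hi hB (g := g⁻¹) (τ := τ⁻¹) (hinv2 h)
  rw [inv_inv] at he'
  refine ⟨AlgEquiv.ofAlgHom e e' ?_ ?_, fun x hx => he x hx⟩
  · apply AlgHom.ext
    intro b
    show e (e' b) = b
    have h1 : b = β (s b) := (hB.bs b).symm
    have h2 := conj_fx (hinv2 h) (q1 b)
    rw [inv_inv] at h2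
    calc e (e' b) = e (e' (β (s b))) := by rw [← h1]
      _ = b := by
        rw [he' _ (q1 b), he _ h2]
        simp only [mul_assoc]
        rw [Units.mul_inv, mul_one, Units.mul_inv_cancel_left, hB.bs]
  · apply AlgHom.ext
    intro b
    show e' (e b) = b
    have h1 : b = β (s b) := (hB.bs b).symm
    have h2 := conj_fx h (q1 b)
    calc e' (e b) = e' (e (β (s b))) := by rw [← h1]
      _ = b := by
        rw [he _ (q1 b), he' _ h2]
        simp only [mul_assoc]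
        rw [Units.inv_mul, mul_one, Units.inv_mul_cancel_left, hB.bs]

end main

theorem tbu : TbuStmt := by
  intro hT hP hQ ℓ _ F V V1 _ _ _ _ _ _ _ N B i β s τ m σ hV hc hi hM hB hm hτ hR hσ
  obtain ⟨hT1, -⟩ := hT
  obtain ⟨t1, t2, t3, t4, t5, t6, t7⟩ := hT1 F V V1 N.A N.ι i
  obtain ⟨q1, q2, q3⟩ := hQ ℓ F V N.A B.A (cj F N.ι) (cj F B.ι) i.range β s hV hB.toBrS
  obtain ⟨p1, -, p3⟩ := hP ℓ F V V1 N.A (cj F N.ι) i hc hi
  obtain ⟨y, hy⟩ := hR
  obtain ⟨g, hg⟩ : ∃ g : N.Aˣ, g = y⁻¹ := ⟨_, rfl⟩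
  have hg1 : ∀ v : V, N.ι v * g = g * N.ι (σ v) := by
    intro v
    rw [hg]
    calc N.ι v * ((y⁻¹ : N.Aˣ) : N.A)
        = ((y⁻¹ : N.Aˣ) : N.A) * ((y : N.A) * N.ι v) * ((y⁻¹ : N.Aˣ) : N.A) := by
          rw [Units.inv_mul_cancel_left]
      _ = ((y⁻¹ : N.Aˣ) : N.A) * (N.ι (σ v) * (y : N.A)) * ((y⁻¹ : N.Aˣ) : N.A) := by rw [hy]
      _ = ((y⁻¹ : N.Aˣ) : N.A) * N.ι (σ v) := by
          rw [mul_assoc, mul_assoc, Units.mul_inv, mul_one]
  have hg2 : ∀ v : V1, N.ι (i v) * g = g * N.ι (i (τ v)) := by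
    intro v
    rw [hg1, hσ]
  have hNF : ∀ x : N.A, x ∈ Nt F N.ι i 1 ↔ x ∈ Fx (cj F N.ι) i.range := by
    intro x
    rw [t1, fx_iff]
    exact Iff.rfl
  obtain ⟨e, he⟩ := ex_equiv hP hQ hV hc hi hB hg2
  obtain ⟨n, hn, ⟨f⟩⟩ := hM
  obtain ⟨w, hw⟩ := H69.qsn_inner n f e
  obtain ⟨u, hu⟩ : ∃ u : N.A, u = s ((w⁻¹ : B.Aˣ) : B.A) := ⟨_, rfl⟩
  have huf : u ∈ Fx (cj F N.ι) i.range := by
    rw [hu]
    exact q1 _
  have hub : β u = ((w⁻¹ : B.Aˣ) : B.A) := by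
    rw [hu, hB.bs]
  obtain ⟨t0, ht0⟩ : ∃ t0 : N.A, t0 = u * g := ⟨_, rfl⟩
  have ht0N : ∀ v : V1, N.ι (i v) * t0 = t0 * N.ι (i (τ v)) := by
    intro v
    rw [ht0, ← mul_assoc, (fx_iff N.ι i u).1 huf, mul_assoc, hg2, mul_assoc]
  -- (3) for `t0`
  have h3 : ∀ x ∈ Fx (cj F N.ι) i.range,
      (t0 * x - x * t0) * ((g⁻¹ : N.Aˣ) : N.A) ∈ Fx (cj F N.ι) i.range ∧
      β ((t0 * x - x * t0) * ((g⁻¹ : N.Aˣ) : N.A)) = 0 := by
    intro x hx
    have h31 : (t0 * x - x * t0) * ((g⁻¹ : N.Aˣ) : N.A) =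
        u * ((g : N.A) * (x * ((g⁻¹ : N.Aˣ) : N.A))) - x * u := by
      rw [ht0, sub_mul]
      congr 1
      · simp only [mul_assoc]
      · simp only [mul_assoc]
        rw [Units.mul_inv, mul_one]
    have h32 := conj_fx hg2 hx
    rw [h31]
    refine ⟨Submodule.sub_mem _ (mul_fx huf h32) (mul_fx hx huf), ?_⟩
    rw [map_sub, hB.mul _ huf _ h32, hB.mul _ hx _ huf, ← he x hx, hub]
    have h33 : e (β x) = (w : B.A) * (β x * ((w⁻¹ : B.Aˣ) : B.A)) := by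
      rw [← mul_assoc, hw, mul_assoc, Units.mul_inv, mul_one]
    rw [h33, Units.inv_mul_cancel_left, sub_self]
  -- (5) for `t0`
  have h5 : ∀ k : ℕ, t0 ^ k * ((g⁻¹ : N.Aˣ) : N.A) ^ k ∈ Fx (cj F N.ι) i.range ∧
      IsUnit (β (t0 ^ k * ((g⁻¹ : N.Aˣ) : N.A) ^ k)) := by
    intro k
    induction k with
    | zero =>
      rw [pow_zero, pow_zero, one_mul, be_one hB]
      exact ⟨one_fx N.ι i, isUnit_one⟩
    | succ k ih =>
      have hgk : ∀ v : V1, N.ι (i v) * ((g ^ k : N.Aˣ) : N.A) =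
          ((g ^ k : N.Aˣ) : N.A) * N.ι (i ((τ ^ k) v)) := by
        intro v
        rw [Units.val_pow_eq_pow_val]
        exact hpow hg2 k v
      obtain ⟨ek, hek⟩ := ex_hom hP hQ hV hc hi hB hgk
      have h51 := conj_fx hgk huf
      have h52 : t0 ^ (k + 1) * ((g⁻¹ : N.Aˣ) : N.A) ^ (k + 1) =
          (t0 ^ k * ((g⁻¹ : N.Aˣ) : N.A) ^ k) *
            (((g ^ k : N.Aˣ) : N.A) * (u * (((g ^ k)⁻¹ : N.Aˣ) : N.A))) := by
        have h53 : ((g⁻¹ : N.Aˣ) : N.A) ^ k = (((g ^ k)⁻¹ : N.Aˣ) : N.A) := by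
          rw [← Units.val_pow_eq_pow_val, inv_pow]
        have h54 : ((g⁻¹ : N.Aˣ) : N.A) ^ (k + 1) =
            ((g⁻¹ : N.Aˣ) : N.A) * (((g ^ k)⁻¹ : N.Aˣ) : N.A) := by
          rw [pow_succ', h53]
        rw [h54, h53, pow_succ]
        nth_rewrite 2 [ht0]
        simp only [mul_assoc]
        rw [Units.mul_inv_cancel_left, Units.inv_mul_cancel_left]
      rw [h52]
      refine ⟨mul_fx ih.1 h51, ?_⟩
      rw [hB.mul _ ih.1 _ h51]
      refine ih.2.mul ?_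
      rw [← hek u huf, hub]
      exact (Units.isUnit w⁻¹).map ek
  -- commutators are traces
  have h6 : ∀ x ∈ Fx (cj F N.ι) i.range, ∀ k : ℕ, ∃ z, t0 ^ k * x - x * t0 ^ k =
      Tr F N.ι i (τ ^ k) z := by
    intro x hx k
    induction k with
    | zero =>
      refine ⟨0, ?_⟩
      rw [pow_zero, one_mul, mul_one, sub_self, map_zero]
    | succ k ih =>
      obtain ⟨z, hz⟩ := ih
      obtain ⟨h61, h62⟩ := h3 x hx
      obtain ⟨z', hz'⟩ := p1 _ ((q2 _ h61).1 h62)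
      have h63 : t0 * x - x * t0 = Tr F N.ι i τ (z' * g) := by
        have h64 : t0 * x - x * t0 =
            (t0 * x - x * t0) * ((g⁻¹ : N.Aˣ) : N.A) * (g : N.A) := by
          rw [mul_assoc, Units.inv_mul, mul_one]
        rw [h64, hz', Finset.sum_mul]
        show _ = (∑ v : V1, tj F N.ι i τ v) (z' * g)
        rw [LinearMap.sum_apply]
        refine Finset.sum_congr rfl fun v _ => ?_
        show N.ι (i v) * (z' * N.ι (i v)⁻¹) * (g : N.A) =
          N.ι (i v) * (z' * (g : N.A) * N.ι (i (τ v))⁻¹)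
        have h65 : N.ι (i v)⁻¹ * (g : N.A) = (g : N.A) * N.ι (i (τ v))⁻¹ := by
          rw [← map_inv i, hg2, map_inv, map_inv]
        simp only [mul_assoc]
        rw [h65]
      refine ⟨t0 ^ k * (z' * g) + z * t0, ?_⟩
      have hk : t0 ^ k ∈ Nt F N.ι i (τ ^ k) := (t1 _ _).2 (hpow ht0N k)
      have h1 : t0 ∈ Nt F N.ι i τ := (t1 _ _).2 ht0N
      rw [map_add, pow_succ' τ, ← t6 (τ ^ k) τ (t0 ^ k) (z' * g) hk, ← t7 (τ ^ k) τ z t0 h1,
        ← h63, ← hz, pow_succ]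
      noncomm_ring
  -- the scalar
  have h7 : ∀ b : B.A, β (t0 ^ m) * b = b * β (t0 ^ m) := by
    intro b
    have hf := q1 b
    have htm : t0 ^ m ∈ Fx (cj F N.ι) i.range := by
      rw [fx_iff]
      intro v
      have := hpow ht0N m v
      rwa [hτ, MulAut.one_apply] at this
    obtain ⟨z, hz⟩ := h6 (s b) hf m
    have h71 : t0 ^ m * s b - s b * t0 ^ m ∈ BK (cj F N.ι) i.range := by
      rw [hz, hτ]
      have h72 : Tr F N.ι i 1 z = ∑ v : V1, cj F N.ι (i v) z := by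
        show (∑ v : V1, tj F N.ι i 1 v) z = _
        rw [LinearMap.sum_apply]
        rfl
      rw [h72]
      exact p3 z
    have h73 := (q2 _ (Submodule.sub_mem _ (mul_fx htm hf) (mul_fx hf htm))).2 h71
    rw [map_sub, hB.mul _ htm _ hf, hB.mul _ hf _ htm, hB.bs, sub_eq_zero] at h73
    exact h73
  have h8 : IsUnit (β (t0 ^ m)) := by
    have hgm : ∀ v : V1, N.ι (i v) * (g : N.A) ^ m = (g : N.A) ^ m * N.ι (i v) := by
      intro v
      have := hpow hg2 m v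
      rwa [hτ, MulAut.one_apply] at this
    have hgf : (g : N.A) ^ m ∈ Fx (cj F N.ι) i.range := (fx_iff _ _ _).2 hgm
    have hgf' : ((g⁻¹ : N.Aˣ) : N.A) ^ m ∈ Fx (cj F N.ι) i.range := by
      rw [fx_iff]
      intro v
      have := hpow (hinv2 hg2) m v
      rwa [inv_pow, hτ, inv_one, MulAut.one_apply] at this
    have h81 : β ((g : N.A) ^ m) * β (((g⁻¹ : N.Aˣ) : N.A) ^ m) = 1 := by
      rw [← hB.mul _ hgf _ hgf', ← Units.val_pow_eq_pow_val, ← Units.val_pow_eq_pow_val, inv_pow,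
        Units.mul_inv, be_one hB]
    have h82 : β (((g⁻¹ : N.Aˣ) : N.A) ^ m) * β ((g : N.A) ^ m) = 1 := by
      rw [← hB.mul _ hgf' _ hgf, ← Units.val_pow_eq_pow_val, ← Units.val_pow_eq_pow_val, inv_pow,
        Units.inv_mul, be_one hB]
    have h83 : IsUnit (β ((g : N.A) ^ m)) := ⟨⟨_, _, h81, h82⟩, rfl⟩
    have h84 : t0 ^ m = (t0 ^ m * ((g⁻¹ : N.Aˣ) : N.A) ^ m) * (g : N.A) ^ m := by
      rw [mul_assoc, ← Units.val_pow_eq_pow_val, ← Units.val_pow_eq_pow_val, inv_pow,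
        Units.inv_mul, mul_one]
    rw [h84, hB.mul _ (h5 m).1 _ hgf]
    exact (h5 m).2.mul h83
  obtain ⟨c, hcc⟩ := ctr_mat n f (β (t0 ^ m)) h7
  have hc0 : c ≠ 0 := by
    intro h0
    rw [h0, map_zero] at hcc
    rw [hcc] at h8
    have h9 : (0 : B.A) = 1 := by
      obtain ⟨z, hz⟩ := h8.exists_right_inv
      rw [zero_mul] at hz
      exact hz
    have h10 : (0 : Matrix (Fin n) (Fin n) F) = 1 := by
      rw [← map_zero f, ← map_one f, h9]
    have h11 := congrArg (fun M : Matrix (Fin n) (Fin n) F => M ⟨0, hn⟩ ⟨0, hn⟩) h10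
    simp at h11
  obtain ⟨r, hr⟩ := IsAlgClosed.exists_pow_nat_eq c⁻¹ hm
  have hr0 : r ≠ 0 := by
    intro h0
    rw [h0, zero_pow hm.ne'] at hr
    exact inv_ne_zero hc0 hr.symm
  refine ⟨g, r • t0, hg1, ?_, ?_, ?_, ?_⟩
  · exact Submodule.smul_mem _ _ ((t1 _ _).2 ht0N)
  · intro x hx
    have h9 : (r • t0 * x - x * r • t0) * ((g⁻¹ : N.Aˣ) : N.A) =
        r • ((t0 * x - x * t0) * ((g⁻¹ : N.Aˣ) : N.A)) := by
      rw [smul_mul_assoc, mul_smul_comm, ← smul_sub, smul_mul_assoc]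
    rw [h9, map_smul, (h3 x ((hNF x).1 hx)).2, smul_zero]
  · rw [smul_pow, map_smul, hr, hcc, Algebra.algebraMap_eq_smul_one, smul_smul,
      inv_mul_cancel₀ hc0, one_smul]
  · intro k
    rw [smul_pow, smul_mul_assoc, map_smul]
    have h9 : IsUnit (r ^ k) := (isUnit_iff_ne_zero.2 hr0).pow k
    obtain ⟨a, ha⟩ := h9
    obtain ⟨b, hb⟩ := (h5 k).2
    rw [← ha, ← hb]
    exact (a • b).isUnit

end Pool.Agent.PFE.H20
end
end -- Pool.Agent.Helper20_PFE.TBU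

section -- Pool.Agent.Helper22_PFE.SGT

/-!
# Squad PFE, row SGT: the graded algebra of `N ⊗ X`
-/

open scoped BigOperators TensorProduct

set_option linter.unusedSectionVars false

noncomputable section

namespace Pool.Agent.PFE.H22

open Pool.Agent.PFC Pool.Agent.PFE

section one

variable {F V V1 C A S : Type} [Field F] [CommGroup V] [CommGroup V1] [Fintype V1]
  [CommGroup C] [Fintype C] [Ring A] [Algebra F A] [Ring S] [Algebra F S]

theorem tj_apply (α : V →* A) (i : V1 →* V) (σ : MulAut V1) (v : V1) (a : A) :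
    tj F α i σ v a = α (i v) * (a * α (i (σ v))⁻¹) := rfl

theorem mem_Nt (α : V →* A) (i : V1 →* V) (σ : MulAut V1) (a : A) :
    a ∈ Nt F α i σ ↔ ∀ v, tj F α i σ v a = a :=
  ⟨fun h v => h v (Subgroup.mem_top v), fun h v _ => h v⟩

theorem Tr_apply (α : V →* A) (i : V1 →* V) (σ : MulAut V1) (a : A) :
    Tr F α i σ a = ∑ v, tj F α i σ v a := by
  rw [Tr, LinearMap.sum_apply]

theorem tj_inv (α : V →* A) (i : V1 →* V) (σ : MulAut V1) (v : V1) (a : A) :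
    tj F α i σ v (tj F α i σ v⁻¹ a) = a := by
  have h : (tj F α i σ v * tj F α i σ v⁻¹) a = a := by
    rw [← map_mul, mul_inv_cancel, map_one]
    rfl
  exact h

theorem Tr_mem_It (α : V →* A) (i : V1 →* V) (σ : MulAut V1) (a : A) :
    Tr F α i σ a ∈ It F α i σ := Submodule.subset_span (Or.inl ⟨a, rfl⟩)

theorem sub_mem_It (α : V →* A) (i : V1 →* V) (σ : MulAut V1) (v : V1) {a : A}
    (ha : a ∈ Nt F α i σ) : α (i v) * a - a ∈ It F α i σ :=
  Submodule.subset_span (Or.inr ⟨v, a, ha, rfl⟩)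

theorem q_zero {α : V →* A} {i : V1 →* V} {θ : C →* MulAut V1} {q : C → (A →ₗ[F] S)}
    (hsg : SG F α i θ q) (c : C) {x : A} (hx : x ∈ Nt F α i (θ c)) (hx' : x ∈ It F α i (θ c)) :
    q c x = 0 := by
  classical
  have h1 : ∀ d, (Pi.single c x : C → A) d ∈ Nt F α i (θ d) := by
    intro d
    by_cases hd : d = c
    · subst hd
      rw [Pi.single_eq_same]
      exact hx
    · rw [Pi.single_eq_of_ne hd]
      exact Submodule.zero_mem _
  have h2 : ∀ d, (Pi.single c x : C → A) d ∈ It F α i (θ d) := by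
    intro d
    by_cases hd : d = c
    · subst hd
      rw [Pi.single_eq_same]
      exact hx'
    · rw [Pi.single_eq_of_ne hd]
      exact Submodule.zero_mem _
  have h3 := (hsg.ker _ h1).2 h2
  rw [Finset.sum_eq_single c] at h3
  · rwa [Pi.single_eq_same] at h3
  · intro d _ hd
    rw [Pi.single_eq_of_ne hd, map_zero]
  · intro h
    exact absurd (Finset.mem_univ c) h

end one

section raw

variable {F V V1 C A1 A2 B S : Type} [Field F] [CommGroup V] [CommGroup V1] [Fintype V1]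
  [CommGroup C] [Fintype C] [Ring A1] [Algebra F A1] [Ring A2] [Algebra F A2]
  [Ring B] [Algebra F B] [Ring S] [Algebra F S]

theorem tj_tmul {α1 : V →* A1} {α2 : V →* A2} {αY : V →* A1 ⊗[F] A2}
    (hY : ∀ v, αY v = α1 v ⊗ₜ[F] α2 v) (i : V1 →* V) (σ : MulAut V1) (v : V1) (a : A1) (x : A2) :
    tj F αY i σ v (a ⊗ₜ[F] x) = tj F α1 i σ v a ⊗ₜ[F] tj F α2 i σ v x := by
  rw [tj_apply, tj_apply, tj_apply, hY, hY, Algebra.TensorProduct.tmul_mul_tmul,
    Algebra.TensorProduct.tmul_mul_tmul]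

theorem tj_map {α1 : V →* A1} {α2 : V →* A2} {αY : V →* A1 ⊗[F] A2}
    (hY : ∀ v, αY v = α1 v ⊗ₜ[F] α2 v) (i : V1 →* V) (σ : MulAut V1) (v : V1) :
    tj F αY i σ v = TensorProduct.map (tj F α1 i σ v) (tj F α2 i σ v) := by
  apply TensorProduct.ext'
  intro a x
  rw [tj_tmul hY, TensorProduct.map_tmul]

/-- `a ⊗ x` is fixed -/
theorem tmul_mem {α1 : V →* A1} {α2 : V →* A2} {αY : V →* A1 ⊗[F] A2}
    (hY : ∀ v, αY v = α1 v ⊗ₜ[F] α2 v) (i : V1 →* V) (σ : MulAut V1) {a : A1} {x : A2}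
    (ha : a ∈ Nt F α1 i σ) (hx : x ∈ Nt F α2 i σ) : a ⊗ₜ[F] x ∈ Nt F αY i σ := by
  rw [mem_Nt] at *
  intro v
  rw [tj_tmul hY, ha v, hx v]

theorem Tr_left {α1 : V →* A1} {α2 : V →* A2} {αY : V →* A1 ⊗[F] A2}
    (hY : ∀ v, αY v = α1 v ⊗ₜ[F] α2 v) (i : V1 →* V) (σ : MulAut V1) {a : A1} (x : A2)
    (ha : a ∈ Nt F α1 i σ) : a ⊗ₜ[F] Tr F α2 i σ x = Tr F αY i σ (a ⊗ₜ[F] x) := by
  rw [Tr_apply, Tr_apply, TensorProduct.tmul_sum]
  refine Finset.sum_congr rfl fun v _ => ?_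
  rw [tj_tmul hY, (mem_Nt _ _ _ _).1 ha v]

theorem Tr_right {α1 : V →* A1} {α2 : V →* A2} {αY : V →* A1 ⊗[F] A2}
    (hY : ∀ v, αY v = α1 v ⊗ₜ[F] α2 v) (i : V1 →* V) (σ : MulAut V1) (a : A1) {x : A2}
    (hx : x ∈ Nt F α2 i σ) : Tr F α1 i σ a ⊗ₜ[F] x = Tr F αY i σ (a ⊗ₜ[F] x) := by
  rw [Tr_apply, Tr_apply, TensorProduct.sum_tmul]
  refine Finset.sum_congr rfl fun v _ => ?_
  rw [tj_tmul hY, (mem_Nt _ _ _ _).1 hx v]

/-- The coordinates of `B ⊗ M`. -/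
def co {ι M : Type} [AddCommGroup M] [Module F M] (b : Module.Basis ι F B) (k : ι) :
    B ⊗[F] M →ₗ[F] M :=
  (TensorProduct.lid F M).toLinearMap ∘ₗ TensorProduct.map (b.coord k) LinearMap.id

theorem co_tmul {ι M : Type} [AddCommGroup M] [Module F M] (b : Module.Basis ι F B) (k : ι)
    (b' : B) (m : M) : co b k (b' ⊗ₜ[F] m) = b.repr b' k • m := by
  rw [co, LinearMap.comp_apply, TensorProduct.map_tmul]
  exact TensorProduct.lid_tmul _ _

theorem sum_co {ι M : Type} [Fintype ι] [AddCommGroup M] [Module F M] (b : Module.Basis ι F B)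
    (w : B ⊗[F] M) : ∑ k, b k ⊗ₜ[F] co b k w = w := by
  induction w using TensorProduct.induction_on with
  | zero => simp
  | tmul b' m =>
    conv_rhs => rw [← b.sum_repr b', TensorProduct.sum_tmul]
    refine Finset.sum_congr rfl fun k _ => ?_
    rw [co_tmul, TensorProduct.tmul_smul, TensorProduct.smul_tmul']
  | add x y hx hy =>
    conv_rhs => rw [← hx, ← hy]
    rw [← Finset.sum_add_distrib]
    refine Finset.sum_congr rfl fun k _ => ?_
    rw [map_add, TensorProduct.tmul_add]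

theorem co_map {ι M : Type} [AddCommGroup M] [Module F M] (b : Module.Basis ι F B) (k : ι)
    (f : M →ₗ[F] M) (w : B ⊗[F] M) :
    co b k (TensorProduct.map LinearMap.id f w) = f (co b k w) := by
  induction w using TensorProduct.induction_on with
  | zero => simp
  | tmul b' m => rw [TensorProduct.map_tmul, co_tmul, co_tmul, LinearMap.id_apply, map_smul]
  | add x y hx hy => rw [map_add, map_add, map_add, map_add, hx, hy]

theorem eq_zero_of_sum {ι M : Type} [Fintype ι] [AddCommGroup M] [Module F M]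
    (b : Module.Basis ι F B) (m : ι → M) (h : ∑ k, b k ⊗ₜ[F] m k = 0) (k : ι) : m k = 0 := by
  classical
  have h1 := congrArg (co b k) h
  rw [map_sum, map_zero, Finset.sum_eq_single k] at h1
  · rwa [co_tmul, b.repr_self, Finsupp.single_eq_same, one_smul] at h1
  · intro l _ hl
    rw [co_tmul, b.repr_self, Finsupp.single_eq_of_ne (Ne.symm hl), zero_smul]
  · intro h
    exact absurd (Finset.mem_univ k) h

variable {α1 : V →* A1} {α2 : V →* A2} {αY : V →* A1 ⊗[F] A2} {i : V1 →* V}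
  {θ : C →* MulAut V1} {β : C → (A1 →ₗ[F] B)} {s : C → (B →ₗ[F] A1)} {h : C → (A1 →ₗ[F] A1)}
  {q : C → (A2 →ₗ[F] S)}

theorem tr_of_beta (htb : TB F α1 i θ β s h) (c : C) {a : A1} (ha : a ∈ Nt F α1 i (θ c))
    (h0 : β c a = 0) : a = Tr F α1 i (θ c) (h c a) := by
  have h1 := htb.hg c a
  rw [h0, map_zero, sub_zero] at h1
  rw [Tr_apply]
  conv_lhs => rw [h1]
  refine Finset.sum_congr rfl fun v _ => ?_
  rw [(mem_Nt _ _ _ _).1 ha v⁻¹]

/-- (b) -/
theorem decomp (hY : ∀ v, αY v = α1 v ⊗ₜ[F] α2 v) (htb : TB F α1 i θ β s h) {ι : Type}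
    [Fintype ι] (b : Module.Basis ι F B) (c : C) {y : A1 ⊗[F] A2} (hy : y ∈ Nt F αY i (θ c)) :
    ∃ x : ι → A2, (∀ k, x k ∈ Nt F α2 i (θ c)) ∧ ∃ z,
      y = ∑ k, s c (b k) ⊗ₜ[F] x k + Tr F αY i (θ c) z := by
  have hy' := (mem_Nt _ _ _ _).1 hy
  let w : B ⊗[F] A2 := TensorProduct.map (β c) LinearMap.id y
  have hw : ∀ v, TensorProduct.map LinearMap.id (tj F α2 i (θ c) v) w = w := by
    intro v
    have h1 : TensorProduct.map LinearMap.id (tj F α2 i (θ c) v) w =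
        TensorProduct.map (β c) LinearMap.id (tj F αY i (θ c) v y) := by
      rw [tj_map hY]
      change ((TensorProduct.map LinearMap.id (tj F α2 i (θ c) v)) ∘ₗ
        (TensorProduct.map (β c) LinearMap.id)) y = ((TensorProduct.map (β c) LinearMap.id) ∘ₗ
        (TensorProduct.map (tj F α1 i (θ c) v) (tj F α2 i (θ c) v))) y
      congr 1
      apply TensorProduct.ext'
      intro a x
      simp only [LinearMap.comp_apply, TensorProduct.map_tmul, LinearMap.id_apply]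
      rw [htb.eb]
    rw [h1, hy' v]
  refine ⟨fun k => co b k w, fun k => ?_, TensorProduct.map (h c) LinearMap.id y, ?_⟩
  · rw [mem_Nt]
    intro v
    rw [← co_map, hw v]
  · have h1 : ∑ k, s c (b k) ⊗ₜ[F] co b k w = TensorProduct.map (s c) LinearMap.id w := by
      conv_rhs => rw [← sum_co b w]
      rw [map_sum]
      refine Finset.sum_congr rfl fun k _ => ?_
      rw [TensorProduct.map_tmul, LinearMap.id_apply]
    have h2 : Tr F αY i (θ c) (TensorProduct.map (h c) LinearMap.id y) =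
        ∑ v, tj F αY i (θ c) v (TensorProduct.map (h c) LinearMap.id
          (tj F αY i (θ c) v⁻¹ y)) := by
      rw [Tr_apply]
      refine Finset.sum_congr rfl fun v _ => ?_
      rw [hy' v⁻¹]
    rw [h1, h2]
    have key : ∀ y : A1 ⊗[F] A2, y = TensorProduct.map (s c) LinearMap.id
        (TensorProduct.map (β c) LinearMap.id y) + ∑ v, tj F αY i (θ c) v
          (TensorProduct.map (h c) LinearMap.id (tj F αY i (θ c) v⁻¹ y)) := by
      intro y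
      induction y using TensorProduct.induction_on with
      | zero => simp
      | tmul a x =>
        simp only [tj_tmul hY, TensorProduct.map_tmul, LinearMap.id_apply, tj_inv]
        rw [← TensorProduct.sum_tmul, ← htb.hg c a, ← TensorProduct.add_tmul]
        congr 1
        abel
      | add x y hx hy =>
        conv_lhs => rw [hx, hy]
        simp only [map_add, Finset.sum_add_distrib]
        abel
    exact key y

theorem main (twl : Pool.Agent.PFE.S.TwlStmt) [FiniteDimensional F B]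
    (hY : ∀ v, αY v = α1 v ⊗ₜ[F] α2 v) (htb : TB F α1 i θ β s h) (hsg : SG F α2 i θ q) :
    SG F αY i θ (fun c => TensorProduct.map (β c) (q c)) := by
  classical
  obtain ⟨-, -, t3, t4, -, t6, t7⟩ := twl.1 F V V1 (A1 ⊗[F] A2) αY i
  obtain ⟨-, -, u3, u4, -, -, -⟩ := twl.1 F V V1 A1 α1 i
  obtain ⟨-, -, -, w4, w5, -, -⟩ := twl.1 F V V1 A2 α2 i
  let b := Module.finBasis F B
  have hQTr : ∀ c y, TensorProduct.map (β c) (q c) (Tr F αY i (θ c) y) = 0 := by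
    intro c y
    induction y using TensorProduct.induction_on with
    | zero => simp
    | tmul a x =>
      have h1 : ∀ v, TensorProduct.map (β c) (q c) (tj F αY i (θ c) v (a ⊗ₜ[F] x)) =
          β c a ⊗ₜ[F] q c (tj F α2 i (θ c) v x) := by
        intro v
        rw [tj_tmul hY, TensorProduct.map_tmul, htb.eb]
      rw [Tr_apply, map_sum, Finset.sum_congr rfl fun v _ => h1 v, ← TensorProduct.tmul_sum,
        ← map_sum, ← Tr_apply, q_zero hsg c (w5 _ _) (Tr_mem_It _ _ _ _), TensorProduct.tmul_zero]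
    | add x y hx hy => rw [map_add, map_add, hx, hy, add_zero]
  have hβv : ∀ c v, ∀ a ∈ Nt F α1 i (θ c), β c (α1 (i v) * a) = β c a := by
    intro c v a ha
    have h1 : α1 (i v) ∈ Nt F α1 i (θ 1) := by
      have h2 := (u4 1 (i v) 1 u3).1
      rwa [mul_one, ← map_one θ] at h2
    have h2 := htb.mul 1 c (α1 (i v)) h1 a ha
    rwa [one_mul, htb.tv, one_mul] at h2
  have hqv : ∀ c v, ∀ x ∈ Nt F α2 i (θ c), q c (α2 (i v) * x) = q c x := by
    intro c v x hx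
    have h1 := q_zero hsg c (Submodule.sub_mem _ (w4 (θ c) (i v) x hx).1 hx)
      (sub_mem_It _ _ _ v hx)
    rwa [map_sub, sub_eq_zero] at h1
  have hQu : ∀ (c : C) (x : Fin (Module.finrank F B) → A2) (z : A1 ⊗[F] A2),
      TensorProduct.map (β c) (q c) (∑ k, s c (b k) ⊗ₜ[F] x k + Tr F αY i (θ c) z) =
        ∑ k, b k ⊗ₜ[F] q c (x k) := by
    intro c x z
    rw [map_add, hQTr, add_zero, map_sum]
    refine Finset.sum_congr rfl fun k _ => ?_
    rw [TensorProduct.map_tmul, htb.bs]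
  have hv : ∀ c v, ∀ y ∈ Nt F αY i (θ c), TensorProduct.map (β c) (q c) (αY (i v) * y) =
      TensorProduct.map (β c) (q c) y := by
    intro c v y hy
    obtain ⟨x, hx, z, hz⟩ := decomp hY htb b c hy
    have h1 : αY (i v) ∈ Nt F αY i 1 := by
      have h2 := (t4 1 (i v) 1 t3).1
      rwa [mul_one] at h2
    have h2 : TensorProduct.map (β c) (q c) (αY (i v) * Tr F αY i (θ c) z) = 0 := by
      rw [t6 1 (θ c) (αY (i v)) z h1, mul_one]
      exact hQTr c _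
    rw [hz, hQu, mul_add, map_add, h2, add_zero, Finset.mul_sum, map_sum]
    refine Finset.sum_congr rfl fun k _ => ?_
    rw [hY, Algebra.TensorProduct.tmul_mul_tmul, TensorProduct.map_tmul,
      hβv c v _ (htb.fs c (b k)), hqv c v _ (hx k), htb.bs]
  have hIt : ∀ c, ∀ a ∈ Nt F α1 i (θ c), ∀ x ∈ It F α2 i (θ c),
      a ⊗ₜ[F] x ∈ It F αY i (θ c) := by
    intro c a ha x hx
    have h1 : It F α2 i (θ c) ≤ (It F αY i (θ c)).comap (TensorProduct.mk F A1 A2 a) := by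
      refine Submodule.span_le.2 ?_
      rintro _ (⟨m, rfl⟩ | ⟨v, x, hx, rfl⟩)
      · change a ⊗ₜ[F] Tr F α2 i (θ c) m ∈ It F αY i (θ c)
        rw [Tr_left hY i _ m ha]
        exact Tr_mem_It _ _ _ _
      · change a ⊗ₜ[F] (α2 (i v) * x - x) ∈ It F αY i (θ c)
        have e : a ⊗ₜ[F] (α2 (i v) * x - x) = (αY (i v) * (a ⊗ₜ[F] x) - a ⊗ₜ[F] x) -
            (α1 (i v) * a - a) ⊗ₜ[F] (α2 (i v) * x) := by
          rw [hY, Algebra.TensorProduct.tmul_mul_tmul, TensorProduct.tmul_sub,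
            TensorProduct.sub_tmul]
          abel
        rw [e]
        refine Submodule.sub_mem _ (sub_mem_It _ _ _ v (tmul_mem hY i _ ha hx)) ?_
        have ha' : α1 (i v) * a - a ∈ Nt F α1 i (θ c) :=
          Submodule.sub_mem _ (u4 (θ c) (i v) a ha).1 ha
        have hb : β c (α1 (i v) * a - a) = 0 := by
          rw [map_sub, hβv c v a ha, sub_self]
        rw [tr_of_beta htb c ha' hb, Tr_right hY i _ _ (w4 (θ c) (i v) x hx).1]
        exact Tr_mem_It _ _ _ _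
    exact h1 hx
  refine ⟨?_, ?_, ?_, ?_⟩
  · intro s'
    induction s' using TensorProduct.induction_on with
    | zero => exact ⟨0, fun c => Submodule.zero_mem _, by simp⟩
    | tmul b' s0 =>
      obtain ⟨x, hx, hx'⟩ := hsg.sur s0
      refine ⟨fun c => s c b' ⊗ₜ[F] x c, fun c => tmul_mem hY i _ (htb.fs c b') (hx c), ?_⟩
      simp only [TensorProduct.map_tmul, htb.bs]
      rw [← TensorProduct.tmul_sum, hx']
    | add p r hp hr =>
      obtain ⟨a, ha, ha'⟩ := hp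
      obtain ⟨a', h1, h2⟩ := hr
      refine ⟨a + a', fun c => Submodule.add_mem _ (ha c) (h1 c), ?_⟩
      simp only [Pi.add_apply, map_add, Finset.sum_add_distrib, ha', h2]
  · intro y hy
    constructor
    · intro h0
      choose x hx z hz using fun c => decomp hY htb b c (hy c)
      have h1 : ∀ c, TensorProduct.map (β c) (q c) (y c) = ∑ k, b k ⊗ₜ[F] q c (x c k) := by
        intro c
        conv_lhs => rw [hz c]
        exact hQu c _ _
      have h2 : ∑ k, b k ⊗ₜ[F] (∑ c, q c (x c k)) = 0 := by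
        rw [← h0]
        simp only [h1, TensorProduct.tmul_sum]
        exact Finset.sum_comm
      have h3 : ∀ k, ∑ c, q c (x c k) = 0 := eq_zero_of_sum b _ h2
      have h4 : ∀ k c, x c k ∈ It F α2 i (θ c) := fun k =>
        (hsg.ker (fun c => x c k) (fun c => hx c k)).1 (h3 k)
      intro c
      rw [hz c]
      exact Submodule.add_mem _
        (Submodule.sum_mem _ fun k _ => hIt c _ (htb.fs c (b k)) _ (h4 k c)) (Tr_mem_It _ _ _ _)
    · intro h0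
      refine Finset.sum_eq_zero fun c _ => ?_
      have hle : It F αY i (θ c) ≤ LinearMap.ker (TensorProduct.map (β c) (q c)) := by
        refine Submodule.span_le.2 ?_
        rintro _ (⟨m, rfl⟩ | ⟨v, y, hy, rfl⟩)
        · exact hQTr c m
        · change TensorProduct.map (β c) (q c) (αY (i v) * y - y) = 0
          rw [map_sub, hv c v y hy, sub_self]
      exact hle (h0 c)
  · intro c d y hy y' hy'
    obtain ⟨x, hx, z, hz⟩ := decomp hY htb b c hy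
    obtain ⟨x', hx', z', hz'⟩ := decomp hY htb b d hy'
    have hu : ∑ k, s c (b k) ⊗ₜ[F] x k ∈ Nt F αY i (θ c) :=
      Submodule.sum_mem _ fun k _ => tmul_mem hY i _ (htb.fs c (b k)) (hx k)
    have e1 : TensorProduct.map (β (c * d)) (q (c * d)) (Tr F αY i (θ c) z * y') = 0 := by
      rw [t7 (θ c) (θ d) z y' hy', ← map_mul, mul_comm d c]
      exact hQTr (c * d) _
    have e2 : TensorProduct.map (β (c * d)) (q (c * d))
        ((∑ k, s c (b k) ⊗ₜ[F] x k) * Tr F αY i (θ d) z') = 0 := by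
      rw [t6 (θ c) (θ d) _ z' hu, ← map_mul, mul_comm d c]
      exact hQTr (c * d) _
    have e3 : y * y' = (∑ k, s c (b k) ⊗ₜ[F] x k) * (∑ k, s d (b k) ⊗ₜ[F] x' k) +
        (∑ k, s c (b k) ⊗ₜ[F] x k) * Tr F αY i (θ d) z' + Tr F αY i (θ c) z * y' := by
      conv_lhs => rw [hz, add_mul]
      conv_lhs => arg 1; rw [hz', mul_add]
    change TensorProduct.map (β (c * d)) (q (c * d)) (y * y') =
      TensorProduct.map (β c) (q c) y * TensorProduct.map (β d) (q d) y'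
    rw [e3, map_add, map_add, e1, e2, add_zero, add_zero, hz, hz', hQu, hQu,
      Finset.sum_mul_sum, Finset.sum_mul_sum, map_sum]
    refine Finset.sum_congr rfl fun k _ => ?_
    rw [map_sum]
    refine Finset.sum_congr rfl fun l _ => ?_
    rw [Algebra.TensorProduct.tmul_mul_tmul, TensorProduct.map_tmul,
      Algebra.TensorProduct.tmul_mul_tmul, htb.mul c d _ (htb.fs c (b k)) _ (htb.fs d (b l)),
      hsg.mul c d _ (hx k) _ (hx' l), htb.bs, htb.bs]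
  · change TensorProduct.map (β 1) (q 1) (1 : A1 ⊗[F] A2) = 1
    rw [Algebra.TensorProduct.one_def, TensorProduct.map_tmul, htb.one, hsg.one,
      ← Algebra.TensorProduct.one_def]

end raw

/-- ROW SGT -/
theorem sgt : Pool.Agent.PFE.S.SgtStmt := by
  intro twl F V V1 C B S _ _ _ _ _ _ _ _ _ _ _ N X i θ β s h q htb hsg
  exact main twl (fun _ => rfl) htb hsg

end Pool.Agent.PFE.H22
end
end -- Pool.Agent.Helper22_PFE.SGT

section -- Pool.Agent.Helper32_PFC.QGW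

/-!
# PFC, block B5d, row QGW: gluing over the subgroups which are not in `W`
-/

open scoped BigOperators TensorProduct

noncomputable section

namespace Pool.Agent.PFC.B5c.H32

section lists

variable {ι : Type}

/-- the multiset with `|μ Q|` times the pair `(Q, sign)` -/
def ml (U : Finset ι) (μ : ι → ℤ) : Multiset (ι × Bool) :=
  ∑ Q ∈ U, Multiset.replicate (μ Q).natAbs (Q, decide (0 < μ Q))

theorem mem_ml {U : Finset ι} {μ : ι → ℤ} {p : ι × Bool} (hp : p ∈ ml U μ) : p.1 ∈ U := by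
  unfold ml at hp
  rw [Multiset.mem_sum] at hp
  obtain ⟨Q, hQ, h⟩ := hp
  rw [Multiset.eq_of_mem_replicate h]
  exact hQ

theorem map_ml (U : Finset ι) (μ : ι → ℤ) (g : ι → ι) :
    (ml U μ).map (fun p => (g p.1, p.2)) =
      ∑ Q ∈ U, Multiset.replicate (μ Q).natAbs (g Q, decide (0 < μ Q)) := by
  unfold ml
  have h := map_sum (Multiset.mapAddMonoidHom (fun p : ι × Bool => (g p.1, p.2)))
    (fun Q => Multiset.replicate (μ Q).natAbs (Q, decide (0 < μ Q))) U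
  rw [Multiset.coe_mapAddMonoidHom] at h
  refine h.trans (Finset.sum_congr rfl fun Q _ => ?_)
  rw [Multiset.map_replicate]

theorem perm_ml (U : Finset ι) (μ : ι → ℤ) (e : ι ≃ ι) (hU : ∀ Q, Q ∈ U ↔ e Q ∈ U)
    (hμ : ∀ Q, μ (e Q) = μ Q) :
    (ml U μ).map (fun p => (e p.1, p.2)) = ml U μ := by
  rw [map_ml]
  unfold ml
  refine Finset.sum_equiv e hU fun Q _ => ?_
  rw [hμ]

theorem count_ml [DecidableEq ι] (U : Finset ι) (μ : ι → ℤ) (g : ι → ι) (S : ι) :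
    (((ml U μ).map (fun p => (g p.1, p.2))).count (S, true) : ℤ) -
      ((ml U μ).map (fun p => (g p.1, p.2))).count (S, false) =
      ∑ Q ∈ U.filter (fun Q => g Q = S), μ Q := by
  rw [map_ml, Multiset.count_sum', Multiset.count_sum', Nat.cast_sum, Nat.cast_sum,
    ← Finset.sum_sub_distrib, Finset.sum_filter]
  refine Finset.sum_congr rfl fun Q _ => ?_
  rw [Multiset.count_replicate, Multiset.count_replicate]
  simp only [Prod.mk.injEq]
  by_cases h1 : g Q = S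
  · by_cases h2 : 0 < μ Q
    · rw [if_pos ⟨h1, by simpa using h2⟩, if_neg (by simp [h2]), if_pos h1]
      omega
    · rw [if_neg (by simp [h2]), if_pos ⟨h1, by simpa using h2⟩, if_pos h1]
      omega
  · rw [if_neg (fun h => h1 h.1), if_neg (fun h => h1 h.1), if_neg h1]
    simp

theorem cnt {α : Type} [BEq α] [LawfulBEq α] [DecidableEq α] (a : α) (l : List α) :
    List.count a l = Multiset.count a (l : Multiset α) := by
  induction l with
  | nil => simp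
  | cons b l ih =>
    rw [List.count_cons, ih, ← Multiset.cons_coe, Multiset.count_cons]
    by_cases h : b = a
    · simp [h]
    · simp [h, Ne.symm h]

end lists

/-- QGW without the hypothesis on `⊤` -/
theorem glue (hQmw : QmwStmt) (hQlq : QlqStmt) (hQlp : QlpStmt) (hQis : QisStmt)
    (hQsn : QsnStmt) (hQlr : QlrStmt) (hQdi : QdiStmt)
    (ℓ : ℕ) [Fact ℓ.Prime] (F V : Type) [Field F] [CharP F ℓ] [CommGroup V] [Finite V]
    (W : Subgroup V) (Sg : Set (MulAut V)) (S : Subgroup V → IA F V) (hp : IsPGroup ℓ V)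
    (hSg : ∀ σ ∈ Sg, W.map σ.toMonoidHom = W)
    (hS : ∀ Q, ¬ Q ≤ W → Mx (S Q) ∧ CP (S Q))
    (hBQ : ∀ Q, ¬ Q ≤ W → ∀ R : Subgroup V, BQ (S Q) (S (Q ⊔ R)) R)
    (hone : Iso (S ⊤) (IA.one F V))
    (hiso : ∀ σ ∈ Sg, ∀ Q, ¬ Q ≤ W → IsoT σ (S Q) (S (Q.map σ.toMonoidHom))) :
    ∃ N : IA F V, Mx N ∧ CP N ∧ (∀ σ ∈ Sg, Rz N σ) ∧ BQ N (IA.one F V) ⊤ ∧
      ∀ R : Subgroup V, ¬ R ≤ W → ∃ N' : IA F V, BQ N N' R ∧ Ret (N'.tens (S R)) ∧
        BQ (N'.tens (S R)) (IA.one F V) ⊤ := by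
  classical
  have : Fintype (Subgroup V) := Fintype.ofFinite _
  obtain ⟨μ, hμ1, hμ2⟩ := hQmw V W
  obtain ⟨i_rf, i_sy, -, i_BQ, -, -, i_Ret, -, -, i_cm, -, -, -, i_tr, i_one, -⟩ := hQis F V
  obtain ⟨U, hU⟩ : ∃ U : Finset (Subgroup V), ∀ Q, Q ∈ U ↔ ¬ Q ≤ W :=
    ⟨Finset.univ.filter (fun Q => ¬ Q ≤ W), fun Q => by simp⟩
  obtain ⟨L, hL⟩ : ∃ L : List (Subgroup V × Bool), (L : Multiset (Subgroup V × Bool)) = ml U μ :=
    ⟨(ml U μ).toList, Multiset.coe_toList _⟩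
  have hLm : ∀ p ∈ L, ¬ p.1 ≤ W := by
    intro p hp'
    have h1 : p ∈ (L : Multiset (Subgroup V × Bool)) := Multiset.mem_coe.2 hp'
    rw [hL] at h1
    exact (hU _).1 (mem_ml h1)
  -- a product over any list with entries not in `W` has the trivial quotient at `⊤`
  have hTop : ∀ L' : List (Subgroup V × Bool), (∀ p ∈ L', ¬ p.1 ≤ W) →
      BQ (prd S L') (IA.one F V) ⊤ := by
    intro L' hL'
    have h1 := (hQlq ℓ F V (Subgroup V) (Subgroup V) S S (fun Q => Q ⊔ ⊤) L' hp).2.2.1 ⊤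
      (fun p hp' => hBQ p.1 (hL' p hp') ⊤)
    have h2 := (hQlq ℓ F V (Subgroup V) (Subgroup V) S S (fun Q => Q ⊔ ⊤)
      (L'.map (fun p => (p.1 ⊔ ⊤, p.2))) hp).2.2.2.2 (by
        intro p hp'
        obtain ⟨q, -, rfl⟩ := List.mem_map.1 hp'
        change Iso (S (q.1 ⊔ ⊤)) _
        rw [sup_top_eq]
        exact hone)
    exact i_BQ _ _ _ _ ⊤ (i_rf _) h2 h1
  have hMx : Mx (prd S L) := (hQlq ℓ F V (Subgroup V) (Subgroup V) S S id L hp).1
    (fun p hp' => (hS p.1 (hLm p hp')).1)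
  refine ⟨prd S L, hMx, (hQlq ℓ F V (Subgroup V) (Subgroup V) S S id L hp).2.1
    (fun p hp' => (hS p.1 (hLm p hp')).2), ?_, hTop L hLm, ?_⟩
  · intro σ hσ
    apply (hQsn F V).1 _ _ hMx
    have h1 := (hQlq ℓ F V (Subgroup V) (Subgroup V) S S (fun Q => Q.map σ.toMonoidHom) L
      hp).2.2.2.1 σ (fun p hp' => hiso σ hσ p.1 (hLm p hp'))
    have h2 : (L.map (fun p => (p.1.map σ.toMonoidHom, p.2))).Perm L := by
      rw [← Multiset.coe_eq_coe, ← Multiset.map_coe, hL]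
      refine perm_ml U μ (MulEquiv.mapSubgroup σ).toEquiv ?_ (fun Q => hμ1 σ (hSg σ hσ) Q)
      intro Q
      rw [hU, hU]
      change ¬ Q ≤ W ↔ ¬ Q.map σ.toMonoidHom ≤ W
      rw [← hSg σ hσ]
      have h3 : Q.map σ.toMonoidHom ≤ W.map σ.toMonoidHom ↔ Q ≤ W :=
        Subgroup.map_le_map_iff_of_injective σ.injective
      rw [h3, hSg σ hσ]
    have h4 := i_tr σ 1 _ _ _ h1 ((i_one _ _).2 (hQlp F V (Subgroup V) S _ _ h2))
    rw [one_mul] at h4
    exact h4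
  · intro R hR
    obtain ⟨LR, hLR⟩ : ∃ LR, LR = L.map (fun p : Subgroup V × Bool => (p.1 ⊔ R, p.2)) :=
      ⟨_, rfl⟩
    have hLRm : ∀ p ∈ (R, true) :: LR, ¬ p.1 ≤ W := by
      intro p hp'
      rcases List.mem_cons.1 hp' with rfl | h
      · exact hR
      · rw [hLR] at h
        obtain ⟨q, -, rfl⟩ := List.mem_map.1 h
        exact fun h1 => hR (le_trans le_sup_right h1)
    have hcm : Iso (prd S ((R, true) :: LR)) ((prd S LR).tens (S R)) := i_cm _ _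
    refine ⟨prd S LR, ?_, ?_, ?_⟩
    · have h1 := (hQlq ℓ F V (Subgroup V) (Subgroup V) S S (fun Q => Q ⊔ R) L hp).2.2.1 R
        (fun p hp' => hBQ p.1 (hLm p hp') R)
      rw [hLR]
      exact h1
    · apply i_Ret _ _ hcm
      apply hQlr F V (Subgroup V) S _ (fun p hp' => ⟨(hS p.1 (hLRm p hp')).1, ?_⟩)
      · intro T
        have h1 := count_ml U μ (fun Q => Q ⊔ R) T
        rw [← hL, Multiset.map_coe, ← hLR] at h1
        have h2 : ∑ Q ∈ U.filter (fun Q => Q ⊔ R = T), μ Q =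
            ∑ᶠ Q ∈ {Q : Subgroup V | ¬ Q ≤ W ∧ Q ⊔ R = T}, μ Q := by
          rw [finsum_mem_eq_finite_toFinset_sum _ (Set.toFinite _)]
          refine Finset.sum_congr ?_ fun _ _ => rfl
          ext Q
          simp [hU]
        rw [h2] at h1
        rw [cnt, cnt, ← Multiset.cons_coe, Multiset.count_cons, Multiset.count_cons]
        by_cases h3 : T = R
        · rw [(hμ2 R T hR).1 h3] at h1
          subst h3
          rw [if_pos rfl, if_neg (by simp)]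
          omega
        · rw [(hμ2 R T hR).2 h3] at h1
          rw [if_neg (fun h => h3 (congrArg Prod.fst h)),
            if_neg (fun h => h3 (congrArg Prod.fst h))]
          omega
      · obtain ⟨β, s, hb⟩ := hBQ p.1 (hLRm p hp') ⊤
        have h1 := hQdi ℓ F V (S p.1).A (S (p.1 ⊔ ⊤)).A _ _ ⊤ β s hp hb.toBrS
        obtain ⟨e, -⟩ := hone
        rw [h1, sup_top_eq]
        have h2 : Module.finrank F (S ⊤).A = 1 := by
          rw [e.toLinearEquiv.finrank_eq]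
          exact Module.finrank_self F
        rw [h2, Nat.cast_one]
        exact one_ne_zero
    · exact i_BQ _ _ _ _ ⊤ hcm (i_rf _) (hTop _ hLRm)

/-- QGW -/
theorem qgw (hQmw : QmwStmt) (hQlq : QlqStmt) (hQlp : QlpStmt) (hQis : QisStmt)
    (hQsn : QsnStmt) (hQlr : QlrStmt) (hQdi : QdiStmt) : QgwStmt := by
  intro ℓ _ F V _ _ _ _ W Sg S hp _ hSg hS hBQ hone hiso
  exact glue hQmw hQlq hQlp hQis hQsn hQlr hQdi ℓ F V W Sg S hp hSg hS hBQ hone hiso

end Pool.Agent.PFC.B5c.H32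
end
end -- Pool.Agent.Helper32_PFC.QGW

section -- Pool.Agent.Helper43_PFC.AsmB5

/-!
# Squad PFC: assembly of part (0): `PIn → PMid` (`PmdStmt`, `PmzStmt`) and `PuiStmt`
-/

open scoped BigOperators TensorProduct

noncomputable section

namespace Pool.Agent.PFC.B5c.H43

/-- The hypotheses of the core. -/
structure Rows : Prop where
  fam : FamStmt
  cpx : CpxStmt
  cmr : CmrStmt
  qgw : QgwStmt
  tpb : TpbStmt
  qcp : QcpStmt
  qte : QteStmt
  qis : QisStmt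
  qcx : QcxStmt
  qlx : QlxStmt
  qlb : QlbStmt
  qke : QkeStmt
  qce : QceStmt
  qzs : QzsStmt
  ndm : NdmStmt
  frt : FrtStmt
  jbk : JbkStmt
  frc : FrcStmt
  qll : QllStmt
  qsp : QspStmt
  qvp : QvpStmt
  qsn : QsnStmt
  qtj : QtjStmt

/-- The result of the core: everything about `N`, `Y = N ⊗ A`, `j` and the corner. -/
theorem core (H : Rows) (F V E A : Type) [Field F] [IsAlgClosed F] [CommGroup V] [Fintype V]
    [Group E] [Fintype E] [Ring A] [Algebra F A] [FiniteDimensional F A] (ℓ : ℕ) [CharP F ℓ]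
    (φ : E →* MulAut V) (W : Subgroup V) (α : V →* A) (hC : Ctf ℓ φ W) (hI : PIn F φ W α) :
    ∃ (N Y' : IA F V) (j : (N.tens (bd F α)).A) (κ : Y'.A →ₗ[F] (N.tens (bd F α)).A) (n : ℕ),
      0 < n ∧ Nonempty (N.A ≃ₐ[F] Matrix (Fin n) (Fin n) F) ∧
      Cor (N.tens (bd F α)) Y' j κ ∧ j ∈ Fx (cj F (N.tens (bd F α)).ι) ⊤ ∧ j * j = j ∧
      1 - j ∈ BK (cj F (N.tens (bd F α)).ι) ⊤ ∧
      (∃ lam, Frm F (N.tens (bd F α)).ι lam) ∧
      PS (fun K => ∃ (e : E) (R : Subgroup V), K = tw (φ e).toMonoidHom R)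
        (bi F (N.tens (bd F α)).ι) ∧
      BQ (N.tens (bd F α)) (IA.gr F V) ⊤ ∧
      (∀ e : E, ∃ y y' : (N.tens (bd F α)).A, y * y' = 1 ∧ y' * y = 1 ∧
        ∀ u, y * (N.tens (bd F α)).ι u = (N.tens (bd F α)).ι (φ e u) * y) ∧
      PMid F φ W Y'.ι := by
  classical
  have : Fact ℓ.Prime := ⟨hC.pr⟩
  have htop : ¬ (⊤ : Subgroup V) ≤ W := by
    obtain ⟨u, hu⟩ := hC.nt
    exact fun h => hu (h (Subgroup.mem_top u))
  have hWs : ∀ e : E, W.map (φ e).toMonoidHom = W := by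
    intro e
    apply le_antisymm
    · rintro _ ⟨u, hu, rfl⟩
      exact hC.stab e u hu
    · intro u hu
      refine ⟨φ e⁻¹ u, hC.stab e⁻¹ u hu, ?_⟩
      show φ e (φ e⁻¹ u) = u
      rw [← MulAut.mul_apply, ← map_mul, mul_inv_cancel, map_one, MulAut.one_apply]
  set X : IA F V := bd F α with hX
  have hCP : CP X := H.cpx F V A α _ hI.ps
  have hbt : BQ X (IA.gr F V) ⊤ := H.tpb ℓ F V X hC.pg hCP hI.top
  obtain ⟨S, hS⟩ := H.fam F V E A ℓ φ W α hC hI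
  obtain ⟨hcm, hst⟩ := H.cmr ℓ F V E X φ W S hC.pg htop hCP hbt hS
  obtain ⟨N, hNm, hNc, hNr, hNt, hNR⟩ := H.qgw ℓ F V W (Set.range φ) S hC.pg htop
    (by rintro _ ⟨e, rfl⟩; exact hWs e) (fun Q hQ => ⟨hS.mx Q hQ, hS.cp Q hQ⟩) hcm hst
    (by rintro _ ⟨e, rfl⟩ Q hQ; exact hS.tw Q hQ e)
  obtain ⟨iRefl, iSymm, iTrans, iBQ, -, -, -, iTen, -, iComm, iAssoc, iOne, -⟩ := H.qis F V
  set Y : IA F V := N.tens X with hY
  have hCY : CP Y := (H.qcp F V).1 N X hNc hCP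
  -- Y(V) = F V
  have hYt : BQ Y (IA.gr F V) ⊤ := by
    obtain ⟨β, s, h1⟩ := hNt
    obtain ⟨β', s', h2⟩ := hbt
    exact iBQ Y Y _ _ ⊤ (iRefl Y) (iOne (IA.gr F V)) ⟨_, _, H.qte ℓ F V _ _ _ _ ⊤ β s β' s' hC.pg h1 h2⟩
  obtain ⟨b, hb⟩ := (H.qcx ℓ F V Y hC.pg hYt).1
  obtain ⟨j, hj⟩ := H.qlx F V Y b hb
  have hjc : ∀ v, Y.ι v * j = j * Y.ι v := by
    intro v
    have h := hj.fx v (Subgroup.mem_top v)
    have h2 : Y.ι v * (j * Y.ι v⁻¹) = j := h
    calc Y.ι v * j = Y.ι v * (j * Y.ι v⁻¹) * Y.ι v := by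
          rw [mul_assoc, mul_assoc, ← map_mul, inv_mul_cancel, map_one, mul_one]
      _ = j * Y.ι v := by rw [h2]
  obtain ⟨Y', κ, hκ⟩ := H.qce F V Y j hj.id hjc
  -- the Brauer quotients of the corner
  have hR : ∀ R : Subgroup V, ¬ R ≤ W → BQ Y' (IA.gr F V) R := by
    intro R hRW
    obtain ⟨N', hN1, hN2, hN3⟩ := hNR R hRW
    apply H.qzs ℓ F V Y Y' (N'.tens (S R)) R b j κ hC.pg hCY hb hj hκ _ hN2 hN3
    obtain ⟨β, s, h1⟩ := hN1
    obtain ⟨β', s', h2⟩ := hS.bq R hRW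
    exact iBQ Y Y _ _ R (iRefl Y) (iSymm _ _ (iAssoc N' (S R) (IA.gr F V)))
      ⟨_, _, H.qte ℓ F V _ _ _ _ R β s β' s' hC.pg h1 h2⟩
  -- j modulo the Brauer kernel
  have hjb : j ∉ BK (cj F Y.ι) ⊤ := by
    obtain ⟨β, s, h1⟩ := hYt
    obtain ⟨c, hc1, -, hc3⟩ := H.qlb ℓ F V Y (IA.gr F V) ⊤ b j β s hC.pg hCY hb hj h1
    intro hbk
    have h0 := ((H.qke ℓ F V _ _ _ _ ⊤ β s hC.pg h1.toBrS).2.1 j hj.fx).2 hbk
    have h1 := hc3.bj
    rw [h0, map_zero] at h1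
    exact zero_ne_one h1
  have hj1 : 1 - j ∈ BK (cj F Y.ι) ⊤ := H.jbk ℓ F V Y j hC.pg hYt hj.fx hj.id hjb
  obtain ⟨n, hn0, hnF, hNe⟩ := H.ndm ℓ F V N hC.pg hNm hNc hNt
  obtain ⟨lam, hlam⟩ := hI.frm
  obtain ⟨lam1, hlam1⟩ := H.frt ℓ F V N X n hC.pg hnF hNe lam hlam
  have hps : PS (fun K => ∃ (e : E) (R : Subgroup V), K = tw (φ e).toMonoidHom R) (bi F Y.ι) :=
    H.qvp F V E φ N X hNc (fun e => hNr _ ⟨e, rfl⟩) hI.ps
  have hrz : ∀ e, Rz Y (φ e) := by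
    intro e
    apply (H.qsn F V).2.2.2 N X (φ e) (hNr _ ⟨e, rfl⟩)
    obtain ⟨y, y', h1, h2, h3⟩ := hI.uni e
    exact ⟨⟨y, y', h1, h2⟩, h3⟩
  have hpm : PMid F φ W Y'.ι := by
    refine ⟨Y'.fi, ?_, ?_, ?_, ?_, ?_, ?_⟩
    · exact H.frc ℓ F V Y Y' j κ hC.pg hκ hj1 lam1 hlam1
    · exact (H.qll F V Y Y' b j κ hb hj hκ).2
    · intro h1
      have h2 := (H.qsp ℓ F V Y' ⊤ hC.pg (hR ⊤ htop)).2 (fun u => if u = 1 then 1 else 0) (by
        have : ∑ u, (if u = 1 then (1 : F) else 0) • Y'.ι u = 1 := by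
          rw [Finset.sum_eq_single (1 : V)]
          · simp
          · intro u _ hu
            simp [hu]
          · intro h
            exact absurd (Finset.mem_univ _) h
        rw [this]
        exact h1)
      have h3 := congrFun h2 1
      simp at h3
    · exact (H.qcp F V).2.2.2.2.1 _ Y Y' j κ hκ hps
    · intro R hRW a ha
      exact (H.qsp ℓ F V Y' R hC.pg (hR R hRW)).1 a ha
    · intro e
      obtain ⟨y, hy⟩ := H.qtj ℓ F V Y Y' b j κ (φ e) hC.pg hYt hb hj hκ (hrz e)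
      exact ⟨y, (y⁻¹ : Y'.Aˣ), y.mul_inv, y.inv_mul, hy⟩
  refine ⟨N, Y', j, κ, n, hn0, hNe, hκ, hj.fx, hj.id, hj1, ⟨lam1, hlam1⟩, hps, hYt, ?_, hpm⟩
  intro e
  obtain ⟨y, hy⟩ := hrz e
  exact ⟨y, (y⁻¹ : Y.Aˣ), y.mul_inv, y.inv_mul, hy⟩

theorem pmd (H : Rows) (hlsm : LsmStmt) (hlsc : LscStmt) : PmdStmt := by
  intro F V E A _ _ _ _ _ _ _ _ ℓ _ φ W α hC hI
  have := hI.fin
  obtain ⟨N, Y', j, κ, n, hn0, hNe, hκ, -, -, -, -, -, -, -, hpm⟩ :=
    core H F V E A ℓ φ W α hC hI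
  refine ⟨Y'.A, inferInstance, inferInstance, Y'.ι, hpm, ?_⟩
  have h1 : ls F Y'.A ≤ ls F (N.tens (bd F α)).A :=
    hlsc F _ Y'.A j κ ⟨hκ.inj, hκ.mul, hκ.one, hκ.ran⟩
  have h2 : ls F (N.A ⊗[F] A) ≤ ls F A := hlsm F N.A A n hn0 hNe
  exact h1.trans h2

theorem pmz (H : Rows) (hlsm : LsmStmt) (hlsc : LscStmt) (hlsf : LsfStmt) (hlsn : LsnStmt)
    (hful : FulStmt) (hzcn : ZcnStmt) (hzmx : ZmxStmt) (hlcn : LcnStmt) : PmzStmt := by
  intro F V E A _ _ _ _ _ _ _ _ ℓ _ φ W α hC hI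
  have := hI.fin
  have : Fact ℓ.Prime := ⟨hC.pr⟩
  obtain ⟨N, Y', j, κ, n, hn0, hNe, hκ, hjf, hjj, hj1, ⟨lam, hlam⟩, hps, hYt, hun, hpm⟩ :=
    core H F V E A ℓ φ W α hC hI
  refine ⟨Y'.A, inferInstance, inferInstance, Y'.ι, hpm, ?_⟩
  have hcn : Cnr j κ := ⟨hκ.inj, hκ.mul, hκ.one, hκ.ran⟩
  have hzm := hzmx F N.A A n hn0 hNe
  have hce : ∀ z : (N.tens (bd F α)).A, (∀ a, z * a = a * z) → IsUnit z ∨ IsNilpotent z := by
    intro z hz
    obtain ⟨c, hc, rfl⟩ := hzm.1 z hz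
    have hcz : c ∈ Cz F α ⊤ := by
      rw [Cz, Subalgebra.mem_centralizer_iff]
      intro g _
      exact (hc g).symm
    have hmap : ∀ d : A, (1 : N.A) ⊗ₜ[F] d = (Algebra.TensorProduct.includeRight :
        A →ₐ[F] N.A ⊗[F] A) d := fun d => rfl
    rcases (hlcn F (Cz F α ⊤) hI.loc).1 ⟨c, hcz⟩ with h | h
    · left
      have h2 : IsUnit c := by
        have := h.map (Cz F α ⊤).val
        exact this
      have := h2.map (Algebra.TensorProduct.includeRight : A →ₐ[F] N.A ⊗[F] A)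
      exact this
    · right
      have h2 : IsNilpotent c := by
        obtain ⟨k, hk⟩ := h
        exact ⟨k, by simpa using congrArg Subtype.val hk⟩
      exact h2.map (Algebra.TensorProduct.includeRight : A →ₐ[F] N.A ⊗[F] A)
  have hfull : (1 : (N.tens (bd F α)).A) ∈ Submodule.span F {x | ∃ a b, x = a * j * b} :=
    hful ℓ F V E (N.tens (bd F α)).A φ W (N.tens (bd F α)).ι lam j hC hlam hps hYt hun hce hjf
      hjj hj1
  constructor
  · apply le_antisymm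
    · exact (hlsc F _ Y'.A j κ hcn).trans (hlsm F N.A A n hn0 hNe)
    · exact (hlsn F N.A A n hn0 hNe).trans (hlsf F _ Y'.A j κ hcn hfull)
  · exact (hzcn F _ Y'.A j κ hcn hfull).trans hzm.2

theorem pui (hpmd : PmdStmt) (hmid : MidStmt) (hqta : QtaStmt) (hlcn : LcnStmt) : PuiStmt := by
  intro F V E A _ _ _ _ _ _ _ _ ℓ _ φ e0 α _ hc hI
  have : Fact ℓ.Prime := ⟨hc.pr⟩
  obtain ⟨A', iR, iA, α', hm, hls⟩ := hpmd F V E A ℓ φ ⊥ α hc.ctf hI
  have := hm.fin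
  have hy : ∃ y : A', (∀ u, y * α' u = α' (φ e0 u) * y) ∧ y ^ Nat.card E = 1 := by
    have hloc := hm.loc
    have hnt : Nontrivial A' := by
      obtain ⟨x, y, hxy⟩ := (hloc.toNontrivial : Nontrivial (Cz F α' ⊤))
      exact ⟨⟨x, y, fun h => hxy (Subtype.ext h)⟩⟩
    have hord : (φ e0) ^ Nat.card E = 1 := by
      rw [← map_pow, pow_card_eq_one', map_one]
    obtain ⟨y, y', h1, h2, h3⟩ := hm.uni e0
    have hrz : Rz (bd F α') (φ e0) := ⟨⟨y, y', h1, h2⟩, h3⟩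
    have hfx : ∀ a : A', a ∈ Fx (cj F α') ⊤ → ∃ t : F, IsNilpotent (a - algebraMap F A' t) := by
      intro a ha
      have hcz : a ∈ Cz F α' ⊤ := by
        rw [Cz, Subalgebra.mem_centralizer_iff]
        rintro _ ⟨v, -, rfl⟩
        have h : α' v * (a * α' v⁻¹) = a := ha v (Subgroup.mem_top v)
        calc α' v * a = α' v * (a * α' v⁻¹) * α' v := by
              rw [mul_assoc, mul_assoc, ← map_mul, inv_mul_cancel, map_one, mul_one]
          _ = a * α' v := by rw [h]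
      obtain ⟨t, k, hk⟩ := (hlcn F (Cz F α' ⊤) hloc).2 ⟨a, hcz⟩
      exact ⟨t, k, by simpa using congrArg Subtype.val hk⟩
    have hq : ∃ w : A'ˣ, (∀ v, (w : A') * α' v = α' (φ e0 v) * w) ∧ w ^ Nat.card E = 1 :=
      hqta ℓ F V (bd F α') (φ e0) (Nat.card E) Nat.card_pos hc.cop hord hnt hfx hrz
    obtain ⟨w, hw1, hw2⟩ := hq
    refine ⟨w, hw1, ?_⟩
    have := congrArg (fun z : A'ˣ => (z : A')) hw2
    simpa using this
  obtain ⟨γ, hγ⟩ := hmid F V E A' ℓ φ e0 α' hc ⟨hm.fin, hm.frm, hm.loc, hm.one, hm.ps,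
    fun R hR a ha => hm.spn R (fun h => hR (le_bot_iff.1 h)) a ha, hy⟩
  exact ⟨A', iR, iA, γ, hγ, hls⟩

end Pool.Agent.PFC.B5c.H43
end
end -- Pool.Agent.Helper43_PFC.AsmB5

section -- Pool.Agent.Helper60_PFC.LSN

/-!
Squad PFC, block B5d, rows LSN, CPX (helper60).
-/

set_option autoImplicit false

namespace Pool.Agent.PFC.B5c.H60

open Pool.Agent.PFC TensorProduct

/-- LSN: A has at most as many simple modules as N ⊗ A if N is a full matrix algebra. -/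
theorem lsn (hLSC : LscStmt) : LsnStmt := by
  intro F N A _ _ _ _ _ _ _ n hn hN
  classical
  obtain ⟨ε⟩ := hN
  have : NeZero n := ⟨hn.ne'⟩
  have : FiniteDimensional F N := Module.Finite.equiv ε.symm.toLinearEquiv
  let E : Fin n → Fin n → N := fun i j => ε.symm (Matrix.single i j 1)
  have hE : ∀ i j k, E i j * E j k = E i k := by
    intro i j k
    show ε.symm _ * ε.symm _ = ε.symm _
    rw [← map_mul, Matrix.single_mul_single_same, one_mul]
  have hcor : ∀ x : N, E 0 0 * x * E 0 0 = (ε x 0 0) • E 0 0 := by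
    intro x
    apply ε.injective
    rw [map_mul, map_mul, map_smul]
    show ε (ε.symm _) * ε x * ε (ε.symm _) = _ • ε (ε.symm _)
    rw [AlgEquiv.apply_symm_apply]
    ext i j
    rw [Matrix.single_mul_mul_single, one_mul, mul_one, Matrix.smul_apply]
    simp only [Matrix.single_apply, smul_eq_mul]
    split_ifs <;> simp
  let f0 : N →ₗ[F] F :=
    { toFun := fun x => ε x 0 0
      map_add' := fun x y => by rw [map_add, Matrix.add_apply]
      map_smul' := fun c x => by rw [map_smul, Matrix.smul_apply, RingHom.id_apply] }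
  let f : N ⊗[F] A →ₗ[F] A := TensorProduct.lid F A ∘ₗ TensorProduct.map f0 LinearMap.id
  let κ : A →ₗ[F] N ⊗[F] A := TensorProduct.mk F N A (E 0 0)
  have hf0 : f0 (E 0 0) = 1 := by
    show ε (ε.symm _) 0 0 = 1
    rw [AlgEquiv.apply_symm_apply, Matrix.single_apply_same]
  have hfκ : ∀ a, f (κ a) = a := by
    intro a
    show TensorProduct.lid F A (TensorProduct.map f0 LinearMap.id (E 0 0 ⊗ₜ[F] a)) = a
    rw [TensorProduct.map_tmul, TensorProduct.lid_tmul, hf0, one_smul]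
    rfl
  have hκf : ∀ z : N ⊗[F] A, (E 0 0 ⊗ₜ[F] (1 : A)) * z * (E 0 0 ⊗ₜ[F] (1 : A)) = κ (f z) := by
    intro z
    induction z using TensorProduct.induction_on with
    | zero => simp
    | tmul x a =>
      rw [Algebra.TensorProduct.tmul_mul_tmul, Algebra.TensorProduct.tmul_mul_tmul, one_mul,
        mul_one, hcor]
      show _ = E 0 0 ⊗ₜ[F] (TensorProduct.lid F A (TensorProduct.map f0 LinearMap.id (x ⊗ₜ[F] a)))
      rw [TensorProduct.map_tmul, TensorProduct.lid_tmul, TensorProduct.smul_tmul]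
      rfl
    | add x y hx hy =>
      rw [mul_add, add_mul, hx, hy, map_add, map_add]
  refine hLSC F (N ⊗[F] A) A (E 0 0 ⊗ₜ[F] (1 : A)) κ ⟨?_, ?_, rfl, ?_⟩
  · intro a b h
    rw [← hfκ a, ← hfκ b, h]
  · intro a b
    show E 0 0 ⊗ₜ[F] (a * b) = (E 0 0 ⊗ₜ[F] a) * (E 0 0 ⊗ₜ[F] b)
    rw [Algebra.TensorProduct.tmul_mul_tmul, hE]
  · intro z h1 h2
    refine ⟨f z, ?_⟩
    rw [← hκf, h1, h2]

/-- CPX: the conjugation module of A. -/
theorem cpx : CpxStmt := by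
  intro F V A _ _ _ _ α P hP
  obtain ⟨Ω, i1, i2, b, c, ⟨h1, h2, h3⟩, -⟩ := hP
  refine ⟨Ω, i1, MulAction.compHom Ω ((MonoidHom.id V).prod (MonoidHom.id V)), b, c,
    ⟨fun u ω => ?_, fun u ω m => ?_, h3⟩, fun _ => trivial⟩
  · exact h1 (u, u) ω
  · exact h2 (u, u) ω m

end Pool.Agent.PFC.B5c.H60
end -- Pool.Agent.Helper60_PFC.LSN

section -- Pool.Agent.Helper91_PFC.CMR

/-!
# Squad PFC, row CMR: comparison of the local matrix algebras
-/

set_option autoImplicit false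

open scoped BigOperators TensorProduct

noncomputable section

namespace Pool.Agent.PFC.B5c.H91

/-- row CMR -/
theorem cmr (qtr : QtrStmt) (qal : QalStmt) (qte : QteStmt) (qop : QopStmt) (qun : QunStmt)
    (qca : QcaStmt) (qis : QisStmt) (qmx : QmxStmt) : CmrStmt := by
  intro ℓ _ F V E _ _ _ _ _ X φ W S hV hW hX hXV hS
  obtain ⟨hrefl, hsymm, htrans, hBQ, -, -, -, -, -, -, -, hone, -⟩ := qis F V
  obtain ⟨-, -, hgr⟩ := qop F V
  obtain ⟨-, -, hmx1⟩ := qmx F V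
  have huni : ∀ (Z Y Y' : IA F V) (Q : Subgroup V), BQ Z Y Q → BQ Z Y' Q → Iso Y Y' := by
    rintro Z Y Y' Q ⟨β, s, h⟩ ⟨β', s', h'⟩
    obtain ⟨e, he, -⟩ := qun ℓ F V Z Y Y' Q β s β' s' hV h h'
    exact ⟨e, he⟩
  refine ⟨fun Q hQ R => ?_, ?_⟩
  · have hQR : ¬ Q ⊔ R ≤ W := fun h => hQ (le_sup_left.trans h)
    have h1 : BQ ((S Q).tens (IA.gr F V)) ((S (Q ⊔ R)).tens (IA.gr F V)) R :=
      qtr ℓ F V X _ _ Q R hV hX (hS.bq Q hQ) (hS.bq (Q ⊔ R) hQR)
    obtain ⟨T, hT⟩ := qal ℓ F V (S Q) hV (hS.cp Q hQ) R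
    have h2 : BQ ((S Q).tens (IA.gr F V)) (T.tens (IA.gr F V)) R := by
      obtain ⟨β, s, h⟩ := hT
      obtain ⟨β', s', h'⟩ := hgr R
      exact ⟨_, _, qte ℓ F V _ _ _ _ R β s β' s' hV h h'⟩
    have h3 : Iso T (S (Q ⊔ R)) :=
      qca ℓ F V T (S (Q ⊔ R)) hV (hS.mx (Q ⊔ R) hQR) (huni _ _ _ R h2 h1)
    exact hBQ (S Q) (S Q) T (S (Q ⊔ R)) R (hrefl _) h3 hT
  · have h1 : Iso ((S ⊤).tens (IA.gr F V)) (IA.gr F V) := huni X _ _ ⊤ (hS.bq ⊤ hW) hXV
    exact qca ℓ F V (S ⊤) (IA.one F V) hV hmx1 (htrans _ _ _ h1 (hsymm _ _ (hone (IA.gr F V))))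

end Pool.Agent.PFC.B5c.H91
end
end -- Pool.Agent.Helper91_PFC.CMR

section -- Pool.Agent.PFC.B5.QMW

/-!
# Squad PFC, block B5d, row QMW (helper46): the Moebius function of the subgroups not in `W`
-/

set_option autoImplicit false

open scoped BigOperators Classical

noncomputable section

namespace Pool.Agent.PFC.B5c.H46

open Pool.Agent.PFC Pool.Agent.PFC.B5c

section poset

variable {V : Type} [CommGroup V] [Finite V]

/-- the finite type of the subgroups -/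
@[reducible] def fts (V : Type) [CommGroup V] [Finite V] : Fintype (Subgroup V) := Fintype.ofFinite _

attribute [local instance] fts

/-- the function `c` of the docstring -/
def cW (W : Subgroup V) : Subgroup V → ℤ :=
  (wellFounded_lt (α := Subgroup V)).fix fun S c =>
    if S ≤ W then 0 else
      1 - ∑ Q : {Q : Subgroup V // Q < S}, c Q.1 Q.2

theorem cW_eq (W S : Subgroup V) :
    cW W S = if S ≤ W then 0 else 1 - ∑ Q : {Q : Subgroup V // Q < S}, cW W Q.1 := by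
  unfold cW
  rw [WellFounded.fix_eq]

theorem sum_lt (g : Subgroup V → ℤ) (S : Subgroup V) :
    ∑ Q : {Q : Subgroup V // Q < S}, g Q.1 = ∑ Q with Q < S, g Q := by
  rw [← Finset.sum_subtype]
  intro x
  simp

theorem cW_zero {W S : Subgroup V} (h : S ≤ W) : cW W S = 0 := by
  rw [cW_eq, if_pos h]

theorem cW_lt {W S : Subgroup V} (h : ¬ S ≤ W) : cW W S = 1 - ∑ Q with Q < S, cW W Q := by
  rw [cW_eq, if_neg h, sum_lt]

theorem split_le (g : Subgroup V → ℤ) (S : Subgroup V) :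
    ∑ Q with Q ≤ S, g Q = g S + ∑ Q with Q < S, g Q := by
  have h1 : (Finset.univ.filter fun Q : Subgroup V => Q ≤ S) =
      insert S (Finset.univ.filter fun Q : Subgroup V => Q < S) := by
    ext Q
    simp only [Finset.mem_filter, Finset.mem_univ, true_and, Finset.mem_insert]
    exact le_iff_eq_or_lt
  rw [h1, Finset.sum_insert]
  simp

theorem cW_le {W S : Subgroup V} (h : ¬ S ≤ W) : ∑ Q with Q ≤ S, cW W Q = 1 := by
  rw [split_le, cW_lt h]
  ring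

theorem cW_map (W : Subgroup V) (σ : MulAut V) (hW : W.map σ.toMonoidHom = W) (S : Subgroup V) :
    cW W (S.map σ.toMonoidHom) = cW W S := by
  have hinj : Function.Injective σ.toMonoidHom := σ.injective
  have hle : ∀ A B : Subgroup V, A.map σ.toMonoidHom ≤ B.map σ.toMonoidHom ↔ A ≤ B :=
    fun A B => Subgroup.map_le_map_iff_of_injective hinj
  have hsur : ∀ B : Subgroup V, ∃ A : Subgroup V, A.map σ.toMonoidHom = B := by
    intro B
    refine ⟨B.comap σ.toMonoidHom, ?_⟩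
    exact Subgroup.map_comap_eq_self_of_surjective σ.surjective B
  induction S using WellFoundedLT.induction with
  | ind S ih =>
    have hS : S.map σ.toMonoidHom ≤ W ↔ S ≤ W := by
      conv_lhs => rw [← hW]
      exact hle S W
    by_cases h : S ≤ W
    · rw [cW_zero h, cW_zero (hS.2 h)]
    · rw [cW_lt h, cW_lt (fun h' => h (hS.1 h'))]
      congr 1
      symm
      refine Finset.sum_bij (fun Q _ => Q.map σ.toMonoidHom) ?_ ?_ ?_ ?_
      · intro Q hQ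
        simp only [Finset.mem_filter, Finset.mem_univ, true_and] at hQ ⊢
        rw [lt_iff_le_not_ge] at hQ ⊢
        exact ⟨(hle _ _).2 hQ.1, fun h' => hQ.2 ((hle _ _).1 h')⟩
      · intro A _ B _ hAB
        exact Subgroup.map_injective hinj hAB
      · intro B hB
        obtain ⟨A, rfl⟩ := hsur B
        simp only [Finset.mem_filter, Finset.mem_univ, true_and] at hB
        refine ⟨A, ?_, rfl⟩
        simp only [Finset.mem_filter, Finset.mem_univ, true_and]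
        rw [lt_iff_le_not_ge] at hB ⊢
        exact ⟨(hle _ _).1 hB.1, fun h' => hB.2 ((hle _ _).2 h')⟩
      · intro Q hQ
        simp only [Finset.mem_filter, Finset.mem_univ, true_and] at hQ
        exact (ih Q hQ).symm

/-- the function `f` of the docstring -/
def fW (W R S : Subgroup V) : ℤ := ∑ Q with Q ⊔ R = S, cW W Q

theorem fW_not {W R S : Subgroup V} (h : ¬ R ≤ S) : fW W R S = 0 := by
  unfold fW
  rw [Finset.filter_eq_empty_iff.2, Finset.sum_empty]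
  intro Q _ hQ
  exact h (hQ ▸ le_sup_right)

theorem fW_sum {W R S : Subgroup V} (hR : ¬ R ≤ W) (h : R ≤ S) :
    ∑ T with T ≤ S, fW W R T = 1 := by
  have hS : ¬ S ≤ W := fun h' => hR (h.trans h')
  rw [← cW_le hS]
  unfold fW
  have hm : ∀ Q ∈ (Finset.univ.filter fun Q : Subgroup V => Q ≤ S),
      Q ⊔ R ∈ (Finset.univ.filter fun T : Subgroup V => T ≤ S) := by
    intro Q hQ
    simp only [Finset.mem_filter, Finset.mem_univ, true_and] at hQ ⊢
    exact sup_le hQ h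
  rw [← Finset.sum_fiberwise_of_maps_to hm (cW W)]
  refine Finset.sum_congr rfl fun T hT => ?_
  refine Finset.sum_congr ?_ fun _ _ => rfl
  ext Q
  simp only [Finset.mem_filter, Finset.mem_univ, true_and] at hT ⊢
  constructor
  · intro hQ
    exact ⟨(le_sup_left.trans hQ.le).trans hT, hQ⟩
  · rintro ⟨_, hQ⟩
    exact hQ

theorem fW_val {W R : Subgroup V} (hR : ¬ R ≤ W) (S : Subgroup V) :
    fW W R S = if S = R then 1 else 0 := by
  induction S using WellFoundedLT.induction with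
  | ind S ih =>
    by_cases h : R ≤ S
    · have h1 := fW_sum (W := W) hR h
      rw [split_le] at h1
      have h2 : ∑ T with T < S, fW W R T = ∑ T with T < S, (if T = R then (1 : ℤ) else 0) := by
        refine Finset.sum_congr rfl fun T hT => ih T ?_
        simpa using hT
      rw [h2, Finset.sum_ite_eq'] at h1
      by_cases h3 : S = R
      · rw [if_pos h3]
        rw [if_neg] at h1
        · linarith
        · rw [h3]
          simp
      · rw [if_neg h3]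
        rw [if_pos] at h1
        · linarith
        · simp only [Finset.mem_filter, Finset.mem_univ, true_and]
          exact lt_of_le_of_ne h (Ne.symm h3)
    · rw [fW_not h, if_neg]
      intro h'
      exact h h'.ge

theorem fin_eq (W R S : Subgroup V) :
    ∑ᶠ Q ∈ {Q : Subgroup V | ¬ Q ≤ W ∧ Q ⊔ R = S}, - cW W Q = - fW W R S := by
  rw [finsum_mem_eq_finite_toFinset_sum _ (Set.toFinite _), Finset.sum_neg_distrib]
  congr 1
  unfold fW
  refine Finset.sum_subset ?_ ?_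
  · intro Q hQ
    simp only [Set.Finite.mem_toFinset, Set.mem_ofPred_eq] at hQ
    simp only [Finset.mem_filter, Finset.mem_univ, true_and]
    exact hQ.2
  · intro Q hQ hQ'
    simp only [Finset.mem_filter, Finset.mem_univ, true_and] at hQ
    simp only [Set.Finite.mem_toFinset, Set.mem_ofPred_eq] at hQ'
    refine cW_zero ?_
    by_contra h
    exact hQ' ⟨h, hQ⟩

end poset

theorem qmw : QmwStmt := by
  intro V _ _ W
  refine ⟨fun Q => - cW W Q, ?_, ?_⟩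
  · intro σ hσ Q
    change - cW W (Q.map σ.toMonoidHom) = - cW W Q
    rw [cW_map W σ hσ Q]
  · intro R S hR
    constructor
    · intro h
      rw [fin_eq, fW_val hR, if_pos h]
    · intro h
      rw [fin_eq, fW_val hR, if_neg h, neg_zero]

end Pool.Agent.PFC.B5c.H46
end
end -- Pool.Agent.PFC.B5.QMW
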