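import Pool.Agent.Helper12_AWB.B014
import Pool.Agent.Helper12_AWB.B016

/-!
# Merged copies (generated) of the modules

* `Pool.Agent.PFE.DefsE2`
* `Pool.Agent.PFE.StmtsE2`
* `Pool.Agent.Helper15_PFE.HOY`
* `Pool.Agent.Helper21_PFE.XRD`
* `Pool.Agent.Helper28_PFE.MFY`
* `Pool.Agent.Helper53_PFE.GWF`
* `Pool.Agent.Helper59_PFE.XEX`
* `Pool.Agent.Helper70_PFE.BBY`
* `Pool.Agent.Helper70_PFE.KEX`
* `Pool.Agent.Helper69_PFE.LRC`
-/

set_option autoImplicit false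

section -- Pool.Agent.PFE.DefsE2

/-!
# Squad PFE (theorem (R)), part E2: definitions (helper3)

`GY`: the algebra `Γ = R[y] / y^l ⊗ R W` (over the field: the group algebra `F V`, `V = V1 × W`).
`AB j`: an algebra `A` with `j : Γ → A` as a bimodule.
`YFr`: a frame of a `Γ`-bimodule `N` (for a projector `q`): `W × W` permutes the generators; `g o` is
twisted (`y g = χ(deg o) g y`), `h o` generates a free bimodule over `R[y]`.
`YBs`: a frame which is a basis.  `FLv`: the input over `F`.  `LY`, `LZ`: the lift over `R`.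
`YG`: the group `W` in the frame `Yd`.  `Y1`: the eigenvector `y` in the group algebra of `V1`.
`TV`: the extension `F V → A` with its `V × V`-frame.
-/

open scoped BigOperators

noncomputable section

namespace Pool.Agent.PFE

open MulOpposite
open Pool.Agent.PFC.B1 (FS Split BiM Sep)
open Pool.Agent.PFC (tw)
open Pool.Agent.PFD (RF)
open Pool.Agent.PFD.D2
open Pool.Agent.PFD.D2b (wrp FPl FrR)

/-- the algebra `R[y] / y^l ⊗ R W` -/
structure GY (R Γ W : Type) [CommRing R] [CommRing Γ] [Algebra R Γ] [CommGroup W] [Fintype W]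
    (l : ℕ) where
  om : W →* Γ
  y : Γ
  yl : y ^ l = 0
  co : ℕ → W → (Γ →ₗ[R] R)
  ex : ∀ γ, ∑ k ∈ Finset.range l, ∑ w, co k w γ • (y ^ k * om w) = γ
  un : ∀ (a : ℕ → W → R) (k : ℕ) (w : W), k < l →
    co k w (∑ k ∈ Finset.range l, ∑ w, a k w • (y ^ k * om w)) = a k w

/-- `A` as a bimodule over `Γ` -/
def AB {R Γ A : Type} [CommRing R] [Ring Γ] [Algebra R Γ] [Ring A] [Algebra R A] (j : Γ →ₐ[R] A) :
    BiM R Γ A where
  lm := (Algebra.lmul R A).comp j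
  rm :=
    { toFun := fun a => LinearMap.mulRight R (j a.unop)
      map_one' := by ext x; simp
      map_mul' := fun a b => by
        ext x
        show x * j (a * b).unop = x * j b.unop * j a.unop
        rw [unop_mul, map_mul, mul_assoc]
      map_zero' := by ext x; simp
      map_add' := fun a b => by ext x; simp [mul_add]
      commutes' := fun r => by
        ext x
        show x * j (algebraMap R Γᵐᵒᵖ r).unop = r • x
        rw [MulOpposite.algebraMap_apply, unop_op, AlgHom.commutes, ← Algebra.commutes,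
          Algebra.smul_def] }
  comm := fun a b x => by
    show j a * (x * j b.unop) = j a * x * j b.unop
    rw [mul_assoc]

section frames

variable {R Γ W N X : Type} [CommRing R] [CommRing Γ] [Algebra R Γ] [CommGroup W]
  [Fintype W] [AddCommGroup N] [Module R N] [Group X]

/-- A frame of the bimodule `N` for the projector `q`. -/
structure YFr (Ω Ω' : Type) [Fintype Ω] [Fintype Ω'] [MulAction (W × W) Ω]
    [MulAction (W × W) Ω'] {l : ℕ} (G : GY R Γ W l) (χ : X →* R) (B : BiM R Γ N)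
    (q : N →ₗ[R] N) where
  deg : Ω → X
  dg : ∀ (w : W × W) (o : Ω), deg (w • o) = deg o
  fo : ∀ (w : W) (o : Ω), ((1, w) : W × W) • o = o → w = 1
  fo' : ∀ (w : W) (o : Ω'), ((1, w) : W × W) • o = o → w = 1
  g : Ω → N
  gw : ∀ (w : W × W) (o : Ω), g (w • o) = wrp G.om B w (g o)
  gy : ∀ o, B.lm G.y (g o) = χ (deg o) • B.rm (op G.y) (g o)
  c : Ω → (N →ₗ[R] R)
  cw : ∀ (w : W × W) (o : Ω) (n : N), c (w • o) (wrp G.om B w n) = c o n
  cy : ∀ (o : Ω) (n : N), c o (B.lm G.y n) = χ (deg o) * c o (B.rm (op G.y) n)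
  h : Ω' → N
  hw : ∀ (w : W × W) (o : Ω'), h (w • o) = wrp G.om B w (h o)
  d : Ω' → (N →ₗ[R] R)
  dw : ∀ (w : W × W) (o : Ω') (n : N), d (w • o) (wrp G.om B w n) = d o n
  fr : ∀ n, ∑ o, ∑ i ∈ Finset.range l,
      c o (B.lm (G.y ^ (l - 1 - i)) n) • B.lm (G.y ^ i) (g o) +
    ∑ o, ∑ i ∈ Finset.range l, ∑ k ∈ Finset.range l,
      d o (B.lm (G.y ^ (l - 1 - i)) (B.rm (op (G.y ^ (l - 1 - k))) n)) •
        B.lm (G.y ^ i) (B.rm (op (G.y ^ k)) (h o)) = q n

section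

variable {Ω Ω' : Type} [Fintype Ω] [Fintype Ω'] [MulAction (W × W) Ω]
    [MulAction (W × W) Ω'] {l : ℕ} {G : GY R Γ W l} {χ : X →* R} {B : BiM R Γ N}
    {q : N →ₗ[R] N}

/-- the element with the coordinates `a`, `a'` -/
def YFr.el (F : YFr Ω Ω' G χ B q) (a : Ω → ℕ → R) (a' : Ω' → ℕ → ℕ → R) : N :=
  ∑ o, ∑ i ∈ Finset.range l, a o i • B.lm (G.y ^ i) (F.g o) +
    ∑ o, ∑ i ∈ Finset.range l, ∑ k ∈ Finset.range l,
      a' o i k • B.lm (G.y ^ i) (B.rm (op (G.y ^ k)) (F.h o))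

/-- the left coordinates over `R[y]` -/
def YFr.L (F : YFr Ω Ω' G χ B q) (n : N) : Ω ⊕ (Ω' × Fin l) → Γ :=
  Sum.elim (fun o => ∑ i ∈ Finset.range l, F.c o (B.lm (G.y ^ (l - 1 - i)) n) • G.y ^ i)
    (fun p => ∑ i ∈ Finset.range l, F.d p.1 (B.lm (G.y ^ (l - 1 - i))
      (B.rm (op (G.y ^ (l - 1 - (p.2 : ℕ)))) n)) • G.y ^ i)

/-- the left generators over `R[y]` -/
def YFr.gl (F : YFr Ω Ω' G χ B q) : Ω ⊕ (Ω' × Fin l) → N :=
  Sum.elim F.g (fun p => B.rm (op (G.y ^ (p.2 : ℕ))) (F.h p.1))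

/-- the right coordinates over `R[y]` -/
def YFr.Rr (F : YFr Ω Ω' G χ B q) (n : N) : Ω ⊕ (Ω' × Fin l) → Γ :=
  Sum.elim (fun o => ∑ i ∈ Finset.range l,
      (χ (F.deg o) ^ i * F.c o (B.lm (G.y ^ (l - 1 - i)) n)) • G.y ^ i)
    (fun p => ∑ i ∈ Finset.range l, F.d p.1 (B.lm (G.y ^ (l - 1 - (p.2 : ℕ)))
      (B.rm (op (G.y ^ (l - 1 - i))) n)) • G.y ^ i)

/-- the right generators over `R[y]` -/
def YFr.gr (F : YFr Ω Ω' G χ B q) : Ω ⊕ (Ω' × Fin l) → N :=
  Sum.elim F.g (fun p => B.lm (G.y ^ (p.2 : ℕ)) (F.h p.1))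

end

/-- the action of `W × W` on the index set of the generators over `R[y]` -/
def xa {Ω Ω' : Type} [MulAction (W × W) Ω] [MulAction (W × W) Ω'] (l : ℕ) (w : W × W) :
    Ω ⊕ (Ω' × Fin l) → Ω ⊕ (Ω' × Fin l) :=
  Sum.map (fun o => w • o) (fun p => (w • p.1, p.2))

open Classical in
/-- `g_η y = ∑ P(η, ξ) g_ξ` for the left generators -/
def pP {Ω Ω' : Type} {l : ℕ} (G : GY R Γ W l) (χ : X →* R) (deg : Ω → X) :
    Ω ⊕ (Ω' × Fin l) → Ω ⊕ (Ω' × Fin l) → Γ
  | Sum.inl o, Sum.inl o' => if o = o' then χ (deg o)⁻¹ • G.y else 0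
  | Sum.inr p, Sum.inr p' => if p.1 = p'.1 ∧ (p.2 : ℕ) + 1 = (p'.2 : ℕ) then 1 else 0
  | _, _ => 0

open Classical in
/-- `y g_η = ∑ g_ξ Q(ξ, η)` for the right generators -/
def pQ {Ω Ω' : Type} {l : ℕ} (G : GY R Γ W l) (χ : X →* R) (deg : Ω → X) :
    Ω ⊕ (Ω' × Fin l) → Ω ⊕ (Ω' × Fin l) → Γ
  | Sum.inl o, Sum.inl o' => if o = o' then χ (deg o) • G.y else 0
  | Sum.inr p, Sum.inr p' => if p.1 = p'.1 ∧ (p'.2 : ℕ) + 1 = (p.2 : ℕ) then 1 else 0
  | _, _ => 0

/-- a frame which is a basis -/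
structure YBs (Ω Ω' : Type) [Fintype Ω] [Fintype Ω'] [MulAction (W × W) Ω]
    [MulAction (W × W) Ω'] {l : ℕ} (G : GY R Γ W l) (χ : X →* R) (B : BiM R Γ N) extends
    YFr Ω Ω' G χ B LinearMap.id where
  un1 : ∀ (a : Ω → ℕ → R) (a' : Ω' → ℕ → ℕ → R) (o : Ω) (i : ℕ), i < l →
    c o (B.lm (G.y ^ (l - 1 - i)) (toYFr.el a a')) = a o i
  un2 : ∀ (a : Ω → ℕ → R) (a' : Ω' → ℕ → ℕ → R) (o : Ω') (i k : ℕ), i < l → k < l →
    d o (B.lm (G.y ^ (l - 1 - i)) (B.rm (op (G.y ^ (l - 1 - k))) (toYFr.el a a'))) = a' o i k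

end frames

/-- the input over the field `F` -/
structure FLv {F Γ0 W X : Type} (A N K Ω Ω' : Type) [Field F] [CommRing Γ0] [Algebra F Γ0]
    [CommGroup W] [Fintype W] [Group X] [Ring A] [Algebra F A] [Fintype N] [Fintype K] [Fintype Ω]
    [Fintype Ω'] [MulAction (W × W) Ω] [MulAction (W × W) Ω'] {l : ℕ} (G : GY F Γ0 W l)
    (χ : X →* F) where
  j : Γ0 →ₐ[F] A
  pr : A →ₗ[F] Γ0
  pr_j : ∀ γ, pr (j γ) = γ
  pr_l : ∀ γ a, pr (j γ * a) = γ * pr a
  pr_r : ∀ a γ, pr (a * j γ) = pr a * γ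
  mu : A →ₗ[F] F
  mus : ∀ a b, mu (a * b) = mu (b * a)
  mun : ∀ a, (∀ b, mu (a * b) = 0) → a = 0
  orth : ∀ a, mu (j (pr a)) = mu a
  sep : Sep Γ0 A K j.toRingHom
  x : N → A
  y : N → A
  e1 : ∀ a, ∑ k, x k * j (pr (y k * a)) = a
  e2 : ∀ a, ∑ k, j (pr (a * x k)) * y k = a
  unt : ∀ w : Γ0, IsUnit w → IsUnit (∑ k, x k * j w * y k)
  fr : YFr Ω Ω' G χ (AB j) (LinearMap.id - j.toLinearMap ∘ₗ pr)
  loc : ∀ a, (∀ γ, j γ * a = a * j γ) → IsUnit a ∨ IsNilpotent a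
  uni : ∀ x : X, ∃ n n' : A, n * n' = 1 ∧ n' * n = 1 ∧ j G.y * n = χ x • (n * j G.y)

/-- a lift `A1` of the extension `j0 : Γ0 → A` -/
structure LY {R F Γ Γ0 W A X : Type} (A1 Ω Ω' : Type) [CommRing R] [Field F] {c : Cdv R F}
    [CommRing Γ] [Algebra R Γ] [CommRing Γ0] [Algebra F Γ0] [Ring A] [Algebra F A]
    [CommGroup W] [Fintype W] [Group X] [Ring A1] [Algebra R A1] [Fintype Ω]
    [Fintype Ω'] [MulAction (W × W) Ω] [MulAction (W × W) Ω'] {l : ℕ} (G : GY R Γ W l)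
    (χ : X →* R) (f : FibG Γ Γ0 c) (j0 : Γ0 →ₐ[F] A) (pr0 : A →ₗ[F] Γ0) where
  fb : FibG A1 A c
  j : Γ →ₐ[R] A1
  pr : A1 →ₗ[R] Γ
  pr_j : ∀ γ, pr (j γ) = γ
  pr_l : ∀ γ a, pr (j γ * a) = γ * pr a
  pr_r : ∀ a γ, pr (a * j γ) = pr a * γ
  cj : ∀ γ, fb.q (j γ) = j0 (f.q γ)
  cp : ∀ a, pr0 (fb.q a) = f.q (pr a)
  fr : YFr Ω Ω' G χ (AB j) LinearMap.id

/-- a lift with the orthogonal projection, a relative Frobenius system and units -/
structure LZ {R F Γ Γ0 W A X : Type} (A1 N Ω Ω' : Type) [CommRing R] [Field F] {c : Cdv R F}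
    [CommRing Γ] [Algebra R Γ] [CommRing Γ0] [Algebra F Γ0] [Ring A] [Algebra F A]
    [CommGroup W] [Fintype W] [Group X] [Ring A1] [Algebra R A1] [Fintype N] [Fintype Ω]
    [Fintype Ω'] [MulAction (W × W) Ω] [MulAction (W × W) Ω'] {l : ℕ} (G : GY R Γ W l)
    (χ : X →* R) (f : FibG Γ Γ0 c) (j0 : Γ0 →ₐ[F] A) (pr0 : A →ₗ[F] Γ0) extends
    LY A1 Ω Ω' G χ f j0 pr0 where
  rf : RF R Γ A1 N j pr
  tA : A1 →ₗ[R] R
  ts : ∀ a b, tA (a * b) = tA (b * a)
  u : Γ
  u' : Γ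
  uu : u * u' = 1
  ort : ∀ a, tA a = G.co (l - 1) 1 (u * pr a)
  un1 : IsUnit (rf.rt 1)
  unu : IsUnit (rf.rt (j u'))

/-- the group `W` in the frame `D`, and the unit `rho = RT(1) / |W|` -/
structure YG {R A X J Ω Ω' : Type} (W : Type) [CommRing R] [Ring A] [Algebra R A] [Group X]
    [Fintype J] [Fintype Ω] [Fintype Ω'] [CommGroup W] [Fintype W] [MulAction (W × W) Ω]
    [MulAction (W × W) Ω'] {y : A} {l : ℕ} {χ : X →* R} (D : Yd R A X J Ω Ω' y l χ) where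
  om : W →* A
  omy : ∀ w, y * om w = om w * y
  dg : ∀ (w : W × W) (o : Ω), D.deg (w • o) = D.deg o
  fo : ∀ (w : W) (o : Ω), ((1, w) : W × W) • o = o → w = 1
  fo' : ∀ (w : W) (o : Ω'), ((1, w) : W × W) • o = o → w = 1
  gw : ∀ (w : W × W) (o : Ω), D.g (w • o) = om w.1 * D.g o * om w.2⁻¹
  gw' : ∀ (w : W × W) (o : Ω), D.g' (w • o) = om w.2 * D.g' o * om w.1⁻¹
  hw : ∀ (w : W × W) (o : Ω'), D.h (w • o) = om w.1 * D.h o * om w.2⁻¹
  hw' : ∀ (w : W × W) (o : Ω'), D.h' (w • o) = om w.2 * D.h' o * om w.1⁻¹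
  rho : A
  rc : ∀ a, rho * a = a * rho
  ru : IsUnit rho
  rr : D.RT 1 = (Fintype.card W : R) • rho

/-- the eigenvector `y` in the group algebra of the group `V1` of order `l` -/
structure Y1 (F V1 : Type) [Field F] [CommGroup V1] [Fintype V1] (l : ℕ) where
  y : MonoidAlgebra F V1
  χ : MulAut V1 →* F
  χl : ∀ σ, χ σ ^ (l - 1) = 1
  χi : ∀ σ, χ σ = 1 → σ = 1
  yl : y ^ l = 0
  ye : ∀ σ : MulAut V1, MonoidAlgebra.domCongr F F σ y = χ σ • y
  co : ℕ → (MonoidAlgebra F V1 →ₗ[F] F)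
  ex : ∀ a, ∑ k ∈ Finset.range l, co k a • y ^ k = a
  un : ∀ (a : ℕ → F) (k : ℕ), k < l → co k (∑ k ∈ Finset.range l, a k • y ^ k) = a k
  v1 : ∀ v : V1, ∃ t, MonoidAlgebra.of F V1 v - 1 = y * t
  y1 : ∃ (v : V1) (t : MonoidAlgebra F V1), y = (MonoidAlgebra.of F V1 v - 1) * t

/-- the algebra homomorphism `F V1 → A` -/
def il {F V V1 A : Type} [Field F] [CommGroup V] [CommGroup V1] [Ring A] [Algebra F A]
    (α : V →* A) (i : V1 →* V) : MonoidAlgebra F V1 →ₐ[F] A :=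
  MonoidAlgebra.lift F A V1 (α.comp i)

/-- The extension `F V → A` with a `V × V`-frame of the complement. -/
structure TV {F V E : Type} (A N K Om : Type) [Field F] [CommGroup V] [Fintype V] [Group E]
    [Fintype E] [Ring A] [Algebra F A] [Fintype N] [Fintype K] [Fintype Om]
    [MulAction (V × V) Om] (φ : E →* MulAut V) (NN : Subgroup V → Prop) where
  j : MonoidAlgebra F V →ₐ[F] A
  pr : A →ₗ[F] MonoidAlgebra F V
  pr_j : ∀ γ, pr (j γ) = γ
  pr_l : ∀ γ a, pr (j γ * a) = γ * pr a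
  pr_r : ∀ a γ, pr (a * j γ) = pr a * γ
  mu : A →ₗ[F] F
  mus : ∀ a b, mu (a * b) = mu (b * a)
  mun : ∀ a, (∀ b, mu (a * b) = 0) → a = 0
  orth : ∀ a, mu (j (pr a)) = mu a
  sep : Sep (MonoidAlgebra F V) A K j.toRingHom
  x : N → A
  y : N → A
  e1 : ∀ a, ∑ k, x k * j (pr (y k * a)) = a
  e2 : ∀ a, ∑ k, j (pr (a * x k)) * y k = a
  unt : ∀ w : MonoidAlgebra F V, IsUnit w → IsUnit (∑ k, x k * j w * y k)
  b : Om → A
  d : Om → (A →ₗ[F] F)
  b_eq : ∀ (w : V × V) (ω : Om), b (w • ω) =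
    j (MonoidAlgebra.of F V w.1) * b ω * j (MonoidAlgebra.of F V w.2⁻¹)
  d_eq : ∀ (w : V × V) (ω : Om) (a : A),
    d (w • ω) (j (MonoidAlgebra.of F V w.1) * a * j (MonoidAlgebra.of F V w.2⁻¹)) = d ω a
  sum : ∀ a : A, ∑ ω, d ω a • b ω = a - j (pr a)
  st : ∀ ω : Om, ∃ (e : E) (R : Subgroup V), (¬ NN R ∨ R = ⊤) ∧
    MulAction.stabilizer (V × V) ω = tw (φ e).toMonoidHom R

end Pool.Agent.PFE
end
end -- Pool.Agent.PFE.DefsE2

section -- Pool.Agent.PFE.StmtsE2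

/-!
# Squad PFE (theorem (R)), part E2, block 1: bimodules, frames, the lift (helper3)

`A` is an algebra over the residue field `F`, a symmetric extension of `Γ0 = F V = F[y]/y^l ⊗ F W`.  It is
lifted to an extension `A1` of `Γ = R[y]/y^l ⊗ R W`.  Definitions: `DefsE2.lean`.  Conventions: `lm γ n` is
written `γ n`, `rm (op γ) n` is written `n γ`, `c = χ x`.  `wrp G.om B (u, v) n = u n v⁻¹`.
`Γ` is commutative and spanned by the `y^k om w` (`GY.ex`), so a linear map is a bimodule homomorphism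
as soon as it respects `y` and the `om w`, on both sides.  `χ x` is a unit (`χ x * χ x⁻¹ = 1`).
Rows: theorem `Pool.Agent.PFE.HNN.xxx : XxxStmt` with the statements of the column `uses` as hypotheses;
any row may take any other row as a hypothesis.
-/

open scoped BigOperators

noncomputable section

namespace Pool.Agent.PFE

open MulOpposite
open Pool.Agent.PFC.B1 (FS Split BiM Sep)
open Pool.Agent.PFD (RF)
open Pool.Agent.PFD.D2
open Pool.Agent.PFD.D2b (wrp FPl FrR WFS)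

/-! ## The algebra `Γ` -/

/-- GUP: the universal property of `Γ`.

Proof.  `ρ γ = ∑_(k<l) ∑_w co k w γ • (Y^k * U w)`.  By `un` `ρ (y^k om w) = Y^k U w` for `k < l` (family
`Pi.single`), and for `k ≥ l` both sides are `0`.  So `ρ` is multiplicative on the spanning elements
`y^k om w` (`ex`), and by bilinearity everywhere; `1 = y^0 om 1`. -/
def GupStmt : Prop :=
  ∀ (R Γ W B : Type) [CommRing R] [CommRing Γ] [Algebra R Γ] [CommGroup W] [Fintype W] [Ring B]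
    [Algebra R B] (l : ℕ) (G : GY R Γ W l) (Y : B) (U : W →* B), 1 ≤ l → Y ^ l = 0 →
    (∀ w, Y * U w = U w * Y) → ∃ ρ : Γ →ₐ[R] B, ρ G.y = Y ∧ ∀ w, ρ (G.om w) = U w

/-- GWF: `Γ` as a `WFS` (so the rows of PFD/StmtsD4 apply).

Proof.  `ph i = id`, `nrm` by commutativity.  By `un` and `yl`: `co (l-1) 1 (y^m om w)` is `1` if
`m = l-1`, `w = 1`, and `0` otherwise (for `m < l` by `un` with the family supported at `(m, w)`, for
`m ≥ l` the element is `0`).  `d1`, `d0`: `om u⁻¹ y^(l-1-i) y^j om w = y^(l-1-i+j) om (u⁻¹ w)`.  `h1`, `h2`: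
it is enough to check them for `x = y^k om v` (`ex`). -/
def GwfStmt : Prop :=
  ∀ (R Γ W : Type) [CommRing R] [CommRing Γ] [Algebra R Γ] [CommGroup W] [Fintype W] (l : ℕ)
    (G : GY R Γ W l), 1 ≤ l →
    ∃ D : WFS R Γ W (Fin l), D.lam = G.co (l - 1) 1 ∧ D.om = G.om ∧
      (∀ i, D.cf i = G.y ^ (i : ℕ)) ∧ ∀ i, D.cf' i = G.y ^ (l - 1 - (i : ℕ))

/-- GEX: `Γ` over `R`, with its special fibre.

Proof.  E.g. `Γ = MonoidAlgebra (R[X] ⧸ (X^l)) W`, `y = X`, `om w = single w 1`, `co k w γ` = the `k`-th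
coefficient of the coefficient of `w`; a basis is `y^k om w`.  `f.q` from GUP for `B = Γ0` with the
`R`-algebra structure `(algebraMap F Γ0).comp c.κ` (a local instance), `Y = G0.y`, `U = G0.om`.  Surjective: `F`-span of
the `y^k om w`, `c.κ` is surjective.  `f.q γ = 0` gives `c.κ (co k w γ) = 0` (`G0.un`), so
`co k w γ = π r_(k,w)`, `γ = π ∑ r_(k,w) y^k om w`. -/
def GexStmt : Prop :=
  ∀ (R F Γ0 W : Type) [CommRing R] [Field F] (c : Cdv R F) [CommRing Γ0] [Algebra F Γ0]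
    [CommGroup W] [Fintype W] (l : ℕ) (G0 : GY F Γ0 W l), 1 ≤ l →
    ∃ (Γ : Type) (_ : CommRing Γ) (_ : Algebra R Γ) (_ : Module.Finite R Γ) (_ : Module.Free R Γ)
      (G : GY R Γ W l) (f : FibG Γ Γ0 c), f.q G.y = G0.y ∧ ∀ w, f.q (G.om w) = G0.om w

/-- GFR: the frame of `Γ`.

Proof.  `Ω = W` with the action `(u, v) • w = u w v⁻¹`, `deg = 1`, `g = om`, `c w = co (l-1) w`; `Ω' = Empty`.
`co (l-1) w (y^m om v)` is `1` for `m = l-1`, `v = w`, else `0` (see GWF); check `cw`, `fr` on `y^k om v`. -/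
def GfrStmt : Prop :=
  ∀ (R Γ W X : Type) [CommRing R] [CommRing Γ] [Algebra R Γ] [CommGroup W] [Fintype W] [Group X]
    (l : ℕ) (G : GY R Γ W l) (χ : X →* R), 1 ≤ l →
    ∃ (Ω Ω' : Type) (_ : Fintype Ω) (_ : Fintype Ω') (_ : MulAction (W × W) Ω)
      (_ : MulAction (W × W) Ω'), Nonempty (YFr Ω Ω' G χ (regB R Γ) LinearMap.id)

/-- XEX: a bimodule with a given basis.

Proof.  `M = (Ω → Fin l → R) × (Ω' → Fin l → Fin l → R)`, `(f, f')` stands for
`∑ f o i • y^i g_o + ∑ f' o i k • y^i h_o y^k`.  Left `y`: `f o i ↦ f o (i-1)`, `f' o i k ↦ f' o (i-1) k` (`0` for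
`i = 0`); right `y`: `f o i ↦ χ(deg o)⁻¹ f o (i-1)`, `f' o i k ↦ f' o i (k-1)` (`0` for `k = 0`);
`(u n v⁻¹) o = n ((u, v)⁻¹ • o)`.  These operators commute (`dg`), both `y` operators are nilpotent of
order `l`; GUP for `B = End M` (left), and for the opposite algebra or simply again for `End M` on the
right (`Γ` is commutative: `rm` = the homomorphism of GUP composed with `Γᵐᵒᵖ ≃ Γ`).
`g o` = the function `1` at `(o, 0)`, `h o` = `1` at `(o, 0, 0)`; `c o n` = the value at `(o, l-1)`, `d o n`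
= the value at `(o, l-1, l-1)`.  `y^i` shifts by `i`: all the fields. -/
def XexStmt : Prop :=
  ∀ (R Γ W X Ω Ω' : Type) [CommRing R] [CommRing Γ] [Algebra R Γ] [CommGroup W] [Fintype W]
    [Group X] [Fintype Ω] [Fintype Ω'] [MulAction (W × W) Ω] [MulAction (W × W) Ω'] (l : ℕ)
    (G : GY R Γ W l) (χ : X →* R) (deg : Ω → X), 1 ≤ l →
    (∀ (w : W × W) (o : Ω), deg (w • o) = deg o) →
    (∀ (w : W) (o : Ω), ((1, w) : W × W) • o = o → w = 1) →
    (∀ (w : W) (o : Ω'), ((1, w) : W × W) • o = o → w = 1) →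
    ∃ (M : Type) (_ : AddCommGroup M) (_ : Module R M) (_ : Module.Finite R M)
      (_ : Module.Free R M) (B : BiM R Γ M) (Y : YBs Ω Ω' G χ B), Y.deg = deg

/-- XRD: the special fibre of the bimodule with a basis.

Proof.  `s n = Fr0.el (fun o i => κ (c_o (y^(l-1-i) n))) (fun o i k => κ (d_o (y^(l-1-i) n y^(l-1-k))))`
(`c`, `d` of `Fr`).  `s (y n) = y s(n)`: `c_o (y^(l-1-i) y n) = c_o (y^(l-1-(i-1)) n)` for `i ≥ 1`, `0` for `i = 0`
(`y^l = 0`), and `y (y^i g) = y^(i+1) g`.  `s (n y) = s(n) y`: `c_o (y^m n y) = χ⁻¹ c_o (y^(m+1) n)` (`cy`,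
`χ = χ(deg o)`), `y^i g_o y = χ0⁻¹ y^(i+1) g_o` (`gy`).  `s (u n v⁻¹) = u s(n) v⁻¹`: `cw`, `dw`, `gw`, `hw`, reindex.  So `s` respects
all `γ` (`f.q` of `y^k om w`, `sc`).  Surjective: `x0 = Fr0.el a a'` (`fr`), lift `a`, `a'` to `R` and use `un1`,
`un2` of `Fr`.  `ker`: by `un1`, `un2` of `Fr0` all the coordinates of `n` are in `ker κ = π R`, and
`n = Fr.el (coordinates)` (`fr`). -/
def XrdStmt : Prop :=
  ∀ (R F Γ Γ0 W X Ω Ω' M M0 : Type) [CommRing R] [Field F] (c : Cdv R F) [CommRing Γ]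
    [Algebra R Γ] [CommRing Γ0] [Algebra F Γ0] [CommGroup W] [Fintype W]
    [Group X] [Fintype Ω] [Fintype Ω'] [MulAction (W × W) Ω] [MulAction (W × W) Ω']
    [AddCommGroup M] [Module R M] [AddCommGroup M0] [Module F M0] (l : ℕ)
    (G : GY R Γ W l) (G0 : GY F Γ0 W l) (f : FibG Γ Γ0 c) (χ : X →* R) (χ0 : X →* F)
    (B : BiM R Γ M) (B0 : BiM F Γ0 M0) (Fr : YBs Ω Ω' G χ B) (Fr0 : YBs Ω Ω' G0 χ0 B0), 1 ≤ l →
    f.q G.y = G0.y → (∀ w, f.q (G.om w) = G0.om w) → (∀ x, c.κ (χ x) = χ0 x) →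
    Fr.deg = Fr0.deg → Nonempty (FibM M M0 f B B0)

/-! ## Lifting of vectors -/

/-- YFP: fixed vectors modulo `p` lift.

Proof.  `FpfStmt` for the permutation frame `T = Ω × Fin l ⊕ Ω' × Fin l × Fin l` (`W × W` acts on the first
component), vectors `y^i g_o`, `y^i h_o y^k`, functionals `c_o (y^(l-1-i) ·)`, `d_o (y^(l-1-i) · y^(l-1-k))`
(`wrp` commutes with `y` on both sides). -/
def YfpStmt : Prop :=
  ∀ (R Γ W N X Ω Ω' : Type) [CommRing R] [CommRing Γ] [Algebra R Γ] [CommGroup W] [Fintype W]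
    [AddCommGroup N] [Module R N] [Group X] [Fintype Ω] [Fintype Ω'] [MulAction (W × W) Ω]
    [MulAction (W × W) Ω'] (l : ℕ) (G : GY R Γ W l) (χ : X →* R) (B : BiM R Γ N)
    (_ : YFr Ω Ω' G χ B LinearMap.id) (p : R), FPl p (wrp G.om B)

/-- KEX: the projection to the twisted elements.

Proof.  `c = χ x`, `T(n) = ∑_(j<l) c^(l-1-j) • y^j n y^(l-1-j)`,
`κ n = ∑_(deg o = x) ∑_i c_o(y^(l-1-i) n) y^i g_o + ∑_(deg o ≠ x) c_o(n) y^(l-1) g_o +
∑_(o in Ω') ∑_(s<l) c^s d_o(y^(l-1-s) n) T(h_o y^s)`.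
(1) Equivariant: `cw`, `gw`, `dw`, `hw`, `dg`, reindex.  (2) `y κ n = c (κ n) y`: `gy` for the first sum; both
sides are `0` for `y^(l-1) g_o`; `y T(n) = c T(n) y` (TXR (1): `y T(n) = ∑_(j<l-1) c^(l-1-j) y^(j+1) n y^(l-1-j)`,
`c T(n) y = ∑_(j≥1) c^(l-j) y^j n y^(l-j)`, the same sum).
(3) Let `y n = c n y` modulo `p`.  Then `n y^r = c^(-r) y^r n`, `c^(-(l-1-k)) = c^k` modulo `p`.
For `deg o ≠ x`, `m ≥ 1`: `c_o(y^m n) = c c_o(y^(m-1) n y) = c χ(deg o)⁻¹ c_o(y^m n)` modulo `p` (`cy`), and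
`1 - χ(x (deg o)⁻¹)` is a unit: `c_o(y^m n) = 0` modulo `p`, so in `fr` only `i = l-1` remains.
`d_o(y^(l-1-i) n y^(l-1-k)) = c^k d_o(y^(2l-2-i-k) n)`, `0` for `i + k < l-1`; with `s = i + k - (l-1)` the part of
`o` in `fr` is `∑_s d_o(y^(l-1-s) n) ∑_(k=s)^(l-1) c^k y^(l-1+s-k) h_o y^k`, and the inner sum is
`c^s T(h_o y^s)` (put `j = l-1+s-k`).  So `κ n = n` modulo `p` by `fr`. -/
def KexStmt : Prop :=
  ∀ (R Γ W N X Ω Ω' : Type) [CommRing R] [CommRing Γ] [Algebra R Γ] [CommGroup W] [Fintype W]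
    [AddCommGroup N] [Module R N] [Group X] [Fintype Ω] [Fintype Ω'] [MulAction (W × W) Ω]
    [MulAction (W × W) Ω'] (l : ℕ) (G : GY R Γ W l) (χ : X →* R) (B : BiM R Γ N)
    (_ : YFr Ω Ω' G χ B LinearMap.id), 2 ≤ l → (∀ x, χ x ^ (l - 1) = 1) →
    (∀ x, x ≠ 1 → IsUnit (1 - χ x)) →
    ∀ x : X, ∃ κ : N →ₗ[R] N, (∀ w n, κ (wrp G.om B w n) = wrp G.om B w (κ n)) ∧
      (∀ n, B.lm G.y (κ n) = χ x • B.rm (op G.y) (κ n)) ∧
      ∀ (p : R) (n : N), (∃ m, B.lm G.y n - χ x • B.rm (op G.y) n = p • m) →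
        ∃ m, κ n - n = p • m

/-- KEF: families which are equivariant (and twisted) modulo `p` lift.

Proof.  `ρ = (wrp G.om B).comp π`; `FPl p ρ`: YFP for the image `S.map π` of a subgroup `S`.  `EqfStmt`
gives the first part.  Second part: compose with the `κ` of KEX for `x = deg i` (`deg` is invariant):
`m'' i = κ_(deg i) (m' i)`; it is congruent to `m' i`, since `m' i` is twisted modulo `p`. -/
def KefStmt : Prop :=
  ∀ (R Γ W N X Ω Ω' H I : Type) [CommRing R] [CommRing Γ] [Algebra R Γ] [CommGroup W] [Fintype W]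
    [AddCommGroup N] [Module R N] [Group X] [Fintype Ω] [Fintype Ω'] [MulAction (W × W) Ω]
    [MulAction (W × W) Ω'] [Group H] [MulAction H I] (l : ℕ) (G : GY R Γ W l) (χ : X →* R)
    (B : BiM R Γ N) (_ : YFr Ω Ω' G χ B LinearMap.id) (π : H →* W × W) (deg : I → X) (p : R)
    (m : I → N), 2 ≤ l → (∀ x, χ x ^ (l - 1) = 1) → (∀ x, x ≠ 1 → IsUnit (1 - χ x)) →
    (∀ (h : H) (i : I), deg (h • i) = deg i) →
    (∀ (h : H) (i : I), ∃ x, m (h • i) - wrp G.om B (π h) (m i) = p • x) →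
    (∃ m' : I → N, (∀ (h : H) (i : I), m' (h • i) = wrp G.om B (π h) (m' i)) ∧
      ∀ i, ∃ x, m' i - m i = p • x) ∧
    ((∀ i, ∃ x, B.lm G.y (m i) - χ (deg i) • B.rm (op G.y) (m i) = p • x) →
      ∃ m' : I → N, (∀ (h : H) (i : I), m' (h • i) = wrp G.om B (π h) (m' i)) ∧
        (∀ i, B.lm G.y (m' i) = χ (deg i) • B.rm (op G.y) (m' i)) ∧
        ∀ i, ∃ x, m' i - m i = p • x)

/-! ## Lifting of homomorphisms -/

/-- HOY: homomorphisms from families.

Proof.  `y`: `c_o(y^(l-1-i) y n) = c_o(y^(l-1-(i-1)) n)` (`0` for `i = 0`), `c_o(y^m n y) = χ⁻¹ c_o(y^(m+1) n)`,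
`y^i m_o y = χ⁻¹ y^(i+1) m_o`.  The `om w`: `cw`, `dw`, reindex (`wrp` for `(w, 1)` and `(1, w)`).  Every `γ` is a
combination of the `y^k om w`. -/
def HoyStmt : Prop :=
  ∀ (R Γ W N N' X Ω Ω' : Type) [CommRing R] [CommRing Γ] [Algebra R Γ] [CommGroup W] [Fintype W]
    [AddCommGroup N] [Module R N] [AddCommGroup N'] [Module R N'] [Group X] [Fintype Ω]
    [Fintype Ω'] [MulAction (W × W) Ω] [MulAction (W × W) Ω'] (l : ℕ) (G : GY R Γ W l)
    (χ : X →* R) (B : BiM R Γ N) (B' : BiM R Γ N') (q : N →ₗ[R] N) (F : YFr Ω Ω' G χ B q)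
    (m : Ω → N') (m' : Ω' → N'), 1 ≤ l →
    (∀ (w : W × W) (o : Ω), m (w • o) = wrp G.om B' w (m o)) →
    (∀ o, B'.lm G.y (m o) = χ (F.deg o) • B'.rm (op G.y) (m o)) →
    (∀ (w : W × W) (o : Ω'), m' (w • o) = wrp G.om B' w (m' o)) →
    ∃ g : N →ₗ[R] N', BHom B B' g ∧ ∀ n, g n =
      ∑ o, ∑ i ∈ Finset.range l, F.c o (B.lm (G.y ^ (l - 1 - i)) n) • B'.lm (G.y ^ i) (m o) +
      ∑ o, ∑ i ∈ Finset.range l, ∑ k ∈ Finset.range l,
        F.d o (B.lm (G.y ^ (l - 1 - i)) (B.rm (op (G.y ^ (l - 1 - k))) n)) •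
          B'.lm (G.y ^ i) (B'.rm (op (G.y ^ k)) (m' o))

/-- LHY: homomorphisms modulo `p` lift.

Proof.  `g` a homomorphism modulo `p`.  The families `g (g_o)`, `g (h_o)` are equivariant modulo `p`, and
`y g(g_o) = χ(deg o) g(g_o) y` modulo `p`.  KEF (`H = W × W`, `π = id`, for `FN`), HOY for `FX`: `g'`.
By `fr` of `FX` (`q = id`) `g n = ∑ c_o(..) y^i g(g_o) + .. = g' n` modulo `p`. -/
def LhyStmt : Prop :=
  ∀ (R Γ W M N X Ω Ω' Ω1 Ω1' : Type) [CommRing R] [CommRing Γ] [Algebra R Γ] [CommGroup W]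
    [Fintype W] [AddCommGroup M] [Module R M] [AddCommGroup N] [Module R N] [Group X]
    [Fintype Ω] [Fintype Ω'] [MulAction (W × W) Ω] [MulAction (W × W) Ω'] [Fintype Ω1]
    [Fintype Ω1'] [MulAction (W × W) Ω1] [MulAction (W × W) Ω1'] (l : ℕ) (G : GY R Γ W l)
    (χ : X →* R) (BX : BiM R Γ M) (BN : BiM R Γ N) (_ : YFr Ω Ω' G χ BX LinearMap.id)
    (_ : YFr Ω1 Ω1' G χ BN LinearMap.id) (p : R), 2 ≤ l → (∀ x, χ x ^ (l - 1) = 1) →
    (∀ x, x ≠ 1 → IsUnit (1 - χ x)) → Lif1 p BX BN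

/-- LRC: the rules of the coordinates `L`, `Rr` over `R[y]`.

Proof.  (1) `fr`; `rm (op (χ^i r • y^i)) g_o = r • y^i g_o`, because `g_o y^i = χ^(-i) y^i g_o` (`gy`).
(2), (3) `c_o(y^(l-1-i) y n) = c_o(y^(l-1-(i-1)) n)`, `y · (term i-1) = term i`, and `y · y^(l-1) = 0`.
(4) For `o`: `c_o(y^m n y) = χ⁻¹ c_o(y^(m+1) n)`, so `L (n y) o = χ⁻¹ y L n o`; for `(o, k)`: `n y y^(l-1-k)` is
`n y^(l-1-(k-1))` for `k ≥ 1`, `0` for `k = 0`.  (5) `Rr (y n) o = ∑ χ^i c_o(y^(l-i) n) y^i = χ y Rr n o`; for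
`(o, k)`: `y^(l-1-k) y n`.  (6) `cw`, `dw`. -/
def LrcStmt : Prop :=
  ∀ (R Γ W N X Ω Ω' : Type) [CommRing R] [CommRing Γ] [Algebra R Γ] [CommGroup W] [Fintype W]
    [AddCommGroup N] [Module R N] [Group X] [Fintype Ω] [Fintype Ω'] [MulAction (W × W) Ω]
    [MulAction (W × W) Ω'] (l : ℕ) (G : GY R Γ W l) (χ : X →* R) (B : BiM R Γ N)
    (q : N →ₗ[R] N) (F : YFr Ω Ω' G χ B q), 1 ≤ l →
    (∀ n, ∑ ξ, B.lm (F.L n ξ) (F.gl ξ) = q n) ∧ (∀ n, ∑ ξ, B.rm (op (F.Rr n ξ)) (F.gr ξ) = q n) ∧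
    (∀ n ξ, F.L (B.lm G.y n) ξ = G.y * F.L n ξ) ∧
    (∀ n ξ, F.Rr (B.rm (op G.y) n) ξ = F.Rr n ξ * G.y) ∧
    (∀ n ξ, F.L (B.rm (op G.y) n) ξ = ∑ η, pP G χ F.deg η ξ * F.L n η) ∧
    (∀ n ξ, F.Rr (B.lm G.y n) ξ = ∑ η, pQ G χ F.deg ξ η * F.Rr n η) ∧
    (∀ (w : W × W) n ξ, F.L (wrp G.om B w n) (xa l w ξ) = F.L n ξ) ∧
    (∀ (w : W × W) n ξ, F.Rr (wrp G.om B w n) (xa l w ξ) = F.Rr n ξ) ∧
    (∀ (a b : N) ξ, F.L (a + b) ξ = F.L a ξ + F.L b ξ ∧ F.Rr (a + b) ξ = F.Rr a ξ + F.Rr b ξ) ∧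
    ∀ (r : R) (a : N) ξ, F.L (r • a) ξ = r • F.L a ξ ∧ F.Rr (r • a) ξ = r • F.Rr a ξ

/-- BBY: balanced bilinear maps from families.

Proof.  `β n n' = ∑_(ξ,ξ') L(n)_ξ μ(ξ,ξ') Rr(n')_ξ'`.  `Bal2` has to be checked for `γ = y` and `γ = om w` only (`ex`).
Left `y`: `L1`; right `y`: `R1`; balanced `y`: `∑_(ξ,ξ') L(n y)_ξ μ(ξ,ξ') Rr(n')_ξ' =
∑_(η,ξ') L(n)_η (∑_ξ P(η,ξ) μ(ξ,ξ')) Rr(n')_ξ'` (`L2`) `= ∑ L(n)_η (∑_ξ μ(η,ξ) Q(ξ,ξ')) Rr(n')_ξ' =
∑_(η,ξ) L(n)_η μ(η,ξ) Rr(y n')_ξ` (`M2`, `R2`).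
`om w`: `om u n = wrp (u,1) n`; reindex `ξ` by `xw (u,1)` (`hx`), `L3`, and
`μ (xw (u,1) ξ) ξ' = μ (xw (u,1) ξ) (xw (1,1) ξ') = u μ(ξ,ξ')` (`x1`, `M1`); right in the same way;
balanced: `n v⁻¹ = wrp (1,v) n`, `μ (xw (1,v) ξ) ξ' = μ (xw (1,v) ξ) (xw (v,1) ξ'')` with `ξ' = xw (v,1) ξ''` (bijective),
`= μ ξ ξ''`, and `Rr(n')_(xw (v,1) ξ'') = Rr(v⁻¹ n')_ξ''` (`R3` for `n' = wrp (v,1) (v⁻¹ n')`). -/
def BbyStmt : Prop :=
  ∀ (R Γ W M N Ξ : Type) [CommRing R] [CommRing Γ] [Algebra R Γ] [CommGroup W] [Fintype W]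
    [AddCommGroup M] [Module R M] [AddCommGroup N] [Module R N] [Fintype Ξ] (l : ℕ)
    (G : GY R Γ W l) (BX : BiM R Γ M) (BN : BiM R Γ N) (xw : W × W → Ξ → Ξ)
    (L Rr : M →ₗ[R] (Ξ → Γ)) (P Q : Ξ → Ξ → Γ) (μ : Ξ → Ξ → N),
    (∀ w, Function.Bijective (xw w)) → (∀ ξ, xw 1 ξ = ξ) →
    (∀ n ξ, L (BX.lm G.y n) ξ = G.y * L n ξ) →
    (∀ n ξ, Rr (BX.rm (op G.y) n) ξ = Rr n ξ * G.y) →
    (∀ n ξ, L (BX.rm (op G.y) n) ξ = ∑ η, P η ξ * L n η) →
    (∀ n ξ, Rr (BX.lm G.y n) ξ = ∑ η, Q ξ η * Rr n η) →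
    (∀ (w : W × W) n ξ, L (wrp G.om BX w n) (xw w ξ) = L n ξ) →
    (∀ (w : W × W) n ξ, Rr (wrp G.om BX w n) (xw w ξ) = Rr n ξ) →
    (∀ (u v w : W) ξ ξ', μ (xw (u, v) ξ) (xw (v, w) ξ') = wrp G.om BN (u, w) (μ ξ ξ')) →
    (∀ η ξ', ∑ ξ, BN.lm (P η ξ) (μ ξ ξ') = ∑ ξ, BN.rm (op (Q ξ ξ')) (μ η ξ)) →
    ∃ β : M →ₗ[R] M →ₗ[R] N, Bal2 BX BN β ∧
      ∀ n n', β n n' = ∑ ξ, ∑ ξ', BN.lm (L n ξ) (BN.rm (op (Rr n' ξ')) (μ ξ ξ'))

/-- MFY: the family which belongs to a balanced map modulo `p`.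

Proof.  `c_o = χ(deg o)`.  The group `H = W × W × W` acts: `(u,v,w) (o,o') = ((u,v) o, (v,w) o')`,
`π (u,v,w) = (u,w)`.  KEF (for `N`) gives lifts
`m11 (o,o')` of `β(g_o, g_o')` (twisted of degree `deg o * deg o'`: `y β(g_o,g_o') = β(y g_o, g_o') =
c_o β(g_o y, g_o') = c_o β(g_o, y g_o') = c_o c_o' β(g_o,g_o') y`),
`m12 (o,o')` of `β(g_o, h_o')`, `m21` of `β(h_o, g_o')`, and for every `k < l` `m22 k (o,o')` of `β(h_o y^k, h_o')`
(equivariant only), `m22 k = 0` for `k ≥ l`.  Put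
`μ o o' = m11`, `μ o (o',k') = c_o^(-k') y^k' m12`, `μ (o,k) o' = c_o'^k m21 y^k`, `μ (o,k) (o',k') = m22 (k+k')`.
Equivariance: clear (`dg`).  Balanced, `P μ = μ Q` at `(η,ξ')`:
`(o,o')`: `c_o⁻¹ y m11 = c_o' m11 y` (twisted).
`(o,(o',k'))`: left `c_o⁻¹ y c_o^(-k') y^k' m12`, right `μ o (o',k'+1)` for `k'+1 < l`, and `0` for `k'+1 = l` (`y^l = 0`).
`((o,k),o')`: left `μ (o,k+1) o'` or `0`, right `c_o' μ (o,k) o' y = c_o'^(k+1) m21 y^(k+1)`.
`((o,k),(o',k'))`: left `m22 (k+1+k')` or (for `k+1 = l`) `0`; right `m22 (k+k'+1)` or (for `k'+1 = l`) `0`; all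
equal since `m22 = 0` from `l` on.
Congruence: `β(g_o, y^k' h_o') = β(g_o y^k', h_o') = c_o^(-k') y^k' β(g_o,h_o')`, `β(h_o y^k, g_o') = β(h_o, y^k g_o') =
c_o'^k β(h_o,g_o') y^k`, `β(h_o y^k, y^k' h_o') = β(h_o y^(k+k'), h_o')`, all modulo `p`. -/
def MfyStmt : Prop :=
  ∀ (R Γ W M N X Ω Ω' Ω1 Ω1' : Type) [CommRing R] [CommRing Γ] [Algebra R Γ] [CommGroup W]
    [Fintype W] [AddCommGroup M] [Module R M] [AddCommGroup N] [Module R N] [Group X]
    [Fintype Ω] [Fintype Ω'] [MulAction (W × W) Ω] [MulAction (W × W) Ω'] [Fintype Ω1]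
    [Fintype Ω1'] [MulAction (W × W) Ω1] [MulAction (W × W) Ω1'] (l : ℕ) (G : GY R Γ W l)
    (χ : X →* R) (BX : BiM R Γ M) (BN : BiM R Γ N) (FX : YFr Ω Ω' G χ BX LinearMap.id)
    (_ : YFr Ω1 Ω1' G χ BN LinearMap.id) (p : R) (β : M →ₗ[R] M →ₗ[R] N), 2 ≤ l →
    (∀ x, χ x ^ (l - 1) = 1) → (∀ x, x ≠ 1 → IsUnit (1 - χ x)) → Bal2P p BX BN β →
    ∃ μ : Ω ⊕ (Ω' × Fin l) → Ω ⊕ (Ω' × Fin l) → N,
      (∀ (u v w : W) ξ ξ', μ (xa l (u, v) ξ) (xa l (v, w) ξ') = wrp G.om BN (u, w) (μ ξ ξ')) ∧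
      (∀ η ξ', ∑ ξ, BN.lm (pP G χ FX.deg η ξ) (μ ξ ξ') =
        ∑ ξ, BN.rm (op (pQ G χ FX.deg ξ ξ')) (μ η ξ)) ∧
      ∀ ξ ξ', ∃ n, μ ξ ξ' - β (FX.gl ξ) (FX.gr ξ') = p • n

/-- LBY: balanced maps modulo `p` lift.

Proof.  LRC for `FX`, MFY, BBY (`xw = xa l`, `P = pP`, `Q = pQ`): `β'`.  Congruence: `β n n' =
β (∑ L(n)_ξ gl_ξ) (∑ gr_ξ' Rr(n')_ξ') = ∑ L(n)_ξ β(gl_ξ, gr_ξ') Rr(n')_ξ'` modulo `p` (LRC (1)). -/
def LbyStmt : Prop :=
  ∀ (R Γ W M N X Ω Ω' Ω1 Ω1' : Type) [CommRing R] [CommRing Γ] [Algebra R Γ] [CommGroup W]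
    [Fintype W] [AddCommGroup M] [Module R M] [AddCommGroup N] [Module R N] [Group X]
    [Fintype Ω] [Fintype Ω'] [MulAction (W × W) Ω] [MulAction (W × W) Ω'] [Fintype Ω1]
    [Fintype Ω1'] [MulAction (W × W) Ω1] [MulAction (W × W) Ω1'] (l : ℕ) (G : GY R Γ W l)
    (χ : X →* R) (BX : BiM R Γ M) (BN : BiM R Γ N) (_ : YFr Ω Ω' G χ BX LinearMap.id)
    (_ : YFr Ω1 Ω1' G χ BN LinearMap.id) (p : R), 2 ≤ l → (∀ x, χ x ^ (l - 1) = 1) →
    (∀ x, x ≠ 1 → IsUnit (1 - χ x)) → Lif2 p BX BN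

/-- LFY: a framed bimodule is liftable.  From LHY, LBY with `N = X` and `N = Γ` (GFR). -/
def LfyStmt : Prop :=
  ∀ (R Γ W M X Ω Ω' : Type) [CommRing R] [CommRing Γ] [Algebra R Γ] [CommGroup W]
    [Fintype W] [AddCommGroup M] [Module R M] [Group X]
    [Fintype Ω] [Fintype Ω'] [MulAction (W × W) Ω] [MulAction (W × W) Ω'] (l : ℕ)
    (G : GY R Γ W l) (χ : X →* R) (BX : BiM R Γ M) (_ : YFr Ω Ω' G χ BX LinearMap.id) (p : R),
    2 ≤ l → (∀ x, χ x ^ (l - 1) = 1) → (∀ x, x ≠ 1 → IsUnit (1 - χ x)) → Lft p BX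

/-! ## Frames and the lift -/

/-- SPY: a framed complement is a retract of the bimodule with the same basis.

Proof.  `i` = the homomorphism of HOY for the frame `F` of `A` and the families `FX.g`, `FX.h`; `p` = the
one of HOY for `FX` and the families `F.g`, `F.h`.  `i a = FX.el (coordinates of a)`, so by `un1`, `un2`
`p (i a) = F.el (coordinates of a) = a - j (pr a)` (`F.fr`). -/
def SpyStmt : Prop :=
  ∀ (R Γ W A M X Ω Ω' : Type) [CommRing R] [CommRing Γ] [Algebra R Γ] [CommGroup W]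
    [Fintype W] [Ring A] [Algebra R A] [AddCommGroup M] [Module R M] [Group X]
    [Fintype Ω] [Fintype Ω'] [MulAction (W × W) Ω] [MulAction (W × W) Ω'] (l : ℕ)
    (G : GY R Γ W l) (χ : X →* R) (j : Γ →ₐ[R] A) (pr : A →ₗ[R] Γ)
    (F : YFr Ω Ω' G χ (AB j) (LinearMap.id - j.toLinearMap ∘ₗ pr)) (BX : BiM R Γ M)
    (FX : YBs Ω Ω' G χ BX), 1 ≤ l → (∀ γ, pr (j γ) = γ) → (∀ γ a, pr (j γ * a) = γ * pr a) →
    (∀ a γ, pr (a * j γ) = pr a * γ) → F.deg = FX.deg →
    ∃ sp : SplitX A BX, sp.j = j ∧ sp.pr = pr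

/-- FRT: transport of a frame.

Proof.  `g' = p ∘ g`, `h' = p ∘ h`, `c' o = c o ∘ i`, `d' o = d o ∘ i`. -/
def FrtStmt : Prop :=
  ∀ (R Γ W N N' X Ω Ω' : Type) [CommRing R] [CommRing Γ] [Algebra R Γ] [CommGroup W] [Fintype W]
    [AddCommGroup N] [Module R N] [AddCommGroup N'] [Module R N'] [Group X] [Fintype Ω]
    [Fintype Ω'] [MulAction (W × W) Ω] [MulAction (W × W) Ω'] (l : ℕ) (G : GY R Γ W l)
    (χ : X →* R) (B : BiM R Γ N) (B' : BiM R Γ N') (q : N →ₗ[R] N) (_ : YFr Ω Ω' G χ B q)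
    (i : N' →ₗ[R] N) (p : N →ₗ[R] N'), BHom B' B i → BHom B B' p →
    Nonempty (YFr Ω Ω' G χ B' (p ∘ₗ q ∘ₗ i))

/-- FRS: the sum of two frames.

Proof.  `Ω = Ω1 ⊕ Ω2`, `Ω' = Ω1' ⊕ Ω2'`. -/
def FrsStmt : Prop :=
  ∀ (R Γ W N X Ω1 Ω1' Ω2 Ω2' : Type) [CommRing R] [CommRing Γ] [Algebra R Γ] [CommGroup W]
    [Fintype W] [AddCommGroup N] [Module R N] [Group X] [Fintype Ω1] [Fintype Ω1']
    [MulAction (W × W) Ω1] [MulAction (W × W) Ω1'] [Fintype Ω2] [Fintype Ω2']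
    [MulAction (W × W) Ω2] [MulAction (W × W) Ω2'] (l : ℕ) (G : GY R Γ W l) (χ : X →* R)
    (B : BiM R Γ N) (q1 q2 : N →ₗ[R] N) (_ : YFr Ω1 Ω1' G χ B q1) (_ : YFr Ω2 Ω2' G χ B q2),
    ∃ (Ω Ω' : Type) (_ : Fintype Ω) (_ : Fintype Ω') (_ : MulAction (W × W) Ω)
      (_ : MulAction (W × W) Ω'), Nonempty (YFr Ω Ω' G χ B (q1 + q2))

/-- FRA: the deformation has a frame.

Proof.  `j = df.sp.j` etc., `fb = df.fb`, `cj`, `cp` of `df`.  Frame: GFR and FRT with `i = pr`, `p = j`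
(`AB j`, `regB`): frame for `j ∘ pr`; FRT with `i = df.sp.i`, `p = df.sp.p`: frame for `p ∘ i = id - j ∘ pr`; FRS. -/
def FraStmt : Prop :=
  ∀ (R F Γ Γ0 W A A1 X M M0 Ω Ω' : Type) [CommRing R] [Field F] (c : Cdv R F) [CommRing Γ]
    [Algebra R Γ] [CommRing Γ0] [Algebra F Γ0] [CommGroup W] [Fintype W] [Ring A] [Algebra F A]
    [Ring A1] [Algebra R A1] [Group X] [AddCommGroup M] [Module R M] [AddCommGroup M0]
    [Module F M0] [Fintype Ω] [Fintype Ω'] [MulAction (W × W) Ω] [MulAction (W × W) Ω'] (l : ℕ)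
    (G : GY R Γ W l) (χ : X →* R) (f : FibG Γ Γ0 c) (BX : BiM R Γ M) (B0 : BiM F Γ0 M0)
    (sp0 : SplitX A B0) (_ : YFr Ω Ω' G χ BX LinearMap.id) (_ : DfmX A A1 c f BX B0 sp0), 1 ≤ l →
    ∃ (Ω1 Ω1' : Type) (_ : Fintype Ω1) (_ : Fintype Ω1') (_ : MulAction (W × W) Ω1)
      (_ : MulAction (W × W) Ω1'), Nonempty (LY A1 Ω1 Ω1' G χ f sp0.j sp0.pr)

/-- LYE: the lift exists (assembly).

Proof.  XEX over `R` and over `F` for `deg = fl.fr.deg`; XRD; LFY (over `R`, with `YBs.toYFr`), SPY over `F`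
(`sp0`, `sp0.j = fl.j`, `sp0.pr = fl.pr`), `ExxStmt` with `fl.sep`, FRA. -/
def LyeStmt : Prop :=
  ∀ (R F Γ Γ0 W A X N K Ω Ω' : Type) [CommRing R] [IsDomain R] [IsPrincipalIdealRing R]
    [Field F] (c : Cdv R F) [CommRing Γ] [Algebra R Γ] [Module.Finite R Γ] [Module.Free R Γ]
    [CommRing Γ0] [Algebra F Γ0] [CommGroup W] [Fintype W] [Ring A] [Algebra F A] [Group X]
    [Fintype N] [Fintype K] [Fintype Ω] [Fintype Ω'] [MulAction (W × W) Ω]
    [MulAction (W × W) Ω'] (l : ℕ) (G : GY R Γ W l) (G0 : GY F Γ0 W l) (f : FibG Γ Γ0 c)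
    (χ : X →* R) (χ0 : X →* F) (fl : FLv A N K Ω Ω' G0 χ0), 2 ≤ l →
    f.q G.y = G0.y → (∀ w, f.q (G.om w) = G0.om w) → (∀ x, c.κ (χ x) = χ0 x) →
    (∀ x, χ x ^ (l - 1) = 1) → (∀ x, x ≠ 1 → IsUnit (1 - χ x)) →
    ∃ (A1 : Type) (_ : Ring A1) (_ : Algebra R A1) (_ : Module.Finite R A1)
      (_ : Module.Free R A1) (Ω1 Ω1' : Type) (_ : Fintype Ω1) (_ : Fintype Ω1')
      (_ : MulAction (W × W) Ω1) (_ : MulAction (W × W) Ω1'),
      Nonempty (LY A1 Ω1 Ω1' G χ f fl.j fl.pr)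

/-- NXO: twisted elements lift.

Proof.  Choose `a1` with `fb.q a1 = a0`; `y a1 - χ(x) a1 y` is in the kernel of `fb.q`, so in `π A1`
(`fb.ker`).  KEX for `ly.fr` (`B = AB j`, `lm y a = j y * a`): `a = κ a1`, `fb.q a = fb.q a1`. -/
def NxoStmt : Prop :=
  ∀ (R F Γ Γ0 W A A1 X Ω Ω' : Type) [CommRing R] [Field F] (c : Cdv R F) [CommRing Γ]
    [Algebra R Γ] [CommRing Γ0] [Algebra F Γ0] [CommGroup W] [Fintype W] [Ring A] [Algebra F A]
    [Ring A1] [Algebra R A1] [Group X] [Fintype Ω] [Fintype Ω'] [MulAction (W × W) Ω]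
    [MulAction (W × W) Ω'] (l : ℕ) (G : GY R Γ W l) (f : FibG Γ Γ0 c) (χ : X →* R)
    (χ0 : X →* F) (j0 : Γ0 →ₐ[F] A) (pr0 : A →ₗ[F] Γ0) (ly : LY A1 Ω Ω' G χ f j0 pr0), 2 ≤ l →
    (∀ x, c.κ (χ x) = χ0 x) → (∀ x, χ x ^ (l - 1) = 1) → (∀ x, x ≠ 1 → IsUnit (1 - χ x)) →
    ∀ x, ∀ a0 ∈ Nx (ly.fb.q (ly.j G.y)) χ0 x, ∃ a ∈ Nx (ly.j G.y) χ x, ly.fb.q a = a0

/-- CLY: the centraliser of `Γ0` lifts.

Proof.  Choose `a1` with `fb.q a1 = x0`.  `om w a1 om w⁻¹ - a1`, `y a1 - a1 y` are in `π A1` (`fb.ker`).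
`FPl` (YFP) for the subgroup `{(w,w)}` of `W × W`: `a2` commutes with the `om w`, `a2 - a1 ∈ π A1`.  KEX for
`x = 1` (`χ 1 = 1`): `κ a2` commutes with `y` and with the `om w` (equivariance), so with `Γ` (`G.ex`). -/
def ClyStmt : Prop :=
  ∀ (R F Γ Γ0 W A A1 X Ω Ω' : Type) [CommRing R] [Field F] (c : Cdv R F) [CommRing Γ]
    [Algebra R Γ] [CommRing Γ0] [Algebra F Γ0] [CommGroup W] [Fintype W] [Ring A] [Algebra F A]
    [Ring A1] [Algebra R A1] [Group X] [Fintype Ω] [Fintype Ω'] [MulAction (W × W) Ω]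
    [MulAction (W × W) Ω'] (l : ℕ) (G : GY R Γ W l) (f : FibG Γ Γ0 c) (χ : X →* R)
    (j0 : Γ0 →ₐ[F] A) (pr0 : A →ₗ[F] Γ0) (ly : LY A1 Ω Ω' G χ f j0 pr0), 2 ≤ l →
    (∀ x, χ x ^ (l - 1) = 1) → (∀ x, x ≠ 1 → IsUnit (1 - χ x)) →
    ∀ x0 : A, (∀ γ, j0 γ * x0 = x0 * j0 γ) →
      ∃ x : A1, (∀ γ, ly.j γ * x = x * ly.j γ) ∧ ly.fb.q x = x0

/-- ORY: the orthogonal projection (the proof of PFD ORT, with `D` from GWF; `Γ` is commutative).

Proof.  `t' γ = tA (j γ) = D.lam (u γ)` (`LcuStmt`).  `D0` = reduction of `D` (`RwfStmt`):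
`D0.lam (f.q u * f.q γ) = κ (tA (j γ)) = mu (j0 (f.q γ))`, and `f.q u` is a unit: if `f.q u * γ = 0` then
`mu (j0 γ * a) = mu (j0 (γ * pr0 a)) = 0` for all `a`, so `γ = 0`; `Γ0` is finite-dimensional.  So `u` is a
unit (`UnmStmt` for `f`), `u u' = 1`.  `e a = ∑_s tA (a * j (b_s)) • b'_s` (`b = D.fs.b`), `pr' a = u' * e a`,
a bimodule map with `pr' (j γ) = γ`, `D.lam (u * pr' a) = tA a`; `f.q (pr' a) = pr0 (fb.q a)`: both `y` satisfy
`D0.lam (f.q u * y * f.q γ) = mu (fb.q a * j0 (f.q γ))`.  `fb`, `j`, `fr` are the same. -/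
def OryStmt : Prop :=
  ∀ (R F Γ Γ0 W A A1 X Ω Ω' : Type) [CommRing R] [Field F] (c : Cdv R F) [CommRing Γ]
    [Algebra R Γ] [Module.Finite R Γ] [Module.Free R Γ] [CommRing Γ0] [Algebra F Γ0]
    [FiniteDimensional F Γ0] [CommGroup W] [Fintype W] [Ring A] [Algebra F A]
    [Ring A1] [Algebra R A1] [Group X] [Fintype Ω] [Fintype Ω'] [MulAction (W × W) Ω]
    [MulAction (W × W) Ω'] (l : ℕ) (G : GY R Γ W l) (f : FibG Γ Γ0 c) (χ : X →* R)
    (j0 : Γ0 →ₐ[F] A) (pr0 : A →ₗ[F] Γ0) (mu : A →ₗ[F] F) (ly : LY A1 Ω Ω' G χ f j0 pr0)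
    (tA : A1 →ₗ[R] R), 1 ≤ l →
    (∀ γ, pr0 (j0 γ) = γ) → (∀ γ a, pr0 (j0 γ * a) = γ * pr0 a) →
    (∀ a γ, pr0 (a * j0 γ) = pr0 a * γ) →
    (∀ a b, mu (a * b) = mu (b * a)) → (∀ a, mu (j0 (pr0 a)) = mu a) →
    (∀ a, (∀ b, mu (a * b) = 0) → a = 0) →
    (∀ a b, tA (a * b) = tA (b * a)) → (∀ a, c.κ (tA a) = mu (ly.fb.q a)) →
    ∃ (ly' : LY A1 Ω Ω' G χ f j0 pr0) (u u' : Γ), ly'.fb = ly.fb ∧ ly'.j = ly.j ∧
      u * u' = 1 ∧ ∀ a, tA a = G.co (l - 1) 1 (u * ly'.pr a)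

/-- LZE: the final lift (assembly, the proof of PFD LRX).

Proof.  `D` from GWF.  RFL for `ly`: `s`; `s.rt 1` reduces to `∑ x_k * j0 1 * y_k`, a unit by `unt` for `w = 1`
(UNM).  ULF: `u` (its hypothesis on central elements: `f.surj`, commutative).  FRM: `tA`.  ORY: `ly'`, `u1`,
`u1'`.  RFL for `ly'`: `s'`; `s'.rt 1`, `s'.rt (j u1')` are units by `unt` (`f.q u1'` is a unit) and UNM. -/
def LzeStmt : Prop :=
  ∀ (R F Γ Γ0 W A A1 X N K Ω Ω' Ω1 Ω1' : Type) [CommRing R] [Field F] (c : Cdv R F)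
    [CommRing Γ] [Algebra R Γ] [Module.Finite R Γ] [Module.Free R Γ] [CommRing Γ0]
    [Algebra F Γ0] [FiniteDimensional F Γ0] [CommGroup W] [Fintype W] [Ring A] [Algebra F A]
    [Ring A1] [Algebra R A1] [Module.Finite R A1] [Module.Free R A1] [Group X]
    [Fintype N] [Fintype K] [Fintype Ω] [Fintype Ω'] [MulAction (W × W) Ω]
    [MulAction (W × W) Ω'] [Fintype Ω1] [Fintype Ω1'] [MulAction (W × W) Ω1]
    [MulAction (W × W) Ω1'] (l : ℕ) (G : GY R Γ W l) (G0 : GY F Γ0 W l) (f : FibG Γ Γ0 c)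
    (χ : X →* R) (χ0 : X →* F) (fl : FLv A N K Ω Ω' G0 χ0)
    (_ : LY A1 Ω1 Ω1' G χ f fl.j fl.pr), 1 ≤ l →
    Nonempty (LZ A1 N Ω1 Ω1' G χ f fl.j fl.pr)

/-- ZOY: the centre of `A1` maps onto the centre of `A` (the proof of PFD ZON, with CLY).

Proof.  `z` central; by CLY there is `b` commuting with `j Γ`, `fb.q b = z`.  `rf.rt b` is central (RTC),
`rf.rt 1` is a central unit with inverse `i`; `rf.rt b * i` is central and
`fb.q (rf.rt b) = z * fb.q (rf.rt 1)`. -/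
def ZoyStmt : Prop :=
  ∀ (R F Γ Γ0 W A A1 X N Ω Ω' : Type) [CommRing R] [Field F] (c : Cdv R F) [CommRing Γ]
    [Algebra R Γ] [CommRing Γ0] [Algebra F Γ0] [CommGroup W] [Fintype W] [Ring A] [Algebra F A]
    [Ring A1] [Algebra R A1] [Group X] [Fintype N] [Fintype Ω] [Fintype Ω']
    [MulAction (W × W) Ω] [MulAction (W × W) Ω'] (l : ℕ) (G : GY R Γ W l) (f : FibG Γ Γ0 c)
    (χ : X →* R) (j0 : Γ0 →ₐ[F] A) (pr0 : A →ₗ[F] Γ0) (lz : LZ A1 N Ω Ω' G χ f j0 pr0), 2 ≤ l →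
    (∀ x, χ x ^ (l - 1) = 1) → (∀ x, x ≠ 1 → IsUnit (1 - χ x)) →
    ∀ z : A, (∀ a, z * a = a * z) → ∃ b : A1, (∀ a, b * a = a * b) ∧ lz.fb.q b = z

/-! ## The frame `Yd` over `R` -/

/-- FSY: the Frobenius system of `A1`.

Proof.  `D` from GWF.  `b (k, s) = x_k j(b_s)`, `b' (k, s) = j(u' b'_s) y_k` (`b = D.fs.b`, `x, y` of `rf`):
`∑ tA (j(u' b'_s) y_k a) • x_k j(b_s) = ∑_k x_k j (∑_s D.lam (u u' b'_s pr(y_k a)) • b_s) =
∑_k x_k j (pr (y_k a)) = a` (`ort`, `pr_l`, `e1`), `h2` in the same way (`ts`). -/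
def FsyStmt : Prop :=
  ∀ (R F Γ Γ0 W A A1 X N Ω Ω' : Type) [CommRing R] [Field F] (c : Cdv R F) [CommRing Γ]
    [Algebra R Γ] [CommRing Γ0] [Algebra F Γ0] [CommGroup W] [Fintype W] [Ring A] [Algebra F A]
    [Ring A1] [Algebra R A1] [Group X] [Fintype N] [Fintype Ω] [Fintype Ω']
    [MulAction (W × W) Ω] [MulAction (W × W) Ω'] (l : ℕ) (G : GY R Γ W l) (f : FibG Γ Γ0 c)
    (χ : X →* R) (j0 : Γ0 →ₐ[F] A) (pr0 : A →ₗ[F] Γ0) (lz : LZ A1 N Ω Ω' G χ f j0 pr0), 1 ≤ l →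
    ∃ d : FS R A1 (N × (Fin l × W)), d.lam = lz.tA

/-- YDR: the frame `Yd`.

Proof.  `g' o = ∑_p c_o (b_p) • b'_p`: `lam (g' o * a) = c_o (∑_p lam (b'_p a) b_p) = c_o a`; `h' o` in the same way.
`gy`: `gy` of the frame.  `g'y`: `lam (g' y a) = c_o (y a) = χ c_o (a y) = χ lam (g' a y) = χ lam (y g' a)`, and
`lam` is nondegenerate (`h2`, `ts`).  `fr`: `fr` of the frame (`q = id`). -/
def YdrStmt : Prop :=
  ∀ (R F Γ Γ0 W A A1 X N J Ω Ω' : Type) [CommRing R] [Field F] (c : Cdv R F) [CommRing Γ]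
    [Algebra R Γ] [CommRing Γ0] [Algebra F Γ0] [CommGroup W] [Fintype W] [Ring A] [Algebra F A]
    [Ring A1] [Algebra R A1] [Group X] [Fintype N] [Fintype J] [Fintype Ω] [Fintype Ω']
    [MulAction (W × W) Ω] [MulAction (W × W) Ω'] (l : ℕ) (G : GY R Γ W l) (f : FibG Γ Γ0 c)
    (χ : X →* R) (j0 : Γ0 →ₐ[F] A) (pr0 : A →ₗ[F] Γ0) (lz : LZ A1 N Ω Ω' G χ f j0 pr0)
    (d : FS R A1 J), d.lam = lz.tA → 2 ≤ l →
    (∀ x, χ x ^ (l - 1) = 1) → (∀ x, x ≠ 1 → IsUnit (1 - χ x)) →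
    ∃ D : Yd R A1 X J Ω Ω' (lz.j G.y) l χ, D.d = d ∧ D.deg = lz.fr.deg ∧ D.g = lz.fr.g ∧
      D.h = lz.fr.h ∧ (∀ o a, D.d.lam (D.g' o * a) = lz.fr.c o a) ∧
      ∀ o a, D.d.lam (D.h' o * a) = lz.fr.d o a

/-- RTW: the relative trace of `1` from `R[y]` is divisible by `|W|`.

Proof.  `λ = D.d.lam = tA`.  `∑_w ∑_k x_k om w pi(om w⁻¹ u' y_k a) = ∑_k x_k j(∑_(w,i) co (l-1) 1 (u y^(l-1-i)
om w⁻¹ u' pr(y_k a)) y^i om w) = ∑_k x_k j(pr(y_k a)) = a` (GWF (`h1`), `u u' = 1`; `om w`, `u'`, `y` are written for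
their images under `j`).  With `∑_r pi(a e_r) e'_r = a` (RTK): `RT 1 = ∑_r e_r e'_r =
∑_(k,w) x_k om w ∑_r pi(om w⁻¹ u' y_k e_r) e'_r = ∑_(k,w) x_k om w om w⁻¹ u' y_k = |W| ∑_k x_k u' y_k`. -/
def RtwStmt : Prop :=
  ∀ (R F Γ Γ0 W A A1 X N J Ω Ω' Ω1 Ω1' : Type) [CommRing R] [Field F] (c : Cdv R F)
    [CommRing Γ] [Algebra R Γ] [CommRing Γ0] [Algebra F Γ0] [CommGroup W] [Fintype W] [Ring A]
    [Algebra F A] [Ring A1] [Algebra R A1] [Group X] [Fintype N] [Fintype J] [Fintype Ω]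
    [Fintype Ω'] [MulAction (W × W) Ω] [MulAction (W × W) Ω'] [Fintype Ω1] [Fintype Ω1']
    (l : ℕ) (G : GY R Γ W l) (f : FibG Γ Γ0 c)
    (χ : X →* R) (j0 : Γ0 →ₐ[F] A) (pr0 : A →ₗ[F] Γ0) (lz : LZ A1 N Ω Ω' G χ f j0 pr0)
    (D : Yd R A1 X J Ω1 Ω1' (lz.j G.y) l χ), D.d.lam = lz.tA →
    D.RT 1 = (Fintype.card W : R) • lz.rf.rt (lz.j lz.u')

/-- YGR: the group `W` in the frame.

Proof.  `om = j ∘ om`, `dg`, `fo`, `fo'`, `gw`, `hw` from `lz.fr` (`wrp G.om (AB j) (u,v) a = j(om u) * (a * j(om v⁻¹))`).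
`gw'`: `λ(g'_(w o) (u a v⁻¹)) = c_(w o) (u a v⁻¹) = c_o a = λ(g'_o a) = λ((v g'_o u⁻¹) (u a v⁻¹))`, nondegenerate.
`rho = rf.rt (j u')`: RTW; central (RTC), a unit (`unu`). -/
def YgrStmt : Prop :=
  ∀ (R F Γ Γ0 W A A1 X N J Ω Ω' : Type) [CommRing R] [Field F] (c : Cdv R F) [CommRing Γ]
    [Algebra R Γ] [CommRing Γ0] [Algebra F Γ0] [CommGroup W] [Fintype W] [Ring A] [Algebra F A]
    [Ring A1] [Algebra R A1] [Group X] [Fintype N] [Fintype J] [Fintype Ω] [Fintype Ω']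
    [MulAction (W × W) Ω] [MulAction (W × W) Ω'] (l : ℕ) (G : GY R Γ W l) (f : FibG Γ Γ0 c)
    (χ : X →* R) (j0 : Γ0 →ₐ[F] A) (pr0 : A →ₗ[F] Γ0) (lz : LZ A1 N Ω Ω' G χ f j0 pr0)
    (D : Yd R A1 X J Ω Ω' (lz.j G.y) l χ), D.d.lam = lz.tA → D.deg = lz.fr.deg →
    D.g = lz.fr.g → D.h = lz.fr.h → (∀ o a, D.d.lam (D.g' o * a) = lz.fr.c o a) →
    (∀ o a, D.d.lam (D.h' o * a) = lz.fr.d o a) →
    ∃ Y : YG W D, ∀ w, Y.om w = lz.j (G.om w)

end Pool.Agent.PFE
end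
end -- Pool.Agent.PFE.StmtsE2

section -- Pool.Agent.Helper15_PFE.HOY

/-! # HOY: homomorphisms from families -/

set_option autoImplicit false

open scoped BigOperators

noncomputable section

namespace Pool.Agent.PFE.H15

open MulOpposite
open Pool.Agent.PFC.B1 (FS Split BiM Sep)
open Pool.Agent.PFC (tw)
open Pool.Agent.PFD (RF)
open Pool.Agent.PFD.D2
open Pool.Agent.PFD.D2b (wrp FPl FrR)
open Pool.Agent.PFE

section gen

variable {R N N' : Type} [CommRing R] [AddCommGroup N] [Module R N] [AddCommGroup N'] [Module R N']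

/-- the sum of one twisted generator -/
def s1 (l : ℕ) (L : Module.End R N) (L' : Module.End R N') (φ : N →ₗ[R] R) (m : N') (n : N) : N' :=
  ∑ i ∈ Finset.range l, φ ((L ^ (l - 1 - i)) n) • (L' ^ i) m

/-- the sum of one free generator -/
def s2 (l : ℕ) (L Z : Module.End R N) (L' Z' : Module.End R N') (φ : N →ₗ[R] R) (m : N') (n : N) :
    N' :=
  ∑ i ∈ Finset.range l, ∑ k ∈ Finset.range l,
    φ ((L ^ (l - 1 - i)) ((Z ^ (l - 1 - k)) n)) • (L' ^ i) ((Z' ^ k) m)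

theorem pow_comm' {M : Type} [AddCommGroup M] [Module R M] {A B : Module.End R M}
    (h : ∀ n, A (B n) = B (A n)) (a : ℕ) (n : M) : (A ^ a) (B n) = B ((A ^ a) n) := by
  induction a with
  | zero => simp
  | succ a ih => rw [pow_succ', Module.End.mul_apply, ih, h, Module.End.mul_apply]

theorem pow_comm'' {M : Type} [AddCommGroup M] [Module R M] {A B : Module.End R M}
    (h : ∀ n, A (B n) = B (A n)) (a b : ℕ) (n : M) :
    (A ^ a) ((B ^ b) n) = (B ^ b) ((A ^ a) n) :=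
  pow_comm' (fun n => (pow_comm' (fun n => (h n).symm) b n).symm) a n

theorem s1_L {l : ℕ} (hl : 1 ≤ l) {L : Module.End R N} {L' : Module.End R N'} (hL : L ^ l = 0)
    (hL' : L' ^ l = 0) (φ : N →ₗ[R] R) (m : N') (n : N) :
    s1 l L L' φ m (L n) = L' (s1 l L L' φ m n) := by
  obtain ⟨k, rfl⟩ : ∃ k, l = k + 1 := ⟨l - 1, by omega⟩
  unfold s1
  rw [Finset.sum_range_succ', Finset.sum_range_succ (n := k), map_add, map_sum]
  have h1 : φ ((L ^ (k + 1 - 1 - 0)) (L n)) • (L' ^ 0) m = 0 := by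
    have e : (L ^ (k + 1 - 1 - 0)) (L n) = (L ^ (k + 1)) n := by
      rw [pow_succ L k, Module.End.mul_apply]
      rfl
    rw [e, hL, LinearMap.zero_apply, map_zero, zero_smul]
  have h2 : L' (φ ((L ^ (k + 1 - 1 - k)) n) • (L' ^ k) m) = 0 := by
    rw [map_smul]
    have e : L' ((L' ^ k) m) = (L' ^ (k + 1)) m := by
      rw [pow_succ', Module.End.mul_apply]
    rw [e, hL', LinearMap.zero_apply, smul_zero]
  rw [h1, h2, add_zero, add_zero]
  refine Finset.sum_congr rfl fun i hi => ?_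
  rw [Finset.mem_range] at hi
  rw [map_smul]
  have e1 : (L ^ (k + 1 - 1 - (i + 1))) (L n) = (L ^ (k + 1 - 1 - i)) n := by
    have : k + 1 - 1 - i = (k + 1 - 1 - (i + 1)) + 1 := by omega
    rw [this, pow_succ, Module.End.mul_apply]
  have e2 : L' ((L' ^ i) m) = (L' ^ (i + 1)) m := by
    rw [pow_succ', Module.End.mul_apply]
  rw [e1, e2]

theorem s1_R {l : ℕ} (hl : 1 ≤ l) {L Z : Module.End R N} {L' Z' : Module.End R N'}
    (hL : L ^ l = 0) (hL' : L' ^ l = 0) {φ : N →ₗ[R] R} {m : N'} {x x' : R} (hx : x' * x = 1)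
    (hc : ∀ n, L (Z n) = Z (L n)) (hc' : ∀ n, L' (Z' n) = Z' (L' n))
    (hφ : ∀ n, φ (L n) = x * φ (Z n)) (hm : L' m = x • Z' m) (n : N) :
    s1 l L L' φ m (Z n) = Z' (s1 l L L' φ m n) := by
  have h1 : s1 l L L' φ m (Z n) = x' • s1 l L L' φ m (L n) := by
    unfold s1
    rw [Finset.smul_sum]
    refine Finset.sum_congr rfl fun i _ => ?_
    rw [pow_comm' hc, pow_comm' (A := L) (B := L) (fun _ => rfl), hφ, smul_smul, ← mul_assoc, hx,
      one_mul]
  have h2 : Z' m = x' • L' m := by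
    rw [hm, smul_smul, hx, one_smul]
  have h3 : Z' (s1 l L L' φ m n) = x' • L' (s1 l L L' φ m n) := by
    unfold s1
    rw [map_sum, map_sum, Finset.smul_sum]
    refine Finset.sum_congr rfl fun i _ => ?_
    rw [map_smul, map_smul, ← pow_comm' hc', h2, map_smul,
      pow_comm' (A := L') (B := L') (fun _ => rfl), smul_comm]
  rw [h1, h3, s1_L hl hL hL']

theorem s1_U (l : ℕ) {L U : Module.End R N} {L' U' : Module.End R N'}
    (hc : ∀ n, L (U n) = U (L n)) (hc' : ∀ n, L' (U' n) = U' (L' n)) {φ ψ : N →ₗ[R] R}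
    (hφ : ∀ n, ψ (U n) = φ n) (m : N') (n : N) :
    s1 l L L' ψ (U' m) (U n) = U' (s1 l L L' φ m n) := by
  unfold s1
  rw [map_sum]
  refine Finset.sum_congr rfl fun i _ => ?_
  rw [map_smul, pow_comm' hc, hφ, pow_comm' hc']

theorem s2_eqL (l : ℕ) {L Z : Module.End R N} (L' Z' : Module.End R N')
    (hc : ∀ n, L (Z n) = Z (L n)) (φ : N →ₗ[R] R) (m : N') (n : N) :
    s2 l L Z L' Z' φ m n = ∑ k ∈ Finset.range l,
      s1 l L L' (φ ∘ₗ (Z ^ (l - 1 - k) : Module.End R N)) ((Z' ^ k) m) n := by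
  unfold s2 s1
  rw [Finset.sum_comm]
  refine Finset.sum_congr rfl fun k _ => Finset.sum_congr rfl fun i _ => ?_
  rw [LinearMap.comp_apply, pow_comm'' hc]

theorem s2_eqR (l : ℕ) (L Z : Module.End R N) {L' Z' : Module.End R N'}
    (hc' : ∀ n, L' (Z' n) = Z' (L' n)) (φ : N →ₗ[R] R) (m : N') (n : N) :
    s2 l L Z L' Z' φ m n = ∑ i ∈ Finset.range l,
      s1 l Z Z' (φ ∘ₗ (L ^ (l - 1 - i) : Module.End R N)) ((L' ^ i) m) n := by
  unfold s2 s1
  refine Finset.sum_congr rfl fun i _ => Finset.sum_congr rfl fun k _ => ?_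
  rw [LinearMap.comp_apply, pow_comm'' hc']

theorem s2_L {l : ℕ} (hl : 1 ≤ l) {L Z : Module.End R N} {L' Z' : Module.End R N'}
    (hL : L ^ l = 0) (hL' : L' ^ l = 0) (hc : ∀ n, L (Z n) = Z (L n)) (φ : N →ₗ[R] R) (m : N')
    (n : N) : s2 l L Z L' Z' φ m (L n) = L' (s2 l L Z L' Z' φ m n) := by
  rw [s2_eqL l L' Z' hc, s2_eqL l L' Z' hc, map_sum]
  refine Finset.sum_congr rfl fun k _ => ?_
  rw [s1_L hl hL hL']

theorem s2_R {l : ℕ} (hl : 1 ≤ l) {L Z : Module.End R N} {L' Z' : Module.End R N'}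
    (hZ : Z ^ l = 0) (hZ' : Z' ^ l = 0) (hc' : ∀ n, L' (Z' n) = Z' (L' n)) (φ : N →ₗ[R] R)
    (m : N') (n : N) : s2 l L Z L' Z' φ m (Z n) = Z' (s2 l L Z L' Z' φ m n) := by
  rw [s2_eqR l L Z hc', s2_eqR l L Z hc', map_sum]
  refine Finset.sum_congr rfl fun k _ => ?_
  rw [s1_L hl hZ hZ']

theorem s2_U (l : ℕ) {L Z U : Module.End R N} {L' Z' U' : Module.End R N'}
    (hc : ∀ n, L (U n) = U (L n)) (hc' : ∀ n, L' (U' n) = U' (L' n))
    (hd : ∀ n, Z (U n) = U (Z n)) (hd' : ∀ n, Z' (U' n) = U' (Z' n)) {φ ψ : N →ₗ[R] R}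
    (hφ : ∀ n, ψ (U n) = φ n) (m : N') (n : N) :
    s2 l L Z L' Z' ψ (U' m) (U n) = U' (s2 l L Z L' Z' φ m n) := by
  unfold s2
  rw [map_sum]
  refine Finset.sum_congr rfl fun i _ => ?_
  rw [map_sum]
  refine Finset.sum_congr rfl fun k _ => ?_
  rw [map_smul, pow_comm' hd, pow_comm' hc, hφ, pow_comm' hd', pow_comm' hc']

end gen

theorem lm_comm {R Γ N : Type} [CommRing R] [CommRing Γ] [Algebra R Γ] [AddCommGroup N]
    [Module R N] (B : BiM R Γ N) (a b : Γ) (n : N) : B.lm a (B.lm b n) = B.lm b (B.lm a n) := by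
  rw [← Module.End.mul_apply, ← map_mul, mul_comm, map_mul, Module.End.mul_apply]

theorem rm_comm {R Γ N : Type} [CommRing R] [CommRing Γ] [Algebra R Γ] [AddCommGroup N]
    [Module R N] (B : BiM R Γ N) (a b : Γ) (n : N) :
    B.rm (op a) (B.rm (op b) n) = B.rm (op b) (B.rm (op a) n) := by
  rw [← Module.End.mul_apply, ← map_mul, ← op_mul, mul_comm, op_mul, map_mul,
    Module.End.mul_apply]

theorem hoy : HoyStmt := by
  intro R Γ W N N' X Ω Ω' _ _ _ _ _ _ _ _ _ _ _ _ _ _ l G χ B B' q F m m' hl hm hmy hm'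
  obtain ⟨L, hLdef⟩ : ∃ L : Module.End R N, L = B.lm G.y := ⟨_, rfl⟩
  obtain ⟨Z, hZdef⟩ : ∃ Z : Module.End R N, Z = B.rm (op G.y) := ⟨_, rfl⟩
  obtain ⟨L', hLdef'⟩ : ∃ L' : Module.End R N', L' = B'.lm G.y := ⟨_, rfl⟩
  obtain ⟨Z', hZdef'⟩ : ∃ Z' : Module.End R N', Z' = B'.rm (op G.y) := ⟨_, rfl⟩
  have pL : ∀ a : ℕ, B.lm (G.y ^ a) = L ^ a := fun a => by rw [hLdef, map_pow]
  have pL' : ∀ a : ℕ, B'.lm (G.y ^ a) = L' ^ a := fun a => by rw [hLdef', map_pow]
  have pZ : ∀ a : ℕ, B.rm (op (G.y ^ a)) = Z ^ a := fun a => by rw [hZdef, op_pow, map_pow]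
  have pZ' : ∀ a : ℕ, B'.rm (op (G.y ^ a)) = Z' ^ a := fun a => by rw [hZdef', op_pow, map_pow]
  have hL : L ^ l = 0 := by rw [← pL, G.yl, map_zero]
  have hL' : L' ^ l = 0 := by rw [← pL', G.yl, map_zero]
  have hZ : Z ^ l = 0 := by rw [← pZ, G.yl, op_zero, map_zero]
  have hZ' : Z' ^ l = 0 := by rw [← pZ', G.yl, op_zero, map_zero]
  have hc : ∀ n, L (Z n) = Z (L n) := fun n => by rw [hLdef, hZdef, B.comm]
  have hc' : ∀ n, L' (Z' n) = Z' (L' n) := fun n => by rw [hLdef', hZdef', B'.comm]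
  let g : N →ₗ[R] N' :=
    ∑ o, ∑ i ∈ Finset.range l,
      ((F.c o) ∘ₗ (B.lm (G.y ^ (l - 1 - i)))).smulRight (B'.lm (G.y ^ i) (m o)) +
    ∑ o, ∑ i ∈ Finset.range l, ∑ k ∈ Finset.range l,
      ((F.d o) ∘ₗ ((B.lm (G.y ^ (l - 1 - i))) ∘ₗ
        (B.rm (op (G.y ^ (l - 1 - k)))))).smulRight
          (B'.lm (G.y ^ i) (B'.rm (op (G.y ^ k)) (m' o)))
  have hg : ∀ n, g n =
      ∑ o, ∑ i ∈ Finset.range l, F.c o (B.lm (G.y ^ (l - 1 - i)) n) • B'.lm (G.y ^ i) (m o) +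
      ∑ o, ∑ i ∈ Finset.range l, ∑ k ∈ Finset.range l,
        F.d o (B.lm (G.y ^ (l - 1 - i)) (B.rm (op (G.y ^ (l - 1 - k))) n)) •
          B'.lm (G.y ^ i) (B'.rm (op (G.y ^ k)) (m' o)) := by
    intro n
    simp only [g, LinearMap.add_apply, LinearMap.sum_apply, LinearMap.smulRight_apply,
      LinearMap.comp_apply]
  have hs : ∀ n, g n = ∑ o, s1 l L L' (F.c o) (m o) n + ∑ o, s2 l L Z L' Z' (F.d o) (m' o) n := by
    intro n
    rw [hg]
    simp only [pL, pL', pZ, pZ']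
    rfl
  -- the variable `y`
  have gL : ∀ n, g (L n) = L' (g n) := by
    intro n
    rw [hs, hs, map_add, map_sum, map_sum]
    congr 1
    · exact Finset.sum_congr rfl fun o _ => s1_L hl hL hL' _ _ _
    · exact Finset.sum_congr rfl fun o _ => s2_L hl hL hL' hc _ _ _
  have gZ : ∀ n, g (Z n) = Z' (g n) := by
    intro n
    rw [hs, hs, map_add, map_sum, map_sum]
    congr 1
    · refine Finset.sum_congr rfl fun o _ => ?_
      refine s1_R hl hL hL' (x := χ (F.deg o)) (x' := χ (F.deg o)⁻¹) ?_ hc hc' ?_ ?_ n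
      · rw [← map_mul, inv_mul_cancel, map_one]
      · intro n
        rw [hLdef, hZdef]
        exact F.cy o n
      · rw [hLdef', hZdef']
        exact hmy o
    · exact Finset.sum_congr rfl fun o _ => s2_R hl hZ hZ' hc' _ _ _
  -- the group
  have gU : ∀ (w : W × W) (n : N), g (wrp G.om B w n) = wrp G.om B' w (g n) := by
    intro w n
    have u1 : ∀ n, L (wrp G.om B w n) = wrp G.om B w (L n) := by
      intro n
      rw [hLdef]
      change B.lm G.y (B.lm (G.om w.1) (B.rm (op (G.om w.2⁻¹)) n)) =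
        B.lm (G.om w.1) (B.rm (op (G.om w.2⁻¹)) (B.lm G.y n))
      rw [lm_comm, B.comm]
    have u2 : ∀ n, Z (wrp G.om B w n) = wrp G.om B w (Z n) := by
      intro n
      rw [hZdef]
      change B.rm (op G.y) (B.lm (G.om w.1) (B.rm (op (G.om w.2⁻¹)) n)) =
        B.lm (G.om w.1) (B.rm (op (G.om w.2⁻¹)) (B.rm (op G.y) n))
      rw [← B.comm, rm_comm]
    have u1' : ∀ n, L' (wrp G.om B' w n) = wrp G.om B' w (L' n) := by
      intro n
      rw [hLdef']
      change B'.lm G.y (B'.lm (G.om w.1) (B'.rm (op (G.om w.2⁻¹)) n)) =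
        B'.lm (G.om w.1) (B'.rm (op (G.om w.2⁻¹)) (B'.lm G.y n))
      rw [lm_comm, B'.comm]
    have u2' : ∀ n, Z' (wrp G.om B' w n) = wrp G.om B' w (Z' n) := by
      intro n
      rw [hZdef']
      change B'.rm (op G.y) (B'.lm (G.om w.1) (B'.rm (op (G.om w.2⁻¹)) n)) =
        B'.lm (G.om w.1) (B'.rm (op (G.om w.2⁻¹)) (B'.rm (op G.y) n))
      rw [← B'.comm, rm_comm]
    rw [hs, hs, map_add, map_sum, map_sum]
    congr 1
    · rw [← Equiv.sum_comp (MulAction.toPerm w)]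
      refine Finset.sum_congr rfl fun o _ => ?_
      change s1 l L L' (F.c (w • o)) (m (w • o)) (wrp G.om B w n) = _
      rw [hm]
      exact s1_U l u1 u1' (fun n => F.cw w o n) (m o) n
    · rw [← Equiv.sum_comp (MulAction.toPerm w)]
      refine Finset.sum_congr rfl fun o _ => ?_
      change s2 l L Z L' Z' (F.d (w • o)) (m' (w • o)) (wrp G.om B w n) = _
      rw [hm']
      exact s2_U l u1 u1' u2 u2' (fun n => F.dw w o n) (m' o) n
  have gl : ∀ (w : W) (n : N), g (B.lm (G.om w) n) = B'.lm (G.om w) (g n) := by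
    intro w n
    have h := gU (w, 1) n
    change g (B.lm (G.om w) (B.rm (op (G.om 1⁻¹)) n)) =
      B'.lm (G.om w) (B'.rm (op (G.om 1⁻¹)) (g n)) at h
    simpa using h
  have gr : ∀ (w : W) (n : N), g (B.rm (op (G.om w)) n) = B'.rm (op (G.om w)) (g n) := by
    intro w n
    have h := gU (1, w⁻¹) n
    change g (B.lm (G.om 1) (B.rm (op (G.om w⁻¹⁻¹)) n)) =
      B'.lm (G.om 1) (B'.rm (op (G.om w⁻¹⁻¹)) (g n)) at h
    simpa using h
  have gLk : ∀ (k : ℕ) (n : N), g (B.lm (G.y ^ k) n) = B'.lm (G.y ^ k) (g n) := by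
    intro k
    rw [pL, pL']
    induction k with
    | zero => intro n; simp
    | succ k ih => intro n; rw [pow_succ', Module.End.mul_apply, gL, ih, pow_succ',
        Module.End.mul_apply]
  have gZk : ∀ (k : ℕ) (n : N), g (B.rm (op (G.y ^ k)) n) = B'.rm (op (G.y ^ k)) (g n) := by
    intro k
    rw [pZ, pZ']
    induction k with
    | zero => intro n; simp
    | succ k ih => intro n; rw [pow_succ', Module.End.mul_apply, gZ, ih, pow_succ',
        Module.End.mul_apply]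
  refine ⟨g, ⟨?_, ?_⟩, hg⟩
  · intro γ n
    rw [← G.ex γ]
    simp only [map_sum, map_smul, map_mul, LinearMap.sum_apply, LinearMap.smul_apply,
      Module.End.mul_apply]
    refine Finset.sum_congr rfl fun k _ => Finset.sum_congr rfl fun w _ => ?_
    rw [gLk, gl]
  · intro γ n
    have e1 : γ = (opLinearEquiv R : Γ ≃ₗ[R] Γᵐᵒᵖ) (∑ k ∈ Finset.range l, ∑ w,
        G.co k w γ.unop • (G.y ^ k * G.om w)) := by
      rw [G.ex]
      rfl
    rw [e1]
    simp only [map_sum, map_smul, LinearMap.sum_apply, LinearMap.smul_apply]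
    refine Finset.sum_congr rfl fun k _ => Finset.sum_congr rfl fun w _ => ?_
    have e2 : (opLinearEquiv R : Γ ≃ₗ[R] Γᵐᵒᵖ) (G.y ^ k * G.om w) =
        op (G.om w) * op (G.y ^ k) := op_mul _ _
    rw [e2, map_mul, map_mul, Module.End.mul_apply, Module.End.mul_apply, gr, gZk]

end Pool.Agent.PFE.H15
end
end -- Pool.Agent.Helper15_PFE.HOY

section -- Pool.Agent.Helper21_PFE.XRD

/-!
# Row pfe:XRD, the special fibre of the bimodule with a basis
-/

open scoped BigOperators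

noncomputable section

namespace Pool.Agent.PFE.H21

open MulOpposite
open Pool.Agent.PFC.B1 (BiM)
open Pool.Agent.PFD.D2
open Pool.Agent.PFD.D2b (wrp)

section one

variable {R Γ W N X Ω Ω' : Type} [CommRing R] [CommRing Γ] [Algebra R Γ] [CommGroup W]
  [Fintype W] [AddCommGroup N] [Module R N] [Group X] [Fintype Ω] [Fintype Ω']
  [MulAction (W × W) Ω] [MulAction (W × W) Ω'] {l : ℕ} {G : GY R Γ W l} {χ : X →* R}
  {B : BiM R Γ N}

/-- two elements with the same coordinates are equal -/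
theorem x_ext (Y : YFr Ω Ω' G χ B LinearMap.id) {n n' : N}
    (h1 : ∀ o i, i < l → Y.c o (B.lm (G.y ^ (l - 1 - i)) n) = Y.c o (B.lm (G.y ^ (l - 1 - i)) n'))
    (h2 : ∀ o i k, i < l → k < l →
      Y.d o (B.lm (G.y ^ (l - 1 - i)) (B.rm (op (G.y ^ (l - 1 - k))) n)) =
      Y.d o (B.lm (G.y ^ (l - 1 - i)) (B.rm (op (G.y ^ (l - 1 - k))) n'))) : n = n' := by
  have e : ∀ x : N, (LinearMap.id : N →ₗ[R] N) x = x := fun x => rfl
  rw [← e n, ← e n', ← Y.fr n, ← Y.fr n']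
  congr 1
  · refine Finset.sum_congr rfl fun o _ => Finset.sum_congr rfl fun i hi => ?_
    rw [h1 o i (Finset.mem_range.1 hi)]
  · refine Finset.sum_congr rfl fun o _ => Finset.sum_congr rfl fun i hi =>
      Finset.sum_congr rfl fun k hk => ?_
    rw [h2 o i k (Finset.mem_range.1 hi) (Finset.mem_range.1 hk)]

theorem l_big (_ : 1 ≤ l) {m : ℕ} (hm : l ≤ m) (n : N) : B.lm (G.y ^ m) n = 0 := by
  rw [pow_eq_zero_of_le hm G.yl, map_zero]
  rfl

theorem r_big (_ : 1 ≤ l) {m : ℕ} (hm : l ≤ m) (n : N) : B.rm (op (G.y ^ m)) n = 0 := by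
  rw [pow_eq_zero_of_le hm G.yl, op_zero, map_zero]
  rfl

theorem l_l (a b : Γ) (n : N) : B.lm a (B.lm b n) = B.lm (a * b) n := by
  rw [map_mul]
  rfl

theorem r_r (a b : Γ) (n : N) : B.rm (op a) (B.rm (op b) n) = B.rm (op (a * b)) n := by
  rw [mul_comm a b, op_mul, map_mul]
  rfl

theorem w_l (w : W × W) (a : Γ) (n : N) : B.lm a (wrp G.om B w n) = wrp G.om B w (B.lm a n) := by
  show B.lm a (B.lm (G.om w.1) (B.rm (op (G.om w.2⁻¹)) n)) =
    B.lm (G.om w.1) (B.rm (op (G.om w.2⁻¹)) (B.lm a n))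
  rw [l_l, ← B.comm, l_l, mul_comm]

theorem w_r (w : W × W) (a : Γ) (n : N) :
    B.rm (op a) (wrp G.om B w n) = wrp G.om B w (B.rm (op a) n) := by
  show B.rm (op a) (B.lm (G.om w.1) (B.rm (op (G.om w.2⁻¹)) n)) =
    B.lm (G.om w.1) (B.rm (op (G.om w.2⁻¹)) (B.rm (op a) n))
  rw [← B.comm, r_r, r_r, mul_comm]

theorem c_w (Y : YFr Ω Ω' G χ B LinearMap.id) (w : W × W) (o : Ω) (n : N) :
    Y.c o (wrp G.om B w n) = Y.c (w⁻¹ • o) n := by
  have := Y.cw w (w⁻¹ • o) n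
  rwa [smul_inv_smul] at this

theorem d_w (Y : YFr Ω Ω' G χ B LinearMap.id) (w : W × W) (o : Ω') (n : N) :
    Y.d o (wrp G.om B w n) = Y.d (w⁻¹ • o) n := by
  have := Y.dw w (w⁻¹ • o) n
  rwa [smul_inv_smul] at this

end one

/-- XRD -/
theorem xrd : XrdStmt := by
  intro R F Γ Γ0 W X Ω Ω' M M0 _ _ c _ _ _ _ _ _ _ _ _ _ _ _ _ _ _ l G G0 f χ χ0 B B0 Fr Fr0 hl
    hy hom hχ hdeg
  classical
  -- the map
  let s : M → M0 := fun n => Fr0.toYFr.el (fun o i => c.κ (Fr.c o (B.lm (G.y ^ (l - 1 - i)) n)))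
    (fun o i k => c.κ (Fr.d o (B.lm (G.y ^ (l - 1 - i)) (B.rm (op (G.y ^ (l - 1 - k))) n))))
  -- the coordinates
  have P1 : ∀ (n : M) (o : Ω) (m : ℕ),
      Fr0.c o (B0.lm (G0.y ^ m) (s n)) = c.κ (Fr.c o (B.lm (G.y ^ m) n)) := by
    intro n o m
    rcases lt_or_ge m l with hm | hm
    · have h := Fr0.un1 (fun o i => c.κ (Fr.c o (B.lm (G.y ^ (l - 1 - i)) n)))
        (fun o i k => c.κ (Fr.d o (B.lm (G.y ^ (l - 1 - i)) (B.rm (op (G.y ^ (l - 1 - k))) n))))
        o (l - 1 - m) (by omega)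
      have e : l - 1 - (l - 1 - m) = m := by omega
      simp only [e] at h
      exact h
    · rw [l_big hl hm, l_big hl hm, map_zero, map_zero, map_zero]
  have P2 : ∀ (n : M) (o : Ω') (a b : ℕ),
      Fr0.d o (B0.lm (G0.y ^ a) (B0.rm (op (G0.y ^ b)) (s n))) =
        c.κ (Fr.d o (B.lm (G.y ^ a) (B.rm (op (G.y ^ b)) n))) := by
    intro n o a b
    rcases lt_or_ge a l with ha | ha
    · rcases lt_or_ge b l with hb | hb
      · have h := Fr0.un2 (fun o i => c.κ (Fr.c o (B.lm (G.y ^ (l - 1 - i)) n)))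
          (fun o i k => c.κ (Fr.d o (B.lm (G.y ^ (l - 1 - i)) (B.rm (op (G.y ^ (l - 1 - k))) n))))
          o (l - 1 - a) (l - 1 - b) (by omega) (by omega)
        have e : l - 1 - (l - 1 - a) = a := by omega
        have e' : l - 1 - (l - 1 - b) = b := by omega
        simp only [e, e'] at h
        exact h
      · rw [r_big hl hb, r_big hl hb, map_zero, map_zero, map_zero, map_zero, map_zero]
    · rw [l_big hl ha, l_big hl ha, map_zero, map_zero, map_zero]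
  have ext0 : ∀ {x x' : M0}, (∀ o m, Fr0.c o (B0.lm (G0.y ^ m) x) = Fr0.c o (B0.lm (G0.y ^ m) x')) →
      (∀ o a b, Fr0.d o (B0.lm (G0.y ^ a) (B0.rm (op (G0.y ^ b)) x)) =
        Fr0.d o (B0.lm (G0.y ^ a) (B0.rm (op (G0.y ^ b)) x'))) → x = x' := fun {x x'} h1 h2 =>
    x_ext Fr0.toYFr (fun o i _ => h1 o _) (fun o i k _ _ => h2 o _ _)
  have sadd : ∀ a b, s (a + b) = s a + s b := by
    intro a b
    refine ext0 (fun o m => ?_) (fun o i k => ?_)
    · rw [P1, map_add, map_add, map_add, map_add, map_add, P1, P1]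
    · rw [P2, map_add, map_add, map_add, map_add, map_add, map_add, map_add, P2, P2]
  have ssc : ∀ (r : R) x, s (r • x) = c.κ r • s x := by
    intro r x
    refine ext0 (fun o m => ?_) (fun o i k => ?_)
    · rw [P1, map_smul, map_smul, smul_eq_mul, map_mul, map_smul, map_smul, P1, smul_eq_mul]
    · rw [P2, map_smul, map_smul, map_smul, smul_eq_mul, map_mul, map_smul, map_smul, map_smul, P2,
        smul_eq_mul]
  have sly : ∀ x, s (B.lm G.y x) = B0.lm G0.y (s x) := by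
    intro x
    refine ext0 (fun o m => ?_) (fun o i k => ?_)
    · rw [P1, l_l, l_l, ← pow_succ, ← pow_succ, P1]
    · rw [P2, ← B.comm, l_l, ← pow_succ, ← B0.comm, l_l, ← pow_succ, P2]
  have sry : ∀ x, s (B.rm (op G.y) x) = B0.rm (op G0.y) (s x) := by
    intro x
    refine ext0 (fun o m => ?_) (fun o i k => ?_)
    · have hu : χ0 (Fr0.deg o) ≠ 0 := by
        intro h0
        have h1 : χ0 (Fr0.deg o) * χ0 (Fr0.deg o)⁻¹ = 1 := by
          rw [← map_mul, mul_inv_cancel, map_one]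
        rw [h0, zero_mul] at h1
        exact zero_ne_one h1
      refine mul_left_cancel₀ hu ?_
      rw [B0.comm, ← Fr0.cy, l_l, ← pow_succ', P1, P1, B.comm, ← hχ, ← hdeg, ← map_mul,
        ← Fr.cy, l_l, ← pow_succ']
    · rw [P2, r_r, r_r, ← pow_succ, ← pow_succ, P2]
  have sw : ∀ w x, s (wrp G.om B w x) = wrp G0.om B0 w (s x) := by
    intro w x
    refine ext0 (fun o m => ?_) (fun o i k => ?_)
    · rw [P1, w_l, w_l, c_w Fr.toYFr, c_w Fr0.toYFr, P1]
    · rw [P2, w_r, w_l, w_r, w_l, d_w Fr.toYFr, d_w Fr0.toYFr, P2]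
  have slw : ∀ u x, s (B.lm (G.om u) x) = B0.lm (G0.om u) (s x) := by
    intro u x
    have h := sw (u, 1) x
    have e1 : ∀ x, wrp G.om B (u, 1) x = B.lm (G.om u) x := by
      intro x
      show B.lm (G.om u) (B.rm (op (G.om (1 : W)⁻¹)) x) = _
      rw [inv_one, map_one, op_one, map_one]
      rfl
    have e2 : ∀ x, wrp G0.om B0 (u, 1) x = B0.lm (G0.om u) x := by
      intro x
      show B0.lm (G0.om u) (B0.rm (op (G0.om (1 : W)⁻¹)) x) = _
      rw [inv_one, map_one, op_one, map_one]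
      rfl
    rwa [e1, e2] at h
  have srw : ∀ u x, s (B.rm (op (G.om u)) x) = B0.rm (op (G0.om u)) (s x) := by
    intro u x
    have h := sw (1, u⁻¹) x
    have e1 : ∀ x, wrp G.om B (1, u⁻¹) x = B.rm (op (G.om u)) x := by
      intro x
      show B.lm (G.om (1 : W)) (B.rm (op (G.om (u⁻¹)⁻¹)) x) = _
      rw [inv_inv, map_one, map_one]
      rfl
    have e2 : ∀ x, wrp G0.om B0 (1, u⁻¹) x = B0.rm (op (G0.om u)) x := by
      intro x
      show B0.lm (G0.om (1 : W)) (B0.rm (op (G0.om (u⁻¹)⁻¹)) x) = _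
      rw [inv_inv, map_one, map_one]
      rfl
    rwa [e1, e2] at h
  have slp : ∀ (k : ℕ) x, s (B.lm (G.y ^ k) x) = B0.lm (G0.y ^ k) (s x) := by
    intro k
    induction k with
    | zero =>
      intro x
      rw [pow_zero, pow_zero, map_one, map_one]
      rfl
    | succ k ih =>
      intro x
      rw [pow_succ, pow_succ, ← l_l, ← l_l, ih, sly]
  have srp : ∀ (k : ℕ) x, s (B.rm (op (G.y ^ k)) x) = B0.rm (op (G0.y ^ k)) (s x) := by
    intro k
    induction k with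
    | zero =>
      intro x
      rw [pow_zero, pow_zero, op_one, map_one, op_one, map_one]
      rfl
    | succ k ih =>
      intro x
      rw [pow_succ, pow_succ, ← r_r, ← r_r, ih, sry]
  have s0 : s 0 = 0 := by
    have := sadd 0 0
    rw [add_zero] at this
    exact left_eq_add.1 this
  have ssum : ∀ {ι : Type} (t : Finset ι) (g : ι → M), s (∑ i ∈ t, g i) = ∑ i ∈ t, s (g i) := by
    intro ι t g
    exact map_sum (⟨⟨s, s0⟩, sadd⟩ : M →+ M0) g t
  have fsm : ∀ (r : R) (x : Γ), f.q (r • x) = c.κ r • f.q x := by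
    intro r x
    rw [Algebra.smul_def, map_mul, f.sc, ← Algebra.smul_def]
  have hlm : ∀ γ x, s (B.lm γ x) = B0.lm (f.q γ) (s x) := by
    intro γ x
    conv_lhs => rw [← G.ex γ]
    conv_rhs => rw [← G.ex γ]
    rw [map_sum, map_sum, map_sum, LinearMap.sum_apply, LinearMap.sum_apply, ssum]
    refine Finset.sum_congr rfl fun k _ => ?_
    rw [map_sum, map_sum, map_sum, LinearMap.sum_apply, LinearMap.sum_apply, ssum]
    refine Finset.sum_congr rfl fun w _ => ?_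
    rw [map_smul, LinearMap.smul_apply, ssc, fsm, map_smul, LinearMap.smul_apply, ← l_l, slp, slw,
      l_l, map_mul f.q, map_pow f.q, hy, hom]
  have hrm : ∀ γ x, s (B.rm (op γ) x) = B0.rm (op (f.q γ)) (s x) := by
    intro γ x
    conv_lhs => rw [← G.ex γ]
    conv_rhs => rw [← G.ex γ]
    rw [map_sum, Finset.op_sum, Finset.op_sum, map_sum, map_sum, LinearMap.sum_apply,
      LinearMap.sum_apply, ssum]
    refine Finset.sum_congr rfl fun k _ => ?_
    rw [map_sum, Finset.op_sum, Finset.op_sum, map_sum, map_sum, LinearMap.sum_apply,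
      LinearMap.sum_apply, ssum]
    refine Finset.sum_congr rfl fun w _ => ?_
    rw [op_smul, map_smul, LinearMap.smul_apply, ssc, fsm, op_smul, map_smul, LinearMap.smul_apply,
      ← r_r, srp, srw, r_r, map_mul f.q, map_pow f.q, hy, hom]
  have hsurj : Function.Surjective s := by
    intro x0
    choose g hg using c.surj
    refine ⟨Fr.toYFr.el (fun o i => g (Fr0.c o (B0.lm (G0.y ^ (l - 1 - i)) x0)))
      (fun o i k => g (Fr0.d o (B0.lm (G0.y ^ (l - 1 - i))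
        (B0.rm (op (G0.y ^ (l - 1 - k))) x0)))), ?_⟩
    refine x_ext Fr0.toYFr (fun o i hi => ?_) (fun o i k hi hk => ?_)
    · rw [P1, Fr.un1 _ _ o i hi, hg]
    · rw [P2, Fr.un2 _ _ o i k hi hk, hg]
  have hker : ∀ x, s x = 0 → ∃ y, x = c.π • y := by
    intro n hn
    have h1 : ∀ o m, ∃ t, Fr.c o (B.lm (G.y ^ m) n) = c.π * t := by
      intro o m
      rw [← c.ker, ← P1, hn, map_zero, map_zero]
    have h2 : ∀ o a b, ∃ t, Fr.d o (B.lm (G.y ^ a) (B.rm (op (G.y ^ b)) n)) = c.π * t := by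
      intro o a b
      rw [← c.ker, ← P2, hn, map_zero, map_zero, map_zero]
    choose t1 ht1 using h1
    choose t2 ht2 using h2
    refine ⟨Fr.toYFr.el (fun o i => t1 o (l - 1 - i)) (fun o i k => t2 o (l - 1 - i) (l - 1 - k)),
      ?_⟩
    have h3 := Fr.fr n
    rw [LinearMap.id_apply] at h3
    rw [← h3]
    unfold YFr.el
    simp only [ht1, ht2, smul_add, Finset.smul_sum, mul_smul]
  exact ⟨{ s := ⟨⟨s, s0⟩, sadd⟩, sc := ssc, lm := hlm, rm := hrm, surj := hsurj, ker := hker }⟩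

end Pool.Agent.PFE.H21
end
end -- Pool.Agent.Helper21_PFE.XRD

section -- Pool.Agent.Helper28_PFE.MFY

/-! Squad PFE, part E2: row MFY (the family which belongs to a balanced map modulo `p`). -/

set_option autoImplicit false

open scoped BigOperators

noncomputable section

namespace Pool.Agent.PFE.H28

open MulOpposite
open Pool.Agent.PFC.B1 (FS Split BiM Sep)
open Pool.Agent.PFD (RF)
open Pool.Agent.PFD.D2
open Pool.Agent.PFD.D2b (wrp FPl FrR WFS)

/-- congruence modulo `p` -/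
def Cg {R N : Type} [CommRing R] [AddCommGroup N] [Module R N] (p : R) (a b : N) : Prop :=
  ∃ n, a - b = p • n

namespace Cg

variable {R N N' : Type} [CommRing R] [AddCommGroup N] [Module R N] [AddCommGroup N']
  [Module R N'] {p : R}

theorem refl (a : N) : Cg p a a := ⟨0, by rw [sub_self, smul_zero]⟩

theorem of_eq {a b : N} (h : a = b) : Cg p a b := h ▸ refl a

theorem symm {a b : N} (h : Cg p a b) : Cg p b a := by
  obtain ⟨n, hn⟩ := h
  exact ⟨-n, by rw [smul_neg, ← hn, neg_sub]⟩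

theorem trans {a b c : N} (h : Cg p a b) (h' : Cg p b c) : Cg p a c := by
  obtain ⟨n, hn⟩ := h
  obtain ⟨n', hn'⟩ := h'
  exact ⟨n + n', by rw [smul_add, ← hn, ← hn', sub_add_sub_cancel]⟩

theorem map (f : N →ₗ[R] N') {a b : N} (h : Cg p a b) : Cg p (f a) (f b) := by
  obtain ⟨n, hn⟩ := h
  exact ⟨f n, by rw [← map_sub, hn, map_smul]⟩

theorem smul (r : R) {a b : N} (h : Cg p a b) : Cg p (r • a) (r • b) := by
  obtain ⟨n, hn⟩ := h
  exact ⟨r • n, by rw [← smul_sub, hn, smul_comm]⟩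

end Cg

/-- the action of `W × W × W` on a product -/
def act3 (W T T' : Type) [CommGroup W] [MulAction (W × W) T] [MulAction (W × W) T'] :
    MulAction (W × W × W) (T × T') where
  smul := fun h i => (((h.1, h.2.1) : W × W) • i.1, ((h.2.1, h.2.2) : W × W) • i.2)
  one_smul := fun i => Prod.ext (one_smul (W × W) i.1) (one_smul (W × W) i.2)
  mul_smul := fun a b i => Prod.ext (mul_smul ((a.1, a.2.1) : W × W) (b.1, b.2.1) i.1)
    (mul_smul ((a.2.1, a.2.2) : W × W) (b.2.1, b.2.2) i.2)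

/-- `(u, v, w) ↦ (u, w)` -/
def pr13 (W : Type) [CommGroup W] : W × W × W →* W × W where
  toFun := fun h => (h.1, h.2.2)
  map_one' := rfl
  map_mul' := fun _ _ => rfl

section

variable {R Γ W M N : Type} [CommRing R] [CommRing Γ] [Algebra R Γ] [CommGroup W]
  [AddCommGroup M] [Module R M] [AddCommGroup N] [Module R N]

theorem lm_lm (B : BiM R Γ M) (a b : Γ) (n : M) : B.lm a (B.lm b n) = B.lm (a * b) n := by
  rw [map_mul, Module.End.mul_apply]

theorem rm_rm (B : BiM R Γ M) (a b : Γ) (n : M) :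
    B.rm (op a) (B.rm (op b) n) = B.rm (op (a * b)) n := by
  rw [mul_comm a b, op_mul, map_mul, Module.End.mul_apply]

theorem lm_zero (B : BiM R Γ M) (n : M) : B.lm 0 n = 0 := by rw [map_zero, LinearMap.zero_apply]

theorem rm_zero (B : BiM R Γ M) (n : M) : B.rm (op (0 : Γ)) n = 0 := by
  rw [op_zero, map_zero, LinearMap.zero_apply]

theorem wrp_lm (om : W →* Γ) (B : BiM R Γ M) (w : W × W) (a : Γ) (n : M) :
    B.lm a (wrp om B w n) = wrp om B w (B.lm a n) := by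
  change B.lm a (B.lm (om w.1) (B.rm (op (om w.2⁻¹)) n)) =
    B.lm (om w.1) (B.rm (op (om w.2⁻¹)) (B.lm a n))
  rw [← B.comm a, lm_lm, lm_lm, mul_comm]

theorem wrp_rm (om : W →* Γ) (B : BiM R Γ M) (w : W × W) (a : Γ) (n : M) :
    B.rm (op a) (wrp om B w n) = wrp om B w (B.rm (op a) n) := by
  change B.rm (op a) (B.lm (om w.1) (B.rm (op (om w.2⁻¹)) n)) =
    B.lm (om w.1) (B.rm (op (om w.2⁻¹)) (B.rm (op a) n))
  rw [← B.comm, rm_rm, rm_rm, mul_comm]

theorem bal_wrp (om : W →* Γ) {BX : BiM R Γ M} {BN : BiM R Γ N} {p : R} {β : M →ₗ[R] M →ₗ[R] N}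
    (hβ : Bal2P p BX BN β) (u v w : W) (n n' : M) :
    Cg p (β (wrp om BX (u, v) n) (wrp om BX (v, w) n')) (wrp om BN (u, w) (β n n')) := by
  have h1 : Cg p (β (BX.lm (om u) (BX.rm (op (om v⁻¹)) n)) (BX.lm (om v) (BX.rm (op (om w⁻¹)) n')))
      (BN.lm (om u) (β (BX.rm (op (om v⁻¹)) n) (BX.lm (om v) (BX.rm (op (om w⁻¹)) n')))) :=
    hβ.1 _ _ _
  have h2 : Cg p (β (BX.rm (op (om v⁻¹)) n) (BX.lm (om v) (BX.rm (op (om w⁻¹)) n')))
      (β n (BX.lm (om v⁻¹) (BX.lm (om v) (BX.rm (op (om w⁻¹)) n')))) := hβ.2.1 _ _ _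
  have h3 : BX.lm (om v⁻¹) (BX.lm (om v) (BX.rm (op (om w⁻¹)) n')) = BX.rm (op (om w⁻¹)) n' := by
    rw [lm_lm, ← map_mul, inv_mul_cancel, map_one, map_one, Module.End.one_apply]
  rw [h3] at h2
  have h4 : Cg p (β n (BX.rm (op (om w⁻¹)) n')) (BN.rm (op (om w⁻¹)) (β n n')) := hβ.2.2 _ _ _
  exact h1.trans ((h2.trans h4).map _)

end

/-- the sum over the indices of the second kind -/
theorem sum_shift {Ω' N : Type} [Fintype Ω'] [AddCommGroup N] {l : ℕ} (F : Ω' → ℕ → N) (o : Ω')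
    (k : Fin l) (h0 : F o l = 0) (c : Ω' × Fin l → N)
    (hc1 : ∀ p : Ω' × Fin l, o = p.1 → (k : ℕ) + 1 = (p.2 : ℕ) → c p = F p.1 p.2)
    (hc0 : ∀ p : Ω' × Fin l, ¬ (o = p.1 ∧ (k : ℕ) + 1 = (p.2 : ℕ)) → c p = 0) :
    ∑ p, c p = F o ((k : ℕ) + 1) := by
  classical
  by_cases hk : (k : ℕ) + 1 < l
  · rw [Finset.sum_eq_single ((o, ⟨(k : ℕ) + 1, hk⟩) : Ω' × Fin l)]
    · exact hc1 _ rfl rfl
    · intro q _ hq
      apply hc0
      rintro ⟨h1, h2⟩
      apply hq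
      exact Prod.ext h1.symm (Fin.ext h2.symm)
    · intro h
      exact absurd (Finset.mem_univ _) h
  · have hk' : (k : ℕ) + 1 = l := by have := k.2; omega
    rw [hk', h0]
    apply Finset.sum_eq_zero
    intro q _
    apply hc0
    rintro ⟨-, h2⟩
    have := q.2.2
    omega

theorem mfy (hKEF : KefStmt) : MfyStmt := by
  classical
  intro R Γ W M N X Ω Ω' Ω1 Ω1' _ _ _ _ _ _ _ _ _ _ _ _ _ _ _ _ _ _ l G χ BX BN FX FN p β
    hl hχ hu hβ
  letI a11 : MulAction (W × W × W) (Ω × Ω) := act3 W Ω Ω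
  letI a12 : MulAction (W × W × W) (Ω × Ω') := act3 W Ω Ω'
  letI a21 : MulAction (W × W × W) (Ω' × Ω) := act3 W Ω' Ω
  letI a22 : MulAction (W × W × W) (Ω' × Ω') := act3 W Ω' Ω'
  -- powers of `y` at the generators of the first kind
  have hpow : ∀ (o : Ω) (k : ℕ), BX.lm (G.y ^ k) (FX.g o) =
      χ (FX.deg o) ^ k • BX.rm (op (G.y ^ k)) (FX.g o) := by
    intro o k
    induction k with
    | zero => rw [pow_zero, pow_zero, map_one, op_one, map_one, one_smul]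
    | succ k ih =>
      rw [pow_succ', ← lm_lm, ih, map_smul, BX.comm, FX.gy, map_smul, rm_rm, ← pow_succ,
        smul_smul, ← pow_succ, pow_succ' G.y k, ← pow_succ' G.y k]
  have hcc : ∀ x : X, χ x⁻¹ * χ x = 1 := fun x => by rw [← map_mul, inv_mul_cancel, map_one]
  have hy : ∀ k : ℕ, l ≤ k → G.y ^ k = 0 := by
    intro k hk
    obtain ⟨j, rfl⟩ := Nat.exists_eq_add_of_le hk
    rw [pow_add, G.yl, zero_mul]
  -- the lifts
  obtain ⟨-, h11⟩ := hKEF R Γ W N X Ω1 Ω1' (W × W × W) (Ω × Ω) l G χ BN FN (pr13 W)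
    (fun i => FX.deg i.1 * FX.deg i.2) p (fun i => β (FX.g i.1) (FX.g i.2)) hl hχ hu
    (by
      rintro ⟨u, v, w⟩ ⟨o, o'⟩
      change FX.deg ((u, v) • o) * FX.deg ((v, w) • o') = FX.deg o * FX.deg o'
      rw [FX.dg, FX.dg])
    (by
      rintro ⟨u, v, w⟩ ⟨o, o'⟩
      change Cg p (β (FX.g ((u, v) • o)) (FX.g ((v, w) • o'))) (wrp G.om BN (u, w) (β (FX.g o) (FX.g o')))
      rw [FX.gw, FX.gw]
      exact bal_wrp G.om hβ u v w _ _)
  obtain ⟨m11, e11, t11, c11⟩ := h11 (by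
    rintro ⟨o, o'⟩
    change Cg p (BN.lm G.y (β (FX.g o) (FX.g o')))
      (χ (FX.deg o * FX.deg o') • BN.rm (op G.y) (β (FX.g o) (FX.g o')))
    have s1 : Cg p (BN.lm G.y (β (FX.g o) (FX.g o'))) (β (BX.lm G.y (FX.g o)) (FX.g o')) :=
      Cg.symm (hβ.1 _ _ _)
    have s2 : β (BX.lm G.y (FX.g o)) (FX.g o') =
        χ (FX.deg o) • β (BX.rm (op G.y) (FX.g o)) (FX.g o') := by
      rw [FX.gy, map_smul, LinearMap.smul_apply]
    have s3 : Cg p (β (BX.rm (op G.y) (FX.g o)) (FX.g o')) (β (FX.g o) (BX.lm G.y (FX.g o'))) :=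
      hβ.2.1 _ _ _
    have s4 : β (FX.g o) (BX.lm G.y (FX.g o')) =
        χ (FX.deg o') • β (FX.g o) (BX.rm (op G.y) (FX.g o')) := by
      rw [FX.gy, map_smul]
    have s5 : Cg p (β (FX.g o) (BX.rm (op G.y) (FX.g o'))) (BN.rm (op G.y) (β (FX.g o) (FX.g o'))) :=
      hβ.2.2 _ _ _
    rw [s2] at s1
    rw [s4] at s3
    rw [map_mul, ← smul_smul]
    exact s1.trans ((s3.trans (s5.smul _)).smul _))
  obtain ⟨⟨m12, e12, c12⟩, -⟩ := hKEF R Γ W N X Ω1 Ω1' (W × W × W) (Ω × Ω') l G χ BN FN (pr13 W)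
    (fun _ => 1) p (fun i => β (FX.g i.1) (FX.h i.2)) hl hχ hu (fun _ _ => rfl)
    (by
      rintro ⟨u, v, w⟩ ⟨o, o'⟩
      change Cg p (β (FX.g ((u, v) • o)) (FX.h ((v, w) • o'))) (wrp G.om BN (u, w) (β (FX.g o) (FX.h o')))
      rw [FX.gw, FX.hw]
      exact bal_wrp G.om hβ u v w _ _)
  obtain ⟨⟨m21, e21, c21⟩, -⟩ := hKEF R Γ W N X Ω1 Ω1' (W × W × W) (Ω' × Ω) l G χ BN FN (pr13 W)
    (fun _ => 1) p (fun i => β (FX.h i.1) (FX.g i.2)) hl hχ hu (fun _ _ => rfl)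
    (by
      rintro ⟨u, v, w⟩ ⟨o, o'⟩
      change Cg p (β (FX.h ((u, v) • o)) (FX.g ((v, w) • o'))) (wrp G.om BN (u, w) (β (FX.h o) (FX.g o')))
      rw [FX.gw, FX.hw]
      exact bal_wrp G.om hβ u v w _ _)
  have h22 : ∀ k : ℕ, ∃ m : Ω' × Ω' → N,
      (∀ (h : W × W × W) (i : Ω' × Ω'), m (h • i) = wrp G.om BN (pr13 W h) (m i)) ∧
      ∀ i, Cg p (m i) (β (BX.rm (op (G.y ^ k)) (FX.h i.1)) (FX.h i.2)) := by
    intro k
    obtain ⟨h, -⟩ := hKEF R Γ W N X Ω1 Ω1' (W × W × W) (Ω' × Ω') l G χ BN FN (pr13 W)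
      (fun _ => 1) p (fun i => β (BX.rm (op (G.y ^ k)) (FX.h i.1)) (FX.h i.2)) hl hχ hu
      (fun _ _ => rfl)
      (by
        rintro ⟨u, v, w⟩ ⟨o, o'⟩
        change Cg p (β (BX.rm (op (G.y ^ k)) (FX.h ((u, v) • o))) (FX.h ((v, w) • o')))
          (wrp G.om BN (u, w) (β (BX.rm (op (G.y ^ k)) (FX.h o)) (FX.h o')))
        rw [FX.hw, FX.hw, wrp_rm]
        exact bal_wrp G.om hβ u v w _ _)
    exact h
  choose m22 e22 c22 using h22
  -- the family
  obtain ⟨b12, hb12⟩ : ∃ b12 : Ω → Ω' → ℕ → N, b12 = fun o o' k =>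
    χ (FX.deg o)⁻¹ ^ k • BN.lm (G.y ^ k) (m12 (o, o')) := ⟨_, rfl⟩
  obtain ⟨b21, hb21⟩ : ∃ b21 : Ω → Ω' → ℕ → N, b21 = fun o' o k =>
    χ (FX.deg o') ^ k • BN.rm (op (G.y ^ k)) (m21 (o, o')) := ⟨_, rfl⟩
  obtain ⟨b22, hb22⟩ : ∃ b22 : ℕ → Ω' → Ω' → N, b22 = fun j o o' =>
    if j < l then m22 j (o, o') else 0 := ⟨_, rfl⟩
  let μ : Ω ⊕ (Ω' × Fin l) → Ω ⊕ (Ω' × Fin l) → N := fun ξ ξ' =>
    match ξ, ξ' with
    | Sum.inl o, Sum.inl o' => m11 (o, o')
    | Sum.inl o, Sum.inr q => b12 o q.1 q.2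
    | Sum.inr q, Sum.inl o' => b21 o' q.1 q.2
    | Sum.inr q, Sum.inr q' => b22 ((q.2 : ℕ) + q'.2) q.1 q'.1
  have z12 : ∀ o o' (k : ℕ), l ≤ k → b12 o o' k = 0 := by
    intro o o' k hk
    rw [hb12]
    simp only
    rw [hy k hk, lm_zero, smul_zero]
  have z21 : ∀ o o' (k : ℕ), l ≤ k → b21 o o' k = 0 := by
    intro o o' k hk
    rw [hb21]
    simp only
    rw [hy k hk, rm_zero, smul_zero]
  have z22 : ∀ (j : ℕ) o o', l ≤ j → b22 j o o' = 0 := by
    intro j o o' hj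
    rw [hb22]
    simp only
    rw [if_neg (by omega)]
  -- the two sums
  have sP : ∀ η ξ', ∑ ξ, BN.lm (pP G χ FX.deg η ξ) (μ ξ ξ') = (match η with
      | Sum.inl o => χ (FX.deg o)⁻¹ • BN.lm G.y (μ (Sum.inl o) ξ')
      | Sum.inr q => (match ξ' with
        | Sum.inl o' => b21 o' q.1 ((q.2 : ℕ) + 1)
        | Sum.inr q' => b22 ((q.2 : ℕ) + 1 + q'.2) q.1 q'.1)) := by
    intro η ξ'
    rw [Fintype.sum_sum_type]
    rcases η with o | q
    · have h1 : ∑ x : Ω' × Fin l, BN.lm (pP G χ FX.deg (Sum.inl o) (Sum.inr x)) (μ (Sum.inr x) ξ') = 0 :=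
        Finset.sum_eq_zero fun x _ => lm_zero _ _
      rw [h1, add_zero, Finset.sum_eq_single o]
      · change BN.lm (if o = o then χ (FX.deg o)⁻¹ • G.y else 0) _ = _
        rw [if_pos rfl, map_smul, LinearMap.smul_apply]
      · intro o1 _ ho1
        change BN.lm (if o = o1 then χ (FX.deg o)⁻¹ • G.y else 0) _ = _
        rw [if_neg (fun h => ho1 h.symm), lm_zero]
      · intro h
        exact absurd (Finset.mem_univ _) h
    · have h1 : ∑ x : Ω, BN.lm (pP G χ FX.deg (Sum.inr q) (Sum.inl x)) (μ (Sum.inl x) ξ') = 0 :=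
        Finset.sum_eq_zero fun x _ => lm_zero _ _
      rw [h1, zero_add]
      rcases ξ' with o' | q'
      · refine sum_shift (fun o k => b21 o' o k) q.1 q.2 (z21 _ _ _ le_rfl) _ ?_ ?_
        · intro x hx1 hx2
          change BN.lm (if q.1 = x.1 ∧ (q.2 : ℕ) + 1 = (x.2 : ℕ) then (1 : Γ) else 0) _ = _
          rw [if_pos ⟨hx1, hx2⟩, map_one, Module.End.one_apply]
        · intro x hx
          change BN.lm (if q.1 = x.1 ∧ (q.2 : ℕ) + 1 = (x.2 : ℕ) then (1 : Γ) else 0) _ = _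
          rw [if_neg hx, lm_zero]
      · refine sum_shift (fun o k => b22 (k + q'.2) o q'.1) q.1 q.2 (z22 _ _ _ (Nat.le_add_right _ _)) _ ?_ ?_
        · intro x hx1 hx2
          change BN.lm (if q.1 = x.1 ∧ (q.2 : ℕ) + 1 = (x.2 : ℕ) then (1 : Γ) else 0) _ = _
          rw [if_pos ⟨hx1, hx2⟩, map_one, Module.End.one_apply]
        · intro x hx
          change BN.lm (if q.1 = x.1 ∧ (q.2 : ℕ) + 1 = (x.2 : ℕ) then (1 : Γ) else 0) _ = _
          rw [if_neg hx, lm_zero]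
  have sQ : ∀ η ξ', ∑ ξ, BN.rm (op (pQ G χ FX.deg ξ ξ')) (μ η ξ) = (match ξ' with
      | Sum.inl o' => χ (FX.deg o') • BN.rm (op G.y) (μ η (Sum.inl o'))
      | Sum.inr q' => (match η with
        | Sum.inl o => b12 o q'.1 ((q'.2 : ℕ) + 1)
        | Sum.inr q => b22 ((q.2 : ℕ) + ((q'.2 : ℕ) + 1)) q.1 q'.1)) := by
    intro η ξ'
    rw [Fintype.sum_sum_type]
    rcases ξ' with o' | q'
    · have h1 : ∑ x : Ω' × Fin l, BN.rm (op (pQ G χ FX.deg (Sum.inr x) (Sum.inl o'))) (μ η (Sum.inr x)) = 0 :=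
        Finset.sum_eq_zero fun x _ => rm_zero _ _
      rw [h1, add_zero, Finset.sum_eq_single o']
      · change BN.rm (op (if o' = o' then χ (FX.deg o') • G.y else 0)) _ = _
        rw [if_pos rfl, op_smul, map_smul, LinearMap.smul_apply]
      · intro o1 _ ho1
        change BN.rm (op (if o1 = o' then χ (FX.deg o1) • G.y else 0)) _ = _
        rw [if_neg ho1, rm_zero]
      · intro h
        exact absurd (Finset.mem_univ _) h
    · have h1 : ∑ x : Ω, BN.rm (op (pQ G χ FX.deg (Sum.inl x) (Sum.inr q'))) (μ η (Sum.inl x)) = 0 :=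
        Finset.sum_eq_zero fun x _ => rm_zero _ _
      rw [h1, zero_add]
      rcases η with o | q
      · refine sum_shift (fun o' k => b12 o o' k) q'.1 q'.2 (z12 _ _ _ le_rfl) _ ?_ ?_
        · intro x hx1 hx2
          change BN.rm (op (if x.1 = q'.1 ∧ (q'.2 : ℕ) + 1 = (x.2 : ℕ) then (1 : Γ) else 0)) _ = _
          rw [if_pos ⟨hx1.symm, hx2⟩, op_one, map_one, Module.End.one_apply]
        · intro x hx
          change BN.rm (op (if x.1 = q'.1 ∧ (q'.2 : ℕ) + 1 = (x.2 : ℕ) then (1 : Γ) else 0)) _ = _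
          rw [if_neg (fun h => hx ⟨h.1.symm, h.2⟩), rm_zero]
      · refine sum_shift (fun o' k => b22 ((q.2 : ℕ) + k) q.1 o') q'.1 q'.2
          (z22 _ _ _ (Nat.le_add_left _ _)) _ ?_ ?_
        · intro x hx1 hx2
          change BN.rm (op (if x.1 = q'.1 ∧ (q'.2 : ℕ) + 1 = (x.2 : ℕ) then (1 : Γ) else 0)) _ = _
          rw [if_pos ⟨hx1.symm, hx2⟩, op_one, map_one, Module.End.one_apply]
        · intro x hx
          change BN.rm (op (if x.1 = q'.1 ∧ (q'.2 : ℕ) + 1 = (x.2 : ℕ) then (1 : Γ) else 0)) _ = _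
          rw [if_neg (fun h => hx ⟨h.1.symm, h.2⟩), rm_zero]
  refine ⟨μ, ?_, ?_, ?_⟩
  · -- equivariance
    rintro u v w (o | ⟨o, k⟩) (o' | ⟨o', k'⟩)
    · exact e11 (u, v, w) (o, o')
    · change b12 ((u, v) • o) ((v, w) • o') k' = wrp G.om BN (u, w) (b12 o o' k')
      rw [hb12]
      simp only
      have h1 : m12 ((u, v) • o, (v, w) • o') = wrp G.om BN (u, w) (m12 (o, o')) :=
        e12 (u, v, w) (o, o')
      rw [h1, FX.dg, wrp_lm, map_smul]
    · change b21 ((v, w) • o') ((u, v) • o) k = wrp G.om BN (u, w) (b21 o' o k)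
      rw [hb21]
      simp only
      have h1 : m21 ((u, v) • o, (v, w) • o') = wrp G.om BN (u, w) (m21 (o, o')) :=
        e21 (u, v, w) (o, o')
      rw [h1, FX.dg, wrp_rm, map_smul]
    · change b22 ((k : ℕ) + k') ((u, v) • o) ((v, w) • o') =
        wrp G.om BN (u, w) (b22 ((k : ℕ) + k') o o')
      rw [hb22]
      simp only
      have h1 : m22 ((k : ℕ) + k') ((u, v) • o, (v, w) • o') =
          wrp G.om BN (u, w) (m22 ((k : ℕ) + k') (o, o')) := e22 _ (u, v, w) (o, o')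
      split_ifs
      · exact h1
      · rw [map_zero]
  · -- balanced
    intro η ξ'
    rw [sP, sQ]
    rcases η with o | ⟨o, k⟩ <;> rcases ξ' with o' | ⟨o', k'⟩
    · change χ (FX.deg o)⁻¹ • BN.lm G.y (m11 (o, o')) = χ (FX.deg o') • BN.rm (op G.y) (m11 (o, o'))
      have h1 : BN.lm G.y (m11 (o, o')) =
          χ (FX.deg o * FX.deg o') • BN.rm (op G.y) (m11 (o, o')) := t11 (o, o')
      rw [h1, map_mul, smul_smul, ← mul_assoc, hcc, one_mul]
    · change χ (FX.deg o)⁻¹ • BN.lm G.y (b12 o o' k') = b12 o o' ((k' : ℕ) + 1)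
      rw [hb12]
      simp only
      rw [map_smul, smul_smul, lm_lm, ← pow_succ', ← pow_succ']
    · change b21 o' o ((k : ℕ) + 1) = χ (FX.deg o') • BN.rm (op G.y) (b21 o' o k)
      rw [hb21]
      simp only
      rw [map_smul, smul_smul, rm_rm, ← pow_succ', ← pow_succ']
    · change b22 ((k : ℕ) + 1 + k') o o' = b22 ((k : ℕ) + ((k' : ℕ) + 1)) o o'
      rw [show (k : ℕ) + 1 + k' = (k : ℕ) + ((k' : ℕ) + 1) by omega]
  · -- congruence
    rintro (o | ⟨o, k⟩) (o' | ⟨o', k'⟩)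
    · exact c11 (o, o')
    · change Cg p (b12 o o' k') (β (FX.g o) (BX.lm (G.y ^ (k' : ℕ)) (FX.h o')))
      rw [hb12]
      simp only
      have s1 : Cg p (BN.lm (G.y ^ (k' : ℕ)) (m12 (o, o')))
          (BN.lm (G.y ^ (k' : ℕ)) (β (FX.g o) (FX.h o'))) :=
        Cg.map (BN.lm (G.y ^ (k' : ℕ))) (c12 (o, o'))
      have s2 : Cg p (BN.lm (G.y ^ (k' : ℕ)) (β (FX.g o) (FX.h o')))
          (β (BX.lm (G.y ^ (k' : ℕ)) (FX.g o)) (FX.h o')) := Cg.symm (hβ.1 _ _ _)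
      have s3 : Cg p (β (BX.rm (op (G.y ^ (k' : ℕ))) (FX.g o)) (FX.h o'))
          (β (FX.g o) (BX.lm (G.y ^ (k' : ℕ)) (FX.h o'))) := hβ.2.1 _ _ _
      rw [hpow, map_smul, LinearMap.smul_apply] at s2
      refine ((s1.trans s2).smul (χ (FX.deg o)⁻¹ ^ (k' : ℕ))).trans ?_
      rw [smul_smul, ← mul_pow, hcc, one_pow, one_smul]
      exact s3
    · change Cg p (b21 o' o k) (β (BX.rm (op (G.y ^ (k : ℕ))) (FX.h o)) (FX.g o'))
      rw [hb21]
      simp only
      have s1 : Cg p (BN.rm (op (G.y ^ (k : ℕ))) (m21 (o, o')))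
          (BN.rm (op (G.y ^ (k : ℕ))) (β (FX.h o) (FX.g o'))) :=
        Cg.map (BN.rm (op (G.y ^ (k : ℕ)))) (c21 (o, o'))
      have s2 : Cg p (BN.rm (op (G.y ^ (k : ℕ))) (β (FX.h o) (FX.g o')))
          (β (FX.h o) (BX.rm (op (G.y ^ (k : ℕ))) (FX.g o'))) := Cg.symm (hβ.2.2 _ _ _)
      have s3 : Cg p (β (BX.rm (op (G.y ^ (k : ℕ))) (FX.h o)) (FX.g o'))
          (β (FX.h o) (BX.lm (G.y ^ (k : ℕ)) (FX.g o'))) := hβ.2.1 _ _ _
      rw [hpow, map_smul] at s3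
      exact ((s1.trans s2).smul _).trans s3.symm
    · change Cg p (b22 ((k : ℕ) + k') o o')
        (β (BX.rm (op (G.y ^ (k : ℕ))) (FX.h o)) (BX.lm (G.y ^ (k' : ℕ)) (FX.h o')))
      have s3 : Cg p (β (BX.rm (op (G.y ^ (k' : ℕ))) (BX.rm (op (G.y ^ (k : ℕ))) (FX.h o))) (FX.h o'))
          (β (BX.rm (op (G.y ^ (k : ℕ))) (FX.h o)) (BX.lm (G.y ^ (k' : ℕ)) (FX.h o'))) :=
        hβ.2.1 _ _ _
      rw [rm_rm, ← pow_add, add_comm] at s3
      refine Cg.trans ?_ s3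
      rw [hb22]
      simp only
      split_ifs with hk
      · exact c22 _ (o, o')
      · rw [hy _ (by omega), rm_zero, map_zero, LinearMap.zero_apply]
        exact Cg.refl _

end Pool.Agent.PFE.H28
end
end -- Pool.Agent.Helper28_PFE.MFY

section -- Pool.Agent.Helper53_PFE.GWF

/-!
# Squad PFE, row GWF: the algebra `Γ` as a `WFS`
-/

open scoped BigOperators

noncomputable section

namespace Pool.Agent.PFE.H53

open Pool.Agent.PFD.D2b (WFS)

section

variable {R Γ W : Type} [CommRing R] [CommRing Γ] [Algebra R Γ] [CommGroup W] [Fintype W] {l : ℕ}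

open Classical in
theorem co_mon (G : GY R Γ W l) (hl : 1 ≤ l) (m : ℕ) (u : W) :
    G.co (l - 1) 1 (G.y ^ m * G.om u) = if m = l - 1 ∧ u = 1 then 1 else 0 := by
  by_cases hm : m < l
  · have h1 := G.un (fun k w => if k = m ∧ w = u then 1 else 0) (l - 1) 1 (by omega)
    have h2 : ∑ k ∈ Finset.range l, ∑ w, (if k = m ∧ w = u then (1 : R) else 0) •
        (G.y ^ k * G.om w) = G.y ^ m * G.om u := by
      rw [Finset.sum_eq_single m]
      · rw [Finset.sum_eq_single u]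
        · rw [if_pos ⟨rfl, rfl⟩, one_smul]
        · intro w _ hw
          rw [if_neg (fun h => hw h.2), zero_smul]
        · intro h
          exact absurd (Finset.mem_univ u) h
      · intro k _ hk
        refine Finset.sum_eq_zero fun w _ => ?_
        rw [if_neg (fun h => hk h.1), zero_smul]
      · intro h
        exact absurd (Finset.mem_range.2 hm) h
    rw [h2] at h1
    rw [h1]
    by_cases h : m = l - 1 ∧ u = 1
    · rw [if_pos h, if_pos ⟨h.1.symm, h.2.symm⟩]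
    · rw [if_neg h, if_neg (fun h' => h ⟨h'.1.symm, h'.2.symm⟩)]
  · have h3 : G.y ^ m = 0 := by
      have h4 : m = l + (m - l) := by omega
      rw [h4, pow_add, G.yl, zero_mul]
    rw [h3, zero_mul, map_zero, if_neg (fun h => by omega)]

/-- a linear map which fixes the monomials is the identity -/
theorem lin_eq (G : GY R Γ W l) (T : Γ →ₗ[R] Γ)
    (hT : ∀ k, k < l → ∀ v, T (G.y ^ k * G.om v) = G.y ^ k * G.om v) (x : Γ) : T x = x := by
  have h1 := congrArg T (G.ex x)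
  rw [map_sum] at h1
  rw [← h1]
  conv_rhs => rw [← G.ex x]
  refine Finset.sum_congr rfl fun k hk => ?_
  rw [map_sum]
  refine Finset.sum_congr rfl fun w _ => ?_
  rw [map_smul, hT k (Finset.mem_range.1 hk)]

end

theorem gwf : GwfStmt := by
  classical
  intro R Γ W _ _ _ _ _ l G hl
  have key := co_mon G hl
  have e1 : ∀ (i : Fin l) (w : W) (k : ℕ) (v : W),
      G.om w⁻¹ * G.y ^ (l - 1 - (i : ℕ)) * (G.y ^ k * G.om v) =
        G.y ^ (l - 1 - (i : ℕ) + k) * G.om (w⁻¹ * v) := by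
    intro i w k v
    rw [pow_add, map_mul]
    ring
  have e2 : ∀ (i : Fin l) (w : W) (k : ℕ) (v : W),
      G.y ^ k * G.om v * (G.y ^ (i : ℕ) * G.om w) = G.y ^ (k + (i : ℕ)) * G.om (v * w) := by
    intro i w k v
    rw [pow_add, map_mul]
    ring
  refine ⟨{
    lam := G.co (l - 1) 1
    sym := fun x y => by rw [mul_comm]
    om := G.om
    cf := fun i => G.y ^ (i : ℕ)
    cf' := fun i => G.y ^ (l - 1 - (i : ℕ))
    h1 := ?_
    h2 := ?_
    d1 := ?_
    d0 := ?_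
    ph := fun _ => MonoidHom.id W
    phb := fun _ => Function.bijective_id
    nrm := fun i w => by
      rw [MonoidHom.id_apply, mul_comm] }, rfl, rfl, fun _ => rfl, fun _ => rfl⟩
  · -- h1
    let T : Γ →ₗ[R] Γ := ∑ i : Fin l, ∑ w : W, LinearMap.toSpanSingleton R Γ
      (G.y ^ (i : ℕ) * G.om w) ∘ₗ (G.co (l - 1) 1 ∘ₗ
        LinearMap.mulLeft R (G.om w⁻¹ * G.y ^ (l - 1 - (i : ℕ))))
    have hT : ∀ x, T x = ∑ i : Fin l, ∑ w : W,
        G.co (l - 1) 1 (G.om w⁻¹ * G.y ^ (l - 1 - (i : ℕ)) * x) • (G.y ^ (i : ℕ) * G.om w) := by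
      intro x
      simp [T, LinearMap.sum_apply, mul_assoc]
    intro x
    rw [← hT x]
    refine lin_eq G T (fun k hk v => ?_) x
    rw [hT]
    rw [Finset.sum_eq_single (⟨k, hk⟩ : Fin l)]
    · rw [Finset.sum_eq_single v]
      · rw [e1, key, if_pos ⟨by change l - 1 - k + k = l - 1; omega, inv_mul_cancel v⟩, one_smul]
      · intro w _ hw
        rw [e1, key, if_neg (fun h => hw (inv_mul_eq_one.1 h.2)), zero_smul]
      · intro h
        exact absurd (Finset.mem_univ v) h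
    · intro i _ hi
      refine Finset.sum_eq_zero fun w _ => ?_
      rw [e1, key, if_neg (fun h => hi (Fin.ext (by
        have h3 := h.1
        have h4 := i.2
        change (i : ℕ) = k
        omega))), zero_smul]
    · intro h
      exact absurd (Finset.mem_univ _) h
  · -- h2
    let T : Γ →ₗ[R] Γ := ∑ i : Fin l, ∑ w : W, LinearMap.toSpanSingleton R Γ
      (G.om w⁻¹ * G.y ^ (l - 1 - (i : ℕ))) ∘ₗ (G.co (l - 1) 1 ∘ₗ
        LinearMap.mulRight R (G.y ^ (i : ℕ) * G.om w))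
    have hT : ∀ x, T x = ∑ i : Fin l, ∑ w : W,
        G.co (l - 1) 1 (x * (G.y ^ (i : ℕ) * G.om w)) • (G.om w⁻¹ * G.y ^ (l - 1 - (i : ℕ))) := by
      intro x
      simp [T, LinearMap.sum_apply, mul_assoc]
    intro x
    rw [← hT x]
    refine lin_eq G T (fun k hk v => ?_) x
    rw [hT]
    rw [Finset.sum_eq_single (⟨l - 1 - k, by omega⟩ : Fin l)]
    · rw [Finset.sum_eq_single v⁻¹]
      · rw [e2, key, if_pos ⟨by change k + (l - 1 - k) = l - 1; omega, mul_inv_cancel v⟩,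
          one_smul, inv_inv, mul_comm]
        change G.y ^ (l - 1 - (l - 1 - k)) * G.om v = _
        have h5 : l - 1 - (l - 1 - k) = k := by omega
        rw [h5]
      · intro w _ hw
        rw [e2, key, if_neg (fun h => hw (mul_eq_one_iff_eq_inv'.1 h.2)), zero_smul]
      · intro h
        exact absurd (Finset.mem_univ _) h
    · intro i _ hi
      refine Finset.sum_eq_zero fun w _ => ?_
      rw [e2, key, if_neg (fun h => hi (Fin.ext (by
        have h3 := h.1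
        have h4 := i.2
        change (i : ℕ) = l - 1 - k
        omega))), zero_smul]
    · intro h
      exact absurd (Finset.mem_univ _) h
  · intro i w
    rw [e1, key, if_pos ⟨by have := i.2; omega, inv_mul_cancel w⟩]
  · intro i j u w h
    rw [e1, key, if_neg]
    rintro ⟨h1, h2⟩
    rcases h with h | h
    · refine h (Fin.ext ?_)
      have h3 := i.2
      have h4 := j.2
      omega
    · exact h (inv_mul_eq_one.1 h2)

end Pool.Agent.PFE.H53
end
end -- Pool.Agent.Helper53_PFE.GWF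

section -- Pool.Agent.Helper59_PFE.XEX

/-!
# Squad PFE, row XEX: a bimodule with a given basis (helper59)

`M = (Ω → Fin l → R) × (Ω' → Fin l → Fin l → R)`, `y` shifts the indices, `W × W` permutes `Ω`, `Ω'`.
-/

open scoped BigOperators

noncomputable section

namespace Pool.Agent.PFE.H59

open MulOpposite
open Pool.Agent.PFC.B1 (FS Split BiM Sep)
open Pool.Agent.PFD.D2b (wrp FPl FrR WFS)

section shift

variable {l : ℕ} {A : Type} [Zero A]

/-- shift by `k` -/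
def shf (k : ℕ) (f : Fin l → A) : Fin l → A :=
  fun i => if k ≤ (i : ℕ) then f ⟨(i : ℕ) - k, lt_of_le_of_lt (Nat.sub_le _ _) i.2⟩ else 0

theorem shf_zero (f : Fin l → A) : shf 0 f = f := by
  funext i
  simp [shf]

theorem shf_shf (a b : ℕ) (f : Fin l → A) : shf a (shf b f) = shf (a + b) f := by
  funext i
  unfold shf
  by_cases h1 : a ≤ (i : ℕ)
  · by_cases h2 : b ≤ (i : ℕ) - a
    · have h3 : a + b ≤ (i : ℕ) := by omega
      simp only [h1, h2, h3, if_true]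
      congr 1
      apply Fin.ext
      simp only
      omega
    · have h3 : ¬ a + b ≤ (i : ℕ) := by omega
      simp only [h1, h2, h3, if_true, if_false]
  · have h3 : ¬ a + b ≤ (i : ℕ) := by omega
    simp only [h1, h3, if_false]

theorem shf_big (k : ℕ) (hk : l ≤ k) (f : Fin l → A) : shf k f = 0 := by
  funext i
  have : ¬ k ≤ (i : ℕ) := by have := i.2; omega
  simp [shf, this]

end shift

section defs

variable {R Ω Ω' : Type} [CommRing R] {l : ℕ}

/-- the module -/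
abbrev MM (R Ω Ω' : Type) (l : ℕ) : Type := (Ω → Fin l → R) × (Ω' → Fin l → Fin l → R)

/-- the left operator `y^k` -/
def opl (k : ℕ) : MM R Ω Ω' l →ₗ[R] MM R Ω Ω' l where
  toFun n := (fun o => shf k (n.1 o), fun o => shf k (n.2 o))
  map_add' n m := by
    ext o i
    · simp only [shf, Prod.fst_add, Pi.add_apply]
      split_ifs <;> simp
    · simp only [shf, Prod.snd_add, Pi.add_apply]
      split_ifs <;> simp
  map_smul' r n := by
    ext o i
    · simp only [shf, Prod.smul_fst, Pi.smul_apply, RingHom.id_apply]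
      split_ifs <;> simp
    · simp only [shf, Prod.smul_snd, Pi.smul_apply, RingHom.id_apply]
      split_ifs <;> simp

/-- the right operator `y^k` -/
def opr (c : Ω → R) (k : ℕ) : MM R Ω Ω' l →ₗ[R] MM R Ω Ω' l where
  toFun n := (fun o i => c o ^ k * shf k (n.1 o) i, fun o i => shf k (n.2 o i))
  map_add' n m := by
    ext o i
    · simp only [shf, Prod.fst_add, Pi.add_apply]
      split_ifs <;> simp [mul_add]
    · simp only [shf, Prod.snd_add, Pi.add_apply]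
      split_ifs <;> simp
  map_smul' r n := by
    ext o i
    · simp only [shf, Prod.smul_fst, Pi.smul_apply, RingHom.id_apply, smul_eq_mul]
      split_ifs
      · ring
      · simp
    · simp only [shf, Prod.smul_snd, Pi.smul_apply, RingHom.id_apply, smul_eq_mul]
      split_ifs <;> simp

theorem opl_zero : (opl 0 : MM R Ω Ω' l →ₗ[R] MM R Ω Ω' l) = LinearMap.id := by
  apply LinearMap.ext
  intro n
  show ((fun o => shf 0 (n.1 o), fun o => shf 0 (n.2 o)) : MM R Ω Ω' l) = n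
  simp only [shf_zero]

theorem opl_mul (a b : ℕ) (n : MM R Ω Ω' l) : opl a (opl b n) = opl (a + b) n := by
  show ((fun o => shf a (shf b (n.1 o)), fun o => shf a (shf b (n.2 o))) : MM R Ω Ω' l) =
    (fun o => shf (a + b) (n.1 o), fun o => shf (a + b) (n.2 o))
  simp only [shf_shf]

theorem opr_zero (c : Ω → R) : (opr c 0 : MM R Ω Ω' l →ₗ[R] MM R Ω Ω' l) = LinearMap.id := by
  apply LinearMap.ext
  intro n
  show ((fun o i => c o ^ 0 * shf 0 (n.1 o) i, fun o i => shf 0 (n.2 o i)) : MM R Ω Ω' l) = n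
  simp only [shf_zero, pow_zero, one_mul]

theorem shf_smul (k : ℕ) (r : R) (f : Fin l → R) (i : Fin l) :
    shf k (fun j => r * f j) i = r * shf k f i := by
  unfold shf
  split_ifs <;> simp

theorem opr_mul (c : Ω → R) (a b : ℕ) (n : MM R Ω Ω' l) :
    opr c a (opr c b n) = opr c (a + b) n := by
  show ((fun o i => c o ^ a * shf a (fun j => c o ^ b * shf b (n.1 o) j) i,
      fun o i => shf a (shf b (n.2 o i))) : MM R Ω Ω' l) =
    (fun o i => c o ^ (a + b) * shf (a + b) (n.1 o) i, fun o i => shf (a + b) (n.2 o i))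
  refine Prod.ext ?_ ?_
  · funext o i
    show c o ^ a * shf a (fun j => c o ^ b * shf b (n.1 o) j) i = _
    rw [shf_smul]
    show _ = c o ^ (a + b) * shf (a + b) (n.1 o) i
    rw [← shf_shf]
    ring
  · simp only [shf_shf]

theorem opl_pow (k : ℕ) : ((opl 1 : Module.End R (MM R Ω Ω' l)) ^ k) = opl k := by
  induction k with
  | zero => rw [pow_zero, opl_zero]; rfl
  | succ k ih =>
    apply LinearMap.ext
    intro n
    rw [pow_succ, Module.End.mul_apply, ih, opl_mul]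

theorem opr_pow (c : Ω → R) (k : ℕ) :
    ((opr c 1 : Module.End R (MM R Ω Ω' l)) ^ k) = opr c k := by
  induction k with
  | zero => rw [pow_zero, opr_zero]; rfl
  | succ k ih =>
    apply LinearMap.ext
    intro n
    rw [pow_succ, Module.End.mul_apply, ih, opr_mul]

theorem opl_big : (opl l : MM R Ω Ω' l →ₗ[R] MM R Ω Ω' l) = 0 := by
  apply LinearMap.ext
  intro n
  show ((fun o => shf l (n.1 o), fun o => shf l (n.2 o)) : MM R Ω Ω' l) = 0
  simp only [shf_big l le_rfl]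
  rfl

theorem opr_big (c : Ω → R) : (opr c l : MM R Ω Ω' l →ₗ[R] MM R Ω Ω' l) = 0 := by
  apply LinearMap.ext
  intro n
  show ((fun o i => c o ^ l * shf l (n.1 o) i, fun o i => shf l (n.2 o i)) : MM R Ω Ω' l) = 0
  simp only [shf_big l le_rfl, Pi.zero_apply, mul_zero]
  rfl

theorem opl_opr (c : Ω → R) (a b : ℕ) (n : MM R Ω Ω' l) :
    opl a (opr c b n) = opr c b (opl a n) := by
  refine Prod.ext ?_ ?_
  · funext o i
    show shf a (fun j => c o ^ b * shf b (n.1 o) j) i = c o ^ b * shf b (shf a (n.1 o)) i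
    rw [shf_smul, shf_shf, shf_shf, add_comm]
  · funext o i k
    show shf a (fun j => shf b (n.2 o j)) i k = shf b (shf a (n.2 o) i) k
    unfold shf
    by_cases h1 : a ≤ (i : ℕ) <;> by_cases h2 : b ≤ (k : ℕ) <;> simp [h1, h2]

section action

variable {W : Type} [CommGroup W] [MulAction (W × W) Ω] [MulAction (W × W) Ω']

/-- the action of `W × W` -/
def act : W × W →* Module.End R (MM R Ω Ω' l) where
  toFun w :=
    { toFun := fun n => (fun o => n.1 (w⁻¹ • o), fun o => n.2 (w⁻¹ • o))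
      map_add' := fun n m => rfl
      map_smul' := fun r n => rfl }
  map_one' := by
    apply LinearMap.ext
    intro n
    show ((fun o => n.1 ((1 : W × W)⁻¹ • o), fun o => n.2 ((1 : W × W)⁻¹ • o)) : MM R Ω Ω' l) = n
    simp only [inv_one, one_smul]
  map_mul' u v := by
    apply LinearMap.ext
    intro n
    show ((fun o => n.1 ((u * v)⁻¹ • o), fun o => n.2 ((u * v)⁻¹ • o)) : MM R Ω Ω' l) =
      (fun o => n.1 (v⁻¹ • u⁻¹ • o), fun o => n.2 (v⁻¹ • u⁻¹ • o))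
    simp only [mul_inv_rev, mul_smul]

theorem act_act (u v : W × W) (n : MM R Ω Ω' l) : act u (act v n) = act (u * v) n := by
  rw [map_mul, Module.End.mul_apply]

theorem act_opl (w : W × W) (k : ℕ) (n : MM R Ω Ω' l) : act w (opl k n) = opl k (act w n) := rfl

theorem act_opr (c : Ω → R) (hc : ∀ (w : W × W) (o : Ω), c (w • o) = c o) (w : W × W) (k : ℕ)
    (n : MM R Ω Ω' l) : act w (opr c k n) = opr c k (act w n) := by
  refine Prod.ext ?_ ?_
  · funext o i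
    show c (w⁻¹ • o) ^ k * shf k (n.1 (w⁻¹ • o)) i = c o ^ k * shf k (n.1 (w⁻¹ • o)) i
    rw [hc]
  · rfl

end action

end defs

/-! ## The basis -/

open Classical in
/-- the basis vectors of the first kind -/
def gg (R : Type) [CommRing R] {Ω : Type} (Ω' : Type) (l : ℕ) (o : Ω) : MM R Ω Ω' l :=
  (fun o' i => if o' = o ∧ (i : ℕ) = 0 then 1 else 0, 0)

open Classical in
/-- the basis vectors of the second kind -/
def hh (R : Type) [CommRing R] (Ω : Type) {Ω' : Type} (l : ℕ) (o : Ω') : MM R Ω Ω' l :=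
  (0, fun o' i k => if o' = o ∧ (i : ℕ) = 0 ∧ (k : ℕ) = 0 then 1 else 0)

section basis

variable {R Ω Ω' : Type} [CommRing R] {l : ℕ}

open Classical in
theorem opl_gg (k : ℕ) (o : Ω) : opl k (gg R Ω' l o) =
    ((fun o' i => if o' = o ∧ (i : ℕ) = k then 1 else 0, 0) : MM R Ω Ω' l) := by
  refine Prod.ext ?_ ?_
  · funext o' i
    show shf k (fun i : Fin l => if o' = o ∧ (i : ℕ) = 0 then (1 : R) else 0) i =
      if o' = o ∧ (i : ℕ) = k then 1 else 0
    unfold shf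
    by_cases h1 : k ≤ (i : ℕ)
    · rw [if_pos h1]
      have : ((i : ℕ) - k = 0) ↔ ((i : ℕ) = k) := by omega
      simp only [this]
    · rw [if_neg h1, if_neg]
      rintro ⟨-, h⟩
      omega
  · funext o' i
    show shf k (fun _ : Fin l => (0 : Fin l → R)) i = 0
    unfold shf
    split_ifs <;> rfl

theorem opr_gg (c : Ω → R) (k : ℕ) (o : Ω) : opr c k (gg R Ω' l o) =
    c o ^ k • opl k (gg R Ω' l o) := by
  classical
  rw [opl_gg]
  refine Prod.ext ?_ ?_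
  · funext o' i
    show c o' ^ k * shf k (fun i : Fin l => if o' = o ∧ (i : ℕ) = 0 then (1 : R) else 0) i =
      c o ^ k * (if o' = o ∧ (i : ℕ) = k then 1 else 0)
    have : shf k (fun i : Fin l => if o' = o ∧ (i : ℕ) = 0 then (1 : R) else 0) i =
      (if o' = o ∧ (i : ℕ) = k then 1 else 0) := by
      have h := congrArg (fun n : MM R Ω Ω' l => n.1 o' i) (opl_gg (R := R) (Ω' := Ω') (l := l) k o)
      exact h
    rw [this]
    by_cases h : o' = o
    · subst h; rfl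
    · simp [h]
  · funext o' i j
    show shf k (fun _ : Fin l => (0 : R)) j = c o ^ k * 0
    unfold shf
    split_ifs <;> simp

open Classical in
theorem opl_opr_hh (c : Ω → R) (k m : ℕ) (o : Ω') : opl k (opr c m (hh R Ω l o)) =
    ((0, fun o' i j => if o' = o ∧ (i : ℕ) = k ∧ (j : ℕ) = m then 1 else 0) : MM R Ω Ω' l) := by
  refine Prod.ext ?_ ?_
  · funext o' i
    show shf k (fun j => c o' ^ m * shf m (fun _ : Fin l => (0 : R)) j) i = 0
    unfold shf
    split_ifs <;> simp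
  · funext o' i j
    show shf k (fun i' => shf m (fun j' : Fin l =>
      if o' = o ∧ (i' : ℕ) = 0 ∧ (j' : ℕ) = 0 then (1 : R) else 0)) i j =
      if o' = o ∧ (i : ℕ) = k ∧ (j : ℕ) = m then 1 else 0
    unfold shf
    by_cases h1 : k ≤ (i : ℕ)
    · rw [if_pos h1]
      dsimp only
      by_cases h2 : m ≤ (j : ℕ)
      · rw [if_pos h2]
        have e1 : ((i : ℕ) - k = 0) ↔ ((i : ℕ) = k) := by omega
        have e2 : ((j : ℕ) - m = 0) ↔ ((j : ℕ) = m) := by omega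
        simp only [e1, e2]
      · rw [if_neg h2, if_neg]
        rintro ⟨-, -, h⟩
        omega
    · rw [if_neg h1, if_neg]
      · rfl
      · rintro ⟨-, h, -⟩
        omega

variable {W : Type} [CommGroup W] [MulAction (W × W) Ω] [MulAction (W × W) Ω']

theorem act_gg (w : W × W) (o : Ω) : act w (gg R Ω' l o) = gg R Ω' l (w • o) := by
  classical
  refine Prod.ext ?_ rfl
  funext o' i
  show (if w⁻¹ • o' = o ∧ (i : ℕ) = 0 then (1 : R) else 0) =
    if o' = w • o ∧ (i : ℕ) = 0 then 1 else 0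
  simp only [inv_smul_eq_iff]

theorem act_hh (w : W × W) (o : Ω') : act w (hh R Ω l o) = hh R Ω l (w • o) := by
  classical
  refine Prod.ext rfl ?_
  funext o' i k
  show (if w⁻¹ • o' = o ∧ (i : ℕ) = 0 ∧ (k : ℕ) = 0 then (1 : R) else 0) =
    if o' = w • o ∧ (i : ℕ) = 0 ∧ (k : ℕ) = 0 then 1 else 0
  simp only [inv_smul_eq_iff]

/-- the functionals of the first kind -/
def cc (R : Type) [CommRing R] {Ω : Type} (Ω' : Type) {l : ℕ} (hl : 1 ≤ l) (o : Ω) :
    MM R Ω Ω' l →ₗ[R] R where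
  toFun n := n.1 o ⟨l - 1, by omega⟩
  map_add' _ _ := rfl
  map_smul' _ _ := rfl

/-- the functionals of the second kind -/
def dd (R : Type) [CommRing R] (Ω : Type) {Ω' : Type} {l : ℕ} (hl : 1 ≤ l) (o : Ω') :
    MM R Ω Ω' l →ₗ[R] R where
  toFun n := n.2 o ⟨l - 1, by omega⟩ ⟨l - 1, by omega⟩
  map_add' _ _ := rfl
  map_smul' _ _ := rfl

theorem cc_act (hl : 1 ≤ l) (w : W × W) (o : Ω) (n : MM R Ω Ω' l) :
    cc R Ω' hl (w • o) (act w n) = cc R Ω' hl o n := by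
  show n.1 (w⁻¹ • w • o) _ = n.1 o _
  rw [inv_smul_smul]

theorem dd_act (hl : 1 ≤ l) (w : W × W) (o : Ω') (n : MM R Ω Ω' l) :
    dd R Ω hl (w • o) (act w n) = dd R Ω hl o n := by
  show n.2 (w⁻¹ • w • o) _ _ = n.2 o _ _
  rw [inv_smul_smul]

theorem cc_opl (hl : 1 ≤ l) (o : Ω) (i : ℕ) (hi : i < l) (n : MM R Ω Ω' l) :
    cc R Ω' hl o (opl (l - 1 - i) n) = n.1 o ⟨i, hi⟩ := by
  show shf (l - 1 - i) (n.1 o) ⟨l - 1, _⟩ = n.1 o ⟨i, hi⟩
  unfold shf
  rw [if_pos (by simp)]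
  have h : l - 1 - (l - 1 - i) = i := by omega
  simp only [h]

theorem dd_opl (c : Ω → R) (hl : 1 ≤ l) (o : Ω') (i k : ℕ) (hi : i < l) (hk : k < l)
    (n : MM R Ω Ω' l) :
    dd R Ω hl o (opl (l - 1 - i) (opr c (l - 1 - k) n)) = n.2 o ⟨i, hi⟩ ⟨k, hk⟩ := by
  show shf (l - 1 - i) (fun i' => shf (l - 1 - k) (n.2 o i')) ⟨l - 1, _⟩ ⟨l - 1, _⟩ =
    n.2 o ⟨i, hi⟩ ⟨k, hk⟩
  unfold shf
  rw [if_pos (by simp)]
  dsimp only
  rw [if_pos (by simp)]
  have h : l - 1 - (l - 1 - i) = i := by omega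
  have h' : l - 1 - (l - 1 - k) = k := by omega
  simp only [h, h']

theorem cc_opr (c : Ω → R) (hl : 1 ≤ l) (o : Ω) (n : MM R Ω Ω' l) :
    cc R Ω' hl o (opr c 1 n) = c o * cc R Ω' hl o (opl 1 n) := by
  show c o ^ 1 * _ = c o * _
  rw [pow_one]
  rfl

variable [Fintype Ω] [Fintype Ω']

/-- the element with given coordinates -/
theorem el_eq (c : Ω → R) (a : Ω → ℕ → R) (a' : Ω' → ℕ → ℕ → R) :
    ∑ o, ∑ i ∈ Finset.range l, a o i • opl i (gg R Ω' l o) +
      ∑ o, ∑ i ∈ Finset.range l, ∑ k ∈ Finset.range l,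
        a' o i k • opl i (opr c k (hh R Ω l o)) =
    ((fun o i => a o i, fun o i k => a' o i k) : MM R Ω Ω' l) := by
  classical
  refine Prod.ext ?_ ?_
  · funext o i
    have h1 : (∑ o, ∑ i ∈ Finset.range l, ∑ k ∈ Finset.range l,
        a' o i k • opl i (opr c k (hh R Ω l o)) : MM R Ω Ω' l).1 = 0 := by
      simp only [Prod.fst_sum]
      refine Finset.sum_eq_zero fun o _ => Finset.sum_eq_zero fun i _ =>
        Finset.sum_eq_zero fun k _ => ?_
      rw [opl_opr_hh, Prod.smul_fst, smul_zero]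
    rw [Prod.fst_add, h1, add_zero]
    simp only [Prod.fst_sum, Finset.sum_apply, Prod.smul_fst, Pi.smul_apply, opl_gg, smul_eq_mul,
      mul_ite, mul_one, mul_zero]
    rw [Finset.sum_eq_single o, Finset.sum_eq_single (i : ℕ)]
    · simp
    · intro j _ hj
      rw [if_neg]
      rintro ⟨-, h⟩
      exact hj h.symm
    · intro h
      exact absurd (Finset.mem_range.2 i.2) h
    · intro o' _ ho'
      refine Finset.sum_eq_zero fun j _ => ?_
      rw [if_neg]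
      rintro ⟨h, -⟩
      exact ho' h.symm
    · intro h
      exact absurd (Finset.mem_univ _) h
  · funext o i k
    have h1 : (∑ o, ∑ i ∈ Finset.range l, a o i • opl i (gg R Ω' l o) : MM R Ω Ω' l).2 = 0 := by
      simp only [Prod.snd_sum]
      refine Finset.sum_eq_zero fun o _ => Finset.sum_eq_zero fun i _ => ?_
      rw [opl_gg, Prod.smul_snd, smul_zero]
    rw [Prod.snd_add, h1, zero_add]
    simp only [Prod.snd_sum, Finset.sum_apply, Prod.smul_snd, Pi.smul_apply, opl_opr_hh,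
      smul_eq_mul, mul_ite, mul_one, mul_zero]
    rw [Finset.sum_eq_single o, Finset.sum_eq_single (i : ℕ), Finset.sum_eq_single (k : ℕ)]
    · simp
    · intro j _ hj
      rw [if_neg]
      rintro ⟨-, -, h⟩
      exact hj h.symm
    · intro h
      exact absurd (Finset.mem_range.2 k.2) h
    · intro j _ hj
      refine Finset.sum_eq_zero fun j' _ => ?_
      rw [if_neg]
      rintro ⟨-, h, -⟩
      exact hj h.symm
    · intro h
      exact absurd (Finset.mem_range.2 i.2) h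
    · intro o' _ ho'
      refine Finset.sum_eq_zero fun j _ => Finset.sum_eq_zero fun j' _ => ?_
      rw [if_neg]
      rintro ⟨h, -⟩
      exact ho' h.symm
    · intro h
      exact absurd (Finset.mem_univ _) h

end basis

/-- Row XEX. -/
theorem xex (gup : GupStmt) : XexStmt := by
  intro R Γ W X Ω Ω' _ _ _ _ _ _ _ _ _ _ l G χ deg hl hdeg hfo hfo'
  have hdeg' : ∀ (w : W × W) (o : Ω), χ (deg (w • o))⁻¹ = χ (deg o)⁻¹ := by
    intro w o
    rw [hdeg]
  obtain ⟨ρl, hly, hlw⟩ := gup R Γ W (Module.End R (MM R Ω Ω' l)) l G (opl 1)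
    (act.comp (MonoidHom.inl W W)) hl (by rw [opl_pow, opl_big]) (fun w => by
      apply LinearMap.ext
      intro n
      rfl)
  obtain ⟨ρr, hry, hrw⟩ := gup R Γ W (Module.End R (MM R Ω Ω' l)) l G
    (opr (fun o => χ (deg o)⁻¹) 1)
    ((act.comp (MonoidHom.inr W W)).comp (invMonoidHom : W →* W)) hl
    (by rw [opr_pow, opr_big]) (fun w => by
      apply LinearMap.ext
      intro n
      exact (act_opr _ hdeg' _ 1 n).symm)
  have hsp : ∀ γ : Γ, γ ∈ Submodule.span R (Set.range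
      (fun p : ℕ × W => G.y ^ p.1 * G.om p.2)) := by
    intro γ
    rw [← G.ex γ]
    refine Submodule.sum_mem _ fun k _ => Submodule.sum_mem _ fun w _ =>
      Submodule.smul_mem _ _ (Submodule.subset_span ⟨(k, w), rfl⟩)
  have hcomm : ∀ (a b : Γ) (n : MM R Ω Ω' l), ρl a (ρr b n) = ρr b (ρl a n) := by
    intro a b n
    refine Submodule.span_induction (p := fun x _ => ρl x (ρr b n) = ρr b (ρl x n)) ?_ ?_ ?_ ?_
      (hsp a)
    · rintro _ ⟨⟨k, w⟩, rfl⟩
      refine Submodule.span_induction (p := fun x _ => ρl (G.y ^ k * G.om w) (ρr x n) =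
        ρr x (ρl (G.y ^ k * G.om w) n)) ?_ ?_ ?_ ?_ (hsp b)
      · rintro _ ⟨⟨m, v⟩, rfl⟩
        rw [map_mul, map_mul, map_pow, map_pow, hly, hry, hlw, hrw, opl_pow, opr_pow]
        show opl k (act (w, 1) (opr _ m (act (1, v⁻¹) n))) =
          opr _ m (act (1, v⁻¹) (opl k (act (w, 1) n)))
        rw [act_opr _ hdeg', act_opl, opl_opr, act_act, act_act, mul_comm]
      · simp
      · intro x y _ _ hx hy
        rw [map_add, LinearMap.add_apply, LinearMap.add_apply, map_add, hx, hy]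
      · intro r x _ hx
        rw [map_smul, LinearMap.smul_apply, LinearMap.smul_apply, map_smul, hx]
    · simp
    · intro x y _ _ hx hy
      rw [map_add, LinearMap.add_apply, LinearMap.add_apply, map_add, hx, hy]
    · intro r x _ hx
      rw [map_smul, LinearMap.smul_apply, LinearMap.smul_apply, map_smul, hx]
  let B : BiM R Γ (MM R Ω Ω' l) :=
    { lm := ρl
      rm := ρr.comp ((AlgEquiv.toOpposite R Γ).symm : Γᵐᵒᵖ →ₐ[R] Γ)
      comm := fun a b x => hcomm a b.unop x }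
  have hBl : ∀ k n, B.lm (G.y ^ k) n = opl k n := by
    intro k n
    show ρl (G.y ^ k) n = _
    rw [map_pow, hly, opl_pow]
  have hBr : ∀ k n, B.rm (op (G.y ^ k)) n = opr (fun o => χ (deg o)⁻¹) k n := by
    intro k n
    show ρr (G.y ^ k) n = _
    rw [map_pow, hry, opr_pow]
  have hBl1 : ∀ n, B.lm G.y n = opl 1 n := by
    intro n
    rw [← hBl, pow_one]
  have hBr1 : ∀ n, B.rm (op G.y) n = opr (fun o => χ (deg o)⁻¹) 1 n := by
    intro n
    rw [← hBr, pow_one]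
  have hwrp : ∀ (w : W × W) n, wrp G.om B w n = act w n := by
    intro w n
    show ρl (G.om w.1) (ρr (G.om w.2⁻¹) n) = act w n
    rw [hlw, hrw]
    show act (w.1, 1) (act (1, (w.2⁻¹)⁻¹) n) = act w n
    rw [act_act, Prod.mk_mul_mk, mul_one, one_mul, inv_inv]
  have hχ : ∀ x : X, χ x * χ x⁻¹ = 1 := by
    intro x
    rw [← map_mul, mul_inv_cancel, map_one]
  let Y0 : YFr Ω Ω' G χ B LinearMap.id :=
    { deg := deg
      dg := hdeg
      fo := hfo
      fo' := hfo'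
      g := gg R Ω' l
      gw := fun w o => by rw [hwrp, act_gg]
      gy := fun o => by
        rw [hBl1, hBr1, opr_gg, pow_one, smul_smul, hχ, one_smul]
      c := cc R Ω' hl
      cw := fun w o n => by rw [hwrp, cc_act]
      cy := fun o n => by
        rw [hBl1, hBr1, cc_opr, ← mul_assoc, hχ, one_mul]
      h := hh R Ω l
      hw := fun w o => by rw [hwrp, act_hh]
      d := dd R Ω hl
      dw := fun w o n => by rw [hwrp, dd_act]
      fr := fun n => by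
        simp only [hBl, hBr]
        rw [LinearMap.id_apply]
        have h := el_eq (R := R) (Ω := Ω) (Ω' := Ω') (l := l) (fun o => χ (deg o)⁻¹)
          (fun o i => if h : i < l then n.1 o ⟨i, h⟩ else 0)
          (fun o i k => if h : i < l ∧ k < l then n.2 o ⟨i, h.1⟩ ⟨k, h.2⟩ else 0)
        refine Eq.trans ?_ (h.trans ?_)
        · congr 1
          · refine Finset.sum_congr rfl fun o _ => Finset.sum_congr rfl fun i hi => ?_
            rw [Finset.mem_range] at hi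
            rw [cc_opl hl o i hi, dif_pos hi]
          · refine Finset.sum_congr rfl fun o _ => Finset.sum_congr rfl fun i hi =>
              Finset.sum_congr rfl fun k hk => ?_
            rw [Finset.mem_range] at hi hk
            rw [dd_opl _ hl o i k hi hk, dif_pos ⟨hi, hk⟩]
        · refine Prod.ext ?_ ?_
          · funext o i
            exact dif_pos i.2
          · funext o i k
            exact dif_pos ⟨i.2, k.2⟩ }
  have hel : ∀ (a : Ω → ℕ → R) (a' : Ω' → ℕ → ℕ → R), Y0.el a a' =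
      ((fun o i => a o i, fun o i k => a' o i k) : MM R Ω Ω' l) := by
    intro a a'
    rw [← el_eq (fun o => χ (deg o)⁻¹)]
    show ∑ o, ∑ i ∈ Finset.range l, a o i • B.lm (G.y ^ i) (gg R Ω' l o) +
      ∑ o, ∑ i ∈ Finset.range l, ∑ k ∈ Finset.range l,
        a' o i k • B.lm (G.y ^ i) (B.rm (op (G.y ^ k)) (hh R Ω l o)) = _
    simp only [hBl, hBr]
  refine ⟨MM R Ω Ω' l, inferInstance, inferInstance, inferInstance, inferInstance, B,
    { Y0 with
      un1 := fun a a' o i hi => ?_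
      un2 := fun a a' o i k hi hk => ?_ }, rfl⟩
  · show cc R Ω' hl o (B.lm (G.y ^ (l - 1 - i)) (Y0.el a a')) = a o i
    rw [hel, hBl, cc_opl hl o i hi]
  · show dd R Ω hl o (B.lm (G.y ^ (l - 1 - i)) (B.rm (op (G.y ^ (l - 1 - k))) (Y0.el a a'))) =
      a' o i k
    rw [hel, hBl, hBr, dd_opl _ hl o i k hi hk]

end Pool.Agent.PFE.H59
end
end -- Pool.Agent.Helper59_PFE.XEX

section -- Pool.Agent.Helper70_PFE.BBY

/-!
Squad PFE, part E2, row BBY (helper70): balanced bilinear maps from families.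
-/

set_option autoImplicit false

open scoped BigOperators

noncomputable section

namespace Pool.Agent.PFE.H70

open MulOpposite
open Pool.Agent.PFC.B1 (BiM)
open Pool.Agent.PFD.D2
open Pool.Agent.PFD.D2b (wrp)

section

variable {R Γ W N : Type} [CommRing R] [CommRing Γ] [Algebra R Γ] [CommGroup W] [Fintype W]
  [AddCommGroup N] [Module R N]

/-- induction over `Γ` -/
theorem gy_ind {l : ℕ} (G : GY R Γ W l) (P : Γ → Prop) (h1 : P 1) (hy : P G.y)
    (hw : ∀ w, P (G.om w)) (hm : ∀ a b, P a → P b → P (a * b))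
    (ha : ∀ a b, P a → P b → P (a + b)) (h0 : P 0) (hs : ∀ (r : R) a, P a → P (r • a))
    (γ : Γ) : P γ := by
  have hp : ∀ k : ℕ, P (G.y ^ k) := by
    intro k
    induction k with
    | zero => rw [pow_zero]; exact h1
    | succ k ih => rw [pow_succ]; exact hm _ _ ih hy
  rw [← G.ex γ]
  refine Finset.sum_induction _ P ha h0 fun k _ => ?_
  refine Finset.sum_induction _ P ha h0 fun w _ => ?_
  exact hs _ _ (hm _ _ (hp k) (hw w))

theorem wrp_l {l : ℕ} (G : GY R Γ W l) (B : BiM R Γ N) (u : W) (n : N) :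
    wrp G.om B (u, 1) n = B.lm (G.om u) n := by
  show B.lm (G.om u) (B.rm (op (G.om (1 : W)⁻¹)) n) = B.lm (G.om u) n
  rw [inv_one, map_one, op_one, map_one, Module.End.one_apply]

theorem wrp_r {l : ℕ} (G : GY R Γ W l) (B : BiM R Γ N) (v : W) (n : N) :
    wrp G.om B (1, v) n = B.rm (op (G.om v⁻¹)) n := by
  show B.lm (G.om 1) (B.rm (op (G.om v⁻¹)) n) = B.rm (op (G.om v⁻¹)) n
  rw [map_one, map_one, Module.End.one_apply]

theorem lm_mul (B : BiM R Γ N) (a b : Γ) (n : N) : B.lm (a * b) n = B.lm a (B.lm b n) := by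
  rw [map_mul, Module.End.mul_apply]

theorem rm_mul (B : BiM R Γ N) (a b : Γ) (n : N) :
    B.rm (op (a * b)) n = B.rm (op b) (B.rm (op a) n) := by
  rw [op_mul, map_mul, Module.End.mul_apply]

theorem rm_mul' (B : BiM R Γ N) (a b : Γ) (n : N) :
    B.rm (op (a * b)) n = B.rm (op a) (B.rm (op b) n) := by
  rw [mul_comm, rm_mul]

end

theorem bby : BbyStmt := by
  intro R Γ W M N Ξ _ _ _ _ _ _ _ _ _ _ l G BX BN xw L Rr P Q μ hxb hx1 hL1 hR1 hL2 hR2 hL3 hR3
    hM1 hM2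
  have hlmadd : ∀ (a b : Γ) (n : N), BN.lm (a + b) n = BN.lm a n + BN.lm b n := by
    intro a b n
    rw [map_add, LinearMap.add_apply]
  have hlmsmul : ∀ (r : R) (a : Γ) (n : N), BN.lm (r • a) n = r • BN.lm a n := by
    intro r a n
    rw [map_smul, LinearMap.smul_apply]
  have hrmadd : ∀ (a b : Γ) (n : N),
      BN.rm (op (a + b)) n = BN.rm (op a) n + BN.rm (op b) n := by
    intro a b n
    rw [op_add, map_add, LinearMap.add_apply]
  have hrmsmul : ∀ (r : R) (a : Γ) (n : N), BN.rm (op (r • a)) n = r • BN.rm (op a) n := by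
    intro r a n
    rw [op_smul, map_smul, LinearMap.smul_apply]
  let β : M →ₗ[R] M →ₗ[R] N := LinearMap.mk₂ R
    (fun n n' => ∑ ξ, ∑ ξ', BN.lm (L n ξ) (BN.rm (op (Rr n' ξ')) (μ ξ ξ')))
    (fun a b n' => by
      simp only [map_add, Pi.add_apply, LinearMap.add_apply, Finset.sum_add_distrib])
    (fun r a n' => by
      simp only [map_smul, Pi.smul_apply, LinearMap.smul_apply, Finset.smul_sum])
    (fun n a b => by
      simp only [map_add, Pi.add_apply, hrmadd, Finset.sum_add_distrib])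
    (fun r n a => by
      simp only [map_smul, Pi.smul_apply, hrmsmul, Finset.smul_sum])
  have hβ : ∀ n n', β n n' = ∑ ξ, ∑ ξ', BN.lm (L n ξ) (BN.rm (op (Rr n' ξ')) (μ ξ ξ')) :=
    fun n n' => rfl
  have hre : ∀ (w : W × W) (f : Ξ → N), ∑ ξ, f ξ = ∑ ξ, f (xw w ξ) := by
    intro w f
    exact (Function.Bijective.sum_comp (hxb w) f).symm
  -- left
  have hl : ∀ γ n n', β (BX.lm γ n) n' = BN.lm γ (β n n') := by
    intro γ
    refine gy_ind G (fun γ => ∀ n n', β (BX.lm γ n) n' = BN.lm γ (β n n')) ?_ ?_ ?_ ?_ ?_ ?_ ?_ γ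
    · intro n n'
      rw [map_one, map_one, Module.End.one_apply, Module.End.one_apply]
    · intro n n'
      rw [hβ, hβ, map_sum]
      refine Finset.sum_congr rfl fun ξ _ => ?_
      rw [map_sum]
      refine Finset.sum_congr rfl fun ξ' _ => ?_
      rw [hL1, lm_mul]
    · intro u n n'
      rw [hβ, hβ, hre (u, 1), map_sum]
      refine Finset.sum_congr rfl fun ξ _ => ?_
      rw [map_sum]
      refine Finset.sum_congr rfl fun ξ' _ => ?_
      have e1 : L (BX.lm (G.om u) n) (xw (u, 1) ξ) = L n ξ := by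
        rw [← wrp_l, hL3]
      have e2 : μ (xw (u, 1) ξ) ξ' = BN.lm (G.om u) (μ ξ ξ') := by
        have h := hM1 u 1 1 ξ ξ'
        rw [show ((1, 1) : W × W) = 1 from rfl, hx1, wrp_l] at h
        exact h
      rw [e1, e2, ← BN.comm, ← lm_mul, mul_comm, lm_mul]
    · intro a b h1 h2 n n'
      rw [lm_mul, h1, h2, lm_mul]
    · intro a b h1 h2 n n'
      rw [map_add, LinearMap.add_apply, map_add, LinearMap.add_apply, h1, h2, hlmadd]
    · intro n n'
      rw [map_zero, map_zero, LinearMap.zero_apply, LinearMap.zero_apply, map_zero,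
        LinearMap.zero_apply]
    · intro r a h1 n n'
      rw [map_smul, LinearMap.smul_apply, map_smul, LinearMap.smul_apply, h1, hlmsmul]
  -- right
  have hr : ∀ γ n n', β n (BX.rm (op γ) n') = BN.rm (op γ) (β n n') := by
    intro γ
    refine gy_ind G (fun γ => ∀ n n', β n (BX.rm (op γ) n') = BN.rm (op γ) (β n n'))
      ?_ ?_ ?_ ?_ ?_ ?_ ?_ γ
    · intro n n'
      rw [op_one, map_one, map_one, Module.End.one_apply, Module.End.one_apply]
    · intro n n'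
      rw [hβ, hβ, map_sum]
      refine Finset.sum_congr rfl fun ξ _ => ?_
      rw [map_sum]
      refine Finset.sum_congr rfl fun ξ' _ => ?_
      rw [hR1, rm_mul, BN.comm]
    · intro v n n'
      rw [hβ, hβ, map_sum]
      refine Finset.sum_congr rfl fun ξ _ => ?_
      rw [map_sum, hre (1, v⁻¹)]
      refine Finset.sum_congr rfl fun ξ' _ => ?_
      have e1 : Rr (BX.rm (op (G.om v)) n') (xw (1, v⁻¹) ξ') = Rr n' ξ' := by
        have h := hR3 (1, v⁻¹) n' ξ'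
        rw [wrp_r, inv_inv] at h
        exact h
      have e2 : μ ξ (xw (1, v⁻¹) ξ') = BN.rm (op (G.om v)) (μ ξ ξ') := by
        have h := hM1 1 1 v⁻¹ ξ ξ'
        rw [show ((1, 1) : W × W) = 1 from rfl, hx1, wrp_r, inv_inv] at h
        exact h
      rw [e1, e2, ← rm_mul, mul_comm, rm_mul, BN.comm]
    · intro a b h1 h2 n n'
      rw [rm_mul, h2, h1, ← rm_mul]
    · intro a b h1 h2 n n'
      rw [op_add, map_add, LinearMap.add_apply, map_add, h1, h2, ← hrmadd, op_add]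
    · intro n n'
      rw [op_zero, map_zero, map_zero, LinearMap.zero_apply, LinearMap.zero_apply, map_zero]
    · intro r a h1 n n'
      rw [op_smul, map_smul, LinearMap.smul_apply, map_smul, h1, ← hrmsmul, op_smul]
  -- balanced
  have hb : ∀ γ n n', β (BX.rm (op γ) n) n' = β n (BX.lm γ n') := by
    intro γ
    refine gy_ind G (fun γ => ∀ n n', β (BX.rm (op γ) n) n' = β n (BX.lm γ n'))
      ?_ ?_ ?_ ?_ ?_ ?_ ?_ γ
    · intro n n'
      rw [op_one, map_one, map_one, Module.End.one_apply, Module.End.one_apply]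
    · intro n n'
      have s1 : ∀ ξ', ∑ ξ, BN.lm (L (BX.rm (op G.y) n) ξ) (BN.rm (op (Rr n' ξ')) (μ ξ ξ')) =
          ∑ η, ∑ ξ, BN.lm (L n η) (BN.rm (op (Q ξ ξ' * Rr n' ξ')) (μ η ξ)) := by
        intro ξ'
        calc ∑ ξ, BN.lm (L (BX.rm (op G.y) n) ξ) (BN.rm (op (Rr n' ξ')) (μ ξ ξ'))
            = ∑ ξ, ∑ η, BN.lm (L n η) (BN.rm (op (Rr n' ξ')) (BN.lm (P η ξ) (μ ξ ξ'))) := by
              refine Finset.sum_congr rfl fun ξ _ => ?_
              rw [hL2, map_sum, LinearMap.sum_apply]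
              refine Finset.sum_congr rfl fun η _ => ?_
              rw [mul_comm, lm_mul, BN.comm (P η ξ)]
          _ = ∑ η, ∑ ξ, BN.lm (L n η) (BN.rm (op (Rr n' ξ')) (BN.lm (P η ξ) (μ ξ ξ'))) :=
              Finset.sum_comm
          _ = ∑ η, BN.lm (L n η) (BN.rm (op (Rr n' ξ')) (∑ ξ, BN.lm (P η ξ) (μ ξ ξ'))) := by
              refine Finset.sum_congr rfl fun η _ => ?_
              rw [map_sum, map_sum]
          _ = ∑ η, BN.lm (L n η) (BN.rm (op (Rr n' ξ'))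
                (∑ ξ, BN.rm (op (Q ξ ξ')) (μ η ξ))) := by
              refine Finset.sum_congr rfl fun η _ => ?_
              rw [hM2]
          _ = ∑ η, ∑ ξ, BN.lm (L n η) (BN.rm (op (Q ξ ξ' * Rr n' ξ')) (μ η ξ)) := by
              refine Finset.sum_congr rfl fun η _ => ?_
              rw [map_sum, map_sum]
              refine Finset.sum_congr rfl fun ξ _ => ?_
              rw [rm_mul]
      rw [hβ, hβ, Finset.sum_comm, Finset.sum_congr rfl fun ξ' _ => s1 ξ', Finset.sum_comm]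
      refine Finset.sum_congr rfl fun η _ => ?_
      rw [Finset.sum_comm]
      refine Finset.sum_congr rfl fun ξ _ => ?_
      rw [hR2, ← map_sum]
      congr 1
      have hs : ∀ (s : Finset Ξ) (f : Ξ → Γ) (n : N),
          BN.rm (op (∑ i ∈ s, f i)) n = ∑ i ∈ s, BN.rm (op (f i)) n := by
        intro s f n
        classical
        induction s using Finset.induction_on with
        | empty => rw [Finset.sum_empty, Finset.sum_empty, op_zero, map_zero,
            LinearMap.zero_apply]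
        | insert a s ha ih => rw [Finset.sum_insert ha, Finset.sum_insert ha, hrmadd, ih]
      rw [hs]
    · intro v n n'
      rw [hβ, hβ, hre (1, v⁻¹)]
      refine Finset.sum_congr rfl fun ξ _ => ?_
      rw [hre (v⁻¹, 1)]
      refine Finset.sum_congr rfl fun ξ' _ => ?_
      have e1 : L (BX.rm (op (G.om v)) n) (xw (1, v⁻¹) ξ) = L n ξ := by
        have h := hL3 (1, v⁻¹) n ξ
        rw [wrp_r, inv_inv] at h
        exact h
      have e2 : μ (xw (1, v⁻¹) ξ) (xw (v⁻¹, 1) ξ') = μ ξ ξ' := by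
        rw [hM1, show ((1, 1) : W × W) = 1 from rfl, map_one, Module.End.one_apply]
      have e3 : Rr n' (xw (v⁻¹, 1) ξ') = Rr (BX.lm (G.om v) n') ξ' := by
        have h := hR3 (v⁻¹, 1) (BX.lm (G.om v) n') ξ'
        rw [wrp_l, ← lm_mul, ← map_mul, inv_mul_cancel, map_one, map_one,
          Module.End.one_apply] at h
        exact h
      rw [e1, e2, e3]
    · intro a b h1 h2 n n'
      rw [rm_mul, h2, h1, ← lm_mul]
    · intro a b h1 h2 n n'
      rw [op_add, map_add, LinearMap.add_apply, map_add, LinearMap.add_apply, h1, h2, map_add,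
        LinearMap.add_apply, map_add]
    · intro n n'
      rw [op_zero, map_zero, map_zero, LinearMap.zero_apply, LinearMap.zero_apply, map_zero,
        map_zero, LinearMap.zero_apply]
    · intro r a h1 n n'
      rw [op_smul, map_smul, LinearMap.smul_apply, map_smul, LinearMap.smul_apply, h1, map_smul,
        LinearMap.smul_apply, map_smul]
  refine ⟨β, ⟨hl, hb, fun γ n n' => ?_⟩, hβ⟩
  exact hr γ.unop n n'

end Pool.Agent.PFE.H70
end
end -- Pool.Agent.Helper70_PFE.BBY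

section -- Pool.Agent.Helper70_PFE.KEX

/-!
Squad PFE, part E2, row KEX (helper70): the projection to the twisted elements.
-/

set_option autoImplicit false

open scoped BigOperators

noncomputable section

namespace Pool.Agent.PFE.H70.Kex

open MulOpposite
open Pool.Agent.PFC.B1 (BiM)
open Pool.Agent.PFD.D2b (wrp)

section abs

variable {R N : Type} [CommRing R] [AddCommGroup N] [Module R N]

/-- the multiples of `p` -/
def Pm (p : R) (N : Type) [AddCommGroup N] [Module R N] : Submodule R N :=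
  LinearMap.range (LinearMap.lsmul R N p)

theorem mem_Pm (p : R) (n : N) : n ∈ Pm p N ↔ ∃ m, p • m = n := Iff.rfl

theorem map_Pm {N' : Type} [AddCommGroup N'] [Module R N'] (p : R) (f : N →ₗ[R] N') {n : N}
    (h : n ∈ Pm p N) : f n ∈ Pm p N' := by
  obtain ⟨m, rfl⟩ := h
  exact ⟨f m, (map_smul f p m).symm⟩

theorem smul_Pm (p : R) {r : R} (n : N) (h : r ∈ Pm p R) : r • n ∈ Pm p N := by
  obtain ⟨t, rfl⟩ := h
  exact ⟨t • n, by
    show p • t • n = (p • t) • n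
    rw [smul_assoc]⟩

/-- the twisted trace operator -/
def TT (l : ℕ) (c : R) (Lo Ro : Module.End R N) : Module.End R N :=
  ∑ j ∈ Finset.range l, c ^ (l - 1 - j) • (Lo ^ j * Ro ^ (l - 1 - j))

theorem TT_tw {l : ℕ} (c : R) (Lo Ro : Module.End R N) (hc : Commute Lo Ro) (hL : Lo ^ l = 0)
    (hR : Ro ^ l = 0) : Lo * TT l c Lo Ro = c • (Ro * TT l c Lo Ro) := by
  obtain ⟨f, hf⟩ : ∃ f : ℕ → Module.End R N, f = fun j => c ^ (l - j) • (Lo ^ j * Ro ^ (l - j)) :=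
    ⟨_, rfl⟩
  have h1 : Lo * TT l c Lo Ro = ∑ j ∈ Finset.range l, f (j + 1) := by
    unfold TT
    rw [Finset.mul_sum]
    refine Finset.sum_congr rfl fun j _ => ?_
    rw [hf]
    show Lo * (c ^ (l - 1 - j) • (Lo ^ j * Ro ^ (l - 1 - j))) =
      c ^ (l - (j + 1)) • (Lo ^ (j + 1) * Ro ^ (l - (j + 1)))
    rw [mul_smul_comm, ← mul_assoc, ← pow_succ', show l - (j + 1) = l - 1 - j by omega]
  have h2 : c • (Ro * TT l c Lo Ro) = ∑ j ∈ Finset.range l, f j := by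
    unfold TT
    rw [Finset.mul_sum, Finset.smul_sum]
    refine Finset.sum_congr rfl fun j hj => ?_
    have hj' : j < l := Finset.mem_range.1 hj
    rw [hf]
    show c • (Ro * (c ^ (l - 1 - j) • (Lo ^ j * Ro ^ (l - 1 - j)))) =
      c ^ (l - j) • (Lo ^ j * Ro ^ (l - j))
    rw [mul_smul_comm, smul_smul, ← mul_assoc, ← (hc.pow_left j).eq, mul_assoc, ← pow_succ',
      ← pow_succ', show l - 1 - j + 1 = l - j by omega]
  have h3 : f 0 = 0 := by
    rw [hf]
    show c ^ (l - 0) • (Lo ^ 0 * Ro ^ (l - 0)) = 0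
    rw [Nat.sub_zero, hR, mul_zero, smul_zero]
  have h4 : f l = 0 := by
    rw [hf]
    show c ^ (l - l) • (Lo ^ l * Ro ^ (l - l)) = 0
    rw [hL, zero_mul, smul_zero]
  have h5 := Finset.sum_range_succ f l
  have h6 := Finset.sum_range_succ' f l
  rw [h4, add_zero] at h5
  rw [h3, add_zero] at h6
  rw [h1, h2, ← h5, ← h6]

/-- powers of a twisted element modulo `p` -/
theorem pow_tw (p c : R) (Lo Ro : Module.End R N) (hc : Commute Lo Ro) (n : N)
    (h : Lo n - c • Ro n ∈ Pm p N) (k : ℕ) : (Lo ^ k) n - c ^ k • (Ro ^ k) n ∈ Pm p N := by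
  induction k with
  | zero =>
    rw [pow_zero, pow_zero, pow_zero, one_smul, sub_self]
    exact Submodule.zero_mem _
  | succ k ih =>
    have e1 : (Lo ^ (k + 1)) n - c ^ (k + 1) • (Ro ^ (k + 1)) n =
        Lo ((Lo ^ k) n - c ^ k • (Ro ^ k) n) + c ^ k • (Ro ^ k) (Lo n - c • Ro n) := by
      have e2 : Lo ((Ro ^ k) n) = (Ro ^ k) (Lo n) := by
        have := congrArg (fun f : Module.End R N => f n) (hc.pow_right k).eq
        exact this
      rw [map_sub, map_sub, map_smul, map_smul, e2, smul_sub, smul_smul, pow_succ' Lo,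
        pow_succ Ro, Module.End.mul_apply, Module.End.mul_apply, ← pow_succ]
      abel
    rw [e1]
    exact Submodule.add_mem _ (map_Pm p Lo ih)
      (Submodule.smul_mem _ _ (map_Pm p (Ro ^ k) h))

variable {Ω Ω' : Type} [Fintype Ω] [Fintype Ω']

open Classical in
/-- the projection -/
def kap (l : ℕ) (c : R) (Lo Ro : Module.End R N) (D : Ω → Prop) (g : Ω → N)
    (co : Ω → (N →ₗ[R] R)) (h : Ω' → N) (d : Ω' → (N →ₗ[R] R)) : Module.End R N :=
  (∑ o, if D o then ∑ i ∈ Finset.range l, ((co o).comp (Lo ^ (l - 1 - i))).smulRight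
      ((Lo ^ i) (g o)) else (co o).smulRight ((Lo ^ (l - 1)) (g o))) +
    ∑ o, ∑ s ∈ Finset.range l, c ^ s • ((d o).comp (Lo ^ (l - 1 - s))).smulRight
      (TT l c Lo Ro ((Ro ^ s) (h o)))

open Classical in
theorem kap_apply (l : ℕ) (c : R) (Lo Ro : Module.End R N) (D : Ω → Prop) (g : Ω → N)
    (co : Ω → (N →ₗ[R] R)) (h : Ω' → N) (d : Ω' → (N →ₗ[R] R)) (n : N) :
    kap l c Lo Ro D g co h d n =
      (∑ o, if D o then ∑ i ∈ Finset.range l, co o ((Lo ^ (l - 1 - i)) n) • (Lo ^ i) (g o)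
        else co o n • (Lo ^ (l - 1)) (g o)) +
      ∑ o, ∑ s ∈ Finset.range l, (c ^ s * d o ((Lo ^ (l - 1 - s)) n)) •
        TT l c Lo Ro ((Ro ^ s) (h o)) := by
  unfold kap
  rw [LinearMap.add_apply, LinearMap.sum_apply, LinearMap.sum_apply]
  congr 1
  · refine Finset.sum_congr rfl fun o _ => ?_
    split_ifs
    · rw [LinearMap.sum_apply]
      rfl
    · rfl
  · refine Finset.sum_congr rfl fun o _ => ?_
    rw [LinearMap.sum_apply]
    refine Finset.sum_congr rfl fun s _ => ?_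
    rw [LinearMap.smul_apply, LinearMap.smulRight_apply, LinearMap.comp_apply, smul_smul]

theorem kap_tw {l : ℕ} (c : R) (Lo Ro : Module.End R N) (hc : Commute Lo Ro) (hL : Lo ^ l = 0)
    (hR : Ro ^ l = 0) (h1 : 1 ≤ l) (D : Ω → Prop) (g : Ω → N) (co : Ω → (N →ₗ[R] R)) (h : Ω' → N)
    (d : Ω' → (N →ₗ[R] R)) (χo uo : Ω → R) (hu : ∀ o, uo o * χo o = 1)
    (hg : ∀ o, Lo (g o) = χo o • Ro (g o)) (hD : ∀ o, D o → χo o = c) (n : N) :
    Lo (kap l c Lo Ro D g co h d n) = c • Ro (kap l c Lo Ro D g co h d n) := by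
  classical
  have hK : ∀ m : N, m ∈ LinearMap.ker (Lo - c • Ro) ↔ Lo m = c • Ro m := by
    intro m
    rw [LinearMap.mem_ker, LinearMap.sub_apply, LinearMap.smul_apply, sub_eq_zero]
  have hLR : ∀ (i : ℕ) (m : N), Ro ((Lo ^ i) m) = (Lo ^ i) (Ro m) := by
    intro i m
    exact (congrArg (fun f : Module.End R N => f m) (hc.pow_left i).eq).symm
  have hLL : ∀ (i : ℕ) (m : N), Lo ((Lo ^ i) m) = (Lo ^ i) (Lo m) := by
    intro i m
    exact congrArg (fun f : Module.End R N => f m) ((Commute.refl Lo).pow_right i).eq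
  rw [← hK, kap_apply]
  refine Submodule.add_mem _ (Submodule.sum_mem _ fun o _ => ?_)
    (Submodule.sum_mem _ fun o _ => Submodule.sum_mem _ fun s _ =>
      Submodule.smul_mem _ _ ((hK _).2 ?_))
  · split_ifs with ho
    · refine Submodule.sum_mem _ fun i _ => Submodule.smul_mem _ _ ((hK _).2 ?_)
      rw [hLL, hg, hD o ho, map_smul, hLR]
    · refine Submodule.smul_mem _ _ ((hK _).2 ?_)
      have e1 : Lo ((Lo ^ (l - 1)) (g o)) = 0 := by
        have e2 : Lo * Lo ^ (l - 1) = 0 := by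
          rw [← pow_succ', show l - 1 + 1 = l by omega, hL]
        exact congrArg (fun f : Module.End R N => f (g o)) e2
      have e3 : Ro ((Lo ^ (l - 1)) (g o)) = 0 := by
        have e4 : χo o • Ro ((Lo ^ (l - 1)) (g o)) = 0 := by
          rw [hLR, ← map_smul, ← hg, ← hLL, e1]
        calc Ro ((Lo ^ (l - 1)) (g o)) = (uo o * χo o) • Ro ((Lo ^ (l - 1)) (g o)) := by
              rw [hu, one_smul]
          _ = 0 := by rw [mul_smul, e4, smul_zero]
      rw [e1, e3, smul_zero]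
  · have := congrArg (fun f : Module.End R N => f ((Ro ^ s) (h o))) (TT_tw c Lo Ro hc hL hR)
    exact this

theorem kap_eq {l : ℕ} (c : R) (Lo Ro ρ : Module.End R N) (hρL : Commute ρ Lo)
    (hρR : Commute ρ Ro) (D : Ω → Prop) (g : Ω → N) (co : Ω → (N →ₗ[R] R)) (h : Ω' → N)
    (d : Ω' → (N →ₗ[R] R)) (w : Equiv.Perm Ω) (w' : Equiv.Perm Ω')
    (hg : ∀ o, g (w o) = ρ (g o)) (hco : ∀ o n, co (w o) (ρ n) = co o n)
    (hh : ∀ o, h (w' o) = ρ (h o)) (hd : ∀ o n, d (w' o) (ρ n) = d o n)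
    (hD : ∀ o, D (w o) ↔ D o) (n : N) :
    kap l c Lo Ro D g co h d (ρ n) = ρ (kap l c Lo Ro D g co h d n) := by
  classical
  have cL : ∀ (i : ℕ) (m : N), (Lo ^ i) (ρ m) = ρ ((Lo ^ i) m) := by
    intro i m
    exact (congrArg (fun f : Module.End R N => f m) (hρL.pow_right i).eq).symm
  have cR : ∀ (i : ℕ) (m : N), (Ro ^ i) (ρ m) = ρ ((Ro ^ i) m) := by
    intro i m
    exact (congrArg (fun f : Module.End R N => f m) (hρR.pow_right i).eq).symm
  have cT : ∀ m : N, TT l c Lo Ro (ρ m) = ρ (TT l c Lo Ro m) := by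
    intro m
    unfold TT
    rw [LinearMap.sum_apply, LinearMap.sum_apply, map_sum]
    refine Finset.sum_congr rfl fun j _ => ?_
    rw [LinearMap.smul_apply, LinearMap.smul_apply, Module.End.mul_apply, Module.End.mul_apply,
      cR, cL, map_smul]
  rw [kap_apply, kap_apply, map_add]
  congr 1
  · rw [← Equiv.sum_comp w, map_sum]
    refine Finset.sum_congr rfl fun o _ => ?_
    by_cases ho : D o
    · rw [if_pos ((hD o).2 ho), if_pos ho, map_sum]
      refine Finset.sum_congr rfl fun i _ => ?_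
      rw [cL, hco, hg, cL, map_smul]
    · rw [if_neg (fun h => ho ((hD o).1 h)), if_neg ho, hco, hg, cL, map_smul]
  · rw [← Equiv.sum_comp w', map_sum]
    refine Finset.sum_congr rfl fun o _ => ?_
    rw [map_sum]
    refine Finset.sum_congr rfl fun s _ => ?_
    rw [cL, hd, hh, cR, cT, map_smul]

theorem kap_cong {l : ℕ} (p c : R) (hcl : c ^ (l - 1) = 1) (Lo Ro : Module.End R N)
    (hc : Commute Lo Ro) (hL : Lo ^ l = 0)
    (hR : Ro ^ l = 0) (h1 : 1 ≤ l) (D : Ω → Prop) (g : Ω → N) (co : Ω → (N →ₗ[R] R)) (h : Ω' → N)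
    (d : Ω' → (N →ₗ[R] R)) (χo : Ω → R) (hχo : ∀ o, ¬ D o → IsUnit (χo o - c))
    (hco : ∀ o n, co o (Lo n) = χo o * co o (Ro n))
    (fr : ∀ n, ∑ o, ∑ i ∈ Finset.range l, co o ((Lo ^ (l - 1 - i)) n) • (Lo ^ i) (g o) +
      ∑ o, ∑ i ∈ Finset.range l, ∑ k ∈ Finset.range l,
        d o ((Lo ^ (l - 1 - i)) ((Ro ^ (l - 1 - k)) n)) • (Lo ^ i) ((Ro ^ k) (h o)) = n)
    (n : N) (hn : Lo n - c • Ro n ∈ Pm p N) :
    kap l c Lo Ro D g co h d n - n ∈ Pm p N := by
  classical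
  have hLp : ∀ m, l ≤ m → Lo ^ m = 0 := by
    intro m hm
    rw [show m = l + (m - l) by omega, pow_add, hL, zero_mul]
  have hRp : ∀ m, l ≤ m → Ro ^ m = 0 := by
    intro m hm
    rw [show m = l + (m - l) by omega, pow_add, hR, zero_mul]
  -- the twisted coordinates
  have hA : ∀ o, ¬ D o → ∀ m, co o ((Lo ^ (m + 1)) n) ∈ Pm p R := by
    intro o ho m
    have e1 : (Lo ^ (m + 1)) n - c • Ro ((Lo ^ m) n) ∈ Pm p N := by
      have e2 : (Lo ^ (m + 1)) n - c • Ro ((Lo ^ m) n) = (Lo ^ m) (Lo n - c • Ro n) := by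
        have e3 : Ro ((Lo ^ m) n) = (Lo ^ m) (Ro n) :=
          (congrArg (fun f : Module.End R N => f n) (hc.pow_left m).eq).symm
        rw [map_sub, map_smul, e3, pow_succ, Module.End.mul_apply]
      rw [e2]
      exact map_Pm p _ hn
    have e4 := map_Pm p (co o) e1
    have e5 : co o ((Lo ^ (m + 1)) n) = χo o * co o (Ro ((Lo ^ m) n)) := by
      rw [← hco, pow_succ', Module.End.mul_apply]
    rw [map_sub, map_smul, smul_eq_mul, e5, ← sub_mul] at e4
    obtain ⟨v, hv⟩ := (hχo o ho).exists_left_inv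
    have e6 : co o (Ro ((Lo ^ m) n)) ∈ Pm p R := by
      have e7 := Submodule.smul_mem _ v e4
      rw [smul_eq_mul, ← mul_assoc, hv, one_mul] at e7
      exact e7
    rw [e5]
    exact Submodule.smul_mem _ (χo o) e6
  -- the free coordinates
  have hB : ∀ k, k < l → (Ro ^ (l - 1 - k)) n - c ^ k • (Lo ^ (l - 1 - k)) n ∈ Pm p N := by
    intro k hk
    have e1 := Submodule.smul_mem _ (c ^ k) (pow_tw p c Lo Ro hc n hn (l - 1 - k))
    rw [smul_sub, smul_smul, ← pow_add, show k + (l - 1 - k) = l - 1 by omega, hcl,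
      one_smul] at e1
    have e2 := Submodule.neg_mem _ e1
    rw [neg_sub] at e2
    exact e2
  have hC : ∀ o i k, k < l → d o ((Lo ^ (l - 1 - i)) ((Ro ^ (l - 1 - k)) n)) -
      c ^ k * d o ((Lo ^ (l - 1 - i + (l - 1 - k))) n) ∈ Pm p R := by
    intro o i k hk
    have e1 := map_Pm p ((d o).comp (Lo ^ (l - 1 - i))) (hB k hk)
    rw [map_sub, map_smul, smul_eq_mul, LinearMap.comp_apply, LinearMap.comp_apply,
      ← Module.End.mul_apply (Lo ^ (l - 1 - i)) (Lo ^ (l - 1 - k)), ← pow_add] at e1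
    exact e1
  -- the double sum
  have hE : ∀ o, ∑ s ∈ Finset.range l, (c ^ s * d o ((Lo ^ (l - 1 - s)) n)) •
        TT l c Lo Ro ((Ro ^ s) (h o)) =
      ∑ i ∈ Finset.range l, ∑ k ∈ Finset.range l,
        (c ^ k * d o ((Lo ^ (l - 1 - i + (l - 1 - k))) n)) • (Lo ^ i) ((Ro ^ k) (h o)) := by
    intro o
    have e1 : ∀ s, (c ^ s * d o ((Lo ^ (l - 1 - s)) n)) • TT l c Lo Ro ((Ro ^ s) (h o)) =
        ∑ i ∈ Finset.range l, (c ^ s * d o ((Lo ^ (l - 1 - s)) n) * c ^ (l - 1 - i)) •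
          (Lo ^ i) ((Ro ^ (l - 1 - i + s)) (h o)) := by
      intro s
      unfold TT
      rw [LinearMap.sum_apply, Finset.smul_sum]
      refine Finset.sum_congr rfl fun i _ => ?_
      rw [LinearMap.smul_apply, smul_smul, Module.End.mul_apply,
        ← Module.End.mul_apply (Ro ^ (l - 1 - i)), ← pow_add]
    rw [Finset.sum_congr rfl fun s _ => e1 s, Finset.sum_comm]
    refine Finset.sum_congr rfl fun i hi => ?_
    have hi' : i < l := Finset.mem_range.1 hi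
    have e2 : ∀ f : ℕ → N, (∀ s, i < s → s < l → f s = 0) →
        ∑ s ∈ Finset.range l, f s = ∑ s ∈ Finset.range (i + 1), f s := by
      intro f hf
      symm
      refine Finset.sum_subset ?_ ?_
      · intro s hs
        rw [Finset.mem_range] at hs ⊢
        omega
      · intro s hs hs'
        rw [Finset.mem_range] at hs hs'
        exact hf s (by omega) hs
    rw [e2]
    · have e3 : l = (l - 1 - i) + (i + 1) := by omega
      have e4 : ∑ k ∈ Finset.range l,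
          (c ^ k * d o ((Lo ^ (l - 1 - i + (l - 1 - k))) n)) • (Lo ^ i) ((Ro ^ k) (h o)) =
          ∑ s ∈ Finset.range (i + 1), (c ^ (l - 1 - i + s) *
            d o ((Lo ^ (l - 1 - i + (l - 1 - (l - 1 - i + s)))) n)) •
            (Lo ^ i) ((Ro ^ (l - 1 - i + s)) (h o)) := by
        have e5 := Finset.sum_range_add (fun k =>
          (c ^ k * d o ((Lo ^ (l - 1 - i + (l - 1 - k))) n)) • (Lo ^ i) ((Ro ^ k) (h o)))
          (l - 1 - i) (i + 1)
        rw [← e3] at e5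
        rw [e5, Finset.sum_eq_zero, zero_add]
        intro k hk
        rw [Finset.mem_range] at hk
        rw [hLp _ (by omega), LinearMap.zero_apply, map_zero, mul_zero, zero_smul]
      rw [e4]
      refine Finset.sum_congr rfl fun s hs => ?_
      rw [Finset.mem_range] at hs
      rw [show l - 1 - i + (l - 1 - (l - 1 - i + s)) = l - 1 - s by omega, pow_add]
      congr 1
      ring
    · intro s hs1 hs2
      rw [hRp _ (by omega), LinearMap.zero_apply, map_zero, smul_zero]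
  rw [kap_apply]
  conv =>
    enter [2, 2]
    rw [← fr n]
  rw [add_sub_add_comm, ← Finset.sum_sub_distrib, ← Finset.sum_sub_distrib]
  refine Submodule.add_mem _ (Submodule.sum_mem _ fun o _ => ?_)
    (Submodule.sum_mem _ fun o _ => ?_)
  · split_ifs with ho
    · rw [sub_self]
      exact Submodule.zero_mem _
    · have e3 : l = (l - 1) + 1 := by omega
      have e4 : ∑ i ∈ Finset.range l, co o ((Lo ^ (l - 1 - i)) n) • (Lo ^ i) (g o) =
          ∑ i ∈ Finset.range (l - 1), co o ((Lo ^ (l - 1 - i)) n) • (Lo ^ i) (g o) +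
            co o n • (Lo ^ (l - 1)) (g o) := by
        have e5 := Finset.sum_range_succ (fun i =>
          co o ((Lo ^ (l - 1 - i)) n) • (Lo ^ i) (g o)) (l - 1)
        rw [← e3, Nat.sub_self, pow_zero, Module.End.one_apply] at e5
        exact e5
      rw [e4, sub_add_cancel_right]
      refine Submodule.neg_mem _ (Submodule.sum_mem _ fun i hi => ?_)
      rw [Finset.mem_range] at hi
      refine smul_Pm p _ ?_
      have e6 := hA o ho (l - 1 - i - 1)
      rw [show l - 1 - i - 1 + 1 = l - 1 - i by omega] at e6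
      exact e6
  · rw [hE, ← Finset.sum_sub_distrib]
    refine Submodule.sum_mem _ fun i _ => ?_
    rw [← Finset.sum_sub_distrib]
    refine Submodule.sum_mem _ fun k hk => ?_
    rw [Finset.mem_range] at hk
    rw [← sub_smul]
    refine smul_Pm p _ ?_
    have e6 := Submodule.neg_mem _ (hC o i k hk)
    rw [neg_sub] at e6
    exact e6

end abs

theorem kex : KexStmt := by
  intro R Γ W N X Ω Ω' _ _ _ _ _ _ _ _ _ _ _ _ l G χ B F hl hχl hχu x
  have hyn : ∀ m, l ≤ m → G.y ^ m = 0 := by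
    intro m hm
    rw [show m = l + (m - l) by omega, pow_add, G.yl, zero_mul]
  let Lo : Module.End R N := B.lm G.y
  let Ro : Module.End R N := B.rm (op G.y)
  have hLi : ∀ i, B.lm (G.y ^ i) = Lo ^ i := fun i => map_pow _ _ _
  have hRi : ∀ i, B.rm (op (G.y ^ i)) = Ro ^ i := by
    intro i
    rw [op_pow, map_pow]
  have hc : Commute Lo Ro := by
    refine LinearMap.ext fun n => ?_
    exact B.comm G.y (op G.y) n
  have hL : Lo ^ l = 0 := by rw [← hLi, G.yl, map_zero]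
  have hR : Ro ^ l = 0 := by rw [← hRi, G.yl, op_zero, map_zero]
  have hwL : ∀ w, Commute (wrp G.om B w) Lo := by
    intro w
    refine LinearMap.ext fun n => ?_
    show B.lm (G.om w.1) (B.rm (op (G.om w.2⁻¹)) (B.lm G.y n)) =
      B.lm G.y (B.lm (G.om w.1) (B.rm (op (G.om w.2⁻¹)) n))
    rw [← B.comm G.y, ← Module.End.mul_apply, ← map_mul, mul_comm, map_mul,
      Module.End.mul_apply]
  have hwR : ∀ w, Commute (wrp G.om B w) Ro := by
    intro w
    refine LinearMap.ext fun n => ?_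
    show B.lm (G.om w.1) (B.rm (op (G.om w.2⁻¹)) (B.rm (op G.y) n)) =
      B.rm (op G.y) (B.lm (G.om w.1) (B.rm (op (G.om w.2⁻¹)) n))
    rw [← B.comm (G.om w.1) (op G.y), ← Module.End.mul_apply (B.rm (op (G.om w.2⁻¹))),
      ← map_mul, ← Module.End.mul_apply (B.rm (op G.y)), ← map_mul, ← op_mul, ← op_mul,
      mul_comm]
  have hinv : ∀ a : X, χ a⁻¹ * χ a = 1 := by
    intro a
    rw [← map_mul, inv_mul_cancel, map_one]
  refine ⟨kap l (χ x) Lo Ro (fun o => F.deg o = x) F.g F.c F.h F.d, ?_, ?_, ?_⟩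
  · intro w n
    refine kap_eq (χ x) Lo Ro _ (hwL w) (hwR w) _ _ _ _ _ (MulAction.toPerm w)
      (MulAction.toPerm w) ?_ ?_ ?_ ?_ ?_ n
    · intro o
      exact F.gw w o
    · intro o m
      exact F.cw w o m
    · intro o
      exact F.hw w o
    · intro o m
      exact F.dw w o m
    · intro o
      rw [MulAction.toPerm_apply, F.dg]
  · intro n
    refine kap_tw (χ x) Lo Ro hc hL hR (by omega) _ _ _ _ _ (fun o => χ (F.deg o))
      (fun o => χ (F.deg o)⁻¹) (fun o => hinv _) (fun o => F.gy o) ?_ n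
    intro o ho
    rw [ho]
  · intro p n hn
    obtain ⟨m, hm⟩ := hn
    have e1 : kap l (χ x) Lo Ro (fun o => F.deg o = x) F.g F.c F.h F.d n - n ∈ Pm p N := by
      refine kap_cong p (χ x) (hχl x) Lo Ro hc hL hR (by omega) _ _ _ _ _
        (fun o => χ (F.deg o)) ?_ (fun o m => F.cy o m) ?_ n ⟨m, hm.symm⟩
      · intro o ho
        have h0 : χ (F.deg o) * χ (x * (F.deg o)⁻¹) = χ x := by
          rw [mul_comm, ← map_mul, inv_mul_cancel_right]
        have h1 : χ (F.deg o) - χ x = χ (F.deg o) * (1 - χ (x * (F.deg o)⁻¹)) := by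
          rw [mul_sub, mul_one, h0]
        rw [h1]
        refine IsUnit.mul (IsUnit.of_mul_eq_one (χ (F.deg o)⁻¹) ?_) (hχu _ ?_)
        · rw [mul_comm, hinv]
        · intro h2
          refine ho ?_
          rw [← mul_inv_eq_one.1 h2]
      · intro m
        have h1 := F.fr m
        simp only [hLi, hRi] at h1
        exact h1
    obtain ⟨m', hm'⟩ := e1
    exact ⟨m', hm'.symm⟩

end Pool.Agent.PFE.H70.Kex
end
end -- Pool.Agent.Helper70_PFE.KEX

section -- Pool.Agent.Helper69_PFE.LRC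

/-! Squad PFE, block E2, row LRC: the rules of the coordinates over `R[y]`. -/

open scoped BigOperators

noncomputable section

namespace Pool.Agent.PFE.H69

open MulOpposite
open Pool.Agent.PFC.B1 (BiM)
open Pool.Agent.PFD.D2b (wrp)

section

variable {R Γ W N X Ω Ω' : Type} [CommRing R] [CommRing Γ] [Algebra R Γ] [CommGroup W] [Fintype W]
    [AddCommGroup N] [Module R N] [Group X] [Fintype Ω] [Fintype Ω'] [MulAction (W × W) Ω]
    [MulAction (W × W) Ω'] {l : ℕ} {G : GY R Γ W l} {χ : X →* R} {B : BiM R Γ N}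
    {q : N →ₗ[R] N}

theorem shf (y : Γ) (hl : 1 ≤ l) (hy : y ^ l = 0) (g h : ℕ → R) (g0 : g 0 = 0)
    (gh : ∀ i, i + 1 < l → g (i + 1) = h i) :
    ∑ i ∈ Finset.range l, g i • y ^ i = y * ∑ i ∈ Finset.range l, h i • y ^ i := by
  obtain ⟨L, rfl⟩ : ∃ L, l = L + 1 := ⟨l - 1, by omega⟩
  rw [Finset.sum_range_succ', Finset.sum_range_succ, g0, zero_smul, add_zero, mul_add,
    Finset.mul_sum, mul_smul_comm, ← pow_succ', hy, smul_zero, add_zero]
  refine Finset.sum_congr rfl fun i hi => ?_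
  rw [gh i (by simpa using hi), mul_smul_comm, ← pow_succ']

theorem ll (a b : Γ) (n : N) : B.lm a (B.lm b n) = B.lm (a * b) n := by
  rw [map_mul, Module.End.mul_apply]

theorem rr (a b : Γ) (n : N) : B.rm (op a) (B.rm (op b) n) = B.rm (op (a * b)) n := by
  rw [mul_comm, op_mul, map_mul, Module.End.mul_apply]

theorem yz (G : GY R Γ W l) {m : ℕ} (h : l ≤ m) : G.y ^ m = 0 := pow_eq_zero_of_le h G.yl

theorem wl (w : W × W) (a : Γ) (n : N) : B.lm a (wrp G.om B w n) = wrp G.om B w (B.lm a n) := by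
  show B.lm a (B.lm (G.om w.1) (B.rm (op (G.om w.2⁻¹)) n)) =
    B.lm (G.om w.1) (B.rm (op (G.om w.2⁻¹)) (B.lm a n))
  rw [← B.comm, ll, ll, mul_comm]

theorem wr (w : W × W) (a : Γ) (n : N) :
    B.rm (op a) (wrp G.om B w n) = wrp G.om B w (B.rm (op a) n) := by
  show B.rm (op a) (B.lm (G.om w.1) (B.rm (op (G.om w.2⁻¹)) n)) =
    B.lm (G.om w.1) (B.rm (op (G.om w.2⁻¹)) (B.rm (op a) n))
  rw [← B.comm, rr, rr, mul_comm]

theorem rms (a : ℕ → R) (n : N) : B.rm (op (∑ i ∈ Finset.range l, a i • G.y ^ i)) n =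
    ∑ i ∈ Finset.range l, a i • B.rm (op (G.y ^ i)) n := by
  have h : op (∑ i ∈ Finset.range l, a i • G.y ^ i) =
      ∑ i ∈ Finset.range l, a i • op (G.y ^ i) :=
    map_sum (opAddEquiv : Γ ≃+ Γᵐᵒᵖ) _ _
  rw [h, map_sum, LinearMap.sum_apply]
  simp only [map_smul, LinearMap.smul_apply]

theorem chu (χ : X →* R) (x : X) : χ x⁻¹ * χ x = 1 := by
  rw [← map_mul, inv_mul_cancel, map_one]

theorem gyi (F : YFr Ω Ω' G χ B q) (o : Ω) (i : ℕ) :
    B.lm (G.y ^ i) (F.g o) = χ (F.deg o) ^ i • B.rm (op (G.y ^ i)) (F.g o) := by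
  induction i with
  | zero => simp
  | succ i ih =>
    have e1 : B.lm (G.y ^ (i + 1)) (F.g o) = B.lm G.y (B.lm (G.y ^ i) (F.g o)) := by
      rw [ll, pow_succ']
    rw [e1, ih, map_smul, B.comm, F.gy, map_smul, rr, smul_smul, ← pow_succ, ← pow_succ]

theorem cyr (F : YFr Ω Ω' G χ B q) (o : Ω) (m : ℕ) (n : N) :
    χ (F.deg o) * F.c o (B.lm (G.y ^ m) (B.rm (op G.y) n)) = F.c o (B.lm (G.y ^ (m + 1)) n) := by
  rw [B.comm, ← F.cy, ll, ← pow_succ']

theorem cyr' (F : YFr Ω Ω' G χ B q) (o : Ω) (m : ℕ) (n : N) :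
    F.c o (B.lm (G.y ^ m) (B.rm (op G.y) n)) =
      χ (F.deg o)⁻¹ * F.c o (B.lm (G.y ^ (m + 1)) n) := by
  rw [← cyr, ← mul_assoc, chu, one_mul]

end

theorem lrc : LrcStmt := by
  classical
  intro R Γ W N X Ω Ω' _ _ _ _ _ _ _ _ _ _ _ _ l G χ B q F hl
  refine ⟨?_, ?_, ?_, ?_, ?_, ?_, ?_, ?_, ?_, ?_⟩
  · intro n
    rw [← F.fr n, Fintype.sum_sum_type, Fintype.sum_prod_type]
    congr 1
    · refine Finset.sum_congr rfl fun o _ => ?_
      simp only [YFr.L, YFr.gl, Sum.elim_inl, map_sum, map_smul, LinearMap.sum_apply,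
        LinearMap.smul_apply]
    · refine Finset.sum_congr rfl fun o _ => ?_
      rw [Finset.sum_comm' (s := Finset.range l) (t := fun _ => Finset.range l)
        (t' := Finset.range l) (s' := fun _ => Finset.range l) (by simp)]
      rw [Finset.sum_range]
      refine Finset.sum_congr rfl fun k _ => ?_
      simp only [YFr.L, YFr.gl, Sum.elim_inr, map_sum, map_smul, LinearMap.sum_apply,
        LinearMap.smul_apply]
  · intro n
    rw [← F.fr n, Fintype.sum_sum_type, Fintype.sum_prod_type]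
    congr 1
    · refine Finset.sum_congr rfl fun o _ => ?_
      simp only [YFr.Rr, YFr.gr, Sum.elim_inl, rms]
      refine Finset.sum_congr rfl fun i _ => ?_
      rw [gyi, smul_smul, mul_comm]
    · refine Finset.sum_congr rfl fun o _ => ?_
      rw [Finset.sum_range]
      refine Finset.sum_congr rfl fun k _ => ?_
      simp only [YFr.Rr, YFr.gr, Sum.elim_inr, rms, B.comm]
  · rintro n (o | ⟨o, k⟩)
    · refine shf G.y hl G.yl _ _ ?_ ?_
      · show F.c o (B.lm _ (B.lm _ n)) = 0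
        rw [ll, ← pow_succ, yz G (by omega), map_zero, LinearMap.zero_apply, map_zero]
      · intro i hi
        show F.c o (B.lm _ (B.lm _ n)) = _
        rw [ll, ← pow_succ, show l - 1 - (i + 1) + 1 = l - 1 - i by omega]
    · refine shf G.y hl G.yl _ _ ?_ ?_
      · show F.d o (B.lm _ (B.rm _ (B.lm _ n))) = 0
        rw [← B.comm, ll, ← pow_succ, yz G (by omega), map_zero, LinearMap.zero_apply, map_zero]
      · intro i hi
        show F.d o (B.lm _ (B.rm _ (B.lm _ n))) = _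
        rw [← B.comm, ll, ← pow_succ, show l - 1 - (i + 1) + 1 = l - 1 - i by omega]
  · rintro n (o | ⟨o, k⟩)
    · rw [mul_comm]
      refine shf G.y hl G.yl _ _ ?_ ?_
      · show χ (F.deg o) ^ 0 * F.c o (B.lm _ (B.rm _ n)) = 0
        rw [cyr', yz G (by omega), map_zero, LinearMap.zero_apply, map_zero, mul_zero, mul_zero]
      · intro i hi
        show χ (F.deg o) ^ (i + 1) * F.c o (B.lm _ (B.rm _ n)) = _
        rw [pow_succ, mul_assoc, cyr, show l - 1 - (i + 1) + 1 = l - 1 - i by omega]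
    · rw [mul_comm]
      refine shf G.y hl G.yl _ _ ?_ ?_
      · show F.d o (B.lm _ (B.rm _ (B.rm _ n))) = 0
        rw [rr, ← pow_succ, yz G (show l ≤ l - 1 - 0 + 1 by omega), op_zero, map_zero,
          LinearMap.zero_apply, map_zero, map_zero]
      · intro i hi
        show F.d o (B.lm _ (B.rm _ (B.rm _ n))) = _
        rw [rr, ← pow_succ, show l - 1 - (i + 1) + 1 = l - 1 - i by omega]
  · rintro n (o | ⟨o, k⟩)
    · rw [Fintype.sum_sum_type]
      have e1 : ∀ o' : Ω, pP (Ω' := Ω') G χ F.deg (Sum.inl o') (Sum.inl o) * F.L n (Sum.inl o') =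
          if o' = o then (χ (F.deg o)⁻¹ • G.y) * F.L n (Sum.inl o) else 0 := by
        intro o'
        show (if o' = o then _ else _) * _ = _
        split_ifs with h
        · rw [h]
        · rw [zero_mul]
      have e2 : ∀ p : Ω' × Fin l, pP G χ F.deg (Sum.inr p) (Sum.inl o) * F.L n (Sum.inr p) = 0 := by
        intro p
        exact zero_mul _
      rw [Finset.sum_congr rfl fun o' _ => e1 o', Finset.sum_congr rfl fun p _ => e2 p,
        Finset.sum_const_zero, add_zero, Finset.sum_ite_eq' Finset.univ o, if_pos (Finset.mem_univ _),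
        smul_mul_assoc, ← mul_smul_comm]
      have e3 : χ (F.deg o)⁻¹ • F.L n (Sum.inl o) = ∑ i ∈ Finset.range l,
          (χ (F.deg o)⁻¹ * F.c o (B.lm (G.y ^ (l - 1 - i)) n)) • G.y ^ i := by
        show χ (F.deg o)⁻¹ • ∑ i ∈ Finset.range l, _ = _
        rw [Finset.smul_sum]
        simp only [smul_smul]
      rw [e3]
      refine shf G.y hl G.yl _ _ ?_ ?_
      · show F.c o (B.lm _ (B.rm _ n)) = 0
        rw [cyr', yz G (by omega), map_zero, LinearMap.zero_apply, map_zero, mul_zero]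
      · intro i hi
        show F.c o (B.lm _ (B.rm _ n)) = _
        rw [cyr', show l - 1 - (i + 1) + 1 = l - 1 - i by omega]
    · rw [Fintype.sum_sum_type]
      have e1 : ∀ o' : Ω, pP G χ F.deg (Sum.inl o') (Sum.inr (o, k)) * F.L n (Sum.inl o') = 0 := by
        intro o'
        exact zero_mul _
      have e2 : ∀ p : Ω' × Fin l, pP G χ F.deg (Sum.inr p) (Sum.inr (o, k)) * F.L n (Sum.inr p) =
          if p.1 = o ∧ (p.2 : ℕ) + 1 = (k : ℕ) then F.L n (Sum.inr p) else 0 := by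
        intro p
        show (if p.1 = o ∧ (p.2 : ℕ) + 1 = (k : ℕ) then 1 else 0) * _ = _
        split_ifs with h
        · rw [one_mul]
        · rw [zero_mul]
      rw [Finset.sum_congr rfl fun o' _ => e1 o', Finset.sum_congr rfl fun p _ => e2 p,
        Finset.sum_const_zero, zero_add]
      have e3 : F.L (B.rm (op G.y) n) (Sum.inr (o, k)) = ∑ i ∈ Finset.range l,
          F.d o (B.lm (G.y ^ (l - 1 - i)) (B.rm (op (G.y ^ (l - 1 - (k : ℕ) + 1))) n)) •
            G.y ^ i := by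
        simp only [YFr.L, Sum.elim_inr, rr, ← pow_succ]
      rw [e3]
      by_cases hk : (k : ℕ) = 0
      · rw [yz G (show l ≤ l - 1 - (k : ℕ) + 1 by omega), Finset.sum_eq_zero, Finset.sum_eq_zero]
        · intro p _
          rw [if_neg]
          rintro ⟨_, h⟩
          omega
        · intro i _
          rw [op_zero, map_zero, LinearMap.zero_apply, map_zero, map_zero, zero_smul]
      · have hk' : (k : ℕ) - 1 < l := by have := k.2; omega
        rw [Finset.sum_eq_single (o, (⟨(k : ℕ) - 1, hk'⟩ : Fin l))]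
        · rw [if_pos ⟨rfl, by show (k : ℕ) - 1 + 1 = (k : ℕ); omega⟩]
          refine Finset.sum_congr rfl fun i _ => ?_
          show _ = F.d o (B.lm (G.y ^ (l - 1 - i)) (B.rm (op (G.y ^ (l - 1 - ((k : ℕ) - 1)))) n)) • _
          rw [show l - 1 - ((k : ℕ) - 1) = l - 1 - (k : ℕ) + 1 by have := k.2; omega]
        · rintro ⟨o', k'⟩ _ hp
          rw [if_neg]
          rintro ⟨h1, h2⟩
          apply hp
          have h2' : (k' : ℕ) + 1 = (k : ℕ) := h2
          have h1' : o' = o := h1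
          rw [h1', Prod.mk.injEq]
          refine ⟨rfl, Fin.ext ?_⟩
          show (k' : ℕ) = (k : ℕ) - 1
          omega
        · intro h
          exact absurd (Finset.mem_univ _) h
  · rintro n (o | ⟨o, k⟩)
    · rw [Fintype.sum_sum_type]
      have e1 : ∀ o' : Ω, pQ (Ω' := Ω') G χ F.deg (Sum.inl o) (Sum.inl o') * F.Rr n (Sum.inl o') =
          if o' = o then (χ (F.deg o) • G.y) * F.Rr n (Sum.inl o) else 0 := by
        intro o'
        show (if o = o' then _ else _) * _ = _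
        by_cases h : o = o'
        · rw [if_pos h, if_pos h.symm, h]
        · rw [if_neg h, if_neg (fun h' => h h'.symm), zero_mul]
      have e2 : ∀ p : Ω' × Fin l, pQ G χ F.deg (Sum.inl o) (Sum.inr p) * F.Rr n (Sum.inr p) = 0 := by
        intro p
        exact zero_mul _
      rw [Finset.sum_congr rfl fun o' _ => e1 o', Finset.sum_congr rfl fun p _ => e2 p,
        Finset.sum_const_zero, add_zero, Finset.sum_ite_eq' Finset.univ o, if_pos (Finset.mem_univ _),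
        smul_mul_assoc, ← mul_smul_comm]
      have e3 : χ (F.deg o) • F.Rr n (Sum.inl o) = ∑ i ∈ Finset.range l,
          (χ (F.deg o) * (χ (F.deg o) ^ i * F.c o (B.lm (G.y ^ (l - 1 - i)) n))) • G.y ^ i := by
        show χ (F.deg o) • ∑ i ∈ Finset.range l, _ = _
        rw [Finset.smul_sum]
        simp only [smul_smul]
      rw [e3]
      refine shf G.y hl G.yl _ _ ?_ ?_
      · show χ (F.deg o) ^ 0 * F.c o (B.lm _ (B.lm _ n)) = 0
        rw [ll, ← pow_succ, yz G (by omega), map_zero, LinearMap.zero_apply, map_zero, mul_zero]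
      · intro i hi
        show χ (F.deg o) ^ (i + 1) * F.c o (B.lm _ (B.lm _ n)) = _
        rw [ll, ← pow_succ, show l - 1 - (i + 1) + 1 = l - 1 - i by omega, pow_succ']
        ring
    · rw [Fintype.sum_sum_type]
      have e1 : ∀ o' : Ω, pQ G χ F.deg (Sum.inr (o, k)) (Sum.inl o') * F.Rr n (Sum.inl o') = 0 := by
        intro o'
        exact zero_mul _
      have e2 : ∀ p : Ω' × Fin l, pQ G χ F.deg (Sum.inr (o, k)) (Sum.inr p) * F.Rr n (Sum.inr p) =
          if p.1 = o ∧ (p.2 : ℕ) + 1 = (k : ℕ) then F.Rr n (Sum.inr p) else 0 := by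
        intro p
        show (if o = p.1 ∧ (p.2 : ℕ) + 1 = (k : ℕ) then 1 else 0) * _ = _
        by_cases h : p.1 = o ∧ (p.2 : ℕ) + 1 = (k : ℕ)
        · rw [if_pos h, if_pos ⟨h.1.symm, h.2⟩, one_mul]
        · rw [if_neg h, if_neg (fun h' => h ⟨h'.1.symm, h'.2⟩), zero_mul]
      rw [Finset.sum_congr rfl fun o' _ => e1 o', Finset.sum_congr rfl fun p _ => e2 p,
        Finset.sum_const_zero, zero_add]
      have e3 : F.Rr (B.lm G.y n) (Sum.inr (o, k)) = ∑ i ∈ Finset.range l,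
          F.d o (B.lm (G.y ^ (l - 1 - (k : ℕ) + 1)) (B.rm (op (G.y ^ (l - 1 - i))) n)) •
            G.y ^ i := by
        simp only [YFr.Rr, Sum.elim_inr, ← B.comm, ll, ← pow_succ]
      rw [e3]
      by_cases hk : (k : ℕ) = 0
      · rw [yz G (show l ≤ l - 1 - (k : ℕ) + 1 by omega), Finset.sum_eq_zero, Finset.sum_eq_zero]
        · intro p _
          rw [if_neg]
          rintro ⟨_, h⟩
          omega
        · intro i _
          rw [map_zero, LinearMap.zero_apply, map_zero, zero_smul]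
      · have hk' : (k : ℕ) - 1 < l := by have := k.2; omega
        rw [Finset.sum_eq_single (o, (⟨(k : ℕ) - 1, hk'⟩ : Fin l))]
        · rw [if_pos ⟨rfl, by show (k : ℕ) - 1 + 1 = (k : ℕ); omega⟩]
          refine Finset.sum_congr rfl fun i _ => ?_
          show _ = F.d o (B.lm (G.y ^ (l - 1 - ((k : ℕ) - 1))) (B.rm (op (G.y ^ (l - 1 - i))) n)) • _
          rw [show l - 1 - ((k : ℕ) - 1) = l - 1 - (k : ℕ) + 1 by have := k.2; omega]
        · rintro ⟨o', k'⟩ _ hp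
          rw [if_neg]
          rintro ⟨h1, h2⟩
          apply hp
          have h2' : (k' : ℕ) + 1 = (k : ℕ) := h2
          have h1' : o' = o := h1
          rw [h1', Prod.mk.injEq]
          refine ⟨rfl, Fin.ext ?_⟩
          show (k' : ℕ) = (k : ℕ) - 1
          omega
        · intro h
          exact absurd (Finset.mem_univ _) h
  · rintro w n (o | ⟨o, k⟩)
    · simp only [xa, Sum.map_inl, YFr.L, Sum.elim_inl, wl, F.cw]
    · simp only [xa, Sum.map_inr, YFr.L, Sum.elim_inr, wl, wr, F.dw]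
  · rintro w n (o | ⟨o, k⟩)
    · simp only [xa, Sum.map_inl, YFr.Rr, Sum.elim_inl, wl, F.cw, F.dg]
    · simp only [xa, Sum.map_inr, YFr.Rr, Sum.elim_inr, wl, wr, F.dw]
  · rintro a b (o | ⟨o, k⟩)
    · simp only [YFr.L, YFr.Rr, Sum.elim_inl, map_add, mul_add, add_smul, Finset.sum_add_distrib,
        and_self]
    · simp only [YFr.L, YFr.Rr, Sum.elim_inr, map_add, mul_add, add_smul, Finset.sum_add_distrib,
        and_self]
  · rintro r a (o | ⟨o, k⟩)
    · simp only [YFr.L, YFr.Rr, Sum.elim_inl, map_smul, smul_eq_mul, Finset.smul_sum, smul_smul,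
        mul_left_comm, and_self]
    · simp only [YFr.L, YFr.Rr, Sum.elim_inr, map_smul, smul_eq_mul, Finset.smul_sum, smul_smul,
        mul_left_comm, and_self]

end Pool.Agent.PFE.H69
end
end -- Pool.Agent.Helper69_PFE.LRC
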