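import Pool.Agent.Helper12_AWB.B010
import Pool.Agent.Helper12_AWB.B012
import Pool.Agent.Helper12_AWB.B013

/-!
# Merged copies (generated) of the modules

* `Pool.Agent.PFD.Witt`
* `Pool.Agent.PSS.StmtsS1d`
* `Pool.Agent.PSS.StmtsS1e`
* `Pool.Agent.PFC.DefsB3`
* `Pool.Agent.PFC.StmtsB3`
* `Pool.Agent.PFD.StmtsD3`
* `Pool.Agent.Helper20_PFC.CNT`
* `Pool.Agent.Helper47_PFC.SPN`
* `Pool.Agent.Helper52_PFD.WIT`
* `Pool.Agent.Helper81_PFC.NKY`
* `Pool.Agent.Helper92_PFC.SST`
* `Pool.Agent.Helper2_PSS.RWV`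
* `Pool.Agent.Helper40_PSS.FRD`
* `Pool.Agent.Helper41_PSS.CEF`
* `Pool.Agent.Helper80_PSS.LDA`
* `Pool.Agent.Helper81_PSS.PER`
* `Pool.Agent.Helper82_PSS.VZC`
-/

set_option autoImplicit false

section -- Pool.Agent.PFD.Witt

/-!
Squad PFD (helper51): the Witt vectors and the formal power series are complete discrete valuation
rings in the sense of `Cdv`.
-/

namespace Pool.Agent.PFD.D2

section adic
variable {R F : Type} [CommRing R] [Field F]

/-- a `Cdv` from adic completeness -/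
noncomputable def cdvOfComplete (π : R) (κ : R →+* F) (surj : Function.Surjective κ)
    (ker : ∀ r, κ r = 0 ↔ ∃ s, r = π * s) (reg : ∀ r, π * r = 0 → r = 0)
    (loc : ∀ r, κ r ≠ 0 → IsUnit r) (hc : IsAdicComplete (Ideal.span {π}) R) : Cdv R F where
  π := π
  κ := κ
  surj := surj
  ker := ker
  reg := reg
  loc := loc
  sep := by
    intro r h
    have hh := hc.toIsHausdorff
    apply hh.haus' r
    intro n
    rw [SModEq.zero, Ideal.smul_eq_mul, Ideal.mul_top, Ideal.span_singleton_pow,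
      Ideal.mem_span_singleton]
    obtain ⟨s, hs⟩ := h n
    exact ⟨s, hs⟩
  cpl := by
    intro u
    have hp := hc.toIsPrecomplete
    obtain ⟨r, hr⟩ := hp.prec' (fun n => ∑ i ∈ Finset.range n, π ^ i * u i) (by
      intro m n hmn
      rw [SModEq.sub_mem, Ideal.smul_eq_mul, Ideal.mul_top, Ideal.span_singleton_pow,
        Ideal.mem_span_singleton]
      have h1 : ∑ i ∈ Finset.range n, π ^ i * u i =
          ∑ i ∈ Finset.range m, π ^ i * u i + ∑ i ∈ Finset.Ico m n, π ^ i * u i := by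
        rw [Finset.sum_range_add_sum_Ico _ hmn]
      rw [h1, sub_add_cancel_left]
      apply dvd_neg.mpr
      apply Finset.dvd_sum
      intro i hi
      exact Dvd.dvd.mul_right (pow_dvd_pow π (Finset.mem_Ico.mp hi).1) _)
    refine ⟨r, fun n => ?_⟩
    have h2 := hr n
    rw [SModEq.sub_mem, Ideal.smul_eq_mul, Ideal.mul_top, Ideal.span_singleton_pow,
      Ideal.mem_span_singleton] at h2
    obtain ⟨s, hs⟩ := h2
    refine ⟨-s, ?_⟩
    rw [mul_neg, ← hs, neg_sub]

end adic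

section witt
variable (p : ℕ) [Fact p.Prime] (F : Type) [Field F] [CharP F p] [IsAlgClosed F]

/-- the Witt vectors of an algebraically closed field of characteristic `p` -/
noncomputable def wittCdv : Cdv (WittVector p F) F :=
  cdvOfComplete (p : WittVector p F) WittVector.constantCoeff
    (WittVector.constantCoeff_surjective p)
    (by
      intro r
      have h := WittVector.mem_span_p_iff_coeff_zero_eq_zero (p := p) (k := F) r
      rw [Ideal.mem_span_singleton] at h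
      exact h.symm)
    (by
      intro r hr
      rw [mul_comm] at hr
      exact WittVector.eq_zero_of_p_mul_eq_zero r hr)
    (fun r hr => WittVector.isUnit_of_coeff_zero_ne_zero r hr)
    inferInstance

theorem wittCdv_π : (wittCdv p F).π = (p : WittVector p F) := rfl

theorem witt_charZero : CharZero (WittVector p F) := by
  apply charZero_of_inj_zero
  intro n
  induction n using Nat.strong_induction_on with
  | _ n ih =>
    intro hn
    by_cases hd : p ∣ n
    · obtain ⟨m, rfl⟩ := hd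
      by_cases hm : m = 0
      · rw [hm, mul_zero]
      · have hp : 2 ≤ p := (Fact.out : p.Prime).two_le
        have h1 : m < p * m := by nlinarith [Nat.pos_of_ne_zero hm]
        rw [Nat.cast_mul, mul_comm] at hn
        have h2 := ih m h1 (WittVector.eq_zero_of_p_mul_eq_zero _ hn)
        exact absurd h2 hm
    · exfalso
      have h1 : (WittVector.constantCoeff : WittVector p F →+* F) (n : WittVector p F) = 0 := by
        rw [hn, map_zero]
      rw [map_natCast] at h1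
      exact hd ((CharP.cast_eq_zero_iff F p n).mp h1)

theorem witt_dom : IsDomain (WittVector p F) := inferInstance

theorem witt_pid : IsPrincipalIdealRing (WittVector p F) := inferInstance

/-- the Teichmueller section -/
theorem witt_teich : ∃ τ : F →* WittVector p F, ∀ x, (wittCdv p F).κ (τ x) = x :=
  ⟨WittVector.teichmuller p, fun x => WittVector.teichmuller_coeff_zero p x⟩

end witt

end Pool.Agent.PFD.D2
end -- Pool.Agent.PFD.Witt

section -- Pool.Agent.PSS.StmtsS1d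

/-!
# Squad PSS, block S1, part d (helper36): the ring of the deformation, centre, form, traces

Complete proofs in the docstrings.  Elements of `D.R` are sequences (`Dm.of`, `Dm.sq`,
`Dm.of_sq`, `Dm.sq_of`, `Dm.of_mul`, `Dm.of_smul`, ..), `Dm.of (cst a)` is the constant `a`.
`D.of f = ∑ X^n • D.of (cst (f n))` in the sense of coefficients; every `k⟦X⟧`-linear map from the
finite module `D.R` is determined by its values at the constants.
-/

open scoped BigOperators TensorProduct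

noncomputable section

namespace Pool.Agent.PSS

open Pool.Agent.PFD.D2 (Cdv FibG)
open Pool.Agent.PFD.D2b (FrR)
open Finset
open Dm (cst)

/-! ### General facts on the ring of a deformation -/

/-- RMP: ring homomorphisms.

Proof.  `ψ x = D₀.of (fun n => q (D.sq x n))`; multiplicative by `Dm.of_mul` (apply `q` to the sums
`Dm.mul`), `Dm.of_one`, semilinear by `Dm.of_smul`.  Surjective if `q` is.  Kernel: if `q (f n) = 0`
for all `n` then `f n = p • g n`, `of f = C p • of g` (`smulq`). -/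
def RmpStmt : Prop :=
  ∀ (k k₀ W A A₀ : Type) [CommRing k] [CommRing k₀] [Group W] [Ring A] [Algebra k A] [Ring A₀]
    [Algebra k₀ A₀] (om : W →* A) (om₀ : W →* A₀) (D : Dm k om) (D₀ : Dm k₀ om₀) (q : A →+* A₀)
    (κ : k →+* k₀), (∀ r : k, q (algebraMap k A r) = algebraMap k₀ A₀ (κ r)) →
    (∀ w, q (om w) = om₀ w) → (∀ n a a', q (D.m n a a') = D₀.m n (q a) (q a')) →
    ∃ ψ : D.R →+* D₀.R, (∀ f, ψ (D.of f) = D₀.of (fun n => q (f n))) ∧
      (∀ (r : PowerSeries k) a, ψ (r • a) = (PowerSeries.map κ r) • ψ a) ∧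
      (∀ w, ψ (D.w w) = D₀.w w) ∧ (Function.Surjective q → Function.Surjective ψ) ∧
      ∀ p : k, (∀ a, q a = 0 → ∃ a', a = p • a') →
        ∀ x, ψ x = 0 → ∃ y, x = (PowerSeries.C p) • y

/-- SPF: the special fibre `X = 0`.

Proof.  `π₀ x = D.sq x 0`; multiplicative: `Dm.mul f g 0 = m 0 (f 0) (g 0) = f 0 * g 0`.  If
`f 0 = 0` then `of f = X • of (fun n => f (n + 1))`. -/
def SpfStmt : Prop :=
  ∀ (k W A : Type) [CommRing k] [Group W] [Ring A] [Algebra k A] (om : W →* A) (D : Dm k om),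
    ∃ π₀ : D.R →+* A, (∀ f, π₀ (D.of f) = f 0) ∧
      (∀ r : PowerSeries k, π₀ (algebraMap (PowerSeries k) D.R r) =
        algebraMap k A (PowerSeries.constantCoeff r)) ∧
      Function.Surjective π₀ ∧ (∀ w, π₀ (D.w w) = om w) ∧
      ∀ x, π₀ x = 0 → ∃ y, x = (PowerSeries.X : PowerSeries k) • y

/-- FUN: linear forms from sequences of linear forms, and their uniqueness.

Proof.  `Λ (of f)` = the power series with coefficients `∑_(p in antidiagonal n) t p.1 (f p.2)`;
linear by `Dm.of_smul` and the rearrangement of the double sum.  Uniqueness: put `f = cst a` for the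
sequence `t n a = coeff n (Λ (of (cst a)))`; for a general linear `Λ`: `of f = (∑_(n<N) X^n •
of (cst (f n))) + X^N • of g`, so the coefficient of degree `n < N` of `Λ (of f)` is as stated. -/
def FunStmt : Prop :=
  ∀ (k W A : Type) [CommRing k] [Group W] [Ring A] [Algebra k A] (om : W →* A) (D : Dm k om),
    (∀ t : ℕ → (A →ₗ[k] k), ∃ Λ : D.R →ₗ[PowerSeries k] PowerSeries k,
      ∀ f n, PowerSeries.coeff n (Λ (D.of f)) = ∑ p ∈ antidiagonal n, t p.1 (f p.2)) ∧
    ∀ Λ : D.R →ₗ[PowerSeries k] PowerSeries k, ∃ t : ℕ → (A →ₗ[k] k),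
      ∀ f n, PowerSeries.coeff n (Λ (D.of f)) = ∑ p ∈ antidiagonal n, t p.1 (f p.2)

/-- CFR: the constant frame.

Proof.  FUN for the sequence `(c ω, 0, 0, ..)`: `cs ω`.  Equivariance: `D.w g * of f = of (g f)`
(`Dm.w_mul_of`), and in the same way `of f * D.w g = of (f g)` (`Dm.m_om_right`).
`∑ cs ω (of f) • of (cst (b ω))` has the coefficients `∑ c ω (f n) • b ω = f n` (`Dm.of_smul`). -/
def CfrStmt : Prop :=
  ∀ (k W A Ω : Type) [CommRing k] [CommGroup W] [Ring A] [Algebra k A] [Fintype Ω]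
    [MulAction (W × W) Ω] (om : W →* A) (D : Dm k om) (b : Ω → A) (c : Ω → (A →ₗ[k] k)),
    FrR (bw k om) b c → ∃ cs : Ω → (D.R →ₗ[PowerSeries k] PowerSeries k),
      FrR (bw (PowerSeries k) D.w) (fun ω => D.of (cst (b ω))) cs ∧
      ∀ ω f n, PowerSeries.coeff n (cs ω (D.of f)) = c ω (f n)

/-- FRE: `D.R` is finite and free.

Proof.  A finite basis `e i` of `A`; `D.R ≃ₗ (ι → k⟦X⟧)`, `of f ↦` (the power series with coefficients
`repr (f n) i`). -/
def FreStmt : Prop :=
  ∀ (k W A : Type) [CommRing k] [Group W] [Ring A] [Algebra k A] [Module.Finite k A]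
    [Module.Free k A] (om : W →* A) (D : Dm k om),
    Module.Finite (PowerSeries k) D.R ∧ Module.Free (PowerSeries k) D.R

/-- the property `H^1(A|W; A) = 0` -/
def H1P (k : Type) {W A : Type} [CommRing k] [Group W] [Ring A] [Algebra k A] (om : W →* A) :
    Prop :=
  ∀ δ : A →ₗ[k] A, (∀ a b, δ (a * b) = δ a * b + a * δ b) → (∀ w, δ (om w) = 0) →
    ∃ e : A, (∀ w, e * om w = om w * e) ∧ ∀ a, δ a = a * e - e * a

/-- CEN: central elements lift.

Proof.  Recursion (LIM or `Nat.rec`): `z_0 = z`, all `z_n` commute with `om w`, and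
`∑_(i+j=n) (m i (z_j) a - m i a (z_j)) = 0` for all `a` and `n ≤ N`.  Step: `δ a = ∑_(i+j=N+1, j≤N)
(m i (z_j) a - m i a (z_j))`.  With `Z_N = of (z_0, .., z_N, 0, ..)` the commutator
`[Z_N, of (cst a)]` is `X^(N+1) • (of (cst (δ a)) + X • ..)`, hence, by linearity, for all sequences
`g`: `[Z_N, of g]` is `X^(N+1) • of h` with `h 0 = δ (g 0)`; apply it to the product
`of (cst a) * of (cst b) = of g`, `g 0 = a b`: `δ` is a derivation.  `δ (om w) = 0`
(`Dm.m_om_left`, `Dm.m_om_right`, as `i ≥ 1` in the sum).  `H1P`: `δ a = a e - e a`; `z_(N+1) = e`: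
`m 0 e a - m 0 a e + δ a = 0`.  `Z = of z`; it commutes with all `of (cst a)`, hence with all
`of f` (coefficientwise). -/
def CenStmt : Prop :=
  ∀ (k W A : Type) [CommRing k] [Group W] [Ring A] [Algebra k A] (om : W →* A) (D : Dm k om),
    H1P k om → ∀ z : A, (∀ a, z * a = a * z) →
    ∃ Z : D.R, (∀ a, Z * a = a * Z) ∧ D.sq Z 0 = z

/-- FMX: the symmetric form lifts.

Proof.  Recursion: `τ_0 = lam`, `∑_(i+j=n) τ_i (m_j a b)` symmetric in `a, b` for `n ≤ N`.
`d(a,b) = ∑_(i+j=N+1, i≤N) (τ_i (m_j a b) - τ_i (m_j b a))`.  With the linear form `T` on `D.R` given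
by `(τ_0, .., τ_N, 0, ..)` (FUN): `T (xy - yx) = X^(N+1) (d (x_0, y_0) + X ..)` for all `x, y` in
`D.R` (`x_0 = sq x 0`).  So `d` is antisymmetric and, from `[xy, z] + [yz, x] + [zx, y] = 0`,
`d(ab, c) + d(bc, a) + d(ca, b) = 0`; `d(a, om w) = 0` (`m_j a (om w) = 0` for `j ≥ 1`).
`lam` is perfect (RFE): `d(a, b) = lam (a δ(b))`, `δ` linear; `lam (a δ(bc)) = d(a, bc) = - d(bc, a)
= d(ab, c) + d(ca, b) = lam (a b δ(c)) + lam (c a δ(b))`, so `δ` is a derivation, `δ (om w) = 0`.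
`H1P`: `δ b = b e - e b`, `d(a,b) = lam (a b e) - lam (a e b) = lam (a b e) - lam (b a e)`.
`τ_(N+1) a = - lam (a e)`.  FUN: `Λ`; symmetric on constants, hence on `D.R`. -/
def FmxStmt : Prop :=
  ∀ (k W A K : Type) [CommRing k] [CommGroup W] [Fintype W] [Ring A] [Algebra k A] [Fintype K]
    (om : W →* A) (D : Dm k om) (lam : A →ₗ[k] k) (x y : K → A), H1P k om → RF k om lam x y →
    ∃ Λ : D.R →ₗ[PowerSeries k] PowerSeries k, (∀ a b, Λ (a * b) = Λ (b * a)) ∧
      ∀ f, PowerSeries.constantCoeff (Λ (D.of f)) = lam (f 0)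

/-- RWV: dual families over `W` from dual families over `V`.

Proof.  `V` is the disjoint union of the `z^j W`, `j < orderOf z` (`gen`, `dis`); reindex the sums
over `V`: `x_k v = (x_k z^j) w`, `v⁻¹ y_k = w⁻¹ (z^-j y_k)`. -/
def RwvStmt : Prop :=
  ∀ (k V E A K : Type) [CommRing k] [CommGroup V] [Fintype V] [Group E] [Ring A] [Algebra k A]
    [Fintype K] (φ : E →* MulAut V) (W : Subgroup V) [Fintype W] (z : V) (α : V →* A)
    (lam : A →ₗ[k] k) (x y : K → A), Vz φ W z → RF k α lam x y →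
    RF k (aw α W) lam (fun p : K × Fin (orderOf z) => x p.1 * α (z ^ (p.2 : ℕ)))
      (fun p => α (z ^ (p.2 : ℕ))⁻¹ * y p.1)

/-- FSR: dual families of the deformation.

Proof.  RFM for `R = k⟦X⟧`, `R₀ = k`, `p = X`, `κ = constantCoeff`, `A' = D.R`, `q = π₀` (SPF),
`V = W`, with FRE; `1 + X r` is a unit, `X` is a nonzero divisor. -/
def FsrStmt : Prop :=
  ∀ (k W A K : Type) [CommRing k] [CommGroup W] [Fintype W] [Ring A] [Algebra k A]
    [Module.Finite k A] [Module.Free k A] [Fintype K]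
    (om : W →* A) (D : Dm k om) (lam : A →ₗ[k] k) (x y : K → A)
    (Λ : D.R →ₗ[PowerSeries k] PowerSeries k), RF k om lam x y →
    (∀ a b, Λ (a * b) = Λ (b * a)) →
    (∀ f, PowerSeries.constantCoeff (Λ (D.of f)) = lam (f 0)) →
    ∃ y' : K → D.R, RF (PowerSeries k) D.w Λ (fun t => D.of (cst (x t))) y' ∧
      ∀ t, D.sq (y' t) 0 = y t

/-! ### The trace formula over `K` -/

/-- CRR: `ν · P (rt' w) = n rt_V(w)`.

Proof.  Let `T` be the trivial deformation (`m 0` = multiplication, `m n = 0` for `n > 0`, relative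
to `W`).  `Φ (of f) = of (fun n => ∑_(p in antidiagonal n) P p.1 (f p.2))` is a `K⟦X⟧`-linear ring
isomorphism `D.R → T.R` (`pm`; bijective because `P 0 = 1`), `Φ (D.w w) = T.w w` (`p1`, `pw`).
`Λ₁ = Λ ∘ Φ⁻¹` is symmetric on `T.R`.  `Λ₀` = the form on `T.R` given by `(lamK, 0, ..)` (FUN); the
families `of (cst (x k z^j))`, `of (cst (z^-j y k))` are dual over `W` for `Λ₀` (RWV and constants).
RFE: `Λ₁ = Λ₀ (N ·)`; `N` is central as both forms are symmetric and `Λ₀` is nondegenerate;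
`ν = sq N`, `ν 0 = 1` by the constant coefficients; `ν n` is central in `B`.  `N` is a unit (its
constant coefficient is `1`; or: `Λ₁` is perfect because it has dual families, so `Λ₀ = Λ₁ (N' ·)`,
`N N' = 1`).  `RF K⟦X⟧ T.w Λ₁ (Φ x') (Φ y')`.  RTC (with `lam = Λ₀`, `lam' = Λ₁`, `u = N`) for `V := W`,
`a = T.w w`: `N * ∑ Φ x' (T.w w) Φ y' = ∑_k ∑_(j<n) x_k z^j w z^-j y_k = n rt_V(w)`; the left side is
`N * Φ (rt x' y' (D.w w))`.  Take coefficients. -/
def CrrStmt : Prop :=
  ∀ (K V E B κ κ' : Type) [Field K] [CharZero K] [CommGroup V] [Fintype V] [Group E] [Ring B]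
    [Algebra K B] [FiniteDimensional K B] [Fintype κ] [Fintype κ'] (φ : E →* MulAut V)
    (W : Subgroup V) [Fintype W] (z : V) (β : V →* B) (lamK : B →ₗ[K] K) (x y : κ → B)
    (P : ℕ → (B →ₗ[K] B)) (m : ℕ → (B →ₗ[K] B →ₗ[K] B)) (D : Dm K (aw β W))
    (Λ : D.R →ₗ[PowerSeries K] PowerSeries K) (x' y' : κ' → D.R), Vz φ W z → Trv β W P m →
    D.m = m → RF K β lamK x y → RF (PowerSeries K) D.w Λ x' y' →
    (∀ f, PowerSeries.constantCoeff (Λ (D.of f)) = lamK (f 0)) →
    ∃ ν : ℕ → B, ν 0 = 1 ∧ (∀ n a, ν n * a = a * ν n) ∧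
      (∀ n a, ∑ p ∈ antidiagonal n, lamK (ν p.1 * P p.2 a) =
        PowerSeries.coeff n (Λ (D.of (cst a)))) ∧
      ∀ w : W, ∀ N, ∑ p ∈ antidiagonal N, ∑ q ∈ antidiagonal p.2,
        ν p.1 * P q.1 (D.sq (rt x' y' (D.w w)) q.2) =
          if N = 0 then (orderOf z : K) • rt x y (β w) else 0

/-- LKX: base change of the form and of the dual families from `R` to `K`.

Proof.  RMP for `i` (`κ = algebraMap R K`): `ψ : D.R → D'.R`.  `Λ` is given by a sequence
`t n : A → R` (FUN); `tK n s = ∑ cK ω s * algebraMap (t n (b ω))` extends it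
(`tK n (i a) = algebraMap (t n a)`), FUN: `Λ'`, `Λ' (ψ a) = map (algebraMap R K) (Λ a)`.  Symmetric:
enough on constants `of (cst s)`, `s` in `B`, and by `K`-bilinearity for `s` in `i A`.  The identity
`e1` for `a` in `D'.R`: both sides are `K⟦X⟧`-linear in `a`, and `D'.R` is spanned by the constants
`of (cst (i (b ω))) = ψ (of (cst (b ω)))` (frame), where it is the image of `e1` for `D.R`; then
RFE. -/
def LkxStmt : Prop :=
  ∀ (R K V A B κ κ' Ω : Type) [CommRing R] [Field K] [CharZero K] [Algebra R K] [CommGroup V]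
    [Fintype V] [Ring A] [Algebra R A] [Ring B] [Algebra R B] [Algebra K B] [Fintype κ]
    [Fintype κ'] [Fintype Ω] [MulAction (V × V) Ω] (W : Subgroup V) [Fintype W] (α : V →* A)
    (lam : A →ₗ[R] R) (x y : κ → A) (b : Ω → A) (c : Ω → (A →ₗ[R] R))
    (C : KC R K B α lam x y b c) (D : Dm R (aw α W)) (D' : Dm K (aw (ia C.i α) W))
    (Λ : D.R →ₗ[PowerSeries R] PowerSeries R) (x' y' : κ' → D.R),
    (∀ n a₁ a₂, C.i (D.m n a₁ a₂) = D'.m n (C.i a₁) (C.i a₂)) →
    RF (PowerSeries R) D.w Λ x' y' →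
    ∃ (ψ : D.R →+* D'.R) (Λ' : D'.R →ₗ[PowerSeries K] PowerSeries K),
      (∀ f, ψ (D.of f) = D'.of (fun n => C.i (f n))) ∧ (∀ w, ψ (D.w w) = D'.w w) ∧
      (∀ a, Λ' (ψ a) = PowerSeries.map (algebraMap R K) (Λ a)) ∧
      RF (PowerSeries K) D'.w Λ' (fun t => ψ (x' t)) (fun t => ψ (y' t))

/-- FOR: the relative trace to first order, over `R`.

Proof.  `B` is finite dimensional (frame).  TRA: `D' : Dm K` with `D'.m = m`; LKX; `constantCoeff (Λ' (of f)) = lamK (f 0)` (constants,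
linearity).  CRR: `ν`.  With `r n = i (sq (rt x' y' (D.w w)) n)` (`ψ` of the relative trace):
degree 0: `r 0 = n rt_V(w)`; degree 1: `ν 1 r 0 + P 1 (r 0) + r 1 = 0`, so
`r 1 = - (n ν 1 rt_V(w) + n P 1 (rt_V w))`.  For `a` in `A`:
`lamK (ν 1 (i a)) + lamK (P 1 (i a)) = coeff 1 (Λ' (of (cst (i a))))` is in the image of `R`; so
`lamK (n ν 1 (i a)) = n ρ(a) - lamK (n P 1 (i a))`; with `n P 1 (i a) = i (v₁ a)` this is in the image
of `R`, RFE for `lam`: there is `d` in `A` with `lam (d a) = n ρ(a) - lam (v₁ a)`, and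
`i d = n ν 1` (nondegeneracy of `lamK`). -/
def ForStmt : Prop :=
  ∀ (R K V E A B κ Ω : Type) [CommRing R] [Field K] [CharZero K] [Algebra R K] [CommGroup V]
    [Fintype V] [Group E] [Ring A] [Algebra R A] [Ring B] [Algebra R B] [Algebra K B] [Fintype κ]
    [Fintype Ω] [MulAction (V × V) Ω] (φ : E →* MulAut V) (W : Subgroup V) (z : V) (α : V →* A)
    (lam : A →ₗ[R] R) (x y : κ → A) (b : Ω → A) (c : Ω → (A →ₗ[R] R))
    (C : KC R K B α lam x y b c) (u : A), Vz φ W z → StE φ Ω → u * rt x y 1 = 1 → ∀ [Module.Finite R A] [Module.Free R A] [Fintype W] (κ' : Type) [Fintype κ']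
    (P : ℕ → (B →ₗ[K] B)) (m : ℕ → (B →ₗ[K] B →ₗ[K] B)) (v₁ : A →ₗ[R] A)
    (D : Dm R (aw α W)) (Λ : D.R →ₗ[PowerSeries R] PowerSeries R) (x' y' : κ' → D.R),
    Trv (ia C.i α) W P m → (∀ a, C.i (v₁ a) = (orderOf z : K) • P 1 (C.i a)) →
    (∀ n a₁ a₂, C.i (D.m n a₁ a₂) = m n (C.i a₁) (C.i a₂)) →
    RF (PowerSeries R) D.w Λ x' y' →
    (∀ f, PowerSeries.constantCoeff (Λ (D.of f)) = lam (f 0)) →
    ∃ d : A, (∀ a, ∃ ρ : R, lam (d * a) + lam (v₁ a) = (orderOf z : R) * ρ) ∧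
      ∀ w : W, D.sq (rt x' y' (D.w w)) 0 = (orderOf z : R) • rt x y (α w) ∧
        D.sq (rt x' y' (D.w w)) 1 = - (d * rt x y (α w) + v₁ (rt x y (α w)))

end Pool.Agent.PSS
end
end -- Pool.Agent.PSS.StmtsS1d

section -- Pool.Agent.PSS.StmtsS1e

/-!
# Squad PSS, block S1, part e (helper36): assembly

Complete proofs in the docstrings.  GEN: existence of the deformation with its first order term
(for S2).  LDA, CEF, FRF: an arbitrary deformation of `A₀` lifts to the Witt vectors; its centre and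
its form.  DFM: from `Df` to `Dm`.  DZD, CED, FRD: the results for `Df`.
-/

open scoped BigOperators TensorProduct

noncomputable section

namespace Pool.Agent.PSS

open Pool.Agent.PFD.D2 (Cdv FibG wittCdv)
open Pool.Agent.PFD.D2b (FrR)
open Finset
open Dm (cst)

/-- RED: reduction of the form and of the dual families.

Proof.  `ψ` by RMP (surjective).  `Λ` is given by a sequence `t n : A → R` (FUN);
`t₀ n (q a) = κ (t n a)` is well defined (`q a = 0` gives `a = π • a'`), FUN: `Λ₀`,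
`Λ₀ (ψ a) = map κ (Λ a)`.  Apply `ψ` to `e1`, `e2`, `sym`. -/
def RedStmt : Prop :=
  ∀ (R F V A A₀ κ' : Type) [CommRing R] [Field F] [CommGroup V] [Ring A] [Algebra R A] [Ring A₀]
    [Algebra F A₀] [Fintype κ'] (W : Subgroup V) [Fintype W] (α : V →* A) (cv : Cdv R F)
    (f : FibG A A₀ cv) (α₀ : V →* A₀) (D : Dm R (aw α W)) (D₀ : Dm F (aw α₀ W))
    (Λ : D.R →ₗ[PowerSeries R] PowerSeries R) (x' y' : κ' → D.R), (∀ v, f.q (α v) = α₀ v) →
    (∀ n a a', f.q (D.m n a a') = D₀.m n (f.q a) (f.q a')) →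
    RF (PowerSeries R) D.w Λ x' y' →
    ∃ (ψ : D.R →+* D₀.R) (Λ₀ : D₀.R →ₗ[PowerSeries F] PowerSeries F),
      (∀ g, ψ (D.of g) = D₀.of (fun n => f.q (g n))) ∧ (∀ w, ψ (D.w w) = D₀.w w) ∧
      Function.Surjective ψ ∧
      (∀ a, Λ₀ (ψ a) = PowerSeries.map cv.κ (Λ a)) ∧
      RF (PowerSeries F) D₀.w Λ₀ (fun t => ψ (x' t)) (fun t => ψ (y' t))

/-- GEN: the deformation with first order term `v / n`, `n = orderOf z`, and its relative traces.

Proof.  `K` = fraction field of `R`, KEX: context `C` with `B = K ⊗ A`, `i` (call it `i`).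
`v 1 = - (n e)` with `e` from the derivation congruence at `(1, 1)`, so `v 1 = n e₁`, and `e₁`
commutes with `W` (`v (w 1) = w v 1 = v 1 w`, cancel `n`).  `g₀ s = n⁻¹ • ∑ cK ω s • i (v (b ω))`,
`g₀ (i a) = n⁻¹ i (v a)`, `g s = g₀ s - i e₁ s`: `K`-linear, `W`-`W`-linear (check on the spanning
elements `i (b ω)`), `g 1 = 0`, and `d1 g` is integral on `i A`:
`d1 g₀ (a, a') = n⁻¹ (a v a' - v (a a') + v a a')`, `d1 (e₁ ·) (a, a') = a e₁ a'`.
TGN: `P`, `m`, `P 1 = g`; DMR: `D` over `R`; DMF: `D₀` over `F`.  H1V gives `H1P R (aw α W)`; RWV: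
dual families over `W` for `lam`; FMX: `Λ` on `D.R`, FRE, FSR: `x'`, `y'`; RED: `Λ₀`, `ψ x'`, `ψ y'`.
`constantCoeff (Λ₀ (D₀.of g)) = lam₀ (g 0)` (lift `g` to a sequence in `A`).
FOR with `v₁ a = v a - v 1 * a` (`i (v₁ a) = n g (i a)`): `d₁` with
`lam (d₁ a) + lam (v₁ a)` in `n R`, so modulo `π` (`π` divides `n`, `v 1 = n e₁`)
`lam (d₁ a) = - lam (v a) = lam (a d) = lam (d a)`, hence `q d₁ = q d` (nondegeneracy of `lam₀`,
i.e. of `RF` modulo `π`: apply `q` to `e1` for `d₁ - d`).  The relative trace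
`r' = rt (ψ x') (ψ y') (D₀.w w) = ψ (rt x' y' (D.w w))` has `sq r' 0 = q (n rt x y (α w)) = 0`,
`sq r' 1 = - q (d₁ rt + v₁ rt) = - q (v rt + d rt)`.  `r` = the shifted sequence, `r' = X • r`. -/
def GenStmt : Prop :=
  ∀ (R F V E A A₀ κ Ω : Type) [CommRing R] [IsDomain R] [IsPrincipalIdealRing R] [CharZero R]
    [Field F] [CommGroup V] [Fintype V] [Group E] [Ring A] [Algebra R A] [Module.Finite R A]
    [Module.Free R A] [Ring A₀] [Algebra F A₀] [Fintype κ] [Fintype Ω] [MulAction (V × V) Ω]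
    (φ : E →* MulAut V) (W : Subgroup V) [Fintype W] (z : V) (α : V →* A) (lam : A →ₗ[R] R)
    (x y : κ → A) (b : Ω → A) (c : Ω → (A →ₗ[R] R)) (u : A) (cv : Cdv R F) (f : FibG A A₀ cv)
    (α₀ : V →* A₀) (lam₀ : A₀ →ₗ[F] F) (v : A →ₗ[R] A) (d : A),
    RF R α lam x y → FrR (bw R α) b c → StE φ Ω → Vz φ W z → u * rt x y 1 = 1 →
    (∀ v, f.q (α v) = α₀ v) → (∀ a, cv.κ (lam a) = lam₀ (f.q a)) →
    (∃ r : R, (orderOf z : R) = cv.π * r) →
    (∀ w ∈ W, ∀ a, v (α w * a) = α w * v a ∧ v (a * α w) = v a * α w) →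
    (∀ a a', ∃ e, v (a * a') - v a * a' - a * v a' = (orderOf z : R) • e) →
    (∀ a, cv.κ (lam (v a) + lam (a * d)) = 0) →
    ∃ (D₀ : Dm F (aw α₀ W)) (Λ₀ : D₀.R →ₗ[PowerSeries F] PowerSeries F) (κ' : Type)
      (_ : Fintype κ') (x' y' : κ' → D₀.R), RF (PowerSeries F) D₀.w Λ₀ x' y' ∧
      (∀ g, PowerSeries.constantCoeff (Λ₀ (D₀.of g)) = lam₀ (g 0)) ∧
      ∀ w : W, ∃ r : D₀.R, rt x' y' (D₀.w w) = (PowerSeries.X : PowerSeries F) • r ∧
        D₀.sq r 0 = - f.q (v (rt x y (α w)) + d * rt x y (α w))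

/-- PSC: the power series ring is a complete discrete valuation ring.

Proof.  `D2.cdvOfComplete` or directly: `π = X`, `κ = constantCoeff`; `cpl`: the series with
coefficients `∑_(i ≤ n) coeff (n - i) (u i)`. -/
def PscStmt : Prop :=
  ∀ (F : Type) [Field F], ∃ c : Cdv (PowerSeries F) F,
    c.π = PowerSeries.X ∧ c.κ = PowerSeries.constantCoeff

/-- LDA: an algebra and an arbitrary deformation of it lift to the Witt vectors.

Proof.  `R` = Witt vectors (`Pool.Agent.PFD.D2.wittCdv`, `witt_charZero`, domain, principal ideal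
ring).  LFT: `A`.  `K` = fraction field, KEX, TLF (for `D₀`), DMR: `D`.  H1V. -/
def LdaStmt : Prop :=
  ∀ (ℓ : ℕ) [Fact ℓ.Prime] (F V E A₀ κ Ω : Type) [Field F] [IsAlgClosed F] [CharP F ℓ]
    [CommGroup V] [Fintype V] [Group E] [Ring A₀] [Algebra F A₀] [FiniteDimensional F A₀]
    [Fintype κ] [Fintype Ω] [MulAction (V × V) Ω] (φ : E →* MulAut V) (W : Subgroup V) (z : V)
    (α₀ : V →* A₀) (lam₀ : A₀ →ₗ[F] F) (x₀ y₀ : κ → A₀) (b₀ : Ω → A₀) (c₀ : Ω → (A₀ →ₗ[F] F))
    (u₀ : A₀) (D₀ : Dm F (aw α₀ W)), RF F α₀ lam₀ x₀ y₀ → FrR (bw F α₀) b₀ c₀ → StE φ Ω →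
    Vz φ W z → u₀ * rt x₀ y₀ 1 = 1 →
    ∃ (A : Type) (_ : Ring A) (_ : Algebra (WittVector ℓ F) A)
      (_ : Module.Finite (WittVector ℓ F) A) (_ : Module.Free (WittVector ℓ F) A)
      (f : FibG A A₀ (wittCdv ℓ F)) (α : V →* A) (lam : A →ₗ[WittVector ℓ F] WittVector ℓ F)
      (x y : κ → A) (b : Ω → A) (c : Ω → (A →ₗ[WittVector ℓ F] WittVector ℓ F)) (u : A)
      (D : Dm (WittVector ℓ F) (aw α W)),
      LiftV (wittCdv ℓ F) α₀ lam₀ x₀ y₀ b₀ c₀ f α lam x y b c ∧ u * rt x y 1 = 1 ∧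
      (∀ n a a', f.q (D.m n a a') = D₀.m n (f.q a) (f.q a')) ∧
      H1P (WittVector ℓ F) (aw α W)

/-- CEF: the centre of a deformation is onto the centre of the special fibre.

Proof.  LDA; `z₀` lifts to a central `z` in `A` (UZL), CEN: `Z` in `D.R`; `ψ Z` with RMP is central
(`ψ` surjective), `sq (ψ Z) 0 = q (sq Z 0) = z₀`. -/
def CefStmt : Prop :=
  ∀ (ℓ : ℕ) [Fact ℓ.Prime] (F V E A₀ κ Ω : Type) [Field F] [IsAlgClosed F] [CharP F ℓ]
    [CommGroup V] [Fintype V] [Group E] [Ring A₀] [Algebra F A₀] [FiniteDimensional F A₀]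
    [Fintype κ] [Fintype Ω] [MulAction (V × V) Ω] (φ : E →* MulAut V) (W : Subgroup V) (z : V)
    (α₀ : V →* A₀) (lam₀ : A₀ →ₗ[F] F) (x₀ y₀ : κ → A₀) (b₀ : Ω → A₀) (c₀ : Ω → (A₀ →ₗ[F] F))
    (u₀ : A₀) (D₀ : Dm F (aw α₀ W)), RF F α₀ lam₀ x₀ y₀ → FrR (bw F α₀) b₀ c₀ → StE φ Ω →
    Vz φ W z → u₀ * rt x₀ y₀ 1 = 1 →
    ∀ z₀ : A₀, (∀ a, z₀ * a = a * z₀) → ∃ Z : D₀.R, (∀ a, Z * a = a * Z) ∧ D₀.sq Z 0 = z₀

/-- FRF: the form and the dual families lift to a deformation.

Proof.  LDA; RWV for `lam`, FMX, FRE, FSR, RED (as in GEN). -/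
def FrfStmt : Prop :=
  ∀ (ℓ : ℕ) [Fact ℓ.Prime] (F V E A₀ κ Ω : Type) [Field F] [IsAlgClosed F] [CharP F ℓ]
    [CommGroup V] [Fintype V] [Group E] [Ring A₀] [Algebra F A₀] [FiniteDimensional F A₀]
    [Fintype κ] [Fintype Ω] [MulAction (V × V) Ω] (φ : E →* MulAut V) (W : Subgroup V)
    [Fintype W] (z : V)
    (α₀ : V →* A₀) (lam₀ : A₀ →ₗ[F] F) (x₀ y₀ : κ → A₀) (b₀ : Ω → A₀) (c₀ : Ω → (A₀ →ₗ[F] F))
    (u₀ : A₀) (D₀ : Dm F (aw α₀ W)), RF F α₀ lam₀ x₀ y₀ → FrR (bw F α₀) b₀ c₀ → StE φ Ω →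
    Vz φ W z → u₀ * rt x₀ y₀ 1 = 1 →
    ∃ (Λ₀ : D₀.R →ₗ[PowerSeries F] PowerSeries F) (κ' : Type)
      (_ : Fintype κ') (x' y' : κ' → D₀.R), RF (PowerSeries F) D₀.w Λ₀ x' y' ∧
      ∀ g, PowerSeries.constantCoeff (Λ₀ (D₀.of g)) = lam₀ (g 0)

/-- DFM: every deformation in the sense of `Df` is the ring of a deformation in the sense of `Dm`.

Proof.  (1) `θ₀ : A → A'`, `F`-linear, `W`-`W`-linear, `q (θ₀ a) = a`, `θ₀ 1 = 1`: `h ω` = lifts of
`b ω` which are equivariant for `W × W` (`D2b.EqfStmt` with `D2b.FpfStmt` for the frame of `A'` in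
`df.per`, `p = X`), `θ₁ a = ∑ c ω a • h ω`; `e = θ₁ 1` is congruent to `1` modulo `X`, commutes
with `W`, and is a unit (right and left multiplication by it are congruent to the identity: UNJ);
`θ₀ a = θ₁ a * e⁻¹`.
(2) A basis `e_i` of `A`; `Θ : (ι → F⟦X⟧) → A'`, `s ↦ ∑ s_i • θ₀ (e_i)` is surjective modulo `X`, hence
surjective (Nakayama), and injective: `A' / X A' ≅ A` has dimension the rank of `A'` (compare a basis
of `A'`; a surjective map between free modules of the same finite rank is injective), so every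
element of `A'` is uniquely `∑_n X^n θ₀ (f n)` (meaning: `∑_i s_i • θ₀ (e_i)`, `s_i = ∑ X^n (f n)_i`);
call it `θ f`.
(3) `m n a a'` = the `n`-th component of `θ⁻¹ (θ₀ a * θ₀ a')`: bilinear; `m 0 a a' = a a'` (apply
`q`); relative and normalised since `θ (g f) = om' g * θ f`; associativity from
`(θ₀ a * θ₀ a') * θ₀ a'' = θ₀ a * (θ₀ a' * θ₀ a'')` and `F⟦X⟧`-linearity:
`(θ f) * θ₀ a'' = ∑ X^n θ₀ (f n) θ₀ a''`.  Then `θ` induces the algebra isomorphism. -/
def DfmStmt : Prop :=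
  ∀ (F W A A' Ω : Type) [Field F] [CommGroup W] [Ring A] [Algebra F A] [FiniteDimensional F A]
    [Ring A'] [Algebra (PowerSeries F) A'] [Module.Finite (PowerSeries F) A']
    [Module.Free (PowerSeries F) A'] [Fintype Ω] [MulAction (W × W) Ω] (om : W →* A)
    (om' : W →* A') (b : Ω → A) (c : Ω → (A →ₗ[F] F)), FrR (bw F om) b c →
    ∀ df : Df (PowerSeries.X : PowerSeries F) PowerSeries.constantCoeff om om',
    ∃ (D₀ : Dm F om) (θ : D₀.R ≃ₐ[PowerSeries F] A'), (∀ w, θ (D₀.w w) = om' w) ∧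
      ∀ g, df.q (θ (D₀.of g)) = g 0

/-- PER: the constant frame has the same (restricted) stabilisers.

Proof.  The frame of `A` restricted to `W × W` (`MulAction.compHom`), CFR.  The stabiliser of `ω` in
`W × W` is `(tw (φ e) S) ∩ (W × W)` = `tw (ψ e) (S ∩ W)` (`W` is stable: if `φ e s` is in `W` then
`s` is in `W`, use `e⁻¹`). -/
def PerStmt : Prop :=
  ∀ (F V E A : Type) [Field F] [CommGroup V] [Group E] [Ring A] [Algebra F A]
    (φ : E →* MulAut V) (W : Subgroup V) (ψ : E →* MulAut W) (α : V →* A)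
    (D₀ : Dm F (aw α W)), IsRs φ W ψ → Per F φ α → Per (PowerSeries F) ψ D₀.w

/-- DZD (E1): the dimension of the centre of the generic fibre of a deformation.

Proof.  `Per` gives a frame with `StE`; its restriction to `W × W` is the frame for DFM: `D₀`, `θ`.
CEF for `D₀`: every central element of `A` is `df.q` of a central element of `A'`.  With PSC:
`D4.CnrStmt` (proved, `Pool.Agent.Helper68_PFD.CNR : Pool.Agent.PFD.D4.H68.cnr`) for `R = F⟦X⟧`, the
`FibG` given by `df`, and `D4.CnkStmt` (proved, `Pool.Agent.Helper35_PFD.BFS :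
Pool.Agent.PFD.D4.H35.cnk`) for `K = F'`. -/
def DzdStmt : Prop :=
  ∀ (ℓ : ℕ) [Fact ℓ.Prime] (F V E A A' F' κ : Type) [Field F] [IsAlgClosed F] [CharP F ℓ]
    [CommGroup V] [Fintype V] [Group E] [Ring A] [Algebra F A] [FiniteDimensional F A]
    [Ring A'] [Algebra (PowerSeries F) A'] [Module.Finite (PowerSeries F) A']
    [Module.Free (PowerSeries F) A'] [Field F'] [Algebra (PowerSeries F) F']
    [FaithfulSMul (PowerSeries F) F'] [Fintype κ] (φ : E →* MulAut V) (W : Subgroup V) (z : V)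
    (α : V →* A) (α' : W →* A') (lam : A →ₗ[F] F) (x y : κ → A) (u : A),
    Per F φ α → RF F α lam x y → u * rt x y 1 = 1 → Vz φ W z →
    Df (PowerSeries.X : PowerSeries F) PowerSeries.constantCoeff (aw α W) α' →
    Module.finrank F' (Subalgebra.center F' (F' ⊗[PowerSeries F] A')) =
      Module.finrank F (Subalgebra.center F A)

/-- CED, FRD (E2, E3): centre and form of a deformation in the sense of `Df`.

Proof.  As DZD: DFM, CEF, FRF, transport by `θ`. -/
def FrdStmt : Prop :=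
  ∀ (ℓ : ℕ) [Fact ℓ.Prime] (F V E A A' κ : Type) [Field F] [IsAlgClosed F] [CharP F ℓ]
    [CommGroup V] [Fintype V] [Group E] [Ring A] [Algebra F A] [FiniteDimensional F A]
    [Ring A'] [Algebra (PowerSeries F) A'] [Module.Finite (PowerSeries F) A']
    [Module.Free (PowerSeries F) A'] [Fintype κ] (φ : E →* MulAut V) (W : Subgroup V)
    [Fintype W] (z : V)
    (α : V →* A) (α' : W →* A') (lam : A →ₗ[F] F) (x y : κ → A) (u : A),
    Per F φ α → RF F α lam x y → u * rt x y 1 = 1 → Vz φ W z →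
    ∀ df : Df (PowerSeries.X : PowerSeries F) PowerSeries.constantCoeff (aw α W) α',
    (∀ z₀ : A, (∀ a, z₀ * a = a * z₀) → ∃ Z : A', (∀ a, Z * a = a * Z) ∧ df.q Z = z₀) ∧
    ∃ (lam' : A' →ₗ[PowerSeries F] PowerSeries F) (κ' : Type) (_ : Fintype κ')
      (x' y' : κ' → A'), RF (PowerSeries F) α' lam' x' y' ∧
      ∀ a, PowerSeries.constantCoeff (lam' a) = lam (df.q a)

/-- VZC: `Vz` from the complements.

Proof.  `Y` cyclic with generator `z` (`IsCyclic`), `IsCompl Y W`: `⊤ = Y ⊔ W` (abelian), and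
`z^j` in `Y ∩ W = ⊥`. -/
def VzcStmt : Prop :=
  ∀ (V E : Type) [CommGroup V] [Fintype V] [Group E] (φ : E →* MulAut V) (Y W : Subgroup V),
    Cyf φ Y W → ∃ z : V, Subgroup.zpowers z = Y ∧ Vz φ W z ∧
      IsCompl (Subgroup.zpowers z) W ∧ (Y ≠ ⊥ → z ≠ 1)

end Pool.Agent.PSS
end
end -- Pool.Agent.PSS.StmtsS1e

section -- Pool.Agent.PFC.DefsB3

/-!
# Squad PFC, block B3: the family of algebras over `F[[t]]` and its generic fibre (helper18)

`Pre`: algebras with generators `x i` (`i : I`, commuting) and `ε e` (`e : E`), relations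
`x i ^ q i = c i • x (p i)`, `ε e * x i = η i e • (x i * ε e)`, with the basis
`x ^ α * ε e` (`α i < q i`) and the universal property.

`Nak`: the properties of the generic fibre (all blocks are Nakayama algebras without simple
projective modules), formulated for the order `Γ` over `F[[t]]`.
-/

open scoped BigOperators

noncomputable section

namespace Pool.Agent.PFC.B3

open MvPolynomial

/-- the reduced monomial `x ^ α` -/
def mo (k I : Type) [CommRing k] [Fintype I] {q : I → ℕ} (α : ∀ i, Fin (q i)) :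
    MvPolynomial I k :=
  ∏ i, X i ^ (α i : ℕ)

/-- the ideal generated by the `x i ^ q i - f i` -/
def JJ {k I : Type} [CommRing k] (q : I → ℕ) (f : I → MvPolynomial I k) :
    Ideal (MvPolynomial I k) :=
  Ideal.span (Set.range fun i => X i ^ q i - f i)

/-- presentation of the skew group algebra of `k[x] / (x i ^ q i - c i • x (p i))` and `E` -/
structure Pre (k I E Λ : Type) [CommRing k] [Fintype I] [Group E] [Ring Λ] [Algebra k Λ]
    (q : I → ℕ) (p : I → I) (c : I → k) (η : I → E →* kˣ) where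
  j : MvPolynomial I k →ₐ[k] Λ
  ε : E →* Λ
  rel : ∀ i, j (X i) ^ q i = c i • j (X (p i))
  cm : ∀ e i, ε e * j (X i) = (η i e : k) • (j (X i) * ε e)
  b : Module.Basis ((∀ i, Fin (q i)) × E) k Λ
  hb : ∀ α e, b (α, e) = j (mo k I α) * ε e
  up : ∀ (T : Type) [Ring T] (j' : MvPolynomial I k →+* T) (ε' : E →* T),
    (∀ i, j' (X i) ^ q i = j' (C (c i)) * j' (X (p i))) →
    (∀ e i, ε' e * j' (X i) = j' (C (η i e : k)) * j' (X i) * ε' e) →
    (∀ e a, ε' e * j' (C a) = j' (C a) * ε' e) →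
    ∃ h : Λ →+* T, (∀ f, h (j f) = j' f) ∧ ∀ e, h (ε e) = ε' e

/-- the constants of the family: `0` at `i0`, `t` elsewhere -/
def cc (k I : Type) [CommRing k] [DecidableEq I] (t : k) (i0 : I) (i : I) : k :=
  if i = i0 then 0 else t

/-- a character with values in a field, as a character with values in an algebra -/
def ηη {F I E : Type} [Field F] [Group E] (k : Type) [CommRing k] [Algebra F k]
    (η : I → E →* Fˣ) (i : I) : E →* kˣ :=
  (Units.map (algebraMap F k : F →* k)).comp (η i)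

/-- Properties of the generic fibre of an order `Γ` over `F[[t]]` (`t = PowerSeries.X`): `x` is a
normal nilpotent element, the annihilator of `x ^ i` is generated by `x ^ (Q - i)`, and the
representations with `x = 0` over the fraction field are semisimple.  `ε`, `aug`: all characters
of `E` occur over `F[[t]]`. -/
structure Nak (F E Γ : Type) [Field F] [Group E] [Ring Γ] [Algebra (PowerSeries F) Γ] where
  x : Γ
  sg : Γ →+* Γ
  nrm : ∀ a, x * a = sg a * x
  sgs : Function.Surjective sg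
  Q : ℕ
  two : 2 ≤ Q
  nil : x ^ Q = 0
  ann : ∀ i, i ≤ Q → ∀ a, x ^ i * a = 0 →
    ∃ (n : ℕ) (b : Γ), (PowerSeries.X : PowerSeries F) ^ n • a = x ^ (Q - i) * b
  ss : ∀ (L T : Type) [Field L] [Algebra (PowerSeries F) L] [IsFractionRing (PowerSeries F) L]
    [AddCommGroup T] [Module L T] [Module.Finite L T]
    (τ : B1.Rp (PowerSeries F) Γ L T), (∀ t, τ.ρ x t = 0) →
    ∀ U : Submodule L T, (∀ a, ∀ u ∈ U, τ.ρ a u ∈ U) →
      ∃ U' : Submodule L T, IsCompl U U' ∧ ∀ a, ∀ u ∈ U', τ.ρ a u ∈ U'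
  ε : E →* Γ
  aug : ∀ θ : E →* Fˣ, ∃ a : Γ →ₐ[PowerSeries F] PowerSeries F,
    a x = 0 ∧ ∀ e, a (ε e) = PowerSeries.C (θ e : F)

section FV

variable (F : Type) {V E : Type} [Field F] [CommGroup V] [Group E]

/-- the augmentation ideal of `F V`, as a subspace -/
def Au (F V : Type) [Field F] [CommGroup V] : Submodule F (MonoidAlgebra F V) :=
  Submodule.span F (Set.range fun v : V => MonoidAlgebra.of F V v - 1)

/-- the square of the augmentation ideal, as a subspace -/
def Au2 (F V : Type) [Field F] [CommGroup V] : Submodule F (MonoidAlgebra F V) :=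
  Submodule.span F {z | ∃ v w : V,
    z = (MonoidAlgebra.of F V v - 1) * (MonoidAlgebra.of F V w - 1)}

/-- the span of the `v - 1` with `v ^ (ℓ ^ a) = 1` -/
def Ia (F V : Type) [Field F] [CommGroup V] (ℓ a : ℕ) : Submodule F (MonoidAlgebra F V) :=
  Submodule.span F {z | ∃ v : V, v ^ ℓ ^ a = 1 ∧ z = MonoidAlgebra.of F V v - 1}

/-- the filtration of the augmentation ideal over its square -/
def Ua (F V : Type) [Field F] [CommGroup V] (ℓ a : ℕ) : Submodule F (MonoidAlgebra F V) :=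
  Ia F V ℓ a ⊔ Au2 F V

/-- the action of `E` on `F V` -/
def ac (φ : E →* MulAut V) (e : E) : MonoidAlgebra F V →ₐ[F] MonoidAlgebra F V :=
  MonoidAlgebra.mapDomainAlgHom F F (φ e : V ≃* V).toMonoidHom

/-- the eigenspace of the character `η` -/
def Eg {M : Type} [AddCommGroup M] [Module F M] (T : E → (M →ₗ[F] M)) (η : E →* Fˣ) :
    Submodule F M where
  carrier := {m | ∀ e, T e m = (η e : F) • m}
  add_mem' := by
    intro a b ha hb e
    rw [map_add, ha e, hb e, smul_add]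
  zero_mem' := by
    intro e
    rw [map_zero, smul_zero]
  smul_mem' := by
    intro c a ha e
    rw [map_smul, ha e, smul_comm]

/-- the subgroup generated by the elements of order dividing `ℓ ^ a` and the `ℓ`-th powers -/
def Ka (V : Type) [CommGroup V] (ℓ a : ℕ) : Subgroup V :=
  (powMonoidHom (ℓ ^ a) : V →* V).ker ⊔ (powMonoidHom ℓ : V →* V).range

end FV

end Pool.Agent.PFC.B3
end
end -- Pool.Agent.PFC.DefsB3

section -- Pool.Agent.PFC.StmtsB3

/-!
# Squad PFC, block B3: statements of the rows (author helper18)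

Proof ideas are in the comments.  `R = PowerSeries F`, `t = PowerSeries.X`.
-/

open scoped BigOperators

noncomputable section

namespace Pool.Agent.PFC.B3

open MvPolynomial

/-! ### Part 1: the basis of reduced monomials -/

/-- the span of the monomials of degree less than `d` -/
def Lt (k I : Type) [CommRing k] (d : ℕ) : Submodule k (MvPolynomial I k) :=
  Submodule.span k {z | ∃ m : I →₀ ℕ, m.degree < d ∧ z = monomial m 1}

/-- TOP: the leading form of a product of the relations.  (`Lt a * Lt b` is in `Lt (a + b)`, also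
`monomial m 1 * Lt a` is in `Lt (m.degree + a)`; induction over the factors.) -/
def TopStmt : Prop :=
  ∀ (k I : Type) [CommRing k] [Fintype I] (q : I → ℕ) (f : I → MvPolynomial I k),
    (∀ i, 0 < q i) → (∀ i, f i ∈ Lt k I (q i)) → ∀ γ : I →₀ ℕ,
    (∏ i, (X i ^ q i - f i) ^ (γ i / q i) * X i ^ (γ i % q i)) - monomial γ 1 ∈ Lt k I γ.degree

/-- BIJ: a linear map which is the identity up to lower degree is bijective.  (Surjective:
induction on the degree; injective: compare the coefficients of the monomials of maximal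
degree.) -/
def BijStmt : Prop :=
  ∀ (k I : Type) [CommRing k] [Fintype I]
    (T : MvPolynomial I k →ₗ[k] MvPolynomial I k),
    (∀ γ : I →₀ ℕ, T (monomial γ 1) - monomial γ 1 ∈ Lt k I γ.degree) → Function.Bijective T

/-- BAS: the reduced monomials are a basis of the quotient.  Proof.  Let `T` be the linear map with
`T (monomial γ 1) = ∏ i, (X i ^ q i - f i) ^ (γ i / q i) * X i ^ (γ i % q i)`; it is bijective (TOP,
BIJ).  `(X i ^ q i - f i) * T (monomial γ 1) = T (monomial (γ + q i • e_i) 1)`, so the ideal is the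
image under `T` of the span of the `monomial γ 1` with `q i ≤ γ i` for some `i`, and `T` is the
identity on the reduced monomials. -/
def BasStmt : Prop :=
  ∀ (k I : Type) [CommRing k] [Fintype I] (q : I → ℕ) (f : I → MvPolynomial I k),
    (∀ i, 0 < q i) → (∀ i, f i ∈ Lt k I (q i)) →
    ∃ b : Module.Basis (∀ i, Fin (q i)) k (MvPolynomial I k ⧸ JJ q f),
      ∀ α, b α = Ideal.Quotient.mk (JJ q f) (mo k I α)

/-- SKE: the presented algebra exists.  Proof.  `D = MvPolynomial I k ⧸ JJ q f`,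
`f i = C (c i) * X (p i)`; `E` acts on `D` by `X i ↦ C (η i e) * X i`
(the relations go to multiples of relations); `Λ = SkewMonoidAlgebra D E` (Mathlib: ring, algebra,
`liftNCRingHom`, `basisSingleOne`, `single_mul_single`, `Module.Basis.smulTower`). -/
def SkeStmt : Prop :=
  ∀ (k I E : Type) [CommRing k] [Fintype I] [Group E] (q : I → ℕ) (p : I → I) (c : I → k)
    (η : I → E →* kˣ), (∀ i, 2 ≤ q i) → (∀ i e, η i e ^ q i = η (p i) e) →
    ∃ (Λ : Type) (_ : Ring Λ) (_ : Algebra k Λ), Nonempty (Pre k I E Λ q p c η)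

/-! ### Part 2: the normal element -/

/-- MAP: from the order to the algebra over the fraction field (by `up`; basis goes to basis). -/
def MapStmt : Prop :=
  ∀ (F I E Λ L Λ' : Type) [Field F] [Fintype I] [Group E] [Finite E] [Ring Λ]
    [Algebra (PowerSeries F) Λ]
    [Field L] [Algebra (PowerSeries F) L] [IsFractionRing (PowerSeries F) L] [Ring Λ']
    [Algebra L Λ'] (q : I → ℕ) (p : I → I) (c : I → PowerSeries F) (c' : I → L)
    (η : I → E →* (PowerSeries F)ˣ) (η' : I → E →* Lˣ) (P : Pre (PowerSeries F) I E Λ q p c η)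
    (P' : Pre L I E Λ' q p c' η'), (∀ i, c' i = algebraMap (PowerSeries F) L (c i)) →
    (∀ i e, (η' i e : L) = algebraMap (PowerSeries F) L (η i e)) →
    ∃ h : Λ →+* Λ', (∀ i, h (P.j (X i)) = P'.j (X i)) ∧ (∀ e, h (P.ε e) = P'.ε e) ∧
      (∀ (r : PowerSeries F) a, h (r • a) = algebraMap (PowerSeries F) L r • h a) ∧
      Function.Injective h ∧
      ∀ z, ∃ (n : ℕ) (a : Λ), algebraMap (PowerSeries F) L PowerSeries.X ^ n • z = h a

/-- CYC: the elements `y i`, `i` in the cycle of `i0`, are (up to powers of `t`) powers of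
`y (p i0)`.  (`i = p ^ s i0`, induction on `s`; `y (p i0) ^ (q_1 ⋯ q_s) = t ^ n • y (p ^ (s+1) i0)`,
and the last relation is `y i0 ^ q i0 = 0`.) -/
def CycStmt : Prop :=
  ∀ (k I Λ : Type) [CommRing k] [Fintype I] [DecidableEq I] [Ring Λ] [Algebra k Λ] (q : I → ℕ)
    (p : Equiv.Perm I) (t : k) (i0 : I) (y : I → Λ), (∀ i, 2 ≤ q i) →
    (∀ i, y i ^ q i = cc k I t i0 i • y (p i)) →
    (∀ i, p.SameCycle i0 i → ∃ n m : ℕ, 1 ≤ m ∧ y (p i0) ^ m = t ^ n • y i) ∧
    y (p i0) ^ (∏ i ∈ Finset.univ.filter (fun i => p.SameCycle i0 i), q i) = 0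

/-- ANL: linear algebra.  (`dim N^i M / N^(i+1) M ≤ dim M / N M`, so all are equal, and
`dim ker N^i = i dim (M / N M) = dim N^(Q-i) M`.) -/
def AnlStmt : Prop :=
  ∀ (L M : Type) [Field L] [AddCommGroup M] [Module L M] [Module.Finite L M]
    (N : M →ₗ[L] M) (Q : ℕ), N ^ Q = 0 →
    Q * Module.finrank L (M ⧸ LinearMap.range N) ≤ Module.finrank L M →
    ∀ i, i ≤ Q → ∀ m, (N ^ i) m = 0 → ∃ m', m = (N ^ (Q - i)) m'

/-- DMQ: the dimension of `Λ / x Λ` over a field.  (The basis vectors `x ^ α ε e` with `α i ≠ 0` for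
some `i` in the cycle of `i0` are in `x Λ` by CYC, all `j (X i)` commute; the others are
`dim Λ / ∏ q i` in number.) -/
def DmqStmt : Prop :=
  ∀ (L I E Λ : Type) [Field L] [Fintype I] [DecidableEq I] [Group E] [Finite E] [Ring Λ]
    [Algebra L Λ] (q : I → ℕ) (p : Equiv.Perm I) (t : L) (i0 : I) (η : I → E →* Lˣ)
    (P : Pre L I E Λ q p (cc L I t i0) η), (∀ i, 2 ≤ q i) → t ≠ 0 →
    Module.Finite L Λ ∧
    (∏ i ∈ Finset.univ.filter (fun i => p.SameCycle i0 i), q i) *
      Module.finrank L (Λ ⧸ LinearMap.range (LinearMap.mulLeft L (P.j (X (p i0))))) ≤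
      Module.finrank L Λ

/-- ANN: the annihilators of the powers of `x` in the order.  (SKE over the fraction field, MAP, CYC,
DMQ, ANL for `N` = left multiplication by `x`; clear denominators.) -/
def AnnStmt : Prop :=
  ∀ (F I E Λ : Type) [Field F] [Fintype I] [DecidableEq I] [Group E] [Finite E] [Ring Λ]
    [Algebra (PowerSeries F) Λ] (q : I → ℕ) (p : Equiv.Perm I) (i0 : I)
    (η : I → E →* (PowerSeries F)ˣ)
    (P : Pre (PowerSeries F) I E Λ q p (cc (PowerSeries F) I PowerSeries.X i0) η),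
    (∀ i, 2 ≤ q i) → (∀ i e, η i e ^ q i = η (p i) e) →
    ∀ s, s ≤ (∏ i ∈ Finset.univ.filter (fun i => p.SameCycle i0 i), q i) →
    ∀ a, P.j (X (p i0)) ^ s * a = 0 → ∃ (n : ℕ) (b : Λ), (PowerSeries.X : PowerSeries F) ^ n • a =
      P.j (X (p i0)) ^ ((∏ i ∈ Finset.univ.filter (fun i => p.SameCycle i0 i), q i) - s) * b

/-- NRM: `x` is normal.  (`sg` by `up` with `ε' e = (η i e)⁻¹ • ε e`; its inverse is given by
`η i e • ε e`; check on the basis.) -/
def NrmStmt : Prop :=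
  ∀ (k I E Λ : Type) [CommRing k] [Fintype I] [Group E] [Finite E] [Ring Λ]
    [Algebra k Λ] (q : I → ℕ) (p : I → I) (c : I → k) (η : I → E →* kˣ)
    (P : Pre k I E Λ q p c η) (i : I),
    ∃ sg : Λ →+* Λ, Function.Surjective sg ∧ ∀ a, P.j (X i) * a = sg a * P.j (X i)

/-- AUG: the augmentations.  (By `up`: `X i ↦ 0`, `ε e ↦ θ e`.) -/
def AugStmt : Prop :=
  ∀ (k I E Λ : Type) [CommRing k] [Fintype I] [Group E] [Finite E] [Ring Λ]
    [Algebra k Λ] (q : I → ℕ) (p : I → I) (c : I → k) (η : I → E →* kˣ)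
    (P : Pre k I E Λ q p c η) (θ : E →* kˣ), (∀ i, 2 ≤ q i) →
    ∃ a : Λ →ₐ[k] k, (∀ i, a (P.j (X i)) = 0) ∧ ∀ e, a (P.ε e) = (θ e : k)

/-! ### Part 3: semisimplicity modulo `x` -/

/-- RED: a commutative finite-dimensional algebra spanned by `ℓ`-th powers is reduced.  (Then it is
also spanned by the `ℓ ^ n`-th powers; for large `n` the map `d ↦ d ^ (ℓ ^ n)` kills the
nilradical `N`, and the `ℓ ^ n`-th powers of representatives of a basis of `D / N` span `D`: so
`dim D ≤ dim D / N`.) -/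
def RedStmt : Prop :=
  ∀ (ℓ : ℕ) [Fact ℓ.Prime] (L D : Type) [Field L] [CharP L ℓ] [CommRing D] [Algebra L D]
    [Module.Finite L D], Submodule.span L (Set.range fun d : D => d ^ ℓ) = ⊤ → IsReduced D

/-- SST: commuting operators which are scalar multiples of `ℓ`-th powers act semisimply.  (The
subalgebra `D` generated by them is commutative, finite-dimensional and spanned by `ℓ`-th
powers: it is reduced by RED, so semisimple (`IsArtinianRing`), and every `D`-submodule of `T` has a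
complement.) -/
def SstStmt : Prop :=
  ∀ (ℓ : ℕ) [Fact ℓ.Prime] (L I T : Type) [Field L] [CharP L ℓ] [AddCommGroup T] [Module L T]
    [Module.Finite L T] (y : I → Module.End L T), (∀ i i', y i * y i' = y i' * y i) →
    (∀ i, ∃ z ∈ Algebra.adjoin L (Set.range y), ∃ s : L, y i = s • z ^ ℓ) →
    ∀ U : Submodule L T, (∀ i, ∀ u ∈ U, y i u ∈ U) →
      ∃ U' : Submodule L T, IsCompl U U' ∧ ∀ i, ∀ u ∈ U', y i u ∈ U'

/-- AVG: averaging of an invariant complement.  (Projection `π` onto `U` along `U'`;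
`|E|⁻¹ ∑ e, ρ e ∘ π ∘ ρ e⁻¹` is a projection onto `U` which commutes with all `y i` and `ρ e`; its
kernel is the new complement.) -/
def AvgStmt : Prop :=
  ∀ (L I E T : Type) [Field L] [Group E] [Fintype E] [AddCommGroup T] [Module L T]
    (y : I → Module.End L T) (ρ : E →* Module.End L T) (η : I → E →* Lˣ),
    (Fintype.card E : L) ≠ 0 → (∀ i e, ρ e * y i = (η i e : L) • (y i * ρ e)) →
    ∀ U U' : Submodule L T, IsCompl U U' → (∀ i, ∀ u ∈ U, y i u ∈ U) →
      (∀ i, ∀ u ∈ U', y i u ∈ U') → (∀ e, ∀ u ∈ U, ρ e u ∈ U) →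
      ∃ W : Submodule L T, IsCompl U W ∧ (∀ i, ∀ u ∈ W, y i u ∈ W) ∧ ∀ e, ∀ u ∈ W, ρ e u ∈ W

/-- SSR: the representations over the fraction field with `x = 0` are semisimple.  (The operators
`τ (j (X i))` vanish for `i` in the cycle of `i0` by CYC; for `i` outside the cycle
`j (X i) ^ q i = t • j (X (p i))`, so every `τ (j (X i))` is `t⁻¹` times the `q i'`-th power of
`τ (j (X i'))`, `i' = p⁻¹ i`; SST, then AVG; the order is spanned by the `j f * ε e`.) -/
def SsrStmt : Prop :=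
  ∀ (ℓ : ℕ) [Fact ℓ.Prime] (F I E Λ : Type) [Field F] [CharP F ℓ] [Fintype I] [DecidableEq I]
    [Group E] [Fintype E] [Ring Λ] [Algebra (PowerSeries F) Λ] (a : I → ℕ) (p : Equiv.Perm I)
    (i0 : I) (η : I → E →* (PowerSeries F)ˣ)
    (P : Pre (PowerSeries F) I E Λ (fun i => ℓ ^ a i) p
      (cc (PowerSeries F) I PowerSeries.X i0) η),
    (∀ i, 1 ≤ a i) → (Fintype.card E : F) ≠ 0 →
    ∀ (L T : Type) [Field L] [Algebra (PowerSeries F) L] [IsFractionRing (PowerSeries F) L]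
      [AddCommGroup T] [Module L T] [Module.Finite L T]
      (τ : B1.Rp (PowerSeries F) Λ L T), (∀ u, τ.ρ (P.j (X (p i0))) u = 0) →
      ∀ U : Submodule L T, (∀ z, ∀ u ∈ U, τ.ρ z u ∈ U) →
        ∃ U' : Submodule L T, IsCompl U U' ∧ ∀ z, ∀ u ∈ U', τ.ρ z u ∈ U'

/-- NKF: the order has the properties `Nak` (CYC, ANN, NRM, AUG, SSR, with
`Q = ∏ q i` over the cycle of `i0`). -/
def NkfStmt : Prop :=
  ∀ (ℓ : ℕ) [Fact ℓ.Prime] (F I E Λ : Type) [Field F] [CharP F ℓ] [Fintype I] [DecidableEq I]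
    [Group E] [Fintype E] [Ring Λ] [Algebra (PowerSeries F) Λ] (a : I → ℕ) (p : Equiv.Perm I)
    (i0 : I) (η : I → E →* Fˣ)
    (P : Pre (PowerSeries F) I E Λ (fun i => ℓ ^ a i) p
      (cc (PowerSeries F) I PowerSeries.X i0) (ηη (PowerSeries F) η)),
    (∀ i, 1 ≤ a i) → (∀ i e, η i e ^ ℓ ^ a i = η (p i) e) → (Fintype.card E : F) ≠ 0 →
    ∃ N : Nak F E Λ, N.ε = P.ε

/-! ### Part 4: eigenvectors in the group algebra of `V` -/

/-- DEC: eigenspaces of a finite commutative group of order prime to the characteristic. -/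
def DecStmt : Prop :=
  ∀ (F E M : Type) [Field F] [IsAlgClosed F] [CommGroup E] [Fintype E] [Finite (E →* Fˣ)]
    [AddCommGroup M] [Module F M] [Module.Finite F M] (T : E →* Module.End F M),
    (Fintype.card E : F) ≠ 0 →
    (∀ U : Submodule F M, (∀ e, ∀ u ∈ U, T e u ∈ U) →
      Module.finrank F U = ∑ᶠ η : E →* Fˣ,
        Module.finrank F (U ⊓ Eg F (fun e => T e) η : Submodule F M) ∧
      U = ⨆ η : E →* Fˣ, (U ⊓ Eg F (fun e => T e) η : Submodule F M)) ∧
    ∀ A B : Submodule F M, (∀ e, ∀ u ∈ A, T e u ∈ A) → (∀ e, ∀ u ∈ B, T e u ∈ B) →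
      ∀ η : E →* Fˣ, (A ⊔ B) ⊓ Eg F (fun e => T e) η =
        (A ⊓ Eg F (fun e => T e) η) ⊔ (B ⊓ Eg F (fun e => T e) η)

/-- LIN: vectors of `A` which form a basis of `U` modulo `W`. -/
def LinStmt : Prop :=
  ∀ (F M : Type) [Field F] [AddCommGroup M] [Module F M] [Module.Finite F M]
    (A W U : Submodule F M), W ≤ U → U = A ⊔ W →
    ∃ x : Fin (Module.finrank F U - Module.finrank F W) → M, (∀ k, x k ∈ A) ∧
      Submodule.span F (Set.range x) ⊔ W = U

/-- FRB: the coefficient Frobenius `∑ c v • v ↦ ∑ c v ^ ℓ • v` (a bijective semilinear ring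
automorphism which commutes with `E`) maps `Ua a ⊓ Eg η` onto `Ua a ⊓ Eg (η ^ ℓ)`. -/
def FrbStmt : Prop :=
  ∀ (ℓ : ℕ) [Fact ℓ.Prime] (F V E : Type) [Field F] [CharP F ℓ] [IsAlgClosed F] [CommGroup V]
    [Finite V] [Group E] (φ : E →* MulAut V) (a : ℕ) (η : E →* Fˣ),
    Module.finrank F (Ua F V ℓ a ⊓ Eg F (fun e => (ac F φ e).toLinearMap) η :
        Submodule F (MonoidAlgebra F V)) =
      Module.finrank F (Ua F V ℓ a ⊓ Eg F (fun e => (ac F φ e).toLinearMap) (η ^ ℓ) :
        Submodule F (MonoidAlgebra F V))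

/-- SPN: `Au / Ua a` is spanned by the classes of the `v - 1`, `v` in a set of generators of
`V / Ka a` (an elementary abelian `ℓ`-group): `v ↦ v - 1` is a homomorphism
modulo `Au2`. -/
def SpnStmt : Prop :=
  ∀ (ℓ : ℕ) [Fact ℓ.Prime] (F V : Type) [Field F] [CharP F ℓ] [CommGroup V] [Finite V] (a : ℕ),
    Ua F V ℓ a ≤ Au F V ∧
    ℓ ^ (Module.finrank F (Au F V) - Module.finrank F (Ua F V ℓ a)) ≤ (Ka V ℓ a).index

/-- CNT: `V / Ka a` is isomorphic to `V ^ (ℓ ^ a) / V ^ (ℓ ^ (a+1))`. -/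
def CntStmt : Prop :=
  ∀ (ℓ : ℕ) [Fact ℓ.Prime] (V : Type) [CommGroup V] [Finite V] (m : ℕ),
    (∀ v : V, v ^ ℓ ^ m = 1) → ∏ a ∈ Finset.range m, (Ka V ℓ a).index = Nat.card V

/-- NKY: if the `x i` span `Au` modulo `Au2` and `x i ^ q i = 0` then the reduced monomials span
`F V` (`Au` is nilpotent since `V` is an `ℓ`-group). -/
def NkyStmt : Prop :=
  ∀ (ℓ : ℕ) [Fact ℓ.Prime] (F V I : Type) [Field F] [CharP F ℓ] [CommGroup V] [Finite V]
    [Fintype I] (q : I → ℕ) (x : I → MonoidAlgebra F V), IsPGroup ℓ V → (∀ i, 0 < q i) →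
    Submodule.span F (Set.range x) ⊔ Au2 F V = Au F V → (∀ i, x i ^ q i = 0) →
    Submodule.span F (Set.range fun α : ∀ i, Fin (q i) => ∏ i, x i ^ (α i : ℕ)) = ⊤

/-- the eigenvector presentation of the group algebra of `V` -/
structure Eig (ℓ : ℕ) (F V E I : Type) [Field F] [CommGroup V] [Group E] [Fintype I]
    (φ : E →* MulAut V) where
  a : I → ℕ
  a1 : ∀ i, 1 ≤ a i
  p : Equiv.Perm I
  η : I → E →* Fˣ
  hη : ∀ i e, η i e ^ ℓ ^ a i = η (p i) e
  x : I → MonoidAlgebra F V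
  x0 : ∀ i, x i ^ ℓ ^ a i = 0
  xe : ∀ i e, ac F φ e (x i) = (η i e : F) • x i
  b : Module.Basis (∀ i, Fin (ℓ ^ a i)) F (MonoidAlgebra F V)
  hb : ∀ α, b α = ∏ i, x i ^ (α i : ℕ)

/-- EIG: existence of the eigenvector presentation.  Proof.  `ℓ ^ m` the exponent of `V`;
`n a η = finrank (Ua a ⊓ Eg η) - finrank (Ua (a-1) ⊓ Eg η)`, `n a η = n a (η ^ ℓ)` by FRB;
`I = {(a, η, s) : 1 ≤ a ≤ m, s < n a η}`, `p (a, η, s) = (a, η ^ (ℓ ^ a), s)` (bijective: the order of `η`
is prime to `ℓ`); vectors `x` in `Ia a ⊓ Eg η` by LIN and DEC (`Ua a = Ia a ⊔ Ua (a-1)`); they span `Au`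
modulo `Au2` (DEC); NKY; the number of reduced monomials is
`ℓ ^ ∑ a (dim Ua a - dim Ua (a-1)) = ∏ (a < m) ℓ ^ (dim Au - dim Ua a) ≤ |V|` by SPN and CNT, so they are
a basis. -/
def EigStmt : Prop :=
  ∀ (ℓ : ℕ) [Fact ℓ.Prime] (F V E : Type) [Field F] [CharP F ℓ] [IsAlgClosed F] [CommGroup V]
    [Finite V] [CommGroup E] [Fintype E] (φ : E →* MulAut V), IsPGroup ℓ V → Nontrivial V →
    (Fintype.card E : F) ≠ 0 →
    ∃ (I : Type) (_ : Fintype I) (_ : Nonempty I), Nonempty (Eig ℓ F V E I φ)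

/-! ### Part 5: the special fibre and the final statement -/

/-- FIB: the special fibre.  (`fb.q` by `up`: `X i ↦ x i`, `ε e ↦ inr e`, scalars by
`constantCoeff`; the basis of the order goes to the basis `x ^ α * e` of `F[V ⋊ E]`.) -/
def FibStmt : Prop :=
  ∀ (ℓ : ℕ) [Fact ℓ.Prime] (F V E I Λ : Type) [Field F] [CharP F ℓ] [CommGroup V] [Finite V]
    [CommGroup E] [Fintype E] [Fintype I] [DecidableEq I] [Ring Λ] [Algebra (PowerSeries F) Λ]
    (φ : E →* MulAut V) (D : Eig ℓ F V E I φ) (i0 : I)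
    (P : Pre (PowerSeries F) I E Λ (fun i => ℓ ^ D.a i) D.p
      (cc (PowerSeries F) I PowerSeries.X i0) (ηη (PowerSeries F) D.η)),
    ∃ fb : B1.Fib F Λ (MonoidAlgebra F (V ⋊[φ] E)),
      ∀ e, fb.q (P.ε e) = MonoidAlgebra.of F (V ⋊[φ] E) (SemidirectProduct.inr e)

/-- FAM: the output of block B3 (SKE, NKF, EIG, FIB). -/
def FamStmt : Prop :=
  ∀ (ℓ : ℕ) [Fact ℓ.Prime] (F V E : Type) [Field F] [CharP F ℓ] [IsAlgClosed F] [Group V]
    [Group E] (φ : E →* MulAut V) [Fintype (V ⋊[φ] E)],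
    (∀ a b : V, a * b = b * a) → (∀ a b : E, a * b = b * a) → IsPGroup ℓ V → Nontrivial V →
    ¬ ℓ ∣ Nat.card E →
    ∃ (Γ : Type) (_ : Ring Γ) (_ : Algebra (PowerSeries F) Γ)
      (_ : Module.Finite (PowerSeries F) Γ) (_ : Module.Free (PowerSeries F) Γ)
      (fb : B1.Fib F Γ (MonoidAlgebra F (V ⋊[φ] E))) (N : Nak F E Γ),
      ∀ e, fb.q (N.ε e) = MonoidAlgebra.of F (V ⋊[φ] E) (SemidirectProduct.inr e)

end Pool.Agent.PFC.B3
end
end -- Pool.Agent.PFC.StmtsB3

section -- Pool.Agent.PFD.StmtsD3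

/-!
# Squad PFD, block D3 (helper18): statements

The order `B1` over a complete discrete valuation ring `R` of characteristic `0` which lifts the
twisted group algebra `F_c[V : E]`, `V = Va × W`, `E` free on `Va - 1`: `S = R1 [W]`, `R1` a graded lift of
`F Va`, `B1 = CP D1`, `D1` the crossed product datum of `E` and `S`.

Rows (namespace `Pool.Agent.PFD.D3`): WIT REP COO PAC REL GBJ GBS QUA RHO ACR EUD EPN GRM FTS TSR SGM
GLX RSU ACW FBW TSW DVW NLW ANW SOX CPB CPF CPT CPE CPN CPZ BOX.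
-/

open scoped BigOperators

noncomputable section

namespace Pool.Agent.PFD.D3

open MvPolynomial

/-! ### Part 1: the base, lifting of representations -/

/-- WIT: the Witt vectors are a base.  (`PFD/Witt.lean` (helper51) has the `Cdv`;
`π = ℓ`, `κ = WittVector.constantCoeff`; Mathlib:
`WittVector.isDiscreteValuationRing`, `ker_constantCoeff`, `eq_zero_of_p_mul_eq_zero`,
`isUnit_of_coeff_zero_ne_zero`, `isAdicCompleteIdealSpanP` (precomplete: the partial sums
`∑ i < n, ℓ ^ i * u i`), `WittVector.teichmuller`; characteristic `0`: a domain in which `ℓ ≠ 0`, and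
the primes other than `ℓ` are not zero in `F`.) -/
def WitStmt : Prop :=
  ∀ (ℓ : ℕ) [Fact ℓ.Prime] (F : Type) [Field F] [IsAlgClosed F] [CharP F ℓ],
    ∃ c : D2.Cdv (WittVector ℓ F) F, Nonempty (Og ℓ c)

/-- REP: homomorphisms of an `ℓ'`-group to the residue algebra lift.

Proof.  `D2.SugStmt` for the module `E → M` and the condition `P n T : ∀ g h, T g * T h - T (g h)` is in
`π ^ n M` (`P 1 T` for any lift `T` of `ρ0`).  Step: `T g * T h - T (g h) = π ^ n a(g,h)` with
`T g a(h,k) - a(gh,k) + a(g,hk) - a(g,h) T k` in `π M` (associativity, `π` regular on `M`).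
`S g = - |E|⁻¹ ∑ k, a(g,k) T (k⁻¹)`: multiply the identity by `T (k⁻¹)` from the right and sum over
`k`: `|E| a(g,h) = T g b(h) - b(gh) + b(g) T h` modulo `π`, `b = ∑ a(.,k) T (k⁻¹)`
(`∑ k, a(g,hk) T (k⁻¹) = ∑ m, a(g,m) T (m⁻¹ h) = b(g) T h` modulo `π`); so `T + π ^ n S` satisfies
`P (n+1)`.  The limit is multiplicative (`c.sep` for the coordinates of a basis of `M`); `T 1` is an
idempotent and `1` modulo `π`, so the left multiplication with it is bijective (`D2.UngStmt`) and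
`T 1 = 1`. -/
def RepStmt : Prop :=
  ∀ (R F M M0 E : Type) [CommRing R] [Field F] (c : D2.Cdv R F) [Ring M] [Algebra R M]
    [Module.Finite R M] [Module.Free R M] [Ring M0] [Algebra F M0] (f : D2.FibG M M0 c)
    [Group E] [Fintype E] (ρ0 : E →* M0), (Fintype.card E : F) ≠ 0 →
    ∃ ρ : E →* M, ∀ e, f.q (ρ e) = ρ0 e

/-! ### Part 2: coordinates of the group algebra of `V` -/

/-- COO: coordinates exist.

Proof.  As `B3.EigStmt` (row EIG), with blocks instead of eigenvectors.  Let `V ^ (ℓ ^ m) = 1`.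
For `1 ≤ a ≤ m` the subspaces `Ia a` and `Ia a ⊓ Ua (a-1)` (`DefsB3`) are `E`-stable; averaging
(`B3.AvgStmt` with `I` empty) gives an `E`-stable complement `C a` of `Ia a ⊓ Ua (a-1)` in `Ia a`; so
`Ua a = C a ⊔ Ua (a-1)` and `C a ⊓ Ua (a-1) = ⊥`, `dim C a = dim Ua a - dim Ua (a-1)`.  Blocks
`B = Fin m`, exponents `a b = b + 1`, `J b = Fin (dim C (b+1))`, `x ⟨b, _⟩` = a basis of `C (b+1)`,
`D b` = matrices of `E` on it.  `x ^ ℓ ^ a = 0` on `Ia a`.  `Au = Ua m` is spanned by the `x i` and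
`Au2`; `B3.NkyStmt`: the reduced monomials span `F V`; their number is
`ℓ ^ ∑ a (dim Ua a - dim Ua (a-1)) = ∏ (a < m) ℓ ^ (dim Au - dim Ua a) ≤ |V|` by `B3.SpnStmt` and
`B3.CntStmt`, so they are a basis.  If `V` is nontrivial then `I` is nonempty (dimension of
`F V`). -/
def CooStmt : Prop :=
  ∀ (ℓ : ℕ) [Fact ℓ.Prime] (F V E : Type) [Field F] [CharP F ℓ] [CommGroup V]
    [Finite V] [Group E] [Fintype E] (φ : E →* MulAut V), IsPGroup ℓ V → Nontrivial V →
    (Fintype.card E : F) ≠ 0 →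
    ∃ (B : Type) (_ : Fintype B) (J : B → Type) (_ : ∀ b, Fintype (J b))
      (_ : ∀ b, DecidableEq (J b)), Nonempty (Σ b, J b) ∧ Nonempty (Crd ℓ F V E B φ J)

/-! ### Part 3: graded polynomials over `R` -/

/-- PAC: the action on polynomials: multiplicative, preserves degrees, and compatible with `map`. -/
def PacStmt : Prop :=
  ∀ (R E B : Type) [CommRing R] [Group E] (J : B → Type) [∀ b, Fintype (J b)]
    [∀ b, DecidableEq (J b)] (D : ∀ b, E →* Matrix (J b) (J b) R),
    (∀ p, Lb D 1 p = p) ∧ (∀ e g p, Lb D (e * g) p = Lb D e (Lb D g p)) ∧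
    (∀ e b j, Lb D e (X ⟨b, j⟩) = ∑ k, C (D b e k j) * X ⟨b, k⟩) ∧
    ∀ e (p : MvPolynomial (Σ b, J b) R) d, p.IsHomogeneous d → (Lb D e p).IsHomogeneous d

/-- REL: the relations.  `D'` is the action on the relations, a lift of the twist of `D` with the
`ℓ ^ a b`-th power.

Proof.  `f ⟨b, j⟩ = ∑ h, ∑ k, C (m * D' b h⁻¹ k j) * (Lb D h (X ⟨b, k⟩)) ^ ℓ ^ a b`, `m = |E|⁻¹` in `R`
(`c.loc`).  Homogeneous of degree `ℓ ^ a b`.  `Lb D g (f ⟨b, j⟩) = ∑ k, C (D' b g k j) * f ⟨b, k⟩`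
(substitute `h ↦ g⁻¹ h`, `D' (h⁻¹ g) = D' h⁻¹ * D' g`).  Modulo `π`:
`(Lb D h (X ⟨b, k⟩)) ^ q = (∑ i, D h i k * X i) ^ q = ∑ i, (D h i k) ^ q * X i ^ q = ∑ i, D' h i k * X i ^ q`
(`add_pow_char_pow`), so `f ⟨b, j⟩ = |E|⁻¹ ∑ h, ∑ i, (D' h * D' h⁻¹) i j * X i ^ q = X ⟨b, j⟩ ^ q`. -/
def RelStmt : Prop :=
  ∀ (ℓ : ℕ) [Fact ℓ.Prime] (R F E B : Type) [CommRing R] [Field F] [CharP F ℓ] [Group E]
    [Fintype E] (c : D2.Cdv R F) (J : B → Type) [∀ b, Fintype (J b)]
    [∀ b, DecidableEq (J b)] (a : B → ℕ) (D D' : ∀ b, E →* Matrix (J b) (J b) R),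
    (Fintype.card E : F) ≠ 0 →
    (∀ b e k j, c.κ (D' b e k j) = c.κ (D b e k j) ^ ℓ ^ a b) →
    ∃ f : (Σ b, J b) → MvPolynomial (Σ b, J b) R,
      (∀ i, (f i).IsHomogeneous (ℓ ^ a i.1)) ∧
      (∀ i, MvPolynomial.map c.κ (f i) = X i ^ ℓ ^ a i.1) ∧
      ∀ e b j, Lb D e (f ⟨b, j⟩) = ∑ k, C (D' b e k j) * f ⟨b, k⟩

/-- GBJ: a graded linear map which is the identity modulo `π` is bijective.  (It preserves the
homogeneous submodules, which are finitely generated: `D2.UngStmt` for each of them; the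
polynomials are the direct sum of them.) -/
def GbjStmt : Prop :=
  ∀ (R F I : Type) [CommRing R] [Field F] [Fintype I] (c : D2.Cdv R F)
    (T : MvPolynomial I R →ₗ[R] MvPolynomial I R),
    (∀ γ : I →₀ ℕ, (T (monomial γ 1)).IsHomogeneous γ.degree) →
    (∀ γ : I →₀ ℕ, ∃ p : MvPolynomial I R, T (monomial γ 1) - monomial γ 1 = c.π • p) →
    Function.Bijective T

/-- GBS: the reduced monomials are a basis of the quotient, and the quotient is graded.

Proof.  As `B3.BasStmt`: `T (monomial γ 1) = ∏ i, f i ^ (γ i / q i) * X i ^ (γ i % q i)`, homogeneous of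
degree `∑ γ i`, and equal to `monomial γ 1` modulo `π` (`MvPolynomial.map κ`; a polynomial with
`map κ p = 0` is divisible by `π`); GBJ.  `f i * T (monomial γ 1) = T (monomial (γ + q i • e_i) 1)`, so the
ideal is the image under `T` of the span of the `monomial γ 1` with `q i ≤ γ i` for some `i`, and `T` is
the identity on the reduced monomials.  The last part: `p` homogeneous of degree `d` is `T z` with
`z` homogeneous of degree `d` (`T` preserves degrees and is bijective). -/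
def GbsStmt : Prop :=
  ∀ (R F I : Type) [CommRing R] [Field F] [Fintype I] (c : D2.Cdv R F) (q : I → ℕ)
    (f : I → MvPolynomial I R), (∀ i, 0 < q i) → (∀ i, (f i).IsHomogeneous (q i)) →
    (∀ i, MvPolynomial.map c.κ (f i) = X i ^ q i) →
    ∃ b : Module.Basis (∀ i, Fin (q i)) R (MvPolynomial I R ⧸ Ideal.span (Set.range f)),
      (∀ α, b α = Ideal.Quotient.mk _ (PFC.B3.mo R I α)) ∧
      ∀ d (p : MvPolynomial I R), p.IsHomogeneous d → ∀ α : (∀ i, Fin (q i)),
        (∑ i, (α i : ℕ)) ≠ d → b.repr (Ideal.Quotient.mk _ p) α = 0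

/-- The quotient `R1` with its degrees: `pm` is onto with kernel generated by the `f i`, basis of
reduced monomials. -/
structure Qua (R F E B : Type) [CommRing R] [Field F] [Group E] (c : D2.Cdv R F) (ℓ : ℕ)
    (a : B → ℕ) (J : B → Type) [∀ b, Fintype (J b)] [Fintype B] [∀ b, DecidableEq (J b)]
    (D : ∀ b, E →* Matrix (J b) (J b) R) (R1 : Type) [CommRing R1] [Algebra R R1] where
  pm : MvPolynomial (Σ b, J b) R →ₐ[R] R1
  sur : Function.Surjective pm
  f : (Σ b, J b) → MvPolynomial (Σ b, J b) R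
  fh : ∀ i, (f i).IsHomogeneous (ℓ ^ a i.1)
  fm : ∀ i, MvPolynomial.map c.κ (f i) = X i ^ ℓ ^ a i.1
  fe : ∀ e i, Lb D e (f i) ∈ Ideal.span (Set.range f)
  ker : ∀ p, pm p = 0 ↔ p ∈ Ideal.span (Set.range f)
  b : Module.Basis (∀ i : Σ b, J b, Fin (ℓ ^ a i.1)) R R1
  b_eq : ∀ α, b α = pm (PFC.B3.mo R (Σ b, J b) α)
  b_deg : ∀ d (p : MvPolynomial (Σ b, J b) R), p.IsHomogeneous d →
    ∀ α : (∀ i : Σ b, J b, Fin (ℓ ^ a i.1)), (∑ i, (α i : ℕ)) ≠ d → b.repr (pm p) α = 0

/-- QUA: the quotient exists, for a given representation `D0` over `F`.  (REP for the matrix algebras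
and `D0`, and for the twist `e ↦ (D0 e k j) ^ ℓ ^ a b`; REL, GBS.) -/
def QuaStmt : Prop :=
  ∀ (ℓ : ℕ) [Fact ℓ.Prime] (R F E B : Type) [CommRing R] [Field F] [CharP F ℓ] [Group E]
    [Fintype E] (c : D2.Cdv R F) (J : B → Type) [Fintype B] [∀ b, Fintype (J b)]
    [∀ b, DecidableEq (J b)] (a : B → ℕ) (D0 : ∀ b, E →* Matrix (J b) (J b) F),
    (Fintype.card E : F) ≠ 0 →
    ∃ (D : ∀ b, E →* Matrix (J b) (J b) R) (R1 : Type) (_ : CommRing R1) (_ : Algebra R R1),
      (∀ b e k j, c.κ (D b e k j) = D0 b e k j) ∧ Nonempty (Qua R F E B c ℓ a J D R1)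

/-- RHO: the reduction `pm p ↦ p(x)` (`MvPolynomial.eval₂Hom` with `κ` and `x`): the `f i` go to
`x i ^ ℓ ^ a = 0`; the basis goes to the basis, so the kernel is `π R1`. -/
def RhoStmt : Prop :=
  ∀ (ℓ : ℕ) [Fact ℓ.Prime] (R F V E B R1 : Type) [CommRing R] [Field F] [CharP F ℓ]
    [CommGroup V] [Group E] [Fintype B] (c : D2.Cdv R F) (φ : E →* MulAut V) (J : B → Type)
    [∀ b, Fintype (J b)] [∀ b, DecidableEq (J b)] (Z : Crd ℓ F V E B φ J)
    (D : ∀ b, E →* Matrix (J b) (J b) R) [CommRing R1] [Algebra R R1]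
    (q : Qua R F E B c ℓ Z.a J D R1),
    ∃ rho : D2.FibG R1 (MonoidAlgebra F V) c, (∀ i, rho.q (q.pm (X i)) = Z.x i) ∧
      ∀ α, rho.q (q.b α) = Z.bs α

/-- ACR: the action on `R1` (PAC, `fe`), compatible with the reduction. -/
def AcrStmt : Prop :=
  ∀ (ℓ : ℕ) [Fact ℓ.Prime] (R F V E B R1 : Type) [CommRing R] [Field F] [CharP F ℓ]
    [CommGroup V] [Group E] [Fintype B] (c : D2.Cdv R F) (φ : E →* MulAut V) (J : B → Type)
    [∀ b, Fintype (J b)] [∀ b, DecidableEq (J b)] (Z : Crd ℓ F V E B φ J)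
    (D : ∀ b, E →* Matrix (J b) (J b) R) [CommRing R1] [Algebra R R1]
    (q : Qua R F E B c ℓ Z.a J D R1), (∀ b e k j, c.κ (D b e k j) = Z.D b e k j) →
    ∃ act : E →* (R1 ≃ₐ[R] R1), (∀ e p, act e (q.pm p) = q.pm (Lb D e p)) ∧
      ∀ rho : D2.FibG R1 (MonoidAlgebra F V) c, (∀ i, rho.q (q.pm (X i)) = Z.x i) →
        ∀ e x, rho.q (act e x) = acV F φ e (rho.q x)

/-- EUD: the Euler derivation.  (`v (b α) = |α| b α`; by `b_deg` `v (pm p) = d pm p` for `p` homogeneous
of degree `d`; the homogeneous polynomials span, so `v` is a derivation; PAC: `Lb` preserves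
degrees.) -/
def EudStmt : Prop :=
  ∀ (ℓ : ℕ) [Fact ℓ.Prime] (R F E B R1 : Type) [CommRing R] [Field F] [Group E] [Fintype B]
    (c : D2.Cdv R F) (J : B → Type) [∀ b, Fintype (J b)] [∀ b, DecidableEq (J b)] (a : B → ℕ)
    (D : ∀ b, E →* Matrix (J b) (J b) R) [CommRing R1] [Algebra R R1]
    (q : Qua R F E B c ℓ a J D R1),
    ∃ v : R1 →ₗ[R] R1, (∀ d (p : MvPolynomial (Σ b, J b) R), p.IsHomogeneous d →
        v (q.pm p) = (d : R) • q.pm p) ∧
      (∀ x y, v (x * y) = v x * y + x * v y) ∧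
      ∀ act : E →* (R1 ≃ₐ[R] R1), (∀ e p, act e (q.pm p) = q.pm (Lb D e p)) →
        ∀ e x, v (act e x) = act e (v x)

/-- EPN: the augmentation and its nilpotent kernel.  (`eps (pm p)` = constant coefficient of `p`: the
`f i` are homogeneous of degree `ℓ ^ a > 0`.  `eps (pm p) = 0` implies that `pm p = pm p'` with
`p'` without constant term; a product of `N` such polynomials has only components of degree
`≥ N`, so it goes to `0` if `N` is greater than the sum of the `ℓ ^ a i - 1` (`b_deg`).) -/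
def EpnStmt : Prop :=
  ∀ (ℓ : ℕ) [Fact ℓ.Prime] (R F E B R1 : Type) [CommRing R] [Field F] [Group E] [Fintype B]
    (c : D2.Cdv R F) (J : B → Type) [∀ b, Fintype (J b)] [∀ b, DecidableEq (J b)] (a : B → ℕ)
    (D : ∀ b, E →* Matrix (J b) (J b) R) [CommRing R1] [Algebra R R1]
    (q : Qua R F E B c ℓ a J D R1), (∀ b, 1 ≤ a b) →
    ∃ (eps : R1 →ₐ[R] R) (N : ℕ), (∀ p, eps (q.pm p) = MvPolynomial.constantCoeff p) ∧
      (∀ y : Fin N → R1, (∀ i, eps (y i) = 0) → ∏ i, y i = 0) ∧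
      (∀ act : E →* (R1 ≃ₐ[R] R1), (∀ e p, act e (q.pm p) = q.pm (Lb D e p)) →
        ∀ e x, eps (act e x) = eps x) ∧
      ∀ v : R1 →ₗ[R] R1, (∀ d (p : MvPolynomial (Σ b, J b) R), p.IsHomogeneous d →
        v (q.pm p) = (d : R) • q.pm p) → ∀ x, eps (v x) = 0

/-- GRM: a symmetric bilinear form on a free module whose reduction is unimodular has dual bases.
(The Gram matrix `G` is invertible over `R`: `κ (det G) ≠ 0` and `c.loc`; `y' = G⁻¹ y`.) -/
def GrmStmt : Prop :=
  ∀ (R F A K : Type) [CommRing R] [Field F] (c : D2.Cdv R F) [CommRing A] [Algebra R A]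
    [Fintype K] [DecidableEq K] (b : Module.Basis K R A) (t : A →ₗ[R] R) (p : K → K),
    Function.Bijective p →
    (∀ i j, c.κ (t (b i * b j)) = if j = p i then 1 else 0) →
    ∃ y' : K → A, (∀ a, ∑ j, t (y' j * a) • b j = a) ∧
      ∀ i j, t (y' i * b j) = if i = j then 1 else 0

/-- FTS: the socle of `F V`: an element killed by the `u - 1` is a multiple of the sum of the elements
of `V`; so it is fixed by `E`, and if `F V` is not killed by a form `s` with `s z = 1` then it is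
nonzero. -/
def FtsStmt : Prop :=
  ∀ (F V E : Type) [Field F] [CommGroup V] [Fintype V] [Group E] (φ : E →* MulAut V)
    (z : MonoidAlgebra F V), (∀ u, MonoidAlgebra.of F V u * z = z) →
    (∃ r : F, z = r • ∑ u : V, MonoidAlgebra.of F V u) ∧ ∀ e, acV F φ e z = z

/-- TSR: the invariant form on `R1`.

Proof.  `t0` = coordinate of the monomial `top` with all exponents `ℓ ^ a i - 1`; `w` = its degree;
`t = |E|⁻¹ ∑ e, t0 ∘ act e`.  `t (pm p) = 0` for `p` homogeneous of degree `≠ w` (`b_deg`, PAC), so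
`t (v x) = w t x`.  `E`-invariant.  `κ (t x) = s (rho x)`, `s = |E|⁻¹ ∑ e, s0 ∘ e` with `s0` the
coordinate of `top` in `F V`; `s0 ∘ e = s0`: for a polynomial of degree `≠ w` both are `0`; in degree `w`
the reduced monomials other than `top` do not exist, and `z = rho (b top)` is killed by all `x i`
(`x i ^ ℓ ^ a = 0`), so by the `u - 1` (the augmentation ideal is spanned by the reduced monomials
`≠ 1`: they are nilpotent), FTS: `e z = z`.  So `κ (t (b α * b β)) = s0 (bs α * bs β)` is `1` if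
`β i = ℓ ^ a i - 1 - α i` for all `i` and `0` otherwise (if the degrees add up to `w` but `β` is not the
complement then some exponent is `≥ ℓ ^ a i` and the product is `0`); GRM. -/
def TsrStmt : Prop :=
  ∀ (ℓ : ℕ) [Fact ℓ.Prime] (R F V E B R1 : Type) [CommRing R] [Field F] [CharP F ℓ]
    [CommGroup V] [Fintype V] [Group E] [Fintype E] [Fintype B] [DecidableEq B]
    (c : D2.Cdv R F) (φ : E →* MulAut V) (J : B → Type)
    [∀ b, Fintype (J b)] [∀ b, DecidableEq (J b)] (Z : Crd ℓ F V E B φ J)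
    (D : ∀ b, E →* Matrix (J b) (J b) R) [CommRing R1] [Algebra R R1]
    (q : Qua R F E B c ℓ Z.a J D R1) (act : E →* (R1 ≃ₐ[R] R1))
    (rho : D2.FibG R1 (MonoidAlgebra F V) c), (Fintype.card E : F) ≠ 0 →
    (∀ e p, act e (q.pm p) = q.pm (Lb D e p)) → (∀ i, rho.q (q.pm (X i)) = Z.x i) →
    (∀ e x, rho.q (act e x) = acV F φ e (rho.q x)) →
    ∃ (t : R1 →ₗ[R] R) (y' : (∀ i : Σ b, J b, Fin (ℓ ^ Z.a i.1)) → R1),
      (∀ a, ∑ j, t (y' j * a) • q.b j = a) ∧
      (∀ i j, t (y' i * q.b j) = if i = j then 1 else 0) ∧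
      (∀ e x, t (act e x) = t x) ∧
      ∀ d (p : MvPolynomial (Σ b, J b) R), p.IsHomogeneous d →
        d ≠ ∑ i : Σ b, J b, (ℓ ^ Z.a i.1 - 1) → t (q.pm p) = 0

/-- SGM: the socle element.  (`sg0 = ∑ j, eps (y' j) • y j`: `t (sg0 * x) = eps x`, so
`x * sg0 = eps x • sg0` (`t` is nondegenerate, `∑ j, t (y j * x) • y' j = x`); its reduction is killed by
the `u - 1` (if `rho.q r = u - 1` then a power of `r` is in `π R1`, so `κ (eps r) = 0` and
`r * sg0 = eps r • sg0` goes to `0`), it is a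
multiple `m ∑ u` by FTS with `m ≠ 0` since `sg0` is not divisible by `π` (`t (sg0 * 1) = 1`);
`sg = r • sg0` with `κ r = m⁻¹`.) -/
def SgmStmt : Prop :=
  ∀ (R F V R1 K : Type) [CommRing R] [Field F] [CommGroup V] [Fintype V] [CommRing R1]
    [Algebra R R1] [Fintype K] [DecidableEq K] (c : D2.Cdv R F)
    (rho : D2.FibG R1 (MonoidAlgebra F V) c) (ℓ : ℕ) [Fact ℓ.Prime] [CharP F ℓ]
    (t : R1 →ₗ[R] R) (y y' : K → R1) (eps : R1 →ₐ[R] R), IsPGroup ℓ V →
    (∀ a, ∑ j, t (y' j * a) • y j = a) →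
    (∀ i j, t (y' i * y j) = if i = j then 1 else 0) →
    ∃ sg : R1, (∀ x, x * sg = eps x • sg) ∧ rho.q sg = ∑ u : V, MonoidAlgebra.of F V u

/-- GLX: the graded lift exists (COO, QUA, RHO, ACR, EUD, EPN, TSR, SGM; `wt = ∑ (ℓ ^ a i - 1) > 0`;
`R1` is finite and free by the basis). -/
def GlxStmt : Prop :=
  ∀ (ℓ : ℕ) [Fact ℓ.Prime] (R F V E : Type) [CommRing R] [Field F] [CharP F ℓ]
    [CommGroup V] [Fintype V] [Group E] [Fintype E] (c : D2.Cdv R F) (φ : E →* MulAut V),
    IsPGroup ℓ V → Nontrivial V → (Fintype.card E : F) ≠ 0 →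
    ∃ (R1 : Type) (_ : CommRing R1) (_ : Algebra R R1), Nonempty (GrL (E := E) c φ R1)

/-! ### Part 4: the order `S = R1 [W]` -/

/-- RSU: restriction of the action to a stable subgroup. -/
def RsuStmt : Prop :=
  ∀ (V E : Type) [CommGroup V] [Group E] (φ : E →* MulAut V) (W : Subgroup V),
    (∀ e, ∀ u ∈ W, φ e u ∈ W) → ∃ ψ : E →* MulAut W, ∀ e (u : W), (ψ e u : V) = φ e u

/-- ACW: the action on `R1 [W]`. -/
def AcwStmt : Prop :=
  ∀ (R R1 W E : Type) [CommRing R] [CommRing R1] [Algebra R R1] [CommGroup W] [Group E]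
    (act : E →* (R1 ≃ₐ[R] R1)) (ψ : E →* MulAut W),
    ∃ A : E →* (MonoidAlgebra R1 W ≃ₐ[R] MonoidAlgebra R1 W), ∀ e w r,
      A e (MonoidAlgebra.single w r) = MonoidAlgebra.single (ψ e w) (act e r)

/-- FBW: the reduction of `R1 [W]`, `V = Va × W`.  (`q (∑ r_w w) = ∑ i(rho r_w) w`, `i : F Va → F V`; it is
onto, and injective modulo `π`, since every element of `V` is uniquely `u w`.) -/
def FbwStmt : Prop :=
  ∀ (R F V R1 : Type) [CommRing R] [Field F] [CommGroup V] [Finite V] [CommRing R1]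
    [Algebra R R1] (c : D2.Cdv R F) (Va W : Subgroup V)
    (rho : D2.FibG R1 (MonoidAlgebra F Va) c), Va ⊓ W = ⊥ → Va ⊔ W = ⊤ →
    ∃ fb : D2.FibG (MonoidAlgebra R1 W) (MonoidAlgebra F V) c, ∀ (w : W) r,
      fb.q (MonoidAlgebra.single w r) =
        MonoidAlgebra.mapDomainAlgHom F F Va.subtype (rho.q r) * MonoidAlgebra.of F V (w : V)

/-- TSW: the form `x ↦ t (x 1)` on `R1 [W]` and its relative dual bases. -/
def TswStmt : Prop :=
  ∀ (R R1 W E K : Type) [CommRing R] [CommRing R1] [Algebra R R1] [CommGroup W] [Fintype W]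
    [DecidableEq W] [Group E] [Fintype K] [DecidableEq K] (act : E →* (R1 ≃ₐ[R] R1))
    (ψ : E →* MulAut W) (A : E →* (MonoidAlgebra R1 W ≃ₐ[R] MonoidAlgebra R1 W))
    (t : R1 →ₗ[R] R) (y y' : K → R1),
    (∀ e w r, A e (MonoidAlgebra.single w r) = MonoidAlgebra.single (ψ e w) (act e r)) →
    (∀ a, ∑ j, t (y' j * a) • y j = a) →
    (∀ i j, t (y' i * y j) = if i = j then 1 else 0) → (∀ e x, t (act e x) = t x) →
    ∃ tw : MonoidAlgebra R1 W →ₗ[R] R,
      (∀ w r, tw (MonoidAlgebra.single w r) = if w = 1 then t r else 0) ∧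
      (∀ a, ∑ j, ∑ w : W, tw (MonoidAlgebra.single w⁻¹ 1 * MonoidAlgebra.single 1 (y' j) * a) •
        (MonoidAlgebra.single 1 (y j) * MonoidAlgebra.single w 1) = a) ∧
      (∀ i j u v, tw (MonoidAlgebra.single u⁻¹ 1 * MonoidAlgebra.single 1 (y' i) *
        (MonoidAlgebra.single 1 (y j) * MonoidAlgebra.single v 1)) =
        if i = j ∧ u = v then 1 else 0) ∧ ∀ e x, tw (A e x) = tw x

/-- DVW: the derivation on `R1 [W]`. -/
def DvwStmt : Prop :=
  ∀ (R R1 W E : Type) [CommRing R] [CommRing R1] [Algebra R R1] [CommGroup W] [Group E]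
    (act : E →* (R1 ≃ₐ[R] R1)) (ψ : E →* MulAut W)
    (A : E →* (MonoidAlgebra R1 W ≃ₐ[R] MonoidAlgebra R1 W)) (v : R1 →ₗ[R] R1),
    (∀ e w r, A e (MonoidAlgebra.single w r) = MonoidAlgebra.single (ψ e w) (act e r)) →
    (∀ a b, v (a * b) = v a * b + a * v b) → (∀ e x, v (act e x) = act e (v x)) →
    ∃ vw : MonoidAlgebra R1 W →ₗ[R] MonoidAlgebra R1 W,
      (∀ w r, vw (MonoidAlgebra.single w r) = MonoidAlgebra.single w (v r)) ∧
      (∀ a b, vw (a * b) = vw a * b + a * vw b) ∧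
      (∀ w : W, vw (MonoidAlgebra.single w 1) = 0) ∧
      ∀ e x, vw (A e x) = A e (vw x)

/-- NLW: the nilpotent ideal of `R1 [W]`: the kernel of `R1 [W] → R [W]`. -/
def NlwStmt : Prop :=
  ∀ (R R1 W E : Type) [CommRing R] [CommRing R1] [Algebra R R1] [CommGroup W] [Finite W]
    [Group E] (act : E →* (R1 ≃ₐ[R] R1)) (ψ : E →* MulAut W)
    (A : E →* (MonoidAlgebra R1 W ≃ₐ[R] MonoidAlgebra R1 W)) (eps : R1 →ₐ[R] R) (N : ℕ),
    (∀ e w r, A e (MonoidAlgebra.single w r) = MonoidAlgebra.single (ψ e w) (act e r)) →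
    (∀ e x, eps (act e x) = eps x) →
    (∀ y : Fin N → R1, (∀ i, eps (y i) = 0) → ∏ i, y i = 0) →
    ∃ P : Ideal (MonoidAlgebra R1 W), P ^ N = ⊥ ∧ (∀ e, ∀ y ∈ P, A e y ∈ P) ∧
      ∀ x : MonoidAlgebra R1 W, x ∈ P ↔ ∀ w, eps (x.coeff w) = 0

/-- ANW: lifting of the annihilators.

Proof.  `e = 1`: any lift.  `e ≠ 1`: the map `u ↦ φ e u * u⁻¹` of `Va` is injective, so bijective,
so `z` is invariant under multiplication with `Va`, and its coefficients satisfy
`z (φ e w * x) = z (w * x)` for `w` in `W`.  `y = ∑ w, (τ (z w) • sg) w`: `fb.q y = ∑ w, z(w) (∑ u) w = z`.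
`A e (r w') y = r w' y`: `r * sg = eps r • sg = act e r * sg`, and the coefficients `τ (z w)` of `y` are
invariant under `w ↦ φ e w' * w'⁻¹ * w`. -/
def AnwStmt : Prop :=
  ∀ (R F V E R1 : Type) [CommRing R] [Field F] [CommGroup V] [Group E] [CommRing R1]
    [Algebra R R1] (ℓ : ℕ) (c : D2.Cdv R F) (_ : Og ℓ c) (φ : E →* MulAut V)
    (Va W : Subgroup V) [Fintype Va] (rho : D2.FibG R1 (MonoidAlgebra F Va) c)
    (act : E →* (R1 ≃ₐ[R] R1)) (ψ : E →* MulAut W)
    (A : E →* (MonoidAlgebra R1 W ≃ₐ[R] MonoidAlgebra R1 W))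
    (fb : D2.FibG (MonoidAlgebra R1 W) (MonoidAlgebra F V) c) (eps : R1 →ₐ[R] R) (sg : R1),
    CtW ℓ φ Va W → (∀ e (u : W), (ψ e u : V) = φ e u) →
    (∀ e w r, A e (MonoidAlgebra.single w r) = MonoidAlgebra.single (ψ e w) (act e r)) →
    (∀ (w : W) r, fb.q (MonoidAlgebra.single w r) =
      MonoidAlgebra.mapDomainAlgHom F F Va.subtype (rho.q r) * MonoidAlgebra.of F V (w : V)) →
    (∀ e x, eps (act e x) = eps x) → (∀ x, x * sg = eps x • sg) →
    rho.q sg = ∑ u : Va, MonoidAlgebra.of F Va u →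
    ∀ e, ∀ z : MonoidAlgebra F V,
      (∀ u : V, MonoidAlgebra.of F V (φ e u) * z = MonoidAlgebra.of F V u * z) →
      ∃ y : MonoidAlgebra R1 W, fb.q y = z ∧ ∀ s, A e s * y = s * y

/-- SOX: the lift of `F V` (`S = MonoidAlgebra R1 W`; RSU twice, GLX for `Va`, ACW, FBW, TSW, DVW, NLW,
ANW). -/
def SoxStmt : Prop :=
  ∀ (R F V E : Type) [CommRing R] [Field F] [CommGroup V] [Group E] [Fintype E] (ℓ : ℕ)
    (c : D2.Cdv R F) (_ : Og ℓ c) (φ : E →* MulAut V) (Va W : Subgroup V) [Fintype W],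
    CtW ℓ φ Va W →
    ∃ (S : Type) (_ : CommRing S) (_ : Algebra R S), Nonempty (SO c φ W S)

/-! ### Part 5: the crossed product -/

/-- the datum of `B1` -/
def D1 {R F V E S : Type} [CommRing R] [Field F] [CommGroup V] [Group E] {ℓ : ℕ}
    {c : D2.Cdv R F} (o : Og ℓ c) {φ : E →* MulAut V} {W : Subgroup V} [Fintype W]
    (z : Coc F E) [CommRing S] [Algebra R S] (s : SO c φ W S) : CD R S E where
  act := s.act
  c := (o.up z).c
  one_left := (o.up z).one_left
  one_right := (o.up z).one_right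
  coc := (o.up z).coc

/-- CPB: a crossed product of a free module is free (`b j * n e`). -/
def CpbStmt : Prop :=
  ∀ (k S E : Type) [CommRing k] [CommRing S] [Algebra k S] [Group E] [Fintype E]
    (D : CD k S E) [Module.Finite k S] [Module.Free k S],
    Module.Finite k (CP D) ∧ Module.Free k (CP D)

/-- CPF: the special fibre (`q a = ∑ e, (fb.q (a.f e)) * n e`, coefficientwise). -/
def CpfStmt : Prop :=
  ∀ (R F V E S : Type) [CommRing R] [Field F] [CommGroup V] [Group E] [Fintype E] (ℓ : ℕ)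
    (c : D2.Cdv R F) (o : Og ℓ c) (φ : E →* MulAut V) (W : Subgroup V) [Fintype W]
    (z : Coc F E) [CommRing S] [Algebra R S] (s : SO c φ W S),
    ∃ fb : D2.FibG (CP (D1 o z s)) (CP (D0 φ z)) c, ∀ a e, (fb.q a).f e = s.fb.q (a.f e)

/-- CPT: the relative Frobenius system: `t a = s.t (a.f 1)`, `om w`, `x (j, e) = y j * n e`,
`x' (j, e) = (n e)⁻¹ * y' j`, `ph (j, e) w = e⁻¹ w` (`n (e⁻¹)` is a scalar multiple of `(n e)⁻¹`:
`CP.n_mul_inv`, `CP.c_inv_symm`). -/
def CptStmt : Prop :=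
  ∀ (R F V E S : Type) [CommRing R] [Field F] [CommGroup V] [Group E] [Fintype E] (ℓ : ℕ)
    (c : D2.Cdv R F) (o : Og ℓ c) (φ : E →* MulAut V) (W : Subgroup V) [Fintype W]
    (z : Coc F E) [CommRing S] [Algebra R S] (s : SO c φ W S),
    (∀ e, ∀ u ∈ W, φ e u ∈ W) →
    ∃ (I : Type) (_ : Fintype I) (wf : RFS R (CP (D1 o z s)) W I),
      (∀ a, wf.t a = s.t (a.f 1)) ∧ ∀ w, wf.om w = CP.iS (D1 o z s) (s.om w)

/-- CPE: the derivation, coefficientwise. -/
def CpeStmt : Prop :=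
  ∀ (k S E : Type) [CommRing k] [CommRing S] [Algebra k S] [Group E] [Fintype E]
    (D : CD k S E) (v : S →ₗ[k] S), (∀ a b, v (a * b) = v a * b + a * v b) →
    (∀ e x, v (D.act e x) = D.act e (v x)) →
    ∃ vc : CP D →ₗ[k] CP D, (∀ a e, (vc a).f e = v (a.f e)) ∧
      (∀ a b, vc (a * b) = vc a * b + a * vc b) ∧ (∀ e, vc (CP.n D e) = 0) ∧
      ∀ s, vc (CP.iS D s) = CP.iS D (v s)

/-- CPN: the nilpotent ideal, coefficientwise. -/
def CpnStmt : Prop :=
  ∀ (k S E : Type) [CommRing k] [CommRing S] [Algebra k S] [Group E] [Fintype E]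
    (D : CD k S E) (P : Ideal S) (N : ℕ), (∀ e, ∀ y ∈ P, D.act e y ∈ P) → P ^ N = ⊥ →
    ∃ Pc : Submodule k (CP D), (∀ a, a ∈ Pc ↔ ∀ e, a.f e ∈ P) ∧
      (∀ a, ∀ y ∈ Pc, a * y ∈ Pc) ∧ (∀ a, ∀ y ∈ Pc, y * a ∈ Pc) ∧
      ∀ y : ℕ → CP D, (∀ i, y i ∈ Pc) → ((List.range N).map y).prod = 0

/-- CPZ: the centre lifts.

Proof.  `a` central in the special fibre; `a.f e` satisfies the condition of `ann` (compare the
coefficients of `vv u * a = a * vv u`); `y e` from `ann`, `b0 = ∑ y e * n e` commutes with `iS s`;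
`b = |E|⁻¹ ∑ g, n g * b0 * (n g)⁻¹` commutes with `iS s` (`(n g)⁻¹ iS s = iS (g⁻¹ s) (n g)⁻¹`) and with
the `n h` (`n h n g = c . n (h g)`, the scalars cancel), and it is a lift of `a`. -/
def CpzStmt : Prop :=
  ∀ (R F V E S : Type) [CommRing R] [Field F] [CommGroup V] [Group E] [Fintype E] (ℓ : ℕ)
    (c : D2.Cdv R F) (o : Og ℓ c) (φ : E →* MulAut V) (W : Subgroup V) [Fintype W]
    (z : Coc F E) [CommRing S] [Algebra R S] (s : SO c φ W S)
    (fb : D2.FibG (CP (D1 o z s)) (CP (D0 φ z)) c), (∀ a e, (fb.q a).f e = s.fb.q (a.f e)) →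
    (Fintype.card E : F) ≠ 0 →
    ∀ a ∈ Subalgebra.center F (CP (D0 φ z)),
      ∃ b ∈ Subalgebra.center R (CP (D1 o z s)), fb.q b = a

/-- BOX: the output of D3 (SOX, CPB, CPF, CPT, CPE, CPN, CPZ; `S` is finite and free because it has
the basis `y j * om w`; the basis `bs` from `RFS.t1`, `RFS.du`). -/
def BoxStmt : Prop :=
  ∀ (R F V E : Type) [CommRing R] [Field F] [CommGroup V] [Group E] [Fintype E] (ℓ : ℕ)
    (c : D2.Cdv R F) (o : Og ℓ c) (φ : E →* MulAut V) (Va W : Subgroup V)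
    (z : Coc F E), CtW ℓ φ Va W →
    ∃ (Γ : Type) (_ : Ring Γ) (_ : Algebra R Γ) (_ : Module.Finite R Γ)
      (_ : Module.Free R Γ), Nonempty (BO Γ o φ W z)

end Pool.Agent.PFD.D3
end
end -- Pool.Agent.PFD.StmtsD3

section -- Pool.Agent.Helper20_PFC.CNT

/-!
# PFC, row CNT: the index of `V` as a product
-/

namespace Pool.Agent.PFC.B3.H20

open Pool.Agent.PFC.B3

theorem ka_eq (V : Type) [CommGroup V] (ℓ a : ℕ) :
    Ka V ℓ a = (powMonoidHom (ℓ ^ (a + 1)) : V →* V).range.comap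
      (powMonoidHom (ℓ ^ a) : V →* V) := by
  apply le_antisymm
  · unfold Ka
    rw [sup_le_iff]
    constructor
    · intro v hv
      rw [MonoidHom.mem_ker] at hv
      rw [Subgroup.mem_comap, hv]
      exact one_mem _
    · rintro _ ⟨w, rfl⟩
      rw [Subgroup.mem_comap]
      refine ⟨w, ?_⟩
      simp only [powMonoidHom_apply]
      rw [← pow_mul, pow_succ']
  · intro v hv
    rw [Subgroup.mem_comap] at hv
    obtain ⟨w, hw⟩ := hv
    simp only [powMonoidHom_apply] at hw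
    have h1 : v = v * (w ^ ℓ)⁻¹ * w ^ ℓ := by
      rw [inv_mul_cancel_right]
    rw [h1]
    refine Subgroup.mul_mem_sup ?_ ⟨w, rfl⟩
    rw [MonoidHom.mem_ker]
    simp only [powMonoidHom_apply]
    rw [mul_pow, inv_pow, ← pow_mul, ← pow_succ', hw, mul_inv_cancel]

/-- CNT -/
theorem cnt : CntStmt := by
  intro ℓ _ V _ _ m hm
  have key : ∀ k : ℕ, ∏ a ∈ Finset.range k, (Ka V ℓ a).index =
      (powMonoidHom (ℓ ^ k) : V →* V).range.index := by
    intro k
    induction k with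
    | zero =>
      have : (powMonoidHom (ℓ ^ 0) : V →* V).range = ⊤ := by
        rw [eq_top_iff]
        intro v _
        exact ⟨v, by simp⟩
      rw [this, Subgroup.index_top, Finset.prod_range_zero]
    | succ k ih =>
      rw [Finset.prod_range_succ, ih, ka_eq, Subgroup.index_comap, mul_comm]
      apply Subgroup.relIndex_mul_index
      rintro _ ⟨w, rfl⟩
      refine ⟨w ^ ℓ, ?_⟩
      simp only [powMonoidHom_apply]
      rw [← pow_mul, pow_succ']
  rw [key m]
  have : (powMonoidHom (ℓ ^ m) : V →* V).range = ⊥ := by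
    rw [eq_bot_iff]
    rintro _ ⟨w, rfl⟩
    rw [Subgroup.mem_bot]
    exact hm w
  rw [this, Subgroup.index_bot]

end Pool.Agent.PFC.B3.H20
end -- Pool.Agent.Helper20_PFC.CNT

section -- Pool.Agent.Helper47_PFC.SPN

/-!
# Squad PFC, block B3, row SPN (helper47): generators of the augmentation ideal modulo `Ua`
-/

open scoped BigOperators

noncomputable section

namespace Pool.Agent.PFC.B3.H47

open MvPolynomial

/-- The span over `F` of a finite `ZMod ℓ`-subspace `W` has dimension at most the dimension of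
`W`, so `ℓ ^ dim ≤ |W|`. -/
theorem span_card (ℓ : ℕ) [Fact ℓ.Prime] (F M : Type) [Field F] [CharP F ℓ] [AddCommGroup M]
    [Module F M] (W : AddSubgroup M) [Finite W] :
    ℓ ^ Module.finrank F (Submodule.span F (W : Set M)) ≤ Nat.card W := by
  classical
  letI : Algebra (ZMod ℓ) F := ZMod.algebra F ℓ
  letI : Module (ZMod ℓ) M := Module.compHom M (algebraMap (ZMod ℓ) F)
  let W' : Submodule (ZMod ℓ) M := AddSubgroup.toZModSubmodule ℓ W
  have hW' : (W' : Set M) = (W : Set M) := AddSubgroup.coe_toZModSubmodule ℓ W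
  have : Finite W' := by
    have h : Finite (W : Set M) := ‹Finite W›
    rw [← hW'] at h
    exact h
  have : Module.Finite (ZMod ℓ) W' := Module.Finite.of_finite
  have hcard : Nat.card W = ℓ ^ Module.finrank (ZMod ℓ) W' := by
    have h1 : Nat.card W = Nat.card W' := by
      show Nat.card (W : Set M) = Nat.card (W' : Set M)
      rw [hW']
    rw [h1, Module.natCard_eq_pow_finrank (K := ZMod ℓ), Nat.card_zmod]
  rw [hcard]
  refine Nat.pow_le_pow_right (Fact.out : ℓ.Prime).pos ?_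
  let b := Module.finBasis (ZMod ℓ) W'
  have hspan : Submodule.span F (W : Set M) ≤
      Submodule.span F (Set.range fun i => (b i : M)) := by
    rw [Submodule.span_le]
    intro w hw
    have hw' : w ∈ W' := by
      show w ∈ (W' : Set M)
      rw [hW']
      exact hw
    have h2 := b.sum_repr ⟨w, hw'⟩
    have h3 : w = ∑ i, (b.repr ⟨w, hw'⟩ i) • (b i : M) := by
      have h4 := congrArg (fun z : W' => (z : M)) h2
      simp only [AddSubmonoidClass.coe_finsetSum, Submodule.coe_smul] at h4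
      exact h4.symm
    rw [h3]
    refine Submodule.sum_mem _ fun i _ => ?_
    show (algebraMap (ZMod ℓ) F (b.repr ⟨w, hw'⟩ i)) • (b i : M) ∈ _
    exact Submodule.smul_mem _ _ (Submodule.subset_span ⟨i, rfl⟩)
  calc Module.finrank F (Submodule.span F (W : Set M))
      ≤ Module.finrank F (Submodule.span F (Set.range fun i => (b i : M))) := by
        have : Module.Finite F (Submodule.span F (Set.range fun i => (b i : M))) :=
          Module.Finite.span_of_finite F (Set.finite_range _)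
        exact Submodule.finrank_mono hspan
    _ ≤ Fintype.card (Fin (Module.finrank (ZMod ℓ) W')) := finrank_range_le_card _
    _ = Module.finrank (ZMod ℓ) W' := Fintype.card_fin _

theorem ua_le (ℓ : ℕ) (F V : Type) [Field F] [CommGroup V] (a : ℕ) :
    Ua F V ℓ a ≤ Au F V := by
  refine sup_le ?_ ?_
  · refine Submodule.span_le.2 ?_
    rintro z ⟨v, -, rfl⟩
    exact Submodule.subset_span ⟨v, rfl⟩
  · refine Submodule.span_le.2 ?_
    rintro z ⟨v, w, rfl⟩
    have h : (MonoidAlgebra.of F V v - 1) * (MonoidAlgebra.of F V w - 1) =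
        (MonoidAlgebra.of F V (v * w) - 1) - (MonoidAlgebra.of F V v - 1) -
          (MonoidAlgebra.of F V w - 1) := by
      rw [map_mul]
      ring
    rw [h]
    exact Submodule.sub_mem _ (Submodule.sub_mem _ (Submodule.subset_span ⟨v * w, rfl⟩)
      (Submodule.subset_span ⟨v, rfl⟩)) (Submodule.subset_span ⟨w, rfl⟩)

/-- `v ↦ v - 1` modulo `Ua` -/
def cl (ℓ : ℕ) (F V : Type) [Field F] [CommGroup V] (a : ℕ) :
    V →* Multiplicative (MonoidAlgebra F V ⧸ Ua F V ℓ a) where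
  toFun v := Multiplicative.ofAdd ((Ua F V ℓ a).mkQ (MonoidAlgebra.of F V v - 1))
  map_one' := by
    rw [map_one, sub_self, map_zero]
    rfl
  map_mul' v w := by
    rw [← ofAdd_add, ← map_add]
    congr 1
    have h : MonoidAlgebra.of F V (v * w) - 1 =
        (MonoidAlgebra.of F V v - 1) * (MonoidAlgebra.of F V w - 1) +
          ((MonoidAlgebra.of F V v - 1) + (MonoidAlgebra.of F V w - 1)) := by
      rw [map_mul]
      ring
    rw [h, map_add, add_eq_right]
    rw [← LinearMap.mem_ker, Submodule.ker_mkQ]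
    exact (le_sup_right : Au2 F V ≤ Ua F V ℓ a) (Submodule.subset_span ⟨v, w, rfl⟩)

theorem spn : SpnStmt := by
  intro ℓ hl F V _ _ _ _ a
  refine ⟨ua_le ℓ F V a, ?_⟩
  set f := cl ℓ F V a with hf
  have hfv : ∀ v, f v = Multiplicative.ofAdd ((Ua F V ℓ a).mkQ (MonoidAlgebra.of F V v - 1)) :=
    fun v => rfl
  -- the kernel contains Ka
  have hker : Ka V ℓ a ≤ f.ker := by
    refine sup_le ?_ ?_
    · intro v hv
      rw [MonoidHom.mem_ker] at hv ⊢
      have hv' : v ^ ℓ ^ a = 1 := hv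
      rw [hfv]
      have : MonoidAlgebra.of F V v - 1 ∈ Ua F V ℓ a :=
        (le_sup_left : Ia F V ℓ a ≤ Ua F V ℓ a) (Submodule.subset_span ⟨v, hv', rfl⟩)
      have h0 : (Ua F V ℓ a).mkQ (MonoidAlgebra.of F V v - 1) = 0 := by
        rw [← LinearMap.mem_ker, Submodule.ker_mkQ]
        exact this
      rw [h0]
      rfl
    · rintro _ ⟨v, rfl⟩
      rw [MonoidHom.mem_ker]
      show f (v ^ ℓ) = 1
      rw [map_pow, hfv, ← ofAdd_nsmul]
      have h0 : ℓ • (Ua F V ℓ a).mkQ (MonoidAlgebra.of F V v - 1) = 0 := by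
        rw [← Nat.cast_smul_eq_nsmul F, CharP.cast_eq_zero, zero_smul]
      rw [h0]
      rfl
  let W : AddSubgroup (MonoidAlgebra F V ⧸ Ua F V ℓ a) := Subgroup.toAddSubgroup' f.range
  have hWset : (W : Set (MonoidAlgebra F V ⧸ Ua F V ℓ a)) =
      Set.range fun v : V => (Ua F V ℓ a).mkQ (MonoidAlgebra.of F V v - 1) := by
    ext z
    constructor
    · rintro ⟨v, hv⟩
      exact ⟨v, congrArg Multiplicative.toAdd hv⟩
    · rintro ⟨v, hv⟩
      exact ⟨v, congrArg Multiplicative.ofAdd hv⟩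
  have hcardW : Nat.card W = f.ker.index := by
    rw [Subgroup.index_ker]
    rfl
  have : Finite W := by
    have h : (Set.range fun v : V =>
      (Ua F V ℓ a).mkQ (MonoidAlgebra.of F V v - 1)).Finite := Set.finite_range _
    rw [← hWset] at h
    exact h
  have h1 := span_card ℓ F (MonoidAlgebra F V ⧸ Ua F V ℓ a) W
  have h2 : Submodule.span F (W : Set (MonoidAlgebra F V ⧸ Ua F V ℓ a)) =
      (Au F V).map (Ua F V ℓ a).mkQ := by
    rw [hWset, Au, Submodule.map_span, ← Set.range_comp]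
    rfl
  rw [h2] at h1
  have : Module.Finite F (MonoidAlgebra F V) := by
    have : Fintype V := Fintype.ofFinite V
    exact Module.Finite.equiv (MonoidAlgebra.coeffLinearEquiv F).symm
  have h3 : Module.finrank F (Au F V) - Module.finrank F (Ua F V ℓ a) ≤
      Module.finrank F ((Au F V).map (Ua F V ℓ a).mkQ) := by
    have h4 := LinearMap.finrank_range_add_finrank_ker ((Ua F V ℓ a).mkQ.domRestrict (Au F V))
    have h5 : LinearMap.range ((Ua F V ℓ a).mkQ.domRestrict (Au F V)) =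
        (Au F V).map (Ua F V ℓ a).mkQ := by
      rw [LinearMap.domRestrict, LinearMap.range_comp, Submodule.range_subtype]
    have h6 : Module.finrank F (LinearMap.ker ((Ua F V ℓ a).mkQ.domRestrict (Au F V))) ≤
        Module.finrank F (Ua F V ℓ a) := by
      rw [← Submodule.finrank_map_subtype_eq]
      refine Submodule.finrank_mono ?_
      rintro _ ⟨z, hz, rfl⟩
      have hz' : (Ua F V ℓ a).mkQ (z : MonoidAlgebra F V) = 0 := hz
      rw [← LinearMap.mem_ker, Submodule.ker_mkQ] at hz'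
      exact hz'
    rw [h5] at h4
    omega
  calc ℓ ^ (Module.finrank F (Au F V) - Module.finrank F (Ua F V ℓ a))
      ≤ ℓ ^ Module.finrank F ((Au F V).map (Ua F V ℓ a).mkQ) :=
        Nat.pow_le_pow_right hl.out.pos h3
    _ ≤ Nat.card W := h1
    _ = f.ker.index := hcardW
    _ ≤ (Ka V ℓ a).index := Subgroup.index_antitone hker

end Pool.Agent.PFC.B3.H47
end
end -- Pool.Agent.Helper47_PFC.SPN

section -- Pool.Agent.Helper52_PFD.WIT

set_option autoImplicit false

noncomputable section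

namespace Pool.Agent.PFD.H52

open Pool.Agent.PFD

theorem wit : D3.WitStmt := by
  intro ℓ _ F _ _ _
  obtain ⟨τ, hτ⟩ := D2.witt_teich ℓ F
  exact ⟨D2.wittCdv ℓ F, ⟨{
    pr := Fact.out
    ch := inferInstance
    ch0 := D2.witt_charZero ℓ F
    dom := D2.witt_dom ℓ F
    pid := D2.witt_pid ℓ F
    τ := τ
    τκ := hτ }⟩⟩

end Pool.Agent.PFD.H52
end
end -- Pool.Agent.Helper52_PFD.WIT

section -- Pool.Agent.Helper81_PFC.NKY

/-!
Squad PFC, row NKY (helper81): the augmentation ideal of an ℓ-group is nilpotent, so vectors which span it modulo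
its square generate the group algebra.
-/

set_option autoImplicit false

open scoped BigOperators

namespace Pool.Agent.PFC.B3.H81

open MvPolynomial

/-- if `U = X + U ^ 2` then `U ^ n` is in `X ^ n + U ^ (n + 1)` -/
theorem pow_le_sup {F A : Type*} [CommSemiring F] [Semiring A] [Algebra F A]
    (X U : Submodule F A) (h : X ⊔ U * U = U) (n : ℕ) : U ^ n ≤ X ^ n ⊔ U ^ (n + 1) := by
  have hXU : X ≤ U := by
    rw [← h]
    exact le_sup_left
  induction n with
  | zero =>
    rw [pow_zero, pow_zero]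
    exact le_sup_left
  | succ n ih =>
    calc U ^ (n + 1) = U ^ n * U := pow_succ U n
      _ ≤ (X ^ n ⊔ U ^ (n + 1)) * U := by
        gcongr
      _ = X ^ n * U ⊔ U ^ (n + 1 + 1) := by
        rw [Submodule.sup_mul, ← pow_succ]
      _ ≤ X ^ (n + 1) ⊔ U ^ (n + 1 + 1) := by
        refine sup_le ?_ le_sup_right
        calc X ^ n * U = X ^ n * (X ⊔ U * U) := by rw [h]
          _ = X ^ (n + 1) ⊔ X ^ n * (U * U) := by
            rw [Submodule.mul_sup, ← pow_succ]
          _ ≤ X ^ (n + 1) ⊔ U ^ (n + 1 + 1) := by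
            refine sup_le_sup le_rfl ?_
            calc X ^ n * (U * U) ≤ U ^ n * (U * U) := by
                  gcongr
              _ = U ^ (n + 1 + 1) := by
                  rw [pow_succ, pow_succ, mul_assoc]

/-- the span of the reduced monomials contains the subalgebra generated -/
theorem adjoin_le {F A I : Type*} [Field F] [CommRing A] [Algebra F A] [Fintype I]
    (q : I → ℕ) (x : I → A) (hq : ∀ i, 0 < q i) (h0 : ∀ i, x i ^ q i = 0) :
    Subalgebra.toSubmodule (Algebra.adjoin F (Set.range x)) ≤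
      Submodule.span F (Set.range fun α : ∀ i, Fin (q i) => ∏ i, x i ^ (α i : ℕ)) := by
  classical
  set M := Submodule.span F (Set.range fun α : ∀ i, Fin (q i) => ∏ i, x i ^ (α i : ℕ)) with hM
  have hx : ∀ i : I, ∀ m : A, m ∈ M → x i * m ∈ M := by
    intro i m hm
    have h1 : M ≤ M.comap (LinearMap.mulLeft F (x i)) := by
      rw [hM, Submodule.span_le]
      rintro _ ⟨α, rfl⟩
      change (x i * ∏ i', x i' ^ (α i' : ℕ) : A) ∈ M
      have h2 : x i * ∏ i', x i' ^ (α i' : ℕ) =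
          x i ^ ((α i : ℕ) + 1) * ∏ i' ∈ Finset.univ.erase i, x i' ^ (α i' : ℕ) := by
        rw [← Finset.mul_prod_erase Finset.univ _ (Finset.mem_univ i), ← mul_assoc, pow_succ']
      rw [h2]
      by_cases h3 : (α i : ℕ) + 1 < q i
      · refine Submodule.subset_span ⟨Function.update α i ⟨(α i : ℕ) + 1, h3⟩, ?_⟩
        change ∏ i', x i' ^ ((Function.update α i ⟨(α i : ℕ) + 1, h3⟩ i' : Fin (q i')) : ℕ) = _
        rw [← Finset.mul_prod_erase Finset.univ _ (Finset.mem_univ i), Function.update_self]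
        congr 1
        refine Finset.prod_congr rfl fun i' hi' => ?_
        rw [Function.update_of_ne (Finset.ne_of_mem_erase hi')]
      · have h4 : (α i : ℕ) + 1 = q i := by
          have := (α i).2
          omega
        rw [h4, h0 i, zero_mul]
        exact Submodule.zero_mem _
    exact h1 hm
  have h1 : (1 : A) ∈ M := by
    refine Submodule.subset_span ⟨fun i => ⟨0, hq i⟩, ?_⟩
    simp
  have h2 : ∀ a ∈ Algebra.adjoin F (Set.range x), ∀ m : A, m ∈ M → a * m ∈ M := by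
    intro a ha
    induction ha using Algebra.adjoin_induction with
    | mem z hz =>
      obtain ⟨i, rfl⟩ := hz
      exact hx i
    | algebraMap r =>
      intro m hm
      rw [← Algebra.smul_def]
      exact M.smul_mem r hm
    | add y z _ _ hy hz =>
      intro m hm
      rw [add_mul]
      exact M.add_mem (hy m hm) (hz m hm)
    | mul y z _ _ hy hz =>
      intro m hm
      rw [mul_assoc]
      exact hy _ (hz m hm)
  intro a ha
  have h3 := h2 a ha 1 h1
  rwa [mul_one] at h3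

/-- row NKY -/
theorem nky : NkyStmt := by
  intro ℓ _ F V I _ _ _ _ _ q x hV hq hspan hx0
  classical
  have hchar : CharP (MonoidAlgebra F V) ℓ :=
    charP_of_injective_algebraMap (algebraMap F (MonoidAlgebra F V)).injective ℓ
  have hfin : Module.Finite F (MonoidAlgebra F V) := inferInstance
  have hnoeth : IsNoetherianRing (MonoidAlgebra F V) := isNoetherian_of_tower F inferInstance
  obtain ⟨n, hn⟩ := IsNoetherianRing.isNilpotent_nilradical (MonoidAlgebra F V)
  have hU2 : Au2 F V = Au F V * Au F V := by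
    rw [Au, Submodule.span_mul_span]
    unfold Au2
    congr 1
    ext z
    constructor
    · rintro ⟨v, w, rfl⟩
      exact Set.mul_mem_mul ⟨v, rfl⟩ ⟨w, rfl⟩
    · rintro ⟨_, ⟨v, rfl⟩, _, ⟨w, rfl⟩, rfl⟩
      exact ⟨v, w, rfl⟩
  have hnil : ∀ a ∈ Au F V, a ∈ nilradical (MonoidAlgebra F V) := by
    intro a ha
    have h1 : Au F V ≤ (nilradical (MonoidAlgebra F V)).restrictScalars F := by
      unfold Au
      rw [Submodule.span_le]
      rintro _ ⟨v, rfl⟩
      obtain ⟨k, hk⟩ := hV v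
      change MonoidAlgebra.of F V v - 1 ∈ nilradical (MonoidAlgebra F V)
      rw [mem_nilradical]
      refine ⟨ℓ ^ k, ?_⟩
      rw [sub_pow_char_pow, ← map_pow, hk, map_one, one_pow, sub_self]
    exact h1 ha
  have hpow : ∀ m : ℕ, Au F V ^ m ≤ (nilradical (MonoidAlgebra F V) ^ m).restrictScalars F := by
    intro m
    induction m with
    | zero =>
      intro a _
      rw [pow_zero, Ideal.one_eq_top]
      trivial
    | succ m ih =>
      rw [pow_succ, Submodule.mul_le]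
      intro a ha b hb
      rw [Submodule.restrictScalars_mem, pow_succ]
      exact Ideal.mul_mem_mul (ih ha) (hnil b hb)
  have hbot : Au F V ^ n = ⊥ := by
    rw [eq_bot_iff]
    refine (hpow n).trans ?_
    rw [hn]
    intro a ha
    exact ha
  have htop : (1 : Submodule F (MonoidAlgebra F V)) ⊔ Au F V = ⊤ := by
    rw [eq_top_iff]
    intro a _
    induction a using MonoidAlgebra.induction_on with
    | of v =>
      have h1 : MonoidAlgebra.of F V v = 1 + (MonoidAlgebra.of F V v - 1) := by ring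
      rw [h1]
      exact Submodule.add_mem_sup (Submodule.one_le.mp le_rfl) (Submodule.subset_span ⟨v, rfl⟩)
    | add f g hf hg => exact Submodule.add_mem _ (hf trivial) (hg trivial)
    | smul r f hf => exact Submodule.smul_mem _ _ (hf trivial)
  set S := Subalgebra.toSubmodule (Algebra.adjoin F (Set.range x)) with hS
  have hXS : ∀ m : ℕ, Submodule.span F (Set.range x) ^ m ≤ S := by
    intro m
    induction m with
    | zero =>
      rw [pow_zero, Submodule.one_le]
      exact (Algebra.adjoin F (Set.range x)).one_mem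
    | succ m ih =>
      rw [pow_succ, Submodule.mul_le]
      intro a ha b hb
      have h1 : Submodule.span F (Set.range x) ≤ S := by
        rw [Submodule.span_le]
        exact Algebra.subset_adjoin
      exact (Algebra.adjoin F (Set.range x)).mul_mem (ih ha) (h1 hb)
  have hstep : ∀ m : ℕ, (⊤ : Submodule F (MonoidAlgebra F V)) ≤ S ⊔ Au F V ^ (m + 1) := by
    intro m
    induction m with
    | zero =>
      rw [zero_add, pow_one, ← htop]
      refine sup_le_sup ?_ le_rfl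
      rw [Submodule.one_le]
      exact (Algebra.adjoin F (Set.range x)).one_mem
    | succ m ih =>
      refine ih.trans (sup_le le_sup_left ?_)
      refine (pow_le_sup _ _ (hU2 ▸ hspan) (m + 1)).trans ?_
      exact sup_le_sup (hXS (m + 1)) le_rfl
  have h1 := hstep n
  rw [pow_succ, hbot, Submodule.bot_mul, sup_bot_eq] at h1
  rw [eq_top_iff]
  exact h1.trans (adjoin_le q x hq hx0)

end Pool.Agent.PFC.B3.H81
end -- Pool.Agent.Helper81_PFC.NKY

section -- Pool.Agent.Helper92_PFC.SST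

set_option autoImplicit false

/-!
# Squad PFC, block B3, rows SST and AVG
-/

open scoped BigOperators

noncomputable section

namespace Pool.Agent.PFC.H92

/-- averaging of an invariant complement -/
theorem avg : B3.AvgStmt := by
  intro L I E T _ _ _ _ _ y ρ η hE hcm U U' hUU hyU hyU' hρU
  classical
  obtain ⟨π, hπ⟩ : ∃ π : T →ₗ[L] T, π = U.projection U' hUU := ⟨_, rfl⟩
  have hπU : ∀ x, π x ∈ U := fun x => by rw [hπ]; exact Submodule.projection_apply_mem hUU x
  have hπ1 : ∀ x ∈ U, π x = x := fun x hx => by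
    rw [hπ]; exact Submodule.projection_apply_of_mem_left hUU hx
  have hπ0 : ∀ x ∈ U', π x = 0 := fun x hx => by
    rw [hπ]; exact (Submodule.projection_apply_eq_zero_iff hUU).2 hx
  have hπy : ∀ i x, π (y i x) = y i (π x) := by
    intro i x
    obtain ⟨u, hu, v, hv, rfl⟩ := Submodule.mem_sup.1 (hUU.sup_eq_top ▸ Submodule.mem_top (x := x))
    rw [map_add, map_add, map_add, map_add, hπ1 _ (hyU i u hu), hπ0 _ (hyU' i v hv), hπ1 u hu,
      hπ0 v hv, map_zero]
  obtain ⟨P, hP⟩ : ∃ P : T →ₗ[L] T, P = (Fintype.card E : L)⁻¹ • ∑ e, ρ e * π * ρ e⁻¹ := ⟨_, rfl⟩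
  have hPx : ∀ x, P x = (Fintype.card E : L)⁻¹ • ∑ e, ρ e (π (ρ e⁻¹ x)) := by
    intro x
    rw [hP, LinearMap.smul_apply, LinearMap.sum_apply]
    rfl
  have hPU : ∀ x, P x ∈ U := by
    intro x
    rw [hPx]
    exact U.smul_mem _ (U.sum_mem fun e _ => hρU e _ (hπU _))
  have hρρ : ∀ e x, ρ e (ρ e⁻¹ x) = x := by
    intro e x
    rw [← Module.End.mul_apply, ← map_mul, mul_inv_cancel, map_one, Module.End.one_apply]
  have hP1 : ∀ x ∈ U, P x = x := by
    intro x hx
    rw [hPx]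
    have h1 : ∀ e ∈ (Finset.univ : Finset E), ρ e (π (ρ e⁻¹ x)) = x := by
      intro e _
      rw [hπ1 _ (hρU e⁻¹ x hx), hρρ]
    rw [Finset.sum_congr rfl h1, Finset.sum_const, Finset.card_univ, ← Nat.cast_smul_eq_nsmul L,
      smul_smul, inv_mul_cancel₀ hE, one_smul]
  have hcm' : ∀ i e x, ρ e (y i x) = (η i e : L) • y i (ρ e x) := by
    intro i e x
    have h1 := congrArg (fun f : T →ₗ[L] T => f x) (hcm i e)
    exact h1
  have hPy : ∀ i x, P (y i x) = y i (P x) := by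
    intro i x
    rw [hPx, hPx, map_smul, map_sum]
    congr 1
    refine Finset.sum_congr rfl fun e _ => ?_
    rw [hcm', map_smul, map_smul, hπy, hcm', smul_smul, ← Units.val_mul, ← map_mul,
      inv_mul_cancel, map_one, Units.val_one, one_smul]
  have hPρ : ∀ f x, P (ρ f x) = ρ f (P x) := by
    intro f x
    rw [hPx, hPx, map_smul, map_sum]
    congr 1
    refine (Fintype.sum_bijective (fun e => f * e) (Group.mulLeft_bijective f) _ _ fun e => ?_).symm
    rw [← Module.End.mul_apply, ← map_mul]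
    congr 2
    rw [← Module.End.mul_apply, ← map_mul, mul_inv_rev, inv_mul_cancel_right]
  have hproj : LinearMap.IsProj U P := ⟨hPU, hP1⟩
  refine ⟨LinearMap.ker P, hproj.isCompl, fun i u hu => ?_, fun e u hu => ?_⟩
  · rw [LinearMap.mem_ker] at hu ⊢
    rw [hPy, hu, map_zero]
  · rw [LinearMap.mem_ker] at hu ⊢
    rw [hPρ, hu, map_zero]

/-- commuting operators which are scalar multiples of `ℓ`-th powers act semisimply -/
theorem sst (hred : B3.RedStmt) : B3.SstStmt := by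
  intro ℓ _ L I T _ _ _ _ _ y hcomm hz U hU
  classical
  let D := Algebra.adjoin L (Set.range y)
  let cD : CommRing D := Algebra.adjoinCommRingOfComm L (by
    rintro _ ⟨i, rfl⟩ _ ⟨j, rfl⟩
    exact hcomm i j)
  have hfin : Module.Finite L D := inferInstance
  have hmulc : ∀ a b : D, a * b = b * a := fun a b => cD.mul_comm a b
  -- the span of the powers
  obtain ⟨S, hS⟩ : ∃ S : Submodule L D, S = Submodule.span L (Set.range fun d : D => d ^ ℓ) :=
    ⟨_, rfl⟩
  have hS1 : (1 : D) ∈ S := by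
    rw [hS]
    exact Submodule.subset_span ⟨1, one_pow ℓ⟩
  have hSm : ∀ a ∈ S, ∀ b ∈ S, a * b ∈ S := by
    intro a ha b hb
    rw [hS] at ha hb ⊢
    induction ha, hb using Submodule.span_induction₂ with
    | mem_mem x y hx hy =>
      obtain ⟨x, rfl⟩ := hx
      obtain ⟨y, rfl⟩ := hy
      refine Submodule.subset_span ⟨x * y, ?_⟩
      exact mul_pow x y ℓ
    | zero_left y hy => rw [zero_mul]; exact Submodule.zero_mem _
    | zero_right x hx => rw [mul_zero]; exact Submodule.zero_mem _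
    | add_left x y z hx hy hz h1 h2 => rw [add_mul]; exact Submodule.add_mem _ h1 h2
    | add_right x y z hx hy hz h1 h2 => rw [mul_add]; exact Submodule.add_mem _ h1 h2
    | smul_left r x y hx hy h => rw [smul_mul_assoc]; exact Submodule.smul_mem _ _ h
    | smul_right r x y hx hy h => rw [mul_smul_comm]; exact Submodule.smul_mem _ _ h
  have hSy : ∀ i, (⟨y i, Algebra.subset_adjoin ⟨i, rfl⟩⟩ : D) ∈ S := by
    intro i
    obtain ⟨z, hzm, s, hs⟩ := hz i
    have h1 : (⟨y i, Algebra.subset_adjoin ⟨i, rfl⟩⟩ : D) = s • (⟨z, hzm⟩ : D) ^ ℓ := by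
      apply Subtype.ext
      exact hs
    rw [h1, hS]
    exact Submodule.smul_mem _ _ (Submodule.subset_span ⟨_, rfl⟩)
  have hStop : Submodule.span L (Set.range fun d : D => d ^ ℓ) = ⊤ := by
    rw [← hS, eq_top_iff]
    rintro ⟨x, hx⟩ -
    induction hx using Algebra.adjoin_induction with
    | mem x hx =>
      obtain ⟨i, rfl⟩ := hx
      exact hSy i
    | algebraMap r =>
      have h1 : (⟨algebraMap L (Module.End L T) r, Subalgebra.algebraMap_mem _ r⟩ : D) =
          r • (1 : D) := by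
        apply Subtype.ext
        exact Algebra.algebraMap_eq_smul_one r
      rw [h1]
      exact S.smul_mem r hS1
    | add x y hx hy h1 h2 => exact S.add_mem h1 h2
    | mul x y hx hy h1 h2 => exact hSm _ h1 _ h2
  have hR : IsReduced D := hred ℓ L D hStop
  have hA : IsArtinianRing D := IsArtinianRing.of_finite L D
  have hss : IsSemisimpleRing D := IsArtinianRing.isSemisimpleRing_of_isReduced D
  -- the submodule over `D`
  have hUD : ∀ d : D, ∀ u ∈ U, (d : Module.End L T) u ∈ U := by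
    rintro ⟨x, hx⟩ u hu
    induction hx using Algebra.adjoin_induction generalizing u with
    | mem x hx =>
      obtain ⟨i, rfl⟩ := hx
      exact hU i u hu
    | algebraMap r => exact U.smul_mem r hu
    | add x y hx hy h1 h2 => exact U.add_mem (h1 u hu) (h2 u hu)
    | mul x y hx hy h1 h2 => exact h1 _ (h2 u hu)
  let UD : Submodule D T :=
    { carrier := U
      add_mem' := fun ha hb => U.add_mem ha hb
      zero_mem' := U.zero_mem
      smul_mem' := fun d u hu => hUD d u hu }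
  have hsm : IsSemisimpleModule D T := inferInstance
  obtain ⟨WD, hWD⟩ := exists_isCompl UD
  let W : Submodule L T :=
    { carrier := WD
      add_mem' := fun ha hb => WD.add_mem ha hb
      zero_mem' := WD.zero_mem
      smul_mem' := fun r u hu => by
        have h1 := WD.smul_mem (algebraMap L D r) hu
        exact h1 }
  refine ⟨W, ?_, fun i u hu => ?_⟩
  · rw [isCompl_iff, Submodule.disjoint_def, codisjoint_iff]
    rw [isCompl_iff, Submodule.disjoint_def, codisjoint_iff] at hWD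
    refine ⟨fun x hx hx' => hWD.1 x hx hx', ?_⟩
    rw [eq_top_iff]
    intro x _
    have h1 : x ∈ UD ⊔ WD := by
      rw [hWD.2]
      exact Submodule.mem_top
    obtain ⟨u, hu, v, hv, rfl⟩ := Submodule.mem_sup.1 h1
    exact Submodule.add_mem_sup hu hv
  · have h1 := WD.smul_mem (⟨y i, Algebra.subset_adjoin ⟨i, rfl⟩⟩ : D) hu
    exact h1

end Pool.Agent.PFC.H92
end
end -- Pool.Agent.Helper92_PFC.SST

section -- Pool.Agent.Helper2_PSS.RWV

/-!
# Squad PSS, row RWV

Dual families over `W` from dual families over `V`: `V` is the disjoint union of the cosets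
`z ^ j W`, `j < orderOf z`.
-/

open scoped BigOperators

noncomputable section

namespace Pool.Agent.PSS.H2

open Pool.Agent.PSS

theorem rwv_bij {V E : Type} [CommGroup V] [Fintype V] [Group E] (φ : E →* MulAut V)
    (W : Subgroup V) (z : V) (h : Vz φ W z) :
    Function.Bijective (fun p : Fin (orderOf z) × W => z ^ (p.1 : ℕ) * (p.2 : V)) := by
  constructor
  · rintro ⟨i, u⟩ ⟨j, w⟩ hij
    have hij' : z ^ (i : ℕ) * (u : V) = z ^ (j : ℕ) * (w : V) := hij
    have key : ∀ (i j : Fin (orderOf z)) (u w : W), z ^ (i : ℕ) * (u : V) = z ^ (j : ℕ) * (w : V) →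
        (i : ℕ) ≤ j → i = j := by
      intro i j u w hh hle
      obtain ⟨d, hd⟩ := Nat.exists_eq_add_of_le hle
      rw [hd, pow_add, mul_assoc] at hh
      have h1 : (u : V) = z ^ d * w := mul_left_cancel hh
      have h2 : z ^ d = (u : V) * (w : V)⁻¹ := by
        rw [h1, mul_assoc, mul_inv_cancel, mul_one]
      have h3 : z ^ d = 1 := by
        apply h.dis
        rw [h2]
        exact W.mul_mem u.2 (W.inv_mem w.2)
      have h4 : orderOf z ∣ d := orderOf_dvd_of_pow_eq_one h3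
      have h5 : d < orderOf z := by
        have := j.2
        omega
      have h6 : d = 0 := Nat.eq_zero_of_dvd_of_lt h4 h5
      apply Fin.ext
      omega
    have h1 : i = j := by
      rcases le_total (i : ℕ) (j : ℕ) with h2 | h2
      · exact key i j u w hij' h2
      · exact (key j i w u hij'.symm h2).symm
    subst h1
    have h2 : (u : V) = w := mul_left_cancel hij'
    have h3 : u = w := Subtype.ext h2
    rw [h3]
  · intro v
    obtain ⟨j, w, hw, hv⟩ := h.gen v
    have hpos : 0 < orderOf z := orderOf_pos z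
    refine ⟨(⟨j % orderOf z, Nat.mod_lt _ hpos⟩, ⟨w, hw⟩), ?_⟩
    show z ^ (j % orderOf z) * w = v
    rw [pow_mod_orderOf, ← hv]

theorem rwv_sum {V E A : Type} [CommGroup V] [Fintype V] [Group E] [AddCommMonoid A]
    (φ : E →* MulAut V) (W : Subgroup V) [Fintype W] (z : V) (h : Vz φ W z) (f : V → A) :
    ∑ j : Fin (orderOf z), ∑ w : W, f (z ^ (j : ℕ) * (w : V)) = ∑ v, f v := by
  rw [← Fintype.sum_prod_type' (f := fun (j : Fin (orderOf z)) (w : W) =>
    f (z ^ (j : ℕ) * (w : V)))]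
  exact (rwv_bij φ W z h).sum_comp f

theorem rwv : RwvStmt := by
  intro k V E A K _ _ _ _ _ _ _ φ W _ z α lam x y hz hR
  have e0 : ∀ (j : ℕ) (w : W) (t : A), aw α W w⁻¹ * (α (z ^ j)⁻¹ * t) =
      α (z ^ j * (w : V))⁻¹ * t := by
    intro j w t
    have h1 : aw α W w⁻¹ = α (w : V)⁻¹ := rfl
    rw [h1, ← mul_assoc, ← map_mul, mul_inv_rev]
  have e0' : ∀ (j : ℕ) (w : W) (t : A), t * α (z ^ j) * aw α W w =
      t * α (z ^ j * (w : V)) := by
    intro j w t
    have h1 : aw α W w = α (w : V) := rfl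
    rw [h1, mul_assoc, ← map_mul]
  refine ⟨hR.sym, ?_, ?_⟩
  · intro a
    rw [Fintype.sum_prod_type]
    refine Eq.trans ?_ (hR.e1 a)
    refine Finset.sum_congr rfl ?_
    intro q _
    rw [← rwv_sum φ W z hz (fun v => lam (α v⁻¹ * y q * a) • (x q * α v))]
    refine Finset.sum_congr rfl ?_
    intro j _
    refine Finset.sum_congr rfl ?_
    intro w _
    show lam (aw α W w⁻¹ * (α (z ^ (j : ℕ))⁻¹ * y q) * a) • (x q * α (z ^ (j : ℕ)) * aw α W w) = _
    rw [e0, e0']
  · intro a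
    rw [Fintype.sum_prod_type]
    refine Eq.trans ?_ (hR.e2 a)
    refine Finset.sum_congr rfl ?_
    intro q _
    rw [← rwv_sum φ W z hz (fun v => lam (a * (x q * α v)) • (α v⁻¹ * y q))]
    refine Finset.sum_congr rfl ?_
    intro j _
    refine Finset.sum_congr rfl ?_
    intro w _
    show lam (a * (x q * α (z ^ (j : ℕ)) * aw α W w)) • (aw α W w⁻¹ * (α (z ^ (j : ℕ))⁻¹ * y q)) = _
    rw [e0, e0']

end Pool.Agent.PSS.H2
end
end -- Pool.Agent.Helper2_PSS.RWV

section -- Pool.Agent.Helper40_PSS.FRD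

/-! Row FRD of squad PSS: centre and form of a deformation in the sense of `Df` (helper40). -/

open scoped BigOperators TensorProduct

noncomputable section

namespace Pool.Agent.PSS.H40

open Pool.Agent.PFC (tw)
open Pool.Agent.PFD.D2b (FrR)

theorem frd (hD : DfmStmt) (hC : CefStmt) (hF : FrfStmt) : FrdStmt := by
  intro ℓ _ F V E A A' κ _ _ _ _ _ _ _ _ _ _ _ _ _ _ φ W _ z α α' lam x y u hPer hRF hu hVz df
  obtain ⟨Ω, iF, iA, b, c, hFr, hSt⟩ := hPer
  have hSE : StE φ Ω := by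
    intro ω u v h
    obtain ⟨e, S, hS⟩ := hSt ω
    have h1 : ((u, v) : V × V) ∈ MulAction.stabilizer (V × V) ω := h
    rw [hS] at h1
    obtain ⟨s, _, hs⟩ := h1
    have h2 : φ e s = u := congrArg Prod.fst hs
    have h3 : s = v := congrArg Prod.snd hs
    exact ⟨e, by rw [← h2, h3]⟩
  let iW : MulAction (W × W) Ω := MulAction.compHom Ω (W.subtype.prodMap W.subtype)
  have hFr' : FrR (bw F (aw α W)) b c :=
    ⟨fun g t => hFr.1 (W.subtype.prodMap W.subtype g) t,
      fun g t n => hFr.2.1 (W.subtype.prodMap W.subtype g) t n, hFr.2.2⟩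
  obtain ⟨D₀, θ, hθw, hθ⟩ := hD F W A A' Ω (aw α W) α' b c hFr' df
  have hq : ∀ Z : D₀.R, df.q (θ Z) = D₀.sq Z 0 := by
    intro Z
    have h1 := hθ (D₀.sq Z)
    rw [Dm.of_sq] at h1
    exact h1
  constructor
  · intro z₀ hz₀
    obtain ⟨Z, hZ, hZ0⟩ := hC ℓ F V E A κ Ω φ W z α lam x y b c u D₀ hRF hFr hSE hVz hu z₀ hz₀
    refine ⟨θ Z, fun a => ?_, ?_⟩
    · have h1 := congrArg θ (hZ (θ.symm a))
      rw [map_mul, map_mul, AlgEquiv.apply_symm_apply] at h1
      exact h1
    · rw [hq, hZ0]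
  · obtain ⟨Λ, κ', iκ, x', y', hR, hΛ⟩ :=
      hF ℓ F V E A κ Ω φ W z α lam x y b c u D₀ hRF hFr hSE hVz hu
    refine ⟨Λ.comp θ.symm.toLinearMap, κ', iκ, fun k => θ (x' k), fun k => θ (y' k), ?_, ?_⟩
    · constructor
      · intro a a'
        change Λ (θ.symm (a * a')) = Λ (θ.symm (a' * a))
        rw [map_mul θ.symm, map_mul θ.symm, hR.sym]
      · intro a
        have h1 := congrArg θ (hR.e1 (θ.symm a))
        rw [AlgEquiv.apply_symm_apply, map_sum] at h1
        refine Eq.trans (Finset.sum_congr rfl fun k _ => ?_) h1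
        rw [map_sum]
        refine Finset.sum_congr rfl fun w _ => ?_
        have h2 : Λ (θ.symm (α' w⁻¹ * θ (y' k) * a)) = Λ (D₀.w w⁻¹ * y' k * θ.symm a) := by
          rw [map_mul θ.symm, map_mul θ.symm, AlgEquiv.symm_apply_apply, ← hθw,
            AlgEquiv.symm_apply_apply]
        change Λ (θ.symm (α' w⁻¹ * θ (y' k) * a)) • _ = _
        rw [map_smul θ, map_mul θ, hθw, h2]
      · intro a
        have h1 := congrArg θ (hR.e2 (θ.symm a))
        rw [AlgEquiv.apply_symm_apply, map_sum] at h1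
        refine Eq.trans (Finset.sum_congr rfl fun k _ => ?_) h1
        rw [map_sum]
        refine Finset.sum_congr rfl fun w _ => ?_
        have h2 : Λ (θ.symm (a * (θ (x' k) * α' w))) = Λ (θ.symm a * (x' k * D₀.w w)) := by
          rw [map_mul θ.symm, map_mul θ.symm, AlgEquiv.symm_apply_apply, ← hθw,
            AlgEquiv.symm_apply_apply]
        change Λ (θ.symm (a * (θ (x' k) * α' w))) • _ = _
        rw [map_smul θ, map_mul θ, hθw, h2]
    · intro a
      change PowerSeries.constantCoeff (Λ (θ.symm a)) = _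
      have h1 := hΛ (D₀.sq (θ.symm a))
      rw [Dm.of_sq] at h1
      rw [h1, ← hq, AlgEquiv.apply_symm_apply]

end Pool.Agent.PSS.H40
end
end -- Pool.Agent.Helper40_PSS.FRD

section -- Pool.Agent.Helper41_PSS.CEF

/-!
# Squad PSS, rows CEF and FRF
-/

set_option autoImplicit false

open scoped BigOperators TensorProduct

noncomputable section

namespace Pool.Agent.PSS.H41

open Pool.Agent.PFD.D2 (Cdv FibG wittCdv)
open Pool.Agent.PFD.D2b (FrR)
open Dm (cst)

theorem cef (hLDA : LdaStmt) (hUZL : UzlStmt) (hCEN : CenStmt) (hRMP : RmpStmt) : CefStmt := by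
  intro ℓ _ F V E A₀ κ Ω _ _ _ _ _ _ _ _ _ _ _ _ φ W z α₀ lam₀ x₀ y₀ b₀ c₀ u₀ D₀ hrf hfr hst
    hvz hu0 z₀ hz₀
  obtain ⟨A, _, _, _, _, f, α, lam, x, y, b, c, u, D, hL, hu, hm, hH⟩ :=
    hLDA ℓ F V E A₀ κ Ω φ W z α₀ lam₀ x₀ y₀ b₀ c₀ u₀ D₀ hrf hfr hst hvz hu0
  obtain ⟨z', hz', hzq⟩ := (hUZL (WittVector ℓ F) F V A₀ A κ Ω (wittCdv ℓ F) α₀ lam₀ x₀ y₀ b₀ c₀
    f α lam x y b c u₀ hL hu0).2.2 z₀ hz₀
  obtain ⟨Z, hZ, hZ0⟩ := hCEN (WittVector ℓ F) W A (aw α W) D hH z' hz'
  obtain ⟨ψ, hψ, -, -, hs, -⟩ := hRMP (WittVector ℓ F) F W A A₀ (aw α W) (aw α₀ W) D D₀ f.q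
    (wittCdv ℓ F).κ f.sc (fun w => hL.qa w) hm
  refine ⟨ψ Z, ?_, ?_⟩
  · intro a
    obtain ⟨a', rfl⟩ := hs f.surj a
    rw [← map_mul, hZ, map_mul]
  · rw [← D.of_sq Z, hψ, D₀.sq_of, hZ0, hzq]

theorem frf (hLDA : LdaStmt) (hRWV : RwvStmt) (hFMX : FmxStmt) (hFSR : FsrStmt)
    (hRED : RedStmt) : FrfStmt := by
  intro ℓ _ F V E A₀ κ Ω _ _ _ _ _ _ _ _ _ _ _ _ φ W _ z α₀ lam₀ x₀ y₀ b₀ c₀ u₀ D₀ hrf hfr hst
    hvz hu0
  obtain ⟨A, _, _, _, _, f, α, lam, x, y, b, c, u, D, hL, hu, hm, hH⟩ :=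
    hLDA ℓ F V E A₀ κ Ω φ W z α₀ lam₀ x₀ y₀ b₀ c₀ u₀ D₀ hrf hfr hst hvz hu0
  have h1 := hRWV (WittVector ℓ F) V E A κ φ W z α lam x y hvz hL.rf
  obtain ⟨Λ, hΛ1, hΛ2⟩ := hFMX (WittVector ℓ F) W A _ (aw α W) D lam _ _ hH h1
  obtain ⟨y', hy1, -⟩ := hFSR (WittVector ℓ F) W A _ (aw α W) D lam _ _ Λ h1 hΛ1 hΛ2
  obtain ⟨ψ, Λ₀, hψ, -, -, hΛ₀, hRF⟩ := hRED (WittVector ℓ F) F V A A₀ _ W α (wittCdv ℓ F) f α₀ D
    D₀ Λ _ _ hL.qa hm hy1
  refine ⟨Λ₀, _, inferInstance, _, _, hRF, ?_⟩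
  intro g
  choose g' hg' using fun n => f.surj (g n)
  have e : D₀.of g = ψ (D.of g') := by
    rw [hψ]
    congr 1
    funext n
    exact (hg' n).symm
  rw [e, hΛ₀, ← PowerSeries.coeff_zero_eq_constantCoeff_apply, PowerSeries.coeff_map,
    PowerSeries.coeff_zero_eq_constantCoeff_apply, hΛ2, hL.ql, hg']

end Pool.Agent.PSS.H41
end
end -- Pool.Agent.Helper41_PSS.CEF

section -- Pool.Agent.Helper80_PSS.LDA

/-!
# Row LDA of squad PSS: an algebra and a deformation lift to the Witt vectors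
-/

open scoped BigOperators TensorProduct

namespace Pool.Agent.PSS.H80

open Pool.Agent.PFD.D2 (Cdv FibG wittCdv witt_charZero)
open Pool.Agent.PFD.D2b (FrR)

theorem lda (hL : LftStmt) (hX : KexStmt) (hT : TlfStmt) (hM : DmrStmt) (hH : H1vStmt) :
    LdaStmt := by
  intro ℓ _ F V E A₀ κ Ω _ _ _ _ _ _ _ _ _ _ _ _ φ W z α₀ lam₀ x₀ y₀ b₀ c₀ u₀ D₀ hRF hFr hSt
    hVz hu
  haveI : CharZero (WittVector ℓ F) := witt_charZero ℓ F
  obtain ⟨A, rA, aA, fA, frA, f, α, lam, x, y, b, c, u, hLV, hu'⟩ :=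
    hL (WittVector ℓ F) F V A₀ κ Ω (wittCdv ℓ F) α₀ lam₀ x₀ y₀ b₀ c₀ u₀ inferInstance hRF hFr hu
  letI := rA
  letI := aA
  haveI := fA
  haveI := frA
  haveI : CharZero (FractionRing (WittVector ℓ F)) :=
    charZero_of_injective_algebraMap
      (IsFractionRing.injective (WittVector ℓ F) (FractionRing (WittVector ℓ F)))
  obtain ⟨C⟩ := hX (WittVector ℓ F) (FractionRing (WittVector ℓ F)) V A κ Ω α lam x y b c
    hLV.rf hLV.fr
  obtain ⟨P, m, hTr, hm⟩ := hT (WittVector ℓ F) (FractionRing (WittVector ℓ F)) F V E A A₀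
    (FractionRing (WittVector ℓ F) ⊗[WittVector ℓ F] A) κ Ω φ W z α lam x y b c C u
    (wittCdv ℓ F) f α₀ D₀ hVz hSt hu' hLV.qa
  obtain ⟨D, hD⟩ := hM (WittVector ℓ F) (FractionRing (WittVector ℓ F)) V A _ W α C.i C.inj C.tow
    P m hTr (fun n a₁ a₂ => by
      obtain ⟨e, he, -⟩ := hm n a₁ a₂
      exact ⟨e, he⟩)
  refine ⟨A, rA, aA, fA, frA, f, α, lam, x, y, b, c, u, D, hLV, hu', ?_, ?_⟩
  · intro n a a'
    obtain ⟨e, he, hq⟩ := hm n a a'
    have h1 : e = D.m n a a' := C.inj (he.trans (hD n a a').symm)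
    rw [← h1, hq]
  · intro δ hδ hw
    obtain ⟨e, he, h2⟩ := hH (WittVector ℓ F) (FractionRing (WittVector ℓ F)) V E A _ κ Ω φ W z
      α lam x y b c C u hVz hu' δ hδ (fun w hw' => hw ⟨w, hw'⟩)
    exact ⟨e, fun w => he w w.2, h2⟩

end Pool.Agent.PSS.H80
end -- Pool.Agent.Helper80_PSS.LDA

section -- Pool.Agent.Helper81_PSS.PER

/-!
# Squad PSS, row PER (helper81): the constant frame has the same restricted stabilisers
-/

set_option autoImplicit false

open scoped BigOperators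

noncomputable section

namespace Pool.Agent.PSS.H81

open Pool.Agent.PSS
open Pool.Agent.PFC (tw)
open Pool.Agent.PFD.D2b (FrR)

/-- row PER -/
theorem per (hCFR : CfrStmt) : PerStmt := by
  classical
  intro F V E A _ _ _ _ _ φ W ψ α D₀ hψ hper
  obtain ⟨Ω, hΩ, hact, b, c, hfr, hst⟩ := hper
  let j : W × W →* V × V := W.subtype.prodMap W.subtype
  let act : MulAction (W × W) Ω := MulAction.compHom Ω j
  have hsm : ∀ (g : W × W) (t : Ω), g • t = (j g) • t := fun _ _ => rfl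
  have hfr' : FrR (bw F (aw α W)) b c := by
    obtain ⟨h1, h2, h3⟩ := hfr
    refine ⟨fun g t => ?_, fun g t n => ?_, h3⟩
    · rw [hsm, h1]
      rfl
    · rw [hsm]
      exact h2 (j g) t n
  obtain ⟨cs, hcs, -⟩ := hCFR F W A Ω (aw α W) D₀ b c hfr'
  refine ⟨Ω, hΩ, act, _, cs, hcs, fun ω => ?_⟩
  obtain ⟨e, S, hS⟩ := hst ω
  refine ⟨e, S.subgroupOf W, ?_⟩
  ext ⟨u, v⟩
  have h1 : ((u, v) : W × W) ∈ MulAction.stabilizer (W × W) ω ↔
      (((u : V), (v : V)) : V × V) ∈ MulAction.stabilizer (V × V) ω := Iff.rfl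
  rw [h1, hS]
  constructor
  · rintro ⟨s, hs, hs'⟩
    have h2 : φ e s = (u : V) := congrArg Prod.fst hs'
    have h3 : s = (v : V) := congrArg Prod.snd hs'
    subst h3
    refine ⟨v, hs, ?_⟩
    refine Prod.ext (Subtype.ext ?_) rfl
    show ((ψ e v : W) : V) = u
    rw [hψ, h2]
  · rintro ⟨s, hs, hs'⟩
    have h2 : ψ e s = u := congrArg Prod.fst hs'
    have h3 : s = v := congrArg Prod.snd hs'
    subst h3
    refine ⟨(s : V), hs, ?_⟩
    refine Prod.ext ?_ rfl
    show φ e (s : V) = u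
    rw [← hψ, h2]

end Pool.Agent.PSS.H81
end
end -- Pool.Agent.Helper81_PSS.PER

section -- Pool.Agent.Helper82_PSS.VZC

/-!
Squad PSS, row VZC (helper82): `Vz` from the complements.
-/

noncomputable section

namespace Pool.Agent.PSS.H82

theorem vzc : VzcStmt := by
  intro V E _ _ _ φ Y W h
  classical
  have hc := h.cmp
  have hcyc := h.cyc
  have hsw := h.sw
  obtain ⟨g, hg⟩ := hcyc.exists_generator
  have hz : Subgroup.zpowers (g : V) = Y := by
    ext x
    constructor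
    · rintro ⟨n, rfl⟩
      exact Y.zpow_mem g.2 n
    · intro hx
      obtain ⟨n, hn⟩ := hg ⟨x, hx⟩
      exact ⟨n, congrArg Subtype.val hn⟩
  refine ⟨(g : V), hz, ⟨?_, ?_, fun e w hw => hsw e w hw⟩, ?_, ?_⟩
  · intro v
    have hv : v ∈ Y ⊔ W := by
      rw [hc.sup_eq_top]
      exact Subgroup.mem_top v
    obtain ⟨y, hy, w, hw, rfl⟩ := Subgroup.mem_sup.1 hv
    rw [← hz, mem_zpowers_iff_mem_range_orderOf, Finset.mem_image] at hy
    obtain ⟨j, -, hj⟩ := hy
    exact ⟨j, w, hw, by rw [← hj]⟩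
  · intro j hj
    have h1 : (g : V) ^ j ∈ Y ⊓ W := ⟨Y.pow_mem g.2 j, hj⟩
    rw [hc.inf_eq_bot] at h1
    exact Subgroup.mem_bot.1 h1
  · rw [hz]
    exact hc
  · intro hY h1
    apply hY
    rw [← hz, h1, Subgroup.zpowers_one_eq_bot]

end Pool.Agent.PSS.H82
end
end -- Pool.Agent.Helper82_PSS.VZC
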