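import Pool.Agent.Helper12_AWB.B006
import Pool.Agent.Helper12_AWB.B018

/-!
# Merged copies (generated) of the modules

* `Pool.Agent.PST.StmtsU`
* `Pool.Agent.Helper12_PST.CHP`
* `Pool.Agent.Helper12_PST.FIT`
* `Pool.Agent.Helper12_PST.UNR`
* `Pool.Agent.Helper41_PSS.QBK`
* `Pool.Agent.Helper41_PSS.PRQ`
* `Pool.Agent.Helper28_PSS.BLK`
* `Pool.Agent.Helper30_PSS.GFP`
* `Pool.Agent.Helper30_PST.PWC`
* `Pool.Agent.Helper32_PSS.CrrA`
* `Pool.Agent.Helper32_PSS.CrrB`
* `Pool.Agent.Helper49_PST.CRT`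
* `Pool.Agent.Helper49_PST.LIX`
* `Pool.Agent.Helper70_PST.SPS`
* `Pool.Agent.Helper77_PST.UNC`
* `Pool.Agent.Helper82_PST.DVD`
* `Pool.Agent.Helper91_PSS.CEN`
* `Pool.Agent.Helper84_PST.CNA`
* `Pool.Agent.Helper89_PST.VNX`
* `Pool.Agent.Helper32_PSS.CRR`
-/

set_option autoImplicit false

section -- Pool.Agent.PST.StmtsU

/-!
# Squad PST, block U (helper30 with helper78): the blocks of the generic fibre

`As` an algebra over `F⟦X⟧` with a group `γ : W →* As`, of the type `C0` (form with a relative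
Frobenius system over `W`, permutation frame, units which induce `E`), `E` induces an abelian group on
`W`.  `C = F' ⊗ As`, `F'` a field over `F⟦X⟧`.  Result (GFV): `C` is in the class `Cl`, if
* `Vsh`: closedness, `As(Q)` has no central elements with `br_Q' = 0` for all `Q' > Q`, unless
  `Q = C_W(C_E(Q))`;
* `Nlw`: the central elements of `As` in the Brauer kernel of `⟨w₀⟩` are nilpotent (proved in part A, B
  from a lift of `As` to `O⟦X⟧`), `w₀` an element of `W` with `C_E(w₀) = C_E(W)`;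
* `Etw`: the relative trace of `1` in `As(W)` divides a power of `X`;
* `Rel`: a homogeneous relation between the relative traces of `w` and `1` (from the lift).

Everything is elementary, no characters.  Complete proofs in the docstrings.  All rows of the blocks S0, S3
of squad PSS are PROVED: import `Pool.Agent.Helper30_PSS.S3All` (theorems `Pool.Agent.PSS.All30.bkf`,
`fco`, `fbk`, `ftr`, `bki`, `zrt`, `trs`, `rfs`, `ind`, `bqx`, `lmb`, `mck`, `bpu`, `bls`, `gfb`, `gfq`, `idn`,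
.. `: S0.BkfStmt` etc.); all rows of S1: `Pool.Agent.PSS.AllS` (theorems `Pool.Agent.PSS.All.a_csu`, ..).
Base change lemmas: `Pool.Agent.Helper64_PSS.GFB` (`bcf`, `bcf_ap`, `cw_t`, `fx_t`, `bcw_ap`).
We write `v` for `γ v`, `α v`, `D.w v`; `rt(a) = ∑ x k * a * y k`.
-/

open scoped BigOperators TensorProduct PowerSeries

noncomputable section

namespace Pool.Agent.PST.U

open Pool.Agent.PFC (tw IsTv)
open Pool.Agent.PFD.D2 (Cdv FibG wittCdv)
open Pool.Agent.PFD.D2b (FrR)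
open Pool.Agent.PSS
open Pool.Agent.PSS.S0
open Pool.Agent.PSS.S3

/-! ## Definitions -/

/-- `Q` is closed: `Q = C_W(C_E(Q))`. -/
def Clo {W E : Type} [CommGroup W] [Group E] (ψ : E →* MulAut W) (Q : Subgroup W) : Prop :=
  ∀ w : W, (∀ e : E, (∀ q ∈ Q, ψ e q = q) → ψ e w = w) → w ∈ Q

/-- The central elements of `As(Q)` with `br_Q' = 0` for all `Q' > Q` are zero. -/
def Vsh (R : Type) {W As : Type} [CommRing R] [CommGroup W] [Ring As] [Algebra R As]
    (γ : W →* As) (Q : Subgroup W) : Prop :=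
  ∀ a ∈ FxR (cw R γ) ⊤, (∀ Q' : Subgroup W, Q < Q' → a ∈ BKR (cw R γ) Q') →
    (∀ m ∈ FxR (cw R γ) Q, a * m - m * a ∈ BKR (cw R γ) Q) → a ∈ BKR (cw R γ) Q

/-- The central elements in the Brauer kernel of `⟨w⟩` are nilpotent. -/
def Nlw (R : Type) {W As : Type} [CommRing R] [CommGroup W] [Ring As] [Algebra R As]
    (γ : W →* As) (w : W) : Prop :=
  ∀ z : As, (∀ a, z * a = a * z) → z ∈ BKR (cw R γ) (Subgroup.zpowers w) → IsNilpotent z

/-- The relative trace of `1` in `As(W)` divides a power of `X`. -/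
def Etw (F : Type) {W As : Type} [Field F] [CommGroup W] [Fintype W] [Ring As] [Algebra F⟦X⟧ As]
    (γ : W →* As) (lam : As →ₗ[F⟦X⟧] F⟦X⟧) : Prop :=
  ∀ (Bs KB : Type) [Ring Bs] [Algebra F⟦X⟧ Bs] [Fintype KB] (γB : W →* Bs) (βs : As → Bs)
    (lamB : Bs →ₗ[F⟦X⟧] F⟦X⟧) (xB yB : KB → Bs), IsBQ F⟦X⟧ γ ⊤ γB βs → RF F⟦X⟧ γB lamB xB yB →
    (∀ a ∈ FxR (cw F⟦X⟧ γ) ⊤, lamB (βs a) = lam a) →
    ∃ (m : ℕ) (u : Bs), u * ∑ k, xB k * yB k = (PowerSeries.X ^ m : F⟦X⟧) • (1 : Bs)

/-- A homogeneous relation between the relative traces of `w` and of `1`. -/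
def Rel (F : Type) {W As K : Type} [Field F] [CommGroup W] [Ring As] [Algebra F⟦X⟧ As] [Fintype K]
    (x y : K → As) (γ : W →* As) (w : W) : Prop :=
  ∃ (d : ℕ) (a : ℕ → F), a 0 ≠ 0 ∧ ∑ i ∈ Finset.range (d + 1),
    (PowerSeries.C (a i) : F⟦X⟧) • ((∑ k, x k * γ w * y k) ^ i * (∑ k, x k * y k) ^ (d - i)) = 0

/-- `L` (over `S`) is a lift of `As` (over `R`) modulo `ℓ`, `p : L → As` the reduction, `κ : S → R`. -/
structure OL (ℓ : ℕ) {S R W As L K : Type} [CommRing S] [CommRing R] [CommGroup W] [Fintype W]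
    [Ring As] [Algebra R As] [Ring L] [Algebra S L] [Fintype K] (κ : S →+* R) (γ : W →* As)
    (γL : W →* L) (p : L →+* As) (lamL : L →ₗ[S] S) (x y : K → L) : Prop where
  sur : Function.Surjective κ
  sep : ∀ d : S, d ≠ 0 → ∃ (m : ℕ) (d' : S), d = (ℓ : S) ^ m * d' ∧ κ d' ≠ 0
  sc : ∀ (s : S) (a : L), p (s • a) = κ s • p a
  pw : ∀ w, p (γL w) = γ w
  ker : ∀ a, p a = 0 → ∃ a', a = ℓ • a'
  tf : ∀ a : L, ℓ • a = 0 → a = 0
  rf : RF S γL lamL x y
  cen : ∀ z : As, (∀ a, z * a = a * z) → ∃ z' : L, (∀ a, z' * a = a * z') ∧ p z' = z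
  fr : ∃ (Ω : Type) (_ : Fintype Ω) (_ : MulAction (W × W) Ω) (b : Ω → L)
    (c : Ω → (L →ₗ[S] S)) (c₀ : Ω → (As →ₗ[R] R)), FrR (bw S γL) b c ∧
    FrR (bw R γ) (fun ω => p (b ω)) c₀

/-! ## A. Vanishing in the lift -/

/-- VNX (300).  Proof (compare `Helper28_PSS/VAN.lean`).  `n = ℓ^k`.
`f (w (∑ a x)^n) = ∑ Θ u` over `u : Fin n → X`, `Θ u = f (w a(u_0) a(u_1) .. a(u_(n-1)))`.  The map
`σ u = (w⁻¹ u_(n-1), u_0, .., u_(n-2))` satisfies `Θ (σ u) = Θ u`:
`f (w a(u_0) .. a(u_(n-1))) = f (a(u_(n-1)) w a(u_0) .. a(u_(n-2)))` and `a(x) w = w a(w⁻¹ x)`.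
`σ^n u = w⁻¹ u` (componentwise), so `σ^(n ord w) = 1`, `n ord w` is a power of `ℓ`, and `σ^n` has no fixed
point.  So all orbits of `⟨σ⟩` have a length which is a power of `ℓ` and does not divide `n = ℓ^k`, hence is
divisible by `ℓ^(k+1)`.  The fibres `Θ⁻¹ z` are `σ`-stable, so `ℓ^(k+1)` divides their cardinalities, and
`∑ Θ = ∑_z |Θ⁻¹ z| • z`.  (Orbit lengths: `MulAction` of `Multiplicative (ZMod (ℓ^N))` or
`Function.minimalPeriod`; or: pass from `X` to the orbits of `σ^(n)`.) -/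
def VnxStmt : Prop :=
  ∀ (ℓ : ℕ) [Fact ℓ.Prime] (W X B Z : Type) [CommGroup W] [Finite W] [Fintype X] [MulAction W X]
    [Ring B] [AddCommGroup Z] (γ : W →* B) (a : X → B) (f : B →+ Z) (w : W) (k : ℕ),
    IsPGroup ℓ W → (∀ v x, γ v * a x * γ v⁻¹ = a (v • x)) → (∀ x y, f (x * y) = f (y * x)) →
    (∀ x : X, w • x ≠ x) → ∃ y : Z, f (γ w * (∑ x, a x) ^ ℓ ^ k) = ℓ ^ (k + 1) • y

/-- PWC (301).  Proof: in the commutative ring `Subring.closure {a, d}` (`Subring.closureCommRingOfComm`)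
use `dvd_sub_pow_of_dvd_sub`; or induction on `k` with the binomial formula (`Commute.add_pow`) for
`(A + ℓ^(k+1) D)^ℓ`, `A`, `D` commuting: the terms `i ≥ 1` are divisible by `ℓ^(k+2)`. -/
def PwcStmt : Prop :=
  ∀ (ℓ : ℕ) [Fact ℓ.Prime] (L : Type) [Ring L] (a d : L), a * d = d * a →
    ∀ k : ℕ, ∃ y : L, (a + ℓ • d) ^ ℓ ^ k = a ^ ℓ ^ k + ℓ ^ (k + 1) • y

/-- NBL (302, uses VNX PWC).  Proof.  `fr`: `b`, `c`, `c₀`.  `c₀ ((v,v) ω) z = c₀ ω z` (`z` is central), and
`c₀ ω z = 0` if `(w,w) ω = ω` (FCO for the diagonal action and `P = ⟨w⟩`).  `X = {ω | (w,w) ω ≠ ω}` is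
stable under the diagonal action of `W` (`W` is commutative).  With a section `s` of `κ`:
`a ω = s (c₀ ω z) • b ω` satisfies `v a(ω) v⁻¹ = a ((v,v) ω)`; `z' = ∑_(ω in X) a ω`, `p z' = z`, `z'` commutes
with `W`.  `z1` = the central lift of `z` (`cen`): `z1 = z' + ℓ • δ` (`ker`), and `z' δ = δ z'` by `tf`
(`z1` is central).
`f b = ∑_(k, v) x k v b v⁻¹ y k` is a trace map `L → L` (RFS and TRS for the trivial subgroup).  VNX:
`f (w z'^n) = ℓ^(k+1) • y`, `n = ℓ^k`.  `f (w z'^n) = |W| ∑ x k w z'^n y k`.  PWC: `z1^n = z'^n + ℓ^(k+1) • y'`.  So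
`|W| z1^n rt(w) = |W| ∑ x k w z1^n y k` is `ℓ^(k+1) • y''`; multiply by `r`: `|W| d • z1^n = ℓ^(k+1) • y3`.
`|W| = ℓ^g`, `d = ℓ^m d'`, `κ d' ≠ 0` (`sep`).  Take `k = g + m` and cancel (`tf`): `d' • z1^n = ℓ • y3`.  Apply `p`:
`κ d' • z^n = 0`, so `z^n = 0` (apply `c₀ ω`, `R` is a domain). -/
def NblStmt : Prop :=
  ∀ (ℓ : ℕ) [Fact ℓ.Prime] (S R W As L K : Type) [CommRing S] [CommRing R] [IsDomain R]
    [CommGroup W] [Fintype W] [Ring As] [Algebra R As] [Ring L] [Algebra S L] [Fintype K]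
    (κ : S →+* R) (γ : W →* As) (γL : W →* L) (p : L →+* As) (lamL : L →ₗ[S] S) (x y : K → L)
    (w : W) (r : L) (d : S), (ℓ : R) = 0 → IsPGroup ℓ W → OL ℓ κ γ γL p lamL x y → d ≠ 0 →
    r * ∑ k, x k * γL w * y k = d • (1 : L) → Nlw R γ w

/-- DVD (303).  Proof: `M` = the matrix of the right multiplication by `r` in a basis; if `det M = 0` then
there is `v ≠ 0` with `M v = 0` (`Matrix.exists_mulVec_eq_zero_iff`), i.e. `a ≠ 0`, `a r = 0`.  `d = det M`,
`r'` = the element with the coordinates `adjugate M * (coordinates of 1)`: `r' r = d • 1`. -/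
def DvdStmt : Prop :=
  ∀ (S L : Type) [CommRing S] [IsDomain S] [Ring L] [Algebra S L] [Module.Finite S L]
    [Module.Free S L] (r : L), (∀ a, a * r = 0 → a = 0) →
    ∃ (r' : L) (d : S), d ≠ 0 ∧ r' * r = d • (1 : L)

/-- SPS (304).  Proof.  Some coefficient of `d` is not `0`, so by `sep` it is not divisible by some `π^N`;
let `m` be maximal such that `π^m` divides all coefficients, `d = π^m d'`.  If `κ d' = 0` then all coefficients
of `d'` are divisible by `π` (`ker`). -/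
def SpsStmt : Prop :=
  ∀ (R F : Type) [CommRing R] [Field F] (c : Cdv R F) (d : R⟦X⟧), d ≠ 0 →
    ∃ (m : ℕ) (d' : R⟦X⟧), d = (PowerSeries.C c.π) ^ m * d' ∧ PowerSeries.map c.κ d' ≠ 0

/-! ## B. The relative traces of the lift -/

/-- CRT (305).  The trace formula over `K`, without complement and in the form of rings.  Proof: an EDIT of
`Helper32_PSS/CRR.lean` (row CRR): `T` = the ring `T.R` of the trivial deformation, `Φ = exPhi`, `j b = T.of (cst b)`,
`N`, `N'` as there; instead of `Fin (orderOf z)` use a transversal `S` of `W` in `V` (`PFC.IsTv W ⊤ S`): the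
families `x k s`, `s⁻¹ y k` are dual over `W` (row RFS of S0, proved), `∑_(k, s) x k s w s⁻¹ y k = W.index • rt(w)`.
The last identity is `h1` of that file. -/
def CrtStmt : Prop :=
  ∀ (K V B κ κ' : Type) [Field K] [CharZero K] [CommGroup V] [Fintype V] [Ring B] [Algebra K B]
    [FiniteDimensional K B] [Fintype κ] [Fintype κ'] (W : Subgroup V) [Fintype W] (β : V →* B)
    (lamK : B →ₗ[K] K) (x y : κ → B) (P : ℕ → (B →ₗ[K] B)) (m : ℕ → (B →ₗ[K] B →ₗ[K] B))
    (D : Dm K (aw β W)) (Λ : D.R →ₗ[PowerSeries K] PowerSeries K) (x' y' : κ' → D.R),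
    Trv β W P m → D.m = m → RF K β lamK x y → RF (PowerSeries K) D.w Λ x' y' →
    ∃ (T : Type) (_ : Ring T) (_ : Algebra (PowerSeries K) T) (Φ : D.R →+* T) (j : B →+* T)
      (N N' : T), Function.Bijective Φ ∧ (∀ (s : PowerSeries K) a, Φ (s • a) = s • Φ a) ∧
      (∀ (t : K) b, j (t • b) = (PowerSeries.C t : PowerSeries K) • j b) ∧
      (∀ a, N * a = a * N) ∧ N * N' = 1 ∧
      ∀ w : W, N * Φ (rt x' y' (D.w w)) = W.index • j (rt x y (β w))

/-- NZD (306, uses CRT).  Proof.  TRA: `D' : Dm K` with `D'.m = m`; LKX: `ψ : D.R → D'.R`, injective (`C.i` is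
injective, `ψ (D.of f) = D'.of (i f)`), `RF` for `D'.w`, `ψ x'`, `ψ y'`.  CRT with `rt (i x) (i y) (i w) = i (rt x y w)`, which
has the left inverse `i u`: `N Φ(ψ r) = W.index • j (i (rt x y w))`, `r = rt x' y' (D.w w)`, so `Φ(ψ r)` has a left
inverse (`W.index ≠ 0` in `K`), and `ψ r` has a left inverse `s`.  `r` is central, so `ψ r` commutes with `ψ a`, and
`ψ r` is central in `D'.R` (ZRT).  `a r = 0` gives `ψ a = s (ψ r) (ψ a) = s ψ(a r) = 0`. -/
def NzdStmt : Prop :=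
  ∀ (R K V A B κ κ' Ω : Type) [CommRing R] [Field K] [CharZero K] [Algebra R K] [CommGroup V]
    [Fintype V] [Ring A] [Algebra R A] [Ring B] [Algebra R B] [Algebra K B] [Fintype κ]
    [Fintype κ'] [Fintype Ω] [MulAction (V × V) Ω] (W : Subgroup V) [Fintype W] (α : V →* A)
    (lam : A →ₗ[R] R) (x y : κ → A) (b : Ω → A) (c : Ω → (A →ₗ[R] R))
    (C : KC R K B α lam x y b c) (D : Dm R (aw α W)) (P : ℕ → (B →ₗ[K] B))
    (m : ℕ → (B →ₗ[K] B →ₗ[K] B)) (Λ : D.R →ₗ[PowerSeries R] PowerSeries R) (x' y' : κ' → D.R)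
    (w : W) (u : A), Trv (ia C.i α) W P m →
    (∀ n a₁ a₂, C.i (D.m n a₁ a₂) = m n (C.i a₁) (C.i a₂)) → RF (PowerSeries R) D.w Λ x' y' →
    u * rt x y (α w) = 1 → ∀ a : D.R, a * rt x' y' (D.w w) = 0 → a = 0

/-- CHP (307).  Proof.  `c = u z` is a unit (inverse `u' z₁`; all the elements commute), `χ` = the characteristic polynomial of the
left multiplication `M` by `c` (`LinearMap.charpoly`), monic of degree `d`; `χ(c) = 0` (Cayley - Hamilton applied to
`1`), its constant coefficient is `± det M`, a unit, since `M` is invertible.  Multiply `∑ a_i c^i = 0` by `z₁^d`: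
`c^i z₁^d = z^i z₁^(d-i)` as `u z₁ = 1`. -/
def ChpStmt : Prop :=
  ∀ (R A : Type) [CommRing R] [Ring A] [Algebra R A] [Module.Finite R A] [Module.Free R A]
    (z z₁ u u' : A), (∀ a, z * a = a * z) → (∀ a, z₁ * a = a * z₁) → u * z₁ = 1 → u' * z = 1 →
    ∃ (d : ℕ) (a : ℕ → R), IsUnit (a 0) ∧
      ∑ i ∈ Finset.range (d + 1), a i • (z ^ i * z₁ ^ (d - i)) = 0

/-- RHR (308, uses CRT CHP).  Proof.  CHP for `z = rt x y w`, `z₁ = rt x y 1` (central by ZRT): `d`, `a`; apply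
`C.i`.  TRA, LKX, CRT as in NZD.  Apply `Φ ∘ ψ` (injective) to the left side and multiply by the unit `N^d`:
`N^d Φψ(r_w^i r_1^(d-i)) = (N Φψ r_w)^i (N Φψ r_1)^(d-i) = W.index^d • j (i (z^i z₁^(d-i)))`, and
`Φψ(C (a i) • ..) = C (algebraMap R K (a i)) • ..`; the sum is `W.index^d • j (i (∑ a i • ..)) = 0`.
(`r_1 = rt x' y' (D.w 1)`.) -/
def RhrStmt : Prop :=
  ∀ (R K V A B κ κ' Ω : Type) [CommRing R] [Field K] [CharZero K] [Algebra R K] [CommGroup V]
    [Fintype V] [Ring A] [Algebra R A] [Module.Finite R A] [Module.Free R A] [Ring B]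
    [Algebra R B] [Algebra K B] [Fintype κ] [Fintype κ'] [Fintype Ω] [MulAction (V × V) Ω]
    (W : Subgroup V) [Fintype W] (α : V →* A) (lam : A →ₗ[R] R) (x y : κ → A) (b : Ω → A)
    (c : Ω → (A →ₗ[R] R)) (C : KC R K B α lam x y b c) (D : Dm R (aw α W))
    (P : ℕ → (B →ₗ[K] B)) (m : ℕ → (B →ₗ[K] B →ₗ[K] B))
    (Λ : D.R →ₗ[PowerSeries R] PowerSeries R) (x' y' : κ' → D.R) (w : W) (u u' : A),
    Trv (ia C.i α) W P m → (∀ n a₁ a₂, C.i (D.m n a₁ a₂) = m n (C.i a₁) (C.i a₂)) →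
    RF (PowerSeries R) D.w Λ x' y' → u * rt x y 1 = 1 → u' * rt x y (α w) = 1 →
    ∃ (d : ℕ) (a : ℕ → R), IsUnit (a 0) ∧ ∑ i ∈ Finset.range (d + 1),
      (PowerSeries.C (a i) : PowerSeries R) •
        (rt x' y' (D.w w) ^ i * rt x' y' 1 ^ (d - i)) = 0

/-- CNL (309).  The centre of the lift is onto the centre of the deformation.  Proof.  `M` = the centre of
`D₀.R`, a finite `F⟦X⟧`-module (FRE, `F⟦X⟧` is noetherian); `N` = the submodule of the `ψ z`, `z` central in
`D.R` (`ψ (r • a) = map κ r • ψ a`, `map κ` is surjective; `ψ` is surjective, so `ψ z` is central).  For `z₀` in `M`: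
`D₀.sq z₀ 0` is central in `A₀`, it lifts to a central `z` in `A`, CEN: a central `Z` in `D.R`, `sq Z 0 = z`;
`z₀ - ψ Z` has the constant coefficient `0`, so it is `X • z₁`, and `z₁` is central (`D₀.R` is `X`-torsion free).
So `M ≤ N + X M`, and Nakayama gives `M = N`. -/
def CnlStmt : Prop :=
  ∀ (R F V A A₀ : Type) [CommRing R] [Field F] [CommGroup V] [Ring A] [Algebra R A] [Ring A₀]
    [Algebra F A₀] [FiniteDimensional F A₀] (W : Subgroup V) (α : V →* A) (cv : Cdv R F)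
    (f : FibG A A₀ cv) (α₀ : V →* A₀) (D : Dm R (aw α W)) (D₀ : Dm F (aw α₀ W))
    (ψ : D.R →+* D₀.R), (∀ g, ψ (D.of g) = D₀.of (fun n => f.q (g n))) → H1P R (aw α W) →
    (∀ z₀ : A₀, (∀ a, z₀ * a = a * z₀) → ∃ z : A, (∀ a, z * a = a * z) ∧ f.q z = z₀) →
    ∀ z₀ : D₀.R, (∀ a, z₀ * a = a * z₀) → ∃ z : D.R, (∀ a, z * a = a * z) ∧ ψ z = z₀

/-- RTU (310).  All relative traces `rt_V(v)` are units.  Proof (compare UNW).  `P = ⊤`, `B = A(V)` (BQX, BPU).  MCK
with `a = α v`, `Q = ⊤`, `T` a set of representatives of the `e` modulo `φ e = φ e'`: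
`β (rt(v)) = ∑_(t ∈ T) β (φ_t v) rtB(1)` (the elements `αB u` are central in `B`), `β (rt(1)) = |T| rtB(1)`.  So
`β (rt(v) - rt(1)) = ∑_t (β (φ_t v) - 1) rtB(1)` is a sum of commuting nilpotent elements (`u^(ℓ^N) = 1`,
characteristic `ℓ`), it is nilpotent, so `(rt(v) - rt(1))^n` is in `BK(⊤)`; it is central (ZRT), so it is
nilpotent by IDN.  `rt(1)` is a unit and commutes with it. -/
def RtuStmt : Prop :=
  ∀ (ℓ : ℕ) [Fact ℓ.Prime] (F V E A K : Type) [Field F] [CharP F ℓ] [CommGroup V] [Fintype V]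
    [Group E] [Finite E] [Ring A] [Algebra F A] [Fintype K] (φ : E →* MulAut V) (α : V →* A)
    (lam : A →ₗ[F] F) (x y : K → A), IsPGroup ℓ V → ¬ ℓ ∣ Nat.card E → Cl F φ α →
    RF F α lam x y → (∃ u, u * ∑ k, x k * y k = 1) → ∀ v : V, ∃ u, u * ∑ k, x k * α v * y k = 1

/-- CNA (320).  CNL in the form of `Olf` (`DefsT.lean`): `As` is the reduction of `D.R`.  Proof: as CNL.  `q` is surjective
(`f.q` is), so `q z₀` is central; it lifts to a central `z` in `A`, CEN: a central `Z` in `D.R` with `sq Z 0 = z`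
(`Z = D.of (D.sq Z)`), `q (θ Z) = f.q z = q z₀`, so `z₀ - θ Z = X • z₁`, `z₁` is central (`As` is free), Nakayama in the
centre of `As` (a finite `F⟦X⟧`-module; the image of the centre of `D.R` is an `F⟦X⟧`-submodule of it). -/
def CnaStmt : Prop :=
  ∀ (R F V A A₀ As : Type) [CommRing R] [Field F] [CommGroup V] [Ring A] [Algebra R A] [Ring A₀]
    [Algebra F A₀] [Ring As] [Algebra F⟦X⟧ As] [Module.Finite F⟦X⟧ As] [Module.Free F⟦X⟧ As]
    (W : Subgroup V) (α : V →* A) (cv : Cdv R F) (f : FibG A A₀ cv) (D : Dm R (aw α W))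
    (θ : D.R →+* As) (q : As →+* A₀),
    (∀ (r : PowerSeries R) a, θ (r • a) = (PowerSeries.map cv.κ r) • θ a) →
    Function.Surjective θ → (∀ g : ℕ → A, q (θ (D.of g)) = f.q (g 0)) →
    (∀ a, q a = 0 → ∃ a', a = (PowerSeries.X : F⟦X⟧) • a') → H1P R (aw α W) →
    (∀ z₀ : A₀, (∀ a, z₀ * a = a * z₀) → ∃ z : A, (∀ a, z * a = a * z) ∧ f.q z = z₀) →
    ∀ z₀ : As, (∀ a, z₀ * a = a * z₀) → ∃ z : D.R, (∀ a, z * a = a * z) ∧ θ z = z₀

/-- OLU (311, uses NBL DVD SPS NZD RHR CNA; StmtsOB: H1W, proved).  THE PROPERTIES OF `As`, in the form of `Olf`: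
`As` is the reduction (`θ`) of `D.R`, `D` a deformation of the lift `A` of `A₀` to a complete discrete valuation ring `R`
with `π = ℓ`, with a trivialisation `P` over `K`.  Proof.
(1) H1W: `H1P R (aw α W)`.
(2) `rt x y w` has the reduction `rt x₀ y₀ w` (`LiftV`), so it has a left inverse in `A` (as in UZL (1): `u₁` a lift of `u₀`, the
right multiplication by `u₁ rt x y w` is congruent to `1` modulo `π`, so bijective by UNJ).  The same for `w = 1`.
(3) `OL ℓ (map κ) γ D.w θ Λ xs ys`: `sep`: SPS, `π = ℓ`; `sc`, `pw`, `ker` are the hypotheses (`C ℓ • a = ℓ • a`); `tf`: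
sequences in the free `R`-module `A`, `R` has characteristic `0`; `cen`: CNA and UZL (3) for `LiftV`; `fr`: CFR for `D`
(`cs ω`, constant frame `D.of (cst (b ω))`, the action of `W × W` on `Ω` restricted, `MulAction.compHom`), and
`c₀ ω (θ a) = map κ (cs ω a)` (well defined: the kernel of `θ` is `C π • D.R`), `F⟦X⟧`-linear.
(4) NZD, DVD (`R⟦X⟧` is a domain, `D.R` is finite and free by FRE): `r * rt xs ys (D.w w) = d • 1`, `d ≠ 0`; NBL: `Nlw`.
(5) RHR; apply `θ`: `a_i ↦ κ a_i`, and `κ a_0 ≠ 0`: `Rel`. -/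
def OluStmt : Prop :=
  ∀ (ℓ : ℕ) [Fact ℓ.Prime] (R F V A₀ As A K B κ κ' Ω : Type) [CommRing R] [IsDomain R]
    [IsPrincipalIdealRing R] [CharZero R] [Field F] [IsAlgClosed F] [CharP F ℓ]
    [CommGroup V] [Fintype V] [Ring A₀] [Algebra F A₀] [FiniteDimensional F A₀] [Ring As]
    [Algebra F⟦X⟧ As] [Module.Finite F⟦X⟧ As] [Module.Free F⟦X⟧ As] [Fintype κ] [Fintype κ']
    [Fintype Ω] [MulAction (V × V) Ω] [Ring A] [Algebra R A]
    [Module.Finite R A] [Module.Free R A] [Field K] [CharZero K]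
    [Algebra R K] [Ring B] [Algebra R B] [Algebra K B]
    (W : Subgroup V) [Fintype W] (cv : Cdv R F) (α₀ : V →* A₀) (lam₀ : A₀ →ₗ[F] F)
    (x₀ y₀ : κ → A₀) (b₀ : Ω → A₀) (c₀ : Ω → (A₀ →ₗ[F] F))
    (f : FibG A A₀ cv) (α : V →* A) (lam : A →ₗ[R] R)
    (x y : κ → A) (b : Ω → A) (c : Ω → (A →ₗ[R] R)) (u : A)
    (C : KC R K B α lam x y b c) (D : Dm R (aw α W))
    (P : ℕ → (B →ₗ[K] B)) (m : ℕ → (B →ₗ[K] B →ₗ[K] B)) (γ : W →* As) (q : As →+* A₀)
    (θ : D.R →+* As) (Λ : D.R →ₗ[PowerSeries R] PowerSeries R) (xs ys : κ' → D.R),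
    cv.π = (ℓ : R) → IsPGroup ℓ V →
    LiftV cv α₀ lam₀ x₀ y₀ b₀ c₀ f α lam x y b c → u * rt x y 1 = 1 →
    (∀ w : W, ∃ u₀, u₀ * rt x₀ y₀ (α₀ w) = 1) →
    Trv (ia C.i α) W P m → (∀ n a₁ a₂, C.i (D.m n a₁ a₂) = m n (C.i a₁) (C.i a₂)) →
    (∀ a, q a = 0 → ∃ a', a = (PowerSeries.X : F⟦X⟧) • a') →
    (∀ (r : PowerSeries R) a, θ (r • a) = (PowerSeries.map cv.κ r) • θ a) →
    Function.Surjective θ →
    (∀ a, θ a = 0 → ∃ a', a = (PowerSeries.C cv.π : PowerSeries R) • a') →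
    (∀ w, θ (D.w w) = γ w) → (∀ g : ℕ → A, q (θ (D.of g)) = f.q (g 0)) →
    RF (PowerSeries R) D.w Λ xs ys →
    ∀ w : W, Nlw F⟦X⟧ γ w ∧ Rel F (fun k => θ (xs k)) (fun k => θ (ys k)) γ w

/-! ## C. The generic fibre -/

/-- LIX (312).  Tensor normal form.  Proof: `z = ∑ s_i ⊗ m_i`; the submodule `N` of `S` generated by the `s_i` is
finitely generated and torsion free over the principal ideal domain `R`, so free; `g` = a basis of `N`. -/
def LixStmt : Prop :=
  ∀ (R S M : Type) [CommRing R] [IsDomain R] [IsPrincipalIdealRing R] [Field S] [Algebra R S]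
    [AddCommGroup M] [Module R M], Function.Injective (algebraMap R S) → ∀ z : S ⊗[R] M,
    ∃ (n : ℕ) (g : Fin n → S) (a : Fin n → M), LinearIndependent R g ∧
      z = ∑ i, g i ⊗ₜ[R] a i

/-- CLC (313, uses LIX).  `Vsh` for the base change.  Proof.  `C = S ⊗ As`, frame `b`, `c` of `As` (`Per`), frame
`1 ⊗ b ω`, `cS ω` of `C`, `cS ω (s ⊗ a) = s * algebraMap (c ω a)` (`H64.bcf`).  LIX: `e = ∑ g_i ⊗ a_i`.  (*) If `h : As → As` is
`R`-linear and `cS ω ((S ⊗ h) e) = 0` then `∑ c ω (h a_i) • g_i = 0`, so `c ω (h a_i) = 0` for all `i`.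
(1) `w e w⁻¹ = e`, (*) for all `ω` and `h a = w a w⁻¹ - a`: `a_i` is in `As^W`.  (2) `Q' > Q`: `cS ω e = 0` for all `ω` fixed by
`Q'` (FCO for `C`), so `c ω a_i = 0`, and `a_i` is in `BK(Q')` (FBK).  (3) `m` in `As^Q`: `1 ⊗ m` is in `C^Q`, so
`e (1 ⊗ m) - (1 ⊗ m) e` is in `BK(Q)`, `cS ω` of it is `0` for `ω` fixed by `Q` (FCO); (*) for `h a = a m - m a`, and FBK:
`a_i m - m a_i` is in `BK(Q)`.  `Vsh R γ Q`: `a_i` is in `BK(Q)`, so `c ω a_i = 0` and `cS ω e = ∑ g_i * c ω a_i = 0` for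
the `ω` fixed by `Q` (FCO), and `e` is in `BK(Q)` (FBK for `C`). -/
def ClcStmt : Prop :=
  ∀ (ℓ : ℕ) [Fact ℓ.Prime] (R S W E As : Type) [CommRing R] [IsDomain R]
    [IsPrincipalIdealRing R] [Field S] [Algebra R S] [CommGroup W] [Fintype W] [Group E]
    [Ring As] [Algebra R As] (ψ : E →* MulAut W) (γ : W →* As),
    Function.Injective (algebraMap R S) → (ℓ : R) = 0 → IsPGroup ℓ W → Per R ψ γ →
    ∀ Q : Subgroup W, Vsh R γ Q → Vsh S (bcw (R := R) (S := S) γ) Q

/-- BOT (314, uses CLC LIX).  Proof.  Let `P₀ = ⟨w₀⟩`.  (1) `e` is in `BK(P₀)`: otherwise let `Q ≥ P₀` be maximal with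
`e` not in `BK(Q)`; then `Q ≠ ⊤`, `e` is in `BK(Q')` for all `Q' > Q`, `e` is central.  If `Q` is not closed CLC gives
`e` in `BK(Q)`.  So `Q` is closed, and it contains `w₀`: an element of `E` which fixes `Q` fixes `w₀`, so it acts
trivially on `W`, hence `Q = ⊤`, a contradiction.  (2) LIX: `e = ∑ g_i ⊗ a_i`.  As in CLC (*): `a_i` is central in `As`
(`e (1 ⊗ m) = (1 ⊗ m) e`, all `ω`), `a_i` is in `BK(P₀)`.  `Nlw`: the `a_i` are nilpotent, the `1 ⊗ a_i` commute, so
`e = ∑ g_i • (1 ⊗ a_i)` is nilpotent, `e = e^n = 0`. -/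
def BotStmt : Prop :=
  ∀ (ℓ : ℕ) [Fact ℓ.Prime] (R S W E As : Type) [CommRing R] [IsDomain R]
    [IsPrincipalIdealRing R] [Field S] [Algebra R S] [CommGroup W] [Fintype W] [Group E]
    [Ring As] [Algebra R As] (ψ : E →* MulAut W) (γ : W →* As) (w₀ : W),
    Function.Injective (algebraMap R S) → (ℓ : R) = 0 → IsPGroup ℓ W → Per R ψ γ →
    (∀ e, ψ e w₀ = w₀ → ψ e = 1) → (∀ Q : Subgroup W, ¬ Clo ψ Q → Vsh R γ Q) → Nlw R γ w₀ →
    ∀ e : S ⊗[R] As, (∀ a, e * a = a * e) → e * e = e →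
      e ∈ BKR (cw S (bcw (R := R) (S := S) γ)) ⊤ → e = 0

/-- FIT (315).  Proof.  In the finite dimensional commutative algebra `F[r]` (`Algebra.adjoin F {r}`) there are
`n ≥ 1` and `c` with `r^n = r^(2n) c`.  `g = r^n c` is idempotent and central (`r` is central), `f = 1 - g`,
`r^n f = 0`, so `f = 0`, `(r^(n-1) c) r = 1`. -/
def FitStmt : Prop :=
  ∀ (F C : Type) [Field F] [Ring C] [Algebra F C] [FiniteDimensional F C] (r : C),
    (∀ a, r * a = a * r) → (∀ f : C, (∀ a, f * a = a * f) → f * f = f →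
      (∃ n : ℕ, r ^ n * f = 0) → f = 0) → ∃ u : C, u * r = 1

/-- UNC (316, uses FIT).  `rt(1)` is a unit of `C`.  Proof.  `r = 1 ⊗ ∑ x k y k` is central (ZRT).  `Q = ⊤`: `Bs = As(W)`,
`βs` (BQX), `lamB`, `xB`, `yB` (BPU), `D = C(W)`, `βD` (BQX), `κ : Bs → D` (GFQ; per, uni, system: GFB).  MCK over `F⟦X⟧` with `a = 1`,
`Q = ⊤`, `T` a set of representatives of the `e` modulo `ψ e = ψ e'`: `βs (∑ x k y k) = |T| • ∑ xB k yB k`, `|T|` is prime
to `ℓ`.  `Etw`: `u ∑ xB yB = X^m`.  So `κ (|T|⁻¹ u) βD(r) = X^m`, which is not `0` in `F'`: `βD(r)` has a left inverse.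
FIT: let `f` be a central idempotent, `r^n f = 0`: `βD(r)^n βD(f) = 0`, `βD(f) = 0`, `f` is in `BK(⊤)`, so `f = 0` by the
hypothesis. -/
def UncStmt : Prop :=
  ∀ (ℓ : ℕ) [Fact ℓ.Prime] (F F' W E As K : Type) [Field F] [CharP F ℓ] [Field F']
    [CharP F' ℓ] [Algebra F⟦X⟧ F'] [CommGroup W] [Fintype W] [Group E] [Finite E] [Ring As]
    [Algebra F⟦X⟧ As] [Fintype K] (ψ : E →* MulAut W) (γ : W →* As) (lam : As →ₗ[F⟦X⟧] F⟦X⟧)
    (x y : K → As), Function.Injective (algebraMap F⟦X⟧ F') → IsPGroup ℓ W →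
    ¬ ℓ ∣ Nat.card E → Per F⟦X⟧ ψ γ → Uni ψ γ → RF F⟦X⟧ γ lam x y → Etw F γ lam →
    (∀ e : F' ⊗[F⟦X⟧] As, (∀ a, e * a = a * e) → e * e = e →
      e ∈ BKR (cw F' (bcw (R := F⟦X⟧) (S := F') γ)) ⊤ → e = 0) →
    ∃ u : F' ⊗[F⟦X⟧] As, u * ((1 : F') ⊗ₜ[F⟦X⟧] ∑ k, x k * y k) = 1

/-- UNR (317).  Proof.  The relation says `- a_0 z₁^d = z g`, `g = ∑_(i ≥ 1) a_i z^(i-1) z₁^(d-i)`.  In `C`:
`u^d (1 ⊗ z₁)^d = 1`, so `(- a_0⁻¹ u^d (1 ⊗ g)) (1 ⊗ z) = 1`. -/
def UnrStmt : Prop :=
  ∀ (F F' As : Type) [Field F] [Field F'] [Algebra F⟦X⟧ F'] [Ring As] [Algebra F⟦X⟧ As]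
    (z z₁ : As) (u : F' ⊗[F⟦X⟧] As) (d : ℕ) (a : ℕ → F),
    Function.Injective (algebraMap F⟦X⟧ F') → (∀ m, z * m = m * z) → (∀ m, z₁ * m = m * z₁) →
    a 0 ≠ 0 → ∑ i ∈ Finset.range (d + 1),
      (PowerSeries.C (a i) : F⟦X⟧) • (z ^ i * z₁ ^ (d - i)) = 0 →
    u * ((1 : F') ⊗ₜ[F⟦X⟧] z₁) = 1 → ∃ u' : F' ⊗[F⟦X⟧] As, u' * ((1 : F') ⊗ₜ[F⟦X⟧] z) = 1

/-- BLV (318, uses CLC).  The blocks of the generic fibre.  Proof.  As BLK / GFP (`Helper30_PSS/GFP.lean`): downward
induction on `Q`, `Q = ⊤` is trivial; `e` satisfies the hypotheses at all `Q' > Q`, so `e` is in `BK(Q')`.  If `Q` is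
not closed: CLC.  Let `Q` be closed, `Q ≠ ⊤`.  `Q` is `E`-stable: for `q` in `Q`, `f` in `E` and `e'` in `E` which fixes `Q`
pointwise, `ψ e' (ψ f q) = ψ f (ψ e' q) = ψ f q`, so `ψ f q` is in `Q`.  Let `w` be not in `Q`.  `D = C(Q)`, `βD` (BQX),
`lamD`, `xD`, `yD` (BPU over `F'` for `C`; per, uni, system of `C`: GFB).  MCK (over `F'`, for `C`) with `a` = the image of `w`:
`βD (∑ (1 ⊗ x k) w (1 ⊗ y k)) = ∑_(t ∈ T) ∑ xD k (γD (ψ_t w)) yD k` (`n_t w n'_t = ψ_t w`), and `ψ_t w` is not in `Q`.  BLS: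
`βD e * ∑ xD k (γD w') yD k = 0` for all `w'` not in `Q`.  So `βD e * βD (unit) = 0`, `βD e = 0`, `e` is in `BK(Q)`. -/
def BlvStmt : Prop :=
  ∀ (ℓ : ℕ) [Fact ℓ.Prime] (F F' W E As K : Type) [Field F] [CharP F ℓ] [Field F']
    [CharP F' ℓ] [Algebra F⟦X⟧ F'] [CommGroup W] [Fintype W] [Group E] [Finite E] [Ring As]
    [Algebra F⟦X⟧ As] [Fintype K] (ψ : E →* MulAut W) (γ : W →* As) (lam : As →ₗ[F⟦X⟧] F⟦X⟧)
    (x y : K → As), Function.Injective (algebraMap F⟦X⟧ F') → IsPGroup ℓ W →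
    ¬ ℓ ∣ Nat.card E → Per F⟦X⟧ ψ γ → Uni ψ γ → RF F⟦X⟧ γ lam x y →
    (∀ e f : E, ψ e * ψ f = ψ f * ψ e) → (∀ Q : Subgroup W, ¬ Clo ψ Q → Vsh F⟦X⟧ γ Q) →
    (∀ w : W, ∃ u : F' ⊗[F⟦X⟧] As, u * ((1 : F') ⊗ₜ[F⟦X⟧] ∑ k, x k * γ w * y k) = 1) →
    ∀ (Q : Subgroup W), ∀ e ∈ FxR (cw F' (bcw (R := F⟦X⟧) (S := F') γ)) ⊤,
      e * e - e ∈ BKR (cw F' (bcw (R := F⟦X⟧) (S := F') γ)) Q →
      (∀ a ∈ FxR (cw F' (bcw (R := F⟦X⟧) (S := F') γ)) Q,
        e * a - a * e ∈ BKR (cw F' (bcw (R := F⟦X⟧) (S := F') γ)) Q) →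
      e ∈ BKR (cw F' (bcw (R := F⟦X⟧) (S := F') γ)) ⊤ →
      e ∈ BKR (cw F' (bcw (R := F⟦X⟧) (S := F') γ)) Q

/-- GFV (319, uses BOT UNC UNR BLV).  THE GENERIC FIBRE IS IN THE CLASS.  Proof.  `fin`, `per`, `uni`, the system: GFB (as
in `Helper30_PSS/GFP.lean`).  BOT: the central idempotents in `BK(⊤)` are `0`.  UNC: `1 ⊗ rt(1)` is a unit, this is
`rt`.  UNR with `Rel` (`z = rt(w)`, `z₁ = rt(1)` central by ZRT): all `1 ⊗ rt(w)` are units.  BLV: `blk`. -/
def GfvStmt : Prop :=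
  ∀ (ℓ : ℕ) [Fact ℓ.Prime] (F F' W E As K : Type) [Field F] [CharP F ℓ] [Field F']
    [CharP F' ℓ] [Algebra F⟦X⟧ F'] [CommGroup W] [Fintype W] [Group E] [Finite E] [Ring As]
    [Algebra F⟦X⟧ As] [Fintype K] (ψ : E →* MulAut W) (γ : W →* As) (lam : As →ₗ[F⟦X⟧] F⟦X⟧)
    (x y : K → As) (w₀ : W), Function.Injective (algebraMap F⟦X⟧ F') → IsPGroup ℓ W →
    ¬ ℓ ∣ Nat.card E → Per F⟦X⟧ ψ γ → Uni ψ γ → RF F⟦X⟧ γ lam x y →
    (∀ e f : E, ψ e * ψ f = ψ f * ψ e) → (∀ e, ψ e w₀ = w₀ → ψ e = 1) →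
    (∀ Q : Subgroup W, ¬ Clo ψ Q → Vsh F⟦X⟧ γ Q) → Nlw F⟦X⟧ γ w₀ → Etw F γ lam →
    (∀ w : W, Rel F x y γ w) → Cl F' ψ (bcw (R := F⟦X⟧) (S := F') γ)

end Pool.Agent.PST.U
end
end -- Pool.Agent.PST.StmtsU

section -- Pool.Agent.Helper12_PST.CHP

open scoped BigOperators TensorProduct PowerSeries

noncomputable section

namespace Pool.Agent.PST.U.H12

theorem chp : ChpStmt := by
  intro R A _ _ _ _ _ z z₁ u u' hz hz₁ hu hu'
  rcases subsingleton_or_nontrivial R with hR | hR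
  · have : Subsingleton A := Module.subsingleton R A
    exact ⟨0, fun _ => 1, isUnit_one, Subsingleton.elim _ _⟩
  have hz₁u : z₁ * u = 1 := by rw [hz₁]; exact hu
  have hzu' : z * u' = 1 := by rw [hz]; exact hu'
  set c : A := u * z with hc
  have hcc' : c * (u' * z₁) = 1 := by
    rw [hc, mul_assoc, ← mul_assoc z, hzu', one_mul, hu]
  have hc'c : (u' * z₁) * c = 1 := by
    rw [hc, mul_assoc, ← mul_assoc z₁, hz₁u, one_mul, hu']
  have hcz₁ : c * z₁ = z := by
    rw [hc, hz u |>.symm, mul_assoc, hu, mul_one]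
  have hunit : IsUnit c := ⟨⟨c, u' * z₁, hcc', hc'c⟩, rfl⟩
  set M : Module.End R A := Algebra.lmul R A c with hM
  have hMu : IsUnit M := hunit.map (Algebra.lmul R A)
  set χ : Polynomial R := LinearMap.charpoly M with hχ
  have h0 : Polynomial.aeval M χ = 0 := LinearMap.aeval_self_charpoly M
  have h1 : Polynomial.aeval c χ = 0 := by
    have h2 : Algebra.lmul R A (Polynomial.aeval c χ) = 0 := by
      rw [← Polynomial.aeval_algHom_apply, ← hM]; exact h0
    have h3 := congrArg (fun f : Module.End R A => f 1) h2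
    simpa using h3
  refine ⟨χ.natDegree, χ.coeff, ?_, ?_⟩
  · have hd : IsUnit (LinearMap.det M) := hMu.map LinearMap.det
    rw [LinearMap.det_eq_sign_charpoly_coeff] at hd
    exact isUnit_of_mul_isUnit_right hd
  · have h4 : (∑ i ∈ Finset.range (χ.natDegree + 1), χ.coeff i • c ^ i) * z₁ ^ χ.natDegree = 0 := by
      rw [← Polynomial.aeval_eq_sum_range, h1, zero_mul]
    rw [Finset.sum_mul] at h4
    rw [← h4]
    refine Finset.sum_congr rfl fun i hi => ?_
    have hi' : i ≤ χ.natDegree := Nat.lt_succ_iff.1 (Finset.mem_range.1 hi)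
    have hcom : Commute c z₁ := (hz₁ c).symm
    rw [smul_mul_assoc]
    congr 1
    calc z ^ i * z₁ ^ (χ.natDegree - i) = (c * z₁) ^ i * z₁ ^ (χ.natDegree - i) := by rw [hcz₁]
      _ = c ^ i * (z₁ ^ i * z₁ ^ (χ.natDegree - i)) := by rw [hcom.mul_pow, mul_assoc]
      _ = c ^ i * z₁ ^ χ.natDegree := by rw [← pow_add, Nat.add_sub_cancel' hi']

end Pool.Agent.PST.U.H12
end
end -- Pool.Agent.Helper12_PST.CHP

section -- Pool.Agent.Helper12_PST.FIT

open scoped BigOperators TensorProduct PowerSeries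

noncomputable section

namespace Pool.Agent.PST.U.H12

open Polynomial in
theorem fit : FitStmt := by
  intro F B _ _ _ _ r hr hF
  have hcen : ∀ p : F[X], ∀ a : B, aeval r p * a = a * aeval r p := by
    intro p a
    have h1 : aeval r p ∈ Algebra.adjoin F ({r} : Set B) := aeval_mem_adjoin_singleton F r
    have h2 : Algebra.adjoin F ({r} : Set B) ≤ Subalgebra.center F B := by
      refine Algebra.adjoin_le ?_
      intro x hx
      rw [Set.mem_singleton_iff] at hx
      subst hx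
      exact Subalgebra.mem_center_iff.2 fun b => (hr b).symm
    exact (Subalgebra.mem_center_iff.1 (h2 h1) a).symm
  have hint : IsIntegral F r := Algebra.IsIntegral.isIntegral r
  obtain ⟨q, hq, hnd⟩ := exists_eq_pow_rootMultiplicity_mul_and_not_dvd (minpoly F r)
    (minpoly.ne_zero hint) 0
  set n := rootMultiplicity 0 (minpoly F r) with hn
  have hcop : IsCoprime ((X - Polynomial.C (0 : F)) ^ (n + 1)) q :=
    IsCoprime.pow_left ((irreducible_X_sub_C (0 : F)).coprime_iff_not_dvd.2 hnd)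
  obtain ⟨a, b, hab⟩ := hcop
  have hX : (X - Polynomial.C (0 : F)) = X := by rw [map_zero, sub_zero]
  rw [hX] at hab hq
  have hmin : aeval r (X ^ n * q) = 0 := by rw [← hq]; exact minpoly.aeval F r
  set f : _ := aeval r (b * q) with hf
  have hf1 : aeval r (a * X ^ (n + 1)) = 1 - f := by
    have h := congrArg (aeval r) hab
    rw [map_add, map_one] at h
    rw [hf, ← h]; abel
  have hz : ∀ p : F[X], aeval r (p * (X ^ n * q)) = 0 := by
    intro p; rw [map_mul, hmin, mul_zero]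
  have hid : f * f = f := by
    have h1 : f - f * f = f * (1 - f) := by rw [mul_sub, mul_one]
    have h2 : f * (1 - f) = 0 := by
      rw [← hf1, hf, ← map_mul]
      have : b * q * (a * X ^ (n + 1)) = (b * a * X) * (X ^ n * q) := by ring
      rw [this]; exact hz _
    rw [h2] at h1
    exact (sub_eq_zero.1 h1).symm
  have h0 : f = 0 := by
    refine hF f (hcen _) hid ⟨n, ?_⟩
    have : r ^ n * f = aeval r (b * (X ^ n * q)) := by
      rw [hf, show b * (X ^ n * q) = X ^ n * (b * q) by ring, map_mul (aeval r) (X ^ n), map_pow,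
        aeval_X]
    rw [this]; exact hz _
  refine ⟨aeval r (a * X ^ n), ?_⟩
  have : aeval r (a * X ^ n) * r = aeval r (a * X ^ (n + 1)) := by
    rw [pow_succ, ← mul_assoc, map_mul (aeval r) (a * X ^ n), aeval_X]
  rw [this, hf1, h0, sub_zero]

end Pool.Agent.PST.U.H12
end
end -- Pool.Agent.Helper12_PST.FIT

section -- Pool.Agent.Helper12_PST.UNR

open scoped BigOperators TensorProduct PowerSeries

noncomputable section

namespace Pool.Agent.PST.U.H12

theorem unr : UnrStmt := by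
  intro F F' As _ _ _ _ _ z z₁ u d a hinj hz hz₁ ha0 hrel hu
  have hone : (1 : F' ⊗[F⟦X⟧] As) = (1 : F') ⊗ₜ[F⟦X⟧] (1 : As) := rfl
  -- the inclusion
  set j : As →ₐ[F⟦X⟧] F' ⊗[F⟦X⟧] As := Algebra.TensorProduct.includeRight with hj
  have hjz : ∀ m : As, (1 : F') ⊗ₜ[F⟦X⟧] m = j m := fun m => rfl
  rw [hjz] at hu ⊢
  -- `j z₁` commutes with everything of the form `j m`; `u` commutes with `j z₁`
  have hcen : ∀ (m : As), (∀ b, m * b = b * m) → ∀ t : F' ⊗[F⟦X⟧] As, j m * t = t * j m := by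
    intro m hm t
    induction t using TensorProduct.induction_on with
    | zero => rw [mul_zero, zero_mul]
    | tmul s b =>
      rw [← hjz, Algebra.TensorProduct.tmul_mul_tmul, Algebra.TensorProduct.tmul_mul_tmul, hm,
        one_mul, mul_one]
    | add p q hp hq => rw [mul_add, add_mul, hp, hq]
  have hpow : u ^ d * j z₁ ^ d = 1 := by
    have hc : Commute u (j z₁) := (hcen z₁ hz₁ u).symm
    rw [← hc.mul_pow, hu, one_pow]
  rw [Finset.sum_range_succ'] at hrel
  set g : As := ∑ i ∈ Finset.range d, (PowerSeries.C (a (i + 1)) : F⟦X⟧) •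
    (z ^ i * z₁ ^ (d - (i + 1))) with hg
  have hrel2 : g * z + (PowerSeries.C (a 0) : F⟦X⟧) • z₁ ^ d = 0 := by
    have h1 : ∑ i ∈ Finset.range d, (PowerSeries.C (a (i + 1)) : F⟦X⟧) •
        (z ^ (i + 1) * z₁ ^ (d - (i + 1))) = g * z := by
      rw [hg, Finset.sum_mul]
      refine Finset.sum_congr rfl fun i _ => ?_
      rw [smul_mul_assoc, pow_succ, mul_assoc, hz, mul_assoc]
    rw [← h1]
    simpa using hrel
  have hrel3 := congrArg j hrel2
  rw [map_add, map_mul, map_smul, map_pow, map_zero] at hrel3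
  have hr4 : j g * j z = -((PowerSeries.C (a 0) : F⟦X⟧) • (j z₁ ^ d)) :=
    eq_neg_of_add_eq_zero_left hrel3
  refine ⟨-((PowerSeries.C (a 0)⁻¹ : F⟦X⟧) • (u ^ d * j g)), ?_⟩
  rw [neg_mul, smul_mul_assoc, mul_assoc, hr4, mul_neg, mul_smul_comm, hpow, smul_neg, neg_neg,
    smul_smul, ← map_mul, inv_mul_cancel₀ ha0, map_one, one_smul]

end Pool.Agent.PST.U.H12
end
end -- Pool.Agent.Helper12_PST.UNR

section -- Pool.Agent.Helper41_PSS.QBK

/-!
# Squad PSS, row QBK
-/

set_option autoImplicit false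

open scoped BigOperators TensorProduct PowerSeries

noncomputable section

namespace Pool.Agent.PSS.S3.H41

open Pool.Agent.PFC (tw IsTv)
open Pool.Agent.PFD.D2b (FrR)
open Pool.Agent.PSS.S0

theorem q_smul {F A As : Type} [Field F] [Ring A] [Algebra F A] [Ring As] [Algebra F⟦X⟧ As]
    {q : As →+* A}
    (hsc : ∀ r : F⟦X⟧, q (algebraMap F⟦X⟧ As r) = algebraMap F A (PowerSeries.constantCoeff r))
    (r : F⟦X⟧) (a : As) : q (r • a) = PowerSeries.constantCoeff r • q a := by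
  rw [Algebra.smul_def, map_mul, hsc, ← Algebra.smul_def]

theorem qbk : QbkStmt := by
  intro F W A As _ _ _ _ _ _ ω γ q hsc hqw P
  have hq : ∀ (h : W) (a : As), q (cw F⟦X⟧ γ h a) = cw F ω h (q a) := by
    intro h a
    change q (γ h * (a * γ h⁻¹)) = ω h * (q a * ω h⁻¹)
    rw [map_mul, map_mul, hqw, hqw]
  have h1 : ∀ (P : Subgroup W), ∀ a ∈ FxR (cw F⟦X⟧ γ) P, q a ∈ FxR (cw F ω) P := by
    intro P a ha h hh
    rw [← hq, ha h hh]
  refine ⟨h1 P, ?_⟩
  intro a ha
  induction ha using Submodule.span_induction with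
  | mem x hx =>
    obtain ⟨P', S, m, hP', hS, hm, rfl⟩ := hx
    refine Submodule.subset_span ⟨P', S, q m, hP', hS, h1 P' m hm, ?_⟩
    rw [map_sum]
    exact Finset.sum_congr rfl fun x _ => hq x m
  | zero =>
    rw [map_zero]
    exact Submodule.zero_mem _
  | add x y _ _ hx hy =>
    rw [map_add]
    exact Submodule.add_mem _ hx hy
  | smul r x _ hx =>
    rw [q_smul hsc]
    exact Submodule.smul_mem _ _ hx

end Pool.Agent.PSS.S3.H41
end
end -- Pool.Agent.Helper41_PSS.QBK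

section -- Pool.Agent.Helper41_PSS.PRQ

/-!
# Squad PSS, row PRQ
-/

set_option autoImplicit false

open scoped BigOperators TensorProduct PowerSeries

noncomputable section

namespace Pool.Agent.PSS.S3.H41

open Pool.Agent.PFC (tw IsTv)
open Pool.Agent.PFD.D2b (FrR)
open Pool.Agent.PSS.S0

section bq

variable {R V A B : Type} [CommRing R] [CommGroup V] [Ring A] [Algebra R A] [Ring B] [Algebra R B]
  {α : V →* A} {Q : Subgroup V} {αB : V →* B} {β : A → B}

theorem bq_zero (h : IsBQ R α Q αB β) : β 0 = 0 := by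
  have h1 := h.smul 0 0 (Submodule.zero_mem _)
  rwa [zero_smul, zero_smul] at h1

theorem bq_sub (h : IsBQ R α Q αB β) {a b : A} (ha : a ∈ FxR (cw R α) Q)
    (hb : b ∈ FxR (cw R α) Q) : β (a - b) = β a - β b := by
  have h1 := h.add a ha ((-1 : R) • b) (Submodule.smul_mem _ _ hb)
  rw [h.smul _ b hb, neg_one_smul, neg_one_smul, ← sub_eq_add_neg, ← sub_eq_add_neg] at h1
  exact h1

theorem bq_eq (h : IsBQ R α Q αB β) {a b : A} (ha : a ∈ FxR (cw R α) Q)
    (hb : b ∈ FxR (cw R α) Q) : β a = β b ↔ a - b ∈ BKR (cw R α) Q := by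
  rw [← h.ker _ (Submodule.sub_mem _ ha hb), bq_sub h ha hb, sub_eq_zero]

theorem mem_fx {a : A} : a ∈ FxR (cw R α) Q ↔ ∀ v ∈ Q, α v * (a * α v⁻¹) = a := Iff.rfl

theorem fx_of_comm {a : A} (h : ∀ v, α v * a = a * α v) : a ∈ FxR (cw R α) Q := by
  rw [mem_fx]
  intro v _
  rw [← mul_assoc, h, mul_assoc, ← map_mul, mul_inv_cancel, map_one, mul_one]

theorem fx_mul {a b : A} (ha : a ∈ FxR (cw R α) Q) (hb : b ∈ FxR (cw R α) Q) :
    a * b ∈ FxR (cw R α) Q := by
  rw [mem_fx] at *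
  intro v hv
  have h1 := ha v hv
  have h2 := hb v hv
  calc α v * (a * b * α v⁻¹) = (α v * (a * α v⁻¹)) * (α v * (b * α v⁻¹)) := by
        have e : α v⁻¹ * α v = 1 := by rw [← map_mul, inv_mul_cancel, map_one]
        calc α v * (a * b * α v⁻¹) = α v * a * 1 * b * α v⁻¹ := by
              simp only [mul_assoc, one_mul]
          _ = _ := by rw [← e]; simp only [mul_assoc]
    _ = a * b := by rw [h1, h2]

theorem fx_one : (1 : A) ∈ FxR (cw R α) Q := fx_of_comm fun v => by rw [mul_one, one_mul]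

theorem fx_al (u : V) : α u ∈ FxR (cw R α) Q :=
  fx_of_comm fun v => by rw [← map_mul, ← map_mul, mul_comm]

end bq

section red

variable {F W A As : Type} [Field F] [CommGroup W] [Ring A] [Algebra F A] [Ring As]
  [Algebra F⟦X⟧ As] {q : As →+* A}

/-- the reduction of a form -/
def c0 (hsc : ∀ r : F⟦X⟧, q (algebraMap F⟦X⟧ As r) = algebraMap F A (PowerSeries.constantCoeff r))
    (hsurj : Function.Surjective q)
    (hker : ∀ a, q a = 0 → ∃ a', a = (PowerSeries.X : F⟦X⟧) • a') (c : As →ₗ[F⟦X⟧] F⟦X⟧) :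
    {c0 : A →ₗ[F] F // ∀ a, c0 (q a) = PowerSeries.constantCoeff (c a)} := by
  have hs : ∀ z, q (Function.surjInv hsurj z) = z := Function.surjInv_eq hsurj
  have hwd : ∀ a a', q a = q a' →
      PowerSeries.constantCoeff (c a) = PowerSeries.constantCoeff (c a') := by
    intro a a' h
    obtain ⟨z, hz⟩ := hker (a - a') (by rw [map_sub, h, sub_self])
    rw [← sub_eq_zero, ← map_sub, ← map_sub, hz, map_smul, smul_eq_mul, map_mul,
      PowerSeries.constantCoeff_X, zero_mul]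
  refine ⟨
    { toFun := fun x => PowerSeries.constantCoeff (c (Function.surjInv hsurj x))
      map_add' := ?_
      map_smul' := ?_ }, ?_⟩
  · intro x y
    rw [← map_add, ← map_add]
    exact hwd _ _ (by rw [map_add, hs, hs, hs])
  · intro r x
    rw [RingHom.id_apply, smul_eq_mul]
    have e : r * PowerSeries.constantCoeff (c (Function.surjInv hsurj x)) =
        PowerSeries.constantCoeff (c (PowerSeries.C r • Function.surjInv hsurj x)) := by
      rw [map_smul, smul_eq_mul, map_mul, PowerSeries.constantCoeff_C]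
    rw [e]
    exact hwd _ _ (by rw [q_smul hsc, hs, hs, PowerSeries.constantCoeff_C])
  · intro a
    exact hwd _ _ (hs _)

end red

section coset

open Classical in
/-- representatives of the right cosets of `E1` -/
theorem exists_T {E : Type} [Group E] [Finite E] (E1 : Subgroup E) :
    ∃ T : Finset E, T.card = E1.index ∧ ∀ e : E, ∃! t, t ∈ T ∧ t * e⁻¹ ∈ E1 := by
  have : Fintype E := Fintype.ofFinite E
  have : Fintype (Quotient (QuotientGroup.rightRel E1)) := Fintype.ofFinite _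
  refine ⟨Finset.univ.image (fun κ : Quotient (QuotientGroup.rightRel E1) => κ.out), ?_, ?_⟩
  · rw [Finset.card_image_of_injective]
    · rw [Finset.card_univ, ← Nat.card_eq_fintype_card]
      exact Nat.card_congr (QuotientGroup.quotientRightRelEquivQuotientLeftRel E1)
    · intro a b h
      rw [← Quotient.out_eq a, ← Quotient.out_eq b]
      exact congrArg _ h
  · intro e
    have h1 : ∀ a b : E, (Quotient.mk (QuotientGroup.rightRel E1) a =
        Quotient.mk (QuotientGroup.rightRel E1) b) ↔ b * a⁻¹ ∈ E1 := by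
      intro a b
      rw [Quotient.eq]
      exact QuotientGroup.rightRel_apply
    refine ⟨(Quotient.mk (QuotientGroup.rightRel E1) e).out, ⟨?_, ?_⟩, ?_⟩
    · exact Finset.mem_image.2 ⟨_, Finset.mem_univ _, rfl⟩
    · rw [← h1, Quotient.out_eq]
    · rintro t ⟨ht, ht'⟩
      obtain ⟨κ, -, rfl⟩ := Finset.mem_image.1 ht
      rw [← h1, Quotient.out_eq] at ht'
      rw [ht']

end coset

theorem prq (hQBK : QbkStmt) (hTFX : TfxStmt) (hBCL : BclStmt) (hBPU : BpuStmt)
    (hMCK : MckStmt) (hRES : ResStmt) (hFCO : FcoStmt) (hFPX : FpxStmt) (hZRT : ZrtStmt) :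
    PrqStmt := by
  intro ℓ _ F V E A As K K0 B Bs _ _ _ _ _ _ _ _ _ _ _ _ _ _ _ _ φ α W _ ψ γ q lam lam0 x y x0 y0
    Q E1 γB βs αB β hV hE D hBs hB hE1
  classical
  have hℓF : (ℓ : F) = 0 := CharP.cast_eq_zero F ℓ
  have hℓX : (ℓ : F⟦X⟧) = 0 := by
    rw [← map_natCast (PowerSeries.C (R := F)), hℓF, map_zero]
  have hW : IsPGroup ℓ W := hV.to_subgroup W
  -- the groups
  have hqw : ∀ w : W, q (γ w) = (α.comp W.subtype) w := D.qw
  have hfxA : FxR (cw F (α.comp W.subtype)) Q = FxR (cw F α) (Q.map W.subtype) :=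
    (hRES F V A α W Q).1
  have hbkA : BKR (cw F (α.comp W.subtype)) Q = BKR (cw F α) (Q.map W.subtype) :=
    (hRES F V A α W Q).2
  have hqfx : ∀ a ∈ FxR (cw F⟦X⟧ γ) Q, q a ∈ FxR (cw F α) (Q.map W.subtype) := by
    intro a ha
    rw [← hfxA]
    exact (hQBK F W A As (α.comp W.subtype) γ q D.sc hqw Q).1 a ha
  have hqbk : ∀ a ∈ BKR (cw F⟦X⟧ γ) Q, q a ∈ BKR (cw F α) (Q.map W.subtype) := by
    intro a ha
    rw [← hbkA]
    exact (hQBK F W A As (α.comp W.subtype) γ q D.sc hqw Q).2 a ha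
  have hE1' : ∀ e, e ∈ E1 ↔ ∀ v ∈ Q.map W.subtype, φ e v = v := by
    intro e
    rw [hE1]
    constructor
    · rintro h _ ⟨u, hu, rfl⟩
      change φ e (u : V) = u
      rw [← D.rs e u, h u hu]
    · intro h u hu
      apply Subtype.ext
      rw [D.rs e u]
      exact h _ ⟨u, hu, rfl⟩
  -- the forms
  obtain ⟨hper, huni, lamB, KB, _, xB, yB, hrfB, hlamB⟩ := hBPU ℓ F⟦X⟧ W E As Bs K ψ γ Q γB βs lam
    x y E1 hℓX hW D.per D.uni D.rf hBs hE1
  obtain ⟨-, -, lamB0, KB0, _, xB0, yB0, hrfB0, hlamB0⟩ := hBPU ℓ F V E A B K0 φ α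
    (Q.map W.subtype) αB β lam0 x0 y0 E1 hℓF hV D.cl.per D.cl.uni D.rf0 hB hE1'
  -- the map
  choose s hs1 hs2 using hBs.surj
  have hwd : ∀ a ∈ FxR (cw F⟦X⟧ γ) Q, ∀ a' ∈ FxR (cw F⟦X⟧ γ) Q, βs a = βs a' →
      β (q a) = β (q a') := by
    intro a ha a' ha' h
    rw [bq_eq hBs ha ha'] at h
    rw [bq_eq hB (hqfx a ha) (hqfx a' ha'), ← map_sub]
    exact hqbk _ h
  let Qf : Bs → B := fun b => β (q (s b))
  have hQf : ∀ a ∈ FxR (cw F⟦X⟧ γ) Q, Qf (βs a) = β (q a) := by
    intro a ha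
    exact hwd _ (hs1 _) a ha (hs2 _)
  have hQadd : ∀ b b', Qf (b + b') = Qf b + Qf b' := by
    intro b b'
    conv_lhs => rw [← hs2 b, ← hs2 b', ← hBs.add _ (hs1 b) _ (hs1 b'),
      hQf _ (Submodule.add_mem _ (hs1 b) (hs1 b')), map_add,
      hB.add _ (hqfx _ (hs1 b)) _ (hqfx _ (hs1 b'))]
  have hQmul : ∀ b b', Qf (b * b') = Qf b * Qf b' := by
    intro b b'
    conv_lhs => rw [← hs2 b, ← hs2 b', ← hBs.mul _ (hs1 b) _ (hs1 b'),
      hQf _ (fx_mul (hs1 b) (hs1 b')), map_mul,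
      hB.mul _ (hqfx _ (hs1 b)) _ (hqfx _ (hs1 b'))]
  have hQ1 : Qf 1 = 1 := by
    rw [← hBs.one, hQf 1 fx_one, map_one, hB.one]
  have hQ0 : Qf 0 = 0 := by
    rw [← bq_zero hBs, hQf 0 (Submodule.zero_mem _), map_zero, bq_zero hB]
  let qB : Bs →+* B :=
    { toFun := Qf, map_one' := hQ1, map_mul' := hQmul, map_zero' := hQ0, map_add' := hQadd }
  have hqB : ∀ a ∈ FxR (cw F⟦X⟧ γ) Q, qB (βs a) = β (q a) := hQf
  have hsc : ∀ r : F⟦X⟧, qB (algebraMap F⟦X⟧ Bs r) =
      algebraMap F B (PowerSeries.constantCoeff r) := by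
    intro r
    rw [Algebra.algebraMap_eq_smul_one, ← hBs.one, ← hBs.smul r 1 fx_one,
      hqB _ (Submodule.smul_mem _ _ fx_one), q_smul D.sc, map_one, hB.smul _ 1 fx_one, hB.one,
      ← Algebra.algebraMap_eq_smul_one]
  -- the frame
  obtain ⟨Ω, _, _, b, c, hfr, -⟩ := D.per
  let _ : MulAction W Ω := MulAction.compHom Ω ((MonoidHom.id W).prod (MonoidHom.id W))
  have hsm : ∀ (w : W) (ω : Ω), w • ω = ((w, w) : W × W) • ω := fun _ _ => rfl
  have hfW : FrR (cw F⟦X⟧ γ) b c := ⟨fun g t => hfr.1 (g, g) t, fun g t n => hfr.2.1 (g, g) t n,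
    hfr.2.2⟩
  have hc0 : ∀ ω, ∃ c0 : A →ₗ[F] F, ∀ a, c0 (q a) = PowerSeries.constantCoeff (c ω a) :=
    fun ω => ⟨(c0 D.sc D.surj D.ker (c ω)).1, (c0 D.sc D.surj D.ker (c ω)).2⟩
  choose d hd using hc0
  have hfA : FrR (cw F (α.comp W.subtype)) (fun ω => q (b ω)) d := by
    have hq : ∀ (h : W) (a : As), q (cw F⟦X⟧ γ h a) = cw F (α.comp W.subtype) h (q a) := by
      intro h a
      change q (γ h * (a * γ h⁻¹)) = α.comp W.subtype h * (q a * α.comp W.subtype h⁻¹)
      rw [map_mul, map_mul, hqw, hqw]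
    refine ⟨?_, ?_, ?_⟩
    · intro g t
      dsimp only
      rw [hfW.1, hq]
    · intro g t n
      obtain ⟨m, rfl⟩ := D.surj n
      rw [← hq, hd, hd, hfW.2.1]
    · intro n
      obtain ⟨m, rfl⟩ := D.surj n
      conv_rhs => rw [← hfW.2.2 m, map_sum]
      refine Finset.sum_congr rfl fun ω _ => ?_
      rw [hd, q_smul D.sc]
  have hbfx : ∀ ω : Ω, (∀ h ∈ Q, h • ω = ω) → b ω ∈ FxR (cw F⟦X⟧ γ) Q := by
    intro ω hω h hh
    rw [← hfW.1, hω h hh]
  have hsurj : Function.Surjective qB := by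
    intro z
    obtain ⟨a, ha, rfl⟩ := hB.surj z
    have ha' : a ∈ FxR (cw F (α.comp W.subtype)) Q := by rw [hfxA]; exact ha
    set a' : As := ∑ ω, PowerSeries.C (d ω a) • b ω with ha'd
    have h1 : a' ∈ FxR (cw F⟦X⟧ γ) Q := by
      intro h hh
      rw [ha'd, map_sum]
      refine Fintype.sum_equiv (MulAction.toPerm h) _ _ ?_
      intro ω
      rw [map_smul, ← hfW.1]
      change _ = PowerSeries.C (d (h • ω) a) • b (h • ω)
      have h2 := hfA.2.1 h ω a
      rw [ha' h hh] at h2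
      rw [h2]
    have h3 : q a' = a := by
      rw [ha'd, map_sum]
      refine Eq.trans ?_ (hfA.2.2 a)
      refine Finset.sum_congr rfl fun ω _ => ?_
      rw [q_smul D.sc, PowerSeries.constantCoeff_C]
    exact ⟨βs a', by rw [hqB _ h1, h3]⟩
  have hker : ∀ z : Bs, qB z = 0 → ∃ z', z = (PowerSeries.X : F⟦X⟧) • z' := by
    intro z hz
    obtain ⟨a, ha, rfl⟩ := hBs.surj z
    rw [hqB a ha, hB.ker _ (hqfx a ha), ← hbkA] at hz
    have h1 : ∀ ω : Ω, (∀ h ∈ Q, h • ω = ω) → ∃ r, c ω a = PowerSeries.X * r := by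
      intro ω hω
      have h2 := hFCO ℓ F W A Ω (cw F (α.comp W.subtype)) (fun ω => q (b ω)) d hℓF hW hfA Q _ hz
        ω hω
      rw [hd] at h2
      exact PowerSeries.X_dvd_iff.2 h2
    choose! r hr using h1
    set K1 : Finset Ω := Finset.univ.filter (fun ω => ∀ h ∈ Q, h • ω = ω) with hK1
    have hK : ∀ ω, ω ∈ K1 ↔ ∀ h ∈ Q, h • ω = ω := by
      intro ω
      rw [hK1, Finset.mem_filter]
      exact ⟨fun h => h.2, fun h => ⟨Finset.mem_univ _, h⟩⟩
    have h3 := hFPX F⟦X⟧ W As Ω (cw F⟦X⟧ γ) Q (fun ω => c ω a • b ω) K1 (by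
      intro h hh ω
      rw [map_smul, hfW.1]
      have h4 := hfW.2.1 h ω a
      rw [ha h hh] at h4
      rw [h4]) hK
    rw [hfW.2.2] at h3
    have h5 : ∑ ω ∈ K1, c ω a • b ω = (PowerSeries.X : F⟦X⟧) • ∑ ω ∈ K1, r ω • b ω := by
      rw [Finset.smul_sum]
      refine Finset.sum_congr rfl fun ω hω => ?_
      rw [hr ω ((hK ω).1 hω), mul_smul]
    have h6 : ∑ ω ∈ K1, r ω • b ω ∈ FxR (cw F⟦X⟧ γ) Q :=
      Submodule.sum_mem _ fun ω hω => Submodule.smul_mem _ _ (hbfx ω ((hK ω).1 hω))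
    refine ⟨βs (∑ ω ∈ K1, r ω • b ω), ?_⟩
    rw [← hBs.smul _ _ h6, bq_eq hBs ha (Submodule.smul_mem _ _ h6), ← h5]
    exact h3
  -- the unit
  have hunt : ∃ u u' : Bs, u * u' = 1 ∧ u' * u = 1 ∧
      ∑ k, xB k * yB k = (PowerSeries.X : F⟦X⟧) • u := by
    obtain ⟨u, u', hu1, hu2, hu3⟩ := D.unt
    have hX := (hTFX ℓ F W E As ψ γ hW D.per).1
    have huc : ∀ c : As, c * u = u * c := by
      intro c
      have h1 := hZRT F⟦X⟧ W As K γ lam x y D.rf 1 fx_one c
      simp only [mul_one] at h1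
      rw [hu3, mul_smul_comm, smul_mul_assoc] at h1
      rw [← sub_eq_zero]
      apply hX
      rw [smul_sub, h1, sub_self]
    have huc' : ∀ c : As, c * u' = u' * c := by
      intro c
      calc c * u' = u' * u * (c * u') := by rw [hu2, one_mul]
        _ = u' * (u * c) * u' := by simp only [mul_assoc]
        _ = u' * (c * u) * u' := by rw [huc]
        _ = u' * c * (u * u') := by simp only [mul_assoc]
        _ = u' * c := by rw [hu1, mul_one]
    have hufx : u ∈ FxR (cw F⟦X⟧ γ) Q := fx_of_comm fun v => huc _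
    have hufx' : u' ∈ FxR (cw F⟦X⟧ γ) Q := fx_of_comm fun v => huc' _
    choose n n' hn1 hn2 hn3 using D.uni
    obtain ⟨T, hT1, hT2⟩ := exists_T E1
    have hT3 : ∀ e : E, ∃! t, t ∈ T ∧ ∀ v ∈ Q, (ψ t)⁻¹ v = (ψ e)⁻¹ v := by
      intro e
      have h1 : ∀ t : E, (∀ v ∈ Q, (ψ t)⁻¹ v = (ψ e)⁻¹ v) ↔ t * e⁻¹ ∈ E1 := by
        intro t
        rw [hE1]
        refine forall₂_congr fun v _ => ?_
        rw [map_mul, map_inv, MulAut.mul_apply]
        constructor
        · intro h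
          rw [← h, MulAut.apply_inv_self]
        · intro h
          conv_lhs => rw [← h]
          rw [MulAut.inv_apply_self]
      simp only [h1]
      exact hT2 e
    have h1 := hMCK ℓ F⟦X⟧ W E As Bs K KB ψ γ Q γB βs lam x y lamB xB yB n n' T hℓX hW D.per D.rf
      hBs hrfB hlamB (fun e => ⟨hn1 e, hn2 e, hn3 e⟩) hT3 1 fx_one
    simp only [mul_one, hn1, hBs.one] at h1
    rw [hu3, Finset.sum_const, hT1, hBs.smul _ _ hufx] at h1
    have hidx : (E1.index : F) ≠ 0 := by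
      rw [Ne, CharP.cast_eq_zero_iff F ℓ]
      intro h
      exact hE (h.trans (Subgroup.index_dvd_card E1))
    have hC : (PowerSeries.C (E1.index : F)⁻¹ : F⟦X⟧) * (E1.index : F⟦X⟧) = 1 := by
      rw [← map_natCast (PowerSeries.C (R := F)), ← map_mul, inv_mul_cancel₀ hidx, map_one]
    refine ⟨PowerSeries.C (E1.index : F)⁻¹ • βs u, (E1.index : F⟦X⟧) • βs u', ?_, ?_, ?_⟩
    · rw [smul_mul_smul_comm, hC, one_smul, ← hBs.mul _ hufx _ hufx', hu1, hBs.one]
    · rw [smul_mul_smul_comm, mul_comm, hC, one_smul, ← hBs.mul _ hufx' _ hufx, hu2, hBs.one]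
    · rw [smul_comm, h1, ← Nat.cast_smul_eq_nsmul F⟦X⟧, smul_smul, hC, one_smul]
  refine ⟨qB, lamB, lamB0, KB, KB0, inferInstance, inferInstance, xB, yB, xB0, yB0, hqB, hlamB,
    ?_⟩
  exact {
    cl := hBCL ℓ F V E A B φ α (Q.map W.subtype) αB β E1 hV hE D.cl hB hE1'
    rs := fun e w => D.rs e w
    per := hper
    uni := huni
    sc := hsc
    surj := hsurj
    ker := hker
    qw := fun w => by rw [← hBs.om, hqB _ (fx_al w), D.qw, hB.om]
    rf := hrfB
    rf0 := hrfB0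
    lr := fun z => by
      obtain ⟨a, ha, rfl⟩ := hBs.surj z
      rw [hlamB a ha, D.lr, hqB a ha, hlamB0 _ (hqfx a ha)]
    unt := hunt }

end Pool.Agent.PSS.S3.H41
end
end -- Pool.Agent.Helper41_PSS.PRQ

section -- Pool.Agent.Helper28_PSS.BLK

set_option autoImplicit false

/-! BLK (block S3): central idempotents of the Brauer quotients of the generic fibre. -/

open scoped BigOperators TensorProduct PowerSeries

noncomputable section

namespace Pool.Agent.PSS.H28

open Pool.Agent.PFC (tw IsTv)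
open Pool.Agent.PFD.D2b (FrR)
open Pool.Agent.PSS.S0

section

variable {R V A : Type} [CommRing R] [CommGroup V] [Ring A] [Algebra R A] (α : V →* A)

theorem cw_apply (u : V) (a : A) : cw R α u a = α u * (a * α u⁻¹) := rfl

theorem fx_mul (P : Subgroup V) {a b : A} (ha : a ∈ FxR (cw R α) P) (hb : b ∈ FxR (cw R α) P) :
    a * b ∈ FxR (cw R α) P := by
  intro u hu
  have h1 : α u * (a * α u⁻¹) = a := ha u hu
  have h2 : α u * (b * α u⁻¹) = b := hb u hu
  have h3 : α u⁻¹ * α u = 1 := by rw [← map_mul, inv_mul_cancel, map_one]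
  rw [cw_apply]
  have e : α u * (a * b * α u⁻¹) = (α u * (a * α u⁻¹)) * (α u * (b * α u⁻¹)) := by
    have : (α u * (a * α u⁻¹)) * (α u * (b * α u⁻¹)) = α u * (a * ((α u⁻¹ * α u) * (b * α u⁻¹))) := by
      simp only [mul_assoc]
    rw [this, h3, one_mul, ← mul_assoc a b]
  rw [e, h1, h2]

theorem fx_mono {P P' : Subgroup V} (h : P ≤ P') {a : A} (ha : a ∈ FxR (cw R α) P') :
    a ∈ FxR (cw R α) P := fun u hu => ha u (h hu)

theorem bk_up (hFCO : FcoStmt) (hFBK : FbkStmt) {E : Type} [Group E] [Finite V]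
    (ℓ : ℕ) [Fact ℓ.Prime] (hℓ : (ℓ : R) = 0) (hV : IsPGroup ℓ V) (ψ : E →* MulAut V)
    (hper : Per R ψ α) {Q Q' : Subgroup V} (hQ : Q ≤ Q') {m : A} (hm : m ∈ BKR (cw R α) Q)
    (hm' : m ∈ FxR (cw R α) Q') : m ∈ BKR (cw R α) Q' := by
  obtain ⟨Ω, _, act, b, c, hfr, -⟩ := hper
  letI act' : MulAction V Ω :=
    MulAction.compHom Ω ((MonoidHom.id V).prod (MonoidHom.id V))
  have hfr' : FrR (cw R α) b c := by
    refine ⟨fun g t => hfr.1 (g, g) t, fun g t n => hfr.2.1 (g, g) t n, hfr.2.2⟩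
  refine hFBK R V A Ω (cw R α) b c hfr' Q' m hm' fun ω hω => ?_
  exact hFCO ℓ R V A Ω (cw R α) b c hℓ hV hfr' Q m hm ω fun h hh => hω h (hQ hh)

end

theorem blk (hBLS : S3.BlsStmt) (hUNW : S3.UnwStmt) (hPRQ : S3.PrqStmt) (hGFB : S3.GfbStmt)
    (hGFQ : S3.GfqStmt) (hBQX : BqxStmt) (hFCO : FcoStmt) (hFBK : FbkStmt) :
    S3.BlkStmt := by
  intro ℓ hp F F' V E A As K K0 _ _ _ _ _ _ _ _ _ _ _ _ _ _ _ φ α W _ ψ γ q lam lam0 x y x0 y0
    hinj hV hE hidx hD
  classical
  obtain ⟨⟨lamS, -, hrfS⟩, hperS, huniS, -⟩ :=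
    hGFB F⟦X⟧ F' W E As K ψ γ lam x y hD.rf hD.per hD.uni
  have hW : IsPGroup ℓ W := hV.to_subgroup W
  have hℓF' : (ℓ : F') = 0 := CharP.cast_eq_zero F' ℓ
  have hℓR : (ℓ : F⟦X⟧) = 0 := by
    have h1 : (ℓ : F⟦X⟧) = PowerSeries.C (ℓ : F) := (map_natCast _ ℓ).symm
    rw [h1, CharP.cast_eq_zero F ℓ, map_zero]
  intro Q
  induction Q using WellFoundedGT.induction with
  | ind Q ih =>
  intro e he hid hcen htop
  by_cases hQ : Q = ⊤
  · rw [hQ]
    exact htop
  have hup : ∀ Q' : Subgroup W, Q < Q' → e ∈ BKR (cw F' (bcw (R := F⟦X⟧) (S := F') γ)) Q' := by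
    intro Q' hQ'
    have heQ' : e ∈ FxR (cw F' (bcw (R := F⟦X⟧) (S := F') γ)) Q' := fx_mono _ le_top he
    refine ih Q' hQ' e he ?_ ?_ htop
    · exact bk_up _ hFCO hFBK ℓ hℓF' hW ψ hperS hQ'.le hid
        (Submodule.sub_mem _ (fx_mul _ Q' heQ' heQ') heQ')
    · intro a ha
      exact bk_up _ hFCO hFBK ℓ hℓF' hW ψ hperS hQ'.le (hcen a (fx_mono _ hQ'.le ha))
        (Submodule.sub_mem _ (fx_mul _ Q' heQ' ha) (fx_mul _ Q' ha heQ'))
  obtain ⟨w, hw⟩ : ∃ w, w ∉ Q := by
    by_contra h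
    push Not at h
    exact hQ (eq_top_iff.2 fun w _ => h w)
  obtain ⟨Bs, _, _, γB, βs, hBs⟩ := hBQX F⟦X⟧ W As γ Q
  obtain ⟨B, _, _, αB, β, hB⟩ := hBQX F V A α (Q.map W.subtype)
  obtain ⟨D, _, _, γD, βD, hDq⟩ := hBQX F' W (F' ⊗[F⟦X⟧] As) (bcw (R := F⟦X⟧) (S := F') γ) Q
  obtain ⟨E1, hE1⟩ : ∃ E1 : Subgroup E, ∀ e, e ∈ E1 ↔ ∀ u ∈ Q, ψ e u = u :=
    ⟨{ carrier := {e | ∀ u ∈ Q, ψ e u = u}
       one_mem' := fun u _ => by rw [map_one]; rfl
       mul_mem' := fun {a b} ha hb u hu => by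
         rw [map_mul, MulAut.mul_apply, hb u hu, ha u hu]
       inv_mem' := fun {a} ha u hu => by
         have h1 := ha u hu
         rw [map_inv]
         calc (ψ a)⁻¹ u = (ψ a)⁻¹ (ψ a u) := by rw [h1]
           _ = u := MulAut.inv_apply_self _ (ψ a) u }, fun e => Iff.rfl⟩
  obtain ⟨qB, lamB, lamB0, KB, KB0, _, _, xB, yB, xB0, yB0, -, hlamB, hDB⟩ :=
    hPRQ ℓ F V E A As K K0 B Bs φ α W ψ γ q lam lam0 x y x0 y0 Q E1 γB βs αB β hV hE hD hBs hB hE1
  have hE' : ¬ ℓ ∣ Nat.card E1 := fun h => hE (h.trans (Subgroup.card_subgroup_dvd_card E1))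
  obtain ⟨u, u', huu', hu'u, hsum⟩ :=
    hUNW ℓ F V E1 B Bs KB KB0 (φ.comp E1.subtype) αB W (ψ.comp E1.subtype) γB qB lamB lamB0
      xB yB xB0 yB0 hV hE' hidx hDB w
  obtain ⟨κ, lamD, -, hκs, hκw, hrfD⟩ :=
    hGFQ ℓ F⟦X⟧ F' W E As Bs D K KB ψ γ lam x y Q γB βs γD βD lamB xB yB hℓR hW hD.rf hD.per
      hD.uni hBs hDq hDB.rf hlamB
  have hz := hBLS ℓ F' W E (F' ⊗[F⟦X⟧] As) D KB ψ (bcw (R := F⟦X⟧) (S := F') γ) Q γD βD lamD
    (fun k => κ (xB k)) (fun k => κ (yB k)) e w hℓF' hW hperS hDq hrfD he hid hcen hup hw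
  have h1 : ∑ k, κ (xB k) * γD w * κ (yB k) =
      algebraMap F⟦X⟧ F' (PowerSeries.X : F⟦X⟧) • κ u := by
    rw [← hκs, ← hsum, map_sum]
    refine Finset.sum_congr rfl fun k _ => ?_
    rw [map_mul, map_mul, hκw]
  have h2 : βD e * (algebraMap F⟦X⟧ F' (PowerSeries.X : F⟦X⟧) • κ u) = 0 := by
    rw [← h1]
    exact hz
  have hX : algebraMap F⟦X⟧ F' (PowerSeries.X : F⟦X⟧) ≠ 0 := by
    intro h
    exact PowerSeries.X_ne_zero (hinj (h.trans (map_zero _).symm))
  rw [mul_smul_comm] at h2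
  have h3 : βD e * κ u = 0 := (smul_eq_zero.1 h2).resolve_left hX
  have h4 : βD e = 0 := by
    have h5 : κ u * κ u' = 1 := by rw [← map_mul, huu', map_one]
    calc βD e = βD e * (κ u * κ u') := by rw [h5, mul_one]
      _ = (βD e * κ u) * κ u' := (mul_assoc _ _ _).symm
      _ = 0 := by rw [h3, zero_mul]
  exact (hDq.ker e (fx_mono _ le_top he)).1 h4

end Pool.Agent.PSS.H28
end
end -- Pool.Agent.Helper28_PSS.BLK

section -- Pool.Agent.Helper30_PSS.GFP

/-!
# Theorem (S+), block S3, row GFP: the generic fibre is in the class, general form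
-/

set_option autoImplicit false

open scoped BigOperators TensorProduct PowerSeries

noncomputable section

namespace Pool.Agent.PSS.S3.H30

open Pool.Agent.PFC (tw IsTv)
open Pool.Agent.PFD.D2b (FrR)
open Pool.Agent.PSS.S0
open Pool.Agent.PSS.S3.H41 (fx_one fx_of_comm fx_al bq_zero exists_T)
open Pool.Agent.PSS.H28 (bk_up fx_mono)

/-- unit plus nilpotent -/
theorem unit_add_nil {B : Type} [Ring B] {a n : B} (ha : IsUnit a) (hn : IsNilpotent n)
    (hc : a * n = n * a) : IsUnit (a + n) := by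
  have h : Commute n a := hc.symm
  obtain ⟨u, rfl⟩ := ha
  have h1 : Commute (↑u⁻¹ : B) n := (h.symm.units_inv_left)
  have h2 : IsNilpotent ((↑u⁻¹ : B) * n) := h1.isNilpotent_mul_left hn
  have h3 : (u : B) + n = u * (1 + ↑u⁻¹ * n) := by
    rw [mul_add, mul_one, ← mul_assoc, Units.mul_inv, one_mul]
  rw [h3]
  exact u.isUnit.mul h2.isUnit_one_add

theorem gfp (hBLS : BlsStmt) (hGFB : GfbStmt) (hGFQ : GfqStmt) (hBQX : BqxStmt) (hBPU : BpuStmt)
    (hMCK : MckStmt) (hZRT : ZrtStmt) (hFCO : FcoStmt) (hFBK : FbkStmt) : GfpStmt := by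
  intro ℓ _ F F' W E As K _ _ _ _ _ _ _ _ _ _ _ _ ψ γ lam x y hinj hW hE hper0 huni0 hrf0 hunt hN
  classical
  obtain ⟨⟨lamS, hlamS, hrf⟩, hper, huni, -⟩ := hGFB F⟦X⟧ F' W E As K ψ γ lam x y hrf0 hper0 huni0
  have hℓF' : (ℓ : F') = 0 := CharP.cast_eq_zero F' ℓ
  have hℓF : (ℓ : F) = 0 := CharP.cast_eq_zero F ℓ
  have hℓX : (ℓ : F⟦X⟧) = 0 := by
    rw [← map_natCast (PowerSeries.C (R := F)), hℓF, map_zero]
  have hX : algebraMap F⟦X⟧ F' PowerSeries.X ≠ 0 := by
    intro h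
    exact PowerSeries.X_ne_zero (hinj (h.trans (map_zero _).symm))
  obtain ⟨m, u, hu⟩ := hunt
  have hXm : algebraMap F⟦X⟧ F' (PowerSeries.X ^ m) ≠ 0 := by
    rw [map_pow]
    exact pow_ne_zero _ hX
  -- torsion freeness
  have htf : ∀ (n : ℕ) (a : As), (PowerSeries.X ^ n : F⟦X⟧) • a = 0 → a = 0 := by
    obtain ⟨Ω, _, _, b, c, hfr, -⟩ := hper0
    intro n a ha
    rw [← hfr.2.2 a]
    refine Finset.sum_eq_zero fun ω _ => ?_
    have h1 : c ω ((PowerSeries.X ^ n : F⟦X⟧) • a) = 0 := by rw [ha, map_zero]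
    rw [map_smul, smul_eq_mul] at h1
    rw [(mul_eq_zero.1 h1).resolve_left (pow_ne_zero _ PowerSeries.X_ne_zero), zero_smul]
  set r1 : As := ∑ k, x k * y k with hr1
  have hr1c : ∀ c : As, c * r1 = r1 * c := by
    intro c
    have h1 := hZRT F⟦X⟧ W As K γ lam x y hrf0 1 fx_one c
    simp only [mul_one] at h1
    exact h1
  have huc : ∀ c : As, c * u = u * c := by
    intro c
    have h2 : (c * u - u * c) * r1 = 0 := by
      rw [sub_mul, mul_assoc, hu, mul_assoc, hr1c, ← mul_assoc, hu, mul_smul_comm, mul_one,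
        smul_mul_assoc, one_mul, sub_self]
    have h3 : (PowerSeries.X ^ m : F⟦X⟧) • (c * u - u * c) = 0 := by
      have h4 : (c * u - u * c) * (u * r1) = 0 := by
        rw [show u * r1 = r1 * u from hr1c u, ← mul_assoc, h2, zero_mul]
      rwa [hu, mul_smul_comm, mul_one] at h4
    exact sub_eq_zero.1 (htf m _ h3)
  refine ⟨?_, hper, huni, ⟨lamS, K, inferInstance, _, _, hrf, ?_⟩, ?_⟩
  · obtain ⟨Ω, _, _, b, c, hfr, -⟩ := hper
    refine ⟨Submodule.fg_def.2 ⟨Set.range b, Set.finite_range b, ?_⟩⟩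
    rw [eq_top_iff]
    rintro m -
    rw [← hfr.2.2 m]
    exact Submodule.sum_mem _ fun t _ => Submodule.smul_mem _ _ (Submodule.subset_span ⟨t, rfl⟩)
  · refine ⟨(algebraMap F⟦X⟧ F' (PowerSeries.X ^ m))⁻¹ ⊗ₜ[F⟦X⟧] u, ?_⟩
    have e1 : ∑ k, (1 : F') ⊗ₜ[F⟦X⟧] x k * (1 : F') ⊗ₜ[F⟦X⟧] y k =
        (1 : F') ⊗ₜ[F⟦X⟧] r1 := by
      rw [hr1, TensorProduct.tmul_sum]
      refine Finset.sum_congr rfl fun k _ => ?_
      rw [Algebra.TensorProduct.tmul_mul_tmul, one_mul]
    rw [e1, Algebra.TensorProduct.tmul_mul_tmul, hu, mul_one, TensorProduct.tmul_smul,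
      TensorProduct.smul_tmul', Algebra.smul_def, mul_inv_cancel₀ hXm]
    rfl
  · intro Q
    induction Q using WellFoundedGT.induction with
    | ind Q ih =>
    intro e he hid hcen htop
    by_cases hQ : Q = ⊤
    · rw [hQ]
      exact htop
    have hup : ∀ Q' : Subgroup W, Q < Q' →
        e ∈ BKR (cw F' (bcw (R := F⟦X⟧) (S := F') γ)) Q' := by
      intro Q' hQ'
      have heQ' : e ∈ FxR (cw F' (bcw (R := F⟦X⟧) (S := F') γ)) Q' := fx_mono _ le_top he
      refine ih Q' hQ' e he ?_ ?_ htop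
      · exact bk_up _ hFCO hFBK ℓ hℓF' hW ψ hper hQ'.le hid
          (Submodule.sub_mem _ (H28.fx_mul _ Q' heQ' heQ') heQ')
      · intro a ha
        exact bk_up _ hFCO hFBK ℓ hℓF' hW ψ hper hQ'.le (hcen a (fx_mono _ hQ'.le ha))
          (Submodule.sub_mem _ (H28.fx_mul _ Q' heQ' ha) (H28.fx_mul _ Q' ha heQ'))
    obtain ⟨w, hw⟩ : ∃ w, w ∉ Q := by
      by_contra h
      push Not at h
      exact hQ (eq_top_iff.2 fun w _ => h w)
    obtain ⟨Bs, _, _, γB, βs, hBs⟩ := hBQX F⟦X⟧ W As γ Q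
    obtain ⟨D, _, _, γD, βD, hDq⟩ := hBQX F' W (F' ⊗[F⟦X⟧] As) (bcw (R := F⟦X⟧) (S := F') γ) Q
    obtain ⟨E1, hE1⟩ : ∃ E1 : Subgroup E, ∀ e, e ∈ E1 ↔ ∀ u ∈ Q, ψ e u = u :=
      ⟨{ carrier := {e | ∀ u ∈ Q, ψ e u = u}
         one_mem' := fun u _ => by rw [map_one]; rfl
         mul_mem' := fun {a b} ha hb u hu => by
           rw [map_mul, MulAut.mul_apply, hb u hu, ha u hu]
         inv_mem' := fun {a} ha u hu => by
           have h1 := ha u hu
           rw [map_inv]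
           calc (ψ a)⁻¹ u = (ψ a)⁻¹ (ψ a u) := by rw [h1]
             _ = u := MulAut.inv_apply_self _ (ψ a) u }, fun e => Iff.rfl⟩
    obtain ⟨-, -, lamB, KB, _, xB, yB, hrfB, hlamB⟩ := hBPU ℓ F⟦X⟧ W E As Bs K ψ γ Q γB βs lam
      x y E1 hℓX hW hper0 huni0 hrf0 hBs hE1
    -- `rtB(1)` divides `X ^ m`
    have hufx : u ∈ FxR (cw F⟦X⟧ γ) Q := fx_of_comm fun v => huc _
    have hr1fx : r1 ∈ FxR (cw F⟦X⟧ γ) Q := fx_of_comm fun v => hr1c _
    choose n n' hn1 hn2 hn3 using huni0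
    obtain ⟨T, hT1, hT2⟩ := exists_T E1
    have hT3 : ∀ e : E, ∃! t, t ∈ T ∧ ∀ v ∈ Q, (ψ t)⁻¹ v = (ψ e)⁻¹ v := by
      intro e
      have h1 : ∀ t : E, (∀ v ∈ Q, (ψ t)⁻¹ v = (ψ e)⁻¹ v) ↔ t * e⁻¹ ∈ E1 := by
        intro t
        rw [hE1]
        refine forall₂_congr fun v _ => ?_
        rw [map_mul, map_inv, MulAut.mul_apply]
        constructor
        · intro h
          rw [← h, MulAut.apply_inv_self]
        · intro h
          conv_lhs => rw [← h]
          rw [MulAut.inv_apply_self]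
      simp only [h1]
      exact hT2 e
    have h1 := hMCK ℓ F⟦X⟧ W E As Bs K KB ψ γ Q γB βs lam x y lamB xB yB n n' T hℓX hW hper0 hrf0
      hBs hrfB hlamB (fun e => ⟨hn1 e, hn2 e, hn3 e⟩) hT3 1 fx_one
    simp only [mul_one, hn1, hBs.one] at h1
    rw [Finset.sum_const] at h1
    have h2 : βs u * βs r1 = (PowerSeries.X ^ m : F⟦X⟧) • (1 : Bs) := by
      rw [← hBs.mul _ hufx _ hr1fx, hu, hBs.smul _ _ fx_one, hBs.one]
    set rB : Bs := ∑ k, xB k * yB k with hrB
    set rw' : Bs := ∑ k, xB k * γB w * yB k with hrw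
    rw [← hr1] at h1
    rw [h1] at h2
    obtain ⟨κ, lamD, -, hκs, hκw, hrfD⟩ :=
      hGFQ ℓ F⟦X⟧ F' W E As Bs D K KB ψ γ lam x y Q γB βs γD βD lamB xB yB hℓX hW hrf0 hper0
        (fun e => ⟨n e, n' e, hn1 e, hn2 e, hn3 e⟩) hBs hDq hrfB hlamB
    have hrBc : ∀ c : Bs, c * rB = rB * c := by
      intro c
      have h3 := hZRT F⟦X⟧ W Bs KB γB lamB xB yB hrfB 1 fx_one c
      simp only [mul_one] at h3
      exact h3
    -- `κ rB` is a unit
    have h3 : (T.card • βs u) * rB = (PowerSeries.X ^ m : F⟦X⟧) • (1 : Bs) := by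
      rw [← h2, smul_mul_assoc, mul_smul_comm]
    have h4 : κ (T.card • βs u) * κ rB = algebraMap F⟦X⟧ F' (PowerSeries.X ^ m) • (1 : D) := by
      rw [← map_mul, h3, hκs, map_one]
    have h5 : IsUnit (κ rB) := by
      have h6 : ((algebraMap F⟦X⟧ F' (PowerSeries.X ^ m))⁻¹ • κ (T.card • βs u)) * κ rB = 1 := by
        rw [smul_mul_assoc, h4, smul_smul, inv_mul_cancel₀ hXm, one_smul]
      have h7 : κ rB * ((algebraMap F⟦X⟧ F' (PowerSeries.X ^ m))⁻¹ • κ (T.card • βs u)) = 1 := by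
        rw [mul_smul_comm, ← map_mul, ← hrBc, map_mul, h4, smul_smul, inv_mul_cancel₀ hXm, one_smul]
      exact ⟨⟨_, _, h7, h6⟩, rfl⟩
    have h8 : IsUnit (κ rw') := by
      have h9 := hN Q Bs KB γB βs lamB xB yB hBs hrfB hlamB w
      have h10 : rw' = rB + (rw' - rB) := by abel
      rw [h10, map_add]
      refine unit_add_nil h5 (h9.map κ) ?_
      rw [← map_mul, ← map_mul, hrBc]
    have hz := hBLS ℓ F' W E (F' ⊗[F⟦X⟧] As) D KB ψ (bcw (R := F⟦X⟧) (S := F') γ) Q γD βD lamD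
      (fun k => κ (xB k)) (fun k => κ (yB k)) e w hℓF' hW hper hDq hrfD he hid hcen hup hw
    have h11 : ∑ k, κ (xB k) * γD w * κ (yB k) = κ rw' := by
      rw [hrw, map_sum]
      refine Finset.sum_congr rfl fun k _ => ?_
      rw [map_mul, map_mul, hκw]
    have h12 : βD e * κ rw' = 0 := by
      rw [← h11]
      exact hz
    have h13 : βD e = 0 := by
      obtain ⟨v, hv⟩ := h8
      rw [← hv] at h12
      exact (Units.mul_left_eq_zero v).1 h12
    exact (hDq.ker e (fx_mono _ le_top he)).1 h13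

end Pool.Agent.PSS.S3.H30
end
end -- Pool.Agent.Helper30_PSS.GFP

section -- Pool.Agent.Helper30_PST.PWC

set_option autoImplicit false

namespace Pool.Agent.PST.U.H30P

theorem pwc : PwcStmt := by
  intro ℓ _ L _ a d h k
  let _ : CommRing (Subring.closure ({a, d} : Set L)) := Subring.closureCommRingOfComm (by
    intro x hx y hy
    rcases hx with rfl | rfl <;> rcases hy with rfl | rfl
    · rfl
    · exact h
    · exact h.symm
    · rfl)
  let a' : Subring.closure ({a, d} : Set L) := ⟨a, Subring.subset_closure (by simp)⟩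
  let d' : Subring.closure ({a, d} : Set L) := ⟨d, Subring.subset_closure (by simp)⟩
  have h1 : ((ℓ : ℕ) : Subring.closure ({a, d} : Set L)) ∣ (a' + ℓ * d') - a' := ⟨d', by ring⟩
  obtain ⟨y, hy⟩ := dvd_sub_pow_of_dvd_sub h1 k
  refine ⟨(y : L), ?_⟩
  have h2 := congrArg (Subring.subtype (Subring.closure ({a, d} : Set L))) (sub_eq_iff_eq_add'.1 hy)
  rw [map_pow, map_add, map_add, map_mul, map_mul, map_pow, map_pow, map_natCast] at h2
  rw [nsmul_eq_mul, nsmul_eq_mul, Nat.cast_pow]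
  exact h2

end Pool.Agent.PST.U.H30P
end -- Pool.Agent.Helper30_PST.PWC

section -- Pool.Agent.Helper32_PSS.CrrA

/-!
Squad PSS, block S1, row CRR (helper32), part A: the trivial deformation, conjugation by the
trivialisation.
-/

set_option autoImplicit false

open scoped BigOperators TensorProduct

noncomputable section

namespace Pool.Agent.PSS.H32

open Pool.Agent.PFD.D2 (Cdv FibG)
open Pool.Agent.PFD.D2b (FrR)
open Finset
open Pool.Agent.PSS
open Pool.Agent.PSS.Dm (cst)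

/-! ### Sums over antidiagonals -/

theorem ad_a {M : Type} [AddCommMonoid M] (n : ℕ) (S : ℕ → ℕ → ℕ → M) :
    ∑ p ∈ antidiagonal n, ∑ q ∈ antidiagonal p.1, S q.1 q.2 p.2 =
      ∑ p ∈ antidiagonal n, ∑ q ∈ antidiagonal p.2, S q.1 p.1 q.2 := by
  have e1 : ∑ p ∈ antidiagonal n, ∑ q ∈ antidiagonal p.1, S q.1 q.2 p.2 =
      ∑ x ∈ (antidiagonal n).sigma (fun p => antidiagonal p.1), S x.2.1 x.2.2 x.1.2 := by
    rw [Finset.sum_sigma]
  have e2 : ∑ p ∈ antidiagonal n, ∑ q ∈ antidiagonal p.2, S q.1 p.1 q.2 =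
      ∑ x ∈ (antidiagonal n).sigma (fun p => antidiagonal p.2), S x.2.1 x.1.1 x.2.2 := by
    rw [Finset.sum_sigma]
  rw [e1, e2]
  refine Finset.sum_nbij'
    (i := fun x => ⟨(x.2.2, x.2.1 + x.1.2), (x.2.1, x.1.2)⟩)
    (j := fun x => ⟨(x.2.1 + x.1.1, x.2.2), (x.2.1, x.1.1)⟩) ?_ ?_ ?_ ?_ ?_
  · rintro ⟨⟨a, b⟩, ⟨c, d⟩⟩ h
    simp only [mem_sigma, Finset.HasAntidiagonal.mem_antidiagonal] at h ⊢
    refine ⟨?_, trivial⟩
    omega
  · rintro ⟨⟨a, b⟩, ⟨c, d⟩⟩ h
    simp only [mem_sigma, Finset.HasAntidiagonal.mem_antidiagonal] at h ⊢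
    refine ⟨?_, trivial⟩
    omega
  · rintro ⟨⟨a, b⟩, ⟨c, d⟩⟩ h
    simp only [mem_sigma, Finset.HasAntidiagonal.mem_antidiagonal] at h
    obtain ⟨h1, h2⟩ := h
    subst h2
    rfl
  · rintro ⟨⟨a, b⟩, ⟨c, d⟩⟩ h
    simp only [mem_sigma, Finset.HasAntidiagonal.mem_antidiagonal] at h
    obtain ⟨h1, h2⟩ := h
    subst h2
    rfl
  · rintro ⟨⟨a, b⟩, ⟨c, d⟩⟩ h
    rfl

theorem ad_b {M : Type} [AddCommMonoid M] (n : ℕ) (S : ℕ → ℕ → ℕ → M) :
    ∑ p ∈ antidiagonal n, ∑ q ∈ antidiagonal p.2, S p.1 q.1 q.2 =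
      ∑ p ∈ antidiagonal n, ∑ q ∈ antidiagonal p.2, S q.1 q.2 p.1 := by
  have e1 : ∑ p ∈ antidiagonal n, ∑ q ∈ antidiagonal p.2, S p.1 q.1 q.2 =
      ∑ x ∈ (antidiagonal n).sigma (fun p => antidiagonal p.2), S x.1.1 x.2.1 x.2.2 := by
    rw [Finset.sum_sigma]
  have e2 : ∑ p ∈ antidiagonal n, ∑ q ∈ antidiagonal p.2, S q.1 q.2 p.1 =
      ∑ x ∈ (antidiagonal n).sigma (fun p => antidiagonal p.2), S x.2.1 x.2.2 x.1.1 := by
    rw [Finset.sum_sigma]
  rw [e1, e2]
  refine Finset.sum_nbij'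
    (i := fun x => ⟨(x.2.2, x.1.1 + x.2.1), (x.1.1, x.2.1)⟩)
    (j := fun x => ⟨(x.2.1, x.2.2 + x.1.1), (x.2.2, x.1.1)⟩) ?_ ?_ ?_ ?_ ?_
  · rintro ⟨⟨a, b⟩, ⟨c, d⟩⟩ h
    simp only [mem_sigma, Finset.HasAntidiagonal.mem_antidiagonal] at h ⊢
    refine ⟨?_, trivial⟩
    omega
  · rintro ⟨⟨a, b⟩, ⟨c, d⟩⟩ h
    simp only [mem_sigma, Finset.HasAntidiagonal.mem_antidiagonal] at h ⊢
    refine ⟨?_, trivial⟩
    omega
  · rintro ⟨⟨a, b⟩, ⟨c, d⟩⟩ h
    simp only [mem_sigma, Finset.HasAntidiagonal.mem_antidiagonal] at h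
    obtain ⟨h1, h2⟩ := h
    subst h2
    rfl
  · rintro ⟨⟨a, b⟩, ⟨c, d⟩⟩ h
    simp only [mem_sigma, Finset.HasAntidiagonal.mem_antidiagonal] at h
    obtain ⟨h1, h2⟩ := h
    subst h2
    rfl
  · rintro ⟨⟨a, b⟩, ⟨c, d⟩⟩ h
    rfl

/-! ### The trivial deformation -/

section triv

variable {K B W : Type} [CommRing K] [Ring B] [Algebra K B] [Group W]

/-- the structure constants of the trivial deformation -/
def tm (K B : Type) [CommRing K] [Ring B] [Algebra K B] (n : ℕ) : B →ₗ[K] B →ₗ[K] B :=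
  if n = 0 then LinearMap.mul K B else 0

theorem tm_zero (x y : B) : tm K B 0 x y = x * y := by
  rw [tm, if_pos rfl, LinearMap.mul_apply']

theorem tm_succ (n : ℕ) (x y : B) : tm K B (n + 1) x y = 0 := by
  rw [tm, if_neg (Nat.succ_ne_zero n), LinearMap.zero_apply, LinearMap.zero_apply]

/-- the trivial deformation -/
def triv (K : Type) {B W : Type} [CommRing K] [Ring B] [Algebra K B] [Group W] (om : W →* B) :
    Dm K om where
  m := tm K B
  m0 := tm_zero
  ass := by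
    intro n x y z
    refine Finset.sum_congr rfl ?_
    rintro ⟨a, b⟩ -
    rcases a with _ | a
    · rcases b with _ | b
      · simp only [tm_zero, mul_assoc]
      · simp only [tm_zero, tm_succ, zero_mul, mul_zero]
    · rcases b with _ | b
      · simp only [tm_zero, tm_succ]
      · simp only [tm_succ]
  wl := by
    intro n w x y
    rcases n with _ | n
    · simp only [tm_zero, mul_assoc]
    · simp only [tm_succ, mul_zero]
  wm := by
    intro n w x y
    rcases n with _ | n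
    · simp only [tm_zero, mul_assoc]
    · simp only [tm_succ]
  wr := by
    intro n w x y
    rcases n with _ | n
    · simp only [tm_zero, mul_assoc]
    · simp only [tm_succ, zero_mul]
  n1 := fun n x => tm_succ n 1 x
  n2 := fun n x => tm_succ n x 1

theorem triv_mul (om : W →* B) (f g : ℕ → B) (n : ℕ) :
    (triv K om).mul f g n = ∑ q ∈ antidiagonal n, f q.1 * g q.2 := by
  rw [Dm.mul, Finset.sum_eq_single (0, n)]
  · exact Finset.sum_congr rfl fun q _ => tm_zero _ _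
  · rintro ⟨a, b⟩ h hne
    rcases a with _ | a
    · rw [Finset.HasAntidiagonal.mem_antidiagonal] at h
      simp only [zero_add] at h
      exact absurd (by rw [h]) hne
    · exact Finset.sum_eq_zero fun q _ => tm_succ a _ _
  · intro h
    exact absurd (by rw [Finset.HasAntidiagonal.mem_antidiagonal]; simp) h

theorem triv_lft (om : W →* B) (f : ℕ → B) (n : ℕ) (x : B) :
    (PowerSeries.coeff n ((triv K om).lft f)) x = f n * x := by
  rw [Dm.lft_apply, Finset.sum_eq_single (0, n)]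
  · exact tm_zero _ _
  · rintro ⟨a, b⟩ h hne
    rcases a with _ | a
    · rw [Finset.HasAntidiagonal.mem_antidiagonal] at h
      simp only [zero_add] at h
      exact absurd (by rw [h]) hne
    · exact tm_succ a _ _
  · intro h
    exact absurd (by rw [Finset.HasAntidiagonal.mem_antidiagonal]; simp) h

theorem triv_of_mul (om : W →* B) (f g : ℕ → B) :
    (triv K om).of f * (triv K om).of g =
      (triv K om).of (fun n => ∑ q ∈ antidiagonal n, f q.1 * g q.2) := by
  rw [← Dm.of_mul]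
  congr 1
  funext n
  exact triv_mul om f g n

theorem triv_cst_mul (om : W →* B) (a : B) (g : ℕ → B) :
    (triv K om).of (cst a) * (triv K om).of g = (triv K om).of (fun n => a * g n) := by
  rw [triv_of_mul]
  congr 1
  funext n
  rw [Finset.sum_eq_single (0, n)]
  · rfl
  · rintro ⟨b, c⟩ h hne
    rcases b with _ | b
    · rw [Finset.HasAntidiagonal.mem_antidiagonal] at h
      simp only [zero_add] at h
      exact absurd (by rw [h]) hne
    · simp [cst]
  · intro h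
    exact absurd (by rw [Finset.HasAntidiagonal.mem_antidiagonal]; simp) h

theorem triv_mul_cst (om : W →* B) (a : B) (g : ℕ → B) :
    (triv K om).of g * (triv K om).of (cst a) = (triv K om).of (fun n => g n * a) := by
  rw [triv_of_mul]
  congr 1
  funext n
  rw [Finset.sum_eq_single (n, 0)]
  · rfl
  · rintro ⟨b, c⟩ h hne
    rcases c with _ | c
    · rw [Finset.HasAntidiagonal.mem_antidiagonal] at h
      simp only [add_zero] at h
      exact absurd (by rw [h]) hne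
    · simp [cst]
  · intro h
    exact absurd (by rw [Finset.HasAntidiagonal.mem_antidiagonal]; simp) h

end triv

section gen

variable {K B W : Type} [CommRing K] [Ring B] [Algebra K B] [Group W] {om : W →* B} (D : Dm K om)

theorem of_inj {f g : ℕ → B} (h : D.of f = D.of g) : f = g := by
  rw [← D.sq_of f, h, D.sq_of]

theorem of_sum {ι : Type} (s : Finset ι) (f : ι → ℕ → B) :
    D.of (fun n => ∑ i ∈ s, f i n) = ∑ i ∈ s, D.of (f i) := by
  classical
  induction s using Finset.induction_on with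
  | empty =>
    rw [Finset.sum_empty]
    simp only [Finset.sum_empty]
    exact D.of_zero
  | insert i s hi ih =>
    rw [Finset.sum_insert hi, ← ih, ← D.of_add]
    congr 1
    funext n
    rw [Finset.sum_insert hi]
    rfl

theorem smul_cst (c : PowerSeries K) (b : B) :
    c • D.of (cst b) = D.of (fun n => PowerSeries.coeff n c • b) := by
  rw [← D.of_smul]
  congr 1
  funext n
  rw [Dm.smulq, Finset.sum_eq_single (n, 0)]
  · rfl
  · rintro ⟨a, e⟩ h hne
    rcases e with _ | e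
    · rw [Finset.HasAntidiagonal.mem_antidiagonal] at h
      simp only [add_zero] at h
      exact absurd (by rw [h]) hne
    · simp [cst]
  · intro h
    exact absurd (by rw [Finset.HasAntidiagonal.mem_antidiagonal]; simp) h

/-- the action of a power series of linear maps on a sequence -/
def act (U : PowerSeries (Module.End K B)) (f : ℕ → B) (n : ℕ) : B :=
  ∑ p ∈ antidiagonal n, (PowerSeries.coeff p.1 U) (f p.2)

theorem act_eq (U : PowerSeries (Module.End K B)) (f : ℕ → B) (n : ℕ) :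
    act U f n = (PowerSeries.coeff n (U * D.lft f)) 1 := by
  rw [PowerSeries.coeff_mul, LinearMap.sum_apply, act]
  refine Finset.sum_congr rfl fun p _ => ?_
  rw [Module.End.mul_apply, D.lft_one]

theorem act_act (U V : PowerSeries (Module.End K B)) (f : ℕ → B) :
    act U (act V f) = act (U * V) f := by
  funext n
  rw [act_eq (triv K (1 : Unit →* B)) (U * V), mul_assoc, PowerSeries.coeff_mul,
    LinearMap.sum_apply, act]
  refine Finset.sum_congr rfl fun p _ => ?_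
  rw [Module.End.mul_apply, ← act_eq]

theorem act_one (f : ℕ → B) : act (1 : PowerSeries (Module.End K B)) f = f := by
  funext n
  rw [act_eq (triv K (1 : Unit →* B)), one_mul, Dm.lft_one]

end gen

end Pool.Agent.PSS.H32
end
end -- Pool.Agent.Helper32_PSS.CrrA

section -- Pool.Agent.Helper32_PSS.CrrB

/-!
Squad PSS, block S1, row CRR (helper32), part B: the isomorphism with the trivial deformation.
-/

set_option autoImplicit false

open scoped BigOperators TensorProduct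

noncomputable section

namespace Pool.Agent.PSS.H32

open Pool.Agent.PFD.D2 (Cdv FibG)
open Pool.Agent.PFD.D2b (FrR)
open Finset
open Pool.Agent.PSS
open Pool.Agent.PSS.Dm (cst)

section iso

variable {K B W : Type} [CommRing K] [Ring B] [Algebra K B] [Group W] {om : W →* B} (D : Dm K om)
  (P : ℕ → (B →ₗ[K] B))

/-- the power series of the trivialisation -/
def Ps : PowerSeries (Module.End K B) := PowerSeries.mk P

theorem Ps_coeff (n : ℕ) (x : B) : (PowerSeries.coeff n (Ps P)) x = P n x := by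
  rw [Ps, PowerSeries.coeff_mk]

theorem act_Ps (f : ℕ → B) (n : ℕ) : act (Ps P) f n = ∑ p ∈ antidiagonal n, P p.1 (f p.2) := by
  rw [act]
  exact Finset.sum_congr rfl fun p _ => Ps_coeff P _ _

theorem exInv (h0 : P 0 = LinearMap.id) : ∃ Q : PowerSeries (Module.End K B),
    Ps P * Q = 1 ∧ Q * Ps P = 1 := by
  have h : PowerSeries.constantCoeff (Ps P) = ((1 : (Module.End K B)ˣ) : Module.End K B) := by
    rw [← PowerSeries.coeff_zero_eq_constantCoeff_apply, Ps, PowerSeries.coeff_mk, h0]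
    rfl
  exact ⟨PowerSeries.invOfUnit (Ps P) 1, PowerSeries.mul_invOfUnit _ _ h,
    PowerSeries.invOfUnit_mul _ _ h⟩

theorem conj (hpm : ∀ n x y, ∑ p ∈ antidiagonal n, P p.1 x * P p.2 y =
    ∑ p ∈ antidiagonal n, P p.1 (D.m p.2 x y)) (f : ℕ → B) :
    (triv K om).lft (act (Ps P) f) * Ps P = Ps P * D.lft f := by
  ext n x
  rw [PowerSeries.coeff_mul, PowerSeries.coeff_mul, LinearMap.sum_apply, LinearMap.sum_apply]
  have h1 : ∀ p : ℕ × ℕ, ((PowerSeries.coeff p.1) ((triv K om).lft (act (Ps P) f)) *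
      (PowerSeries.coeff p.2) (Ps P)) x =
      ∑ q ∈ antidiagonal p.1, P q.1 (f q.2) * P p.2 x := by
    intro p
    rw [Module.End.mul_apply, triv_lft, Ps_coeff, act_Ps, Finset.sum_mul]
  have h2 : ∀ p : ℕ × ℕ, ((PowerSeries.coeff p.1) (Ps P) *
      (PowerSeries.coeff p.2) (D.lft f)) x =
      ∑ q ∈ antidiagonal p.2, P p.1 (D.m q.1 (f q.2) x) := by
    intro p
    rw [Module.End.mul_apply, Ps_coeff, D.lft_apply, map_sum]
  rw [Finset.sum_congr rfl fun p _ => h1 p, Finset.sum_congr rfl fun p _ => h2 p,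
    ad_a n (fun i j l => P i (f j) * P l x), ad_b n (fun i l j => P i (D.m l (f j) x))]
  refine Finset.sum_congr rfl fun p _ => ?_
  exact hpm p.2 (f p.1) x

/-- the map `Φ` -/
def Phi (x : D.R) : (triv K om).R := (triv K om).of (act (Ps P) (D.sq x))

theorem Phi_of (f : ℕ → B) : Phi D P (D.of f) = (triv K om).of (act (Ps P) f) := by
  rw [Phi, D.sq_of]

variable {P}

theorem Phi_conj (hpm : ∀ n x y, ∑ p ∈ antidiagonal n, P p.1 x * P p.2 y =
    ∑ p ∈ antidiagonal n, P p.1 (D.m p.2 x y)) (x : D.R) :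
    (Phi D P x).1 * Ps P = Ps P * x.1 := by
  have h := conj D P hpm (D.sq x)
  have h2 : x.1 = D.lft (D.sq x) := by
    have h3 := congrArg Subtype.val (D.of_sq x)
    exact h3.symm
  rw [h2]
  exact h

theorem Phi_uniq (h0 : P 0 = LinearMap.id)
    (hpm : ∀ n x y, ∑ p ∈ antidiagonal n, P p.1 x * P p.2 y =
    ∑ p ∈ antidiagonal n, P p.1 (D.m p.2 x y)) (x : D.R) (t : (triv K om).R)
    (h : t.1 * Ps P = Ps P * x.1) : Phi D P x = t := by
  obtain ⟨Q, hQ, -⟩ := exInv P h0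
  have h1 := (Phi_conj D hpm x).trans h.symm
  have h2 : (Phi D P x).1 * Ps P * Q = t.1 * Ps P * Q := by rw [h1]
  rw [mul_assoc, mul_assoc, hQ, mul_one, mul_one] at h2
  exact Subtype.ext h2

theorem exPhi (h0 : P 0 = LinearMap.id)
    (hpm : ∀ n x y, ∑ p ∈ antidiagonal n, P p.1 x * P p.2 y =
    ∑ p ∈ antidiagonal n, P p.1 (D.m p.2 x y)) :
    ∃ Φ : D.R ≃ₗ[PowerSeries K] (triv K om).R, (∀ a b, Φ (a * b) = Φ a * Φ b) ∧
      ∀ f, Φ (D.of f) = (triv K om).of (act (Ps P) f) := by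
  obtain ⟨Q, hQ1, hQ2⟩ := exInv P h0
  have hadd : ∀ a b, Phi D P (a + b) = Phi D P a + Phi D P b := by
    intro a b
    apply Phi_uniq D h0 hpm
    show ((Phi D P a).1 + (Phi D P b).1) * Ps P = Ps P * (a.1 + b.1)
    rw [add_mul, mul_add, Phi_conj D hpm, Phi_conj D hpm]
  have hmul : ∀ a b, Phi D P (a * b) = Phi D P a * Phi D P b := by
    intro a b
    apply Phi_uniq D h0 hpm
    show ((Phi D P a).1 * (Phi D P b).1) * Ps P = Ps P * (a.1 * b.1)
    rw [mul_assoc, Phi_conj D hpm, ← mul_assoc, Phi_conj D hpm, mul_assoc]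
  have hsmul : ∀ (c : PowerSeries K) a, Phi D P (c • a) = c • Phi D P a := by
    intro c a
    apply Phi_uniq D h0 hpm
    rw [Algebra.smul_def, Algebra.smul_def]
    show (Dm.scl K B c * (Phi D P a).1) * Ps P = Ps P * (Dm.scl K B c * a.1)
    rw [mul_assoc, Phi_conj D hpm, ← mul_assoc, ← mul_assoc, Dm.scl_comm]
  let Φ₀ : D.R →ₗ[PowerSeries K] (triv K om).R :=
    { toFun := Phi D P, map_add' := hadd, map_smul' := hsmul }
  have hΦ₀ : ∀ a, Φ₀ a = Phi D P a := fun _ => rfl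
  have hinj : Function.Injective Φ₀ := by
    intro a b hab
    rw [hΦ₀, hΦ₀] at hab
    have h1 : Ps P * a.1 = Ps P * b.1 := by
      rw [← Phi_conj D hpm, ← Phi_conj D hpm, hab]
    have h2 : Q * (Ps P * a.1) = Q * (Ps P * b.1) := by rw [h1]
    rw [← mul_assoc, ← mul_assoc, hQ2, one_mul, one_mul] at h2
    exact Subtype.ext h2
  have hsur : Function.Surjective Φ₀ := by
    intro t
    refine ⟨D.of (act Q ((triv K om).sq t)), ?_⟩
    rw [hΦ₀, Phi_of, act_act, hQ1, act_one, Dm.of_sq]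
  refine ⟨LinearEquiv.ofBijective Φ₀ ⟨hinj, hsur⟩, ?_, ?_⟩
  · intro a b
    rw [LinearEquiv.ofBijective_apply, LinearEquiv.ofBijective_apply,
      LinearEquiv.ofBijective_apply]
    exact hmul a b
  · intro f
    rw [LinearEquiv.ofBijective_apply]
    exact Phi_of D P f

end iso

end Pool.Agent.PSS.H32
end
end -- Pool.Agent.Helper32_PSS.CrrB

section -- Pool.Agent.Helper49_PST.CRT

/-!
Squad PST, block U, row CRT (helper49): the trace formula over `K` in the form of rings.  An edit of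
`Helper32_PSS/CRR.lean`.
-/

set_option autoImplicit false

open scoped BigOperators TensorProduct

noncomputable section

namespace Pool.Agent.PST.U.H49

open Pool.Agent.PFC (IsTv)
open Pool.Agent.PFD.D2 (Cdv FibG)
open Pool.Agent.PFD.D2b (FrR)
open Finset
open Pool.Agent.PSS
open Pool.Agent.PSS.Dm (cst)
open Pool.Agent.PSS.H32

theorem exTv {V : Type} [CommGroup V] [Fintype V] (W : Subgroup V) :
    ∃ S : Finset V, IsTv W ⊤ S ∧ S.card = W.index := by
  classical
  have : Fintype (V ⧸ W) := Fintype.ofFinite _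
  refine ⟨Finset.univ.image (fun q : V ⧸ W => q.out), ⟨fun s _ => Subgroup.mem_top s, ?_⟩, ?_⟩
  · intro p _
    refine ⟨((p : V ⧸ W)).out, ⟨Finset.mem_image_of_mem _ (Finset.mem_univ _), ?_⟩, ?_⟩
    · rw [← QuotientGroup.eq, QuotientGroup.out_eq']
    · rintro s ⟨hs, hs2⟩
      obtain ⟨q, -, rfl⟩ := Finset.mem_image.1 hs
      rw [← QuotientGroup.eq, QuotientGroup.out_eq'] at hs2
      rw [hs2]
  · have hi : Function.Injective (fun q : V ⧸ W => q.out) := fun a b h =>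
      Quotient.out_injective h
    have h1 := Finset.card_image_of_injective Finset.univ hi
    refine h1.trans ?_
    rw [Finset.card_univ, Subgroup.index, Nat.card_eq_fintype_card]

theorem crt (hfun : FunStmt) (rfe : RfeStmt) (rtc : RtcStmt) (rfs : S0.RfsStmt) : CrtStmt := by
  classical
  intro K V B κ κ' _ _ _ _ _ _ _ _ _ W _ β lamK x y P m D Λ x' y' hT hDm hrf hRF
  subst hDm
  have hpm := hT.pm
  have h0 := hT.p0
  obtain ⟨Φ, hmul, hof⟩ := exPhi D h0 hpm
  let T : Dm K (aw β W) := triv K (aw β W)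
  have htm : ∀ f g, T.of f * T.of g = T.of (fun n => ∑ q ∈ antidiagonal n, f q.1 * g q.2) :=
    triv_of_mul (aw β W)
  have htc : ∀ a g, T.of (cst a) * T.of g = T.of (fun n => a * g n) := triv_cst_mul (aw β W)
  have htd : ∀ a g, T.of g * T.of (cst a) = T.of (fun n => g n * a) := triv_mul_cst (aw β W)
  -- the group
  have hw : ∀ w : W, Φ (D.w w) = T.w w := by
    intro w
    show Φ (D.of (cst (aw β W w))) = T.of (cst (aw β W w))
    rw [hof]
    congr 1
    funext n
    rw [act_Ps, Finset.sum_eq_single (n, 0)]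
    · show P n (cst (aw β W w) 0) = cst (aw β W w) n
      rcases n with _ | n
      · rw [h0]
        rfl
      · have h1 := (hT.pw (n + 1) w.1 w.2 1).1
        rw [mul_one, hT.p1, mul_zero] at h1
        exact h1
    · rintro ⟨b, c⟩ h hne
      rcases c with _ | c
      · rw [Finset.HasAntidiagonal.mem_antidiagonal] at h
        simp only [add_zero] at h
        exact absurd (by rw [h]) hne
      · simp [cst]
    · intro h
      exact absurd (by rw [Finset.HasAntidiagonal.mem_antidiagonal]; simp) h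
  -- the inverse is multiplicative
  have hsymm : ∀ a b, Φ.symm (a * b) = Φ.symm a * Φ.symm b := by
    intro a b
    apply Φ.injective
    rw [hmul, LinearEquiv.apply_symm_apply, LinearEquiv.apply_symm_apply,
      LinearEquiv.apply_symm_apply]
  -- the forms
  let Λ₁ : T.R →ₗ[PowerSeries K] PowerSeries K := Λ.comp Φ.symm.toLinearMap
  have hΛ₁ : ∀ a, Λ₁ (Φ a) = Λ a := by
    intro a
    show Λ (Φ.symm (Φ a)) = Λ a
    rw [LinearEquiv.symm_apply_apply]
  have hs1 : ∀ a b, Λ₁ (a * b) = Λ₁ (b * a) := by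
    intro a b
    show Λ (Φ.symm (a * b)) = Λ (Φ.symm (b * a))
    rw [hsymm, hsymm, hRF.sym]
  obtain ⟨Λ₀, hΛ₀'⟩ := (hfun K W B (aw β W) T).1 (fun n => if n = 0 then lamK else 0)
  have hΛ₀ : ∀ f n, PowerSeries.coeff n (Λ₀ (T.of f)) = lamK (f n) := by
    intro f n
    rw [hΛ₀', Finset.sum_eq_single (0, n)]
    · rfl
    · rintro ⟨b, c⟩ h hne
      rcases b with _ | b
      · rw [Finset.HasAntidiagonal.mem_antidiagonal] at h
        simp only [zero_add] at h
        exact absurd (by rw [h]) hne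
      · rw [if_neg (Nat.succ_ne_zero b)]
        rfl
    · intro h
      exact absurd (by rw [Finset.HasAntidiagonal.mem_antidiagonal]; simp) h
  have hs0 : ∀ a b, Λ₀ (a * b) = Λ₀ (b * a) := by
    intro a b
    rw [← T.of_sq a, ← T.of_sq b, htm, htm]
    ext n
    rw [hΛ₀, hΛ₀, map_sum, map_sum,
      ← Finset.Nat.sum_antidiagonal_swap (f := fun p : ℕ × ℕ =>
        lamK (T.sq b p.1 * T.sq a p.2))]
    exact Finset.sum_congr rfl fun p _ => hrf.sym _ _
  -- the constant dual families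
  obtain ⟨S, hS, hSc⟩ := exTv W
  have hRFW := rfs K V B κ β lamK x y W S hrf hS
  obtain ⟨X, hX⟩ : ∃ X : κ × S → B, X = fun p => x p.1 * β (p.2 : V) :=
    ⟨_, rfl⟩
  obtain ⟨Y, hY⟩ : ∃ Y : κ × S → B, Y = fun p => β (p.2 : V)⁻¹ * y p.1 :=
    ⟨_, rfl⟩
  rw [← hX, ← hY] at hRFW
  have hTw : ∀ w : W, T.w w = T.of (cst (aw β W w)) := fun _ => rfl
  have he1 : ∀ a, ∑ k, ∑ w, Λ₀ (T.w w⁻¹ * T.of (cst (Y k)) * a) • (T.of (cst (X k)) * T.w w) =
      a := by
    intro a
    have h1 : ∀ k w, Λ₀ (T.w w⁻¹ * T.of (cst (Y k)) * a) • (T.of (cst (X k)) * T.w w) =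
        T.of (fun n => lamK (aw β W w⁻¹ * Y k * T.sq a n) • (X k * aw β W w)) := by
      intro k w
      have h2 : T.of (cst (X k)) * T.w w = T.of (cst (X k * aw β W w)) := by
        rw [hTw, htd]
        congr 1
        funext n
        rw [cst, cst]
        split_ifs
        · rfl
        · rw [zero_mul]
      have h3 : T.w w⁻¹ * T.of (cst (Y k)) * a =
          T.of (fun n => aw β W w⁻¹ * Y k * T.sq a n) := by
        rw [mul_assoc]
        conv_lhs => rw [← T.of_sq a]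
        rw [htc, hTw, htc]
        congr 1
        funext n
        rw [mul_assoc]
      rw [h2, h3, smul_cst]
      congr 1
      funext n
      rw [hΛ₀]
    rw [Finset.sum_congr rfl fun k _ => Finset.sum_congr rfl fun w _ => h1 k w]
    rw [Finset.sum_congr rfl fun k _ => (of_sum T Finset.univ _).symm, ← of_sum T Finset.univ]
    have h4 : (fun n => ∑ k, ∑ w, lamK (aw β W w⁻¹ * Y k * T.sq a n) • (X k * aw β W w)) =
        T.sq a := by
      funext n
      exact hRFW.e1 (T.sq a n)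
    rw [h4, T.of_sq]
  obtain ⟨hRF0, hnd0, hperf0⟩ := rfe (PowerSeries K) W T.R (κ × S) T.w Λ₀
    (fun k => T.of (cst (X k))) (fun k => T.of (cst (Y k))) hs0 he1
  obtain ⟨N, hN⟩ := hperf0 Λ₁
  -- `N` is central
  have hNc : ∀ a, N * a = a * N := by
    intro a
    rw [← sub_eq_zero]
    apply hnd0
    intro b
    rw [sub_mul, map_sub, sub_eq_zero]
    calc Λ₀ (N * a * b) = Λ₁ (a * b) := by rw [hN, mul_assoc]
      _ = Λ₁ (b * a) := hs1 a b
      _ = Λ₀ (N * (b * a)) := hN _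
      _ = Λ₀ ((b * a) * N) := hs0 _ _
      _ = Λ₀ (b * (a * N)) := by rw [mul_assoc]
      _ = Λ₀ (a * N * b) := hs0 _ _
  -- dual families of `Λ₁`
  have he1' : ∀ a, ∑ k, ∑ w, Λ₁ (T.w w⁻¹ * Φ (y' k) * a) • (Φ (x' k) * T.w w) = a := by
    intro a
    have h1 := congrArg Φ (hRF.e1 (Φ.symm a))
    rw [LinearEquiv.apply_symm_apply, map_sum] at h1
    refine Eq.trans ?_ h1
    refine Finset.sum_congr rfl fun k _ => ?_
    rw [map_sum]
    refine Finset.sum_congr rfl fun w _ => ?_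
    rw [map_smul, hmul, hw, ← hΛ₁, hmul, hmul, hw, LinearEquiv.apply_symm_apply]
  obtain ⟨hRF1, -, hperf1⟩ := rfe (PowerSeries K) W T.R κ' T.w Λ₁
    (fun k => Φ (x' k)) (fun k => Φ (y' k)) hs1 he1'
  obtain ⟨N', hN'⟩ := hperf1 Λ₀
  have hNN : N * N' = 1 := by
    rw [← sub_eq_zero]
    apply hnd0
    intro a
    rw [sub_mul, map_sub, one_mul, mul_assoc, ← hN, ← hN', sub_self]
  -- the constants
  have hcm : ∀ a b : B, T.of (cst (a * b)) = T.of (cst a) * T.of (cst b) := by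
    intro a b
    rw [htc]
    congr 1
    funext n
    rw [cst, cst]
    split_ifs
    · rfl
    · rw [mul_zero]
  have hca : ∀ a b : B, T.of (cst (a + b)) = T.of (cst a) + T.of (cst b) := by
    intro a b
    rw [← T.of_add]
    congr 1
    funext n
    show cst (a + b) n = cst a n + cst b n
    rw [cst, cst, cst]
    split_ifs
    · rfl
    · rw [add_zero]
  have hc0 : T.of (cst (0 : B)) = 0 := by
    have h1 := hca 0 0
    rw [add_zero] at h1
    exact left_eq_add.1 h1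
  have hTw1 : ∀ w : W, T.w w = T.of (cst (β w)) := fun _ => rfl
  have hc1 : T.of (cst (1 : B)) = 1 := by
    have h1 := hTw1 1
    rw [map_one, Subgroup.coe_one, map_one] at h1
    exact h1.symm
  let j : B →+* T.R :=
    { toFun := fun b => T.of (cst b)
      map_one' := hc1
      map_mul' := hcm
      map_zero' := hc0
      map_add' := hca }
  have hj : ∀ b, j b = T.of (cst b) := fun _ => rfl
  have hΦ1 : Φ 1 = 1 := by
    have h1 := hw 1
    rw [map_one D.w, map_one T.w] at h1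
    exact h1
  let Φr : D.R →+* T.R :=
    { toFun := Φ
      map_one' := hΦ1
      map_mul' := hmul
      map_zero' := map_zero Φ
      map_add' := map_add Φ }
  have hΦr : ∀ a, Φr a = Φ a := fun _ => rfl
  refine ⟨T.R, inferInstance, inferInstance, Φr, j, N, N', Φ.bijective, ?_, ?_, hNc, hNN, ?_⟩
  · intro s a
    rw [hΦr, hΦr, map_smul]
  · intro t b
    rw [hj, hj, smul_cst]
    congr 1
    funext n
    rw [cst, PowerSeries.coeff_C]
    split_ifs
    · rfl
    · rw [zero_smul]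
  · intro w
    have h1 := (rtc (PowerSeries K) W T.R (κ × S) κ' T.w Λ₀ _ _ hRF0).2 Λ₁ _ _ N N'
      hRF1 (fun b => hNc b) hNN hN (T.w w)
      (fun v => by rw [← map_mul, ← map_mul, mul_comm])
    have h2 : rt (fun k => Φ (x' k)) (fun k => Φ (y' k)) (T.w w) = Φ (rt x' y' (D.w w)) := by
      unfold rt
      rw [map_sum]
      refine Finset.sum_congr rfl fun k _ => ?_
      rw [hmul, hmul, hw]
    have h3 : rt (fun k => T.of (cst (X k))) (fun k => T.of (cst (Y k))) (T.w w) =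
        W.index • j (rt x y (β w)) := by
      unfold rt
      have h4 : ∀ k, T.of (cst (X k)) * T.w w * T.of (cst (Y k)) =
          j (x k.1 * β w * y k.1) := by
        intro k
        rw [hTw1, ← hcm, ← hcm, hj]
        congr 2
        rw [hX, hY]
        show x k.1 * β (k.2 : V) * β w * (β (k.2 : V)⁻¹ * y k.1) = _
        have h5 : β (k.2 : V) * β w * β (k.2 : V)⁻¹ = β w := by
          rw [← map_mul, ← map_mul]
          congr 1
          rw [mul_comm (k.2 : V) (w : V), mul_assoc, mul_inv_cancel, mul_one]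
        rw [← mul_assoc, mul_assoc (x k.1), mul_assoc (x k.1), h5]
      rw [Finset.sum_congr rfl fun k _ => h4 k, Fintype.sum_prod_type, map_sum, Finset.smul_sum]
      refine Finset.sum_congr rfl fun k _ => ?_
      show ∑ _ : S, j (x k * β w * y k) = _
      rw [Finset.sum_const, Finset.card_univ, Fintype.card_coe, hSc]
    rw [h2, h3] at h1
    exact h1

end Pool.Agent.PST.U.H49
end
end -- Pool.Agent.Helper49_PST.CRT

section -- Pool.Agent.Helper49_PST.LIX

open scoped BigOperators TensorProduct PowerSeries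

noncomputable section

namespace Pool.Agent.PST.U.H49

theorem lix : LixStmt := by
  intro R S M _ _ _ _ _ _ _ hinj z
  classical
  obtain ⟨T, hT⟩ := TensorProduct.exists_finset z
  have hfs : FaithfulSMul R S := (faithfulSMul_iff_algebraMap_injective R S).2 hinj
  obtain ⟨N, hN⟩ : ∃ N : Submodule R S, N = Submodule.span R (T.image Prod.fst : Set S) := ⟨_, rfl⟩
  have hfin : Module.Finite R N := by
    rw [Module.Finite.iff_fg, hN]
    exact ⟨T.image Prod.fst, rfl⟩
  have htf : Module.IsTorsionFree R S := Module.isTorsionFree_iff_faithfulSMul.2 hfs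
  have hfree : Module.Free R N := inferInstance
  let bs := Module.finBasis R N
  refine ⟨Module.finrank R N, fun i => (bs i : S),
    fun i => ∑ p ∈ T.attach, bs.repr ⟨p.1.1, ?_⟩ i • p.1.2, ?_, ?_⟩
  · rw [hN]
    refine Submodule.subset_span ?_
    exact Finset.mem_coe.2 (Finset.mem_image_of_mem _ p.2)
  · exact bs.linearIndependent.map' N.subtype (Submodule.ker_subtype N)
  · have key : ∀ p : {x // x ∈ T}, ∀ h : p.1.1 ∈ N, (p.1.1 ⊗ₜ[R] p.1.2 : S ⊗[R] M) =
        ∑ i, (bs i : S) ⊗ₜ[R] (bs.repr ⟨p.1.1, h⟩ i • p.1.2) := by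
      intro p h
      have h1 := congrArg (fun n : N => (n : S)) (bs.sum_repr ⟨p.1.1, h⟩)
      simp only [Submodule.coe_sum, Submodule.coe_smul] at h1
      generalize bs.repr ⟨p.1.1, h⟩ = c at h1 ⊢
      rw [← h1, TensorProduct.sum_tmul]
      exact Finset.sum_congr rfl fun i _ => TensorProduct.smul_tmul _ _ _
    rw [hT, ← Finset.sum_attach]
    simp only [TensorProduct.tmul_sum]
    rw [Finset.sum_comm]
    exact Finset.sum_congr rfl fun p _ => key p _

end Pool.Agent.PST.U.H49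
end
end -- Pool.Agent.Helper49_PST.LIX

section -- Pool.Agent.Helper70_PST.SPS

/-!
# Squad PST, row SPS (helper70)
-/

open scoped PowerSeries

noncomputable section

namespace Pool.Agent.PST.U.H70

open Pool.Agent.PFD.D2 (Cdv)

theorem sps : SpsStmt := by
  intro R F _ _ c d hd
  have h1 : ∃ m : ℕ, (∀ j, ∃ s, PowerSeries.coeff j d = c.π ^ m * s) ∧
      ¬ ∀ j, ∃ s, PowerSeries.coeff j d = c.π ^ (m + 1) * s := by
    by_contra hcon
    push Not at hcon
    refine hd ?_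
    have h2 : ∀ m : ℕ, ∀ j, ∃ s, PowerSeries.coeff j d = c.π ^ m * s := by
      intro m
      induction m with
      | zero => exact fun j => ⟨PowerSeries.coeff j d, by rw [pow_zero, one_mul]⟩
      | succ m ih => exact hcon m ih
    ext j
    rw [map_zero]
    exact c.sep _ fun n => h2 n j
  obtain ⟨m, hm, hn⟩ := h1
  choose s hs using hm
  refine ⟨m, PowerSeries.mk s, ?_, ?_⟩
  · ext j
    rw [← map_pow, PowerSeries.coeff_C_mul, PowerSeries.coeff_mk, hs j]
  · intro h0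
    refine hn fun j => ?_
    have h2 : c.κ (s j) = 0 := by
      have h3 := congrArg (PowerSeries.coeff j) h0
      rw [PowerSeries.coeff_map, PowerSeries.coeff_mk, map_zero] at h3
      exact h3
    obtain ⟨t, ht⟩ := (c.ker _).1 h2
    refine ⟨t, ?_⟩
    rw [hs j, ht, pow_succ, mul_assoc]

end Pool.Agent.PST.U.H70
end
end -- Pool.Agent.Helper70_PST.SPS

section -- Pool.Agent.Helper77_PST.UNC

/-!
# Squad PST, block U, row UNC (helper77): `rt(1)` is a unit of the generic fibre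
-/

set_option autoImplicit false

open scoped BigOperators TensorProduct PowerSeries

noncomputable section

namespace Pool.Agent.PST.U.H77

open Pool.Agent.PFC (tw IsTv)
open Pool.Agent.PFD.D2b (FrR)
open Pool.Agent.PSS
open Pool.Agent.PSS.S0
open Pool.Agent.PSS.S3
open Pool.Agent.PSS.S3.H41 (fx_one fx_of_comm bq_zero exists_T)

/-- UNC -/
theorem unc (hFIT : FitStmt) (hZRT : ZrtStmt) (hBQX : BqxStmt) (hBPU : BpuStmt)
    (hGFQ : GfqStmt) (hGFB : GfbStmt) (hMCK : MckStmt) : UncStmt := by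
  classical
  intro ℓ _ F F' W E As K _ _ _ _ _ _ _ _ _ _ _ _ ψ γ lam x y hinj hW hE hper0 huni0 hrf0 hEtw
    hidem
  obtain ⟨⟨lamS, hlamS, hrf⟩, hper, huni, -⟩ := hGFB F⟦X⟧ F' W E As K ψ γ lam x y hrf0 hper0 huni0
  have hℓF : (ℓ : F) = 0 := CharP.cast_eq_zero F ℓ
  have hℓX : (ℓ : F⟦X⟧) = 0 := by
    rw [← map_natCast (PowerSeries.C (R := F)), hℓF, map_zero]
  have hX : algebraMap F⟦X⟧ F' PowerSeries.X ≠ 0 := by
    intro h
    exact PowerSeries.X_ne_zero (hinj (h.trans (map_zero _).symm))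
  have hXm : ∀ m : ℕ, algebraMap F⟦X⟧ F' (PowerSeries.X ^ m) ≠ 0 := by
    intro m
    rw [map_pow]
    exact pow_ne_zero _ hX
  have hfin : FiniteDimensional F' (F' ⊗[F⟦X⟧] As) := by
    obtain ⟨Ω, _, _, b, c, hfr, -⟩ := hper
    refine ⟨Submodule.fg_def.2 ⟨Set.range b, Set.finite_range b, ?_⟩⟩
    rw [eq_top_iff]
    rintro m -
    rw [← hfr.2.2 m]
    exact Submodule.sum_mem _ fun t _ => Submodule.smul_mem _ _ (Submodule.subset_span ⟨t, rfl⟩)
  generalize hr1 : ∑ k, x k * y k = r1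
  have hr1c : ∀ c : As, c * r1 = r1 * c := by
    intro c
    have h1 := hZRT F⟦X⟧ W As K γ lam x y hrf0 1 fx_one c
    simp only [mul_one] at h1
    rw [hr1] at h1
    exact h1
  have hrc : ∀ c : F' ⊗[F⟦X⟧] As, (1 : F') ⊗ₜ[F⟦X⟧] r1 * c = c * (1 : F') ⊗ₜ[F⟦X⟧] r1 := by
    intro c
    have h1 := hZRT F' W (F' ⊗[F⟦X⟧] As) K _ lamS _ _ hrf 1 fx_one c
    simp only [mul_one, Algebra.TensorProduct.tmul_mul_tmul] at h1
    rw [← TensorProduct.tmul_sum, hr1] at h1
    exact h1.symm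
  obtain ⟨Bs, _, _, γB, βs, hBs⟩ := hBQX F⟦X⟧ W As γ ⊤
  obtain ⟨D, _, _, γD, βD, hDq⟩ := hBQX F' W (F' ⊗[F⟦X⟧] As) (bcw (R := F⟦X⟧) (S := F') γ) ⊤
  obtain ⟨E1, hE1⟩ : ∃ E1 : Subgroup E, ∀ e, e ∈ E1 ↔ ∀ u ∈ (⊤ : Subgroup W), ψ e u = u :=
    ⟨{ carrier := {e | ∀ u ∈ (⊤ : Subgroup W), ψ e u = u}
       one_mem' := fun u _ => by rw [map_one]; rfl
       mul_mem' := fun {a b} ha hb u hu => by
         rw [map_mul, MulAut.mul_apply, hb u hu, ha u hu]
       inv_mem' := fun {a} ha u hu => by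
         have h1 := ha u hu
         rw [map_inv]
         calc (ψ a)⁻¹ u = (ψ a)⁻¹ (ψ a u) := by rw [h1]
           _ = u := MulAut.inv_apply_self _ (ψ a) u }, fun e => Iff.rfl⟩
  obtain ⟨-, -, lamB, KB, _, xB, yB, hrfB, hlamB⟩ := hBPU ℓ F⟦X⟧ W E As Bs K ψ γ ⊤ γB βs lam
    x y E1 hℓX hW hper0 huni0 hrf0 hBs hE1
  choose n n' hn1 hn2 hn3 using huni0
  obtain ⟨T, hT1, hT2⟩ := exists_T E1
  have hT3 : ∀ e : E, ∃! t, t ∈ T ∧ ∀ v ∈ (⊤ : Subgroup W), (ψ t)⁻¹ v = (ψ e)⁻¹ v := by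
    intro e
    have h1 : ∀ t : E, (∀ v ∈ (⊤ : Subgroup W), (ψ t)⁻¹ v = (ψ e)⁻¹ v) ↔ t * e⁻¹ ∈ E1 := by
      intro t
      rw [hE1]
      refine forall₂_congr fun v _ => ?_
      rw [map_mul, map_inv, MulAut.mul_apply]
      constructor
      · intro h
        rw [← h, MulAut.apply_inv_self]
      · intro h
        conv_lhs => rw [← h]
        rw [MulAut.inv_apply_self]
    simp only [h1]
    exact hT2 e
  have h1 := hMCK ℓ F⟦X⟧ W E As Bs K KB ψ γ ⊤ γB βs lam x y lamB xB yB n n' T hℓX hW hper0 hrf0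
    hBs hrfB hlamB (fun e => ⟨hn1 e, hn2 e, hn3 e⟩) hT3 1 fx_one
  simp only [mul_one, hn1, hBs.one] at h1
  rw [Finset.sum_const, hr1, hT1] at h1
  obtain ⟨m, u, hu⟩ := hEtw Bs KB γB βs lamB xB yB hBs hrfB hlamB
  generalize ∑ k, xB k * yB k = rB at h1 hu
  obtain ⟨κ, lamD, hκβ, hκs, -, -⟩ :=
    hGFQ ℓ F⟦X⟧ F' W E As Bs D K KB ψ γ lam x y ⊤ γB βs γD βD lamB xB yB hℓX hW hrf0 hper0
      (fun e => ⟨n e, n' e, hn1 e, hn2 e, hn3 e⟩) hBs hDq hrfB hlamB
  have hidx : (E1.index : F') ≠ 0 := by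
    rw [Ne, CharP.cast_eq_zero_iff F' ℓ]
    intro h
    exact hE (h.trans (Subgroup.index_dvd_card E1))
  -- the left inverse
  have h2 : βD ((1 : F') ⊗ₜ[F⟦X⟧] r1) = (E1.index : F') • κ rB := by
    rw [← hκβ r1 (fx_of_comm fun v => hr1c _), h1, map_nsmul, Nat.cast_smul_eq_nsmul]
  have h3 : κ u * κ rB = algebraMap F⟦X⟧ F' (PowerSeries.X ^ m) • (1 : D) := by
    rw [← map_mul, hu, hκs, map_one]
  obtain ⟨l, hl⟩ : ∃ l : D, l * βD ((1 : F') ⊗ₜ[F⟦X⟧] r1) = 1 := by
    refine ⟨((E1.index : F')⁻¹ * (algebraMap F⟦X⟧ F' (PowerSeries.X ^ m))⁻¹) • κ u, ?_⟩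
    rw [h2, smul_mul_smul_comm, h3, smul_smul]
    have h4 : (E1.index : F')⁻¹ * (algebraMap F⟦X⟧ F' (PowerSeries.X ^ m))⁻¹ * (E1.index : F') *
        algebraMap F⟦X⟧ F' (PowerSeries.X ^ m) = 1 := by
      have h5 := hXm m
      field_simp
    rw [h4, one_smul]
  have hrfx : (1 : F') ⊗ₜ[F⟦X⟧] r1 ∈ FxR (cw F' (bcw (R := F⟦X⟧) (S := F') γ)) ⊤ :=
    fx_of_comm fun v => (hrc _).symm
  refine hFIT F' (F' ⊗[F⟦X⟧] As) ((1 : F') ⊗ₜ[F⟦X⟧] r1) hrc ?_
  rintro f hf1 hf2 ⟨N, hN⟩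
  apply hidem f hf1 hf2
  have hffx : f ∈ FxR (cw F' (bcw (R := F⟦X⟧) (S := F') γ)) ⊤ :=
    fx_of_comm fun v => (hf1 _).symm
  have h5' : ∀ N : ℕ, ((1 : F') ⊗ₜ[F⟦X⟧] r1) ^ N ∈
      FxR (cw F' (bcw (R := F⟦X⟧) (S := F') γ)) ⊤ := fun N =>
    fx_of_comm fun v => ((Commute.pow_left (hrc _ : Commute _ _) N).eq).symm
  have h4 : ∀ N : ℕ, βD (((1 : F') ⊗ₜ[F⟦X⟧] r1) ^ N) = βD ((1 : F') ⊗ₜ[F⟦X⟧] r1) ^ N := by
    intro N
    induction N with
    | zero => rw [pow_zero, pow_zero, hDq.one]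
    | succ N ih => rw [pow_succ, hDq.mul _ (h5' N) _ hrfx, ih, pow_succ]
  have h5 : βD ((1 : F') ⊗ₜ[F⟦X⟧] r1) ^ N * βD f = 0 := by
    rw [← h4 N, ← hDq.mul _ (h5' N) _ hffx, hN, bq_zero hDq]
  have h6 : ∀ N : ℕ, l ^ N * βD ((1 : F') ⊗ₜ[F⟦X⟧] r1) ^ N = 1 := by
    intro N
    induction N with
    | zero => rw [pow_zero, pow_zero, one_mul]
    | succ N ih =>
      rw [pow_succ, pow_succ', mul_assoc, ← mul_assoc l, hl, one_mul, ih]
  have h7 : βD f = 0 := by
    rw [← one_mul (βD f), ← h6 N, mul_assoc, h5, mul_zero]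
  exact (hDq.ker f hffx).1 h7

end Pool.Agent.PST.U.H77
end
end -- Pool.Agent.Helper77_PST.UNC

section -- Pool.Agent.Helper82_PST.DVD

/-! Squad PST, row DVD. -/

set_option autoImplicit false

namespace Pool.Agent.PST.H82

/-- row DVD -/
theorem dvd : U.DvdStmt := by
  classical
  intro S L _ _ _ _ _ _ r hr
  let b := Module.Free.chooseBasis S L
  let f : L →ₗ[S] L := LinearMap.mulRight S r
  let M := LinearMap.toMatrix b b f
  have hM : ∀ a : L, M.mulVec (b.repr a) = b.repr (a * r) := fun a =>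
    LinearMap.toMatrix_mulVec_repr b b f a
  refine ⟨b.equivFun.symm (M.adjugate.mulVec (b.repr 1)), M.det, ?_, ?_⟩
  · intro h0
    obtain ⟨v, hv, hv0⟩ := Matrix.exists_mulVec_eq_zero_iff.2 h0
    apply hv
    have h1 : ((b.repr (b.equivFun.symm v) : _ →₀ S) : _ → S) = v := b.equivFun.apply_symm_apply v
    have h2 : b.equivFun.symm v * r = 0 := by
      have h3 := hM (b.equivFun.symm v)
      rw [h1, hv0] at h3
      apply b.repr.injective
      apply DFunLike.coe_injective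
      rw [← h3, map_zero]
      rfl
    have h4 := hr _ h2
    rw [← h1, h4, map_zero]
    rfl
  · apply b.repr.injective
    apply DFunLike.coe_injective
    have h1 : ((b.repr (b.equivFun.symm (M.adjugate.mulVec (b.repr 1))) : _ →₀ S) : _ → S) =
        M.adjugate.mulVec (b.repr 1) := b.equivFun.apply_symm_apply _
    rw [← hM, h1, Matrix.mulVec_mulVec, Matrix.mul_adjugate, map_smul, Matrix.smul_mulVec,
      Matrix.one_mulVec]
    rfl

end Pool.Agent.PST.H82
end -- Pool.Agent.Helper82_PST.DVD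

section -- Pool.Agent.Helper91_PSS.CEN

/-!
# Squad PSS, row CEN (helper91): central elements lift
-/

open scoped BigOperators

noncomputable section

namespace Pool.Agent.PSS.H91

open Finset
open Pool.Agent.PSS
open Pool.Agent.PSS.Dm (cst)

/-- regrouping of a triple sum over the antidiagonal -/
theorem trip {M : Type} [AddCommMonoid M] (n : ℕ) (S : ℕ → ℕ → ℕ → M) :
    ∑ p ∈ antidiagonal n, ∑ q ∈ antidiagonal p.2, S p.1 q.1 q.2 =
    ∑ p ∈ antidiagonal n, ∑ q ∈ antidiagonal p.1, S q.1 q.2 p.2 := by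
  rw [Finset.sum_sigma', Finset.sum_sigma']
  refine Finset.sum_nbij'
    (i := fun x => ⟨(x.1.1 + x.2.1, x.2.2), (x.1.1, x.2.1)⟩)
    (j := fun x => ⟨(x.2.1, x.2.2 + x.1.2), (x.2.2, x.1.2)⟩) ?_ ?_ ?_ ?_ ?_
  · rintro ⟨⟨a, b⟩, ⟨c, d⟩⟩ h
    simp only [mem_sigma, Finset.HasAntidiagonal.mem_antidiagonal] at h ⊢
    refine ⟨?_, trivial⟩
    omega
  · rintro ⟨⟨a, b⟩, ⟨c, d⟩⟩ h
    simp only [mem_sigma, Finset.HasAntidiagonal.mem_antidiagonal] at h ⊢
    refine ⟨?_, trivial⟩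
    omega
  · rintro ⟨⟨a, b⟩, ⟨c, d⟩⟩ h
    simp only [mem_sigma, Finset.HasAntidiagonal.mem_antidiagonal] at h
    obtain ⟨h1, h2⟩ := h
    subst h2
    rfl
  · rintro ⟨⟨a, b⟩, ⟨c, d⟩⟩ h
    simp only [mem_sigma, Finset.HasAntidiagonal.mem_antidiagonal] at h
    obtain ⟨h1, h2⟩ := h
    subst h2
    rfl
  · rintro ⟨⟨a, b⟩, ⟨c, d⟩⟩ h
    rfl

/-- regrouping of a triple sum over the antidiagonal, second form -/
theorem trip' {M : Type} [AddCommMonoid M] (n : ℕ) (S : ℕ → ℕ → ℕ → M) :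
    ∑ p ∈ antidiagonal n, ∑ q ∈ antidiagonal p.2, S p.1 q.1 q.2 =
    ∑ p ∈ antidiagonal n, ∑ q ∈ antidiagonal p.1, S q.1 p.2 q.2 := by
  rw [← trip n (fun a b c => S a c b)]
  refine Finset.sum_congr rfl fun p _ => ?_
  rw [← Finset.Nat.sum_antidiagonal_swap (f := fun q : ℕ × ℕ => S p.1 q.1 q.2)]
  rfl

section

variable {k A W : Type} [CommRing k] [Ring A] [Algebra k A] [Group W] {om : W →* A}
  (D : Dm k om)

/-- the commutator of a sequence with a constant -/
def cm (f : ℕ → A) (n : ℕ) : A →ₗ[k] A :=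
  ∑ p ∈ antidiagonal n, (D.m p.1 (f p.2) - (D.m p.1).flip (f p.2))

theorem cm_apply (f : ℕ → A) (n : ℕ) (a : A) :
    cm D f n a = ∑ p ∈ antidiagonal n, (D.m p.1 (f p.2) a - D.m p.1 a (f p.2)) := by
  rw [cm, LinearMap.sum_apply]
  rfl

theorem cm_congr {f g : ℕ → A} {n : ℕ} (h : ∀ i ≤ n, f i = g i) : cm D f n = cm D g n := by
  rw [cm, cm]
  refine Finset.sum_congr rfl fun p hp => ?_
  rw [Finset.HasAntidiagonal.mem_antidiagonal] at hp
  rw [h p.2 (by omega)]

/-- the commutator of two sequences -/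
theorem comm_eq (f g : ℕ → A) (n : ℕ) :
    D.mul f g n - D.mul g f n = ∑ p ∈ antidiagonal n, cm D f p.1 (g p.2) := by
  have e1 : D.mul f g n = ∑ p ∈ antidiagonal n, ∑ q ∈ antidiagonal p.1,
      D.m q.1 (f q.2) (g p.2) := by
    rw [Dm.mul]
    exact trip n (fun a b c => D.m a (f b) (g c))
  have e2 : D.mul g f n = ∑ p ∈ antidiagonal n, ∑ q ∈ antidiagonal p.1,
      D.m q.1 (g p.2) (f q.2) := by
    rw [Dm.mul]
    exact trip' n (fun a b c => D.m a (g b) (f c))
  rw [e1, e2, ← Finset.sum_sub_distrib]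
  refine Finset.sum_congr rfl fun p _ => ?_
  rw [cm_apply, Finset.sum_sub_distrib]

/-- the commutator of a truncated sequence which is central up to the degree `N` -/
theorem comm_low {f : ℕ → A} {N : ℕ} (h : ∀ n ≤ N, cm D f n = 0) (g : ℕ → A) (n : ℕ)
    (hn : n ≤ N) : D.mul f g n - D.mul g f n = 0 := by
  rw [comm_eq]
  refine Finset.sum_eq_zero fun p hp => ?_
  rw [Finset.HasAntidiagonal.mem_antidiagonal] at hp
  rw [h p.1 (by omega), LinearMap.zero_apply]

theorem comm_top {f : ℕ → A} {N : ℕ} (h : ∀ n ≤ N, cm D f n = 0) (g : ℕ → A) :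
    D.mul f g (N + 1) - D.mul g f (N + 1) = cm D f (N + 1) (g 0) := by
  rw [comm_eq, Finset.sum_eq_single (N + 1, 0)]
  · rintro ⟨a, b⟩ hp hne
    rw [Finset.HasAntidiagonal.mem_antidiagonal] at hp
    simp only at hp ⊢
    have ha : a ≤ N := by
      by_contra hlt
      apply hne
      have : a = N + 1 := by omega
      subst this
      have : b = 0 := by omega
      subst this
      rfl
    rw [h a ha, LinearMap.zero_apply]
  · intro hh
    exact absurd (Finset.HasAntidiagonal.mem_antidiagonal.2 (Nat.add_zero (N + 1))) hh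

theorem mul_zero_deg (f g : ℕ → A) : D.mul f g 0 = f 0 * g 0 := by
  rw [Dm.mul, Finset.Nat.antidiagonal_zero, Finset.sum_singleton, Finset.Nat.antidiagonal_zero,
    Finset.sum_singleton, D.m0]

/-- the leading coefficient of a product, left factor of order `N + 1` -/
theorem mul_lead_left {u : ℕ → A} {N : ℕ} (hu : ∀ n ≤ N, u n = 0) (g : ℕ → A) :
    D.mul u g (N + 1) = u (N + 1) * g 0 := by
  rw [Dm.mul, Finset.sum_eq_single (0, N + 1)]
  · rw [Finset.sum_eq_single (N + 1, 0)]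
    · simp only [D.m0]
    · rintro ⟨a, b⟩ hp hne
      rw [Finset.HasAntidiagonal.mem_antidiagonal] at hp
      simp only at hp ⊢
      have ha : a ≤ N := by
        by_contra hlt
        apply hne
        have : a = N + 1 := by omega
        subst this
        have : b = 0 := by omega
        subst this
        rfl
      rw [hu a ha, map_zero, LinearMap.zero_apply]
    · intro hh
      exact absurd (Finset.HasAntidiagonal.mem_antidiagonal.2 (Nat.add_zero (N + 1))) hh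
  · rintro ⟨a, b⟩ hp hne
    rw [Finset.HasAntidiagonal.mem_antidiagonal] at hp
    refine Finset.sum_eq_zero ?_
    rintro ⟨c, d⟩ hq
    rw [Finset.HasAntidiagonal.mem_antidiagonal] at hq
    simp only at hp hq ⊢
    have hc : c ≤ N := by
      by_contra hlt
      apply hne
      have : b = N + 1 := by omega
      subst this
      have : a = 0 := by omega
      subst this
      rfl
    rw [hu c hc, map_zero, LinearMap.zero_apply]
  · intro hh
    exact absurd (by rw [Finset.HasAntidiagonal.mem_antidiagonal]; simp) hh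

/-- the leading coefficient of a product, right factor of order `N + 1` -/
theorem mul_lead_right {u : ℕ → A} {N : ℕ} (hu : ∀ n ≤ N, u n = 0) (g : ℕ → A) :
    D.mul g u (N + 1) = g 0 * u (N + 1) := by
  rw [Dm.mul, Finset.sum_eq_single (0, N + 1)]
  · rw [Finset.sum_eq_single (0, N + 1)]
    · simp only [D.m0]
    · rintro ⟨a, b⟩ hp hne
      rw [Finset.HasAntidiagonal.mem_antidiagonal] at hp
      simp only at hp ⊢
      have ha : b ≤ N := by
        by_contra hlt
        apply hne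
        have : b = N + 1 := by omega
        subst this
        have : a = 0 := by omega
        subst this
        rfl
      rw [hu b ha, map_zero]
    · intro hh
      exact absurd (by rw [Finset.HasAntidiagonal.mem_antidiagonal]; simp) hh
  · rintro ⟨a, b⟩ hp hne
    rw [Finset.HasAntidiagonal.mem_antidiagonal] at hp
    refine Finset.sum_eq_zero ?_
    rintro ⟨c, d⟩ hq
    rw [Finset.HasAntidiagonal.mem_antidiagonal] at hq
    simp only at hp hq ⊢
    have hc : d ≤ N := by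
      by_contra hlt
      apply hne
      have : b = N + 1 := by omega
      subst this
      have : a = 0 := by omega
      subst this
      rfl
    rw [hu d hc, map_zero]
  · intro hh
    exact absurd (by rw [Finset.HasAntidiagonal.mem_antidiagonal]; simp) hh

theorem mul_add_l (f g h : ℕ → A) : D.mul (f + g) h = D.mul f h + D.mul g h := by
  have h1 : D.of (D.mul (f + g) h) = D.of (D.mul f h + D.mul g h) := by
    rw [D.of_mul, D.of_add, D.of_add, D.of_mul, D.of_mul, add_mul]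
  rw [← D.sq_of (D.mul (f + g) h), h1, D.sq_of]

/-- the commutator as a sequence -/
theorem of_comm (f g : ℕ → A) :
    D.of (fun n => D.mul f g n - D.mul g f n) = D.of f * D.of g - D.of g * D.of f := by
  rw [← D.of_mul, ← D.of_mul, sub_eq_add_neg, ← D.of_neg, ← D.of_add]
  congr 1
  funext n
  rw [Pi.add_apply, Pi.neg_apply, sub_eq_add_neg]

/-- the obstruction is a derivation -/
theorem der {f : ℕ → A} {N : ℕ} (h : ∀ n ≤ N, cm D f n = 0) (a b : A) :
    cm D f (N + 1) (a * b) = cm D f (N + 1) a * b + a * cm D f (N + 1) b := by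
  set u : ℕ → A := fun n => D.mul f (cst a) n - D.mul (cst a) f n with hu
  set v : ℕ → A := fun n => D.mul f (cst b) n - D.mul (cst b) f n with hv
  set g : ℕ → A := D.mul (cst a) (cst b) with hg
  have e : D.of (fun n => D.mul f g n - D.mul g f n) =
      D.of (D.mul u (cst b) + D.mul (cst a) v) := by
    have eu : D.of u = D.of f * D.of (cst a) - D.of (cst a) * D.of f := of_comm D f (cst a)
    have ev : D.of v = D.of f * D.of (cst b) - D.of (cst b) * D.of f := of_comm D f (cst b)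
    rw [of_comm, D.of_add, D.of_mul u, D.of_mul (cst a) v, eu, ev, hg, D.of_mul]
    noncomm_ring
  have hul : ∀ n ≤ N, u n = 0 := fun n hn => comm_low D h (cst a) n hn
  have hvl : ∀ n ≤ N, v n = 0 := fun n hn => comm_low D h (cst b) n hn
  have e2 := congrArg (fun x => D.sq x (N + 1)) e
  simp only [D.sq_of] at e2
  rw [comm_top D h g, Pi.add_apply, mul_lead_left D hul, mul_lead_right D hvl] at e2
  have h0 : g 0 = a * b := by
    rw [hg, mul_zero_deg]
    simp [cst]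
  rw [h0] at e2
  rw [e2]
  have hua : u (N + 1) = cm D f (N + 1) a := by
    rw [hu]
    simp only
    rw [comm_top D h (cst a)]
    simp [cst]
  have hvb : v (N + 1) = cm D f (N + 1) b := by
    rw [hv]
    simp only
    rw [comm_top D h (cst b)]
    simp [cst]
  rw [hua, hvb]
  simp [cst]

/-- one step -/
theorem step (hH : H1P k om) (f : ℕ → A) (N : ℕ) (h : ∀ n ≤ N, cm D f n = 0) :
    ∃ f' : ℕ → A, (∀ n ≤ N, f' n = f n) ∧ ∀ n ≤ N + 1, cm D f' n = 0 := by
  set t : ℕ → A := fun n => if n ≤ N then f n else 0 with ht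
  have htn : ∀ n ≤ N, cm D t n = 0 := by
    intro n hn
    rw [← h n hn]
    refine cm_congr D fun i hi => ?_
    rw [ht]
    simp only
    rw [if_pos (hi.trans hn)]
  have htop : t (N + 1) = 0 := by
    rw [ht]
    simp
  obtain ⟨e, -, he⟩ := hH (cm D t (N + 1)) (fun a b => der D htn a b) (by
    intro w
    rw [cm_apply]
    refine Finset.sum_eq_zero ?_
    rintro ⟨i, j⟩ hp
    rw [Finset.HasAntidiagonal.mem_antidiagonal] at hp
    simp only at hp ⊢
    rcases i with _ | i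
    · have : j = N + 1 := by omega
      subst this
      rw [htop, map_zero, LinearMap.zero_apply, map_zero, sub_zero]
    · rw [D.m_om_right, D.m_om_left, sub_zero])
  refine ⟨Function.update t (N + 1) e, ?_, ?_⟩
  · intro n hn
    rw [Function.update_of_ne (by omega), ht]
    simp only
    rw [if_pos hn]
  · intro n hn
    rcases Nat.lt_or_ge N n with hlt | hle
    · have : n = N + 1 := by omega
      subst this
      ext a
      have h1 : cm D (Function.update t (N + 1) e) (N + 1) a =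
          cm D t (N + 1) a + (e * a - a * e) := by
        rw [cm_apply, cm_apply, Finset.Nat.antidiagonal_succ, Finset.sum_cons, Finset.sum_cons]
        have h2 : ∑ p ∈ (antidiagonal N).map (Function.Embedding.prodMap
            ⟨Nat.succ, Nat.succ_injective⟩ (Function.Embedding.refl ℕ)),
            (D.m p.1 (Function.update t (N + 1) e p.2) a -
              D.m p.1 a (Function.update t (N + 1) e p.2)) =
            ∑ p ∈ (antidiagonal N).map (Function.Embedding.prodMap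
            ⟨Nat.succ, Nat.succ_injective⟩ (Function.Embedding.refl ℕ)),
            (D.m p.1 (t p.2) a - D.m p.1 a (t p.2)) := by
          refine Finset.sum_congr rfl fun p hp => ?_
          rw [Finset.mem_map] at hp
          obtain ⟨q, hq, rfl⟩ := hp
          rw [Finset.HasAntidiagonal.mem_antidiagonal] at hq
          have : q.2 ≠ N + 1 := by omega
          simp only [Function.Embedding.prodMap, Function.Embedding.coeFn_mk, Prod.map_snd,
            Function.Embedding.refl_apply]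
          rw [Function.update_of_ne this]
        rw [h2]
        simp only [Function.update_self, htop, D.m0, zero_mul, mul_zero, sub_zero, zero_add]
        abel
      rw [h1, he]
      simp
    · rw [← htn n hle]
      refine cm_congr D fun i hi => ?_
      rw [Function.update_of_ne (by omega)]

end

/-- CEN -/
theorem cen : CenStmt := by
  intro k W A _ _ _ _ om D hH z hz
  classical
  let P : ℕ → (ℕ → A) → Prop := fun N f => f 0 = z ∧ ∀ n ≤ N, cm D f n = 0
  have hstep : ∀ N (f : {f : ℕ → A // P N f}), ∃ f' : {f : ℕ → A // P (N + 1) f},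
      ∀ n ≤ N, f'.1 n = f.1 n := by
    intro N f
    obtain ⟨f', h1, h2⟩ := step D hH f.1 N f.2.2
    exact ⟨⟨f', by rw [h1 0 (Nat.zero_le N), f.2.1], h2⟩, h1⟩
  choose nx hnx using hstep
  have h0 : P 0 (cst z) := by
    refine ⟨by simp [cst], ?_⟩
    intro n hn
    have : n = 0 := by omega
    subst this
    ext a
    rw [cm_apply, Finset.Nat.antidiagonal_zero, Finset.sum_singleton, D.m0, D.m0]
    simp only [cst, if_true]
    rw [hz a, sub_self, LinearMap.zero_apply]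
  let F : (N : ℕ) → {f : ℕ → A // P N f} := fun N => Nat.rec ⟨cst z, h0⟩ (fun N f => nx N f) N
  have hF : ∀ N, F (N + 1) = nx N (F N) := fun N => rfl
  have hFe : ∀ N n, n ≤ N → (F N).1 n = (F n).1 n := by
    intro N
    induction N with
    | zero =>
      intro n hn
      have : n = 0 := by omega
      subst this
      rfl
    | succ N ih =>
      intro n hn
      rcases Nat.lt_or_ge N n with hlt | hle
      · have : n = N + 1 := by omega
        subst this
        rfl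
      · rw [hF, hnx N (F N) n hle, ih n hle]
  let y : ℕ → A := fun n => (F n).1 n
  have hy : ∀ n, cm D y n = 0 := by
    intro n
    rw [← (F n).2.2 n le_rfl]
    exact cm_congr D fun i hi => (hFe n i hi).symm
  refine ⟨D.of y, ?_, ?_⟩
  · intro x
    rw [← D.of_sq x, ← D.of_mul, ← D.of_mul]
    congr 1
    funext n
    have h1 := comm_eq D y (D.sq x) n
    have h2 : ∑ p ∈ antidiagonal n, cm D y p.1 (D.sq x p.2) = 0 :=
      Finset.sum_eq_zero fun p _ => by rw [hy, LinearMap.zero_apply]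
    rw [h2] at h1
    exact sub_eq_zero.1 h1
  · rw [D.sq_of]
    exact (F 0).2.1

end Pool.Agent.PSS.H91
end
end -- Pool.Agent.Helper91_PSS.CEN

section -- Pool.Agent.Helper84_PST.CNA

/-!
# Squad PST, block U, row CNA: the centre of the lift is onto the centre of `As`
-/

open scoped BigOperators TensorProduct PowerSeries

noncomputable section

namespace Pool.Agent.PST.U.H84

open Pool.Agent.PFD.D2 (Cdv FibG)
open Pool.Agent.PSS

/-- row CNA -/
theorem cna : CnaStmt := by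
  intro R F V A A₀ As _ _ _ _ _ _ _ _ _ _ _ W α cv f D θ q hθs hθj hq hk hH hlift z₀ hz₀
  -- the centre of `As`
  let M : Submodule F⟦X⟧ As :=
    { carrier := {z | ∀ a, z * a = a * z}
      add_mem' := by
        intro x y hx hy a
        rw [add_mul, mul_add, hx a, hy a]
      zero_mem' := by
        intro a
        rw [zero_mul, mul_zero]
      smul_mem' := by
        intro c x hx a
        rw [smul_mul_assoc, hx a, mul_smul_comm] }
  have hM : ∀ z, z ∈ M ↔ ∀ a, z * a = a * z := fun z => Iff.rfl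
  have hsurj : ∀ r : F⟦X⟧, ∃ r' : PowerSeries R, PowerSeries.map cv.κ r' = r := by
    intro r
    choose s hs using cv.surj
    refine ⟨PowerSeries.mk fun n => s (PowerSeries.coeff n r), ?_⟩
    ext n
    rw [PowerSeries.coeff_map, PowerSeries.coeff_mk, hs]
  let N : Submodule F⟦X⟧ As :=
    { carrier := {y | ∃ z : D.R, (∀ a, z * a = a * z) ∧ θ z = y}
      add_mem' := by
        rintro _ _ ⟨z, hz, rfl⟩ ⟨z', hz', rfl⟩
        exact ⟨z + z', fun a => by rw [add_mul, mul_add, hz a, hz' a], map_add _ _ _⟩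
      zero_mem' := ⟨0, fun a => by rw [zero_mul, mul_zero], map_zero _⟩
      smul_mem' := by
        rintro c _ ⟨z, hz, rfl⟩
        obtain ⟨c', rfl⟩ := hsurj c
        exact ⟨c' • z, fun a => by rw [smul_mul_assoc, hz a, mul_smul_comm], hθs c' z⟩ }
  have hqs : Function.Surjective q := by
    intro a₀
    obtain ⟨a, rfl⟩ := f.surj a₀
    refine ⟨θ (D.of (Dm.cst a)), ?_⟩
    rw [hq]
    rfl
  have hX : ∀ y : As, (PowerSeries.X : F⟦X⟧) • y = 0 → y = 0 := by
    intro y hy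
    exact (smul_eq_zero.1 hy).resolve_left PowerSeries.X_ne_zero
  have hle : M ≤ N ⊔ (Ideal.span {(PowerSeries.X : F⟦X⟧)}) • M := by
    intro z hz
    have hqz : ∀ a₀, q z * a₀ = a₀ * q z := by
      intro a₀
      obtain ⟨a, rfl⟩ := hqs a₀
      rw [← map_mul, hz a, map_mul]
    obtain ⟨y, hy, hfy⟩ := hlift (q z) hqz
    obtain ⟨Z, hZ, hZ0⟩ := Pool.Agent.PSS.H91.cen R W A (aw α W) D hH y hy
    have h1 : q (θ Z) = q z := by
      have h2 := hq (D.sq Z)
      rw [D.of_sq, hZ0, hfy] at h2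
      exact h2
    obtain ⟨z₁, hz₁⟩ := hk (z - θ Z) (by rw [map_sub, h1, sub_self])
    have hθZ : ∀ a, θ Z * a = a * θ Z := by
      intro a
      obtain ⟨b, rfl⟩ := hθj a
      rw [← map_mul, hZ b, map_mul]
    have hz₁M : z₁ ∈ M := by
      intro a
      have h2 : (PowerSeries.X : F⟦X⟧) • (z₁ * a - a * z₁) = 0 := by
        rw [smul_sub, ← smul_mul_assoc, ← mul_smul_comm, ← hz₁, sub_mul, mul_sub, hz a, hθZ a,
          sub_self]
      exact sub_eq_zero.1 (hX _ h2)
    have h3 : z = θ Z + (PowerSeries.X : F⟦X⟧) • z₁ := by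
      rw [← hz₁]
      abel
    rw [h3]
    refine Submodule.add_mem_sup ⟨Z, hZ, rfl⟩ ?_
    exact Submodule.smul_mem_smul (Ideal.mem_span_singleton_self _) hz₁M
  have hfg : M.FG := IsNoetherian.noetherian M
  have hjac : Ideal.span {(PowerSeries.X : F⟦X⟧)} ≤ Ideal.jacobson ⊥ := by
    rw [IsLocalRing.jacobson_eq_maximalIdeal _ bot_ne_top, Ideal.span_le,
      Set.singleton_subset_iff]
    exact (IsLocalRing.mem_maximalIdeal _).2 PowerSeries.X_prime.not_isUnit
  exact Submodule.le_of_le_smul_of_le_jacobson_bot hfg hjac hle hz₀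

end Pool.Agent.PST.U.H84
end
end -- Pool.Agent.Helper84_PST.CNA

section -- Pool.Agent.Helper89_PST.VNX

set_option autoImplicit false

open scoped BigOperators

namespace Pool.Agent.PST.U.H89

open Function

/-! ### orbits of a permutation -/

theorem dvd_card {α : Type} [Fintype α] (σ : Equiv.Perm α) (d : ℕ)
    (h : ∀ x, d ∣ minimalPeriod σ x) : d ∣ Fintype.card α := by
  classical
  have e := MulAction.selfEquivSigmaOrbits (Subgroup.zpowers σ) α
  rw [Fintype.card_congr e, Fintype.card_sigma]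
  refine Finset.dvd_sum fun ω _ => ?_
  have h1 := MulAction.minimalPeriod_eq_card (a := σ) (b := ω.out)
  have h2 := h ω.out
  have h3 : minimalPeriod (fun x => σ • x) ω.out = minimalPeriod σ ω.out := rfl
  rw [← h3, h1] at h2
  refine h2.trans (dvd_of_eq ?_)
  exact Fintype.card_congr (Equiv.refl _)

/-- a function invariant under a map `τ` with `τ^[ℓ^N] = 1` such that `τ^[ℓ^k]` has no fixed point -/
theorem sum_inv {U Z : Type} [Fintype U] [AddCommGroup Z] {ℓ N k : ℕ} [hp : Fact ℓ.Prime]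
    (τ : U → U) (hτ : ∀ x, τ^[ℓ ^ N] x = x) (hfix : ∀ x, τ^[ℓ ^ k] x ≠ x) (Θ : U → Z)
    (hinv : ∀ x, Θ (τ x) = Θ x) : ∃ y : Z, ∑ x, Θ x = ℓ ^ (k + 1) • y := by
  classical
  have hN : ℓ ^ N ≠ 0 := pow_ne_zero _ hp.out.ne_zero
  -- the inverse of `τ`
  let σ : Equiv.Perm U :=
    { toFun := τ
      invFun := τ^[ℓ ^ N - 1]
      left_inv := fun x => by
        rw [← iterate_succ_apply, Nat.succ_eq_add_one, Nat.sub_add_cancel (Nat.pos_of_ne_zero hN)]
        exact hτ x
      right_inv := fun x => by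
        rw [← iterate_succ_apply' τ, Nat.succ_eq_add_one,
          Nat.sub_add_cancel (Nat.pos_of_ne_zero hN)]
        exact hτ x }
  have hper : ∀ x, ℓ ^ (k + 1) ∣ minimalPeriod τ x := fun x => by
    have h1 : IsPeriodicPt τ (ℓ ^ N) x := hτ x
    obtain ⟨j, hj, hj'⟩ := (Nat.dvd_prime_pow hp.out).1 h1.minimalPeriod_dvd
    rw [hj']
    apply pow_dvd_pow
    by_contra hc
    apply hfix x
    have h2 : minimalPeriod τ x ∣ ℓ ^ k := by
      rw [hj']; exact pow_dvd_pow _ (by omega)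
    exact (isPeriodicPt_iff_minimalPeriod_dvd.2 h2)
  have hz : ∀ z : Z, ℓ ^ (k + 1) ∣ (Finset.univ.filter (fun x => Θ x = z)).card := fun z => by
    have hσz : ∀ x, Θ x = z ↔ Θ (σ x) = z := fun x => by
      change _ ↔ Θ (τ x) = z
      rw [hinv]
    let σz : Equiv.Perm {x : U // Θ x = z} := σ.subtypePerm (fun x => (hσz x).symm)
    have h2 := dvd_card σz (ℓ ^ (k + 1)) (fun x => by
      have : minimalPeriod σz x = minimalPeriod τ x.1 := by
        have hit : ∀ n : ℕ, ((σz^[n] x).1) = τ^[n] x.1 := by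
          intro n
          induction n with
          | zero => rfl
          | succ n ih =>
            rw [iterate_succ_apply', iterate_succ_apply', ← ih]
            rfl
        apply Nat.dvd_antisymm
        · apply isPeriodicPt_iff_minimalPeriod_dvd.1
          change σz^[_] x = x
          apply Subtype.ext
          rw [hit]
          exact isPeriodicPt_minimalPeriod τ x.1
        · apply isPeriodicPt_iff_minimalPeriod_dvd.1
          change τ^[_] x.1 = x.1
          rw [← hit]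
          exact congrArg Subtype.val (isPeriodicPt_minimalPeriod σz x)
      rw [this]; exact hper x.1)
    rwa [Fintype.card_subtype] at h2
  have h1 : ∑ x, Θ x = ∑ z ∈ Finset.univ.image Θ, ∑ x ∈ Finset.univ.filter (fun x => Θ x = z), Θ x :=
    (Finset.sum_fiberwise_of_maps_to (fun x _ => Finset.mem_image_of_mem Θ (Finset.mem_univ x)) Θ).symm
  choose c hc using hz
  refine ⟨∑ z ∈ Finset.univ.image Θ, c z • z, ?_⟩
  rw [h1, Finset.smul_sum]
  refine Finset.sum_congr rfl fun z _ => ?_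
  rw [Finset.sum_congr rfl (fun x hx => (Finset.mem_filter.1 hx).2), Finset.sum_const, hc z,
    mul_smul]

section

variable {W X B Z : Type} [CommGroup W] [MulAction W X] [Ring B] [AddCommGroup Z]

/-- the product of the `a (u i)` -/
def pr (a : X → B) {n : ℕ} (u : Fin n → X) : B := (List.ofFn fun i => a (u i)).prod

theorem sum_pr [Fintype X] (a : X → B) (n : ℕ) : ∑ u : Fin n → X, pr a u = (∑ x, a x) ^ n := by
  induction n with
  | zero => simp [pr]
  | succ n ih =>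
    rw [← (Fin.consEquiv (fun _ => X)).sum_comp, Fintype.sum_prod_type, pow_succ', ← ih,
      Finset.sum_mul_sum]
    refine Finset.sum_congr rfl fun x _ => Finset.sum_congr rfl fun u _ => ?_
    simp [pr, Fin.consEquiv, List.ofFn_succ]

/-- the extension of a tuple by `ũ (i + n) = w ũ i` -/
def ex (w : W) {n : ℕ} (u : Fin (n + 1) → X) (j : ℕ) : X :=
  w ^ (j / (n + 1)) • u ⟨j % (n + 1), Nat.mod_lt _ n.succ_pos⟩

/-- the twisted rotation -/
def ro (w : W) {n : ℕ} (u : Fin (n + 1) → X) (i : Fin (n + 1)) : X := ex w u (i.val + 1)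

theorem ex_val (w : W) {n : ℕ} (u : Fin (n + 1) → X) (i : Fin (n + 1)) : ex w u i.val = u i := by
  unfold ex
  rw [Nat.div_eq_of_lt i.2, pow_zero, one_smul]
  congr 1
  exact Fin.ext (Nat.mod_eq_of_lt i.2)

theorem ex_add (w : W) {n : ℕ} (u : Fin (n + 1) → X) (j : ℕ) :
    ex w u (j + (n + 1)) = w • ex w u j := by
  unfold ex
  rw [Nat.add_div_right _ n.succ_pos, Nat.succ_eq_add_one, pow_succ', mul_smul]
  congr 3
  exact Fin.ext (Nat.add_mod_right _ _)

theorem ex_add_mul (w : W) {n : ℕ} (u : Fin (n + 1) → X) (j q : ℕ) :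
    ex w u (j + q * (n + 1)) = w ^ q • ex w u j := by
  induction q with
  | zero => simp
  | succ q ih =>
    rw [show j + (q + 1) * (n + 1) = j + q * (n + 1) + (n + 1) by ring, ex_add, ih, pow_succ',
      mul_smul]

theorem ex_ro (w : W) {n : ℕ} (u : Fin (n + 1) → X) (j : ℕ) : ex w (ro w u) j = ex w u (j + 1) := by
  have h1 : j = j % (n + 1) + (j / (n + 1)) * (n + 1) := by
    rw [Nat.mul_comm]; exact (Nat.mod_add_div j (n + 1)).symm
  have h2 : ex w u (j + 1) = w ^ (j / (n + 1)) • ex w u (j % (n + 1) + 1) := by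
    rw [← ex_add_mul]
    congr 1
    omega
  rw [h2]
  rfl

theorem ex_it (w : W) {n : ℕ} (u : Fin (n + 1) → X) (m j : ℕ) :
    ex w ((ro w)^[m] u) j = ex w u (j + m) := by
  induction m generalizing u with
  | zero => rfl
  | succ m ih =>
    rw [iterate_succ_apply, ih, ex_ro]
    congr 1

theorem ro_it (w : W) {n : ℕ} (u : Fin (n + 1) → X) (q : ℕ) (i : Fin (n + 1)) :
    ((ro w)^[q * (n + 1)] u) i = w ^ q • u i := by
  rw [← ex_val w ((ro w)^[q * (n + 1)] u) i, ex_it, ex_add_mul, ex_val]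

theorem f_ro (γ : W →* B) (a : X → B) (f : B →+ Z) (w : W)
    (ha : ∀ v x, γ v * a x * γ v⁻¹ = a (v • x)) (hf : ∀ x y, f (x * y) = f (y * x)) {n : ℕ}
    (u : Fin (n + 1) → X) : f (γ w * pr a (ro w u)) = f (γ w * pr a u) := by
  have hv' : γ w⁻¹ * γ w = 1 := by rw [← map_mul, inv_mul_cancel, map_one]
  have h1 : pr a u = a (u 0) * (List.ofFn fun i : Fin n => a (u i.succ)).prod := by
    rw [pr, List.ofFn_succ, List.prod_cons]
  have h2 : pr a (ro w u) = (List.ofFn fun i : Fin n => a (u i.succ)).prod * a (w • u 0) := by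
    rw [pr, List.ofFn_succ', List.concat_eq_append, List.prod_append, List.prod_cons,
      List.prod_nil, mul_one]
    congr 2
    · congr 1
      funext i
      congr 1
      have := ex_val w u i.succ
      rw [← this]; rfl
    · congr 1
      have : ro w u (Fin.last n) = ex w u (0 + (n + 1)) := by
        unfold ro; congr 1; simp
      rw [this, ex_add]
      congr 1
      have h0 := ex_val w u 0
      exact h0
  rw [h1, h2, ← ha]
  set P := (List.ofFn fun i : Fin n => a (u i.succ)).prod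
  have e : γ w * (P * (γ w * a (u 0) * γ w⁻¹)) = (γ w * (P * γ w * a (u 0))) * γ w⁻¹ := by
    simp only [mul_assoc]
  rw [e, hf, ← mul_assoc, hv', one_mul]
  rw [show P * γ w * a (u 0) = P * (γ w * a (u 0)) by rw [mul_assoc], hf]
  simp only [mul_assoc]

end

theorem vnx : VnxStmt := by
  intro ℓ hp W X B Z _ _ _ _ _ _ γ a f w k hW ha hf hw
  obtain ⟨g, hg⟩ := IsPGroup.iff_orderOf.1 hW w
  obtain ⟨n, hn⟩ : ∃ n, ℓ ^ k = n + 1 :=
    ⟨ℓ ^ k - 1, by have := Nat.pos_of_ne_zero (pow_ne_zero k hp.out.ne_zero); omega⟩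
  have h1 : f (γ w * (∑ x, a x) ^ ℓ ^ k) = ∑ u : Fin (n + 1) → X, f (γ w * pr a u) := by
    rw [hn, ← sum_pr, Finset.mul_sum, map_sum]
  rw [h1]
  refine sum_inv (N := g + k) (ro w) ?_ ?_ _ (fun u => f_ro γ a f w ha hf u)
  · intro u
    funext i
    rw [pow_add, hn, ro_it, ← hg, pow_orderOf_eq_one, one_smul]
  · intro u hu
    have := congrFun hu 0
    rw [hn] at this
    have h2 := ro_it w u 1 0
    rw [one_mul, pow_one] at h2
    rw [h2] at this
    exact hw _ this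

end Pool.Agent.PST.U.H89
end -- Pool.Agent.Helper89_PST.VNX

section -- Pool.Agent.Helper32_PSS.CRR

/-!
Squad PSS, block S1, row CRR (helper32): the trace formula over `K`.
-/

set_option autoImplicit false

open scoped BigOperators TensorProduct

noncomputable section

namespace Pool.Agent.PSS.H32

open Pool.Agent.PFD.D2 (Cdv FibG)
open Pool.Agent.PFD.D2b (FrR)
open Finset
open Pool.Agent.PSS
open Pool.Agent.PSS.Dm (cst)

theorem crr (hfun : FunStmt) (rfe : RfeStmt) (rtc : RtcStmt) (rwv : RwvStmt) : CrrStmt := by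
  classical
  intro K V E B κ κ' _ _ _ _ _ _ _ _ _ _ φ W _ z β lamK x y P m D Λ x' y' hVz hT hDm hrf hRF hc
  subst hDm
  have hpm := hT.pm
  have h0 := hT.p0
  obtain ⟨Φ, hmul, hof⟩ := exPhi D h0 hpm
  let T : Dm K (aw β W) := triv K (aw β W)
  have htm : ∀ f g, T.of f * T.of g = T.of (fun n => ∑ q ∈ antidiagonal n, f q.1 * g q.2) :=
    triv_of_mul (aw β W)
  have htc : ∀ a g, T.of (cst a) * T.of g = T.of (fun n => a * g n) := triv_cst_mul (aw β W)
  have htd : ∀ a g, T.of g * T.of (cst a) = T.of (fun n => g n * a) := triv_mul_cst (aw β W)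
  -- the group
  have hw : ∀ w : W, Φ (D.w w) = T.w w := by
    intro w
    show Φ (D.of (cst (aw β W w))) = T.of (cst (aw β W w))
    rw [hof]
    congr 1
    funext n
    rw [act_Ps, Finset.sum_eq_single (n, 0)]
    · show P n (cst (aw β W w) 0) = cst (aw β W w) n
      rcases n with _ | n
      · rw [h0]
        rfl
      · have h1 := (hT.pw (n + 1) w.1 w.2 1).1
        rw [mul_one, hT.p1, mul_zero] at h1
        exact h1
    · rintro ⟨b, c⟩ h hne
      rcases c with _ | c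
      · rw [Finset.HasAntidiagonal.mem_antidiagonal] at h
        simp only [add_zero] at h
        exact absurd (by rw [h]) hne
      · simp [cst]
    · intro h
      exact absurd (by rw [Finset.HasAntidiagonal.mem_antidiagonal]; simp) h
  -- the inverse is multiplicative
  have hsymm : ∀ a b, Φ.symm (a * b) = Φ.symm a * Φ.symm b := by
    intro a b
    apply Φ.injective
    rw [hmul, LinearEquiv.apply_symm_apply, LinearEquiv.apply_symm_apply,
      LinearEquiv.apply_symm_apply]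
  -- the forms
  let Λ₁ : T.R →ₗ[PowerSeries K] PowerSeries K := Λ.comp Φ.symm.toLinearMap
  have hΛ₁ : ∀ a, Λ₁ (Φ a) = Λ a := by
    intro a
    show Λ (Φ.symm (Φ a)) = Λ a
    rw [LinearEquiv.symm_apply_apply]
  have hs1 : ∀ a b, Λ₁ (a * b) = Λ₁ (b * a) := by
    intro a b
    show Λ (Φ.symm (a * b)) = Λ (Φ.symm (b * a))
    rw [hsymm, hsymm, hRF.sym]
  obtain ⟨Λ₀, hΛ₀'⟩ := (hfun K W B (aw β W) T).1 (fun n => if n = 0 then lamK else 0)
  have hΛ₀ : ∀ f n, PowerSeries.coeff n (Λ₀ (T.of f)) = lamK (f n) := by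
    intro f n
    rw [hΛ₀', Finset.sum_eq_single (0, n)]
    · rfl
    · rintro ⟨b, c⟩ h hne
      rcases b with _ | b
      · rw [Finset.HasAntidiagonal.mem_antidiagonal] at h
        simp only [zero_add] at h
        exact absurd (by rw [h]) hne
      · rw [if_neg (Nat.succ_ne_zero b)]
        rfl
    · intro h
      exact absurd (by rw [Finset.HasAntidiagonal.mem_antidiagonal]; simp) h
  have hs0 : ∀ a b, Λ₀ (a * b) = Λ₀ (b * a) := by
    intro a b
    rw [← T.of_sq a, ← T.of_sq b, htm, htm]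
    ext n
    rw [hΛ₀, hΛ₀, map_sum, map_sum,
      ← Finset.Nat.sum_antidiagonal_swap (f := fun p : ℕ × ℕ =>
        lamK (T.sq b p.1 * T.sq a p.2))]
    exact Finset.sum_congr rfl fun p _ => hrf.sym _ _
  -- the constant dual families
  have hRFW := rwv K V E B κ φ W z β lamK x y hVz hrf
  obtain ⟨X, hX⟩ : ∃ X : κ × Fin (orderOf z) → B, X = fun p => x p.1 * β (z ^ (p.2 : ℕ)) :=
    ⟨_, rfl⟩
  obtain ⟨Y, hY⟩ : ∃ Y : κ × Fin (orderOf z) → B, Y = fun p => β (z ^ (p.2 : ℕ))⁻¹ * y p.1 :=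
    ⟨_, rfl⟩
  rw [← hX, ← hY] at hRFW
  have hTw : ∀ w : W, T.w w = T.of (cst (aw β W w)) := fun _ => rfl
  have he1 : ∀ a, ∑ k, ∑ w, Λ₀ (T.w w⁻¹ * T.of (cst (Y k)) * a) • (T.of (cst (X k)) * T.w w) =
      a := by
    intro a
    have h1 : ∀ k w, Λ₀ (T.w w⁻¹ * T.of (cst (Y k)) * a) • (T.of (cst (X k)) * T.w w) =
        T.of (fun n => lamK (aw β W w⁻¹ * Y k * T.sq a n) • (X k * aw β W w)) := by
      intro k w
      have h2 : T.of (cst (X k)) * T.w w = T.of (cst (X k * aw β W w)) := by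
        rw [hTw, htd]
        congr 1
        funext n
        rw [cst, cst]
        split_ifs
        · rfl
        · rw [zero_mul]
      have h3 : T.w w⁻¹ * T.of (cst (Y k)) * a =
          T.of (fun n => aw β W w⁻¹ * Y k * T.sq a n) := by
        rw [mul_assoc]
        conv_lhs => rw [← T.of_sq a]
        rw [htc, hTw, htc]
        congr 1
        funext n
        rw [mul_assoc]
      rw [h2, h3, smul_cst]
      congr 1
      funext n
      rw [hΛ₀]
    rw [Finset.sum_congr rfl fun k _ => Finset.sum_congr rfl fun w _ => h1 k w]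
    rw [Finset.sum_congr rfl fun k _ => (of_sum T Finset.univ _).symm, ← of_sum T Finset.univ]
    have h4 : (fun n => ∑ k, ∑ w, lamK (aw β W w⁻¹ * Y k * T.sq a n) • (X k * aw β W w)) =
        T.sq a := by
      funext n
      exact hRFW.e1 (T.sq a n)
    rw [h4, T.of_sq]
  obtain ⟨hRF0, hnd0, hperf0⟩ := rfe (PowerSeries K) W T.R (κ × Fin (orderOf z)) T.w Λ₀
    (fun k => T.of (cst (X k))) (fun k => T.of (cst (Y k))) hs0 he1
  obtain ⟨N, hN⟩ := hperf0 Λ₁
  -- `N` is central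
  have hNc : ∀ a, N * a = a * N := by
    intro a
    rw [← sub_eq_zero]
    apply hnd0
    intro b
    rw [sub_mul, map_sub, sub_eq_zero]
    calc Λ₀ (N * a * b) = Λ₁ (a * b) := by rw [hN, mul_assoc]
      _ = Λ₁ (b * a) := hs1 a b
      _ = Λ₀ (N * (b * a)) := hN _
      _ = Λ₀ ((b * a) * N) := hs0 _ _
      _ = Λ₀ (b * (a * N)) := by rw [mul_assoc]
      _ = Λ₀ (a * N * b) := hs0 _ _
  -- dual families of `Λ₁`
  have he1' : ∀ a, ∑ k, ∑ w, Λ₁ (T.w w⁻¹ * Φ (y' k) * a) • (Φ (x' k) * T.w w) = a := by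
    intro a
    have h1 := congrArg Φ (hRF.e1 (Φ.symm a))
    rw [LinearEquiv.apply_symm_apply, map_sum] at h1
    refine Eq.trans ?_ h1
    refine Finset.sum_congr rfl fun k _ => ?_
    rw [map_sum]
    refine Finset.sum_congr rfl fun w _ => ?_
    rw [map_smul, hmul, hw, ← hΛ₁, hmul, hmul, hw, LinearEquiv.apply_symm_apply]
  obtain ⟨hRF1, -, hperf1⟩ := rfe (PowerSeries K) W T.R κ' T.w Λ₁
    (fun k => Φ (x' k)) (fun k => Φ (y' k)) hs1 he1'
  obtain ⟨N', hN'⟩ := hperf1 Λ₀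
  have hNN : N * N' = 1 := by
    rw [← sub_eq_zero]
    apply hnd0
    intro a
    rw [sub_mul, map_sub, one_mul, mul_assoc, ← hN, ← hN', sub_self]
  -- the sequence `ν`
  have hmulN : ∀ g : ℕ → B, N * T.of g = T.of (fun n => ∑ q ∈ antidiagonal n, T.sq N q.1 * g q.2) := by
    intro g
    conv_lhs => rw [← T.of_sq N]
    exact htm (T.sq N) g
  have hcen : ∀ n a, T.sq N n * a = a * T.sq N n := by
    intro n a
    have h1 := hNc (T.of (cst a))
    rw [← T.of_sq N, htd, htc] at h1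
    exact congrFun (of_inj T h1) n
  have hcst : ∀ a, act (Ps P) (cst a) = fun n => P n a := by
    intro a
    funext n
    rw [act_Ps, Finset.sum_eq_single (n, 0)]
    · rfl
    · rintro ⟨b, c⟩ h hne
      rcases c with _ | c
      · rw [Finset.HasAntidiagonal.mem_antidiagonal] at h
        simp only [add_zero] at h
        exact absurd (by rw [h]) hne
      · simp [cst]
    · intro h
      exact absurd (by rw [Finset.HasAntidiagonal.mem_antidiagonal]; simp) h
  have hthird : ∀ n a, ∑ p ∈ antidiagonal n, lamK (T.sq N p.1 * P p.2 a) =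
      PowerSeries.coeff n (Λ (D.of (cst a))) := by
    intro n a
    rw [← hΛ₁, hN, hof, hcst, hmulN, hΛ₀, map_sum]
  refine ⟨T.sq N, ?_, hcen, hthird, ?_⟩
  · have hnd := (rfe K V B κ β lamK x y hrf.sym hrf.e1).2.1
    rw [← sub_eq_zero]
    apply hnd
    intro a
    have h1 := hthird 0 a
    rw [PowerSeries.coeff_zero_eq_constantCoeff_apply, hc] at h1
    simp only [Finset.Nat.antidiagonal_zero, Finset.sum_singleton] at h1
    rw [h0] at h1
    rw [sub_mul, map_sub, one_mul, sub_eq_zero]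
    exact h1
  · intro w M
    have h1 := (rtc (PowerSeries K) W T.R (κ × Fin (orderOf z)) κ' T.w Λ₀ _ _ hRF0).2 Λ₁ _ _ N N'
      hRF1 (fun b => hNc b) hNN hN (T.w w)
      (fun v => by rw [← map_mul, ← map_mul, mul_comm])
    have h2 : rt (fun k => Φ (x' k)) (fun k => Φ (y' k)) (T.w w) = Φ (rt x' y' (D.w w)) := by
      unfold rt
      rw [map_sum]
      refine Finset.sum_congr rfl fun k _ => ?_
      rw [hmul, hmul, hw]
    have h3 : rt (fun k => T.of (cst (X k))) (fun k => T.of (cst (Y k))) (T.w w) =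
        T.of (cst ((orderOf z : K) • rt x y (β w))) := by
      unfold rt
      have h4 : ∀ k, T.of (cst (X k)) * T.w w * T.of (cst (Y k)) =
          T.of (cst (x k.1 * β w * y k.1)) := by
        intro k
        rw [hTw, htd, htd]
        congr 1
        funext n
        rw [cst, cst]
        split_ifs
        · show X k * aw β W w * Y k = _
          rw [hX, hY]
          show x k.1 * β (z ^ (k.2 : ℕ)) * β w * (β (z ^ (k.2 : ℕ))⁻¹ * y k.1) = _
          have h5 : β (z ^ (k.2 : ℕ)) * β w * β (z ^ (k.2 : ℕ))⁻¹ = β w := by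
            rw [← map_mul, ← map_mul]
            congr 1
            rw [mul_comm (z ^ (k.2 : ℕ)) (w : V), mul_assoc, mul_inv_cancel, mul_one]
          rw [← mul_assoc, mul_assoc (x k.1), mul_assoc (x k.1), h5]
        · rw [zero_mul, zero_mul]
      rw [Finset.sum_congr rfl fun k _ => h4 k, ← of_sum T Finset.univ]
      congr 1
      funext n
      rw [cst]
      split_ifs with hn
      · subst hn
        show ∑ k : κ × Fin (orderOf z), x k.1 * β w * y k.1 = _
        rw [Fintype.sum_prod_type, Finset.smul_sum]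
        refine Finset.sum_congr rfl fun k _ => ?_
        show ∑ _ : Fin (orderOf z), x k * β w * y k = _
        rw [Finset.sum_const, Finset.card_univ, Fintype.card_fin, ← Nat.cast_smul_eq_nsmul K]
      · refine Finset.sum_eq_zero fun k _ => ?_
        rw [cst, if_neg hn]
    rw [h2, h3] at h1
    rw [← D.of_sq (rt x' y' (D.w w)), hof, hmulN] at h1
    have h6 := congrFun (of_inj T h1) M
    have h7 : ∀ p : ℕ × ℕ, T.sq N p.1 * act (Ps P) (D.sq (rt x' y' (D.w w))) p.2 =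
        ∑ q ∈ antidiagonal p.2, T.sq N p.1 * P q.1 (D.sq (rt x' y' (D.w w)) q.2) := by
      intro p
      rw [act_Ps, Finset.mul_sum]
    rw [← Finset.sum_congr rfl fun p _ => h7 p]
    exact h6

end Pool.Agent.PSS.H32
end
end -- Pool.Agent.Helper32_PSS.CRR
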