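import Pool.Agent.Helper12_AWB.B007
import Pool.Agent.Helper12_AWB.B019

/-!
# Merged copies (generated) of the modules

* `Pool.Agent.Helper20_PSS.FPX`
* `Pool.Agent.Helper77_PSS.FBK`
* `Pool.Agent.Helper92_PSS.FCO`
* `Pool.Agent.Helper5_PSS.TRS`
* `Pool.Agent.Helper70_PSS.SFQ`
* `Pool.Agent.Helper52_PSS.RFS`
* `Pool.Agent.Helper64_PSS.GFB`
* `Pool.Agent.Helper45_PST.CLC`
* `Pool.Agent.Helper5_PST.NBL`
* `Pool.Agent.Helper92_PST.BOT`
* `Pool.Agent.Helper62_PSS.NDA`
-/

set_option autoImplicit false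

section -- Pool.Agent.Helper20_PSS.FPX

/-!
# Squad PSS, block S0, row FPX: sums over an `H`-set modulo the Brauer kernel
-/

open scoped BigOperators TensorProduct

noncomputable section

namespace Pool.Agent.PSS.H20

open Pool.Agent.PFC (IsTv exTv)
open MulAction

theorem orb_BKR {R H M : Type} [CommRing R] [Group H] [Finite H] [AddCommGroup M] [Module R M]
    {ρ : H →* (M →ₗ[R] M)} {Ω : Type} [MulAction H Ω] (g : Ω → M) (P : Subgroup H)
    (hg : ∀ h ∈ P, ∀ ω, g (h • ω) = ρ h (g ω)) (T : Finset Ω)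
    (hT : ∀ ω ∈ T, ∀ h ∈ P, h • ω ∈ T) (hT2 : ∀ ω ∈ T, ¬ ∀ h ∈ P, h • ω = ω) :
    ∑ ω ∈ T, g ω ∈ BKR ρ P := by
  classical
  induction hn : T.card using Nat.strong_induction_on generalizing T with
  | _ n ih =>
    rcases T.eq_empty_or_nonempty with rfl | ⟨ω, hω⟩
    · rw [Finset.sum_empty]
      exact Submodule.zero_mem _
    · obtain ⟨S, hS, hinj, hsur⟩ := exTv P ω
      obtain ⟨O, hOd⟩ : ∃ O : Finset Ω, O = S.image (fun x => x • ω) := ⟨_, rfl⟩
      have hO : O ⊆ T := by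
        intro y hy
        rw [hOd] at hy
        obtain ⟨x, hx, rfl⟩ := Finset.mem_image.1 hy
        exact hT ω hω x (hS.1 x hx)
      have hOst : ∀ y ∈ O, ∀ h ∈ P, h • y ∈ O := by
        intro y hy h hh
        rw [hOd] at hy ⊢
        obtain ⟨x, hx, rfl⟩ := Finset.mem_image.1 hy
        obtain ⟨z, hz, hz2⟩ := hsur (h * x) (P.mul_mem hh (hS.1 x hx))
        refine Finset.mem_image.2 ⟨z, hz, ?_⟩
        rw [hz2, mul_smul]
      have hωO : ω ∈ O := by
        obtain ⟨z, hz, hz2⟩ := hsur 1 P.one_mem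
        rw [hOd]
        refine Finset.mem_image.2 ⟨z, hz, ?_⟩
        rw [hz2, one_smul]
      have hrest : ∑ ω ∈ T \ O, g ω ∈ BKR ρ P := by
        refine ih (T \ O).card ?_ (T \ O) ?_ ?_ rfl
        · rw [← hn]
          exact Finset.card_lt_card (Finset.sdiff_ssubset hO ⟨ω, hωO⟩)
        · intro y hy h hh
          rw [Finset.mem_sdiff] at hy ⊢
          refine ⟨hT y hy.1 h hh, fun hc => hy.2 ?_⟩
          have := hOst _ hc h⁻¹ (P.inv_mem hh)
          rwa [inv_smul_smul] at this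
        · intro y hy
          exact hT2 y (Finset.mem_sdiff.1 hy).1
      have horb : ∑ ω ∈ O, g ω ∈ BKR ρ P := by
        have h1 : ∑ ω ∈ O, g ω = ∑ x ∈ S, ρ x (g ω) := by
          rw [hOd, Finset.sum_image (by
            intro x hx y hy hxy
            exact hinj x hx y hy hxy)]
          refine Finset.sum_congr rfl ?_
          intro x hx
          exact hg x (hS.1 x hx) ω
        rw [h1]
        refine Submodule.subset_span ?_
        refine ⟨P ⊓ stabilizer H ω, S, g ω, ?_, hS, ?_, rfl⟩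
        · refine lt_of_le_of_ne inf_le_left ?_
          intro heq
          apply hT2 ω hω
          intro h hh
          have : h ∈ P ⊓ stabilizer H ω := by
            rw [heq]
            exact hh
          exact mem_stabilizer_iff.1 (Subgroup.mem_inf.1 this).2
        · intro h hh
          rw [← hg h (Subgroup.mem_inf.1 hh).1, mem_stabilizer_iff.1 (Subgroup.mem_inf.1 hh).2]
      rw [← Finset.sum_sdiff hO]
      exact Submodule.add_mem _ hrest horb

theorem fpx : S0.FpxStmt := by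
  classical
  intro R H M K _ _ _ _ _ _ _ ρ P g K0 hg hK0
  have h1 : ∑ κ, g κ - ∑ κ ∈ K0, g κ = ∑ κ ∈ Finset.univ \ K0, g κ := by
    rw [← Finset.sum_sdiff (Finset.subset_univ K0), add_sub_cancel_right]
  rw [h1]
  refine orb_BKR g P hg _ ?_ ?_
  · intro κ hκ h hh
    rw [Finset.mem_sdiff] at hκ ⊢
    refine ⟨Finset.mem_univ _, fun hc => hκ.2 ?_⟩
    rw [hK0] at hc ⊢
    have h2 : h⁻¹ • (h • κ) = h • κ := hc h⁻¹ (P.inv_mem hh)
    rw [inv_smul_smul] at h2
    intro k hk
    have h3 := hc k hk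
    rw [← h2] at h3
    exact h3
  · intro κ hκ hc
    exact (Finset.mem_sdiff.1 hκ).2 ((hK0 κ).2 hc)

end Pool.Agent.PSS.H20
end
end -- Pool.Agent.Helper20_PSS.FPX

section -- Pool.Agent.Helper77_PSS.FBK

/-!
# Squad PSS, row FBK (helper77): fixed vectors without coefficients at the fixed points
-/

set_option autoImplicit false

open scoped BigOperators

noncomputable section

namespace Pool.Agent.PSS.S0.H77

open Pool.Agent.PFD.D2b (FrR)

theorem fbk (hfpx : FpxStmt) : FbkStmt := by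
  classical
  intro R H M Ω _ _ _ _ _ _ _ ρ b c hF P m hm h0
  obtain ⟨f1, f2, f3⟩ := hF
  have h1 := hfpx R H M Ω ρ P (fun ω => c ω m • b ω)
    (Finset.univ.filter fun ω => ∀ h ∈ P, h • ω = ω)
    (by
      intro h hh ω
      show c (h • ω) m • b (h • ω) = ρ h (c ω m • b ω)
      have e1 : ρ h m = m := hm h hh
      have e2 := f2 h ω m
      rw [e1] at e2
      rw [e2, f1, map_smul])
    (by
      intro ω
      rw [Finset.mem_filter]
      exact ⟨fun h => h.2, fun h => ⟨Finset.mem_univ _, h⟩⟩)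
  have h2 : ∑ ω ∈ Finset.univ.filter (fun ω : Ω => ∀ h ∈ P, h • ω = ω), c ω m • b ω = 0 := by
    refine Finset.sum_eq_zero fun ω hω => ?_
    rw [h0 ω (Finset.mem_filter.1 hω).2, zero_smul]
  rw [h2, sub_zero, f3] at h1
  exact h1

end Pool.Agent.PSS.S0.H77
end
end -- Pool.Agent.Helper77_PSS.FBK

section -- Pool.Agent.Helper92_PSS.FCO

/-!
# Squad PSS, row FCO: coefficients of the elements of the Brauer kernel at fixed points
-/

set_option autoImplicit false

open scoped BigOperators TensorProduct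

namespace Pool.Agent.PSS.S0.H92

open Pool.Agent.PFC (tw IsTv)
open Pool.Agent.PFD.D2b (FrR)

theorem fco : FcoStmt := by
  intro ℓ _ R H M Ω _ _ _ _ _ _ _ ρ b c hℓ hH hfr P m hm ω hω
  obtain ⟨-, hc, -⟩ := hfr
  unfold BKR at hm
  induction hm using Submodule.span_induction with
  | mem n hn =>
    obtain ⟨P', S, m, hlt, hS, -, rfl⟩ := hn
    have h1 : ∀ x ∈ S, c ω (ρ x m) = c ω m := by
      intro x hx
      have h2 : x⁻¹ • ω = ω := hω _ (P.inv_mem (hS.1 x hx))
      have h3 := hc x (x⁻¹ • ω) m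
      rw [smul_inv_smul] at h3
      rw [h3, h2]
    rw [map_sum, Finset.sum_congr rfl h1, Finset.sum_const, nsmul_eq_mul]
    have hcard := Pool.Agent.PFC.card_tv P' P hlt.le S hS
    have hP : IsPGroup ℓ P := hH.to_subgroup P
    obtain ⟨k, hk⟩ := (IsPGroup.iff_card).1 hP
    have hdiv : S.card ∣ ℓ ^ k := ⟨_, by rw [← hk]; exact hcard.symm⟩
    obtain ⟨j, -, hj⟩ := (Nat.dvd_prime_pow (Fact.out : ℓ.Prime)).1 hdiv
    rcases Nat.eq_zero_or_pos j with h0 | h0
    · exfalso
      rw [h0, pow_zero] at hj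
      rw [hj, one_mul] at hcard
      exact hlt.ne (Subgroup.eq_of_le_of_card_ge hlt.le hcard.ge)
    · rw [hj, Nat.cast_pow, hℓ, zero_pow h0.ne', zero_mul]
  | zero => exact map_zero _
  | add a b _ _ ha hb => rw [map_add, ha, hb, add_zero]
  | smul r a _ ha => rw [map_smul, ha, smul_zero]

end Pool.Agent.PSS.S0.H92
end -- Pool.Agent.Helper92_PSS.FCO

section -- Pool.Agent.Helper5_PSS.TRS

open scoped BigOperators

namespace Pool.Agent.PSS.S0.H5

open Pool.Agent.PSS

theorem trs : TrsStmt := by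
  intro R V A K _ _ _ _ _ _ α lam x y hRF a ha b hb
  -- centraliser
  have hcen : ∀ c ∈ FxR (cw R α) ⊤, ∀ v : V, α v * c = c * α v := by
    intro c hc v
    have h1 : α v * (c * α v⁻¹) = c := hc v trivial
    have h2 : α v⁻¹ * α v = 1 := by rw [← map_mul, inv_mul_cancel, map_one]
    calc α v * c = α v * c * (α v⁻¹ * α v) := by rw [h2, mul_one]
      _ = (α v * (c * α v⁻¹)) * α v := by simp only [mul_assoc]
      _ = c * α v := by rw [h1]
  have hca := hcen a ha
  have hcb := hcen b hb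
  let E : A → A := fun c => ∑ v : V, lam (α v⁻¹ * c) • α v
  have h1 : ∀ c : A, ∑ k, x k * E (y k * c) = c := by
    intro c
    rw [← hRF.e1 c]
    conv_rhs => rw [hRF.e1 c]
    conv_lhs => rw [hRF.e1 c]
    refine Eq.trans ?_ (hRF.e1 c)
    refine Finset.sum_congr rfl (fun k _ => ?_)
    rw [Finset.mul_sum]
    refine Finset.sum_congr rfl (fun v _ => ?_)
    rw [mul_smul_comm, mul_assoc]
  have h2 : ∀ c : A, ∑ l, E (c * x l) * y l = c := by
    intro c
    refine Eq.trans ?_ (hRF.e2 c)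
    refine Finset.sum_congr rfl (fun l _ => ?_)
    rw [Finset.sum_mul, ← Equiv.sum_comp (Equiv.inv V)]
    refine Finset.sum_congr rfl (fun v _ => ?_)
    have e : lam (α v * (c * x l)) = lam (c * (x l * α v)) := by
      rw [hRF.sym, mul_assoc]
    simp only [Equiv.inv_apply, inv_inv, smul_mul_assoc]
    rw [e]
  have h3 : ∀ c : A, a * E c = E c * a := by
    intro c
    simp only [E, Finset.mul_sum, Finset.sum_mul]
    refine Finset.sum_congr rfl (fun v _ => ?_)
    rw [mul_smul_comm, smul_mul_assoc, hca v]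
  have h4 : ∀ c : A, E (b * c) = E (c * b) := by
    intro c
    refine Finset.sum_congr rfl (fun v _ => ?_)
    have e : lam (α v⁻¹ * (b * c)) = lam (α v⁻¹ * (c * b)) := by
      rw [← mul_assoc, hcb, mul_assoc, hRF.sym, mul_assoc]
    rw [e]
  calc ∑ k, x k * (a * b) * y k
      = ∑ k, x k * (a * ∑ l, E (b * y k * x l) * y l) := by
        refine Finset.sum_congr rfl (fun k _ => ?_)
        rw [h2 (b * y k)]
        simp only [mul_assoc]
    _ = ∑ k, ∑ l, x k * E (y k * (x l * b)) * (a * y l) := by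
        refine Finset.sum_congr rfl (fun k _ => ?_)
        rw [Finset.mul_sum, Finset.mul_sum]
        refine Finset.sum_congr rfl (fun l _ => ?_)
        have e : E (b * y k * x l) = E (y k * (x l * b)) := by
          rw [mul_assoc, h4, mul_assoc]
        rw [e, ← mul_assoc a, h3]
        simp only [mul_assoc]
    _ = ∑ l, (∑ k, x k * E (y k * (x l * b))) * (a * y l) := by
        rw [Finset.sum_comm]
        refine Finset.sum_congr rfl (fun l _ => ?_)
        rw [Finset.sum_mul]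
    _ = ∑ l, x l * (b * a) * y l := by
        refine Finset.sum_congr rfl (fun l _ => ?_)
        rw [h1 (x l * b)]
        simp only [mul_assoc]

end Pool.Agent.PSS.S0.H5
end -- Pool.Agent.Helper5_PSS.TRS

section -- Pool.Agent.Helper70_PSS.SFQ

/-!
# Squad PSS, row SFQ (helper70): the frame of `A(Q)` from the points of type `θ`
-/

set_option autoImplicit false

open scoped BigOperators

noncomputable section

namespace Pool.Agent.PSS.S0.H70

open Pool.Agent.PFC (tw IsTv)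

namespace SFQ

variable (R : Type) {V A : Type} [CommRing R] [CommGroup V] [Ring A] [Algebra R A]

theorem cw_apply (α : V →* A) (u : V) (a : A) : cw R α u a = α u * (a * α u⁻¹) := rfl

theorem bw_apply (α : V →* A) (g : V × V) (a : A) : bw R α g a = α g.1 * (a * α g.2⁻¹) := rfl

theorem om_fx (α : V →* A) (Q : Subgroup V) (v : V) : α v ∈ FxR (cw R α) Q := by
  intro u _
  rw [cw_apply, ← map_mul, ← map_mul, mul_left_comm, mul_inv_cancel, mul_one]

/-- the twisted diagonal -/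
def jt (θ : MulAut V) : V →* V × V where
  toFun := fun q => (q, θ⁻¹ q)
  map_one' := by
    rw [map_one]
    rfl
  map_mul' := by
    intro p q
    rw [map_mul]
    rfl

theorem jt_apply (θ : MulAut V) (q : V) : jt θ q = (q, θ⁻¹ q) := rfl

theorem om_n' (α : V →* A) (θ : MulAut V) (n n' : A) (h1 : n * n' = 1) (h2 : n' * n = 1)
    (h3 : ∀ u, n * α u = α (θ u) * n) (u : V) : α u * n' = n' * α (θ u) := by
  calc α u * n' = (n' * n) * α u * n' := by rw [h2, one_mul]
    _ = n' * (n * α u) * n' := by simp only [mul_assoc]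
    _ = n' * (α (θ u) * n) * n' := by rw [h3]
    _ = n' * α (θ u) * (n * n') := by simp only [mul_assoc]
    _ = n' * α (θ u) := by rw [h1, mul_one]

theorem th_inv (θ : MulAut V) (q : V) : θ (θ⁻¹ q) = q := MulAut.apply_inv_self V θ q

/-- the Brauer kernel of the twisted diagonal -/
theorem bk_n' (α : V →* A) (Q : Subgroup V) (θ : MulAut V) (n n' : A) (h1 : n * n' = 1)
    (h2 : n' * n = 1) (h3 : ∀ u, n * α u = α (θ u) * n) (m : A)
    (hm : m ∈ BKR (bw R α) (Q.map (jt θ))) : m * n' ∈ BKR (cw R α) Q := by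
  classical
  have hn := om_n' α θ n n' h1 h2 h3
  have hn2 : ∀ q : V, α (θ⁻¹ q)⁻¹ * n' = n' * α q⁻¹ := by
    intro q
    rw [hn, map_inv, th_inv]
  have key : ∀ (x : V) (a : A), bw R α (jt θ x) a * n' = cw R α x (a * n') := by
    intro x a
    rw [bw_apply, cw_apply, jt_apply]
    show α x * (a * α (θ⁻¹ x)⁻¹) * n' = α x * (a * n' * α x⁻¹)
    calc α x * (a * α (θ⁻¹ x)⁻¹) * n' = α x * (a * (α (θ⁻¹ x)⁻¹ * n')) := by
          simp only [mul_assoc]
      _ = α x * (a * (n' * α x⁻¹)) := by rw [hn2]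
      _ = α x * (a * n' * α x⁻¹) := by simp only [mul_assoc]
  have hle : BKR (bw R α) (Q.map (jt θ)) ≤
      (BKR (cw R α) Q).comap (LinearMap.mulRight R n') := by
    refine Submodule.span_le.2 ?_
    rintro _ ⟨P', S, m, hlt, hTv, hm, rfl⟩
    show (∑ x ∈ S, bw R α x m) * n' ∈ BKR (cw R α) Q
    have hS : ∀ x ∈ S, x = jt θ x.1 ∧ x.1 ∈ Q := by
      intro x hx
      obtain ⟨q, hq, rfl⟩ := hTv.1 x hx
      exact ⟨rfl, hq⟩
    have hinj : Set.InjOn (Prod.fst : V × V → V) (S : Set (V × V)) := by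
      intro x hx y hy hxy
      rw [(hS x hx).1, (hS y hy).1, hxy]
    refine Submodule.subset_span ⟨P'.comap (jt θ), S.image Prod.fst, m * n', ?_, ?_, ?_, ?_⟩
    · refine lt_of_le_of_ne ?_ ?_
      · intro q hq
        obtain ⟨q', hq', h⟩ := hlt.le hq
        have h' : q' = q := congrArg Prod.fst h
        exact h' ▸ hq'
      · intro h
        refine absurd ?_ (not_le_of_gt hlt)
        rintro _ ⟨q, hq, rfl⟩
        have hq' : q ∈ P'.comap (jt θ) := by
          rw [h]
          exact hq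
        exact hq'
    · refine ⟨?_, ?_⟩
      · intro s hs
        obtain ⟨x, hx, rfl⟩ := Finset.mem_image.1 hs
        exact (hS x hx).2
      · intro p hp
        obtain ⟨s, ⟨hs1, hs2⟩, hs3⟩ := hTv.2 (jt θ p) ⟨p, hp, rfl⟩
        refine ⟨s.1, ⟨Finset.mem_image.2 ⟨s, hs1, rfl⟩, ?_⟩, ?_⟩
        · show jt θ (s.1⁻¹ * p) ∈ P'
          rw [map_mul, map_inv, ← (hS s hs1).1]
          exact hs2
        · rintro t ⟨ht1, ht2⟩
          obtain ⟨x, hx, rfl⟩ := Finset.mem_image.1 ht1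
          have ht3 : jt θ (x.1⁻¹ * p) ∈ P' := ht2
          rw [map_mul, map_inv, ← (hS x hx).1] at ht3
          rw [hs3 x ⟨hx, ht3⟩]
    · intro q hq
      rw [← key, hm _ hq]
    · rw [Finset.sum_mul, Finset.sum_image hinj]
      refine Finset.sum_congr rfl fun x hx => ?_
      rw [← key, ← (hS x hx).1]
  exact hle hm

/-- the Brauer map as a linear map on the centraliser -/
def bl {B : Type} [Ring B] [Algebra R B] (α : V →* A) (Q : Subgroup V) (αB : V →* B) (β : A → B)
    (h : IsBQ R α Q αB β) : FxR (cw R α) Q →ₗ[R] B where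
  toFun := fun a => β a
  map_add' := fun a b => h.add a a.2 b b.2
  map_smul' := fun r a => h.smul r a a.2

end SFQ

open SFQ

theorem sfq : SfqStmt := by
  intro R V A B Ω _ _ _ _ _ _ _ _ _ α Q αB β lam lamB b d θ n n' _ hSF hB hlam h1 h2 h3
  classical
  have hn := om_n' α θ n n' h1 h2 h3
  have hn2 : ∀ q : V, α (θ⁻¹ q)⁻¹ * n' = n' * α q⁻¹ := by
    intro q
    rw [hn, map_inv, th_inv]
  have hn3 : ∀ v : V, α v⁻¹ * n' = n' * α (θ v)⁻¹ := by
    intro v
    rw [hn, map_inv]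
  have hn4 : ∀ q : V, n * α (θ⁻¹ q) = α q * n := by
    intro q
    rw [h3, th_inv]
  have eb : ∀ (g : V × V) (ω : Ω), b (g • ω) = α g.1 * b ω * α g.2⁻¹ := hSF.eb
  have ed : ∀ (g : V × V) (ω : Ω), d (g • ω) = α g.2 * d ω * α g.1⁻¹ := hSF.ed
  have hbn : ∀ ω ∈ OQt Q θ Ω, b ω * n' ∈ FxR (cw R α) Q := by
    intro ω hω q hq
    have e1 := eb (q, θ⁻¹ q) ω
    rw [hω q hq] at e1
    show α q * (b ω * n' * α q⁻¹) = b ω * n'
    calc α q * (b ω * n' * α q⁻¹) = α q * b ω * (n' * α q⁻¹) := by simp only [mul_assoc]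
      _ = α q * b ω * (α (θ⁻¹ q)⁻¹ * n') := by rw [hn2]
      _ = α q * b ω * α (θ⁻¹ q)⁻¹ * n' := by simp only [mul_assoc]
      _ = b ω * n' := by rw [← e1]
  have hdn : ∀ ω ∈ OQt Q θ Ω, n * d ω ∈ FxR (cw R α) Q := by
    intro ω hω q hq
    have e1 := ed (q, θ⁻¹ q) ω
    rw [hω q hq] at e1
    show α q * (n * d ω * α q⁻¹) = n * d ω
    calc α q * (n * d ω * α q⁻¹) = (α q * n) * d ω * α q⁻¹ := by simp only [mul_assoc]
      _ = (n * α (θ⁻¹ q)) * d ω * α q⁻¹ := by rw [hn4]
      _ = n * (α (θ⁻¹ q) * d ω * α q⁻¹) := by simp only [mul_assoc]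
      _ = n * d ω := by rw [← e1]
  have hmul : ∀ a ∈ FxR (cw R α) Q, ∀ a' ∈ FxR (cw R α) Q, a * a' ∈ FxR (cw R α) Q :=
    fun a ha a' ha' => H6.fx_mul α ha ha'
  refine ⟨fun ω hω => ⟨hbn ω hω, hdn ω hω⟩, ?_⟩
  constructor
  · intro x y
    obtain ⟨a, ha, rfl⟩ := hB.surj x
    obtain ⟨a', ha', rfl⟩ := hB.surj y
    rw [← hB.mul a ha a' ha', ← hB.mul a' ha' a ha, hlam _ (hmul a ha a' ha'),
      hlam _ (hmul a' ha' a ha), hSF.sym]
  · intro g ω
    show β (b (g • (ω : Ω)) * n') = αB g.1 * β (b ω * n') * αB (θ g.2)⁻¹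
    rw [← hB.om, ← hB.om, ← hB.mul _ (om_fx R α Q _) _ (hbn ω ω.2),
      ← hB.mul _ (hmul _ (om_fx R α Q _) _ (hbn ω ω.2)) _ (om_fx R α Q _), eb]
    congr 1
    calc α g.1 * b ω * α g.2⁻¹ * n' = α g.1 * b ω * (α g.2⁻¹ * n') := by simp only [mul_assoc]
      _ = α g.1 * b ω * (n' * α (θ g.2)⁻¹) := by rw [hn3]
      _ = α g.1 * (b ω * n') * α (θ g.2)⁻¹ := by simp only [mul_assoc]
  · intro g ω
    show β (n * d (g • (ω : Ω))) = αB (θ g.2) * β (n * d ω) * αB g.1⁻¹
    rw [← hB.om, ← hB.om, ← hB.mul _ (om_fx R α Q _) _ (hdn ω ω.2),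
      ← hB.mul _ (hmul _ (om_fx R α Q _) _ (hdn ω ω.2)) _ (om_fx R α Q _), ed]
    congr 1
    calc n * (α g.2 * d ω * α g.1⁻¹) = (n * α g.2) * d ω * α g.1⁻¹ := by simp only [mul_assoc]
      _ = (α (θ g.2) * n) * d ω * α g.1⁻¹ := by rw [h3]
      _ = α (θ g.2) * (n * d ω) * α g.1⁻¹ := by simp only [mul_assoc]
  · intro z
    obtain ⟨a, ha, rfl⟩ := hB.surj z
    have hq : ∀ q ∈ Q, α q⁻¹ * a * α q = a := by
      intro q hq
      have h := ha q⁻¹ (Q.inv_mem hq)
      rw [cw_apply, inv_inv] at h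
      rw [mul_assoc]
      exact h
    let g : Ω → A := fun ω => lam (d ω * (a * n)) • b ω
    have hg : ∀ h ∈ Q.map (jt θ), ∀ κ, g (h • κ) = bw R α h (g κ) := by
      rintro _ ⟨q, hqQ, rfl⟩ κ
      have e1 : lam (d (jt θ q • κ) * (a * n)) = lam (d κ * (a * n)) := by
        rw [ed, jt_apply]
        show lam (α (θ⁻¹ q) * d κ * α q⁻¹ * (a * n)) = lam (d κ * (a * n))
        calc lam (α (θ⁻¹ q) * d κ * α q⁻¹ * (a * n))
            = lam (α (θ⁻¹ q) * (d κ * α q⁻¹ * (a * n))) := by simp only [mul_assoc]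
          _ = lam ((d κ * α q⁻¹ * (a * n)) * α (θ⁻¹ q)) := hSF.sym _ _
          _ = lam (d κ * (α q⁻¹ * a * (n * α (θ⁻¹ q)))) := by simp only [mul_assoc]
          _ = lam (d κ * (α q⁻¹ * a * (α q * n))) := by rw [hn4]
          _ = lam (d κ * ((α q⁻¹ * a * α q) * n)) := by simp only [mul_assoc]
          _ = lam (d κ * (a * n)) := by rw [hq q hqQ]
      show lam (d (jt θ q • κ) * (a * n)) • b (jt θ q • κ) =
        bw R α (jt θ q) (lam (d κ * (a * n)) • b κ)
      rw [e1, map_smul, eb, bw_apply, mul_assoc]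
    have hK : ∀ κ, κ ∈ Finset.univ.filter (fun ω : Ω => ω ∈ OQt Q θ Ω) ↔
        ∀ h ∈ Q.map (jt θ), h • κ = κ := by
      intro κ
      rw [Finset.mem_filter]
      constructor
      · rintro ⟨_, h⟩ _ ⟨q, hqQ, rfl⟩
        exact h q hqQ
      · intro h
        exact ⟨Finset.mem_univ _, fun q hqQ => h _ ⟨q, hqQ, rfl⟩⟩
    have hF := Pool.Agent.PSS.H20.fpx R (V × V) A Ω (bw R α) (Q.map (jt θ)) g
      (Finset.univ.filter (fun ω : Ω => ω ∈ OQt Q θ Ω)) hg hK
    have hs : ∑ κ, g κ = a * n := hSF.fr (a * n)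
    rw [hs] at hF
    have hF2 := bk_n' R α Q θ n n' h1 h2 h3 _ hF
    rw [Finset.sum_subtype (p := fun ω => ω ∈ OQt Q θ Ω) _ (fun x => by
      rw [Finset.mem_filter]; exact ⟨fun h => h.2, fun h => ⟨Finset.mem_univ _, h⟩⟩)] at hF2
    have hterm : ∀ ω : OQt Q θ Ω, g ω * n' = lam (n * d ω * a) • (b ω * n') := by
      intro ω
      show (lam (d ω * (a * n)) • b ω) * n' = _
      rw [smul_mul_assoc]
      congr 1
      rw [← mul_assoc, hSF.sym (d ω * a) n, mul_assoc]
    have hsum : (∑ ω : OQt Q θ Ω, g ω) * n' =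
        ∑ ω : OQt Q θ Ω, lam (n * d ω * a) • (b ω * n') := by
      rw [Finset.sum_mul]
      exact Finset.sum_congr rfl fun ω _ => hterm ω
    have hF3 : a - ∑ ω : OQt Q θ Ω, lam (n * d ω * a) • (b ω * n') ∈ BKR (cw R α) Q := by
      have e : (a * n - ∑ ω : OQt Q θ Ω, g ω) * n' =
          a - ∑ ω : OQt Q θ Ω, lam (n * d ω * a) • (b ω * n') := by
        rw [sub_mul, hsum, mul_assoc, h1, mul_one]
      rw [← e]
      exact hF2
    -- the linear map
    have hmem : ∀ ω : OQt Q θ Ω, lam (n * d ω * a) • (b ω * n') ∈ FxR (cw R α) Q :=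
      fun ω => Submodule.smul_mem _ _ (hbn ω ω.2)
    have hsm : ∑ ω : OQt Q θ Ω, lam (n * d ω * a) • (b ω * n') ∈ FxR (cw R α) Q :=
      Submodule.sum_mem _ fun ω _ => hmem ω
    have hβ : β (∑ ω : OQt Q θ Ω, lam (n * d ω * a) • (b ω * n')) =
        ∑ ω : OQt Q θ Ω, lam (n * d ω * a) • β (b ω * n') := by
      have h5 := map_sum (bl R α Q αB β hB)
        (fun ω : OQt Q θ Ω => (⟨lam (n * d ω * a) • (b ω * n'), hmem ω⟩ : FxR (cw R α) Q))
        Finset.univ
      have h6 : bl R α Q αB β hB (∑ ω : OQt Q θ Ω,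
          (⟨lam (n * d ω * a) • (b ω * n'), hmem ω⟩ : FxR (cw R α) Q)) =
          β (∑ ω : OQt Q θ Ω, lam (n * d ω * a) • (b ω * n')) := by
        show β ((∑ ω : OQt Q θ Ω,
          (⟨lam (n * d ω * a) • (b ω * n'), hmem ω⟩ : FxR (cw R α) Q) : FxR (cw R α) Q) : A) = _
        rw [Submodule.coe_sum]
      rw [← h6, h5]
      refine Finset.sum_congr rfl fun ω _ => ?_
      show β (lam (n * d ω * a) • (b ω * n')) = _
      exact hB.smul _ _ (hbn ω ω.2)
    have hsub : a - ∑ ω : OQt Q θ Ω, lam (n * d ω * a) • (b ω * n') ∈ FxR (cw R α) Q :=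
      Submodule.sub_mem _ ha hsm
    have h0 : β (a - ∑ ω : OQt Q θ Ω, lam (n * d ω * a) • (b ω * n')) = 0 :=
      (hB.ker _ hsub).2 hF3
    have h7 := hB.add _ hsub _ hsm
    rw [sub_add_cancel, h0, zero_add, hβ] at h7
    rw [h7]
    refine Finset.sum_congr rfl fun ω _ => ?_
    rw [← hlam _ (hmul _ (hdn ω ω.2) a ha), hB.mul _ (hdn ω ω.2) a ha, ← h7]
  · intro v ω h
    exact hSF.free v ω (congrArg Subtype.val h)

end Pool.Agent.PSS.S0.H70
end
end -- Pool.Agent.Helper70_PSS.SFQ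

section -- Pool.Agent.Helper52_PSS.RFS

/-!
# Squad PSS, row RFS: a system over a subgroup
-/

set_option autoImplicit false

open scoped BigOperators

noncomputable section

namespace Pool.Agent.PSS.S0.H52

open Pool.Agent.PSS Pool.Agent.PSS.S0
open Pool.Agent.PFC (tw IsTv)

theorem tv_sum {V M : Type} [CommGroup V] [Fintype V] [AddCommMonoid M] {Q : Subgroup V}
    [Fintype Q] {T : Finset V} (hT : IsTv Q ⊤ T) (F : V → M) :
    ∑ t : T, ∑ q : Q, F ((t : V) * q) = ∑ v, F v := by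
  rw [← Fintype.sum_prod_type' (fun (t : T) (q : Q) => F ((t : V) * q))]
  refine Fintype.sum_bijective (fun p : T × Q => ((p.1 : V) * p.2)) ⟨?_, ?_⟩ _ _ fun p => rfl
  · rintro ⟨t, q⟩ ⟨t', q'⟩ h
    have h' : (t : V) * q = (t' : V) * q' := h
    obtain ⟨s, _, hs⟩ := hT.2 ((t : V) * q) (Subgroup.mem_top _)
    have h1 : (t : V) = s := hs t ⟨t.2, by
      rw [inv_mul_cancel_left]
      exact q.2⟩
    have h2 : (t' : V) = s := hs t' ⟨t'.2, by
      rw [h', inv_mul_cancel_left]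
      exact q'.2⟩
    have h3 : t = t' := Subtype.ext (h1.trans h2.symm)
    subst h3
    rw [Prod.mk.injEq]
    exact ⟨rfl, Subtype.ext (mul_left_cancel h')⟩
  · intro v
    obtain ⟨s, ⟨hs, hs'⟩, _⟩ := hT.2 v (Subgroup.mem_top _)
    exact ⟨(⟨s, hs⟩, ⟨s⁻¹ * v, hs'⟩), mul_inv_cancel_left s v⟩

theorem rfs : RfsStmt := by
  intro R V A K _ _ _ _ _ _ α lam x y Q _ T hrf hT
  refine ⟨hrf.sym, ?_, ?_⟩
  · intro a
    conv_rhs => rw [← hrf.e1 a]
    rw [Fintype.sum_prod_type]
    refine Finset.sum_congr rfl fun k _ => ?_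
    rw [← tv_sum hT (fun v => lam (α v⁻¹ * y k * a) • (x k * α v))]
    refine Finset.sum_congr rfl fun t _ => Finset.sum_congr rfl fun q _ => ?_
    change lam (α ((q : V)⁻¹) * (α (t : V)⁻¹ * y k) * a) • (x k * α t * α q) = _
    rw [← mul_assoc, ← map_mul, ← mul_inv_rev, mul_assoc (x k), ← map_mul]
  · intro a
    conv_rhs => rw [← hrf.e2 a]
    rw [Fintype.sum_prod_type]
    refine Finset.sum_congr rfl fun k _ => ?_
    rw [← tv_sum hT (fun v => lam (a * (x k * α v)) • (α v⁻¹ * y k))]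
    refine Finset.sum_congr rfl fun t _ => Finset.sum_congr rfl fun q _ => ?_
    change lam (a * (x k * α t * α q)) • (α ((q : V)⁻¹) * (α (t : V)⁻¹ * y k)) = _
    rw [← mul_assoc (α (q : V)⁻¹), ← map_mul, ← mul_inv_rev, mul_assoc (x k), ← map_mul]

end Pool.Agent.PSS.S0.H52
end
end -- Pool.Agent.Helper52_PSS.RFS

section -- Pool.Agent.Helper64_PSS.GFB

/-!
# Squad PSS, row GFB (helper64): base change of the class
-/

set_option autoImplicit false

open scoped BigOperators TensorProduct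

noncomputable section

namespace Pool.Agent.PSS.H64

open Pool.Agent.PFC (tw IsTv)
open Pool.Agent.PFD.D2b (FrR)

section bc

variable {R S W A : Type} [CommRing R] [CommRing S] [Algebra R S] [CommGroup W]
  [Ring A] [Algebra R A]

/-- base change of a functional -/
def bcf (S : Type) [CommRing S] [Algebra R S] (c : A →ₗ[R] R) : S ⊗[R] A →ₗ[S] S :=
  (TensorProduct.AlgebraTensorModule.rid R S S).toLinearMap.comp (LinearMap.baseChange S c)

theorem bcf_ap (c : A →ₗ[R] R) (s : S) (a : A) :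
    bcf S c (s ⊗ₜ[R] a) = s * algebraMap R S (c a) := by
  unfold bcf
  rw [LinearMap.comp_apply, LinearMap.baseChange_tmul]
  change (TensorProduct.AlgebraTensorModule.rid R S S) (s ⊗ₜ[R] c a) = _
  rw [TensorProduct.AlgebraTensorModule.rid_tmul, Algebra.smul_def, mul_comm]

theorem sm_t (s : S) (r : R) (z : A) :
    (s * algebraMap R S r) • ((1 : S) ⊗ₜ[R] z) = s ⊗ₜ[R] (r • z) := by
  rw [TensorProduct.smul_tmul', smul_eq_mul, mul_one, mul_comm, ← Algebra.smul_def,
    TensorProduct.smul_tmul]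

theorem bcw_ap (γ : W →* A) (w : W) : bcw (R := R) (S := S) γ w = (1 : S) ⊗ₜ[R] γ w := rfl

theorem bw_t (γ : W →* A) (g : W × W) (s : S) (a : A) :
    bw S (bcw (R := R) (S := S) γ) g (s ⊗ₜ[R] a) = s ⊗ₜ[R] (bw R γ g a) := by
  change bcw (R := R) (S := S) γ g.1 * ((s ⊗ₜ[R] a) * bcw (R := R) (S := S) γ g.2⁻¹) =
    s ⊗ₜ[R] (γ g.1 * (a * γ g.2⁻¹))
  rw [bcw_ap, bcw_ap, Algebra.TensorProduct.tmul_mul_tmul, Algebra.TensorProduct.tmul_mul_tmul,
    mul_one, one_mul]

theorem cw_t (γ : W →* A) (g : W) (s : S) (a : A) :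
    cw S (bcw (R := R) (S := S) γ) g (s ⊗ₜ[R] a) = s ⊗ₜ[R] (cw R γ g a) :=
  bw_t γ (g, g) s a

theorem fx_t (γ : W →* A) (P : Subgroup W) {a : A} (ha : a ∈ FxR (cw R γ) P) :
    (1 : S) ⊗ₜ[R] a ∈ FxR (cw S (bcw (R := R) (S := S) γ)) P := by
  intro v hv
  rw [cw_t, ha v hv]

end bc

theorem gfb : Pool.Agent.PSS.S3.GfbStmt := by
  intro R S W E A K _ _ _ _ _ _ _ _ _ ψ γ lam x y hRF hPer hUni
  refine ⟨⟨bcf S lam, bcf_ap lam, ?_, ?_, ?_⟩, ?_, ?_, ?_⟩
  · -- sym
    intro m n
    induction m using TensorProduct.induction_on with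
    | zero => rw [zero_mul, mul_zero]
    | add m m' h1 h2 => rw [add_mul, mul_add, map_add, map_add, h1, h2]
    | tmul s a =>
      induction n using TensorProduct.induction_on with
      | zero => rw [zero_mul, mul_zero]
      | add n n' h1 h2 => rw [add_mul, mul_add, map_add, map_add, h1, h2]
      | tmul t b =>
        rw [Algebra.TensorProduct.tmul_mul_tmul, Algebra.TensorProduct.tmul_mul_tmul, bcf_ap,
          bcf_ap, hRF.sym, mul_comm s t]
  · -- e1
    intro m
    induction m using TensorProduct.induction_on with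
    | zero =>
      refine Finset.sum_eq_zero (fun k _ => Finset.sum_eq_zero (fun v _ => ?_))
      rw [mul_zero, map_zero, zero_smul]
    | add m m' h1 h2 =>
      refine Eq.trans ?_ (congrArg₂ (· + ·) h1 h2)
      rw [← Finset.sum_add_distrib]
      refine Finset.sum_congr rfl (fun k _ => ?_)
      rw [← Finset.sum_add_distrib]
      refine Finset.sum_congr rfl (fun v _ => ?_)
      rw [mul_add, map_add, add_smul]
    | tmul s a =>
      have h1 := congrArg (fun t => s ⊗ₜ[R] t) (hRF.e1 a)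
      refine Eq.trans ?_ h1
      rw [TensorProduct.tmul_sum]
      refine Finset.sum_congr rfl (fun k _ => ?_)
      rw [TensorProduct.tmul_sum]
      refine Finset.sum_congr rfl (fun v _ => ?_)
      rw [bcw_ap, bcw_ap, Algebra.TensorProduct.tmul_mul_tmul,
        Algebra.TensorProduct.tmul_mul_tmul, Algebra.TensorProduct.tmul_mul_tmul, one_mul,
        one_mul, bcf_ap, sm_t]
  · -- e2
    intro m
    induction m using TensorProduct.induction_on with
    | zero =>
      refine Finset.sum_eq_zero (fun k _ => Finset.sum_eq_zero (fun v _ => ?_))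
      rw [zero_mul, map_zero, zero_smul]
    | add m m' h1 h2 =>
      refine Eq.trans ?_ (congrArg₂ (· + ·) h1 h2)
      rw [← Finset.sum_add_distrib]
      refine Finset.sum_congr rfl (fun k _ => ?_)
      rw [← Finset.sum_add_distrib]
      refine Finset.sum_congr rfl (fun v _ => ?_)
      rw [add_mul, map_add, add_smul]
    | tmul s a =>
      have h1 := congrArg (fun t => s ⊗ₜ[R] t) (hRF.e2 a)
      refine Eq.trans ?_ h1
      rw [TensorProduct.tmul_sum]
      refine Finset.sum_congr rfl (fun k _ => ?_)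
      rw [TensorProduct.tmul_sum]
      refine Finset.sum_congr rfl (fun v _ => ?_)
      rw [bcw_ap, bcw_ap, Algebra.TensorProduct.tmul_mul_tmul,
        Algebra.TensorProduct.tmul_mul_tmul, Algebra.TensorProduct.tmul_mul_tmul, one_mul,
        mul_one, bcf_ap, sm_t]
  · -- Per
    obtain ⟨Ω, i1, i2, b, c, ⟨f1, f2, f3⟩, hst⟩ := hPer
    refine ⟨Ω, i1, i2, fun ω => (1 : S) ⊗ₜ[R] b ω, fun ω => bcf S (c ω), ⟨?_, ?_, ?_⟩, hst⟩
    · intro g ω
      rw [bw_t, ← f1]
    · intro g ω m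
      induction m using TensorProduct.induction_on with
      | zero => rw [map_zero, map_zero, map_zero]
      | add m m' h1 h2 => rw [map_add, map_add, map_add, h1, h2]
      | tmul s a => rw [bw_t, bcf_ap, bcf_ap, f2]
    · intro m
      induction m using TensorProduct.induction_on with
      | zero =>
        refine Finset.sum_eq_zero (fun ω _ => ?_)
        rw [map_zero, zero_smul]
      | add m m' h1 h2 =>
        refine Eq.trans ?_ (congrArg₂ (· + ·) h1 h2)
        rw [← Finset.sum_add_distrib]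
        refine Finset.sum_congr rfl (fun ω _ => ?_)
        rw [map_add, add_smul]
      | tmul s a =>
        have h1 := congrArg (fun t => s ⊗ₜ[R] t) (f3 a)
        refine Eq.trans ?_ h1
        change _ = s ⊗ₜ[R] (∑ ω, c ω a • b ω)
        rw [TensorProduct.tmul_sum]
        refine Finset.sum_congr rfl (fun ω _ => ?_)
        rw [bcf_ap, sm_t]
  · -- Uni
    intro e
    obtain ⟨z, z', h1, h2, h3⟩ := hUni e
    refine ⟨(1 : S) ⊗ₜ[R] z, (1 : S) ⊗ₜ[R] z', ?_, ?_, ?_⟩
    · rw [Algebra.TensorProduct.tmul_mul_tmul, mul_one, h1]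
      rfl
    · rw [Algebra.TensorProduct.tmul_mul_tmul, mul_one, h2]
      rfl
    · intro u
      rw [bcw_ap, bcw_ap, Algebra.TensorProduct.tmul_mul_tmul,
        Algebra.TensorProduct.tmul_mul_tmul, h3]
  · intro P
    refine ⟨fun a ha => fx_t γ P ha, ?_⟩
    intro a ha
    have hle : BKR (cw R γ) P ≤ ((BKR (cw S (bcw (R := R) (S := S) γ)) P).restrictScalars R).comap
        (TensorProduct.mk R S A 1) := by
      unfold BKR
      rw [Submodule.span_le]
      rintro n ⟨P', T, m, h1, h2, h3, rfl⟩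
      change (1 : S) ⊗ₜ[R] (∑ v ∈ T, cw R γ v m) ∈ Submodule.span S _
      refine Submodule.subset_span ⟨P', T, (1 : S) ⊗ₜ[R] m, h1, h2, fx_t γ P' h3, ?_⟩
      rw [TensorProduct.tmul_sum]
      exact Finset.sum_congr rfl (fun v _ => (cw_t γ v 1 m).symm)
    exact hle ha

end Pool.Agent.PSS.H64
end
end -- Pool.Agent.Helper64_PSS.GFB

section -- Pool.Agent.Helper45_PST.CLC

/-!
# Squad PST, block U, row CLC (helper45): vanishing at a subgroup for the base change
-/

set_option autoImplicit false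

open scoped BigOperators TensorProduct PowerSeries

noncomputable section

namespace Pool.Agent.PST.U.H45

open Pool.Agent.PFC (tw IsTv)
open Pool.Agent.PFD.D2b (FrR)
open Pool.Agent.PSS
open Pool.Agent.PSS.S0
open Pool.Agent.PSS.S3
open Pool.Agent.PSS.H64 (bcf bcf_ap bw_t cw_t fx_t sm_t bcw_ap)
open Pool.Agent.PSS.H28 (fx_mul fx_mono)

theorem fco : S0.FcoStmt := S0.H92.fco

theorem fbk : S0.FbkStmt := S0.H77.fbk Pool.Agent.PSS.H20.fpx

section

variable {R S W A : Type} [CommRing R] [CommRing S] [Algebra R S] [CommGroup W]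
  [Ring A] [Algebra R A]

/-- the frame of the base change -/
theorem frS (γ : W →* A) {Ω : Type} [Fintype Ω] [MulAction W Ω] (b : Ω → A)
    (c : Ω → (A →ₗ[R] R)) (hfr : FrR (cw R γ) b c) :
    FrR (cw S (bcw (R := R) (S := S) γ)) (fun ω => (1 : S) ⊗ₜ[R] b ω)
      (fun ω => bcf S (c ω)) := by
  obtain ⟨f1, f2, f3⟩ := hfr
  refine ⟨?_, ?_, ?_⟩
  · intro g ω
    rw [cw_t, ← f1]
  · intro g ω m
    induction m using TensorProduct.induction_on with
    | zero => rw [map_zero, map_zero, map_zero]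
    | add m m' h1 h2 => rw [map_add, map_add, map_add, h1, h2]
    | tmul s a => rw [cw_t, bcf_ap, bcf_ap, f2]
  · intro m
    induction m using TensorProduct.induction_on with
    | zero =>
      refine Finset.sum_eq_zero (fun ω _ => ?_)
      rw [map_zero, zero_smul]
    | add m m' h1 h2 =>
      refine Eq.trans ?_ (congrArg₂ (· + ·) h1 h2)
      rw [← Finset.sum_add_distrib]
      refine Finset.sum_congr rfl (fun ω _ => ?_)
      rw [map_add, add_smul]
    | tmul s a =>
      have h1 := congrArg (fun t => s ⊗ₜ[R] t) (f3 a)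
      refine Eq.trans ?_ h1
      change _ = s ⊗ₜ[R] (∑ ω, c ω a • b ω)
      rw [TensorProduct.tmul_sum]
      refine Finset.sum_congr rfl (fun ω _ => ?_)
      rw [bcf_ap, sm_t]

/-- the coefficients of a tensor in normal form -/
theorem star {n : ℕ} {g : Fin n → S} (hg : LinearIndependent R g) (a : Fin n → A)
    (c : A →ₗ[R] R) (h : bcf S c (∑ i, g i ⊗ₜ[R] a i) = 0) : ∀ i, c (a i) = 0 := by
  rw [map_sum] at h
  have h1 : ∑ i, c (a i) • g i = 0 := by
    rw [← h]
    refine Finset.sum_congr rfl fun i _ => ?_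
    rw [bcf_ap, Algebra.smul_def, mul_comm]
  exact Fintype.linearIndependent_iff.1 hg _ h1

theorem eq_of_coef {Ω : Type} [Fintype Ω] [MulAction W Ω] (γ : W →* A) (b : Ω → A)
    (c : Ω → (A →ₗ[R] R)) (hfr : FrR (cw R γ) b c) {m m' : A}
    (h : ∀ ω, c ω (m - m') = 0) : m = m' := by
  rw [← sub_eq_zero, ← hfr.2.2 (m - m')]
  exact Finset.sum_eq_zero fun ω _ => by rw [h, zero_smul]

end

/-- the frame for conjugation -/
theorem diag {R W E A : Type} [CommRing R] [CommGroup W] [Group E] [Ring A] [Algebra R A]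
    (ψ : E →* MulAut W) (γ : W →* A) (hper : Per R ψ γ) :
    ∃ (Ω : Type) (_ : Fintype Ω) (_ : MulAction W Ω) (b : Ω → A) (c : Ω → (A →ₗ[R] R)),
      FrR (cw R γ) b c := by
  obtain ⟨Ω, i1, act, b, c, hfr, -⟩ := hper
  exact ⟨Ω, i1, MulAction.compHom Ω ((MonoidHom.id W).prod (MonoidHom.id W)), b, c,
    fun g t => hfr.1 (g, g) t, fun g t n => hfr.2.1 (g, g) t n, hfr.2.2⟩

/-- CLC -/
theorem clc (hLIX : LixStmt) : ClcStmt := by
  intro ℓ hp R S W E As _ _ _ _ _ _ _ _ _ _ ψ γ hinj hℓ hW hper Q hV e he hbk hcom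
  obtain ⟨Ω, _, _, b, c, hfr⟩ := diag ψ γ hper
  have hfrS := frS (S := S) γ b c hfr
  have hℓS : (ℓ : S) = 0 := by rw [← map_natCast (algebraMap R S), hℓ, map_zero]
  obtain ⟨n, g, a, hg, rfl⟩ := hLIX R S As hinj e
  -- the `a i` are fixed by `W`
  have h1 : ∀ i, a i ∈ FxR (cw R γ) ⊤ := by
    intro i w _
    refine eq_of_coef γ b c hfr fun ω => ?_
    refine star hg (fun i => cw R γ w (a i) - a i) (c ω) ?_ i
    have h2 := he w (Subgroup.mem_top w)
    rw [map_sum] at h2
    have h3 : ∑ i, g i ⊗ₜ[R] (cw R γ w (a i) - a i) = 0 := by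
      rw [← sub_eq_zero, ← Finset.sum_sub_distrib] at h2
      rw [← h2]
      refine Finset.sum_congr rfl fun i _ => ?_
      rw [cw_t, TensorProduct.tmul_sub]
    rw [h3, map_zero]
  -- the `a i` are in the Brauer kernels above `Q`
  have h2 : ∀ i, ∀ Q' : Subgroup W, Q < Q' → a i ∈ BKR (cw R γ) Q' := by
    intro i Q' hQ'
    refine fbk R W As Ω (cw R γ) b c hfr Q' _ (fx_mono γ le_top (h1 i)) fun ω hω => ?_
    exact star hg a (c ω) (fco ℓ S W _ Ω _ _ _ hℓS hW hfrS Q' _ (hbk Q' hQ') ω hω) i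
  have h3 : ∀ i, ∀ m ∈ FxR (cw R γ) Q, a i * m - m * a i ∈ BKR (cw R γ) Q := by
    intro i m hm
    have hai := fx_mono γ (le_top : Q ≤ ⊤) (h1 i)
    refine fbk R W As Ω (cw R γ) b c hfr Q _
      (Submodule.sub_mem _ (fx_mul γ Q hai hm) (fx_mul γ Q hm hai)) fun ω hω => ?_
    refine star hg (fun i => a i * m - m * a i) (c ω) ?_ i
    have h4 := hcom _ (fx_t (S := S) γ Q hm)
    rw [Finset.sum_mul, Finset.mul_sum, ← Finset.sum_sub_distrib] at h4
    have h5 : ∑ i, g i ⊗ₜ[R] (a i * m - m * a i) =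
        ∑ i, (g i ⊗ₜ[R] a i * (1 : S) ⊗ₜ[R] m - (1 : S) ⊗ₜ[R] m * g i ⊗ₜ[R] a i) := by
      refine Finset.sum_congr rfl fun i _ => ?_
      rw [Algebra.TensorProduct.tmul_mul_tmul, Algebra.TensorProduct.tmul_mul_tmul, one_mul,
        mul_one, TensorProduct.tmul_sub]
    rw [h5]
    exact fco ℓ S W _ Ω _ _ _ hℓS hW hfrS Q _ h4 ω hω
  refine fbk S W _ Ω _ _ _ hfrS Q _ (fx_mono _ le_top he) fun ω hω => ?_
  change bcf S (c ω) (∑ i, g i ⊗ₜ[R] a i) = 0
  rw [map_sum]
  refine Finset.sum_eq_zero fun i _ => ?_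
  rw [bcf_ap, fco ℓ R W _ Ω _ _ _ hℓ hW hfr Q _ (hV (a i) (h1 i) (h2 i) (h3 i)) ω hω, map_zero,
    mul_zero]

end Pool.Agent.PST.U.H45
end
end -- Pool.Agent.Helper45_PST.CLC

section -- Pool.Agent.Helper5_PST.NBL

/-!
# Squad PST, row NBL (helper5): the central elements in the Brauer kernel of `⟨w⟩` are nilpotent
-/

set_option autoImplicit false

open scoped BigOperators TensorProduct PowerSeries

noncomputable section

namespace Pool.Agent.PST.U.H5

open Pool.Agent.PFC (tw IsTv)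
open Pool.Agent.PFD.D2b (FrR)
open Pool.Agent.PSS
open Pool.Agent.PSS.S0
open Pool.Agent.PSS.S3

/-- `W` acts on the `W × W`-set `Ω` by conjugation -/
def Dg (Ω : Type) : Type := Ω

section dg

variable {W : Type} [CommGroup W] {Ω : Type} [MulAction (W × W) Ω]

instance : MulAction W (Dg Ω) where
  smul v ω := ((v, v) : W × W) • (show Ω from ω)
  one_smul ω := one_smul (W × W) (show Ω from ω)
  mul_smul u v ω := mul_smul ((u, u) : W × W) (v, v) (show Ω from ω)

theorem dg_smul (v : W) (ω : Dg Ω) : v • ω = ((v, v) : W × W) • (show Ω from ω) := rfl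

instance [i : Fintype Ω] : Fintype (Dg Ω) := i

/-- the points which are moved by `w` -/
def Mv (Ω : Type) [MulAction (W × W) Ω] (w : W) : Type := {ω : Dg Ω // w • ω ≠ ω}

instance [Fintype Ω] (w : W) : Finite (Mv Ω w) :=
  inferInstanceAs (Finite {ω : Dg Ω // w • ω ≠ ω})

instance (w : W) : MulAction W (Mv Ω w) where
  smul v ω := ⟨v • ω.1, by
    intro h
    apply ω.2
    have h1 := congrArg (v⁻¹ • ·) h
    simp only [smul_smul] at h1
    rw [mul_comm w v, ← mul_assoc, inv_mul_cancel, one_mul, one_smul] at h1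
    exact h1⟩
  one_smul ω := Subtype.ext (one_smul W ω.1)
  mul_smul u v ω := Subtype.ext (mul_smul u v ω.1)

theorem mv_smul (w v : W) (ω : Mv Ω w) : (v • ω).1 = v • ω.1 := rfl

end dg

/-- the trace map of the trivial subgroup -/
theorem full_trace {S W L K : Type} [CommRing S] [CommGroup W] [Fintype W] [Ring L] [Algebra S L]
    [Fintype K] (γL : W →* L) (lamL : L →ₗ[S] S) (x y : K → L) (hrf : RF S γL lamL x y)
    (a b : L) : ∑ k, ∑ v : W, x k * γL v * (a * b) * (γL v⁻¹ * y k) =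
      ∑ k, ∑ v : W, x k * γL v * (b * a) * (γL v⁻¹ * y k) := by
  classical
  have htv : IsTv (⊥ : Subgroup W) ⊤ (Finset.univ : Finset W) := by
    refine ⟨fun s _ => Subgroup.mem_top s, fun p _ => ⟨p, ⟨Finset.mem_univ _, ?_⟩, ?_⟩⟩
    · rw [inv_mul_cancel]
      exact Subgroup.one_mem _
    · rintro s ⟨_, hs⟩
      rw [Subgroup.mem_bot] at hs
      exact (inv_mul_eq_one.1 hs)
  have h1 := S0.H52.rfs S W L K γL lamL x y ⊥ Finset.univ hrf htv
  have hall : ∀ c : L, c ∈ FxR (cw S (γL.comp (⊥ : Subgroup W).subtype)) ⊤ := by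
    intro c
    rintro ⟨q, hq⟩ _
    rw [Subgroup.mem_bot] at hq
    subst hq
    change γL 1 * (c * γL (1 : W)⁻¹) = c
    rw [inv_one, map_one, one_mul, mul_one]
  have h2 := S0.H5.trs S (⊥ : Subgroup W) L (K × (Finset.univ : Finset W)) _ lamL _ _ h1
    a (hall a) b (hall b)
  have h3 : ∀ c : L, ∑ p : K × (Finset.univ : Finset W),
      x p.1 * γL p.2 * c * (γL (p.2 : W)⁻¹ * y p.1) =
        ∑ k, ∑ v : W, x k * γL v * c * (γL v⁻¹ * y k) := by
    intro c
    rw [Fintype.sum_prod_type]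
    refine Finset.sum_congr rfl fun k _ => ?_
    exact Finset.sum_coe_sort (Finset.univ : Finset W)
      (fun v => x k * γL v * c * (γL v⁻¹ * y k))
  rw [← h3, ← h3]
  exact h2

theorem nbl (hV : VnxStmt) (hP : PwcStmt) : NblStmt := by
  classical
  intro ℓ _ S R W As L K _ _ _ _ _ _ _ _ _ _ κ γ γL p lamL x y w r d hl hp O hd hr z hz hzB
  obtain ⟨Ω, _, _, b, c, c₀, hfr, hfr0⟩ := O.fr
  -- natural multiples
  have hpn : ∀ (n : ℕ) (a : L), p (n • a) = n • p a := fun n a => map_nsmul p n a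
  have htf : ∀ (j : ℕ) (a : L), ℓ ^ j • a = 0 → a = 0 := by
    intro j
    induction j with
    | zero =>
      intro a ha
      rwa [pow_zero, one_smul] at ha
    | succ j ih =>
      intro a ha
      rw [pow_succ, mul_smul] at ha
      exact O.tf a (ih _ ha)
  -- the coefficients of `z`
  have hcz : ∀ (v : W) (ω : Ω), c₀ (((v, v) : W × W) • ω) z = c₀ ω z := by
    intro v ω
    have h1 := hfr0.2.1 (v, v) ω z
    have h2 : bw R γ (v, v) z = z := by
      change γ v * (z * γ v⁻¹) = z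
      rw [hz, ← mul_assoc, ← map_mul, mul_inv_cancel, map_one, one_mul]
    rwa [h2] at h1
  have hc0 : ∀ ω : Ω, ((w, w) : W × W) • ω = ω → c₀ ω z = 0 := by
    intro ω hω
    have hF : FrR (cw R γ) (T := Dg Ω) (fun ω => p (b ω)) c₀ :=
      ⟨fun g t => hfr0.1 (g, g) t, fun g t n => hfr0.2.1 (g, g) t n, hfr0.2.2⟩
    refine S0.H92.fco ℓ R W As (Dg Ω) (cw R γ) (fun ω => p (b ω)) c₀ hl hp hF
      (Subgroup.zpowers w) z hzB ω ?_
    intro h hh
    have h1 : Subgroup.zpowers w ≤ MulAction.stabilizer W (show Dg Ω from ω) := by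
      rw [Subgroup.zpowers_le]
      exact hω
    exact h1 hh
  -- the sum over the moved points
  have : Fintype (Mv Ω w) := Fintype.ofFinite _
  set s : R → S := Function.surjInv O.sur with hs
  have hsk : ∀ t, κ (s t) = t := Function.surjInv_eq O.sur
  set a : Mv Ω w → L := fun ω => s (c₀ ω.1 z) • b ω.1 with ha
  set z' : L := ∑ ω, a ω with hz'
  have hav : ∀ (v : W) (ω : Mv Ω w), γL v * a ω * γL v⁻¹ = a (v • ω) := by
    intro v ω
    have h1 : b (((v, v) : W × W) • (show Ω from ω.1)) = γL v * (b ω.1 * γL v⁻¹) :=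
      hfr.1 (v, v) ω.1
    have h2 : c₀ (((v, v) : W × W) • (show Ω from ω.1)) z = c₀ ω.1 z := hcz v ω.1
    change γL v * (s (c₀ ω.1 z) • b ω.1) * γL v⁻¹ =
      s (c₀ (((v, v) : W × W) • (show Ω from ω.1)) z) •
        b (((v, v) : W × W) • (show Ω from ω.1))
    rw [h1, h2, mul_smul_comm, smul_mul_assoc, mul_assoc]
  have hpz : p z' = z := by
    rw [hz', map_sum]
    have h1 : ∀ ω : Mv Ω w, p (a ω) = c₀ ω.1 z • p (b ω.1) := by
      intro ω
      change p (s (c₀ ω.1 z) • b ω.1) = _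
      rw [O.sc, hsk]
    rw [Finset.sum_congr rfl fun ω _ => h1 ω, ← hfr0.2.2 z]
    conv_rhs => rw [← hfr0.2.2 z]
    have h2 : ∑ ω : Mv Ω w, c₀ ω.1 z • p (b ω.1) =
        ∑ ω ∈ (Finset.univ : Finset Ω).filter (fun ω => ((w, w) : W × W) • ω ≠ ω),
          c₀ ω z • p (b ω) := by
      refine Finset.sum_bij (fun ω _ => (ω.1 : Ω)) ?_ ?_ ?_ ?_
      · intro ω _
        exact Finset.mem_filter.2 ⟨Finset.mem_univ _, ω.2⟩
      · intro ω _ ω' _ h
        exact Subtype.ext h
      · intro ω hω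
        exact ⟨⟨ω, (Finset.mem_filter.1 hω).2⟩, Finset.mem_univ _, rfl⟩
      · intro ω _
        rfl
    have h3 : ∑ ω ∈ (Finset.univ : Finset Ω).filter (fun ω => ((w, w) : W × W) • ω ≠ ω),
        c₀ ω z • p (b ω) = ∑ ω, c₀ ω z • p (b ω) := by
      refine Finset.sum_filter_of_ne fun ω _ h h' => h ?_
      rw [hc0 ω h', zero_smul]
    rw [hfr0.2.2 z, h2, h3]
  have hzc' : ∀ v : W, γL v * z' = z' * γL v := by
    intro v
    have h1 : γL v * z' * γL v⁻¹ = z' := by
      rw [hz', Finset.mul_sum, Finset.sum_mul, Finset.sum_congr rfl fun ω _ => hav v ω]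
      exact Fintype.sum_equiv (MulAction.toPerm v) _ _ fun ω => rfl
    calc γL v * z' = γL v * z' * (γL v⁻¹ * γL v) := by
          rw [← map_mul, inv_mul_cancel, map_one, mul_one]
      _ = γL v * z' * γL v⁻¹ * γL v := by rw [← mul_assoc]
      _ = z' * γL v := by rw [h1]
  -- the central lift
  obtain ⟨z1, hz1, hpz1⟩ := O.cen z hz
  obtain ⟨δ, hδ⟩ := O.ker (z1 - z') (by rw [map_sub, hpz1, hpz, sub_self])
  have hδ1 : z1 = z' + ℓ • δ := by rw [← hδ]; abel
  have hcomm : z' * δ = δ * z' := by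
    have h1 : ℓ • (z' * δ - δ * z') = 0 := by
      rw [smul_sub, ← mul_smul_comm, ← smul_mul_assoc, ← hδ, mul_sub, sub_mul, hz1]
      abel
    exact sub_eq_zero.1 (O.tf _ h1)
  -- the sizes
  obtain ⟨g, hg⟩ := IsPGroup.iff_card.1 hp
  rw [Nat.card_eq_fintype_card] at hg
  obtain ⟨m, d', hdd, hd'⟩ := O.sep d hd
  set k : ℕ := g + m with hk
  obtain ⟨y', hy'⟩ := hP ℓ L z' δ hcomm k
  rw [← hδ1] at hy'
  -- the trace
  let f : L →+ L :=
    { toFun := fun t => ∑ k, ∑ v : W, x k * γL v * t * (γL v⁻¹ * y k)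
      map_zero' := by simp
      map_add' := by
        intro t t'
        simp only [mul_add, add_mul, Finset.sum_add_distrib] }
  have hf : ∀ t, f t = ∑ k, ∑ v : W, x k * γL v * t * (γL v⁻¹ * y k) := fun t => rfl
  obtain ⟨u, hu⟩ := hV ℓ W (Mv Ω w) L L γL a f w k hp hav
    (fun t t' => full_trace γL lamL x y O.rf t t') (fun ω h => ω.2 (congrArg Subtype.val h))
  rw [← hz'] at hu
  have hzn : ∀ v : W, γL v * (γL w * z' ^ ℓ ^ k) = γL w * z' ^ ℓ ^ k * γL v := by
    intro v
    have h1 : Commute (γL v) z' := hzc' v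
    have h2 : Commute (γL v) (γL w) := by
      change γL v * γL w = γL w * γL v
      rw [← map_mul, ← map_mul, mul_comm]
    exact (h2.mul_right (h1.pow_right _)).eq
  have hf1 : f (γL w * z' ^ ℓ ^ k) =
      Fintype.card W • ∑ k', x k' * (γL w * z' ^ ℓ ^ k) * y k' := by
    rw [hf, Finset.smul_sum]
    refine Finset.sum_congr rfl fun k' _ => ?_
    have h1 : ∀ v ∈ (Finset.univ : Finset W),
        x k' * γL v * (γL w * z' ^ ℓ ^ k) * (γL v⁻¹ * y k') =
          x k' * (γL w * z' ^ ℓ ^ k) * y k' := by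
      intro v _
      rw [mul_assoc (x k'), hzn v, ← mul_assoc (x k'), mul_assoc _ (γL v), ← mul_assoc (γL v),
        ← map_mul, mul_inv_cancel, map_one, one_mul]
    rw [Finset.sum_congr rfl h1, Finset.sum_const, Finset.card_univ]
  -- the product with the central element
  have hz1n : ∀ t, z1 ^ ℓ ^ k * t = t * z1 ^ ℓ ^ k := by
    intro t
    exact ((show Commute z1 t from hz1 t).pow_left _).eq
  have hrt : ∑ k', x k' * (γL w * z1 ^ ℓ ^ k) * y k' =
      z1 ^ ℓ ^ k * ∑ k', x k' * γL w * y k' := by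
    rw [Finset.mul_sum]
    refine Finset.sum_congr rfl fun k' _ => ?_
    rw [← hz1n (γL w), ← mul_assoc, ← hz1n (x k')]
    simp only [mul_assoc]
  have hmain : ∃ y3 : L, Fintype.card W • (d • z1 ^ ℓ ^ k) = ℓ ^ (k + 1) • y3 := by
    refine ⟨r * (u + Fintype.card W • ∑ k', x k' * (γL w * y') * y k'), ?_⟩
    have h1 : ∑ k', x k' * (γL w * z1 ^ ℓ ^ k) * y k' =
        ∑ k', x k' * (γL w * z' ^ ℓ ^ k) * y k' +
          ℓ ^ (k + 1) • ∑ k', x k' * (γL w * y') * y k' := by
      rw [Finset.smul_sum, ← Finset.sum_add_distrib]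
      refine Finset.sum_congr rfl fun k' _ => ?_
      rw [hy', mul_add, mul_add, add_mul, mul_smul_comm, mul_smul_comm, smul_mul_assoc]
    have h2 : Fintype.card W • (z1 ^ ℓ ^ k * ∑ k', x k' * γL w * y k') =
        ℓ ^ (k + 1) • (u + Fintype.card W • ∑ k', x k' * (γL w * y') * y k') := by
      rw [← hrt, h1, smul_add, ← hf1, hu, smul_add, smul_comm (Fintype.card W)]
    have h3 : r * (z1 ^ ℓ ^ k * ∑ k', x k' * γL w * y k') = d • z1 ^ ℓ ^ k := by
      rw [← mul_assoc, ← hz1n r, mul_assoc, hr, mul_smul_comm, mul_one]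
    rw [← h3, ← mul_smul_comm, h2, mul_smul_comm]
  obtain ⟨y3, hy3⟩ := hmain
  have h4 : d' • z1 ^ ℓ ^ k = ℓ • y3 := by
    have h5 : ℓ ^ (g + m) • (d' • z1 ^ ℓ ^ k - ℓ • y3) = 0 := by
      rw [hg, hdd, mul_smul, ← Nat.cast_pow, Nat.cast_smul_eq_nsmul, smul_smul, ← pow_add, ← hk,
        pow_succ, mul_smul] at hy3
      rw [smul_sub, ← hk, hy3, sub_self]
    exact sub_eq_zero.1 (htf _ _ h5)
  have h5 : κ d' • z ^ ℓ ^ k = 0 := by
    have h6 := congrArg p h4
    rw [O.sc, map_pow, hpz1, hpn, ← Nat.cast_smul_eq_nsmul R, hl, zero_smul] at h6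
    exact h6
  refine ⟨ℓ ^ k, ?_⟩
  rw [← hfr0.2.2 (z ^ ℓ ^ k)]
  refine Finset.sum_eq_zero fun ω _ => ?_
  have h6 : κ d' * c₀ ω (z ^ ℓ ^ k) = 0 := by
    have h7 := congrArg (c₀ ω) h5
    rwa [map_smul, map_zero, smul_eq_mul] at h7
  rcases mul_eq_zero.1 h6 with h | h
  · exact absurd h hd'
  · rw [h, zero_smul]

end Pool.Agent.PST.U.H5
end
end -- Pool.Agent.Helper5_PST.NBL

section -- Pool.Agent.Helper92_PST.BOT

set_option autoImplicit false

open scoped BigOperators TensorProduct PowerSeries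

noncomputable section

namespace Pool.Agent.PST.U.H92

open Pool.Agent.PFC (tw IsTv)
open Pool.Agent.PFD.D2b (FrR)
open Pool.Agent.PSS
open Pool.Agent.PSS.S0
open Pool.Agent.PSS.S3
open Pool.Agent.PSS.H64 (bcf bcf_ap bw_t cw_t fx_t sm_t bcw_ap)
open Pool.Agent.PSS.H28 (fx_mul fx_mono)
open Pool.Agent.PST.U.H45 (fco fbk frS star eq_of_coef diag)

/-- a central element is fixed by conjugation -/
theorem cen_fx {R W A : Type} [CommRing R] [CommGroup W] [Ring A] [Algebra R A] (γ : W →* A)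
    {a : A} (ha : ∀ m, a * m = m * a) : a ∈ FxR (cw R γ) ⊤ := by
  intro w _
  change γ w * (a * γ w⁻¹) = a
  rw [ha, ← mul_assoc, ← map_mul, mul_inv_cancel, map_one, one_mul]

theorem bot (hLIX : LixStmt) (hCLC : ClcStmt) : BotStmt := by
  intro ℓ hp R S W E As _ _ _ _ _ _ _ _ _ _ ψ γ w₀ hinj hℓ hW hper hw0 hclo hnlw e hcen hid he
  have hefx : e ∈ FxR (cw S (bcw (R := R) (S := S) γ)) ⊤ := cen_fx _ hcen
  -- the element is in the Brauer kernel of `⟨w₀⟩`
  have hstep : ∀ Q : Subgroup W, w₀ ∈ Q → e ∈ BKR (cw S (bcw (R := R) (S := S) γ)) Q := by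
    intro Q
    induction Q using WellFoundedGT.induction with
    | ind Q ih =>
      intro hwQ
      by_cases hQ : Clo ψ Q
      · have hQt : Q = ⊤ := by
          rw [Subgroup.eq_top_iff']
          intro w
          refine hQ w fun ee hee => ?_
          rw [hw0 ee (hee w₀ hwQ)]
          rfl
        rw [hQt]
        exact he
      · have hV := hCLC ℓ R S W E As ψ γ hinj hℓ hW hper Q (hclo Q hQ)
        refine hV e hefx (fun Q' hQ' => ih Q' hQ' (hQ'.le hwQ)) fun m _ => ?_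
        rw [hcen m, sub_self]
        exact Submodule.zero_mem _
  have hP0 := hstep (Subgroup.zpowers w₀) (Subgroup.mem_zpowers w₀)
  obtain ⟨Ω, _, _, b, c, hfr⟩ := diag ψ γ hper
  have hfrS := frS (S := S) γ b c hfr
  have hℓS : (ℓ : S) = 0 := by rw [← map_natCast (algebraMap R S), hℓ, map_zero]
  obtain ⟨n, g, a, hg, rfl⟩ := hLIX R S As hinj e
  -- the coefficients are central
  have h1 : ∀ i m, a i * m = m * a i := by
    intro i m
    refine eq_of_coef γ b c hfr fun ω => ?_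
    refine star hg (fun i => a i * m - m * a i) (c ω) ?_ i
    have h4 := hcen ((1 : S) ⊗ₜ[R] m)
    rw [Finset.sum_mul, Finset.mul_sum, ← sub_eq_zero, ← Finset.sum_sub_distrib] at h4
    have h5 : ∑ i, g i ⊗ₜ[R] (a i * m - m * a i) =
        ∑ i, (g i ⊗ₜ[R] a i * (1 : S) ⊗ₜ[R] m - (1 : S) ⊗ₜ[R] m * g i ⊗ₜ[R] a i) := by
      refine Finset.sum_congr rfl fun i _ => ?_
      rw [Algebra.TensorProduct.tmul_mul_tmul, Algebra.TensorProduct.tmul_mul_tmul, one_mul,
        mul_one, TensorProduct.tmul_sub]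
    rw [h5, h4, map_zero]
  have h2 : ∀ i, a i ∈ FxR (cw R γ) ⊤ := fun i => cen_fx γ (h1 i)
  have h3 : ∀ i, a i ∈ BKR (cw R γ) (Subgroup.zpowers w₀) := by
    intro i
    refine fbk R W As Ω (cw R γ) b c hfr _ _ (fx_mono γ le_top (h2 i)) fun ω hω => ?_
    exact star hg a (c ω) (fco ℓ S W _ Ω _ _ _ hℓS hW hfrS _ _ hP0 ω hω) i
  have h4 : ∀ i, IsNilpotent (a i) := fun i => hnlw (a i) (h1 i) (h3 i)
  have h5 : IsNilpotent (∑ i, g i ⊗ₜ[R] a i) := by
    refine Commute.isNilpotent_sum (fun i _ => ?_) (fun i j _ _ => ?_)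
    · obtain ⟨k, hk⟩ := h4 i
      refine ⟨k, ?_⟩
      rw [Algebra.TensorProduct.tmul_pow, hk, TensorProduct.tmul_zero]
    · change g i ⊗ₜ[R] a i * g j ⊗ₜ[R] a j = g j ⊗ₜ[R] a j * g i ⊗ₜ[R] a i
      rw [Algebra.TensorProduct.tmul_mul_tmul, Algebra.TensorProduct.tmul_mul_tmul, h1 i (a j),
        mul_comm]
  obtain ⟨k, hk⟩ := h5
  have h6 : IsIdempotentElem (∑ i, g i ⊗ₜ[R] a i) := hid
  have h7 := h6.pow_succ_eq k
  rw [pow_succ, hk, zero_mul] at h7
  exact h7.symm

end Pool.Agent.PST.U.H92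
end
end -- Pool.Agent.Helper92_PST.BOT

section -- Pool.Agent.Helper62_PSS.NDA

/-!
# Squad PSS, block S2, row NDA: nondegeneracy modulo the Brauer kernel and the augmentation ideal
-/

set_option autoImplicit false

open scoped BigOperators

namespace Pool.Agent.PSS.S2.H62

open Pool.Agent.PFC (tw IsTv)
open Pool.Agent.PFD.D2b (FrR)
open Pool.Agent.PSS Pool.Agent.PSS.S2

/-- representatives of the left orbits -/
theorem exists_rep (V Ω : Type) [CommGroup V] [MulAction (V × V) Ω] :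
    ∃ (rep : Ω → Ω) (t : Ω → V), (∀ ω, ((t ω, 1) : V × V) • rep ω = ω) ∧
      ∀ (u : V) (ω : Ω), rep (((u, 1) : V × V) • ω) = rep ω := by
  classical
  let act : MulAction V Ω := MulAction.compHom Ω (MonoidHom.inl V V)
  have hact : ∀ (u : V) (ω : Ω), u • ω = ((u, 1) : V × V) • ω := fun _ _ => rfl
  let s : Setoid Ω := MulAction.orbitRel V Ω
  let rep : Ω → Ω := fun ω => (Quotient.mk s ω).out
  have h1 : ∀ ω, ∃ t : V, t • rep ω = ω := by
    intro ω
    have h2 : s.r (rep ω) ω := Quotient.mk_out (s := s) ω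
    obtain ⟨u, hu⟩ := (h2 : rep ω ∈ MulAction.orbit V ω)
    refine ⟨u⁻¹, ?_⟩
    rw [← hu]
    exact inv_smul_smul u ω
  choose t ht using h1
  refine ⟨rep, t, fun ω => ht ω, fun u ω => ?_⟩
  have h3 : Quotient.mk s (u • ω) = Quotient.mk s ω := by
    apply Quotient.sound
    exact ⟨u, rfl⟩
  show (Quotient.mk s (u • ω)).out = (Quotient.mk s ω).out
  rw [h3]

theorem nda : NdaStmt := by
  classical
  intro F V E A K Ω _ _ _ _ _ _ _ _ _ φ α lam x y b c a hRF hP ha hd
  obtain ⟨⟨hb, hc, hfr⟩, hst⟩ := hP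
  have nd : ∀ z : A, (∀ d, lam (z * d) = 0) → z = 0 := by
    intro z hz
    rw [← hRF.e1 z]
    refine Finset.sum_eq_zero fun k _ => Finset.sum_eq_zero fun v _ => ?_
    rw [hRF.sym, hz, zero_smul]
  have hbw : ∀ (u v : V) (m : A), bw F α (u, v) m = α u * m * α v⁻¹ := by
    intro u v m
    show α u * (m * α v⁻¹) = _
    rw [mul_assoc]
  have hb1 : ∀ (u : V) (ω : Ω), b (((u, 1) : V × V) • ω) = α u * b ω := by
    intro u ω
    rw [hb, hbw, inv_one, map_one, mul_one]
  have hcu : ∀ (u : V) (ω : Ω) (m : A), c ω (α u * m) = c (((u⁻¹, 1) : V × V) • ω) m := by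
    intro u ω m
    rw [← hc (u⁻¹, 1) ω (α u * m), hbw, inv_one, map_one, mul_one, ← mul_assoc, ← map_mul,
      inv_mul_cancel, map_one, one_mul]
  have hfree : ∀ (u : V) (ω : Ω), ((u, 1) : V × V) • ω = ω → u = 1 := by
    intro u ω h
    obtain ⟨e, S, hS⟩ := hst ω
    have h1 : ((u, 1) : V × V) ∈ MulAction.stabilizer (V × V) ω := h
    rw [hS] at h1
    obtain ⟨s, -, hs⟩ := h1
    have h2 : φ e s = u := congrArg Prod.fst hs
    have h3 : s = 1 := congrArg Prod.snd hs
    rw [← h2, h3, map_one]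
  have hcomm : ∀ (u v : V) (ω : Ω), (∀ v : V, ((v, v) : V × V) • ω = ω) →
      ((v, v) : V × V) • ((u, 1) : V × V) • ω = ((u, 1) : V × V) • ω := by
    intro u v ω h
    rw [smul_smul, mul_comm, ← smul_smul, h v]
  have hm : ∀ u : V, ((u⁻¹, 1) : V × V) * ((u, 1) : V × V) = 1 := by
    intro u
    exact Prod.ext (inv_mul_cancel u) (one_mul 1)
  -- the coefficients at a fixed point
  have h1 : ∀ ω : Ω, (∀ v : V, ((v, v) : V × V) • ω = ω) →
      ∑ u : V, c (((u, 1) : V × V) • ω) a = 0 := by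
    intro ω hω
    have hcc : ∀ (v : V) (d : A), c ω (α v * d) = c ω (d * α v) := by
      intro v d
      have h := hc (v, v) ω (d * α v)
      rw [hω, hbw] at h
      rw [← h, ← mul_assoc (α v) d, mul_assoc (α v * d) (α v), ← map_mul, mul_inv_cancel,
        map_one, mul_one]
    set ch : A := ∑ k, ∑ v, c ω (x k * α v) • (α v⁻¹ * y k) with hch
    have hl : ∀ d, lam (ch * d) = c ω d := by
      intro d
      conv_rhs => rw [← hRF.e1 d]
      simp only [hch, Finset.sum_mul, map_sum, smul_mul_assoc, map_smul, smul_eq_mul]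
      refine Finset.sum_congr rfl fun k _ => Finset.sum_congr rfl fun v _ => ?_
      rw [mul_comm]
    have hcv : CV α ch := by
      intro v
      have h := nd (α v * ch - ch * α v) (fun d => by
        rw [sub_mul, map_sub, mul_assoc (α v), hRF.sym (α v), mul_assoc ch d, hl,
          mul_assoc ch, hl, hcc, sub_self])
      exact sub_eq_zero.1 h
    have h2 := hd ch hcv
    rw [hRF.sym, hl] at h2
    have h3 : c ω (sg α * a) = ∑ u : V, c (((u⁻¹, 1) : V × V) • ω) a := by
      unfold sg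
      rw [Finset.sum_mul, map_sum]
      exact Finset.sum_congr rfl fun u _ => hcu u ω a
    rw [h3] at h2
    rw [← h2]
    exact (Equiv.sum_comp (Equiv.inv V) (fun u => c (((u, 1) : V × V) • ω) a)).symm
  -- the fixed points
  set O0 : Finset Ω := Finset.univ.filter fun ω => ∀ v : V, ((v, v) : V × V) • ω = ω with hO0
  have hmem : ∀ ω, ω ∈ O0 ↔ ∀ v : V, ((v, v) : V × V) • ω = ω := by
    intro ω
    rw [hO0, Finset.mem_filter]
    exact ⟨fun h => h.2, fun h => ⟨Finset.mem_univ _, h⟩⟩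
  have h4 : ∑ ω, c ω a • b ω - ∑ ω ∈ O0, c ω a • b ω ∈ BKR (cw F α) ⊤ := by
    let act : MulAction V Ω :=
      MulAction.compHom Ω (MonoidHom.prod (MonoidHom.id V) (MonoidHom.id V))
    refine Pool.Agent.PSS.H20.fpx F V A Ω (cw F α) ⊤ (fun ω => c ω a • b ω) O0 ?_ ?_
    · intro v _ ω
      show c (((v, v) : V × V) • ω) a • b (((v, v) : V × V) • ω) = bw F α (v, v) (c ω a • b ω)
      rw [map_smul, hb]
      congr 1
      have h := hc (v, v) ω a
      rw [hbw, ha v, mul_assoc, ← map_mul, mul_inv_cancel, map_one, mul_one] at h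
      exact h
    · intro ω
      rw [hmem]
      exact ⟨fun h v _ => h v, fun h v => h v (Subgroup.mem_top v)⟩
  have h5 : ∑ ω ∈ O0, c ω a • b ω ∈ AgI F α := by
    obtain ⟨rep, t, ht, hrep⟩ := exists_rep V Ω
    have hrr : ∀ ω, rep (rep ω) = rep ω := by
      intro ω
      rw [← hrep (t ω) (rep ω), ht]
    have hri : ∀ ω, rep ω = (((t ω)⁻¹, 1) : V × V) • ω := by
      intro ω
      calc rep ω = ((((t ω)⁻¹, 1) : V × V) * ((t ω, 1) : V × V)) • rep ω := by
            rw [hm, one_smul]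
        _ = (((t ω)⁻¹, 1) : V × V) • ω := by rw [mul_smul, ht]
    have hr0 : ∀ ω ∈ O0, rep ω ∈ O0 := by
      intro ω hω
      rw [hmem] at hω ⊢
      intro v
      rw [hri ω]
      exact hcomm _ v ω hω
    have e1 : ∑ ω ∈ O0, c ω a • b ω =
        ∑ ω ∈ O0, c ω a • ((α (t ω) - 1) * b (rep ω)) + ∑ ω ∈ O0, c ω a • b (rep ω) := by
      rw [← Finset.sum_add_distrib]
      refine Finset.sum_congr rfl fun ω _ => ?_
      rw [← smul_add, sub_mul, one_mul, sub_add_cancel, ← hb1, ht]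
    have e2 : ∑ ω ∈ O0, c ω a • b (rep ω) = 0 := by
      rw [← Finset.sum_fiberwise O0 rep]
      refine Finset.sum_eq_zero fun ρ _ => ?_
      have e3 : ∑ ω ∈ O0 with rep ω = ρ, c ω a • b (rep ω) =
          (∑ ω ∈ O0 with rep ω = ρ, c ω a) • b ρ := by
        rw [Finset.sum_smul]
        refine Finset.sum_congr rfl fun ω hω => ?_
        rw [(Finset.mem_filter.1 hω).2]
      rw [e3]
      by_cases hne : (O0.filter fun ω => rep ω = ρ).Nonempty
      · obtain ⟨ω0, hω0⟩ := hne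
        rw [Finset.mem_filter] at hω0
        have hρ : ρ ∈ O0 := by
          rw [← hω0.2]
          exact hr0 _ hω0.1
        have hρr : rep ρ = ρ := by
          rw [← hω0.2, hrr]
        have e4 : (O0.filter fun ω => rep ω = ρ) =
            Finset.univ.image fun u : V => ((u, 1) : V × V) • ρ := by
          ext ω
          rw [Finset.mem_filter, Finset.mem_image]
          constructor
          · rintro ⟨hω, h⟩
            refine ⟨t ω, Finset.mem_univ _, ?_⟩
            rw [← h, ht]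
          · rintro ⟨u, -, rfl⟩
            refine ⟨?_, ?_⟩
            · rw [hmem]
              intro v
              exact hcomm u v ρ ((hmem ρ).1 hρ)
            · rw [hrep, hρr]
        rw [e4, Finset.sum_image]
        · rw [h1 ρ ((hmem ρ).1 hρ), zero_smul]
        · intro u _ v _ huv
          have h : (((v⁻¹ * u, 1) : V × V)) • ρ = ρ := by
            have h' : ((v⁻¹ * u, 1) : V × V) = ((v⁻¹, 1) : V × V) * ((u, 1) : V × V) := by
              simp
            have huv' : ((u, 1) : V × V) • ρ = ((v, 1) : V × V) • ρ := huv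
            rw [h', ← smul_smul, huv', smul_smul, hm, one_smul]
          have h2 := hfree _ _ h
          exact (inv_mul_eq_one.1 h2).symm
      · rw [Finset.not_nonempty_iff_eq_empty] at hne
        rw [hne, Finset.sum_empty, zero_smul]
    rw [e1, e2, add_zero]
    refine Submodule.sum_mem _ fun ω hω => Submodule.smul_mem _ _ (Submodule.subset_span ?_)
    refine ⟨t ω, b (rep ω), ?_, rfl⟩
    intro v _
    show bw F α (v, v) (b (rep ω)) = b (rep ω)
    rw [← hb, (hmem _).1 (hr0 ω hω) v]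
  rw [hfr a] at h4
  have h6 : a = (a - ∑ ω ∈ O0, c ω a • b ω) + ∑ ω ∈ O0, c ω a • b ω := by abel
  rw [h6]
  exact Submodule.add_mem_sup h4 h5

end Pool.Agent.PSS.S2.H62
end -- Pool.Agent.Helper62_PSS.NDA
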