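import Pool.Agent.Helper12_AWB.B008
import Pool.Agent.Helper12_AWB.B019

/-!
# Merged copies (generated) of the modules

* `Pool.Agent.PSS.Ats`
* `Pool.Agent.PSS.Trv`
* `Pool.Agent.PSS.Atg`
* `Pool.Agent.Helper80_PSS.ZRT`
* `Pool.Agent.Helper84_PSS.RFE`
* `Pool.Agent.Helper63_PSS.FUN`
* `Pool.Agent.Helper75_PSS.SPF`
* `Pool.Agent.Helper85_PSS.LKX`
* `Pool.Agent.Helper92_PSS.TRA`
* `Pool.Agent.Helper92_PSS.FMX`
* `Pool.Agent.Helper8_PST.NZD`
* `Pool.Agent.Helper60_PSS.TPF`
* `Pool.Agent.PSS.StmtsS2b`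
* `Pool.Agent.Helper75_PSS.DRT`
* `Pool.Agent.PSS.StmtsS2c`
* `Pool.Agent.Helper75_PSS.DTP`
* `Pool.Agent.PSS.Stp`
-/

set_option autoImplicit false

section -- Pool.Agent.PSS.Ats

/-!
# Squad PSS: the theorem for algebras from the step and the base case
-/

noncomputable section

namespace Pool.Agent.PSS

/-- transport of an action along an isomorphism -/
def trA {V U E : Type} [Group V] [Group U] [Group E] (s : V ≃* U) (φ : E →* MulAut V) :
    E →* MulAut U where
  toFun := fun e => (s.symm.trans (φ e)).trans s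
  map_one' := by
    ext u
    simp
  map_mul' := by
    intro e f
    ext u
    simp

theorem trA_apply {V U E : Type} [Group V] [Group U] [Group E] (s : V ≃* U)
    (φ : E →* MulAut V) (e : E) (u : U) : trA s φ e u = s (φ e (s.symm u)) := rfl

theorem Fre.tr {V U E : Type} [CommGroup V] [CommGroup U] [Group E] (s : V ≃* U)
    {φ : E →* MulAut V} {ψ : E →* MulAut U} (h : ∀ e v, ψ e (s v) = s (φ e v))
    (hf : Fre φ) : Fre ψ := by
  obtain ⟨P, Q, h0, h1, h2, h3, h4⟩ := hf
  have key : ∀ e (u : U), ψ e u = s (φ e (s.symm u)) := by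
    intro e u
    have := h e (s.symm u)
    rwa [s.apply_symm_apply] at this
  refine ⟨P.map s.toMonoidHom, Q.map s.toMonoidHom, ?_, ?_, ?_, ?_, ?_⟩
  · intro hP
    apply h0
    rw [Subgroup.map_eq_bot_iff] at hP
    rw [eq_bot_iff]
    intro x hx
    have hx' := hP hx
    rw [MonoidHom.mem_ker] at hx'
    exact Subgroup.mem_bot.2 (s.injective (by
      rw [map_one]
      exact hx'))
  · constructor
    · rw [disjoint_iff]
      rw [eq_bot_iff]
      rintro x ⟨⟨a, ha, rfl⟩, ⟨b, hb, hab⟩⟩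
      have hab' : b = a := s.injective hab
      subst hab'
      have hd := Subgroup.mem_bot.1 (h1.disjoint.le_bot ⟨ha, hb⟩)
      subst hd
      exact Subgroup.mem_bot.2 (map_one _)
    · rw [codisjoint_iff]
      rw [← Subgroup.map_sup, h1.sup_eq_top]
      exact Subgroup.map_top_of_surjective _ s.surjective
  · rintro e _ ⟨u, hu, rfl⟩
    exact ⟨φ e u, h2 e u hu, (h e u).symm⟩
  · rintro e _ ⟨u, hu, rfl⟩
    exact ⟨φ e u, h3 e u hu, (h e u).symm⟩
  · rintro e _ ⟨u, hu, rfl⟩ hn hfx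
    have hu1 : u ≠ 1 := by
      rintro rfl
      exact hn (map_one _)
    have hfu : φ e u = u := by
      apply s.injective
      rw [← h e u]
      exact hfx
    have := h4 e u hu hu1 hfu
    ext v
    rw [key, this]
    simp

theorem ats (stp : StpStmt) (bas : BasStmt) : AtsStmt := by
  intro n
  induction n with
  | zero =>
    intro ℓ _ F V E A B _ _ _ _ _ _ _ _ _ _ _ φ α W ψ hp hE hc hr hw hA hB
    change W = ⊤ at hc
    subst hc
    refine bas ℓ F V E A B φ α hp hE ?_ hA hB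
    rcases hw with hw | hw
    · left
      have : Subsingleton V := by
        constructor
        intro a b
        have ha : a ∈ (⊥ : Subgroup V) := hw ▸ Subgroup.mem_top a
        have hb : b ∈ (⊥ : Subgroup V) := hw ▸ Subgroup.mem_top b
        rw [Subgroup.mem_bot.1 ha, Subgroup.mem_bot.1 hb]
      exact Nat.card_unique
    · right
      refine Fre.tr (Subgroup.topEquiv (G := V)) (φ := ψ) (ψ := φ) ?_ hw
      intro e v
      exact (hr e v).symm
  | succ n ih =>
    intro ℓ _ F V E A B _ _ _ _ _ _ _ _ _ _ _ φ α W ψ hp hE hc hr hw hA hB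
    obtain ⟨Y, W', ψ', hY, hWW, hr', hc'⟩ := hc
    have hst : ∀ e : E, ∀ w ∈ W, φ e w ∈ W := by
      intro e w hw'
      have := hr e ⟨w, hw'⟩
      rw [← this]
      exact (ψ e ⟨w, hw'⟩).2
    have : Fintype W' := Fintype.ofFinite W'
    obtain ⟨F', C, B', i1, i2, i3, i4, i5, i6, i7, γ, nw, hC, h1, h2⟩ :=
      stp ℓ F V E A B φ α Y W' W ψ' hp hE hY hr' hWW hst hA hB
    let s : W ≃* (W.subgroupOf W') := (Subgroup.subgroupOfEquivOfLe hWW).symm
    have hs : ∀ w : W, (((s w : W.subgroupOf W') : W') : V) = w := by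
      intro w
      rfl
    have hrs : IsRs ψ' (W.subgroupOf W') (trA s ψ) := by
      intro e w
      apply Subtype.ext
      rw [hr']
      obtain ⟨v, rfl⟩ := s.surjective w
      rw [trA_apply, s.symm_apply_apply, hs, hs]
      exact hr e v
    have hfin := ih ℓ F' W' E C B' ψ' γ (W.subgroupOf W') (trA s ψ)
      (hp.to_subgroup W') hE hc' hrs ?_ hC nw
    · rw [← h1, ← h2]
      exact hfin
    · rcases hw with hw | hw
      · left
        subst hw
        exact Subgroup.bot_subgroupOf W'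
      · right
        refine Fre.tr s (φ := ψ) ?_ hw
        intro e v
        rw [trA_apply, s.symm_apply_apply]

end Pool.Agent.PSS
end
end -- Pool.Agent.PSS.Ats

section -- Pool.Agent.PSS.Trv

/-!
# Squad PSS, row TRV: transport along an isomorphism of groups, and the step for a trivial factor
-/

open scoped BigOperators

noncomputable section

namespace Pool.Agent.PSS

open Pool.Agent.PFC (tw IsTv)
open Pool.Agent.PFD.D2b (FrR)

section

variable {R U V A : Type} [CommRing R] [CommGroup U] [CommGroup V] [Ring A] [Algebra R A]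

/-- the group `U → A` -/
def ptr (s : U ≃* V) (α : V →* A) : U →* A := α.comp s.toMonoidHom

/-- `s × s` -/
def ss (s : U ≃* V) : U × U →* V × V := s.toMonoidHom.prodMap s.toMonoidHom

theorem ss_inj (s : U ≃* V) : Function.Injective (ss s) := by
  rintro ⟨a, b⟩ ⟨c, d⟩ h
  have h1 : s a = s c := congrArg Prod.fst h
  have h2 : s b = s d := congrArg Prod.snd h
  rw [s.injective h1, s.injective h2]

theorem ptr_apply (s : U ≃* V) (α : V →* A) (u : U) : ptr s α u = α (s u) := rfl

theorem bw_ptr (s : U ≃* V) (α : V →* A) : bw R (ptr s α) = (bw R α).comp (ss s) := by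
  ext ⟨a, b⟩ x
  change α (s a) * (x * α (s b⁻¹)) = α (s a) * (x * α (s b)⁻¹)
  rw [map_inv s]

theorem cw_ptr (s : U ≃* V) (α : V →* A) : cw R (ptr s α) = (cw R α).comp s.toMonoidHom := by
  ext a x
  change α (s a) * (x * α (s a⁻¹)) = α (s a) * (x * α (s a)⁻¹)
  rw [map_inv s]

theorem Per.ptr {E : Type} [Group E] {φ : E →* MulAut V} {ψ : E →* MulAut U} {α : V →* A}
    (h : Per R φ α) (s : U ≃* V) (hs : ∀ e u, s (ψ e u) = φ e (s u)) :
    Per R ψ (PSS.ptr s α) := by
  obtain ⟨Ω, i1, i2, b, c, hf, hst⟩ := h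
  refine ⟨Ω, i1, MulAction.compHom Ω (ss s), b, c, ⟨?_, ?_, hf.2.2⟩, ?_⟩
  · intro g t
    rw [bw_ptr]
    exact hf.1 (ss s g) t
  · intro g t n
    rw [bw_ptr]
    exact hf.2.1 (ss s g) t n
  · intro ω
    obtain ⟨e, S, he⟩ := hst ω
    refine ⟨e, S.comap s.toMonoidHom, ?_⟩
    ext ⟨a, b⟩
    have h1 : (a, b) ∈ @MulAction.stabilizer (U × U) Ω _ (MulAction.compHom Ω (ss s)) ω ↔
        ss s (a, b) ∈ MulAction.stabilizer (V × V) ω := Iff.rfl
    rw [h1, he]
    constructor
    · rintro ⟨v, hv, hv'⟩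
      have h2 : φ e v = s a := congrArg Prod.fst hv'
      have h3 : v = s b := congrArg Prod.snd hv'
      subst h3
      refine ⟨b, hv, ?_⟩
      have h4 : ψ e b = a := by
        apply s.injective
        rw [hs, h2]
      change (ψ e b, b) = (a, b)
      rw [h4]
    · rintro ⟨u, hu, hu'⟩
      have h2 : ψ e u = a := congrArg Prod.fst hu'
      have h3 : u = b := congrArg Prod.snd hu'
      subst h3
      refine ⟨s u, hu, ?_⟩
      change (φ e (s u), s u) = (s a, s u)
      rw [← h2, hs]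

theorem RF.ptr [Fintype U] [Fintype V] {α : V →* A} {lam : A →ₗ[R] R} {K : Type} [Fintype K]
    {x y : K → A} (h : RF R α lam x y) (s : U ≃* V) : RF R (PSS.ptr s α) lam x y := by
  refine ⟨h.sym, ?_, ?_⟩
  · intro a
    refine Eq.trans ?_ (h.e1 a)
    refine Finset.sum_congr rfl fun k _ => ?_
    refine Fintype.sum_equiv s.toEquiv _ _ fun u => ?_
    change lam (α (s u⁻¹) * y k * a) • (x k * α (s u)) = lam (α (s u)⁻¹ * y k * a) • (x k * α (s u))
    rw [map_inv s]
  · intro a
    refine Eq.trans ?_ (h.e2 a)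
    refine Finset.sum_congr rfl fun k _ => ?_
    refine Fintype.sum_equiv s.toEquiv _ _ fun u => ?_
    change lam (a * (x k * α (s u))) • (α (s u⁻¹) * y k) =
      lam (a * (x k * α (s u))) • (α (s u)⁻¹ * y k)
    rw [map_inv s]

theorem Cl.ptr {F V U E A : Type} [Field F] [CommGroup V] [Fintype V] [CommGroup U] [Fintype U]
    [Group E] [Ring A] [Algebra F A] {φ : E →* MulAut V} {ψ : E →* MulAut U} {α : V →* A}
    (h : Cl F φ α) (s : U ≃* V) (hs : ∀ e u, s (ψ e u) = φ e (s u)) :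
    Cl F ψ (PSS.ptr s α) := by
  refine ⟨h.fin, h.per.ptr s hs, ?_, ?_, ?_⟩
  · intro e
    obtain ⟨y, y', h1, h2, h3⟩ := h.uni e
    refine ⟨y, y', h1, h2, ?_⟩
    intro u
    rw [ptr_apply, ptr_apply, hs]
    exact h3 (s u)
  · obtain ⟨lam, K, i, x, y, h1, h2⟩ := h.rt
    exact ⟨lam, K, i, x, y, h1.ptr s, h2⟩
  · intro Q e he h1 h2 h3
    have hF : ∀ P : Subgroup U, FxR (cw F (PSS.ptr s α)) P =
        FxR (cw F α) (P.map s.toMonoidHom) := by
      intro P
      rw [cw_ptr, FxR_map]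
    have hB : ∀ P : Subgroup U, BKR (cw F (PSS.ptr s α)) P =
        BKR (cw F α) (P.map s.toMonoidHom) := by
      intro P
      rw [cw_ptr, BKR_map _ (f := s.toMonoidHom) s.injective]
    have ht : (⊤ : Subgroup U).map s.toMonoidHom = ⊤ :=
      Subgroup.map_top_of_surjective _ s.surjective
    rw [hF, ht] at he
    rw [hB] at h1 h3 ⊢
    rw [ht] at h3
    refine h.blk _ e he h1 ?_ h3
    intro a ha
    rw [← hB]
    apply h2
    rw [hF]
    exact ha

/-- the isomorphism `W' ≃ W` -/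
def trs (s : U ≃* V) (W : Subgroup V) : W.comap s.toMonoidHom ≃* W where
  toFun := fun u => ⟨s u, u.2⟩
  invFun := fun v => ⟨s.symm v, by
    rw [Subgroup.mem_comap]
    change s (s.symm v) ∈ W
    rw [s.apply_symm_apply]
    exact v.2⟩
  left_inv := by
    intro u
    apply Subtype.ext
    exact s.symm_apply_apply _
  right_inv := by
    intro v
    apply Subtype.ext
    exact s.apply_symm_apply _
  map_mul' := by
    intro a b
    apply Subtype.ext
    exact map_mul s _ _

theorem twW_tr (s : U ≃* V) (W : Subgroup V) (δ : MulAut (W.comap s.toMonoidHom)) :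
    (twW (W.comap s.toMonoidHom) δ).map (ss s) = twW W (MulAut.congr (trs s W) δ) := by
  ext ⟨a, b⟩
  constructor
  · rintro ⟨_, ⟨w, rfl⟩, h⟩
    refine ⟨trs s W w, ?_⟩
    rw [← h]
    have : (MulAut.congr (trs s W)) δ (trs s W w) = trs s W (δ w) := by
      change trs s W (δ ((trs s W).symm (trs s W w))) = _
      rw [MulEquiv.symm_apply_apply]
    change ((((MulAut.congr (trs s W)) δ (trs s W w) : W) : V), ((trs s W w : W) : V)) = _
    rw [this]
    rfl
  · rintro ⟨w, h⟩
    obtain ⟨v, rfl⟩ := (trs s W).surjective w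
    refine ⟨_, ⟨v, rfl⟩, ?_⟩
    rw [← h]
    have : (MulAut.congr (trs s W)) δ (trs s W v) = trs s W (δ v) := by
      change trs s W (δ ((trs s W).symm (trs s W v))) = _
      rw [MulEquiv.symm_apply_apply]
    change _ = ((((MulAut.congr (trs s W)) δ (trs s W v) : W) : V), ((trs s W v : W) : V))
    rw [this]
    rfl

/-- `N_W(A)` and an isomorphism of the groups -/
def IsNW.ptr {α : V →* A} {W : Subgroup V} {B : Type} [Ring B] [Algebra R B]
    (N : IsNW R α W B) (s : U ≃* V) : IsNW R (PSS.ptr s α) (W.comap s.toMonoidHom) B := by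
  have hF : ∀ δ : MulAut (W.comap s.toMonoidHom),
      FxR (bw R (PSS.ptr s α)) (twW (W.comap s.toMonoidHom) δ) =
        FxR (bw R α) (twW W (MulAut.congr (trs s W) δ)) := by
    intro δ
    rw [bw_ptr, ← FxR_map, twW_tr]
  have hB : ∀ δ : MulAut (W.comap s.toMonoidHom),
      BKR (bw R (PSS.ptr s α)) (twW (W.comap s.toMonoidHom) δ) =
        BKR (bw R α) (twW W (MulAut.congr (trs s W) δ)) := by
    intro δ
    rw [bw_ptr, ← BKR_map _ (ss_inj s), twW_tr]
  have hcg : ∀ ε, (MulAut.congr (trs s W)) ((MulAut.congr (trs s W)).symm ε) = ε := fun ε =>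
    (MulAut.congr (trs s W)).apply_symm_apply ε
  refine
    { β := fun δ => N.β (MulAut.congr (trs s W) δ)
      one := ?_
      mul := ?_
      ker := ?_
      ind := ?_
      spn := ?_ }
  · have h1 : MulAut.congr (trs s W) 1 = 1 := map_one _
    rw [h1]
    exact N.one
  · intro ε δ a ha b hb
    rw [hF] at ha hb
    have h1 : MulAut.congr (trs s W) (ε * δ) =
      MulAut.congr (trs s W) ε * MulAut.congr (trs s W) δ := map_mul _ _ _
    rw [h1]
    exact N.mul _ _ a ha b hb
  · intro ε a ha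
    rw [hF] at ha
    rw [hB]
    exact N.ker _ a ha
  · intro f hf h
    have h1 := N.ind (fun ε => f ((MulAut.congr (trs s W)).symm ε)) (by
      intro ε
      have := hf ((MulAut.congr (trs s W)).symm ε)
      rw [hF, hcg] at this
      exact this) (by
      rw [← h, ← finsum_comp_equiv (MulAut.congr (trs s W)).toEquiv]
      refine finsum_congr fun δ => ?_
      change N.β (MulAut.congr (trs s W) δ)
        (f ((MulAut.congr (trs s W)).symm (MulAut.congr (trs s W) δ))) = _
      rw [MulEquiv.symm_apply_apply])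
    intro δ
    have h2 := h1 (MulAut.congr (trs s W) δ)
    rw [MulEquiv.symm_apply_apply] at h2
    exact h2
  · intro b
    obtain ⟨f, hf, hb⟩ := N.spn b
    refine ⟨fun δ => f (MulAut.congr (trs s W) δ), ?_, ?_⟩
    · intro δ
      rw [hF]
      exact hf _
    · rw [← hb]
      exact finsum_comp_equiv (MulAut.congr (trs s W)).toEquiv (f := fun ε => N.β ε (f ε))

end

/-- TRV: the step for `Y = ⊥` -/
theorem trv (ℓ : ℕ) [Fact ℓ.Prime] (F V E A B : Type) [Field F] [IsAlgClosed F] [CharP F ℓ]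
    [CommGroup V] [Fintype V] [Group E] [Ring A] [Algebra F A] [Ring B] [Algebra F B]
    (φ : E →* MulAut V) (α : V →* A) (W' W : Subgroup V) [Fintype W'] (ψ : E →* MulAut W')
    (hW' : W' = ⊤) (hr : IsRs φ W' ψ) (hA : Cl F φ α) (N : IsNW F α W B) :
    ∃ (F' C B' : Type) (_ : Field F') (_ : IsAlgClosed F') (_ : CharP F' ℓ) (_ : Ring C)
      (_ : Algebra F' C) (_ : Ring B') (_ : Algebra F' B') (γ : W' →* C)
      (_ : IsNW F' γ (W.subgroupOf W') B'), Cl F' ψ γ ∧
      Module.finrank F' (Subalgebra.center F' C) = Module.finrank F (Subalgebra.center F A) ∧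
      Module.finrank F' (Subalgebra.center F' B') = Module.finrank F (Subalgebra.center F B) := by
  subst hW'
  let s : (⊤ : Subgroup V) ≃* V := Subgroup.topEquiv
  refine ⟨F, A, B, inferInstance, inferInstance, inferInstance, inferInstance, inferInstance,
    inferInstance, inferInstance, ptr s α, ?_, ?_, rfl, rfl⟩
  · exact N.ptr s
  · exact hA.ptr s (fun e u => hr e u)

end Pool.Agent.PSS
end
end -- Pool.Agent.PSS.Trv

section -- Pool.Agent.PSS.Atg

/-!
# Squad PSS: the iteration of the step with an arbitrary base case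
-/

noncomputable section

namespace Pool.Agent.PSS

/-- A property of a group with an action and a subgroup. -/
abbrev PrV : Type 1 :=
  ∀ (V E : Type) [CommGroup V] [Group E] (_ : E →* MulAut V) (_ : Subgroup V), Prop

/-- `P` is invariant under isomorphisms. -/
def PrV.Inv (P : PrV) : Prop :=
  ∀ (V U E : Type) [CommGroup V] [CommGroup U] [Group E] (φ : E →* MulAut V)
    (ψ : E →* MulAut U) (W : Subgroup V) (s : U ≃* V), (∀ e u, s (ψ e u) = φ e (s u)) →
    P V E φ W → P U E ψ (W.comap s.toMonoidHom)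

/-- The base case for the property `P`. -/
def BsgStmt (P : PrV) : Prop :=
  ∀ (ℓ : ℕ) [Fact ℓ.Prime] (F V E A B : Type) [Field F] [IsAlgClosed F] [CharP F ℓ]
    [CommGroup V] [Fintype V] [Group E] [Fintype E] [Ring A] [Algebra F A] [Ring B] [Algebra F B]
    (φ : E →* MulAut V) (α : V →* A) (W : Subgroup V),
    IsPGroup ℓ V → ¬ ℓ ∣ Nat.card E → P V E φ W → Cl F φ α → IsNW F α W B →
    Module.finrank F (Subalgebra.center F A) = Module.finrank F (Subalgebra.center F B)

/-- The theorem for algebras, with the property `P`: `V` is the product of `n` cyclic factors and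
of `T`, and `T`, `W ≤ T` have the property `P`. -/
def AtgStmt (P : PrV) : Prop :=
  ∀ (n ℓ : ℕ) [Fact ℓ.Prime] (F V E A B : Type) [Field F] [IsAlgClosed F] [CharP F ℓ]
    [CommGroup V] [Fintype V] [Group E] [Fintype E] [Ring A] [Algebra F A] [Ring B] [Algebra F B]
    (φ : E →* MulAut V) (α : V →* A) (T W : Subgroup V) (ψ : E →* MulAut T),
    IsPGroup ℓ V → ¬ ℓ ∣ Nat.card E → W ≤ T → (∀ e : E, ∀ w ∈ W, φ e w ∈ W) →
    Cyp n V E φ T → IsRs φ T ψ → P T E ψ (W.subgroupOf T) → Cl F φ α → IsNW F α W B →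
    Module.finrank F (Subalgebra.center F A) = Module.finrank F (Subalgebra.center F B)

theorem atg (P : PrV) (hP : P.Inv) (stp : StpStmt) (bas : BsgStmt P) : AtgStmt P := by
  intro n
  induction n with
  | zero =>
    intro ℓ _ F V E A B _ _ _ _ _ _ _ _ _ _ _ φ α T W ψ hp hE hWT hst hc hr hw hA hB
    change T = ⊤ at hc
    subst hc
    have h1 := hP (⊤ : Subgroup V) V E ψ φ (W.subgroupOf ⊤)
      (Subgroup.topEquiv (G := V)).symm (by
        intro e v
        apply Subtype.ext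
        exact (hr e ⟨v, Subgroup.mem_top v⟩).symm) hw
    have h2 : (W.subgroupOf ⊤).comap (Subgroup.topEquiv (G := V)).symm.toMonoidHom = W := by
      ext v
      exact Iff.rfl
    rw [h2] at h1
    exact bas ℓ F V E A B φ α W hp hE h1 hA hB
  | succ n ih =>
    intro ℓ _ F V E A B _ _ _ _ _ _ _ _ _ _ _ φ α T W ψ hp hE hWT hst hc hr hw hA hB
    obtain ⟨Y, W', ψ', hY, hTW, hr', hc'⟩ := hc
    have : Fintype W' := Fintype.ofFinite W'
    have hWW : W ≤ W' := hWT.trans hTW
    obtain ⟨F', C, B', i1, i2, i3, i4, i5, i6, i7, γ, nw, hC, h1, h2⟩ :=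
      stp ℓ F V E A B φ α Y W' W ψ' hp hE hY hr' hWW hst hA hB
    let s : T ≃* (T.subgroupOf W') := (Subgroup.subgroupOfEquivOfLe hTW).symm
    have hs : ∀ w : T, (((s w : T.subgroupOf W') : W') : V) = w := by
      intro w
      rfl
    have hrs : IsRs ψ' (T.subgroupOf W') (trA s ψ) := by
      intro e w
      apply Subtype.ext
      rw [hr']
      obtain ⟨v, rfl⟩ := s.surjective w
      rw [trA_apply, s.symm_apply_apply, hs, hs]
      exact hr e v
    have hfin := ih ℓ F' W' E C B' ψ' γ (T.subgroupOf W') (W.subgroupOf W') (trA s ψ)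
      (hp.to_subgroup W') hE ?_ ?_ hc' hrs ?_ hC nw
    · rw [← h1, ← h2]
      exact hfin
    · intro w hw
      exact hWT hw
    · intro e w hw'
      change ((ψ' e w : W') : V) ∈ W
      rw [hr']
      exact hst e _ hw'
    · have h3 := hP T (T.subgroupOf W') E ψ (trA s ψ) (W.subgroupOf T) s.symm (by
        intro e u
        obtain ⟨v, rfl⟩ := s.surjective u
        rw [trA_apply, s.symm_apply_apply, s.symm_apply_apply]) hw
      have h4 : (W.subgroupOf T).comap s.symm.toMonoidHom =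
          (W.subgroupOf W').subgroupOf (T.subgroupOf W') := by
        ext u
        obtain ⟨v, rfl⟩ := s.surjective u
        change ((s.symm (s v) : T) : V) ∈ W ↔ (((s v : T.subgroupOf W') : W') : V) ∈ W
        rw [s.symm_apply_apply, hs]
      rw [h4] at h3
      exact h3

end Pool.Agent.PSS
end
end -- Pool.Agent.PSS.Atg

section -- Pool.Agent.Helper80_PSS.ZRT

/-!
# Row ZRT of squad PSS: the transfer is central
-/

open scoped BigOperators

namespace Pool.Agent.PSS.S0.H80

open Pool.Agent.PSS Pool.Agent.PSS.S0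

theorem comm_of_fx {R V A : Type} [CommRing R] [CommGroup V] [Ring A] [Algebra R A]
    (α : V →* A) (a : A) (ha : a ∈ FxR (cw R α) ⊤) (v : V) : α v * a = a * α v := by
  have h : α v * (a * α v⁻¹) = a := ha v (Subgroup.mem_top v)
  have h2 : α v * (a * α v⁻¹) * α v = a * α v := by rw [h]
  rw [← h2, mul_assoc, mul_assoc, ← map_mul, inv_mul_cancel, map_one, mul_one]

theorem zrt : ZrtStmt := by
  intro R V A K _ _ _ _ _ _ α lam x y hF a ha c
  have hc : ∀ v, α v * a = a * α v := comm_of_fx α a ha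
  have h1 : ∀ k, c * (x k * a * y k) =
      ∑ l, x l * a * ∑ v, lam (α v⁻¹ * y l * (c * x k)) • (α v * y k) := by
    intro k
    have e := hF.e1 (c * x k)
    calc c * (x k * a * y k) = (c * x k) * (a * y k) := by simp only [mul_assoc]
      _ = (∑ l, ∑ v, lam (α v⁻¹ * y l * (c * x k)) • (x l * α v)) * (a * y k) := by rw [e]
      _ = _ := by
        rw [Finset.sum_mul]
        refine Finset.sum_congr rfl fun l _ => ?_
        rw [Finset.sum_mul, Finset.mul_sum]
        refine Finset.sum_congr rfl fun v _ => ?_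
        rw [smul_mul_assoc, mul_smul_comm]
        congr 1
        calc x l * α v * (a * y k) = x l * (α v * a) * y k := by simp only [mul_assoc]
          _ = x l * a * (α v * y k) := by rw [hc v]; simp only [mul_assoc]
  have h2 : ∀ l, ∑ k, ∑ v, lam (α v⁻¹ * y l * (c * x k)) • (α v * y k) = y l * c := by
    intro l
    rw [← hF.e2 (y l * c)]
    refine Finset.sum_congr rfl fun k _ => ?_
    refine Fintype.sum_equiv (Equiv.inv V) _ _ fun v => ?_
    simp only [Equiv.inv_apply, inv_inv]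
    congr 1
    rw [mul_assoc, hF.sym (α v⁻¹)]
    simp only [mul_assoc]
  rw [Finset.mul_sum, Finset.sum_mul]
  simp only [h1]
  rw [Finset.sum_comm]
  refine Finset.sum_congr rfl fun l _ => ?_
  rw [← Finset.mul_sum, h2 l]
  simp only [mul_assoc]

end Pool.Agent.PSS.S0.H80
end -- Pool.Agent.Helper80_PSS.ZRT

section -- Pool.Agent.Helper84_PSS.RFE

/-! RFE: the second identity follows from the first. -/

set_option autoImplicit false

open scoped BigOperators TensorProduct

noncomputable section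

namespace Pool.Agent.PSS.H84

theorem rfe : RfeStmt := by
  intro k V A K _ _ _ _ _ _ α lam x y hs h1
  have nd : ∀ d, (∀ a, lam (d * a) = 0) → d = 0 := by
    intro d hd
    rw [← h1 d]
    refine Finset.sum_eq_zero fun i _ => Finset.sum_eq_zero fun v _ => ?_
    rw [hs, hd, zero_smul]
  have key : ∀ (f : A →ₗ[k] k) (a : A),
      lam ((∑ i, ∑ v, f (x i * α v) • (α v⁻¹ * y i)) * a) = f a := by
    intro f a
    conv_rhs => rw [← h1 a]
    rw [Finset.sum_mul, map_sum, map_sum]
    refine Finset.sum_congr rfl fun i _ => ?_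
    rw [Finset.sum_mul, map_sum, map_sum]
    refine Finset.sum_congr rfl fun v _ => ?_
    rw [smul_mul_assoc, map_smul, map_smul, smul_eq_mul, smul_eq_mul, mul_comm]
  refine ⟨⟨hs, h1, fun a => ?_⟩, nd, fun f => ⟨_, fun a => (key f a).symm⟩⟩
  have h2 : (∑ i, ∑ v, lam (a * (x i * α v)) • (α v⁻¹ * y i)) - a = 0 := by
    refine nd _ fun b => ?_
    have h3 := key (lam.comp (LinearMap.mulLeft k a)) b
    simp only [LinearMap.comp_apply, LinearMap.mulLeft_apply] at h3
    rw [sub_mul, map_sub, h3, sub_self]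
  exact sub_eq_zero.1 h2

end Pool.Agent.PSS.H84
end
end -- Pool.Agent.Helper84_PSS.RFE

section -- Pool.Agent.Helper63_PSS.FUN

/-!
# Squad PSS, row FUN: linear forms on the ring of a deformation
-/

open scoped BigOperators

noncomputable section

namespace Pool.Agent.PSS.H63

open Finset
open Dm (cst smulq)

section lin

variable {k A W : Type} [CommRing k] [Ring A] [Algebra k A] [Group W] {om : W →* A}
  (D : Dm k om)

theorem smulq_X (f : ℕ → A) :
    smulq (PowerSeries.X : PowerSeries k) f = fun n => if n = 0 then 0 else f (n - 1) := by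
  funext n
  rw [smulq]
  rcases n with _ | n
  · simp
  · rw [Finset.sum_eq_single (1, n)]
    · simp
    · rintro ⟨a, b⟩ h hne
      rw [Finset.HasAntidiagonal.mem_antidiagonal] at h
      simp only at h
      rw [PowerSeries.coeff_X, if_neg, zero_smul]
      intro h1
      simp only at h1
      apply hne
      rw [h1] at h ⊢
      have : b = n := by omega
      rw [this]
    · intro h
      exact absurd (by rw [Finset.HasAntidiagonal.mem_antidiagonal]; simp only; omega) h

theorem smulq_C (c : k) (a : A) : smulq (PowerSeries.C c : PowerSeries k) (cst a) = cst (c • a) := by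
  funext n
  rw [smulq, Finset.sum_eq_single (0, n)]
  · rw [cst, cst]
    split_ifs
    · simp
    · simp
  · rintro ⟨a', b⟩ h hne
    rw [Finset.HasAntidiagonal.mem_antidiagonal] at h
    simp only at h
    rw [PowerSeries.coeff_C, if_neg, zero_smul]
    intro h1
    simp only at h1
    apply hne
    rw [h1, zero_add] at h
    rw [h1, h]
  · intro h
    exact absurd (by rw [Finset.HasAntidiagonal.mem_antidiagonal]; simp) h

theorem cst_add (a b : A) : cst (a + b) = cst a + cst b := by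
  funext n
  rw [Pi.add_apply, cst, cst, cst]
  split_ifs
  · rfl
  · rw [add_zero]

theorem of_shift (f : ℕ → A) : D.of f = D.of (cst (f 0)) +
    (PowerSeries.X : PowerSeries k) • D.of (fun n => f (n + 1)) := by
  rw [← D.of_smul, ← D.of_add, smulq_X]
  congr 1
  funext n
  rw [Pi.add_apply, cst]
  rcases n with _ | n
  · simp
  · simp

theorem of_expand (f : ℕ → A) (N : ℕ) : D.of f =
    ∑ j ∈ range N, ((PowerSeries.X : PowerSeries k) ^ j) • D.of (cst (f j)) +
      ((PowerSeries.X : PowerSeries k) ^ N) • D.of (fun n => f (n + N)) := by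
  induction N with
  | zero =>
    rw [Finset.range_zero, Finset.sum_empty, pow_zero, one_smul, zero_add]
    rfl
  | succ N ih =>
    rw [Finset.sum_range_succ, ih, of_shift D (fun n => f (n + N)), smul_add, smul_smul, ← pow_succ]
    have e1 : (fun n => f (n + 1 + N)) = fun n => f (n + (N + 1)) := by
      funext n
      congr 1
      omega
    simp only [zero_add]
    rw [e1, add_assoc]

/-- the rearrangement of the double sum -/
theorem rearr (t : ℕ → (A →ₗ[k] k)) (c : PowerSeries k) (f : ℕ → A) (n : ℕ) :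
    ∑ p ∈ antidiagonal n, t p.1 (smulq c f p.2) =
      ∑ p ∈ antidiagonal n, PowerSeries.coeff p.1 c * ∑ q ∈ antidiagonal p.2, t q.1 (f q.2) := by
  have h2 : ∀ p : ℕ × ℕ, t p.1 (smulq c f p.2) =
      ∑ q ∈ antidiagonal p.2, PowerSeries.coeff q.1 c * t p.1 (f q.2) := by
    intro p
    rw [smulq, map_sum]
    refine Finset.sum_congr rfl fun q _ => ?_
    rw [map_smul, smul_eq_mul]
  simp_rw [h2, Finset.mul_sum]
  have e : ∀ S : ℕ → ℕ → ℕ → k, ∑ p ∈ antidiagonal n, ∑ q ∈ antidiagonal p.2,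
      S p.1 q.1 q.2 = ∑ x ∈ (antidiagonal n).sigma (fun p => antidiagonal p.2),
        S x.1.1 x.2.1 x.2.2 := by
    intro S
    rw [Finset.sum_sigma]
  rw [e (fun a b c' => PowerSeries.coeff b c * t a (f c')),
    e (fun a b c' => PowerSeries.coeff a c * t b (f c'))]
  refine Finset.sum_nbij'
    (i := fun x => ⟨(x.2.1, x.1.1 + x.2.2), (x.1.1, x.2.2)⟩)
    (j := fun x => ⟨(x.2.1, x.1.1 + x.2.2), (x.1.1, x.2.2)⟩) ?_ ?_ ?_ ?_ ?_
  · rintro ⟨⟨a, b⟩, ⟨c, d⟩⟩ h
    simp only [mem_sigma, Finset.HasAntidiagonal.mem_antidiagonal] at h ⊢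
    refine ⟨?_, trivial⟩
    omega
  · rintro ⟨⟨a, b⟩, ⟨c, d⟩⟩ h
    simp only [mem_sigma, Finset.HasAntidiagonal.mem_antidiagonal] at h ⊢
    refine ⟨?_, trivial⟩
    omega
  · rintro ⟨⟨a, b⟩, ⟨c, d⟩⟩ h
    simp only [mem_sigma, Finset.HasAntidiagonal.mem_antidiagonal] at h
    obtain ⟨h1, h2⟩ := h
    subst h2
    rfl
  · rintro ⟨⟨a, b⟩, ⟨c, d⟩⟩ h
    simp only [mem_sigma, Finset.HasAntidiagonal.mem_antidiagonal] at h
    obtain ⟨h1, h2⟩ := h
    subst h2
    rfl
  · rintro ⟨⟨a, b⟩, ⟨c, d⟩⟩ h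
    rfl

theorem sq_add (x y : D.R) : D.sq (x + y) = D.sq x + D.sq y := by
  conv_lhs => rw [← D.of_sq x, ← D.of_sq y, ← D.of_add, D.sq_of]

theorem sq_smul (c : PowerSeries k) (x : D.R) : D.sq (c • x) = smulq c (D.sq x) := by
  conv_lhs => rw [← D.of_sq x, ← D.of_smul, D.sq_of]

end lin

/-- FUN -/
theorem funs : FunStmt := by
  intro k W A _ _ _ _ om D
  constructor
  · intro t
    refine ⟨{ toFun := fun x => PowerSeries.mk fun n => ∑ p ∈ antidiagonal n, t p.1 (D.sq x p.2)
              map_add' := ?_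
              map_smul' := ?_ }, ?_⟩
    · intro x y
      ext n
      rw [map_add, PowerSeries.coeff_mk, PowerSeries.coeff_mk, PowerSeries.coeff_mk,
        ← Finset.sum_add_distrib]
      refine Finset.sum_congr rfl fun p _ => ?_
      rw [sq_add, Pi.add_apply, map_add]
    · intro c x
      ext n
      rw [PowerSeries.coeff_mk, RingHom.id_apply, smul_eq_mul, PowerSeries.coeff_mul, sq_smul,
        rearr]
      refine Finset.sum_congr rfl fun p _ => ?_
      rw [PowerSeries.coeff_mk]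
    · intro f n
      show PowerSeries.coeff n (PowerSeries.mk fun n =>
        ∑ p ∈ antidiagonal n, t p.1 (D.sq (D.of f) p.2)) = _
      rw [PowerSeries.coeff_mk, D.sq_of]
  · intro Λ
    refine ⟨fun n =>
      { toFun := fun a => PowerSeries.coeff n (Λ (D.of (cst a)))
        map_add' := ?_
        map_smul' := ?_ }, ?_⟩
    · intro a b
      rw [cst_add, D.of_add, map_add, map_add]
    · intro c a
      rw [← smulq_C (k := k), D.of_smul, map_smul, smul_eq_mul, RingHom.id_apply, smul_eq_mul,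
        PowerSeries.coeff_C_mul]
    · intro f n
      rw [of_expand D f (n + 1), map_add, map_sum, map_add, map_sum, map_smul, smul_eq_mul,
        PowerSeries.coeff_X_pow_mul', if_neg (by omega), add_zero]
      rw [← Finset.Nat.sum_antidiagonal_swap, Finset.Nat.sum_antidiagonal_eq_sum_range_succ_mk]
      refine Finset.sum_congr rfl fun j hj => ?_
      rw [map_smul, smul_eq_mul, PowerSeries.coeff_X_pow_mul',
        if_pos (Nat.lt_succ_iff.1 (Finset.mem_range.1 hj))]
      rfl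

end Pool.Agent.PSS.H63
end
end -- Pool.Agent.Helper63_PSS.FUN

section -- Pool.Agent.Helper75_PSS.SPF

noncomputable section

namespace Pool.Agent.PSS.H75

open Finset
open Dm (cst)

section

variable {k W A : Type} [CommRing k] [Group W] [Ring A] [Algebra k A] {om : W →* A} (D : Dm k om)

theorem sq_add (x y : D.R) : D.sq (x + y) = D.sq x + D.sq y := by
  conv_lhs => rw [← D.of_sq x, ← D.of_sq y, ← D.of_add, D.sq_of]

theorem sq_mul (x y : D.R) : D.sq (x * y) = D.mul (D.sq x) (D.sq y) := by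
  conv_lhs => rw [← D.of_sq x, ← D.of_sq y, ← D.of_mul, D.sq_of]

theorem sq_one : D.sq 1 = cst 1 := by
  rw [← D.of_one, D.sq_of]

theorem sq_zero : D.sq 0 = 0 := by
  rw [← D.of_zero, D.sq_of]

theorem sq_smul (c : PowerSeries k) (x : D.R) : D.sq (c • x) = Dm.smulq c (D.sq x) := by
  conv_lhs => rw [← D.of_sq x, ← D.of_smul, D.sq_of]

theorem mul_zero' (f g : ℕ → A) : D.mul f g 0 = f 0 * g 0 := by
  have ha : antidiagonal 0 = {((0 : ℕ), 0)} := rfl
  rw [Dm.mul, ha, sum_singleton]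
  simp only
  rw [ha, sum_singleton]
  exact D.m0 _ _

theorem smulq_zero (c : PowerSeries k) (f : ℕ → A) :
    Dm.smulq c f 0 = PowerSeries.coeff 0 c • f 0 := by
  have ha : antidiagonal 0 = {((0 : ℕ), 0)} := rfl
  rw [Dm.smulq, ha, sum_singleton]

theorem smulq_X (g : ℕ → A) (n : ℕ) :
    Dm.smulq (PowerSeries.X : PowerSeries k) g (n + 1) = g n := by
  rw [Dm.smulq, sum_eq_single (1, n)]
  · rw [PowerSeries.coeff_one_X, one_smul]
  · rintro ⟨i, j⟩ h hne
    rw [Finset.HasAntidiagonal.mem_antidiagonal] at h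
    simp only at h ⊢
    rw [PowerSeries.coeff_X, if_neg, zero_smul]
    rintro rfl
    apply hne
    have : j = n := by omega
    rw [this]
  · intro h
    exact absurd (by rw [Finset.HasAntidiagonal.mem_antidiagonal]; simp; omega) h

theorem smulq_X_zero (g : ℕ → A) :
    Dm.smulq (PowerSeries.X : PowerSeries k) g 0 = 0 := by
  rw [smulq_zero, PowerSeries.coeff_zero_X, zero_smul]

end

theorem spf : SpfStmt := by
  intro k W A _ _ _ _ om D
  refine ⟨{ toFun := fun x => D.sq x 0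
            map_one' := by
              show D.sq 1 0 = 1
              rw [sq_one]; rfl
            map_mul' := fun x y => by
              show D.sq (x * y) 0 = D.sq x 0 * D.sq y 0
              rw [sq_mul, mul_zero']
            map_zero' := by
              show D.sq 0 0 = 0
              rw [sq_zero]; rfl
            map_add' := fun x y => by
              show D.sq (x + y) 0 = D.sq x 0 + D.sq y 0
              rw [sq_add]; rfl }, ?_, ?_, ?_, ?_, ?_⟩
  · intro f
    show D.sq (D.of f) 0 = f 0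
    rw [D.sq_of]
  · intro r
    show D.sq (algebraMap (PowerSeries k) D.R r) 0 = _
    rw [Algebra.algebraMap_eq_smul_one, sq_smul, smulq_zero, sq_one,
      Algebra.algebraMap_eq_smul_one, PowerSeries.coeff_zero_eq_constantCoeff]
    rfl
  · intro a
    refine ⟨D.of (cst a), ?_⟩
    show D.sq (D.of (cst a)) 0 = a
    rw [D.sq_of]; rfl
  · intro w
    show D.sq (D.w w) 0 = om w
    have : D.w w = D.of (cst (om w)) := rfl
    rw [this, D.sq_of]; rfl
  · intro x hx
    have hx' : D.sq x 0 = 0 := hx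
    refine ⟨D.of (fun n => D.sq x (n + 1)), ?_⟩
    rw [← D.of_smul]
    conv_lhs => rw [← D.of_sq x]
    congr 1
    funext n
    rcases n with _ | n
    · rw [smulq_X_zero, hx']
    · rw [smulq_X]

theorem rmp : RmpStmt := by
  intro k k₀ W A A₀ _ _ _ _ _ _ _ om om₀ D D₀ q κ hκ hw hm
  have hqs : ∀ (r : k) (a : A), q (r • a) = κ r • q a := by
    intro r a
    rw [Algebra.smul_def, map_mul, hκ, ← Algebra.smul_def]
  have hmul : ∀ f g : ℕ → A, (fun n => q (D.mul f g n)) =
      D₀.mul (fun n => q (f n)) (fun n => q (g n)) := by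
    intro f g
    funext n
    rw [Dm.mul, Dm.mul, map_sum]
    refine sum_congr rfl fun p _ => ?_
    rw [map_sum]
    refine sum_congr rfl fun r _ => ?_
    exact hm _ _ _
  have hcst : ∀ a : A, (fun n => q (cst a n)) = cst (q a) := by
    intro a
    funext n
    simp only [cst]
    split_ifs
    · rfl
    · exact map_zero q
  have hψ : ∀ f, D₀.of (fun n => q (D.sq (D.of f) n)) = D₀.of (fun n => q (f n)) := by
    intro f
    rw [D.sq_of]
  let ψ : D.R →+* D₀.R :=
    { toFun := fun x => D₀.of (fun n => q (D.sq x n))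
      map_one' := by
        show D₀.of (fun n => q (D.sq 1 n)) = 1
        rw [sq_one, hcst, map_one, D₀.of_one]
      map_mul' := fun x y => by
        show D₀.of (fun n => q (D.sq (x * y) n)) =
          D₀.of (fun n => q (D.sq x n)) * D₀.of (fun n => q (D.sq y n))
        rw [sq_mul, hmul, D₀.of_mul]
      map_zero' := by
        show D₀.of (fun n => q (D.sq 0 n)) = 0
        rw [sq_zero, ← D₀.of_zero]
        congr 1
        funext n
        exact map_zero q
      map_add' := fun x y => by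
        show D₀.of (fun n => q (D.sq (x + y) n)) =
          D₀.of (fun n => q (D.sq x n)) + D₀.of (fun n => q (D.sq y n))
        rw [sq_add, ← D₀.of_add]
        congr 1
        funext n
        exact map_add q _ _ }
  have hψof : ∀ f, ψ (D.of f) = D₀.of (fun n => q (f n)) := hψ
  refine ⟨ψ, hψof, ?_, ?_, ?_, ?_⟩
  · intro r a
    show D₀.of (fun n => q (D.sq (r • a) n)) = _
    rw [sq_smul]
    have : (fun n => q (Dm.smulq r (D.sq a) n)) =
        Dm.smulq (PowerSeries.map κ r) (fun n => q (D.sq a n)) := by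
      funext n
      rw [Dm.smulq, Dm.smulq, map_sum]
      refine sum_congr rfl fun p _ => ?_
      rw [hqs, PowerSeries.coeff_map]
    rw [this, D₀.of_smul]
    rfl
  · intro w
    have e : D.w w = D.of (cst (om w)) := rfl
    rw [e, hψof, hcst, hw]
    rfl
  · intro hs y
    choose s hs' using hs
    refine ⟨D.of (fun n => s (D₀.sq y n)), ?_⟩
    rw [hψof]
    have : (fun n => q (s (D₀.sq y n))) = D₀.sq y := by
      funext n
      exact hs' _
    rw [this, D₀.of_sq]
  · intro p hp x hx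
    have hx' : (fun n => q (D.sq x n)) = 0 := by
      have h1 : D₀.of (fun n => q (D.sq x n)) = D₀.of 0 := by
        rw [D₀.of_zero]; exact hx
      have h2 := congrArg D₀.sq h1
      rwa [D₀.sq_of, D₀.sq_of] at h2
    have hx2 : ∀ n, ∃ a', D.sq x n = p • a' := fun n => hp _ (congrFun hx' n)
    choose g hg using hx2
    refine ⟨D.of g, ?_⟩
    rw [← D.of_smul]
    conv_lhs => rw [← D.of_sq x]
    congr 1
    funext n
    rw [hg n, Dm.smulq, sum_eq_single (0, n)]
    · rw [PowerSeries.coeff_zero_C]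
    · rintro ⟨i, j⟩ h hne
      rw [Finset.HasAntidiagonal.mem_antidiagonal] at h
      simp only at h ⊢
      rw [PowerSeries.coeff_C, if_neg, zero_smul]
      rintro rfl
      apply hne
      have : j = n := by omega
      rw [this]
    · intro h
      exact absurd (by rw [Finset.HasAntidiagonal.mem_antidiagonal]; simp) h

end Pool.Agent.PSS.H75
end
end -- Pool.Agent.Helper75_PSS.SPF

section -- Pool.Agent.Helper85_PSS.LKX

/-! Squad PSS, row LKX (160). -/

set_option autoImplicit false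

namespace Pool.Agent.PSS.H85

open Finset
open Dm (cst)
open Pool.Agent.PFD.D2b (FrR)

theorem sum_of {k A W : Type} [CommRing k] [Ring A] [Algebra k A] [Group W] {om : W →* A}
    (D : Dm k om) {Ω : Type} (s : Finset Ω) (f : Ω → ℕ → A) :
    D.of (∑ ω ∈ s, f ω) = ∑ ω ∈ s, D.of (f ω) := by
  classical
  induction s using Finset.induction with
  | empty => rw [Finset.sum_empty, Finset.sum_empty, D.of_zero]
  | insert a s ha ih => rw [Finset.sum_insert ha, Finset.sum_insert ha, D.of_add, ih]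

theorem smulq_cst {k A : Type} [CommRing k] [Ring A] [Algebra k A] (c : PowerSeries k) (a : A)
    (n : ℕ) : Dm.smulq c (cst a) n = PowerSeries.coeff n c • a := by
  rw [Dm.smulq, Finset.sum_eq_single (n, 0)]
  · rw [cst, if_pos rfl]
  · rintro ⟨i, j⟩ h hne
    rw [Finset.HasAntidiagonal.mem_antidiagonal] at h
    rw [cst, if_neg, smul_zero]
    intro hj
    apply hne
    simp only at hj h
    subst hj
    rw [← h]
    rfl
  · intro h
    exact absurd (by rw [Finset.HasAntidiagonal.mem_antidiagonal]; rfl) h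

theorem lkx (rmp : RmpStmt) (fn : FunStmt) (rfe : RfeStmt) : LkxStmt := by
  intro R K V A B κ κ' Ω _ _ _ _ _ _ _ _ _ _ _ _ _ _ _ W _ α lam x y b c C D D' Λ x' y' hm hRF
  obtain ⟨ψ, hψ1, hψ2, hψ3, -, -⟩ := rmp R K W A B (aw α W) (aw (ia C.i α) W) D D'
    (C.i : A →+* B) (algebraMap R K) (fun r => by
      have h := C.tow r 1
      rw [← Algebra.algebraMap_eq_smul_one, ← Algebra.algebraMap_eq_smul_one] at h
      rw [h]
      exact C.i.commutes r) (fun w => rfl) (fun n a a' => hm n a a')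
  obtain ⟨t, ht⟩ := (fn R W A (aw α W) D).2 Λ
  obtain ⟨Λ', hΛ'⟩ := (fn K W B (aw (ia C.i α) W) D').1
    (fun n => ∑ ω, algebraMap R K (t n (b ω)) • C.cK ω)
  have htK : ∀ n a, (∑ ω, algebraMap R K (t n (b ω)) • C.cK ω) (C.i a) =
      algebraMap R K (t n a) := by
    intro n a
    rw [LinearMap.sum_apply]
    conv_rhs => rw [← C.fr.2.2 a]
    rw [map_sum, map_sum]
    refine Finset.sum_congr rfl fun ω _ => ?_
    rw [LinearMap.smul_apply, C.ck, map_smul, smul_eq_mul, smul_eq_mul, map_mul, mul_comm]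
  have hmap : ∀ a, Λ' (ψ a) = PowerSeries.map (algebraMap R K) (Λ a) := by
    intro a
    rw [← D.of_sq a, hψ1]
    ext n
    rw [hΛ', PowerSeries.coeff_map, ht, map_sum]
    exact Finset.sum_congr rfl fun p _ => htK p.1 _
  -- spanning
  have hspan : ∀ z : D'.R, ∃ r : Ω → PowerSeries K,
      z = ∑ ω, r ω • ψ (D.of (cst (b ω))) := by
    intro z
    refine ⟨fun ω => PowerSeries.mk fun n => C.cK ω (D'.sq z n), ?_⟩
    have h1 : ∀ ω, ψ (D.of (cst (b ω))) = D'.of (cst (C.i (b ω))) := by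
      intro ω
      rw [hψ1]
      congr 1
      funext n
      change C.i (cst (b ω) n) = _
      rw [cst, cst]
      split_ifs
      · rfl
      · exact map_zero _
    conv_lhs => rw [← D'.of_sq z]
    have h2 : ∀ ω, (PowerSeries.mk fun n => C.cK ω (D'.sq z n)) • ψ (D.of (cst (b ω))) =
        D'.of (fun n => C.cK ω (D'.sq z n) • C.i (b ω)) := by
      intro ω
      rw [h1, ← D'.of_smul]
      congr 1
      funext n
      rw [smulq_cst, PowerSeries.coeff_mk]
    simp_rw [h2]
    rw [← sum_of]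
    congr 1
    funext n
    rw [Finset.sum_apply]
    exact (C.frK.2.2 (D'.sq z n)).symm
  have hsym : ∀ a a', Λ' (a * a') = Λ' (a' * a) := by
    intro a a'
    obtain ⟨r, hr⟩ := hspan a
    obtain ⟨r', hr'⟩ := hspan a'
    rw [hr, hr', Finset.sum_mul_sum, Finset.sum_mul_sum, map_sum, map_sum]
    simp_rw [map_sum]
    rw [Finset.sum_comm]
    refine Finset.sum_congr rfl fun ω _ => Finset.sum_congr rfl fun ω' _ => ?_
    rw [smul_mul_assoc, mul_smul_comm, map_smul, map_smul, smul_mul_assoc, mul_smul_comm,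
      map_smul, map_smul, ← map_mul, ← map_mul, hmap, hmap, hRF.sym, smul_comm]
  have he1 : ∀ a, ∑ k, ∑ v, Λ' (D'.w v⁻¹ * ψ (y' k) * a) • (ψ (x' k) * D'.w v) = a := by
    intro a
    obtain ⟨r, hr⟩ := hspan a
    have h1 : ∀ s, ∑ k, ∑ v, Λ' (D'.w v⁻¹ * ψ (y' k) * ψ s) • (ψ (x' k) * D'.w v) = ψ s := by
      intro s
      conv_rhs => rw [← hRF.e1 s]
      rw [map_sum]
      refine Finset.sum_congr rfl fun k _ => ?_
      rw [map_sum]
      refine Finset.sum_congr rfl fun v _ => ?_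
      rw [hψ2, map_mul ψ (x' k), hψ3, ← hψ3 v⁻¹, ← map_mul ψ, ← map_mul ψ, hmap]
    rw [hr]
    have h2 : ∀ k v, Λ' (D'.w v⁻¹ * ψ (y' k) * ∑ ω, r ω • ψ (D.of (cst (b ω)))) •
        (ψ (x' k) * D'.w v) = ∑ ω, r ω • (Λ' (D'.w v⁻¹ * ψ (y' k) * ψ (D.of (cst (b ω)))) •
        (ψ (x' k) * D'.w v)) := by
      intro k v
      rw [Finset.mul_sum, map_sum, Finset.sum_smul]
      refine Finset.sum_congr rfl fun ω _ => ?_
      rw [mul_smul_comm, map_smul, smul_assoc]
    simp_rw [h2]
    have h3 : ∀ k, ∑ v, ∑ ω, r ω • (Λ' (D'.w v⁻¹ * ψ (y' k) * ψ (D.of (cst (b ω)))) •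
        (ψ (x' k) * D'.w v)) = ∑ ω, ∑ v, r ω • (Λ' (D'.w v⁻¹ * ψ (y' k) *
        ψ (D.of (cst (b ω)))) • (ψ (x' k) * D'.w v)) := fun k => Finset.sum_comm
    simp_rw [h3]
    rw [Finset.sum_comm]
    refine Finset.sum_congr rfl fun ω _ => ?_
    simp_rw [← Finset.smul_sum]
    rw [h1]
  exact ⟨ψ, Λ', hψ1, hψ3, hmap,
    (rfe (PowerSeries K) W D'.R κ' D'.w Λ' (fun k => ψ (x' k)) (fun k => ψ (y' k)) hsym he1).1⟩

end Pool.Agent.PSS.H85
end -- Pool.Agent.Helper85_PSS.LKX

section -- Pool.Agent.Helper92_PSS.TRA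

/-!
# Squad PSS, row TRA: the trivialised product is a deformation
-/

set_option autoImplicit false

open scoped BigOperators TensorProduct

namespace Pool.Agent.PSS.H92

open Pool.Agent.PFD.D2 (Cdv FibG)
open Pool.Agent.PFD.D2b (FrR)
open Finset

/-- associativity of the sums over antidiagonals -/
theorem ad3 {M : Type} [AddCommMonoid M] (n : ℕ) (T : ℕ → ℕ → ℕ → M) :
    ∑ p ∈ antidiagonal n, ∑ q ∈ antidiagonal p.1, T q.1 q.2 p.2 =
    ∑ p ∈ antidiagonal n, ∑ q ∈ antidiagonal p.2, T p.1 q.1 q.2 := by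
  rw [Finset.sum_sigma' (antidiagonal n) (fun p => antidiagonal p.1)
      (fun p q => T q.1 q.2 p.2),
    Finset.sum_sigma' (antidiagonal n) (fun p => antidiagonal p.2)
      (fun p q => T p.1 q.1 q.2)]
  refine Finset.sum_nbij'
    (i := fun x => ⟨(x.2.1, x.2.2 + x.1.2), (x.2.2, x.1.2)⟩)
    (j := fun x => ⟨(x.1.1 + x.2.1, x.2.2), (x.1.1, x.2.1)⟩) ?_ ?_ ?_ ?_ ?_
  · rintro ⟨⟨a, b⟩, ⟨c, d⟩⟩ h
    simp only [mem_sigma, Finset.HasAntidiagonal.mem_antidiagonal] at h ⊢
    refine ⟨?_, trivial⟩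
    omega
  · rintro ⟨⟨a, b⟩, ⟨c, d⟩⟩ h
    simp only [mem_sigma, Finset.HasAntidiagonal.mem_antidiagonal] at h ⊢
    refine ⟨?_, trivial⟩
    omega
  · rintro ⟨⟨a, b⟩, ⟨c, d⟩⟩ h
    simp only [mem_sigma, Finset.HasAntidiagonal.mem_antidiagonal] at h
    obtain ⟨h1, h2⟩ := h
    subst h2
    rfl
  · rintro ⟨⟨a, b⟩, ⟨c, d⟩⟩ h
    simp only [mem_sigma, Finset.HasAntidiagonal.mem_antidiagonal] at h
    obtain ⟨h1, h2⟩ := h
    subst h2
    rfl
  · rintro ⟨⟨a, b⟩, ⟨c, d⟩⟩ h
    rfl

section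
variable {K V B : Type} [Field K] [CommGroup V] [Ring B] [Algebra K B] {β : V →* B}
  {W : Subgroup V} {P : ℕ → (B →ₗ[K] B)} {m : ℕ → (B →ₗ[K] B →ₗ[K] B)}

/-- injectivity of `e ↦ ∑ P i (e j)` -/
theorem inj_seq (h0 : P 0 = LinearMap.id) {e e' : ℕ → B}
    (h : ∀ n, ∑ p ∈ antidiagonal n, P p.1 (e p.2) = ∑ p ∈ antidiagonal n, P p.1 (e' p.2)) :
    ∀ n, e n = e' n := by
  intro n
  induction n using Nat.strong_induction_on with
  | _ n ih =>
    have hm : ((0, n) : ℕ × ℕ) ∈ antidiagonal n := by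
      rw [Finset.HasAntidiagonal.mem_antidiagonal]
      exact zero_add n
    have h1 := h n
    rw [← Finset.add_sum_erase _ _ hm, ← Finset.add_sum_erase (antidiagonal n)
      (fun p => P p.1 (e' p.2)) hm] at h1
    have h2 : ∑ p ∈ (antidiagonal n).erase (0, n), P p.1 (e p.2) =
        ∑ p ∈ (antidiagonal n).erase (0, n), P p.1 (e' p.2) := by
      refine Finset.sum_congr rfl fun p hp => ?_
      obtain ⟨hne, hp2⟩ := Finset.mem_erase.mp hp
      rw [Finset.HasAntidiagonal.mem_antidiagonal] at hp2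
      have h3 : p.2 < n := by
        rcases Nat.eq_zero_or_pos p.1 with h4 | h4
        · exfalso
          apply hne
          refine Prod.ext h4 ?_
          show p.2 = n
          omega
        · omega
      rw [ih p.2 h3]
    rw [h2] at h1
    have h5 := add_right_cancel h1
    rw [h0] at h5
    exact h5

theorem tr_m0 (ht : Trv β W P m) (x y : B) : m 0 x y = x * y := by
  have h := ht.pm 0 x y
  rw [Finset.Nat.antidiagonal_zero, Finset.sum_singleton, Finset.sum_singleton, ht.p0] at h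
  exact h.symm

theorem tr_ass (ht : Trv β W P m) (n : ℕ) (x y z : B) :
    ∑ p ∈ antidiagonal n, m p.1 (m p.2 x y) z = ∑ p ∈ antidiagonal n, m p.1 x (m p.2 y z) := by
  refine inj_seq (P := P) (e := fun n => ∑ p ∈ antidiagonal n, m p.1 (m p.2 x y) z)
    (e' := fun n => ∑ p ∈ antidiagonal n, m p.1 x (m p.2 y z)) ht.p0 ?_ n
  intro n
  have h1 : ∑ p ∈ antidiagonal n, P p.1 (∑ q ∈ antidiagonal p.2, m q.1 (m q.2 x y) z) =
      ∑ p ∈ antidiagonal n, ∑ q ∈ antidiagonal p.1, (P q.1 x * P q.2 y) * P p.2 z := by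
    calc ∑ p ∈ antidiagonal n, P p.1 (∑ q ∈ antidiagonal p.2, m q.1 (m q.2 x y) z)
        = ∑ p ∈ antidiagonal n, ∑ q ∈ antidiagonal p.2, P p.1 (m q.1 (m q.2 x y) z) :=
          Finset.sum_congr rfl fun p _ => map_sum _ _ _
      _ = ∑ p ∈ antidiagonal n, ∑ q ∈ antidiagonal p.1, P q.1 (m q.2 (m p.2 x y) z) :=
          (ad3 n fun i k l => P i (m k (m l x y) z)).symm
      _ = ∑ p ∈ antidiagonal n, ∑ q ∈ antidiagonal p.1, P q.1 (m p.2 x y) * P q.2 z :=
          Finset.sum_congr rfl fun p _ => (ht.pm p.1 (m p.2 x y) z).symm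
      _ = ∑ p ∈ antidiagonal n, ∑ q ∈ antidiagonal p.2, P p.1 (m q.2 x y) * P q.1 z :=
          ad3 n fun i k l => P i (m l x y) * P k z
      _ = ∑ p ∈ antidiagonal n, ∑ q ∈ antidiagonal p.2, P p.1 (m q.1 x y) * P q.2 z :=
          Finset.sum_congr rfl fun p _ =>
            Finset.Nat.sum_antidiagonal_swap (f := fun q : ℕ × ℕ => P p.1 (m q.1 x y) * P q.2 z)
      _ = ∑ p ∈ antidiagonal n, ∑ q ∈ antidiagonal p.1, P q.1 (m q.2 x y) * P p.2 z :=
          (ad3 n fun i l k => P i (m l x y) * P k z).symm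
      _ = ∑ p ∈ antidiagonal n, (∑ q ∈ antidiagonal p.1, P q.1 (m q.2 x y)) * P p.2 z :=
          Finset.sum_congr rfl fun p _ => (Finset.sum_mul _ _ _).symm
      _ = ∑ p ∈ antidiagonal n, (∑ q ∈ antidiagonal p.1, P q.1 x * P q.2 y) * P p.2 z :=
          Finset.sum_congr rfl fun p _ => by rw [ht.pm p.1 x y]
      _ = _ := Finset.sum_congr rfl fun p _ => Finset.sum_mul _ _ _
  have h2 : ∑ p ∈ antidiagonal n, P p.1 (∑ q ∈ antidiagonal p.2, m q.1 x (m q.2 y z)) =
      ∑ p ∈ antidiagonal n, ∑ q ∈ antidiagonal p.2, P p.1 x * (P q.1 y * P q.2 z) := by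
    calc ∑ p ∈ antidiagonal n, P p.1 (∑ q ∈ antidiagonal p.2, m q.1 x (m q.2 y z))
        = ∑ p ∈ antidiagonal n, ∑ q ∈ antidiagonal p.2, P p.1 (m q.1 x (m q.2 y z)) :=
          Finset.sum_congr rfl fun p _ => map_sum _ _ _
      _ = ∑ p ∈ antidiagonal n, ∑ q ∈ antidiagonal p.1, P q.1 (m q.2 x (m p.2 y z)) :=
          (ad3 n fun i k l => P i (m k x (m l y z))).symm
      _ = ∑ p ∈ antidiagonal n, ∑ q ∈ antidiagonal p.1, P q.1 x * P q.2 (m p.2 y z) :=
          Finset.sum_congr rfl fun p _ => (ht.pm p.1 x (m p.2 y z)).symm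
      _ = ∑ p ∈ antidiagonal n, ∑ q ∈ antidiagonal p.2, P p.1 x * P q.1 (m q.2 y z) :=
          ad3 n fun i k l => P i x * P k (m l y z)
      _ = ∑ p ∈ antidiagonal n, P p.1 x * ∑ q ∈ antidiagonal p.2, P q.1 (m q.2 y z) :=
          Finset.sum_congr rfl fun p _ => (Finset.mul_sum _ _ _).symm
      _ = ∑ p ∈ antidiagonal n, P p.1 x * ∑ q ∈ antidiagonal p.2, P q.1 y * P q.2 z :=
          Finset.sum_congr rfl fun p _ => by rw [ht.pm p.2 y z]
      _ = _ := Finset.sum_congr rfl fun p _ => Finset.mul_sum _ _ _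
  show ∑ p ∈ antidiagonal n, P p.1 (∑ q ∈ antidiagonal p.2, m q.1 (m q.2 x y) z) =
    ∑ p ∈ antidiagonal n, P p.1 (∑ q ∈ antidiagonal p.2, m q.1 x (m q.2 y z))
  rw [h1, h2]
  have h3 := ad3 n fun i k l => (P i x * P k y) * P l z
  rw [h3]
  exact Finset.sum_congr rfl fun p _ => Finset.sum_congr rfl fun q _ => mul_assoc _ _ _

theorem tr_wl (ht : Trv β W P m) (n : ℕ) (w : V) (hw : w ∈ W) (x y : B) :
    m n (β w * x) y = β w * m n x y := by
  refine inj_seq (P := P) (e := fun n => m n (β w * x) y) (e' := fun n => β w * m n x y)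
    ht.p0 ?_ n
  intro n
  show ∑ p ∈ antidiagonal n, P p.1 (m p.2 (β w * x) y) =
    ∑ p ∈ antidiagonal n, P p.1 (β w * m p.2 x y)
  have h1 : ∑ p ∈ antidiagonal n, P p.1 (β w * m p.2 x y) =
      ∑ p ∈ antidiagonal n, β w * P p.1 (m p.2 x y) :=
    Finset.sum_congr rfl fun p _ => (ht.pw p.1 w hw (m p.2 x y)).1
  rw [← ht.pm n (β w * x) y, h1, ← Finset.mul_sum, ← ht.pm n x y, Finset.mul_sum]
  refine Finset.sum_congr rfl fun p _ => ?_
  rw [(ht.pw p.1 w hw x).1, mul_assoc]

theorem tr_wm (ht : Trv β W P m) (n : ℕ) (w : V) (hw : w ∈ W) (x y : B) :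
    m n (x * β w) y = m n x (β w * y) := by
  refine inj_seq (P := P) (e := fun n => m n (x * β w) y) (e' := fun n => m n x (β w * y))
    ht.p0 ?_ n
  intro n
  show ∑ p ∈ antidiagonal n, P p.1 (m p.2 (x * β w) y) =
    ∑ p ∈ antidiagonal n, P p.1 (m p.2 x (β w * y))
  rw [← ht.pm n (x * β w) y, ← ht.pm n x (β w * y)]
  refine Finset.sum_congr rfl fun p _ => ?_
  rw [(ht.pw p.1 w hw x).2, (ht.pw p.2 w hw y).1, mul_assoc]

theorem tr_wr (ht : Trv β W P m) (n : ℕ) (w : V) (hw : w ∈ W) (x y : B) :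
    m n x (y * β w) = m n x y * β w := by
  refine inj_seq (P := P) (e := fun n => m n x (y * β w)) (e' := fun n => m n x y * β w)
    ht.p0 ?_ n
  intro n
  show ∑ p ∈ antidiagonal n, P p.1 (m p.2 x (y * β w)) =
    ∑ p ∈ antidiagonal n, P p.1 (m p.2 x y * β w)
  have h1 : ∑ p ∈ antidiagonal n, P p.1 (m p.2 x y * β w) =
      ∑ p ∈ antidiagonal n, P p.1 (m p.2 x y) * β w :=
    Finset.sum_congr rfl fun p _ => (ht.pw p.1 w hw (m p.2 x y)).2
  rw [← ht.pm n x (y * β w), h1, ← Finset.sum_mul, ← ht.pm n x y, Finset.sum_mul]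
  refine Finset.sum_congr rfl fun p _ => ?_
  rw [(ht.pw p.2 w hw y).2, mul_assoc]

theorem tr_P1 (ht : Trv β W P m) (n : ℕ) : P n 1 = if n = 0 then 1 else 0 := by
  cases n with
  | zero => rw [ht.p0]; rfl
  | succ n => rw [ht.p1]; rfl

theorem sum_fst (n : ℕ) (F : ℕ → B) :
    ∑ p ∈ antidiagonal n, (if p.1 = 0 then (1 : B) else 0) * F p.2 = F n := by
  have hm : ((0, n) : ℕ × ℕ) ∈ antidiagonal n := by
    rw [Finset.HasAntidiagonal.mem_antidiagonal]
    exact zero_add n
  rw [Finset.sum_eq_single_of_mem (0, n) hm]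
  · rw [if_pos rfl, one_mul]
  · rintro ⟨a, b⟩ hp hne
    rw [Finset.HasAntidiagonal.mem_antidiagonal] at hp
    have h1 : a ≠ 0 := by
      rintro rfl
      exact hne (Prod.ext rfl ((zero_add b).symm.trans hp))
    rw [if_neg h1, zero_mul]

theorem sum_snd (n : ℕ) (F : ℕ → B) :
    ∑ p ∈ antidiagonal n, F p.1 * (if p.2 = 0 then (1 : B) else 0) = F n := by
  have hm : ((n, 0) : ℕ × ℕ) ∈ antidiagonal n := by
    rw [Finset.HasAntidiagonal.mem_antidiagonal]
    exact add_zero n
  rw [Finset.sum_eq_single_of_mem (n, 0) hm]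
  · rw [if_pos rfl, mul_one]
  · rintro ⟨a, b⟩ hp hne
    rw [Finset.HasAntidiagonal.mem_antidiagonal] at hp
    have h1 : b ≠ 0 := by
      rintro rfl
      exact hne (Prod.ext ((add_zero a).symm.trans hp) rfl)
    rw [if_neg h1, mul_zero]

theorem sum_P (n : ℕ) (P : ℕ → (B →ₗ[K] B)) (y : B) :
    ∑ p ∈ antidiagonal n, P p.1 (if p.2 = 0 then y else 0) = P n y := by
  have hm : ((n, 0) : ℕ × ℕ) ∈ antidiagonal n := by
    rw [Finset.HasAntidiagonal.mem_antidiagonal]
    exact add_zero n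
  rw [Finset.sum_eq_single_of_mem (n, 0) hm]
  · rw [if_pos rfl]
  · rintro ⟨a, b⟩ hp hne
    rw [Finset.HasAntidiagonal.mem_antidiagonal] at hp
    have h1 : b ≠ 0 := by
      rintro rfl
      exact hne (Prod.ext ((add_zero a).symm.trans hp) rfl)
    rw [if_neg h1, map_zero]

theorem tr_n1 (ht : Trv β W P m) (n : ℕ) (y : B) : m (n + 1) 1 y = 0 := by
  have h := inj_seq (P := P) (e := fun n => m n 1 y) (e' := fun n => if n = 0 then y else 0)
    ht.p0 (fun n => ?_) (n + 1)
  · exact h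
  · show ∑ p ∈ antidiagonal n, P p.1 (m p.2 1 y) =
      ∑ p ∈ antidiagonal n, P p.1 (if p.2 = 0 then y else 0)
    rw [← ht.pm n 1 y, sum_P]
    simp only [tr_P1 ht]
    exact sum_fst n fun j => P j y

theorem tr_n2 (ht : Trv β W P m) (n : ℕ) (y : B) : m (n + 1) y 1 = 0 := by
  have h := inj_seq (P := P) (e := fun n => m n y 1) (e' := fun n => if n = 0 then y else 0)
    ht.p0 (fun n => ?_) (n + 1)
  · exact h
  · show ∑ p ∈ antidiagonal n, P p.1 (m p.2 y 1) =
      ∑ p ∈ antidiagonal n, P p.1 (if p.2 = 0 then y else 0)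
    rw [← ht.pm n y 1, sum_P]
    simp only [tr_P1 ht]
    exact sum_snd n fun j => P j y

end

theorem tra : TraStmt := by
  intro K V B _ _ _ _ β W P m ht
  refine ⟨⟨⟨m, tr_m0 ht, tr_ass ht, fun n w x y => tr_wl ht n w.1 w.2 x y,
    fun n w x y => tr_wm ht n w.1 w.2 x y, fun n w x y => tr_wr ht n w.1 w.2 x y,
    tr_n1 ht, tr_n2 ht⟩, rfl⟩, ?_, ?_⟩
  · intro n w hw x y
    exact ⟨tr_wl ht n w hw x y, tr_wm ht n w hw x y, tr_wr ht n w hw x y⟩
  · intro n
    exact ⟨tr_n1 ht n, tr_n2 ht n⟩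

end Pool.Agent.PSS.H92
end -- Pool.Agent.Helper92_PSS.TRA

section -- Pool.Agent.Helper92_PSS.FMX

/-!
# Squad PSS, row FMX: the symmetric form of a deformation
-/

set_option autoImplicit false

open scoped BigOperators TensorProduct

noncomputable section

namespace Pool.Agent.PSS.H92

open Finset
open Dm (cst)

section
variable {k W A : Type} [CommRing k] [Group W] [Ring A] [Algebra k A] {om : W →* A}
  (D : Dm k om)

/-- the coefficient of degree `n` of the product of constants under a linear form -/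
def QQ (τ : ℕ → (A →ₗ[k] k)) (n : ℕ) : A →ₗ[k] A →ₗ[k] k :=
  ∑ p ∈ antidiagonal n, (D.m p.2).compr₂ (τ p.1)

theorem QQ_apply (τ : ℕ → (A →ₗ[k] k)) (n : ℕ) (a b : A) :
    QQ D τ n a b = ∑ p ∈ antidiagonal n, τ p.1 (D.m p.2 a b) := by
  unfold QQ
  rw [LinearMap.sum_apply, LinearMap.sum_apply]
  rfl

theorem QQ_congr {τ τ' : ℕ → (A →ₗ[k] k)} {n : ℕ} (h : ∀ i ≤ n, τ i = τ' i) :
    QQ D τ n = QQ D τ' n := by
  unfold QQ
  refine Finset.sum_congr rfl fun p hp => ?_
  rw [Finset.HasAntidiagonal.mem_antidiagonal] at hp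
  rw [h p.1 (by omega)]

/-- the two bracketings -/
theorem QQ_ass (τ : ℕ → (A →ₗ[k] k)) (n : ℕ) (a b c : A) :
    ∑ p ∈ antidiagonal n, QQ D τ p.1 (D.m p.2 a b) c =
      ∑ p ∈ antidiagonal n, QQ D τ p.1 a (D.m p.2 b c) := by
  calc ∑ p ∈ antidiagonal n, QQ D τ p.1 (D.m p.2 a b) c
      = ∑ p ∈ antidiagonal n, ∑ q ∈ antidiagonal p.1, τ q.1 (D.m q.2 (D.m p.2 a b) c) :=
        Finset.sum_congr rfl fun p _ => QQ_apply D τ _ _ _
    _ = ∑ p ∈ antidiagonal n, ∑ q ∈ antidiagonal p.2, τ p.1 (D.m q.1 (D.m q.2 a b) c) :=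
        ad3 n fun i j l => τ i (D.m j (D.m l a b) c)
    _ = ∑ p ∈ antidiagonal n, τ p.1 (∑ q ∈ antidiagonal p.2, D.m q.1 (D.m q.2 a b) c) :=
        Finset.sum_congr rfl fun p _ => (map_sum _ _ _).symm
    _ = ∑ p ∈ antidiagonal n, τ p.1 (∑ q ∈ antidiagonal p.2, D.m q.1 a (D.m q.2 b c)) :=
        Finset.sum_congr rfl fun p _ => by rw [D.ass]
    _ = ∑ p ∈ antidiagonal n, ∑ q ∈ antidiagonal p.2, τ p.1 (D.m q.1 a (D.m q.2 b c)) :=
        Finset.sum_congr rfl fun p _ => map_sum _ _ _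
    _ = ∑ p ∈ antidiagonal n, ∑ q ∈ antidiagonal p.1, τ q.1 (D.m q.2 a (D.m p.2 b c)) :=
        (ad3 n fun i j l => τ i (D.m j a (D.m l b c))).symm
    _ = ∑ p ∈ antidiagonal n, QQ D τ p.1 a (D.m p.2 b c) :=
        Finset.sum_congr rfl fun p _ => (QQ_apply D τ _ _ _).symm

/-- symmetric in degree `n` -/
def Sy (τ : ℕ → (A →ₗ[k] k)) (n : ℕ) : Prop := ∀ a b, QQ D τ n a b = QQ D τ n b a

theorem QQ_cyc {τ : ℕ → (A →ₗ[k] k)} {N : ℕ} (h : ∀ n ≤ N, Sy D τ n) (a b c : A) :
    ∑ p ∈ antidiagonal (N + 1), QQ D τ p.1 (D.m p.2 a b) c =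
      (∑ p ∈ antidiagonal (N + 1), QQ D τ p.1 (D.m p.2 c a) b) +
        (QQ D τ (N + 1) (a * b) c - QQ D τ (N + 1) c (a * b)) := by
  rw [QQ_ass D τ (N + 1) c a b]
  have hm : ((N + 1, 0) : ℕ × ℕ) ∈ antidiagonal (N + 1) := by
    rw [Finset.HasAntidiagonal.mem_antidiagonal]
    exact add_zero _
  have h1 : ∑ p ∈ antidiagonal (N + 1), (QQ D τ p.1 (D.m p.2 a b) c -
      QQ D τ p.1 c (D.m p.2 a b)) =
      QQ D τ (N + 1) (a * b) c - QQ D τ (N + 1) c (a * b) := by
    rw [Finset.sum_eq_single_of_mem (N + 1, 0) hm]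
    · show QQ D τ (N + 1) (D.m 0 a b) c - QQ D τ (N + 1) c (D.m 0 a b) = _
      rw [D.m0]
    · rintro ⟨i, j⟩ hp hne
      rw [Finset.HasAntidiagonal.mem_antidiagonal] at hp
      have h2 : i ≤ N := by
        by_contra hlt
        have h3 : i + j = N + 1 := hp
        have h4 : i = N + 1 := by omega
        have h5 : j = 0 := by omega
        exact hne (Prod.ext h4 h5)
      show QQ D τ i (D.m j a b) c - QQ D τ i c (D.m j a b) = 0
      rw [h i h2, sub_self]
  rw [Finset.sum_sub_distrib] at h1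
  rw [← h1]
  abel

end

section
variable {k W A K : Type} [CommRing k] [CommGroup W] [Fintype W] [Ring A] [Algebra k A]
  [Fintype K] {om : W →* A} (D : Dm k om) {lam : A →ₗ[k] k} {x y : K → A}

/-- perfectness for bilinear forms -/
theorem perf (rfe : RfeStmt) (hrf : RF k om lam x y) (dd : A →ₗ[k] A →ₗ[k] k) :
    ∃ δ : A →ₗ[k] A, ∀ a b, dd a b = lam (a * δ b) := by
  obtain ⟨-, hnd, hex⟩ := rfe k W A K om lam x y hrf.sym hrf.e1
  have h1 : ∀ b, ∃ d, ∀ a, dd a b = lam (d * a) := by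
    intro b
    obtain ⟨d, hd⟩ := hex (dd.flip b)
    exact ⟨d, hd⟩
  choose δ hδ using h1
  have huq : ∀ d d' : A, (∀ a, lam (d * a) = lam (d' * a)) → d = d' := by
    intro d d' h
    refine sub_eq_zero.mp (hnd (d - d') fun a => ?_)
    rw [sub_mul, map_sub, h, sub_self]
  refine ⟨{ toFun := δ, map_add' := ?_, map_smul' := ?_ }, ?_⟩
  · intro b b'
    refine huq _ _ fun a => ?_
    rw [← hδ, map_add, add_mul, map_add, ← hδ, ← hδ]
  · intro c b
    refine huq _ _ fun a => ?_
    rw [← hδ, map_smul, RingHom.id_apply, smul_mul_assoc, map_smul, ← hδ]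
  · intro a b
    show dd a b = lam (a * δ b)
    rw [hδ, hrf.sym]

/-- the step of the recursion -/
theorem step_ex (rfe : RfeStmt) (h1p : H1P k om) (hrf : RF k om lam x y)
    {τ : ℕ → (A →ₗ[k] k)} {N : ℕ} (h : ∀ n ≤ N, Sy D τ n) :
    ∃ t : A →ₗ[k] k, Sy D (Function.update τ (N + 1) t) (N + 1) := by
  classical
  set τ0 : ℕ → (A →ₗ[k] k) := Function.update τ (N + 1) 0 with hτ0
  have hne : ∀ (t : A →ₗ[k] k) (i : ℕ), i ≤ N → Function.update τ (N + 1) t i = τ i := by
    intro t i hi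
    rw [Function.update_of_ne (by omega)]
  have h0 : ∀ n ≤ N, Sy D τ0 n := by
    intro n hn a b
    rw [QQ_congr D (τ' := τ) fun i hi => hne 0 i (hi.trans hn)]
    exact h n hn a b
  set dd : A →ₗ[k] A →ₗ[k] k := QQ D τ0 (N + 1) - (QQ D τ0 (N + 1)).flip with hdd
  have hdda : ∀ a b, dd a b = QQ D τ0 (N + 1) a b - QQ D τ0 (N + 1) b a := fun a b => rfl
  have hanti : ∀ a b, dd a b = -dd b a := by
    intro a b
    rw [hdda, hdda, neg_sub]
  have hcyc : ∀ a b c, dd (a * b) c + dd (c * a) b + dd (b * c) a = 0 := by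
    intro a b c
    have e1 := QQ_cyc D h0 a b c
    have e2 := QQ_cyc D h0 c a b
    have e3 := QQ_cyc D h0 b c a
    rw [← hdda] at e1 e2 e3
    have e4 : (∑ p ∈ antidiagonal (N + 1), QQ D τ0 p.1 (D.m p.2 a b) c) =
        (∑ p ∈ antidiagonal (N + 1), QQ D τ0 p.1 (D.m p.2 a b) c) +
          (dd (b * c) a + dd (c * a) b + dd (a * b) c) := by
      conv_lhs => rw [e1, e2, e3]
      abel
    have e5 := (left_eq_add.mp e4)
    rw [← e5]
    abel
  have hzero : ∀ (a : A) (w : W), QQ D τ0 (N + 1) a (om w) = 0 ∧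
      QQ D τ0 (N + 1) (om w) a = 0 := by
    intro a w
    rw [QQ_apply, QQ_apply]
    constructor
    · refine Finset.sum_eq_zero fun p hp => ?_
      rw [Finset.HasAntidiagonal.mem_antidiagonal] at hp
      rcases Nat.eq_zero_or_pos p.2 with h2 | h2
      · have h3 : p.1 = N + 1 := by omega
        rw [h3, hτ0, Function.update_self, LinearMap.zero_apply]
      · obtain ⟨j, hj⟩ := Nat.exists_eq_succ_of_ne_zero h2.ne'
        rw [hj]
        show τ0 p.1 (D.m (j + 1) a (om w)) = 0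
        rw [D.m_om_right, map_zero]
    · refine Finset.sum_eq_zero fun p hp => ?_
      rw [Finset.HasAntidiagonal.mem_antidiagonal] at hp
      rcases Nat.eq_zero_or_pos p.2 with h2 | h2
      · have h3 : p.1 = N + 1 := by omega
        rw [h3, hτ0, Function.update_self, LinearMap.zero_apply]
      · obtain ⟨j, hj⟩ := Nat.exists_eq_succ_of_ne_zero h2.ne'
        rw [hj]
        show τ0 p.1 (D.m (j + 1) (om w) a) = 0
        rw [D.m_om_left, map_zero]
  have hdw : ∀ (a : A) (w : W), dd a (om w) = 0 := by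
    intro a w
    rw [hdda, (hzero a w).1, (hzero a w).2, sub_zero]
  obtain ⟨δ, hδ⟩ := perf rfe hrf dd
  obtain ⟨-, hnd, -⟩ := rfe k W A K om lam x y hrf.sym hrf.e1
  have huq : ∀ d d' : A, (∀ a, lam (a * d) = lam (a * d')) → d = d' := by
    intro d d' h
    refine sub_eq_zero.mp (hnd (d - d') fun a => ?_)
    rw [sub_mul, map_sub, hrf.sym d a, hrf.sym d' a, h, sub_self]
  have hder : ∀ a b, δ (a * b) = δ a * b + a * δ b := by
    intro b c
    refine huq _ _ fun a => ?_
    have e1 := hcyc a b c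
    have e2 : dd a (b * c) = dd (a * b) c + dd (c * a) b := by
      rw [hanti]
      exact (eq_neg_of_add_eq_zero_left e1).symm
    rw [← hδ, e2, hδ, hδ, mul_add, map_add, ← mul_assoc a b (δ c), ← mul_assoc a (δ b) c,
      hrf.sym (a * δ b) c, ← mul_assoc c a (δ b), add_comm]
  have hδw : ∀ w, δ (om w) = 0 := by
    intro w
    refine huq _ _ fun a => ?_
    rw [← hδ, hdw, mul_zero, map_zero]
  obtain ⟨e, -, he⟩ := h1p δ hder hδw
  -- the new form
  set t : A →ₗ[k] k := -(lam ∘ₗ LinearMap.mulRight k e) with ht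
  have hta : ∀ a, t a = -lam (a * e) := fun a => rfl
  refine ⟨t, fun a b => ?_⟩
  have hq : ∀ a b, QQ D (Function.update τ (N + 1) t) (N + 1) a b =
      QQ D τ0 (N + 1) a b + t (a * b) := by
    intro a b
    rw [QQ_apply, QQ_apply]
    have hm : ((N + 1, 0) : ℕ × ℕ) ∈ antidiagonal (N + 1) := by
      rw [Finset.HasAntidiagonal.mem_antidiagonal]
      exact add_zero _
    rw [← Finset.add_sum_erase _ _ hm, ← Finset.add_sum_erase (antidiagonal (N + 1))
      (fun p => τ0 p.1 (D.m p.2 a b)) hm]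
    have h2 : ∑ p ∈ (antidiagonal (N + 1)).erase (N + 1, 0),
        Function.update τ (N + 1) t p.1 (D.m p.2 a b) =
        ∑ p ∈ (antidiagonal (N + 1)).erase (N + 1, 0), τ0 p.1 (D.m p.2 a b) := by
      refine Finset.sum_congr rfl fun p hp => ?_
      obtain ⟨hpne, hp2⟩ := Finset.mem_erase.mp hp
      rw [Finset.HasAntidiagonal.mem_antidiagonal] at hp2
      have h3 : p.1 ≠ N + 1 := by
        intro h4
        exact hpne (Prod.ext h4 (by show p.2 = 0; omega))
      rw [hτ0, Function.update_of_ne h3, Function.update_of_ne h3]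
    rw [h2]
    show Function.update τ (N + 1) t (N + 1) (D.m 0 a b) + _ =
      τ0 (N + 1) (D.m 0 a b) + _ + _
    rw [hτ0, Function.update_self, Function.update_self, LinearMap.zero_apply, D.m0, zero_add,
      add_comm]
  rw [hq, hq, hta, hta]
  have e6 : QQ D τ0 (N + 1) a b - QQ D τ0 (N + 1) b a =
      lam (a * b * e) - lam (b * a * e) := by
    rw [← hdda, hδ, he, mul_sub, map_sub, ← mul_assoc, ← mul_assoc, hrf.sym (a * e) b,
      ← mul_assoc]
  have e7 := sub_eq_iff_eq_add.mp e6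
  rw [e7]
  abel

/-- all the forms -/
theorem exists_forms (rfe : RfeStmt) (h1p : H1P k om) (hrf : RF k om lam x y) :
    ∃ τ : ℕ → (A →ₗ[k] k), τ 0 = lam ∧ ∀ n, Sy D τ n := by
  classical
  let stp : ℕ → (ℕ → (A →ₗ[k] k)) → (ℕ → (A →ₗ[k] k)) := fun N τ =>
    if h : ∃ t : A →ₗ[k] k, Sy D (Function.update τ (N + 1) t) (N + 1) then
      Function.update τ (N + 1) h.choose else τ
  let σ : ℕ → (ℕ → (A →ₗ[k] k)) := fun N =>
    Nat.rec (fun _ => lam) (fun N τ => stp N τ) N
  have hs : ∀ N, σ (N + 1) = stp N (σ N) := fun N => rfl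
  have hstp : ∀ N τ i, i ≤ N → stp N τ i = τ i := by
    intro N τ i hi
    show (if h : ∃ t : A →ₗ[k] k, Sy D (Function.update τ (N + 1) t) (N + 1) then
      Function.update τ (N + 1) h.choose else τ) i = τ i
    split_ifs with h
    · rw [Function.update_of_ne (by omega)]
    · rfl
  have hmain : ∀ N, ∀ n ≤ N, Sy D (σ N) n := by
    intro N
    induction N with
    | zero =>
      intro n hn
      have h0 : n = 0 := by omega
      subst h0
      intro a b
      rw [QQ_apply, QQ_apply, Finset.Nat.antidiagonal_zero, Finset.sum_singleton,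
        Finset.sum_singleton]
      show lam (D.m 0 a b) = lam (D.m 0 b a)
      rw [D.m0, D.m0, hrf.sym]
    | succ N ih =>
      intro n hn
      rcases Nat.lt_or_ge n (N + 1) with hlt | hge
      · intro a b
        rw [QQ_congr D (τ' := σ N) fun i hi => by rw [hs]; exact hstp N _ i (by omega)]
        exact ih n (by omega) a b
      · have h1 : n = N + 1 := by omega
        subst h1
        have h2 := step_ex D rfe h1p hrf ih
        have h3 : σ (N + 1) = Function.update (σ N) (N + 1) h2.choose := by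
          rw [hs]
          show (if h : ∃ t : A →ₗ[k] k, Sy D (Function.update (σ N) (N + 1) t) (N + 1) then
            Function.update (σ N) (N + 1) h.choose else (σ N)) = _
          rw [dif_pos h2]
        rw [h3]
        exact h2.choose_spec
  have hdiag : ∀ N i, i ≤ N → σ N i = σ i i := by
    intro N
    induction N with
    | zero =>
      intro i hi
      have h0 : i = 0 := by omega
      rw [h0]
    | succ N ih =>
      intro i hi
      rcases Nat.lt_or_ge i (N + 1) with hlt | hge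
      · rw [hs, hstp N _ i (by omega)]
        exact ih i (by omega)
      · have h1 : i = N + 1 := by omega
        rw [h1]
  refine ⟨fun i => σ i i, rfl, fun n a b => ?_⟩
  rw [QQ_congr D (τ' := σ n) fun i hi => (hdiag n i hi).symm]
  exact hmain n n le_rfl a b

end

theorem fmx (fn : FunStmt) (rfe : RfeStmt) : FmxStmt := by
  intro k W A K _ _ _ _ _ _ om D lam x y h1p hrf
  obtain ⟨τ, hτ0, hτ⟩ := exists_forms D rfe h1p hrf
  obtain ⟨Λ, hΛ⟩ := (fn k W A om D).1 τ
  have key : ∀ (f g : ℕ → A) (n : ℕ), PowerSeries.coeff n (Λ (D.of f * D.of g)) =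
      ∑ p ∈ antidiagonal n, ∑ q ∈ antidiagonal p.2, QQ D τ p.1 (f q.1) (g q.2) := by
    intro f g n
    rw [← D.of_mul, hΛ]
    calc ∑ p ∈ antidiagonal n, τ p.1 (D.mul f g p.2)
        = ∑ p ∈ antidiagonal n, ∑ q ∈ antidiagonal p.2, ∑ r ∈ antidiagonal q.2,
            τ p.1 (D.m q.1 (f r.1) (g r.2)) := by
          refine Finset.sum_congr rfl fun p _ => ?_
          unfold Dm.mul
          rw [map_sum]
          exact Finset.sum_congr rfl fun q _ => map_sum _ _ _
      _ = ∑ p ∈ antidiagonal n, ∑ q ∈ antidiagonal p.1, ∑ r ∈ antidiagonal p.2,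
            τ q.1 (D.m q.2 (f r.1) (g r.2)) :=
          (ad3 n fun i l v => ∑ r ∈ antidiagonal v, τ i (D.m l (f r.1) (g r.2))).symm
      _ = ∑ p ∈ antidiagonal n, ∑ r ∈ antidiagonal p.2, ∑ q ∈ antidiagonal p.1,
            τ q.1 (D.m q.2 (f r.1) (g r.2)) :=
          Finset.sum_congr rfl fun p _ => Finset.sum_comm
      _ = _ := Finset.sum_congr rfl fun p _ => Finset.sum_congr rfl fun q _ =>
          (QQ_apply D τ _ _ _).symm
  refine ⟨Λ, ?_, ?_⟩
  · intro a b
    rw [← D.of_sq a, ← D.of_sq b]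
    apply PowerSeries.ext
    intro n
    rw [key, key]
    refine Finset.sum_congr rfl fun p _ => ?_
    rw [← Finset.Nat.sum_antidiagonal_swap
      (f := fun q : ℕ × ℕ => QQ D τ p.1 (D.sq b q.1) (D.sq a q.2))]
    exact Finset.sum_congr rfl fun q _ => hτ p.1 _ _
  · intro f
    have h := hΛ f 0
    rw [PowerSeries.coeff_zero_eq_constantCoeff, Finset.Nat.antidiagonal_zero,
      Finset.sum_singleton, hτ0] at h
    exact h

end Pool.Agent.PSS.H92
end
end -- Pool.Agent.Helper92_PSS.FMX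

section -- Pool.Agent.Helper8_PST.NZD

/-!
# PST, row NZD (306): the relative traces in the ring of the deformation are not zero divisors
-/

set_option autoImplicit false

open scoped BigOperators TensorProduct PowerSeries

noncomputable section

namespace Pool.Agent.PST.U.H8

open Pool.Agent.PFD.D2 (Cdv FibG)
open Pool.Agent.PFD.D2b (FrR)
open Pool.Agent.PSS
open Pool.Agent.PSS.Dm (cst)

/-- row NZD -/
theorem nzd (hCRT : CrtStmt) : NzdStmt := by
  intro R K V A B κ κ' Ω _ _ _ _ _ _ _ _ _ _ _ _ _ _ _ W _ α lam x y b c C D P m Λ x' y' w u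
    hT hm hRF hu a ha
  obtain ⟨⟨D', hD'⟩, -, -⟩ := Pool.Agent.PSS.H92.tra K V B (ia C.i α) W P m hT
  obtain ⟨ψ, Λ', hψ, hψw, hΛ', hRF'⟩ := Pool.Agent.PSS.H85.lkx Pool.Agent.PSS.H75.rmp
    Pool.Agent.PSS.H63.funs Pool.Agent.PSS.H84.rfe R K V A B κ κ' Ω W α lam x y b c C D D' Λ x' y' (fun n a₁ a₂ => by rw [hD']; exact hm n a₁ a₂) hRF
  have : FiniteDimensional K B := by
    classical
    refine ⟨⟨Finset.univ.image (fun ω => C.i (b ω)), eq_top_iff.2 fun a _ => ?_⟩⟩
    rw [← C.frK.2.2 a]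
    refine Submodule.sum_mem _ fun ω _ => Submodule.smul_mem _ _ (Submodule.subset_span ?_)
    rw [Finset.coe_image]
    exact ⟨ω, Finset.mem_coe.2 (Finset.mem_univ ω), rfl⟩
  obtain ⟨T, iT, iAT, Φ, j, N, N', hΦ, hΦs, hjs, hNc, hNN, hN⟩ := hCRT K V B κ κ' W (ia C.i α)
    C.lamK (fun t => C.i (x t)) (fun t => C.i (y t)) P m D' Λ' (fun t => ψ (x' t))
    (fun t => ψ (y' t)) hT hD' C.rfK hRF'
  -- the image of the trace
  have hr : rt (fun t => ψ (x' t)) (fun t => ψ (y' t)) (D'.w w) = ψ (rt x' y' (D.w w)) := by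
    rw [rt, rt, map_sum]
    refine Finset.sum_congr rfl fun k _ => ?_
    rw [map_mul, map_mul, hψw]
  have hr0 : rt (fun t => C.i (x t)) (fun t => C.i (y t)) (ia C.i α w) =
      C.i (rt x y (α w)) := by
    rw [rt, rt, map_sum]
    refine Finset.sum_congr rfl fun k _ => ?_
    rw [map_mul, map_mul, ia_apply]
  have h1 := hN w
  rw [hr, hr0] at h1
  have hidx : (W.index : K) ≠ 0 := by
    rw [Nat.cast_ne_zero]
    exact Subgroup.FiniteIndex.index_ne_zero
  -- a left inverse of Φ (ψ r)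
  have h2 : ((PowerSeries.C ((W.index : K)⁻¹) : PowerSeries K) • (j (C.i u) * N)) *
      Φ (ψ (rt x' y' (D.w w))) = 1 := by
    rw [smul_mul_assoc, mul_assoc, h1, mul_smul_comm, ← map_mul, ← map_mul, hu, map_one,
      map_one, ← Nat.cast_smul_eq_nsmul (PowerSeries K), smul_smul]
    have h3 : (PowerSeries.C ((W.index : K)⁻¹) : PowerSeries K) * ((W.index : ℕ) : PowerSeries K)
        = 1 := by
      rw [← map_natCast (PowerSeries.C (R := K)), ← map_mul, inv_mul_cancel₀ hidx, map_one]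
    rw [h3, one_smul]
  obtain ⟨s, hs⟩ := hΦ.2 ((PowerSeries.C ((W.index : K)⁻¹) : PowerSeries K) • (j (C.i u) * N))
  have h4 : s * ψ (rt x' y' (D.w w)) = 1 := by
    apply hΦ.1
    rw [map_mul, hs, h2, map_one]
  -- the trace is central
  have hcen : a * rt x' y' (D.w w) = rt x' y' (D.w w) * a := by
    refine Pool.Agent.PSS.S0.H80.zrt (PowerSeries R) W D.R κ' D.w Λ x' y' hRF (D.w w) ?_ a
    intro g _
    show D.w g * (D.w w * D.w g⁻¹) = D.w w
    rw [← map_mul, ← map_mul]
    congr 1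
    rw [mul_comm w, mul_inv_cancel_left]
  have h5 : ψ a = 0 := by
    have h6 : ψ (rt x' y' (D.w w)) * ψ a = 0 := by
      rw [← map_mul, ← hcen, ha, map_zero]
    calc ψ a = s * ψ (rt x' y' (D.w w)) * ψ a := by rw [h4, one_mul]
      _ = 0 := by rw [mul_assoc, h6, mul_zero]
  rw [← D.of_sq a, hψ, ← D'.of_zero] at h5
  have h7 := congrArg D'.sq h5
  rw [D'.sq_of, D'.sq_of] at h7
  rw [← D.of_sq a, ← D.of_zero]
  congr 1
  funext n
  have h8 := congrFun h7 n
  simp only [Pi.zero_apply] at h8 ⊢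
  exact C.inj (h8.trans (map_zero C.i).symm)

end Pool.Agent.PST.U.H8
end
end -- Pool.Agent.Helper8_PST.NZD

section -- Pool.Agent.Helper60_PSS.TPF

/-!
# Squad PSS, row TPF: `dim Z` of the generic fibre of `N_W`
-/

open scoped BigOperators TensorProduct

noncomputable section

namespace Pool.Agent.PSS.H60

open Pool.Agent.PSS
open Pool.Agent.PFD.D2b (FrR)

theorem nw_fin {F V A B : Type} [Field F] [CommGroup V] [Finite V] [Ring A] [Algebra F A]
    [Ring B] [Algebra F B] {α : V →* A} {W : Subgroup V} (N : IsNW F α W B)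
    (hA : FiniteDimensional F A) : FiniteDimensional F B := by
  classical
  have : Finite (MulAut W) := Finite.of_injective (fun f => (f : W → W)) DFunLike.coe_injective
  have : Fintype (MulAut W) := Fintype.ofFinite _
  let L : (MulAut W → A) →ₗ[F] B := ∑ ε, (N.β ε) ∘ₗ LinearMap.proj ε
  have hL : Function.Surjective L := by
    intro b
    obtain ⟨f, _, rfl⟩ := N.spn b
    refine ⟨f, ?_⟩
    rw [finsum_eq_sum_of_fintype, LinearMap.sum_apply]
    rfl
  exact Module.Finite.of_surjective L hL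

theorem red_X (F : Type) [Field F] :
    Red (PowerSeries.X : PowerSeries F) (PowerSeries.constantCoeff (R := F)) := by
  constructor
  · intro a
    exact ⟨PowerSeries.C a, PowerSeries.constantCoeff_C a⟩
  · intro r
    rw [← PowerSeries.X_dvd_iff]
    rfl

theorem tpf (nrs : NrsStmt) (ndf : NdfStmt) (nfp : NfpStmt) (nrf : NrfStmt) (dzf : DzfStmt) :
    TpfStmt := by
  intro ℓ _ F V E A A' B F' _ _ _ _ _ _ _ _ _ _ _ _ _ _ _ φ α Y W' W α' hV hcy hWW hst hA N D
    hinj
  have : Fintype W' := Fintype.ofFinite _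
  have hℓ : (ℓ : F) = 0 := CharP.cast_eq_zero F ℓ
  have hℓR : (ℓ : PowerSeries F) = 0 := by
    rw [← map_natCast (PowerSeries.C (R := F)) ℓ, hℓ, map_zero]
  obtain ⟨N₁, hN₁⟩ := nrs F V A B α W W' N hWW
  obtain ⟨Ω, _, _, b, c, hfr⟩ := D.per
  obtain ⟨B', _, _, ⟨N'⟩⟩ := nwe α' hfr (W.subgroupOf W')
  obtain ⟨D', _⟩ := ndf ℓ (PowerSeries F) F W' A A' B B' PowerSeries.X
    (PowerSeries.constantCoeff (R := F)) (α.comp W'.subtype) α' (W.subgroupOf W') N₁ N' D hℓR
    (hV.to_subgroup W') (red_X F)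
  have hnwh : N₁.nwh = N.nwh.comp W'.subtype := MonoidHom.ext hN₁
  rw [hnwh] at D'
  obtain ⟨hper, _⟩ := nfp ℓ F V E A B φ α W N hℓ hV hst hA.per hA.uni
  obtain ⟨lam, K, _, x, y, hRF, u, hu⟩ := hA.rt
  obtain ⟨lam', K', _, x', y', hRF', hs⟩ :=
    nrf ℓ F V E A B K φ α W N lam x y hℓ hV hst hA.per hRF
  have hζ : ∀ a, a * ∑ k, x k * y k = (∑ k, x k * y k) * a := by
    intro a
    have h1 := S0.H80.zrt F V A K α lam x y hRF 1 (by
      rw [mem_cw]
      intro q _
      rw [mul_one, one_mul]) a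
    simpa only [mul_one] using h1
  have hu' : (∑ k, x k * y k) * u = 1 := by rw [← hζ, hu]
  have huc : ∀ a, u * a = a * u := by
    intro a
    calc u * a = u * a * ((∑ k, x k * y k) * u) := by rw [hu', mul_one]
      _ = u * (a * ∑ k, x k * y k) * u := by simp only [mul_assoc]
      _ = (u * ∑ k, x k * y k) * a * u := by rw [hζ]; simp only [mul_assoc]
      _ = a * u := by rw [hu, one_mul]
  have hfx : ∀ a : A, (∀ c, a * c = c * a) → a ∈ FxR (bw F α) (twW W (1 : MulAut W)) := by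
    intro a ha
    rw [mem_tw]
    intro w
    rw [ha]
    rfl
  have hunit : N.β 1 u * ∑ k, x' k * y' k = 1 := by
    rw [hs]
    have h1 := N.mul 1 1 u (hfx u huc) (∑ k, x k * y k) (hfx _ fun c => (hζ c).symm)
    rw [hu, mul_one] at h1
    rw [← h1, N.one]
  have h := dzf ℓ F V E B B' F' φ N.nwh Y W' N'.nwh hV hcy (nw_fin N hA.fin) hper
    ⟨lam', K', inferInstance, x', y', hRF', _, hunit⟩ D' hinj
  obtain ⟨N'', _⟩ := ngf (S := F') hfr N'
  exact ⟨_, _, _, N'', h⟩

end Pool.Agent.PSS.H60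
end
end -- Pool.Agent.Helper60_PSS.TPF

section -- Pool.Agent.PSS.StmtsS2b

/-!
# Squad PSS, block S2, part b (helper75): the direction for the lift of an algebra of the class

`DRT` is the interface of block S2 with block S1 (rows LFT, FOR).
-/

open scoped BigOperators

noncomputable section

namespace Pool.Agent.PSS.S2

open Pool.Agent.PFC (tw IsTv)
open Pool.Agent.PFD.D2 (Cdv FibG)
open Pool.Agent.PFD.D2b (FrR)

/-- RDG (233). The reduction of `Gz`. Proof: apply `f.q` to `gz_apply`, `nh_apply` and use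
`qa`, `qx`, `qy`, `qb`, `qc` of `LiftV` (`f.q (r • a) = c.κ r • f.q a` by `f.sc`). -/
def RdgStmt : Prop :=
  ∀ (R F V A A' K Ω : Type) [CommRing R] [Field F] (c : Cdv R F) [CommGroup V] [Fintype V] [Ring A]
    [Algebra F A] [Ring A'] [Algebra R A'] [Fintype K] [Fintype Ω] [MulAction (V × V) Ω]
    (α : V →* A) (lam : A →ₗ[F] F) (x y : K → A) (b : Ω → A) (cc : Ω → (A →ₗ[F] F))
    (f : FibG A' A c) (α' : V →* A') (lam' : A' →ₗ[R] R) (x' y' : K → A') (b' : Ω → A')
    (cc' : Ω → (A' →ₗ[R] R)) (z : V) (H : Ω → R),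
    LiftV c α lam x y b cc f α' lam' x' y' b' cc' → ∀ a,
    f.q (Gz α' z x' y' (Nh H b' cc') a) =
      Gz α z x y (Nh (fun ω => c.κ (H ω)) b cc) (f.q a)

/-- DRT (234). Proof. `PrD R φ α' b' cc'` from `LiftV.fr` and the last hypothesis on the
stabilisers; `IsCompl (zpowers z) W` from `Vz`; VDR gives `H₀`, `v`, `χ₀`. `n = orderOf z` is a
power of `ℓ`, `≠ 1`, so `(n : F) = 0` and `(n : R) = π * s`; so `f.q (v a) = f.q (Gz .. a) =
Gz α z x y N (f.q a)`, `N = Nh (fun ω => ((H₀ ω).val : F)) b cc` (RDG), and `N` is a connection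
for `χ v = ((χ₀ v).val : F)` with `q = 0` (CNH), `χ z = 1`. For `d` as in the statement:
`lam (f.q d * a) = - lam (a * rt x y (α z⁻¹))` up to sign: from `lam' (v a) ≡ - lam' (a * rt (α' z⁻¹))`
modulo `n` and reduction `lam (f.q d * a) = lam (rt x y (α z⁻¹) * a)` for all `a` (`f.q`
surjective), so `f.q d = rt x y (α z⁻¹)` (nondegeneracy from RF.e2: `a = ∑ lam (a * (x k * α v)) • ..`).
Then UNT for `w`. -/
def DrtStmt : Prop :=
  ∀ (ℓ : ℕ) [Fact ℓ.Prime] (R F V E A A' K Ω : Type) [CommRing R] [Field F] [IsAlgClosed F]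
    [CharP F ℓ] (c : Cdv R F) [CommGroup V] [Fintype V] [Group E] [Ring A]
    [Algebra F A] [FiniteDimensional F A] [Ring A'] [Algebra R A'] [Fintype K] [Fintype Ω]
    [MulAction (V × V) Ω] (φ : E →* MulAut V) (W : Subgroup V) (z : V)
    (α : V →* A) (lam : A →ₗ[F] F) (x y : K → A) (b : Ω → A) (cc : Ω → (A →ₗ[F] F))
    (f : FibG A' A c) (α' : V →* A') (lam' : A' →ₗ[R] R) (x' y' : K → A') (b' : Ω → A')
    (cc' : Ω → (A' →ₗ[R] R)) (u : A), IsPGroup ℓ V → Vz φ W z → z ≠ 1 →
    RF F α lam x y → PrD F φ α b cc → u * rt x y 1 = 1 →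
    (∀ e : A, (∀ a', e * a' = a' * e) → e * e = e → e ∈ BKR (cw F α) ⊤ → e = 0) →
    LiftV c α lam x y b cc f α' lam' x' y' b' cc' →
    ∃ v : A' →ₗ[R] A',
      (∀ w ∈ W, ∀ a, v (α' w * a) = α' w * v a ∧ v (a * α' w) = v a * α' w) ∧
      (∀ a d, Cg (orderOf z : R) (v (a * d)) (v a * d + a * v d)) ∧
      ∀ d : A', (∀ a, ∃ ρ : R, lam' (d * a) + lam' (v a) = (orderOf z : R) * ρ) →
        ∀ w : V, IsNilpotent (f.q (d * rt x' y' (α' w) + v (rt x' y' (α' w))) -
          rt x y 1 * rt x y 1)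

end Pool.Agent.PSS.S2
end
end -- Pool.Agent.PSS.StmtsS2b

section -- Pool.Agent.Helper75_PSS.DRT

noncomputable section

namespace Pool.Agent.PSS.S2.H75

open scoped BigOperators
open Pool.Agent.PFD.D2 (Cdv FibG)
open Pool.Agent.PFD.D2b (FrR)

theorem q_smul {R F A A' : Type} [CommRing R] [Field F] {c : Cdv R F} [Ring A] [Algebra F A]
    [Ring A'] [Algebra R A'] (f : FibG A' A c) (r : R) (a : A') :
    f.q (r • a) = c.κ r • f.q a := by
  rw [Algebra.smul_def, map_mul, f.sc, ← Algebra.smul_def]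

theorem rdg : RdgStmt := by
  intro R F V A A' K Ω _ _ c _ _ _ _ _ _ _ _ _ α lam x y b cc f α' lam' x' y' b' cc' z H L a
  have hN : ∀ a, f.q (Nh H b' cc' a) = Nh (fun ω => c.κ (H ω)) b cc (f.q a) := by
    intro a
    rw [nh_apply, nh_apply, map_sum]
    refine Finset.sum_congr rfl fun ω _ => ?_
    rw [q_smul, map_mul, L.qb, L.qc]
  rw [gz_apply, gz_apply, map_sum]
  refine Finset.sum_congr rfl fun k _ => ?_
  rw [map_mul f.q, map_sub f.q, map_mul f.q, map_mul f.q, map_sub f.q, map_one f.q, hN, hN,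
    map_mul f.q, L.qx, L.qy, L.qa]

theorem nondeg {R V A K : Type} [CommRing R] [CommGroup V] [Fintype V] [Ring A] [Algebra R A]
    [Fintype K] {α : V →* A} {lam : A →ₗ[R] R} {x y : K → A} (h : RF R α lam x y) {a : A}
    (ha : ∀ b, lam (a * b) = 0) : a = 0 := by
  rw [← h.e2 a]
  refine Finset.sum_eq_zero fun k _ => Finset.sum_eq_zero fun v _ => ?_
  rw [ha, zero_smul]

theorem drt (hVDR : VdrStmt) (hRDG : RdgStmt) (hCNH : CnhStmt) (hUNT : UntStmt) : DrtStmt := by
  intro ℓ _ R F V E A A' K Ω _ _ _ _ c _ _ _ _ _ _ _ _ _ _ _ φ W z α lam x y b cc f α' lam' x'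
    y' b' cc' u hV hz hz1 hRF hPr hu hblk L
  have hPr' : PrD R φ α' b' cc' := ⟨L.fr, hPr.st⟩
  -- complement
  have hcompl : IsCompl (Subgroup.zpowers z) W := by
    constructor
    · rw [Subgroup.disjoint_def]
      intro v hv hw
      rw [← mem_powers_iff_mem_zpowers] at hv
      obtain ⟨j, hj⟩ := hv
      simp only at hj
      rw [← hj] at hw ⊢
      exact hz.dis j hw
    · rw [codisjoint_iff, eq_top_iff]
      intro v _
      obtain ⟨j, w, hw, rfl⟩ := hz.gen v
      exact Subgroup.mul_mem_sup (Subgroup.npow_mem_zpowers z j) hw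
  obtain ⟨H₀, v, hvW, hvd, hvl, ⟨χ₀, hχa, hχz, hχH⟩, hvG⟩ :=
    hVDR R V E A' K Ω φ α' z W lam' x' y' b' cc' L.rf hPr' hz.stb hcompl
  refine ⟨v, hvW, hvd, ?_⟩
  intro d hd w
  -- n = 0 in F
  have hn1 : 1 < orderOf z := by
    rcases Nat.lt_trichotomy (orderOf z) 1 with h | h | h
    · have := orderOf_pos z
      omega
    · exact absurd (orderOf_eq_one_iff.mp h) hz1
    · exact h
  have hℓn : ℓ ∣ orderOf z := by
    obtain ⟨k, hk⟩ := hV z
    obtain ⟨j, -, hj⟩ := (Nat.dvd_prime_pow Fact.out).mp (orderOf_dvd_of_pow_eq_one hk)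
    rcases j with _ | j
    · rw [pow_zero] at hj
      omega
    · rw [hj, pow_succ]
      exact dvd_mul_left _ _
  have hnF : (orderOf z : F) = 0 := (CharP.cast_eq_zero_iff F ℓ _).mpr hℓn
  have hκn : c.κ (orderOf z : R) = 0 := by rw [map_natCast, hnF]
  have hcg : ∀ p p' : A', Cg (orderOf z : R) p p' → f.q p = f.q p' := by
    rintro p p' ⟨e, he⟩
    have := congrArg f.q he
    rw [map_sub, q_smul, hκn, zero_smul] at this
    exact sub_eq_zero.mp this
  have hcgR : ∀ p p' : R, Cg (orderOf z : R) p p' → c.κ p = c.κ p' := by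
    rintro p p' ⟨e, he⟩
    have := congrArg c.κ he
    rw [map_sub, smul_eq_mul, map_mul, hκn, zero_mul] at this
    exact sub_eq_zero.mp this
  have hval : ∀ p p' : ZMod (orderOf z), ((p + p').val : F) = p.val + p'.val := by
    intro p p'
    have : NeZero (orderOf z) := ⟨by omega⟩
    rw [ZMod.val_add]
    have h := Nat.mod_add_div (p.val + p'.val) (orderOf z)
    have h2 := congrArg (Nat.cast : ℕ → F) h
    rw [Nat.cast_add, Nat.cast_mul, hnF, zero_mul, add_zero, Nat.cast_add] at h2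
    exact h2
  set N : A →ₗ[F] A := Nh (fun ω => ((H₀ ω).val : F)) b cc with hN
  have hvq : ∀ a, f.q (v a) = Gz α z x y N (f.q a) := by
    intro a
    rw [hcg _ _ (hvG a), hRDG R F V A A' K Ω c α lam x y b cc f α' lam' x' y' b' cc' z _ L a]
    simp only [map_natCast]
    rfl
  have hval0 : ∀ p : ZMod (orderOf z), ((-p).val : F) = - (p.val : F) := by
    intro p
    have h := hval p (-p)
    rw [add_neg_cancel, ZMod.val_zero, Nat.cast_zero] at h
    exact (neg_eq_of_add_eq_zero_right h.symm).symm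
  have hCn : Cn 0 α (fun v => ((χ₀ v).val : F)) N := by
    refine hCNH F V A Ω 0 α (fun v => ((χ₀ v).val : F)) (fun ω => ((H₀ ω).val : F)) b cc hPr.fr ?_ ?_
    · intro p p'
      rw [cg_zero, hχa, hval]
    · intro v ω
      rw [cg_zero, hχH, sub_eq_add_neg, hval, hval0, sub_eq_add_neg]
  have hχ1 : ((χ₀ z).val : F) = 1 := by
    rw [hχz]
    have : Fact (1 < orderOf z) := ⟨hn1⟩
    rw [ZMod.val_one, Nat.cast_one]
  -- d
  have hdq : f.q d = rt x y (α z⁻¹) := by
    have h0 : ∀ a : A, lam (f.q d * a) = lam (rt x y (α z⁻¹) * a) := by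
      intro a
      obtain ⟨a', rfl⟩ := f.surj a
      obtain ⟨ρ, hρ⟩ := hd a'
      have h1 := congrArg c.κ hρ
      rw [map_add c.κ, map_mul c.κ, hκn, zero_mul, L.ql, map_mul f.q] at h1
      have h2 := hcgR _ _ (hvl a')
      rw [map_neg c.κ, L.ql, L.ql, map_mul f.q] at h2
      rw [L.ql] at h1
      rw [h2] at h1
      have h3 : f.q (rt x' y' (α' z⁻¹)) = rt x y (α z⁻¹) := by
        rw [rt, rt, map_sum]
        refine Finset.sum_congr rfl fun k _ => ?_
        rw [map_mul f.q, map_mul f.q, L.qx, L.qy, L.qa]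
      rw [h3] at h1
      rw [add_neg_eq_zero] at h1
      rw [h1, hRF.sym]
    have h4 : f.q d - rt x y (α z⁻¹) = 0 := by
      refine nondeg hRF ?_
      intro a
      rw [sub_mul, map_sub, h0, sub_self]
    exact sub_eq_zero.mp h4
  have hrt : f.q (rt x' y' (α' w)) = rt x y (α w) := by
    rw [rt, rt, map_sum]
    refine Finset.sum_congr rfl fun k _ => ?_
    rw [map_mul f.q, map_mul f.q, L.qx, L.qy, L.qa]
  rw [map_add f.q, map_mul f.q, hdq, hvq, hrt]
  exact (hUNT ℓ F V E A K Ω φ α z lam x y b cc (fun v => ((χ₀ v).val : F)) N u hV hRF hPr hu hCn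
    hχ1 hblk w).2

end Pool.Agent.PSS.S2.H75
end
end -- Pool.Agent.Helper75_PSS.DRT

section -- Pool.Agent.PSS.StmtsS2c

/-!
# Squad PSS, block S2, part c (helper75): the deformation of an algebra of the class

`DTP` is the output of blocks S1 and S2: the input `Dpr` of block S3.
-/

open scoped BigOperators PowerSeries

noncomputable section

namespace Pool.Agent.PSS.S2

open Pool.Agent.PFC (tw IsTv)
open Pool.Agent.PFD.D2 (Cdv FibG)
open Pool.Agent.PFD.D2b (FrR)

/-- DTP (235). Every algebra of the class has a deformation relative to `W` over `F⟦X⟧` with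
`∑ x k * y k = X • unit`.  (uses LFT DRT GEN PER SPF FRE RTC S3.UNX)

Proof.  LFT for `wittCdv ℓ F`, DRT: `v`; `d` with `lam' (d a) = - lam' (v a)` (`lam'` is perfect).
GEN: `D₀`, `Λ₀`, `x'`, `y'`, `rt x' y' (D₀.w 1) = X • r`, `D₀.sq r 0 = - (ζ ^ 2 + nilpotent)`,
`ζ = rt x y 1` central (RTC) and a unit, so `D₀.sq r 0` is a unit and `r` is a unit (S3.UNX with
`q = π₀` from SPF).  `Per` by PER; the units: `D₀.of (cst n)` for the units `n` of `A`. -/
def DtpStmt : Prop :=
  ∀ (ℓ : ℕ) [Fact ℓ.Prime] (F V E A : Type) [Field F] [IsAlgClosed F] [CharP F ℓ] [CommGroup V]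
    [Fintype V] [Group E] [Ring A] [Algebra F A] (φ : E →* MulAut V) (α : V →* A)
    (W : Subgroup V) [Fintype W] (ψ : E →* MulAut W) (z : V), IsPGroup ℓ V → Vz φ W z → z ≠ 1 →
    IsRs φ W ψ → Cl F φ α →
    ∃ (As K K0 : Type) (_ : Ring As) (_ : Algebra F⟦X⟧ As) (_ : Module.Finite F⟦X⟧ As)
      (_ : Module.Free F⟦X⟧ As) (_ : Fintype K) (_ : Fintype K0) (γ : W →* As) (q : As →+* A)
      (lam : As →ₗ[F⟦X⟧] F⟦X⟧) (lam0 : A →ₗ[F] F) (x y : K → As) (x0 y0 : K0 → A),
      S3.Dpr F φ α W ψ γ q lam lam0 x y x0 y0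

end Pool.Agent.PSS.S2
end
end -- Pool.Agent.PSS.StmtsS2c

section -- Pool.Agent.Helper75_PSS.DTP

noncomputable section

namespace Pool.Agent.PSS.S2.H75

open scoped BigOperators PowerSeries
open Pool.Agent.PFC (tw IsTv)
open Pool.Agent.PFD.D2 (Cdv FibG wittCdv)
open Pool.Agent.PFD.D2b (FrR)
open Dm (cst)

theorem dtp (hLFT : LftStmt) (hDRT : DrtStmt) (hGEN : GenStmt) (hPER : PerStmt) (hSPF : SpfStmt)
    (hFRE : FreStmt) (hRTC : RtcStmt) (hUNX : S3.UnxStmt) : DtpStmt := by
  intro ℓ _ F V E A _ _ _ _ _ _ _ _ φ α W _ ψ z hV hz hz1 hrs hCl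
  haveI := hCl.fin
  obtain ⟨lam0, K0, _, x0, y0, hRF0, u, hu⟩ := hCl.rt
  obtain ⟨Ω, _, _, b, cc, hfr, hst⟩ := hCl.per
  have hu1 : u * rt x0 y0 1 = 1 := by
    rw [rt]
    simpa using hu
  have hPr : PrD F φ α b cc := ⟨hfr, hst⟩
  have hblk : ∀ e : A, (∀ a', e * a' = a' * e) → e * e = e → e ∈ BKR (cw F α) ⊤ → e = 0 := by
    intro e he hee heB
    have hbot : BKR (cw F α) (⊥ : Subgroup V) = ⊥ := by
      rw [BKR, Submodule.span_eq_bot]
      rintro n ⟨P', S, m, hlt, -⟩
      exact absurd hlt not_lt_bot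
    have h := hCl.blk ⊥ e ?_ ?_ ?_ heB
    · rw [hbot, Submodule.mem_bot] at h
      exact h
    · intro v _
      show α v * (e * α v⁻¹) = e
      rw [← mul_assoc, ← he, mul_assoc, ← map_mul, mul_inv_cancel, map_one, mul_one]
    · rw [hee, sub_self]
      exact Submodule.zero_mem _
    · intro a _
      rw [he, sub_self]
      exact Submodule.zero_mem _
  let R := WittVector ℓ F
  let c : Cdv R F := wittCdv ℓ F
  haveI : CharZero R := Pool.Agent.PFD.D2.witt_charZero ℓ F
  obtain ⟨A', _, _, _, _, f, α', lam', x', y', b', cc', u', L, hu'⟩ :=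
    hLFT R F V A K0 Ω c α lam0 x0 y0 b cc u hCl.fin hRF0 hfr hu1
  obtain ⟨v, hvW, hvd, hvn⟩ := hDRT ℓ R F V E A A' K0 Ω c φ W z α lam0 x0 y0 b cc f α' lam' x' y'
    b' cc' u hV hz hz1 hRF0 hPr hu1 hblk L
  -- the element d
  let d : A' := - ∑ k, ∑ g, lam' (v (x' k * α' g)) • (α' g⁻¹ * y' k)
  have hd : ∀ a, lam' (d * a) + lam' (v a) = 0 := by
    intro a
    have h1 : lam' (d * a) = - ∑ k, ∑ g, lam' (v (x' k * α' g)) * lam' (α' g⁻¹ * y' k * a) := by
      rw [neg_mul, map_neg, Finset.sum_mul, map_sum]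
      congr 1
      refine Finset.sum_congr rfl fun k _ => ?_
      rw [Finset.sum_mul, map_sum]
      refine Finset.sum_congr rfl fun g _ => ?_
      rw [smul_mul_assoc, map_smul, smul_eq_mul]
    have h2 : lam' (v a) = ∑ k, ∑ g, lam' (v (x' k * α' g)) * lam' (α' g⁻¹ * y' k * a) := by
      conv_lhs => rw [← L.rf.e1 a]
      rw [map_sum, map_sum]
      refine Finset.sum_congr rfl fun k _ => ?_
      rw [map_sum, map_sum]
      refine Finset.sum_congr rfl fun g _ => ?_
      rw [map_smul, map_smul, smul_eq_mul, mul_comm]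
    rw [h1, h2, neg_add_cancel]
  have hnil := hvn d (fun a => ⟨0, by rw [hd, mul_zero]⟩)
  -- n = 0 modulo π
  have hℓn : ℓ ∣ orderOf z := by
    obtain ⟨k, hk⟩ := hV z
    obtain ⟨j, -, hj⟩ := (Nat.dvd_prime_pow Fact.out).mp (orderOf_dvd_of_pow_eq_one hk)
    rcases j with _ | j
    · rw [pow_zero] at hj
      exact absurd (orderOf_eq_one_iff.mp hj) hz1
    · rw [hj, pow_succ]
      exact dvd_mul_left _ _
  have hnF : (orderOf z : F) = 0 := (CharP.cast_eq_zero_iff F ℓ _).mpr hℓn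
  have hκn : c.κ (orderOf z : R) = 0 := by rw [map_natCast, hnF]
  have hStE : StE φ Ω := by
    intro ω p q hpq
    obtain ⟨e, S, hS⟩ := hst ω
    have hmem : ((p, q) : V × V) ∈ MulAction.stabilizer (V × V) ω := hpq
    rw [hS, tw, Subgroup.mem_map] at hmem
    obtain ⟨s, -, hs⟩ := hmem
    refine ⟨e, ?_⟩
    have h1 : φ e s = p := congrArg Prod.fst hs
    have h2 : s = q := congrArg Prod.snd hs
    rw [← h1, h2]
  obtain ⟨D₀, Λ₀, κ', _, X', Y', hRF, hlr, hrt⟩ := hGEN R F V E A' A K0 Ω φ W z α' lam' x' y' b' cc'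
    u' c f α lam0 v d L.rf L.fr hStE hz hu' L.qa L.ql ((c.ker _).mp hκn) hvW
    (by
      intro a a'
      obtain ⟨e, he⟩ := hvd a a'
      refine ⟨e, ?_⟩
      rw [← he]
      abel)
    (by
      intro a
      have h := hd a
      rw [L.rf.sym a d, add_comm, h, map_zero])
  obtain ⟨π₀, hπof, hπsc, hπs, hπw, hπk⟩ := hSPF F W A (aw α W) D₀
  obtain ⟨hfin, hfree⟩ := hFRE F W A (aw α W) D₀
  have hπsq : ∀ a : D₀.R, π₀ a = D₀.sq a 0 := by
    intro a
    conv_lhs => rw [← D₀.of_sq a]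
    rw [hπof]
  have hPer : Per F⟦X⟧ ψ D₀.w := hPER F V E A φ W ψ α D₀ hrs hCl.per
  have hunx := hUNX F W E A D₀.R ψ D₀.w π₀ hPer hπs hπk
  obtain ⟨r, hr1, hr2⟩ := hrt 1
  have hcv1 : ∀ v, α v * (1 : A) = 1 * α v := fun v => by rw [mul_one, one_mul]
  have hζ : ∀ a, a * rt x0 y0 1 = rt x0 y0 1 * a :=
    ((hRTC F V A K0 K0 α lam0 x0 y0 hRF0).1 1 hcv1)
  have hζu : rt x0 y0 1 * u = 1 := by rw [← hζ, hu1]
  have hζU : IsUnit (rt x0 y0 (1 : A)) := ⟨⟨rt x0 y0 1, u, hζu, hu1⟩, rfl⟩
  have hrunit : IsUnit (D₀.sq r 0) := by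
    rw [hr2]
    have h1 := hnil 1
    set ν := f.q (d * rt x' y' (α' 1) + v (rt x' y' (α' 1))) - rt x0 y0 1 * rt x0 y0 1 with hν
    have h2 : f.q (v (rt x' y' (α' ((1 : W) : V))) + d * rt x' y' (α' ((1 : W) : V))) =
        rt x0 y0 1 * rt x0 y0 1 + ν := by
      rw [hν]
      have : (((1 : W) : V)) = 1 := rfl
      rw [this, add_comm (v _)]
      abel
    rw [h2]
    refine IsUnit.neg ?_
    refine IsNilpotent.isUnit_add_left_of_commute h1 (hζU.mul hζU) ?_
    show ν * (rt x0 y0 1 * rt x0 y0 1) = rt x0 y0 1 * rt x0 y0 1 * ν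
    rw [← mul_assoc, hζ, mul_assoc, hζ, ← mul_assoc]
  obtain ⟨ru, hru⟩ := hrunit
  obtain ⟨r', hrr', hr'r⟩ := hunx r (ru⁻¹ : Aˣ) (by rw [hπsq, ← hru]; simp)
    (by rw [hπsq, ← hru]; simp)
  refine ⟨D₀.R, κ', K0, inferInstance, inferInstance, hfin, hfree, inferInstance, inferInstance,
    D₀.w, π₀, Λ₀, lam0, X', Y', x0, y0, ?_⟩
  refine ⟨hCl, hrs, hPer, ?_, hπsc, hπs, hπk, hπw, hRF, hRF0, ?_, ?_⟩
  · intro e
    obtain ⟨y, y', hyy, hy'y, hyα⟩ := hCl.uni e
    obtain ⟨Y, hY1, hY2⟩ := hunx (D₀.of (cst y)) y' (by rw [hπof]; simpa [cst] using hyy)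
      (by rw [hπof]; simpa [cst] using hy'y)
    refine ⟨D₀.of (cst y), Y, hY1, hY2, ?_⟩
    intro w
    rw [Dm.w_mul_of]
    have e1 : D₀.of (cst y) * D₀.w w = D₀.of (cst (y * α w)) := by
      have e2 : D₀.w w = D₀.of (cst (α w)) := rfl
      rw [e2, ← D₀.of_mul]
      congr 1
      funext n
      rw [Dm.mul]
      rcases n with _ | n
      · have ha : Finset.HasAntidiagonal.antidiagonal 0 = {((0 : ℕ), 0)} := rfl
        rw [ha, Finset.sum_singleton]
        simp only
        rw [ha, Finset.sum_singleton]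
        simp only [cst, if_true]
        exact D₀.m0 _ _
      · rw [cst, if_neg (Nat.succ_ne_zero n)]
        refine Finset.sum_eq_zero fun p hp => Finset.sum_eq_zero fun q hq => ?_
        simp only [cst]
        split_ifs with h1 h2
        · rw [Finset.HasAntidiagonal.mem_antidiagonal] at hp hq
          have : p.1 = n + 1 := by omega
          rw [this]
          exact D₀.m_om_right n w y
        · rw [map_zero]
        · rw [map_zero, LinearMap.zero_apply]
        · rw [map_zero]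
    rw [e1]
    congr 1
    funext n
    simp only [cst]
    split_ifs
    · have h1 := hyα w
      show y * α w = α (ψ e w : V) * y
      rw [h1, hrs e w]
    · rw [mul_zero]
  · intro a
    conv_lhs => rw [← D₀.of_sq a]
    rw [hlr, hπsq]
  · refine ⟨r, r', hrr', hr'r, ?_⟩
    rw [← hr1, rt, map_one]
    simp

end Pool.Agent.PSS.S2.H75
end
end -- Pool.Agent.Helper75_PSS.DTP

section -- Pool.Agent.PSS.Stp

/-!
# Squad PSS: the step from the outputs of the blocks S1 - S4
-/

open scoped BigOperators TensorProduct PowerSeries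

noncomputable section

namespace Pool.Agent.PSS

open Pool.Agent.PFC (tw IsTv)
open Pool.Agent.PFD.D2b (FrR)

/-- an algebraically closed field over `F⟦X⟧` -/
theorem exists_gf (ℓ : ℕ) [Fact ℓ.Prime] (F : Type) [Field F] [CharP F ℓ] :
    ∃ (F' : Type) (_ : Field F') (_ : IsAlgClosed F') (_ : CharP F' ℓ) (_ : Algebra F⟦X⟧ F'),
      Function.Injective (algebraMap F⟦X⟧ F') := by
  have hinj : Function.Injective (algebraMap F⟦X⟧ (AlgebraicClosure (FractionRing F⟦X⟧))) := by
    rw [IsScalarTower.algebraMap_eq F⟦X⟧ (FractionRing F⟦X⟧)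
      (AlgebraicClosure (FractionRing F⟦X⟧))]
    exact (algebraMap (FractionRing F⟦X⟧) (AlgebraicClosure (FractionRing F⟦X⟧))).injective.comp
      (IsFractionRing.injective F⟦X⟧ (FractionRing F⟦X⟧))
  have hchar : CharP (AlgebraicClosure (FractionRing F⟦X⟧)) ℓ := by
    have h1 : CharP F⟦X⟧ ℓ := by
      have : Function.Injective (PowerSeries.C : F →+* F⟦X⟧) := PowerSeries.C_injective
      exact charP_of_injective_ringHom this ℓ
    exact charP_of_injective_ringHom hinj ℓ
  exact ⟨AlgebraicClosure (FractionRing F⟦X⟧), inferInstance, inferInstance, hchar,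
    inferInstance, hinj⟩

/-- `W` has index divisible by `ℓ` -/
theorem dvd_idx {ℓ : ℕ} [Fact ℓ.Prime] {V : Type} [CommGroup V] [Fintype V] (hp : IsPGroup ℓ V)
    {Y W : Subgroup V} (hc : IsCompl Y W) (hY : Y ≠ ⊥) : ℓ ∣ W.index := by
  have h1 : W.index ≠ 1 := by
    intro h
    rw [Subgroup.index_eq_one] at h
    subst h
    have := hc.disjoint
    rw [disjoint_top] at this
    exact hY this
  obtain ⟨n, hn⟩ := hp.index W
  rw [hn] at h1 ⊢
  rcases n with _ | n
  · exact (h1 (pow_zero ℓ)).elim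
  · exact dvd_pow_self ℓ (Nat.succ_ne_zero n)

/-- the deformation in the sense of `Df` -/
def S3.Dpr.df {F V E A As K K0 : Type} [Field F] [CommGroup V] [Fintype V] [Group E]
    [Ring A] [Algebra F A] [Ring As] [Algebra F⟦X⟧ As] [Fintype K] [Fintype K0]
    {φ : E →* MulAut V} {α : V →* A} {W : Subgroup V} [Fintype W] {ψ : E →* MulAut W}
    {γ : W →* As} {q : As →+* A} {lam : As →ₗ[F⟦X⟧] F⟦X⟧} {lam0 : A →ₗ[F] F}
    {x y : K → As} {x0 y0 : K0 → A} (D : S3.Dpr F φ α W ψ γ q lam lam0 x y x0 y0) :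
    Df (PowerSeries.X : F⟦X⟧) PowerSeries.constantCoeff (aw α W) γ where
  q := q
  sc := D.sc
  surj := D.surj
  ker := D.ker
  qw := D.qw
  per := by
    obtain ⟨Ω, i1, i2, b, c, hf, _⟩ := D.per
    exact ⟨Ω, i1, i2, b, c, hf⟩

/-- STP -/
theorem stp (vzc : VzcStmt) (dtp : S2.DtpStmt) (gfc : S3.GfcStmt) (dzd : DzdStmt)
    (tpf : TpfStmt) : StpStmt := by
  intro ℓ _ F V E A B _ _ _ _ _ _ _ _ _ _ _ φ α Y W' W _ ψ hp hE hY hr hWW hst hA N
  by_cases hY0 : Y = ⊥
  · have hW' : W' = ⊤ := by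
      have h1 := hY.cmp.sup_eq_top
      rw [hY0, bot_sup_eq] at h1
      exact h1
    exact trv ℓ F V E A B φ α W' W ψ hW' hr hA N
  · obtain ⟨z, hz, hvz, hzc, hz1⟩ := vzc V E φ Y W' hY
    obtain ⟨As, K, K0, _, _, _, _, _, _, γ, q, lam, lam0, x, y, x0, y0, D⟩ :=
      dtp ℓ F V E A φ α W' ψ z hp hvz (hz1 hY0) hr hA
    obtain ⟨F', _, _, _, _, hinj⟩ := exists_gf ℓ F
    have hfaith : FaithfulSMul F⟦X⟧ F' := (faithfulSMul_iff_algebraMap_injective F⟦X⟧ F').2 hinj
    have hfin : FiniteDimensional F A := hA.fin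
    obtain ⟨lam1, K1, _, x1, y1, hrf, u, hu⟩ := hA.rt
    have hu' : u * rt x1 y1 1 = 1 := by
      refine Eq.trans ?_ hu
      simp only [rt, mul_one]
    obtain ⟨B', _, _, N', hB'⟩ := tpf ℓ F V E A As B F' φ α Y W' W γ hp hY hWW hst hA N D.df hinj
    refine ⟨F', F' ⊗[F⟦X⟧] As, B', inferInstance, inferInstance, inferInstance, inferInstance,
      inferInstance, inferInstance, inferInstance, bcw (R := F⟦X⟧) (S := F') γ, N', ?_, ?_, hB'⟩
    · exact gfc ℓ F F' V E A As K K0 φ α W' ψ γ q lam lam0 x y x0 y0 hinj hp hE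
        (dvd_idx hp hY.cmp hY0) D
    · exact dzd ℓ F V E A As F' K1 φ W' z α γ lam1 x1 y1 u hA.per hrf hu' hvz D.df

end Pool.Agent.PSS
end
end -- Pool.Agent.PSS.Stp
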