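import Pool.Agent.Helper12_AWB.B006
import Pool.Agent.Helper12_AWB.B008
import Pool.Agent.Helper12_AWB.B018

/-!
# Merged copies (generated) of the modules

* `Pool.Agent.PSS.DefsOB`
* `Pool.Agent.PSS.StmtsOB`
* `Pool.Agent.PST.DefsR`
* `Pool.Agent.PST.DefsT`
* `Pool.Agent.PST.DefsK`
* `Pool.Agent.PST.StmtsDR`
* `Pool.Agent.Helper29_PSS.HCW`
* `Pool.Agent.Helper29_PSS.STX`
* `Pool.Agent.Helper2_PSS.FZ0`
* `Pool.Agent.Helper33_PSS.H2V`
* `Pool.Agent.Helper41_PSS.GAM`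
* `Pool.Agent.Helper41_PSS.H2W`
* `Pool.Agent.Helper45_PSS.XCW`
* `Pool.Agent.Helper52_PSS.SYD`
* `Pool.Agent.Helper77_PSS.XCO`
-/

set_option autoImplicit false

section -- Pool.Agent.PSS.DefsOB

/-!
# Theorem (S+), block OB (obstructions): definitions (helper36)

`W ≤ V` is an `E`-stable subgroup (no complement is needed).  `C : KC R K B α lam x y b c` is the
context of block S1: an order `A` in the `K`-algebra `B`.
`brk m c` is the bracket of the 2-cochains `m`, `c`.  `Z2 C W cc`: `cc` is a normalised `W`-relative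
2-cocycle with values in `B / A`.  `Fz C cc`: the alternating forms
`(u, v) ↦ cc u v - cc v u` of `cc` vanish at all points of the frame.  `Bi C W m₁ cc`: the Bianchi
identity.
-/

open scoped BigOperators TensorProduct

noncomputable section

namespace Pool.Agent.PSS

open Pool.Agent.PFD.D2b (FrR)
open Finset

/-- the bracket of the 2-cochains `m`, `c` -/
def brk {B : Type} [Ring B] (m c : B → B → B) (x y z : B) : B :=
  m (c x y) z - m x (c y z) + c (m x y) z - c x (m y z)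

/-- `W` is `E`-stable -/
def Stb {V E : Type} [CommGroup V] [Group E] (φ : E →* MulAut V) (W : Subgroup V) : Prop :=
  ∀ e : E, ∀ w ∈ W, φ e w ∈ W

section ctx

variable {R K B : Type} {V A κ Ω : Type} [CommRing R] [Field K] [Algebra R K] [CommGroup V]
  [Fintype V] [Ring A] [Algebra R A] [Ring B] [Algebra R B] [Algebra K B] [Fintype κ] [Fintype Ω]
  [MulAction (V × V) Ω] {α : V →* A} {lam : A →ₗ[R] R} {x y : κ → A} {b : Ω → A}
  {c : Ω → (A →ₗ[R] R)}

/-- `cc` is a normalised `W`-relative 2-cocycle with values in `B / A` -/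
structure Z2 (C : KC R K B α lam x y b c) (W : Subgroup V) (cc : B →ₗ[K] B →ₗ[K] B) : Prop where
  rel : WB2 (ia C.i α) W (fun a b => cc a b)
  nrm : Nrm (fun a b => cc a b)
  cyc : ∀ a₁ a₂ a₃, In C.i (dl (fun a b => cc a b) (C.i a₁) (C.i a₂) (C.i a₃))

/-- the alternating forms of `cc` vanish (as functions with values in `K / R`) -/
def Fz (C : KC R K B α lam x y b c) (cc : B →ₗ[K] B →ₗ[K] B) : Prop :=
  ∀ (ω : Ω) (u v : V), ((u, u) : V × V) • ω = ω → ((v, v) : V × V) • ω = ω →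
    ∃ r : R, C.cK ω ((cc (C.i (α u)) (C.i (α v)) - cc (C.i (α v)) (C.i (α u))) *
      C.i (α (u * v)⁻¹)) = algebraMap R K r

/-- the Bianchi identity: `[m₁, cc]` is a coboundary modulo `A` -/
def Bi (C : KC R K B α lam x y b c) (W : Subgroup V) (m₁ cc : B →ₗ[K] B →ₗ[K] B) : Prop :=
  ∃ c' : B →ₗ[K] B →ₗ[K] B, WB2 (ia C.i α) W (fun a b => c' a b) ∧ Nrm (fun a b => c' a b) ∧
    ∀ a₁ a₂ a₃, In C.i (brk (fun a b => m₁ a b) (fun a b => cc a b) (C.i a₁) (C.i a₂) (C.i a₃) +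
      dl (fun a b => c' a b) (C.i a₁) (C.i a₂) (C.i a₃))

end ctx

end Pool.Agent.PSS
end
end -- Pool.Agent.PSS.DefsOB

section -- Pool.Agent.PSS.StmtsOB

/-!
# Theorem (S+), block OB, part e (helper36): vanishing forms imply that the cocycle is a coboundary

`W ≤ V` is `E`-stable, no complement, `V / W` any finite abelian group.  Complete proofs in the
docstrings.  Notation: `v` for `i (α v)`, `≡` = congruent modulo `i A` (products of `≡` with elements
of `i A` are allowed), `u·f = u f u⁻¹`.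

Proved rows of block S1 which do not use that `V / W` is cyclic: FXL (Pool.Agent.PSS.H63.fxl), HCC
(H20.hcc), LFG (H49.lfg), CSU (H95.csu), TRX (H20.trx), TRA (H92.tra), TRC (H84.trc), DLC (H21.dlc),
LIM (H75.lim), BLT (H82.blt), DMR, DMF (H29.dmr, H29.dmf).
-/

open scoped BigOperators TensorProduct

noncomputable section

namespace Pool.Agent.PSS

open Pool.Agent.PFD.D2 (Cdv FibG)
open Pool.Agent.PFD.D2b (FrR)
open Finset

/-! ### Group cohomology -/

/-- SYD (810): a symmetric 2-cocycle with values in a divisible group is a coboundary.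

Proof.  `X = S × D` with `(u, a) (v, b) = (u v, a + b + f u v)` is a commutative group (unit
`(1, - f 1 1)`; `f 1 v = f 1 1` by the cocycle identity for `(1, 1, v)`), `D → X`,
`a ↦ (1, a - f 1 1)` is an injective homomorphism and `D` is divisible, so (Baer; in Mathlib
`AddCommGrp.injective_of_divisible` or similar) there is a homomorphism `r : X → D` with
`r (1, a - f 1 1) = a`.  `h u = r (u, 0)`: `h u + h v = r (u v, f u v) = h (u v) + f u v`, as
`(u v, f u v) = (u v, 0) (1, f u v - f 1 1)`. -/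
def SydStmt : Prop :=
  ∀ (S D : Type) [CommGroup S] [AddCommGroup D] (f : S → S → D),
    (∀ n : ℕ, n ≠ 0 → ∀ d : D, ∃ d', n • d' = d) → (∀ u v, f u v = f v u) →
    (∀ u v w, f v w - f (u * v) w + f u (v * w) - f u v = 0) →
    ∃ h : S → D, ∀ u v, f u v = h v - h (u * v) + h u

/-- XCO (811): a 2-cocycle of `G` with values in the functions on a `G`-set `X` is a coboundary if it
is symmetric at the stabilisers.

Proof.  For every orbit choose a point `x₀`, for every `x` of the orbit `t x` with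
`t x • x₀ = x`.  On `S =` the stabiliser of `x₀` the function `f u v x₀` satisfies the hypotheses of
SYD: `h = h_(x₀) : S → D`.  Put `s u x = (t x)⁻¹ * u * t (u⁻¹ • x)` (in `S`) and
`g u x = h (s u x) + f u (t (u⁻¹ • x)) x - f (t x) (s u x) x`.  Let `x' = u⁻¹ • x`,
`x'' = v⁻¹ • x'`, `t, t', t''` the elements `t x, t x', t x''`, `s = s u x`, `s' = s v x'`, so
`s u v`-element of `(u v, x)` is `s s'`, `t s = u t'`, `t' s' = v t''`.  The cocycle identities for
`(u, v, t'')` at `x`, `(u, t', s')` at `x`, `(t, s, s')` at `x` and SYD for `(s, s')` at `x₀` add up to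
`g v x' - g (u v) x + g u x = f u v x`. -/
def XcoStmt : Prop :=
  ∀ (G X D : Type) [CommGroup G] [MulAction G X] [AddCommGroup D] (f : G → G → X → D),
    (∀ n : ℕ, n ≠ 0 → ∀ d : D, ∃ d', n • d' = d) →
    (∀ x u v, u • x = x → v • x = x → f u v x = f v u x) →
    (∀ u v w x, f v w (u⁻¹ • x) - f (u * v) w x + f u (v * w) x - f u v x = 0) →
    ∃ g : G → X → D, ∀ u v x, f u v x = g v (u⁻¹ • x) - g (u * v) x + g u x

/-- XCW (812, uses XCO): the same relative to a subgroup `W`.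

Proof.  `X` = the quotient of `Ω` by `W` (`ω ~ w • ω`), with the action of `V ⧸ W`
(`V` is commutative); `f` descends to `f' : V ⧸ W → V ⧸ W → X → D` (representatives by
`Quotient.out`, `Quotient.lift`).  If `[u] • [ω] = [ω]` then `u • ω = w • ω` for some `w` in `W`, so
`w⁻¹ u` fixes `ω`, and `f u v ω = f (u w⁻¹) v ω`: the symmetry at the stabilisers.  XCO, and
`g u ω = g' [u] [ω]`. -/
def XcwStmt : Prop :=
  ∀ (V Ω D : Type) [CommGroup V] [MulAction V Ω] [AddCommGroup D] (W : Subgroup V)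
    (f : V → V → Ω → D), (∀ n : ℕ, n ≠ 0 → ∀ d : D, ∃ d', n • d' = d) →
    (∀ w ∈ W, ∀ u v ω, f (u * w) v ω = f u v ω ∧ f u (v * w) ω = f u v ω ∧
      f u v (w • ω) = f u v ω) →
    (∀ ω u v, u • ω = ω → v • ω = ω → f u v ω = f v u ω) →
    (∀ u v w ω, f v w (u⁻¹ • ω) - f (u * v) w ω + f u (v * w) ω - f u v ω = 0) →
    ∃ g : V → Ω → D, (∀ w ∈ W, ∀ u ω, g (u * w) ω = g u ω ∧ g u (w • ω) = g u ω) ∧
      ∀ u v ω, f u v ω = g v (u⁻¹ • ω) - g (u * v) ω + g u ω

/-- GAM (813, uses XCW): if the forms vanish the cocycle is a coboundary on `V`.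

Proof.  `k u v = cc (u, v) (u v)⁻¹` in `B`.  By `WB2` `k (u w) v = k u v = k u (v w)` and `k u v`
commutes with `w` for `w` in `W` (`cc (u w, v) = cc (u, w v) = cc (u, v w) = cc (u, v) w`,
`w cc (u, v) = cc (w u, v) = cc (u w, v)`).  The cocycle identity at `(u, v, w)`, multiplied by
`(u v w)⁻¹` on the right: `u·k v w - k (u v) w + k u (v w) - k u v ≡ 0`.  `D = K / R` (the quotient of
`K` by the additive subgroup `range (algebraMap R K)`; divisible as `K` is a field of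
characteristic `0`), `f u v ω = cK ω (k u v)` modulo `R`.  `V` acts on `Ω` through `(v, v)`
(`MulAction.compHom`), `cK (g ω) (g a) = cK ω a` (`frK`), and `cK ω` maps `i A` into the image of `R`
(`ck`).  `Fz` is the symmetry at the stabilisers.  XCW: `g`.  Let `r u ω` in `K` be a representative
of `g u ω` with `r (u w) ω = r u ω`, `r u (w ω) = r u ω` (`Quotient.out` of `g u ω`),
`h u = ∑ ω, r u ω • i (b ω)`; `h u` commutes with `W` (`b (g ω) = g b ω`),
`u·h v = ∑ ω, r v (u⁻¹ ω) • i (b ω)`, so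
`k u v - (u·h v - h (u v) + h u) = ∑ ω, (..) • i (b ω)` with coefficients in the image of `R`, hence
`≡ 0` (`tow`).  `γ v = - h v v`. -/
def GamStmt : Prop :=
  ∀ (R K V A B κ Ω : Type) [CommRing R] [Field K] [CharZero K] [Algebra R K] [CommGroup V]
    [Fintype V] [Ring A] [Algebra R A] [Ring B] [Algebra R B] [Algebra K B] [Fintype κ]
    [Fintype Ω] [MulAction (V × V) Ω] (W : Subgroup V) (α : V →* A)
    (lam : A →ₗ[R] R) (x y : κ → A) (b : Ω → A) (c : Ω → (A →ₗ[R] R))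
    (C : KC R K B α lam x y b c) (cc : B →ₗ[K] B →ₗ[K] B), Z2 C W cc → Fz C cc →
    ∃ γ : V → B, (∀ w ∈ W, ∀ v, γ (v * w) = γ v * C.i (α w) ∧
        γ v * C.i (α w) = C.i (α w) * γ v) ∧
      ∀ u v, In C.i (C.i (α u) * γ v + γ u * C.i (α v) + cc (C.i (α u)) (C.i (α v)) - γ (u * v))

/-! ### The relative cohomology of the order -/

/-- TAW (814): the projection `τ` onto a complement (as TAU, Helper77_PSS/TAU.lean).

Proof.  Choose representatives `r` of the classes of `Ω` for the action of `{(v w, w') | v ∈ V,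
w, w' ∈ W} = V × W`, and let `T₀` be the set of the `(w, w') r` (`w, w'` in `W`).  If
`(v w, w') ω = ω`, `w, w'` in `W`, then `v w = φ e w'` is in `W` (`StE`, `Stb`), so `v` is in `W`.
Hence for every `ω` the set of `q : V ⧸ W` with `(out q)⁻¹ ω` in `T₀` (i.e. `ω` in `(out q, 1) T₀`;
`T₀` is `W × W`-stable, so this does not depend on the representative) has exactly one element.
`τ x = ∑_(ω in T₀) cK ω x • i (b ω)`, and
`v τ (v⁻¹ x) = ∑_(ω in T₀) cK ω (v⁻¹ x) • i (b ((v,1) ω)) = ∑_(ω in (v,1) T₀) cK ω x • i (b ω)`. -/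
def TawStmt : Prop :=
  ∀ (R K V E A B κ Ω : Type) [CommRing R] [Field K] [CharZero K] [Algebra R K] [CommGroup V]
    [Fintype V] [Group E] [Ring A] [Algebra R A] [Ring B] [Algebra R B] [Algebra K B] [Fintype κ]
    [Fintype Ω] [MulAction (V × V) Ω] (φ : E →* MulAut V) (W : Subgroup V) [Fintype (V ⧸ W)]
    (α : V →* A) (lam : A →ₗ[R] R) (x y : κ → A) (b : Ω → A) (c : Ω → (A →ₗ[R] R))
    (C : KC R K B α lam x y b c), Stb φ W → StE φ Ω →
    ∃ τ : B →ₗ[K] B, (∀ a, In C.i (τ (C.i a))) ∧ WBl (ia C.i α) W τ ∧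
      ∀ x, ∑ q : V ⧸ W, C.i (α q.out) * τ (C.i (α (q.out)⁻¹) * x) = x

/-- HCW (815, uses TAW): as HCB (Helper49_PSS/HCB.lean), with a given trivialisation `γ` on `V`.

Proof.  Write `c` for `cc`, `x_v = τ (v⁻¹ x)`; `v x_v`, `γ_v x_v` and `c (v, x_v)` depend only on the
class of `v` modulo `W` (`WBl τ`, `γ_(v w) = γ_v w`, `WB2`: `c (v w, w⁻¹ y) = c (v, y)`), so sums over
`q : V ⧸ W` of such terms may be taken over any representatives, in particular
`∑_q F (v * out q) = ∑_q F (out q)`.  `g₁ x = ∑_q (γ_v x_v + c (v, x_v))`, `v = out q`: `K`-linear,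
`W`-`W`-linear (left: `τ (v⁻¹ w x) = w x_v`, `γ_v w = w γ_v`, `c (v, w x_v) = c (w v, x_v)`).  For `x` in
`i A` and `u` in `V`: `(u x)_(u v) = x_v`, so `g₁ (u x) = ∑_q (γ_(u v) x_v + c (u v, x_v))`; insert
`γ_(u v) ≡ u γ_v + γ_u v + c (u, v)` and the cocycle identity
`c (u v, x_v) ≡ u c (v, x_v) + c (u, v x_v) - c (u, v) x_v` (`x_v` is in `i A`), `∑ v x_v = x`:
`g₁ (u x) ≡ u g₁ x + γ_u x + c (u, x)`.  `e' = g₁ 1` commutes with `W`; `g x = g₁ x - e' x`: `g 1 = 0`,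
and `d1 g (u, x) = u g₁ x - u e' x - g₁ (u x) + e' u x + (g₁ u - e' u) x
≡ - γ_u x - c (u, x) + (g₁ u - u e') x ≡ - c (u, x)`, as `g₁ u ≡ u e' + γ_u + c (u, 1) = u e' + γ_u`. -/
def HcwStmt : Prop :=
  ∀ (R K V E A B κ Ω : Type) [CommRing R] [Field K] [CharZero K] [Algebra R K] [CommGroup V]
    [Fintype V] [Group E] [Ring A] [Algebra R A] [Ring B] [Algebra R B] [Algebra K B] [Fintype κ]
    [Fintype Ω] [MulAction (V × V) Ω] (φ : E →* MulAut V) (W : Subgroup V)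
    (α : V →* A) (lam : A →ₗ[R] R) (x y : κ → A) (b : Ω → A) (c : Ω → (A →ₗ[R] R))
    (C : KC R K B α lam x y b c) (cc : B →ₗ[K] B →ₗ[K] B) (γ : V → B), Stb φ W → StE φ Ω →
    Z2 C W cc →
    (∀ w ∈ W, ∀ v, γ (v * w) = γ v * C.i (α w) ∧ γ v * C.i (α w) = C.i (α w) * γ v) →
    (∀ u v, In C.i (C.i (α u) * γ v + γ u * C.i (α v) + cc (C.i (α u)) (C.i (α v)) -
      γ (u * v))) →
    ∃ g : B →ₗ[K] B, WBl (ia C.i α) W g ∧ g 1 = 0 ∧
      ∀ v a, In C.i (cc (C.i (α v)) (C.i a) + d1 g (C.i (α v)) (C.i a))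

/-- H2W (816, uses CSU HCC LFG GAM HCW): vanishing forms imply coboundary.  As H2V
(Helper33_PSS/H2V.lean), with GAM and HCW in place of HCB. -/
def H2wStmt : Prop :=
  ∀ (R K V E A B κ Ω : Type) [CommRing R] [Field K] [CharZero K] [Algebra R K] [CommGroup V]
    [Fintype V] [Group E] [Ring A] [Algebra R A] [Ring B] [Algebra R B] [Algebra K B] [Fintype κ]
    [Fintype Ω] [MulAction (V × V) Ω] (φ : E →* MulAut V) (W : Subgroup V) (α : V →* A)
    (lam : A →ₗ[R] R) (x y : κ → A) (b : Ω → A) (c : Ω → (A →ₗ[R] R))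
    (C : KC R K B α lam x y b c) (u : A), Stb φ W → StE φ Ω → u * rt x y 1 = 1 →
    ∀ cc : B →ₗ[K] B →ₗ[K] B, Z2 C W cc → Fz C cc →
    ∃ H : B →ₗ[K] B, WBl (ia C.i α) W H ∧ H 1 = 0 ∧
      ∀ a₁ a₂, In C.i (cc (C.i a₁) (C.i a₂) - d1 H (C.i a₁) (C.i a₂))

/-- H1W (817, uses FXL CSU): `H^1(A|W; A) = 0`.  As H1V (Helper84_PSS/H1V.lean).

Proof.  `d v = D (v) v⁻¹`: `d (u v) = d u + u·d v`, `d (v w) = d v` for `w` in `W`, and `d v` commutes
with `W` (`D (w v) = w D v`, `D (v w) = D v w`).  `n` = the index of `W`,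
`y₀ = - n⁻¹ • ∑_(q : V ⧸ W) d (out q)` in `B`: `u·y₀ = y₀ + d u` (`u·d v = d (u v) - d u`, and
`∑_q d (u out q) = ∑_q d (out q)`).  So `y₀` is fixed modulo `i A` by the diagonal of `V`; FXL:
`y' ≡ y₀` commuting with `V`; `y₁ = y₀ - y'` is in `i A`, commutes with `W`, `u·y₁ - y₁ = d u`.  Then
`D₁ a = D a - (a y₁ - y₁ a)` kills `V`; the end as in H1V. -/
def H1wStmt : Prop :=
  ∀ (R K V A B κ Ω : Type) [CommRing R] [Field K] [CharZero K] [Algebra R K] [CommGroup V]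
    [Fintype V] [Ring A] [Algebra R A] [Ring B] [Algebra R B] [Algebra K B] [Fintype κ]
    [Fintype Ω] [MulAction (V × V) Ω] (W : Subgroup V) (α : V →* A)
    (lam : A →ₗ[R] R) (x y : κ → A) (b : Ω → A) (c : Ω → (A →ₗ[R] R))
    (_ : KC R K B α lam x y b c) (u : A), u * rt x y 1 = 1 →
    ∀ D : A →ₗ[R] A, (∀ a₁ a₂, D (a₁ * a₂) = D a₁ * a₂ + a₁ * D a₂) →
    (∀ w ∈ W, D (α w) = 0) →
    ∃ e : A, (∀ w ∈ W, e * α w = α w * e) ∧ ∀ a, D a = a * e - e * a

/-! ### The steps of the deformation -/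

/-- STW (818, uses TRX TRA TRC H2W): one step without target.  As STN (Helper47_PSS/STN.lean) with H2W
in place of H2V. -/
def StwStmt : Prop :=
  ∀ (R K V E A B κ Ω : Type) [CommRing R] [Field K] [CharZero K] [Algebra R K] [CommGroup V]
    [Fintype V] [Group E] [Ring A] [Algebra R A] [Ring B] [Algebra R B] [Algebra K B] [Fintype κ]
    [Fintype Ω] [MulAction (V × V) Ω] (φ : E →* MulAut V) (W : Subgroup V) (α : V →* A)
    (lam : A →ₗ[R] R) (x y : κ → A) (b : Ω → A) (c : Ω → (A →ₗ[R] R))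
    (C : KC R K B α lam x y b c) (u : A), Stb φ W → StE φ Ω → u * rt x y 1 = 1 →
    ∀ (P : ℕ → (B →ₗ[K] B)) (m : ℕ → (B →ₗ[K] B →ₗ[K] B)) (N : ℕ), Trv (ia C.i α) W P m →
    (∀ n ≤ N, ∀ a₁ a₂, In C.i (m n (C.i a₁) (C.i a₂))) → Fz C (m (N + 1)) →
    ∃ (P' : ℕ → (B →ₗ[K] B)) (m' : ℕ → (B →ₗ[K] B →ₗ[K] B)), Trv (ia C.i α) W P' m' ∧
      (∀ n ≤ N, P' n = P n) ∧ ∀ n ≤ N + 1, ∀ a₁ a₂, In C.i (m' n (C.i a₁) (C.i a₂))

/-- BIA (819, uses TRA): the obstruction is a cocycle and satisfies the Bianchi identity.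

Proof.  `Z2`: as in STN (`dm_dl`).  Associativity in degree `N + 2` for `x = i a₁` etc.: the terms
`(0, N+2)`, `(N+2, 0)` are `- dl (m (N+2))`, the terms `(1, N+1)`, `(N+1, 1)` are
`brk (m 1) (m (N+1))` (`N ≥ 1`: they are different), all others have indices `≤ N` and are in `i A`.
`c' = - m (N + 2)`. -/
def BiaStmt : Prop :=
  ∀ (R K V A B κ Ω : Type) [CommRing R] [Field K] [CharZero K] [Algebra R K] [CommGroup V]
    [Fintype V] [Ring A] [Algebra R A] [Ring B] [Algebra R B] [Algebra K B] [Fintype κ]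
    [Fintype Ω] [MulAction (V × V) Ω] (W : Subgroup V) (α : V →* A)
    (lam : A →ₗ[R] R) (x y : κ → A) (b : Ω → A) (c : Ω → (A →ₗ[R] R))
    (C : KC R K B α lam x y b c)
    (P : ℕ → (B →ₗ[K] B)) (m : ℕ → (B →ₗ[K] B →ₗ[K] B)) (N : ℕ), Trv (ia C.i α) W P m →
    (∀ n ≤ N, ∀ a₁ a₂, In C.i (m n (C.i a₁) (C.i a₂))) →
    Z2 C W (m (N + 1)) ∧ (1 ≤ N → Bi C W (m 1) (m (N + 1))) ∧
      ∀ x y, m 1 x y = d1 (fun a => P 1 a) x y

/-- TGW (820, uses TRX TRA TRC LIM STW BIA): the deformation with given first order term.  As TGN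
(Helper75_PSS/TGN.lean) or with `limTrv` (Helper7_PSS/TLF.lean; let the condition `I n` be the
integrality of `m n` and, for `n = 1`, `m 1 = d1 g`): start `N₀ = 1`, the step with STW, where
`Fz C (m (N + 1))` follows from `key` and BIA. -/
def TgwStmt : Prop :=
  ∀ (R K V E A B κ Ω : Type) [CommRing R] [Field K] [CharZero K] [Algebra R K] [CommGroup V]
    [Fintype V] [Group E] [Ring A] [Algebra R A] [Ring B] [Algebra R B] [Algebra K B] [Fintype κ]
    [Fintype Ω] [MulAction (V × V) Ω] (φ : E →* MulAut V) (W : Subgroup V) (α : V →* A)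
    (lam : A →ₗ[R] R) (x y : κ → A) (b : Ω → A) (c : Ω → (A →ₗ[R] R))
    (C : KC R K B α lam x y b c) (u : A), Stb φ W → StE φ Ω → u * rt x y 1 = 1 →
    ∀ g : B →ₗ[K] B, WBl (ia C.i α) W g → g 1 = 0 →
    (∀ a₁ a₂, In C.i (d1 g (C.i a₁) (C.i a₂))) →
    (∀ m₁ cc : B →ₗ[K] B →ₗ[K] B, (∀ x y, m₁ x y = d1 g x y) → Z2 C W cc → Bi C W m₁ cc →
      Fz C cc) →
    ∃ (P : ℕ → (B →ₗ[K] B)) (m : ℕ → (B →ₗ[K] B →ₗ[K] B)), Trv (ia C.i α) W P m ∧ P 1 = g ∧
      ∀ n a₁ a₂, In C.i (m n (C.i a₁) (C.i a₂))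

/-! ### Lifting a deformation of the special fibre -/

/-- MUB (821, uses BLT): a lift of the coefficient of degree `k ≥ 1` of `D₀`.  Proof: BLT and `stt_ext` of
Helper47_PSS/STT.lean. -/
def MubStmt : Prop :=
  ∀ (R K F V A A₀ B κ Ω : Type) [CommRing R] [Field K] [CharZero K] [Algebra R K]
    [Field F] [CommGroup V] [Fintype V] [Ring A] [Algebra R A]
    [Ring A₀] [Algebra F A₀] [Ring B] [Algebra R B] [Algebra K B] [Fintype κ]
    [Fintype Ω] [MulAction (V × V) Ω] (W : Subgroup V) (α : V →* A)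
    (lam : A →ₗ[R] R) (x y : κ → A) (b : Ω → A) (c : Ω → (A →ₗ[R] R))
    (C : KC R K B α lam x y b c) (cv : Cdv R F) (f : FibG A A₀ cv) (α₀ : V →* A₀)
    (D₀ : Dm F (aw α₀ W)) (k : ℕ), (∀ v, f.q (α v) = α₀ v) →
    ∃ μ : B →ₗ[K] B →ₗ[K] B, WB2 (ia C.i α) W (fun a b => μ a b) ∧ Nrm (fun a b => μ a b) ∧
      ∀ a₁ a₂, ∃ e, C.i e = μ (C.i a₁) (C.i a₂) ∧ f.q e = D₀.m (k + 1) (f.q a₁) (f.q a₂)

/-- TGT (822, uses TRA MUB): the difference class is a cocycle and satisfies the Bianchi identity.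

Proof.  `cc = π⁻¹ (m (N+1) - μ)`.  `Z2`: as in STT (Helper47_PSS/STT.lean).  `Bi`, `N ≥ 1`: let
`S (x, y, z)` = the sum of the terms of the associativity in degree `N + 2` with both indices in
`2 .. N`; for `D` and `D₀`: `brk (m 1) (m (N+1)) + S = dl (m (N+2))`, and the same for `D₀`.  On `i A` the
element `S + brk (m 1) μ` is `i e` with `q e` = the same expression for `D₀`, which is
`dl (D₀.m (N+2))` (`m 1`, `μ` reduce to `D₀.m 1`, `D₀.m (N+1)`), hence
`S + brk (m 1) μ = dl μ' + i (π e')` with `μ'` from MUB for `k = N + 1`.  So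
`brk (m 1) cc = π⁻¹ (dl (m (N+2)) - S - brk (m 1) μ) = dl (π⁻¹ (m (N+2) - μ')) - i e'`. -/
def TgtStmt : Prop :=
  ∀ (R K F V A A₀ B κ Ω : Type) [CommRing R] [IsDomain R] [Field K] [CharZero K] [Algebra R K]
    [Field F] [CommGroup V] [Fintype V] [Ring A] [Algebra R A] [Module.Finite R A]
    [Module.Free R A] [Ring A₀] [Algebra F A₀] [Ring B] [Algebra R B] [Algebra K B] [Fintype κ]
    [Fintype Ω] [MulAction (V × V) Ω] (W : Subgroup V) (α : V →* A)
    (lam : A →ₗ[R] R) (x y : κ → A) (b : Ω → A) (c : Ω → (A →ₗ[R] R))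
    (C : KC R K B α lam x y b c) (cv : Cdv R F) (f : FibG A A₀ cv) (α₀ : V →* A₀)
    (D₀ : Dm F (aw α₀ W)), (∀ v, f.q (α v) = α₀ v) →
    ∀ (P : ℕ → (B →ₗ[K] B)) (m : ℕ → (B →ₗ[K] B →ₗ[K] B)) (N : ℕ) (μ cc : B →ₗ[K] B →ₗ[K] B),
    Trv (ia C.i α) W P m →
    (∀ n ≤ N, ∀ a₁ a₂, ∃ e, C.i e = m n (C.i a₁) (C.i a₂) ∧
      f.q e = D₀.m n (f.q a₁) (f.q a₂)) →
    WB2 (ia C.i α) W (fun a b => μ a b) → Nrm (fun a b => μ a b) →
    (∀ a₁ a₂, ∃ e, C.i e = μ (C.i a₁) (C.i a₂) ∧ f.q e = D₀.m (N + 1) (f.q a₁) (f.q a₂)) →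
    (∀ x y, algebraMap R K cv.π • cc x y = m (N + 1) x y - μ x y) →
    Z2 C W cc ∧ (1 ≤ N → Bi C W (m 1) cc)

/-- FZ0 (823): the first step.  If the forms of `D₀.m 1` vanish, the forms of the difference class for
`N = 0` vanish.

Proof.  `m 1 = d1 g`, `g = P 1` (from `pm` in degree 1).  For `u, v` with `(u,u) ω = ω = (v,v) ω`:
`(d1 g u v - d1 g v u) (u v)⁻¹ = u·(g v v⁻¹) - g v v⁻¹ - (v·(g u u⁻¹) - g u u⁻¹)`, and
`cK ω (u·s) = cK ω s`: so `cK ω` of it is `0`.  Hence `π cK ω ((cc u v - cc v u) (u v)⁻¹) =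
- cK ω ((μ u v - μ v u) (u v)⁻¹) = - algebraMap (c ω e)`, `q e = (D₀.m 1 u v - D₀.m 1 v u) (u v)⁻¹`, and
`κ (c ω e) = c₀ ω (q e) = 0`, so `c ω e = π r`. -/
def Fz0Stmt : Prop :=
  ∀ (R K F V A A₀ B κ Ω : Type) [CommRing R] [IsDomain R] [Field K] [CharZero K] [Algebra R K]
    [Field F] [CommGroup V] [Fintype V] [Ring A] [Algebra R A]
    [Ring A₀] [Algebra F A₀] [Ring B] [Algebra R B] [Algebra K B] [Fintype κ]
    [Fintype Ω] [MulAction (V × V) Ω] (W : Subgroup V) (α : V →* A)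
    (lam : A →ₗ[R] R) (x y : κ → A) (b : Ω → A) (c : Ω → (A →ₗ[R] R))
    (C : KC R K B α lam x y b c) (cv : Cdv R F) (f : FibG A A₀ cv) (α₀ : V →* A₀)
    (c₀ : Ω → (A₀ →ₗ[F] F)) (D₀ : Dm F (aw α₀ W)), (∀ v, f.q (α v) = α₀ v) →
    (∀ ω a, cv.κ (c ω a) = c₀ ω (f.q a)) →
    (∀ (ω : Ω) (u v : V), ((u, u) : V × V) • ω = ω → ((v, v) : V × V) • ω = ω →
      c₀ ω ((D₀.m 1 (α₀ u) (α₀ v) - D₀.m 1 (α₀ v) (α₀ u)) * α₀ (u * v)⁻¹) = 0) →
    ∀ (P : ℕ → (B →ₗ[K] B)) (m : ℕ → (B →ₗ[K] B →ₗ[K] B)) (μ cc : B →ₗ[K] B →ₗ[K] B),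
    Trv (ia C.i α) W P m →
    (∀ a₁ a₂, ∃ e, C.i e = μ (C.i a₁) (C.i a₂) ∧ f.q e = D₀.m 1 (f.q a₁) (f.q a₂)) →
    (∀ x y, algebraMap R K cv.π • cc x y = m 1 x y - μ x y) → Fz C cc

/-- STX (824, uses TRX TRC H2W): one step with target.  As STT (Helper47_PSS/STT.lean, the part after
`hdl`), with H2W in place of H2V: `P' (N+1) = P (N+1) - π • H`. -/
def StxStmt : Prop :=
  ∀ (R K F V E A A₀ B κ Ω : Type) [CommRing R] [IsDomain R] [Field K] [CharZero K] [Algebra R K]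
    [Field F] [CommGroup V] [Fintype V] [Group E] [Ring A] [Algebra R A] [Module.Finite R A]
    [Module.Free R A] [Ring A₀] [Algebra F A₀] [Ring B] [Algebra R B] [Algebra K B] [Fintype κ]
    [Fintype Ω] [MulAction (V × V) Ω] (φ : E →* MulAut V) (W : Subgroup V) (α : V →* A)
    (lam : A →ₗ[R] R) (x y : κ → A) (b : Ω → A) (c : Ω → (A →ₗ[R] R))
    (C : KC R K B α lam x y b c) (u : A) (cv : Cdv R F) (f : FibG A A₀ cv) (α₀ : V →* A₀)
    (D₀ : Dm F (aw α₀ W)), Stb φ W → StE φ Ω → u * rt x y 1 = 1 → (∀ v, f.q (α v) = α₀ v) →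
    ∀ (P : ℕ → (B →ₗ[K] B)) (m : ℕ → (B →ₗ[K] B →ₗ[K] B)) (N : ℕ) (μ cc : B →ₗ[K] B →ₗ[K] B),
    Trv (ia C.i α) W P m →
    (∀ n ≤ N, ∀ a₁ a₂, ∃ e, C.i e = m n (C.i a₁) (C.i a₂) ∧
      f.q e = D₀.m n (f.q a₁) (f.q a₂)) →
    (∀ a₁ a₂, ∃ e, C.i e = μ (C.i a₁) (C.i a₂) ∧ f.q e = D₀.m (N + 1) (f.q a₁) (f.q a₂)) →
    (∀ x y, algebraMap R K cv.π • cc x y = m (N + 1) x y - μ x y) → Z2 C W cc → Fz C cc →
    ∃ (P' : ℕ → (B →ₗ[K] B)) (m' : ℕ → (B →ₗ[K] B →ₗ[K] B)), Trv (ia C.i α) W P' m' ∧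
      (∀ n ≤ N, P' n = P n) ∧ ∀ n ≤ N + 1, ∀ a₁ a₂, ∃ e, C.i e = m' n (C.i a₁) (C.i a₂) ∧
      f.q e = D₀.m n (f.q a₁) (f.q a₂)

/-- TLW (825, uses TRX TRC LIM BIA MUB TGT FZ0 STX): a deformation of `A₀` whose first order term is
regular (`key`) lifts to `A`.  As TLF (Helper7_PSS/TLF.lean): in the step `N` take `μ` from MUB,
`cc = π⁻¹ • (m (N+1) - μ)`, TGT; `Fz C cc` by FZ0 for `N = 0` and by `key` for `N ≥ 1` (`m 1 = d1 g`,
`g = P 1`, by BIA); STX. -/
def TlwStmt : Prop :=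
  ∀ (R K F V E A A₀ B κ Ω : Type) [CommRing R] [IsDomain R] [Field K] [CharZero K] [Algebra R K]
    [Field F] [CommGroup V] [Fintype V] [Group E] [Ring A] [Algebra R A] [Module.Finite R A]
    [Module.Free R A] [Ring A₀] [Algebra F A₀] [Ring B] [Algebra R B] [Algebra K B] [Fintype κ]
    [Fintype Ω] [MulAction (V × V) Ω] (φ : E →* MulAut V) (W : Subgroup V) (α : V →* A)
    (lam : A →ₗ[R] R) (x y : κ → A) (b : Ω → A) (c : Ω → (A →ₗ[R] R))
    (C : KC R K B α lam x y b c) (u : A) (cv : Cdv R F) (f : FibG A A₀ cv) (α₀ : V →* A₀)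
    (c₀ : Ω → (A₀ →ₗ[F] F)) (D₀ : Dm F (aw α₀ W)), Stb φ W → StE φ Ω → u * rt x y 1 = 1 →
    (∀ v, f.q (α v) = α₀ v) → (∀ ω a, cv.κ (c ω a) = c₀ ω (f.q a)) →
    (∀ (ω : Ω) (u v : V), ((u, u) : V × V) • ω = ω → ((v, v) : V × V) • ω = ω →
      c₀ ω ((D₀.m 1 (α₀ u) (α₀ v) - D₀.m 1 (α₀ v) (α₀ u)) * α₀ (u * v)⁻¹) = 0) →
    (∀ (g : B →ₗ[K] B) (m₁ cc : B →ₗ[K] B →ₗ[K] B), WBl (ia C.i α) W g → g 1 = 0 →
      (∀ x y, m₁ x y = d1 g x y) →
      (∀ a₁ a₂, ∃ e, C.i e = m₁ (C.i a₁) (C.i a₂) ∧ f.q e = D₀.m 1 (f.q a₁) (f.q a₂)) →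
      Z2 C W cc → Bi C W m₁ cc → Fz C cc) →
    ∃ (P : ℕ → (B →ₗ[K] B)) (m : ℕ → (B →ₗ[K] B →ₗ[K] B)), Trv (ia C.i α) W P m ∧
      ∀ n a₁ a₂, ∃ e, C.i e = m n (C.i a₁) (C.i a₂) ∧ f.q e = D₀.m n (f.q a₁) (f.q a₂)

end Pool.Agent.PSS
end
end -- Pool.Agent.PSS.StmtsOB

section -- Pool.Agent.PST.DefsR

/-!
# Theorem (S+), block DR (direction): definitions (helper75)

`W ≤ V` is `E`-stable, `V / W` elementary abelian, `E / C_E(V / W)` abelian.  `Q ≤ V` is `E`-stable with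
`Q W = V` (for example `QW0 φ W` = the fixed points of `C_E(V / W)`).

* `Eg F φ W Q la χ xx t`: eigen-coordinates `la l : V → F` of `V / W`, their weights `χ l`, dual elements
  `xx l ∈ F Q`, eigenvalues `t l`.
* `pg la xx t u v`: the direction, `∑ l, t l * la l u * xx l v`; `Xe α x = ∑ v, x v • α v`.
* `Gx X x y N`: the transfer of the derivation given by the connection `N` and the element `X`.
* `Drd F φ α W Q la χ xx t D`: the values `D : V → A` of the regular derivation.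
* `FoD ℓ F α W γ q D lf G`: first order datum of a deformation: lifts `lf u` of `α u` which commute
  with `W` and with each other modulo `X ^ 2`, and `lf u ^ ℓ = γ (u ^ ℓ) (1 + X G u)`, `q (G u) = D u`.
-/

open scoped BigOperators PowerSeries

noncomputable section

namespace Pool.Agent.PST

open Pool.Agent.PFC (tw IsTv)
open Pool.Agent.PFD.D2b (FrR)
open Pool.Agent.PSS

/-- the fixed points of `C_E(V / W)` -/
def QW0 {V E : Type} [CommGroup V] [Group E] (φ : E →* MulAut V) (W : Subgroup V) : Subgroup V where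
  carrier := {v | ∀ e : E, (∀ u, φ e u * u⁻¹ ∈ W) → φ e v = v}
  one_mem' := fun e _ => map_one _
  mul_mem' := by
    intro a b ha hb e he
    rw [map_mul, ha e he, hb e he]
  inv_mem' := by
    intro a ha e he
    rw [map_inv, ha e he]

/-- eigen-coordinates of `V / W` -/
structure Eg (F : Type) {V E : Type} [Field F] [CommGroup V] [Fintype V] [Group E]
    (φ : E →* MulAut V) (W Q : Subgroup V) {r : ℕ} (la : Fin r → V → F) (χ : Fin r → E → F)
    (xx : Fin r → V → F) (t : Fin r → F) : Prop where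
  add : ∀ l u v, la l (u * v) = la l u + la l v
  ker : ∀ v, v ∈ W ↔ ∀ l, la l v = 0
  wt : ∀ l e v, la l (φ e v) = χ l e * la l v
  chm : ∀ l e f, χ l (e * f) = χ l e * χ l f
  ch1 : ∀ l, χ l 1 = 1
  qs : ∀ l v, v ∉ Q → xx l v = 0
  x0 : ∀ l, ∑ v, xx l v = 0
  xl : ∀ l n, ∑ v, xx l v * la n v = if l = n then 1 else 0
  xe : ∀ l e v, χ l e * xx l (φ e v) = xx l v
  spn : ∀ μ : V → F, (∀ u v, μ (u * v) = μ u + μ v) → (∀ w ∈ W, μ w = 0) →
    ∀ v, μ v = ∑ l, (∑ u, xx l u * μ u) * la l v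
  t0 : ∀ l, t l ≠ 0
  tj : Function.Injective t

/-- the direction: `pg la xx t u` is the element `∑ l, t l * la l u • X_l` of `F Q` -/
def pg {F V : Type} [Field F] {r : ℕ} (la xx : Fin r → V → F) (t : Fin r → F) (u v : V) : F :=
  ∑ l, t l * la l u * xx l v

/-- the element `∑ v, x v • α v` -/
def Xe {R V A : Type} [CommRing R] [CommGroup V] [Fintype V] [Ring A] [Algebra R A] (α : V →* A)
    (x : V → R) : A := ∑ v, x v • α v

/-- the transfer given by the connection `N` and the element `X` -/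
def Gx {R A K : Type} [CommRing R] [Ring A] [Algebra R A] [Fintype K] (X : A) (x y : K → A)
    (N : A →ₗ[R] A) : A →ₗ[R] A :=
  ∑ k, (LinearMap.mulRight R (X * y k)).comp
    (N.comp (LinearMap.mulRight R (x k)) - LinearMap.mulRight R (N (x k)))

theorem gx_apply {R A K : Type} [CommRing R] [Ring A] [Algebra R A] [Fintype K] (X : A)
    (x y : K → A) (N : A →ₗ[R] A) (a : A) :
    Gx X x y N a = ∑ k, (N (a * x k) - a * N (x k)) * (X * y k) := by
  simp [Gx, LinearMap.sum_apply, mul_assoc]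

/-- the values `D : V → A` of the regular derivation -/
structure Drd (F : Type) {V E A : Type} [Field F] [CommGroup V] [Fintype V] [Group E] [Ring A]
    [Algebra F A] (φ : E →* MulAut V) (α : V →* A) (W Q : Subgroup V) {r : ℕ}
    (la : Fin r → V → F) (χ : Fin r → E → F) (xx : Fin r → V → F) (t : Fin r → F) (D : V → A) :
    Prop where
  eg : Eg F φ W Q la χ xx t
  qst : Stb φ Q
  add : ∀ u v, D (u * v) = D u + D v
  w0 : ∀ w ∈ W, D w = 0
  fx : ∀ u, D u ∈ FxR (cw F α) ⊤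
  bk : ∀ u, D u - Xe α (pg la xx t u) ∈ BKR (cw F α) Q

/-- first order datum of a deformation -/
structure FoD (ℓ : ℕ) (F : Type) {V A As : Type} [Field F] [CommGroup V] [Ring A] [Algebra F A]
    [Ring As] [Algebra F⟦X⟧ As] (α : V →* A) (W : Subgroup V) (γ : W →* As) (q : As → A)
    (D : V → A) (lf G : V → As) : Prop where
  q0 : ∀ u, q (lf u) = α u
  cm : ∀ u w, γ w * lf u = lf u * γ w
  pl : ∀ (u : V) (h : u ^ ℓ ∈ W), lf u ^ ℓ = γ ⟨u ^ ℓ, h⟩ * (1 + (PowerSeries.X : F⟦X⟧) • G u)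
  qG : ∀ u, q (G u) = D u
  cc : ∀ u v, ∃ z, lf u * lf v - lf v * lf u = ((PowerSeries.X : F⟦X⟧) ^ 2) • z

end Pool.Agent.PST
end
end -- Pool.Agent.PST.DefsR

section -- Pool.Agent.PST.DefsT

/-!
# Squad PST (theorem (S+)): definitions and interface (helper36, helper71)

One step: `W ≤ V` is `E`-stable, `V / W` is elementary abelian, the group induced by `E` on `V / W` is
abelian and free on `V / W - 1`, `W` has a regular element (structure `Chf`; `ℓ` is any prime).  No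
complement of `W`.  The step deforms `A` (class `Cl F φ α`) relative to `W`; the direction is regular.

* `Reg ℓ F φ α W γ q`: the regularity datum: `Drd` and `FoD` of `DefsR.lean` (helper75), `Q = QW0 φ W`.
* `Dpt`: `As` is a regular deformation of `A` in the class, with forms and relative Frobenius systems
  (as `S3.Dpr` without `unt`).
* `Olf`: `As` is the reduction of a family over `R⟦X⟧`, `R` a complete discrete valuation ring of
  characteristic `0`.
-/

open scoped BigOperators TensorProduct PowerSeries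

noncomputable section

namespace Pool.Agent.PST

open Pool.Agent.PFC (tw IsTv)
open Pool.Agent.PFD.D2 (Cdv FibG)
open Pool.Agent.PFD.D2b (FrR)
open Pool.Agent.PSS
open Pool.Agent.PSS.S0 (IsBQ)

/-- The step from `V` to `W`: `W` is `E`-stable, `V / W` is elementary abelian, the group induced by `E`
on `V / W` is abelian and acts freely on `V / W - 1`, and `W` has a regular element (an element `w₀`
such that every `e` which fixes `w₀` centralises `W`).  `ℓ` is any prime. -/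
structure Chf (ℓ : ℕ) {V E : Type} [CommGroup V] [Group E] (φ : E →* MulAut V) (W : Subgroup V) :
    Prop where
  sw : ∀ e : E, ∀ w ∈ W, φ e w ∈ W
  pw : ∀ v : V, v ^ ℓ ∈ W
  fr : ∀ (e : E) (v : V), v ∉ W → φ e v * v⁻¹ ∈ W → ∀ u : V, φ e u * u⁻¹ ∈ W
  ab : ∀ (e f : E) (v : V), φ e (φ f v) * (φ f (φ e v))⁻¹ ∈ W
  gen : ∃ w₀ ∈ W, ∀ e : E, φ e w₀ = w₀ → ∀ w ∈ W, φ e w = w

/-- STQ: one step: pass from `V` to `W'`, `V / W'` elementary abelian (`Chf`). -/
def StqStmt : Prop :=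
  ∀ (ℓ : ℕ) [Fact ℓ.Prime] (F V E A B : Type) [Field F] [IsAlgClosed F] [CharP F ℓ]
    [CommGroup V] [Fintype V] [Group E] [Fintype E] [Ring A] [Algebra F A] [Ring B] [Algebra F B]
    (φ : E →* MulAut V) (α : V →* A) (W' W : Subgroup V) [Fintype W'] (ψ : E →* MulAut W'),
    IsPGroup ℓ V → ¬ ℓ ∣ Nat.card E → Chf ℓ φ W' → IsRs φ W' ψ →
    W ≤ W' → (∀ e : E, ∀ w ∈ W, φ e w ∈ W) → Cl F φ α → IsNW F α W B →
    ∃ (F' C B' : Type) (_ : Field F') (_ : IsAlgClosed F') (_ : CharP F' ℓ) (_ : Ring C)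
      (_ : Algebra F' C) (_ : Ring B') (_ : Algebra F' B') (γ : W' →* C)
      (_ : IsNW F' γ (W.subgroupOf W') B'), Cl F' ψ γ ∧
      Module.finrank F' (Subalgebra.center F' C) = Module.finrank F (Subalgebra.center F A) ∧
      Module.finrank F' (Subalgebra.center F' B') = Module.finrank F (Subalgebra.center F B)

/-! ## The regularity datum -/

/-- the deformation `As` has a regular first order term -/
def Reg (ℓ : ℕ) (F : Type) {V E A As : Type} [Field F] [CommGroup V] [Fintype V] [Group E] [Ring A]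
    [Algebra F A] [Ring As] [Algebra F⟦X⟧ As] (φ : E →* MulAut V) (α : V →* A) (W : Subgroup V)
    (γ : W →* As) (q : As → A) : Prop :=
  ∃ (r : ℕ) (la : Fin r → V → F) (χ : Fin r → E → F) (xx : Fin r → V → F) (t : Fin r → F)
    (D : V → A) (lf G : V → As),
    Drd F φ α W (QW0 φ W) la χ xx t D ∧ FoD ℓ F α W γ q D lf G

/-! ## The deformation -/

/-- `As` is a regular deformation of `A` relative to `W`, with forms and relative Frobenius systems
(`lam, x, y` of `As` over `W`; `lam0, x0, y0` of `A` over `V`). -/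
structure Dpt (ℓ : ℕ) (F : Type) {V E A As K K0 : Type} [Field F] [CommGroup V] [Fintype V]
    [Group E] [Ring A] [Algebra F A] [Ring As] [Algebra F⟦X⟧ As] [Fintype K] [Fintype K0]
    (φ : E →* MulAut V) (α : V →* A) (W : Subgroup V) [Fintype W] (ψ : E →* MulAut W)
    (γ : W →* As) (q : As →+* A) (lam : As →ₗ[F⟦X⟧] F⟦X⟧) (lam0 : A →ₗ[F] F)
    (x y : K → As) (x0 y0 : K0 → A) : Prop where
  cl : Cl F φ α
  ch : Chf ℓ φ W
  rs : IsRs φ W ψ
  per : Per F⟦X⟧ ψ γ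
  uni : Uni ψ γ
  sc : ∀ r : F⟦X⟧, q (algebraMap F⟦X⟧ As r) = algebraMap F A (PowerSeries.constantCoeff r)
  surj : Function.Surjective q
  ker : ∀ a, q a = 0 → ∃ a', a = (PowerSeries.X : F⟦X⟧) • a'
  qw : ∀ w : W, q (γ w) = α w
  rf : RF F⟦X⟧ γ lam x y
  rf0 : RF F α lam0 x0 y0
  lr : ∀ a, PowerSeries.constantCoeff (lam a) = lam0 (q a)
  reg : Reg ℓ F φ α W γ q

/-- `As` is the reduction of a family over `R⟦X⟧`: `R` is a complete discrete valuation ring of
characteristic `0` with residue field `F`; `A'` is an `R`-order with reduction `A` (all data are lifted,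
`rt x' y' 1` is a unit); `D` a deformation of `A'` relative to `W`, `As` the reduction of `D.R`,
`Λ` (dual families `xs`, `ys`) a form on `D.R` which lifts `lam`; `cv.π = ℓ`; `P`, `m` the trivialisation
of `D` over a field of characteristic `0` (outputs of TGW, DMR). -/
structure Olf (ℓ : ℕ) (F : Type) {V A As K K0 Ω : Type} [Field F] [CommGroup V] [Fintype V]
    [Ring A] [Algebra F A] [Ring As] [Algebra F⟦X⟧ As] [Fintype K] [Fintype K0] [Fintype Ω]
    [MulAction (V × V) Ω] (α : V →* A) (W : Subgroup V) [Fintype W]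
    (γ : W →* As) (q : As →+* A) (lam : As →ₗ[F⟦X⟧] F⟦X⟧) (lam0 : A →ₗ[F] F)
    (x y : K → As) (x0 y0 : K0 → A) (b : Ω → A) (cc : Ω → (A →ₗ[F] F)) where
  R : Type
  iR : CommRing R
  iD : IsDomain R
  iP : IsPrincipalIdealRing R
  iC : CharZero R
  cv : Cdv R F
  A' : Type
  iA : Ring A'
  iM : Algebra R A'
  iF : Module.Finite R A'
  iL : Module.Free R A'
  f : FibG A' A cv
  α' : V →* A'
  lam' : A' →ₗ[R] R
  x' : K0 → A'
  y' : K0 → A'
  b' : Ω → A'
  cc' : Ω → (A' →ₗ[R] R)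
  u' : A'
  lft : LiftV cv α lam0 x0 y0 b cc f α' lam' x' y' b' cc'
  unt : u' * rt x' y' 1 = 1
  D : Dm R (aw α' W)
  θ : D.R →+* As
  θs : ∀ (r : PowerSeries R) a, θ (r • a) = (PowerSeries.map cv.κ r) • θ a
  θj : Function.Surjective θ
  θk : ∀ a, θ a = 0 → ∃ a', a = (PowerSeries.C cv.π) • a'
  θw : ∀ w, θ (D.w w) = γ w
  θq : ∀ g : ℕ → A', q (θ (D.of g)) = f.q (g 0)
  Λ : D.R →ₗ[PowerSeries R] PowerSeries R
  xs : K → D.R
  ys : K → D.R
  rfs : RF (PowerSeries R) D.w Λ xs ys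
  Λr : ∀ a, lam (θ a) = PowerSeries.map cv.κ (Λ a)
  xr : ∀ k, θ (xs k) = x k
  yr : ∀ k, θ (ys k) = y k
  Λ0 : ∀ g : ℕ → A', PowerSeries.constantCoeff (Λ (D.of g)) = lam' (g 0)
  hp : cv.π = (ℓ : R)
  KK : Type
  jK : Field KK
  jZ : CharZero KK
  jR : Algebra R KK
  BB : Type
  jB : Ring BB
  jA : Algebra R BB
  jM : Algebra KK BB
  C : KC R KK BB α' lam' x' y' b' cc'
  P : ℕ → (BB →ₗ[KK] BB)
  m : ℕ → (BB →ₗ[KK] BB →ₗ[KK] BB)
  trv : Trv (ia C.i α') W P m
  mm : ∀ n a₁ a₂, C.i (D.m n a₁ a₂) = m n (C.i a₁) (C.i a₂)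

/-- DTQ: the output of the blocks OB and DR: every algebra of the class has a regular deformation with
an `O`-lift. -/
def DtqStmt : Prop :=
  ∀ (ℓ : ℕ) [Fact ℓ.Prime] (F V E A : Type) [Field F] [IsAlgClosed F] [CharP F ℓ] [CommGroup V]
    [Fintype V] [Group E] [Fintype E] [Ring A] [Algebra F A] (φ : E →* MulAut V) (α : V →* A)
    (W : Subgroup V) [Fintype W] (ψ : E →* MulAut W), IsPGroup ℓ V →
    ¬ ℓ ∣ Nat.card E → Chf ℓ φ W → IsRs φ W ψ → Cl F φ α →
    ∃ (As K K0 Ω : Type) (_ : Ring As) (_ : Algebra F⟦X⟧ As) (_ : Module.Finite F⟦X⟧ As)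
      (_ : Module.Free F⟦X⟧ As) (_ : Fintype K) (_ : Fintype K0) (_ : Fintype Ω)
      (_ : MulAction (V × V) Ω) (γ : W →* As) (q : As →+* A)
      (lam : As →ₗ[F⟦X⟧] F⟦X⟧) (lam0 : A →ₗ[F] F) (x y : K → As) (x0 y0 : K0 → A)
      (b : Ω → A) (cc : Ω → (A →ₗ[F] F)),
      Dpt ℓ F φ α W ψ γ q lam lam0 x y x0 y0 ∧ FrR (bw F α) b cc ∧
      (∀ ω : Ω, ∃ (e : E) (S : Subgroup V),
        MulAction.stabilizer (V × V) ω = tw (φ e).toMonoidHom S) ∧
      Nonempty (Olf ℓ F α W γ q lam lam0 x y x0 y0 b cc)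

/-- GFW: the output of the blocks ET and U (helper30): the generic fibre is in the class. -/
def GfwStmt : Prop :=
  ∀ (ℓ : ℕ) [Fact ℓ.Prime] (F F' V E A As K K0 Ω : Type) [Field F] [IsAlgClosed F] [CharP F ℓ]
    [Field F'] [IsAlgClosed F'] [CharP F' ℓ] [Algebra F⟦X⟧ F'] [CommGroup V]
    [Fintype V] [Group E] [Fintype E] [Ring A] [Algebra F A] [Ring As] [Algebra F⟦X⟧ As]
    [Module.Finite F⟦X⟧ As] [Module.Free F⟦X⟧ As] [Fintype K] [Fintype K0] [Fintype Ω]
    [MulAction (V × V) Ω] (φ : E →* MulAut V) (α : V →* A) (W : Subgroup V) [Fintype W]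
    (ψ : E →* MulAut W) (γ : W →* As) (q : As →+* A) (lam : As →ₗ[F⟦X⟧] F⟦X⟧)
    (lam0 : A →ₗ[F] F) (x y : K → As) (x0 y0 : K0 → A) (b : Ω → A) (cc : Ω → (A →ₗ[F] F)),
    Function.Injective (algebraMap F⟦X⟧ F') → IsPGroup ℓ V → ¬ ℓ ∣ Nat.card E → W ≠ ⊤ →
    Dpt ℓ F φ α W ψ γ q lam lam0 x y x0 y0 → FrR (bw F α) b cc →
    (∀ ω : Ω, ∃ (e : E) (S : Subgroup V),
      MulAction.stabilizer (V × V) ω = tw (φ e).toMonoidHom S) →
    Nonempty (Olf ℓ F α W γ q lam lam0 x y x0 y0 b cc) →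
    Cl F' ψ (bcw (R := F⟦X⟧) (S := F') γ)

end Pool.Agent.PST
end
end -- Pool.Agent.PST.DefsT

section -- Pool.Agent.PST.DefsK

/-!
# Squad PST (theorem (S+)): the interfaces between DR, OB (KEY) and the tower (helper36)

`A` is the lift to `R` (`cv.π = ℓ`, e.g. the Witt vectors) of `A₀` over `F` (`LiftV`).
* `Fov`: the direction over `R` (output of block DR, `DrqStmt`): `v : A → A` is `R`-linear,
  `W`-`W`-linear, a derivation modulo `ℓ`, `v (α u) ≡ α u * h u` modulo `ℓ`, `h u` commutes with `V`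
  and reduces to `D u` (`Drd` of DefsR.lean, helper75).
* `Fod`: the direction over `K`: `g = v / ℓ` up to a correction (`g 1 = 0`), input of KEY and of the
  tower (TGW).
* `Ekc`: the condition on `g` which KEY uses (it holds for `Fod`, row EKF).
* `KeyStmt`: (output of block OB): for a regular direction the Bianchi identity implies that the
  forms of a cocycle vanish.
-/

open scoped BigOperators TensorProduct PowerSeries

noncomputable section

namespace Pool.Agent.PST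

open Pool.Agent.PFC (tw IsTv)
open Pool.Agent.PFD.D2 (Cdv FibG)
open Pool.Agent.PFD.D2b (FrR)
open Pool.Agent.PSS

/-- the direction over `R` -/
structure Fov (ℓ : ℕ) {R F V A A₀ : Type} [CommRing R] [Field F] [CommGroup V] [Ring A]
    [Algebra R A] [Ring A₀] [Algebra F A₀] {cv : Cdv R F} (α : V →* A) (W : Subgroup V)
    (f : FibG A A₀ cv) (v : A →ₗ[R] A) (h : V → A) (D : V → A₀) : Prop where
  lin : ∀ w ∈ W, ∀ a, v (α w * a) = α w * v a ∧ v (a * α w) = v a * α w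
  der : ∀ a a', ∃ e, v (a * a') - v a * a' - a * v a' = (ℓ : R) • e
  vh : ∀ u, ∃ e, v (α u) - α u * h u = (ℓ : R) • e
  hv : ∀ u v, h u * α v = α v * h u
  hw : ∀ u, ∀ w ∈ W, h (u * w) = h u
  hy : ∀ u, f.q (h u) = D u

/-- the direction over `K` -/
structure Fod (ℓ : ℕ) {R K F V A A₀ B κ Ω : Type} [CommRing R] [Field K] [Algebra R K] [Field F]
    [CommGroup V] [Fintype V] [Ring A] [Algebra R A] [Ring A₀] [Algebra F A₀] [Ring B] [Algebra R B]
    [Algebra K B] [Fintype κ] [Fintype Ω] [MulAction (V × V) Ω] {α : V →* A} {lam : A →ₗ[R] R}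
    {x y : κ → A} {b : Ω → A} {c : Ω → (A →ₗ[R] R)} (C : KC R K B α lam x y b c) (W : Subgroup V)
    {cv : Cdv R F} (f : FibG A A₀ cv) (g : B →ₗ[K] B) (h : V → A) (D : V → A₀) : Prop where
  wbl : WBl (ia C.i α) W g
  one : g 1 = 0
  int : ∀ a₁ a₂, In C.i (d1 g (C.i a₁) (C.i a₂))
  gh : ∀ u, ∃ a, (ℓ : K) • g (C.i (α u)) = C.i (α u * h u) + (ℓ : K) • C.i a
  hv : ∀ u v, h u * α v = α v * h u
  hw : ∀ u, ∀ w ∈ W, h (u * w) = h u
  hy : ∀ u, f.q (h u) = D u

/-- for `r ∉ W` the element `∑_(j<ℓ) m₁ (r^j, r) r^-(j+1)`, `m₁ = d1 g`, is congruent to `D r` modulo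
`ℓ` and traces from proper subgroups of `⟨r⟩` -/
def Ekc (ℓ : ℕ) {R K F V A A₀ B κ Ω : Type} [CommRing R] [Field K] [Algebra R K] [Field F]
    [CommGroup V] [Fintype V] [Ring A] [Algebra R A] [Ring A₀] [Algebra F A₀] [Ring B] [Algebra R B]
    [Algebra K B] [Fintype κ] [Fintype Ω] [MulAction (V × V) Ω] {α : V →* A} {lam : A →ₗ[R] R}
    {x y : κ → A} {b : Ω → A} {c : Ω → (A →ₗ[R] R)} (C : KC R K B α lam x y b c) (W : Subgroup V)
    {cv : Cdv R F} (f : FibG A A₀ cv) (α₀ : V →* A₀) (g : B →ₗ[K] B) (D : V → A₀) : Prop :=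
  ∀ r : V, r ∉ W → ∀ e : A, C.i e = ∑ j ∈ Finset.range ℓ,
      d1 g (C.i (α (r ^ j))) (C.i (α r)) * C.i (α (r ^ (j + 1))⁻¹) →
    f.q e - D r ∈ BKR (cw F α₀) (Subgroup.zpowers r)

/-- DRQ (output of block DR): every algebra of the class has a regular direction over `R`. -/
def DrqStmt : Prop :=
  ∀ (ℓ : ℕ) [Fact ℓ.Prime] (R F V E A A₀ κ Ω : Type) [CommRing R] [IsDomain R]
    [IsPrincipalIdealRing R] [CharZero R] [Field F] [IsAlgClosed F] [CharP F ℓ] [CommGroup V]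
    [Fintype V] [Group E] [Fintype E] [Ring A] [Algebra R A] [Module.Finite R A] [Module.Free R A]
    [Ring A₀] [Algebra F A₀] [Fintype κ] [Fintype Ω] [MulAction (V × V) Ω]
    (φ : E →* MulAut V) (W : Subgroup V) (cv : Cdv R F) (f : FibG A A₀ cv) (α₀ : V →* A₀)
    (lam₀ : A₀ →ₗ[F] F) (x₀ y₀ : κ → A₀) (b₀ : Ω → A₀) (c₀ : Ω → (A₀ →ₗ[F] F)) (α : V →* A)
    (lam : A →ₗ[R] R) (x y : κ → A) (b : Ω → A) (c : Ω → (A →ₗ[R] R)) (u : A),
    IsPGroup ℓ V → ¬ ℓ ∣ Nat.card E → cv.π = (ℓ : R) → Chf ℓ φ W → Cl F φ α₀ →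
    (∀ ω : Ω, ∃ (e : E) (S : Subgroup V),
      MulAction.stabilizer (V × V) ω = tw (φ e).toMonoidHom S) →
    FrR (bw F α₀) b₀ c₀ → RF F α₀ lam₀ x₀ y₀ →
    LiftV cv α₀ lam₀ x₀ y₀ b₀ c₀ f α lam x y b c → u * rt x y 1 = 1 →
    ∃ (r : ℕ) (la : Fin r → V → F) (χ : Fin r → E → F) (xx : Fin r → V → F) (t : Fin r → F)
      (D : V → A₀) (v : A →ₗ[R] A) (h : V → A),
      Drd F φ α₀ W (QW0 φ W) la χ xx t D ∧ Fov ℓ α W f v h D

/-- KEY (output of block OB): for a regular direction the Bianchi identity implies that the forms of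
a cocycle vanish. -/
def KeyStmt : Prop :=
  ∀ (ℓ : ℕ) [Fact ℓ.Prime] (R K F V E A A₀ B κ Ω : Type) [CommRing R] [IsDomain R]
    [IsPrincipalIdealRing R] [CharZero R] [Field K] [CharZero K] [Algebra R K]
    [Field F] [IsAlgClosed F] [CharP F ℓ] [CommGroup V]
    [Fintype V] [Group E] [Fintype E] [Ring A] [Algebra R A] [Module.Finite R A] [Module.Free R A]
    [Ring A₀] [Algebra F A₀] [Ring B] [Algebra R B] [Algebra K B] [Fintype κ] [Fintype Ω]
    [MulAction (V × V) Ω] (φ : E →* MulAut V) (W : Subgroup V) (cv : Cdv R F) (f : FibG A A₀ cv)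
    (α₀ : V →* A₀) (lam₀ : A₀ →ₗ[F] F) (x₀ y₀ : κ → A₀) (b₀ : Ω → A₀) (c₀ : Ω → (A₀ →ₗ[F] F))
    (α : V →* A) (lam : A →ₗ[R] R) (x y : κ → A) (b : Ω → A) (c : Ω → (A →ₗ[R] R)) (u : A)
    (C : KC R K B α lam x y b c) (r : ℕ) (la : Fin r → V → F) (χ : Fin r → E → F)
    (xx : Fin r → V → F) (t : Fin r → F) (D : V → A₀) (g : B →ₗ[K] B),
    IsPGroup ℓ V → ¬ ℓ ∣ Nat.card E → cv.π = (ℓ : R) → Chf ℓ φ W → Cl F φ α₀ →
    (∀ ω : Ω, ∃ (e : E) (S : Subgroup V),
      MulAction.stabilizer (V × V) ω = tw (φ e).toMonoidHom S) →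
    FrR (bw F α₀) b₀ c₀ → RF F α₀ lam₀ x₀ y₀ →
    LiftV cv α₀ lam₀ x₀ y₀ b₀ c₀ f α lam x y b c → u * rt x y 1 = 1 →
    Drd F φ α₀ W (QW0 φ W) la χ xx t D → WBl (ia C.i α) W g → g 1 = 0 →
    (∀ a₁ a₂, In C.i (d1 g (C.i a₁) (C.i a₂))) → Ekc ℓ C W f α₀ g D →
    ∀ m₁ cc : B →ₗ[K] B →ₗ[K] B, (∀ x y, m₁ x y = d1 g x y) → Z2 C W cc → Bi C W m₁ cc → Fz C cc

end Pool.Agent.PST
end
end -- Pool.Agent.PST.DefsK

section -- Pool.Agent.PST.StmtsDR

/-!
# Theorem (S+), block DR (direction): statements (helper75)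

Complete proofs in the docstrings.  Definitions: `PST/DefsR.lean`.

1. Rows 180 - 186: eigen-coordinates (linear algebra of `V / W`).
2. Rows 190 - 196: the regular derivation over `F`.
3. Rows 200 - 205: the direction over `R` (`DrqStmt`) and the first order datum.
4. Rows 210 - 214: properties of the datum.

Proved rows which may be imported: THL (`Helper2_PSS/THL.lean` or see the table pss), CNH, SVH, EOR, WWL, DFR,
ORB, BKI, RTC, UZL (columns `path` of the table pss).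
-/

open scoped BigOperators PowerSeries

noncomputable section

namespace Pool.Agent.PST

open Pool.Agent.PFC (tw IsTv)
open Pool.Agent.PFD.D2 (Cdv FibG)
open Pool.Agent.PFD.D2b (FrR)
open Pool.Agent.PSS
open Pool.Agent.PSS.S2 (PrD Nh Cn CV)
open Dm (cst)

/-! ## 1. Eigen-coordinates -/

/-- EGC (180): the additive functions on `V / W` have a basis of eigenvectors of `E`.

Proof.  `H` = the subspace of the additive `μ : V → F` with `μ = 0` on `W` (a finite dimensional subspace of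
`V → F`).  `T e μ = μ ∘ φ e`, an endomorphism of `H` (`W` is stable); `T (e f) = T f * T e`, `T 1 = 1`, and
`T e`, `T f` commute by the last hypothesis (`μ (φ (e f) v) = μ (φ (f e) v)`).  `T e ^ |E| = 1` and `X ^ |E| - 1`
is separable over `F` (`ℓ` does not divide `|E|`; `Polynomial.separable_X_pow_sub_C`) and splits, so
`T e` is semisimple (`Module.End.IsSemisimple`, from a squarefree annihilating polynomial:
`Module.End.isSemisimple_of_squarefree_aeval_eq_zero`) and its generalised eigenspaces are eigenspaces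
(`Module.End.IsFinitelySemisimple.maxGenEigenspace_eq_eigenspace`).  Commuting operators:
`Module.End.iSup_iInf_maxGenEigenspace_eq_top_of_iSup_maxGenEigenspace_eq_top_of_commute`
(`⨆ χ : E → F, ⨅ e, (T e).maxGenEigenspace (χ e) = ⊤`) and
`Module.End.independent_iInf_maxGenEigenspace_of_forall_mapsTo`: `H` is the internal direct sum of the joint
eigenspaces, `DirectSum.IsInternal.collectedBasis` (or: `H` is spanned by joint eigenvectors, choose a
basis from this spanning set: `Module.Basis.ofSpan`, `exists_linearIndependent`).  A joint eigenvector `la l ≠ 0`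
with `T e (la l) = χ l e • la l`: `χ l (e f) = χ l e * χ l f` and `χ l 1 = 1` since `la l ≠ 0`. -/
def EgcStmt : Prop :=
  ∀ (ℓ : ℕ) [Fact ℓ.Prime] (F V E : Type) [Field F] [IsAlgClosed F] [CharP F ℓ] [CommGroup V]
    [Fintype V] [Group E] [Fintype E] (φ : E →* MulAut V) (W : Subgroup V),
    ¬ ℓ ∣ Nat.card E → Stb φ W → (∀ e f v, φ (e * f) v * (φ (f * e) v)⁻¹ ∈ W) →
    ∃ (r : ℕ) (la : Fin r → V → F) (χ : Fin r → E → F),
      (∀ l u v, la l (u * v) = la l u + la l v) ∧ (∀ l, ∀ w ∈ W, la l w = 0) ∧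
      (∀ l e v, la l (φ e v) = χ l e * la l v) ∧
      (∀ l e f, χ l (e * f) = χ l e * χ l f) ∧ (∀ l, χ l 1 = 1) ∧ LinearIndependent F la ∧
      ∀ μ : V → F, (∀ u v, μ (u * v) = μ u + μ v) → (∀ w ∈ W, μ w = 0) →
        ∃ a : Fin r → F, ∀ v, μ v = ∑ l, a l * la l v

/-- SPT (181): the additive functions separate the points of an elementary abelian group.

Proof.  `V ⧸ W` is a vector space over `ZMod ℓ` (`AddCommGroup.zmodModule` for `Additive (V ⧸ W)`, every
element is killed by `ℓ`); for the class of `v`, which is not `0`, there is a linear functional `f` with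
`f v ≠ 0` (`Module.exists_dual_forall_apply_ne_zero..` / `Module.forall_dual_apply_eq_zero_iff`); compose with
the injective ring homomorphism `ZMod.castHom (dvd_refl ℓ) F`. -/
def SptStmt : Prop :=
  ∀ (ℓ : ℕ) [Fact ℓ.Prime] (F V : Type) [Field F] [CharP F ℓ] [CommGroup V] [Finite V]
    (W : Subgroup V), (∀ v : V, v ^ ℓ ∈ W) → ∀ v : V, v ∉ W →
    ∃ μ : V → F, (∀ u v, μ (u * v) = μ u + μ v) ∧ (∀ w ∈ W, μ w = 0) ∧ μ v ≠ 0

/-- DUL (182): dual elements in `F Q`.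

Proof.  The functions `la l` restricted to `Q` are linearly independent: a combination which vanishes on
`Q` vanishes on `V = Q W`.  The linear map `T : (Q → F) → (Fin r → F)`, `x ↦ (∑ q, x q * la n q)_n` is
surjective: otherwise its image is contained in the kernel of a functional `a ≠ 0`,
`∑ n, a n * la n q = 0` for all `q` in `Q` (take `x` = the indicator function of `q`), so `a = 0`.  Extend the
preimages of the basis vectors by `0` to `V`. -/
def DulStmt : Prop :=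
  ∀ (F V : Type) [Field F] [CommGroup V] [Fintype V] (W Q : Subgroup V) (r : ℕ)
    (la : Fin r → V → F), (∀ l u v, la l (u * v) = la l u + la l v) →
    (∀ l, ∀ w ∈ W, la l w = 0) → LinearIndependent F la →
    (∀ v : V, ∃ q ∈ Q, ∃ w ∈ W, v = q * w) →
    ∃ xx : Fin r → V → F, (∀ l v, v ∉ Q → xx l v = 0) ∧
      ∀ l n, ∑ v, xx l v * la n v = if l = n then 1 else 0

/-- AVX (183): equivariant dual elements with augmentation `0`.

Proof.  `x₁ l v = xx' l v - (if v = 1 then ∑ u, xx' l u else 0)` (`la n 1 = 0`, `1 ∈ Q`), and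
`xx l v = |E|⁻¹ * ∑ e, χ l e * x₁ l (φ e v)`.  `χ l f * xx l (φ f v) = |E|⁻¹ ∑ e, χ l (e f) x₁ l (φ (e f) v)
= xx l v`.  `∑ v, xx l v * la n v = |E|⁻¹ ∑ e, χ l e ∑ v, x₁ l (φ e v) la n v`, substitute `v ↦ φ e⁻¹ v`:
`la n (φ e⁻¹ v) = χ n e⁻¹ la n v`, so it is `|E|⁻¹ ∑ e, χ l e χ n e⁻¹ δ = δ`.  Support: `Q` is stable
(`φ e v ∈ Q` implies `v ∈ Q`). -/
def AvxStmt : Prop :=
  ∀ (ℓ : ℕ) [Fact ℓ.Prime] (F V E : Type) [Field F] [CharP F ℓ] [CommGroup V] [Fintype V]
    [Group E] [Fintype E] (φ : E →* MulAut V) (Q : Subgroup V) (r : ℕ) (la : Fin r → V → F)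
    (χ : Fin r → E → F) (xx' : Fin r → V → F), ¬ ℓ ∣ Nat.card E → Stb φ Q →
    (∀ l u v, la l (u * v) = la l u + la l v) → (∀ l e v, la l (φ e v) = χ l e * la l v) →
    (∀ l e f, χ l (e * f) = χ l e * χ l f) → (∀ l, χ l 1 = 1) →
    (∀ l v, v ∉ Q → xx' l v = 0) →
    (∀ l n, ∑ v, xx' l v * la n v = if l = n then 1 else 0) →
    ∃ xx : Fin r → V → F, (∀ l v, v ∉ Q → xx l v = 0) ∧ (∀ l, ∑ v, xx l v = 0) ∧
      (∀ l n, ∑ v, xx l v * la n v = if l = n then 1 else 0) ∧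
      ∀ l e v, χ l e * xx l (φ e v) = xx l v

/-- TIN (184): distinct eigenvalues `≠ 0` exist, as `F` is infinite.

Proof.  `Infinite F` (`IsAlgClosed.instInfinite` or so), the set `{x | x ≠ 0}` is infinite
(`Set.Infinite.diff`), `Set.Infinite.exists_subset_card_eq` or `Infinite.natEmbedding`. -/
def TinStmt : Prop :=
  ∀ (F : Type) [Field F] [IsAlgClosed F] (r : ℕ),
    ∃ t : Fin r → F, (∀ l, t l ≠ 0) ∧ Function.Injective t

/-- QWV (185): `QW0 φ W` is stable, and `V = QW0 · W`.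

Proof.  `K` = the subgroup of the `e` with `φ e u * u⁻¹ ∈ W` for all `u`; it is normal:
`φ (f⁻¹ e f) u * u⁻¹ = φ f⁻¹ (φ e (φ f u) * (φ f u)⁻¹)`.  Stable: for `v ∈ QW0`, `e ∈ K`:
`φ e (φ f v) = φ f (φ (f⁻¹ e f) v) = φ f v`.  `V = QW0 W`: `k = |K|` is prime to `ℓ` (it divides `|E|`), and
`|V|` is a power of `ℓ`, so there is `m` with `v ^ (m * k) = v` for all `v` (`Nat.Coprime`, `pow_card_eq_one`).
For `v` put `q = ∏ (e : K), φ e (v ^ m)`: `φ f q = q` for `f ∈ K` (reindex; `V` is commutative), so `q ∈ QW0`;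
`φ e (v ^ m) = v ^ m * w_e`, so `q = v ^ (m k) * w = v * w`. -/
def QwvStmt : Prop :=
  ∀ (ℓ : ℕ) [Fact ℓ.Prime] (V E : Type) [CommGroup V] [Fintype V] [Group E] [Fintype E]
    (φ : E →* MulAut V) (W : Subgroup V), IsPGroup ℓ V → ¬ ℓ ∣ Nat.card E → Stb φ W →
    Stb φ (QW0 φ W) ∧ ∀ v : V, ∃ q ∈ QW0 φ W, ∃ w ∈ W, v = q * w

/-- EGX (186, uses EGC SPT DUL AVX TIN): eigen-coordinates exist.

Proof.  `ker`: SPT, a function `μ` with `μ v ≠ 0` is a combination of the `la l`.  `spn`: with `μ = ∑ a n la n`,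
`∑ u, xx l u * μ u = a l`. -/
def EgxStmt : Prop :=
  ∀ (ℓ : ℕ) [Fact ℓ.Prime] (F V E : Type) [Field F] [IsAlgClosed F] [CharP F ℓ] [CommGroup V]
    [Fintype V] [Group E] [Fintype E] (φ : E →* MulAut V) (W Q : Subgroup V),
    ¬ ℓ ∣ Nat.card E → Stb φ W → Stb φ Q → (∀ v : V, v ^ ℓ ∈ W) →
    (∀ e f v, φ (e * f) v * (φ (f * e) v)⁻¹ ∈ W) → (∀ v : V, ∃ q ∈ Q, ∃ w ∈ W, v = q * w) →
    ∃ (r : ℕ) (la : Fin r → V → F) (χ : Fin r → E → F) (xx : Fin r → V → F) (t : Fin r → F),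
      Eg F φ W Q la χ xx t

/-! ## 2. The regular derivation over the field -/

/-- DGX (190, uses THL): the transfer is a derivation.

Proof.  Fix `a`.  `f b = (N (a * b) - a * N b) * X` is right `V`-linear: `N (a b v) = N (a b) v + χ v • a b v`,
`a N (b v) = a N b v + χ v • a b v` (`Cn.lin` with `q = 0`, `S2.cg_zero`), and `X` commutes with `V`.
`N (a b x_k) - a b N (x_k) = (N (a (b x_k)) - a N (b x_k)) + a (N (b x_k) - b N (x_k))`, so
`Gx (a b) = ∑ k, f (b * x k) * y k + a * Gx b`, and `S2.ThlStmt` (`q = 0`) gives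
`∑ k, f (b * x k) * y k = (∑ k, f (x k) * y k) * b = Gx a * b`. -/
def DgxStmt : Prop :=
  ∀ (F V A K : Type) [Field F] [CommGroup V] [Fintype V] [Ring A] [Algebra F A] [Fintype K]
    (α : V →* A) (lam : A →ₗ[F] F) (x y : K → A) (χ : V → F) (N : A →ₗ[F] A) (X : A),
    RF F α lam x y → Cn 0 α χ N → CV α X → ∀ a b : A,
    Gx X x y N (a * b) = Gx X x y N a * b + a * Gx X x y N b

/-- GXU (191): the value at `α u`.

Proof.  `Nh H b c a = ∑ ω, (c ω a * H ω) • b ω`.  `Nh H (α u * a)`: substitute `ω = (u, 1) • ω'`,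
`c ((u, 1) • ω') (α u * a) = c ω' a`, `b ((u, 1) • ω') = α u * b ω'`, so
`Nh H (α u * a) - α u * Nh H a = ∑ ω, (c ω a * (H ((u, 1) • ω) - H ω)) • (α u * b ω)`, and
`H ((u, 1) • ω) - H ω = la (φ (e ω)⁻¹ u) - la 1 = χ (e ω)⁻¹ * la u` (`la 1 = 0` from additivity). -/
def GxuStmt : Prop :=
  ∀ (F V E A K Ω : Type) [Field F] [CommGroup V] [Fintype V] [Group E]
    [Ring A] [Algebra F A] [Fintype K] [Fintype Ω] [MulAction (V × V) Ω]
    (φ : E →* MulAut V) (α : V →* A) (x y : K → A) (b : Ω → A)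
    (c : Ω → (A →ₗ[F] F)) (la : V → F) (χ : E → F) (H : Ω → F) (e : Ω → E) (X : A),
    FrR (bw F α) b c → (∀ u v, la (u * v) = la u + la v) →
    (∀ e v, la (φ e v) = χ e * la v) →
    (∀ (u v : V) (ω : Ω), H ((u, v) • ω) = H ω + la (φ (e ω)⁻¹ u) - la v) → ∀ u : V,
    Gx X x y (Nh H b c) (α u) =
      la u • (α u * ∑ k, Nh (fun ω => χ (e ω)⁻¹) b c (x k) * (X * y k))

/-- YCV (192, uses THL): the element `Y` commutes with `V`.

Proof.  `f a = Nh κ b c a * X` is right `V`-linear, and left `V`-linear (`κ` is invariant; as in GXU).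
`S2.ThlStmt` for `q = 0` and `a = α v`: `(∑ f (x k) * y k) * α v = ∑ f (α v * x k) * y k =
α v * ∑ f (x k) * y k`. -/
def YcvStmt : Prop :=
  ∀ (F V A K Ω : Type) [Field F] [CommGroup V] [Fintype V]
    [Ring A] [Algebra F A] [Fintype K] [Fintype Ω] [MulAction (V × V) Ω]
    (α : V →* A) (lam : A →ₗ[F] F) (x y : K → A) (b : Ω → A) (c : Ω → (A →ₗ[F] F))
    (κ : Ω → F) (X : A), RF F α lam x y → FrR (bw F α) b c →
    (∀ (p : V × V) ω, κ (p • ω) = κ ω) → CV α X →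
    ∑ k, Nh κ b c (x k) * (X * y k) ∈ FxR (cw F α) ⊤

/-- YQT (193): the element `Y` as a sum over the orbits of `1 × V`.

Proof.  Let `ŷ ω = ∑ k, c ω (x k) • y k`; the left side is `∑ ω, κ ω • b ω * X * ŷ ω` (`Nh κ b c a =
∑ ω, (c ω a * κ ω) • b ω`).  `d ω = ∑ k v, lam (d ω * (x k * α v)) • (α v⁻¹ * y k)` (`RF.e2`), and
`lam (d ω * (x k * α v)) = c ω (x k * α v) = c ((1, v) • ω) (x k)` (`FrR`: `c (g • t) (g n) = c t n` with
`g = (1, v)`, `n = x k * α v`), so `d ω = ∑ v, α v⁻¹ * ŷ ((1, v) • ω)`.  `V × Qt Ω → Ω`,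
`(v, k) ↦ (1, v) • k.rep` is bijective (`DFr.fr`, see the row DRF), so with `b ((1, v) • ω) = b ω * α v⁻¹` the sum is
`∑ k v, κ • b k.rep * α v⁻¹ * X * ŷ ((1, v) • k.rep) = ∑ k, κ • b k.rep * X * d k.rep`. -/
def YqtStmt : Prop :=
  ∀ (F V A K Ω : Type) [Field F] [CommGroup V] [Fintype V]
    [Ring A] [Algebra F A] [Fintype K] [Fintype Ω] [MulAction (V × V) Ω]
    (α : V →* A) (lam : A →ₗ[F] F) (x y : K → A) (b d : Ω → A) (c : Ω → (A →ₗ[F] F))
    (κ : Ω → F) (X : A), RF F α lam x y → FrR (bw F α) b c → DFr F α lam b d →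
    (∀ ω a, c ω a = lam (d ω * a)) → (∀ (p : V × V) ω, κ (p • ω) = κ ω) → CV α X →
    ∑ k, Nh κ b c (x k) * (X * y k) =
      ∑ k : Qt (V := V) Ω, κ k.rep • (b k.rep * X * d k.rep)

/-- YBR (194, uses DFR ORB YQT): `Y` is congruent to `X ζ`, `ζ = rt x y 1`.

Proof.  DFR: dual frame `d`.  YQT for `κ ω = χ (e ω)⁻¹`, `X = Xe α xx`; and for `κ = 1`, `X = 1`:
`rt x y 1 = ∑ k, b k.rep * d k.rep` (`Nh (fun _ => 1) b c a = a`).  So the difference is `∑ k, f k`,
`f k = g k.rep`, `g ω = χ (e ω)⁻¹ • (b ω * X * d ω) - X * (b ω * d ω)`.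
`g ((u, v) • ω) = α u * g ω * α u⁻¹` (`X` commutes with `V`), so `g` depends only on the orbit of `1 × V`, and
`f ((q, 1) • k) = α q * f k * α q⁻¹`.  ORB for the group `Q` (acting on `Qt Ω` by `q • k = (q, 1) • k`,
`MulAction.compHom`; `ρ = (cw F α).comp Q.subtype`, `BKR_range` or `ResStmt`): modulo `BKR (cw) Q` only the fixed
orbits contribute.  Let `k` be fixed, `ω = k.rep`, `e = e ω`: for `q` in `Q` there is `v` with
`(q, v) • ω = ω` (`qmk_eq`), so `(q, v) ∈ tw (φ e) S`, `q = φ e v`.  As `Q` is stable and `φ e` is bijective on `Q`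
(finite), for every `v ∈ Q`: `(φ e v, v) • ω = ω`, so `b ω * α v = α (φ e v) * b ω`.  `xx` is supported in `Q`:
`b ω * X = ∑ v, xx v • (α (φ e v) * b ω) = ∑ v, xx (φ e⁻¹ v) • (α v * b ω) = χ e • (X * b ω)`, as
`χ e * xx v = xx (φ e⁻¹ v)` (`xe`).  `χ e⁻¹ * χ e = 1`, so `g ω = 0`. -/
def YbrStmt : Prop :=
  ∀ (F V E A K Ω : Type) [Field F] [CommGroup V] [Fintype V] [Group E]
    [Ring A] [Algebra F A] [Fintype K] [Fintype Ω] [MulAction (V × V) Ω]
    (φ : E →* MulAut V) (α : V →* A) (lam : A →ₗ[F] F) (x y : K → A) (b : Ω → A)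
    (c : Ω → (A →ₗ[F] F)) (e : Ω → E) (S : Ω → Subgroup V) (χ : E → F) (xx : V → F)
    (Q : Subgroup V), RF F α lam x y → FrR (bw F α) b c →
    (∀ (p : V × V) ω, e (p • ω) = e ω) →
    (∀ ω : Ω, MulAction.stabilizer (V × V) ω = tw (φ (e ω)).toMonoidHom (S ω)) →
    (∀ e f, χ (e * f) = χ e * χ f) → χ 1 = 1 → (∀ e v, χ e * xx (φ e v) = xx v) →
    (∀ v, v ∉ Q → xx v = 0) → Stb φ Q →
    ∑ k, Nh (fun ω => χ (e ω)⁻¹) b c (x k) * (Xe α xx * y k) - Xe α xx * rt x y 1 ∈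
      BKR (cw F α) Q

/-- DRG (195, uses EOR SVH CNH DGX GXU YCV YBR RTC BKI): the regular derivation.

Proof.  EOR: `e`, `S`; SVH (`B = F`, `χ = la l`): `H l`; CNH (`q = 0`): `N l = Nh (H l) b c` is a connection for
`la l`.  `X l = Xe α (xx l)` commutes with `V` (`V` is commutative).  `Y l` = the sum in GXU.  `ζ = rt x y 1` is
central (RTC) and `u₀ * ζ = 1`, so `u₀` is central.  `G a = ∑ l, t l • (u₀ * Gx (X l) x y (N l) a)` and
`D u = ∑ l, (t l * la l u) • (u₀ * Y l)`.  DGX: `G` is a derivation.  GXU: `G (α u) = α u * D u`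
(`u₀` is central).  `D u - Xe α (pg la xx t u) = ∑ l, (t l * la l u) • (u₀ * (Y l - X l * ζ))`, and
`u₀ * (Y l - X l * ζ) ∈ BKR (cw) Q` by YBR and BKI (`u₀` commutes with `V`). -/
def DrgStmt : Prop :=
  ∀ (F V E A K Ω : Type) [Field F] [CommGroup V] [Fintype V] [Group E]
    [Ring A] [Algebra F A] [Fintype K] [Fintype Ω] [MulAction (V × V) Ω]
    (φ : E →* MulAut V) (α : V →* A) (lam : A →ₗ[F] F) (x y : K → A) (b : Ω → A)
    (c : Ω → (A →ₗ[F] F)) (u₀ : A) (W Q : Subgroup V) (r : ℕ) (la : Fin r → V → F)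
    (χ : Fin r → E → F) (xx : Fin r → V → F) (t : Fin r → F), RF F α lam x y →
    PrD F φ α b c → u₀ * rt x y 1 = 1 → Eg F φ W Q la χ xx t → Stb φ Q →
    ∃ (G : A →ₗ[F] A) (D : V → A), Drd F φ α W Q la χ xx t D ∧
      (∀ a a', G (a * a') = G a * a' + a * G a') ∧ ∀ u, G (α u) = α u * D u

/-! ## 3. The first order term over `R` -/

/-- LGD (200, uses WWL): a derivation over `F` which kills `W` lifts to a `W`-`W`-linear map over `R`.

Proof.  `g ω` = a lift of `G (b ω)`, `G' a = ∑ ω, c' ω a • g ω`; `f.q (G' a) = ∑ ω, κ (c' ω a) • G (b ω) =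
∑ ω, c ω (f.q a) • G (b ω) = G (f.q a)` (`qc`, `qb`).  For `w ∈ W`: `G (α w * a) = α w * G a`,
`G (a * α w) = G a * α w` (derivation, `G (α w) = 0`), so by `f.ker` `G'` is `W`-`W`-linear modulo `π`; WWL
(`q := cv.π`): `v₁` is `W`-`W`-linear and congruent to `G'`, so `f.q (v₁ a) = G (f.q a)`.  `G 1 = 0`, so
`v a = v₁ a - v₁ 1 * a` has the same reduction; `v₁ 1` commutes with `W`, so `v` is `W`-`W`-linear, `v 1 = 0`. -/
def LgdStmt : Prop :=
  ∀ (R F V A A' K Ω : Type) [CommRing R] [Field F] (cv : Cdv R F) [CommGroup V] [Fintype V]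
    [Ring A] [Algebra F A] [Ring A'] [Algebra R A'] [Fintype K] [Fintype Ω]
    [MulAction (V × V) Ω] (W : Subgroup V) (α : V →* A) (lam : A →ₗ[F] F) (x y : K → A)
    (b : Ω → A) (c : Ω → (A →ₗ[F] F)) (f : FibG A' A cv) (α' : V →* A') (lam' : A' →ₗ[R] R)
    (x' y' : K → A') (b' : Ω → A') (c' : Ω → (A' →ₗ[R] R)) (G : A →ₗ[F] A),
    LiftV cv α lam x y b c f α' lam' x' y' b' c' →
    (∀ a a', G (a * a') = G a * a' + a * G a') → (∀ w ∈ W, G (α w) = 0) →
    ∃ v : A' →ₗ[R] A', (∀ a, f.q (v a) = G (f.q a)) ∧ v 1 = 0 ∧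
      (∀ w ∈ W, ∀ a, v (α' w * a) = α' w * v a ∧ v (a * α' w) = v a * α' w) ∧
      ∀ a a', ∃ e, a * v a' - v (a * a') + v a * a' = cv.π • e

/-- HLF (201): lifts of the values `D u` which commute with `V` and depend only on `u` modulo `W`.

Proof.  For every `u` there is `a` in `A` which commutes with `V`, `f.q a = D u`: the fixed vectors of the diagonal
lift (UZL (2), `X` = the diagonal subgroup; or directly: `a = ∑ ω, r ω • b ω` with `r ω` a lift of `c₀ ω (D u)`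
which is constant on the orbits of the diagonal, e.g. `r ω = s (c₀ ω (D u))` for a section `s` of `κ`:
`c₀ ((v, v) • ω) (D u) = c₀ ω (D u)`).  `h u` = the lift chosen for `D u` as a function of the element `D u` of
`A₀` (choice function on the values): then `D (u * w) = D u` gives `h (u * w) = h u`. -/
def HlfStmt : Prop :=
  ∀ (R F V A A₀ κ Ω : Type) [CommRing R] [Field F] (cv : Cdv R F) [CommGroup V] [Fintype V]
    [Ring A] [Algebra R A] [Ring A₀] [Algebra F A₀] [Fintype κ] [Fintype Ω]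
    [MulAction (V × V) Ω] (W : Subgroup V) (f : FibG A A₀ cv) (α₀ : V →* A₀)
    (lam₀ : A₀ →ₗ[F] F) (x₀ y₀ : κ → A₀) (b₀ : Ω → A₀) (c₀ : Ω → (A₀ →ₗ[F] F)) (α : V →* A)
    (lam : A →ₗ[R] R) (x y : κ → A) (b : Ω → A) (c : Ω → (A →ₗ[R] R)) (D : V → A₀),
    LiftV cv α₀ lam₀ x₀ y₀ b₀ c₀ f α lam x y b c → FrR (bw F α₀) b₀ c₀ →
    (∀ u, D u ∈ FxR (cw F α₀) ⊤) → (∀ u, ∀ w ∈ W, D (u * w) = D u) →
    ∃ h : V → A, (∀ u v, h u * α v = α v * h u) ∧ (∀ u, ∀ w ∈ W, h (u * w) = h u) ∧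
      ∀ u, f.q (h u) = D u

/-- DRR (202, uses QWV EGX DRG LGD HLF): the output of the block, `DrqStmt` of `PST/DefsK.lean`.

Proof.  `Q = QW0 φ W` (QWV), EGX (`Chf`: `sw`, `pw`, `ab`: `φ (e * f) v * (φ (f * e) v)⁻¹ = 1`), DRG
(`PrD F φ α₀ b₀ c₀`; the inverse `u₀` of `rt x₀ y₀ 1` is `f.q u`: apply `f.q` to `u * rt x y 1 = 1`, `qx`, `qy`): `G`,
`D`.  `G (α₀ w) = α₀ w * D w = 0`.  LGD: `v`; `der` with `cv.π = ℓ` (change the sign of `e`).  HLF: `h`
(`D (u * w) = D u + D w = D u`).  `vh`: `f.q (v (α u) - α u * h u) = G (α₀ u) - α₀ u * D u = 0` and `f.ker`. -/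
def DrrStmt : Prop :=
  QwvStmt → EgxStmt → DrgStmt → LgdStmt → HlfStmt → DrqStmt

/-- NSM (203): the norm identity.

Proof.  `T i = v (z ^ i) * z' ^ i` is `0` for `i = 0` and for `i = n` (`v (z ^ n) = v 1 * z ^ n = 0`).
`(z ^ i * v z - v (z ^ i * z) + v (z ^ i) * z) * z' ^ (i + 1) = z ^ i * (v z * z') * z' ^ i - T (i + 1) + T i`; the
sum telescopes. -/
def NsmStmt : Prop :=
  ∀ (A : Type) [Ring A] (v : A → A) (z z' : A) (n : ℕ), z * z' = 1 → z' * z = 1 → v 1 = 0 →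
    v (z ^ n) = v 1 * z ^ n →
    ∑ i ∈ Finset.range n, (z ^ i * v z - v (z ^ i * z) + v (z ^ i) * z) * z' ^ (i + 1) =
      ∑ i ∈ Finset.range n, z ^ i * (v z * z') * z' ^ i

/-- PWR (204): powers and commutators in the ring of a deformation, to first order.

Proof.  `D.of f * D.of g = D.of (D.mul f g)`, `D.mul f g 0 = f 0 * g 0`, `D.mul f g 1 = f 0 * g 1 + f 1 * g 0 +
D.m 1 (f 0) (g 0)`.  First part: `Z = D.of (fun n => f (n + 1))` (`of_smul`, `smulq`).  Powers: induction on `n` with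
`z ^ (n + 1) = z ^ n * z`: `sq (z ^ (n + 1)) 1 = a ^ n * (- h) + sq (z ^ n) 1 * a + D.m 1 (a ^ n) a` (`n = 0`:
`sq 1 = cst 1`, `D.m 1 1 a = 0`). -/
def PwrStmt : Prop :=
  ∀ (k A W : Type) [CommRing k] [Ring A] [Algebra k A] [Group W] (om : W →* A) (D : Dm k om)
    (a a₁ h h₁ : A) (n : ℕ),
    (∀ f : ℕ → A, f 0 = 0 → ∃ Z : D.R, D.of f = (PowerSeries.X : PowerSeries k) • Z ∧
      D.sq Z 0 = f 1 ∧ D.sq Z 1 = f 2) ∧
    D.sq (D.of (fun i => if i = 0 then a else if i = 1 then - h else 0) ^ n) 0 = a ^ n ∧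
    D.sq (D.of (fun i => if i = 0 then a else if i = 1 then - h else 0) ^ n) 1 =
      ∑ i ∈ Finset.range n, (D.m 1 (a ^ i) a - a ^ i * h) * a ^ (n - 1 - i) ∧
    D.sq (D.of (fun i => if i = 0 then a else if i = 1 then - h else 0) *
        D.of (fun i => if i = 0 then a₁ else if i = 1 then - h₁ else 0)) 0 = a * a₁ ∧
    D.sq (D.of (fun i => if i = 0 then a else if i = 1 then - h else 0) *
        D.of (fun i => if i = 0 then a₁ else if i = 1 then - h₁ else 0)) 1 =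
      D.m 1 a a₁ - a * h₁ - h * a₁

/-- FOX (205, uses NSM PWR): the first order datum of the reduction.

Proof.  Write `u` for `α u`, `C.i (α u)`, `α₀ u`, and `u'` for the inverse.  `Fod.gh`: `g u = ℓ⁻¹ • (h u * u) + i (a u)`
(`h u` commutes with `V`; `(ℓ : K) ≠ 0`).  `s u = a u * u'` (in `A`), `s₀ u = f.q (s u)`, so
`g u * u' = ℓ⁻¹ • i (h u) + i (s u)`.  `s u` commutes with `W`: `g u * u'` does (`WBl`, `V` commutative) and
`h u` does, `C.inj`.  `lf u` = `D₀.of` of the sequence `(α₀ u, - s₀ u * α₀ u, 0, ..)`.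
(1) `cm`: `D₀.w_mul_of`, and the product with `D₀.w w` on the right is also componentwise (`Dm.m_om_right`, `wr`;
`D.mul f (cst (om w)) n = f n * om w`); `α₀ w` commutes with `α₀ u` and `s₀ u`.
(2) power: NSM in `B` for `v = g`, `z = u`, `n = ℓ` (`g (u ^ ℓ) = g 1 * u ^ ℓ` as `u ^ ℓ ∈ W`):
`∑ i < ℓ, d1 g (u ^ i) u * u' ^ (i + 1) = ∑ i < ℓ, u ^ i * (g u * u') * u' ^ i = i (h u + ∑ i, u ^ i * s u * u' ^ i)`,
so by the hypothesis on `D₀.m 1` (with `C.inj`) `∑ i < ℓ, D₀.m 1 (u ^ i) u * u' ^ (i + 1) =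
D u + ∑ i, u ^ i * s₀ u * u' ^ i` in `A₀`.  PWR with `h = s₀ u * u`: `sq (lf u ^ ℓ) 1 =
∑ i < ℓ, (D₀.m 1 (u ^ i) u - u ^ i * s₀ u * u) * u ^ (ℓ - 1 - i) = D u * u ^ ℓ` (multiply the identity by
`u ^ ℓ`, `u' ^ (i + 1) * u ^ ℓ = u ^ (ℓ - 1 - i)`), and `sq (lf u ^ ℓ) 0 = u ^ ℓ`.  `D u = f.q (h u)` commutes with
`V`.  So `lf u ^ ℓ = D₀.w (u ^ ℓ) * D₀.of f'` with `f' n = α₀ (u ^ ℓ)⁻¹ * sq (lf u ^ ℓ) n`, `f' 0 = 1`, `f' 1 = D u`:
`D₀.of f' = 1 + X • G u` (PWR, first part, for `f' - cst 1`), `sq (G u) 0 = D u`.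
(3) `cc`: `D₀.m 1 u v - D₀.m 1 v u = f.q e` with `i e = d1 g u v - d1 g v u = u g(v) - g(v) u + g(u) v - v g(u)`
`= i (u s(v) v - s(v) v u + s(u) u v - v s(u) u)` (the terms with `h` cancel), so by PWR the component of
`lf u * lf v - lf v * lf u` in degree `1` is `0`; in degree `0`: `u v = v u`.  Twice the first part of PWR. -/
def FoxStmt : Prop :=
  ∀ (ℓ : ℕ) [Fact ℓ.Prime] (R K F V A A₀ B κ Ω : Type) [CommRing R] [Field K] [CharZero K]
    [Algebra R K] [Field F] [CommGroup V] [Fintype V] [Ring A] [Algebra R A] [Ring A₀]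
    [Algebra F A₀] [Ring B] [Algebra R B] [Algebra K B] [Fintype κ] [Fintype Ω]
    [MulAction (V × V) Ω] (W : Subgroup V) (cv : Cdv R F) (f : FibG A A₀ cv) (α₀ : V →* A₀)
    (α : V →* A) (lam : A →ₗ[R] R) (x y : κ → A) (b : Ω → A) (c : Ω → (A →ₗ[R] R))
    (C : KC R K B α lam x y b c) (D : V → A₀) (g : B →ₗ[K] B) (h : V → A)
    (D₀ : Dm F (aw α₀ W)) (q : D₀.R → A₀), (∀ u : V, u ^ ℓ ∈ W) →
    (∀ u, f.q (α u) = α₀ u) → Fod ℓ C W f g h D →
    (∀ a a', ∃ e, C.i e = d1 g (C.i a) (C.i a') ∧ D₀.m 1 (f.q a) (f.q a') = f.q e) →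
    (∀ Z, q Z = D₀.sq Z 0) → ∃ lf G : V → D₀.R, FoD ℓ F α₀ W D₀.w q D lf G

/-! ## 4. Properties of the datum -/

/-- ALF (210): every lift.

Proof.  `q (z - lf u) = 0`, `lf u` is a unit of `As`?  Not needed: `z = lf u + X • y`, `y` commutes with `γ W`
(`X` is a nonzero divisor on `As`).  `z ^ ℓ = lf u ^ ℓ + X • ∑ i < ℓ, lf u ^ i * y * lf u ^ (ℓ - 1 - i)` modulo
`X ^ 2` (induction on the exponent).  `γ (u ^ ℓ)⁻¹ * z ^ ℓ = 1 + X • G'` with
`G' = G u + γ (u ^ ℓ)⁻¹ ∑ i, lf u ^ i y lf u ^ (ℓ - 1 - i)` modulo `X`, so `q G' = D u + ∑ i, u⁻¹ ^ (ℓ - i) (q y)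
u ^ (ℓ - 1 - i)`, with `s = α u⁻¹ * q y` and `j = ℓ - 1 - i`: `∑ j < ℓ, u⁻¹ ^ j * s * u ^ j`. -/
def AlfStmt : Prop :=
  ∀ (ℓ : ℕ) [Fact ℓ.Prime] (F V A As : Type) [Field F] [CommGroup V] [Ring A] [Algebra F A]
    [Ring As] [Algebra F⟦X⟧ As] [Module.Finite F⟦X⟧ As] [Module.Free F⟦X⟧ As] (α : V →* A)
    (W : Subgroup V) (γ : W →* As) (q : As →+* A) (D : V → A) (lf G : V → As),
    (∀ r : F⟦X⟧, q (algebraMap F⟦X⟧ As r) = algebraMap F A (PowerSeries.constantCoeff r)) →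
    (∀ x, q x = 0 → ∃ y, x = (PowerSeries.X : F⟦X⟧) • y) → (∀ w, q (γ w) = aw α W w) →
    FoD ℓ F α W γ q D lf G → ∀ (u : V) (h : u ^ ℓ ∈ W) (z : As), q z = α u →
    (∀ w, γ w * z = z * γ w) →
    ∃ (G' : As) (s : A), z ^ ℓ = γ ⟨u ^ ℓ, h⟩ * (1 + (PowerSeries.X : F⟦X⟧) • G') ∧
      (∀ w ∈ W, α w * s = s * α w) ∧
      q G' = D u + ∑ i ∈ Finset.range ℓ, α u⁻¹ ^ i * s * α u ^ i

/-- GCM (211): `G u` commutes with `lf u`, and `γ W`.

Proof.  `lf u` commutes with `lf u ^ ℓ` and with `γ (u ^ ℓ)`; `γ (u ^ ℓ)` is a unit, so `X • (lf u * G u - G u *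
lf u) = 0`, and `As` is free over `F⟦X⟧`.  `γ w` commutes with `lf u`, the same argument. -/
def GcmStmt : Prop :=
  ∀ (ℓ : ℕ) [Fact ℓ.Prime] (F V A As : Type) [Field F] [CommGroup V] [Ring A] [Algebra F A]
    [Ring As] [Algebra F⟦X⟧ As] [Module.Finite F⟦X⟧ As] [Module.Free F⟦X⟧ As] (α : V →* A)
    (W : Subgroup V) (γ : W →* As) (q : As → A) (D : V → A) (lf G : V → As),
    FoD ℓ F α W γ q D lf G → ∀ u : V, u ^ ℓ ∈ W →
    lf u * G u = G u * lf u ∧ ∀ w, γ w * G u = G u * γ w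

/-- PGP (212): properties of the direction `pg`.

Proof.  Additivity: `Eg.add`.  `pg (φ e u) (φ e v) = ∑ t l * χ l e * la l u * xx l (φ e v) = ∑ t l * la l u * xx l v`
(`xe`).  `∑ v, pg u v * la n v = ∑ l, t l * la l u * δ = t n * la n u`. -/
def PgpStmt : Prop :=
  ∀ (F V E : Type) [Field F] [CommGroup V] [Fintype V] [Group E] (φ : E →* MulAut V)
    (W Q : Subgroup V) (r : ℕ) (la : Fin r → V → F) (χ : Fin r → E → F) (xx : Fin r → V → F)
    (t : Fin r → F), Eg F φ W Q la χ xx t →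
    (∀ u u' v, pg la xx t (u * u') v = pg la xx t u v + pg la xx t u' v) ∧
    (∀ w ∈ W, ∀ v, pg la xx t w v = 0) ∧
    (∀ e u v, pg la xx t (φ e u) (φ e v) = pg la xx t u v) ∧
    (∀ u v, v ∉ Q → pg la xx t u v = 0) ∧ (∀ u, ∑ v, pg la xx t u v = 0) ∧
    ∀ u n, ∑ v, pg la xx t u v * la n v = t n * la n u

/-- ALT (213): a biadditive alternating form on `V / W` with values in a vector space which satisfies the
relation of the regular direction vanishes.

Proof.  `f (u, ·)` composed with linear functionals: for every linear functional `g : M → F` the map `v ↦ g (f u v)`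
is a combination of the `la l` (`spn`), in both variables: `f u v = ∑ l n, la l u * la n v • m l n` with
`m l n = ∑ u v, xx l u * xx n v • f u v` (apply `spn` twice; functionals separate the points of `M`, or prove
`f u v = ∑ l, la l u • (∑ u', xx l u' • f u' v)` by applying every functional).  `f u u = 0` for all `u` gives
`m l n = - m n l` and `m l l = 0`: polarise, `f u v = - f v u`, and the functions `la l * la n` .. (use
`∑ u v, xx l u xx n v f u v`).  The relation: `∑ v, pg u v • f u v = 0` for all `u`; polarise: `∑ v, pg u v • f u' v +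
∑ v, pg u' v • f u v = 0`; multiply by `xx l u * xx n u'` and sum over `u`, `u'`: `∑ u, xx l u * pg u v =
t l * xx l v`, so `t l • m n l + t n • m l n = 0`, i.e. `(t l - t n) • m n l = 0` (`m l n = - m n l`), so `m n l = 0` for
`l ≠ n`.  For `l = n`: `m l l = ∑ xx l u xx l v f u v = 0` because `f` is alternating: pair `(u, v)` with `(v, u)`,
the diagonal terms are `0`, `f u v + f v u = 0`. -/
def AltStmt : Prop :=
  ∀ (F V E M : Type) [Field F] [CommGroup V] [Fintype V] [Group E] [AddCommGroup M] [Module F M]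
    (φ : E →* MulAut V) (W Q : Subgroup V) (r : ℕ) (la : Fin r → V → F) (χ : Fin r → E → F)
    (xx : Fin r → V → F) (t : Fin r → F) (f : V → V → M), Eg F φ W Q la χ xx t →
    (∀ u u' v, f (u * u') v = f u v + f u' v) → (∀ u v v', f u (v * v') = f u v + f u v') →
    (∀ w ∈ W, ∀ v, f w v = 0 ∧ f v w = 0) → (∀ u, f u u = 0) →
    (∀ u, ∑ v, pg la xx t u v • f u v = 0) → ∀ u v, f u v = 0

end Pool.Agent.PST
end
end -- Pool.Agent.PST.StmtsDR

section -- Pool.Agent.Helper29_PSS.HCW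

/-! Squad PSS, block OB, row HCW: a trivialisation on `V` extends to a cochain on the order. -/

open scoped BigOperators TensorProduct

noncomputable section

namespace Pool.Agent.PSS.H29

open Pool.Agent.PSS
open Pool.Agent.PFD.D2b (FrR)
open Finset

section core

variable {K V B : Type} [Field K] [CommGroup V] [Ring B] [Algebra K B]
  {β : V →* B} {M : Subring B} {cc : B →ₗ[K] B →ₗ[K] B} {W : Subgroup V}

theorem bb (u v : V) : β u * β v = β (u * v) := (map_mul β u v).symm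

theorem v_comm (u v : V) : β u * β v = β v * β u := by
  rw [bb, bb, mul_comm]

/-- sums over the classes modulo `W` do not depend on the representatives -/
theorem sum_shift [Fintype (V ⧸ W)] {X : Type} [AddCommMonoid X] {F : V → X}
    (hF : ∀ w ∈ W, ∀ u, F (u * w) = F u) (v : V) :
    ∑ q : V ⧸ W, F (v * q.out) = ∑ q : V ⧸ W, F q.out := by
  have h1 : ∀ q : V ⧸ W, F (v * q.out) = F (((v : V ⧸ W) * q).out) := by
    intro q
    have h2 : ((v * q.out : V) : V ⧸ W) = ((((v : V ⧸ W) * q).out : V) : V ⧸ W) := by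
      rw [QuotientGroup.out_eq', QuotientGroup.mk_mul, QuotientGroup.out_eq']
    have h3 := QuotientGroup.eq.1 h2
    have h4 := hF _ h3 (v * q.out)
    rw [mul_inv_cancel_left] at h4
    exact h4.symm
  rw [Finset.sum_congr rfl fun q _ => h1 q]
  exact Equiv.sum_comp (Equiv.mulLeft (v : V ⧸ W)) fun q => F q.out

/-- HCW in the language of a subring -/
theorem hcw_core [Fintype (V ⧸ W)] (hM : ∀ v, β v ∈ M) (τ : B →ₗ[K] B)
    (τM : ∀ x ∈ M, τ x ∈ M) (τW : WBl β W τ)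
    (τs : ∀ x, ∑ q : V ⧸ W, β q.out * τ (β (q.out)⁻¹ * x) = x)
    (hW : WB2 β W fun a b => cc a b) (hN : Nrm fun a b => cc a b)
    (hc : ∀ x ∈ M, ∀ y ∈ M, ∀ t ∈ M, dl (fun a b => cc a b) x y t ∈ M) (γ : V → B)
    (hγ : ∀ w ∈ W, ∀ v, γ (v * w) = γ v * β w ∧ γ v * β w = β w * γ v)
    (hγ2 : ∀ u v, β u * γ v + γ u * β v + cc (β u) (β v) - γ (u * v) ∈ M) :
    ∃ g : B →ₗ[K] B, WBl β W g ∧ g 1 = 0 ∧ ∀ v, ∀ x ∈ M, cc (β v) x + d1 g (β v) x ∈ M := by
  obtain ⟨T, hT⟩ : ∃ T : V → B → B, ∀ u x, T u x = γ u * τ (β u⁻¹ * x) +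
      cc (β u) (τ (β u⁻¹ * x)) := ⟨_, fun _ _ => rfl⟩
  have hTW : ∀ x, ∀ w ∈ W, ∀ u, T (u * w) x = T u x := by
    intro x w hw u
    rw [hT, hT]
    have h1 : τ (β (u * w)⁻¹ * x) = β w⁻¹ * τ (β u⁻¹ * x) := by
      rw [mul_inv, mul_comm u⁻¹, map_mul β, mul_assoc, (τW w⁻¹ (W.inv_mem hw) _).1]
    have h2 : cc (β (u * w)) (β w⁻¹ * τ (β u⁻¹ * x)) = cc (β u) (τ (β u⁻¹ * x)) := by
      rw [map_mul β]
      have h3 : cc (β u * β w) (β w⁻¹ * τ (β u⁻¹ * x)) =
        cc (β u) (β w * (β w⁻¹ * τ (β u⁻¹ * x))) := (hW w hw _ _).2.1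
      rw [h3, ← mul_assoc, bb, mul_inv_cancel, map_one, one_mul]
    rw [h1, h2, (hγ w hw u).1, mul_assoc, ← mul_assoc (β w), bb, mul_inv_cancel, map_one,
      one_mul]
  let g₁ : B →ₗ[K] B := ∑ q : V ⧸ W,
    ((LinearMap.mulLeft K (γ q.out)).comp (τ.comp (LinearMap.mulLeft K (β (q.out)⁻¹))) +
      (cc (β q.out)).comp (τ.comp (LinearMap.mulLeft K (β (q.out)⁻¹))))
  have hg : ∀ x, g₁ x = ∑ q : V ⧸ W, T q.out x := by
    intro x
    simp only [g₁, LinearMap.sum_apply, LinearMap.add_apply, LinearMap.comp_apply,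
      LinearMap.mulLeft_apply, hT]
  -- linearity over W
  have hgW : WBl β W g₁ := by
    intro w hw x
    constructor
    · rw [hg, hg, Finset.mul_sum]
      refine Finset.sum_congr rfl fun q _ => ?_
      rw [hT, hT]
      have h1 : τ (β (q.out)⁻¹ * (β w * x)) = β w * τ (β (q.out)⁻¹ * x) := by
        rw [← mul_assoc, v_comm, mul_assoc, (τW w hw _).1]
      rw [h1, ← mul_assoc (γ q.out), (hγ w hw q.out).2]
      have h2 : cc (β q.out) (β w * τ (β (q.out)⁻¹ * x)) =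
          β w * cc (β q.out) (τ (β (q.out)⁻¹ * x)) := by
        have a1 : cc (β q.out * β w) (τ (β (q.out)⁻¹ * x)) =
            cc (β q.out) (β w * τ (β (q.out)⁻¹ * x)) := (hW w hw _ _).2.1
        have a2 : cc (β w * β q.out) (τ (β (q.out)⁻¹ * x)) =
            β w * cc (β q.out) (τ (β (q.out)⁻¹ * x)) := (hW w hw _ _).1
        rw [← a1, v_comm, a2]
      rw [h2, mul_add, mul_assoc]
    · rw [hg, hg, Finset.sum_mul]
      refine Finset.sum_congr rfl fun q _ => ?_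
      rw [hT, hT]
      have h1 : τ (β (q.out)⁻¹ * (x * β w)) = τ (β (q.out)⁻¹ * x) * β w := by
        rw [← mul_assoc, (τW w hw _).2]
      rw [h1]
      have h2 : cc (β q.out) (τ (β (q.out)⁻¹ * x) * β w) =
          cc (β q.out) (τ (β (q.out)⁻¹ * x)) * β w := (hW w hw _ _).2.2
      rw [h2, add_mul, mul_assoc]
  -- the action of V
  have hkey : ∀ (u : V), ∀ x ∈ M, g₁ (β u * x) -
      (β u * g₁ x + γ u * x + cc (β u) x) ∈ M := by
    intro u x hx
    obtain ⟨t, ht⟩ : ∃ t : V → B, t = fun v => τ (β v⁻¹ * x) := ⟨_, rfl⟩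
    have htM : ∀ v, t v ∈ M := fun v => by
      rw [ht]
      exact τM _ (M.mul_mem (hM _) hx)
    have hts : ∑ q : V ⧸ W, β q.out * t q.out = x := by
      rw [ht]
      exact τs x
    have h1 : g₁ (β u * x) = ∑ q : V ⧸ W, (γ (u * q.out) * t q.out +
        cc (β (u * q.out)) (t q.out)) := by
      rw [hg, ← sum_shift (F := fun v => T v (β u * x))
        (fun w hw v => hTW (β u * x) w hw v) u]
      refine Finset.sum_congr rfl fun q _ => ?_
      have h2 : β (u * q.out)⁻¹ * (β u * x) = β (q.out)⁻¹ * x := by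
        rw [← mul_assoc, bb, mul_inv, mul_comm u⁻¹, inv_mul_cancel_right]
      rw [hT, h2, ht]
    have hstep : ∀ v, γ (u * v) * t v + cc (β (u * v)) (t v) - (β u * (γ v * t v +
        cc (β v) (t v)) + γ u * (β v * t v) + cc (β u) (β v * t v)) ∈ M := by
      intro v
      have h2 := M.mul_mem (hγ2 u v) (htM v)
      have h3 := hc _ (hM u) _ (hM v) _ (htM v)
      have h4 := M.neg_mem (M.add_mem h2 h3)
      have h5 : γ (u * v) * t v + cc (β (u * v)) (t v) - (β u * (γ v * t v +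
          cc (β v) (t v)) + γ u * (β v * t v) + cc (β u) (β v * t v)) =
          -((β u * γ v + γ u * β v + cc (β u) (β v) - γ (u * v)) * t v +
            dl (fun a b => cc a b) (β u) (β v) (t v)) := by
        unfold dl
        rw [map_mul]
        noncomm_ring
      rw [h5]
      exact h4
    have h6 := M.sum_mem fun (q : V ⧸ W) (_ : q ∈ Finset.univ) => hstep q.out
    have e2 : ∑ q : V ⧸ W, (β u * (γ q.out * t q.out + cc (β q.out) (t q.out)) +
        γ u * (β q.out * t q.out) + cc (β u) (β q.out * t q.out)) =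
        β u * g₁ x + γ u * x + cc (β u) x := by
      rw [Finset.sum_add_distrib, Finset.sum_add_distrib, ← Finset.mul_sum, ← Finset.mul_sum,
        ← map_sum, hts, hg, ht]
      simp only [hT]
    rw [Finset.sum_sub_distrib, e2, ← h1] at h6
    exact h6
  -- normalisation
  obtain ⟨e', he'⟩ : ∃ e', e' = g₁ 1 := ⟨_, rfl⟩
  have hec' : ∀ w ∈ W, β w * e' = e' * β w := by
    intro w hw
    rw [he', ← (hgW w hw 1).1, ← (hgW w hw 1).2, mul_one, one_mul]
  obtain ⟨g, hgd⟩ : ∃ g : B →ₗ[K] B, g = g₁ - LinearMap.mulLeft K e' := ⟨_, rfl⟩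
  have hgx : ∀ x, g x = g₁ x - e' * x := by
    intro x
    rw [hgd]
    rfl
  have hWg : WBl β W g := by
    intro w hw x
    constructor
    · rw [hgx, hgx, (hgW w hw x).1, ← mul_assoc e', ← hec' w hw, mul_sub, mul_assoc]
    · rw [hgx, hgx, (hgW w hw x).2, sub_mul, mul_assoc]
  refine ⟨g, hWg, by rw [hgx, ← he', mul_one, sub_self], ?_⟩
  intro v x hx
  have h1 := hkey v x hx
  have h2 := hkey v 1 M.one_mem
  have h3 : cc (β v) 1 = 0 := hN.2 _
  rw [mul_one, mul_one, ← he', h3, add_zero] at h2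
  have h4 := M.sub_mem (M.mul_mem h2 hx) h1
  have h5 : cc (β v) x + d1 g (β v) x =
      (g₁ (β v) - (β v * e' + γ v)) * x - (g₁ (β v * x) -
        (β v * g₁ x + γ v * x + cc (β v) x)) := by
    unfold d1
    rw [hgx, hgx, hgx]
    noncomm_ring
  rw [h5]
  exact h4

end core

/-- HCW. -/
theorem hcw (ht : TawStmt) : HcwStmt := by
  classical
  intro R K V E A B κ Ω _ _ _ _ _ _ _ _ _ _ _ _ _ _ _ φ W α lam x y b c C cc γ hV hS hZ hγ hγ2
  have : Finite (V ⧸ W) := inferInstance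
  let iF : Fintype (V ⧸ W) := Fintype.ofFinite _
  obtain ⟨τ, h1, h2, h3⟩ := ht R K V E A B κ Ω φ W α lam x y b c C hV hS
  have hmem : ∀ s, s ∈ C.i.range.toSubring ↔ In C.i s := fun s => by
    constructor
    · rintro ⟨a, ha⟩
      exact ⟨a, ha⟩
    · rintro ⟨a, ha⟩
      exact ⟨a, ha⟩
  obtain ⟨g, g1, g2, g3⟩ := hcw_core (β := ia C.i α) (M := C.i.range.toSubring) (cc := cc)
    (W := W) (fun v => ⟨α v, rfl⟩) τ
    (by
      rintro _ ⟨a, rfl⟩
      exact (hmem _).2 (h1 a)) h2 h3 hZ.rel hZ.nrm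
    (by
      rintro _ ⟨a₁, rfl⟩ _ ⟨a₂, rfl⟩ _ ⟨a₃, rfl⟩
      exact (hmem _).2 (hZ.cyc a₁ a₂ a₃)) γ hγ (fun u v => (hmem _).2 (hγ2 u v))
  exact ⟨g, g1, g2, fun v a => (hmem _).1 (g3 v _ ⟨a, rfl⟩)⟩

end Pool.Agent.PSS.H29
end
end -- Pool.Agent.Helper29_PSS.HCW

section -- Pool.Agent.Helper29_PSS.STX

/-! Squad PSS, block OB, row STX: one step of the deformation with target. -/

open scoped BigOperators TensorProduct

noncomputable section

namespace Pool.Agent.PSS.H29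

open Pool.Agent.PSS
open Pool.Agent.PFD.D2 (Cdv FibG)
open Pool.Agent.PFD.D2b (FrR)
open Finset

theorem stx (TRX : TrxStmt) (TRC : TrcStmt) (H2W : H2wStmt) : StxStmt := by
  intro R K F V E A A₀ B κ Ω _ _ _ _ _ _ _ _ _ _ _ _ _ _ _ _ _ _ _ _ _ φ W α lam x y b c C u
    cv f α₀ D₀ hV hS hu hα P m N μ cc hT hI hμ hcc hZ hF
  -- the scalar
  set p : K := algebraMap R K cv.π with hp
  have hps : ∀ a : A, p • C.i a = C.i (cv.π • a) := by
    intro a
    rw [hp, C.tow, map_smul]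
  have hκ : cv.κ cv.π = 0 := (cv.ker _).2 ⟨1, (mul_one _).symm⟩
  have hqs : ∀ a : A, f.q (cv.π • a) = 0 := by
    intro a
    rw [Algebra.smul_def, map_mul, f.sc, hκ, map_zero, zero_mul]
  obtain ⟨H, hH1, hH2, hH3⟩ := H2W R K V E A B κ Ω φ W α lam x y b c C u hV hS hu cc hZ hF
  let P' : ℕ → (B →ₗ[K] B) := fun n => if n = N + 1 then P (N + 1) - p • H else P n
  have hP' : ∀ n ≤ N, P' n = P n := by
    intro n hn
    simp only [P']
    rw [if_neg (by omega)]
  have hPN : P' (N + 1) = P (N + 1) - p • H := by simp only [P', if_true]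
  have hP0 : P' 0 = LinearMap.id := by rw [hP' 0 (Nat.zero_le _), hT.p0]
  have hPw : ∀ n, WBl (ia C.i α) W (P' n) := by
    intro n
    by_cases hn : n = N + 1
    · rw [hn, hPN]
      intro w hw a
      rw [LinearMap.sub_apply, LinearMap.sub_apply, LinearMap.sub_apply, LinearMap.smul_apply,
        LinearMap.smul_apply, LinearMap.smul_apply,
        (hT.pw (N + 1) w hw a).1, (hT.pw (N + 1) w hw a).2, (hH1 w hw a).1, (hH1 w hw a).2,
        mul_sub, sub_mul, mul_smul_comm, smul_mul_assoc]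
      exact ⟨rfl, rfl⟩
    · have : P' n = P n := by simp only [P']; rw [if_neg hn]
      rw [this]
      exact hT.pw n
  have hP1 : ∀ n, P' (n + 1) 1 = 0 := by
    intro n
    by_cases hn : n + 1 = N + 1
    · rw [hn, hPN, LinearMap.sub_apply, LinearMap.smul_apply, hT.p1, hH2, smul_zero, sub_zero]
    · have : P' (n + 1) = P (n + 1) := by simp only [P']; rw [if_neg hn]
      rw [this]
      exact hT.p1 n
  obtain ⟨m', hm'⟩ := TRX K V B (ia C.i α) W P' hP0 hPw hP1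
  obtain ⟨hc1, hc2⟩ := TRC K V B (ia C.i α) W P P' m m' N hT hm' hP'
  refine ⟨P', m', hm', hP', fun n hn a₁ a₂ => ?_⟩
  by_cases hnN : n ≤ N
  · rw [hc1 n hnN]
    exact hI n hnN a₁ a₂
  · have hn' : n = N + 1 := by omega
    rw [hn', hc2]
    obtain ⟨e, he⟩ := hH3 a₁ a₂
    obtain ⟨e1, he1, hq1⟩ := hμ a₁ a₂
    refine ⟨e1 + cv.π • e, ?_, ?_⟩
    · rw [map_add, ← hps, he, smul_sub, hcc, he1]
      simp only [d1, hPN, LinearMap.sub_apply, LinearMap.smul_apply, smul_add, smul_sub,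
        mul_sub, sub_mul, mul_smul_comm, smul_mul_assoc]
      abel
    · rw [map_add, hqs, add_zero, hq1]

end Pool.Agent.PSS.H29
end
end -- Pool.Agent.Helper29_PSS.STX

section -- Pool.Agent.Helper2_PSS.FZ0

/-! Squad PSS, row FZ0: the first step (helper2). -/

open scoped BigOperators TensorProduct

noncomputable section

namespace Pool.Agent.PSS.H2

open Pool.Agent.PFD.D2 (Cdv FibG)
open Pool.Agent.PFD.D2b (FrR)
open Finset

theorem m1_d1 {K V B : Type} [Field K] [CommGroup V] [Ring B] [Algebra K B] {β : V →* B}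
    {W : Subgroup V} {P : ℕ → (B →ₗ[K] B)} {m : ℕ → (B →ₗ[K] B →ₗ[K] B)}
    (ht : Trv β W P m) (x y : B) :
    m 1 x y = x * P 1 y + P 1 x * y - P 1 (x * y) := by
  have h0 : m 0 x y = x * y := by
    have h := ht.pm 0 x y
    rw [Finset.Nat.antidiagonal_zero, Finset.sum_singleton, Finset.sum_singleton, ht.p0] at h
    simpa using h.symm
  have h := ht.pm (0 + 1) x y
  rw [Finset.Nat.sum_antidiagonal_succ, Finset.Nat.sum_antidiagonal_succ,
    Finset.Nat.antidiagonal_zero, Finset.sum_singleton, Finset.sum_singleton] at h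
  simp only [ht.p0, LinearMap.id_apply, zero_add, h0] at h
  rw [← sub_eq_iff_eq_add] at h
  rw [← h]

theorem fz0 : Fz0Stmt := by
  intro R K F V A A₀ B κ Ω _ _ _ _ _ _ _ _ _ _ _ _ _ _ _ _ _ _ W α lam x y b c C cv f α₀ c₀
    D₀ hα hc hD P m μ cc ht hμ hcc ω u v hu hv
  have hcK : ∀ (g : V), ((g, g) : V × V) • ω = ω → ∀ s : B,
      C.cK ω (C.i (α g) * s * C.i (α g⁻¹)) = C.cK ω s := by
    intro g hg s
    have h := C.frK.2.1 (g, g) ω s
    rw [hg] at h
    rw [← h]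
    congr 1
    show _ = C.i (α g) * (s * C.i (α g⁻¹))
    rw [mul_assoc]
  have hinv : ∀ g : V, C.i (α g) * C.i (α g⁻¹) = 1 := by
    intro g
    rw [← map_mul, ← map_mul, mul_inv_cancel, map_one, map_one]
  have hw : C.i (α (u * v)⁻¹) = C.i (α v⁻¹) * C.i (α u⁻¹) := by
    rw [← map_mul, ← map_mul, mul_inv_rev]
  have hw' : C.i (α (u * v)⁻¹) = C.i (α u⁻¹) * C.i (α v⁻¹) := by
    rw [← map_mul, ← map_mul, mul_inv]
  have huv : C.i (α u) * C.i (α v) = C.i (α v) * C.i (α u) := by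
    rw [← map_mul, ← map_mul, ← map_mul, ← map_mul, mul_comm]
  -- the term of `m 1`
  have h1 : C.cK ω ((m 1 (C.i (α u)) (C.i (α v)) - m 1 (C.i (α v)) (C.i (α u))) *
      C.i (α (u * v)⁻¹)) = 0 := by
    rw [m1_d1 ht, m1_d1 ht, ← huv]
    have e : ((C.i (α u) * P 1 (C.i (α v)) + P 1 (C.i (α u)) * C.i (α v) -
        P 1 (C.i (α u) * C.i (α v))) - (C.i (α v) * P 1 (C.i (α u)) +
        P 1 (C.i (α v)) * C.i (α u) - P 1 (C.i (α u) * C.i (α v)))) * C.i (α (u * v)⁻¹) =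
        (C.i (α u) * (P 1 (C.i (α v)) * C.i (α v⁻¹)) * C.i (α u⁻¹)
          - P 1 (C.i (α v)) * C.i (α v⁻¹)) -
        (C.i (α v) * (P 1 (C.i (α u)) * C.i (α u⁻¹)) * C.i (α v⁻¹)
          - P 1 (C.i (α u)) * C.i (α u⁻¹)) := by
      have e1 : C.i (α u) * P 1 (C.i (α v)) * C.i (α (u * v)⁻¹) =
          C.i (α u) * (P 1 (C.i (α v)) * C.i (α v⁻¹)) * C.i (α u⁻¹) := by
        rw [hw]
        simp only [mul_assoc]
      have e2 : C.i (α v) * P 1 (C.i (α u)) * C.i (α (u * v)⁻¹) =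
          C.i (α v) * (P 1 (C.i (α u)) * C.i (α u⁻¹)) * C.i (α v⁻¹) := by
        rw [hw']
        simp only [mul_assoc]
      have e3 : P 1 (C.i (α u)) * C.i (α v) * C.i (α (u * v)⁻¹) =
          P 1 (C.i (α u)) * C.i (α u⁻¹) := by
        rw [hw, mul_assoc, ← mul_assoc (C.i (α v)), hinv, one_mul]
      have e4 : P 1 (C.i (α v)) * C.i (α u) * C.i (α (u * v)⁻¹) =
          P 1 (C.i (α v)) * C.i (α v⁻¹) := by
        rw [hw', mul_assoc, ← mul_assoc (C.i (α u)), hinv, one_mul]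
      simp only [sub_mul, add_mul]
      rw [e1, e2, e3, e4]
      abel
    rw [e, map_sub, map_sub, map_sub, hcK u hu, hcK v hv, sub_self, sub_self, sub_zero]
  -- the term of `μ`
  obtain ⟨e₁, he₁, hq₁⟩ := hμ (α u) (α v)
  obtain ⟨e₂, he₂, hq₂⟩ := hμ (α v) (α u)
  have h2 : C.cK ω ((μ (C.i (α u)) (C.i (α v)) - μ (C.i (α v)) (C.i (α u))) *
      C.i (α (u * v)⁻¹)) = algebraMap R K (c ω ((e₁ - e₂) * α (u * v)⁻¹)) := by
    rw [← he₁, ← he₂, ← map_sub, ← map_mul, C.ck]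
  have h3 : cv.κ (c ω ((e₁ - e₂) * α (u * v)⁻¹)) = 0 := by
    rw [hc, map_mul, map_sub, hq₁, hq₂, hα, hα, hα]
    exact hD ω u v hu hv
  obtain ⟨s, hs⟩ := (cv.ker _).1 h3
  have hπ : algebraMap R K cv.π ≠ 0 := by
    intro h
    have : cv.π = 0 := C.rinj (by rw [h, map_zero])
    have h' := cv.reg 1 (by rw [this, zero_mul])
    exact one_ne_zero h'
  refine ⟨-s, ?_⟩
  have h4 : algebraMap R K cv.π * C.cK ω ((cc (C.i (α u)) (C.i (α v)) -
      cc (C.i (α v)) (C.i (α u))) * C.i (α (u * v)⁻¹)) =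
      algebraMap R K cv.π * algebraMap R K (-s) := by
    rw [← smul_eq_mul, ← map_smul, ← smul_mul_assoc, smul_sub, hcc, hcc]
    have e : (m 1 (C.i (α u)) (C.i (α v)) - μ (C.i (α u)) (C.i (α v)) -
        (m 1 (C.i (α v)) (C.i (α u)) - μ (C.i (α v)) (C.i (α u)))) * C.i (α (u * v)⁻¹) =
        (m 1 (C.i (α u)) (C.i (α v)) - m 1 (C.i (α v)) (C.i (α u))) * C.i (α (u * v)⁻¹) -
        (μ (C.i (α u)) (C.i (α v)) - μ (C.i (α v)) (C.i (α u))) * C.i (α (u * v)⁻¹) := by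
      rw [← sub_mul]
      congr 1
      abel
    rw [e, map_sub, h1, h2, hs, zero_sub, map_mul, map_neg, mul_neg]
  exact mul_left_cancel₀ hπ h4

end Pool.Agent.PSS.H2
end
end -- Pool.Agent.Helper2_PSS.FZ0

section -- Pool.Agent.Helper33_PSS.H2V

/-!
Squad PSS, row H2V (helper33): `H^2(A|W; B/A) = 0`, assembly.
-/

open scoped BigOperators TensorProduct

noncomputable section

namespace Pool.Agent.PSS.H33

open Pool.Agent.PFD.D2b (FrR)
open Finset

section

variable {R A B : Type} [CommRing R] [Ring A] [Algebra R A] [Ring B] [Algebra R B]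

lemma in_add {i : A →ₐ[R] B} {x y : B} (hx : In i x) (hy : In i y) : In i (x + y) := by
  obtain ⟨a, rfl⟩ := hx
  obtain ⟨b, rfl⟩ := hy
  exact ⟨a + b, map_add i a b⟩

lemma in_sub {i : A →ₐ[R] B} {x y : B} (hx : In i x) (hy : In i y) : In i (x - y) := by
  obtain ⟨a, rfl⟩ := hx
  obtain ⟨b, rfl⟩ := hy
  exact ⟨a - b, map_sub i a b⟩

lemma in_ml {i : A →ₐ[R] B} {x : B} (c : A) (hx : In i x) : In i (i c * x) := by
  obtain ⟨a, rfl⟩ := hx
  exact ⟨c * a, map_mul i c a⟩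

lemma in_mr {i : A →ₐ[R] B} {x : B} (c : A) (hx : In i x) : In i (x * i c) := by
  obtain ⟨a, rfl⟩ := hx
  exact ⟨a * c, map_mul i a c⟩

end

section

variable {K V B : Type} [Field K] [CommGroup V] [Ring B] [Algebra K B]

/-- `cc + d1 g` as a bilinear map -/
def cg (cc : B →ₗ[K] B →ₗ[K] B) (g : B →ₗ[K] B) : B →ₗ[K] B →ₗ[K] B :=
  LinearMap.mk₂ K (fun x y => cc x y + d1 g x y)
    (fun x x' y => by
      simp only [d1, map_add, LinearMap.add_apply, add_mul]
      abel)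
    (fun r x y => by
      simp only [d1, map_smul, LinearMap.smul_apply, smul_mul_assoc, smul_add, smul_sub])
    (fun x y y' => by
      simp only [d1, map_add, mul_add]
      abel)
    (fun r x y => by
      simp only [d1, map_smul, mul_smul_comm, smul_add, smul_sub])

lemma cg_apply (cc : B →ₗ[K] B →ₗ[K] B) (g : B →ₗ[K] B) (x y : B) :
    cg cc g x y = cc x y + d1 g x y := rfl

lemma cg_wb {cc : B →ₗ[K] B →ₗ[K] B} {g : B →ₗ[K] B} {β : V →* B} {W : Subgroup V}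
    (hc : WB2 β W (fun a b => cc a b)) (hg : WBl β W g) : WB2 β W (fun a b => cg cc g a b) := by
  intro w hw x y
  obtain ⟨h1, h2, h3⟩ := hc w hw x y
  beta_reduce at h1 h2 h3
  simp only [cg_apply, d1]
  refine ⟨?_, ?_, ?_⟩
  · rw [h1, mul_assoc (β w) x y, (hg w hw (x * y)).1, (hg w hw x).1]
    simp only [mul_add, mul_sub, mul_assoc]
  · rw [h2, (hg w hw y).1, (hg w hw x).2]
    simp only [mul_assoc]
  · rw [h3, (hg w hw y).2, ← mul_assoc x y, (hg w hw (x * y)).2]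
    simp only [add_mul, sub_mul, mul_assoc]

lemma cg_nrm {cc : B →ₗ[K] B →ₗ[K] B} {g : B →ₗ[K] B}
    (hc : Nrm (fun a b => cc a b)) (hg : g 1 = 0) : Nrm (fun a b => cg cc g a b) := by
  obtain ⟨h1, h2⟩ := hc
  refine ⟨fun x => ?_, fun x => ?_⟩
  · have h := h1 x
    simp only at h
    simp only [cg_apply, d1]
    rw [h, hg, one_mul, one_mul, zero_mul, sub_self, add_zero, add_zero]
  · have h := h2 x
    simp only at h
    simp only [cg_apply, d1]
    rw [h, hg, mul_one, mul_one, mul_zero, zero_sub, neg_add_cancel, add_zero]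

lemma cg_dl (cc : B →ₗ[K] B →ₗ[K] B) (g : B →ₗ[K] B) (x y z : B) :
    dl (fun a b => cg cc g a b) x y z = dl (fun a b => cc a b) x y z := by
  simp only [cg_apply, dl, d1, mul_add, add_mul, mul_sub, sub_mul, mul_assoc]
  abel

end

theorem h2v (csu : CsuStmt) (hcb : HcbStmt) (hcc : HccStmt) (lfg : LfgStmt) : H2vStmt := by
  intro R K V E A B κ Ω _ _ _ _ _ _ _ _ _ _ _ _ _ _ _ φ W z α lam x y b c C u hV hS hu cc hw hn hc
  obtain ⟨-, hcsm⟩ := csu R V A κ α lam x y u C.rf hu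
  obtain ⟨g₁, hg1w, hg1, hb⟩ := hcb R K V E A B κ Ω φ W z α lam x y b c C hV hS cc hw hn hc
  obtain ⟨g₂, hg2w, hg2, hg2c⟩ := hcc R K V A B κ Ω W α lam x y b c C κ x (fun i => y i * u) hcsm
    (cg cc g₁) (cg_wb hw hg1w) (cg_nrm hn hg1) (fun a₁ a₂ a₃ => by
      rw [cg_dl]
      exact hc a₁ a₂ a₃) (fun v a => hb v a)
  obtain ⟨H, hHw, hH1, hH⟩ := lfg R K V A B κ Ω W α lam x y b c C g₂ hg2w hg2
  refine ⟨H - g₁, fun w hw' t => ⟨?_, ?_⟩, ?_, fun a₁ a₂ => ?_⟩
  · rw [LinearMap.sub_apply, LinearMap.sub_apply, (hHw w hw' t).1, (hg1w w hw' t).1, mul_sub]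
  · rw [LinearMap.sub_apply, LinearMap.sub_apply, (hHw w hw' t).2, (hg1w w hw' t).2, sub_mul]
  · rw [LinearMap.sub_apply, hH1, hg1, sub_zero]
  · have h1 := hg2c a₁ a₂
    have h2 := in_ml a₁ (hH a₂)
    have h3 := hH (a₁ * a₂)
    have h4 := in_mr a₂ (hH a₁)
    have h5 := in_sub h1 (in_add (in_sub h2 h3) h4)
    rw [cg_apply] at h5
    refine (congrArg (In C.i) ?_).mp h5
    simp only [d1, LinearMap.sub_apply, map_mul, mul_sub, sub_mul]
    abel

end Pool.Agent.PSS.H33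
end
end -- Pool.Agent.Helper33_PSS.H2V

section -- Pool.Agent.Helper41_PSS.GAM

/-! Squad PST, block OB, row GAM: if the forms vanish the cocycle is a coboundary on `V`. -/

open scoped BigOperators TensorProduct

noncomputable section

namespace Pool.Agent.PSS.H41

open Pool.Agent.PFD.D2b (FrR)
open Finset

/-- XCW for the diagonal action -/
theorem gam_x (xcw : XcwStmt) (V Ω D : Type) [CommGroup V] [MulAction (V × V) Ω] [AddCommGroup D]
    (W : Subgroup V) (f : V → V → Ω → D) (hdiv : ∀ n : ℕ, n ≠ 0 → ∀ d : D, ∃ d', n • d' = d)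
    (hW : ∀ w ∈ W, ∀ u v ω, f (u * w) v ω = f u v ω ∧ f u (v * w) ω = f u v ω ∧
      f u v (((w, w) : V × V) • ω) = f u v ω)
    (hs : ∀ ω u v, ((u, u) : V × V) • ω = ω → ((v, v) : V × V) • ω = ω → f u v ω = f v u ω)
    (hc : ∀ u v w ω, f v w (((u⁻¹, u⁻¹) : V × V) • ω) - f (u * v) w ω + f u (v * w) ω -
      f u v ω = 0) :
    ∃ g : V → Ω → D, (∀ w ∈ W, ∀ u ω, g (u * w) ω = g u ω ∧
        g u (((w, w) : V × V) • ω) = g u ω) ∧
      ∀ u v ω, f u v ω = g v (((u⁻¹, u⁻¹) : V × V) • ω) - g (u * v) ω + g u ω := by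
  let _ : MulAction V Ω := MulAction.compHom Ω ((MonoidHom.id V).prod (MonoidHom.id V))
  exact xcw V Ω D W f hdiv hW hs hc

theorem gam_core (xcw : XcwStmt) {K V B Ω : Type} [Field K] [CharZero K] [CommGroup V] [Ring B]
    [Algebra K B] [Fintype Ω] [MulAction (V × V) Ω] (W : Subgroup V) (β : V →* B) (bB : Ω → B)
    (cK : Ω → (B →ₗ[K] K)) (hfr : FrR (bw K β) bB cK) (S : AddSubgroup K) (I : AddSubgroup B)
    (hI1 : ∀ x ∈ I, ∀ v, x * β v ∈ I) (hI2 : ∀ ω, ∀ x ∈ I, cK ω x ∈ S)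
    (hI3 : ∀ s ∈ S, ∀ ω, s • bB ω ∈ I) (cc : B →ₗ[K] B →ₗ[K] B)
    (hrel : WB2 β W (fun a b => cc a b))
    (hcyc : ∀ u v w, dl (fun a b => cc a b) (β u) (β v) (β w) ∈ I)
    (hF : ∀ (ω : Ω) (u v : V), ((u, u) : V × V) • ω = ω → ((v, v) : V × V) • ω = ω →
      cK ω ((cc (β u) (β v) - cc (β v) (β u)) * β (u * v)⁻¹) ∈ S) :
    ∃ γ : V → B, (∀ w ∈ W, ∀ v, γ (v * w) = γ v * β w ∧ γ v * β w = β w * γ v) ∧
      ∀ u v, β u * γ v + γ u * β v + cc (β u) (β v) - γ (u * v) ∈ I := by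
  obtain ⟨hf1, hf2, hf3⟩ := hfr
  have hbw : ∀ (u : V) (x : B), bw K β (u, u) x = β u * x * β u⁻¹ := by
    intro u x
    simp only [bw, MonoidHom.coe_mk, OneHom.coe_mk, LinearMap.comp_apply,
      LinearMap.mulRight_apply, LinearMap.mulLeft_apply, mul_assoc]
  have hinv : ∀ u : V, β u * β u⁻¹ = 1 := fun u => by rw [← map_mul, mul_inv_cancel, map_one]
  have hinv' : ∀ u : V, β u⁻¹ * β u = 1 := fun u => by rw [← map_mul, inv_mul_cancel, map_one]
  have hcomm : ∀ u v : V, β u * β v = β v * β u := fun u v => by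
    rw [← map_mul, mul_comm, map_mul]
  have hact : ∀ (u : V) (ω : Ω), ((u, u) : V × V) • ((u⁻¹, u⁻¹) : V × V) • ω = ω := by
    intro u ω
    rw [smul_smul]
    have : ((u, u) : V × V) * (u⁻¹, u⁻¹) = 1 := by
      rw [Prod.mk_mul_mk, mul_inv_cancel]
      rfl
    rw [this, one_smul]
  -- the values of the coordinates at the translates
  have hcK : ∀ (u : V) (ω : Ω) (n : B), cK (((u⁻¹, u⁻¹) : V × V) • ω) n =
      cK ω (β u * n * β u⁻¹) := by
    intro u ω n
    rw [← hbw, ← hf2 (u, u) (((u⁻¹, u⁻¹) : V × V) • ω) n, hact]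
  -- the cochain
  let k : V → V → B := fun u v => cc (β u) (β v) * β (u * v)⁻¹
  have hk : ∀ u v, k u v = cc (β u) (β v) * β (u * v)⁻¹ := fun u v => rfl
  have hw1 : ∀ w ∈ W, ∀ u v, cc (β (u * w)) (β v) = cc (β u) (β v) * β w := by
    intro w hw u v
    obtain ⟨-, h2, -⟩ := hrel w hw (β u) (β v)
    obtain ⟨-, -, h3⟩ := hrel w hw (β u) (β v)
    simp only at h2 h3
    rw [map_mul, h2, hcomm w v, h3]
  have hw2 : ∀ w ∈ W, ∀ u v, cc (β u) (β (v * w)) = cc (β u) (β v) * β w := by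
    intro w hw u v
    obtain ⟨-, -, h3⟩ := hrel w hw (β u) (β v)
    simp only at h3
    rw [map_mul, h3]
  have hw3 : ∀ w ∈ W, ∀ u v, β w * cc (β u) (β v) = cc (β u) (β v) * β w := by
    intro w hw u v
    obtain ⟨h1, -, -⟩ := hrel w hw (β u) (β v)
    simp only at h1
    rw [← h1, hcomm w u, ← map_mul, hw1 w hw]
  have hk1 : ∀ w ∈ W, ∀ u v, k (u * w) v = k u v := by
    intro w hw u v
    rw [hk, hk, hw1 w hw, mul_assoc, ← map_mul, mul_right_comm u w v, mul_inv (u * v) w,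
      mul_comm w, mul_assoc, inv_mul_cancel, mul_one]
  have hk2 : ∀ w ∈ W, ∀ u v, k u (v * w) = k u v := by
    intro w hw u v
    rw [hk, hk, hw2 w hw, mul_assoc, ← map_mul]
    congr 2
    group
  have hk3 : ∀ w ∈ W, ∀ u v, β w * k u v * β w⁻¹ = k u v := by
    intro w hw u v
    rw [hk, ← mul_assoc, hw3 w hw, mul_assoc (cc (β u) (β v)), hcomm w, ← mul_assoc, mul_assoc,
      hinv, mul_one]
  have hk4 : ∀ u v w, β u * k v w * β u⁻¹ - k (u * v) w + k u (v * w) - k u v ∈ I := by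
    intro u v w
    have h := hI1 _ (hcyc u v w) (u * v * w)⁻¹
    refine (congrArg (· ∈ I) ?_).mp h
    simp only [dl, hk, sub_mul, add_mul, ← map_mul]
    have e1 : β u * cc (β v) (β w) * β (u * v * w)⁻¹ =
        β u * (cc (β v) (β w) * β (v * w)⁻¹) * β u⁻¹ := by
      simp only [mul_assoc]
      rw [← map_mul]
      congr 3
      group
    have e2 : cc (β u) (β v) * β w * β (u * v * w)⁻¹ = cc (β u) (β v) * β (u * v)⁻¹ := by
      rw [mul_assoc, ← map_mul]
      congr 2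
      group
    rw [e1, e2, mul_assoc u v w]
  -- the coordinates modulo `S`
  let f : V → V → Ω → K ⧸ S := fun u v ω => (QuotientAddGroup.mk (cK ω (k u v)) : K ⧸ S)
  have hdiv : ∀ n : ℕ, n ≠ 0 → ∀ d : K ⧸ S, ∃ d', n • d' = d := by
    intro n hn d
    induction d using QuotientAddGroup.induction_on with
    | H z =>
      refine ⟨(QuotientAddGroup.mk ((n : K)⁻¹ * z) : K ⧸ S), ?_⟩
      rw [← QuotientAddGroup.mk_nsmul, nsmul_eq_mul, ← mul_assoc,
        mul_inv_cancel₀ (Nat.cast_ne_zero.2 hn), one_mul]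
  obtain ⟨g, hg1, hg2⟩ := gam_x xcw V Ω (K ⧸ S) W f hdiv (by
      intro w hw u v ω
      refine ⟨?_, ?_, ?_⟩
      · show (QuotientAddGroup.mk (cK ω (k (u * w) v)) : K ⧸ S) = QuotientAddGroup.mk _
        rw [hk1 w hw]
      · show (QuotientAddGroup.mk (cK ω (k u (v * w))) : K ⧸ S) = QuotientAddGroup.mk _
        rw [hk2 w hw]
      · show (QuotientAddGroup.mk (cK (((w, w) : V × V) • ω) (k u v)) : K ⧸ S) =
          QuotientAddGroup.mk _
        conv_lhs => rw [← hk3 w hw u v, ← hbw, hf2]) (by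
      intro ω u v hu hv
      show (QuotientAddGroup.mk (cK ω (k u v)) : K ⧸ S) = QuotientAddGroup.mk (cK ω (k v u))
      rw [eq_comm, QuotientAddGroup.eq]
      have h := hF ω u v hu hv
      refine (congrArg (· ∈ S) ?_).mp h
      rw [neg_add_eq_sub, ← map_sub, hk, hk, sub_mul, mul_comm v u]) (by
      intro u v w ω
      show (QuotientAddGroup.mk (cK (((u⁻¹, u⁻¹) : V × V) • ω) (k v w)) : K ⧸ S) -
        QuotientAddGroup.mk (cK ω (k (u * v) w)) + QuotientAddGroup.mk (cK ω (k u (v * w))) -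
        QuotientAddGroup.mk (cK ω (k u v)) = 0
      rw [hcK, ← QuotientAddGroup.mk_sub, ← QuotientAddGroup.mk_add, ← QuotientAddGroup.mk_sub,
        ← map_sub, ← map_add, ← map_sub, QuotientAddGroup.eq_zero_iff]
      exact hI2 ω _ (hk4 u v w))
  -- representatives
  let r : V → Ω → K := fun u ω => (g u ω).out
  have hr : ∀ u ω, (QuotientAddGroup.mk (r u ω) : K ⧸ S) = g u ω := fun u ω =>
    QuotientAddGroup.out_eq' _
  have hr1 : ∀ w ∈ W, ∀ u ω, r (u * w) ω = r u ω := fun w hw u ω =>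
    congrArg Quotient.out (hg1 w hw u ω).1
  have hr2 : ∀ w ∈ W, ∀ u ω, r u (((w, w) : V × V) • ω) = r u ω := fun w hw u ω =>
    congrArg Quotient.out (hg1 w hw u ω).2
  let h : V → B := fun u => ∑ ω, r u ω • bB ω
  have hh : ∀ u, h u = ∑ ω, r u ω • bB ω := fun u => rfl
  have hh1 : ∀ w ∈ W, ∀ u, h (u * w) = h u := by
    intro w hw u
    rw [hh, hh]
    exact Finset.sum_congr rfl fun ω _ => by rw [hr1 w hw]
  have hh3 : ∀ u v, β u * h v * β u⁻¹ = ∑ ω, r v (((u⁻¹, u⁻¹) : V × V) • ω) • bB ω := by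
    intro u v
    rw [← hbw, hh, map_sum]
    rw [← Equiv.sum_comp (MulAction.toPerm ((u, u) : V × V))
      (fun ω => r v (((u⁻¹, u⁻¹) : V × V) • ω) • bB ω)]
    refine Finset.sum_congr rfl fun ω _ => ?_
    rw [MulAction.toPerm_apply, map_smul, hf1]
    have e : ((u⁻¹, u⁻¹) : V × V) • ((u, u) : V × V) • ω = ω := by
      have := hact u⁻¹ ω
      rwa [inv_inv] at this
    rw [e]
  have hh2 : ∀ w ∈ W, ∀ u, β w * h u = h u * β w := by
    intro w hw u
    have e : β w * h u * β w⁻¹ = h u := by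
      rw [hh3, hh]
      refine Finset.sum_congr rfl fun ω _ => ?_
      have := hr2 w⁻¹ (W.inv_mem hw) u ω
      rw [this]
    have e2 : β w * h u * β w⁻¹ * β w = h u * β w := by rw [e]
    rw [← e2, mul_assoc, hinv', mul_one]
  have hh4 : ∀ u v, k u v - (β u * h v * β u⁻¹ - h (u * v) + h u) ∈ I := by
    intro u v
    have e : k u v - (β u * h v * β u⁻¹ - h (u * v) + h u) =
        ∑ ω, (cK ω (k u v) - (r v (((u⁻¹, u⁻¹) : V × V) • ω) - r (u * v) ω + r u ω)) • bB ω := by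
      conv_lhs => rw [← hf3 (k u v)]
      rw [hh3, hh, hh]
      simp only [sub_smul, add_smul, Finset.sum_sub_distrib, Finset.sum_add_distrib]
    rw [e]
    refine AddSubgroup.sum_mem I fun ω _ => hI3 _ ?_ ω
    have h2 := hg2 u v ω
    rw [← hr, ← hr, ← hr] at h2
    have h3 : (QuotientAddGroup.mk (cK ω (k u v)) : K ⧸ S) =
      QuotientAddGroup.mk (r v (((u⁻¹, u⁻¹) : V × V) • ω)) - QuotientAddGroup.mk (r (u * v) ω) +
        QuotientAddGroup.mk (r u ω) := h2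
    rw [← QuotientAddGroup.mk_sub, ← QuotientAddGroup.mk_add, eq_comm, QuotientAddGroup.eq] at h3
    rwa [neg_add_eq_sub] at h3
  refine ⟨fun v => - h v * β v, fun w hw v => ⟨?_, ?_⟩, fun u v => ?_⟩
  · show - h (v * w) * β (v * w) = - h v * β v * β w
    rw [hh1 w hw, map_mul, mul_assoc]
  · show - h v * β v * β w = β w * (- h v * β v)
    rw [neg_mul, neg_mul, mul_neg, mul_assoc, hcomm v w, ← mul_assoc, ← mul_assoc, hh2 w hw]
  · show β u * (- h v * β v) + - h u * β u * β v + cc (β u) (β v) - - h (u * v) * β (u * v) ∈ I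
    have h1 := hI1 _ (hh4 u v) (u * v)
    refine (congrArg (· ∈ I) ?_).mp h1
    have e1 : k u v * β (u * v) = cc (β u) (β v) := by rw [hk, mul_assoc, hinv', mul_one]
    have e2 : β u * h v * β u⁻¹ * β (u * v) = β u * (h v * β v) := by
      rw [map_mul, ← mul_assoc, mul_assoc (β u * h v), hinv', mul_one, mul_assoc]
    rw [sub_mul, e1, add_mul, sub_mul, e2, map_mul, neg_mul, mul_neg, neg_mul, neg_mul, neg_mul]
    simp only [mul_assoc]
    abel

theorem gam (xcw : XcwStmt) : GamStmt := by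
  intro R K V A B κ Ω _ _ _ _ _ _ _ _ _ _ _ _ _ _ W α lam x y b c C cc hZ hF
  obtain ⟨hrel, -, hcyc⟩ := hZ
  obtain ⟨γ, h1, h2⟩ := gam_core xcw W (ia C.i α) (fun ω => C.i (b ω)) C.cK C.frK
    (algebraMap R K : R →+ K).range ((C.i : A →+* B) : A →+ B).range (by
      rintro _ ⟨a, rfl⟩ v
      exact ⟨a * α v, map_mul C.i a (α v)⟩) (by
      rintro ω _ ⟨a, rfl⟩
      exact ⟨c ω a, (C.ck ω a).symm⟩) (by
      rintro _ ⟨s, rfl⟩ ω
      refine ⟨s • b ω, ?_⟩
      show C.i (s • b ω) = algebraMap R K s • C.i (b ω)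
      rw [C.tow, map_smul]) cc hrel (fun u v w => hcyc (α u) (α v) (α w)) (by
      intro ω u v hu hv
      obtain ⟨s, hs⟩ := hF ω u v hu hv
      exact ⟨s, hs.symm⟩)
  exact ⟨γ, h1, fun u v => h2 u v⟩

end Pool.Agent.PSS.H41
end
end -- Pool.Agent.Helper41_PSS.GAM

section -- Pool.Agent.Helper41_PSS.H2W

/-! Squad PST, block OB, row H2W: vanishing forms imply that the cocycle is a coboundary. -/

open scoped BigOperators TensorProduct

noncomputable section

namespace Pool.Agent.PSS.H41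

open Pool.Agent.PFD.D2b (FrR)
open Pool.Agent.PSS.H33
open Finset

theorem h2w (csu : CsuStmt) (hcc : HccStmt) (lfg : LfgStmt) (gam : GamStmt) (hcw : HcwStmt) :
    H2wStmt := by
  intro R K V E A B κ Ω _ _ _ _ _ _ _ _ _ _ _ _ _ _ _ φ W α lam x y b c C u hV hS hu cc hZ hF
  obtain ⟨hw, hn, hc⟩ := hZ
  obtain ⟨-, hcsm⟩ := csu R V A κ α lam x y u C.rf hu
  obtain ⟨γ, hγ1, hγ2⟩ := gam R K V A B κ Ω W α lam x y b c C cc ⟨hw, hn, hc⟩ hF
  obtain ⟨g₁, hg1w, hg1, hb⟩ := hcw R K V E A B κ Ω φ W α lam x y b c C cc γ hV hS ⟨hw, hn, hc⟩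
    hγ1 hγ2
  obtain ⟨g₂, hg2w, hg2, hg2c⟩ := hcc R K V A B κ Ω W α lam x y b c C κ x (fun i => y i * u) hcsm
    (cg cc g₁) (cg_wb hw hg1w) (cg_nrm hn hg1) (fun a₁ a₂ a₃ => by
      rw [cg_dl]
      exact hc a₁ a₂ a₃) (fun v a => hb v a)
  obtain ⟨H, hHw, hH1, hH⟩ := lfg R K V A B κ Ω W α lam x y b c C g₂ hg2w hg2
  refine ⟨H - g₁, fun w hw' t => ⟨?_, ?_⟩, ?_, fun a₁ a₂ => ?_⟩
  · rw [LinearMap.sub_apply, LinearMap.sub_apply, (hHw w hw' t).1, (hg1w w hw' t).1, mul_sub]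
  · rw [LinearMap.sub_apply, LinearMap.sub_apply, (hHw w hw' t).2, (hg1w w hw' t).2, sub_mul]
  · rw [LinearMap.sub_apply, hH1, hg1, sub_zero]
  · have h1 := hg2c a₁ a₂
    have h2 := in_ml a₁ (hH a₂)
    have h3 := hH (a₁ * a₂)
    have h4 := in_mr a₂ (hH a₁)
    have h5 := in_sub h1 (in_add (in_sub h2 h3) h4)
    rw [cg_apply] at h5
    refine (congrArg (In C.i) ?_).mp h5
    simp only [d1, LinearMap.sub_apply, map_mul, mul_sub, sub_mul]
    abel

end Pool.Agent.PSS.H41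
end
end -- Pool.Agent.Helper41_PSS.H2W

section -- Pool.Agent.Helper45_PSS.XCW

/-!
# Squad PSS, row XCW (helper45): 2-cocycles relative to a subgroup
-/

set_option autoImplicit false

noncomputable section

namespace Pool.Agent.PSS.H45

/-- The class of a point modulo the subgroup `W`. -/
def cls {V Ω : Type} [CommGroup V] [MulAction V Ω] (W : Subgroup V) (ω : Ω) :
    MulAction.orbitRel.Quotient W Ω := Quotient.mk'' ω

theorem cls_eq {V Ω : Type} [CommGroup V] [MulAction V Ω] (W : Subgroup V) (ω ω' : Ω) :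
    cls W ω = cls W ω' ↔ ∃ w ∈ W, w • ω' = ω := by
  constructor
  · intro h
    have h1 : MulAction.orbitRel W Ω ω ω' := Quotient.exact h
    obtain ⟨w, hw⟩ := h1
    exact ⟨w.1, w.2, hw⟩
  · rintro ⟨w, hw, h⟩
    exact Quotient.sound ⟨⟨w, hw⟩, h⟩

theorem cls_out {V Ω : Type} [CommGroup V] [MulAction V Ω] (W : Subgroup V)
    (x : MulAction.orbitRel.Quotient W Ω) : cls W x.out = x := Quotient.out_eq x

theorem cls_smul {V Ω : Type} [CommGroup V] [MulAction V Ω] (W : Subgroup V) (u u' : V)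
    (ω ω' : Ω) (hu : (u : V ⧸ W) = (u' : V ⧸ W)) (h : cls W ω = cls W ω') :
    cls W (u • ω) = cls W (u' • ω') := by
  obtain ⟨w, hw, hω⟩ := (cls_eq W _ _).1 h
  have h1 : u⁻¹ * u' ∈ W := QuotientGroup.eq.1 hu
  refine (cls_eq W _ _).2 ⟨w * (u⁻¹ * u')⁻¹, W.mul_mem hw (W.inv_mem h1), ?_⟩
  rw [← hω, ← mul_smul, ← mul_smul]
  congr 1
  have h2 : (u⁻¹ * u')⁻¹ = u * u'⁻¹ := by rw [mul_inv_rev, inv_inv, mul_comm]
  rw [h2, mul_assoc, inv_mul_cancel_right, mul_comm]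

/-- The action of `V ⧸ W` on the classes of points. -/
@[reducible] def act {V Ω : Type} [CommGroup V] [MulAction V Ω] (W : Subgroup V) :
    MulAction (V ⧸ W) (MulAction.orbitRel.Quotient W Ω) where
  smul q x := cls W (q.out • x.out)
  one_smul x := by
    change cls W ((1 : V ⧸ W).out • x.out) = x
    rw [cls_smul W (1 : V ⧸ W).out 1 x.out x.out
      ((QuotientGroup.out_eq' (1 : V ⧸ W)).trans (QuotientGroup.mk_one W).symm) rfl,
      one_smul, cls_out]
  mul_smul q r x := by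
    change cls W ((q * r).out • x.out) = cls W (q.out • (cls W (r.out • x.out)).out)
    rw [cls_smul W q.out q.out (cls W (r.out • x.out)).out (r.out • x.out) rfl (cls_out W _),
      ← mul_smul]
    refine cls_smul W _ _ _ _ ?_ rfl
    rw [QuotientGroup.out_eq', QuotientGroup.mk_mul, QuotientGroup.out_eq',
      QuotientGroup.out_eq']

/-- XCW -/
theorem xcw (hX : XcoStmt) : XcwStmt := by
  classical
  intro V Ω D _ _ _ W f hD hW hsym hcoc
  let _ : MulAction (V ⧸ W) (MulAction.orbitRel.Quotient W Ω) := act W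
  have hact : ∀ (u : V) (ω : Ω), (u : V ⧸ W) • cls W ω = cls W (u • ω) := by
    intro u ω
    change cls W ((u : V ⧸ W).out • (cls W ω).out) = _
    exact cls_smul W _ _ _ _ (QuotientGroup.out_eq' _) (cls_out W _)
  -- `f` depends on the classes only
  have hf : ∀ (u u' v v' : V) (ω ω' : Ω), (u : V ⧸ W) = (u' : V ⧸ W) →
      (v : V ⧸ W) = (v' : V ⧸ W) → cls W ω = cls W ω' → f u v ω = f u' v' ω' := by
    intro u u' v v' ω ω' hu hv hω
    obtain ⟨w, hw, h1⟩ := (cls_eq W _ _).1 hω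
    have h2 : u⁻¹ * u' ∈ W := QuotientGroup.eq.1 hu
    have h3 : v⁻¹ * v' ∈ W := QuotientGroup.eq.1 hv
    have e2 : u' = u * (u⁻¹ * u') := by rw [mul_inv_cancel_left]
    have e3 : v' = v * (v⁻¹ * v') := by rw [mul_inv_cancel_left]
    rw [e2, e3, (hW _ h2 _ _ _).1, (hW _ h3 _ _ _).2.1, ← h1, (hW w hw _ _ _).2.2]
  have hsymW : ∀ (ω : Ω) (u v : V), cls W (u • ω) = cls W ω → cls W (v • ω) = cls W ω →
      f u v ω = f v u ω := by
    intro ω u v hu hv
    obtain ⟨w, hw, h1⟩ := (cls_eq W _ _).1 hu.symm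
    obtain ⟨w', hw', h2⟩ := (cls_eq W _ _).1 hv.symm
    have k1 : ((u : V) : V ⧸ W) = ((w * u : V) : V ⧸ W) := by
      rw [QuotientGroup.eq, mul_comm w u, inv_mul_cancel_left]
      exact hw
    have k2 : ((v : V) : V ⧸ W) = ((w' * v : V) : V ⧸ W) := by
      rw [QuotientGroup.eq, mul_comm w' v, inv_mul_cancel_left]
      exact hw'
    rw [hf u (w * u) v (w' * v) ω ω k1 k2 rfl, hf v (w' * v) u (w * u) ω ω k2 k1 rfl]
    refine hsym ω _ _ ?_ ?_
    · rw [mul_smul, h1]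
    · rw [mul_smul, h2]
  obtain ⟨g, hg⟩ := hX (V ⧸ W) (MulAction.orbitRel.Quotient W Ω) D
    (fun q r x => f q.out r.out x.out) hD (by
      intro x u v hu hv
      refine hsymW x.out u.out v.out ?_ ?_
      · rw [cls_out]; exact hu
      · rw [cls_out]; exact hv) (by
      intro u v w x
      have h1 := hcoc u.out v.out w.out x.out
      have a1 : f v.out w.out (u⁻¹ • x).out = f v.out w.out (u.out⁻¹ • x.out) := by
        refine hf _ _ _ _ _ _ rfl rfl ?_
        rw [cls_out, ← hact, QuotientGroup.mk_inv, QuotientGroup.out_eq', cls_out]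
      have a2 : f (u * v).out w.out x.out = f (u.out * v.out) w.out x.out := by
        refine hf _ _ _ _ _ _ ?_ rfl rfl
        rw [QuotientGroup.out_eq', QuotientGroup.mk_mul, QuotientGroup.out_eq',
          QuotientGroup.out_eq']
      have a3 : f u.out (v * w).out x.out = f u.out (v.out * w.out) x.out := by
        refine hf _ _ _ _ _ _ rfl ?_ rfl
        rw [QuotientGroup.out_eq', QuotientGroup.mk_mul, QuotientGroup.out_eq',
          QuotientGroup.out_eq']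
      rw [a1, a2, a3]
      exact h1)
  refine ⟨fun u ω => g u (cls W ω), ?_, ?_⟩
  · intro w hw u ω
    have k1 : ((u * w : V) : V ⧸ W) = ((u : V) : V ⧸ W) := by
      rw [QuotientGroup.eq, mul_inv_rev, mul_assoc, inv_mul_cancel, mul_one]
      exact W.inv_mem hw
    have k2 : cls W (w • ω) = cls W ω := (cls_eq W _ _).2 ⟨w, hw, rfl⟩
    dsimp only
    rw [k1, k2]
    exact ⟨rfl, rfl⟩
  · intro u v ω
    have h1 := hg (u : V ⧸ W) (v : V ⧸ W) (cls W ω)
    dsimp only at h1 ⊢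
    rw [← hf (u : V ⧸ W).out u (v : V ⧸ W).out v (cls W ω).out ω (QuotientGroup.out_eq' _)
      (QuotientGroup.out_eq' _) (cls_out W _), h1, ← QuotientGroup.mk_inv, hact,
      QuotientGroup.mk_mul]

end Pool.Agent.PSS.H45
end
end -- Pool.Agent.Helper45_PSS.XCW

section -- Pool.Agent.Helper52_PSS.SYD

/-!
# Squad PSS, row SYD: a symmetric 2-cocycle with values in a divisible group is a coboundary
-/

set_option autoImplicit false

noncomputable section

namespace Pool.Agent.PSS.H52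

open Pool.Agent.PSS

section

variable {S D : Type} [CommGroup S] [AddCommGroup D] (f : S → S → D)

/-- the extension of `S` by `D` defined by `f` -/
structure SydX (f : S → S → D) where
  /-- the first coordinate -/
  fst : S
  /-- the second coordinate -/
  snd : D

variable {f}

theorem SydX.ext' {p p' : SydX f} (h1 : p.fst = p'.fst) (h2 : p.snd = p'.snd) : p = p' := by
  cases p
  cases p'
  simp only at h1 h2
  subst h1 h2
  rfl

/-- the group structure -/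
@[reducible] def sydG (hs : ∀ u v, f u v = f v u)
    (hc : ∀ u v w, f v w - f (u * v) w + f u (v * w) - f u v = 0) : AddCommGroup (SydX f) :=
  letI : Add (SydX f) := ⟨fun p p' => ⟨p.fst * p'.fst, p.snd + p'.snd + f p.fst p'.fst⟩⟩
  letI : Zero (SydX f) := ⟨⟨1, - f 1 1⟩⟩
  letI : Neg (SydX f) := ⟨fun p => ⟨p.fst⁻¹, - p.snd - f p.fst⁻¹ p.fst - f 1 1⟩⟩
  have h1 : ∀ u, f 1 u = f 1 1 := by
    intro u
    have h := hc 1 1 u
    rw [one_mul, one_mul, sub_self, zero_add] at h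
    exact sub_eq_zero.1 h
  letI : AddGroup (SydX f) := AddGroup.ofLeftAxioms
    (by
      intro p p' p''
      refine SydX.ext' ?_ ?_
      · exact mul_assoc _ _ _
      · change p.snd + p'.snd + f p.fst p'.fst + p''.snd + f (p.fst * p'.fst) p''.fst =
          p.snd + (p'.snd + p''.snd + f p'.fst p''.fst) + f p.fst (p'.fst * p''.fst)
        have h := hc p.fst p'.fst p''.fst
        have h2 : f p'.fst p''.fst + f p.fst (p'.fst * p''.fst) =
            f (p.fst * p'.fst) p''.fst + f p.fst p'.fst := by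
          have h3 : f p'.fst p''.fst + f p.fst (p'.fst * p''.fst) -
              (f (p.fst * p'.fst) p''.fst + f p.fst p'.fst) = 0 := by
            rw [← h]; abel
          exact sub_eq_zero.1 h3
        have h4 : p.snd + (p'.snd + p''.snd + f p'.fst p''.fst) + f p.fst (p'.fst * p''.fst) =
            p.snd + p'.snd + p''.snd + (f p'.fst p''.fst + f p.fst (p'.fst * p''.fst)) := by abel
        rw [h4, h2]
        abel)
    (by
      intro p
      refine SydX.ext' ?_ ?_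
      · exact one_mul _
      · change - f 1 1 + p.snd + f 1 p.fst = p.snd
        rw [h1 p.fst]
        abel)
    (by
      intro p
      refine SydX.ext' ?_ ?_
      · exact inv_mul_cancel _
      · change (- p.snd - f p.fst⁻¹ p.fst - f 1 1) + p.snd + f p.fst⁻¹ p.fst = - f 1 1
        abel)
  { (inferInstance : AddGroup (SydX f)) with
    add_comm := by
      intro p p'
      refine SydX.ext' ?_ ?_
      · exact mul_comm _ _
      · change p.snd + p'.snd + f p.fst p'.fst = p'.snd + p.snd + f p'.fst p.fst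
        rw [hs p.fst p'.fst]
        abel }

end

theorem syd : SydStmt := by
  intro S D _ _ f hd hs hc
  letI := sydG hs hc
  have h1 : ∀ u, f 1 u = f 1 1 := by
    intro u
    have h := hc 1 1 u
    rw [one_mul, one_mul, sub_self, zero_add] at h
    exact sub_eq_zero.1 h
  have hadd : ∀ p p' : SydX f, p + p' = ⟨p.fst * p'.fst, p.snd + p'.snd + f p.fst p'.fst⟩ :=
    fun _ _ => rfl
  letI : DivisibleBy D ℤ := divisibleByOfSMulRightSurj D ℤ (by
    intro n hn d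
    obtain ⟨k, hk | hk⟩ := n.eq_nat_or_neg
    · obtain ⟨d', hd'⟩ := hd k (by
        rintro rfl
        exact hn (by rw [hk]; rfl)) d
      refine ⟨d', ?_⟩
      change n • d' = d
      rw [hk, natCast_zsmul]
      exact hd'
    · obtain ⟨d', hd'⟩ := hd k (by
        rintro rfl
        exact hn (by rw [hk]; rfl)) d
      refine ⟨- d', ?_⟩
      change n • (- d') = d
      rw [hk, neg_smul, smul_neg, neg_neg, natCast_zsmul]
      exact hd')
  let ι : D →+ SydX f :=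
    { toFun := fun a => ⟨1, a - f 1 1⟩
      map_zero' := by
        refine SydX.ext' rfl ?_
        change 0 - f 1 1 = - f 1 1
        rw [zero_sub]
      map_add' := by
        intro a b
        refine SydX.ext' ?_ ?_
        · exact (one_mul (1 : S)).symm
        · change a + b - f 1 1 = (a - f 1 1) + (b - f 1 1) + f 1 1
          abel }
  have hι : Function.Injective ι := by
    intro a b h
    have h2 : a - f 1 1 = b - f 1 1 := congrArg SydX.snd h
    exact sub_left_injective h2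
  obtain ⟨r, hr⟩ := (Module.Baer.of_divisible D).extension_property_addMonoidHom ι hι
    (AddMonoidHom.id D)
  have hr' : ∀ a, r (ι a) = a := fun a => DFunLike.congr_fun hr a
  refine ⟨fun u => r ⟨u, 0⟩, fun u v => ?_⟩
  have h2 : (⟨u, 0⟩ : SydX f) + ⟨v, 0⟩ = ⟨u * v, 0⟩ + ι (f u v) := by
    rw [hadd, hadd]
    refine SydX.ext' ?_ ?_
    · exact (mul_one (u * v)).symm
    · change 0 + 0 + f u v = 0 + (f u v - f 1 1) + f (u * v) 1
      rw [hs (u * v) 1, h1 (u * v)]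
      abel
  have h3 := congrArg r h2
  rw [map_add, map_add, hr'] at h3
  change f u v = r ⟨v, 0⟩ - r ⟨u * v, 0⟩ + r ⟨u, 0⟩
  have h4 : r ⟨v, 0⟩ - r ⟨u * v, 0⟩ + r ⟨u, 0⟩ = (r ⟨u, 0⟩ + r ⟨v, 0⟩) - r ⟨u * v, 0⟩ := by abel
  rw [h4, h3]
  abel

end Pool.Agent.PSS.H52
end
end -- Pool.Agent.Helper52_PSS.SYD

section -- Pool.Agent.Helper77_PSS.XCO

/-!
# Squad PSS, row XCO (helper77): 2-cocycles with values in the functions on a `G`-set
-/

set_option autoImplicit false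

noncomputable section

namespace Pool.Agent.PSS.H77X

/-- XCO -/
theorem xco (hS : SydStmt) : XcoStmt := by
  classical
  intro G X D _ _ _ f hD hsym hcoc
  -- the representatives of the orbits
  obtain ⟨r, hr, hru⟩ : ∃ r : X → X, (∀ x, ∃ g : G, g • r x = x) ∧
      ∀ (u : G) x, r (u • x) = r x := by
    refine ⟨fun x => (Quotient.mk'' x : MulAction.orbitRel.Quotient G X).out, ?_, ?_⟩
    · intro x
      have h : MulAction.orbitRel G X
          (Quotient.mk'' x : MulAction.orbitRel.Quotient G X).out x :=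
        Quotient.exact (Quotient.out_eq _)
      obtain ⟨g, hg⟩ := h
      refine ⟨g⁻¹, ?_⟩
      dsimp only at hg ⊢
      rw [← hg]
      exact inv_smul_smul g x
    · intro u x
      have h : (Quotient.mk'' (u • x) : MulAction.orbitRel.Quotient G X) = Quotient.mk'' x :=
        Quotient.sound ⟨u, rfl⟩
      dsimp only
      rw [h]
  choose t ht using hr
  have hh : ∀ x₀ : X, ∃ h : G → D, ∀ u v : G, u • x₀ = x₀ → v • x₀ = x₀ →
      f u v x₀ = h v - h (u * v) + h u := by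
    intro x₀
    obtain ⟨h, hh⟩ := hS (MulAction.stabilizer G x₀) D (fun u v => f u v x₀) hD
      (fun u v => hsym x₀ u v u.2 v.2) (by
        intro u v w
        have h1 := hcoc u v w x₀
        have e : (u : G)⁻¹ • x₀ = x₀ := (MulAction.stabilizer G x₀).inv_mem u.2
        rw [e] at h1
        exact h1)
    refine ⟨fun g => if hg : g ∈ MulAction.stabilizer G x₀ then h ⟨g, hg⟩ else 0, ?_⟩
    intro u v hu hv
    have hu' : u ∈ MulAction.stabilizer G x₀ := hu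
    have hv' : v ∈ MulAction.stabilizer G x₀ := hv
    dsimp only
    rw [dif_pos hu', dif_pos hv', dif_pos (mul_mem hu' hv')]
    exact hh ⟨u, hu'⟩ ⟨v, hv'⟩
  choose h hh using hh
  refine ⟨fun u x => h (r x) ((t x)⁻¹ * u * t (u⁻¹ • x)) + f u (t (u⁻¹ • x)) x -
    f (t x) ((t x)⁻¹ * u * t (u⁻¹ • x)) x, ?_⟩
  intro u v x
  have hst : ∀ (u : G) (x : X), ((t x)⁻¹ * u * t (u⁻¹ • x)) • r x = r x := by
    intro u x
    have h1 : t (u⁻¹ • x) • r x = u⁻¹ • x := by
      have h2 := ht (u⁻¹ • x)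
      rwa [hru] at h2
    rw [mul_smul, h1, mul_smul, smul_inv_smul, inv_smul_eq_iff, ht]
  have hx : (t x)⁻¹ • x = r x := by rw [inv_smul_eq_iff, ht]
  have huv : (u * v)⁻¹ • x = v⁻¹ • u⁻¹ • x := by rw [mul_inv_rev, mul_smul]
  dsimp only
  rw [hru, huv]
  generalize hx' : u⁻¹ • x = x'
  generalize hs : (t x)⁻¹ * u * t x' = s
  generalize hs' : (t x')⁻¹ * v * t (v⁻¹ • x') = s'
  have e0 : (t x)⁻¹ * (u * v) * t (v⁻¹ • x') = s * s' := by
    rw [← hs, ← hs']
    group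
  have e1 : v * t (v⁻¹ • x') = t x' * s' := by
    rw [← hs']
    group
  have e2 : u * t x' = t x * s := by
    rw [← hs]
    group
  have c1 := hcoc u v (t (v⁻¹ • x')) x
  have c2 := hcoc u (t x') s' x
  have c3 := hcoc (t x) s s' x
  have c4 := hh (r x) s s' (by rw [← hs, ← hx']; exact hst u x) (by
    have h1 := hst v x'
    rw [hs', ← hx', hru] at h1
    exact h1)
  rw [hx'] at c1 c2
  rw [hx] at c3
  rw [e1] at c1
  rw [e2] at c2
  rw [e0]
  have c1' : f u v x = f v (t (v⁻¹ • x')) x' - f (u * v) (t (v⁻¹ • x')) x +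
      f u (t x' * s') x := (sub_eq_zero.1 c1).symm
  have c2' : f u (t x' * s') x = f u (t x') x - f (t x') s' x' + f (t x * s) s' x := by
    rw [← sub_eq_zero, ← c2]
    abel
  have c3' : f (t x * s) s' x = f s s' (r x) + f (t x) (s * s') x - f (t x) s x := by
    rw [← sub_eq_zero, ← neg_eq_zero, ← c3]
    abel
  rw [c1', c2', c3', c4]
  abel

end Pool.Agent.PSS.H77X
end
end -- Pool.Agent.Helper77_PSS.XCO
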