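import Pool.Agent.Helper12_AWB.B022

/-!
# Merged copies (generated) of the modules

* `Pool.Agent.PST.StmtsK1`
* `Pool.Agent.Helper29_PSS.SVH`
* `Pool.Agent.Helper52_PST.NKB`
* `Pool.Agent.Helper56_PST.DZU`
* `Pool.Agent.Helper71_PSS.CNH`
* `Pool.Agent.Helper76_PSS.EOR`
* `Pool.Agent.Helper91_PSS.THL`
* `Pool.Agent.Helper95_PSS.TOR`
* `Pool.Agent.Helper85_PST.DEX`
* `Pool.Agent.Helper44_PST.HON`
* `Pool.Agent.Helper51_PST.YCV`
-/

set_option autoImplicit false

section -- Pool.Agent.PST.StmtsK1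

/-!
# Squad PST, block KEY, part 1 (helper79): the class `Cl` over `F`

Notation: `v` for `α v`, `rt x y a = ∑ x k * a * y k` (`PSS.rt`), `ζ = rt x y 1`.  `Adc φ e`: `e : V → F` is
additive and `E`-invariant.  Complete proofs in the docstrings.  All rows of block S0 (`PSS/StmtsS0.lean`) are
PROVED (files: table `pss`, column path): take them as hypotheses (`(mck : S0.MckStmt)` ..) or import them.

1. DEX: the derivation `D_e` with `D_e v = e(v) v ζ`.  NKB, ADX, LSA.
2. ZIJ: the Brauer map at a subgroup centralised by `E` is injective on the centre.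
3. DZC: the values of a derivation at central elements.  HON: cocycles of `V / W`.
-/

open scoped BigOperators

noncomputable section

namespace Pool.Agent.PST

open Pool.Agent.PFC (tw IsTv)
open Pool.Agent.PFD.D2b (FrR)
open Pool.Agent.PSS
open Pool.Agent.PSS.S0 (IsBQ)

/-- additive `E`-invariant functions on `V` -/
structure Adc {F V E : Type} [Field F] [CommGroup V] [Group E] (φ : E →* MulAut V) (e : V → F) :
    Prop where
  add : ∀ u v, e (u * v) = e u + e v
  inv : ∀ g v, e (φ g v) = e v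

/-- `D` is a derivation -/
def Der {F A : Type} [Field F] [Ring A] [Algebra F A] (D : A →ₗ[F] A) : Prop :=
  ∀ a b, D (a * b) = D a * b + a * D b

/-! ## 1. Derivations and relative traces -/

/-- DEX: the derivation of an additive `E`-invariant function.

Proof.  `Per`: frame `(Ω, b, c)` with stabilisers `tw (φ (g ω)) (S ω)`; choose `g`, `S` constant on orbits (a function
of the stabiliser, which is constant on orbits).  `S2.SvhStmt` (proved): `H : Ω → F` with
`H ((u, v) • ω) = H ω + e (φ (g ω)⁻¹ u) - e v = H ω + e u - e v` (`inv`).  `N = S2.Nh H b c`, `N a = ∑ c ω a H ω • b ω`: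
(1) `N (a v) = N a v + e(v) a v` and (2) `N (u a) = u N a + e(u) u a` (substitute `ω ↦ (1, v⁻¹) • ω` etc., see the
proofs of `S2.CnhStmt` and `S2.SvkStmt`, with `q = 0`).  `D a = ∑_k (N (a x_k) - a N (x_k)) y_k`.
Derivation: for fixed `a` the map `f b = N (a b) - a N b` is right `V`-linear by (1), `D (a b) = ∑_k f (b x_k) y_k +
a D b` and `S2.ThlStmt` (`q = 0`, proved; `S2.RLq`, `S2.Cg` with `q = 0` are equalities, `S2.cg_zero`):
`∑_k f (b x_k) y_k = (∑_k f (x_k) y_k) b = D a b`.  `D v = ∑_k e(v) v x_k y_k` by (2). -/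
def DexStmt : Prop := ∀ (F V E A K : Type) [Field F] [CommGroup V] [Fintype V] [Group E] [Ring A]
  [Algebra F A] [Fintype K] (φ : E →* MulAut V) (α : V →* A) (lam : A →ₗ[F] F) (x y : K → A)
  (e : V → F), Per F φ α → RF F α lam x y → Adc φ e →
  ∃ D : A →ₗ[F] A, Der D ∧ ∀ v, D (α v) = e v • (α v * rt x y 1)

/-- NKB: central elements in the Brauer kernel of `V` are nilpotent.

Proof.  Let `z` be central, `z ^ n ∈ BKR (cw F α) ⊤`, `z` not nilpotent.  `A` is finite-dimensional: there is a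
polynomial `p` with `f = p(z) z ^ n` idempotent, `f ≠ 0` (Fitting: the minimal polynomial is `X ^ m r`, `r(0) ≠ 0`,
`s X ^ (m+n) + t r = 1`, `f = s(z) z ^ (m+n)`; `f = 0` would give `1 = t(z) r(z)`, so `z ^ m = 0`; or use
`S5.FitStmt`).  `f` is central and in `BKR (cw F α) ⊤` (an ideal of the centraliser of `V`: `S0.BkiStmt`).  `Cl.blk` for
`Q = ⊥` (`e * e - e = 0`, `e * a - a * e = 0`): `f ∈ BKR (cw F α) ⊥`, which is `0` (`⊥` has no proper subgroup).  So
`f = 0`, a contradiction. -/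
def NkbStmt : Prop := ∀ (F V E A : Type) [Field F] [CommGroup V] [Fintype V] [Group E] [Ring A]
  [Algebra F A] (φ : E →* MulAut V) (α : V →* A), Cl F φ α → ∀ z : A, (∀ a, z * a = a * z) →
  ∀ n : ℕ, z ^ n ∈ BKR (cw F α) ⊤ → IsNilpotent z

/-- ADX: existence of an additive invariant function which vanishes on `S`.

Proof.  `P v = ∏_(g : E) φ g v`, an endomorphism of `V` (`V` commutative) with `P (φ h v) = P v`.  `P s = s ^ |E|` for
`s ∈ S` and `P q = q ^ |E|`, which is not in `S`: `|E|` is prime to the order of `q` (a power of `ℓ`), so `q` is a power of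
`q ^ |E|`.  `H = S.comap P`: `q ∉ H`, `S ≤ H`, and `φ g v * v⁻¹ ∈ H` (`P` of it is `1`).  `H ≠ ⊤`: let `M` be a maximal
subgroup containing `H`; `V` is an `ℓ`-group, so `M` has index `ℓ`, `V ⧸ M` is cyclic of order `ℓ`: an injective additive
function `V ⧸ M → ZMod ℓ → F` (`ZMod.castHom` for `CharP F ℓ`).  `e` = the composite: `e (φ g v) = e v`, `e = 0` on
`S ≤ M`, `e v ≠ 0` for `v ∉ M`. -/
def AdxStmt : Prop := ∀ (ℓ : ℕ) [Fact ℓ.Prime] (F V E : Type) [Field F] [CharP F ℓ] [CommGroup V]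
  [Finite V] [Group E] [Finite E] (φ : E →* MulAut V) (S : Subgroup V) (q : V), IsPGroup ℓ V →
  ¬ ℓ ∣ Nat.card E → (∀ g, ∀ s ∈ S, φ g s = s) → (∀ g, φ g q = q) → q ∉ S →
  ∃ e : V → F, Adc φ e ∧ (∀ s ∈ S, e s = 0) ∧ ∃ v, e v ≠ 0

/-- DZU: the value of `D_e` at `rt(u) - rt(1)`.

Proof.  `ζ = rt x y 1`, `z = rt x y u - ζ`: central (`S0.ZrtStmt`).  `D` maps central elements to central elements
(`D (z a) = D (a z)` gives `D(z) a = a D(z)`), `ζ` is central.  `D` maps the centraliser `A^V` of `V` into itself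
(`D(a) v + e(v) a v ζ = D(a v) = D(v a) = e(v) v ζ a + v D(a)`), and `BK = BKR (cw F α) ⊤` into itself:
`D (t m t⁻¹) = t D(m) t⁻¹` (the two other terms cancel), and `D m` commutes with `P'` if `m` does.
`B = A(V)` (`S0.BqxStmt`), `β`; `S0.BpuStmt` (`E1` = the centraliser of `V` in `E`): `lamB`, `xB`, `yB`; `ζ_B = ∑ xB yB`.
`V` is central in `B`.  `S0.MckStmt` (`Q = ⊤`) for `a = u` and `a = 1`: `β (rt u) = (∑_(t ∈ T) αB (φ t u)) ζ_B`,
`β ζ = |T| ζ_B`.  Let `s ∈ A^V`, `β s = ζ_B`.  Modulo `BK`: `rt u ≡ ∑_t (φ t u) s`, `ζ ≡ |T| s`.  So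
`D (rt u) ≡ ∑_t (e(u) (φ t u) ζ s + (φ t u) D(s))` (`e (φ t u) = e u`), `D ζ ≡ |T| D(s)`, `e(u) ζ² ≡ ∑_t e(u) ζ s`, and
`D z - e(u) ζ² ≡ ∑_t ((φ t u) - 1) (e(u) ζ s + D(s))`.  The image in `B` is a combination of the central nilpotent
elements `αB (φ t u) - 1` (`(v - 1) ^ (ℓ ^ n) = v ^ (ℓ ^ n) - 1 = 0`), so it is nilpotent, and a power of the
central element `D z - e(u) ζ²` is in `BK`: NKB. -/
def DzuStmt : Prop := ∀ (ℓ : ℕ) [Fact ℓ.Prime] (F V E A K : Type) [Field F] [CharP F ℓ]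
  [CommGroup V] [Fintype V] [Group E] [Finite E] [Ring A] [Algebra F A] [Fintype K]
  (φ : E →* MulAut V) (α : V →* A) (lam : A →ₗ[F] F) (x y : K → A) (e : V → F) (D : A →ₗ[F] A),
  IsPGroup ℓ V → ¬ ℓ ∣ Nat.card E → Cl F φ α → RF F α lam x y → Adc φ e → Der D →
  (∀ v, D (α v) = e v • (α v * rt x y 1)) → ∀ u : V,
  IsNilpotent (D (rt x y (α u) - rt x y 1) - e u • (rt x y 1 * rt x y 1))

/-- LSA: the relative traces from the kernel of an additive invariant function vanish (Lemma **).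

Proof.  `D` from DEX, `f = rt x y (∑_(t ∈ T) t c t⁻¹)`.  Let `h_j = x_k t`, `h'_j = t⁻¹ y_k` for `j = (k, t)`: this is a
relative Frobenius system over `S` (`S0.RfsStmt`), `f = ∑_j h_j c h'_j`.  `D` is right `S`-linear (`D s = 0`), so is
`b ↦ D(b) c` (`c` commutes with `S`), and `S2.ThlStmt` for the group `S` (`q = 0`) gives
`∑_j D (a h_j) c h'_j = (∑_j D(h_j) c h'_j) a`; the left side is `D(a) f + a ∑_j D(h_j) c h'_j`.  So for central `a`:
`D(a) f = 0`.  Choose `u` with `e u ≠ 0` and `a = rt x y u - ζ`: `D a = e(u) ζ² + nilpotent` (DZU), both central, `ζ` is a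
unit (`u₀ * ζ = 1`, `ζ` central), so `D a` is a unit and `f = 0`. -/
def LsaStmt : Prop := ∀ (ℓ : ℕ) [Fact ℓ.Prime] (F V E A K : Type) [Field F] [CharP F ℓ]
  [CommGroup V] [Fintype V] [Group E] [Finite E] [Ring A] [Algebra F A] [Fintype K]
  (φ : E →* MulAut V) (α : V →* A) (lam : A →ₗ[F] F) (x y : K → A) (u₀ : A) (e : V → F)
  (S : Subgroup V) (T : Finset V), IsPGroup ℓ V → ¬ ℓ ∣ Nat.card E → Cl F φ α →
  RF F α lam x y → u₀ * rt x y 1 = 1 → Adc φ e → (∀ s ∈ S, e s = 0) → (∃ v, e v ≠ 0) →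
  IsTv S ⊤ T → ∀ c ∈ FxR (cw F α) S, rt x y (∑ t ∈ T, α t * c * α t⁻¹) = 0

/-! ## 2. The Brauer map on the centre -/

/-- ZIJ: if `E` centralises `Q`, the Brauer map at `Q` is injective on the centre.

Proof.  Suppose `z ≠ 0`.  `z ∉ BKR (cw F α) ⊥ = 0`.  Choose `S ≤ V` maximal with `z ∉ BKR (cw F α) S`.  `Q` is not
contained in `S`: otherwise the coefficients of `z` at the points fixed by `Q` vanish (`S0.FcoStmt` for the frame of
`Per` with `V` acting through the diagonal), in particular at the points fixed by `S`, and `z ∈ BKR (cw F α) S` by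
`S0.FbkStmt`.  Let `q ∈ Q`, `q ∉ S`.  `B = A(S)`, `β`, `αB` (`S0.BqxStmt`), `E1` = the centraliser of `S` in `E`; `B` is in
the class for `φ.comp E1.subtype` (`S0.BclStmt`).  `z' = β z ≠ 0` is central in `B` (every element of `B` is `β a`,
`a ∈ A^S`).  For `P' > S`: `z ∈ BKR (cw F α) P'`, so `z' ∈ BKR (cw F αB) P'` (`S0.BbkStmt`, `P = P'`, `P' ⊔ S = P'`).
`S0.FtrStmt` (`H = V`, `ρ = cw F αB`, `P = S`; the frame of `Per F (φ.comp E1.subtype) αB` with the diagonal action):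
`z' - ∑_(t ∈ T) t c t⁻¹ ∈ BKR (cw F αB) S`, which is `0` (`S0.BbkStmt` with `P = S`, `S0.BkfStmt`: an element of it is
`β a`, `a ∈ BKR (cw F α) S`).  `lam`, `x`, `y`, `u₀` from `Cl.rt` for `B`; `ADX` for `φ.comp E1.subtype`, `S`, `q`
(`E1` centralises `S` and `Q`): `e`; LSA: `rt (z') = rt (∑ t c t⁻¹) = 0`, but `rt (z') = z' ζ_B` and `ζ_B` is a unit:
`z' = 0`, a contradiction. -/
def ZijStmt : Prop := ∀ (ℓ : ℕ) [Fact ℓ.Prime] (F V E A : Type) [Field F] [CharP F ℓ] [CommGroup V]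
  [Fintype V] [Group E] [Finite E] [Ring A] [Algebra F A] (φ : E →* MulAut V) (α : V →* A)
  (Q : Subgroup V), IsPGroup ℓ V → ¬ ℓ ∣ Nat.card E → Cl F φ α → (∀ g, ∀ q ∈ Q, φ g q = q) →
  ∀ z : A, (∀ a, z * a = a * z) → z ∈ BKR (cw F α) Q → z = 0

/-! ## 3. Derivations with given values on `V` -/

/-- DZC: the values at central elements.

Proof.  `ζ = rt x y 1`, `a_i` commutes with `V`.  `N b = ζ δ b - ∑_i D_i(b) a_i` is right `V`-linear:
`N (b v) = ζ δ(b) v + ζ b ∑ e_i(v) a_i v - ∑ D_i(b) v a_i - ∑ e_i(v) b v ζ a_i = N(b) v` (`ζ` is central,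
`S0.ZrtStmt`).  `S2.ThlStmt` (`q = 0`): `∑_k N (z x_k) y_k = (∑_k N(x_k) y_k) z`.  `z` and all `D_i z` are central, so
`N (z x_k) = z N(x_k) + ζ δ(z) x_k - ∑_i D_i(z) x_k a_i`, and the left side is
`z ∑_k N(x_k) y_k + ζ δ(z) ζ - ∑_i D_i(z) rt x y (a_i)`. -/
def DzcStmt : Prop := ∀ (F V A K ι : Type) [Field F] [CommGroup V] [Fintype V] [Ring A]
  [Algebra F A] [Fintype K] [Fintype ι] (α : V →* A) (lam : A →ₗ[F] F) (x y : K → A)
  (δ : A →ₗ[F] A) (D : ι → (A →ₗ[F] A)) (e : ι → V → F) (a : ι → A), RF F α lam x y → Der δ →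
  (∀ i, Der (D i)) → (∀ i v, D i (α v) = e i v • (α v * rt x y 1)) →
  (∀ i, a i ∈ FxR (cw F α) ⊤) → (∀ v, δ (α v) = ∑ i, e i v • (a i * α v)) →
  ∀ z : A, (∀ b, z * b = b * z) →
    rt x y 1 * rt x y 1 * δ z = ∑ i, D i z * rt x y (a i)

/-- EXA: extension of additive functions which vanish on `W`, `V / W` elementary abelian.

Proof.  By induction on the index of `T` (or Zorn): if `T ≠ ⊤` choose `u ∉ T`; `u ^ ℓ ∈ W ≤ T`, so every element of
`T' = T ⊔ zpowers u` is `s u ^ k`, and `k` is determined modulo `ℓ` (`u ^ k ∈ T` implies `ℓ ∣ k`); put `h'(s u ^ k) = h s`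
(well defined: `s u ^ (ℓ k) = s (u ^ ℓ) ^ k`, `h (u ^ ℓ) = 0`). -/
def ExaStmt : Prop := ∀ (ℓ : ℕ) [Fact ℓ.Prime] (F V : Type) [Field F] [CommGroup V] [Finite V]
  (W T : Subgroup V) (h : V → F), W ≤ T → (∀ v : V, v ^ ℓ ∈ W) →
  (∀ s ∈ T, ∀ t ∈ T, h (s * t) = h s + h t) → (∀ w ∈ W, h w = 0) →
  ∃ h' : V → F, (∀ u v, h' (u * v) = h' u + h' v) ∧ ∀ t ∈ T, h' t = h t

/-- HON: 1-cocycles of `V / W` in the centraliser of `W`, `V / W` elementary abelian; `la l` is a basis of the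
additive functions which vanish on `W`.

Proof.  `V` acts on `Ω` (frame of `Per`) through `(v, v)`: `c (v ω) (v a v⁻¹) = c ω a`, `v b_ω v⁻¹ = b_(v ω)`.
`f_ω(v) = c ω (q v)`: `f_ω(u v) = f_ω(u) + f_(u⁻¹ ω)(v)`, `f_ω(w) = 0` for `w ∈ W`; so `f_(w⁻¹ ω)(u) = f_ω(w u) =
f_ω(u w) = f_ω(u)`: `f_ω` depends only on the `W`-orbit of `ω`.  Let `ω₀` be a representative of a `V`-orbit, `T₀` its
stabiliser, `T = T₀ ⊔ W`.  For `s ∈ T`: `s⁻¹ ω₀` is in the `W`-orbit of `ω₀`, so `f_(ω₀)(s t) = f_(ω₀)(s) + f_(ω₀)(t)`: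
EXA gives an additive `h`, `h = f_(ω₀)` on `T`; `k_ω(v) = f_ω(v) - h(v)` for the `ω` in the orbit satisfies the same
cocycle identity and `k_(ω₀) = 0` on `T`.  `r_(u⁻¹ ω₀) := k_(ω₀)(u)` is well defined (`u' = t u`, `t ∈ T₀`:
`k_(ω₀)(t u) = k_(ω₀)(t) + k_(ω₀)(u)`), and `k_ω(v) = r_(v⁻¹ ω) - r_ω`.  `y = ∑ r_ω b_ω`:
`v y v⁻¹ - y = ∑ (r_(v⁻¹ ω) - r_ω) b_ω`; `y` commutes with `W` (`k_ω(w) = 0`).  `h = ∑_l c_l la l` (`spn`), constants
`c_(l, ω)` depending only on the `V`-orbit: `a_l = ∑_ω c_(l, ω) b_ω` commutes with `V`.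
`q v = ∑ f_ω(v) b_ω = ∑_l la l v a_l + (v y v⁻¹ - y)`. -/
def HonStmt : Prop := ∀ (ℓ : ℕ) [Fact ℓ.Prime] (F V E A : Type) [Field F] [CommGroup V]
  [Fintype V] [Group E] [Ring A] [Algebra F A] (φ : E →* MulAut V) (α : V →* A)
  (W : Subgroup V) (r : ℕ) (la : Fin r → V → F) (q : V → A), Per F φ α → (∀ v : V, v ^ ℓ ∈ W) →
  (∀ μ : V → F, (∀ u v, μ (u * v) = μ u + μ v) → (∀ w ∈ W, μ w = 0) →
    ∃ c : Fin r → F, ∀ v, μ v = ∑ l, c l * la l v) →
  (∀ u v, q (u * v) = q u + α u * q v * α u⁻¹) → (∀ w ∈ W, q w = 0) →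
  ∃ (a : Fin r → A) (y : A), (∀ l, a l ∈ FxR (cw F α) ⊤) ∧ (∀ w ∈ W, α w * y = y * α w) ∧
    ∀ v, q v = ∑ l, la l v • a l + (α v * y * α v⁻¹ - y)

end Pool.Agent.PST
end
end -- Pool.Agent.PST.StmtsK1

section -- Pool.Agent.Helper29_PSS.SVH

/-!
# Squad PSS, row SVH: the connection adapted to the two sided action (helper29)
-/

noncomputable section

namespace Pool.Agent.PSS.H29

open Pool.Agent.PSS Pool.Agent.PSS.S2
open Pool.Agent.PFC (tw)

/-- SVH. -/
theorem svh (hT : TorStmt) : SvhStmt := by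
  intro B V E Ω _ _ _ _ φ χ e S hχ he hst
  have hinv : ∀ (g : E) (r : V), φ g⁻¹ (φ g r) = r := by
    intro g r
    rw [← MulAut.mul_apply, ← map_mul, inv_mul_cancel, map_one, MulAut.one_apply]
  obtain ⟨H, hH⟩ := hT (V × V) Ω B (fun ω p => χ (φ (e ω)⁻¹ p.1) - χ p.2)
    (fun ω g => by
      funext p
      rw [he])
    (fun ω g g' => by
      change χ (φ (e ω)⁻¹ (g.1 * g'.1)) - χ (g.2 * g'.2) = _
      rw [map_mul, hχ, hχ]
      abel)
    (fun ω g hg => by
      have h1 : g ∈ MulAction.stabilizer (V × V) ω := hg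
      rw [hst ω] at h1
      obtain ⟨r, -, rfl⟩ := h1
      change χ (φ (e ω)⁻¹ (φ (e ω) r)) - χ r = 0
      rw [hinv, sub_self])
  refine ⟨H, fun u v ω => ?_⟩
  rw [hH (u, v) ω, add_sub_assoc]

end Pool.Agent.PSS.H29
end
end -- Pool.Agent.Helper29_PSS.SVH

section -- Pool.Agent.Helper52_PST.NKB

/-! Row NKB of squad PST: central elements in the Brauer kernel of `V` are nilpotent. -/

open scoped BigOperators

noncomputable section

namespace Pool.Agent.PST.H52

open Pool.Agent.PFC (tw IsTv)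
open Pool.Agent.PSS
open Polynomial

/-- the Fitting idempotent of a non-nilpotent element -/
theorem fitting {F A : Type} [Field F] [Ring A] [Algebra F A] [FiniteDimensional F A] (z : A)
    (hz : ¬ IsNilpotent z) (n : ℕ) : ∃ p : Polynomial F,
    (aeval z p * z ^ n) * (aeval z p * z ^ n) = aeval z p * z ^ n ∧ aeval z p * z ^ n ≠ 0 := by
  have hint : IsIntegral F z := IsIntegral.of_finite F z
  have hne : minpoly F z ≠ 0 := minpoly.ne_zero hint
  obtain ⟨r, hr, hnd⟩ := Polynomial.exists_eq_pow_rootMultiplicity_mul_and_not_dvd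
    (minpoly F z) hne (0 : F)
  set m := (minpoly F z).rootMultiplicity 0 with hm
  have hX : (X - C (0 : F)) = X := by rw [C_0, sub_zero]
  rw [hX] at hr hnd
  have hcop : IsCoprime ((X : Polynomial F) ^ (m + n)) r :=
    IsCoprime.pow_left ((irreducible_X (R := F)).coprime_iff_not_dvd.2 hnd)
  obtain ⟨s, t, hst⟩ := hcop
  have h0 : aeval z ((X : Polynomial F) ^ m * r) = 0 := by
    rw [← hr]; exact minpoly.aeval F z
  have hf : aeval z (s * X ^ m) * z ^ n = aeval z (s * X ^ (m + n)) := by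
    rw [pow_add, ← mul_assoc, map_mul (aeval z) (s * X ^ m) (X ^ n), map_pow, aeval_X]
  refine ⟨s * X ^ m, ?_, ?_⟩
  · rw [hf]
    have h1 : s * X ^ (m + n) = s * X ^ (m + n) * (s * X ^ (m + n)) +
        s * X ^ n * t * (X ^ m * r) := by
      calc s * X ^ (m + n) = s * X ^ (m + n) * (s * X ^ (m + n) + t * r) := by
            rw [hst, mul_one]
        _ = _ := by ring
    have h2 := congrArg (aeval z) h1
    rw [map_add, map_mul (aeval z) (s * X ^ n * t) (X ^ m * r), h0, mul_zero, add_zero,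
      map_mul (aeval z) (s * X ^ (m + n)) (s * X ^ (m + n))] at h2
    exact h2.symm
  · rw [hf]
    intro h
    apply hz
    refine ⟨m, ?_⟩
    have h1 : (X : Polynomial F) ^ m = X ^ m * (s * X ^ (m + n)) + t * (X ^ m * r) := by
      calc (X : Polynomial F) ^ m = X ^ m * (s * X ^ (m + n) + t * r) := by
            rw [hst, mul_one]
        _ = _ := by ring
    have h2 := congrArg (aeval z) h1
    rw [map_add, map_mul (aeval z) (X ^ m) (s * X ^ (m + n)), h, mul_zero, zero_add,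
      map_mul (aeval z) t (X ^ m * r), h0, mul_zero, map_pow, aeval_X] at h2
    exact h2

theorem aeval_central {F A : Type} [Field F] [Ring A] [Algebra F A] {z : A}
    (hz : ∀ a, z * a = a * z) (p : Polynomial F) (a : A) : aeval z p * a = a * aeval z p := by
  have h1 : aeval z p ∈ Algebra.adjoin F ({z} : Set A) := aeval_mem_adjoin_singleton F z
  have h2 : Algebra.adjoin F ({z} : Set A) ≤ Subalgebra.center F A := by
    apply Algebra.adjoin_le
    intro w hw
    rw [Set.mem_singleton_iff] at hw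
    subst hw
    exact Subalgebra.mem_center_iff.2 (fun b => (hz b).symm)
  exact (Subalgebra.mem_center_iff.1 (h2 h1) a).symm

theorem bkr_bot {R H M : Type} [CommRing R] [Group H] [AddCommGroup M] [Module R M]
    (ρ : H →* (M →ₗ[R] M)) : BKR ρ (⊥ : Subgroup H) = ⊥ := by
  have h : {n : M | ∃ (P' : Subgroup H) (S : Finset H) (m : M),
      P' < (⊥ : Subgroup H) ∧ IsTv P' ⊥ S ∧ m ∈ FxR ρ P' ∧ n = ∑ x ∈ S, ρ x m} = ∅ := by
    apply Set.eq_empty_iff_forall_notMem.2
    rintro x ⟨P', S, m, hlt, -⟩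
    exact not_lt_bot hlt
  unfold BKR
  rw [h, Submodule.span_empty]

theorem nkb (hBki : S0.BkiStmt) : NkbStmt := by
  intro F V E A _ _ _ _ _ _ φ α hCl z hz n hzn
  by_contra hnil
  haveI := hCl.fin
  obtain ⟨p, hidem, hne⟩ := fitting (F := F) z hnil n
  set f := aeval z p * z ^ n with hf
  have hpc : ∀ a, aeval z p * a = a * aeval z p := aeval_central hz p
  have hzc : ∀ a, z ^ n * a = a * z ^ n := by
    intro a
    exact ((show Commute z a from hz a).pow_left n)
  have hfc : ∀ a, f * a = a * f := by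
    intro a
    rw [hf, mul_assoc, hzc a, ← mul_assoc, hpc a, mul_assoc]
  have hmem : ∀ (Q : Subgroup V) (w : A), (∀ a, w * a = a * w) → w ∈ FxR (cw F α) Q := by
    intro Q w hw
    rw [mem_cw]
    intro q _
    exact (hw _).symm
  have hfB : f ∈ BKR (cw F α) ⊤ :=
    (hBki F V A α ⊤ (aeval z p) (hmem ⊤ _ hpc) (z ^ n) hzn).1
  have hfb : f ∈ BKR (cw F α) ⊥ := by
    apply hCl.blk ⊥ f (hmem ⊤ f hfc)
    · rw [hidem, sub_self]; exact Submodule.zero_mem _
    · intro a _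
      rw [hfc a, sub_self]; exact Submodule.zero_mem _
    · exact hfB
  rw [bkr_bot, Submodule.mem_bot] at hfb
  exact hne hfb

end Pool.Agent.PST.H52
end
end -- Pool.Agent.Helper52_PST.NKB

section -- Pool.Agent.Helper56_PST.DZU

/-!
# Squad PST, row DZU (helper56): the value of `D_e` at `rt(u) - rt(1)`
-/

set_option autoImplicit false

open scoped BigOperators

noncomputable section

namespace Pool.Agent.PST.H56

open Pool.Agent.PFC (tw IsTv)
open Pool.Agent.PFD.D2b (FrR)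
open Pool.Agent.PSS
open Pool.Agent.PSS.S0 (IsBQ)

section nil

variable {B : Type} [Ring B]

theorem pow_add_cen {a c b : B} (hc : ∀ x, c * x = x * c) (n : ℕ) :
    ∃ d, (a + c * b) ^ n = a ^ n + c * d := by
  induction n with
  | zero => exact ⟨0, by rw [pow_zero, pow_zero, mul_zero, add_zero]⟩
  | succ n ih =>
    obtain ⟨d, hd⟩ := ih
    refine ⟨d * a + a ^ n * b + d * (c * b), ?_⟩
    rw [pow_succ, hd, pow_succ, add_mul, mul_add, mul_add, mul_add, mul_add]
    have h1 : a ^ n * (c * b) = c * (a ^ n * b) := by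
      rw [← mul_assoc, ← hc, mul_assoc]
    rw [h1, mul_assoc, mul_assoc]
    abel

theorem nil_add_cen {a c b : B} (ha : IsNilpotent a) (hc : ∀ x, c * x = x * c)
    (hn : IsNilpotent c) : IsNilpotent (a + c * b) := by
  obtain ⟨n, hn1⟩ := ha
  obtain ⟨m, hm⟩ := hn
  obtain ⟨d, hd⟩ := pow_add_cen (a := a) (b := b) hc n
  refine ⟨n * m, ?_⟩
  rw [pow_mul, hd, hn1, zero_add]
  have h1 : Commute c d := hc d
  rw [h1.mul_pow, hm, zero_mul]

theorem nil_sum_cen {T : Type} (S : Finset T) (c b : T → B) (hc : ∀ t, ∀ x, c t * x = x * c t)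
    (hn : ∀ t, IsNilpotent (c t)) : IsNilpotent (∑ t ∈ S, c t * b t) := by
  classical
  induction S using Finset.induction_on with
  | empty => rw [Finset.sum_empty]; exact IsNilpotent.zero
  | insert t S hS ih =>
    rw [Finset.sum_insert hS, add_comm]
    exact nil_add_cen ih (hc t) (hn t)

end nil

section der

variable {F V E A K : Type} [Field F] [CommGroup V] [Fintype V] [Group E] [Ring A]
  [Algebra F A] [Fintype K] {φ : E →* MulAut V} {α : V →* A} {e : V → F} {D : A →ₗ[F] A} {z0 : A}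

theorem adc_one (he : Adc φ e) : e 1 = 0 := by
  have h := he.add 1 1
  rw [mul_one] at h
  exact left_eq_add.1 h

theorem adc_inv (he : Adc φ e) (v : V) : e v⁻¹ = - e v := by
  have h := he.add v v⁻¹
  rw [mul_inv_cancel, adc_one he] at h
  exact eq_neg_of_add_eq_zero_right h.symm

theorem der_fx (hD : Der D) (hz : ∀ c, c * z0 = z0 * c) (hv : ∀ v, D (α v) = e v • (α v * z0))
    {P : Subgroup V} {a : A} (ha : a ∈ FxR (cw F α) P) : D a ∈ FxR (cw F α) P := by
  rw [mem_cw] at ha ⊢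
  intro q hq
  have h1 := ha q hq
  have h2 := congrArg D h1
  rw [hD, hD, hv] at h2
  have h3 : e q • (α q * z0) * a = a * (e q • (α q * z0)) := by
    rw [smul_mul_assoc, mul_smul_comm, mul_assoc, ← hz, ← mul_assoc, h1, mul_assoc]
  rw [h3, add_comm (D a * α q)] at h2
  exact add_left_cancel h2

theorem der_cw (he : Adc φ e) (hD : Der D) (hz : ∀ c, c * z0 = z0 * c)
    (hv : ∀ v, D (α v) = e v • (α v * z0)) (t : V) (m : A) :
    D (cw F α t m) = cw F α t (D m) := by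
  rw [Pool.Agent.PSS.S0.H6.cw_apply, Pool.Agent.PSS.S0.H6.cw_apply, hD, hD, hv, hv, adc_inv he]
  have h1 : e t • (α t * z0) * (m * α t⁻¹) = e t • (α t * m * α t⁻¹ * z0) := by
    rw [smul_mul_assoc, mul_assoc (α t), ← hz]
    simp only [mul_assoc]
  have h2 : α t * (m * (-e t) • (α t⁻¹ * z0)) = - (e t • (α t * m * α t⁻¹ * z0)) := by
    rw [mul_smul_comm, mul_smul_comm, neg_smul]
    simp only [mul_assoc]
  rw [h1, mul_add, h2]
  abel

theorem der_bk (he : Adc φ e) (hD : Der D) (hz : ∀ c, c * z0 = z0 * c)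
    (hv : ∀ v, D (α v) = e v • (α v * z0)) {P : Subgroup V} {a : A}
    (ha : a ∈ BKR (cw F α) P) : D a ∈ BKR (cw F α) P := by
  refine Submodule.span_induction (p := fun m _ => D m ∈ BKR (cw F α) P) ?_ ?_ ?_ ?_ ha
  · rintro n ⟨P', S, m', hlt, hS, hm', rfl⟩
    refine Submodule.subset_span ⟨P', S, D m', hlt, hS, der_fx hD hz hv hm', ?_⟩
    rw [map_sum]
    exact Finset.sum_congr rfl fun x _ => der_cw he hD hz hv x m'
  · rw [map_zero]; exact Submodule.zero_mem _
  · intro x y _ _ hx hy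
    rw [map_add]; exact Submodule.add_mem _ hx hy
  · intro r x _ hx
    rw [map_smul]; exact Submodule.smul_mem _ _ hx

theorem der_cen (hD : Der D) {z : A} (hz : ∀ c, c * z = z * c) (c : A) : c * D z = D z * c := by
  have h := congrArg D (hz c)
  rw [hD, hD, hz (D c), add_comm] at h
  exact add_right_cancel h

theorem cen_fx {z : A} (hz : ∀ c, c * z = z * c) (P : Subgroup V) : z ∈ FxR (cw F α) P :=
  mem_cw.2 fun q _ => hz (α q)

end der

theorem exists_T {V E : Type} [CommGroup V] [Group E] [Finite E] (φ : E →* MulAut V) :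
    ∃ T : Finset E, ∀ e : E, ∃! t, t ∈ T ∧ ∀ q ∈ (⊤ : Subgroup V), (φ t)⁻¹ q = (φ e)⁻¹ q := by
  classical
  haveI : Fintype E := Fintype.ofFinite E
  obtain ⟨s, hs⟩ : ∃ s : Set.range φ → E, ∀ y, φ (s y) = y :=
    ⟨fun y => y.2.choose, fun y => y.2.choose_spec⟩
  refine ⟨Finset.univ.image (fun e => s ⟨φ e, Set.mem_range_self e⟩), fun e =>
    ⟨s ⟨φ e, Set.mem_range_self e⟩, ⟨Finset.mem_image.2 ⟨e, Finset.mem_univ _, rfl⟩, ?_⟩, ?_⟩⟩
  · intro q _
    rw [hs]
  · rintro t ⟨ht, ht2⟩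
    obtain ⟨e', -, rfl⟩ := Finset.mem_image.1 ht
    have h1 : (φ e')⁻¹ = (φ e)⁻¹ := by
      ext q
      have h2 := ht2 q trivial
      rw [hs] at h2
      exact h2
    have h3 : φ e' = φ e := inv_injective h1
    have h4 : (⟨φ e', Set.mem_range_self e'⟩ : Set.range φ) = ⟨φ e, Set.mem_range_self e⟩ :=
      Subtype.ext h3
    rw [h4]

theorem nil_unip {F V B : Type} {ℓ : ℕ} [Fact ℓ.Prime] [Field F] [CharP F ℓ] [CommGroup V]
    [Ring B] [Algebra F B] (hV : IsPGroup ℓ V) (αB : V →* B) (w : V) :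
    IsNilpotent (αB w - 1) := by
  rcases subsingleton_or_nontrivial B with hB | hB
  · exact ⟨1, Subsingleton.elim _ _⟩
  · haveI : CharP B ℓ := charP_of_injective_algebraMap (algebraMap F B).injective ℓ
    obtain ⟨k, hk⟩ := hV w
    refine ⟨ℓ ^ k, ?_⟩
    rw [sub_pow_char_pow_of_commute (p := ℓ) _ (Commute.one_right (αB w)), ← map_pow, hk, map_one, one_pow,
      sub_self]

theorem dzu (nkb : NkbStmt) (bqx : S0.BqxStmt) (bpu : S0.BpuStmt) (mck : S0.MckStmt)
    (zrt : S0.ZrtStmt) : DzuStmt := by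
  intro ℓ _ F V E A K _ _ _ _ _ _ _ _ _ φ α lam x y e D hV hE hC hR he hD hDv u
  classical
  have hℓ : (ℓ : F) = 0 := CharP.cast_eq_zero F ℓ
  have hcen : ∀ a ∈ FxR (cw F α) (⊤ : Subgroup V), ∀ c : A, c * rt x y a = rt x y a * c :=
    fun a ha c => zrt F V A K α lam x y hR a ha c
  have h1fx : (1 : A) ∈ FxR (cw F α) (⊤ : Subgroup V) :=
    mem_cw.2 fun q _ => by rw [mul_one, one_mul]
  have hufx : ∀ v, α v ∈ FxR (cw F α) (⊤ : Subgroup V) := fun v => al_mem_cw v _
  set ζ : A := rt x y 1 with hζ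
  have hzc : ∀ c, c * ζ = ζ * c := hcen 1 h1fx
  have huc : ∀ c, c * rt x y (α u) = rt x y (α u) * c := hcen _ (hufx u)
  -- the Brauer quotient
  obtain ⟨B, _, _, αB, β, hB⟩ := bqx F V A α ⊤
  obtain ⟨-, -, lamB, KB, _, xB, yB, hRB, hlB⟩ := bpu ℓ F V E A B K φ α ⊤ αB β lam x y (CE φ ⊤)
    hℓ hV hC.per hC.uni hR hB (fun e => Iff.rfl)
  choose n n' hn using hC.uni
  obtain ⟨T, hT⟩ := exists_T φ
  have hm := mck ℓ F V E A B K KB φ α ⊤ αB β lam x y lamB xB yB n n' T hℓ hV hC.per hR hB hRB hlB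
    hn hT
  -- `V` is central in `B`
  have hVB : ∀ v, ∀ b : B, αB v * b = b * αB v := by
    intro v b
    obtain ⟨a, ha, rfl⟩ := hB.surj b
    rw [← hB.om, ← hB.mul _ (hufx v) _ ha, ← hB.mul _ ha _ (hufx v), mem_cw.1 ha v trivial]
  obtain ⟨s, hs, hsB⟩ := hB.surj (∑ k, xB k * yB k)
  -- additivity of `β`
  have hB0 : β 0 = 0 := by
    have h := hB.smul 0 0 (Submodule.zero_mem _)
    rwa [zero_smul, zero_smul] at h
  have hBsub : ∀ a ∈ FxR (cw F α) (⊤ : Subgroup V), ∀ b ∈ FxR (cw F α) (⊤ : Subgroup V),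
      β (a - b) = β a - β b := by
    intro a ha b hb
    have h := hB.add (a - b) (Submodule.sub_mem _ ha hb) b hb
    rw [sub_add_cancel] at h
    exact (sub_eq_of_eq_add h).symm
  have hBsum : ∀ (f : E → A), (∀ t, f t ∈ FxR (cw F α) (⊤ : Subgroup V)) → ∀ S : Finset E,
      β (∑ t ∈ S, f t) = ∑ t ∈ S, β (f t) := by
    intro f hf S
    induction S using Finset.induction_on with
    | empty => rw [Finset.sum_empty, Finset.sum_empty, hB0]
    | insert t S hS ih =>
      rw [Finset.sum_insert hS, Finset.sum_insert hS,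
        hB.add _ (hf t) _ (Submodule.sum_mem _ fun t _ => hf t), ih]
  -- the two elements of `BK`
  have key : ∀ v : V, rt x y (α v) - ∑ t ∈ T, α (φ t v) * s ∈ BKR (cw F α) (⊤ : Subgroup V) := by
    intro v
    have hfx : ∀ t, α (φ t v) * s ∈ FxR (cw F α) (⊤ : Subgroup V) := fun t =>
      Pool.Agent.PSS.S0.H6.fx_mul α (hufx _) hs
    have hr : rt x y (α v) ∈ FxR (cw F α) (⊤ : Subgroup V) := cen_fx (hcen _ (hufx v)) _
    rw [← hB.ker _ (Submodule.sub_mem _ hr (Submodule.sum_mem _ fun t _ => hfx t)),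
      hBsub _ hr _ (Submodule.sum_mem _ fun t _ => hfx t), hBsum _ hfx]
    have h1 : β (rt x y (α v)) = ∑ t ∈ T, ∑ k, xB k * β (n t * α v * n' t) * yB k :=
      hm (α v) (hufx v)
    rw [h1, ← Finset.sum_sub_distrib]
    refine Finset.sum_eq_zero fun t _ => ?_
    have h2 : n t * α v * n' t = α (φ t v) := by
      rw [(hn t).2.2 v, mul_assoc, (hn t).1, mul_one]
    rw [h2, hB.om, hB.mul _ (hufx _) _ hs, hB.om, hsB, Finset.mul_sum, sub_eq_zero]
    refine Finset.sum_congr rfl fun k _ => ?_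
    rw [← hVB, mul_assoc]
  have hm1 := key u
  have hm0 : ζ - ∑ t ∈ T, s ∈ BKR (cw F α) (⊤ : Subgroup V) := by
    have h := key 1
    simp only [map_one, one_mul] at h
    exact h
  -- the element
  have hDm1 := der_bk he hD hzc hDv hm1
  have hDm0 := der_bk he hD hzc hDv hm0
  have hzm0 := Submodule.smul_mem _ (e u)
    ((Pool.Agent.PSS.S0.H6.bki F V A α ⊤ ζ (cen_fx hzc _) _ hm0).1)
  have hDs : D s ∈ FxR (cw F α) (⊤ : Subgroup V) := der_fx hD hzc hDv hs
  have hzs : ζ * s ∈ FxR (cw F α) (⊤ : Subgroup V) :=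
    Pool.Agent.PSS.S0.H6.fx_mul α (cen_fx hzc _) hs
  set w : A := e u • (ζ * s) + D s with hw
  have hwfx : w ∈ FxR (cw F α) (⊤ : Subgroup V) :=
    Submodule.add_mem _ (Submodule.smul_mem _ _ hzs) hDs
  set p : A := D (rt x y (α u) - ζ) - e u • (ζ * ζ) with hp
  have hpe : p - ∑ t ∈ T, (α (φ t u) - 1) * w ∈ BKR (cw F α) (⊤ : Subgroup V) := by
    have h := Submodule.sub_mem _ (Submodule.sub_mem _ hDm1 hDm0) hzm0
    have h2 : p - ∑ t ∈ T, (α (φ t u) - 1) * w =
        D (rt x y (α u) - ∑ t ∈ T, α (φ t u) * s) - D (ζ - ∑ t ∈ T, s) -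
          e u • (ζ * (ζ - ∑ t ∈ T, s)) := by
      rw [hp, map_sub, map_sub, map_sub, map_sum, map_sum, mul_sub, smul_sub, Finset.mul_sum,
        Finset.smul_sum]
      have h3 : ∀ t, D (α (φ t u) * s) = (α (φ t u) - 1) * w + e u • (ζ * s) + D s := by
        intro t
        rw [hD, hDv, he.inv, hw, sub_mul, mul_add, one_mul, smul_mul_assoc, mul_smul_comm,
          mul_assoc]
        abel
      rw [Finset.sum_congr rfl fun t _ => h3 t, Finset.sum_add_distrib, Finset.sum_add_distrib]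
      abel
    rw [h2]
    exact h
  -- centrality
  have hpc : ∀ a, p * a = a * p := by
    intro a
    have h1 : ∀ c, c * (rt x y (α u) - ζ) = (rt x y (α u) - ζ) * c := fun c => by
      rw [mul_sub, sub_mul, huc, hzc]
    have h2 := der_cen hD h1 a
    have h3 : ζ * ζ * a = a * (ζ * ζ) := by
      rw [mul_assoc, ← hzc a, ← mul_assoc, ← hzc a, mul_assoc]
    rw [hp, sub_mul, mul_sub, h2, smul_mul_assoc, mul_smul_comm, h3]
  have hpfx : p ∈ FxR (cw F α) (⊤ : Subgroup V) := cen_fx (fun c => (hpc c).symm) _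
  have htfx : ∀ t, (α (φ t u) - 1) * w ∈ FxR (cw F α) (⊤ : Subgroup V) := fun t =>
    Pool.Agent.PSS.S0.H6.fx_mul α (Submodule.sub_mem _ (hufx _) h1fx) hwfx
  have hβp : β p = ∑ t ∈ T, (αB (φ t u) - 1) * β w := by
    have h := (hB.ker _ (Submodule.sub_mem _ hpfx (Submodule.sum_mem _ fun t _ => htfx t))).2 hpe
    rw [hBsub _ hpfx _ (Submodule.sum_mem _ fun t _ => htfx t), hBsum _ htfx, sub_eq_zero] at h
    rw [h]
    refine Finset.sum_congr rfl fun t _ => ?_
    rw [hB.mul _ (Submodule.sub_mem _ (hufx _) h1fx) _ hwfx, hBsub _ (hufx _) _ h1fx, hB.one,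
      hB.om]
  have hnil : IsNilpotent (β p) := by
    rw [hβp]
    refine nil_sum_cen T (fun t => αB (φ t u) - 1) (fun _ => β w) ?_ ?_
    · intro t b
      rw [sub_mul, mul_sub, hVB, one_mul, mul_one]
    · intro t
      exact nil_unip (F := F) hV αB _
  obtain ⟨N, hN⟩ := hnil
  have hpow : ∀ N : ℕ, p ^ N ∈ FxR (cw F α) (⊤ : Subgroup V) ∧ β (p ^ N) = (β p) ^ N := by
    intro N
    induction N with
    | zero => rw [pow_zero, pow_zero]; exact ⟨h1fx, hB.one⟩
    | succ N ih =>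
      rw [pow_succ, pow_succ]
      exact ⟨Pool.Agent.PSS.S0.H6.fx_mul α ih.1 hpfx, by rw [hB.mul _ ih.1 _ hpfx, ih.2]⟩
  exact nkb F V E A φ α hC p hpc N ((hB.ker _ (hpow N).1).1 (by rw [(hpow N).2, hN]))

end Pool.Agent.PST.H56
end
end -- Pool.Agent.Helper56_PST.DZU

section -- Pool.Agent.Helper71_PSS.CNH

/-!
# Squad PSS, row CNH
-/

open scoped BigOperators

noncomputable section

namespace Pool.Agent.PSS.S2.H71

open Pool.Agent.PFD.D2b (FrR)

theorem cnh : CnhStmt := by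
  intro R V A Ω _ _ _ _ _ _ q α χ H b c hf hχ hH
  refine ⟨hχ, fun a v => ?_⟩
  -- `χ 1` and `χ v⁻¹`
  obtain ⟨d₁, h1⟩ := hχ 1 1
  obtain ⟨d₂, h2⟩ := hχ v⁻¹ v
  rw [mul_one] at h1
  rw [inv_mul_cancel] at h2
  rw [smul_eq_mul] at h1 h2
  choose r hr using fun ω => hH v⁻¹ ω
  simp only [smul_eq_mul] at hr
  have key : ∀ ω, H (((1 : V), v⁻¹) • ω) - H ω - χ v = q * (r ω + d₁ + d₂) := by
    intro ω
    linear_combination hr ω + h1 + h2
  have e1 : Nh H b c (a * α v) =
      ∑ ω, c ω a • (H (((1 : V), v⁻¹) • ω) • (b ω * α v)) := by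
    have hbij : Function.Bijective (fun ω : Ω => ((1 : V), v⁻¹) • ω) :=
      MulAction.bijective ((1 : V), v⁻¹)
    have h3 : Nh H b c (a * α v) = ∑ ω, c ω (a * α v) • (H ω • b ω) := by
      simp only [Nh, LinearMap.sum_apply, LinearMap.smulRight_apply]
    rw [h3]
    refine (Fintype.sum_bijective _ hbij _ _ fun ω => ?_).symm
    have hb : b (((1 : V), v⁻¹) • ω) = b ω * α v := by
      rw [hf.1]
      change α 1 * (b ω * α (v⁻¹)⁻¹) = _
      rw [map_one, one_mul, inv_inv]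
    have hc : c (((1 : V), v⁻¹) • ω) (a * α v) = c ω a := by
      have h4 := hf.2.1 ((1 : V), v⁻¹) ω a
      have h5 : bw R α ((1 : V), v⁻¹) a = a * α v := by
        change α 1 * (a * α (v⁻¹)⁻¹) = _
        rw [map_one, one_mul, inv_inv]
      rw [h5] at h4
      exact h4
    rw [hb, hc]
  have e2 : Nh H b c a * α v = ∑ ω, c ω a • (H ω • (b ω * α v)) := by
    simp only [Nh, LinearMap.sum_apply, LinearMap.smulRight_apply, Finset.sum_mul,
      smul_mul_assoc]
  have e3 : a * α v = ∑ ω, c ω a • (b ω * α v) := by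
    conv_lhs => rw [← hf.2.2 a]
    simp only [Finset.sum_mul, smul_mul_assoc]
  refine ⟨∑ ω, c ω a • ((r ω + d₁ + d₂) • (b ω * α v)), ?_⟩
  have e4 : χ v • (a * α v) = ∑ ω, c ω a • (χ v • (b ω * α v)) := by
    conv_lhs => rw [e3]
    rw [Finset.smul_sum]
    exact Finset.sum_congr rfl fun ω _ => smul_comm _ _ _
  rw [e1, e2, e4, ← Finset.sum_add_distrib, ← Finset.sum_sub_distrib, Finset.smul_sum]
  refine Finset.sum_congr rfl fun ω _ => ?_
  rw [smul_comm q (c ω a), smul_smul q, ← key ω, sub_smul, sub_smul, ← smul_add, ← smul_sub,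
    sub_add_eq_sub_sub]

end Pool.Agent.PSS.S2.H71
end
end -- Pool.Agent.Helper71_PSS.CNH

section -- Pool.Agent.Helper76_PSS.EOR

/-!
# EOR: the twist can be chosen constant on orbits
-/

namespace Pool.Agent.PSS.S2.H76

open Pool.Agent.PSS
open Pool.Agent.PFC (tw IsTv)
open Pool.Agent.PFD.D2b (FrR)

theorem stab_smul {V Ω : Type} [CommGroup V] [MulAction (V × V) Ω] (p : V × V) (ω : Ω) :
    MulAction.stabilizer (V × V) (p • ω) = MulAction.stabilizer (V × V) ω := by
  ext g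
  rw [MulAction.mem_stabilizer_iff, MulAction.mem_stabilizer_iff, smul_smul, mul_comm g p,
    ← smul_smul]
  exact ⟨fun h => smul_left_cancel p h, fun h => by rw [h]⟩

theorem eor : EorStmt := by
  intro R V E A Ω _ _ _ _ _ _ _ φ α b c hP
  classical
  have hne : Nonempty (E × Subgroup V) := ⟨(1, ⊥)⟩
  have key : ∃ F : Subgroup (V × V) → E × Subgroup V, ∀ ω : Ω,
      MulAction.stabilizer (V × V) ω
        = tw (φ (F (MulAction.stabilizer (V × V) ω)).1).toMonoidHom
            (F (MulAction.stabilizer (V × V) ω)).2 := by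
    refine ⟨fun T => if h : ∃ p : E × Subgroup V, T = tw (φ p.1).toMonoidHom p.2
      then h.choose else Classical.arbitrary _, fun ω => ?_⟩
    have h : ∃ p : E × Subgroup V,
        MulAction.stabilizer (V × V) ω = tw (φ p.1).toMonoidHom p.2 := by
      obtain ⟨e, S, hS⟩ := hP.st ω
      exact ⟨(e, S), hS⟩
    simp only [dif_pos h]
    exact h.choose_spec
  obtain ⟨F, hF⟩ := key
  refine ⟨fun ω => (F (MulAction.stabilizer (V × V) ω)).1,
    fun ω => (F (MulAction.stabilizer (V × V) ω)).2, fun p ω => ?_, fun p ω => ?_, hF⟩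
  · simp only [stab_smul]
  · simp only [stab_smul]

end Pool.Agent.PSS.S2.H76
end -- Pool.Agent.Helper76_PSS.EOR

section -- Pool.Agent.Helper91_PSS.THL

/-!
# Squad PSS, block S2, row THL
-/

open scoped BigOperators

namespace Pool.Agent.PSS.S2.H91

/-- THL -/
theorem thl : ThlStmt := by
  intro R V A K _ _ _ _ _ _ q α lam x y f hRF hf a
  choose d hd using hf
  have hd' : ∀ b v, f (b * α v) = f b * α v + q • d b v := by
    intro b v
    rw [← hd b v]
    abel
  -- the expansion of `f (a * x k)`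
  have h1 : ∀ k, f (a * x k) =
      (∑ j, ∑ v, lam (α v⁻¹ * y j * (a * x k)) • (f (x j) * α v)) +
        q • ∑ j, ∑ v, lam (α v⁻¹ * y j * (a * x k)) • d (x j) v := by
    intro k
    conv_lhs => rw [← hRF.e1 (a * x k)]
    rw [map_sum, Finset.smul_sum, ← Finset.sum_add_distrib]
    refine Finset.sum_congr rfl fun j _ => ?_
    rw [map_sum, Finset.smul_sum, ← Finset.sum_add_distrib]
    refine Finset.sum_congr rfl fun v _ => ?_
    rw [map_smul, hd', smul_add, smul_comm q]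
  -- the main term
  have h2 : ∀ j, ∑ k, ∑ v, lam (α v⁻¹ * y j * (a * x k)) • (α v * y k) = y j * a := by
    intro j
    conv_rhs => rw [← hRF.e2 (y j * a)]
    refine Finset.sum_congr rfl fun k _ => ?_
    rw [← Equiv.sum_comp (Equiv.inv V)]
    refine Finset.sum_congr rfl fun v _ => ?_
    rw [Equiv.inv_apply, inv_inv]
    congr 1
    have h3 : α v * y j * (a * x k) = α v * (y j * a * x k) := by
      simp only [mul_assoc]
    rw [h3, hRF.sym]
    simp only [mul_assoc]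
  refine ⟨∑ k, (∑ j, ∑ v, lam (α v⁻¹ * y j * (a * x k)) • d (x j) v) * y k, ?_⟩
  have h4 : ∑ k, f (a * x k) * y k =
      (∑ k, (∑ j, ∑ v, lam (α v⁻¹ * y j * (a * x k)) • (f (x j) * α v)) * y k) +
      q • ∑ k, (∑ j, ∑ v, lam (α v⁻¹ * y j * (a * x k)) • d (x j) v) * y k := by
    rw [Finset.smul_sum, ← Finset.sum_add_distrib]
    refine Finset.sum_congr rfl fun k _ => ?_
    rw [h1 k, add_mul, smul_mul_assoc]
  have h5 : (∑ k, (∑ j, ∑ v, lam (α v⁻¹ * y j * (a * x k)) • (f (x j) * α v)) * y k) =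
      (∑ j, f (x j) * y j) * a := by
    rw [Finset.sum_mul]
    simp_rw [Finset.sum_mul]
    rw [Finset.sum_comm]
    refine Finset.sum_congr rfl fun j _ => ?_
    rw [mul_assoc (f (x j)) (y j) a, ← h2 j, Finset.mul_sum]
    refine Finset.sum_congr rfl fun k _ => ?_
    rw [Finset.mul_sum]
    refine Finset.sum_congr rfl fun v _ => ?_
    rw [smul_mul_assoc, mul_smul_comm, mul_assoc (f (x j))]
  rw [h4, h5, add_sub_cancel_left]

end Pool.Agent.PSS.S2.H91
end -- Pool.Agent.Helper91_PSS.THL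

section -- Pool.Agent.Helper95_PSS.TOR

/-!
# PSS.TOR (helper95): trivialisation of a cocycle of translations on a set with an action
-/

noncomputable section

namespace Pool.Agent.PSS.S2.H95

open Pool.Agent.PSS.S2

theorem tor : TorStmt := by
  intro G Ω B _ _ _ ψ h1 h2 h3
  have hex : ∀ ω : Ω, ∃ g : G,
      g • (Quotient.out (Quotient.mk (MulAction.orbitRel G Ω) ω)) = ω := by
    intro ω
    have h : (MulAction.orbitRel G Ω).r
        (Quotient.out (Quotient.mk (MulAction.orbitRel G Ω) ω)) ω :=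
      Quotient.exact (Quotient.out_eq (Quotient.mk (MulAction.orbitRel G Ω) ω))
    obtain ⟨g, hg⟩ := (MulAction.orbitRel_apply (G := G)).1 h
    refine ⟨g⁻¹, ?_⟩
    rw [← hg]
    exact inv_smul_smul g ω
  have hr : ∀ (g : G) (ω : Ω), Quotient.mk (MulAction.orbitRel G Ω) (g • ω) =
      Quotient.mk (MulAction.orbitRel G Ω) ω := by
    intro g ω
    exact Quotient.sound ((MulAction.orbitRel_apply (G := G)).2 ⟨g, rfl⟩)
  choose s hs using hex
  refine ⟨fun ω => ψ (Quotient.out (Quotient.mk (MulAction.orbitRel G Ω) ω)) (s ω), ?_⟩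
  intro g ω
  show ψ (Quotient.out (Quotient.mk (MulAction.orbitRel G Ω) (g • ω))) (s (g • ω)) = _
  have e1 := hs (g • ω)
  have e2 := hs ω
  rw [hr g ω] at e1 ⊢
  set r : Ω := Quotient.out (Quotient.mk (MulAction.orbitRel G Ω) ω) with hrd
  have e3 : ((g * s ω)⁻¹ * s (g • ω)) • r = r := by
    rw [mul_smul, e1, inv_smul_eq_iff, mul_smul, e2]
  have e4 : s (g • ω) = (g * s ω) * ((g * s ω)⁻¹ * s (g • ω)) := by
    rw [mul_inv_cancel_left]
  have e5 : ψ r g = ψ ω g := by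
    rw [← h1 r (s ω), e2]
  rw [e4, h2 r, h3 r _ e3, add_zero, h2 r, e5, add_comm]

end Pool.Agent.PSS.S2.H95
end
end -- Pool.Agent.Helper95_PSS.TOR

section -- Pool.Agent.Helper85_PST.DEX

/-! Squad PST, row DEX (helper85): the derivation of an additive invariant function. -/

set_option autoImplicit false

open scoped BigOperators

noncomputable section

namespace Pool.Agent.PST.H85

open Pool.Agent.PFC (tw IsTv)
open Pool.Agent.PFD.D2b (FrR)
open Pool.Agent.PSS Pool.Agent.PST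

theorem dex : DexStmt := by
  intro F V E A K _ _ _ _ _ _ _ φ α lam x y e hper hrf he
  obtain ⟨Ω, _, _, b, c, hfr, hst⟩ := hper
  obtain ⟨e', S', he', -, hstab⟩ := S2.H76.eor F V E A Ω φ α b c ⟨hfr, hst⟩
  obtain ⟨H, hH⟩ := Pool.Agent.PSS.H29.svh S2.H95.tor F V E Ω φ e e' S' he.add he' hstab
  have hH' : ∀ (u v : V) (ω : Ω), H ((u, v) • ω) = H ω + e u - e v := by
    intro u v ω
    rw [hH, he.inv]
  have h1 : e 1 = 0 := by
    have h := he.add 1 1
    rw [mul_one] at h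
    exact left_eq_add.1 h
  have hcn : S2.Cn 0 α e (S2.Nh H b c) := S2.H71.cnh F V A Ω 0 α e H b c hfr
    (fun u v => (S2.cg_zero _ _).2 (he.add u v)) (fun v ω => (S2.cg_zero _ _).2 (by
      rw [hH', h1, add_zero]))
  set N := S2.Nh H b c with hNdef
  have hN1 : ∀ a v, N (a * α v) = N a * α v + e v • (a * α v) :=
    fun a v => (S2.cg_zero _ _).1 (hcn.lin a v)
  have hN2 : ∀ u a, N (α u * a) - α u * N a = e u • (α u * a) := by
    intro u b'
    rw [hNdef, S2.nh_apply, S2.nh_apply, Finset.mul_sum]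
    have e1 : ∑ ω, (c ω (α u * b') * H ω) • b ω =
        ∑ ω, (c ω b' * H ((u, (1 : V)) • ω)) • (α u * b ω) := by
      rw [← Equiv.sum_comp (MulAction.toPerm ((u, (1 : V)) : V × V))]
      refine Finset.sum_congr rfl fun ω _ => ?_
      change (c ((u, (1 : V)) • ω) (α u * b') * H ((u, (1 : V)) • ω)) •
        b ((u, (1 : V)) • ω) = _
      have h1 := hfr.1 (u, 1) ω
      change b ((u, (1 : V)) • ω) = α u * (b ω * α 1⁻¹) at h1
      rw [inv_one, map_one, mul_one] at h1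
      have h2 := hfr.2.1 (u, 1) ω b'
      change c ((u, (1 : V)) • ω) (α u * (b' * α 1⁻¹)) = c ω b' at h2
      rw [inv_one, map_one, mul_one] at h2
      rw [h1, h2]
    rw [e1, ← Finset.sum_sub_distrib]
    have e2 : e u • (α u * b') = ∑ ω, (c ω b' * e u) • (α u * b ω) := by
      conv_lhs => rw [← hfr.2.2 b']
      rw [Finset.mul_sum, Finset.smul_sum]
      refine Finset.sum_congr rfl fun ω _ => ?_
      rw [mul_smul_comm, smul_smul, mul_comm]
    rw [e2]
    refine Finset.sum_congr rfl fun ω _ => ?_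
    rw [mul_smul_comm, ← sub_smul, ← mul_sub, hH', h1]
    congr 2
    ring
  let D : A →ₗ[F] A := ∑ k, (LinearMap.mulRight F (y k)).comp
    (N.comp (LinearMap.mulRight F (x k)) - LinearMap.mulRight F (N (x k)))
  have hD : ∀ a, D a = ∑ k, (N (a * x k) - a * N (x k)) * y k := by
    intro a
    simp only [D, LinearMap.sum_apply, LinearMap.comp_apply, LinearMap.sub_apply,
      LinearMap.mulRight_apply]
  refine ⟨D, ?_, ?_⟩
  · intro a b'
    let f : A →ₗ[F] A := N.comp (LinearMap.mulLeft F a) - (LinearMap.mulLeft F a).comp N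
    have hf : ∀ z, f z = N (a * z) - a * N z := fun z => rfl
    have hfl : S2.RLq 0 α f := by
      intro z v
      rw [S2.cg_zero, hf, hf, ← mul_assoc, hN1, hN1, mul_add, mul_smul_comm, sub_mul,
        ← mul_assoc, ← mul_assoc]
      abel
    have hthl := (S2.cg_zero _ _).1 (S2.H91.thl F V A K 0 α lam x y f hrf hfl b')
    have e1 : (∑ k, f (x k) * y k) = D a := by
      rw [hD]
      exact Finset.sum_congr rfl fun k _ => by rw [hf]
    rw [e1] at hthl
    rw [← hthl, hD (a * b'), hD b', Finset.mul_sum, ← Finset.sum_add_distrib]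
    refine Finset.sum_congr rfl fun k _ => ?_
    rw [hf, ← mul_assoc a b' (x k), ← mul_assoc a _ (y k), ← add_mul]
    congr 1
    rw [mul_sub, mul_assoc a b' (N (x k))]
    abel
  · intro v
    rw [hD]
    have e1 : ∀ k, (N (α v * x k) - α v * N (x k)) * y k = e v • (α v * (x k * 1 * y k)) := by
      intro k
      rw [hN2, smul_mul_assoc, mul_one, mul_assoc]
    rw [Finset.sum_congr rfl fun k _ => e1 k, ← Finset.smul_sum, ← Finset.mul_sum]
    rfl

end Pool.Agent.PST.H85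
end
end -- Pool.Agent.Helper85_PST.DEX

section -- Pool.Agent.Helper44_PST.HON

/-!
# Squad PST, row HON: 1-cocycles of `V / W` in the centraliser of `W`
-/

set_option autoImplicit false

open scoped BigOperators

noncomputable section

namespace Pool.Agent.PST.H44

open Pool.Agent.PFC (tw IsTv)
open Pool.Agent.PFD.D2b (FrR)
open Pool.Agent.PSS
open Pool.Agent.PST

/-- cocycles with values in functions on a `V`-set -/
theorem coc (exa : ExaStmt) (ℓ : ℕ) [Fact ℓ.Prime] (F V Ω : Type) [Field F] [CommGroup V]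
    [Finite V] [MulAction V Ω] (W : Subgroup V) (hW : ∀ v : V, v ^ ℓ ∈ W) (f : Ω → V → F)
    (h1 : ∀ ω u v, f ω (u * v) = f ω u + f (u⁻¹ • ω) v) (h2 : ∀ ω, ∀ w ∈ W, f ω w = 0) :
    ∃ (h : MulAction.orbitRel.Quotient V Ω → V → F) (r : Ω → F),
      (∀ o u v, h o (u * v) = h o u + h o v) ∧ (∀ o, ∀ w ∈ W, h o w = 0) ∧
      ∀ ω v, f ω v = h (Quotient.mk _ ω) v + (r (v⁻¹ • ω) - r ω) := by
  have h3 : ∀ ω u, ∀ w ∈ W, f (w⁻¹ • ω) u = f ω u := by
    intro ω u w hw
    have e1 := h1 ω w u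
    have e2 := h1 ω u w
    rw [h2 ω w hw, zero_add] at e1
    rw [h2 _ w hw, add_zero] at e2
    rw [← e1, mul_comm, e2]
  have h4 : ∀ ω₀ : Ω, ∀ s ∈ MulAction.stabilizer V ω₀ ⊔ W, ∀ u, f (s⁻¹ • ω₀) u = f ω₀ u := by
    intro ω₀ s hs u
    obtain ⟨t, ht, w, hw, rfl⟩ := Subgroup.mem_sup.1 hs
    have e1 : t⁻¹ • ω₀ = ω₀ := (MulAction.stabilizer V ω₀).inv_mem ht
    rw [mul_inv_rev, mul_smul, e1]
    exact h3 ω₀ u w hw
  have h5 : ∀ o : MulAction.orbitRel.Quotient V Ω, ∃ h' : V → F,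
      (∀ u v, h' (u * v) = h' u + h' v) ∧
      ∀ t ∈ MulAction.stabilizer V o.out ⊔ W, h' t = f o.out t := by
    intro o
    apply exa ℓ F V W (MulAction.stabilizer V o.out ⊔ W) (f o.out) le_sup_right hW
    · intro s hs t _
      rw [h1, h4 _ s hs]
    · exact h2 o.out
  choose h h6 h7 using h5
  have h8 : ∀ ω : Ω, ∃ g : V, g • (Quotient.mk (MulAction.orbitRel V Ω) ω).out = ω := by
    intro ω
    have e1 : (MulAction.orbitRel V Ω).r ω (Quotient.mk (MulAction.orbitRel V Ω) ω).out :=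
      (MulAction.orbitRel V Ω).symm (Quotient.mk_out (s := MulAction.orbitRel V Ω) ω)
    exact (MulAction.orbitRel_apply.1 e1)
  choose g hg using h8
  refine ⟨h, fun ω => f (Quotient.mk (MulAction.orbitRel V Ω) ω).out (g ω)⁻¹ -
    h (Quotient.mk _ ω) (g ω)⁻¹, h6, ?_, ?_⟩
  · intro o w hw
    rw [h7 o w (Subgroup.mem_sup_right hw)]
    exact h2 _ w hw
  · intro ω v
    have e0 : (Quotient.mk (MulAction.orbitRel V Ω) (v⁻¹ • ω)) =
        Quotient.mk (MulAction.orbitRel V Ω) ω :=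
      Quotient.sound (MulAction.orbitRel_apply.2 ⟨v⁻¹, rfl⟩)
    have e3 : g (v⁻¹ • ω) • (Quotient.mk (MulAction.orbitRel V Ω) ω).out = v⁻¹ • ω := by
      have e4 := hg (v⁻¹ • ω)
      rw [e0] at e4
      exact e4
    have e5 := hg ω
    show f ω v = h (Quotient.mk _ ω) v +
      ((f (Quotient.mk (MulAction.orbitRel V Ω) (v⁻¹ • ω)).out (g (v⁻¹ • ω))⁻¹ -
        h (Quotient.mk _ (v⁻¹ • ω)) (g (v⁻¹ • ω))⁻¹) -
      (f (Quotient.mk (MulAction.orbitRel V Ω) ω).out (g ω)⁻¹ - h (Quotient.mk _ ω) (g ω)⁻¹))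
    rw [e0]
    generalize Quotient.mk (MulAction.orbitRel V Ω) ω = o at *
    generalize g ω = a at *
    generalize g (v⁻¹ • ω) = b at *
    -- `b⁻¹ = t * (a⁻¹ * v)`
    have ht : b⁻¹ * (v⁻¹ * a) ∈ MulAction.stabilizer V o.out := by
      rw [MulAction.mem_stabilizer_iff, mul_smul, mul_smul, e5, ← e3, inv_smul_smul]
    have e6 : b⁻¹ = (b⁻¹ * (v⁻¹ * a)) * (a⁻¹ * v) := by group
    have e7 : (b⁻¹ * (v⁻¹ * a))⁻¹ • o.out = o.out :=
      (MulAction.stabilizer V o.out).inv_mem ht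
    have e8 : f o.out b⁻¹ = f o.out (b⁻¹ * (v⁻¹ * a)) + f o.out (a⁻¹ * v) := by
      conv_lhs => rw [e6]
      rw [h1, e7]
    have e9 : h o b⁻¹ = h o (b⁻¹ * (v⁻¹ * a)) + h o (a⁻¹ * v) := by
      conv_lhs => rw [e6]
      rw [h6]
    have e10 := h7 o _ (Subgroup.mem_sup_left (T := W) ht)
    have e11 : f o.out (a⁻¹ * v) = f o.out a⁻¹ + f ω v := by
      rw [h1, inv_inv, e5]
    rw [e8, e9, e10, e11, h6]
    ring

theorem hon (exa : ExaStmt) : HonStmt := by
  intro ℓ hℓ F V E A _ _ _ _ _ _ φ α W r la q hper hW hspn hq hqW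
  obtain ⟨Ω, _, _, b, c, ⟨hb, hc, hbc⟩, _⟩ := hper
  let _ : MulAction V Ω :=
    MulAction.compHom Ω ((MonoidHom.id V).prod (MonoidHom.id V))
  have hsm : ∀ (v : V) (ω : Ω), v • ω = ((v, v) : V × V) • ω := fun _ _ => rfl
  have hbv : ∀ (v : V) (ω : Ω), b (v • ω) = α v * b ω * α v⁻¹ := by
    intro v ω
    rw [hsm, hb]
    show α v * (b ω * α v⁻¹) = _
    rw [mul_assoc]
  have hcv : ∀ (v : V) (ω : Ω) (a : A), c ω (α v * a * α v⁻¹) = c (v⁻¹ • ω) a := by
    intro v ω a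
    have e1 := hc (v, v) (v⁻¹ • ω) a
    have e2 : ((v, v) : V × V) • (v⁻¹ • ω) = ω := by
      rw [← hsm, smul_inv_smul]
    rw [e2] at e1
    rw [← e1]
    show _ = c ω (α v * (a * α v⁻¹))
    rw [mul_assoc]
  obtain ⟨h, s, h6, h7, h8⟩ := coc exa ℓ F V Ω W hW (fun ω v => c ω (q v))
    (by
      intro ω u v
      show c ω (q (u * v)) = c ω (q u) + c (u⁻¹ • ω) (q v)
      rw [hq, map_add, hcv])
    (by
      intro ω w hw
      show c ω (q w) = 0
      rw [hqW w hw, map_zero])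
  have h9 : ∀ o, ∃ d : Fin r → F, ∀ v, h o v = ∑ l, d l * la l v :=
    fun o => hspn (h o) (h6 o) (h7 o)
  choose d hd using h9
  -- sums over the frame
  have hmk : ∀ (v : V) (ω : Ω), (Quotient.mk (MulAction.orbitRel V Ω) (v • ω)) =
      Quotient.mk (MulAction.orbitRel V Ω) ω :=
    fun v ω => Quotient.sound (MulAction.orbitRel_apply.2 ⟨v, rfl⟩)
  have hsum : ∀ (v : V) (z : Ω → F), α v * (∑ ω, z ω • b ω) * α v⁻¹ =
      ∑ ω, z (v⁻¹ • ω) • b ω := by
    intro v z
    rw [Finset.mul_sum, Finset.sum_mul]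
    have e1 : ∀ ω, α v * (z ω • b ω) * α v⁻¹ = z ω • b (v • ω) := by
      intro ω
      rw [hbv, mul_smul_comm, smul_mul_assoc]
    rw [Finset.sum_congr rfl (fun ω _ => e1 ω)]
    rw [← Equiv.sum_comp (MulAction.toPerm v) (fun ω => z (v⁻¹ • ω) • b ω)]
    refine Finset.sum_congr rfl fun ω _ => ?_
    rw [MulAction.toPerm_apply, inv_smul_smul]
  refine ⟨fun l => ∑ ω, d (Quotient.mk _ ω) l • b ω, ∑ ω, s ω • b ω, ?_, ?_, ?_⟩
  · intro l v _
    show α v * ((∑ ω, d (Quotient.mk _ ω) l • b ω) * α v⁻¹) = _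
    rw [← mul_assoc, hsum v (fun ω => d (Quotient.mk _ ω) l)]
    refine Finset.sum_congr rfl fun ω _ => ?_
    show d (Quotient.mk _ (v⁻¹ • ω)) l • b ω = _
    rw [hmk]
  · intro w hw
    have e1 := hsum w s
    have e2 : ∑ ω, s (w⁻¹ • ω) • b ω = ∑ ω, s ω • b ω := by
      refine Finset.sum_congr rfl fun ω _ => ?_
      have e3 := h8 ω w
      rw [h7 _ w hw, hqW w hw] at e3
      have e4 : s (w⁻¹ • ω) = s ω := by
        have e5 : (c ω) (0 : A) = 0 := map_zero _
        rw [e5] at e3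
        linear_combination -e3
      rw [e4]
    rw [e2] at e1
    have e6 : α w⁻¹ * α w = 1 := by rw [← map_mul, inv_mul_cancel, map_one]
    calc α w * (∑ ω, s ω • b ω) = α w * (∑ ω, s ω • b ω) * (α w⁻¹ * α w) := by
          rw [e6, mul_one]
      _ = α w * (∑ ω, s ω • b ω) * α w⁻¹ * α w := by rw [← mul_assoc]
      _ = _ := by rw [e1]
  · intro v
    rw [hsum v s]
    have e1 : ∑ l, la l v • (∑ ω, d (Quotient.mk _ ω) l • b ω) =
        ∑ ω, h (Quotient.mk _ ω) v • b ω := by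
      simp only [Finset.smul_sum]
      rw [Finset.sum_comm]
      refine Finset.sum_congr rfl fun ω _ => ?_
      rw [hd, Finset.sum_smul]
      refine Finset.sum_congr rfl fun l _ => ?_
      rw [smul_smul, mul_comm]
    rw [e1, ← Finset.sum_sub_distrib, ← Finset.sum_add_distrib]
    conv_lhs => rw [← hbc (q v)]
    refine Finset.sum_congr rfl fun ω _ => ?_
    have e2 : c ω (q v) = h (Quotient.mk _ ω) v + (s (v⁻¹ • ω) - s ω) := h8 ω v
    rw [e2, add_smul, sub_smul]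

end Pool.Agent.PST.H44
end
end -- Pool.Agent.Helper44_PST.HON

section -- Pool.Agent.Helper51_PST.YCV

/-!
# Theorem (S+), block DR, row YCV
-/

open scoped BigOperators PowerSeries

noncomputable section

namespace Pool.Agent.PST.H51

open Pool.Agent.PFD.D2b (FrR)
open Pool.Agent.PSS
open Pool.Agent.PSS.S2 (Nh CV Cg RLq)

/-- the connection of an invariant function is bilinear for `V` -/
theorem nh_equiv {F V A Ω : Type} [Field F] [CommGroup V] [Ring A] [Algebra F A] [Fintype Ω]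
    [MulAction (V × V) Ω] (α : V →* A) (b : Ω → A) (c : Ω → (A →ₗ[F] F)) (κ : Ω → F)
    (hfr : FrR (bw F α) b c) (hκ : ∀ (p : V × V) ω, κ (p • ω) = κ ω) (g : V × V) (a : A) :
    Nh κ b c (bw F α g a) = bw F α g (Nh κ b c a) := by
  rw [Pool.Agent.PSS.S2.nh_apply, Pool.Agent.PSS.S2.nh_apply, map_sum]
  rw [← Equiv.sum_comp (MulAction.toPerm g)]
  refine Finset.sum_congr rfl fun ω _ => ?_
  rw [MulAction.toPerm_apply, hfr.2.1, hκ, hfr.1, map_smul]

theorem ycv : YcvStmt := by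
  intro F V A K Ω _ _ _ _ _ _ _ _ α lam x y b c κ X hRF hfr hκ hX
  have hl : ∀ v a, Nh κ b c (α v * a) = α v * Nh κ b c a := by
    intro v a
    have h := nh_equiv α b c κ hfr hκ (v, 1) a
    simpa [bw] using h
  have hr : ∀ v a, Nh κ b c (a * α v) = Nh κ b c a * α v := by
    intro v a
    have h := nh_equiv α b c κ hfr hκ (1, v⁻¹) a
    simpa [bw] using h
  have hf : RLq (0 : F) α ((LinearMap.mulRight F X).comp (Nh κ b c)) := by
    intro a v
    rw [Pool.Agent.PSS.S2.cg_zero, LinearMap.comp_apply, LinearMap.comp_apply,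
      LinearMap.mulRight_apply, LinearMap.mulRight_apply, hr, mul_assoc, mul_assoc, hX v]
  have key : ∀ v, (∑ k, Nh κ b c (x k) * (X * y k)) * α v =
      α v * ∑ k, Nh κ b c (x k) * (X * y k) := by
    intro v
    have h := Pool.Agent.PSS.S2.H91.thl F V A K (0 : F) α lam x y _ hRF hf (α v)
    rw [Pool.Agent.PSS.S2.cg_zero] at h
    simp only [LinearMap.comp_apply, LinearMap.mulRight_apply] at h
    have h1 : (∑ k, Nh κ b c (x k) * (X * y k)) = ∑ k, Nh κ b c (x k) * X * y k :=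
      Finset.sum_congr rfl fun k _ => (mul_assoc _ _ _).symm
    rw [h1, ← h, Finset.mul_sum]
    refine Finset.sum_congr rfl fun k _ => ?_
    rw [hl]
    simp only [mul_assoc]
  intro v _
  show bw F α (v, v) (∑ k, Nh κ b c (x k) * (X * y k)) = ∑ k, Nh κ b c (x k) * (X * y k)
  have h2 : bw F α (v, v) (∑ k, Nh κ b c (x k) * (X * y k)) =
      α v * ((∑ k, Nh κ b c (x k) * (X * y k)) * α v⁻¹) := rfl
  rw [h2, key v⁻¹, ← mul_assoc, ← map_mul, mul_inv_cancel, map_one, one_mul]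

end Pool.Agent.PST.H51
end
end -- Pool.Agent.Helper51_PST.YCV
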