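import Pool.Agent.Helper12_AWB.B023

/-!
# Merged copies (generated) of the modules

* `Pool.Agent.Helper95_PSS.IND`
* `Pool.Agent.PST.StmtsDZ`
* `Pool.Agent.PST.StmtsK3`
* `Pool.Agent.PST.StmtsK4`
* `Pool.Agent.Helper10_PST.ZUN`
* `Pool.Agent.Helper13_PST.OBC`
* `Pool.Agent.Helper1_PST.OBN`
* `Pool.Agent.Helper27_PST.OBB`
* `Pool.Agent.Helper45_PST.OBX`
* `Pool.Agent.Helper46_PST.OBA`
* `Pool.Agent.PST.Kyw`
* `Pool.Agent.Helper51_PST.KYD`
* `Pool.Agent.Helper53_PST.FMA`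
* `Pool.Agent.Helper5_PST.NTR`
* `Pool.Agent.Helper91_PST.OBR`
* `Pool.Agent.Helper95_PST.OBW`
-/

set_option autoImplicit false

section -- Pool.Agent.Helper95_PSS.IND

/-!
# PSS.IND (helper95): the relative trace does not depend on the relative Frobenius system
-/

open scoped BigOperators TensorProduct

noncomputable section

namespace Pool.Agent.PSS.S0.H95

open Pool.Agent.PSS Pool.Agent.PSS.S0

theorem ind : IndStmt := by
  intro R V A K K' _ _ _ _ _ _ _ α lam x y x' y' h1 h2 a ha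
  have hc : ∀ v : V, α v * a = a * α v := by
    intro v
    have h := ha v (Subgroup.mem_top v)
    have h3 : α v * (a * α v⁻¹) = a := h
    calc α v * a = α v * (a * α v⁻¹) * α v := by
          rw [mul_assoc, mul_assoc, ← map_mul, inv_mul_cancel, map_one, mul_one]
      _ = a * α v := by rw [h3]
  have e1 : ∀ k, x k * a * y k =
      ∑ j, ∑ v, lam (y k * x' j * α v) • (x k * a * (α v⁻¹ * y' j)) := by
    intro k
    conv_lhs => rw [← h2.e2 (y k)]
    rw [Finset.mul_sum]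
    refine Finset.sum_congr rfl fun j _ => ?_
    rw [Finset.mul_sum]
    refine Finset.sum_congr rfl fun v _ => ?_
    rw [mul_smul_comm, ← mul_assoc (y k)]
  have e2 : ∀ j, x' j * a * y' j =
      ∑ k, ∑ v, lam (y k * x' j * α v) • (x k * a * (α v⁻¹ * y' j)) := by
    intro j
    conv_lhs => rw [← h1.e1 (x' j)]
    rw [Finset.sum_mul, Finset.sum_mul]
    refine Finset.sum_congr rfl fun k _ => ?_
    rw [Finset.sum_mul, Finset.sum_mul]
    rw [← Equiv.sum_comp (Equiv.inv V)]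
    refine Finset.sum_congr rfl fun v _ => ?_
    show lam (α (v⁻¹)⁻¹ * y k * x' j) • (x k * α v⁻¹) * a * y' j = _
    rw [inv_inv, mul_assoc (α v) (y k) (x' j), h1.sym (α v), smul_mul_assoc, smul_mul_assoc]
    congr 1
    rw [mul_assoc (x k) (α v⁻¹) a, hc v⁻¹, ← mul_assoc (x k) a, mul_assoc]
  calc ∑ k, x k * a * y k
      = ∑ k, ∑ j, ∑ v, lam (y k * x' j * α v) • (x k * a * (α v⁻¹ * y' j)) :=
        Finset.sum_congr rfl fun k _ => e1 k
    _ = ∑ j, ∑ k, ∑ v, lam (y k * x' j * α v) • (x k * a * (α v⁻¹ * y' j)) :=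
        Finset.sum_comm
    _ = ∑ j, x' j * a * y' j := (Finset.sum_congr rfl fun j _ => e2 j).symm

end Pool.Agent.PSS.S0.H95
end
end -- Pool.Agent.Helper95_PSS.IND

section -- Pool.Agent.PST.StmtsDZ

/-!
# Squad PST, rows 354 - 359 (helper71): the regularity datum of `N_W(A)`, first order terms

Complete proofs in the docstrings.
-/

open scoped BigOperators TensorProduct PowerSeries

noncomputable section

namespace Pool.Agent.PST

open Pool.Agent.PFC (tw IsTv)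
open Pool.Agent.PFD.D2 (Cdv FibG wittCdv)
open Pool.Agent.PFD.D2b (FrR)
open Pool.Agent.PSS

/-- FMA (354): the first order term of a regular deformation.

Proof.  `D₀.R` = sequences (`Dm.of`, `Dm.sq`); write `lf u = (α₀ u, s u, ..)`, `s u = D₀.sq (lf u) 1`.  The product in
degree `1`: `sq (Z * Z') 1 = D₀.m 1 (sq Z 0) (sq Z' 0) + sq Z 0 * sq Z' 1 + sq Z 1 * sq Z' 0`, in degree `0`: the product; `sq (X • Z) 1
= sq Z 0`, `sq (X ^ 2 • Z) 1 = 0` (`Dm.lean`).  `s u` commutes with `α₀ w`, `w` in `W` (`FoD.cm` in degree `1`; `D₀.m 1` vanishes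
if one argument is `α₀ w`: `Dm.m_om_left`, `Dm.m_om_right`).
(1) `FoD.cc` in degree `1`: `m 1 u v - m 1 v u + u s_v + s_u v - v s_u - s_v u = 0` (we write `u` for `α₀ u`).  Multiply by `(u v)⁻¹` on
the right: `(m 1 u v - m 1 v u) (u v)⁻¹ = s_v v⁻¹ - u (s_v v⁻¹) u⁻¹ - s_u u⁻¹ + v (s_u u⁻¹) v⁻¹`, and `c₀ ω (u a u⁻¹) = c₀ ω a` if
`(u, u) ω = ω` (frame), the same for `v`.
(2) By induction on `n`: `sq (lf u ^ n) 1 = ∑ (j < n), (m 1 (u ^ j) u + u ^ j s_u) u ^ (n - 1 - j)`.  `FoD.pl` in degree `1` for `n = ℓ`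
(`m 1 (u ^ ℓ) _ = 0` as `u ^ ℓ` is in `W`): this is `u ^ ℓ * D u`.  Multiply by `u ^ (-ℓ)` on the right (`D u` commutes with `u`, hypothesis; so does `u ^ ℓ * D u * u ^ (-ℓ) = D u`):
`∑ (j < ℓ), m 1 (u ^ j) u u ^ (-(j+1)) - D u = - ∑ (j < ℓ), u ^ j (s_u u⁻¹) u ^ (-j)`, and this is the trace of `- s_u u⁻¹` from
`zpowers (u ^ ℓ)` (`s_u u⁻¹` is fixed by it as `u ^ ℓ` is in `W`) to `zpowers u`; `zpowers (u ^ ℓ) < zpowers u` since `u ^ ℓ` is in `W` and `u` is not;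
transversal `{u ^ j | j < ℓ}` (`ℓ` is the index: it divides `ℓ` and is not `1`). -/
def FmaStmt : Prop := ∀ (ℓ : ℕ) [Fact ℓ.Prime] (F V A₀ : Type) [Field F] [CharP F ℓ]
  [CommGroup V] [Fintype V] [Ring A₀] [Algebra F A₀] (W : Subgroup V) (α₀ : V →* A₀)
  (D₀ : Dm F (aw α₀ W)) (D : V → A₀) (lf G : V → D₀.R), IsPGroup ℓ V → (∀ u : V, u ^ ℓ ∈ W) →
  (∀ u, D u ∈ FxR (cw F α₀) ⊤) →
  FoD ℓ F α₀ W D₀.w (fun Z => D₀.sq Z 0) D lf G →
  (∀ (Ω : Type) [Fintype Ω] [MulAction (V × V) Ω] (b : Ω → A₀) (c : Ω → (A₀ →ₗ[F] F)),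
    FrR (bw F α₀) b c → ∀ (ω : Ω) (u v : V), ((u, u) : V × V) • ω = ω →
    ((v, v) : V × V) • ω = ω →
    c ω ((D₀.m 1 (α₀ u) (α₀ v) - D₀.m 1 (α₀ v) (α₀ u)) * α₀ (u * v)⁻¹) = 0) ∧
  ∀ u : V, u ∉ W → ∑ j ∈ Finset.range ℓ, D₀.m 1 (α₀ (u ^ j)) (α₀ u) * α₀ (u ^ (j + 1))⁻¹ - D u ∈
    BKR (cw F α₀) (Subgroup.zpowers u)

/-- NTR (355): the regularity datum passes to `N_(W0)(A)`.

`N₁` is the restriction of `N` to `W` (`N₁.β 1 = N.β 1`), `N'` is `N_(W0)` of `As`.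

Proof.  The same `r, la, χ, xx, t`; `D' u = N.β 1 (D u)`, `lf' u = N'.β 1 (lf u)`, `G' u = N'.β 1 (G u)`.
`Drd`: `eg`, `qst` do not change; `add`, `w0` by linearity; `fx`: `N.β 1` of `v * D u * v⁻¹ = D u` with `N.mul` (`al_mem_tw`).  `bk`: let
`x = D u - Xe α (pg la xx t u)`; it is fixed by `V` and in `BKR (cw F α) Q`, `Q = QW0 φ W`; `N.β 1 x = D' u - Xe N.nwh (pg la xx t u)`
(linearity).  `N.β 1 x` is fixed by `V`; by NFR (`Pool.Agent.PSS.H45.nfr`) its coordinate at `(ε, ω)` is `0` for `ε ≠ 1` and is `c ω x` for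
`ε = 1`; if `(1, ω)` is fixed by `Q` then `ω` is fixed by `Q`, so `c ω x = 0` (FRB (1), `Pool.Agent.PSS.H52.frb` for `cw F α` and `Q`).  FRB (2) for `cw F N.nwh`
and `Q`: `N.β 1 x` is in `BKR (cw F N.nwh) Q`.
`FoD`: all `lf u`, `G u` commute with `γ w`, `w` in `W`: for `G u`: `lf u ^ ℓ` commutes with `γ w`, so `X • (G u * γ w - γ w * G u)` is `0` (multiply
by `γ (u ^ ℓ)⁻¹`; if `u ^ ℓ` is in `W`, which is the hypothesis `hW`), and `As` has no `X`-torsion (frame `df.per`: `c ω (X • a) = X * c ω a`).  The same for the `z` of `cc`.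
So they are in `FxR (bw) (twW (W0.subgroupOf W) 1)`, and `N'.mul`, `N'.one` give `cm`, `pl`, `cc`; `q0`, `qG` by `hq` and `hN`. -/
def NtrStmt : Prop := ∀ (ℓ : ℕ) [Fact ℓ.Prime] (F V E A As B Bs : Type) [Field F] [CharP F ℓ]
  [CommGroup V] [Fintype V] [Group E] [Ring A] [Algebra F A] [Ring As] [Algebra F⟦X⟧ As]
  [Ring B] [Algebra F B] [Ring Bs] [Algebra F⟦X⟧ Bs] (φ : E →* MulAut V) (α : V →* A)
  (W W0 : Subgroup V) (γ : W →* As) (N : IsNW F α W0 B)
  (N₁ : IsNW F (aw α W) (W0.subgroupOf W) B) (N' : IsNW F⟦X⟧ γ (W0.subgroupOf W) Bs)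
  (df : Df (PowerSeries.X : F⟦X⟧) PowerSeries.constantCoeff (aw α W) γ)
  (df' : Df (PowerSeries.X : F⟦X⟧) PowerSeries.constantCoeff (aw N.nwh W) N'.nwh),
  IsPGroup ℓ V → Per F φ α → W0 ≤ W → (∀ u : V, u ^ ℓ ∈ W) → (∀ a, N₁.β 1 a = N.β 1 a) →
  (∀ a ∈ FxR (bw F⟦X⟧ γ) (twW (W0.subgroupOf W) 1), df'.q (N'.β 1 a) = N₁.β 1 (df.q a)) →
  Reg ℓ F φ α W γ df.q → Reg ℓ F φ N.nwh W N'.nwh df'.q

/-- KYW: the fact on cocycles, for a regular deformation `D₀` of an algebra in the class: what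
LDW needs from KEY (helper79, helper43).  `key` is the hypothesis of the same name of `TlwStmt`. -/
def KywStmt : Prop :=
  ∀ (ℓ : ℕ) [Fact ℓ.Prime] (R K F V E A A₀ B κ Ω : Type) [CommRing R] [IsDomain R]
    [IsPrincipalIdealRing R] [CharZero R] [Field K] [CharZero K] [Algebra R K] [Field F]
    [IsAlgClosed F] [CharP F ℓ] [CommGroup V] [Fintype V] [Group E] [Fintype E] [Ring A]
    [Algebra R A] [Module.Finite R A] [Module.Free R A] [Ring A₀] [Algebra F A₀] [Ring B]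
    [Algebra R B] [Algebra K B] [Fintype κ] [Fintype Ω] [MulAction (V × V) Ω] (φ : E →* MulAut V)
    (W : Subgroup V) (cv : Cdv R F) (f : FibG A A₀ cv) (α₀ : V →* A₀) (lam₀ : A₀ →ₗ[F] F)
    (x₀ y₀ : κ → A₀) (b₀ : Ω → A₀) (c₀ : Ω → (A₀ →ₗ[F] F)) (α : V →* A) (lam : A →ₗ[R] R)
    (x y : κ → A) (b : Ω → A) (c : Ω → (A →ₗ[R] R)) (u : A) (C : KC R K B α lam x y b c)
    (D₀ : Dm F (aw α₀ W)) (r : ℕ) (la : Fin r → V → F) (χ : Fin r → E → F)
    (xx : Fin r → V → F) (t : Fin r → F) (D : V → A₀),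
    IsPGroup ℓ V → ¬ ℓ ∣ Nat.card E → cv.π = (ℓ : R) → Chf ℓ φ W → Cl F φ α₀ →
    (∀ ω : Ω, ∃ (e : E) (S : Subgroup V),
      MulAction.stabilizer (V × V) ω = tw (φ e).toMonoidHom S) →
    FrR (bw F α₀) b₀ c₀ → RF F α₀ lam₀ x₀ y₀ →
    LiftV cv α₀ lam₀ x₀ y₀ b₀ c₀ f α lam x y b c → u * rt x y 1 = 1 →
    Drd F φ α₀ W (QW0 φ W) la χ xx t D →
    (∀ u : V, u ∉ W → ∑ j ∈ Finset.range ℓ, D₀.m 1 (α₀ (u ^ j)) (α₀ u) * α₀ (u ^ (j + 1))⁻¹ -
      D u ∈ BKR (cw F α₀) (Subgroup.zpowers u)) →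
    ∀ (g : B →ₗ[K] B) (m₁ cc : B →ₗ[K] B →ₗ[K] B), WBl (ia C.i α) W g → g 1 = 0 →
      (∀ x y, m₁ x y = d1 g x y) →
      (∀ a₁ a₂, ∃ e, C.i e = m₁ (C.i a₁) (C.i a₂) ∧ f.q e = D₀.m 1 (f.q a₁) (f.q a₂)) →
      Z2 C W cc → Bi C W m₁ cc → Fz C cc

end Pool.Agent.PST
end
end -- Pool.Agent.PST.StmtsDZ

section -- Pool.Agent.PST.StmtsK3

/-!
# Squad PST, block KEY, part 3 (helper79): the forms of a cocycle

Context: `C : KC R K B α lam x y b c` (an order `A` in the `K`-algebra `B`), `cc` a normalised `W`-relative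
2-cocycle with values in `B / A` (`Z2 C W cc`).  Notation: `v` for `C.i (α v)`, `a` for `C.i a`, `≡` = congruent
modulo `C.i A` (products of `≡` with elements of `C.i A` are allowed), `c(x, y)` for `cc x y`,
`{x, y} = c(x, y) - c(y, x)`, `κ(u, v) = {u, v} (u v)⁻¹` = `kp`, `ob(y; u, v) = lamK (y κ(u, v))`, for `y ∈ A` which commutes
with `u` and `v`; `≡` for elements of `K`: the difference is in the image of `R` (`InR`).

Facts used everywhere: for `w ∈ W`: `c(w x, y) = w c(x, y)`, `c(x w, y) = c(x, w y)`, `c(x, y w) = c(x, y) w`, `c(x, w) = 0 =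
c(w, x)`, and `κ(u, v)` commutes with `W` (`w c(u, v) = c(w u, v) = c(u w, v) = c(u, w v) = c(u, v w) = c(u, v) w`).
`lamK (s t) = lamK (t s)`; if `s ≡ 0` then `lamK s ≡ 0`.
The cocycle identity: `a c(a', a'') - c(a a', a'') + c(a, a' a'') - c(a, a') a'' ≡ 0` for `a, a', a'' ∈ A`.
(PR) for `a, a' ∈ A` which commute with `a'' ∈ A`: `{a a', a''} ≡ a {a', a''} + {a, a''} a' + [a'', c(a, a')]` (the identities at
`(a, a', a'')`, `(a, a'', a')`, `(a'', a, a')`).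
(3C) for pairwise commuting `a, a', a'' ∈ A`: `[a'', {a, a'}] + [a, {a', a''}] - [a', {a, a''}] ≡ 0` (the alternating sum of the
identities at the six permutations).

1. OBA - OBC: bilinear, invariant, trace form, zero on traces.
2. OBW, OBX: the elements `w_T(u, v)` of the centre of `A(T)`.  OBR: reduction to `Q = QW0 φ W`.
3. `Kx`: the context of KEY.
-/

open scoped BigOperators

noncomputable section

namespace Pool.Agent.PST

open Pool.Agent.PFC (tw IsTv)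
open Pool.Agent.PFD.D2 (Cdv FibG)
open Pool.Agent.PFD.D2b (FrR)
open Pool.Agent.PSS
open Pool.Agent.PSS.S0 (IsBQ)

/-! ## Definitions -/

/-- `t` is in the image of `R` -/
def InR (R : Type) {K : Type} [CommRing R] [Field K] [Algebra R K] (t : K) : Prop :=
  ∃ r : R, algebraMap R K r = t

/-- `κ(u, v) = (cc u v - cc v u) (u v)⁻¹` -/
def kp {R K V A B : Type} [CommRing R] [Field K] [Group V] [Ring A] [Algebra R A] [Ring B]
    [Algebra R B] [Algebra K B] (i : A →ₐ[R] B) (α : V →* A) (cc : B →ₗ[K] B →ₗ[K] B) (u v : V) :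
    B :=
  (cc (i (α u)) (i (α v)) - cc (i (α v)) (i (α u))) * i (α (u * v)⁻¹)

/-- The context of KEY. -/
structure Kx (ℓ : ℕ) {R K F V E A A₀ B κ Ω : Type} [CommRing R] [Field K] [Algebra R K] [Field F]
    [CommGroup V] [Fintype V] [Group E] [Ring A] [Algebra R A] [Ring A₀] [Algebra F A₀] [Ring B]
    [Algebra R B] [Algebra K B] [Fintype κ] [Fintype Ω] [MulAction (V × V) Ω]
    (φ : E →* MulAut V) (W : Subgroup V) {α : V →* A} {lam : A →ₗ[R] R} {x y : κ → A} {b : Ω → A}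
    {c : Ω → (A →ₗ[R] R)} (C : KC R K B α lam x y b c) {cv : Cdv R F} (f : FibG A A₀ cv)
    (α₀ : V →* A₀) (lam₀ : A₀ →ₗ[F] F) (x₀ y₀ : κ → A₀) (b₀ : Ω → A₀)
    (c₀ : Ω → (A₀ →ₗ[F] F)) : Prop where
  pg : IsPGroup ℓ V
  cop : ¬ ℓ ∣ Nat.card E
  pi : cv.π = (ℓ : R)
  ch : Chf ℓ φ W
  cl : Cl F φ α₀
  st : ∀ ω : Ω, ∃ (e : E) (S : Subgroup V),
    MulAction.stabilizer (V × V) ω = tw (φ e).toMonoidHom S
  fr0 : FrR (bw F α₀) b₀ c₀
  rf0 : RF F α₀ lam₀ x₀ y₀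
  lv : LiftV cv α₀ lam₀ x₀ y₀ b₀ c₀ f α lam x y b c

/-! ## 1. The forms -/

/-- OBA: `κ(u, v)` and the bilinear form.

Proof.  (1) `u v = v u`.  (2), (3) the facts above: `c(u w, v) = c(w u, v) = w c(u, v)`, `c(v, u w) = c(v, u) w`, so `{u w, v} =
w c(u, v) - c(v, u) w = {u, v} w` and `κ(u w, v) = κ(u, v)`; `κ(u, w) = 0`.  (4) (PR) for `u, u', v`, multiplied by
`y` on the left and `(u u' v)⁻¹` on the right: `lamK (y u {u', v} (u u' v)⁻¹) = lamK (y {u', v} (u' v)⁻¹)` because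
`y u = u y` (`sym`, `(u u' v)⁻¹ u = (u' v)⁻¹`), in the same way the second term, and
`lamK (y [v, s] (u u' v)⁻¹) = lamK ([(u u' v)⁻¹ y, v] s) = 0` as `y` commutes with `v`.  (5) by (4) and (2), by induction
`ob(y; u ^ n, v) ≡ n ob(y; u, v)`, and `u ^ ℓ ∈ W` gives `0` for `n = ℓ` (`κ(w, v) = - κ(v, w) = 0`). -/
def ObaStmt : Prop :=
  ∀ (R K V A B κ Ω : Type) [CommRing R] [Field K] [Algebra R K] [CommGroup V]
    [Fintype V] [Ring A] [Algebra R A] [Ring B] [Algebra R B] [Algebra K B] [Fintype κ]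
    [Fintype Ω] [MulAction (V × V) Ω] (W : Subgroup V) (α : V →* A) (lam : A →ₗ[R] R)
    (x y : κ → A) (b : Ω → A) (c : Ω → (A →ₗ[R] R)) (C : KC R K B α lam x y b c)
    (cc : B →ₗ[K] B →ₗ[K] B), Z2 C W cc →
    (∀ u v, kp C.i α cc v u = - kp C.i α cc u v) ∧
    (∀ w ∈ W, ∀ u v, kp C.i α cc (u * w) v = kp C.i α cc u v ∧
      kp C.i α cc u (v * w) = kp C.i α cc u v ∧ kp C.i α cc u w = 0 ∧
      C.i (α w) * kp C.i α cc u v = kp C.i α cc u v * C.i (α w)) ∧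
    (∀ (z : A) (u u' v : V), z * α u = α u * z → z * α u' = α u' * z → z * α v = α v * z →
      InR R (C.lamK (C.i z * kp C.i α cc (u * u') v) - C.lamK (C.i z * kp C.i α cc u v) -
        C.lamK (C.i z * kp C.i α cc u' v))) ∧
    ∀ (z : A) (ℓ : ℕ) (u v : V), z * α u = α u * z → z * α v = α v * z → u ^ ℓ ∈ W →
      InR R ((ℓ : K) * C.lamK (C.i z * kp C.i α cc u v))

/-- OBB: trace form, invariance under conjugation by `V`.

Proof.  (1) `z, z'` commute with `u, v`.  (3C) for `u, v, z'`: `[z', {u, v}] ≡ [v, {u, z'}] - [u, {v, z'}]`.  Multiply by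
`(u v)⁻¹ z` on the left and apply `lamK`: `lamK ((u v)⁻¹ z [v, s]) = lamK ([(u v)⁻¹ z, v] s) = 0`.  So
`0 ≡ lamK ((u v)⁻¹ z (z' {u, v} - {u, v} z')) = lamK (z z' κ(u, v)) - lamK (z' z κ(u, v))` (`(u v)⁻¹` commutes with `z`, `z'`,
`sym`).  (2) (3C) for `u, v, t` with `t ∈ V`; multiply by `(u v)⁻¹ t⁻¹ (t z t⁻¹)`, which commutes with `u` and `v`:
`0 ≡ lamK ((u v)⁻¹ z t⁻¹ (t {u, v} - {u, v} t))`, `z t⁻¹ t = z`, and `lamK ((u v)⁻¹ z t⁻¹ {u, v} t) =
lamK (t z t⁻¹ κ(u, v))` up to the order (`(u v)⁻¹` commutes with `z`, `t`).  (Or exchange `z` and `t z t⁻¹`.) -/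
def ObbStmt : Prop :=
  ∀ (R K V A B κ Ω : Type) [CommRing R] [Field K] [Algebra R K] [CommGroup V]
    [Fintype V] [Ring A] [Algebra R A] [Ring B] [Algebra R B] [Algebra K B] [Fintype κ]
    [Fintype Ω] [MulAction (V × V) Ω] (W : Subgroup V) (α : V →* A) (lam : A →ₗ[R] R)
    (x y : κ → A) (b : Ω → A) (c : Ω → (A →ₗ[R] R)) (C : KC R K B α lam x y b c)
    (cc : B →ₗ[K] B →ₗ[K] B), Z2 C W cc →
    (∀ (z z' : A) (u v : V), z * α u = α u * z → z * α v = α v * z → z' * α u = α u * z' →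
      z' * α v = α v * z' →
      InR R (C.lamK (C.i (z * z') * kp C.i α cc u v) -
        C.lamK (C.i (z' * z) * kp C.i α cc u v))) ∧
    ∀ (z : A) (u v t : V), z * α u = α u * z → z * α v = α v * z →
      InR R (C.lamK (C.i (α t * z * α t⁻¹) * kp C.i α cc u v) -
        C.lamK (C.i z * kp C.i α cc u v))

/-- OBN: the norm.

Proof.  For `n : ℕ` put `X_n = {u, g ^ n} (u g ^ n)⁻¹ = κ(u, g ^ n)`.  The identities at `(u, g, g ^ n)`, `(g, u, g ^ n)`,
`(g, g ^ n, u)` give `{u, g g ^ n} ≡ g {u, g ^ n} + {u, g} g ^ n - [u, c(g, g ^ n)]`, so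
`X_(n+1) ≡ g X_n g⁻¹ + X_1 - [u, s_n]`, `s_n = c(g, g ^ n) (u g ^ (n+1))⁻¹`, and by induction
`X_n ≡ ∑_(j<n) (g ^ j X_1 g ^ (-j) - g ^ j [u, s'_j] g ^ (-j))` for some `s'_j`.  For `n = ℓ`: `X_ℓ = 0` (`g ^ ℓ ∈ W`).
`lamK (z g ^ j [u, s] g ^ (-j)) = lamK ([g ^ (-j) z g ^ j, u] s) = 0` as `z` commutes with `u`, and
`lamK (z g ^ j X_1 g ^ (-j)) = lamK (g ^ (-j) z g ^ j X_1)`; the sum over `j < ℓ` of the `g ^ (-j) z g ^ j` is that of the
`g ^ j z g ^ (-j)` (`z` commutes with `g ^ ℓ`: `j ↦ ℓ - j`). -/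
def ObnStmt : Prop :=
  ∀ (R K V A B κ Ω : Type) [CommRing R] [Field K] [Algebra R K] [CommGroup V]
    [Fintype V] [Ring A] [Algebra R A] [Ring B] [Algebra R B] [Algebra K B] [Fintype κ]
    [Fintype Ω] [MulAction (V × V) Ω] (W : Subgroup V) (α : V →* A) (lam : A →ₗ[R] R)
    (x y : κ → A) (b : Ω → A) (c : Ω → (A →ₗ[R] R)) (C : KC R K B α lam x y b c)
    (cc : B →ₗ[K] B →ₗ[K] B), Z2 C W cc →
    ∀ (z : A) (ℓ : ℕ) (u g : V), z * α u = α u * z → z * α (g ^ ℓ) = α (g ^ ℓ) * z →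
      g ^ ℓ ∈ W →
      InR R (C.lamK (C.i (∑ j ∈ Finset.range ℓ, α (g ^ j) * z * α (g ^ j)⁻¹) *
        kp C.i α cc u g))

/-- OBC: the forms vanish on traces.

Proof.  `z` is in the span of the traces `z = ∑_(s ∈ S) s m s⁻¹` from `P' < T`, `m` commutes with `P'`; it is enough to
take one of them (`InR` is closed under sums, and `r • z`, `r ∈ R`: `C.tow`).  Let `P' ≤ T' < T`, `T'` maximal in `T`, so of
index `ℓ` (`T` is an `ℓ`-group), `g ∈ T`, `g ∉ T'`.  `z = ∑_(j<ℓ) g ^ j m' g ^ (-j)`, `m'` = the trace of `m` from `P'` to `T'`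
(the trace does not depend on the transversal: `{g ^ j s'}` is another one), `m'` commutes with `T'`, `g ^ ℓ ∈ T'`.
Every element of `T` is `u' g ^ a` with `u' ∈ T'`; by OBA (additive in both variables on `T`, as `z` commutes with `T`,
alternating) it is enough to show `ob(z; u, v) ≡ 0` for `u, v ∈ T'` and for `u ∈ T'`, `v = g`.  The first: by OBB (2)
`ob(g ^ j m' g ^ (-j); u, v) ≡ ob(m'; u, v)`, and `ℓ ob(m'; u, v) ≡ 0` by OBA.  The second: OBN. -/
def ObcStmt : Prop :=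
  ∀ (R K V A B κ Ω : Type) [CommRing R] [Field K] [Algebra R K] [CommGroup V]
    [Fintype V] [Ring A] [Algebra R A] [Ring B] [Algebra R B] [Algebra K B] [Fintype κ]
    [Fintype Ω] [MulAction (V × V) Ω] (W : Subgroup V) (α : V →* A) (lam : A →ₗ[R] R)
    (x y : κ → A) (b : Ω → A) (c : Ω → (A →ₗ[R] R)) (C : KC R K B α lam x y b c)
    (cc : B →ₗ[K] B →ₗ[K] B) (ℓ : ℕ) [Fact ℓ.Prime], IsPGroup ℓ V → (∀ v : V, v ^ ℓ ∈ W) →
    Z2 C W cc → ∀ (T : Subgroup V), ∀ z ∈ BKR (cw R α) T, ∀ u ∈ T, ∀ v ∈ T,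
      InR R (C.lamK (C.i z * kp C.i α cc u v))

/-! ## 2. The elements of the centres of the Brauer quotients -/

/-- LFX: fixed vectors and Brauer kernels lift.

Proof.  (1) `S` acts on `Ω` through the diagonal.  `a₀ = ∑ c₀ ω a₀ • b₀ ω`; choose lifts `r ω ∈ R` of the `c₀ ω a₀`, constant on the
`S`-orbits: `a = ∑ r ω • b ω` (`LiftV.qb`).  (2) Span induction: a trace `∑_(s ∈ T) s m₀ s⁻¹` is the image of `∑ s m s⁻¹`, `m` from
(1) for `P'`; scalars of `F` lift to `R`.  (3) `f.q a ∈ BKR`: by (2) there is `a' ∈ BKR (cw R α) S` with `f.q a' = f.q a`, so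
`a - a' = cv.π • d` (`f.ker`) and `d` commutes with `S` (`cv.π` is a nonzero divisor and `A` has the frame `b`, `c`:
`cv.π • d' = 0` implies `c ω d' = 0` (`cv.reg`) and `d' = 0`). -/
def LfxStmt : Prop :=
  ∀ (R F V A A₀ κ Ω : Type) [CommRing R] [Field F] [CommGroup V] [Fintype V] [Ring A]
    [Algebra R A] [Ring A₀] [Algebra F A₀] [Fintype κ] [Fintype Ω] [MulAction (V × V) Ω]
    (cv : Cdv R F) (f : FibG A A₀ cv) (α₀ : V →* A₀) (lam₀ : A₀ →ₗ[F] F) (x₀ y₀ : κ → A₀)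
    (b₀ : Ω → A₀) (c₀ : Ω → (A₀ →ₗ[F] F)) (α : V →* A) (lam : A →ₗ[R] R) (x y : κ → A)
    (b : Ω → A) (c : Ω → (A →ₗ[R] R)), FrR (bw F α₀) b₀ c₀ →
    LiftV cv α₀ lam₀ x₀ y₀ b₀ c₀ f α lam x y b c → ∀ S : Subgroup V,
    (∀ a₀ ∈ FxR (cw F α₀) S, ∃ a ∈ FxR (cw R α) S, f.q a = a₀) ∧
    (∀ a₀ ∈ BKR (cw F α₀) S, ∃ a ∈ BKR (cw R α) S, f.q a = a₀) ∧
    ∀ a ∈ FxR (cw R α) S, f.q a ∈ FxR (cw F α₀) S ∧ (f.q a ∈ BKR (cw F α₀) S →
      ∃ a' ∈ BKR (cw R α) S, ∃ d ∈ FxR (cw R α) S, a = a' + cv.π • d)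

/-- OBW: the central elements.  `A(T)` = `BT`.

Proof.  For `z ∈ FxR (cw R α) T` the element `ℓ ob(z; u, v)` is in the image of `R` (OBA), `τ z := κ` of it (`C.rinj`: well
defined), additive, `τ (r z) = κ(r) τ z`.  `τ z = 0` if `f.q z ∈ BKR`: LFX (3), `z = a' + ℓ d`: `ob(a') ≡ 0` (OBC) and
`ob(ℓ d) = ℓ ob(d) ≡ 0`, so `ℓ ob(z)` is `ℓ` times an element of `R` (`cv.π = ℓ`).  By LFX (1) and `IsBQ` every element of `BT` is
`β (f.q z)`, and `σ (β (f.q z)) := τ z` is a well defined `F`-linear form on `BT`; `σ (s t) = σ (t s)` by OBB (1).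
`lamT` is a symmetric form with dual families `xT`, `yT` (`RF`): `w = ∑_(k, v) σ (x_k v) • v⁻¹ y_k` satisfies
`lamT (t w) = σ t` (apply `σ` to `e1` for `t`; `sym`), and it is central as `lamT (t (s w - w s)) = σ (t s) - σ (s t) = 0` and `lamT`
is nondegenerate. -/
def ObwStmt : Prop :=
  ∀ (ℓ : ℕ) [Fact ℓ.Prime] (R K F V E A A₀ B κ Ω BT KT : Type) [CommRing R] [Field K] [CharZero K]
    [Algebra R K] [Field F] [CharP F ℓ] [CommGroup V] [Fintype V] [Group E] [Ring A] [Algebra R A]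
    [Ring A₀] [Algebra F A₀] [Ring B] [Algebra R B] [Algebra K B] [Fintype κ] [Fintype Ω]
    [MulAction (V × V) Ω] [Ring BT] [Algebra F BT] [Fintype KT] (φ : E →* MulAut V)
    (W : Subgroup V) (α : V →* A) (lam : A →ₗ[R] R) (x y : κ → A) (b : Ω → A)
    (c : Ω → (A →ₗ[R] R)) (C : KC R K B α lam x y b c) (cv : Cdv R F) (f : FibG A A₀ cv)
    (α₀ : V →* A₀) (lam₀ : A₀ →ₗ[F] F) (x₀ y₀ : κ → A₀) (b₀ : Ω → A₀) (c₀ : Ω → (A₀ →ₗ[F] F))
    (cc : B →ₗ[K] B →ₗ[K] B) (T : Subgroup V) (αT : V →* BT) (β : A₀ → BT) (lamT : BT →ₗ[F] F)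
    (xT yT : KT → BT), Kx ℓ φ W C f α₀ lam₀ x₀ y₀ b₀ c₀ → Z2 C W cc → IsBQ F α₀ T αT β →
    RF F αT lamT xT yT → (∀ a ∈ FxR (cw F α₀) T, lamT (β a) = lam₀ a) →
    ∀ u ∈ T, ∀ v ∈ T, ∃ w : BT, (∀ s, w * s = s * w) ∧
      ∀ z ∈ FxR (cw R α) T, ∀ ρ : R,
        algebraMap R K ρ = (ℓ : K) * C.lamK (C.i z * kp C.i α cc u v) →
        lamT (β (f.q z) * w) = cv.κ ρ

/-- OBX: the elements of OBW form a biadditive alternating function, and the cocycle is determined by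
them.

Proof.  Nondegeneracy of `lamT` (`RF`), every element of `BT` is `β (f.q z)` (LFX (1)), and `ℓ ob(z; u, v)` is in the image of `R`
(OBA).  So two central elements with the same values `lamT (β (f.q z) * w)` are equal, and the claims follow from
OBA: `ℓ ob(z; u u', v) - ℓ ob(z; u, v) - ℓ ob(z; u', v)` is `ℓ` times an element of `R` (`κ ℓ = 0`), etc.  (5): if
`ω u v = 0` then `κ ρ = 0`, `ρ = ℓ r`, and `ob(z; u, v) = r` (`(ℓ : K) ≠ 0`). -/
def ObxStmt : Prop :=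
  ∀ (ℓ : ℕ) [Fact ℓ.Prime] (R K F V E A A₀ B κ Ω BT KT : Type) [CommRing R] [Field K] [CharZero K]
    [Algebra R K] [Field F] [CharP F ℓ] [CommGroup V] [Fintype V] [Group E] [Ring A] [Algebra R A]
    [Ring A₀] [Algebra F A₀] [Ring B] [Algebra R B] [Algebra K B] [Fintype κ] [Fintype Ω]
    [MulAction (V × V) Ω] [Ring BT] [Algebra F BT] [Fintype KT] (φ : E →* MulAut V)
    (W : Subgroup V) (α : V →* A) (lam : A →ₗ[R] R) (x y : κ → A) (b : Ω → A)
    (c : Ω → (A →ₗ[R] R)) (C : KC R K B α lam x y b c) (cv : Cdv R F) (f : FibG A A₀ cv)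
    (α₀ : V →* A₀) (lam₀ : A₀ →ₗ[F] F) (x₀ y₀ : κ → A₀) (b₀ : Ω → A₀) (c₀ : Ω → (A₀ →ₗ[F] F))
    (cc : B →ₗ[K] B →ₗ[K] B) (T : Subgroup V) (αT : V →* BT) (β : A₀ → BT) (lamT : BT →ₗ[F] F)
    (xT yT : KT → BT) (w : V → V → BT), Kx ℓ φ W C f α₀ lam₀ x₀ y₀ b₀ c₀ → Z2 C W cc →
    IsBQ F α₀ T αT β → RF F αT lamT xT yT → (∀ a ∈ FxR (cw F α₀) T, lamT (β a) = lam₀ a) →
    (∀ u ∈ T, ∀ v ∈ T, ∀ z ∈ FxR (cw R α) T, ∀ ρ : R,
      algebraMap R K ρ = (ℓ : K) * C.lamK (C.i z * kp C.i α cc u v) →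
      lamT (β (f.q z) * w u v) = cv.κ ρ) →
    (∀ u ∈ T, ∀ u' ∈ T, ∀ v ∈ T, w (u * u') v = w u v + w u' v) ∧
    (∀ u ∈ T, ∀ v ∈ T, w v u = - w u v) ∧ (∀ u ∈ T, w u u = 0) ∧
    (∀ u ∈ T, ∀ v ∈ T, u ∈ W → w u v = 0) ∧
    ∀ u ∈ T, ∀ v ∈ T, w u v = 0 → ∀ z ∈ FxR (cw R α) T, InR R (C.lamK (C.i z * kp C.i α cc u v))

/-- OBR: it is enough that the forms vanish at `Q = QW0 φ W`.

Proof.  Let `(u, u) ω = ω`, `(v, v) ω = ω`, `T` = the subgroup generated by `u`, `v`.  `S0.RfdStmt` (proved): `d ω ∈ A` with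
`c ω a = lam (d ω a)`, `d ω` commutes with `u` and `v`, so with `T` (`SF.ed`); `C.cK ω s = C.lamK (d ω s)` for `s ∈ B` (both are
`K`-linear, and equal on `C.i (b ω')`, which span `B`: `C.frK`).  So it is enough: for all `z ∈ FxR (cw R α) T`: `ob(z; u, v) ≡ 0`.
If `T ≤ W` then `κ(u, v) = 0`.  Otherwise there is `t ∈ T`, `t ∉ W`.  `E1` = the centraliser of `T` in `E`.  `e ∈ E1` fixes `t`, so by
`Chf.fr` `φ e u' u'⁻¹ ∈ W` for all `u'`, and `φ e q = q` for `q ∈ Q` (definition of `QW0`).  `BT = A₀(T)` (`S0.BqxStmt`), in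
`Cl F (φ.comp E1.subtype) αT` (`S0.BclStmt`), `lamT`, `xT`, `yT` from `S0.BpuStmt`; `w` from OBW.  ZIJ for `BT`, `Q`, `z = w`: `w = 0`, if
`w ∈ BKR (cw F αT) Q`.  For this let `b'`, `c'` be the frame of `BT` (`Per`) with dual family `d'` (`S0.RfdStmt`): by
`S0.FbkStmt` it is enough that `lamT (d' ω' w) = 0` for the `ω'` fixed by the diagonal of `Q`; `d' ω'` commutes with `Q`, so (`S0.BbkStmt`
(2) with `P = Q`) `d' ω' = β a₀`, `a₀ ∈ FxR (cw F α₀) (Q ⊔ T)`, and `a₀ = f.q z`, `z ∈ FxR (cw R α) (Q ⊔ T)` (LFX (1)).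
`lamT (β (f.q z) w) = κ ρ` with `ρ = ℓ ob(z; u, v)`; `u = u' w₁`, `v = v' w₂` with `u', v' ∈ Q`, `w₁, w₂ ∈ W` (`hQ`), and `κ(u, v) = κ(u', v')`
(OBA), so `ob(z; u, v) = ob(z; u', v') ≡ 0` by hypothesis (`z` commutes with `Q`) and `κ ρ = 0`.
So `w = 0`, and by OBX (5) `ob(z; u, v) ≡ 0` for all `z ∈ FxR (cw R α) T` (or directly: `κ ρ = 0`, `ρ = ℓ r`). -/
def ObrStmt : Prop :=
  ∀ (ℓ : ℕ) [Fact ℓ.Prime] (R K F V E A A₀ B κ Ω : Type) [CommRing R] [Field K] [CharZero K]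
    [Algebra R K] [Field F] [CharP F ℓ] [CommGroup V] [Fintype V] [Group E] [Finite E] [Ring A]
    [Algebra R A] [Ring A₀] [Algebra F A₀] [Ring B] [Algebra R B] [Algebra K B] [Fintype κ]
    [Fintype Ω] [MulAction (V × V) Ω] (φ : E →* MulAut V) (W : Subgroup V) (α : V →* A)
    (lam : A →ₗ[R] R) (x y : κ → A) (b : Ω → A) (c : Ω → (A →ₗ[R] R))
    (C : KC R K B α lam x y b c) (cv : Cdv R F) (f : FibG A A₀ cv) (α₀ : V →* A₀)
    (lam₀ : A₀ →ₗ[F] F) (x₀ y₀ : κ → A₀) (b₀ : Ω → A₀) (c₀ : Ω → (A₀ →ₗ[F] F))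
    (cc : B →ₗ[K] B →ₗ[K] B), Kx ℓ φ W C f α₀ lam₀ x₀ y₀ b₀ c₀ → Z2 C W cc →
    (∀ v : V, ∃ u ∈ QW0 φ W, ∃ w ∈ W, v = u * w) →
    (∀ u ∈ QW0 φ W, ∀ v ∈ QW0 φ W, ∀ z ∈ FxR (cw R α) (QW0 φ W),
      InR R (C.lamK (C.i z * kp C.i α cc u v))) → Fz C cc

end Pool.Agent.PST
end
end -- Pool.Agent.PST.StmtsK3

section -- Pool.Agent.PST.StmtsK4

/-!
# Squad PST, block KEY, part 4 (helper79): the centre of `A₀(Q)`, assembly of `KeyStmt`

Notation as in parts 1 and 3: `v` for `α v`, `rt x y a = ∑ x k * a * y k`, `ζ = rt x y 1`.  `Q = QW0 φ W`.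
`DxiStmt` is the interface to part 2 (helper43; row DXI : DrxStmt of StmtsK2.lean gives it): for `r ∉ W` the cocycle `cc` gives a derivation `δ` of
`A₀(⟨r⟩)` which kills `W`, has the values `ob(·; g, r)` at `g`, and kills `∑_(j<ℓ) m₁(r^j, r) r^-(j+1)`.

1. ZUN, BQT, MCO, NDI: general rows on the class `Cl`.
2. YCE, YCB: `∑_(j<ℓ) m₁(r^j, r) r^-(j+1)` is central in `A₀(⟨r⟩)`.
3. VTA, VTX: the relation in the centre of `A₀(Q)` given by `r ∈ Q`.  LAL: linear algebra.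
4. DxiStmt, KYA (assembly), KYD.
-/

open scoped BigOperators PowerSeries

noncomputable section

namespace Pool.Agent.PST

open Pool.Agent.PFC (tw IsTv)
open Pool.Agent.PFD.D2 (Cdv FibG)
open Pool.Agent.PFD.D2b (FrR)
open Pool.Agent.PSS
open Pool.Agent.PSS.S0 (IsBQ)

/-! ## 1. The class -/

/-- ZUN: `rt x y 1` is a unit for every form.

Proof.  `Cl.rt`: `lam'`, `x'`, `y'`, `u'` with `u' * ∑ x' y' = 1`.  `z = ∑_(k, v) lam' (x_k v) • v⁻¹ y_k` satisfies
`lam (z a) = lam' a` (apply `lam'` to `e1` for `a`).  It is central: `lam ((z s - s z) a) = lam' (s a) - lam' (a s) = 0` for all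
`a` (`sym`), and `lam (t a) = 0` for all `a` implies `t = 0` (`e2`).  In the same way `z'` with `lam' (z' a) = lam a`.
`lam (z z' a) = lam' (z' a) = lam a`, so `z z' = 1`.  `z' x_k`, `y_k` is a system for `lam'`: `lam' (v⁻¹ y_k a) = lam (v⁻¹ y_k (z a))`
and `∑ lam (v⁻¹ y_k (z a)) • (z' x_k v) = z' z a = a`; `lam' (a z' x_k v) = lam (a x_k v)`.  `S0.IndStmt` (`a = 1`):
`∑ x' y' = ∑ z' x_k y_k = z' rt x y 1`, so `u' z' * rt x y 1 = 1`. -/
def ZunStmt : Prop := ∀ (F V E A K : Type) [Field F] [CommGroup V] [Fintype V] [Group E]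
  [Ring A] [Algebra F A] [Fintype K] (φ : E →* MulAut V) (α : V →* A) (lam : A →ₗ[F] F)
  (x y : K → A), Cl F φ α → RF F α lam x y → ∃ u₀ : A, u₀ * rt x y 1 = 1

/-- BQT: transitivity of Brauer quotients.

Proof.  `S0.BbkStmt` with `Q := T`, `P := T'` (`T' ⊔ T = T'`): every `z ∈ FxR (cw F αT) T'` is `βT a` with
`a ∈ FxR (cw F α) T'`; `β' z := βT' a` for such an `a` (chosen), `β' z := 0` for the other `z`.  If `βT a = βT a₁` with
`a, a₁ ∈ FxR (cw F α) T'` then `βT (a - a₁) = 0 ∈ BKR (cw F αT) T'`, so `a - a₁ ∈ BKR (cw F α) T'` and `βT' a = βT' a₁`: this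
gives `β' (βT a) = βT' a` for all `a ∈ FxR (cw F α) T'`.  `add`, `smul`, `mul`, `one`, `om`: from this formula (`FxR (cw F α) T' ≤
FxR (cw F α) T`, a subalgebra).  `ker`: `β' (βT a) = 0` iff `βT' a = 0` iff `a ∈ BKR (cw F α) T'` iff `βT a ∈ BKR (cw F αT) T'`.
`surj`: `IsBQ.surj` for `βT'`. -/
def BqtStmt : Prop := ∀ (ℓ : ℕ) [Fact ℓ.Prime] (F V E A BT BT' K : Type) [Field F] [CharP F ℓ]
  [CommGroup V] [Fintype V] [Group E] [Ring A] [Algebra F A] [Ring BT] [Algebra F BT] [Ring BT']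
  [Algebra F BT'] [Fintype K] (φ : E →* MulAut V) (α : V →* A) (lam : A →ₗ[F] F) (x y : K → A)
  (T T' : Subgroup V) (αT : V →* BT) (βT : A → BT) (αT' : V →* BT') (βT' : A → BT'),
  IsPGroup ℓ V → Per F φ α → RF F α lam x y → IsBQ F α T αT βT → IsBQ F α T' αT' βT' → T ≤ T' →
  ∃ β' : BT → BT', IsBQ F αT T' αT' β' ∧ ∀ a ∈ FxR (cw F α) T', β' (βT a) = βT' a

/-- MCO: the Mackey formula if `E` centralises `Q`.

Proof.  `S0.MckStmt` with `T = {1}` (`φ e` and `φ 1` are the identity on `Q`, so `(φ e)⁻¹ q = q`), `n e`, `n' e` from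
`Uni`, with `n 1 = n' 1 = 1`. -/
def McoStmt : Prop := ∀ (ℓ : ℕ) [Fact ℓ.Prime] (F V E A B K KB : Type) [Field F] [CharP F ℓ]
  [CommGroup V] [Fintype V] [Group E] [Ring A] [Algebra F A] [Ring B] [Algebra F B] [Fintype K]
  [Fintype KB] (φ : E →* MulAut V) (α : V →* A) (Q : Subgroup V) (αB : V →* B) (β : A → B)
  (lam : A →ₗ[F] F) (x y : K → A) (lamB : B →ₗ[F] F) (xB yB : KB → B), IsPGroup ℓ V →
  Per F φ α → Uni φ α → RF F α lam x y → IsBQ F α Q αB β → RF F αB lamB xB yB →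
  (∀ a ∈ FxR (cw F α) Q, lamB (β a) = lam a) → (∀ e, ∀ q ∈ Q, φ e q = q) →
  ∀ a ∈ FxR (cw F α) ⊤, β (rt x y a) = rt xB yB (β a)

/-- NDI: the value of `D_e` at a central element congruent to an element of `F V`.

Proof.  `ζ` is central (`S0.ZrtStmt`).  `D Y` is central: `D (Y a) = D (a Y)` gives `D(Y) a = a D(Y)`.  `D` maps `BK = BKR (cw F α) ⊤`
into itself: for `m ∈ FxR (cw F α) P'`, `t ∈ V`: `D (t m t⁻¹) = t D(m) t⁻¹` (the terms `e(t) t ζ m t⁻¹` and `t m e(t⁻¹) t⁻¹ ζ` cancel) and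
`D m ∈ FxR (cw F α) P'` (`D (m s) = D (s m)`).  So `D Y - ∑_v p(v) e(v) v ζ ∈ BK`.  `B = A(V)` (`S0.BqxStmt`, `Q = ⊤`), `β`.  The element
`z = D Y - (∑ p v * e v) • ζ` is central and `β z = ∑_v p(v) e(v) (αB v - 1) β(ζ)` is a combination of commuting (`αB v` and
`β ζ` are central in `B`: `B` is the image of the centraliser of `V`) nilpotent elements (`(αB v - 1) ^ (ℓ ^ n) = αB (v ^ (ℓ ^ n)) - 1 = 0`), so
nilpotent, `β (z ^ n) = 0`, `z ^ n ∈ BK`: NKB. -/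
def NdiStmt : Prop := ∀ (ℓ : ℕ) [Fact ℓ.Prime] (F V E A K : Type) [Field F] [CharP F ℓ]
  [CommGroup V] [Fintype V] [Group E] [Finite E] [Ring A] [Algebra F A] [Fintype K]
  (φ : E →* MulAut V) (α : V →* A) (lam : A →ₗ[F] F) (x y : K → A) (e : V → F) (D : A →ₗ[F] A)
  (p : V → F) (Y : A), IsPGroup ℓ V → ¬ ℓ ∣ Nat.card E → Cl F φ α → RF F α lam x y →
  Adc φ e → Der D → (∀ v, D (α v) = e v • (α v * rt x y 1)) → (∀ a, Y * a = a * Y) →
  Y - Xe α p ∈ BKR (cw F α) ⊤ →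
  (∀ a, D Y * a = a * D Y) ∧ IsNilpotent (D Y - (∑ v, p v * e v) • rt x y 1)

/-! ## 2. The element given by a vertex `r` -/

/-- YCE: the element `e = ∑_(j<ℓ) m₁(r^j, r) r^-(j+1)`, `m₁ = d1 g`.

Proof.  Write `g(a)`, `r` for `g (C.i a)`, `C.i (α r)`.  `s = g(r) r⁻¹` commutes with `r^ℓ` (`r^ℓ ∈ W`: `r^ℓ g(r) = g(r^ℓ r) =
g(r r^ℓ) = g(r) r^ℓ`).  `C.i e = ∑_(j<ℓ) r^j s r^-j`: `d1 g (r^j) r = r^j g(r) - g(r^(j+1)) + g(r^j) r`, and the terms
`g(r^(j+1)) r^-(j+1)`, `g(r^j) r^-j` telescope to `g(r^ℓ) r^-ℓ - g(1) = 0`.  So `e` commutes with `r` (`r e r⁻¹ = e + r^ℓ s r^-ℓ - s`).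
Let `a` commute with `r`.  `[a, C.i e] = ∑ r^j [a, s] r^-j`, `[a, s] = [a, g(r)] r⁻¹`, and
`m₁(a, r) - m₁(r, a) = [a, g(r)] + [g(a), r]`, `[g(a), r] r⁻¹ = g(a) - r g(a) r⁻¹`, and
`∑_(j<ℓ) r^j (g(a) - r g(a) r⁻¹) r^-j = g(a) - r^ℓ g(a) r^-ℓ = 0` (`r^ℓ ∈ W`, `r^ℓ a = a r^ℓ`).  So `[a, e] = ∑_(j<ℓ) r^j h r^-j` with
`C.i h = (m₁(a, r) - m₁(r, a)) r⁻¹` (integral), and `h` commutes with `r^ℓ` (`WB2` for `d1 g`, or directly).  `⟨r^ℓ⟩ < ⟨r⟩`
(`r^ℓ ∈ W`, `r ∉ W`), and `{r^j | j < ℓ}` is a transversal. -/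
def YceStmt : Prop :=
  ∀ (ℓ : ℕ) [Fact ℓ.Prime] (R K V A B κ Ω : Type) [CommRing R] [Field K] [Algebra R K]
    [CommGroup V] [Fintype V] [Ring A] [Algebra R A] [Ring B] [Algebra R B] [Algebra K B]
    [Fintype κ] [Fintype Ω] [MulAction (V × V) Ω] (W : Subgroup V) (α : V →* A)
    (lam : A →ₗ[R] R) (x y : κ → A) (b : Ω → A) (c : Ω → (A →ₗ[R] R))
    (C : KC R K B α lam x y b c) (g : B →ₗ[K] B) (r : V) (e : A), IsPGroup ℓ V →
    WBl (ia C.i α) W g → g 1 = 0 → (∀ a₁ a₂, In C.i (d1 g (C.i a₁) (C.i a₂))) → r ∉ W →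
    r ^ ℓ ∈ W → C.i e = ∑ j ∈ Finset.range ℓ,
      d1 g (C.i (α (r ^ j))) (C.i (α r)) * C.i (α (r ^ (j + 1))⁻¹) →
    e * α r = α r * e ∧
      ∀ a : A, a * α r = α r * a → a * e - e * a ∈ BKR (cw R α) (Subgroup.zpowers r)

/-- YCB (uses YCE, LFX): the element is central in `A₀(⟨r⟩)`.

Proof.  `f.q e` commutes with `⟨r⟩` (YCE; `f.q (α v) = α₀ v`).  Every `s ∈ Br` is `β (f.q a)` with `a ∈ FxR (cw R α) ⟨r⟩`
(`IsBQ.surj`, LFX (1)).  `a e - e a ∈ BKR (cw R α) ⟨r⟩`, and `f.q` maps `BKR (cw R α)` into `BKR (cw F α₀)` (span induction), so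
`β (f.q a) β (f.q e) = β (f.q e) β (f.q a)`. -/
def YcbStmt : Prop :=
  ∀ (ℓ : ℕ) [Fact ℓ.Prime] (R K F V A A₀ B κ Ω Br : Type) [CommRing R] [Field K]
    [Algebra R K] [Field F] [CommGroup V] [Fintype V] [Ring A] [Algebra R A] [Ring A₀]
    [Algebra F A₀] [Ring B] [Algebra R B] [Algebra K B] [Fintype κ] [Fintype Ω]
    [MulAction (V × V) Ω] [Ring Br] [Algebra F Br] (W : Subgroup V) (α : V →* A)
    (lam : A →ₗ[R] R) (x y : κ → A) (b : Ω → A) (c : Ω → (A →ₗ[R] R))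
    (C : KC R K B α lam x y b c) (cv : Cdv R F) (f : FibG A A₀ cv) (α₀ : V →* A₀)
    (lam₀ : A₀ →ₗ[F] F) (x₀ y₀ : κ → A₀) (b₀ : Ω → A₀) (c₀ : Ω → (A₀ →ₗ[F] F)) (g : B →ₗ[K] B)
    (r : V) (e : A) (αB : V →* Br) (β : A₀ → Br), IsPGroup ℓ V → FrR (bw F α₀) b₀ c₀ →
    LiftV cv α₀ lam₀ x₀ y₀ b₀ c₀ f α lam x y b c →
    WBl (ia C.i α) W g → g 1 = 0 → (∀ a₁ a₂, In C.i (d1 g (C.i a₁) (C.i a₂))) → r ∉ W →
    r ^ ℓ ∈ W → IsBQ F α₀ (Subgroup.zpowers r) αB β → C.i e = ∑ j ∈ Finset.range ℓ,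
      d1 g (C.i (α (r ^ j))) (C.i (α r)) * C.i (α (r ^ (j + 1))⁻¹) →
    f.q e ∈ FxR (cw F α₀) (Subgroup.zpowers r) ∧ ∀ s : Br, β (f.q e) * s = s * β (f.q e)

/-! ## 3. The relation given by `r` -/

/-- VTA (uses HON, DEX, DZC): a derivation which kills `W`, and a central element killed by it.

Proof.  `q v = δ (v) v⁻¹` is a cocycle, `q w = 0` for `w ∈ W`: HON (the last hypothesis) gives `a`, `y₀`.  `δ' s = δ s + (y₀ s - s y₀)` is a
derivation with `δ' v v⁻¹ = ∑ la l v • a l`, `δ' z = δ z = 0`.  `D l` from DEX.  DZC for `δ'` and `z`. -/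
def VtaStmt : Prop := ∀ (ℓ : ℕ) [Fact ℓ.Prime] (F V E A K : Type) [Field F] [CommGroup V]
  [Fintype V] [Group E] [Ring A] [Algebra F A] [Fintype K] (φ : E →* MulAut V) (α : V →* A)
  (lam : A →ₗ[F] F) (x y : K → A) (W : Subgroup V) (n : ℕ) (la : Fin n → V → F) (δ : A →ₗ[F] A)
  (z : A), Per F φ α → RF F α lam x y → (∀ v : V, v ^ ℓ ∈ W) → (∀ l, Adc φ (la l)) → Der δ →
  (∀ w ∈ W, δ (α w) = 0) → (∀ a, z * a = a * z) → δ z = 0 →
  (∀ μ : V → F, (∀ u v, μ (u * v) = μ u + μ v) → (∀ w ∈ W, μ w = 0) →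
    ∃ c : Fin n → F, ∀ v, μ v = ∑ l, c l * la l v) →
  ∃ (a : Fin n → A) (y₀ : A) (D : Fin n → (A →ₗ[F] A)), (∀ l, a l ∈ FxR (cw F α) ⊤) ∧
    (∀ v, δ (α v) * α v⁻¹ = ∑ l, la l v • a l + (α v * y₀ * α v⁻¹ - y₀)) ∧
    (∀ l, Der (D l)) ∧ (∀ l v, D l (α v) = la l v • (α v * rt x y 1)) ∧
    ∑ l, D l z * rt x y (a l) = 0

/-- VTX (uses ZUN, BQT, MCO, NDI, VTA; S0.BclStmt BbkStmt FcoStmt FbkStmt ZrtStmt): the relation in the centre of
`A₀(Q)` given by `r ∈ Q`, `Q = QW0 φ W`.  `w u` is the element of OBW for `(u, r)`.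

Proof.  `P = ⟨r⟩ ≤ Q`, `E1 = {e | ∀ q ∈ P, φ e q = q}`.  For `e ∈ E1`: `φ e r * r⁻¹ = 1 ∈ W`, so `φ e u * u⁻¹ ∈ W` for all `u`
(`Chf.fr`): `la l (φ e u) = la l u` (`Eg.add`, `Eg.ker`), i.e. `Adc (φ.comp E1.subtype) (la l)`, and `φ e q = q` for `q ∈ Q` (definition of
`QW0`).  `Br`, `BQ` are in the class (BCL) for `φ.comp E1.subtype`, and the centraliser of `Q`.
`Y = β (D r)` is central.  VTA for `Br`, `δ`, `z = Y`: `a`, `y₀`, `Dl`, `∑ Dl Y * rt xB yB (a l) = 0`.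
`β'` from BQT (`T = P`, `T' = Q`), `β' (β a) = βQ a` for `a ∈ FxR (cw F α) Q`; `lamQ (β' s) = lamB s` for `s ∈ FxR (cw F αB) Q` (`s = β a` with
`a ∈ FxR (cw F α) Q`: BBK (2)).
(1) `β' (a n) = ∑_u xx n u • w u` for all `n`.  For `z ∈ FxR (cw F α) Q`, `u ∈ Q`: `lamB (β z * (u y₀ u⁻¹ - y₀)) = 0` (`β z` commutes with `u`,
`sym`), so `lamQ (βQ z * w u) = lamB (β z * (δ u u⁻¹)) = ∑_l la l u • lamB (β z * a l) = lamQ (βQ z * ∑_l la l u • β' (a l))`; `βQ z` is
arbitrary in `BQ` and `lamQ` nondegenerate: `w u = ∑_l la l u • β' (a l)` for `u ∈ Q`; `xx n` is supported in `Q` (`Eg.qs`) and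
`∑_u xx n u * la l u = δ_nl` (`Eg.xl`).
(2) `β' (rt xB yB (a l)) = rt xQ yQ (β' (a l)) = ζQ * ∑_u xx l u • w u`?  MCO for `Br`, `φ.comp E1.subtype`, `Q`, `β'`: the first
equality.  `β' (a l)` is central in `BQ`: by (1) it is a combination of the `w u`, `u ∈ Q`, which are central (hypothesis).
(3) `D r - Xe α p ∈ BKR (cw F α) Q`, `p = pg la xx t r` (`Drd.bk`), and it is fixed by `V`, so it is in `BKR (cw F α) ⊤` (FCO: the
coefficients at the points fixed by `Q` vanish, FBK, for the frame of `Per` with the diagonal action), so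
`Y - Xe αB p ∈ BKR (cw F αB) ⊤` (BBK (1), `P = ⊤`; `β` is linear on `FxR`).  NDI for `Br`, `Dl`: `Dl Y - (∑ p v * la l v) • ζB` is central and
nilpotent, `∑_v p v * la l v = t l * la l r` (`Eg.xl`).
(4) `β' ζB = ζQ` (MCO, `a = 1`), `ζQ` is central with inverse `u₀` (ZUN).  Apply `β'` to `∑ Dl Y * rt xB yB (a l) = 0` (all factors are
central in `Br`, so in `FxR (cw F αB) Q`): `∑_l ((t l * la l r) • ζQ + N l) * (ζQ * ∑_u xx l u • w u) = 0`, `N l` = `β'` of the nilpotent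
element, central as `β'` is surjective from `FxR`; multiply by `u₀ * u₀`: `m l = u₀ * N l`. -/
def VtxStmt : Prop := ∀ (ℓ : ℕ) [Fact ℓ.Prime] (F V E A Br BQ K KB KQ : Type) [Field F]
  [CharP F ℓ] [CommGroup V] [Fintype V] [Group E] [Finite E] [Ring A] [Algebra F A] [Ring Br]
  [Algebra F Br] [Ring BQ] [Algebra F BQ] [Fintype K] [Fintype KB] [Fintype KQ]
  (φ : E →* MulAut V) (α : V →* A) (lam : A →ₗ[F] F) (x y : K → A) (W : Subgroup V) (n : ℕ)
  (la : Fin n → V → F) (χ : Fin n → E → F) (xx : Fin n → V → F) (t : Fin n → F) (D : V → A)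
  (r : V) (αB : V →* Br) (β : A → Br) (lamB : Br →ₗ[F] F) (xB yB : KB → Br) (αQ : V →* BQ)
  (βQ : A → BQ) (lamQ : BQ →ₗ[F] F) (xQ yQ : KQ → BQ) (δ : Br →ₗ[F] Br) (w : V → BQ),
  IsPGroup ℓ V → ¬ ℓ ∣ Nat.card E → Chf ℓ φ W → Cl F φ α → RF F α lam x y →
  Drd F φ α W (QW0 φ W) la χ xx t D → r ∈ QW0 φ W → r ∉ W →
  IsBQ F α (Subgroup.zpowers r) αB β → RF F αB lamB xB yB →
  (∀ a ∈ FxR (cw F α) (Subgroup.zpowers r), lamB (β a) = lam a) →
  IsBQ F α (QW0 φ W) αQ βQ → RF F αQ lamQ xQ yQ →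
  (∀ a ∈ FxR (cw F α) (QW0 φ W), lamQ (βQ a) = lam a) →
  Der δ → (∀ v ∈ W, δ (αB v) = 0) → (∀ s, β (D r) * s = s * β (D r)) → δ (β (D r)) = 0 →
  (∀ u ∈ QW0 φ W, ∀ s, w u * s = s * w u) →
  (∀ u ∈ QW0 φ W, ∀ z ∈ FxR (cw F α) (QW0 φ W),
    lamB (β z * (δ (αB u) * αB u⁻¹)) = lamQ (βQ z * w u)) →
  ∃ m : Fin n → BQ, (∀ l, IsNilpotent (m l) ∧ ∀ s, m l * s = s * m l) ∧
    ∑ l, (algebraMap F BQ (t l * la l r) + m l) * ∑ u, xx l u • w u = 0

/-- LAL (uses ALT, row 213): linear algebra.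

Proof.  Choose `s : V → V` with `s v ∈ Q`, `v = s v * w`, `w ∈ W` (`hQ`), and put `w' u v = w (s u) (s v)`: `w u v` for `u, v ∈ Q` depends
only on the classes modulo `W` (additivity, and `w u v = 0` if `u` or `v` is in `Q ∩ W`), so `w' u v = w u v` for `u, v ∈ Q`; `w'` is
biadditive, zero on `W`, `w' u u = 0`, `w' v u = - w' u v`, and the relation holds for `w'` and all `u ∈ V` (for `u ∈ W` it is trivial; `xx l` is
supported in `Q`, `la l (s u) = la l u`).  `I` = the ideal spanned by all `w' u v`, `J = nilradical Z`.  In `M = Z ⧸ (J * I)`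
(an `F`-space) the image `f` of `w'` satisfies `∑_v pg la xx t u v • f u v = - ∑_l (t l * la l u) ∑_v xx l v • f v u = 0` by the relation
(`n l * ∑_v xx l v • w' v u ∈ J * I`).  ALT: `f = 0`, so `I ≤ J * I`; `I` is finitely generated (`Z` is Noetherian), `J` is contained in the
Jacobson radical: `Submodule.eq_bot_of_le_smul_of_le_jacobson_bot`: `I = 0`. -/
def LalStmt : Prop := ∀ (F V E Z : Type) [Field F] [CommGroup V] [Fintype V] [Group E]
  [CommRing Z] [Algebra F Z] [FiniteDimensional F Z] (φ : E →* MulAut V) (W Q : Subgroup V)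
  (n : ℕ) (la : Fin n → V → F) (χ : Fin n → E → F) (xx : Fin n → V → F) (t : Fin n → F)
  (w : V → V → Z), Eg F φ W Q la χ xx t → (∀ v : V, ∃ q ∈ Q, ∃ s ∈ W, v = q * s) →
  (∀ u ∈ Q, ∀ u' ∈ Q, ∀ v ∈ Q, w (u * u') v = w u v + w u' v) →
  (∀ u ∈ Q, ∀ v ∈ Q, w v u = - w u v) → (∀ u ∈ Q, w u u = 0) →
  (∀ u ∈ Q, ∀ v ∈ Q, u ∈ W → w u v = 0) →
  (∀ u ∈ Q, u ∉ W → ∃ m : Fin n → Z, (∀ l, IsNilpotent (m l)) ∧
    ∑ l, (algebraMap F Z (t l * la l u) + m l) * ∑ v, xx l v • w v u = 0) →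
  ∀ u ∈ Q, ∀ v ∈ Q, w u v = 0

/-! ## 4. Assembly -/

/-- DXI (interface to part 2, helper43): the derivation of `A₀(⟨r⟩)` given by a cocycle which satisfies the
Bianchi identity. -/
def DxiStmt : Prop :=
  ∀ (ℓ : ℕ) [Fact ℓ.Prime] (R K F V E A A₀ B κ Ω Br KB : Type) [CommRing R] [IsDomain R]
    [IsPrincipalIdealRing R] [CharZero R] [Field K] [CharZero K] [Algebra R K] [Field F]
    [IsAlgClosed F] [CharP F ℓ] [CommGroup V] [Fintype V] [Group E] [Fintype E] [Ring A]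
    [Algebra R A] [Module.Finite R A] [Module.Free R A] [Ring A₀] [Algebra F A₀] [Ring B]
    [Algebra R B] [Algebra K B] [Fintype κ] [Fintype Ω] [MulAction (V × V) Ω] [Ring Br]
    [Algebra F Br] [Fintype KB] (φ : E →* MulAut V) (W : Subgroup V) (α : V →* A)
    (lam : A →ₗ[R] R) (x y : κ → A) (b : Ω → A) (c : Ω → (A →ₗ[R] R))
    (C : KC R K B α lam x y b c) (cv : Cdv R F) (f : FibG A A₀ cv) (α₀ : V →* A₀)
    (lam₀ : A₀ →ₗ[F] F) (x₀ y₀ : κ → A₀) (b₀ : Ω → A₀) (c₀ : Ω → (A₀ →ₗ[F] F))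
    (m₁ cc : B →ₗ[K] B →ₗ[K] B) (r : V) (αB : V →* Br) (β : A₀ → Br) (lamB : Br →ₗ[F] F)
    (xB yB : KB → Br), Kx ℓ φ W C f α₀ lam₀ x₀ y₀ b₀ c₀ →
    WB2 (ia C.i α) W (fun a b => m₁ a b) → Nrm (fun a b => m₁ a b) →
    (∀ a₁ a₂, In C.i (m₁ (C.i a₁) (C.i a₂))) →
    (∀ a₁ a₂ a₃ : B, dl (fun a b => m₁ a b) a₁ a₂ a₃ = 0) → Z2 C W cc → Bi C W m₁ cc →
    r ∉ W → r ^ ℓ ∈ W → IsBQ F α₀ (Subgroup.zpowers r) αB β → RF F αB lamB xB yB →
    (∀ a ∈ FxR (cw F α₀) (Subgroup.zpowers r), lamB (β a) = lam₀ a) →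
    ∃ δ : Br →ₗ[F] Br, Der δ ∧ (∀ w ∈ W, δ (αB w) = 0) ∧
      (∀ (z : A) (g : V) (ρ : R), z * α r = α r * z → z * α g = α g * z →
        algebraMap R K ρ = (ℓ : K) * C.lamK (C.i z * kp C.i α cc g r) →
        lamB (β (f.q z) * (δ (αB g) * αB g⁻¹)) = cv.κ ρ) ∧
      ∀ e : A, C.i e = ∑ j ∈ Finset.range ℓ,
          m₁ (C.i (α (r ^ j))) (C.i (α r)) * C.i (α (r ^ (j + 1))⁻¹) → δ (β (f.q e)) = 0

/-- KYA: assembly of `KeyStmt`.

Proof.  `Q = QW0 φ W`, `hQ` from QWV (`Chf.sw`).  `Kx` from the hypotheses (`ch`, `pi`, ..).  OBR: it is enough that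
`InR (C.lamK (C.i z * kp C.i α cc u v))` for `u, v ∈ Q`, `z ∈ FxR (cw R α) Q`.  `BQ = A₀(Q)` (`S0.BqxStmt`), `lamQ`, `xQ`, `yQ`
(`S0.BpuStmt`, `E1` = the centraliser of `Q`).  OBW (`T = Q`) and choice: `w : V → V → BQ`, central values (for all `u`, `v`: put
`w u v = 0` if `u ∉ Q` or `v ∉ Q`).  OBX: biadditive, alternating, zero on `W`, and it is enough that `w u v = 0` for
`u, v ∈ Q`.  LAL for `Z = Subalgebra.center F BQ` (finite-dimensional: `S0.BclStmt`, `Cl.fin`) and `w` with values in `Z`.  The relation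
for `r ∈ Q`, `r ∉ W`: `Br = A₀(⟨r⟩)` (`S0.BqxStmt`, `S0.BpuStmt`: `lamB`, `xB`, `yB`), DRX for `m₁` (`WB2`, `Nrm`, `dl m₁ = 0` follow from
`m₁ = d1 g`): `δ`.  `e` with `C.i e = ∑_(j<ℓ) m₁(r^j, r) r^-(j+1)` (integral).  YCB: `β (f.q e)` is central; `f.q e - D r ∈ BKR` (`Ekc`), both are
fixed by `⟨r⟩`: `β (D r) = β (f.q e)` (`IsBQ.ker`, linearity), so `δ (β (D r)) = 0`.  For `u ∈ Q`, `z₀ ∈ FxR (cw F α₀) Q`: `z₀ = f.q z`,
`z ∈ FxR (cw R α) Q` (LFX (1)), `ρ` from OBA (4) (`Chf.pw`), DRX and OBW: `lamB (β z₀ * (δ u u⁻¹)) = κ ρ = lamQ (βQ z₀ * w u r)`.  VTX for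
`w · r`: `m : Fin n → BQ` central nilpotent: elements of `Z`. -/
def KyaStmt : Prop :=
  DxiStmt → ObaStmt → LfxStmt → ObwStmt → ObxStmt → ObrStmt → YcbStmt → VtxStmt → LalStmt →
    QwvStmt → S0.BqxStmt → S0.BpuStmt → S0.BclStmt → KeyStmt

/-- KYD: `KywStmt` of `StmtsDZ.lean` follows from `KeyStmt`.

Proof.  Only `Ekc` and the integrality are to be shown.  Let `u ∉ W`, `C.i e = ∑_j m₁(u^j, u) u^-(j+1)`.  `C.i e_j = m₁(u^j, u)`,
`f.q e_j = D₀.m 1 (α₀ (u ^ j)) (α₀ u)` (`LiftV.qa`), so `e = ∑_j e_j * α (u ^ (j+1))⁻¹` (`C.inj`) and `f.q e` is the sum in the hypothesis. -/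
def KydStmt : Prop := KeyStmt → KywStmt

end Pool.Agent.PST
end
end -- Pool.Agent.PST.StmtsK4

section -- Pool.Agent.Helper10_PST.ZUN

/-!
# Squad PST, row ZUN (helper10): `rt x y 1` is a unit for every form
-/

open scoped BigOperators

noncomputable section

namespace Pool.Agent.PST.H10

open Pool.Agent.PSS

section zun

variable {F V A K : Type} [Field F] [CommGroup V] [Fintype V] [Ring A] [Algebra F A] [Fintype K]
  {α : V →* A} {lam : A →ₗ[F] F} {x y : K → A}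

theorem zun_nd (h : RF F α lam x y) (t : A) (ht : ∀ a, lam (t * a) = 0) : t = 0 := by
  rw [← h.e2 t]
  refine Finset.sum_eq_zero fun k _ => Finset.sum_eq_zero fun v _ => ?_
  rw [ht, zero_smul]

theorem zun_ex (h : RF F α lam x y) (lam' : A →ₗ[F] F) (hs : ∀ a b, lam' (a * b) = lam' (b * a)) :
    ∃ z : A, (∀ a, lam (z * a) = lam' a) ∧ ∀ s, z * s = s * z := by
  have hz : ∀ a, lam ((∑ k, ∑ v, lam' (x k * α v) • (α v⁻¹ * y k)) * a) = lam' a := by
    intro a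
    conv_rhs => rw [← h.e1 a]
    rw [Finset.sum_mul, map_sum, map_sum]
    refine Finset.sum_congr rfl fun k _ => ?_
    rw [Finset.sum_mul, map_sum, map_sum]
    refine Finset.sum_congr rfl fun v _ => ?_
    rw [smul_mul_assoc, map_smul, map_smul, smul_eq_mul, smul_eq_mul, mul_comm]
  refine ⟨_, hz, fun s => ?_⟩
  rw [← sub_eq_zero]
  refine zun_nd h _ fun a => ?_
  rw [sub_mul, map_sub, mul_assoc, hz, mul_assoc s, h.sym s, mul_assoc, hz, hs, sub_self]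

end zun

theorem zun : ZunStmt := by
  intro F V E A K _ _ _ _ _ _ _ φ α lam x y hC hR
  obtain ⟨lam', K', iK', x', y', hR', u', hu'⟩ := hC.rt
  obtain ⟨z, hz, hzc⟩ := zun_ex hR lam' hR'.sym
  obtain ⟨z', hz', hzc'⟩ := zun_ex hR' lam hR.sym
  have h1 : z * z' = 1 := by
    rw [← sub_eq_zero]
    refine zun_nd hR _ fun a => ?_
    rw [sub_mul, map_sub, mul_assoc, hz, hz', one_mul, sub_self]
  have h2 : z' * z = 1 := by rw [hzc', h1]
  have hS : RF F α lam' (fun k => z' * x k) y := by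
    refine ⟨hR'.sym, fun a => ?_, fun a => ?_⟩
    · have h3 : ∀ k v, lam' (α v⁻¹ * y k * a) • (z' * x k * α v) =
          z' * (lam (α v⁻¹ * y k * (z * a)) • (x k * α v)) := by
        intro k v
        rw [mul_smul_comm, mul_assoc z', ← hz (α v⁻¹ * y k * a), ← mul_assoc z, hzc,
          mul_assoc _ z a]
      have h4 : ∑ k, ∑ v, lam' (α v⁻¹ * y k * a) • (z' * x k * α v) =
          z' * ∑ k, ∑ v, lam (α v⁻¹ * y k * (z * a)) • (x k * α v) := by
        rw [Finset.mul_sum]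
        refine Finset.sum_congr rfl fun k _ => ?_
        rw [Finset.mul_sum]
        exact Finset.sum_congr rfl fun v _ => h3 k v
      rw [h4, hR.e1, ← mul_assoc, h2, one_mul]
    · have h3 : ∀ k v, lam' (a * (z' * x k * α v)) = lam (a * (x k * α v)) := by
        intro k v
        rw [mul_assoc z', ← mul_assoc a z', ← hzc', mul_assoc z', hz']
      have h4 : ∑ k, ∑ v, lam' (a * (z' * x k * α v)) • (α v⁻¹ * y k) =
          ∑ k, ∑ v, lam (a * (x k * α v)) • (α v⁻¹ * y k) :=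
        Finset.sum_congr rfl fun k _ => Finset.sum_congr rfl fun v _ => by rw [h3 k v]
      rw [h4, hR.e2]
  have hmem : (1 : A) ∈ FxR (cw F α) ⊤ := by
    intro v _
    show α v * (1 * α v⁻¹) = 1
    rw [one_mul, ← map_mul, mul_inv_cancel, map_one]
  have h5 := S0.H95.ind F V A K K' α lam' (fun k => z' * x k) y x' y' hS hR' 1 hmem
  have h6 : ∑ k, x' k * y' k = z' * rt x y 1 := by
    have h7 : ∑ k, x' k * 1 * y' k = ∑ k, x' k * y' k :=
      Finset.sum_congr rfl fun k _ => by rw [mul_one]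
    rw [← h7, ← h5]
    unfold rt
    rw [Finset.mul_sum]
    exact Finset.sum_congr rfl fun k _ => by rw [mul_assoc, mul_assoc, mul_assoc]
  refine ⟨u' * z', ?_⟩
  rw [mul_assoc, ← h6, hu']

end Pool.Agent.PST.H10
end
end -- Pool.Agent.Helper10_PST.ZUN

section -- Pool.Agent.Helper13_PST.OBC

/-!
# Row OBC of squad PST: the forms vanish on traces
-/

set_option autoImplicit false

open scoped BigOperators

noncomputable section

namespace Pool.Agent.PST.H13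

open Pool.Agent.PSS
open Pool.Agent.PFC (IsTv)

section tv

variable {V M : Type} [CommGroup V] [AddCommMonoid M]

/-- the trace does not depend on the transversal -/
theorem tv_indep {P' P : Subgroup V} {S1 S2 : Finset V} (h1 : IsTv P' P S1) (h2 : IsTv P' P S2)
    (f : V → M) (hf : ∀ x, ∀ p ∈ P', f (x * p) = f x) : ∑ s ∈ S1, f s = ∑ s ∈ S2, f s := by
  classical
  choose! i hi _ using fun s (hs : s ∈ S1) => h2.2 s (h1.1 s hs)
  choose! j hj _ using fun s (hs : s ∈ S2) => h1.2 s (h2.1 s hs)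
  refine Finset.sum_nbij' i j (fun s hs => (hi s hs).1) (fun s hs => (hj s hs).1) ?_ ?_ ?_
  · intro s hs
    have e1 := hi s hs
    have e2 := hj _ e1.1
    refine (h1.2 (i s) (h2.1 _ e1.1)).unique e2 ⟨hs, ?_⟩
    have e3 := P'.inv_mem e1.2
    rwa [mul_inv_rev, inv_inv] at e3
  · intro s hs
    have e1 := hj s hs
    have e2 := hi _ e1.1
    refine (h2.2 (j s) (h1.1 _ e1.1)).unique e2 ⟨hs, ?_⟩
    have e3 := P'.inv_mem e1.2
    rwa [mul_inv_rev, inv_inv] at e3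
  · intro s hs
    have e1 := hi s hs
    have e2 := hf (i s) _ e1.2
    rw [mul_inv_cancel_left] at e2
    exact e2

theorem tv_mul [DecidableEq V] {P' P : Subgroup V} {S : Finset V} (h : IsTv P' P S) {t : V}
    (ht : t ∈ P) : IsTv P' P (S.image fun x => t * x) := by
  constructor
  · intro s hs
    rw [Finset.mem_image] at hs
    obtain ⟨x, hx, rfl⟩ := hs
    exact P.mul_mem ht (h.1 x hx)
  · intro p hp
    obtain ⟨s, ⟨hs1, hs2⟩, hs3⟩ := h.2 (t⁻¹ * p) (P.mul_mem (P.inv_mem ht) hp)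
    refine ⟨t * s, ⟨Finset.mem_image_of_mem _ hs1, ?_⟩, ?_⟩
    · rw [mul_inv_rev, mul_assoc]
      exact hs2
    · rintro y ⟨hy1, hy2⟩
      rw [Finset.mem_image] at hy1
      obtain ⟨x, hx, rfl⟩ := hy1
      rw [mul_inv_rev, mul_assoc] at hy2
      rw [hs3 x ⟨hx, hy2⟩]

end tv

section inr

variable {R K : Type} [CommRing R] [Field K] [Algebra R K]

theorem inR_zero : InR R (0 : K) := ⟨0, map_zero _⟩

theorem inR_add {s t : K} (hs : InR R s) (ht : InR R t) : InR R (s + t) := by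
  obtain ⟨a, rfl⟩ := hs
  obtain ⟨b, rfl⟩ := ht
  exact ⟨a + b, map_add _ _ _⟩

theorem inR_neg {s : K} (hs : InR R s) : InR R (-s) := by
  obtain ⟨a, rfl⟩ := hs
  exact ⟨-a, map_neg _ _⟩

theorem inR_sub {s t : K} (hs : InR R s) (ht : InR R t) : InR R (s - t) := by
  rw [sub_eq_add_neg]
  exact inR_add hs (inR_neg ht)

theorem inR_sum {ι : Type} (S : Finset ι) (f : ι → K) (h : ∀ i ∈ S, InR R (f i)) :
    InR R (∑ i ∈ S, f i) := by
  classical
  induction S using Finset.induction_on with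
  | empty => rw [Finset.sum_empty]; exact inR_zero
  | insert a S ha ih =>
    rw [Finset.sum_insert ha]
    exact inR_add (h a (Finset.mem_insert_self _ _)) (ih fun i hi =>
      h i (Finset.mem_insert_of_mem hi))

end inr

/-- generators of a finite `ℓ`-group over a maximal subgroup -/
theorem max_gen {ℓ : ℕ} [Fact ℓ.Prime] {V : Type} [CommGroup V] [Finite V] (hp : IsPGroup ℓ V)
    {P' T : Subgroup V} (hlt : P' < T) : ∃ (T' : Subgroup V) (g : V), P' ≤ T' ∧ T' ≤ T ∧ g ∈ T ∧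
      g ∉ T' ∧ g ^ ℓ ∈ T' ∧ ∀ x ∈ T, ∃ y ∈ T', ∃ n : ℕ, x = y * g ^ n := by
  obtain ⟨T', ⟨hT1, hT2⟩, hmax⟩ :=
    (Set.toFinite {Q : Subgroup V | P' ≤ Q ∧ Q < T}).exists_maximal ⟨P', le_rfl, hlt⟩
  obtain ⟨v, hv, hv'⟩ := SetLike.exists_of_lt hT2
  have hex : ∃ k, v ^ (ℓ ^ k) ∈ T' := by
    obtain ⟨k, hk⟩ := hp v
    exact ⟨k, by rw [hk]; exact T'.one_mem⟩
  classical
  obtain ⟨k, hk, hk'⟩ : ∃ k, v ^ (ℓ ^ k) ∈ T' ∧ ∀ m < k, v ^ (ℓ ^ m) ∉ T' :=
    ⟨Nat.find hex, Nat.find_spec hex, fun m hm => Nat.find_min hex hm⟩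
  obtain ⟨j, rfl⟩ : ∃ j, k = j + 1 := by
    rcases k with _ | j
    · rw [pow_zero, pow_one] at hk
      exact absurd hk hv'
    · exact ⟨j, rfl⟩
  refine ⟨T', v ^ (ℓ ^ j), hT1, hT2.le, T.pow_mem hv _, hk' j (Nat.lt_succ_self j), ?_, ?_⟩
  · rw [← pow_mul, ← pow_succ]
    exact hk
  · intro x hx
    have h1 : T' ⊔ Subgroup.zpowers (v ^ (ℓ ^ j)) = T := by
      by_contra hne
      have h2 : T' ⊔ Subgroup.zpowers (v ^ (ℓ ^ j)) ≤ T :=
        sup_le hT2.le (by rw [Subgroup.zpowers_le]; exact T.pow_mem hv _)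
      have h3 := hmax ⟨hT1.trans le_sup_left, lt_of_le_of_ne h2 hne⟩ le_sup_left
      exact hk' j (Nat.lt_succ_self j) (h3 (Subgroup.mem_sup_right (Subgroup.mem_zpowers _)))
    rw [← h1, Subgroup.mem_sup] at hx
    obtain ⟨y, hy, z, hz, rfl⟩ := hx
    obtain ⟨n, hn⟩ := (mem_powers_iff_mem_zpowers.2 hz)
    exact ⟨y, hy, n, by rw [← hn]⟩

theorem obc (oba : ObaStmt) (obb : ObbStmt) (obn : ObnStmt) : ObcStmt := by
  intro R K V A B κ Ω _ _ _ _ _ _ _ _ _ _ _ _ _ W α lam x y b c C cc ℓ _ hpg hW hZ T z hz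
  obtain ⟨a1, a2, a3, a4⟩ := oba R K V A B κ Ω W α lam x y b c C cc hZ
  obtain ⟨_, b2⟩ := obb R K V A B κ Ω W α lam x y b c C cc hZ
  have hn := obn R K V A B κ Ω W α lam x y b c C cc hZ
  classical
  unfold BKR at hz
  induction hz using Submodule.span_induction with
  | zero =>
    intro u _ v _
    rw [map_zero, zero_mul, map_zero]
    exact inR_zero
  | add z z' _ _ ih ih' =>
    intro u hu v hv
    rw [map_add, add_mul, map_add]
    exact inR_add (ih u hu v hv) (ih' u hu v hv)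
  | smul r z _ ih =>
    intro u hu v hv
    obtain ⟨s, hs⟩ := ih u hu v hv
    refine ⟨r * s, ?_⟩
    rw [map_smul, ← C.tow, smul_mul_assoc, map_smul, map_mul, hs, smul_eq_mul]
  | mem z hz =>
    obtain ⟨P', S, m, hlt, hS, hm, rfl⟩ := hz
    obtain ⟨T', g, hPT, hTT, hg, hg', hgl, hgen⟩ := max_gen hpg hlt
    have hf : ∀ x, ∀ p ∈ P', cw R α (x * p) m = cw R α x m := by
      intro x p hp
      rw [map_mul, Module.End.mul_apply, hm p hp]
    -- the classes of `T'`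
    have hcl : ∀ x ∈ T, ∃ j < ℓ, (g ^ j)⁻¹ * x ∈ T' := by
      intro x hx
      obtain ⟨y, hy, n, rfl⟩ := hgen x hx
      refine ⟨n % ℓ, Nat.mod_lt _ (Fact.out : ℓ.Prime).pos, ?_⟩
      have e : (g ^ (n % ℓ))⁻¹ * (y * g ^ n) = y * (g ^ ℓ) ^ (n / ℓ) := by
        have e1 : g ^ n = g ^ (n % ℓ) * (g ^ ℓ) ^ (n / ℓ) := by
          rw [← pow_mul, ← pow_add, Nat.mod_add_div]
        rw [e1, mul_left_comm y, inv_mul_cancel_left]
      rw [e]
      exact T'.mul_mem hy (T'.pow_mem hgl _)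
    have huq0 : ∀ j k : ℕ, j < k → k < ℓ → ∀ x, (g ^ j)⁻¹ * x ∈ T' → (g ^ k)⁻¹ * x ∈ T' → False := by
      intro j k hjk hk x h1 h2
      have h3 : g ^ (k - j) ∈ T' := by
        have h4 := T'.mul_mem h1 (T'.inv_mem h2)
        have e : (g ^ j)⁻¹ * x * ((g ^ k)⁻¹ * x)⁻¹ = g ^ (k - j) := by
          rw [mul_inv_rev, inv_inv, mul_assoc, mul_inv_cancel_left, inv_mul_eq_iff_eq_mul, ← pow_add]
          congr 1
          omega
        rwa [e] at h4
      have hcop : Nat.Coprime (k - j) ℓ :=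
        (Nat.coprime_of_lt_prime (by omega) (by omega) (Fact.out : ℓ.Prime)).symm
      obtain ⟨a, b, hab⟩ := Nat.isCoprime_iff_coprime.2 hcop
      apply hg'
      have e : g = (g ^ (k - j)) ^ a * (g ^ ℓ) ^ b := by
        rw [← zpow_natCast g, ← zpow_natCast g, ← zpow_mul, ← zpow_mul, ← zpow_add,
          mul_comm (((k - j : ℕ)) : ℤ), mul_comm ((ℓ : ℕ) : ℤ), hab, zpow_one]
      rw [e]
      exact T'.mul_mem (T'.zpow_mem h3 _) (T'.zpow_mem hgl _)
    have huq : ∀ j k : ℕ, j < ℓ → k < ℓ → ∀ x, (g ^ j)⁻¹ * x ∈ T' → (g ^ k)⁻¹ * x ∈ T' → j = k := by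
      intro j k hj hk x h1 h2
      rcases lt_trichotomy j k with h | h | h
      · exact (huq0 j k h hk x h1 h2).elim
      · exact h
      · exact (huq0 k j h hj x h2 h1).elim
    choose! jj hjj1 hjj2 using hcl
    -- the transversals of `P'` in `T'`
    have hSj : ∀ j < ℓ, IsTv P' T' ((S.filter fun x => (g ^ j)⁻¹ * x ∈ T').image
        fun x => (g ^ j)⁻¹ * x) := by
      intro j hj
      constructor
      · intro s hs
        rw [Finset.mem_image] at hs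
        obtain ⟨x, hx, rfl⟩ := hs
        exact (Finset.mem_filter.1 hx).2
      · intro p hp
        obtain ⟨s, ⟨hs1, hs2⟩, hs3⟩ := hS.2 (g ^ j * p) (T.mul_mem (T.pow_mem hg _) (hTT hp))
        have hs4 : (g ^ j)⁻¹ * s ∈ T' := by
          have h1 := hPT hs2
          have e : (g ^ j)⁻¹ * s = p * (s⁻¹ * (g ^ j * p))⁻¹ := by
            rw [mul_inv_rev, mul_inv_rev, inv_inv, mul_comm (p⁻¹ * (g ^ j)⁻¹) s, mul_comm s,
              mul_assoc p⁻¹, mul_inv_cancel_left]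
          rw [e]
          exact T'.mul_mem hp (T'.inv_mem h1)
        refine ⟨(g ^ j)⁻¹ * s, ⟨Finset.mem_image_of_mem _ (Finset.mem_filter.2 ⟨hs1, hs4⟩), ?_⟩, ?_⟩
        · rw [mul_inv_rev, inv_inv, mul_assoc]
          exact hs2
        · rintro y ⟨hy1, hy2⟩
          rw [Finset.mem_image] at hy1
          obtain ⟨x, hx, rfl⟩ := hy1
          rw [mul_inv_rev, inv_inv, mul_assoc] at hy2
          rw [hs3 x ⟨(Finset.mem_filter.1 hx).1, hy2⟩]
    obtain ⟨m', hm'⟩ : ∃ m' : A, m' = ∑ s ∈ ((S.filter fun x => (g ^ 0)⁻¹ * x ∈ T').image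
        fun x => (g ^ 0)⁻¹ * x), cw R α s m := ⟨_, rfl⟩
    have hℓ0 : 0 < ℓ := (Fact.out : ℓ.Prime).pos
    have hmj : ∀ j < ℓ, ∑ s ∈ ((S.filter fun x => (g ^ j)⁻¹ * x ∈ T').image
        fun x => (g ^ j)⁻¹ * x), cw R α s m = m' := by
      intro j hj
      rw [hm']
      exact tv_indep (hSj j hj) (hSj 0 hℓ0) (fun s => cw R α s m) hf
    have hmT : ∀ q ∈ T', α q * m' = m' * α q := by
      rw [← mem_cw (R := R)]
      intro t ht
      have h1 := tv_indep (tv_mul (hSj 0 hℓ0) ht) (hSj 0 hℓ0) (fun s => cw R α s m) hf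
      rw [Finset.sum_image (fun a _ b _ h => mul_left_cancel h)] at h1
      rw [hm', map_sum]
      refine Eq.trans (Finset.sum_congr rfl fun s _ => ?_) h1
      rw [map_mul, Module.End.mul_apply]
    have hzT : ∀ q ∈ T, α q * (∑ x ∈ S, cw R α x m) = (∑ x ∈ S, cw R α x m) * α q := by
      rw [← mem_cw (R := R)]
      intro t ht
      have h1 := tv_indep (tv_mul hS ht) hS (fun s => cw R α s m) hf
      rw [Finset.sum_image (fun a _ b _ h => mul_left_cancel h)] at h1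
      rw [map_sum]
      refine Eq.trans (Finset.sum_congr rfl fun s _ => ?_) h1
      rw [map_mul, Module.End.mul_apply]
    have hzm : ∑ x ∈ S, cw R α x m = ∑ j ∈ Finset.range ℓ, α (g ^ j) * m' * α (g ^ j)⁻¹ := by
      rw [← Finset.sum_fiberwise_of_maps_to (g := jj) (t := Finset.range ℓ)
        (fun x hx => Finset.mem_range.2 (hjj1 x (hS.1 x hx)))]
      refine Finset.sum_congr rfl fun j hj => ?_
      rw [Finset.mem_range] at hj
      have e1 : S.filter (fun x => jj x = j) = S.filter fun x => (g ^ j)⁻¹ * x ∈ T' := by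
        refine Finset.filter_congr fun x hx => ?_
        constructor
        · rintro rfl
          exact hjj2 x (hS.1 x hx)
        · intro h
          exact huq _ _ (hjj1 x (hS.1 x hx)) hj x (hjj2 x (hS.1 x hx)) h
      rw [e1, ← hmj j hj, Finset.sum_image (fun a _ b _ h => mul_left_cancel h)]
      have e2 : ∀ a : A, α (g ^ j) * a * α (g ^ j)⁻¹ = cw R α (g ^ j) a := by
        intro a
        change _ = α (g ^ j) * (a * α (g ^ j)⁻¹)
        rw [mul_assoc]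
      rw [e2, map_sum]
      refine Finset.sum_congr rfl fun x _ => ?_
      rw [← Module.End.mul_apply, ← map_mul, mul_inv_cancel_left]
    obtain ⟨z, hz⟩ : ∃ z, z = ∑ x ∈ S, cw R α x m := ⟨_, rfl⟩
    rw [← hz] at hzT hzm ⊢
    have hz' : ∀ q ∈ T, z * α q = α q * z := fun q hq => (hzT q hq).symm
    have hm'' : ∀ q ∈ T', m' * α q = α q * m' := fun q hq => (hmT q hq).symm
    have halt : ∀ u v, InR R (C.lamK (C.i z * kp C.i α cc v u)) →
        InR R (C.lamK (C.i z * kp C.i α cc u v)) := by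
      intro u v h
      rw [a1 v u, mul_neg, map_neg]
      exact inR_neg h
    have hstep : ∀ v ∈ T, (∀ u ∈ T', InR R (C.lamK (C.i z * kp C.i α cc u v))) →
        InR R (C.lamK (C.i z * kp C.i α cc g v)) → ∀ u ∈ T, InR R (C.lamK (C.i z * kp C.i α cc u v)) := by
      intro v hv h1 h2 u hu
      obtain ⟨y, hy, n, rfl⟩ := hgen u hu
      clear hu
      induction n with
      | zero =>
        rw [pow_zero, mul_one]
        exact h1 y hy
      | succ n ih =>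
        have h3 := a3 z (y * g ^ n) g v (hz' _ (T.mul_mem (hTT hy) (T.pow_mem hg _))) (hz' _ hg)
          (hz' _ hv)
        rw [mul_assoc y, ← pow_succ] at h3
        have h4 := inR_add h3 (inR_add ih h2)
        have e : C.lamK (C.i z * kp C.i α cc (y * g ^ (n + 1)) v) =
            C.lamK (C.i z * kp C.i α cc (y * g ^ (n + 1)) v) -
              C.lamK (C.i z * kp C.i α cc (y * g ^ n) v) - C.lamK (C.i z * kp C.i α cc g v) +
            (C.lamK (C.i z * kp C.i α cc (y * g ^ n) v) + C.lamK (C.i z * kp C.i α cc g v)) := by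
          ring
        rw [e]
        exact h4
    have hA : ∀ u ∈ T', ∀ v ∈ T', InR R (C.lamK (C.i z * kp C.i α cc u v)) := by
      intro u hu v hv
      rw [hzm, map_sum, Finset.sum_mul, map_sum]
      have e : ∑ j ∈ Finset.range ℓ, C.lamK (C.i (α (g ^ j) * m' * α (g ^ j)⁻¹) *
          kp C.i α cc u v) = ∑ j ∈ Finset.range ℓ, (C.lamK (C.i (α (g ^ j) * m' * α (g ^ j)⁻¹) *
          kp C.i α cc u v) - C.lamK (C.i m' * kp C.i α cc u v)) +
          (ℓ : K) * C.lamK (C.i m' * kp C.i α cc u v) := by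
        rw [Finset.sum_sub_distrib, Finset.sum_const, Finset.card_range, nsmul_eq_mul,
          sub_add_cancel]
      rw [e]
      exact inR_add (inR_sum _ _ fun j _ => b2 m' u v (g ^ j) (hm'' u hu) (hm'' v hv))
        (a4 m' ℓ u v (hm'' u hu) (hm'' v hv) (hW u))
    have hB : ∀ u ∈ T', InR R (C.lamK (C.i z * kp C.i α cc u g)) := by
      intro u hu
      rw [hzm]
      exact hn m' ℓ u g (hm'' u hu) (hm'' _ hgl) (hW g)
    have hC : ∀ v ∈ T', ∀ u ∈ T, InR R (C.lamK (C.i z * kp C.i α cc u v)) := fun v hv =>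
      hstep v (hTT hv) (fun u hu => hA u hu v hv) (halt _ _ (hB v hv))
    have hD : ∀ u ∈ T, InR R (C.lamK (C.i z * kp C.i α cc u g)) := by
      refine hstep g hg hB ?_
      have e : kp C.i α cc g g = 0 := by
        unfold kp
        rw [sub_self, zero_mul]
      rw [e, mul_zero, map_zero]
      exact inR_zero
    intro u hu v hv
    exact halt _ _ (hstep u hu (fun w hw => halt _ _ (hC w hw u hu)) (halt _ _ (hD u hu)) v hv)

end Pool.Agent.PST.H13
end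
end -- Pool.Agent.Helper13_PST.OBC

section -- Pool.Agent.Helper1_PST.OBN

set_option autoImplicit false

open scoped BigOperators

noncomputable section

namespace Pool.Agent.PST.H1

open Pool.Agent.PSS

section inr

variable {R K : Type} [CommRing R] [Field K] [Algebra R K]

theorem inR_zero : InR R (0 : K) := ⟨0, map_zero _⟩

theorem inR_add {s t : K} (hs : InR R s) (ht : InR R t) : InR R (s + t) := by
  obtain ⟨a, rfl⟩ := hs
  obtain ⟨b, rfl⟩ := ht
  exact ⟨a + b, map_add _ _ _⟩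

theorem inR_neg {s : K} (hs : InR R s) : InR R (-s) := by
  obtain ⟨a, rfl⟩ := hs
  exact ⟨-a, map_neg _ _⟩

theorem inR_sub {s t : K} (hs : InR R s) (ht : InR R t) : InR R (s - t) := by
  rw [sub_eq_add_neg]
  exact inR_add hs (inR_neg ht)

end inr

theorem obn : ObnStmt := by
  intro R K V A B κ Ω _ _ _ _ _ _ _ _ _ _ _ _ _ W α lam x y b c C cc hZ z ℓ u g hzu hzg hgW
  set β : V →* B := ia C.i α with hβ
  have hβa : ∀ v, C.i (α v) = β v := fun v => rfl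
  have sym : ∀ s t, C.lamK (s * t) = C.lamK (t * s) := C.rfK.sym
  have lamI : ∀ a : A, InR R (C.lamK (C.i a)) := fun a => ⟨lam a, (C.lk a).symm⟩
  have hc : ∀ v w : V, β v * β w = β w * β v := fun v w => by
    rw [← map_mul, ← map_mul, mul_comm]
  have hW1 : ∀ w ∈ W, ∀ s, cc s (β w) = 0 := by
    intro w hw s
    have h := (hZ.rel w hw s 1).2.2
    have h' : cc s (1 * β w) = cc s 1 * β w := h
    have h1 : cc s 1 = 0 := hZ.nrm.2 s
    rw [one_mul, h1, zero_mul] at h'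
    exact h'
  have hW2 : ∀ w ∈ W, ∀ s, cc (β w) s = 0 := by
    intro w hw s
    have h := (hZ.rel w hw 1 s).1
    have h' : cc (β w * 1) s = β w * cc 1 s := h
    have h1 : cc 1 s = 0 := hZ.nrm.1 s
    rw [mul_one, h1, mul_zero] at h'
    exact h'
  set D : ℕ → B := fun n => cc (β u) (β (g ^ n)) - cc (β (g ^ n)) (β u) with hD
  have step : ∀ n, ∃ a : A, D (n + 1) = C.i a + (β g * D n + D 1 * β (g ^ n) -
      (β u * cc (β g) (β (g ^ n)) - cc (β g) (β (g ^ n)) * β u)) := by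
    intro n
    obtain ⟨a1, h1⟩ := hZ.cyc (α u) (α g) (α (g ^ n))
    obtain ⟨a2, h2⟩ := hZ.cyc (α g) (α u) (α (g ^ n))
    obtain ⟨a3, h3⟩ := hZ.cyc (α g) (α (g ^ n)) (α u)
    refine ⟨a1 - a2 + a3, ?_⟩
    rw [map_add, map_sub, h1, h2, h3]
    simp only [dl, hβa, hD, pow_one]
    rw [hc g u, hc (g ^ n) u, show β (g ^ (n + 1)) = β g * β (g ^ n) by
      rw [← map_mul, pow_succ']]
    noncomm_ring
  have main : ∀ (n : ℕ) (z : A), z * α u = α u * z →
      InR R (C.lamK (C.i z * (D n * β (u * g ^ n)⁻¹)) -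
        C.lamK (C.i (∑ j ∈ Finset.range n, α (g ^ j)⁻¹ * z * α (g ^ j)) *
          (D 1 * β (u * g ^ 1)⁻¹))) := by
    intro n
    induction n with
    | zero =>
      intro z hz
      have h0 : D 0 = 0 := by
        have h1 : cc (β u) 1 = 0 := hZ.nrm.2 _
        have h2 : cc 1 (β u) = 0 := hZ.nrm.1 _
        simp only [hD, pow_zero, map_one, h1, h2, sub_self]
      rw [h0, zero_mul, mul_zero, Finset.sum_range_zero, map_zero C.i, zero_mul, map_zero, sub_zero]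
      exact inR_zero
    | succ n ih =>
      intro z hz
      obtain ⟨a, ha⟩ := step n
      set s : B := cc (β g) (β (g ^ n)) with hs
      have hz' : (α g⁻¹ * z * α g) * α u = α u * (α g⁻¹ * z * α g) := by
        have e1 : α g * α u = α u * α g := by rw [← map_mul, ← map_mul, mul_comm]
        have e2 : α g⁻¹ * α u = α u * α g⁻¹ := by rw [← map_mul, ← map_mul, mul_comm]
        calc (α g⁻¹ * z * α g) * α u = α g⁻¹ * z * (α g * α u) := by rw [mul_assoc]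
          _ = α g⁻¹ * z * (α u * α g) := by rw [e1]
          _ = α g⁻¹ * (z * α u) * α g := by simp only [mul_assoc]
          _ = α g⁻¹ * (α u * z) * α g := by rw [hz]
          _ = (α g⁻¹ * α u) * z * α g := by simp only [mul_assoc]
          _ = (α u * α g⁻¹) * z * α g := by rw [e2]
          _ = α u * (α g⁻¹ * z * α g) := by simp only [mul_assoc]
      have ih' := ih _ hz'
      -- the four terms
      have t0 : C.i z * (C.i a * β (u * g ^ (n + 1))⁻¹) = C.i (z * a * α (u * g ^ (n + 1))⁻¹) := by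
        rw [map_mul, map_mul, mul_assoc]
        rfl
      have t1 : C.lamK (C.i z * (β g * D n * β (u * g ^ (n + 1))⁻¹)) =
          C.lamK (C.i (α g⁻¹ * z * α g) * (D n * β (u * g ^ n)⁻¹)) := by
        have e1 : β (u * g ^ (n + 1))⁻¹ = β (u * g ^ n)⁻¹ * β g⁻¹ := by
          rw [← map_mul]
          congr 1
          rw [pow_succ]
          simp only [mul_inv]
          rw [mul_assoc]
        rw [e1]
        have e2 : C.i z * (β g * D n * (β (u * g ^ n)⁻¹ * β g⁻¹)) =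
            (C.i z * β g * (D n * β (u * g ^ n)⁻¹)) * β g⁻¹ := by simp only [mul_assoc]
        rw [e2, sym]
        congr 1
        rw [map_mul, map_mul, hβa, hβa]
        simp only [mul_assoc]
      have t2 : C.i z * (D 1 * β (g ^ n) * β (u * g ^ (n + 1))⁻¹) =
          C.i z * (D 1 * β (u * g ^ 1)⁻¹) := by
        have e1 : β (g ^ n) * β (u * g ^ (n + 1))⁻¹ = β (u * g ^ 1)⁻¹ := by
          rw [← map_mul]
          congr 1
          rw [pow_succ, pow_one]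
          simp only [mul_inv]
          rw [mul_left_comm, mul_inv_cancel_left]
        rw [mul_assoc (D 1), e1]
      have t3 : C.lamK (C.i z * ((β u * s - s * β u) * β (u * g ^ (n + 1))⁻¹)) = 0 := by
        have e1 : β u * β (u * g ^ (n + 1))⁻¹ = β (u * g ^ (n + 1))⁻¹ * β u := hc _ _
        have e2 : C.i z * ((β u * s - s * β u) * β (u * g ^ (n + 1))⁻¹) =
            (C.i z * β u) * (s * β (u * g ^ (n + 1))⁻¹) -
              (C.i z * (s * β (u * g ^ (n + 1))⁻¹)) * β u := by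
          rw [sub_mul, mul_sub]
          congr 1
          · simp only [mul_assoc]
          · simp only [mul_assoc]
            rw [e1]
        have e3 : C.i z * β u = β u * C.i z := by
          rw [← hβa, ← map_mul, ← map_mul, hz]
        rw [e2, map_sub, sym (C.i z * (s * β (u * g ^ (n + 1))⁻¹)) (β u), e3, mul_assoc, sub_self]
      have t4 : C.i (∑ j ∈ Finset.range (n + 1), α (g ^ j)⁻¹ * z * α (g ^ j)) =
          C.i (∑ j ∈ Finset.range n, α (g ^ j)⁻¹ * (α g⁻¹ * z * α g) * α (g ^ j)) + C.i z := by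
        rw [Finset.sum_range_succ', map_add]
        congr 1
        · congr 1
          refine Finset.sum_congr rfl fun j _ => ?_
          have e1 : α (g ^ (j + 1))⁻¹ = α (g ^ j)⁻¹ * α g⁻¹ := by
            rw [← map_mul]
            congr 1
            rw [pow_succ, mul_inv]
          have e2 : α (g ^ (j + 1)) = α g * α (g ^ j) := by
            rw [← map_mul, pow_succ']
          rw [e1, e2]
          simp only [mul_assoc]
        · simp
      have e5 : C.i z * (D (n + 1) * β (u * g ^ (n + 1))⁻¹) =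
          C.i z * (C.i a * β (u * g ^ (n + 1))⁻¹) +
          C.i z * (β g * D n * β (u * g ^ (n + 1))⁻¹) +
          C.i z * (D 1 * β (g ^ n) * β (u * g ^ (n + 1))⁻¹) -
          C.i z * ((β u * s - s * β u) * β (u * g ^ (n + 1))⁻¹) := by
        rw [ha]
        simp only [add_mul, sub_mul, mul_add, mul_sub]
        abel
      rw [e5, map_sub, map_add, map_add, t3, t2, t1, t0, t4, add_mul, map_add]
      have e6 : C.lamK (C.i (z * a * α (u * g ^ (n + 1))⁻¹)) +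
          C.lamK (C.i (α g⁻¹ * z * α g) * (D n * β (u * g ^ n)⁻¹)) +
          C.lamK (C.i z * (D 1 * β (u * g ^ 1)⁻¹)) - 0 -
          (C.lamK (C.i (∑ j ∈ Finset.range n, α (g ^ j)⁻¹ * (α g⁻¹ * z * α g) * α (g ^ j)) *
            (D 1 * β (u * g ^ 1)⁻¹)) + C.lamK (C.i z * (D 1 * β (u * g ^ 1)⁻¹))) =
          C.lamK (C.i (z * a * α (u * g ^ (n + 1))⁻¹)) +
          (C.lamK (C.i (α g⁻¹ * z * α g) * (D n * β (u * g ^ n)⁻¹)) -
          C.lamK (C.i (∑ j ∈ Finset.range n, α (g ^ j)⁻¹ * (α g⁻¹ * z * α g) * α (g ^ j)) *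
            (D 1 * β (u * g ^ 1)⁻¹))) := by ring
      rw [e6]
      exact inR_add (lamI _) ih'
  have hfin := main ℓ z hzu
  have hDl : D ℓ = 0 := by
    simp only [hD]
    rw [hW1 _ hgW, hW2 _ hgW, sub_self]
  rw [hDl, zero_mul, mul_zero, map_zero, zero_sub] at hfin
  have hfin2 := inR_neg hfin
  rw [neg_neg] at hfin2
  -- the sum
  set G : ℕ → A := fun j => α (g ^ j) * z * α (g ^ j)⁻¹ with hG
  have hs1 : ∀ j, j ≤ ℓ → α (g ^ j)⁻¹ * z * α (g ^ j) = G (ℓ - j) := by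
    intro j hj
    simp only [hG]
    have e1 : g ^ (ℓ - j) = (g ^ j)⁻¹ * g ^ ℓ := by
      rw [eq_inv_mul_iff_mul_eq, ← pow_add]
      congr 1
      omega
    have e2 : (g ^ (ℓ - j))⁻¹ = (g ^ ℓ)⁻¹ * g ^ j := by
      rw [e1, mul_inv_rev, inv_inv]
    rw [e2, e1, map_mul, map_mul]
    have e3 : α (g ^ ℓ) * z * α (g ^ ℓ)⁻¹ = z := by
      rw [← hzg, mul_assoc, ← map_mul, mul_inv_cancel, map_one, mul_one]
    calc α (g ^ j)⁻¹ * z * α (g ^ j)
        = α (g ^ j)⁻¹ * (α (g ^ ℓ) * z * α (g ^ ℓ)⁻¹) * α (g ^ j) := by rw [e3]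
      _ = α (g ^ j)⁻¹ * α (g ^ ℓ) * z * (α (g ^ ℓ)⁻¹ * α (g ^ j)) := by simp only [mul_assoc]
  have hs2 : ∑ j ∈ Finset.range ℓ, α (g ^ j)⁻¹ * z * α (g ^ j) = ∑ j ∈ Finset.range ℓ, G j := by
    have e1 : ∑ j ∈ Finset.range ℓ, α (g ^ j)⁻¹ * z * α (g ^ j) =
        ∑ j ∈ Finset.range ℓ, G (ℓ - 1 - j + 1) := by
      refine Finset.sum_congr rfl fun j hj => ?_
      rw [Finset.mem_range] at hj
      rw [hs1 j hj.le]
      congr 1
      omega
    rw [e1, Finset.sum_range_reflect (fun j => G (j + 1)) ℓ]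
    have e2 := Finset.sum_range_succ G ℓ
    have e3 := Finset.sum_range_succ' G ℓ
    have e4 : G ℓ = G 0 := by
      have h5 := hs1 ℓ le_rfl
      have h6 := hs1 0 (Nat.zero_le _)
      rw [Nat.sub_self] at h5
      rw [Nat.sub_zero] at h6
      rw [← h6]
      simp [hG]
    rw [e3, e4] at e2
    exact add_right_cancel e2
  rw [hs2] at hfin2
  have hfin3 : kp C.i α cc u g = D 1 * β (u * g ^ 1)⁻¹ := by
    simp only [kp, hD, pow_one, hβa]
  rw [hfin3]
  exact hfin2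

end Pool.Agent.PST.H1
end
end -- Pool.Agent.Helper1_PST.OBN

section -- Pool.Agent.Helper27_PST.OBB

set_option autoImplicit false

/-!
# Squad PST, row OBB

The alternating sum of the cocycle identities at three commuting elements; trace form and
invariance of the forms of a cocycle.
-/

open scoped BigOperators

noncomputable section

namespace Pool.Agent.PST.H27

open Pool.Agent.PSS

theorem obb_3c {R K V A B κ Ω : Type} [CommRing R] [Field K] [Algebra R K] [CommGroup V]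
    [Fintype V] [Ring A] [Algebra R A] [Ring B] [Algebra R B] [Algebra K B] [Fintype κ]
    [Fintype Ω] [MulAction (V × V) Ω] (W : Subgroup V) {α : V →* A} {lam : A →ₗ[R] R}
    {x y : κ → A} {b : Ω → A} {c : Ω → (A →ₗ[R] R)} (C : KC R K B α lam x y b c)
    (cc : B →ₗ[K] B →ₗ[K] B) (hz : Z2 C W cc) (a a' a'' : A) (h1 : a * a' = a' * a)
    (h2 : a * a'' = a'' * a) (h3 : a' * a'' = a'' * a') :
    ∃ e : A, C.i e =
      (C.i a * (cc (C.i a') (C.i a'') - cc (C.i a'') (C.i a')) -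
        (cc (C.i a') (C.i a'') - cc (C.i a'') (C.i a')) * C.i a) -
      (C.i a' * (cc (C.i a) (C.i a'') - cc (C.i a'') (C.i a)) -
        (cc (C.i a) (C.i a'') - cc (C.i a'') (C.i a)) * C.i a') +
      (C.i a'' * (cc (C.i a) (C.i a') - cc (C.i a') (C.i a)) -
        (cc (C.i a) (C.i a') - cc (C.i a') (C.i a)) * C.i a'') := by
  obtain ⟨e1, g1⟩ := hz.cyc a a' a''
  obtain ⟨e2, g2⟩ := hz.cyc a a'' a'
  obtain ⟨e3, g3⟩ := hz.cyc a' a a''
  obtain ⟨e4, g4⟩ := hz.cyc a' a'' a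
  obtain ⟨e5, g5⟩ := hz.cyc a'' a a'
  obtain ⟨e6, g6⟩ := hz.cyc a'' a' a
  have k1 : C.i a' * C.i a = C.i a * C.i a' := by rw [← map_mul, ← map_mul, h1]
  have k2 : C.i a'' * C.i a = C.i a * C.i a'' := by rw [← map_mul, ← map_mul, h2]
  have k3 : C.i a'' * C.i a' = C.i a' * C.i a'' := by rw [← map_mul, ← map_mul, h3]
  refine ⟨e1 - e2 - e3 + e4 + e5 - e6, ?_⟩
  rw [map_sub, map_add, map_add, map_sub, map_sub, g1, g2, g3, g4, g5, g6]
  simp only [dl]
  rw [k1, k2, k3]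
  noncomm_ring

theorem obb_zero {R K V A B κ Ω : Type} [CommRing R] [Field K] [Algebra R K] [CommGroup V]
    [Fintype V] [Ring A] [Algebra R A] [Ring B] [Algebra R B] [Algebra K B] [Fintype κ]
    [Fintype Ω] [MulAction (V × V) Ω] {α : V →* A} {lam : A →ₗ[R] R}
    {x y : κ → A} {b : Ω → A} {c : Ω → (A →ₗ[R] R)} (C : KC R K B α lam x y b c)
    (P U s : B) (h : P * U = U * P) : C.lamK (P * (U * s - s * U)) = 0 := by
  have h1 : C.lamK (P * (U * s)) = C.lamK (P * (s * U)) := by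
    rw [← mul_assoc, h, mul_assoc, C.rfK.sym, mul_assoc]
  rw [mul_sub, map_sub, h1, sub_self]

theorem obb_key {R K V A B κ Ω : Type} [CommRing R] [Field K] [Algebra R K] [CommGroup V]
    [Fintype V] [Ring A] [Algebra R A] [Ring B] [Algebra R B] [Algebra K B] [Fintype κ]
    [Fintype Ω] [MulAction (V × V) Ω] (W : Subgroup V) {α : V →* A} {lam : A →ₗ[R] R}
    {x y : κ → A} {b : Ω → A} {c : Ω → (A →ₗ[R] R)} (C : KC R K B α lam x y b c)
    (cc : B →ₗ[K] B →ₗ[K] B) (hz : Z2 C W cc) (u v : V) (a p : A) (hu : a * α u = α u * a)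
    (hv : a * α v = α v * a) (pu : p * α u = α u * p) (pv : p * α v = α v * p) :
    InR R (C.lamK (C.i p * (C.i a * (cc (C.i (α u)) (C.i (α v)) - cc (C.i (α v)) (C.i (α u))) -
      (cc (C.i (α u)) (C.i (α v)) - cc (C.i (α v)) (C.i (α u))) * C.i a))) := by
  have huv : α u * α v = α v * α u := by rw [← map_mul, ← map_mul, mul_comm]
  obtain ⟨e, he⟩ := obb_3c W C cc hz (α u) (α v) a huv hu.symm hv.symm
  have ku : C.i p * C.i (α u) = C.i (α u) * C.i p := by rw [← map_mul, ← map_mul, pu]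
  have kv : C.i p * C.i (α v) = C.i (α v) * C.i p := by rw [← map_mul, ← map_mul, pv]
  refine ⟨lam (p * e), ?_⟩
  rw [← C.lk, map_mul, he, mul_add, mul_sub, map_add, map_sub, obb_zero C _ _ _ ku,
    obb_zero C _ _ _ kv, sub_zero, zero_add]

theorem obb : ObbStmt := by
  intro R K V A B κ Ω _ _ _ _ _ _ _ _ _ _ _ _ _ W α lam x y b c C cc hz
  have hq : ∀ (u v w : V), α (u * v)⁻¹ * α w = α w * α (u * v)⁻¹ := fun u v w => by
    rw [← map_mul, ← map_mul, mul_comm]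
  constructor
  · intro z z' u v zu zv zu' zv'
    have pu : α (u * v)⁻¹ * z * α u = α u * (α (u * v)⁻¹ * z) := by
      rw [mul_assoc, zu, ← mul_assoc, hq, mul_assoc]
    have pv : α (u * v)⁻¹ * z * α v = α v * (α (u * v)⁻¹ * z) := by
      rw [mul_assoc, zv, ← mul_assoc, hq, mul_assoc]
    obtain ⟨r, hr⟩ := obb_key W C cc hz u v z' (α (u * v)⁻¹ * z) zu' zv' pu pv
    refine ⟨r, hr.trans ?_⟩
    have hzq : z' * α (u * v)⁻¹ = α (u * v)⁻¹ * z' := by
      have h1 : z' * (α u * α v) = α u * α v * z' := by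
        rw [← mul_assoc, zu', mul_assoc, zv', mul_assoc]
      have h2 : α (u * v)⁻¹ * (α u * α v) = 1 := by
        rw [← map_mul, ← map_mul, inv_mul_cancel, map_one]
      have h3 : (α u * α v) * α (u * v)⁻¹ = 1 := by
        rw [← map_mul, ← map_mul, mul_inv_cancel, map_one]
      calc z' * α (u * v)⁻¹ = (α (u * v)⁻¹ * (α u * α v)) * z' * α (u * v)⁻¹ := by
            rw [h2, one_mul]
        _ = α (u * v)⁻¹ * (z' * (α u * α v)) * α (u * v)⁻¹ := by
            rw [h1, mul_assoc (α (u * v)⁻¹)]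
        _ = α (u * v)⁻¹ * z' * ((α u * α v) * α (u * v)⁻¹) := by
            simp only [mul_assoc]
        _ = α (u * v)⁻¹ * z' := by rw [h3, mul_one]
    have kz : C.i z' * C.i (α (u * v)⁻¹) = C.i (α (u * v)⁻¹) * C.i z' := by
      rw [← map_mul, ← map_mul, hzq]
    simp only [kp]
    set K0 := cc (C.i (α u)) (C.i (α v)) - cc (C.i (α v)) (C.i (α u)) with hK0
    have e1 : C.lamK (C.i (α (u * v)⁻¹ * z) * (C.i z' * K0)) =
        C.lamK (C.i (z * z') * (K0 * C.i (α (u * v)⁻¹))) := by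
      rw [map_mul C.i, map_mul C.i, mul_assoc (C.i (α (u * v)⁻¹)),
        C.rfK.sym (C.i (α (u * v)⁻¹))]
      simp only [mul_assoc]
    have e2 : C.lamK (C.i (α (u * v)⁻¹ * z) * (K0 * C.i z')) =
        C.lamK (C.i (z' * z) * (K0 * C.i (α (u * v)⁻¹))) := by
      rw [map_mul C.i, map_mul C.i, ← mul_assoc (C.i (α (u * v)⁻¹) * C.i z) K0 (C.i z'),
        C.rfK.sym _ (C.i z')]
      have h1 : C.i z' * (C.i (α (u * v)⁻¹) * C.i z * K0) =
          C.i (α (u * v)⁻¹) * (C.i z' * C.i z * K0) := by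
        simp only [← mul_assoc]
        rw [kz]
      rw [h1, C.rfK.sym (C.i (α (u * v)⁻¹))]
      simp only [mul_assoc]
    rw [mul_sub, map_sub, e1, e2]
  · intro z u v t zu zv
    have ht : ∀ w : V, α t⁻¹ * α w = α w * α t⁻¹ := fun w => by
      rw [← map_mul, ← map_mul, mul_comm]
    have pu : α (u * v)⁻¹ * z * α t⁻¹ * α u = α u * (α (u * v)⁻¹ * z * α t⁻¹) := by
      rw [mul_assoc, ht, ← mul_assoc, mul_assoc _ z, zu, ← mul_assoc, hq]
      simp only [mul_assoc]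
    have pv : α (u * v)⁻¹ * z * α t⁻¹ * α v = α v * (α (u * v)⁻¹ * z * α t⁻¹) := by
      rw [mul_assoc, ht, ← mul_assoc, mul_assoc _ z, zv, ← mul_assoc, hq]
      simp only [mul_assoc]
    have htu : α t * α u = α u * α t := by rw [← map_mul, ← map_mul, mul_comm]
    have htv : α t * α v = α v * α t := by rw [← map_mul, ← map_mul, mul_comm]
    obtain ⟨r, hr⟩ := obb_key W C cc hz u v (α t) (α (u * v)⁻¹ * z * α t⁻¹) htu htv pu pv
    refine ⟨-r, ?_⟩
    rw [map_neg, hr]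
    simp only [kp]
    set K0 := cc (C.i (α u)) (C.i (α v)) - cc (C.i (α v)) (C.i (α u)) with hK0
    have ktq : C.i (α t) * C.i (α (u * v)⁻¹) = C.i (α (u * v)⁻¹) * C.i (α t) := by
      rw [← map_mul C.i, ← map_mul C.i, hq]
    have ktt : C.i (α t⁻¹) * C.i (α t) = 1 := by
      rw [← map_mul C.i, ← map_mul α, inv_mul_cancel, map_one, map_one]
    have e1 : C.lamK (C.i (α (u * v)⁻¹ * z * α t⁻¹) * (C.i (α t) * K0)) =
        C.lamK (C.i z * (K0 * C.i (α (u * v)⁻¹))) := by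
      have h1 : C.i (α (u * v)⁻¹ * z * α t⁻¹) * (C.i (α t) * K0) =
          C.i (α (u * v)⁻¹) * (C.i z * K0) := by
        rw [map_mul C.i, map_mul C.i, ← mul_assoc, mul_assoc _ (C.i (α t⁻¹)), ktt, mul_one,
          mul_assoc]
      rw [h1, C.rfK.sym, mul_assoc]
    have e2 : C.lamK (C.i (α (u * v)⁻¹ * z * α t⁻¹) * (K0 * C.i (α t))) =
        C.lamK (C.i (α t * z * α t⁻¹) * (K0 * C.i (α (u * v)⁻¹))) := by
      have h1 : C.i (α (u * v)⁻¹ * z * α t⁻¹) * (K0 * C.i (α t)) =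
          C.i (α (u * v)⁻¹) * (C.i z * C.i (α t⁻¹) * K0 * C.i (α t)) := by
        rw [map_mul C.i, map_mul C.i]
        simp only [mul_assoc]
      have h2 : C.i (α t * z * α t⁻¹) * (K0 * C.i (α (u * v)⁻¹)) =
          C.i (α t) * (C.i z * C.i (α t⁻¹) * K0 * C.i (α (u * v)⁻¹)) := by
        rw [map_mul C.i, map_mul C.i]
        simp only [mul_assoc]
      rw [h1, h2, C.rfK.sym, C.rfK.sym (C.i (α t))]
      simp only [mul_assoc]
      rw [ktq]
    rw [mul_sub, map_sub, e1, e2]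
    ring

end Pool.Agent.PST.H27
end
end -- Pool.Agent.Helper27_PST.OBB

section -- Pool.Agent.Helper45_PST.OBX

/-!
# Squad PST, block KEY, row OBX (helper45): the central elements of a cocycle
-/

set_option autoImplicit false

open scoped BigOperators

noncomputable section

namespace Pool.Agent.PST.H45

open Pool.Agent.PFC (tw IsTv)
open Pool.Agent.PFD.D2 (Cdv FibG)
open Pool.Agent.PFD.D2b (FrR)
open Pool.Agent.PSS
open Pool.Agent.PSS.S0 (IsBQ)

/-- a fixed element commutes with the group -/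
theorem fx_comm {R V A : Type} [CommRing R] [CommGroup V] [Ring A] [Algebra R A] (α : V →* A)
    (T : Subgroup V) {z : A} (hz : z ∈ FxR (cw R α) T) {u : V} (hu : u ∈ T) :
    z * α u = α u * z := by
  have h : α u * (z * α u⁻¹) = z := hz u hu
  calc z * α u = α u * (z * α u⁻¹) * α u := by rw [h]
    _ = α u * z * (α u⁻¹ * α u) := by simp only [mul_assoc]
    _ = α u * z := by rw [← map_mul, inv_mul_cancel, map_one, mul_one]

/-- OBX -/
theorem obx (hOBA : ObaStmt) (hLFX : LfxStmt) : ObxStmt := by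
  intro ℓ hp R K F V E A A₀ B κ Ω BT KT _ _ _ _ _ _ _ _ _ _ _ _ _ _ _ _ _ _ _ _ _ _ φ W α lam x y
    b c C cv f α₀ lam₀ x₀ y₀ b₀ c₀ cc T αT β lamT xT yT w hK hZ hBQ hRF hlam hw
  obtain ⟨o1, o2, o3, o4⟩ := hOBA R K V A B κ Ω W α lam x y b c C cc hZ
  obtain ⟨l1, -, -⟩ := hLFX R F V A A₀ κ Ω cv f α₀ lam₀ x₀ y₀ b₀ c₀ α lam x y b c hK.fr0 hK.lv T
  -- nondegeneracy
  have hnd : ∀ s : BT, (∀ z ∈ FxR (cw R α) T, lamT (β (f.q z) * s) = 0) → s = 0 := by
    intro s hs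
    have h1 : ∀ t : BT, lamT (t * s) = 0 := by
      intro t
      obtain ⟨a₀, h2, rfl⟩ := hBQ.surj t
      obtain ⟨z, h3, rfl⟩ := l1 a₀ h2
      exact hs z h3
    rw [← hRF.e1 s]
    exact Finset.sum_eq_zero fun k _ => Finset.sum_eq_zero fun v _ => by rw [h1, zero_smul]
  have hℓF : cv.κ (ℓ : R) = 0 := by rw [map_natCast, CharP.cast_eq_zero]
  have hρ : ∀ u ∈ T, ∀ v ∈ T, ∀ z ∈ FxR (cw R α) T, ∃ ρ : R,
      algebraMap R K ρ = (ℓ : K) * C.lamK (C.i z * kp C.i α cc u v) := by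
    intro u hu v hv z hz
    exact o4 z ℓ u v (fx_comm α T hz hu) (fx_comm α T hz hv) (hK.ch.pw u)
  have hadd : ∀ u ∈ T, ∀ u' ∈ T, ∀ v ∈ T, w (u * u') v = w u v + w u' v := by
    intro u hu u' hu' v hv
    rw [← sub_eq_zero]
    refine hnd _ fun z hz => ?_
    obtain ⟨ρ₁, h1⟩ := hρ (u * u') (T.mul_mem hu hu') v hv z hz
    obtain ⟨ρ₂, h2⟩ := hρ u hu v hv z hz
    obtain ⟨ρ₃, h3⟩ := hρ u' hu' v hv z hz
    obtain ⟨r, h4⟩ := o3 z u u' v (fx_comm α T hz hu) (fx_comm α T hz hu') (fx_comm α T hz hv)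
    have h5 : ρ₁ - (ρ₂ + ρ₃) = (ℓ : R) * r := by
      apply C.rinj
      rw [map_sub, map_add, map_mul, map_natCast, h1, h2, h3, h4]
      ring
    have h6 : cv.κ ρ₁ - (cv.κ ρ₂ + cv.κ ρ₃) = 0 := by
      rw [← map_add, ← map_sub, h5, map_mul, hℓF, zero_mul]
    rw [mul_sub, mul_add, map_sub, map_add, hw _ (T.mul_mem hu hu') v hv z hz ρ₁ h1,
      hw u hu v hv z hz ρ₂ h2, hw u' hu' v hv z hz ρ₃ h3, h6]
  refine ⟨hadd, ?_, ?_, ?_, ?_⟩
  · intro u hu v hv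
    rw [← sub_eq_zero]
    refine hnd _ fun z hz => ?_
    obtain ⟨ρ₁, h1⟩ := hρ v hv u hu z hz
    obtain ⟨ρ₂, h2⟩ := hρ u hu v hv z hz
    have h3 : ρ₁ = - ρ₂ := by
      apply C.rinj
      rw [map_neg, h1, h2, o1 u v, mul_neg, map_neg, mul_neg]
    rw [mul_sub, mul_neg, map_sub, map_neg, hw v hv u hu z hz ρ₁ h1, hw u hu v hv z hz ρ₂ h2, h3,
      map_neg, sub_self]
  · intro u hu
    refine hnd _ fun z hz => ?_
    rw [hw u hu u hu z hz 0 ?_, map_zero]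
    have h1 : kp C.i α cc u u = 0 := by
      unfold kp
      rw [sub_self, zero_mul]
    rw [h1, mul_zero, map_zero, map_zero, mul_zero]
  · intro u hu v hv huW
    refine hnd _ fun z hz => ?_
    rw [hw u hu v hv z hz 0 ?_, map_zero]
    have h1 : kp C.i α cc u v = 0 := by
      rw [o1 v u, (o2 u huW v 1).2.2.1, neg_zero]
    rw [h1, mul_zero, map_zero, map_zero, mul_zero]
  · intro u hu v hv h0 z hz
    obtain ⟨ρ, h1⟩ := hρ u hu v hv z hz
    have h2 := hw u hu v hv z hz ρ h1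
    rw [h0, mul_zero, map_zero] at h2
    obtain ⟨r, h3⟩ := (cv.ker ρ).1 h2.symm
    refine ⟨r, ?_⟩
    rw [h3, hK.pi, map_mul, map_natCast] at h1
    have hℓ : (ℓ : K) ≠ 0 := Nat.cast_ne_zero.2 hp.out.ne_zero
    exact mul_left_cancel₀ hℓ h1

end Pool.Agent.PST.H45
end
end -- Pool.Agent.Helper45_PST.OBX

section -- Pool.Agent.Helper46_PST.OBA

/-!
# Squad PST, row OBA (helper46): the forms of a cocycle, bilinearity
-/

open scoped BigOperators

noncomputable section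

namespace Pool.Agent.PST.H46

open Pool.Agent.PFD.D2b (FrR)
open Pool.Agent.PSS

section inr

variable {R K : Type} [CommRing R] [Field K] [Algebra R K]

theorem InR.add {s t : K} (hs : InR R s) (ht : InR R t) : InR R (s + t) := by
  obtain ⟨a, rfl⟩ := hs
  obtain ⟨b, rfl⟩ := ht
  exact ⟨a + b, map_add _ _ _⟩

theorem InR.neg {s : K} (hs : InR R s) : InR R (-s) := by
  obtain ⟨a, rfl⟩ := hs
  exact ⟨-a, map_neg _ _⟩

theorem InR.sub {s t : K} (hs : InR R s) (ht : InR R t) : InR R (s - t) := by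
  rw [sub_eq_add_neg]
  exact InR.add hs (InR.neg ht)

theorem InR.zero : InR R (0 : K) := ⟨0, map_zero _⟩

end inr

section ctx

variable {R K V A B κ Ω : Type} [CommRing R] [Field K] [Algebra R K] [CommGroup V]
    [Fintype V] [Ring A] [Algebra R A] [Ring B] [Algebra R B] [Algebra K B] [Fintype κ]
    [Fintype Ω] [MulAction (V × V) Ω] {W : Subgroup V} {α : V →* A} {lam : A →ₗ[R] R}
    {x y : κ → A} {b : Ω → A} {c : Ω → (A →ₗ[R] R)} (C : KC R K B α lam x y b c)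
    {cc : B →ₗ[K] B →ₗ[K] B}

theorem kp_swap (u v : V) : kp C.i α cc v u = - kp C.i α cc u v := by
  unfold kp
  rw [mul_comm v u, ← neg_mul, neg_sub]

theorem cc_w (hz : Z2 C W cc) {w : V} (hw : w ∈ W) (u v : V) :
    cc (C.i (α u)) (C.i (α (v * w))) = cc (C.i (α u)) (C.i (α v)) * C.i (α w) ∧
    cc (C.i (α (u * w))) (C.i (α v)) = cc (C.i (α u)) (C.i (α v)) * C.i (α w) ∧
    C.i (α w) * cc (C.i (α u)) (C.i (α v)) = cc (C.i (α u)) (C.i (α v)) * C.i (α w) := by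
  have h1 : cc (C.i (α u)) (C.i (α (v * w))) = cc (C.i (α u)) (C.i (α v)) * C.i (α w) := by
    have h := (hz.rel w hw (C.i (α u)) (C.i (α v))).2.2
    rw [map_mul α, map_mul C.i]
    exact h
  have h2 : cc (C.i (α (u * w))) (C.i (α v)) = cc (C.i (α u)) (C.i (α v)) * C.i (α w) := by
    have h := (hz.rel w hw (C.i (α u)) (C.i (α v))).2.1
    rw [← h1, mul_comm v w, map_mul α, map_mul C.i, map_mul α, map_mul C.i]
    exact h
  refine ⟨h1, h2, ?_⟩
  have h := (hz.rel w hw (C.i (α u)) (C.i (α v))).1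
  rw [← h2, mul_comm u w, map_mul α, map_mul C.i]
  exact h.symm

theorem kp_wl (hz : Z2 C W cc) {w : V} (hw : w ∈ W) (u v : V) :
    kp C.i α cc (u * w) v = kp C.i α cc u v := by
  unfold kp
  rw [(cc_w C hz hw u v).2.1, (cc_w C hz hw v u).1, ← sub_mul, mul_assoc, ← map_mul C.i,
    ← map_mul α]
  congr 4
  rw [mul_inv, mul_inv, mul_inv]
  rw [show w * (u⁻¹ * w⁻¹ * v⁻¹) = (w * w⁻¹) * (u⁻¹ * v⁻¹) by
    rw [mul_comm u⁻¹ w⁻¹]; simp only [mul_assoc], mul_inv_cancel, one_mul]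

theorem kp_wr (hz : Z2 C W cc) {w : V} (hw : w ∈ W) (u v : V) :
    kp C.i α cc u (v * w) = kp C.i α cc u v := by
  rw [kp_swap C (v * w) u, kp_wl C hz hw, ← kp_swap C]

theorem kp_zr (hz : Z2 C W cc) {w : V} (hw : w ∈ W) (u : V) : kp C.i α cc u w = 0 := by
  have h1 : cc (C.i (α u)) (C.i (α w)) = 0 := by
    have h := (cc_w C hz hw u 1).1
    rw [one_mul, map_one α, map_one C.i] at h
    rw [h]
    have h2 := hz.nrm.2 (C.i (α u))
    rw [show cc (C.i (α u)) 1 = 0 from h2, zero_mul]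
  have h1' : cc (C.i (α w)) (C.i (α u)) = 0 := by
    have h := (cc_w C hz hw 1 u).2.1
    rw [one_mul, map_one α, map_one C.i] at h
    rw [h]
    have h2 := hz.nrm.1 (C.i (α u))
    rw [show cc 1 (C.i (α u)) = 0 from h2, zero_mul]
  unfold kp
  rw [h1, h1', sub_zero, zero_mul]

theorem kp_zl (hz : Z2 C W cc) {w : V} (hw : w ∈ W) (u : V) : kp C.i α cc w u = 0 := by
  rw [kp_swap C u w, kp_zr C hz hw, neg_zero]

theorem kp_wc (hz : Z2 C W cc) {w : V} (hw : w ∈ W) (u v : V) :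
    C.i (α w) * kp C.i α cc u v = kp C.i α cc u v * C.i (α w) := by
  unfold kp
  have h1 := (cc_w C hz hw u v).2.2
  have h2 := (cc_w C hz hw v u).2.2
  rw [← mul_assoc, mul_sub, h1, h2, ← sub_mul, mul_assoc, mul_assoc, ← map_mul C.i,
    ← map_mul α, ← map_mul C.i, ← map_mul α, mul_comm w]

/-- `(PR)` -/
theorem pr (hz : Z2 C W cc) (u u' v : V) : ∃ a : A,
    cc (C.i (α (u * u'))) (C.i (α v)) - cc (C.i (α v)) (C.i (α (u * u'))) =
      C.i (α u) * (cc (C.i (α u')) (C.i (α v)) - cc (C.i (α v)) (C.i (α u'))) +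
      (cc (C.i (α u)) (C.i (α v)) - cc (C.i (α v)) (C.i (α u))) * C.i (α u') +
      (C.i (α v) * cc (C.i (α u)) (C.i (α u')) - cc (C.i (α u)) (C.i (α u')) * C.i (α v)) +
      C.i a := by
  obtain ⟨a₁, h1⟩ := hz.cyc (α u) (α u') (α v)
  obtain ⟨a₂, h2⟩ := hz.cyc (α u) (α v) (α u')
  obtain ⟨a₃, h3⟩ := hz.cyc (α v) (α u) (α u')
  refine ⟨-(a₁ - a₂ + a₃), ?_⟩
  simp only [dl] at h1 h2 h3
  rw [← map_mul C.i, ← map_mul C.i, ← map_mul α, ← map_mul α] at h1 h2 h3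
  rw [map_neg, map_add, map_sub, h1, h2, h3, mul_comm v u, mul_comm u' v]
  noncomm_ring

theorem ob_add (hz : Z2 C W cc) (z : A) (u u' v : V) (hu : z * α u = α u * z)
    (hv : z * α v = α v * z) :
    InR R (C.lamK (C.i z * kp C.i α cc (u * u') v) - C.lamK (C.i z * kp C.i α cc u v) -
        C.lamK (C.i z * kp C.i α cc u' v)) := by
  obtain ⟨a, ha⟩ := pr C hz u u' v
  refine ⟨lam (z * a * α (u * u' * v)⁻¹), ?_⟩
  rw [← C.lk, map_mul C.i, map_mul C.i]
  unfold kp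
  rw [ha]
  generalize hX : cc (C.i (α u')) (C.i (α v)) - cc (C.i (α v)) (C.i (α u')) = X
  generalize hY : cc (C.i (α u)) (C.i (α v)) - cc (C.i (α v)) (C.i (α u)) = Y
  generalize hS : cc (C.i (α u)) (C.i (α u')) = S
  have e1 : C.i (α (u' * v)⁻¹) = C.i (α (u * u' * v)⁻¹) * C.i (α u) := by
    rw [← map_mul C.i, ← map_mul α]
    congr 2
    rw [mul_inv, mul_inv, mul_inv, mul_comm u⁻¹ u'⁻¹]
    rw [show u'⁻¹ * u⁻¹ * v⁻¹ * u = u'⁻¹ * v⁻¹ * (u⁻¹ * u) by
      rw [mul_assoc u'⁻¹, mul_comm u⁻¹ v⁻¹]; simp only [mul_assoc], inv_mul_cancel, mul_one]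
  have e2 : C.i (α (u * v)⁻¹) = C.i (α u') * C.i (α (u * u' * v)⁻¹) := by
    rw [← map_mul C.i, ← map_mul α]
    congr 2
    rw [mul_inv, mul_inv, mul_inv]
    rw [show u' * (u⁻¹ * u'⁻¹ * v⁻¹) = u' * u'⁻¹ * (u⁻¹ * v⁻¹) by
      rw [mul_comm u⁻¹ u'⁻¹]; simp only [mul_assoc], mul_inv_cancel, one_mul]
  rw [e1, e2]
  have e3 : C.i (α v) * C.i (α (u * u' * v)⁻¹) = C.i (α (u * u' * v)⁻¹) * C.i (α v) := by
    rw [← map_mul C.i, ← map_mul α, ← map_mul C.i, ← map_mul α, mul_comm v]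
  have hu' : C.i z * C.i (α u) = C.i (α u) * C.i z := by rw [← map_mul C.i, ← map_mul C.i, hu]
  have hv' : C.i z * C.i (α v) = C.i (α v) * C.i z := by rw [← map_mul C.i, ← map_mul C.i, hv]
  generalize C.i (α (u * u' * v)⁻¹) = p at e3 ⊢
  generalize C.i (α u) = U at hu' ⊢
  generalize C.i (α v) = N at e3 hv' ⊢
  generalize C.i (α u') = U'
  generalize C.i a = a'
  generalize C.i z = Z at hu' hv' ⊢
  have t1 : C.lamK (Z * (U * X * p)) = C.lamK (Z * (X * (p * U))) := by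
    rw [show Z * (U * X * p) = U * (Z * X * p) by
      rw [← mul_assoc, ← mul_assoc, hu']; simp only [mul_assoc], C.rfK.sym]
    congr 1
    simp only [mul_assoc]
  have t2 : C.lamK (Z * ((N * S - S * N) * p)) = 0 := by
    rw [sub_mul, mul_sub, map_sub, sub_eq_zero]
    rw [show Z * (N * S * p) = N * (Z * S * p) by
      rw [← mul_assoc, ← mul_assoc, hv']; simp only [mul_assoc], C.rfK.sym]
    congr 1
    rw [mul_assoc, mul_assoc, mul_assoc, e3]
  rw [add_mul, add_mul, add_mul, mul_add, mul_add, mul_add, map_add, map_add, map_add, t1, t2]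
  rw [show Z * (Y * U' * p) = Z * (Y * (U' * p)) by simp only [mul_assoc],
    show Z * (a' * p) = Z * a' * p by simp only [mul_assoc]]
  ring

theorem ob_pow (hz : Z2 C W cc) (z : A) (u v : V) (hu : z * α u = α u * z)
    (hv : z * α v = α v * z) (n : ℕ) :
    InR R (C.lamK (C.i z * kp C.i α cc (u ^ n) v) -
      (n : K) * C.lamK (C.i z * kp C.i α cc u v)) := by
  induction n with
  | zero =>
    rw [pow_zero, kp_zl C hz W.one_mem, mul_zero, map_zero, Nat.cast_zero, zero_mul, sub_zero]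
    exact InR.zero
  | succ n ih =>
    have hun : z * α (u ^ n) = α (u ^ n) * z := by
      rw [map_pow]
      exact (Commute.pow_right (show Commute z (α u) from hu) n)
    have h := ob_add C hz z (u ^ n) u v hun hv
    rw [← pow_succ] at h
    have h2 := InR.add h ih
    have e : C.lamK (C.i z * kp C.i α cc (u ^ (n + 1)) v) -
        ((n + 1 : ℕ) : K) * C.lamK (C.i z * kp C.i α cc u v) =
        C.lamK (C.i z * kp C.i α cc (u ^ (n + 1)) v) - C.lamK (C.i z * kp C.i α cc (u ^ n) v) -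
          C.lamK (C.i z * kp C.i α cc u v) + (C.lamK (C.i z * kp C.i α cc (u ^ n) v) -
      (n : K) * C.lamK (C.i z * kp C.i α cc u v)) := by
      push_cast
      ring
    rw [e]
    exact h2

end ctx

/-- row OBA -/
theorem oba : ObaStmt := by
  intro R K V A B κ Ω _ _ _ _ _ _ _ _ _ _ _ _ _ W α lam x y b c C cc hz
  refine ⟨fun u v => kp_swap C u v, fun w hw u v => ⟨kp_wl C hz hw u v, kp_wr C hz hw u v,
    kp_zr C hz hw u, kp_wc C hz hw u v⟩, fun z u u' v hu _ hv => ob_add C hz z u u' v hu hv, ?_⟩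
  intro z ℓ u v hu hv hw
  have h := InR.neg (ob_pow C hz z u v hu hv ℓ)
  rw [kp_zl C hz hw, mul_zero, map_zero, zero_sub, neg_neg] at h
  exact h

end Pool.Agent.PST.H46
end
end -- Pool.Agent.Helper46_PST.OBA

section -- Pool.Agent.PST.Kyw

/-!
# Squad PST: KYW from KEY
-/

open scoped BigOperators TensorProduct PowerSeries

noncomputable section

namespace Pool.Agent.PST

open Pool.Agent.PFC (tw IsTv)
open Pool.Agent.PFD.D2 (Cdv FibG)
open Pool.Agent.PFD.D2b (FrR)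
open Pool.Agent.PSS

theorem kyw (key : KeyStmt) : KywStmt := by
  intro ℓ _ R K F V E A A₀ B κ Ω _ _ _ _ _ _ _ _ _ _ _ _ _ _ _ _ _ _ _ _ _ _ _ _ _ _ φ W cv f
    α₀ lam₀ x₀ y₀ b₀ c₀ α lam x y b c u C D₀ r la χ xx t D hp hE hpi hch hcl hst hfr hrf hL hu
    hdr hm g m₁ cc hg hg1 hd hmm hz hb
  refine key ℓ R K F V E A A₀ B κ Ω φ W cv f α₀ lam₀ x₀ y₀ b₀ c₀ α lam x y b c u C r la χ xx t D
    g hp hE hpi hch hcl hst hfr hrf hL hu hdr hg hg1 ?_ ?_ m₁ cc hd hz hb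
  · intro a₁ a₂
    obtain ⟨e, he, -⟩ := hmm a₁ a₂
    refine ⟨e, ?_⟩
    rw [he, hd]
  · intro s hs e he
    choose e' h1 h2 using hmm
    have h3 : e = ∑ j ∈ Finset.range ℓ, e' (α (s ^ j)) (α s) * α (s ^ (j + 1))⁻¹ := by
      apply C.inj
      rw [he, map_sum]
      refine Finset.sum_congr rfl fun j _ => ?_
      rw [map_mul, h1, hd]
    have h4 : f.q e = ∑ j ∈ Finset.range ℓ,
        D₀.m 1 (α₀ (s ^ j)) (α₀ s) * α₀ (s ^ (j + 1))⁻¹ := by
      rw [h3, map_sum]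
      refine Finset.sum_congr rfl fun j _ => ?_
      rw [map_mul, h2, hL.qa, hL.qa, hL.qa]
    rw [h4]
    exact hm s hs

end Pool.Agent.PST
end
end -- Pool.Agent.PST.Kyw

section -- Pool.Agent.Helper51_PST.KYD

/-!
# Squad PST, block KEY, row KYD: the proof is in `Pool/Agent/PST/Kyw.lean`
-/

namespace Pool.Agent.PST.H51

theorem kyd : KydStmt := Pool.Agent.PST.kyw

end Pool.Agent.PST.H51
end -- Pool.Agent.Helper51_PST.KYD

section -- Pool.Agent.Helper53_PST.FMA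

/-!
# Squad PST, row FMA: the first order term of a regular deformation
-/

open scoped BigOperators TensorProduct PowerSeries

noncomputable section

namespace Pool.Agent.PST.H53

open Pool.Agent.PFC (tw IsTv)
open Pool.Agent.PFD.D2b (FrR)
open Pool.Agent.PSS

section dm

variable {k A W : Type} [CommRing k] [Ring A] [Algebra k A] [Group W] {om : W →* A} (D : Dm k om)

theorem sq_mul (x y : D.R) : D.sq (x * y) = D.mul (D.sq x) (D.sq y) := by
  conv_lhs => rw [← D.of_sq x, ← D.of_sq y, ← D.of_mul, D.sq_of]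

theorem sq_mul0 (x y : D.R) : D.sq (x * y) 0 = D.sq x 0 * D.sq y 0 := by
  rw [sq_mul, Dm.mul, Finset.Nat.antidiagonal_zero, Finset.sum_singleton,
    Finset.Nat.antidiagonal_zero, Finset.sum_singleton, D.m0]

theorem sq_mul1 (x y : D.R) : D.sq (x * y) 1 =
    D.sq x 0 * D.sq y 1 + D.sq x 1 * D.sq y 0 + D.m 1 (D.sq x 0) (D.sq y 0) := by
  have h1 : (Finset.HasAntidiagonal.antidiagonal 1 : Finset (ℕ × ℕ)) = {(0, 1), (1, 0)} := rfl
  rw [sq_mul, Dm.mul, h1, Finset.sum_pair (by decide)]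
  change ∑ q ∈ Finset.HasAntidiagonal.antidiagonal 1, D.m 0 (D.sq x q.1) (D.sq y q.2) +
    ∑ q ∈ Finset.HasAntidiagonal.antidiagonal 0, D.m 1 (D.sq x q.1) (D.sq y q.2) = _
  rw [h1, Finset.sum_pair (by decide), Finset.Nat.antidiagonal_zero, Finset.sum_singleton, D.m0,
    D.m0]

theorem sq_add (x y : D.R) (n : ℕ) : D.sq (x + y) n = D.sq x n + D.sq y n := by
  have h : D.sq (x + y) = D.sq x + D.sq y := by
    conv_lhs => rw [← D.of_sq x, ← D.of_sq y, ← D.of_add, D.sq_of]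
  rw [h]
  rfl

theorem sq_neg (x : D.R) (n : ℕ) : D.sq (-x) n = -D.sq x n := by
  have h : D.sq (-x) = -D.sq x := by
    conv_lhs => rw [← D.of_sq x, ← D.of_neg, D.sq_of]
  rw [h]
  rfl

theorem sq_sub (x y : D.R) (n : ℕ) : D.sq (x - y) n = D.sq x n - D.sq y n := by
  rw [sub_eq_add_neg, sq_add, sq_neg, sub_eq_add_neg]

theorem sq_one0 : D.sq (1 : D.R) 0 = 1 := by
  rw [← D.of_one, D.sq_of]
  rfl

theorem sq_one1 : D.sq (1 : D.R) 1 = 0 := by
  rw [← D.of_one, D.sq_of]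
  rfl

theorem sq_X1 (x : D.R) : D.sq ((PowerSeries.X : PowerSeries k) • x) 1 = D.sq x 0 := by
  have h : D.sq ((PowerSeries.X : PowerSeries k) • x) = Dm.smulq (PowerSeries.X : PowerSeries k) (D.sq x) := by
    conv_lhs => rw [← D.of_sq x, ← D.of_smul, D.sq_of]
  have h1 : (Finset.HasAntidiagonal.antidiagonal 1 : Finset (ℕ × ℕ)) = {(0, 1), (1, 0)} := rfl
  rw [h, Dm.smulq, h1, Finset.sum_pair (by decide)]
  change (PowerSeries.coeff 0) (PowerSeries.X : PowerSeries k) • D.sq x 1 +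
    (PowerSeries.coeff 1) (PowerSeries.X : PowerSeries k) • D.sq x 0 = _
  rw [PowerSeries.coeff_zero_X, PowerSeries.coeff_one_X, zero_smul, one_smul, zero_add]

theorem sq_X21 (x : D.R) : D.sq ((PowerSeries.X : PowerSeries k) ^ 2 • x) 1 = 0 := by
  have h : D.sq ((PowerSeries.X : PowerSeries k) ^ 2 • x) =
      Dm.smulq ((PowerSeries.X : PowerSeries k) ^ 2) (D.sq x) := by
    conv_lhs => rw [← D.of_sq x, ← D.of_smul, D.sq_of]
  have h1 : (Finset.HasAntidiagonal.antidiagonal 1 : Finset (ℕ × ℕ)) = {(0, 1), (1, 0)} := rfl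
  rw [h, Dm.smulq, h1, Finset.sum_pair (by decide)]
  change (PowerSeries.coeff 0) ((PowerSeries.X : PowerSeries k) ^ 2) • D.sq x 1 +
    (PowerSeries.coeff 1) ((PowerSeries.X : PowerSeries k) ^ 2) • D.sq x 0 = _
  rw [PowerSeries.coeff_X_pow, PowerSeries.coeff_X_pow, if_neg (by norm_num), if_neg (by norm_num),
    zero_smul, zero_smul, zero_add]

theorem sq_w_mul (g : W) (x : D.R) (n : ℕ) : D.sq (D.w g * x) n = om g * D.sq x n := by
  conv_lhs => rw [← D.of_sq x, D.w_mul_of, D.sq_of]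

theorem sq_w0 (g : W) : D.sq (D.w g) 0 = om g := by
  have h : D.w g = D.of (Dm.cst (om g)) := rfl
  rw [h, D.sq_of]
  rfl

theorem sq_w1 (g : W) : D.sq (D.w g) 1 = 0 := by
  have h : D.w g = D.of (Dm.cst (om g)) := rfl
  rw [h, D.sq_of]
  rfl

end dm

theorem fma : FmaStmt := by
  classical
  intro ℓ _ F V A₀ _ _ _ _ _ _ W α₀ D₀ D lf G hV hW hD hf
  have hom : ∀ g : W, aw α₀ W g = α₀ (g : V) := fun g => rfl
  have hinv : ∀ v : V, α₀ v * α₀ v⁻¹ = 1 := fun v => by rw [← map_mul, mul_inv_cancel, map_one]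
  have hinv' : ∀ v : V, α₀ v⁻¹ * α₀ v = 1 := fun v => by rw [← map_mul, inv_mul_cancel, map_one]
  have q0 : ∀ u, D₀.sq (lf u) 0 = α₀ u := hf.q0
  have qG : ∀ u, D₀.sq (G u) 0 = D u := hf.qG
  refine ⟨?_, ?_⟩
  · intro Ω _ _ b c hfr ω u v hu hv
    obtain ⟨z, hz⟩ := hf.cc u v
    have h1 : D₀.sq (lf u * lf v - lf v * lf u) 1 = D₀.sq ((PowerSeries.X : F⟦X⟧) ^ 2 • z) 1 := by
      rw [hz]
    rw [sq_sub, sq_mul1, sq_mul1, sq_X21, q0, q0] at h1
    have hcu : ∀ n : A₀, c ω (α₀ u * n * α₀ u⁻¹) = c ω n := by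
      intro n
      have h2 := hfr.2.1 ((u, u) : V × V) ω n
      rw [hu] at h2
      have h3 : bw F α₀ (u, u) n = α₀ u * n * α₀ u⁻¹ := by
        change α₀ u * (n * α₀ u⁻¹) = _
        rw [mul_assoc]
      rw [h3] at h2
      exact h2
    have hcv : ∀ n : A₀, c ω (α₀ v * n * α₀ v⁻¹) = c ω n := by
      intro n
      have h2 := hfr.2.1 ((v, v) : V × V) ω n
      rw [hv] at h2
      have h3 : bw F α₀ (v, v) n = α₀ v * n * α₀ v⁻¹ := by
        change α₀ v * (n * α₀ v⁻¹) = _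
        rw [mul_assoc]
      rw [h3] at h2
      exact h2
    set p := D₀.sq (lf u) 1 with hp
    set q := D₀.sq (lf v) 1 with hq
    have h4 : D₀.m 1 (α₀ u) (α₀ v) - D₀.m 1 (α₀ v) (α₀ u) =
        α₀ v * p + q * α₀ u - α₀ u * q - p * α₀ v := by
      have h5 : D₀.m 1 (α₀ u) (α₀ v) - D₀.m 1 (α₀ v) (α₀ u) -
          (α₀ v * p + q * α₀ u - α₀ u * q - p * α₀ v) = 0 := by
        rw [← h1]
        abel
      exact sub_eq_zero.1 h5
    have e1 : α₀ (u * v)⁻¹ = α₀ u⁻¹ * α₀ v⁻¹ := by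
      rw [mul_inv, map_mul]
    have e2 : α₀ (u * v)⁻¹ = α₀ v⁻¹ * α₀ u⁻¹ := by
      rw [mul_inv_rev, map_mul]
    have t1 : α₀ v * p * α₀ (u * v)⁻¹ = α₀ v * (p * α₀ u⁻¹) * α₀ v⁻¹ := by
      rw [e1]
      simp only [mul_assoc]
    have t2 : q * α₀ u * α₀ (u * v)⁻¹ = q * α₀ v⁻¹ := by
      rw [e1, mul_assoc, ← mul_assoc (α₀ u), hinv, one_mul]
    have t3 : α₀ u * q * α₀ (u * v)⁻¹ = α₀ u * (q * α₀ v⁻¹) * α₀ u⁻¹ := by
      rw [e2]
      simp only [mul_assoc]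
    have t4 : p * α₀ v * α₀ (u * v)⁻¹ = p * α₀ u⁻¹ := by
      rw [e2, mul_assoc, ← mul_assoc (α₀ v), hinv, one_mul]
    rw [h4, sub_mul, sub_mul, add_mul, t1, t2, t3, t4, map_sub, map_sub, map_add, hcu, hcv]
    ring
  · intro u huW
    set s := D₀.sq (lf u) 1 with hs
    set p := s * α₀ u⁻¹ with hp
    -- powers
    have hpow0 : ∀ n : ℕ, D₀.sq (lf u ^ n) 0 = α₀ (u ^ n) := by
      intro n
      induction n with
      | zero => rw [pow_zero, sq_one0, pow_zero, map_one]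
      | succ n ih => rw [pow_succ, sq_mul0, ih, q0, pow_succ, map_mul]
    have hpow1 : ∀ n : ℕ, D₀.sq (lf u ^ n) 1 * α₀ (u ^ n)⁻¹ =
        ∑ j ∈ Finset.range n, (α₀ (u ^ j) * (p * α₀ (u ^ j)⁻¹) +
          D₀.m 1 (α₀ (u ^ j)) (α₀ u) * α₀ (u ^ (j + 1))⁻¹) := by
      intro n
      induction n with
      | zero => rw [pow_zero, sq_one1, zero_mul, Finset.range_zero, Finset.sum_empty]
      | succ n ih =>
        have e1 : α₀ (u ^ (n + 1))⁻¹ = α₀ u⁻¹ * α₀ (u ^ n)⁻¹ := by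
          rw [pow_succ, mul_inv_rev, map_mul]
        have t1 : α₀ (u ^ n) * D₀.sq (lf u) 1 * α₀ (u ^ (n + 1))⁻¹ =
            α₀ (u ^ n) * (p * α₀ (u ^ n)⁻¹) := by
          rw [e1, hp, ← hs]
          simp only [mul_assoc]
        have t2 : D₀.sq (lf u ^ n) 1 * α₀ u * α₀ (u ^ (n + 1))⁻¹ =
            D₀.sq (lf u ^ n) 1 * α₀ (u ^ n)⁻¹ := by
          rw [e1, mul_assoc, ← mul_assoc (α₀ u), hinv, one_mul]
        rw [Finset.sum_range_succ, ← ih, pow_succ (lf u), sq_mul1, q0, hpow0, add_mul, add_mul,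
          t1, t2]
        abel
    -- the relation for the power `ℓ`
    have hD' : ∀ v : V, α₀ v * D u * α₀ v⁻¹ = D u := by
      intro v
      have h1 := hD u v trivial
      change α₀ v * (D u * α₀ v⁻¹) = D u at h1
      rw [mul_assoc]
      exact h1
    have hl1 : D₀.sq (lf u ^ ℓ) 1 = α₀ (u ^ ℓ) * D u := by
      rw [hf.pl u (hW u), sq_w_mul, sq_add, sq_one1, sq_X1, qG, zero_add]
      rfl
    have hsum := hpow1 ℓ
    rw [hl1, hD', Finset.sum_add_distrib] at hsum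
    have hgoal : ∑ j ∈ Finset.range ℓ, D₀.m 1 (α₀ (u ^ j)) (α₀ u) * α₀ (u ^ (j + 1))⁻¹ - D u =
        -∑ j ∈ Finset.range ℓ, α₀ (u ^ j) * (p * α₀ (u ^ j)⁻¹) := by
      rw [hsum]
      abel
    rw [hgoal]
    refine Submodule.neg_mem _ (Submodule.subset_span ?_)
    have hcop : ∀ i j : ℕ, i < ℓ → j < ℓ → u ^ ((i : ℤ) - j) ∈ W → i = j := by
      intro i j hi hj hij
      by_contra hne
      have hp0 : Nat.Prime ℓ := Fact.out
      have h1 : IsCoprime ((i : ℤ) - j) (ℓ : ℤ) := by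
        rw [isCoprime_comm, Int.isCoprime_iff_gcd_eq_one]
        have h2 : ¬ (ℓ : ℤ) ∣ ((i : ℤ) - j) := by
          intro h3
          have h4 : ((i : ℤ) - j) = 0 := by
            refine Int.eq_zero_of_abs_lt_dvd h3 ?_
            rw [abs_lt]
            constructor <;> omega
          omega
        exact (Int.isCoprime_iff_gcd_eq_one).1 ((Nat.prime_iff_prime_int.1 hp0).coprime_iff_not_dvd.2 h2)
      obtain ⟨x, y, hxy⟩ := h1
      have h5 : u = (u ^ ((i : ℤ) - j)) ^ x * (u ^ (ℓ : ℤ)) ^ y := by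
        rw [← zpow_mul, ← zpow_mul, ← zpow_add, mul_comm ((i : ℤ) - j), mul_comm (ℓ : ℤ), hxy,
          zpow_one]
      refine huW ?_
      rw [h5]
      refine W.mul_mem (W.zpow_mem hij x) (W.zpow_mem ?_ y)
      rw [zpow_natCast]
      exact hW u
    have hP'W : Subgroup.zpowers (u ^ ℓ) ≤ W := by
      rw [Subgroup.zpowers_le]
      exact hW u
    have hinj : ∀ i ∈ Finset.range ℓ, ∀ j ∈ Finset.range ℓ, u ^ i = u ^ j → i = j := by
      intro i hi j hj hij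
      refine hcop i j (Finset.mem_range.1 hi) (Finset.mem_range.1 hj) ?_
      rw [zpow_sub, zpow_natCast, zpow_natCast, hij, mul_inv_cancel]
      exact W.one_mem
    refine ⟨Subgroup.zpowers (u ^ ℓ), (Finset.range ℓ).image (fun j => u ^ j), p, ?_, ?_, ?_, ?_⟩
    · refine lt_of_le_of_ne ?_ ?_
      · rw [Subgroup.zpowers_le]
        exact Subgroup.npow_mem_zpowers u ℓ
      · intro h
        refine huW (hP'W ?_)
        rw [h]
        exact Subgroup.mem_zpowers u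
    · refine ⟨?_, ?_⟩
      · intro x hx
        obtain ⟨j, _, rfl⟩ := Finset.mem_image.1 hx
        exact Subgroup.npow_mem_zpowers u j
      · intro x hx
        obtain ⟨k, rfl⟩ := Subgroup.mem_zpowers_iff.1 hx
        have hp0 : Nat.Prime ℓ := Fact.out
        have hl0 : (0 : ℤ) < ℓ := by exact_mod_cast hp0.pos
        have hm0 := Int.emod_nonneg k hl0.ne'
        have hm1 := Int.emod_lt_of_pos k hl0
        have hm2 : ((k % (ℓ : ℤ)).toNat : ℤ) = k % (ℓ : ℤ) := Int.toNat_of_nonneg hm0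
        refine ⟨u ^ (k % (ℓ : ℤ)).toNat, ⟨?_, ?_⟩, ?_⟩
        · refine Finset.mem_image.2 ⟨_, Finset.mem_range.2 ?_, rfl⟩
          omega
        · have h1 : (u ^ (k % (ℓ : ℤ)).toNat)⁻¹ * u ^ k = (u ^ ℓ) ^ (k / (ℓ : ℤ)) := by
            rw [← zpow_natCast u (k % (ℓ : ℤ)).toNat, hm2, ← zpow_neg, ← zpow_add,
              ← zpow_natCast u ℓ, ← zpow_mul]
            congr 1
            have h2 := Int.emod_add_mul_ediv k ℓ
            linarith
          rw [h1]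
          exact Subgroup.zpow_mem _ (Subgroup.mem_zpowers _) _
        · rintro y ⟨hy, hy'⟩
          obtain ⟨j, hj, rfl⟩ := Finset.mem_image.1 hy
          have h3 : j = (k % (ℓ : ℤ)).toNat := by
            refine hcop _ _ (Finset.mem_range.1 hj) (by omega) ?_
            have h4 : u ^ ((j : ℤ) - ((k % (ℓ : ℤ)).toNat : ℤ)) =
                ((u ^ j)⁻¹ * u ^ k)⁻¹ * (u ^ ℓ) ^ (k / (ℓ : ℤ)) := by
              rw [mul_inv_rev, inv_inv, ← zpow_natCast u j, ← zpow_natCast u ℓ, ← zpow_mul,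
                ← zpow_neg, ← zpow_add, ← zpow_add, hm2]
              congr 1
              have h2 := Int.emod_add_mul_ediv k ℓ
              linarith
            rw [h4]
            exact W.mul_mem (W.inv_mem (hP'W hy')) (W.zpow_mem (hW u) _)
          rw [h3]
    · intro h hh
      have hhW : h ∈ W := hP'W hh
      change α₀ h * (p * α₀ h⁻¹) = p
      have h1 : D₀.sq (D₀.w ⟨h, hhW⟩ * lf u) 1 = D₀.sq (lf u * D₀.w ⟨h, hhW⟩) 1 := by
        rw [hf.cm u ⟨h, hhW⟩]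
      rw [sq_w_mul, sq_mul1, sq_w1, mul_zero, zero_add, sq_w0, D₀.m_om_right, add_zero] at h1
      have h2 : α₀ h * s = s * α₀ h := h1
      have h3 : α₀ u⁻¹ * α₀ h⁻¹ = α₀ h⁻¹ * α₀ u⁻¹ := by
        rw [← map_mul, ← map_mul, mul_comm]
      rw [hp, mul_assoc s, h3, ← mul_assoc, ← mul_assoc, h2, mul_assoc s, hinv, mul_one]
    · rw [Finset.sum_image hinj]
      rfl

end Pool.Agent.PST.H53
end
end -- Pool.Agent.Helper53_PST.FMA

section -- Pool.Agent.Helper5_PST.NTR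

/-!
# Squad PST, row NTR (helper5): the regularity datum passes to `N_(W0)(A)`
-/

open scoped BigOperators TensorProduct PowerSeries

noncomputable section

namespace Pool.Agent.PST.H5

open Pool.Agent.PFC (tw IsTv)
open Pool.Agent.PFD.D2b (FrR)
open Pool.Agent.PSS

section frames

variable {R H K M Ω : Type} [CommRing R] [Group H] [Group K] [AddCommGroup M] [Module R M]

/-- a frame for `H` is a frame for `K` by means of `f : K → H` -/
theorem frR_comp [Fintype Ω] [MulAction H Ω] (ρ : H →* (M →ₗ[R] M)) (f : K →* H) (b : Ω → M)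
    (c : Ω → (M →ₗ[R] R)) (h : FrR ρ b c) :
    letI : MulAction K Ω := MulAction.compHom Ω f
    FrR (ρ.comp f) b c := by
  let _ : MulAction K Ω := MulAction.compHom Ω f
  refine ⟨?_, ?_, h.2.2⟩
  · intro g t
    exact h.1 (f g) t
  · intro g t n
    exact h.2.1 (f g) t n

end frames

/-- the diagonal -/
def dia (V : Type) [CommGroup V] : V →* V × V := (MonoidHom.id V).prod (MonoidHom.id V)

theorem cw_eq (R : Type) {V A : Type} [CommRing R] [CommGroup V] [Ring A] [Algebra R A]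
    (α : V →* A) : cw R α = (bw R α).comp (dia V) := by
  ext v a
  rfl

section nw

variable {R V A B : Type} [CommRing R] [CommGroup V] [Ring A] [Algebra R A] [Ring B] [Algebra R B]
  {α : V →* A} {U : Subgroup V}

theorem mem1 {a : A} (h : ∀ w : V, α w * a = a * α w) :
    a ∈ FxR (bw R α) (twW U (1 : MulAut U)) := by
  rw [mem_tw]
  intro w
  exact h w

theorem nmul (N : IsNW R α U B) {a b : A} (ha : a ∈ FxR (bw R α) (twW U (1 : MulAut U)))
    (hb : b ∈ FxR (bw R α) (twW U (1 : MulAut U))) : N.β 1 (a * b) = N.β 1 a * N.β 1 b := by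
  have h := N.mul 1 1 a ha b hb
  rwa [mul_one] at h

theorem pow_comm {a : A} (h : ∀ w : V, α w * a = a * α w) (n : ℕ) (w : V) :
    α w * a ^ n = a ^ n * α w := ((show Commute (α w) a from h w).pow_right n).eq

theorem npow (N : IsNW R α U B) {a : A} (h : ∀ w : V, α w * a = a * α w) (n : ℕ) :
    N.β 1 (a ^ n) = N.β 1 a ^ n := by
  induction n with
  | zero => rw [pow_zero, pow_zero, N.one]
  | succ n ih => rw [pow_succ, pow_succ, nmul N (mem1 (pow_comm h n)) (mem1 h), ih]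

theorem fx_nwh (N : IsNW R α U B) {a : A} (ha : a ∈ FxR (cw R α) ⊤) :
    N.β 1 a ∈ FxR (cw R N.nwh) ⊤ := by
  have h1 : ∀ w : V, α w * a = a * α w := fun w => mem_cw.1 ha w (Subgroup.mem_top _)
  rw [mem_cw]
  intro v _
  rw [N.nwh_apply, ← nmul N (al_mem_tw v U) (mem1 h1), ← nmul N (mem1 h1) (al_mem_tw v U), h1 v]

end nw

/-- the Brauer map `β 1` respects the Brauer kernels of the subgroups of `V` -/
theorem bk_nwh (hN : NfrStmt) (hF : FrbStmt) (ℓ : ℕ) [Fact ℓ.Prime] {F V E A B : Type} [Field F]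
    [CharP F ℓ] [CommGroup V] [Fintype V] [Group E] [Ring A] [Algebra F A] [Ring B] [Algebra F B]
    {φ : E →* MulAut V} {α : V →* A} {U : Subgroup V} (N : IsNW F α U B) (hp : IsPGroup ℓ V)
    (hL : Per F φ α) (Q : Subgroup V) {x : A} (hx : x ∈ FxR (cw F α) ⊤)
    (hxQ : x ∈ BKR (cw F α) Q) : N.β 1 x ∈ BKR (cw F N.nwh) Q := by
  classical
  obtain ⟨Ω, fΩ, aΩ, b0, c0, hfr, hst⟩ := hL
  have : Finite (MulAut U) := Finite.of_injective (fun f => (f : U → U)) DFunLike.coe_injective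
  have : Fintype (MulAut U) := Fintype.ofFinite _
  have hl : (ℓ : F) = 0 := CharP.cast_eq_zero F ℓ
  obtain ⟨c', h1, h2, hfr'⟩ := hN ℓ F V A B Ω α b0 c0 U N hl hp hfr
  have hT : IsPGroup ℓ Q := hp.to_subgroup Q
  have hA := frR_comp (bw F α) (dia V) b0 c0 hfr
  have hB := frR_comp (bw F N.nwh) (dia V) _ c' hfr'
  rw [← cw_eq] at hA hB
  have hFA := @hF ℓ _ F V A Ω _ _ _ _ _ (MulAction.compHom Ω (dia V)) (cw F α) b0 c0 Q hl hT
    inferInstance hA
  have hFB := @hF ℓ _ F V B (Σ ε : MulAut U, Fp Ω (twW U ε)) _ _ _ _ _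
    (MulAction.compHom _ (dia V)) (cw F N.nwh) _ c' Q hl hT inferInstance hB
  obtain ⟨hA1, -⟩ := hFA
  obtain ⟨-, hB2⟩ := hFB
  have hx1 : x ∈ FxR (bw F α) (twW U (1 : MulAut U)) :=
    mem1 fun w => mem_cw.1 hx w (Subgroup.mem_top _)
  have hxq : N.β 1 x ∈ FxR (cw F N.nwh) Q := fun q _ => fx_nwh N hx q (Subgroup.mem_top _)
  have h3 := hB2 (N.β 1 x) hxq
  rw [Finset.sum_eq_zero, sub_zero] at h3
  · exact h3
  · rintro ⟨⟨ε, ω⟩, ht⟩ _
    by_cases hε : ε = 1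
    · subst hε
      have h7 : c' ⟨1, ω⟩ (N.β 1 x) = 0 := by
        refine (h1 ⟨1, ω⟩ x hx1).trans (hA1 ω.1 ?_ x hxQ)
        intro v hv
        have h4 : ((v, v) : V × V) • (⟨1, ω⟩ : Σ ε : MulAut U, Fp Ω (twW U ε)) = ⟨1, ω⟩ := ht hv
        rw [Sigma.ext_iff] at h4
        have h5 : ((v, v) : V × V) • ω = ω := eq_of_heq h4.2
        exact congrArg Subtype.val h5
      change c' ⟨1, ω⟩ (N.β 1 x) • _ = 0
      rw [h7, zero_smul]
    · have h7 : c' ⟨ε, ω⟩ (N.β 1 x) = 0 := h2 ⟨ε, ω⟩ 1 (fun h => hε h.symm) x hx1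
      change c' ⟨ε, ω⟩ (N.β 1 x) • _ = 0
      rw [h7, zero_smul]

theorem ntr (hN : NfrStmt) (hF : FrbStmt) : NtrStmt := by
  intro ℓ _ F V E A As B Bs _ _ _ _ _ _ _ _ _ _ _ _ _ φ α W W0 γ N N₁ N' df df' hp hper hW0 hW
    hN1 hq hReg
  obtain ⟨r, la, χ, xx, t, D, lf, G, hD, hFo⟩ := hReg
  -- no torsion
  have htf : ∀ a : As, (PowerSeries.X : F⟦X⟧) • a = 0 → a = 0 := by
    obtain ⟨Ω, _, _, b, c, hfr⟩ := df.per
    intro a ha
    rw [← hfr.2.2 a]
    refine Finset.sum_eq_zero fun ω _ => ?_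
    have h1 : (PowerSeries.X : F⟦X⟧) * c ω a = 0 := by
      have h2 := congrArg (c ω) ha
      rwa [map_smul, map_zero, smul_eq_mul] at h2
    rcases mul_eq_zero.1 h1 with h | h
    · exact absurd h PowerSeries.X_ne_zero
    · rw [h, zero_smul]
  have hcm : ∀ (u : V) (w : W), γ w * lf u = lf u * γ w := hFo.cm
  -- `G u` commutes with `W`
  have hG : ∀ (u : V) (w : W), γ w * G u = G u * γ w := by
    intro u w
    have h1 := hFo.pl u (hW u)
    set g : As := γ ⟨u ^ ℓ, hW u⟩ with hg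
    set g' : As := γ ⟨u ^ ℓ, hW u⟩⁻¹ with hg'
    have h2 : g' * g = 1 := by rw [hg, hg', ← map_mul, inv_mul_cancel, map_one]
    have h3 : γ w * lf u ^ ℓ = lf u ^ ℓ * γ w := pow_comm (hcm u) ℓ w
    have h4 : γ w * g = g * γ w := by rw [hg, ← map_mul, ← map_mul, mul_comm]
    rw [h1, ← mul_assoc, h4, mul_assoc, mul_assoc] at h3
    have h5 : γ w * (1 + (PowerSeries.X : F⟦X⟧) • G u) =
        (1 + (PowerSeries.X : F⟦X⟧) • G u) * γ w := by
      have h6 := congrArg (g' * ·) h3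
      simp only [← mul_assoc, h2, one_mul] at h6
      exact h6
    rw [mul_add, add_mul, mul_one, one_mul, add_right_inj, mul_smul_comm, smul_mul_assoc] at h5
    have h6 : (PowerSeries.X : F⟦X⟧) • (γ w * G u - G u * γ w) = 0 := by
      rw [smul_sub, h5, sub_self]
    exact sub_eq_zero.1 (htf _ h6)
  have hM : ∀ a : As, (∀ w : W, γ w * a = a * γ w) →
      a ∈ FxR (bw F⟦X⟧ γ) (twW (W0.subgroupOf W) (1 : MulAut (W0.subgroupOf W))) :=
    fun a ha => mem1 ha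
  refine ⟨r, la, χ, xx, t, fun u => N.β 1 (D u), fun u => N'.β 1 (lf u), fun u => N'.β 1 (G u),
    ?_, ?_⟩
  · refine ⟨hD.eg, hD.qst, ?_, ?_, ?_, ?_⟩
    · intro u v
      rw [hD.add, map_add]
    · intro w hw
      rw [hD.w0 w hw, map_zero]
    · intro u
      exact fx_nwh N (hD.fx u)
    · intro u
      have h1 : Xe N.nwh (pg la xx t u) = N.β 1 (Xe α (pg la xx t u)) := by
        rw [Xe, Xe, map_sum]
        refine Finset.sum_congr rfl fun v _ => ?_
        rw [map_smul, N.nwh_apply]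
      have h2 : Xe α (pg la xx t u) ∈ FxR (cw F α) ⊤ := by
        rw [Xe]
        exact Submodule.sum_mem _ fun v _ => Submodule.smul_mem _ _ (al_mem_cw v ⊤)
      have h3 := bk_nwh hN hF ℓ N hp hper (QW0 φ W)
        ((FxR (cw F α) ⊤).sub_mem (hD.fx u) h2) (hD.bk u)
      rw [map_sub] at h3
      rw [h1]
      exact h3
  · refine ⟨?_, ?_, ?_, ?_, ?_⟩
    · intro u
      rw [hq _ (hM _ (hcm u)), hFo.q0, hN1, N.nwh_apply]
    · intro u w
      rw [N'.nwh_apply, ← nmul N' (al_mem_tw w _) (hM _ (hcm u)),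
        ← nmul N' (hM _ (hcm u)) (al_mem_tw w _), hcm u w]
    · intro u h
      have h1 : ∀ w : W, γ w * (1 + (PowerSeries.X : F⟦X⟧) • G u) =
          (1 + (PowerSeries.X : F⟦X⟧) • G u) * γ w := by
        intro w
        rw [mul_add, add_mul, mul_one, one_mul, mul_smul_comm, smul_mul_assoc, hG u w]
      rw [← npow N' (hcm u), hFo.pl u h, nmul N' (al_mem_tw _ _) (hM _ h1), map_add, N'.one,
        map_smul, N'.nwh_apply]
    · intro u
      rw [hq _ (hM _ (hG u)), hFo.qG, hN1]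
    · intro u v
      obtain ⟨z, hz⟩ := hFo.cc u v
      have hzc : ∀ w : W, γ w * z = z * γ w := by
        intro w
        have h1 : γ w * (lf u * lf v - lf v * lf u) = (lf u * lf v - lf v * lf u) * γ w := by
          rw [mul_sub, sub_mul, ← mul_assoc, hcm u w, mul_assoc, hcm v w, ← mul_assoc,
            ← mul_assoc (γ w), hcm v w, mul_assoc (lf v), hcm u w, ← mul_assoc]
        rw [hz, mul_smul_comm, smul_mul_assoc] at h1
        have h2 : (PowerSeries.X : F⟦X⟧) • ((PowerSeries.X : F⟦X⟧) • (γ w * z - z * γ w)) = 0 := by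
          rw [smul_smul, ← pow_two, smul_sub, h1, sub_self]
        exact sub_eq_zero.1 (htf _ (htf _ h2))
      refine ⟨N'.β 1 z, ?_⟩
      rw [← nmul N' (hM _ (hcm u)) (hM _ (hcm v)), ← nmul N' (hM _ (hcm v)) (hM _ (hcm u)),
        ← map_sub, hz, map_smul]

end Pool.Agent.PST.H5
end
end -- Pool.Agent.Helper5_PST.NTR

section -- Pool.Agent.Helper91_PST.OBR

/-!
# Squad PST, row OBR: it is enough that the forms vanish at `QW0 φ W`
-/

set_option autoImplicit false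

open scoped BigOperators

noncomputable section

namespace Pool.Agent.PST.H91

open Pool.Agent.PFC (tw IsTv)
open Pool.Agent.PFD.D2 (Cdv FibG)
open Pool.Agent.PFD.D2b (FrR)
open Pool.Agent.PSS
open Pool.Agent.PSS.S0 (IsBQ)

section

variable {R V A : Type} [CommRing R] [CommGroup V] [Ring A] [Algebra R A]

theorem cwo_ap (α : V →* A) (u : V) (m : A) : cw R α u m = α u * m * α u⁻¹ := by
  show α u * (m * α u⁻¹) = _
  rw [mul_assoc]

theorem al_io (α : V →* A) (v : V) : α v⁻¹ * α v = 1 := by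
  rw [← map_mul, inv_mul_cancel, map_one]

theorem al_io' (α : V →* A) (v : V) : α v * α v⁻¹ = 1 := by
  rw [← map_mul, mul_inv_cancel, map_one]

/-- fixed by conjugation iff commuting -/
theorem fx_iff (α : V →* A) (u : V) (m : A) : cw R α u m = m ↔ m * α u = α u * m := by
  rw [cwo_ap]
  constructor
  · intro h
    calc m * α u = (α u * m * α u⁻¹) * α u := by rw [h]
      _ = α u * m * (α u⁻¹ * α u) := by rw [mul_assoc]
      _ = α u * m := by rw [al_io, mul_one]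
  · intro h
    rw [← h, mul_assoc, al_io', mul_one]

theorem fx_clo (α : V →* A) (u v : V) (m : A) (hu : cw R α u m = m) (hv : cw R α v m = m) :
    m ∈ FxR (cw R α) (Subgroup.closure {u, v}) := by
  let S : Subgroup V :=
    { carrier := {g | cw R α g m = m}
      mul_mem' := by
        intro a b ha hb
        show cw R α (a * b) m = m
        have ha' : cw R α a m = m := ha
        have hb' : cw R α b m = m := hb
        rw [map_mul]
        show cw R α a (cw R α b m) = m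
        rw [hb', ha']
      one_mem' := by
        show cw R α 1 m = m
        rw [map_one]
        rfl
      inv_mem' := by
        intro a ha
        show cw R α a⁻¹ m = m
        have ha' : cw R α a m = m := ha
        calc cw R α a⁻¹ m = cw R α a⁻¹ (cw R α a m) := by rw [ha']
          _ = (cw R α a⁻¹ * cw R α a) m := rfl
          _ = m := by
            rw [← map_mul, inv_mul_cancel, map_one]
            rfl }
  have h3 : Subgroup.closure {u, v} ≤ S := by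
    rw [Subgroup.closure_le]
    rintro g (rfl | rfl)
    · exact hu
    · exact hv
  exact fun g hg => h3 hg

/-- the right action is free -/
theorem free_of {E Ω : Type} [Group E] [MulAction (V × V) Ω] (φ : E →* MulAut V)
    (hst : ∀ ω : Ω, ∃ (e : E) (S : Subgroup V),
      MulAction.stabilizer (V × V) ω = tw (φ e).toMonoidHom S) (v : V) (ω : Ω)
    (h : ((1, v) : V × V) • ω = ω) : v = 1 := by
  obtain ⟨e, S, hS⟩ := hst ω
  have h1 : ((1, v) : V × V) ∈ MulAction.stabilizer (V × V) ω := h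
  rw [hS] at h1
  obtain ⟨s, -, hs⟩ := h1
  have h2 : φ e s = 1 := congrArg Prod.fst hs
  have h3 : s = v := congrArg Prod.snd hs
  rw [← h3]
  have h4 : φ e s = φ e 1 := by rw [h2, map_one]
  exact (φ e).injective h4

end

theorem obr (zij : ZijStmt) (oba : ObaStmt) (obw : ObwStmt) (lfx : LfxStmt)
    (rfd : S0.RfdStmt) (bqx : S0.BqxStmt) (bcl : S0.BclStmt) (bpu : S0.BpuStmt)
    (bbk : S0.BbkStmt) (fbk : S0.FbkStmt) : ObrStmt := by
  classical
  intro ℓ _ R K F V E A A₀ B κ Ω _ _ _ _ _ _ _ _ _ _ _ _ _ _ _ _ _ _ _ _ φ W α lam x y b c C cv f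
    α₀ lam₀ x₀ y₀ b₀ c₀ cc hK hz hQ hob ω u v hu hv
  have hℓF : (ℓ : F) = 0 := CharP.cast_eq_zero F ℓ
  have hℓK : (ℓ : K) ≠ 0 := Nat.cast_ne_zero.mpr (Fact.out : ℓ.Prime).ne_zero
  have hκℓ : cv.κ (ℓ : R) = 0 := by rw [map_natCast, hℓF]
  obtain ⟨ob1, ob2, -, ob4⟩ := oba R K V A B κ Ω W α lam x y b c C cc hz
  -- dual family of the frame
  obtain ⟨d, hcd, hSF⟩ := rfd R V A κ Ω α lam x y b c C.rf C.fr (free_of φ hK.st)
  have hcK : ∀ s : B, C.cK ω s = C.lamK (C.i (d ω) * s) := by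
    intro s
    have h1 : ∀ a : A, C.cK ω (C.i a) = C.lamK (C.i (d ω) * C.i a) := by
      intro a
      rw [C.ck, hcd, ← map_mul, C.lk]
    have h2 : ∑ t, C.cK t s • C.i (b t) = s := C.frK.2.2 s
    rw [← h2, Finset.mul_sum, map_sum, map_sum]
    refine Finset.sum_congr rfl fun t _ => ?_
    rw [map_smul, mul_smul_comm, map_smul, h1]
  have hdu : ∀ g : V, ((g, g) : V × V) • ω = ω → cw R α g (d ω) = d ω := by
    intro g hg
    have h1 := hSF.ed (g, g) ω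
    rw [hg] at h1
    rw [cwo_ap]
    exact h1.symm
  have hT : d ω ∈ FxR (cw R α) (Subgroup.closure {u, v}) :=
    fx_clo α u v (d ω) (hdu u hu) (hdu v hv)
  have huT : u ∈ Subgroup.closure {u, v} := Subgroup.subset_closure (Or.inl rfl)
  have hvT : v ∈ Subgroup.closure {u, v} := Subgroup.subset_closure (Or.inr rfl)
  show ∃ r : R, C.cK ω (kp C.i α cc u v) = algebraMap R K r
  rw [hcK]
  suffices hmain : ∀ z ∈ FxR (cw R α) (Subgroup.closure {u, v}),
      InR R (C.lamK (C.i z * kp C.i α cc u v)) by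
    obtain ⟨r, hr⟩ := hmain _ hT
    exact ⟨r, hr.symm⟩
  generalize hTT : Subgroup.closure {u, v} = T at *
  by_cases hTW : T ≤ W
  · intro z _
    have h1 := (ob2 v (hTW hvT) u 1).2.2.1
    rw [h1, mul_zero, map_zero]
    exact ⟨0, map_zero _⟩
  obtain ⟨t, htT, htW⟩ := Set.not_subset.mp hTW
  let E1 : Subgroup E :=
    { carrier := {e | ∀ q ∈ T, φ e q = q}
      one_mem' := by
        intro q _
        rw [map_one]
        rfl
      mul_mem' := by
        intro a a' ha hb q hq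
        rw [map_mul]
        show φ a (φ a' q) = q
        rw [hb q hq, ha q hq]
      inv_mem' := by
        intro a ha q hq
        rw [map_inv]
        show (φ a).symm q = q
        rw [MulEquiv.symm_apply_eq, ha q hq] }
  have hE1 : ∀ e, e ∈ E1 ↔ ∀ q ∈ T, φ e q = q := fun e => Iff.rfl
  have hEQ : ∀ e ∈ E1, ∀ q ∈ QW0 φ W, φ e q = q := by
    intro e he q hq
    refine hq e ?_
    refine hK.ch.fr e t htW ?_
    rw [he t htT, mul_inv_cancel]
    exact W.one_mem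
  obtain ⟨BT, _, _, αT, β, hBQ⟩ := bqx F V A₀ α₀ T
  have hClT := bcl ℓ F V E A₀ BT φ α₀ T αT β E1 hK.pg hK.cop hK.cl hBQ hE1
  obtain ⟨hPT, -, lamT, KT, _, xT, yT, hRT, hlT⟩ := bpu ℓ F V E A₀ BT κ φ α₀ T αT β lam₀ x₀ y₀ E1
    hℓF hK.pg hK.cl.per hK.cl.uni hK.rf0 hBQ hE1
  obtain ⟨w, hwc, hw⟩ := obw ℓ R K F V E A A₀ B κ Ω BT KT φ W α lam x y b c C cv f α₀ lam₀ x₀ y₀
    b₀ c₀ cc T αT β lamT xT yT hK hz hBQ hRT hlT u huT v hvT
  have hcomm : ∀ (S : Subgroup V) (z : A), z ∈ FxR (cw R α) S → ∀ g ∈ S, z * α g = α g * z :=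
    fun S z hzS g hg => (fx_iff α g z).1 (hzS g hg)
  have hρ : ∀ z ∈ FxR (cw R α) T, ∃ ρ : R,
      algebraMap R K ρ = (ℓ : K) * C.lamK (C.i z * kp C.i α cc u v) := by
    intro z hz'
    exact ob4 z ℓ u v (hcomm T z hz' u huT) (hcomm T z hz' v hvT) (hK.ch.pw u)
  -- `w` is in the Brauer kernel of `Q`
  have hwQ : w ∈ BKR (cw F αT) (QW0 φ W) := by
    obtain ⟨Ω', _, _, b', c', hF', hst'⟩ := hPT
    obtain ⟨d', hcd', hSF'⟩ := rfd F V BT KT Ω' αT lamT xT yT b' c' hRT hF'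
      (free_of (φ.comp E1.subtype) hst')
    let act : MulAction V Ω' :=
      MulAction.compHom Ω' (MonoidHom.prod (MonoidHom.id V) (MonoidHom.id V))
    have hFD : FrR (cw F αT) b' c' := by
      obtain ⟨f1, f2, f3⟩ := hF'
      exact ⟨fun g t => f1 (g, g) t, fun g t n => f2 (g, g) t n, f3⟩
    refine fbk F V BT Ω' (cw F αT) b' c' hFD (QW0 φ W) w ?_ ?_
    · intro g _
      rw [fx_iff]
      exact hwc _
    · intro t' ht'
      rw [hcd']
      have hdt : d' t' ∈ FxR (cw F αT) (QW0 φ W) := by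
        intro g hg
        have h1 := hSF'.ed (g, g) t'
        have h2 : ((g, g) : V × V) • t' = t' := ht' g hg
        rw [h2] at h1
        rw [cwo_ap]
        exact h1.symm
      obtain ⟨a₀, ha₀, hβa⟩ := (bbk ℓ F V E A₀ BT κ φ α₀ T αT β lam₀ x₀ y₀ (QW0 φ W) hℓF hK.pg
        hK.cl.per hK.rf0 hBQ).2 (d' t') hdt
      obtain ⟨z, hzz, hza⟩ := (lfx R F V A A₀ κ Ω cv f α₀ lam₀ x₀ y₀ b₀ c₀ α lam x y b c hK.fr0
        hK.lv (QW0 φ W ⊔ T)).1 a₀ ha₀
      have hzT : z ∈ FxR (cw R α) T := fun g hg => hzz g ((le_sup_right : T ≤ QW0 φ W ⊔ T) hg)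
      have hzQ : z ∈ FxR (cw R α) (QW0 φ W) :=
        fun g hg => hzz g ((le_sup_left : QW0 φ W ≤ QW0 φ W ⊔ T) hg)
      obtain ⟨ρ, hρe⟩ := hρ z hzT
      rw [← hβa, ← hza, hw z hzT ρ hρe]
      obtain ⟨u', hu', w₁, hw₁, rfl⟩ := hQ u
      obtain ⟨v', hv', w₂, hw₂, rfl⟩ := hQ v
      have h3 : kp C.i α cc (u' * w₁) (v' * w₂) = kp C.i α cc u' v' := by
        rw [(ob2 w₁ hw₁ u' (v' * w₂)).1, (ob2 w₂ hw₂ u' v').2.1]
      obtain ⟨r, hr⟩ := hob u' hu' v' hv' z hzQ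
      rw [h3, ← hr] at hρe
      have h4 : ρ = (ℓ : R) * r := by
        apply C.rinj
        rw [hρe, map_mul, map_natCast]
      rw [h4, map_mul, hκℓ, zero_mul]
  have hpE1 : ¬ ℓ ∣ Nat.card E1 := fun h => hK.cop (h.trans (Subgroup.card_subgroup_dvd_card E1))
  have hw0 : w = 0 := zij ℓ F V E1 BT (φ.comp E1.subtype) αT (QW0 φ W) hK.pg hpE1 hClT
    (fun g q hq => hEQ g.1 g.2 q hq) w hwc hwQ
  intro z hzT
  obtain ⟨ρ, hρe⟩ := hρ z hzT
  have h1 := hw z hzT ρ hρe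
  rw [hw0, mul_zero, map_zero] at h1
  obtain ⟨r, hr⟩ := (cv.ker ρ).1 h1.symm
  refine ⟨r, ?_⟩
  rw [hr, hK.pi, map_mul, map_natCast] at hρe
  exact mul_left_cancel₀ hℓK hρe

end Pool.Agent.PST.H91
end
end -- Pool.Agent.Helper91_PST.OBR

section -- Pool.Agent.Helper95_PST.OBW

set_option autoImplicit false

open scoped BigOperators

noncomputable section

namespace Pool.Agent.PST.H95

open Pool.Agent.PFC (tw IsTv)
open Pool.Agent.PFD.D2 (Cdv FibG)
open Pool.Agent.PFD.D2b (FrR)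
open Pool.Agent.PSS
open Pool.Agent.PSS.S0 (IsBQ)
open Pool.Agent.PST

theorem obw (oba : ObaStmt) (obb : ObbStmt) (obc : ObcStmt) (lfx : LfxStmt) : ObwStmt := by
  intro ℓ _ R K F V E A A₀ B κ Ω BT KT _ _ _ _ _ _ _ _ _ _ _ _ _ _ _ _ _ _ _ _ _ _ φ W α lam x y b
    c C cv f α₀ lam₀ x₀ y₀ b₀ c₀ cc T αT β lamT xT yT hK hZ hBQ hRF _ u hu v hv
  obtain ⟨_, _, _, oba4⟩ := oba R K V A B κ Ω W α lam x y b c C cc hZ
  obtain ⟨obb1, _⟩ := obb R K V A B κ Ω W α lam x y b c C cc hZ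
  have obc1 := obc R K V A B κ Ω W α lam x y b c C cc ℓ hK.pg hK.ch.pw hZ T
  obtain ⟨lfx1, _, lfx3⟩ := lfx R F V A A₀ κ Ω cv f α₀ lam₀ x₀ y₀ b₀ c₀ α lam x y b c hK.fr0 hK.lv T
  -- commuting
  have hcom : ∀ z ∈ FxR (cw R α) T, ∀ g ∈ T, z * α g = α g * z := by
    intro z hz g hg
    have h1 : α g * (z * α g⁻¹) = z := hz g hg
    calc z * α g = α g * (z * α g⁻¹) * α g := by rw [h1]
      _ = α g * z * (α g⁻¹ * α g) := by simp only [mul_assoc]
      _ = α g * z := by rw [← map_mul, inv_mul_cancel, map_one, mul_one]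
  set kq : B := kp C.i α cc u v with hkq
  -- the value
  have hval : ∀ z ∈ FxR (cw R α) T, ∃ ρ : R, algebraMap R K ρ = (ℓ : K) * C.lamK (C.i z * kq) := by
    intro z hz
    exact oba4 z ℓ u v (hcom z hz u hu) (hcom z hz v hv) (hK.ch.pw u)
  have hκ0 : ∀ r : R, cv.κ (cv.π * r) = 0 := fun r => (cv.ker _).2 ⟨r, rfl⟩
  have hℓ0 : ∀ r : R, cv.κ ((ℓ : R) * r) = 0 := by
    intro r
    rw [← hK.pi]
    exact hκ0 r
  have hlπ : ∀ (r : R) (s : B), C.lamK (r • s) = algebraMap R K r * C.lamK s := by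
    intro r s
    rw [← C.tow, map_smul, smul_eq_mul]
  have hker : ∀ z ∈ FxR (cw R α) T, β (f.q z) = 0 → ∀ ρ : R,
      algebraMap R K ρ = (ℓ : K) * C.lamK (C.i z * kq) → cv.κ ρ = 0 := by
    intro z hz h0 ρ hρ
    obtain ⟨h1, h2⟩ := lfx3 z hz
    obtain ⟨a', ha', d, hd, hz'⟩ := h2 ((hBQ.ker _ h1).1 h0)
    obtain ⟨r1, hr1⟩ := obc1 a' ha' u hu v hv
    obtain ⟨r2, hr2⟩ := hval d hd
    have h3 : ρ = (ℓ : R) * r1 + cv.π * r2 := by
      apply C.rinj
      rw [hρ, hz', map_add, map_smul, add_mul, smul_mul_assoc, map_add, hlπ, mul_add, map_add,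
        map_mul (algebraMap R K), map_mul (algebraMap R K), map_natCast, hr1, hr2]
      ring
    rw [h3, map_add, hℓ0, hκ0, add_zero]
  -- lifts of the elements of the Brauer quotient
  have hlift : ∀ t : BT, ∃ z ∈ FxR (cw R α) T, β (f.q z) = t := by
    intro t
    obtain ⟨a, ha, hat⟩ := hBQ.surj t
    obtain ⟨z, hz, hza⟩ := lfx1 a ha
    exact ⟨z, hz, by rw [hza, hat]⟩
  choose zt hzt hbt using hlift
  choose rt' hrt using hval
  have hβadd : ∀ z ∈ FxR (cw R α) T, ∀ z' ∈ FxR (cw R α) T,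
      β (f.q (z + z')) = β (f.q z) + β (f.q z') := by
    intro z hz z' hz'
    rw [map_add]
    exact hBQ.add _ (lfx3 z hz).1 _ (lfx3 z' hz').1
  have hqs : ∀ (r : R) (z : A), f.q (r • z) = cv.κ r • f.q z := by
    intro r z
    rw [Algebra.smul_def, map_mul, f.sc, Algebra.smul_def]
  have hβsmul : ∀ (r : R), ∀ z ∈ FxR (cw R α) T, β (f.q (r • z)) = cv.κ r • β (f.q z) := by
    intro r z hz
    rw [hqs]
    exact hBQ.smul _ _ (lfx3 z hz).1
  -- the value depends only on the class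
  have hwd : ∀ z ∈ FxR (cw R α) T, ∀ z' ∈ FxR (cw R α) T, β (f.q z) = β (f.q z') → ∀ ρ ρ' : R,
      algebraMap R K ρ = (ℓ : K) * C.lamK (C.i z * kq) →
      algebraMap R K ρ' = (ℓ : K) * C.lamK (C.i z' * kq) → cv.κ ρ = cv.κ ρ' := by
    intro z hz z' hz' h ρ ρ' hρ hρ'
    have h1 : β (f.q (z + (-1 : R) • z')) = 0 := by
      rw [hβadd z hz _ (Submodule.smul_mem _ _ hz'), hβsmul _ z' hz', h, map_neg, map_one, neg_smul,
        one_smul, add_neg_cancel]
    have h2 := hker (z + (-1 : R) • z') (Submodule.add_mem _ hz (Submodule.smul_mem _ _ hz')) h1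
      (ρ + (-1) * ρ') (by
        rw [map_add, map_add, map_smul, add_mul, smul_mul_assoc, map_add, hlπ, mul_add,
          map_mul (algebraMap R K), map_neg, map_one, hρ, hρ']
        ring)
    rw [map_add, map_mul, map_neg, map_one, neg_one_mul, add_neg_eq_zero] at h2
    exact h2
  have hsg : ∃ σ : BT →ₗ[F] F, ∀ z ∈ FxR (cw R α) T, ∀ ρ : R,
      algebraMap R K ρ = (ℓ : K) * C.lamK (C.i z * kq) → σ (β (f.q z)) = cv.κ ρ := by
    have hdef : ∀ z ∈ FxR (cw R α) T, ∀ ρ : R,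
        algebraMap R K ρ = (ℓ : K) * C.lamK (C.i z * kq) →
        cv.κ (rt' (zt (β (f.q z))) (hzt _)) = cv.κ ρ := by
      intro z hz ρ hρ
      exact hwd _ (hzt _) z hz (hbt _) _ _ (hrt _ _) hρ
    refine ⟨{ toFun := fun t => cv.κ (rt' (zt t) (hzt t)), map_add' := ?_, map_smul' := ?_ }, ?_⟩
    · intro s t
      have h1 := hdef (zt s + zt t) (Submodule.add_mem _ (hzt s) (hzt t))
        (rt' (zt s) (hzt s) + rt' (zt t) (hzt t)) (by
          rw [map_add, map_add, add_mul, map_add, mul_add, hrt, hrt])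
      have h2 : β (f.q (zt s + zt t)) = s + t := by
        rw [hβadd _ (hzt s) _ (hzt t), hbt, hbt]
      rw [h2] at h1
      rw [h1, map_add]
    · intro a t
      obtain ⟨r, rfl⟩ := cv.surj a
      have h1 := hdef (r • zt t) (Submodule.smul_mem _ _ (hzt t)) (r * rt' (zt t) (hzt t)) (by
          rw [map_mul (algebraMap R K), map_smul, smul_mul_assoc, hlπ, hrt]
          ring)
      have h2 : β (f.q (r • zt t)) = cv.κ r • t := by
        rw [hβsmul _ _ (hzt t), hbt]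
      rw [h2] at h1
      rw [h1, map_mul]
      rfl
    · intro z hz ρ hρ
      exact hdef z hz ρ hρ
  obtain ⟨σ, hσ⟩ := hsg
  have hmem : ∀ z ∈ FxR (cw R α) T, ∀ z' ∈ FxR (cw R α) T, z * z' ∈ FxR (cw R α) T := by
    intro z hz z' hz' g hg
    have h1 := hcom z hz g hg
    have h2 := hcom z' hz' g hg
    change α g * (z * z' * α g⁻¹) = z * z'
    rw [← mul_assoc, ← mul_assoc, ← h1, mul_assoc z, ← h2, mul_assoc, mul_assoc, ← map_mul,
      mul_inv_cancel, map_one, mul_one]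
  have htr : ∀ s t : BT, σ (s * t) = σ (t * s) := by
    intro s t
    obtain ⟨r, hr⟩ := obb1 (zt s) (zt t) u v (hcom _ (hzt s) u hu) (hcom _ (hzt s) v hv)
      (hcom _ (hzt t) u hu) (hcom _ (hzt t) v hv)
    have h1 := hmem _ (hzt s) _ (hzt t)
    have h2 := hmem _ (hzt t) _ (hzt s)
    have e1 : β (f.q (zt s * zt t)) = s * t := by
      rw [map_mul, hBQ.mul _ (lfx3 _ (hzt s)).1 _ (lfx3 _ (hzt t)).1, hbt, hbt]
    have e2 : β (f.q (zt t * zt s)) = t * s := by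
      rw [map_mul, hBQ.mul _ (lfx3 _ (hzt t)).1 _ (lfx3 _ (hzt s)).1, hbt, hbt]
    rw [← e1, ← e2, hσ _ h2 _ (hrt _ h2),
      hσ _ h1 (rt' _ h2 + (ℓ : R) * r) (by
        rw [map_add, map_mul (algebraMap R K), map_natCast, hr, hrt]
        ring), map_add, hℓ0, add_zero]
  -- the element
  have hnd : ∀ d : BT, (∀ t, lamT (t * d) = 0) → d = 0 := by
    intro d hd
    rw [← hRF.e1 d]
    refine Finset.sum_eq_zero fun k _ => Finset.sum_eq_zero fun g _ => ?_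
    rw [hd, zero_smul]
  obtain ⟨w, hw⟩ : ∃ w : BT, ∀ t, lamT (t * w) = σ t := by
    refine ⟨∑ k, ∑ g, σ (xT k * αT g) • (αT g⁻¹ * yT k), fun t => ?_⟩
    rw [Finset.mul_sum, map_sum]
    conv_rhs => rw [← hRF.e1 t, map_sum]
    refine Finset.sum_congr rfl fun k _ => ?_
    rw [Finset.mul_sum, map_sum, map_sum]
    refine Finset.sum_congr rfl fun g _ => ?_
    rw [mul_smul_comm, map_smul, map_smul, smul_eq_mul, smul_eq_mul, hRF.sym t, mul_comm]
  refine ⟨w, ?_, ?_⟩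
  · intro s
    rw [← sub_eq_zero]
    apply hnd
    intro t
    rw [mul_sub, map_sub, ← mul_assoc, hRF.sym (t * w) s, ← mul_assoc, hw, ← mul_assoc, hw, htr,
      sub_self]
  · intro z hz ρ hρ
    rw [hw]
    exact hσ z hz ρ hρ

end Pool.Agent.PST.H95
end
end -- Pool.Agent.Helper95_PST.OBW
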