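import Pool.Agent.Helper12_AWB.B020
import Pool.Agent.Helper12_AWB.B021
import Pool.Agent.Helper12_AWB.B024

/-!
# Merged copies (generated) of the modules

* `Pool.Agent.Helper10_PSS.RFD`
* `Pool.Agent.Helper21_PSS.DRF`
* `Pool.Agent.Helper13_PST.YQT`
* `Pool.Agent.Helper20_PSS.NFD`
* `Pool.Agent.Helper21_PSS.LMB`
* `Pool.Agent.Helper29_PSS.QOR`
* `Pool.Agent.Helper40_PSS.DFR`
* `Pool.Agent.Helper41_PSS.RFO`
* `Pool.Agent.Helper56_PSS.RFU`
* `Pool.Agent.Helper62_PSS.BBK`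
* `Pool.Agent.Helper64_PSS.MCK`
* `Pool.Agent.Helper65_PSS.BPU`
* `Pool.Agent.Helper79_PSS.NFP`
* `Pool.Agent.Helper84_PSS.BCL`
* `Pool.Agent.Helper18_PSS.AllS0`
* `Pool.Agent.Helper84_PST.ZIJ`
* `Pool.Agent.Helper70_PST.VTX`
* `Pool.Agent.Helper84_PST.KYA`
-/

set_option autoImplicit false

section -- Pool.Agent.Helper10_PSS.RFD

/-!
# Squad PSS, row RFD: the dual family of a frame
-/

namespace Pool.Agent.PSS.S0.H10

open Pool.Agent.PSS Pool.Agent.PSS.S0
open Pool.Agent.PFD.D2b (FrR)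

theorem rf_nd {R V A K : Type} [CommRing R] [CommGroup V] [Fintype V] [Ring A] [Algebra R A]
    [Fintype K] {α : V →* A} {lam : A →ₗ[R] R} {x y : K → A} (h : RF R α lam x y) {z : A}
    (hz : ∀ a, lam (z * a) = 0) : z = 0 := by
  rw [← h.e1 z]
  refine Finset.sum_eq_zero fun k _ => Finset.sum_eq_zero fun v _ => ?_
  rw [h.sym, hz, zero_smul]

theorem rfd : RfdStmt := by
  intro R V A K Ω _ _ _ _ _ _ _ _ α lam x y b c hF hc hfree
  obtain ⟨c1, c2, c3⟩ := hc
  have hd : ∀ ω a, lam ((∑ k, ∑ v, c ω (x k * α v) • (α v⁻¹ * y k)) * a) = c ω a := by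
    intro ω a
    conv_rhs => rw [← hF.e1 a]
    rw [Finset.sum_mul, map_sum, map_sum]
    refine Finset.sum_congr rfl fun k _ => ?_
    rw [Finset.sum_mul, map_sum, map_sum]
    refine Finset.sum_congr rfl fun v _ => ?_
    rw [smul_mul_assoc, map_smul, map_smul, smul_eq_mul, smul_eq_mul, mul_comm]
  refine ⟨fun ω => ∑ k, ∑ v, c ω (x k * α v) • (α v⁻¹ * y k), fun ω a => (hd ω a).symm, ?_⟩
  refine ⟨hF.sym, ?_, ?_, ?_, hfree⟩
  · intro g ω
    rw [c1]
    show α g.1 * (b ω * α g.2⁻¹) = _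
    rw [← mul_assoc]
    rfl
  · intro g ω
    rw [← sub_eq_zero]
    apply rf_nd hF
    intro a
    rw [sub_mul, map_sub, sub_eq_zero, hd]
    have h1 : bw R α g (α g.1⁻¹ * a * α g.2) = a := by
      show α g.1 * (α g.1⁻¹ * a * α g.2 * α g.2⁻¹) = a
      rw [mul_assoc, ← map_mul, mul_inv_cancel, map_one, mul_one, ← mul_assoc, ← map_mul,
        mul_inv_cancel, map_one, one_mul]
    have h2 := c2 g ω (α g.1⁻¹ * a * α g.2)
    rw [h1] at h2
    rw [h2, ← hd]
    show _ = lam (α g.2 * _ * α g.1⁻¹ * a)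
    rw [mul_assoc (α g.2 * _), mul_assoc (α g.2), hF.sym (α g.2)]
    simp only [mul_assoc]
  · intro a
    conv_rhs => rw [← c3 a]
    exact Finset.sum_congr rfl fun ω _ => by rw [hd]

end Pool.Agent.PSS.S0.H10
end -- Pool.Agent.Helper10_PSS.RFD

section -- Pool.Agent.Helper21_PSS.DRF

/-!
# Row pss:DRF, the relative Frobenius system of a dual frame
-/

open scoped BigOperators TensorProduct

noncomputable section

namespace Pool.Agent.PSS.H21.DRF

open Pool.Agent.PFC (tw IsTv)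
open Pool.Agent.PFD.D2b (FrR)

/-- the points of `Ω` -/
def pt {V Ω : Type} [CommGroup V] [MulAction (V × V) Ω] (p : Qt (V := V) Ω × V) : Ω :=
  ((1, p.2⁻¹) : V × V) • p.1.rep

theorem qmk_pt {V Ω : Type} [CommGroup V] [MulAction (V × V) Ω] (p : Qt (V := V) Ω × V) :
    qmk (pt p) = p.1 := by
  refine Eq.trans ?_ p.1.mk_rep
  exact (qmk_eq.2 ⟨p.2⁻¹, rfl⟩).symm

theorem pt_bij {V Ω : Type} [CommGroup V] [MulAction (V × V) Ω]
    (hf : ∀ (v : V) (ω : Ω), ((1, v) : V × V) • ω = ω → v = 1) :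
    Function.Bijective (pt : Qt (V := V) Ω × V → Ω) := by
  constructor
  · rintro ⟨k, v⟩ ⟨k', v'⟩ h
    have h1 : k = k' := by
      have := congrArg (qmk (V := V)) h
      rwa [qmk_pt, qmk_pt] at this
    subst h1
    have h2 : ((1, v⁻¹) : V × V) • k.rep = ((1, v'⁻¹) : V × V) • k.rep := h
    have h3 : ((1, v' * v⁻¹) : V × V) • k.rep = k.rep := by
      have e : ((1, v' * v⁻¹) : V × V) = (1, v') * (1, v⁻¹) := by
        rw [Prod.mk_mul_mk, one_mul]
      rw [e, ← smul_smul, h2, smul_smul, Prod.mk_mul_mk, one_mul, mul_inv_cancel]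
      exact one_smul (V × V) _
    have h4 := hf _ _ h3
    rw [mul_inv_eq_one] at h4
    rw [h4]
  · intro ω
    obtain ⟨v, hv⟩ := qmk_eq.1 (Qt.mk_rep (qmk ω : Qt (V := V) Ω))
    refine ⟨(qmk ω, v⁻¹), ?_⟩
    show ((1, (v⁻¹)⁻¹) : V × V) • (qmk ω : Qt (V := V) Ω).rep = ω
    rw [inv_inv]
    exact hv

theorem drf : DrfStmt := by
  intro R V A Ω _ _ _ _ _ _ _ α lam b d h
  have hb : ∀ (k : Qt (V := V) Ω) (v : V), b (pt (k, v)) = b k.rep * α v := by
    intro k v
    show b (((1, v⁻¹) : V × V) • k.rep) = _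
    rw [h.eb, map_one, one_mul, inv_inv]
  have hd : ∀ (k : Qt (V := V) Ω) (v : V), d (pt (k, v)) = α v⁻¹ * d k.rep := by
    intro k v
    show d (((1, v⁻¹) : V × V) • k.rep) = _
    rw [h.ed, inv_one, map_one, mul_one]
  have hsum : ∀ g : Ω → A, ∑ k : Qt (V := V) Ω, ∑ v : V, g (pt (k, v)) = ∑ ω, g ω := by
    intro g
    rw [← Fintype.sum_prod_type' (f := fun (k : Qt (V := V) Ω) (v : V) => g (pt (k, v)))]
    exact Equiv.sum_comp (Equiv.ofBijective _ (pt_bij h.fr)) g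
  refine ⟨h.sym, fun a => ?_, fun a => ?_⟩
  · have h1 := hsum (fun ω => lam (d ω * a) • b ω)
    simp only [hb, hd] at h1
    rw [h1]
    exact h.sum a
  · have h1 := hsum (fun ω => lam (a * b ω) • d ω)
    simp only [hb, hd] at h1
    rw [h1]
    have hz : ∀ z : A, (∀ a', lam (z * a') = 0) → z = 0 := by
      intro z hz
      rw [← h.sum z]
      refine Finset.sum_eq_zero fun ω _ => ?_
      rw [h.sym, hz, zero_smul]
    refine sub_eq_zero.1 (hz _ fun a' => ?_)
    rw [sub_mul, map_sub, Finset.sum_mul, map_sum]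
    have h2 : lam (a * a') = ∑ ω, lam (a * b ω) * lam (d ω * a') := by
      conv_lhs => rw [← h.sum a']
      rw [Finset.mul_sum, map_sum]
      refine Finset.sum_congr rfl fun ω _ => ?_
      rw [mul_smul_comm, map_smul, smul_eq_mul, mul_comm]
    rw [h2, ← Finset.sum_sub_distrib]
    refine Finset.sum_eq_zero fun ω _ => ?_
    rw [smul_mul_assoc, map_smul, smul_eq_mul, sub_self]

end Pool.Agent.PSS.H21.DRF
end
end -- Pool.Agent.Helper21_PSS.DRF

section -- Pool.Agent.Helper13_PST.YQT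

/-!
# Row YQT of squad PST: the element `Y` as a sum over the orbits of `1 × V`
-/

set_option autoImplicit false

open scoped BigOperators

noncomputable section

namespace Pool.Agent.PST.H13

open Pool.Agent.PFD.D2b (FrR)
open Pool.Agent.PSS
open Pool.Agent.PSS.S2 (PrD Nh Cn CV)
open Pool.Agent.PSS.H21.DRF (pt pt_bij)

theorem yqt : YqtStmt := by
  intro F V A K Ω _ _ _ _ _ _ _ _ α lam x y b d c κ X hRF hFr hD hc hκ hX
  have hsum : ∀ g : Ω → A, ∑ k : Qt (V := V) Ω, ∑ v : V, g (pt (k, v)) = ∑ ω, g ω := by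
    intro g
    rw [← Fintype.sum_prod_type' (f := fun (k : Qt (V := V) Ω) (v : V) => g (pt (k, v)))]
    exact Equiv.sum_comp (Equiv.ofBijective _ (pt_bij hD.fr)) g
  have hb : ∀ (k : Qt (V := V) Ω) (v : V), b (pt (k, v)) = b k.rep * α v := by
    intro k v
    show b (((1, v⁻¹) : V × V) • k.rep) = _
    rw [hD.eb, map_one, one_mul, inv_inv]
  have hd : ∀ (k : Qt (V := V) Ω) (v : V), d (pt (k, v)) = α v⁻¹ * d k.rep := by
    intro k v
    show d (((1, v⁻¹) : V × V) • k.rep) = _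
    rw [hD.ed, inv_one, map_one, mul_one]
  have hk : ∀ (k : Qt (V := V) Ω) (v : V), κ (pt (k, v)) = κ k.rep := fun k v => hκ _ _
  have hL : ∑ k, Nh κ b c (x k) * (X * y k) =
      ∑ ω, κ ω • (b ω * X * ∑ k, c ω (x k) • y k) := by
    have h1 : ∀ k, Nh κ b c (x k) * (X * y k) =
        ∑ ω, κ ω • (b ω * X * (c ω (x k) • y k)) := by
      intro k
      unfold Nh
      rw [LinearMap.sum_apply, Finset.sum_mul]
      refine Finset.sum_congr rfl fun ω _ => ?_
      rw [LinearMap.smulRight_apply, mul_smul_comm, smul_smul, smul_mul_assoc, ← mul_assoc,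
        smul_smul, mul_comm (κ ω)]
    simp only [h1]
    rw [Finset.sum_comm]
    refine Finset.sum_congr rfl fun ω _ => ?_
    rw [Finset.mul_sum, Finset.smul_sum]
  rw [hL, ← hsum]
  refine Finset.sum_congr rfl fun k _ => ?_
  have hdk : d k.rep = ∑ v : V, α v * ∑ j, c (pt (k, v)) (x j) • y j := by
    rw [← hRF.e2 (d k.rep), Finset.sum_comm]
    symm
    refine Fintype.sum_equiv (Equiv.inv V) _ _ fun v => ?_
    rw [Equiv.inv_apply, Finset.mul_sum]
    refine Finset.sum_congr rfl fun j _ => ?_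
    rw [inv_inv, mul_smul_comm, hc, hd]
    have h3 : lam (d k.rep * (x j * α v⁻¹)) = lam (α v⁻¹ * d k.rep * x j) := by
      rw [← mul_assoc, hRF.sym, mul_assoc]
    rw [h3]
  rw [hdk, Finset.mul_sum, Finset.smul_sum]
  refine Finset.sum_congr rfl fun v _ => ?_
  rw [hb, hk, mul_assoc (b k.rep) (α v) X, hX v]
  simp only [mul_assoc]

end Pool.Agent.PST.H13
end
end -- Pool.Agent.Helper13_PST.YQT

section -- Pool.Agent.Helper20_PSS.NFD

/-!
# Squad PSS, block S4, row NFD: the dual frame of `N_W(A)`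
-/

open scoped BigOperators TensorProduct

noncomputable section

namespace Pool.Agent.PSS.H20

open Pool.Agent.PFC (IsTv card_tv)
open Pool.Agent.PFD.D2b (FrR)

theorem pg_prod {ℓ : ℕ} {V : Type} [Group V] (hV : IsPGroup ℓ V) : IsPGroup ℓ (V × V) := by
  rintro ⟨u, v⟩
  obtain ⟨k, hk⟩ := hV u
  obtain ⟨j, hj⟩ := hV v
  refine ⟨k + j, Prod.ext ?_ ?_⟩
  · show u ^ ℓ ^ (k + j) = 1
    rw [pow_add, pow_mul, hk, one_pow]
  · show v ^ ℓ ^ (k + j) = 1
    rw [add_comm, pow_add, pow_mul, hj, one_pow]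

section gen

variable {R V A B Ω : Type} [CommRing R] [CommGroup V] [Fintype V] [Ring A] [Algebra R A]
  [Ring B] [Algebra R B] [Fintype Ω] [MulAction (V × V) Ω] {α : V →* A} {lam : A →ₗ[R] R}
  {b d : Ω → A} {W : Subgroup V}

omit [Fintype V] in
theorem fd_b (h : DFr R α lam b d) (ε : MulAut W) (ω : Fp Ω (twW W ε)) :
    b ω.1 ∈ FxR (bw R α) (twW W ε) := by
  rw [mem_tw]
  intro w
  have h1 : (((ε w : V), (w : V)) : V × V) • ω.1 = ω.1 := ω.2 ⟨w, rfl⟩
  have h2 := h.eb (ε w : V) (w : V) ω.1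
  rw [h1] at h2
  have h3 : b ω.1 * α (w : V) = α (ε w : V) * b ω.1 * α (w : V)⁻¹ * α (w : V) := by
    rw [← h2]
  rw [h3, mul_assoc (α (ε w : V) * b ω.1), ← map_mul, inv_mul_cancel, map_one, mul_one]

omit [Fintype V] in
theorem fd_d (h : DFr R α lam b d) (ε : MulAut W) (ω : Fp Ω (twW W ε)) :
    d ω.1 ∈ FxR (bw R α) (twW W ε⁻¹) := by
  rw [mem_tw]
  intro w
  obtain ⟨w', hw'⟩ : ∃ w', w' = ε⁻¹ w := ⟨_, rfl⟩
  have h0 : ε w' = w := by
    rw [hw']
    exact MulAut.apply_inv_self W ε w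
  have h1 : (((ε w' : V), (w' : V)) : V × V) • ω.1 = ω.1 := ω.2 ⟨w', rfl⟩
  have h2 := h.ed (ε w' : V) (w' : V) ω.1
  rw [h1, h0] at h2
  rw [← hw']
  have h3 : d ω.1 * α (w : V) = α (w' : V) * d ω.1 * α (w : V)⁻¹ * α (w : V) := by
    rw [← h2]
  rw [h3, mul_assoc (α (w' : V) * d ω.1), ← map_mul, inv_mul_cancel, map_one, mul_one]

omit [Fintype V] in
/-- the functionals of a dual frame -/
theorem dfr_frame (h : DFr R α lam b d) :
    FrR (bw R α) b (fun ω => lam ∘ₗ LinearMap.mulLeft R (d ω)) := by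
  refine ⟨?_, ?_, ?_⟩
  · rintro ⟨u, v⟩ ω
    rw [h.eb, mul_assoc]
    rfl
  · rintro ⟨u, v⟩ ω m
    show lam (d ((u, v) • ω) * (α u * (m * α v⁻¹))) = lam (d ω * m)
    rw [h.ed]
    have h1 : α v * d ω * α u⁻¹ * (α u * (m * α v⁻¹)) = α v * (d ω * m * α v⁻¹) := by
      have h2 : α u⁻¹ * (α u * (m * α v⁻¹)) = m * α v⁻¹ := by
        rw [← mul_assoc, ← map_mul, inv_mul_cancel, map_one, one_mul]
      rw [mul_assoc, h2, mul_assoc, mul_assoc]
    rw [h1, h.sym, mul_assoc, ← map_mul, inv_mul_cancel, map_one, mul_one]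
  · intro m
    exact h.sum m

/-- a symmetric form kills the Brauer kernel in degree `1` -/
theorem lam_BK {ℓ : ℕ} [Fact ℓ.Prime] (hl : (ℓ : R) = 0) (hV : IsPGroup ℓ V)
    (hs : ∀ a a', lam (a * a') = lam (a' * a)) {m : A}
    (hm : m ∈ BKR (bw R α) (twW W (1 : MulAut W))) : lam m = 0 := by
  classical
  unfold BKR at hm
  induction hm using Submodule.span_induction with
  | mem n hn =>
    obtain ⟨P', S, x, hlt, hS, hx, rfl⟩ := hn
    have h1 : ∀ y ∈ S, lam (bw R α y x) = lam x := by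
      intro y hy
      obtain ⟨w, rfl⟩ := hS.1 y hy
      show lam (α (w : V) * (x * α (w : V)⁻¹)) = lam x
      rw [hs, mul_assoc, ← map_mul, inv_mul_cancel, map_one, mul_one]
    rw [map_sum, Finset.sum_congr rfl h1, Finset.sum_const]
    have hP : IsPGroup ℓ (twW W (1 : MulAut W)) := (pg_prod hV).to_subgroup _
    have hdvd : ℓ ∣ S.card := by
      have hc := card_tv P' (twW W (1 : MulAut W)) hlt.le S hS
      obtain ⟨k, hk⟩ := (IsPGroup.iff_card).1 hP
      have hdiv : S.card ∣ ℓ ^ k := ⟨_, by rw [← hk]; exact hc.symm⟩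
      obtain ⟨j, -, hj⟩ := (Nat.dvd_prime_pow (Fact.out : ℓ.Prime)).1 hdiv
      rcases Nat.eq_zero_or_pos j with h0 | h0
      · exfalso
        rw [h0, pow_zero] at hj
        rw [hj, one_mul] at hc
        exact hlt.ne (Subgroup.eq_of_le_of_card_ge hlt.le hc.ge)
      · rw [hj]
        exact dvd_pow_self ℓ h0.ne'
    obtain ⟨e, he⟩ := hdvd
    rw [he, mul_smul, nsmul_eq_mul, hl, zero_mul]
  | zero => exact map_zero _
  | add a b _ _ ha hb => rw [map_add, ha, hb, add_zero]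
  | smul r a _ ha => rw [map_smul, ha, smul_zero]

theorem nw_ind (N : IsNW R α W B) (p : B → Prop) (h0 : p 0)
    (hadd : ∀ x y, p x → p y → p (x + y))
    (hb : ∀ ε, ∀ a ∈ FxR (bw R α) (twW W ε), p (N.β ε a)) : ∀ x, p x := by
  classical
  have : Finite (MulAut W) := Finite.of_injective (fun f => (f : W → W)) DFunLike.coe_injective
  have : Fintype (MulAut W) := Fintype.ofFinite _
  intro x
  obtain ⟨f, hf, rfl⟩ := N.spn x
  rw [finsum_eq_sum_of_fintype]
  exact Finset.sum_induction _ p hadd h0 (fun ε _ => hb ε _ (hf ε))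

/-- the form on `N_W(A)` -/
theorem nw_form {ℓ : ℕ} [Fact ℓ.Prime] (hl : (ℓ : R) = 0) (hV : IsPGroup ℓ V)
    (hs : ∀ a a', lam (a * a') = lam (a' * a)) (N : IsNW R α W B) :
    ∃ lam' : B →ₗ[R] R, (∀ a ∈ FxR (bw R α) (twW W (1 : MulAut W)), lam' (N.β 1 a) = lam a) ∧
      ∀ ε : MulAut W, ε ≠ 1 → ∀ a ∈ FxR (bw R α) (twW W ε), lam' (N.β ε a) = 0 := by
  classical
  obtain ⟨g, hp, hk, hv⟩ := N.exists_hom
  have hs' : ∀ x, g (Function.surjInv hp x) = x := Function.surjInv_eq hp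
  obtain ⟨L, hL⟩ : ∃ L : gsub R α W →ₗ[R] R, ∀ f, L f = lam (f.1.coeff 1) := by
    refine ⟨{ toFun := fun f => lam (f.1.coeff 1)
              map_add' := ?_
              map_smul' := ?_ }, fun f => rfl⟩
    · intro f f'
      rw [← map_add]
      rfl
    · intro r f
      rw [RingHom.id_apply, ← map_smul]
      rfl
  have heq : ∀ f f', g f = g f' → L f = L f' := by
    intro f f' h
    have h1 : g (f - f') = 0 := by rw [map_sub, h, sub_self]
    have h2 : L (f - f') = 0 := by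
      rw [hL]
      exact lam_BK hl hV hs ((hk _).1 h1 1)
    rw [map_sub] at h2
    exact sub_eq_zero.1 h2
  obtain ⟨lam', hlam'⟩ : ∃ lam' : B →ₗ[R] R, ∀ f, lam' (g f) = L f := by
    refine ⟨{ toFun := fun x => L (Function.surjInv hp x)
              map_add' := ?_
              map_smul' := ?_ }, fun f => heq _ _ (hs' _)⟩
    · intro x y
      rw [← map_add L]
      exact heq _ _ (by rw [hs', map_add, hs', hs'])
    · intro r x
      rw [RingHom.id_apply, ← map_smul L]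
      exact heq _ _ (by rw [hs', map_smul, hs'])
  refine ⟨lam', ?_, ?_⟩
  · intro a ha
    rw [← hv 1 ⟨a, ha⟩, hlam', hL]
    show lam ((MonoidAlgebra.single 1 (a : A)).coeff 1) = lam a
    rw [MonoidAlgebra.coeff_single, Finsupp.single_eq_same]
  · intro ε hε a ha
    rw [← hv ε ⟨a, ha⟩, hlam', hL]
    show lam ((MonoidAlgebra.single ε (a : A)).coeff 1) = 0
    rw [MonoidAlgebra.coeff_single, Finsupp.single_apply, if_neg hε, map_zero]

end gen

theorem nfd (hF : FrbStmt) : NfdStmt := by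
  classical
  intro ℓ _ R V A B Ω _ _ _ _ _ _ _ _ _ α lam b d W N _ hl hV h
  obtain ⟨lam', hl1, hl0⟩ := nw_form hl hV h.sym N
  have hVV : IsPGroup ℓ (V × V) := pg_prod hV
  refine ⟨lam', hl1, ?_⟩
  have hm1 : ∀ (u : V) (ε : MulAut W), ∀ a ∈ FxR (bw R α) (twW W ε), ∀ v : V,
      N.β ε (α u * a * α v) = N.nwh u * N.β ε a * N.nwh v := by
    intro u ε a ha v
    have h1 := N.mul 1 ε (α u) (al_mem_tw u W) a ha
    have h2 := N.mul (1 * ε) 1 (α u * a) (Fx_mul α W 1 ε (al_mem_tw u W) ha) (α v)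
      (al_mem_tw v W)
    rw [mul_one, one_mul] at h2
    rw [one_mul] at h1
    rw [h2, h1]
    rfl
  refine ⟨?_, ?_, ?_, ?_, ?_, ?_⟩
  · -- sym
    intro x y
    refine nw_ind N (fun x => lam' (x * y) = lam' (y * x)) ?_ ?_ ?_ x
    · show lam' (0 * y) = lam' (y * 0)
      rw [zero_mul, mul_zero]
    · intro x x' hx hx'
      show lam' ((x + x') * y) = lam' (y * (x + x'))
      rw [add_mul, mul_add, map_add, map_add, hx, hx']
    · intro ε a ha
      refine nw_ind N (fun y => lam' (N.β ε a * y) = lam' (y * N.β ε a)) ?_ ?_ ?_ y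
      · show lam' (N.β ε a * 0) = lam' (0 * N.β ε a)
        rw [zero_mul, mul_zero]
      · intro y y' hy hy'
        show lam' (N.β ε a * (y + y')) = lam' ((y + y') * N.β ε a)
        rw [add_mul, mul_add, map_add, map_add, hy, hy']
      · intro δ a' ha'
        show lam' (N.β ε a * N.β δ a') = lam' (N.β δ a' * N.β ε a)
        rw [← N.mul ε δ a ha a' ha', ← N.mul δ ε a' ha' a ha]
        by_cases h1 : ε * δ = 1
        · have h2 : δ * ε = 1 := by
            rw [mul_eq_one_iff_eq_inv.1 h1, mul_inv_cancel]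
          have h3 := Fx_mul α W ε δ ha ha'
          have h4 := Fx_mul α W δ ε ha' ha
          rw [h1] at h3
          rw [h2] at h4
          rw [h1, h2, hl1 _ h3, hl1 _ h4, h.sym]
        · have h2 : δ * ε ≠ 1 := by
            intro h3
            apply h1
            rw [mul_eq_one_iff_eq_inv.1 h3, mul_inv_cancel]
          rw [hl0 _ h1 _ (Fx_mul α W ε δ ha ha'), hl0 _ h2 _ (Fx_mul α W δ ε ha' ha)]
  · -- eb
    rintro u v ⟨ε, ω⟩
    show N.β ε (b ((u, v) • ω.1)) = N.nwh u * N.β ε (b ω.1) * N.nwh v⁻¹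
    rw [h.eb, hm1 u ε _ (fd_b h ε ω)]
  · -- ed
    rintro u v ⟨ε, ω⟩
    show N.β ε⁻¹ (d ((u, v) • ω.1)) = N.nwh v * N.β ε⁻¹ (d ω.1) * N.nwh u⁻¹
    rw [h.ed, hm1 v ε⁻¹ _ (fd_d h ε ω)]
  · -- sum
    intro x
    refine nw_ind N (fun x => ∑ t : Σ ε : MulAut W, Fp Ω (twW W ε),
      lam' (N.β t.1⁻¹ (d t.2.1) * x) • N.β t.1 (b t.2.1) = x) ?_ ?_ ?_ x
    · refine Finset.sum_eq_zero fun t _ => ?_
      rw [mul_zero, map_zero, zero_smul]
    · intro x y hx hy
      show ∑ t : Σ ε : MulAut W, Fp Ω (twW W ε),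
        lam' (N.β t.1⁻¹ (d t.2.1) * (x + y)) • N.β t.1 (b t.2.1) = x + y
      conv_rhs => rw [← hx, ← hy]
      rw [← Finset.sum_add_distrib]
      refine Finset.sum_congr rfl fun t _ => ?_
      rw [mul_add, map_add, add_smul]
    · intro δ a ha
      show ∑ t : Σ ε : MulAut W, Fp Ω (twW W ε),
        lam' (N.β t.1⁻¹ (d t.2.1) * N.β δ a) • N.β t.1 (b t.2.1) = N.β δ a
      have h1 : ∑ ω : Fp Ω (twW W δ), lam (d ω.1 * a) • N.β δ (b ω.1) =
          ∑ t : Σ ε : MulAut W, Fp Ω (twW W ε),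
            lam' (N.β t.1⁻¹ (d t.2.1) * N.β δ a) • N.β t.1 (b t.2.1) := by
        refine Fintype.sum_of_injective (fun ω : Fp Ω (twW W δ) =>
          (⟨δ, ω⟩ : Σ ε : MulAut W, Fp Ω (twW W ε))) ?_ _ _ ?_ ?_
        · intro ω ω' hω
          exact eq_of_heq (Sigma.mk.inj hω).2
        · rintro ⟨ε, ω⟩ ht
          have hε : ε ≠ δ := by
            rintro rfl
            exact ht ⟨ω, rfl⟩
          have hne : ε⁻¹ * δ ≠ 1 := by
            intro h2
            apply hε
            exact inv_mul_eq_one.1 h2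
          show lam' (N.β ε⁻¹ (d ω.1) * N.β δ a) • N.β ε (b ω.1) = 0
          rw [← N.mul ε⁻¹ δ _ (fd_d h ε ω) a ha,
            hl0 _ hne _ (Fx_mul α W ε⁻¹ δ (fd_d h ε ω) ha), zero_smul]
        · intro ω
          show lam (d ω.1 * a) • N.β δ (b ω.1) =
            lam' (N.β δ⁻¹ (d ω.1) * N.β δ a) • N.β δ (b ω.1)
          have h3 := Fx_mul α W δ⁻¹ δ (fd_d h δ ω) ha
          rw [← N.mul δ⁻¹ δ _ (fd_d h δ ω) a ha, inv_mul_cancel, hl1]
          rw [inv_mul_cancel] at h3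
          exact h3
      rw [← h1]
      have h2 := (hF ℓ R (V × V) A Ω (bw R α) b _ (twW W δ) hl (hVV.to_subgroup _)
        inferInstance (dfr_frame h)).2 a ha
      have h3 : a - ∑ ω : Fp Ω (twW W δ), lam (d ω.1 * a) • b ω.1 ∈
          BKR (bw R α) (twW W δ) := h2
      have h4 : N.β δ (a - ∑ ω : Fp Ω (twW W δ), lam (d ω.1 * a) • b ω.1) = 0 := by
        refine (N.ker δ _ (Submodule.sub_mem _ ha (Submodule.sum_mem _ fun ω _ =>
          Submodule.smul_mem _ _ (fd_b h δ ω)))).2 h3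
      rw [map_sub, sub_eq_zero, map_sum] at h4
      rw [h4]
      refine Finset.sum_congr rfl fun ω _ => ?_
      rw [map_smul]
  · rintro u ⟨ε, ω⟩ ht
    have h1 : ((u, 1) : V × V) • ω = ω := eq_of_heq (Sigma.mk.inj ht).2
    exact h.fl u ω.1 (congrArg Subtype.val h1)
  · rintro v ⟨ε, ω⟩ ht
    have h1 : ((1, v) : V × V) • ω = ω := eq_of_heq (Sigma.mk.inj ht).2
    exact h.fr v ω.1 (congrArg Subtype.val h1)

end Pool.Agent.PSS.H20
end
end -- Pool.Agent.Helper20_PSS.NFD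

section -- Pool.Agent.Helper21_PSS.LMB

/-!
# Row pss:LMB, the form of the Brauer quotient
-/

open scoped BigOperators TensorProduct

noncomputable section

namespace Pool.Agent.PSS.H21.LMB

open Pool.Agent.PFC (tw IsTv card_tv)
open Pool.Agent.PSS.S0

theorem tv_zero (ℓ : ℕ) [Fact ℓ.Prime] {R V : Type} [CommRing R] (hR : (ℓ : R) = 0) [Group V]
    [Finite V] {K Q : Subgroup V} (hQ : IsPGroup ℓ Q) (hlt : K < Q) {S : Finset V}
    (hS : IsTv K Q S) : (S.card : R) = 0 := by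
  have hc := card_tv K Q hlt.le S hS
  obtain ⟨k, hk⟩ := (IsPGroup.iff_card).1 hQ
  have hdiv : S.card ∣ ℓ ^ k := ⟨_, by rw [← hk]; exact hc.symm⟩
  obtain ⟨j, -, hj⟩ := (Nat.dvd_prime_pow (Fact.out : ℓ.Prime)).1 hdiv
  rcases Nat.eq_zero_or_pos j with h0 | h0
  · exfalso
    rw [h0, pow_zero] at hj
    rw [hj, one_mul] at hc
    exact hlt.ne (Subgroup.eq_of_le_of_card_ge hlt.le hc.ge)
  · rw [hj, Nat.cast_pow, hR, zero_pow h0.ne']

theorem lam_cw {R V A : Type} [CommRing R] [CommGroup V] [Ring A] [Algebra R A] (α : V →* A)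
    (lam : A →ₗ[R] R) (hs : ∀ x y, lam (x * y) = lam (y * x)) (u : V) (m : A) :
    lam (cw R α u m) = lam m := by
  show lam (α u * (m * α u⁻¹)) = lam m
  rw [hs, mul_assoc, ← map_mul, inv_mul_cancel, map_one, mul_one]

theorem lmb : LmbStmt := by
  intro ℓ _ R V A B _ _ _ _ _ _ _ α Q αB β lam hR hV hs h
  have hker : ∀ n ∈ BKR (cw R α) Q, lam n = 0 := by
    intro n hn
    unfold BKR at hn
    induction hn using Submodule.span_induction with
    | mem n hn =>
        obtain ⟨P', S, m, hlt, hS, -, rfl⟩ := hn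
        rw [map_sum, Finset.sum_congr rfl fun x _ => lam_cw α lam hs x m, Finset.sum_const,
          nsmul_eq_mul, tv_zero ℓ hR (hV.to_subgroup Q) hlt hS, zero_mul]
    | zero => exact map_zero _
    | add a b _ _ ha hb => rw [map_add, ha, hb, add_zero]
    | smul c a _ ha => rw [map_smul, ha, smul_zero]
  have hβn : ∀ a ∈ FxR (cw R α) Q, β (-a) = - β a := by
    intro a ha
    have h1 := h.smul (-1) a ha
    rwa [neg_smul, one_smul, neg_smul, one_smul] at h1
  have key : ∀ a ∈ FxR (cw R α) Q, ∀ b ∈ FxR (cw R α) Q, β a = β b → lam a = lam b := by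
    intro a ha b hb hab
    have hnb : -b ∈ FxR (cw R α) Q := Submodule.neg_mem _ hb
    have h1 : β (a + -b) = 0 := by
      rw [h.add a ha _ hnb, hβn b hb, hab, add_neg_cancel]
    have h2 := hker _ ((h.ker _ (Submodule.add_mem _ ha hnb)).1 h1)
    rw [map_add, map_neg] at h2
    exact eq_of_sub_eq_zero (by rw [sub_eq_add_neg]; exact h2)
  choose r hr hrβ using h.surj
  refine ⟨{
    toFun := fun y => lam (r y)
    map_add' := fun y z => by
      rw [← map_add]
      refine key _ (hr _) _ (Submodule.add_mem _ (hr y) (hr z)) ?_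
      rw [hrβ, h.add _ (hr y) _ (hr z), hrβ, hrβ]
    map_smul' := fun c y => by
      rw [RingHom.id_apply, ← map_smul]
      refine key _ (hr _) _ (Submodule.smul_mem _ c (hr y)) ?_
      rw [hrβ, h.smul c _ (hr y), hrβ] }, fun a ha => ?_⟩
  exact key _ (hr _) _ ha (hrβ _)

end Pool.Agent.PSS.H21.LMB
end
end -- Pool.Agent.Helper21_PSS.LMB

section -- Pool.Agent.Helper29_PSS.QOR

/-!
# Squad PSS, row QOR: only the orbits of `1 × V` which are fixed by `Q` contribute to the relative trace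
-/

open scoped BigOperators TensorProduct

noncomputable section

namespace Pool.Agent.PSS.H29

open Pool.Agent.PSS

theorem qor (hO : OrbStmt) : QorStmt := by
  intro R V A Ω _ _ _ _ _ _ _ α lam b d hD Q z hz
  classical
  have hzc : ∀ v : V, α v * z = z * α v := fun v => mem_cw.1 hz v (Subgroup.mem_top v)
  let ι : Q →* V × V := (Q.subtype).prod 1
  let iQ : MulAction Q (Qt (V := V) Ω) := MulAction.compHom (Qt (V := V) Ω) ι
  let f : Qt (V := V) Ω → A := fun k => b k.rep * z * d k.rep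
  have hsm : ∀ (q : Q) (k : Qt (V := V) Ω), q • k = (((q : V), (1 : V)) : V × V) • k :=
    fun _ _ => rfl
  -- the value of `f` at the orbit of `ω`
  have hf : ∀ ω : Ω, f (qmk ω) = b ω * z * d ω := by
    intro ω
    obtain ⟨v, hv⟩ := qmk_eq.1 (Qt.mk_rep (qmk ω : Qt (V := V) Ω))
    change b (Qt.rep (qmk ω)) * z * d (Qt.rep (qmk ω)) = b ω * z * d ω
    generalize Qt.rep (qmk ω : Qt (V := V) Ω) = ω' at hv ⊢
    subst hv
    rw [hD.eb, hD.ed, inv_one, map_one, one_mul, mul_one]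
    have h1 : α v⁻¹ * z = z * α v⁻¹ := hzc v⁻¹
    calc b ω' * z * d ω' = b ω' * z * (α v⁻¹ * α v) * d ω' := by
          rw [← map_mul, inv_mul_cancel, map_one, mul_one]
      _ = b ω' * (z * α v⁻¹) * (α v * d ω') := by simp only [mul_assoc]
      _ = b ω' * α v⁻¹ * z * (α v * d ω') := by rw [← h1]; simp only [mul_assoc]
  have heq : ∀ (q : Q) (k : Qt (V := V) Ω), f (q • k) = ((cw R α).comp Q.subtype) q (f k) := by
    intro q k
    obtain ⟨ω, rfl⟩ : ∃ ω, qmk ω = k := ⟨k.rep, k.mk_rep⟩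
    rw [hsm, smul_qmk, hf, hf, hD.eb, hD.ed, inv_one, map_one, one_mul, mul_one]
    change _ = α (q : V) * (b ω * z * d ω * α (q : V)⁻¹)
    simp only [mul_assoc]
  have key := hO R Q (Qt (V := V) Ω) A ((cw R α).comp Q.subtype) f heq
  rw [← BKR_range (cw R α) Q.subtype_injective, Subgroup.range_subtype] at key
  have hiff : ∀ k : Qt (V := V) Ω, (⊤ : Subgroup Q) ≤ MulAction.stabilizer Q k ↔
      Q.prod (⊥ : Subgroup V) ≤ MulAction.stabilizer (V × V) k := by
    intro k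
    constructor
    · rintro h ⟨u, v⟩ ⟨hu, hv⟩
      have hv' : v = 1 := hv
      subst hv'
      exact h (Subgroup.mem_top (⟨u, hu⟩ : Q))
    · intro h q _
      exact h (show (((q : V), (1 : V)) : V × V) ∈ Q.prod (⊥ : Subgroup V) from ⟨q.2, rfl⟩)
  have hsum : ∑ k : Fp (Qt (V := V) Ω) (⊤ : Subgroup Q), f k.1 =
      ∑ k : Fp (Qt (V := V) Ω) (Q.prod (⊥ : Subgroup V)), f k.1 := by
    let e : Fp (Qt (V := V) Ω) (⊤ : Subgroup Q) ≃
        Fp (Qt (V := V) Ω) (Q.prod (⊥ : Subgroup V)) := Equiv.subtypeEquivRight hiff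
    exact Fintype.sum_equiv e _ _ fun k => rfl
  rw [hsum] at key
  exact key

end Pool.Agent.PSS.H29
end
end -- Pool.Agent.Helper29_PSS.QOR

section -- Pool.Agent.Helper40_PSS.DFR

/-! Row DFR of squad PSS: the dual frame (helper40). -/

open scoped BigOperators TensorProduct

noncomputable section

namespace Pool.Agent.PSS.H40

open Pool.Agent.PFC (tw IsTv)
open Pool.Agent.PFD.D2b (FrR)

variable {R V A K : Type} [CommRing R] [CommGroup V] [Fintype V] [Ring A] [Algebra R A] [Fintype K]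

theorem rf_nd {α : V →* A} {lam : A →ₗ[R] R} {x y : K → A} (h : RF R α lam x y) {a a' : A}
    (h0 : ∀ b, lam (a * b) = lam (a' * b)) : a = a' := by
  rw [← h.e2 a, ← h.e2 a']
  refine Finset.sum_congr rfl fun k _ => Finset.sum_congr rfl fun v _ => ?_
  rw [h0]

theorem mem_tw_of {W : Type} [CommGroup W] (f : W →* W) (S : Subgroup W) {u v : W}
    (h : (u, v) ∈ tw f S) : u = f v := by
  obtain ⟨s, _, hs⟩ := h
  have h1 : f s = u := congrArg Prod.fst hs
  have h2 : s = v := congrArg Prod.snd hs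
  rw [← h1, h2]

theorem dfr : DfrStmt := by
  intro R V E A K Ω _ _ _ _ _ _ _ _ _ φ α lam x y b c hRF hF hst
  obtain ⟨hb, hc, hs⟩ := hF
  have key : ∀ ω a, c ω a =
      lam ((∑ k, ∑ v, c ω (x k * α v) • (α v⁻¹ * y k)) * a) := by
    intro ω a
    conv_lhs => rw [← hRF.e1 a]
    rw [map_sum, Finset.sum_mul, map_sum]
    refine Finset.sum_congr rfl fun k _ => ?_
    rw [map_sum, Finset.sum_mul, map_sum]
    refine Finset.sum_congr rfl fun v _ => ?_
    rw [map_smul, smul_mul_assoc, map_smul, smul_eq_mul, smul_eq_mul, mul_comm]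
  refine ⟨fun ω => ∑ k, ∑ v, c ω (x k * α v) • (α v⁻¹ * y k), key, ?_⟩
  refine ⟨hRF.sym, ?_, ?_, ?_, ?_, ?_⟩
  · intro u v ω
    rw [hb]
    change α u * (b ω * α v⁻¹) = _
    rw [mul_assoc]
  · intro u v ω
    refine rf_nd hRF fun a => ?_
    rw [← key]
    have h1 : bw R α (u, v) (α u⁻¹ * a * α v) = a := by
      change α u * (α u⁻¹ * a * α v * α v⁻¹) = a
      rw [mul_assoc (α u⁻¹ * a), ← map_mul, mul_inv_cancel, map_one, mul_one, ← mul_assoc,
        ← map_mul, mul_inv_cancel, map_one, one_mul]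
    have h2 := hc (u, v) ω (α u⁻¹ * a * α v)
    rw [h1] at h2
    rw [h2, key, ← mul_assoc, ← mul_assoc, hRF.sym, ← mul_assoc, ← mul_assoc]
  · intro a
    calc ∑ ω, lam ((∑ k, ∑ v, c ω (x k * α v) • (α v⁻¹ * y k)) * a) • b ω
        = ∑ ω, c ω a • b ω := Finset.sum_congr rfl fun ω _ => by rw [← key]
      _ = a := hs a
  · intro u ω h
    obtain ⟨e, S, hS⟩ := hst ω
    have h1 : ((u, 1) : V × V) ∈ MulAction.stabilizer (V × V) ω := h
    rw [hS] at h1
    have h2 := mem_tw_of _ _ h1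
    rw [h2, map_one]
  · intro v ω h
    obtain ⟨e, S, hS⟩ := hst ω
    have h1 : ((1, v) : V × V) ∈ MulAction.stabilizer (V × V) ω := h
    rw [hS] at h1
    have h2 := mem_tw_of _ _ h1
    have h3 : (φ e) v = 1 := h2.symm
    exact (MulEquiv.map_eq_one_iff (φ e)).1 h3

end Pool.Agent.PSS.H40
end
end -- Pool.Agent.Helper40_PSS.DFR

section -- Pool.Agent.Helper41_PSS.RFO

/-!
# Squad PSS, row RFO
-/

set_option autoImplicit false

open scoped BigOperators

noncomputable section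

namespace Pool.Agent.PSS.S0.H41

open Pool.Agent.PFC (tw IsTv)
open Pool.Agent.PFD.D2b (FrR)

theorem rfo : RfoStmt := by
  intro R V A Ω _ _ _ _ _ _ _ θ α lam b d _ D
  classical
  -- the bijection
  let F : Quotient (ROrb V Ω) × V → Ω := fun p => ((1, θ⁻¹ p.2⁻¹) : V × V) • p.1.out
  have hF : ∀ κ v, F (κ, v) = ((1, θ⁻¹ v⁻¹) : V × V) • κ.out := fun _ _ => rfl
  have hmk : ∀ κ v, Quotient.mk (ROrb V Ω) (F (κ, v)) = κ := by
    intro κ v
    have h1 : Quotient.mk (ROrb V Ω) κ.out = Quotient.mk (ROrb V Ω) (F (κ, v)) :=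
      Quotient.sound ⟨θ⁻¹ v⁻¹, rfl⟩
    rw [← h1]
    exact Quotient.out_eq κ
  have hFb : Function.Bijective F := by
    constructor
    · rintro ⟨κ, v⟩ ⟨κ', w⟩ h
      have e : κ = κ' := by rw [← hmk κ v, ← hmk κ' w, h]
      subst e
      rw [hF, hF] at h
      have h2 : ((1, θ⁻¹ w * θ⁻¹ v⁻¹) : V × V) • κ.out = κ.out := by
        have h3 := congrArg (fun t => ((1, θ⁻¹ w) : V × V) • t) h
        simp only [smul_smul] at h3
        have e1 : ((1, θ⁻¹ w) : V × V) * (1, θ⁻¹ w⁻¹) = 1 := by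
          ext
          · simp
          · simp
        rw [e1, one_smul] at h3
        rw [← h3]
        congr 1
        simp
      have h4 := D.free _ _ h2
      rw [← map_mul] at h4
      have h5 : w * v⁻¹ = 1 := by
        have := congrArg θ h4
        rw [map_one, MulAut.apply_inv_self] at this
        exact this
      rw [mul_inv_eq_one] at h5
      rw [h5]
    · intro ω
      obtain ⟨u, hu⟩ : ∃ u : V, ((1, u) : V × V) • (Quotient.mk (ROrb V Ω) ω).out = ω :=
        Quotient.exact (s := ROrb V Ω) (Quotient.out_eq (Quotient.mk (ROrb V Ω) ω))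
      refine ⟨(Quotient.mk (ROrb V Ω) ω, (θ u)⁻¹), ?_⟩
      rw [hF, inv_inv, MulAut.inv_apply_self, hu]
  have hb : ∀ κ v, b (F (κ, v)) = b κ.out * α v := by
    intro κ v
    rw [hF, D.eb]
    simp only [map_one, one_mul]
    rw [MulAut.apply_inv_self, inv_inv]
  have hd : ∀ κ v, d (F (κ, v)) = α v⁻¹ * d κ.out := by
    intro κ v
    rw [hF, D.ed]
    simp only [inv_one, map_one, mul_one]
    rw [MulAut.apply_inv_self]
  have hfr2 : ∀ a, ∑ ω, lam (a * b ω) • d ω = a := by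
    intro a
    set z := ∑ ω, lam (a * b ω) • d ω - a with hz
    have h1 : ∀ a', lam (z * a') = 0 := by
      intro a'
      have h3 : lam (a * a') = ∑ ω, lam (a * b ω) * lam (d ω * a') := by
        have h4 := congrArg (fun t => lam (a * t)) (D.fr a')
        simp only [Finset.mul_sum, map_sum, mul_smul_comm, map_smul, smul_eq_mul] at h4
        rw [← h4]
        exact Finset.sum_congr rfl fun ω _ => mul_comm _ _
      rw [hz, sub_mul, map_sub, Finset.sum_mul, map_sum, h3, sub_eq_zero]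
      refine Finset.sum_congr rfl fun ω _ => ?_
      rw [smul_mul_assoc, map_smul, smul_eq_mul]
    have h2 := D.fr z
    rw [← sub_eq_zero, ← hz, ← h2]
    refine Finset.sum_eq_zero fun ω _ => ?_
    rw [D.sym, h1, zero_smul]
  refine ⟨fun κ => b κ.out, fun κ => d κ.out, ⟨D.sym, ?_, ?_⟩, ?_⟩
  · intro a
    have h1 := D.fr a
    rw [← (Equiv.ofBijective F hFb).sum_comp, Fintype.sum_prod_type] at h1
    refine Eq.trans ?_ h1
    refine Finset.sum_congr rfl fun κ _ => Finset.sum_congr rfl fun v _ => ?_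
    change _ = lam (d (F (κ, v)) * a) • b (F (κ, v))
    rw [hb, hd]
  · intro a
    have h1 := hfr2 a
    rw [← (Equiv.ofBijective F hFb).sum_comp, Fintype.sum_prod_type] at h1
    refine Eq.trans ?_ h1
    refine Finset.sum_congr rfl fun κ _ => Finset.sum_congr rfl fun v _ => ?_
    change _ = lam (a * b (F (κ, v))) • d (F (κ, v))
    rw [hb, hd]
  · intro a _ g hg
    refine Finset.sum_congr rfl fun κ _ => ?_
    rw [← hg, Quotient.out_eq]

end Pool.Agent.PSS.S0.H41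
end
end -- Pool.Agent.Helper41_PSS.RFO

section -- Pool.Agent.Helper56_PSS.RFU

/-!
# Squad PSS, rows RFU and FTZ
-/

set_option autoImplicit false

open scoped BigOperators

noncomputable section

namespace Pool.Agent.PSS.H56

open Polynomial

/-- RFU. -/
theorem rfu : RfuStmt := by
  intro R V A K K' _ _ _ _ _ _ _ α lam x y x' y' h h' z hz
  have hzc : ∀ v, α v * z = z * α v := by
    intro v
    have h1 : α v * (z * α v⁻¹) = z := hz v trivial
    calc α v * z = α v * (z * (α v⁻¹ * α v)) := by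
          rw [← map_mul, inv_mul_cancel, map_one, mul_one]
      _ = α v * (z * α v⁻¹) * α v := by simp only [mul_assoc]
      _ = z * α v := by rw [h1]
  have h2 : ∀ k', ∑ k, ∑ v, lam (α v⁻¹ * y' k' * x k) • (α v * y k) = y' k' := by
    intro k'
    conv_rhs => rw [← h.e2 (y' k')]
    refine Finset.sum_congr rfl fun k _ => ?_
    rw [← Equiv.sum_comp (Equiv.inv V)]
    refine Finset.sum_congr rfl fun v _ => ?_
    rw [Equiv.inv_apply, inv_inv, mul_assoc, h.sym, mul_assoc]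
  have h3 : ∀ k, x k * z * y k =
      ∑ k', x' k' * z * ∑ v, lam (α v⁻¹ * y' k' * x k) • (α v * y k) := by
    intro k
    conv_lhs => rw [← h'.e1 (x k)]
    rw [Finset.sum_mul, Finset.sum_mul]
    refine Finset.sum_congr rfl fun k' _ => ?_
    rw [Finset.sum_mul, Finset.sum_mul, Finset.mul_sum]
    refine Finset.sum_congr rfl fun v _ => ?_
    rw [smul_mul_assoc, smul_mul_assoc, mul_smul_comm]
    congr 1
    rw [mul_assoc (x' k') (α v) z, hzc]
    simp only [mul_assoc]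
  calc ∑ k, x k * z * y k
      = ∑ k, ∑ k', x' k' * z * ∑ v, lam (α v⁻¹ * y' k' * x k) • (α v * y k) :=
        Finset.sum_congr rfl fun k _ => h3 k
    _ = ∑ k', ∑ k, x' k' * z * ∑ v, lam (α v⁻¹ * y' k' * x k) • (α v * y k) :=
        Finset.sum_comm
    _ = ∑ k', x' k' * z * y' k' := by
        refine Finset.sum_congr rfl fun k' _ => ?_
        rw [← Finset.mul_sum, h2]

/-- FTZ. -/
theorem ftz : FtzStmt := by
  intro F A _ _ _ _ I hI hid z hz hzc
  have hcen : ∀ p : F[X], ∀ a, aeval z p * a = a * aeval z p := by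
    intro p a
    have h1 : Algebra.adjoin F {z} ≤ Subalgebra.center F A := by
      refine Algebra.adjoin_le ?_
      intro w hw
      rw [Set.mem_singleton_iff] at hw
      rw [hw]
      exact Subalgebra.mem_center_iff.2 fun b => (hzc b).symm
    exact (Subalgebra.mem_center_iff.1 (h1 (aeval_mem_adjoin_singleton F z)) a).symm
  have hm0 : minpoly F z ≠ 0 := minpoly.ne_zero (Algebra.IsIntegral.isIntegral z)
  obtain ⟨q, hq, hnd⟩ := exists_eq_pow_rootMultiplicity_mul_and_not_dvd (minpoly F z) hm0 0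
  rw [C_0, sub_zero] at hq hnd
  obtain ⟨n, hn⟩ : ∃ n, n = rootMultiplicity 0 (minpoly F z) := ⟨_, rfl⟩
  rw [← hn] at hq
  have hcop : IsCoprime (X ^ (n + 1)) q :=
    IsCoprime.pow_left ((irreducible_X.coprime_iff_not_dvd).2 hnd)
  obtain ⟨s, r, hsr⟩ := hcop
  have hmz : z ^ n * aeval z q = 0 := by
    have h1 := minpoly.aeval F z
    rw [hq, map_mul, map_pow, aeval_X] at h1
    exact h1
  have h1 : aeval z s * z ^ (n + 1) + aeval z r * aeval z q = 1 := by
    have h2 := congrArg (aeval z) hsr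
    rw [map_add, map_mul, map_mul, map_pow, aeval_X, map_one] at h2
    exact h2
  obtain ⟨e, he⟩ : ∃ e, e = aeval z s * z ^ (n + 1) := ⟨_, rfl⟩
  have hep : e = aeval z (s * X ^ (n + 1)) := by
    rw [he, map_mul, map_pow, aeval_X]
  have heI : e ∈ I := by
    have h2 := hI z hz (aeval z (s * X ^ n)) (hcen _)
    have h3 : aeval z (s * X ^ n) * z = e := by
      rw [he, map_mul, map_pow, aeval_X, mul_assoc, ← pow_succ]
    rwa [h3] at h2
  have h1e : 1 = e + aeval z r * aeval z q := by rw [he, h1]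
  have hqn : aeval z q * z ^ n = 0 := by
    rw [hcen, hmz]
  have heq : aeval z r * aeval z q * e = 0 := by
    have h2 : e = z ^ n * (aeval z s * z) := by
      have h3 : z ^ n = aeval z (X ^ n : F[X]) := by rw [map_pow, aeval_X]
      rw [he, h3, hcen, pow_succ, ← mul_assoc, map_pow, aeval_X, mul_assoc, mul_assoc,
        hcen s z]
    rw [h2, mul_assoc, ← mul_assoc (aeval z q), hqn, zero_mul, mul_zero]
  have hee : e * e = e := by
    have h2 : (e + aeval z r * aeval z q) * e = e := by rw [← h1e, one_mul]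
    rw [add_mul, heq, add_zero] at h2
    exact h2
  have he0 : e = 0 := hid e heI hee (by rw [hep]; exact hcen _)
  refine ⟨n, ?_⟩
  have h2 : z ^ n * (e + aeval z r * aeval z q) = z ^ n := by rw [← h1e, mul_one]
  rw [he0, zero_add, hcen, ← mul_assoc, hmz, zero_mul] at h2
  exact h2.symm

end Pool.Agent.PSS.H56
end
end -- Pool.Agent.Helper56_PSS.RFU

section -- Pool.Agent.Helper62_PSS.BBK

/-!
# Squad PSS, block S0, row BBK: Brauer kernels of the Brauer quotient
-/

set_option autoImplicit false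

open scoped BigOperators

noncomputable section

namespace Pool.Agent.PSS.S0.H62

open Pool.Agent.PFC (tw IsTv)
open Pool.Agent.PFD.D2b (FrR)
open Pool.Agent.PSS Pool.Agent.PSS.S0

section

variable {R V A B : Type} [CommRing R] [CommGroup V] [Ring A] [Algebra R A] [Ring B] [Algebra R B]

theorem bw_ap (α : V →* A) (u v : V) (m : A) : bw R α (u, v) m = α u * m * α v⁻¹ := by
  show α u * (m * α v⁻¹) = _
  rw [mul_assoc]

theorem cw_ap (α : V →* A) (u : V) (m : A) : cw R α u m = α u * m * α u⁻¹ := bw_ap α u u m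

theorem al_inv (α : V →* A) (v : V) : α v⁻¹ * α v = 1 := by
  rw [← map_mul, inv_mul_cancel, map_one]

theorem al_inv' (α : V →* A) (v : V) : α v * α v⁻¹ = 1 := by
  rw [← map_mul, mul_inv_cancel, map_one]

theorem cw_mul (α : V →* A) (u : V) (m n : A) :
    cw R α u (m * n) = cw R α u m * cw R α u n := by
  rw [cw_ap, cw_ap, cw_ap]
  calc α u * (m * n) * α u⁻¹ = α u * m * (1 * n) * α u⁻¹ := by
        rw [one_mul]
        noncomm_ring
    _ = α u * m * ((α u⁻¹ * α u) * n) * α u⁻¹ := by rw [al_inv]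
    _ = _ := by noncomm_ring

theorem fx_mul (α : V →* A) (Q : Subgroup V) {m n : A} (hm : m ∈ FxR (cw R α) Q)
    (hn : n ∈ FxR (cw R α) Q) : m * n ∈ FxR (cw R α) Q := by
  intro q hq
  rw [cw_mul, hm q hq, hn q hq]

theorem fx_al (α : V →* A) (Q : Subgroup V) (v : V) : α v ∈ FxR (cw R α) Q := by
  intro q _
  rw [cw_ap, ← map_mul, ← map_mul, mul_comm q v, mul_assoc, mul_inv_cancel, mul_one]

theorem fx_mono {H M : Type} [Group H] [AddCommGroup M] [Module R M] (ρ : H →* (M →ₗ[R] M))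
    {P P' : Subgroup H} (h : P ≤ P') {m : M} (hm : m ∈ FxR ρ P') : m ∈ FxR ρ P :=
  fun g hg => hm g (h hg)

/-- fixed by two subgroups -/
theorem fx_sup {H M : Type} [Group H] [AddCommGroup M] [Module R M] (ρ : H →* (M →ₗ[R] M))
    {P Q : Subgroup H} {m : M} (h1 : m ∈ FxR ρ P) (h2 : m ∈ FxR ρ Q) : m ∈ FxR ρ (P ⊔ Q) := by
  let S : Subgroup H :=
    { carrier := {g | ρ g m = m}
      mul_mem' := by
        intro a b ha hb
        show ρ (a * b) m = m
        have ha' : ρ a m = m := ha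
        have hb' : ρ b m = m := hb
        rw [map_mul]
        show ρ a (ρ b m) = m
        rw [hb', ha']
      one_mem' := by
        show ρ 1 m = m
        rw [map_one]
        rfl
      inv_mem' := by
        intro a ha
        show ρ a⁻¹ m = m
        have ha' : ρ a m = m := ha
        calc ρ a⁻¹ m = ρ a⁻¹ (ρ a m) := by rw [ha']
          _ = (ρ a⁻¹ * ρ a) m := rfl
          _ = m := by
            rw [← map_mul, inv_mul_cancel, map_one]
            rfl }
  have h3 : P ⊔ Q ≤ S := sup_le (fun g hg => h1 g hg) (fun g hg => h2 g hg)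
  exact fun g hg => h3 hg

/-- a point fixed by two subgroups -/
theorem pt_sup {H Ω : Type} [Group H] [MulAction H Ω] {P Q : Subgroup H} {ω : Ω}
    (h1 : ∀ g ∈ P, g • ω = ω) (h2 : ∀ g ∈ Q, g • ω = ω) : ∀ g ∈ P ⊔ Q, g • ω = ω := by
  have h3 : P ⊔ Q ≤ MulAction.stabilizer H ω := sup_le (fun g hg => h1 g hg) (fun g hg => h2 g hg)
  exact fun g hg => h3 hg

theorem be_sum {α : V →* A} {Q : Subgroup V} {αB : V →* B} {β : A → B} (h : IsBQ R α Q αB β)
    {ι : Type} (s : Finset ι) (f : ι → A) (r : ι → R) (hf : ∀ i, f i ∈ FxR (cw R α) Q) :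
    β (∑ i ∈ s, r i • f i) = ∑ i ∈ s, r i • β (f i) := by
  classical
  induction s using Finset.induction_on with
  | empty =>
    rw [Finset.sum_empty, Finset.sum_empty]
    have h0 := h.smul 0 0 (Submodule.zero_mem _)
    rwa [zero_smul, zero_smul] at h0
  | insert i s hi ih =>
    rw [Finset.sum_insert hi, Finset.sum_insert hi, h.add, ih, h.smul _ _ (hf i)]
    · exact Submodule.smul_mem _ _ (hf i)
    · exact Submodule.sum_mem _ fun j _ => Submodule.smul_mem _ _ (hf j)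

end

theorem bbk (hfco : FcoStmt) (hfbk : FbkStmt) (hsfq : SfqStmt) (hlmb : LmbStmt)
    (hrfd : RfdStmt) : BbkStmt := by
  classical
  intro ℓ _ R V E A B K _ _ _ _ _ _ _ _ _ φ α Q αB β lam x y P hR hV hper hRF hBQ
  obtain ⟨Ω, _, _, b, c, hF, hst⟩ := hper
  have hfree : ∀ (v : V) (ω : Ω), ((1, v) : V × V) • ω = ω → v = 1 := by
    intro v ω h
    obtain ⟨e, S, hS⟩ := hst ω
    have h1 : ((1, v) : V × V) ∈ MulAction.stabilizer (V × V) ω := h
    rw [hS] at h1
    obtain ⟨s, -, hs⟩ := h1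
    have h2 : φ e s = 1 := congrArg Prod.fst hs
    have h3 : s = v := congrArg Prod.snd hs
    rw [← h3]
    have h4 : φ e s = φ e 1 := by rw [h2, map_one]
    exact (φ e).injective h4
  obtain ⟨d, hcd, hSF⟩ := hrfd R V A K Ω α lam x y b c hRF hF hfree
  obtain ⟨lamB, hlam⟩ := hlmb ℓ R V A B α Q αB β lam hR hV hRF.sym hBQ
  have hfin : Finite (OQt Q 1 Ω) := inferInstance
  let iF : Fintype (OQt Q 1 Ω) := Fintype.ofFinite _
  obtain ⟨hbd, hSB⟩ := hsfq R V A B Ω α Q αB β lam lamB b d 1 1 1 hSF hBQ hlam (one_mul 1)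
    (one_mul 1) (fun u => by rw [one_mul, mul_one]; rfl)
  have hbQ : ∀ ω : OQt Q 1 Ω, b ω ∈ FxR (cw R α) Q := by
    intro ω
    have h := (hbd ω.1 ω.2).1
    rwa [mul_one] at h
  have hdQ : ∀ ω : OQt Q 1 Ω, d ω ∈ FxR (cw R α) Q := by
    intro ω
    have h := (hbd ω.1 ω.2).2
    rwa [one_mul] at h
  -- the actions of `V`
  let actA : MulAction V Ω :=
    MulAction.compHom Ω (MonoidHom.prod (MonoidHom.id V) (MonoidHom.id V))
  let actB : MulAction V (OQt Q 1 Ω) :=
    MulAction.compHom (OQt Q 1 Ω) (MonoidHom.prod (MonoidHom.id V) (MonoidHom.id V))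
  have hact : ∀ (v : V) (ω : OQt Q 1 Ω), ((v • ω : OQt Q 1 Ω) : Ω) = v • (ω : Ω) :=
    fun _ _ => rfl
  have hFA : FrR (cw R α) b c := by
    obtain ⟨f1, f2, f3⟩ := hF
    exact ⟨fun v ω => f1 (v, v) ω, fun v ω n => f2 (v, v) ω n, f3⟩
  let cB : OQt Q 1 Ω → (B →ₗ[R] R) := fun ω => lamB.comp (LinearMap.mulLeft R (β (d ω)))
  have hcB : ∀ (ω : OQt Q 1 Ω) (z : B), cB ω z = lamB (β (d ω) * z) := fun _ _ => rfl
  have hFB : FrR (cw R αB) (fun ω : OQt Q 1 Ω => β (b ω)) cB := by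
    refine ⟨fun v ω => ?_, fun v ω n => ?_, fun n => ?_⟩
    · have h := hSB.eb (v, v) ω
      simp only [mul_one] at h
      rw [cw_ap]
      exact h
    · have h := hSB.ed (v, v) ω
      simp only [one_mul] at h
      rw [hcB, hcB, cw_ap]
      have h' : β (d ((v • ω : OQt Q 1 Ω))) = αB v * β (d ω) * αB v⁻¹ := h
      rw [h']
      have e : αB v * β (d ω) * αB v⁻¹ * (αB v * n * αB v⁻¹) =
          αB v * (β (d ω) * n * αB v⁻¹) := by
        calc _ = αB v * β (d ω) * (αB v⁻¹ * αB v) * n * αB v⁻¹ := by noncomm_ring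
          _ = _ := by
            rw [al_inv]
            noncomm_ring
      rw [e, hSB.sym, mul_assoc, al_inv, mul_one]
    · have h := hSB.fr n
      simp only [one_mul, mul_one] at h
      exact h
  have hval : ∀ a ∈ FxR (cw R α) Q, ∀ ω : OQt Q 1 Ω, cB ω (β a) = c ω a := by
    intro a ha ω
    rw [hcB, ← hBQ.mul _ (hdQ ω) a ha, hlam _ (fx_mul α Q (hdQ ω) ha), hcd]
  have hOQ : ∀ ω : Ω, (∀ q ∈ Q, q • ω = ω) → ω ∈ OQt Q 1 Ω := by
    intro ω h q hq
    exact h q hq
  have hOQ' : ∀ ω : OQt Q 1 Ω, ∀ q ∈ Q, q • (ω : Ω) = ω := by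
    intro ω q hq
    exact ω.2 q hq
  refine ⟨fun a ha => ⟨?_, ?_, ?_⟩, ?_⟩
  · intro p hp
    have haQ := fx_mono (cw R α) le_sup_right ha
    have h1 : cw R α p a = a := ha p ((le_sup_left : P ≤ P ⊔ Q) hp)
    rw [cw_ap] at h1
    rw [cw_ap, ← hBQ.om, ← hBQ.om, ← hBQ.mul _ (fx_al α Q p) a haQ,
      ← hBQ.mul _ (fx_mul α Q (fx_al α Q p) haQ) _ (fx_al α Q p⁻¹), h1]
  · intro hm
    have haQ := fx_mono (cw R α) le_sup_right ha
    refine hfbk R V A Ω (cw R α) b c hFA (P ⊔ Q) a ha fun ω hω => ?_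
    have hωQ : ω ∈ OQt Q 1 Ω := hOQ ω fun q hq => hω q ((le_sup_right : Q ≤ P ⊔ Q) hq)
    have h1 := hfco ℓ R V B (OQt Q 1 Ω) (cw R αB) _ cB hR hV hFB P (β a) hm ⟨ω, hωQ⟩ (by
      intro p hp
      exact Subtype.ext (hω p ((le_sup_left : P ≤ P ⊔ Q) hp)))
    rwa [hval a haQ] at h1
  · intro hm
    have haQ := fx_mono (cw R α) le_sup_right ha
    refine hfbk R V B (OQt Q 1 Ω) (cw R αB) _ cB hFB P (β a) ?_ fun ω hω => ?_
    · intro p hp
      have h1 : cw R α p a = a := ha p ((le_sup_left : P ≤ P ⊔ Q) hp)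
      rw [cw_ap] at h1
      rw [cw_ap, ← hBQ.om, ← hBQ.om, ← hBQ.mul _ (fx_al α Q p) a haQ,
        ← hBQ.mul _ (fx_mul α Q (fx_al α Q p) haQ) _ (fx_al α Q p⁻¹), h1]
    · rw [hval a haQ]
      refine hfco ℓ R V A Ω (cw R α) b c hR hV hFA (P ⊔ Q) a hm ω ?_
      refine pt_sup (fun p hp => ?_) (hOQ' ω)
      exact congrArg Subtype.val (hω p hp)
  · intro z hz
    have hcz : ∀ p ∈ P, ∀ ω : OQt Q 1 Ω, cB (p • ω) z = cB ω z := by
      intro p hp ω
      have h := hFB.2.1 p ω z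
      rwa [hz p hp] at h
    have haQ : ∑ ω : OQt Q 1 Ω, cB ω z • b ω ∈ FxR (cw R α) Q :=
      Submodule.sum_mem _ fun ω _ => Submodule.smul_mem _ _ (hbQ ω)
    refine ⟨∑ ω : OQt Q 1 Ω, cB ω z • b ω, fx_sup _ ?_ haQ, ?_⟩
    · intro p hp
      rw [map_sum]
      have e1 : ∀ ω : OQt Q 1 Ω, cw R α p (cB ω z • b ω) =
          cB (p • ω) z • b ((p • ω : OQt Q 1 Ω)) := by
        intro ω
        rw [map_smul, hcz p hp, hact, hFA.1]
      rw [Finset.sum_congr rfl fun ω _ => e1 ω]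
      exact Equiv.sum_comp (MulAction.toPerm p) fun ω : OQt Q 1 Ω => cB ω z • b ω
    · rw [be_sum hBQ _ _ _ hbQ]
      exact hFB.2.2 z

end Pool.Agent.PSS.S0.H62
end
end -- Pool.Agent.Helper62_PSS.BBK

section -- Pool.Agent.Helper64_PSS.MCK

/-!
# Squad PSS, row MCK (helper64): the Mackey formula
-/

set_option autoImplicit false

open scoped BigOperators

noncomputable section

namespace Pool.Agent.PSS.H64

open Pool.Agent.PSS.S0
open Pool.Agent.PFC (tw IsTv)
open Pool.Agent.PFD.D2b (FrR)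

section orb

variable {V Ω : Type} [CommGroup V] [MulAction (V × V) Ω]

theorem mk_eq {ω ω' : Ω} : Quotient.mk (ROrb V Ω) ω = Quotient.mk (ROrb V Ω) ω' ↔
    ∃ v : V, ((1, v) : V × V) • ω = ω' := Quotient.eq

/-- the action of `V` on the right orbits -/
@[reducible] def qact (V Ω : Type) [CommGroup V] [MulAction (V × V) Ω] :
    MulAction V (Quotient (ROrb V Ω)) where
  smul := fun q => Quotient.map (fun ω => ((q, 1) : V × V) • ω) (by
    rintro ω ω' ⟨v, rfl⟩
    refine ⟨v, ?_⟩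
    rw [smul_smul, smul_smul]
    simp)
  one_smul := by
    intro κ
    induction κ using Quotient.inductionOn with
    | _ ω => exact congrArg (Quotient.mk _) (one_smul (V × V) ω)
  mul_smul := by
    intro q r κ
    induction κ using Quotient.inductionOn with
    | _ ω =>
      refine congrArg (Quotient.mk _) ?_
      change ((q * r, 1) : V × V) • ω = ((q, 1) : V × V) • ((r, 1) : V × V) • ω
      rw [smul_smul]
      simp

/-- the right orbits of an invariant subset -/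
def inj (Q : Subgroup V) (θ : MulAut V) : Quotient (ROrb V (OQt Q θ Ω)) → Quotient (ROrb V Ω) :=
  Quotient.map (fun ω => (ω : Ω)) (by
    rintro ω ω' ⟨v, rfl⟩
    exact ⟨v, rfl⟩)

theorem inj_inj (Q : Subgroup V) (θ : MulAut V) :
    Function.Injective (inj (Ω := Ω) Q θ) := by
  intro κ κ' h
  induction κ using Quotient.inductionOn with
  | _ ω =>
    induction κ' using Quotient.inductionOn with
    | _ ω' =>
      obtain ⟨v, hv⟩ := mk_eq.1 h
      exact mk_eq.2 ⟨v, Subtype.ext hv⟩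

end orb

section fx

variable {R V A B : Type} [CommRing R] [CommGroup V] [Ring A] [Algebra R A] [Ring B] [Algebra R B]

theorem cw_ap (α : V →* A) (v : V) (a : A) : cw R α v a = α v * (a * α v⁻¹) := rfl

theorem al_inv (α : V →* A) (v : V) : α v⁻¹ * α v = 1 := by
  rw [← map_mul, inv_mul_cancel, map_one]

theorem al_inv' (α : V →* A) (v : V) : α v * α v⁻¹ = 1 := by
  rw [← map_mul, mul_inv_cancel, map_one]

theorem fx_iff (α : V →* A) (P : Subgroup V) (a : A) :
    a ∈ FxR (cw R α) P ↔ ∀ v ∈ P, α v * a = a * α v := by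
  constructor
  · intro h v hv
    have h1 : α v * (a * α v⁻¹) = a := h v hv
    calc α v * a = α v * (a * (α v⁻¹ * α v)) := by rw [al_inv, mul_one]
      _ = (α v * (a * α v⁻¹)) * α v := by simp only [mul_assoc]
      _ = a * α v := by rw [h1]
  · intro h v hv
    change α v * (a * α v⁻¹) = a
    rw [← mul_assoc, h v hv, mul_assoc, al_inv', mul_one]

theorem fx_mul (α : V →* A) (P : Subgroup V) {a b : A} (ha : a ∈ FxR (cw R α) P)
    (hb : b ∈ FxR (cw R α) P) : a * b ∈ FxR (cw R α) P := by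
  rw [fx_iff] at ha hb ⊢
  intro v hv
  rw [← mul_assoc, ha v hv, mul_assoc, hb v hv, mul_assoc]

theorem fx_al (α : V →* A) (P : Subgroup V) (u : V) : α u ∈ FxR (cw R α) P := by
  rw [fx_iff]
  intro v _
  rw [← map_mul, mul_comm, map_mul]

theorem fx_top (α : V →* A) (P : Subgroup V) {a : A} (ha : a ∈ FxR (cw R α) ⊤) :
    a ∈ FxR (cw R α) P := fun v _ => ha v (Subgroup.mem_top v)

variable {α : V →* A} {Q : Subgroup V} {αB : V →* B} {β : A → B}

theorem be_zero (hβ : IsBQ R α Q αB β) : β 0 = 0 :=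
  (hβ.ker 0 (Submodule.zero_mem _)).2 (Submodule.zero_mem _)

theorem be_sum (hβ : IsBQ R α Q αB β) {I : Type} (s : Finset I) (f : I → A)
    (hf : ∀ i ∈ s, f i ∈ FxR (cw R α) Q) : β (∑ i ∈ s, f i) = ∑ i ∈ s, β (f i) := by
  classical
  induction s using Finset.induction_on with
  | empty => simp [be_zero hβ]
  | insert a s ha ih =>
    rw [Finset.sum_insert ha, Finset.sum_insert ha, hβ.add, ih]
    · intro i hi
      exact hf i (Finset.mem_insert_of_mem hi)
    · exact hf a (Finset.mem_insert_self a s)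
    · exact Submodule.sum_mem _ (fun i hi => hf i (Finset.mem_insert_of_mem hi))

theorem be_sub (hβ : IsBQ R α Q αB β) {a b : A} (ha : a ∈ FxR (cw R α) Q)
    (hb : b ∈ FxR (cw R α) Q) (h : a - b ∈ BKR (cw R α) Q) : β a = β b := by
  have h1 : a - b ∈ FxR (cw R α) Q := Submodule.sub_mem _ ha hb
  have h2 : β a = β (b + (a - b)) := by rw [add_sub_cancel]
  rw [h2, hβ.add b hb _ h1, (hβ.ker _ h1).2 h, add_zero]

end fx

theorem mck (hRFD : RfdStmt) (hIND : IndStmt) (hRFO : RfoStmt) (hSFQ : SfqStmt)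
    (hFPX : FpxStmt) : MckStmt := by
  classical
  intro ℓ _ R V E A B K KB _ _ _ _ _ _ _ _ _ _ φ α Q αB β lam x y lamB xB yB n n' T _ _ hPer
    hRF hβ hRB hlam hn hT a ha
  obtain ⟨Ω, _, _, b, c, hF, hst⟩ := hPer
  have hfree : ∀ (v : V) (ω : Ω), ((1, v) : V × V) • ω = ω → v = 1 := by
    intro v ω h
    obtain ⟨e, S, hS⟩ := hst ω
    have h1 : ((1, v) : V × V) ∈ MulAction.stabilizer (V × V) ω := h
    rw [hS] at h1
    obtain ⟨s, _, hs2⟩ := h1
    have h3 : φ e s = 1 := congrArg Prod.fst hs2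
    have h4 : s = v := congrArg Prod.snd hs2
    rw [← h4]
    exact (MulEquiv.map_eq_one_iff (φ e)).1 h3
  obtain ⟨d, -, hSF⟩ := hRFD R V A K Ω α lam x y b c hRF hF hfree
  have hac : ∀ v, α v * a = a * α v := fun v =>
    (fx_iff (R := R) α ⊤ a).1 ha v (Subgroup.mem_top v)
  -- the function on the right orbits
  obtain ⟨g, hg⟩ : ∃ g : Quotient (ROrb V Ω) → A,
      ∀ ω, g (Quotient.mk (ROrb V Ω) ω) = b ω * a * d ω := by
    refine ⟨Quotient.lift (fun ω => b ω * a * d ω) ?_, fun ω => rfl⟩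
    rintro ω ω' ⟨v, rfl⟩
    rw [hSF.eb, hSF.ed]
    change b ω * a * d ω = α 1 * b ω * α (v)⁻¹ * a * (α v * d ω * α (1)⁻¹)
    rw [inv_one, map_one, one_mul, mul_one, mul_assoc (b ω) (α v⁻¹) a, hac v⁻¹,
      ← mul_assoc (b ω) a (α v⁻¹), mul_assoc (b ω * a) (α v⁻¹), ← mul_assoc (α v⁻¹) (α v),
      al_inv, one_mul]
  obtain ⟨x1, y1, hRF1, h1⟩ := hRFO R V A Ω 1 α lam b d hSF
  have hrt : ∑ k, x k * a * y k = ∑ κ, g κ := by
    rw [hIND R V A K _ α lam x y x1 y1 hRF hRF1 a ha, h1 a ha g hg]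
  let _ : MulAction V (Quotient (ROrb V Ω)) := qact V Ω
  have hsm : ∀ (q : V) (ω : Ω), q • (Quotient.mk (ROrb V Ω) ω) =
      Quotient.mk (ROrb V Ω) (((q, 1) : V × V) • ω) := fun _ _ => rfl
  have hgq : ∀ (q : V) (κ : Quotient (ROrb V Ω)), g (q • κ) = cw R α q (g κ) := by
    intro q κ
    induction κ using Quotient.inductionOn with
    | _ ω =>
      rw [hsm, hg, hg, hSF.eb, hSF.ed, cw_ap]
      change α q * b ω * α (1)⁻¹ * a * (α 1 * d ω * α q⁻¹) = _
      rw [inv_one, map_one, one_mul, mul_one]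
      simp only [mul_assoc]
  -- the types
  let Kt : E → Finset (Quotient (ROrb V Ω)) := fun t => Finset.univ.image (inj Q (φ t))
  have hKt : ∀ t ω, Quotient.mk (ROrb V Ω) ω ∈ Kt t ↔ ω ∈ OQt Q (φ t) Ω := by
    intro t ω
    constructor
    · intro h
      obtain ⟨κ, -, hκ⟩ := Finset.mem_image.1 h
      induction κ using Quotient.inductionOn with
      | _ ω' =>
        obtain ⟨v, hv⟩ := mk_eq.1 hκ
        rw [← hv]
        exact (OQt Q (φ t) Ω).smul_mem _ ω'.2
    · intro h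
      exact Finset.mem_image.2 ⟨Quotient.mk _ ⟨ω, h⟩, Finset.mem_univ _, rfl⟩
  have hK0 : ∀ κ, κ ∈ T.biUnion Kt ↔ ∀ h ∈ Q, h • κ = κ := by
    intro κ
    induction κ using Quotient.inductionOn with
    | _ ω =>
      rw [Finset.mem_biUnion]
      constructor
      · rintro ⟨t, _, ht⟩ h hh
        have h2 : ω ∈ OQt Q (φ t) Ω := (hKt t ω).1 ht
        rw [hsm, mk_eq]
        refine ⟨(φ t)⁻¹ h, ?_⟩
        rw [smul_smul]
        have h3 := h2 h hh
        simpa using h3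
      · intro h
        obtain ⟨e, S, hS⟩ := hst ω
        have h2 : ω ∈ OQt Q (φ e) Ω := by
          intro q hq
          have h3 := h q hq
          rw [hsm, mk_eq] at h3
          obtain ⟨v, hv⟩ := h3
          rw [smul_smul] at hv
          have h4 : ((q, v) : V × V) ∈ MulAction.stabilizer (V × V) ω := by
            change ((q, v) : V × V) • ω = ω
            simpa using hv
          have h5 := h4
          rw [hS] at h5
          obtain ⟨s, _, hs2⟩ := h5
          have h6 : φ e s = q := congrArg Prod.fst hs2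
          have h7 : s = v := congrArg Prod.snd hs2
          have h8 : (φ e)⁻¹ q = v := by
            rw [← h6, h7]
            exact (φ e).symm_apply_apply v
          rw [h8]
          exact h4
        obtain ⟨t, ⟨htT, ht⟩, _⟩ := hT e
        refine ⟨t, htT, (hKt t ω).2 ?_⟩
        intro q hq
        rw [ht q hq]
        exact h2 q hq
  have hdisj : ∀ t ∈ T, ∀ t' ∈ T, t ≠ t' → Disjoint (Kt t) (Kt t') := by
    intro t ht t' ht' hne
    rw [Finset.disjoint_left]
    intro κ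
    induction κ using Quotient.inductionOn with
    | _ ω =>
      intro h2 h3
      rw [hKt] at h2 h3
      apply hne
      obtain ⟨t0, _, hu⟩ := hT t'
      have e1 := hu t ⟨ht, fun q hq => by
        have h4 := h2 q hq
        have h5 := h3 q hq
        have h6 : ((1, ((φ t')⁻¹ q)⁻¹ * (φ t)⁻¹ q) : V × V) • ω = ω := by
          have h7 : ((1, ((φ t')⁻¹ q)⁻¹ * (φ t)⁻¹ q) : V × V) =
              ((q, (φ t')⁻¹ q) : V × V)⁻¹ * ((q, (φ t)⁻¹ q) : V × V) := by
            ext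
            · simp
            · rfl
          rw [h7, ← smul_smul, h4, inv_smul_eq_iff, h5]
        have h8 := hfree _ _ h6
        exact (inv_mul_eq_one.1 h8).symm⟩
      have e2 := hu t' ⟨ht', fun q _ => rfl⟩
      rw [e1, e2]
  -- Brauer map
  have hgF : ∀ κ ∈ T.biUnion Kt, g κ ∈ FxR (cw R α) Q := by
    intro κ hκ h hh
    rw [← hgq, (hK0 κ).1 hκ h hh]
  have hsF : ∑ κ, g κ ∈ FxR (cw R α) Q := by
    intro h _
    rw [map_sum]
    rw [← Finset.sum_congr rfl (fun κ _ => hgq h κ)]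
    exact Fintype.sum_equiv (MulAction.toPerm h) _ _ (fun κ => rfl)
  have hfpx := hFPX R V A (Quotient (ROrb V Ω)) (cw R α) Q g (T.biUnion Kt)
    (fun h _ κ => hgq h κ) hK0
  have hmain : β (∑ k, x k * a * y k) = ∑ κ ∈ T.biUnion Kt, β (g κ) := by
    rw [hrt, be_sub hβ hsF (Submodule.sum_mem _ hgF) hfpx, be_sum hβ _ _ hgF]
  rw [hmain, Finset.sum_biUnion hdisj]
  refine Finset.sum_congr rfl (fun t _ => ?_)
  obtain ⟨n1, n2, n3⟩ := hn t
  obtain ⟨hm, hSFB⟩ := hSFQ R V A B Ω α Q αB β lam lamB b d (φ t) (n t) (n' t) hSF hβ hlam n1 n2 n3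
  obtain ⟨x2, y2, hRF2, h2⟩ := hRFO R V B (OQt Q (φ t) Ω) (φ t) αB lamB _ _ hSFB
  -- `n a n'` commutes with `V`
  have n4 : ∀ u, n' t * α (φ t u) = α u * n' t := by
    intro u
    calc n' t * α (φ t u) = n' t * (α (φ t u) * (n t * n' t)) := by rw [n1, mul_one]
      _ = n' t * (α (φ t u) * n t) * n' t := by simp only [mul_assoc]
      _ = n' t * (n t * α u) * n' t := by rw [n3]
      _ = α u * n' t := by rw [← mul_assoc, n2, one_mul]
  have hnan : n t * a * n' t ∈ FxR (cw R α) ⊤ := by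
    rw [fx_iff]
    intro v _
    obtain ⟨u, hu⟩ : ∃ u, φ t u = v := (φ t).surjective v
    rw [← hu]
    calc α (φ t u) * (n t * a * n' t) = (α (φ t u) * n t) * a * n' t := by
          simp only [mul_assoc]
      _ = n t * α u * a * n' t := by rw [n3]
      _ = n t * (a * (α u * n' t)) := by rw [mul_assoc (n t), hac]; simp only [mul_assoc]
      _ = n t * (a * (n' t * α (φ t u))) := by rw [n4]
      _ = n t * a * n' t * α (φ t u) := by simp only [mul_assoc]
  have hnanQ := fx_top (R := R) α Q hnan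
  have hbf : β (n t * a * n' t) ∈ FxR (cw R αB) ⊤ := by
    rw [fx_iff]
    intro v _
    rw [← hβ.om, ← hβ.mul _ (fx_al α Q v) _ hnanQ, ← hβ.mul _ hnanQ _ (fx_al α Q v),
      (fx_iff (R := R) α ⊤ _).1 hnan v (Subgroup.mem_top v)]
  rw [hIND R V B KB _ αB lamB xB yB x2 y2 hRB hRF2 _ hbf,
    h2 _ hbf (fun κ => β (g (inj Q (φ t) κ))) ?_]
  · exact Finset.sum_image (fun κ _ κ' _ h => inj_inj Q (φ t) h)
  · intro ω
    change β (g (Quotient.mk (ROrb V Ω) (ω : Ω))) =
      β (b ω * n' t) * β (n t * a * n' t) * β (n t * d ω)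
    obtain ⟨m1, m2⟩ := hm ω ω.2
    rw [hg, ← hβ.mul _ m1 _ hnanQ, ← hβ.mul _ (fx_mul α Q m1 hnanQ) _ m2]
    congr 1
    calc b ω * a * d ω = b ω * (n' t * n t) * a * (n' t * n t) * d ω := by
          rw [n2, mul_one, mul_one]
      _ = b ω * n' t * (n t * a * n' t) * (n t * d ω) := by simp only [mul_assoc]

end Pool.Agent.PSS.H64
end
end -- Pool.Agent.Helper64_PSS.MCK

section -- Pool.Agent.Helper65_PSS.BPU

/-!
# Squad PSS, row BPU: the class is stable under Brauer quotients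
-/

open scoped BigOperators TensorProduct

noncomputable section

namespace Pool.Agent.PSS.H65

open Pool.Agent.PSS.S0
open Pool.Agent.PFC (tw IsTv)
open Pool.Agent.PFD.D2b (FrR)

variable {R : Type} {V E A B : Type} [CommRing R] [CommGroup V] [Group E] [Ring A] [Algebra R A]
  [Ring B] [Algebra R B]

lemma bw_app (α : V →* A) (w : V × V) (a : A) : bw R α w a = α w.1 * (a * α w.2⁻¹) := rfl

lemma mem_fx_iff (α : V →* A) (Q : Subgroup V) (a : A) :
    a ∈ FxR (cw R α) Q ↔ ∀ q ∈ Q, α q * a = a * α q := by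
  constructor
  · intro h q hq
    have h1 : α q * (a * α q⁻¹) = a := h q hq
    calc α q * a = α q * (a * α q⁻¹) * α q := by
          rw [mul_assoc, mul_assoc, ← map_mul, inv_mul_cancel, map_one, mul_one]
      _ = a * α q := by rw [h1]
  · intro h q hq
    show α q * (a * α q⁻¹) = a
    rw [← mul_assoc, h q hq, mul_assoc, ← map_mul, mul_inv_cancel, map_one, mul_one]

lemma mem_tw (φ : V →* V) (S : Subgroup V) (w : V × V) :
    w ∈ tw φ S ↔ w.2 ∈ S ∧ w.1 = φ w.2 := by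
  unfold tw
  rw [Subgroup.mem_map]
  constructor
  · rintro ⟨s, hs, rfl⟩
    exact ⟨hs, rfl⟩
  · rintro ⟨h1, h2⟩
    refine ⟨w.2, h1, ?_⟩
    rw [MonoidHom.prod_apply, MonoidHom.id_apply, ← h2]

/-- BPU. -/
theorem bpu (hSfq : SfqStmt) (hLmb : LmbStmt) (hRfd : RfdStmt) (hRfo : RfoStmt) : BpuStmt := by
  intro ℓ _ R V E A B K _ _ _ _ _ _ _ _ _ φ α Q αB β lam x y E1 hℓ hV hPer hUni hRF hB hE1
  obtain ⟨Ω, iΩ, iA, b, c, hfr, hst⟩ := hPer
  have hfree : ∀ (v : V) (ω : Ω), ((1, v) : V × V) • ω = ω → v = 1 := by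
    intro v ω h
    obtain ⟨e, S, hs⟩ := hst ω
    have h1 : ((1, v) : V × V) ∈ MulAction.stabilizer (V × V) ω := h
    rw [hs, mem_tw] at h1
    have h2 : (1 : V) = φ e v := h1.2
    exact (map_eq_one_iff (φ e) (φ e).injective).1 h2.symm
  obtain ⟨d, hcd, hSF⟩ := hRfd R V A K Ω α lam x y b c hRF hfr hfree
  obtain ⟨lamB, hlB⟩ := hLmb ℓ R V A B α Q αB β lam hℓ hV hRF.sym hB
  have hfin : Fintype (OQt Q (1 : MulAut V) Ω) := Fintype.ofFinite _
  have hSF2 := (hSfq R V A B Ω α Q αB β lam lamB b d 1 1 1 hSF hB hlB (mul_one 1) (mul_one 1)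
    (fun u => by rw [one_mul, mul_one]; rfl)).2
  refine ⟨?_, ?_, ?_⟩
  · refine ⟨OQt Q (1 : MulAut V) Ω, hfin, inferInstance,
      (fun ω : OQt Q (1 : MulAut V) Ω => β (b ω * 1)),
      fun ω => lamB.comp (LinearMap.mulLeft R (β (1 * d (ω : Ω)))), ⟨?_, ?_, ?_⟩, ?_⟩
    · intro g ω
      have h1 := hSF2.eb g ω
      rw [bw_app]
      refine h1.trans ?_
      rw [mul_assoc]
      rfl
    · intro g ω n
      have h1 := hSF2.ed g ω
      show lamB (β (1 * d ((g • ω : OQt Q (1 : MulAut V) Ω) : Ω)) *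
        (αB g.1 * (n * αB g.2⁻¹))) = lamB (β (1 * d (ω : Ω)) * n)
      have h2 : β (1 * d ((g • ω : OQt Q (1 : MulAut V) Ω) : Ω)) =
          αB g.2 * β (1 * d (ω : Ω)) * αB g.1⁻¹ := h1
      rw [h2, hSF2.sym]
      have h3 : αB g.1 * (n * αB g.2⁻¹) * (αB g.2 * β (1 * d (ω : Ω)) * αB g.1⁻¹) =
          αB g.1 * (n * β (1 * d (ω : Ω)) * αB g.1⁻¹) := by
        have h4 : αB g.2⁻¹ * αB g.2 = 1 := by rw [← map_mul, inv_mul_cancel, map_one]
        calc αB g.1 * (n * αB g.2⁻¹) * (αB g.2 * β (1 * d (ω : Ω)) * αB g.1⁻¹)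
            = αB g.1 * (n * (αB g.2⁻¹ * αB g.2) * β (1 * d (ω : Ω)) * αB g.1⁻¹) := by
              noncomm_ring
          _ = _ := by rw [h4, mul_one]
      rw [h3, hSF2.sym, mul_assoc, ← map_mul αB, inv_mul_cancel, map_one, mul_one, hSF2.sym]
    · intro n
      exact hSF2.fr n
    · intro ω
      obtain ⟨e, S, hs⟩ := hst (ω : Ω)
      have he : e ∈ E1 := by
        rw [hE1]
        intro q hq
        have h1 : ((q, (1 : MulAut V)⁻¹ q) : V × V) • (ω : Ω) = ω := ω.2 q hq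
        have h2 : ((q, q) : V × V) ∈ MulAction.stabilizer (V × V) (ω : Ω) := h1
        rw [hs, mem_tw] at h2
        exact h2.2.symm
      refine ⟨⟨e, he⟩, S, ?_⟩
      have h3 : MulAction.stabilizer (V × V) ω = MulAction.stabilizer (V × V) (ω : Ω) := by
        ext g
        rw [MulAction.mem_stabilizer_iff, MulAction.mem_stabilizer_iff]
        constructor
        · intro h
          exact congrArg Subtype.val h
        · intro h
          exact Subtype.ext h
      rw [h3, hs]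
      rfl
  · rintro ⟨e, he⟩
    obtain ⟨n, n', h1, h2, h3⟩ := hUni e
    have hq := (hE1 e).1 he
    have hn : n ∈ FxR (cw R α) Q := by
      rw [mem_fx_iff]
      intro q hqQ
      rw [h3, hq q hqQ]
    have hn' : n' ∈ FxR (cw R α) Q := by
      rw [mem_fx_iff] at hn ⊢
      intro q hqQ
      calc α q * n' = n' * n * (α q * n') := by rw [h2, one_mul]
        _ = n' * (n * α q) * n' := by noncomm_ring
        _ = n' * (α q * n) * n' := by rw [hn q hqQ]
        _ = n' * α q * (n * n') := by noncomm_ring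
        _ = n' * α q := by rw [h1, mul_one]
    have hu : ∀ u, α u ∈ FxR (cw R α) Q := by
      intro u
      rw [mem_fx_iff]
      intro q _
      rw [← map_mul, ← map_mul, mul_comm]
    refine ⟨β n, β n', ?_, ?_, ?_⟩
    · rw [← hB.mul n hn n' hn', h1, hB.one]
    · rw [← hB.mul n' hn' n hn, h2, hB.one]
    · intro u
      rw [← hB.om, ← hB.mul n hn _ (hu u), h3, hB.mul _ (hu _) n hn, hB.om]
      rfl
  · have hfq : Fintype (Quotient (ROrb V (OQt Q (1 : MulAut V) Ω))) := Fintype.ofFinite _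
    obtain ⟨x', y', hx, -⟩ := hRfo R V B (OQt Q (1 : MulAut V) Ω) 1 αB lamB
      (fun ω : OQt Q (1 : MulAut V) Ω => β (b ω * 1))
      (fun ω : OQt Q (1 : MulAut V) Ω => β (1 * d ω)) hSF2
    exact ⟨lamB, _, hfq, x', y', hx, hlB⟩

end Pool.Agent.PSS.H65
end
end -- Pool.Agent.Helper65_PSS.BPU

section -- Pool.Agent.Helper79_PSS.NFP

/-!
# Squad PSS, row NFP (helper79)
-/

open scoped BigOperators TensorProduct

noncomputable section

namespace Pool.Agent.PSS.H79

open Pool.Agent.PFC (tw IsTv)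
open Pool.Agent.PFD.D2b (FrR)

/-- the restriction of `φ e` to `W` -/
def rsE {V E : Type} [CommGroup V] [Group E] (φ : E →* MulAut V) (W : Subgroup V)
    (h : ∀ e : E, ∀ w ∈ W, φ e w ∈ W) (e : E) : MulAut W where
  toFun := fun w => ⟨φ e w, h e w w.2⟩
  invFun := fun w => ⟨φ e⁻¹ w, h e⁻¹ w w.2⟩
  left_inv := by
    intro w
    apply Subtype.ext
    change φ e⁻¹ (φ e w) = w
    rw [map_inv, MulAut.inv_apply_self]
  right_inv := by
    intro w
    apply Subtype.ext
    change φ e (φ e⁻¹ w) = w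
    rw [map_inv, MulAut.apply_inv_self]
  map_mul' := by
    intro u w
    apply Subtype.ext
    exact map_mul (φ e) (u : V) (w : V)

theorem rsE_inv {V E : Type} [CommGroup V] [Group E] (φ : E →* MulAut V) (W : Subgroup V)
    (h : ∀ e : E, ∀ w ∈ W, φ e w ∈ W) (e : E) (w : W) :
    (((rsE φ W h e)⁻¹ w : W) : V) = φ e⁻¹ w := rfl

theorem nfp (hN : NfrStmt) : NfpStmt := by
  intro ℓ _ R V E A B _ _ _ _ _ _ _ _ φ α W N hℓ hV hW hP hU
  classical
  constructor
  · obtain ⟨Ω, hΩ, hact, b, c, hf, hst⟩ := hP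
    have : Finite (MulAut W) := Finite.of_injective (fun f => (f : W → W)) DFunLike.coe_injective
    have : Fintype (Σ ε : MulAut W, Fp Ω (twW W ε)) := Fintype.ofFinite _
    obtain ⟨c', -, -, hf'⟩ := hN ℓ R V A B Ω α b c W N hℓ hV hf
    refine ⟨Σ ε : MulAut W, Fp Ω (twW W ε), this, inferInstance, _, c', hf', ?_⟩
    rintro ⟨ε, ω⟩
    obtain ⟨e, S, hS⟩ := hst ω.1
    refine ⟨e, S, ?_⟩
    rw [← hS]
    ext p
    rw [MulAction.mem_stabilizer_iff, MulAction.mem_stabilizer_iff]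
    constructor
    · intro h
      have h1 : (⟨ε, p • ω⟩ : Σ ε : MulAut W, Fp Ω (twW W ε)) = ⟨ε, ω⟩ := h
      have h2 : p • ω = ω := by
        have := (Sigma.mk.injEq _ _ _ _).mp h1
        exact eq_of_heq this.2
      exact congrArg Subtype.val h2
    · intro h
      have h2 : p • ω = ω := Subtype.ext h
      change (⟨ε, p • ω⟩ : Σ ε : MulAut W, Fp Ω (twW W ε)) = ⟨ε, ω⟩
      rw [h2]
  · intro e
    obtain ⟨y, y', h1, h2, h3⟩ := hU e
    have hy : y ∈ FxR (bw R α) (twW W (rsE φ W hW e)) := by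
      rw [mem_tw]
      intro w
      exact (h3 w).symm
    have h4 : ∀ u, α u * y' = y' * α (φ e u) := by
      intro u
      calc α u * y' = (y' * y) * α u * y' := by rw [h2, one_mul]
        _ = y' * (y * α u) * y' := by simp only [mul_assoc]
        _ = y' * (α (φ e u) * y) * y' := by rw [h3]
        _ = y' * α (φ e u) * (y * y') := by simp only [mul_assoc]
        _ = y' * α (φ e u) := by rw [h1, mul_one]
    have hy' : y' ∈ FxR (bw R α) (twW W (rsE φ W hW e)⁻¹) := by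
      rw [mem_tw]
      intro w
      have h5 := h4 (φ e⁻¹ w)
      rw [rsE_inv, h5, map_inv, MulAut.apply_inv_self]
    refine ⟨N.β (rsE φ W hW e) y, N.β (rsE φ W hW e)⁻¹ y', ?_, ?_, ?_⟩
    · rw [← N.mul _ _ y hy y' hy', mul_inv_cancel, h1, N.one]
    · rw [← N.mul _ _ y' hy' y hy, inv_mul_cancel, h2, N.one]
    · intro u
      rw [N.nwh_apply, N.nwh_apply, ← N.mul _ _ y hy _ (al_mem_tw u W),
        ← N.mul _ _ _ (al_mem_tw (φ e u) W) y hy, mul_one, one_mul, h3]

end Pool.Agent.PSS.H79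
end
end -- Pool.Agent.Helper79_PSS.NFP

section -- Pool.Agent.Helper84_PSS.BCL

/-! Squad PSS, row BCL: the class is stable under Brauer quotients. -/

open scoped BigOperators

noncomputable section

namespace Pool.Agent.PSS.S0.H84

open Pool.Agent.PFC (tw IsTv)

section gen

variable {R V A B : Type} [CommRing R] [CommGroup V] [Ring A] [Algebra R A] [Ring B] [Algebra R B]

theorem mem_fx (α : V →* A) (Q : Subgroup V) (a : A) :
    a ∈ FxR (cw R α) Q ↔ ∀ q ∈ Q, α q * a = a * α q := by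
  constructor
  · intro h q hq
    have h1 : α q * (a * α q⁻¹) = a := h q hq
    calc α q * a = α q * (a * α q⁻¹) * α q := by
          rw [mul_assoc, mul_assoc, ← map_mul, inv_mul_cancel, map_one, mul_one]
      _ = a * α q := by rw [h1]
  · intro h q hq
    show α q * (a * α q⁻¹) = a
    rw [← mul_assoc, h q hq, mul_assoc, ← map_mul, mul_inv_cancel, map_one, mul_one]

theorem fx_mul (α : V →* A) (Q : Subgroup V) {a b : A} (ha : a ∈ FxR (cw R α) Q)
    (hb : b ∈ FxR (cw R α) Q) : a * b ∈ FxR (cw R α) Q := by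
  rw [mem_fx] at ha hb ⊢
  intro q hq
  rw [← mul_assoc, ha q hq, mul_assoc, hb q hq, mul_assoc]

theorem fx_anti (α : V →* A) {Q Q' : Subgroup V} (h : Q ≤ Q') {a : A}
    (ha : a ∈ FxR (cw R α) Q') : a ∈ FxR (cw R α) Q :=
  fun q hq => ha q (h hq)

theorem fx_one (α : V →* A) (Q : Subgroup V) : (1 : A) ∈ FxR (cw R α) Q := by
  rw [mem_fx]
  intro q _
  rw [mul_one, one_mul]

theorem bq_sub {α : V →* A} {Q : Subgroup V} {αB : V →* B} {β : A → B}
    (hq : IsBQ R α Q αB β) {a b : A} (ha : a ∈ FxR (cw R α) Q) (hb : b ∈ FxR (cw R α) Q) :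
    β (a - b) = β a - β b := by
  have h1 : a - b = a + (-1 : R) • b := by
    rw [neg_smul, one_smul, sub_eq_add_neg]
  rw [h1, hq.add a ha _ (Submodule.smul_mem _ _ hb), hq.smul _ b hb, neg_smul, one_smul,
    sub_eq_add_neg]

theorem central [Fintype V] {K : Type} [Fintype K] {α : V →* A} {lam : A →ₗ[R] R}
    {x y : K → A} (h : RF R α lam x y) (c : A) :
    c * ∑ k, x k * y k = (∑ k, x k * y k) * c := by
  have h1 : ∀ k, c * (x k * y k)
      = ∑ l, ∑ v, lam (α v⁻¹ * y l * (c * x k)) • (x l * α v * y k) := by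
    intro k
    have h2 := h.e1 (c * x k)
    calc c * (x k * y k) = (c * x k) * y k := by rw [mul_assoc]
      _ = (∑ l, ∑ v, lam (α v⁻¹ * y l * (c * x k)) • (x l * α v)) * y k := by rw [h2]
      _ = _ := by
          rw [Finset.sum_mul]
          refine Finset.sum_congr rfl fun l _ => ?_
          rw [Finset.sum_mul]
          refine Finset.sum_congr rfl fun v _ => ?_
          rw [smul_mul_assoc]
  have h3 : ∀ l, x l * y l * c
      = ∑ k, ∑ v, lam (α v⁻¹ * y l * (c * x k)) • (x l * α v * y k) := by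
    intro l
    have h4 := h.e2 (y l * c)
    calc x l * y l * c = x l * (y l * c) := by rw [mul_assoc]
      _ = x l * (∑ k, ∑ v, lam (y l * c * (x k * α v)) • (α v⁻¹ * y k)) := by rw [h4]
      _ = _ := by
          rw [Finset.mul_sum]
          refine Finset.sum_congr rfl fun k _ => ?_
          rw [Finset.mul_sum]
          refine Fintype.sum_equiv (Equiv.inv V) _ _ fun v => ?_
          show x l * lam (y l * c * (x k * α v)) • (α v⁻¹ * y k)
            = lam (α (v⁻¹)⁻¹ * y l * (c * x k)) • (x l * α v⁻¹ * y k)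
          rw [mul_smul_comm, inv_inv, mul_assoc (x l)]
          congr 1
          rw [h.sym]
          have h5 : y l * c * (x k * α v) = y l * c * x k * α v := by
            rw [mul_assoc (y l * c)]
          rw [← h.sym, h5, h.sym]
          congr 1
          simp only [mul_assoc]
  calc c * ∑ k, x k * y k = ∑ k, c * (x k * y k) := by rw [Finset.mul_sum]
    _ = ∑ k, ∑ l, ∑ v, lam (α v⁻¹ * y l * (c * x k)) • (x l * α v * y k) :=
        Finset.sum_congr rfl fun k _ => h1 k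
    _ = ∑ l, ∑ k, ∑ v, lam (α v⁻¹ * y l * (c * x k)) • (x l * α v * y k) := Finset.sum_comm
    _ = ∑ l, x l * y l * c := Finset.sum_congr rfl fun l _ => (h3 l).symm
    _ = (∑ k, x k * y k) * c := by rw [Finset.sum_mul]

end gen

theorem exT {V E : Type} [CommGroup V] [Group E] [Finite E] (φ : E →* MulAut V)
    (Q : Subgroup V) :
    ∃ T : Finset E, ∀ e : E, ∃! t, t ∈ T ∧ ∀ q ∈ Q, (φ t)⁻¹ q = (φ e)⁻¹ q := by
  classical
  let s : Setoid E :=
    { r := fun e e' => ∀ q ∈ Q, (φ e)⁻¹ q = (φ e')⁻¹ q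
      iseqv := ⟨fun _ _ _ => rfl, fun h q hq => (h q hq).symm,
        fun h h' q hq => (h q hq).trans (h' q hq)⟩ }
  have : Finite (Quotient s) := inferInstance
  let _ : Fintype (Quotient s) := Fintype.ofFinite _
  refine ⟨Finset.univ.image (fun z : Quotient s => z.out), fun e => ?_⟩
  refine ⟨(Quotient.mk s e).out, ⟨Finset.mem_image_of_mem _ (Finset.mem_univ _), ?_⟩, ?_⟩
  · exact (Quotient.mk_out (s := s) e : _)
  · rintro t ⟨ht, hr⟩
    obtain ⟨z, _, rfl⟩ := Finset.mem_image.mp ht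
    have h1 : Quotient.mk s (z.out) = Quotient.mk s e := Quotient.sound (s := s) hr
    rw [Quotient.out_eq] at h1
    show z.out = (Quotient.mk s e).out
    rw [h1]

theorem bcl (mck : MckStmt) (bpu : BpuStmt) (bbk : BbkStmt) : BclStmt := by
  classical
  intro ℓ _ F V E A B _ _ _ _ _ _ _ _ _ _ φ α Q αB β E1 hp hE hA hq hE1
  obtain ⟨lam, K, _, x, y, hRF, u, hu⟩ := hA.rt
  have hl : (ℓ : F) = 0 := CharP.cast_eq_zero F ℓ
  obtain ⟨hper, huni, lamB, KB, _, xB, yB, hRFB, hcomp⟩ :=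
    bpu ℓ F V E A B K φ α Q αB β lam x y E1 hl hp hA.per hA.uni hRF hq hE1
  have hs : ∀ c : A, c * ∑ k, x k * y k = (∑ k, x k * y k) * c := central hRF
  have hsu : (∑ k, x k * y k) * u = 1 := by rw [← hs, hu]
  have hsQ : ∑ k, x k * y k ∈ FxR (cw F α) Q := by
    rw [mem_fx]
    exact fun q _ => hs (α q)
  have huQ : u ∈ FxR (cw F α) Q := by
    rw [mem_fx]
    intro q _
    calc α q * u = u * (∑ k, x k * y k) * (α q * u) := by rw [hu, one_mul]
      _ = u * α q * ((∑ k, x k * y k) * u) := by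
          rw [mul_assoc, ← mul_assoc _ (α q) u, ← hs, mul_assoc, mul_assoc]
      _ = u * α q := by rw [hsu, mul_one]
  refine ⟨?_, hper, huni, ⟨lamB, KB, _, xB, yB, hRFB, ?_⟩, ?_⟩
  · have := hA.fin
    let f : FxR (cw F α) Q →ₗ[F] B :=
      { toFun := fun a => β a
        map_add' := fun a b => hq.add a a.2 b b.2
        map_smul' := fun r a => hq.smul r a a.2 }
    have hf : Function.Surjective f := by
      intro b
      obtain ⟨a, ha, hab⟩ := hq.surj b
      exact ⟨⟨a, ha⟩, hab⟩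
    exact Module.Finite.of_surjective f hf
  · obtain ⟨T, hT⟩ := exT φ Q
    choose n n' hn using hA.uni
    have h1 := mck ℓ F V E A B K KB φ α Q αB β lam x y lamB xB yB n n' T hl hp hA.per hRF hq
      hRFB hcomp hn hT 1 (fx_one α ⊤)
    have h2 : ∀ t, n t * 1 * n' t = 1 := fun t => by rw [mul_one, (hn t).1]
    have h3 : β (∑ k, x k * y k) = (T.card : F) • ∑ k, xB k * yB k := by
      calc β (∑ k, x k * y k) = β (∑ k, x k * 1 * y k) := by simp only [mul_one]
        _ = ∑ t ∈ T, ∑ k, xB k * β (n t * 1 * n' t) * yB k := h1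
        _ = ∑ t ∈ T, ∑ k, xB k * yB k := by
            refine Finset.sum_congr rfl fun t _ => Finset.sum_congr rfl fun k _ => ?_
            rw [h2, hq.one, mul_one]
        _ = (T.card : F) • ∑ k, xB k * yB k := by
            rw [Finset.sum_const, Nat.cast_smul_eq_nsmul]
    refine ⟨(T.card : F) • β u, ?_⟩
    rw [smul_mul_assoc, ← mul_smul_comm, ← h3, ← hq.mul u huQ _ hsQ, hu, hq.one]
  · intro P e he h1 h2 h3
    obtain ⟨a1, a2⟩ := bbk ℓ F V E A B K φ α Q αB β lam x y ⊤ hl hp hA.per hRF hq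
    obtain ⟨b1, -⟩ := bbk ℓ F V E A B K φ α Q αB β lam x y P hl hp hA.per hRF hq
    rw [top_sup_eq] at a1 a2
    obtain ⟨e', he', hee⟩ := a2 e he
    have heP : e' ∈ FxR (cw F α) (P ⊔ Q) := fx_anti α le_top he'
    have heQ : e' ∈ FxR (cw F α) Q := fx_anti α le_top he'
    have c1 : e' * e' - e' ∈ BKR (cw F α) (P ⊔ Q) := by
      have hm : e' * e' - e' ∈ FxR (cw F α) (P ⊔ Q) :=
        Submodule.sub_mem _ (fx_mul α _ heP heP) heP
      rw [← (b1 _ hm).2, bq_sub hq (fx_mul α _ heQ heQ) heQ, hq.mul _ heQ _ heQ, hee]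
      exact h1
    have c2 : ∀ a ∈ FxR (cw F α) (P ⊔ Q), e' * a - a * e' ∈ BKR (cw F α) (P ⊔ Q) := by
      intro a ha
      have haQ : a ∈ FxR (cw F α) Q := fx_anti α le_sup_right ha
      have hm : e' * a - a * e' ∈ FxR (cw F α) (P ⊔ Q) :=
        Submodule.sub_mem _ (fx_mul α _ heP ha) (fx_mul α _ ha heP)
      rw [← (b1 _ hm).2, bq_sub hq (fx_mul α _ heQ haQ) (fx_mul α _ haQ heQ),
        hq.mul _ heQ _ haQ, hq.mul _ haQ _ heQ, hee]
      exact h2 _ (b1 a ha).1
    have c3 : e' ∈ BKR (cw F α) ⊤ := by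
      rw [← (a1 _ he').2, hee]
      exact h3
    have c4 := hA.blk (P ⊔ Q) e' he' c1 c2 c3
    have c5 := (b1 _ heP).2.mpr c4
    rwa [hee] at c5

end Pool.Agent.PSS.S0.H84
end
end -- Pool.Agent.Helper84_PSS.BCL

section -- Pool.Agent.Helper18_PSS.AllS0

/-!
# Squad PSS, block S5 (helper18): the rows of the blocks S0 and S4 without hypotheses
-/

noncomputable section

namespace Pool.Agent.PSS.S5.H18

theorem bkf_ : S0.BkfStmt := S0.H63.bkf

theorem fpx_ : S0.FpxStmt := H20.fpx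

theorem fco_ : S0.FcoStmt := S0.H92.fco

theorem fbk_ : S0.FbkStmt := S0.H77.fbk fpx_

theorem bki_ : S0.BkiStmt := S0.H6.bki

theorem rfd_ : S0.RfdStmt := S0.H10.rfd

theorem ind_ : S0.IndStmt := S0.H95.ind

theorem zrt_ : S0.ZrtStmt := S0.H80.zrt

theorem trs_ : S0.TrsStmt := S0.H5.trs

theorem rfo_ : S0.RfoStmt := S0.H41.rfo

theorem bqx_ : S0.BqxStmt := S0.H70.bqx

theorem lmb_ : S0.LmbStmt := H21.LMB.lmb

theorem sfq_ : S0.SfqStmt := S0.H70.sfq

theorem mck_ : S0.MckStmt := H64.mck rfd_ ind_ rfo_ sfq_ fpx_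

theorem bpu_ : S0.BpuStmt := H65.bpu sfq_ lmb_ rfd_ rfo_

theorem bbk_ : S0.BbkStmt := S0.H62.bbk fco_ fbk_ sfq_ lmb_ rfd_

theorem bcl_ : S0.BclStmt := S0.H84.bcl mck_ bpu_ bbk_

theorem orb_ : OrbStmt := H85.orb

theorem frb_ : FrbStmt := H52.frb orb_

theorem rfu_ : RfuStmt := H56.rfu

theorem dfr_ : DfrStmt := H40.dfr

theorem drf_ : DrfStmt := H21.DRF.drf

theorem qor_ : QorStmt := H29.qor orb_

theorem nfr_ : NfrStmt := H45.nfr frb_

theorem nfp_ : NfpStmt := H79.nfp nfr_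

theorem nfd_ : NfdStmt := H20.nfd frb_

end Pool.Agent.PSS.S5.H18
end
end -- Pool.Agent.Helper18_PSS.AllS0

section -- Pool.Agent.Helper84_PST.ZIJ

/-!
# Squad PST, row ZIJ: the Brauer map at a subgroup centralised by `E` is injective on the centre
-/

open scoped BigOperators

noncomputable section

namespace Pool.Agent.PST.H84

open Pool.Agent.PFC (tw IsTv)
open Pool.Agent.PFD.D2b (FrR)
open Pool.Agent.PSS
open Pool.Agent.PSS.S0 (IsBQ)

theorem cw_frame {F V E A : Type} [Field F] [CommGroup V] [Group E] [Ring A] [Algebra F A]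
    {φ : E →* MulAut V} {α : V →* A} (h : Per F φ α) :
    ∃ (Ω : Type) (_ : Fintype Ω) (_ : MulAction V Ω) (b : Ω → A) (c : Ω → (A →ₗ[F] F)),
      FrR (cw F α) b c := by
  obtain ⟨Ω, iΩ, aΩ, b, c, ⟨h1, h2, h3⟩, -⟩ := h
  let act : MulAction V Ω :=
    MulAction.compHom Ω (MonoidHom.prod (MonoidHom.id V) (MonoidHom.id V))
  exact ⟨Ω, iΩ, act, b, c, fun g t => h1 (g, g) t, fun g t n => h2 (g, g) t n, h3⟩

theorem cw_apply {F V A : Type} [Field F] [CommGroup V] [Ring A] [Algebra F A] (α : V →* A)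
    (u : V) (a : A) : cw F α u a = α u * a * α u⁻¹ := by
  show α u * (a * α u⁻¹) = α u * a * α u⁻¹
  rw [mul_assoc]

theorem central_fx {F V A : Type} [Field F] [CommGroup V] [Ring A] [Algebra F A] (α : V →* A)
    (P : Subgroup V) (z : A) (hz : ∀ a, z * a = a * z) : z ∈ FxR (cw F α) P := by
  intro u _
  rw [cw_apply, ← hz (α u), mul_assoc, ← map_mul, mul_inv_cancel, map_one, mul_one]

theorem bkr_bot {F V A : Type} [Field F] [CommGroup V] [Ring A] [Algebra F A] (α : V →* A)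
    (z : A) (hz : z ∈ BKR (cw F α) ⊥) : z = 0 := by
  have h1 : BKR (cw F α) ⊥ ≤ ⊥ := by
    refine Submodule.span_le.2 ?_
    rintro n ⟨P', S, m, hlt, -⟩
    exact absurd hlt not_lt_bot
  exact (Submodule.mem_bot F).1 (h1 hz)

/-- ZIJ -/
theorem zij (adx : AdxStmt) (lsa : LsaStmt) (fco : S0.FcoStmt) (fbk : S0.FbkStmt)
    (ftr : S0.FtrStmt) (bqx : S0.BqxStmt) (bbk : S0.BbkStmt) (bcl : S0.BclStmt)
    (bkf : S0.BkfStmt) : ZijStmt := by
  classical
  intro ℓ _ F V E A _ _ _ _ _ _ _ _ φ α Q hp hE hA hQ z hz hzQ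
  by_contra hz0
  have hl : (ℓ : F) = 0 := CharP.cast_eq_zero F ℓ
  have hfx : ∀ P : Subgroup V, z ∈ FxR (cw F α) P := fun P => central_fx α P z hz
  -- the maximal subgroup
  have hfin : {S : Subgroup V | z ∉ BKR (cw F α) S}.Finite := Set.toFinite _
  have hne : {S : Subgroup V | z ∉ BKR (cw F α) S}.Nonempty :=
    ⟨⊥, fun h => hz0 (bkr_bot α z h)⟩
  obtain ⟨S, hS⟩ := hfin.exists_maximal hne
  have hS1 : z ∉ BKR (cw F α) S := hS.1
  have hS2 : ∀ P' : Subgroup V, S < P' → z ∈ BKR (cw F α) P' := by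
    intro P' hlt
    by_contra hn
    exact absurd (hS.2 (y := P') hn hlt.le) (not_le_of_gt hlt)
  -- `Q` is not contained in `S`
  have hQS : ¬ Q ≤ S := by
    intro hle
    obtain ⟨Ω, _, _, b, c, hfr⟩ := cw_frame hA.per
    refine hS1 (fbk F V A Ω (cw F α) b c hfr S z (hfx S) ?_)
    intro ω hω
    exact fco ℓ F V A Ω (cw F α) b c hl hp hfr Q z hzQ ω (fun h hh => hω h (hle hh))
  obtain ⟨q, hqQ, hqS⟩ := SetLike.not_le_iff_exists.1 hQS
  -- the Brauer quotient
  obtain ⟨B, _, _, αB, β, hq⟩ := bqx F V A α S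
  let E1 : Subgroup E :=
    { carrier := {e | ∀ s ∈ S, φ e s = s}
      one_mem' := by
        intro s _
        rw [map_one]
        rfl
      mul_mem' := by
        intro e e' h h' s hs
        rw [map_mul, MulAut.mul_apply, h' s hs, h s hs]
      inv_mem' := by
        intro e h s hs
        have h1 := h s hs
        rw [map_inv]
        calc (φ e)⁻¹ s = (φ e)⁻¹ (φ e s) := by rw [h1]
          _ = s := MulAut.inv_apply_self _ _ _ }
  have hE1 : ∀ e, e ∈ E1 ↔ ∀ s ∈ S, φ e s = s := fun e => Iff.rfl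
  have hB : Cl F (φ.comp E1.subtype) αB := bcl ℓ F V E A B φ α S αB β E1 hp hE hA hq hE1
  obtain ⟨lam, K, _, x, y, hRF, -⟩ := hA.rt
  have hb := fun P : Subgroup V =>
    bbk ℓ F V E A B K φ α S αB β lam x y P hl hp hA.per hRF hq
  have hz1 : β z ≠ 0 := fun h => hS1 ((hq.ker z (hfx S)).1 h)
  have hzc : ∀ w : B, β z * w = w * β z := by
    intro w
    obtain ⟨a, ha, rfl⟩ := hq.surj w
    rw [← hq.mul z (hfx S) a ha, ← hq.mul a ha z (hfx S), hz]
  have hz2 : ∀ P' : Subgroup V, S < P' → β z ∈ BKR (cw F αB) P' := by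
    intro P' hlt
    have h1 := ((hb P').1 z (hfx _)).2
    rw [sup_eq_left.2 hlt.le] at h1
    exact h1.2 (hS2 P' hlt)
  obtain ⟨ΩB, _, _, bB, cB, hfrB⟩ := cw_frame hB.per
  obtain ⟨m, hm, T, hT, hmT⟩ := ftr ℓ F V B ΩB (cw F αB) bB cB hl hp hfrB S (β z)
    (central_fx αB ⊤ (β z) hzc) hz2
  have hzero : ∀ n ∈ BKR (cw F αB) S, n = 0 := by
    intro n hn
    have h1 : n ∈ FxR (cw F αB) S := bkf F V B (cw F αB) S hn
    obtain ⟨a, ha, rfl⟩ := (hb S).2 n h1
    have h2 := ((hb S).1 a ha).2.1 hn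
    rw [sup_idem] at h2 ha
    exact (hq.ker a ha).2 h2
  have hzT : β z = ∑ t ∈ T, αB t * m * αB t⁻¹ := by
    have h1 := sub_eq_zero.1 (hzero _ hmT)
    rw [h1]
    exact Finset.sum_congr rfl fun t _ => cw_apply αB t m
  obtain ⟨lamB, KB, _, xB, yB, hRFB, u, hu⟩ := hB.rt
  have hcard : ¬ ℓ ∣ Nat.card E1 := fun h => hE (h.trans (Subgroup.card_subgroup_dvd_card E1))
  obtain ⟨e, he1, he2, he3⟩ := adx ℓ F V E1 (φ.comp E1.subtype) S q hp hcard
    (fun g s hs => g.2 s hs) (fun g => hQ g q hqQ) hqS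
  have hu' : u * rt xB yB 1 = 1 := by
    have h1 : rt xB yB 1 = ∑ k, xB k * yB k :=
      Finset.sum_congr rfl fun k _ => by rw [mul_one]
    rw [h1, hu]
  have hr := lsa ℓ F V E1 B KB (φ.comp E1.subtype) αB lamB xB yB u e S T hp hcard hB hRFB hu'
    he1 he2 he3 hT m hm
  rw [← hzT] at hr
  have hr2 : rt xB yB (β z) = (∑ k, xB k * yB k) * β z := by
    rw [Finset.sum_mul]
    refine Finset.sum_congr rfl fun k _ => ?_
    rw [mul_assoc, hzc, mul_assoc]
  apply hz1
  calc β z = u * (∑ k, xB k * yB k) * β z := by rw [hu, one_mul]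
    _ = 0 := by rw [mul_assoc, ← hr2, hr, mul_zero]

end Pool.Agent.PST.H84
end
end -- Pool.Agent.Helper84_PST.ZIJ

section -- Pool.Agent.Helper70_PST.VTX

/-!
# Squad PST, row VTX (helper70): the relation in the centre of `A₀(Q)` given by `r ∈ Q`
-/

open scoped BigOperators

noncomputable section

namespace Pool.Agent.PST.H70

open Pool.Agent.PFC (tw IsTv)
open Pool.Agent.PFD.D2b (FrR)
open Pool.Agent.PSS
open Pool.Agent.PSS.S0 (IsBQ)
open Pool.Agent.PSS.S0.H84 (mem_fx fx_mul fx_anti fx_one bq_sub)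
open Pool.Agent.PST.H84 (cw_frame central_fx cw_apply)

/-- the pointwise stabiliser of `S` in `E` -/
def stE {V E : Type} [CommGroup V] [Group E] (φ : E →* MulAut V) (S : Subgroup V) : Subgroup E where
  carrier := {e | ∀ s ∈ S, φ e s = s}
  one_mem' := by
    intro s _
    rw [map_one]
    rfl
  mul_mem' := by
    intro e e' h h' s hs
    rw [map_mul, MulAut.mul_apply, h' s hs, h s hs]
  inv_mem' := by
    intro e h s hs
    have h1 := h s hs
    rw [map_inv]
    calc (φ e)⁻¹ s = (φ e)⁻¹ (φ e s) := by rw [h1]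
      _ = s := MulAut.inv_apply_self _ _ _

/-- nondegeneracy -/
theorem nondeg {F V A K : Type} [Field F] [CommGroup V] [Fintype V] [Ring A] [Algebra F A]
    [Fintype K] {α : V →* A} {lam : A →ₗ[F] F} {x y : K → A} (h : RF F α lam x y) {z : A}
    (hz : ∀ s, lam (s * z) = 0) : z = 0 := by
  rw [← h.e1 z]
  refine Finset.sum_eq_zero fun k _ => Finset.sum_eq_zero fun v _ => ?_
  rw [hz, zero_smul]

/-- the Brauer map is additive on finite sums -/
theorem bq_sum {F V A B ι : Type} [Field F] [CommGroup V] [Ring A] [Algebra F A] [Ring B]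
    [Algebra F B] {α : V →* A} {Q : Subgroup V} {αB : V →* B} {β : A → B}
    (h : IsBQ F α Q αB β) (s : Finset ι) (f : ι → A) (hf : ∀ i ∈ s, f i ∈ FxR (cw F α) Q) :
    β (∑ i ∈ s, f i) = ∑ i ∈ s, β (f i) := by
  classical
  induction s using Finset.induction_on with
  | empty =>
    rw [Finset.sum_empty, Finset.sum_empty]
    exact (h.ker 0 (Submodule.zero_mem _)).2 (Submodule.zero_mem _)
  | insert a s ha ih =>
    rw [Finset.sum_insert ha, Finset.sum_insert ha,
      h.add _ (hf a (Finset.mem_insert_self a s)) _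
        (Submodule.sum_mem _ fun i hi => hf i (Finset.mem_insert_of_mem hi)),
      ih fun i hi => hf i (Finset.mem_insert_of_mem hi)]

theorem bq_pow {F V A B : Type} [Field F] [CommGroup V] [Ring A] [Algebra F A] [Ring B]
    [Algebra F B] {α : V →* A} {Q : Subgroup V} {αB : V →* B} {β : A → B}
    (h : IsBQ F α Q αB β) {a : A} (ha : a ∈ FxR (cw F α) Q) (n : ℕ) :
    a ^ n ∈ FxR (cw F α) Q ∧ β (a ^ n) = β a ^ n := by
  induction n with
  | zero =>
    rw [pow_zero, pow_zero]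
    exact ⟨fx_one α Q, h.one⟩
  | succ n ih =>
    rw [pow_succ, pow_succ]
    exact ⟨fx_mul α Q ih.1 ha, by rw [h.mul _ ih.1 _ ha, ih.2]⟩

theorem xe_fx {F V A : Type} [Field F] [CommGroup V] [Fintype V] [Ring A] [Algebra F A]
    (α : V →* A) (P : Subgroup V) (p : V → F) : Xe α p ∈ FxR (cw F α) P := by
  rw [mem_fx]
  intro q _
  rw [Xe, Finset.mul_sum, Finset.sum_mul]
  refine Finset.sum_congr rfl fun v _ => ?_
  rw [mul_smul_comm, smul_mul_assoc, ← map_mul, ← map_mul, mul_comm]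

theorem rt_central {F V A K : Type} [Field F] [CommGroup V] [Fintype V] [Ring A] [Algebra F A]
    [Fintype K] {α : V →* A} {lam : A →ₗ[F] F} {x y : K → A} (zrt : S0.ZrtStmt)
    (h : RF F α lam x y) {a : A} (ha : a ∈ FxR (cw F α) ⊤) (c : A) :
    rt x y a * c = c * rt x y a := (zrt F V A K α lam x y h a ha c).symm

theorem one_fx {F V A : Type} [Field F] [CommGroup V] [Ring A] [Algebra F A] (α : V →* A)
    (P : Subgroup V) : (1 : A) ∈ FxR (cw F α) P := fx_one α P

/-- VTX -/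
theorem vtx (zun : ZunStmt) (bqt : BqtStmt) (mco : McoStmt) (ndi : NdiStmt) (vta : VtaStmt)
    (bcl : S0.BclStmt) (bbk : S0.BbkStmt) (fco : S0.FcoStmt) (fbk : S0.FbkStmt)
    (zrt : S0.ZrtStmt) : VtxStmt := by
  classical
  intro ℓ _ F V E A Br BQ K KB KQ _ _ _ _ _ _ _ _ _ _ _ _ _ _ _ φ α lam x y W n la χ xx t D r
    αB β lamB xB yB αQ βQ lamQ xQ yQ δ w hP hE hch hcl hrf hd hrQ hrW hB hrfB hlB hQ hrfQ hlQ hδ
    hδW hYc hδY hwc hw
  have hl : (ℓ : F) = 0 := CharP.cast_eq_zero F ℓ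
  have hPQ : Subgroup.zpowers r ≤ QW0 φ W := by
    rw [Subgroup.zpowers_le]
    exact hrQ
  -- the centraliser of `r`
  have hst : ∀ e : stE φ (Subgroup.zpowers r), ∀ u, φ e u * u⁻¹ ∈ W := by
    intro e
    refine hch.fr e r hrW ?_
    rw [e.2 r (Subgroup.mem_zpowers r), mul_inv_cancel]
    exact W.one_mem
  have hcent : ∀ e : stE φ (Subgroup.zpowers r), ∀ q ∈ QW0 φ W,
      φ.comp (stE φ (Subgroup.zpowers r)).subtype e q = q := fun e q hq => hq e (hst e)
  have hla : ∀ (l : Fin n) (e : stE φ (Subgroup.zpowers r)) (v : V),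
      la l (φ.comp (stE φ (Subgroup.zpowers r)).subtype e v) = la l v := by
    intro l e v
    have h1 : la l (φ e v * v⁻¹ * v) = la l (φ e v * v⁻¹) + la l v := hd.eg.add l _ _
    rw [(hd.eg.ker _).1 (hst e v) l, inv_mul_cancel_right, zero_add] at h1
    exact h1
  have hadc : ∀ l, Adc (φ.comp (stE φ (Subgroup.zpowers r)).subtype) (la l) := fun l =>
    ⟨hd.eg.add l, hla l⟩
  have hclB : Cl F (φ.comp (stE φ (Subgroup.zpowers r)).subtype) αB :=
    bcl ℓ F V E A Br φ α _ αB β _ hP hE hcl hB fun e => Iff.rfl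
  have hcard : ¬ ℓ ∣ Nat.card (stE φ (Subgroup.zpowers r)) := fun h =>
    hE (h.trans (Subgroup.card_subgroup_dvd_card _))
  have hclQ : Cl F (φ.comp (stE φ (QW0 φ W)).subtype) αQ :=
    bcl ℓ F V E A BQ φ α _ αQ βQ _ hP hE hcl hQ fun e => Iff.rfl
  -- the relation in `Br`
  obtain ⟨a, y₀, Dl, ha, h1, hDl, hDv, hsum⟩ := vta ℓ F V _ Br KB
    (φ.comp (stE φ (Subgroup.zpowers r)).subtype) αB lamB xB yB W n la δ (β (D r)) hclB.per hrfB
    hch.pw hadc hδ hδW hYc hδY fun μ hμ hμW => ⟨fun l => ∑ u, xx l u * μ u, fun v => hd.eg.spn μ hμ hμW v⟩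
  -- the second Brauer map
  obtain ⟨β', hβ', hββ⟩ := bqt ℓ F V E A Br BQ K φ α lam x y (Subgroup.zpowers r) (QW0 φ W) αB β
    αQ βQ hP hcl.per hrf hB hQ hPQ
  have hsup : QW0 φ W ⊔ Subgroup.zpowers r = QW0 φ W := sup_eq_left.2 hPQ
  have hbk := fun P : Subgroup V => bbk ℓ F V E A Br K φ α (Subgroup.zpowers r) αB β lam x y P hl
    hP hcl.per hrf hB
  have hfxB : ∀ z ∈ FxR (cw F α) (QW0 φ W), β z ∈ FxR (cw F αB) (QW0 φ W) := by
    intro z hz
    rw [← hsup] at hz
    exact ((hbk (QW0 φ W)).1 z hz).1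
  have hlQ' : ∀ s ∈ FxR (cw F αB) (QW0 φ W), lamQ (β' s) = lamB s := by
    intro s hs
    obtain ⟨b, hb, rfl⟩ := (hbk (QW0 φ W)).2 s hs
    rw [hsup] at hb
    rw [hββ b hb, hlQ b hb, hlB b (fx_anti α hPQ hb)]
  have haQ : ∀ l, a l ∈ FxR (cw F αB) (QW0 φ W) := fun l => fx_anti αB le_top (ha l)
  -- (1)
  have hwu : ∀ u ∈ QW0 φ W, w u = ∑ l, la l u • β' (a l) := by
    intro u hu
    refine sub_eq_zero.1 (nondeg hrfQ fun s => ?_)
    obtain ⟨z, hz, rfl⟩ := hQ.surj s
    have hβz := hfxB z hz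
    have e1 : lamB (β z * (αB u * y₀ * αB u⁻¹ - y₀)) = 0 := by
      have e2 : αB u * β z = β z * αB u := (mem_fx αB _ _).1 hβz u hu
      rw [mul_sub, map_sub]
      have e3 : β z * (αB u * y₀ * αB u⁻¹) = αB u * (β z * y₀ * αB u⁻¹) := by
        rw [← mul_assoc, ← mul_assoc, ← mul_assoc, ← mul_assoc, e2]
      rw [e3, hrfB.sym, mul_assoc, ← map_mul, inv_mul_cancel, map_one, mul_one, sub_self]
    have e4 : lamQ (βQ z * w u) = ∑ l, la l u * lamB (β z * a l) := by
      rw [← hw u hu z hz, h1 u, mul_add, map_add, e1, add_zero, Finset.mul_sum, map_sum]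
      refine Finset.sum_congr rfl fun l _ => ?_
      rw [mul_smul_comm, map_smul, smul_eq_mul]
    have e5 : ∀ l, lamB (β z * a l) = lamQ (βQ z * β' (a l)) := by
      intro l
      rw [← hlQ' _ (fx_mul αB _ hβz (haQ l)), hβ'.mul _ hβz _ (haQ l), hββ z hz]
    rw [mul_sub, map_sub, e4, Finset.mul_sum, map_sum, ← Finset.sum_sub_distrib]
    refine Finset.sum_eq_zero fun l _ => ?_
    rw [mul_smul_comm, map_smul, smul_eq_mul, e5, sub_self]
  have hcl' : ∀ l, ∑ u, xx l u • w u = β' (a l) := by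
    intro l
    have e1 : ∀ u, xx l u • w u = ∑ k, (xx l u * la k u) • β' (a k) := by
      intro u
      by_cases hu : u ∈ QW0 φ W
      · rw [hwu u hu, Finset.smul_sum]
        exact Finset.sum_congr rfl fun k _ => smul_smul _ _ _
      · rw [hd.eg.qs l u hu, zero_smul]
        refine (Finset.sum_eq_zero fun k _ => ?_).symm
        rw [zero_mul, zero_smul]
    rw [Finset.sum_congr rfl fun u _ => e1 u, Finset.sum_comm]
    have e2 : ∀ k, ∑ u, (xx l u * la k u) • β' (a k) = if l = k then β' (a k) else 0 := by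
      intro k
      rw [← Finset.sum_smul, hd.eg.xl l k]
      split_ifs
      · rw [one_smul]
      · rw [zero_smul]
    rw [Finset.sum_congr rfl fun k _ => e2 k, Finset.sum_ite_eq, if_pos (Finset.mem_univ l)]
  have hcc : ∀ l s, β' (a l) * s = s * β' (a l) := by
    intro l s
    rw [← hcl' l, Finset.sum_mul, Finset.mul_sum]
    refine Finset.sum_congr rfl fun u _ => ?_
    by_cases hu : u ∈ QW0 φ W
    · rw [smul_mul_assoc, mul_smul_comm, hwc u hu s]
    · rw [hd.eg.qs l u hu, zero_smul, zero_mul, mul_zero]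
  -- (2)
  have hmco : ∀ b ∈ FxR (cw F αB) ⊤, β' (rt xB yB b) = rt xQ yQ (β' b) :=
    mco ℓ F V _ Br BQ KB KQ (φ.comp (stE φ (Subgroup.zpowers r)).subtype) αB (QW0 φ W) αQ β' lamB
      xB yB lamQ xQ yQ hP hclB.per hclB.uni hrfB hβ' hrfQ hlQ' hcent
  have hζ : β' (rt xB yB 1) = rt xQ yQ 1 := by
    rw [hmco 1 (one_fx αB ⊤), hβ'.one]
  have hζc : ∀ s, rt xQ yQ 1 * s = s * rt xQ yQ 1 := fun s =>
    rt_central zrt hrfQ (one_fx αQ ⊤) s
  have hζBc : ∀ s, rt xB yB 1 * s = s * rt xB yB 1 := fun s =>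
    rt_central zrt hrfB (one_fx αB ⊤) s
  have hrta : ∀ l, β' (rt xB yB (a l)) = β' (a l) * rt xQ yQ 1 := by
    intro l
    rw [hmco _ (ha l), rt, rt, Finset.mul_sum]
    refine Finset.sum_congr rfl fun k _ => ?_
    rw [mul_one, ← hcc l (xQ k), mul_assoc]
  -- (3)
  have hpl : ∀ l, ∑ v, pg la xx t r v * la l v = t l * la l r := by
    intro l
    have e1 : ∀ v, pg la xx t r v * la l v = ∑ k, t k * la k r * (xx k v * la l v) := by
      intro v
      rw [pg, Finset.sum_mul]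
      exact Finset.sum_congr rfl fun k _ => by ring
    rw [Finset.sum_congr rfl fun v _ => e1 v, Finset.sum_comm]
    have e2 : ∀ k, ∑ v, t k * la k r * (xx k v * la l v) = if k = l then t k * la k r else 0 := by
      intro k
      rw [← Finset.mul_sum, hd.eg.xl k l]
      split_ifs
      · rw [mul_one]
      · rw [mul_zero]
    rw [Finset.sum_congr rfl fun k _ => e2 k, Finset.sum_ite_eq', if_pos (Finset.mem_univ l)]
  have hDfx : D r - Xe α (pg la xx t r) ∈ FxR (cw F α) ⊤ :=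
    Submodule.sub_mem _ (hd.fx r) (xe_fx α ⊤ _)
  have hDbk : D r - Xe α (pg la xx t r) ∈ BKR (cw F α) ⊤ := by
    obtain ⟨Ω, _, _, b, c, hfr⟩ := cw_frame hcl.per
    refine fbk F V A Ω (cw F α) b c hfr ⊤ _ hDfx ?_
    intro ω hω
    exact fco ℓ F V A Ω (cw F α) b c hl hP hfr (QW0 φ W) _ (hd.bk r) ω
      (fun h _ => hω h (Subgroup.mem_top h))
  have hYbk : β (D r) - Xe αB (pg la xx t r) ∈ BKR (cw F αB) ⊤ := by
    have e1 := ((hbk ⊤).1 (D r - Xe α (pg la xx t r)) (by rw [top_sup_eq]; exact hDfx)).2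
    rw [top_sup_eq] at e1
    have e2 := e1.2 hDbk
    have e3 : β (D r - Xe α (pg la xx t r)) = β (D r) - Xe αB (pg la xx t r) := by
      rw [bq_sub hB (fx_anti α le_top (hd.fx r)) (xe_fx α _ _)]
      congr 1
      rw [Xe, bq_sum hB]
      · refine Finset.sum_congr rfl fun v _ => ?_
        rw [hB.smul _ _ ?_, hB.om]
        rw [mem_fx]
        intro q _
        rw [← map_mul, ← map_mul, mul_comm]
      · intro v _
        refine Submodule.smul_mem _ _ ?_
        rw [mem_fx]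
        intro q _
        rw [← map_mul, ← map_mul, mul_comm]
    rw [e3] at e2
    exact e2
  have hN : ∀ l, (∀ b, Dl l (β (D r)) * b = b * Dl l (β (D r))) ∧
      IsNilpotent (Dl l (β (D r)) - (t l * la l r) • rt xB yB 1) := by
    intro l
    have e1 := ndi ℓ F V _ Br KB (φ.comp (stE φ (Subgroup.zpowers r)).subtype) αB lamB xB yB
      (la l) (Dl l) (pg la xx t r) (β (D r)) hP hcard hclB hrfB (hadc l) (hDl l) (hDv l) hYc hYbk
    rw [hpl l] at e1
    exact e1
  -- (4)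
  obtain ⟨u₀, hu₀⟩ := zun F V _ BQ KQ (φ.comp (stE φ (QW0 φ W)).subtype) αQ lamQ xQ yQ hclQ hrfQ
  have hu₁ : rt xQ yQ 1 * u₀ = 1 := by rw [hζc, hu₀]
  have hu₀c : ∀ s, u₀ * s = s * u₀ := by
    intro s
    calc u₀ * s = u₀ * s * (rt xQ yQ 1 * u₀) := by rw [hu₁, mul_one]
      _ = u₀ * (s * rt xQ yQ 1) * u₀ := by simp only [mul_assoc]
      _ = u₀ * (rt xQ yQ 1 * s) * u₀ := by rw [hζc]
      _ = u₀ * rt xQ yQ 1 * s * u₀ := by simp only [mul_assoc]
      _ = s * u₀ := by rw [hu₀, one_mul]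
  have hNc : ∀ l b, (Dl l (β (D r)) - (t l * la l r) • rt xB yB 1) * b =
      b * (Dl l (β (D r)) - (t l * la l r) • rt xB yB 1) := by
    intro l b
    rw [sub_mul, mul_sub, (hN l).1 b, smul_mul_assoc, mul_smul_comm, hζBc b]
  have hfxc : ∀ z : Br, (∀ b, z * b = b * z) → z ∈ FxR (cw F αB) (QW0 φ W) := fun z hz =>
    central_fx αB _ z hz
  obtain ⟨N, hNdef⟩ : ∃ N : Fin n → Br,
      N = fun l => Dl l (β (D r)) - (t l * la l r) • rt xB yB 1 := ⟨_, rfl⟩
  have hNl : ∀ l, N l = Dl l (β (D r)) - (t l * la l r) • rt xB yB 1 := fun l => by rw [hNdef]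
  have hNfx : ∀ l, N l ∈ FxR (cw F αB) (QW0 φ W) := fun l => by
    rw [hNl]
    exact hfxc _ (hNc l)
  have hN'c : ∀ l s, β' (N l) * s = s * β' (N l) := by
    intro l s
    obtain ⟨b, hb, rfl⟩ := hβ'.surj s
    rw [← hβ'.mul _ (hNfx l) _ hb, ← hβ'.mul _ hb _ (hNfx l), hNl, hNc l b]
  have hβ0 : β' 0 = 0 := (hβ'.ker 0 (Submodule.zero_mem _)).2 (Submodule.zero_mem _)
  have hN'n : ∀ l, IsNilpotent (β' (N l)) := by
    intro l
    obtain ⟨k, hk⟩ := (hN l).2
    refine ⟨k, ?_⟩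
    rw [← (bq_pow hβ' (hNfx l) k).2, hNl, hk, hβ0]
  have hDN : ∀ l, β' (Dl l (β (D r))) = (t l * la l r) • rt xQ yQ 1 + β' (N l) := by
    intro l
    have e1 : Dl l (β (D r)) = (t l * la l r) • rt xB yB 1 + N l := by
      rw [hNl]
      abel
    have e2 : rt xB yB 1 ∈ FxR (cw F αB) (QW0 φ W) := hfxc _ hζBc
    rw [e1, hβ'.add _ (Submodule.smul_mem _ _ e2) _ (hNfx l), hβ'.smul _ _ e2, hζ]
  have hrel : ∑ l, ((t l * la l r) • rt xQ yQ 1 + β' (N l)) * (β' (a l) * rt xQ yQ 1) = 0 := by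
    have e1 : β' (∑ l, Dl l (β (D r)) * rt xB yB (a l)) = 0 := by rw [hsum, hβ0]
    have e2 : ∀ l, rt xB yB (a l) ∈ FxR (cw F αB) (QW0 φ W) := fun l =>
      hfxc _ (rt_central zrt hrfB (ha l))
    have e3 : ∀ l, Dl l (β (D r)) ∈ FxR (cw F αB) (QW0 φ W) := fun l => hfxc _ (hN l).1
    rw [bq_sum hβ' _ _ fun l _ => fx_mul αB _ (e3 l) (e2 l)] at e1
    rw [← e1]
    refine Finset.sum_congr rfl fun l _ => ?_
    rw [hβ'.mul _ (e3 l) _ (e2 l), hDN, hrta]
  refine ⟨fun l => u₀ * β' (N l), fun l => ⟨?_, ?_⟩, ?_⟩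
  · obtain ⟨k, hk⟩ := hN'n l
    refine ⟨k, ?_⟩
    rw [Commute.mul_pow (hu₀c _), hk, mul_zero]
  · intro s
    rw [mul_assoc, hN'c l s, ← mul_assoc, hu₀c s, mul_assoc]
  · have e1 : ∀ l, (algebraMap F BQ (t l * la l r) + u₀ * β' (N l)) * ∑ u, xx l u • w u =
        u₀ * (((t l * la l r) • rt xQ yQ 1 + β' (N l)) * (β' (a l) * rt xQ yQ 1)) * u₀ := by
      intro l
      rw [hcl' l]
      calc (algebraMap F BQ (t l * la l r) + u₀ * β' (N l)) * β' (a l)
          = (u₀ * ((t l * la l r) • rt xQ yQ 1 + β' (N l))) * β' (a l) := by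
            rw [mul_add, mul_smul_comm, hu₀, Algebra.algebraMap_eq_smul_one]
        _ = (u₀ * ((t l * la l r) • rt xQ yQ 1 + β' (N l))) * β' (a l) * (rt xQ yQ 1 * u₀) := by
            rw [hu₁, mul_one]
        _ = _ := by simp only [mul_assoc]
    rw [Finset.sum_congr rfl fun l _ => e1 l, ← Finset.sum_mul, ← Finset.mul_sum, hrel, mul_zero,
      zero_mul]

end Pool.Agent.PST.H70
end
end -- Pool.Agent.Helper70_PST.VTX

section -- Pool.Agent.Helper84_PST.KYA

/-!
# Squad PST, block KEY, row KYA: assembly of `KeyStmt`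
-/

open scoped BigOperators

noncomputable section

namespace Pool.Agent.PST.H84

open Pool.Agent.PFC (tw IsTv)
open Pool.Agent.PFD.D2 (Cdv FibG)
open Pool.Agent.PFD.D2b (FrR)
open Pool.Agent.PSS
open Pool.Agent.PSS.S0 (IsBQ)
open Pool.Agent.PSS.S0.H84 (mem_fx bq_sub fx_anti)

/-- the centraliser of `S` in `E` -/
def cenE {V E : Type} [CommGroup V] [Group E] (φ : E →* MulAut V) (S : Subgroup V) :
    Subgroup E where
  carrier := {e | ∀ s ∈ S, φ e s = s}
  one_mem' := by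
    intro s _
    rw [map_one]
    rfl
  mul_mem' := by
    intro e e' h h' s hs
    rw [map_mul, MulAut.mul_apply, h' s hs, h s hs]
  inv_mem' := by
    intro e h s hs
    have h1 := h s hs
    rw [map_inv]
    calc (φ e)⁻¹ s = (φ e)⁻¹ (φ e s) := by rw [h1]
      _ = s := MulAut.inv_apply_self _ _ _

theorem mem_cenE {V E : Type} [CommGroup V] [Group E] (φ : E →* MulAut V) (S : Subgroup V)
    (e : E) : e ∈ cenE φ S ↔ ∀ s ∈ S, φ e s = s := Iff.rfl

section d1

variable {V B : Type} [CommGroup V] [Ring B]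

theorem d1_wb2 (β : V →* B) (W : Subgroup V) (g : B → B) (hg : WBl β W g) :
    WB2 β W (d1 g) := by
  intro w hw x y
  refine ⟨?_, ?_, ?_⟩
  · simp only [d1]
    rw [mul_assoc (β w) x y, (hg w hw (x * y)).1, (hg w hw x).1]
    noncomm_ring
  · simp only [d1]
    rw [(hg w hw x).2, (hg w hw y).1]
    simp only [mul_assoc]
  · simp only [d1]
    rw [(hg w hw y).2, ← mul_assoc x y (β w), (hg w hw (x * y)).2]
    noncomm_ring

theorem d1_nrm (g : B → B) (hg : g 1 = 0) : Nrm (d1 g) := by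
  constructor
  · intro x
    simp only [d1]
    rw [hg, one_mul, one_mul, zero_mul, add_zero, sub_self]
  · intro x
    simp only [d1]
    rw [hg, mul_one, mul_one, mul_zero, zero_sub, neg_add_cancel]

theorem d1_dl (g : B → B) (x y z : B) : dl (d1 g) x y z = 0 := by
  simp only [dl, d1, mul_assoc]
  noncomm_ring

end d1

/-- KYA -/
theorem kya : KyaStmt := by
  classical
  intro drx oba lfx obw obx obr ycb vtx lal qwv bqx bpu bcl
  intro ℓ _ R K F V E A A₀ B κ Ω _ _ _ _ _ _ _ _ _ _ _ _ _ _ _ _ _ _ _ _ _ _ _ _ _ _ φ W cv f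
    α₀ lam₀ x₀ y₀ b₀ c₀ α lam x y b c u₁ C n la χ xx t D g hpg hcop hpi hch hcl hst hfr0 hrf0 hlv
    hu₁ hdrd hgW hg1 hgi hekc m₁ cc hm₁ hcc hbi
  have hl : (ℓ : F) = 0 := CharP.cast_eq_zero F ℓ
  have hK : Kx ℓ φ W C f α₀ lam₀ x₀ y₀ b₀ c₀ :=
    ⟨hpg, hcop, hpi, hch, hcl, hst, hfr0, hrf0, hlv⟩
  obtain ⟨-, hQ⟩ := qwv ℓ V E φ W hpg hcop hch.sw
  refine obr ℓ R K F V E A A₀ B κ Ω φ W α lam x y b c C cv f α₀ lam₀ x₀ y₀ b₀ c₀ cc hK hcc hQ ?_
  -- the Brauer quotient at `Q`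
  obtain ⟨BQ, _, _, αQ, βQ, hBQ⟩ := bqx F V A₀ α₀ (QW0 φ W)
  obtain ⟨-, -, lamQ, KQ, _, xQ, yQ, hrfQ, hlamQ⟩ := bpu ℓ F V E A₀ BQ κ φ α₀ (QW0 φ W) αQ βQ
    lam₀ x₀ y₀ (cenE φ (QW0 φ W)) hl hpg hcl.per hcl.uni hrf0 hBQ (mem_cenE φ _)
  have hfin : FiniteDimensional F BQ :=
    (bcl ℓ F V E A₀ BQ φ α₀ (QW0 φ W) αQ βQ (cenE φ (QW0 φ W)) hpg hcop hcl hBQ
      (mem_cenE φ _)).fin
  have hex : ∀ u v : V, ∃ w : BQ, (∀ s, w * s = s * w) ∧ (u ∈ QW0 φ W → v ∈ QW0 φ W →
      ∀ z ∈ FxR (cw R α) (QW0 φ W), ∀ ρ : R,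
        algebraMap R K ρ = (ℓ : K) * C.lamK (C.i z * kp C.i α cc u v) →
        lamQ (βQ (f.q z) * w) = cv.κ ρ) := by
    intro u v
    by_cases huv : u ∈ QW0 φ W ∧ v ∈ QW0 φ W
    · obtain ⟨w, hw1, hw2⟩ := obw ℓ R K F V E A A₀ B κ Ω BQ KQ φ W α lam x y b c C cv f α₀ lam₀
        x₀ y₀ b₀ c₀ cc (QW0 φ W) αQ βQ lamQ xQ yQ hK hcc hBQ hrfQ hlamQ u huv.1 v huv.2
      exact ⟨w, hw1, fun _ _ => hw2⟩
    · exact ⟨0, fun s => by rw [zero_mul, mul_zero], fun h1 h2 => absurd ⟨h1, h2⟩ huv⟩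
  choose w hwc hw using hex
  obtain ⟨o1, o2, o3, o4, o5⟩ := obx ℓ R K F V E A A₀ B κ Ω BQ KQ φ W α lam x y b c C cv f α₀ lam₀
    x₀ y₀ b₀ c₀ cc (QW0 φ W) αQ βQ lamQ xQ yQ w hK hcc hBQ hrfQ hlamQ
    (fun u hu v hv => hw u v hu hv)
  have hmain : ∀ u ∈ QW0 φ W, ∀ v ∈ QW0 φ W, w u v = 0 := by
    -- the relation
    have hrel : ∀ r ∈ QW0 φ W, r ∉ W → ∃ m : Fin n → BQ,
        (∀ l, IsNilpotent (m l) ∧ ∀ s, m l * s = s * m l) ∧
        ∑ l, (algebraMap F BQ (t l * la l r) + m l) * ∑ u, xx l u • w u r = 0 := by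
      intro r hrQ hrW
      obtain ⟨Br, _, _, αB, β, hB⟩ := bqx F V A₀ α₀ (Subgroup.zpowers r)
      obtain ⟨-, -, lamB, KB, _, xB, yB, hrfB, hlamB⟩ := bpu ℓ F V E A₀ Br κ φ α₀
        (Subgroup.zpowers r) αB β lam₀ x₀ y₀ (cenE φ (Subgroup.zpowers r)) hl hpg hcl.per hcl.uni
        hrf0 hB (mem_cenE φ _)
      have hm₁' : (fun a b => m₁ a b) = d1 g := by
        funext a b
        exact hm₁ a b
      obtain ⟨δ, hδ1, hδ2, hδ3, hδ4⟩ := drx ℓ R K F V E A A₀ B κ Ω Br KB φ W α lam x y b c C cv f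
        α₀ lam₀ x₀ y₀ b₀ c₀ m₁ cc r αB β lamB xB yB hK
        (by rw [hm₁']; exact d1_wb2 _ W g hgW) (by rw [hm₁']; exact d1_nrm g hg1)
        (fun a₁ a₂ => by rw [hm₁]; exact hgi a₁ a₂)
        (fun a₁ a₂ a₃ => by rw [hm₁']; exact d1_dl g a₁ a₂ a₃) hcc hbi hrW (hch.pw r) hB hrfB
        hlamB
      -- the element `e`
      obtain ⟨e, he⟩ : ∃ e : A, C.i e = ∑ j ∈ Finset.range ℓ,
          d1 g (C.i (α (r ^ j))) (C.i (α r)) * C.i (α (r ^ (j + 1))⁻¹) := by
        choose a ha using fun j : ℕ => hgi (α (r ^ j)) (α r)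
        refine ⟨∑ j ∈ Finset.range ℓ, a j * α (r ^ (j + 1))⁻¹, ?_⟩
        rw [map_sum]
        refine Finset.sum_congr rfl fun j _ => ?_
        rw [map_mul, ha]
      obtain ⟨he1, he2⟩ := ycb ℓ R K F V A A₀ B κ Ω Br W α lam x y b c C cv f α₀ lam₀ x₀ y₀ b₀ c₀
        g r e αB β hpg hfr0 hlv hgW hg1 hgi hrW (hch.pw r) hB he
      have hDr : D r ∈ FxR (cw F α₀) (Subgroup.zpowers r) := fx_anti α₀ le_top (hdrd.fx r)
      have hβ : β (D r) = β (f.q e) := by
        have h1 := (hB.ker _ (Submodule.sub_mem _ he1 hDr)).2 (hekc r hrW e he)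
        rw [bq_sub hB he1 hDr] at h1
        exact (sub_eq_zero.1 h1).symm
      have hδ0 : δ (β (D r)) = 0 := by
        rw [hβ]
        refine hδ4 e ?_
        rw [he]
        exact Finset.sum_congr rfl fun j _ => by rw [hm₁]
      refine vtx ℓ F V E A₀ Br BQ κ KB KQ φ α₀ lam₀ x₀ y₀ W n la χ xx t D r αB β lamB xB yB αQ βQ
        lamQ xQ yQ δ (fun u => w u r) hpg hcop hch hcl hrf0 hdrd hrQ hrW hB hrfB hlamB hBQ hrfQ
        hlamQ hδ1 hδ2 (by rw [hβ]; exact he2) hδ0 (fun u _ s => hwc u r s) ?_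
      intro u hu z₀ hz₀
      obtain ⟨z, hz, rfl⟩ := (lfx R F V A A₀ κ Ω cv f α₀ lam₀ x₀ y₀ b₀ c₀ α lam x y b c hfr0 hlv
        (QW0 φ W)).1 z₀ hz₀
      have hzc := (mem_fx (R := R) α (QW0 φ W) z).1 hz
      obtain ⟨ρ, hρ⟩ := (oba R K V A B κ Ω W α lam x y b c C cc hcc).2.2.2 z ℓ u r
        (hzc u hu).symm (hzc r hrQ).symm (hch.pw u)
      rw [hδ3 z u ρ (hzc r hrQ).symm (hzc u hu).symm hρ]
      exact (hw u r hu hrQ z hz ρ hρ).symm
    -- linear algebra in the centre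
    let w' : V → V → Subalgebra.center F BQ := fun u v =>
      ⟨w u v, Subalgebra.mem_center_iff.2 fun s => (hwc u v s).symm⟩
    have hw' : ∀ u v, ((w' u v : Subalgebra.center F BQ) : BQ) = w u v := fun u v => rfl
    have h0 := lal F V E (Subalgebra.center F BQ) φ W (QW0 φ W) n la χ xx t w' hdrd.eg hQ
      (fun u hu u' hu' v hv => Subtype.ext (o1 u hu u' hu' v hv))
      (fun u hu v hv => Subtype.ext (o2 u hu v hv)) (fun u hu => Subtype.ext (o3 u hu))
      (fun u hu v hv h => Subtype.ext (o4 u hu v hv h)) (by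
      intro r hrQ hrW
      obtain ⟨m, hm1, hm2⟩ := hrel r hrQ hrW
      refine ⟨fun l => ⟨m l, Subalgebra.mem_center_iff.2 fun s => ((hm1 l).2 s).symm⟩, ?_, ?_⟩
      · intro l
        obtain ⟨k, hk⟩ := (hm1 l).1
        exact ⟨k, Subtype.ext hk⟩
      · have hinj : Function.Injective (Subalgebra.center F BQ).val := Subtype.coe_injective
        apply hinj
        rw [map_sum, map_zero, ← hm2]
        refine Finset.sum_congr rfl fun l _ => ?_
        rw [map_mul, map_add, AlgHom.commutes, map_sum]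
        rfl)
    intro u hu v hv
    exact congrArg Subtype.val (h0 u hu v hv)
  intro u hu v hv z hz
  exact o5 u hu v hv (hmain u hu v hv) z hz

end Pool.Agent.PST.H84
end
end -- Pool.Agent.Helper84_PST.KYA
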