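import Pool.Agent.Helper12_AWB.B023

/-!
# Merged copies (generated) of the modules

* `Pool.Agent.PST.StmtsK2`
* `Pool.Agent.Helper10_PST.ECR`
* `Pool.Agent.Helper13_PST.PAI`
* `Pool.Agent.Helper29_PST.XPR`
* `Pool.Agent.Helper41_PST.BKZ`
* `Pool.Agent.Helper51_PST.RZL`
* `Pool.Agent.Helper6_PST.XCM`
* `Pool.Agent.Helper79_PST.TRL`
* `Pool.Agent.Helper81_PST.DRX`
* `Pool.Agent.Helper91_PST.REL`
* `Pool.Agent.Helper95_PST.EYR`
-/

set_option autoImplicit false

section -- Pool.Agent.PST.StmtsK2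

/-!
# Squad PST, block KEY, part 2 (helper43): one vertex `⟨r⟩`

`A` is an order in the `K`-algebra `B` (`C : KC ..`), `cc` a relative 2-cocycle of `A` with values in `B / A`,
`r ∈ V`, `r ^ ℓ ∈ W`.  Complete proofs in the docstrings.

* `Ecx i c p j s`: the ring `X` is the extension of `A` by the bimodule `B / i A` given by `c`: every element of `X`
  is `s a + j m`, `j m` depends only on `m` modulo `i A`, `s a * s a' = s (a a') + j (c a a')`.
* `Eyx ..`: the ring `Y`, a deformation of `X` over `ℤ[σ]/(σ²)` whose first order term on `A` is `μ`.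
* `xcm i c r k a`: the commutator of `s a` with `rh = s r + j k` is `j (xcm i c r k a)` if `a` commutes with `r`.

We write `a` for `i a`, and `≡` for congruence modulo `i A`.  `rh ^ ℓ = s w`, `w = r ^ ℓ`.
-/

open scoped BigOperators TensorProduct

noncomputable section

namespace Pool.Agent.PST

open Pool.Agent.PFC (tw IsTv)
open Pool.Agent.PFD.D2 (Cdv FibG)
open Pool.Agent.PFD.D2b (FrR)
open Pool.Agent.PSS
open Pool.Agent.PSS.S0 (IsBQ)
open Finset

/-! ## 1. The rings -/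

/-- biadditive maps -/
structure Bad {B : Type} [Ring B] (c : B → B → B) : Prop where
  l : ∀ x y z, c (x + y) z = c x z + c y z
  r : ∀ x y z, c x (y + z) = c x y + c x z

/-- the ring `X` is the extension of `A` by `B / i A` given by the cocycle `c` -/
structure Ecx {A B X : Type} [Ring A] [Ring B] [Ring X] (i : A → B) (c : B → B → B)
    (p : X →+* A) (j : B →+ X) (s : A →+ X) : Prop where
  ps : ∀ a, p (s a) = a
  pj : ∀ m, p (j m) = 0
  ker : ∀ x, p x = 0 → ∃ m, x = j m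
  j0 : ∀ m, j m = 0 ↔ In i m
  jj : ∀ m m', j m * j m' = 0
  sj : ∀ a m, s a * j m = j (i a * m)
  js : ∀ a m, j m * s a = j (m * i a)
  ss : ∀ a a', s a * s a' = s (a * a') + j (c (i a) (i a'))
  s1 : s 1 = 1

/-- the ring `Y`: `Y / σ Y = X`, and `σ` is central with `σ² = 0` -/
structure Eyx {A B X Y : Type} [Ring A] [Ring B] [Ring X] [Ring Y] (i : A → B) (n : A → A → A)
    (μ c d : B → B → B) (jX : B →+ X) (sX : A →+ X) (π : Y →+* X) (j : B →+ Y) (s : A →+ Y)
    (σ : Y) : Prop where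
  πs : ∀ a, π (s a) = sX a
  πj : ∀ m, π (j m) = jX m
  πσ : π σ = 0
  ker : ∀ y, π y = 0 → ∃ y', y = σ * y'
  inj : ∀ y, σ * y = 0 → π y = 0
  cen : ∀ y, σ * y = y * σ
  sq : σ * σ = 0
  j0 : ∀ m, In i m → j m = 0
  jj : ∀ m m', j m * j m' = 0
  sj : ∀ a m, s a * j m = j (i a * m) + σ * j (μ (i a) m)
  js : ∀ a m, j m * s a = j (m * i a) + σ * j (μ m (i a))
  ss : ∀ a a', s a * s a' =
    s (a * a') + σ * s (n a a') + j (c (i a) (i a')) + σ * j (d (i a) (i a'))
  s1 : s 1 = 1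

/-- ECR: the ring `X` exists.

Proof.  `H` = the additive subgroup `i.range` of `B` (`(i : A →+ B).range`), `M = B ⧸ H`; `X` = a structure with fields
`a : A`, `m : M`.  Left and right multiplication by `i a` map `H` to `H` and give additive maps `L a, R a : M →+ M`
(`QuotientAddGroup.map`), additive and (anti)multiplicative in `a`, `L a (R a' m) = R a' (L a m)`.
`(a, m) (a', m') = (a a', L a m' + R a' m + [c (i a) (i a')])`, unit `(1, 0)` (`Nrm c`).  Distributivity: `c` is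
biadditive.  Associativity in the second component: `L`, `R` and
`[c (a a') a''] + R a'' [c a a'] = [c a (a' a'')] + L a [c a' a'']`, which is the cocycle identity (`dl`).
`p (a, m) = a`, `j m = (0, [m])`, `s a = (a, 0)`. -/
def EcrStmt : Prop := ∀ (A B : Type) [Ring A] [Ring B] (i : A →+* B) (c : B → B → B),
  Bad c → Nrm c → (∀ a₁ a₂ a₃, In i (dl c (i a₁) (i a₂) (i a₃))) →
  ∃ (X : Type) (_ : Ring X) (p : X →+* A) (j : B →+ X) (s : A →+ X), Ecx i c p j s

/-- EYR: the ring `Y` exists.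

Proof.  `n a a'` = the element of `A` with `i (n a a') = μ (i a) (i a')`; by injectivity of `i` it is biadditive,
normalised, and `a n(a',a'') - n(a a',a'') + n(a,a' a'') - n(a,a') a'' = 0`.  `M = B ⧸ H` as in ECR; as `μ` maps
`i A × i A` to `i A`, it induces biadditive maps `A × M → M`, `M × A → M`.  `Y` = a structure with fields `a0 a1 : A`,
`m0 m1 : M` (for `a0 + σ a1 + m0 + σ m1`), with
`(a0,a1,m0,m1) (a0',a1',m0',m1') = (a0 a0', a0 a1' + a1 a0' + n a0 a0', a0 m0' + m0 a0' + [c a0 a0'],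
a0 m1' + a1 m0' + m0 a1' + m1 a0' + μ(a0,m0') + μ(m0,a0') + [c a1 a0'] + [c a0 a1'] + [d a0 a0'])`,
unit `(1,0,0,0)`.  Associativity in the last component: the cocycle identities of `μ` at `(m,a,a')`, `(a,m,a')`,
`(a,a',m)`, the cocycle identity of `c` with one argument `a1`, and
`d(a a',a'') + d(a,a') a'' + μ(c(a,a'),a'') + c(n(a,a'),a'') = d(a,a' a'') + a d(a',a'') + μ(a,c(a',a'')) + c(a,n(a',a''))`
modulo `H`, which is `hb`.  `π (a0,a1,m0,m1) = sX a0 + jX m0` (`jX` factors through `M` by `Ecx.j0`; a ring homomorphism by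
`Ecx.ss, sj, js, jj`), `s a = (a,0,0,0)`, `j m = (0,0,[m],0)`, `σ = (0,1,0,0)`:
`σ (a0,a1,m0,m1) = (0,a0,0,m0)` (`Nrm`), the same on the right.  `inj`: `(0,a0,0,m0) = 0` gives `π = 0`.  `ker`:
`sX a0 + jX m0 = 0`: apply `p`: `a0 = 0`, so `m0 = 0` in `M` (`j0`): the element is `(0,a1,0,m1) = σ (a1,0,m1,0)`. -/
def EyrStmt : Prop := ∀ (A B X : Type) [Ring A] [Ring B] [Ring X] (i : A →+* B)
  (μ c d : B → B → B) (p : X →+* A) (j : B →+ X) (s : A →+ X), Function.Injective i →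
  Bad μ → Bad c → Bad d → Nrm μ → Nrm c → Nrm d → (∀ a₁ a₂, In i (μ (i a₁) (i a₂))) →
  (∀ x y z, dl μ x y z = 0) → (∀ a₁ a₂ a₃, In i (dl c (i a₁) (i a₂) (i a₃))) →
  (∀ a₁ a₂ a₃, In i (brk μ c (i a₁) (i a₂) (i a₃) - dl d (i a₁) (i a₂) (i a₃))) →
  Ecx i c p j s →
  ∃ (n : A → A → A) (Y : Type) (_ : Ring Y) (π : Y →+* X) (jY : B →+ Y) (sY : A →+ Y) (σ : Y),
    (∀ a a', i (n a a') = μ (i a) (i a')) ∧ Eyx i n μ c d j s π jY sY σ

/-- REL (uses EYR): the relation.

Proof.  `Y` from EYR, `y0 = sY r + jY k`, so `π y0 = s r + j k =: rh`.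
(1) `y0` commutes with `sY w`: `sY w * sY r = sY (w r) = sY (r w) = sY r * sY w` (`n w r = 0` etc. by `hw`, `i` injective),
`sY w * jY k = jY (w k) + σ jY (μ w k) = jY (k w) = jY k * sY w`.
(2) By induction on `t`: `y0 ^ t = sY (r ^ t) + σ sY (n_t) + jY g + σ jY g'` for some `g, g'`, where
`n_0 = 0`, `n_(t+1) = n_t r + n (r ^ t) r`, so `n_t = ∑_(q<t) n (r ^ q) r * r ^ (t-1-q)`; hence `n_ℓ = e`.
(3) `π (y0 ^ ℓ) = rh ^ ℓ = s w = π (sY w)`: `y0 ^ ℓ = sY w + σ y1` (`ker`).  `y0` commutes with `y0 ^ ℓ` and with `sY w`, so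
`σ (y0 y1 - y1 y0) = 0`, and `rh * π y1 = π y1 * rh` (`inj`).
(4) By (2) `sY w + σ sY e + jY g + σ jY g' = sY w + σ y1`; apply `π`: `j g = 0`, so `In i g` and `jY g = 0`;
`σ (y1 - sY e - jY g') = 0`, `π y1 = s e + j g'`: `f = g'`. -/
def RelStmt : Prop := ∀ (A B X : Type) [Ring A] [Ring B] [Ring X] (i : A →+* B)
  (μ c d : B → B → B) (p : X →+* A) (j : B →+ X) (s : A →+ X) (ℓ : ℕ) (r w e : A) (k : B),
  Function.Injective i → Bad μ → Bad c → Bad d → Nrm μ → Nrm c → Nrm d →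
  (∀ a₁ a₂, In i (μ (i a₁) (i a₂))) → (∀ x y z, dl μ x y z = 0) →
  (∀ a₁ a₂ a₃, In i (dl c (i a₁) (i a₂) (i a₃))) →
  (∀ a₁ a₂ a₃, In i (brk μ c (i a₁) (i a₂) (i a₃) - dl d (i a₁) (i a₂) (i a₃))) →
  Ecx i c p j s → r ^ ℓ = w →
  (∀ x, μ (i w) x = 0 ∧ μ x (i w) = 0 ∧ c (i w) x = 0 ∧ c x (i w) = 0 ∧ d (i w) x = 0 ∧
    d x (i w) = 0) → i w * k = k * i w → (s r + j k) ^ ℓ = s w →
  i e = ∑ t ∈ range ℓ, μ (i r ^ t) (i r) * i r ^ (ℓ - 1 - t) →
  ∃ f : B, (s r + j k) * (s e + j f) = (s e + j f) * (s r + j k)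

/-! ## 2. Commutators with the lift of `r` -/

/-- the commutator of the lift of `a` with `s r + j k` -/
def xcm {A B : Type} [Ring A] [Ring B] (i : A → B) (c : B → B → B) (r : A) (k : B) (a : A) : B :=
  c (i a) (i r) - c (i r) (i a) + (i a * k - k * i a)

/-- XCM: the commutator, and the product rule.

Proof.  (1) `ss`, `sj`, `js`.  (2) `rh = s r + j k`; `s (a b) = s a * s b - j (c a b)`; `[x y, rh] = x [y, rh] + [x, rh] y`,
(1) for `a`, `b`, `a b` and `[j m, rh] = j (m r - r m)`; conclude with `j0`.  (3) Apply `p`; then (1) and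
`[j f, rh] = j (f r - r f)`. -/
def XcmStmt : Prop := ∀ (A B X : Type) [Ring A] [Ring B] [Ring X] (i : A →+* B) (c : B → B → B)
  (p : X →+* A) (j : B →+ X) (s : A →+ X) (r : A) (k : B), Ecx i c p j s →
  (∀ a, a * r = r * a → s a * (s r + j k) - (s r + j k) * s a = j (xcm i c r k a)) ∧
  (∀ a b, a * r = r * a → b * r = r * b → In i (xcm i c r k (a * b) -
    (xcm i c r k a * i b + i a * xcm i c r k b) + (c (i a) (i b) * i r - i r * c (i a) (i b)))) ∧
  ∀ e f, (s r + j k) * (s e + j f) = (s e + j f) * (s r + j k) →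
    e * r = r * e ∧ In i (xcm i c r k e + (f * i r - i r * f))

/-- XPR (uses XCM): norms and traces.

Proof.  `rh = s r + j k`, `rh ^ ℓ = s w`.  (1) `s a * s w = s (a w) = s w * s a` (`a w = w a` since `w = r ^ ℓ`), so
`0 = s a * rh ^ ℓ - rh ^ ℓ * s a = ∑_t rh ^ t (s a * rh - rh * s a) rh ^ (ℓ-1-t) = ∑_t rh ^ t * j x_a * rh ^ (ℓ-1-t)
= j (∑_t r ^ t x_a r ^ (ℓ-1-t))` (`rh * j m = j (r m)`, `j m * rh = j (m r)`).  (2) `w` has the inverse `w' = r' ^ ℓ`, and
`s w * s w' = 1 = s w' * s w` (`hw`), so `rh' = rh ^ (ℓ-1) * s w'` is a right and (as `rh` commutes with `s w`, hence with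
`s w'`) left inverse of `rh` (`ℓ ≥ 1`).  `ah = ∑_(t<ℓ) rh ^ t * s m * rh' ^ t`: `rh * ah * rh' = ah - s m + rh ^ ℓ * s m * rh' ^ ℓ
= ah`, as `s w` commutes with `s m` (`hw`, `m w = w m`).  `p ah = a`, so `ah = s a + j h`, and `rh * ah = ah * rh`: XCM (3). -/
def XprStmt : Prop := ∀ (A B X : Type) [Ring A] [Ring B] [Ring X] (i : A →+* B) (c : B → B → B)
  (p : X →+* A) (j : B →+ X) (s : A →+ X) (ℓ : ℕ) (r r' w : A) (k : B), 0 < ℓ → Ecx i c p j s →
  r * r' = 1 → r' * r = 1 → r ^ ℓ = w → (s r + j k) ^ ℓ = s w →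
  (∀ x, c (i w) x = 0 ∧ c x (i w) = 0) → (∀ x, c (i (r' ^ ℓ)) x = 0 ∧ c x (i (r' ^ ℓ)) = 0) →
  (∀ a, a * r = r * a →
    In i (∑ t ∈ range ℓ, i r ^ t * xcm i c r k a * i r ^ (ℓ - 1 - t))) ∧
  ∀ m, m * w = w * m → ∃ h : B,
    In i (xcm i c r k (∑ t ∈ range ℓ, r ^ t * m * r' ^ t) + (h * i r - i r * h))

/-! ## 3. The context `KC` -/

section ctx

variable {R K V A B κ Ω : Type} [CommRing R] [Field K] [Algebra R K] [CommGroup V]
  [Fintype V] [Ring A] [Algebra R A] [Ring B] [Algebra R B] [Algebra K B] [Fintype κ] [Fintype Ω]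
  [MulAction (V × V) Ω] {α : V →* A} {lam : A →ₗ[R] R} {x y : κ → A} {b : Ω → A}
  {c : Ω → (A →ₗ[R] R)}

/-- `lamK (y * X(a) * r⁻¹)`, `X(a)` the commutator -/
def par (C : KC R K B α lam x y b c) (cc : B →ₗ[K] B →ₗ[K] B) (r : V) (k : B) (y' a : A) : K :=
  C.lamK (C.i y' * xcm C.i (fun a b => cc a b) (α r) k a * C.i (α r⁻¹))

end ctx

/-- NRK: a lift `rh` with `rh ^ ℓ = s (r ^ ℓ)`.

Proof.  By induction `(s r) ^ t = s (r ^ t) + j (z_t r ^ t)`, `z_t = ∑_(q<t) cc (r ^ q) r * r ^ -(q+1)`.  `z = z_ℓ` commutes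
exactly with `W` (`Z2.rel`: `w cc (r ^ q, r) = cc (w r ^ q, r) = cc (r ^ q w, r) = cc (r ^ q, r w) = cc (r ^ q, r) w`).
`s r` commutes with `(s r) ^ ℓ = s w + j (z w)` and with `s w` (`w = r ^ ℓ ∈ W`, `cc w _ = 0 = cc _ w` by `Z2.rel`, `Z2.nrm`), so
`j (r z w - z w r) = 0`: `r z r⁻¹ - z ≡ 0`.  `PSS.FxlStmt` (proved: `Pool.Agent.PSS.H63.fxl`) for the subgroup
`X = {(v, v) | v ∈ zpowers r ⊔ W}` (the set of the `v` with `v z v⁻¹ ≡ z` is a subgroup): `z'` commuting with `r` and `W`,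
`z' ≡ z`.  `k = - ℓ⁻¹ • (z' * r)`.  `(s r + j k) ^ ℓ = (s r) ^ ℓ + j (∑_t r ^ t k r ^ (ℓ-1-t))` (`jj`; by induction)
`= s w + j (z w) + j (ℓ k r ^ (ℓ-1)) = s w + j (z w - z' w) = s w`. -/
def NrkStmt : Prop :=
  ∀ (R K V A B κ Ω X : Type) [CommRing R] [Field K] [CharZero K] [Algebra R K] [CommGroup V]
    [Fintype V] [Ring A] [Algebra R A] [Ring B] [Algebra R B] [Algebra K B] [Fintype κ]
    [Fintype Ω] [MulAction (V × V) Ω] [Ring X] (W : Subgroup V) (α : V →* A)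
    (lam : A →ₗ[R] R) (x y : κ → A) (b : Ω → A) (c : Ω → (A →ₗ[R] R))
    (C : KC R K B α lam x y b c) (cc : B →ₗ[K] B →ₗ[K] B) (p : X →+* A) (j : B →+ X)
    (s : A →+ X) (ℓ : ℕ) (r : V), 0 < ℓ → r ^ ℓ ∈ W → Z2 C W cc →
    Ecx C.i (fun a b => cc a b) p j s →
    ∃ k : B, (∀ w ∈ W, C.i (α w) * k = k * C.i (α w)) ∧
      C.i (α r) * k = k * C.i (α r) ∧ (s (α r) + j k) ^ ℓ = s (α (r ^ ℓ))

/-- PAI (uses ECR NRK EYR REL XCM XPR; assemble): the pairing `par C cc r k`.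

Proof.  ECR for `i = C.i` (as a ring homomorphism), `cc` (`Z2.nrm`, `Z2.cyc`, linearity): `X`, `p`, `j`, `s`; NRK: `k`.
`r' = α r⁻¹`, `w = α (r ^ ℓ)`; `cc w x = 0 = cc x w` for `w ∈ W` (`Z2.rel`, `Z2.nrm`: `cc (w * 1) x = w * cc 1 x`,
`cc x w = cc x (1 * w) = cc x 1 * w`), the same for `r' ^ ℓ = α (r ^ ℓ)⁻¹`.  `lamK` is symmetric (`rfK.sym`), maps `i A` to
the image of `R` (`lk`).
(a) For `y', a` commuting with `r`: `z = xcm a * r⁻¹`; by XPR (1) `N = ∑_t r ^ t z r ^ -t ∈ i A` (multiply by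
`r ^ -ℓ` on the right), and `lamK (y' N) = ∑_t lamK (r ^ -t y' r ^ t z) = ℓ lamK (y' z)`.
(b) `a = ∑_t r ^ t m r ^ -t`: by XPR (2) `xcm a ≡ r h - h r`, and `lamK (y' (r h - h r) r⁻¹) =
lamK (y' r h r⁻¹) - lamK (y' h) = 0`.
(c) `y' = ∑_t r ^ t m r ^ -t`: `lamK (y' z) = ∑_t lamK (m r ^ -t z r ^ t)`, `∑_t r ^ -t z r ^ t` is in `i A`: it is
`r ^ (1-ℓ) N' r ^ (ℓ-1)`, `N' = ∑_t r ^ (ℓ-1-t) z r ^ -(ℓ-1-t) = N`.
(d) XCM (2), with `lamK (y' (cc r - r cc) r⁻¹) = 0` for `cc = cc a b` (`y'` commutes with `r`), and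
`lamK (y' xcm(a) b r⁻¹) = lamK (b y' xcm(a) r⁻¹)` (`b` commutes with `r`).
(e) `xcm w = 0` (`cc w _ = cc _ w = 0`, `k` commutes with `w`).
(f) `xcm g = cc g r - cc r g + (g k - k g)` and `lamK (g⁻¹ y' (g k - k g) r⁻¹) = 0`, since `y'` commutes with `g`:
`g⁻¹ y' g k r⁻¹ = y' k r⁻¹` and `lamK (g⁻¹ y' k g r⁻¹) = lamK (y' k r⁻¹)`.
(g) REL with `μ = m₁`, `d = - c'` (`Bi`), `e = e' w`: `C.i (e' w) = ∑_t m₁ (r ^ t) r * r ^ -(t+1) * r ^ ℓ`; XCM (3): `e' w`
commutes with `r` (so does `e'`), `xcm (e' w) ≡ r f - f r`, and `lamK (y' (r f - f r) r⁻¹) = 0` as in (b). -/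
def PaiStmt : Prop :=
  ∀ (R K V A B κ Ω : Type) [CommRing R] [Field K] [CharZero K] [Algebra R K] [CommGroup V]
    [Fintype V] [Ring A] [Algebra R A] [Ring B] [Algebra R B] [Algebra K B] [Fintype κ]
    [Fintype Ω] [MulAction (V × V) Ω] (W : Subgroup V) (α : V →* A)
    (lam : A →ₗ[R] R) (x y : κ → A) (b : Ω → A) (c : Ω → (A →ₗ[R] R))
    (C : KC R K B α lam x y b c) (m₁ cc : B →ₗ[K] B →ₗ[K] B) (ℓ : ℕ) (r : V), 0 < ℓ →
    r ^ ℓ ∈ W → WB2 (ia C.i α) W (fun a b => m₁ a b) → Nrm (fun a b => m₁ a b) →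
    (∀ a₁ a₂, In C.i (m₁ (C.i a₁) (C.i a₂))) → (∀ x y z, dl (fun a b => m₁ a b) x y z = 0) →
    Z2 C W cc → Bi C W m₁ cc →
    ∃ k : B,
      (∀ y' a, y' * α r = α r * y' → a * α r = α r * a →
        In (algebraMap R K) ((ℓ : K) * par C cc r k y' a)) ∧
      (∀ y' m, y' * α r = α r * y' → m * α (r ^ ℓ) = α (r ^ ℓ) * m →
        In (algebraMap R K) (par C cc r k y' (∑ t ∈ range ℓ, α (r ^ t) * m * α (r ^ t)⁻¹))) ∧
      (∀ m a, a * α r = α r * a → m * α (r ^ ℓ) = α (r ^ ℓ) * m →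
        In (algebraMap R K) (par C cc r k (∑ t ∈ range ℓ, α (r ^ t) * m * α (r ^ t)⁻¹) a)) ∧
      (∀ y' a a', y' * α r = α r * y' → a * α r = α r * a → a' * α r = α r * a' →
        In (algebraMap R K) (par C cc r k y' (a * a') - par C cc r k (a' * y') a -
          par C cc r k (y' * a) a')) ∧
      (∀ w ∈ W, ∀ y', par C cc r k y' (α w) = 0) ∧
      (∀ g y', y' * α g = α g * y' → par C cc r k (α g⁻¹ * y') (α g) =
        C.lamK (C.i y' * (cc (C.i (α g)) (C.i (α r)) - cc (C.i (α r)) (C.i (α g))) *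
          C.i (α (g * r)⁻¹))) ∧
      ∀ e : A, C.i e = ∑ t ∈ range ℓ, m₁ (C.i (α (r ^ t))) (C.i (α r)) * C.i (α (r ^ (t + 1))⁻¹) →
        e * α r = α r * e ∧ ∀ y', y' * α r = α r * y' →
          In (algebraMap R K) (par C cc r k y' (e * α (r ^ ℓ)))

/-! ## 4. The derivation of the Brauer quotient -/

/-- BKZ: the Brauer kernel of `zpowers r`.

Proof.  `P = zpowers r` is a cyclic `ℓ`-group; a proper subgroup `P'` is contained in `P₀ = zpowers (r ^ ℓ)`.  If `r ∈ P₀`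
then `r = 1` (the order of `r ^ ℓ` is smaller), `P` has no proper subgroup and `a = 0`, `m = 0`.  Otherwise
`1, r, .., r ^ (ℓ-1)` represents the cosets of `P₀` in `P`.  For `P' < P` with transversal `S` and `m'` fixed by `P'`:
`m = ∑_(x ∈ S₀) x m' x⁻¹`, `S₀` a transversal of `P'` in `P₀`, is fixed by `P₀`, and both `S` and
`{r ^ t x | t < ℓ, x ∈ S₀}` are transversals of `P'` in `P`, so the relative traces agree: the trace is
`∑_t r ^ t m r ^ -t`.  These elements form a submodule, so this holds for the span (`Submodule.span_induction`). -/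
def BkzStmt : Prop := ∀ (ℓ : ℕ) [Fact ℓ.Prime] (F V A : Type) [CommRing F] [CommGroup V] [Finite V]
  [Ring A] [Algebra F A] (α : V →* A) (r : V), IsPGroup ℓ V →
  ∀ a ∈ BKR (cw F α) (Subgroup.zpowers r), ∃ m : A, m * α (r ^ ℓ) = α (r ^ ℓ) * m ∧
    a = ∑ t ∈ range ℓ, α (r ^ t) * m * α (r ^ t)⁻¹

/-- TRL (uses BKZ; UZL proved: Pool.Agent.PSS.H19.uzl): elements over the Brauer kernel.

Proof.  BKZ for `q a`: `m₀` commuting with `r ^ ℓ`; UZL (2) for the subgroup `{(v, v) | v ∈ zpowers (r ^ ℓ)}`: a lift `m`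
commuting with `r ^ ℓ`.  `a - ∑_t r ^ t m r ^ -t` is in the kernel of `q`, so it is `ℓ • a'`; it commutes with `r` (the
trace does, as `r ^ ℓ m r ^ -ℓ = m`), and `A` is torsion-free, so `a'` commutes with `r`. -/
def TrlStmt : Prop :=
  ∀ (ℓ : ℕ) [Fact ℓ.Prime] (R F V A A₀ κ Ω : Type) [CommRing R] [IsDomain R] [Field F]
    [CommGroup V] [Fintype V] [Ring A] [Algebra R A] [Module.Finite R A] [Module.Free R A]
    [Ring A₀] [Algebra F A₀] [Fintype κ] [Fintype Ω] [MulAction (V × V) Ω] (cv : Cdv R F)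
    (f : FibG A A₀ cv) (α₀ : V →* A₀) (lam₀ : A₀ →ₗ[F] F) (x₀ y₀ : κ → A₀) (b₀ : Ω → A₀)
    (c₀ : Ω → (A₀ →ₗ[F] F)) (α : V →* A) (lam : A →ₗ[R] R) (x y : κ → A) (b : Ω → A)
    (c : Ω → (A →ₗ[R] R)) (u₀ : A₀) (r : V), IsPGroup ℓ V → cv.π = (ℓ : R) →
    LiftV cv α₀ lam₀ x₀ y₀ b₀ c₀ f α lam x y b c → u₀ * rt x₀ y₀ 1 = 1 →
    ∀ a : A, a * α r = α r * a → f.q a ∈ BKR (cw F α₀) (Subgroup.zpowers r) →
      ∃ m a' : A, m * α (r ^ ℓ) = α (r ^ ℓ) * m ∧ a' * α r = α r * a' ∧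
        a = (∑ t ∈ range ℓ, α (r ^ t) * m * α (r ^ t)⁻¹) + (ℓ : R) • a'

/-- RZL: a linear map from a pairing.

Proof.  `T m n` depends only on `g m`, `g n`, and `(g m, g n) ↦ T m n` is `F`-bilinear on `Br` (`g`, `κ` surjective).
For fixed `n`: a functional on `Br`, so by `PSS.RfeStmt` (proved: `Pool.Agent.PSS.H84.rfe`) it is `z ↦ lamB (d z) =
lamB (z d)`; `d` is unique (nondegeneracy, RFE), so it depends linearly on `g n`. -/
def RzlStmt : Prop := ∀ (R F V Br KB M : Type) [CommRing R] [Field F] (κ : R →+* F) [CommGroup V]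
  [Fintype V] [Ring Br] [Algebra F Br] [Fintype KB] [AddCommGroup M] [Module R M]
  (αB : V →* Br) (lamB : Br →ₗ[F] F) (xB yB : KB → Br) (g : M →+ Br) (T : M → M → F),
  Function.Surjective κ → RF F αB lamB xB yB → Function.Surjective g →
  (∀ (ρ : R) m, g (ρ • m) = κ ρ • g m) → (∀ m m' n, T (m + m') n = T m n + T m' n) →
  (∀ m n n', T m (n + n') = T m n + T m n') → (∀ (ρ : R) m n, T (ρ • m) n = κ ρ * T m n) →
  (∀ (ρ : R) m n, T m (ρ • n) = κ ρ * T m n) → (∀ m n, g m = 0 → T m n = 0) →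
  (∀ m n, g n = 0 → T m n = 0) →
  ∃ δ : Br →ₗ[F] Br, ∀ m n, lamB (g m * δ (g n)) = T m n

/-- DRX (uses PAI TRL RZL; UZL proved): the derivation of `A(⟨r⟩)`.

Proof.  `M` = the centraliser of `r` in `A`, `= FxR (cw R α) (zpowers r)` (a submodule), `g = β ∘ q : M → Br`: additive and
semilinear (`IsBQ.add`, `IsBQ.smul`; `q` maps `M` into the centraliser), surjective (`IsBQ.surj` and UZL (2) for the
subgroup `{(v, v) | v ∈ zpowers r}`).  PAI: `k`.  `T y' a = κ ρ`, `ρ` the element of `R` with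
`algebraMap ρ = ℓ * par C cc r k y' a` (`rinj`): biadditive, semilinear.  `g a = 0` implies `T y' a = 0`: TRL and `IsBQ.ker`
give `a = ∑ r ^ t m r ^ -t + ℓ a'`; the first term gives `ℓ * (element of R)`, the second
`ℓ * (ℓ par y' a')`; `κ ℓ = 0` (`cv.π = ℓ`).  The same in `y'`.  RZL: `δ`.
Derivation: `lamB (g y' * (δ (g a g a') - δ (g a) g a' - g a δ (g a'))) = T y' (a a') - T (a' y') a - T (y' a) a'`
(symmetry of `lamB`) `= κ (ℓ * ..) = 0`, so it is `0` by nondegeneracy (`PSS.RfeStmt`); `g` is surjective.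
`δ (αB w) = 0`: `T y' (α w) = 0`; `g (α w) = αB w` (`IsBQ.om`, `LiftV.qa`).
`lamB (β (q y') * δ (αB g) * αB g⁻¹) = lamB (g (g⁻¹ y') * δ (αB g)) = T (α g⁻¹ * y') (α g)` for `y'` commuting with `r`, `g`.
Last: `0 = δ (g (e r ^ ℓ)) = δ (g e * αB (r ^ ℓ)) = δ (g e) * αB (r ^ ℓ)` (`r ^ ℓ ∈ W`), and `αB (r ^ ℓ)` is a unit. -/
def DrxStmt : Prop :=
  ∀ (ℓ : ℕ) [Fact ℓ.Prime] (R K F V A A₀ Br B κ Ω KB : Type) [CommRing R] [IsDomain R]
    [Field K] [CharZero K] [Algebra R K] [Field F] [CommGroup V]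
    [Fintype V] [Ring A] [Algebra R A] [Module.Finite R A] [Module.Free R A]
    [Ring A₀] [Algebra F A₀] [Ring Br] [Algebra F Br] [Ring B] [Algebra R B] [Algebra K B]
    [Fintype κ] [Fintype Ω] [Fintype KB] [MulAction (V × V) Ω] (W : Subgroup V)
    (cv : Cdv R F) (f : FibG A A₀ cv) (α₀ : V →* A₀) (lam₀ : A₀ →ₗ[F] F) (x₀ y₀ : κ → A₀)
    (b₀ : Ω → A₀) (c₀ : Ω → (A₀ →ₗ[F] F)) (α : V →* A) (lam : A →ₗ[R] R) (x y : κ → A)
    (b : Ω → A) (c : Ω → (A →ₗ[R] R)) (u₀ : A₀) (C : KC R K B α lam x y b c)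
    (m₁ cc : B →ₗ[K] B →ₗ[K] B) (r : V) (αB : V →* Br) (β : A₀ → Br) (lamB : Br →ₗ[F] F)
    (xB yB : KB → Br), IsPGroup ℓ V → cv.π = (ℓ : R) →
    LiftV cv α₀ lam₀ x₀ y₀ b₀ c₀ f α lam x y b c → u₀ * rt x₀ y₀ 1 = 1 →
    WB2 (ia C.i α) W (fun a b => m₁ a b) → Nrm (fun a b => m₁ a b) →
    (∀ a₁ a₂, In C.i (m₁ (C.i a₁) (C.i a₂))) → (∀ x y z, dl (fun a b => m₁ a b) x y z = 0) →
    Z2 C W cc → Bi C W m₁ cc → r ^ ℓ ∈ W → IsBQ F α₀ (Subgroup.zpowers r) αB β →
    RF F αB lamB xB yB → (∀ a ∈ FxR (cw F α₀) (Subgroup.zpowers r), lamB (β a) = lam₀ a) →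
    ∃ δ : Br →ₗ[F] Br, Der δ ∧ (∀ w ∈ W, δ (αB w) = 0) ∧
      (∀ (g : V) (y' : A), y' * α r = α r * y' → y' * α g = α g * y' →
        ∃ ρ : R, algebraMap R K ρ = (ℓ : K) * C.lamK (C.i y' *
          (cc (C.i (α g)) (C.i (α r)) - cc (C.i (α r)) (C.i (α g))) * C.i (α (g * r)⁻¹)) ∧
        lamB (β (f.q y') * δ (αB g) * αB g⁻¹) = cv.κ ρ) ∧
      ∀ e : A, C.i e = ∑ t ∈ range ℓ, m₁ (C.i (α (r ^ t))) (C.i (α r)) * C.i (α (r ^ (t + 1))⁻¹) →
        e * α r = α r * e ∧ δ (β (f.q e)) = 0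

end Pool.Agent.PST
end
end -- Pool.Agent.PST.StmtsK2

section -- Pool.Agent.Helper10_PST.ECR

open scoped BigOperators

noncomputable section

namespace Pool.Agent.PST.H10

open Pool.Agent.PSS

section ring

variable {A B : Type} [Ring A] [Ring B] (i : A →+* B)

/-- the image of `A` -/
def HH : AddSubgroup B := (i : A →+ B).range

theorem mem_HH (x : B) : x ∈ HH i ↔ ∃ a, i a = x := by
  unfold HH
  rw [AddMonoidHom.mem_range]
  rfl

/-- the bimodule `B / i A` -/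
abbrev MM : Type := B ⧸ HH i

/-- the quotient map -/
def qq : B →+ MM i := QuotientAddGroup.mk' (HH i)

theorem qq_surj (m : MM i) : ∃ x, qq i x = m := QuotientAddGroup.mk'_surjective (HH i) m

theorem qq_zero (x : B) : qq i x = 0 ↔ ∃ a, i a = x := by
  rw [← mem_HH i x]
  exact QuotientAddGroup.eq_zero_iff x

/-- left multiplication -/
def LL (a : A) : MM i →+ MM i :=
  QuotientAddGroup.map (HH i) (HH i) (AddMonoidHom.mulLeft (i a)) (by
    intro x hx
    rw [mem_HH] at hx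
    obtain ⟨b, rfl⟩ := hx
    rw [AddSubgroup.mem_comap, mem_HH]
    exact ⟨a * b, map_mul i a b⟩)

/-- right multiplication -/
def RR (a : A) : MM i →+ MM i :=
  QuotientAddGroup.map (HH i) (HH i) (AddMonoidHom.mulRight (i a)) (by
    intro x hx
    rw [mem_HH] at hx
    obtain ⟨b, rfl⟩ := hx
    rw [AddSubgroup.mem_comap, mem_HH]
    exact ⟨b * a, map_mul i b a⟩)

theorem LL_q (a : A) (x : B) : LL i a (qq i x) = qq i (i a * x) := rfl

theorem RR_q (a : A) (x : B) : RR i a (qq i x) = qq i (x * i a) := rfl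

/-- the additive group of the extension -/
def XT : Type := A × MM i

instance xadd : AddCommGroup (XT i) := inferInstanceAs (AddCommGroup (A × MM i))

theorem xt_ext {x y : XT i} (h1 : x.1 = y.1) (h2 : x.2 = y.2) : x = y := Prod.ext h1 h2

/-- the product -/
def xmul (c : B → B → B) (x y : XT i) : XT i :=
  (x.1 * y.1, LL i x.1 y.2 + RR i y.1 x.2 + qq i (c (i x.1) (i y.1)))

theorem bad0l {c : B → B → B} (h : Bad c) (x : B) : c 0 x = 0 := by
  have h1 := h.l 0 0 x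
  rw [add_zero] at h1
  exact left_eq_add.1 h1

theorem bad0r {c : B → B → B} (h : Bad c) (x : B) : c x 0 = 0 := by
  have h1 := h.r x 0 0
  rw [add_zero] at h1
  exact left_eq_add.1 h1

/-- the ring -/
@[reducible] def xring (c : B → B → B) (hb : Bad c) (hn : Nrm c)
    (hc : ∀ a₁ a₂ a₃, In i (dl c (i a₁) (i a₂) (i a₃))) : Ring (XT i) :=
  { xadd i with
    mul := xmul i c
    one := ((1 : A), (0 : MM i))
    left_distrib := by
      intro x y z
      obtain ⟨a, m⟩ := x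
      obtain ⟨a', m'⟩ := y
      obtain ⟨a'', m''⟩ := z
      obtain ⟨m, rfl⟩ := qq_surj i m
      obtain ⟨m', rfl⟩ := qq_surj i m'
      obtain ⟨m'', rfl⟩ := qq_surj i m''
      refine xt_ext i (mul_add a a' a'') ?_
      show LL i a (qq i m' + qq i m'') + RR i (a' + a'') (qq i m) + qq i (c (i a) (i (a' + a''))) =
        (LL i a (qq i m') + RR i a' (qq i m) + qq i (c (i a) (i a'))) +
          (LL i a (qq i m'') + RR i a'' (qq i m) + qq i (c (i a) (i a'')))
      simp only [LL_q, RR_q, ← map_add (qq i)]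
      rw [map_add i a' a'', hb.r]
      congr 1
      noncomm_ring
    right_distrib := by
      intro x y z
      obtain ⟨a, m⟩ := x
      obtain ⟨a', m'⟩ := y
      obtain ⟨a'', m''⟩ := z
      obtain ⟨m, rfl⟩ := qq_surj i m
      obtain ⟨m', rfl⟩ := qq_surj i m'
      obtain ⟨m'', rfl⟩ := qq_surj i m''
      refine xt_ext i (add_mul a a' a'') ?_
      show LL i (a + a') (qq i m'') + RR i a'' (qq i m + qq i m') +
          qq i (c (i (a + a')) (i a'')) =
        (LL i a (qq i m'') + RR i a'' (qq i m) + qq i (c (i a) (i a''))) +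
          (LL i a' (qq i m'') + RR i a'' (qq i m') + qq i (c (i a') (i a'')))
      simp only [LL_q, RR_q, ← map_add (qq i)]
      rw [map_add i a a', hb.l]
      congr 1
      noncomm_ring
    zero_mul := by
      intro x
      obtain ⟨a, m⟩ := x
      obtain ⟨m, rfl⟩ := qq_surj i m
      refine xt_ext i (zero_mul a) ?_
      show LL i 0 (qq i m) + RR i a 0 + qq i (c (i 0) (i a)) = 0
      rw [LL_q, map_zero, map_zero, zero_mul, bad0l hb, map_zero, add_zero, add_zero]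
    mul_zero := by
      intro x
      obtain ⟨a, m⟩ := x
      obtain ⟨m, rfl⟩ := qq_surj i m
      refine xt_ext i (mul_zero a) ?_
      show LL i a 0 + RR i 0 (qq i m) + qq i (c (i a) (i 0)) = 0
      rw [RR_q, map_zero, map_zero, mul_zero, bad0r hb, map_zero, add_zero, add_zero]
    mul_assoc := by
      intro x y z
      obtain ⟨a, m⟩ := x
      obtain ⟨a', m'⟩ := y
      obtain ⟨a'', m''⟩ := z
      obtain ⟨m, rfl⟩ := qq_surj i m
      obtain ⟨m', rfl⟩ := qq_surj i m'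
      obtain ⟨m'', rfl⟩ := qq_surj i m''
      refine xt_ext i (mul_assoc a a' a'') ?_
      show LL i (a * a') (qq i m'') +
          RR i a'' (LL i a (qq i m') + RR i a' (qq i m) + qq i (c (i a) (i a'))) +
          qq i (c (i (a * a')) (i a'')) =
        LL i a (LL i a' (qq i m'') + RR i a'' (qq i m') + qq i (c (i a') (i a''))) +
          RR i (a' * a'') (qq i m) + qq i (c (i a) (i (a' * a'')))
      simp only [LL_q, RR_q, ← map_add]
      rw [← sub_eq_zero, ← map_sub, qq_zero]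
      obtain ⟨b, hb'⟩ := hc a a' a''
      refine ⟨-b, ?_⟩
      rw [map_neg, hb']
      unfold dl
      rw [map_mul i a a', map_mul i a' a'']
      noncomm_ring
    one_mul := by
      intro x
      obtain ⟨a, m⟩ := x
      obtain ⟨m, rfl⟩ := qq_surj i m
      refine xt_ext i (one_mul a) ?_
      show LL i 1 (qq i m) + RR i a 0 + qq i (c (i 1) (i a)) = qq i m
      rw [LL_q, map_one, map_zero, one_mul, hn.1, map_zero, add_zero, add_zero]
    mul_one := by
      intro x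
      obtain ⟨a, m⟩ := x
      obtain ⟨m, rfl⟩ := qq_surj i m
      refine xt_ext i (mul_one a) ?_
      show LL i a 0 + RR i 1 (qq i m) + qq i (c (i a) (i 1)) = qq i m
      rw [RR_q, map_one, map_zero, mul_one, hn.2, map_zero, add_zero, zero_add] }

end ring

theorem ecr : EcrStmt := by
  intro A B _ _ i c hb hn hc
  let _ : Ring (XT i) := xring i c hb hn hc
  let p : XT i →+* A :=
    { toFun := fun x => x.1
      map_one' := rfl
      map_mul' := fun _ _ => rfl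
      map_zero' := rfl
      map_add' := fun _ _ => rfl }
  let j : B →+ XT i :=
    { toFun := fun x => ((0 : A), qq i x)
      map_zero' := xt_ext i rfl (map_zero (qq i))
      map_add' := fun x y => xt_ext i (add_zero (0 : A)).symm (map_add (qq i) x y) }
  let s : A →+ XT i :=
    { toFun := fun a => (a, (0 : MM i))
      map_zero' := rfl
      map_add' := fun a b => xt_ext i rfl (add_zero (0 : MM i)).symm }
  refine ⟨XT i, inferInstance, p, j, s, ?_⟩
  refine ⟨fun a => rfl, fun m => rfl, ?_, ?_, ?_, ?_, ?_, ?_, rfl⟩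
  · intro x hx
    obtain ⟨m, hm⟩ := qq_surj i x.2
    exact ⟨m, xt_ext i hx hm.symm⟩
  · intro m
    constructor
    · intro h
      have h2 : qq i m = 0 := congrArg (fun z : XT i => z.2) h
      exact (qq_zero i m).1 h2
    · intro h
      exact xt_ext i rfl ((qq_zero i m).2 h)
  · intro m m'
    refine xt_ext i (mul_zero (0 : A)) ?_
    show LL i 0 (qq i m') + RR i 0 (qq i m) + qq i (c (i 0) (i 0)) = 0
    rw [LL_q, RR_q, map_zero, zero_mul, mul_zero, bad0l hb, map_zero, add_zero, add_zero]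
  · intro a m
    refine xt_ext i (mul_zero a) ?_
    show LL i a (qq i m) + RR i 0 0 + qq i (c (i a) (i 0)) = qq i (i a * m)
    rw [LL_q, map_zero, map_zero, bad0r hb, map_zero, add_zero, add_zero]
  · intro a m
    refine xt_ext i (zero_mul a) ?_
    show LL i 0 0 + RR i a (qq i m) + qq i (c (i 0) (i a)) = qq i (m * i a)
    rw [RR_q, map_zero, map_zero, bad0l hb, map_zero, add_zero, zero_add]
  · intro a a'
    refine xt_ext i (add_zero (a * a')).symm ?_
    show LL i a 0 + RR i a' 0 + qq i (c (i a) (i a')) = 0 + qq i (c (i a) (i a'))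
    rw [map_zero, map_zero, add_zero]

end Pool.Agent.PST.H10
end
end -- Pool.Agent.Helper10_PST.ECR

section -- Pool.Agent.Helper13_PST.PAI

/-!
# Row PAI of squad PST: the pairing of a vertex
-/

set_option autoImplicit false

open scoped BigOperators

noncomputable section

namespace Pool.Agent.PST.H13

open Pool.Agent.PSS
open Finset

theorem wb_zero {V B : Type} [Group V] [Ring B] {β : V →* B} {W : Subgroup V} {q : B → B → B}
    (h1 : ∀ w ∈ W, ∀ x y, q (β w * x) y = β w * q x y ∧ q (x * β w) y = q x (β w * y) ∧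
      q x (y * β w) = q x y * β w) (h2 : Nrm q) : ∀ w ∈ W, ∀ x, q (β w) x = 0 ∧ q x (β w) = 0 := by
  intro w hw x
  constructor
  · have h := (h1 w hw 1 x).1
    rwa [mul_one, h2.1, mul_zero] at h
  · have h := (h1 w hw x 1).2.2
    rwa [one_mul, h2.2, zero_mul] at h

theorem bad_lin {K B : Type} [Field K] [Ring B] [Algebra K B] (c : B →ₗ[K] B →ₗ[K] B) :
    Bad (fun a b => c a b) :=
  ⟨fun x y z => by rw [map_add, LinearMap.add_apply], fun x y z => map_add _ _ _⟩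

theorem pai (hEcr : EcrStmt) (hNrk : NrkStmt) (hRel : RelStmt) (hXcm : XcmStmt)
    (hXpr : XprStmt) : PaiStmt := by
  intro R K V A B κ Ω _ _ _ _ _ _ _ _ _ _ _ _ _ _ W α lam x y b c C m₁ cc ℓ r hℓ hrW hmW hmN hmI
    hmd hZ hBi
  obtain ⟨β, hβ⟩ : ∃ β : V →* B, β = ia C.i α := ⟨_, rfl⟩
  have hβa : ∀ v, C.i (α v) = β v := fun v => by rw [hβ]; rfl
  have hccW : ∀ w ∈ W, ∀ x, cc (β w) x = 0 ∧ cc x (β w) = 0 := by
    intro w hw x
    rw [hβ]
    exact wb_zero (q := fun a b => cc a b) hZ.rel hZ.nrm w hw x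
  have hmzW : ∀ w ∈ W, ∀ x, m₁ (β w) x = 0 ∧ m₁ x (β w) = 0 := by
    intro w hw x
    rw [hβ]
    exact wb_zero (q := fun a b => m₁ a b) hmW hmN w hw x
  obtain ⟨X, _, p, j, s, hX⟩ := hEcr A B (C.i : A →+* B) (fun a b => cc a b) (bad_lin cc) hZ.nrm
    hZ.cyc
  obtain ⟨k, hk1, hk2, hk3⟩ := hNrk R K V A B κ Ω X W α lam x y b c C cc p j s ℓ r hℓ hrW hZ hX
  have hapow : ∀ n : ℕ, α r ^ n = α (r ^ n) := fun n => (map_pow α r n).symm
  have hbpow : ∀ n : ℕ, β r ^ n = β (r ^ n) := fun n => (map_pow β r n).symm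
  have hai : α r⁻¹ ^ ℓ = α (r ^ ℓ)⁻¹ := by rw [← map_pow, inv_pow]
  have hinv : ∀ v : V, β v * β v⁻¹ = 1 := fun v => by rw [← map_mul, mul_inv_cancel, map_one]
  have hinv' : ∀ v : V, β v⁻¹ * β v = 1 := fun v => by rw [← map_mul, inv_mul_cancel, map_one]
  have hcomm : ∀ u v : V, β u * β v = β v * β u := fun u v => by
    rw [← map_mul, ← map_mul, mul_comm]
  have sym : ∀ s t, C.lamK (s * t) = C.lamK (t * s) := C.rfK.sym
  have lamI : ∀ a : A, In (algebraMap R K) (C.lamK (C.i a)) := fun a => ⟨lam a, (C.lk a).symm⟩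
  have inj_inv : ∀ a : A, ∀ v : V, a * α v = α v * a → C.i a * β v = β v * C.i a := by
    intro a v h
    have := congrArg C.i h
    rwa [map_mul, map_mul, hβa] at this
  have comm_inv : ∀ (t : B) (v : V), t * β v = β v * t → t * β v⁻¹ = β v⁻¹ * t := by
    intro t v h
    calc t * β v⁻¹ = β v⁻¹ * β v * t * β v⁻¹ := by rw [hinv', one_mul]
      _ = β v⁻¹ * (β v * t) * β v⁻¹ := by simp only [mul_assoc]
      _ = β v⁻¹ * (t * β v) * β v⁻¹ := by rw [h]
      _ = β v⁻¹ * t * (β v * β v⁻¹) := by simp only [mul_assoc]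
      _ = β v⁻¹ * t := by rw [hinv, mul_one]
  -- the commutator
  obtain ⟨xc, hxc⟩ : ∃ xc : A → B, ∀ a, xcm C.i (fun a b => cc a b) (α r) k a = xc a :=
    ⟨_, fun _ => rfl⟩
  have hxd : ∀ a, xc a = cc (C.i a) (β r) - cc (β r) (C.i a) + (C.i a * k - k * C.i a) := by
    intro a
    rw [← hxc, ← hβa]
    rfl
  have hpar : ∀ y' a, par C cc r k y' a = C.lamK (C.i y' * xc a * β r⁻¹) := by
    intro y' a
    rw [← hxc, ← hβa]
    rfl
  -- (L1)
  have L1 : ∀ (y' : A) (h : B), y' * α r = α r * y' →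
      C.lamK (C.i y' * (h * β r - β r * h) * β r⁻¹) = 0 := by
    intro y' h hy
    have e1 : C.i y' * (h * β r - β r * h) * β r⁻¹ = C.i y' * h - β r * (C.i y' * h) * β r⁻¹ := by
      rw [mul_sub, sub_mul]
      have f1 : C.i y' * (h * β r) * β r⁻¹ = C.i y' * h := by
        rw [mul_assoc, mul_assoc h, hinv, mul_one]
      have f2 : C.i y' * (β r * h) * β r⁻¹ = β r * (C.i y' * h) * β r⁻¹ := by
        rw [← mul_assoc, inj_inv y' r hy, mul_assoc (β r)]
      rw [f1, f2]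
    rw [e1, map_sub, sym (β r * (C.i y' * h)), ← mul_assoc, hinv', one_mul, sub_self]
  -- XPR
  have hX1 := hXpr A B X (C.i : A →+* B) (fun a b => cc a b) p j s ℓ (α r) (α r⁻¹) (α (r ^ ℓ)) k hℓ hX
    (by rw [← map_mul, mul_inv_cancel, map_one]) (by rw [← map_mul, inv_mul_cancel, map_one])
    (hapow ℓ) hk3
    (fun x => by
      have := hccW _ hrW x
      rw [← hβa] at this
      exact this)
    (fun x => by
      have := hccW _ (W.inv_mem hrW) x
      rw [← hβa, ← hai] at this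
      exact this)
  have P1 : ∀ a, a * α r = α r * a →
      In C.i (∑ t ∈ range ℓ, β (r ^ t) * (xc a * β r⁻¹) * β (r ^ t)⁻¹) := by
    intro a ha
    obtain ⟨a1, ha1⟩ := hX1.1 a ha
    refine ⟨a1 * α (r ^ ℓ)⁻¹, ?_⟩
    have ha2 : C.i a1 = ∑ t ∈ range ℓ, β r ^ t * xc a * β r ^ (ℓ - 1 - t) := by
      rw [← hβa, ← hxc]
      exact ha1
    rw [map_mul, ha2, hβa, Finset.sum_mul]
    refine Finset.sum_congr rfl fun t ht => ?_
    rw [Finset.mem_range] at ht
    rw [hbpow, hbpow]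
    have e1 : β (r ^ (ℓ - 1 - t)) * β (r ^ ℓ)⁻¹ = β r⁻¹ * β (r ^ t)⁻¹ := by
      rw [← map_mul, ← map_mul]
      congr 1
      have e2 : r ^ ℓ = r ^ (ℓ - 1 - t) * (r ^ t * r) := by
        rw [← pow_succ, ← pow_add]
        congr 1
        omega
      rw [e2, mul_inv_rev, mul_comm (r ^ t * r)⁻¹, mul_inv_cancel_left, mul_inv_rev]
    rw [mul_assoc, e1]
    simp only [mul_assoc]
  have P2 : ∀ m : A, m * α (r ^ ℓ) = α (r ^ ℓ) * m → ∃ (h : B) (a1 : A),
      xc (∑ t ∈ range ℓ, α (r ^ t) * m * α (r ^ t)⁻¹) = C.i a1 - (h * β r - β r * h) := by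
    intro m hm
    obtain ⟨h, a1, ha1⟩ := hX1.2 m hm
    refine ⟨h, a1, ?_⟩
    have e1 : ∑ t ∈ range ℓ, α r ^ t * m * α r⁻¹ ^ t = ∑ t ∈ range ℓ, α (r ^ t) * m * α (r ^ t)⁻¹ := by
      refine Finset.sum_congr rfl fun t _ => ?_
      rw [hapow, ← map_pow, inv_pow]
    rw [e1] at ha1
    have ha2 : C.i a1 = xc (∑ t ∈ range ℓ, α (r ^ t) * m * α (r ^ t)⁻¹) + (h * β r - β r * h) := by
      rw [← hβa, ← hxc]
      exact ha1
    rw [ha2, add_sub_cancel_right]
  obtain ⟨_, hX2, hX3⟩ := hXcm A B X (C.i : A →+* B) (fun a b => cc a b) p j s (α r) k hX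
  refine ⟨k, ?_, ?_, ?_, ?_, ?_, ?_, ?_⟩
  · -- (a)
    intro y' a hy ha
    obtain ⟨n, hn⟩ := P1 a ha
    have e1 : C.lamK (C.i (y' * n)) = (ℓ : K) * par C cc r k y' a := by
      rw [map_mul, hn, Finset.mul_sum, map_sum, hpar]
      have e2 : ∀ t ∈ range ℓ, C.lamK (C.i y' * (β (r ^ t) * (xc a * β r⁻¹) * β (r ^ t)⁻¹)) =
          C.lamK (C.i y' * xc a * β r⁻¹) := by
        intro t _
        have e3 : C.i y' * β (r ^ t) = β (r ^ t) * C.i y' := by
          rw [map_pow]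
          exact (Commute.pow_right (inj_inv y' r hy) t).eq
        have e4 : C.i y' * (β (r ^ t) * (xc a * β r⁻¹) * β (r ^ t)⁻¹) =
            β (r ^ t) * (C.i y' * xc a * β r⁻¹) * β (r ^ t)⁻¹ := by
          rw [← mul_assoc, ← mul_assoc, e3]
          simp only [mul_assoc]
        rw [e4, sym (β (r ^ t) * _), ← mul_assoc, hinv', one_mul]
      rw [Finset.sum_congr rfl e2, Finset.sum_const, Finset.card_range, nsmul_eq_mul]
    rw [← e1]
    exact lamI _
  · -- (b)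
    intro y' m hy hm
    obtain ⟨h, a1, ha1⟩ := P2 m hm
    rw [hpar, ha1, mul_sub, sub_mul, map_sub, L1 y' h hy, sub_zero, ← hβa, ← map_mul, ← map_mul]
    exact lamI _
  · -- (c)
    intro m a ha hm
    obtain ⟨n, hn⟩ := P1 a ha
    have e0 : ∑ t ∈ range ℓ, β (r ^ t)⁻¹ * (xc a * β r⁻¹) * β (r ^ t) =
        C.i (α (r ^ (ℓ - 1))⁻¹ * n * α (r ^ (ℓ - 1))) := by
      rw [map_mul, map_mul, hn, hβa, hβa, Finset.mul_sum, Finset.sum_mul]
      rw [← Finset.sum_range_reflect (fun t => β (r ^ t)⁻¹ * (xc a * β r⁻¹) * β (r ^ t)) ℓ]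
      refine Finset.sum_congr rfl fun t ht => ?_
      rw [Finset.mem_range] at ht
      have e2 : r ^ (ℓ - 1) = r ^ (ℓ - 1 - t) * r ^ t := by
        rw [← pow_add]
        congr 1
        omega
      have e3 : β (r ^ (ℓ - 1))⁻¹ * β (r ^ t) = β (r ^ (ℓ - 1 - t))⁻¹ := by
        rw [← map_mul, e2, mul_inv_rev, mul_comm (r ^ t)⁻¹, inv_mul_cancel_right]
      have e4 : β (r ^ t)⁻¹ * β (r ^ (ℓ - 1)) = β (r ^ (ℓ - 1 - t)) := by
        rw [← map_mul, e2, mul_comm (r ^ (ℓ - 1 - t)), inv_mul_cancel_left]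
      calc β (r ^ (ℓ - 1 - t))⁻¹ * (xc a * β r⁻¹) * β (r ^ (ℓ - 1 - t)) =
          β (r ^ (ℓ - 1))⁻¹ * β (r ^ t) * (xc a * β r⁻¹) * (β (r ^ t)⁻¹ * β (r ^ (ℓ - 1))) := by
            rw [e3, e4]
        _ = β (r ^ (ℓ - 1))⁻¹ * (β (r ^ t) * (xc a * β r⁻¹) * β (r ^ t)⁻¹) * β (r ^ (ℓ - 1)) := by
            simp only [mul_assoc]
    have e1 : par C cc r k (∑ t ∈ range ℓ, α (r ^ t) * m * α (r ^ t)⁻¹) a =
        C.lamK (C.i (m * (α (r ^ (ℓ - 1))⁻¹ * n * α (r ^ (ℓ - 1))))) := by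
      rw [map_mul C.i m, ← e0, hpar, map_sum, Finset.sum_mul, Finset.sum_mul, map_sum,
        Finset.mul_sum, map_sum]
      refine Finset.sum_congr rfl fun t _ => ?_
      rw [map_mul C.i, map_mul C.i, hβa, hβa]
      have e2 : β (r ^ t) * C.i m * β (r ^ t)⁻¹ * xc a * β r⁻¹ =
          β (r ^ t) * (C.i m * (β (r ^ t)⁻¹ * (xc a * β r⁻¹))) := by
        simp only [mul_assoc]
      rw [e2, sym]
      simp only [mul_assoc]
    rw [e1]
    exact lamI _
  · -- (d)
    intro y' a a' hy ha ha'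
    obtain ⟨n, hn⟩ := hX2 a a' ha ha'
    have hn2 : C.i n = xc (a * a') - (xc a * C.i a' + C.i a * xc a') +
        (cc (C.i a) (C.i a') * β r - β r * cc (C.i a) (C.i a')) := by
      rw [← hβa, ← hxc, ← hxc, ← hxc]
      exact hn
    have hn3 : xc (a * a') - (xc a * C.i a' + C.i a * xc a') =
        C.i n - (cc (C.i a) (C.i a') * β r - β r * cc (C.i a) (C.i a')) := by
      rw [hn2, add_sub_cancel_right]
    have e1 : par C cc r k (a' * y') a = C.lamK (C.i y' * (xc a * C.i a') * β r⁻¹) := by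
      rw [hpar, map_mul C.i, mul_assoc (C.i a'), mul_assoc (C.i a'), sym, mul_assoc (C.i y' * xc a),
        ← comm_inv _ _ (inj_inv a' r ha')]
      simp only [mul_assoc]
    have e2 : par C cc r k (y' * a) a' = C.lamK (C.i y' * (C.i a * xc a') * β r⁻¹) := by
      rw [hpar, map_mul C.i]
      simp only [mul_assoc]
    have e3 : par C cc r k y' (a * a') - par C cc r k (a' * y') a - par C cc r k (y' * a) a' =
        C.lamK (C.i y' * (xc (a * a') - (xc a * C.i a' + C.i a * xc a')) * β r⁻¹) := by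
      rw [e1, e2, hpar, mul_sub, mul_add, sub_mul, add_mul, map_sub, map_add]
      ring
    rw [e3, hn3, mul_sub, sub_mul, map_sub, L1 y' _ hy, sub_zero, ← hβa, ← map_mul, ← map_mul]
    exact lamI _
  · -- (e)
    intro w hw y'
    have e1 : xc (α w) = 0 := by
      rw [hxd, hβa, (hccW w hw _).1, (hccW w hw _).2, ← hβa, hk1 w hw]
      simp
    rw [hpar, e1, mul_zero, zero_mul, map_zero]
  · -- (f)
    intro g y' hy
    have hyg : C.i y' * β g = β g * C.i y' := inj_inv y' g hy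
    rw [hpar, hxd, map_mul C.i, hβa, hβa, hβa, hβa]
    have e0 : β (g * r)⁻¹ = β r⁻¹ * β g⁻¹ := by rw [← map_mul, mul_inv_rev]
    have e1 : C.lamK (β g⁻¹ * C.i y' * (cc (β g) (β r) - cc (β r) (β g)) * β r⁻¹) =
        C.lamK (C.i y' * (cc (β g) (β r) - cc (β r) (β g)) * β (g * r)⁻¹) := by
      rw [mul_assoc (β g⁻¹), mul_assoc (β g⁻¹), sym, e0]
      simp only [mul_assoc]
    have e2 : C.lamK (β g⁻¹ * C.i y' * (β g * k - k * β g) * β r⁻¹) = 0 := by
      rw [mul_sub, sub_mul, map_sub]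
      have f1 : β g⁻¹ * C.i y' * (β g * k) * β r⁻¹ = C.i y' * k * β r⁻¹ := by
        rw [← comm_inv _ _ hyg, mul_assoc (C.i y'), ← mul_assoc (β g⁻¹), hinv', one_mul]
      have f2 : C.lamK (β g⁻¹ * C.i y' * (k * β g) * β r⁻¹) = C.lamK (C.i y' * k * β r⁻¹) := by
        have f3 : β g⁻¹ * C.i y' * (k * β g) * β r⁻¹ = β g⁻¹ * (C.i y' * k * (β g * β r⁻¹)) := by
          simp only [mul_assoc]
        have f4 : C.i y' * k * (β g * β r⁻¹) * β g⁻¹ = C.i y' * k * β r⁻¹ := by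
          rw [hcomm g r⁻¹, mul_assoc, mul_assoc (β r⁻¹), hinv, mul_one]
        rw [f3, sym, f4]
      rw [f1, f2, sub_self]
    rw [mul_add, add_mul, map_add, e1, e2, add_zero]
  · -- (g)
    intro e he
    obtain ⟨c', hc1, hc2, hc3⟩ := hBi
    have hczW : ∀ w ∈ W, ∀ x, c' (β w) x = 0 ∧ c' x (β w) = 0 := by
      intro w hw x
      rw [hβ]
      exact wb_zero (q := fun a b => c' a b) hc1 hc2 w hw x
    have hbd : Bad (fun a b => -(c' a b)) :=
      ⟨fun x y z => by rw [map_add, LinearMap.add_apply, neg_add],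
        fun x y z => by rw [map_add, neg_add]⟩
    have hnd : Nrm (fun a b => -(c' a b)) :=
      ⟨fun x => by
        have := hc2.1 x
        simp only at this
        simp only [this, neg_zero], fun x => by
        have := hc2.2 x
        simp only at this
        simp only [this, neg_zero]⟩
    have he' : C.i (e * α (r ^ ℓ)) =
        ∑ t ∈ range ℓ, m₁ (C.i (α r) ^ t) (C.i (α r)) * C.i (α r) ^ (ℓ - 1 - t) := by
      rw [map_mul, he, Finset.sum_mul]
      refine Finset.sum_congr rfl fun t ht => ?_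
      rw [Finset.mem_range] at ht
      have e1 : ∀ n, C.i (α r) ^ n = C.i (α (r ^ n)) := fun n => by rw [← map_pow, hapow]
      rw [e1, e1, mul_assoc, ← map_mul, ← map_mul]
      congr 3
      have e2 : r ^ ℓ = r ^ (ℓ - 1 - t) * r ^ (t + 1) := by
        rw [← pow_add]
        congr 1
        omega
      rw [e2, mul_comm (r ^ (ℓ - 1 - t)), inv_mul_cancel_left]
    obtain ⟨f, hf⟩ := hRel A B X (C.i : A →+* B) (fun a b => m₁ a b) (fun a b => cc a b)
      (fun a b => -(c' a b)) p j s ℓ (α r) (α (r ^ ℓ)) (e * α (r ^ ℓ)) k C.inj (bad_lin m₁)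
      (bad_lin cc) hbd hmN hZ.nrm hnd hmI hmd hZ.cyc (fun a₁ a₂ a₃ => by
        have h1 := hc3 a₁ a₂ a₃
        have e1 : dl (fun a b => -(c' a b)) (C.i a₁) (C.i a₂) (C.i a₃) =
            -dl (fun a b => c' a b) (C.i a₁) (C.i a₂) (C.i a₃) := by
          unfold dl
          simp only [mul_neg, neg_mul]
          abel
        have e2 : brk (fun a b => m₁ a b) (fun a b => cc a b) (C.i a₁) (C.i a₂) (C.i a₃) -
            dl (fun a b => -(c' a b)) (C.i a₁) (C.i a₂) (C.i a₃) =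
            brk (fun a b => m₁ a b) (fun a b => cc a b) (C.i a₁) (C.i a₂) (C.i a₃) +
            dl (fun a b => c' a b) (C.i a₁) (C.i a₂) (C.i a₃) := by
          rw [e1, sub_neg_eq_add]
        rw [← e2] at h1
        exact h1) hX (hapow ℓ)
      (fun x => by
        have h1 := hmzW _ hrW x
        have h2 := hccW _ hrW x
        have h3 := hczW _ hrW x
        rw [← hβa] at h1 h2 h3
        exact ⟨h1.1, h1.2, h2.1, h2.2, by
          change -(c' (C.i (α (r ^ ℓ))) x) = 0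
          rw [h3.1, neg_zero], by
          change -(c' x (C.i (α (r ^ ℓ)))) = 0
          rw [h3.2, neg_zero]⟩)
      (hk1 _ hrW) hk3 he'
    obtain ⟨h4, a1, h5⟩ := hX3 _ _ hf
    have h5' : C.i a1 = xc (e * α (r ^ ℓ)) + (f * β r - β r * f) := by
      rw [← hβa, ← hxc]
      exact h5
    constructor
    · have h6 : e * α r * α (r ^ ℓ) = α r * e * α (r ^ ℓ) := by
        rw [mul_assoc, ← map_mul α r, mul_comm r, map_mul, ← mul_assoc, h4, mul_assoc]
      have h7 := congrArg (fun z => z * α (r ^ ℓ)⁻¹) h6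
      simp only [mul_assoc] at h7
      rw [← map_mul, mul_inv_cancel, map_one, mul_one, mul_one] at h7
      exact h7
    · intro y' hy
      have h6 : xc (e * α (r ^ ℓ)) = C.i a1 - (f * β r - β r * f) := by
        rw [h5', add_sub_cancel_right]
      rw [hpar, h6, mul_sub, sub_mul, map_sub, L1 y' _ hy, sub_zero, ← hβa, ← map_mul, ← map_mul]
      exact lamI _

end Pool.Agent.PST.H13
end
end -- Pool.Agent.Helper13_PST.PAI

section -- Pool.Agent.Helper29_PST.XPR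

/-! # PST row XPR (uses XCM): norms and traces. -/

noncomputable section

namespace Pool.Agent.PST.H29

open Pool.Agent.PSS
open Finset

/-- the commutator of `a` with a power -/
theorem comm_pow {X : Type} [Ring X] (a b : X) (n : ℕ) :
    a * b ^ n - b ^ n * a = ∑ t ∈ range n, b ^ t * (a * b - b * a) * b ^ (n - 1 - t) := by
  induction n with
  | zero => simp
  | succ n ih =>
    have h1 : ∑ t ∈ range n, b ^ t * (a * b - b * a) * b ^ (n + 1 - 1 - t)
        = (∑ t ∈ range n, b ^ t * (a * b - b * a) * b ^ (n - 1 - t)) * b := by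
      rw [Finset.sum_mul]
      refine Finset.sum_congr rfl fun t ht => ?_
      have h2 : n + 1 - 1 - t = (n - 1 - t) + 1 := by
        have := Finset.mem_range.1 ht
        omega
      rw [h2, pow_succ, ← mul_assoc]
    rw [Finset.sum_range_succ, h1, ← ih]
    have h3 : n + 1 - 1 - n = 0 := by omega
    rw [h3, pow_zero, mul_one, pow_succ]
    noncomm_ring

theorem xpr (hx : XcmStmt) : XprStmt := by
  intro A B X _ _ _ i c p j s ℓ r r' w k hℓ E hrr hrr' hw hpw hcw hcw'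
  have rj : ∀ m, (s r + j k) * j m = j (i r * m) := by
    intro m
    rw [add_mul, E.sj, E.jj, add_zero]
  have jr : ∀ m, j m * (s r + j k) = j (m * i r) := by
    intro m
    rw [mul_add, E.js, E.jj, add_zero]
  have rtj : ∀ (t : ℕ) m, (s r + j k) ^ t * j m = j (i r ^ t * m) := by
    intro t
    induction t with
    | zero => intro m; simp
    | succ t ih => intro m; rw [pow_succ, mul_assoc, rj, ih, pow_succ, mul_assoc]
  have jrt : ∀ (t : ℕ) m, j m * (s r + j k) ^ t = j (m * i r ^ t) := by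
    intro t
    induction t with
    | zero => intro m; simp
    | succ t ih => intro m; rw [pow_succ', ← mul_assoc, jr, ih, pow_succ', mul_assoc]
  have asw : ∀ a, s a * s w = s (a * w) := by
    intro a
    rw [E.ss, (hcw _).2, map_zero, add_zero]
  have wsa : ∀ a, s w * s a = s (w * a) := by
    intro a
    rw [E.ss, (hcw _).1, map_zero, add_zero]
  have asw' : ∀ a, s a * s (r' ^ ℓ) = s (a * r' ^ ℓ) := by
    intro a
    rw [E.ss, (hcw' _).2, map_zero, add_zero]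
  have hc : Commute r r' := by rw [Commute, SemiconjBy, hrr, hrr']
  have hww' : w * r' ^ ℓ = 1 := by
    rw [← hw, ← hc.mul_pow, hrr, one_pow]
  constructor
  · intro a har
    have haw : a * w = w * a := by
      rw [← hw]
      exact (Commute.pow_right (show Commute a r from har) ℓ).eq
    have h1 := comm_pow (s a) (s r + j k) ℓ
    rw [hpw, asw, wsa, haw, sub_self] at h1
    rw [← E.j0, map_sum, h1]
    refine Finset.sum_congr rfl fun t _ => ?_
    rw [((hx A B X i c p j s r k E).1 a har), rtj, jrt]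
  · intro m hm
    have hu1 : s w * s (r' ^ ℓ) = 1 := by rw [asw', hww', E.s1]
    have hw'w : r' ^ ℓ * w = 1 := by
      rw [← hw, ← hc.symm.mul_pow, hrr', one_pow]
    have hu2 : s (r' ^ ℓ) * s w = 1 := by rw [asw, hw'w, E.s1]
    have hunit : IsUnit ((s r + j k) ^ ℓ) := by
      rw [hpw]
      exact ⟨⟨s w, s (r' ^ ℓ), hu1, hu2⟩, rfl⟩
    obtain ⟨u, hu⟩ := (isUnit_pow_iff (Nat.pos_iff_ne_zero.1 hℓ)).1 hunit
    have hui : (↑(u⁻¹) : X) ^ ℓ = s (r' ^ ℓ) := by
      have h1 : (↑(u⁻¹) : X) ^ ℓ * (u : X) ^ ℓ = 1 := by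
        rw [← Units.val_pow_eq_pow_val, ← Units.val_pow_eq_pow_val, ← Units.val_mul, inv_pow,
          inv_mul_cancel, Units.val_one]
      rw [hu, hpw] at h1
      calc (↑(u⁻¹) : X) ^ ℓ = (↑(u⁻¹) : X) ^ ℓ * (s w * s (r' ^ ℓ)) := by rw [hu1, mul_one]
        _ = s (r' ^ ℓ) := by rw [← mul_assoc, h1, one_mul]
    have hpr : p (s r + j k) = r := by rw [map_add, E.ps, E.pj, add_zero]
    have hpi : p (↑(u⁻¹) : X) = r' := by
      have h1 : r * p (↑(u⁻¹) : X) = 1 := by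
        rw [← hpr, ← map_mul, ← hu, Units.mul_inv, map_one]
      calc p (↑(u⁻¹) : X) = (r' * r) * p (↑(u⁻¹) : X) := by rw [hrr', one_mul]
        _ = r' := by rw [mul_assoc, h1, mul_one]
    set ah : X := ∑ t ∈ range ℓ, (s r + j k) ^ t * s m * (↑(u⁻¹) : X) ^ t with hah
    have hcyc : (s r + j k) * ah * (↑(u⁻¹) : X) = ah := by
      have h1 : (s r + j k) * ah * (↑(u⁻¹) : X)
          = ∑ t ∈ range ℓ, (s r + j k) ^ (t + 1) * s m * (↑(u⁻¹) : X) ^ (t + 1) := by
        rw [hah, Finset.mul_sum, Finset.sum_mul]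
        refine Finset.sum_congr rfl fun t _ => ?_
        rw [pow_succ' (s r + j k), pow_succ (↑(u⁻¹) : X)]
        simp only [mul_assoc]
      have h2 := Finset.sum_range_succ (fun t => (s r + j k) ^ t * s m * (↑(u⁻¹) : X) ^ t) ℓ
      have h3 := Finset.sum_range_succ' (fun t => (s r + j k) ^ t * s m * (↑(u⁻¹) : X) ^ t) ℓ
      rw [h2] at h3
      have h4 : (s r + j k) ^ ℓ * s m * (↑(u⁻¹) : X) ^ ℓ = s m := by
        rw [hpw, hui, wsa, asw', ← hm, mul_assoc, hww', mul_one]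
      rw [h4, pow_zero, pow_zero, one_mul, mul_one] at h3
      rw [h1]
      exact (add_right_cancel h3).symm
    have hcomm : (s r + j k) * ah = ah * (s r + j k) := by
      calc (s r + j k) * ah = (s r + j k) * ah * (↑(u⁻¹) * (u : X)) := by
            rw [Units.inv_mul, mul_one]
        _ = ((s r + j k) * ah * ↑(u⁻¹)) * (u : X) := by rw [mul_assoc ((s r + j k) * ah)]
        _ = ah * (s r + j k) := by rw [hcyc, hu]
    have hpah : p ah = ∑ t ∈ range ℓ, r ^ t * m * r' ^ t := by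
      rw [hah, map_sum]
      refine Finset.sum_congr rfl fun t _ => ?_
      rw [map_mul, map_mul, map_pow, map_pow, hpr, hpi, E.ps]
    obtain ⟨h, hh⟩ := E.ker (ah - s (∑ t ∈ range ℓ, r ^ t * m * r' ^ t)) (by
      rw [map_sub, hpah, E.ps, sub_self])
    refine ⟨h, ?_⟩
    have hah2 : ah = s (∑ t ∈ range ℓ, r ^ t * m * r' ^ t) + j h := by
      rw [← hh]; abel
    rw [hah2] at hcomm
    exact ((hx A B X i c p j s r k E).2.2 _ _ hcomm).2

end Pool.Agent.PST.H29
end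
end -- Pool.Agent.Helper29_PST.XPR

section -- Pool.Agent.Helper41_PST.BKZ

/-! Squad PST, block K, row BKZ: the Brauer kernel of `zpowers r`. -/

open scoped BigOperators TensorProduct

noncomputable section

namespace Pool.Agent.PST.H41

open Pool.Agent.PSS
open Pool.Agent.PFC (IsTv)
open Finset

/-- the sum over a transversal does not depend on the transversal -/
lemma bkz_tv {V M : Type} [Group V] [AddCommMonoid M] {P' P : Subgroup V} {S S' : Finset V}
    (h : IsTv P' P S) (h' : IsTv P' P S') (f : V → M) (hf : ∀ x, ∀ p ∈ P', f (x * p) = f x) :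
    ∑ x ∈ S, f x = ∑ x ∈ S', f x := by
  classical
  have key : ∀ (T T' : Finset V), IsTv P' P T → IsTv P' P T' →
      ∃ φ : V → V, (∀ s ∈ T, φ s ∈ T') ∧ ∀ s ∈ T, (φ s)⁻¹ * s ∈ P' := by
    intro T T' hT hT'
    refine ⟨fun s => if hs : s ∈ T then (hT'.2 s (hT.1 s hs)).choose else 1, ?_, ?_⟩
    · intro s hs
      simp only
      rw [dif_pos hs]
      exact (hT'.2 s (hT.1 s hs)).choose_spec.1.1
    · intro s hs
      simp only
      rw [dif_pos hs]
      exact (hT'.2 s (hT.1 s hs)).choose_spec.1.2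
  obtain ⟨φ, hφ1, hφ2⟩ := key S S' h h'
  obtain ⟨ψ, hψ1, hψ2⟩ := key S' S h' h
  have hu : ∀ (T : Finset V), IsTv P' P T → ∀ s ∈ T, ∀ s' ∈ T, s'⁻¹ * s ∈ P' → s' = s := by
    intro T hT s hs s' hs' hss
    refine (hT.2 s (hT.1 s hs)).unique ⟨hs', hss⟩ ⟨hs, ?_⟩
    rw [inv_mul_cancel]
    exact P'.one_mem
  refine Finset.sum_bij' (fun s _ => φ s) (fun s _ => ψ s) hφ1 hψ1 ?_ ?_ ?_
  · intro s hs
    refine hu S h s hs _ (hψ1 _ (hφ1 s hs)) ?_
    have := P'.mul_mem (hψ2 _ (hφ1 s hs)) (hφ2 s hs)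
    rwa [mul_assoc, mul_inv_cancel_left] at this
  · intro s hs
    refine hu S' h' s hs _ (hφ1 _ (hψ1 s hs)) ?_
    have := P'.mul_mem (hφ2 _ (hψ1 s hs)) (hψ2 s hs)
    rwa [mul_assoc, mul_inv_cancel_left] at this
  · intro s hs
    have := hf (φ s) _ (hφ2 s hs)
    rw [mul_inv_cancel_left] at this
    exact this

/-- powers prime to `ℓ` generate -/
lemma bkz_gen {V : Type} [CommGroup V] {ℓ : ℕ} (hℓ : ℓ.Prime) {r : V} {n : ℕ}
    (hn : r ^ (ℓ ^ n) = 1) (k : ℤ) (hk : ¬ (ℓ : ℤ) ∣ k) : r ∈ Subgroup.zpowers (r ^ k) := by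
  have h1 : IsCoprime k ((ℓ : ℤ) ^ n) := by
    refine IsCoprime.pow_right ?_
    rw [isCoprime_comm]
    exact (Prime.coprime_iff_not_dvd (Nat.prime_iff_prime_int.1 hℓ)).2 hk
  obtain ⟨a, b, hab⟩ := h1
  rw [Subgroup.mem_zpowers_iff]
  refine ⟨a, ?_⟩
  have h2 : r ^ (a * k + b * (ℓ : ℤ) ^ n) = r := by rw [hab, zpow_one]
  rw [zpow_add, mul_comm b, zpow_mul r ((ℓ : ℤ) ^ n) b] at h2
  have h3 : r ^ ((ℓ : ℤ) ^ n) = 1 := by
    rw [← Nat.cast_pow, zpow_natCast, hn]
  rw [h3, one_zpow, mul_one] at h2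
  rw [← zpow_mul, mul_comm k a, h2]

theorem bkz : BkzStmt := by
  classical
  intro ℓ hℓ F V A _ _ _ _ _ α r hp a ha
  obtain ⟨n, hn⟩ := hp r
  have hcw : ∀ (v : V) (m : A), cw F α v m = α v * m * α v⁻¹ := by
    intro v m
    show bw F α (v, v) m = _
    simp only [bw, MonoidHom.coe_mk, OneHom.coe_mk, LinearMap.comp_apply,
      LinearMap.mulRight_apply, LinearMap.mulLeft_apply, mul_assoc]
  set P := Subgroup.zpowers r with hP
  set P₀ := Subgroup.zpowers (r ^ ℓ) with hP₀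
  have hP0 : ∀ k : ℤ, r ^ ((ℓ : ℤ) * k) ∈ P₀ := by
    intro k
    rw [zpow_mul, zpow_natCast]
    exact Subgroup.zpow_mem _ (Subgroup.mem_zpowers _) k
  have hP0P : P₀ ≤ P := by
    rw [hP₀, Subgroup.zpowers_le]
    exact Subgroup.pow_mem _ (Subgroup.mem_zpowers _) ℓ
  unfold BKR at ha
  induction ha using Submodule.span_induction with
  | mem a ha =>
    obtain ⟨P', S, m', hlt, hS, hm', rfl⟩ := ha
    -- `r` is not in `P'`
    have hrP' : r ∉ P' := by
      intro h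
      exact absurd (by rw [hP, Subgroup.zpowers_le]; exact h : P ≤ P') (not_le_of_gt hlt)
    have hP'0 : P' ≤ P₀ := by
      intro x hx
      obtain ⟨k, hk⟩ := Subgroup.mem_zpowers_iff.1 (hlt.le hx)
      by_cases hd : (ℓ : ℤ) ∣ k
      · obtain ⟨k', rfl⟩ := hd
        rw [← hk]
        exact hP0 k'
      · refine absurd ?_ hrP'
        have h1 := bkz_gen hℓ.out hn k hd
        rw [hk] at h1
        exact (by rw [Subgroup.zpowers_le]; exact hx : Subgroup.zpowers x ≤ P') h1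
    -- `r` is not in `P₀`
    have hr0 : r ∉ P₀ := by
      intro h
      obtain ⟨k, hk⟩ := Subgroup.mem_zpowers_iff.1 h
      have h1 : r ^ ((1 : ℤ) - ℓ * k) = 1 := by
        rw [zpow_sub, zpow_one, zpow_mul, zpow_natCast, hk, mul_inv_cancel]
      have h2 := bkz_gen hℓ.out hn ((1 : ℤ) - ℓ * k) (by
        intro hd
        have h3 : (ℓ : ℤ) ∣ 1 := by
          have := dvd_add hd (dvd_mul_right (ℓ : ℤ) k)
          rwa [sub_add_cancel] at this
        have h4 := Int.natAbs_dvd_natAbs.2 h3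
        simp only [Int.natAbs_natCast, Int.natAbs_one] at h4
        exact hℓ.out.one_lt.ne' (Nat.dvd_one.1 h4))
      rw [h1, Subgroup.zpowers_one_eq_bot, Subgroup.mem_bot] at h2
      exact hrP' (by rw [h2]; exact P'.one_mem)
    have hkey : ∀ t < ℓ, ∀ t' < ℓ, r ^ ((t : ℤ) - t') ∈ P₀ → t = t' := by
      intro t ht t' ht' h
      by_contra hne
      refine hr0 ?_
      have h1 := bkz_gen hℓ.out hn ((t : ℤ) - t') (by
        intro hd
        have h2 := Int.eq_zero_of_abs_lt_dvd hd (by rw [abs_lt]; constructor <;> omega)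
        omega)
      exact (by rw [Subgroup.zpowers_le]; exact h : Subgroup.zpowers (r ^ ((t : ℤ) - t')) ≤ P₀) h1
    -- a transversal of `P'` in `P₀`
    let S₀ : Finset V := S.filter (· ∈ P₀)
    have hS0m : ∀ x, x ∈ S₀ ↔ x ∈ S ∧ x ∈ P₀ := fun x => Finset.mem_filter
    have hS0 : IsTv P' P₀ S₀ := by
      refine ⟨fun s hs => ((hS0m s).1 hs).2, fun p hp => ?_⟩
      obtain ⟨s, ⟨hs1, hs2⟩, hs3⟩ := hS.2 p (hP0P hp)
      refine ⟨s, ⟨(hS0m s).2 ⟨hs1, ?_⟩, hs2⟩, fun s' hs' => hs3 s' ⟨((hS0m s').1 hs'.1).1, hs'.2⟩⟩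
      have h1 := P₀.mul_mem hp (P₀.inv_mem (hP'0 hs2))
      rwa [mul_inv_rev, inv_inv, mul_inv_cancel_left] at h1
    let f : V → A := fun x => cw F α x m'
    have hf : ∀ x, ∀ p ∈ P', f (x * p) = f x := by
      intro x p hp
      show cw F α (x * p) m' = cw F α x m'
      rw [map_mul, Module.End.mul_apply, hm' p hp]
    let m : A := ∑ x ∈ S₀, f x
    -- `m` commutes with `r ^ ℓ`
    have hm : cw F α (r ^ ℓ) m = m := by
      show cw F α (r ^ ℓ) (∑ x ∈ S₀, f x) = ∑ x ∈ S₀, f x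
      have hT : IsTv P' P₀ (S₀.image (r ^ ℓ * ·)) := by
        refine ⟨fun s hs => ?_, fun p hp => ?_⟩
        · obtain ⟨x, hx, rfl⟩ := Finset.mem_image.1 hs
          exact P₀.mul_mem (Subgroup.mem_zpowers _) (hS0.1 x hx)
        · obtain ⟨s, ⟨hs1, hs2⟩, hs3⟩ := hS0.2 ((r ^ ℓ)⁻¹ * p)
            (P₀.mul_mem (P₀.inv_mem (Subgroup.mem_zpowers _)) hp)
          refine ⟨r ^ ℓ * s, ⟨Finset.mem_image_of_mem _ hs1, ?_⟩, ?_⟩
          · rw [mul_inv_rev, mul_assoc]
            exact hs2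
          · rintro s' ⟨hs', hs''⟩
            obtain ⟨x, hx, rfl⟩ := Finset.mem_image.1 hs'
            rw [mul_inv_rev, mul_assoc] at hs''
            rw [hs3 x ⟨hx, hs''⟩]
      conv_rhs => rw [bkz_tv hS0 hT f hf,
        Finset.sum_image (fun x _ y _ h => mul_left_cancel h)]
      rw [map_sum]
      refine Finset.sum_congr rfl fun x _ => ?_
      show cw F α (r ^ ℓ) (cw F α x m') = cw F α (r ^ ℓ * x) m'
      rw [map_mul, Module.End.mul_apply]
    -- the big transversal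
    have hinj : Set.InjOn (fun p : ℕ × V => r ^ p.1 * p.2) (range ℓ ×ˢ S₀ : Finset (ℕ × V)) := by
      rintro ⟨t, x⟩ h1 ⟨t', x'⟩ h2 h
      simp only [Finset.coe_product, Set.mem_prod, Finset.mem_coe, Finset.mem_range] at h1 h2
      simp only at h
      have e : t = t' := by
        refine hkey t h1.1 t' h2.1 ?_
        have e1 : r ^ ((t : ℤ) - t') = x' * x⁻¹ := by
          rw [zpow_sub, zpow_natCast, zpow_natCast, eq_mul_inv_iff_mul_eq, mul_right_comm, h,
            mul_right_comm, mul_inv_cancel, one_mul]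
        rw [e1]
        exact P₀.mul_mem (hS0.1 x' h2.2) (P₀.inv_mem (hS0.1 x h1.2))
      subst e
      rw [mul_left_cancel h]
    have hT : IsTv P' P ((range ℓ ×ˢ S₀).image (fun p : ℕ × V => r ^ p.1 * p.2)) := by
      refine ⟨fun s hs => ?_, fun p hp => ?_⟩
      · obtain ⟨⟨t, x⟩, hx, rfl⟩ := Finset.mem_image.1 hs
        exact P.mul_mem (Subgroup.pow_mem _ (Subgroup.mem_zpowers _) t)
          (hP0P (hS0.1 x (Finset.mem_product.1 hx).2))
      · obtain ⟨k, rfl⟩ := Subgroup.mem_zpowers_iff.1 hp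
        have hℓ0 : (0 : ℤ) < ℓ := by exact_mod_cast hℓ.out.pos
        obtain ⟨t, ht⟩ := Int.eq_ofNat_of_zero_le (Int.emod_nonneg k hℓ0.ne')
        have htl : t < ℓ := by
          have := Int.emod_lt_of_pos k hℓ0
          rw [ht] at this
          exact_mod_cast this
        have e1 : (r ^ t)⁻¹ * r ^ k ∈ P₀ := by
          have e2 : (r ^ t)⁻¹ * r ^ k = r ^ ((ℓ : ℤ) * (k / ℓ)) := by
            rw [← zpow_natCast, ← zpow_neg, ← zpow_add]
            congr 1
            have := Int.emod_add_mul_ediv k ℓ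
            rw [ht] at this
            linarith
          rw [e2]
          exact hP0 _
        obtain ⟨x, ⟨hx1, hx2⟩, hx3⟩ := hS0.2 _ e1
        refine ⟨r ^ t * x, ⟨Finset.mem_image.2 ⟨(t, x), Finset.mem_product.2
          ⟨Finset.mem_range.2 htl, hx1⟩, rfl⟩, ?_⟩, ?_⟩
        · rw [mul_inv_rev, mul_assoc]
          exact hx2
        · rintro s' ⟨hs', hs''⟩
          obtain ⟨⟨t', x'⟩, hx', rfl⟩ := Finset.mem_image.1 hs'
          obtain ⟨ht', hx'1⟩ := Finset.mem_product.1 hx'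
          simp only at ht' hx'1 hs'' ⊢
          have e3 : (r ^ t')⁻¹ * r ^ k ∈ P₀ := by
            have e4 : (r ^ t')⁻¹ * r ^ k = x' * ((r ^ t' * x')⁻¹ * r ^ k) := by
              rw [mul_inv_rev, mul_assoc, mul_inv_cancel_left]
            rw [e4]
            exact P₀.mul_mem (hS0.1 x' hx'1) (hP'0 hs'')
          have e : t' = t := by
            refine hkey t' (Finset.mem_range.1 ht') t htl ?_
            have e5 := P₀.mul_mem e1 (P₀.inv_mem e3)
            have e6 : (r ^ t)⁻¹ * r ^ k * ((r ^ t')⁻¹ * r ^ k)⁻¹ = r ^ ((t' : ℤ) - t) := by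
              rw [zpow_sub, zpow_natCast, zpow_natCast, mul_inv_rev, inv_inv, mul_assoc,
                mul_inv_cancel_left, mul_comm]
            rwa [e6] at e5
          subst e
          rw [mul_inv_rev, mul_assoc] at hs''
          rw [hx3 x' ⟨hx'1, hs''⟩]
    refine ⟨m, ?_, ?_⟩
    · rw [hcw] at hm
      have e : α (r ^ ℓ) * m * α (r ^ ℓ)⁻¹ * α (r ^ ℓ) = m * α (r ^ ℓ) := by rw [hm]
      rw [← e, mul_assoc, ← map_mul, inv_mul_cancel, map_one, mul_one]
    · show ∑ x ∈ S, f x = _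
      rw [bkz_tv hS hT f hf, Finset.sum_image hinj, Finset.sum_product]
      refine Finset.sum_congr rfl fun t _ => ?_
      rw [← hcw]
      show _ = cw F α (r ^ t) (∑ x ∈ S₀, f x)
      rw [map_sum]
      refine Finset.sum_congr rfl fun x _ => ?_
      show cw F α (r ^ t * x) m' = cw F α (r ^ t) (cw F α x m')
      rw [map_mul, Module.End.mul_apply]
  | zero => exact ⟨0, by rw [zero_mul, mul_zero], by simp⟩
  | add x y _ _ hx hy =>
    obtain ⟨m₁, h1, h2⟩ := hx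
    obtain ⟨m₂, h3, h4⟩ := hy
    refine ⟨m₁ + m₂, by rw [add_mul, mul_add, h1, h3], ?_⟩
    rw [h2, h4, ← Finset.sum_add_distrib]
    refine Finset.sum_congr rfl fun t _ => ?_
    rw [mul_add, add_mul]
  | smul c x _ hx =>
    obtain ⟨m₁, h1, h2⟩ := hx
    refine ⟨c • m₁, by rw [smul_mul_assoc, mul_smul_comm, h1], ?_⟩
    rw [h2, Finset.smul_sum]
    refine Finset.sum_congr rfl fun t _ => ?_
    rw [mul_smul_comm, smul_mul_assoc]

end Pool.Agent.PST.H41
end
end -- Pool.Agent.Helper41_PST.BKZ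

section -- Pool.Agent.Helper51_PST.RZL

/-!
# Squad PST, block KEY, row RZL: a linear map from a pairing
-/

open scoped BigOperators

noncomputable section

namespace Pool.Agent.PST.H51

open Pool.Agent.PSS

theorem rzl : RzlStmt := by
  intro R F V Br KB M _ _ κ _ _ _ _ _ _ _ αB lamB xB yB g T hκ hRF hg hgs hT1 hT2 hT3 hT4 hT5 hT6
  classical
  -- `T m n` depends only on `g n`
  have hr : ∀ m n n', g n = g n' → T m n = T m n' := by
    intro m n n' h
    have h1 : T m n = T m (n' + (n - n')) := by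
      congr 1
      abel
    rw [h1, hT2, hT6 m (n - n') (by rw [map_sub, h, sub_self]), add_zero]
  have hl : ∀ m m' n, g m = g m' → T m n = T m' n := by
    intro m m' n h
    have h1 : T m n = T (m' + (m - m')) n := by
      congr 1
      abel
    rw [h1, hT1, hT5 (m - m') n (by rw [map_sub, h, sub_self]), add_zero]
  choose s hs using hg
  choose κi hκi using hκ
  have hT0 : ∀ n, T 0 n = 0 := fun n => hT5 0 n (map_zero g)
  have hsum : ∀ {ι : Type} (S : Finset ι) (f : ι → M) (n : M),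
      T (∑ i ∈ S, f i) n = ∑ i ∈ S, T (f i) n := by
    intro ι S f n
    induction S using Finset.induction_on with
    | empty => simp [hT0]
    | insert a S ha ih => rw [Finset.sum_insert ha, Finset.sum_insert ha, hT1, ih]
  let μ : KB → V → M := fun k v => s (xB k * αB v)
  let δ : Br →ₗ[F] Br :=
    { toFun := fun z => ∑ k, ∑ v, T (μ k v) (s z) • (αB v⁻¹ * yB k)
      map_add' := by
        intro z z'
        rw [← Finset.sum_add_distrib]
        refine Finset.sum_congr rfl fun k _ => ?_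
        rw [← Finset.sum_add_distrib]
        refine Finset.sum_congr rfl fun v _ => ?_
        rw [← add_smul, ← hT2]
        congr 1
        refine hr _ _ _ ?_
        rw [map_add, hs, hs, hs]
      map_smul' := by
        intro c z
        rw [RingHom.id_apply, Finset.smul_sum]
        refine Finset.sum_congr rfl fun k _ => ?_
        rw [Finset.smul_sum]
        refine Finset.sum_congr rfl fun v _ => ?_
        rw [smul_smul]
        congr 1
        rw [hr (μ k v) (s (c • z)) (κi c • s z) (by rw [hs, hgs, hs, hκi]), hT4, hκi] }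
  refine ⟨δ, fun m n => ?_⟩
  have h1 : δ (g n) = ∑ k, ∑ v, T (μ k v) n • (αB v⁻¹ * yB k) := by
    change ∑ k, ∑ v, T (μ k v) (s (g n)) • (αB v⁻¹ * yB k) = _
    refine Finset.sum_congr rfl fun k _ => Finset.sum_congr rfl fun v _ => ?_
    rw [hr (μ k v) (s (g n)) n (hs (g n))]
  have h2 : lamB (g m * δ (g n)) =
      ∑ k, ∑ v, lamB (αB v⁻¹ * yB k * g m) * T (μ k v) n := by
    rw [h1, Finset.mul_sum, map_sum]
    refine Finset.sum_congr rfl fun k _ => ?_
    rw [Finset.mul_sum, map_sum]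
    refine Finset.sum_congr rfl fun v _ => ?_
    rw [mul_smul_comm, map_smul, smul_eq_mul, hRF.sym (g m), mul_comm]
  rw [h2]
  have h3 : T m n = T (∑ k, ∑ v, κi (lamB (αB v⁻¹ * yB k * g m)) • μ k v) n := by
    refine hl _ _ _ ?_
    rw [map_sum]
    conv_lhs => rw [← hRF.e1 (g m)]
    refine Finset.sum_congr rfl fun k _ => ?_
    rw [map_sum]
    refine Finset.sum_congr rfl fun v _ => ?_
    rw [hgs, hκi]
    congr 1
    exact (hs _).symm
  rw [h3, hsum]
  refine Finset.sum_congr rfl fun k _ => ?_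
  rw [hsum]
  refine Finset.sum_congr rfl fun v _ => ?_
  rw [hT3, hκi]

end Pool.Agent.PST.H51
end
end -- Pool.Agent.Helper51_PST.RZL

section -- Pool.Agent.Helper6_PST.XCM

/-!
# Squad PST, row XCM (helper6): the commutator with the lift of `r`, and the product rule
-/

noncomputable section

namespace Pool.Agent.PST.H6

theorem xcm_thm : XcmStmt := by
  intro A B X _ _ _ i c p j s r k h
  have h1 : ∀ a, a * r = r * a →
      s a * (s r + j k) - (s r + j k) * s a = j (xcm i c r k a) := by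
    intro a ha
    unfold xcm
    rw [mul_add, add_mul, h.ss, h.ss, h.sj, h.js, ha, map_add, map_sub, map_sub]
    abel
  have h2 : ∀ m, j m * (s r + j k) = j (m * i r) := by
    intro m
    rw [mul_add, h.js, h.jj, add_zero]
  have h3 : ∀ m, (s r + j k) * j m = j (i r * m) := by
    intro m
    rw [add_mul, h.sj, h.jj, add_zero]
  refine ⟨h1, ?_, ?_⟩
  · intro a b ha hb
    have hab : a * b * r = r * (a * b) := by
      rw [mul_assoc, hb, ← mul_assoc, ha, mul_assoc]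
    rw [← h.j0, map_add, map_sub, map_add, map_sub, ← h1 (a * b) hab, ← h.js, ← h.sj,
      ← h1 a ha, ← h1 b hb, ← h2, ← h3]
    have h4 : s (a * b) = s a * s b - j (c (i a) (i b)) := by
      rw [h.ss, add_sub_cancel_right]
    rw [h4]
    noncomm_ring
  · intro e f hef
    have h4 := congrArg p hef
    rw [map_mul, map_mul, map_add, map_add, h.ps, h.pj, h.ps, h.pj, add_zero, add_zero] at h4
    refine ⟨h4.symm, ?_⟩
    rw [← h.j0, map_add, map_sub, ← h1 e h4.symm, ← h2, ← h3]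
    have h5 : (s e + j f) * (s r + j k) - (s r + j k) * (s e + j f) = 0 := by
      rw [hef, sub_self]
    rw [← h5]
    noncomm_ring

end Pool.Agent.PST.H6
end
end -- Pool.Agent.Helper6_PST.XCM

section -- Pool.Agent.Helper79_PST.TRL

/-! # Squad PST, row TRL (helper79) -/

open scoped BigOperators

noncomputable section

namespace Pool.Agent.PST.H79

open Pool.Agent.PFD.D2 (Cdv FibG)
open Pool.Agent.PFD.D2b (FrR)
open Pool.Agent.PSS
open Finset

theorem bw_apply' {R V A : Type} [CommRing R] [CommGroup V] [Ring A] [Algebra R A] (α : V →* A)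
    (g : V × V) (a : A) : bw R α g a = α g.1 * (a * α g.2⁻¹) := rfl

theorem fx_zp {R V A : Type} [CommRing R] [CommGroup V] [Finite V] [Ring A] [Algebra R A]
    (α : V →* A) (g : V) (a : A) (h : a * α g = α g * a) :
    a ∈ FxR (bw R α) (Subgroup.zpowers ((g, g) : V × V)) := by
  intro k hk
  rw [← mem_powers_iff_mem_zpowers] at hk
  obtain ⟨n, rfl⟩ := hk
  have h1 : bw R α (g, g) a = a := by
    rw [bw_apply']
    change α g * (a * α g⁻¹) = a
    rw [← mul_assoc, ← h, mul_assoc, ← map_mul, mul_inv_cancel, map_one, mul_one]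
  induction n with
  | zero => simp
  | succ n ih =>
    change bw R α ((g, g) ^ (n + 1)) a = a
    rw [pow_succ, map_mul, Module.End.mul_apply, h1]
    exact ih

theorem trl (bkz : BkzStmt) (uzl : UzlStmt) : TrlStmt := by
  intro ℓ _ R F V A A₀ κ Ω _ _ _ _ _ _ _ _ _ _ _ _ _ _ cv f α₀ lam₀ x₀ y₀ b₀ c₀ α lam x y b c u₀
    r hV hπ hL hu a ha hq
  obtain ⟨m₀, hm₀, hm₀'⟩ := bkz ℓ F V A₀ α₀ r hV (f.q a) hq
  obtain ⟨-, u2, -⟩ := uzl R F V A₀ A κ Ω cv α₀ lam₀ x₀ y₀ b₀ c₀ f α lam x y b c u₀ hL hu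
  obtain ⟨m, hm, hmq⟩ := u2 (Subgroup.zpowers ((r ^ ℓ, r ^ ℓ) : V × V)) m₀
    (fx_zp α₀ (r ^ ℓ) m₀ hm₀)
  have hm1 : α (r ^ ℓ) * (m * α (r ^ ℓ)⁻¹) = m :=
    hm (r ^ ℓ, r ^ ℓ) (Subgroup.mem_zpowers _)
  have hinv : ∀ v : V, α v⁻¹ * α v = 1 := fun v => by rw [← map_mul, inv_mul_cancel, map_one]
  have hinv' : ∀ v : V, α v * α v⁻¹ = 1 := fun v => by rw [← map_mul, mul_inv_cancel, map_one]
  have hm2 : m * α (r ^ ℓ) = α (r ^ ℓ) * m := by
    conv_lhs => rw [← hm1]
    rw [mul_assoc, mul_assoc, hinv, mul_one]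
  -- the trace commutes with `r`
  have hN : (∑ t ∈ range ℓ, α (r ^ t) * m * α (r ^ t)⁻¹) * α r =
      α r * ∑ t ∈ range ℓ, α (r ^ t) * m * α (r ^ t)⁻¹ := by
    have h1 : ∀ t : ℕ, α r * (α (r ^ t) * m * α (r ^ t)⁻¹) =
        (α (r ^ (t + 1)) * m * α (r ^ (t + 1))⁻¹) * α r := by
      intro t
      have e1 : α (r ^ (t + 1)) = α r * α (r ^ t) := by rw [pow_succ', map_mul]
      have e2 : α (r ^ (t + 1))⁻¹ = α (r ^ t)⁻¹ * α r⁻¹ := by
        rw [← map_mul]
        congr 1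
        rw [pow_succ, mul_inv]
      rw [e1, e2]
      simp only [mul_assoc, hinv, mul_one]
    rw [Finset.mul_sum, Finset.sum_mul]
    rw [Finset.sum_congr rfl fun t _ => h1 t]
    have h2 := Finset.sum_range_succ (fun t => (α (r ^ t) * m * α (r ^ t)⁻¹) * α r) ℓ
    have h3 := Finset.sum_range_succ' (fun t => (α (r ^ t) * m * α (r ^ t)⁻¹) * α r) ℓ
    have h4 : (α (r ^ ℓ) * m * α (r ^ ℓ)⁻¹) * α r = (α (r ^ 0) * m * α (r ^ 0)⁻¹) * α r := by
      rw [mul_assoc (α (r ^ ℓ)), hm1]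
      simp
    rw [h2, h4] at h3
    exact add_right_cancel h3
  have hd : f.q (a - ∑ t ∈ range ℓ, α (r ^ t) * m * α (r ^ t)⁻¹) = 0 := by
    rw [map_sub, hm₀', map_sum, sub_eq_zero]
    refine Finset.sum_congr rfl fun t _ => ?_
    rw [map_mul, map_mul, hL.qa, hL.qa, hmq]
  obtain ⟨a', ha'⟩ := f.ker _ hd
  have hreg : ∀ z : A, cv.π • z = 0 → z = 0 := by
    intro z hz
    rw [← hL.fr.2.2 z]
    refine Finset.sum_eq_zero fun ω _ => ?_
    have h1 : cv.π * c ω z = 0 := by rw [← smul_eq_mul, ← map_smul, hz, map_zero]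
    rw [cv.reg _ h1, zero_smul]
  refine ⟨m, a', hm2, ?_, ?_⟩
  · have h1 : cv.π • (a' * α r - α r * a') = 0 := by
      rw [smul_sub, ← smul_mul_assoc, ← mul_smul_comm, ← ha', sub_mul, mul_sub, hN, ha]
      abel
    exact sub_eq_zero.1 (hreg _ h1)
  · rw [← hπ, ← ha']
    abel

end Pool.Agent.PST.H79
end
end -- Pool.Agent.Helper79_PST.TRL

section -- Pool.Agent.Helper81_PST.DRX

/-!
# Squad PST, row DRX (helper81): the derivation of the Brauer quotient at `zpowers r`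
-/

set_option autoImplicit false

open scoped BigOperators TensorProduct

noncomputable section

namespace Pool.Agent.PST.H81

open Pool.Agent.PFC (tw IsTv)
open Pool.Agent.PFD.D2 (Cdv FibG)
open Pool.Agent.PFD.D2b (FrR)
open Pool.Agent.PSS
open Pool.Agent.PSS.S0 (IsBQ)
open Pool.Agent.PST
open Finset

section zp

variable (R : Type) {V A : Type} [CommRing R] [CommGroup V] [Ring A] [Algebra R A]

theorem cw_ap (α : V →* A) (u : V) (a : A) : cw R α u a = α u * a * α u⁻¹ := by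
  show α u * (a * α u⁻¹) = _
  rw [mul_assoc]

theorem mem_zp (α : V →* A) (r : V) (a : A) :
    a ∈ FxR (cw R α) (Subgroup.zpowers r) ↔ a * α r = α r * a := by
  constructor
  · intro h
    have h1 := h r (Subgroup.mem_zpowers r)
    rw [cw_ap] at h1
    calc a * α r = α r * a * α r⁻¹ * α r := by rw [h1]
      _ = α r * a := by rw [mul_assoc, ← map_mul, inv_mul_cancel, map_one, mul_one]
  · intro h
    let S : Subgroup V :=
      { carrier := {u | cw R α u a = a}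
        mul_mem' := by
          intro u v hu hv
          show cw R α (u * v) a = a
          rw [map_mul, Module.End.mul_apply]
          rw [show cw R α v a = a from hv, show cw R α u a = a from hu]
        one_mem' := by
          show cw R α 1 a = a
          rw [map_one]; rfl
        inv_mem' := by
          intro u hu
          show cw R α u⁻¹ a = a
          have h1 : cw R α u⁻¹ (cw R α u a) = a := by
            rw [← Module.End.mul_apply, ← map_mul, inv_mul_cancel, map_one]; rfl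
          rwa [show cw R α u a = a from hu] at h1 }
    have hS : Subgroup.zpowers r ≤ S := by
      rw [Subgroup.zpowers_le]
      show cw R α r a = a
      rw [cw_ap, ← h, mul_assoc, ← map_mul, mul_inv_cancel, map_one, mul_one]
    exact fun u hu => hS hu

end zp

section par

variable {R K V A B κ Ω : Type} [CommRing R] [Field K] [Algebra R K] [CommGroup V]
  [Fintype V] [Ring A] [Algebra R A] [Ring B] [Algebra R B] [Algebra K B] [Fintype κ] [Fintype Ω]
  [MulAction (V × V) Ω] {α : V →* A} {lam : A →ₗ[R] R} {x y : κ → A} {b : Ω → A}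
  {c : Ω → (A →ₗ[R] R)}

theorem par_add_l (C : KC R K B α lam x y b c) (cc : B →ₗ[K] B →ₗ[K] B) (r : V) (k : B)
    (y₁ y₂ a : A) : par C cc r k (y₁ + y₂) a = par C cc r k y₁ a + par C cc r k y₂ a := by
  unfold par
  rw [map_add, add_mul, add_mul, map_add]

theorem xcm_add (C : KC R K B α lam x y b c) (cc : B →ₗ[K] B →ₗ[K] B) (r : A) (k : B)
    (a₁ a₂ : A) : xcm C.i (fun a b => cc a b) r k (a₁ + a₂) =
      xcm C.i (fun a b => cc a b) r k a₁ + xcm C.i (fun a b => cc a b) r k a₂ := by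
  unfold xcm
  simp only [map_add, LinearMap.add_apply, add_mul, mul_add]
  abel

theorem par_add_r (C : KC R K B α lam x y b c) (cc : B →ₗ[K] B →ₗ[K] B) (r : V) (k : B)
    (y₁ a₁ a₂ : A) : par C cc r k y₁ (a₁ + a₂) = par C cc r k y₁ a₁ + par C cc r k y₁ a₂ := by
  unfold par
  rw [xcm_add, mul_add, add_mul, map_add]

theorem i_smul (C : KC R K B α lam x y b c) (ρ : R) (a : A) :
    C.i (ρ • a) = algebraMap R K ρ • C.i a := by
  rw [map_smul, C.tow]

theorem par_smul_l (C : KC R K B α lam x y b c) (cc : B →ₗ[K] B →ₗ[K] B) (r : V) (k : B)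
    (ρ : R) (y₁ a : A) : par C cc r k (ρ • y₁) a = algebraMap R K ρ * par C cc r k y₁ a := by
  unfold par
  rw [i_smul, smul_mul_assoc, smul_mul_assoc, map_smul, smul_eq_mul]

theorem par_smul_r (C : KC R K B α lam x y b c) (cc : B →ₗ[K] B →ₗ[K] B) (r : V) (k : B)
    (ρ : R) (y₁ a : A) : par C cc r k y₁ (ρ • a) = algebraMap R K ρ * par C cc r k y₁ a := by
  have h : xcm C.i (fun a b => cc a b) (α r) k (ρ • a) =
      algebraMap R K ρ • xcm C.i (fun a b => cc a b) (α r) k a := by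
    unfold xcm
    rw [i_smul]
    simp only [map_smul, LinearMap.smul_apply, smul_mul_assoc, mul_smul_comm,
      smul_sub, smul_add]
  unfold par
  rw [h, mul_smul_comm, smul_mul_assoc, map_smul, smul_eq_mul]

end par

/-- row DRX -/
theorem drx (pai : PaiStmt) (trl : TrlStmt) (rzl : RzlStmt) (uzl : UzlStmt) (rfe : RfeStmt) :
    DrxStmt := by
  classical
  intro ℓ hℓ R K F V A A₀ Br B κ Ω KB _ _ _ _ _ _ _ _ _ _ _ _ _ _ _ _ _ _ _ _ _ _ _ W cv f α₀ lam₀
    x₀ y₀ b₀ c₀ α lam x y b c u₀ C m₁ cc r αB β lamB xB yB hV hπ hL hu hm1 hm1n hm1i hm1d hcc hBi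
    hrW hBQ hRF hlam
  have hℓ0 : 0 < ℓ := hℓ.out.pos
  obtain ⟨k, pa, pb, pc, pd, pe, pf, pg⟩ := pai R K V A B κ Ω W α lam x y b c C m₁ cc ℓ r hℓ0 hrW
    hm1 hm1n hm1i hm1d hcc hBi
  have hκ : cv.κ (ℓ : R) = 0 := (cv.ker _).2 ⟨1, by rw [hπ, mul_one]⟩
  -- the centraliser of `r`
  let M : Submodule R A := FxR (cw R α) (Subgroup.zpowers r)
  have hM : ∀ a, a ∈ M ↔ a * α r = α r * a := mem_zp R α r
  have hMv : ∀ v, α v ∈ M := fun v => (hM _).2 (by rw [← map_mul, ← map_mul, mul_comm])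
  have hMm : ∀ a ∈ M, ∀ a' ∈ M, a * a' ∈ M := by
    intro a ha a' ha'
    rw [hM] at *
    rw [mul_assoc, ha', ← mul_assoc, ha, mul_assoc]
  have hq : ∀ a ∈ M, f.q a ∈ FxR (cw F α₀) (Subgroup.zpowers r) := by
    intro a ha
    rw [mem_zp, ← hL.qa, ← map_mul, ← map_mul, (hM a).1 ha]
  let g : M →+ Br :=
    { toFun := fun m => β (f.q m)
      map_zero' := by
        have h0 : (0 : A₀) ∈ FxR (cw F α₀) (Subgroup.zpowers r) := Submodule.zero_mem _
        have := hBQ.add 0 h0 0 h0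
        show β (f.q ((0 : M) : A)) = 0
        rw [Submodule.coe_zero, map_zero]
        rw [add_zero] at this
        exact (left_eq_add.1 this)
      map_add' := by
        intro m n
        show β (f.q ((m + n : M) : A)) = β (f.q m) + β (f.q n)
        rw [Submodule.coe_add, map_add, hBQ.add _ (hq _ m.2) _ (hq _ n.2)] }
  have hg : ∀ m : M, g m = β (f.q m) := fun _ => rfl
  have hgm : ∀ (m n : M), g ⟨m * n, hMm _ m.2 _ n.2⟩ = g m * g n := by
    intro m n
    show β (f.q ((m : A) * n)) = β (f.q m) * β (f.q n)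
    rw [map_mul, hBQ.mul _ (hq _ m.2) _ (hq _ n.2)]
  have hgv : ∀ v, g ⟨α v, hMv v⟩ = αB v := by
    intro v
    show β (f.q (α v)) = αB v
    rw [hL.qa, hBQ.om]
  have hgs : ∀ (ρ : R) (m : M), g (ρ • m) = cv.κ ρ • g m := by
    intro ρ m
    show β (f.q ((ρ • m : M) : A)) = cv.κ ρ • β (f.q m)
    rw [Submodule.coe_smul, Algebra.smul_def, map_mul, f.sc, ← Algebra.smul_def,
      hBQ.smul _ _ (hq _ m.2)]
  have hgsurj : Function.Surjective g := by
    intro z
    obtain ⟨a₀, ha₀, rfl⟩ := hBQ.surj z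
    let X : Subgroup (V × V) :=
      (Subgroup.zpowers r).map ((MonoidHom.id V).prod (MonoidHom.id V))
    have ha₀' : a₀ ∈ FxR (bw F α₀) X := by
      rintro w ⟨u, hu, rfl⟩
      exact ha₀ u hu
    obtain ⟨a, ha, hqa⟩ := (uzl R F V A₀ A κ Ω cv α₀ lam₀ x₀ y₀ b₀ c₀ f α lam x y b c u₀ hL hu).2.1
      X a₀ ha₀'
    have haM : a ∈ M := by
      intro u hu
      exact ha (u, u) ⟨u, hu, rfl⟩
    exact ⟨⟨a, haM⟩, by rw [hg, hqa]⟩
  -- the pairing
  have hex : ∀ m n : M, ∃ ρ : R, algebraMap R K ρ = (ℓ : K) * par C cc r k m n := fun m n =>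
    pa m n ((hM _).1 m.2) ((hM _).1 n.2)
  choose ρ hρ using hex
  have hinj := C.rinj
  have cst : ((algebraMap R K) (ℓ : R)) = (ℓ : K) := map_natCast _ _
  let T : M → M → F := fun m n => cv.κ (ρ m n)
  have hTρ : ∀ (m n : M) (s : R), algebraMap R K s = (ℓ : K) * par C cc r k m n → T m n = cv.κ s := by
    intro m n s hs
    show cv.κ (ρ m n) = cv.κ s
    rw [hinj ((hρ m n).trans hs.symm)]
  have hT0 : ∀ (m n : M), In (algebraMap R K) (par C cc r k m n) → T m n = 0 := by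
    rintro m n ⟨s, hs⟩
    rw [hTρ m n (ℓ * s) (by rw [map_mul, cst, hs]), map_mul, hκ, zero_mul]
  have hTal : ∀ m m' n, T (m + m') n = T m n + T m' n := by
    intro m m' n
    rw [hTρ (m + m') n (ρ m n + ρ m' n)
      (by rw [map_add, hρ, hρ, Submodule.coe_add, par_add_l, mul_add]), map_add]
  have hTar : ∀ m n n', T m (n + n') = T m n + T m n' := by
    intro m n n'
    rw [hTρ m (n + n') (ρ m n + ρ m n')
      (by rw [map_add, hρ, hρ, Submodule.coe_add, par_add_r, mul_add]), map_add]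
  have hTsl : ∀ (s : R) m n, T (s • m) n = cv.κ s * T m n := by
    intro s m n
    rw [hTρ (s • m) n (s * ρ m n)
      (by rw [map_mul, hρ, Submodule.coe_smul, par_smul_l]; ring), map_mul]
  have hTsr : ∀ (s : R) m n, T m (s • n) = cv.κ s * T m n := by
    intro s m n
    rw [hTρ m (s • n) (s * ρ m n)
      (by rw [map_mul, hρ, Submodule.coe_smul, par_smul_r]; ring), map_mul]
  -- the kernel
  have hker : ∀ m : M, g m = 0 → ∃ (m' a' : M) (n : A), n * α (r ^ ℓ) = α (r ^ ℓ) * n ∧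
      (m' : A) = ∑ t ∈ range ℓ, α (r ^ t) * n * α (r ^ t)⁻¹ ∧ m = m' + (ℓ : R) • a' := by
    intro m hm
    have h1 : f.q m ∈ BKR (cw F α₀) (Subgroup.zpowers r) := (hBQ.ker _ (hq _ m.2)).1 hm
    obtain ⟨n, a', hn, ha', he⟩ := trl ℓ R F V A A₀ κ Ω cv f α₀ lam₀ x₀ y₀ b₀ c₀ α lam x y b c u₀ r
      hV hπ hL hu m ((hM _).1 m.2) h1
    have ha'M : a' ∈ M := (hM a').2 ha'
    have hsM : ∑ t ∈ range ℓ, α (r ^ t) * n * α (r ^ t)⁻¹ ∈ M := by
      have : ∑ t ∈ range ℓ, α (r ^ t) * n * α (r ^ t)⁻¹ = (m : A) - (ℓ : R) • a' := by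
        rw [he]; abel
      rw [this]
      exact M.sub_mem m.2 (M.smul_mem _ ha'M)
    exact ⟨⟨_, hsM⟩, ⟨a', ha'M⟩, n, hn, rfl, Subtype.ext he⟩
  have hTkl : ∀ m n, g m = 0 → T m n = 0 := by
    intro m n hm
    obtain ⟨m', a', z, hz, hm', rfl⟩ := hker m hm
    rw [hTal, hTsl, hκ, zero_mul, add_zero]
    refine hT0 _ _ ?_
    rw [hm']
    exact pc z n ((hM _).1 n.2) hz
  have hTkr : ∀ m n, g n = 0 → T m n = 0 := by
    intro m n hn
    obtain ⟨n', a', z, hz, hn', rfl⟩ := hker n hn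
    rw [hTar, hTsr, hκ, zero_mul, add_zero]
    refine hT0 _ _ ?_
    rw [hn']
    exact pb m z ((hM _).1 m.2) hz
  obtain ⟨δ, hδ⟩ := rzl R F V Br KB M cv.κ αB lamB xB yB g T cv.surj hRF hgsurj hgs hTal hTar hTsl
    hTsr hTkl hTkr
  -- nondegeneracy
  have hnd : ∀ d : Br, (∀ m : M, lamB (g m * d) = 0) → d = 0 := by
    intro d hd
    refine (rfe F V Br KB αB lamB xB yB hRF.sym hRF.e1).2.1 d fun a => ?_
    obtain ⟨m, rfl⟩ := hgsurj a
    rw [hRF.sym]
    exact hd m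
  have hDer : Der δ := by
    intro a b
    obtain ⟨m, rfl⟩ := hgsurj a
    obtain ⟨n, rfl⟩ := hgsurj b
    rw [← sub_eq_zero]
    refine hnd _ fun y' => ?_
    have e1 : lamB (g y' * (δ (g m * g n))) = T y' ⟨m * n, hMm _ m.2 _ n.2⟩ := by
      rw [← hgm, hδ]
    have e2 : lamB (g y' * (δ (g m) * g n)) = T ⟨n * y', hMm _ n.2 _ y'.2⟩ m := by
      rw [← mul_assoc, hRF.sym, ← mul_assoc, ← hgm, hδ]
    have e3 : lamB (g y' * (g m * δ (g n))) = T ⟨y' * m, hMm _ y'.2 _ m.2⟩ n := by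
      rw [← mul_assoc, ← hgm, hδ]
    rw [mul_sub, mul_add, map_sub, map_add, e1, e2, e3]
    obtain ⟨s, hs⟩ := pd y' m n ((hM _).1 y'.2) ((hM _).1 m.2) ((hM _).1 n.2)
    have h1 : ρ y' ⟨m * n, hMm _ m.2 _ n.2⟩ = ρ ⟨n * y', hMm _ n.2 _ y'.2⟩ m +
        ρ ⟨y' * m, hMm _ y'.2 _ m.2⟩ n + ℓ * s := by
      apply hinj
      rw [map_add, map_add, map_mul, cst, hs, hρ, hρ, hρ]
      ring
    show cv.κ (ρ y' ⟨m * n, hMm _ m.2 _ n.2⟩) - (cv.κ (ρ ⟨n * y', hMm _ n.2 _ y'.2⟩ m) +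
        cv.κ (ρ ⟨y' * m, hMm _ y'.2 _ m.2⟩ n)) = 0
    rw [h1, map_add, map_add, map_mul, hκ]
    ring
  have hW : ∀ w ∈ W, δ (αB w) = 0 := by
    intro w hw
    refine hnd _ fun y' => ?_
    rw [← hgv, hδ]
    exact hT0 _ _ ⟨0, by rw [map_zero]; exact (pe w hw y').symm⟩
  refine ⟨δ, hDer, hW, ?_, ?_⟩
  · intro u y' hyr hyu
    have hy : y' ∈ M := (hM _).2 hyr
    have huy : α u⁻¹ * y' ∈ M := hMm _ (hMv _) _ hy
    refine ⟨ρ ⟨α u⁻¹ * y', huy⟩ ⟨α u, hMv u⟩, ?_, ?_⟩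
    · rw [hρ]
      show (ℓ : K) * par C cc r k (α u⁻¹ * y') (α u) = _
      rw [pf u y' hyu]
    · have e1 : lamB (β (f.q y') * δ (αB u) * αB u⁻¹) =
          lamB (g ⟨α u⁻¹ * y', huy⟩ * δ (g ⟨α u, hMv u⟩)) := by
        rw [hgm ⟨α u⁻¹, hMv _⟩ ⟨y', hy⟩, hgv, hgv, hRF.sym, ← mul_assoc]
        rfl
      rw [e1, hδ]
  · intro e he
    obtain ⟨her, hpe⟩ := pg e he
    refine ⟨her, ?_⟩
    have heM : e ∈ M := (hM _).2 her
    have h1 : δ (g ⟨e * α (r ^ ℓ), hMm _ heM _ (hMv _)⟩) = 0 := by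
      refine hnd _ fun y' => ?_
      rw [hδ]
      exact hT0 _ _ (hpe y' ((hM _).1 y'.2))
    rw [hgm ⟨e, heM⟩ ⟨α (r ^ ℓ), hMv _⟩, hgv, hDer, hW _ hrW, mul_zero, add_zero] at h1
    have h2 : δ (g ⟨e, heM⟩) * αB (r ^ ℓ) * αB (r ^ ℓ)⁻¹ = 0 := by rw [h1, zero_mul]
    rw [mul_assoc, ← map_mul, mul_inv_cancel, map_one, mul_one] at h2
    exact h2

end Pool.Agent.PST.H81
end
end -- Pool.Agent.Helper81_PST.DRX

section -- Pool.Agent.Helper91_PST.REL

/-!
# Squad PST, row REL: the relation in the extension ring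
-/

set_option autoImplicit false

open scoped BigOperators

noncomputable section

namespace Pool.Agent.PST.H91

open Pool.Agent.PSS
open Finset

section

variable {A B X Y : Type} [Ring A] [Ring B] [Ring X] [Ring Y] {i : A →+* B} {n : A → A → A}
  {μ c d : B → B → B} {jX : B →+ X} {sX : A →+ X} {π : Y →+* X} {j : B →+ Y} {s : A →+ Y} {σ : Y}

theorem rel_pow (h : Eyx i n μ c d jX sX π j s σ) (hn : ∀ a a', i (n a a') = μ (i a) (i a'))
    (r : A) (k : B) : ∀ t : ℕ, ∃ (N : A) (g g' : B),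
      i N = ∑ q ∈ range t, μ (i r ^ q) (i r) * i r ^ (t - 1 - q) ∧
      (s r + j k) ^ t = s (r ^ t) + σ * s N + j g + σ * j g' := by
  intro t
  induction t with
  | zero =>
    refine ⟨0, 0, 0, by simp, ?_⟩
    rw [pow_zero, pow_zero, h.s1]
    simp
  | succ t ih =>
    obtain ⟨N, g, g', hN, hp⟩ := ih
    refine ⟨n (r ^ t) r + N * r, c (i (r ^ t)) (i r) + g * i r + i (r ^ t) * k,
      d (i (r ^ t)) (i r) + c (i N) (i r) + μ g (i r) + g' * i r + μ (i (r ^ t)) k + i N * k,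
      ?_, ?_⟩
    · rw [map_add, hn, map_mul, hN, Finset.sum_range_succ, map_pow, Finset.sum_mul]
      rw [add_comm]
      congr 1
      · refine Finset.sum_congr rfl fun q hq => ?_
        have hq' := Finset.mem_range.1 hq
        rw [mul_assoc, ← pow_succ]
        congr 2
        omega
      · simp
    · have e1 : ∀ a a', σ * (s a * s a') = σ * s (a * a') + σ * j (c (i a) (i a')) := by
        intro a a'
        rw [h.ss, mul_add, mul_add, mul_add, ← mul_assoc σ σ, ← mul_assoc σ σ, h.sq, zero_mul,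
          zero_mul, add_zero, add_zero]
      have e2 : ∀ a m, σ * (s a * j m) = σ * j (i a * m) := by
        intro a m
        rw [h.sj, mul_add, ← mul_assoc σ σ, h.sq, zero_mul, add_zero]
      have e3 : ∀ a m, σ * (j m * s a) = σ * j (m * i a) := by
        intro a m
        rw [h.js, mul_add, ← mul_assoc σ σ, h.sq, zero_mul, add_zero]
      rw [pow_succ, hp]
      have e4 : (s (r ^ t) + σ * s N + j g + σ * j g') * (s r + j k) =
          s (r ^ t) * s r + σ * (s N * s r) + j g * s r + σ * (j g' * s r) + s (r ^ t) * j k +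
          σ * (s N * j k) + j g * j k + σ * (j g' * j k) := by noncomm_ring
      rw [e4, e1, e2, e3, h.ss, h.sj, h.js, h.jj, h.jj, mul_zero, ← pow_succ]
      simp only [map_add, mul_add]
      abel

end

theorem rel (eyr : EyrStmt) : RelStmt := by
  intro A B X _ _ _ i μ c d p j s ℓ r w e k hi hμ hc hd nμ nc nd hμi hdl hdc hbr hX hw hwc hwk hrh
    he
  obtain ⟨n, Y, _, π, jY, sY, σ, hn, h⟩ := eyr A B X i μ c d p j s hi hμ hc hd nμ nc nd hμi hdl hdc
    hbr hX
  have hn0 : ∀ a, n w a = 0 := fun a => hi (by rw [hn, (hwc _).1, map_zero])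
  have hn0' : ∀ a, n a w = 0 := fun a => hi (by rw [hn, (hwc _).2.1, map_zero])
  have hwr : w * r = r * w := by
    rw [← hw, ← pow_succ, ← pow_succ']
  have h1 : (sY r + jY k) * sY w = sY w * (sY r + jY k) := by
    rw [add_mul, mul_add, h.ss, h.ss, h.js, h.sj, hn0, hn0', hwr, hwk, (hwc _).1, (hwc _).2.1,
      (hwc _).2.2.1, (hwc _).2.2.2.1, (hwc _).2.2.2.2.1, (hwc _).2.2.2.2.2]
  have hπ0 : π (sY r + jY k) = s r + j k := by rw [map_add, h.πs, h.πj]
  obtain ⟨N, g, g', hN, hp⟩ := rel_pow h hn r k ℓ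
  have hNe : N = e := hi (hN.trans he.symm)
  subst hNe
  have h2 : π ((sY r + jY k) ^ ℓ - sY w) = 0 := by
    rw [map_sub, map_pow, hπ0, hrh, h.πs, sub_self]
  obtain ⟨y1, hy1⟩ := h.ker _ h2
  have h3 : σ * ((sY r + jY k) * y1 - y1 * (sY r + jY k)) = 0 := by
    have h4 : (sY r + jY k) * ((sY r + jY k) ^ ℓ - sY w) =
        ((sY r + jY k) ^ ℓ - sY w) * (sY r + jY k) := by
      rw [mul_sub, sub_mul, h1, ← pow_succ, ← pow_succ']
    rw [hy1] at h4
    rw [mul_sub, ← mul_assoc, h.cen, mul_assoc, h4, mul_assoc, sub_self]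
  have h5 := h.inj _ h3
  rw [map_sub, map_mul, map_mul, hπ0, sub_eq_zero] at h5
  rw [hw] at hp
  have h6 : σ * y1 = σ * sY N + jY g + σ * jY g' := by
    rw [← hy1, hp]
    abel
  have h7 : j g = 0 := by
    have h8 := congrArg π h6
    rw [map_add, map_add, map_mul, map_mul, map_mul, h.πσ, h.πj, zero_mul, zero_mul, zero_mul,
      zero_add, add_zero] at h8
    exact h8.symm
  have h9 : jY g = 0 := h.j0 g ((hX.j0 g).1 h7)
  rw [h9, add_zero, ← mul_add] at h6
  have h10 : σ * (y1 - (sY N + jY g')) = 0 := by rw [mul_sub, h6, sub_self]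
  have h11 := h.inj _ h10
  rw [map_sub, map_add, h.πs, h.πj, sub_eq_zero] at h11
  exact ⟨g', by rw [← h11, h5]⟩

end Pool.Agent.PST.H91
end
end -- Pool.Agent.Helper91_PST.REL

section -- Pool.Agent.Helper95_PST.EYR

set_option autoImplicit false

open scoped BigOperators

noncomputable section

namespace Pool.Agent.PST.H95

open Pool.Agent.PSS
open Pool.Agent.PST

/-- the elements `a0 + σ a1 + b0 + σ b1` -/
@[ext]
structure S4 (A B : Type) where
  a0 : A
  a1 : A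
  b0 : B
  b1 : B

/-- the data for `Y` -/
structure Dt {A B : Type} [Ring A] [Ring B] (i : A →+* B) (n : A → A → A) (μ c d : B → B → B) :
    Prop where
  inj : Function.Injective i
  bμ : Bad μ
  bc : Bad c
  bd : Bad d
  nμ : Nrm μ
  nc : Nrm c
  nd : Nrm d
  hn : ∀ a a', i (n a a') = μ (i a) (i a')
  cμ : ∀ x y z, dl μ x y z = 0
  cc : ∀ a₁ a₂ a₃, In i (dl c (i a₁) (i a₂) (i a₃))
  cb : ∀ a₁ a₂ a₃, In i (brk μ c (i a₁) (i a₂) (i a₃) - dl d (i a₁) (i a₂) (i a₃))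

section

variable {A B : Type} [Ring A] [Ring B] {i : A →+* B} {n : A → A → A} {μ c d : B → B → B}

theorem Bad.zl {c : B → B → B} (h : Bad c) (x : B) : c 0 x = 0 := by
  have := h.l 0 0 x
  rw [add_zero] at this
  exact left_eq_add.1 this

theorem Bad.zr {c : B → B → B} (h : Bad c) (x : B) : c x 0 = 0 := by
  have := h.r x 0 0
  rw [add_zero] at this
  exact left_eq_add.1 this

theorem Bad.ngl {c : B → B → B} (h : Bad c) (x y : B) : c (-x) y = - c x y := by
  rw [eq_neg_iff_add_eq_zero, ← h.l, neg_add_cancel, Bad.zl h]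

theorem Bad.ngr {c : B → B → B} (h : Bad c) (x y : B) : c x (-y) = - c x y := by
  rw [eq_neg_iff_add_eq_zero, ← h.r, neg_add_cancel, Bad.zr h]

theorem Bad.sl {c : B → B → B} (h : Bad c) (x y z : B) : c (x - y) z = c x z - c y z := by
  rw [sub_eq_add_neg, h.l, Bad.ngl h, sub_eq_add_neg]

theorem Bad.sr {c : B → B → B} (h : Bad c) (x y z : B) : c x (y - z) = c x y - c x z := by
  rw [sub_eq_add_neg, h.r, Bad.ngr h, sub_eq_add_neg]

theorem Dt.nl (h : Dt i n μ c d) (x y z : A) : n (x + y) z = n x z + n y z := by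
  apply h.inj
  rw [map_add, h.hn, h.hn, h.hn, map_add, h.bμ.l]

theorem Dt.nr (h : Dt i n μ c d) (x y z : A) : n x (y + z) = n x y + n x z := by
  apply h.inj
  rw [map_add, h.hn, h.hn, h.hn, map_add, h.bμ.r]

theorem Dt.n1l (h : Dt i n μ c d) (x : A) : n 1 x = 0 := by
  apply h.inj
  rw [h.hn, map_one, map_zero]
  exact h.nμ.1 _

theorem Dt.n1r (h : Dt i n μ c d) (x : A) : n x 1 = 0 := by
  apply h.inj
  rw [h.hn, map_one, map_zero]
  exact h.nμ.2 _

theorem Dt.n0l (h : Dt i n μ c d) (x : A) : n 0 x = 0 := by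
  apply h.inj
  rw [h.hn, map_zero]
  exact Bad.zl h.bμ _

theorem Dt.n0r (h : Dt i n μ c d) (x : A) : n x 0 = 0 := by
  apply h.inj
  rw [h.hn, map_zero]
  exact Bad.zr h.bμ _

theorem Dt.nc' (h : Dt i n μ c d) (x y z : A) :
    n x y * z + n (x * y) z = x * n y z + n x (y * z) := by
  apply h.inj
  have h1 := h.cμ (i x) (i y) (i z)
  simp only [dl] at h1
  simp only [map_add, map_mul, h.hn]
  have h2 : i x * μ (i y) (i z) + μ (i x) (i y * i z) -
      (μ (i x) (i y) * i z + μ (i x * i y) (i z)) = 0 := by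
    rw [← h1]
    abel
  exact (sub_eq_zero.1 h2).symm

instance s4addi : Add (S4 A B) := ⟨fun x y => ⟨x.a0 + y.a0, x.a1 + y.a1, x.b0 + y.b0, x.b1 + y.b1⟩⟩

instance s4zero : Zero (S4 A B) := ⟨⟨0, 0, 0, 0⟩⟩

instance s4neg : Neg (S4 A B) := ⟨fun x => ⟨-x.a0, -x.a1, -x.b0, -x.b1⟩⟩

/-- the additive group -/
instance s4add : AddCommGroup (S4 A B) where
  add_assoc x y z := S4.ext (add_assoc _ _ _) (add_assoc _ _ _) (add_assoc _ _ _)
    (add_assoc _ _ _)
  zero_add x := S4.ext (zero_add _) (zero_add _) (zero_add _) (zero_add _)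
  add_zero x := S4.ext (add_zero _) (add_zero _) (add_zero _) (add_zero _)
  add_comm x y := S4.ext (add_comm _ _) (add_comm _ _) (add_comm _ _) (add_comm _ _)
  neg_add_cancel x := S4.ext (neg_add_cancel _) (neg_add_cancel _) (neg_add_cancel _)
    (neg_add_cancel _)
  nsmul := nsmulRec
  zsmul := zsmulRec

theorem add_a0 (x y : S4 A B) : (x + y).a0 = x.a0 + y.a0 := rfl
theorem add_a1 (x y : S4 A B) : (x + y).a1 = x.a1 + y.a1 := rfl
theorem add_b0 (x y : S4 A B) : (x + y).b0 = x.b0 + y.b0 := rfl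
theorem add_b1 (x y : S4 A B) : (x + y).b1 = x.b1 + y.b1 := rfl
theorem zero_a0 : (0 : S4 A B).a0 = 0 := rfl
theorem zero_a1 : (0 : S4 A B).a1 = 0 := rfl
theorem zero_b0 : (0 : S4 A B).b0 = 0 := rfl
theorem zero_b1 : (0 : S4 A B).b1 = 0 := rfl

/-- the multiplication -/
def mul4 (i : A →+* B) (n : A → A → A) (μ c d : B → B → B) (x y : S4 A B) : S4 A B :=
  ⟨x.a0 * y.a0, x.a0 * y.a1 + x.a1 * y.a0 + n x.a0 y.a0,
    i x.a0 * y.b0 + x.b0 * i y.a0 + c (i x.a0) (i y.a0),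
    i x.a0 * y.b1 + i x.a1 * y.b0 + x.b0 * i y.a1 + x.b1 * i y.a0 + μ (i x.a0) y.b0 +
      μ x.b0 (i y.a0) + c (i x.a1) (i y.a0) + c (i x.a0) (i y.a1) + d (i x.a0) (i y.a0)⟩

/-- the nonassociative ring -/
@[instance_reducible]
def nar (h : Dt i n μ c d) : NonAssocRing (S4 A B) :=
  { s4add with
    mul := mul4 i n μ c d
    left_distrib := by
      intro x y z
      apply S4.ext
      · exact mul_add _ _ _
      · change x.a0 * (y.a1 + z.a1) + x.a1 * (y.a0 + z.a0) + n x.a0 (y.a0 + z.a0) =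
          x.a0 * y.a1 + x.a1 * y.a0 + n x.a0 y.a0 + (x.a0 * z.a1 + x.a1 * z.a0 + n x.a0 z.a0)
        rw [h.nr, mul_add, mul_add]
        abel
      · change i x.a0 * (y.b0 + z.b0) + x.b0 * i (y.a0 + z.a0) + c (i x.a0) (i (y.a0 + z.a0)) =
          i x.a0 * y.b0 + x.b0 * i y.a0 + c (i x.a0) (i y.a0) +
          (i x.a0 * z.b0 + x.b0 * i z.a0 + c (i x.a0) (i z.a0))
        rw [map_add, h.bc.r, mul_add, mul_add]
        abel
      · change i x.a0 * (y.b1 + z.b1) + i x.a1 * (y.b0 + z.b0) + x.b0 * i (y.a1 + z.a1) +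
          x.b1 * i (y.a0 + z.a0) + μ (i x.a0) (y.b0 + z.b0) + μ x.b0 (i (y.a0 + z.a0)) +
          c (i x.a1) (i (y.a0 + z.a0)) + c (i x.a0) (i (y.a1 + z.a1)) +
          d (i x.a0) (i (y.a0 + z.a0)) =
          i x.a0 * y.b1 + i x.a1 * y.b0 + x.b0 * i y.a1 + x.b1 * i y.a0 + μ (i x.a0) y.b0 +
          μ x.b0 (i y.a0) + c (i x.a1) (i y.a0) + c (i x.a0) (i y.a1) + d (i x.a0) (i y.a0) +
          (i x.a0 * z.b1 + i x.a1 * z.b0 + x.b0 * i z.a1 + x.b1 * i z.a0 + μ (i x.a0) z.b0 +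
          μ x.b0 (i z.a0) + c (i x.a1) (i z.a0) + c (i x.a0) (i z.a1) + d (i x.a0) (i z.a0))
        simp only [map_add, h.bc.r, h.bμ.r, h.bd.r, mul_add]
        abel
    right_distrib := by
      intro x y z
      apply S4.ext
      · exact add_mul _ _ _
      · change (x.a0 + y.a0) * z.a1 + (x.a1 + y.a1) * z.a0 + n (x.a0 + y.a0) z.a0 =
          x.a0 * z.a1 + x.a1 * z.a0 + n x.a0 z.a0 + (y.a0 * z.a1 + y.a1 * z.a0 + n y.a0 z.a0)
        rw [h.nl, add_mul, add_mul]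
        abel
      · change i (x.a0 + y.a0) * z.b0 + (x.b0 + y.b0) * i z.a0 + c (i (x.a0 + y.a0)) (i z.a0) =
          i x.a0 * z.b0 + x.b0 * i z.a0 + c (i x.a0) (i z.a0) +
          (i y.a0 * z.b0 + y.b0 * i z.a0 + c (i y.a0) (i z.a0))
        rw [map_add, h.bc.l, add_mul, add_mul]
        abel
      · change i (x.a0 + y.a0) * z.b1 + i (x.a1 + y.a1) * z.b0 + (x.b0 + y.b0) * i z.a1 +
          (x.b1 + y.b1) * i z.a0 + μ (i (x.a0 + y.a0)) z.b0 + μ (x.b0 + y.b0) (i z.a0) +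
          c (i (x.a1 + y.a1)) (i z.a0) + c (i (x.a0 + y.a0)) (i z.a1) +
          d (i (x.a0 + y.a0)) (i z.a0) =
          i x.a0 * z.b1 + i x.a1 * z.b0 + x.b0 * i z.a1 + x.b1 * i z.a0 + μ (i x.a0) z.b0 +
          μ x.b0 (i z.a0) + c (i x.a1) (i z.a0) + c (i x.a0) (i z.a1) + d (i x.a0) (i z.a0) +
          (i y.a0 * z.b1 + i y.a1 * z.b0 + y.b0 * i z.a1 + y.b1 * i z.a0 + μ (i y.a0) z.b0 +
          μ y.b0 (i z.a0) + c (i y.a1) (i z.a0) + c (i y.a0) (i z.a1) + d (i y.a0) (i z.a0))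
        simp only [map_add, h.bc.l, h.bμ.l, h.bd.l, add_mul]
        abel
    zero_mul := by
      intro x
      apply S4.ext
      · exact zero_mul _
      · change 0 * x.a1 + 0 * x.a0 + n 0 x.a0 = 0
        rw [h.n0l, zero_mul, zero_mul, add_zero, add_zero]
      · change i 0 * x.b0 + 0 * i x.a0 + c (i 0) (i x.a0) = 0
        rw [map_zero, Bad.zl h.bc, zero_mul, zero_mul, add_zero, add_zero]
      · change i 0 * x.b1 + i 0 * x.b0 + 0 * i x.a1 + 0 * i x.a0 + μ (i 0) x.b0 +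
          μ 0 (i x.a0) + c (i 0) (i x.a0) + c (i 0) (i x.a1) + d (i 0) (i x.a0) = 0
        simp only [map_zero, Bad.zl h.bc, Bad.zl h.bμ, Bad.zl h.bd, zero_mul, add_zero]
    mul_zero := by
      intro x
      apply S4.ext
      · exact mul_zero _
      · change x.a0 * 0 + x.a1 * 0 + n x.a0 0 = 0
        rw [h.n0r, mul_zero, mul_zero, add_zero, add_zero]
      · change i x.a0 * 0 + x.b0 * i 0 + c (i x.a0) (i 0) = 0
        rw [map_zero, Bad.zr h.bc, mul_zero, mul_zero, add_zero, add_zero]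
      · change i x.a0 * 0 + i x.a1 * 0 + x.b0 * i 0 + x.b1 * i 0 + μ (i x.a0) 0 +
          μ x.b0 (i 0) + c (i x.a1) (i 0) + c (i x.a0) (i 0) + d (i x.a0) (i 0) = 0
        simp only [map_zero, Bad.zr h.bc, Bad.zr h.bμ, Bad.zr h.bd, mul_zero, add_zero]
    one := ⟨1, 0, 0, 0⟩
    one_mul := by
      intro x
      apply S4.ext
      · exact one_mul _
      · change 1 * x.a1 + 0 * x.a0 + n 1 x.a0 = x.a1
        rw [h.n1l, zero_mul, one_mul, add_zero, add_zero]
      · change i 1 * x.b0 + 0 * i x.a0 + c (i 1) (i x.a0) = x.b0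
        rw [map_one, h.nc.1, zero_mul, one_mul, add_zero, add_zero]
      · change i 1 * x.b1 + i 0 * x.b0 + 0 * i x.a1 + 0 * i x.a0 + μ (i 1) x.b0 +
          μ 0 (i x.a0) + c (i 0) (i x.a0) + c (i 1) (i x.a1) + d (i 1) (i x.a0) = x.b1
        simp only [map_zero, map_one, Bad.zl h.bc, Bad.zl h.bμ, h.nμ.1, h.nc.1, h.nd.1,
          zero_mul, one_mul, add_zero]
    mul_one := by
      intro x
      apply S4.ext
      · exact mul_one _
      · change x.a0 * 0 + x.a1 * 1 + n x.a0 1 = x.a1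
        rw [h.n1r, mul_zero, mul_one, zero_add, add_zero]
      · change i x.a0 * 0 + x.b0 * i 1 + c (i x.a0) (i 1) = x.b0
        rw [map_one, h.nc.2, mul_zero, mul_one, zero_add, add_zero]
      · change i x.a0 * 0 + i x.a1 * 0 + x.b0 * i 0 + x.b1 * i 1 + μ (i x.a0) 0 +
          μ x.b0 (i 1) + c (i x.a1) (i 1) + c (i x.a0) (i 0) + d (i x.a0) (i 1) = x.b1
        simp only [map_zero, map_one, Bad.zr h.bc, Bad.zr h.bμ, h.nμ.2, h.nc.2, h.nd.2,
          mul_zero, mul_one, add_zero, zero_add] }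

/-- equal modulo `i A` in the last two components -/
def rl (i : A →+* B) (x y : S4 A B) : Prop :=
  x.a0 = y.a0 ∧ x.a1 = y.a1 ∧ In i (x.b0 - y.b0) ∧ In i (x.b1 - y.b1)

theorem rl_iseqv (i : A →+* B) : Equivalence (rl i) where
  refl x := ⟨rfl, rfl, ⟨0, by rw [map_zero, sub_self]⟩, ⟨0, by rw [map_zero, sub_self]⟩⟩
  symm := by
    rintro x y ⟨h1, h2, ⟨a, ha⟩, ⟨b, hb⟩⟩
    exact ⟨h1.symm, h2.symm, ⟨-a, by rw [map_neg, ha, neg_sub]⟩, ⟨-b, by rw [map_neg, hb, neg_sub]⟩⟩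
  trans := by
    rintro x y z ⟨h1, h2, ⟨a, ha⟩, ⟨b, hb⟩⟩ ⟨h3, h4, ⟨a', ha'⟩, ⟨b', hb'⟩⟩
    exact ⟨h1.trans h3, h2.trans h4, ⟨a + a', by rw [map_add, ha, ha']; abel⟩,
      ⟨b + b', by rw [map_add, hb, hb']; abel⟩⟩

/-- the congruence relation -/
def rc (h : Dt i n μ c d) : letI := nar h; RingCon (S4 A B) :=
  letI := nar h
  { r := rl i
    iseqv := rl_iseqv i
    add' := by
      rintro w x y z ⟨h1, h2, ⟨a, ha⟩, ⟨b, hb⟩⟩ ⟨h3, h4, ⟨a', ha'⟩, ⟨b', hb'⟩⟩
      refine ⟨?_, ?_, ⟨a + a', ?_⟩, ⟨b + b', ?_⟩⟩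
      · change w.a0 + y.a0 = x.a0 + z.a0
        rw [h1, h3]
      · change w.a1 + y.a1 = x.a1 + z.a1
        rw [h2, h4]
      · change i (a + a') = w.b0 + y.b0 - (x.b0 + z.b0)
        rw [map_add, ha, ha']
        abel
      · change i (b + b') = w.b1 + y.b1 - (x.b1 + z.b1)
        rw [map_add, hb, hb']
        abel
    mul' := by
      rintro w x y z ⟨h1, h2, ⟨a, ha⟩, ⟨b, hb⟩⟩ ⟨h3, h4, ⟨a', ha'⟩, ⟨b', hb'⟩⟩
      refine ⟨?_, ?_, ⟨x.a0 * a' + a * z.a0, ?_⟩,
        ⟨x.a0 * b' + x.a1 * a' + a * z.a1 + b * z.a0 + n x.a0 a' + n a z.a0, ?_⟩⟩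
      · change w.a0 * y.a0 = x.a0 * z.a0
        rw [h1, h3]
      · change w.a0 * y.a1 + w.a1 * y.a0 + n w.a0 y.a0 = x.a0 * z.a1 + x.a1 * z.a0 + n x.a0 z.a0
        rw [h1, h2, h3, h4]
      · change i (x.a0 * a' + a * z.a0) = i w.a0 * y.b0 + w.b0 * i y.a0 + c (i w.a0) (i y.a0) -
          (i x.a0 * z.b0 + x.b0 * i z.a0 + c (i x.a0) (i z.a0))
        rw [map_add, map_mul, map_mul, ha, ha', h1, h3, mul_sub, sub_mul]
        abel
      · change i (x.a0 * b' + x.a1 * a' + a * z.a1 + b * z.a0 + n x.a0 a' + n a z.a0) =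
          i w.a0 * y.b1 + i w.a1 * y.b0 + w.b0 * i y.a1 + w.b1 * i y.a0 + μ (i w.a0) y.b0 +
          μ w.b0 (i y.a0) + c (i w.a1) (i y.a0) + c (i w.a0) (i y.a1) + d (i w.a0) (i y.a0) -
          (i x.a0 * z.b1 + i x.a1 * z.b0 + x.b0 * i z.a1 + x.b1 * i z.a0 + μ (i x.a0) z.b0 +
          μ x.b0 (i z.a0) + c (i x.a1) (i z.a0) + c (i x.a0) (i z.a1) + d (i x.a0) (i z.a0))
        simp only [map_add, map_mul, h.hn]
        rw [ha, ha', hb, hb', h1, h2, h3, h4, Bad.sr h.bμ, Bad.sl h.bμ]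
        simp only [mul_sub, sub_mul]
        abel }

theorem rl_assoc (h : Dt i n μ c d) (x y z : S4 A B) :
    rl i (mul4 i n μ c d (mul4 i n μ c d x y) z) (mul4 i n μ c d x (mul4 i n μ c d y z)) := by
  refine ⟨mul_assoc _ _ _, ?_, ?_, ?_⟩
  · change x.a0 * y.a0 * z.a1 + (x.a0 * y.a1 + x.a1 * y.a0 + n x.a0 y.a0) * z.a0 +
      n (x.a0 * y.a0) z.a0 = x.a0 * (y.a0 * z.a1 + y.a1 * z.a0 + n y.a0 z.a0) +
      x.a1 * (y.a0 * z.a0) + n x.a0 (y.a0 * z.a0)
    have h1 := h.nc' x.a0 y.a0 z.a0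
    simp only [add_mul, mul_add, mul_assoc] at h1 ⊢
    have h2 : x.a0 * (y.a0 * z.a1) + (x.a0 * (y.a1 * z.a0) + x.a1 * (y.a0 * z.a0) +
        n x.a0 y.a0 * z.a0) + n (x.a0 * y.a0) z.a0 = x.a0 * (y.a0 * z.a1) +
        x.a0 * (y.a1 * z.a0) + x.a1 * (y.a0 * z.a0) +
        (n x.a0 y.a0 * z.a0 + n (x.a0 * y.a0) z.a0) := by abel
    rw [h2, h1]
    abel
  · obtain ⟨a, ha⟩ := h.cc x.a0 y.a0 z.a0
    refine ⟨-a, ?_⟩
    change i (-a) = i (x.a0 * y.a0) * z.b0 + (i x.a0 * y.b0 + x.b0 * i y.a0 +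
      c (i x.a0) (i y.a0)) * i z.a0 + c (i (x.a0 * y.a0)) (i z.a0) -
      (i x.a0 * (i y.a0 * z.b0 + y.b0 * i z.a0 + c (i y.a0) (i z.a0)) + x.b0 * i (y.a0 * z.a0) +
      c (i x.a0) (i (y.a0 * z.a0)))
    rw [map_neg, ha, map_mul, map_mul]
    simp only [dl, add_mul, mul_add, mul_assoc]
    abel
  · obtain ⟨e1, he1⟩ := h.cb x.a0 y.a0 z.a0
    obtain ⟨e2, he2⟩ := h.cc x.a1 y.a0 z.a0
    obtain ⟨e3, he3⟩ := h.cc x.a0 y.a1 z.a0
    obtain ⟨e4, he4⟩ := h.cc x.a0 y.a0 z.a1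
    have m1 := h.cμ x.b0 (i y.a0) (i z.a0)
    have m2 := h.cμ (i x.a0) y.b0 (i z.a0)
    have m3 := h.cμ (i x.a0) (i y.a0) z.b0
    refine ⟨e1 - e2 - e3 - e4, ?_⟩
    change i (e1 - e2 - e3 - e4) = i (x.a0 * y.a0) * z.b1 +
      i (x.a0 * y.a1 + x.a1 * y.a0 + n x.a0 y.a0) * z.b0 +
      (i x.a0 * y.b0 + x.b0 * i y.a0 + c (i x.a0) (i y.a0)) * i z.a1 +
      (i x.a0 * y.b1 + i x.a1 * y.b0 + x.b0 * i y.a1 + x.b1 * i y.a0 + μ (i x.a0) y.b0 +
      μ x.b0 (i y.a0) + c (i x.a1) (i y.a0) + c (i x.a0) (i y.a1) + d (i x.a0) (i y.a0)) * i z.a0 +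
      μ (i (x.a0 * y.a0)) z.b0 + μ (i x.a0 * y.b0 + x.b0 * i y.a0 + c (i x.a0) (i y.a0)) (i z.a0) +
      c (i (x.a0 * y.a1 + x.a1 * y.a0 + n x.a0 y.a0)) (i z.a0) +
      c (i (x.a0 * y.a0)) (i z.a1) + d (i (x.a0 * y.a0)) (i z.a0) -
      (i x.a0 * (i y.a0 * z.b1 + i y.a1 * z.b0 + y.b0 * i z.a1 + y.b1 * i z.a0 +
      μ (i y.a0) z.b0 + μ y.b0 (i z.a0) + c (i y.a1) (i z.a0) + c (i y.a0) (i z.a1) +
      d (i y.a0) (i z.a0)) +
      i x.a1 * (i y.a0 * z.b0 + y.b0 * i z.a0 + c (i y.a0) (i z.a0)) +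
      x.b0 * i (y.a0 * z.a1 + y.a1 * z.a0 + n y.a0 z.a0) + x.b1 * i (y.a0 * z.a0) +
      μ (i x.a0) (i y.a0 * z.b0 + y.b0 * i z.a0 + c (i y.a0) (i z.a0)) +
      μ x.b0 (i (y.a0 * z.a0)) + c (i x.a1) (i (y.a0 * z.a0)) +
      c (i x.a0) (i (y.a0 * z.a1 + y.a1 * z.a0 + n y.a0 z.a0)) + d (i x.a0) (i (y.a0 * z.a0)))
    have key : i (e1 - e2 - e3 - e4) = (brk μ c (i x.a0) (i y.a0) (i z.a0) -
        dl d (i x.a0) (i y.a0) (i z.a0)) - dl c (i x.a1) (i y.a0) (i z.a0) -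
        dl c (i x.a0) (i y.a1) (i z.a0) - dl c (i x.a0) (i y.a0) (i z.a1) -
        dl μ x.b0 (i y.a0) (i z.a0) - dl μ (i x.a0) y.b0 (i z.a0) -
        dl μ (i x.a0) (i y.a0) z.b0 := by
      rw [m1, m2, m3, map_sub, map_sub, map_sub, he1, he2, he3, he4]
      abel
    rw [key]
    simp only [dl, brk, map_add, map_mul, h.hn, h.bc.l, h.bc.r, h.bμ.l, h.bμ.r, add_mul, mul_add,
      mul_assoc]
    abel

theorem sig_mul (h : Dt i n μ c d) (x : S4 A B) :
    mul4 i n μ c d ⟨0, 1, 0, 0⟩ x = ⟨0, x.a0, 0, x.b0⟩ := by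
  apply S4.ext
  · exact zero_mul _
  · change 0 * x.a1 + 1 * x.a0 + n 0 x.a0 = x.a0
    rw [h.n0l, zero_mul, one_mul, zero_add, add_zero]
  · change i 0 * x.b0 + 0 * i x.a0 + c (i 0) (i x.a0) = 0
    rw [map_zero, Bad.zl h.bc, zero_mul, zero_mul, add_zero, add_zero]
  · change i 0 * x.b1 + i 1 * x.b0 + 0 * i x.a1 + 0 * i x.a0 + μ (i 0) x.b0 +
      μ 0 (i x.a0) + c (i 1) (i x.a0) + c (i 0) (i x.a1) + d (i 0) (i x.a0) = x.b0
    simp only [map_zero, map_one, Bad.zl h.bc, Bad.zl h.bμ, Bad.zl h.bd, h.nc.1, zero_mul, one_mul,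
      add_zero, zero_add]

theorem mul_sig (h : Dt i n μ c d) (x : S4 A B) :
    mul4 i n μ c d x ⟨0, 1, 0, 0⟩ = ⟨0, x.a0, 0, x.b0⟩ := by
  apply S4.ext
  · exact mul_zero _
  · change x.a0 * 1 + x.a1 * 0 + n x.a0 0 = x.a0
    rw [h.n0r, mul_zero, mul_one, add_zero, add_zero]
  · change i x.a0 * 0 + x.b0 * i 0 + c (i x.a0) (i 0) = 0
    rw [map_zero, Bad.zr h.bc, mul_zero, mul_zero, add_zero, add_zero]
  · change i x.a0 * 0 + i x.a1 * 0 + x.b0 * i 1 + x.b1 * i 0 + μ (i x.a0) 0 +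
      μ x.b0 (i 0) + c (i x.a1) (i 0) + c (i x.a0) (i 1) + d (i x.a0) (i 0) = x.b0
    simp only [map_zero, map_one, Bad.zr h.bc, Bad.zr h.bμ, Bad.zr h.bd, h.nc.2, mul_zero, mul_one,
      add_zero, zero_add]

end

theorem eyr : EyrStmt := by
  intro A B X _ _ _ i μ c d p j s hi bμ bc bd nμ nc nd hμ cμ cc cb hX
  choose n hn using hμ
  have h : Dt i n μ c d := ⟨hi, bμ, bc, bd, nμ, nc, nd, hn, cμ, cc, cb⟩
  let iS := nar h
  have hq : ∀ x y : S4 A B, ((x : (rc h).Quotient) = y) ↔ rl i x y := fun x y => RingCon.eq (rc h)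
  have hm : ∀ x y : S4 A B, ((x : (rc h).Quotient) * (y : (rc h).Quotient)) =
      ((mul4 i n μ c d x y : S4 A B) : (rc h).Quotient) := fun x y => rfl
  let rY : Ring (rc h).Quotient :=
    { (inferInstance : NonAssocRing (rc h).Quotient) with
      mul_assoc := by
        intro x y z
        induction x using Quotient.inductionOn with
        | h x =>
          induction y using Quotient.inductionOn with
          | h y =>
            induction z using Quotient.inductionOn with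
            | h z => exact (hq _ _).2 (rl_assoc h x y z) }
  let f : S4 A B → X := fun x => s x.a0 + j x.b0
  have hf : ∀ x y : S4 A B, rl i x y → f x = f y := by
    rintro x y ⟨h1, _, h3, _⟩
    change s x.a0 + j x.b0 = s y.a0 + j y.b0
    have h4 := (hX.j0 _).2 h3
    rw [map_sub, sub_eq_zero] at h4
    rw [h1, h4]
  let π : (rc h).Quotient →+* X :=
    { toFun := fun y => Quotient.lift (s := (rc h).toSetoid) f hf y
      map_one' := by
        change s 1 + j 0 = 1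
        rw [hX.s1, map_zero, add_zero]
      map_zero' := by
        change s 0 + j 0 = 0
        rw [map_zero, map_zero, add_zero]
      map_add' := by
        intro x y
        induction x using Quotient.inductionOn with
        | h x =>
          induction y using Quotient.inductionOn with
          | h y =>
            change s (x.a0 + y.a0) + j (x.b0 + y.b0) = (s x.a0 + j x.b0) + (s y.a0 + j y.b0)
            rw [map_add, map_add]
            abel
      map_mul' := by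
        intro x y
        induction x using Quotient.inductionOn with
        | h x =>
          induction y using Quotient.inductionOn with
          | h y =>
            change s (x.a0 * y.a0) + j (i x.a0 * y.b0 + x.b0 * i y.a0 + c (i x.a0) (i y.a0)) =
              (s x.a0 + j x.b0) * (s y.a0 + j y.b0)
            rw [add_mul, mul_add, mul_add, hX.ss, hX.sj, hX.js, hX.jj, map_add, map_add]
            abel }
  have hπ : ∀ x : S4 A B, π (x : (rc h).Quotient) = s x.a0 + j x.b0 := fun x => rfl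
  have hadd : ∀ x y : S4 A B, ((x : (rc h).Quotient) + (y : (rc h).Quotient)) =
      ((x + y : S4 A B) : (rc h).Quotient) := fun x y => rfl
  have h0 : (0 : (rc h).Quotient) = ((0 : S4 A B) : (rc h).Quotient) := rfl
  let jY : B →+ (rc h).Quotient :=
    { toFun := fun m => ((⟨0, 0, m, 0⟩ : S4 A B) : (rc h).Quotient)
      map_zero' := rfl
      map_add' := by
        intro x y
        rw [hadd]
        congr 1
        exact S4.ext (add_zero _).symm (add_zero _).symm rfl (add_zero _).symm }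
  let sY : A →+ (rc h).Quotient :=
    { toFun := fun a => ((⟨a, 0, 0, 0⟩ : S4 A B) : (rc h).Quotient)
      map_zero' := rfl
      map_add' := by
        intro x y
        rw [hadd]
        congr 1
        exact S4.ext rfl (add_zero _).symm (add_zero _).symm (add_zero _).symm }
  let σ : (rc h).Quotient := ((⟨0, 1, 0, 0⟩ : S4 A B) : (rc h).Quotient)
  have hjY : ∀ m, jY m = ((⟨0, 0, m, 0⟩ : S4 A B) : (rc h).Quotient) := fun m => rfl
  have hsY : ∀ a, sY a = ((⟨a, 0, 0, 0⟩ : S4 A B) : (rc h).Quotient) := fun m => rfl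
  have hσ : ∀ x : S4 A B, σ * (x : (rc h).Quotient) =
      ((⟨0, x.a0, 0, x.b0⟩ : S4 A B) : (rc h).Quotient) := by
    intro x
    change ((⟨0, 1, 0, 0⟩ : S4 A B) : (rc h).Quotient) * (x : (rc h).Quotient) = _
    rw [hm, sig_mul h]
  have hσ' : ∀ x : S4 A B, (x : (rc h).Quotient) * σ =
      ((⟨0, x.a0, 0, x.b0⟩ : S4 A B) : (rc h).Quotient) := by
    intro x
    change (x : (rc h).Quotient) * ((⟨0, 1, 0, 0⟩ : S4 A B) : (rc h).Quotient) = _
    rw [hm, mul_sig h]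
  refine ⟨n, (rc h).Quotient, rY, π, jY, sY, σ, hn, ?_⟩
  constructor
  · intro a
    change s a + j 0 = s a
    rw [map_zero, add_zero]
  · intro m
    change s 0 + j m = j m
    rw [map_zero, zero_add]
  · change s 0 + j 0 = 0
    rw [map_zero, map_zero, add_zero]
  · intro y hy
    induction y using Quotient.inductionOn with
    | h y =>
      change s y.a0 + j y.b0 = 0 at hy
      have h1 := congrArg p hy
      rw [map_add, hX.ps, hX.pj, add_zero, map_zero] at h1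
      rw [h1, map_zero, zero_add, hX.j0] at hy
      refine ⟨((⟨y.a1, 0, y.b1, 0⟩ : S4 A B) : (rc h).Quotient), ?_⟩
      rw [hσ]
      refine (hq _ _).2 ⟨h1, rfl, ?_, ⟨0, ?_⟩⟩
      · change In i (y.b0 - 0)
        rw [sub_zero]
        exact hy
      · change i 0 = y.b1 - y.b1
        rw [map_zero, sub_self]
  · intro y hy
    induction y using Quotient.inductionOn with
    | h y =>
      have h1 := (hσ y).symm.trans hy
      obtain ⟨_, h2, _, h3⟩ := (hq _ _).1 h1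
      change y.a0 = 0 at h2
      change In i (y.b0 - 0) at h3
      rw [sub_zero] at h3
      change s y.a0 + j y.b0 = 0
      rw [h2, map_zero, zero_add]
      exact (hX.j0 _).2 h3
  · intro y
    induction y using Quotient.inductionOn with
    | h y => exact (hσ y).trans (hσ' y).symm
  · exact hσ _
  · intro m hm'
    refine (hq _ _).2 ⟨rfl, rfl, ?_, ⟨0, ?_⟩⟩
    · change In i (m - 0)
      rw [sub_zero]
      exact hm'
    · change i 0 = (0 : B) - 0
      rw [map_zero, sub_self]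
  · intro m m'
    rw [hjY, hjY, hm, h0]
    congr 1
    apply S4.ext
    · exact zero_mul _
    · change (0 : A) * 0 + 0 * 0 + n 0 0 = 0
      rw [h.n0l, zero_mul, add_zero, add_zero]
    · change i 0 * m' + m * i 0 + c (i 0) (i 0) = 0
      rw [map_zero, Bad.zl h.bc, zero_mul, mul_zero, add_zero, add_zero]
    · change i 0 * 0 + i 0 * m' + m * i 0 + 0 * i 0 + μ (i 0) m' + μ m (i 0) + c (i 0) (i 0) +
        c (i 0) (i 0) + d (i 0) (i 0) = 0
      simp only [map_zero, Bad.zl h.bc, Bad.zl h.bμ, Bad.zr h.bμ, Bad.zl h.bd, zero_mul, mul_zero,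
        add_zero]
  · intro a m
    rw [hjY, hjY, hjY, hsY, hm, hσ, hadd]
    congr 1
    apply S4.ext
    · change a * 0 = 0 + 0
      rw [mul_zero, add_zero]
    · change a * 0 + 0 * 0 + n a 0 = 0 + 0
      rw [h.n0r, mul_zero, mul_zero, add_zero]
    · change i a * m + 0 * i 0 + c (i a) (i 0) = i a * m + 0
      rw [map_zero, Bad.zr h.bc, mul_zero, add_zero]
    · change i a * 0 + i 0 * m + 0 * i 0 + 0 * i 0 + μ (i a) m + μ 0 (i 0) + c (i 0) (i 0) +
        c (i a) (i 0) + d (i a) (i 0) = 0 + μ (i a) m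
      simp only [map_zero, Bad.zl h.bc, Bad.zr h.bc, Bad.zl h.bμ, Bad.zr h.bd, zero_mul, mul_zero,
        add_zero]
  · intro a m
    rw [hjY, hjY, hjY, hsY, hm, hσ, hadd]
    congr 1
    apply S4.ext
    · change 0 * a = 0 + 0
      rw [zero_mul, add_zero]
    · change 0 * 0 + 0 * a + n 0 a = 0 + 0
      rw [h.n0l, zero_mul, zero_mul, add_zero]
    · change i 0 * 0 + m * i a + c (i 0) (i a) = m * i a + 0
      rw [map_zero, Bad.zl h.bc, mul_zero, zero_add]
    · change i 0 * 0 + i 0 * 0 + m * i 0 + 0 * i a + μ (i 0) 0 + μ m (i a) + c (i 0) (i a) +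
        c (i 0) (i 0) + d (i 0) (i a) = 0 + μ m (i a)
      simp only [map_zero, Bad.zl h.bc, Bad.zl h.bμ, Bad.zl h.bd, zero_mul, mul_zero,
        add_zero]
  · intro a a'
    rw [hjY, hjY, hsY, hsY, hsY, hsY, hm, hσ, hσ, hadd, hadd, hadd]
    congr 1
    apply S4.ext
    · change a * a' = a * a' + 0 + 0 + 0
      rw [add_zero, add_zero, add_zero]
    · change a * 0 + 0 * a' + n a a' = 0 + n a a' + 0 + 0
      rw [mul_zero, zero_mul, add_zero, add_zero, add_zero]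
    · change i a * 0 + 0 * i a' + c (i a) (i a') = 0 + 0 + c (i a) (i a') + 0
      rw [mul_zero, zero_mul, add_zero, add_zero]
    · change i a * 0 + i 0 * 0 + 0 * i 0 + 0 * i a' + μ (i a) 0 + μ 0 (i a') + c (i 0) (i a') +
        c (i a) (i 0) + d (i a) (i a') = 0 + 0 + 0 + d (i a) (i a')
      simp only [map_zero, Bad.zl h.bc, Bad.zr h.bc, Bad.zl h.bμ, Bad.zr h.bμ, zero_mul, mul_zero,
        add_zero, zero_add]
  · rfl

end Pool.Agent.PST.H95
end
end -- Pool.Agent.Helper95_PST.EYR
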