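import Pool.Agent.Helper12_AWB.B014
import Pool.Agent.Helper12_AWB.B020
import Pool.Agent.Helper12_AWB.B023

/-!
# Merged copies (generated) of the modules

* `Pool.Agent.Helper27_PSS.TFX`
* `Pool.Agent.PST.StmtsCL`
* `Pool.Agent.Helper15_PST.PRA`
* `Pool.Agent.Helper84_PST.QRF`
* `Pool.Agent.Helper91_PSS.RES`
* `Pool.Agent.PST.Etw`
* `Pool.Agent.PST.StmtsUD`
* `Pool.Agent.Helper21_PST.PRT`
* `Pool.Agent.Helper22_PST.QFA`
* `Pool.Agent.Helper25_PFC.CNV`
* `Pool.Agent.Helper78_PST.CLO`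
* `Pool.Agent.Helper86_PST.HSF`
* `Pool.Agent.Helper41_PFE.KCR`
* `Pool.Agent.Helper47_PFE.NIL`
* `Pool.Agent.Helper70_PFE.KTT`
* `Pool.Agent.Helper79_PFE.CRN`
-/

set_option autoImplicit false

section -- Pool.Agent.Helper27_PSS.TFX

set_option autoImplicit false

open scoped BigOperators PowerSeries

noncomputable section

namespace Pool.Agent.PSS.S3.H27

open Pool.Agent.PSS Pool.Agent.PSS.S3

theorem tfx (hFco : S0.FcoStmt) (hFbk : S0.FbkStmt) : TfxStmt := by
  intro ℓ _ F W E As _ _ _ _ _ _ _ ψ γ hW hper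
  obtain ⟨Ω, _, _, b, c, hfr, _⟩ := hper
  letI act : MulAction W Ω :=
    MulAction.compHom Ω ((MonoidHom.id W).prod (MonoidHom.id W))
  have hfr' : Pool.Agent.PFD.D2b.FrR (cw F⟦X⟧ γ) b c := by
    refine ⟨?_, ?_, hfr.2.2⟩
    · intro g t
      exact hfr.1 (g, g) t
    · intro g t n
      exact hfr.2.1 (g, g) t n
  have hl : ((ℓ : ℕ) : F⟦X⟧) = 0 := by
    have h1 : ((ℓ : ℕ) : F) = 0 := CharP.cast_eq_zero F ℓ
    have h2 : ((ℓ : ℕ) : F⟦X⟧) = PowerSeries.C ((ℓ : ℕ) : F) := by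
      rw [map_natCast]
    rw [h2, h1, map_zero]
  have hX : ∀ (a : As) (ω : Ω), c ω ((PowerSeries.X : F⟦X⟧) • a) = 0 → c ω a = 0 := by
    intro a ω h
    rw [map_smul, smul_eq_mul] at h
    rcases mul_eq_zero.mp h with h1 | h1
    · exact absurd h1 PowerSeries.X_ne_zero
    · exact h1
  refine ⟨?_, ?_⟩
  · intro a ha
    rw [← hfr.2.2 a]
    apply Finset.sum_eq_zero
    intro ω _
    rw [hX a ω (by rw [ha, map_zero]), zero_smul]
  · intro P a ha hXa
    apply hFbk F⟦X⟧ W As Ω (cw F⟦X⟧ γ) b c hfr' P a ha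
    intro ω hω
    apply hX
    exact hFco ℓ F⟦X⟧ W As Ω (cw F⟦X⟧ γ) b c hl hW hfr' P _ hXa ω hω

end Pool.Agent.PSS.S3.H27
end
end -- Pool.Agent.Helper27_PSS.TFX

section -- Pool.Agent.PST.StmtsCL

/-!
# Squad PST (theorem (S+)), block CL (helper78): closedness passes to the deformation

The input of block U (`Pool.Agent.PST.U.GfvStmt`): for `Q` not closed the Brauer quotient `As(Q)` has no
central elements with `br_Q' = 0` for all `Q' > Q` (`Vsh`), and the generic element `w₀`.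
The input is row ZIJ of block KEY (the Brauer map at a subgroup centralised by `E` is injective on the centre).
All rows of the blocks S0, S3 of squad PSS are PROVED: `Pool.Agent.Helper30_PSS.S3All` (theorems
`Pool.Agent.PSS.All30.fco` etc.), also `tfx : S3.TfxStmt`, `qbk : S3.QbkStmt`.
-/

open scoped BigOperators TensorProduct PowerSeries

noncomputable section

namespace Pool.Agent.PST

open Pool.Agent.PFC (tw IsTv)
open Pool.Agent.PFD.D2b (FrR)
open Pool.Agent.PSS
open Pool.Agent.PSS.S0 (IsBQ)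
open Pool.Agent.PST.U (Clo Vsh)

/-- PRA (325; S0: FCO FBK BKI; S3: TFX).  Purity.

Proof.  Frame `b, c` from `Per`, restricted to the diagonal.  `S = {ω | (u, u) • ω = ω for all u ∈ Q}` is stable
under the diagonal of `W` (abelian).  Some `c ω a ≠ 0`, `ω ∈ S` (otherwise `a ∈ BK(Q)` by FBK); let
`n` be the minimal order of the `c ω a`, `ω ∈ S`, `c ω a = X ^ n * r ω`; some `r ω` has a nonzero constant
coefficient; `r (g • ω) = r ω` for `g` in the diagonal.  `a' = ∑_(ω ∈ S) r ω • b ω` is fixed by `W`, and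
`a - X ^ n • a'` is fixed by `W` and has zero coefficients at `S`, so it is in `BK(P)` for all `P ≥ Q` (FBK).
By TFX (`n` times) `a' ∈ BK(Q')` for `Q' > Q`, and `a' m - m a' ∈ BK(Q)` (BK is an ideal: `S0.BkiStmt`).  If
`a' - X • m ∈ BK(Q)`, `m ∈ As^Q`, then `r ω = c ω a' = X * c ω m` for `ω ∈ S` (FCO), a contradiction. -/
def PraStmt : Prop :=
  ∀ (ℓ : ℕ) [Fact ℓ.Prime] (F W E As : Type) [Field F] [CharP F ℓ] [CommGroup W] [Fintype W]
    [Group E] [Ring As] [Algebra F⟦X⟧ As] (ψ : E →* MulAut W) (γ : W →* As) (Q : Subgroup W),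
    IsPGroup ℓ W → Per F⟦X⟧ ψ γ → ∀ a ∈ FxR (cw F⟦X⟧ γ) ⊤,
    (∀ Q' : Subgroup W, Q < Q' → a ∈ BKR (cw F⟦X⟧ γ) Q') →
    (∀ m ∈ FxR (cw F⟦X⟧ γ) Q, a * m - m * a ∈ BKR (cw F⟦X⟧ γ) Q) →
    a ∉ BKR (cw F⟦X⟧ γ) Q →
    ∃ a' ∈ FxR (cw F⟦X⟧ γ) ⊤, (∀ Q' : Subgroup W, Q < Q' → a' ∈ BKR (cw F⟦X⟧ γ) Q') ∧
      (∀ m ∈ FxR (cw F⟦X⟧ γ) Q, a' * m - m * a' ∈ BKR (cw F⟦X⟧ γ) Q) ∧
      ∀ m ∈ FxR (cw F⟦X⟧ γ) Q, a' - (PowerSeries.X : F⟦X⟧) • m ∉ BKR (cw F⟦X⟧ γ) Q

/-- QRF (326; S0: FCO FBK).  Fixed vectors of the special fibre.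

Proof.  Frame `b, c` of `As`, restricted to the diagonal.  `c₀ ω (q a) = constantCoeff (c ω a)` is well
defined (`q a = 0` gives `a = X • a'`) and linear, and `q ∘ b`, `c₀` is a frame of `A`.  (1) `z` fixed by `P`:
`a = ∑ ω, PowerSeries.C (c₀ ω z) • b ω`.  (2) `q a ∈ BK(P)`: for the fixed points `ω` of `P`
`c₀ ω (q a) = 0` (FCO), so `c ω a = X * r ω` with `r` constant on the `P`-orbits (one point each);
`m = ∑_(ω fixed by P) r ω • b ω` is in `As^P`, and `a - X • m ∈ BK(P)` by FBK.  (The same arguments are in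
`Helper41_PSS/PRQ.lean`.) -/
def QrfStmt : Prop :=
  ∀ (ℓ : ℕ) [Fact ℓ.Prime] (F W E A As : Type) [Field F] [CharP F ℓ] [CommGroup W] [Fintype W]
    [Group E] [Ring A] [Algebra F A] [Ring As] [Algebra F⟦X⟧ As] (ψ : E →* MulAut W)
    (ω : W →* A) (γ : W →* As) (q : As →+* A), IsPGroup ℓ W → Per F⟦X⟧ ψ γ →
    (∀ r : F⟦X⟧, q (algebraMap F⟦X⟧ As r) = algebraMap F A (PowerSeries.constantCoeff r)) →
    Function.Surjective q → (∀ a, q a = 0 → ∃ a', a = (PowerSeries.X : F⟦X⟧) • a') →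
    (∀ w, q (γ w) = ω w) → ∀ P : Subgroup W,
    (∀ z ∈ FxR (cw F ω) P, ∃ a ∈ FxR (cw F⟦X⟧ γ) P, q a = z) ∧
    ∀ a ∈ FxR (cw F⟦X⟧ γ) P, q a ∈ BKR (cw F ω) P →
      ∃ m ∈ FxR (cw F⟦X⟧ γ) P, a - (PowerSeries.X : F⟦X⟧) • m ∈ BKR (cw F⟦X⟧ γ) P

/-- CLO (327, uses ZIJ PRA QRF; S3: QBK; S0: BQX BCL BBK RES).  CLOSEDNESS PASSES TO THE DEFORMATION.

Proof.  Let `a` be as in `Vsh` and suppose `a ∉ BK(Q)`; PRA: `a'`.  Put `f = q a'` in `A^W`, `Q₁ = Q.map W.subtype`.
QRF (2): `f ∉ BK_A(Q₁)` (RES: `BKR (cw F (α.comp W.subtype)) P = BKR (cw F α) (P.map W.subtype)`).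
QBK: `f ∈ BK_A(P₁)` for the subgroups `P₁` of `W` with `Q₁ < P₁`.  `f z - z f ∈ BK_A(Q₁)` for `z ∈ A^(Q₁)` (QRF
(1): lift `z` to `m ∈ As^Q`; QBK).  `B = A(Q₁)` (BQX), `β`, `αB`, `E1 = {e | φ e u = u for all u ∈ Q₁}`, BCL:
`Cl F (φ.comp E1.subtype) αB`.  `β f ≠ 0` is central in `B`.  `P = {w ∈ W | φ e w = w for all e ∈ E1}`, a
subgroup of `W` which contains `Q`; `P ≠ Q`, as `Q` is not closed (`IsRs`).  So `β f ∈ BK_B(P)` (BBK (1),
`P ⊔ Q₁ = P`), and ZIJ (`E1` centralises `P`) gives `β f = 0`: a contradiction. -/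
def CloStmt : Prop :=
  ∀ (ℓ : ℕ) [Fact ℓ.Prime] (F V E A As : Type) [Field F] [CharP F ℓ] [CommGroup V]
    [Fintype V] [Group E] [Finite E] [Ring A] [Algebra F A] [Ring As] [Algebra F⟦X⟧ As]
    (φ : E →* MulAut V) (α : V →* A) (W : Subgroup V) [Fintype W]
    (ψ : E →* MulAut W) (γ : W →* As) (q : As →+* A), IsPGroup ℓ V → ¬ ℓ ∣ Nat.card E →
    Cl F φ α → IsRs φ W ψ → Per F⟦X⟧ ψ γ →
    (∀ r : F⟦X⟧, q (algebraMap F⟦X⟧ As r) = algebraMap F A (PowerSeries.constantCoeff r)) →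
    Function.Surjective q → (∀ a, q a = 0 → ∃ a', a = (PowerSeries.X : F⟦X⟧) • a') →
    (∀ w : W, q (γ w) = α w) → ∀ Q : Subgroup W, ¬ Clo ψ Q → Vsh F⟦X⟧ γ Q

/-- GNW (328).  A generic element.

Proof.  Choose `w₀` such that the number of `e` with `ψ e w₀ = w₀` is minimal.  Let `ψ e w₀ = w₀`, `n` the order
of `e` (prime to `ℓ`), `C = {w | ψ e w = w}`, `N w = ∏ i ∈ range n, ψ (e ^ i) w`: a homomorphism `W → C`,
`N c = c ^ n` for `c ∈ C`; `K = ker N`.  `C ⊓ K = ⊥` (`c ^ n = 1`).  `C` and `K` are stable under `E`, because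
the action is abelian.  Suppose `e` does not act trivially: then `K ≠ ⊥` (if `N` is injective, with
`n m ≡ 1` modulo `|W|`: `N (w * (N w) ^ (-m)) = 1`, so `w = (N w) ^ m ∈ C` for all `w`).  Choose `w₁ ∈ K`,
`w₁ ≠ 1`.  If `f` fixes `w₀ w₁` then `ψ f w₀ * w₀⁻¹ = w₁ * (ψ f w₁)⁻¹ ∈ C ⊓ K = ⊥`, so `f` fixes `w₀` and `w₁`;
but `e` fixes `w₀` and not `w₁` (`w₁ ∉ C`): a contradiction to the choice of `w₀`. -/
def GnwStmt : Prop :=
  ∀ (ℓ : ℕ) [Fact ℓ.Prime] (W E : Type) [CommGroup W] [Finite W] [Group E] [Finite E]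
    (ψ : E →* MulAut W), IsPGroup ℓ W → ¬ ℓ ∣ Nat.card E →
    (∀ e f : E, ψ e * ψ f = ψ f * ψ e) → ∃ w₀ : W, ∀ e, ψ e w₀ = w₀ → ψ e = 1

end Pool.Agent.PST
end
end -- Pool.Agent.PST.StmtsCL

section -- Pool.Agent.Helper15_PST.PRA

/-! PRA: purity -/

set_option autoImplicit false

open scoped BigOperators PowerSeries

noncomputable section

namespace Pool.Agent.PST.H15

open Pool.Agent.PST Pool.Agent.PSS

theorem fco : S0.FcoStmt := S0.H92.fco
theorem fpx : S0.FpxStmt := Pool.Agent.PSS.H20.fpx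
theorem fbk : S0.FbkStmt := S0.H77.fbk fpx
theorem bki : S0.BkiStmt := S0.H6.bki
theorem tfx : S3.TfxStmt := S3.H27.tfx fco fbk

theorem fx_mul {R V A : Type} [CommRing R] [CommGroup V] [Ring A] [Algebra R A] (α : V →* A)
    (P : Subgroup V) (a m : A) (ha : a ∈ FxR (cw R α) P) (hm : m ∈ FxR (cw R α) P) :
    a * m ∈ FxR (cw R α) P := by
  intro h hh
  have h1 : α h * a * α h⁻¹ = a := by
    have := ha h hh
    simpa [cw, bw, mul_assoc] using this
  have h2 : α h * m * α h⁻¹ = m := by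
    have := hm h hh
    simpa [cw, bw, mul_assoc] using this
  have h3 : cw R α h (a * m) = α h * (a * m) * α h⁻¹ := by
    simp [cw, bw, mul_assoc]
  have h4 : α h⁻¹ * α h = 1 := by rw [← map_mul, inv_mul_cancel, map_one]
  rw [h3]
  calc α h * (a * m) * α h⁻¹ = α h * a * (α h⁻¹ * α h) * m * α h⁻¹ := by
        rw [h4]; simp [mul_assoc]
    _ = (α h * a * α h⁻¹) * (α h * m * α h⁻¹) := by simp [mul_assoc]
    _ = a * m := by rw [h1, h2]

theorem fx_le {R H M : Type} [CommRing R] [Group H] [AddCommGroup M] [Module R M]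
    (ρ : H →* (M →ₗ[R] M)) (P P' : Subgroup H) (h : P ≤ P') : FxR ρ P' ≤ FxR ρ P :=
  fun _ hm g hg => hm g (h hg)

theorem pra : PraStmt := by
  classical
  intro ℓ _ F W E As _ _ _ _ _ _ _ ψ γ Q hW hper a ha ha1 ha2 ha3
  have htf := tfx ℓ F W E As ψ γ hW hper
  have htn : ∀ (n : ℕ) (P : Subgroup W), ∀ x ∈ FxR (cw F⟦X⟧ γ) P,
      ((PowerSeries.X : F⟦X⟧) ^ n) • x ∈ BKR (cw F⟦X⟧ γ) P → x ∈ BKR (cw F⟦X⟧ γ) P := by
    intro n P x hx
    induction n with
    | zero => intro h; simpa using h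
    | succ n ih =>
      intro h
      apply ih
      apply htf.2 P _ (Submodule.smul_mem _ _ hx)
      rw [smul_smul, ← pow_succ']
      exact h
  obtain ⟨Ω, _, _, b, c, hfr, _⟩ := hper
  letI act : MulAction W Ω :=
    MulAction.compHom Ω ((MonoidHom.id W).prod (MonoidHom.id W))
  have hfr' : Pool.Agent.PFD.D2b.FrR (cw F⟦X⟧ γ) b c := by
    refine ⟨?_, ?_, hfr.2.2⟩
    · intro g t
      exact hfr.1 (g, g) t
    · intro g t n
      exact hfr.2.1 (g, g) t n
  have hl : ((ℓ : ℕ) : F⟦X⟧) = 0 := by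
    have h1 : ((ℓ : ℕ) : F) = 0 := CharP.cast_eq_zero F ℓ
    have h2 : ((ℓ : ℕ) : F⟦X⟧) = PowerSeries.C ((ℓ : ℕ) : F) := by
      rw [map_natCast]
    rw [h2, h1, map_zero]
  -- the fixed points of `Q`
  set S : Set Ω := {ω | ∀ h ∈ Q, h • ω = ω} with hS
  have hSg : ∀ (g : W) (ω : Ω), g • ω ∈ S ↔ ω ∈ S := by
    have h0 : ∀ (g : W) (ω : Ω), ω ∈ S → g • ω ∈ S := by
      intro g ω hω h hh
      rw [smul_smul, mul_comm h g, ← smul_smul, hω h hh]
    intro g ω
    refine ⟨fun h => ?_, h0 g ω⟩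
    have := h0 g⁻¹ _ h
    rwa [smul_smul, inv_mul_cancel, one_smul] at this
  have hcg : ∀ (g : W) (ω : Ω), c (g • ω) a = c ω a := by
    intro g ω
    have h1 := hfr'.2.1 g ω a
    rwa [ha g (Subgroup.mem_top g)] at h1
  -- some coefficient is not zero
  obtain ⟨ω₀, hω₀, hc0⟩ : ∃ ω ∈ S, c ω a ≠ 0 := by
    by_contra hcon
    push_neg at hcon
    exact ha3 (fbk F⟦X⟧ W As Ω (cw F⟦X⟧ γ) b c hfr' Q a (fx_le _ _ _ le_top ha)
      fun ω hω => hcon ω hω)
  have hex : ∃ k : ℕ, ¬ ∀ ω ∈ S, (PowerSeries.X : F⟦X⟧) ^ k ∣ c ω a := by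
    by_contra hcon
    push_neg at hcon
    apply hc0
    ext m
    rw [map_zero]
    exact PowerSeries.X_pow_dvd_iff.1 (hcon (m + 1) ω₀ hω₀) m (Nat.lt_succ_self m)
  obtain ⟨n, hn1, ω₁, hω₁, hn2⟩ : ∃ n : ℕ, (∀ ω ∈ S, (PowerSeries.X : F⟦X⟧) ^ n ∣ c ω a) ∧
      ∃ ω ∈ S, ¬ (PowerSeries.X : F⟦X⟧) ^ (n + 1) ∣ c ω a := by
    have h1 := Nat.find_spec hex
    have h0 : Nat.find hex ≠ 0 := by
      intro h
      rw [h] at h1
      exact h1 fun ω _ => by simp
    obtain ⟨n, hn⟩ := Nat.exists_eq_succ_of_ne_zero h0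
    refine ⟨n, ?_, ?_⟩
    · have h2 := Nat.find_min hex (m := n) (by omega)
      exact not_not.1 h2
    · rw [hn] at h1
      push_neg at h1
      exact h1
  have hXn : (PowerSeries.X : F⟦X⟧) ^ n ≠ 0 := pow_ne_zero _ PowerSeries.X_ne_zero
  obtain ⟨r, hr1, hr2⟩ : ∃ r : Ω → F⟦X⟧, (∀ ω ∈ S, c ω a = PowerSeries.X ^ n * r ω) ∧
      ∀ ω, ω ∉ S → r ω = 0 := by
    choose s hs using hn1
    refine ⟨fun ω => if h : ω ∈ S then s ω h else 0, fun ω hω => ?_, fun ω hω => ?_⟩
    · simp only [dif_pos hω]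
      exact hs ω hω
    · simp only [dif_neg hω]
  have hrg : ∀ (g : W) (ω : Ω), r (g • ω) = r ω := by
    intro g ω
    by_cases h : ω ∈ S
    · have h1 := hr1 _ ((hSg g ω).2 h)
      rw [hcg, hr1 ω h] at h1
      exact (mul_left_cancel₀ hXn h1).symm
    · rw [hr2 ω h, hr2 _ fun h' => h ((hSg g ω).1 h')]
  set a' : As := ∑ ω, r ω • b ω with ha'
  have ha'f : a' ∈ FxR (cw F⟦X⟧ γ) ⊤ := by
    intro g _
    rw [ha', map_sum]
    conv_rhs => rw [← Equiv.sum_comp (MulAction.toPerm g)]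
    refine Finset.sum_congr rfl fun ω _ => ?_
    rw [map_smul, MulAction.toPerm_apply, hrg, hfr'.1]
  set D : As := a - (PowerSeries.X : F⟦X⟧) ^ n • a' with hD
  have hDs : D = ∑ ω, (c ω a - PowerSeries.X ^ n * r ω) • b ω := by
    rw [hD, ha', Finset.smul_sum]
    conv_lhs => rw [← hfr'.2.2 a]
    rw [← Finset.sum_sub_distrib]
    refine Finset.sum_congr rfl fun ω _ => ?_
    rw [sub_smul, mul_smul]
  have hDP : ∀ P : Subgroup W, Q ≤ P → D ∈ BKR (cw F⟦X⟧ γ) P := by
    intro P hP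
    have h1 := fpx F⟦X⟧ W As Ω (cw F⟦X⟧ γ) P (fun ω => (c ω a - PowerSeries.X ^ n * r ω) • b ω)
      (Finset.univ.filter fun ω => ∀ h ∈ P, h • ω = ω) (by
        intro h _ ω
        rw [hcg, hrg, map_smul, hfr'.1]) (by
        intro ω
        simp)
    rw [← hDs] at h1
    have h2 : ∑ ω ∈ Finset.univ.filter (fun ω => ∀ h ∈ P, h • ω = ω),
        (c ω a - PowerSeries.X ^ n * r ω) • b ω = 0 := by
      refine Finset.sum_eq_zero fun ω hω => ?_
      rw [Finset.mem_filter] at hω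
      rw [hr1 ω fun h hh => hω.2 h (hP hh), sub_self, zero_smul]
    rwa [h2, sub_zero] at h1
  have hca : ∀ ω ∈ S, c ω a' = r ω := by
    intro ω hω
    have h1 := fco ℓ F⟦X⟧ W As Ω (cw F⟦X⟧ γ) b c hl hW hfr' Q D (hDP Q le_rfl) ω hω
    rw [hD, map_sub, map_smul, smul_eq_mul, hr1 ω hω, ← mul_sub] at h1
    rcases mul_eq_zero.1 h1 with h2 | h2
    · exact absurd h2 hXn
    · exact (sub_eq_zero.1 h2).symm
  have hXa : (PowerSeries.X : F⟦X⟧) ^ n • a' = a - D := by
    rw [hD]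
    abel
  refine ⟨a', ha'f, ?_, ?_, ?_⟩
  · intro Q' hQ'
    refine htn n Q' a' (fx_le _ _ _ le_top ha'f) ?_
    rw [hXa]
    exact Submodule.sub_mem _ (ha1 Q' hQ') (hDP Q' hQ'.le)
  · intro m hm
    refine htn n Q _ ?_ ?_
    · have h1 := fx_le (cw F⟦X⟧ γ) Q ⊤ le_top ha'f
      exact Submodule.sub_mem _ (fx_mul γ Q _ _ h1 hm) (fx_mul γ Q _ _ hm h1)
    · have h1 : (PowerSeries.X : F⟦X⟧) ^ n • (a' * m - m * a') =
          (a * m - m * a) - (D * m - m * D) := by
        rw [smul_sub, ← smul_mul_assoc, ← mul_smul_comm, hXa]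
        noncomm_ring
      rw [h1]
      obtain ⟨h2, h3⟩ := bki F⟦X⟧ W As γ Q m hm D (hDP Q le_rfl)
      exact Submodule.sub_mem _ (ha2 m hm) (Submodule.sub_mem _ h3 h2)
  · intro m hm hcon
    apply hn2
    have h1 := fco ℓ F⟦X⟧ W As Ω (cw F⟦X⟧ γ) b c hl hW hfr' Q _ hcon ω₁ hω₁
    rw [map_sub, map_smul, smul_eq_mul, hca ω₁ hω₁, sub_eq_zero] at h1
    rw [hr1 ω₁ hω₁, pow_succ, h1]
    exact mul_dvd_mul_left _ (Dvd.intro _ rfl)

end Pool.Agent.PST.H15
end
end -- Pool.Agent.Helper15_PST.PRA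

section -- Pool.Agent.Helper84_PST.QRF

/-!
# Squad PST, block CL, row QRF: fixed vectors of the special fibre (edit of Helper41_PSS/PRQ.lean)
-/

open scoped BigOperators TensorProduct PowerSeries

noncomputable section

namespace Pool.Agent.PST.H84

open Pool.Agent.PFC (tw IsTv)
open Pool.Agent.PFD.D2b (FrR)
open Pool.Agent.PSS

/-- row QRF -/
theorem qrf : QrfStmt := by
  intro ℓ _ F W E A As _ _ _ _ _ _ _ _ _ ψ om γ q hW hper hsc hsurj hker hqw P
  classical
  have hℓF : (ℓ : F) = 0 := CharP.cast_eq_zero F ℓ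
  have hqs : ∀ (r : F⟦X⟧) (a : As), q (r • a) = PowerSeries.constantCoeff r • q a := by
    intro r a
    rw [Algebra.smul_def, map_mul, hsc, ← Algebra.smul_def]
  obtain ⟨Ω, _, _, b, c, hfr, -⟩ := hper
  let _ : MulAction W Ω := MulAction.compHom Ω ((MonoidHom.id W).prod (MonoidHom.id W))
  have hfW : FrR (cw F⟦X⟧ γ) b c := ⟨fun g t => hfr.1 (g, g) t, fun g t n => hfr.2.1 (g, g) t n,
    hfr.2.2⟩
  have hc0 : ∀ t, ∃ c0 : A →ₗ[F] F, ∀ a, c0 (q a) = PowerSeries.constantCoeff (c t a) :=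
    fun t => ⟨(S3.H41.c0 hsc hsurj hker (c t)).1, (S3.H41.c0 hsc hsurj hker (c t)).2⟩
  choose d hd using hc0
  have hq : ∀ (h : W) (a : As), q (cw F⟦X⟧ γ h a) = cw F om h (q a) := by
    intro h a
    change q (γ h * (a * γ h⁻¹)) = om h * (q a * om h⁻¹)
    rw [map_mul, map_mul, hqw, hqw]
  have hfA : FrR (cw F om) (fun t => q (b t)) d := by
    refine ⟨?_, ?_, ?_⟩
    · intro g t
      dsimp only
      rw [hfW.1, hq]
    · intro g t n
      obtain ⟨m, rfl⟩ := hsurj n
      rw [← hq, hd, hd, hfW.2.1]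
    · intro n
      obtain ⟨m, rfl⟩ := hsurj n
      conv_rhs => rw [← hfW.2.2 m, map_sum]
      refine Finset.sum_congr rfl fun t _ => ?_
      rw [hd, hqs]
  have hbfx : ∀ t : Ω, (∀ h ∈ P, h • t = t) → b t ∈ FxR (cw F⟦X⟧ γ) P := by
    intro t ht h hh
    rw [← hfW.1, ht h hh]
  constructor
  · intro z hz
    refine ⟨∑ t, PowerSeries.C (d t z) • b t, ?_, ?_⟩
    · intro h hh
      rw [map_sum]
      refine Fintype.sum_equiv (MulAction.toPerm h) _ _ ?_
      intro t
      rw [map_smul, ← hfW.1]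
      change _ = PowerSeries.C (d (h • t) z) • b (h • t)
      have h2 := hfA.2.1 h t z
      rw [hz h hh] at h2
      rw [h2]
    · rw [map_sum]
      refine Eq.trans ?_ (hfA.2.2 z)
      refine Finset.sum_congr rfl fun t _ => ?_
      rw [hqs, PowerSeries.constantCoeff_C]
  · intro a ha hz
    have h1 : ∀ t : Ω, (∀ h ∈ P, h • t = t) → ∃ r, c t a = PowerSeries.X * r := by
      intro t ht
      have h2 := S0.H92.fco ℓ F W A Ω (cw F om) (fun t => q (b t)) d hℓF hW hfA P _ hz t ht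
      rw [hd] at h2
      exact PowerSeries.X_dvd_iff.2 h2
    choose! r hr using h1
    have hK : ∀ t, t ∈ Finset.univ.filter (fun t : Ω => ∀ h ∈ P, h • t = t) ↔
        ∀ h ∈ P, h • t = t := by
      intro t
      rw [Finset.mem_filter]
      exact ⟨fun h => h.2, fun h => ⟨Finset.mem_univ _, h⟩⟩
    have h3 := H20.fpx F⟦X⟧ W As Ω (cw F⟦X⟧ γ) P (fun t => c t a • b t)
      (Finset.univ.filter (fun t : Ω => ∀ h ∈ P, h • t = t)) (by
      intro h hh t
      rw [map_smul, hfW.1]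
      have h4 := hfW.2.1 h t a
      rw [ha h hh] at h4
      rw [h4]) hK
    rw [hfW.2.2] at h3
    refine ⟨∑ t ∈ Finset.univ.filter (fun t : Ω => ∀ h ∈ P, h • t = t), r t • b t, ?_, ?_⟩
    · exact Submodule.sum_mem _ fun t ht => Submodule.smul_mem _ _ (hbfx t ((hK t).1 ht))
    · rw [Finset.smul_sum]
      have h5 : ∑ t ∈ Finset.univ.filter (fun t : Ω => ∀ h ∈ P, h • t = t),
          (PowerSeries.X : F⟦X⟧) • r t • b t =
          ∑ t ∈ Finset.univ.filter (fun t : Ω => ∀ h ∈ P, h • t = t), c t a • b t := by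
        refine Finset.sum_congr rfl fun t ht => ?_
        rw [hr t ((hK t).1 ht), mul_smul]
      rw [h5]
      exact h3

end Pool.Agent.PST.H84
end
end -- Pool.Agent.Helper84_PST.QRF

section -- Pool.Agent.Helper91_PSS.RES

/-!
# Squad PSS, block S0, row RES
-/

open scoped BigOperators

namespace Pool.Agent.PSS.H91

open Pool.Agent.PFC (tw IsTv)

theorem isTv_map {G H : Type} [Group G] [Group H] (f : G →* H) (hf : Function.Injective f)
    (P' P : Subgroup G) (S : Finset G) :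
    IsTv (P'.map f) (P.map f) (S.map ⟨f, hf⟩) ↔ IsTv P' P S := by
  constructor
  · rintro ⟨h1, h2⟩
    refine ⟨?_, ?_⟩
    · intro s hs
      exact (Subgroup.mem_map_iff_mem hf).1 (h1 (f s) (Finset.mem_map.2 ⟨s, hs, rfl⟩))
    · intro p hp
      obtain ⟨s, ⟨hs1, hs2⟩, hs3⟩ := h2 (f p) (Subgroup.mem_map_of_mem f hp)
      obtain ⟨s0, hs0, rfl⟩ := Finset.mem_map.1 hs1
      refine ⟨s0, ⟨hs0, ?_⟩, ?_⟩
      · have h3 : (f s0)⁻¹ * f p ∈ P'.map f := hs2
        rw [← map_inv, ← map_mul] at h3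
        exact (Subgroup.mem_map_iff_mem hf).1 h3
      · rintro t ⟨ht1, ht2⟩
        have h4 := hs3 (f t) ⟨Finset.mem_map.2 ⟨t, ht1, rfl⟩, by
          rw [← map_inv, ← map_mul]
          exact Subgroup.mem_map_of_mem f ht2⟩
        exact hf h4
  · rintro ⟨h1, h2⟩
    refine ⟨?_, ?_⟩
    · intro s hs
      obtain ⟨s0, hs0, rfl⟩ := Finset.mem_map.1 hs
      exact Subgroup.mem_map_of_mem f (h1 s0 hs0)
    · intro p hp
      obtain ⟨p0, hp0, rfl⟩ := Subgroup.mem_map.1 hp
      obtain ⟨s0, ⟨hs1, hs2⟩, hs3⟩ := h2 p0 hp0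
      refine ⟨f s0, ⟨Finset.mem_map.2 ⟨s0, hs1, rfl⟩, ?_⟩, ?_⟩
      · rw [← map_inv, ← map_mul]
        exact Subgroup.mem_map_of_mem f hs2
      · rintro t ⟨ht1, ht2⟩
        obtain ⟨t0, ht0, rfl⟩ := Finset.mem_map.1 ht1
        have h3 : (f t0)⁻¹ * f p0 ∈ P'.map f := ht2
        rw [← map_inv, ← map_mul] at h3
        have h4 := hs3 t0 ⟨ht0, (Subgroup.mem_map_iff_mem hf).1 h3⟩
        rw [h4]
        rfl

theorem fx_map {R G H M : Type} [CommRing R] [Group G] [Group H] [AddCommGroup M] [Module R M]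
    (f : G →* H) (ρ' : G →* (M →ₗ[R] M)) (ρ : H →* (M →ₗ[R] M)) (h : ∀ g, ρ' g = ρ (f g))
    (P : Subgroup G) : FxR ρ' P = FxR ρ (P.map f) := by
  ext m
  constructor
  · intro hm x hx
    obtain ⟨y, hy, rfl⟩ := Subgroup.mem_map.1 hx
    rw [← h]
    exact hm y hy
  · intro hm x hx
    rw [h]
    exact hm (f x) (Subgroup.mem_map_of_mem f hx)

theorem bk_map {R G H M : Type} [CommRing R] [Group G] [Group H] [AddCommGroup M] [Module R M]
    (f : G →* H) (hf : Function.Injective f) (ρ' : G →* (M →ₗ[R] M)) (ρ : H →* (M →ₗ[R] M))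
    (h : ∀ g, ρ' g = ρ (f g)) (P : Subgroup G) : BKR ρ' P = BKR ρ (P.map f) := by
  unfold BKR
  congr 1
  ext n
  constructor
  · rintro ⟨P', S, m, h1, h2, h3, rfl⟩
    refine ⟨P'.map f, S.map ⟨f, hf⟩, m, (Subgroup.map_lt_map_iff_of_injective hf).2 h1,
      (isTv_map f hf P' P S).2 h2, ?_, ?_⟩
    · rw [← fx_map f ρ' ρ h]
      exact h3
    · rw [Finset.sum_map]
      refine Finset.sum_congr rfl fun x _ => ?_
      rw [h]
      rfl
  · rintro ⟨Q', S', m, h1, h2, h3, rfl⟩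
    have hQ : (Q'.comap f).map f = Q' := by
      apply Subgroup.map_comap_eq_self
      refine h1.le.trans ?_
      exact Subgroup.map_le_range f P
    have hS : (S'.preimage f hf.injOn).map ⟨f, hf⟩ = S' := by
      ext s
      rw [Finset.mem_map]
      constructor
      · rintro ⟨t, ht, rfl⟩
        exact Finset.mem_preimage.1 ht
      · intro hs
        obtain ⟨t, ht, rfl⟩ := Subgroup.mem_map.1 (h2.1 s hs)
        exact ⟨t, Finset.mem_preimage.2 hs, rfl⟩
    refine ⟨Q'.comap f, S'.preimage f hf.injOn, m, ?_, ?_, ?_, ?_⟩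
    · rw [← Subgroup.map_lt_map_iff_of_injective hf, hQ]
      exact h1
    · rw [← isTv_map f hf, hQ, hS]
      exact h2
    · rw [fx_map f ρ' ρ h, hQ]
      exact h3
    · conv_lhs => rw [← hS]
      rw [Finset.sum_map]
      refine Finset.sum_congr rfl fun x _ => ?_
      rw [h]
      rfl

/-- RES -/
theorem res : S0.ResStmt := by
  intro R V A _ _ _ _ α W P
  have h : ∀ w : W, cw R (α.comp W.subtype) w = cw R α (W.subtype w) := fun w => rfl
  exact ⟨fx_map W.subtype _ _ h P, bk_map W.subtype W.subtype_injective _ _ h P⟩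

end Pool.Agent.PSS.H91
end -- Pool.Agent.Helper91_PSS.RES

section -- Pool.Agent.PST.Etw

/-!
# Squad PST, interface of the block UC (helper30): ETW
-/

open scoped BigOperators TensorProduct PowerSeries

noncomputable section

namespace Pool.Agent.PST.UC

open Pool.Agent.PSS

/-- ETW: the relative trace of `1` in `As(W)` divides a power of `X` (blocks ET, UC). -/
def EtwStmt : Prop :=
  ∀ (ℓ : ℕ) [Fact ℓ.Prime] (F V E A As K K0 : Type) [Field F] [IsAlgClosed F] [CharP F ℓ]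
    [CommGroup V] [Fintype V] [Group E] [Fintype E] [Ring A] [Algebra F A] [Ring As]
    [Algebra F⟦X⟧ As] [Module.Finite F⟦X⟧ As] [Module.Free F⟦X⟧ As] [Fintype K] [Fintype K0]
    (φ : E →* MulAut V) (α : V →* A) (W : Subgroup V) [Fintype W] (ψ : E →* MulAut W)
    (γ : W →* As) (q : As →+* A) (lam : As →ₗ[F⟦X⟧] F⟦X⟧) (lam0 : A →ₗ[F] F) (x y : K → As)
    (x0 y0 : K0 → A), IsPGroup ℓ V → ¬ ℓ ∣ Nat.card E → W ≠ ⊤ →
    Dpt ℓ F φ α W ψ γ q lam lam0 x y x0 y0 → U.Etw F γ lam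

end Pool.Agent.PST.UC
end
end -- Pool.Agent.PST.Etw

section -- Pool.Agent.PST.StmtsUD

/-!
# Squad PST, block UC (helper30): reduction of the etaleness to the closed case, part 2

`As` a deformation of `A` relative to `W ≤ V` (`Dpt`); `B = A(W)`, `Bs = As(W)`, `H = B / (W - 1) B` with the
group `V ⧸ W`, `Hs = Bs / (W - 1) Bs` (`IsQt`).  The pair `Hs`, `H` has the regularity datum of block ET (QRG).

Complete proofs in the docstrings.  All rows of S0, S3 are PROVED: `Pool.Agent.Helper30_PSS.S3All`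
(`Pool.Agent.PSS.All30.fco`, `fbk`, `bki`, `bbk`, `res`, `qbk`, `tfx`, ..); row QRF of `StmtsCL.lean` is PROVED
(`Pool.Agent.Helper84_PST.QRF`, theorem `Pool.Agent.PST.H84.qrf : QrfStmt`).
-/

open scoped BigOperators TensorProduct PowerSeries

noncomputable section

namespace Pool.Agent.PST.UC

open Pool.Agent.PFC (tw IsTv)
open Pool.Agent.PFD.D2b (FrR)
open Pool.Agent.PSS
open Pool.Agent.PSS.S0

/-- the span of the commutators with the elements `α u` -/
def Civ (F : Type) {G H : Type} [CommRing F] [Group G] [Ring H] [Algebra F H] (α : G →* H) :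
    Submodule F H :=
  Submodule.span F {x | ∃ (u : G) (b : H), x = α u * b - b * α u}

/-- PRT (340, uses QRF; S0: RES; S3: QBK).  The reduction `As(W) → A(W)`.  Proof.  `qB (βs a) = β (q a)` for `a`
fixed by `W`: well defined, if `βs a = βs a'` then `a - a'` is in `BKR (cw γ) ⊤`, so `q (a - a')` is in
`BKR (cw F (α.comp W.subtype)) ⊤ = BKR (cw F α) W` (QBK, RES: `⊤.map W.subtype = W`).  A ring homomorphism, by
`IsBQ`.  `sc`: `a = r • 1`.  Surjective: QRF (1) for `P = ⊤`.  Kernel: QRF (2): `a - X • m` is in `BKR (cw γ) ⊤`, so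
`βs a = X • βs m`.  `qB (γB w) = qB (βs (γ w)) = β (α w) = αB w`. -/
def PrtStmt : Prop :=
  ∀ (ℓ : ℕ) [Fact ℓ.Prime] (F V E A As B Bs : Type) [Field F] [CharP F ℓ] [CommGroup V]
    [Fintype V] [Group E] [Ring A] [Algebra F A] [Ring As] [Algebra F⟦X⟧ As] [Ring B]
    [Algebra F B] [Ring Bs] [Algebra F⟦X⟧ Bs] (α : V →* A) (W : Subgroup V) [Fintype W]
    (ψ : E →* MulAut W) (γ : W →* As) (q : As →+* A) (αB : V →* B) (β : A → B) (γB : W →* Bs)
    (βs : As → Bs), IsPGroup ℓ V → Per F⟦X⟧ ψ γ →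
    (∀ r : F⟦X⟧, q (algebraMap F⟦X⟧ As r) = algebraMap F A (PowerSeries.constantCoeff r)) →
    Function.Surjective q → (∀ a, q a = 0 → ∃ a', a = (PowerSeries.X : F⟦X⟧) • a') →
    (∀ w : W, q (γ w) = α w) → IsBQ F α W αB β → IsBQ F⟦X⟧ γ ⊤ γB βs →
    ∃ qB : Bs →+* B, (∀ a ∈ FxR (cw F⟦X⟧ γ) ⊤, qB (βs a) = β (q a)) ∧
      (∀ r : F⟦X⟧, qB (algebraMap F⟦X⟧ Bs r) = algebraMap F B (PowerSeries.constantCoeff r)) ∧
      Function.Surjective qB ∧ (∀ b, qB b = 0 → ∃ b', b = (PowerSeries.X : F⟦X⟧) • b') ∧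
      ∀ w : W, qB (γB w) = αB w

/-- QFA (341).  The reduction `Hs → H`.  Proof.  `q1 (πs b) = π (qB b)`: well defined, the kernel `Aug` of `πs` is
spanned by the `(γB w - 1) * b`, and `qB ((γB w - 1) * b) = (αB w - 1) * qB b` is in the kernel of `π` (span induction:
`qB (r • b) = constantCoeff r • qB b`).  Kernel: if `π (qB b) = 0` then `qB b = ∑ (αB w - 1) * b_w = qB b''`, `b''` in `Aug` (`qB` is
surjective), so `b = b'' + X • b'`, `πs b = X • πs b'`. -/
def QfaStmt : Prop :=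
  ∀ (F V B Bs H Hs : Type) [Field F] [CommGroup V] [Ring B] [Algebra F B] [Ring Bs]
    [Algebra F⟦X⟧ Bs] [Ring H] [Algebra F H] [Ring Hs] [Algebra F⟦X⟧ Hs] (W : Subgroup V)
    (αB : V →* B) (γB : W →* Bs) (qB : Bs →+* B) (αH : V ⧸ W →* H)
    (γH : W ⧸ (⊤ : Subgroup W) →* Hs) (π : B →ₐ[F] H) (πs : Bs →ₐ[F⟦X⟧] Hs),
    IsQt F αB W αH π → IsQt F⟦X⟧ γB ⊤ γH πs →
    (∀ r : F⟦X⟧, qB (algebraMap F⟦X⟧ Bs r) = algebraMap F B (PowerSeries.constantCoeff r)) →
    Function.Surjective qB → (∀ b, qB b = 0 → ∃ b', b = (PowerSeries.X : F⟦X⟧) • b') →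
    (∀ w : W, qB (γB w) = αB w) →
    ∃ q1 : Hs →+* H, (∀ b, q1 (πs b) = π (qB b)) ∧
      (∀ r : F⟦X⟧, q1 (algebraMap F⟦X⟧ Hs r) = algebraMap F H (PowerSeries.constantCoeff r)) ∧
      Function.Surjective q1 ∧ ∀ h, q1 h = 0 → ∃ h', h = (PowerSeries.X : F⟦X⟧) • h'

/-- HSF (342).  An algebra over `F⟦X⟧` with dual families is finite and free.  Proof: it is spanned by the `x k`; if
`r • a = 0`, `r ≠ 0`, then `r * lam (y k * a) = 0`, so `lam (y k * a) = 0` for all `k` and `a = 0`; `F⟦X⟧` is a principal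
ideal domain. -/
def HsfStmt : Prop :=
  ∀ (F H K : Type) [Field F] [Ring H] [Algebra F⟦X⟧ H] [Fintype K] (lam : H →ₗ[F⟦X⟧] F⟦X⟧)
    (x y : K → H), (∀ a, ∑ k, lam (y k * a) • x k = a) →
    Module.Finite F⟦X⟧ H ∧ Module.Free F⟦X⟧ H

/-- QRG (343; S0: FCO FBK BBK, `Pool.Agent.PSS.H28.bk_up`; S3: TFX).  THE REGULARITY DATUM OF THE PAIR `Hs`, `H`.
Proof.  `Reg`: `la`, `χ`, `xx`, `t`, `D`, `lf`, `G` (`Drd`, `FoD` of `DefsR.lean`), `Q0 = QW0 φ W`.
(1) `la' l x = la l (out x)`; `la' l (v : V ⧸ W) = la l v` (`Eg.add`, `Eg.ker`); `xx' l x = ∑_(v, v̄ = x) xx l v`.  The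
sums over `V ⧸ W` are sums over `V` (`Finset.sum_fiberwise`).  For `μ` additive on `V ⧸ W` use `Eg.spn` for
`v ↦ μ v̄`: `c l = ∑ u, xx l u * μ ū`.
(2) `lf u` commutes with `W` (`cm`), it is in `As^W`; `X • G u = γ (u^ℓ)⁻¹ lf u ^ ℓ - 1` commutes with `W`, so `G u` does
(TFX (1): `As` is `X`-torsion free); in the same way `z` in `cc`.
(3) For `x` in `V ⧸ W`, `u = out x`: `w = πs (βs (lf u))`, `G' = πs (βs (G u))`.  `q1 w = π (β (α u)) = π (αB u) = αH x`;
`w ^ ℓ = γH .. * (1 + X • G')` and `γH` is trivial (`W ⧸ ⊤` has one element).  `q1 G' = π (β (D u))`.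
`D u = Xe α (pg la xx t u) + m`, `m` in `BKR (cw F α) Q0`, and `m` is fixed by `V`, so `m` is in `BKR (cw F α) ⊤`
(`bk_up`), and `β m` is in `BKR (cw F αB) ⊤` (BBK for `P = ⊤`).  `π (β (Xe α ..)) = ∑_v pg .. v • αH v̄` is the sum in the
statement.
(4) `π` maps `BKR (cw F αB) ⊤` to `Civ F αH`: `∑_(t in T) t m t⁻¹ = ∑_t (t m t⁻¹ - m) + |T| • m`, `|T|` is divisible by
`ℓ` (a transversal of a proper subgroup), and `t̄ h t̄⁻¹ - h = t̄ (h t̄⁻¹) - (h t̄⁻¹) t̄`, `h = π m`.
(5) commutators: `a = πs (βs (lf u))`, `b = πs (βs (lf v))`, `d = X • πs (βs z)`, `q1 d = 0`. -/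
def QrgStmt : Prop :=
  ∀ (ℓ : ℕ) [Fact ℓ.Prime] (F V E A As B Bs H Hs : Type) [Field F] [CharP F ℓ] [CommGroup V]
    [Fintype V] [Group E] [Finite E] [Ring A] [Algebra F A] [Ring As] [Algebra F⟦X⟧ As] [Ring B]
    [Algebra F B] [Ring Bs] [Algebra F⟦X⟧ Bs] [Ring H] [Algebra F H] [Ring Hs] [Algebra F⟦X⟧ Hs]
    (φ : E →* MulAut V) (α : V →* A) (W : Subgroup V) [Fintype W] [Fintype (V ⧸ W)]
    (ψ : E →* MulAut W) (γ : W →* As) (q : As →+* A) (αB : V →* B) (β : A → B) (γB : W →* Bs)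
    (βs : As → Bs) (qB : Bs →+* B) (αH : V ⧸ W →* H) (γH : W ⧸ (⊤ : Subgroup W) →* Hs)
    (π : B →ₐ[F] H) (πs : Bs →ₐ[F⟦X⟧] Hs) (q1 : Hs →+* H), IsPGroup ℓ V →
    (∀ v : V, v ^ ℓ ∈ W) → Cl F φ α → Per F⟦X⟧ ψ γ →
    (∀ r : F⟦X⟧, q (algebraMap F⟦X⟧ As r) = algebraMap F A (PowerSeries.constantCoeff r)) →
    (∀ r : F⟦X⟧, q1 (algebraMap F⟦X⟧ Hs r) = algebraMap F H (PowerSeries.constantCoeff r)) →
    IsBQ F α W αB β → IsBQ F⟦X⟧ γ ⊤ γB βs →
    (∀ a ∈ FxR (cw F⟦X⟧ γ) ⊤, qB (βs a) = β (q a)) → IsQt F αB W αH π →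
    IsQt F⟦X⟧ γB ⊤ γH πs → (∀ b, q1 (πs b) = π (qB b)) → Reg ℓ F φ α W γ q →
    ∃ (r : ℕ) (la xx : Fin r → V ⧸ W → F) (t : Fin r → F),
      (∀ l u v, la l (u * v) = la l u + la l v) ∧
      (∀ μ : V ⧸ W → F, (∀ u v, μ (u * v) = μ u + μ v) →
        ∃ c : Fin r → F, ∀ v, μ v = ∑ l, c l * la l v) ∧
      (∀ l, ∑ v, xx l v = 0) ∧
      (∀ l n, ∑ v, xx l v * la n v = if l = n then 1 else 0) ∧ (∀ l, t l ≠ 0) ∧
      (∀ v : V ⧸ W, ∃ w G : Hs, q1 w = αH v ∧ w ^ ℓ = 1 + (PowerSeries.X : F⟦X⟧) • G ∧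
        q1 G - ∑ u, (∑ l, t l * la l v * xx l u) • αH u ∈ Civ F αH) ∧
      ∀ u v : V ⧸ W, ∃ a b d : Hs, q1 a = αH u ∧ q1 b = αH v ∧
        a * b - b * a = (PowerSeries.X : F⟦X⟧) • d ∧ q1 d ∈ Civ F αH

end Pool.Agent.PST.UC
end
end -- Pool.Agent.PST.StmtsUD

section -- Pool.Agent.Helper21_PST.PRT

/-!
# Squad PST, row PRT: the reduction `As(W) → A(W)` (edit of Helper41_PSS/PRQ.lean)
-/

set_option autoImplicit false

open scoped BigOperators TensorProduct PowerSeries

noncomputable section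

namespace Pool.Agent.PST.UC.H21

open Pool.Agent.PFC (tw IsTv)
open Pool.Agent.PFD.D2b (FrR)
open Pool.Agent.PSS
open Pool.Agent.PSS.S0
open Pool.Agent.PSS.S3.H41 (bq_zero bq_sub bq_eq fx_of_comm fx_mul fx_one fx_al q_smul)

theorem prt : PrtStmt := by
  intro ℓ _ F V E A As B Bs _ _ _ _ _ _ _ _ _ _ _ _ _ α W _ ψ γ q αB β γB βs hV hper hsc0
    hsurj0 hker0 hqw0 hB hBs
  have hW : IsPGroup ℓ W := hV.to_subgroup W
  have htop : (⊤ : Subgroup W).map W.subtype = W := by
    rw [← MonoidHom.range_eq_map, Subgroup.range_subtype]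
  -- the groups
  have hqw : ∀ w : W, q (γ w) = (α.comp W.subtype) w := hqw0
  have hfxA : FxR (cw F (α.comp W.subtype)) ⊤ = FxR (cw F α) W := by
    have := (Pool.Agent.PSS.H91.res F V A α W ⊤).1
    rwa [htop] at this
  have hbkA : BKR (cw F (α.comp W.subtype)) ⊤ = BKR (cw F α) W := by
    have := (Pool.Agent.PSS.H91.res F V A α W ⊤).2
    rwa [htop] at this
  have hqfx : ∀ a ∈ FxR (cw F⟦X⟧ γ) ⊤, q a ∈ FxR (cw F α) W := by
    intro a ha
    rw [← hfxA]
    exact (S3.H41.qbk F W A As (α.comp W.subtype) γ q hsc0 hqw ⊤).1 a ha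
  have hqbk : ∀ a ∈ BKR (cw F⟦X⟧ γ) ⊤, q a ∈ BKR (cw F α) W := by
    intro a ha
    rw [← hbkA]
    exact (S3.H41.qbk F W A As (α.comp W.subtype) γ q hsc0 hqw ⊤).2 a ha
  have hQ := Pool.Agent.PST.H84.qrf ℓ F W E A As ψ (α.comp W.subtype) γ q hW hper hsc0 hsurj0
    hker0 hqw ⊤
  -- the map
  choose s hs1 hs2 using hBs.surj
  have hwd : ∀ a ∈ FxR (cw F⟦X⟧ γ) ⊤, ∀ a' ∈ FxR (cw F⟦X⟧ γ) ⊤, βs a = βs a' →
      β (q a) = β (q a') := by
    intro a ha a' ha' h
    rw [bq_eq hBs ha ha'] at h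
    rw [bq_eq hB (hqfx a ha) (hqfx a' ha'), ← map_sub]
    exact hqbk _ h
  let Qf : Bs → B := fun b => β (q (s b))
  have hQf : ∀ a ∈ FxR (cw F⟦X⟧ γ) ⊤, Qf (βs a) = β (q a) := by
    intro a ha
    exact hwd _ (hs1 _) a ha (hs2 _)
  have hQadd : ∀ b b', Qf (b + b') = Qf b + Qf b' := by
    intro b b'
    conv_lhs => rw [← hs2 b, ← hs2 b', ← hBs.add _ (hs1 b) _ (hs1 b'),
      hQf _ (Submodule.add_mem _ (hs1 b) (hs1 b')), map_add,
      hB.add _ (hqfx _ (hs1 b)) _ (hqfx _ (hs1 b'))]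
  have hQmul : ∀ b b', Qf (b * b') = Qf b * Qf b' := by
    intro b b'
    conv_lhs => rw [← hs2 b, ← hs2 b', ← hBs.mul _ (hs1 b) _ (hs1 b'),
      hQf _ (fx_mul (hs1 b) (hs1 b')), map_mul,
      hB.mul _ (hqfx _ (hs1 b)) _ (hqfx _ (hs1 b'))]
  have hQ1 : Qf 1 = 1 := by
    rw [← hBs.one, hQf 1 fx_one, map_one, hB.one]
  have hQ0 : Qf 0 = 0 := by
    rw [← bq_zero hBs, hQf 0 (Submodule.zero_mem _), map_zero, bq_zero hB]
  let qB : Bs →+* B :=
    { toFun := Qf, map_one' := hQ1, map_mul' := hQmul, map_zero' := hQ0, map_add' := hQadd }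
  have hqB : ∀ a ∈ FxR (cw F⟦X⟧ γ) ⊤, qB (βs a) = β (q a) := hQf
  have hsc : ∀ r : F⟦X⟧, qB (algebraMap F⟦X⟧ Bs r) =
      algebraMap F B (PowerSeries.constantCoeff r) := by
    intro r
    rw [Algebra.algebraMap_eq_smul_one, ← hBs.one, ← hBs.smul r 1 fx_one,
      hqB _ (Submodule.smul_mem _ _ fx_one), q_smul hsc0, map_one, hB.smul _ 1 fx_one, hB.one,
      ← Algebra.algebraMap_eq_smul_one]
  refine ⟨qB, hqB, hsc, ?_, ?_, ?_⟩
  · intro z
    obtain ⟨a, ha, rfl⟩ := hB.surj z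
    rw [← hfxA] at ha
    obtain ⟨a', ha', rfl⟩ := hQ.1 a ha
    exact ⟨βs a', hqB a' ha'⟩
  · intro z hz
    obtain ⟨a, ha, rfl⟩ := hBs.surj z
    rw [hqB a ha, hB.ker _ (hqfx a ha), ← hbkA] at hz
    obtain ⟨m, hm, hm'⟩ := hQ.2 a ha hz
    refine ⟨βs m, ?_⟩
    rw [← hBs.smul _ _ hm, bq_eq hBs ha (Submodule.smul_mem _ _ hm)]
    exact hm'
  · intro w
    rw [← hBs.om, hqB _ (fx_al w), hqw0, hB.om]

end Pool.Agent.PST.UC.H21
end
end -- Pool.Agent.Helper21_PST.PRT

section -- Pool.Agent.Helper22_PST.QFA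

open scoped BigOperators TensorProduct PowerSeries

noncomputable section

namespace Pool.Agent.PST.UC.H22

theorem qfa : QfaStmt := by
  intro F V B Bs H Hs _ _ _ _ _ _ _ _ _ _ W αB γB qB αH γH π πs h1 h2 hsc hsurj hker hγ
  -- `π ∘ qB` kills the augmentation part
  have k1 : ∀ b, b ∈ Aug F⟦X⟧ (γB.comp (⊤ : Subgroup W).subtype) ⊤ → π (qB b) = 0 := by
    intro b hb
    unfold Aug at hb
    induction hb using Submodule.span_induction with
    | mem x hx =>
      obtain ⟨n, b, -, rfl⟩ := hx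
      rw [map_mul, map_sub, map_one]
      have e1 : qB ((γB.comp (⊤ : Subgroup W).subtype) n) = αB ((n : W) : V) := hγ n
      rw [e1]
      rw [h1.ker]
      refine Submodule.subset_span ⟨(n : W), qB b, trivial, rfl⟩
    | zero => rw [map_zero, map_zero]
    | add x y _ _ hx hy => rw [map_add, map_add, hx, hy, add_zero]
    | smul r x _ hx =>
      rw [Algebra.smul_def, map_mul, hsc, map_mul, hx, mul_zero]
  have k2 : ∀ a, a ∈ Aug F (αB.comp W.subtype) ⊤ →
      ∃ b'' ∈ Aug F⟦X⟧ (γB.comp (⊤ : Subgroup W).subtype) ⊤, qB b'' = a := by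
    intro a ha
    unfold Aug at ha
    induction ha using Submodule.span_induction with
    | mem x hx =>
      obtain ⟨n, b, -, rfl⟩ := hx
      obtain ⟨b0, rfl⟩ := hsurj b
      refine ⟨(γB n - 1) * b0, Submodule.subset_span ⟨⟨n, trivial⟩, b0, trivial, rfl⟩, ?_⟩
      rw [map_mul, map_sub, map_one, hγ]
      rfl
    | zero => exact ⟨0, Submodule.zero_mem _, map_zero _⟩
    | add x y _ _ hx hy =>
      obtain ⟨x', hx1, hx2⟩ := hx
      obtain ⟨y', hy1, hy2⟩ := hy
      exact ⟨x' + y', Submodule.add_mem _ hx1 hy1, by rw [map_add, hx2, hy2]⟩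
    | smul r x _ hx =>
      obtain ⟨x', hx1, hx2⟩ := hx
      refine ⟨(PowerSeries.C r : F⟦X⟧) • x', Submodule.smul_mem _ _ hx1, ?_⟩
      rw [Algebra.smul_def, map_mul, hsc, PowerSeries.constantCoeff_C, hx2, Algebra.smul_def]
  have hkk : RingHom.ker (πs : Bs →+* Hs) ≤ RingHom.ker ((π : B →+* H).comp qB) := by
    intro b hb
    rw [RingHom.mem_ker] at hb ⊢
    exact k1 b ((h2.ker b).1 hb)
  let q1 : Hs →+* H := RingHom.liftOfSurjective (πs : Bs →+* Hs) h2.surj
    ⟨(π : B →+* H).comp qB, hkk⟩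
  have hq1 : ∀ b, q1 (πs b) = π (qB b) := fun b =>
    RingHom.liftOfRightInverse_comp_apply (πs : Bs →+* Hs) (Function.surjInv h2.surj)
      (Function.rightInverse_surjInv h2.surj) ⟨(π : B →+* H).comp qB, hkk⟩ b
  refine ⟨q1, hq1, fun r => ?_, fun h => ?_, fun h hh => ?_⟩
  · have e : algebraMap F⟦X⟧ Hs r = πs (algebraMap F⟦X⟧ Bs r) := (AlgHom.commutes πs r).symm
    rw [e, hq1, hsc, AlgHom.commutes]
  · obtain ⟨b, rfl⟩ := h1.surj h
    obtain ⟨b', rfl⟩ := hsurj b
    exact ⟨πs b', hq1 b'⟩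
  · obtain ⟨b, rfl⟩ := h2.surj h
    rw [hq1] at hh
    obtain ⟨b'', hb1, hb2⟩ := k2 _ ((h1.ker _).1 hh)
    obtain ⟨b', hb'⟩ := hker (b - b'') (by rw [map_sub, hb2, sub_self])
    refine ⟨πs b', ?_⟩
    have e1 : b = (PowerSeries.X : F⟦X⟧) • b' + b'' := by rw [← hb']; abel
    rw [e1, map_add, (h2.ker b'').2 hb1, add_zero, map_smul]

end Pool.Agent.PST.UC.H22
end
end -- Pool.Agent.Helper22_PST.QFA

section -- Pool.Agent.Helper25_PFC.CNV

/-!
Squad PFC, row CNV (helper25): change of the Frobenius system in the Higman identity of the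
complement.
-/

namespace Pool.Agent.PFC.B1.H25CNV

/-- the Casimir identity (also row CAS) -/
theorem cas : CasStmt := by
  intro R A I X _ _ _ _ _ _ c B x
  calc ∑ i, B (x * c.b i) (c.b' i)
      = ∑ i, ∑ k, c.lam (c.b' k * x * c.b i) • B (c.b k) (c.b' i) := by
        refine Finset.sum_congr rfl fun i _ => ?_
        conv_lhs => rw [← c.h1 (x * c.b i)]
        rw [map_sum, LinearMap.sum_apply]
        refine Finset.sum_congr rfl fun k _ => ?_
        rw [map_smul, LinearMap.smul_apply, mul_assoc]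
    _ = ∑ k, B (c.b k) (∑ i, c.lam (c.b' k * x * c.b i) • c.b' i) := by
        rw [Finset.sum_comm]
        refine Finset.sum_congr rfl fun k _ => ?_
        rw [map_sum]
        refine Finset.sum_congr rfl fun i _ => ?_
        rw [map_smul]
    _ = ∑ i, B (c.b i) (c.b' i * x) := by
        refine Finset.sum_congr rfl fun k _ => ?_
        rw [c.h2]

theorem cnv : CnvStmt := by
  intro F Γ Γ0 A I I0 _ _ _ _ _ _ _ _ _ c c0 f sp
  have hq : ∀ (r : PowerSeries F) (γ : Γ),
      f.q (r • γ) = PowerSeries.constantCoeff r • f.q γ := by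
    intro r γ
    rw [Algebra.smul_def, map_mul, f.sc, ← Algebra.smul_def]
  have hwd : ∀ γ, f.q γ = 0 → PowerSeries.constantCoeff (c.lam γ) = 0 := by
    intro γ h
    obtain ⟨y, rfl⟩ := f.ker γ h
    rw [map_smul, smul_eq_mul, map_mul, PowerSeries.constantCoeff_X, zero_mul]
  have key : ∀ γ γ', f.q γ = f.q γ' →
      PowerSeries.constantCoeff (c.lam γ) = PowerSeries.constantCoeff (c.lam γ') := by
    intro γ γ' h
    have h2 := hwd (γ - γ') (by rw [map_sub, h, sub_self])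
    rw [map_sub, map_sub, sub_eq_zero] at h2
    exact h2
  obtain ⟨lb, hlb⟩ : ∃ lb : Γ0 →ₗ[F] F,
      ∀ γ, lb (f.q γ) = PowerSeries.constantCoeff (c.lam γ) := by
    have hs : ∀ y, f.q (Function.surjInv f.surj y) = y := Function.surjInv_eq f.surj
    refine ⟨{ toFun := fun y => PowerSeries.constantCoeff (c.lam (Function.surjInv f.surj y)),
              map_add' := ?_, map_smul' := ?_ }, fun γ => key _ _ (hs _)⟩
    · intro x y
      rw [← map_add, ← map_add]
      exact key _ _ (by rw [hs, map_add, hs, hs])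
    · intro r x
      have h := key (Function.surjInv f.surj (r • x))
        ((PowerSeries.C r : PowerSeries F) • Function.surjInv f.surj x)
        (by rw [hs, hq, hs, PowerSeries.constantCoeff_C])
      rw [h, map_smul, smul_eq_mul, map_mul, PowerSeries.constantCoeff_C]
      rfl
  have h1 : ∀ y : Γ0, ∑ i, lb (f.q (c.b' i) * y) • f.q (c.b i) = y := by
    intro y
    obtain ⟨γ, rfl⟩ := f.surj y
    conv_rhs => rw [← c.h1 γ]
    rw [map_sum]
    refine Finset.sum_congr rfl fun i _ => ?_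
    rw [hq, ← map_mul, hlb]
  have h2 : ∀ y : Γ0, ∑ i, lb (y * f.q (c.b i)) • f.q (c.b' i) = y := by
    intro y
    obtain ⟨γ, rfl⟩ := f.surj y
    conv_rhs => rw [← c.h2 γ]
    rw [map_sum]
    refine Finset.sum_congr rfl fun i _ => ?_
    rw [hq, ← map_mul, hlb]
  have hL : ∀ Ψ : Γ0 →ₗ[F] Γ0 →ₗ[F] A,
      ∑ i, ∑ g, lb (c0.b g) • Ψ (f.q (c.b i)) (c0.b' g * f.q (c.b' i)) =
        ∑ g, Ψ (c0.b g) (c0.b' g) := by
    intro Ψ
    have e1 : ∀ i, ∑ g, lb (c0.b g) • Ψ (f.q (c.b i)) (c0.b' g * f.q (c.b' i)) =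
        ∑ g, lb (f.q (c.b' i) * c0.b g) • Ψ (f.q (c.b i)) (c0.b' g) := by
      intro i
      have h := cas F Γ0 I0 A c0
        (LinearMap.mk₂ F (fun u v => lb u • Ψ (f.q (c.b i)) v)
          (fun u u' v => by simp only [map_add, add_smul])
          (fun r u v => by simp only [map_smul, smul_assoc])
          (fun u v v' => by simp only [map_add, smul_add])
          (fun r u v => by simp only [map_smul, smul_comm r])) (f.q (c.b' i))
      simp only [LinearMap.mk₂_apply] at h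
      exact h.symm
    simp_rw [e1]
    rw [Finset.sum_comm]
    refine Finset.sum_congr rfl fun g _ => ?_
    conv_rhs => rw [← h1 (c0.b g)]
    rw [map_sum, LinearMap.sum_apply]
    refine Finset.sum_congr rfl fun i _ => ?_
    rw [map_smul, LinearMap.smul_apply]
  have hR : ∀ Ψ : Γ0 →ₗ[F] Γ0 →ₗ[F] A,
      ∑ l, ∑ g, lb (c0.b' g) • Ψ (f.q (c.b l) * c0.b g) (f.q (c.b' l)) =
        ∑ g, Ψ (c0.b g) (c0.b' g) := by
    intro Ψ
    have e1 : ∀ l, ∑ g, lb (c0.b' g) • Ψ (f.q (c.b l) * c0.b g) (f.q (c.b' l)) =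
        ∑ g, lb (c0.b' g * f.q (c.b l)) • Ψ (c0.b g) (f.q (c.b' l)) := by
      intro l
      have h := cas F Γ0 I0 A c0
        (LinearMap.mk₂ F (fun u v => lb v • Ψ u (f.q (c.b' l)))
          (fun u u' v => by simp only [map_add, LinearMap.add_apply, smul_add])
          (fun r u v => by simp only [map_smul, LinearMap.smul_apply, smul_comm r])
          (fun u v v' => by simp only [map_add, add_smul])
          (fun r u v => by simp only [map_smul, smul_assoc])) (f.q (c.b l))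
      simp only [LinearMap.mk₂_apply] at h
      exact h
    simp_rw [e1]
    rw [Finset.sum_comm]
    refine Finset.sum_congr rfl fun g _ => ?_
    conv_rhs => rw [← h2 (c0.b' g)]
    rw [map_sum]
    refine Finset.sum_congr rfl fun i _ => ?_
    rw [map_smul]
  refine ⟨∑ g, ∑ h, (lb (c0.b g) * lb (c0.b' h)) •
    (sp.a ∘ₗ LinearMap.mulLeft F (sp.j (c0.b' g)) ∘ₗ LinearMap.mulRight F (sp.j (c0.b h))),
    fun x => ?_⟩
  have ha : ∀ y, (∑ g, ∑ h, (lb (c0.b g) * lb (c0.b' h)) •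
      (sp.a ∘ₗ LinearMap.mulLeft F (sp.j (c0.b' g)) ∘ₗ LinearMap.mulRight F (sp.j (c0.b h)))) y =
      ∑ h, ∑ g, lb (c0.b' h) • lb (c0.b g) • sp.a (sp.j (c0.b' g) * (y * sp.j (c0.b h))) := by
    intro y
    rw [Finset.sum_comm]
    simp only [LinearMap.sum_apply, LinearMap.smul_apply, LinearMap.comp_apply,
      LinearMap.mulLeft_apply, LinearMap.mulRight_apply, smul_smul, mul_comm (lb (c0.b' _))]
  calc ∑ i, ∑ l, sp.j (f.q (c.b i)) *
        (∑ g, ∑ h, (lb (c0.b g) * lb (c0.b' h)) •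
      (sp.a ∘ₗ LinearMap.mulLeft F (sp.j (c0.b' g)) ∘ₗ LinearMap.mulRight F (sp.j (c0.b h))))
        (sp.j (f.q (c.b' i)) * x * sp.j (f.q (c.b l))) * sp.j (f.q (c.b' l))
      = ∑ l, ∑ h, lb (c0.b' h) • ∑ i, ∑ g, lb (c0.b g) •
        (sp.j (f.q (c.b i)) * sp.a (sp.j (c0.b' g * f.q (c.b' i)) * x *
          sp.j (f.q (c.b l) * c0.b h)) * sp.j (f.q (c.b' l))) := by
        rw [Finset.sum_comm]
        refine Finset.sum_congr rfl fun l _ => ?_
        simp only [ha, Finset.mul_sum, Finset.sum_mul, Finset.smul_sum, mul_smul_comm,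
          smul_mul_assoc, map_mul, mul_assoc]
        rw [Finset.sum_comm]
    _ = ∑ l, ∑ h, lb (c0.b' h) • ∑ g,
        (sp.j (c0.b g) * sp.a (sp.j (c0.b' g) * x *
          sp.j (f.q (c.b l) * c0.b h)) * sp.j (f.q (c.b' l))) := by
        refine Finset.sum_congr rfl fun l _ => Finset.sum_congr rfl fun h _ => ?_
        have e := hL (LinearMap.mk₂ F (fun u v => sp.j u * sp.a (sp.j v * x *
          sp.j (f.q (c.b l) * c0.b h)) * sp.j (f.q (c.b' l)))
          (fun u u' v => by simp only [map_add, add_mul])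
          (fun r u v => by simp only [map_smul, smul_mul_assoc])
          (fun u v v' => by simp only [map_add, add_mul, mul_add])
          (fun r u v => by simp only [map_smul, smul_mul_assoc, mul_smul_comm]))
        simp only [LinearMap.mk₂_apply] at e
        rw [e]
    _ = ∑ g, ∑ l, ∑ h, lb (c0.b' h) •
        (sp.j (c0.b g) * sp.a (sp.j (c0.b' g) * x *
          sp.j (f.q (c.b l) * c0.b h)) * sp.j (f.q (c.b' l))) := by
        simp only [Finset.smul_sum]
        exact (Finset.sum_congr rfl fun l _ => Finset.sum_comm).trans Finset.sum_comm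
    _ = ∑ g, ∑ h, sp.j (c0.b g) * sp.a (sp.j (c0.b' g) * x * sp.j (c0.b h)) *
          sp.j (c0.b' h) := by
        refine Finset.sum_congr rfl fun g _ => ?_
        have e := hR (LinearMap.mk₂ F (fun u v => sp.j (c0.b g) * sp.a (sp.j (c0.b' g) * x *
          sp.j u) * sp.j v)
          (fun u u' v => by simp only [map_add, add_mul, mul_add])
          (fun r u v => by simp only [map_smul, smul_mul_assoc, mul_smul_comm])
          (fun u v v' => by simp only [map_add, mul_add])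
          (fun r u v => by simp only [map_smul, mul_smul_comm]))
        simp only [LinearMap.mk₂_apply] at e
        exact e
    _ = x - sp.j (sp.pr x) := sp.a_id x

end Pool.Agent.PFC.B1.H25CNV
end -- Pool.Agent.Helper25_PFC.CNV

section -- Pool.Agent.Helper78_PST.CLO

/-!
# Squad PST, row CLO: closedness passes to the deformation
-/

open scoped BigOperators TensorProduct PowerSeries

noncomputable section

namespace Pool.Agent.PST.H78

open Pool.Agent.PFC (tw IsTv)
open Pool.Agent.PFD.D2b (FrR)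
open Pool.Agent.PSS
open Pool.Agent.PSS.S0 (IsBQ)
open Pool.Agent.PST.U (Clo Vsh)

/-- CLO -/
theorem clo (zij : ZijStmt) (pra : PraStmt) (qrf : QrfStmt) (qbk : S3.QbkStmt)
    (bqx : S0.BqxStmt) (bcl : S0.BclStmt) (bbk : S0.BbkStmt) (res : S0.ResStmt) : CloStmt := by
  classical
  intro ℓ _ F V E A As _ _ _ _ _ _ _ _ _ _ φ α W _ ψ γ q hp hE hA hrs hper hsc hsurj hker hqw Q
    hQ a ha hab hac
  by_contra hn
  have hl : (ℓ : F) = 0 := CharP.cast_eq_zero F ℓ
  have hpW : IsPGroup ℓ W := hp.to_subgroup W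
  obtain ⟨a', ha', hb', hc', hd'⟩ := pra ℓ F W E As ψ γ Q hpW hper a ha hab hac hn
  have hqw' : ∀ w : W, q (γ w) = (α.comp W.subtype) w := fun w => hqw w
  have hqrf := qrf ℓ F W E A As ψ (α.comp W.subtype) γ q hpW hper hsc hsurj hker hqw'
  have hqbk := qbk F W A As (α.comp W.subtype) γ q hsc hqw'
  have hres := fun P : Subgroup W => res F V A α W P
  -- monotonicity of the fixed vectors
  have hmono : ∀ {P P' : Subgroup W}, P ≤ P' → ∀ m ∈ FxR (cw F⟦X⟧ γ) P', m ∈ FxR (cw F⟦X⟧ γ) P :=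
    fun h m hm x hx => hm x (h hx)
  have haQ : a' ∈ FxR (cw F⟦X⟧ γ) Q := hmono le_top a' ha'
  have hf1 : q a' ∉ BKR (cw F (α.comp W.subtype)) Q := by
    intro h
    obtain ⟨m, hm, hm2⟩ := (hqrf Q).2 a' haQ h
    exact hd' m hm hm2
  have hf2 : ∀ Q' : Subgroup W, Q < Q' → q a' ∈ BKR (cw F (α.comp W.subtype)) Q' :=
    fun Q' h => (hqbk Q').2 a' (hb' Q' h)
  have hf3 : q a' ∈ FxR (cw F α) W := by
    have h1 := (hqbk ⊤).1 a' ha'
    rw [(hres ⊤).1] at h1
    intro v hv
    exact h1 v ⟨⟨v, hv⟩, Subgroup.mem_top _, rfl⟩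
  have hf4 : ∀ z ∈ FxR (cw F (α.comp W.subtype)) Q,
      q a' * z - z * q a' ∈ BKR (cw F (α.comp W.subtype)) Q := by
    intro z hz
    obtain ⟨m, hm, rfl⟩ := (hqrf Q).1 z hz
    have h1 := (hqbk Q).2 _ (hc' m hm)
    rwa [map_sub, map_mul, map_mul] at h1
  -- the Brauer quotient
  have hQW : Q.map W.subtype ≤ W := by
    rintro _ ⟨w, -, rfl⟩
    exact w.2
  obtain ⟨B, _, _, αB, β, hq⟩ := bqx F V A α (Q.map W.subtype)
  let E1 : Subgroup E :=
    { carrier := {e | ∀ s ∈ Q.map W.subtype, φ e s = s}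
      one_mem' := by
        intro s _
        rw [map_one]
        rfl
      mul_mem' := by
        intro e e' h h' s hs
        rw [map_mul, MulAut.mul_apply, h' s hs, h s hs]
      inv_mem' := by
        intro e h s hs
        have h1 := h s hs
        rw [map_inv]
        calc (φ e)⁻¹ s = (φ e)⁻¹ (φ e s) := by rw [h1]
          _ = s := MulAut.inv_apply_self _ _ _ }
  have hE1 : ∀ e, e ∈ E1 ↔ ∀ s ∈ Q.map W.subtype, φ e s = s := fun e => Iff.rfl
  have hB : Cl F (φ.comp E1.subtype) αB :=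
    bcl ℓ F V E A B φ α (Q.map W.subtype) αB β E1 hp hE hA hq hE1
  obtain ⟨lam, K, _, x, y, hRF, -⟩ := hA.rt
  have hfx : ∀ P : Subgroup V, P ≤ W → q a' ∈ FxR (cw F α) P := fun P h v hv => hf3 v (h hv)
  have hfQ : q a' ∈ FxR (cw F α) (Q.map W.subtype) := hfx _ hQW
  have hz1 : β (q a') ≠ 0 := by
    intro h
    apply hf1
    rw [(hres Q).2]
    exact (hq.ker _ hfQ).1 h
  have hzc : ∀ w : B, β (q a') * w = w * β (q a') := by
    intro w
    obtain ⟨z, hz, rfl⟩ := hq.surj w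
    have hz' : z ∈ FxR (cw F (α.comp W.subtype)) Q := by
      rw [(hres Q).1]
      exact hz
    have h1 := hf4 z hz'
    rw [(hres Q).2] at h1
    have hmul : ∀ u ∈ FxR (cw F α) (Q.map W.subtype), ∀ v ∈ FxR (cw F α) (Q.map W.subtype),
        u * v ∈ FxR (cw F α) (Q.map W.subtype) := by
      intro u hu v hv g hg
      have e1 := hu g hg
      have e2 := hv g hg
      have hcw : ∀ s : A, cw F α g s = α g * (s * α g⁻¹) := fun s => rfl
      rw [hcw] at e1 e2 ⊢
      have hgi : α g⁻¹ * α g = 1 := by rw [← map_mul, inv_mul_cancel, map_one]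
      calc α g * (u * v * α g⁻¹) = α g * (u * α g⁻¹) * (α g * (v * α g⁻¹)) := by
            simp only [mul_assoc]
            rw [← mul_assoc (α g⁻¹) (α g), hgi, one_mul]
        _ = u * v := by rw [e1, e2]
    have hd : q a' * z - z * q a' ∈ FxR (cw F α) (Q.map W.subtype) :=
      Submodule.sub_mem _ (hmul _ hfQ _ hz) (hmul _ hz _ hfQ)
    have h2 := (hq.ker _ hd).2 h1
    have h3 := hq.add _ hd _ (hmul _ hz _ hfQ)
    rw [sub_add_cancel, h2, zero_add, hq.mul _ hfQ _ hz, hq.mul _ hz _ hfQ] at h3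
    exact h3
  -- the fixed points of `E1`
  let P : Subgroup V :=
    { carrier := {v | v ∈ W ∧ ∀ e ∈ E1, φ e v = v}
      one_mem' := ⟨W.one_mem, fun e _ => map_one _⟩
      mul_mem' := by
        rintro u v ⟨h1, h2⟩ ⟨h3, h4⟩
        refine ⟨W.mul_mem h1 h3, fun e he => ?_⟩
        rw [map_mul, h2 e he, h4 e he]
      inv_mem' := by
        rintro u ⟨h1, h2⟩
        refine ⟨W.inv_mem h1, fun e he => ?_⟩
        rw [map_inv, h2 e he] }
  have hPW : P ≤ W := fun v hv => hv.1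
  have hQP : Q.map W.subtype ≤ P := fun v hv => ⟨hQW hv, fun e he => he v hv⟩
  have hne : ¬ P ≤ Q.map W.subtype := by
    intro hle
    apply hQ
    intro w hw
    have hwP : (w : V) ∈ P := by
      refine ⟨w.2, fun e he => ?_⟩
      have h1 : ψ e w = w := by
        refine hw e fun u hu => ?_
        apply Subtype.ext
        rw [hrs e u]
        exact he _ ⟨u, hu, rfl⟩
      rw [← hrs e w, h1]
    obtain ⟨w', hw', hww⟩ := hle hwP
    have : w' = w := Subtype.ext hww
    rwa [← this]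
  have hlt : Q < P.subgroupOf W := by
    refine lt_of_le_not_ge ?_ ?_
    · intro u hu
      exact hQP ⟨u, hu, rfl⟩
    · intro hle
      apply hne
      intro v hv
      exact ⟨⟨v, hPW hv⟩, hle (show (v : V) ∈ P from hv), rfl⟩
  have hmap : (P.subgroupOf W).map W.subtype = P := by
    rw [Subgroup.subgroupOf_map_subtype]
    exact inf_eq_left.2 hPW
  have hfP : q a' ∈ BKR (cw F α) P := by
    have h1 := hf2 _ hlt
    rwa [(hres _).2, hmap] at h1
  have hsup : P ⊔ Q.map W.subtype = P := sup_eq_left.2 hQP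
  have hb := (bbk ℓ F V E A B K φ α (Q.map W.subtype) αB β lam x y P hl hp hA.per hRF hq).1
    (q a') (by rw [hsup]; exact hfx P hPW)
  rw [hsup] at hb
  have hzP : β (q a') ∈ BKR (cw F αB) P := hb.2.2 hfP
  have hcard : ¬ ℓ ∣ Nat.card E1 := fun h => hE (h.trans (Subgroup.card_subgroup_dvd_card E1))
  exact hz1 (zij ℓ F V E1 B (φ.comp E1.subtype) αB P hp hcard hB
    (fun g v hv => hv.2 g.1 g.2) (β (q a')) hzc hzP)

end Pool.Agent.PST.H78
end
end -- Pool.Agent.Helper78_PST.CLO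

section -- Pool.Agent.Helper86_PST.HSF

/-! PST, row HSF: an algebra over `F⟦X⟧` with dual families is finite and free. -/

set_option autoImplicit false

open scoped BigOperators TensorProduct PowerSeries

noncomputable section

namespace Pool.Agent.PST.H86

/-- HSF -/
theorem hsf : UC.HsfStmt := by
  intro F H K _ _ _ _ lam x y hd
  have hfin : Module.Finite F⟦X⟧ H := by
    refine ⟨⟨(Set.finite_range x).toFinset, ?_⟩⟩
    rw [Set.Finite.coe_toFinset, eq_top_iff]
    intro a _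
    rw [← hd a]
    exact Submodule.sum_mem _ fun k _ => Submodule.smul_mem _ _ (Submodule.subset_span ⟨k, rfl⟩)
  refine ⟨hfin, ?_⟩
  have htf : Module.IsTorsionFree F⟦X⟧ H := by
    refine Module.IsTorsionFree.of_smul_eq_zero fun r a h => ?_
    by_cases hr : r = 0
    · exact Or.inl hr
    · right
      rw [← hd a]
      refine Finset.sum_eq_zero fun k _ => ?_
      have h1 : r * lam (y k * a) = 0 := by
        rw [← smul_eq_mul, ← map_smul, ← mul_smul_comm, h, mul_zero, map_zero]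
      rw [(mul_eq_zero.1 h1).resolve_left hr, zero_smul]
  exact Module.free_of_finite_type_torsion_free'

end Pool.Agent.PST.H86
end
end -- Pool.Agent.Helper86_PST.HSF

section -- Pool.Agent.Helper41_PFE.KCR

set_option autoImplicit false

/-!
# Squad PFE, row KCR: `rt s - s` is a trace from `1` to `B`
-/

open scoped BigOperators

noncomputable section

namespace Pool.Agent.PFE.H41

open Pool.Agent.PFC.B1 (BiM FS Sep Split)
open Pool.Agent.PFD.D2
open Pool.Agent.PFD.D2b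
open Pool.Agent.PFD.D4

/-- ROW KCR. -/
theorem kcr : KcrStmt := by
  have hCAS : Pool.Agent.PFC.B1.CasStmt := Pool.Agent.PFC.B1.H25CNV.cas
  intro K B A I J N _ _ _ _ _ _ _ _ D s hs
  -- the operator `al`
  let al : A →ₗ[K] A := ∑ i, (LinearMap.mulLeft K (D.sp.j (D.c.b i))) ∘ₗ D.sp.a ∘ₗ
    (LinearMap.mulLeft K (D.sp.j (D.c.b' i)))
  have hal : ∀ y, al y = ∑ i, D.sp.j (D.c.b i) * D.sp.a (D.sp.j (D.c.b' i) * y) := by
    intro y
    simp only [al, LinearMap.sum_apply, LinearMap.comp_apply, LinearMap.mulLeft_apply]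
  -- (1)
  have h1 : ∀ x, x - D.sp.j (D.sp.pr x) =
      ∑ k, al (D.d.b k) * D.sp.j (D.sp.pr (D.d.b' k * x)) := by
    intro x
    rw [← D.sp.a_id x, Finset.sum_comm]
    have e1 : ∀ l, ∑ i, D.sp.j (D.c.b i) * D.sp.a (D.sp.j (D.c.b' i) * x * D.sp.j (D.c.b l)) *
        D.sp.j (D.c.b' l) = ∑ k, al (D.d.b k) *
          D.sp.j (D.c.lam (D.sp.pr (D.d.b' k * x) * D.c.b l) • D.c.b' l) := by
      intro l
      rw [← Finset.sum_mul]
      have e2 : ∑ i, D.sp.j (D.c.b i) * D.sp.a (D.sp.j (D.c.b' i) * x * D.sp.j (D.c.b l)) =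
          al (x * D.sp.j (D.c.b l)) := by
        rw [hal]
        exact Finset.sum_congr rfl fun i _ => by rw [mul_assoc (D.sp.j (D.c.b' i))]
      rw [e2]
      conv_lhs => rw [← D.d.h1 (x * D.sp.j (D.c.b l))]
      rw [map_sum, Finset.sum_mul]
      refine Finset.sum_congr rfl fun k _ => ?_
      rw [map_smul, map_smul, D.ort, ← mul_assoc, D.sp.pr_r, smul_mul_assoc, mul_smul_comm]
    rw [Finset.sum_congr rfl fun l _ => e1 l, Finset.sum_comm]
    refine Finset.sum_congr rfl fun k _ => ?_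
    rw [← Finset.mul_sum, ← map_sum, D.c.h2]
  -- (2)
  have h2 : D.s.rt s = s + ∑ k, al (D.d.b k) * s * D.d.b' k := by
    unfold Pool.Agent.PFD.RF.rt
    have e3 : ∀ n, D.s.x n * s * D.s.y n = s * (D.sp.j (D.sp.pr (1 * D.s.x n)) * D.s.y n) +
        ∑ k, al (D.d.b k) * s * (D.sp.j (D.sp.pr (D.d.b' k * D.s.x n)) * D.s.y n) := by
      intro n
      have e4 : D.s.x n = D.sp.j (D.sp.pr (D.s.x n)) +
          ∑ k, al (D.d.b k) * D.sp.j (D.sp.pr (D.d.b' k * D.s.x n)) := by
        rw [← h1]; abel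
      conv_lhs => rw [e4]
      rw [add_mul, add_mul, hs, one_mul, mul_assoc s, Finset.sum_mul, Finset.sum_mul]
      congr 1
      refine Finset.sum_congr rfl fun k _ => ?_
      rw [mul_assoc (al (D.d.b k)), hs]
      simp only [mul_assoc]
    rw [Finset.sum_congr rfl fun n _ => e3 n, Finset.sum_add_distrib, ← Finset.mul_sum, D.s.e2,
      mul_one, Finset.sum_comm]
    congr 1
    refine Finset.sum_congr rfl fun k _ => ?_
    rw [← Finset.mul_sum, D.s.e2]
  -- (3)
  refine ⟨∑ k, D.sp.a (D.d.b k) * s * D.d.b' k, ?_⟩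
  rw [h2]
  congr 1
  unfold KM.TB
  let β : A →ₗ[K] A →ₗ[K] A := LinearMap.mk₂ K (fun u v => D.sp.a u * s * v)
    (fun u u' v => by rw [map_add, add_mul, add_mul])
    (fun r u v => by rw [map_smul, smul_mul_assoc, smul_mul_assoc])
    (fun u v v' => by rw [mul_add])
    (fun r u v => by rw [mul_smul_comm])
  have hβ : ∀ u v, β u v = D.sp.a u * s * v := fun u v => rfl
  have h3 : ∀ x, ∑ k, D.sp.a (x * D.d.b k) * s * D.d.b' k =
      ∑ k, D.sp.a (D.d.b k) * s * (D.d.b' k * x) := by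
    intro x
    exact hCAS K A J A D.d β x
  have e5 : ∀ k, al (D.d.b k) * s * D.d.b' k =
      ∑ i, D.sp.j (D.c.b i) * (D.sp.a (D.sp.j (D.c.b' i) * D.d.b k) * s * D.d.b' k) := by
    intro k
    rw [hal, Finset.sum_mul, Finset.sum_mul]
    exact Finset.sum_congr rfl fun i _ => by simp only [mul_assoc]
  rw [Finset.sum_congr rfl fun k _ => e5 k, Finset.sum_comm]
  refine Finset.sum_congr rfl fun i _ => ?_
  rw [← Finset.mul_sum, h3, mul_assoc (D.sp.j (D.c.b i)), Finset.sum_mul]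
  simp only [mul_assoc]

end Pool.Agent.PFE.H41
end
end -- Pool.Agent.Helper41_PFE.KCR

section -- Pool.Agent.Helper47_PFE.NIL

/-! Squad PFE, row NIL: the homogeneous ideal is nilpotent. -/

open scoped BigOperators

noncomputable section

namespace Pool.Agent.PFE.H47

open Pool.Agent.PFC.B1 (FS Split)

/-- powers of a span are spanned by products of lists -/
theorem nil_span_pow {K A : Type} [Field K] [Ring A] [Algebra K A] (s : Set A) (hs : s.Nonempty)
    (n : ℕ) : (Submodule.span K s) ^ n ≤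
      Submodule.span K {p | ∃ f : ℕ → A, (∀ i, f i ∈ s) ∧ p = ((List.range n).map f).prod} := by
  obtain ⟨s0, hs0⟩ := hs
  induction n with
  | zero =>
    rw [pow_zero, Submodule.one_eq_span]
    refine Submodule.span_mono ?_
    rintro x hx
    rw [Set.mem_singleton_iff] at hx
    exact ⟨fun _ => s0, fun _ => hs0, by simp [hx]⟩
  | succ n ih =>
    rw [pow_succ]
    refine (mul_le_mul' ih le_rfl).trans ?_
    rw [Submodule.span_mul_span]
    refine Submodule.span_mono ?_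
    rintro x ⟨p, ⟨f, hf, rfl⟩, q, hq, rfl⟩
    refine ⟨fun i => if i < n then f i else q, fun i => ?_, ?_⟩
    · by_cases h : i < n
      · simp only [h, if_true]; exact hf i
      · simp only [h, if_false]; exact hq
    · show _ * q = _
      rw [List.range_succ, List.map_append, List.prod_append]
      have h1 : (List.range n).map (fun i => if i < n then f i else q) = (List.range n).map f := by
        refine List.map_congr_left fun i hi => ?_
        rw [List.mem_range] at hi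
        simp only [hi, if_true]
      rw [h1]
      simp

theorem nil_mono {K A : Type} [Field K] [Ring A] [Algebra K A] {P Q R : Submodule K A} {z : A}
    (h : Q ≤ R) (hz : z ∈ P * Q) : z ∈ P * R :=
  (mul_le_mul' le_rfl h : P * Q ≤ P * R) hz

theorem nil (TXR : TxrStmt) (TXA : TxaStmt) : NilStmt := by
  classical
  intro K A X _ _ _ _ _ y l χ hl hy hχ hM
  obtain ⟨M, hM⟩ := hM
  obtain ⟨r1, r2, r3, r4, r5, -, -⟩ := TXR K A X y l χ hl hy hχ
  obtain ⟨a1, a2, a3, -, -⟩ := TXA K A X y l χ hl hy hχ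
  -- the twisted traces
  let T : X → Submodule K A := fun x =>
    LinearMap.range ({ toFun := fun a => Tx y l (χ x) a
                       map_add' := a1 (χ x)
                       map_smul' := fun r a => a2 (χ x) r a } : A →ₗ[K] A)
  have hT : ∀ x b, b ∈ T x ↔ ∃ a, Tx y l (χ x) a = b := fun x b => Iff.rfl
  have hTT : ∀ z w, T z * T w ≤ T (z * w) := by
    intro z w
    rw [Submodule.mul_le]
    rintro p ⟨a, rfl⟩ q ⟨b, rfl⟩
    exact ⟨Tx y l (χ z) a * b, (r2 z w _ b (r1 z a)).symm⟩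
  have hT1 : (T 1) ^ M = ⊥ := by
    have e : T 1 = Submodule.span K {b | ∃ a, Tx y l (1 : K) a = b} := by
      rw [← Submodule.span_eq (T 1)]
      refine congrArg _ (Set.ext fun b => ?_)
      show b ∈ T 1 ↔ _
      rw [hT, map_one]
      rfl
    rw [e, eq_bot_iff]
    refine (nil_span_pow {b | ∃ a, Tx y l (1 : K) a = b} ⟨Tx y l (1 : K) 0, 0, rfl⟩ M).trans ?_
    rw [Submodule.span_le]
    rintro p ⟨f, hf, rfl⟩
    choose a ha using hf
    have := hM a
    simp only [ha] at this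
    show _ ∈ (⊥ : Submodule K A)
    rw [Submodule.mem_bot]
    exact this
  -- products of twisted traces
  let W : X → Submodule K A := fun z => if z = 1 then 1 else T z
  have hW : ∀ z w, W z * T w ≤ T (z * w) := by
    intro z w
    by_cases h : z = 1
    · simp only [W, h, if_true, one_mul]
      exact le_rfl
    · simp only [W, h, if_false]
      exact hTT z w
  have key : ∀ (x : ℕ → X) (t : ℕ → A), (∀ i, t i ∈ T (x i)) → ∀ i v,
      1 ≤ ((Finset.range (i + 1)).filter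
        (fun j => ((List.range j).map x).prod = v)).card →
      ((List.range i).map t).prod ∈ (⊤ : Submodule K A) *
        (T 1) ^ (((Finset.range (i + 1)).filter
          (fun j => ((List.range j).map x).prod = v)).card - 1) *
        W (v⁻¹ * ((List.range i).map x).prod) := by
    intro x t ht i
    induction i with
    | zero =>
      intro v hv
      have h1 : (Finset.range (0 + 1)).filter
          (fun j => ((List.range j).map x).prod = v) = {0} := by
        apply Finset.Subset.antisymm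
        · intro j hj
          rw [Finset.mem_filter, Finset.mem_range] at hj
          rw [Finset.mem_singleton]
          omega
        · obtain ⟨j, hj⟩ := Finset.card_pos.1 hv
          intro k hk
          rw [Finset.mem_singleton] at hk
          have h2 := Finset.mem_filter.1 hj
          have h3 : j = 0 := by
            have := Finset.mem_range.1 h2.1
            omega
          rw [hk]
          rw [h3] at hj
          exact hj
      have h2 : ((List.range 0).map x).prod = v := by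
        have : (0 : ℕ) ∈ (Finset.range (0 + 1)).filter
          (fun j => ((List.range j).map x).prod = v) := by rw [h1]; exact Finset.mem_singleton_self 0
        exact (Finset.mem_filter.1 this).2
      rw [h1, Finset.card_singleton, Nat.sub_self, pow_zero, mul_one, h2, inv_mul_cancel]
      simp only [W, if_true, mul_one]
      exact Submodule.mem_top
    | succ i ih =>
      intro v hv
      have hp : ((List.range (i + 1)).map t).prod = ((List.range i).map t).prod * t i := by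
        rw [List.range_succ, List.map_append, List.prod_append]; simp
      have hx : ((List.range (i + 1)).map x).prod = ((List.range i).map x).prod * x i := by
        rw [List.range_succ, List.map_append, List.prod_append]; simp
      have hf : (Finset.range (i + 1 + 1)).filter
          (fun j => ((List.range j).map x).prod = v) =
          if ((List.range (i + 1)).map x).prod = v then
            insert (i + 1) ((Finset.range (i + 1)).filter
              (fun j => ((List.range j).map x).prod = v))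
          else (Finset.range (i + 1)).filter (fun j => ((List.range j).map x).prod = v) := by
        rw [Finset.range_add_one (n := i + 1), Finset.filter_insert]
      have hni : (i + 1) ∉ (Finset.range (i + 1)).filter
          (fun j => ((List.range j).map x).prod = v) := by
        intro h
        have := Finset.mem_range.1 (Finset.mem_filter.1 h).1
        omega
      by_cases hg : ((List.range (i + 1)).map x).prod = v
      · rw [if_pos hg] at hf
        rw [hf, Finset.card_insert_of_notMem hni, Nat.add_sub_cancel, hg, inv_mul_cancel]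
        have hW1 : W 1 = 1 := by simp only [W, if_true]
        rw [hW1, mul_one]
        by_cases h0 : ((Finset.range (i + 1)).filter
          (fun j => ((List.range j).map x).prod = v)).card = 0
        · rw [h0, pow_zero, mul_one]
          exact Submodule.mem_top
        · have h1 := ih v (Nat.one_le_iff_ne_zero.2 h0)
          obtain ⟨k, hk⟩ := Nat.exists_eq_succ_of_ne_zero h0
          rw [hk] at h1 ⊢
          rw [Nat.succ_sub_one] at h1
          rw [Nat.succ_eq_add_one, pow_succ, ← mul_assoc, hp]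
          have h2 := Submodule.mul_mem_mul h1 (ht i)
          rw [mul_assoc (⊤ * T 1 ^ k)] at h2
          refine nil_mono ?_ h2
          refine (hW _ _).trans ?_
          rw [mul_assoc, ← hx, hg, inv_mul_cancel]
      · rw [if_neg hg] at hf
        rw [hf] at hv ⊢
        have h1 := ih v hv
        rw [hp]
        have h2 := Submodule.mul_mem_mul h1 (ht i)
        rw [mul_assoc (⊤ * T 1 ^ _)] at h2
        refine nil_mono ?_ h2
        refine (hW _ _).trans ?_
        rw [mul_assoc, ← hx]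
        have h3 : v⁻¹ * ((List.range (i + 1)).map x).prod ≠ 1 := by
          intro h
          exact hg (inv_mul_eq_one.1 h).symm
        simp only [W, h3, if_false]
        exact le_rfl
  -- the powers of the ideal of the twisted traces
  let TT : Submodule K A := Submodule.span K {b | ∃ x a, Tx y l (χ x) a = b}
  have hTTP : TT ^ (Fintype.card X * M) = ⊥ := by
    rw [eq_bot_iff]
    refine (nil_span_pow {b | ∃ x a, Tx y l (χ x) a = b} ⟨Tx y l (χ 1) 0, 1, 0, rfl⟩ _).trans ?_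
    rw [Submodule.span_le]
    rintro p ⟨f, hf, rfl⟩
    choose x a ha using hf
    have hk := key x f (fun i => ⟨a i, ha i⟩) (Fintype.card X * M)
    have hpig := Finset.exists_lt_card_fiber_of_mul_lt_card_of_maps_to
      (s := Finset.range (Fintype.card X * M + 1)) (t := (Finset.univ : Finset X))
      (f := fun j => ((List.range j).map x).prod) (n := M) (fun _ _ => Finset.mem_univ _)
      (by rw [Finset.card_range, Finset.card_univ]; omega)
    obtain ⟨v, -, hv⟩ := hpig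
    have h1 := hk v (by omega)
    have h2 : (T 1) ^ (((Finset.range (Fintype.card X * M + 1)).filter
          (fun j => ((List.range j).map x).prod = v)).card - 1) = ⊥ := by
      obtain ⟨k, hk'⟩ : ∃ k, ((Finset.range (Fintype.card X * M + 1)).filter
          (fun j => ((List.range j).map x).prod = v)).card - 1 = M + k :=
        ⟨_, (Nat.add_sub_of_le (by omega)).symm⟩
      rw [hk', pow_add, hT1, Submodule.bot_mul]
    rw [h2, Submodule.mul_bot, Submodule.bot_mul] at h1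
    exact h1
  -- the elements `y n`
  let YN : ℕ → Submodule K A := fun k => Submodule.span K {b | ∃ x, ∃ n ∈ Nx y χ x, b = y ^ k * n}
  have hYY : ∀ k, YN k * YN 1 ≤ YN (k + 1) := by
    intro k
    simp only [YN]
    rw [Submodule.span_mul_span, Submodule.span_le]
    rintro p ⟨b, ⟨x, n, hn, rfl⟩, c, ⟨x', n', hn', rfl⟩, rfl⟩
    show y ^ k * n * (y ^ 1 * n') ∈ Submodule.span K _
    have h1 := (r5 x n hn).2.2 1
    have hu : χ x * χ x⁻¹ = 1 := by rw [← map_mul, mul_inv_cancel, map_one]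
    have h2 : n * y = χ x⁻¹ • (y * n) := by
      rw [pow_one, pow_one] at h1
      rw [h1, smul_smul, mul_comm, hu, one_smul]
    have h3 : y ^ k * n * (y ^ 1 * n') = χ x⁻¹ • (y ^ (k + 1) * (n * n')) := by
      rw [pow_one]
      calc y ^ k * n * (y * n') = y ^ k * (n * y) * n' := by simp only [mul_assoc]
        _ = y ^ k * (χ x⁻¹ • (y * n)) * n' := by rw [h2]
        _ = χ x⁻¹ • (y ^ (k + 1) * (n * n')) := by
          rw [mul_smul_comm, smul_mul_assoc, pow_succ]
          simp only [mul_assoc]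
    rw [h3]
    exact Submodule.smul_mem _ _ (Submodule.subset_span ⟨x * x', n * n', Nx_mul hn hn', rfl⟩)
  have hTX : ∀ x a x' n, n ∈ Nx y χ x' → Tx y l (χ x) a * n ∈ TT ∧ n * Tx y l (χ x) a ∈ TT := by
    intro x a x' n hn
    constructor
    · rw [r3 x' x n a hn]
      exact Submodule.subset_span ⟨_, _, rfl⟩
    · rw [r2 x' x n a hn]
      exact Submodule.subset_span ⟨_, _, rfl⟩
  have hyN : ∀ k x n, n ∈ Nx y χ x → y ^ k * n ∈ Nx y χ x := by
    intro k
    induction k with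
    | zero => intro x n hn; rw [pow_zero, one_mul]; exact hn
    | succ k ih => intro x n hn; rw [pow_succ, mul_assoc]; exact ih x _ (r5 x n hn).1
  have hTY : ∀ k, TT * YN k ≤ TT := by
    intro k
    simp only [TT, YN]
    rw [Submodule.span_mul_span, Submodule.span_le]
    rintro p ⟨b, ⟨x, a, rfl⟩, c, ⟨x', n', hn', rfl⟩, rfl⟩
    exact (hTX x a x' _ (hyN k x' n' hn')).1
  have hYT : ∀ k, YN k * TT ≤ TT := by
    intro k
    simp only [TT, YN]
    rw [Submodule.span_mul_span, Submodule.span_le]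
    rintro p ⟨c, ⟨x', n', hn', rfl⟩, b, ⟨x, a, rfl⟩, rfl⟩
    exact (hTX x a x' _ (hyN k x' n' hn')).2
  have hTTT : TT * TT ≤ TT := by
    simp only [TT]
    rw [Submodule.span_mul_span, Submodule.span_le]
    rintro p ⟨c, ⟨x', a', rfl⟩, b, ⟨x, a, rfl⟩, rfl⟩
    exact (hTX x a x' _ (r1 x' a')).2
  let JJ : Submodule K A := TT ⊔ YN 1
  have hJk : ∀ k, JJ ^ k ≤ TT ⊔ YN k := by
    intro k
    induction k with
    | zero =>
      rw [pow_zero]
      refine le_trans ?_ le_sup_right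
      rw [Submodule.one_eq_span, Submodule.span_le]
      rintro x hx
      rw [Set.mem_singleton_iff] at hx
      rw [hx]
      exact Submodule.subset_span ⟨1, 1, Nx_one y χ, by rw [pow_zero, one_mul]⟩
    | succ k ih =>
      rw [pow_succ]
      refine (mul_le_mul' ih le_rfl).trans ?_
      show (TT ⊔ YN k) * (TT ⊔ YN 1) ≤ _
      rw [Submodule.sup_mul, Submodule.mul_sup, Submodule.mul_sup]
      refine sup_le (sup_le (hTTT.trans le_sup_left) ((hTY 1).trans le_sup_left))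
        (sup_le ((hYT k).trans le_sup_left) ((hYY k).trans le_sup_right))
  have hYl : YN l = ⊥ := by
    rw [eq_bot_iff, Submodule.span_le]
    rintro p ⟨x, n, hn, rfl⟩
    show _ ∈ (⊥ : Submodule K A)
    rw [hy, zero_mul]
    exact Submodule.zero_mem _
  have hJl : JJ ^ l ≤ TT := by
    have := hJk l
    rwa [hYl, sup_bot_eq] at this
  have hJP : JJ ^ (l * (Fintype.card X * M)) = ⊥ := by
    rw [eq_bot_iff, pow_mul]
    refine (pow_le_pow_left' hJl _).trans ?_
    rw [hTTP]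
  have hJx : ∀ x b, b ∈ Jx y l χ x → b ∈ JJ := by
    intro x b hb
    obtain ⟨a, n, hn, rfl⟩ := (a3 x b).1 hb
    refine Submodule.add_mem _ ?_ ?_
    · exact Submodule.mem_sup_left (Submodule.subset_span ⟨x, a, rfl⟩)
    · refine Submodule.mem_sup_right (Submodule.subset_span ⟨x, n, hn, ?_⟩)
      rw [pow_one]
  refine ⟨l * (Fintype.card X * M), ?_⟩
  rw [eq_bot_iff, ← hJP, JP, Submodule.span_le]
  rintro p ⟨f, hf, rfl⟩
  show _ ∈ JJ ^ _
  generalize l * (Fintype.card X * M) = n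
  induction n with
  | zero => simp only [List.range_zero, List.map_nil, List.prod_nil, pow_zero]; exact Submodule.one_le.1 le_rfl
  | succ n ih =>
    rw [List.range_succ, List.map_append, List.prod_append, pow_succ]
    refine Submodule.mul_mem_mul ih ?_
    simp only [List.map_cons, List.map_nil, List.prod_cons, List.prod_nil, mul_one]
    obtain ⟨x, hx⟩ := hf n
    exact hJx x _ hx

end Pool.Agent.PFE.H47
end
end -- Pool.Agent.Helper47_PFE.NIL

section -- Pool.Agent.Helper70_PFE.KTT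

/-!
Squad PFE, part E1, row KTT (helper70): transitivity of the trace.
Adapted from row TTR of squad PFD (helper46).
-/

set_option autoImplicit false

open scoped BigOperators

noncomputable section

namespace Pool.Agent.PFE.H70

open Pool.Agent.PFC.B1 (FS Split CasStmt)
open Pool.Agent.PFE Pool.Agent.PFD

section field

variable {K B A I J N : Type} [Field K] [Ring B] [Algebra K B] [Ring A] [Algebra K A]
    [Fintype I] [Fintype J] [Fintype N]

/-- the bilinear map `(u, v) ↦ f u * a * g v` -/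
def sandB {C : Type} [Ring C] [Algebra K C] (f : C →ₗ[K] A) (a : A) : C →ₗ[K] C →ₗ[K] A :=
  LinearMap.mk₂ K (fun u v => f u * a * f v)
    (fun u u' v => by rw [map_add, add_mul, add_mul])
    (fun r u v => by rw [map_smul, smul_mul_assoc, smul_mul_assoc])
    (fun u v v' => by rw [map_add, mul_add])
    (fun r u v => by rw [map_smul, mul_smul_comm])

theorem sandB_apply {C : Type} [Ring C] [Algebra K C] (f : C →ₗ[K] A) (a : A) (u v : C) :
    sandB f a u v = f u * a * f v := rfl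

theorem dual_fam (D : KM K B A I J N) (z : A) :
    ∑ k, ∑ i, D.d.lam (D.sp.j (D.c.b' i) * D.s.y k * z) • (D.s.x k * D.sp.j (D.c.b i)) = z := by
  conv_rhs => rw [← D.s.e1 z]
  refine Finset.sum_congr rfl fun k _ => ?_
  have h1 := D.c.h1 (D.sp.pr (D.s.y k * z))
  conv_rhs => rw [← h1]
  rw [map_sum, Finset.mul_sum]
  refine Finset.sum_congr rfl fun i _ => ?_
  rw [map_smul, mul_smul_comm, D.ort, mul_assoc, D.sp.pr_l]

theorem rt_TB (D : KM K B A I J N) (a : A) : D.s.rt (D.TB a) = D.TA a := by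
  have h1 : D.TA a = ∑ p, ∑ k, ∑ i,
      (D.d.lam (D.sp.j (D.c.b' i) * D.s.y k * D.d.b p) • (D.s.x k * D.sp.j (D.c.b i))) * a *
        D.d.b' p := by
    unfold KM.TA
    refine Finset.sum_congr rfl fun p _ => ?_
    conv_lhs => rw [← dual_fam D (D.d.b p)]
    rw [Finset.sum_mul, Finset.sum_mul]
    refine Finset.sum_congr rfl fun k _ => ?_
    rw [Finset.sum_mul, Finset.sum_mul]
  rw [h1, Finset.sum_comm]
  unfold RF.rt KM.TB
  refine Finset.sum_congr rfl fun k _ => ?_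
  rw [Finset.sum_comm, Finset.mul_sum, Finset.sum_mul]
  refine Finset.sum_congr rfl fun i _ => ?_
  have h2 := D.d.h2 (D.sp.j (D.c.b' i) * D.s.y k)
  have h3 : D.s.x k * (D.sp.j (D.c.b i) * a * D.sp.j (D.c.b' i)) * D.s.y k =
      D.s.x k * D.sp.j (D.c.b i) * a * (D.sp.j (D.c.b' i) * D.s.y k) := by
    simp only [mul_assoc]
  rw [h3]
  conv_lhs => rw [← h2]
  rw [Finset.mul_sum]
  refine Finset.sum_congr rfl fun p _ => ?_
  rw [mul_smul_comm, smul_mul_assoc, smul_mul_assoc]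

end field

theorem ktt : KttStmt := by
  have cas : CasStmt := Pool.Agent.PFC.B1.H25CNV.cas
  intro K B A I J N _ _ _ _ _ _ _ _ D
  refine ⟨rt_TB D, ?_, ?_, ?_, ?_⟩
  · intro a b
    have h1 := cas K B I A D.c (sandB D.sp.j.toLinearMap a) b
    simp only [sandB_apply, AlgHom.toLinearMap_apply, map_mul] at h1
    unfold KM.TB
    rw [Finset.mul_sum, Finset.sum_mul]
    have h2 : ∀ i, D.sp.j b * (D.sp.j (D.c.b i) * a * D.sp.j (D.c.b' i)) =
        D.sp.j b * D.sp.j (D.c.b i) * a * D.sp.j (D.c.b' i) := by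
      intro i
      simp only [mul_assoc]
    have h3 : ∀ i, D.sp.j (D.c.b i) * a * D.sp.j (D.c.b' i) * D.sp.j b =
        D.sp.j (D.c.b i) * a * (D.sp.j (D.c.b' i) * D.sp.j b) := by
      intro i
      simp only [mul_assoc]
    simp only [h2, h3]
    exact h1
  · intro a z hz
    unfold KM.TB
    constructor
    · rw [Finset.mul_sum]
      refine Finset.sum_congr rfl fun i _ => ?_
      rw [← mul_assoc, ← mul_assoc, ← hz, mul_assoc (D.sp.j (D.c.b i)) z a]
    · rw [Finset.sum_mul]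
      refine Finset.sum_congr rfl fun i _ => ?_
      rw [mul_assoc, hz]
      simp only [mul_assoc]
  · intro a z hz
    unfold KM.TA
    rw [Finset.mul_sum]
    refine Finset.sum_congr rfl fun p _ => ?_
    rw [← mul_assoc, ← mul_assoc, ← hz, mul_assoc (D.d.b p) z a]
  · intro a z
    have h1 := cas K A J A D.d (sandB LinearMap.id a) z
    simp only [sandB_apply, LinearMap.id_apply] at h1
    unfold KM.TA
    rw [Finset.mul_sum, Finset.sum_mul]
    have h2 : ∀ i, z * (D.d.b i * a * D.d.b' i) = z * D.d.b i * a * D.d.b' i := by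
      intro i
      simp only [mul_assoc]
    have h3 : ∀ i, D.d.b i * a * D.d.b' i * z = D.d.b i * a * (D.d.b' i * z) := by
      intro i
      simp only [mul_assoc]
    simp only [h2, h3]
    exact h1

end Pool.Agent.PFE.H70
end
end -- Pool.Agent.Helper70_PFE.KTT

section -- Pool.Agent.Helper79_PFE.CRN

/-!
# Squad PFE, part E1, row CRN: reduction to the corner `f A f` (helper79)
-/

set_option autoImplicit false

open scoped BigOperators

noncomputable section

namespace Pool.Agent.PFE.H79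

open Pool.Agent.PFC.B1 (FS Split)

section corner

variable {K A : Type} [Field K] [Ring A] [Algebra K A]

/-- the corner `j A j` as a subspace -/
def crn (K : Type) {A : Type} [Field K] [Ring A] [Algebra K A] (j : A) : Submodule K A where
  carrier := {a | j * a = a ∧ a * j = a}
  add_mem' := by
    rintro a b ⟨h1, h2⟩ ⟨h3, h4⟩
    exact ⟨by rw [mul_add, h1, h3], by rw [add_mul, h2, h4]⟩
  zero_mem' := ⟨mul_zero _, zero_mul _⟩
  smul_mem' := by
    rintro c a ⟨h1, h2⟩
    exact ⟨by rw [mul_smul_comm, h1], by rw [smul_mul_assoc, h2]⟩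

theorem crn_mul {j a b : A} (ha : a ∈ crn K j) (hb : b ∈ crn K j) : a * b ∈ crn K j :=
  ⟨by rw [← mul_assoc, ha.1], by rw [mul_assoc, hb.2]⟩

/-- the ring structure of the corner -/
@[reducible] def crnRing (j : A) (hj : j * j = j) : Ring (crn K j) :=
  { (inferInstance : AddCommGroup (crn K j)) with
    mul := fun a b => ⟨a.1 * b.1, crn_mul a.2 b.2⟩
    one := ⟨j, hj, hj⟩
    mul_assoc := fun a b c => Subtype.ext (mul_assoc a.1 b.1 c.1)
    one_mul := fun a => Subtype.ext a.2.1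
    mul_one := fun a => Subtype.ext a.2.2
    left_distrib := fun a b c => Subtype.ext (mul_add a.1 b.1 c.1)
    right_distrib := fun a b c => Subtype.ext (add_mul a.1 b.1 c.1)
    zero_mul := fun a => Subtype.ext (zero_mul a.1)
    mul_zero := fun a => Subtype.ext (mul_zero a.1) }

/-- The corner with its inclusion `κ` and the compression `pr`. -/
structure Cn (K A A' : Type) [Field K] [Ring A] [Algebra K A] [Ring A'] [Algebra K A'] (f : A)
    (κ : A' →ₗ[K] A) (pr : A →ₗ[K] A') : Prop where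
  ff : f * f = f
  inj : Function.Injective κ
  mul : ∀ a b, κ (a * b) = κ a * κ b
  one : κ 1 = f
  kp : ∀ a, κ (pr a) = f * a * f
  pk : ∀ a, pr (κ a) = a

theorem ex_cn (f : A) (hf : f * f = f) : ∃ (A' : Type) (_ : Ring A') (_ : Algebra K A')
    (κ : A' →ₗ[K] A) (pr : A →ₗ[K] A'), Cn K A A' f κ pr := by
  letI := crnRing (K := K) f hf
  letI : Algebra K (crn K f) := Algebra.ofModule
    (fun r x y => Subtype.ext (smul_mul_assoc r x.1 y.1))
    (fun r x y => Subtype.ext (mul_smul_comm r x.1 y.1))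
  have hm : ∀ a, f * a * f ∈ crn K f := by
    intro a
    exact ⟨by rw [← mul_assoc, ← mul_assoc, hf], by rw [mul_assoc, hf]⟩
  let pr : A →ₗ[K] crn K f :=
    { toFun := fun a => ⟨f * a * f, hm a⟩
      map_add' := fun a b => Subtype.ext (by
        change f * (a + b) * f = f * a * f + f * b * f
        rw [mul_add, add_mul])
      map_smul' := fun r a => Subtype.ext (by
        change f * (r • a) * f = r • (f * a * f)
        rw [mul_smul_comm, smul_mul_assoc]) }
  refine ⟨crn K f, inferInstance, inferInstance, (crn K f).subtype, pr, hf,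
    Subtype.coe_injective, fun a b => rfl, rfl, fun a => rfl, fun a => Subtype.ext ?_⟩
  change f * a.1 * f = a.1
  rw [a.2.1, a.2.2]

variable {A' : Type} [Ring A'] [Algebra K A'] {f : A} {κ : A' →ₗ[K] A} {pr : A →ₗ[K] A'}

theorem Cn.fl (h : Cn K A A' f κ pr) (a : A') : f * κ a = κ a := by
  rw [← h.one, ← h.mul, one_mul]

theorem Cn.fr (h : Cn K A A' f κ pr) (a : A') : κ a * f = κ a := by
  rw [← h.one, ← h.mul, mul_one]

theorem Cn.pf (h : Cn K A A' f κ pr) {y : A} (hy : y * f = f * y) :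
    κ (pr y) = y * f := by
  rw [h.kp, ← hy, mul_assoc, h.ff]

theorem Cn.yl (h : Cn K A A' f κ pr) {y : A} (hy : y * f = f * y) (a : A') :
    κ (pr y * a) = y * κ a := by
  rw [h.mul, h.pf hy, mul_assoc, h.fl]

theorem Cn.yr (h : Cn K A A' f κ pr) {y : A} (hy : y * f = f * y) (a : A') :
    κ (a * pr y) = κ a * y := by
  rw [h.mul, h.pf hy, hy, ← mul_assoc, h.fr]

theorem Cn.yln (h : Cn K A A' f κ pr) {y : A} (hy : y * f = f * y) (n : ℕ) (a : A') :
    κ (pr y ^ n * a) = y ^ n * κ a := by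
  induction n with
  | zero => rw [pow_zero, pow_zero, one_mul, one_mul]
  | succ n ih => rw [pow_succ', pow_succ', mul_assoc, h.yl hy, ih, mul_assoc]

theorem Cn.yrn (h : Cn K A A' f κ pr) {y : A} (hy : y * f = f * y) (n : ℕ) (a : A') :
    κ (a * pr y ^ n) = κ a * y ^ n := by
  induction n with
  | zero => rw [pow_zero, pow_zero, mul_one, mul_one]
  | succ n ih => rw [pow_succ, pow_succ, ← mul_assoc, h.yr hy, ih, mul_assoc]

theorem yn {y : A} (hy : y * f = f * y) (n : ℕ) : y ^ n * f = f * y ^ n := by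
  have h : Commute y f := hy
  exact (h.pow_left n).eq

theorem Cn.Tx (h : Cn K A A' f κ pr) {y : A} (hy : y * f = f * y) (l : ℕ) (c : K) (a : A') :
    κ (Tx (pr y) l c a) = Tx y l c (κ a) := by
  unfold Pool.Agent.PFE.Tx
  rw [map_sum]
  refine Finset.sum_congr rfl fun j _ => ?_
  rw [map_smul, mul_assoc, h.yln hy, h.yrn hy, mul_assoc]

theorem Cn.nx (h : Cn K A A' f κ pr) {X : Type} [Group X] {y : A} (hy : y * f = f * y)
    (χ : X →* K) (x : X) (a : A') : a ∈ Nx (pr y) χ x ↔ κ a ∈ Nx y χ x := by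
  have h1 : a ∈ Nx (pr y) χ x ↔ pr y * a = χ x • (a * pr y) := Iff.rfl
  have h2 : κ a ∈ Nx y χ x ↔ y * κ a = χ x • (κ a * y) := Iff.rfl
  rw [h1, h2, ← h.yl hy, ← h.yr hy, ← map_smul]
  exact ⟨fun h3 => by rw [h3], fun h3 => h.inj h3⟩

end corner

section main

variable {K A X S J Ω Ω' : Type} [Field K] [Ring A] [Algebra K A] [Group X]
  [Fintype X] [Ring S] [Algebra K S] [Fintype J] [Fintype Ω] [Fintype Ω'] {y : A} {l : ℕ}
  {χ : X →* K} {A' : Type} [Ring A'] [Algebra K A'] {f : A} {κ : A' →ₗ[K] A} {pr : A →ₗ[K] A'}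

/-- compressing a product with an element of the corner under a trace form -/
theorem lam_cmp (lam : A →ₗ[K] K) (ds : ∀ a b, lam (a * b) = lam (b * a))
    (h : Cn K A A' f κ pr) (g : A) (a : A') : lam (κ (pr g * a)) = lam (g * κ a) := by
  rw [h.mul, h.kp, mul_assoc, h.fl, mul_assoc, ds, mul_assoc, h.fr]

theorem lam_cmp' (lam : A →ₗ[K] K) (ds : ∀ a b, lam (a * b) = lam (b * a))
    (h : Cn K A A' f κ pr) (g : A) (a : A') : lam (κ (a * pr g)) = lam (κ a * g) := by
  rw [h.mul, h.kp, ← mul_assoc, ← mul_assoc, h.fr, ds, ← mul_assoc, h.fl]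

/-- the Frobenius system of the corner -/
def dC (D : Yk K A X J Ω Ω' y l χ) (h : Cn K A A' f κ pr) : FS K A' J where
  lam := D.d.lam.comp κ
  b := fun p => pr (D.d.b p)
  b' := fun p => pr (D.d.b' p)
  h1 := by
    intro x
    apply h.inj
    rw [map_sum]
    have h1 := congrArg (fun z => f * z * f) (D.d.h1 (κ x))
    rw [h.fl, h.fr, Finset.mul_sum, Finset.sum_mul] at h1
    rw [← h1]
    refine Finset.sum_congr rfl fun p _ => ?_
    rw [map_smul, h.kp, LinearMap.comp_apply, lam_cmp _ D.ds h, mul_smul_comm, smul_mul_assoc]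
  h2 := by
    intro x
    apply h.inj
    rw [map_sum]
    have h1 := congrArg (fun z => f * z * f) (D.d.h2 (κ x))
    rw [h.fl, h.fr, Finset.mul_sum, Finset.sum_mul] at h1
    rw [← h1]
    refine Finset.sum_congr rfl fun p _ => ?_
    rw [map_smul, h.kp, LinearMap.comp_apply, lam_cmp' _ D.ds h, mul_smul_comm, smul_mul_assoc]

theorem ypr (h : Cn K A A' f κ pr) (hy : y * f = f * y) (n : ℕ) (g : A) :
    κ (pr y ^ n * pr g) = f * (y ^ n * g) * f := by
  rw [h.yln hy, h.kp, ← mul_assoc, ← mul_assoc, yn hy, mul_assoc f]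

theorem pry (h : Cn K A A' f κ pr) (hy : y * f = f * y) (n : ℕ) (g : A) :
    κ (pr g * pr y ^ n) = f * (g * y ^ n) * f := by
  rw [h.yrn hy, h.kp, mul_assoc, ← yn hy, mul_assoc, mul_assoc, mul_assoc]

/-- the frame of the corner -/
def ydC (D : Yk K A X J Ω Ω' y l χ) (h : Cn K A A' f κ pr) (hy : y * f = f * y) :
    Yd K A' X J Ω Ω' (pr y) l χ where
  hl := D.hl
  χl := D.χl
  χu := D.χu
  yl := by
    apply h.inj
    have h1 := h.yln hy l 1
    rw [mul_one, D.yl, zero_mul] at h1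
    rw [h1, map_zero]
  d := dC D h
  ds := by
    intro a b
    change D.d.lam (κ (a * b)) = D.d.lam (κ (b * a))
    rw [h.mul, h.mul, D.ds]
  deg := D.deg
  g := fun o => pr (D.g o)
  g' := fun o => pr (D.g' o)
  gy := by
    intro o
    apply h.inj
    have h1 := ypr h hy 1 (D.g o)
    have h2 := pry h hy 1 (D.g o)
    rw [pow_one, pow_one] at h1 h2
    rw [map_smul, h1, h2, D.gy, mul_smul_comm, smul_mul_assoc]
  g'y := by
    intro o
    apply h.inj
    have h1 := ypr h hy 1 (D.g' o)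
    have h2 := pry h hy 1 (D.g' o)
    rw [pow_one, pow_one] at h1 h2
    rw [map_smul, h1, h2, D.g'y, mul_smul_comm, smul_mul_assoc]
  h := fun o => pr (D.h o)
  h' := fun o => pr (D.h' o)
  fr := by
    intro a
    apply h.inj
    have h1 := congrArg (fun z => f * z * f) (D.fr (κ a))
    rw [h.fl, h.fr, mul_add, add_mul, Finset.mul_sum, Finset.mul_sum, Finset.sum_mul,
      Finset.sum_mul] at h1
    rw [← h1, map_add, map_sum, map_sum]
    congr 1
    · refine Finset.sum_congr rfl fun o _ => ?_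
      rw [map_sum, Finset.mul_sum, Finset.sum_mul]
      refine Finset.sum_congr rfl fun i _ => ?_
      rw [map_smul, ypr h hy, mul_smul_comm, smul_mul_assoc]
      congr 1
      change D.d.lam (κ (pr (D.g' o) * pr y ^ (l - 1 - i) * a)) = _
      rw [mul_assoc, lam_cmp _ D.ds h, h.yln hy, mul_assoc]
    · refine Finset.sum_congr rfl fun o _ => ?_
      rw [map_sum, Finset.mul_sum, Finset.sum_mul]
      refine Finset.sum_congr rfl fun i _ => ?_
      rw [map_sum, Finset.mul_sum, Finset.sum_mul]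
      refine Finset.sum_congr rfl fun k _ => ?_
      rw [map_smul, mul_smul_comm, smul_mul_assoc]
      congr 1
      · change D.d.lam (κ (pr (D.h' o) * (pr y ^ (l - 1 - i) * a * pr y ^ (l - 1 - k)))) = _
        rw [lam_cmp _ D.ds h, h.yrn hy, h.yln hy]
      · rw [h.yrn hy, ypr h hy, mul_assoc _ f, ← yn hy]
        simp only [mul_assoc]

theorem e_C (D : Yk K A X J Ω Ω' y l χ) (h : Cn K A A' f κ pr) (hy : y * f = f * y)
    (r : Ω ⊕ (Ω' × Fin l)) : κ ((ydC D h hy).e r) = f * D.e r * f := by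
  rcases r with o | p
  · exact h.kp _
  · exact ypr h hy _ _

theorem e'_C (D : Yk K A X J Ω Ω' y l χ) (h : Cn K A A' f κ pr) (hy : y * f = f * y)
    (r : Ω ⊕ (Ω' × Fin l)) : κ ((ydC D h hy).e' r) = f * D.e' r * f := by
  rcases r with o | p
  · exact h.kp _
  · exact pry h hy _ _

theorem RT_C (D : Yk K A X J Ω Ω' y l χ) (h : Cn K A A' f κ pr) (hy : y * f = f * y)
    (a : A') : κ ((ydC D h hy).RT a) = f * D.RT (κ a) * f := by
  unfold Yd.RT
  rw [map_sum, Finset.mul_sum, Finset.sum_mul]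
  refine Finset.sum_congr rfl fun r _ => ?_
  rw [h.mul, h.mul, e_C, e'_C]
  calc f * D.e r * f * κ a * (f * D.e' r * f)
      = f * D.e r * (f * κ a) * f * D.e' r * f := by simp only [mul_assoc]
    _ = f * D.e r * (κ a * f) * D.e' r * f := by
        rw [h.fl]
        simp only [mul_assoc]
    _ = f * (D.e r * κ a * D.e' r) * f := by
        rw [h.fr]
        simp only [mul_assoc]

theorem TA_C (D : Yk K A X J Ω Ω' y l χ) (h : Cn K A A' f κ pr) (hy : y * f = f * y)
    (a : A') : κ ((ydC D h hy).TA a) = f * D.TA (κ a) * f := by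
  unfold Yd.TA
  rw [map_sum, Finset.mul_sum, Finset.sum_mul]
  refine Finset.sum_congr rfl fun p _ => ?_
  change κ (pr (D.d.b p) * a * pr (D.d.b' p)) = _
  rw [h.mul, h.mul, h.kp, h.kp]
  calc f * D.d.b p * f * κ a * (f * D.d.b' p * f)
      = f * D.d.b p * (f * κ a) * f * D.d.b' p * f := by simp only [mul_assoc]
    _ = f * D.d.b p * (κ a * f) * D.d.b' p * f := by
        rw [h.fl]
        simp only [mul_assoc]
    _ = f * (D.d.b p * κ a * D.d.b' p) * f := by
        rw [h.fr]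
        simp only [mul_assoc]

end main

theorem crn_ (txr : TxrStmt) (txa : TxaStmt) (rtk : RtkStmt) : CrnStmt := by
  intro K A X S J Ω Ω' _ _ _ _ _ _ _ _ _ _ _ y l χ D L f hff hyf hf1
  obtain ⟨a0, ha0⟩ := hf1
  obtain ⟨A', iR, iA, κ, pr, h⟩ := ex_cn (K := K) f hff
  have hfin : Module.Finite K A' := Module.Finite.of_injective κ h.inj
  have hl1 : 1 ≤ l := by
    have := D.hl
    omega
  obtain ⟨t1, t2, t3, t4, t5, -, -⟩ := txr K A X y l χ hl1 D.yl D.χl
  obtain ⟨x1, x2, x3, x4, x5⟩ := txa K A X y l χ hl1 D.yl D.χl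
  have hyl' : pr y ^ l = 0 := (ydC D h hyf).yl
  obtain ⟨-, -, x3', -, -⟩ := txa K A' X (pr y) l χ hl1 hyl' D.χl
  obtain ⟨-, -, r3, r4, r5, -, -, -⟩ := rtk K A X J Ω Ω' y l χ D.toYd
  have hf1 : f ∈ Nx y χ 1 := by
    show y * f = χ 1 • (f * y)
    rw [map_one, one_smul, hyf]
  have hone : (1 : K) = χ 1 := (map_one χ).symm
  have ha0' : 1 - f = Tx y l (χ 1) a0 := by rw [← hone, ha0]
  -- `n - f n f` is in the ideal
  have hJ : ∀ x, ∀ n ∈ Nx y χ x, ∃ b, n - f * n * f = Tx y l (χ x) b := by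
    intro x n hn
    refine ⟨a0 * n + f * n * a0, ?_⟩
    have h1 : Tx y l (χ x) (a0 * n) = (1 - f) * n := by
      rw [ha0', t3 x 1 n a0 hn, one_mul]
    have hfn : f * n ∈ Nx y χ x := by
      have := Nx_mul hf1 hn
      rwa [one_mul] at this
    have h2 : Tx y l (χ x) (f * n * a0) = f * n * (1 - f) := by
      rw [ha0', t2 x 1 (f * n) a0 hfn, mul_one]
    rw [x1, h1, h2, sub_mul, one_mul, mul_sub, mul_one]
    abel
  have hJ' : ∀ x, ∀ n ∈ Nx y χ x, n - f * n * f ∈ Jx y l χ x := by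
    intro x n hn
    obtain ⟨b, hb⟩ := hJ x n hn
    rw [hb]
    exact Submodule.subset_span (Or.inl ⟨b, rfl⟩)
  have hfnf : ∀ x, ∀ n ∈ Nx y χ x, f * n * f ∈ Nx y χ x := by
    intro x n hn
    have h1 := Nx_mul (Nx_mul hf1 hn) hf1
    rwa [one_mul, mul_one] at h1
  -- `TA` is central
  have hTAc : ∀ a b, b * D.TA a = D.TA a * b := by
    intro a b
    rw [← r5]
    refine r3 _ ?_ b
    have h1 := t1 1 a
    rw [map_one] at h1
    have h2 : y * Tx y l (1 : K) a = χ 1 • (Tx y l (1 : K) a * y) := h1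
    rw [map_one, one_smul] at h2
    exact h2
  -- the separating element
  have hw1 : D.w ∈ Nx y χ 1 := by
    show y * D.w = χ 1 • (D.w * y)
    rw [map_one, one_smul, D.wy]
  obtain ⟨b0, hb0⟩ := hJ 1 D.w hw1
  rw [map_one] at hb0
  have hRTadd : ∀ a b, D.RT (a + b) = D.RT a + D.RT b := by
    intro a b
    unfold Yd.RT
    rw [← Finset.sum_add_distrib]
    refine Finset.sum_congr rfl fun r _ => ?_
    rw [mul_add, add_mul]
  have hRTf : D.RT (f * D.w * f) = 1 - D.TA b0 := by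
    have h1 : D.RT D.w = D.RT (f * D.w * f) + D.RT (Tx y l (1 : K) b0) := by
      rw [← hRTadd, ← hb0]
      congr 1
      abel
    rw [D.rw, r5] at h1
    rw [h1]
    abel
  have hun : IsUnit (1 - D.TA b0) := (D.np b0).isUnit_one_sub
  obtain ⟨ζ, hζ1⟩ := hun.exists_left_inv
  have hζ2 : (1 - D.TA b0) * ζ = 1 := by
    obtain ⟨u, hu⟩ := hun
    rw [← hu] at hζ1 ⊢
    rw [← Units.inv_eq_of_mul_eq_one_left hζ1]
    exact u.mul_inv
  have hζc : ∀ b, ζ * b = b * ζ := by
    intro b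
    have h1 : b * (1 - D.TA b0) = (1 - D.TA b0) * b := by
      rw [mul_sub, sub_mul, mul_one, one_mul, hTAc]
    calc ζ * b = ζ * (b * ((1 - D.TA b0) * ζ)) := by rw [hζ2, mul_one]
      _ = ζ * ((b * (1 - D.TA b0)) * ζ) := by rw [mul_assoc]
      _ = ζ * (1 - D.TA b0) * (b * ζ) := by
          rw [h1]
          simp only [mul_assoc]
      _ = b * ζ := by rw [hζ1, one_mul]
  obtain ⟨w', hw'⟩ : ∃ w', w' = pr (ζ * D.w) := ⟨_, rfl⟩
  have hκw : κ w' = ζ * (f * D.w * f) := by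
    rw [hw', h.kp, ← mul_assoc f, ← hζc f]
    simp only [mul_assoc]
  have hwf1 : f * D.w * f ∈ Nx y χ 1 := hfnf 1 _ hw1
  have hwf2 : y * (f * D.w * f) = f * D.w * f * y := by
    have h1 : y * (f * D.w * f) = χ 1 • (f * D.w * f * y) := hwf1
    rwa [map_one, one_smul] at h1
  refine ⟨A', iR, iA, hfin, κ, pr y,
    { toYd := ydC D h hyf
      w := w'
      wy := ?_
      rw := ?_
      np := ?_ },
    { toGS := L.toGS
      p := fun x =>
        { toFun := fun a => L.p x ⟨κ a, (h.nx hyf χ x a).1 a.2⟩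
          map_add' := ?_
          map_smul' := ?_ }
      pc := ?_
      ps := ?_
      ker := ?_
      one := ?_
      mul := ?_ }, h.inj, h.mul, h.one, ?_, ?_, rfl⟩
  · apply h.inj
    rw [h.yl hyf, h.yr hyf, hκw, ← mul_assoc, ← hζc y, mul_assoc, hwf2]
    simp only [mul_assoc]
  · apply h.inj
    rw [RT_C, hκw, r4 ζ _ hζc, hRTf, hζ1, mul_one, hff, h.one]
  · intro a
    obtain ⟨n, hn⟩ := D.np (κ a)
    refine ⟨n + 1, ?_⟩
    apply h.inj
    have h1 : ∀ m : ℕ, κ ((ydC D h hyf).TA a ^ (m + 1)) = D.TA (κ a) ^ (m + 1) * f := by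
      intro m
      induction m with
      | zero =>
        rw [zero_add, pow_one, pow_one, TA_C, hTAc, mul_assoc, hff]
      | succ m ih =>
        have h2 : f * (f * D.TA (κ a) * f) = D.TA (κ a) * f := by
          rw [← mul_assoc, ← mul_assoc, hff, hTAc, mul_assoc, hff]
        rw [pow_succ, h.mul, ih, TA_C, mul_assoc, h2, ← mul_assoc, ← pow_succ]
    rw [h1, pow_succ, hn, zero_mul, zero_mul, map_zero]
  · intro a b
    rw [← map_add]
    congr 1
    exact Subtype.ext (map_add κ _ _)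
  · intro c a
    rw [RingHom.id_apply, ← map_smul]
    congr 1
    exact Subtype.ext (map_smul κ _ _)
  · intro x a
    exact L.pc x _
  · intro x s
    obtain ⟨n, hn⟩ := L.ps x s
    have h1 : κ (pr n) ∈ Nx y χ x := by
      rw [h.kp]
      exact hfnf x n n.2
    refine ⟨⟨pr n, (h.nx hyf χ x _).2 h1⟩, ?_⟩
    change L.p x ⟨κ (pr n), _⟩ = L.c x s
    rw [← hn, ← sub_eq_zero, ← map_sub, L.ker]
    change κ (pr n) - (n : A) ∈ Jx y l χ x
    rw [h.kp, ← neg_sub]
    exact Submodule.neg_mem _ (hJ' x n n.2)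
  · intro x a
    change L.p x ⟨κ a, _⟩ = 0 ↔ _
    rw [L.ker]
    change κ a ∈ Jx y l χ x ↔ (a : A') ∈ Jx (pr y) l χ x
    rw [x3, x3']
    constructor
    · rintro ⟨b, n, hn, hb⟩
      refine ⟨pr b, pr n, ?_, ?_⟩
      · rw [h.nx hyf, h.kp]
        exact hfnf x n hn
      · apply h.inj
        rw [map_add, h.Tx hyf, h.yl hyf, h.kp, h.kp]
        have h1 : f * Tx y l (χ x) b = Tx y l (χ x) (f * b) := by
          rw [t2 1 x f b hf1, one_mul]
        have h2 : Tx y l (χ x) (f * b) * f = Tx y l (χ x) (f * b * f) := by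
          rw [t3 1 x f (f * b) hf1, mul_one]
        rw [← h2, ← h1]
        have h3 := congrArg (fun z => f * z * f) hb
        rw [h.fl, h.fr] at h3
        rw [h3, mul_add, add_mul, ← mul_assoc f y, ← hyf]
        simp only [mul_assoc]
    · rintro ⟨b, n, hn, hb⟩
      refine ⟨κ b, κ n, (h.nx hyf χ x n).1 hn, ?_⟩
      rw [hb, map_add, h.Tx hyf, h.yl hyf]
  · change L.p 1 ⟨κ 1, _⟩ = 1
    rw [← L.one, ← sub_eq_zero, ← map_sub, L.ker]
    change κ 1 - (1 : A) ∈ Jx y l χ 1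
    rw [h.one, ← neg_sub]
    refine Submodule.neg_mem _ ?_
    rw [ha0']
    exact Submodule.subset_span (Or.inl ⟨a0, rfl⟩)
  · intro x x' a b
    change L.p x ⟨κ a, _⟩ * L.p x' ⟨κ b, _⟩ = L.p (x * x') ⟨κ (a * b), _⟩
    rw [L.mul]
    congr 1
    exact Subtype.ext (h.mul _ _).symm
  · intro a ha
    exact ⟨pr a, by rw [h.kp, ha]⟩
  · exact h.pf hyf

end Pool.Agent.PFE.H79
end
end -- Pool.Agent.Helper79_PFE.CRN
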