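import Pool.Agent.Helper12_AWB.B022

/-!
# Merged copies (generated) of the modules

* `Pool.Agent.Helper47_PSS.STN`
* `Pool.Agent.Helper24_PSS.STW`
* `Pool.Agent.Helper47_PSS.STT`
* `Pool.Agent.Helper77_PSS.TAU`
* `Pool.Agent.Helper7_PSS.TLF`
* `Pool.Agent.Helper41_PSS.MUB`
* `Pool.Agent.Helper41_PSS.TGT`
* `Pool.Agent.Helper44_PSS.TGW`
* `Pool.Agent.Helper55_PSS.TAW`
* `Pool.Agent.Helper58_PSS.TLW`
* `Pool.Agent.Helper62_PSS.BIA`
-/

set_option autoImplicit false

section -- Pool.Agent.Helper47_PSS.STN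

/-! Squad PSS, rows STN, STT: one step of the deformation without and with target. -/

open scoped BigOperators TensorProduct

noncomputable section

namespace Pool.Agent.PSS.H47

open Pool.Agent.PFD.D2 (Cdv FibG)
open Pool.Agent.PFD.D2b (FrR)
open Finset

/-- the coboundary of the coefficient `N + 1` of a deformation -/
theorem dm_dl {k A W : Type} [CommRing k] [Ring A] [Algebra k A] [Group W] {om : W →* A}
    (D : Dm k om) (N : ℕ) (x y z : A) :
    dl (fun a b => D.m (N + 1) a b) x y z =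
      ∑ p ∈ (antidiagonal (N + 1)).filter (fun p => p.1 ≠ 0 ∧ p.2 ≠ 0),
        (D.m p.1 (D.m p.2 x y) z - D.m p.1 x (D.m p.2 y z)) := by
  have h0 : ∑ p ∈ antidiagonal (N + 1),
      (D.m p.1 (D.m p.2 x y) z - D.m p.1 x (D.m p.2 y z)) = 0 := by
    rw [Finset.sum_sub_distrib, D.ass, sub_self]
  have h1 := Finset.sum_filter_add_sum_filter_not (antidiagonal (N + 1))
    (fun p : ℕ × ℕ => p.1 ≠ 0 ∧ p.2 ≠ 0)
    (fun p => D.m p.1 (D.m p.2 x y) z - D.m p.1 x (D.m p.2 y z))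
  have h2 : (antidiagonal (N + 1)).filter (fun p : ℕ × ℕ => ¬ (p.1 ≠ 0 ∧ p.2 ≠ 0)) =
      {(0, N + 1), (N + 1, 0)} := by
    ext ⟨i, j⟩
    simp only [Finset.mem_filter, Finset.HasAntidiagonal.mem_antidiagonal, Finset.mem_insert,
      Finset.mem_singleton, Prod.mk.injEq]
    omega
  rw [h2, Finset.sum_pair (by simp), h0] at h1
  simp only [D.m0] at h1
  rw [eq_neg_of_add_eq_zero_left h1]
  simp only [dl]
  abel

theorem stn_in_sum {ι A B : Type} [Ring A] [Ring B] (i : A →+* B) (s : Finset ι) (f : ι → B)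
    (h : ∀ p ∈ s, In i (f p)) : In i (∑ p ∈ s, f p) := by
  classical
  induction s using Finset.induction_on with
  | empty => exact ⟨0, by rw [Finset.sum_empty, map_zero]⟩
  | insert p s hp ih =>
    obtain ⟨a, ha⟩ := h p (Finset.mem_insert_self _ _)
    obtain ⟨b, hb⟩ := ih fun q hq => h q (Finset.mem_insert_of_mem hq)
    exact ⟨a + b, by rw [Finset.sum_insert hp, map_add, ha, hb]⟩

theorem stn (TRX : TrxStmt) (TRA : TraStmt) (TRC : TrcStmt) (H2V : H2vStmt) : StnStmt := by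
  intro R K V E A B κ Ω _ _ _ _ _ _ _ _ _ _ _ _ _ _ _ φ W z α lam x y b c C u hV hS hu P m N hT hI
  obtain ⟨⟨D, hD⟩, hW2, hNr⟩ := TRA K V B (ia C.i α) W P m hT
  have hdl : ∀ a₁ a₂ a₃, In C.i (dl (fun a b => m (N + 1) a b) (C.i a₁) (C.i a₂) (C.i a₃)) := by
    intro a₁ a₂ a₃
    have h := dm_dl D N (C.i a₁) (C.i a₂) (C.i a₃)
    rw [hD] at h
    rw [h]
    refine stn_in_sum (C.i : A →+* B) _ _ fun p hp => ?_
    obtain ⟨hp1, hp2, hp3⟩ := Finset.mem_filter.1 hp
    have hp4 := Finset.HasAntidiagonal.mem_antidiagonal.1 hp1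
    obtain ⟨e1, he1⟩ := hI p.2 (by omega) a₁ a₂
    obtain ⟨e2, he2⟩ := hI p.2 (by omega) a₂ a₃
    obtain ⟨e3, he3⟩ := hI p.1 (by omega) e1 a₃
    obtain ⟨e4, he4⟩ := hI p.1 (by omega) a₁ e2
    refine ⟨e3 - e4, ?_⟩
    show C.i (e3 - e4) = _
    rw [map_sub, he3, he4, he1, he2]
  obtain ⟨H, hH1, hH2, hH3⟩ := H2V R K V E A B κ Ω φ W z α lam x y b c C u hV hS hu (m (N + 1))
    (hW2 (N + 1)) (hNr N) hdl
  let P' : ℕ → (B →ₗ[K] B) := fun n => if n = N + 1 then P (N + 1) - H else P n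
  have hP' : ∀ n ≤ N, P' n = P n := by
    intro n hn
    simp only [P']
    rw [if_neg (by omega)]
  have hPN : P' (N + 1) = P (N + 1) - H := by simp only [P', if_true]
  have hP0 : P' 0 = LinearMap.id := by rw [hP' 0 (Nat.zero_le _), hT.p0]
  have hPw : ∀ n, WBl (ia C.i α) W (P' n) := by
    intro n
    by_cases hn : n = N + 1
    · rw [hn, hPN]
      intro w hw a
      rw [LinearMap.sub_apply, LinearMap.sub_apply, LinearMap.sub_apply,
        (hT.pw (N + 1) w hw a).1, (hT.pw (N + 1) w hw a).2, (hH1 w hw a).1, (hH1 w hw a).2,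
        mul_sub, sub_mul]
      exact ⟨rfl, rfl⟩
    · have : P' n = P n := by simp only [P']; rw [if_neg hn]
      rw [this]
      exact hT.pw n
  have hP1 : ∀ n, P' (n + 1) 1 = 0 := by
    intro n
    by_cases hn : n + 1 = N + 1
    · rw [hn, hPN, LinearMap.sub_apply, hT.p1, hH2, sub_zero]
    · have : P' (n + 1) = P (n + 1) := by simp only [P']; rw [if_neg hn]
      rw [this]
      exact hT.p1 n
  obtain ⟨m', hm'⟩ := TRX K V B (ia C.i α) W P' hP0 hPw hP1
  obtain ⟨hc1, hc2⟩ := TRC K V B (ia C.i α) W P P' m m' N hT hm' hP'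
  refine ⟨P', m', hm', hP', fun n hn a₁ a₂ => ?_⟩
  by_cases hnN : n ≤ N
  · rw [hc1 n hnN]
    exact hI n hnN a₁ a₂
  · have hn' : n = N + 1 := by omega
    rw [hn', hc2]
    have : d1 (fun a => P' (N + 1) a - P (N + 1) a) (C.i a₁) (C.i a₂) =
        - d1 H (C.i a₁) (C.i a₂) := by
      simp only [d1, hPN, LinearMap.sub_apply]
      noncomm_ring
    rw [this, ← sub_eq_add_neg]
    exact hH3 a₁ a₂

end Pool.Agent.PSS.H47
end
end -- Pool.Agent.Helper47_PSS.STN

section -- Pool.Agent.Helper24_PSS.STW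

/-! Squad PSS, row STW: one step of the deformation without target. -/

open scoped BigOperators TensorProduct

noncomputable section

namespace Pool.Agent.PSS.H24

open Pool.Agent.PFD.D2 (Cdv FibG)
open Pool.Agent.PFD.D2b (FrR)
open Finset

theorem stw (TRX : TrxStmt) (TRA : TraStmt) (TRC : TrcStmt) (H2W : H2wStmt) : StwStmt := by
  intro R K V E A B κ Ω _ _ _ _ _ _ _ _ _ _ _ _ _ _ _ φ W α lam x y b c C u hV hS hu P m N hT hI hFz
  obtain ⟨⟨D, hD⟩, hW2, hNr⟩ := TRA K V B (ia C.i α) W P m hT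
  have hdl : ∀ a₁ a₂ a₃, In C.i (dl (fun a b => m (N + 1) a b) (C.i a₁) (C.i a₂) (C.i a₃)) := by
    intro a₁ a₂ a₃
    have h := H47.dm_dl D N (C.i a₁) (C.i a₂) (C.i a₃)
    rw [hD] at h
    rw [h]
    refine H47.stn_in_sum (C.i : A →+* B) _ _ fun p hp => ?_
    obtain ⟨hp1, hp2, hp3⟩ := Finset.mem_filter.1 hp
    have hp4 := Finset.HasAntidiagonal.mem_antidiagonal.1 hp1
    obtain ⟨e1, he1⟩ := hI p.2 (by omega) a₁ a₂
    obtain ⟨e2, he2⟩ := hI p.2 (by omega) a₂ a₃
    obtain ⟨e3, he3⟩ := hI p.1 (by omega) e1 a₃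
    obtain ⟨e4, he4⟩ := hI p.1 (by omega) a₁ e2
    refine ⟨e3 - e4, ?_⟩
    show C.i (e3 - e4) = _
    rw [map_sub, he3, he4, he1, he2]
  obtain ⟨H, hH1, hH2, hH3⟩ := H2W R K V E A B κ Ω φ W α lam x y b c C u hV hS hu (m (N + 1))
    ⟨hW2 (N + 1), hNr N, hdl⟩ hFz
  let P' : ℕ → (B →ₗ[K] B) := fun n => if n = N + 1 then P (N + 1) - H else P n
  have hP' : ∀ n ≤ N, P' n = P n := by
    intro n hn
    simp only [P']
    rw [if_neg (by omega)]
  have hPN : P' (N + 1) = P (N + 1) - H := by simp only [P', if_true]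
  have hP0 : P' 0 = LinearMap.id := by rw [hP' 0 (Nat.zero_le _), hT.p0]
  have hPw : ∀ n, WBl (ia C.i α) W (P' n) := by
    intro n
    by_cases hn : n = N + 1
    · rw [hn, hPN]
      intro w hw a
      rw [LinearMap.sub_apply, LinearMap.sub_apply, LinearMap.sub_apply,
        (hT.pw (N + 1) w hw a).1, (hT.pw (N + 1) w hw a).2, (hH1 w hw a).1, (hH1 w hw a).2,
        mul_sub, sub_mul]
      exact ⟨rfl, rfl⟩
    · have : P' n = P n := by simp only [P']; rw [if_neg hn]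
      rw [this]
      exact hT.pw n
  have hP1 : ∀ n, P' (n + 1) 1 = 0 := by
    intro n
    by_cases hn : n + 1 = N + 1
    · rw [hn, hPN, LinearMap.sub_apply, hT.p1, hH2, sub_zero]
    · have : P' (n + 1) = P (n + 1) := by simp only [P']; rw [if_neg hn]
      rw [this]
      exact hT.p1 n
  obtain ⟨m', hm'⟩ := TRX K V B (ia C.i α) W P' hP0 hPw hP1
  obtain ⟨hc1, hc2⟩ := TRC K V B (ia C.i α) W P P' m m' N hT hm' hP'
  refine ⟨P', m', hm', hP', fun n hn a₁ a₂ => ?_⟩
  by_cases hnN : n ≤ N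
  · rw [hc1 n hnN]
    exact hI n hnN a₁ a₂
  · have hn' : n = N + 1 := by omega
    rw [hn', hc2]
    have : d1 (fun a => P' (N + 1) a - P (N + 1) a) (C.i a₁) (C.i a₂) =
        - d1 H (C.i a₁) (C.i a₂) := by
      simp only [d1, hPN, LinearMap.sub_apply]
      noncomm_ring
    rw [this, ← sub_eq_add_neg]
    exact hH3 a₁ a₂

end Pool.Agent.PSS.H24
end
end -- Pool.Agent.Helper24_PSS.STW

section -- Pool.Agent.Helper47_PSS.STT

/-! Squad PSS, row STT: one step of the deformation with target. -/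

open scoped BigOperators TensorProduct

noncomputable section

namespace Pool.Agent.PSS.H47

open Pool.Agent.PFD.D2 (Cdv FibG)
open Pool.Agent.PFD.D2b (FrR)
open Finset

/-- the element `x` comes from an element of the order with reduction `u` -/
def Rl {A B A₀ : Type} (i : A → B) (q : A → A₀) (x : B) (u : A₀) : Prop := ∃ e, i e = x ∧ q e = u

theorem rl_sum {ι A B A₀ : Type} [Ring A] [Ring B] [Ring A₀] (i : A →+* B) (q : A →+* A₀)
    (s : Finset ι) (f : ι → B) (g : ι → A₀) (h : ∀ p ∈ s, Rl i q (f p) (g p)) :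
    Rl i q (∑ p ∈ s, f p) (∑ p ∈ s, g p) := by
  classical
  induction s using Finset.induction_on with
  | empty => exact ⟨0, by rw [Finset.sum_empty, map_zero], by rw [Finset.sum_empty, map_zero]⟩
  | insert p s hp ih =>
    obtain ⟨a, ha, ha'⟩ := h p (Finset.mem_insert_self _ _)
    obtain ⟨b, hb, hb'⟩ := ih fun q hq => h q (Finset.mem_insert_of_mem hq)
    exact ⟨a + b, by rw [Finset.sum_insert hp, map_add, ha, hb],
      by rw [Finset.sum_insert hp, map_add, ha', hb']⟩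

/-- extension of a bilinear map from the order to the algebra -/
theorem stt_ext {R K V A B κ Ω : Type} [CommRing R] [Field K] [Algebra R K] [CommGroup V]
    [Fintype V] [Ring A] [Algebra R A] [Ring B] [Algebra R B] [Algebra K B] [Fintype κ]
    [Fintype Ω] [MulAction (V × V) Ω] (α : V →* A) (W : Subgroup V)
    (lam : A →ₗ[R] R) (x y : κ → A) (b : Ω → A) (c : Ω → (A →ₗ[R] R))
    (C : KC R K B α lam x y b c) (μ : A →ₗ[R] A →ₗ[R] A) (hμ : WB2 α W (fun a b => μ a b))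
    (hN : Nrm (fun a b => μ a b)) :
    ∃ μB : B →ₗ[K] B →ₗ[K] B, (∀ a a', μB (C.i a) (C.i a') = C.i (μ a a')) ∧
      WB2 (ia C.i α) W (fun a b => μB a b) ∧ Nrm (fun a b => μB a b) := by
  obtain ⟨-, -, hfr⟩ := C.fr
  obtain ⟨-, -, hfK⟩ := C.frK
  have hind : ∀ p : B → Prop, (∀ a, p (C.i a)) → (∀ u v, p u → p v → p (u + v)) →
      (∀ (k : K) u, p u → p (k • u)) → ∀ u, p u := by
    intro p h1 h2 h3 u
    rw [← hfK u]
    refine Finset.sum_induction _ p h2 ?_ fun ω _ => h3 _ _ (h1 _)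
    have := h1 0
    rwa [map_zero] at this
  let μB : B →ₗ[K] B →ₗ[K] B := ∑ ω, (C.cK ω).smulRight
    (∑ ω', (C.cK ω').smulRight (C.i (μ (b ω) (b ω'))))
  have hB : ∀ a a', μB (C.i a) (C.i a') = C.i (μ a a') := by
    intro a a'
    have e : ∀ (r : R) (a : A), algebraMap R K r • C.i a = C.i (r • a) := by
      intro r a
      rw [C.tow, map_smul]
    simp only [μB, LinearMap.sum_apply, LinearMap.smulRight_apply, LinearMap.smul_apply, C.ck]
    have h1 : ∀ ω, ∑ ω', algebraMap R K (c ω' a') • C.i (μ (b ω) (b ω')) = C.i (μ (b ω) a') := by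
      intro ω
      simp only [e]
      rw [← map_sum]
      congr 1
      simp only [← map_smul]
      rw [← map_sum, hfr]
    simp only [h1]
    simp only [e]
    rw [← map_sum]
    congr 1
    conv_rhs => rw [← hfr a, map_sum, LinearMap.sum_apply]
    refine Finset.sum_congr rfl fun ω _ => ?_
    rw [map_smul, LinearMap.smul_apply]
  refine ⟨μB, hB, ?_, ?_, ?_⟩
  · intro w hw u v
    obtain ⟨hw1, hw2⟩ : (∀ a a', μ (α w * a) a' = α w * μ a a') ∧
        ((∀ a a', μ (a * α w) a' = μ a (α w * a')) ∧ ∀ a a', μ a (a' * α w) = μ a a' * α w) :=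
      ⟨fun a a' => (hμ w hw a a').1, fun a a' => (hμ w hw a a').2.1,
        fun a a' => (hμ w hw a a').2.2⟩
    refine hind (fun u => μB (ia C.i α w * u) v = ia C.i α w * μB u v ∧
      μB (u * ia C.i α w) v = μB u (ia C.i α w * v) ∧
      μB u (v * ia C.i α w) = μB u v * ia C.i α w) ?_ ?_ ?_ u
    · intro a
      refine hind (fun v => μB (ia C.i α w * C.i a) v = ia C.i α w * μB (C.i a) v ∧
        μB (C.i a * ia C.i α w) v = μB (C.i a) (ia C.i α w * v) ∧
        μB (C.i a) (v * ia C.i α w) = μB (C.i a) v * ia C.i α w) ?_ ?_ ?_ v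
      · intro a'
        simp only [ia_apply, ← map_mul, hB, hw1, hw2.1, hw2.2]
        exact ⟨trivial, trivial, trivial⟩
      · rintro u v ⟨h1, h2, h3⟩ ⟨h4, h5, h6⟩
        refine ⟨?_, ?_, ?_⟩
        · rw [map_add, map_add, h1, h4, mul_add]
        · rw [map_add, mul_add, map_add, h2, h5]
        · rw [add_mul, map_add, map_add, h3, h6, add_mul]
      · rintro k u ⟨h1, h2, h3⟩
        refine ⟨?_, ?_, ?_⟩
        · rw [map_smul, map_smul, h1, mul_smul_comm]
        · rw [map_smul, mul_smul_comm, map_smul, h2]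
        · rw [smul_mul_assoc, map_smul, map_smul, h3, smul_mul_assoc]
    · rintro u v' ⟨h1, h2, h3⟩ ⟨h4, h5, h6⟩
      refine ⟨?_, ?_, ?_⟩
      · rw [mul_add, map_add, map_add, LinearMap.add_apply, LinearMap.add_apply, h1, h4, mul_add]
      · rw [add_mul, map_add, map_add, LinearMap.add_apply, LinearMap.add_apply, h2, h5]
      · rw [map_add, LinearMap.add_apply, LinearMap.add_apply, h3, h6, add_mul]
    · rintro k u ⟨h1, h2, h3⟩
      refine ⟨?_, ?_, ?_⟩
      · rw [mul_smul_comm, map_smul, map_smul, LinearMap.smul_apply, LinearMap.smul_apply, h1,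
          mul_smul_comm]
      · rw [smul_mul_assoc, map_smul, map_smul, LinearMap.smul_apply, LinearMap.smul_apply, h2]
      · rw [map_smul, LinearMap.smul_apply, LinearMap.smul_apply, h3, smul_mul_assoc]
  · intro v
    refine hind (fun v => μB 1 v = 0) ?_ ?_ ?_ v
    · intro a
      show μB 1 (C.i a) = 0
      have := hB 1 a
      rw [map_one] at this
      rw [this, show μ 1 a = 0 from hN.1 a, map_zero]
    · intro u v h1 h2
      show μB 1 (u + v) = 0
      rw [map_add, h1, h2, add_zero]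
    · intro k u h1
      show μB 1 (k • u) = 0
      rw [map_smul, h1, smul_zero]
  · intro v
    refine hind (fun v => μB v 1 = 0) ?_ ?_ ?_ v
    · intro a
      show μB (C.i a) 1 = 0
      have := hB a 1
      rw [map_one] at this
      rw [this, show μ a 1 = 0 from hN.2 a, map_zero]
    · intro u v h1 h2
      show μB (u + v) 1 = 0
      rw [map_add, LinearMap.add_apply, h1, h2, add_zero]
    · intro k u h1
      show μB (k • u) 1 = 0
      rw [map_smul, LinearMap.smul_apply, h1, smul_zero]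

theorem stt (TRX : TrxStmt) (TRA : TraStmt) (TRC : TrcStmt) (H2V : H2vStmt) (BLT : BltStmt) :
    SttStmt := by
  intro R K F V E A A₀ B κ Ω _ _ _ _ _ _ _ _ _ _ _ _ _ _ _ _ _ _ _ _ _ φ W z α lam x y b c C u
    cv f α₀ D₀ hV hS hu hα P m N hT hI
  obtain ⟨⟨D, hD⟩, hW2, hNr⟩ := TRA K V B (ia C.i α) W P m hT
  -- the lift of the coefficient of the target
  obtain ⟨μ, hμ1, hμ2, hμ3⟩ := BLT R F V A A₀ Ω W α b c cv f α₀ (D₀.m (N + 1)) C.fr hα
    (fun w hw a a' => ⟨D₀.wl (N + 1) ⟨w, hw⟩ a a', D₀.wm (N + 1) ⟨w, hw⟩ a a',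
      D₀.wr (N + 1) ⟨w, hw⟩ a a'⟩) ⟨D₀.n1 N, D₀.n2 N⟩
  obtain ⟨μB, hB1, hB2, hB3⟩ := stt_ext α W lam x y b c C μ hμ1 hμ2
  -- the scalar
  set p : K := algebraMap R K cv.π with hp
  have hπ : cv.π ≠ 0 := by
    intro h
    have := cv.reg 1 (by rw [h, zero_mul])
    exact one_ne_zero this
  have hp0 : p ≠ 0 := by
    intro h
    refine hπ (C.rinj ?_)
    rw [map_zero]
    exact h
  have hps : ∀ a : A, p • C.i a = C.i (cv.π • a) := by
    intro a
    rw [hp, C.tow, map_smul]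
  have hκ : cv.κ cv.π = 0 := (cv.ker _).2 ⟨1, (mul_one _).symm⟩
  have hqs : ∀ a : A, f.q (cv.π • a) = 0 := by
    intro a
    rw [Algebra.smul_def, map_mul, f.sc, hκ, map_zero, zero_mul]
  -- the cochain
  let cc : B →ₗ[K] B →ₗ[K] B := p⁻¹ • (m (N + 1) - μB)
  have hcc : ∀ u v, cc u v = p⁻¹ • (m (N + 1) u v - μB u v) := fun u v => rfl
  have hccW : WB2 (ia C.i α) W (fun a b => cc a b) := by
    intro w hw u v
    obtain ⟨h1, h2, h3⟩ := hW2 (N + 1) w hw u v
    obtain ⟨h4, h5, h6⟩ := hB2 w hw u v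
    simp only at h1 h2 h3 h4 h5 h6
    simp only [hcc]
    refine ⟨?_, ?_, ?_⟩
    · rw [h1, h4, ← mul_sub, mul_smul_comm]
    · rw [h2, h5]
    · rw [h3, h6, ← sub_mul, smul_mul_assoc]
  have hccN : Nrm (fun a b => cc a b) := by
    obtain ⟨h1, h2⟩ := hNr N
    obtain ⟨h3, h4⟩ := hB3
    simp only at h1 h2 h3 h4
    refine ⟨fun v => ?_, fun v => ?_⟩
    · show cc 1 v = 0
      rw [hcc, h1, h3, sub_zero, smul_zero]
    · show cc v 1 = 0
      rw [hcc, h2, h4, sub_zero, smul_zero]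
  have hdl : ∀ a₁ a₂ a₃, In C.i (dl (fun a b => cc a b) (C.i a₁) (C.i a₂) (C.i a₃)) := by
    intro a₁ a₂ a₃
    have h := dm_dl D N (C.i a₁) (C.i a₂) (C.i a₃)
    rw [hD] at h
    have h' := dm_dl D₀ N (f.q a₁) (f.q a₂) (f.q a₃)
    have hR : Rl (C.i : A →+* B) f.q (dl (fun a b => m (N + 1) a b) (C.i a₁) (C.i a₂) (C.i a₃))
        (dl (fun a b => D₀.m (N + 1) a b) (f.q a₁) (f.q a₂) (f.q a₃)) := by
      rw [h, h']
      refine rl_sum (C.i : A →+* B) f.q _ _ _ fun p hp => ?_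
      obtain ⟨hp1, hp2, hp3⟩ := Finset.mem_filter.1 hp
      have hp4 := Finset.HasAntidiagonal.mem_antidiagonal.1 hp1
      obtain ⟨e1, he1, hq1⟩ := hI p.2 (by omega) a₁ a₂
      obtain ⟨e2, he2, hq2⟩ := hI p.2 (by omega) a₂ a₃
      obtain ⟨e3, he3, hq3⟩ := hI p.1 (by omega) e1 a₃
      obtain ⟨e4, he4, hq4⟩ := hI p.1 (by omega) a₁ e2
      refine ⟨e3 - e4, ?_, ?_⟩
      · show C.i (e3 - e4) = _
        rw [map_sub, he3, he4, he1, he2]
      · rw [map_sub, hq3, hq4, hq1, hq2]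
    obtain ⟨e, he, hqe⟩ := hR
    have he' : C.i e = dl (fun a b => m (N + 1) a b) (C.i a₁) (C.i a₂) (C.i a₃) := he
    have hμd : C.i (dl (fun a b => μ a b) a₁ a₂ a₃) =
        dl (fun a b => μB a b) (C.i a₁) (C.i a₂) (C.i a₃) := by
      simp only [dl, map_add, map_sub, map_mul, ← hB1]
    have hqd : f.q (dl (fun a b => μ a b) a₁ a₂ a₃) =
        dl (fun a b => D₀.m (N + 1) a b) (f.q a₁) (f.q a₂) (f.q a₃) := by
      simp only [dl, map_add, map_sub, map_mul, hμ3]
    obtain ⟨y', hy'⟩ := f.ker (e - dl (fun a b => μ a b) a₁ a₂ a₃)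
      (by rw [map_sub, hqe, hqd, sub_self])
    refine ⟨y', ?_⟩
    have h1 : dl (fun a b => cc a b) (C.i a₁) (C.i a₂) (C.i a₃) =
        p⁻¹ • (dl (fun a b => m (N + 1) a b) (C.i a₁) (C.i a₂) (C.i a₃) -
          dl (fun a b => μB a b) (C.i a₁) (C.i a₂) (C.i a₃)) := by
      simp only [dl, hcc, smul_sub, smul_add, mul_smul_comm, smul_mul_assoc, mul_sub, sub_mul]
      abel
    rw [h1, ← he', ← hμd, ← map_sub, hy', ← hps, smul_smul, inv_mul_cancel₀ hp0, one_smul]
  obtain ⟨H, hH1, hH2, hH3⟩ := H2V R K V E A B κ Ω φ W z α lam x y b c C u hV hS hu cc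
    hccW hccN hdl
  let P' : ℕ → (B →ₗ[K] B) := fun n => if n = N + 1 then P (N + 1) - p • H else P n
  have hP' : ∀ n ≤ N, P' n = P n := by
    intro n hn
    simp only [P']
    rw [if_neg (by omega)]
  have hPN : P' (N + 1) = P (N + 1) - p • H := by simp only [P', if_true]
  have hP0 : P' 0 = LinearMap.id := by rw [hP' 0 (Nat.zero_le _), hT.p0]
  have hPw : ∀ n, WBl (ia C.i α) W (P' n) := by
    intro n
    by_cases hn : n = N + 1
    · rw [hn, hPN]
      intro w hw a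
      rw [LinearMap.sub_apply, LinearMap.sub_apply, LinearMap.sub_apply, LinearMap.smul_apply,
        LinearMap.smul_apply, LinearMap.smul_apply,
        (hT.pw (N + 1) w hw a).1, (hT.pw (N + 1) w hw a).2, (hH1 w hw a).1, (hH1 w hw a).2,
        mul_sub, sub_mul, mul_smul_comm, smul_mul_assoc]
      exact ⟨rfl, rfl⟩
    · have : P' n = P n := by simp only [P']; rw [if_neg hn]
      rw [this]
      exact hT.pw n
  have hP1 : ∀ n, P' (n + 1) 1 = 0 := by
    intro n
    by_cases hn : n + 1 = N + 1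
    · rw [hn, hPN, LinearMap.sub_apply, LinearMap.smul_apply, hT.p1, hH2, smul_zero, sub_zero]
    · have : P' (n + 1) = P (n + 1) := by simp only [P']; rw [if_neg hn]
      rw [this]
      exact hT.p1 n
  obtain ⟨m', hm'⟩ := TRX K V B (ia C.i α) W P' hP0 hPw hP1
  obtain ⟨hc1, hc2⟩ := TRC K V B (ia C.i α) W P P' m m' N hT hm' hP'
  refine ⟨P', m', hm', hP', fun n hn a₁ a₂ => ?_⟩
  by_cases hnN : n ≤ N
  · rw [hc1 n hnN]
    exact hI n hnN a₁ a₂
  · have hn' : n = N + 1 := by omega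
    rw [hn', hc2]
    obtain ⟨e, he⟩ := hH3 a₁ a₂
    refine ⟨μ a₁ a₂ + cv.π • e, ?_, ?_⟩
    · rw [map_add, ← hps, he, hcc, smul_sub, smul_smul, mul_inv_cancel₀ hp0, one_smul, ← hB1]
      simp only [d1, hPN, LinearMap.sub_apply, LinearMap.smul_apply, smul_add, smul_sub,
        mul_sub, sub_mul, mul_smul_comm, smul_mul_assoc]
      abel
    · rw [map_add, hqs, add_zero, hμ3]

end Pool.Agent.PSS.H47
end
end -- Pool.Agent.Helper47_PSS.STT

section -- Pool.Agent.Helper77_PSS.TAU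

/-!
# Squad PSS, row TAU (helper77): the projection onto a complement
-/

set_option autoImplicit false

open scoped BigOperators TensorProduct

noncomputable section

namespace Pool.Agent.PSS.H77T

open Pool.Agent.PSS
open Pool.Agent.PFD.D2b (FrR)
open Finset

/-- the coset of the first coordinate, relative to representatives of the orbits of `V × W` -/
theorem exists_q {V E Ω : Type} [CommGroup V] [Group E] [MulAction (V × V) Ω]
    {φ : E →* MulAut V} {W : Subgroup V} (hW : ∀ e : E, ∀ w ∈ W, φ e w ∈ W) (hS : StE φ Ω) :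
    ∃ q : Ω → V ⧸ W, ∀ (u w' : V), w' ∈ W → ∀ ω,
      q (((u, w') : V × V) • ω) = (u : V ⧸ W) * q ω := by
  classical
  let G0 : Subgroup (V × V) := (⊤ : Subgroup V).prod W
  let r : MulAction.orbitRel.Quotient G0 Ω → Ω := fun q => Quotient.out q
  have hg : ∀ ω : Ω, ∃ g : G0, g • r (Quotient.mk (MulAction.orbitRel G0 Ω) ω) = ω := by
    intro ω
    have h1 : (MulAction.orbitRel G0 Ω).r (r (Quotient.mk (MulAction.orbitRel G0 Ω) ω)) ω :=
      Quotient.mk_out (s := MulAction.orbitRel G0 Ω) ω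
    have h2 : (MulAction.orbitRel G0 Ω).r ω (r (Quotient.mk (MulAction.orbitRel G0 Ω) ω)) :=
      (MulAction.orbitRel G0 Ω).symm h1
    have h3 : ω ∈ MulAction.orbit G0 (r (Quotient.mk (MulAction.orbitRel G0 Ω) ω)) :=
      MulAction.orbitRel_apply.mp h2
    exact h3
  choose g hg using hg
  have hq : ∀ (h : G0) (ω : Ω), Quotient.mk (MulAction.orbitRel G0 Ω) (h • ω) =
      Quotient.mk (MulAction.orbitRel G0 Ω) ω := by
    intro h ω
    refine Quotient.sound (s := MulAction.orbitRel G0 Ω) ?_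
    exact MulAction.mem_orbit ω h
  refine ⟨fun ω => (((g ω : V × V).1 : V) : V ⧸ W), ?_⟩
  intro u w' hw' ω
  obtain ⟨h, hh⟩ : ∃ h : G0, (h : V × V) = (u, w') :=
    ⟨⟨(u, w'), Subgroup.mem_prod.2 ⟨trivial, hw'⟩⟩, rfl⟩
  have hact : ((u, w') : V × V) • ω = h • ω := by
    rw [← hh]
    rfl
  have h1 : ((h * g ω)⁻¹ * g (h • ω)) • r (Quotient.mk (MulAction.orbitRel G0 Ω) ω) =
      r (Quotient.mk (MulAction.orbitRel G0 Ω) ω) := by
    rw [mul_smul]
    have h2 := hg (h • ω)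
    rw [hq] at h2
    rw [h2, inv_smul_eq_iff, mul_smul, hg]
  have h2 : (((((h * g ω)⁻¹ * g (h • ω) : G0) : V × V).1,
      (((h * g ω)⁻¹ * g (h • ω) : G0) : V × V).2) : V × V) •
      r (Quotient.mk (MulAction.orbitRel G0 Ω) ω) =
      r (Quotient.mk (MulAction.orbitRel G0 Ω) ω) := h1
  obtain ⟨e, he⟩ := hS _ _ _ h2
  have h3 : (((h * g ω)⁻¹ * g (h • ω) : G0) : V × V).2 ∈ W :=
    (Subgroup.mem_prod.1 ((h * g ω)⁻¹ * g (h • ω)).2).2
  have h4 := hW e _ h3
  rw [← he] at h4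
  have h5 : (u * (g ω : V × V).1)⁻¹ * (g (((u, w') : V × V) • ω) : V × V).1 ∈ W := by
    rw [hact]
    have e1 : (((h * g ω)⁻¹ * g (h • ω) : G0) : V × V).1 =
        ((h : V × V).1 * (g ω : V × V).1)⁻¹ * (g (h • ω) : V × V).1 := rfl
    rw [e1, hh] at h4
    exact h4
  have h6 := (QuotientGroup.eq (s := W)).2 h5
  show (((g (((u, w') : V × V) • ω) : V × V).1 : V) : V ⧸ W) =
    (u : V ⧸ W) * (((g ω : V × V).1 : V) : V ⧸ W)
  rw [← h6]
  rfl

theorem tau : TauStmt := by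
  classical
  intro R K V E A B κ Ω _ _ _ _ _ _ _ _ _ _ _ _ _ _ _ φ W z α lam x y b c C hV hS
  obtain ⟨q, hq⟩ := exists_q hV.stb hS
  obtain ⟨f1, f2, f3⟩ := C.frK
  -- the components
  let τ : V ⧸ W → (B →ₗ[K] B) := fun s =>
    ∑ ω, if q ω = s then (C.cK ω).smulRight (C.i (b ω)) else 0
  have hτ : ∀ s x, τ s x = ∑ ω, if q ω = s then C.cK ω x • C.i (b ω) else 0 := by
    intro s x
    simp only [τ]
    rw [LinearMap.sum_apply]
    refine Finset.sum_congr rfl fun ω _ => ?_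
    split_ifs <;> rfl
  have hmove : ∀ (u w' : V), w' ∈ W → ∀ s x,
      bw K (ia C.i α) (u, w') (τ s x) = τ ((u : V ⧸ W) * s) (bw K (ia C.i α) (u, w') x) := by
    intro u w' hw' s x
    rw [hτ, hτ, map_sum]
    conv_rhs => rw [← Equiv.sum_comp (MulAction.toPerm ((u, w') : V × V))]
    refine Finset.sum_congr rfl fun ω _ => ?_
    have e1 : (MulAction.toPerm ((u, w') : V × V)) ω = ((u, w') : V × V) • ω := rfl
    rw [e1, hq u w' hw' ω, f2]
    by_cases h : q ω = s
    · rw [if_pos h, if_pos (by rw [h]), map_smul]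
      congr 1
      exact (f1 _ _).symm
    · rw [if_neg h, if_neg (fun h2 => h (mul_left_cancel h2)), map_zero]
  have hbl : ∀ (v : V) (x : B), bw K (ia C.i α) (v, 1) x = C.i (α v) * x := by
    intro v x
    show C.i (α v) * (x * C.i (α (1 : V)⁻¹)) = _
    rw [inv_one, map_one, map_one, mul_one]
  have hbr : ∀ (v : V) (x : B), bw K (ia C.i α) (1, v⁻¹) x = x * C.i (α v) := by
    intro v x
    show C.i (α (1 : V)) * (x * C.i (α (v⁻¹)⁻¹)) = _
    rw [inv_inv, map_one, map_one, one_mul]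
  refine ⟨τ 1, ?_, ?_, ?_⟩
  · intro a
    refine ⟨∑ ω, if q ω = 1 then c ω a • b ω else 0, ?_⟩
    rw [hτ, map_sum]
    refine Finset.sum_congr rfl fun ω _ => ?_
    split_ifs
    · rw [map_smul, C.ck, C.tow]
    · rw [map_zero]
  · intro w hw x
    have hw1 : (w : V ⧸ W) = 1 := (QuotientGroup.eq_one_iff w).2 hw
    constructor
    · have h1 := hmove w 1 W.one_mem 1 x
      rw [hbl, hbl, hw1, mul_one] at h1
      exact h1.symm
    · have h1 := hmove 1 w⁻¹ (W.inv_mem hw) 1 x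
      rw [hbr, hbr, mul_one, QuotientGroup.mk_one] at h1
      exact h1.symm
  · intro x
    have h1 : ∀ j ∈ range (orderOf z), C.i (α (z ^ j)) * τ 1 (C.i (α (z ^ j)⁻¹) * x) =
        τ ((z ^ j : V) : V ⧸ W) x := by
      intro j _
      have h2 := hmove (z ^ j) 1 W.one_mem 1 (C.i (α (z ^ j)⁻¹) * x)
      rw [hbl, hbl, mul_one, ← mul_assoc (C.i (α (z ^ j))), ← map_mul C.i, ← map_mul α,
        mul_inv_cancel, map_one, map_one, one_mul] at h2
      exact h2
    rw [Finset.sum_congr rfl h1, Finset.sum_congr rfl fun j _ => hτ _ x, Finset.sum_comm]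
    conv_rhs => rw [← f3 x]
    refine Finset.sum_congr rfl fun ω _ => ?_
    -- exactly one `j`
    obtain ⟨v, hv⟩ := QuotientGroup.mk_surjective (q ω)
    obtain ⟨k, w, hw, hvk⟩ := hV.gen v
    have hn : 0 < orderOf z := orderOf_pos z
    have hqk : q ω = ((z ^ (k % orderOf z) : V) : V ⧸ W) := by
      rw [← hv, hvk, pow_mod_orderOf]
      refine (QuotientGroup.eq (s := W)).2 ?_
      have e1 : (z ^ k * w)⁻¹ * z ^ k = w⁻¹ := by
        rw [mul_inv_rev, inv_mul_cancel_right]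
      rw [e1]
      exact W.inv_mem hw
    rw [Finset.sum_eq_single (k % orderOf z)]
    · rw [if_pos hqk]
    · intro j hj hne
      rw [if_neg]
      intro h2
      apply hne
      have hj' : j < orderOf z := Finset.mem_range.1 hj
      have hk' : k % orderOf z < orderOf z := Nat.mod_lt _ hn
      rw [hqk] at h2
      have h3 := (QuotientGroup.eq (s := W)).1 h2
      have h4 : (z ^ (k % orderOf z))⁻¹ * z ^ j = z ^ (orderOf z - k % orderOf z + j) := by
        rw [inv_mul_eq_iff_eq_mul, ← pow_add,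
          show k % orderOf z + (orderOf z - k % orderOf z + j) = orderOf z + j by omega, pow_add,
          pow_orderOf_eq_one, one_mul]
      rw [h4] at h3
      have h5 := hV.dis _ h3
      rw [← h4] at h5
      have h6 : z ^ j = z ^ (k % orderOf z) := (inv_mul_eq_one.1 h5).symm
      exact pow_injOn_Iio_orderOf (Set.mem_Iio.2 hj') (Set.mem_Iio.2 hk') h6
    · intro h2
      exact absurd (Finset.mem_range.2 (Nat.mod_lt _ hn)) h2

end Pool.Agent.PSS.H77T
end
end -- Pool.Agent.Helper77_PSS.TAU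

section -- Pool.Agent.Helper7_PSS.TLF

/-!
# Squad PSS, row TLF: every deformation of the special fibre lifts (helper7)
-/

open scoped BigOperators TensorProduct

noncomputable section

namespace Pool.Agent.PSS.H7

open Pool.Agent.PFD.D2 (Cdv FibG)
open Pool.Agent.PFD.D2b (FrR)
open Finset

/-- the conditions of `Trv` up to the degree `N`, and a condition `I` in each degree -/
structure Tup {K V B : Type} [Field K] [CommGroup V] [Ring B] [Algebra K B] (β : V →* B)
    (W : Subgroup V) (I : ℕ → (B →ₗ[K] B →ₗ[K] B) → Prop) (N : ℕ)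
    (f : ℕ → (B →ₗ[K] B) × (B →ₗ[K] B →ₗ[K] B)) : Prop where
  p0 : (f 0).1 = LinearMap.id
  pw : ∀ n ≤ N, WBl β W (f n).1
  p1 : ∀ n, n + 1 ≤ N → (f (n + 1)).1 1 = 0
  pm : ∀ n ≤ N, ∀ x y, ∑ p ∈ antidiagonal n, (f p.1).1 x * (f p.2).1 y =
    ∑ p ∈ antidiagonal n, (f p.1).1 ((f p.2).2 x y)
  int : ∀ n ≤ N, I n (f n).2

variable {K V B : Type} [Field K] [CommGroup V] [Ring B] [Algebra K B] {β : V →* B}
    {W : Subgroup V} {I : ℕ → (B →ₗ[K] B →ₗ[K] B) → Prop}

theorem Tup.congr {N : ℕ} {f g : ℕ → (B →ₗ[K] B) × (B →ₗ[K] B →ₗ[K] B)}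
    (h : ∀ n ≤ N, f n = g n) (hf : Tup β W I N f) : Tup β W I N g where
  p0 := by rw [← h 0 (Nat.zero_le _)]; exact hf.p0
  pw := fun n hn => by rw [← h n hn]; exact hf.pw n hn
  p1 := fun n hn => by rw [← h (n + 1) hn]; exact hf.p1 n hn
  pm := fun n hn x y => by
    have h1 := hf.pm n hn x y
    have e1 : ∑ p ∈ antidiagonal n, (g p.1).1 x * (g p.2).1 y =
        ∑ p ∈ antidiagonal n, (f p.1).1 x * (f p.2).1 y := by
      refine Finset.sum_congr rfl fun p hp => ?_
      have hp' := Finset.HasAntidiagonal.mem_antidiagonal.1 hp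
      rw [h p.1 (by omega), h p.2 (by omega)]
    have e2 : ∑ p ∈ antidiagonal n, (g p.1).1 ((g p.2).2 x y) =
        ∑ p ∈ antidiagonal n, (f p.1).1 ((f p.2).2 x y) := by
      refine Finset.sum_congr rfl fun p hp => ?_
      have hp' := Finset.HasAntidiagonal.mem_antidiagonal.1 hp
      rw [h p.1 (by omega), h p.2 (by omega)]
    rw [e1, e2, h1]
  int := fun n hn => by rw [← h n hn]; exact hf.int n hn

/-- the coefficients of a trivialisation are determined by the first maps -/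
theorem Tup.agree {N : ℕ} {f : ℕ → (B →ₗ[K] B) × (B →ₗ[K] B →ₗ[K] B)} (hf : Tup β W I N f)
    {P : ℕ → (B →ₗ[K] B)} {m : ℕ → (B →ₗ[K] B →ₗ[K] B)} (hT : Trv β W P m)
    (hP : ∀ n ≤ N, P n = (f n).1) : ∀ n, n ≤ N → m n = (f n).2 := by
  intro n
  induction n using Nat.strong_induction_on with
  | _ n ih =>
    intro hn
    refine LinearMap.ext fun x => LinearMap.ext fun y => ?_
    have h1 := hT.pm n x y
    have h2 := hf.pm n hn x y
    have e1 : ∑ p ∈ antidiagonal n, P p.1 x * P p.2 y =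
        ∑ p ∈ antidiagonal n, (f p.1).1 x * (f p.2).1 y := by
      refine Finset.sum_congr rfl fun p hp => ?_
      have hp' := Finset.HasAntidiagonal.mem_antidiagonal.1 hp
      rw [hP p.1 (by omega), hP p.2 (by omega)]
    have e2 : ∑ p ∈ antidiagonal n, (f p.1).1 ((f p.2).2 x y) =
        ∑ p ∈ antidiagonal n, P p.1 ((f p.2).2 x y) := by
      refine Finset.sum_congr rfl fun p hp => ?_
      have hp' := Finset.HasAntidiagonal.mem_antidiagonal.1 hp
      rw [hP p.1 (by omega)]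
    have h3 : ∑ p ∈ antidiagonal n, P p.1 (m p.2 x y - (f p.2).2 x y) = 0 := by
      simp only [map_sub]
      rw [Finset.sum_sub_distrib, ← h1, e1, h2, e2, sub_self]
    rw [Finset.sum_eq_single ((0, n) : ℕ × ℕ)] at h3
    · rw [hT.p0] at h3
      exact sub_eq_zero.1 h3
    · intro p hp hne
      have hp' := Finset.HasAntidiagonal.mem_antidiagonal.1 hp
      have hlt : p.2 < n := by
        rcases Nat.lt_or_ge p.2 n with h | h
        · exact h
        · exact absurd (Prod.ext (by show p.1 = 0; omega) (by show p.2 = n; omega)) hne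
      rw [ih p.2 hlt (by omega), sub_self, map_zero]
    · intro h
      exact absurd (Finset.HasAntidiagonal.mem_antidiagonal.2 (Nat.zero_add n)) h

/-- the limit argument: from steps for complete trivialisations to a complete trivialisation -/
theorem limTrv (hTRX : TrxStmt) (hTRC : TrcStmt) (hLIM : LimStmt) (N₀ : ℕ)
    (f₀ : ℕ → (B →ₗ[K] B) × (B →ₗ[K] B →ₗ[K] B)) (h0 : Tup β W I N₀ f₀)
    (step : ∀ (P : ℕ → (B →ₗ[K] B)) (m : ℕ → (B →ₗ[K] B →ₗ[K] B)) (N : ℕ), N₀ ≤ N → Trv β W P m →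
      (∀ n ≤ N, I n (m n)) → ∃ (P' : ℕ → (B →ₗ[K] B)) (m' : ℕ → (B →ₗ[K] B →ₗ[K] B)),
        Trv β W P' m' ∧ (∀ n ≤ N, P' n = P n) ∧ ∀ n ≤ N + 1, I n (m' n)) :
    ∃ (P : ℕ → (B →ₗ[K] B)) (m : ℕ → (B →ₗ[K] B →ₗ[K] B)), Trv β W P m ∧
      (∀ n ≤ N₀, P n = (f₀ n).1) ∧ ∀ n, I n (m n) := by
  obtain ⟨f, hf0, hf⟩ := hLIM ((B →ₗ[K] B) × (B →ₗ[K] B →ₗ[K] B))
    (fun N f => N₀ ≤ N ∧ Tup β W I N f)
    (fun N f g h hf => ⟨hf.1, hf.2.congr h⟩)
    (by
      rintro N f ⟨hN, hf⟩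
      obtain ⟨m, hm⟩ := hTRX K V B β W (fun n => if n ≤ N then (f n).1 else 0)
        (by simp only [Nat.zero_le, if_true]; exact hf.p0)
        (by
          intro n
          by_cases hn : n ≤ N
          · simp only [hn, if_true]
            exact hf.pw n hn
          · simp only [hn, if_false]
            intro w _ x
            simp)
        (by
          intro n
          by_cases hn : n + 1 ≤ N
          · simp only [hn, if_true]
            exact hf.p1 n hn
          · simp only [hn, if_false]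
            exact LinearMap.zero_apply _)
      have hag := hf.agree hm (fun n hn => by simp only [hn, if_true])
      obtain ⟨P', m', hT', hP', hI'⟩ := step _ m N hN hm
        (fun n hn => by rw [hag n hn]; exact hf.int n hn)
      have hmm := (hTRC K V B β W _ P' m m' N hm hT' hP').1
      refine ⟨fun n => (P' n, m' n), ?_, by omega, ?_⟩
      · intro n hn
        refine Prod.ext ?_ ?_
        · show P' n = _
          rw [hP' n hn]
          simp only [hn, if_true]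
        · show m' n = _
          rw [hmm n hn, hag n hn]
      · exact
          { p0 := hT'.p0
            pw := fun n _ => hT'.pw n
            p1 := fun n _ => hT'.p1 n
            pm := fun n _ x y => hT'.pm n x y
            int := fun n hn => hI' n hn })
    N₀ f₀ ⟨le_refl _, h0⟩
  have hT : ∀ n, Tup β W I (N₀ + n) f := fun n => (hf (N₀ + n) (Nat.le_add_right _ _)).2
  refine ⟨fun n => (f n).1, fun n => (f n).2, ?_, ?_, ?_⟩
  · exact
      { p0 := (hT 0).p0
        pw := fun n => (hT n).pw n (by omega)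
        p1 := fun n => (hT (n + 1)).p1 n (by omega)
        pm := fun n x y => (hT n).pm n (by omega) x y }
  · intro n hn
    show (f n).1 = _
    rw [hf0 n hn]
  · intro n
    exact (hT n).int n (by omega)

theorem tlf (hTRX : TrxStmt) (hTRC : TrcStmt) (hSTT : SttStmt) (hLIM : LimStmt) : TlfStmt := by
  intro R K F V E A A₀ B κ Ω _ _ _ _ _ _ _ _ _ _ _ _ _ _ _ _ _ _ _ _ _ φ W z α lam x y b c C u cv f
    α₀ D₀ hz hs hu hq
  obtain ⟨P, m, hT, -, hI⟩ := limTrv (β := ia C.i α) (W := W)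
    (I := fun n μ => ∀ a₁ a₂, ∃ e, C.i e = μ (C.i a₁) (C.i a₂) ∧
      f.q e = D₀.m n (f.q a₁) (f.q a₂)) hTRX hTRC hLIM 0
    (fun _ => (LinearMap.id, LinearMap.mul K B))
    { p0 := rfl
      pw := fun n _ w _ x => ⟨rfl, rfl⟩
      p1 := fun n hn => absurd hn (by omega)
      pm := fun n hn x y => by
        obtain rfl : n = 0 := by omega
        simp
      int := fun n hn a₁ a₂ => by
        obtain rfl : n = 0 := by omega
        refine ⟨a₁ * a₂, ?_, ?_⟩
        · rw [map_mul]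
          rfl
        · rw [map_mul, D₀.m0] }
    (fun P m N _ hT hI => hSTT R K F V E A A₀ B κ Ω φ W z α lam x y b c C u cv f α₀ D₀ hz hs hu hq
      P m N hT hI)
  exact ⟨P, m, hT, hI⟩

end Pool.Agent.PSS.H7
end
end -- Pool.Agent.Helper7_PSS.TLF

section -- Pool.Agent.Helper41_PSS.MUB

/-! Squad PST, block OB, row MUB: a lift of a coefficient of the deformation of the special fibre. -/

open scoped BigOperators TensorProduct

noncomputable section

namespace Pool.Agent.PSS.H41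

open Pool.Agent.PFD.D2 (Cdv FibG)
open Pool.Agent.PFD.D2b (FrR)
open Finset

theorem mub (BLT : BltStmt) : MubStmt := by
  intro R K F V A A₀ B κ Ω _ _ _ _ _ _ _ _ _ _ _ _ _ _ _ _ _ W α lam x y b c C cv f α₀ D₀ k hα
  obtain ⟨μ, hμ1, hμ2, hμ3⟩ := BLT R F V A A₀ Ω W α b c cv f α₀ (D₀.m (k + 1)) C.fr hα
    (fun w hw a a' => ⟨D₀.wl (k + 1) ⟨w, hw⟩ a a', D₀.wm (k + 1) ⟨w, hw⟩ a a',
      D₀.wr (k + 1) ⟨w, hw⟩ a a'⟩) ⟨D₀.n1 k, D₀.n2 k⟩
  obtain ⟨μB, hB1, hB2, hB3⟩ := H47.stt_ext α W lam x y b c C μ hμ1 hμ2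
  exact ⟨μB, hB2, hB3, fun a₁ a₂ => ⟨μ a₁ a₂, (hB1 a₁ a₂).symm, hμ3 a₁ a₂⟩⟩

end Pool.Agent.PSS.H41
end
end -- Pool.Agent.Helper41_PSS.MUB

section -- Pool.Agent.Helper41_PSS.TGT

/-! Squad PST, block OB, row TGT: the difference class of a deformation and its target. -/

open scoped BigOperators TensorProduct

noncomputable section

namespace Pool.Agent.PSS.H41

open Pool.Agent.PFD.D2 (Cdv FibG)
open Pool.Agent.PFD.D2b (FrR)
open Finset
open Pool.Agent.PSS.H47 (Rl rl_sum dm_dl)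

section

variable {K V B : Type} [Field K] [CommGroup V] [Ring B] [Algebra K B]

lemma tgt_wb2 {β : V →* B} {W : Subgroup V} {c c₁ c₂ : B →ₗ[K] B →ₗ[K] B} {k : K}
    (hc : ∀ x y, c x y = k • (c₁ x y - c₂ x y))
    (h₁ : WB2 β W (fun a b => c₁ a b)) (h₂ : WB2 β W (fun a b => c₂ a b)) :
    WB2 β W (fun a b => c a b) := by
  intro w hw u v
  obtain ⟨h1, h2, h3⟩ := h₁ w hw u v
  obtain ⟨h4, h5, h6⟩ := h₂ w hw u v
  simp only at h1 h2 h3 h4 h5 h6
  simp only [hc]
  refine ⟨?_, ?_, ?_⟩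
  · rw [h1, h4, ← mul_sub, mul_smul_comm]
  · rw [h2, h5]
  · rw [h3, h6, ← sub_mul, smul_mul_assoc]

lemma tgt_nrm {c c₁ c₂ : B →ₗ[K] B →ₗ[K] B} {k : K}
    (hc : ∀ x y, c x y = k • (c₁ x y - c₂ x y))
    (h₁ : Nrm (fun a b => c₁ a b)) (h₂ : Nrm (fun a b => c₂ a b)) :
    Nrm (fun a b => c a b) := by
  obtain ⟨h1, h2⟩ := h₁
  obtain ⟨h3, h4⟩ := h₂
  simp only at h1 h2 h3 h4
  refine ⟨fun v => ?_, fun v => ?_⟩
  · show c 1 v = 0
    rw [hc, h1, h3, sub_zero, smul_zero]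
  · show c v 1 = 0
    rw [hc, h2, h4, sub_zero, smul_zero]

lemma tgt_dl {c c₁ c₂ : B →ₗ[K] B →ₗ[K] B} {k : K}
    (hc : ∀ x y, c x y = k • (c₁ x y - c₂ x y)) (x y z : B) :
    dl (fun a b => c a b) x y z =
      k • (dl (fun a b => c₁ a b) x y z - dl (fun a b => c₂ a b) x y z) := by
  simp only [dl, hc, smul_sub, smul_add, mul_smul_comm, smul_mul_assoc, mul_sub, sub_mul]
  abel

end

lemma tgt_rl {R A B A₀ : Type} [CommRing R] [Ring A] [Algebra R A] [Ring B] [Algebra R B]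
    [Ring A₀] (i : A →ₐ[R] B) (q : A →+* A₀) (μ : B → B → B) (ν : A₀ → A₀ → A₀)
    (h : ∀ a₁ a₂, ∃ e, i e = μ (i a₁) (i a₂) ∧ q e = ν (q a₁) (q a₂)) (a₁ a₂ a₃ : A) :
    ∃ e, i e = dl μ (i a₁) (i a₂) (i a₃) ∧ q e = dl ν (q a₁) (q a₂) (q a₃) := by
  obtain ⟨e1, h1, g1⟩ := h a₂ a₃
  obtain ⟨e2, h2, g2⟩ := h (a₁ * a₂) a₃
  obtain ⟨e3, h3, g3⟩ := h a₁ (a₂ * a₃)
  obtain ⟨e4, h4, g4⟩ := h a₁ a₂
  refine ⟨a₁ * e1 - e2 + e3 - e4 * a₃, ?_, ?_⟩
  · simp only [dl, map_add, map_sub, map_mul, h1, h2, h3, h4]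
  · simp only [dl, map_add, map_sub, map_mul, g1, g2, g3, g4]

theorem tgt (TRA : TraStmt) (MUB : MubStmt) : TgtStmt := by
  intro R K F V A A₀ B κ Ω _ _ _ _ _ _ _ _ _ _ _ _ _ _ _ _ _ _ _ _ W α lam x y b c C
    cv f α₀ D₀ hα P m N μ cc hT hI hμW hμN hμR hccp
  obtain ⟨⟨D, hD⟩, hW2, hNr⟩ := TRA K V B (ia C.i α) W P m hT
  -- the scalar
  set p : K := algebraMap R K cv.π with hp
  have hπ : cv.π ≠ 0 := by
    intro h
    have := cv.reg 1 (by rw [h, zero_mul])
    exact one_ne_zero this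
  have hp0 : p ≠ 0 := by
    intro h
    refine hπ (C.rinj ?_)
    rw [map_zero]
    exact h
  have hps : ∀ a : A, p • C.i a = C.i (cv.π • a) := by
    intro a
    rw [hp, C.tow, map_smul]
  have hcc : ∀ u v, cc u v = p⁻¹ • (m (N + 1) u v - μ u v) := by
    intro u v
    rw [← hccp, smul_smul, inv_mul_cancel₀ hp0, one_smul]
  -- elements with the same reduction
  have hdiff : ∀ e e' : A, f.q e = f.q e' → ∃ y', p⁻¹ • (C.i e - C.i e') = C.i y' := by
    intro e e' h
    obtain ⟨y', hy'⟩ := f.ker (e - e') (by rw [map_sub, h, sub_self])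
    refine ⟨y', ?_⟩
    rw [← map_sub, hy', ← hps, smul_smul, inv_mul_cancel₀ hp0, one_smul]
  refine ⟨⟨tgt_wb2 hcc (hW2 (N + 1)) hμW, tgt_nrm hcc (hNr N) hμN, ?_⟩, ?_⟩
  · intro a₁ a₂ a₃
    have h := dm_dl D N (C.i a₁) (C.i a₂) (C.i a₃)
    rw [hD] at h
    have h' := dm_dl D₀ N (f.q a₁) (f.q a₂) (f.q a₃)
    have hR : Rl (C.i : A →+* B) f.q (dl (fun a b => m (N + 1) a b) (C.i a₁) (C.i a₂) (C.i a₃))
        (dl (fun a b => D₀.m (N + 1) a b) (f.q a₁) (f.q a₂) (f.q a₃)) := by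
      rw [h, h']
      refine rl_sum (C.i : A →+* B) f.q _ _ _ fun p hp => ?_
      obtain ⟨hp1, hp2, hp3⟩ := Finset.mem_filter.1 hp
      have hp4 := Finset.HasAntidiagonal.mem_antidiagonal.1 hp1
      obtain ⟨e1, he1, hq1⟩ := hI p.2 (by omega) a₁ a₂
      obtain ⟨e2, he2, hq2⟩ := hI p.2 (by omega) a₂ a₃
      obtain ⟨e3, he3, hq3⟩ := hI p.1 (by omega) e1 a₃
      obtain ⟨e4, he4, hq4⟩ := hI p.1 (by omega) a₁ e2
      refine ⟨e3 - e4, ?_, ?_⟩
      · show C.i (e3 - e4) = _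
        rw [map_sub, he3, he4, he1, he2]
      · rw [map_sub, hq3, hq4, hq1, hq2]
    obtain ⟨e, he, hqe⟩ := hR
    have he' : C.i e = dl (fun a b => m (N + 1) a b) (C.i a₁) (C.i a₂) (C.i a₃) := he
    obtain ⟨e', he1, he2⟩ := tgt_rl C.i f.q (fun a b => μ a b) (fun a b => D₀.m (N + 1) a b)
      hμR a₁ a₂ a₃
    obtain ⟨y', hy'⟩ := hdiff e e' (by rw [hqe, he2])
    exact ⟨y', by rw [tgt_dl hcc, ← he', ← he1, hy']⟩
  · intro hN
    obtain ⟨μ', hμ'W, hμ'N, hμ'R⟩ := MUB R K F V A A₀ B κ Ω W α lam x y b c C cv f α₀ D₀ (N + 1) hα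
    let c' : B →ₗ[K] B →ₗ[K] B := p⁻¹ • (μ' - m (N + 1 + 1))
    have hc' : ∀ x y, c' x y = p⁻¹ • (μ' x y - m (N + 1 + 1) x y) := fun x y => rfl
    refine ⟨c', tgt_wb2 hc' hμ'W (hW2 (N + 1 + 1)), tgt_nrm hc' hμ'N (hNr (N + 1)), ?_⟩
    intro a₁ a₂ a₃
    -- the modified coefficients
    let mt : ℕ → (B →ₗ[K] B →ₗ[K] B) := fun n => if n = N + 1 then μ else m n
    have hmt1 : mt (N + 1) = μ := by simp only [mt, if_true]
    have hmt2 : ∀ n, n ≠ N + 1 → mt n = m n := fun n hn => by simp only [mt]; rw [if_neg hn]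
    have hmtI : ∀ n ≤ N + 1, ∀ a₁ a₂, ∃ e, C.i e = mt n (C.i a₁) (C.i a₂) ∧
        f.q e = D₀.m n (f.q a₁) (f.q a₂) := by
      intro n hn a₁ a₂
      by_cases h : n = N + 1
      · rw [h, hmt1]
        exact hμR a₁ a₂
      · rw [hmt2 n h]
        exact hI n (by omega) a₁ a₂
    have h := dm_dl D (N + 1) (C.i a₁) (C.i a₂) (C.i a₃)
    rw [hD] at h
    have h' := dm_dl D₀ (N + 1) (f.q a₁) (f.q a₂) (f.q a₃)
    have hR : Rl (C.i : A →+* B) f.q
        (∑ p ∈ (antidiagonal (N + 1 + 1)).filter (fun p => p.1 ≠ 0 ∧ p.2 ≠ 0),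
          (mt p.1 (mt p.2 (C.i a₁) (C.i a₂)) (C.i a₃) -
            mt p.1 (C.i a₁) (mt p.2 (C.i a₂) (C.i a₃))))
        (dl (fun a b => D₀.m (N + 1 + 1) a b) (f.q a₁) (f.q a₂) (f.q a₃)) := by
      rw [h']
      refine rl_sum (C.i : A →+* B) f.q _ _ _ fun p hp => ?_
      obtain ⟨hp1, hp2, hp3⟩ := Finset.mem_filter.1 hp
      have hp4 := Finset.HasAntidiagonal.mem_antidiagonal.1 hp1
      obtain ⟨e1, he1, hq1⟩ := hmtI p.2 (by omega) a₁ a₂
      obtain ⟨e2, he2, hq2⟩ := hmtI p.2 (by omega) a₂ a₃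
      obtain ⟨e3, he3, hq3⟩ := hmtI p.1 (by omega) e1 a₃
      obtain ⟨e4, he4, hq4⟩ := hmtI p.1 (by omega) a₁ e2
      refine ⟨e3 - e4, ?_, ?_⟩
      · show C.i (e3 - e4) = _
        rw [map_sub, he3, he4, he1, he2]
      · rw [map_sub, hq3, hq4, hq1, hq2]
    obtain ⟨e, he, hqe⟩ := hR
    have he' : C.i e = _ := he
    obtain ⟨e', he1, he2⟩ := tgt_rl C.i f.q (fun a b => μ' a b)
      (fun a b => D₀.m (N + 1 + 1) a b) hμ'R a₁ a₂ a₃
    obtain ⟨y', hy'⟩ := hdiff e' e (by rw [hqe, he2])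
    -- the difference of the sums
    have hsum : dl (fun a b => m (N + 1 + 1) a b) (C.i a₁) (C.i a₂) (C.i a₃) - C.i e =
        p • brk (fun a b => m 1 a b) (fun a b => cc a b) (C.i a₁) (C.i a₂) (C.i a₃) := by
      rw [h, he', ← Finset.sum_sub_distrib]
      have hsub : ({(1, N + 1), (N + 1, 1)} : Finset (ℕ × ℕ)) ⊆
          (antidiagonal (N + 1 + 1)).filter (fun p => p.1 ≠ 0 ∧ p.2 ≠ 0) := by
        intro q hq
        simp only [Finset.mem_insert, Finset.mem_singleton] at hq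
        rw [Finset.mem_filter, Finset.HasAntidiagonal.mem_antidiagonal]
        rcases hq with rfl | rfl
        · refine ⟨?_, ?_, ?_⟩ <;> simp <;> omega
        · refine ⟨?_, ?_, ?_⟩ <;> simp <;> omega
      rw [← Finset.sum_subset hsub]
      · rw [Finset.sum_pair (by simp; omega)]
        simp only [hmt1, hmt2 1 (by omega)]
        simp only [brk, hcc]
        simp only [map_smul, map_sub, LinearMap.smul_apply, LinearMap.sub_apply, ← smul_sub,
          ← smul_add]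
        rw [smul_smul, mul_inv_cancel₀ hp0, one_smul]
        abel
      · intro q hq1 hq2
        rw [Finset.mem_filter, Finset.HasAntidiagonal.mem_antidiagonal] at hq1
        simp only [Finset.mem_insert, Finset.mem_singleton, Prod.ext_iff, not_or, not_and] at hq2
        rw [hmt2 q.1 (by omega), hmt2 q.2 (by omega), sub_self]
    refine ⟨y', ?_⟩
    have hb : brk (fun a b => m 1 a b) (fun a b => cc a b) (C.i a₁) (C.i a₂) (C.i a₃) =
        p⁻¹ • (dl (fun a b => m (N + 1 + 1) a b) (C.i a₁) (C.i a₂) (C.i a₃) - C.i e) := by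
      rw [hsum, smul_smul, inv_mul_cancel₀ hp0, one_smul]
    rw [← hy', tgt_dl hc', hb, ← he1, ← smul_add]
    congr 1
    abel

end Pool.Agent.PSS.H41
end
end -- Pool.Agent.Helper41_PSS.TGT

section -- Pool.Agent.Helper44_PSS.TGW

/-! Squad PSS (MP_6a3f1a_al), row TGW (helper44): the deformation with given first order term. -/

set_option autoImplicit false

open scoped BigOperators TensorProduct

noncomputable section

namespace Pool.Agent.PSS.H44

open Finset

theorem tgw (hTRX : TrxStmt) (hTRA : TraStmt) (hTRC : TrcStmt) (hLIM : LimStmt)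
    (hSTW : StwStmt) (hBIA : BiaStmt) : TgwStmt := by
  intro R K V E A B κ Ω _ _ _ _ _ _ _ _ _ _ _ _ _ _ _ φ W α lam x y b c C u hz hst hu g hg hg1
    hgd key
  -- start
  let P₀ : ℕ → (B →ₗ[K] B) := fun n => if n = 0 then LinearMap.id else if n = 1 then g else 0
  obtain ⟨m₀, hm₀⟩ := hTRX K V B (ia C.i α) W P₀ rfl
    (by
      intro n
      rcases n with _ | _ | n
      · intro w _ x; simp [P₀]
      · exact hg
      · intro w _ x; simp [P₀])
    (by
      intro n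
      rcases n with _ | n
      · exact hg1
      · simp [P₀])
  obtain ⟨⟨D, hD⟩, -, -⟩ := hTRA K V B (ia C.i α) W P₀ m₀ hm₀
  have hm0 : ∀ x y, m₀ 0 x y = x * y := by
    intro x y
    rw [← hD]
    exact D.m0 x y
  have hm1 : ∀ x y, m₀ 1 x y = d1 g x y := by
    intro x y
    have h := hm₀.pm 1 x y
    have ha : antidiagonal 1 = {((0 : ℕ), 1), (1, 0)} := rfl
    rw [ha, sum_pair (by decide), sum_pair (by decide)] at h
    simp only [P₀, if_true, one_ne_zero, if_false, LinearMap.id_coe, id_eq] at h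
    rw [hm0] at h
    rw [d1]
    rw [sub_add_eq_add_sub, h]
    abel
  obtain ⟨P, m, hT, hP, hI⟩ := H7.limTrv (β := ia C.i α) (W := W)
    (I := fun n μ => (∀ a₁ a₂, In C.i (μ (C.i a₁) (C.i a₂))) ∧
      (n = 1 → ∀ x y, μ x y = d1 g x y)) hTRX hTRC hLIM 1
    (fun n => (P₀ n, m₀ n))
    { p0 := hm₀.p0
      pw := fun n _ => hm₀.pw n
      p1 := fun n _ => hm₀.p1 n
      pm := fun n _ x y => hm₀.pm n x y
      int := fun n hn => by
        rcases n with _ | n
        · refine ⟨fun a₁ a₂ => ⟨a₁ * a₂, ?_⟩, fun h => absurd h (by decide)⟩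
          change C.i (a₁ * a₂) = m₀ 0 (C.i a₁) (C.i a₂)
          rw [hm0, map_mul]
        · obtain rfl : n = 0 := by omega
          refine ⟨fun a₁ a₂ => ?_, fun _ => hm1⟩
          change In C.i (m₀ 1 (C.i a₁) (C.i a₂))
          rw [hm1]
          exact hgd a₁ a₂ }
    (by
      intro P m N hN hT hI
      obtain ⟨hz2, hbi, -⟩ := hBIA R K V A B κ Ω W α lam x y b c C P m N hT
        (fun n hn => (hI n hn).1)
      have hfz : Fz C (m (N + 1)) := key (m 1) (m (N + 1)) ((hI 1 hN).2 rfl) hz2 (hbi hN)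
      obtain ⟨P', m', hT', hP', hI'⟩ := hSTW R K V E A B κ Ω φ W α lam x y b c C u hz hst hu P m N
        hT (fun n hn => (hI n hn).1) hfz
      have hmm := (hTRC K V B (ia C.i α) W P P' m m' N hT hT' hP').1
      refine ⟨P', m', hT', hP', fun n hn => ⟨hI' n hn, fun h1 => ?_⟩⟩
      subst h1
      rw [hmm 1 hN]
      exact (hI 1 hN).2 rfl)
  refine ⟨P, m, hT, ?_, fun n => (hI n).1⟩
  rw [hP 1 le_rfl]
  rfl

end Pool.Agent.PSS.H44
end
end -- Pool.Agent.Helper44_PSS.TGW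

section -- Pool.Agent.Helper55_PSS.TAW

/-!
# Squad PSS, row TAW (helper55): the projection onto a complement, any quotient `V / W`

Edit of Helper77_PSS/TAU.lean.
-/

set_option autoImplicit false

open scoped BigOperators TensorProduct

noncomputable section

namespace Pool.Agent.PSS.H55

open Pool.Agent.PSS
open Pool.Agent.PFD.D2b (FrR)
open Finset

theorem taw : TawStmt := by
  classical
  intro R K V E A B κ Ω _ _ _ _ _ _ _ _ _ _ _ _ _ _ _ φ W _ α lam x y b c C hV hS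
  obtain ⟨q, hq⟩ := H77T.exists_q hV hS
  obtain ⟨f1, f2, f3⟩ := C.frK
  -- the components
  let τ : V ⧸ W → (B →ₗ[K] B) := fun s =>
    ∑ ω, if q ω = s then (C.cK ω).smulRight (C.i (b ω)) else 0
  have hτ : ∀ s x, τ s x = ∑ ω, if q ω = s then C.cK ω x • C.i (b ω) else 0 := by
    intro s x
    simp only [τ]
    rw [LinearMap.sum_apply]
    refine Finset.sum_congr rfl fun ω _ => ?_
    split_ifs <;> rfl
  have hmove : ∀ (u w' : V), w' ∈ W → ∀ s x,
      bw K (ia C.i α) (u, w') (τ s x) = τ ((u : V ⧸ W) * s) (bw K (ia C.i α) (u, w') x) := by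
    intro u w' hw' s x
    rw [hτ, hτ, map_sum]
    conv_rhs => rw [← Equiv.sum_comp (MulAction.toPerm ((u, w') : V × V))]
    refine Finset.sum_congr rfl fun ω _ => ?_
    have e1 : (MulAction.toPerm ((u, w') : V × V)) ω = ((u, w') : V × V) • ω := rfl
    rw [e1, hq u w' hw' ω, f2]
    by_cases h : q ω = s
    · rw [if_pos h, if_pos (by rw [h]), map_smul]
      congr 1
      exact (f1 _ _).symm
    · rw [if_neg h, if_neg (fun h2 => h (mul_left_cancel h2)), map_zero]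
  have hbl : ∀ (v : V) (x : B), bw K (ia C.i α) (v, 1) x = C.i (α v) * x := by
    intro v x
    show C.i (α v) * (x * C.i (α (1 : V)⁻¹)) = _
    rw [inv_one, map_one, map_one, mul_one]
  have hbr : ∀ (v : V) (x : B), bw K (ia C.i α) (1, v⁻¹) x = x * C.i (α v) := by
    intro v x
    show C.i (α (1 : V)) * (x * C.i (α (v⁻¹)⁻¹)) = _
    rw [inv_inv, map_one, map_one, one_mul]
  refine ⟨τ 1, ?_, ?_, ?_⟩
  · intro a
    refine ⟨∑ ω, if q ω = 1 then c ω a • b ω else 0, ?_⟩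
    rw [hτ, map_sum]
    refine Finset.sum_congr rfl fun ω _ => ?_
    split_ifs
    · rw [map_smul, C.ck, C.tow]
    · rw [map_zero]
  · intro w hw x
    have hw1 : (w : V ⧸ W) = 1 := (QuotientGroup.eq_one_iff w).2 hw
    constructor
    · have h1 := hmove w 1 W.one_mem 1 x
      rw [hbl, hbl, hw1, mul_one] at h1
      exact h1.symm
    · have h1 := hmove 1 w⁻¹ (W.inv_mem hw) 1 x
      rw [hbr, hbr, mul_one, QuotientGroup.mk_one] at h1
      exact h1.symm
  · intro x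
    have h1 : ∀ s : V ⧸ W, C.i (α s.out) * τ 1 (C.i (α (s.out)⁻¹) * x) = τ s x := by
      intro s
      have h2 := hmove s.out 1 W.one_mem 1 (C.i (α (s.out)⁻¹) * x)
      rw [hbl, hbl, mul_one, ← mul_assoc (C.i (α s.out)), ← map_mul C.i, ← map_mul α,
        mul_inv_cancel, map_one, map_one, one_mul, QuotientGroup.out_eq'] at h2
      exact h2
    rw [Finset.sum_congr rfl fun s _ => h1 s, Finset.sum_congr rfl fun s _ => hτ s x,
      Finset.sum_comm]
    conv_rhs => rw [← f3 x]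
    refine Finset.sum_congr rfl fun ω _ => ?_
    rw [Finset.sum_ite_eq]
    rw [if_pos (Finset.mem_univ _)]

end Pool.Agent.PSS.H55
end
end -- Pool.Agent.Helper55_PSS.TAW

section -- Pool.Agent.Helper58_PSS.TLW

/-!
# Squad PSS, row TLW (helper58): a deformation of the special fibre with regular first order term lifts
-/

open scoped BigOperators TensorProduct

noncomputable section

namespace Pool.Agent.PSS.H58

open Pool.Agent.PFD.D2 (Cdv FibG)
open Pool.Agent.PFD.D2b (FrR)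
open Finset

theorem tlw (hTRX : TrxStmt) (hTRC : TrcStmt) (hLIM : LimStmt) (hBIA : BiaStmt)
    (hMUB : MubStmt) (hTGT : TgtStmt) (hFZ0 : Fz0Stmt) (hSTX : StxStmt) : TlwStmt := by
  intro R K F V E A A₀ B κ Ω _ _ _ _ _ _ _ _ _ _ _ _ _ _ _ _ _ _ _ _ _ φ W α lam x y b c C u cv f
    α₀ c₀ D₀ hWs hs hu hq hc hform key
  have hπ : cv.π ≠ 0 := by
    intro h
    have := cv.reg 1 (by rw [h, zero_mul])
    exact one_ne_zero this
  have hp0 : algebraMap R K cv.π ≠ 0 := by
    intro h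
    refine hπ (C.rinj ?_)
    rw [map_zero]
    exact h
  obtain ⟨P, m, hT, -, hI⟩ := Pool.Agent.PSS.H7.limTrv (β := ia C.i α) (W := W)
    (I := fun n μ => ∀ a₁ a₂, ∃ e, C.i e = μ (C.i a₁) (C.i a₂) ∧
      f.q e = D₀.m n (f.q a₁) (f.q a₂)) hTRX hTRC hLIM 0
    (fun _ => (LinearMap.id, LinearMap.mul K B))
    { p0 := rfl
      pw := fun n _ w _ x => ⟨rfl, rfl⟩
      p1 := fun n hn => absurd hn (by omega)
      pm := fun n hn x y => by
        obtain rfl : n = 0 := by omega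
        simp
      int := fun n hn a₁ a₂ => by
        obtain rfl : n = 0 := by omega
        refine ⟨a₁ * a₂, ?_, ?_⟩
        · rw [map_mul]
          rfl
        · rw [map_mul, D₀.m0] }
    (fun P m N _ hT hI => by
      obtain ⟨μ, hμ1, hμ2, hμ3⟩ := hMUB R K F V A A₀ B κ Ω W α lam x y b c C cv f α₀ D₀ N hq
      have hcc : ∀ u v, algebraMap R K cv.π • ((algebraMap R K cv.π)⁻¹ • (m (N + 1) - μ) :
          B →ₗ[K] B →ₗ[K] B) u v = m (N + 1) u v - μ u v := by
        intro u v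
        show algebraMap R K cv.π • ((algebraMap R K cv.π)⁻¹ • (m (N + 1) u v - μ u v)) = _
        rw [smul_smul, mul_inv_cancel₀ hp0, one_smul]
      obtain ⟨hZ, hB⟩ := hTGT R K F V A A₀ B κ Ω W α lam x y b c C cv f α₀ D₀ hq P m N μ _
        hT hI hμ1 hμ2 hμ3 hcc
      refine hSTX R K F V E A A₀ B κ Ω φ W α lam x y b c C u cv f α₀ D₀ hWs hs hu hq P m N μ _
        hT hI hμ3 hcc hZ ?_
      rcases Nat.eq_zero_or_pos N with hN | hN
      · subst hN
        exact hFZ0 R K F V A A₀ B κ Ω W α lam x y b c C cv f α₀ c₀ D₀ hq hc hform P m μ _ hT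
          hμ3 hcc
      · obtain ⟨-, -, hd⟩ := hBIA R K V A B κ Ω W α lam x y b c C P m N hT
          (fun n hn a₁ a₂ => by
            obtain ⟨e, he, -⟩ := hI n hn a₁ a₂
            exact ⟨e, he⟩)
        exact key (P 1) (m 1) _ (hT.pw 1) (hT.p1 0) hd (hI 1 hN) hZ (hB hN))
  exact ⟨P, m, hT, hI⟩

end Pool.Agent.PSS.H58
end
end -- Pool.Agent.Helper58_PSS.TLW

section -- Pool.Agent.Helper62_PSS.BIA

/-! Squad PSS (MP_6a3f1a_al), block OB, row BIA (helper62): the obstruction is a cocycle and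
satisfies the Bianchi identity. -/

open scoped BigOperators TensorProduct

noncomputable section

namespace Pool.Agent.PSS.H62

open Pool.Agent.PFD.D2 (Cdv FibG)
open Pool.Agent.PFD.D2b (FrR)
open Finset

theorem bia (TRA : TraStmt) : BiaStmt := by
  intro R K V A B κ Ω _ _ _ _ _ _ _ _ _ _ _ _ _ _ W α lam x y b c C P m N hT hI
  obtain ⟨⟨D, hD⟩, hW2, hNr⟩ := TRA K V B (ia C.i α) W P m hT
  -- the terms with both indices `≤ N`
  have hterm : ∀ p : ℕ × ℕ, p.1 ≤ N → p.2 ≤ N → ∀ a₁ a₂ a₃,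
      In C.i (m p.1 (m p.2 (C.i a₁) (C.i a₂)) (C.i a₃) -
        m p.1 (C.i a₁) (m p.2 (C.i a₂) (C.i a₃))) := by
    intro p h1 h2 a₁ a₂ a₃
    obtain ⟨e1, he1⟩ := hI p.2 h2 a₁ a₂
    obtain ⟨e2, he2⟩ := hI p.2 h2 a₂ a₃
    obtain ⟨e3, he3⟩ := hI p.1 h1 e1 a₃
    obtain ⟨e4, he4⟩ := hI p.1 h1 a₁ e2
    refine ⟨e3 - e4, ?_⟩
    show C.i (e3 - e4) = _
    rw [map_sub, he3, he4, he1, he2]
  refine ⟨⟨hW2 (N + 1), hNr N, ?_⟩, ?_, ?_⟩
  · intro a₁ a₂ a₃
    have h := H47.dm_dl D N (C.i a₁) (C.i a₂) (C.i a₃)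
    rw [hD] at h
    rw [h]
    refine H47.stn_in_sum (C.i : A →+* B) _ _ fun p hp => ?_
    obtain ⟨hp1, hp2, hp3⟩ := Finset.mem_filter.1 hp
    have hp4 := Finset.HasAntidiagonal.mem_antidiagonal.1 hp1
    exact hterm p (by omega) (by omega) a₁ a₂ a₃
  · intro hN
    refine ⟨-m (N + 2), ?_, ?_, ?_⟩
    · intro w hw x y
      obtain ⟨h1, h2, h3⟩ := hW2 (N + 2) w hw x y
      have e : ∀ s t : B, (-m (N + 2)) s t = -(m (N + 2) s t) := fun _ _ => rfl
      refine ⟨?_, ?_, ?_⟩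
      · change (-m (N + 2)) _ _ = _ * (-m (N + 2)) _ _
        rw [e, e, mul_neg]
        exact congrArg Neg.neg h1
      · change (-m (N + 2)) _ _ = (-m (N + 2)) _ _
        rw [e, e]
        exact congrArg Neg.neg h2
      · change (-m (N + 2)) _ _ = (-m (N + 2)) _ _ * _
        rw [e, e, neg_mul]
        exact congrArg Neg.neg h3
    · obtain ⟨h1, h2⟩ := hNr (N + 1)
      have e : ∀ s t : B, (-m (N + 2)) s t = -(m (N + 2) s t) := fun _ _ => rfl
      refine ⟨fun x => ?_, fun x => ?_⟩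
      · change (-m (N + 2)) _ _ = _
        rw [e]
        exact neg_eq_zero.2 (h1 x)
      · change (-m (N + 2)) _ _ = _
        rw [e]
        exact neg_eq_zero.2 (h2 x)
    · intro a₁ a₂ a₃
      have h := H47.dm_dl D (N + 1) (C.i a₁) (C.i a₂) (C.i a₃)
      rw [hD] at h
      let T : Finset (ℕ × ℕ) :=
        (antidiagonal (N + 2)).filter (fun p => p.1 ≠ 0 ∧ p.2 ≠ 0)
      let g : ℕ × ℕ → B := fun p => m p.1 (m p.2 (C.i a₁) (C.i a₂)) (C.i a₃) -
        m p.1 (C.i a₁) (m p.2 (C.i a₂) (C.i a₃))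
      have hs : dl (fun a b => m (N + 2) a b) (C.i a₁) (C.i a₂) (C.i a₃) = ∑ p ∈ T, g p := h
      have h1 := Finset.sum_filter_add_sum_filter_not T
        (fun p : ℕ × ℕ => 2 ≤ p.1 ∧ 2 ≤ p.2) g
      have h2 : T.filter (fun p : ℕ × ℕ => ¬ (2 ≤ p.1 ∧ 2 ≤ p.2)) =
          {(1, N + 1), (N + 1, 1)} := by
        ext ⟨i, j⟩
        simp only [T, Finset.mem_filter, Finset.HasAntidiagonal.mem_antidiagonal,
          Finset.mem_insert, Finset.mem_singleton, Prod.mk.injEq]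
        omega
      rw [h2, Finset.sum_pair (by
        intro h0
        have := congrArg Prod.fst h0
        change 1 = N + 1 at this
        omega)] at h1
      obtain ⟨e, he⟩ := H47.stn_in_sum (C.i : A →+* B)
        (T.filter (fun p : ℕ × ℕ => 2 ≤ p.1 ∧ 2 ≤ p.2)) g (fun p hp => by
          obtain ⟨hp1, hp2, hp3⟩ := Finset.mem_filter.1 hp
          have hp4 := Finset.HasAntidiagonal.mem_antidiagonal.1 (Finset.mem_filter.1 hp1).1
          exact hterm p (by omega) (by omega) a₁ a₂ a₃)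
      refine ⟨-e, ?_⟩
      have he' : C.i e = ∑ p ∈ T.filter (fun p : ℕ × ℕ => 2 ≤ p.1 ∧ 2 ≤ p.2), g p := he
      change C.i (-e) = _
      rw [map_neg, he']
      have h3 : dl (fun a b => (-m (N + 2)) a b) (C.i a₁) (C.i a₂) (C.i a₃) =
          -dl (fun a b => m (N + 2) a b) (C.i a₁) (C.i a₂) (C.i a₃) := by
        have e : ∀ s t : B, (-m (N + 2)) s t = -(m (N + 2) s t) := fun _ _ => rfl
        simp only [dl, e]
        noncomm_ring
      have h4 : brk (fun a b => m 1 a b) (fun a b => m (N + 1) a b) (C.i a₁) (C.i a₂) (C.i a₃) =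
          g (1, N + 1) + g (N + 1, 1) := by
        simp only [brk, g]
        abel
      rw [h3, h4, hs, ← h1]
      abel
  · intro x y
    have h := hT.pm 1 x y
    have ha : antidiagonal 1 = {((0 : ℕ), (1 : ℕ)), (1, 0)} := rfl
    rw [ha, Finset.sum_pair (by simp), Finset.sum_pair (by simp)] at h
    have hm0 : m 0 x y = x * y := by
      rw [← hD]
      exact D.m0 x y
    change P 0 x * P 1 y + P 1 x * P 0 y = P 0 (m 1 x y) + P 1 (m 0 x y) at h
    rw [hT.p0, hm0] at h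
    change x * P 1 y + P 1 x * y = m 1 x y + P 1 (x * y) at h
    change m 1 x y = x * P 1 y - P 1 (x * y) + P 1 x * y
    rw [← sub_eq_iff_eq_add] at h
    rw [← h]
    abel

end Pool.Agent.PSS.H62
end
end -- Pool.Agent.Helper62_PSS.BIA
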