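import Pool.Agent.Helper12_AWB.B017
import Pool.Agent.Helper12_AWB.B018

/-!
# Merged copies (generated) of the modules

* `Pool.Agent.PFE.StmtsE2b`
* `Pool.Agent.Helper10_PFE.LSE`
* `Pool.Agent.Helper91_PFD.RTC`
* `Pool.Agent.Helper13_PFE.ZOY`
* `Pool.Agent.Helper15_PFD.RFL`
* `Pool.Agent.Helper17_PFE.LSF`
* `Pool.Agent.Helper49_PFD.UNG`
* `Pool.Agent.Helper20_PFD.IDM`
* `Pool.Agent.Helper30_PFD.UNM`
* `Pool.Agent.Helper20_PFE.K1U`
* `Pool.Agent.Helper24_PFD.RWF`
* `Pool.Agent.Helper33_PFD.FRM`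
* `Pool.Agent.Helper33_PFD.LCU`
* `Pool.Agent.Helper92_PFD.ULF`
* `Pool.Agent.Helper20_PFE.LZE`
* `Pool.Agent.Helper22_PSS.RGV`
* `Pool.Agent.Helper25_PFE.HUL`
* `Pool.Agent.Helper25_PFE.S1Y`
* `Pool.Agent.Helper41_PFD.TFS`
* `Pool.Agent.Helper48_PFD.ZPN`
* `Pool.Agent.Helper40_PFE.TPR`
* `Pool.Agent.Helper41_PFE.YGR`
* `Pool.Agent.Helper41_PFE.ZPY`
* `Pool.Agent.Helper70_PFE.K1N`
* `Pool.Agent.Helper91_PFE.HSY`
* `Pool.Agent.Helper92_PFE.BLS`
-/

set_option autoImplicit false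

section -- Pool.Agent.PFE.StmtsE2b

/-!
# Squad PFE (theorem (R)), part E2, block 2: the local algebra over `R`, base change to `K` (helper3)

Conventions as in StmtsE2.lean.  `WS`: the local algebra `S` over `R` with the group `W`.
-/

open scoped BigOperators TensorProduct

noncomputable section

namespace Pool.Agent.PFE

open MulOpposite
open Pool.Agent.PFC.B1 (FS Split BiM Sep)
open Pool.Agent.PFD (RF)
open Pool.Agent.PFD.D2
open Pool.Agent.PFD.D2b (wrp FPl FrR WFS)

/-- the graded algebra `S` with its symmetric form, a homogeneous Frobenius system which is permuted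
by `W × W`, and the unit `rho` -/
structure WS {R S X : Type} (Ω W : Type) [CommRing R] [Ring S] [Algebra R S] [Group X] [Fintype X]
    [Fintype Ω] [CommGroup W] [Fintype W] [MulAction (W × W) Ω] (G : GS R S X) where
  f : FS R S Ω
  sy : ∀ a b, f.lam (a * b) = f.lam (b * a)
  t1 : ∀ x s, x ≠ 1 → f.lam (G.c x s) = 0
  deg : Ω → X
  dg : ∀ (w : W × W) (o : Ω), deg (w • o) = deg o
  fo : ∀ (w : W) (o : Ω), ((1, w) : W × W) • o = o → w = 1
  gb : ∀ o, G.c (deg o) (f.b o) = f.b o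
  gb' : ∀ o, G.c (deg o)⁻¹ (f.b' o) = f.b' o
  om : W →* S
  o1 : ∀ w, G.c 1 (om w) = om w
  bw : ∀ (w : W × W) (o : Ω), f.b (w • o) = om w.1 * f.b o * om w.2⁻¹
  bw' : ∀ (w : W × W) (o : Ω), f.b' (w • o) = om w.2 * f.b' o * om w.1⁻¹
  rho : S
  rc : ∀ s, rho * s = s * rho
  ru : IsUnit rho
  rr : ∑ o, f.b o * f.b' o = (Fintype.card W : R) • rho

/-! ## The local algebra over `R` -/

/-- LSE: the local algebra exists.

Proof.  In `MonoidAlgebra A X` (an `R`-algebra) the elements `n` with `n.coeff x ∈ Nx y χ x` for all `x` form a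
subalgebra `N` (`Nx_mul`, `Nx_one`), those with `n.coeff x ∈ Jx y l χ x` form a two-sided ideal `J` of `N` (TXA).
`S = N / J`, `p x a` = the class of `single x a`, `c x` = the map induced by `n ↦ single x (n.coeff x)`.
(Any other model is fine, e.g. a subtype of `X → A` with the convolution product and `RingCon`.) -/
def LseStmt : Prop :=
  ∀ (R A X : Type) [CommRing R] [Ring A] [Algebra R A] [Group X] [Fintype X] (y : A) (l : ℕ)
    (χ : X →* R), 1 ≤ l → y ^ l = 0 → (∀ x, χ x ^ (l - 1) = 1) →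
    ∃ (S : Type) (_ : Ring S) (_ : Algebra R S), Nonempty (LS R A X S y l χ)

/-- LSF: the special fibre of the local algebra.

Proof.  For `s ∈ S` choose `a_x ∈ Nx` with `L.p x a_x = L.c x s`, `fs.q s = ∑_x L0.p x (fb.q a_x)`
(`fb.q a_x ∈ Nx y0 χ0 x`).  Independent of the choice: `a ∈ Jx y l χ x` implies `fb.q a ∈ Jx y0 l χ0 x` (TXA (3)).
Additive, multiplicative (`c x (s s') = ∑_z (c z s)(c (z⁻¹x) s')`), `1 ↦ 1`, `sc`.  Surjective: hypothesis.
`ker`: `fs.q s = 0` gives `L0.p x (fb.q a_x) = 0` (apply `L0.c x`), so `fb.q a_x = T(b0) + y0 n0` (`L0.ker`,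
TXA (3)); lift `b0` to `b`, `n0` to `n ∈ Nx` (hypothesis): `a_x - T(b) - y n = π a'` (`fb.ker`), `a' ∈ Nx` (`π` is
regular on the free module `A1`), `L.p x a_x = π L.p x a'`. -/
def LsfStmt : Prop :=
  ∀ (R F A A1 X S S0 : Type) [CommRing R] [Field F] (c : Cdv R F) [Ring A] [Algebra F A]
    [Ring A1] [Algebra R A1] [Module.Free R A1] [Group X] [Fintype X] [Ring S] [Algebra R S]
    [Ring S0] [Algebra F S0] (fb : FibG A1 A c) (y : A1) (y0 : A) (l : ℕ) (χ : X →* R)
    (χ0 : X →* F) (L : LS R A1 X S y l χ) (L0 : LS F A X S0 y0 l χ0), 1 ≤ l → y ^ l = 0 →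
    fb.q y = y0 → (∀ x, c.κ (χ x) = χ0 x) → (∀ x, χ x ^ (l - 1) = 1) →
    (∀ x, ∀ a0 ∈ Nx y0 χ0 x, ∃ a ∈ Nx y χ x, fb.q a = a0) →
    ∃ fs : FibG S S0 c, (∀ x (a : Nx y χ x) (a0 : Nx y0 χ0 x), (a0 : A) = fb.q (a : A1) →
      fs.q (L.p x a) = L0.p x a0) ∧ ∀ x s, fs.q (L.c x s) = L0.c x (fs.q s)

/-- SFR: an algebra with a Frobenius system over a principal ideal domain is finite and free.

Proof.  Spanned by the `b i` (`h1`).  Torsion free: `r • s = 0`, `r ≠ 0` gives `r * lam (b' i * s) = 0` for all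
`i`, so `s = 0` by `h1`. -/
def SfrStmt : Prop :=
  ∀ (R S I : Type) [CommRing R] [IsDomain R] [IsPrincipalIdealRing R] [Ring S] [Algebra R S]
    [Fintype I] (_ : FS R S I), Module.Finite R S ∧ Module.Free R S

/-- TSV: representatives of the orbits of a free action.

Proof.  `W` acts on `Ω` by `(1, w)`, freely.  `T` = the set of the representatives (`Quotient.out`) of the
orbits; `(t, w) ↦ (1, w) • t` is a bijection `T × W → Ω`. -/
def TsvStmt : Prop :=
  ∀ (Ω W : Type) [Fintype Ω] [CommGroup W] [Fintype W] [MulAction (W × W) Ω],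
    (∀ (w : W) (o : Ω), ((1, w) : W × W) • o = o → w = 1) →
    ∃ T : Finset Ω, ∀ (M : Type) [AddCommMonoid M] (H : Ω → M),
      ∑ o, H o = ∑ t ∈ T, ∑ w : W, H (((1, w) : W × W) • t)

/-- WSE: the structure `WS` of the local algebra.

Proof.  `f` from STF.  `om w = p_1 (Y.om w)` (a homomorphism by `L.mul`, `L.one`), `bw`, `bw'` from `Y.gw`, `Y.gw'`.
`rho = p_1 (Y.rho)`: central, since `S` is spanned by the `p_x a`; unit (the inverse of `rho` commutes with
`y`, it is in `N_1`).  `rr`: `RT 1 = ∑_o g_o g'_o + ∑_o ∑_i y^i h_o h'_o y^(l-1-i) = ∑_o g_o g'_o + T_1(∑_o h_o h'_o)`;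
apply `p_1` (`g_o g'_o ∈ N_1`, the last term is in `J_1`). -/
def WseStmt : Prop :=
  ∀ (R A X S J Ω Ω' W : Type) [CommRing R] [Ring A] [Algebra R A] [Group X] [Fintype X]
    [Ring S] [Algebra R S] [Fintype J] [Fintype Ω] [Fintype Ω'] [CommGroup W] [Fintype W]
    [MulAction (W × W) Ω] [MulAction (W × W) Ω'] (y : A) (l : ℕ) (χ : X →* R)
    (D : Yd R A X J Ω Ω' y l χ) (Y : YG W D) (L : LS R A X S y l χ),
    ∃ E : WS Ω W L.toGS, E.deg = D.deg ∧ (∀ o, E.f.b o = L.p (D.deg o) ⟨D.g o, D.gy o⟩) ∧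
      (∀ o h, E.f.b' o = L.p (D.deg o)⁻¹ ⟨D.g' o, h⟩) ∧
      (∀ w h, E.om w = L.p 1 ⟨Y.om w, h⟩) ∧ ∀ h, E.rho = L.p 1 ⟨Y.rho, h⟩

/-- HUL: homogeneous units lift.

Proof.  `fs.q s = g`, `G.c x s` reduces to `G0.c x g = g`, so it is a unit (`UnmStmt`; then the two-sided
inverse). -/
def HulStmt : Prop :=
  ∀ (R F S S0 X : Type) [CommRing R] [Field F] (c : Cdv R F) [Ring S] [Algebra R S]
    [Module.Finite R S] [Module.Free R S] [Ring S0] [Algebra F S0] [Group X] [Fintype X]
    (G : GS R S X) (G0 : GS F S0 X) (fs : FibG S S0 c),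
    (∀ x s, fs.q (G.c x s) = G0.c x (fs.q s)) →
    (∀ x, ∃ g g' : S0, G0.c x g = g ∧ g * g' = 1 ∧ g' * g = 1) →
    ∀ x, ∃ g g' : S, G.c x g = g ∧ g * g' = 1 ∧ g' * g = 1

/-- WFX: elements of `S` which commute with `W` modulo `π` lift.

Proof.  `W × W` acts on `S` by `(u, v) s = om u s om v⁻¹`; permutation frame `f.b o`, functionals
`lam (f.b' o * ·)` (`bw`, `bw'`, `sy`).  `FpfStmt` for the subgroup `{(w, w)}`. -/
def WfxStmt : Prop :=
  ∀ (R S X Ω W : Type) [CommRing R] [Ring S] [Algebra R S] [Group X] [Fintype X]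
    [Fintype Ω] [CommGroup W] [Fintype W] [MulAction (W × W) Ω] (G : GS R S X)
    (E : WS Ω W G) (p : R) (s : S), (∀ w, ∃ t, E.om w * s - s * E.om w = p • t) →
    ∃ s', (∀ w, E.om w * s' = s' * E.om w) ∧ ∃ t, s' - s = p • t

/-- ZSY: the centre of the local algebra lifts.

Proof.  Lift `z0` to `s1`, then (WFX) to `s2` which commutes with the `om w`.  `T` from TSV (`E.fo`).  For `s` which
commutes with the `om w` put `RW s = ∑_(t ∈ T) b_t s b'_t`.  `b_((1,w)t) s b'_((1,w)t) = b_t om w⁻¹ s om w b'_t = b_t s b'_t`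
(`bw`, `bw'`), so `∑_o b_o s b'_o = |W| RW s`; the left side is central (`a b_o = ∑_o' lam(b'_o' a b_o) b_o'`, `h1`, `h2`),
so `RW s` is central (`|W| ≠ 0` in `R`, `S` is free over the domain `R`).  `|W| RW 1 = |W| rho`, so `RW 1 = rho`, a
central unit.  `z = RW s2 * rho⁻¹`; `fs.q (RW s2) = ∑_T b̄_t z0 b̄'_t = z0 * fs.q (RW 1)`. -/
def ZsyStmt : Prop :=
  ∀ (R F S S0 X Ω W : Type) [CommRing R] [IsDomain R] [CharZero R] [Field F] (c : Cdv R F)
    [Ring S] [Algebra R S] [Module.Finite R S] [Module.Free R S] [Ring S0] [Algebra F S0]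
    [Group X] [Fintype X] [Fintype Ω] [CommGroup W] [Fintype W] [MulAction (W × W) Ω]
    (G : GS R S X) (_ : WS Ω W G) (fs : FibG S S0 c),
    ∀ z0 : S0, (∀ s, z0 * s = s * z0) → ∃ z : S, (∀ s, z * s = s * z) ∧ fs.q z = z0

/-- K1N: the relative trace of `1` in degree `1` is a unit or nilpotent modulo `π`.

Proof.  `K = ∑_(t ∈ T, deg t = 1) g_t g'_t`, `κ1 = p_1 K`.  `H o = g_o g'_o` for `deg o = 1`, else `0`:
`H ((1,w) o) = H o`, `H ((u,1) o) = om u (H o) om u⁻¹`, so `∑_o H o = |W| K` and `om u (|W| K) om u⁻¹ = |W| K`; `K` commutes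
with the `om u` (`A1` free, `|W| ≠ 0`) and with `y`.  So `K0 = fb.q K` commutes with `y0`, `fb.q (om w)`: it is a unit
(its inverse commutes with `y0`, so it is in `N_1`) or nilpotent, and so is `L0.p 1 K0 = fs.q κ1`. -/
def K1nStmt : Prop :=
  ∀ (R F A A1 X S S0 J Ω Ω' W : Type) [CommRing R] [IsDomain R] [CharZero R] [Field F]
    (c : Cdv R F) [Ring A] [Algebra F A] [Ring A1] [Algebra R A1] [Module.Free R A1] [Group X]
    [Fintype X] [DecidableEq X] [Ring S] [Algebra R S] [Ring S0] [Algebra F S0] [Fintype J]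
    [Fintype Ω] [Fintype Ω'] [CommGroup W] [Fintype W] [MulAction (W × W) Ω]
    [MulAction (W × W) Ω'] (fb : FibG A1 A c) (y : A1) (y0 : A) (l : ℕ) (χ : X →* R)
    (χ0 : X →* F) (D : Yd R A1 X J Ω Ω' y l χ) (Y : YG W D) (L : LS R A1 X S y l χ)
    (L0 : LS F A X S0 y0 l χ0) (fs : FibG S S0 c), fb.q y = y0 →
    (∀ x (a : Nx y χ x) (a0 : Nx y0 χ0 x), (a0 : A) = fb.q (a : A1) →
      fs.q (L.p x a) = L0.p x a0) →
    (∀ a : A, y0 * a = a * y0 → (∀ w, fb.q (Y.om w) * a = a * fb.q (Y.om w)) →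
      IsUnit a ∨ IsNilpotent a) →
    ∀ (E : WS Ω W L.toGS), E.deg = D.deg → (∀ o, E.f.b o = L.p (D.deg o) ⟨D.g o, D.gy o⟩) →
    (∀ o h, E.f.b' o = L.p (D.deg o)⁻¹ ⟨D.g' o, h⟩) →
    ∀ T : Finset Ω, (∀ (M : Type) [AddCommMonoid M] (H : Ω → M),
      ∑ o, H o = ∑ t ∈ T, ∑ w : W, H (((1, w) : W × W) • t)) →
    IsUnit (fs.q (∑ t ∈ T, if E.deg t = 1 then E.f.b t * E.f.b' t else 0)) ∨
      IsNilpotent (fs.q (∑ t ∈ T, if E.deg t = 1 then E.f.b t * E.f.b' t else 0))

/-- K1U: the relative trace of `1` in degree `1` is a unit.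

Proof.  `κ1 = ∑_(t ∈ T, deg t = 1) b_t b'_t`, `|W| κ1 = C_1`, `C_x = ∑_(deg o = x) b_o b'_o` (`bw`, `bw'`, `dg`).
HUL: `m_x ∈ S` homogeneous units of degree `x`; `m_x⁻¹` has degree `x⁻¹`.  `C_x = m_x C_1 m_x⁻¹`: for `deg o' = x`
`b_o' = m_x (m_x⁻¹ b_o') = ∑_(deg o = 1) lam(b'_o m_x⁻¹ b_o') m_x b_o` (`h1`, `t1`), and `∑_(deg o' = x) lam(b'_o m_x⁻¹ b_o') b'_o' =
b'_o m_x⁻¹` (`h2`, `t1`).  So `∑_x m_x κ1 m_x⁻¹ = rho` (cancel `|W|`; `rr`).  `κ1` has degree `1` and commutes with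
the elements of degree `1` (`C_1` does, as in ZSY with `t1`).  If `fs.q κ1` is a unit, UNM.  Otherwise it is
nilpotent; the `fs.q (m_x κ1 m_x⁻¹)` are nilpotent and commute with each other (they have degree `1` and commute
with the elements of degree `1`), so their sum `fs.q rho` is nilpotent, and a unit: `1 = 0` in `S0`, so
`fs.q κ1` is a unit. -/
def K1uStmt : Prop :=
  ∀ (R F S S0 X Ω W : Type) [CommRing R] [IsDomain R] [CharZero R] [Field F] (c : Cdv R F)
    [Ring S] [Algebra R S] [Module.Finite R S] [Module.Free R S] [Ring S0] [Algebra F S0]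
    [Group X] [Fintype X] [DecidableEq X] [Fintype Ω] [CommGroup W] [Fintype W]
    [MulAction (W × W) Ω] (G : GS R S X) (G0 : GS F S0 X) (E : WS Ω W G) (fs : FibG S S0 c),
    (∀ x s, fs.q (G.c x s) = G0.c x (fs.q s)) →
    (∀ x, ∃ g g' : S0, G0.c x g = g ∧ g * g' = 1 ∧ g' * g = 1) →
    ∀ T : Finset Ω, (∀ (M : Type) [AddCommMonoid M] (H : Ω → M),
      ∑ o, H o = ∑ t ∈ T, ∑ w : W, H (((1, w) : W × W) • t)) →
    (IsUnit (fs.q (∑ t ∈ T, if E.deg t = 1 then E.f.b t * E.f.b' t else 0)) ∨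
      IsNilpotent (fs.q (∑ t ∈ T, if E.deg t = 1 then E.f.b t * E.f.b' t else 0))) →
    IsUnit (∑ t ∈ T, if E.deg t = 1 then E.f.b t * E.f.b' t else 0)

/-- S1Y: the centre of the part of degree `1` lifts.

Proof.  Lift `z0` to `s1`, replace it by `G.c 1 s1`; it commutes with the `om w` modulo `π` (`z0` is central in the
part of degree `1`, `o1`, `fs.ker`); WFX, then apply `G.c 1` again (`o1`): `s2` of degree `1` commutes with the `om w`.  For
such `s` put `RW s = ∑_(t ∈ T, deg t = 1) b_t s b'_t`; `|W| RW s = ∑_(deg o = 1) b_o s b'_o` commutes with the elements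
of degree `1` (`a b_o = ∑_(deg o' = 1) lam(b'_o' a b_o) b_o'`, `t1`).  `RW 1 = κ1`; its inverse has degree `1`.
`z = RW s2 * κ1⁻¹`, `fs.q (RW s2) = z0 * fs.q κ1`. -/
def S1yStmt : Prop :=
  ∀ (R F S S0 X Ω W : Type) [CommRing R] [IsDomain R] [CharZero R] [Field F] (c : Cdv R F)
    [Ring S] [Algebra R S] [Module.Finite R S] [Module.Free R S] [Ring S0] [Algebra F S0]
    [Group X] [Fintype X] [DecidableEq X] [Fintype Ω] [CommGroup W] [Fintype W]
    [MulAction (W × W) Ω] (G : GS R S X) (G0 : GS F S0 X) (E : WS Ω W G) (fs : FibG S S0 c),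
    (∀ x s, fs.q (G.c x s) = G0.c x (fs.q s)) →
    ∀ T : Finset Ω, (∀ (M : Type) [AddCommMonoid M] (H : Ω → M),
      ∑ o, H o = ∑ t ∈ T, ∑ w : W, H (((1, w) : W × W) • t)) →
    IsUnit (∑ t ∈ T, if E.deg t = 1 then E.f.b t * E.f.b' t else 0) →
    ∀ z0 : G0.S1, (∀ s, z0 * s = s * z0) →
      ∃ z : G.S1, (∀ s, z * s = s * z) ∧ fs.q (z : S) = (z0 : S0)

/-- S1F: the special fibre of the part of degree `1`.

Proof.  Restrict `fs.q`; surjective: apply `G.c 1` to a lift; `ker`: `s = π t` gives `s = G.c 1 s = π G.c 1 t`.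
`G.S1` is the range of the projector `G.c 1`: a submodule of a finite free module over a principal
ideal domain. -/
def S1fStmt : Prop :=
  ∀ (R F S S0 X : Type) [CommRing R] [IsDomain R] [IsPrincipalIdealRing R] [Field F]
    (c : Cdv R F) [Ring S] [Algebra R S] [Module.Finite R S] [Module.Free R S] [Ring S0]
    [Algebra F S0] [Group X] [Fintype X] (G : GS R S X) (G0 : GS F S0 X) (fs : FibG S S0 c),
    (∀ x s, fs.q (G.c x s) = G0.c x (fs.q s)) →
    Module.Finite R G.S1 ∧ Module.Free R G.S1 ∧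
      ∃ f1 : FibG G.S1 G0.S1 c, ∀ s : G.S1, ((f1.q s : G0.S1) : S0) = fs.q (s : S)

/-! ## Base change to `K` -/

/-- BYD: base change of the frame.

Proof.  `BfsStmt` for `D.d`; all the identities are linear in `a`: check them on `k ⊗ a`. -/
def BydStmt : Prop :=
  ∀ (R K A X J Ω Ω' : Type) [CommRing R] [Field K] [Algebra R K] [Ring A] [Algebra R A]
    [Group X] [Fintype J] [Fintype Ω] [Fintype Ω'] (y : A) (l : ℕ) (χ : X →* R) (χK : X →* K)
    (D : Yd R A X J Ω Ω' y l χ), (∀ x, χK x = algebraMap R K (χ x)) →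
    ∃ D' : Yd K (K ⊗[R] A) X J Ω Ω' ((1 : K) ⊗ₜ[R] y) l χK,
      D'.RT 1 = (1 : K) ⊗ₜ[R] D.RT 1

/-- BLS: base change of the local algebra.

Proof.  `K` is flat over `R`.  `N'_x = Nx (1 ⊗ y) χK x` is the kernel of the base change of
`δ a = y a - χ(x) a y`, so it is the image of `K ⊗ N_x` (injective; `Module.Flat.ker_lTensor_eq` or similar), and `p'_x` is the
base change of `p_x` on `K ⊗ N_x ≃ N'_x`.  Its kernel is the image of `K ⊗ J_x` (flat again, `L.ker`), and this is
`Jx (1 ⊗ y) l χK x`: `Tx` of `k ⊗ a` is `k ⊗ Tx a`, `(1 ⊗ y) (k ⊗ n) = k ⊗ y n`.  `c' x` = the base change of `c x`;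
`pc`, `ps`, `mul`, `one`, `cs` .. on pure tensors. -/
def BlsStmt : Prop :=
  ∀ (R K A X S : Type) [CommRing R] [IsDomain R] [IsPrincipalIdealRing R] [Field K]
    [Algebra R K] [FaithfulSMul R K] [Ring A] [Algebra R A] [Group X] [Fintype X] [Ring S]
    [Algebra R S] (y : A) (l : ℕ) (χ : X →* R) (χK : X →* K) (L : LS R A X S y l χ),
    (∀ x, χK x = algebraMap R K (χ x)) →
    ∃ L' : LS K (K ⊗[R] A) X (K ⊗[R] S) ((1 : K) ⊗ₜ[R] y) l χK,
      ∀ x k s, L'.c x (k ⊗ₜ[R] s) = k ⊗ₜ[R] L.c x s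

/-- BS1: the centre of the part of degree `1`.

Proof.  `G.S1` is finite and free (S1F).  `K ⊗ G.S1 → G'.S1`, `k ⊗ s ↦ k ⊗ s`, is an isomorphism of algebras:
injective (flat), surjective (`m = G'.c 1 m = ∑ k_i ⊗ G.c 1 s_i`).  `CnkStmt` for `G.S1`. -/
def Bs1Stmt : Prop :=
  ∀ (R K S X : Type) [CommRing R] [IsDomain R] [IsPrincipalIdealRing R] [Field K]
    [Algebra R K] [FaithfulSMul R K] [Ring S] [Algebra R S] [Module.Finite R S]
    [Module.Free R S] [Group X] [Fintype X] (G : GS R S X) (G' : GS K (K ⊗[R] S) X),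
    (∀ x k s, G'.c x (k ⊗ₜ[R] s) = k ⊗ₜ[R] G.c x s) →
    Module.finrank K (Subalgebra.center K G'.S1) = Module.finrank R (Subalgebra.center R G.S1)

/-! ## The level of `K` -/

/-- HSY: the Hattori-Stallings rank over `K[y]`.

Proof.  `P a = ∑_(i<l) λ(y^(l-1-i) a) X^i ∈ K[X]` (polynomials, modulo `X^l`).  `P(a y^k) = X^k P(a)` modulo `X^l`
(`λ` symmetric, `y^l = 0`), so `P(a pi(b)) = P(a) P(b)` modulo `X^l`, `pi(b) = ∑_k λ(y^(l-1-k) b) y^k`.
`M_(r,s) = P(e'_r e e_s)` is idempotent modulo `X^l`: `∑_s P(e'_r e e_s) P(e'_s e e_t) =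
P(e'_r e ∑_s e_s pi(e'_s e e_t)) = P(e'_r e e e_t)` (RTK (1)).  With the derivation `v = X d/dX` of `K[X]`
(it preserves the ideal `X^l`): `v M = (v M) M + M (v M)`, so `M (v M) M = 0` and `tr (v M) = 2 tr (M (v M)) =
2 tr (M (v M) M) = 0` modulo `X^l`, so `v (tr M) = 0` modulo `X^l` and the coefficient of `X^(l-1)` in `tr M` is `0`
(`l ≥ 2`, characteristic `0`).  It is `∑_r λ(e'_r e e_r) = λ(RT(1) e)`. -/
def HsyStmt : Prop :=
  ∀ (K A X J Ω Ω' : Type) [Field K] [CharZero K] [Ring A] [Algebra K A] [Group X]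
    [Fintype J] [Fintype Ω] [Fintype Ω'] (y : A) (l : ℕ) (χ : X →* K)
    (D : Yd K A X J Ω Ω' y l χ) (e : A), e * e = e → D.d.lam (D.RT 1 * e) = 0

/-- ZPY: traces from `1` are nilpotent (the proof of PFD ZPN, `Helper48_PFD/ZPN.lean`).

Proof.  `TA a = ∑ b_p a b'_p` is central and `z TA a = TA (z a)` for central `z`.  Suppose `TA a` is not
nilpotent.  IDM for the centre and `x = TA a`: `e = x z = TA (a z)`, put `b = a z`.
(1) If `ν` is central and nilpotent with `ν e = ν` then `ν = 0`: for all `s` `lam (ν s) = ∑_p lam (ν b_p b b'_p s) =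
∑_p lam (b'_p (ν b b_p s))` is the trace of `a ↦ ν b a s` (TFS), a nilpotent map, so `0`.
(2) So `e z = k e` for all central `z` (with `k` in `K`).  (3) `c = ∑ b_p b'_p` is central; the trace of `a ↦ e a` is
`∑ lam (b'_p e b_p) = lam (e c) = k lam e`, and it is the dimension of `e A`, not `0`; so `lam e ≠ 0`.
(4) `e y0 = k e`, `k ≠ 0` (`y0` a unit), and `lam (y0 e) = 0`, so `lam e = 0`. -/
def ZpyStmt : Prop :=
  ∀ (K A J : Type) [Field K] [CharZero K] [IsAlgClosed K] [Ring A] [Algebra K A]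
    [Module.Finite K A] [Fintype J] (d : FS K A J) (y0 : A),
    (∀ a b, d.lam (a * b) = d.lam (b * a)) → (∀ a, y0 * a = a * y0) → IsUnit y0 →
    (∀ e, e * e = e → d.lam (y0 * e) = 0) → ∀ a, IsNilpotent (∑ p, d.b p * a * d.b' p)

/-- YKY: the data over `K`.

Proof.  `RT 1` is central (RTK (3)); `w` = its inverse, central; `RT w = RT (w * 1) = w * RT 1 = 1` (RTK (4)).
`np`: ZPY with `y0 = RT 1`, HSY. -/
def YkyStmt : Prop :=
  ∀ (K A X J Ω Ω' : Type) [Field K] [CharZero K] [IsAlgClosed K] [Ring A] [Algebra K A]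
    [Module.Finite K A] [Group X] [Fintype J] [Fintype Ω] [Fintype Ω'] (y : A) (l : ℕ)
    (χ : X →* K) (D : Yd K A X J Ω Ω' y l χ), IsUnit (D.RT 1) →
    ∃ E : Yk K A X J Ω Ω' y l χ, E.toYd = D

/-- TPR: the dimension formula over `F` (assembly).

Proof.  `R` = the Witt vectors, `c`, `o` (PFD WIT; `IsDomain`, `IsPrincipalIdealRing`, `CharZero` from `o`).
GEX: `Γ`, `GR`, `f`.  `χR = o.τ.comp χ`, `κ (χR x) = χ x`, `χR x ^ (ℓ-1) = 1`, `1 - χR x` is a unit for `x ≠ 1` (`c.loc`).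
LYE, LZE: `A1`, `lz`.  ZOY, CNR, CNK: `dim Z(A) = dim Z(K ⊗ A1)`, `K` = the algebraic closure of the fraction
field of `R`.  FSY, YDR, YGR: `D`, `Y`.  LSE: `S_R`, `L_R`; NXO, LSF (`y0 = fl.j G.y`): `fs`.  STF, SFR: `S_R` finite, free.
WSE: `E`; ZSY, CNR, CNK: `dim Z(S) = dim Z(K ⊗ S_R)`.  Homogeneous units of `S`: `L.p x n`, `n` from `fl.uni`.  TSV, K1N
(with `fl.loc`: an element which commutes with `j G.y` and the `j (G.om w)` commutes with `j Γ0`), K1U, S1Y, S1F, CNR, BS1: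
`dim Z(L.toGS.S1)`.  HUL: homogeneous units of `S_R`, so of `K ⊗ S_R`.  BYD, YKY (`RT 1 = |W| rho`), BLS, TPE. -/
def TprStmt : Prop :=
  ∀ (F Γ0 W A N K Ω Ω' X S : Type) [Field F] [IsAlgClosed F] [CommRing Γ0] [Algebra F Γ0]
    [FiniteDimensional F Γ0] [CommGroup W] [Fintype W] [Ring A] [Algebra F A]
    [FiniteDimensional F A] [Group X] [Fintype X] [Fintype N] [Fintype K] [Fintype Ω]
    [Fintype Ω'] [MulAction (W × W) Ω] [MulAction (W × W) Ω'] [Ring S] [Algebra F S] (ℓ : ℕ)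
    [Fact ℓ.Prime] [CharP F ℓ] (G : GY F Γ0 W ℓ) (χ : X →* F) (fl : FLv A N K Ω Ω' G χ)
    (L : LS F A X S (fl.j G.y) ℓ χ), (∀ x, χ x ^ (ℓ - 1) = 1) → (∀ x, χ x = 1 → x = 1) →
    Module.finrank F (Subalgebra.center F A) =
      Module.finrank F (Subalgebra.center F S) +
        (ℓ - 1) / Fintype.card X * Module.finrank F (Subalgebra.center F L.toGS.S1)

end Pool.Agent.PFE
end
end -- Pool.Agent.PFE.StmtsE2b

section -- Pool.Agent.Helper10_PFE.LSE

/-!
# PFE, block E2, row LSE: the local algebra exists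
-/

set_option autoImplicit false

open scoped BigOperators TensorProduct

noncomputable section

namespace Pool.Agent.PFE.H10

open Pool.Agent.PFE

theorem lse_desc {R N S T : Type} [CommRing R] [AddCommGroup N] [Module R N] [AddCommGroup S]
    [Module R S] [AddCommGroup T] [Module R T] (π : N →ₗ[R] S) (hπ : Function.Surjective π)
    (f : N →ₗ[R] T) (h : ∀ n, π n = 0 → f n = 0) : ∃ g : S →ₗ[R] T, ∀ n, g (π n) = f n := by
  choose σ hσ using hπ
  have key : ∀ n n', π n = π n' → f n = f n' := by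
    intro n n' hn
    have h1 := h (n - n') (by rw [map_sub, hn, sub_self])
    rw [map_sub, sub_eq_zero] at h1
    exact h1
  refine ⟨{ toFun := fun s => f (σ s), map_add' := ?_, map_smul' := ?_ }, ?_⟩
  · intro s t
    rw [← map_add]
    apply key
    rw [hσ, map_add, hσ, hσ]
  · intro r s
    rw [RingHom.id_apply, ← map_smul]
    apply key
    rw [hσ, map_smul, hσ]
  · intro n
    apply key
    exact hσ _

section lse

open Classical in
/-- invariant matrices with entries in the `Nx` -/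
def lseN {R A X : Type} [CommRing R] [Ring A] [Algebra R A] [Group X] [Fintype X] (y : A)
    (χ : X →* R) : Subalgebra R (Matrix X X A) where
  carrier := {M | (∀ u v t, M (u * t) (v * t) = M u v) ∧ ∀ u v, M u v ∈ Nx y χ (u * v⁻¹)}
  mul_mem' := by
    rintro M N ⟨h1, h2⟩ ⟨h3, h4⟩
    refine ⟨fun u v t => ?_, fun u v => ?_⟩
    · rw [Matrix.mul_apply, Matrix.mul_apply]
      rw [← Equiv.sum_comp (Equiv.mulRight t)]
      refine Finset.sum_congr rfl fun w _ => ?_
      rw [Equiv.coe_mulRight, h1, h3]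
    · rw [Matrix.mul_apply]
      refine Submodule.sum_mem _ fun w _ => ?_
      have h5 := Nx_mul (h2 u w) (h4 w v)
      have h6 : u * w⁻¹ * (w * v⁻¹) = u * v⁻¹ := by group
      rw [h6] at h5
      exact h5
  add_mem' := by
    rintro M N ⟨h1, h2⟩ ⟨h3, h4⟩
    refine ⟨fun u v t => ?_, fun u v => ?_⟩
    · rw [Matrix.add_apply, Matrix.add_apply, h1, h3]
    · rw [Matrix.add_apply]
      exact Submodule.add_mem _ (h2 u v) (h4 u v)
  algebraMap_mem' := by
    intro r
    refine ⟨fun u v t => ?_, fun u v => ?_⟩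
    · rw [Matrix.algebraMap_matrix_apply, Matrix.algebraMap_matrix_apply]
      by_cases h : u = v
      · rw [if_pos h, if_pos (by rw [h])]
      · rw [if_neg h, if_neg (fun h1 => h (mul_right_cancel h1))]
    · rw [Matrix.algebraMap_matrix_apply]
      by_cases h : u = v
      · rw [if_pos h, h, mul_inv_cancel, Algebra.algebraMap_eq_smul_one]
        exact Submodule.smul_mem _ _ (Nx_one y χ)
      · rw [if_neg h]
        exact Submodule.zero_mem _

variable {R A X : Type} [CommRing R] [Ring A] [Algebra R A] [Group X] [Fintype X] {y : A}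
  {χ : X →* R}

open Classical in
/-- the part of degree `x` -/
def lseC (y : A) (χ : X →* R) (x : X) : lseN y χ →ₗ[R] lseN y χ where
  toFun := fun M => ⟨Matrix.of fun u v => if u * v⁻¹ = x then (M : Matrix X X A) u v else 0, by
    refine ⟨fun u v t => ?_, fun u v => ?_⟩
    · rw [Matrix.of_apply, Matrix.of_apply]
      have h : u * t * (v * t)⁻¹ = u * v⁻¹ := by group
      rw [h, M.2.1]
    · rw [Matrix.of_apply]
      split_ifs
      · exact M.2.2 u v
      · exact Submodule.zero_mem _⟩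
  map_add' := by
    intro M N
    apply Subtype.ext
    ext u v
    show (if u * v⁻¹ = x then (M : Matrix X X A) u v + (N : Matrix X X A) u v else 0) =
      (if u * v⁻¹ = x then (M : Matrix X X A) u v else 0) +
        (if u * v⁻¹ = x then (N : Matrix X X A) u v else 0)
    split_ifs
    · rfl
    · rw [add_zero]
  map_smul' := by
    intro r M
    apply Subtype.ext
    ext u v
    show (if u * v⁻¹ = x then r • (M : Matrix X X A) u v else 0) =
      r • (if u * v⁻¹ = x then (M : Matrix X X A) u v else 0)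
    split_ifs
    · rfl
    · rw [smul_zero]

open Classical in
/-- homogeneous elements -/
def lseP (y : A) (χ : X →* R) (x : X) : Nx y χ x →ₗ[R] lseN y χ where
  toFun := fun a => ⟨Matrix.of fun u v => if u * v⁻¹ = x then (a : A) else 0, by
    refine ⟨fun u v t => ?_, fun u v => ?_⟩
    · rw [Matrix.of_apply, Matrix.of_apply]
      have h : u * t * (v * t)⁻¹ = u * v⁻¹ := by group
      rw [h]
    · rw [Matrix.of_apply]
      split_ifs with h
      · rw [h]
        exact a.2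
      · exact Submodule.zero_mem _⟩
  map_add' := by
    intro a b
    apply Subtype.ext
    ext u v
    show (if u * v⁻¹ = x then (a : A) + b else 0) =
      (if u * v⁻¹ = x then (a : A) else 0) + (if u * v⁻¹ = x then (b : A) else 0)
    split_ifs
    · rfl
    · rw [add_zero]
  map_smul' := by
    intro r a
    apply Subtype.ext
    ext u v
    show (if u * v⁻¹ = x then r • (a : A) else 0) = r • (if u * v⁻¹ = x then (a : A) else 0)
    split_ifs
    · rfl
    · rw [smul_zero]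

open Classical in
theorem lseC_apply (x : X) (M : lseN y χ) (u v : X) :
    (lseC y χ x M : Matrix X X A) u v = if u * v⁻¹ = x then (M : Matrix X X A) u v else 0 := rfl

open Classical in
theorem lseP_apply (x : X) (a : Nx y χ x) (u v : X) :
    (lseP y χ x a : Matrix X X A) u v = if u * v⁻¹ = x then (a : A) else 0 := rfl

theorem lse_n1 (M : lseN y χ) : ∑ x, lseC y χ x M = M := by
  classical
  apply Subtype.ext
  ext u v
  rw [AddSubmonoidClass.coe_finsetSum, Matrix.sum_apply]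
  simp only [lseC_apply]
  rw [Finset.sum_ite_eq, if_pos (Finset.mem_univ _)]

theorem lse_n2 (x : X) (M : lseN y χ) : lseC y χ x (lseC y χ x M) = lseC y χ x M := by
  apply Subtype.ext
  ext u v
  rw [lseC_apply, lseC_apply]
  split_ifs <;> rfl

theorem lse_n3 (x x' : X) (M : lseN y χ) (h : x ≠ x') : lseC y χ x (lseC y χ x' M) = 0 := by
  apply Subtype.ext
  ext u v
  rw [lseC_apply, lseC_apply]
  by_cases h1 : u * v⁻¹ = x
  · rw [if_pos h1, if_neg (fun h2 => h (h1.symm.trans h2))]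
    rfl
  · rw [if_neg h1]
    rfl

theorem lse_n4 : lseC y χ 1 1 = 1 := by
  classical
  apply Subtype.ext
  ext u v
  rw [lseC_apply]
  by_cases h : u * v⁻¹ = 1
  · rw [if_pos h]
  · rw [if_neg h]
    have h1 : u ≠ v := fun e => h (by rw [e, mul_inv_cancel])
    show (0 : A) = (1 : Matrix X X A) u v
    rw [Matrix.one_apply_ne h1]

theorem lse_n5 (x x' : X) (M N : lseN y χ) :
    lseC y χ (x * x') (lseC y χ x M * lseC y χ x' N) = lseC y χ x M * lseC y χ x' N := by
  apply Subtype.ext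
  ext u v
  rw [lseC_apply]
  by_cases h : u * v⁻¹ = x * x'
  · rw [if_pos h]
  · rw [if_neg h]
    show (0 : A) = ((lseC y χ x M : Matrix X X A) * (lseC y χ x' N : Matrix X X A)) u v
    rw [Matrix.mul_apply]
    symm
    apply Finset.sum_eq_zero
    intro w _
    rw [lseC_apply, lseC_apply]
    by_cases h1 : u * w⁻¹ = x
    · by_cases h2 : w * v⁻¹ = x'
      · exfalso
        apply h
        rw [← h1, ← h2]
        group
      · rw [if_neg h2, mul_zero]
    · rw [if_neg h1, zero_mul]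

theorem lse_n6 (x : X) (a : Nx y χ x) : lseC y χ x (lseP y χ x a) = lseP y χ x a := by
  apply Subtype.ext
  ext u v
  rw [lseC_apply, lseP_apply]
  split_ifs <;> rfl

theorem lse_n7 (x : X) (M : lseN y χ) : ∃ a, lseP y χ x a = lseC y χ x M := by
  have h := M.2.2 x 1
  have h0 : x * (1 : X)⁻¹ = x := by group
  rw [h0] at h
  refine ⟨⟨(M : Matrix X X A) x 1, h⟩, ?_⟩
  apply Subtype.ext
  ext u v
  rw [lseC_apply, lseP_apply]
  split_ifs with h1
  · have h2 := M.2.1 u v v⁻¹
    rw [mul_inv_cancel, h1] at h2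
    exact h2
  · rfl

theorem lse_n9 : lseP y χ 1 ⟨1, Nx_one y χ⟩ = 1 := by
  classical
  apply Subtype.ext
  ext u v
  rw [lseP_apply]
  by_cases h : u = v
  · rw [h, mul_inv_cancel, if_pos rfl]
    show (1 : A) = (1 : Matrix X X A) v v
    rw [Matrix.one_apply_eq]
  · rw [if_neg (fun h1 => h (mul_inv_eq_one.1 h1))]
    show (0 : A) = (1 : Matrix X X A) u v
    rw [Matrix.one_apply_ne h]

theorem lse_n10 (x x' : X) (a : Nx y χ x) (b : Nx y χ x') :
    lseP y χ x a * lseP y χ x' b = lseP y χ (x * x') ⟨a * b, Nx_mul a.2 b.2⟩ := by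
  classical
  apply Subtype.ext
  ext u v
  show ((lseP y χ x a : Matrix X X A) * (lseP y χ x' b : Matrix X X A)) u v = _
  rw [Matrix.mul_apply, lseP_apply]
  by_cases h : u * v⁻¹ = x * x'
  · rw [if_pos h, Finset.sum_eq_single (x' * v)]
    · rw [lseP_apply, lseP_apply, if_pos, if_pos]
      · group
      · rw [mul_inv_rev, ← mul_assoc, h]
        group
    · intro w _ hw
      rw [lseP_apply x', if_neg, mul_zero]
      intro h1
      apply hw
      rw [← h1]
      group
    · intro h1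
      exact absurd (Finset.mem_univ _) h1
  · rw [if_neg h]
    apply Finset.sum_eq_zero
    intro w _
    rw [lseP_apply, lseP_apply]
    by_cases h1 : u * w⁻¹ = x
    · by_cases h2 : w * v⁻¹ = x'
      · exfalso
        apply h
        rw [← h1, ← h2]
        group
      · rw [if_neg h2, mul_zero]
    · rw [if_neg h1, zero_mul]

end lse

theorem lse (txa : TxaStmt) : LseStmt := by
  classical
  intro R A X _ _ _ _ _ y l χ hl hy hχ
  have hT := (txa R A X y l χ hl hy hχ).2.2.2.2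
  obtain ⟨J, hJ, hJ2⟩ : ∃ J : Ideal (lseN y χ), (∀ M, M ∈ J ↔
      ∀ u v, (M : Matrix X X A) u v ∈ Jx y l χ (u * v⁻¹)) ∧ J.IsTwoSided := by
    refine ⟨{ carrier := {M | ∀ u v, (M : Matrix X X A) u v ∈ Jx y l χ (u * v⁻¹)}
              add_mem' := ?_, zero_mem' := ?_, smul_mem' := ?_ }, fun M => Iff.rfl, ⟨?_⟩⟩
    · intro M N hM hN u v
      exact Submodule.add_mem _ (hM u v) (hN u v)
    · intro u v
      exact Submodule.zero_mem _
    · intro M N hN u v
      show ((M : Matrix X X A) * (N : Matrix X X A)) u v ∈ _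
      rw [Matrix.mul_apply]
      refine Submodule.sum_mem _ fun w _ => ?_
      have h5 := (hT _ _ _ _ (M.2.2 u w) (hN w v)).1
      have h6 : u * w⁻¹ * (w * v⁻¹) = u * v⁻¹ := by group
      rw [h6] at h5
      exact h5
    · intro M N hM u v
      show ((M : Matrix X X A) * (N : Matrix X X A)) u v ∈ _
      rw [Matrix.mul_apply]
      refine Submodule.sum_mem _ fun w _ => ?_
      have h5 := (hT _ _ _ _ (N.2.2 w v) (hM u w)).2
      have h6 : u * w⁻¹ * (w * v⁻¹) = u * v⁻¹ := by group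
      rw [h6] at h5
      exact h5
  have hJc : ∀ x, ∀ M ∈ J, lseC y χ x M ∈ J := by
    intro x M hM
    rw [hJ] at hM ⊢
    intro u v
    rw [lseC_apply]
    split_ifs
    · exact hM u v
    · exact Submodule.zero_mem _
  obtain ⟨π, hπ⟩ : ∃ π : lseN y χ →ₐ[R] (lseN y χ ⧸ J), π = Ideal.Quotient.mkₐ R J := ⟨_, rfl⟩
  have hπs : Function.Surjective π := by
    rw [hπ]
    exact Ideal.Quotient.mkₐ_surjective R J
  have hπk : ∀ M, π M = 0 ↔ M ∈ J := by
    intro M
    rw [hπ]
    exact Ideal.Quotient.eq_zero_iff_mem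
  have hc : ∀ x, ∃ g : (lseN y χ ⧸ J) →ₗ[R] (lseN y χ ⧸ J), ∀ M, g (π M) = π (lseC y χ x M) := by
    intro x
    refine lse_desc π.toLinearMap hπs (π.toLinearMap.comp (lseC y χ x)) ?_
    intro M hM
    show π (lseC y χ x M) = 0
    rw [hπk]
    exact hJc x M ((hπk M).1 hM)
  choose c hc using hc
  refine ⟨lseN y χ ⧸ J, inferInstance, inferInstance, ⟨{
    c := c
    cs := ?_, ci := ?_, co := ?_, c1 := ?_, cm := ?_
    p := fun x => π.toLinearMap.comp (lseP y χ x)
    pc := ?_, ps := ?_, ker := ?_, one := ?_, mul := ?_ }⟩⟩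
  · intro s
    obtain ⟨M, rfl⟩ := hπs s
    simp only [hc]
    rw [← map_sum, lse_n1]
  · intro x s
    obtain ⟨M, rfl⟩ := hπs s
    rw [hc, hc, lse_n2]
  · intro x x' s h
    obtain ⟨M, rfl⟩ := hπs s
    rw [hc, hc, lse_n3 x x' M h, map_zero]
  · rw [← map_one π, hc, lse_n4]
  · intro x x' s s'
    obtain ⟨M, rfl⟩ := hπs s
    obtain ⟨N, rfl⟩ := hπs s'
    rw [hc, hc, ← map_mul, hc, lse_n5]
  · intro x a
    show c x (π (lseP y χ x a)) = π (lseP y χ x a)
    rw [hc, lse_n6]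
  · intro x s
    obtain ⟨M, rfl⟩ := hπs s
    obtain ⟨a, ha⟩ := lse_n7 x M
    refine ⟨a, ?_⟩
    show π (lseP y χ x a) = c x (π M)
    rw [hc, ha]
  · intro x a
    show π (lseP y χ x a) = 0 ↔ _
    rw [hπk, hJ]
    constructor
    · intro h
      have h1 := h x 1
      have h0 : x * (1 : X)⁻¹ = x := by group
      rw [lseP_apply, h0, if_pos rfl] at h1
      exact h1
    · intro h u v
      rw [lseP_apply]
      split_ifs with h1
      · rw [h1]
        exact h
      · exact Submodule.zero_mem _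
  · show π (lseP y χ 1 ⟨1, Nx_one y χ⟩) = 1
    rw [lse_n9, map_one]
  · intro x x' a b
    show π (lseP y χ x a) * π (lseP y χ x' b) = π (lseP y χ (x * x') _)
    rw [← map_mul, lse_n10]

end Pool.Agent.PFE.H10
end
end -- Pool.Agent.Helper10_PFE.LSE

section -- Pool.Agent.Helper91_PFD.RTC

/-!
# Squad PFD, row RTC: rules for the relative trace
-/

set_option autoImplicit false

open scoped BigOperators

noncomputable section

namespace Pool.Agent.PFD.D4.H91

open Pool.Agent.PFC.B1 (BiM FS Sep Split)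

/-- row RTC -/
theorem rtc : RtcStmt := by
  intro R B A N _ _ _ _ _ _ j pr s
  refine ⟨?_, ?_, ?_⟩
  · intro b hb a
    unfold RF.rt
    have h1 : ∀ k, a * (s.x k * b * s.y k) =
        ∑ l, s.x l * b * (j (pr (s.y l * a * s.x k)) * s.y k) := by
      intro k
      rw [← mul_assoc, ← mul_assoc]
      conv_lhs => rw [← s.e1 (a * s.x k)]
      rw [Finset.sum_mul, Finset.sum_mul]
      refine Finset.sum_congr rfl fun l _ => ?_
      rw [mul_assoc (s.x l), hb, ← mul_assoc (s.x l), mul_assoc (s.x l * b), mul_assoc (s.y l)]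
    rw [Finset.mul_sum, Finset.sum_congr rfl fun k _ => h1 k, Finset.sum_comm, Finset.sum_mul]
    refine Finset.sum_congr rfl fun l _ => ?_
    rw [← Finset.mul_sum, s.e2, ← mul_assoc]
  · intro z b hz
    unfold RF.rt
    rw [Finset.mul_sum]
    refine Finset.sum_congr rfl fun k _ => ?_
    rw [← mul_assoc, ← hz]
    simp only [mul_assoc]
  · intro X _ _ β hβ a
    have h1 : ∀ k, β (a * s.x k) (s.y k) =
        ∑ l, β (s.x l) (j (pr (s.y l * a * s.x k)) * s.y k) := by
      intro k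
      conv_lhs => rw [← s.e1 (a * s.x k)]
      rw [map_sum, LinearMap.sum_apply]
      refine Finset.sum_congr rfl fun l _ => ?_
      rw [hβ, mul_assoc (s.y l)]
    rw [Finset.sum_congr rfl fun k _ => h1 k, Finset.sum_comm]
    refine Finset.sum_congr rfl fun l _ => ?_
    rw [← map_sum, s.e2]

end Pool.Agent.PFD.D4.H91
end
end -- Pool.Agent.Helper91_PFD.RTC

section -- Pool.Agent.Helper13_PFE.ZOY

/-! PFE, row ZOY: the centre of `A1` maps onto the centre of `A`. -/

set_option autoImplicit false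

namespace Pool.Agent.PFE.H13

open Pool.Agent.PFE Pool.Agent.PFD Pool.Agent.PFD.D2 Pool.Agent.PFD.D2b

theorem zoy (hCly : ClyStmt) : ZoyStmt := by
  intro R F Γ Γ0 W A A1 X N Ω Ω' _ _ c _ _ _ _ _ _ _ _ _ _ _ _ _ _ _ _ l G f χ j0 pr0 lz hl hχ
    hun z hz
  obtain ⟨b, hb1, hb2⟩ := hCly R F Γ Γ0 W A A1 X Ω Ω' c l G f χ j0 pr0 lz.toLY hl hχ hun z
    (fun γ => (hz _).symm)
  obtain ⟨h1, -, -⟩ := Pool.Agent.PFD.D4.H91.rtc R Γ A1 N lz.j lz.pr lz.rf
  have hcb := h1 b hb1
  have hc1 := h1 1 (fun γ => by rw [mul_one, one_mul])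
  obtain ⟨i, hi⟩ := lz.un1
  have hi1 : lz.rf.rt 1 * (↑i⁻¹ : A1) = 1 := by rw [← hi, Units.mul_inv]
  have hi2 : (↑i⁻¹ : A1) * lz.rf.rt 1 = 1 := by rw [← hi, Units.inv_mul]
  have hic : ∀ a : A1, a * (↑i⁻¹ : A1) = (↑i⁻¹ : A1) * a := by
    intro a
    calc a * (↑i⁻¹ : A1) = (↑i⁻¹ : A1) * lz.rf.rt 1 * a * (↑i⁻¹ : A1) := by rw [hi2, one_mul]
      _ = (↑i⁻¹ : A1) * (lz.rf.rt 1 * a) * (↑i⁻¹ : A1) := by rw [mul_assoc (↑i⁻¹ : A1)]
      _ = (↑i⁻¹ : A1) * (a * lz.rf.rt 1) * (↑i⁻¹ : A1) := by rw [hc1]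
      _ = (↑i⁻¹ : A1) * a * (lz.rf.rt 1 * (↑i⁻¹ : A1)) := by simp only [mul_assoc]
      _ = (↑i⁻¹ : A1) * a := by rw [hi1, mul_one]
  have hq : lz.fb.q (lz.rf.rt b) = z * lz.fb.q (lz.rf.rt 1) := by
    unfold RF.rt
    rw [map_sum, map_sum, Finset.mul_sum]
    refine Finset.sum_congr rfl fun k _ => ?_
    rw [map_mul, map_mul, map_mul, map_mul, hb2, map_one, mul_one, ← hz, mul_assoc]
  refine ⟨lz.rf.rt b * (↑i⁻¹ : A1), ?_, ?_⟩
  · intro a
    rw [mul_assoc, ← hic a, ← mul_assoc, ← hcb a, mul_assoc]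
  · rw [map_mul, hq, mul_assoc, ← map_mul, hi1, map_one, mul_one]

end Pool.Agent.PFE.H13
end -- Pool.Agent.Helper13_PFE.ZOY

section -- Pool.Agent.Helper15_PFD.RFL

/-!
Squad PFD, part D4, row RFL (helper15): a relative Frobenius system lifts.
-/

set_option autoImplicit false

open scoped BigOperators

noncomputable section

namespace Pool.Agent.PFD.D4.H15

open Pool.Agent.PFD.D2 Pool.Agent.PFD.D2b

private theorem smul_reg {R F M : Type} [CommRing R] [Field F] (c : Cdv R F) [AddCommGroup M]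
    [Module R M] [Module.Free R M] (m : M) (h : c.π • m = 0) : m = 0 := by
  let b := Module.Free.chooseBasis R M
  apply b.ext_elem
  intro i
  have h1 := congrArg (fun z => b.repr z i) h
  simp only [map_smul, Finsupp.smul_apply, smul_eq_mul, map_zero, Finsupp.zero_apply] at h1
  rw [map_zero, Finsupp.zero_apply]
  exact c.reg _ h1

private theorem eq_zero_of {R F M : Type} [CommRing R] [Field F] (c : Cdv R F) [AddCommGroup M]
    [Module R M] [Module.Free R M] (m : M) (h : ∀ n : ℕ, ∃ m', m = c.π ^ n • m') : m = 0 := by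
  let b := Module.Free.chooseBasis R M
  apply b.ext_elem
  intro i
  rw [map_zero, Finsupp.zero_apply]
  apply c.sep
  intro n
  obtain ⟨m', hm'⟩ := h n
  refine ⟨b.repr m' i, ?_⟩
  rw [hm', map_smul, Finsupp.smul_apply, smul_eq_mul]

/-- RFL. -/
theorem rfl_ (ung : UngStmt) : RflStmt := by
  intro R F Γ Γ0 A A1 N _ _ c _ _ _ _ _ _ _ _ _ _ _ _ f fb j0 pr0 j pr _ x y hj hl hr cj cp h1 h2
  choose X hX using fun k => fb.surj (x k)
  choose Y hY using fun k => fb.surj (y k)
  let Φ : A1 →ₗ[R] A1 :=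
    { toFun := fun a => ∑ k, X k * j (pr (Y k * a))
      map_add' := fun a b => by
        simp only [mul_add, map_add, Finset.sum_add_distrib]
      map_smul' := fun r a => by
        simp only [mul_smul_comm, map_smul, Finset.smul_sum, RingHom.id_apply] }
  have hΦ : ∀ a, Φ a = ∑ k, X k * j (pr (Y k * a)) := fun a => rfl
  have hΦr : ∀ a γ, Φ (a * j γ) = Φ a * j γ := by
    intro a γ
    rw [hΦ, hΦ, Finset.sum_mul]
    refine Finset.sum_congr rfl fun k _ => ?_
    rw [← mul_assoc (Y k), hr, map_mul, mul_assoc]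
  have hΦq : ∀ a, fb.q (Φ a) = fb.q a := by
    intro a
    rw [hΦ, map_sum]
    refine (Finset.sum_congr rfl fun k _ => ?_).trans (h1 (fb.q a))
    rw [map_mul, hX, cj, ← cp, map_mul, hY]
  have hbij : Function.Bijective Φ := ung R F A1 c Φ fun a => fb.ker _ (by
    rw [map_sub, hΦq, sub_self])
  let e := LinearEquiv.ofBijective Φ hbij
  obtain ⟨Ψ, hΨ1, hΨ2⟩ : ∃ Ψ : A1 →ₗ[R] A1, (∀ a, Φ (Ψ a) = a) ∧ ∀ a, Ψ (Φ a) = a :=
    ⟨e.symm.toLinearMap, fun a => e.apply_symm_apply a, fun a => e.symm_apply_apply a⟩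
  have hΨr : ∀ a γ, Ψ (a * j γ) = Ψ a * j γ := by
    intro a γ
    apply hbij.1
    rw [hΨ1, hΦr, hΨ1]
  have e1 : ∀ a, ∑ k, Ψ (X k) * j (pr (Y k * a)) = a := by
    intro a
    have h3 := hΨ2 a
    rw [hΦ a, map_sum] at h3
    refine Eq.trans ?_ h3
    exact Finset.sum_congr rfl fun k _ => (hΨr _ _).symm
  -- an element with `pr (d * b) = 0` for all `b`
  have step : ∀ d : A1, (∀ b, pr (d * b) = 0) → ∃ d', d = c.π • d' ∧ ∀ b, pr (d' * b) = 0 := by
    intro d hd
    have h3 : fb.q d = 0 := by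
      rw [← h2 (fb.q d)]
      refine Finset.sum_eq_zero fun k _ => ?_
      rw [← hX, ← map_mul, cp, hd, map_zero, map_zero, zero_mul]
    obtain ⟨d', hd'⟩ := fb.ker _ h3
    refine ⟨d', hd', fun b => smul_reg c _ ?_⟩
    rw [← map_smul, ← smul_mul_assoc, ← hd', hd]
  have zero : ∀ d : A1, (∀ b, pr (d * b) = 0) → d = 0 := by
    intro d hd
    have h3 : ∀ n : ℕ, ∃ d', d = c.π ^ n • d' ∧ ∀ b, pr (d' * b) = 0 := by
      intro n
      induction n with
      | zero => exact ⟨d, by rw [pow_zero, one_smul], hd⟩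
      | succ n ih =>
        obtain ⟨d1, h4, h5⟩ := ih
        obtain ⟨d2, h6, h7⟩ := step d1 h5
        exact ⟨d2, by rw [h4, h6, smul_smul, pow_succ], h7⟩
    exact eq_zero_of c d fun n => by
      obtain ⟨d', h4, -⟩ := h3 n
      exact ⟨d', h4⟩
  have e2 : ∀ a, ∑ k, j (pr (a * Ψ (X k))) * Y k = a := by
    intro a
    rw [← sub_eq_zero]
    apply zero
    intro b
    have h3 : pr (a * b) = ∑ k, pr (a * Ψ (X k)) * pr (Y k * b) := by
      conv_lhs => rw [← e1 b, Finset.mul_sum, map_sum]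
      refine Finset.sum_congr rfl fun k _ => ?_
      rw [← mul_assoc, hr]
    rw [sub_mul, map_sub, h3, Finset.sum_mul, map_sum, sub_eq_zero]
    refine Finset.sum_congr rfl fun k _ => ?_
    rw [mul_assoc, hl]
  refine ⟨⟨fun k => Ψ (X k), Y, e1, e2⟩, fun k => ?_, hY⟩
  show fb.q (Ψ (X k)) = x k
  rw [← hΦq, hΨ1, hX]

end Pool.Agent.PFD.D4.H15
end
end -- Pool.Agent.Helper15_PFD.RFL

section -- Pool.Agent.Helper17_PFE.LSF

/-! Squad PFE, row LSF (helper17): the special fibre of the local algebra. -/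

set_option autoImplicit false

open scoped BigOperators

noncomputable section

namespace Pool.Agent.PFE.H17

open Pool.Agent.PFE Pool.Agent.PFD.D2

section

variable {R F A A1 X S S0 : Type} [CommRing R] [Field F] {c : Cdv R F} [Ring A] [Algebra F A]
    [Ring A1] [Algebra R A1] [Group X] [Fintype X] [Ring S] [Algebra R S]
    [Ring S0] [Algebra F S0]

theorem q_smul (fb : FibG A1 A c) (r : R) (a : A1) : fb.q (r • a) = c.κ r • fb.q a := by
  rw [Algebra.smul_def, map_mul, fb.sc, ← Algebra.smul_def]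

theorem q_Tx (fb : FibG A1 A c) (y : A1) (l : ℕ) (e : R) (a : A1) :
    fb.q (Tx y l e a) = Tx (fb.q y) l (c.κ e) (fb.q a) := by
  unfold Tx
  rw [map_sum]
  refine Finset.sum_congr rfl fun j _ => ?_
  rw [q_smul, map_mul, map_mul, map_pow, map_pow, map_pow]

theorem q_Nx (fb : FibG A1 A c) {y : A1} {y0 : A} {χ : X →* R} {χ0 : X →* F}
    (hy : fb.q y = y0) (hχ : ∀ x, c.κ (χ x) = χ0 x) {x : X} {a : A1} (ha : a ∈ Nx y χ x) :
    fb.q a ∈ Nx y0 χ0 x := by
  have h : y * a = χ x • (a * y) := ha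
  show y0 * fb.q a = χ0 x • (fb.q a * y0)
  rw [← hy, ← map_mul, h, q_smul, map_mul, hχ]

/-- reduction -/
def red (fb : FibG A1 A c) {y : A1} {y0 : A} {χ : X →* R} {χ0 : X →* F}
    (hy : fb.q y = y0) (hχ : ∀ x, c.κ (χ x) = χ0 x) (x : X) : Nx y χ x →+ Nx y0 χ0 x where
  toFun a := ⟨fb.q (a : A1), q_Nx fb hy hχ a.2⟩
  map_zero' := by
    apply Subtype.ext
    show fb.q ((0 : Nx y χ x) : A1) = 0
    rw [ZeroMemClass.coe_zero, map_zero]
  map_add' a b := by
    apply Subtype.ext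
    show fb.q ((a + b : Nx y χ x) : A1) = fb.q (a : A1) + fb.q (b : A1)
    rw [← map_add]
    rfl

theorem smul_reg (c : Cdv R F) [Module.Free R A1] (a : A1) (h : c.π • a = 0) : a = 0 := by
  have b := Module.Free.chooseBasis R A1
  apply b.repr.injective
  rw [map_zero]
  ext i
  apply c.reg
  have h1 : b.repr (c.π • a) i = 0 := by rw [h, map_zero]; rfl
  rw [map_smul] at h1
  exact h1

end

theorem lsf (htxa : TxaStmt) : LsfStmt := by
  intro R F A A1 X S S0 _ _ c _ _ _ _ _ _ _ _ _ _ _ fb y y0 l χ χ0 L L0 hl hyl hy hχ hχl hlift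
  obtain ⟨-, -, t3, t4, -⟩ := htxa R A1 X y l χ hl hyl hχl
  have hyl0 : y0 ^ l = 0 := by rw [← hy, ← map_pow, hyl, map_zero]
  have hχl0 : ∀ x, χ0 x ^ (l - 1) = 1 := by
    intro x
    rw [← hχ, ← map_pow, hχl, map_one]
  obtain ⟨-, -, u3, -, -⟩ := htxa F A X y0 l χ0 hl hyl0 hχl0
  -- reduction of `Jx`
  have hJ : ∀ x a, a ∈ Jx y l χ x → fb.q a ∈ Jx y0 l χ0 x := by
    intro x a ha
    obtain ⟨a', n, hn, rfl⟩ := (t3 x a).1 ha
    rw [map_add, q_Tx, map_mul, hy, hχ]
    exact (u3 x _).2 ⟨fb.q a', fb.q n, q_Nx fb hy hχ hn, rfl⟩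
  let rd := fun x => red fb hy hχ x
  have hrd : ∀ x a, ((rd x a : Nx y0 χ0 x) : A) = fb.q (a : A1) := fun x a => rfl
  have hK : ∀ x (a a' : Nx y χ x), L.p x a = L.p x a' → L0.p x (rd x a) = L0.p x (rd x a') := by
    intro x a a' h
    rw [← sub_eq_zero, ← map_sub, ← map_sub]
    rw [L0.ker]
    apply hJ
    rw [← L.ker, map_sub, h, sub_self]
  choose rep hrep using L.ps
  let h : X → S → S0 := fun x s => L0.p x (rd x (rep x s))
  have hh : ∀ x s a, L.p x a = L.c x s → h x s = L0.p x (rd x a) := by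
    intro x s a ha
    exact hK x _ _ (by rw [hrep, ha])
  have hadd : ∀ x s s', h x (s + s') = h x s + h x s' := by
    intro x s s'
    rw [hh x (s + s') (rep x s + rep x s') (by rw [map_add, map_add, hrep, hrep]), map_add, map_add]
  let qq : S →+ S0 := AddMonoidHom.mk' (fun s => ∑ x, h x s) (by
    intro s s'
    rw [← Finset.sum_add_distrib]
    exact Finset.sum_congr rfl fun x _ => hadd x s s')
  have hqq : ∀ s, qq s = ∑ x, h x s := fun s => rfl
  have hp : ∀ z (a : Nx y χ z), qq (L.p z a) = L0.p z (rd z a) := by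
    intro z a
    rw [hqq, Finset.sum_eq_single z]
    · exact hh z _ a (by rw [L.pc])
    · intro x _ hx
      rw [hh x _ 0 (by rw [map_zero, ← L.pc z a, L.co x z _ hx]), map_zero, map_zero]
    · intro h; exact absurd (Finset.mem_univ z) h
  have hqc : ∀ x s, qq (L.c x s) = h x s := by
    intro x s
    rw [← hrep x s, hp]
  have hmul : ∀ s s', qq (s * s') = qq s * qq s' := by
    intro s s'
    have e1 : s * s' = ∑ z, ∑ w, L.c z s * L.c w s' := by
      conv_lhs => rw [← L.cs s, ← L.cs s', Finset.sum_mul_sum]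
    rw [e1, map_sum, hqq s, hqq s', Finset.sum_mul_sum]
    refine Finset.sum_congr rfl fun z _ => ?_
    rw [map_sum]
    refine Finset.sum_congr rfl fun w _ => ?_
    rw [← hrep z s, ← hrep w s', L.mul, hp]
    show _ = L0.p z (rd z (rep z s)) * L0.p w (rd w (rep w s'))
    rw [L0.mul]
    congr 1
    apply Subtype.ext
    show fb.q ((rep z s : A1) * (rep w s' : A1)) = fb.q (rep z s : A1) * fb.q (rep w s' : A1)
    rw [map_mul]
  have hone : qq 1 = 1 := by
    rw [← L.one, hp, ← L0.one]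
    congr 1
    apply Subtype.ext
    show fb.q (1 : A1) = 1
    rw [map_one]
  let Q : S →+* S0 :=
    { qq with
      map_one' := hone
      map_mul' := hmul }
  have hQ : ∀ s, Q s = qq s := fun s => rfl
  have hsc : ∀ r : R, Q (algebraMap R S r) = algebraMap F S0 (c.κ r) := by
    intro r
    rw [hQ, Algebra.algebraMap_eq_smul_one, Algebra.algebraMap_eq_smul_one, ← L.one, ← map_smul, hp,
      ← L0.one, ← map_smul]
    congr 1
    apply Subtype.ext
    show fb.q (r • (1 : A1)) = c.κ r • (1 : A)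
    rw [q_smul, map_one]
  have hcq : ∀ x s, L0.c x (qq s) = h x s := by
    intro x s
    rw [hqq, map_sum, Finset.sum_eq_single x]
    · show L0.c x (L0.p x _) = _
      rw [L0.pc]
    · intro z _ hz
      show L0.c x (L0.p z _) = 0
      rw [← L0.pc z, L0.co x z _ (Ne.symm hz)]
    · intro h; exact absurd (Finset.mem_univ x) h
  have hsurj : Function.Surjective Q := by
    intro s0
    have h1 : ∀ x, ∃ s, Q s = L0.c x s0 := by
      intro x
      obtain ⟨a0, ha0⟩ := L0.ps x s0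
      obtain ⟨a, ha, hqa⟩ := hlift x (a0 : A) a0.2
      refine ⟨L.p x ⟨a, ha⟩, ?_⟩
      rw [hQ, hp, ← ha0]
      congr 1
      exact Subtype.ext hqa
    choose g hg using h1
    refine ⟨∑ x, g x, ?_⟩
    rw [map_sum]
    conv_rhs => rw [← L0.cs s0]
    exact Finset.sum_congr rfl fun x _ => hg x
  have hker : ∀ s, Q s = 0 → ∃ t, s = c.π • t := by
    intro s hs
    have h1 : ∀ x, ∃ t, L.c x s = c.π • t := by
      intro x
      have h2 : L0.p x (rd x (rep x s)) = 0 := by
        have := hcq x s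
        rw [← hQ, hs, map_zero] at this
        exact this.symm
      rw [L0.ker, hrd, u3] at h2
      obtain ⟨b0, n0, hn0, he⟩ := h2
      obtain ⟨b, hb⟩ := fb.surj b0
      obtain ⟨n, hn, hqn⟩ := hlift x n0 hn0
      have h3 : fb.q ((rep x s : A1) - (Tx y l (χ x) b + y * n)) = 0 := by
        rw [map_sub, he, map_add, q_Tx, map_mul, hy, hχ, hb, hqn, sub_self]
      obtain ⟨a', ha'⟩ := fb.ker _ h3
      have hJm : Tx y l (χ x) b + y * n ∈ Jx y l χ x := (t3 x _).2 ⟨b, n, hn, rfl⟩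
      have hmem : c.π • a' ∈ Nx y χ x := by
        rw [← ha']
        exact Submodule.sub_mem _ (rep x s).2 (t4 x _ hJm)
      have hmem' : a' ∈ Nx y χ x := by
        have h4 : y * (c.π • a') = χ x • (c.π • a' * y) := hmem
        show y * a' = χ x • (a' * y)
        rw [← sub_eq_zero]
        apply smul_reg c
        rw [smul_sub, ← mul_smul_comm, h4, smul_comm c.π (χ x), smul_mul_assoc, sub_self]
      refine ⟨L.p x ⟨a', hmem'⟩, ?_⟩
      rw [← hrep x s, ← map_smul, ← sub_eq_zero, ← map_sub, L.ker]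
      have h5 : ((rep x s - c.π • ⟨a', hmem'⟩ : Nx y χ x) : A1) = Tx y l (χ x) b + y * n := by
        show (rep x s : A1) - c.π • a' = _
        rw [← ha']
        abel
      rw [h5]
      exact hJm
    choose t ht using h1
    refine ⟨∑ x, t x, ?_⟩
    rw [Finset.smul_sum]
    conv_lhs => rw [← L.cs s]
    exact Finset.sum_congr rfl fun x _ => ht x
  refine ⟨⟨Q, hsc, hsurj, hker⟩, ?_, ?_⟩
  · intro x a a0 ha0
    show qq (L.p x a) = L0.p x a0
    rw [hp]
    congr 1
    exact Subtype.ext (by rw [hrd, ha0])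
  · intro x s
    show qq (L.c x s) = L0.c x (qq s)
    rw [hqc, hcq]

end Pool.Agent.PFE.H17
end
end -- Pool.Agent.Helper17_PFE.LSF

section -- Pool.Agent.Helper49_PFD.UNG

/-!
# Squad PFD, part D2, row UNG (helper49)
-/

set_option autoImplicit false

namespace Pool.Agent.PFD.D2.H49

open Pool.Agent.PFD.D2

theorem ung : UngStmt := by
  intro R F M _ _ c _ _ _ u hu
  have hκ : c.κ c.π = 0 := (c.ker c.π).2 ⟨1, (mul_one _).symm⟩
  have hJ : Ideal.span {c.π} ≤ Ideal.jacobson (⊥ : Ideal R) := by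
    rw [Ideal.span_le, Set.singleton_subset_iff, SetLike.mem_coe, Ideal.mem_jacobson_bot]
    intro y
    apply c.loc
    rw [map_add, map_mul, hκ, zero_mul, zero_add, map_one]
    exact one_ne_zero
  have hsurj : Function.Surjective u := by
    rw [← LinearMap.range_eq_top]
    refine top_le_iff.1 (Submodule.le_of_le_smul_of_le_jacobson_bot
      (I := Ideal.span {c.π}) Module.Finite.fg_top hJ ?_)
    intro x _
    obtain ⟨y, hy⟩ := hu x
    have e : x = u x + -(c.π • y) := by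
      rw [← hy]
      abel
    rw [e]
    exact Submodule.add_mem_sup ⟨x, rfl⟩ (Submodule.neg_mem _
      (Submodule.smul_mem_smul (Ideal.mem_span_singleton_self _) Submodule.mem_top))
  exact ⟨OrzechProperty.injective_of_surjective_endomorphism u hsurj, hsurj⟩

end Pool.Agent.PFD.D2.H49
end -- Pool.Agent.Helper49_PFD.UNG

section -- Pool.Agent.Helper20_PFD.IDM

/-!
Squad PFD, row IDM (helper20): idempotents of a finite-dimensional commutative algebra.
-/

noncomputable section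

namespace Pool.Agent.PFD.D4.H20

/-- a multiple of a non-nilpotent element which is a nonzero idempotent -/
theorem fit {Z : Type} [CommRing Z] [IsArtinianRing Z] (u : Z) (hu : ¬ IsNilpotent u) :
    ∃ f w : Z, f * f = f ∧ f ≠ 0 ∧ f = u * w := by
  obtain ⟨n, y, hy⟩ := IsArtinian.exists_pow_succ_smul_dvd u (1 : Z)
  rw [smul_eq_mul, smul_eq_mul, mul_one] at hy
  have h1 : u ^ (n + 1) * (u * y) = u ^ (n + 1) := by
    calc u ^ (n + 1) * (u * y) = u * (u ^ (n + 1) * y) := by ring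
      _ = u * u ^ n := by rw [hy]
      _ = u ^ (n + 1) := by ring
  have h2 : ∀ k : ℕ, u ^ (n + 1) * (u * y) ^ k = u ^ (n + 1) := by
    intro k
    induction k with
    | zero => rw [pow_zero, mul_one]
    | succ k ih =>
      calc u ^ (n + 1) * (u * y) ^ (k + 1) = u ^ (n + 1) * (u * y) ^ k * (u * y) := by ring
        _ = u ^ (n + 1) * (u * y) := by rw [ih]
        _ = u ^ (n + 1) := h1
  refine ⟨(u * y) ^ (n + 1), u ^ n * y ^ (n + 1), ?_, ?_, ?_⟩
  · calc (u * y) ^ (n + 1) * (u * y) ^ (n + 1)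
        = (u ^ (n + 1) * (u * y) ^ (n + 1)) * y ^ (n + 1) := by ring
      _ = u ^ (n + 1) * y ^ (n + 1) := by rw [h2 (n + 1)]
      _ = (u * y) ^ (n + 1) := by ring
  · intro h0
    apply hu
    refine ⟨n + 1, ?_⟩
    rw [← h2 (n + 1), h0, mul_zero]
  · ring

theorem idm : IdmStmt := by
  intro K Z _ _ _ _ _ x hx
  have hA : IsArtinianRing Z := IsArtinianRing.of_finite K Z
  classical
  have hex : ∃ d : ℕ, ∃ e y : Z, e * e = e ∧ e ≠ 0 ∧ e = x * y ∧
      Module.finrank K (LinearMap.range (LinearMap.mulLeft K e)) = d := by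
    obtain ⟨f, w, h1, h2, h3⟩ := fit x hx
    exact ⟨_, f, w, h1, h2, h3, rfl⟩
  obtain ⟨e, y, he1, he2, he3, hed⟩ := Nat.find_spec hex
  refine ⟨e, y, he1, he2, he3, ?_⟩
  intro z
  have hmin : ∀ f w : Z, f * f = f → f ≠ 0 → f = x * w →
      Module.finrank K (LinearMap.range (LinearMap.mulLeft K e)) ≤
        Module.finrank K (LinearMap.range (LinearMap.mulLeft K f)) := by
    intro f w h1 h2 h3
    rw [hed]
    exact Nat.find_min' hex ⟨f, w, h1, h2, h3, rfl⟩
  obtain ⟨V, hV⟩ : ∃ V : Submodule K Z, V = LinearMap.range (LinearMap.mulLeft K e) := ⟨_, rfl⟩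
  have hVm : ∀ v : Z, v ∈ V ↔ e * v = v := by
    intro v
    rw [hV, LinearMap.mem_range]
    constructor
    · rintro ⟨s, rfl⟩
      rw [LinearMap.mulLeft_apply, ← mul_assoc, he1]
    · intro h
      exact ⟨v, h⟩
  have hz : ∀ v ∈ V, LinearMap.mulLeft K z v ∈ V := by
    intro v hv
    rw [hVm] at hv ⊢
    rw [LinearMap.mulLeft_apply]
    calc e * (z * v) = z * (e * v) := by ring
      _ = z * v := by rw [hv]
  have heV : e ∈ V := (hVm e).mpr he1
  have hnt : Nontrivial V := by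
    refine ⟨⟨⟨e, heV⟩, 0, ?_⟩⟩
    intro h
    exact he2 (congrArg Subtype.val h)
  obtain ⟨k, hk⟩ := Module.End.exists_eigenvalue ((LinearMap.mulLeft K z).restrict hz)
  obtain ⟨v, hv⟩ := hk.exists_hasEigenvector
  refine ⟨k, ?_⟩
  by_contra hnil
  obtain ⟨f, w, h1, h2, h3⟩ := fit (e * z - k • e) hnil
  have hfx : f = x * (y * ((z - algebraMap K Z k) * w)) := by
    calc f = (e * z - k • e) * w := h3
      _ = (x * y * z - k • (x * y)) * w := by rw [he3]
      _ = x * (y * ((z - algebraMap K Z k) * w)) := by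
        rw [Algebra.smul_def]
        ring
  have hef : e * f = f := by
    rw [h3]
    calc e * ((e * z - k • e) * w) = (e * e * z - k • (e * e)) * w := by
          rw [Algebra.smul_def, Algebra.smul_def]
          ring
      _ = (e * z - k • e) * w := by rw [he1]
  have hle : LinearMap.range (LinearMap.mulLeft K f) ≤ V := by
    rintro _ ⟨s, rfl⟩
    rw [hVm, LinearMap.mulLeft_apply, ← mul_assoc, hef]
  have heq : LinearMap.range (LinearMap.mulLeft K f) = V := by
    apply Submodule.eq_of_le_of_finrank_le hle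
    rw [hV]
    exact hmin f _ h1 h2 hfx
  have he4 : e ∈ LinearMap.range (LinearMap.mulLeft K f) := by
    rw [heq]
    exact heV
  obtain ⟨s, hs⟩ := he4
  rw [LinearMap.mulLeft_apply] at hs
  have hv1 : z * (v : Z) = k • (v : Z) := by
    have := hv.apply_eq_smul
    have h5 := congrArg Subtype.val this
    exact h5
  have hv2 : e * (v : Z) = v := (hVm v).mp v.2
  have hv3 : (e * z - k • e) * (v : Z) = 0 := by
    calc (e * z - k • e) * (v : Z) = e * (z * (v : Z)) - k • (e * (v : Z)) := by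
          rw [Algebra.smul_def, Algebra.smul_def]
          ring
      _ = e * (k • (v : Z)) - k • (v : Z) := by rw [hv1, hv2]
      _ = k • (e * (v : Z)) - k • (v : Z) := by rw [mul_smul_comm]
      _ = 0 := by rw [hv2, sub_self]
  have hv4 : (v : Z) = 0 := by
    calc (v : Z) = e * (v : Z) := hv2.symm
      _ = f * s * v := by rw [hs]
      _ = (e * z - k • e) * w * s * v := by rw [h3]
      _ = ((e * z - k • e) * v) * (w * s) := by ring
      _ = 0 := by rw [hv3, zero_mul]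
  exact hv.2 (Subtype.ext hv4)

end Pool.Agent.PFD.D4.H20
end
end -- Pool.Agent.Helper20_PFD.IDM

section -- Pool.Agent.Helper30_PFD.UNM

/-! Squad PFD, row UNM: units modulo `π` are units. -/

noncomputable section

namespace Pool.Agent.PFD.D4.H30

open Pool.Agent.PFD.D2

theorem unm (hung : UngStmt) : UnmStmt := by
  intro R F A A1 _ _ c _ _ _ _ _ _ fb a ha
  obtain ⟨b', h1, h2⟩ := isUnit_iff_exists.1 ha
  obtain ⟨b, rfl⟩ := fb.surj b'
  have e1 : ∃ y, a * b - 1 = c.π • y := by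
    apply fb.ker
    rw [map_sub, map_mul, h1, map_one, sub_self]
  have e2 : ∃ y, b * a - 1 = c.π • y := by
    apply fb.ker
    rw [map_sub, map_mul, h2, map_one, sub_self]
  obtain ⟨y1, hy1⟩ := e1
  obtain ⟨y2, hy2⟩ := e2
  have s1 := (hung R F A1 c (LinearMap.mulLeft R (a * b)) (by
    intro x
    refine ⟨y1 * x, ?_⟩
    have h3 : a * b * x - x = (a * b - 1) * x := by rw [sub_mul, one_mul]
    show a * b * x - x = _
    rw [h3, hy1, smul_mul_assoc])).2 1
  have s2 := (hung R F A1 c (LinearMap.mulRight R (b * a)) (by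
    intro x
    refine ⟨x * y2, ?_⟩
    have h3 : x * (b * a) - x = x * (b * a - 1) := by rw [mul_sub, mul_one]
    show x * (b * a) - x = _
    rw [h3, hy2, mul_smul_comm])).2 1
  obtain ⟨z, hz⟩ := s1
  obtain ⟨w, hw⟩ := s2
  have hz' : a * (b * z) = 1 := by
    rw [← mul_assoc]
    exact hz
  have hw' : (w * b) * a = 1 := by
    rw [mul_assoc]
    exact hw
  have h5 : w * b = b * z := left_inv_eq_right_inv hw' hz'
  exact isUnit_iff_exists.2 ⟨b * z, hz', by rw [← h5]; exact hw'⟩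

end Pool.Agent.PFD.D4.H30
end
end -- Pool.Agent.Helper30_PFD.UNM

section -- Pool.Agent.Helper20_PFE.K1U

/-! Squad PFE, row K1U: the relative trace of `1` in degree `1` is a unit. -/

set_option autoImplicit false

open scoped BigOperators

noncomputable section

namespace Pool.Agent.PFE.H20

open Pool.Agent.PFD
open Pool.Agent.PFD.D2
open Pool.Agent.PFD.D2b
open Pool.Agent.PFD.D4

section lem

variable {R S X Ω W : Type} [CommRing R] [Ring S] [Algebra R S] [Group X] [Fintype X]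
  [DecidableEq X] [Fintype Ω] [CommGroup W] [Fintype W] [MulAction (W × W) Ω] {G : GS R S X}

/-- the part of degree `x` of the relative trace of `1` -/
def Cx (E : WS Ω W G) (x : X) : S := ∑ o, if E.deg o = x then E.f.b o * E.f.b' o else 0

omit [DecidableEq X] in
theorem lam_zero (E : WS Ω W G) {x : X} {a : S} (ha : G.c x a = a) (o o' : Ω)
    (h : (E.deg o')⁻¹ * (x * E.deg o) ≠ 1) : E.f.lam (E.f.b' o' * (a * E.f.b o)) = 0 := by
  have h1 := G.cm x (E.deg o) a (E.f.b o)
  rw [ha, E.gb] at h1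
  have h2 := G.cm (E.deg o')⁻¹ (x * E.deg o) (E.f.b' o') (a * E.f.b o)
  rw [h1, E.gb'] at h2
  rw [← h2]
  exact E.t1 _ _ h

/-- Lemma A -/
theorem mul_Cx (E : WS Ω W G) {x : X} {a : S} (ha : G.c x a = a) (z : X) :
    a * Cx E z = Cx E (x * z) * a := by
  have h1 : a * Cx E z = ∑ o, ∑ o', if E.deg o = z then
      E.f.lam (E.f.b' o' * (a * E.f.b o)) • (E.f.b o' * E.f.b' o) else 0 := by
    unfold Cx
    rw [Finset.mul_sum]
    apply Finset.sum_congr rfl
    intro o _
    by_cases ho : E.deg o = z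
    · simp only [ho, if_true]
      have h2 := E.f.h1 (a * E.f.b o)
      rw [← mul_assoc, ← h2, Finset.sum_mul]
      apply Finset.sum_congr rfl
      intro o' _
      rw [h2, smul_mul_assoc]
    · simp [ho]
  have h3 : Cx E (x * z) * a = ∑ o', ∑ o, if E.deg o' = x * z then
      E.f.lam (E.f.b' o' * (a * E.f.b o)) • (E.f.b o' * E.f.b' o) else 0 := by
    unfold Cx
    rw [Finset.sum_mul]
    apply Finset.sum_congr rfl
    intro o' _
    by_cases ho : E.deg o' = x * z
    · simp only [ho, if_true]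
      have h2 := E.f.h2 (E.f.b' o' * a)
      rw [mul_assoc, ← h2, Finset.mul_sum]
      apply Finset.sum_congr rfl
      intro o _
      rw [mul_smul_comm, mul_assoc (E.f.b' o')]
    · simp [ho]
  rw [h1, h3, Finset.sum_comm]
  apply Finset.sum_congr rfl
  intro o' _
  apply Finset.sum_congr rfl
  intro o _
  by_cases ho : E.deg o = z
  · by_cases ho' : E.deg o' = x * z
    · rw [if_pos ho, if_pos ho']
    · rw [if_pos ho, if_neg ho', lam_zero E ha o o', zero_smul]
      intro h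
      apply ho'
      rw [ho] at h
      exact inv_mul_eq_one.1 h
  · by_cases ho' : E.deg o' = x * z
    · rw [if_neg ho, if_pos ho', lam_zero E ha o o', zero_smul]
      intro h
      apply ho
      rw [ho'] at h
      exact (mul_left_cancel (inv_mul_eq_one.1 h)).symm
    · rw [if_neg ho, if_neg ho']

theorem Cx_deg (E : WS Ω W G) (x : X) : G.c 1 (Cx E x) = Cx E x := by
  unfold Cx
  rw [map_sum]
  apply Finset.sum_congr rfl
  intro o _
  by_cases ho : E.deg o = x
  · rw [if_pos ho]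
    have h2 := G.cm (E.deg o) (E.deg o)⁻¹ (E.f.b o) (E.f.b' o)
    rw [E.gb, E.gb', mul_inv_cancel] at h2
    exact h2
  · rw [if_neg ho, map_zero]

theorem Cx_comm (E : WS Ω W G) (x z : X) : Cx E x * Cx E z = Cx E z * Cx E x := by
  have h := mul_Cx E (Cx_deg E x) z
  rwa [one_mul] at h

theorem sum_Cx (E : WS Ω W G) : ∑ x, Cx E x = (Fintype.card W : R) • E.rho := by
  unfold Cx
  rw [Finset.sum_comm, ← E.rr]
  apply Finset.sum_congr rfl
  intro o _
  rw [Finset.sum_ite_eq]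
  simp

theorem card_K1 (E : WS Ω W G) (T : Finset Ω)
    (hT : ∀ (M : Type) [AddCommMonoid M] (H : Ω → M),
      ∑ o, H o = ∑ t ∈ T, ∑ w : W, H (((1, w) : W × W) • t)) :
    (Fintype.card W : R) • (∑ t ∈ T, if E.deg t = 1 then E.f.b t * E.f.b' t else 0) =
      Cx E 1 := by
  unfold Cx
  rw [hT, Finset.smul_sum]
  apply Finset.sum_congr rfl
  intro t _
  have h : ∀ w : W, (if E.deg (((1, w) : W × W) • t) = 1 then
      E.f.b (((1, w) : W × W) • t) * E.f.b' (((1, w) : W × W) • t) else 0) =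
      if E.deg t = 1 then E.f.b t * E.f.b' t else 0 := by
    intro w
    rw [E.dg]
    by_cases ht : E.deg t = 1
    · rw [if_pos ht, if_pos ht, E.bw, E.bw']
      show E.om 1 * E.f.b t * E.om w⁻¹ * (E.om w * E.f.b' t * E.om 1⁻¹) = _
      rw [inv_one, map_one, one_mul, mul_one]
      calc E.f.b t * E.om w⁻¹ * (E.om w * E.f.b' t)
          = E.f.b t * (E.om w⁻¹ * E.om w) * E.f.b' t := by simp only [mul_assoc]
        _ = E.f.b t * E.f.b' t := by rw [← map_mul, inv_mul_cancel, map_one, mul_one]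
    · rw [if_neg ht, if_neg ht]
  simp only [h]
  rw [Finset.sum_const, Finset.card_univ, Nat.cast_smul_eq_nsmul]

end lem

/-- row K1U -/
theorem k1u (hul : HulStmt) : K1uStmt := by
  intro R F S S0 X Ω W _ _ _ _ c _ _ _ _ _ _ _ _ _ _ _ _ _ G G0 E fs hc hg T hT hor
  obtain ⟨k1, hk1⟩ : ∃ k1, k1 = ∑ t ∈ T, if E.deg t = 1 then E.f.b t * E.f.b' t else 0 :=
    ⟨_, rfl⟩
  rw [← hk1] at hor ⊢
  have hn0 : (Fintype.card W : R) ≠ 0 := Nat.cast_ne_zero.2 Fintype.card_ne_zero
  have hcan : ∀ a b : S, (Fintype.card W : R) • a = (Fintype.card W : R) • b → a = b := by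
    intro a b h
    exact smul_right_injective S hn0 h
  have hC1 : (Fintype.card W : R) • k1 = Cx E 1 := by
    rw [hk1]
    exact card_K1 E T hT
  apply (D4.H30.unm D2.H49.ung) R F S0 S c fs
  rcases hor with h | hnil
  · exact h
  choose m m' hm1 hm2 hm3 using hul R F S S0 X c G G0 fs hc hg
  have hN : ∀ x, (Fintype.card W : R) • (m x * k1 * m' x) = Cx E x := by
    intro x
    have h1 := mul_Cx E (hm1 x) 1
    rw [mul_one, ← hC1] at h1
    calc (Fintype.card W : R) • (m x * k1 * m' x)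
        = m x * ((Fintype.card W : R) • k1) * m' x := by
          rw [mul_smul_comm, smul_mul_assoc]
      _ = Cx E x * (m x * m' x) := by rw [h1, mul_assoc]
      _ = Cx E x := by rw [hm2, mul_one]
  have hsum : ∑ x, m x * k1 * m' x = E.rho := by
    apply hcan
    rw [Finset.smul_sum, ← sum_Cx]
    exact Finset.sum_congr rfl fun x _ => hN x
  have hcomm : ∀ x z, Commute (m x * k1 * m' x) (m z * k1 * m' z) := by
    intro x z
    apply hcan
    apply hcan
    have h1 : ∀ a b : S, (Fintype.card W : R) • (Fintype.card W : R) • (a * b) =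
        ((Fintype.card W : R) • a) * ((Fintype.card W : R) • b) := by
      intro a b
      rw [smul_mul_smul_comm, smul_smul]
    rw [h1, h1, hN, hN, Cx_comm]
  have hnx : ∀ x, IsNilpotent (fs.q (m x * k1 * m' x)) := by
    intro x
    obtain ⟨k, hk⟩ := hnil
    refine ⟨k, ?_⟩
    have h1 : ∀ j : ℕ, (fs.q (m x * k1 * m' x)) ^ (j + 1) =
        fs.q (m x) * (fs.q k1) ^ (j + 1) * fs.q (m' x) := by
      intro j
      induction j with
      | zero => rw [zero_add, pow_one, pow_one, map_mul, map_mul]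
      | succ j ih =>
        rw [pow_succ, ih, map_mul, map_mul]
        calc fs.q (m x) * (fs.q k1) ^ (j + 1) * fs.q (m' x) *
              (fs.q (m x) * fs.q k1 * fs.q (m' x))
            = fs.q (m x) * (fs.q k1) ^ (j + 1) * (fs.q (m' x) * fs.q (m x)) * fs.q k1 *
              fs.q (m' x) := by simp only [mul_assoc]
          _ = fs.q (m x) * (fs.q k1) ^ (j + 1 + 1) * fs.q (m' x) := by
            rw [← map_mul, hm3, map_one, mul_one, pow_succ (fs.q k1) (j + 1), ← mul_assoc]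
    rcases k with _ | k
    · rw [pow_zero] at hk ⊢
      exact hk
    · rw [h1, hk, mul_zero, zero_mul]
  have hrho : IsNilpotent (fs.q E.rho) := by
    rw [← hsum, map_sum]
    exact Commute.isNilpotent_sum (fun x _ => hnx x) fun x z _ _ => (hcomm x z).map fs.q
  have hu : IsUnit (fs.q E.rho) := E.ru.map fs.q
  have h10 : (1 : S0) = 0 := by
    obtain ⟨k, hk⟩ := hrho
    have h2 := hu.pow k
    rw [hk] at h2
    obtain ⟨u, hu2⟩ := h2
    calc (1 : S0) = u * (↑u⁻¹ : S0) := by rw [Units.mul_inv]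
      _ = 0 := by rw [hu2, zero_mul]
  have hss : Subsingleton S0 := subsingleton_of_zero_eq_one h10.symm
  exact isUnit_of_subsingleton _

end Pool.Agent.PFE.H20
end
end -- Pool.Agent.Helper20_PFE.K1U

section -- Pool.Agent.Helper24_PFD.RWF

set_option autoImplicit false

/-!
# Squad PFD, row RWF: the reduction of a `WFS` and of the bimodule `X`
-/

open scoped BigOperators

noncomputable section

namespace Pool.Agent.PFD.D2b.H24

open MulOpposite
open Pool.Agent.PFC.B1 (BiM FS)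
open Pool.Agent.PFD.D2

section
variable {R F Γ Γ0 W I : Type} [CommRing R] [Field F] {c : Cdv R F} [Ring Γ] [Algebra R Γ]
  [Ring Γ0] [Algebra F Γ0]

theorem fq_smul (f : FibG Γ Γ0 c) (r : R) (x : Γ) : f.q (r • x) = c.κ r • f.q x := by
  rw [Algebra.smul_def, map_mul, f.sc, ← Algebra.smul_def]

theorem ka_pi : c.κ c.π = 0 := (c.ker c.π).2 ⟨1, (mul_one _).symm⟩

theorem key (f : FibG Γ Γ0 c) (lam : Γ →ₗ[R] R) {x x' : Γ} (h : f.q x = f.q x') :
    c.κ (lam x) = c.κ (lam x') := by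
  obtain ⟨y, hy⟩ := f.ker (x - x') (by rw [map_sub, h, sub_self])
  have h1 : x = x' + c.π • y := by rw [← hy]; abel
  rw [h1, map_add, map_smul, smul_eq_mul, map_add, map_mul, ka_pi, zero_mul, add_zero]

/-- the reduction of a linear form -/
def lam0 (f : FibG Γ Γ0 c) (lam : Γ →ₗ[R] R) : Γ0 →ₗ[F] F where
  toFun := fun z => c.κ (lam (Function.surjInv f.surj z))
  map_add' := fun a b => by
    rw [← map_add, ← map_add]
    apply key f lam
    rw [map_add, Function.surjInv_eq f.surj, Function.surjInv_eq f.surj,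
      Function.surjInv_eq f.surj]
  map_smul' := fun r0 a => by
    obtain ⟨r, rfl⟩ := c.surj r0
    have h : c.κ (lam (Function.surjInv f.surj (c.κ r • a))) =
        c.κ (lam (r • Function.surjInv f.surj a)) := by
      apply key f lam
      rw [fq_smul, Function.surjInv_eq f.surj, Function.surjInv_eq f.surj]
    rw [h, map_smul, smul_eq_mul, map_mul]
    rfl

theorem lam0_q (f : FibG Γ Γ0 c) (lam : Γ →ₗ[R] R) (x : Γ) :
    lam0 f lam (f.q x) = c.κ (lam x) :=
  key f lam (Function.surjInv_eq f.surj _)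

variable [CommGroup W] [Fintype W] [Fintype I]

/-- the reduction of a `WFS` -/
def red (f : FibG Γ Γ0 c) (D : WFS R Γ W I) : WFS F Γ0 W I where
  lam := lam0 f D.lam
  sym := fun a b => by
    obtain ⟨x, rfl⟩ := f.surj a
    obtain ⟨y, rfl⟩ := f.surj b
    rw [← map_mul, ← map_mul, lam0_q, lam0_q, D.sym]
  om := (f.q : Γ →* Γ0).comp D.om
  cf := fun i => f.q (D.cf i)
  cf' := fun i => f.q (D.cf' i)
  h1 := fun a => by
    obtain ⟨x, rfl⟩ := f.surj a
    conv_rhs => rw [← D.h1 x]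
    rw [map_sum]
    refine Finset.sum_congr rfl fun i _ => ?_
    rw [map_sum]
    refine Finset.sum_congr rfl fun w _ => ?_
    show lam0 f D.lam (f.q (D.om w⁻¹) * f.q (D.cf' i) * f.q x) •
      (f.q (D.cf i) * f.q (D.om w)) = _
    rw [← map_mul, ← map_mul, ← map_mul, lam0_q, fq_smul]
  h2 := fun a => by
    obtain ⟨x, rfl⟩ := f.surj a
    conv_rhs => rw [← D.h2 x]
    rw [map_sum]
    refine Finset.sum_congr rfl fun i _ => ?_
    rw [map_sum]
    refine Finset.sum_congr rfl fun w _ => ?_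
    show lam0 f D.lam (f.q x * (f.q (D.cf i) * f.q (D.om w))) •
      (f.q (D.om w⁻¹) * f.q (D.cf' i)) = _
    rw [← map_mul, ← map_mul, ← map_mul, lam0_q, fq_smul]
  d1 := fun i w => by
    show lam0 f D.lam (f.q (D.om w⁻¹) * f.q (D.cf' i) * (f.q (D.cf i) * f.q (D.om w))) = 1
    rw [← map_mul, ← map_mul, ← map_mul, lam0_q, D.d1, map_one]
  d0 := fun i j u w h => by
    show lam0 f D.lam (f.q (D.om u⁻¹) * f.q (D.cf' i) * (f.q (D.cf j) * f.q (D.om w))) = 0
    rw [← map_mul, ← map_mul, ← map_mul, lam0_q, D.d0 i j u w h, map_zero]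
  ph := D.ph
  phb := D.phb
  nrm := fun i w => by
    show f.q (D.om w) * f.q (D.cf i) = f.q (D.cf i) * f.q (D.om (D.ph i w))
    rw [← map_mul, ← map_mul, D.nrm]

end

/-- **RWF** -/
theorem rwf : RwfStmt := by
  intro R F Γ Γ0 W I _ _ c _ _ _ _ f _ _ _ D
  refine ⟨red f D, fun x => lam0_q f D.lam x, fun _ => rfl, fun _ => rfl, fun _ => rfl, ?_⟩
  intro Ω _ _ BX B0 hX h0
  refine ⟨{ s := { toFun := fun x t => f.q (x t)
                   map_zero' := ?_
                   map_add' := ?_ }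
            sc := ?_
            lm := ?_
            rm := ?_
            surj := ?_
            ker := ?_ }⟩
  · funext t
    exact map_zero f.q
  · intro x y
    funext t
    exact map_add f.q _ _
  · intro r x
    funext t
    exact fq_smul f r (x t)
  · intro γ x
    funext t
    obtain ⟨j, ω⟩ := t
    show f.q (BX.lm γ x (j, ω)) = B0.lm (f.q γ) (fun t => f.q (x t)) (j, ω)
    rw [hX.1, h0.1, map_sum]
    refine Finset.sum_congr rfl fun i _ => ?_
    rw [map_sum]
    refine Finset.sum_congr rfl fun w _ => ?_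
    show _ = lam0 f D.lam (f.q (D.om w⁻¹) * f.q (D.cf' j) * f.q γ * f.q (D.cf i)) •
      (f.q (D.om w) * f.q (x (i, w⁻¹ • ω)))
    rw [← map_mul, ← map_mul, ← map_mul, ← map_mul, lam0_q, fq_smul]
  · intro γ x
    funext t
    show f.q (BX.rm (op γ) x t) = B0.rm (op (f.q γ)) (fun t => f.q (x t)) t
    rw [hX.2, h0.2, map_mul]
  · intro y
    refine ⟨fun t => Function.surjInv f.surj (y t), ?_⟩
    funext t
    exact Function.surjInv_eq f.surj _
  · intro x hx
    have h : ∀ t, ∃ y, x t = c.π • y := fun t => f.ker _ (congrFun hx t)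
    choose y hy using h
    exact ⟨y, funext hy⟩

end Pool.Agent.PFD.D2b.H24
end
end -- Pool.Agent.Helper24_PFD.RWF

section -- Pool.Agent.Helper33_PFD.FRM

/-!
Squad PFD, row FRM (helper33): the symmetric form lifts.
-/

open scoped BigOperators

noncomputable section

namespace Pool.Agent.PFD.D4.H33

open Pool.Agent.PFC.B1 (BiM FS Sep Split)
open Pool.Agent.PFD.D2
open Pool.Agent.PFD.D2b
open Pool.Agent.PFD.D4

theorem frm (rtc : RtcStmt) : FrmStmt := by
  intro R F Γ Γ0 A A1 W I N _ _ c _ _ _ _ _ _ _ _ _ _ _ _ D f fb j0 pr0 j pr s u mu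
    pr_l pr_r cp un1 uc ms mp mk
  obtain ⟨r1, -, r3⟩ := rtc R Γ A1 N j pr s
  have hz1 : ∀ a, a * s.rt 1 = s.rt 1 * a := r1 1 (fun γ => by rw [mul_one, one_mul])
  obtain ⟨z, hz⟩ := un1
  have hi1 : s.rt 1 * (↑z⁻¹ : A1) = 1 := by rw [← hz]; exact z.mul_inv
  have hi2 : (↑z⁻¹ : A1) * s.rt 1 = 1 := by rw [← hz]; exact z.inv_mul
  obtain ⟨z2, hz2⟩ : ∃ z2 : A1, z2 = ↑z⁻¹ := ⟨_, rfl⟩
  rw [← hz2] at hi1 hi2
  have hc2 : ∀ a, a * z2 = z2 * a := fun a =>
    calc a * z2 = z2 * s.rt 1 * a * z2 := by rw [hi2, one_mul]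
      _ = z2 * (a * s.rt 1) * z2 := by rw [mul_assoc z2, hz1]
      _ = z2 * a * (s.rt 1 * z2) := by simp only [mul_assoc]
      _ = z2 * a := by rw [hi1, mul_one]
  obtain ⟨la, hla⟩ : ∃ la : A1 →ₗ[R] R, ∀ a, la a = D.lam (u * pr a) :=
    ⟨D.lam ∘ₗ LinearMap.mulLeft R u ∘ₗ pr, fun a => rfl⟩
  have lj : ∀ γ a, la (j γ * a) = la (a * j γ) := fun γ a => by
    rw [hla, hla, pr_l, pr_r, ← mul_assoc, uc, mul_assoc, D.sym, mul_assoc]
  have lk : ∀ a, c.κ (la a) = mu (fb.q a) := fun a => by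
    rw [hla, mk, ← cp, mp]
  refine ⟨∑ k, la ∘ₗ LinearMap.mulLeft R (s.y k * z2) ∘ₗ LinearMap.mulRight R (s.x k), ?_, ?_⟩
  · intro a b
    have h := r3 R (LinearMap.mk₂ R (fun x y => la (y * (z2 * a * x)))
      (fun x x' y => by rw [mul_add, mul_add, map_add])
      (fun r x y => by rw [mul_smul_comm, mul_smul_comm, map_smul])
      (fun x y y' => by rw [add_mul, map_add])
      (fun r x y => by rw [smul_mul_assoc, map_smul]))
      (fun x y γ => by
        simp only [LinearMap.mk₂_apply]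
        rw [mul_assoc (j γ), lj, mul_assoc y, mul_assoc (z2 * a)]) b
    simp only [LinearMap.mk₂_apply] at h
    simp only [LinearMap.sum_apply, LinearMap.comp_apply, LinearMap.mulLeft_apply,
      LinearMap.mulRight_apply]
    calc ∑ k, la (s.y k * z2 * (a * b * s.x k))
        = ∑ k, la (s.y k * (z2 * a * (b * s.x k))) := by simp only [mul_assoc]
      _ = ∑ k, la (s.y k * b * (z2 * a * s.x k)) := h
      _ = ∑ k, la (s.y k * z2 * (b * a * s.x k)) := by
        refine Finset.sum_congr rfl fun k _ => ?_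
        rw [mul_assoc z2 a, ← mul_assoc (s.y k * b) z2, mul_assoc (s.y k) b z2, hc2 b,
          ← mul_assoc (s.y k) z2 b, mul_assoc (s.y k * z2) b, mul_assoc b a]
  · intro a
    simp only [LinearMap.sum_apply, LinearMap.comp_apply, LinearMap.mulLeft_apply,
      LinearMap.mulRight_apply]
    rw [map_sum]
    calc ∑ k, c.κ (la (s.y k * z2 * (a * s.x k)))
        = ∑ k, mu (fb.q (z2 * a * (s.x k * 1 * s.y k))) := by
          refine Finset.sum_congr rfl fun k _ => ?_
          rw [lk, mul_assoc (s.y k), map_mul, ms, ← map_mul]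
          congr 2
          simp only [mul_assoc, one_mul]
      _ = mu (fb.q (z2 * a * s.rt 1)) := by
        rw [← map_sum, ← map_sum, ← Finset.mul_sum]
        rfl
      _ = mu (fb.q a) := by
        rw [mul_assoc, hz1, ← mul_assoc, hi2, one_mul]

end Pool.Agent.PFD.D4.H33
end
end -- Pool.Agent.Helper33_PFD.FRM

section -- Pool.Agent.Helper33_PFD.LCU

/-!
# Squad PFD, row LCU: comparison of two symmetric forms
-/

open scoped BigOperators

noncomputable section

namespace Pool.Agent.PFD.D2b.H33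

open Pool.Agent.PFC.B1 (BiM FS Sep)
open Pool.Agent.PFD.D2 Pool.Agent.PFD.D2b

section

variable {R A J : Type} [CommRing R] [Ring A] [Algebra R A] [Fintype J]

theorem fs_ext (c : FS R A J) {a a' : A} (h : ∀ x, c.lam (a * x) = c.lam (a' * x)) :
    a = a' := by
  rw [← c.h2 a, ← c.h2 a']
  exact Finset.sum_congr rfl fun i _ => by rw [h]

/-- a symmetric form is given by a central element -/
theorem fs_form (c : FS R A J) (cs : ∀ x y, c.lam (x * y) = c.lam (y * x)) (t : A →ₗ[R] R)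
    (ht : ∀ x y, t (x * y) = t (y * x)) :
    ∃ z : A, (∀ γ, z * γ = γ * z) ∧ ∀ x, t x = c.lam (z * x) := by
  have h1 : ∀ x, t x = c.lam ((∑ s, t (c.b s) • c.b' s) * x) := by
    intro x
    conv_lhs => rw [← c.h1 x]
    rw [map_sum, Finset.sum_mul, map_sum]
    refine Finset.sum_congr rfl fun s _ => ?_
    rw [map_smul, smul_mul_assoc, map_smul, smul_eq_mul, smul_eq_mul, mul_comm]
  refine ⟨∑ s, t (c.b s) • c.b' s, fun γ => ?_, h1⟩
  refine fs_ext c fun x => ?_
  rw [mul_assoc, ← h1, mul_assoc, cs γ, mul_assoc, ← h1, ht]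

end

/-- LCU -/
theorem lcu : LcuStmt := by
  intro R Γ W I _ _ _ _ _ _ D
  refine ⟨fun t ht => fs_form D.fs D.sym t ht, fun I' _ D' => ?_⟩
  obtain ⟨z, hz, hz1⟩ := fs_form D'.fs D'.sym D.lam D.sym
  obtain ⟨z', hz', hz1'⟩ := fs_form D.fs D.sym D'.lam D'.sym
  refine ⟨z, z', hz, ?_, ?_, hz', hz1⟩
  · refine fs_ext D'.fs fun x => ?_
    rw [mul_assoc, ← hz1, one_mul]
    exact (hz1' x).symm
  · refine fs_ext D.fs fun x => ?_
    rw [mul_assoc, ← hz1', one_mul]
    exact (hz1 x).symm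

end Pool.Agent.PFD.D2b.H33
end
end -- Pool.Agent.Helper33_PFD.LCU

section -- Pool.Agent.Helper92_PFD.ULF

/-!
# Squad PFD, part D4: row ULF (helper92)
-/

open scoped BigOperators

noncomputable section

namespace Pool.Agent.PFD.H92

open Pool.Agent.PFC.B1 (BiM FS Sep Split)
open Pool.Agent.PFD.D2
open Pool.Agent.PFD.D2b

theorem ulf (hlcu : LcuStmt) (hrwf : RwfStmt) : D4.UlfStmt := by
  intro R F Γ Γ0 A W I _ _ c _ _ _ _ _ _ _ _ _ _ D f j0 pr0 mu hpj hpl hms hort hmn hctr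
  obtain ⟨D0, hD0, -⟩ := hrwf R F Γ Γ0 W I c f D
  obtain ⟨h1, -⟩ := hlcu F Γ0 W I D0
  obtain ⟨u0, hu0c, hu0⟩ := h1 (mu ∘ₗ j0.toLinearMap) (fun x y => by
    show mu (j0 (x * y)) = mu (j0 (y * x))
    rw [map_mul j0 x y, map_mul j0 y x, hms])
  have hu0' : ∀ γ, mu (j0 γ) = D0.lam (u0 * γ) := hu0
  have hinj : ∀ γ, u0 * γ = 0 → γ = 0 := fun γ hγ => by
    have h2 : ∀ a, mu (j0 γ * a) = 0 := fun a => by
      rw [← hort, hpl, hu0', ← mul_assoc, hγ, zero_mul, map_zero]
    have h3 := hmn _ h2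
    rw [← hpj γ, h3, map_zero]
  have hinj' : Function.Injective (LinearMap.mulLeft F u0) := by
    rw [injective_iff_map_eq_zero]
    exact fun γ hγ => hinj γ hγ
  have hsurj : Function.Surjective (LinearMap.mulLeft F u0) :=
    LinearMap.injective_iff_surjective.1 hinj'
  obtain ⟨w, hw⟩ := hsurj 1
  have hw1 : u0 * w = 1 := hw
  have hunit : IsUnit u0 := ⟨⟨u0, w, hw1, by rw [← hu0c, hw1]⟩, rfl⟩
  obtain ⟨u, hu1, hu2⟩ := hctr u0 hu0c
  refine ⟨u, hu1, by rw [hu2]; exact hunit, fun γ => ?_⟩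
  rw [← hD0, map_mul, hu2, hu0']

end Pool.Agent.PFD.H92
end
end -- Pool.Agent.Helper92_PFD.ULF

section -- Pool.Agent.Helper20_PFE.LZE

/-! Squad PFE, row LZE: the final lift (copy of `lrx` in `Helper81_PFD/KLT.lean`). -/

set_option autoImplicit false

open scoped BigOperators

noncomputable section

namespace Pool.Agent.PFE.H20

open Pool.Agent.PFD
open Pool.Agent.PFD.D2
open Pool.Agent.PFD.D2b
open Pool.Agent.PFD.D4

theorem lze0 (rfl' : RflStmt) (unm : UnmStmt) (ulf : UlfStmt) (frm : FrmStmt) (gwf : GwfStmt)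
    (ory : OryStmt) : LzeStmt := by
  intro R F Γ Γ0 W A A1 X N K Ω Ω' Ω1 Ω1' _ _ c _ _ _ _ _ _ _ _ _ _ _ _ _ _ _ _ _ _ _ _ _ _ _ _
    _ _ l G G0 f χ χ0 fl ly hl
  obtain ⟨D, hD, -⟩ := gwf R Γ W l G hl
  obtain ⟨s, sx, sy⟩ := rfl' R F Γ Γ0 A A1 N c f ly.fb fl.j fl.pr ly.j ly.pr fl.x fl.y ly.pr_j
    ly.pr_l ly.pr_r ly.cj ly.cp fl.e1 fl.e2
  have hs1 : IsUnit (s.rt 1) := by
    apply unm R F A A1 c ly.fb
    have h := fl.unt 1 isUnit_one
    have h2 : ly.fb.q (s.rt 1) = ∑ k, fl.x k * fl.j 1 * fl.y k := by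
      unfold RF.rt
      rw [map_sum]
      refine Finset.sum_congr rfl fun k _ => ?_
      rw [map_mul, map_mul, sx, sy, map_one, map_one]
    rw [h2]
    exact h
  obtain ⟨u, uc, uu, hu⟩ := ulf R F Γ Γ0 A W (Fin l) c D f fl.j fl.pr fl.mu fl.pr_j fl.pr_l
    fl.mus fl.orth fl.mun (fun a _ => by
      obtain ⟨b, hb⟩ := f.surj a
      exact ⟨b, fun γ => mul_comm _ _, hb⟩)
  obtain ⟨tA, t1, t2⟩ := frm R F Γ Γ0 A A1 W (Fin l) N c D f ly.fb fl.j fl.pr ly.j ly.pr s u fl.mu
    ly.pr_l ly.pr_r ly.cp hs1 uc fl.mus fl.orth hu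
  obtain ⟨ly', u1, u1', hfb, hj, uu1, ht⟩ := ory R F Γ Γ0 W A A1 X Ω1 Ω1' c l G f χ fl.j fl.pr
    fl.mu ly tA hl fl.pr_j fl.pr_l fl.pr_r fl.mus fl.orth fl.mun t1 t2
  obtain ⟨s', sx', sy'⟩ := rfl' R F Γ Γ0 A A1 N c f ly'.fb fl.j fl.pr ly'.j ly'.pr fl.x fl.y
    ly'.pr_j ly'.pr_l ly'.pr_r ly'.cj ly'.cp fl.e1 fl.e2
  have key : ∀ w : Γ, ly'.fb.q (s'.rt (ly'.j w)) = ∑ k, fl.x k * fl.j (f.q w) * fl.y k := by
    intro w
    unfold RF.rt
    rw [map_sum]
    refine Finset.sum_congr rfl fun k _ => ?_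
    rw [map_mul, map_mul, sx', sy', ly'.cj]
  have uu2 : u1' * u1 = 1 := by rw [mul_comm, uu1]
  refine ⟨{ ly' with
    rf := s'
    tA := tA
    ts := t1
    u := u1
    u' := u1'
    uu := uu1
    ort := ht
    un1 := ?_
    unu := ?_ }⟩
  · apply unm R F A A1 c ly'.fb
    have h := key 1
    rw [map_one] at h
    rw [h]
    refine fl.unt _ ?_
    rw [map_one]; exact isUnit_one
  · apply unm R F A A1 c ly'.fb
    have h := key u1'
    rw [h]
    refine fl.unt _ ?_
    have h3 : f.q u1' * f.q u1 = 1 := by rw [← map_mul, uu2, map_one]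
    have h4 : f.q u1 * f.q u1' = 1 := by rw [← map_mul, uu1, map_one]
    exact ⟨⟨f.q u1', f.q u1, h3, h4⟩, rfl⟩

/-- row LZE -/
theorem lze (gwf : GwfStmt) (ory : OryStmt) : LzeStmt :=
  lze0 (D4.H15.rfl_ D2.H49.ung) (D4.H30.unm D2.H49.ung) (H92.ulf D2b.H33.lcu D2b.H24.rwf)
    (D4.H33.frm D4.H91.rtc) gwf ory

end Pool.Agent.PFE.H20
end
end -- Pool.Agent.Helper20_PFE.LZE

section -- Pool.Agent.Helper22_PSS.RGV

/-!
# Squad PSS, block S1, part a, row RGV (helper22): the ring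
-/

set_option autoImplicit false

namespace Pool.Agent.PSS.H22

open Pool.Agent.PSS
open Pool.Agent.PFD.D2 (Cdv FibG)

theorem rgv : RgvStmt := by
  intro R F V A M _ _ c _ _ _ _ _ _ _ α ρ q hq β hβ hm hasr
  obtain ⟨hl, hmid, hr⟩ := hβ
  have hassoc : ∀ x y z, β (β x y) z = β x (β y z) := fun x y z => sub_eq_zero.1 (hasr x y z)
  obtain ⟨e, he⟩ := hq.sj 1
  have hb1 : Function.Bijective (β e) := by
    refine Pool.Agent.PFD.D2.H49.ung R F M c (β e) (fun x => (hq.kr _).1 ?_)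
    rw [map_sub, hm, he, one_mul, sub_self]
  have hb2 : Function.Bijective (β.flip e) := by
    refine Pool.Agent.PFD.D2.H49.ung R F M c (β.flip e) (fun x => (hq.kr _).1 ?_)
    rw [map_sub, LinearMap.flip_apply, hm, he, mul_one, sub_self]
  obtain ⟨e1, he1⟩ := hb1.2 e
  obtain ⟨e2, he2⟩ := hb2.2 e
  have hone : ∀ x, β e1 x = x := by
    intro x
    apply hb1.1
    rw [← hassoc, he1]
  have hone2 : ∀ x, β x e2 = x := by
    intro x
    apply hb2.1
    rw [LinearMap.flip_apply, LinearMap.flip_apply, hassoc]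
    rw [LinearMap.flip_apply] at he2
    rw [he2]
  have h12 : e1 = e2 := by rw [← hone2 e1, hone e2]
  have hone' : ∀ x, β x e1 = x := by
    intro x
    rw [h12]
    exact hone2 x
  have hqe : q e1 = 1 := by
    have h := hm e1 e
    rw [hone e, he, mul_one] at h
    exact h.symm
  let S : Subalgebra R (Module.End R M) :=
    { carrier := Set.range β
      mul_mem' := by
        rintro _ _ ⟨x, rfl⟩ ⟨y, rfl⟩
        refine ⟨β x y, ?_⟩
        ext z
        exact hassoc x y z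
      add_mem' := by
        rintro _ _ ⟨x, rfl⟩ ⟨y, rfl⟩
        exact ⟨x + y, map_add β x y⟩
      algebraMap_mem' := by
        intro r
        refine ⟨r • e1, ?_⟩
        ext z
        rw [map_smul, LinearMap.smul_apply, hone z]
        rfl }
  have hS : ∀ x, β x ∈ S := fun x => ⟨x, rfl⟩
  let φ₀ : M →ₗ[R] S :=
    { toFun := fun x => ⟨β x, hS x⟩
      map_add' := fun x y => Subtype.ext (map_add β x y)
      map_smul' := fun r x => Subtype.ext (map_smul β r x) }
  have hφ₀ : Function.Bijective φ₀ := by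
    constructor
    · intro x y hxy
      have h : β x = β y := congrArg Subtype.val hxy
      rw [← hone' x, ← hone' y, h]
    · rintro ⟨_, ⟨x, rfl⟩⟩
      exact ⟨x, rfl⟩
  let φ : M ≃ₗ[R] S := LinearEquiv.ofBijective φ₀ hφ₀
  have hφv : ∀ x, (φ x : Module.End R M) = β x := fun x => rfl
  have hφm : ∀ x y, φ (β x y) = φ x * φ y := by
    intro x y
    apply Subtype.ext
    ext z
    exact hassoc x y z
  have hφ1 : φ e1 = 1 := by
    apply Subtype.ext
    ext z
    exact hone z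
  have hlu : ∀ u x, φ (ρ (u, 1) x) = φ (ρ (u, 1) e1) * φ x := by
    intro u x
    rw [← hφm, hl, hone]
  have hru : ∀ v x, ρ (1, v) x = β x (ρ (v⁻¹, 1) e1) := by
    intro v x
    have h := hmid v e1 e1
    rw [hone', hone] at h
    rw [← h, hr, hone']
  let α' : V →* S :=
    { toFun := fun v => φ (ρ (v, 1) e1)
      map_one' := by
        have h : ((1, 1) : V × V) = 1 := rfl
        rw [h, map_one]
        exact hφ1
      map_mul' := by
        intro u v
        rw [← hlu]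
        have h : ((u * v, 1) : V × V) = (u, 1) * (v, 1) := by
          rw [Prod.mk_mul_mk, mul_one]
        rw [h, map_mul]
        rfl }
  have hα' : ∀ v, α' v = φ (ρ (v, 1) e1) := fun v => rfl
  refine ⟨S, inferInstance, inferInstance, φ, α', hφm, ?_, ?_, ?_⟩
  · intro u v x
    have h : ((u, v) : V × V) = (u, 1) * (1, v) := by
      rw [Prod.mk_mul_mk, mul_one, one_mul]
    rw [h, map_mul, hα', hα', ← hlu, ← hφm, hl, ← hru]
    rfl
  · intro v
    rw [hα', LinearEquiv.symm_apply_apply, hq.eq, hqe]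
    show α (v, (1 : V)).1 * (1 * α (v, (1 : V)).2⁻¹) = α v
    rw [inv_one, map_one, mul_one, mul_one]
  · rw [← hφ1, LinearEquiv.symm_apply_apply, hqe]

end Pool.Agent.PSS.H22
end -- Pool.Agent.Helper22_PSS.RGV

section -- Pool.Agent.Helper25_PFE.HUL

/-! Squad PFE, row HUL: homogeneous units lift. -/

noncomputable section

namespace Pool.Agent.PFE.H25

open Pool.Agent.PFD.D2

theorem hul : HulStmt := by
  intro R F S S0 X _ _ c _ _ _ _ _ _ _ _ G G0 fs hc hu x
  obtain ⟨g0, g0', h1, h2, h3⟩ := hu x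
  obtain ⟨s, hs⟩ := fs.surj g0
  have hq : fs.q (G.c x s) = g0 := by rw [hc, hs, h1]
  have hun : IsUnit (G.c x s) := by
    apply Pool.Agent.PFD.D4.H30.unm Pool.Agent.PFD.D2.H49.ung R F S0 S c fs
    rw [hq]
    exact isUnit_iff_exists.2 ⟨g0', h2, h3⟩
  obtain ⟨g', h4, h5⟩ := isUnit_iff_exists.1 hun
  exact ⟨G.c x s, g', G.ci x s, h4, h5⟩

end Pool.Agent.PFE.H25
end
end -- Pool.Agent.Helper25_PFE.HUL

section -- Pool.Agent.Helper25_PFE.S1Y

/-! Squad PFE, row S1Y: the centre of the part of degree `1` lifts. -/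

open scoped BigOperators

noncomputable section

namespace Pool.Agent.PFE.H25

open Pool.Agent.PFD.D2

section gr

variable {R S X : Type} [CommRing R] [Ring S] [Algebra R S] [Group X] [Fintype X]

theorem s1y_lm (G : GS R S X) (a : S) (ha : G.c 1 a = a) (x : X) (s : S) :
    G.c x (a * s) = a * G.c x s := by
  classical
  have h1 : ∀ x', G.c x' (a * G.c x' s) = a * G.c x' s := by
    intro x'
    have h := G.cm 1 x' a s
    rw [one_mul, ha] at h
    exact h
  have h2 : ∀ x', G.c x (a * G.c x' s) = if x' = x then a * G.c x s else 0 := by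
    intro x'
    split_ifs with hx
    · rw [hx]; exact h1 x
    · rw [← h1 x']
      exact G.co x x' _ (fun h => hx h.symm)
  calc G.c x (a * s) = G.c x (a * ∑ x', G.c x' s) := by rw [G.cs]
    _ = ∑ x', G.c x (a * G.c x' s) := by rw [Finset.mul_sum, map_sum]
    _ = ∑ x', if x' = x then a * G.c x s else 0 := Finset.sum_congr rfl fun x' _ => h2 x'
    _ = a * G.c x s := by simp

theorem s1y_rm (G : GS R S X) (a : S) (ha : G.c 1 a = a) (x : X) (s : S) :
    G.c x (s * a) = G.c x s * a := by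
  classical
  have h1 : ∀ x', G.c x' (G.c x' s * a) = G.c x' s * a := by
    intro x'
    have h := G.cm x' 1 s a
    rw [mul_one, ha] at h
    exact h
  have h2 : ∀ x', G.c x (G.c x' s * a) = if x' = x then G.c x s * a else 0 := by
    intro x'
    split_ifs with hx
    · rw [hx]; exact h1 x
    · rw [← h1 x']
      exact G.co x x' _ (fun h => hx h.symm)
  calc G.c x (s * a) = G.c x ((∑ x', G.c x' s) * a) := by rw [G.cs]
    _ = ∑ x', G.c x (G.c x' s * a) := by rw [Finset.sum_mul, map_sum]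
    _ = ∑ x', if x' = x then G.c x s * a else 0 := Finset.sum_congr rfl fun x' _ => h2 x'
    _ = G.c x s * a := by simp

theorem s1y_mul (G : GS R S X) {a b : S} (ha : G.c 1 a = a) (hb : G.c 1 b = b) :
    G.c 1 (a * b) = a * b := by
  rw [s1y_lm G a ha, hb]

end gr

section tr

variable {R S X Ω W : Type} [CommRing R] [Ring S] [Algebra R S] [Group X] [Fintype X]
  [DecidableEq X] [Fintype Ω] [CommGroup W] [Fintype W] [MulAction (W × W) Ω] {G : GS R S X}

theorem s1y_b (E : WS Ω W G) {o : Ω} (h : E.deg o = 1) : G.c 1 (E.f.b o) = E.f.b o := by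
  have h1 := E.gb o
  rw [h] at h1
  exact h1

theorem s1y_b' (E : WS Ω W G) {o : Ω} (h : E.deg o = 1) : G.c 1 (E.f.b' o) = E.f.b' o := by
  have h1 := E.gb' o
  rw [h, inv_one] at h1
  exact h1

/-- `lam` of an element of degree `x ≠ 1` is `0` -/
theorem s1y_lam0 (E : WS Ω W G) {x : X} (hx : x ≠ 1) {s : S} (h : G.c x s = s) :
    E.f.lam s = 0 := by
  rw [← h]
  exact E.t1 x s hx

theorem s1y_e1 (E : WS Ω W G) {a : S} (ha : G.c 1 a = a) {o : Ω} (ho : E.deg o = 1) :
    a * E.f.b o = ∑ o', if E.deg o' = 1 then E.f.lam (E.f.b' o' * (a * E.f.b o)) • E.f.b o'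
      else 0 := by
  have hab : G.c 1 (a * E.f.b o) = a * E.f.b o := s1y_mul G ha (s1y_b E ho)
  calc a * E.f.b o = ∑ o', E.f.lam (E.f.b' o' * (a * E.f.b o)) • E.f.b o' := (E.f.h1 _).symm
    _ = _ := by
      refine Finset.sum_congr rfl fun o' _ => ?_
      split_ifs with h
      · rfl
      · have h3 : G.c (E.deg o')⁻¹ (E.f.b' o' * (a * E.f.b o)) = E.f.b' o' * (a * E.f.b o) := by
          rw [s1y_rm G _ hab, E.gb']
        rw [s1y_lam0 E (fun h' => h (inv_eq_one.1 h')) h3, zero_smul]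

theorem s1y_e2 (E : WS Ω W G) {a : S} (ha : G.c 1 a = a) {o' : Ω} (ho : E.deg o' = 1) :
    E.f.b' o' * a = ∑ o, if E.deg o = 1 then E.f.lam (E.f.b' o' * (a * E.f.b o)) • E.f.b' o
      else 0 := by
  have hab : G.c 1 (E.f.b' o' * a) = E.f.b' o' * a := s1y_mul G (s1y_b' E ho) ha
  calc E.f.b' o' * a = ∑ o, E.f.lam ((E.f.b' o' * a) * E.f.b o) • E.f.b' o := (E.f.h2 _).symm
    _ = _ := by
      refine Finset.sum_congr rfl fun o _ => ?_
      rw [mul_assoc]
      split_ifs with h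
      · rfl
      · have h3 : G.c (E.deg o) (E.f.b' o' * (a * E.f.b o)) = E.f.b' o' * (a * E.f.b o) := by
          rw [← mul_assoc, s1y_lm G _ hab, E.gb]
        rw [s1y_lam0 E h h3, zero_smul]

/-- the sum over all `o` of degree `1` commutes with the elements of degree `1` -/
theorem s1y_cen (E : WS Ω W G) (s : S) {a : S} (ha : G.c 1 a = a) :
    a * (∑ o, if E.deg o = 1 then E.f.b o * s * E.f.b' o else 0) =
      (∑ o, if E.deg o = 1 then E.f.b o * s * E.f.b' o else 0) * a := by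
  have hl : a * (∑ o, if E.deg o = 1 then E.f.b o * s * E.f.b' o else 0) =
      ∑ o, ∑ o', if E.deg o = 1 then (if E.deg o' = 1 then
        E.f.lam (E.f.b' o' * (a * E.f.b o)) • (E.f.b o' * s * E.f.b' o) else 0) else 0 := by
    rw [Finset.mul_sum]
    refine Finset.sum_congr rfl fun o _ => ?_
    split_ifs with h
    · calc a * (E.f.b o * s * E.f.b' o) = (a * E.f.b o) * (s * E.f.b' o) := by
            simp only [mul_assoc]
        _ = _ := by
            rw [s1y_e1 E ha h, Finset.sum_mul]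
            refine Finset.sum_congr rfl fun o' _ => ?_
            split_ifs with h'
            · rw [← s1y_e1 E ha h, smul_mul_assoc, mul_assoc]
            · rw [zero_mul]
    · simp
  have hr : (∑ o, if E.deg o = 1 then E.f.b o * s * E.f.b' o else 0) * a =
      ∑ o', ∑ o, if E.deg o = 1 then (if E.deg o' = 1 then
        E.f.lam (E.f.b' o' * (a * E.f.b o)) • (E.f.b o' * s * E.f.b' o) else 0) else 0 := by
    rw [Finset.sum_mul]
    refine Finset.sum_congr rfl fun o' _ => ?_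
    split_ifs with h
    · calc E.f.b o' * s * E.f.b' o' * a = (E.f.b o' * s) * (E.f.b' o' * a) := by
            simp only [mul_assoc]
        _ = _ := by
            rw [s1y_e2 E ha h, Finset.mul_sum]
            refine Finset.sum_congr rfl fun o _ => ?_
            split_ifs with h'
            · rw [mul_smul_comm]
            · rw [mul_zero]
    · simp
  rw [hl, hr, Finset.sum_comm]

theorem s1y_H (E : WS Ω W G) {s : S} (hs : ∀ w, E.om w * s = s * E.om w) (w : W) (t : Ω) :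
    (if E.deg (((1, w) : W × W) • t) = 1 then
      E.f.b (((1, w) : W × W) • t) * s * E.f.b' (((1, w) : W × W) • t) else 0) =
      if E.deg t = 1 then E.f.b t * s * E.f.b' t else 0 := by
  rw [E.dg, E.bw, E.bw']
  split_ifs with h
  · have h1 : E.om w⁻¹ * s * E.om w = s := by
      rw [hs, mul_assoc, ← map_mul, inv_mul_cancel, map_one, mul_one]
    show E.om 1 * E.f.b t * E.om w⁻¹ * s * (E.om w * E.f.b' t * E.om 1⁻¹) = _
    rw [inv_one, map_one, one_mul, mul_one]
    calc E.f.b t * E.om w⁻¹ * s * (E.om w * E.f.b' t)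
        = E.f.b t * (E.om w⁻¹ * s * E.om w) * E.f.b' t := by simp only [mul_assoc]
      _ = _ := by rw [h1]
  · rfl

theorem s1y_sum (E : WS Ω W G) {s : S} (hs : ∀ w, E.om w * s = s * E.om w) (T : Finset Ω)
    (hT : ∀ (M : Type) [AddCommMonoid M] (H : Ω → M),
      ∑ o, H o = ∑ t ∈ T, ∑ w : W, H (((1, w) : W × W) • t)) :
    (∑ o, if E.deg o = 1 then E.f.b o * s * E.f.b' o else 0) =
      (Fintype.card W : R) • ∑ t ∈ T, if E.deg t = 1 then E.f.b t * s * E.f.b' t else 0 := by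
  rw [hT S (fun o => if E.deg o = 1 then E.f.b o * s * E.f.b' o else 0), Finset.smul_sum]
  refine Finset.sum_congr rfl fun t _ => ?_
  rw [Finset.sum_congr rfl fun w _ => s1y_H E hs w t, Finset.sum_const, Finset.card_univ,
    Nat.cast_smul_eq_nsmul]

theorem s1y_can [IsDomain R] [CharZero R] [Module.Free R S] {n : ℕ} (hn : n ≠ 0) {x y : S}
    (h : (n : R) • x = (n : R) • y) : x = y := by
  apply (Module.Free.chooseBasis R S).repr.injective
  ext i
  have h1 := congrArg (fun z => (Module.Free.chooseBasis R S).repr z i) h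
  simp only [map_smul, Finsupp.smul_apply, smul_eq_mul] at h1
  exact mul_left_cancel₀ (Nat.cast_ne_zero.2 hn) h1

theorem s1y_RW [IsDomain R] [CharZero R] [Module.Free R S] (E : WS Ω W G) {s : S}
    (hs : ∀ w, E.om w * s = s * E.om w) (T : Finset Ω)
    (hT : ∀ (M : Type) [AddCommMonoid M] (H : Ω → M),
      ∑ o, H o = ∑ t ∈ T, ∑ w : W, H (((1, w) : W × W) • t)) {a : S} (ha : G.c 1 a = a) :
    a * (∑ t ∈ T, if E.deg t = 1 then E.f.b t * s * E.f.b' t else 0) =
      (∑ t ∈ T, if E.deg t = 1 then E.f.b t * s * E.f.b' t else 0) * a := by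
  have h := s1y_cen E s ha
  rw [s1y_sum E hs T hT, mul_smul_comm, smul_mul_assoc] at h
  exact s1y_can Fintype.card_ne_zero h

theorem s1y_deg (E : WS Ω W G) {s : S} (hs : G.c 1 s = s) (T : Finset Ω) :
    G.c 1 (∑ t ∈ T, if E.deg t = 1 then E.f.b t * s * E.f.b' t else 0) =
      ∑ t ∈ T, if E.deg t = 1 then E.f.b t * s * E.f.b' t else 0 := by
  rw [map_sum]
  refine Finset.sum_congr rfl fun t _ => ?_
  split_ifs with h
  · exact s1y_mul G (s1y_mul G (s1y_b E h) hs) (s1y_b' E h)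
  · exact map_zero _

end tr

theorem s1y (hwfx : WfxStmt) : S1yStmt := by
  intro R F S S0 X Ω W _ _ _ _ c _ _ _ _ _ _ _ _ _ _ _ _ _ G G0 E fs hc T hT hun z0 hz0
  have hκ : c.κ c.π = 0 := (c.ker c.π).2 ⟨1, (mul_one _).symm⟩
  have hqπ : ∀ t : S, fs.q (c.π • t) = 0 := by
    intro t
    rw [Algebra.smul_def, map_mul, fs.sc, hκ, map_zero, zero_mul]
  have hq1 : ∀ a : S, G.c 1 a = a → G0.c 1 (fs.q a) = fs.q a := by
    intro a ha
    rw [← hc, ha]
  have hz1 : G0.c 1 (z0 : S0) = (z0 : S0) := z0.2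
  have hz2 : ∀ a : S, G.c 1 a = a → (z0 : S0) * fs.q a = fs.q a * (z0 : S0) := by
    intro a ha
    exact congrArg Subtype.val (hz0 ⟨fs.q a, hq1 a ha⟩)
  obtain ⟨s1, hs1⟩ := fs.surj (z0 : S0)
  have hs1' : fs.q (G.c 1 s1) = (z0 : S0) := by rw [hc, hs1, hz1]
  obtain ⟨s', hs', t', ht'⟩ := hwfx R S X Ω W G E c.π (G.c 1 s1) (by
    intro w
    apply fs.ker
    rw [map_sub, map_mul, map_mul, hs1', hz2 _ (E.o1 w), sub_self])
  have hqs' : fs.q s' = (z0 : S0) := by
    have h : s' = G.c 1 s1 + c.π • t' := by rw [← ht']; abel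
    rw [h, map_add, hqπ, add_zero, hs1']
  have hs2 : ∀ w, E.om w * G.c 1 s' = G.c 1 s' * E.om w := by
    intro w
    rw [← s1y_lm G _ (E.o1 w), ← s1y_rm G _ (E.o1 w), hs']
  have hs2d : G.c 1 (G.c 1 s') = G.c 1 s' := G.ci 1 s'
  have hqs2 : fs.q (G.c 1 s') = (z0 : S0) := by rw [hc, hqs', hz1]
  have hK : (∑ t ∈ T, if E.deg t = 1 then E.f.b t * E.f.b' t else 0) =
      ∑ t ∈ T, if E.deg t = 1 then E.f.b t * 1 * E.f.b' t else 0 := by
    refine Finset.sum_congr rfl fun t _ => ?_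
    rw [mul_one]
  rw [hK] at hun
  have h1c : ∀ w, E.om w * (1 : S) = 1 * E.om w := fun w => by rw [mul_one, one_mul]
  obtain ⟨u', hu1, hu2⟩ := isUnit_iff_exists.1 hun
  have hKd := s1y_deg E G.c1 T
  have hu' : G.c 1 u' = u' := by
    have h2 : (∑ t ∈ T, if E.deg t = 1 then E.f.b t * 1 * E.f.b' t else 0) * G.c 1 u' = 1 := by
      rw [← s1y_lm G _ hKd, hu1, G.c1]
    exact (left_inv_eq_right_inv hu2 h2).symm
  have hKc : ∀ a : S, G.c 1 a = a → a * u' = u' * a := by
    intro a ha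
    have h2 := s1y_RW E h1c T hT ha
    calc a * u' = (u' * (∑ t ∈ T, if E.deg t = 1 then E.f.b t * 1 * E.f.b' t else 0)) *
          (a * u') := by rw [hu2, one_mul]
      _ = u' * ((∑ t ∈ T, if E.deg t = 1 then E.f.b t * 1 * E.f.b' t else 0) * a) * u' := by
          simp only [mul_assoc]
      _ = u' * (a * (∑ t ∈ T, if E.deg t = 1 then E.f.b t * 1 * E.f.b' t else 0)) * u' := by
          rw [h2]
      _ = u' * a * ((∑ t ∈ T, if E.deg t = 1 then E.f.b t * 1 * E.f.b' t else 0) * u') := by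
          simp only [mul_assoc]
      _ = u' * a := by rw [hu1, mul_one]
  have hzd : G.c 1 ((∑ t ∈ T, if E.deg t = 1 then E.f.b t * G.c 1 s' * E.f.b' t else 0) * u') =
      (∑ t ∈ T, if E.deg t = 1 then E.f.b t * G.c 1 s' * E.f.b' t else 0) * u' :=
    s1y_mul G (s1y_deg E hs2d T) hu'
  refine ⟨⟨(∑ t ∈ T, if E.deg t = 1 then E.f.b t * G.c 1 s' * E.f.b' t else 0) * u', hzd⟩,
    ?_, ?_⟩
  · intro a
    apply Subtype.ext
    have ha : G.c 1 (a : S) = (a : S) := a.2
    show (∑ t ∈ T, if E.deg t = 1 then E.f.b t * G.c 1 s' * E.f.b' t else 0) * u' * (a : S) =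
      (a : S) * ((∑ t ∈ T, if E.deg t = 1 then E.f.b t * G.c 1 s' * E.f.b' t else 0) * u')
    rw [mul_assoc, ← hKc _ ha, ← mul_assoc, ← s1y_RW E hs2 T hT ha, mul_assoc]
  · show fs.q ((∑ t ∈ T, if E.deg t = 1 then E.f.b t * G.c 1 s' * E.f.b' t else 0) * u') =
      (z0 : S0)
    have h3 : fs.q (∑ t ∈ T, if E.deg t = 1 then E.f.b t * G.c 1 s' * E.f.b' t else 0) =
        (z0 : S0) * fs.q (∑ t ∈ T, if E.deg t = 1 then E.f.b t * 1 * E.f.b' t else 0) := by
      rw [map_sum, map_sum, Finset.mul_sum]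
      refine Finset.sum_congr rfl fun t _ => ?_
      split_ifs with h
      · rw [map_mul, map_mul, hqs2, mul_one, map_mul, ← mul_assoc, hz2 _ (s1y_b E h)]
      · rw [map_zero, mul_zero]
    rw [map_mul, h3, mul_assoc, ← map_mul, hu1, map_one, mul_one]

end Pool.Agent.PFE.H25
end
end -- Pool.Agent.Helper25_PFE.S1Y

section -- Pool.Agent.Helper41_PFD.TFS

namespace Pool.Agent.PFD.D4.H41

open Pool.Agent.PFC.B1 (BiM FS Sep Split)
open Pool.Agent.PFD.D2
open Pool.Agent.PFD.D2b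

noncomputable section

theorem tfs : TfsStmt := by
  intro K A J _ _ _ _ _ d h
  have h1 : h = ∑ p, (d.lam.comp (LinearMap.mulLeft K (d.b' p))).smulRight (h (d.b p)) := by
    apply LinearMap.ext
    intro x
    rw [LinearMap.sum_apply]
    simp only [LinearMap.smulRight_apply, LinearMap.comp_apply, LinearMap.mulLeft_apply]
    conv_lhs => rw [← d.h1 x]
    rw [map_sum]
    exact Finset.sum_congr rfl fun p _ => by rw [map_smul]
  conv_lhs => rw [h1]
  rw [map_sum]
  refine Finset.sum_congr rfl fun p _ => ?_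
  rw [LinearMap.trace_smulRight]
  rfl

end

end Pool.Agent.PFD.D4.H41
end -- Pool.Agent.Helper41_PFD.TFS

section -- Pool.Agent.Helper48_PFD.ZPN

/-!
# Squad PFD, row ZPN (block D4): central elements which are traces from `1` are nilpotent
-/

set_option autoImplicit false

open scoped BigOperators TensorProduct

noncomputable section

namespace Pool.Agent.PFD.D4.H48

open Pool.Agent.PFC.B1 (BiM FS Sep Split)
open Pool.Agent.PFD Pool.Agent.PFD.D2 Pool.Agent.PFD.D2b Pool.Agent.PFD.D4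

/-- the linear map `a ↦ s * a * b` -/
def sand {K A : Type} [Field K] [Ring A] [Algebra K A] (s b : A) : A →ₗ[K] A :=
  (LinearMap.mulRight K b) ∘ₗ (LinearMap.mulLeft K s)

theorem sand_apply {K A : Type} [Field K] [Ring A] [Algebra K A] (s b a : A) :
    sand (K := K) s b a = s * a * b := rfl

theorem sand_pow {K A : Type} [Field K] [Ring A] [Algebra K A] (s b : A) (m : ℕ) (a : A) :
    (sand (K := K) s b ^ m) a = s ^ m * a * b ^ m := by
  induction m generalizing a with
  | zero => simp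
  | succ m ih =>
    rw [pow_succ, Module.End.mul_apply, sand_apply, ih, pow_succ, pow_succ']
    noncomm_ring

theorem fs_zero {K A J : Type} [Field K] [Ring A] [Algebra K A] [Fintype J] (d : FS K A J)
    (x : A) (h : ∀ s, d.lam (x * s) = 0) : x = 0 := by
  rw [← d.h2 x]
  refine Finset.sum_eq_zero fun i _ => ?_
  rw [h, zero_smul]

theorem zpn (hIDM : IdmStmt) (hTFS : TfsStmt) (hTTR : TtrStmt) (hHSV : HsvStmt)
    (hRTC : RtcStmt) : ZpnStmt := by
  intro K B A I J N _ _ _ _ _ _ _ _ _ _ _ _ D a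
  by_contra hn
  obtain ⟨-, -, -, hT4, hT5⟩ := hTTR K B A I J N D
  have hxc : ∀ a, D.TA a ∈ Subalgebra.center K A := fun a =>
    Subalgebra.mem_center_iff.2 fun z => hT5 a z
  let x0 : Subalgebra.center K A := ⟨D.TA a, hxc a⟩
  have hn0 : ¬ IsNilpotent x0 := by
    rintro ⟨m, hm⟩
    exact hn ⟨m, by simpa [x0] using congrArg Subtype.val hm⟩
  obtain ⟨e, y, hee, he0, hexy, hek⟩ := hIDM K (Subalgebra.center K A) x0 hn0
  have hcen : ∀ z : Subalgebra.center K A, ∀ b : A, b * (z : A) = (z : A) * b := fun z =>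
    Subalgebra.mem_center_iff.1 z.2
  have hee' : (e : A) * (e : A) = e := by
    have := congrArg Subtype.val hee
    simpa using this
  have he0' : (e : A) ≠ 0 := fun h => he0 (Subtype.ext h)
  have hTb : (e : A) = D.TA ((y : A) * a) := by
    rw [← hT4 a y fun b => hcen y b]
    have := congrArg Subtype.val hexy
    rw [this]
    show D.TA a * (y : A) = y * D.TA a
    exact hcen y _
  have h1 : ∀ ν : A, (∀ b, b * ν = ν * b) → IsNilpotent ν → ν * (e : A) = ν → ν = 0 := by
    intro ν hc hnil hνe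
    refine fs_zero D.d ν fun s => ?_
    have e1 : D.d.lam (ν * s) = LinearMap.trace K A (sand (K := K) (s * ν) ((y : A) * a)) := by
      rw [hTFS K A J D.d]
      conv_lhs => rw [← hνe, hTb]
      rw [KL.TA, Finset.mul_sum, Finset.sum_mul, map_sum]
      refine Finset.sum_congr rfl fun p _ => ?_
      rw [sand_apply]
      have e2 : ν * (D.d.b p * ((y : A) * a) * D.d.b' p) * s =
          (ν * D.d.b p * ((y : A) * a)) * (D.d.b' p * s) := by noncomm_ring
      rw [e2, D.ds]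
      congr 1
      noncomm_ring
    rw [e1]
    obtain ⟨m, hm⟩ := hnil
    have hnT : IsNilpotent (sand (K := K) (s * ν) ((y : A) * a)) := by
      refine ⟨m, ?_⟩
      apply LinearMap.ext
      intro t
      rw [sand_pow, (show Commute s ν from hc s).mul_pow, hm, mul_zero, zero_mul, zero_mul]
      rfl
    exact (LinearMap.isNilpotent_trace_of_isNilpotent hnT).eq_zero
  have h2 : ∀ z : A, (∀ b, b * z = z * b) → ∃ k : K, (e : A) * z = k • (e : A) := by
    intro z hz
    obtain ⟨k, hk⟩ := hek ⟨z, Subalgebra.mem_center_iff.2 hz⟩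
    refine ⟨k, ?_⟩
    have hn' : IsNilpotent ((e : A) * z - k • (e : A)) := by
      obtain ⟨m, hm⟩ := hk
      refine ⟨m, ?_⟩
      have h5 := congrArg Subtype.val hm
      rw [SubmonoidClass.coe_pow] at h5
      exact h5
    have := h1 ((e : A) * z - k • (e : A)) ?_ hn' ?_
    · exact sub_eq_zero.1 this
    · intro b
      rw [mul_sub, sub_mul, mul_smul_comm, smul_mul_assoc, hcen e b, ← mul_assoc, hcen e b,
        mul_assoc, mul_assoc, hz]
    · rw [sub_mul, smul_mul_assoc, hee', mul_assoc, ← hz, ← mul_assoc, hee']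
  -- the trace of left multiplication by `e`
  have h3 : D.d.lam (e : A) ≠ 0 := by
    intro h0
    obtain ⟨k, hk⟩ := h2 (D.TA 1) fun b => hT5 1 b
    have etr : LinearMap.trace K A (LinearMap.mulLeft K (e : A)) = 0 := by
      rw [hTFS K A J D.d]
      have : ∀ p, D.d.lam (D.d.b' p * (LinearMap.mulLeft K (e : A)) (D.d.b p)) =
          D.d.lam ((e : A) * (D.d.b p * 1 * D.d.b' p)) := by
        intro p
        rw [LinearMap.mulLeft_apply, D.ds, mul_one, mul_assoc]
      rw [Finset.sum_congr rfl fun p _ => this p, ← map_sum, ← Finset.mul_sum]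
      show D.d.lam ((e : A) * D.TA 1) = 0
      rw [hk, map_smul, h0, smul_zero]
    have hp : LinearMap.IsProj (LinearMap.range (LinearMap.mulLeft K (e : A)))
        (LinearMap.mulLeft K (e : A)) := by
      refine ⟨fun x => LinearMap.mem_range_self _ _, ?_⟩
      rintro _ ⟨x, rfl⟩
      rw [LinearMap.mulLeft_apply, LinearMap.mulLeft_apply, ← mul_assoc, hee']
    have htr := hp.trace
    rw [etr] at htr
    have hfr : Module.finrank K (LinearMap.range (LinearMap.mulLeft K (e : A))) = 0 := by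
      exact_mod_cast htr.symm
    rw [Submodule.finrank_eq_zero] at hfr
    apply he0'
    have : (LinearMap.mulLeft K (e : A)) 1 ∈ LinearMap.range (LinearMap.mulLeft K (e : A)) :=
      LinearMap.mem_range_self _ _
    rw [hfr, Submodule.mem_bot, LinearMap.mulLeft_apply, mul_one] at this
    exact this
  -- the relative trace of `u'`
  have hu'c : ∀ b, D.u' * b = b * D.u' := by
    intro b
    have hu : D.u' * D.u = 1 := by rw [← D.uc, D.uu]
    calc D.u' * b = D.u' * b * (D.u * D.u') := by rw [D.uu, mul_one]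
      _ = D.u' * (b * D.u) * D.u' := by rw [← mul_assoc, mul_assoc D.u' b D.u]
      _ = D.u' * (D.u * b) * D.u' := by rw [D.uc]
      _ = b * D.u' := by rw [← mul_assoc, hu, one_mul]
  obtain ⟨hR1, -, -⟩ := hRTC K B A N D.sp.j D.sp.pr D.s
  have hy0 : ∀ b, b * D.s.rt (D.sp.j D.u') = D.s.rt (D.sp.j D.u') * b :=
    hR1 (D.sp.j D.u') fun γ => by rw [← map_mul, ← map_mul, hu'c]
  obtain ⟨k, hk⟩ := h2 _ hy0
  have hk0 : k ≠ 0 := by
    rintro rfl
    rw [zero_smul] at hk
    obtain ⟨i, hi⟩ := D.unu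
    apply he0'
    have := congrArg (fun t => t * (↑i⁻¹ : A)) hk
    simpa [← hi, mul_assoc] using this
  have h4 := hHSV K B A I J N D (e : A) hee'
  rw [← hy0, hk, map_smul, smul_eq_mul] at h4
  rcases mul_eq_zero.1 h4 with h | h
  · exact hk0 h
  · exact h3 h

end Pool.Agent.PFD.D4.H48
end
end -- Pool.Agent.Helper48_PFD.ZPN

section -- Pool.Agent.Helper40_PFE.TPR

/-!
Row TPR of squad PFE (helper40): the dimension formula over `F` (assembly of part E2).
-/

open scoped BigOperators TensorProduct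

noncomputable section

namespace Pool.Agent.PFE.H40

open MulOpposite
open Pool.Agent.PFE
open Pool.Agent.PFC.B1 (FS Split BiM Sep)
open Pool.Agent.PFD (RF Og)
open Pool.Agent.PFD.D2
open Pool.Agent.PFD.D2b (wrp FPl FrR WFS)

/-- the homogeneous units of the local algebra -/
theorem hun {K A X S : Type} [CommRing K] [Ring A] [Algebra K A] [Group X] [Fintype X] [Ring S]
    [Algebra K S] {y : A} {l : ℕ} {χ : X →* K} (L : LS K A X S y l χ) (x : X) {n n' : A}
    (h1 : n * n' = 1) (h2 : n' * n = 1) (h3 : y * n = χ x • (n * y)) :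
    ∃ g g' : S, L.c x g = g ∧ g * g' = 1 ∧ g' * g = 1 := by
  have hn : n ∈ Nx y χ x := h3
  have hn' : n' ∈ Nx y χ x⁻¹ := by
    change y * n' = χ x⁻¹ • (n' * y)
    have e1 : n' * (y * n) * n' = n' * y := by
      rw [mul_assoc, mul_assoc, h1, mul_one]
    have e2 : n' * (y * n) * n' = χ x • (y * n') := by
      rw [h3, mul_smul_comm, smul_mul_assoc, ← mul_assoc, h2, one_mul]
    rw [← e1, e2, smul_smul, ← map_mul, inv_mul_cancel, map_one, one_smul]
  have key : ∀ (z : X) (a : A) (ha : a ∈ Nx y χ z), z = 1 → a = 1 → L.p z ⟨a, ha⟩ = 1 := by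
    intro z a ha hz hA
    subst hz hA
    exact L.one
  refine ⟨L.p x ⟨n, hn⟩, L.p x⁻¹ ⟨n', hn'⟩, L.pc x _, ?_, ?_⟩
  · rw [L.mul]
    exact key _ _ _ (mul_inv_cancel x) h1
  · rw [L.mul]
    exact key _ _ _ (inv_mul_cancel x) h2

/-- an element which commutes with `y` and with `W` commutes with `Γ0` -/
theorem comG {F Γ0 W A : Type} [CommRing F] [CommRing Γ0] [Algebra F Γ0] [CommGroup W] [Fintype W]
    [Ring A] [Algebra F A] {l : ℕ} (G : GY F Γ0 W l) (j : Γ0 →ₐ[F] A) {a : A}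
    (h1 : j G.y * a = a * j G.y) (h2 : ∀ w, j (G.om w) * a = a * j (G.om w)) (γ : Γ0) :
    j γ * a = a * j γ := by
  have hp : ∀ k : ℕ, j (G.y ^ k) * a = a * j (G.y ^ k) := by
    intro k
    rw [map_pow]
    exact (show Commute (j G.y ^ k) a from (show Commute (j G.y) a from h1).pow_left k)
  rw [← G.ex γ, map_sum, Finset.sum_mul, Finset.mul_sum]
  refine Finset.sum_congr rfl fun k _ => ?_
  rw [map_sum, Finset.sum_mul, Finset.mul_sum]
  refine Finset.sum_congr rfl fun w _ => ?_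
  rw [map_smul, map_mul, smul_mul_assoc, mul_smul_comm, mul_assoc, h2, ← mul_assoc, hp, mul_assoc]

/-- the dimension formula over the base ring `R` -/
theorem tprR (gex : GexStmt) (lye : LyeStmt) (lze : LzeStmt) (zoy : ZoyStmt)
    (cnr : Pool.Agent.PFD.D4.CnrStmt) (cnk : Pool.Agent.PFD.D4.CnkStmt) (fsy : FsyStmt)
    (ydr : YdrStmt) (ygr : YgrStmt) (lse : LseStmt) (nxo : NxoStmt) (lsf : LsfStmt)
    (sfr : SfrStmt) (wse : WseStmt) (zsy : ZsyStmt) (tsv : TsvStmt) (k1n : K1nStmt)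
    (k1u : K1uStmt) (s1y : S1yStmt) (s1f : S1fStmt) (bs1 : Bs1Stmt) (hul : HulStmt)
    (byd : BydStmt) (yky : YkyStmt) (bls : BlsStmt) (tpe : TpeStmt)
    (R F Γ0 W A N K Ω Ω' X S : Type) [CommRing R] [IsDomain R] [IsPrincipalIdealRing R]
    [CharZero R] [Field F] [IsAlgClosed F] [CommRing Γ0] [Algebra F Γ0]
    [FiniteDimensional F Γ0] [CommGroup W] [Fintype W] [Ring A] [Algebra F A]
    [FiniteDimensional F A] [Group X] [Fintype X] [Fintype N] [Fintype K] [Fintype Ω]
    [Fintype Ω'] [MulAction (W × W) Ω] [MulAction (W × W) Ω'] [Ring S] [Algebra F S] (ℓ : ℕ)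
    [Fact ℓ.Prime] (c : Cdv R F) (τ : F →* R) (hτ : ∀ a, c.κ (τ a) = a)
    (G : GY F Γ0 W ℓ) (χ : X →* F) (fl : FLv A N K Ω Ω' G χ)
    (L : LS F A X S (fl.j G.y) ℓ χ) (hχ : ∀ x, χ x ^ (ℓ - 1) = 1) (hχ1 : ∀ x, χ x = 1 → x = 1) :
    Module.finrank F (Subalgebra.center F A) =
      Module.finrank F (Subalgebra.center F S) +
        (ℓ - 1) / Fintype.card X * Module.finrank F (Subalgebra.center F L.toGS.S1) := by
  classical
  have hl2 : 2 ≤ ℓ := (Fact.out : ℓ.Prime).two_le
  have hl1 : 1 ≤ ℓ := by omega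
  obtain ⟨Γ, iΓ1, iΓ2, iΓ3, iΓ4, GR, f, hfy, hfw⟩ := gex R F Γ0 W c ℓ G hl1
  -- the character over `R`
  set χR : X →* R := τ.comp χ with hχR
  have hκ : ∀ x, c.κ (χR x) = χ x := fun x => hτ _
  have hχRl : ∀ x, χR x ^ (ℓ - 1) = 1 := by
    intro x
    change τ (χ x) ^ (ℓ - 1) = 1
    rw [← map_pow, hχ, map_one]
  have hχRu : ∀ x, x ≠ 1 → IsUnit (1 - χR x) := by
    intro x hx
    apply c.loc
    rw [map_sub, map_one, hκ]
    intro h
    exact hx (hχ1 x (sub_eq_zero.1 h).symm)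
  -- the lift
  obtain ⟨A1, iA1, iA2, iA3, iA4, Ω1, Ω1', iO1, iO2, iM1, iM2, ⟨ly⟩⟩ :=
    lye R F Γ Γ0 W A X N K Ω Ω' c ℓ GR G f χR χ fl hl2 hfy hfw hκ hχRl hχRu
  obtain ⟨lz⟩ := lze R F Γ Γ0 W A A1 X N K Ω Ω' Ω1 Ω1' c ℓ GR G f χR χ fl ly hl1
  -- the centre of `A`
  have hA := cnr R F A A1 c lz.fb
    (zoy R F Γ Γ0 W A A1 X N Ω1 Ω1' c ℓ GR f χR fl.j fl.pr lz hl2 hχRl hχRu)
  -- the frame
  obtain ⟨d, hd⟩ := fsy R F Γ Γ0 W A A1 X N Ω1 Ω1' c ℓ GR f χR fl.j fl.pr lz hl1
  obtain ⟨D, hDd, hDdeg, hDg, hDh, hDg', hDh'⟩ :=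
    ydr R F Γ Γ0 W A A1 X N (N × (Fin ℓ × W)) Ω1 Ω1' c ℓ GR f χR fl.j fl.pr lz d hd hl2 hχRl
      hχRu
  have hDl : D.d.lam = lz.tA := by rw [hDd, hd]
  obtain ⟨Y, hYom⟩ := ygr R F Γ Γ0 W A A1 X N (N × (Fin ℓ × W)) Ω1 Ω1' c ℓ GR f χR fl.j fl.pr lz
    D hDl hDdeg hDg hDh hDg' hDh'
  -- the local algebra over `R`
  obtain ⟨SR, iS1, iS2, ⟨LR⟩⟩ := lse R A1 X (lz.j GR.y) ℓ χR hl1 D.yl hχRl
  have hqy : lz.fb.q (lz.j GR.y) = fl.j G.y := by rw [lz.cj, hfy]
  have hlift : ∀ x, ∀ a0 ∈ Nx (fl.j G.y) χ x, ∃ a ∈ Nx (lz.j GR.y) χR x, lz.fb.q a = a0 := by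
    intro x a0 ha0
    have h := nxo R F Γ Γ0 W A A1 X Ω1 Ω1' c ℓ GR f χR χ fl.j fl.pr lz.toLY hl2 hκ hχRl hχRu x a0
    rw [hqy] at h
    exact h ha0
  obtain ⟨fs, hfs1, hfs2⟩ := lsf R F A A1 X SR S c lz.fb (lz.j GR.y) (fl.j G.y) ℓ χR χ LR L hl1
    D.yl hqy hκ hχRl hlift
  obtain ⟨E, hEdeg, hEb, hEb', hEom, hErho⟩ := wse R A1 X SR (N × (Fin ℓ × W)) Ω1 Ω1' W
    (lz.j GR.y) ℓ χR D Y LR
  obtain ⟨iS3, iS4⟩ := sfr R SR Ω1 E.f
  -- the centre of `S`
  have hS := cnr R F S SR c fs (zsy R F SR S X Ω1 W c LR.toGS E fs)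
  -- the homogeneous units
  have hU0 : ∀ x, ∃ g g' : S, L.c x g = g ∧ g * g' = 1 ∧ g' * g = 1 := by
    intro x
    obtain ⟨n, n', h1, h2, h3⟩ := fl.uni x
    exact hun L x h1 h2 h3
  have hUR := hul R F SR S X c LR.toGS L.toGS fs hfs2 hU0
  -- the part of degree `1`
  obtain ⟨T, hT⟩ := tsv Ω1 W E.fo
  have hloc : ∀ a : A, fl.j G.y * a = a * fl.j G.y →
      (∀ w, lz.fb.q (Y.om w) * a = a * lz.fb.q (Y.om w)) → IsUnit a ∨ IsNilpotent a := by
    intro a h1 h2
    apply fl.loc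
    intro γ
    refine comG G fl.j h1 (fun w => ?_) γ
    have h3 := h2 w
    rw [hYom, lz.cj, hfw] at h3
    exact h3
  have hk1 := k1n R F A A1 X SR S (N × (Fin ℓ × W)) Ω1 Ω1' W c lz.fb (lz.j GR.y) (fl.j G.y) ℓ χR χ
    D Y LR L fs hqy hfs1 hloc E hEdeg hEb hEb' T hT
  have hk2 := k1u R F SR S X Ω1 W c LR.toGS L.toGS E fs hfs2 hU0 T hT hk1
  have hs1 := s1y R F SR S X Ω1 W c LR.toGS L.toGS E fs hfs2 T hT hk2
  obtain ⟨iF1, iF2, f1, hf1⟩ := s1f R F SR S X c LR.toGS L.toGS fs hfs2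
  have hS1 := cnr R F L.toGS.S1 LR.toGS.S1 c f1 (by
    intro z hz
    obtain ⟨b, hb1, hb2⟩ := hs1 z hz
    refine ⟨b, hb1, Subtype.ext ?_⟩
    rw [hf1, hb2])
  -- base change
  let KK : Type := AlgebraicClosure (FractionRing R)
  have iK0 : CharZero (FractionRing R) :=
    charZero_of_injective_algebraMap (IsFractionRing.injective R (FractionRing R))
  have iK1 : CharZero KK :=
    charZero_of_injective_algebraMap (algebraMap (FractionRing R) KK).injective
  have hinj : Function.Injective (algebraMap R KK) := by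
    rw [IsScalarTower.algebraMap_eq R (FractionRing R) KK]
    exact (algebraMap (FractionRing R) KK).injective.comp
      (IsFractionRing.injective R (FractionRing R))
  have iK2 : FaithfulSMul R KK := (faithfulSMul_iff_algebraMap_injective R KK).2 hinj
  set χK : X →* KK := (algebraMap R KK).toMonoidHom.comp χR with hχK
  have hχKR : ∀ x, χK x = algebraMap R KK (χR x) := fun x => rfl
  have hAK := cnk R KK A1
  have hSK := cnk R KK SR
  obtain ⟨D', hD'⟩ := byd R KK A1 X (N × (Fin ℓ × W)) Ω1 Ω1' (lz.j GR.y) ℓ χR χK D hχKR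
  have hunit : IsUnit (D'.RT 1) := by
    rw [hD', Y.rr]
    have e1 : (1 : KK) ⊗ₜ[R] ((Fintype.card W : R) • Y.rho) =
        (Fintype.card W : KK) • ((1 : KK) ⊗ₜ[R] Y.rho) := by
      rw [TensorProduct.tmul_smul, ← algebraMap_smul KK (Fintype.card W : R), map_natCast]
    rw [e1]
    have h0 : (Fintype.card W : KK) ≠ 0 := Nat.cast_ne_zero.2 Fintype.card_ne_zero
    have h1 : IsUnit ((1 : KK) ⊗ₜ[R] Y.rho) :=
      Y.ru.map (Algebra.TensorProduct.includeRight : A1 →ₐ[R] KK ⊗[R] A1)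
    have h2 : (Fintype.card W : KK) • ((1 : KK) ⊗ₜ[R] Y.rho) =
        algebraMap KK (KK ⊗[R] A1) (Fintype.card W : KK) * ((1 : KK) ⊗ₜ[R] Y.rho) :=
      Algebra.smul_def _ _
    rw [h2]
    exact ((isUnit_iff_ne_zero.2 h0).map (algebraMap KK (KK ⊗[R] A1))).mul h1
  obtain ⟨Ek, -⟩ := yky KK (KK ⊗[R] A1) X (N × (Fin ℓ × W)) Ω1 Ω1' ((1 : KK) ⊗ₜ[R] lz.j GR.y) ℓ χK
    D' hunit
  obtain ⟨L', hL'⟩ := bls R KK A1 X SR (lz.j GR.y) ℓ χR χK LR hχKR
  have hB1 := bs1 R KK SR X LR.toGS L'.toGS hL'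
  have hfin := tpe KK (KK ⊗[R] A1) X (KK ⊗[R] SR) (N × (Fin ℓ × W)) Ω1 Ω1'
    ((1 : KK) ⊗ₜ[R] lz.j GR.y) ℓ χK Ek L' (by
      intro x
      obtain ⟨g, g', h1, h2, h3⟩ := hUR x
      refine ⟨(1 : KK) ⊗ₜ[R] g, (1 : KK) ⊗ₜ[R] g', ?_, ?_, ?_⟩
      · rw [hL', h1]
      · rw [Algebra.TensorProduct.tmul_mul_tmul, h2, one_mul]
        rfl
      · rw [Algebra.TensorProduct.tmul_mul_tmul, h3, one_mul]
        rfl)
  rw [hA, hS, hS1, ← hAK, ← hSK, ← hB1]
  exact hfin

/-- row TPR -/
theorem tpr (wit : Pool.Agent.PFD.D3.WitStmt) (gex : GexStmt) (lye : LyeStmt) (lze : LzeStmt)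
    (zoy : ZoyStmt) (cnr : Pool.Agent.PFD.D4.CnrStmt) (cnk : Pool.Agent.PFD.D4.CnkStmt)
    (fsy : FsyStmt) (ydr : YdrStmt) (ygr : YgrStmt) (lse : LseStmt) (nxo : NxoStmt)
    (lsf : LsfStmt) (sfr : SfrStmt) (wse : WseStmt) (zsy : ZsyStmt) (tsv : TsvStmt)
    (k1n : K1nStmt) (k1u : K1uStmt) (s1y : S1yStmt) (s1f : S1fStmt) (bs1 : Bs1Stmt)
    (hul : HulStmt) (byd : BydStmt) (yky : YkyStmt) (bls : BlsStmt) (tpe : TpeStmt) :
    TprStmt := by
  intro F Γ0 W A N K Ω Ω' X S _ _ _ _ _ _ _ _ _ _ _ _ _ _ _ _ _ _ _ _ ℓ _ _ G χ fl L hχ hχ1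
  obtain ⟨c, ⟨o⟩⟩ := wit ℓ F
  have := o.dom
  have := o.pid
  have := o.ch0
  exact tprR gex lye lze zoy cnr cnk fsy ydr ygr lse nxo lsf sfr wse zsy tsv k1n k1u s1y s1f bs1
    hul byd yky bls tpe (WittVector ℓ F) F Γ0 W A N K Ω Ω' X S ℓ c o.τ o.τκ G χ fl L hχ hχ1

end Pool.Agent.PFE.H40
end
end -- Pool.Agent.Helper40_PFE.TPR

section -- Pool.Agent.Helper41_PFE.YGR

/-!
# Squad PFE, row YGR: the group `W` in the frame
-/

set_option autoImplicit false

open scoped BigOperators TensorProduct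

noncomputable section

namespace Pool.Agent.PFE.H41

open MulOpposite
open Pool.Agent.PFC.B1 (FS BiM)
open Pool.Agent.PFD.D2b (wrp)

/-- the form of a Frobenius system is nondegenerate -/
theorem ndeg {R A J : Type} [CommRing R] [Ring A] [Algebra R A] [Fintype J] (d : FS R A J)
    (x x' : A) (h : ∀ a, d.lam (x * a) = d.lam (x' * a)) : x = x' := by
  rw [← d.h2 x, ← d.h2 x']
  exact Finset.sum_congr rfl fun i _ => by rw [h]

theorem AB_lm {R Γ A : Type} [CommRing R] [Ring Γ] [Algebra R Γ] [Ring A] [Algebra R A]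
    (j : Γ →ₐ[R] A) (γ : Γ) (a : A) : (AB j).lm γ a = j γ * a := rfl

theorem AB_rm {R Γ A : Type} [CommRing R] [Ring Γ] [Algebra R Γ] [Ring A] [Algebra R A]
    (j : Γ →ₐ[R] A) (γ : Γ) (a : A) : (AB j).rm (op γ) a = a * j γ := rfl

theorem wrp_AB {R Γ W A : Type} [CommRing R] [CommRing Γ] [Algebra R Γ] [Ring A] [Algebra R A]
    [CommGroup W] (om : W →* Γ) (j : Γ →ₐ[R] A) (w : W × W) (a : A) :
    wrp om (AB j) w a = j (om w.1) * a * j (om w.2⁻¹) := by
  show (AB j).lm (om w.1) ((AB j).rm (op (om w.2⁻¹)) a) = _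
  rw [AB_rm, AB_lm, mul_assoc]

theorem ygr (hrtw : RtwStmt) : YgrStmt := by
  intro R F Γ Γ0 W A A1 X N J Ω Ω' _ _ c _ _ _ _ _ _ _ _ _ _ _ _ _ _ _ _ _ l G f χ j0 pr0 lz D
    hlam hdeg hg hh hg' hh'
  have hin1 : ∀ w : W, lz.j (G.om w) * lz.j (G.om w⁻¹) = 1 := by
    intro w
    rw [← map_mul, ← map_mul, mul_inv_cancel, map_one, map_one]
  have key : ∀ (w : W × W) (a : A1),
      wrp G.om (AB lz.j) w (lz.j (G.om w.1⁻¹) * a * lz.j (G.om w.2)) = a := by
    intro w a
    rw [wrp_AB]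
    have h1 : lz.j (G.om w.1) * (lz.j (G.om w.1⁻¹) * a * lz.j (G.om w.2)) * lz.j (G.om w.2⁻¹) =
        (lz.j (G.om w.1) * lz.j (G.om w.1⁻¹)) * a * (lz.j (G.om w.2) * lz.j (G.om w.2⁻¹)) := by
      noncomm_ring
    rw [h1, hin1, hin1, one_mul, mul_one]
  refine ⟨⟨(lz.j : Γ →* A1).comp G.om, ?_, ?_, lz.fr.fo, lz.fr.fo', ?_, ?_, ?_, ?_,
    lz.rf.rt (lz.j lz.u'), ?_, lz.unu, ?_⟩, fun w => rfl⟩
  · intro w
    show lz.j G.y * lz.j (G.om w) = lz.j (G.om w) * lz.j G.y
    rw [← map_mul, ← map_mul, mul_comm]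
  · intro w o
    rw [hdeg, lz.fr.dg]
  · intro w o
    rw [hg, lz.fr.gw, wrp_AB]
    rfl
  · intro w o
    refine ndeg D.d _ _ fun a => ?_
    rw [hg']
    conv_lhs => rw [← key w a]
    rw [lz.fr.cw, ← hg']
    show D.d.lam (D.g' o * (lz.j (G.om w.1⁻¹) * a * lz.j (G.om w.2))) =
      D.d.lam (lz.j (G.om w.2) * D.g' o * lz.j (G.om w.1⁻¹) * a)
    rw [← mul_assoc, D.ds]
    congr 1
    noncomm_ring
  · intro w o
    rw [hh, lz.fr.hw, wrp_AB]
    rfl
  · intro w o
    refine ndeg D.d _ _ fun a => ?_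
    rw [hh']
    conv_lhs => rw [← key w a]
    rw [lz.fr.dw, ← hh']
    show D.d.lam (D.h' o * (lz.j (G.om w.1⁻¹) * a * lz.j (G.om w.2))) =
      D.d.lam (lz.j (G.om w.2) * D.h' o * lz.j (G.om w.1⁻¹) * a)
    rw [← mul_assoc, D.ds]
    congr 1
    noncomm_ring
  · intro a
    have h1 := (Pool.Agent.PFD.D4.H91.rtc R Γ A1 N lz.j lz.pr lz.rf).1 (lz.j lz.u')
      (fun γ => by rw [← map_mul, ← map_mul, mul_comm]) a
    exact h1.symm
  · exact hrtw R F Γ Γ0 W A A1 X N J Ω Ω' Ω Ω' c l G f χ j0 pr0 lz D hlam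

end Pool.Agent.PFE.H41
end
end -- Pool.Agent.Helper41_PFE.YGR

section -- Pool.Agent.Helper41_PFE.ZPY

/-!
# Squad PFE, row ZPY: traces from `1` are nilpotent
-/

set_option autoImplicit false

open scoped BigOperators TensorProduct

noncomputable section

namespace Pool.Agent.PFE.H41

open Pool.Agent.PFC.B1 (FS)
open Pool.Agent.PFD.D4.H48

/-- the Casimir element commutes with everything -/
theorem casc {K A J : Type} [Field K] [Ring A] [Algebra K A] [Fintype J] (d : FS K A J)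
    (a z : A) : z * (∑ p, d.b p * a * d.b' p) = (∑ p, d.b p * a * d.b' p) * z := by
  have h1 : ∀ p, z * (d.b p * a * d.b' p) =
      ∑ q, d.lam (d.b' q * (z * d.b p)) • (d.b q * a * d.b' p) := by
    intro p
    have h := d.h1 (z * d.b p)
    rw [← mul_assoc, ← mul_assoc]
    conv_lhs => rw [← h]
    rw [Finset.sum_mul, Finset.sum_mul]
    refine Finset.sum_congr rfl fun q _ => ?_
    rw [smul_mul_assoc, smul_mul_assoc]
  have h2 : ∀ q, d.b q * a * d.b' q * z =
      ∑ p, d.lam (d.b' q * (z * d.b p)) • (d.b q * a * d.b' p) := by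
    intro q
    have h := d.h2 (d.b' q * z)
    rw [mul_assoc (d.b q * a)]
    conv_lhs => rw [← h]
    rw [Finset.mul_sum]
    refine Finset.sum_congr rfl fun p _ => ?_
    rw [mul_smul_comm, mul_assoc (d.b' q)]
  rw [Finset.mul_sum, Finset.sum_mul, Finset.sum_congr rfl fun p _ => h1 p,
    Finset.sum_congr rfl fun q _ => h2 q, Finset.sum_comm]

theorem zpy : ZpyStmt := by
  intro K A J _ _ _ _ _ _ _ d y0 ds hy0 hu hlam a
  by_contra hn
  obtain ⟨TA, hTA⟩ : ∃ TA : A → A, ∀ a, TA a = ∑ p, d.b p * a * d.b' p := ⟨_, fun _ => rfl⟩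
  rw [← hTA] at hn
  have hT5 : ∀ a z, z * TA a = TA a * z := by
    intro a z
    rw [hTA]
    exact casc d a z
  have hT4 : ∀ a z, (∀ b, b * z = z * b) → TA a * z = TA (z * a) := by
    intro a z hz
    rw [hTA, hTA, Finset.sum_mul]
    refine Finset.sum_congr rfl fun p _ => ?_
    rw [mul_assoc, hz, ← mul_assoc, mul_assoc (d.b p), hz, ← mul_assoc]
  have hxc : ∀ a, TA a ∈ Subalgebra.center K A := fun a =>
    Subalgebra.mem_center_iff.2 fun z => hT5 a z
  let x0 : Subalgebra.center K A := ⟨TA a, hxc a⟩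
  have hn0 : ¬ IsNilpotent x0 := by
    rintro ⟨m, hm⟩
    exact hn ⟨m, by simpa [x0] using congrArg Subtype.val hm⟩
  obtain ⟨e, y, hee, he0, hexy, hek⟩ :=
    Pool.Agent.PFD.D4.H20.idm K (Subalgebra.center K A) x0 hn0
  have hcen : ∀ z : Subalgebra.center K A, ∀ b : A, b * (z : A) = (z : A) * b := fun z =>
    Subalgebra.mem_center_iff.1 z.2
  have hee' : (e : A) * (e : A) = e := by
    have := congrArg Subtype.val hee
    simpa using this
  have he0' : (e : A) ≠ 0 := fun h => he0 (Subtype.ext h)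
  have hTb : (e : A) = TA ((y : A) * a) := by
    rw [← hT4 a y fun b => hcen y b]
    have := congrArg Subtype.val hexy
    rw [this]
    rfl
  have h1 : ∀ ν : A, (∀ b, b * ν = ν * b) → IsNilpotent ν → ν * (e : A) = ν → ν = 0 := by
    intro ν hc hnil hνe
    refine fs_zero d ν fun s => ?_
    have e1 : d.lam (ν * s) = LinearMap.trace K A (sand (K := K) (s * ν) ((y : A) * a)) := by
      rw [Pool.Agent.PFD.D4.H41.tfs K A J d]
      conv_lhs => rw [← hνe, hTb]
      rw [hTA, Finset.mul_sum, Finset.sum_mul, map_sum]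
      refine Finset.sum_congr rfl fun p _ => ?_
      rw [sand_apply]
      have e2 : ν * (d.b p * ((y : A) * a) * d.b' p) * s =
          (ν * d.b p * ((y : A) * a)) * (d.b' p * s) := by noncomm_ring
      rw [e2, ds]
      congr 1
      noncomm_ring
    rw [e1]
    obtain ⟨m, hm⟩ := hnil
    have hnT : IsNilpotent (sand (K := K) (s * ν) ((y : A) * a)) := by
      refine ⟨m, ?_⟩
      apply LinearMap.ext
      intro t
      rw [sand_pow, (show Commute s ν from hc s).mul_pow, hm, mul_zero, zero_mul, zero_mul]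
      rfl
    exact (LinearMap.isNilpotent_trace_of_isNilpotent hnT).eq_zero
  have h2 : ∀ z : A, (∀ b, b * z = z * b) → ∃ k : K, (e : A) * z = k • (e : A) := by
    intro z hz
    obtain ⟨k, hk⟩ := hek ⟨z, Subalgebra.mem_center_iff.2 hz⟩
    refine ⟨k, ?_⟩
    have hn' : IsNilpotent ((e : A) * z - k • (e : A)) := by
      obtain ⟨m, hm⟩ := hk
      refine ⟨m, ?_⟩
      have h5 := congrArg Subtype.val hm
      rw [SubmonoidClass.coe_pow] at h5
      exact h5
    have := h1 ((e : A) * z - k • (e : A)) ?_ hn' ?_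
    · exact sub_eq_zero.1 this
    · intro b
      rw [mul_sub, sub_mul, mul_smul_comm, smul_mul_assoc, hcen e b, ← mul_assoc, hcen e b,
        mul_assoc, mul_assoc, hz]
    · rw [sub_mul, smul_mul_assoc, hee', mul_assoc, ← hz, ← mul_assoc, hee']
  -- the trace of left multiplication by `e`
  have h3 : d.lam (e : A) ≠ 0 := by
    intro h0
    obtain ⟨k, hk⟩ := h2 (TA 1) fun b => hT5 1 b
    have etr : LinearMap.trace K A (LinearMap.mulLeft K (e : A)) = 0 := by
      rw [Pool.Agent.PFD.D4.H41.tfs K A J d]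
      have : ∀ p, d.lam (d.b' p * (LinearMap.mulLeft K (e : A)) (d.b p)) =
          d.lam ((e : A) * (d.b p * 1 * d.b' p)) := by
        intro p
        rw [LinearMap.mulLeft_apply, ds, mul_one, mul_assoc]
      rw [Finset.sum_congr rfl fun p _ => this p, ← map_sum, ← Finset.mul_sum, ← hTA, hk,
        map_smul, h0, smul_zero]
    have hp : LinearMap.IsProj (LinearMap.range (LinearMap.mulLeft K (e : A)))
        (LinearMap.mulLeft K (e : A)) := by
      refine ⟨fun x => LinearMap.mem_range_self _ _, ?_⟩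
      rintro _ ⟨x, rfl⟩
      rw [LinearMap.mulLeft_apply, LinearMap.mulLeft_apply, ← mul_assoc, hee']
    have htr := hp.trace
    rw [etr] at htr
    have hfr : Module.finrank K (LinearMap.range (LinearMap.mulLeft K (e : A))) = 0 := by
      exact_mod_cast htr.symm
    rw [Submodule.finrank_eq_zero] at hfr
    apply he0'
    have : (LinearMap.mulLeft K (e : A)) 1 ∈ LinearMap.range (LinearMap.mulLeft K (e : A)) :=
      LinearMap.mem_range_self _ _
    rw [hfr, Submodule.mem_bot, LinearMap.mulLeft_apply, mul_one] at this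
    exact this
  obtain ⟨k, hk⟩ := h2 y0 fun b => (hy0 b).symm
  have hk0 : k ≠ 0 := by
    rintro rfl
    rw [zero_smul] at hk
    obtain ⟨i, hi⟩ := hu
    apply he0'
    have := congrArg (fun t => t * (↑i⁻¹ : A)) hk
    simpa [← hi, mul_assoc] using this
  have h4 := hlam (e : A) hee'
  rw [hy0, hk, map_smul, smul_eq_mul] at h4
  rcases mul_eq_zero.1 h4 with h | h
  · exact hk0 h
  · exact h3 h

end Pool.Agent.PFE.H41
end
end -- Pool.Agent.Helper41_PFE.ZPY

section -- Pool.Agent.Helper70_PFE.K1N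

/-!
# Squad PFE, part E2, row K1N (helper70)

The relative trace of `1` in degree `1` is a unit or nilpotent in the special fibre.
-/

set_option autoImplicit false

open scoped BigOperators

noncomputable section

namespace Pool.Agent.PFE.H70.K1n

open Pool.Agent.PFE
open Pool.Agent.PFC.B1 (FS Split BiM Sep)
open Pool.Agent.PFD
open Pool.Agent.PFD.D2

section ls

variable {R A X S : Type} [CommRing R] [Ring A] [Algebra R A] [Group X] [Fintype X] [Ring S]
  [Algebra R S] {y : A} {l : ℕ} {χ : X →* R}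

theorem p_cast (L : LS R A X S y l χ) {x x' : X} (hx : x = x') {a a' : A} (ha : a = a')
    (h : a ∈ Nx y χ x) (h' : a' ∈ Nx y χ x') : L.p x ⟨a, h⟩ = L.p x' ⟨a', h'⟩ := by
  subst hx
  subst ha
  rfl

theorem p_mul (L : LS R A X S y l χ) {a b : A} (ha : a ∈ Nx y χ 1) (hb : b ∈ Nx y χ 1)
    (hab : a * b ∈ Nx y χ 1) : L.p 1 ⟨a, ha⟩ * L.p 1 ⟨b, hb⟩ = L.p 1 ⟨a * b, hab⟩ := by
  rw [L.mul]
  exact p_cast L (mul_one 1) rfl _ _

omit [Fintype X] in
theorem mem_one {a : A} : a ∈ Nx y χ 1 ↔ y * a = a * y := by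
  change y * a = χ 1 • (a * y) ↔ _
  rw [map_one, one_smul]

theorem p_pow (L : LS R A X S y l χ) {a : A} (ha : a ∈ Nx y χ 1) (n : ℕ)
    (h : a ^ n ∈ Nx y χ 1) : (L.p 1 ⟨a, ha⟩) ^ n = L.p 1 ⟨a ^ n, h⟩ := by
  induction n with
  | zero =>
    rw [pow_zero, ← L.one]
    exact p_cast L rfl (pow_zero a).symm _ _
  | succ n ih =>
    have h1 : a ^ n ∈ Nx y χ 1 := by
      rw [mem_one]
      exact (Commute.pow_right (mem_one.1 ha : Commute y a) n)
    have h2 : a ^ n * a ∈ Nx y χ 1 := by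
      rw [← pow_succ]
      exact h
    rw [pow_succ, ih h1, p_mul L h1 ha h2]
    exact p_cast L rfl (pow_succ a n).symm _ _

/-- units and nilpotent elements in degree one -/
theorem un_np (L : LS R A X S y l χ) {a : A} (ha : a ∈ Nx y χ 1)
    (h : IsUnit a ∨ IsNilpotent a) :
    IsUnit (L.p 1 ⟨a, ha⟩) ∨ IsNilpotent (L.p 1 ⟨a, ha⟩) := by
  rcases h with h | h
  · left
    obtain ⟨u, rfl⟩ := h
    have h1 : (↑u⁻¹ : A) ∈ Nx y χ 1 := by
      rw [mem_one]
      have h2 : Commute y (u : A) := mem_one.1 ha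
      exact h2.units_inv_right
    refine ⟨⟨L.p 1 ⟨u, ha⟩, L.p 1 ⟨↑u⁻¹, h1⟩, ?_, ?_⟩, rfl⟩
    · rw [p_mul L ha h1 (by rw [u.mul_inv]; exact Nx_one y χ), ← L.one]
      exact p_cast L rfl u.mul_inv _ _
    · rw [p_mul L h1 ha (by rw [u.inv_mul]; exact Nx_one y χ), ← L.one]
      exact p_cast L rfl u.inv_mul _ _
  · right
    obtain ⟨n, hn⟩ := h
    refine ⟨n, ?_⟩
    have h0 : a ^ n ∈ Nx y χ 1 := by
      rw [hn]
      exact Submodule.zero_mem _
    rw [p_pow L ha n h0, p_cast L rfl hn h0 (Submodule.zero_mem _)]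
    exact map_zero (L.p 1)

end ls

theorem k1n : K1nStmt := by
  intro R F A A1 X S S0 J Ω Ω' W _ _ _ _ c _ _ _ _ _ _ _ _ _ _ _ _ _ _ _ _ _ _ _ fb y y0 l χ
    χ0 D Y L L0 fs hy hp hloc E hdeg hb hb' T hT
  classical
  -- the element K
  set H : Ω → A1 := fun o => if D.deg o = 1 then D.g o * D.g' o else 0 with hH
  have hg' : ∀ o, D.g' o ∈ Nx y χ (D.deg o)⁻¹ := by
    intro o
    change y * D.g' o = χ (D.deg o)⁻¹ • (D.g' o * y)
    rw [D.g'y, smul_smul, ← map_mul, inv_mul_cancel, map_one, one_smul]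
  have hom : ∀ w, Y.om w * Y.om w⁻¹ = 1 := by
    intro w
    rw [← map_mul, mul_inv_cancel, map_one]
  have hom' : ∀ w, Y.om w⁻¹ * Y.om w = 1 := by
    intro w
    rw [← map_mul, inv_mul_cancel, map_one]
  have H1 : ∀ (w : W) (o : Ω), H (((1, w) : W × W) • o) = H o := by
    intro w o
    simp only [hH]
    rw [Y.dg, Y.gw, Y.gw']
    split_ifs with h
    · simp only [inv_one, map_one, one_mul, mul_one]
      rw [mul_assoc, ← mul_assoc (Y.om w⁻¹), hom', one_mul]
    · rfl
  have H2 : ∀ (u : W) (o : Ω), H (((u, 1) : W × W) • o) = Y.om u * H o * Y.om u⁻¹ := by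
    intro u o
    simp only [hH]
    rw [Y.dg, Y.gw, Y.gw']
    split_ifs with h
    · simp only [inv_one, map_one, one_mul, mul_one, mul_assoc]
    · rw [mul_zero, zero_mul]
  set K : A1 := ∑ t ∈ T, H t with hK
  have s1 : ∑ o, H o = (Fintype.card W : R) • K := by
    rw [hT A1 H, hK, Finset.smul_sum]
    refine Finset.sum_congr rfl fun t _ => ?_
    rw [Finset.sum_congr rfl (fun w _ => H1 w t), Finset.sum_const, Finset.card_univ,
      Nat.cast_smul_eq_nsmul]
  have s2 : ∀ u, Y.om u * (∑ o, H o) * Y.om u⁻¹ = ∑ o, H o := by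
    intro u
    rw [Finset.mul_sum, Finset.sum_mul]
    have h1 : ∑ o, Y.om u * H o * Y.om u⁻¹ = ∑ o, H (((u, 1) : W × W) • o) :=
      Finset.sum_congr rfl fun o _ => (H2 u o).symm
    rw [h1]
    exact Fintype.sum_equiv (MulAction.toPerm ((u, 1) : W × W)) _ _ (fun _ => rfl)
  have hc0 : (Fintype.card W : R) ≠ 0 := by
    rw [Nat.cast_ne_zero]
    exact Fintype.card_ne_zero
  have s3 : ∀ u, Y.om u * K * Y.om u⁻¹ = K := by
    intro u
    have h1 := s2 u
    rw [s1, mul_smul_comm, smul_mul_assoc] at h1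
    have h2 : (Fintype.card W : R) • (Y.om u * K * Y.om u⁻¹ - K) = 0 := by
      rw [smul_sub, h1, sub_self]
    rcases smul_eq_zero.1 h2 with h3 | h3
    · exact absurd h3 hc0
    · exact sub_eq_zero.1 h3
  have s4 : ∀ u, Y.om u * K = K * Y.om u := by
    intro u
    calc Y.om u * K = Y.om u * K * (Y.om u⁻¹ * Y.om u) := by rw [hom', mul_one]
      _ = Y.om u * K * Y.om u⁻¹ * Y.om u := by rw [← mul_assoc]
      _ = K * Y.om u := by rw [s3]
  have s5 : y * K = K * y := by
    rw [hK, Finset.mul_sum, Finset.sum_mul]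
    refine Finset.sum_congr rfl fun t _ => ?_
    simp only [hH]
    split_ifs with h
    · have h1 := D.gy t
      have h2 := D.g'y t
      rw [h, map_one, one_smul] at h1 h2
      rw [← mul_assoc, h1, mul_assoc, ← h2, mul_assoc]
    · rw [mul_zero, zero_mul]
  have hKm : K ∈ Nx y χ 1 := mem_one.2 s5
  -- the special fibre
  have hK0 : fb.q K ∈ Nx y0 χ0 1 := by
    rw [mem_one, ← hy, ← map_mul, s5, map_mul]
  have hu : IsUnit (fb.q K) ∨ IsNilpotent (fb.q K) := by
    refine hloc _ ?_ ?_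
    · rw [← hy, ← map_mul, s5, map_mul]
    · intro w
      rw [← map_mul, s4, map_mul]
  have e1 : (∑ t ∈ T, if E.deg t = 1 then E.f.b t * E.f.b' t else 0) = L.p 1 ⟨K, hKm⟩ := by
    have hHm : ∀ t, H t ∈ Nx y χ 1 := by
      intro t
      rw [mem_one]
      simp only [hH]
      split_ifs with h
      · have h1 := D.gy t
        have h2 := D.g'y t
        rw [h, map_one, one_smul] at h1 h2
        rw [← mul_assoc, h1, mul_assoc, ← h2, mul_assoc]
      · rw [mul_zero, zero_mul]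
    have h1 : (⟨K, hKm⟩ : Nx y χ 1) = ∑ t ∈ T, (⟨H t, hHm t⟩ : Nx y χ 1) := by
      apply Subtype.ext
      rw [AddSubmonoidClass.coe_finsetSum]
    rw [h1, map_sum]
    refine Finset.sum_congr rfl fun t _ => ?_
    rw [hdeg]
    split_ifs with h
    · rw [hb t, hb' t (hg' t), L.mul]
      refine p_cast L (mul_inv_cancel _) ?_ _ _
      simp only [hH]
      rw [if_pos h]
    · have h2 : (⟨H t, hHm t⟩ : Nx y χ 1) = 0 := by
        apply Subtype.ext
        simp only [hH]
        rw [if_neg h]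
        rfl
      rw [h2, map_zero]
  rw [e1, hp 1 ⟨K, hKm⟩ ⟨fb.q K, hK0⟩ rfl]
  exact un_np L0 hK0 hu

end Pool.Agent.PFE.H70.K1n
end
end -- Pool.Agent.Helper70_PFE.K1N

section -- Pool.Agent.Helper91_PFE.HSY

/-!
# Squad PFE, row HSY (helper91): the Hattori-Stallings rank over `K[y]`
-/

open scoped BigOperators

noncomputable section

namespace Pool.Agent.PFE.H91

open Pool.Agent.PFE
open Pool.Agent.PFC.B1 (FS)
open Polynomial (C coeff)

/-- The trace of a matrix which is idempotent modulo an ideal is killed by a derivation modulo the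
ideal. -/
theorem der_trace {Q ι : Type} [CommRing Q] [Fintype ι] [DecidableEq ι] (I : Ideal Q) (v : Q →+ Q)
    (hv : ∀ a b, v (a * b) = v a * b + a * v b) (hI : ∀ a ∈ I, v a ∈ I) (M : Matrix ι ι Q)
    (hM : ∀ r t, (M * M) r t - M r t ∈ I) : v (∑ r, M r r) ∈ I := by
  set φ : Matrix ι ι Q →+* Matrix ι ι (Q ⧸ I) := (Ideal.Quotient.mk I).mapMatrix with hφ
  set N : Matrix ι ι Q := M.map v with hN
  have hA : φ M * φ M = φ M := by
    rw [← map_mul]
    ext r t
    simp only [hφ, RingHom.mapMatrix_apply, Matrix.map_apply]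
    exact Ideal.Quotient.eq.2 (hM r t)
  have hB : φ N = φ N * φ M + φ M * φ N := by
    rw [← map_mul, ← map_mul, ← map_add]
    ext r t
    simp only [hφ, RingHom.mapMatrix_apply, Matrix.map_apply]
    have h1 : v ((M * M) r t - M r t) ∈ I := hI _ (hM r t)
    have h2 : v ((M * M) r t) = (N * M + M * N) r t := by
      rw [Matrix.mul_apply, map_sum, Matrix.add_apply, Matrix.mul_apply, Matrix.mul_apply,
        ← Finset.sum_add_distrib]
      refine Finset.sum_congr rfl fun s _ => ?_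
      rw [hv, hN, Matrix.map_apply, Matrix.map_apply]
    rw [map_sub, h2] at h1
    have h3 : N r t = v (M r t) := by rw [hN, Matrix.map_apply]
    rw [h3]
    exact (Ideal.Quotient.eq.2 h1).symm
  have hABA : φ M * φ N * φ M = 0 := by
    have h1 : φ M * φ N * φ M = φ M * φ N * φ M + φ M * φ N * φ M := by
      calc φ M * φ N * φ M = φ M * (φ N * φ M + φ M * φ N) * φ M := by rw [← hB]
        _ = φ M * φ N * (φ M * φ M) + (φ M * φ M) * φ N * φ M := by noncomm_ring
        _ = _ := by rw [hA]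
    exact left_eq_add.1 h1
  have htr : Matrix.trace (φ N) = 0 := by
    have h1 : Matrix.trace (φ M * φ N) = 0 := by
      calc Matrix.trace (φ M * φ N) = Matrix.trace ((φ M * φ M) * φ N) := by rw [hA]
        _ = Matrix.trace (φ M * (φ M * φ N)) := by rw [mul_assoc]
        _ = Matrix.trace (φ M * φ N * φ M) := Matrix.trace_mul_comm _ _
        _ = 0 := by rw [hABA, Matrix.trace_zero]
    rw [hB, Matrix.trace_add, Matrix.trace_mul_comm, h1, add_zero]
  have h4 : Ideal.Quotient.mk I (v (∑ r, M r r)) = 0 := by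
    rw [map_sum, map_sum, ← htr, Matrix.trace]
    rfl
  exact Ideal.Quotient.eq_zero_iff_mem.1 h4

section

variable {K A X J Ω Ω' : Type} [Field K] [Ring A] [Algebra K A] [Group X]
  [Fintype J] [Fintype Ω] [Fintype Ω'] {y : A} {l : ℕ} {χ : X →* K}
  (D : Yd K A X J Ω Ω' y l χ)

/-- the polynomial of an element -/
def PP : A →ₗ[K] Polynomial K :=
  ∑ i ∈ Finset.range l, (Polynomial.monomial i) ∘ₗ D.d.lam ∘ₗ LinearMap.mulLeft K (y ^ (l - 1 - i))

theorem PP_apply (a : A) :
    PP D a = ∑ i ∈ Finset.range l, Polynomial.monomial i (D.d.lam (y ^ (l - 1 - i) * a)) := by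
  rw [PP, LinearMap.sum_apply]
  rfl

theorem PP_coeff (a : A) (n : ℕ) (hn : n < l) :
    (PP D a).coeff n = D.d.lam (y ^ (l - 1 - n) * a) := by
  rw [PP_apply, Polynomial.finset_sum_coeff, Finset.sum_eq_single n]
  · rw [Polynomial.coeff_monomial, if_pos rfl]
  · intro i _ hi
    rw [Polynomial.coeff_monomial, if_neg hi]
  · intro h
    exact absurd (Finset.mem_range.2 hn) h

theorem PP_pow (a : A) (k : ℕ) :
    (Polynomial.X : Polynomial K) ^ l ∣ PP D (a * y ^ k) - Polynomial.X ^ k * PP D a := by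
  rw [Polynomial.X_pow_dvd_iff]
  intro n hn
  rw [Polynomial.coeff_sub, PP_coeff D _ n hn, Polynomial.coeff_X_pow_mul', ← mul_assoc, D.ds,
    ← mul_assoc, ← pow_add]
  split_ifs with h
  · rw [PP_coeff D _ (n - k) (by omega), show k + (l - 1 - n) = l - 1 - (n - k) by omega, sub_self]
  · have h1 : y ^ (k + (l - 1 - n)) = 0 := by
      rw [show k + (l - 1 - n) = l + (k + (l - 1 - n) - l) by omega, pow_add, D.yl, zero_mul]
    rw [h1, zero_mul, map_zero, sub_zero]

theorem PP_pi (a b : A) :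
    (Polynomial.X : Polynomial K) ^ l ∣ PP D (a * D.pi b) - PP D a * PP D b := by
  have h1 : PP D (a * D.pi b) = ∑ k ∈ Finset.range l,
      C (D.d.lam (y ^ (l - 1 - k) * b)) * PP D (a * y ^ k) := by
    rw [Yd.pi, Finset.mul_sum, map_sum]
    refine Finset.sum_congr rfl fun k _ => ?_
    rw [mul_smul_comm, map_smul, Polynomial.smul_eq_C_mul]
  have h2 : PP D a * PP D b = ∑ k ∈ Finset.range l,
      C (D.d.lam (y ^ (l - 1 - k) * b)) * (Polynomial.X ^ k * PP D a) := by
    rw [PP_apply D b, Finset.mul_sum]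
    refine Finset.sum_congr rfl fun k _ => ?_
    rw [← Polynomial.C_mul_X_pow_eq_monomial]
    ring
  rw [h1, h2, ← Finset.sum_sub_distrib]
  refine Finset.dvd_sum fun k _ => ?_
  rw [← mul_sub]
  exact Dvd.dvd.mul_left (PP_pow D a k) _

end

/-- the derivation `X d/dX` -/
def vd (K : Type) [Field K] : Polynomial K →+ Polynomial K where
  toFun p := Polynomial.X * Polynomial.derivative p
  map_zero' := by simp
  map_add' p q := by rw [map_add, mul_add]

/-- HSY -/
theorem hsy (hRTK : RtkStmt) : HsyStmt := by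
  intro K A X J Ω Ω' _ _ _ _ _ _ _ _ y l χ D e he
  classical
  obtain ⟨hr, -⟩ := hRTK K A X J Ω Ω' y l χ D
  set I : Ideal (Polynomial K) := Ideal.span {Polynomial.X ^ l} with hI
  have hmem : ∀ p, p ∈ I ↔ (Polynomial.X : Polynomial K) ^ l ∣ p := fun p =>
    Ideal.mem_span_singleton
  set M : Matrix (Ω ⊕ (Ω' × Fin l)) (Ω ⊕ (Ω' × Fin l)) (Polynomial K) :=
    fun r s => PP D (D.e' r * e * D.e s) with hM
  have h1 := der_trace I (vd K) (by
      intro a b
      show Polynomial.X * Polynomial.derivative (a * b) =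
        Polynomial.X * Polynomial.derivative a * b + a * (Polynomial.X * Polynomial.derivative b)
      rw [Polynomial.derivative_mul]
      ring) (by
      intro a ha
      rw [hmem] at ha ⊢
      obtain ⟨q, rfl⟩ := ha
      refine ⟨(l : Polynomial K) * q + Polynomial.X * Polynomial.derivative q, ?_⟩
      show Polynomial.X * Polynomial.derivative (Polynomial.X ^ l * q) = _
      rw [Polynomial.derivative_mul, Polynomial.derivative_X_pow]
      obtain ⟨m, hm⟩ : ∃ m, l = m + 1 := ⟨l - 1, by have := D.hl; omega⟩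
      rw [hm, Nat.add_sub_cancel, pow_succ, Polynomial.C_eq_natCast]
      ring) M (by
      intro r t
      rw [hmem, Matrix.mul_apply]
      have h2 : ∑ s, PP D (D.e' r * e * D.e s * D.pi (D.e' s * e * D.e t)) =
          PP D (D.e' r * e * D.e t) := by
        rw [← map_sum]
        congr 1
        have h3 := hr (e * D.e t)
        calc ∑ s, D.e' r * e * D.e s * D.pi (D.e' s * e * D.e t)
            = D.e' r * e * ∑ s, D.e s * D.pi (D.e' s * (e * D.e t)) := by
              rw [Finset.mul_sum]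
              refine Finset.sum_congr rfl fun s _ => ?_
              rw [mul_assoc (D.e' s) e (D.e t)]
              rw [mul_assoc (D.e' r * e) (D.e s)]
          _ = D.e' r * (e * e) * D.e t := by rw [h3]; noncomm_ring
          _ = D.e' r * e * D.e t := by rw [he]
      have h4 : ∑ s, M r s * M s t - M r t = -∑ s, (PP D (D.e' r * e * D.e s *
          D.pi (D.e' s * e * D.e t)) - PP D (D.e' r * e * D.e s) * PP D (D.e' s * e * D.e t)) := by
        rw [Finset.sum_sub_distrib, h2]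
        simp only [hM]
        ring
      rw [h4, dvd_neg]
      exact Finset.dvd_sum fun s _ => PP_pi D _ _)
  rw [hmem, Polynomial.X_pow_dvd_iff] at h1
  have hl := D.hl
  have h5 := h1 (l - 1) (by omega)
  have h6 : (vd K (∑ r, M r r)).coeff (l - 1) = (∑ r, M r r).coeff (l - 1) * ((l - 1 : ℕ) : K) := by
    show (Polynomial.X * Polynomial.derivative (∑ r, M r r)).coeff (l - 1) = _
    obtain ⟨m, hm⟩ : ∃ m, l - 1 = m + 1 := ⟨l - 2, by omega⟩
    rw [hm, Polynomial.coeff_X_mul, Polynomial.coeff_derivative]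
    push_cast
    rfl
  rw [h6] at h5
  have h7 : ((l - 1 : ℕ) : K) ≠ 0 := Nat.cast_ne_zero.2 (by omega)
  have h8 := (mul_eq_zero.1 h5).resolve_right h7
  rw [Polynomial.finset_sum_coeff] at h8
  rw [Yd.RT, Finset.sum_mul, map_sum, ← h8]
  refine Finset.sum_congr rfl fun r _ => ?_
  rw [hM]
  simp only
  rw [PP_coeff D _ (l - 1) (by omega), Nat.sub_self, pow_zero, one_mul, mul_one,
    D.ds (D.e' r * e) (D.e r), ← mul_assoc]

end Pool.Agent.PFE.H91
end
end -- Pool.Agent.Helper91_PFE.HSY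

section -- Pool.Agent.Helper92_PFE.BLS

/-!
# Squad PFE, row BLS: base change of the local algebra
-/

set_option autoImplicit false

open scoped BigOperators TensorProduct

noncomputable section

namespace Pool.Agent.PFE.H92

section basics

variable {R K A S X : Type} [CommRing R] [Field K] [Algebra R K] [Ring A] [Algebra R A]
  [Ring S] [Algebra R S] [Group X]

/-- the inclusion of `K ⊗ N` -/
def bi (K : Type) [Field K] [Algebra R K] (N : Submodule R A) : K ⊗[R] N →ₗ[K] K ⊗[R] A :=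
  N.subtype.baseChange K

theorem bi_tmul (N : Submodule R A) (k : K) (n : N) : bi K N (k ⊗ₜ[R] n) = k ⊗ₜ[R] (n : A) := rfl

theorem bi_inj [Module.Flat R K] (N : Submodule R A) : Function.Injective (bi K N) :=
  Module.Flat.lTensor_preserves_injective_linearMap (M := K) N.subtype N.injective_subtype

theorem smul_alg (c : R) (k : K) (a : A) :
    algebraMap R K c • (k ⊗ₜ[R] a) = k ⊗ₜ[R] (c • a) := by
  rw [TensorProduct.smul_tmul', smul_eq_mul, ← Algebra.smul_def, TensorProduct.smul_tmul]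

/-- the commutator with `y`, twisted by `c` -/
def del (y : A) (c : R) : A →ₗ[R] A := LinearMap.mulLeft R y - c • LinearMap.mulRight R y

theorem del_apply (y : A) (c : R) (a : A) : del y c a = y * a - c • (a * y) := rfl

theorem mem_nx {y : A} {χ : X →* R} {x : X} {a : A} : a ∈ Nx y χ x ↔ del y (χ x) a = 0 := by
  rw [del_apply, sub_eq_zero]
  exact Iff.rfl

theorem del_lt (y : A) (c : R) (a : K ⊗[R] A) : (del y c).lTensor K a =
    (1 : K) ⊗ₜ[R] y * a - algebraMap R K c • (a * (1 : K) ⊗ₜ[R] y) := by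
  induction a using TensorProduct.induction_on with
  | zero => rw [map_zero, mul_zero, zero_mul, smul_zero, sub_zero]
  | tmul k a =>
    rw [LinearMap.lTensor_tmul, del_apply, Algebra.TensorProduct.tmul_mul_tmul, one_mul,
      Algebra.TensorProduct.tmul_mul_tmul, mul_one, smul_alg, TensorProduct.tmul_sub]
  | add a b ha hb =>
    rw [map_add, ha, hb, mul_add, add_mul, smul_add]
    abel

theorem mem_nx' {y : A} {χ : X →* R} {χK : X →* K} (hχ : ∀ x, χK x = algebraMap R K (χ x))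
    {x : X} {a : K ⊗[R] A} :
    a ∈ Nx ((1 : K) ⊗ₜ[R] y) χK x ↔ (del y (χ x)).lTensor K a = 0 := by
  rw [del_lt, ← hχ, sub_eq_zero]
  exact Iff.rfl

theorem ex_nx (y : A) (χ : X →* R) (x : X) :
    Function.Exact (Nx y χ x).subtype (del y (χ x)) := by
  intro a
  rw [← mem_nx]
  exact ⟨fun h => ⟨⟨a, h⟩, rfl⟩, fun ⟨b, hb⟩ => hb ▸ b.2⟩

variable [Module.Flat R K]

theorem nx_bi {y : A} {χ : X →* R} {χK : X →* K} (hχ : ∀ x, χK x = algebraMap R K (χ x))
    {x : X} (a : K ⊗[R] A) :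
    a ∈ Nx ((1 : K) ⊗ₜ[R] y) χK x ↔ ∃ t, bi K (Nx y χ x) t = a := by
  rw [mem_nx' hχ]
  exact Module.Flat.lTensor_exact K (ex_nx y χ x) a

theorem bi_mem {y : A} {χ : X →* R} {χK : X →* K} (hχ : ∀ x, χK x = algebraMap R K (χ x))
    {x : X} (t : K ⊗[R] Nx y χ x) : bi K (Nx y χ x) t ∈ Nx ((1 : K) ⊗ₜ[R] y) χK x :=
  (nx_bi hχ _).mpr ⟨t, rfl⟩

theorem ex_p {y : A} {χ : X →* R} {χK : X →* K} (hχ : ∀ x, χK x = algebraMap R K (χ x))
    (x : X) (p : Nx y χ x →ₗ[R] S) :
    ∃ p' : Nx ((1 : K) ⊗ₜ[R] y) χK x →ₗ[K] K ⊗[R] S,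
      ∀ t, p' ⟨bi K (Nx y χ x) t, bi_mem hχ t⟩ = p.baseChange K t := by
  let e : K ⊗[R] Nx y χ x ≃ₗ[K] Nx ((1 : K) ⊗ₜ[R] y) χK x :=
    LinearEquiv.ofBijective ((bi K (Nx y χ x)).codRestrict _ (bi_mem hχ))
      ⟨fun a b h => bi_inj _ (congrArg Subtype.val h), fun a => by
        obtain ⟨t, ht⟩ := (nx_bi hχ a.1).mp a.2
        exact ⟨t, Subtype.ext ht⟩⟩
  refine ⟨p.baseChange K ∘ₗ e.symm.toLinearMap, fun t => ?_⟩
  have h1 : (⟨bi K (Nx y χ x) t, bi_mem hχ t⟩ : Nx ((1 : K) ⊗ₜ[R] y) χK x) = e t := rfl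
  rw [h1, LinearMap.comp_apply]
  exact congrArg _ (e.symm_apply_apply t)

omit [Module.Flat R K] in
theorem tx_add (y : A) (l : ℕ) (c : R) (a b : A) :
    Tx y l c (a + b) = Tx y l c a + Tx y l c b := by
  unfold Tx
  rw [← Finset.sum_add_distrib]
  refine Finset.sum_congr rfl fun j _ => ?_
  rw [mul_add, add_mul, smul_add]

omit [Module.Flat R K] in
theorem tx_zero (y : A) (l : ℕ) (c : R) : Tx y l c 0 = 0 := by
  unfold Tx
  refine Finset.sum_eq_zero fun j _ => ?_
  rw [mul_zero, zero_mul, smul_zero]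

omit [Module.Flat R K] in
theorem tx_tmul (y : A) (l : ℕ) (c : R) (k : K) (a : A) :
    Tx ((1 : K) ⊗ₜ[R] y) l (algebraMap R K c) (k ⊗ₜ[R] a) = k ⊗ₜ[R] Tx y l c a := by
  unfold Tx
  rw [TensorProduct.tmul_sum]
  refine Finset.sum_congr rfl fun j _ => ?_
  rw [Algebra.TensorProduct.tmul_pow, Algebra.TensorProduct.tmul_pow, one_pow, one_pow,
    Algebra.TensorProduct.tmul_mul_tmul, Algebra.TensorProduct.tmul_mul_tmul, one_mul, mul_one,
    ← map_pow, smul_alg]

/-- the ideal of the base change -/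
theorem jx_range {y : A} {l : ℕ} {χ : X →* R} {χK : X →* K}
    (hχ : ∀ x, χK x = algebraMap R K (χ x)) (x : X) (a : K ⊗[R] A) :
    a ∈ Jx ((1 : K) ⊗ₜ[R] y) l χK x ↔ ∃ t, bi K (Jx y l χ x) t = a := by
  constructor
  · intro h
    change a ∈ LinearMap.range (bi K (Jx y l χ x))
    have hle : Jx ((1 : K) ⊗ₜ[R] y) l χK x ≤ LinearMap.range (bi K (Jx y l χ x)) := by
      unfold Jx
      rw [Submodule.span_le]
      rintro b (⟨a, rfl⟩ | ⟨n, hn, rfl⟩)
      · rw [hχ]
        change _ ∈ LinearMap.range (bi K (Jx y l χ x))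
        induction a using TensorProduct.induction_on with
        | zero => rw [tx_zero]; exact Submodule.zero_mem _
        | tmul k a =>
          rw [tx_tmul]
          exact ⟨k ⊗ₜ[R] ⟨Tx y l (χ x) a, Submodule.subset_span (Or.inl ⟨a, rfl⟩)⟩, rfl⟩
        | add a b ha hb => rw [tx_add]; exact Submodule.add_mem _ ha hb
      · obtain ⟨t, rfl⟩ := (nx_bi hχ n).mp hn
        change _ ∈ LinearMap.range (bi K (Jx y l χ x))
        clear hn
        induction t using TensorProduct.induction_on with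
        | zero => rw [map_zero, mul_zero]; exact Submodule.zero_mem _
        | tmul k n =>
          rw [bi_tmul, Algebra.TensorProduct.tmul_mul_tmul, one_mul]
          exact ⟨k ⊗ₜ[R] ⟨y * n, Submodule.subset_span (Or.inr ⟨n, n.2, rfl⟩)⟩, rfl⟩
        | add a b ha hb => rw [map_add, mul_add]; exact Submodule.add_mem _ ha hb
    exact hle h
  · rintro ⟨t, rfl⟩
    have key : ∀ (k : K) (b : A), b ∈ Jx y l χ x →
        k ⊗ₜ[R] b ∈ Jx ((1 : K) ⊗ₜ[R] y) l χK x := by
      intro k b hb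
      unfold Jx at hb
      induction hb using Submodule.span_induction with
      | mem b hb =>
        rcases hb with ⟨a, rfl⟩ | ⟨n, hn, rfl⟩
        · rw [← tx_tmul, ← hχ]
          exact Submodule.subset_span (Or.inl ⟨_, rfl⟩)
        · refine Submodule.subset_span (Or.inr ⟨k ⊗ₜ[R] n, ?_, ?_⟩)
          · exact bi_mem hχ (k ⊗ₜ[R] (⟨n, hn⟩ : Nx y χ x))
          · rw [Algebra.TensorProduct.tmul_mul_tmul, one_mul]
      | zero => rw [TensorProduct.tmul_zero]; exact Submodule.zero_mem _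
      | add a b _ _ ha hb => rw [TensorProduct.tmul_add]; exact Submodule.add_mem _ ha hb
      | smul r a _ ha => rw [← smul_alg]; exact Submodule.smul_mem _ _ ha
    induction t using TensorProduct.induction_on with
    | zero => rw [map_zero]; exact Submodule.zero_mem _
    | tmul k n => exact key k n n.2
    | add a b ha hb => rw [map_add]; exact Submodule.add_mem _ ha hb

omit [Module.Flat R K] in
theorem lt_zero_iff {M P Q : Type} [AddCommGroup M] [Module R M] [AddCommGroup P] [Module R P]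
    [AddCommGroup Q] [Module R Q] [Module.Flat R K] (g : M →ₗ[R] P) (h : M →ₗ[R] Q)
    (hgh : ∀ m, g m = 0 ↔ h m = 0) (t : K ⊗[R] M) :
    g.lTensor K t = 0 ↔ h.lTensor K t = 0 := by
  have e1 : Function.Exact (LinearMap.ker g).subtype g := by
    intro a
    exact ⟨fun h => ⟨⟨a, h⟩, rfl⟩, fun ⟨b, hb⟩ => hb ▸ b.2⟩
  have e2 : Function.Exact (LinearMap.ker g).subtype h := by
    intro a
    rw [← hgh]
    exact ⟨fun h => ⟨⟨a, h⟩, rfl⟩, fun ⟨b, hb⟩ => hb ▸ b.2⟩
  exact (Module.Flat.lTensor_exact K e1 t).trans (Module.Flat.lTensor_exact K e2 t).symm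

/-- the kernel of the base change of `p` -/
theorem ker_bc {y : A} {l : ℕ} {χ : X →* R} {χK : X →* K}
    (hχ : ∀ x, χK x = algebraMap R K (χ x)) (x : X) (p : Nx y χ x →ₗ[R] S)
    (hp : ∀ a, p a = 0 ↔ (a : A) ∈ Jx y l χ x) (t : K ⊗[R] Nx y χ x) :
    p.baseChange K t = 0 ↔ bi K (Nx y χ x) t ∈ Jx ((1 : K) ⊗ₜ[R] y) l χK x := by
  set J := Jx y l χ x with hJ
  have e3 : Function.Exact J.subtype J.mkQ := by
    intro a
    rw [Submodule.mkQ_apply, Submodule.Quotient.mk_eq_zero]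
    exact ⟨fun h => ⟨⟨a, h⟩, rfl⟩, fun ⟨b, hb⟩ => hb ▸ b.2⟩
  have f3 := Module.Flat.lTensor_exact K e3 (bi K (Nx y χ x) t)
  have f1 := lt_zero_iff (K := K) p (J.mkQ ∘ₗ (Nx y χ x).subtype) (fun m => by
    rw [hp, LinearMap.comp_apply, Submodule.mkQ_apply, Submodule.Quotient.mk_eq_zero]
    rfl) t
  rw [jx_range hχ]
  have g1 : p.baseChange K t = 0 ↔ p.lTensor K t = 0 := Iff.rfl
  have g2 : (J.mkQ ∘ₗ (Nx y χ x).subtype).lTensor K t =
      J.mkQ.lTensor K (bi K (Nx y χ x) t) := by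
    rw [LinearMap.lTensor_comp]
    rfl
  rw [g1, f1, g2, f3]
  exact Iff.rfl

end basics

theorem bls : BlsStmt := by
  intro R K A X S _ _ _ _ _ _ _ _ _ _ _ _ y l χ χK L hχ
  have htf : Module.IsTorsionFree R K := inferInstance
  have hfl : Module.Flat R K := inferInstance
  choose p' hp' using fun x => ex_p (K := K) hχ x (L.p x)
  have hsur : ∀ x (a : Nx ((1 : K) ⊗ₜ[R] y) χK x), ∃ t,
      a = ⟨bi K (Nx y χ x) t, bi_mem hχ t⟩ := by
    intro x a
    obtain ⟨t, ht⟩ := (nx_bi hχ a.1).mp a.2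
    exact ⟨t, Subtype.ext ht.symm⟩
  refine ⟨{
    c := fun x => (L.c x).baseChange K
    cs := ?_
    ci := ?_
    co := ?_
    c1 := ?_
    cm := ?_
    p := p'
    pc := ?_
    ps := ?_
    ker := ?_
    one := ?_
    mul := ?_ }, fun x k s => rfl⟩
  · intro s
    induction s using TensorProduct.induction_on with
    | zero => exact Finset.sum_eq_zero fun x _ => map_zero _
    | tmul k s =>
      conv_rhs => rw [← L.cs s]
      rw [TensorProduct.tmul_sum]
      rfl
    | add a b ha hb =>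
      conv_rhs => rw [← ha, ← hb]
      rw [← Finset.sum_add_distrib]
      exact Finset.sum_congr rfl fun x _ => map_add _ _ _
  · intro x s
    induction s using TensorProduct.induction_on with
    | zero => rw [map_zero, map_zero]
    | tmul k s => rw [LinearMap.baseChange_tmul, LinearMap.baseChange_tmul, L.ci]
    | add a b ha hb => rw [map_add, map_add, ha, hb]
  · intro x x' s hxx
    induction s using TensorProduct.induction_on with
    | zero => rw [map_zero, map_zero]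
    | tmul k s =>
      rw [LinearMap.baseChange_tmul, LinearMap.baseChange_tmul, L.co x x' s hxx,
        TensorProduct.tmul_zero]
    | add a b ha hb => rw [map_add, map_add, ha, hb, add_zero]
  · rw [Algebra.TensorProduct.one_def, LinearMap.baseChange_tmul, L.c1]
  · intro x x' s s'
    induction s using TensorProduct.induction_on with
    | zero => rw [map_zero, zero_mul, map_zero]
    | tmul k s =>
      induction s' using TensorProduct.induction_on with
      | zero => rw [map_zero, mul_zero, map_zero]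
      | tmul k' s' =>
        rw [LinearMap.baseChange_tmul, LinearMap.baseChange_tmul,
          Algebra.TensorProduct.tmul_mul_tmul, LinearMap.baseChange_tmul, L.cm]
      | add a b ha hb => rw [map_add, mul_add, map_add, ha, hb]
    | add a b ha hb => rw [map_add, add_mul, map_add, ha, hb]
  · intro x a
    obtain ⟨t, rfl⟩ := hsur x a
    rw [hp']
    induction t using TensorProduct.induction_on with
    | zero => rw [map_zero, map_zero]
    | tmul k n => rw [LinearMap.baseChange_tmul, LinearMap.baseChange_tmul, L.pc]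
    | add a b ha hb => rw [map_add, map_add, ha, hb]
  · intro x s
    have h : ∃ t, (L.p x).baseChange K t = (L.c x).baseChange K s := by
      induction s using TensorProduct.induction_on with
      | zero => exact ⟨0, by rw [map_zero, map_zero]⟩
      | tmul k s =>
        obtain ⟨a, ha⟩ := L.ps x s
        exact ⟨k ⊗ₜ[R] a, by rw [LinearMap.baseChange_tmul, LinearMap.baseChange_tmul, ha]⟩
      | add a b ha hb =>
        obtain ⟨t, ht⟩ := ha
        obtain ⟨t', ht'⟩ := hb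
        exact ⟨t + t', by rw [map_add, map_add, ht, ht']⟩
    obtain ⟨t, ht⟩ := h
    exact ⟨_, (hp' x t).trans ht⟩
  · intro x a
    obtain ⟨t, rfl⟩ := hsur x a
    rw [hp']
    exact ker_bc hχ x (L.p x) (L.ker x) t
  · have h := hp' 1 ((1 : K) ⊗ₜ[R] ⟨1, Nx_one y χ⟩)
    rw [LinearMap.baseChange_tmul, L.one] at h
    exact h
  · intro x x' a b
    obtain ⟨t, rfl⟩ := hsur x a
    obtain ⟨t', rfl⟩ := hsur x' b
    have h : ∃ u, bi K (Nx y χ (x * x')) u = bi K (Nx y χ x) t * bi K (Nx y χ x') t' ∧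
        (L.p (x * x')).baseChange K u = (L.p x).baseChange K t * (L.p x').baseChange K t' := by
      induction t using TensorProduct.induction_on with
      | zero => exact ⟨0, by rw [map_zero, map_zero, zero_mul], by
          rw [map_zero, map_zero, zero_mul]⟩
      | tmul k n =>
        induction t' using TensorProduct.induction_on with
        | zero => exact ⟨0, by rw [map_zero, map_zero, mul_zero], by
            rw [map_zero, map_zero, mul_zero]⟩
        | tmul k' n' =>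
          refine ⟨(k * k') ⊗ₜ[R] ⟨n * n', Nx_mul n.2 n'.2⟩, ?_, ?_⟩
          · rw [bi_tmul, bi_tmul, bi_tmul, Algebra.TensorProduct.tmul_mul_tmul]
          · rw [LinearMap.baseChange_tmul, LinearMap.baseChange_tmul, LinearMap.baseChange_tmul,
              Algebra.TensorProduct.tmul_mul_tmul, L.mul]
        | add a b ha hb =>
          obtain ⟨u, hu, hu'⟩ := ha
          obtain ⟨v, hv, hv'⟩ := hb
          exact ⟨u + v, by rw [map_add, map_add, mul_add, hu, hv], by
            rw [map_add, map_add, mul_add, hu', hv']⟩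
      | add a b ha hb =>
        obtain ⟨u, hu, hu'⟩ := ha
        obtain ⟨v, hv, hv'⟩ := hb
        exact ⟨u + v, by rw [map_add, map_add, add_mul, hu, hv], by
          rw [map_add, map_add, add_mul, hu', hv']⟩
    obtain ⟨u, hu, hu'⟩ := h
    rw [hp', hp', ← hu', ← hp']
    exact congrArg _ (Subtype.ext hu)

end Pool.Agent.PFE.H92
end
end -- Pool.Agent.Helper92_PFE.BLS
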