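import Pool.Agent.Helper12_AWB.B029

/-!
# Merged copies (generated) of the modules

* `Pool.Agent.PFE.StmtsE2c`
* `Pool.Agent.Helper13_PFE.OPC`
* `Pool.Agent.Helper13_PFE.YFT`
* `Pool.Agent.Helper15_PFE.RAT`
* `Pool.Agent.Helper17_PFE.YFB`
* `Pool.Agent.Helper27_PFE.GYE`
* `Pool.Agent.Helper2_PFE.ORB`
* `Pool.Agent.Helper44_PFD.WGD`
* `Pool.Agent.Helper32_PFE.OPA`
* `Pool.Agent.Helper39_PFE.Y0E`
* `Pool.Agent.Helper41_PFE.OPB`
* `Pool.Agent.Helper56_PFE.CAZ`
* `Pool.Agent.PFC.B5c.Lcn_helper65`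
* `Pool.Agent.Helper58_PFE.FLT`
* `Pool.Agent.Helper58_PFE.SGY`
* `Pool.Agent.Helper80_PFE.YFA`
* `Pool.Agent.Helper84_PFE.SG1`
-/

set_option autoImplicit false

section -- Pool.Agent.PFE.StmtsE2c

/-!
# Squad PFE (theorem (R)), part E2, block 3: the level of `F` (helper3)

`V = V1 × W` (`i : V1 → V` injective, `|V1| = ℓ`), `Y : Y1 F V1 ℓ` the eigenvector, `α : V → A`.  From the
twisted extension `TXN` (part (0)) to the input `FLv` of block 1, and the final formula `RAT`, `RIN`.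
`tw σ R = {(σ u, u) : u ∈ R}`.
-/

open scoped BigOperators TensorProduct

noncomputable section

namespace Pool.Agent.PFE

open MulOpposite
open Pool.Agent.PFC (tw)
open Pool.Agent.PFC.B1 (FS Split BiM Sep)
open Pool.Agent.PFD
open Pool.Agent.PFD.D2
open Pool.Agent.PFD.D2b (wrp FPl FrR WFS)

/-! ## The group algebra -/

/-- Y0E: the eigenvector.

Proof.  `v0` a generator, `x = of v0 - 1`, `x^ℓ = 0`; the `x^k`, `k < ℓ`, are a basis (they span: the span
contains `1` and is stable under `of v0`; `ℓ` elements, dimension `ℓ`).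
`y = ∑_(1 ≤ j < ℓ) j⁻¹ • (of (v0^j) - 1) = x t`, `t = ∑ j⁻¹ • (1 + of v0 + ... + of v0^(j-1))`, augmentation
`∑ j⁻¹ j = ℓ - 1 = -1 ≠ 0`, so `t` is a unit (AUG, or `t + 1 ∈ x F V1` is nilpotent).  So `y^ℓ = 0` and the `y^k = x^k t^k` are a
basis: `x^k F V1 = y^k F V1`; if `∑ a_k y^k = 0` with first index `k0`, multiply by `y^(ℓ-1-k0)`: `a_k0 y^(ℓ-1) = 0`,
`y^(ℓ-1) = x^(ℓ-1) t^(ℓ-1) ≠ 0`.  `co k` = the coordinates (for `k < ℓ`; `0` otherwise).
`σ v0 = v0^k`, `χ σ = k` in `F`: multiplicative, `χ σ = 1` implies `k = 1` modulo `ℓ`, `σ = 1`; `k^(ℓ-1) = 1` (Fermat).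
`σ y = ∑_j j⁻¹ (of v0^(k j) - 1) = k y` (reindex by `j ↦ k j` modulo `ℓ`).  `v1`: `of v - 1 ∈ x F V1 = y F V1`.
`y1`: `v = v0`, `t`. -/
def Y0eStmt : Prop :=
  ∀ (ℓ : ℕ) [Fact ℓ.Prime] (F V1 : Type) [Field F] [CharP F ℓ] [CommGroup V1] [Fintype V1],
    Nat.card V1 = ℓ → Nonempty (Y1 F V1 ℓ)

/-- AUG: units of `F V`.

Proof.  `x^(ℓ^n) = ∑ (x.coeff v)^(ℓ^n) • of (v^(ℓ^n)) = (∑ x.coeff v)^(ℓ^n) • 1` if `ℓ^n` kills `V` (the Frobenius map is
additive in a commutative ring of characteristic `ℓ`; `sum_pow_char_pow`).  Conversely the augmentation is a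
homomorphism. -/
def AugStmt : Prop :=
  ∀ (ℓ : ℕ) [Fact ℓ.Prime] (F V : Type) [Field F] [CharP F ℓ] [CommGroup V] [Fintype V],
    IsPGroup ℓ V → ∀ x : MonoidAlgebra F V, IsUnit x ↔ ∑ v, x.coeff v ≠ 0

/-- CAZ: the two Casimir elements of `F V1`.

Proof.  `t a = a.coeff 1`, `λ = co (l-1)`: `∑_v t(v⁻¹ a) v = a`, `∑_k λ(y^(l-1-k) a) y^k = a` (for `a = y^m`).
`z = ∑_v λ(of v) of v⁻¹`: `t(z a) = λ(∑_v t(v⁻¹ a) v) = λ a`.  `z' = ∑_k t(y^k) y^(l-1-k)`: `λ(z' a) = t a`.  So
`λ(z' z a) = λ a` for all `a`, `z z' = 1`.  `∑_v β (of v) (of v⁻¹) = ∑_k β (y^k) (∑_v λ(y^(l-1-k) v) v⁻¹)` and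
`∑_v λ(y^(l-1-k) v) v⁻¹ = ∑_v t(z y^(l-1-k) v) v⁻¹ = z y^(l-1-k)`. -/
def CazStmt : Prop :=
  ∀ (F V1 : Type) [Field F] [CommGroup V1] [Fintype V1] (l : ℕ) (Y : Y1 F V1 l), 1 ≤ l →
    ∃ z z' : MonoidAlgebra F V1, z * z' = 1 ∧
      ∀ (M : Type) [AddCommGroup M] [Module F M]
        (β : MonoidAlgebra F V1 →ₗ[F] MonoidAlgebra F V1 →ₗ[F] M),
        ∑ v : V1, β (MonoidAlgebra.of F V1 v) (MonoidAlgebra.of F V1 v⁻¹) =
          ∑ k ∈ Finset.range l, β (Y.y ^ k) (z * Y.y ^ (l - 1 - k))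

/-- GYE: `F V = F[y]/y^l ⊗ F W`.

Proof.  Every `u ∈ V` is `i v * w` in a unique way, so the `of (i v) * of w` are a basis, and with the basis
`y^k` of `F V1` the `y^k * of w` are a basis. -/
def GyeStmt : Prop :=
  ∀ (F V V1 : Type) [Field F] [CommGroup V] [Fintype V] [CommGroup V1] [Fintype V1]
    (i : V1 →* V) (W : Subgroup V) [Fintype W] (l : ℕ) (Y : Y1 F V1 l), 1 ≤ l →
    Function.Injective i → i.range ⊓ W = ⊥ → i.range ⊔ W = ⊤ →
    ∃ G : GY F (MonoidAlgebra F V) W l, G.y = il (MonoidAlgebra.of F V) i Y.y ∧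
      ∀ w : W, G.om w = MonoidAlgebra.of F V (w : V)

/-! ## Frames -/

/-- ORB: a section of the orbits of `P × P`, `P` a factor of `V`.

Proof.  `T` = representatives of the `V × V`-orbits, `Θ = {b • t : t ∈ T, b ∈ W × W}`.  Second claim: `ω = g • t`,
`g = a b` with `a ∈ P × P`, `b ∈ W × W` (`⊔`), `a⁻¹ • ω ∈ Θ`.  Third: `ω = b • t`, `a • ω = b' • t'`: the same
orbit, `t = t'`, `(a (b b'⁻¹)) • t = t`, so `a • t = t` (hypothesis), `a • ω = ω` (commutative). -/
def OrbStmt : Prop :=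
  ∀ (V Om : Type) [CommGroup V] [MulAction (V × V) Om] (P W : Subgroup V), P ⊔ W = ⊤ →
    (∀ (ω : Om) (a b : V × V), a.1 ∈ P → a.2 ∈ P → b.1 ∈ W → b.2 ∈ W → (a * b) • ω = ω →
      a • ω = ω) →
    ∃ Θ : Set Om, (∀ ω ∈ Θ, ∀ b : V × V, b.1 ∈ W → b.2 ∈ W → b • ω ∈ Θ) ∧
      (∀ ω : Om, ∃ a : V × V, a.1 ∈ P ∧ a.2 ∈ P ∧ a • ω ∈ Θ) ∧
      ∀ ω ∈ Θ, ∀ a : V × V, a.1 ∈ P → a.2 ∈ P → a • ω ∈ Θ → a • ω = ω

/-- YFA: the twisted part of the frame.

Proof.  `P = i.range`.  ORB: if `(a b) • ω = ω`, `(a.1 b.1, a.2 b.2) ∈ tw (φ e) R`, then `a.1 = φ e a.2` (the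
decomposition is unique, `P` and `W` are `E`-stable), `a.2 ∈ P ≤ R`, so `a • ω = ω`.  `Ω = {ω // ω ∈ Θ}` with the
restricted action.  `deg ω = c⁻¹`, where `(i (θ c v), i v)` fixes `ω` for all `v` (choose `c` as a function of the stabiliser,
which is constant on orbits; it exists by the hypothesis on `e`).  `g o = b o`, `c o a = d o (j z * a)` with `z` of
CAZ in `F V` (apply `il (of) i`).  From `i(θ_c v) b_o = b_o i(v)`: `θ_c(γ) b_o = b_o γ` for `γ ∈ F V1`, `γ = Y.y`:
`χ(c) y b_o = b_o y` (`Y.ye`), this is `gy`; from `d_o (i(θ_c v) a i(v)⁻¹) = d_o a`: `χ(c) d_o(y a) = d_o(a y)`, this is `cy`.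
`fo`: `(1, w)` is in the graph of `φ e` only for `w = 1`.  `fr`: `V1 × Ω → Om`, `(v, o) ↦ (i v, 1) • o` is bijective
(surjective: `ω = a⁻¹ • o`, `(φ e a.2, a.2)` fixes `o`; injective: third part of ORB, graph), so
`∑_ω d ω a • b ω = ∑_o ∑_v d_o (v⁻¹ a) • v b_o = ∑_o ∑_k d_o (z y^(l-1-k) a) • y^k b_o` (CAZ for
`β γ1 γ2 = d_o (γ2 a) • γ1 b_o`).  `Ω' = Empty`. -/
def YfaStmt : Prop :=
  ∀ (F V E V1 C A Om : Type) [Field F] [CommGroup V] [Fintype V] [Group E] [CommGroup V1]
    [Fintype V1] [CommGroup C] [Ring A] [Algebra F A] [Fintype Om] [MulAction (V × V) Om]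
    (φ : E →* MulAut V) (i : V1 →* V) (W : Subgroup V) [Fintype W] (l : ℕ) (Y : Y1 F V1 l)
    (G : GY F (MonoidAlgebra F V) W l) (θ : C →* MulAut V1) (j : MonoidAlgebra F V →ₐ[F] A)
    (b : Om → A) (d : Om → (A →ₗ[F] F)), 1 ≤ l → Function.Injective i → i.range ⊓ W = ⊥ →
    i.range ⊔ W = ⊤ → (∀ e, ∀ w ∈ W, φ e w ∈ W) → (∀ e, ∃ c, ∀ v, φ e (i v) = i (θ c v)) →
    G.y = il (MonoidAlgebra.of F V) i Y.y → (∀ w : W, G.om w = MonoidAlgebra.of F V (w : V)) →
    (∀ (w : V × V) (ω : Om), b (w • ω) =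
      j (MonoidAlgebra.of F V w.1) * b ω * j (MonoidAlgebra.of F V w.2⁻¹)) →
    (∀ (w : V × V) (ω : Om) (a : A),
      d (w • ω) (j (MonoidAlgebra.of F V w.1) * a * j (MonoidAlgebra.of F V w.2⁻¹)) = d ω a) →
    (∀ ω : Om, ∃ (e : E) (R : Subgroup V), i.range ≤ R ∧
      MulAction.stabilizer (V × V) ω = tw (φ e).toMonoidHom R) →
    ∃ (Ω Ω' : Type) (_ : Fintype Ω) (_ : Fintype Ω') (_ : MulAction (W × W) Ω)
      (_ : MulAction (W × W) Ω'),
      Nonempty (YFr Ω Ω' G (Y.χ.comp θ) (AB j) (∑ ω, (d ω).smulRight (b ω)))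

/-- YFB: the free part of the frame.

Proof.  As YFA: ORB (`(a b) • ω = ω`: `a.2 b.2 ∈ R ≤ W`, so `a.2 = 1`, `a.1 b.1 = φ e b.2 ∈ W`, `a.1 = 1`),
`Ω' = {ω // ω ∈ Θ}`, `Ω = Empty`, `h o = b o`, `d' o a = d o (j z * a * j z)`.  `(V1 × V1) × Ω' → Om` is bijective (the stabiliser
of `o` in `P × P` is trivial), so `∑_ω d ω a • b ω = ∑_o ∑_(v,v') d_o (v⁻¹ a v') • v b_o v'⁻¹`; CAZ for `v` and for `v'`
(with `v'` replaced by `v'⁻¹`) gives `∑_(i,k) d_o (z y^(l-1-i) a z y^(l-1-k)) • y^i b_o y^k`.  `fo'`: graph. -/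
def YfbStmt : Prop :=
  ∀ (F V E V1 C A Om : Type) [Field F] [CommGroup V] [Fintype V] [Group E] [CommGroup V1]
    [Fintype V1] [CommGroup C] [Ring A] [Algebra F A] [Fintype Om] [MulAction (V × V) Om]
    (φ : E →* MulAut V) (i : V1 →* V) (W : Subgroup V) [Fintype W] (l : ℕ) (Y : Y1 F V1 l)
    (G : GY F (MonoidAlgebra F V) W l) (θ : C →* MulAut V1) (j : MonoidAlgebra F V →ₐ[F] A)
    (b : Om → A) (d : Om → (A →ₗ[F] F)), 1 ≤ l → Function.Injective i → i.range ⊓ W = ⊥ →
    i.range ⊔ W = ⊤ → (∀ e, ∀ w ∈ W, φ e w ∈ W) →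
    G.y = il (MonoidAlgebra.of F V) i Y.y → (∀ w : W, G.om w = MonoidAlgebra.of F V (w : V)) →
    (∀ (w : V × V) (ω : Om), b (w • ω) =
      j (MonoidAlgebra.of F V w.1) * b ω * j (MonoidAlgebra.of F V w.2⁻¹)) →
    (∀ (w : V × V) (ω : Om) (a : A),
      d (w • ω) (j (MonoidAlgebra.of F V w.1) * a * j (MonoidAlgebra.of F V w.2⁻¹)) = d ω a) →
    (∀ ω : Om, ∃ (e : E) (R : Subgroup V), R ≤ W ∧
      MulAction.stabilizer (V × V) ω = tw (φ e).toMonoidHom R) →
    ∃ (Ω Ω' : Type) (_ : Fintype Ω) (_ : Fintype Ω') (_ : MulAction (W × W) Ω)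
      (_ : MulAction (W × W) Ω'),
      Nonempty (YFr Ω Ω' G (Y.χ.comp θ) (AB j) (∑ ω, (d ω).smulRight (b ω)))

/-- YFT: the frame of the complement of `F V` in `A`.

Proof.  `Om = OmA ⊔ OmB`: `OmA` = the `ω` with stabiliser `tw (φ e) R`, `i.range ≤ R`; for the others `R ≤ W` (if
`R ≤ i.range`, a group of prime order, and not `i.range ≤ R`, then `R = ⊥`).  Both are stable (`V × V` is
commutative, the stabiliser is constant on orbits).  YFA, YFB for the subtypes, FRS, `T.sum`. -/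
def YftStmt : Prop :=
  ∀ (ℓ : ℕ) [Fact ℓ.Prime] (F V E V1 C A N K Om : Type) [Field F] [CommGroup V] [Fintype V]
    [Group E] [Fintype E] [CommGroup V1] [Fintype V1] [CommGroup C] [Ring A] [Algebra F A]
    [Fintype N] [Fintype K] [Fintype Om] [MulAction (V × V) Om] (φ : E →* MulAut V)
    (NN : Subgroup V → Prop) (i : V1 →* V) (W : Subgroup V) [Fintype W] (Y : Y1 F V1 ℓ)
    (G : GY F (MonoidAlgebra F V) W ℓ) (θ : C →* MulAut V1) (T : TV A N K Om φ NN),
    Nat.card V1 = ℓ → Function.Injective i → i.range ⊓ W = ⊥ → i.range ⊔ W = ⊤ →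
    (∀ e, ∀ w ∈ W, φ e w ∈ W) → (∀ e, ∃ c, ∀ v, φ e (i v) = i (θ c v)) →
    (∀ Q : Subgroup V, ¬ NN Q → Q ≤ i.range ∨ Q ≤ W) →
    G.y = il (MonoidAlgebra.of F V) i Y.y → (∀ w : W, G.om w = MonoidAlgebra.of F V (w : V)) →
    ∃ (Ω Ω' : Type) (_ : Fintype Ω) (_ : Fintype Ω') (_ : MulAction (W × W) Ω)
      (_ : MulAction (W × W) Ω'), Nonempty (YFr Ω Ω' G (Y.χ.comp θ) (AB T.j)
        (LinearMap.id - T.j.toLinearMap ∘ₗ T.pr))

/-! ## From the twisted extension to `TV` -/

/-- OPA: the form of the twisted group algebra.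

Proof.  `t0 a = (a.f 1).coeff 1` is a symmetric form with dual families `vv v * n e`, `ni e * vv v⁻¹` (see
`Helper44_PFD/WGD.lean`).  `u1 = ∑ t(b_s) b'_s`: `t a = t0 (u1 a)`, central (`t` symmetric), a unit (if
`u1 a = 0` then `t (a b) = t0 (u1 a b) = 0`, so `a = 0`; finite dimension).  `u1 * vv v = vv v * u1` gives
`(of (φ e v) - of v) * u1.f e = 0`; for `e ≠ 1` choose `v` with `φ e v ≠ v`: `u1.f e` is not a unit, so its augmentation is
`0` (AUG).  The augmentation of `(u1 * u1').f 1 = ∑_h c(..) u1.f h * act h (u1'.f h⁻¹)` is `ε(u1.f 1) ε(u1'.f 1) = 1`. -/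
def OpaStmt : Prop :=
  ∀ (ℓ : ℕ) [Fact ℓ.Prime] (F V E : Type) [Field F] [CharP F ℓ] [CommGroup V] [Fintype V]
    [Group E] [Fintype E] (φ : E →* MulAut V) (z : Coc F E) (t : CP (D0 φ z) →ₗ[F] F),
    IsPGroup ℓ V → (∀ e, (∀ u, φ e u = u) → e = 1) → (∀ a b, t (a * b) = t (b * a)) →
    (∀ a, (∀ b, t (a * b) = 0) → a = 0) →
    ∃ u1 u1' : CP (D0 φ z), (∀ a, u1 * a = a * u1) ∧ u1 * u1' = 1 ∧
      (∀ a, t a = ((u1 * a).f 1).coeff 1) ∧ IsUnit (u1.f 1)

/-- OPB: the orthogonal projection to `F V` and the relative Frobenius system.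

Proof.  `t = T.mu ∘ T.j` (nondegenerate: `mu (j γ * a) = mu (j (γ * pr a))`).  OPA: `u1`, `u1'`, `u = u1.f 1`.
`pv γ = u⁻¹ (u1 γ).f 1`.  `mu (j (iS (pv γ))) = t0 (u1 iS(pv γ)) = (u * pv γ).coeff 1 = t0 (u1 γ) = mu (j γ)`.
`N = T.N × E`, `x (k,e) = x_k j(n_e iS(u))`, `y (k,e) = j(u1' ni_e) y_k`.
`e1`: with `γ = pr (y_k a)`: `∑_e n_e iS(u) iS(pv(u1' ni_e γ)) = ∑_e n_e iS((ni_e γ).f 1) = γ`.
`e2`: with `γ = pr (a x_k)`: `∑_e iS(pv(γ n_e iS u)) u1' ni_e = ∑_e iS((u1 γ n_e).f 1) ni_e u1' = u1 γ u1' = γ`.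
`unt`: `∑_(k,e) x_k n_e u w u1' ni_e y_k = ∑_k x_k j(u1' ∑_e iS(act e (u w))) y_k`; `u1' ∑_e ..` is central in `CP`, and
`∑_e act e (u w)` has augmentation `|E| ε(u w) ≠ 0`, so it is a unit (AUG); `T.unt`. -/
def OpbStmt : Prop :=
  ∀ (ℓ : ℕ) [Fact ℓ.Prime] (F V E A : Type) [Field F] [CharP F ℓ] [CommGroup V] [Fintype V]
    [Group E] [Fintype E] [Ring A] [Algebra F A] (φ : E →* MulAut V) (NN : Subgroup V → Prop)
    (z : Coc F E) (T : TXN A φ NN z), IsPGroup ℓ V → ¬ ℓ ∣ Nat.card E →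
    (∀ e, (∀ u, φ e u = u) → e = 1) →
    ∃ (pv : CP (D0 φ z) →ₗ[F] MonoidAlgebra F V) (N : Type) (_ : Fintype N) (x y : N → A),
      (∀ s, pv (CP.iS (D0 φ z) s) = s) ∧ (∀ s γ, pv (CP.iS (D0 φ z) s * γ) = s * pv γ) ∧
      (∀ γ s, pv (γ * CP.iS (D0 φ z) s) = pv γ * s) ∧
      (∀ γ, T.mu (T.j (CP.iS (D0 φ z) (pv γ))) = T.mu (T.j γ)) ∧
      (∀ a, ∑ k, x k * T.j (CP.iS (D0 φ z) (pv (T.pr (y k * a)))) = a) ∧
      (∀ a, ∑ k, T.j (CP.iS (D0 φ z) (pv (T.pr (a * x k)))) * y k = a) ∧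
      ∀ w : MonoidAlgebra F V, IsUnit w →
        IsUnit (∑ k, x k * T.j (CP.iS (D0 φ z) w) * y k)

/-- OPC: the `V × V`-frame of the complement of `F V`.

Proof.  `Om' = T.Om ⊕ ({e // e ≠ 1} × V)`, action on the second part `(u, v') • (e, v) = (e, u v φ e v'⁻¹)`,
`b (e, v) = j (γ - iS (pv γ))`, `γ = vv v * n e`; `d (e, v) a = ((T.pr a).f e).coeff v`.  `γ ↦ γ - iS (pv γ)` is a
bimodule map over `F V` which kills `iS`, so `∑_(e≠1,v) d a • b = j (pr a) - j (iS (pv (pr a)))` (`CP.sum_iS_n`).  The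
stabiliser of `(e, v)` is `tw (φ e) ⊤`. -/
def OpcStmt : Prop :=
  ∀ (F V E A : Type) [Field F] [CommGroup V] [Fintype V]
    [Group E] [Fintype E] [Ring A] [Algebra F A] (φ : E →* MulAut V) (NN : Subgroup V → Prop)
    (z : Coc F E) (T : TXN A φ NN z) (pv : CP (D0 φ z) →ₗ[F] MonoidAlgebra F V),
    (∀ s, pv (CP.iS (D0 φ z) s) = s) → (∀ s γ, pv (CP.iS (D0 φ z) s * γ) = s * pv γ) →
    (∀ γ s, pv (γ * CP.iS (D0 φ z) s) = pv γ * s) →
    ∃ (Om : Type) (_ : Fintype Om) (_ : MulAction (V × V) Om) (b : Om → A)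
      (d : Om → (A →ₗ[F] F)),
      (∀ (w : V × V) (ω : Om), b (w • ω) = T.j (vv φ z w.1) * b ω * T.j (vv φ z w.2⁻¹)) ∧
      (∀ (w : V × V) (ω : Om) (a : A),
        d (w • ω) (T.j (vv φ z w.1) * a * T.j (vv φ z w.2⁻¹)) = d ω a) ∧
      (∀ a : A, ∑ ω, d ω a • b ω = a - T.j (CP.iS (D0 φ z) (pv (T.pr a)))) ∧
      ∀ ω : Om, ∃ (e : E) (R : Subgroup V), (¬ NN R ∨ R = ⊤) ∧
        MulAction.stabilizer (V × V) ω = tw (φ e).toMonoidHom R

/-- OPV: the structure `TV` (assembly).

Proof.  OPB, OPC; `j = T.j.comp (CP.iS ..)`, `pr = pv ∘ T.pr`, `sep = T.sepV`, `vv φ z u = CP.iS .. (of u)`. -/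
def OpvStmt : Prop :=
  ∀ (ℓ : ℕ) [Fact ℓ.Prime] (F V E A : Type) [Field F] [CharP F ℓ] [CommGroup V] [Fintype V]
    [Group E] [Fintype E] [Ring A] [Algebra F A] (φ : E →* MulAut V) (NN : Subgroup V → Prop)
    (z : Coc F E) (T : TXN A φ NN z), IsPGroup ℓ V → ¬ ℓ ∣ Nat.card E →
    (∀ e, (∀ u, φ e u = u) → e = 1) →
    ∃ (N K Om : Type) (_ : Fintype N) (_ : Fintype K) (_ : Fintype Om)
      (_ : MulAction (V × V) Om) (S : TV A N K Om φ NN), S.j = T.j.comp (CP.iS (D0 φ z))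

/-- FLT: the input `FLv`.

Proof.  OPV, YFT: all fields but `loc`, `uni`.  `j (of u) = T.j (vv φ z u) = α u`.  `loc`: `a` commutes with `α V`, it is in
`Cz F α ⊤`, a local finite-dimensional algebra (`PMidN.loc`, `fin`): a unit or nilpotent.  `uni`: for `x` in `C` take `e` with
`φ e (i v) = i (θ x v)`, `n = (T.j (CP.n e))⁻¹`: `α(φ e u) n⁻¹ = n⁻¹ α(u)`, so `α(i v) n = n α(i (θ_x v))`, and
`il α i γ * n = n * il α i (θ_x γ)` for `γ ∈ F V1`; `γ = Y.y` and `Y.ye`. -/
def FltStmt : Prop :=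
  ∀ (ℓ : ℕ) [Fact ℓ.Prime] (F V E A V1 C : Type) [Field F] [CharP F ℓ] [CommGroup V]
    [Fintype V] [Group E] [Fintype E] [Ring A] [Algebra F A] [CommGroup V1] [Fintype V1]
    [CommGroup C] (φ : E →* MulAut V) (NN : Subgroup V → Prop) (α : V →* A) (z : Coc F E)
    (T : TXN A φ NN z) (i : V1 →* V) (W : Subgroup V) [Fintype W] (θ : C →* MulAut V1)
    (Y : Y1 F V1 ℓ) (G : GY F (MonoidAlgebra F V) W ℓ), Ctn ℓ φ NN → PMidN F φ NN α →
    (∀ u, T.j (vv φ z u) = α u) → Nat.card V1 = ℓ → Function.Injective i → i.range ⊓ W = ⊥ →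
    i.range ⊔ W = ⊤ → (∀ e, ∀ w ∈ W, φ e w ∈ W) → (∀ c, ∃ e : E, ∀ v, φ e (i v) = i (θ c v)) →
    (∀ e, ∃ c, ∀ v, φ e (i v) = i (θ c v)) →
    (∀ Q : Subgroup V, ¬ NN Q → Q ≤ i.range ∨ Q ≤ W) →
    G.y = il (MonoidAlgebra.of F V) i Y.y → (∀ w : W, G.om w = MonoidAlgebra.of F V (w : V)) →
    ∃ (N K Ω Ω' : Type) (_ : Fintype N) (_ : Fintype K) (_ : Fintype Ω) (_ : Fintype Ω')
      (_ : MulAction (W × W) Ω) (_ : MulAction (W × W) Ω')
      (fl : FLv A N K Ω Ω' G (Y.χ.comp θ)), ∀ u, fl.j (MonoidAlgebra.of F V u) = α u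

/-! ## The graded algebra -/

/-- SGY: a model of `S(A)` is the local algebra at `y`.

Proof.  `y = il α i Y.y`, `χ = Y.χ.comp θ`.  (1) `Nx y χ c` and `Nt F α i (θ c)` have the same elements: if
`v a = a θ_c(v)` for all `v` then `γ a = a θ_c(γ)` for `γ ∈ F V1`, `γ = Y.y`: `y a = χ(c) a y` (`Y.ye`); conversely `of v` is
a polynomial in `Y.y` (`Y.ex`), `y^k a = χ(c)^k a y^k`, `θ_c(of v) = ∑ co k χ(c)^k y^k`.
(2) `Jx y l χ c` and `It F α i (θ c)`: `∑_v v a θ_c(v)⁻¹ = ∑_k y^k a θ_c(z y^(l-1-k)) = Tx y l (χ c) (a θ_c(z))` (CAZ, `θ_c(z)` a unit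
commuting with `y`); `y n = (v - 1) t n` (`Y.y1`; `t n ∈ N_c`), `(v - 1) n = y (t n)` (`Y.v1`).
(3) `c x` = the projection to `q x (N_x)`: `S` is the direct sum of these subspaces (`sur`, `ker`), `p x a = q x a`;
`mul`, `one` of `SG`. -/
def SgyStmt : Prop :=
  ∀ (F V V1 C A S : Type) [Field F] [CommGroup V] [CommGroup V1] [Fintype V1] [CommGroup C]
    [Fintype C] [Ring A] [Algebra F A] [Ring S] [Algebra F S] (α : V →* A) (i : V1 →* V)
    (θ : C →* MulAut V1) (q : C → (A →ₗ[F] S)) (l : ℕ) (Y : Y1 F V1 l), 1 ≤ l →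
    SG F α i θ q →
    ∃ L : LS F A C S (il α i Y.y) l (Y.χ.comp θ),
      ∀ c (a : Nx (il α i Y.y) (Y.χ.comp θ) c), L.p c a = q c (a : A)

/-- SG1: the part of degree `1`.

Proof.  `N_1 → L.toGS.S1`, `a ↦ L.p 1 a`, and `N_1 → S0`, `a ↦ q0 () a`, are surjective algebra homomorphisms (`N_1` =
the centraliser of `V1` = the centraliser of `y`) with the same kernel `J_1 = I_1` (SGY (1), (2) for `c = 1`), so the
two algebras are isomorphic. -/
def Sg1Stmt : Prop :=
  ∀ (F V V1 C A S S0 : Type) [Field F] [CommGroup V] [CommGroup V1] [Fintype V1] [CommGroup C]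
    [Fintype C] [Ring A] [Algebra F A] [Ring S] [Algebra F S] [Ring S0] [Algebra F S0]
    (α : V →* A) (i : V1 →* V) (θ : C →* MulAut V1) (q0 : Unit → (A →ₗ[F] S0)) (l : ℕ)
    (Y : Y1 F V1 l) (L : LS F A C S (il α i Y.y) l (Y.χ.comp θ)), 1 ≤ l →
    SG F α i (1 : Unit →* MulAut V1) q0 →
    Module.finrank F (Subalgebra.center F S0) = Module.finrank F (Subalgebra.center F L.toGS.S1)

/-- RAT: the dimension formula for `PMidN` (assembly).

Proof.  `TxnStmt` (`H79.txn_top`): `z`, `T`.  Y0E, GYE (`Fintype W` classical), FLT: `fl`.  SGY: `L` at `il α i Y.y = fl.j G.y`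
(`fl.j (of u) = α u`, both are algebra homomorphisms on `F V1`).  TPR with `χ = Y.χ.comp θ` (`Y.χl`, `Y.χi`, `θ` injective);
SG1. -/
def RatStmt : Prop :=
  ∀ (ℓ : ℕ) (F V E A V1 C S S0 : Type) [Field F] [IsAlgClosed F] [CharP F ℓ] [CommGroup V]
    [Fintype V] [Group E] [Fintype E] [Ring A] [Algebra F A] [CommGroup V1] [Fintype V1]
    [CommGroup C] [Fintype C] [Ring S] [Algebra F S] [Ring S0] [Algebra F S0]
    (φ : E →* MulAut V) (NN : Subgroup V → Prop) (α : V →* A) (i : V1 →* V) (W : Subgroup V)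
    (θ : C →* MulAut V1) (q : C → (A →ₗ[F] S)) (q0 : Unit → (A →ₗ[F] S0)), Ctn ℓ φ NN →
    PMidN F φ NN α → Nat.card V1 = ℓ → Function.Injective i → i.range ⊓ W = ⊥ →
    i.range ⊔ W = ⊤ → (∀ e, ∀ w ∈ W, φ e w ∈ W) → (∀ c, ∃ e : E, ∀ v, φ e (i v) = i (θ c v)) →
    (∀ e, ∃ c, ∀ v, φ e (i v) = i (θ c v)) → (∀ c, θ c = 1 → c = 1) →
    (∀ Q : Subgroup V, ¬ NN Q → Q ≤ i.range ∨ Q ≤ W) → SG F α i θ q →
    SG F α i (1 : Unit →* MulAut V1) q0 →
    Module.finrank F (Subalgebra.center F A) = Module.finrank F (Subalgebra.center F S) +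
      (ℓ - 1) / Fintype.card C * Module.finrank F (Subalgebra.center F S0)

/-- RIN: the dimension formula for `PInN` (assembly).

Proof.  `S.SznStmt`: `A'`, and models of `S(A')` for `C` and for `Unit` with the same dimensions; RAT for `A'`. -/
def RinStmt : Prop :=
  ∀ (ℓ : ℕ) (F V E A V1 C S S0 : Type) [Field F] [IsAlgClosed F] [CharP F ℓ] [CommGroup V]
    [Fintype V] [Group E] [Fintype E] [Ring A] [Algebra F A] [CommGroup V1] [Fintype V1]
    [CommGroup C] [Fintype C] [IsCyclic C] [Ring S] [Algebra F S] [Ring S0] [Algebra F S0]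
    (φ : E →* MulAut V) (NN : Subgroup V → Prop) (α : V →* A) (i : V1 →* V) (W : Subgroup V)
    (θ : C →* MulAut V1) (q : C → (A →ₗ[F] S)) (q0 : Unit → (A →ₗ[F] S0)), Ctn ℓ φ NN →
    PInN F φ NN α → Nat.card V1 = ℓ → Function.Injective i → i.range ⊓ W = ⊥ →
    i.range ⊔ W = ⊤ → (∀ e, ∀ w ∈ W, φ e w ∈ W) → (∀ c, ∃ e : E, ∀ v, φ e (i v) = i (θ c v)) →
    (∀ e, ∃ c, ∀ v, φ e (i v) = i (θ c v)) → (∀ c, θ c = 1 → c = 1) →
    (∀ Q : Subgroup V, ¬ NN Q → Q ≤ i.range ∨ Q ≤ W) → SG F α i θ q →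
    SG F α i (1 : Unit →* MulAut V1) q0 →
    Module.finrank F (Subalgebra.center F A) = Module.finrank F (Subalgebra.center F S) +
      (ℓ - 1) / Fintype.card C * Module.finrank F (Subalgebra.center F S0)

end Pool.Agent.PFE
end
end -- Pool.Agent.PFE.StmtsE2c

section -- Pool.Agent.Helper13_PFE.OPC

/-! PFE, row OPC: the `V × V`-frame of the complement of `F V`. -/

set_option autoImplicit false

open scoped BigOperators

noncomputable section

namespace Pool.Agent.PFE.H13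

open Pool.Agent.PFE Pool.Agent.PFD Pool.Agent.PFD.D2 Pool.Agent.PFD.D2b
open Pool.Agent.PFC (tw)

section

variable {F V E : Type} [Field F] [CommGroup V] [Fintype V] [Group E] [Fintype E]

/-- the new points -/
def PP (V E : Type) [Group E] : Type := {e : E // e ≠ 1} × V

instance instFintypePP (V E : Type) [Group E] [Fintype V] [Fintype E] : Fintype (PP V E) := by
  classical
  exact inferInstanceAs (Fintype ({e : E // e ≠ 1} × V))

/-- the action -/
def actPP (φ : E →* MulAut V) : MulAction (V × V) (PP V E) where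
  smul w p := (p.1, w.1 * p.2 * (φ p.1 w.2)⁻¹)
  one_smul p := by
    show (p.1, (1 : V) * p.2 * (φ p.1 (1 : V))⁻¹) = p
    rw [map_one, inv_one, mul_one, one_mul]
    rfl
  mul_smul w w' p := by
    show (p.1, (w.1 * w'.1) * p.2 * (φ p.1 (w.2 * w'.2))⁻¹) =
      (p.1, w.1 * (w'.1 * p.2 * (φ p.1 w'.2)⁻¹) * (φ p.1 w.2)⁻¹)
    refine Prod.ext rfl ?_
    show (w.1 * w'.1) * p.2 * (φ p.1 (w.2 * w'.2))⁻¹ =
      w.1 * (w'.1 * p.2 * (φ p.1 w'.2)⁻¹) * (φ p.1 w.2)⁻¹
    rw [map_mul, mul_inv_rev]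
    simp only [mul_assoc]

theorem n_vv (φ : E →* MulAut V) (z : Coc F E) (e : E) (v : V) :
    CP.n (D0 φ z) e * vv φ z v = vv φ z (φ e v) * CP.n (D0 φ z) e := by
  show CP.n (D0 φ z) e * CP.iS (D0 φ z) (MonoidAlgebra.of F V v) =
    CP.iS (D0 φ z) (MonoidAlgebra.of F V (φ e v)) * CP.n (D0 φ z) e
  rw [CP.n_mul_iS]
  have h : (D0 φ z).act e (MonoidAlgebra.of F V v) = MonoidAlgebra.of F V (φ e v) :=
    acV_single F φ e v 1
  rw [h]

theorem vv_mul_f (φ : E →* MulAut V) (z : Coc F E) (u : V) (c : CP (D0 φ z)) (e : E) :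
    (vv φ z u * c).f e = MonoidAlgebra.of F V u * c.f e := by
  show (CP.sn (D0 φ z) (MonoidAlgebra.of F V u) 1 * c).f e = _
  rw [CP.sn_mul_f, inv_one, one_mul, (D0 φ z).one_left, map_one, Units.val_one, one_smul]
  rfl

theorem mul_vv_f (φ : E →* MulAut V) (z : Coc F E) (v : V) (c : CP (D0 φ z)) (e : E) :
    (c * vv φ z v).f e = c.f e * MonoidAlgebra.of F V (φ e v) := by
  have h : (D0 φ z).act e (MonoidAlgebra.of F V v) = MonoidAlgebra.of F V (φ e v) :=
    acV_single F φ e v 1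
  show (c * CP.sn (D0 φ z) (MonoidAlgebra.of F V v) 1).f e = _
  rw [CP.mul_f]
  have h2 : ∀ x ∈ Finset.univ, x ≠ e →
      ((D0 φ z).c x (x⁻¹ * e) : F) • (c.f x * (D0 φ z).act x
        ((CP.sn (D0 φ z) (MonoidAlgebra.of F V v) 1).f (x⁻¹ * e))) = 0 := by
    intro x _ hx
    rw [CP.sn_f, if_neg, map_zero, mul_zero, smul_zero]
    intro h3
    exact hx (inv_mul_eq_one.mp h3)
  rw [Finset.sum_eq_single e h2 (fun hh => absurd (Finset.mem_univ _) hh), inv_mul_cancel,
    (D0 φ z).one_right, CP.sn_f, if_pos rfl, Units.val_one, one_smul, h]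

theorem sum_of' (x : MonoidAlgebra F V) : ∑ v, x.coeff v • MonoidAlgebra.of F V v = x := by
  classical
  apply MonoidAlgebra.coeff_injective
  ext w
  rw [MonoidAlgebra.coeff_sum, Finsupp.finsetSum_apply]
  rw [Finset.sum_eq_single w]
  · rw [MonoidAlgebra.coeff_smul_apply, MonoidAlgebra.of_apply, MonoidAlgebra.coeff_single,
      Finsupp.single_eq_same, smul_eq_mul, mul_one]
  · intro b _ hb
    rw [MonoidAlgebra.coeff_smul_apply, MonoidAlgebra.of_apply, MonoidAlgebra.coeff_single,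
      Finsupp.single_eq_of_ne (Ne.symm hb), smul_zero]
  · intro h
    exact absurd (Finset.mem_univ _) h

end

theorem opc : OpcStmt := by
  classical
  intro F V E A _ _ _ _ _ _ _ φ NN z T pv h1 h2 h3
  let i1 := T.fOm
  let i2 := T.aOm
  let i3 := actPP (V := V) (E := E) φ
  let κ : CP (D0 φ z) →ₗ[F] A :=
    T.j.toLinearMap ∘ₗ (LinearMap.id - (CP.iS (D0 φ z)).toLinearMap ∘ₗ pv)
  have hκ : ∀ γ, κ γ = T.j (γ - CP.iS (D0 φ z) (pv γ)) := fun γ => rfl
  have hκ1 : ∀ s γ, κ (CP.iS (D0 φ z) s * γ) = T.j (CP.iS (D0 φ z) s) * κ γ := by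
    intro s γ
    rw [hκ, hκ, h2, map_mul (CP.iS (D0 φ z)), ← mul_sub, map_mul]
  have hκ2 : ∀ s γ, κ (γ * CP.iS (D0 φ z) s) = κ γ * T.j (CP.iS (D0 φ z) s) := by
    intro s γ
    rw [hκ, hκ, h3, map_mul (CP.iS (D0 φ z)), ← sub_mul, map_mul]
  have hκ0 : ∀ s, κ (CP.iS (D0 φ z) s) = 0 := by
    intro s
    rw [hκ, h1, sub_self, map_zero]
  let b' : PP V E → A := fun p => κ (vv φ z p.2 * CP.n (D0 φ z) p.1)
  let d' : PP V E → (A →ₗ[F] F) := fun p =>
    { toFun := fun a => ((T.pr a).f p.1).coeff p.2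
      map_add' := fun a a' => by
        rw [map_add]
        rfl
      map_smul' := fun r a => by
        rw [map_smul]
        rfl }
  refine ⟨T.Om ⊕ PP V E, inferInstance, inferInstance, Sum.elim T.b b', Sum.elim T.d d',
    ?_, ?_, ?_, ?_⟩
  · rintro w (ω | p)
    · exact T.b_eq w ω
    · show κ (vv φ z (w.1 * p.2 * (φ p.1 w.2)⁻¹) * CP.n (D0 φ z) p.1) =
        T.j (vv φ z w.1) * κ (vv φ z p.2 * CP.n (D0 φ z) p.1) * T.j (vv φ z w.2⁻¹)
      have e1 : vv φ z (w.1 * p.2 * (φ p.1 w.2)⁻¹) * CP.n (D0 φ z) p.1 =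
          vv φ z w.1 * (vv φ z p.2 * CP.n (D0 φ z) p.1) * vv φ z w.2⁻¹ := by
        rw [mul_assoc (vv φ z w.1), mul_assoc (vv φ z p.2), n_vv, map_inv (φ p.1), map_mul,
          map_mul]
        simp only [mul_assoc]
      rw [e1]
      have e2 : κ (vv φ z w.1 * (vv φ z p.2 * CP.n (D0 φ z) p.1) * vv φ z w.2⁻¹) =
          κ (vv φ z w.1 * (vv φ z p.2 * CP.n (D0 φ z) p.1)) * T.j (vv φ z w.2⁻¹) := hκ2 _ _
      have e3 : κ (vv φ z w.1 * (vv φ z p.2 * CP.n (D0 φ z) p.1)) =
          T.j (vv φ z w.1) * κ (vv φ z p.2 * CP.n (D0 φ z) p.1) := hκ1 _ _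
      rw [e2, e3]
  · rintro w (ω | p) a
    · exact T.d_eq w ω a
    · show ((T.pr (T.j (vv φ z w.1) * a * T.j (vv φ z w.2⁻¹))).f p.1).coeff
        (w.1 * p.2 * (φ p.1 w.2)⁻¹) = ((T.pr a).f p.1).coeff p.2
      rw [T.pr_r, T.pr_l, mul_vv_f, vv_mul_f, MonoidAlgebra.of_apply, MonoidAlgebra.of_apply,
        MonoidAlgebra.coeff_mul_single_apply, MonoidAlgebra.coeff_single_mul_apply, mul_one,
        one_mul, map_inv]
      congr 1
      group
  · intro a
    rw [Fintype.sum_sum_type]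
    have e1 : ∑ ω : T.Om, (Sum.elim T.d d' (Sum.inl ω)) a • Sum.elim T.b b' (Sum.inl ω) =
        a - T.j (T.pr a) := T.sum a
    rw [e1]
    have e2 : ∑ p : PP V E, (Sum.elim T.d d' (Sum.inr p)) a • Sum.elim T.b b' (Sum.inr p) =
        κ (T.pr a) := by
      have e3 : ∑ p : PP V E, (Sum.elim T.d d' (Sum.inr p)) a • Sum.elim T.b b' (Sum.inr p) =
          ∑ e : {e : E // e ≠ 1}, ∑ v : V, (((T.pr a).f e).coeff v) •
            κ (vv φ z v * CP.n (D0 φ z) e) := by
        rw [← Fintype.sum_prod_type']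
        rfl
      rw [e3]
      have e4 : ∀ e : E, ∑ v : V, (((T.pr a).f e).coeff v) •
          κ (vv φ z v * CP.n (D0 φ z) e) =
          κ (CP.iS (D0 φ z) ((T.pr a).f e) * CP.n (D0 φ z) e) := by
        intro e
        conv_rhs => rw [← sum_of' ((T.pr a).f e)]
        rw [map_sum, Finset.sum_mul, map_sum]
        refine Finset.sum_congr rfl fun v _ => ?_
        rw [map_smul, smul_mul_assoc, map_smul]
        rfl
      have e5 : ∑ e : {e : E // e ≠ 1}, ∑ v : V, (((T.pr a).f e).coeff v) •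
            κ (vv φ z v * CP.n (D0 φ z) e) =
          ∑ e : {e : E // e ≠ 1}, κ (CP.iS (D0 φ z) ((T.pr a).f e) * CP.n (D0 φ z) e) :=
        Finset.sum_congr rfl fun e _ => e4 e
      rw [e5]
      have e6 := Fintype.sum_eq_add_sum_subtype_ne
        (fun e : E => κ (CP.iS (D0 φ z) ((T.pr a).f e) * CP.n (D0 φ z) e)) (1 : E)
      rw [← map_sum, CP.sum_iS_n, CP.n_one, mul_one, hκ0, zero_add] at e6
      exact e6.symm
    rw [e2, hκ, map_sub]
    abel
  · rintro (ω | p)
    · obtain ⟨e, R, hR, hst⟩ := T.st ω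
      refine ⟨e, R, Or.inl hR, ?_⟩
      rw [← hst]
      ext w
      rw [MulAction.mem_stabilizer_iff, MulAction.mem_stabilizer_iff, Sum.smul_inl,
        Sum.inl_injective.eq_iff]
    · refine ⟨p.1, ⊤, Or.inr rfl, ?_⟩
      ext w
      rw [MulAction.mem_stabilizer_iff, Sum.smul_inr, Sum.inr_injective.eq_iff]
      have e1 : w • p = p ↔ w.1 * p.2 * (φ p.1 w.2)⁻¹ = p.2 := by
        constructor
        · intro h
          exact congrArg Prod.snd h
        · intro h
          exact Prod.ext rfl h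
      rw [e1]
      unfold tw
      rw [Subgroup.mem_map]
      constructor
      · intro h
        refine ⟨w.2, Subgroup.mem_top _, ?_⟩
        refine Prod.ext ?_ rfl
        show φ p.1 w.2 = w.1
        rw [mul_inv_eq_iff_eq_mul, mul_comm] at h
        exact (mul_left_cancel h).symm
      · rintro ⟨v, _, hv⟩
        have e2 : φ p.1 v = w.1 := congrArg Prod.fst hv
        have e3 : v = w.2 := congrArg Prod.snd hv
        rw [← e2, ← e3, mul_comm (φ p.1 v), mul_assoc, mul_inv_cancel, mul_one]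

end Pool.Agent.PFE.H13
end
end -- Pool.Agent.Helper13_PFE.OPC

section -- Pool.Agent.Helper13_PFE.YFT

/-! PFE, row YFT: the frame of the complement of `F V` in `A`. -/

set_option autoImplicit false

open scoped BigOperators

noncomputable section

namespace Pool.Agent.PFE.H13

open Pool.Agent.PFE Pool.Agent.PFD Pool.Agent.PFD.D2 Pool.Agent.PFD.D2b
open Pool.Agent.PFC (tw)

theorem stab_smul {G Om : Type} [CommGroup G] [MulAction G Om] (w : G) (ω : Om) :
    MulAction.stabilizer G (w • ω) = MulAction.stabilizer G ω := by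
  ext g
  rw [MulAction.mem_stabilizer_iff, MulAction.mem_stabilizer_iff, smul_smul, mul_comm,
    ← smul_smul]
  exact (MulAction.injective w).eq_iff

/-- the set of the points whose stabiliser has the property `p` -/
def subS {G Om : Type} [CommGroup G] [MulAction G Om] (p : Subgroup G → Prop) :
    SubMulAction G Om where
  carrier := {ω | p (MulAction.stabilizer G ω)}
  smul_mem' := by
    intro w ω h
    show p (MulAction.stabilizer G (w • ω))
    rw [stab_smul]
    exact h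

theorem stab_sub {G Om : Type} [CommGroup G] [MulAction G Om] (S : SubMulAction G Om)
    (ω : S) : MulAction.stabilizer G ω = MulAction.stabilizer G (ω : Om) := by
  ext g
  rw [MulAction.mem_stabilizer_iff, MulAction.mem_stabilizer_iff]
  constructor
  · intro h
    exact congrArg Subtype.val h
  · intro h
    exact Subtype.ext h

theorem yft (hA : YfaStmt) (hB : YfbStmt) (hS : FrsStmt) : YftStmt := by
  classical
  intro ℓ hℓ F V E V1 C A N K Om _ _ _ _ _ _ _ _ _ _ _ _ _ _ φ NN i W _ Y G θ T hc hi h1 h2 h3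
    h4 h5 h6 h7
  have hl1 : 1 ≤ ℓ := hℓ.out.one_lt.le
  let p : Subgroup (V × V) → Prop := fun S =>
    ∃ (e : E) (R : Subgroup V), i.range ≤ R ∧ S = tw (φ e).toMonoidHom R
  let SA : SubMulAction (V × V) Om := subS p
  let SB : SubMulAction (V × V) Om := subS (fun S => ¬ p S)
  have hstA : ∀ ω : SA, ∃ (e : E) (R : Subgroup V), i.range ≤ R ∧
      MulAction.stabilizer (V × V) ω = tw (φ e).toMonoidHom R := by
    intro ω
    rw [stab_sub]
    exact ω.2
  have hcr : Nat.card i.range = ℓ := by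
    rw [← hc]
    exact (Nat.card_congr (MonoidHom.ofInjective hi).toEquiv).symm
  have hstB : ∀ ω : SB, ∃ (e : E) (R : Subgroup V), R ≤ W ∧
      MulAction.stabilizer (V × V) ω = tw (φ e).toMonoidHom R := by
    intro ω
    obtain ⟨e, R, hR, hst⟩ := T.st (ω : Om)
    have hnot : ¬ i.range ≤ R := fun h => ω.2 ⟨e, R, h, hst⟩
    refine ⟨e, R, ?_, by rw [stab_sub]; exact hst⟩
    rcases hR with hR | hR
    · rcases h5 R hR with h | h
      · have hd : Nat.card R ∣ ℓ := by
          rw [← hcr]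
          exact Subgroup.card_dvd_of_le h
        rcases (Nat.dvd_prime hℓ.out).mp hd with h8 | h8
        · have : R = ⊥ := Subgroup.card_eq_one.mp h8
          rw [this]
          exact bot_le
        · exfalso
          apply hnot
          have h9 : R = i.range := by
            apply Subgroup.eq_of_le_of_card_ge h
            rw [h8, hcr]
          rw [h9]
      · exact h
    · exact absurd (by rw [hR]; exact le_top) hnot
  obtain ⟨Ω1, Ω1', j1, j2, j3, j4, ⟨f1⟩⟩ := hA F V E V1 C A SA φ i W ℓ Y G θ T.j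
    (fun ω => T.b ω) (fun ω => T.d ω) hl1 hi h1 h2 h3 h4 h6 h7 (fun w ω => T.b_eq w ω)
    (fun w ω a => T.d_eq w ω a) hstA
  obtain ⟨Ω2, Ω2', k1, k2, k3, k4, ⟨f2⟩⟩ := hB F V E V1 C A SB φ i W ℓ Y G θ T.j
    (fun ω => T.b ω) (fun ω => T.d ω) hl1 hi h1 h2 h3 h6 h7 (fun w ω => T.b_eq w ω)
    (fun w ω a => T.d_eq w ω a) hstB
  have h := hS F (MonoidAlgebra F V) W A C Ω1 Ω1' Ω2 Ω2' ℓ G (Y.χ.comp θ) (AB T.j) _ _ f1 f2
  have hsum : (∑ ω : SA, (T.d ω).smulRight (T.b ω)) + (∑ ω : SB, (T.d ω).smulRight (T.b ω)) =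
      LinearMap.id - T.j.toLinearMap ∘ₗ T.pr := by
    have e1 : (∑ ω : SA, (T.d ω).smulRight (T.b ω)) + (∑ ω : SB, (T.d ω).smulRight (T.b ω)) =
        ∑ ω : Om, (T.d ω).smulRight (T.b ω) := by
      rw [← Finset.sum_filter_add_sum_filter_not Finset.univ (fun ω : Om => ω ∈ SA)
        (fun ω : Om => (T.d ω).smulRight (T.b ω))]
      refine congrArg₂ (· + ·) ?_ ?_
      · refine (Finset.sum_subtype (p := fun ω : Om => ω ∈ SA)
          (Finset.univ.filter (fun ω : Om => ω ∈ SA)) ?_ (fun ω => (T.d ω).smulRight (T.b ω))).symm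
        intro x
        rw [Finset.mem_filter]
        exact ⟨fun h => h.2, fun h => ⟨Finset.mem_univ _, h⟩⟩
      · refine (Finset.sum_subtype (p := fun ω : Om => ω ∈ SB)
          (Finset.univ.filter (fun ω : Om => ¬ ω ∈ SA)) ?_
          (fun ω => (T.d ω).smulRight (T.b ω))).symm
        intro x
        rw [Finset.mem_filter]
        exact ⟨fun h => h.2, fun h => ⟨Finset.mem_univ _, h⟩⟩
    rw [e1]
    ext a
    rw [LinearMap.sum_apply]
    exact T.sum a
  rw [hsum] at h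
  exact h

end Pool.Agent.PFE.H13
end
end -- Pool.Agent.Helper13_PFE.YFT

section -- Pool.Agent.Helper15_PFE.RAT

/-! # RAT: the dimension formula for `PMidN` -/

set_option autoImplicit false

open scoped BigOperators TensorProduct

noncomputable section

namespace Pool.Agent.PFE.H15

open MulOpposite
open Pool.Agent.PFC (tw)
open Pool.Agent.PFC.B1 (FS Split BiM Sep)
open Pool.Agent.PFD
open Pool.Agent.PFD.D2
open Pool.Agent.PFD.D2b (wrp FPl FrR WFS)
open Pool.Agent.PFE

/-- the image of the eigenvector -/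
theorem il_comp {F V V1 A : Type} [Field F] [CommGroup V] [CommGroup V1] [Ring A] [Algebra F A]
    (α : V →* A) (i : V1 →* V) (j : MonoidAlgebra F V →ₐ[F] A)
    (hj : ∀ u, j (MonoidAlgebra.of F V u) = α u) (x : MonoidAlgebra F V1) :
    j (il (MonoidAlgebra.of F V) i x) = il α i x := by
  have h : j.comp (il (MonoidAlgebra.of F V) i) = il α i := by
    apply MonoidAlgebra.algHom_ext
    · intro v
      change j (il (MonoidAlgebra.of F V) i (MonoidAlgebra.single v 1)) =
        il α i (MonoidAlgebra.single v 1)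
      unfold il
      rw [MonoidAlgebra.lift_single, MonoidAlgebra.lift_single, one_smul, one_smul]
      exact hj (i v)
    · exact AlgHom.ext fun r => by
        have h2 := AlgHom.commutes ((j.comp (il (MonoidAlgebra.of F V) i)).comp
          MonoidAlgebra.singleOneAlgHom) r
        have h3 := AlgHom.commutes ((il α i).comp MonoidAlgebra.singleOneAlgHom) r
        exact h2.trans h3.symm
  exact congrArg (fun f : MonoidAlgebra F V1 →ₐ[F] A => f x) h

theorem rat (hT : TxnStmt) (hY : Y0eStmt) (hG : GyeStmt) (hF : FltStmt) (hS : SgyStmt)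
    (hP : TprStmt) (h1 : Sg1Stmt) : RatStmt := by
  intro ℓ F V E A V1 C S S0 _ _ _ _ _ _ _ _ _ _ _ _ _ _ _ _ _ φ NN α i W θ q q0 hC hM hcard hi
    hiW hiW' hW hce hec hθ hQ hq hq0
  classical
  haveI : Fact ℓ.Prime := ⟨hC.pr⟩
  haveI : FiniteDimensional F A := hM.fin
  haveI : Fintype W := Fintype.ofFinite W
  haveI : FiniteDimensional F (MonoidAlgebra F V) := inferInstance
  obtain ⟨z, T, hT'⟩ := hT F V E A ℓ φ NN α hC hM
  obtain ⟨Y⟩ := hY ℓ F V1 hcard
  have hl : 1 ≤ ℓ := hC.pr.one_le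
  obtain ⟨G, hGy, hGo⟩ := hG F V V1 i W ℓ Y hl hi hiW hiW'
  obtain ⟨N, K, Ω, Ω', _, _, _, _, _, _, fl, hfl⟩ := hF ℓ F V E A V1 C φ NN α z T i W θ Y G hC hM
    hT' hcard hi hiW hiW' hW hce hec hQ hGy hGo
  have e1 : fl.j G.y = il α i Y.y := by
    rw [hGy]
    exact il_comp α i fl.j hfl Y.y
  obtain ⟨L, -⟩ := hS F V V1 C A S α i θ q ℓ Y hl hq
  have key : ∀ (y : A) (_ : y = fl.j G.y) (L : LS F A C S y ℓ (Y.χ.comp θ)),
      Module.finrank F (Subalgebra.center F A) = Module.finrank F (Subalgebra.center F S) +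
        (ℓ - 1) / Fintype.card C * Module.finrank F (Subalgebra.center F L.toGS.S1) := by
    intro y hy L
    subst hy
    exact hP F (MonoidAlgebra F V) W A N K Ω Ω' C S ℓ G (Y.χ.comp θ) fl L
      (fun x => Y.χl (θ x)) (fun x hx => hθ x (Y.χi (θ x) hx))
  rw [key _ e1.symm L, h1 F V V1 C A S S0 α i θ q0 ℓ Y L hl hq0]

end Pool.Agent.PFE.H15
end
end -- Pool.Agent.Helper15_PFE.RAT

section -- Pool.Agent.Helper17_PFE.YFB

/-! Squad PFE, row YFB (helper17): the free part of the frame. -/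

set_option autoImplicit false

open scoped BigOperators

noncomputable section

namespace Pool.Agent.PFE.H17

open MulOpposite
open Pool.Agent.PFE Pool.Agent.PFD.D2
open Pool.Agent.PFC (tw)
open Pool.Agent.PFC.B1 (BiM)
open Pool.Agent.PFD.D2b (wrp)

section cas

variable {F V1 A : Type} [Field F] [CommGroup V1] [Fintype V1] {l : ℕ} {Y : Y1 F V1 l}
  {z : MonoidAlgebra F V1} [Ring A] [Algebra F A]

/-- left bilinear map -/
def bl (J : MonoidAlgebra F V1 →ₐ[F] A) (d : A →ₗ[F] F) (p q : A) :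
    MonoidAlgebra F V1 →ₗ[F] MonoidAlgebra F V1 →ₗ[F] A :=
  LinearMap.mk₂ F (fun a b => d (J b * p) • (J a * q))
    (fun a a' b => by simp only [map_add, add_mul, smul_add])
    (fun r a b => by simp only [map_smul, smul_mul_assoc, smul_comm r])
    (fun a b b' => by simp only [map_add, add_mul, add_smul])
    (fun r a b => by simp only [map_smul, smul_mul_assoc, smul_eq_mul, mul_smul])

/-- right bilinear map -/
def br (J : MonoidAlgebra F V1 →ₐ[F] A) (d : A →ₗ[F] F) (p q : A) :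
    MonoidAlgebra F V1 →ₗ[F] MonoidAlgebra F V1 →ₗ[F] A :=
  LinearMap.mk₂ F (fun a b => d (p * J b) • (q * J a))
    (fun a a' b => by simp only [map_add, mul_add, smul_add])
    (fun r a b => by simp only [map_smul, mul_smul_comm, smul_comm r])
    (fun a b b' => by simp only [map_add, mul_add, add_smul])
    (fun r a b => by simp only [map_smul, mul_smul_comm, smul_eq_mul, mul_smul])

theorem cas2 (hz : ∀ (M : Type) [AddCommGroup M] [Module F M]
        (β : MonoidAlgebra F V1 →ₗ[F] MonoidAlgebra F V1 →ₗ[F] M),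
        ∑ v : V1, β (MonoidAlgebra.of F V1 v) (MonoidAlgebra.of F V1 v⁻¹) =
          ∑ k ∈ Finset.range l, β (Y.y ^ k) (z * Y.y ^ (l - 1 - k)))
    (J : MonoidAlgebra F V1 →ₐ[F] A) (d : A →ₗ[F] F) (b n : A) :
    ∑ v : V1, ∑ v' : V1, d (J (MonoidAlgebra.of F V1 v⁻¹) * n * J (MonoidAlgebra.of F V1 v')) •
        (J (MonoidAlgebra.of F V1 v) * b * J (MonoidAlgebra.of F V1 v'⁻¹)) =
      ∑ k ∈ Finset.range l, ∑ m ∈ Finset.range l,
        d (J (z * Y.y ^ (l - 1 - k)) * n * J (z * Y.y ^ (l - 1 - m))) •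
          (J (Y.y ^ k) * b * J (Y.y ^ m)) := by
  rw [Finset.sum_comm]
  have h1 : ∀ v' : V1, ∑ v : V1,
      d (J (MonoidAlgebra.of F V1 v⁻¹) * n * J (MonoidAlgebra.of F V1 v')) •
        (J (MonoidAlgebra.of F V1 v) * b * J (MonoidAlgebra.of F V1 v'⁻¹)) =
      ∑ k ∈ Finset.range l, d (J (z * Y.y ^ (l - 1 - k)) * n * J (MonoidAlgebra.of F V1 v')) •
        (J (Y.y ^ k) * b * J (MonoidAlgebra.of F V1 v'⁻¹)) := by
    intro v'
    have := hz A (bl J d (n * J (MonoidAlgebra.of F V1 v'))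
      (b * J (MonoidAlgebra.of F V1 v'⁻¹)))
    simp only [bl, LinearMap.mk₂_apply, ← mul_assoc] at this
    exact this
  rw [Finset.sum_congr rfl fun v' _ => h1 v', Finset.sum_comm]
  refine Finset.sum_congr rfl fun k _ => ?_
  have h2 := hz A (br J d (J (z * Y.y ^ (l - 1 - k)) * n) (J (Y.y ^ k) * b))
  simp only [br, LinearMap.mk₂_apply] at h2
  rw [← h2]
  refine Fintype.sum_equiv (Equiv.inv V1) _ _ fun v' => ?_
  rw [Equiv.inv_apply, inv_inv]

end cas

/-- the restricted action -/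
@[reducible] def actT {V Om : Type} [CommGroup V] [MulAction (V × V) Om] (W : Subgroup V) (Θ : Set Om)
    (h : ∀ ω ∈ Θ, ∀ b : V × V, b.1 ∈ W → b.2 ∈ W → b • ω ∈ Θ) :
    MulAction (W × W) {ω : Om // ω ∈ Θ} where
  smul w o := ⟨((w.1 : V), (w.2 : V)) • o.1, h _ o.2 _ w.1.2 w.2.2⟩
  one_smul o := by
    apply Subtype.ext
    show (((1 : W) : V), ((1 : W) : V)) • o.1 = o.1
    exact one_smul (V × V) o.1
  mul_smul a b o := by
    apply Subtype.ext
    show (((a.1 * b.1 : W) : V), ((a.2 * b.2 : W) : V)) • o.1 =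
      ((a.1 : V), (a.2 : V)) • ((b.1 : V), (b.2 : V)) • o.1
    rw [← mul_smul]
    rfl

/-- the trivial action on the empty type -/
@[reducible] def actE (G : Type) [Monoid G] : MulAction G Empty where
  smul _ x := x
  one_smul x := x.elim
  mul_smul _ _ x := x.elim

theorem tw_mem {V : Type} [CommGroup V] (φ : V →* V) (R : Subgroup V) (a : V × V) :
    a ∈ tw φ R ↔ a.2 ∈ R ∧ a.1 = φ a.2 := by
  constructor
  · rintro ⟨u, hu, rfl⟩
    exact ⟨hu, rfl⟩
  · rintro ⟨h1, h2⟩
    exact ⟨a.2, h1, Prod.ext h2.symm rfl⟩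

theorem yfb (horb : OrbStmt) (hcaz : CazStmt) : YfbStmt := by
  intro F V E V1 C A Om _ _ _ _ _ _ _ _ _ _ _ φ i W _ l Y G θ j b d hl hi hPW hPW' hW hGy hGw hb hd
    hst
  classical
  obtain ⟨z, -, -, hz⟩ := hcaz F V1 l Y hl
  -- the stabiliser in `(P × P)(W × W)`
  have hstab : ∀ (ω : Om) (a b : V × V), a.1 ∈ i.range → a.2 ∈ i.range → b.1 ∈ W → b.2 ∈ W →
      (a * b) • ω = ω → a = 1 := by
    intro ω a b ha1 ha2 hb1 hb2 hab
    obtain ⟨e, R, hR, hs⟩ := hst ω
    have h1 : a * b ∈ MulAction.stabilizer (V × V) ω := hab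
    rw [hs, tw_mem] at h1
    obtain ⟨h2, h3⟩ := h1
    have h4 : a.2 ∈ W := by
      have h5 : a.2 * b.2 ∈ W := hR h2
      exact (Subgroup.mul_mem_cancel_right W hb2).1 h5
    have h6 : a.2 = 1 := by
      have : a.2 ∈ i.range ⊓ W := ⟨ha2, h4⟩
      rwa [hPW, Subgroup.mem_bot] at this
    have h7 : a.1 ∈ W := by
      have h8 : a.1 * b.1 ∈ W := by
        have : (a * b).1 ∈ W := by
          rw [h3]
          exact hW e _ (hR h2)
        exact this
      exact (Subgroup.mul_mem_cancel_right W hb1).1 h8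
    have h9 : a.1 = 1 := by
      have : a.1 ∈ i.range ⊓ W := ⟨ha1, h7⟩
      rwa [hPW, Subgroup.mem_bot] at this
    exact Prod.ext h9 h6
  obtain ⟨Θ, o1, o2, o3⟩ := horb V Om i.range W hPW' (by
    intro ω a b ha1 ha2 hb1 hb2 hab
    rw [hstab ω a b ha1 ha2 hb1 hb2 hab, one_smul])
  letI : MulAction (W × W) {ω : Om // ω ∈ Θ} := actT W Θ o1
  letI : MulAction (W × W) Empty := actE _
  -- the map
  let J : MonoidAlgebra F V1 →ₐ[F] A := j.comp (il (MonoidAlgebra.of F V) i)
  have hil : ∀ v, il (MonoidAlgebra.of F V) i (MonoidAlgebra.of F V1 v) =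
      MonoidAlgebra.of F V (i v) := by
    intro v
    unfold il
    rw [MonoidAlgebra.lift_of]
    rfl
  have hJ : ∀ v, J (MonoidAlgebra.of F V1 v) = j (MonoidAlgebra.of F V (i v)) := by
    intro v
    show j (il (MonoidAlgebra.of F V) i (MonoidAlgebra.of F V1 v)) = _
    rw [hil]
  have hJy : ∀ k, j (G.y ^ k) = J (Y.y ^ k) := by
    intro k
    rw [hGy, map_pow, map_pow]
    rfl
  let m : (V1 × V1) × {ω : Om // ω ∈ Θ} → Om := fun p => (i p.1.1, i p.1.2) • p.2.1
  have hm : Function.Bijective m := by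
    constructor
    · rintro ⟨⟨v, v'⟩, o⟩ ⟨⟨u, u'⟩, o'⟩ h
      have h1 : (i v, i v') • o.1 = (i u, i u') • o'.1 := h
      have h2 : ((i (u⁻¹ * v), i (u'⁻¹ * v')) : V × V) • o.1 = o'.1 := by
        have : ((i (u⁻¹ * v), i (u'⁻¹ * v')) : V × V) = (i u, i u')⁻¹ * (i v, i v') := by
          rw [Prod.inv_mk, Prod.mk_mul_mk, map_mul, map_mul, map_inv, map_inv]
        rw [this, mul_smul, h1, inv_smul_smul]
      have h3 := o3 o.1 o.2 (i (u⁻¹ * v), i (u'⁻¹ * v')) ⟨_, rfl⟩ ⟨_, rfl⟩ (by rw [h2]; exact o'.2)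
      have h4 := hstab o.1 (i (u⁻¹ * v), i (u'⁻¹ * v')) 1 ⟨_, rfl⟩ ⟨_, rfl⟩ W.one_mem W.one_mem
        (by rw [mul_one, h3])
      rw [h2] at h3
      have h5 : i (u⁻¹ * v) = 1 := congrArg Prod.fst h4
      have h6 : i (u'⁻¹ * v') = 1 := congrArg Prod.snd h4
      have h7 : v = u := by
        have := hi (h5.trans (map_one i).symm)
        rwa [inv_mul_eq_one, eq_comm] at this
      have h8 : v' = u' := by
        have := hi (h6.trans (map_one i).symm)
        rwa [inv_mul_eq_one, eq_comm] at this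
      rw [h7, h8, Subtype.ext h3.symm]
    · intro ω
      obtain ⟨a, ⟨v, hv⟩, ⟨v', hv'⟩, ha⟩ := o2 ω
      refine ⟨((v⁻¹, v'⁻¹), ⟨a • ω, ha⟩), ?_⟩
      show ((i v⁻¹, i v'⁻¹) : V × V) • a • ω = ω
      have : ((i v⁻¹, i v'⁻¹) : V × V) = a⁻¹ := by
        rw [map_inv, map_inv, hv, hv']
        rfl
      rw [this, inv_smul_smul]
  -- the main identity
  have hmain : ∀ n : A, ∑ ω, d ω n • b ω = ∑ o : {ω : Om // ω ∈ Θ},
      ∑ k ∈ Finset.range l, ∑ r ∈ Finset.range l,
        d o.1 (J (z * Y.y ^ (l - 1 - k)) * n * J (z * Y.y ^ (l - 1 - r))) •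
          (J (Y.y ^ k) * b o.1 * J (Y.y ^ r)) := by
    intro n
    rw [← hm.sum_comp (fun ω => d ω n • b ω), Fintype.sum_prod_type_right]
    refine Finset.sum_congr rfl fun o _ => ?_
    rw [← cas2 hz J (d o.1) (b o.1) n, Fintype.sum_prod_type]
    refine Finset.sum_congr rfl fun v _ => Finset.sum_congr rfl fun v' _ => ?_
    have h1 : b (m ((v, v'), o)) = J (MonoidAlgebra.of F V1 v) * b o.1 *
        J (MonoidAlgebra.of F V1 v'⁻¹) := by
      rw [hJ, hJ, map_inv]
      exact hb (i v, i v') o.1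
    have h2 : d (m ((v, v'), o)) n = d o.1 (J (MonoidAlgebra.of F V1 v⁻¹) * n *
        J (MonoidAlgebra.of F V1 v')) := by
      rw [← hd (i v, i v') o.1]
      congr 1
      rw [← map_inv i, ← hJ, ← hJ]
      have e1 : J (MonoidAlgebra.of F V1 v) * J (MonoidAlgebra.of F V1 v⁻¹) = 1 := by
        rw [← map_mul, ← map_mul, mul_inv_cancel, map_one, map_one]
      have e2 : J (MonoidAlgebra.of F V1 v') * J (MonoidAlgebra.of F V1 v'⁻¹) = 1 := by
        rw [← map_mul, ← map_mul, mul_inv_cancel, map_one, map_one]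
      calc n = (J (MonoidAlgebra.of F V1 v) * J (MonoidAlgebra.of F V1 v⁻¹)) * n *
            (J (MonoidAlgebra.of F V1 v') * J (MonoidAlgebra.of F V1 v'⁻¹)) := by
              rw [e1, e2, one_mul, mul_one]
        _ = _ := by simp only [mul_assoc]
    rw [h1, h2]
  refine ⟨Empty, {ω : Om // ω ∈ Θ}, inferInstance, inferInstance, actE _, actT W Θ o1, ⟨?_⟩⟩
  let zV : MonoidAlgebra F V := il (MonoidAlgebra.of F V) i z
  exact
    { deg := fun o => o.elim
      dg := fun _ o => o.elim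
      fo := fun _ o => o.elim
      fo' := by
        intro w o h
        have h1 : (((1 : W) : V), (w : V)) • o.1 = o.1 := congrArg Subtype.val h
        obtain ⟨e, R, hR, hs⟩ := hst o.1
        have h2 : (((1 : W) : V), (w : V)) ∈ MulAction.stabilizer (V × V) o.1 := h1
        rw [hs, tw_mem] at h2
        have h3 : (1 : V) = φ e (w : V) := h2.2
        have h4 : (w : V) = 1 := by
          apply (φ e).injective
          rw [← h3, map_one]
        exact Subtype.ext h4
      g := fun o => o.elim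
      gw := fun _ o => o.elim
      gy := fun o => o.elim
      c := fun o => o.elim
      cw := fun _ o => o.elim
      cy := fun o => o.elim
      h := fun o => b o.1
      hw := by
        intro w o
        show b (((w.1 : V), (w.2 : V)) • o.1) = j (G.om w.1) * (b o.1 * j (G.om w.2⁻¹))
        rw [hb, hGw, hGw, mul_assoc]
        rfl
      d := fun o => (d o.1).comp ((LinearMap.mulLeft F (j zV)).comp (LinearMap.mulRight F (j zV)))
      dw := by
        intro w o n
        show d (((w.1 : V), (w.2 : V)) • o.1) (j zV * (j (G.om w.1) * (n * j (G.om w.2⁻¹)) * j zV)) =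
          d o.1 (j zV * (n * j zV))
        rw [← hd ((w.1 : V), (w.2 : V)) o.1 (j zV * (n * j zV))]
        congr 1
        rw [hGw, hGw]
        have e1 : j zV * j (MonoidAlgebra.of F V (w.1 : V)) =
            j (MonoidAlgebra.of F V (w.1 : V)) * j zV := by
          rw [← map_mul, mul_comm, map_mul]
        have e2 : j (MonoidAlgebra.of F V ((w.2⁻¹ : W) : V)) * j zV =
            j zV * j (MonoidAlgebra.of F V ((w.2⁻¹ : W) : V)) := by
          rw [← map_mul, mul_comm, map_mul]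
        calc j zV * (j (MonoidAlgebra.of F V (w.1 : V)) *
              (n * j (MonoidAlgebra.of F V ((w.2⁻¹ : W) : V))) * j zV)
            = (j zV * j (MonoidAlgebra.of F V (w.1 : V))) * (n *
              (j (MonoidAlgebra.of F V ((w.2⁻¹ : W) : V)) * j zV)) := by simp only [mul_assoc]
          _ = _ := by
            rw [e1, e2]
            simp only [mul_assoc]
            rfl
      fr := by
        intro n
        have h0 : (∑ ω, (d ω).smulRight (b ω)) n = ∑ ω, d ω n • b ω := by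
          rw [LinearMap.sum_apply]
          rfl
        rw [h0, hmain n]
        rw [Finset.univ_eq_empty (α := Empty), Finset.sum_empty, zero_add]
        refine Finset.sum_congr rfl fun o _ => Finset.sum_congr rfl fun k _ =>
          Finset.sum_congr rfl fun r _ => ?_
        show d o.1 (j zV * (j (G.y ^ (l - 1 - k)) * (n * j (G.y ^ (l - 1 - r))) * j zV)) •
          (j (G.y ^ k) * (b o.1 * j (G.y ^ r))) = _
        rw [hJy, hJy, hJy, hJy]
        have hzV : j zV = J z := rfl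
        rw [hzV]
        congr 1
        · congr 1
          rw [map_mul J z, mul_comm z (Y.y ^ (l - 1 - r)), map_mul J _ z]
          simp only [mul_assoc]
        · rw [mul_assoc] }

end Pool.Agent.PFE.H17
end
end -- Pool.Agent.Helper17_PFE.YFB

section -- Pool.Agent.Helper27_PFE.GYE

/-!
# Row GYE of tank PFE: `F V = F[y]/y^l ⊗ F W`
-/

set_option autoImplicit false

open scoped BigOperators

noncomputable section

namespace Pool.Agent.PFE.H27

open Pool.Agent.PFE

section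

variable {F V V1 : Type} [Field F] [CommGroup V] [Fintype V] [CommGroup V1] [Fintype V1]

/-- the linear map `g ↦ ∑ J (g w) * om w` -/
def gyeP (J : MonoidAlgebra F V1 →ₐ[F] MonoidAlgebra F V) (W : Subgroup V) [Fintype W] :
    (W → MonoidAlgebra F V1) →ₗ[F] MonoidAlgebra F V :=
  ∑ w : W, (LinearMap.mulRight F (MonoidAlgebra.of F V (w : V))) ∘ₗ J.toLinearMap ∘ₗ
    LinearMap.proj w

theorem gyeP_apply (J : MonoidAlgebra F V1 →ₐ[F] MonoidAlgebra F V) (W : Subgroup V) [Fintype W]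
    (g : W → MonoidAlgebra F V1) :
    gyeP J W g = ∑ w : W, J (g w) * MonoidAlgebra.of F V (w : V) := by
  unfold gyeP
  rw [LinearMap.sum_apply]
  rfl

theorem gye_bij (i : V1 →* V) (W : Subgroup V) [Fintype W] (hi : Function.Injective i)
    (hbot : i.range ⊓ W = ⊥) (htop : i.range ⊔ W = ⊤) :
    Function.Bijective (fun p : V1 × W => i p.1 * (p.2 : V)) := by
  constructor
  · rintro ⟨a, w⟩ ⟨b, u⟩ h
    have h1 : i a * (w : V) = i b * (u : V) := h
    have h2 : i (b⁻¹ * a) = (u : V) * (w : V)⁻¹ := by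
      rw [map_mul, map_inv, inv_mul_eq_iff_eq_mul, ← mul_assoc, eq_mul_inv_iff_mul_eq]
      exact h1
    have h3 : i (b⁻¹ * a) ∈ i.range ⊓ W := by
      refine ⟨⟨_, rfl⟩, ?_⟩
      rw [h2]
      exact W.mul_mem u.2 (W.inv_mem w.2)
    rw [hbot, Subgroup.mem_bot] at h3
    have h4 : b⁻¹ * a = 1 := hi (by rw [h3, map_one])
    have h5 : a = b := (inv_mul_eq_one.mp h4).symm
    subst h5
    have h6 : (w : V) = (u : V) := mul_left_cancel h1
    rw [Subtype.ext h6]
  · intro v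
    have h : v ∈ i.range ⊔ W := by
      rw [htop]
      exact Subgroup.mem_top v
    rw [Subgroup.mem_sup] at h
    obtain ⟨y, ⟨a, ha⟩, z, hz, hyz⟩ := h
    refine ⟨(a, ⟨z, hz⟩), ?_⟩
    change i a * z = v
    rw [ha, hyz]

end

theorem gye : GyeStmt := by
  intro F V V1 _ _ _ _ _ i W _ l Y hl hi hbot htop
  classical
  let J : MonoidAlgebra F V1 →ₐ[F] MonoidAlgebra F V := il (MonoidAlgebra.of F V) i
  have hJ : ∀ v, J (MonoidAlgebra.of F V1 v) = MonoidAlgebra.of F V (i v) := by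
    intro v
    change (MonoidAlgebra.lift F (MonoidAlgebra F V) V1 ((MonoidAlgebra.of F V).comp i))
      (MonoidAlgebra.of F V1 v) = _
    rw [MonoidAlgebra.lift_of]
    rfl
  have hbij := gye_bij i W hi hbot htop
  have hcard : Fintype.card V1 * Fintype.card W = Fintype.card V := by
    rw [← Fintype.card_prod]
    exact Fintype.card_congr (Equiv.ofBijective _ hbij)
  have hfin : Module.finrank F (W → MonoidAlgebra F V1) = Module.finrank F (MonoidAlgebra F V) := by
    rw [Module.finrank_eq_card_basis (MonoidAlgebra.basis V F),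
      Module.finrank_pi_fintype]
    simp only [Module.finrank_eq_card_basis (MonoidAlgebra.basis V1 F)]
    rw [Finset.sum_const, Finset.card_univ, smul_eq_mul, mul_comm, hcard]
  have hsurj : Function.Surjective (gyeP J W) := by
    rw [← LinearMap.range_eq_top, ← top_le_iff, ← (MonoidAlgebra.basis V F).span_eq,
      Submodule.span_le]
    rintro _ ⟨v, rfl⟩
    obtain ⟨⟨a, w⟩, h⟩ := hbij.2 v
    refine ⟨Pi.single w (MonoidAlgebra.of F V1 a), ?_⟩
    rw [gyeP_apply, Finset.sum_eq_single w]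
    · rw [Pi.single_eq_same, hJ, ← map_mul]
      have h1 : i a * (w : V) = v := h
      rw [h1]
      rw [MonoidAlgebra.basis_apply]
      rfl
    · intro u _ hu
      rw [Pi.single_eq_of_ne hu, map_zero, zero_mul]
    · intro h
      exact absurd (Finset.mem_univ w) h
  have : Module.Finite F (MonoidAlgebra F V) := Module.Finite.of_basis (MonoidAlgebra.basis V F)
  have : Module.Finite F (MonoidAlgebra F V1) := Module.Finite.of_basis (MonoidAlgebra.basis V1 F)
  have hinj : Function.Injective (gyeP J W) :=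
    (LinearMap.injective_iff_surjective_of_finrank_eq_finrank hfin).mpr hsurj
  let e : (W → MonoidAlgebra F V1) ≃ₗ[F] MonoidAlgebra F V :=
    LinearEquiv.ofBijective (gyeP J W) ⟨hinj, hsurj⟩
  have he : ∀ g, e g = ∑ w : W, J (g w) * MonoidAlgebra.of F V (w : V) := fun g => gyeP_apply J W g
  have key : ∀ a : ℕ → W → F,
      e (fun w => ∑ k ∈ Finset.range l, a k w • Y.y ^ k) =
        ∑ k ∈ Finset.range l, ∑ w : W, a k w • (J Y.y ^ k * MonoidAlgebra.of F V (w : V)) := by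
    intro a
    rw [he, Finset.sum_comm]
    refine Finset.sum_congr rfl fun w _ => ?_
    rw [map_sum, Finset.sum_mul]
    refine Finset.sum_congr rfl fun k _ => ?_
    rw [map_smul, map_pow, smul_mul_assoc]
  refine ⟨{ om := (MonoidAlgebra.of F V).comp W.subtype
            y := J Y.y
            yl := ?_
            co := fun k w => Y.co k ∘ₗ LinearMap.proj w ∘ₗ e.symm.toLinearMap
            ex := ?_
            un := ?_ }, rfl, fun w => rfl⟩
  · rw [← map_pow, Y.yl, map_zero]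
  · intro γ
    have h1 := key (fun k w => Y.co k (e.symm γ w))
    have h2 : (fun w : W => ∑ k ∈ Finset.range l, Y.co k (e.symm γ w) • Y.y ^ k) = e.symm γ := by
      funext w
      exact Y.ex _
    rw [h2, e.apply_symm_apply] at h1
    exact h1.symm
  · intro a k w hk
    have h1 := key a
    have h2 : e.symm (∑ k ∈ Finset.range l, ∑ w : W,
        a k w • (J Y.y ^ k * MonoidAlgebra.of F V (w : V))) =
        fun w => ∑ k ∈ Finset.range l, a k w • Y.y ^ k := by
      rw [← h1, e.symm_apply_apply]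
    change Y.co k (e.symm (∑ k ∈ Finset.range l, ∑ w : W,
        a k w • (J Y.y ^ k * MonoidAlgebra.of F V (w : V))) w) = a k w
    rw [h2]
    exact Y.un (fun k => a k w) k hk

end Pool.Agent.PFE.H27
end
end -- Pool.Agent.Helper27_PFE.GYE

section -- Pool.Agent.Helper2_PFE.ORB

/-!
# Squad PFE, row ORB

A section of the orbits of `P × P`, `P` a factor of `V`.
-/

noncomputable section

namespace Pool.Agent.PFE.H2

open Pool.Agent.PFE

theorem orb : OrbStmt := by
  intro V Om _ _ P W hPW h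
  have hdec : ∀ v : V, ∃ p ∈ P, ∃ w ∈ W, v = p * w := by
    intro v
    have hv : v ∈ P ⊔ W := by
      rw [hPW]
      exact Subgroup.mem_top v
    obtain ⟨p, hp, w, hw, hpw⟩ := Subgroup.mem_sup.1 hv
    exact ⟨p, hp, w, hw, hpw.symm⟩
  -- representatives of the orbits
  let rep : Om → Om := fun ω => (Quotient.mk (MulAction.orbitRel (V × V) Om) ω).out
  have hrep : ∀ ω, ∃ g : V × V, ω = g • rep ω := by
    intro ω
    have h1 : (MulAction.orbitRel (V × V) Om) (rep ω) ω := Quotient.exact (Quotient.out_eq _)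
    obtain ⟨g, hg⟩ := (MulAction.orbitRel (V × V) Om).symm h1
    exact ⟨g, hg.symm⟩
  have hrep' : ∀ (ω : Om) (g : V × V), rep (g • ω) = rep ω := by
    intro ω g
    have h1 : (Quotient.mk (MulAction.orbitRel (V × V) Om) (g • ω)) =
        Quotient.mk (MulAction.orbitRel (V × V) Om) ω := Quotient.sound ⟨g, rfl⟩
    show (Quotient.mk (MulAction.orbitRel (V × V) Om) (g • ω)).out = _
    rw [h1]
  have hrr : ∀ ω, rep (rep ω) = rep ω := by
    intro ω
    obtain ⟨g, hg⟩ := hrep ω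
    have h1 := hrep' (rep ω) g
    rw [← hg] at h1
    exact h1.symm
  refine ⟨{x | ∃ b : V × V, b.1 ∈ W ∧ b.2 ∈ W ∧ ∃ ω, x = b • rep ω}, ?_, ?_, ?_⟩
  · rintro _ ⟨c, hc1, hc2, ω, rfl⟩ b hb1 hb2
    exact ⟨b * c, W.mul_mem hb1 hc1, W.mul_mem hb2 hc2, ω, (mul_smul _ _ _).symm⟩
  · intro ω
    obtain ⟨g, hg⟩ := hrep ω
    obtain ⟨p1, hp1, w1, hw1, e1⟩ := hdec g.1
    obtain ⟨p2, hp2, w2, hw2, e2⟩ := hdec g.2
    have hgg : g = (p1, p2) * (w1, w2) := Prod.ext e1 e2
    refine ⟨(p1, p2)⁻¹, P.inv_mem hp1, P.inv_mem hp2, (w1, w2), hw1, hw2, ω, ?_⟩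
    have h1 : (p1, p2)⁻¹ • ω = (p1, p2)⁻¹ • (g • rep ω) := by
      rw [← hg]
    rw [h1, hgg, mul_smul, inv_smul_smul]
  · rintro _ ⟨b, hb1, hb2, ω, rfl⟩ a ha1 ha2 ⟨c, hc1, hc2, ω', hc⟩
    have h1 : rep ω = rep ω' := by
      have h2 : rep (a • b • rep ω) = rep (c • rep ω') := by rw [hc]
      rw [hrep', hrep', hrep', hrr, hrr] at h2
      exact h2
    rw [← h1] at hc
    have h2 : (a * (b * c⁻¹)) • rep ω = rep ω := by
      have h3 : a * (b * c⁻¹) = c⁻¹ * (a * b) := by
        rw [← mul_assoc, mul_comm]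
      rw [h3, mul_smul, mul_smul, hc, inv_smul_smul]
    have h3 : a • rep ω = rep ω := h (rep ω) a (b * c⁻¹) ha1 ha2
      (W.mul_mem hb1 (W.inv_mem hc1)) (W.mul_mem hb2 (W.inv_mem hc2)) h2
    rw [← mul_smul, mul_comm, mul_smul, h3]

end Pool.Agent.PFE.H2
end
end -- Pool.Agent.Helper2_PFE.ORB

section -- Pool.Agent.Helper44_PFD.WGD

/-!
# Squad PFD, row WGD: the twisted group algebra as a `WFS`
-/

set_option autoImplicit false
set_option linter.unusedSectionVars false

open scoped BigOperators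

noncomputable section

namespace Pool.Agent.PFD.D2b.H44

open Pool.Agent.PFD Pool.Agent.PFD.D2b

section

variable {F V E : Type} [Field F] [CommGroup V] [Group E] [Fintype E]
  (φ : E →* MulAut V) (z : Coc F E)

theorem acV_coeff (e : E) (x : MonoidAlgebra F V) (v : V) :
    (acV F φ e x).coeff v = x.coeff ((φ e).symm v) :=
  MonoidAlgebra.coeff_domCongr (φ e) x v

theorem acV_one (e : E) (x : MonoidAlgebra F V) : (acV F φ e x).coeff 1 = x.coeff 1 := by
  rw [acV_coeff, map_one]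

theorem acV_inv (e : E) (x : MonoidAlgebra F V) : acV F φ e (acV F φ e⁻¹ x) = x := by
  rw [← AlgEquiv.mul_apply, ← map_mul, mul_inv_cancel, map_one]
  rfl

/-- the form -/
def lamW : CP (D0 φ z) →ₗ[F] F where
  toFun := fun a => (a.f 1).coeff 1
  map_add' := fun _ _ => rfl
  map_smul' := fun _ _ => rfl

theorem lamW_apply (a : CP (D0 φ z)) : lamW φ z a = (a.f 1).coeff 1 := rfl

theorem coeff_sum' {I : Type} (s : Finset I) (g : I → MonoidAlgebra F V) (v : V) :
    (∑ i ∈ s, g i).coeff v = ∑ i ∈ s, (g i).coeff v := by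
  rw [MonoidAlgebra.coeff_sum, Finsupp.finsetSum_apply]

theorem lamW_mul (a b : CP (D0 φ z)) : lamW φ z (a * b) =
    ∑ h, (z.c h h⁻¹ : F) * (a.f h * acV F φ h (b.f h⁻¹)).coeff 1 := by
  rw [lamW_apply, CP.mul_f, coeff_sum']
  apply Finset.sum_congr rfl
  intro h _
  rw [mul_one]
  rfl

theorem lamW_sym (a b : CP (D0 φ z)) : lamW φ z (a * b) = lamW φ z (b * a) := by
  rw [lamW_mul, lamW_mul, ← Equiv.sum_comp (Equiv.inv E)
    (fun h => (z.c h h⁻¹ : F) * (b.f h * acV F φ h (a.f h⁻¹)).coeff 1)]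
  apply Finset.sum_congr rfl
  intro h _
  have h1 : z.c h⁻¹ h = z.c h h⁻¹ := (CP.c_inv_symm (D := D0 φ z) h).symm
  rw [Equiv.inv_apply, inv_inv, h1, ← acV_one φ h (b.f h⁻¹ * acV F φ h⁻¹ (a.f h)), map_mul,
    acV_inv, mul_comm (a.f h)]

theorem of_act (e : E) (v : V) : (D0 φ z).act e (MonoidAlgebra.of F V v) =
    MonoidAlgebra.of F V (φ e v) := acV_single F φ e v 1

theorem n_vv (e : E) (v : V) : CP.n (D0 φ z) e * vv φ z v = vv φ z (φ e v) * CP.n (D0 φ z) e := by
  show CP.n (D0 φ z) e * CP.iS (D0 φ z) (MonoidAlgebra.of F V v) =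
    CP.iS (D0 φ z) (MonoidAlgebra.of F V (φ e v)) * CP.n (D0 φ z) e
  rw [CP.n_mul_iS, of_act]

theorem n_vv_sn (e : E) (v : V) : CP.n (D0 φ z) e * vv φ z v =
    CP.sn (D0 φ z) (MonoidAlgebra.of F V (φ e v)) e := by
  rw [n_vv, ← CP.iS_mul_n]
  rfl

/-- coordinates -/
theorem lamW_coord (h : E) (v : V) (x : CP (D0 φ z)) :
    lamW φ z (vv φ z v⁻¹ * D6.ni (D0 φ z) h * x) = (x.f h).coeff (φ h v) := by
  have h1 : vv φ z v⁻¹ * D6.ni (D0 φ z) h = ((((D0 φ z).c h h⁻¹)⁻¹ : Fˣ) : F) •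
      CP.sn (D0 φ z) (MonoidAlgebra.of F V v⁻¹) h⁻¹ := by
    rw [D6.ni, mul_smul_comm, ← CP.iS_mul_n]
    rfl
  have h2 : (φ h⁻¹).symm v = φ h v := by
    rw [map_inv]
    rfl
  rw [h1, smul_mul_assoc, map_smul, lamW_apply, CP.sn_mul_f, mul_one, inv_inv,
    MonoidAlgebra.coeff_smul_apply, MonoidAlgebra.of_apply, MonoidAlgebra.coeff_single_mul_apply,
    inv_inv, mul_one, one_mul]
  have h3 : ((D0 φ z).act h⁻¹ (x.f h)).coeff v = (x.f h).coeff (φ h v) := by
    rw [← h2]
    exact acV_coeff φ h⁻¹ (x.f h) v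
  rw [h3, ← CP.c_inv_symm, smul_eq_mul, smul_eq_mul, ← mul_assoc, Units.inv_mul, one_mul]

/-- the basis -/
def bV (s : E × V) : CP (D0 φ z) := CP.n (D0 φ z) s.1 * vv φ z s.2

/-- the dual basis -/
def bV' (s : E × V) : CP (D0 φ z) := vv φ z s.2⁻¹ * D6.ni (D0 φ z) s.1

open Classical in
theorem bV_dual (s t : E × V) : lamW φ z (bV' φ z s * bV φ z t) = if s = t then 1 else 0 := by
  rw [bV, bV', lamW_coord, n_vv_sn, CP.sn_f]
  by_cases h : s.1 = t.1
  · rw [if_pos h, MonoidAlgebra.of_apply, MonoidAlgebra.coeff_single, h]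
    by_cases h2 : s.2 = t.2
    · rw [h2, Finsupp.single_eq_same, if_pos (Prod.ext h h2)]
    · rw [if_neg fun h3 => h2 (congrArg Prod.snd h3), Finsupp.single_apply, if_neg]
      intro h3
      exact h2 ((φ t.1).injective h3).symm
  · rw [if_neg h, if_neg fun h3 => h (congrArg Prod.fst h3)]
    rfl

variable [Fintype V]

theorem sum_of (x : MonoidAlgebra F V) : ∑ v, x.coeff v • MonoidAlgebra.of F V v = x := by
  classical
  apply MonoidAlgebra.coeff_injective
  apply Finsupp.ext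
  intro u
  rw [coeff_sum', Finset.sum_eq_single u]
  · rw [MonoidAlgebra.coeff_smul_apply, MonoidAlgebra.of_apply, MonoidAlgebra.coeff_single,
      Finsupp.single_eq_same, smul_eq_mul, mul_one]
  · intro v _ hv
    rw [MonoidAlgebra.coeff_smul_apply, MonoidAlgebra.of_apply, MonoidAlgebra.coeff_single,
      Finsupp.single_apply, if_neg hv, smul_zero]
  · intro h
    exact absurd (Finset.mem_univ u) h

theorem bV_sum (x : CP (D0 φ z)) : ∑ s, lamW φ z (bV' φ z s * x) • bV φ z s = x := by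
  rw [Fintype.sum_prod_type]
  conv_rhs => rw [← CP.sum_sn x]
  apply Finset.sum_congr rfl
  intro h _
  have h1 : ∀ v : V, lamW φ z (bV' φ z (h, v) * x) • bV φ z (h, v) =
      (x.f h).coeff (φ h v) • CP.sn (D0 φ z) (MonoidAlgebra.of F V (φ h v)) h := by
    intro v
    rw [bV', bV, lamW_coord, n_vv_sn]
  rw [Finset.sum_congr rfl fun v _ => h1 v]
  refine (Equiv.sum_comp (φ h).toEquiv
    (fun v => (x.f h).coeff v • CP.sn (D0 φ z) (MonoidAlgebra.of F V v) h)).trans ?_
  have h2 : CP.sn (D0 φ z) (x.f h) h = ∑ v, (x.f h).coeff v •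
      CP.sn (D0 φ z) (MonoidAlgebra.of F V v) h := by
    let L : MonoidAlgebra F V →ₗ[F] CP (D0 φ z) :=
      { toFun := fun s => CP.sn (D0 φ z) s h
        map_add' := fun s t => CP.sn_add s t h
        map_smul' := fun r s => CP.sn_smul r s h }
    have h3 : L (x.f h) = ∑ v, (x.f h).coeff v • L (MonoidAlgebra.of F V v) := by
      conv_lhs => rw [← sum_of (x.f h)]
      rw [map_sum]
      apply Finset.sum_congr rfl
      intro v _
      rw [map_smul]
    exact h3
  exact h2.symm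

theorem bV_sum' (x : CP (D0 φ z)) : ∑ s, lamW φ z (x * bV φ z s) • bV' φ z s = x := by
  classical
  obtain ⟨y, hy⟩ : ∃ y, y = ∑ s, lamW φ z (x * bV φ z s) • bV' φ z s := ⟨_, rfl⟩
  rw [← hy, ← sub_eq_zero]
  have h1 : ∀ t, lamW φ z ((y - x) * bV φ z t) = 0 := by
    intro t
    rw [sub_mul, map_sub, sub_eq_zero, hy, Finset.sum_mul, map_sum, Finset.sum_eq_single t]
    · rw [smul_mul_assoc, map_smul, bV_dual, if_pos rfl, smul_eq_mul, mul_one]
    · intro s _ hs
      rw [smul_mul_assoc, map_smul, bV_dual, if_neg hs, smul_zero]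
    · intro h
      exact absurd (Finset.mem_univ t) h
  have h2 : ∀ q, lamW φ z ((y - x) * q) = 0 := by
    intro q
    rw [← bV_sum φ z q, Finset.mul_sum, map_sum]
    apply Finset.sum_eq_zero
    intro s _
    rw [mul_smul_comm, map_smul, h1, smul_zero]
  rw [← bV_sum φ z (y - x)]
  apply Finset.sum_eq_zero
  intro s _
  rw [lamW_sym, h2, zero_smul]

/-- sums over `V` by a transversal -/
theorem tvsum {M : Type} [AddCommMonoid M] (W : Subgroup V) [Fintype W] (T : Finset V)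
    (hT : Pool.Agent.PFC.IsTv W ⊤ T) (G : V → M) : ∑ t : T, ∑ w : W, G (t * w) = ∑ v, G v := by
  rw [← Fintype.sum_prod_type']
  apply Fintype.sum_bijective (fun p : T × W => (p.1 : V) * (p.2 : V))
  · constructor
    · rintro ⟨t, w⟩ ⟨t', w'⟩ h
      have h0 : (t : V) * (w : V) = (t' : V) * (w' : V) := h
      obtain ⟨s, -, hs⟩ := hT.2 ((t : V) * (w : V)) trivial
      have h1 : (t : V) = s := hs t ⟨t.2, by rw [inv_mul_cancel_left]; exact w.2⟩
      have h2 : (t' : V) = s := hs t' ⟨t'.2, by rw [h0, inv_mul_cancel_left]; exact w'.2⟩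
      have h3 : t = t' := Subtype.ext (h1.trans h2.symm)
      subst h3
      have h4 : w = w' := Subtype.ext (mul_left_cancel h0)
      rw [h4]
    · intro v
      obtain ⟨s, ⟨hs, hs'⟩, -⟩ := hT.2 v trivial
      exact ⟨(⟨s, hs⟩, ⟨_, hs'⟩), mul_inv_cancel_left s v⟩
  · intro p
    rfl

end

theorem wgd : WgdStmt := by
  intro F V E _ _ _ _ _ φ W _ z hW T hT
  classical
  have hb : ∀ (i : E × T) (w : W), CP.n (D0 φ z) i.1 * vv φ z (i.2 : V) * vv φ z (w : V) =
      bV φ z (i.1, (i.2 : V) * (w : V)) := by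
    intro i w
    rw [bV, map_mul, mul_assoc]
  have hb' : ∀ (i : E × T) (w : W), vv φ z ((w⁻¹ : W) : V) *
      (vv φ z (i.2 : V)⁻¹ * D6.ni (D0 φ z) i.1) = bV' φ z (i.1, (i.2 : V) * (w : V)) := by
    intro i w
    rw [bV', ← mul_assoc, ← map_mul, InvMemClass.coe_inv, mul_inv_rev]
  have hinj : ∀ (i j : E × T) (u w : W), (i.1, (i.2 : V) * (u : V)) = (j.1, (j.2 : V) * (w : V)) →
      i = j ∧ u = w := by
    intro i j u w h
    obtain ⟨h0, h1⟩ := Prod.ext_iff.1 h
    have h1' : (i.2 : V) * (u : V) = (j.2 : V) * (w : V) := h1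
    obtain ⟨s, -, hs⟩ := hT.2 ((i.2 : V) * (u : V)) trivial
    have h2 : (i.2 : V) = s := hs i.2 ⟨i.2.2, by rw [inv_mul_cancel_left]; exact u.2⟩
    have h3 : (j.2 : V) = s := hs j.2 ⟨j.2.2, by rw [h1', inv_mul_cancel_left]; exact w.2⟩
    have h4 : i.2 = j.2 := Subtype.ext (h2.trans h3.symm)
    refine ⟨Prod.ext h0 h4, ?_⟩
    rw [h4] at h1'
    exact Subtype.ext (mul_left_cancel h1')
  have hmem : ∀ (e : E) (w : W), φ e⁻¹ (w : V) ∈ W := fun e w => hW _ _ w.2
  let ph : E × T → W →* W := fun i =>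
    { toFun := fun w => ⟨φ i.1⁻¹ (w : V), hmem i.1 w⟩
      map_one' := Subtype.ext (map_one (φ i.1⁻¹))
      map_mul' := fun u w => Subtype.ext (map_mul (φ i.1⁻¹) _ _) }
  refine ⟨{ lam := lamW φ z
            sym := lamW_sym φ z
            om := (vv φ z).comp W.subtype
            cf := fun i => CP.n (D0 φ z) i.1 * vv φ z (i.2 : V)
            cf' := fun i => vv φ z (i.2 : V)⁻¹ * D6.ni (D0 φ z) i.1
            h1 := ?_
            h2 := ?_
            d1 := ?_
            d0 := ?_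
            ph := ph
            phb := ?_
            nrm := ?_ }, fun w => rfl, fun i => rfl, fun i => rfl⟩
  · intro x
    show ∑ i : E × T, ∑ w : W, lamW φ z (vv φ z ((w⁻¹ : W) : V) *
      (vv φ z (i.2 : V)⁻¹ * D6.ni (D0 φ z) i.1) * x) •
      (CP.n (D0 φ z) i.1 * vv φ z (i.2 : V) * vv φ z (w : V)) = x
    simp only [hb, hb']
    rw [Fintype.sum_prod_type]
    conv_rhs => rw [← bV_sum φ z x, Fintype.sum_prod_type]
    apply Finset.sum_congr rfl
    intro e _
    exact tvsum W T hT (fun v => lamW φ z (bV' φ z (e, v) * x) • bV φ z (e, v))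
  · intro x
    show ∑ i : E × T, ∑ w : W, lamW φ z (x *
      (CP.n (D0 φ z) i.1 * vv φ z (i.2 : V) * vv φ z (w : V))) • (vv φ z ((w⁻¹ : W) : V) *
      (vv φ z (i.2 : V)⁻¹ * D6.ni (D0 φ z) i.1)) = x
    simp only [hb, hb']
    rw [Fintype.sum_prod_type]
    conv_rhs => rw [← bV_sum' φ z x, Fintype.sum_prod_type]
    apply Finset.sum_congr rfl
    intro e _
    exact tvsum W T hT (fun v => lamW φ z (x * bV φ z (e, v)) • bV' φ z (e, v))
  · intro i w
    show lamW φ z (vv φ z ((w⁻¹ : W) : V) * (vv φ z (i.2 : V)⁻¹ * D6.ni (D0 φ z) i.1) *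
      (CP.n (D0 φ z) i.1 * vv φ z (i.2 : V) * vv φ z (w : V))) = 1
    rw [hb, hb', bV_dual, if_pos rfl]
  · intro i j u w h
    show lamW φ z (vv φ z ((u⁻¹ : W) : V) * (vv φ z (i.2 : V)⁻¹ * D6.ni (D0 φ z) i.1) *
      (CP.n (D0 φ z) j.1 * vv φ z (j.2 : V) * vv φ z (w : V))) = 0
    rw [hb, hb', bV_dual, if_neg]
    intro h1
    obtain ⟨h2, h3⟩ := hinj i j u w h1
    rcases h with h | h
    · exact h h2
    · exact h h3
  · intro i
    rw [← Finite.injective_iff_bijective]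
    intro u w h
    have h1 : φ i.1⁻¹ (u : V) = φ i.1⁻¹ (w : V) := congrArg Subtype.val h
    exact Subtype.ext ((φ i.1⁻¹).injective h1)
  · intro i w
    show vv φ z (w : V) * (CP.n (D0 φ z) i.1 * vv φ z (i.2 : V)) =
      CP.n (D0 φ z) i.1 * vv φ z (i.2 : V) * vv φ z (φ i.1⁻¹ (w : V))
    have h1 : φ i.1 (φ i.1⁻¹ (w : V)) = w := by
      rw [← MulAut.mul_apply, ← map_mul, mul_inv_cancel, map_one]
      rfl
    have h2 := n_vv φ z i.1 (φ i.1⁻¹ (w : V))
    rw [h1] at h2
    rw [← mul_assoc, ← h2, mul_assoc, mul_assoc, ← map_mul, ← map_mul, mul_comm (i.2 : V)]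

end Pool.Agent.PFD.D2b.H44
end
end -- Pool.Agent.Helper44_PFD.WGD

section -- Pool.Agent.Helper32_PFE.OPA

/-!
# Squad PFE, row OPA (helper32): the symmetric forms of a twisted group algebra
-/

set_option autoImplicit false
set_option linter.unusedSectionVars false

open scoped BigOperators

noncomputable section

namespace Pool.Agent.PFE.H32

open Pool.Agent.PFD Pool.Agent.PFD.D2b Pool.Agent.PFD.D2b.H44

section eps

variable {F V E : Type} [Field F] [CommGroup V] [Fintype V] [Group E]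

/-- the augmentation -/
def eps (F V : Type) [Field F] [CommGroup V] : MonoidAlgebra F V →ₐ[F] F :=
  MonoidAlgebra.lift F F V (1 : V →* F)

theorem eps_of (v : V) : eps F V (MonoidAlgebra.of F V v) = 1 := by
  unfold eps
  rw [MonoidAlgebra.lift_of, MonoidHom.one_apply]

theorem eps_eq (x : MonoidAlgebra F V) : eps F V x = ∑ v, x.coeff v := by
  conv_lhs => rw [← sum_of x]
  rw [map_sum]
  refine Finset.sum_congr rfl fun v _ => ?_
  rw [map_smul, eps_of, smul_eq_mul, mul_one]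

theorem eps_act (φ : E →* MulAut V) (e : E) (x : MonoidAlgebra F V) :
    eps F V (acV F φ e x) = eps F V x := by
  rw [eps_eq, eps_eq]
  refine (Finset.sum_congr rfl fun v _ => MonoidAlgebra.coeff_domCongr (φ e) x v).trans ?_
  exact Equiv.sum_comp (φ e).symm.toEquiv fun v => x.coeff v

end eps

/-- OPA -/
theorem opa (aug : AugStmt) : OpaStmt := by
  intro ℓ _ F V E _ _ _ _ _ _ φ z t hV hfaith hsym hnd
  classical
  obtain ⟨u1, hu1⟩ : ∃ u1, u1 = ∑ s, t (bV φ z s) • bV' φ z s := ⟨_, rfl⟩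
  have h1 : ∀ a, t a = lamW φ z (u1 * a) := by
    intro a
    conv_lhs => rw [← bV_sum φ z a]
    rw [map_sum, hu1, Finset.sum_mul, map_sum]
    refine Finset.sum_congr rfl fun s _ => ?_
    rw [map_smul, smul_mul_assoc, map_smul, smul_eq_mul, smul_eq_mul, mul_comm]
  have hnd0 : ∀ x, (∀ y, lamW φ z (x * y) = 0) → x = 0 := by
    intro x hx
    rw [← bV_sum φ z x]
    refine Finset.sum_eq_zero fun s _ => ?_
    rw [lamW_sym, hx, zero_smul]
  have hcen : ∀ a, u1 * a = a * u1 := by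
    intro a
    rw [← sub_eq_zero]
    refine hnd0 _ fun y => ?_
    rw [sub_mul, map_sub, sub_eq_zero, mul_assoc, ← h1, mul_assoc, lamW_sym φ z a, mul_assoc,
      ← h1, hsym]
  -- the unit
  have i1 : Module.Finite F (CP (D0 φ z)) :=
    Module.Finite.of_surjective (Fintype.linearCombination F (bV φ z)) fun x =>
      ⟨fun s => lamW φ z (bV' φ z s * x), bV_sum φ z x⟩
  have hinj : Function.Injective (LinearMap.mulLeft F u1) := by
    rw [← LinearMap.ker_eq_bot, LinearMap.ker_eq_bot']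
    intro a ha
    rw [LinearMap.mulLeft_apply] at ha
    refine hnd a fun b => ?_
    rw [h1, ← mul_assoc, ha, zero_mul, map_zero]
  obtain ⟨u1', hu1'⟩ := LinearMap.injective_iff_surjective.1 hinj 1
  rw [LinearMap.mulLeft_apply] at hu1'
  refine ⟨u1, u1', hcen, hu1', fun a => h1 a, ?_⟩
  -- the components
  have h2 : ∀ (e : E) (v : V), (MonoidAlgebra.of F V (φ e v) - MonoidAlgebra.of F V v) *
      u1.f e = 0 := by
    intro e v
    have h3 := congrArg (fun x : CP (D0 φ z) => x.f e) (hcen (CP.iS (D0 φ z)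
      (MonoidAlgebra.of F V v)))
    change (u1 * CP.iS (D0 φ z) (MonoidAlgebra.of F V v)).f e =
      (CP.iS (D0 φ z) (MonoidAlgebra.of F V v) * u1).f e at h3
    have h4 : (CP.iS (D0 φ z) (MonoidAlgebra.of F V v) * u1).f e =
        MonoidAlgebra.of F V v * u1.f e := by
      rw [CP.iS_apply, CP.sn_mul_f, (D0 φ z).one_left, map_one, inv_one, one_mul, Units.val_one,
        one_smul]
      rfl
    have h5 : (u1 * CP.iS (D0 φ z) (MonoidAlgebra.of F V v)).f e =
        u1.f e * MonoidAlgebra.of F V (φ e v) := by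
      rw [CP.mul_f, Finset.sum_eq_single e]
      · rw [inv_mul_cancel, (D0 φ z).one_right, Units.val_one, one_smul, CP.iS_apply, CP.sn_f,
          if_pos rfl, of_act]
      · intro h _ hh
        rw [CP.iS_apply, CP.sn_f, if_neg, map_zero, mul_zero, smul_zero]
        intro h6
        exact hh (inv_mul_eq_one.1 h6)
      · intro h
        exact absurd (Finset.mem_univ _) h
    rw [h4, h5] at h3
    rw [sub_mul, mul_comm _ (u1.f e), h3, sub_self]
  have h6 : ∀ e : E, e ≠ 1 → eps F V (u1.f e) = 0 := by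
    intro e he
    by_contra hne
    rw [eps_eq] at hne
    have hun := (aug ℓ F V hV (u1.f e)).2 hne
    apply he
    apply hfaith
    intro v
    have h7 := (hun.mul_left_eq_zero).1 (h2 e v)
    rw [sub_eq_zero] at h7
    exact MonoidAlgebra.of_injective h7
  have h8 : eps F V (u1.f 1) * eps F V (u1'.f 1) = 1 := by
    have h9 := congrArg (fun x : CP (D0 φ z) => eps F V (x.f 1)) hu1'
    change eps F V ((u1 * u1').f 1) = eps F V ((1 : CP (D0 φ z)).f 1) at h9
    rw [CP.mul_f, map_sum, Finset.sum_eq_single 1] at h9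
    · rw [map_smul, map_mul, inv_one, one_mul, (D0 φ z).one_left, map_one, Units.val_one,
        one_smul, CP.one_def, CP.sn_f, if_pos rfl, map_one] at h9
      exact h9
    · intro h _ hh
      rw [map_smul, map_mul, h6 h hh, zero_mul, smul_zero]
    · intro h
      exact absurd (Finset.mem_univ _) h
  refine (aug ℓ F V hV (u1.f 1)).2 ?_
  rw [← eps_eq]
  intro h10
  rw [h10, zero_mul] at h8
  exact zero_ne_one h8

end Pool.Agent.PFE.H32
end
end -- Pool.Agent.Helper32_PFE.OPA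

section -- Pool.Agent.Helper39_PFE.Y0E

/-!
# Row Y0E of squad PFE: the eigenvector (helper39)
-/

open scoped BigOperators

noncomputable section

namespace Pool.Agent.PFE.H39Y

open Pool.Agent.PFE

variable {ℓ : ℕ} [hp : Fact ℓ.Prime] {F V1 : Type} [Field F] [CharP F ℓ] [CommGroup V1]
  [Fintype V1]

/-- the augmentation -/
def eps (F V1 : Type) [Field F] [CommGroup V1] : MonoidAlgebra F V1 →ₐ[F] F :=
  MonoidAlgebra.lift F F V1 1

theorem eps_of (v : V1) : eps F V1 (MonoidAlgebra.of F V1 v) = 1 := by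
  rw [eps, MonoidAlgebra.lift_of]; rfl

theorem pow_l (hV : ∀ v : V1, v ^ ℓ = 1) (a : MonoidAlgebra F V1) :
    a ^ ℓ = algebraMap F _ (eps F V1 a ^ ℓ) := by
  haveI : CharP (MonoidAlgebra F V1) ℓ := charP_of_injective_algebraMap
    (algebraMap F (MonoidAlgebra F V1)).injective ℓ
  induction a using MonoidAlgebra.induction_on with
  | of m =>
    rw [eps_of, one_pow, map_one, ← map_pow, hV, map_one]
  | add x y hx hy =>
    rw [add_pow_char, hx, hy, map_add, add_pow_char, map_add]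
  | smul r x hx =>
    rw [smul_pow, hx, map_smul, smul_eq_mul, mul_pow, map_mul, Algebra.smul_def]

theorem span_aux (x : MonoidAlgebra F V1)
    (hx : ∀ v : V1, ∃ t, MonoidAlgebra.of F V1 v - 1 = x * t) (n : ℕ) (a : MonoidAlgebra F V1) :
    ∃ (c : ℕ → F) (b : MonoidAlgebra F V1),
      a = ∑ k ∈ Finset.range n, c k • x ^ k + x ^ n * b := by
  have h1 : ∀ a : MonoidAlgebra F V1, ∃ (c : F) (b : MonoidAlgebra F V1), a = c • 1 + x * b := by
    intro a
    induction a using MonoidAlgebra.induction_on with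
    | of m =>
      obtain ⟨t, ht⟩ := hx m
      exact ⟨1, t, by rw [one_smul, ← ht]; ring⟩
    | add u v hu hv =>
      obtain ⟨c, b, h⟩ := hu
      obtain ⟨c', b', h'⟩ := hv
      exact ⟨c + c', b + b', by rw [h, h', add_smul, mul_add]; ring⟩
    | smul r u hu =>
      obtain ⟨c, b, h⟩ := hu
      exact ⟨r * c, r • b, by rw [h, smul_add, smul_smul, mul_smul_comm]⟩
  induction n with
  | zero => exact ⟨fun _ => 0, a, by simp⟩
  | succ n ih =>
    obtain ⟨c, b, h⟩ := ih
    obtain ⟨c', b', h'⟩ := h1 b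
    refine ⟨fun k => if k = n then c' else c k, b', ?_⟩
    have h2 : ∑ k ∈ Finset.range n, (fun k => if k = n then c' else c k) k • x ^ k =
        ∑ k ∈ Finset.range n, c k • x ^ k := by
      apply Finset.sum_congr rfl
      intro k hk
      show (if k = n then c' else c k) • x ^ k = _
      rw [if_neg (Finset.mem_range.1 hk).ne]
    have h3 : (fun k => if k = n then c' else c k) n = c' := if_pos rfl
    rw [h, Finset.sum_range_succ, h', h2, h3, mul_add, pow_succ, mul_smul_comm, mul_one]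
    ring

theorem y0e : Y0eStmt := by
  intro ℓ hp F V1 _ _ _ _ hcard
  classical
  have hpr : ℓ.Prime := hp.out
  have hl1 : 1 < ℓ := hpr.one_lt
  haveI : NeZero ℓ := ⟨hpr.ne_zero⟩
  have hfc : Fintype.card V1 = ℓ := by rw [← Nat.card_eq_fintype_card, hcard]
  have hV : ∀ v : V1, v ^ ℓ = 1 := fun v => by rw [← hcard]; exact pow_card_eq_one'
  have e0 : Multiplicative (ZMod ℓ) ≃* V1 := mulEquivOfPrimeCardEq (p := ℓ)
    (by rw [Nat.card_eq_fintype_card, Fintype.card_multiplicative, ZMod.card]) hcard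
  set v : ZMod ℓ → V1 := fun a => e0 (Multiplicative.ofAdd a) with hv
  have v_add : ∀ a b, v (a + b) = v a * v b := fun a b => by
    rw [hv]; show e0 (Multiplicative.ofAdd (a + b)) = _
    rw [ofAdd_add, map_mul]
  have v_zero : v 0 = 1 := by
    rw [hv]; show e0 (Multiplicative.ofAdd 0) = _
    rw [ofAdd_zero, map_one]
  have v_inj : Function.Injective v := fun a b h => by
    have := e0.injective h
    exact Multiplicative.ofAdd.injective this
  have v_surj : ∀ g : V1, ∃ a, v a = g := fun g =>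
    ⟨Multiplicative.toAdd (e0.symm g), by
      rw [hv]; show e0 (Multiplicative.ofAdd (Multiplicative.toAdd (e0.symm g))) = g
      rw [ofAdd_toAdd, MulEquiv.apply_symm_apply]⟩
  have v_nat : ∀ (n : ℕ) (a : ZMod ℓ), v (n * a) = v a ^ n := by
    intro n a
    induction n with
    | zero => rw [Nat.cast_zero, zero_mul, v_zero, pow_zero]
    | succ n ih => rw [Nat.cast_succ, add_mul, one_mul, v_add, ih, pow_succ]
  have v_val : ∀ a : ZMod ℓ, v a = v 1 ^ a.val := by
    intro a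
    rw [← v_nat, mul_one, ZMod.natCast_val, ZMod.cast_id]
  -- the eigenvector
  set ca : ZMod ℓ →+* F := ZMod.castHom (dvd_refl ℓ) F with hca
  have ca_ne : ∀ a : ZMod ℓ, a ≠ 0 → ca a ≠ 0 := fun a ha => by
    rw [Ne, map_eq_zero]; exact ha
  set y : MonoidAlgebra F V1 := ∑ a : ZMod ℓ, (ca a)⁻¹ • (MonoidAlgebra.of F V1 (v a) - 1) with hy
  set g : MonoidAlgebra F V1 := MonoidAlgebra.of F V1 (v 1) with hg
  set x : MonoidAlgebra F V1 := g - 1 with hx
  set t : MonoidAlgebra F V1 := ∑ a : ZMod ℓ, (ca a)⁻¹ • (∑ i ∈ Finset.range a.val, g ^ i) with ht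
  have h_of : ∀ a : ZMod ℓ, MonoidAlgebra.of F V1 (v a) - 1 =
      x * ∑ i ∈ Finset.range a.val, g ^ i := by
    intro a
    rw [hx, mul_geom_sum, hg, ← map_pow, ← v_val]
  have hyx : y = x * t := by
    rw [hy, ht, Finset.mul_sum]
    apply Finset.sum_congr rfl
    intro a _
    rw [h_of, mul_smul_comm]
  have eps_t : eps F V1 t = -1 := by
    rw [ht, map_sum]
    have h1 : ∀ a : ZMod ℓ, eps F V1 ((ca a)⁻¹ • (∑ i ∈ Finset.range a.val, g ^ i)) =
        if a = 0 then 0 else 1 := by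
      intro a
      rw [map_smul, map_sum]
      have h2 : ∀ i ∈ Finset.range a.val, eps F V1 (g ^ i) = 1 := by
        intro i _
        rw [map_pow, hg, eps_of, one_pow]
      rw [Finset.sum_congr rfl h2, Finset.sum_const, Finset.card_range, nsmul_eq_mul, mul_one,
        smul_eq_mul]
      by_cases ha : a = 0
      · rw [if_pos ha, ha, ZMod.val_zero, Nat.cast_zero, mul_zero]
      · rw [if_neg ha]
        have h3 : ((a.val : ℕ) : F) = ca a := by
          rw [← map_natCast ca a.val, ZMod.natCast_val, ZMod.cast_id]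
        rw [h3, inv_mul_cancel₀ (ca_ne a ha)]
    rw [Finset.sum_congr rfl (fun a _ => h1 a), ← Finset.sum_filter_add_sum_filter_not
      Finset.univ (fun a : ZMod ℓ => a = 0)]
    rw [Finset.sum_congr rfl (g := fun _ => (0 : F)) (by
      intro a ha; rw [if_pos (Finset.mem_filter.1 ha).2]), Finset.sum_const_zero, zero_add,
      Finset.sum_congr rfl (g := fun _ => (1 : F)) (by
      intro a ha; rw [if_neg (Finset.mem_filter.1 ha).2]), Finset.sum_const, nsmul_eq_mul, mul_one]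
    have h4 : (Finset.univ.filter (fun a : ZMod ℓ => ¬ a = 0)).card = ℓ - 1 := by
      have : Finset.univ.filter (fun a : ZMod ℓ => ¬ a = 0) = Finset.univ.erase 0 := by
        ext a; simp
      rw [this, Finset.card_erase_of_mem (Finset.mem_univ _), Finset.card_univ, ZMod.card]
    rw [h4, Nat.cast_sub hl1.le, CharP.cast_eq_zero, Nat.cast_one, zero_sub]
  have tu : IsUnit t := by
    have h1 : t ^ ℓ = algebraMap F _ ((-1) ^ ℓ) := by rw [pow_l hV, eps_t]
    have h2 : IsUnit (t ^ ℓ) := by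
      rw [h1]
      exact (IsUnit.pow _ isUnit_one.neg).map _
    exact (isUnit_pow_iff hpr.ne_zero).1 h2
  obtain ⟨t', ht'⟩ := tu.exists_right_inv
  have hxy : x = y * t' := by rw [hyx, mul_assoc, ht', mul_one]
  have hv1 : ∀ w : V1, ∃ s, MonoidAlgebra.of F V1 w - 1 = y * s := by
    intro w
    obtain ⟨a, rfl⟩ := v_surj w
    exact ⟨t' * ∑ i ∈ Finset.range a.val, g ^ i, by rw [h_of, hxy, mul_assoc]⟩
  have yl : y ^ ℓ = 0 := by
    rw [pow_l hV]
    have : eps F V1 y = 0 := by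
      rw [hyx, map_mul, hx, map_sub, hg, eps_of, map_one, sub_self, zero_mul]
    rw [this, zero_pow hpr.ne_zero, map_zero]
  -- the basis
  have hspan : (⊤ : Submodule F (MonoidAlgebra F V1)) ≤
      Submodule.span F (Set.range (fun k : Fin ℓ => y ^ (k : ℕ))) := by
    intro a _
    obtain ⟨c, b, h⟩ := span_aux y hv1 ℓ a
    rw [h, yl, zero_mul, add_zero, Finset.sum_range]
    apply Submodule.sum_mem
    intro k _
    exact Submodule.smul_mem _ _ (Submodule.subset_span ⟨k, rfl⟩)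
  have hfr : Fintype.card (Fin ℓ) = Module.finrank F (MonoidAlgebra F V1) := by
    rw [Module.finrank_eq_card_basis (MonoidAlgebra.basis V1 F), Fintype.card_fin, hfc]
  set B := basisOfTopLeSpanOfCardEqFinrank _ hspan hfr with hB
  have B_ap : ∀ k : Fin ℓ, B k = y ^ (k : ℕ) := fun k => by
    rw [hB, coe_basisOfTopLeSpanOfCardEqFinrank]
  -- the character
  set kk : MulAut V1 → ZMod ℓ := fun σ => Multiplicative.toAdd (e0.symm (σ (v 1))) with hkk
  have kk_spec : ∀ σ : MulAut V1, v (kk σ) = σ (v 1) := by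
    intro σ
    rw [hv, hkk]
    show e0 (Multiplicative.ofAdd (Multiplicative.toAdd (e0.symm (σ (v 1))))) = _
    rw [ofAdd_toAdd, MulEquiv.apply_symm_apply]
  have kk_v : ∀ (σ : MulAut V1) (a : ZMod ℓ), σ (v a) = v (kk σ * a) := by
    intro σ a
    have h1 : a = (a.val : ZMod ℓ) := by rw [ZMod.natCast_val, ZMod.cast_id]
    conv_rhs => rw [h1, mul_comm, v_nat, kk_spec, ← map_pow, ← v_val]
  have kk_one : kk 1 = 1 := by
    apply v_inj
    rw [kk_spec]; rfl
  have kk_mul : ∀ σ τ, kk (σ * τ) = kk σ * kk τ := by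
    intro σ τ
    apply v_inj
    rw [kk_spec, ← kk_v, kk_spec]; rfl
  have kk_ne : ∀ σ, kk σ ≠ 0 := by
    intro σ h
    have h1 : kk (σ * σ⁻¹) = 1 := by rw [mul_inv_cancel, kk_one]
    rw [kk_mul, h, zero_mul] at h1
    exact zero_ne_one h1
  refine ⟨{ y := y
            χ := { toFun := fun σ => ca (kk σ)
                   map_one' := by rw [kk_one, map_one]
                   map_mul' := fun σ τ => by rw [kk_mul, map_mul] }
            χl := ?_
            χi := ?_
            yl := yl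
            ye := ?_
            co := fun k => if h : k < ℓ then B.coord ⟨k, h⟩ else 0
            ex := ?_
            un := ?_
            v1 := hv1
            y1 := ⟨v 1, t, hyx⟩ }⟩
  · intro σ
    show ca (kk σ) ^ (ℓ - 1) = 1
    rw [← map_pow, ZMod.pow_card_sub_one_eq_one (kk_ne σ), map_one]
  · intro σ hσ
    have h1 : ca (kk σ) = ca 1 := by rw [map_one]; exact hσ
    have h2 : kk σ = 1 := ca.injective h1
    ext w
    obtain ⟨a, rfl⟩ := v_surj w
    rw [kk_v, h2, one_mul]; rfl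
  · intro σ
    show MonoidAlgebra.domCongr F F σ y = ca (kk σ) • y
    rw [hy, map_sum, Finset.smul_sum]
    have h1 : ∀ a : ZMod ℓ, MonoidAlgebra.domCongr F F σ
        ((ca a)⁻¹ • (MonoidAlgebra.of F V1 (v a) - 1)) =
        (fun b : ZMod ℓ => ca (kk σ) • ((ca b)⁻¹ • (MonoidAlgebra.of F V1 (v b) - 1)))
          (Equiv.mulLeft₀ (kk σ) (kk_ne σ) a) := by
      intro a
      show _ = ca (kk σ) • ((ca (kk σ * a))⁻¹ • (MonoidAlgebra.of F V1 (v (kk σ * a)) - 1))
      rw [map_smul, map_sub, map_one, smul_smul, map_mul, mul_inv, ← mul_assoc,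
        mul_inv_cancel₀ (ca_ne _ (kk_ne σ)), one_mul, ← kk_v]
      have h2 : MonoidAlgebra.domCongr F F σ (MonoidAlgebra.of F V1 (v a)) =
          MonoidAlgebra.of F V1 (σ (v a)) := by
        rw [MonoidAlgebra.of_apply, MonoidAlgebra.domCongr_single, MonoidAlgebra.of_apply]
      rw [h2]
    rw [Finset.sum_congr rfl (fun a _ => h1 a)]
    exact Equiv.sum_comp (Equiv.mulLeft₀ (kk σ) (kk_ne σ))
      (fun b : ZMod ℓ => ca (kk σ) • ((ca b)⁻¹ • (MonoidAlgebra.of F V1 (v b) - 1)))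
  · intro a
    rw [Finset.sum_range]
    conv_rhs => rw [← B.sum_repr a]
    apply Finset.sum_congr rfl
    intro k _
    rw [dif_pos k.2, B_ap]
    rfl
  · intro a k hk
    rw [dif_pos hk, Finset.sum_range]
    have h1 : ∑ i : Fin ℓ, a i • y ^ (i : ℕ) = ∑ i : Fin ℓ, (fun i : Fin ℓ => a i) i • B i := by
      apply Finset.sum_congr rfl
      intro i _
      rw [B_ap]
    rw [h1, Module.Basis.coord_apply, Module.Basis.repr_sum_self]

end Pool.Agent.PFE.H39Y
end
end -- Pool.Agent.Helper39_PFE.Y0E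

section -- Pool.Agent.Helper41_PFE.OPB

/-!
# Squad PFE, row OPB: the orthogonal projection to `F V` and the relative Frobenius system
-/

set_option autoImplicit false

open scoped BigOperators TensorProduct

noncomputable section

namespace Pool.Agent.PFE.H41

open Pool.Agent.PFD

section

variable {k S E : Type} [CommRing k] [CommRing S] [Algebra k S] [Group E] [Fintype E]
  (D : Pool.Agent.PFD.CD k S E)

/-- the inverse of `n e` -/
def nI (e : E) : CP D := (((D.c e e⁻¹)⁻¹ : kˣ) : k) • CP.n D e⁻¹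

theorem n_nI (e : E) : CP.n D e * nI D e = 1 := CP.n_mul_inv e

theorem nI_n (e : E) : nI D e * CP.n D e = 1 := CP.inv_mul_n e

theorem iS_mul_f (s : S) (a : CP D) (e : E) : (CP.iS D s * a).f e = s * a.f e := by
  rw [CP.iS_apply, CP.sn_mul_f, inv_one, one_mul, D.one_left, map_one, Units.val_one, one_smul]
  rfl

theorem mul_iS_f1 (a : CP D) (s : S) : (a * CP.iS D s).f 1 = a.f 1 * s := by
  classical
  rw [CP.mul_f, Finset.sum_eq_single 1]
  · rw [inv_one, one_mul, D.one_left, map_one, Units.val_one, one_smul, CP.iS_apply, CP.sn_f,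
      if_pos rfl]
    rfl
  · intro h _ hh
    rw [CP.iS_apply, CP.sn_f, if_neg, map_zero, mul_zero, smul_zero]
    rw [mul_one]
    intro h1
    exact hh (inv_eq_one.1 h1)
  · intro h
    exact absurd (Finset.mem_univ _) h

/-- key identity A -/
theorem idA (γ : CP D) : ∑ e, CP.n D e * CP.iS D ((nI D e * γ).f 1) = γ := by
  conv_rhs => rw [← CP.sum_iS_n γ]
  refine Finset.sum_congr rfl fun e _ => ?_
  have h1 : (nI D e * γ).f 1 = D.act e⁻¹ (γ.f e) := by
    rw [nI, smul_mul_assoc, CP.smul_f, CP.n, CP.sn_mul_f, inv_inv, mul_one, one_mul,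
      ← CP.c_inv_symm, smul_smul, Units.inv_mul, one_smul]
  rw [h1, CP.n_mul_iS, ← AlgEquiv.mul_apply, ← map_mul, mul_inv_cancel, map_one,
    AlgEquiv.one_apply]

/-- key identity B -/
theorem idB (γ : CP D) : ∑ e, CP.iS D ((γ * CP.n D e).f 1) * nI D e = γ := by
  classical
  conv_rhs => rw [← CP.sum_iS_n γ]
  rw [← Equiv.sum_comp (Equiv.inv E) (fun e => CP.iS D (γ.f e) * CP.n D e)]
  refine Finset.sum_congr rfl fun e _ => ?_
  have h1 : (γ * CP.n D e).f 1 = (D.c e⁻¹ e : k) • γ.f e⁻¹ := by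
    rw [CP.mul_f, Finset.sum_eq_single e⁻¹]
    · rw [inv_inv, mul_one, CP.n, CP.sn_f, if_pos rfl, map_one, mul_one]
    · intro h _ hh
      rw [CP.n, CP.sn_f, if_neg, map_zero, mul_zero, smul_zero]
      rw [mul_one]
      intro h1
      exact hh (by rw [← h1, inv_inv])
    · intro h
      exact absurd (Finset.mem_univ _) h
  rw [h1, nI, map_smul, smul_mul_assoc, mul_smul_comm, smul_smul, ← CP.c_inv_symm, Units.mul_inv,
    one_smul, Equiv.inv_apply]

/-- the conjugates of `iS s` -/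
theorem conj_iS (e : E) (s : S) : CP.n D e * CP.iS D s * nI D e = CP.iS D (D.act e s) := by
  rw [CP.n_mul_iS, mul_assoc, n_nI, mul_one]

/-- the trace is central -/
theorem tr_central (s : S) (γ : CP D) :
    (∑ e, CP.iS D (D.act e s)) * γ = γ * ∑ e, CP.iS D (D.act e s) := by
  have h1 : ∀ t : S, (∑ e, CP.iS D (D.act e s)) * CP.iS D t =
      CP.iS D t * ∑ e, CP.iS D (D.act e s) := by
    intro t
    rw [← map_sum, ← map_mul, ← map_mul, mul_comm]
  have h2 : ∀ g : E, (∑ e, CP.iS D (D.act e s)) * CP.n D g =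
      CP.n D g * ∑ e, CP.iS D (D.act e s) := by
    intro g
    rw [Finset.mul_sum, Finset.sum_mul]
    have h3 : ∀ e, CP.n D g * CP.iS D (D.act e s) = CP.iS D (D.act (g * e) s) * CP.n D g := by
      intro e
      rw [CP.n_mul_iS, map_mul, AlgEquiv.mul_apply]
    rw [Finset.sum_congr rfl fun e _ => h3 e]
    exact (Equiv.sum_comp (Equiv.mulLeft g) (fun e => CP.iS D (D.act e s) * CP.n D g)).symm
  conv_lhs => rw [← CP.sum_iS_n γ]
  conv_rhs => rw [← CP.sum_iS_n γ]
  rw [Finset.mul_sum, Finset.sum_mul]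
  refine Finset.sum_congr rfl fun e _ => ?_
  rw [← mul_assoc, h1, mul_assoc, h2, mul_assoc]

end

theorem opb (hOPA : OpaStmt) (hAUG : AugStmt) : OpbStmt := by
  classical
  intro ℓ _ F V E A _ _ _ _ _ _ _ _ φ NN z T hV hE hfa
  let _ := T.fN
  -- the form on the twisted group algebra
  obtain ⟨t, ht⟩ : ∃ t : CP (D0 φ z) →ₗ[F] F, ∀ γ, t γ = T.mu (T.j γ) :=
    ⟨T.mu ∘ₗ T.j.toLinearMap, fun _ => rfl⟩
  have hsym : ∀ a b, t (a * b) = t (b * a) := by
    intro a b
    rw [ht, ht, map_mul T.j, map_mul T.j, T.mus]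
  have hnd : ∀ a, (∀ b, t (a * b) = 0) → a = 0 := by
    intro a ha
    have h1 : T.j a = 0 := by
      apply T.mun
      intro b
      rw [← T.orth, T.pr_l, ← ht, ha]
    rw [← T.pr_j a, h1, map_zero]
  obtain ⟨u1, u1', hc, huu, htu, hu⟩ := hOPA ℓ F V E φ z t hV hfa hsym hnd
  obtain ⟨v, hv⟩ := hu.exists_right_inv
  obtain ⟨u, hu'⟩ : ∃ u, u = u1.f 1 := ⟨_, rfl⟩
  rw [← hu'] at hv hu
  have hu'1 : u1' * u1 = 1 := by rw [← hc, huu]
  have hc' : ∀ a, u1' * a = a * u1' := by
    intro a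
    calc u1' * a = u1' * a * (u1 * u1') := by rw [huu, mul_one]
      _ = u1' * (a * u1) * u1' := by noncomm_ring
      _ = u1' * (u1 * a) * u1' := by rw [hc]
      _ = (u1' * u1) * a * u1' := by noncomm_ring
      _ = a * u1' := by rw [hu'1, one_mul]
  obtain ⟨pv, hpv⟩ : ∃ pv : CP (D0 φ z) →ₗ[F] MonoidAlgebra F V,
      ∀ γ, pv γ = v * (u1 * γ).f 1 := by
    refine ⟨{ toFun := fun γ => v * (u1 * γ).f 1, map_add' := ?_, map_smul' := ?_ }, fun _ => rfl⟩
    · intro a b
      rw [mul_add, CP.add_f, mul_add]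
    · intro r a
      rw [mul_smul_comm, CP.smul_f, mul_smul_comm]
      rfl
  have hupv : ∀ γ, u * pv γ = (u1 * γ).f 1 := by
    intro γ
    rw [hpv, ← mul_assoc, hv, one_mul]
  have p1 : ∀ s, pv (CP.iS (D0 φ z) s) = s := by
    intro s
    rw [hpv, mul_iS_f1, ← hu', ← mul_assoc, mul_comm v, hv, one_mul]
  have p2 : ∀ s γ, pv (CP.iS (D0 φ z) s * γ) = s * pv γ := by
    intro s γ
    rw [hpv, hpv, ← mul_assoc, hc, mul_assoc, iS_mul_f]
    ring
  have p3 : ∀ γ s, pv (γ * CP.iS (D0 φ z) s) = pv γ * s := by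
    intro γ s
    rw [hpv, hpv, ← mul_assoc, mul_iS_f1, mul_assoc]
  refine ⟨pv, T.N × E, inferInstance,
    fun p => T.x p.1 * T.j (CP.n (D0 φ z) p.2 * CP.iS (D0 φ z) u),
    fun p => T.j (u1' * nI (D0 φ z) p.2) * T.y p.1, p1, p2, p3, ?_, ?_, ?_, ?_⟩
  · intro γ
    rw [← ht, ← ht, htu, htu, mul_iS_f1, ← hu', hupv]
  · intro a
    rw [Fintype.sum_prod_type]
    conv_rhs => rw [← T.e1 a]
    refine Finset.sum_congr rfl fun k _ => ?_
    have h1 : ∀ e : E, T.x k * T.j (CP.n (D0 φ z) e * CP.iS (D0 φ z) u) *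
        T.j (CP.iS (D0 φ z) (pv (T.pr (T.j (u1' * nI (D0 φ z) e) * T.y k * a)))) =
        T.x k * T.j (CP.n (D0 φ z) e *
          CP.iS (D0 φ z) ((nI (D0 φ z) e * T.pr (T.y k * a)).f 1)) := by
      intro e
      rw [mul_assoc, ← map_mul, mul_assoc (CP.n (D0 φ z) e), ← map_mul, hupv,
        mul_assoc (T.j _) (T.y k), T.pr_l, ← mul_assoc u1, ← mul_assoc u1, huu, one_mul]
    rw [Finset.sum_congr rfl fun e _ => h1 e, ← Finset.mul_sum, ← map_sum, idA]
  · intro a
    rw [Fintype.sum_prod_type]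
    conv_rhs => rw [← T.e2 a]
    refine Finset.sum_congr rfl fun k _ => ?_
    have h1 : ∀ e : E, T.j (CP.iS (D0 φ z) (pv (T.pr (a * (T.x k *
        T.j (CP.n (D0 φ z) e * CP.iS (D0 φ z) u)))))) * (T.j (u1' * nI (D0 φ z) e) * T.y k) =
        T.j (CP.iS (D0 φ z) ((u1 * T.pr (a * T.x k) * CP.n (D0 φ z) e).f 1) *
          nI (D0 φ z) e * u1') * T.y k := by
      intro e
      rw [← mul_assoc a, T.pr_r, ← mul_assoc (T.pr _), p3, mul_comm (pv _) u, hupv,
        ← mul_assoc (T.j _), ← map_mul, hc', ← mul_assoc (CP.iS _ _), ← mul_assoc u1]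
    rw [Finset.sum_congr rfl fun e _ => h1 e, ← Finset.sum_mul, ← map_sum, ← Finset.sum_mul, idB,
      hc, mul_assoc, huu, mul_one]
  · intro w hw
    have h1 : ∀ p : T.N × E, T.x p.1 * T.j (CP.n (D0 φ z) p.2 * CP.iS (D0 φ z) u) *
        T.j (CP.iS (D0 φ z) w) * (T.j (u1' * nI (D0 φ z) p.2) * T.y p.1) =
        T.x p.1 * T.j (u1' * CP.iS (D0 φ z) ((D0 φ z).act p.2 (u * w))) * T.y p.1 := by
      intro p
      rw [← conj_iS, map_mul (CP.iS (D0 φ z)) u w]
      have h2 : u1' * (CP.n (D0 φ z) p.2 * (CP.iS (D0 φ z) u * CP.iS (D0 φ z) w) *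
          nI (D0 φ z) p.2) = CP.n (D0 φ z) p.2 * CP.iS (D0 φ z) u * CP.iS (D0 φ z) w *
          (u1' * nI (D0 φ z) p.2) := by
        rw [← mul_assoc, hc']
        simp only [mul_assoc]
      rw [h2]
      simp only [map_mul, mul_assoc]
    rw [Finset.sum_congr rfl fun p _ => h1 p, Fintype.sum_prod_type]
    have h2 : ∀ k : T.N, ∑ e : E, T.x k * T.j (u1' * CP.iS (D0 φ z) ((D0 φ z).act e (u * w))) *
        T.y k = T.x k * T.j (u1' * ∑ e : E, CP.iS (D0 φ z) ((D0 φ z).act e (u * w))) * T.y k := by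
      intro k
      rw [← Finset.sum_mul, ← Finset.mul_sum, ← map_sum, ← Finset.mul_sum]
    rw [Finset.sum_congr rfl fun k _ => h2 k]
    apply T.unt
    · intro γ
      rw [mul_assoc, tr_central, ← mul_assoc, hc', mul_assoc]
    · have hun1 : IsUnit u1' := ⟨⟨u1', u1, hu'1, huu⟩, rfl⟩
      refine hun1.mul ?_
      rw [← map_sum]
      refine IsUnit.map (CP.iS (D0 φ z)) ?_
      rw [hAUG ℓ F V hV]
      have hs : ∑ v, (u * w).coeff v ≠ 0 := (hAUG ℓ F V hV _).1 (hu.mul hw)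
      have h3 : ∀ e : E, ∑ v, ((D0 φ z).act e (u * w)).coeff v = ∑ v, (u * w).coeff v := by
        intro e
        have h4 : ∀ v, ((D0 φ z).act e (u * w)).coeff v = (u * w).coeff ((φ e).symm v) := fun v =>
          MonoidAlgebra.coeff_domCongr (φ e) (u * w) v
        rw [Finset.sum_congr rfl fun v _ => h4 v]
        exact Equiv.sum_comp (φ e).symm.toEquiv (fun v => (u * w).coeff v)
      have h5 : ∑ v, (∑ e : E, (D0 φ z).act e (u * w)).coeff v =
          (Fintype.card E : F) * ∑ v, (u * w).coeff v := by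
        have h6 : ∀ v, (∑ e : E, (D0 φ z).act e (u * w)).coeff v =
            ∑ e : E, ((D0 φ z).act e (u * w)).coeff v := by
          intro v
          rw [MonoidAlgebra.coeff_sum, Finsupp.finsetSum_apply]
        rw [Finset.sum_congr rfl fun v _ => h6 v, Finset.sum_comm,
          Finset.sum_congr rfl fun e _ => h3 e, Finset.sum_const, Finset.card_univ, nsmul_eq_mul]
      rw [h5]
      refine mul_ne_zero ?_ hs
      intro h0
      apply hE
      rw [Nat.card_eq_fintype_card]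
      exact (CharP.cast_eq_zero_iff F ℓ _).1 h0

end Pool.Agent.PFE.H41
end
end -- Pool.Agent.Helper41_PFE.OPB

section -- Pool.Agent.Helper56_PFE.CAZ

/-! Squad PFE, row CAZ: the two Casimir elements of `F V1`. -/

set_option autoImplicit false

namespace Pool.Agent.PFE.H56

open Pool.Agent.PFE

section

variable {F V1 : Type} [Field F] [CommGroup V1] [Fintype V1]

/-- the coefficient of the unit -/
noncomputable def tc : MonoidAlgebra F V1 →ₗ[F] F where
  toFun a := a.coeff 1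
  map_add' a b := by rw [MonoidAlgebra.coeff_add, Finsupp.add_apply]
  map_smul' r a := by rw [MonoidAlgebra.coeff_smul, Finsupp.smul_apply, RingHom.id_apply]

theorem span_of (P : MonoidAlgebra F V1 → Prop)
    (h1 : ∀ v, P (MonoidAlgebra.of F V1 v)) (h2 : ∀ a b, P a → P b → P (a + b))
    (h3 : ∀ (r : F) a, P a → P (r • a)) (a : MonoidAlgebra F V1) : P a := by
  induction a using MonoidAlgebra.induction_on with
  | of v => exact h1 v
  | add a b ha hb => exact h2 a b ha hb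
  | smul r a ha => exact h3 r a ha

theorem tc_of (v : V1) [Decidable (v = 1)] :
    tc (MonoidAlgebra.of F V1 v) = if v = 1 then (1 : F) else 0 := by
  unfold tc
  show (MonoidAlgebra.of F V1 v).coeff 1 = _
  rw [MonoidAlgebra.of_apply, MonoidAlgebra.coeff_single, Finsupp.single_apply]

/-- the first Casimir element -/
theorem cas1 (a : MonoidAlgebra F V1) :
    ∑ v : V1, tc (MonoidAlgebra.of F V1 v⁻¹ * a) • MonoidAlgebra.of F V1 v = a := by
  classical
  refine span_of (fun a => ∑ v : V1, tc (MonoidAlgebra.of F V1 v⁻¹ * a) •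
    MonoidAlgebra.of F V1 v = a) ?_ ?_ ?_ a
  · intro w
    rw [Finset.sum_eq_single w]
    · rw [← map_mul, inv_mul_cancel, tc_of, if_pos rfl, one_smul]
    · intro v _ hv
      rw [← map_mul, tc_of, if_neg, zero_smul]
      intro h
      exact hv (inv_mul_eq_one.1 h)
    · intro h
      exact absurd (Finset.mem_univ _) h
  · intro a b ha hb
    have e : ∀ v : V1, tc (MonoidAlgebra.of F V1 v⁻¹ * (a + b)) • MonoidAlgebra.of F V1 v =
        tc (MonoidAlgebra.of F V1 v⁻¹ * a) • MonoidAlgebra.of F V1 v +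
        tc (MonoidAlgebra.of F V1 v⁻¹ * b) • MonoidAlgebra.of F V1 v := by
      intro v
      rw [mul_add, map_add, add_smul]
    rw [Finset.sum_congr rfl fun v _ => e v, Finset.sum_add_distrib, ha, hb]
  · intro r a ha
    have e : ∀ v : V1, tc (MonoidAlgebra.of F V1 v⁻¹ * (r • a)) • MonoidAlgebra.of F V1 v =
        r • tc (MonoidAlgebra.of F V1 v⁻¹ * a) • MonoidAlgebra.of F V1 v := by
      intro v
      rw [mul_smul_comm, map_smul, smul_eq_mul, mul_smul]
    rw [Finset.sum_congr rfl fun v _ => e v, ← Finset.smul_sum, ha]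

theorem cas1' (a : MonoidAlgebra F V1) :
    ∑ v : V1, tc (a * MonoidAlgebra.of F V1 v) • MonoidAlgebra.of F V1 v⁻¹ = a := by
  have h := cas1 a
  rw [← Equiv.sum_comp (Equiv.inv V1)] at h
  simp only [Equiv.inv_apply, inv_inv] at h
  conv_rhs => rw [← h]
  exact Finset.sum_congr rfl fun v _ => by rw [mul_comm]

variable {l : ℕ} (Y : Y1 F V1 l)

include Y in
theorem co_pow {m k : ℕ} (hm : m < l) (hk : k < l) :
    Y.co k (Y.y ^ m) = if m = k then 1 else 0 := by
  have h := Y.un (fun j => if j = m then 1 else 0) k hk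
  have e : ∑ j ∈ Finset.range l, (if j = m then (1 : F) else 0) • Y.y ^ j = Y.y ^ m := by
    rw [Finset.sum_eq_single m]
    · rw [if_pos rfl, one_smul]
    · intro j _ hj
      rw [if_neg hj, zero_smul]
    · intro h
      exact absurd (Finset.mem_range.2 hm) h
  rw [e] at h
  rw [h]
  exact if_congr eq_comm rfl rfl

/-- the second Casimir element -/
theorem cas2 (hl : 1 ≤ l) (a : MonoidAlgebra F V1) :
    ∑ k ∈ Finset.range l, Y.co (l - 1) (Y.y ^ (l - 1 - k) * a) • Y.y ^ k = a := by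
  have key : ∀ m ∈ Finset.range l,
      ∑ k ∈ Finset.range l, Y.co (l - 1) (Y.y ^ (l - 1 - k) * Y.y ^ m) • Y.y ^ k = Y.y ^ m := by
    intro m hm
    rw [Finset.mem_range] at hm
    rw [Finset.sum_eq_single m]
    · rw [← pow_add, show l - 1 - m + m = l - 1 by omega, co_pow Y (by omega) (by omega),
        if_pos rfl, one_smul]
    · intro k hk hkm
      rw [Finset.mem_range] at hk
      rw [← pow_add]
      by_cases h : l - 1 - k + m < l
      · rw [co_pow Y h (by omega), if_neg (by omega), zero_smul]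
      · have e : Y.y ^ (l - 1 - k + m) = 0 := pow_eq_zero_of_le (not_lt.1 h) Y.yl
        rw [e, map_zero, zero_smul]
    · intro h
      exact absurd (Finset.mem_range.2 hm) h
  conv_rhs => rw [← Y.ex a]
  rw [← Finset.sum_congr rfl fun m hm => congrArg (fun x => Y.co m a • x) (key m hm)]
  simp only [Finset.smul_sum]
  rw [Finset.sum_comm]
  refine Finset.sum_congr rfl fun k _ => ?_
  conv_lhs => rw [← Y.ex a]
  rw [Finset.mul_sum, map_sum, Finset.sum_smul]
  refine Finset.sum_congr rfl fun m _ => ?_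
  rw [mul_smul_comm, map_smul, smul_eq_mul, mul_smul]

end

/-- CAZ -/
theorem caz : CazStmt := by
  intro F V1 _ _ _ l Y hl
  obtain ⟨z, hz⟩ : ∃ z : MonoidAlgebra F V1, z = ∑ v : V1, Y.co (l - 1)
    (MonoidAlgebra.of F V1 v) • MonoidAlgebra.of F V1 v⁻¹ := ⟨_, rfl⟩
  obtain ⟨z', hz'⟩ : ∃ z' : MonoidAlgebra F V1, z' = ∑ k ∈ Finset.range l,
    tc (Y.y ^ k) • Y.y ^ (l - 1 - k) := ⟨_, rfl⟩
  have h1 : ∀ a, tc (z * a) = Y.co (l - 1) a := by
    intro a
    rw [hz, Finset.sum_mul, map_sum]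
    conv_rhs => rw [← cas1 a, map_sum]
    refine Finset.sum_congr rfl fun v _ => ?_
    rw [smul_mul_assoc, map_smul, map_smul, smul_eq_mul, smul_eq_mul, mul_comm]
  have h2 : ∀ a, Y.co (l - 1) (z' * a) = tc a := by
    intro a
    rw [hz', Finset.sum_mul, map_sum]
    conv_rhs => rw [← cas2 Y hl a, map_sum]
    refine Finset.sum_congr rfl fun v _ => ?_
    rw [smul_mul_assoc, map_smul, map_smul, smul_eq_mul, smul_eq_mul, mul_comm]
  have h3 : z * z' = 1 := by
    have h4 : ∀ a, Y.co (l - 1) ((z * z' - 1) * a) = 0 := by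
      intro a
      rw [sub_mul, map_sub, one_mul, mul_comm z z', mul_assoc, h2, h1, sub_self]
    have h5 := cas2 Y hl (z * z' - 1)
    have h6 : ∑ k ∈ Finset.range l, Y.co (l - 1) (Y.y ^ (l - 1 - k) * (z * z' - 1)) • Y.y ^ k =
        0 := by
      refine Finset.sum_eq_zero fun k _ => ?_
      rw [mul_comm, h4, zero_smul]
    rw [h6] at h5
    exact (sub_eq_zero.1 h5.symm)
  refine ⟨z, z', h3, fun M _ _ β => ?_⟩
  have h7 : ∀ k, ∑ v : V1, Y.co (l - 1) (Y.y ^ (l - 1 - k) * MonoidAlgebra.of F V1 v) •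
      MonoidAlgebra.of F V1 v⁻¹ = z * Y.y ^ (l - 1 - k) := by
    intro k
    rw [← cas1' (z * Y.y ^ (l - 1 - k))]
    refine Finset.sum_congr rfl fun v _ => ?_
    rw [mul_assoc, h1]
  have h8 : ∀ v : V1, β (MonoidAlgebra.of F V1 v) (MonoidAlgebra.of F V1 v⁻¹) =
      ∑ k ∈ Finset.range l, β (Y.y ^ k)
        (Y.co (l - 1) (Y.y ^ (l - 1 - k) * MonoidAlgebra.of F V1 v) •
          MonoidAlgebra.of F V1 v⁻¹) := by
    intro v
    conv_lhs => rw [← cas2 Y hl (MonoidAlgebra.of F V1 v)]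
    rw [map_sum, LinearMap.sum_apply]
    refine Finset.sum_congr rfl fun k _ => ?_
    rw [map_smul, LinearMap.smul_apply, map_smul]
  rw [Finset.sum_congr rfl fun v _ => h8 v, Finset.sum_comm]
  refine Finset.sum_congr rfl fun k _ => ?_
  rw [← map_sum, h7]

end Pool.Agent.PFE.H56
end -- Pool.Agent.Helper56_PFE.CAZ

section -- Pool.Agent.PFC.B5c.Lcn_helper65

/-!
# Squad PFC, block B5d, row LCN: the elements of a local finite-dimensional algebra
-/

set_option autoImplicit false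

namespace Pool.Agent.PFC.B5c.H65

open Polynomial Pool.Agent.PFC Pool.Agent.PFC.B5c

theorem unit_of_root {F A : Type} [Field F] [Ring A] [Algebra F A] (x : A) (q : F[X])
    (hq : aeval x q = 0) (h0 : q.coeff 0 ≠ 0) : IsUnit x := by
  have h1 : aeval x q.divX * x + algebraMap F A (q.coeff 0) = 0 := by
    have h2 := congrArg (aeval x) (Polynomial.divX_mul_X_add q)
    rw [map_add, map_mul, aeval_X, aeval_C, hq] at h2
    exact h2
  have h3 : x * aeval x q.divX = aeval x q.divX * x := by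
    have h4 : aeval x (X * q.divX) = aeval x (q.divX * X) := by rw [mul_comm]
    rwa [map_mul, map_mul, aeval_X] at h4
  have h5 : aeval x q.divX * x = -algebraMap F A (q.coeff 0) := eq_neg_of_add_eq_zero_left h1
  have h6 : algebraMap F A (q.coeff 0) * algebraMap F A (q.coeff 0)⁻¹ = 1 := by
    rw [← map_mul, mul_inv_cancel₀ h0, map_one]
  have h7 : -(algebraMap F A (q.coeff 0)⁻¹) * (aeval x q.divX) * x = 1 := by
    rw [mul_assoc, h5, neg_mul_neg, ← map_mul, inv_mul_cancel₀ h0, map_one]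
  have h8 : x * (-(algebraMap F A (q.coeff 0)⁻¹) * (aeval x q.divX)) = 1 := by
    rw [neg_mul, mul_neg, ← mul_assoc, ← Algebra.commutes, mul_assoc, h3, h5, mul_neg, neg_neg,
      ← map_mul, inv_mul_cancel₀ h0, map_one]
  exact ⟨⟨x, _, h8, h7⟩, rfl⟩

theorem unit_or_nil {F A : Type} [Field F] [Ring A] [Algebra F A] [FiniteDimensional F A]
    (hA : IsLocalRing A) (x : A) : IsUnit x ∨ IsNilpotent x := by
  have hp0 : minpoly F x ≠ 0 := minpoly.ne_zero (Algebra.IsIntegral.isIntegral x)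
  obtain ⟨q, hq, hq2⟩ := Polynomial.exists_eq_pow_rootMultiplicity_mul_and_not_dvd
    (minpoly F x) hp0 0
  rw [map_zero, sub_zero] at hq hq2
  obtain ⟨k, hk⟩ : ∃ k, k = rootMultiplicity 0 (minpoly F x) := ⟨_, rfl⟩
  rw [← hk] at hq
  have h0 : q.coeff 0 ≠ 0 := fun h => hq2 (Polynomial.X_dvd_iff.2 h)
  have hco : IsCoprime (X ^ k) q :=
    IsCoprime.pow_left ((Polynomial.irreducible_X.coprime_iff_not_dvd).2 hq2)
  obtain ⟨a, b, hab⟩ := hco
  have hm : aeval x (X ^ k * q) = 0 := by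
    rw [← hq]
    exact minpoly.aeval F x
  have h1 : aeval x (a * X ^ k) + aeval x (b * q) = 1 := by
    rw [← map_add, hab, map_one]
  have h2 : aeval x (a * X ^ k) * aeval x (b * q) = 0 := by
    rw [← map_mul]
    have : a * X ^ k * (b * q) = (a * b) * (X ^ k * q) := by ring
    rw [this, map_mul, hm, mul_zero]
  rcases IsLocalRing.isUnit_or_isUnit_of_add_one h1 with h3 | h3
  · left
    have h4 : aeval x (b * q) = 0 := (IsUnit.mul_right_eq_zero h3).1 h2
    apply unit_of_root x q _ h0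
    have h5 : q = q * (a * X ^ k) + q * (b * q) := by
      rw [← mul_add, hab, mul_one]
    have h6 := congrArg (aeval x) h5
    rw [map_add, map_mul (aeval x) q (b * q), h4, mul_zero, add_zero] at h6
    rw [h6]
    have : q * (a * X ^ k) = a * (X ^ k * q) := by ring
    rw [this, map_mul, hm, mul_zero]
  · right
    have h4 : aeval x (a * X ^ k) = 0 := (IsUnit.mul_left_eq_zero h3).1 h2
    refine ⟨k, ?_⟩
    have h5 : (X : F[X]) ^ k = X ^ k * (a * X ^ k) + X ^ k * (b * q) := by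
      rw [← mul_add, hab, mul_one]
    have h6 := congrArg (aeval x) h5
    rw [map_add, map_mul (aeval x) (X ^ k) (a * X ^ k), h4, mul_zero, zero_add, map_pow,
      aeval_X] at h6
    rw [h6]
    have : X ^ k * (b * q) = b * (X ^ k * q) := by ring
    rw [this, map_mul, hm, mul_zero]

theorem lcn : LcnStmt := by
  intro F A _ _ _ _ _ hA
  refine ⟨fun x => unit_or_nil (F := F) hA x, fun x => ?_⟩
  obtain ⟨t, ht⟩ := spectrum.nonempty_of_isAlgClosed_of_finiteDimensional F x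
  refine ⟨t, ?_⟩
  rcases unit_or_nil (F := F) hA (x - algebraMap F A t) with h | h
  · exfalso
    rw [spectrum.mem_iff] at ht
    apply ht
    rw [← neg_sub]
    exact h.neg
  · exact h

end Pool.Agent.PFC.B5c.H65
end -- Pool.Agent.PFC.B5c.Lcn_helper65

section -- Pool.Agent.Helper58_PFE.FLT

/-! Squad PFE, part E2, row FLT: the input `FLv`. -/

set_option autoImplicit false
set_option linter.unusedSectionVars false

open scoped BigOperators

noncomputable section

namespace Pool.Agent.PFE.H58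

open MulOpposite
open Pool.Agent.PFC
open Pool.Agent.PFC (tw)
open Pool.Agent.PFD
open Pool.Agent.PFD.D2

section flt

variable {F V V1 A : Type} [Field F] [CommGroup V] [CommGroup V1] [Fintype V1] [Ring A]
  [Algebra F A]

theorem hom_ext' (f g : MonoidAlgebra F V →ₐ[F] A)
    (h : ∀ v, f (MonoidAlgebra.of F V v) = g (MonoidAlgebra.of F V v)) (γ : MonoidAlgebra F V) :
    f γ = g γ := by
  have h1 : f.toLinearMap = g.toLinearMap := by
    apply MonoidAlgebra.lhom_ext'
    intro v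
    apply LinearMap.ext_ring
    exact h v
  exact LinearMap.congr_fun h1 γ

/-- `j ∘ il (of) i = il α i` -/
theorem j_il (α : V →* A) (i : V1 →* V) (j : MonoidAlgebra F V →ₐ[F] A)
    (hj : ∀ u, j (MonoidAlgebra.of F V u) = α u) (γ : MonoidAlgebra F V1) :
    j (il (MonoidAlgebra.of F V) i γ) = il α i γ := by
  have h := hom_ext' (j.comp (il (MonoidAlgebra.of F V) i)) (il α i) (by
    intro v
    have h1 : il (MonoidAlgebra.of F V) i (MonoidAlgebra.of F V1 v) =
        MonoidAlgebra.of F V (i v) := by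
      unfold il
      rw [MonoidAlgebra.lift_of]
      rfl
    have h2 : il α i (MonoidAlgebra.of F V1 v) = α (i v) := by
      unfold il
      rw [MonoidAlgebra.lift_of]
      rfl
    change j (il (MonoidAlgebra.of F V) i (MonoidAlgebra.of F V1 v)) =
      il α i (MonoidAlgebra.of F V1 v)
    rw [h1, h2, hj]) γ
  exact h

/-- the rule for a normalising element -/
theorem nrm (α : V →* A) (i : V1 →* V) (σ : MulAut V1) (w : A)
    (h : ∀ v, w * α (i v) = α (i (σ v)) * w) (γ : MonoidAlgebra F V1) :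
    w * il α i γ = il α i (MonoidAlgebra.domCongr F F σ γ) * w := by
  have h1 : (LinearMap.mulLeft F w).comp (il α i).toLinearMap =
      (LinearMap.mulRight F w).comp ((il α i).toLinearMap.comp
        (MonoidAlgebra.domCongr F F σ).toLinearMap) := by
    apply MonoidAlgebra.lhom_ext'
    intro v
    apply LinearMap.ext_ring
    change w * il α i (MonoidAlgebra.of F V1 v) =
      il α i (MonoidAlgebra.domCongr F F σ (MonoidAlgebra.of F V1 v)) * w
    rw [MonoidAlgebra.of_apply, MonoidAlgebra.domCongr_single, ← MonoidAlgebra.of_apply,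
      ← MonoidAlgebra.of_apply]
    unfold il
    rw [MonoidAlgebra.lift_of, MonoidAlgebra.lift_of]
    exact h v
  exact LinearMap.congr_fun h1 γ

end flt

/-- elements of the centraliser of `V` are units or nilpotent -/
theorem loc_cz {F V A : Type} [Field F] [CommGroup V] [Ring A] [Algebra F A]
    (α : V →* A) (hfin : FiniteDimensional F A) (hloc : IsLocalRing (Cz F α ⊤)) (a : A)
    (ha : ∀ u, α u * a = a * α u) : IsUnit a ∨ IsNilpotent a := by
  have hm : a ∈ Cz F α ⊤ := by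
    unfold Cz
    rw [Subalgebra.mem_centralizer_iff]
    rintro _ ⟨u, _, rfl⟩
    exact ha u
  rcases Pool.Agent.PFC.B5c.H65.unit_or_nil (F := F) hloc (⟨a, hm⟩ : Cz F α ⊤) with h | h
  · left
    exact h.map (Cz F α ⊤).subtype
  · right
    exact h.map (Cz F α ⊤).subtype

/-- Row FLT. -/
theorem flt (opv : OpvStmt) (yft : YftStmt) : FltStmt := by
  intro ℓ _ F V E A V1 C _ _ _ _ _ _ _ _ _ _ _ φ NN α z T i W _ θ Y G hC hP hT hV1 hi hd hs hW
    hCE hEC hQ hGy hGw
  obtain ⟨N, K, Om, fN, fK, fOm, aOm, S, hS⟩ := opv ℓ F V E A φ NN z T hC.pg hC.cop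
    (fun e he => hC.fa e he)
  obtain ⟨Ω, Ω', fΩ, fΩ', aΩ, aΩ', ⟨fr⟩⟩ := yft ℓ F V E V1 C A N K Om φ NN i W Y G θ S hV1 hi hd hs
    hW hEC hQ hGy hGw
  have hj : ∀ u, S.j (MonoidAlgebra.of F V u) = α u := by
    intro u
    rw [hS, ← hT u]
    rfl
  have hjy : S.j G.y = il α i Y.y := by
    rw [hGy, j_il α i S.j hj]
  refine ⟨N, K, Ω, Ω', fN, fK, fΩ, fΩ', aΩ, aΩ',
    { j := S.j
      pr := S.pr
      pr_j := S.pr_j
      pr_l := S.pr_l
      pr_r := S.pr_r
      mu := S.mu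
      mus := S.mus
      mun := S.mun
      orth := S.orth
      sep := S.sep
      x := S.x
      y := S.y
      e1 := S.e1
      e2 := S.e2
      unt := S.unt
      fr := fr
      loc := ?_
      uni := ?_ }, hj⟩
  · intro a ha
    apply loc_cz α hP.fin hP.loc a
    intro u
    rw [← hj u]
    exact ha _
  · intro x
    obtain ⟨e, he⟩ := hCE x
    obtain ⟨w, w', h1, h2, h3⟩ := hP.uni e
    have h4 : w * il α i Y.y = il α i (MonoidAlgebra.domCongr F F (θ x) Y.y) * w := by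
      apply nrm α i (θ x) w
      intro v
      rw [h3, he]
    rw [Y.ye, map_smul, smul_mul_assoc] at h4
    refine ⟨w', w, h2, h1, ?_⟩
    rw [hjy]
    change il α i Y.y * w' = Y.χ (θ x) • (w' * il α i Y.y)
    calc il α i Y.y * w' = w' * (w * il α i Y.y) * w' := by
          rw [← mul_assoc w', h2, one_mul]
      _ = w' * (Y.χ (θ x) • (il α i Y.y * w)) * w' := by rw [h4]
      _ = Y.χ (θ x) • (w' * il α i Y.y) := by
          rw [mul_smul_comm, smul_mul_assoc]
          congr 1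
          rw [mul_assoc, mul_assoc, h1, mul_one]

end Pool.Agent.PFE.H58
end
end -- Pool.Agent.Helper58_PFE.FLT

section -- Pool.Agent.Helper58_PFE.SGY

/-! Squad PFE, part E2, row SGY: a model of the graded algebra is the local algebra at `y`. -/

set_option autoImplicit false
set_option linter.unusedSectionVars false

open scoped BigOperators

noncomputable section

namespace Pool.Agent.PFE.H58

open Pool.Agent.PFE Pool.Agent.PFC

section one

variable {F V V1 A : Type} [Field F] [CommGroup V] [CommGroup V1] [Fintype V1] [Ring A]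
  [Algebra F A] (α : V →* A) (i : V1 →* V)

theorem il_of (v : V1) : il α i (MonoidAlgebra.of F V1 v) = α (i v) := by
  unfold il
  rw [MonoidAlgebra.lift_of]
  rfl

theorem dc_of (σ : MulAut V1) (v : V1) :
    MonoidAlgebra.domCongr F F σ (MonoidAlgebra.of F V1 v) = MonoidAlgebra.of F V1 (σ v) := by
  rw [MonoidAlgebra.of_apply, MonoidAlgebra.of_apply, MonoidAlgebra.domCongr_single]

theorem lin_ext {M : Type} [AddCommMonoid M] [Module F M] (f g : MonoidAlgebra F V1 →ₗ[F] M)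
    (h : ∀ v, f (MonoidAlgebra.of F V1 v) = g (MonoidAlgebra.of F V1 v)) : f = g := by
  apply MonoidAlgebra.lhom_ext'
  intro v
  apply LinearMap.ext_ring
  exact h v

theorem memNt (σ : MulAut V1) (a : A) :
    a ∈ Nt F α i σ ↔ ∀ v, α (i v) * a = a * α (i (σ v)) := by
  have m1 : ∀ x : V, α x * α x⁻¹ = 1 := fun x => by rw [← map_mul, mul_inv_cancel, map_one]
  have m2 : ∀ x : V, α x⁻¹ * α x = 1 := fun x => by rw [← map_mul, inv_mul_cancel, map_one]
  constructor
  · intro h v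
    have h1 : α (i v) * (a * α (i (σ v))⁻¹) = a := h v trivial
    calc α (i v) * a = α (i v) * (a * (α (i (σ v))⁻¹ * α (i (σ v)))) := by
          rw [m2, mul_one]
      _ = α (i v) * (a * α (i (σ v))⁻¹) * α (i (σ v)) := by simp only [mul_assoc]
      _ = a * α (i (σ v)) := by rw [h1]
  · intro h v _
    change α (i v) * (a * α (i (σ v))⁻¹) = a
    rw [← mul_assoc, h v, mul_assoc, m1, mul_one]

/-- the rule for all elements of the group algebra -/
theorem rule (σ : MulAut V1) (a : A) (ha : a ∈ Nt F α i σ) (γ : MonoidAlgebra F V1) :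
    il α i γ * a = a * il α i (MonoidAlgebra.domCongr F F σ γ) := by
  have h := lin_ext ((LinearMap.mulRight F a).comp (il α i).toLinearMap)
    ((LinearMap.mulLeft F a).comp ((il α i).toLinearMap.comp
      (MonoidAlgebra.domCongr F F σ).toLinearMap)) (by
      intro v
      change il α i (MonoidAlgebra.of F V1 v) * a =
        a * il α i (MonoidAlgebra.domCongr F F σ (MonoidAlgebra.of F V1 v))
      rw [dc_of, il_of, il_of]
      exact (memNt α i σ a).1 ha v)
  exact LinearMap.congr_fun h γ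

/-- (1) -/
theorem nx_iff {l : ℕ} (Y : Y1 F V1 l) (σ : MulAut V1) (a : A) :
    il α i Y.y * a = Y.χ σ • (a * il α i Y.y) ↔ a ∈ Nt F α i σ := by
  constructor
  · intro h
    rw [memNt]
    intro v
    have hk : ∀ k : ℕ, il α i Y.y ^ k * a = (Y.χ σ) ^ k • (a * il α i Y.y ^ k) := by
      intro k
      induction k with
      | zero => rw [pow_zero, pow_zero, one_smul, one_mul, mul_one]
      | succ k ih =>
        rw [pow_succ', mul_assoc, ih, mul_smul_comm, ← mul_assoc, h, smul_mul_assoc, smul_smul,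
          mul_assoc, ← pow_succ' (il α i Y.y) k, ← pow_succ]
    have h1 := Y.ex (MonoidAlgebra.of F V1 v)
    have h2 : α (i v) = ∑ k ∈ Finset.range l,
        Y.co k (MonoidAlgebra.of F V1 v) • il α i Y.y ^ k := by
      rw [← il_of (F := F) α i v]
      conv_lhs => rw [← h1]
      rw [map_sum]
      refine Finset.sum_congr rfl fun k _ => ?_
      rw [map_smul, map_pow]
    have h3 : α (i (σ v)) = ∑ k ∈ Finset.range l,
        Y.co k (MonoidAlgebra.of F V1 v) • ((Y.χ σ) ^ k • il α i Y.y ^ k) := by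
      rw [← il_of (F := F) α i (σ v), ← dc_of]
      conv_lhs => rw [← h1]
      rw [map_sum, map_sum]
      refine Finset.sum_congr rfl fun k _ => ?_
      rw [map_smul, map_smul, map_pow, map_pow, Y.ye, map_smul, smul_pow]
    rw [h2, h3, Finset.sum_mul, Finset.mul_sum]
    refine Finset.sum_congr rfl fun k _ => ?_
    rw [smul_mul_assoc, hk k, mul_smul_comm, mul_smul_comm]
  · intro h
    rw [rule α i σ a h, Y.ye, map_smul, mul_smul_comm]

end one

section two

variable {F V V1 C A : Type} [Field F] [CommGroup V] [CommGroup V1] [Fintype V1] [CommGroup C]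
  [Ring A] [Algebra F A] (α : V →* A) (i : V1 →* V) (θ : C →* MulAut V1)

theorem nx_mem {l : ℕ} (Y : Y1 F V1 l) (c : C) (a : A) :
    a ∈ Nx (il α i Y.y) (Y.χ.comp θ) c ↔ a ∈ Nt F α i (θ c) :=
  nx_iff α i Y (θ c) a

theorem comm_il (γ δ : MonoidAlgebra F V1) : il α i γ * il α i δ = il α i δ * il α i γ := by
  rw [← map_mul, ← map_mul, mul_comm]

theorem il_mul_nx {l : ℕ} (Y : Y1 F V1 l) (c : C) (a : A) (γ : MonoidAlgebra F V1)
    (ha : a ∈ Nx (il α i Y.y) (Y.χ.comp θ) c) :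
    il α i γ * a ∈ Nx (il α i Y.y) (Y.χ.comp θ) c := by
  have h : il α i Y.y * a = (Y.χ.comp θ) c • (a * il α i Y.y) := ha
  show il α i Y.y * (il α i γ * a) = (Y.χ.comp θ) c • (il α i γ * a * il α i Y.y)
  rw [← mul_assoc, comm_il, mul_assoc, h, mul_smul_comm, mul_assoc]

/-- the trace of `V1` is the twisted trace of `y` -/
theorem tr_tx {l : ℕ} (Y : Y1 F V1 l) (z : MonoidAlgebra F V1)
    (hz : ∀ (M : Type) [AddCommGroup M] [Module F M]
        (β : MonoidAlgebra F V1 →ₗ[F] MonoidAlgebra F V1 →ₗ[F] M),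
        ∑ v : V1, β (MonoidAlgebra.of F V1 v) (MonoidAlgebra.of F V1 v⁻¹) =
          ∑ k ∈ Finset.range l, β (Y.y ^ k) (z * Y.y ^ (l - 1 - k)))
    (σ : MulAut V1) (a : A) :
    Tr F α i σ a = Tx (il α i Y.y) l (Y.χ σ)
      (a * il α i (MonoidAlgebra.domCongr F F σ z)) := by
  let β : MonoidAlgebra F V1 →ₗ[F] MonoidAlgebra F V1 →ₗ[F] A :=
    (LinearMap.mul F A).compl₁₂ ((LinearMap.mulRight F a).comp (il α i).toLinearMap)
      ((il α i).toLinearMap.comp (MonoidAlgebra.domCongr F F σ).toLinearMap)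
  have hβ : ∀ γ δ, β γ δ = il α i γ * a * il α i (MonoidAlgebra.domCongr F F σ δ) :=
    fun γ δ => rfl
  have h := hz A β
  have h1 : Tr F α i σ a = ∑ v : V1, β (MonoidAlgebra.of F V1 v) (MonoidAlgebra.of F V1 v⁻¹) := by
    unfold Tr
    rw [LinearMap.sum_apply]
    refine Finset.sum_congr rfl fun v _ => ?_
    rw [hβ, dc_of, il_of, il_of]
    change α (i v) * (a * α (i (σ v))⁻¹) = _
    rw [map_inv σ, map_inv i, mul_assoc]
  rw [h1, h]
  unfold Tx
  refine Finset.sum_congr rfl fun k _ => ?_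
  rw [hβ, map_mul, map_pow, map_pow, Y.ye, smul_pow, mul_smul_comm, map_smul, mul_smul_comm,
    map_mul, map_pow]
  simp only [mul_assoc]

theorem it_jx {l : ℕ} (Y : Y1 F V1 l) (z z' : MonoidAlgebra F V1) (hzz : z * z' = 1)
    (hz : ∀ (M : Type) [AddCommGroup M] [Module F M]
        (β : MonoidAlgebra F V1 →ₗ[F] MonoidAlgebra F V1 →ₗ[F] M),
        ∑ v : V1, β (MonoidAlgebra.of F V1 v) (MonoidAlgebra.of F V1 v⁻¹) =
          ∑ k ∈ Finset.range l, β (Y.y ^ k) (z * Y.y ^ (l - 1 - k)))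
    (c : C) (a : A) :
    a ∈ Jx (il α i Y.y) l (Y.χ.comp θ) c ↔ a ∈ It F α i (θ c) := by
  constructor
  · intro h
    refine Submodule.span_induction (p := fun a _ => a ∈ It F α i (θ c)) ?_ ?_ ?_ ?_ h
    · rintro b (⟨d, rfl⟩ | ⟨n, hn, rfl⟩)
      · apply Submodule.subset_span
        left
        refine ⟨d * il α i (MonoidAlgebra.domCongr F F (θ c) z'), ?_⟩
        rw [tr_tx α i Y z hz, mul_assoc, ← map_mul, ← map_mul, mul_comm z' z, hzz, map_one,
          map_one, mul_one]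
        rfl
      · obtain ⟨v, t, ht⟩ := Y.y1
        apply Submodule.subset_span
        right
        refine ⟨v, il α i t * n, (nx_mem α i θ Y c _).1 (il_mul_nx α i θ Y c n t hn), ?_⟩
        conv_lhs => rw [ht]
        rw [map_mul, map_sub, map_one, il_of, sub_mul, sub_mul, one_mul, mul_assoc]
    · exact Submodule.zero_mem _
    · intro b d _ _ hb hd
      exact Submodule.add_mem _ hb hd
    · intro r b _ hb
      exact Submodule.smul_mem _ _ hb
  · intro h
    refine Submodule.span_induction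
      (p := fun a _ => a ∈ Jx (il α i Y.y) l (Y.χ.comp θ) c) ?_ ?_ ?_ ?_ h
    · rintro b (⟨d, rfl⟩ | ⟨v, n, hn, rfl⟩)
      · apply Submodule.subset_span
        left
        exact ⟨_, tr_tx α i Y z hz (θ c) d⟩
      · obtain ⟨t, ht⟩ := Y.v1 v
        apply Submodule.subset_span
        right
        refine ⟨il α i t * n, il_mul_nx α i θ Y c n t ((nx_mem α i θ Y c n).2 hn), ?_⟩
        rw [← mul_assoc, ← map_mul, ← ht, map_sub, map_one, il_of, sub_mul, one_mul]
    · exact Submodule.zero_mem _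
    · intro b d _ _ hb hd
      exact Submodule.add_mem _ hb hd
    · intro r b _ hb
      exact Submodule.smul_mem _ _ hb

end two

section three

variable {F V V1 C A S : Type} [Field F] [CommGroup V] [CommGroup V1] [Fintype V1] [CommGroup C]
  [Fintype C] [Ring A] [Algebra F A] [Ring S] [Algebra F S] {α : V →* A} {i : V1 →* V}
  {θ : C →* MulAut V1} {q : C → (A →ₗ[F] S)}

/-- a chosen family -/
def fam (h : SG F α i θ q) (s : S) : C → A := (h.sur s).choose

theorem fam_mem (h : SG F α i θ q) (s : S) (c : C) : fam h s c ∈ Nt F α i (θ c) :=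
  (h.sur s).choose_spec.1 c

theorem fam_sum (h : SG F α i θ q) (s : S) : ∑ c, q c (fam h s c) = s :=
  (h.sur s).choose_spec.2

open Classical in
theorem single_mem (x : C) (a : A) (ha : a ∈ Nt F α i (θ x)) (c : C) :
    (Pi.single x a : C → A) c ∈ Nt F α i (θ c) := by
  by_cases hc : c = x
  · subst hc
    rw [Pi.single_eq_same]
    exact ha
  · rw [Pi.single_eq_of_ne hc]
    exact Submodule.zero_mem _

open Classical in
theorem single_sum (x : C) (a : A) : ∑ c, q c ((Pi.single x a : C → A) c) = q x a := by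
  rw [Finset.sum_eq_single x]
  · rw [Pi.single_eq_same]
  · intro c _ hc
    rw [Pi.single_eq_of_ne hc, map_zero]
  · intro hx
    exact absurd (Finset.mem_univ x) hx

open Classical in
theorem q_zero (h : SG F α i θ q) (x : C) (a : A) (ha : a ∈ Nt F α i (θ x)) :
    q x a = 0 ↔ a ∈ It F α i (θ x) := by
  have h1 := h.ker (Pi.single x a) (single_mem x a ha)
  rw [single_sum] at h1
  rw [h1]
  constructor
  · intro h2
    have h3 := h2 x
    rwa [Pi.single_eq_same] at h3
  · intro h2 c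
    by_cases hc : c = x
    · subst hc
      rw [Pi.single_eq_same]
      exact h2
    · rw [Pi.single_eq_of_ne hc]
      exact Submodule.zero_mem _

/-- uniqueness -/
theorem fam_uniq (h : SG F α i θ q) (s : S) (a : C → A) (ha : ∀ c, a c ∈ Nt F α i (θ c))
    (hs : ∑ c, q c (a c) = s) (x : C) : q x (fam h s x) = q x (a x) := by
  have h1 : ∑ c, q c (fam h s c - a c) = 0 := by
    simp only [map_sub, Finset.sum_sub_distrib]
    rw [fam_sum, hs, sub_self]
  have h2 : ∀ c, fam h s c - a c ∈ Nt F α i (θ c) := fun c =>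
    Submodule.sub_mem _ (fam_mem h s c) (ha c)
  have h3 := (h.ker _ h2).1 h1 x
  have h4 := (q_zero h x _ (h2 x)).2 h3
  rw [map_sub, sub_eq_zero] at h4
  exact h4

/-- the projection -/
def prj (h : SG F α i θ q) (x : C) : S →ₗ[F] S where
  toFun := fun s => q x (fam h s x)
  map_add' := by
    intro s s'
    rw [fam_uniq h (s + s') (fun c => fam h s c + fam h s' c)
      (fun c => Submodule.add_mem _ (fam_mem h s c) (fam_mem h s' c)), map_add]
    simp only [map_add, Finset.sum_add_distrib]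
    rw [fam_sum, fam_sum]
  map_smul' := by
    intro r s
    rw [fam_uniq h (r • s) (fun c => r • fam h s c)
      (fun c => Submodule.smul_mem _ _ (fam_mem h s c)), map_smul]
    · rfl
    · simp only [map_smul]
      rw [← Finset.smul_sum, fam_sum]

open Classical in
theorem prj_same (h : SG F α i θ q) (x : C) (a : A) (ha : a ∈ Nt F α i (θ x)) :
    prj h x (q x a) = q x a := by
  change q x (fam h (q x a) x) = q x a
  rw [fam_uniq h (q x a) (Pi.single x a) (single_mem x a ha) (single_sum x a), Pi.single_eq_same]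

open Classical in
theorem prj_ne (h : SG F α i θ q) (x x' : C) (hx : x ≠ x') (a : A)
    (ha : a ∈ Nt F α i (θ x')) : prj h x (q x' a) = 0 := by
  change q x (fam h (q x' a) x) = 0
  rw [fam_uniq h (q x' a) (Pi.single x' a) (single_mem x' a ha) (single_sum x' a),
    Pi.single_eq_of_ne hx, map_zero]

theorem prj_fam (h : SG F α i θ q) (x : C) (s : S) : prj h x s = q x (fam h s x) := rfl

end three

/-- Row SGY. -/
theorem sgy (caz : CazStmt) : SgyStmt := by
  intro F V V1 C A S _ _ _ _ _ _ _ _ _ _ α i θ q l Y hl h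
  obtain ⟨z, z', hzz, hz⟩ := caz F V1 l Y hl
  have hN : ∀ (c : C) (a : A), a ∈ Nx (il α i Y.y) (Y.χ.comp θ) c ↔ a ∈ Nt F α i (θ c) :=
    nx_mem α i θ Y
  have hJ : ∀ (c : C) (a : A), a ∈ Jx (il α i Y.y) l (Y.χ.comp θ) c ↔ a ∈ It F α i (θ c) :=
    it_jx α i θ Y z z' hzz hz
  have h1 : (1 : A) ∈ Nt F α i (θ 1) := (hN 1 1).1 (Nx_one _ _)
  refine ⟨{
    c := prj h
    cs := fun s => fam_sum h s
    ci := fun x s => prj_same h x _ (fam_mem h s x)
    co := fun x x' s hx => prj_ne h x x' hx _ (fam_mem h s x')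
    c1 := ?_
    cm := ?_
    p := fun x => (q x).comp (Nx (il α i Y.y) (Y.χ.comp θ) x).subtype
    pc := fun x a => prj_same h x _ ((hN x a).1 a.2)
    ps := fun x s => ⟨⟨fam h s x, (hN x _).2 (fam_mem h s x)⟩, rfl⟩
    ker := fun x a => (q_zero h x (a : A) ((hN x a).1 a.2)).trans (hJ x a).symm
    one := h.one
    mul := fun x x' a b => (h.mul x x' (a : A) ((hN x a).1 a.2) (b : A) ((hN x' b).1 b.2)).symm },
    fun c a => rfl⟩
  · have h2 := prj_same h 1 1 h1
    rwa [h.one] at h2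
  · intro x x' s s'
    have hm : fam h s x * fam h s' x' ∈ Nt F α i (θ (x * x')) :=
      (hN _ _).1 (Nx_mul ((hN _ _).2 (fam_mem h s x)) ((hN _ _).2 (fam_mem h s' x')))
    rw [prj_fam h x s, prj_fam h x' s', ← h.mul x x' _ (fam_mem h s x) _ (fam_mem h s' x')]
    exact prj_same h (x * x') _ hm

end Pool.Agent.PFE.H58
end
end -- Pool.Agent.Helper58_PFE.SGY

section -- Pool.Agent.Helper80_PFE.YFA

/-!
# Row YFA of squad PFE: the twisted part of the frame
-/

open scoped BigOperators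

namespace Pool.Agent.PFE.H80

open Pool.Agent.PFE MulOpposite
open Pool.Agent.PFC (tw)
open Pool.Agent.PFC.B1 (BiM)
open Pool.Agent.PFD.D2b (wrp)

section

variable {F V V1 A : Type} [Field F] [CommGroup V] [CommGroup V1] [Ring A] [Algebra F A]

theorem il_of (i : V1 →* V) (v : V1) :
    il (MonoidAlgebra.of F V) i (MonoidAlgebra.of F V1 v) = MonoidAlgebra.of F V (i v) := by
  unfold il
  rw [MonoidAlgebra.lift_of]
  rfl

theorem dom_of (σ : MulAut V1) (v : V1) :
    MonoidAlgebra.domCongr F F σ (MonoidAlgebra.of F V1 v) = MonoidAlgebra.of F V1 (σ v) := by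
  rw [MonoidAlgebra.of_apply, MonoidAlgebra.of_apply, MonoidAlgebra.domCongr_single]

theorem ext_of {M : Type} [AddCommGroup M] [Module F M] (f g : MonoidAlgebra F V1 →ₗ[F] M)
    (h : ∀ v, f (MonoidAlgebra.of F V1 v) = g (MonoidAlgebra.of F V1 v)) : f = g := by
  refine MonoidAlgebra.lhom_ext' fun v => LinearMap.ext fun r => ?_
  have e : MonoidAlgebra.lsingle (R := F) v r = r • MonoidAlgebra.of F V1 v := by
    rw [MonoidAlgebra.smul_of]
    rfl
  rw [LinearMap.comp_apply, LinearMap.comp_apply, e, map_smul, map_smul, h]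

/-- the linear extension of the twisted commutation -/
theorem tw_b (i : V1 →* V) (j : MonoidAlgebra F V →ₐ[F] A) (σ : MulAut V1) (m : A)
    (h : ∀ v : V1, j (MonoidAlgebra.of F V (i (σ v))) * m = m * j (MonoidAlgebra.of F V (i v)))
    (γ : MonoidAlgebra F V1) :
    j (il (MonoidAlgebra.of F V) i (MonoidAlgebra.domCongr F F σ γ)) * m =
      m * j (il (MonoidAlgebra.of F V) i γ) := by
  have e := ext_of
    ((LinearMap.mulRight F m) ∘ₗ j.toLinearMap ∘ₗ (il (MonoidAlgebra.of F V) i).toLinearMap ∘ₗ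
      (MonoidAlgebra.domCongr F F σ).toLinearMap)
    ((LinearMap.mulLeft F m) ∘ₗ j.toLinearMap ∘ₗ (il (MonoidAlgebra.of F V) i).toLinearMap)
    (fun v => by
      change j (il (MonoidAlgebra.of F V) i (MonoidAlgebra.domCongr F F σ
        (MonoidAlgebra.of F V1 v))) * m = m * j (il (MonoidAlgebra.of F V) i
          (MonoidAlgebra.of F V1 v))
      rw [dom_of, il_of, il_of, h])
  exact LinearMap.congr_fun e γ

/-- the linear extension of the twisted commutation, functionals -/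
theorem tw_d (i : V1 →* V) (j : MonoidAlgebra F V →ₐ[F] A) (σ : MulAut V1) (d : A →ₗ[F] F)
    (h : ∀ (v : V1) (a : A), d (j (MonoidAlgebra.of F V (i (σ v))) * a) =
      d (a * j (MonoidAlgebra.of F V (i v))))
    (γ : MonoidAlgebra F V1) (a : A) :
    d (j (il (MonoidAlgebra.of F V) i (MonoidAlgebra.domCongr F F σ γ)) * a) =
      d (a * j (il (MonoidAlgebra.of F V) i γ)) := by
  have e := ext_of
    (d ∘ₗ (LinearMap.mulRight F a) ∘ₗ j.toLinearMap ∘ₗ
      (il (MonoidAlgebra.of F V) i).toLinearMap ∘ₗ (MonoidAlgebra.domCongr F F σ).toLinearMap)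
    (d ∘ₗ (LinearMap.mulLeft F a) ∘ₗ j.toLinearMap ∘ₗ
      (il (MonoidAlgebra.of F V) i).toLinearMap)
    (fun v => by
      change d (j (il (MonoidAlgebra.of F V) i (MonoidAlgebra.domCongr F F σ
        (MonoidAlgebra.of F V1 v))) * a) = d (a * j (il (MonoidAlgebra.of F V) i
          (MonoidAlgebra.of F V1 v)))
      rw [dom_of, il_of, il_of, h])
  exact LinearMap.congr_fun e γ

theorem stab_smul {Om : Type} [MulAction (V × V) Om] (w : V × V) (ω : Om) :
    MulAction.stabilizer (V × V) (w • ω) = MulAction.stabilizer (V × V) ω := by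
  ext g
  rw [MulAction.mem_stabilizer_iff, MulAction.mem_stabilizer_iff, smul_smul, mul_comm,
    ← smul_smul]
  exact smul_left_cancel_iff w

end

theorem yfa (hO : OrbStmt) (hC : CazStmt) : YfaStmt := by
  classical
  intro F V E V1 C A Om _ _ _ _ _ _ _ _ _ _ _ φ i W _ l Y G θ j b d hl hi hPW hPW' hW hθ hGy
    hGom hb hd hst
  set ι := MonoidAlgebra.of F V with hι
  -- the stabilisers
  have hmem : ∀ ω : Om, ∃ e : E, (∀ g : V × V, g • ω = ω → g.1 = φ e g.2) ∧
      ∀ p : V, p ∈ i.range → ((φ e p, p) : V × V) • ω = ω := by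
    intro ω
    obtain ⟨e, R, hR, hs⟩ := hst ω
    refine ⟨e, fun g hg => ?_, fun p hp => ?_⟩
    · have h1 : g ∈ MulAction.stabilizer (V × V) ω := hg
      rw [hs] at h1
      obtain ⟨r, -, hr⟩ := h1
      rw [← hr]
      rfl
    · have h1 : ((φ e p, p) : V × V) ∈ MulAction.stabilizer (V × V) ω := by
        rw [hs]
        exact ⟨p, hR hp, rfl⟩
      exact h1
  have hφP : ∀ (e : E) (p : V), p ∈ i.range → φ e p ∈ i.range := by
    rintro e _ ⟨v, rfl⟩
    obtain ⟨c, hc⟩ := hθ e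
    exact ⟨θ c v, (hc v).symm⟩
  obtain ⟨Θ, hA, hB, hCc⟩ := hO V Om i.range W hPW' (by
    intro ω a b' ha1 ha2 hb1 hb2 hab
    obtain ⟨e, he, hp⟩ := hmem ω
    have h1 := he _ hab
    simp only [Prod.fst_mul, Prod.snd_mul, map_mul] at h1
    have h2 : a.1 * (φ e a.2)⁻¹ = φ e b'.2 * b'.1⁻¹ := by
      rw [mul_inv_eq_iff_eq_mul, mul_assoc, mul_comm _ (φ e a.2), ← mul_assoc,
        mul_comm _ (φ e a.2), ← h1]
      group
    have h3 : a.1 * (φ e a.2)⁻¹ ∈ i.range ⊓ W := by
      refine ⟨i.range.mul_mem ha1 (i.range.inv_mem (hφP e _ ha2)), ?_⟩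
      rw [h2]
      exact W.mul_mem (hW e _ hb2) (W.inv_mem hb1)
    rw [hPW, Subgroup.mem_bot, mul_inv_eq_one] at h3
    have h4 : a = (φ e a.2, a.2) := Prod.ext h3 rfl
    rw [h4]
    exact hp _ ha2)
  obtain ⟨z0, z0', hz0, hz⟩ := hC F V1 l Y hl
  set J : MonoidAlgebra F V1 →ₐ[F] MonoidAlgebra F V := il ι i with hJ
  -- the degree
  let P0 : Subgroup (V × V) → C → Prop := fun S c => ∀ v, ((i (θ c v), i v) : V × V) ∈ S
  let cc : Subgroup (V × V) → C := fun S => if h : ∃ c, P0 S c then h.choose else 1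
  have hcc : ∀ ω : Om, P0 (MulAction.stabilizer (V × V) ω)
      (cc (MulAction.stabilizer (V × V) ω)) := by
    intro ω
    have hex : ∃ c, P0 (MulAction.stabilizer (V × V) ω) c := by
      obtain ⟨e, -, hp⟩ := hmem ω
      obtain ⟨c, hc⟩ := hθ e
      refine ⟨c, fun v => ?_⟩
      rw [← hc v]
      exact hp (i v) ⟨v, rfl⟩
    change P0 _ (if h : ∃ c, P0 (MulAction.stabilizer (V × V) ω) c then h.choose else 1)
    rw [dif_pos hex]
    exact hex.choose_spec
  let dg : Om → C := fun ω => (cc (MulAction.stabilizer (V × V) ω))⁻¹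
  have hχ : ∀ ω, Y.χ (θ (dg ω)) * Y.χ (θ (dg ω)⁻¹) = 1 := by
    intro ω
    rw [← map_mul, ← map_mul, mul_inv_cancel, map_one, map_one]
  have hfix : ∀ (ω : Om) (v : V1), ((i (θ (dg ω)⁻¹ v), i v) : V × V) • ω = ω := by
    intro ω v
    have h := hcc ω v
    change _ ∈ MulAction.stabilizer (V × V) ω
    change ((i (θ ((cc (MulAction.stabilizer (V × V) ω))⁻¹)⁻¹ v), i v) : V × V) ∈ _
    rw [inv_inv]
    exact h
  have hιinv : ∀ v : V, j (ι v⁻¹) * j (ι v) = 1 := by
    intro v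
    rw [← map_mul, ← map_mul, inv_mul_cancel, map_one, map_one]
  have k1 : ∀ ω, Y.χ (θ (dg ω)⁻¹) • (j G.y * b ω) = b ω * j G.y := by
    intro ω
    have h := tw_b i j (θ (dg ω)⁻¹) (b ω) (fun v => by
      have h1 := hb ((i (θ (dg ω)⁻¹ v), i v) : V × V) ω
      rw [hfix ω v] at h1
      calc j (ι (i (θ (dg ω)⁻¹ v))) * b ω
          = j (ι (i (θ (dg ω)⁻¹ v))) * b ω * (j (ι (i v)⁻¹) * j (ι (i v))) := by
            rw [hιinv, mul_one]
        _ = j (ι (i (θ (dg ω)⁻¹ v))) * b ω * j (ι (i v)⁻¹) * j (ι (i v)) := by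
            rw [mul_assoc (j (ι (i (θ (dg ω)⁻¹ v))) * b ω)]
        _ = b ω * j (ι (i v)) := by rw [← h1]) Y.y
    rw [Y.ye, map_smul, map_smul, smul_mul_assoc] at h
    rw [hGy]
    exact h
  have k2 : ∀ ω a, Y.χ (θ (dg ω)⁻¹) * d ω (j G.y * a) = d ω (a * j G.y) := by
    intro ω a
    have h := tw_d i j (θ (dg ω)⁻¹) (d ω) (fun v a => by
      have h1 := hd ((i (θ (dg ω)⁻¹ v), i v) : V × V) ω (a * j (ι (i v)))
      rw [hfix ω v] at h1
      rw [← h1]
      congr 1
      calc j (ι (i (θ (dg ω)⁻¹ v))) * a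
          = j (ι (i (θ (dg ω)⁻¹ v))) * a * (j (ι (i v)) * j (ι (i v)⁻¹)) := by
            rw [← map_mul, ← map_mul, mul_inv_cancel, map_one, map_one, mul_one]
        _ = _ := by simp only [mul_assoc]) Y.y a
    rw [Y.ye, map_smul, map_smul, smul_mul_assoc, map_smul, smul_eq_mul] at h
    rw [hGy]
    exact h
  let act : MulAction (W × W) {ω // ω ∈ Θ} :=
    { smul := fun w o => ⟨(((w.1 : V), (w.2 : V)) : V × V) • o.1, hA o.1 o.2 _ w.1.2 w.2.2⟩
      one_smul := fun o => Subtype.ext (one_smul (V × V) o.1)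
      mul_smul := fun w w' o => Subtype.ext (by
        change ((((w * w').1 : V), ((w * w').2 : V)) : V × V) • o.1 =
          (((w.1 : V), (w.2 : V)) : V × V) • (((w'.1 : V), (w'.2 : V)) : V × V) • o.1
        rw [smul_smul]
        rfl) }
  let act' : MulAction (W × W) Empty :=
    { smul := fun _ o => o
      one_smul := fun _ => rfl
      mul_smul := fun _ _ _ => rfl }
  have hact : ∀ (w : W × W) (o : {ω // ω ∈ Θ}),
      (w • o).1 = (((w.1 : V), (w.2 : V)) : V × V) • o.1 := fun _ _ => rfl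
  have hlm : ∀ γ a, (AB j).lm γ a = j γ * a := fun _ _ => rfl
  have hrm : ∀ γ a, (AB j).rm (op γ) a = a * j γ := fun _ _ => rfl
  have hwrp : ∀ (w : W × W) (a : A), wrp G.om (AB j) w a =
      j (ι (w.1 : V)) * (a * j (ι (w.2 : V)⁻¹)) := by
    intro w a
    change j (G.om w.1) * (a * j (G.om w.2⁻¹)) = _
    rw [hGom, hGom]
    rfl
  refine ⟨{ω // ω ∈ Θ}, Empty, inferInstance, inferInstance, act, act', ⟨{
    deg := fun o => dg o.1
    dg := fun w o => ?_
    fo := fun w o h => ?_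
    fo' := fun w o => o.elim
    g := fun o => b o.1
    gw := fun w o => ?_
    gy := fun o => ?_
    c := fun o => (d o.1).comp (LinearMap.mulLeft F (j (J z0)))
    cw := fun w o n => ?_
    cy := fun o n => ?_
    h := fun o => o.elim
    hw := fun w o => o.elim
    d := fun o => o.elim
    dw := fun w o => o.elim
    fr := fun n => ?_ }⟩⟩
  · change (cc (MulAction.stabilizer (V × V) (w • o).1))⁻¹ =
      (cc (MulAction.stabilizer (V × V) o.1))⁻¹
    rw [hact, stab_smul]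
  · have h1 : (((1 : V), (w : V)) : V × V) • o.1 = o.1 := congrArg Subtype.val h
    obtain ⟨e, he, -⟩ := hmem o.1
    have h2 : (1 : V) = φ e (w : V) := he _ h1
    have h3 : (w : V) = 1 := (MulEquiv.map_eq_one_iff (φ e)).mp h2.symm
    exact Subtype.ext h3
  · rw [hact, hb, hwrp, mul_assoc]
  · change (AB j).lm G.y (b o.1) = Y.χ (θ (dg o.1)) • (AB j).rm (op G.y) (b o.1)
    rw [hlm, hrm, ← k1, smul_smul, hχ, one_smul]
  · change d (w • o).1 (j (J z0) * wrp G.om (AB j) w n) = d o.1 (j (J z0) * n)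
    rw [hact, hwrp]
    have e : j (J z0) * (j (ι (w.1 : V)) * (n * j (ι (w.2 : V)⁻¹))) =
        j (ι (w.1 : V)) * (j (J z0) * n) * j (ι (w.2 : V)⁻¹) := by
      rw [← mul_assoc (j (J z0)), ← map_mul, mul_comm (J z0), map_mul]
      simp only [mul_assoc]
    rw [e]
    exact hd (((w.1 : V), (w.2 : V)) : V × V) o.1 (j (J z0) * n)
  · change d o.1 (j (J z0) * (j G.y * n)) = Y.χ (θ (dg o.1)) * d o.1 (j (J z0) * (n * j G.y))
    have e : j (J z0) * (j G.y * n) = j G.y * (j (J z0) * n) := by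
      rw [← mul_assoc, ← map_mul, mul_comm (J z0), map_mul, mul_assoc]
    rw [e]
    calc d o.1 (j G.y * (j (J z0) * n))
        = Y.χ (θ (dg o.1)) * Y.χ (θ (dg o.1)⁻¹) * d o.1 (j G.y * (j (J z0) * n)) := by
          rw [hχ, one_mul]
      _ = Y.χ (θ (dg o.1)) * d o.1 (j (J z0) * n * j G.y) := by
          rw [mul_assoc, k2]
      _ = _ := by rw [mul_assoc (j (J z0))]
  · rw [Finset.univ_eq_empty (α := Empty), Finset.sum_empty, add_zero, LinearMap.sum_apply]
    simp only [LinearMap.smulRight_apply]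
    have hbij : Function.Bijective (fun p : V1 × {ω // ω ∈ Θ} =>
        (((i p.1 : V), (1 : V)) : V × V) • p.2.1) := by
      constructor
      · rintro ⟨v, o⟩ ⟨v', o'⟩ h
        simp only at h
        have h1 : ((i (v'⁻¹ * v), (1 : V)) : V × V) • o.1 = o'.1 := by
          have h2 := congrArg (fun x => ((i v'⁻¹, (1 : V)) : V × V) • x) h
          simp only [smul_smul, Prod.mk_mul_mk, mul_one, ← map_mul, inv_mul_cancel, map_one] at h2
          rw [h2]
          exact one_smul (V × V) o'.1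
        have h2 : ((i (v'⁻¹ * v), (1 : V)) : V × V) • o.1 = o.1 := by
          refine hCc o.1 o.2 _ ⟨_, rfl⟩ i.range.one_mem ?_
          rw [h1]
          exact o'.2
        obtain ⟨e, he, -⟩ := hmem o.1
        have h3 : i (v'⁻¹ * v) = φ e 1 := he _ h2
        rw [map_one, ← map_one i] at h3
        have h4 : v = v' := (inv_mul_eq_one.mp (hi h3)).symm
        have h5 : o = o' := Subtype.ext (h2.symm.trans h1)
        rw [h4, h5]
      · intro ω
        obtain ⟨a, ha1, ha2, ha⟩ := hB ω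
        obtain ⟨e, -, hp⟩ := hmem (a • ω)
        obtain ⟨v, hv⟩ : a.1⁻¹ * φ e a.2 ∈ i.range :=
          i.range.mul_mem (i.range.inv_mem ha1) (hφP e _ ha2)
        refine ⟨(v, ⟨a • ω, ha⟩), ?_⟩
        change ((i v, (1 : V)) : V × V) • a • ω = ω
        have h1 : ((i v, (1 : V)) : V × V) = a⁻¹ * (φ e a.2, a.2) := by
          refine Prod.ext hv ?_
          change (1 : V) = a.2⁻¹ * a.2
          rw [inv_mul_cancel]
        rw [h1, ← smul_smul, hp _ ha2, inv_smul_smul]
    rw [← hbij.sum_comp, Fintype.sum_prod_type_right]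
    refine Finset.sum_congr rfl fun o _ => ?_
    let β : MonoidAlgebra F V1 →ₗ[F] MonoidAlgebra F V1 →ₗ[F] A :=
      LinearMap.mk₂ F (fun γ1 γ2 => d o.1 (j (J γ2) * n) • (j (J γ1) * b o.1))
        (fun γ γ' γ2 => by simp only [map_add, add_mul, smul_add])
        (fun r γ γ2 => by
          simp only [map_smul, smul_mul_assoc]
          rw [smul_comm])
        (fun γ γ2 γ2' => by simp only [map_add, add_mul, add_smul])
        (fun r γ γ2 => by
          simp only [map_smul, smul_mul_assoc, smul_eq_mul, mul_smul])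
    have hβ : ∀ γ1 γ2, β γ1 γ2 = d o.1 (j (J γ2) * n) • (j (J γ1) * b o.1) := fun _ _ => rfl
    have h1 := hz A β
    simp only [hβ] at h1
    have hleft : ∀ v : V1, d ((((i v : V), (1 : V)) : V × V) • o.1) n •
        b ((((i v : V), (1 : V)) : V × V) • o.1) =
        d o.1 (j (J (MonoidAlgebra.of F V1 v⁻¹)) * n) •
          (j (J (MonoidAlgebra.of F V1 v)) * b o.1) := by
      intro v
      rw [hJ, il_of, il_of, hb]
      have h2 := hd ((i v, (1 : V)) : V × V) o.1 (j (ι (i v⁻¹)) * n)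
      have h3 : j (ι (((i v, (1 : V)) : V × V).1)) * (j (ι (i v⁻¹)) * n) *
          j (ι (((i v, (1 : V)) : V × V).2)⁻¹) = n := by
        simp only [inv_one, map_one, mul_one]
        rw [← mul_assoc, ← map_mul, ← map_mul, ← map_mul, mul_inv_cancel, map_one, map_one,
          map_one, one_mul]
      rw [h3] at h2
      rw [h2]
      simp only [inv_one, map_one, mul_one]
      rfl
    rw [Finset.sum_congr rfl fun v _ => hleft v, h1]
    refine Finset.sum_congr rfl fun k _ => ?_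
    change d o.1 (j (J z0) * (AB j).lm (G.y ^ (l - 1 - k)) n) • (AB j).lm (G.y ^ k) (b o.1) = _
    have e1 : j (J (z0 * Y.y ^ (l - 1 - k))) = j (J z0) * j (G.y ^ (l - 1 - k)) := by
      rw [hGy, map_mul J, map_mul j, map_pow J]
    have e2 : j (J (Y.y ^ k)) = j (G.y ^ k) := by
      rw [hGy, map_pow J]
    rw [hlm, hlm, e1, e2, mul_assoc (j (J z0))]

end Pool.Agent.PFE.H80
end -- Pool.Agent.Helper80_PFE.YFA

section -- Pool.Agent.Helper84_PFE.SG1

/-! Squad PFE, row SG1: the part of degree `1` of the local algebra at `y`. -/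

set_option autoImplicit false

open scoped BigOperators

noncomputable section

namespace Pool.Agent.PFE.H84

section gen

variable {F A X X' S S' : Type} [Field F] [Ring A] [Algebra F A] [Group X] [Fintype X]
  [Group X'] [Fintype X'] [Ring S] [Algebra F S] [Ring S'] [Algebra F S'] {y : A} {l : ℕ}
  {χ : X →* F} {χ' : X' →* F}

theorem mem_N (a : A) : a ∈ Subalgebra.centralizer F {y} ↔ y * a = a * y := by
  rw [Subalgebra.mem_centralizer_iff]
  constructor
  · intro h
    exact h y rfl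
  · rintro h g rfl
    exact h

omit [Fintype X] in
theorem mem_Nx (χ : X →* F) (a : A) (h : a ∈ Subalgebra.centralizer F {y}) :
    a ∈ Nx y χ 1 := by
  show y * a = χ 1 • (a * y)
  rw [map_one, one_smul]
  exact (mem_N a).mp h

theorem p_cong (L : LS F A X S y l χ) {x x' : X} (e : x = x') (a : A) (h : a ∈ Nx y χ x)
    (h' : a ∈ Nx y χ x') : L.p x ⟨a, h⟩ = L.p x' ⟨a, h'⟩ := by
  subst e
  rfl

/-- the homomorphism of the centraliser of `y` to the part of degree `1` -/
def fN (L : LS F A X S y l χ) : Subalgebra.centralizer F {y} →ₐ[F] L.toGS.S1 :=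
  AlgHom.ofLinearMap
    { toFun := fun a => ⟨L.p 1 ⟨a, mem_Nx χ (a : A) a.2⟩, L.pc 1 _⟩
      map_add' := fun a b => Subtype.ext (by
        show L.p 1 ⟨(a : A) + b, _⟩ = L.p 1 ⟨a, _⟩ + L.p 1 ⟨b, _⟩
        rw [← map_add]
        rfl)
      map_smul' := fun r a => Subtype.ext (by
        show L.p 1 ⟨r • (a : A), _⟩ = r • L.p 1 ⟨a, _⟩
        rw [← map_smul]
        rfl) }
    (Subtype.ext L.one)
    (fun a b => Subtype.ext (by
      show L.p 1 ⟨(a : A) * b, _⟩ = L.p 1 ⟨a, _⟩ * L.p 1 ⟨b, _⟩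
      rw [L.mul]
      exact p_cong L (mul_one 1).symm _ _ _))

theorem fN_surj (L : LS F A X S y l χ) : Function.Surjective (fN L) := by
  rintro ⟨s, hs⟩
  obtain ⟨a, ha⟩ := L.ps 1 s
  have h1 : y * (a : A) = χ 1 • ((a : A) * y) := a.2
  rw [map_one, one_smul] at h1
  refine ⟨⟨a, (mem_N _).mpr h1⟩, Subtype.ext ?_⟩
  show L.p 1 ⟨(a : A), _⟩ = s
  have h2 : L.p 1 ⟨(a : A), mem_Nx χ (a : A) ((mem_N _).mpr h1)⟩ = L.p 1 a := rfl
  rw [h2, ha]
  exact hs

theorem fN_ker (L : LS F A X S y l χ) (L' : LS F A X' S' y l χ')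
    (a : Subalgebra.centralizer F {y}) : fN L a = 0 ↔ fN L' a = 0 := by
  have h1 : fN L a = 0 ↔ (a : A) ∈ Jx y l χ 1 := by
    rw [← L.ker 1 ⟨a, mem_Nx χ (a : A) a.2⟩, Subtype.ext_iff]
    rfl
  have h2 : fN L' a = 0 ↔ (a : A) ∈ Jx y l χ' 1 := by
    rw [← L'.ker 1 ⟨a, mem_Nx χ' (a : A) a.2⟩, Subtype.ext_iff]
    rfl
  have h3 : Jx y l χ 1 = Jx y l χ' 1 := by
    have h4 : ∀ n : A, n ∈ Nx y χ 1 ↔ n ∈ Nx y χ' 1 := by
      intro n
      show y * n = χ 1 • (n * y) ↔ y * n = χ' 1 • (n * y)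
      rw [map_one, map_one]
    unfold Jx
    rw [map_one, map_one]
    congr 1
    ext b
    simp only [Set.mem_ofPred_eq, h4]
  rw [h1, h2, h3]

theorem one_part (L : LS F A X S y l χ) (L' : LS F A X' S' y l χ') :
    Nonempty (L.toGS.S1 ≃ₐ[F] L'.toGS.S1) := by
  have ex : ∀ s : L.toGS.S1, ∃ t : L'.toGS.S1, ∃ a, fN L a = s ∧ fN L' a = t := by
    intro s
    obtain ⟨a, ha⟩ := fN_surj L s
    exact ⟨fN L' a, a, ha, rfl⟩
  choose g hg using ex
  have key : ∀ a, g (fN L a) = fN L' a := by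
    intro a
    obtain ⟨b, hb1, hb2⟩ := hg (fN L a)
    have h1 : fN L (b - a) = 0 := by rw [map_sub, hb1, sub_self]
    have h2 := (fN_ker L L' _).mp h1
    rw [map_sub, hb2, sub_eq_zero] at h2
    exact h2
  let G : L.toGS.S1 →ₐ[F] L'.toGS.S1 := AlgHom.ofLinearMap
    { toFun := g
      map_add' := by
        intro s t
        obtain ⟨a, rfl⟩ := fN_surj L s
        obtain ⟨b, rfl⟩ := fN_surj L t
        rw [← map_add, key, key, key, map_add]
      map_smul' := by
        intro r s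
        obtain ⟨a, rfl⟩ := fN_surj L s
        rw [← map_smul, key, key, map_smul, RingHom.id_apply] }
    (by
      show g 1 = 1
      rw [← map_one (fN L), key, map_one])
    (by
      intro s t
      obtain ⟨a, rfl⟩ := fN_surj L s
      obtain ⟨b, rfl⟩ := fN_surj L t
      show g (fN L a * fN L b) = g (fN L a) * g (fN L b)
      rw [← map_mul, key, key, key, map_mul])
  have hG : ∀ s, G s = g s := fun s => rfl
  refine ⟨AlgEquiv.ofBijective G ⟨?_, ?_⟩⟩
  · rw [injective_iff_map_eq_zero]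
    intro s hs
    obtain ⟨a, rfl⟩ := fN_surj L s
    rw [hG, key] at hs
    exact (fN_ker L L' _).mpr hs
  · intro t
    obtain ⟨a, rfl⟩ := fN_surj L' t
    exact ⟨fN L a, (hG _).trans (key a)⟩

theorem center_eq {B B' : Type} [Ring B] [Algebra F B] [Ring B'] [Algebra F B']
    (e : B ≃ₐ[F] B') :
    Module.finrank F (Subalgebra.center F B) = Module.finrank F (Subalgebra.center F B') := by
  have h1 : (Subalgebra.toSubmodule (Subalgebra.center F B)).map
      (e.toLinearEquiv : B →ₗ[F] B') = Subalgebra.toSubmodule (Subalgebra.center F B') := by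
    ext b
    rw [Submodule.mem_map, Subalgebra.mem_toSubmodule, Subalgebra.mem_center_iff]
    constructor
    · rintro ⟨a, ha, rfl⟩ c
      rw [Subalgebra.mem_toSubmodule, Subalgebra.mem_center_iff] at ha
      show c * e a = e a * c
      rw [← e.apply_symm_apply c, ← map_mul, ← map_mul, ha]
    · intro h
      refine ⟨e.symm b, ?_, e.apply_symm_apply b⟩
      rw [Subalgebra.mem_toSubmodule, Subalgebra.mem_center_iff]
      intro c
      apply e.injective
      rw [map_mul, map_mul, e.apply_symm_apply, h]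
  have h2 := LinearEquiv.finrank_map_eq e.toLinearEquiv
    (Subalgebra.toSubmodule (Subalgebra.center F B))
  rw [h1] at h2
  exact h2.symm

end gen

theorem sg1 (sgy : SgyStmt) : Sg1Stmt := by
  intro F V V1 C A S S0 _ _ _ _ _ _ _ _ _ _ _ _ α i θ q0 l Y L hl hq0
  obtain ⟨L0, -⟩ := sgy F V V1 Unit A S0 α i (1 : Unit →* MulAut V1) q0 l Y hl hq0
  obtain ⟨e⟩ := one_part L0 L
  have h1 : L0.toGS.S1 = ⊤ := by
    rw [eq_top_iff]
    intro s _
    have h2 := L0.cs s
    rw [Fintype.sum_unique] at h2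
    exact h2
  have e0 : S0 ≃ₐ[F] L0.toGS.S1 :=
    (Subalgebra.topEquiv.symm : S0 ≃ₐ[F] (⊤ : Subalgebra F S0)).trans
      (Subalgebra.equivOfEq _ _ h1.symm)
  exact center_eq (e0.trans e)

end Pool.Agent.PFE.H84
end
end -- Pool.Agent.Helper84_PFE.SG1
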