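import Pool.Agent.Helper12_AWB.B029

/-!
# Merged copies (generated) of the modules

* `Pool.Agent.Helper13_PFD.EQF`
* `Pool.Agent.Helper20_PFE.KEF`
* `Pool.Agent.Helper35_PFD.BFS`
* `Pool.Agent.Helper39_PSS.UNJ`
* `Pool.Agent.Helper63_PSS.PSC`
* `Pool.Agent.Helper49_PFD.FPF`
* `Pool.Agent.Helper67_PSS.DFM`
* `Pool.Agent.Helper68_PFD.CNR`
* `Pool.Agent.PST.Dzw`
* `Pool.Agent.Helper23_PFE.YFP`
* `Pool.Agent.Helper32_PFE.BS1`
* `Pool.Agent.Helper41_PFE.BYD`
* `Pool.Agent.Helper44_PFE.WFX`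
* `Pool.Agent.Helper41_PSS.DZD`
* `Pool.Agent.Helper81_PSS.BVL`
-/

set_option autoImplicit false

section -- Pool.Agent.Helper13_PFD.EQF

/-! Squad PFD, row EQF (helper13): maps which are equivariant modulo `p` lift. -/

set_option autoImplicit false

namespace Pool.Agent.PFD.D2b.H13

open Pool.Agent.PFD.D2 Pool.Agent.PFD.D2b

theorem eqf : EqfStmt := by
  classical
  intro R G N Ω _ _ _ _ _ ρ p hF m hm
  let r : MulAction.orbitRel.Quotient G Ω → Ω := fun q => Quotient.out q
  have hn : ∀ q : MulAction.orbitRel.Quotient G Ω, ∃ n : N,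
      (∀ s ∈ MulAction.stabilizer G (r q), ρ s n = n) ∧ ∃ x, n - m (r q) = p • x := by
    intro q
    refine hF (MulAction.stabilizer G (r q)) (m (r q)) fun s hs => ?_
    obtain ⟨x, hx⟩ := hm s (r q)
    rw [MulAction.mem_stabilizer_iff.mp hs] at hx
    exact ⟨-x, by rw [smul_neg, ← hx]; abel⟩
  choose n hn1 hn2 using hn
  have hg : ∀ ω : Ω, ∃ g : G, g • r (Quotient.mk (MulAction.orbitRel G Ω) ω) = ω := by
    intro ω
    have h1 : (MulAction.orbitRel G Ω).r (r (Quotient.mk (MulAction.orbitRel G Ω) ω)) ω :=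
      Quotient.mk_out (s := MulAction.orbitRel G Ω) ω
    have h2 : (MulAction.orbitRel G Ω).r ω (r (Quotient.mk (MulAction.orbitRel G Ω) ω)) :=
      (MulAction.orbitRel G Ω).symm h1
    have h3 : ω ∈ MulAction.orbit G (r (Quotient.mk (MulAction.orbitRel G Ω) ω)) :=
      MulAction.orbitRel_apply.mp h2
    exact h3
  choose g hg using hg
  have hq : ∀ (h : G) (ω : Ω), Quotient.mk (MulAction.orbitRel G Ω) (h • ω) =
      Quotient.mk (MulAction.orbitRel G Ω) ω := by
    intro h ω
    refine Quotient.sound (s := MulAction.orbitRel G Ω) ?_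
    exact MulAction.mem_orbit ω h
  refine ⟨fun ω => ρ (g ω) (n (Quotient.mk (MulAction.orbitRel G Ω) ω)), ?_, ?_⟩
  · intro h ω
    show ρ (g (h • ω)) (n (Quotient.mk (MulAction.orbitRel G Ω) (h • ω))) =
      ρ h (ρ (g ω) (n (Quotient.mk (MulAction.orbitRel G Ω) ω)))
    rw [hq]
    have h1 : (h * g ω)⁻¹ * g (h • ω) ∈
        MulAction.stabilizer G (r (Quotient.mk (MulAction.orbitRel G Ω) ω)) := by
      rw [MulAction.mem_stabilizer_iff, mul_smul]
      have h2 := hg (h • ω)
      rw [hq] at h2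
      rw [h2, inv_smul_eq_iff, mul_smul, hg]
    have h2 := hn1 _ _ h1
    have h3 : g (h • ω) = (h * g ω) * ((h * g ω)⁻¹ * g (h • ω)) := by
      rw [mul_inv_cancel_left]
    rw [h3, map_mul ρ, map_mul ρ h]
    show ρ h (ρ (g ω) (ρ ((h * g ω)⁻¹ * g (h • ω)) _)) = _
    rw [h2]
  · intro ω
    obtain ⟨x, hx⟩ := hn2 (Quotient.mk (MulAction.orbitRel G Ω) ω)
    obtain ⟨y, hy⟩ := hm (g ω) (r (Quotient.mk (MulAction.orbitRel G Ω) ω))
    rw [hg] at hy
    refine ⟨ρ (g ω) x - y, ?_⟩
    rw [smul_sub, ← hy, ← map_smul, ← hx, map_sub]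
    abel

end Pool.Agent.PFD.D2b.H13
end -- Pool.Agent.Helper13_PFD.EQF

section -- Pool.Agent.Helper20_PFE.KEF

/-! Squad PFE, row KEF: families which are equivariant (and twisted) modulo `p` lift. -/

set_option autoImplicit false

namespace Pool.Agent.PFE.H20

open MulOpposite
open Pool.Agent.PFC.B1 (BiM)
open Pool.Agent.PFD.D2b (wrp FPl)

theorem kef (hY : YfpStmt) (hK : KexStmt) : KefStmt := by
  intro R Γ W N X Ω Ω' H I _ _ _ _ _ _ _ _ _ _ _ _ _ _ l G χ B Fr π deg p m hl hχ hu hdeg hm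
  have hF : FPl p ((wrp G.om B).comp π) := by
    intro S n hn
    obtain ⟨m0, h1, h2⟩ := hY R Γ W N X Ω Ω' l G χ B Fr p (S.map π) n (by
      rintro _ ⟨s, hs, rfl⟩
      exact hn s hs)
    exact ⟨m0, fun s hs => h1 (π s) ⟨s, hs, rfl⟩, h2⟩
  obtain ⟨m', h1, h2⟩ := Pool.Agent.PFD.D2b.H13.eqf R H N I ((wrp G.om B).comp π) p hF m hm
  have hex : ∃ m' : I → N, (∀ (h : H) (i : I), m' (h • i) = wrp G.om B (π h) (m' i)) ∧
      ∀ i, ∃ x, m' i - m i = p • x := ⟨m', h1, h2⟩
  refine ⟨hex, fun htw => ?_⟩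
  choose κ hκ1 hκ2 hκ3 using hK R Γ W N X Ω Ω' l G χ B Fr hl hχ hu
  refine ⟨fun i => κ (deg i) (m' i), ?_, ?_, ?_⟩
  · intro h i
    show κ (deg (h • i)) (m' (h • i)) = _
    rw [hdeg, h1 h i]
    exact hκ1 (deg i) (π h) (m' i)
  · intro i
    exact hκ2 (deg i) (m' i)
  · intro i
    obtain ⟨x, hx⟩ := h2 i
    obtain ⟨y, hy⟩ := htw i
    have h3 : ∃ z, B.lm G.y (m' i) - χ (deg i) • B.rm (op G.y) (m' i) = p • z := by
      have e : m' i = m i + p • x := by rw [← hx]; abel
      refine ⟨y + (B.lm G.y x - χ (deg i) • B.rm (op G.y) x), ?_⟩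
      rw [e, map_add, map_add, map_smul, map_smul, smul_add, smul_add, ← hy, smul_sub,
        smul_comm (χ (deg i)) p]
      abel
    obtain ⟨z, hz⟩ := hκ3 (deg i) p (m' i) h3
    refine ⟨z + x, ?_⟩
    rw [smul_add, ← hz, ← hx]
    abel

end Pool.Agent.PFE.H20
end -- Pool.Agent.Helper20_PFE.KEF

section -- Pool.Agent.Helper35_PFD.BFS

/-! PFD, rows BFS and CNK: base change of a Frobenius system, ranks of centres. -/

set_option autoImplicit false

open scoped TensorProduct

namespace Pool.Agent.PFD.D4.H35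

open Pool.Agent.PFC.B1 (FS)

theorem bfs : BfsStmt := by
  intro R K A I _ _ _ _ _ _ c
  obtain ⟨l, hl⟩ : ∃ l : K ⊗[R] A →ₗ[K] K, ∀ k a, l (k ⊗ₜ a) = algebraMap R K (c.lam a) * k := by
    refine ⟨(TensorProduct.AlgebraTensorModule.rid R K K).toLinearMap ∘ₗ c.lam.baseChange K,
      fun k a => ?_⟩
    rw [LinearMap.comp_apply, LinearMap.baseChange_tmul]
    change TensorProduct.AlgebraTensorModule.rid R K K (k ⊗ₜ c.lam a) = _
    rw [TensorProduct.AlgebraTensorModule.rid_tmul, Algebra.smul_def]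
  have hmv : ∀ (k : K) (r : R) (a : A), (algebraMap R K r * k) ⊗ₜ[R] a = k ⊗ₜ[R] (r • a) := by
    intro k r a
    rw [← Algebra.smul_def, TensorProduct.smul_tmul]
  refine ⟨⟨l, fun i => 1 ⊗ₜ c.b i, fun i => 1 ⊗ₜ c.b' i, fun x => ?_, fun x => ?_⟩,
    fun _ => rfl, fun _ => rfl, hl, fun hs x y => ?_⟩
  · induction x using TensorProduct.induction_on with
    | zero => simp
    | tmul k a =>
      have h1 : ∀ i, l (1 ⊗ₜ c.b' i * k ⊗ₜ a) • (1 : K) ⊗ₜ[R] c.b i =
          k ⊗ₜ[R] (c.lam (c.b' i * a) • c.b i) := by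
        intro i
        rw [Algebra.TensorProduct.tmul_mul_tmul, one_mul, hl, TensorProduct.smul_tmul',
          smul_eq_mul, mul_one, hmv]
      rw [Finset.sum_congr rfl fun i _ => h1 i, ← TensorProduct.tmul_sum, c.h1]
    | add x y hx hy =>
      simp only [mul_add, map_add, add_smul, Finset.sum_add_distrib]
      rw [hx, hy]
  · induction x using TensorProduct.induction_on with
    | zero => simp
    | tmul k a =>
      have h1 : ∀ i, l (k ⊗ₜ a * 1 ⊗ₜ c.b i) • (1 : K) ⊗ₜ[R] c.b' i =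
          k ⊗ₜ[R] (c.lam (a * c.b i) • c.b' i) := by
        intro i
        rw [Algebra.TensorProduct.tmul_mul_tmul, mul_one, hl, TensorProduct.smul_tmul',
          smul_eq_mul, mul_one, hmv]
      rw [Finset.sum_congr rfl fun i _ => h1 i, ← TensorProduct.tmul_sum, c.h2]
    | add x y hx hy =>
      simp only [add_mul, map_add, add_smul, Finset.sum_add_distrib]
      rw [hx, hy]
  · change l (x * y) = l (y * x)
    induction x using TensorProduct.induction_on with
    | zero => simp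
    | tmul k a =>
      induction y using TensorProduct.induction_on with
      | zero => simp
      | tmul k' a' =>
        rw [Algebra.TensorProduct.tmul_mul_tmul, Algebra.TensorProduct.tmul_mul_tmul, hl, hl, hs,
          mul_comm k k']
      | add x y hx hy => rw [mul_add, add_mul, map_add, map_add, hx, hy]
    | add x y hx hy => rw [mul_add, add_mul, map_add, map_add, hx, hy]

theorem cnk : CnkStmt := by
  classical
  intro R K A1 _ _ _ _ _ _ _ _ _ _
  obtain ⟨e, he⟩ : ∃ e, e = Module.Free.chooseBasis R A1 := ⟨_, rfl⟩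
  obtain ⟨g, hg⟩ : ∃ g : A1 →ₗ[R] (Module.Free.ChooseBasisIndex R A1 → A1),
      ∀ a i, g a i = a * e i - e i * a := by
    refine ⟨LinearMap.pi fun i => LinearMap.mulRight R (e i) - LinearMap.mulLeft R (e i),
      fun a i => ?_⟩
    rw [LinearMap.pi_apply, LinearMap.sub_apply, LinearMap.mulRight_apply,
      LinearMap.mulLeft_apply]
  -- the centre is the kernel
  have hker : LinearMap.ker g = Subalgebra.toSubmodule (Subalgebra.center R A1) := by
    ext a
    rw [LinearMap.mem_ker, Subalgebra.mem_toSubmodule, Subalgebra.mem_center_iff]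
    constructor
    · intro h b
      have h1 : ∀ i, a * e i = e i * a := by
        intro i
        have := congrFun h i
        rw [hg, Pi.zero_apply, sub_eq_zero] at this
        exact this
      have h2 : LinearMap.mulRight R a = LinearMap.mulLeft R a := by
        apply e.ext
        intro i
        rw [LinearMap.mulRight_apply, LinearMap.mulLeft_apply, h1]
      exact LinearMap.congr_fun h2 b
    · intro h
      funext i
      rw [hg, Pi.zero_apply, h, sub_self]
  -- base change of the kernel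
  obtain ⟨gK, hgK⟩ : ∃ gK : K ⊗[R] A1 →ₗ[K] K ⊗[R] (Module.Free.ChooseBasisIndex R A1 → A1),
      gK = TensorProduct.AlgebraTensorModule.lTensor K K g := ⟨_, rfl⟩
  have hpi : ∀ (x : K ⊗[R] A1) i, TensorProduct.piRight R K K (fun _ => A1) (gK x) i =
      x * (1 ⊗ₜ e i) - (1 ⊗ₜ e i) * x := by
    intro x i
    induction x using TensorProduct.induction_on with
    | zero => simp
    | tmul k a =>
      rw [hgK, TensorProduct.AlgebraTensorModule.lTensor_tmul, TensorProduct.piRight_apply,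
        TensorProduct.piRightHom_tmul]
      change k ⊗ₜ[R] (g a i) = _
      rw [hg, TensorProduct.tmul_sub,
        Algebra.TensorProduct.tmul_mul_tmul, Algebra.TensorProduct.tmul_mul_tmul, mul_one, one_mul]
    | add x y hx hy =>
      rw [map_add, map_add, Pi.add_apply, hx, hy]
      noncomm_ring
  have hkerK : LinearMap.ker gK = Subalgebra.toSubmodule (Subalgebra.center K (K ⊗[R] A1)) := by
    ext x
    rw [LinearMap.mem_ker, Subalgebra.mem_toSubmodule, Subalgebra.mem_center_iff]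
    constructor
    · intro h b
      have h1 : ∀ i, x * (1 ⊗ₜ e i) = (1 ⊗ₜ e i) * x := by
        intro i
        have h2 := hpi x i
        rw [h, map_zero, Pi.zero_apply] at h2
        exact (sub_eq_zero.1 h2.symm)
      have h2 : ∀ a : A1, (1 ⊗ₜ[R] a) * x = x * (1 ⊗ₜ[R] a) := by
        intro a
        have h3 : (LinearMap.mulRight R x) ∘ₗ (TensorProduct.mk R K A1 1) =
            (LinearMap.mulLeft R x) ∘ₗ (TensorProduct.mk R K A1 1) := by
          apply e.ext
          intro i
          exact (h1 i).symm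
        exact LinearMap.congr_fun h3 a
      induction b using TensorProduct.induction_on with
      | zero => rw [zero_mul, mul_zero]
      | tmul k a =>
        have h4 : k ⊗ₜ[R] a = k • ((1 : K) ⊗ₜ[R] a) := by
          rw [TensorProduct.smul_tmul', smul_eq_mul, mul_one]
        rw [h4, smul_mul_assoc, mul_smul_comm, h2]
      | add b b' hb hb' => rw [add_mul, mul_add, hb, hb']
    · intro h
      apply (TensorProduct.piRight R K K (fun _ => A1)).injective
      rw [map_zero]
      funext i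
      rw [hpi, Pi.zero_apply, h, sub_self]
  have h1 : Module.finrank K (Subalgebra.center K (K ⊗[R] A1)) =
      Module.finrank K (LinearMap.ker gK) := by
    rw [hkerK]
    rfl
  have h2 : Module.finrank R (Subalgebra.center R A1) = Module.finrank R (LinearMap.ker g) := by
    rw [hker]
    rfl
  rw [h1, h2, hgK, ← (LinearMap.tensorKerEquiv K K g).finrank_eq]
  exact Module.finrank_baseChange

end Pool.Agent.PFD.D4.H35
end -- Pool.Agent.Helper35_PFD.BFS

section -- Pool.Agent.Helper39_PSS.UNJ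

/-! PSS, row UNJ: Nakayama. -/

set_option autoImplicit false

namespace Pool.Agent.PSS.H39

theorem unj : UnjStmt := by
  intro R M _ p _ _ _ hp u hu
  have hj : Ideal.span {p} ≤ Ideal.jacobson (⊥ : Ideal R) := by
    rw [Ideal.span_singleton_le_iff_mem, Ideal.mem_jacobson_bot]
    intro y
    have := hp y
    rwa [add_comm] at this
  have hs : Function.Surjective u := by
    rw [← LinearMap.range_eq_top, eq_top_iff]
    refine Submodule.le_of_le_smul_of_le_jacobson_bot Module.Finite.fg_top hj ?_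
    intro x _
    obtain ⟨y, hy⟩ := hu x
    have hx : x = u x + (-p) • y := by
      rw [neg_smul, ← hy]; abel
    rw [hx]
    refine Submodule.add_mem_sup ⟨x, rfl⟩ ?_
    exact Submodule.smul_mem_smul (Ideal.neg_mem_iff _ |>.2 (Ideal.mem_span_singleton_self p)) trivial
  exact ⟨OrzechProperty.injective_of_surjective_endomorphism u hs, hs⟩

end Pool.Agent.PSS.H39
end -- Pool.Agent.Helper39_PSS.UNJ

section -- Pool.Agent.Helper63_PSS.PSC

/-!
# Squad PSS, row PSC: the power series ring is a complete discrete valuation ring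
-/

open scoped BigOperators

noncomputable section

namespace Pool.Agent.PSS.H63

open Finset
open Pool.Agent.PFD.D2 (Cdv)

/-- PSC -/
theorem psc : PscStmt := by
  intro F _
  refine ⟨{ π := PowerSeries.X
            κ := PowerSeries.constantCoeff
            surj := ?_
            ker := ?_
            reg := ?_
            loc := ?_
            sep := ?_
            cpl := ?_ }, rfl, rfl⟩
  · intro a
    exact ⟨PowerSeries.C a, by simp⟩
  · intro r
    constructor
    · intro h
      exact PowerSeries.X_dvd_iff.2 h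
    · rintro ⟨s, rfl⟩
      simp
  · intro r h
    rcases mul_eq_zero.1 h with h | h
    · exact absurd h PowerSeries.X_ne_zero
    · exact h
  · intro r h
    exact PowerSeries.isUnit_iff_constantCoeff.2 (isUnit_iff_ne_zero.2 h)
  · intro r h
    ext n
    obtain ⟨s, hs⟩ := h (n + 1)
    have h2 : (PowerSeries.X : PowerSeries F) ^ (n + 1) ∣ r := ⟨s, hs⟩
    rw [PowerSeries.X_pow_dvd_iff] at h2
    rw [h2 n (Nat.lt_succ_self n), map_zero]
  · intro u
    refine ⟨PowerSeries.mk fun n => ∑ i ∈ range (n + 1), PowerSeries.coeff (n - i) (u i), ?_⟩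
    intro n
    have h2 : (PowerSeries.X : PowerSeries F) ^ n ∣
        (PowerSeries.mk fun n => ∑ i ∈ range (n + 1), PowerSeries.coeff (n - i) (u i)) -
          ∑ i ∈ range n, PowerSeries.X ^ i * u i := by
      rw [PowerSeries.X_pow_dvd_iff]
      intro m hm
      rw [map_sub, PowerSeries.coeff_mk, map_sum, sub_eq_zero]
      have h3 : ∀ i ∈ range n, PowerSeries.coeff m (PowerSeries.X ^ i * u i) =
          if i ∈ range (m + 1) then PowerSeries.coeff (m - i) (u i) else 0 := by
        intro i _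
        rw [PowerSeries.coeff_X_pow_mul']
        simp only [Finset.mem_range, Nat.lt_succ_iff]
      rw [Finset.sum_congr rfl h3, ← Finset.sum_filter]
      refine Finset.sum_congr ?_ fun _ _ => rfl
      ext i
      simp only [Finset.mem_filter, Finset.mem_range]
      omega
    obtain ⟨s, hs⟩ := h2
    exact ⟨s, hs⟩

end Pool.Agent.PSS.H63
end
end -- Pool.Agent.Helper63_PSS.PSC

section -- Pool.Agent.Helper49_PFD.FPF

/-!
# Squad PFD, part D2b, rows FPF, INB, LFX (helper49)
-/

set_option autoImplicit false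

open scoped BigOperators

namespace Pool.Agent.PFD.D2b.H49

open MulOpposite
open Pool.Agent.PFC.B1 (BiM FS)
open Pool.Agent.PFD.D2 Pool.Agent.PFD.D2b

/-- FPF: frames give the lifting of fixed vectors. -/
theorem fpf : FpfStmt := by
  intro R G N T _ _ _ _ _ _ ρ b c p hfr S n hn
  classical
  let q : T → MulAction.orbitRel.Quotient S T := fun t => Quotient.mk'' t
  let r : T → T := fun t => (q t).out
  have hr : ∀ t, ∃ s : S, s • t = r t := by
    intro t
    have h1 : MulAction.orbitRel S T (r t) t := Quotient.eq''.1 (Quotient.out_eq' (q t))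
    have h2 : r t ∈ MulAction.orbit S t := (MulAction.orbitRel_apply).1 h1
    exact h2
  have hrs : ∀ (s : S) (t : T), r (s • t) = r t := by
    intro s t
    have h1 : q (s • t) = q t := Quotient.eq''.2 (MulAction.orbitRel_apply.2 ⟨s, rfl⟩)
    show (q (s • t)).out = (q t).out
    rw [h1]
  have hd : ∀ (s : S) (t : T), ∃ x : R, c ((s : G) • t) n - c t n = p * x := by
    intro s t
    obtain ⟨x, hx⟩ := hn s s.2
    refine ⟨- c ((s : G) • t) x, ?_⟩
    have h1 := hfr.2.1 (s : G) t n
    rw [← h1, ← map_sub, ← neg_sub, hx, map_neg, map_smul, smul_eq_mul, mul_neg]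
  have hd' : ∀ t : T, ∃ x : R, c (r t) n - c t n = p * x := by
    intro t
    obtain ⟨s, hs⟩ := hr t
    obtain ⟨x, hx⟩ := hd s t
    refine ⟨x, ?_⟩
    rw [← hs]
    exact hx
  choose x hx using hd'
  refine ⟨∑ t, c (r t) n • b t, ?_, ∑ t, x t • b t, ?_⟩
  · intro s hs
    rw [map_sum]
    refine Fintype.sum_equiv (MulAction.toPerm s) _ _ ?_
    intro t
    rw [map_smul, ← hfr.1]
    show c (r t) n • b (s • t) = c (r (s • t)) n • b (s • t)
    have := hrs ⟨s, hs⟩ t
    have h2 : r (s • t) = r t := this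
    rw [h2]
  · have h1 : ∑ t, c (r t) n • b t - ∑ t, c t n • b t = p • ∑ t, x t • b t := by
      rw [← Finset.sum_sub_distrib, Finset.smul_sum]
      refine Finset.sum_congr rfl ?_
      intro t _
      rw [← sub_smul, hx, mul_smul]
    rw [hfr.2.2] at h1
    exact h1

section

variable {R Γ W I Ω N : Type} [CommRing R] [Ring Γ] [Algebra R Γ] [CommGroup W] [Fintype W]
  [Fintype I] [Fintype Ω] [MulAction W Ω] [AddCommGroup N] [Module R N]

/-- Left linearity. -/
theorem left_lin (D : WFS R Γ W I) (BX : BiM R Γ (I × Ω → Γ)) (hX : IsX D Ω BX)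
    (BN : BiM R Γ N) (F : Ω → Γ →ₗ[R] N)
    (hF : ∀ w ω x, F (w • ω) (D.om w * x) = BN.lm (D.om w) (F ω x)) (γ : Γ)
    (f : I × Ω → Γ) :
    ∑ j, ∑ ω, BN.lm (D.cf j) (F ω (BX.lm γ f (j, ω))) =
      BN.lm γ (∑ i, ∑ ω, BN.lm (D.cf i) (F ω (f (i, ω)))) := by
  have e1 : ∀ j ω, BN.lm (D.cf j) (F ω (BX.lm γ f (j, ω))) =
      ∑ i, ∑ w, D.lam (D.om w⁻¹ * D.cf' j * γ * D.cf i) •
        BN.lm (D.cf j * D.om w) (F (w⁻¹ • ω) (f (i, w⁻¹ • ω))) := by
    intro j ω
    rw [hX.1, map_sum, map_sum]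
    refine Finset.sum_congr rfl (fun i _ => ?_)
    rw [map_sum, map_sum]
    refine Finset.sum_congr rfl (fun w _ => ?_)
    rw [map_smul, map_smul]
    have h1 := hF w (w⁻¹ • ω) (f (i, w⁻¹ • ω))
    rw [smul_inv_smul] at h1
    rw [h1, map_mul BN.lm, Module.End.mul_apply]
  have e2 : ∀ j, ∑ ω, ∑ i, ∑ w, D.lam (D.om w⁻¹ * D.cf' j * γ * D.cf i) •
        BN.lm (D.cf j * D.om w) (F (w⁻¹ • ω) (f (i, w⁻¹ • ω))) =
      ∑ i, ∑ ω, ∑ w, D.lam (D.om w⁻¹ * D.cf' j * γ * D.cf i) •
        BN.lm (D.cf j * D.om w) (F ω (f (i, ω))) := by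
    intro j
    rw [Finset.sum_comm]
    refine Finset.sum_congr rfl (fun i _ => ?_)
    rw [Finset.sum_comm]
    rw [Finset.sum_comm (s := (Finset.univ : Finset Ω))]
    refine Finset.sum_congr rfl (fun w _ => ?_)
    exact Fintype.sum_equiv (MulAction.toPerm (w⁻¹ : W)) _ _ (fun ω => rfl)
  calc ∑ j, ∑ ω, BN.lm (D.cf j) (F ω (BX.lm γ f (j, ω)))
      = ∑ j, ∑ ω, ∑ i, ∑ w, D.lam (D.om w⁻¹ * D.cf' j * γ * D.cf i) •
        BN.lm (D.cf j * D.om w) (F (w⁻¹ • ω) (f (i, w⁻¹ • ω))) :=
        Finset.sum_congr rfl (fun j _ => Finset.sum_congr rfl (fun ω _ => e1 j ω))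
    _ = ∑ j, ∑ i, ∑ ω, ∑ w, D.lam (D.om w⁻¹ * D.cf' j * γ * D.cf i) •
        BN.lm (D.cf j * D.om w) (F ω (f (i, ω))) :=
        Finset.sum_congr rfl (fun j _ => e2 j)
    _ = ∑ i, ∑ ω, ∑ j, ∑ w, D.lam (D.om w⁻¹ * D.cf' j * γ * D.cf i) •
        BN.lm (D.cf j * D.om w) (F ω (f (i, ω))) := by
        rw [Finset.sum_comm]
        refine Finset.sum_congr rfl (fun i _ => ?_)
        rw [Finset.sum_comm]
    _ = BN.lm γ (∑ i, ∑ ω, BN.lm (D.cf i) (F ω (f (i, ω)))) := by
        rw [map_sum]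
        refine Finset.sum_congr rfl (fun i _ => ?_)
        rw [map_sum]
        refine Finset.sum_congr rfl (fun ω _ => ?_)
        rw [← Module.End.mul_apply, ← map_mul]
        have h1 := congrArg (fun y => BN.lm y (F ω (f (i, ω)))) (D.h1 (γ * D.cf i))
        simp only [map_sum, LinearMap.sum_apply, map_smul, LinearMap.smul_apply] at h1
        rw [← h1]
        refine Finset.sum_congr rfl (fun j _ => Finset.sum_congr rfl (fun w _ => ?_))
        rw [← mul_assoc]

/-- Balancedness. -/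
theorem bal_lin (D : WFS R Γ W I) (BX : BiM R Γ (I × Ω → Γ)) (hX : IsX D Ω BX)
    (BN : BiM R Γ N) (F : Ω → Γ →ₗ[R] N)
    (hF : ∀ w ω x, BN.rm (op (D.om w)) (F (w • ω) x) = F ω (x * D.om w)) (γ x : Γ)
    (f : I × Ω → Γ) :
    ∑ j, ∑ ω, BN.rm (op (BX.lm γ f (j, ω))) (F ω (x * D.cf j)) =
      ∑ i, ∑ ω, BN.rm (op (f (i, ω))) (F ω (x * γ * D.cf i)) := by
  have e1 : ∀ j ω, BN.rm (op (BX.lm γ f (j, ω))) (F ω (x * D.cf j)) =
      ∑ i, ∑ w, D.lam (D.om w⁻¹ * D.cf' j * γ * D.cf i) •
        BN.rm (op (f (i, w⁻¹ • ω))) (F (w⁻¹ • ω) (x * (D.cf j * D.om w))) := by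
    intro j ω
    rw [hX.1, Finset.op_sum, map_sum, LinearMap.sum_apply]
    refine Finset.sum_congr rfl (fun i _ => ?_)
    rw [Finset.op_sum, map_sum, LinearMap.sum_apply]
    refine Finset.sum_congr rfl (fun w _ => ?_)
    rw [op_smul, map_smul, LinearMap.smul_apply, op_mul, map_mul BN.rm, Module.End.mul_apply]
    have h1 := hF w (w⁻¹ • ω) (x * D.cf j)
    rw [smul_inv_smul] at h1
    rw [h1, mul_assoc x]
  have e2 : ∀ j, ∑ ω, ∑ i, ∑ w, D.lam (D.om w⁻¹ * D.cf' j * γ * D.cf i) •
        BN.rm (op (f (i, w⁻¹ • ω))) (F (w⁻¹ • ω) (x * (D.cf j * D.om w))) =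
      ∑ i, ∑ ω, ∑ w, D.lam (D.om w⁻¹ * D.cf' j * γ * D.cf i) •
        BN.rm (op (f (i, ω))) (F ω (x * (D.cf j * D.om w))) := by
    intro j
    rw [Finset.sum_comm]
    refine Finset.sum_congr rfl (fun i _ => ?_)
    rw [Finset.sum_comm]
    rw [Finset.sum_comm (s := (Finset.univ : Finset Ω))]
    refine Finset.sum_congr rfl (fun w _ => ?_)
    exact Fintype.sum_equiv (MulAction.toPerm (w⁻¹ : W)) _ _ (fun ω => rfl)
  calc ∑ j, ∑ ω, BN.rm (op (BX.lm γ f (j, ω))) (F ω (x * D.cf j))
      = ∑ j, ∑ ω, ∑ i, ∑ w, D.lam (D.om w⁻¹ * D.cf' j * γ * D.cf i) •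
        BN.rm (op (f (i, w⁻¹ • ω))) (F (w⁻¹ • ω) (x * (D.cf j * D.om w))) :=
        Finset.sum_congr rfl (fun j _ => Finset.sum_congr rfl (fun ω _ => e1 j ω))
    _ = ∑ j, ∑ i, ∑ ω, ∑ w, D.lam (D.om w⁻¹ * D.cf' j * γ * D.cf i) •
        BN.rm (op (f (i, ω))) (F ω (x * (D.cf j * D.om w))) :=
        Finset.sum_congr rfl (fun j _ => e2 j)
    _ = ∑ i, ∑ ω, ∑ j, ∑ w, D.lam (D.om w⁻¹ * D.cf' j * γ * D.cf i) •
        BN.rm (op (f (i, ω))) (F ω (x * (D.cf j * D.om w))) := by
        rw [Finset.sum_comm]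
        refine Finset.sum_congr rfl (fun i _ => ?_)
        rw [Finset.sum_comm]
    _ = ∑ i, ∑ ω, BN.rm (op (f (i, ω))) (F ω (x * γ * D.cf i)) := by
        refine Finset.sum_congr rfl (fun i _ => ?_)
        refine Finset.sum_congr rfl (fun ω _ => ?_)
        have h1 := congrArg (fun y => BN.rm (op (f (i, ω))) (F ω (x * y))) (D.h1 (γ * D.cf i))
        simp only [Finset.mul_sum, map_sum, mul_smul_comm, map_smul] at h1
        rw [mul_assoc x, ← h1]
        refine Finset.sum_congr rfl (fun j _ => Finset.sum_congr rfl (fun w _ => ?_))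
        rw [← mul_assoc (D.om w⁻¹ * D.cf' j)]

end

/-- INB: the balanced bilinear map given by an equivariant family. -/
theorem inb : InbStmt := by
  intro R Γ W I Ω N _ _ _ _ _ _ _ _ D BX hX _ _ BN μ hμ
  have hl : ∀ w ω ω' x, μ (w • ω) ω' (D.om w * x) = BN.lm (D.om w) (μ ω ω' x) := by
    intro w ω ω' x
    have h1 := hμ w 1 ω ω' x
    rw [one_smul, inv_one, map_one, mul_one] at h1
    rw [h1]
    show BN.lm (D.om w) (BN.rm (op (D.om (1 : W)⁻¹)) (μ ω ω' x)) = _
    rw [inv_one, map_one, op_one, map_one]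
    rfl
  have hr : ∀ w ω ω' x, BN.rm (op (D.om w)) (μ ω (w • ω') x) = μ ω ω' (x * D.om w) := by
    intro w ω ω' x
    have h1 := hμ 1 w⁻¹ ω (w • ω') x
    rw [one_smul, inv_smul_smul, inv_inv, map_one, one_mul] at h1
    rw [h1]
    show _ = BN.lm (D.om (1 : W)) (BN.rm (op (D.om (w⁻¹)⁻¹)) (μ ω (w • ω') x))
    rw [inv_inv, map_one, map_one]
    rfl
  have hlr : ∀ a b z, BN.lm a (BN.rm b z) = BN.rm b (BN.lm a z) := BN.comm
  let F : (I × Ω → Γ) → Ω → (Γ →ₗ[R] N) := fun f' ω =>
    { toFun := fun x => ∑ i', ∑ ω', BN.rm (op (f' (i', ω'))) (μ ω ω' (x * D.cf i'))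
      map_add' := fun x y => by
        simp only [add_mul, map_add, Finset.sum_add_distrib]
      map_smul' := fun r x => by
        simp only [smul_mul_assoc, map_smul, Finset.smul_sum, RingHom.id_apply] }
  have hFdef : ∀ f' ω x, F f' ω x =
      ∑ i', ∑ ω', BN.rm (op (f' (i', ω'))) (μ ω ω' (x * D.cf i')) := fun _ _ _ => rfl
  have hFadd : ∀ f' g' ω x, F (f' + g') ω x = F f' ω x + F g' ω x := by
    intro f' g' ω x
    simp only [hFdef, Pi.add_apply, op_add, map_add, LinearMap.add_apply,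
      Finset.sum_add_distrib]
  have hFsmul : ∀ (r : R) f' ω x, F (r • f') ω x = r • F f' ω x := by
    intro r f' ω x
    simp only [hFdef, Pi.smul_apply, op_smul, map_smul, LinearMap.smul_apply,
      Finset.smul_sum]
  have hFeq : ∀ f' w ω x, F f' (w • ω) (D.om w * x) = BN.lm (D.om w) (F f' ω x) := by
    intro f' w ω x
    simp only [hFdef, map_sum]
    refine Finset.sum_congr rfl (fun i' _ => Finset.sum_congr rfl (fun ω' _ => ?_))
    rw [mul_assoc, hl, hlr]
  have hFbal : ∀ f' γ ω x, F (BX.lm γ f') ω x = F f' ω (x * γ) := by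
    intro f' γ ω x
    rw [hFdef, hFdef]
    exact bal_lin D BX hX BN (μ ω) (fun w ω' y => hr w ω ω' y) γ x f'
  have hFr : ∀ f' γ ω x, F (BX.rm (op γ) f') ω x = BN.rm (op γ) (F f' ω x) := by
    intro f' γ ω x
    simp only [hFdef, map_sum]
    refine Finset.sum_congr rfl (fun i' _ => Finset.sum_congr rfl (fun ω' _ => ?_))
    rw [hX.2, op_mul, map_mul, Module.End.mul_apply]
  let β : (I × Ω → Γ) →ₗ[R] (I × Ω → Γ) →ₗ[R] N := LinearMap.mk₂ R
    (fun f f' => ∑ i, ∑ ω, BN.lm (D.cf i) (F f' ω (f (i, ω))))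
    (fun f g f' => by
      simp only [Pi.add_apply, map_add, Finset.sum_add_distrib])
    (fun r f f' => by
      simp only [Pi.smul_apply, map_smul, Finset.smul_sum])
    (fun f f' g' => by
      simp only [hFadd, map_add, Finset.sum_add_distrib])
    (fun r f f' => by
      simp only [hFsmul, map_smul, Finset.smul_sum])
  have hβ : ∀ f f', β f f' = ∑ i, ∑ ω, BN.lm (D.cf i) (F f' ω (f (i, ω))) := fun _ _ => rfl
  refine ⟨β, ⟨?_, ?_, ?_⟩, ?_⟩
  · intro γ x y
    rw [hβ, hβ]
    exact left_lin D BX hX BN (F y) (hFeq y) γ x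
  · intro γ x y
    rw [hβ, hβ]
    refine Finset.sum_congr rfl (fun i _ => Finset.sum_congr rfl (fun ω _ => ?_))
    rw [hX.2, hFbal]
  · intro γ x y
    rw [hβ, hβ, map_sum]
    refine Finset.sum_congr rfl (fun i _ => ?_)
    rw [map_sum]
    refine Finset.sum_congr rfl (fun ω _ => ?_)
    induction γ using MulOpposite.rec' with
    | _ γ => rw [hFr, hlr]
  · intro f f'
    rw [hβ]
    refine Finset.sum_congr rfl (fun i _ => Finset.sum_congr rfl (fun ω _ => ?_))
    rw [hFdef, map_sum]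
    refine Finset.sum_congr rfl (fun i' _ => ?_)
    rw [map_sum]

/-- LFX: `X` is liftable. -/
theorem lfx (hFPX : FpxStmt) (hA : LfaStmt) (hB : LfbStmt) : LfxStmt := by
  intro R Γ W I Ω _ _ _ _ _ _ _ _ D BX p hX
  obtain ⟨h1, h2⟩ := hFPX R Γ W I Ω D BX hX p
  exact ⟨hA R Γ W I Ω (I × Ω → Γ) D BX hX BX p h1, hB R Γ W I Ω (I × Ω → Γ) D BX hX BX p h1,
    hB R Γ W I Ω Γ D BX hX (regB R Γ) p h2⟩

end Pool.Agent.PFD.D2b.H49
end -- Pool.Agent.Helper49_PFD.FPF

section -- Pool.Agent.Helper67_PSS.DFM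

/-!
# Squad PSS, row DFM (helper67): from `Df` to `Dm`
-/

open scoped BigOperators

noncomputable section

namespace Pool.Agent.PSS.H67

open Pool.Agent.PSS
open Pool.Agent.PFD.D2 (Cdv FibG)
open Pool.Agent.PFD.D2b (FrR)
open Finset
open Pool.Agent.PSS.Dm (cst smulq)

section coords

variable {F A A' ι : Type} [Field F] [Ring A] [Algebra F A] [Ring A'] [Algebra (PowerSeries F) A']
  [Fintype ι] (e : Module.Basis ι F A) (th : A →+ A')

/-- the coordinates of a sequence -/
def sr (f : ℕ → A) (i : ι) : PowerSeries F := PowerSeries.mk fun n => e.repr (f n) i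

/-- the element of `A'` given by a sequence -/
def thf (f : ℕ → A) : A' := ∑ i, sr e f i • th (e i)

theorem sr_add (f g : ℕ → A) (i : ι) : sr e (f + g) i = sr e f i + sr e g i := by
  ext n
  rw [map_add, sr, sr, sr, PowerSeries.coeff_mk, PowerSeries.coeff_mk, PowerSeries.coeff_mk,
    Pi.add_apply, map_add, Finsupp.add_apply]

theorem sr_smulq (c : PowerSeries F) (f : ℕ → A) (i : ι) :
    sr e (smulq c f) i = c * sr e f i := by
  ext n
  rw [sr, PowerSeries.coeff_mk, PowerSeries.coeff_mul, smulq, map_sum, Finsupp.finsetSum_apply]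
  refine Finset.sum_congr rfl fun p _ => ?_
  rw [map_smul, Finsupp.smul_apply, smul_eq_mul, sr, PowerSeries.coeff_mk]

theorem thf_add (f g : ℕ → A) : thf e th (f + g) = thf e th f + thf e th g := by
  rw [thf, thf, thf, ← Finset.sum_add_distrib]
  refine Finset.sum_congr rfl fun i _ => ?_
  rw [sr_add, add_smul]

theorem thf_smulq (c : PowerSeries F) (f : ℕ → A) :
    thf e th (smulq c f) = c • thf e th f := by
  rw [thf, thf, Finset.smul_sum]
  refine Finset.sum_congr rfl fun i _ => ?_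
  rw [sr_smulq, mul_smul]

theorem smulq_C (r : F) (f : ℕ → A) (n : ℕ) :
    smulq (PowerSeries.C r) f n = r • f n := by
  rw [smulq, Finset.sum_eq_single (0, n)]
  · rw [PowerSeries.coeff_C, if_pos rfl]
  · rintro ⟨a, b⟩ h hne
    rcases a with _ | a
    · rw [Finset.HasAntidiagonal.mem_antidiagonal] at h
      simp only [zero_add] at h
      exact absurd (by rw [h]) hne
    · rw [PowerSeries.coeff_C, if_neg (Nat.succ_ne_zero a), zero_smul]
  · intro h
    exact absurd (by rw [Finset.HasAntidiagonal.mem_antidiagonal]; simp) h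

variable (hs : ∀ (r : F) (a : A), th (r • a) = (PowerSeries.C r : PowerSeries F) • th a)

include hs

theorem th_sum (a : A) :
    ∑ i, (PowerSeries.C (e.repr a i) : PowerSeries F) • th (e i) = th a := by
  conv_rhs => rw [← e.sum_repr a]
  rw [map_sum]
  refine Finset.sum_congr rfl fun i _ => ?_
  rw [hs]

theorem thf_cst (a : A) : thf e th (cst a) = th a := by
  rw [← th_sum e th hs a, thf]
  refine Finset.sum_congr rfl fun i _ => ?_
  congr 1
  ext n
  rw [sr, PowerSeries.coeff_mk, PowerSeries.coeff_C, cst]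
  split_ifs with h
  · rfl
  · rw [map_zero, Finsupp.zero_apply]

omit hs in
/-- reduction of an element given by a sequence -/
theorem q_thf (q : A' →+* A)
    (hq : ∀ r : PowerSeries F, q (algebraMap (PowerSeries F) A' r) =
      algebraMap F A (PowerSeries.constantCoeff r))
    (hqt : ∀ a, q (th a) = a) (f : ℕ → A) : q (thf e th f) = f 0 := by
  rw [thf, map_sum]
  conv_rhs => rw [← e.sum_repr (f 0)]
  refine Finset.sum_congr rfl fun i _ => ?_
  rw [Algebra.smul_def, map_mul, hq, hqt, ← Algebra.smul_def]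
  rw [← PowerSeries.coeff_zero_eq_constantCoeff_apply, sr, PowerSeries.coeff_mk]

end coords

/-! ## Bijectivity -/

section bij

variable {F A A' ι : Type} [Field F] [Ring A] [Algebra F A] [Ring A'] [Algebra (PowerSeries F) A']
  [Fintype ι] (e : Module.Basis ι F A) (th : A →+ A')

/-- injectivity -/
theorem thf_zero (q : A' →+* A)
    (hq : ∀ r : PowerSeries F, q (algebraMap (PowerSeries F) A' r) =
      algebraMap F A (PowerSeries.constantCoeff r))
    (hqt : ∀ a, q (th a) = a)
    (hreg : ∀ x : A', (PowerSeries.X : PowerSeries F) • x = 0 → x = 0) (n : ℕ) :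
    ∀ f : ℕ → A, thf e th f = 0 → f n = 0 := by
  induction n with
  | zero =>
    intro f hf
    rw [← q_thf e th q hq hqt f, hf, map_zero]
  | succ n ih =>
    intro f hf
    have h0 : f 0 = 0 := by
      rw [← q_thf e th q hq hqt f, hf, map_zero]
    have h1 : f = smulq (PowerSeries.X : PowerSeries F) (fun m => f (m + 1)) := by
      funext m
      rw [smulq]
      rcases m with _ | m
      · rw [Finset.Nat.antidiagonal_zero, Finset.sum_singleton, PowerSeries.coeff_zero_X,
          zero_smul, h0]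
      · rw [Finset.sum_eq_single (1, m)]
        · rw [PowerSeries.coeff_one_X, one_smul]
        · rintro ⟨a, b⟩ h hne
          rw [PowerSeries.coeff_X]
          split_ifs with ha
          · rw [Finset.HasAntidiagonal.mem_antidiagonal] at h
            simp only at h ha
            exact absurd (by rw [ha, show b = m by omega]) hne
          · exact zero_smul _ _
        · intro h
          exact absurd (by rw [Finset.HasAntidiagonal.mem_antidiagonal]; simp only; omega) h
    rw [h1, thf_smulq] at hf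
    exact ih _ (hreg _ hf)

/-- surjectivity -/
theorem thf_surj [Module.Finite (PowerSeries F) A'] (q : A' →+* A)
    (hs : ∀ (r : F) (a : A), th (r • a) = (PowerSeries.C r : PowerSeries F) • th a)
    (hqt : ∀ a, q (th a) = a)
    (hker : ∀ x, q x = 0 → ∃ y, x = (PowerSeries.X : PowerSeries F) • y) :
    Function.Surjective (thf e th) := by
  set N : Submodule (PowerSeries F) A' := Submodule.span (PowerSeries F) (Set.range fun i => th (e i))
    with hN
  have h1 : ∀ x : A', ∃ y ∈ N, ∃ z, x = y + (PowerSeries.X : PowerSeries F) • z := by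
    intro x
    obtain ⟨z, hz⟩ := hker (x - th (q x)) (by rw [map_sub, hqt, sub_self])
    refine ⟨th (q x), ?_, z, ?_⟩
    · rw [← th_sum e th hs (q x)]
      exact Submodule.sum_mem _ fun i _ => N.smul_mem _ (Submodule.subset_span ⟨i, rfl⟩)
    · rw [← hz]
      abel
  have h2 : (⊤ : Submodule (PowerSeries F) A') ≤ N := by
    refine Submodule.le_of_le_smul_of_le_jacobson_bot (I := Ideal.span {(PowerSeries.X : PowerSeries F)})
      Module.Finite.fg_top ?_ ?_
    · rw [Ideal.span_le, Set.singleton_subset_iff, SetLike.mem_coe, Ideal.mem_jacobson_bot]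
      intro y
      rw [PowerSeries.isUnit_iff_constantCoeff]
      simp
    · intro x _
      obtain ⟨y, hy, z, hz⟩ := h1 x
      rw [hz]
      refine Submodule.add_mem_sup hy ?_
      exact Submodule.smul_mem_smul (Ideal.mem_span_singleton_self _) trivial
  intro x
  have h3 : x ∈ N := h2 trivial
  rw [hN, Submodule.mem_span_range_iff_exists_fun] at h3
  obtain ⟨s, hs'⟩ := h3
  refine ⟨fun n => ∑ i, PowerSeries.coeff n (s i) • e i, ?_⟩
  rw [← hs', thf]
  refine Finset.sum_congr rfl fun i _ => ?_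
  congr 1
  ext n
  rw [sr, PowerSeries.coeff_mk, e.repr_sum_self]

end bij

/-! ## The inverse -/

section inv

variable {F A A' ι : Type} [Field F] [Ring A] [Algebra F A] [Ring A'] [Algebra (PowerSeries F) A']
  [Fintype ι] (e : Module.Basis ι F A) (th : A →+ A') (hb : Function.Bijective (thf e th))

/-- the sequence of an element -/
def phi (hb : Function.Bijective (thf e th)) : A' → ℕ → A := (Equiv.ofBijective _ hb).symm

theorem thf_phi (x : A') : thf e th (phi e th hb x) = x :=
  (Equiv.ofBijective _ hb).apply_symm_apply x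

theorem phi_thf (f : ℕ → A) : phi e th hb (thf e th f) = f :=
  (Equiv.ofBijective _ hb).symm_apply_apply f

theorem phi_add (x y : A') : phi e th hb (x + y) = phi e th hb x + phi e th hb y := by
  apply hb.1
  rw [thf_phi, thf_add, thf_phi, thf_phi]

theorem phi_smul (c : PowerSeries F) (x : A') :
    phi e th hb (c • x) = smulq c (phi e th hb x) := by
  apply hb.1
  rw [thf_phi, thf_smulq, thf_phi]

theorem phi_zero : phi e th hb 0 = 0 := by
  have h := phi_add e th hb 0 0
  rw [add_zero] at h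
  exact (left_eq_add.mp h)

/-- `phi` as an additive map -/
def phiA (hb : Function.Bijective (thf e th)) (n : ℕ) : A' →+ A where
  toFun x := phi e th hb x n
  map_zero' := by rw [phi_zero]; rfl
  map_add' x y := by rw [phi_add]; rfl

theorem phiA_apply (n : ℕ) (x : A') : phiA e th hb n x = phi e th hb x n := rfl

theorem phiA_smul (n : ℕ) (c : PowerSeries F) (x : A') :
    phiA e th hb n (c • x) = ∑ p ∈ antidiagonal n, PowerSeries.coeff p.1 c • phiA e th hb p.2 x := by
  rw [phiA_apply, phi_smul]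
  rfl

theorem phiA_C (n : ℕ) (r : F) (x : A') :
    phiA e th hb n ((PowerSeries.C r : PowerSeries F) • x) = r • phiA e th hb n x := by
  rw [phiA_apply, phi_smul, smulq_C]
  rfl

variable (hs : ∀ (r : F) (a : A), th (r • a) = (PowerSeries.C r : PowerSeries F) • th a)

include hs

theorem phiA_th (n : ℕ) (a : A) : phiA e th hb n (th a) = cst a n := by
  rw [phiA_apply, ← thf_cst e th hs a, phi_thf]

/-- the main formula -/
theorem phiA_lin (L : A' →ₗ[PowerSeries F] A') (x : A') (n : ℕ) :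
    phiA e th hb n (L x) =
      ∑ p ∈ antidiagonal n, phiA e th hb p.2 (L (th (phiA e th hb p.1 x))) := by
  have h1 : L x = ∑ i, sr e (phi e th hb x) i • L (th (e i)) := by
    conv_lhs => rw [← thf_phi e th hb x, thf, map_sum]
    refine Finset.sum_congr rfl fun i _ => ?_
    rw [map_smul]
  have h2 : ∀ a : A, L (th a) = ∑ i, (PowerSeries.C (e.repr a i) : PowerSeries F) • L (th (e i)) := by
    intro a
    rw [← th_sum e th hs a, map_sum]
    refine Finset.sum_congr rfl fun i _ => ?_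
    rw [map_smul]
  rw [h1, map_sum]
  simp_rw [phiA_smul]
  rw [Finset.sum_comm]
  refine Finset.sum_congr rfl fun p _ => ?_
  rw [h2, map_sum]
  refine Finset.sum_congr rfl fun i _ => ?_
  rw [phiA_C, sr, PowerSeries.coeff_mk]
  rfl

/-- right multiplication -/
theorem phiA_mul_right (x y : A') (n : ℕ) :
    phiA e th hb n (x * y) =
      ∑ p ∈ antidiagonal n, phiA e th hb p.2 (th (phiA e th hb p.1 x) * y) :=
  phiA_lin e th hb hs (LinearMap.mulRight (PowerSeries F) y) x n

/-- left multiplication -/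
theorem phiA_mul_left (x y : A') (n : ℕ) :
    phiA e th hb n (x * y) =
      ∑ p ∈ antidiagonal n, phiA e th hb p.2 (x * th (phiA e th hb p.1 y)) :=
  phiA_lin e th hb hs (LinearMap.mulLeft (PowerSeries F) x) y n

/-- equivariance -/
theorem phiA_eqv_left (g : A) (g' : A') (hg : ∀ a, th (g * a) = g' * th a) (x : A') (n : ℕ) :
    phiA e th hb n (g' * x) = g * phiA e th hb n x := by
  rw [phiA_mul_left e th hb hs]
  simp_rw [← hg, phiA_th e th hb hs]
  rw [Finset.sum_eq_single (n, 0)]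
  · rw [cst, if_pos rfl]
  · rintro ⟨a, b⟩ h hne
    rw [cst]
    split_ifs with hb'
    · rw [Finset.HasAntidiagonal.mem_antidiagonal] at h
      simp only at h hb'
      exact absurd (by rw [hb', show a = n by omega]) hne
    · rfl
  · intro h
    exact absurd (by rw [Finset.HasAntidiagonal.mem_antidiagonal]; simp) h

theorem phiA_eqv_right (g : A) (g' : A') (hg : ∀ a, th (a * g) = th a * g') (x : A') (n : ℕ) :
    phiA e th hb n (x * g') = phiA e th hb n x * g := by
  rw [phiA_mul_right e th hb hs]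
  simp_rw [← hg, phiA_th e th hb hs]
  rw [Finset.sum_eq_single (n, 0)]
  · rw [cst, if_pos rfl]
  · rintro ⟨a, b⟩ h hne
    rw [cst]
    split_ifs with hb'
    · rw [Finset.HasAntidiagonal.mem_antidiagonal] at h
      simp only at h hb'
      exact absurd (by rw [hb', show a = n by omega]) hne
    · rfl
  · intro h
    exact absurd (by rw [Finset.HasAntidiagonal.mem_antidiagonal]; simp) h

end inv

/-! ## The deformation -/

section dm

variable {F A A' W ι : Type} [Field F] [Ring A] [Algebra F A] [Ring A']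
  [Algebra (PowerSeries F) A'] [Group W] [Fintype ι] (e : Module.Basis ι F A) (th : A →+ A')
  (hb : Function.Bijective (thf e th))
  (hs : ∀ (r : F) (a : A), th (r • a) = (PowerSeries.C r : PowerSeries F) • th a)

/-- the components of the multiplication -/
def mm (n : ℕ) : A →ₗ[F] A →ₗ[F] A :=
  LinearMap.mk₂ F (fun a a' => phiA e th hb n (th a * th a'))
    (fun a b c => by rw [map_add, add_mul, map_add])
    (fun r a b => by rw [hs, smul_mul_assoc, phiA_C])
    (fun a b c => by rw [map_add, mul_add, map_add])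
    (fun r a b => by rw [hs, mul_smul_comm, phiA_C])

theorem mm_apply (n : ℕ) (a a' : A) : mm e th hb hs n a a' = phiA e th hb n (th a * th a') := rfl

/-- the deformation -/
def dd (om : W →* A) (om' : W →* A') (q : A' →+* A)
    (hq : ∀ r : PowerSeries F, q (algebraMap (PowerSeries F) A' r) =
      algebraMap F A (PowerSeries.constantCoeff r))
    (hqt : ∀ a, q (th a) = a) (h1 : th 1 = 1)
    (hl : ∀ w a, th (om w * a) = om' w * th a) (hr : ∀ w a, th (a * om w) = th a * om' w) :
    Dm F om where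
  m := mm e th hb hs
  m0 x y := by
    rw [mm_apply, phiA_apply, ← q_thf e th q hq hqt (phi e th hb (th x * th y)), thf_phi, map_mul, hqt, hqt]
  ass n x y z := by
    simp_rw [mm_apply]
    have ha := phiA_mul_right e th hb hs (th x * th y) (th z) n
    have hb' := phiA_mul_left e th hb hs (th x) (th y * th z) n
    rw [mul_assoc, hb'] at ha
    rw [← Finset.Nat.sum_antidiagonal_swap (f := fun p : ℕ × ℕ =>
      phiA e th hb p.1 (th (phiA e th hb p.2 (th x * th y)) * th z)),
      ← Finset.Nat.sum_antidiagonal_swap (f := fun p : ℕ × ℕ =>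
      phiA e th hb p.1 (th x * th (phiA e th hb p.2 (th y * th z))))]
    exact ha.symm
  wl n w x y := by
    rw [mm_apply, mm_apply, hl, mul_assoc, phiA_eqv_left e th hb hs (om w) (om' w) (hl w)]
  wm n w x y := by
    rw [mm_apply, mm_apply, hl, hr, mul_assoc]
  wr n w x y := by
    rw [mm_apply, mm_apply, hr, ← mul_assoc, phiA_eqv_right e th hb hs (om w) (om' w) (hr w)]
  n1 n x := by
    rw [mm_apply, h1, one_mul, phiA_th e th hb hs, cst, if_neg (Nat.succ_ne_zero n)]
  n2 n x := by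
    rw [mm_apply, h1, mul_one, phiA_th e th hb hs, cst, if_neg (Nat.succ_ne_zero n)]

theorem dd_mul (om : W →* A) (om' : W →* A') (q : A' →+* A)
    (hq : ∀ r : PowerSeries F, q (algebraMap (PowerSeries F) A' r) =
      algebraMap F A (PowerSeries.constantCoeff r))
    (hqt : ∀ a, q (th a) = a) (h1 : th 1 = 1)
    (hl : ∀ w a, th (om w * a) = om' w * th a) (hr : ∀ w a, th (a * om w) = th a * om' w)
    (f g : ℕ → A) :
    thf e th ((dd e th hb hs om om' q hq hqt h1 hl hr).mul f g) = thf e th f * thf e th g := by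
  rw [← thf_phi e th hb (thf e th f * thf e th g)]
  congr 1
  funext n
  rw [← phiA_apply, phiA_mul_right e th hb hs]
  have h2 : ∀ p : ℕ × ℕ, phiA e th hb p.2 (th (phiA e th hb p.1 (thf e th f)) * thf e th g) =
      ∑ r ∈ antidiagonal p.2, mm e th hb hs r.2 (f p.1) (g r.1) := by
    intro p
    rw [phiA_mul_left e th hb hs]
    refine Finset.sum_congr rfl fun r _ => ?_
    rw [mm_apply, phiA_apply e th hb p.1, phiA_apply e th hb r.1, phi_thf, phi_thf]
  simp_rw [h2]
  show ∑ p ∈ antidiagonal n, ∑ q ∈ antidiagonal p.2, mm e th hb hs p.1 (f q.1) (g q.2) = _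
  have e1 : ∀ S : ℕ → ℕ → ℕ → A, ∑ p ∈ antidiagonal n, ∑ q ∈ antidiagonal p.2,
      S p.1 q.1 q.2 = ∑ x ∈ (antidiagonal n).sigma (fun p => antidiagonal p.2),
        S x.1.1 x.2.1 x.2.2 := by
    intro S
    rw [Finset.sum_sigma]
  rw [e1 (fun a b c => mm e th hb hs a (f b) (g c)),
    e1 (fun a b c => mm e th hb hs c (f a) (g b))]
  refine Finset.sum_nbij'
    (i := fun x => ⟨(x.2.1, x.2.2 + x.1.1), (x.2.2, x.1.1)⟩)
    (j := fun x => ⟨(x.2.2, x.1.1 + x.2.1), (x.1.1, x.2.1)⟩) ?_ ?_ ?_ ?_ ?_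
  · rintro ⟨⟨a, b⟩, ⟨c, d⟩⟩ h
    simp only [mem_sigma, Finset.HasAntidiagonal.mem_antidiagonal] at h ⊢
    refine ⟨?_, trivial⟩
    omega
  · rintro ⟨⟨a, b⟩, ⟨c, d⟩⟩ h
    simp only [mem_sigma, Finset.HasAntidiagonal.mem_antidiagonal] at h ⊢
    refine ⟨?_, trivial⟩
    omega
  · rintro ⟨⟨a, b⟩, ⟨c, d⟩⟩ h
    simp only [mem_sigma, Finset.HasAntidiagonal.mem_antidiagonal] at h
    obtain ⟨h1, h2⟩ := h
    subst h2
    rfl
  · rintro ⟨⟨a, b⟩, ⟨c, d⟩⟩ h
    simp only [mem_sigma, Finset.HasAntidiagonal.mem_antidiagonal] at h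
    obtain ⟨h1, h2⟩ := h
    subst h2
    rfl
  · rintro ⟨⟨a, b⟩, ⟨c, d⟩⟩ h
    rfl

/-- the isomorphism -/
def ee (om : W →* A) (om' : W →* A') (q : A' →+* A)
    (hq : ∀ r : PowerSeries F, q (algebraMap (PowerSeries F) A' r) =
      algebraMap F A (PowerSeries.constantCoeff r))
    (hqt : ∀ a, q (th a) = a) (h1 : th 1 = 1)
    (hl : ∀ w a, th (om w * a) = om' w * th a) (hr : ∀ w a, th (a * om w) = th a * om' w) :
    (dd e th hb hs om om' q hq hqt h1 hl hr).R ≃ₐ[PowerSeries F] A' where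
  toFun x := thf e th ((dd e th hb hs om om' q hq hqt h1 hl hr).sq x)
  invFun y := (dd e th hb hs om om' q hq hqt h1 hl hr).of (phi e th hb y)
  left_inv x := by
    show (dd e th hb hs om om' q hq hqt h1 hl hr).of (phi e th hb (thf e th _)) = x
    rw [phi_thf, Dm.of_sq]
  right_inv y := by
    show thf e th (((dd e th hb hs om om' q hq hqt h1 hl hr)).sq
      ((dd e th hb hs om om' q hq hqt h1 hl hr).of (phi e th hb y))) = y
    rw [Dm.sq_of, thf_phi]
  map_mul' x y := by
    rw [← dd_mul e th hb hs om om' q hq hqt h1 hl hr]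
    congr 1
    conv_lhs => rw [← Dm.of_sq _ x, ← Dm.of_sq _ y, ← Dm.of_mul, Dm.sq_of]
  map_add' x y := by
    rw [← thf_add]
    congr 1
    conv_lhs => rw [← Dm.of_sq _ x, ← Dm.of_sq _ y, ← Dm.of_add, Dm.sq_of]
  commutes' r := by
    show thf e th ((dd e th hb hs om om' q hq hqt h1 hl hr).sq (algebraMap (PowerSeries F) _ r)) = _
    rw [Algebra.algebraMap_eq_smul_one, ← Dm.of_one, ← Dm.of_smul, Dm.sq_of, thf_smulq,
      thf_cst e th hs, h1, Algebra.algebraMap_eq_smul_one]

end dm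

/-- the section: equivariant lifts of the frame, normalised -/
theorem sect (hUnj : UnjStmt) {F W A A' Ω : Type} [Field F] [CommGroup W] [Ring A] [Algebra F A]
    [Ring A'] [Algebra (PowerSeries F) A'] [Module.Finite (PowerSeries F) A']
    [Fintype Ω] [MulAction (W × W) Ω] (om : W →* A)
    (om' : W →* A') (b : Ω → A) (c : Ω → (A →ₗ[F] F)) (hfr : FrR (bw F om) b c)
    (df : Df (PowerSeries.X : PowerSeries F) PowerSeries.constantCoeff om om') :
    ∃ th : A →+ A', (∀ (r : F) (a : A), th (r • a) = (PowerSeries.C r : PowerSeries F) • th a) ∧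
      (∀ a, df.q (th a) = a) ∧ th 1 = 1 ∧ (∀ w a, th (om w * a) = om' w * th a) ∧
      ∀ w a, th (a * om w) = th a * om' w := by
  obtain ⟨Ω', _, _, b', c', hfr'⟩ := df.per
  have hF := Pool.Agent.PFD.D2b.H49.fpf (PowerSeries F) (W × W) A' Ω' (bw (PowerSeries F) om') b' c'
    PowerSeries.X hfr'
  have hX : ∀ x : A', df.q ((PowerSeries.X : PowerSeries F) • x) = 0 := by
    intro x
    rw [Algebra.smul_def, map_mul, df.sc, PowerSeries.constantCoeff_X, map_zero, zero_mul]
  choose m hm using fun ω => df.surj (b ω)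
  have hb1 : ∀ g ω, ∃ x, m (g • ω) - bw (PowerSeries F) om' g (m ω) =
      (PowerSeries.X : PowerSeries F) • x := by
    intro g ω
    refine df.ker _ ?_
    rw [map_sub, hm, hfr.1 g ω]
    show om g.1 * (b ω * om g.2⁻¹) - df.q (om' g.1 * (m ω * om' g.2⁻¹)) = 0
    rw [map_mul, map_mul, df.qw, df.qw, hm, sub_self]
  obtain ⟨h, hh1, hh2⟩ := Pool.Agent.PFD.D2b.H13.eqf (PowerSeries F) (W × W) A' Ω
    (bw (PowerSeries F) om') PowerSeries.X hF m hb1
  have hqh : ∀ ω, df.q (h ω) = b ω := by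
    intro ω
    obtain ⟨x, hx⟩ := hh2 ω
    have h1 := congrArg df.q hx
    rw [hX, map_sub, hm, sub_eq_zero] at h1
    exact h1
  -- the unnormalised section
  let t1 : A →+ A' :=
    { toFun := fun a => ∑ ω, (PowerSeries.C (c ω a) : PowerSeries F) • h ω
      map_zero' := by simp
      map_add' := fun x y => by
        rw [← Finset.sum_add_distrib]
        refine Finset.sum_congr rfl fun ω _ => ?_
        rw [map_add, map_add, add_smul] }
  have t1d : ∀ a, t1 a = ∑ ω, (PowerSeries.C (c ω a) : PowerSeries F) • h ω := fun a => rfl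
  have t1s : ∀ (r : F) a, t1 (r • a) = (PowerSeries.C r : PowerSeries F) • t1 a := by
    intro r a
    rw [t1d, t1d, Finset.smul_sum]
    refine Finset.sum_congr rfl fun ω _ => ?_
    rw [map_smul, smul_eq_mul, map_mul, mul_smul]
  have t1q : ∀ a, df.q (t1 a) = a := by
    intro a
    rw [t1d, map_sum]
    conv_rhs => rw [← hfr.2.2 a]
    refine Finset.sum_congr rfl fun ω _ => ?_
    rw [Algebra.smul_def, map_mul, df.sc, PowerSeries.constantCoeff_C, hqh, ← Algebra.smul_def]
  have t1e : ∀ g a, t1 (bw F om g a) = bw (PowerSeries F) om' g (t1 a) := by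
    intro g a
    rw [t1d, t1d, map_sum]
    symm
    refine Fintype.sum_equiv (MulAction.toPerm g) _ _ ?_
    intro ω
    rw [map_smul]
    show (PowerSeries.C (c ω a) : PowerSeries F) • bw (PowerSeries F) om' g (h ω) =
      (PowerSeries.C (c (g • ω) (bw F om g a)) : PowerSeries F) • h (g • ω)
    rw [hfr.2.1, hh1]
  have t1l : ∀ w a, t1 (om w * a) = om' w * t1 a := by
    intro w a
    have h1 := t1e (w, 1) a
    have h2 : bw F om (w, 1) a = om w * a := by
      show om w * (a * om 1⁻¹) = _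
      rw [inv_one, map_one, mul_one]
    have h3 : bw (PowerSeries F) om' (w, 1) (t1 a) = om' w * t1 a := by
      show om' w * (t1 a * om' 1⁻¹) = _
      rw [inv_one, map_one, mul_one]
    rw [h2, h3] at h1
    exact h1
  have t1r : ∀ w a, t1 (a * om w) = t1 a * om' w := by
    intro w a
    have h1 := t1e (1, w⁻¹) a
    have h2 : bw F om (1, w⁻¹) a = a * om w := by
      show om 1 * (a * om w⁻¹⁻¹) = _
      rw [inv_inv, map_one, one_mul]
    have h3 : bw (PowerSeries F) om' (1, w⁻¹) (t1 a) = t1 a * om' w := by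
      show om' 1 * (t1 a * om' w⁻¹⁻¹) = _
      rw [inv_inv, map_one, one_mul]
    rw [h2, h3] at h1
    exact h1
  -- the unit
  have hunit : ∀ r : PowerSeries F, IsUnit (1 + PowerSeries.X * r) := by
    intro r
    rw [PowerSeries.isUnit_iff_constantCoeff]
    simp
  obtain ⟨z, hz⟩ := df.ker (t1 1 - 1) (by rw [map_sub, t1q, map_one, sub_self])
  have hu1 := (hUnj (PowerSeries F) A' PowerSeries.X hunit
    (LinearMap.mulLeft (PowerSeries F) (t1 1)) (fun x => ⟨z * x, by
      show t1 1 * x - x = _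
      rw [← smul_mul_assoc, ← hz, sub_mul, one_mul]⟩)).2 1
  have hu2 := (hUnj (PowerSeries F) A' PowerSeries.X hunit
    (LinearMap.mulRight (PowerSeries F) (t1 1)) (fun x => ⟨x * z, by
      show x * t1 1 - x = _
      rw [← mul_smul_comm, ← hz, mul_sub, mul_one]⟩)).2 1
  obtain ⟨v, hv⟩ := hu1
  obtain ⟨v', hv'⟩ := hu2
  have hv1 : t1 1 * v = 1 := hv
  have hv2 : v' * t1 1 = 1 := hv'
  have hvv : v' = v := by
    calc v' = v' * (t1 1 * v) := by rw [hv1, mul_one]
      _ = v := by rw [← mul_assoc, hv2, one_mul]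
  rw [hvv] at hv2
  have hvw : ∀ w, v * om' w = om' w * v := by
    intro w
    have h1 : t1 1 * om' w = om' w * t1 1 := by
      rw [← t1r, ← t1l, one_mul, mul_one]
    calc v * om' w = v * (om' w * (t1 1 * v)) := by rw [hv1, mul_one]
      _ = v * (om' w * t1 1) * v := by simp only [mul_assoc]
      _ = (v * t1 1) * om' w * v := by rw [← h1]; simp only [mul_assoc]
      _ = om' w * v := by rw [hv2, one_mul]
  have hqv : df.q v = 1 := by
    have h1 := congrArg df.q hv1
    rw [map_mul, t1q, one_mul, map_one] at h1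
    exact h1
  refine ⟨{ toFun := fun a => t1 a * v
            map_zero' := by rw [map_zero, zero_mul]
            map_add' := fun x y => by rw [map_add, add_mul] }, ?_, ?_, ?_, ?_, ?_⟩
  · intro r a
    show t1 (r • a) * v = (PowerSeries.C r : PowerSeries F) • (t1 a * v)
    rw [t1s, smul_mul_assoc]
  · intro a
    show df.q (t1 a * v) = a
    rw [map_mul, t1q, hqv, mul_one]
  · exact hv1
  · intro w a
    show t1 (om w * a) * v = om' w * (t1 a * v)
    rw [t1l, mul_assoc]
  · intro w a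
    show t1 (a * om w) * v = t1 a * v * om' w
    rw [t1r, mul_assoc, mul_assoc, hvw]

/-- DFM -/
theorem dfm (hUnj : UnjStmt) : DfmStmt := by
  intro F W A A' Ω _ _ _ _ _ _ _ _ _ _ _ om om' b c hfr df
  obtain ⟨th, hs, hqt, h1, hl, hr⟩ := sect hUnj om om' b c hfr df
  let e := Module.finBasis F A
  have hreg : ∀ x : A', (PowerSeries.X : PowerSeries F) • x = 0 → x = 0 := by
    intro x hx
    rcases smul_eq_zero.mp hx with h | h
    · exact absurd h PowerSeries.X_ne_zero
    · exact h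
  have hb : Function.Bijective (thf e th) := by
    refine ⟨?_, thf_surj e th df.q hs hqt df.ker⟩
    intro f g hfg
    funext n
    have h2 : thf e th (f - g) = 0 := by
      have h3 := thf_add e th (f - g) g
      rw [sub_add_cancel, hfg] at h3
      exact (right_eq_add.mp h3)
    have h4 := thf_zero e th df.q df.sc hqt hreg n (f - g) h2
    exact sub_eq_zero.mp h4
  refine ⟨dd e th hb hs om om' df.q df.sc hqt h1 hl hr,
    ee e th hb hs om om' df.q df.sc hqt h1 hl hr, ?_, ?_⟩
  · intro w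
    show thf e th ((dd e th hb hs om om' df.q df.sc hqt h1 hl hr).sq
      ((dd e th hb hs om om' df.q df.sc hqt h1 hl hr).of (cst (om w)))) = om' w
    rw [Dm.sq_of, thf_cst e th hs]
    have h2 := hl w 1
    rw [mul_one, h1, mul_one] at h2
    exact h2
  · intro g
    show df.q (thf e th ((dd e th hb hs om om' df.q df.sc hqt h1 hl hr).sq
      ((dd e th hb hs om om' df.q df.sc hqt h1 hl hr).of g))) = g 0
    rw [Dm.sq_of, q_thf e th df.q df.sc hqt]

end Pool.Agent.PSS.H67
end
end -- Pool.Agent.Helper67_PSS.DFM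

section -- Pool.Agent.Helper68_PFD.CNR

set_option autoImplicit false

/-!
# Squad PFD, row CNR: ranks of centres, special fibre
-/

noncomputable section

namespace Pool.Agent.PFD.D4.H68

open Pool.Agent.PFC.B1 (BiM FS Sep Split)
open Pool.Agent.PFD.D2
open Pool.Agent.PFD.D2b
open Pool.Agent.PFD.D4

theorem q_smul {R F A A1 : Type} [CommRing R] [Field F] {c : Cdv R F} [Ring A] [Algebra F A]
    [Ring A1] [Algebra R A1] (fb : FibG A1 A c) (r : R) (x : A1) :
    fb.q (r • x) = c.κ r • fb.q x := by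
  rw [Algebra.smul_def, map_mul, fb.sc, Algebra.smul_def]

/-- ROW CNR. -/
theorem cnr : CnrStmt := by
  intro R F A A1 _ _ _ _ c _ _ _ _ _ _ fb hlift
  have hπ : c.π ≠ 0 := by
    intro h
    exact one_ne_zero (c.reg 1 (by rw [h, zero_mul]))
  have hfin : Module.Finite R (Subalgebra.center R A1) :=
    inferInstanceAs (Module.Finite R (Subalgebra.toSubmodule (Subalgebra.center R A1)))
  have hfree : Module.Free R (Subalgebra.center R A1) :=
    inferInstanceAs (Module.Free R (Subalgebra.toSubmodule (Subalgebra.center R A1)))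
  let b := Module.finBasis R (Subalgebra.center R A1)
  have hcen : ∀ x : Subalgebra.center R A1, fb.q (x : A1) ∈ Subalgebra.center F A := by
    intro x
    rw [Subalgebra.mem_center_iff]
    intro a
    obtain ⟨a1, rfl⟩ := fb.surj a
    rw [← map_mul, ← map_mul]
    exact congrArg fb.q (Subalgebra.mem_center_iff.1 x.2 a1)
  let v : Fin (Module.finrank R (Subalgebra.center R A1)) → Subalgebra.center F A :=
    fun i => ⟨fb.q (b i : A1), hcen (b i)⟩
  have hq : ∀ r : Fin (Module.finrank R (Subalgebra.center R A1)) → R,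
      fb.q ((∑ i, r i • b i : Subalgebra.center R A1) : A1) =
        ((∑ i, c.κ (r i) • v i : Subalgebra.center F A) : A) := by
    intro r
    rw [AddSubmonoidClass.coe_finsetSum, AddSubmonoidClass.coe_finsetSum, map_sum]
    refine Finset.sum_congr rfl fun i _ => ?_
    exact q_smul fb (r i) (b i : A1)
  have hli : LinearIndependent F v := by
    rw [Fintype.linearIndependent_iff]
    intro g hg
    choose r hr using fun i => c.surj (g i)
    have h1 : fb.q ((∑ i, r i • b i : Subalgebra.center R A1) : A1) = 0 := by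
      rw [hq]
      have : (∑ i, c.κ (r i) • v i) = 0 := by
        rw [← hg]
        exact Finset.sum_congr rfl fun i _ => by rw [hr i]
      rw [this]
      rfl
    obtain ⟨y, hy⟩ := fb.ker _ h1
    have hyc : y ∈ Subalgebra.center R A1 := by
      rw [Subalgebra.mem_center_iff]
      intro a
      have h2 := Subalgebra.mem_center_iff.1 (∑ i, r i • b i : Subalgebra.center R A1).2 a
      rw [hy, mul_smul_comm, smul_mul_assoc] at h2
      exact smul_right_injective A1 hπ h2
    have h3 : (∑ i, r i • b i : Subalgebra.center R A1) = c.π • ⟨y, hyc⟩ := Subtype.ext hy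
    intro i
    have h4 : b.repr (∑ i, r i • b i) i = r i := by
      have := b.repr_sum_self r
      exact congrFun this i
    rw [h3, map_smul] at h4
    rw [← hr i]
    refine (c.ker (r i)).2 ⟨b.repr ⟨y, hyc⟩ i, ?_⟩
    rw [← h4]
    rfl
  have hsp : ⊤ ≤ Submodule.span F (Set.range v) := by
    rintro ⟨z, hz⟩ -
    obtain ⟨z1, hz1, rfl⟩ := hlift z (fun a => (Subalgebra.mem_center_iff.1 hz a).symm)
    have hz1c : z1 ∈ Subalgebra.center R A1 :=
      Subalgebra.mem_center_iff.2 fun a => (hz1 a).symm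
    have h5 := b.sum_repr ⟨z1, hz1c⟩
    have h6 : (⟨fb.q z1, hz⟩ : Subalgebra.center F A) =
        ∑ i, c.κ (b.repr ⟨z1, hz1c⟩ i) • v i := by
      apply Subtype.ext
      rw [← hq, h5]
    rw [h6]
    exact Submodule.sum_mem _ fun i _ => Submodule.smul_mem _ _ (Submodule.subset_span ⟨i, rfl⟩)
  have hb := Module.Basis.mk hli hsp
  rw [Module.finrank_eq_card_basis hb, Fintype.card_fin]

end Pool.Agent.PFD.D4.H68
end
end -- Pool.Agent.Helper68_PFD.CNR

section -- Pool.Agent.PST.Dzw

/-!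
# Squad PST: the dimension of the centre of the generic fibre, if the centre is onto
-/

open scoped BigOperators TensorProduct

noncomputable section

namespace Pool.Agent.PST

open Pool.Agent.PFC (tw IsTv)
open Pool.Agent.PFD.D2 (Cdv FibG wittCdv)
open Pool.Agent.PFD.D2b (FrR)
open Pool.Agent.PSS

/-- the dimension of the centre of the generic fibre of a deformation with surjective centre -/
theorem dzw (F F' W A A' : Type) [Field F] [CommGroup W] [Ring A] [Algebra F A]
    [FiniteDimensional F A] [Ring A'] [Algebra (PowerSeries F) A']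
    [Module.Finite (PowerSeries F) A'] [Module.Free (PowerSeries F) A'] [Field F']
    [Algebra (PowerSeries F) F'] [FaithfulSMul (PowerSeries F) F'] (om : W →* A) (om' : W →* A')
    (df : Df (PowerSeries.X : PowerSeries F) PowerSeries.constantCoeff om om')
    (hlift : ∀ z₀ : A, (∀ a, z₀ * a = a * z₀) → ∃ Z : A', (∀ a, Z * a = a * Z) ∧ df.q Z = z₀) :
    Module.finrank F' (Subalgebra.center F' (F' ⊗[PowerSeries F] A')) =
      Module.finrank F (Subalgebra.center F A) := by
  obtain ⟨cv, hπ, hκ⟩ := Pool.Agent.PSS.H63.psc F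
  let fb : FibG A' A cv :=
    { q := df.q
      sc := fun r => by rw [df.sc, hκ]
      surj := df.surj
      ker := fun x hx => by rw [hπ]; exact df.ker x hx }
  have h1 := Pool.Agent.PFD.D4.H68.cnr (PowerSeries F) F A A' cv fb hlift
  have h2 := Pool.Agent.PFD.D4.H35.cnk (PowerSeries F) F' A'
  rw [h1, h2]

/-- a permutation frame with twisted diagonal stabilisers has `StE` -/
theorem stE_of {V E Ω : Type} [CommGroup V] [Group E] [MulAction (V × V) Ω] (φ : E →* MulAut V)
    (h : ∀ ω : Ω, ∃ (e : E) (S : Subgroup V),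
      MulAction.stabilizer (V × V) ω = tw (φ e).toMonoidHom S) : StE φ Ω := by
  intro ω u v hh
  obtain ⟨e, S, hS⟩ := h ω
  have h1 : ((u, v) : V × V) ∈ MulAction.stabilizer (V × V) ω := hh
  rw [hS] at h1
  obtain ⟨s, -, hs⟩ := h1
  have e1 : φ e s = u := congrArg Prod.fst hs
  have e2 : s = v := congrArg Prod.snd hs
  exact ⟨e, by rw [← e1, ← e2]⟩

/-- from `Df` to `Dm`, for the frame of `V × V` -/
theorem df_dm {F V Ω A A' : Type} [Field F] [CommGroup V] [Ring A] [Algebra F A]
    [FiniteDimensional F A] [Ring A'] [Algebra (PowerSeries F) A']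
    [Module.Finite (PowerSeries F) A'] [Module.Free (PowerSeries F) A'] [Fintype Ω]
    [MulAction (V × V) Ω] (W : Subgroup V) (α : V →* A) (α' : W →* A') (b : Ω → A)
    (c : Ω → (A →ₗ[F] F)) (hfr : FrR (bw F α) b c)
    (df : Df (PowerSeries.X : PowerSeries F) PowerSeries.constantCoeff (aw α W) α') :
    ∃ (D₀ : Dm F (aw α W)) (θ : D₀.R ≃ₐ[PowerSeries F] A'),
      (∀ w, θ (D₀.w w) = α' w) ∧ ∀ Z, df.q (θ Z) = D₀.sq Z 0 := by
  let _ : MulAction (W × W) Ω := MulAction.compHom Ω (W.subtype.prodMap W.subtype)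
  obtain ⟨D₀, θ, h1, h2⟩ := Pool.Agent.PSS.H67.dfm Pool.Agent.PSS.H39.unj F W A A' Ω (aw α W) α' b c
    ⟨fun g t => hfr.1 ((g.1 : V), (g.2 : V)) t,
      fun g t n => hfr.2.1 ((g.1 : V), (g.2 : V)) t n, hfr.2.2⟩ df
  refine ⟨D₀, θ, h1, fun Z => ?_⟩
  have h3 := h2 (D₀.sq Z)
  rw [Dm.of_sq] at h3
  exact h3

/-- transport of a symmetric form with a relative Frobenius system by an isomorphism -/
theorem rf_equiv {R W A A' K : Type} [CommRing R] [CommGroup W] [Fintype W] [Ring A]
    [Algebra R A] [Ring A'] [Algebra R A'] [Fintype K] (θ : A ≃ₐ[R] A') (α : W →* A)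
    (α' : W →* A') (hθ : ∀ w, θ (α w) = α' w) (lam : A →ₗ[R] R) (x y : K → A)
    (h : RF R α lam x y) :
    RF R α' (lam.comp θ.symm.toLinearMap) (fun k => θ (x k)) (fun k => θ (y k)) := by
  constructor
  · intro a a'
    change lam (θ.symm (a * a')) = lam (θ.symm (a' * a))
    rw [map_mul θ.symm, map_mul θ.symm, h.sym]
  · intro a
    have h1 := congrArg θ (h.e1 (θ.symm a))
    rw [AlgEquiv.apply_symm_apply, map_sum] at h1
    refine Eq.trans (Finset.sum_congr rfl fun k _ => ?_) h1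
    rw [map_sum]
    refine Finset.sum_congr rfl fun w _ => ?_
    have h2 : lam (θ.symm (α' w⁻¹ * θ (y k) * a)) = lam (α w⁻¹ * y k * θ.symm a) := by
      rw [map_mul θ.symm, map_mul θ.symm, AlgEquiv.symm_apply_apply, ← hθ,
        AlgEquiv.symm_apply_apply]
    change lam (θ.symm (α' w⁻¹ * θ (y k) * a)) • _ = _
    rw [map_smul θ, map_mul θ, hθ, h2]
  · intro a
    have h1 := congrArg θ (h.e2 (θ.symm a))
    rw [AlgEquiv.apply_symm_apply, map_sum] at h1
    refine Eq.trans (Finset.sum_congr rfl fun k _ => ?_) h1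
    rw [map_sum]
    refine Finset.sum_congr rfl fun w _ => ?_
    have h2 : lam (θ.symm (a * (θ (x k) * α' w))) = lam (θ.symm a * (x k * α w)) := by
      rw [map_mul θ.symm, map_mul θ.symm, AlgEquiv.symm_apply_apply, ← hθ,
        AlgEquiv.symm_apply_apply]
    change lam (θ.symm (a * (θ (x k) * α' w))) • _ = _
    rw [map_smul θ, map_mul θ, hθ, h2]

end Pool.Agent.PST
end
end -- Pool.Agent.PST.Dzw

section -- Pool.Agent.Helper23_PFE.YFP

/-! Squad PFE, row YFP: fixed vectors modulo `p` lift. -/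

open scoped BigOperators

noncomputable section

namespace Pool.Agent.PFE.H23

open MulOpposite
open Pool.Agent.PFC.B1 (FS Split BiM Sep)
open Pool.Agent.PFD.D2b (wrp FPl FrR)

section

variable {R Γ W N : Type} [CommRing R] [CommRing Γ] [Algebra R Γ] [CommGroup W]
    [AddCommGroup N] [Module R N]

theorem wrp_lm (om : W →* Γ) (B : BiM R Γ N) (w : W × W) (γ : Γ) (n : N) :
    B.lm γ (wrp om B w n) = wrp om B w (B.lm γ n) := by
  show B.lm γ (B.lm (om w.1) (B.rm (op (om w.2⁻¹)) n)) =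
    B.lm (om w.1) (B.rm (op (om w.2⁻¹)) (B.lm γ n))
  rw [← Module.End.mul_apply (B.lm γ), ← map_mul, mul_comm γ, map_mul, Module.End.mul_apply,
    B.comm γ]

theorem wrp_rm (om : W →* Γ) (B : BiM R Γ N) (w : W × W) (γ : Γ) (n : N) :
    B.rm (op γ) (wrp om B w n) = wrp om B w (B.rm (op γ) n) := by
  show B.rm (op γ) (B.lm (om w.1) (B.rm (op (om w.2⁻¹)) n)) =
    B.lm (om w.1) (B.rm (op (om w.2⁻¹)) (B.rm (op γ) n))
  rw [← B.comm, ← Module.End.mul_apply (B.rm (op γ)), ← map_mul, ← op_mul,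
    mul_comm (om w.2⁻¹) γ, op_mul, map_mul, Module.End.mul_apply]

end

/-- the action of a group on the index set of the frame -/
def actT (G Ω Ω' : Type) [Group G] [MulAction G Ω] [MulAction G Ω'] (l : ℕ) :
    MulAction G (Ω × Fin l ⊕ Ω' × (Fin l × Fin l)) where
  smul w := Sum.map (fun p => (w • p.1, p.2)) (fun p => (w • p.1, p.2))
  one_smul := by
    rintro (p | p)
    · show Sum.inl ((1 : G) • p.1, p.2) = Sum.inl p
      rw [one_smul]
    · show Sum.inr ((1 : G) • p.1, p.2) = Sum.inr p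
      rw [one_smul]
  mul_smul := by
    rintro a b (p | p)
    · show Sum.inl ((a * b) • p.1, p.2) = Sum.inl (a • b • p.1, p.2)
      rw [mul_smul]
    · show Sum.inr ((a * b) • p.1, p.2) = Sum.inr (a • b • p.1, p.2)
      rw [mul_smul]

theorem yfp : YfpStmt := by
  intro R Γ W N X Ω Ω' _ _ _ _ _ _ _ _ _ _ _ _ l G χ B Fr p
  letI : MulAction (W × W) (Ω × Fin l ⊕ Ω' × (Fin l × Fin l)) := actT (W × W) Ω Ω' l
  let b : Ω × Fin l ⊕ Ω' × (Fin l × Fin l) → N :=
    Sum.elim (fun q => B.lm (G.y ^ (q.2 : ℕ)) (Fr.g q.1))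
      (fun q => B.lm (G.y ^ (q.2.1 : ℕ)) (B.rm (op (G.y ^ (q.2.2 : ℕ))) (Fr.h q.1)))
  let c : Ω × Fin l ⊕ Ω' × (Fin l × Fin l) → (N →ₗ[R] R) :=
    Sum.elim (fun q => Fr.c q.1 ∘ₗ B.lm (G.y ^ (l - 1 - (q.2 : ℕ))))
      (fun q => Fr.d q.1 ∘ₗ B.lm (G.y ^ (l - 1 - (q.2.1 : ℕ))) ∘ₗ
        B.rm (op (G.y ^ (l - 1 - (q.2.2 : ℕ)))))
  refine Pool.Agent.PFD.D2b.H49.fpf R (W × W) N (Ω × Fin l ⊕ Ω' × (Fin l × Fin l))
    (wrp G.om B) b c p ⟨?_, ?_, ?_⟩
  · rintro w (q | q)
    · show B.lm (G.y ^ (q.2 : ℕ)) (Fr.g (w • q.1)) =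
        wrp G.om B w (B.lm (G.y ^ (q.2 : ℕ)) (Fr.g q.1))
      rw [Fr.gw, wrp_lm]
    · show B.lm (G.y ^ (q.2.1 : ℕ)) (B.rm (op (G.y ^ (q.2.2 : ℕ))) (Fr.h (w • q.1))) =
        wrp G.om B w (B.lm (G.y ^ (q.2.1 : ℕ)) (B.rm (op (G.y ^ (q.2.2 : ℕ))) (Fr.h q.1)))
      rw [Fr.hw, wrp_rm, wrp_lm]
  · rintro w (q | q) n
    · show Fr.c (w • q.1) (B.lm (G.y ^ (l - 1 - (q.2 : ℕ))) (wrp G.om B w n)) =
        Fr.c q.1 (B.lm (G.y ^ (l - 1 - (q.2 : ℕ))) n)
      rw [wrp_lm, Fr.cw]
    · show Fr.d (w • q.1) (B.lm (G.y ^ (l - 1 - (q.2.1 : ℕ)))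
          (B.rm (op (G.y ^ (l - 1 - (q.2.2 : ℕ)))) (wrp G.om B w n))) =
        Fr.d q.1 (B.lm (G.y ^ (l - 1 - (q.2.1 : ℕ)))
          (B.rm (op (G.y ^ (l - 1 - (q.2.2 : ℕ)))) n))
      rw [wrp_rm, wrp_lm, Fr.dw]
  · intro n
    have h := Fr.fr n
    rw [LinearMap.id_apply] at h
    conv_rhs => rw [← h]
    rw [Fintype.sum_sum_type, Fintype.sum_prod_type, Fintype.sum_prod_type]
    congr 1
    · refine Finset.sum_congr rfl fun o _ => ?_
      rw [Finset.sum_range]
      rfl
    · refine Finset.sum_congr rfl fun o _ => ?_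
      rw [Fintype.sum_prod_type, Finset.sum_range]
      refine Finset.sum_congr rfl fun i _ => ?_
      rw [Finset.sum_range]
      rfl

end Pool.Agent.PFE.H23
end
end -- Pool.Agent.Helper23_PFE.YFP

section -- Pool.Agent.Helper32_PFE.BS1

/-!
# Squad PFE, row BS1 (helper32): the centre of the part of degree `1` after a base change
-/

set_option autoImplicit false

open scoped BigOperators TensorProduct

noncomputable section

namespace Pool.Agent.PFE.H32

open Pool.Agent.PFD.D2

/-- the centres of isomorphic algebras have the same dimension -/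
theorem center_finrank {K A B : Type} [Field K] [Ring A] [Algebra K A] [Ring B] [Algebra K B]
    (e : A ≃ₐ[K] B) :
    Module.finrank K (Subalgebra.center K A) = Module.finrank K (Subalgebra.center K B) := by
  have h1 : (Subalgebra.center K A).map (e : A →ₐ[K] B) = Subalgebra.center K B := by
    ext b
    rw [Subalgebra.mem_map, Subalgebra.mem_center_iff]
    constructor
    · rintro ⟨a, ha, rfl⟩ c
      obtain ⟨d, rfl⟩ := e.surjective c
      rw [Subalgebra.mem_center_iff] at ha
      change e d * e a = e a * e d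
      rw [← map_mul, ha, map_mul]
    · intro h
      refine ⟨e.symm b, ?_, e.apply_symm_apply b⟩
      rw [Subalgebra.mem_center_iff]
      intro a
      apply e.injective
      rw [map_mul, map_mul, e.apply_symm_apply, h]
  rw [← h1]
  exact LinearEquiv.finrank_eq (Subalgebra.equivMapOfInjective _ (e : A →ₐ[K] B)
    e.injective).toLinearEquiv

/-- BS1 -/
theorem bs1 : Bs1Stmt := by
  intro R K S X _ _ _ _ _ _ _ _ _ _ _ _ G G' hG
  -- the projection onto the part of degree `1`
  obtain ⟨r, hr⟩ : ∃ r : S →ₗ[R] G.S1, ∀ s, ((r s : G.S1) : S) = G.c 1 s :=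
    ⟨(G.c 1).codRestrict (Subalgebra.toSubmodule G.S1) (fun s => G.ci 1 s), fun s => rfl⟩
  have hr1 : ∀ s : G.S1, r s = s := fun s => Subtype.ext ((hr s).trans s.2)
  have i1 : Module.Finite R G.S1 := Module.Finite.of_surjective r fun s => ⟨s, hr1 s⟩
  have i2 : Module.Free R G.S1 :=
    inferInstanceAs (Module.Free R (Subalgebra.toSubmodule G.S1))
  -- the base change of the inclusion
  obtain ⟨f, hf⟩ : ∃ f : K ⊗[R] G.S1 →ₐ[K] K ⊗[R] S, ∀ (k : K) (s : G.S1),
      f (k ⊗ₜ[R] s) = k ⊗ₜ[R] (s : S) :=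
    ⟨Algebra.TensorProduct.map (AlgHom.id K K) G.S1.val, fun k s => by
      rw [Algebra.TensorProduct.map_tmul]
      rfl⟩
  have h1 : ∀ m : K ⊗[R] G.S1, r.baseChange K (f m) = m := by
    intro m
    induction m using TensorProduct.induction_on with
    | zero => rw [map_zero, map_zero]
    | tmul k s => rw [hf, LinearMap.baseChange_tmul, hr1]
    | add a b ha hb => rw [map_add, map_add, ha, hb]
  have h2 : ∀ m : K ⊗[R] S, f (r.baseChange K m) = G'.c 1 m := by
    intro m
    induction m using TensorProduct.induction_on with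
    | zero => rw [map_zero, map_zero, map_zero]
    | tmul k s => rw [LinearMap.baseChange_tmul, hf, hr, hG]
    | add a b ha hb => rw [map_add, map_add, map_add, ha, hb]
  have h3 : ∀ m : K ⊗[R] G.S1, f m ∈ G'.S1 := by
    intro m
    change G'.c 1 (f m) = f m
    rw [← h2, h1]
  have h4 : Function.Bijective (f.codRestrict G'.S1 h3) := by
    constructor
    · intro a b hab
      have h5 : f a = f b := congrArg Subtype.val hab
      rw [← h1 a, h5, h1]
    · intro m
      refine ⟨r.baseChange K m, Subtype.ext ?_⟩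
      exact (h2 m).trans m.2
  rw [← center_finrank (AlgEquiv.ofBijective _ h4)]
  exact Pool.Agent.PFD.D4.H35.cnk R K G.S1

end Pool.Agent.PFE.H32
end
end -- Pool.Agent.Helper32_PFE.BS1

section -- Pool.Agent.Helper41_PFE.BYD

/-!
# Squad PFE, row BYD: base change of the frame
-/

set_option autoImplicit false

open scoped BigOperators TensorProduct

noncomputable section

namespace Pool.Agent.PFE.H41

open Pool.Agent.PFC.B1 (FS)

theorem byd : BydStmt := by
  intro R K A X J Ω Ω' _ _ _ _ _ _ _ _ _ y l χ χK D hχ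
  obtain ⟨d', hb, hb', hlam, hsym⟩ := Pool.Agent.PFD.D4.H35.bfs R K A J D.d
  have hmv : ∀ (k : K) (r : R) (a : A), (algebraMap R K r * k) ⊗ₜ[R] a = k ⊗ₜ[R] (r • a) := by
    intro k r a
    rw [← Algebra.smul_def, TensorProduct.smul_tmul]
  have hpow : ∀ n : ℕ, ((1 : K) ⊗ₜ[R] y) ^ n = (1 : K) ⊗ₜ[R] (y ^ n) := by
    intro n
    rw [Algebra.TensorProduct.tmul_pow, one_pow]
  have hsm : ∀ (k : K) (r : R) (a : A), (algebraMap R K r * k) • ((1 : K) ⊗ₜ[R] a) =
      k ⊗ₜ[R] (r • a) := by
    intro k r a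
    rw [TensorProduct.smul_tmul', smul_eq_mul, mul_one, hmv]
  have hχs : ∀ x (a : A), χK x • ((1 : K) ⊗ₜ[R] a) = (1 : K) ⊗ₜ[R] (χ x • a) := by
    intro x a
    rw [← hsm, mul_one, hχ]
  let D' : Yd K (K ⊗[R] A) X J Ω Ω' ((1 : K) ⊗ₜ[R] y) l χK :=
    { hl := D.hl
      χl := fun x => by rw [hχ, ← map_pow, D.χl, map_one]
      χu := fun x hx => by
        have h := (D.χu x hx).map (algebraMap R K)
        rwa [map_sub, map_one, ← hχ] at h
      yl := by rw [hpow, D.yl, TensorProduct.tmul_zero]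
      d := d'
      ds := hsym D.ds
      deg := D.deg
      g := fun o => 1 ⊗ₜ D.g o
      g' := fun o => 1 ⊗ₜ D.g' o
      gy := fun o => by
        rw [Algebra.TensorProduct.tmul_mul_tmul, Algebra.TensorProduct.tmul_mul_tmul, mul_one,
          hχs, D.gy]
      g'y := fun o => by
        rw [Algebra.TensorProduct.tmul_mul_tmul, Algebra.TensorProduct.tmul_mul_tmul, mul_one,
          hχs, D.g'y]
      h := fun o => 1 ⊗ₜ D.h o
      h' := fun o => 1 ⊗ₜ D.h' o
      fr := fun a => by
        induction a using TensorProduct.induction_on with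
        | zero => simp
        | tmul k a =>
          have e1 : ∀ (o : Ω) (i : ℕ),
              d'.lam (1 ⊗ₜ D.g' o * (1 ⊗ₜ y) ^ (l - 1 - i) * k ⊗ₜ a) •
                ((1 ⊗ₜ y) ^ i * (1 : K) ⊗ₜ[R] D.g o) =
              k ⊗ₜ[R] (D.d.lam (D.g' o * y ^ (l - 1 - i) * a) • (y ^ i * D.g o)) := by
            intro o i
            rw [hpow, hpow]
            simp only [Algebra.TensorProduct.tmul_mul_tmul, one_mul]
            rw [hlam, hsm]
          have e2 : ∀ (o : Ω') (i j : ℕ),
              d'.lam (1 ⊗ₜ D.h' o * ((1 ⊗ₜ y) ^ (l - 1 - i) * k ⊗ₜ a *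
                (1 ⊗ₜ y) ^ (l - 1 - j))) •
                ((1 ⊗ₜ y) ^ i * (1 : K) ⊗ₜ[R] D.h o * (1 ⊗ₜ y) ^ j) =
              k ⊗ₜ[R] (D.d.lam (D.h' o * (y ^ (l - 1 - i) * a * y ^ (l - 1 - j))) •
                (y ^ i * D.h o * y ^ j)) := by
            intro o i j
            rw [hpow, hpow, hpow, hpow]
            simp only [Algebra.TensorProduct.tmul_mul_tmul, one_mul, mul_one]
            rw [hlam, hsm]
          simp only [e1, e2]
          simp only [← TensorProduct.tmul_sum]
          rw [← TensorProduct.tmul_add, D.fr a]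
        | add a b ha hb =>
          simp only [mul_add, add_mul, map_add, add_smul, Finset.sum_add_distrib]
          conv_rhs => rw [← ha, ← hb]
          abel }
  refine ⟨D', ?_⟩
  have h1 : ∀ r, D'.e r = (1 : K) ⊗ₜ[R] D.e r := by
    rintro (o | p)
    · rfl
    · show ((1 : K) ⊗ₜ[R] y) ^ (p.2 : ℕ) * (1 : K) ⊗ₜ[R] D.h p.1 = (1 : K) ⊗ₜ[R] (y ^ (p.2 : ℕ) * D.h p.1)
      rw [hpow, Algebra.TensorProduct.tmul_mul_tmul, one_mul]
  have h2 : ∀ r, D'.e' r = (1 : K) ⊗ₜ[R] D.e' r := by
    rintro (o | p)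
    · rfl
    · show (1 : K) ⊗ₜ[R] D.h' p.1 * ((1 : K) ⊗ₜ[R] y) ^ (l - 1 - (p.2 : ℕ)) =
        (1 : K) ⊗ₜ[R] (D.h' p.1 * y ^ (l - 1 - (p.2 : ℕ)))
      rw [hpow, Algebra.TensorProduct.tmul_mul_tmul, one_mul]
  rw [Yd.RT, Yd.RT, TensorProduct.tmul_sum]
  refine Finset.sum_congr rfl fun r _ => ?_
  rw [h1, h2, mul_one, mul_one, Algebra.TensorProduct.tmul_mul_tmul, one_mul]

end Pool.Agent.PFE.H41
end
end -- Pool.Agent.Helper41_PFE.BYD

section -- Pool.Agent.Helper44_PFE.WFX

/-! Squad PFE (MP_6a3f1a_al), row WFX (helper44): elements of `S` which commute with `W` modulo `π`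
lift. -/

set_option autoImplicit false

open scoped BigOperators

noncomputable section

namespace Pool.Agent.PFE.H44

open Pool.Agent.PFC.B1 (FS)
open Pool.Agent.PFD.D2b (FPl FrR)

section rp

variable {R S W : Type} [CommRing R] [Ring S] [Algebra R S] [CommGroup W]

/-- `(u, v) s = om u * s * om v⁻¹` -/
def rpW (R : Type) {S W : Type} [CommRing R] [Ring S] [Algebra R S] [CommGroup W] (om : W →* S) :
    W × W →* (S →ₗ[R] S) where
  toFun := fun w =>
    (LinearMap.mulLeft R (om w.1)).comp (LinearMap.mulRight R (om w.2⁻¹))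
  map_one' := by
    ext a
    simp
  map_mul' := by
    intro x y
    ext a
    simp [mul_assoc]

theorem rpW_apply (om : W →* S) (w : W × W) (s : S) :
    rpW R om w s = om w.1 * (s * om w.2⁻¹) := rfl

end rp

theorem wfx : WfxStmt := by
  intro R S X Ω W _ _ _ _ _ _ _ _ _ G E p s hs
  have hinv : ∀ w : W, E.om w⁻¹ * E.om w = 1 := fun w => by
    rw [← map_mul, inv_mul_cancel, map_one]
  have hinv' : ∀ w : W, E.om w * E.om w⁻¹ = 1 := fun w => by
    rw [← map_mul, mul_inv_cancel, map_one]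
  have hfr : FrR (rpW R E.om) E.f.b (fun o => E.f.lam.comp (LinearMap.mulLeft R (E.f.b' o))) := by
    refine ⟨fun w o => ?_, fun w o n => ?_, fun n => ?_⟩
    · rw [rpW_apply, E.bw, mul_assoc]
    · change E.f.lam (E.f.b' (w • o) * rpW R E.om w n) = E.f.lam (E.f.b' o * n)
      rw [rpW_apply, E.bw']
      have e1 : E.om w.2 * E.f.b' o * E.om w.1⁻¹ * (E.om w.1 * (n * E.om w.2⁻¹)) =
          E.om w.2 * (E.f.b' o * n * E.om w.2⁻¹) := by
        calc E.om w.2 * E.f.b' o * E.om w.1⁻¹ * (E.om w.1 * (n * E.om w.2⁻¹)) =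
            E.om w.2 * E.f.b' o * (E.om w.1⁻¹ * E.om w.1) * (n * E.om w.2⁻¹) := by
              simp only [mul_assoc]
          _ = _ := by rw [hinv, mul_one]; simp only [mul_assoc]
      rw [e1, E.sy, mul_assoc (E.f.b' o * n), hinv, mul_one]
    · exact E.f.h1 n
  have hfp : FPl p (rpW R E.om) :=
    Pool.Agent.PFD.D2b.H49.fpf R (W × W) S Ω (rpW R E.om) E.f.b _ p hfr
  obtain ⟨m, hm, t, ht⟩ := hfp ((MonoidHom.id W).prod (MonoidHom.id W)).range s (by
    rintro _ ⟨w, rfl⟩
    obtain ⟨t, ht⟩ := hs w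
    refine ⟨t * E.om w⁻¹, ?_⟩
    rw [rpW_apply]
    change E.om w * (s * E.om w⁻¹) - s = p • (t * E.om w⁻¹)
    rw [← smul_mul_assoc, ← ht, sub_mul, mul_assoc s, hinv', mul_one, mul_assoc])
  refine ⟨m, fun w => ?_, t, ht⟩
  have h1 := hm (w, w) ⟨w, rfl⟩
  rw [rpW_apply] at h1
  change E.om w * (m * E.om w⁻¹) = m at h1
  calc E.om w * m = E.om w * (m * E.om w⁻¹) * E.om w := by
        rw [mul_assoc, mul_assoc, hinv, mul_one]
    _ = m * E.om w := by rw [h1]

end Pool.Agent.PFE.H44
end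
end -- Pool.Agent.Helper44_PFE.WFX

section -- Pool.Agent.Helper41_PSS.DZD

/-!
# Squad PSS, row DZD
-/

set_option autoImplicit false

open scoped BigOperators TensorProduct

noncomputable section

namespace Pool.Agent.PSS.H41

open Pool.Agent.PFC (tw IsTv)
open Pool.Agent.PFD.D2 (Cdv FibG wittCdv)
open Pool.Agent.PFD.D2b (FrR)
open Dm (cst)

theorem dzd (hDFM : DfmStmt) (hCEF : CefStmt) (hPSC : PscStmt) : DzdStmt := by
  intro ℓ _ F V E A A' F' κ _ _ _ _ _ _ _ _ _ _ _ _ _ _ _ _ _ φ W z α α' lam x y u hPer hRF hu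
    hVz df
  obtain ⟨Ω, _, _, b, c, hfr, hst⟩ := hPer
  have hstE : StE φ Ω := by
    intro ω u v h
    obtain ⟨e, S, hS⟩ := hst ω
    have h1 : ((u, v) : V × V) ∈ MulAction.stabilizer (V × V) ω := h
    rw [hS] at h1
    obtain ⟨s, -, hs⟩ := h1
    have e1 : φ e s = u := congrArg Prod.fst hs
    have e2 : s = v := congrArg Prod.snd hs
    exact ⟨e, by rw [← e1, ← e2]⟩
  -- the restriction to `W × W`
  obtain ⟨D₀, θ, hθw, hθq⟩ : ∃ (D₀ : Dm F (aw α W)) (θ : D₀.R ≃ₐ[PowerSeries F] A'),
      (∀ w, θ (D₀.w w) = α' w) ∧ ∀ g, df.q (θ (D₀.of g)) = g 0 := by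
    let _ : MulAction (W × W) Ω := MulAction.compHom Ω (W.subtype.prodMap W.subtype)
    refine hDFM F W A A' Ω (aw α W) α' b c ⟨?_, ?_, hfr.2.2⟩ df
    · intro g t
      exact hfr.1 ((g.1 : V), (g.2 : V)) t
    · intro g t n
      exact hfr.2.1 ((g.1 : V), (g.2 : V)) t n
  have hlift : ∀ z₀ : A, (∀ a, z₀ * a = a * z₀) →
      ∃ Z : A', (∀ a, Z * a = a * Z) ∧ df.q Z = z₀ := by
    intro z₀ hz₀
    obtain ⟨Z, hZ, hZ0⟩ := hCEF ℓ F V E A κ Ω φ W z α lam x y b c u D₀ hRF hfr hstE hVz hu z₀ hz₀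
    refine ⟨θ Z, ?_, ?_⟩
    · intro a
      have h := congrArg θ (hZ (θ.symm a))
      rw [map_mul, map_mul, AlgEquiv.apply_symm_apply] at h
      exact h
    · rw [← D₀.of_sq Z, hθq, hZ0]
  obtain ⟨cv, hπ, hκ⟩ := hPSC F
  let fb : FibG A' A cv :=
    { q := df.q
      sc := fun r => by rw [df.sc, hκ]
      surj := df.surj
      ker := fun x hx => by rw [hπ]; exact df.ker x hx }
  have h1 := Pool.Agent.PFD.D4.H68.cnr (PowerSeries F) F A A' cv fb hlift
  have h2 := Pool.Agent.PFD.D4.H35.cnk (PowerSeries F) F' A'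
  rw [h1, h2]

end Pool.Agent.PSS.H41
end
end -- Pool.Agent.Helper41_PSS.DZD

section -- Pool.Agent.Helper81_PSS.BVL

/-!
# Squad PSS, row BVL (helper81): relative bilinear maps lift
-/

set_option autoImplicit false

open scoped BigOperators

noncomputable section

namespace Pool.Agent.PSS.H81

open Pool.Agent.PSS
open Pool.Agent.PFD.D2 (Cdv FibG)
open Pool.Agent.PFD.D2b (FrR FPl)
open Finset

section

variable {H Ω : Type} [Group H] [MulAction (H × H) Ω]

/-- the action of `H × H × H` on `Ω × Ω` -/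
def act3 : MulAction (H × H × H) (Ω × Ω) where
  smul x w := (((x.1, x.2.1) : H × H) • w.1, (x.2 : H × H) • w.2)
  one_smul := by
    rintro ⟨w, w'⟩
    show (((1 : H), (1 : H)) • w, ((1 : H), (1 : H)) • w') = (w, w')
    rw [show ((1 : H), (1 : H)) = (1 : H × H) from rfl, one_smul, one_smul]
  mul_smul := by
    rintro ⟨g, h, l⟩ ⟨g', h', l'⟩ ⟨w, w'⟩
    show (((g * g', h * h') : H × H) • w, ((h * h', l * l') : H × H) • w') =
      (((g, h) : H × H) • (((g', h') : H × H) • w), ((h, l) : H × H) • (((h', l') : H × H) • w'))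
    rw [smul_smul, smul_smul]
    rfl

/-- the projection to the outer factors -/
def p13 : H × H × H →* H × H where
  toFun x := (x.1, x.2.2)
  map_one' := rfl
  map_mul' _ _ := rfl

end

theorem kap_pi {R F : Type} [CommRing R] [Field F] (c : Cdv R F) : c.κ c.π = 0 :=
  (c.ker _).2 ⟨1, (mul_one _).symm⟩

/-- row BVL -/
theorem bvl : BvlStmt := by
  classical
  intro R F H M M₀ Ω _ _ c _ _ _ _ _ _ _ ρ ρ₀ q b cc hfr hq μ₀ hμ
  obtain ⟨hb, hc, hs⟩ := hfr
  obtain ⟨q1, q2, q3⟩ := hμ
  have hρ : ∀ (g h : H × H) (x : M), ρ (g * h) x = ρ g (ρ h x) := fun g h x => by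
    rw [map_mul]; rfl
  have hρ₀ : ∀ (g h : H × H) (x : M₀), ρ₀ (g * h) x = ρ₀ g (ρ₀ h x) := fun g h x => by
    rw [map_mul]; rfl
  let ρ' : H × H × H →* (M →ₗ[R] M) := ρ.comp p13
  have hfp : FPl c.π ρ' := by
    letI : MulAction (H × H × H) Ω := MulAction.compHom Ω (p13 (H := H))
    refine Pool.Agent.PFD.D2b.H49.fpf R (H × H × H) M Ω ρ' b cc c.π ⟨?_, ?_, hs⟩
    · intro g t
      exact hb (p13 g) t
    · intro g t n
      exact hc (p13 g) t n
  choose m hm using fun w : Ω × Ω => hq.sj (μ₀ (q (b w.1)) (q (b w.2)))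
  letI : MulAction (H × H × H) (Ω × Ω) := act3
  have hsm : ∀ (g h l : H) (w w' : Ω), ((g, h, l) : H × H × H) • ((w, w') : Ω × Ω) =
      (((g, h) : H × H) • w, ((h, l) : H × H) • w') := fun _ _ _ _ _ => rfl
  have hm2 : ∀ (g : H × H × H) (w : Ω × Ω), ∃ x, m (g • w) - ρ' g (m w) = c.π • x := by
    rintro ⟨g, h, l⟩ ⟨w, w'⟩
    rw [← hq.kr, map_sub, hm, hsm]
    show μ₀ (q (b (((g, h) : H × H) • w))) (q (b (((h, l) : H × H) • w'))) -
      q (ρ (g, l) (m (w, w'))) = 0
    rw [hb, hb, hq.eq, hq.eq, hq.eq, hm]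
    have e1 : ((g, h) : H × H) = (g, 1) * (1, h) := by simp
    have e2 : ((h, l) : H × H) = (h, 1) * (1, l) := by simp
    have e3 : ((g, l) : H × H) = (g, 1) * (1, l) := by simp
    rw [e1, hρ₀, q1, q2, ← hρ₀]
    have e4 : ((h⁻¹, 1) : H × H) * (h, l) = (1, l) := by simp
    rw [e4, q3, e3, hρ₀, sub_self]
  obtain ⟨m', he, hd⟩ := Pool.Agent.PFD.D2b.H13.eqf R (H × H × H) M (Ω × Ω) ρ' c.π hfp m hm2
  have hqm : ∀ w w', q (m' (w, w')) = μ₀ (q (b w)) (q (b w')) := by
    intro w w'
    obtain ⟨x, hx⟩ := hd (w, w')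
    rw [← sub_add_cancel (m' (w, w')) (m (w, w')), hx, map_add, hm, hq.sc, kap_pi, zero_smul,
      zero_add]
  have he' : ∀ (g h l : H) (w w' : Ω), m' (((g, h) : H × H) • w, ((h, l) : H × H) • w') =
      ρ (g, l) (m' (w, w')) := fun g h l w w' => he (g, h, l) (w, w')
  let μ : M →ₗ[R] M →ₗ[R] M := LinearMap.mk₂ R
    (fun x y => ∑ w, ∑ w', (cc w x * cc w' y) • m' (w, w'))
    (by
      intro x x' y
      rw [← Finset.sum_add_distrib]
      refine Finset.sum_congr rfl fun w _ => ?_
      rw [← Finset.sum_add_distrib]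
      refine Finset.sum_congr rfl fun w' _ => ?_
      rw [map_add, add_mul, add_smul])
    (by
      intro r x y
      rw [Finset.smul_sum]
      refine Finset.sum_congr rfl fun w _ => ?_
      rw [Finset.smul_sum]
      refine Finset.sum_congr rfl fun w' _ => ?_
      rw [map_smul, smul_eq_mul, smul_smul, mul_assoc])
    (by
      intro x y y'
      rw [← Finset.sum_add_distrib]
      refine Finset.sum_congr rfl fun w _ => ?_
      rw [← Finset.sum_add_distrib]
      refine Finset.sum_congr rfl fun w' _ => ?_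
      rw [map_add, mul_add, add_smul])
    (by
      intro r x y
      rw [Finset.smul_sum]
      refine Finset.sum_congr rfl fun w _ => ?_
      rw [Finset.smul_sum]
      refine Finset.sum_congr rfl fun w' _ => ?_
      rw [map_smul, smul_eq_mul, smul_smul]
      congr 1
      ring)
  have hμa : ∀ x y, μ x y = ∑ w, ∑ w', (cc w x * cc w' y) • m' (w, w') := fun _ _ => rfl
  -- reindexing
  have r1 : ∀ (g : H × H) (x y : M), μ (ρ g x) y =
      ∑ w, ∑ w', (cc w x * cc w' y) • m' (g • w, w') := by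
    intro g x y
    rw [hμa, ← Equiv.sum_comp (MulAction.toPerm g)]
    refine Finset.sum_congr rfl fun w _ => ?_
    refine Finset.sum_congr rfl fun w' _ => ?_
    rw [MulAction.toPerm_apply, hc]
  have r2 : ∀ (g : H × H) (x y : M), μ x (ρ g y) =
      ∑ w, ∑ w', (cc w x * cc w' y) • m' (w, g • w') := by
    intro g x y
    rw [hμa]
    refine Finset.sum_congr rfl fun w _ => ?_
    rw [← Equiv.sum_comp (MulAction.toPerm g)]
    refine Finset.sum_congr rfl fun w' _ => ?_
    rw [MulAction.toPerm_apply, hc]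
  have one2 : ∀ w : Ω, (((1 : H), (1 : H)) : H × H) • w = w := fun w => one_smul (H × H) w
  refine ⟨μ, ⟨?_, ?_, ?_⟩, ?_⟩
  · intro g x y
    rw [r1, hμa, map_sum]
    refine Finset.sum_congr rfl fun w _ => ?_
    rw [map_sum]
    refine Finset.sum_congr rfl fun w' _ => ?_
    rw [map_smul, ← he' g 1 1, one2]
  · intro g x y
    rw [r1, r2]
    refine Finset.sum_congr rfl fun w _ => ?_
    refine Finset.sum_congr rfl fun w' _ => ?_
    have h := he' 1 g 1 w (((g⁻¹, 1) : H × H) • w')
    have e : ((g, 1) : H × H) • (((g⁻¹, 1) : H × H) • w') = w' := by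
      rw [smul_smul]
      have : ((g, 1) : H × H) * (g⁻¹, 1) = 1 := by simp
      rw [this, one_smul]
    rw [e] at h
    rw [h]
    have h1 : ρ (1, 1) = 1 := ρ.map_one
    rw [h1]
    rfl
  · intro g x y
    rw [r2, hμa, map_sum]
    refine Finset.sum_congr rfl fun w _ => ?_
    rw [map_sum]
    refine Finset.sum_congr rfl fun w' _ => ?_
    rw [map_smul, ← he' 1 1 g, one2]
  · intro x y
    have hx := hs x
    have hy := hs y
    have hqx : q x = ∑ w, c.κ (cc w x) • q (b w) := by
      conv_lhs => rw [← hx]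
      rw [map_sum]
      exact Finset.sum_congr rfl fun w _ => hq.sc _ _
    have hqy : q y = ∑ w, c.κ (cc w y) • q (b w) := by
      conv_lhs => rw [← hy]
      rw [map_sum]
      exact Finset.sum_congr rfl fun w _ => hq.sc _ _
    rw [hμa, map_sum, hqx, map_sum, LinearMap.sum_apply]
    refine Finset.sum_congr rfl fun w _ => ?_
    rw [map_sum, map_smul, LinearMap.smul_apply, hqy, map_sum, Finset.smul_sum]
    refine Finset.sum_congr rfl fun w' _ => ?_
    rw [hq.sc, hqm, map_mul, map_smul, smul_smul]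

end Pool.Agent.PSS.H81
end
end -- Pool.Agent.Helper81_PSS.BVL
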