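import Pool.Agent.Helper12_AWB.B022
import Pool.Agent.Helper12_AWB.B031

/-!
# Merged copies (generated) of the modules

* `Pool.Agent.PST.StmtsGE`
* `Pool.Agent.Helper21_PST.GNQ`
* `Pool.Agent.Helper27_PST.RWT`
* `Pool.Agent.Helper84_PSS.GEN`
* `Pool.Agent.Helper29_PST.GVG`
* `Pool.Agent.Helper62_PST.EKF`
* `Pool.Agent.Helper85_PST.DTQ`
-/

set_option autoImplicit false

section -- Pool.Agent.PST.StmtsGE

/-!
# Squad PST (theorem (S+)), rows 100 - 109 (helper36): from the direction to the deformation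

Complete proofs in the docstrings.  Notation: `v` for `i (α v)`, `≡` = congruent modulo `i A`,
`u·a = u a u⁻¹`, `N_u a = ∑_(i<ℓ) u^i a u^-i`.
-/

open scoped BigOperators TensorProduct PowerSeries

noncomputable section

namespace Pool.Agent.PST

open Pool.Agent.PFC (tw IsTv)
open Pool.Agent.PFD.D2 (Cdv FibG)
open Pool.Agent.PFD.D2b (FrR)
open Pool.Agent.PSS
open Dm (cst)

/-- RWT (100): dual families over `W` from dual families over `V` (as RWV, `Helper2_PSS/RWV.lean`).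

Proof.  Every element of `V` is `q.out * w` for exactly one pair `q : V ⧸ W`, `w : W`; reindex the sums
over `V`: `x_k v = (x_k q.out) w`, `v⁻¹ y_k = w⁻¹ (q.out⁻¹ y_k)`. -/
def RwtStmt : Prop :=
  ∀ (k V A K : Type) [CommRing k] [CommGroup V] [Fintype V] [Ring A] [Algebra k A]
    [Fintype K] (W : Subgroup V) [Fintype W] [Fintype (V ⧸ W)] (α : V →* A)
    (lam : A →ₗ[k] k) (x y : K → A), RF k α lam x y →
    RF k (aw α W) lam (fun p : K × (V ⧸ W) => x p.1 * α p.2.out)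
      (fun p => α (p.2.out)⁻¹ * y p.1)

/-- GVG (101): the direction over `K` from the direction over `R`.

Proof.  `gen_g` of `Helper84_PSS/GEN.lean` with `n = ℓ` gives `g` with `WBl`, `g 1 = 0`, `d1 g` integral and
`i (v a - v 1 * a) = ℓ • g (i a)`.  `v 1 = ℓ e₁` (`der` for `1, 1`), `v (α u) = α u * h u + ℓ e`, so
`ℓ g (α u) = i (α u * h u) + ℓ i (e - e₁ * α u)`. -/
def GvgStmt : Prop :=
  ∀ (ℓ : ℕ) [Fact ℓ.Prime] (R K F V A A₀ B κ Ω : Type) [CommRing R] [Field K] [CharZero K]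
    [Algebra R K] [Field F] [CommGroup V] [Fintype V] [Ring A] [Algebra R A] [Ring A₀]
    [Algebra F A₀] [Ring B] [Algebra R B] [Algebra K B] [Fintype κ] [Fintype Ω]
    [MulAction (V × V) Ω] (W : Subgroup V) (cv : Cdv R F) (f : FibG A A₀ cv) (α : V →* A)
    (lam : A →ₗ[R] R) (x y : κ → A) (b : Ω → A) (c : Ω → (A →ₗ[R] R))
    (C : KC R K B α lam x y b c) (v : A →ₗ[R] A) (h : V → A) (D : V → A₀),
    Fov ℓ α W f v h D → ∃ g : B →ₗ[K] B, Fod ℓ C W f g h D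

/-- EKF (102): the condition `Ekc` holds for `Fod`.

Proof.  `gh`: `g r = ℓ⁻¹ r h_r + i a`, `i a` commutes with `W` (`WBl`, `hv`), so `a` commutes with `W`
(`C.inj`).  With `γ = g r * r⁻¹ = ℓ⁻¹ h_r + i (a r⁻¹)` (`h_r` commutes with `r`):
`∑_(j<ℓ) d1 g (r^j, r) r^-(j+1) = ∑_(j<ℓ) (r^j γ r^-j - g (r^(j+1)) r^-(j+1) + g (r^j) r^-j) =
∑_(j<ℓ) r^j γ r^-j` (telescoping, `g (r^ℓ) = r^ℓ g 1 = 0` as `r^ℓ` is in `W`, `g 1 = 0`)
`= h_r + i (∑_(j<ℓ) r^j s r^-j)`, `s = a r⁻¹` commutes with `W`.  So `e = h_r + ∑ r^j s r^-j`,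
`f.q e - D r = ∑_(j<ℓ) r^j (q s) r^-j` = the trace of `q s` (fixed by `⟨r^ℓ⟩ ≤ W`) from `⟨r^ℓ⟩` to `⟨r⟩`;
`⟨r^ℓ⟩ < ⟨r⟩` since `r^ℓ` is in `W` and `r` is not, transversal `{r^j | j < ℓ}` (the order of `r` is a power of
`ℓ`; `orderOf (r^ℓ) * ℓ = orderOf r`). -/
def EkfStmt : Prop :=
  ∀ (ℓ : ℕ) [Fact ℓ.Prime] (R K F V A A₀ B κ Ω : Type) [CommRing R] [Field K] [CharZero K]
    [Algebra R K] [Field F] [CommGroup V] [Fintype V] [Ring A] [Algebra R A] [Ring A₀]
    [Algebra F A₀] [Ring B] [Algebra R B] [Algebra K B] [Fintype κ] [Fintype Ω]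
    [MulAction (V × V) Ω] (W : Subgroup V) (cv : Cdv R F) (f : FibG A A₀ cv) (α₀ : V →* A₀)
    (α : V →* A) (lam : A →ₗ[R] R) (x y : κ → A) (b : Ω → A) (c : Ω → (A →ₗ[R] R))
    (C : KC R K B α lam x y b c) (g : B →ₗ[K] B) (h : V → A) (D : V → A₀), IsPGroup ℓ V →
    (∀ v, f.q (α v) = α₀ v) → (∀ v : V, v ^ ℓ ∈ W) → Fod ℓ C W f g h D → Ekc ℓ C W f α₀ g D

/-- GNQ (108, uses KEX DRQ GVG EKF KEY TGW DMR DMF H1W RWT FMX FSR RED FOX): the family over `R⟦X⟧` and its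
reduction.

Proof.  As GEN (`Helper84_PSS/GEN.lean`): `K` = fraction field, KEX: `C`.  DRQ: `v`, `h`, `D`; GVG: `g`.
TGW with `key` = KEY (EKF gives `Ekc`): `P`, `m`, `P 1 = g`; `Stb φ W` is `Chf.sw`, `StE φ Ω` from the stabilisers (as in
`Helper75_PSS/DTP.lean`, or `stE_of` of `PST/Dzw.lean`).  DMR: `D'`; DMF: `D₀`; `m 1 = d1 g` (BIA, or from `Trv.pm`
in degree 1: `x P₁ y + P₁ x y = P₁ (x y) + m 1 x y`).  H1W: `H1P`; RWT: dual families over `W`; FMX: `Λ`;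
FSR: `ys`; RED: `θ`, `Λ₀`.  FOX (`FoxStmt` of `StmtsDR.lean`, helper75): `Reg`. -/
def GnqStmt : Prop :=
  ∀ (ℓ : ℕ) [Fact ℓ.Prime] (R F V E A A₀ κ Ω : Type) [CommRing R] [IsDomain R]
    [IsPrincipalIdealRing R] [CharZero R] [Field F] [IsAlgClosed F] [CharP F ℓ] [CommGroup V]
    [Fintype V] [Group E] [Fintype E] [Ring A] [Algebra R A] [Module.Finite R A] [Module.Free R A]
    [Ring A₀] [Algebra F A₀] [Fintype κ] [Fintype Ω] [MulAction (V × V) Ω]
    (φ : E →* MulAut V) (W : Subgroup V) [Fintype W] (cv : Cdv R F) (f : FibG A A₀ cv)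
    (α₀ : V →* A₀) (lam₀ : A₀ →ₗ[F] F) (x₀ y₀ : κ → A₀) (b₀ : Ω → A₀) (c₀ : Ω → (A₀ →ₗ[F] F))
    (α : V →* A) (lam : A →ₗ[R] R) (x y : κ → A) (b : Ω → A) (c : Ω → (A →ₗ[R] R)) (u : A),
    IsPGroup ℓ V → ¬ ℓ ∣ Nat.card E → cv.π = (ℓ : R) → Chf ℓ φ W → Cl F φ α₀ →
    (∀ ω : Ω, ∃ (e : E) (S : Subgroup V),
      MulAction.stabilizer (V × V) ω = tw (φ e).toMonoidHom S) →
    FrR (bw F α₀) b₀ c₀ → RF F α₀ lam₀ x₀ y₀ →
    LiftV cv α₀ lam₀ x₀ y₀ b₀ c₀ f α lam x y b c → u * rt x y 1 = 1 →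
    ∃ (D' : Dm R (aw α W)) (D₀ : Dm F (aw α₀ W)) (θ : D'.R →+* D₀.R)
      (Λ : D'.R →ₗ[PowerSeries R] PowerSeries R) (Λ₀ : D₀.R →ₗ[F⟦X⟧] F⟦X⟧) (κ' : Type)
      (_ : Fintype κ') (xs ys : κ' → D'.R),
      (∀ n a a', f.q (D'.m n a a') = D₀.m n (f.q a) (f.q a')) ∧
      (∀ g, θ (D'.of g) = D₀.of (fun n => f.q (g n))) ∧ (∀ w, θ (D'.w w) = D₀.w w) ∧
      Function.Surjective θ ∧ RF (PowerSeries R) D'.w Λ xs ys ∧
      (∀ g, PowerSeries.constantCoeff (Λ (D'.of g)) = lam (g 0)) ∧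
      (∀ a, Λ₀ (θ a) = PowerSeries.map cv.κ (Λ a)) ∧
      RF F⟦X⟧ D₀.w Λ₀ (fun k => θ (xs k)) (fun k => θ (ys k)) ∧
      Reg ℓ F φ α₀ W D₀.w (fun Z => D₀.sq Z 0) ∧
      ∃ (KK BB : Type) (_ : Field KK) (_ : CharZero KK) (_ : Algebra R KK) (_ : Ring BB)
        (_ : Algebra R BB) (_ : Algebra KK BB) (C : KC R KK BB α lam x y b c)
        (P : ℕ → (BB →ₗ[KK] BB)) (m : ℕ → (BB →ₗ[KK] BB →ₗ[KK] BB)),
        Trv (ia C.i α) W P m ∧ ∀ n a₁ a₂, C.i (D'.m n a₁ a₂) = m n (C.i a₁) (C.i a₂)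

/-- DTQ (109, uses LFT GNQ PER SPF FRE RMP S3.UNX): `DtqStmt` (of `DefsT.lean`).

Proof.  As `Helper75_PSS/DTP.lean`: `R` = Witt vectors, `cv = wittCdv ℓ F` (`cv.π = ℓ` by definition, see
`Pool.Agent.PFD.Witt`), LFT, GNQ.  `As = D₀.R`, `γ = D₀.w`, `q = π₀` of SPF (`π₀ a = D₀.sq a 0`), `lam = Λ₀`,
`x = θ xs`, `y = θ ys`.  `Dpt`: `per` by PER, `uni` as in DTP (units `D₀.of (cst n)`), `lr`:
`constantCoeff (Λ₀ (D₀.of g)) = lam₀ (g 0)` as in GEN.  `Olf`: the data of GNQ; `θs` and `θk`: with the `ψ` of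
RMP, which is equal to `θ` (both are given by `D'.of g ↦ D₀.of (q ∘ g)`). -/
def DtsStmt : Prop := DtqStmt

end Pool.Agent.PST
end
end -- Pool.Agent.PST.StmtsGE

section -- Pool.Agent.Helper21_PST.GNQ

/-!
# Squad PST, row GNQ: the family over `R⟦X⟧` and its reduction (edit of Helper84_PSS/GEN.lean)
-/

set_option autoImplicit false

open scoped BigOperators TensorProduct PowerSeries

noncomputable section

namespace Pool.Agent.PST.H21

open Pool.Agent.PFC (tw IsTv)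
open Pool.Agent.PFD.D2 (Cdv FibG)
open Pool.Agent.PFD.D2b (FrR)
open Pool.Agent.PSS
open Dm (cst)

theorem trv_one {K V B : Type} [Field K] [CommGroup V] [Ring B] [Algebra K B] {β : V →* B}
    {W : Subgroup V} {P : ℕ → (B →ₗ[K] B)} {m : ℕ → (B →ₗ[K] B →ₗ[K] B)} (hT : Trv β W P m)
    (x y : B) : m 1 x y = d1 (fun a => P 1 a) x y := by
  have h0 : m 0 x y = x * y := by
    have h := hT.pm 0 x y
    rw [Finset.Nat.antidiagonal_zero, Finset.sum_singleton, Finset.sum_singleton, hT.p0] at h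
    exact h.symm
  have h1 := hT.pm 1 x y
  have ha : (Finset.HasAntidiagonal.antidiagonal 1 : Finset (ℕ × ℕ)) = {(0, 1), (1, 0)} := rfl
  rw [ha, Finset.sum_pair (by simp), Finset.sum_pair (by simp), hT.p0] at h1
  simp only [LinearMap.id_coe, id_eq, h0] at h1
  rw [d1]
  have h2 : m 1 x y = x * (P 1) y + (P 1) x * y - (P 1) (x * y) := by
    rw [h1]
    abel
  rw [h2]
  abel

theorem gnq (kex : KexStmt) (drq : DrqStmt) (gvg : GvgStmt) (ekf : EkfStmt) (key : KeyStmt)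
    (tgw : TgwStmt) (dmr : DmrStmt) (dmf : DmfStmt) (h1w : H1wStmt) (rwt : RwtStmt)
    (fmx : FmxStmt) (fsr : FsrStmt) (red : RedStmt) (fox : FoxStmt) : GnqStmt := by
  classical
  intro ℓ _ R F V E A A₀ κ Ω _ _ _ _ _ _ _ _ _ _ _ _ _ _ _ _ _ _ _ _ φ W _ cv f α₀ lam₀ x₀ y₀
    b₀ c₀ α lam x y b c u hV hE hπ hCh hCl hSt hFr₀ hRF₀ hL hu
  let K := FractionRing R
  have hinj : Function.Injective (algebraMap R K) := IsFractionRing.injective R K
  have hK : CharZero K := charZero_of_injective_algebraMap hinj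
  let _ : Fintype (V ⧸ W) := Fintype.ofFinite _
  obtain ⟨C⟩ := kex R K V A κ Ω α lam x y b c hL.rf hL.fr
  obtain ⟨r, la, χ, xx, t, D, v, h, hDrd, hFov⟩ := drq ℓ R F V E A A₀ κ Ω φ W cv f α₀ lam₀ x₀ y₀
    b₀ c₀ α lam x y b c u hV hE hπ hCh hCl hSt hFr₀ hRF₀ hL hu
  obtain ⟨g, hFod⟩ := gvg ℓ R K F V A A₀ (K ⊗[R] A) κ Ω W cv f α lam x y b c C v h D hFov
  have hEkc := ekf ℓ R K F V A A₀ (K ⊗[R] A) κ Ω W cv f α₀ α lam x y b c C g h D hV hL.qa hCh.pw
    hFod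
  obtain ⟨P, m, hT, hP1, hIn⟩ := tgw R K V E A (K ⊗[R] A) κ Ω φ W α lam x y b c C u hCh.sw
    (stE_of φ hSt) hu g hFod.wbl hFod.one hFod.int
    (fun m₁ cc h1 h2 h3 => key ℓ R K F V E A A₀ (K ⊗[R] A) κ Ω φ W cv f α₀ lam₀ x₀ y₀ b₀ c₀ α lam
      x y b c u C r la χ xx t D g hV hE hπ hCh hCl hSt hFr₀ hRF₀ hL hu hDrd hFod.wbl hFod.one
      hFod.int hEkc m₁ cc h1 h2 h3)
  obtain ⟨D', hD'⟩ := dmr R K V A (K ⊗[R] A) W α C.i C.inj C.tow P m hT hIn
  obtain ⟨D₀, hD₀⟩ := dmf R F V A A₀ W α cv f α₀ D' hL.qa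
  have hH : H1P R (aw α W) := by
    intro δ hδ hδw
    obtain ⟨e, he1, he2⟩ := h1w R K V A (K ⊗[R] A) κ Ω W α lam x y b c C u hu δ hδ
      (fun w hw => hδw ⟨w, hw⟩)
    exact ⟨e, fun w => he1 w w.2, he2⟩
  have hRW := rwt R V A κ W α lam x y hL.rf
  obtain ⟨Λ, hΛs, hΛ0⟩ := fmx R W A (κ × (V ⧸ W)) (aw α W) D' lam _ _ hH hRW
  obtain ⟨y', hRF', -⟩ := fsr R W A (κ × (V ⧸ W)) (aw α W) D' lam _ _ Λ hRW hΛs hΛ0
  obtain ⟨ψ, Λ₀, hψ, hψw, hψs, hΛ₀, hRF₀'⟩ := red R F V A A₀ (κ × (V ⧸ W)) W α cv f α₀ D'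
    D₀ Λ _ y' hL.qa hD₀ hRF'
  obtain ⟨lf, G, hFoD⟩ := fox ℓ R K F V A A₀ (K ⊗[R] A) κ Ω W cv f α₀ α lam x y b c C D g h D₀
    (fun Z => D₀.sq Z 0) hCh.pw hL.qa hFod
    (fun a a' => ⟨D'.m 1 a a', by rw [hD', trv_one hT, hP1], (hD₀ 1 a a').symm⟩)
    (fun _ => rfl)
  exact ⟨D', D₀, ψ, Λ, Λ₀, κ × (V ⧸ W), inferInstance, _, y', hD₀, hψ, hψw, hψs, hRF', hΛ0, hΛ₀,
    hRF₀', ⟨r, la, χ, xx, t, D, lf, G, hDrd, hFoD⟩, K, K ⊗[R] A, inferInstance, hK,
    inferInstance, inferInstance, inferInstance, inferInstance, C, P, m, hT, hD'⟩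

end Pool.Agent.PST.H21
end
end -- Pool.Agent.Helper21_PST.GNQ

section -- Pool.Agent.Helper27_PST.RWT

set_option autoImplicit false

/-!
# Squad PST, row RWT

Dual families over `W` from dual families over `V`: `V` is the disjoint union of the cosets of `W`.
-/

open scoped BigOperators

noncomputable section

namespace Pool.Agent.PST.H27

open Pool.Agent.PSS

theorem rwt_bij {V : Type} [CommGroup V] (W : Subgroup V) :
    Function.Bijective (fun p : (V ⧸ W) × W => p.1.out * (p.2 : V)) := by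
  constructor
  · rintro ⟨q, u⟩ ⟨q', w⟩ h
    have h' : q.out * (u : V) = q'.out * (w : V) := h
    have h1 : ((q.out * (u : V) : V) : V ⧸ W) = q := by
      rw [QuotientGroup.mk_mul_of_mem _ u.2]
      exact QuotientGroup.out_eq' q
    have h2 : ((q'.out * (w : V) : V) : V ⧸ W) = q' := by
      rw [QuotientGroup.mk_mul_of_mem _ w.2]
      exact QuotientGroup.out_eq' q'
    have h3 : q = q' := by rw [← h1, ← h2, h']
    subst h3
    have h4 : u = w := Subtype.ext (mul_left_cancel h')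
    rw [h4]
  · intro v
    have h1 : ((((v : V ⧸ W).out : V)) : V ⧸ W) = (v : V ⧸ W) := QuotientGroup.out_eq' _
    have h2 : ((v : V ⧸ W).out)⁻¹ * v ∈ W := QuotientGroup.eq.1 h1
    exact ⟨((v : V ⧸ W), ⟨_, h2⟩), mul_inv_cancel_left _ _⟩

theorem rwt_sum {V A : Type} [CommGroup V] [Fintype V] [AddCommMonoid A]
    (W : Subgroup V) [Fintype W] [Fintype (V ⧸ W)] (f : V → A) :
    ∑ q : V ⧸ W, ∑ w : W, f (q.out * (w : V)) = ∑ v, f v := by
  rw [← Fintype.sum_prod_type' (f := fun (q : V ⧸ W) (w : W) => f (q.out * (w : V)))]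
  exact (rwt_bij W).sum_comp f

theorem rwt : RwtStmt := by
  intro k V A K _ _ _ _ _ _ W _ _ α lam x y hR
  have e0 : ∀ (q w : V) (t : A), α w⁻¹ * (α q⁻¹ * t) = α (q * w)⁻¹ * t := by
    intro q w t
    rw [← mul_assoc, ← map_mul, mul_inv_rev]
  have e0' : ∀ (q w : V) (t : A), t * α q * α w = t * α (q * w) := by
    intro q w t
    rw [mul_assoc, ← map_mul]
  refine ⟨hR.sym, ?_, ?_⟩
  · intro a
    rw [Fintype.sum_prod_type]
    refine Eq.trans ?_ (hR.e1 a)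
    refine Finset.sum_congr rfl ?_
    intro q _
    rw [← rwt_sum W (fun v => lam (α v⁻¹ * y q * a) • (x q * α v))]
    refine Finset.sum_congr rfl ?_
    intro j _
    refine Finset.sum_congr rfl ?_
    intro w _
    show lam (α (w : V)⁻¹ * (α (j.out)⁻¹ * y q) * a) • (x q * α j.out * α (w : V)) = _
    rw [e0, e0']
  · intro a
    rw [Fintype.sum_prod_type]
    refine Eq.trans ?_ (hR.e2 a)
    refine Finset.sum_congr rfl ?_
    intro q _
    rw [← rwt_sum W (fun v => lam (a * (x q * α v)) • (α v⁻¹ * y q))]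
    refine Finset.sum_congr rfl ?_
    intro j _
    refine Finset.sum_congr rfl ?_
    intro w _
    show lam (a * (x q * α j.out * α (w : V))) • (α (w : V)⁻¹ * (α (j.out)⁻¹ * y q)) = _
    rw [e0, e0']

end Pool.Agent.PST.H27
end
end -- Pool.Agent.Helper27_PST.RWT

section -- Pool.Agent.Helper84_PSS.GEN

/-! Squad PSS, row GEN: existence of the deformation with its first order term. -/

open scoped BigOperators TensorProduct

noncomputable section

namespace Pool.Agent.PSS.H84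

open Pool.Agent.PFD.D2 (Cdv FibG)
open Pool.Agent.PFD.D2b (FrR)
open Finset
open Dm (cst)

section kc

variable {R K V A B κ Ω : Type} [CommRing R] [Field K] [Algebra R K] [CommGroup V]
  [Fintype V] [Ring A] [Algebra R A] [Ring B] [Algebra R B] [Algebra K B] [Fintype κ] [Fintype Ω]
  [MulAction (V × V) Ω] {α : V →* A} {lam : A →ₗ[R] R} {x y : κ → A} {b : Ω → A}
  {c : Ω → (A →ₗ[R] R)}

theorem kc_ext (C : KC R K B α lam x y b c) {M : Type} [AddCommGroup M] [Module K M]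
    (f g : B →ₗ[K] M) (h : ∀ a, f (C.i a) = g (C.i a)) (s : B) : f s = g s := by
  have h1 := C.frK.2.2 s
  rw [← h1, map_sum, map_sum]
  refine Finset.sum_congr rfl fun ω _ => ?_
  rw [map_smul, map_smul, h]

theorem gen_g (C : KC R K B α lam x y b c) (n : ℕ) (hn : (n : K) ≠ 0) (W : Subgroup V)
    (v : A →ₗ[R] A)
    (hvW : ∀ w ∈ W, ∀ a, v (α w * a) = α w * v a ∧ v (a * α w) = v a * α w)
    (hv : ∀ a a', ∃ e, v (a * a') - v a * a' - a * v a' = (n : R) • e) :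
    ∃ g : B →ₗ[K] B, WBl (ia C.i α) W g ∧ g 1 = 0 ∧
      (∀ a₁ a₂, In C.i (d1 g (C.i a₁) (C.i a₂))) ∧
      ∀ a, C.i (v a - v 1 * a) = (n : K) • g (C.i a) := by
  have hsm : ∀ (m : ℕ) (e : A), C.i ((m : R) • e) = (m : K) • C.i e := by
    intro m e
    rw [map_smul, ← C.tow, map_natCast]
  let g₀ : B →ₗ[K] B := ∑ ω, (C.cK ω).smulRight (C.i (v (b ω)))
  have hg₀ : ∀ a, g₀ (C.i a) = C.i (v a) := by
    intro a
    show (∑ ω, (C.cK ω).smulRight (C.i (v (b ω)))) (C.i a) = C.i (v a)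
    rw [LinearMap.sum_apply]
    calc ∑ ω, ((C.cK ω).smulRight (C.i (v (b ω)))) (C.i a)
        = ∑ ω, C.i (v (c ω a • b ω)) := by
          refine Finset.sum_congr rfl fun ω _ => ?_
          rw [LinearMap.smulRight_apply, C.ck, C.tow, map_smul, map_smul]
      _ = C.i (v (∑ ω, c ω a • b ω)) := by rw [map_sum, map_sum]
      _ = C.i (v a) := by rw [C.fr.2.2 a]
  let g : B →ₗ[K] B := (n : K)⁻¹ • (g₀ - LinearMap.mulLeft K (C.i (v 1)))
  have hg : ∀ a, g (C.i a) = (n : K)⁻¹ • C.i (v a - v 1 * a) := by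
    intro a
    show (n : K)⁻¹ • (g₀ (C.i a) - C.i (v 1) * C.i a) = _
    rw [hg₀, map_sub, map_mul]
  have hg1 : ∀ a, C.i (v a - v 1 * a) = (n : K) • g (C.i a) := by
    intro a
    rw [hg, smul_smul, mul_inv_cancel₀ hn, one_smul]
  have hv1 : ∀ w ∈ W, α w * v 1 = v 1 * α w := by
    intro w hw
    rw [← (hvW w hw 1).1, ← (hvW w hw 1).2, mul_one, one_mul]
  refine ⟨g, ?_, ?_, ?_, hg1⟩
  · intro w hw s
    constructor
    · refine kc_ext C (g.comp (LinearMap.mulLeft K (ia C.i α w)))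
        ((LinearMap.mulLeft K (ia C.i α w)).comp g) ?_ s
      intro a
      show g (C.i (α w) * C.i a) = C.i (α w) * g (C.i a)
      rw [← map_mul, hg, hg, mul_smul_comm, ← map_mul, (hvW w hw a).1, ← mul_assoc, ← hv1 w hw,
        mul_assoc, ← mul_sub]
    · refine kc_ext C (g.comp (LinearMap.mulRight K (ia C.i α w)))
        ((LinearMap.mulRight K (ia C.i α w)).comp g) ?_ s
      intro a
      show g (C.i a * C.i (α w)) = g (C.i a) * C.i (α w)
      rw [← map_mul, hg, hg, smul_mul_assoc, ← map_mul, (hvW w hw a).2, ← mul_assoc,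
        ← sub_mul]
  · have h := hg 1
    rw [mul_one, sub_self, map_zero, smul_zero, map_one] at h
    exact h
  · intro a₁ a₂
    obtain ⟨e, he⟩ := hv a₁ a₂
    obtain ⟨e1, he1⟩ := hv 1 1
    have h1 : v 1 = (n : R) • (-e1) := by
      rw [smul_neg, ← he1]
      simp
    refine ⟨-e + a₁ * e1 * a₂, ?_⟩
    have h2 : d1 g (C.i a₁) (C.i a₂)
        = (n : K)⁻¹ • C.i (a₁ * (v a₂ - v 1 * a₂) - (v (a₁ * a₂) - v 1 * (a₁ * a₂))
          + (v a₁ - v 1 * a₁) * a₂) := by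
      unfold d1
      rw [← map_mul, hg, hg, hg, mul_smul_comm, smul_mul_assoc, ← map_mul, ← map_mul,
        ← smul_sub, ← smul_add, ← map_sub, ← map_add]
    have h3 : a₁ * (v a₂ - v 1 * a₂) - (v (a₁ * a₂) - v 1 * (a₁ * a₂))
          + (v a₁ - v 1 * a₁) * a₂ = (n : R) • (-e + a₁ * e1 * a₂) := by
      have h4 : a₁ * (v a₂ - v 1 * a₂) - (v (a₁ * a₂) - v 1 * (a₁ * a₂))
          + (v a₁ - v 1 * a₁) * a₂
          = -(v (a₁ * a₂) - v a₁ * a₂ - a₁ * v a₂) - a₁ * v 1 * a₂ := by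
        noncomm_ring
      rw [h4, he, h1, mul_smul_comm, smul_mul_assoc, smul_add, smul_neg, mul_neg, neg_mul,
        smul_neg, sub_neg_eq_add]
    rw [h2, h3, hsm, smul_smul, inv_mul_cancel₀ hn, one_smul]

end kc

theorem sq_psi {R F V A A₀ : Type} [CommRing R] [Field F] [CommGroup V] [Ring A] [Algebra R A]
    [Ring A₀] [Algebra F A₀] {W : Subgroup V} {α : V →* A} {α₀ : V →* A₀}
    (D : Dm R (aw α W)) (D₀ : Dm F (aw α₀ W)) (q : A →+* A₀) (ψ : D.R →+* D₀.R)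
    (h : ∀ g, ψ (D.of g) = D₀.of (fun n => q (g n))) (s : D.R) (n : ℕ) :
    D₀.sq (ψ s) n = q (D.sq s n) := by
  have h1 : ψ s = D₀.of (fun n => q (D.sq s n)) := by
    rw [← h, D.of_sq]
  rw [h1, D₀.sq_of]

theorem X_smul {F W A : Type} [CommRing F] [Group W] [Ring A] [Algebra F A] {om : W →* A}
    (D : Dm F om) (s : D.R) (h : D.sq s 0 = 0) :
    s = (PowerSeries.X : PowerSeries F) • D.of (fun n => D.sq s (n + 1)) := by
  rw [← D.of_smul]
  conv_lhs => rw [← D.of_sq s]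
  congr 1
  funext n
  unfold Dm.smulq
  rcases n with _ | n
  · rw [h, Finset.Nat.antidiagonal_zero, Finset.sum_singleton, PowerSeries.coeff_zero_X,
      zero_smul]
  · rw [Finset.sum_eq_single (1, n)]
    · rw [PowerSeries.coeff_one_X, one_smul]
    · rintro ⟨a, b⟩ hab hne
      rw [PowerSeries.coeff_X]
      split_ifs with h1
      · exfalso
        apply hne
        rw [Finset.HasAntidiagonal.mem_antidiagonal] at hab
        simp only at h1 hab
        rw [h1] at hab ⊢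
        congr 1
        omega
      · rw [zero_smul]
    · intro h1
      exact absurd (by rw [Finset.HasAntidiagonal.mem_antidiagonal]; omega) h1

theorem gen (kex : KexStmt) (tgn : TgnStmt) (dmr : DmrStmt) (dmf : DmfStmt) (h1v : H1vStmt)
    (rwv : RwvStmt) (fmx : FmxStmt) (fsr : FsrStmt) (red : RedStmt) (for_ : ForStmt) :
    GenStmt := by
  classical
  intro R F V E A A₀ κ Ω _ _ _ _ _ _ _ _ _ _ _ _ _ _ _ _ _ φ W _ z α lam x y b c u cv f
    α₀ lam₀ v d hRF hFr hSt hVz hu hα hlam hn hvW hv hvd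
  let K := FractionRing R
  have hinj : Function.Injective (algebraMap R K) := IsFractionRing.injective R K
  have hK : CharZero K := charZero_of_injective_algebraMap hinj
  obtain ⟨C⟩ := kex R K V A κ Ω α lam x y b c hRF hFr
  have hn0 : ((orderOf z : ℕ) : K) ≠ 0 := by
    have h1 : orderOf z ≠ 0 := (orderOf_pos z).ne'
    exact_mod_cast h1
  obtain ⟨g, hgW, hg1, hgd, hgv⟩ := gen_g C (orderOf z) hn0 W v hvW hv
  obtain ⟨P, m, hT, hP1, hIn⟩ := tgn R K V E A (K ⊗[R] A) κ Ω φ W z α lam x y b c C u hVz hSt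
    hu g hgW hg1 hgd
  obtain ⟨D, hD⟩ := dmr R K V A (K ⊗[R] A) W α C.i C.inj C.tow P m hT hIn
  obtain ⟨D₀, hD₀⟩ := dmf R F V A A₀ W α cv f α₀ D hα
  have hH : H1P R (aw α W) := by
    intro δ hδ hδw
    obtain ⟨e, he1, he2⟩ := h1v R K V E A (K ⊗[R] A) κ Ω φ W z α lam x y b c C u hVz hu δ hδ
      (fun w hw => hδw ⟨w, hw⟩)
    exact ⟨e, fun w => he1 w w.2, he2⟩
  have hRW := rwv R V E A κ φ W z α lam x y hVz hRF
  obtain ⟨Λ, hΛs, hΛ0⟩ := fmx R W A (κ × Fin (orderOf z)) (aw α W) D lam _ _ hH hRW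
  obtain ⟨y', hRF', -⟩ := fsr R W A (κ × Fin (orderOf z)) (aw α W) D lam _ _ Λ hRW hΛs hΛ0
  obtain ⟨ψ, Λ₀, hψ, hψw, hψs, hΛ₀, hRF₀⟩ := red R F V A A₀ (κ × Fin (orderOf z)) W α cv f α₀ D
    D₀ Λ _ y' hα hD₀ hRF'
  let v₁ : A →ₗ[R] A := v - LinearMap.mulLeft R (v 1)
  have hv₁ : ∀ a, v₁ a = v a - v 1 * a := fun a => rfl
  obtain ⟨d₁, hd₁, hrt⟩ := for_ R K V E A (K ⊗[R] A) κ Ω φ W z α lam x y b c C u hVz hSt hu
    (κ × Fin (orderOf z)) P m v₁ D Λ _ y' hT (fun a => by rw [hv₁, hP1]; exact hgv a) hD hRF'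
    hΛ0
  -- `n` is zero modulo `π`
  have hκn : cv.κ (orderOf z : R) = 0 := (cv.ker _).mpr hn
  have hqs : ∀ (r : R) (a : A), f.q (r • a) = cv.κ r • f.q a := by
    intro r a
    rw [Algebra.smul_def, map_mul, f.sc, Algebra.smul_def]
  obtain ⟨e1, he1⟩ := hv 1 1
  have hv1 : v 1 = (orderOf z : R) • (-e1) := by
    rw [smul_neg, ← he1]
    simp
  have hqd : f.q d₁ = f.q d := by
    have h1 : ∀ a, cv.κ (lam ((d₁ - d) * a)) = 0 := by
      intro a
      obtain ⟨ρ, hρ⟩ := hd₁ a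
      have h2 : cv.κ (lam (d₁ * a)) = - cv.κ (lam (v a)) := by
        have h3 : lam (d₁ * a) = (orderOf z : R) * ρ - lam (v a)
            + (orderOf z : R) * lam (-e1 * a) := by
          have h4 : lam (v₁ a) = lam (v a) - (orderOf z : R) * lam (-e1 * a) := by
            rw [hv₁, map_sub, hv1, smul_mul_assoc, map_smul, smul_eq_mul]
          rw [h4] at hρ
          linear_combination hρ
        rw [h3, map_add, map_sub, map_mul, map_mul, hκn, zero_mul, zero_mul, add_zero, zero_sub]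
      have h5 : cv.κ (lam (d * a)) = - cv.κ (lam (v a)) := by
        have h6 := hvd a
        rw [hRF.sym a d, map_add] at h6
        exact eq_neg_of_add_eq_zero_right h6
      rw [sub_mul, map_sub, map_sub, h2, h5, sub_self]
    have h7 := congrArg f.q (hRF.e1 (d₁ - d))
    rw [map_sum] at h7
    have h8 : ∀ k ∈ (Finset.univ : Finset κ),
        f.q (∑ w, lam (α w⁻¹ * y k * (d₁ - d)) • (x k * α w)) = 0 := by
      intro k _
      rw [map_sum]
      refine Finset.sum_eq_zero fun w _ => ?_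
      rw [hqs, hRF.sym, h1, zero_smul]
    rw [Finset.sum_eq_zero h8, map_sub] at h7
    exact (sub_eq_zero.mp h7.symm)
  refine ⟨D₀, Λ₀, κ × Fin (orderOf z), inferInstance, _, _, hRF₀, ?_, ?_⟩
  · intro g'
    choose s hs using f.surj
    have h1 : D₀.of g' = ψ (D.of (fun n => s (g' n))) := by
      rw [hψ]
      congr 1
      funext n
      exact (hs _).symm
    rw [h1, hΛ₀, ← PowerSeries.coeff_zero_eq_constantCoeff_apply, PowerSeries.coeff_map,
      PowerSeries.coeff_zero_eq_constantCoeff_apply, hΛ0, hlam, hs]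
  · intro w
    obtain ⟨r0, r1⟩ := hrt w
    set S : D.R := rt (fun t : κ × Fin (orderOf z) => D.of (cst (x t.1 * α (z ^ (t.2 : ℕ)))))
      y' (D.w w) with hS
    have h1 : rt (fun t : κ × Fin (orderOf z) =>
        ψ (D.of (cst (x t.1 * α (z ^ (t.2 : ℕ)))))) (fun t => ψ (y' t)) (D₀.w w) = ψ S := by
      rw [hS]
      unfold rt
      rw [map_sum]
      refine Finset.sum_congr rfl fun t _ => ?_
      rw [map_mul, map_mul, hψw]
    have h2 : D₀.sq (ψ S) 0 = 0 := by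
      rw [sq_psi D D₀ f.q ψ hψ, r0, hqs, hκn, zero_smul]
    refine ⟨D₀.of (fun n => D₀.sq (ψ S) (n + 1)), ?_, ?_⟩
    · rw [h1]
      exact X_smul D₀ (ψ S) h2
    · rw [D₀.sq_of, sq_psi D D₀ f.q ψ hψ]
      show f.q (D.sq S 1) = _
      rw [r1, map_neg, map_add, map_mul, hqd, hv₁, map_sub, map_mul, hv1, hqs, hκn, zero_smul,
        zero_mul, sub_zero, map_add, map_mul, add_comm]

end Pool.Agent.PSS.H84
end
end -- Pool.Agent.Helper84_PSS.GEN

section -- Pool.Agent.Helper29_PST.GVG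

/-! Squad PST, row GVG: the direction over `K` from the direction over `R`. -/

open scoped BigOperators TensorProduct

noncomputable section

namespace Pool.Agent.PST.H29

open Pool.Agent.PSS Pool.Agent.PST
open Pool.Agent.PFD.D2 (Cdv FibG)
open Pool.Agent.PSS.H84 (gen_g)

theorem gvg : GvgStmt := by
  intro ℓ _ R K F V A A₀ B κ Ω _ _ _ _ _ _ _ _ _ _ _ _ _ _ _ _ _ W cv f α lam x y b c C v h D hF
  have hℓ : (ℓ : K) ≠ 0 := Nat.cast_ne_zero.2 (Fact.out : ℓ.Prime).ne_zero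
  obtain ⟨g, h1, h2, h3, h4⟩ := gen_g C ℓ hℓ W v hF.lin hF.der
  have hsm : ∀ e : A, C.i ((ℓ : R) • e) = (ℓ : K) • C.i e := by
    intro e
    rw [map_smul, ← C.tow, map_natCast]
  refine ⟨g, h1, h2, h3, fun u => ?_, hF.hv, hF.hw, hF.hy⟩
  obtain ⟨e, he⟩ := hF.vh u
  obtain ⟨e1, he1⟩ := hF.der 1 1
  have h5 : v 1 = -((ℓ : R) • e1) := by
    rw [← he1]
    simp
  refine ⟨e + e1 * α u, ?_⟩
  rw [← h4, ← hsm, ← map_add, h5, smul_add, ← smul_mul_assoc, ← he]
  congr 1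
  noncomm_ring

end Pool.Agent.PST.H29
end
end -- Pool.Agent.Helper29_PST.GVG

section -- Pool.Agent.Helper62_PST.EKF

/-! Squad PST (MP_6a3f1a_al), block GE, row EKF (helper62): the condition `Ekc` holds for `Fod`. -/

set_option autoImplicit false

open scoped BigOperators

noncomputable section

namespace Pool.Agent.PST.H62

open Pool.Agent.PFC (tw IsTv)
open Pool.Agent.PFD.D2 (Cdv FibG)
open Pool.Agent.PFD.D2b (FrR)
open Pool.Agent.PSS

/-- `r ^ ℓ` and `r ^ j (r ^ j')⁻¹` in `W`, `r` not: `j = j'` -/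
theorem ekf_inj {ℓ : ℕ} (hℓ : ℓ.Prime) {V : Type} [CommGroup V] {W : Subgroup V} {r : V}
    (hr : r ∉ W) (hrl : r ^ ℓ ∈ W) {j j' : ℕ} (hj : j < ℓ) (hj' : j' < ℓ)
    (h : (r ^ j)⁻¹ * r ^ j' ∈ W) : j = j' := by
  by_contra hne
  have hcop : IsCoprime ((j' : ℤ) - j) (ℓ : ℤ) := by
    apply IsCoprime.symm
    rw [Int.isCoprime_iff_gcd_eq_one]
    change Nat.gcd ((ℓ : ℤ).natAbs) ((j' : ℤ) - j).natAbs = 1
    rw [Int.natAbs_natCast]
    refine (Nat.Prime.coprime_iff_not_dvd hℓ).2 ?_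
    intro hd
    have h1 : ((j' : ℤ) - j).natAbs < ℓ := by omega
    have h2 : ((j' : ℤ) - j).natAbs ≠ 0 := by omega
    exact h2 (Nat.eq_zero_of_dvd_of_lt hd h1)
  obtain ⟨s, t, hst⟩ := hcop
  apply hr
  have h3 : r ^ ((j' : ℤ) - j) ∈ W := by
    have e : r ^ ((j' : ℤ) - j) = (r ^ j)⁻¹ * r ^ j' := by
      rw [zpow_sub, zpow_natCast, zpow_natCast, mul_comm]
    rw [e]
    exact h
  have h4 : r ^ ((ℓ : ℕ) : ℤ) ∈ W := by
    rw [zpow_natCast]
    exact hrl
  have h5 : r = (r ^ ((j' : ℤ) - j)) ^ s * (r ^ ((ℓ : ℕ) : ℤ)) ^ t := by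
    rw [← zpow_mul, ← zpow_mul, ← zpow_add]
    have e : ((j' : ℤ) - j) * s + (ℓ : ℤ) * t = 1 := by
      rw [← hst]
      ring
    rw [e, zpow_one]
  rw [h5]
  exact W.mul_mem (W.zpow_mem h3 s) (W.zpow_mem h4 t)

theorem ekf : EkfStmt := by
  classical
  intro ℓ hℓp R K F V A A₀ B κ Ω _ _ _ _ _ _ _ _ _ _ _ _ _ _ _ _ _ W cv f α₀ α lam x y b c C g h D
    hV hq hW hF r hr e he
  have hℓ : ℓ.Prime := hℓp.out
  have hℓ0 : (ℓ : K) ≠ 0 := by exact_mod_cast hℓ.ne_zero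
  obtain ⟨a, ha⟩ := hF.gh r
  -- `a` commutes with `W`
  have hvv : ∀ u v : V, α u * α v = α v * α u := by
    intro u v
    rw [← map_mul, ← map_mul, mul_comm]
  have haW : ∀ w ∈ W, α w * a = a * α w := by
    intro w hw
    have h1 := hF.wbl w hw (C.i (α r))
    have h2 : C.i (α w) * g (C.i (α r)) = g (C.i (α r)) * C.i (α w) := by
      have h3 : g (C.i (α w) * C.i (α r)) = C.i (α w) * g (C.i (α r)) := h1.1
      have h4 : g (C.i (α r) * C.i (α w)) = g (C.i (α r)) * C.i (α w) := h1.2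
      rw [← h3, ← h4, ← map_mul C.i, ← map_mul C.i, hvv w r]
    have h5 : C.i (α w) * C.i (α r * h r) = C.i (α r * h r) * C.i (α w) := by
      rw [← map_mul, ← map_mul, mul_assoc, hF.hv, ← mul_assoc, ← mul_assoc, hvv]
    have h6 : (ℓ : K) • (C.i (α w) * C.i a) = (ℓ : K) • (C.i a * C.i (α w)) := by
      have h7 : (ℓ : K) • (C.i (α w) * g (C.i (α r))) =
          (ℓ : K) • (g (C.i (α r)) * C.i (α w)) := by rw [h2]
      rw [← mul_smul_comm, ← smul_mul_assoc, ha, mul_add, add_mul, h5] at h7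
      have h8 := add_left_cancel h7
      rw [mul_smul_comm, smul_mul_assoc] at h8
      exact h8
    have h9 : C.i (α w) * C.i a = C.i a * C.i (α w) := smul_right_injective B hℓ0 h6
    rw [← map_mul, ← map_mul] at h9
    exact C.inj h9
  let s : A := a * α r⁻¹
  have hsW : ∀ w ∈ W, α w * s = s * α w := by
    intro w hw
    change α w * (a * α r⁻¹) = a * α r⁻¹ * α w
    rw [← mul_assoc, haW w hw, mul_assoc, hvv, mul_assoc]
  -- `γ`
  let γ : B := g (C.i (α r)) * C.i (α r⁻¹)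
  have hγ : (ℓ : K) • γ = C.i (h r) + (ℓ : K) • C.i s := by
    change (ℓ : K) • (g (C.i (α r)) * C.i (α r⁻¹)) = C.i (h r) + (ℓ : K) • C.i (a * α r⁻¹)
    rw [← smul_mul_assoc, ha, add_mul, smul_mul_assoc, ← map_mul C.i, ← map_mul C.i, ← hF.hv r r,
      mul_assoc (h r), ← map_mul α, mul_inv_cancel, map_one, mul_one]
  let G : ℕ → B := fun j => g (C.i (α (r ^ j))) * C.i (α (r ^ j)⁻¹)
  have hterm : ∀ j, d1 g (C.i (α (r ^ j))) (C.i (α r)) * C.i (α (r ^ (j + 1))⁻¹) =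
      C.i (α (r ^ j)) * γ * C.i (α (r ^ j)⁻¹) - (G (j + 1) - G j) := by
    intro j
    have e1 : C.i (α (r ^ j)) * C.i (α r) = C.i (α (r ^ (j + 1))) := by
      rw [← map_mul, ← map_mul, pow_succ]
    have e2 : C.i (α (r ^ (j + 1))⁻¹) = C.i (α r⁻¹) * C.i (α (r ^ j)⁻¹) := by
      rw [← map_mul, ← map_mul, pow_succ, mul_inv, mul_comm]
    have e3 : C.i (α r) * C.i (α r⁻¹) = 1 := by
      rw [← map_mul, ← map_mul, mul_inv_cancel, map_one, map_one]
    change (C.i (α (r ^ j)) * g (C.i (α r)) - g (C.i (α (r ^ j)) * C.i (α r)) +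
        g (C.i (α (r ^ j))) * C.i (α r)) * C.i (α (r ^ (j + 1))⁻¹) =
      C.i (α (r ^ j)) * (g (C.i (α r)) * C.i (α r⁻¹)) * C.i (α (r ^ j)⁻¹) -
        (g (C.i (α (r ^ (j + 1)))) * C.i (α (r ^ (j + 1))⁻¹) -
          g (C.i (α (r ^ j))) * C.i (α (r ^ j)⁻¹))
    rw [e1, add_mul, sub_mul]
    have e4 : g (C.i (α (r ^ j))) * C.i (α r) * C.i (α (r ^ (j + 1))⁻¹) =
        g (C.i (α (r ^ j))) * C.i (α (r ^ j)⁻¹) := by
      rw [e2, mul_assoc, ← mul_assoc (C.i (α r)), e3, one_mul]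
    have e5 : C.i (α (r ^ j)) * g (C.i (α r)) * C.i (α (r ^ (j + 1))⁻¹) =
        C.i (α (r ^ j)) * (g (C.i (α r)) * C.i (α r⁻¹)) * C.i (α (r ^ j)⁻¹) := by
      rw [e2]
      simp only [mul_assoc]
    rw [e4, e5]
    abel
  have hG0 : G 0 = 0 := by
    change g (C.i (α (r ^ 0))) * _ = 0
    rw [pow_zero, map_one, map_one, hF.one, zero_mul]
  have hGl : G ℓ = 0 := by
    have h1 := (hF.wbl _ (hW r) 1).1
    rw [mul_one, hF.one, mul_zero] at h1
    change g (C.i (α (r ^ ℓ))) * _ = 0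
    have h2 : g (C.i (α (r ^ ℓ))) = 0 := h1
    rw [h2, zero_mul]
  have hsum : C.i e = ∑ j ∈ Finset.range ℓ, C.i (α (r ^ j)) * γ * C.i (α (r ^ j)⁻¹) := by
    rw [he, Finset.sum_congr rfl (fun j _ => hterm j), Finset.sum_sub_distrib,
      Finset.sum_range_sub, hG0, hGl, sub_self, sub_zero]
  have hcj : ∀ j, C.i (α (r ^ j)) * C.i (h r) * C.i (α (r ^ j)⁻¹) = C.i (h r) := by
    intro j
    rw [← map_mul, ← map_mul, ← hF.hv, mul_assoc, ← map_mul, mul_inv_cancel, map_one, mul_one]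
  have hsum2 : (ℓ : K) • C.i e =
      (ℓ : K) • C.i (h r + ∑ j ∈ Finset.range ℓ, α (r ^ j) * s * α (r ^ j)⁻¹) := by
    rw [hsum, Finset.smul_sum]
    have h1 : ∀ j ∈ Finset.range ℓ, (ℓ : K) • (C.i (α (r ^ j)) * γ * C.i (α (r ^ j)⁻¹)) =
        C.i (h r) + (ℓ : K) • C.i (α (r ^ j) * s * α (r ^ j)⁻¹) := by
      intro j _
      rw [← smul_mul_assoc, ← mul_smul_comm, hγ, mul_add, add_mul, hcj, mul_smul_comm,
        smul_mul_assoc, ← map_mul, ← map_mul]
    rw [Finset.sum_congr rfl h1, Finset.sum_add_distrib, Finset.sum_const, Finset.card_range,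
      map_add, map_sum, smul_add, Finset.smul_sum, ← Nat.cast_smul_eq_nsmul K]
  have he2 : e = h r + ∑ j ∈ Finset.range ℓ, α (r ^ j) * s * α (r ^ j)⁻¹ :=
    C.inj (smul_right_injective B hℓ0 hsum2)
  -- reduce
  have he3 : f.q e - D r = ∑ j ∈ Finset.range ℓ, cw F α₀ (r ^ j) (f.q s) := by
    rw [he2, map_add, hF.hy, add_sub_cancel_left, map_sum]
    refine Finset.sum_congr rfl fun j _ => ?_
    rw [map_mul, map_mul, hq, hq, mul_assoc]
    rfl
  have hinj : Set.InjOn (fun j : ℕ => r ^ j) (Finset.range ℓ : Set ℕ) := by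
    intro j hj j' hj' hjj
    have hj1 := Finset.mem_range.1 (Finset.mem_coe.1 hj)
    have hj2 := Finset.mem_range.1 (Finset.mem_coe.1 hj')
    apply ekf_inj hℓ hr (hW r) hj1 hj2
    have h1 : r ^ j = r ^ j' := hjj
    rw [h1, inv_mul_cancel]
    exact W.one_mem
  have hP' : Subgroup.zpowers (r ^ ℓ) ≤ W := by
    rw [Subgroup.zpowers_le]
    exact hW r
  rw [he3]
  apply Submodule.subset_span
  refine ⟨Subgroup.zpowers (r ^ ℓ), (Finset.range ℓ).image (fun j : ℕ => r ^ j), f.q s, ?_, ?_, ?_,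
    ?_⟩
  · constructor
    · rw [Subgroup.zpowers_le]
      exact Subgroup.pow_mem _ (Subgroup.mem_zpowers r) ℓ
    · intro hle
      exact hr (hP' (hle (Subgroup.mem_zpowers r)))
  · constructor
    · intro t ht
      obtain ⟨j, _, rfl⟩ := Finset.mem_image.1 ht
      exact Subgroup.pow_mem _ (Subgroup.mem_zpowers r) j
    · intro p hp
      obtain ⟨n, rfl⟩ := Subgroup.mem_zpowers_iff.1 hp
      have hℓz : (0 : ℤ) < ℓ := by exact_mod_cast hℓ.pos
      have hn0 := Int.emod_nonneg n hℓz.ne'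
      have hn1 := Int.emod_lt_of_pos n hℓz
      obtain ⟨j, hj⟩ := Int.eq_ofNat_of_zero_le hn0
      have hjl : j < ℓ := by omega
      have hmem : (r ^ j)⁻¹ * r ^ n ∈ Subgroup.zpowers (r ^ ℓ) := by
        rw [Subgroup.mem_zpowers_iff]
        refine ⟨n / ℓ, ?_⟩
        have h1 : n = (j : ℤ) + (ℓ : ℤ) * (n / ℓ) := by
          rw [← hj]
          exact (Int.emod_add_mul_ediv n ℓ).symm
        calc (r ^ ℓ) ^ (n / (ℓ : ℤ)) = r ^ ((ℓ : ℤ) * (n / ℓ)) := by
              rw [zpow_mul, zpow_natCast]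
          _ = (r ^ j)⁻¹ * r ^ ((j : ℤ) + (ℓ : ℤ) * (n / ℓ)) := by
              rw [zpow_add, zpow_natCast, inv_mul_cancel_left]
          _ = (r ^ j)⁻¹ * r ^ n := by rw [← h1]
      refine ⟨r ^ j, ⟨Finset.mem_image.2 ⟨j, Finset.mem_range.2 hjl, rfl⟩, hmem⟩, ?_⟩
      rintro t ⟨ht, ht'⟩
      obtain ⟨j', hj', rfl⟩ := Finset.mem_image.1 ht
      have hj2 := Finset.mem_range.1 hj'
      have h1 : (r ^ j')⁻¹ * r ^ j ∈ W := by
        have h2 := W.mul_mem (hP' ht') (W.inv_mem (hP' hmem))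
        have e : (r ^ j')⁻¹ * r ^ n * ((r ^ j)⁻¹ * r ^ n)⁻¹ = (r ^ j')⁻¹ * r ^ j := by
          rw [mul_inv_rev, inv_inv, mul_assoc, mul_inv_cancel_left]
        rw [e] at h2
        exact h2
      have h3 : j' = j := ekf_inj hℓ hr (hW r) hj2 hjl h1
      rw [h3]
  · intro w hw
    have hw' := hP' hw
    change α₀ w * (f.q s * α₀ w⁻¹) = f.q s
    have h1 : α₀ w * f.q s = f.q s * α₀ w := by
      rw [← hq, ← map_mul, ← map_mul, hsW w hw']
    rw [← mul_assoc, h1, mul_assoc, ← map_mul, mul_inv_cancel, map_one, mul_one]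
  · rw [Finset.sum_image hinj]

end Pool.Agent.PST.H62
end
end -- Pool.Agent.Helper62_PST.EKF

section -- Pool.Agent.Helper85_PST.DTQ

/-! Squad PST, row DTQ (helper85): every algebra of the class has a regular deformation with a lift. -/

set_option autoImplicit false

noncomputable section

namespace Pool.Agent.PST.H85

open scoped BigOperators PowerSeries TensorProduct
open Pool.Agent.PFC (tw IsTv)
open Pool.Agent.PFD.D2 (Cdv FibG wittCdv)
open Pool.Agent.PFD.D2b (FrR)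
open Pool.Agent.PSS Pool.Agent.PST
open Dm (cst)

theorem dtq (hLFT : LftStmt) (hGNQ : GnqStmt) (hPER : PerStmt) (hSPF : SpfStmt)
    (hFRE : FreStmt) (hRMP : RmpStmt) (hUNX : S3.UnxStmt) : DtqStmt := by
  intro ℓ _ F V E A _ _ _ _ _ _ _ _ _ φ α W _ ψ hV hE hch hrs hCl
  have := hCl.fin
  obtain ⟨lam0, K0, _, x0, y0, hRF0, u, hu⟩ := hCl.rt
  obtain ⟨Ω, _, _, b, cc, hfr, hst⟩ := hCl.per
  have hu1 : u * rt x0 y0 1 = 1 := by
    rw [rt]
    simpa using hu
  let R := WittVector ℓ F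
  let c : Cdv R F := wittCdv ℓ F
  have : CharZero R := Pool.Agent.PFD.D2.witt_charZero ℓ F
  have hcπ : c.π = (ℓ : R) := rfl
  obtain ⟨A', _, _, _, _, f, α', lam', x', y', b', cc', u', L, hu'⟩ :=
    hLFT R F V A K0 Ω c α lam0 x0 y0 b cc u hCl.fin hRF0 hfr hu1
  obtain ⟨D', D₀, θ, Λ, Λ₀, κ', _, xs, ys, hm, hθof, hθw, hθs, hRFs, hΛ0, hΛr, hRF₀, hreg,
    KK, BB, jK, jZ, jR, jB, jA, jM, C, P, m, trv, mm⟩ :=
    hGNQ ℓ R F V E A' A K0 Ω φ W c f α lam0 x0 y0 b cc α' lam' x' y' b' cc' u' hV hE hcπ hch hCl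
      hst hfr hRF0 L hu'
  obtain ⟨π₀, hπof, hπsc, hπs, hπw, hπk⟩ := hSPF F W A (aw α W) D₀
  obtain ⟨hfin, hfree⟩ := hFRE F W A (aw α W) D₀
  obtain ⟨ψ', hψof, hψsm, hψw, hψs, hψk⟩ := hRMP R F W A' A (aw α' W) (aw α W) D' D₀ f.q c.κ f.sc
    (fun w => L.qa w) hm
  have hθψ : θ = ψ' := by
    refine RingHom.ext fun z => ?_
    rw [← D'.of_sq z, hθof, hψof]
  have hπsq : ∀ a : D₀.R, π₀ a = D₀.sq a 0 := by
    intro a
    conv_lhs => rw [← D₀.of_sq a]
    rw [hπof]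
  have hPer : Per F⟦X⟧ ψ D₀.w := hPER F V E A φ W ψ α D₀ hrs hCl.per
  have hunx := hUNX F W E A D₀.R ψ D₀.w π₀ hPer hπs hπk
  have hlr : ∀ a, PowerSeries.constantCoeff (Λ₀ a) = lam0 (π₀ a) := by
    intro a
    choose s hs using f.surj
    have h1 : a = θ (D'.of (fun n => s (D₀.sq a n))) := by
      rw [hθof]
      conv_lhs => rw [← D₀.of_sq a]
      congr 1
      funext n
      exact (hs _).symm
    conv_lhs => rw [h1]
    rw [hΛr, ← PowerSeries.coeff_zero_eq_constantCoeff_apply, PowerSeries.coeff_map,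
      PowerSeries.coeff_zero_eq_constantCoeff_apply, hΛ0, L.ql, hs, hπsq]
  refine ⟨D₀.R, κ', K0, Ω, inferInstance, inferInstance, hfin, hfree, inferInstance,
    inferInstance, inferInstance, inferInstance,
    D₀.w, π₀, Λ₀, lam0, fun k => θ (xs k), fun k => θ (ys k), x0, y0, b, cc, ?_, hfr, hst, ?_⟩
  · refine ⟨hCl, hch, hrs, hPer, ?_, hπsc, hπs, hπk, hπw, hRF₀, hRF0, hlr, ?_⟩
    · intro e
      obtain ⟨y, y', hyy, hy'y, hyα⟩ := hCl.uni e
      obtain ⟨Y, hY1, hY2⟩ := hunx (D₀.of (cst y)) y' (by rw [hπof]; simpa [cst] using hyy)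
        (by rw [hπof]; simpa [cst] using hy'y)
      refine ⟨D₀.of (cst y), Y, hY1, hY2, ?_⟩
      intro w
      rw [Dm.w_mul_of]
      have e1 : D₀.of (cst y) * D₀.w w = D₀.of (cst (y * α w)) := by
        have e2 : D₀.w w = D₀.of (cst (α w)) := rfl
        rw [e2, ← D₀.of_mul]
        congr 1
        funext n
        rw [Dm.mul]
        rcases n with _ | n
        · have ha : Finset.HasAntidiagonal.antidiagonal 0 = {((0 : ℕ), 0)} := rfl
          rw [ha, Finset.sum_singleton]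
          simp only
          rw [ha, Finset.sum_singleton]
          simp only [cst, if_true]
          exact D₀.m0 _ _
        · rw [cst, if_neg (Nat.succ_ne_zero n)]
          refine Finset.sum_eq_zero fun p hp => Finset.sum_eq_zero fun q hq => ?_
          simp only [cst]
          split_ifs with h1 h2
          · rw [Finset.HasAntidiagonal.mem_antidiagonal] at hp hq
            have : p.1 = n + 1 := by omega
            rw [this]
            exact D₀.m_om_right n w y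
          · rw [map_zero]
          · rw [map_zero, LinearMap.zero_apply]
          · rw [map_zero]
      rw [e1]
      congr 1
      funext n
      simp only [cst]
      split_ifs
      · have h1 := hyα w
        show y * α w = α (ψ e w : V) * y
        rw [h1, hrs e w]
      · rw [mul_zero]
    · have hfun : (⇑π₀ : D₀.R → A) = fun Z => D₀.sq Z 0 := funext hπsq
      rw [hfun]
      exact hreg
  · exact ⟨{
      R := R
      iR := inferInstance
      iD := inferInstance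
      iP := inferInstance
      iC := inferInstance
      cv := c
      A' := A'
      iA := inferInstance
      iM := inferInstance
      iF := inferInstance
      iL := inferInstance
      f := f
      α' := α'
      lam' := lam'
      x' := x'
      y' := y'
      b' := b'
      cc' := cc'
      u' := u'
      lft := L
      unt := hu'
      D := D'
      θ := θ
      θs := fun r a => by
        rw [hθψ]
        exact hψsm r a
      θj := hθs
      θk := fun a ha => hψk c.π f.ker a (by rw [← hθψ]; exact ha)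
      θw := hθw
      θq := fun g => by rw [hθof, hπof]
      Λ := Λ
      xs := xs
      ys := ys
      rfs := hRFs
      Λr := hΛr
      xr := fun k => rfl
      yr := fun k => rfl
      Λ0 := hΛ0
      hp := hcπ
      KK := KK
      jK := jK
      jZ := jZ
      jR := jR
      BB := BB
      jB := jB
      jA := jA
      jM := jM
      C := C
      P := P
      m := m
      trv := trv
      mm := mm }⟩

end Pool.Agent.PST.H85
end
end -- Pool.Agent.Helper85_PST.DTQ
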