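import Pool.Agent.Helper12_AWB.B020
import Pool.Agent.Helper12_AWB.B021
import Pool.Agent.Helper12_AWB.B026
import Pool.Agent.Helper12_AWB.B031

/-!
# Merged copies (generated) of the modules

* `Pool.Agent.Helper19_PSS.UZL`
* `Pool.Agent.Helper20_PSS.CSR`
* `Pool.Agent.Helper52_PSS.FTR`
* `Pool.Agent.Helper29_PSS.FRE`
* `Pool.Agent.Helper63_PSS.FXL`
* `Pool.Agent.Helper29_PST.NRK`
* `Pool.Agent.Helper32_PSS.FSR`
* `Pool.Agent.Helper52_PSS.RFM`
* `Pool.Agent.Helper86_PSS.RTC`
* `Pool.Agent.Helper84_PSS.H1V`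
* `Pool.Agent.Helper87_PSS.H1W`
* `Pool.Agent.Helper92_PSS.RED`
* `Pool.Agent.Helper95_PSS.CFR`
* `Pool.Agent.Helper95_PSS.CSU`
* `Pool.Agent.Helper30_PST.OLU`
-/

set_option autoImplicit false

section -- Pool.Agent.Helper19_PSS.UZL

/-!
Squad PSS, row UZL (helper19).
-/

open scoped BigOperators

noncomputable section

namespace Pool.Agent.PSS.H19

open Pool.Agent.PSS
open Pool.Agent.PFD.D2 (Cdv FibG)
open Pool.Agent.PFD.D2b (FrR)
open Finset

theorem uzl (hCSU : CsuStmt) (hUNJ : UnjStmt) : UzlStmt := by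
  intro R F V A A' K Ω _ _ _ c _ _ _ _ _ _ _ _ _ _ _ α lam x y b cc f α' lam' x' y' b' cc' u
    hL hu
  have hκπ : c.κ c.π = 0 := (c.ker _).2 ⟨1, by rw [mul_one]⟩
  have hunit : ∀ r, IsUnit (1 + c.π * r) := by
    intro r
    apply c.loc
    rw [map_add, map_mul, hκπ, zero_mul, add_zero, map_one]
    exact one_ne_zero
  have hsm : ∀ (r : R) (a : A'), f.q (r • a) = c.κ r • f.q a := by
    intro r a
    rw [Algebra.smul_def, map_mul, f.sc, ← Algebra.smul_def]
  have hπ0 : ∀ a : A', f.q (c.π • a) = 0 := by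
    intro a
    rw [hsm, hκπ, zero_smul]
  have hqrt : f.q (rt x' y' 1) = rt x y 1 := by
    unfold rt
    rw [map_sum]
    refine sum_congr rfl fun i _ => ?_
    rw [map_mul, map_mul, map_one, hL.qx, hL.qy]
  -- (1)
  have h1 : ∃ u' : A', u' * rt x' y' 1 = 1 := by
    obtain ⟨u₁, hu₁⟩ := f.surj u
    have hq : f.q (u₁ * rt x' y' 1 - 1) = 0 := by
      rw [map_sub, map_mul, hu₁, hqrt, hu, map_one, sub_self]
    obtain ⟨d, hd⟩ := f.ker _ hq
    have hbij := hUNJ R A' c.π hunit (LinearMap.mulRight R (u₁ * rt x' y' 1)) (by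
      intro a
      refine ⟨a * d, ?_⟩
      have e1 : a * (u₁ * rt x' y' 1) - a = a * (u₁ * rt x' y' 1 - 1) := by
        rw [mul_sub, mul_one]
      rw [LinearMap.mulRight_apply, e1, hd, mul_smul_comm])
    obtain ⟨t, ht⟩ := hbij.2 1
    refine ⟨t * u₁, ?_⟩
    rw [LinearMap.mulRight_apply] at ht
    rw [mul_assoc, ht]
  -- (2)
  have hqbw : ∀ (h : V × V) (a : A'), f.q (bw R α' h a) = bw F α h (f.q a) := by
    intro h a
    show f.q (α' h.1 * (a * α' h.2⁻¹)) = α h.1 * (f.q a * α h.2⁻¹)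
    rw [map_mul, map_mul, hL.qa, hL.qa]
  have h2 : ∀ X : Subgroup (V × V), ∀ a ∈ FxR (bw F α) X, ∃ a' ∈ FxR (bw R α') X,
      f.q a' = a := by
    intro X a ha
    choose s hs using c.surj
    obtain ⟨a₁, ha₁⟩ := f.surj a
    have hsum : ∑ ω, cc ω a • b ω = a := by
      have h := congrArg f.q (hL.fr.2.2 a₁)
      rw [map_sum, ha₁] at h
      refine Eq.trans (sum_congr rfl fun ω _ => ?_) h
      rw [hsm, hL.qb, hL.qc, ha₁]
    have hcc : ∀ (g : V × V) (ω : Ω), cc (g • ω) (bw F α g a) = cc ω a := by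
      intro g ω
      have h := congrArg c.κ (hL.fr.2.1 g ω a₁)
      rw [hL.qc, hL.qc, hqbw, ha₁] at h
      exact h
    have hcX : ∀ g ∈ X, ∀ ω, cc (g • ω) a = cc ω a := by
      intro g hg ω
      have h := hcc g ω
      rw [ha g hg] at h
      exact h
    refine ⟨∑ ω, s (cc ω a) • b' ω, ?_, ?_⟩
    · intro g hg
      rw [map_sum]
      have e : ∀ ω, bw R α' g (s (cc ω a) • b' ω) = s (cc (g • ω) a) • b' (g • ω) := by
        intro ω
        rw [map_smul, ← hL.fr.1 g ω, hcX g hg ω]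
      rw [sum_congr rfl fun ω _ => e ω]
      exact Equiv.sum_comp (MulAction.toPerm g) (fun ω => s (cc ω a) • b' ω)
    · rw [map_sum]
      have e : ∀ ω, f.q (s (cc ω a) • b' ω) = cc ω a • b ω := by
        intro ω
        rw [hsm, hs, hL.qb]
      rw [sum_congr rfl fun ω _ => e ω, hsum]
  refine ⟨h1, h2, ?_⟩
  -- (3)
  intro z₀ hz₀
  obtain ⟨u', hu'⟩ := h1
  obtain ⟨-, hCas⟩ := hCSU R V A' K α' lam' x' y' u' hL.rf hu'
  obtain ⟨hC1, hC2⟩ := hCas
  -- lift which commutes with V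
  let X : Subgroup (V × V) := (MonoidHom.prod (MonoidHom.id V) (MonoidHom.id V)).range
  have hX : ∀ g : V, ((g, g) : V × V) ∈ X := fun g => ⟨g, rfl⟩
  have hz₀X : z₀ ∈ FxR (bw F α) X := by
    rintro _ ⟨g, rfl⟩
    show α g * (z₀ * α g⁻¹) = z₀
    rw [hz₀ (α g⁻¹), ← mul_assoc, ← map_mul, mul_inv_cancel, map_one, one_mul]
  obtain ⟨z, hzX, hz⟩ := h2 X z₀ hz₀X
  have hzV : ∀ g : V, z * α' g = α' g * z := by
    intro g
    have h : α' g * (z * α' g⁻¹) = z := hzX (g, g) (hX g)
    calc z * α' g = (α' g * (z * α' g⁻¹)) * α' g := by rw [h]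
      _ = α' g * z * (α' g⁻¹ * α' g) := by simp only [mul_assoc]
      _ = α' g * z := by rw [← map_mul, inv_mul_cancel, map_one, mul_one]
  have hπne : c.π ≠ 0 := by
    intro h
    have h3 := c.reg 1 (by rw [h, zero_mul])
    exact one_ne_zero h3
  have hinj : ∀ a a' : A', c.π • a = c.π • a' → a = a' := by
    intro a a' h
    exact smul_right_injective A' hπne h
  have hex : ∀ a : A', ∃ d, z * a - a * z = c.π • d := by
    intro a
    apply f.ker
    rw [map_sub, map_mul, map_mul, hz, hz₀, sub_self]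
  choose D hD using hex
  let Dl : A' →ₗ[R] A' :=
    { toFun := D
      map_add' := by
        intro a a'
        apply hinj
        rw [smul_add, ← hD, ← hD, ← hD, mul_add, add_mul]
        abel
      map_smul' := by
        intro r a
        apply hinj
        rw [RingHom.id_apply, smul_comm, ← hD, ← hD, mul_smul_comm, smul_mul_assoc, smul_sub] }
  have hDm : ∀ a a', D (a * a') = D a * a' + a * D a' := by
    intro a a'
    apply hinj
    rw [smul_add, ← hD, ← smul_mul_assoc, ← hD, ← mul_smul_comm, ← hD, sub_mul, mul_sub]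
    simp only [mul_assoc]
    abel
  have hDV : ∀ g : V, D (α' g) = 0 := by
    intro g
    apply hinj
    rw [← hD, hzV, sub_self, smul_zero]
  -- Casimir
  have hf := hC2 A' ((LinearMap.mul R A').compl₂ Dl) (by
    intro a g a'
    show a * α' g * D a' = a * D (α' g * a')
    rw [hDm, hDV, zero_mul, zero_add, mul_assoc])
  have hs : ∀ a, a * ∑ i, x' i * D (y' i * u') = (∑ i, x' i * D (y' i * u')) * a + D a := by
    intro a
    have h : ∑ i, a * x' i * D (y' i * u') = ∑ i, x' i * D (y' i * u' * a) := hf a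
    rw [mul_sum, sum_mul]
    calc ∑ i, a * (x' i * D (y' i * u')) = ∑ i, a * x' i * D (y' i * u') := by
          refine sum_congr rfl fun i _ => ?_
          rw [mul_assoc]
      _ = ∑ i, x' i * D (y' i * u' * a) := h
      _ = ∑ i, (x' i * D (y' i * u') * a + x' i * (y' i * u') * D a) := by
          refine sum_congr rfl fun i _ => ?_
          rw [hDm, mul_add]
          simp only [mul_assoc]
      _ = ∑ i, x' i * D (y' i * u') * a + D a := by
          have h1' : ∑ i, x' i * (y' i * u') = 1 := hC1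
          rw [sum_add_distrib, ← sum_mul, ← sum_mul, h1', one_mul, sum_mul]
  refine ⟨z + c.π • ∑ i, x' i * D (y' i * u'), ?_, ?_⟩
  · intro a
    have h := hs a
    have h4 : D a = a * (∑ i, x' i * D (y' i * u')) - (∑ i, x' i * D (y' i * u')) * a := by
      rw [h, add_sub_cancel_left]
    have h5 := hD a
    rw [h4, smul_sub] at h5
    rw [add_mul, mul_add, smul_mul_assoc, mul_smul_comm]
    have h6 : z * a = a * z + (c.π • (a * ∑ i, x' i * D (y' i * u')) -
        c.π • ((∑ i, x' i * D (y' i * u')) * a)) := by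
      rw [← h5]
      abel
    rw [h6]
    abel
  · rw [map_add, hz, hπ0, add_zero]

end Pool.Agent.PSS.H19
end
end -- Pool.Agent.Helper19_PSS.UZL

section -- Pool.Agent.Helper20_PSS.CSR

/-!
# Squad PSS, row CSR: the dual families are a Casimir element over `V`
-/

open scoped BigOperators TensorProduct

noncomputable section

namespace Pool.Agent.PSS.H20

open Finset

theorem csr : CsrStmt := by
  intro k V A K X _ _ _ _ _ _ _ _ α lam x y h f hf a
  have key : ∀ j, ∑ i, ∑ v, lam (α v⁻¹ * y j * (a * x i)) • (α v * y i) = y j * a := by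
    intro j
    rw [← h.e2 (y j * a)]
    refine Finset.sum_congr rfl fun i _ => ?_
    rw [← Equiv.sum_comp (Equiv.inv V)]
    refine Finset.sum_congr rfl fun v _ => ?_
    rw [Equiv.inv_apply, inv_inv]
    congr 1
    rw [mul_assoc (α v), h.sym]
    simp only [mul_assoc]
  have h1 : ∀ i, f (a * x i) (y i) =
      ∑ j, ∑ v, lam (α v⁻¹ * y j * (a * x i)) • f (x j) (α v * y i) := by
    intro i
    conv_lhs => rw [← h.e1 (a * x i)]
    rw [map_sum, LinearMap.sum_apply]
    refine Finset.sum_congr rfl fun j _ => ?_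
    rw [map_sum, LinearMap.sum_apply]
    refine Finset.sum_congr rfl fun v _ => ?_
    rw [map_smul, LinearMap.smul_apply, hf]
  calc ∑ i, f (a * x i) (y i)
      = ∑ i, ∑ j, ∑ v, lam (α v⁻¹ * y j * (a * x i)) • f (x j) (α v * y i) :=
        Finset.sum_congr rfl fun i _ => h1 i
    _ = ∑ j, ∑ i, ∑ v, lam (α v⁻¹ * y j * (a * x i)) • f (x j) (α v * y i) := Finset.sum_comm
    _ = ∑ j, f (x j) (y j * a) := by
        refine Finset.sum_congr rfl fun j _ => ?_
        rw [← key j, map_sum]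
        refine Finset.sum_congr rfl fun i _ => ?_
        rw [map_sum]
        refine Finset.sum_congr rfl fun v _ => ?_
        rw [map_smul]

end Pool.Agent.PSS.H20
end
end -- Pool.Agent.Helper20_PSS.CSR

section -- Pool.Agent.Helper52_PSS.FTR

/-!
# Squad PSS, row FTR: a fixed vector is a trace modulo the Brauer kernel
-/

set_option autoImplicit false

open scoped BigOperators TensorProduct

noncomputable section

namespace Pool.Agent.PSS.H52

open Pool.Agent.PSS Pool.Agent.PSS.S0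
open Pool.Agent.PFC (tw IsTv)
open Pool.Agent.PFD.D2b (FrR)

theorem ex_tv {H : Type} [Group H] [Finite H] (P : Subgroup H) : ∃ S : Finset H, IsTv P ⊤ S := by
  classical
  have : Fintype (H ⧸ P) := Fintype.ofFinite _
  refine ⟨Finset.univ.image (fun q : H ⧸ P => q.out), fun s _ => Subgroup.mem_top s, ?_⟩
  intro p _
  refine ⟨(p : H ⧸ P).out, ⟨Finset.mem_image_of_mem _ (Finset.mem_univ _), ?_⟩, ?_⟩
  · rw [← QuotientGroup.eq]
    exact Quotient.out_eq _
  · rintro s ⟨hs, hp⟩
    obtain ⟨q, _, rfl⟩ := Finset.mem_image.1 hs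
    rw [← QuotientGroup.eq] at hp
    have h1 : ((Quotient.out q : H) : H ⧸ P) = q := Quotient.out_eq _
    have hq : q = (p : H ⧸ P) := by rw [← h1, hp]
    exact congrArg Quotient.out hq

theorem stab_comm {H Ω : Type} [CommGroup H] [MulAction H Ω] (h : H) (ω : Ω) :
    MulAction.stabilizer H (h • ω) = MulAction.stabilizer H ω := by
  ext x
  rw [MulAction.mem_stabilizer_iff, MulAction.mem_stabilizer_iff, smul_smul, mul_comm, ← smul_smul]
  exact smul_left_cancel_iff h

theorem ftr (hFco : FcoStmt) (hFpx : FpxStmt) : FtrStmt := by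
  classical
  intro ℓ _ R H M Ω _ _ _ _ _ _ _ ρ b c hl hH hF P m hm hP
  obtain ⟨hb, hc, hs⟩ := hF
  obtain ⟨S, hS⟩ := ex_tv P
  have hinv : ∀ (h : H) (ω : Ω), c (h • ω) m = c ω m := by
    intro h ω
    have h1 := hc h ω m
    rw [hm h (Subgroup.mem_top h)] at h1
    exact h1
  have hzero : ∀ ω : Ω, P < MulAction.stabilizer H ω → c ω m = 0 := by
    intro ω hω
    exact hFco ℓ R H M Ω ρ b c hl hH ⟨hb, hc, hs⟩ _ m (hP _ hω) ω (fun h hh => hh)
  let rr : Ω → Ω := fun ω => (Quotient.mk (MulAction.orbitRel H Ω) ω).out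
  have hrr : ∀ ω, ∃ h : H, h • rr ω = ω := by
    intro ω
    have h1 : (MulAction.orbitRel H Ω) (rr ω) ω := Quotient.mk_out (s := MulAction.orbitRel H Ω) ω
    have h2 := (MulAction.orbitRel H Ω).symm h1
    change ω ∈ MulAction.orbit H (rr ω) at h2
    exact h2
  have hrs : ∀ (h : H) ω, rr (h • ω) = rr ω := by
    intro h ω
    have h1 : Quotient.mk (MulAction.orbitRel H Ω) (h • ω) =
        Quotient.mk (MulAction.orbitRel H Ω) ω := Quotient.sound (by
      change (MulAction.orbitRel H Ω) (h • ω) ω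
      rw [MulAction.orbitRel_apply]
      exact ⟨h, rfl⟩)
    change (Quotient.mk (MulAction.orbitRel H Ω) (h • ω)).out = _
    rw [h1]
  set Ω0 : Finset Ω := Finset.univ.filter fun ω => MulAction.stabilizer H ω = P with hΩ0
  set D : Finset Ω := Ω0.filter fun ω => rr ω = ω with hD
  have hst : ∀ ω ∈ D, MulAction.stabilizer H ω = P := by
    intro ω hω
    exact (Finset.mem_filter.1 (Finset.mem_filter.1 hω).1).2
  refine ⟨∑ ω ∈ D, c ω m • b ω, ?_, S, hS, ?_⟩
  · intro h hh
    rw [map_sum]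
    refine Finset.sum_congr rfl fun ω hω => ?_
    rw [map_smul, ← hb]
    have h1 : h ∈ MulAction.stabilizer H ω := by rw [hst ω hω]; exact hh
    rw [MulAction.mem_stabilizer_iff.1 h1]
  · have e1 : ∑ x ∈ S, ρ x (∑ ω ∈ D, c ω m • b ω) = ∑ ω ∈ Ω0, c ω m • b ω := by
      have e2 : ∑ x ∈ S, ρ x (∑ ω ∈ D, c ω m • b ω) =
          ∑ p ∈ S ×ˢ D, c (p.1 • p.2) m • b (p.1 • p.2) := by
        rw [Finset.sum_product]
        refine Finset.sum_congr rfl fun x _ => ?_
        rw [map_sum]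
        refine Finset.sum_congr rfl fun ω _ => ?_
        rw [map_smul, ← hb, hinv]
      rw [e2]
      refine Finset.sum_bij (fun p _ => p.1 • p.2) ?_ ?_ ?_ ?_
      · rintro ⟨x, ω⟩ hp
        have hω := (Finset.mem_product.1 hp).2
        rw [hΩ0, Finset.mem_filter]
        exact ⟨Finset.mem_univ _, (stab_comm x ω).trans (hst ω hω)⟩
      · rintro ⟨x, ω⟩ hp ⟨x', ω'⟩ hp' he
        have hx := (Finset.mem_product.1 hp).1
        have hω := (Finset.mem_product.1 hp).2
        have hx' := (Finset.mem_product.1 hp').1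
        have hω' := (Finset.mem_product.1 hp').2
        change x • ω = x' • ω' at he
        have h1 : ω = ω' := by
          have h2 := congrArg rr he
          rw [hrs, hrs, (Finset.mem_filter.1 hω).2, (Finset.mem_filter.1 hω').2] at h2
          exact h2
        subst h1
        have h3 : x⁻¹ * x' ∈ P := by
          rw [← hst ω hω, MulAction.mem_stabilizer_iff, ← smul_smul, ← he, smul_smul,
            inv_mul_cancel, one_smul]
        obtain ⟨s, _, hu⟩ := hS.2 x' (Subgroup.mem_top _)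
        have h4 := hu x ⟨hx, h3⟩
        have h5 := hu x' ⟨hx', by rw [inv_mul_cancel]; exact P.one_mem⟩
        rw [h4, h5]
      · intro ω hω
        obtain ⟨h, hh⟩ := hrr ω
        have h0 : MulAction.stabilizer H (rr ω) = P := by
          rw [← stab_comm h (rr ω), hh]
          exact (Finset.mem_filter.1 hω).2
        have h1 : rr ω ∈ D := by
          rw [hD, Finset.mem_filter, hΩ0, Finset.mem_filter]
          refine ⟨⟨Finset.mem_univ _, h0⟩, ?_⟩
          have h2 := hrs h (rr ω)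
          rw [hh] at h2
          exact h2.symm
        obtain ⟨s, ⟨hs1, hs2⟩, _⟩ := hS.2 h (Subgroup.mem_top _)
        refine ⟨⟨s, rr ω⟩, Finset.mem_product.2 ⟨hs1, h1⟩, ?_⟩
        change s • rr ω = ω
        rw [← h0, MulAction.mem_stabilizer_iff, ← smul_smul, inv_smul_eq_iff] at hs2
        rw [← hs2, hh]
      · rintro ⟨x, ω⟩ _
        rfl
    rw [e1]
    set g : Ω → M := fun ω => if P ≤ MulAction.stabilizer H ω then 0 else c ω m • b ω with hg
    set K0 : Finset Ω := Finset.univ.filter fun ω => P ≤ MulAction.stabilizer H ω with hK0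
    have e3 : m - ∑ ω ∈ Ω0, c ω m • b ω = ∑ ω, g ω - ∑ ω ∈ K0, g ω := by
      have e4 : ∑ ω ∈ K0, g ω = 0 := by
        refine Finset.sum_eq_zero fun ω hω => ?_
        exact if_pos (Finset.mem_filter.1 hω).2
      rw [e4, sub_zero]
      have e5 : m - ∑ ω ∈ Ω0, c ω m • b ω = ∑ ω, c ω m • b ω - ∑ ω ∈ Ω0, c ω m • b ω := by
        rw [hs m]
      rw [e5]
      rw [hΩ0, Finset.sum_filter, ← Finset.sum_sub_distrib]
      refine Finset.sum_congr rfl fun ω _ => ?_
      change _ = if P ≤ MulAction.stabilizer H ω then (0 : M) else c ω m • b ω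
      split_ifs with h1 h2 h2
      · exact sub_self _
      · exact absurd h1.ge h2
      · rw [hzero ω (lt_of_le_of_ne h2 (fun h => h1 h.symm)), zero_smul, sub_zero]
      · exact sub_zero _
    rw [e3]
    refine hFpx R H M Ω ρ P g K0 ?_ ?_
    · intro h _ ω
      change (if P ≤ MulAction.stabilizer H (h • ω) then (0 : M) else _) =
        ρ h (if P ≤ MulAction.stabilizer H ω then (0 : M) else c ω m • b ω)
      rw [stab_comm]
      split_ifs with h1
      · exact (map_zero _).symm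
      · rw [map_smul, ← hb, hinv]
    · intro ω
      rw [hK0, Finset.mem_filter]
      exact ⟨fun h x hx => h.2 hx, fun h => ⟨Finset.mem_univ _, fun x hx => h x hx⟩⟩

end Pool.Agent.PSS.H52
end
end -- Pool.Agent.Helper52_PSS.FTR

section -- Pool.Agent.Helper29_PSS.FRE

/-!
# Squad PSS, row FRE: the ring of the deformation is finite and free (helper29)
-/

noncomputable section

namespace Pool.Agent.PSS.H29

open Pool.Agent.PSS
open Finset

/-- the coordinates of the ring of the deformation -/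
def freE {k W A ι : Type} [CommRing k] [Group W] [Ring A] [Algebra k A] [Fintype ι]
    (om : W →* A) (D : Dm k om) (bs : Module.Basis ι k A) :
    D.R ≃ₗ[PowerSeries k] (ι → PowerSeries k) where
  toFun x := fun i => PowerSeries.mk fun n => bs.equivFun (D.sq x n) i
  map_add' x y := by
    have h1 : D.sq (x + y) = D.sq x + D.sq y := by
      conv_lhs => rw [← D.of_sq x, ← D.of_sq y, ← D.of_add]
      rw [D.sq_of]
    funext i
    ext n
    rw [Pi.add_apply, map_add, PowerSeries.coeff_mk, PowerSeries.coeff_mk, PowerSeries.coeff_mk,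
      h1, Pi.add_apply, map_add, Pi.add_apply]
  map_smul' c x := by
    have h1 : D.sq (c • x) = Dm.smulq c (D.sq x) := by
      conv_lhs => rw [← D.of_sq x, ← D.of_smul]
      rw [D.sq_of]
    funext i
    ext n
    rw [RingHom.id_apply, Pi.smul_apply, smul_eq_mul, PowerSeries.coeff_mul,
      PowerSeries.coeff_mk, h1, Dm.smulq, map_sum, Finset.sum_apply]
    refine Finset.sum_congr rfl fun p _ => ?_
    rw [map_smul, Pi.smul_apply, smul_eq_mul, PowerSeries.coeff_mk]
  invFun g := D.of fun n => bs.equivFun.symm fun i => PowerSeries.coeff n (g i)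
  left_inv x := by
    conv_rhs => rw [← D.of_sq x]
    refine congrArg D.of (funext fun n => ?_)
    have h1 : (fun i => PowerSeries.coeff n (PowerSeries.mk fun n => bs.equivFun (D.sq x n) i)) =
        bs.equivFun (D.sq x n) := by
      funext i
      rw [PowerSeries.coeff_mk]
    exact (congrArg bs.equivFun.symm h1).trans (bs.equivFun.symm_apply_apply _)
  right_inv g := by
    funext i
    ext n
    rw [PowerSeries.coeff_mk, D.sq_of, LinearEquiv.apply_symm_apply]

/-- FRE. -/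
theorem fre : FreStmt := by
  intro k W A _ _ _ _ _ _ om D
  let bs := Module.Free.chooseBasis k A
  let e := freE om D bs
  exact ⟨Module.Finite.equiv e.symm, Module.Free.of_equiv e.symm⟩

end Pool.Agent.PSS.H29
end
end -- Pool.Agent.Helper29_PSS.FRE

section -- Pool.Agent.Helper63_PSS.FXL

/-!
# Squad PSS, row FXL: vectors fixed modulo `i A` are congruent to fixed vectors
-/

open scoped BigOperators

noncomputable section

namespace Pool.Agent.PSS.H63

open Pool.Agent.PFD.D2b (FrR)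

/-- FXL -/
theorem fxl : FxlStmt := by
  intro R K V A B κ Ω _ _ _ _ _ _ _ _ _ _ _ _ _ _ α lam x y b c C X s hs
  classical
  obtain ⟨hb, hc, hsum⟩ := C.frK
  -- representatives of the orbits
  set r : Ω → Ω := fun ω => (Quotient.mk (MulAction.orbitRel X Ω) ω).out with hr
  have hr1 : ∀ g ∈ X, ∀ ω, r (g • ω) = r ω := by
    intro g hg ω
    have h1 : (Quotient.mk (MulAction.orbitRel X Ω) (g • ω)) =
        Quotient.mk (MulAction.orbitRel X Ω) ω := by
      apply Quotient.sound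
      exact ⟨⟨g, hg⟩, rfl⟩
    rw [hr]
    show (Quotient.mk (MulAction.orbitRel X Ω) (g • ω)).out = _
    rw [h1]
  have hr2 : ∀ ω, ∃ g ∈ X, g • ω = r ω := by
    intro ω
    have h1 : (MulAction.orbitRel X Ω) (r ω) ω := Quotient.exact (Quotient.out_eq _)
    obtain ⟨⟨g, hg⟩, h⟩ := h1
    exact ⟨g, hg, h⟩
  have hd : ∀ ω, ∃ ρ : R, C.cK (r ω) s - C.cK ω s = algebraMap R K ρ := by
    intro ω
    obtain ⟨g, hg, h⟩ := hr2 ω
    obtain ⟨a, ha⟩ := hs g hg
    refine ⟨-c (g • ω) a, ?_⟩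
    have h2 : C.cK ω s = C.cK (g • ω) (bw K (ia C.i α) g s) := (hc g ω s).symm
    rw [← h, h2, ← map_sub, ← neg_sub, ← ha, map_neg, C.ck, map_neg]
  choose ρ hρ using hd
  refine ⟨∑ ω, C.cK (r ω) s • C.i (b ω), ?_, ?_⟩
  · intro g hg
    rw [map_sum, ← Equiv.sum_comp (MulAction.toPerm g) (fun ω => C.cK (r ω) s • C.i (b ω))]
    refine Finset.sum_congr rfl fun ω _ => ?_
    rw [map_smul, MulAction.toPerm_apply, hr1 g hg, ← hb g ω]
  · refine ⟨∑ ω, ρ ω • b ω, ?_⟩
    have h1 : s = ∑ ω, C.cK ω s • C.i (b ω) := (hsum s).symm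
    conv_rhs => rw [h1]
    rw [map_sum, ← Finset.sum_sub_distrib]
    refine Finset.sum_congr rfl fun ω _ => ?_
    rw [map_smul, ← C.tow, ← hρ, sub_smul]
    congr 3

end Pool.Agent.PSS.H63
end
end -- Pool.Agent.Helper63_PSS.FXL

section -- Pool.Agent.Helper29_PST.NRK

/-! # PST row NRK: a lift `rh` with `rh ^ ℓ = s (r ^ ℓ)`. -/

noncomputable section

namespace Pool.Agent.PST.H29

open Pool.Agent.PSS
open Finset

theorem nrk : NrkStmt := by
  intro R K V A B κ Ω X _ _ _ _ _ _ _ _ _ _ _ _ _ _ _ W α lam x y b c C cc p j s ℓ r hℓ hrW hZ E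
  set g : V → B := fun v => C.i (α v) with hg
  have gm : ∀ u v, g (u * v) = g u * g v := fun u v => by simp only [hg, map_mul]
  have g1 : g 1 = 1 := by simp only [hg, map_one]
  have gc : ∀ u v, g u * g v = g v * g u := fun u v => by rw [← gm, mul_comm, gm]
  have gi : ∀ u, g u * g u⁻¹ = 1 := fun u => by rw [← gm, mul_inv_cancel, g1]
  have gi' : ∀ u, g u⁻¹ * g u = 1 := fun u => by rw [← gm, inv_mul_cancel, g1]
  have gp : ∀ u (n : ℕ), g (u ^ n) = g u ^ n := fun u n => by simp only [hg, map_pow]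
  have rel := hZ.rel
  have rel1 : ∀ w ∈ W, ∀ a b, cc (g w * a) b = g w * cc a b := fun w hw a b => (rel w hw a b).1
  have rel2 : ∀ w ∈ W, ∀ a b, cc (a * g w) b = cc a (g w * b) := fun w hw a b => (rel w hw a b).2.1
  have rel3 : ∀ w ∈ W, ∀ a b, cc a (b * g w) = cc a b * g w := fun w hw a b => (rel w hw a b).2.2
  have n1 : ∀ a, cc 1 a = 0 := hZ.nrm.1
  have n2 : ∀ a, cc a 1 = 0 := hZ.nrm.2
  have cw1 : ∀ w ∈ W, ∀ a, cc (g w) a = 0 := by
    intro w hw a
    have := rel1 w hw 1 a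
    rwa [mul_one, n1, mul_zero] at this
  have cw2 : ∀ w ∈ W, ∀ a, cc a (g w) = 0 := by
    intro w hw a
    have := rel3 w hw a 1
    rwa [one_mul, n2, zero_mul] at this
  have Es : ∀ a m, s a * j m = j (C.i a * m) := E.sj
  have Ej : ∀ a m, j m * s a = j (m * C.i a) := E.js
  have Ess : ∀ u v, s (α u) * s (α v) = s (α (u * v)) + j (cc (g u) (g v)) := by
    intro u v
    rw [map_mul]
    exact E.ss (α u) (α v)
  have inadd : ∀ m m', In C.i m → In C.i m' → In C.i (m + m') := by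
    rintro m m' ⟨a, rfl⟩ ⟨a', rfl⟩
    exact ⟨a + a', map_add _ _ _⟩
  have inneg : ∀ m, In C.i m → In C.i (-m) := by
    rintro m ⟨a, rfl⟩
    exact ⟨-a, map_neg _ _⟩
  have inl : ∀ u m, In C.i m → In C.i (g u * m) := by
    rintro u m ⟨a, rfl⟩
    exact ⟨α u * a, map_mul _ _ _⟩
  have inr : ∀ u m, In C.i m → In C.i (m * g u) := by
    rintro u m ⟨a, rfl⟩
    exact ⟨a * α u, map_mul _ _ _⟩
  -- powers of `s r`
  set z : ℕ → B := fun t => ∑ q ∈ range t, cc (g (r ^ q)) (g r) * g (r ^ (q + 1))⁻¹ with hz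
  have hpow : ∀ t : ℕ, s (α r) ^ t = s (α (r ^ t)) + j (z t * g (r ^ t)) := by
    intro t
    induction t with
    | zero =>
      simp only [pow_zero, map_one, hz, Finset.range_zero, Finset.sum_empty, zero_mul, map_zero,
        add_zero, E.s1]
    | succ t ih =>
      rw [pow_succ, ih, add_mul, Ess, Ej, add_assoc, ← map_add, ← pow_succ]
      congr 2
      have h1 : z (t + 1) = z t + cc (g (r ^ t)) (g r) * g (r ^ (t + 1))⁻¹ := by
        simp only [hz]
        rw [Finset.sum_range_succ]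
      rw [h1, add_mul, mul_assoc (cc _ _), gi', mul_one, add_comm, mul_assoc]
      congr 2
      show g (r ^ t) * g r = _
      rw [← gm, pow_succ]
  have zW : ∀ (t : ℕ), ∀ w ∈ W, g w * z t = z t * g w := by
    intro t w hw
    simp only [hz]
    rw [Finset.mul_sum, Finset.sum_mul]
    refine Finset.sum_congr rfl fun q _ => ?_
    rw [← mul_assoc, ← rel1 w hw, gc w, rel2 w hw, gc w r, rel3 w hw, mul_assoc, gc w, mul_assoc]
  have zr : In C.i (g r * z ℓ * g r⁻¹ - z ℓ) := by
    have h1 : s (α r) * s (α r) ^ ℓ = s (α r) ^ ℓ * s (α r) := (pow_mul_comm' (s (α r)) ℓ).symm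
    have h2 : s (α r) * s (α (r ^ ℓ)) = s (α (r ^ ℓ)) * s (α r) := by
      rw [Ess, Ess, cw1 _ hrW, cw2 _ hrW, mul_comm]
    rw [hpow, mul_add, add_mul, h2, Es, Ej] at h1
    have h3 := add_left_cancel h1
    have h4 : j (g r * (z ℓ * g (r ^ ℓ)) - z ℓ * g (r ^ ℓ) * g r) = 0 := by
      rw [map_sub, sub_eq_zero]
      exact h3
    have h5 := inr (r⁻¹ * (r ^ ℓ)⁻¹) _ ((E.j0 _).1 h4)
    have h6 : (g r * (z ℓ * g (r ^ ℓ)) - z ℓ * g (r ^ ℓ) * g r) * g (r⁻¹ * (r ^ ℓ)⁻¹)
        = g r * z ℓ * g r⁻¹ - z ℓ := by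
      have h7 : g (r ^ ℓ) * g (r⁻¹ * (r ^ ℓ)⁻¹) = g r⁻¹ := by
        rw [← gm]; congr 1
        rw [mul_left_comm, mul_inv_cancel, mul_one]
      have h8 : g (r ^ ℓ) * (g r * g (r⁻¹ * (r ^ ℓ)⁻¹)) = 1 := by
        rw [← gm, ← gm, ← g1]; congr 1
        rw [← mul_assoc r, mul_inv_cancel, one_mul, mul_inv_cancel]
      rw [sub_mul, mul_assoc (g r), mul_assoc (z ℓ), h7, mul_assoc (z ℓ * g (r ^ ℓ)),
        mul_assoc (z ℓ), h8, mul_one, ← mul_assoc]
    rwa [h6] at h5
  -- the group of `v` fixing `z` modulo `A`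
  let S : Subgroup V :=
    { carrier := {v | In C.i (g v * z ℓ * g v⁻¹ - z ℓ)}
      one_mem' := by
        show In C.i (g 1 * z ℓ * g 1⁻¹ - z ℓ)
        rw [inv_one, g1, one_mul, mul_one, sub_self]
        exact ⟨0, map_zero _⟩
      mul_mem' := by
        intro u v hu hv
        have hu' : In C.i (g u * z ℓ * g u⁻¹ - z ℓ) := hu
        have hv' : In C.i (g v * z ℓ * g v⁻¹ - z ℓ) := hv
        show In C.i (g (u * v) * z ℓ * g (u * v)⁻¹ - z ℓ)
        have h1 : g (u * v) * z ℓ * g (u * v)⁻¹ - z ℓ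
            = g u * (g v * z ℓ * g v⁻¹ - z ℓ) * g u⁻¹ + (g u * z ℓ * g u⁻¹ - z ℓ) := by
          rw [mul_inv_rev, gm, gm, mul_sub, sub_mul, sub_add_sub_cancel]
          simp only [mul_assoc]
        rw [h1]
        exact inadd _ _ (inr _ _ (inl _ _ hv')) hu'
      inv_mem' := by
        intro v hv
        have hv' : In C.i (g v * z ℓ * g v⁻¹ - z ℓ) := hv
        show In C.i (g v⁻¹ * z ℓ * g v⁻¹⁻¹ - z ℓ)
        have h1 : g v⁻¹ * z ℓ * g v⁻¹⁻¹ - z ℓ
            = - (g v⁻¹ * (g v * z ℓ * g v⁻¹ - z ℓ) * g v) := by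
          have h2 : g v⁻¹ * (g v * z ℓ * g v⁻¹) * g v = z ℓ := by
            rw [mul_assoc (g v), ← mul_assoc, gi', one_mul, mul_assoc, gi', mul_one]
          rw [inv_inv, mul_sub, sub_mul, h2, neg_sub]
        rw [h1]
        exact inneg _ (inr _ _ (inl _ _ hv')) }
  have hSr : r ∈ S := zr
  have hSW : ∀ w ∈ W, w ∈ S := by
    intro w hw
    show In C.i (g w * z ℓ * g w⁻¹ - z ℓ)
    rw [zW ℓ w hw, mul_assoc, gi, mul_one, sub_self]
    exact ⟨0, map_zero _⟩
  obtain ⟨t, ht1, ht2⟩ := Pool.Agent.PSS.H63.fxl R K V A B κ Ω α lam x y b c C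
    (S.map ((MonoidHom.id V).prod (MonoidHom.id V))) (z ℓ) (by
      rintro _ ⟨v, hv, rfl⟩
      have hv' : In C.i (g v * z ℓ * g v⁻¹ - z ℓ) := hv
      show In C.i (g v * (z ℓ * g v⁻¹) - z ℓ)
      rwa [← mul_assoc])
  have tS : ∀ v ∈ S, g v * t = t * g v := by
    intro v hv
    have h0 : g v * (t * g v⁻¹) = t := ht1 (v, v) ⟨v, hv, rfl⟩
    have h1 : g v * t * g v⁻¹ = t := by rw [mul_assoc, h0]
    calc g v * t = g v * t * (g v⁻¹ * g v) := by rw [gi', mul_one]
      _ = (g v * t * g v⁻¹) * g v := by rw [mul_assoc (g v * t)]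
      _ = t * g v := by rw [h1]
  have hℓK : (ℓ : K) ≠ 0 := Nat.cast_ne_zero.2 hℓ.ne'
  set k₀ : B := -((ℓ : K)⁻¹ • t) with hk₀
  have hk₀ℓ : ℓ • k₀ = -t := by
    rw [hk₀, smul_neg, ← Nat.cast_smul_eq_nsmul K, smul_smul, mul_inv_cancel₀ hℓK, one_smul]
  have kS : ∀ v ∈ S, g v * k₀ = k₀ * g v := by
    intro v hv
    rw [hk₀, mul_neg, neg_mul, mul_smul_comm, smul_mul_assoc, tS v hv]
  have spj : ∀ (n : ℕ) m, s (α r) ^ n * j m = j (g r ^ n * m) := by
    intro n
    induction n with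
    | zero => intro m; simp
    | succ n ih => intro m; rw [pow_succ, mul_assoc, Es, ih, pow_succ, mul_assoc]
  have hk₀p : ∀ n : ℕ, g r ^ n * k₀ = k₀ * g r ^ n := fun n =>
    ((show Commute (g r) k₀ from kS r hSr).pow_left n).eq
  have hfin : ∀ n : ℕ, (s (α r) + j (k₀ * g r)) ^ n = s (α r) ^ n + j (n • (k₀ * g r ^ n)) := by
    intro n
    induction n with
    | zero => simp
    | succ n ih =>
      rw [pow_succ, ih, mul_add, add_mul, add_mul, spj, Ej, E.jj, add_zero, ← pow_succ, add_assoc,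
        ← map_add]
      congr 2
      show n • (k₀ * g r ^ n) * g r + g r ^ n * (k₀ * g r) = _
      rw [← mul_assoc, hk₀p, smul_mul_assoc, mul_assoc, ← pow_succ, add_smul, one_smul]
  refine ⟨k₀ * g r, ?_, ?_, ?_⟩
  · intro w hw
    show g w * (k₀ * g r) = k₀ * g r * g w
    rw [← mul_assoc, kS w (hSW w hw), mul_assoc, gc w r, mul_assoc]
  · show g r * (k₀ * g r) = k₀ * g r * g r
    rw [← mul_assoc, kS r hSr]
  · rw [hfin, hpow, add_assoc, ← map_add]
    have h1 : z ℓ * g (r ^ ℓ) + ℓ • (k₀ * g r ^ ℓ) = - ((t - z ℓ) * g (r ^ ℓ)) := by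
      rw [← smul_mul_assoc, hk₀ℓ, gp, sub_mul, neg_mul]
      abel
    have h2 : j (- ((t - z ℓ) * g (r ^ ℓ))) = 0 := by
      rw [E.j0]
      exact inneg _ (inr _ _ ht2)
    rw [h1, h2, add_zero]

end Pool.Agent.PST.H29
end
end -- Pool.Agent.Helper29_PST.NRK

section -- Pool.Agent.Helper32_PSS.FSR

/-!
Squad PSS, block S1, row FSR (helper32): dual families of the deformation.
-/

set_option autoImplicit false

open scoped BigOperators TensorProduct

noncomputable section

namespace Pool.Agent.PSS.H32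

open Pool.Agent.PFD.D2 (Cdv FibG)
open Pool.Agent.PFD.D2b (FrR)
open Finset
open Pool.Agent.PSS
open Pool.Agent.PSS.Dm (cst)

theorem unitX {k : Type} [CommRing k] (r : PowerSeries k) : IsUnit (1 + PowerSeries.X * r) := by
  rw [PowerSeries.isUnit_iff_constantCoeff]
  simp

theorem regX {k : Type} [CommRing k] (r : PowerSeries k) (hr : PowerSeries.X * r = 0) : r = 0 := by
  ext n
  have h := congrArg (PowerSeries.coeff (n + 1)) hr
  rw [PowerSeries.coeff_succ_X_mul] at h
  rw [h]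
  simp

theorem redX (k : Type) [CommRing k] :
    Red (PowerSeries.X : PowerSeries k) (PowerSeries.constantCoeff (R := k)) := by
  refine ⟨fun r => ⟨PowerSeries.C r, PowerSeries.constantCoeff_C r⟩, fun r => ?_⟩
  rw [← PowerSeries.X_dvd_iff]
  rfl

theorem fsr (rfm : RfmStmt) (spf : SpfStmt) (fre : FreStmt) : FsrStmt := by
  intro k W A K _ _ _ _ _ _ _ _ om D lam x y Λ hrf hsym hc
  obtain ⟨π₀, h1, h2, h3, h4, h5⟩ := spf k W A om D
  obtain ⟨hfin, hfree⟩ := fre k W A om D
  have hsq : ∀ a, π₀ a = D.sq a 0 := by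
    intro a
    have h := h1 (D.sq a)
    rwa [D.of_sq] at h
  have h6 : ∀ a, PowerSeries.constantCoeff (Λ a) = lam (π₀ a) := by
    intro a
    rw [hsq, ← hc (D.sq a), D.of_sq]
  have h7 : ∀ t, π₀ (D.of (cst (x t))) = x t := by
    intro t
    rw [h1]
    rfl
  obtain ⟨y', hy1, hy2⟩ := rfm (PowerSeries k) k W A D.R K PowerSeries.X
    (PowerSeries.constantCoeff (R := k)) om D.w π₀ lam Λ x y (fun t => D.of (cst (x t)))
    unitX regX (redX k) h2 h3 h5 h4 h6 hsym hrf h7
  exact ⟨y', hy1, fun t => by rw [← hsq]; exact hy2 t⟩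

end Pool.Agent.PSS.H32
end
end -- Pool.Agent.Helper32_PSS.FSR

section -- Pool.Agent.Helper52_PSS.RFM

/-!
# Squad PSS, rows RFM and RFL: dual families lift

`θ a = ∑ lam' (v⁻¹ Y_k a) X_k v` and its adjoint `θ* b = ∑ lam' (b X_k v) v⁻¹ Y_k` are congruent to the
identity, so bijective (UNJ); `Y'_k = (θ*)⁻¹ Y_k`.  (The perfectness of `lam'` is not needed.)
-/

set_option autoImplicit false

open scoped BigOperators TensorProduct

noncomputable section

namespace Pool.Agent.PSS.H52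

open Pool.Agent.PSS
open Pool.Agent.PFD.D2 (Cdv FibG)
open Pool.Agent.PFD.D2b (FrR)
open Finset

section

variable {R V A' K : Type} [CommRing R] [CommGroup V] [Fintype V] [Ring A'] [Algebra R A']
  [Fintype K] (α' : V →* A') (lam' : A' →ₗ[R] R) (X Y : K → A')

/-- `θ` -/
def th : A' →ₗ[R] A' where
  toFun := fun a => ∑ k, ∑ v, lam' (α' v⁻¹ * Y k * a) • (X k * α' v)
  map_add' := fun a b => by
    simp only [mul_add, map_add, add_smul, sum_add_distrib]
  map_smul' := fun r a => by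
    rw [RingHom.id_apply, smul_sum]
    refine sum_congr rfl fun k _ => ?_
    rw [smul_sum]
    refine sum_congr rfl fun v _ => ?_
    rw [mul_smul_comm, map_smul, smul_assoc]

/-- the adjoint of `θ` -/
def ths : A' →ₗ[R] A' where
  toFun := fun b => ∑ k, ∑ v, lam' (b * (X k * α' v)) • (α' v⁻¹ * Y k)
  map_add' := fun a b => by
    simp only [add_mul, map_add, add_smul, sum_add_distrib]
  map_smul' := fun r a => by
    rw [RingHom.id_apply, smul_sum]
    refine sum_congr rfl fun k _ => ?_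
    rw [smul_sum]
    refine sum_congr rfl fun v _ => ?_
    rw [smul_mul_assoc, map_smul, smul_assoc]

theorem th_apply (a : A') :
    th α' lam' X Y a = ∑ k, ∑ v, lam' (α' v⁻¹ * Y k * a) • (X k * α' v) := rfl

theorem ths_apply (b : A') :
    ths α' lam' X Y b = ∑ k, ∑ v, lam' (b * (X k * α' v)) • (α' v⁻¹ * Y k) := rfl

theorem adj (a b : A') : lam' (b * th α' lam' X Y a) = lam' (ths α' lam' X Y b * a) := by
  rw [th_apply, ths_apply, mul_sum, sum_mul, map_sum, map_sum]
  refine sum_congr rfl fun k _ => ?_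
  rw [mul_sum, sum_mul, map_sum, map_sum]
  refine sum_congr rfl fun v _ => ?_
  rw [mul_smul_comm, smul_mul_assoc, map_smul, map_smul, smul_eq_mul, smul_eq_mul, mul_comm]

theorem th_mul (sy : ∀ a b, lam' (a * b) = lam' (b * a)) (a : A') (g : V) :
    th α' lam' X Y (a * α' g) = th α' lam' X Y a * α' g := by
  rw [th_apply, th_apply, sum_mul]
  refine sum_congr rfl fun k _ => ?_
  rw [sum_mul]
  symm
  refine Fintype.sum_equiv (Equiv.mulRight g) _ _ fun w => ?_
  rw [Equiv.coe_mulRight, smul_mul_assoc, mul_assoc (X k), ← map_mul α']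
  congr 1
  rw [sy (α' (w * g)⁻¹ * Y k), ← mul_assoc, sy (a * α' g * α' (w * g)⁻¹)]
  have h1 : a * α' g * α' (w * g)⁻¹ = a * α' w⁻¹ := by
    rw [mul_assoc, ← map_mul α', mul_inv, mul_comm w⁻¹, ← mul_assoc, mul_inv_cancel, one_mul]
  rw [h1, sy, sy (Y k), mul_assoc, sy a]

end

theorem rfm (rfe : RfeStmt) (unj : UnjStmt) : RfmStmt := by
  intro R R₀ V A A' K _ _ _ _ _ _ _ _ _ _ _ p κ α α' q lam lam' x y x' hj _ hred sc sj kr aq lq
    sy hrf xq
  have qs : ∀ (r : R) (a : A'), q (r • a) = κ r • q a := by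
    intro r a
    rw [Algebra.smul_def, map_mul, sc, ← Algebra.smul_def]
  choose Y hY using fun k => sj (y k)
  -- `θ` and its adjoint are congruent to the identity
  have h1 : ∀ a, ∃ b, th α' lam' x' Y a - a = p • b := by
    intro a
    apply kr
    rw [map_sub, sub_eq_zero, th_apply, map_sum]
    conv_rhs => rw [← hrf.e1 (q a)]
    refine sum_congr rfl fun k _ => ?_
    rw [map_sum]
    refine sum_congr rfl fun v _ => ?_
    rw [qs, lq, map_mul q, map_mul q, map_mul q, aq, aq, hY, xq]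
  have h2 : ∀ a, ∃ b, ths α' lam' x' Y a - a = p • b := by
    intro a
    apply kr
    rw [map_sub, sub_eq_zero, ths_apply, map_sum]
    conv_rhs => rw [← hrf.e2 (q a)]
    refine sum_congr rfl fun k _ => ?_
    rw [map_sum]
    refine sum_congr rfl fun v _ => ?_
    rw [qs, lq, map_mul q, map_mul q, map_mul q, aq, aq, hY, xq]
  have b1 := unj R A' p hj _ h1
  have b2 := unj R A' p hj _ h2
  choose y' hy' using fun k => b2.2 (Y k)
  refine ⟨y', ?_, ?_⟩
  · have e1 : ∀ a, ∑ k, ∑ v, lam' (α' v⁻¹ * y' k * a) • (x' k * α' v) = a := by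
      intro a
      obtain ⟨a₀, rfl⟩ := b1.2 a
      conv_rhs => rw [th_apply]
      refine sum_congr rfl fun k _ => sum_congr rfl fun v _ => ?_
      have h3 : lam' (α' v⁻¹ * y' k * th α' lam' x' Y a₀) = lam' (α' v⁻¹ * Y k * a₀) := by
        rw [mul_assoc, sy, mul_assoc, ← th_mul α' lam' x' Y sy, adj, hy', ← mul_assoc, sy,
          ← mul_assoc]
      rw [h3]
    exact (rfe R V A' K α' lam' x' y' sy e1).1
  · intro k
    obtain ⟨b, hb⟩ := h2 (y' k)
    rw [hy'] at hb
    have h4 : κ p = 0 := (hred.ker p).mpr ⟨1, (mul_one p).symm⟩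
    have h5 : q (Y k - y' k) = 0 := by
      rw [hb, qs, h4, zero_smul]
    rw [map_sub, sub_eq_zero, hY] at h5
    exact h5.symm

theorem rfl_ (rfe : RfeStmt) (unj : UnjStmt) : RflStmt := by
  intro R R₀ V A A' K _ _ _ _ _ _ _ _ _ _ _ p κ α α' q lam lam' x y hj hr hred sc sj kr aq lq sy
    hrf
  choose x' hx' using fun k => sj (x k)
  obtain ⟨y', h1, h2⟩ := rfm rfe unj R R₀ V A A' K p κ α α' q lam lam' x y x' hj hr hred sc sj kr
    aq lq sy hrf hx'
  exact ⟨x', y', h1, hx', h2⟩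

end Pool.Agent.PSS.H52
end
end -- Pool.Agent.Helper52_PSS.RFM

section -- Pool.Agent.Helper86_PSS.RTC

/-! # Squad PSS, row RTC (helper86): relative traces are central, change of the form -/

open scoped BigOperators

noncomputable section

namespace Pool.Agent.PSS.H86

open Pool.Agent.PSS

theorem rtc_two {k V A K K' : Type} [CommRing k] [CommGroup V] [Fintype V] [Ring A] [Algebra k A]
    [Fintype K] [Fintype K'] (α : V →* A) (lam : A →ₗ[k] k) (x y : K → A) (H : RF k α lam x y)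
    (lam' : A →ₗ[k] k) (x' y' : K' → A) (u u' : A) (H' : RF k α lam' x' y')
    (hu : ∀ b, u * b = b * u) (huu : u * u' = 1) (hl : ∀ b, lam' b = lam (u * b))
    (a : A) (ha : ∀ v, α v * a = a * α v) : u * rt x' y' a = rt x y a := by
  have key : ∀ t, ∑ j, ∑ v, lam (α v⁻¹ * y t * x' j) • (α v * y' j) = u' * y t := by
    intro t
    rw [← H'.e2 (u' * y t)]
    refine Finset.sum_congr rfl fun j _ => ?_
    refine Fintype.sum_equiv (Equiv.inv V) _ _ fun v => ?_
    have e1 : lam (α v⁻¹ * y t * x' j) = lam' (u' * y t * (x' j * α v⁻¹)) := by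
      rw [hl]
      have e2 : u * (u' * y t * (x' j * α v⁻¹)) = y t * x' j * α v⁻¹ := by
        calc u * (u' * y t * (x' j * α v⁻¹)) = (u * u') * (y t * (x' j * α v⁻¹)) := by
              simp only [mul_assoc]
          _ = y t * x' j * α v⁻¹ := by rw [huu, one_mul, mul_assoc]
      rw [e2, H.sym (y t * x' j) (α v⁻¹), mul_assoc]
    rw [e1, Equiv.inv_apply, inv_inv]
  have hx : ∀ j, x' j * a * y' j
      = ∑ t, ∑ v, x t * a * (lam (α v⁻¹ * y t * x' j) • (α v * y' j)) := by
    intro j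
    calc x' j * a * y' j
        = (∑ t, ∑ v, lam (α v⁻¹ * y t * x' j) • (x t * α v)) * a * y' j := by rw [H.e1 (x' j)]
      _ = ∑ t, ∑ v, x t * a * (lam (α v⁻¹ * y t * x' j) • (α v * y' j)) := by
        rw [Finset.sum_mul, Finset.sum_mul]
        refine Finset.sum_congr rfl fun t _ => ?_
        rw [Finset.sum_mul, Finset.sum_mul]
        refine Finset.sum_congr rfl fun v _ => ?_
        rw [smul_mul_assoc, smul_mul_assoc, mul_smul_comm]
        congr 1
        calc x t * α v * a * y' j = x t * (α v * a) * y' j := by simp only [mul_assoc]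
          _ = x t * (a * α v) * y' j := by rw [ha v]
          _ = x t * a * (α v * y' j) := by simp only [mul_assoc]
  have h2 : rt x' y' a = ∑ t, x t * a * (u' * y t) := by
    show ∑ j, x' j * a * y' j = _
    rw [Finset.sum_congr rfl fun j _ => hx j, Finset.sum_comm]
    refine Finset.sum_congr rfl fun t _ => ?_
    rw [← key t, Finset.mul_sum]
    refine Finset.sum_congr rfl fun j _ => ?_
    rw [Finset.mul_sum]
  rw [h2, Finset.mul_sum]
  show _ = ∑ t, x t * a * y t
  refine Finset.sum_congr rfl fun t _ => ?_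
  calc u * (x t * a * (u' * y t)) = (u * (x t * a)) * (u' * y t) := by simp only [mul_assoc]
    _ = (x t * a) * (u * u') * y t := by rw [hu (x t * a)]; simp only [mul_assoc]
    _ = x t * a * y t := by rw [huu, mul_one]

theorem rtc (hC : CsrStmt) : RtcStmt := by
  intro k V A K K' _ _ _ _ _ _ _ α lam x y H
  refine ⟨?_, fun lam' x' y' u u' H' hu huu hl a ha =>
    rtc_two α lam x y H lam' x' y' u u' H' hu huu hl a ha⟩
  intro a ha b
  let f : A →ₗ[k] A →ₗ[k] A := (LinearMap.mul k A).comp ((LinearMap.mul k A).flip a)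
  have hf : ∀ c d, f c d = c * a * d := fun c d => rfl
  have h := hC k V A K A α lam x y H f (by
    intro c g d
    rw [hf, hf]
    calc c * α g * a * d = c * (α g * a) * d := by simp only [mul_assoc]
      _ = c * (a * α g) * d := by rw [ha g]
      _ = c * a * (α g * d) := by simp only [mul_assoc]) b
  simp only [hf] at h
  show b * ∑ i, x i * a * y i = (∑ i, x i * a * y i) * b
  rw [Finset.mul_sum, Finset.sum_mul]
  calc ∑ i, b * (x i * a * y i) = ∑ i, b * x i * a * y i := by simp only [mul_assoc]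
    _ = ∑ i, x i * a * (y i * b) := h
    _ = ∑ i, x i * a * y i * b := by simp only [mul_assoc]

end Pool.Agent.PSS.H86
end
end -- Pool.Agent.Helper86_PSS.RTC

section -- Pool.Agent.Helper84_PSS.H1V

/-! H1V: `H^1 = 0` (average over `V`). -/

set_option autoImplicit false

open scoped BigOperators TensorProduct

noncomputable section

namespace Pool.Agent.PSS.H84

/-- the crossed homomorphism of a derivation -/
def gg {R V A : Type} [CommRing R] [CommGroup V] [Ring A] [Algebra R A] (α : V →* A)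
    (D : A →ₗ[R] A) (v : V) : A := D (α v) * α v⁻¹

section

variable {R V A : Type} [CommRing R] [CommGroup V] [Ring A] [Algebra R A] (α : V →* A)
  (D : A →ₗ[R] A)

theorem al_inv (v : V) : α v * α v⁻¹ = 1 := by
  rw [← map_mul, mul_inv_cancel, map_one]

theorem al_inv' (v : V) : α v⁻¹ * α v = 1 := by
  rw [← map_mul, inv_mul_cancel, map_one]

theorem gg_mul (hD : ∀ a b, D (a * b) = D a * b + a * D b) (v w : V) :
    α v * gg α D w * α v⁻¹ = gg α D (v * w) - gg α D v := by
  unfold gg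
  rw [map_mul α v w, hD, mul_inv_rev, map_mul, add_mul]
  have h1 : D (α v) * α w * (α w⁻¹ * α v⁻¹) = D (α v) * α v⁻¹ := by
    rw [mul_assoc (D (α v)), ← mul_assoc (α w), al_inv, one_mul]
  rw [h1, add_sub_cancel_left]
  simp only [mul_assoc]

end

theorem h1v (csu : CsuStmt) (fxl : FxlStmt) : H1vStmt := by
  intro R K V E A B κ Ω _ _ _ _ _ _ _ _ _ _ _ _ _ _ _ φ W z α lam x y b c C u _ hu D hD hW
  obtain ⟨-, hc1, hc2⟩ := csu R V A κ α lam x y u C.rf hu
  -- the average in `B`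
  have hn : ((Fintype.card V : ℕ) : K) ≠ 0 := by
    have : Fintype.card V ≠ 0 := Fintype.card_ne_zero
    exact_mod_cast this
  set s : B := -((Fintype.card V : K)⁻¹ • ∑ v, C.i (gg α D v)) with hs
  have hconj : ∀ v : V, C.i (α v) * s * C.i (α v⁻¹) = s + C.i (gg α D v) := by
    intro v
    have h1 : C.i (α v) * (∑ w, C.i (gg α D w)) * C.i (α v⁻¹) =
        ∑ w, C.i (gg α D w) - (Fintype.card V : K) • C.i (gg α D v) := by
      rw [Finset.mul_sum, Finset.sum_mul]
      have h2 : ∀ w : V, C.i (α v) * C.i (gg α D w) * C.i (α v⁻¹) =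
          C.i (gg α D (v * w)) - C.i (gg α D v) := by
        intro w
        rw [← map_mul, ← map_mul, gg_mul α D hD, map_sub]
      rw [Finset.sum_congr rfl fun w _ => h2 w, Finset.sum_sub_distrib]
      have h3 : ∑ w : V, C.i (gg α D (v * w)) = ∑ w, C.i (gg α D w) :=
        Fintype.sum_equiv (Equiv.mulLeft v) _ _ fun w => rfl
      rw [h3, Finset.sum_const, Finset.card_univ, Nat.cast_smul_eq_nsmul]
    rw [hs, mul_neg, neg_mul, mul_smul_comm, smul_mul_assoc, h1, smul_sub, smul_smul,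
      inv_mul_cancel₀ hn, one_smul]
    abel
  let X : Subgroup (V × V) := ((MonoidHom.id V).prod (MonoidHom.id V)).range
  obtain ⟨t, ht1, ht2⟩ := fxl R K V A B κ Ω α lam x y b c C X s (by
    rintro _ ⟨v, rfl⟩
    refine ⟨gg α D v, ?_⟩
    have h1 : bw K (ia C.i α) (((MonoidHom.id V).prod (MonoidHom.id V)) v) s =
        C.i (α v) * (s * C.i (α v⁻¹)) := rfl
    rw [h1, ← mul_assoc, hconj, add_sub_cancel_left])
  have ht3 : ∀ v : V, C.i (α v) * t * C.i (α v⁻¹) = t := by
    intro v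
    have h1 : bw K (ia C.i α) (((MonoidHom.id V).prod (MonoidHom.id V)) v) t =
        C.i (α v) * (t * C.i (α v⁻¹)) := rfl
    have h2 := ht1 _ ⟨v, rfl⟩
    rw [h1, ← mul_assoc] at h2
    exact h2
  obtain ⟨e0, he0⟩ := ht2
  -- `e₁ = - e0`
  have hgg : ∀ v : V, α v * (-e0) * α v⁻¹ = -e0 + gg α D v := by
    intro v
    apply C.inj
    rw [map_mul, map_mul, map_add, map_neg, he0]
    have h1 : C.i (α v) * -(t - s) * C.i (α v⁻¹) =
        C.i (α v) * s * C.i (α v⁻¹) - C.i (α v) * t * C.i (α v⁻¹) := by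
      rw [neg_sub, mul_sub, sub_mul]
    rw [h1, hconj, ht3]
    abel
  have hDv : ∀ v : V, D (α v) = α v * (-e0) - (-e0) * α v := by
    intro v
    have h1 := congrArg (fun a => a * α v) (hgg v)
    simp only [add_mul] at h1
    have h2 : gg α D v * α v = D (α v) := by
      unfold gg
      rw [mul_assoc, al_inv', mul_one]
    rw [h2, mul_assoc, al_inv', mul_one] at h1
    rw [h1]
    abel
  -- the rest of the derivation
  let D₁ : A →ₗ[R] A := D - (LinearMap.mulRight R (-e0) - LinearMap.mulLeft R (-e0))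
  have hD1 : ∀ a, D₁ a = D a - (a * (-e0) - (-e0) * a) := fun a => rfl
  have hD1m : ∀ a b, D₁ (a * b) = D₁ a * b + a * D₁ b := by
    intro a b
    rw [hD1, hD1, hD1, hD]
    simp only [sub_mul, mul_sub, mul_assoc]
    abel
  have hD1v : ∀ v, D₁ (α v) = 0 := by
    intro v
    rw [hD1, hDv, sub_self]
  have h2 := hc2 A ((LinearMap.mul R A).compl₂ D₁) (by
    intro a g b
    simp only [LinearMap.compl₂_apply, LinearMap.mul_apply']
    rw [hD1m, hD1v, zero_mul, zero_add, mul_assoc])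
  simp only [LinearMap.compl₂_apply, LinearMap.mul_apply'] at h2
  have h3 : ∀ a, a * (∑ i, x i * D₁ (y i * u)) - (∑ i, x i * D₁ (y i * u)) * a = D₁ a := by
    intro a
    have h4 := h2 a
    have h5 : ∑ i, a * x i * D₁ (y i * u) = a * ∑ i, x i * D₁ (y i * u) := by
      rw [Finset.mul_sum]
      exact Finset.sum_congr rfl fun i _ => mul_assoc _ _ _
    have h6 : ∑ i, x i * D₁ (y i * u * a) =
        (∑ i, x i * D₁ (y i * u)) * a + (∑ i, x i * (y i * u)) * D₁ a := by
      rw [Finset.sum_mul, Finset.sum_mul, ← Finset.sum_add_distrib]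
      refine Finset.sum_congr rfl fun i _ => ?_
      rw [hD1m]
      simp only [mul_add, mul_assoc]
    rw [h5, h6, hc1, one_mul] at h4
    rw [h4, add_sub_cancel_left]
  generalize (∑ i, x i * D₁ (y i * u)) = e2 at h3
  have hall : ∀ a, D a = a * (-e0 + e2) - (-e0 + e2) * a := by
    intro a
    have h7 := h3 a
    rw [hD1] at h7
    rw [mul_add, add_mul]
    have h8 : D a = (a * e2 - e2 * a) + (a * (-e0) - (-e0) * a) := by
      rw [h7]
      abel
    rw [h8]
    abel
  refine ⟨-e0 + e2, fun w hw => ?_, hall⟩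
  have h9 := hall (α w)
  rw [hW w hw] at h9
  exact (sub_eq_zero.1 h9.symm).symm

end Pool.Agent.PSS.H84
end
end -- Pool.Agent.Helper84_PSS.H1V

section -- Pool.Agent.Helper87_PSS.H1W

/-! Row H1W of block OB (helper87): an edit of the file of helper84 (the average over `V`). -/

set_option autoImplicit false

open scoped BigOperators TensorProduct

noncomputable section

namespace Pool.Agent.PSS.H87

open Pool.Agent.PSS.H84 (gg al_inv al_inv' gg_mul)

theorem h1w (csu : CsuStmt) (fxl : FxlStmt) : H1wStmt := by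
  intro R K V A B κ Ω _ _ _ _ _ _ _ _ _ _ _ _ _ _ W α lam x y b c C u hu D hD hW
  obtain ⟨-, hc1, hc2⟩ := csu R V A κ α lam x y u C.rf hu
  -- the average in `B`
  have hn : ((Fintype.card V : ℕ) : K) ≠ 0 := by
    have : Fintype.card V ≠ 0 := Fintype.card_ne_zero
    exact_mod_cast this
  set s : B := -((Fintype.card V : K)⁻¹ • ∑ v, C.i (gg α D v)) with hs
  have hconj : ∀ v : V, C.i (α v) * s * C.i (α v⁻¹) = s + C.i (gg α D v) := by
    intro v
    have h1 : C.i (α v) * (∑ w, C.i (gg α D w)) * C.i (α v⁻¹) =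
        ∑ w, C.i (gg α D w) - (Fintype.card V : K) • C.i (gg α D v) := by
      rw [Finset.mul_sum, Finset.sum_mul]
      have h2 : ∀ w : V, C.i (α v) * C.i (gg α D w) * C.i (α v⁻¹) =
          C.i (gg α D (v * w)) - C.i (gg α D v) := by
        intro w
        rw [← map_mul, ← map_mul, gg_mul α D hD, map_sub]
      rw [Finset.sum_congr rfl fun w _ => h2 w, Finset.sum_sub_distrib]
      have h3 : ∑ w : V, C.i (gg α D (v * w)) = ∑ w, C.i (gg α D w) :=
        Fintype.sum_equiv (Equiv.mulLeft v) _ _ fun w => rfl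
      rw [h3, Finset.sum_const, Finset.card_univ, Nat.cast_smul_eq_nsmul]
    rw [hs, mul_neg, neg_mul, mul_smul_comm, smul_mul_assoc, h1, smul_sub, smul_smul,
      inv_mul_cancel₀ hn, one_smul]
    abel
  let X : Subgroup (V × V) := ((MonoidHom.id V).prod (MonoidHom.id V)).range
  obtain ⟨t, ht1, ht2⟩ := fxl R K V A B κ Ω α lam x y b c C X s (by
    rintro _ ⟨v, rfl⟩
    refine ⟨gg α D v, ?_⟩
    have h1 : bw K (ia C.i α) (((MonoidHom.id V).prod (MonoidHom.id V)) v) s =
        C.i (α v) * (s * C.i (α v⁻¹)) := rfl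
    rw [h1, ← mul_assoc, hconj, add_sub_cancel_left])
  have ht3 : ∀ v : V, C.i (α v) * t * C.i (α v⁻¹) = t := by
    intro v
    have h1 : bw K (ia C.i α) (((MonoidHom.id V).prod (MonoidHom.id V)) v) t =
        C.i (α v) * (t * C.i (α v⁻¹)) := rfl
    have h2 := ht1 _ ⟨v, rfl⟩
    rw [h1, ← mul_assoc] at h2
    exact h2
  obtain ⟨e0, he0⟩ := ht2
  -- `e₁ = - e0`
  have hgg : ∀ v : V, α v * (-e0) * α v⁻¹ = -e0 + gg α D v := by
    intro v
    apply C.inj
    rw [map_mul, map_mul, map_add, map_neg, he0]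
    have h1 : C.i (α v) * -(t - s) * C.i (α v⁻¹) =
        C.i (α v) * s * C.i (α v⁻¹) - C.i (α v) * t * C.i (α v⁻¹) := by
      rw [neg_sub, mul_sub, sub_mul]
    rw [h1, hconj, ht3]
    abel
  have hDv : ∀ v : V, D (α v) = α v * (-e0) - (-e0) * α v := by
    intro v
    have h1 := congrArg (fun a => a * α v) (hgg v)
    simp only [add_mul] at h1
    have h2 : gg α D v * α v = D (α v) := by
      unfold gg
      rw [mul_assoc, al_inv', mul_one]
    rw [h2, mul_assoc, al_inv', mul_one] at h1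
    rw [h1]
    abel
  -- the rest of the derivation
  let D₁ : A →ₗ[R] A := D - (LinearMap.mulRight R (-e0) - LinearMap.mulLeft R (-e0))
  have hD1 : ∀ a, D₁ a = D a - (a * (-e0) - (-e0) * a) := fun a => rfl
  have hD1m : ∀ a b, D₁ (a * b) = D₁ a * b + a * D₁ b := by
    intro a b
    rw [hD1, hD1, hD1, hD]
    simp only [sub_mul, mul_sub, mul_assoc]
    abel
  have hD1v : ∀ v, D₁ (α v) = 0 := by
    intro v
    rw [hD1, hDv, sub_self]
  have h2 := hc2 A ((LinearMap.mul R A).compl₂ D₁) (by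
    intro a g b
    simp only [LinearMap.compl₂_apply, LinearMap.mul_apply']
    rw [hD1m, hD1v, zero_mul, zero_add, mul_assoc])
  simp only [LinearMap.compl₂_apply, LinearMap.mul_apply'] at h2
  have h3 : ∀ a, a * (∑ i, x i * D₁ (y i * u)) - (∑ i, x i * D₁ (y i * u)) * a = D₁ a := by
    intro a
    have h4 := h2 a
    have h5 : ∑ i, a * x i * D₁ (y i * u) = a * ∑ i, x i * D₁ (y i * u) := by
      rw [Finset.mul_sum]
      exact Finset.sum_congr rfl fun i _ => mul_assoc _ _ _
    have h6 : ∑ i, x i * D₁ (y i * u * a) =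
        (∑ i, x i * D₁ (y i * u)) * a + (∑ i, x i * (y i * u)) * D₁ a := by
      rw [Finset.sum_mul, Finset.sum_mul, ← Finset.sum_add_distrib]
      refine Finset.sum_congr rfl fun i _ => ?_
      rw [hD1m]
      simp only [mul_add, mul_assoc]
    rw [h5, h6, hc1, one_mul] at h4
    rw [h4, add_sub_cancel_left]
  generalize (∑ i, x i * D₁ (y i * u)) = e2 at h3
  have hall : ∀ a, D a = a * (-e0 + e2) - (-e0 + e2) * a := by
    intro a
    have h7 := h3 a
    rw [hD1] at h7
    rw [mul_add, add_mul]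
    have h8 : D a = (a * e2 - e2 * a) + (a * (-e0) - (-e0) * a) := by
      rw [h7]
      abel
    rw [h8]
    abel
  refine ⟨-e0 + e2, fun w hw => ?_, hall⟩
  have h9 := hall (α w)
  rw [hW w hw] at h9
  exact (sub_eq_zero.1 h9.symm).symm

end Pool.Agent.PSS.H87
end
end -- Pool.Agent.Helper87_PSS.H1W

section -- Pool.Agent.Helper92_PSS.RED

/-!
# Squad PSS, row RED: reduction of the form and of the dual families
-/

set_option autoImplicit false

open scoped BigOperators TensorProduct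

noncomputable section

namespace Pool.Agent.PSS.H92

open Pool.Agent.PFD.D2 (Cdv FibG)
open Finset
open Dm (cst)

/-- a linear form modulo `π` -/
theorem red_form {R F A A₀ : Type} [CommRing R] [Field F] [Ring A] [Algebra R A] [Ring A₀]
    [Algebra F A₀] (cv : Cdv R F) (f : FibG A A₀ cv) (t : A →ₗ[R] R) :
    ∃ t₀ : A₀ →ₗ[F] F, ∀ a, t₀ (f.q a) = cv.κ (t a) := by
  have hπ : cv.κ cv.π = 0 := (cv.ker cv.π).mpr ⟨1, (mul_one _).symm⟩
  have hsm : ∀ (r : R) (a : A), f.q (r • a) = cv.κ r • f.q a := by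
    intro r a
    rw [Algebra.smul_def, map_mul, f.sc, Algebra.smul_def]
  have hw : ∀ a a' : A, f.q a = f.q a' → cv.κ (t a) = cv.κ (t a') := by
    intro a a' h
    have h1 : f.q (a - a') = 0 := by rw [map_sub, h, sub_self]
    obtain ⟨d, hd⟩ := f.ker _ h1
    have h2 : a = a' + cv.π • d := by rw [← hd, add_sub_cancel]
    rw [h2, map_add, map_smul, smul_eq_mul, map_add, map_mul, hπ, zero_mul, add_zero]
  choose s hs using f.surj
  refine ⟨{ toFun := fun a => cv.κ (t (s a)), map_add' := ?_, map_smul' := ?_ }, ?_⟩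
  · intro a b
    rw [← map_add, ← map_add]
    refine hw _ _ ?_
    rw [map_add, hs, hs, hs]
  · intro c a
    obtain ⟨r, rfl⟩ := cv.surj c
    rw [RingHom.id_apply, smul_eq_mul, ← map_mul, ← smul_eq_mul, ← map_smul]
    refine hw _ _ ?_
    rw [hsm, hs, hs]
  · intro a
    exact hw _ _ (hs _)

theorem red (fn : FunStmt) (rmp : RmpStmt) : RedStmt := by
  intro R F V A A₀ κ' _ _ _ _ _ _ _ _ W _ α cv f α₀ D D₀ Λ x' y' hα hm hrf
  obtain ⟨ψ, hψ, hψs, hψw, hψsur, -⟩ := rmp R F W A A₀ (aw α W) (aw α₀ W) D D₀ f.q cv.κ f.sc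
    (fun w => hα w) hm
  have hsur : Function.Surjective ψ := hψsur f.surj
  obtain ⟨t, ht⟩ := (fn R W A (aw α W) D).2 Λ
  choose t₀ ht₀ using fun n => red_form cv f (t n)
  obtain ⟨Λ₀, hΛ₀⟩ := (fn F W A₀ (aw α₀ W) D₀).1 t₀
  have hΛ : ∀ a, Λ₀ (ψ a) = PowerSeries.map cv.κ (Λ a) := by
    intro a
    ext n
    rw [PowerSeries.coeff_map, ← D.of_sq a, hψ, hΛ₀, ht, map_sum]
    exact Finset.sum_congr rfl fun p _ => ht₀ _ _
  refine ⟨ψ, Λ₀, hψ, hψw, hsur, hΛ, ?_, ?_, ?_⟩
  · intro a₀ b₀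
    obtain ⟨a, rfl⟩ := hsur a₀
    obtain ⟨b, rfl⟩ := hsur b₀
    rw [← map_mul, ← map_mul, hΛ, hΛ, hrf.sym]
  · intro a₀
    obtain ⟨a, rfl⟩ := hsur a₀
    conv_rhs => rw [← hrf.e1 a]
    rw [map_sum]
    refine Finset.sum_congr rfl fun k _ => ?_
    rw [map_sum]
    refine Finset.sum_congr rfl fun v _ => ?_
    rw [hψs, map_mul ψ (x' k), hψw, ← hΛ, map_mul ψ, map_mul ψ, hψw]
  · intro a₀
    obtain ⟨a, rfl⟩ := hsur a₀
    conv_rhs => rw [← hrf.e2 a]
    rw [map_sum]
    refine Finset.sum_congr rfl fun k _ => ?_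
    rw [map_sum]
    refine Finset.sum_congr rfl fun v _ => ?_
    rw [hψs, map_mul ψ _ (y' k), hψw, ← hΛ, map_mul ψ, map_mul ψ, hψw]

end Pool.Agent.PSS.H92
end
end -- Pool.Agent.Helper92_PSS.RED

section -- Pool.Agent.Helper95_PSS.CFR

/-!
# PSS.CFR (helper95): the constant frame of the ring of a deformation
-/

open scoped BigOperators TensorProduct

noncomputable section

namespace Pool.Agent.PSS.H95

open Pool.Agent.PFD.D2b (FrR)
open Finset
open Dm (cst)

/-- product of a sequence with a group element on the right -/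
theorem cfr_mul_cst_right {k W A : Type} [CommRing k] [Group W] [Ring A] [Algebra k A]
    {om : W →* A} (D : Dm k om) (w : W) (f : ℕ → A) :
    D.mul f (cst (om w)) = fun n => f n * om w := by
  funext n
  rw [Dm.mul, Finset.sum_eq_single (0, n)]
  · rw [Finset.sum_eq_single (n, 0)]
    · simp only [cst, if_true, D.m0]
    · rintro ⟨a, b⟩ h hne
      rcases b with _ | b
      · rw [Finset.HasAntidiagonal.mem_antidiagonal] at h
        simp only [add_zero] at h
        exact absurd (by rw [h]) hne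
      · simp [cst]
    · intro h
      exact absurd (by rw [Finset.HasAntidiagonal.mem_antidiagonal]; simp) h
  · rintro ⟨a, b⟩ h hne
    rcases a with _ | a
    · rw [Finset.HasAntidiagonal.mem_antidiagonal] at h
      simp only [zero_add] at h
      exact absurd (by rw [h]) hne
    · refine Finset.sum_eq_zero fun q _ => ?_
      rw [cst]
      split_ifs
      · exact D.m_om_right a w _
      · rw [map_zero]
  · intro h
    exact absurd (by rw [Finset.HasAntidiagonal.mem_antidiagonal]; simp) h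

theorem cfr_of_mul_w {k W A : Type} [CommRing k] [Group W] [Ring A] [Algebra k A]
    {om : W →* A} (D : Dm k om) (w : W) (f : ℕ → A) :
    D.of f * D.w w = D.of (fun n => f n * om w) := by
  show D.of f * D.of (cst (om w)) = _
  rw [← D.of_mul, cfr_mul_cst_right]

theorem cfr_bw {k W A : Type} [CommRing k] [CommGroup W] [Ring A] [Algebra k A]
    {om : W →* A} (D : Dm k om) (g : W × W) (f : ℕ → A) :
    bw (PowerSeries k) D.w g (D.of f) = D.of (fun n => bw k om g (f n)) := by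
  show D.w g.1 * (D.of f * D.w g.2⁻¹) = _
  rw [cfr_of_mul_w, D.w_mul_of]
  rfl

theorem cfr_smulq_cst {k A : Type} [CommRing k] [Ring A] [Algebra k A]
    (r : PowerSeries k) (a : A) (n : ℕ) :
    Dm.smulq r (cst a) n = PowerSeries.coeff n r • a := by
  rw [Dm.smulq, Finset.sum_eq_single (n, 0)]
  · simp [cst]
  · rintro ⟨x, y⟩ h hne
    rcases y with _ | y
    · rw [Finset.HasAntidiagonal.mem_antidiagonal] at h
      simp only [add_zero] at h
      exact absurd (by rw [h]) hne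
    · simp [cst]
  · intro h
    exact absurd (by rw [Finset.HasAntidiagonal.mem_antidiagonal]; simp) h

theorem cfr_cst_fun {A B : Type} [Ring A] [Ring B] (φ : A → B) (h : φ 0 = 0) (a : A) :
    (fun n => φ (cst a n)) = cst (φ a) := by
  funext n
  rw [cst, cst]
  split_ifs
  · rfl
  · exact h

theorem cfr (hFun : FunStmt) : CfrStmt := by
  intro k W A Ω _ _ _ _ _ _ om D b c hF
  obtain ⟨hb, hc, hs⟩ := hF
  have hex : ∀ ω : Ω, ∃ Λ : D.R →ₗ[PowerSeries k] PowerSeries k,
      ∀ f n, PowerSeries.coeff n (Λ (D.of f)) = c ω (f n) := by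
    intro ω
    obtain ⟨Λ, hΛ⟩ := (hFun k W A om D).1 (fun n => if n = 0 then c ω else 0)
    refine ⟨Λ, fun f n => ?_⟩
    rw [hΛ, Finset.sum_eq_single (0, n)]
    · rw [if_pos rfl]
    · rintro ⟨x, y⟩ h hne
      rcases x with _ | x
      · rw [Finset.HasAntidiagonal.mem_antidiagonal] at h
        simp only [zero_add] at h
        exact absurd (by rw [h]) hne
      · rw [if_neg (Nat.succ_ne_zero x), LinearMap.zero_apply]
    · intro h
      exact absurd (by rw [Finset.HasAntidiagonal.mem_antidiagonal]; simp) h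
  choose cs hcs using hex
  refine ⟨cs, ⟨?_, ?_, ?_⟩, hcs⟩
  · intro g t
    show D.of (cst (b (g • t))) = bw (PowerSeries k) D.w g (D.of (cst (b t)))
    rw [cfr_bw, cfr_cst_fun (fun a => bw k om g a) (map_zero _) (b t), hb]
  · intro g t x
    rw [← D.of_sq x, cfr_bw]
    refine PowerSeries.ext fun n => ?_
    rw [hcs, hcs, hc]
  · intro x
    have h1 : ∀ t : Ω, cs t x • D.of (cst (b t)) =
        (AddMonoidHom.mk' D.of D.of_add) (fun n => c t (D.sq x n) • b t) := by
      intro t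
      show _ = D.of (fun n => c t (D.sq x n) • b t)
      rw [← D.of_smul]
      congr 1
      funext n
      rw [cfr_smulq_cst]
      conv_lhs => rw [← D.of_sq x]
      rw [hcs]
    have h2 : ∑ t, cs t x • D.of (cst (b t)) =
        ∑ t, (AddMonoidHom.mk' D.of D.of_add) (fun n => c t (D.sq x n) • b t) :=
      Finset.sum_congr rfl fun t _ => h1 t
    show ∑ t, cs t x • D.of (cst (b t)) = x
    rw [h2, ← map_sum]
    show D.of _ = x
    conv_rhs => rw [← D.of_sq x]
    congr 1
    funext n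
    rw [Finset.sum_apply]
    exact hs (D.sq x n)

end Pool.Agent.PSS.H95
end
end -- Pool.Agent.Helper95_PSS.CFR

section -- Pool.Agent.Helper95_PSS.CSU

/-!
# PSS.CSU (helper95): if `rt x y 1` is a unit, there are Casimir families with `∑ u_i v_i = 1`
-/

open scoped BigOperators TensorProduct

noncomputable section

namespace Pool.Agent.PSS.H95

open Pool.Agent.PSS
open Finset

theorem csu (hCsr : CsrStmt) (hRtc : RtcStmt) : CsuStmt := by
  intro k V A K _ _ _ _ _ _ α lam x y u hRF hu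
  have hz : ∀ b, b * rt x y 1 = rt x y 1 * b :=
    (hRtc k V A K K α lam x y hRF).1 1 (fun v => by rw [mul_one, one_mul])
  have huc : ∀ b, u * b = b * u := by
    intro b
    have hzu : rt x y 1 * u = 1 := by rw [← hz u, hu]
    calc u * b = u * b * (rt x y 1 * u) := by rw [hzu, mul_one]
      _ = u * (b * rt x y 1) * u := by simp only [mul_assoc]
      _ = u * (rt x y 1 * b) * u := by rw [hz b]
      _ = (u * rt x y 1) * b * u := by simp only [mul_assoc]
      _ = b * u := by rw [hu, one_mul]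
  refine ⟨huc, ?_, ?_⟩
  · have h1 : ∑ i, x i * (y i * u) = rt x y 1 * u := by
      rw [rt, Finset.sum_mul]
      refine Finset.sum_congr rfl fun i _ => ?_
      rw [mul_one, mul_assoc]
    rw [h1, ← hz u, hu]
  · intro X _ _ f hf a
    have h2 := hCsr k V A K X α lam x y hRF (f.compl₂ (LinearMap.mulRight k u)) (by
      intro a g b
      rw [LinearMap.compl₂_apply, LinearMap.compl₂_apply, LinearMap.mulRight_apply,
        LinearMap.mulRight_apply, hf, mul_assoc]) a
    simp only [LinearMap.compl₂_apply, LinearMap.mulRight_apply] at h2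
    rw [h2]
    refine Finset.sum_congr rfl fun i _ => ?_
    rw [mul_assoc, mul_assoc, ← huc a]

end Pool.Agent.PSS.H95
end
end -- Pool.Agent.Helper95_PSS.CSU

section -- Pool.Agent.Helper30_PST.OLU

/-! PST, block U, row OLU (311), in the form of `Olf` (helper30, from the file of helper28): the properties of
a deformation which has a lift to a complete discrete valuation ring of characteristic `0`. -/

set_option autoImplicit false

open scoped BigOperators TensorProduct PowerSeries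

noncomputable section

namespace Pool.Agent.PST.U.H30L

open Pool.Agent.PFC (tw IsTv)
open Pool.Agent.PFD.D2 (Cdv FibG wittCdv wittCdv_π witt_charZero)
open Pool.Agent.PFD.D2b (FrR)
open Pool.Agent.PSS
open Pool.Agent.PSS.Dm (cst)

theorem csr' : CsrStmt := Pool.Agent.PSS.H20.csr
theorem rtc' : RtcStmt := Pool.Agent.PSS.H86.rtc csr'
theorem csu' : CsuStmt := Pool.Agent.PSS.H95.csu csr' rtc'
theorem rfe' : RfeStmt := Pool.Agent.PSS.H84.rfe
theorem unj' : UnjStmt := Pool.Agent.PSS.H39.unj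
theorem rfm' : RfmStmt := Pool.Agent.PSS.H52.rfm rfe' unj'
theorem fxl' : FxlStmt := Pool.Agent.PSS.H63.fxl
theorem fun' : FunStmt := Pool.Agent.PSS.H63.funs
theorem fre' : FreStmt := Pool.Agent.PSS.H29.fre
theorem spf' : SpfStmt := Pool.Agent.PSS.H75.spf
theorem rmp' : RmpStmt := Pool.Agent.PSS.H75.rmp
theorem fmx' : FmxStmt := Pool.Agent.PSS.H92.fmx fun' rfe'
theorem fsr' : FsrStmt := Pool.Agent.PSS.H32.fsr rfm' spf' fre'
theorem red' : RedStmt := Pool.Agent.PSS.H92.red fun' rmp'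
theorem cfr' : CfrStmt := Pool.Agent.PSS.H95.cfr fun'
theorem uzl' : UzlStmt := Pool.Agent.PSS.H19.uzl csu' unj'
theorem h1w' : H1wStmt := Pool.Agent.PSS.H87.h1w csu' fxl'

section aux

variable {R F V A A₀ κ Ω : Type} [CommRing R] [Field F] {cv : Cdv R F} [CommGroup V]
  [Fintype V] [Ring A₀] [Algebra F A₀] [Ring A] [Algebra R A] [Fintype κ] [Fintype Ω]
  [MulAction (V × V) Ω] {α₀ : V →* A₀} {lam₀ : A₀ →ₗ[F] F} {x₀ y₀ : κ → A₀} {b₀ : Ω → A₀}
  {c₀ : Ω → (A₀ →ₗ[F] F)} {f : FibG A A₀ cv} {α : V →* A} {lam : A →ₗ[R] R} {x y : κ → A}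
  {b : Ω → A} {c : Ω → (A →ₗ[R] R)}

/-- the frame of the special fibre -/
theorem fr_red (hL : LiftV cv α₀ lam₀ x₀ y₀ b₀ c₀ f α lam x y b c) : FrR (bw F α₀) b₀ c₀ := by
  have hsm : ∀ (r : R) (a : A), f.q (r • a) = cv.κ r • f.q a := by
    intro r a
    rw [Algebra.smul_def, map_mul, f.sc, ← Algebra.smul_def]
  have hqbw : ∀ (h : V × V) (a : A), f.q (bw R α h a) = bw F α₀ h (f.q a) := by
    intro h a
    show f.q (α h.1 * (a * α h.2⁻¹)) = α₀ h.1 * (f.q a * α₀ h.2⁻¹)
    rw [map_mul, map_mul, hL.qa, hL.qa]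
  refine ⟨fun g t => ?_, fun g t n => ?_, fun n => ?_⟩
  · rw [← hL.qb, hL.fr.1, hqbw, hL.qb]
  · obtain ⟨a, rfl⟩ := f.surj n
    have h := congrArg cv.κ (hL.fr.2.1 g t a)
    rw [hL.qc, hL.qc, hqbw] at h
    exact h
  · obtain ⟨a, rfl⟩ := f.surj n
    have h := congrArg f.q (hL.fr.2.2 a)
    rw [map_sum] at h
    refine Eq.trans (Finset.sum_congr rfl fun ω _ => ?_) h
    rw [hsm, hL.qb, hL.qc]

/-- the relative traces of the special fibre -/
theorem rt_red (hL : LiftV cv α₀ lam₀ x₀ y₀ b₀ c₀ f α lam x y b c) (v : V) :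
    f.q (rt x y (α v)) = rt x₀ y₀ (α₀ v) := by
  unfold rt
  rw [map_sum]
  refine Finset.sum_congr rfl fun i _ => ?_
  rw [map_mul, map_mul, hL.qa, hL.qx, hL.qy]

/-- an element with a left inverse modulo `π` has a left inverse -/
theorem lft_inv [Module.Finite R A] (s : A) (s₀ u₀ : A₀) (f : FibG A A₀ cv) (hs : f.q s = s₀)
    (hu : u₀ * s₀ = 1) : ∃ u : A, u * s = 1 := by
  have hκπ : cv.κ cv.π = 0 := (cv.ker _).2 ⟨1, by rw [mul_one]⟩
  have hunit : ∀ r, IsUnit (1 + cv.π * r) := by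
    intro r
    apply cv.loc
    rw [map_add, map_mul, hκπ, zero_mul, add_zero, map_one]
    exact one_ne_zero
  obtain ⟨u₁, hu₁⟩ := f.surj u₀
  have hq : f.q (u₁ * s - 1) = 0 := by
    rw [map_sub, map_mul, hu₁, hs, hu, map_one, sub_self]
  obtain ⟨d, hd⟩ := f.ker _ hq
  have hbij := unj' R A cv.π hunit (LinearMap.mulRight R (u₁ * s)) (by
    intro a
    refine ⟨a * d, ?_⟩
    have e1 : a * (u₁ * s) - a = a * (u₁ * s - 1) := by
      rw [mul_sub, mul_one]
    rw [LinearMap.mulRight_apply, e1, hd, mul_smul_comm])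
  obtain ⟨t, ht⟩ := hbij.2 1
  refine ⟨t * u₁, ?_⟩
  rw [LinearMap.mulRight_apply] at ht
  rw [mul_assoc, ht]

end aux

/-- reduction of a frame -/
theorem red_fr {S T G L L₀ Ω : Type} [CommRing S] [CommRing T] [CommGroup G] [Ring L]
    [Algebra S L] [Ring L₀] [Algebra T L₀] [Fintype Ω] [MulAction (G × G) Ω] (κ : S →+* T)
    (hκ : Function.Surjective κ) (om : G →* L) (om₀ : G →* L₀) (θ : L →+* L₀)
    (hθs : ∀ (r : S) a, θ (r • a) = κ r • θ a) (hθj : Function.Surjective θ)
    (hθw : ∀ w, θ (om w) = om₀ w) (b : Ω → L) (c : Ω → (L →ₗ[S] S))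
    (hfr : FrR (bw S om) b c) (hk : ∀ a, θ a = 0 → ∀ ω, κ (c ω a) = 0) :
    ∃ c₀ : Ω → (L₀ →ₗ[T] T), FrR (bw T om₀) (fun ω => θ (b ω)) c₀ := by
  have hk2 : ∀ a a' ω, θ a = θ a' → κ (c ω a) = κ (c ω a') := by
    intro a a' ω h
    have h1 := hk (a - a') (by rw [map_sub, h, sub_self]) ω
    rw [map_sub, map_sub] at h1
    exact sub_eq_zero.1 h1
  obtain ⟨s, hs⟩ := hθj.hasRightInverse
  obtain ⟨τ, hτ⟩ := hκ.hasRightInverse
  let c₀ : Ω → (L₀ →ₗ[T] T) := fun ω =>
    { toFun := fun a => κ (c ω (s a))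
      map_add' := by
        intro a a'
        rw [← map_add, ← map_add]
        exact hk2 _ _ ω (by rw [map_add, hs, hs, hs])
      map_smul' := by
        intro r a
        have h1 : κ (c ω (s (r • a))) = κ (c ω (τ r • s a)) :=
          hk2 _ _ ω (by rw [hs, hθs, hτ, hs])
        rw [h1, map_smul, smul_eq_mul, map_mul, hτ]
        rfl }
  have hc₀ : ∀ ω a, c₀ ω (θ a) = κ (c ω a) := fun ω a => hk2 _ _ ω (hs (θ a))
  have hbw : ∀ (g : G × G) (a : L), bw T om₀ g (θ a) = θ (bw S om g a) := by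
    intro g a
    show om₀ g.1 * (θ a * om₀ g.2⁻¹) = θ (om g.1 * (a * om g.2⁻¹))
    rw [map_mul, map_mul, hθw, hθw]
  refine ⟨c₀, fun g t => ?_, fun g t n => ?_, fun n => ?_⟩
  · show θ (b (g • t)) = bw T om₀ g (θ (b t))
    rw [hfr.1, hbw]
  · obtain ⟨a, rfl⟩ := hθj n
    rw [hbw, hc₀, hc₀, hfr.2.1]
  · obtain ⟨a, rfl⟩ := hθj n
    have h1 : ∑ ω, θ (c ω a • b ω) = θ a := by
      rw [← map_sum, hfr.2.2]
    refine Eq.trans (Finset.sum_congr rfl fun ω _ => ?_) h1
    rw [hc₀, hθs]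

theorem olu (nbl : NblStmt) (dvd : DvdStmt) (sps : SpsStmt) (nzd : NzdStmt) (rhr : RhrStmt)
    (cna : CnaStmt) : OluStmt := by
  intro ℓ _ R F V A₀ As A K B κ κ' Ω _ _ _ _ _ _ _ _ _ _ _ _ _ _ _ _ _ _ _ _ _ _ _ _ _ _ _ _ _ _
    W _ cv α₀ lam₀ x₀ y₀ b₀ c₀ f α lam x y b c u C D P m γ q θ Λ xs ys hπ hpV hL hu hu₀ hTr hm
    hqk hθs hθj hθk hθw hθq hRF w
  have hℓ : ℓ.Prime := Fact.out
  have hH : H1P R (aw α W) := by
    intro δ hδ hw
    obtain ⟨e, he, h2⟩ := h1w' R K V A B κ Ω W α lam x y b c C u hu δ hδ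
      (fun w hw' => hw ⟨w, hw'⟩)
    exact ⟨e, fun w => he w w.2, h2⟩
  have hfree := fre' R W A (aw α W) D
  have hfin := hfree.1
  have hfr := hfree.2
  have hℓS : ((ℓ : ℕ) : R⟦X⟧) = PowerSeries.C cv.π := by
    rw [hπ, map_natCast]
  have hsmℓ : ∀ a : D.R, ℓ • a = ((ℓ : ℕ) : R⟦X⟧) • a := fun a =>
    (Nat.cast_smul_eq_nsmul _ ℓ a).symm
  have hCinj : Function.Injective (PowerSeries.C : R →+* R⟦X⟧) :=
    PowerSeries.C_injective
  have hℓne : ((ℓ : ℕ) : R⟦X⟧) ≠ 0 := by
    rw [hℓS, hπ]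
    intro h
    have h2 := hCinj (h.trans (map_zero _).symm)
    exact hℓ.ne_zero (Nat.cast_eq_zero.1 h2)
  have hκπ : cv.κ cv.π = 0 := (cv.ker _).2 ⟨1, by rw [mul_one]⟩
  -- (2) left inverses
  have huw : ∀ w : W, ∃ u' : A, u' * rt x y (α w) = 1 := by
    intro w
    obtain ⟨u₀, hu₀w⟩ := hu₀ w
    exact lft_inv (cv := cv) (rt x y (α w)) (rt x₀ y₀ (α₀ w)) u₀ f (rt_red hL w) hu₀w
  -- (3) the lift
  obtain ⟨u₁, hu₁⟩ := hu₀ 1
  rw [Subgroup.coe_one, map_one] at hu₁
  have hcen := (uzl' R F V A₀ A κ Ω cv α₀ lam₀ x₀ y₀ b₀ c₀ f α lam x y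
    b c u₁ hL hu₁).2.2
  let actW : MulAction (W × W) Ω :=
    MulAction.compHom Ω ((Subgroup.subtype W).prodMap (Subgroup.subtype W))
  have hfrW : FrR (bw R (aw α W)) b c :=
    ⟨fun g t => hL.fr.1 ((g.1 : V), (g.2 : V)) t, fun g t n => hL.fr.2.1 ((g.1 : V), (g.2 : V)) t n,
      hL.fr.2.2⟩
  obtain ⟨cs, hcs, -⟩ := cfr' R W A Ω (aw α W) D b c hfrW
  obtain ⟨cs₀, hcs₀⟩ := red_fr (PowerSeries.map cv.κ) (PowerSeries.map_surjective _ cv.surj) D.w γ
    θ hθs hθj hθw _ cs hcs (by
      intro a ha ω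
      obtain ⟨a', rfl⟩ := hθk a ha
      rw [map_smul, smul_eq_mul, map_mul, PowerSeries.map_C, hκπ, map_zero, zero_mul])
  have hOL : OL ℓ (PowerSeries.map cv.κ) γ D.w θ Λ xs ys := by
    refine ⟨PowerSeries.map_surjective _ cv.surj, ?_, hθs, hθw, ?_, ?_, hRF, ?_, ?_⟩
    · intro d hd
      obtain ⟨m, d', h1, h2⟩ := sps R F cv d hd
      refine ⟨m, d', ?_, h2⟩
      rw [hℓS]
      exact h1
    · intro a ha
      obtain ⟨a', ha'⟩ := hθk a ha
      refine ⟨a', ?_⟩
      rw [hsmℓ, hℓS]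
      exact ha'
    · intro a ha
      rw [hsmℓ] at ha
      exact smul_right_injective D.R hℓne (ha.trans (smul_zero _).symm)
    · exact cna R F V A A₀ As W α cv f D θ q hθs hθj hθq hqk hH hcen
    · exact ⟨Ω, inferInstance, actW, fun ω => D.of (cst (b ω)), cs, cs₀, hcs, hcs₀⟩
  have hF0 : ((ℓ : ℕ) : F⟦X⟧) = 0 := by
    have h : ((ℓ : ℕ) : F⟦X⟧) = PowerSeries.C ((ℓ : ℕ) : F) := (map_natCast _ _).symm
    rw [h, CharP.cast_eq_zero, map_zero]
  refine ⟨?_, ?_⟩
  · -- (4)
    obtain ⟨u', hu'⟩ := huw w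
    have hreg := nzd R K V A B κ κ' Ω W α lam x y b c C D P m Λ xs ys w u'
      hTr hm hRF hu'
    obtain ⟨r', d, hd0, hr'⟩ := dvd R⟦X⟧ D.R (rt xs ys (D.w w)) hreg
    exact nbl ℓ R⟦X⟧ F⟦X⟧ W As D.R κ' (PowerSeries.map cv.κ)
      γ D.w θ Λ xs ys w r' d hF0 (hpV.to_subgroup W) hOL hd0 hr'
  · -- (5)
    obtain ⟨u', hu'⟩ := huw w
    obtain ⟨d, a, ha0, hsum⟩ := rhr R K V A B κ κ' Ω W α lam x y b c C D P m Λ
      xs ys w u u' hTr hm hRF hu hu'
    refine ⟨d, fun i => cv.κ (a i), (ha0.map cv.κ).ne_zero, ?_⟩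
    have h := congrArg θ hsum
    rw [map_sum, map_zero] at h
    refine Eq.trans (Finset.sum_congr rfl fun i _ => ?_) h
    rw [hθs, PowerSeries.map_C, map_mul, map_pow, map_pow]
    have e1 : θ (rt xs ys (D.w w)) = ∑ k, θ (xs k) * γ w * θ (ys k) := by
      unfold rt
      rw [map_sum]
      refine Finset.sum_congr rfl fun k _ => ?_
      rw [map_mul, map_mul, hθw]
    have e2 : θ (rt xs ys 1) = ∑ k, θ (xs k) * θ (ys k) := by
      unfold rt
      rw [map_sum]
      refine Finset.sum_congr rfl fun k _ => ?_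
      rw [mul_one, map_mul]
    rw [e1, e2]

end Pool.Agent.PST.U.H30L
end
end -- Pool.Agent.Helper30_PST.OLU
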