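import Pool.Agent.Helper12_AWB.B025
import Pool.Agent.Helper12_AWB.B027
import Pool.Agent.Helper12_AWB.B033

/-!
# Merged copies (generated) of the modules

* `Pool.Agent.Helper13_PSS.IDN`
* `Pool.Agent.Helper22_PSS.GFC`
* `Pool.Agent.Helper28_PSS.VAN`
* `Pool.Agent.Helper5_PSS.DIV`
* `Pool.Agent.Helper63_PSS.RDX`
* `Pool.Agent.Helper63_PSS.UNX`
* `Pool.Agent.Helper91_PSS.GFQ`
* `Pool.Agent.Helper92_PSS.BLS`
* `Pool.Agent.Helper30_PSS.S3All`
-/

set_option autoImplicit false

section -- Pool.Agent.Helper13_PSS.IDN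

/-!
# PSS, row IDN: a central element in a Brauer kernel is nilpotent
-/

open scoped BigOperators PowerSeries

noncomputable section

namespace Pool.Agent.PSS.S3.H13

open Pool.Agent.PSS Pool.Agent.PSS.S3

/-- Fitting's lemma for a central element -/
theorem fitting {F A : Type} [Field F] [Ring A] [Algebra F A] [FiniteDimensional F A] {z : A}
    (hz : ∀ a, z * a = a * z) :
    ∃ (n : ℕ) (c : A), (∀ a, c * a = a * c) ∧ z ^ (n + 1) = z ^ (n + 2) * c := by
  have hzc : z ∈ Subalgebra.center F A := by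
    rw [Subalgebra.mem_center_iff]
    intro b
    exact (hz b).symm
  have : FiniteDimensional F (Subalgebra.center F A) := inferInstance
  have hart : IsArtinianRing (Subalgebra.center F A) := isArtinian_of_tower F inferInstance
  obtain ⟨n, y, hy⟩ := IsArtinian.exists_pow_succ_smul_dvd
    (⟨z, hzc⟩ : Subalgebra.center F A) (1 : Subalgebra.center F A)
  have hy2 : z ^ (n + 1) * (y : A) = z ^ n := by
    have := congrArg (Subtype.val) hy
    simpa using this
  refine ⟨n, y, ?_, ?_⟩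
  · intro a
    exact ((Subalgebra.mem_center_iff.mp y.2) a).symm
  · have e1 : z ^ (n + 2) * (y : A) = z * (z ^ (n + 1) * (y : A)) := by
      rw [show n + 2 = (n + 1) + 1 by ring, pow_succ' z (n + 1), mul_assoc]
    rw [e1, hy2, ← pow_succ']

theorem idn (hBki : S0.BkiStmt) (hFco : S0.FcoStmt) (hFbk : S0.FbkStmt) : IdnStmt := by
  intro ℓ _ F V E A _ _ _ _ _ _ _ φ α P z hV hcl hz hzP
  have := hcl.fin
  obtain ⟨n, c, hc, hn⟩ := fitting (F := F) hz
  have hcomm : Commute z c := hz c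
  -- `z ^ (n + 1) = z ^ (n + 1 + m) * c ^ m`
  have h1 : ∀ m : ℕ, z ^ (n + 1) = z ^ (n + 1 + m) * c ^ m := by
    intro m
    induction m with
    | zero => rw [pow_zero, mul_one, add_zero]
    | succ m ih =>
      have e1 : z ^ (n + 1 + (m + 1)) * c ^ (m + 1) =
          z ^ m * (z ^ (n + 2) * c) * c ^ m := by
        rw [show n + 1 + (m + 1) = m + (n + 2) by ring, pow_add, pow_succ' c m]
        simp only [mul_assoc]
      rw [e1, ← hn, ← pow_add, show m + (n + 1) = n + 1 + m by ring]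
      exact ih
  have h2 := h1 (n + 1)
  let e : A := z ^ (n + 1) * c ^ (n + 1)
  have hze : z ^ (n + 1) = z ^ (n + 1) * e := by
    show z ^ (n + 1) = z ^ (n + 1) * (z ^ (n + 1) * c ^ (n + 1))
    rw [← mul_assoc, ← pow_add]
    exact h2
  have hpz : ∀ (k : ℕ) (a : A), z ^ k * a = a * z ^ k := by
    intro k a
    have : Commute z a := hz a
    exact this.pow_left k
  have hpc : ∀ (k : ℕ) (a : A), c ^ k * a = a * c ^ k := by
    intro k a
    have : Commute c a := hc a
    exact this.pow_left k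
  have hee : e * e = e := by
    show z ^ (n + 1) * c ^ (n + 1) * e = z ^ (n + 1) * c ^ (n + 1)
    rw [mul_assoc, hpc (n + 1) e, ← mul_assoc, ← hze]
  have hea : ∀ a, e * a = a * e := by
    intro a
    show z ^ (n + 1) * c ^ (n + 1) * a = a * (z ^ (n + 1) * c ^ (n + 1))
    rw [mul_assoc, hpc, ← mul_assoc, hpz, mul_assoc]
  -- `e` is in the Brauer kernel of `P`
  have hfix : ∀ (a : A), (∀ b, a * b = b * a) → ∀ Q : Subgroup V, a ∈ FxR (cw F α) Q := by
    intro a ha Q h _
    show (cw F α) h a = a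
    have e1 : (cw F α) h a = α h * (a * α h⁻¹) := rfl
    rw [e1, ha, ← mul_assoc, ← map_mul, mul_inv_cancel, map_one, one_mul]
  have heP : e ∈ BKR (cw F α) P := by
    have hw : ∀ b, z ^ n * c ^ (n + 1) * b = b * (z ^ n * c ^ (n + 1)) := by
      intro a
      rw [mul_assoc, hpc, ← mul_assoc, hpz, mul_assoc]
    have h3 := (hBki F V A α P (z ^ n * c ^ (n + 1)) (hfix _ hw P) z hzP).1
    have h4 : z ^ n * c ^ (n + 1) * z = e := by
      show z ^ n * c ^ (n + 1) * z = z ^ (n + 1) * c ^ (n + 1)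
      rw [mul_assoc, hpc, ← mul_assoc, ← pow_succ]
    rw [h4] at h3
    exact h3
  -- `e` is in the Brauer kernel of `V`
  have heV : e ∈ BKR (cw F α) ⊤ := by
    obtain ⟨Ω, _, _, b, cc, hfr, _⟩ := hcl.per
    let act : MulAction V Ω :=
      MulAction.compHom Ω ((MonoidHom.id V).prod (MonoidHom.id V))
    have hfr' : Pool.Agent.PFD.D2b.FrR (cw F α) b cc := by
      refine ⟨?_, ?_, hfr.2.2⟩
      · intro g t
        exact hfr.1 (g, g) t
      · intro g t n
        exact hfr.2.1 (g, g) t n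
    have hl : ((ℓ : ℕ) : F) = 0 := CharP.cast_eq_zero F ℓ
    apply hFbk F V A Ω (cw F α) b cc hfr' ⊤ e (hfix e hea ⊤)
    intro ω hω
    exact hFco ℓ F V A Ω (cw F α) b cc hl hV hfr' P e heP ω
      (fun h _ => hω h (Subgroup.mem_top h))
  -- `e = 0`
  have he0 : e = 0 := by
    have h3 := hcl.blk ⊥ e (hfix e hea ⊤) (by rw [hee, sub_self]; exact Submodule.zero_mem _)
      (by
        intro a _
        rw [hea, sub_self]
        exact Submodule.zero_mem _) heV
    have h4 : BKR (cw F α) (⊥ : Subgroup V) = ⊥ := by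
      unfold BKR
      rw [Submodule.span_eq_bot]
      rintro x ⟨P', S, m, hlt, _⟩
      exact absurd hlt not_lt_bot
    rw [h4] at h3
    exact (Submodule.mem_bot F).mp h3
  refine ⟨n + 1, ?_⟩
  rw [hze, he0, mul_zero]

end Pool.Agent.PSS.S3.H13
end
end -- Pool.Agent.Helper13_PSS.IDN

section -- Pool.Agent.Helper22_PSS.GFC

/-!
# Squad PSS, block S3, row GFC (helper22): the generic fibre is in the class
-/

set_option autoImplicit false

open scoped BigOperators TensorProduct PowerSeries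

namespace Pool.Agent.PSS.H22

open Pool.Agent.PSS Pool.Agent.PSS.S3

theorem gfc (hblk : BlkStmt) (hgfb : GfbStmt) : GfcStmt := by
  classical
  intro ℓ _ F F' V E A As K K0 _ _ _ _ _ _ _ _ _ _ _ _ _ _ _ φ α W _ ψ γ q lam lam0 x y x0 y0
    hinj hV hE hW hd
  obtain ⟨⟨lamS, hlamS, hrf⟩, hper, huni, -⟩ :=
    hgfb F⟦X⟧ F' W E As K ψ γ lam x y hd.rf hd.per hd.uni
  refine ⟨?_, hper, huni, ⟨lamS, K, inferInstance, _, _, hrf, ?_⟩, ?_⟩
  · obtain ⟨Ω, _, _, b, c, hfr, -⟩ := hper
    refine ⟨Submodule.fg_def.2 ⟨Set.range b, Set.finite_range b, ?_⟩⟩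
    rw [eq_top_iff]
    rintro m -
    rw [← hfr.2.2 m]
    exact Submodule.sum_mem _ fun t _ => Submodule.smul_mem _ _ (Submodule.subset_span ⟨t, rfl⟩)
  · obtain ⟨u, u', huu, hu'u, hsum⟩ := hd.unt
    have hX : algebraMap F⟦X⟧ F' PowerSeries.X ≠ 0 := by
      intro h
      have h1 : algebraMap F⟦X⟧ F' PowerSeries.X = algebraMap F⟦X⟧ F' 0 := by rw [h, map_zero]
      exact PowerSeries.X_ne_zero (hinj h1)
    refine ⟨(algebraMap F⟦X⟧ F' PowerSeries.X)⁻¹ ⊗ₜ[F⟦X⟧] u', ?_⟩
    have e1 : ∑ k, (1 : F') ⊗ₜ[F⟦X⟧] x k * (1 : F') ⊗ₜ[F⟦X⟧] y k =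
        (1 : F') ⊗ₜ[F⟦X⟧] ∑ k, x k * y k := by
      rw [TensorProduct.tmul_sum]
      refine Finset.sum_congr rfl fun k _ => ?_
      rw [Algebra.TensorProduct.tmul_mul_tmul, one_mul]
    rw [e1, hsum, TensorProduct.tmul_smul, TensorProduct.smul_tmul',
      Algebra.TensorProduct.tmul_mul_tmul, Algebra.smul_def, mul_one, inv_mul_cancel₀ hX, hu'u]
    rfl
  · intro Q e he h1 h2 h3
    exact hblk ℓ F F' V E A As K K0 φ α W ψ γ q lam lam0 x y x0 y0 hinj hV hE hW hd Q e he h1 h2 h3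

end Pool.Agent.PSS.H22
end -- Pool.Agent.Helper22_PSS.GFC

section -- Pool.Agent.Helper28_PSS.VAN

set_option autoImplicit false

open scoped BigOperators

namespace Pool.Agent.PSS.H28

/-! VAN (block S3): vanishing by rotation of tuples. -/

/-- sum of a function invariant under a permutation of `ℓ`-power order which vanishes at the fixed points -/
theorem sum_inv_zero {X Z : Type} [Fintype X] [AddCommGroup Z] {ℓ m : ℕ} [hp : Fact ℓ.Prime]
    (hZ : ∀ z : Z, ℓ • z = 0) (σ : X → X) (hσ : ∀ x, σ^[ℓ ^ m] x = x) (Θ : X → Z)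
    (hinv : ∀ x, Θ (σ x) = Θ x) (hfix : ∀ x, σ x = x → Θ x = 0) : ∑ x, Θ x = 0 := by
  classical
  have h1 : ∑ x, Θ x = ∑ z ∈ Finset.univ.image Θ, ∑ x ∈ Finset.univ.filter (fun x => Θ x = z), Θ x :=
    (Finset.sum_fiberwise_of_maps_to (fun x _ => Finset.mem_image_of_mem Θ (Finset.mem_univ x)) Θ).symm
  rw [h1]
  refine Finset.sum_eq_zero fun z _ => ?_
  have h2 : ∑ x ∈ Finset.univ.filter (fun x => Θ x = z), Θ x =
      (Finset.univ.filter (fun x => Θ x = z)).card • z := by
    rw [Finset.sum_congr rfl (fun x hx => (Finset.mem_filter.1 hx).2), Finset.sum_const]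
  rw [h2]
  by_cases hz : z = 0
  · rw [hz, smul_zero]
  · have hd : ℓ ∣ (Finset.univ.filter (fun x => Θ x = z)).card := by
      let α := {x : X // Θ x = z}
      let f : Function.End α := fun x => ⟨σ x.1, (hinv x.1).trans x.2⟩
      have hit : ∀ (n : ℕ) (x : α), ((f ^ n) x).1 = σ^[n] x.1 := by
        intro n
        induction n with
        | zero => intro x; rfl
        | succ n ih =>
          intro x
          rw [pow_succ]
          change ((f ^ n) (f x)).1 = _
          rw [ih (f x)]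
          rfl
      have hf : f ^ ℓ ^ m = 1 := by
        funext x
        apply Subtype.ext
        rw [hit]
        exact hσ x.1
      have h3 := Equiv.Perm.card_fixedPoints_modEq (p := ℓ) (n := m) hf
      have h4 : Fintype.card (Function.fixedPoints f) = 0 := by
        rw [Fintype.card_eq_zero_iff]
        refine ⟨fun x => ?_⟩
        have h5 : f x.1 = x.1 := x.2
        have h6 := hfix x.1.1 (congrArg Subtype.val h5)
        exact hz (x.1.2.symm.trans h6)
      rw [h4] at h3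
      have h5 : Fintype.card α = (Finset.univ.filter (fun x => Θ x = z)).card :=
        Fintype.card_subtype _
      rw [h5] at h3
      exact (Nat.modEq_zero_iff_dvd).1 h3
    obtain ⟨d, hd⟩ := hd
    rw [hd, mul_comm, mul_smul, hZ, smul_zero]

section

variable {W G B Z : Type} [CommGroup W] [CommGroup G] [Ring B] [AddCommGroup Z]

/-- the product of the `a` at the partial products -/
def q (a : G → B) : G → List G → B
  | _, [] => 1
  | x, h :: t => a (x * h) * q a (x * h) t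

theorem q_append (a : G → B) (x : G) (L : List G) (h : G) :
    q a x (L ++ [h]) = q a x L * a (x * L.prod * h) := by
  induction L generalizing x with
  | nil => simp [q]
  | cons c t ih =>
    rw [List.cons_append]
    simp only [q]
    rw [ih, List.prod_cons, mul_assoc, mul_assoc]
    simp only [mul_assoc]

theorem q_conj (γ : W →* B) (π : W →* G) (a : G → B)
    (h : ∀ v g, γ v * a g * γ v⁻¹ = a (π v * g)) (v : W) (x : G) (L : List G) :
    γ v * q a x L * γ v⁻¹ = q a (π v * x) L := by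
  have hv : γ v * γ v⁻¹ = 1 := by rw [← map_mul, mul_inv_cancel, map_one]
  have hv' : γ v⁻¹ * γ v = 1 := by rw [← map_mul, inv_mul_cancel, map_one]
  induction L generalizing x with
  | nil => simp [q, hv]
  | cons c t ih =>
    simp only [q]
    have e : γ v * (a (x * c) * q a (x * c) t) * γ v⁻¹ =
        (γ v * a (x * c) * γ v⁻¹) * (γ v * q a (x * c) t * γ v⁻¹) := by
      have : γ v * a (x * c) * γ v⁻¹ * (γ v * q a (x * c) t * γ v⁻¹) =
        γ v * a (x * c) * (γ v⁻¹ * γ v) * q a (x * c) t * γ v⁻¹ := by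
        simp only [mul_assoc]
      rw [this, hv', mul_one]
      simp only [mul_assoc]
    rw [e, h, ih, mul_assoc]

theorem sum_q [Fintype G] (a : G → B) (k : ℕ) (x : G) :
    ∑ h : Fin k → G, q a x (List.ofFn h) = (∑ g, a g) ^ k := by
  induction k generalizing x with
  | zero => simp [q]
  | succ k ih =>
    rw [← (Fin.consEquiv (fun _ => G)).sum_comp, Fintype.sum_prod_type]
    have h1 : ∀ g : G, ∑ h : Fin k → G, q a x (List.ofFn ((Fin.consEquiv (fun _ => G)) (g, h))) =
        a (x * g) * (∑ g, a g) ^ k := by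
      intro g
      rw [← ih (x * g), Finset.mul_sum]
      refine Finset.sum_congr rfl fun h _ => ?_
      simp [Fin.consEquiv, List.ofFn_succ, q]
    rw [Finset.sum_congr rfl fun g _ => h1 g, ← Finset.sum_mul, pow_succ']
    congr 1
    exact Fintype.sum_equiv (Equiv.mulLeft x) _ _ (fun _ => rfl)

theorem van_aux [Fintype G] (ℓ : ℕ) [hp : Fact ℓ.Prime] (γ : W →* B) (π : W →* G) (a : G → B) (f : B →+ Z)
    (hG : IsPGroup ℓ G) (hZ : ∀ z : Z, ℓ • z = 0) (hf : ∀ x y, f (x * y) = f (y * x))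
    (hπ : Function.Surjective π) (ha : ∀ v g, γ v * a g * γ v⁻¹ = a (π v * g))
    (he : a 1 * ∑ g, a g = a 1) (w : W) (hw : π w ≠ 1) : f (γ w * a 1) = 0 := by
  classical
  have hv : ∀ v, γ v * γ v⁻¹ = 1 := fun v => by rw [← map_mul, mul_inv_cancel, map_one]
  have hv' : ∀ v, γ v⁻¹ * γ v = 1 := fun v => by rw [← map_mul, inv_mul_cancel, map_one]
  have hcomm : ∀ v, γ v * γ w = γ w * γ v := fun v => by rw [← map_mul, mul_comm, map_mul]
  obtain ⟨m, hm⟩ := IsPGroup.iff_card.1 hG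
  have hcard : Nat.card G = Fintype.card G := Nat.card_eq_fintype_card
  obtain ⟨k, hk⟩ : ∃ k, Fintype.card G = k + 1 :=
    ⟨Fintype.card G - 1, by have := Fintype.card_pos (α := G); omega⟩
  have haw : γ w * a 1 * γ w⁻¹ = a (π w) := by rw [ha, mul_one]
  -- `a 1 * e ^ j = a 1`
  have hpow : ∀ j : ℕ, a 1 * (∑ g, a g) ^ j = a 1 := by
    intro j
    induction j with
    | zero => rw [pow_zero, mul_one]
    | succ j ih => rw [pow_succ, ← mul_assoc, ih, he]
  obtain ⟨Θ, hΘ⟩ : ∃ Θ : (Fin (k + 1) → G) → Z, Θ = fun h =>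
    if (List.ofFn h).prod = π w then f (γ w * q a 1 (List.ofFn h)) else 0 := ⟨_, rfl⟩
  -- the sum
  have hsum : ∑ h, Θ h = f (γ w * a 1) := by
    rw [← (Fin.snocEquiv (fun _ => G)).sum_comp, Fintype.sum_prod_type, Finset.sum_comm]
    have h1 : ∀ h : Fin k → G, ∑ g : G, Θ ((Fin.snocEquiv (fun _ => G)) (g, h)) =
        f (γ w * a 1 * q a 1 (List.ofFn h)) := by
      intro h
      have h2 : ∀ g : G, List.ofFn ((Fin.snocEquiv (fun _ => G)) (g, h)) = List.ofFn h ++ [g] := by
        intro g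
        rw [List.ofFn_succ', List.concat_eq_append]
        simp [Fin.snocEquiv]
      rw [Finset.sum_eq_single ((List.ofFn h).prod⁻¹ * π w)]
      · rw [hΘ]
        simp only [h2, List.prod_append, List.prod_cons, List.prod_nil, mul_one,
          mul_inv_cancel_left, if_true]
        rw [q_append, one_mul, mul_inv_cancel_left, ← haw]
        have e : γ w * (q a 1 (List.ofFn h) * (γ w * a 1 * γ w⁻¹)) =
          (γ w * q a 1 (List.ofFn h) * γ w * a 1) * γ w⁻¹ := by simp only [mul_assoc]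
        rw [e, hf, ← mul_assoc, ← mul_assoc, ← mul_assoc, hv', one_mul, mul_assoc, hf]
      · intro g _ hg
        rw [hΘ]
        simp only [h2, List.prod_append, List.prod_cons, List.prod_nil, mul_one]
        rw [if_neg]
        intro h3
        exact hg (by rw [← h3, inv_mul_cancel_left])
      · intro h3
        exact absurd (Finset.mem_univ _) h3
    rw [Finset.sum_congr rfl fun h _ => h1 h, ← map_sum, ← Finset.mul_sum, sum_q, mul_assoc, hpow]
  rw [← hsum]
  refine sum_inv_zero (ℓ := ℓ) (m := m) hZ (fun h => h ∘ finRotate (k + 1)) ?_ Θ ?_ ?_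
  · intro h
    have hit : ∀ (n : ℕ) (i : Fin (k + 1)),
        ((fun h : Fin (k + 1) → G => h ∘ finRotate (k + 1))^[n] h) i =
          h ⟨(i.val + n) % (k + 1), Nat.mod_lt _ (Nat.succ_pos k)⟩ := by
      intro n
      induction n with
      | zero =>
        intro i
        rw [Function.iterate_zero_apply]
        congr 1
        apply Fin.ext
        simp only [add_zero]
        exact (Nat.mod_eq_of_lt i.2).symm
      | succ n ih =>
        intro i
        rw [Function.iterate_succ_apply']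
        simp only [Function.comp_apply]
        rw [ih, finRotate_apply]
        congr 1
        apply Fin.ext
        simp only [Fin.val_add]
        rw [Nat.mod_add_mod]
        have h1 : (i.val + ((1 : Fin (k + 1)) : ℕ) + n) % (k + 1) = (i.val + (n + 1)) % (k + 1) := by
          have h2 : ((1 : Fin (k + 1)) : ℕ) = 1 % (k + 1) := Fin.val_one' (k + 1)
          rw [h2, show i.val + 1 % (k + 1) + n = i.val + n + 1 % (k + 1) by ring, Nat.add_mod_mod,
            add_assoc]
        exact h1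
    funext i
    have hpm : ℓ ^ m = k + 1 := by rw [← hm, hcard, hk]
    rw [hpm, hit]
    congr 1
    apply Fin.ext
    simp only [Nat.add_mod_right]
    exact Nat.mod_eq_of_lt i.2
  · intro h
    rw [hΘ]
    have hL : List.ofFn (h ∘ finRotate (k + 1)) = (List.ofFn fun i : Fin k => h i.succ) ++ [h 0] := by
      rw [List.ofFn_succ', List.concat_eq_append]
      congr 1
      · congr 1
        funext i
        simp only [Function.comp_apply, finRotate_apply, Fin.coeSucc_eq_succ]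
      · simp only [Function.comp_apply, finRotate_apply, Fin.last_add_one]
    have hL0 : List.ofFn h = h 0 :: List.ofFn fun i : Fin k => h i.succ := List.ofFn_succ
    simp only [hL, hL0]
    obtain ⟨t, ht⟩ : ∃ t, t = List.ofFn fun i : Fin k => h i.succ := ⟨_, rfl⟩
    rw [← ht]
    have p1 : (t ++ [h 0]).prod = t.prod * h 0 := by
      rw [List.prod_append, List.prod_cons, List.prod_nil, mul_one]
    have p2 : (h 0 :: t).prod = h 0 * t.prod := List.prod_cons
    by_cases hc : h 0 * t.prod = π w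
    · have hc' : t.prod * h 0 = π w := by rw [mul_comm, hc]
      rw [if_pos (p1.trans hc'), if_pos (p2.trans hc), q_append, one_mul, hc']
      simp only [q, one_mul]
      obtain ⟨v, hvv⟩ := hπ (h 0)
      have e1 : q a (h 0) t = γ v * q a 1 t * γ v⁻¹ := by
        rw [q_conj γ π a ha v 1 t, mul_one, hvv]
      have e2 : a (h 0) = γ v * a 1 * γ v⁻¹ := by rw [ha, mul_one, hvv]
      rw [e1, e2, ← haw]
      -- f (γ w * (q * (γ w a γ w⁻¹))) = f (γ w * (γ v a γ v⁻¹ * (γ v q γ v⁻¹)))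
      have s1 : f (γ w * (q a 1 t * (γ w * a 1 * γ w⁻¹))) = f (q a 1 t * γ w * a 1) := by
        have e : γ w * (q a 1 t * (γ w * a 1 * γ w⁻¹)) =
          (γ w * (q a 1 t * γ w * a 1)) * γ w⁻¹ := by simp only [mul_assoc]
        rw [e, hf, ← mul_assoc, hv', one_mul]
      have s2 : f (γ w * (γ v * a 1 * γ v⁻¹ * (γ v * q a 1 t * γ v⁻¹))) =
          f (q a 1 t * γ w * a 1) := by
        have e : γ w * (γ v * a 1 * γ v⁻¹ * (γ v * q a 1 t * γ v⁻¹)) =
          (γ w * γ v) * (a 1 * ((γ v⁻¹ * γ v) * q a 1 t)) * γ v⁻¹ := by simp only [mul_assoc]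
        rw [e, hv', one_mul, hf, ← hcomm v]
        have e' : γ v⁻¹ * (γ v * γ w * (a 1 * q a 1 t)) =
          (γ v⁻¹ * γ v) * (γ w * a 1 * q a 1 t) := by simp only [mul_assoc]
        rw [e', hv', one_mul, hf, ← mul_assoc]
      rw [s1, s2]
    · have hc' : ¬ t.prod * h 0 = π w := by rwa [mul_comm]
      rw [if_neg (fun h3 => hc' (p1.symm.trans h3)), if_neg (fun h3 => hc (p2.symm.trans h3))]
  · intro h hfix
    rw [hΘ]
    simp only
    rw [if_neg]
    intro hprod
    apply hw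
    have hconst : ∀ i : Fin (k + 1), h i = h 0 := by
      intro i
      induction i using Fin.induction with
      | zero => rfl
      | succ i ih =>
        rw [← ih]
        have := congrFun hfix i.castSucc
        simp only [Function.comp_apply, finRotate_apply, Fin.coeSucc_eq_succ] at this
        exact this
    have h1 : h = fun _ => h 0 := funext hconst
    have h2 : ∀ g : G, g ^ (k + 1) = 1 := fun g => by rw [← hk]; exact pow_card_eq_one
    rw [← hprod, h1, List.ofFn_const, List.prod_replicate]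
    exact h2 _

end

theorem van : S3.VanStmt := by
  intro ℓ hp W G B Z _ _ _ _ _ γ π a f hG hZ hf hπ ha he w hw
  exact van_aux ℓ γ π a f hG hZ hf hπ ha he w hw

end Pool.Agent.PSS.H28
end -- Pool.Agent.Helper28_PSS.VAN

section -- Pool.Agent.Helper5_PSS.DIV

open scoped BigOperators

namespace Pool.Agent.PSS.S3.H5

open Pool.Agent.PSS Pool.Agent.PSS.S0

open Classical in
theorem exTv {V : Type} [CommGroup V] [Fintype V] (W : Subgroup V) :
    ∃ T : Finset V, Pool.Agent.PFC.IsTv W ⊤ T ∧ T.card = W.index := by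
  refine ⟨(Finset.univ : Finset (V ⧸ W)).image Quotient.out, ⟨fun s _ => trivial, ?_⟩, ?_⟩
  · intro p _
    refine ⟨Quotient.out (p : V ⧸ W), ⟨?_, ?_⟩, ?_⟩
    · exact Finset.mem_image.mpr ⟨_, Finset.mem_univ _, rfl⟩
    · exact QuotientGroup.eq.mp (QuotientGroup.out_eq' (p : V ⧸ W))
    · rintro s ⟨hs, hsp⟩
      obtain ⟨q, _, rfl⟩ := Finset.mem_image.mp hs
      have h := QuotientGroup.eq.mpr hsp
      rw [QuotientGroup.out_eq'] at h
      rw [h]
  · rw [Finset.card_image_of_injective _ (Quotient.out_injective), Finset.card_univ]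
    rw [Subgroup.index, Nat.card_eq_fintype_card]
    exact Fintype.card_congr (Equiv.refl _)

theorem div (hRFS : RfsStmt) (hIND : IndStmt) : DivStmt := by
  intro ℓ _ F V A K K0 _ _ _ _ _ _ _ _ α W _ lam x y x0 y0 hV hW hdvd v
  obtain ⟨T, hT, hcard⟩ := exTv W
  have hR := hRFS F V A K0 α lam x0 y0 W T hV hT
  have hfix : α v ∈ FxR (cw F (α.comp W.subtype)) ⊤ := by
    intro w _
    change α w * (α v * α (w : V)⁻¹) = α v
    rw [← map_mul, ← map_mul]
    congr 1
    rw [mul_comm v, mul_inv_cancel_left]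
  rw [hIND F W A K (K0 × T) (α.comp W.subtype) lam x y _ _ hW hR (α v) hfix]
  have e : ∀ p : K0 × T, x0 p.1 * α (p.2 : V) * α v * (α (p.2 : V)⁻¹ * y0 p.1)
      = x0 p.1 * α v * y0 p.1 := by
    intro p
    have h1 : α (p.2 : V) * α v * α (p.2 : V)⁻¹ = α v := by
      rw [← map_mul, ← map_mul]
      congr 1
      rw [mul_comm (p.2 : V), mul_inv_cancel_right]
    calc x0 p.1 * α (p.2 : V) * α v * (α (p.2 : V)⁻¹ * y0 p.1)
        = x0 p.1 * (α (p.2 : V) * α v * α (p.2 : V)⁻¹) * y0 p.1 := by simp only [mul_assoc]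
      _ = x0 p.1 * α v * y0 p.1 := by rw [h1]
  rw [Finset.sum_congr rfl (fun p _ => e p), Fintype.sum_prod_type]
  simp only
  rw [Finset.sum_comm, Finset.sum_const, Finset.card_univ, Fintype.card_coe, hcard]
  obtain ⟨m, hm⟩ := hdvd
  rw [hm, ← Nat.cast_smul_eq_nsmul F, Nat.cast_mul, CharP.cast_eq_zero, zero_mul, zero_smul]

end Pool.Agent.PSS.S3.H5
end -- Pool.Agent.Helper5_PSS.DIV

section -- Pool.Agent.Helper63_PSS.RDX

/-!
# Squad PSS, row S3.RDX: reduction of a relative Frobenius system modulo `X`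
-/

open scoped BigOperators TensorProduct PowerSeries

noncomputable section

namespace Pool.Agent.PSS.S3.H63

/-- RDX -/
theorem rdx : RdxStmt := by
  intro F W A As K _ _ _ _ _ _ _ _ ω γ q lam lam0 x y hsc hsurj hqw hlr hRF
  have hm : ∀ a b : As, q (a * b) = q a * q b := fun a b => map_mul q a b
  have hs : ∀ (r : F⟦X⟧) (a : As), q (r • a) = PowerSeries.constantCoeff r • q a := by
    intro r a
    rw [Algebra.smul_def, hm, hsc, Algebra.smul_def]
  refine ⟨?_, ?_, ?_⟩
  · intro a b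
    obtain ⟨a, rfl⟩ := hsurj a
    obtain ⟨b, rfl⟩ := hsurj b
    rw [← hm, ← hm, ← hlr, ← hlr, hRF.sym]
  · intro a
    obtain ⟨a, rfl⟩ := hsurj a
    conv_rhs => rw [← hRF.e1 a, map_sum]
    refine Finset.sum_congr rfl fun k _ => ?_
    rw [map_sum]
    refine Finset.sum_congr rfl fun v _ => ?_
    rw [hs, hlr, hm, hm, hm, hqw, hqw]
  · intro a
    obtain ⟨a, rfl⟩ := hsurj a
    conv_rhs => rw [← hRF.e2 a, map_sum]
    refine Finset.sum_congr rfl fun k _ => ?_
    rw [map_sum]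
    refine Finset.sum_congr rfl fun v _ => ?_
    rw [hs, hlr, hm, hm, hm, hqw, hqw]

end Pool.Agent.PSS.S3.H63
end
end -- Pool.Agent.Helper63_PSS.RDX

section -- Pool.Agent.Helper63_PSS.UNX

/-!
# Squad PSS, row S3.UNX: units lift
-/

open scoped BigOperators TensorProduct PowerSeries

noncomputable section

namespace Pool.Agent.PSS.S3.H63

open Pool.Agent.PFD.D2b (FrR)

/-- A frame generates. -/
theorem fin_of_per {R V E A : Type} [CommRing R] [CommGroup V] [Group E] [Ring A] [Algebra R A]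
    (φ : E →* MulAut V) (α : V →* A) (h : Per R φ α) : Module.Finite R A := by
  classical
  obtain ⟨Ω, _, _, b, c, hf, _⟩ := h
  refine ⟨⟨Finset.univ.image b, ?_⟩⟩
  rw [eq_top_iff]
  intro a _
  rw [← hf.2.2 a]
  refine Submodule.sum_mem _ fun t _ => Submodule.smul_mem _ _ (Submodule.subset_span ?_)
  simp

/-- Nakayama: a linear map congruent to the identity modulo `X` is surjective. -/
theorem surj_of_congr {F M : Type} [Field F] [AddCommGroup M] [Module F⟦X⟧ M]
    [Module.Finite F⟦X⟧ M] (u : M →ₗ[F⟦X⟧] M)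
    (h : ∀ x, ∃ y, u x - x = (PowerSeries.X : F⟦X⟧) • y) : Function.Surjective u := by
  rw [← LinearMap.range_eq_top, eq_top_iff]
  refine Submodule.le_of_le_smul_of_le_jacobson_bot (I := Ideal.span {(PowerSeries.X : F⟦X⟧)})
    Module.Finite.fg_top ?_ ?_
  · refine le_trans ?_ (IsLocalRing.maximalIdeal_le_jacobson _)
    rw [Ideal.span_le, Set.singleton_subset_iff]
    show (PowerSeries.X : F⟦X⟧) ∈ IsLocalRing.maximalIdeal F⟦X⟧
    rw [IsLocalRing.mem_maximalIdeal, mem_nonunits_iff, PowerSeries.isUnit_iff_constantCoeff]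
    simp
  · intro x _
    obtain ⟨y, hy⟩ := h x
    have e : x = u x + (PowerSeries.X : F⟦X⟧) • (-y) := by
      rw [smul_neg, ← hy]
      abel
    rw [e]
    refine Submodule.add_mem_sup (LinearMap.mem_range_self u x) ?_
    exact Submodule.smul_mem_smul (Ideal.subset_span rfl) Submodule.mem_top

/-- UNX -/
theorem unx : UnxStmt := by
  intro F W E A As _ _ _ _ _ _ _ ψ γ q hper hsurj hker u v h1 h2
  haveI : Module.Finite F⟦X⟧ As := fin_of_per ψ γ hper
  obtain ⟨u1, rfl⟩ := hsurj v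
  have e1 : q (u * u1 - 1) = 0 := by rw [map_sub, map_mul, map_one, h1, sub_self]
  have e2 : q (u1 * u - 1) = 0 := by rw [map_sub, map_mul, map_one, h2, sub_self]
  obtain ⟨c1, hc1⟩ := hker _ e1
  obtain ⟨c2, hc2⟩ := hker _ e2
  have s1 : Function.Surjective (LinearMap.mulLeft F⟦X⟧ (u * u1)) := by
    apply surj_of_congr
    intro a
    refine ⟨c1 * a, ?_⟩
    rw [LinearMap.mulLeft_apply, ← smul_mul_assoc, ← hc1, sub_mul, one_mul]
  have s2 : Function.Surjective (LinearMap.mulRight F⟦X⟧ (u1 * u)) := by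
    apply surj_of_congr
    intro a
    refine ⟨a * c2, ?_⟩
    rw [LinearMap.mulRight_apply, ← mul_smul_comm, ← hc2, mul_sub, mul_one]
  obtain ⟨d1, hd1⟩ := s1 1
  obtain ⟨d2, hd2⟩ := s2 1
  rw [LinearMap.mulLeft_apply] at hd1
  rw [LinearMap.mulRight_apply] at hd2
  have r1 : u * (u1 * d1) = 1 := by rw [← mul_assoc, hd1]
  have r2 : (d2 * u1) * u = 1 := by rw [mul_assoc, hd2]
  have r3 : d2 * u1 = u1 * d1 := by
    calc d2 * u1 = (d2 * u1) * (u * (u1 * d1)) := by rw [r1, mul_one]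
      _ = ((d2 * u1) * u) * (u1 * d1) := by rw [← mul_assoc]
      _ = u1 * d1 := by rw [r2, one_mul]
  exact ⟨u1 * d1, r1, by rw [← r3, r2]⟩

end Pool.Agent.PSS.S3.H63
end
end -- Pool.Agent.Helper63_PSS.UNX

section -- Pool.Agent.Helper91_PSS.GFQ

/-!
# Squad PSS, row GFQ (helper91): the Brauer quotient of the base change
-/

open scoped BigOperators TensorProduct PowerSeries

noncomputable section

namespace Pool.Agent.PSS.H91.Gfq

open Pool.Agent.PFC (tw IsTv)
open Pool.Agent.PFD.D2b (FrR)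
open Pool.Agent.PSS
open Pool.Agent.PSS.S0 Pool.Agent.PSS.S3

section bq

variable {R V A B : Type} [CommRing R] [CommGroup V] [Ring A] [Algebra R A] [Ring B] [Algebra R B]
  {α : V →* A} {Q : Subgroup V} {αB : V →* B} {β : A → B}

theorem cwa (u : V) (a : A) : cw R α u a = α u * (a * α u⁻¹) := rfl

theorem mem_fx {a : A} : a ∈ FxR (cw R α) Q ↔ ∀ u ∈ Q, α u * a = a * α u := by
  constructor
  · intro h u hu
    have h1 : cw R α u a = a := h u hu
    rw [cwa] at h1
    have h2 : α u⁻¹ * α u = 1 := by rw [← map_mul, inv_mul_cancel, map_one]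
    calc α u * a = (α u * (a * α u⁻¹)) * α u := by
          rw [mul_assoc, mul_assoc, h2, mul_one]
      _ = a * α u := by rw [h1]
  · intro h u hu
    show cw R α u a = a
    have h2 : α u * α u⁻¹ = 1 := by rw [← map_mul, mul_inv_cancel, map_one]
    rw [cwa, ← mul_assoc, h u hu, mul_assoc, h2, mul_one]

theorem fx_mul {a b : A} (ha : a ∈ FxR (cw R α) Q) (hb : b ∈ FxR (cw R α) Q) :
    a * b ∈ FxR (cw R α) Q := by
  rw [mem_fx] at ha hb ⊢
  intro u hu
  rw [← mul_assoc, ha u hu, mul_assoc, hb u hu, mul_assoc]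

theorem fx_one : (1 : A) ∈ FxR (cw R α) Q := by
  rw [mem_fx]
  intro u _
  rw [one_mul, mul_one]

theorem fx_al (w : V) : α w ∈ FxR (cw R α) Q := by
  rw [mem_fx]
  intro u _
  rw [← map_mul, ← map_mul, mul_comm]

/-- the Brauer map as a linear map -/
def bl (h : IsBQ R α Q αB β) : FxR (cw R α) Q →ₗ[R] B where
  toFun a := β a
  map_add' a b := h.add a a.2 b b.2
  map_smul' r a := h.smul r a a.2

theorem bl_apply (h : IsBQ R α Q αB β) (a : FxR (cw R α) Q) : bl h a = β a := rfl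

theorem bq_sub (h : IsBQ R α Q αB β) {a b : A} (ha : a ∈ FxR (cw R α) Q)
    (hb : b ∈ FxR (cw R α) Q) : β (a - b) = β a - β b :=
  map_sub (bl h) ⟨a, ha⟩ ⟨b, hb⟩

theorem bq_eq (h : IsBQ R α Q αB β) {a b : A} (ha : a ∈ FxR (cw R α) Q)
    (hb : b ∈ FxR (cw R α) Q) : β a = β b ↔ a - b ∈ BKR (cw R α) Q := by
  rw [← h.ker (a - b) (Submodule.sub_mem _ ha hb), bq_sub h ha hb, sub_eq_zero]

theorem bq_zero (h : IsBQ R α Q αB β) : β 0 = 0 := map_zero (bl h)

theorem bq_sum {ι : Type} (h : IsBQ R α Q αB β) (s : Finset ι) (c : ι → R) (a : ι → A)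
    (ha : ∀ i ∈ s, a i ∈ FxR (cw R α) Q) : β (∑ i ∈ s, c i • a i) = ∑ i ∈ s, c i • β (a i) := by
  classical
  induction s using Finset.induction_on with
  | empty =>
    rw [Finset.sum_empty, Finset.sum_empty]
    exact bq_zero h
  | insert i s hi ih =>
    rw [Finset.sum_insert hi, Finset.sum_insert hi]
    have h1 : a i ∈ FxR (cw R α) Q := ha i (Finset.mem_insert_self i s)
    have h2 : ∀ j ∈ s, a j ∈ FxR (cw R α) Q := fun j hj => ha j (Finset.mem_insert_of_mem hj)
    rw [h.add _ (Submodule.smul_mem _ _ h1) _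
      (Submodule.sum_mem _ fun j hj => Submodule.smul_mem _ _ (h2 j hj)), h.smul _ _ h1, ih h2]

end bq

section bc

variable {R S W A : Type} [CommRing R] [CommRing S] [Algebra R S] [CommGroup W] [Ring A]
  [Algebra R A] (γ : W →* A)

theorem bcw_apply (w : W) : bcw (R := R) (S := S) γ w = (1 : S) ⊗ₜ[R] γ w := rfl

/-- base change of a functional -/
def bcf (c : A →ₗ[R] R) : S ⊗[R] A →ₗ[S] S :=
  (TensorProduct.AlgebraTensorModule.rid R S S).toLinearMap ∘ₗ (c.baseChange S)

theorem bcf_tmul (c : A →ₗ[R] R) (s : S) (a : A) :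
    bcf (S := S) c (s ⊗ₜ[R] a) = c a • s := by
  simp [bcf]

theorem bcf_sum {Ω : Type} [Fintype Ω] (b : Ω → A) (c : Ω → (A →ₗ[R] R))
    (h : ∀ n, ∑ t, c t n • b t = n) (m : S ⊗[R] A) :
    ∑ t, bcf (S := S) (c t) m • ((1 : S) ⊗ₜ[R] b t) = m := by
  induction m using TensorProduct.induction_on with
  | zero => simp
  | tmul s a =>
    have h1 : ∀ t, bcf (S := S) (c t) (s ⊗ₜ[R] a) • ((1 : S) ⊗ₜ[R] b t) =
        s ⊗ₜ[R] (c t a • b t) := by
      intro t
      rw [bcf_tmul, TensorProduct.smul_tmul', smul_eq_mul, mul_one, TensorProduct.smul_tmul]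
    rw [Finset.sum_congr rfl fun t _ => h1 t, ← TensorProduct.tmul_sum, h a]
  | add x y hx hy =>
    rw [Finset.sum_congr rfl fun t _ => by rw [map_add, add_smul], Finset.sum_add_distrib, hx, hy]

theorem bcf_eq {Ω : Type} [Fintype Ω] [MulAction (W × W) Ω] {b : Ω → A} {c : Ω → (A →ₗ[R] R)}
    (h : FrR (bw R γ) b c) (g : W) (ω : Ω) (m : S ⊗[R] A) :
    bcf (S := S) (c (((g, g) : W × W) • ω)) (cw S (bcw (R := R) (S := S) γ) g m) =
      bcf (S := S) (c ω) m := by
  induction m using TensorProduct.induction_on with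
  | zero => simp
  | tmul s a =>
    have h1 : cw S (bcw (R := R) (S := S) γ) g (s ⊗ₜ[R] a) = s ⊗ₜ[R] (bw R γ (g, g) a) := by
      rw [cwa, bcw_apply, bcw_apply, Algebra.TensorProduct.tmul_mul_tmul,
        Algebra.TensorProduct.tmul_mul_tmul, one_mul, mul_one]
      rfl
    rw [h1, bcf_tmul, bcf_tmul, h.2.1]
  | add x y hx hy => rw [map_add, map_add, map_add, hx, hy]

end bc

/-- GFQ -/
theorem gfq (hGFB : GfbStmt) (hFPX : FpxStmt) (hLMB : LmbStmt) : GfqStmt := by
  intro ℓ _ R S W E A Bs D K KB _ _ _ _ _ _ _ _ _ _ _ _ _ _ ψ γ lam x y Q γB βs γD βD lamB xs ys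
    hl hp hRF hPer hUni hB hD hRB hlB
  classical
  obtain ⟨⟨lamS, hlamS, hRS⟩, -, -, hfix⟩ := hGFB R S W E A K ψ γ lam x y hRF hPer hUni
  obtain ⟨hfx, hbk⟩ := hfix Q
  -- the ring homomorphism
  choose s hs hsb using hB.surj
  have key : ∀ a ∈ FxR (cw R γ) Q, βD (1 ⊗ₜ[R] s (βs a)) = βD (1 ⊗ₜ[R] a) := by
    intro a ha
    rw [bq_eq hD (hfx _ (hs _)) (hfx a ha), ← TensorProduct.tmul_sub]
    exact hbk _ ((bq_eq hB (hs _) ha).1 (hsb _))
  let κ : Bs →+* D :=
    { toFun := fun b => βD (1 ⊗ₜ[R] s b)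
      map_one' := by
        have h1 := key 1 fx_one
        rw [hB.one] at h1
        rw [h1]
        exact hD.one
      map_mul' := by
        intro b b'
        have h1 := key (s b * s b') (fx_mul (hs b) (hs b'))
        rw [hB.mul _ (hs b) _ (hs b'), hsb, hsb] at h1
        rw [h1, ← hD.mul _ (hfx _ (hs b)) _ (hfx _ (hs b')),
          Algebra.TensorProduct.tmul_mul_tmul, one_mul]
      map_zero' := by
        have h1 := key 0 (Submodule.zero_mem _)
        rw [bq_zero hB, TensorProduct.tmul_zero, bq_zero hD] at h1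
        exact h1
      map_add' := by
        intro b b'
        have h1 := key (s b + s b') (Submodule.add_mem _ (hs b) (hs b'))
        rw [hB.add _ (hs b) _ (hs b'), hsb, hsb] at h1
        rw [h1, ← hD.add _ (hfx _ (hs b)) _ (hfx _ (hs b')), TensorProduct.tmul_add] }
  have hκ : ∀ a ∈ FxR (cw R γ) Q, κ (βs a) = βD (1 ⊗ₜ[R] a) := key
  have hκr : ∀ (r : R) b, κ (r • b) = algebraMap R S r • κ b := by
    intro r b
    have h1 : κ (r • b) = κ (βs (r • s b)) := by rw [hB.smul r _ (hs b), hsb]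
    have h2 : κ b = βD (1 ⊗ₜ[R] s b) := by rw [← hκ _ (hs b), hsb]
    rw [h1, hκ _ (Submodule.smul_mem _ _ (hs b)), h2, ← hD.smul _ _ (hfx _ (hs b))]
    congr 1
    rw [TensorProduct.smul_tmul', smul_eq_mul, mul_one, TensorProduct.tmul_smul,
      TensorProduct.smul_tmul', Algebra.smul_def, mul_one]
  have hκw : ∀ w, κ (γB w) = γD w := by
    intro w
    rw [← hB.om w, hκ _ (fx_al w), ← hD.om w]
    rfl
  -- the form
  have hlS : (ℓ : S) = 0 := by
    rw [← map_natCast (algebraMap R S) ℓ, hl, map_zero]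
  obtain ⟨lamD, hlamD⟩ := hLMB ℓ S W (S ⊗[R] A) D (bcw (R := R) (S := S) γ) Q γD βD lamS hlS hp
    hRS.sym hD
  have hlκ : ∀ b, lamD (κ b) = algebraMap R S (lamB b) := by
    intro b
    have h2 : κ b = βD (1 ⊗ₜ[R] s b) := by rw [← hκ _ (hs b), hsb]
    rw [h2, hlamD _ (hfx _ (hs b)), hlamS, one_mul, ← hlB _ (hs b), hsb]
  -- `D` is spanned by the image of `κ`
  have hspan : ∀ d : D, d ∈ Submodule.span S (Set.range κ) := by
    intro d
    obtain ⟨m, hm, rfl⟩ := hD.surj d
    obtain ⟨Ω, _, _, b, c, hfr, -⟩ := hPer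
    letI : MulAction W Ω := MulAction.compHom Ω ((MonoidHom.id W).prod (MonoidHom.id W))
    have hsm : ∀ (h : W) (ω : Ω), h • ω = ((h, h) : W × W) • ω := fun h ω => rfl
    have h1 := hFPX S W (S ⊗[R] A) Ω (cw S (bcw (R := R) (S := S) γ)) Q
      (fun ω => bcf (S := S) (c ω) m • ((1 : S) ⊗ₜ[R] b ω))
      (Finset.univ.filter fun ω => ∀ h ∈ Q, h • ω = ω) (by
        intro h hh ω
        have h2 : bcf (S := S) (c (h • ω)) m = bcf (S := S) (c ω) m := by
          have h3 := bcf_eq (S := S) γ hfr h ω m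
          have h4 : cw S (bcw (R := R) (S := S) γ) h m = m := hm h hh
          rw [h4] at h3
          exact h3
        have h5 : b (h • ω) = bw R γ (h, h) (b ω) := hfr.1 (h, h) ω
        rw [h2, h5, map_smul]
        congr 1
        rw [cwa, bcw_apply, bcw_apply, Algebra.TensorProduct.tmul_mul_tmul,
          Algebra.TensorProduct.tmul_mul_tmul, one_mul, mul_one]
        rfl) (by
        intro ω
        rw [Finset.mem_filter]
        exact ⟨fun h => h.2, fun h => ⟨Finset.mem_univ _, h⟩⟩)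
    rw [bcf_sum b c hfr.2.2 m] at h1
    have hbf : ∀ ω ∈ Finset.univ.filter (fun ω : Ω => ∀ h ∈ Q, h • ω = ω),
        b ω ∈ FxR (cw R γ) Q := by
      intro ω hω
      rw [Finset.mem_filter] at hω
      intro h hh
      have h2 : b (h • ω) = cw R γ h (b ω) := hfr.1 (h, h) ω
      rw [← h2, hω.2 h hh]
    have hsum : ∑ ω ∈ Finset.univ.filter (fun ω : Ω => ∀ h ∈ Q, h • ω = ω),
        bcf (S := S) (c ω) m • ((1 : S) ⊗ₜ[R] b ω) ∈ FxR (cw S (bcw (R := R) (S := S) γ)) Q :=
      Submodule.sum_mem _ fun ω hω => Submodule.smul_mem _ _ (hfx _ (hbf ω hω))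
    rw [(bq_eq hD hm hsum).2 h1, bq_sum hD _ _ _ (fun ω hω => hfx _ (hbf ω hω))]
    refine Submodule.sum_mem _ fun ω hω => Submodule.smul_mem _ _ ?_
    rw [← hκ _ (hbf ω hω)]
    exact Submodule.subset_span ⟨_, rfl⟩
  refine ⟨κ, lamD, hκ, hκr, hκw, ?_, ?_, ?_⟩
  · intro a b
    obtain ⟨m, hm, rfl⟩ := hD.surj a
    obtain ⟨n, hn, rfl⟩ := hD.surj b
    rw [← hD.mul _ hm _ hn, ← hD.mul _ hn _ hm, hlamD _ (fx_mul hm hn), hlamD _ (fx_mul hn hm)]
    exact hRS.sym m n
  · intro d
    induction hspan d using Submodule.span_induction with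
    | mem d hd =>
      obtain ⟨b, rfl⟩ := hd
      have h1 : ∀ k w, lamD (γD w⁻¹ * κ (ys k) * κ b) • (κ (xs k) * γD w) =
          κ (lamB (γB w⁻¹ * ys k * b) • (xs k * γB w)) := by
        intro k w
        have e1 : γD w⁻¹ * κ (ys k) * κ b = κ (γB w⁻¹ * ys k * b) := by
          rw [map_mul κ, map_mul κ, hκw]
        have e2 : κ (xs k) * γD w = κ (xs k * γB w) := by rw [map_mul κ, hκw]
        rw [e1, e2, hlκ, hκr]
      simp_rw [h1, ← map_sum]
      rw [hRB.e1]
    | zero => simp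
    | add d d' _ _ hd hd' =>
      simp only [mul_add, map_add, add_smul, Finset.sum_add_distrib]
      rw [hd, hd']
    | smul r d _ hd =>
      have h1 : ∀ k w, lamD (γD w⁻¹ * κ (ys k) * (r • d)) • (κ (xs k) * γD w) =
          r • (lamD (γD w⁻¹ * κ (ys k) * d) • (κ (xs k) * γD w)) := by
        intro k w
        rw [mul_smul_comm, map_smul, smul_eq_mul, mul_smul]
      simp_rw [h1, ← Finset.smul_sum]
      rw [hd]
  · intro d
    induction hspan d using Submodule.span_induction with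
    | mem d hd =>
      obtain ⟨b, rfl⟩ := hd
      have h1 : ∀ k w, lamD (κ b * (κ (xs k) * γD w)) • (γD w⁻¹ * κ (ys k)) =
          κ (lamB (b * (xs k * γB w)) • (γB w⁻¹ * ys k)) := by
        intro k w
        have e1 : κ b * (κ (xs k) * γD w) = κ (b * (xs k * γB w)) := by
          rw [map_mul κ, map_mul κ, hκw]
        have e2 : γD w⁻¹ * κ (ys k) = κ (γB w⁻¹ * ys k) := by rw [map_mul κ, hκw]
        rw [e1, e2, hlκ, hκr]
      simp_rw [h1, ← map_sum]
      rw [hRB.e2]
    | zero => simp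
    | add d d' _ _ hd hd' =>
      simp only [add_mul, map_add, add_smul, Finset.sum_add_distrib]
      rw [hd, hd']
    | smul r d _ hd =>
      have h1 : ∀ k w, lamD (r • d * (κ (xs k) * γD w)) • (γD w⁻¹ * κ (ys k)) =
          r • (lamD (d * (κ (xs k) * γD w)) • (γD w⁻¹ * κ (ys k))) := by
        intro k w
        rw [smul_mul_assoc, map_smul, smul_eq_mul, mul_smul]
      simp_rw [h1, ← Finset.smul_sum]
      rw [hd]

end Pool.Agent.PSS.H91.Gfq
end
end -- Pool.Agent.Helper91_PSS.GFQ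

section -- Pool.Agent.Helper92_PSS.BLS

/-!
# Squad PSS, row BLS: the relative traces vanish on a block with defect group `Q`
-/

set_option autoImplicit false

open scoped BigOperators TensorProduct PowerSeries

noncomputable section

namespace Pool.Agent.PSS.S3.H92

open Pool.Agent.PFC (tw IsTv)
open Pool.Agent.PFD.D2b (FrR)
open Pool.Agent.PSS.S0

section
variable {R W C : Type} [CommRing R] [CommGroup W] [Ring C] [Algebra R C] {γ : W →* C}
  {Q : Subgroup W}

theorem mem_cwQ {a : C} : a ∈ FxR (cw R γ) Q ↔ ∀ q ∈ Q, γ q * a = a * γ q := by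
  constructor
  · intro h q hq
    have h1 : γ q * (a * γ q⁻¹) = a := h q hq
    calc γ q * a = γ q * (a * γ q⁻¹) * γ q := by
          rw [mul_assoc, mul_assoc, ← map_mul, inv_mul_cancel, map_one, mul_one]
      _ = a * γ q := by rw [h1]
  · intro h q hq
    change γ q * (a * γ q⁻¹) = a
    rw [← mul_assoc, h q hq, mul_assoc, ← map_mul, mul_inv_cancel, map_one, mul_one]

theorem ga_mem (v : W) : γ v ∈ FxR (cw R γ) Q := by
  rw [mem_cwQ]
  intro q _
  rw [← map_mul, ← map_mul, mul_comm]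

theorem mul_mem_cw {a b : C} (ha : a ∈ FxR (cw R γ) Q) (hb : b ∈ FxR (cw R γ) Q) :
    a * b ∈ FxR (cw R γ) Q := by
  rw [mem_cwQ] at ha hb ⊢
  intro q hq
  rw [← mul_assoc, ha q hq, mul_assoc, hb q hq, mul_assoc]

theorem cw_mem {m : C} (hm : m ∈ FxR (cw R γ) Q) (v : W) :
    cw R γ v m ∈ FxR (cw R γ) Q := by
  change γ v * (m * γ v⁻¹) ∈ FxR (cw R γ) Q
  exact mul_mem_cw (ga_mem v) (mul_mem_cw hm (ga_mem v⁻¹))

variable {B : Type} [Ring B] [Algebra R B] {γB : W →* B} {β : C → B}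

theorem bq_sum (hb : IsBQ R γ Q γB β) (s : Finset W) (g : W → C)
    (hg : ∀ x ∈ s, g x ∈ FxR (cw R γ) Q) : β (∑ x ∈ s, g x) = ∑ x ∈ s, β (g x) := by
  classical
  induction s using Finset.induction_on with
  | empty =>
    rw [Finset.sum_empty, Finset.sum_empty]
    exact (hb.ker 0 (Submodule.zero_mem _)).mpr (Submodule.zero_mem _)
  | insert x s hx ih =>
    rw [Finset.sum_insert hx, Finset.sum_insert hx,
      hb.add _ (hg x (Finset.mem_insert_self x s)) _
        (Submodule.sum_mem _ fun y hy => hg y (Finset.mem_insert_of_mem hy)),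
      ih fun y hy => hg y (Finset.mem_insert_of_mem hy)]

theorem bq_eq (hb : IsBQ R γ Q γB β) {a b : C} (ha : a ∈ FxR (cw R γ) Q)
    (hb' : b ∈ FxR (cw R γ) Q) (h : a - b ∈ BKR (cw R γ) Q) : β a = β b := by
  have h1 : a - b ∈ FxR (cw R γ) Q := Submodule.sub_mem _ ha hb'
  have h2 : β (a - b) = 0 := (hb.ker _ h1).mpr h
  have h3 := hb.add _ h1 _ hb'
  rw [sub_add_cancel, h2, zero_add] at h3
  exact h3

theorem bq_q (hb : IsBQ R γ Q γB β) {q : W} (hq : q ∈ Q) (y : B) : γB q * y = y * γB q := by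
  obtain ⟨a, ha, rfl⟩ := hb.surj y
  rw [← hb.om, ← hb.mul _ (ga_mem q) _ ha, ← hb.mul _ ha _ (ga_mem q), mem_cwQ.mp ha q hq]

theorem bq_cw (hb : IsBQ R γ Q γB β) {m : C} (hm : m ∈ FxR (cw R γ) Q) (v : W) :
    β (cw R γ v m) = γB v * β m * γB v⁻¹ := by
  change β (γ v * (m * γ v⁻¹)) = _
  rw [hb.mul _ (ga_mem v) _ (mul_mem_cw hm (ga_mem v⁻¹)), hb.mul _ hm _ (ga_mem v⁻¹), hb.om,
    hb.om, mul_assoc]

/-- the conjugates of an element of `B` -/
def cj (γB : W →* B) (c : B) (g : W ⧸ Q) : B := γB g.out * c * γB (g.out)⁻¹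

theorem cj_mk (hq : ∀ q ∈ Q, ∀ y : B, γB q * y = y * γB q) (c : B) (t : W) :
    cj γB c (t : W ⧸ Q) = γB t * c * γB t⁻¹ := by
  unfold cj
  obtain ⟨h, hh⟩ := QuotientGroup.mk_out_eq_mul Q t
  rw [hh, mul_inv_rev, map_mul, map_mul, mul_assoc (γB t), hq h h.2 c]
  have h1 : γB (h : W) * γB (h : W)⁻¹ = 1 := by
    rw [← map_mul, mul_inv_cancel, map_one]
  calc γB t * (c * γB (h : W)) * (γB (h : W)⁻¹ * γB t⁻¹)
      = γB t * c * (γB (h : W) * γB (h : W)⁻¹) * γB t⁻¹ := by simp only [mul_assoc]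
    _ = _ := by rw [h1, mul_one]

theorem cj_sum [Fintype (W ⧸ Q)] (hq : ∀ q ∈ Q, ∀ y : B, γB q * y = y * γB q) (c : B)
    {S : Finset W} (hS : IsTv Q ⊤ S) :
    ∑ g : W ⧸ Q, cj γB c g = ∑ t ∈ S, γB t * c * γB t⁻¹ := by
  symm
  refine Finset.sum_bij (fun t _ => (t : W ⧸ Q)) (fun _ _ => Finset.mem_univ _) ?_ ?_ ?_
  · intro s hs s' hs' h
    have h1 : s⁻¹ * s' ∈ Q := QuotientGroup.eq.mp h
    obtain ⟨u, -, hu⟩ := hS.2 s' (Subgroup.mem_top _)
    have h2 : s = u := hu s ⟨hs, h1⟩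
    have h3 : s' = u := hu s' ⟨hs', by rw [inv_mul_cancel]; exact Q.one_mem⟩
    rw [h2, h3]
  · intro g _
    obtain ⟨s, ⟨hs, hs2⟩, -⟩ := hS.2 g.out (Subgroup.mem_top _)
    refine ⟨s, hs, ?_⟩
    rw [← QuotientGroup.out_eq' g]
    exact QuotientGroup.eq.mpr hs2
  · intro t _
    exact (cj_mk hq c t).symm

end

theorem bls (van : VanStmt) (ftr : FtrStmt) (rfs : RfsStmt) (trs : TrsStmt) : BlsStmt := by
  intro ℓ _ R W E C B K _ _ _ _ _ _ _ _ _ ψ γ Q γB β lamB xB yB e w hℓ hp hper hb hrf he hee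
    hec hbk hw
  classical
  obtain ⟨Ω, _, _, b, c, hfr, -⟩ := hper
  let act : MulAction W Ω :=
    MulAction.compHom Ω (MonoidHom.prod (MonoidHom.id W) (MonoidHom.id W))
  have hfr' : FrR (cw R γ) b c :=
    ⟨fun g t => hfr.1 (g, g) t, fun g t n => hfr.2.1 (g, g) t n, hfr.2.2⟩
  obtain ⟨m, hm, S, hS, hem⟩ := ftr ℓ R W C Ω (cw R γ) b c hℓ hp hfr' Q e he hbk
  have heQ : e ∈ FxR (cw R γ) Q := fun q _ => he q (Subgroup.mem_top q)
  have hq : ∀ q ∈ Q, ∀ y : B, γB q * y = y * γB q := fun q hq y => bq_q hb hq y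
  have hcen : ∀ y : B, β e * y = y * β e := by
    intro y
    obtain ⟨a, ha, rfl⟩ := hb.surj y
    rw [← hb.mul _ heQ _ ha, ← hb.mul _ ha _ heQ]
    exact bq_eq hb (mul_mem_cw heQ ha) (mul_mem_cw ha heQ) (hec a ha)
  have hid : β e * β e = β e := by
    rw [← hb.mul _ heQ _ heQ]
    exact bq_eq hb (mul_mem_cw heQ heQ) heQ hee
  have hsm : β e = ∑ t ∈ S, γB t * β m * γB t⁻¹ := by
    rw [bq_eq hb heQ (Submodule.sum_mem _ fun x _ => cw_mem hm x) hem,
      bq_sum hb S _ fun x _ => cw_mem hm x]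
    exact Finset.sum_congr rfl fun x _ => bq_cw hb hm x
  set cc : B := β m * β e with hcc
  have hcS : ∑ t ∈ S, γB t * cc * γB t⁻¹ = β e := by
    calc ∑ t ∈ S, γB t * cc * γB t⁻¹ = ∑ t ∈ S, (γB t * β m * γB t⁻¹) * β e := by
          refine Finset.sum_congr rfl fun t _ => ?_
          rw [hcc, mul_assoc, mul_assoc (β m), hcen, ← mul_assoc (β m), ← mul_assoc, ← mul_assoc]
      _ = β e := by rw [← Finset.sum_mul, ← hsm, hid]
  have hce : cc * β e = cc := by rw [hcc, mul_assoc, hid]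
  -- the trace map
  have hrf' := rfs R W B K γB lamB xB yB Q S hrf hS
  have hall : ∀ y : B, y ∈ FxR (cw R (γB.comp Q.subtype)) ⊤ := by
    intro y
    rw [mem_cwQ]
    intro q _
    exact hq q q.2 y
  have htr := trs R Q B (K × S) (γB.comp Q.subtype) lamB _ _ hrf'
  let f : B →+ B :=
    { toFun := fun z => ∑ p : K × S, xB p.1 * γB p.2 * z * (γB (p.2 : W)⁻¹ * yB p.1)
      map_zero' := by simp
      map_add' := by
        intro a a'
        simp only [mul_add, add_mul, Finset.sum_add_distrib] }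
  have hf : ∀ z, f z = ∑ p : K × S, xB p.1 * γB p.2 * z * (γB (p.2 : W)⁻¹ * yB p.1) :=
    fun z => rfl
  have hfs : ∀ x y, f (x * y) = f (y * x) := by
    intro x y
    rw [hf, hf]
    exact htr x (hall x) y (hall y)
  have hz : ∀ z : B, ℓ • z = 0 := by
    intro z
    rw [← Nat.cast_smul_eq_nsmul R, hℓ, zero_smul]
  have hv := van ℓ W (W ⧸ Q) B B γB (QuotientGroup.mk' Q) (cj γB cc) f (hp.to_quotient Q) hz hfs
    (QuotientGroup.mk'_surjective Q) ?_ ?_ w ?_
  · have h1 : cj γB cc (1 : W ⧸ Q) = cc := by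
      have h2 := cj_mk hq cc (1 : W)
      rw [map_one, one_mul, inv_one, map_one, mul_one] at h2
      exact h2
    rw [h1, hf, Fintype.sum_prod_type] at hv
    rw [← hv, Finset.mul_sum]
    refine Finset.sum_congr rfl fun k _ => ?_
    calc β e * (xB k * γB w * yB k) = xB k * γB w * β e * yB k := by
          rw [← mul_assoc, hcen]
      _ = xB k * γB w * (∑ t ∈ S, γB t * cc * γB t⁻¹) * yB k := by rw [hcS]
      _ = ∑ t ∈ S, xB k * γB t * (γB w * cc) * (γB (t : W)⁻¹ * yB k) := by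
          rw [Finset.mul_sum, Finset.sum_mul]
          refine Finset.sum_congr rfl fun t _ => ?_
          have h3 : γB w * γB t = γB t * γB w := by rw [← map_mul, ← map_mul, mul_comm]
          calc xB k * γB w * (γB t * cc * γB t⁻¹) * yB k
              = xB k * (γB w * γB t) * cc * γB t⁻¹ * yB k := by simp only [mul_assoc]
            _ = xB k * (γB t * γB w) * cc * γB t⁻¹ * yB k := by rw [h3]
            _ = _ := by simp only [mul_assoc]
      _ = _ := (Finset.sum_coe_sort S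
          (fun t => xB k * γB t * (γB w * cc) * (γB (t : W)⁻¹ * yB k))).symm
  · intro v g
    obtain ⟨t, rfl⟩ := QuotientGroup.mk_surjective g
    have h1 : QuotientGroup.mk' Q v * (t : W ⧸ Q) = ((v * t : W) : W ⧸ Q) := rfl
    rw [h1, cj_mk hq, cj_mk hq, mul_inv_rev, map_mul, map_mul]
    simp only [mul_assoc]
  · rw [cj_sum hq cc hS, hcS]
    have h2 := cj_mk hq cc (1 : W)
    rw [map_one, one_mul, inv_one, map_one, mul_one] at h2
    have h3 : cj γB cc (1 : W ⧸ Q) = cc := h2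
    rw [h3, hce]
  · intro h
    exact hw ((QuotientGroup.eq_one_iff w).mp h)

end Pool.Agent.PSS.S3.H92
end
end -- Pool.Agent.Helper92_PSS.BLS

section -- Pool.Agent.Helper30_PSS.S3All

/-!
# Squad PSS, blocks S0 and S3 without hypotheses
-/

set_option autoImplicit false

namespace Pool.Agent.PSS.All30

open Pool.Agent.PSS

theorem bkf : S0.BkfStmt := S0.H63.bkf
theorem fpx : S0.FpxStmt := H20.fpx
theorem fco : S0.FcoStmt := S0.H92.fco
theorem fbk : S0.FbkStmt := S0.H77.fbk fpx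
theorem ftr : S0.FtrStmt := H52.ftr fco fpx
theorem bki : S0.BkiStmt := S0.H6.bki
theorem res : S0.ResStmt := H91.res
theorem rfd : S0.RfdStmt := S0.H10.rfd
theorem ind : S0.IndStmt := S0.H95.ind
theorem zrt : S0.ZrtStmt := S0.H80.zrt
theorem trs : S0.TrsStmt := S0.H5.trs
theorem rfs : S0.RfsStmt := S0.H52.rfs
theorem rfo : S0.RfoStmt := S0.H41.rfo
theorem bqx : S0.BqxStmt := S0.H70.bqx
theorem lmb : S0.LmbStmt := H21.LMB.lmb
theorem sfq : S0.SfqStmt := S0.H70.sfq
theorem mck : S0.MckStmt := H64.mck rfd ind rfo sfq fpx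
theorem bpu : S0.BpuStmt := H65.bpu sfq lmb rfd rfo
theorem bbk : S0.BbkStmt := S0.H62.bbk fco fbk sfq lmb rfd
theorem bcl : S0.BclStmt := S0.H84.bcl mck bpu bbk
theorem van : S3.VanStmt := H28.van
theorem bls : S3.BlsStmt := S3.H92.bls van ftr rfs trs
theorem div : S3.DivStmt := S3.H5.div rfs ind
theorem rdx : S3.RdxStmt := S3.H63.rdx
theorem qbk : S3.QbkStmt := S3.H41.qbk
theorem tfx : S3.TfxStmt := S3.H27.tfx fco fbk
theorem unx : S3.UnxStmt := S3.H63.unx
theorem idn : S3.IdnStmt := S3.H13.idn bki fco fbk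
theorem unw : S3.UnwStmt := H10.unw div rdx qbk tfx unx idn mck bqx bpu zrt bki bkf res
theorem prq : S3.PrqStmt := S3.H41.prq qbk tfx bcl bpu mck res fco fpx zrt
theorem gfb : S3.GfbStmt := H64.gfb
theorem gfq : S3.GfqStmt := H91.Gfq.gfq gfb fpx lmb
theorem blk : S3.BlkStmt := H28.blk bls unw prq gfb gfq bqx fco fbk

/-- THE GENERIC FIBRE IS IN THE CLASS (block S3 of (S)) -/
theorem gfc : S3.GfcStmt := H22.gfc blk gfb

/-- THE GENERIC FIBRE IS IN THE CLASS, general form (block S3 of (S+)) -/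
theorem gfp : S3.GfpStmt := S3.H30.gfp bls gfb gfq bqx bpu mck zrt fco fbk

end Pool.Agent.PSS.All30
end -- Pool.Agent.Helper30_PSS.S3All
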