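import Pool.Agent.Helper12_AWB.B025
import Pool.Agent.Helper12_AWB.B033

/-!
# Merged copies (generated) of the modules

* `Pool.Agent.Helper11_PST.PWR`
* `Pool.Agent.Helper20_PST.EGC`
* `Pool.Agent.Helper27_PST.EGX`
* `Pool.Agent.Helper40_PSS.WWL`
* `Pool.Agent.Helper40_PST.QWV`
* `Pool.Agent.Helper61_PST.AVX`
* `Pool.Agent.Helper61_PST.TIN`
* `Pool.Agent.Helper62_PST.YBR`
* `Pool.Agent.Helper69_PST.LGD`
* `Pool.Agent.Helper75_PST.DRR`
* `Pool.Agent.Helper75_PST.FOX`
* `Pool.Agent.Helper75_PST.NSM`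
* `Pool.Agent.Helper77_PST.DRG`
* `Pool.Agent.Helper77_PST.DUL`
* `Pool.Agent.Helper77_PST.HLF`
* `Pool.Agent.Helper85_PST.DGX`
* `Pool.Agent.Helper92_PST.SPT`
* `Pool.Agent.PST.AsmDR`
-/

set_option autoImplicit false

section -- Pool.Agent.Helper11_PST.PWR

/-!
# Squad PST, row PWR: powers in the ring of a deformation, to first order
-/

open scoped BigOperators

noncomputable section

namespace Pool.Agent.PST.H11

open Pool.Agent.PSS Finset

section

variable {k A W : Type} [CommRing k] [Ring A] [Algebra k A] [Group W] {om : W →* A}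
  (D : Dm k om)

theorem sq_mul (x y : D.R) : D.sq (x * y) = D.mul (D.sq x) (D.sq y) := by
  have h := D.of_mul (D.sq x) (D.sq y)
  rw [D.of_sq, D.of_sq] at h
  rw [← h, D.sq_of]

theorem mul_z (f g : ℕ → A) : D.mul f g 0 = f 0 * g 0 := by
  simp [Dm.mul, D.m0]

theorem mul_o (f g : ℕ → A) :
    D.mul f g 1 = f 0 * g 1 + f 1 * g 0 + D.m 1 (f 0) (g 0) := by
  rw [Dm.mul, Finset.Nat.sum_antidiagonal_eq_sum_range_succ
    (fun a b => ∑ q ∈ antidiagonal b, D.m a (f q.1) (g q.2)), Finset.sum_range_succ,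
    Finset.sum_range_one]
  simp only [Nat.sub_zero, Nat.sub_self]
  rw [Finset.Nat.sum_antidiagonal_eq_sum_range_succ (fun a b => D.m 0 (f a) (g b)),
    Finset.sum_range_succ, Finset.sum_range_one]
  simp [D.m0]

theorem smulq_X (g : ℕ → A) (n : ℕ) :
    Dm.smulq (PowerSeries.X : PowerSeries k) g (n + 1) = g n := by
  rw [Dm.smulq, Finset.sum_eq_single (1, n)]
  · rw [PowerSeries.coeff_one_X, one_smul]
  · rintro ⟨a, b⟩ h hne
    rw [Finset.HasAntidiagonal.mem_antidiagonal] at h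
    rw [PowerSeries.coeff_X, if_neg, zero_smul]
    intro h1
    apply hne
    simp only at h h1
    rw [h1] at h ⊢
    have : b = n := by omega
    rw [this]
  · intro h
    exact absurd (by rw [Finset.HasAntidiagonal.mem_antidiagonal]; exact Nat.add_comm 1 n) h

theorem smulq_X0 (g : ℕ → A) : Dm.smulq (PowerSeries.X : PowerSeries k) g 0 = 0 := by
  simp [Dm.smulq]

end

theorem pwr : PwrStmt := by
  intro k A W _ _ _ _ om D a a₁ h h₁ n
  have hp : ∀ n : ℕ,
      D.sq (D.of (fun i => if i = 0 then a else if i = 1 then - h else 0) ^ n) 0 = a ^ n ∧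
      D.sq (D.of (fun i => if i = 0 then a else if i = 1 then - h else 0) ^ n) 1 =
        ∑ i ∈ Finset.range n, (D.m 1 (a ^ i) a - a ^ i * h) * a ^ (n - 1 - i) := by
    intro n
    induction n with
    | zero =>
      rw [pow_zero, ← D.of_one, D.sq_of]
      simp [Dm.cst]
    | succ n ih =>
      obtain ⟨h0, h1⟩ := ih
      rw [pow_succ, sq_mul, mul_z, mul_o, h0, h1, D.sq_of]
      simp only [if_true, one_ne_zero, if_false]
      refine ⟨(pow_succ a n).symm, ?_⟩
      rw [Finset.sum_range_succ, Finset.sum_mul]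
      have h2 : ∀ i ∈ Finset.range n, (D.m 1 (a ^ i) a - a ^ i * h) * a ^ (n - 1 - i) * a =
          (D.m 1 (a ^ i) a - a ^ i * h) * a ^ (n + 1 - 1 - i) := by
        intro i hi
        rw [Finset.mem_range] at hi
        rw [mul_assoc, ← pow_succ]
        have : n - 1 - i + 1 = n + 1 - 1 - i := by omega
        rw [this]
      rw [Finset.sum_congr rfl h2, Nat.add_sub_cancel, Nat.sub_self, pow_zero, mul_one]
      rw [mul_neg]
      abel
  refine ⟨?_, (hp n).1, (hp n).2, ?_, ?_⟩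
  · intro f hf
    refine ⟨D.of (fun n => f (n + 1)), ?_, ?_, ?_⟩
    · rw [← D.of_smul]
      congr 1
      funext n
      rcases n with _ | n
      · rw [smulq_X0, hf]
      · rw [smulq_X]
    · rw [D.sq_of]
    · rw [D.sq_of]
  · rw [sq_mul, mul_z, D.sq_of, D.sq_of]
    simp only [if_true]
  · rw [sq_mul, mul_o, D.sq_of, D.sq_of]
    simp only [if_true, one_ne_zero, if_false]
    rw [mul_neg, neg_mul]
    abel

end Pool.Agent.PST.H11
end
end -- Pool.Agent.Helper11_PST.PWR

section -- Pool.Agent.Helper20_PST.EGC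

/-!
# Squad PST, block DR, row EGC: the additive functions on `V / W` have a basis of eigenvectors
-/

set_option autoImplicit false

open scoped BigOperators

noncomputable section

namespace Pool.Agent.PST.H20

open Pool.Agent.PSS

/-- commuting semisimple operators over an algebraically closed field: the joint eigenvectors span -/
theorem jspan {K M ι : Type} [Field K] [IsAlgClosed K] [AddCommGroup M] [Module K M]
    [FiniteDimensional K M] (T : ι → Module.End K M) (hc : ∀ i j, Commute (T i) (T j))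
    (hs : ∀ i, (T i).IsSemisimple) :
    Submodule.span K {x : M | ∃ χ : ι → K, ∀ i, T i x = χ i • x} = ⊤ := by
  have h1 := Module.End.iSup_iInf_maxGenEigenspace_eq_top_of_iSup_maxGenEigenspace_eq_top_of_commute
    T (fun i j _ => hc i j) (fun i => Module.End.iSup_maxGenEigenspace_eq_top (T i))
  rw [eq_top_iff, ← h1]
  refine iSup_le fun χ x hx => ?_
  refine Submodule.subset_span ⟨χ, fun i => ?_⟩
  have h2 : x ∈ (T i).maxGenEigenspace (χ i) := (Submodule.mem_iInf _).1 hx i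
  rw [(hs i).isFinitelySemisimple.maxGenEigenspace_eq_eigenspace] at h2
  exact Module.End.mem_eigenspace_iff.1 h2

/-- an operator of finite order prime to the characteristic is semisimple -/
theorem ssm {K M : Type} [Field K] (ℓ : ℕ) [CharP K ℓ] [AddCommGroup M] [Module K M] [FiniteDimensional K M]
    (T : Module.End K M) (n : ℕ) (hn : ¬ ℓ ∣ n) (hT : T ^ n = 1) : T.IsSemisimple := by
  have h1 : (Polynomial.X ^ n - Polynomial.C (1 : K)).Separable :=
    Polynomial.separable_X_pow_sub_C' ℓ n 1 hn one_ne_zero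
  refine Module.End.isSemisimple_of_squarefree_aeval_eq_zero h1.squarefree ?_
  simp [hT]

/-- the additive functions which vanish on `W` -/
def Hw (F : Type) {V : Type} [Field F] [CommGroup V] (W : Subgroup V) : Submodule F (V → F) where
  carrier := {μ | (∀ u v, μ (u * v) = μ u + μ v) ∧ ∀ w ∈ W, μ w = 0}
  zero_mem' := ⟨fun u v => by simp, fun w _ => by simp⟩
  add_mem' := by
    intro a b ha hb
    refine ⟨fun u v => ?_, fun w hw => ?_⟩
    · simp only [Pi.add_apply]
      rw [ha.1, hb.1]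
      ring
    · simp only [Pi.add_apply]
      rw [ha.2 w hw, hb.2 w hw, add_zero]
  smul_mem' := by
    intro c a ha
    refine ⟨fun u v => ?_, fun w hw => ?_⟩
    · simp only [Pi.smul_apply, smul_eq_mul]
      rw [ha.1]
      ring
    · simp only [Pi.smul_apply, smul_eq_mul]
      rw [ha.2 w hw, mul_zero]

theorem mem_Hw {F V : Type} [Field F] [CommGroup V] {W : Subgroup V} {μ : V → F} :
    μ ∈ Hw F W ↔ (∀ u v, μ (u * v) = μ u + μ v) ∧ ∀ w ∈ W, μ w = 0 := Iff.rfl

/-- the operator `μ ↦ μ ∘ φ e` -/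
def Te {F V E : Type} [Field F] [CommGroup V] [Group E] (φ : E →* MulAut V) (W : Subgroup V)
    (hW : Stb φ W) (e : E) : Module.End F (Hw F W) where
  toFun μ := ⟨fun v => μ.1 (φ e v), fun u v => by
      change μ.1 (φ e (u * v)) = _
      rw [map_mul, (mem_Hw.1 μ.2).1], fun w hw => (mem_Hw.1 μ.2).2 _ (hW e w hw)⟩
  map_add' a b := by
    apply Subtype.ext
    funext v
    rfl
  map_smul' c a := by
    apply Subtype.ext
    funext v
    rfl

theorem te_ap {F V E : Type} [Field F] [CommGroup V] [Group E] (φ : E →* MulAut V)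
    (W : Subgroup V) (hW : Stb φ W) (e : E) (μ : Hw F W) (v : V) :
    (Te φ W hW e μ).1 v = μ.1 (φ e v) := rfl

theorem te_one {F V E : Type} [Field F] [CommGroup V] [Group E] (φ : E →* MulAut V)
    (W : Subgroup V) (hW : Stb φ W) : Te (F := F) φ W hW 1 = 1 := by
  apply LinearMap.ext
  intro μ
  apply Subtype.ext
  funext v
  rw [te_ap, map_one]
  rfl

theorem te_mul {F V E : Type} [Field F] [CommGroup V] [Group E] (φ : E →* MulAut V)
    (W : Subgroup V) (hW : Stb φ W) (e f : E) :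
    Te (F := F) φ W hW (e * f) = Te φ W hW f * Te φ W hW e := by
  apply LinearMap.ext
  intro μ
  apply Subtype.ext
  funext v
  rw [te_ap, map_mul]
  rfl

theorem te_pow {F V E : Type} [Field F] [CommGroup V] [Group E] (φ : E →* MulAut V)
    (W : Subgroup V) (hW : Stb φ W) (e : E) (n : ℕ) :
    Te (F := F) φ W hW (e ^ n) = Te φ W hW e ^ n := by
  induction n with
  | zero => rw [pow_zero, pow_zero, te_one]
  | succ n ih => rw [pow_succ, te_mul, ih, pow_succ']

theorem te_com {F V E : Type} [Field F] [CommGroup V] [Group E] (φ : E →* MulAut V)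
    (W : Subgroup V) (hW : Stb φ W) (hc : ∀ e f v, φ (e * f) v * (φ (f * e) v)⁻¹ ∈ W) (e f : E) :
    Commute (Te (F := F) φ W hW e) (Te φ W hW f) := by
  have h : Te (F := F) φ W hW (f * e) = Te φ W hW (e * f) := by
    apply LinearMap.ext
    intro μ
    apply Subtype.ext
    funext v
    rw [te_ap, te_ap]
    have h1 := (mem_Hw.1 μ.2).2 _ (hc f e v)
    have h2 := (mem_Hw.1 μ.2).1 (φ (f * e) v * (φ (e * f) v)⁻¹) (φ (e * f) v)
    rw [inv_mul_cancel_right, h1, zero_add] at h2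
    exact h2
  rw [te_mul, te_mul] at h
  exact h

/-- row EGC -/
theorem egc : EgcStmt := by
  intro ℓ iℓ F V E iF iA iC iV iFV iE iFE φ W hE hW hc
  have hcom := te_com (F := F) φ W hW hc
  have hss : ∀ e, (Te (F := F) φ W hW e).IsSemisimple := by
    intro e
    refine ssm ℓ _ (Nat.card E) hE ?_
    rw [← te_pow, pow_card_eq_one', te_one]
  have hsp := jspan (fun e => Te (F := F) φ W hW e) hcom hss
  obtain ⟨b, hbs, hspan, hlin⟩ := exists_linearIndependent F
    {x : Hw F W | ∃ χ : E → F, ∀ i, Te (F := F) φ W hW i x = χ i • x}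
  rw [hsp] at hspan
  have hfin : Finite b := hlin.finite
  obtain ⟨r, ⟨eq⟩⟩ := Finite.exists_equiv_fin b
  have hx : ∀ l : Fin r, ∃ χ : E → F, ∀ i, Te (F := F) φ W hW i (eq.symm l).1 =
      χ i • (eq.symm l).1 := fun l => hbs (eq.symm l).2
  choose χ hχ using hx
  have hli : LinearIndependent F (fun l : Fin r => (eq.symm l).1.1) := by
    have h1 : LinearIndependent F (fun l : Fin r => (eq.symm l).1) :=
      hlin.comp eq.symm eq.symm.injective
    exact h1.map' (Hw F W).subtype (Submodule.ker_subtype _)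
  have hne : ∀ l, (eq.symm l).1.1 ≠ 0 := fun l => hli.ne_zero l
  have hwt : ∀ l e v, (eq.symm l).1.1 (φ e v) = χ l e * (eq.symm l).1.1 v := by
    intro l e v
    have h1 := congrArg (fun x : Hw F W => x.1 v) (hχ l e)
    exact h1
  refine ⟨r, fun l => (eq.symm l).1.1, χ, fun l => (mem_Hw.1 (eq.symm l).1.2).1,
    fun l => (mem_Hw.1 (eq.symm l).1.2).2, hwt, ?_, ?_, hli, ?_⟩
  · intro l e f
    obtain ⟨v, hv⟩ := Function.ne_iff.1 (hne l)
    have hv' : (eq.symm l).1.1 v ≠ 0 := hv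
    have h1 := hwt l (e * f) v
    rw [map_mul, MulAut.mul_apply, hwt, hwt, ← mul_assoc] at h1
    exact (mul_right_cancel₀ hv' h1).symm
  · intro l
    obtain ⟨v, hv⟩ := Function.ne_iff.1 (hne l)
    have hv' : (eq.symm l).1.1 v ≠ 0 := hv
    have h1 := hwt l 1 v
    rw [map_one, MulAut.one_apply] at h1
    have h2 : (1 : F) * (eq.symm l).1.1 v = χ l 1 * (eq.symm l).1.1 v := by
      rw [one_mul]
      exact h1
    exact (mul_right_cancel₀ hv' h2).symm
  · intro μ hμ hμW
    have h1 : (⟨μ, hμ, hμW⟩ : Hw F W) ∈ Submodule.span F (Set.range fun l : Fin r => (eq.symm l).1) := by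
      have h2 : Set.range (fun l : Fin r => (eq.symm l).1) = b := by
        have h3 : (fun l : Fin r => (eq.symm l).1) = (Subtype.val : b → Hw F W) ∘ eq.symm := rfl
        rw [h3, Set.range_comp, eq.symm.surjective.range_eq, Set.image_univ, Subtype.range_coe]
      rw [h2, hspan]
      exact Submodule.mem_top
    obtain ⟨a, ha⟩ := (Submodule.mem_span_range_iff_exists_fun F).1 h1
    refine ⟨a, fun v => ?_⟩
    have h2 := congrArg (fun x : Hw F W => (Hw F W).subtype x v) ha
    simp only [map_sum, map_smul, Finset.sum_apply, Pi.smul_apply, smul_eq_mul] at h2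
    exact h2.symm

end Pool.Agent.PST.H20
end
end -- Pool.Agent.Helper20_PST.EGC

section -- Pool.Agent.Helper27_PST.EGX

set_option autoImplicit false

namespace Pool.Agent.PST.H27

theorem egx (egc : EgcStmt) (spt : SptStmt) (dul : DulStmt) (avx : AvxStmt) (tin : TinStmt) :
    EgxStmt := by
  classical
  intro ℓ _ F V E _ _ _ _ _ _ _ φ W Q hE hW hQ hl hc hVQ
  obtain ⟨r, la, χ, hadd, hker, hwt, hchm, hch1, hli, hspan⟩ := egc ℓ F V E φ W hE hW hc
  obtain ⟨xx', hs', hx'⟩ := dul F V W Q r la hadd hker hli hVQ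
  obtain ⟨xx, hs, h0, hx, he⟩ := avx ℓ F V E φ Q r la χ xx' hE hQ hadd hwt hchm hch1 hs' hx'
  obtain ⟨t, ht0, htj⟩ := tin F r
  refine ⟨r, la, χ, xx, t, ⟨hadd, fun v => ⟨fun hv l => hker l v hv, fun h => ?_⟩, hwt, hchm, hch1,
    hs, h0, hx, he, fun μ hμ hμW v => ?_, ht0, htj⟩⟩
  · by_contra hv
    obtain ⟨μ, h1, h2, h3⟩ := spt ℓ F V W hl v hv
    obtain ⟨a, ha⟩ := hspan μ h1 h2
    refine h3 ?_
    rw [ha v]
    exact Finset.sum_eq_zero fun l _ => by rw [h l, mul_zero]
  · obtain ⟨a, ha⟩ := hspan μ hμ hμW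
    rw [ha v]
    refine Finset.sum_congr rfl fun l _ => ?_
    congr 1
    calc a l = ∑ n, a n * (if l = n then 1 else 0) := by
          simp [Finset.sum_ite_eq]
      _ = ∑ n, a n * ∑ u, xx l u * la n u := by
          refine Finset.sum_congr rfl fun n _ => ?_
          rw [hx l n]
      _ = ∑ u, xx l u * μ u := by
          simp only [ha, Finset.mul_sum]
          rw [Finset.sum_comm]
          refine Finset.sum_congr rfl fun u _ => Finset.sum_congr rfl fun n _ => ?_
          ring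

end Pool.Agent.PST.H27
end -- Pool.Agent.Helper27_PST.EGX

section -- Pool.Agent.Helper40_PSS.WWL

/-!
# Squad PSS, row WWL (helper40): a map which is linear modulo `q`
-/

open scoped BigOperators

noncomputable section

namespace Pool.Agent.PSS.S2.H40

open Pool.Agent.PFD.D2b (FrR)
open Finset

theorem cg_refl {R M : Type} [CommRing R] [AddCommGroup M] [Module R M] (q : R) (a : M) :
    Cg q a a := ⟨0, by simp⟩

theorem cg_symm {R M : Type} [CommRing R] [AddCommGroup M] [Module R M] {q : R} {a b : M}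
    (h : Cg q a b) : Cg q b a := by
  obtain ⟨d, hd⟩ := h
  exact ⟨-d, by rw [smul_neg, ← hd, neg_sub]⟩

theorem cg_trans {R M : Type} [CommRing R] [AddCommGroup M] [Module R M] {q : R} {a b c : M}
    (h : Cg q a b) (h' : Cg q b c) : Cg q a c := by
  obtain ⟨d, hd⟩ := h
  obtain ⟨e, he⟩ := h'
  exact ⟨d + e, by rw [smul_add, ← hd, ← he, sub_add_sub_cancel]⟩

theorem cg_map {R M N : Type} [CommRing R] [AddCommGroup M] [Module R M] [AddCommGroup N]
    [Module R N] {q : R} {a b : M} (f : M →ₗ[R] N) (h : Cg q a b) : Cg q (f a) (f b) := by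
  obtain ⟨d, hd⟩ := h
  exact ⟨f d, by rw [← map_sub, hd, map_smul]⟩

theorem cg_sum {R M ι : Type} [CommRing R] [AddCommGroup M] [Module R M] {q : R}
    (s : Finset ι) {f g : ι → M} (h : ∀ i ∈ s, Cg q (f i) (g i)) :
    Cg q (∑ i ∈ s, f i) (∑ i ∈ s, g i) := by
  classical
  induction s using Finset.induction_on with
  | empty => exact ⟨0, by simp⟩
  | insert a s ha ih =>
    obtain ⟨d, hd⟩ := h a (mem_insert_self a s)
    obtain ⟨e, he⟩ := ih fun i hi => h i (mem_insert_of_mem hi)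
    refine ⟨d + e, ?_⟩
    rw [sum_insert ha, sum_insert ha, smul_add, ← hd, ← he]
    abel

/-- WWL -/
theorem wwl : WwlStmt := by
  intro R V A Ω _ _ _ _ _ _ q α b c W G hfr hG
  classical
  obtain ⟨h1, h2, h3⟩ := hfr
  -- the map modulo `q`
  have hbw : ∀ (g : V × V) (a : A), bw R α g a = α g.1 * (a * α g.2⁻¹) := fun g a => rfl
  have hGs : ∀ g : V × V, g.1 ∈ W → g.2 ∈ W → ∀ a, Cg q (G (bw R α g a)) (bw R α g (G a)) := by
    intro g hg1 hg2 a
    rw [hbw, hbw]
    refine cg_trans (hG g.1 hg1 _).1 ?_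
    exact cg_map (LinearMap.mulLeft R (α g.1)) (hG g.2⁻¹ (W.inv_mem hg2) a).2
  -- the coefficients
  let r : Ω × Ω → R := fun p => c p.1 (G (b p.2))
  have hr : ∀ g : V × V, g.1 ∈ W → g.2 ∈ W → ∀ p : Ω × Ω,
      Cg q (r (g • p.1, g • p.2)) (r p) := by
    intro g hg1 hg2 p
    show Cg q (c (g • p.1) (G (b (g • p.2)))) (c p.1 (G (b p.2)))
    rw [h1, ← h2 g p.1 (G (b p.2))]
    exact cg_map (c (g • p.1)) (hGs g hg1 hg2 (b p.2))
  -- the orbits
  let S : Setoid (Ω × Ω) :=
    { r := fun p p' => ∃ g : V × V, g.1 ∈ W ∧ g.2 ∈ W ∧ (g • p.1, g • p.2) = p'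
      iseqv := by
        constructor
        · intro p
          exact ⟨1, W.one_mem, W.one_mem, by rw [one_smul, one_smul]⟩
        · rintro p p' ⟨g, hg1, hg2, rfl⟩
          exact ⟨g⁻¹, W.inv_mem hg1, W.inv_mem hg2, by
            rw [inv_smul_smul, inv_smul_smul]⟩
        · rintro p p' p'' ⟨g, hg1, hg2, rfl⟩ ⟨g', hg1', hg2', rfl⟩
          exact ⟨g' * g, W.mul_mem hg1' hg1, W.mul_mem hg2' hg2, by
            rw [mul_smul, mul_smul]⟩ }
  let r' : Ω × Ω → R := fun p => r (Quotient.out (Quotient.mk S p))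
  have hr1 : ∀ p, Cg q (r' p) (r p) := by
    intro p
    have h := Quotient.exact (Quotient.out_eq (Quotient.mk S p))
    obtain ⟨g, hg1, hg2, hg⟩ := S.symm h
    show Cg q (r (Quotient.out (Quotient.mk S p))) (r p)
    rw [← hg]
    exact hr g hg1 hg2 p
  have hr2 : ∀ g : V × V, g.1 ∈ W → g.2 ∈ W → ∀ p : Ω × Ω, r' (g • p.1, g • p.2) = r' p := by
    intro g hg1 hg2 p
    show r (Quotient.out (Quotient.mk S (g • p.1, g • p.2))) = r (Quotient.out (Quotient.mk S p))
    have h : Quotient.mk S p = Quotient.mk S (g • p.1, g • p.2) :=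
      Quotient.sound ⟨g, hg1, hg2, rfl⟩
    rw [h]
  let v : A →ₗ[R] A := ∑ ω, ∑ η, (c ω).smulRight (r' (η, ω) • b η)
  have hv : ∀ a, v a = ∑ ω, ∑ η, (c ω a * r' (η, ω)) • b η := by
    intro a
    show (∑ ω, ∑ η, (c ω).smulRight (r' (η, ω) • b η)) a = _
    simp [LinearMap.sum_apply, smul_smul]
  have hvs : ∀ g : V × V, g.1 ∈ W → g.2 ∈ W → ∀ a, v (bw R α g a) = bw R α g (v a) := by
    intro g hg1 hg2 a
    rw [hv, hv]
    rw [← Equiv.sum_comp (MulAction.toPerm g)]
    rw [map_sum]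
    apply sum_congr rfl
    intro ω _
    rw [← Equiv.sum_comp (MulAction.toPerm g), map_sum]
    apply sum_congr rfl
    intro η _
    show (c (g • ω) (bw R α g a) * r' (g • η, g • ω)) • b (g • η) =
      bw R α g ((c ω a * r' (η, ω)) • b η)
    rw [h2, h1, hr2 g hg1 hg2 (η, ω), map_smul]
  refine ⟨v, ?_, ?_⟩
  · intro w hw a
    constructor
    · have h := hvs (w, 1) hw W.one_mem a
      rw [hbw, hbw, inv_one, map_one, mul_one, mul_one] at h
      exact h
    · have h := hvs (1, w⁻¹) W.one_mem (W.inv_mem hw) a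
      rw [hbw, hbw, inv_inv, map_one, one_mul, one_mul] at h
      exact h
  · intro a
    have h : G a = ∑ ω, ∑ η, (c ω a * r (η, ω)) • b η := by
      conv_lhs => rw [← h3 a]
      rw [map_sum]
      apply sum_congr rfl
      intro ω _
      rw [map_smul]
      conv_lhs => rw [← h3 (G (b ω))]
      rw [smul_sum]
      apply sum_congr rfl
      intro η _
      rw [smul_smul]
    rw [hv, h]
    apply cg_sum
    intro ω _
    apply cg_sum
    intro η _
    obtain ⟨d, hd⟩ := hr1 (η, ω)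
    refine ⟨(c ω a * d) • b η, ?_⟩
    rw [← sub_smul, ← mul_sub, hd, smul_eq_mul, smul_smul]
    congr 1
    ring

end Pool.Agent.PSS.S2.H40
end
end -- Pool.Agent.Helper40_PSS.WWL

section -- Pool.Agent.Helper40_PST.QWV

/-! Row QWV of squad PST: the fixed points of the centraliser of `V / W` (helper40). -/

open scoped BigOperators

noncomputable section

namespace Pool.Agent.PST.H40

open Pool.Agent.PSS
open Pool.Agent.PST

/-- the operators which act trivially on `V / W` -/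
def KW {V E : Type} [CommGroup V] [Group E] (φ : E →* MulAut V) (W : Subgroup V) : Subgroup E where
  carrier := {e | ∀ u, φ e u * u⁻¹ ∈ W}
  one_mem' := fun u => by
    rw [map_one, MulAut.one_apply, mul_inv_cancel]
    exact W.one_mem
  mul_mem' := by
    intro e f he hf u
    have h : φ (e * f) u * u⁻¹ = φ e (φ f u) * (φ f u)⁻¹ * (φ f u * u⁻¹) := by
      rw [map_mul, MulAut.mul_apply, mul_assoc, inv_mul_cancel_left]
    rw [h]
    exact W.mul_mem (he _) (hf u)
  inv_mem' := by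
    intro e he u
    have h := W.inv_mem (he (φ e⁻¹ u))
    rw [← MulAut.mul_apply, ← map_mul, mul_inv_cancel, map_one, MulAut.one_apply, mul_inv_rev,
      inv_inv] at h
    exact h

theorem qwv : QwvStmt := by
  intro ℓ _ V E _ _ _ _ φ W hV hE hW
  classical
  constructor
  · intro f v hv e he
    have h1 : ∀ u, φ (f⁻¹ * e * f) u * u⁻¹ ∈ W := by
      intro u
      have h2 := hW f⁻¹ _ (he (φ f u))
      have h5 : φ f⁻¹ (φ e (φ f u) * (φ f u)⁻¹) = φ (f⁻¹ * e * f) u * u⁻¹ := by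
        have h6 : φ f⁻¹ (φ f u) = u := by
          rw [← MulAut.mul_apply, ← map_mul, inv_mul_cancel, map_one, MulAut.one_apply]
        have h7 : φ (f⁻¹ * e * f) u = φ f⁻¹ (φ e (φ f u)) := by
          rw [map_mul φ, map_mul φ, MulAut.mul_apply, MulAut.mul_apply]
        rw [map_mul (φ f⁻¹), map_inv (φ f⁻¹), h6, h7]
      rw [← h5]
      exact h2
    have h3 := hv _ h1
    rw [map_mul, map_mul, map_inv, MulAut.mul_apply, MulAut.mul_apply] at h3
    have h4 := congrArg (φ f) h3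
    rw [← MulAut.mul_apply, mul_inv_cancel, MulAut.one_apply] at h4
    exact h4
  · intro v
    obtain ⟨n, hn⟩ := IsPGroup.iff_card.1 hV
    have hk : (Nat.card V).Coprime (Nat.card (KW φ W)) := by
      rw [hn]
      apply Nat.Coprime.pow_left
      rw [Nat.Prime.coprime_iff_not_dvd Fact.out]
      exact fun h => hE (h.trans (Subgroup.card_subgroup_dvd_card _))
    obtain ⟨v', hv'⟩ := (powCoprime hk).surjective v
    change v' ^ Nat.card (KW φ W) = v at hv'
    refine ⟨∏ e : KW φ W, φ (e : E) v', ?_, (∏ e : KW φ W, (φ (e : E) v' * v'⁻¹))⁻¹, ?_, ?_⟩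
    · intro f hf
      rw [map_prod]
      refine Fintype.prod_equiv (Equiv.mulLeft (⟨f, hf⟩ : KW φ W)) _ _ fun e => ?_
      rw [← MulAut.mul_apply, ← map_mul]
      rfl
    · exact W.inv_mem (W.prod_mem fun e _ => e.2 v')
    · rw [Finset.prod_mul_distrib, Finset.prod_const, Finset.card_univ, ← Nat.card_eq_fintype_card,
        inv_pow, hv', mul_inv_rev, inv_inv, mul_comm v, mul_inv_cancel_left]

end Pool.Agent.PST.H40
end
end -- Pool.Agent.Helper40_PST.QWV

section -- Pool.Agent.Helper61_PST.AVX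

open scoped BigOperators PowerSeries

noncomputable section

namespace Pool.Agent.PST.H61

open Pool.Agent.PFC (tw IsTv)
open Pool.Agent.PFD.D2 (Cdv FibG)
open Pool.Agent.PFD.D2b (FrR)
open Pool.Agent.PSS
open Pool.Agent.PSS.S2 (PrD Nh Cn CV)
open Pool.Agent.PST

theorem avx : AvxStmt := by
  classical
  intro ℓ _ F V E _ _ _ _ _ _ φ Q r la χ xx' hE hQ hadd hlaφ hmul hone hsup hdual
  have hcard : ((Nat.card E : ℕ) : F) ≠ 0 := by
    intro h
    exact hE ((CharP.cast_eq_zero_iff F ℓ _).1 h)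
  have hla1 : ∀ n, la n 1 = 0 := by
    intro n
    have h := hadd n 1 1
    rw [mul_one] at h
    have h2 : la n 1 + 0 = la n 1 + la n 1 := by rw [add_zero]; exact h
    exact (add_left_cancel h2).symm
  set x1 : Fin r → V → F := fun l v => xx' l v - (if v = 1 then ∑ u, xx' l u else 0) with hx1
  have hx1s : ∀ l v, v ∉ Q → x1 l v = 0 := by
    intro l v hv
    have h1 : v ≠ 1 := by
      rintro rfl
      exact hv Q.one_mem
    simp [hx1, hsup l v hv, h1]
  have hx1z : ∀ l, ∑ v, x1 l v = 0 := by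
    intro l
    simp [hx1, Finset.sum_sub_distrib]
  have hx1d : ∀ l n, ∑ v, x1 l v * la n v = if l = n then 1 else 0 := by
    intro l n
    rw [← hdual l n]
    have h1 : ∀ v, x1 l v * la n v = xx' l v * la n v := by
      intro v
      by_cases hv : v = 1
      · subst hv
        simp [hx1, hla1]
      · simp [hx1, hv]
    exact Finset.sum_congr rfl (fun v _ => h1 v)
  have hsc : ∀ (e : E) (g : V → F), ∑ v, g (φ e v) = ∑ v, g v :=
    fun e g => Equiv.sum_comp (φ e).toEquiv g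
  refine ⟨fun l v => ((Nat.card E : ℕ) : F)⁻¹ * ∑ e, χ l e * x1 l (φ e v), ?_, ?_, ?_, ?_⟩
  · intro l v hv
    have h1 : ∀ e : E, χ l e * x1 l (φ e v) = 0 := by
      intro e
      rw [hx1s l (φ e v), mul_zero]
      intro hmem
      apply hv
      have h2 := hQ e⁻¹ (φ e v) hmem
      have h3 : φ e⁻¹ (φ e v) = v := by
        rw [map_inv]
        exact (φ e).symm_apply_apply v
      rwa [h3] at h2
    simp [h1]
  · intro l
    rw [← Finset.mul_sum, Finset.sum_comm]
    have h1 : ∀ e : E, ∑ v, χ l e * x1 l (φ e v) = 0 := by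
      intro e
      rw [← Finset.mul_sum, hsc e (fun v => x1 l v), hx1z, mul_zero]
    simp [h1]
  · intro l n
    have h1 : ∀ v, (((Nat.card E : ℕ) : F)⁻¹ * ∑ e, χ l e * x1 l (φ e v)) * la n v =
        ((Nat.card E : ℕ) : F)⁻¹ * ∑ e, χ l e * χ n e⁻¹ * (x1 l (φ e v) * la n (φ e v)) := by
      intro v
      rw [mul_assoc, Finset.sum_mul]
      congr 1
      refine Finset.sum_congr rfl ?_
      intro e _
      have h2 := hlaφ n e⁻¹ (φ e v)
      have h3 : φ e⁻¹ (φ e v) = v := by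
        rw [map_inv]
        exact (φ e).symm_apply_apply v
      rw [h3] at h2
      rw [h2]
      ring
    simp_rw [h1]
    rw [← Finset.mul_sum, Finset.sum_comm]
    have h4 : ∀ e : E, ∑ v, χ l e * χ n e⁻¹ * (x1 l (φ e v) * la n (φ e v)) =
        χ l e * χ n e⁻¹ * (if l = n then 1 else 0) := by
      intro e
      rw [← Finset.mul_sum, hsc e (fun v => x1 l v * la n v), hx1d]
    simp_rw [h4]
    by_cases hln : l = n
    · subst hln
      have h5 : ∀ e : E, χ l e * χ l e⁻¹ * (if l = l then (1 : F) else 0) = 1 := by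
        intro e
        rw [if_pos rfl, mul_one, ← hmul, mul_inv_cancel, hone]
      rw [Finset.sum_congr rfl (fun e _ => h5 e), if_pos rfl, Finset.sum_const, Finset.card_univ, ← Nat.card_eq_fintype_card, nsmul_eq_mul,
        mul_one]
      exact inv_mul_cancel₀ hcard
    · simp [hln]
  · intro l f v
    show χ l f * (((Nat.card E : ℕ) : F)⁻¹ * ∑ e, χ l e * x1 l (φ e (φ f v))) = _
    rw [mul_left_comm, Finset.mul_sum]
    congr 1
    rw [← Equiv.sum_comp (Equiv.mulRight f) (fun e => χ l e * x1 l (φ e v))]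
    refine Finset.sum_congr rfl ?_
    intro e _
    simp only [Equiv.coe_mulRight]
    rw [hmul, map_mul, MulAut.mul_apply]
    ring

end Pool.Agent.PST.H61
end
end -- Pool.Agent.Helper61_PST.AVX

section -- Pool.Agent.Helper61_PST.TIN

namespace Pool.Agent.PST.H61

open Pool.Agent.PST

theorem tin : TinStmt := by
  intro F _ _ r
  have hinf : Infinite F := IsAlgClosed.instInfinite
  have h1 : ({0}ᶜ : Set F).Infinite := (Set.finite_singleton (0 : F)).infinite_compl
  obtain ⟨t, ht1, ht2⟩ := h1.exists_subset_card_eq r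
  refine ⟨fun l => ((t.equivFinOfCardEq ht2).symm l : F), ?_, ?_⟩
  · intro l h0
    exact ht1 ((t.equivFinOfCardEq ht2).symm l).2 h0
  · intro a b hab
    exact (t.equivFinOfCardEq ht2).symm.injective (Subtype.ext hab)

end Pool.Agent.PST.H61
end -- Pool.Agent.Helper61_PST.TIN

section -- Pool.Agent.Helper62_PST.YBR

/-! Squad PST (MP_6a3f1a_al), block DR, row YBR (helper62): `Y` is congruent to `X ζ`. -/

set_option autoImplicit false

open scoped BigOperators

noncomputable section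

namespace Pool.Agent.PST.H62

open Pool.Agent.PFC (tw IsTv)
open Pool.Agent.PFD.D2b (FrR)
open Pool.Agent.PSS
open Pool.Agent.PSS.S2 (PrD Nh Cn CV)

theorem nh_one {R A Ω : Type} [CommRing R] [Ring A] [Algebra R A] [Fintype Ω] (b : Ω → A)
    (c : Ω → (A →ₗ[R] R)) (h : ∀ a, ∑ ω, c ω a • b ω = a) (a : A) :
    Nh (fun _ => (1 : R)) b c a = a := by
  unfold Nh
  rw [LinearMap.sum_apply]
  refine Eq.trans (Finset.sum_congr rfl fun ω _ => ?_) (h a)
  rw [LinearMap.smulRight_apply, one_smul]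

theorem xe_cv {R V A : Type} [CommRing R] [CommGroup V] [Fintype V] [Ring A] [Algebra R A]
    (α : V →* A) (x : V → R) : CV α (Xe α x) := by
  intro v
  unfold Xe
  rw [Finset.mul_sum, Finset.sum_mul]
  refine Finset.sum_congr rfl fun u _ => ?_
  rw [mul_smul_comm, smul_mul_assoc, ← map_mul, ← map_mul, mul_comm]

theorem ybr (hDfr : DfrStmt) (hOrb : OrbStmt) (hYqt : YqtStmt) : YbrStmt := by
  classical
  intro F V E A K Ω _ _ _ _ _ _ _ _ _ φ α lam x y b c e S χ xx Q hRF hfr he hst hχ hχ1 hxe hqs hQ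
  obtain ⟨d, hd, hD⟩ := hDfr F V E A K Ω φ α lam x y b c hRF hfr (fun ω => ⟨e ω, S ω, hst ω⟩)
  set X : A := Xe α xx with hX
  have hXV : CV α X := xe_cv α xx
  -- the two sums over the orbits of `1 × V`
  have h1 := hYqt F V A K Ω α lam x y b d c (fun ω => χ (e ω)⁻¹) X hRF hfr hD hd
    (fun p ω => by
      rw [he]) hXV
  have h2 := hYqt F V A K Ω α lam x y b d c (fun _ => 1) 1 hRF hfr hD hd
    (fun p ω => rfl) (fun v => by rw [mul_one, one_mul])
  have h3 : rt x y 1 = ∑ k : Qt (V := V) Ω, b k.rep * d k.rep := by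
    unfold rt
    calc ∑ k, x k * 1 * y k = ∑ k, Nh (fun _ => (1 : F)) b c (x k) * (1 * y k) := by
          refine Finset.sum_congr rfl fun k _ => ?_
          rw [nh_one b c hfr.2.2, mul_one, one_mul]
      _ = _ := h2
      _ = _ := by
          refine Finset.sum_congr rfl fun k _ => ?_
          rw [one_smul, mul_one]
  let g : Ω → A := fun ω => χ (e ω)⁻¹ • (b ω * X * d ω) - X * (b ω * d ω)
  have hg : ∀ (u v : V) (ω : Ω), g ((u, v) • ω) = α u * g ω * α u⁻¹ := by
    intro u v ω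
    change χ (e ((u, v) • ω))⁻¹ • (b ((u, v) • ω) * X * d ((u, v) • ω)) -
      X * (b ((u, v) • ω) * d ((u, v) • ω)) =
      α u * (χ (e ω)⁻¹ • (b ω * X * d ω) - X * (b ω * d ω)) * α u⁻¹
    rw [he, hD.eb, hD.ed]
    have e1 : α u * b ω * α v⁻¹ * X * (α v * d ω * α u⁻¹) = α u * (b ω * X * d ω) * α u⁻¹ := by
      calc α u * b ω * α v⁻¹ * X * (α v * d ω * α u⁻¹)
          = α u * b ω * (α v⁻¹ * X) * (α v * d ω * α u⁻¹) := by simp only [mul_assoc]
        _ = α u * b ω * (X * α v⁻¹) * (α v * d ω * α u⁻¹) := by rw [hXV v⁻¹]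
        _ = α u * b ω * X * ((α v⁻¹ * α v) * (d ω * α u⁻¹)) := by simp only [mul_assoc]
        _ = α u * b ω * X * (d ω * α u⁻¹) := by
            rw [← map_mul, inv_mul_cancel, map_one, one_mul]
        _ = α u * (b ω * X * d ω) * α u⁻¹ := by simp only [mul_assoc]
    have e2 : X * (α u * b ω * α v⁻¹ * (α v * d ω * α u⁻¹)) =
        α u * (X * (b ω * d ω)) * α u⁻¹ := by
      calc X * (α u * b ω * α v⁻¹ * (α v * d ω * α u⁻¹))
          = X * α u * (b ω * ((α v⁻¹ * α v) * (d ω * α u⁻¹))) := by simp only [mul_assoc]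
        _ = X * α u * (b ω * (d ω * α u⁻¹)) := by
            rw [← map_mul α v⁻¹ v, inv_mul_cancel, map_one, one_mul]
        _ = α u * X * (b ω * (d ω * α u⁻¹)) := by rw [hXV u]
        _ = α u * (X * (b ω * d ω)) * α u⁻¹ := by simp only [mul_assoc]
    rw [e1, e2, mul_sub, sub_mul, mul_smul_comm, smul_mul_assoc]
  have hg1 : ∀ (k : Qt (V := V) Ω) (ω : Ω), qmk ω = k → g k.rep = g ω := by
    intro k ω hk
    have h4 : (qmk ω : Qt (V := V) Ω) = qmk k.rep := by rw [hk, Qt.mk_rep]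
    obtain ⟨v, hv⟩ := qmk_eq.1 h4
    rw [← hv, hg, map_one, one_mul, inv_one, map_one, mul_one]
  let f : Qt (V := V) Ω → A := fun k => g k.rep
  have hsum : ∑ k, Nh (fun ω => χ (e ω)⁻¹) b c (x k) * (X * y k) - X * rt x y 1 =
      ∑ k, f k := by
    rw [h1, h3, Finset.mul_sum, ← Finset.sum_sub_distrib]
  rw [hsum]
  -- the action of `Q`
  let fq : Q →* V × V := (MonoidHom.inl V V).comp Q.subtype
  let act : MulAction Q (Qt (V := V) Ω) := MulAction.compHom (Qt (V := V) Ω) fq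
  have hact : ∀ (q : Q) (k : Qt (V := V) Ω), q • k = ((q : V), (1 : V)) • k := fun _ _ => rfl
  let ρ : Q →* (A →ₗ[F] A) := (cw F α).comp Q.subtype
  have hf : ∀ (q : Q) (k : Qt (V := V) Ω), f (q • k) = ρ q (f k) := by
    intro q k
    have h5 : (qmk (((q : V), (1 : V)) • k.rep) : Qt (V := V) Ω) = q • k := by
      rw [hact, ← smul_qmk, Qt.mk_rep]
    change g (q • k).rep = α (q : V) * (g k.rep * α (q : V)⁻¹)
    rw [hg1 _ _ h5, hg, mul_assoc]
  have horb := hOrb F Q (Qt (V := V) Ω) A ρ f hf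
  have hBK : BKR ρ ⊤ = BKR (cw F α) Q := by
    have h6 := BKR_range (cw F α) (f := Q.subtype) Q.subtype_injective
    rw [Subgroup.range_subtype] at h6
    exact h6.symm
  rw [hBK] at horb
  have hz : ∀ k : Fp (Qt (V := V) Ω) (⊤ : Subgroup Q), f k.1 = 0 := by
    rintro ⟨k, hk⟩
    change g k.rep = 0
    set ω := k.rep with hω
    have h7 : ∀ v ∈ Q, ((φ (e ω) v, v) : V × V) • ω = ω := by
      intro v hv
      have h8 : (⟨φ (e ω) v, hQ _ v hv⟩ : Q) • k = k := hk (Subgroup.mem_top _)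
      rw [hact] at h8
      have h9 : (qmk ((φ (e ω) v, (1 : V)) • ω) : Qt (V := V) Ω) = qmk ω := by
        rw [← smul_qmk, hω, Qt.mk_rep]
        exact h8
      obtain ⟨v', hv'⟩ := qmk_eq.1 h9
      rw [smul_smul, Prod.mk_mul_mk, one_mul, mul_one] at hv'
      have h10 : ((φ (e ω) v, v') : V × V) ∈ MulAction.stabilizer (V × V) ω := hv'
      rw [hst ω] at h10
      obtain ⟨s, _, hs⟩ := h10
      have h11 : φ (e ω) s = φ (e ω) v := congrArg Prod.fst hs
      have h12 : s = v' := congrArg Prod.snd hs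
      have h13 : s = v := (φ (e ω)).injective h11
      rw [← h12, h13] at hv'
      exact hv'
    have h14 : ∀ v ∈ Q, b ω * α v = α (φ (e ω) v) * b ω := by
      intro v hv
      have h15 := hD.eb (φ (e ω) v) v ω
      rw [h7 v hv] at h15
      calc b ω * α v = α (φ (e ω) v) * b ω * α v⁻¹ * α v := by rw [← h15]
        _ = α (φ (e ω) v) * b ω := by
            rw [mul_assoc, ← map_mul, inv_mul_cancel, map_one, mul_one]
    have h16 : b ω * X = χ (e ω) • (X * b ω) := by
      rw [hX]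
      unfold Xe
      rw [Finset.mul_sum, Finset.sum_mul, Finset.smul_sum]
      calc ∑ v, b ω * xx v • α v
          = ∑ v, (χ (e ω) * xx (φ (e ω) v)) • (α (φ (e ω) v) * b ω) := by
            refine Finset.sum_congr rfl fun v _ => ?_
            rw [hxe]
            by_cases hv : v ∈ Q
            · rw [mul_smul_comm, h14 v hv]
            · rw [hqs v hv, zero_smul, zero_smul, mul_zero]
        _ = ∑ v, (χ (e ω) * xx v) • (α v * b ω) :=
            Equiv.sum_comp (φ (e ω)).toEquiv (fun v => (χ (e ω) * xx v) • (α v * b ω))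
        _ = ∑ v, χ (e ω) • (xx v • α v * b ω) := by
            refine Finset.sum_congr rfl fun v _ => ?_
            rw [smul_mul_assoc, smul_smul]
    change χ (e ω)⁻¹ • (b ω * X * d ω) - X * (b ω * d ω) = 0
    rw [h16, smul_mul_assoc, smul_smul, ← hχ, inv_mul_cancel, hχ1, one_smul, mul_assoc, sub_self]
  rw [Finset.sum_eq_zero (fun k _ => hz k), sub_zero] at horb
  exact horb

end Pool.Agent.PST.H62
end
end -- Pool.Agent.Helper62_PST.YBR

section -- Pool.Agent.Helper69_PST.LGD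

/-! Squad PST, block DR, row LGD. -/

open scoped BigOperators

noncomputable section

namespace Pool.Agent.PST.H69

open Pool.Agent.PFD.D2
open Pool.Agent.PFD.D2b (FrR)
open Pool.Agent.PSS
open Pool.Agent.PSS.S2

theorem qsm {R F A A' : Type} [CommRing R] [Field F] {cv : Cdv R F} [Ring A] [Algebra F A]
    [Ring A'] [Algebra R A'] (f : FibG A' A cv) (r : R) (a : A') :
    f.q (r • a) = cv.κ r • f.q a := by
  rw [Algebra.smul_def, map_mul, f.sc, ← Algebra.smul_def]

theorem qpi {R F A A' : Type} [CommRing R] [Field F] {cv : Cdv R F} [Ring A] [Algebra F A]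
    [Ring A'] [Algebra R A'] (f : FibG A' A cv) (a : A') : f.q (cv.π • a) = 0 := by
  rw [qsm, (cv.ker cv.π).2 ⟨1, (mul_one _).symm⟩, zero_smul]

theorem lgd : LgdStmt := by
  intro R F V A A' K Ω _ _ cv _ _ _ _ _ _ _ _ _ W α lam x y b c f α' lam' x' y' b' c' G hL hG hW
  obtain ⟨fr1, fr2, fr3⟩ := hL.fr
  have hb : ∀ a : A', ∑ ω, c ω (f.q a) • b ω = f.q a := by
    intro a
    conv_rhs => rw [← fr3 a, map_sum]
    refine Finset.sum_congr rfl fun ω _ => ?_
    rw [qsm, hL.qc, hL.qb]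
  choose g hg using fun ω => f.surj (G (b ω))
  obtain ⟨G', hG'⟩ : ∃ G' : A' →ₗ[R] A', ∀ a, G' a = ∑ ω, c' ω a • g ω :=
    ⟨∑ ω, (c' ω).smulRight (g ω), fun a => by simp [LinearMap.sum_apply]⟩
  have hq : ∀ a, f.q (G' a) = G (f.q a) := by
    intro a
    rw [hG', map_sum]
    conv_rhs => rw [← hb a, map_sum]
    refine Finset.sum_congr rfl fun ω _ => ?_
    rw [qsm, hL.qc, hg, map_smul]
  have hcg : ∀ s t : A', f.q s = f.q t → Cg cv.π s t := by
    intro s t h
    exact f.ker (s - t) (by rw [map_sub, h, sub_self])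
  have hG1 : G 1 = 0 := by
    have h := hG 1 1
    rw [mul_one, mul_one, one_mul] at h
    exact (add_eq_left.1 h.symm)
  obtain ⟨v₁, hv1, hv2⟩ := H40.wwl R V A' Ω cv.π α' b' c' W G' hL.fr (by
    intro w hw a
    constructor
    · apply hcg
      rw [hq, map_mul f.q, map_mul f.q, hL.qa, hG, hW w hw, zero_mul, zero_add, hq]
    · apply hcg
      rw [hq, map_mul f.q, map_mul f.q, hL.qa, hG, hW w hw, mul_zero, add_zero, hq])
  have hv3 : ∀ a, f.q (v₁ a) = G (f.q a) := by
    intro a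
    obtain ⟨d, hd⟩ := hv2 a
    have h := congrArg f.q hd
    rw [qpi, map_sub, hq] at h
    exact sub_eq_zero.1 h
  have hcm : ∀ w ∈ W, v₁ 1 * α' w = α' w * v₁ 1 := by
    intro w hw
    rw [← (hv1 w hw 1).1, ← (hv1 w hw 1).2, one_mul, mul_one]
  obtain ⟨v, hv⟩ : ∃ v : A' →ₗ[R] A', ∀ a, v a = v₁ a - v₁ 1 * a :=
    ⟨v₁ - LinearMap.mulLeft R (v₁ 1), fun a => by simp⟩
  have hvq : ∀ a, f.q (v a) = G (f.q a) := by
    intro a
    rw [hv, map_sub, map_mul, hv3, hv3, map_one, hG1, zero_mul, sub_zero]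
  refine ⟨v, hvq, ?_, ?_, ?_⟩
  · rw [hv, mul_one, sub_self]
  · intro w hw a
    constructor
    · rw [hv, hv, (hv1 w hw a).1, ← mul_assoc, hcm w hw, mul_sub, mul_assoc]
    · rw [hv, hv, (hv1 w hw a).2, ← mul_assoc, sub_mul]
  · intro a a'
    refine f.ker _ ?_
    rw [map_add, map_sub, map_mul f.q, map_mul f.q, hvq, hvq, hvq, map_mul f.q, hG]
    abel

end Pool.Agent.PST.H69
end
end -- Pool.Agent.Helper69_PST.LGD

section -- Pool.Agent.Helper75_PST.DRR

open scoped BigOperators PowerSeries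

noncomputable section

namespace Pool.Agent.PST.H75

open Pool.Agent.PFC (tw IsTv)
open Pool.Agent.PFD.D2 (Cdv FibG)
open Pool.Agent.PFD.D2b (FrR)
open Pool.Agent.PSS
open Pool.Agent.PSS.S2 (PrD Nh Cn CV)

theorem drr : DrrStmt := by
  intro qwv egx drg lgd hlf ℓ _ R F V E A A₀ κ Ω _ _ _ _ _ _ _ _ _ _ _ _ _ _ _ _ _ _ _ _ φ W cv f
    α₀ lam₀ x₀ y₀ b₀ c₀ α lam x y b c u hp hE hπ hch _ hst hfr hrf hl hu
  obtain ⟨hQ1, hQ2⟩ := qwv ℓ V E φ W hp hE hch.sw
  have hab : ∀ e f v, φ (e * f) v * (φ (f * e) v)⁻¹ ∈ W := by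
    intro e f v
    rw [map_mul, map_mul, MulAut.mul_apply, MulAut.mul_apply]
    exact hch.ab e f v
  obtain ⟨r, la, χ, xx, t, heg⟩ := egx ℓ F V E φ W (QW0 φ W) hE hch.sw hQ1 hch.pw hab hQ2
  have hu₀ : f.q u * rt x₀ y₀ 1 = 1 := by
    have h1 := congrArg f.q hu
    rw [map_mul, map_one] at h1
    have h2 : f.q (rt x y 1) = rt x₀ y₀ 1 := by
      rw [rt, rt, map_sum]
      refine Finset.sum_congr rfl fun i _ => ?_
      rw [map_mul, map_mul, map_one, hl.qx, hl.qy]
    rw [h2] at h1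
    exact h1
  obtain ⟨G, D, hD, hG1, hG2⟩ := drg F V E A₀ κ Ω φ α₀ lam₀ x₀ y₀ b₀ c₀ (f.q u) W (QW0 φ W) r la χ
    xx t hrf ⟨hfr, hst⟩ hu₀ heg hQ1
  have hGW : ∀ w ∈ W, G (α₀ w) = 0 := by
    intro w hw
    rw [hG2, hD.w0 w hw, mul_zero]
  obtain ⟨v, hv1, hv2, hv3, hv4⟩ := lgd R F V A₀ A κ Ω cv W α₀ lam₀ x₀ y₀ b₀ c₀ f α lam x y b c G
    hl hG1 hGW
  have hDW : ∀ u, ∀ w ∈ W, D (u * w) = D u := by
    intro u w hw
    rw [hD.add, hD.w0 w hw, add_zero]
  obtain ⟨h, h1, h2, h3⟩ := hlf R F V A A₀ κ Ω cv W f α₀ lam₀ x₀ y₀ b₀ c₀ α lam x y b c D hl hfr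
    hD.fx hDW
  refine ⟨r, la, χ, xx, t, D, v, h, hD, hv3, ?_, ?_, h1, h2, h3⟩
  · intro a a'
    obtain ⟨e, he⟩ := hv4 a a'
    refine ⟨-e, ?_⟩
    rw [smul_neg, ← hπ, ← he]
    abel
  · intro w
    rw [← hπ]
    apply f.ker
    rw [map_sub, hv1, map_mul, hl.qa, hG2, h3, sub_self]

end Pool.Agent.PST.H75
end
end -- Pool.Agent.Helper75_PST.DRR

section -- Pool.Agent.Helper75_PST.FOX

open scoped BigOperators PowerSeries

noncomputable section

namespace Pool.Agent.PST.H75

open Pool.Agent.PFD.D2 (Cdv FibG)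
open Pool.Agent.PFD.D2b (FrR)
open Pool.Agent.PSS
open Dm (cst)
open Finset

theorem mul_cst_right {k W A : Type} [CommRing k] [Group W] [Ring A] [Algebra k A] {om : W →* A}
    (D : Dm k om) (w : W) (f : ℕ → A) : D.mul f (cst (om w)) = fun n => f n * om w := by
  funext n
  rw [Dm.mul, Finset.sum_eq_single (0, n)]
  · rw [Finset.sum_eq_single (n, 0)]
    · simp only [cst, if_true, D.m0]
    · rintro ⟨a, b⟩ h hne
      rcases b with _ | b
      · rw [Finset.HasAntidiagonal.mem_antidiagonal] at h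
        simp only [add_zero] at h
        exact absurd (by rw [h]) hne
      · simp [cst]
    · intro h
      exact absurd (by rw [Finset.HasAntidiagonal.mem_antidiagonal]; simp) h
  · rintro ⟨a, b⟩ h hne
    rcases a with _ | a
    · rw [Finset.HasAntidiagonal.mem_antidiagonal] at h
      simp only [zero_add] at h
      exact absurd (by rw [h]) hne
    · refine Finset.sum_eq_zero fun q _ => ?_
      rw [cst]
      split_ifs
      · exact D.m_om_right a w _
      · rw [map_zero]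
  · intro h
    exact absurd (by rw [Finset.HasAntidiagonal.mem_antidiagonal]; simp) h

theorem of_mul_w {k W A : Type} [CommRing k] [Group W] [Ring A] [Algebra k A] {om : W →* A}
    (D : Dm k om) (w : W) (f : ℕ → A) : D.of f * D.w w = D.of (fun n => f n * om w) := by
  show D.of f * D.of (cst (om w)) = _
  rw [← D.of_mul, mul_cst_right]

theorem of_sub' {k W A : Type} [CommRing k] [Group W] [Ring A] [Algebra k A] {om : W →* A}
    (D : Dm k om) (f g : ℕ → A) : D.of (fun n => f n - g n) = D.of f - D.of g := by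
  have h : (fun n => f n - g n) = f + (-g) := by
    funext n
    simp [sub_eq_add_neg]
  rw [h, D.of_add, D.of_neg, sub_eq_add_neg]

theorem pinv {A : Type} [Ring A] {z z' : A} (hz' : z' * z = 1) (k : ℕ) : z' ^ k * z ^ k = 1 := by
  induction k with
  | zero => simp
  | succ k ih =>
    calc z' ^ (k + 1) * z ^ (k + 1) = z' ^ k * (z' * z) * z ^ k := by
          rw [pow_succ z' k, pow_succ' z k]
          simp only [mul_assoc]
      _ = 1 := by rw [hz', mul_one, ih]

theorem powsum {A : Type} [Ring A] (z z' : A) (hz' : z' * z = 1) (n : ℕ)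
    (m : ℕ → A) (s d : A)
    (h : ∑ i ∈ range n, m i * z' ^ (i + 1) = d + ∑ i ∈ range n, z ^ i * s * z' ^ i) :
    ∑ i ∈ range n, (m i - z ^ i * (s * z)) * z ^ (n - 1 - i) = d * z ^ n := by
  have h1 : ∀ i ∈ range n, (m i - z ^ i * (s * z)) * z ^ (n - 1 - i) =
      m i * z' ^ (i + 1) * z ^ n - z ^ i * s * z' ^ i * z ^ n := by
    intro i hi
    have hi' : i < n := Finset.mem_range.mp hi
    have e1 : z' ^ (i + 1) * z ^ n = z ^ (n - 1 - i) := by
      have e2 : n = (i + 1) + (n - 1 - i) := by omega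
      calc z' ^ (i + 1) * z ^ n = z' ^ (i + 1) * z ^ ((i + 1) + (n - 1 - i)) := by rw [← e2]
        _ = z ^ (n - 1 - i) := by rw [pow_add z (i + 1), ← mul_assoc, pinv hz', one_mul]
    have e3 : z' ^ i * z ^ n = z * z ^ (n - 1 - i) := by
      have e2 : n = i + (1 + (n - 1 - i)) := by omega
      calc z' ^ i * z ^ n = z' ^ i * z ^ (i + (1 + (n - 1 - i))) := by rw [← e2]
        _ = z * z ^ (n - 1 - i) := by
          rw [pow_add z i, ← mul_assoc, pinv hz', one_mul, pow_add z 1, pow_one]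
    rw [mul_assoc (m i), e1, mul_assoc (z ^ i * s), e3, sub_mul]
    simp only [mul_assoc]
  rw [Finset.sum_congr rfl h1, Finset.sum_sub_distrib, ← Finset.sum_mul, ← Finset.sum_mul, h, add_mul]
  abel

theorem fox (nsm : NsmStmt) (pwr : PwrStmt) : FoxStmt := by
  intro ℓ _ R K F V A A₀ B κ Ω _ _ _ _ _ _ _ _ _ _ _ _ _ _ _ _ _ W cv f α₀ α lam x y b c C D g h
    D₀ q hW hα hF hm hq
  have hℓ : (ℓ : K) ≠ 0 := Nat.cast_ne_zero.mpr (Fact.out : ℓ.Prime).ne_zero
  choose a ha using hF.gh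
  have i1 : ∀ u, α u * α u⁻¹ = 1 := fun u => by rw [← map_mul, mul_inv_cancel, map_one]
  have i2 : ∀ u, α u⁻¹ * α u = 1 := fun u => by rw [← map_mul, inv_mul_cancel, map_one]
  have cV : ∀ u v, α u * α v = α v * α u := fun u v => by rw [← map_mul, mul_comm, map_mul]
  let s : V → A := fun u => a u * α u⁻¹
  have gu : ∀ u, g (C.i (α u)) = ((ℓ : K)⁻¹ • C.i (h u) + C.i (s u)) * C.i (α u) := by
    intro u
    have h1 : (ℓ : K) • g (C.i (α u)) =
        (ℓ : K) • (((ℓ : K)⁻¹ • C.i (h u) + C.i (s u)) * C.i (α u)) := by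
      rw [ha u, add_mul, smul_add, smul_mul_assoc, smul_smul, mul_inv_cancel₀ hℓ, one_smul,
        ← map_mul C.i, ← map_mul C.i, hF.hv]
      congr 3
      show a u = a u * α u⁻¹ * α u
      rw [mul_assoc, i2, mul_one]
    have h2 := congrArg (fun t => (ℓ : K)⁻¹ • t) h1
    simp only [smul_smul, inv_mul_cancel₀ hℓ, one_smul] at h2
    exact h2
  have sW : ∀ u, ∀ w ∈ W, α w * s u = s u * α w := by
    intro u w hw
    have h1 : C.i (α w) * g (C.i (α u)) = g (C.i (α u)) * C.i (α w) := by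
      have e1 := (hF.wbl w hw (C.i (α u))).1
      have e2 := (hF.wbl w hw (C.i (α u))).2
      rw [ia_apply] at e1 e2
      rw [← e1, ← e2, ← map_mul C.i, ← map_mul C.i, cV]
    rw [gu] at h1
    have h2 : C.i (α w) * ((ℓ : K)⁻¹ • C.i (h u) + C.i (s u)) =
        ((ℓ : K)⁻¹ • C.i (h u) + C.i (s u)) * C.i (α w) := by
      revert h1
      generalize (ℓ : K)⁻¹ • C.i (h u) + C.i (s u) = X
      intro h1
      have z1 : C.i (α u) * C.i (α u⁻¹) = 1 := by rw [← map_mul, i1, map_one]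
      have z3 : C.i (α w) * C.i (α u⁻¹) = C.i (α u⁻¹) * C.i (α w) := by
        rw [← map_mul, cV, map_mul]
      calc C.i (α w) * X = C.i (α w) * (X * C.i (α u)) * C.i (α u⁻¹) := by
            rw [mul_assoc, mul_assoc X, z1, mul_one]
        _ = X * (C.i (α u) * C.i (α u⁻¹)) * C.i (α w) := by
            rw [h1, mul_assoc (X * C.i (α u)), z3]
            simp only [mul_assoc]
        _ = X * C.i (α w) := by rw [z1, mul_one]
    rw [mul_add, add_mul, mul_smul_comm, smul_mul_assoc, ← map_mul C.i, ← map_mul C.i,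
      ← map_mul C.i, ← map_mul C.i, hF.hv] at h2
    exact C.inj (add_left_cancel h2)
  let s₀ : V → A₀ := fun u => f.q (s u)
  have hD : ∀ u v, D u * α₀ v = α₀ v * D u := by
    intro u v
    rw [← hF.hy, ← hα, ← map_mul, ← map_mul, hF.hv]
  -- the norm identity in `A`
  have hnorm : ∀ u, ∑ i ∈ range ℓ, D₀.m 1 (α₀ u ^ i) (α₀ u) * α₀ u⁻¹ ^ (i + 1) =
      D u + ∑ i ∈ range ℓ, α₀ u ^ i * s₀ u * α₀ u⁻¹ ^ i := by
    intro u
    have hm' := fun i => hm (α u ^ i) (α u)
    choose e he1 he2 using hm'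
    have hE : ∑ i ∈ range ℓ, e i * α u⁻¹ ^ (i + 1) =
        h u + ∑ i ∈ range ℓ, α u ^ i * s u * α u⁻¹ ^ i := by
      apply C.inj
      have z1 : C.i (α u) * C.i (α u⁻¹) = 1 := by rw [← map_mul, i1, map_one]
      have z2 : C.i (α u⁻¹) * C.i (α u) = 1 := by rw [← map_mul, i2, map_one]
      have hpow : g (C.i (α u) ^ ℓ) = g 1 * C.i (α u) ^ ℓ := by
        have e1 := (hF.wbl (u ^ ℓ) (hW u) 1).2
        rw [ia_apply, one_mul, map_pow, map_pow] at e1
        exact e1
      have hn := nsm B g (C.i (α u)) (C.i (α u⁻¹)) ℓ z1 z2 hF.one hpow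
      have h1 : C.i (∑ i ∈ range ℓ, e i * α u⁻¹ ^ (i + 1)) =
          ∑ i ∈ range ℓ, (C.i (α u) ^ i * g (C.i (α u)) - g (C.i (α u) ^ i * C.i (α u)) +
            g (C.i (α u) ^ i) * C.i (α u)) * C.i (α u⁻¹) ^ (i + 1) := by
        rw [map_sum]
        refine Finset.sum_congr rfl fun i _ => ?_
        rw [map_mul, he1 i, map_pow, map_pow]
        rfl
      rw [h1, hn]
      have h2 : ∀ i ∈ range ℓ, C.i (α u) ^ i * (g (C.i (α u)) * C.i (α u⁻¹)) * C.i (α u⁻¹) ^ i =
          (ℓ : K)⁻¹ • C.i (h u) + C.i (α u ^ i * s u * α u⁻¹ ^ i) := by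
        intro i _
        have h3 : g (C.i (α u)) * C.i (α u⁻¹) = (ℓ : K)⁻¹ • C.i (h u) + C.i (s u) := by
          rw [gu, mul_assoc, z1, mul_one]
        rw [h3, mul_add, add_mul, mul_smul_comm, smul_mul_assoc, ← map_pow C.i (α u) i,
          ← map_pow C.i (α u⁻¹) i, ← map_mul C.i, ← map_mul C.i, ← map_mul C.i, ← map_mul C.i]
        congr 3
        have h4 : α u ^ i * h u = h u * α u ^ i := by
          rw [← map_pow]
          exact (hF.hv u (u ^ i)).symm
        have h5 : α u ^ i * α u⁻¹ ^ i = 1 := pinv (i1 u) i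
        rw [h4, mul_assoc, h5, mul_one]
      rw [Finset.sum_congr rfl h2, Finset.sum_add_distrib, Finset.sum_const, card_range, map_add,
        map_sum]
      congr 1
      rw [← Nat.cast_smul_eq_nsmul K, smul_smul, mul_inv_cancel₀ hℓ, one_smul]
    have h1 := congrArg f.q hE
    rw [map_sum, map_add, map_sum, hF.hy] at h1
    refine Eq.trans (Finset.sum_congr rfl fun i _ => ?_) (Eq.trans h1 ?_)
    · have h2 : D₀.m 1 (α₀ u ^ i) (α₀ u) = f.q (e i) := by
        rw [← he2 i, map_pow f.q, hα]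
      rw [h2, map_mul, map_pow, hα]
    · congr 1
      refine Finset.sum_congr rfl fun i _ => ?_
      rw [map_mul, map_mul, map_pow, map_pow, hα, hα]
  -- the lifts
  let lf : V → D₀.R := fun u =>
    D₀.of (fun i => if i = 0 then α₀ u else if i = 1 then - (s₀ u * α₀ u) else 0)
  have hpl : ∀ u, ∃ G : D₀.R, lf u ^ ℓ = D₀.w ⟨u ^ ℓ, hW u⟩ *
      (1 + (PowerSeries.X : F⟦X⟧) • G) ∧ D₀.sq G 0 = D u := by
    intro u
    obtain ⟨p1, p2, p3, -, -⟩ := pwr F A₀ W (aw α₀ W) D₀ (α₀ u) 1 (s₀ u * α₀ u) 0 ℓ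
    have hi2 : α₀ u⁻¹ * α₀ u = 1 := by rw [← map_mul, inv_mul_cancel, map_one]
    have q1 : D₀.sq (lf u ^ ℓ) 0 = α₀ u ^ ℓ := p2
    have q2 : D₀.sq (lf u ^ ℓ) 1 = D u * α₀ u ^ ℓ := by
      refine Eq.trans p3 ?_
      exact powsum (α₀ u) (α₀ u⁻¹) hi2 ℓ (fun i => D₀.m 1 (α₀ u ^ i) (α₀ u)) (s₀ u) (D u)
        (hnorm u)
    let f' : ℕ → A₀ := fun n => α₀ (u ^ ℓ)⁻¹ * D₀.sq (lf u ^ ℓ) n
    have hi3 : α₀ (u ^ ℓ)⁻¹ * α₀ (u ^ ℓ) = 1 := by rw [← map_mul, inv_mul_cancel, map_one]
    have hi4 : α₀ (u ^ ℓ) * α₀ (u ^ ℓ)⁻¹ = 1 := by rw [← map_mul, mul_inv_cancel, map_one]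
    have r1 : f' 0 = 1 := by
      show α₀ (u ^ ℓ)⁻¹ * D₀.sq (lf u ^ ℓ) 0 = 1
      rw [q1, ← map_pow, hi3]
    have r2 : f' 1 = D u := by
      show α₀ (u ^ ℓ)⁻¹ * D₀.sq (lf u ^ ℓ) 1 = D u
      rw [q2, ← map_pow, hD, ← mul_assoc, hi3, one_mul]
    have r3 : lf u ^ ℓ = D₀.w ⟨u ^ ℓ, hW u⟩ * D₀.of f' := by
      rw [D₀.w_mul_of]
      conv_lhs => rw [← D₀.of_sq (lf u ^ ℓ)]
      congr 1
      funext n
      show D₀.sq (lf u ^ ℓ) n = α₀ (u ^ ℓ) * (α₀ (u ^ ℓ)⁻¹ * D₀.sq (lf u ^ ℓ) n)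
      rw [← mul_assoc, hi4, one_mul]
    obtain ⟨Z, hZ1, hZ2, -⟩ := p1 (fun n => f' n - cst 1 n) (by
      show f' 0 - cst 1 0 = 0
      rw [r1, cst, if_pos rfl, sub_self])
    refine ⟨Z, ?_, ?_⟩
    · rw [r3, ← hZ1, of_sub', D₀.of_one, add_sub_cancel]
    · rw [hZ2, r2, cst, if_neg one_ne_zero, sub_zero]
  choose G hG1 hG2 using hpl
  refine ⟨lf, G, ?_, ?_, ?_, ?_, ?_⟩
  · intro u
    rw [hq]
    show D₀.sq (D₀.of _) 0 = _
    rw [D₀.sq_of]
    rfl
  · intro u w
    show D₀.w w * D₀.of _ = D₀.of _ * D₀.w w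
    rw [D₀.w_mul_of, of_mul_w]
    congr 1
    funext n
    show α₀ (w : V) * (if n = 0 then α₀ u else if n = 1 then - (s₀ u * α₀ u) else 0) =
      (if n = 0 then α₀ u else if n = 1 then - (s₀ u * α₀ u) else 0) * α₀ (w : V)
    have c1 : α₀ (w : V) * α₀ u = α₀ u * α₀ (w : V) := by rw [← map_mul, mul_comm, map_mul]
    have c2 : α₀ (w : V) * s₀ u = s₀ u * α₀ (w : V) := by
      show α₀ (w : V) * f.q (s u) = f.q (s u) * α₀ (w : V)
      rw [← hα, ← map_mul, ← map_mul, sW u w w.2]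
    split_ifs
    · exact c1
    · rw [mul_neg, neg_mul, ← mul_assoc, c2, mul_assoc, c1, mul_assoc]
    · rw [mul_zero, zero_mul]
  · intro u hu
    exact hG1 u
  · intro u
    rw [hq, hG2]
  · intro u v
    obtain ⟨p1, -, -, p4, p5⟩ := pwr F A₀ W (aw α₀ W) D₀ (α₀ u) (α₀ v) (s₀ u * α₀ u)
      (s₀ v * α₀ v) ℓ
    obtain ⟨-, -, -, p4', p5'⟩ := pwr F A₀ W (aw α₀ W) D₀ (α₀ v) (α₀ u) (s₀ v * α₀ v)
      (s₀ u * α₀ u) ℓ
    have cV₀ : α₀ u * α₀ v = α₀ v * α₀ u := by rw [← map_mul, mul_comm, map_mul]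
    obtain ⟨e, he1, he2⟩ := hm (α u) (α v)
    obtain ⟨e', he1', he2'⟩ := hm (α v) (α u)
    rw [hα, hα] at he2 he2'
    have hee : e - e' = α u * (s v * α v) - s v * α v * α u + s u * α u * α v -
        α v * (s u * α u) := by
      apply C.inj
      rw [map_sub, he1, he1']
      show C.i (α u) * g (C.i (α v)) - g (C.i (α u) * C.i (α v)) + g (C.i (α u)) * C.i (α v) -
        (C.i (α v) * g (C.i (α u)) - g (C.i (α v) * C.i (α u)) + g (C.i (α v)) * C.i (α u)) = _
      have c1 : C.i (α v) * C.i (α u) = C.i (α u) * C.i (α v) := by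
        rw [← map_mul, cV, map_mul]
      have c2 : C.i (α u) * C.i (h v) = C.i (h v) * C.i (α u) := by
        rw [← map_mul, ← map_mul, hF.hv]
      have c3 : C.i (α v) * C.i (h u) = C.i (h u) * C.i (α v) := by
        rw [← map_mul, ← map_mul, hF.hv]
      rw [c1, gu, gu]
      simp only [map_sub, map_add, map_mul, add_mul, mul_add, smul_mul_assoc, mul_smul_comm]
      have d1 : C.i (α u) * (C.i (h v) * C.i (α v)) = C.i (h v) * C.i (α v) * C.i (α u) := by
        rw [← mul_assoc, c2, mul_assoc, ← c1, mul_assoc]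
      have d2 : C.i (α v) * (C.i (h u) * C.i (α u)) = C.i (h u) * C.i (α u) * C.i (α v) := by
        rw [← mul_assoc, c3, mul_assoc, c1, mul_assoc]
      rw [d1, d2]
      abel
    let F1 : ℕ → A₀ := fun n => D₀.sq (lf u * lf v) n - D₀.sq (lf v * lf u) n
    have f0 : F1 0 = 0 := by
      show D₀.sq (lf u * lf v) 0 - D₀.sq (lf v * lf u) 0 = 0
      have t1 : D₀.sq (lf u * lf v) 0 = α₀ u * α₀ v := p4
      have t2 : D₀.sq (lf v * lf u) 0 = α₀ v * α₀ u := p4'
      rw [t1, t2, cV₀, sub_self]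
    have f1 : F1 1 = 0 := by
      show D₀.sq (lf u * lf v) 1 - D₀.sq (lf v * lf u) 1 = 0
      have t1 : D₀.sq (lf u * lf v) 1 =
        D₀.m 1 (α₀ u) (α₀ v) - α₀ u * (s₀ v * α₀ v) - s₀ u * α₀ u * α₀ v := p5
      have t2 : D₀.sq (lf v * lf u) 1 =
        D₀.m 1 (α₀ v) (α₀ u) - α₀ v * (s₀ u * α₀ u) - s₀ v * α₀ v * α₀ u := p5'
      have t3 : f.q e - f.q e' = α₀ u * (s₀ v * α₀ v) - s₀ v * α₀ v * α₀ u +
          s₀ u * α₀ u * α₀ v - α₀ v * (s₀ u * α₀ u) := by
        have := congrArg f.q hee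
        simpa only [map_sub, map_add, map_mul, hα] using this
      rw [t1, t2, he2, he2']
      have t4 : f.q e = f.q e' + (α₀ u * (s₀ v * α₀ v) - s₀ v * α₀ v * α₀ u +
          s₀ u * α₀ u * α₀ v - α₀ v * (s₀ u * α₀ u)) := by
        rw [← t3]; abel
      rw [t4]
      abel
    obtain ⟨Z, hZ1, hZ2, hZ3⟩ := p1 F1 f0
    obtain ⟨Z', hZ1', -, -⟩ := p1 (D₀.sq Z) (by rw [hZ2, f1])
    refine ⟨Z', ?_⟩
    have hh : lf u * lf v - lf v * lf u = D₀.of F1 := by
      show _ = D₀.of (fun n => D₀.sq (lf u * lf v) n - D₀.sq (lf v * lf u) n)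
      rw [of_sub']
      have o1 : D₀.of (fun n => D₀.sq (lf u * lf v) n) = lf u * lf v := D₀.of_sq _
      have o2 : D₀.of (fun n => D₀.sq (lf v * lf u) n) = lf v * lf u := D₀.of_sq _
      rw [o1, o2]
    rw [hh, hZ1, ← D₀.of_sq Z, hZ1', smul_smul, pow_two]

end Pool.Agent.PST.H75
end
end -- Pool.Agent.Helper75_PST.FOX

section -- Pool.Agent.Helper75_PST.NSM

open scoped BigOperators PowerSeries

noncomputable section

namespace Pool.Agent.PST.H75

open Pool.Agent.PFC (tw IsTv)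
open Pool.Agent.PFD.D2b (FrR)
open Pool.Agent.PSS
open Pool.Agent.PSS.S2 (PrD Nh Cn CV)
open Finset

theorem nsm : NsmStmt := by
  intro A _ v z z' n hz hz' hv1 hvn
  have hT : ∀ i, (z ^ i * v z - v (z ^ i * z) + v (z ^ i) * z) * z' ^ (i + 1) =
      z ^ i * (v z * z') * z' ^ i + (v (z ^ i) * z' ^ i - v (z ^ (i + 1)) * z' ^ (i + 1)) := by
    intro i
    have e1 : z * z' ^ (i + 1) = z' ^ i := by
      rw [pow_succ' z' i, ← mul_assoc, hz, one_mul]
    rw [add_mul, sub_mul, ← pow_succ, mul_assoc (v (z ^ i)), e1, pow_succ' z' i]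
    simp only [mul_assoc]
    abel
  rw [Finset.sum_congr rfl fun i _ => hT i, Finset.sum_add_distrib,
    Finset.sum_range_sub' (fun i => v (z ^ i) * z' ^ i)]
  have h0 : v (z ^ 0) * z' ^ 0 = 0 := by rw [pow_zero, hv1, zero_mul]
  have h1 : v (z ^ n) * z' ^ n = 0 := by rw [hvn, hv1, zero_mul, zero_mul]
  rw [h0, h1, sub_self, add_zero]

theorem gxu : GxuStmt := by
  intro F V E A K Ω _ _ _ _ _ _ _ _ _ φ α x y b c la χ H e X hfr hadd hwt hH u
  have hla1 : la 1 = 0 := by
    have h := hadd 1 1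
    rw [mul_one] at h
    exact left_eq_add.mp h
  have key : ∀ a : A, Nh H b c (α u * a) - α u * Nh H b c a =
      la u • (α u * Nh (fun ω => χ (e ω)⁻¹) b c a) := by
    intro a
    rw [S2.nh_apply, S2.nh_apply, S2.nh_apply]
    have h1 : ∑ ω, (c ω (α u * a) * H ω) • b ω =
        ∑ ω, (c ω a * H (((u, 1) : V × V) • ω)) • (α u * b ω) := by
      rw [← Equiv.sum_comp (MulAction.toPerm ((u, 1) : V × V))
        (fun ω => (c ω (α u * a) * H ω) • b ω)]
      refine Finset.sum_congr rfl fun ω _ => ?_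
      show (c (((u, 1) : V × V) • ω) (α u * a) * H (((u, 1) : V × V) • ω)) • b (((u, 1) : V × V) • ω) = _
      have e1 : bw F α (u, 1) a = α u * a := by
        show α u * (a * α 1⁻¹) = α u * a
        rw [inv_one, map_one, mul_one]
      have e2 : bw F α (u, 1) (b ω) = α u * b ω := by
        show α u * (b ω * α 1⁻¹) = α u * b ω
        rw [inv_one, map_one, mul_one]
      have h2 := hfr.2.1 (u, 1) ω a
      rw [e1] at h2
      rw [h2, hfr.1, e2]
    rw [h1, Finset.mul_sum, ← Finset.sum_sub_distrib, Finset.mul_sum, Finset.smul_sum]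
    refine Finset.sum_congr rfl fun ω _ => ?_
    have h3 : H (((u, 1) : V × V) • ω) = H ω + χ (e ω)⁻¹ * la u := by
      rw [hH, hla1, sub_zero]
      congr 1
      have h4 : φ (e ω)⁻¹ u = φ ((e ω)⁻¹) u := rfl
      rw [← hwt]
    rw [mul_smul_comm, ← sub_smul, mul_smul_comm, smul_smul, h3]
    congr 1
    ring
  rw [gx_apply, Finset.mul_sum, Finset.smul_sum]
  refine Finset.sum_congr rfl fun k _ => ?_
  rw [key, smul_mul_assoc, mul_assoc]

end Pool.Agent.PST.H75
end
end -- Pool.Agent.Helper75_PST.NSM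

section -- Pool.Agent.Helper77_PST.DRG

/-!
# Squad PST, row DRG (helper77): the regular derivation
-/

set_option autoImplicit false

open scoped BigOperators

noncomputable section

namespace Pool.Agent.PST.H77R

open Pool.Agent.PFC (tw IsTv)
open Pool.Agent.PFD.D2b (FrR)
open Pool.Agent.PSS
open Pool.Agent.PSS.S2 (PrD Nh Cn CV cg_zero)

/-- DRG -/
theorem drg (hEOR : Pool.Agent.PSS.S2.EorStmt) (hSVH : Pool.Agent.PSS.S2.SvhStmt)
    (hCNH : Pool.Agent.PSS.S2.CnhStmt) (hDGX : DgxStmt) (hGXU : GxuStmt) (hYCV : YcvStmt)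
    (hYBR : YbrStmt) (hRTC : Pool.Agent.PSS.RtcStmt) (hBKI : Pool.Agent.PSS.S0.BkiStmt) :
    DrgStmt := by
  classical
  intro F V E A K Ω _ _ _ _ _ _ _ _ _ φ α lam x y b c u₀ W Q r la χ xx t hRF hPr hu hEg hQ
  obtain ⟨e, S, he, -, hst⟩ := hEOR F V E A Ω φ α b c hPr
  have h1 : ∀ l, la l 1 = 0 := by
    intro l
    have h := hEg.add l 1 1
    rw [mul_one] at h
    exact left_eq_add.1 h
  choose H hH using fun l => hSVH F V E Ω φ (la l) e S (hEg.add l) he hst
  have hCn : ∀ l, Cn 0 α (la l) (Nh (H l) b c) := by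
    intro l
    refine hCNH F V A Ω 0 α (la l) (H l) b c hPr.fr (fun u v => (cg_zero _ _).2 (hEg.add l u v))
      (fun v ω => (cg_zero _ _).2 ?_)
    rw [hH l, map_one, h1, add_zero]
  have hX : ∀ l, CV α (Xe α (xx l)) := by
    intro l v
    unfold Xe
    rw [Finset.mul_sum, Finset.sum_mul]
    refine Finset.sum_congr rfl fun w _ => ?_
    rw [mul_smul_comm, smul_mul_assoc, ← map_mul, ← map_mul, mul_comm]
  obtain ⟨Y, hY⟩ : ∃ Y : Fin r → A, Y = fun l =>
      ∑ k, Nh (fun ω => χ l (e ω)⁻¹) b c (x k) * (Xe α (xx l) * y k) := ⟨_, rfl⟩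
  have hYf : ∀ l, Y l ∈ FxR (cw F α) ⊤ := by
    intro l
    rw [hY]
    exact hYCV F V A K Ω α lam x y b c (fun ω => χ l (e ω)⁻¹) (Xe α (xx l)) hRF hPr.fr
      (fun p ω => by rw [he]) (hX l)
  have hz : ∀ a, a * rt x y 1 = rt x y 1 * a :=
    (hRTC F V A K K α lam x y hRF).1 1 fun v => by rw [mul_one, one_mul]
  have hu' : rt x y 1 * u₀ = 1 := by rw [← hz, hu]
  have hc : ∀ a, u₀ * a = a * u₀ := by
    intro a
    calc u₀ * a = u₀ * (a * (rt x y 1 * u₀)) := by rw [hu', mul_one]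
      _ = u₀ * rt x y 1 * a * u₀ := by rw [← mul_assoc a, hz]; simp only [mul_assoc]
      _ = a * u₀ := by rw [hu, one_mul]
  have hcf : ∀ P : Subgroup V, u₀ ∈ FxR (cw F α) P := fun P =>
    mem_cw.2 fun q _ => (hc (α q)).symm
  obtain ⟨G, hG⟩ : ∃ G : A →ₗ[F] A, ∀ a, G a =
      ∑ l, t l • (u₀ * Gx (Xe α (xx l)) x y (Nh (H l) b c) a) := by
    refine ⟨∑ l, t l • (LinearMap.mulLeft F u₀).comp
      (Gx (Xe α (xx l)) x y (Nh (H l) b c)), fun a => ?_⟩
    rw [LinearMap.sum_apply]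
    rfl
  obtain ⟨D, hD⟩ : ∃ D : V → A, ∀ u, D u = ∑ l, (t l * la l u) • (u₀ * Y l) :=
    ⟨_, fun _ => rfl⟩
  refine ⟨G, D, ⟨hEg, hQ, ?_, ?_, ?_, ?_⟩, ?_, ?_⟩
  · intro u v
    rw [hD, hD, hD, ← Finset.sum_add_distrib]
    refine Finset.sum_congr rfl fun l _ => ?_
    rw [hEg.add, mul_add, add_smul]
  · intro w hw
    rw [hD]
    refine Finset.sum_eq_zero fun l _ => ?_
    rw [(hEg.ker w).1 hw l, mul_zero, zero_smul]
  · intro u
    rw [hD]
    refine Submodule.sum_mem _ fun l _ => Submodule.smul_mem _ _ ?_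
    rw [mem_cw]
    intro q hq
    rw [← mul_assoc, ← hc, mul_assoc, (mem_cw.1 (hYf l)) q hq, mul_assoc]
  · intro u
    have h2 : Xe α (pg la xx t u) = ∑ l, (t l * la l u) • (u₀ * (Xe α (xx l) * rt x y 1)) := by
      have h3 : ∀ l, u₀ * (Xe α (xx l) * rt x y 1) = Xe α (xx l) := by
        intro l
        rw [hz, ← mul_assoc, hu, one_mul]
      have h4 : Xe α (pg la xx t u) = ∑ l, (t l * la l u) • Xe α (xx l) := by
        unfold Xe pg
        have h5 : ∀ l, (t l * la l u) • ∑ v, xx l v • α v =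
            ∑ v, (t l * la l u * xx l v) • α v := by
          intro l
          rw [Finset.smul_sum]
          exact Finset.sum_congr rfl fun v _ => smul_smul _ _ _
        rw [Finset.sum_congr rfl fun l _ => h5 l, Finset.sum_comm]
        exact Finset.sum_congr rfl fun v _ => Finset.sum_smul
      rw [h4]
      exact Finset.sum_congr rfl fun l _ => by rw [h3]
    rw [hD, h2, ← Finset.sum_sub_distrib]
    refine Submodule.sum_mem _ fun l _ => ?_
    rw [← smul_sub, ← mul_sub]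
    refine Submodule.smul_mem _ _ ?_
    refine (hBKI F V A α Q u₀ (hcf Q) _ ?_).1
    rw [hY]
    exact hYBR F V E A K Ω φ α lam x y b c e S (χ l) (xx l) Q hRF hPr.fr he hst (hEg.chm l)
      (hEg.ch1 l) (hEg.xe l) (hEg.qs l) hQ
  · intro a a'
    rw [hG, hG, hG, Finset.sum_mul, Finset.mul_sum, ← Finset.sum_add_distrib]
    refine Finset.sum_congr rfl fun l _ => ?_
    rw [hDGX F V A K α lam x y (la l) (Nh (H l) b c) (Xe α (xx l)) hRF (hCn l) (hX l) a a',
      mul_add, smul_add, smul_mul_assoc, mul_smul_comm, ← mul_assoc u₀, ← mul_assoc u₀,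
      ← mul_assoc a, hc a]
  · intro u
    rw [hG, hD, Finset.mul_sum]
    refine Finset.sum_congr rfl fun l _ => ?_
    rw [hGXU F V E A K Ω φ α x y b c (la l) (χ l) (H l) e (Xe α (xx l)) hPr.fr (hEg.add l)
      (hEg.wt l) (hH l) u, mul_smul_comm, smul_smul, mul_smul_comm, ← mul_assoc, hc (α u),
      mul_assoc, hY]

end Pool.Agent.PST.H77R
end
end -- Pool.Agent.Helper77_PST.DRG

section -- Pool.Agent.Helper77_PST.DUL

/-!
# Squad PST, row DUL (helper77): dual elements in `F Q`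
-/

set_option autoImplicit false

open scoped BigOperators

noncomputable section

namespace Pool.Agent.PST.H77D

open Classical in
/-- the pairing of a function, cut off outside of `Q`, with the functions `la n` -/
def Tq {F V : Type} [Field F] [CommGroup V] [Fintype V] (Q : Subgroup V) {r : ℕ}
    (la : Fin r → V → F) : (V → F) →ₗ[F] (Fin r → F) where
  toFun x n := ∑ v, (if v ∈ Q then x v else 0) * la n v
  map_add' x y := by
    funext n
    change _ = ∑ v, (if v ∈ Q then x v else 0) * la n v + ∑ v, (if v ∈ Q then y v else 0) * la n v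
    rw [← Finset.sum_add_distrib]
    refine Finset.sum_congr rfl fun v _ => ?_
    rw [← add_mul]
    split_ifs
    · rfl
    · rw [add_zero]
  map_smul' c x := by
    funext n
    change _ = c * ∑ v, (if v ∈ Q then x v else 0) * la n v
    rw [Finset.mul_sum]
    refine Finset.sum_congr rfl fun v _ => ?_
    rw [← mul_assoc]
    split_ifs
    · rfl
    · rw [mul_zero]

open Classical in
theorem Tq_apply {F V : Type} [Field F] [CommGroup V] [Fintype V] (Q : Subgroup V) {r : ℕ}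
    (la : Fin r → V → F) (x : V → F) (n : Fin r) :
    Tq Q la x n = ∑ v, (if v ∈ Q then x v else 0) * la n v := rfl

/-- DUL -/
theorem dul : DulStmt := by
  classical
  intro F V _ _ _ W Q r la hadd hW hli hQW
  have hsur : LinearMap.range (Tq Q la) = ⊤ := by
    by_contra hne
    obtain ⟨f, hf0, hf⟩ := Submodule.exists_le_ker_of_lt_top _ (lt_top_iff_ne_top.2 hne)
    apply hf0
    have h1 : ∀ q ∈ Q, ∑ n, f (fun j => if n = j then 1 else 0) * la n q = 0 := by
      intro q hq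
      have h2 : f (Tq Q la (Pi.single q 1)) = 0 := hf ⟨_, rfl⟩
      rw [LinearMap.pi_apply_eq_sum_univ f] at h2
      refine Eq.trans (Finset.sum_congr rfl fun n _ => ?_) h2
      rw [Tq_apply, Finset.sum_eq_single q]
      · rw [if_pos hq, Pi.single_eq_same, one_mul, smul_eq_mul, mul_comm]
      · intro v _ hv
        rw [Pi.single_eq_of_ne hv, ite_self, zero_mul]
      · intro h
        exact (h (Finset.mem_univ q)).elim
    have h2 : ∑ n, f (fun j => if n = j then 1 else 0) • la n = 0 := by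
      funext v
      obtain ⟨q, hq, w, hw, rfl⟩ := hQW v
      rw [Finset.sum_apply, Pi.zero_apply]
      refine Eq.trans (Finset.sum_congr rfl fun n _ => ?_) (h1 q hq)
      rw [Pi.smul_apply, smul_eq_mul, hadd, hW n w hw, add_zero]
    have h3 := Fintype.linearIndependent_iff.1 hli _ h2
    apply LinearMap.ext
    intro x
    rw [LinearMap.pi_apply_eq_sum_univ f, LinearMap.zero_apply]
    refine Finset.sum_eq_zero fun n _ => ?_
    rw [h3 n, smul_zero]
  rw [LinearMap.range_eq_top] at hsur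
  choose x hx using fun l : Fin r => hsur (fun n => if l = n then 1 else 0)
  refine ⟨fun l v => if v ∈ Q then x l v else 0, fun l v hv => if_neg hv, fun l n => ?_⟩
  have h1 := congrFun (hx l) n
  rw [Tq_apply] at h1
  exact h1

end Pool.Agent.PST.H77D
end
end -- Pool.Agent.Helper77_PST.DUL

section -- Pool.Agent.Helper77_PST.HLF

/-!
# Squad PST, row HLF (helper77): lifts of the values `D u` which commute with `V`
-/

set_option autoImplicit false

open scoped BigOperators

noncomputable section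

namespace Pool.Agent.PST.H77H

open Pool.Agent.PFD.D2 (Cdv FibG)
open Pool.Agent.PFD.D2b (FrR)
open Pool.Agent.PSS

/-- HLF -/
theorem hlf : HlfStmt := by
  classical
  intro R F V A A₀ κ Ω _ _ cv _ _ _ _ _ _ _ _ _ W f α₀ lam₀ x₀ y₀ b₀ c₀ α lam x y b c D hL hF
    hD hW
  obtain ⟨s, hs⟩ := cv.surj.hasRightInverse
  have hq : ∀ (r : R) (a : A), f.q (r • a) = cv.κ r • f.q a := by
    intro r a
    rw [Algebra.smul_def, map_mul, f.sc, ← Algebra.smul_def]
  obtain ⟨L, hLd⟩ : ∃ L : A₀ → A, L = fun a => ∑ ω, s (c₀ ω a) • b ω := ⟨_, rfl⟩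
  have hLq : ∀ a, f.q (L a) = a := by
    intro a
    rw [hLd]
    change f.q (∑ ω, s (c₀ ω a) • b ω) = a
    rw [map_sum]
    refine Eq.trans (Finset.sum_congr rfl fun ω _ => ?_) (hF.2.2 a)
    rw [hq, hs, hL.qb]
  have hLc : ∀ a ∈ FxR (cw F α₀) ⊤, ∀ v, L a * α v = α v * L a := by
    intro a ha v
    have h1 : bw R α (v, v) (L a) = L a := by
      rw [hLd]
      change bw R α (v, v) (∑ ω, s (c₀ ω a) • b ω) = ∑ ω, s (c₀ ω a) • b ω
      rw [map_sum]
      refine Fintype.sum_equiv (MulAction.toPerm ((v, v) : V × V)) _ _ fun ω => ?_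
      rw [map_smul, ← hL.fr.1]
      have h2 : c₀ (((v, v) : V × V) • ω) a = c₀ ω a := by
        have h3 := hF.2.1 ((v, v) : V × V) ω a
        have h4 : bw F α₀ (v, v) a = a := ha v (Subgroup.mem_top v)
        rw [h4] at h3
        exact h3
      change _ = s (c₀ (((v, v) : V × V) • ω) a) • b (((v, v) : V × V) • ω)
      rw [h2]
    have h2 : α v * (L a * α v⁻¹) = L a := h1
    calc L a * α v = α v * (L a * α v⁻¹) * α v := by rw [h2]
      _ = α v * L a := by
        rw [mul_assoc, mul_assoc, ← map_mul, inv_mul_cancel, map_one, mul_one]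
  refine ⟨fun u => L (D u), fun u v => hLc (D u) (hD u) v, fun u w hw => ?_, fun u => hLq (D u)⟩
  change L (D (u * w)) = L (D u)
  rw [hW u w hw]

end Pool.Agent.PST.H77H
end
end -- Pool.Agent.Helper77_PST.HLF

section -- Pool.Agent.Helper85_PST.DGX

/-! Squad PST, row DGX (helper85): the transfer is a derivation. -/

set_option autoImplicit false

open scoped BigOperators

noncomputable section

namespace Pool.Agent.PST.H85

open Pool.Agent.PSS Pool.Agent.PST
open Pool.Agent.PSS.S2 (PrD Nh Cn CV)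

theorem dgx : DgxStmt := by
  intro F V A K _ _ _ _ _ _ α lam x y χ N X hrf hN hX a b'
  have hN1 : ∀ a v, N (a * α v) = N a * α v + χ v • (a * α v) :=
    fun a v => (S2.cg_zero _ _).1 (hN.lin a v)
  have hG : ∀ a, Gx X x y N a = ∑ k, (N (a * x k) - a * N (x k)) * (X * y k) := by
    intro a
    simp [Gx, LinearMap.sum_apply, LinearMap.comp_apply, LinearMap.sub_apply, mul_assoc]
  let f : A →ₗ[F] A := (LinearMap.mulRight F X).comp
    (N.comp (LinearMap.mulLeft F a) - (LinearMap.mulLeft F a).comp N)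
  have hf : ∀ z, f z = (N (a * z) - a * N z) * X := fun z => rfl
  have hfl : S2.RLq 0 α f := by
    intro z v
    have hc : X * α v = α v * X := (hX v).symm
    have e0 : N (a * (z * α v)) - a * N (z * α v) = (N (a * z) - a * N z) * α v := by
      rw [← mul_assoc, hN1, hN1, mul_add, mul_smul_comm, sub_mul, ← mul_assoc, ← mul_assoc]
      abel
    rw [S2.cg_zero, hf, hf, e0, mul_assoc, ← hc, ← mul_assoc]
  have hthl := (S2.cg_zero _ _).1 (S2.H91.thl F V A K 0 α lam x y f hrf hfl b')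
  have e1 : (∑ k, f (x k) * y k) = Gx X x y N a := by
    rw [hG]
    exact Finset.sum_congr rfl fun k _ => by rw [hf, mul_assoc _ X]
  rw [e1] at hthl
  rw [← hthl, hG (a * b'), hG b', Finset.mul_sum, ← Finset.sum_add_distrib]
  refine Finset.sum_congr rfl fun k _ => ?_
  rw [hf, mul_assoc _ X (y k), ← mul_assoc a b' (x k), ← mul_assoc a _ (X * y k), ← add_mul]
  congr 1
  rw [mul_sub, mul_assoc a b' (N (x k)), mul_assoc a b' (x k)]
  abel

end Pool.Agent.PST.H85
end
end -- Pool.Agent.Helper85_PST.DGX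

section -- Pool.Agent.Helper92_PST.SPT

set_option autoImplicit false

noncomputable section

namespace Pool.Agent.PST.H92

open Pool.Agent.PST

theorem sep_aux (K A : Type) [Field K] [AddCommGroup A] [Module K A] (a : A) (ha : a ≠ 0) :
    ∃ f : A →+ K, f a ≠ 0 := by
  by_contra hcon
  push Not at hcon
  apply ha
  rw [← Module.forall_dual_apply_eq_zero_iff K a]
  intro φ
  exact hcon φ.toAddMonoidHom

theorem sep (ℓ : ℕ) [Fact ℓ.Prime] (A : Type) [AddCommGroup A] (hk : ∀ x : A, ℓ • x = 0) (a : A)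
    (ha : a ≠ 0) : ∃ f : A →+ ZMod ℓ, f a ≠ 0 := by
  let _ : Module (ZMod ℓ) A := AddCommGroup.zmodModule hk
  exact sep_aux (ZMod ℓ) A a ha

theorem spt : SptStmt := by
  intro ℓ _ F V _ _ _ _ W hW v hv
  have hk : ∀ x : Additive (V ⧸ W), ℓ • x = 0 := by
    intro x
    obtain ⟨u, hu⟩ := QuotientGroup.mk_surjective (Additive.toMul x)
    apply Additive.toMul.injective
    rw [toMul_nsmul, ← hu, toMul_zero, ← QuotientGroup.mk_pow, QuotientGroup.eq_one_iff]
    exact hW u
  have hne : (Additive.ofMul (QuotientGroup.mk v : V ⧸ W)) ≠ 0 := by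
    intro h
    apply hv
    have h2 := congrArg Additive.toMul h
    rw [toMul_ofMul, toMul_zero, QuotientGroup.eq_one_iff] at h2
    exact h2
  obtain ⟨f, hf⟩ := sep ℓ (Additive (V ⧸ W)) hk _ hne
  refine ⟨fun u => ZMod.castHom (dvd_refl ℓ) F (f (Additive.ofMul (QuotientGroup.mk u : V ⧸ W))),
    ?_, ?_, ?_⟩
  · intro a b
    simp only [QuotientGroup.mk_mul, ofMul_mul, map_add]
  · intro w hw
    have : (QuotientGroup.mk w : V ⧸ W) = 1 := (QuotientGroup.eq_one_iff w).2 hw
    simp only [this, ofMul_one, map_zero]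
  · intro h
    apply hf
    exact (ZMod.castHom (dvd_refl ℓ) F).injective (h.trans (map_zero _).symm)

end Pool.Agent.PST.H92
end
end -- Pool.Agent.Helper92_PST.SPT

section -- Pool.Agent.PST.AsmDR

/-!
# Squad PST, block DR: assembly (helper75)
-/

namespace Pool.Agent.PST.DRA

theorem egx_ : EgxStmt :=
  H27.egx H20.egc H92.spt H77D.dul H61.avx H61.tin

theorem ybr_ : YbrStmt :=
  H62.ybr Pool.Agent.PSS.H40.dfr Pool.Agent.PSS.H85.orb H13.yqt

theorem drg_ : DrgStmt :=
  H77R.drg Pool.Agent.PSS.S2.H76.eor (Pool.Agent.PSS.H29.svh Pool.Agent.PSS.S2.H95.tor) Pool.Agent.PSS.S2.H71.cnh H85.dgx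
    H75.gxu H51.ycv ybr_ (Pool.Agent.PSS.H86.rtc Pool.Agent.PSS.H20.csr) Pool.Agent.PSS.S0.H6.bki

/-- the output of block DR -/
theorem drq_ : DrqStmt :=
  H75.drr H40.qwv egx_ drg_ H69.lgd H77H.hlf

/-- the first order datum -/
theorem fox_ : FoxStmt := H75.fox H75.nsm H11.pwr

end Pool.Agent.PST.DRA
end -- Pool.Agent.PST.AsmDR
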