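import Pool.Agent.Helper12_AWB.B018

/-!
# Merged copies (generated) of the modules

* `Pool.Agent.Helper10_PFD.Sug`
* `Pool.Agent.Helper21_PSS.TPR`
* `Pool.Agent.Helper22_PSS.NLM`
* `Pool.Agent.Helper25_PSS.DTR`
* `Pool.Agent.Helper76_PFD.IDG`
* `Pool.Agent.Helper46_PSS.ALV`
* `Pool.Agent.Helper49_PSS.FOR`
* `Pool.Agent.Helper64_PSS.IDT`
* `Pool.Agent.Helper64_PSS.MOL`
* `Pool.Agent.Helper81_PSS.FLV`
-/

set_option autoImplicit false

section -- Pool.Agent.Helper10_PFD.Sug

/-!
Squad PFD, row SUG of part D2: successive approximation over a complete discrete valuation ring.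
-/

namespace Pool.Agent.PFD.D2.H10

theorem sug : SugStmt := by
  classical
  intro R F M _ _ c _ _ _ _ P hinv hstep x hx
  -- the sequence of approximations
  have hstep' : ∀ n x, ∃ z, 1 ≤ n → P n x → P (n + 1) (x + c.π ^ n • z) := by
    intro n x
    by_cases h : 1 ≤ n ∧ P n x
    · obtain ⟨z, hz⟩ := hstep n x h.1 h.2
      exact ⟨z, fun _ _ => hz⟩
    · exact ⟨0, fun h1 h2 => absurd ⟨h1, h2⟩ h⟩
  choose f hf using hstep'
  let xs : ℕ → M := fun n => Nat.rec x (fun n y => y + c.π ^ (n + 1) • f (n + 1) y) n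
  have hxs : ∀ n, P (n + 1) (xs n) := by
    intro n
    induction n with
    | zero => exact hx
    | succ n ih => exact hf (n + 1) (xs n) (Nat.succ_le_succ (Nat.zero_le n)) ih
  let w : ℕ → M := fun n => f (n + 1) (xs n)
  have hsucc : ∀ n, xs (n + 1) = xs n + c.π ^ (n + 1) • w n := fun n => rfl
  have hsum : ∀ n, xs n = x + c.π • ∑ i ∈ Finset.range n, c.π ^ i • w i := by
    intro n
    induction n with
    | zero =>
      rw [Finset.sum_range_zero, smul_zero, add_zero]
      rfl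
    | succ n ih =>
      rw [hsucc, ih, Finset.sum_range_succ, smul_add, ← add_assoc, smul_smul, ← pow_succ']
  -- the limit
  let b := Module.Free.chooseBasis R M
  have hc : ∀ k, ∃ r, ∀ n : ℕ, ∃ s, r - ∑ i ∈ Finset.range n, c.π ^ i * b.repr (w i) k =
      c.π ^ n * s := fun k => c.cpl (fun i => b.repr (w i) k)
  choose r hr using hc
  choose s hs using hr
  refine ⟨∑ k, r k • b k, ?_⟩
  intro n hn
  obtain ⟨m, rfl⟩ := Nat.exists_eq_add_of_le' hn
  have hw : ∀ i, w i = ∑ k, b.repr (w i) k • b k := fun i => (b.sum_repr (w i)).symm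
  have h1 : ∑ k, r k • b k = ∑ i ∈ Finset.range m, c.π ^ i • w i + c.π ^ m • ∑ k, s k m • b k := by
    have h2 : ∑ i ∈ Finset.range m, c.π ^ i • w i =
        ∑ k, (∑ i ∈ Finset.range m, c.π ^ i * b.repr (w i) k) • b k := by
      have h3 : ∀ i ∈ Finset.range m, c.π ^ i • w i =
          ∑ k, (c.π ^ i * b.repr (w i) k) • b k := by
        intro i _
        refine (congrArg (fun y => c.π ^ i • y) (hw i)).trans ?_
        rw [Finset.smul_sum]
        refine Finset.sum_congr rfl ?_
        intro k _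
        rw [smul_smul]
      rw [Finset.sum_congr rfl h3, Finset.sum_comm]
      refine Finset.sum_congr rfl ?_
      intro k _
      rw [Finset.sum_smul]
    rw [h2, Finset.smul_sum, ← Finset.sum_add_distrib]
    refine Finset.sum_congr rfl ?_
    intro k _
    rw [smul_smul, ← hs k m, ← add_smul]
    congr 1
    ring
  rw [h1, smul_add, ← add_assoc, ← hsum m, smul_smul, ← pow_succ']
  exact hinv (m + 1) (xs m) _ (hxs m)

end Pool.Agent.PFD.D2.H10
end -- Pool.Agent.Helper10_PFD.Sug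

section -- Pool.Agent.Helper21_PSS.TPR

/-!
# Row pss:TPR, the trace property modulo `q`
-/

open scoped BigOperators

noncomputable section

namespace Pool.Agent.PSS.S2.H21

open Pool.Agent.PSS

section cg

variable {R M : Type} [CommRing R] [AddCommGroup M] [Module R M] {q : R}

theorem cg_refl (a : M) : Cg q a a := ⟨0, by rw [sub_self, smul_zero]⟩

theorem cg_symm {a b : M} (h : Cg q a b) : Cg q b a := by
  obtain ⟨d, hd⟩ := h
  refine ⟨-d, ?_⟩
  rw [smul_neg, ← hd, neg_sub]

theorem cg_trans {a b c : M} (h : Cg q a b) (h' : Cg q b c) : Cg q a c := by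
  obtain ⟨d, hd⟩ := h
  obtain ⟨d', hd'⟩ := h'
  refine ⟨d + d', ?_⟩
  rw [smul_add, ← hd, ← hd']
  abel

theorem cg_sum {ι : Type} (s : Finset ι) (f g : ι → M) (h : ∀ i, Cg q (f i) (g i)) :
    Cg q (∑ i ∈ s, f i) (∑ i ∈ s, g i) := by
  choose d hd using h
  refine ⟨∑ i ∈ s, d i, ?_⟩
  rw [Finset.smul_sum, ← Finset.sum_sub_distrib]
  exact Finset.sum_congr rfl fun i _ => hd i

end cg

/-- the double sum -/
def Sd {R V A K : Type} [CommRing R] [CommGroup V] [Fintype V] [Ring A] [Algebra R A] [Fintype K]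
    (α : V →* A) (lam : A →ₗ[R] R) (x y : K → A) (f g : A →ₗ[R] A) : R :=
  ∑ k, ∑ j, ∑ v, lam (α v⁻¹ * y j * g (x k)) * lam (α v * y k * f (x j))

theorem t1_comp {R V A K : Type} [CommRing R] [CommGroup V] [Fintype V] [Ring A] [Algebra R A]
    [Fintype K] (q : R) (α : V →* A) (lam : A →ₗ[R] R) (x y : K → A) (f g : A →ₗ[R] A)
    (h : RF R α lam x y) (hf : RLq q α f) :
    Cg q (t1 lam x y (f ∘ₗ g)) (Sd α lam x y f g) := by
  unfold t1 Sd
  refine cg_sum _ _ _ fun k => ?_
  have e1 : lam (y k * (f ∘ₗ g) (x k)) =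
      ∑ j, ∑ v, lam (α v⁻¹ * y j * g (x k)) * lam (y k * f (x j * α v)) := by
    rw [LinearMap.comp_apply]
    conv_lhs => rw [← h.e1 (g (x k))]
    simp only [map_sum, map_smul, Finset.mul_sum, mul_smul_comm, smul_eq_mul]
  rw [e1]
  refine cg_sum _ _ _ fun j => cg_sum _ _ _ fun v => ?_
  obtain ⟨d, hd⟩ := hf (x j) v
  refine ⟨lam (α v⁻¹ * y j * g (x k)) * lam (y k * d), ?_⟩
  have e2 : lam (α v * y k * f (x j)) = lam (y k * (f (x j) * α v)) := by
    rw [mul_assoc, h.sym, mul_assoc]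
  rw [e2, ← mul_sub, ← map_sub, ← mul_sub, hd, mul_smul_comm, map_smul, smul_eq_mul, smul_eq_mul]
  ring

theorem sd_symm {R V A K : Type} [CommRing R] [CommGroup V] [Fintype V] [Ring A] [Algebra R A]
    [Fintype K] (α : V →* A) (lam : A →ₗ[R] R) (x y : K → A) (f g : A →ₗ[R] A) :
    Sd α lam x y f g = Sd α lam x y g f := by
  unfold Sd
  rw [Finset.sum_comm]
  refine Finset.sum_congr rfl fun k _ => Finset.sum_congr rfl fun j _ => ?_
  rw [← Equiv.sum_comp (Equiv.inv V)]
  refine Finset.sum_congr rfl fun v _ => ?_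
  rw [Equiv.inv_apply, inv_inv, mul_comm]

theorem tpr : TprStmt := by
  intro R V A K _ _ _ _ _ _ q α lam x y f g h hf hg
  refine cg_trans (t1_comp q α lam x y f g h hf) ?_
  rw [sd_symm]
  exact cg_symm (t1_comp q α lam x y g f h hg)

end Pool.Agent.PSS.S2.H21
end
end -- Pool.Agent.Helper21_PSS.TPR

section -- Pool.Agent.Helper22_PSS.NLM

/-!
# Squad PSS, block S2, row NLM (helper22)
-/

set_option autoImplicit false

open scoped BigOperators

namespace Pool.Agent.PSS.S2.H22

open Pool.Agent.PSS Pool.Agent.PSS.S2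

theorem nlm : NlmStmt := by
  classical
  intro F V A K _ _ _ _ _ _ α lam x y a hrf ha
  have hshift : ∀ (u : V) (b : A), ∑ v, lam (α v⁻¹ * b * α u) = ∑ v, lam (α v⁻¹ * b) := by
    intro u b
    rw [← Equiv.sum_comp (Equiv.mulRight u) (fun v => lam (α v⁻¹ * b * α u))]
    refine Finset.sum_congr rfl fun v _ => ?_
    show lam (α (v * u)⁻¹ * b * α u) = _
    rw [hrf.sym, ← mul_assoc, ← map_mul, mul_inv_rev, mul_inv_cancel_left]
  let m : A → Matrix K K F := fun a => Matrix.of fun j k => ∑ v, lam (α v⁻¹ * (y j * a * x k))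
  have hm : ∀ a j k, m a j k = ∑ v, lam (α v⁻¹ * (y j * a * x k)) := fun a j k => rfl
  have hmul : ∀ a b, m (a * b) = m a * m b := by
    intro a b
    ext j l
    rw [Matrix.mul_apply, hm]
    have h1 := hrf.e1 (b * x l)
    have h2 : ∀ v : V, lam (α v⁻¹ * (y j * (a * b) * x l)) =
        ∑ k, ∑ u, lam (α u⁻¹ * y k * (b * x l)) * lam (α v⁻¹ * (y j * a * x k) * α u) := by
      intro v
      have e : α v⁻¹ * (y j * (a * b) * x l) = α v⁻¹ * (y j * a) * (b * x l) := by
        simp only [mul_assoc]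
      rw [e]
      conv_lhs => rw [← h1]
      rw [Finset.mul_sum, map_sum]
      refine Finset.sum_congr rfl fun k _ => ?_
      rw [Finset.mul_sum, map_sum]
      refine Finset.sum_congr rfl fun u _ => ?_
      rw [mul_smul_comm, map_smul, smul_eq_mul]
      simp only [mul_assoc]
    rw [Finset.sum_congr rfl fun v _ => h2 v, Finset.sum_comm]
    refine Finset.sum_congr rfl fun k _ => ?_
    rw [Finset.sum_comm, hm, hm, Finset.mul_sum]
    refine Finset.sum_congr rfl fun u _ => ?_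
    rw [← Finset.mul_sum, hshift, mul_comm]
    simp only [mul_assoc]
  have hpow : ∀ n : ℕ, m (a ^ (n + 1)) = m a ^ (n + 1) := by
    intro n
    induction n with
    | zero => rw [zero_add, pow_one, pow_one]
    | succ n ih => rw [pow_succ, hmul, ih, ← pow_succ]
  obtain ⟨n, hn⟩ := ha
  have hnil : IsNilpotent (m a) := by
    refine ⟨n + 1, ?_⟩
    rw [← hpow, pow_succ, hn, zero_mul]
    ext j k
    rw [hm]
    simp
  have htr := (Matrix.isNilpotent_trace_of_isNilpotent hnil).eq_zero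
  rw [← htr, Matrix.trace]
  refine Finset.sum_congr rfl fun k _ => ?_
  rw [Matrix.diag_apply, hm, sg, Finset.mul_sum, Finset.mul_sum, map_sum]
  rw [← Equiv.sum_comp (Equiv.inv V)]
  refine Finset.sum_congr rfl fun v _ => ?_
  show lam (y k * (a * x k * α v⁻¹)) = _
  rw [hrf.sym (α v⁻¹)]
  simp only [mul_assoc]

end Pool.Agent.PSS.S2.H22
end -- Pool.Agent.Helper22_PSS.NLM

section -- Pool.Agent.Helper25_PSS.DTR

/-! Squad PSS, block S2, row DTR: the trace of a commutator with a connection. -/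

set_option autoImplicit false

open scoped BigOperators

noncomputable section

namespace Pool.Agent.PSS.S2.H25

open Pool.Agent.PSS Pool.Agent.PSS.S2

/-- the purely combinatorial part -/
theorem comb {R V K : Type} [CommRing R] [CommGroup V] [Fintype V] [Fintype K]
    (D P : K → K → V → R) (c : V → R) (hc : ∀ u v, c (u * v) = c u + c v)
    (h3 : ∀ k j v, D k j v = ∑ l, ∑ u, D l j u * D k l (u⁻¹ * v))
    (h4 : ∀ l j u, ∑ k, ∑ v, D k l v * P j k (u * v)⁻¹ = P j l u⁻¹)
    (h5 : ∀ l k v, ∑ j, ∑ u, D l j u * P j k (u * v)⁻¹ = P l k v⁻¹) :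
    ∑ k, ∑ j, ∑ v, c v * D k j v * P j k v⁻¹ = 0 := by
  have key : ∑ k, ∑ j, ∑ v, c v * D k j v * P j k v⁻¹ =
      ∑ k, ∑ j, ∑ v, c v * D k j v * P j k v⁻¹ + ∑ k, ∑ j, ∑ v, c v * D k j v * P j k v⁻¹ := by
    have e1 : ∀ k j, ∑ v, c v * D k j v * P j k v⁻¹ =
        ∑ l, ∑ u, ∑ v, (c u + c v) * (D l j u * D k l v * P j k (u * v)⁻¹) := by
      intro k j
      have e2 : ∀ v, c v * D k j v * P j k v⁻¹ =
          ∑ l, ∑ u, c v * (D l j u * D k l (u⁻¹ * v) * P j k v⁻¹) := by
        intro v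
        rw [h3 k j v, Finset.mul_sum, Finset.sum_mul]
        refine Finset.sum_congr rfl fun l _ => ?_
        rw [Finset.mul_sum, Finset.sum_mul]
        refine Finset.sum_congr rfl fun u _ => ?_
        ring
      rw [Finset.sum_congr rfl fun v _ => e2 v, Finset.sum_comm]
      refine Finset.sum_congr rfl fun l _ => ?_
      rw [Finset.sum_comm]
      refine Finset.sum_congr rfl fun u _ => ?_
      rw [← Equiv.sum_comp (Equiv.mulLeft u)]
      refine Finset.sum_congr rfl fun v _ => ?_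
      rw [Equiv.coe_mulLeft, inv_mul_cancel_left, hc]
    have e3 : ∑ k, ∑ j, ∑ l, ∑ u, ∑ v, c u * (D l j u * D k l v * P j k (u * v)⁻¹) =
        ∑ k, ∑ j, ∑ v, c v * D k j v * P j k v⁻¹ := by
      -- sum over k, v first
      have e4 : ∀ j l u, ∑ k, ∑ v, c u * (D l j u * D k l v * P j k (u * v)⁻¹) =
          c u * D l j u * P j l u⁻¹ := by
        intro j l u
        rw [← h4 l j u, Finset.mul_sum]
        refine Finset.sum_congr rfl fun k _ => ?_
        rw [Finset.mul_sum]
        refine Finset.sum_congr rfl fun v _ => ?_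
        ring
      calc ∑ k, ∑ j, ∑ l, ∑ u, ∑ v, c u * (D l j u * D k l v * P j k (u * v)⁻¹)
          = ∑ j, ∑ l, ∑ u, ∑ k, ∑ v, c u * (D l j u * D k l v * P j k (u * v)⁻¹) := by
            rw [Finset.sum_comm]
            refine Finset.sum_congr rfl fun j _ => ?_
            rw [Finset.sum_comm]
            refine Finset.sum_congr rfl fun l _ => ?_
            rw [Finset.sum_comm]
        _ = ∑ j, ∑ l, ∑ u, c u * D l j u * P j l u⁻¹ := by
            simp only [e4]
        _ = _ := Finset.sum_comm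
    have e5 : ∑ k, ∑ j, ∑ l, ∑ u, ∑ v, c v * (D l j u * D k l v * P j k (u * v)⁻¹) =
        ∑ k, ∑ j, ∑ v, c v * D k j v * P j k v⁻¹ := by
      have e6 : ∀ k l v, ∑ j, ∑ u, c v * (D l j u * D k l v * P j k (u * v)⁻¹) =
          c v * D k l v * P l k v⁻¹ := by
        intro k l v
        rw [← h5 l k v, Finset.mul_sum]
        refine Finset.sum_congr rfl fun j _ => ?_
        rw [Finset.mul_sum]
        refine Finset.sum_congr rfl fun u _ => ?_
        ring
      refine Finset.sum_congr rfl fun k _ => ?_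
      rw [Finset.sum_comm]
      refine Finset.sum_congr rfl fun l _ => ?_
      rw [Finset.sum_congr rfl fun j _ => Finset.sum_comm, Finset.sum_comm]
      exact Finset.sum_congr rfl fun v _ => e6 k l v
    conv_lhs =>
      rw [Finset.sum_congr rfl fun k _ => Finset.sum_congr rfl fun j _ => e1 k j]
    simp only [add_mul, Finset.sum_add_distrib]
    rw [e3, e5]
  exact left_eq_add.mp key

/-- **DTR** -/
theorem dtr : DtrStmt := by
  intro R V A K _ _ _ _ _ _ q α lam x y χ N g hF hN hg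
  obtain ⟨p, hp⟩ : ∃ p : R →+* (R ⧸ Ideal.span {q}), ∀ a b : R, Cg q a b ↔ p a = p b := by
    refine ⟨Ideal.Quotient.mk _, fun a b => ?_⟩
    rw [Ideal.Quotient.eq, Ideal.mem_span_singleton']
    constructor
    · rintro ⟨d, hd⟩
      exact ⟨d, by rw [hd, smul_eq_mul, mul_comm]⟩
    · rintro ⟨d, hd⟩
      exact ⟨d, by rw [← hd, smul_eq_mul, mul_comm]⟩
  have hL : ∀ (L : A →ₗ[R] R) (a b : A), Cg q a b → p (L a) = p (L b) := by
    rintro L a b ⟨d, hd⟩
    rw [← hp]
    exact ⟨L d, by rw [← map_sub, hd, map_smul]⟩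
  have hc : ∀ u v, p (χ (u * v)) = p (χ u) + p (χ v) := by
    intro u v
    rw [← map_add, ← hp]
    exact hN.add u v
  have hc1 : p (χ 1) = 0 := by
    have h := hc 1 1
    rw [mul_one] at h
    exact left_eq_add.mp h
  have hci : ∀ v, p (χ v⁻¹) = - p (χ v) := by
    intro v
    have h := hc v v⁻¹
    rw [mul_inv_cancel, hc1] at h
    exact eq_neg_of_add_eq_zero_right h.symm
  let D : K → K → V → R ⧸ Ideal.span {q} := fun k j v => p (lam (α v⁻¹ * y k * x j))
  let P : K → K → V → R ⧸ Ideal.span {q} := fun j k v => p (lam (α v⁻¹ * y j * g (x k)))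
  let M : K → K → V → R ⧸ Ideal.span {q} := fun k j v => p (lam (α v⁻¹ * y k * N (x j)))
  have hcyc : ∀ (v : V) (a b : A), lam (a * (b * α v)) = lam (α v * a * b) := by
    intro v a b
    rw [← mul_assoc, hF.sym, mul_assoc]
  -- first term
  have h1 : ∀ k, p (lam (y k * N (g (x k)))) =
      ∑ j, ∑ v, P j k v * (M k j v⁻¹ + p (χ v) * D k j v⁻¹) := by
    intro k
    have e := congrArg (fun a => p (lam (y k * N a))) (hF.e1 (g (x k)))
    simp only [map_sum, map_smul, Finset.mul_sum, mul_smul_comm, smul_eq_mul, map_mul] at e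
    rw [← e]
    refine Finset.sum_congr rfl fun j _ => Finset.sum_congr rfl fun v _ => ?_
    show _ = p (lam (α v⁻¹ * y j * g (x k))) * _
    congr 1
    have e2 := hL (lam.comp (LinearMap.mulLeft R (y k))) _ _ (hN.lin (x j) v)
    simp only [LinearMap.comp_apply, LinearMap.mulLeft_apply, mul_add, map_add, mul_smul_comm,
      map_smul, smul_eq_mul, map_mul] at e2
    rw [e2, hcyc, hcyc]
    show _ = p (lam (α v⁻¹⁻¹ * y k * N (x j))) + p (χ v) * p (lam (α v⁻¹⁻¹ * y k * x j))
    rw [inv_inv]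
  have h2 : ∀ k, p (lam (y k * g (N (x k)))) = ∑ j, ∑ v, M j k v * P k j v⁻¹ := by
    intro k
    have e := congrArg (fun a => p (lam (y k * g a))) (hF.e1 (N (x k)))
    simp only [map_sum, map_smul, Finset.mul_sum, mul_smul_comm, smul_eq_mul, map_mul] at e
    rw [← e]
    refine Finset.sum_congr rfl fun j _ => Finset.sum_congr rfl fun v _ => ?_
    show _ = p (lam (α v⁻¹ * y j * N (x k))) * p (lam (α v⁻¹⁻¹ * y k * g (x j)))
    congr 1
    have e2 := hL (lam.comp (LinearMap.mulLeft R (y k))) _ _ (hg (x j) v)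
    simp only [LinearMap.comp_apply, LinearMap.mulLeft_apply] at e2
    rw [e2, hcyc, inv_inv]
  have h3 : ∀ k j v, D k j v = ∑ l, ∑ u, D l j u * D k l (u⁻¹ * v) := by
    intro k j v
    have e := congrArg (fun a => p (lam (α v⁻¹ * y k * a))) (hF.e1 (x j))
    simp only [map_sum, map_smul, Finset.mul_sum, mul_smul_comm, smul_eq_mul, map_mul] at e
    show p (lam (α v⁻¹ * y k * x j)) = _
    rw [← e]
    refine Finset.sum_congr rfl fun l _ => Finset.sum_congr rfl fun u _ => ?_
    show _ = p (lam (α u⁻¹ * y l * x j)) * p (lam (α (u⁻¹ * v)⁻¹ * y k * x l))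
    congr 1
    rw [hcyc, mul_inv_rev, inv_inv, mul_comm v⁻¹ u, map_mul α]
    simp only [mul_assoc]
  have h4 : ∀ l j u, ∑ k, ∑ v, D k l v * P j k (u * v)⁻¹ = P j l u⁻¹ := by
    intro l j u
    have e := congrArg (fun a => p (lam (α u * y j * g a))) (hF.e1 (x l))
    simp only [map_sum, map_smul, Finset.mul_sum, mul_smul_comm, smul_eq_mul, map_mul] at e
    show _ = p (lam (α u⁻¹⁻¹ * y j * g (x l)))
    rw [inv_inv, ← e]
    refine Finset.sum_congr rfl fun k _ => Finset.sum_congr rfl fun v _ => ?_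
    show p (lam (α v⁻¹ * y k * x l)) * p (lam (α (u * v)⁻¹⁻¹ * y j * g (x k))) = _
    congr 1
    have e2 := hL (lam.comp (LinearMap.mulLeft R (α u * y j))) _ _ (hg (x k) v)
    simp only [LinearMap.comp_apply, LinearMap.mulLeft_apply] at e2
    rw [e2, hcyc, inv_inv, mul_comm u v, map_mul α]
    simp only [mul_assoc]
  have h5 : ∀ l k v, ∑ j, ∑ u, D l j u * P j k (u * v)⁻¹ = P l k v⁻¹ := by
    intro l k v
    have e := congrArg (fun a => p (lam (α v * a * g (x k)))) (hF.e2 (y l))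
    simp only [map_sum, map_smul, Finset.mul_sum, Finset.sum_mul, mul_smul_comm, smul_mul_assoc,
      smul_eq_mul, map_mul] at e
    show _ = p (lam (α v⁻¹⁻¹ * y l * g (x k)))
    rw [inv_inv, ← e]
    refine Finset.sum_congr rfl fun j _ => ?_
    rw [← Equiv.sum_comp (Equiv.inv V)]
    refine Finset.sum_congr rfl fun u _ => ?_
    rw [Equiv.inv_apply]
    show p (lam (α u⁻¹⁻¹ * y l * x j)) * p (lam (α (u⁻¹ * v)⁻¹⁻¹ * y j * g (x k))) = _
    rw [inv_inv, inv_inv, hcyc, mul_comm u⁻¹ v, map_mul α]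
    simp only [mul_assoc]
  have hC := comb D P (fun v => p (χ v)) hc h3 h4 h5
  rw [hp, map_zero]
  have e0 : p (∑ k, lam (y k * (N (g (x k)) - g (N (x k))))) =
      ∑ k, p (lam (y k * N (g (x k)))) - ∑ k, p (lam (y k * g (N (x k)))) := by
    rw [map_sum, ← Finset.sum_sub_distrib]
    refine Finset.sum_congr rfl fun k _ => ?_
    rw [mul_sub, map_sub, map_sub]
  rw [e0, Finset.sum_congr rfl fun k _ => h1 k, Finset.sum_congr rfl fun k _ => h2 k]
  simp only [mul_add, Finset.sum_add_distrib]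
  have e6 : ∑ k, ∑ j, ∑ v, P j k v * M k j v⁻¹ = ∑ k, ∑ j, ∑ v, M j k v * P k j v⁻¹ := by
    rw [Finset.sum_comm]
    refine Finset.sum_congr rfl fun j _ => Finset.sum_congr rfl fun k _ => ?_
    rw [← Equiv.sum_comp (Equiv.inv V)]
    refine Finset.sum_congr rfl fun v _ => ?_
    rw [Equiv.inv_apply, inv_inv, mul_comm]
  have e7 : ∑ k, ∑ j, ∑ v, P j k v * (p (χ v) * D k j v⁻¹) =
      - ∑ k, ∑ j, ∑ v, p (χ v) * D k j v * P j k v⁻¹ := by
    simp only [← Finset.sum_neg_distrib]
    refine Finset.sum_congr rfl fun k _ => Finset.sum_congr rfl fun j _ => ?_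
    rw [← Equiv.sum_comp (Equiv.inv V)]
    refine Finset.sum_congr rfl fun v _ => ?_
    rw [Equiv.inv_apply, inv_inv, hci]
    ring
  rw [e6, e7, hC, neg_zero, add_zero, sub_self]

end Pool.Agent.PSS.S2.H25
end
end -- Pool.Agent.Helper25_PSS.DTR

section -- Pool.Agent.Helper76_PFD.IDG

/-! Row IDG of squad PFD: lifting of idempotent endomorphisms which commute with a set of
endomorphisms, over a complete discrete valuation ring. -/

namespace Pool.Agent.PFD.D2.H76

open MulOpposite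
open Pool.Agent.PFC.B1 (BiM FS Sep)

section free

variable {R F M : Type} [CommRing R] [Field F] (c : Cdv R F) [AddCommGroup M] [Module R M]
  [Module.Free R M]

include c in
theorem smul_pow_eq_zero (n : ℕ) (x : M) (h : c.π ^ n • x = 0) : x = 0 := by
  have hreg : ∀ (n : ℕ) (r : R), c.π ^ n * r = 0 → r = 0 := by
    intro n
    induction n with
    | zero => intro r hr; rwa [pow_zero, one_mul] at hr
    | succ n ih =>
      intro r hr
      rw [pow_succ', mul_assoc] at hr
      exact ih r (c.reg _ hr)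
  obtain ⟨b, -⟩ : ∃ b : Module.Basis (Module.Free.ChooseBasisIndex R M) R M, b = b :=
    ⟨Module.Free.chooseBasis R M, rfl⟩
  rw [← b.repr.map_eq_zero_iff]
  ext i
  have h1 := congrArg (fun y => b.repr y i) h
  simp only [map_smul, Finsupp.smul_apply, smul_eq_mul, map_zero, Finsupp.zero_apply] at h1
  exact hreg n _ h1

include c in
theorem eq_zero_of_div (x : M) (h : ∀ n : ℕ, ∃ y, x = c.π ^ n • y) : x = 0 := by
  obtain ⟨b, -⟩ : ∃ b : Module.Basis (Module.Free.ChooseBasisIndex R M) R M, b = b :=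
    ⟨Module.Free.chooseBasis R M, rfl⟩
  rw [← b.repr.map_eq_zero_iff]
  ext i
  rw [Finsupp.zero_apply]
  apply c.sep
  intro n
  obtain ⟨y, hy⟩ := h n
  refine ⟨b.repr y i, ?_⟩
  rw [hy, map_smul, Finsupp.smul_apply, smul_eq_mul]

theorem exists_factor (r : R) (u : Module.End R M) (h : ∀ x, ∃ y, u x = r • y) :
    ∃ w : Module.End R M, u = r • w := by
  obtain ⟨b, -⟩ : ∃ b : Module.Basis (Module.Free.ChooseBasisIndex R M) R M, b = b :=
    ⟨Module.Free.chooseBasis R M, rfl⟩
  choose y hy using h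
  refine ⟨b.constr R fun i => y (b i), b.ext fun i => ?_⟩
  rw [LinearMap.smul_apply, Module.Basis.constr_basis, hy]

end free

theorem idg (hsug : SugStmt) : IdgStmt := by
  intro R F M _ _ _ _ c _ _ _ _ S e hS he
  obtain ⟨C, hC⟩ : ∃ C : Submodule R (Module.End R M), ∀ f, f ∈ C ↔ ∀ s ∈ S, s * f = f * s :=
    ⟨{ carrier := {f | ∀ s ∈ S, s * f = f * s}
       add_mem' := fun {a b} ha hb s hs => by rw [mul_add, add_mul, ha s hs, hb s hs]
       zero_mem' := fun s _ => by rw [mul_zero, zero_mul]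
       smul_mem' := fun r a ha s hs => by rw [mul_smul_comm, smul_mul_assoc, ha s hs] },
      fun f => Iff.rfl⟩
  have hnoe : IsNoetherian R (Module.End R M) := isNoetherian_of_isNoetherianRing_of_finite R _
  have hfin : Module.Finite R C := Module.Finite.of_fg (IsNoetherian.noetherian C)
  have hfree : Module.Free R C := inferInstance
  have hmul : ∀ a b, a ∈ C → b ∈ C → a * b ∈ C := by
    intro a b ha hb
    rw [hC] at *
    intro s hs
    rw [← mul_assoc, ha s hs, mul_assoc, hb s hs, mul_assoc]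
  have hone : (1 : Module.End R M) ∈ C := by
    rw [hC]
    intro s _
    rw [mul_one, one_mul]
  obtain ⟨P, hP⟩ : ∃ P : ℕ → C → Prop, ∀ n f, P n f ↔
      ∃ w : Module.End R M, (f : Module.End R M) * f - f = c.π ^ n • w :=
    ⟨fun n f => ∃ w : Module.End R M, (f : Module.End R M) * f - f = c.π ^ n • w,
      fun _ _ => Iff.rfl⟩
  have heC : e ∈ C := (hC e).2 hS
  obtain ⟨z, hz⟩ := hsug R F C c P (by
    intro n f z hf
    rw [hP] at hf ⊢
    obtain ⟨w, hw⟩ := hf
    refine ⟨w + (f : Module.End R M) * z + z * f + c.π ^ n • ((z : Module.End R M) * z) - z, ?_⟩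
    rw [Submodule.coe_add, Submodule.coe_smul]
    have h1 : ((f : Module.End R M) + c.π ^ n • (z : Module.End R M)) *
        (f + c.π ^ n • (z : Module.End R M)) - (f + c.π ^ n • (z : Module.End R M)) =
        (f * f - f) + c.π ^ n • ((f : Module.End R M) * z + z * f +
          c.π ^ n • ((z : Module.End R M) * z) - z) := by
      simp only [mul_add, add_mul, smul_mul_assoc, mul_smul_comm, smul_add, smul_sub]
      abel
    rw [h1, hw, ← smul_add]
    congr 1
    abel) (by
    intro n f hn hf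
    rw [hP] at hf
    obtain ⟨w, hw⟩ := hf
    -- `w` commutes with `S`
    have hwC : w ∈ C := by
      rw [hC]
      intro s hs
      have h1 : c.π ^ n • (s * w - w * s) = 0 := by
        rw [smul_sub, ← mul_smul_comm, ← smul_mul_assoc, ← hw]
        have h2 := (hC _).1 f.2 s hs
        have h3 : s * ((f : Module.End R M) * f - f) = ((f : Module.End R M) * f - f) * s := by
          rw [mul_sub, sub_mul, ← mul_assoc, h2, mul_assoc, h2, mul_assoc]
        rw [h3, sub_self]
      exact sub_eq_zero.1 (smul_pow_eq_zero c n _ h1)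
    obtain ⟨g, hg⟩ : ∃ g : Module.End R M, g = f := ⟨_, rfl⟩
    have hgC : g ∈ C := by rw [hg]; exact f.2
    have hzC : w * (1 - 2 • g) ∈ C :=
      hmul _ _ hwC (C.sub_mem hone (C.smul_of_tower_mem 2 hgC))
    refine ⟨⟨w * (1 - 2 • g), hzC⟩, ?_⟩
    rw [hP, Submodule.coe_add, Submodule.coe_smul, ← hg]
    rw [← hg] at hw
    obtain ⟨u, hu⟩ : ∃ u : Module.End R M, u = g * g - g := ⟨_, rfl⟩
    rw [← hu] at hw
    have h1 : c.π ^ n • (w * (1 - 2 • g)) = u * (1 - 2 • g) := by
      rw [hw, smul_mul_assoc]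
    have h2 : (g + u * (1 - 2 • g)) * (g + u * (1 - 2 • g)) - (g + u * (1 - 2 • g)) =
        u * u * (4 • u - 3) := by
      rw [hu]
      noncomm_ring
    refine ⟨c.π ^ (n - 1) • (w * w * (4 • u - 3)), ?_⟩
    have h3 : c.π ^ n * c.π ^ n = c.π ^ (n + 1) * c.π ^ (n - 1) := by
      rw [← pow_add, ← pow_add]
      congr 1
      omega
    have h4 : u * u * (4 • u - 3) = (c.π ^ n * c.π ^ n) • (w * w * (4 • u - 3)) := by
      obtain ⟨v, hv⟩ : ∃ v : Module.End R M, v = 4 • u - 3 := ⟨_, rfl⟩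
      rw [← hv, hw, smul_mul_smul_comm, smul_mul_assoc]
    rw [h1, h2, h4, h3, mul_smul]) ⟨e, heC⟩ (by
      rw [hP, pow_one]
      exact exists_factor c.π (e * e - e) (fun x => he x))
  refine ⟨e + c.π • (z : Module.End R M), ?_, ?_, ?_⟩
  · rw [← sub_eq_zero]
    apply eq_zero_of_div c
    intro n
    rcases Nat.eq_zero_or_pos n with hn | hn
    · rw [hn]
      exact ⟨_, by rw [pow_zero, one_smul]⟩
    · obtain ⟨w, hw⟩ := (hP _ _).1 (hz n hn)
      exact ⟨w, hw⟩
  · intro s hs
    exact (hC _).1 (C.add_mem heC (C.smul_mem _ z.2)) s hs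
  · intro x
    refine ⟨(z : Module.End R M) x, ?_⟩
    rw [LinearMap.add_apply, LinearMap.smul_apply, add_sub_cancel_left]

end Pool.Agent.PFD.D2.H76
end -- Pool.Agent.Helper76_PFD.IDG

section -- Pool.Agent.Helper46_PSS.ALV

/-!
# Squad PSS, row ALV (helper46): the multiplication lifts
-/

open scoped BigOperators TensorProduct

noncomputable section

namespace Pool.Agent.PSS.H46

open Pool.Agent.PFD.D2 (Cdv FibG)
open Pool.Agent.PFD.D2b (FrR)
open Finset

theorem bw1 {F V A : Type} [Field F] [CommGroup V] [Ring A] [Algebra F A] (α : V →* A) (g : V)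
    (a : A) : bw F α (g, 1) a = α g * a := by
  change α g * (a * α (1 : V)⁻¹) = α g * a
  rw [inv_one, map_one, mul_one]

theorem bw2 {F V A : Type} [Field F] [CommGroup V] [Ring A] [Algebra F A] (α : V →* A) (g : V)
    (a : A) : bw F α (1, g) a = a * α g⁻¹ := by
  change α 1 * (a * α g⁻¹) = a * α g⁻¹
  rw [map_one, one_mul]

theorem rb_mul {F V A : Type} [Field F] [CommGroup V] [Ring A] [Algebra F A] (α : V →* A) :
    RB (bw F α) (LinearMap.mul F A) := by
  refine ⟨?_, ?_, ?_⟩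
  · intro g x y
    rw [bw1, bw1, LinearMap.mul_apply', LinearMap.mul_apply', mul_assoc]
  · intro g x y
    rw [bw2, bw1, LinearMap.mul_apply', LinearMap.mul_apply', mul_assoc]
  · intro g x y
    rw [bw2, bw2, LinearMap.mul_apply', LinearMap.mul_apply', mul_assoc]

theorem sepM {R F M : Type} [CommRing R] [Field F] (c : Cdv R F) [AddCommGroup M] [Module R M]
    [Module.Free R M] (m : M) (h : ∀ n : ℕ, 1 ≤ n → ∃ w : M, m = c.π ^ n • w) : m = 0 := by
  let b := Module.Free.chooseBasis R M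
  apply b.repr.injective
  rw [map_zero]
  ext k
  rw [Finsupp.zero_apply]
  apply c.sep
  intro n
  rcases Nat.eq_zero_or_pos n with hn | hn
  · subst hn
    exact ⟨b.repr m k, by rw [pow_zero, one_mul]⟩
  · obtain ⟨w, hw⟩ := h n hn
    refine ⟨b.repr w k, ?_⟩
    rw [hw, map_smul, Finsupp.smul_apply, smul_eq_mul]

theorem alv (hS : StvStmt) : AlvStmt := by
  intro R F V A M K _ _ _ c _ _ _ _ _ _ _ _ α u v hC ρ q hq hL
  have hstv := hS R F V A M K c α u v hC ρ q hq hL
  have hκ : c.κ c.π = 0 := (c.ker c.π).mpr ⟨1, (mul_one _).symm⟩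
  have hqp : ∀ (n : ℕ) (x : M), 1 ≤ n → q (c.π ^ n • x) = 0 := by
    intro n x hn
    rw [hq.sc, map_pow, hκ, zero_pow (by omega), zero_smul]
  obtain ⟨β₁, hβ₁, hq₁⟩ := hL (LinearMap.mul F A) (rb_mul α)
  have hq₁' : ∀ x y, q (β₁ x y) = q x * q y := fun x y => by
    rw [hq₁, LinearMap.mul_apply']
  let P : ℕ → (M →ₗ[R] M →ₗ[R] M) → Prop := fun n β =>
    ∃ β' : M →ₗ[R] M →ₗ[R] M, RB ρ β' ∧ (∀ x y, q (β' x y) = q x * q y) ∧
      (∀ x y z, ∃ w, asr β' x y z = c.π ^ n • w) ∧
      ∃ γ : M →ₗ[R] M →ₗ[R] M, β = β' + c.π ^ n • γ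
  have hP1 : P 1 β₁ := by
    refine ⟨β₁, hβ₁, hq₁', ?_, 0, by rw [smul_zero, add_zero]⟩
    intro x y z
    rw [pow_one]
    apply (hq.kr _).mp
    unfold asr
    rw [map_sub, hq₁', hq₁', hq₁', hq₁', mul_assoc, sub_self]
  have hinv : ∀ n x z, P n x → P n (x + c.π ^ n • z) := by
    rintro n x z ⟨β', h1, h2, h3, γ, h4⟩
    exact ⟨β', h1, h2, h3, γ + z, by rw [h4, smul_add, add_assoc]⟩
  have hstep : ∀ n x, 1 ≤ n → P n x → ∃ z, P (n + 1) (x + c.π ^ n • z) := by
    rintro n x hn ⟨β', h1, h2, h3, γ, h4⟩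
    obtain ⟨ν, hν, hasr⟩ := hstv β' n hn h1 h2 h3
    refine ⟨ν - γ, β' + c.π ^ n • ν, ?_, ?_, hasr, 0, ?_⟩
    · obtain ⟨a1, a2, a3⟩ := h1
      obtain ⟨b1, b2, b3⟩ := hν
      refine ⟨?_, ?_, ?_⟩
      · intro g x y
        simp only [LinearMap.add_apply, LinearMap.smul_apply, a1, b1, map_add, map_smul]
      · intro g x y
        simp only [LinearMap.add_apply, LinearMap.smul_apply, a2, b2]
      · intro g x y
        simp only [LinearMap.add_apply, LinearMap.smul_apply, a3, b3, map_add, map_smul]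
    · intro x y
      rw [LinearMap.add_apply, LinearMap.add_apply, LinearMap.smul_apply, LinearMap.smul_apply,
        map_add, h2, hqp n _ hn, add_zero]
    · rw [h4, smul_zero, add_zero, smul_sub]
      abel
  obtain ⟨z, hz⟩ := Pool.Agent.PFD.D2.H10.sug R F (M →ₗ[R] M →ₗ[R] M) c P hinv hstep β₁ hP1
  set β := β₁ + c.π • z with hβdef
  have hval : ∀ (β' γ : M →ₗ[R] M →ₗ[R] M) (n : ℕ), β = β' + c.π ^ n • γ →
      ∀ x y, β x y = β' x y + c.π ^ n • γ x y := by
    intro β' γ n h x y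
    rw [h, LinearMap.add_apply, LinearMap.add_apply, LinearMap.smul_apply, LinearMap.smul_apply]
  refine ⟨β, ⟨?_, ?_, ?_⟩, ?_, ?_⟩
  · intro g x y
    rw [← sub_eq_zero]
    apply sepM c
    intro n hn
    obtain ⟨β', h1, -, -, γ, h4⟩ := hz n hn
    refine ⟨γ (ρ (g, 1) x) y - ρ (g, 1) (γ x y), ?_⟩
    rw [hval β' γ n h4, hval β' γ n h4, h1.1, map_add, map_smul, smul_sub]
    abel
  · intro g x y
    rw [← sub_eq_zero]
    apply sepM c
    intro n hn
    obtain ⟨β', h1, -, -, γ, h4⟩ := hz n hn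
    refine ⟨γ (ρ (1, g) x) y - γ x (ρ (g⁻¹, 1) y), ?_⟩
    rw [hval β' γ n h4, hval β' γ n h4, h1.2.1, smul_sub]
    abel
  · intro g x y
    rw [← sub_eq_zero]
    apply sepM c
    intro n hn
    obtain ⟨β', h1, -, -, γ, h4⟩ := hz n hn
    refine ⟨γ x (ρ (1, g) y) - ρ (1, g) (γ x y), ?_⟩
    rw [hval β' γ n h4, hval β' γ n h4, h1.2.2, map_add, map_smul, smul_sub]
    abel
  · intro x y
    obtain ⟨β', -, h2, -, γ, h4⟩ := hz 1 le_rfl
    rw [hval β' γ 1 h4, map_add, h2, hqp 1 _ le_rfl, add_zero]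
  · intro x y t
    apply sepM c
    intro n hn
    obtain ⟨β', -, -, h3, γ, h4⟩ := hz n hn
    obtain ⟨w, hw⟩ := h3 x y t
    have e := hval β' γ n h4
    refine ⟨w + (β' (γ x y) t + γ (β x y) t) - (β' x (γ y t) + γ x (β y t)), ?_⟩
    unfold asr at hw ⊢
    rw [e (β x y) t, e x y, e x (β y t), e y t]
    simp only [map_add, map_smul, LinearMap.add_apply, LinearMap.smul_apply, smul_add, smul_sub,
      ← hw]
    abel

end Pool.Agent.PSS.H46
end
end -- Pool.Agent.Helper46_PSS.ALV

section -- Pool.Agent.Helper49_PSS.FOR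

/-!
Squad PSS, row FOR (helper49): the relative trace to first order, over `R`.
-/

open scoped BigOperators TensorProduct

noncomputable section

namespace Pool.Agent.PSS.H49

open Pool.Agent.PSS
open Pool.Agent.PFD.D2 (Cdv FibG)
open Pool.Agent.PFD.D2b (FrR)
open Finset
open Pool.Agent.PSS.Dm (cst)

/-- every element of the ring of a deformation is a combination of constants over a frame -/
theorem of_frame {K W B Ω : Type} [Field K] [Group W] [Ring B] [Algebra K B] [Fintype Ω]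
    {om : W →* B} (D : Dm K om) (b : Ω → B) (c : Ω → (B →ₗ[K] K))
    (h : ∀ a, ∑ ω, c ω a • b ω = a) (f : ℕ → B) :
    D.of f = ∑ ω, (PowerSeries.mk fun n => c ω (f n)) • D.of (cst (b ω)) := by
  have h1 : ∀ ω, (PowerSeries.mk fun n => c ω (f n)) • D.of (cst (b ω)) =
      D.of (Dm.smulq (PowerSeries.mk fun n => c ω (f n)) (cst (b ω))) := fun ω =>
    (D.of_smul _ _).symm
  simp_rw [h1]
  have h2 : ∀ s : Finset Ω, ∑ ω ∈ s, D.of (Dm.smulq (PowerSeries.mk fun n => c ω (f n))
      (cst (b ω))) = D.of (∑ ω ∈ s, Dm.smulq (PowerSeries.mk fun n => c ω (f n))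
      (cst (b ω))) := by
    classical
    intro s
    induction s using Finset.induction_on with
    | empty => rw [Finset.sum_empty, Finset.sum_empty, D.of_zero]
    | insert a s ha ih => rw [Finset.sum_insert ha, Finset.sum_insert ha, D.of_add, ih]
  rw [h2]
  congr 1
  funext n
  rw [Finset.sum_apply]
  have h3 : ∀ ω, Dm.smulq (PowerSeries.mk fun n => c ω (f n)) (cst (b ω)) n = c ω (f n) • b ω := by
    intro ω
    rw [Dm.smulq, Finset.sum_eq_single (n, 0)]
    · rw [PowerSeries.coeff_mk, cst, if_pos rfl]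
    · rintro ⟨p, q⟩ hp hne
      rw [Finset.HasAntidiagonal.mem_antidiagonal] at hp
      rcases q with _ | q
      · simp only [add_zero] at hp
        exact absurd (by rw [hp]) hne
      · rw [cst, if_neg (Nat.succ_ne_zero q), smul_zero]
    · intro hn
      exact absurd (by rw [Finset.HasAntidiagonal.mem_antidiagonal]; simp) hn
  simp_rw [h3]
  exact (h (f n)).symm

theorem cst_map {A B : Type} [Ring A] [Ring B] (i : A → B) (h0 : i 0 = 0) (a : A) :
    (fun n => i (cst a n)) = cst (i a) := by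
  funext n
  rw [cst, cst]
  split_ifs
  · rfl
  · exact h0

theorem for_ (ht : TraStmt) (hl : LkxStmt) (hc : CrrStmt) (hr : RfeStmt) : ForStmt := by
  intro R K V E A B κ Ω _ _ _ _ _ _ _ _ _ _ _ _ _ _ _ φ W z α lam x y b c C u hz hE hu _ _ _ κ' _
    P m v₁ D Λ x' y' hT hv hm hRF hΛ
  obtain ⟨⟨D', hD'⟩, -, -⟩ := ht K V B (ia C.i α) W P m hT
  obtain ⟨ψ, Λ', hψ, hψw, hΛ', hRF'⟩ := hl R K V A B κ κ' Ω W α lam x y b c C D D' Λ x' y'
    (fun n a₁ a₂ => by rw [hD']; exact hm n a₁ a₂) hRF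
  have hψc : ∀ a, ψ (D.of (cst a)) = D'.of (cst (C.i a)) := fun a => by
    rw [hψ, cst_map C.i (map_zero C.i)]
  have : FiniteDimensional K B := by
    classical
    refine ⟨⟨Finset.univ.image (fun ω => C.i (b ω)), eq_top_iff.2 fun a _ => ?_⟩⟩
    rw [← C.frK.2.2 a]
    refine Submodule.sum_mem _ fun ω _ => Submodule.smul_mem _ _ (Submodule.subset_span ?_)
    rw [Finset.coe_image]
    exact ⟨ω, Finset.mem_coe.2 (Finset.mem_univ ω), rfl⟩
  have hconst : ∀ f, PowerSeries.constantCoeff (Λ' (D'.of f)) = C.lamK (f 0) := by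
    intro f
    rw [of_frame D' (fun ω => C.i (b ω)) C.cK C.frK.2.2 f, map_sum, map_sum]
    have h1 : ∀ ω, PowerSeries.constantCoeff (Λ' ((PowerSeries.mk fun n => C.cK ω (f n)) •
        D'.of (cst (C.i (b ω))))) = C.cK ω (f 0) * C.lamK (C.i (b ω)) := by
      intro ω
      rw [map_smul, smul_eq_mul, map_mul, ← hψc, hΛ',
        ← PowerSeries.coeff_zero_eq_constantCoeff_apply,
        ← PowerSeries.coeff_zero_eq_constantCoeff_apply, PowerSeries.coeff_mk,
        PowerSeries.coeff_map, PowerSeries.coeff_zero_eq_constantCoeff_apply, hΛ, C.lk]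
      rw [cst, if_pos rfl]
    simp_rw [h1]
    conv_rhs => rw [← C.frK.2.2 (f 0)]
    rw [map_sum]
    refine Finset.sum_congr rfl fun ω _ => ?_
    rw [map_smul, smul_eq_mul]
  obtain ⟨ν, hν0, hνc, hνl, hνw⟩ := hc K V E B κ κ' φ W z (ia C.i α) C.lamK
    (fun t => C.i (x t)) (fun t => C.i (y t)) P m D' Λ' (fun t => ψ (x' t)) (fun t => ψ (y' t))
    hz hT hD' C.rfK hRF' hconst
  have ad1 : antidiagonal 1 = {(0, 1), (1, 0)} := rfl
  have ad0 : antidiagonal 0 = {(0, 0)} := rfl
  have tow : ∀ (r : R) (a : B), algebraMap R K r • a = r • a := C.tow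
  have P0 : ∀ a, P 0 a = a := fun a => by rw [hT.p0]; rfl
  -- the linear form
  have hρ : ∀ a, C.lamK (((orderOf z : K) • ν 1) * C.i a) = algebraMap R K
      ((orderOf z : R) * PowerSeries.coeff 1 (Λ (D.of (cst a))) - lam (v₁ a)) := by
    intro a
    have h1 := hνl 1 (C.i a)
    rw [ad1, Finset.sum_pair (by decide), ← hψc, hΛ', PowerSeries.coeff_map] at h1
    simp only [] at h1
    rw [hν0, one_mul, P0] at h1
    rw [(algebraMap R K).map_sub, (algebraMap R K).map_mul, map_natCast, ← h1, ← C.lk, hv,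
      map_smul, smul_eq_mul, smul_mul_assoc, map_smul, smul_eq_mul]
    ring
  have lamR : ∀ (r : R) (s : B), C.lamK (r • s) = algebraMap R K r * C.lamK s := fun r s => by
    rw [← tow, map_smul, smul_eq_mul]
  let σ : A →ₗ[R] R :=
    { toFun := fun a => (orderOf z : R) * PowerSeries.coeff 1 (Λ (D.of (cst a))) - lam (v₁ a)
      map_add' := fun a a' => C.rinj (by
        rw [(algebraMap R K).map_add, ← hρ, ← hρ, ← hρ, map_add C.i, mul_add, map_add C.lamK])
      map_smul' := fun r a => C.rinj (by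
        rw [RingHom.id_apply, smul_eq_mul, (algebraMap R K).map_mul, ← hρ, ← hρ, map_smul C.i,
          mul_smul_comm, lamR]) }
  have hσ : ∀ a, σ a = (orderOf z : R) * PowerSeries.coeff 1 (Λ (D.of (cst a))) - lam (v₁ a) :=
    fun a => rfl
  obtain ⟨d, hd⟩ := (hr R V A κ α lam x y C.rf.sym C.rf.e1).2.2 σ
  have hid : C.i d = (orderOf z : K) • ν 1 := by
    refine sub_eq_zero.1 ((hr K V B κ (ia C.i α) C.lamK (fun t => C.i (x t))
      (fun t => C.i (y t)) C.rfK.sym C.rfK.e1).2.1 _ fun s => ?_)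
    rw [← C.frK.2.2 s, Finset.mul_sum, map_sum]
    refine Finset.sum_eq_zero fun ω _ => ?_
    rw [mul_smul_comm, map_smul, sub_mul, map_sub, hρ, ← hσ, hd, ← map_mul, C.lk, sub_self,
      smul_zero]
  refine ⟨d, fun a => ⟨PowerSeries.coeff 1 (Λ (D.of (cst a))), ?_⟩, fun w => ?_⟩
  · rw [← hd, hσ, sub_add_cancel]
  -- the relative trace
  have hrt : ∀ n, D'.sq (rt (fun t => ψ (x' t)) (fun t => ψ (y' t)) (D'.w w)) n =
      C.i (D.sq (rt x' y' (D.w w)) n) := by
    intro n
    have h1 : rt (fun t => ψ (x' t)) (fun t => ψ (y' t)) (D'.w w) = ψ (rt x' y' (D.w w)) := by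
      rw [rt, rt, map_sum]
      refine Finset.sum_congr rfl fun t _ => ?_
      rw [map_mul, map_mul, hψw]
    rw [h1]
    conv_lhs => rw [← D.of_sq (rt x' y' (D.w w)), hψ, D'.sq_of]
  have hrtK : rt (fun t => C.i (x t)) (fun t => C.i (y t)) (ia C.i α w) =
      C.i (rt x y (α w)) := by
    rw [rt, rt, map_sum]
    refine Finset.sum_congr rfl fun t _ => ?_
    rw [map_mul, map_mul, ia_apply]
  have h0 : C.i (D.sq (rt x' y' (D.w w)) 0) = (orderOf z : K) • C.i (rt x y (α w)) := by
    have h1 := hνw w 0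
    rw [if_pos rfl, hrtK, ad0, Finset.sum_singleton] at h1
    simp only [] at h1
    rw [ad0, Finset.sum_singleton] at h1
    simp only [] at h1
    rw [hν0, one_mul, P0, hrt] at h1
    exact h1
  have hn : ∀ a : A, (orderOf z : K) • C.i a = C.i ((orderOf z : R) • a) := by
    intro a
    rw [map_smul, ← tow, map_natCast]
  refine ⟨C.inj (by rw [h0, hn]), C.inj ?_⟩
  have h1 := hνw w 1
  rw [if_neg one_ne_zero, ad1, Finset.sum_pair (by decide)] at h1
  simp only [] at h1
  rw [ad1, Finset.sum_pair (by decide), ad0, Finset.sum_singleton] at h1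
  simp only [] at h1
  rw [hν0, one_mul, one_mul, P0, P0, hrt, hrt, h0, map_smul, ← hv, mul_smul_comm,
    ← smul_mul_assoc, ← hid] at h1
  rw [map_neg, map_add, map_mul]
  rw [eq_neg_iff_add_eq_zero, ← h1]
  abel

end Pool.Agent.PSS.H49
end
end -- Pool.Agent.Helper49_PSS.FOR

section -- Pool.Agent.Helper64_PSS.IDT

/-!
# Squad PSS, row IDT (helper64)
-/

set_option autoImplicit false

noncomputable section

namespace Pool.Agent.PSS.H64

theorem idt : Pool.Agent.PSS.S2.IdtStmt := by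
  intro F A _ _ _ lam D s c j hsym hD hj hs hc
  have h1 : D j = D j * j + j * D j := by
    conv_lhs => rw [← hj]
    exact hD j j
  have h2 : j * D j * j = 0 := by
    have h3 : j * D j * j = j * D j * j + j * D j * j := by
      conv_lhs => rw [h1]
      rw [mul_add, add_mul, ← mul_assoc, ← mul_assoc, hj, mul_assoc (j * D j) j j, hj]
    have h4 := congrArg (fun t => t - j * D j * j) h3
    simp only [sub_self, add_sub_cancel_right] at h4
    exact h4.symm
  have h0 : lam (s * (j * D j * j) * c) = 0 := by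
    rw [h2, mul_zero, zero_mul, map_zero]
  have e1 : lam (s * (D j * j) * c) = 0 := by
    have h5 : s * (D j * j) * c = (s * (D j * j) * c) * j := by
      rw [mul_assoc (s * (D j * j)) c j, hc j, ← mul_assoc (s * (D j * j)) j c,
        mul_assoc s (D j * j) j, mul_assoc (D j) j j, hj]
    have h6 : j * (s * (D j * j) * c) = s * (j * D j * j) * c := by
      rw [← mul_assoc, ← mul_assoc, ← hs]
      simp only [mul_assoc]
    rw [h5, hsym, h6, h0]
  have e2 : lam (s * (j * D j) * c) = 0 := by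
    have h5 : s * (j * D j) * c = j * (s * (j * D j) * c) := by
      rw [← mul_assoc j (s * (j * D j)) c, ← mul_assoc j s (j * D j), ← hs,
        mul_assoc s j (j * D j), ← mul_assoc j j (D j), hj]
    have h6 : (s * (j * D j) * c) * j = s * (j * D j * j) * c := by
      rw [mul_assoc (s * (j * D j)) c j, hc j]
      simp only [mul_assoc]
    rw [h5, hsym, h6, h0]
  rw [h1, mul_add, add_mul, map_add, e1, e2, add_zero]

end Pool.Agent.PSS.H64
end
end -- Pool.Agent.Helper64_PSS.IDT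

section -- Pool.Agent.Helper64_PSS.MOL

/-!
# Squad PSS, row MOL (helper64): a permutation frame lifts
-/

set_option autoImplicit false

open scoped BigOperators

noncomputable section

namespace Pool.Agent.PSS.H64

open Pool.Agent.PFD.D2 (Cdv FibG)
open Pool.Agent.PFD.D2b (FrR)

/-- the permutation action on the functions -/
def tau (R : Type) {G Ω : Type} [CommRing R] [Group G] [MulAction G Ω] :
    G →* ((Ω → R) →ₗ[R] (Ω → R)) where
  toFun := fun g =>
    { toFun := fun x ω => x (g⁻¹ • ω)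
      map_add' := fun _ _ => rfl
      map_smul' := fun _ _ => rfl }
  map_one' := by
    apply LinearMap.ext
    intro x
    funext ω
    change x ((1 : G)⁻¹ • ω) = x ω
    rw [inv_one, one_smul]
  map_mul' := by
    intro g h
    apply LinearMap.ext
    intro x
    funext ω
    change x ((g * h)⁻¹ • ω) = x (h⁻¹ • g⁻¹ • ω)
    rw [mul_inv_rev, mul_smul]

theorem tau_ap {R G Ω : Type} [CommRing R] [Group G] [MulAction G Ω] (g : G) (x : Ω → R) (ω : Ω) :
    tau R g x ω = x (g⁻¹ • ω) := rfl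

theorem mol : MolStmt := by
  classical
  intro R F G M₀ Ω _ _ _ _ c _ _ _ _ _ ρ₀ b₀ c₀ hF
  obtain ⟨f1, f2, f3⟩ := hF
  have hκπ : c.κ c.π = 0 := (c.ker _).2 ⟨1, (mul_one _).symm⟩
  obtain ⟨s, hs⟩ : ∃ s : F → R, ∀ a, c.κ (s a) = a :=
    ⟨Function.surjInv c.surj, Function.surjInv_eq c.surj⟩
  -- the map to `M₀`
  obtain ⟨pr, hpr⟩ : ∃ pr : (Ω → R) →+ M₀, ∀ x, pr x = ∑ ω, c.κ (x ω) • b₀ ω :=
    ⟨{ toFun := fun x => ∑ ω, c.κ (x ω) • b₀ ω
       map_zero' := by
         refine Finset.sum_eq_zero (fun ω _ => ?_)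
         rw [Pi.zero_apply, map_zero, zero_smul]
       map_add' := by
         intro x y
         rw [← Finset.sum_add_distrib]
         refine Finset.sum_congr rfl (fun ω _ => ?_)
         rw [Pi.add_apply, map_add, add_smul] }, fun _ => rfl⟩
  have hprs : ∀ (r : R) (x : Ω → R), pr (r • x) = c.κ r • pr x := by
    intro r x
    rw [hpr, hpr, Finset.smul_sum]
    refine Finset.sum_congr rfl (fun ω _ => ?_)
    rw [Pi.smul_apply, smul_eq_mul, map_mul, mul_smul]
  have hprπ : ∀ x : Ω → R, pr (c.π • x) = 0 := by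
    intro x
    rw [hprs, hκπ, zero_smul]
  -- the approximate idempotent
  have hginv : ∀ (g : G) (ω' ω : Ω), c₀ (g⁻¹ • ω') (b₀ (g⁻¹ • ω)) = c₀ ω' (b₀ ω) := by
    intro g ω' ω
    rw [f1, f2]
  obtain ⟨e, he⟩ : ∃ e : Module.End R (Ω → R), ∀ x ω', e x ω' = ∑ ω, s (c₀ ω' (b₀ ω)) * x ω :=
    ⟨{ toFun := fun x ω' => ∑ ω, s (c₀ ω' (b₀ ω)) * x ω
       map_add' := by
         intro x y
         funext ω'
         rw [Pi.add_apply, ← Finset.sum_add_distrib]
         refine Finset.sum_congr rfl (fun ω _ => ?_)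
         rw [Pi.add_apply, mul_add]
       map_smul' := by
         intro r x
         funext ω'
         rw [Pi.smul_apply, Finset.smul_sum]
         refine Finset.sum_congr rfl (fun ω _ => ?_)
         rw [Pi.smul_apply, smul_eq_mul, smul_eq_mul, RingHom.id_apply]
         ring }, fun _ _ => rfl⟩
  have heκ : ∀ x ω', c.κ (e x ω') = c₀ ω' (pr x) := by
    intro x ω'
    rw [he, hpr, map_sum, map_sum]
    refine Finset.sum_congr rfl (fun ω _ => ?_)
    rw [map_mul, hs, map_smul, smul_eq_mul, mul_comm]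
  have hpre : ∀ x, pr (e x) = pr x := by
    intro x
    rw [hpr (e x)]
    rw [Finset.sum_congr rfl (fun ω _ => by rw [heκ]), f3]
  have hred : ∀ x y : Ω → R, (∀ ω, c.κ (x ω) = c.κ (y ω)) → ∃ z, x - y = c.π • z := by
    intro x y h
    have h1 : ∀ ω, ∃ t, x ω - y ω = c.π * t := by
      intro ω
      rw [← c.ker, map_sub, h ω, sub_self]
    choose z hz using h1
    refine ⟨z, ?_⟩
    funext ω
    rw [Pi.sub_apply, hz, Pi.smul_apply, smul_eq_mul]
  obtain ⟨g, hgg, hgS, hge⟩ := Pool.Agent.PFD.D2.H76.idg Pool.Agent.PFD.D2.H10.sug R F (Ω → R) c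
    (Set.range (fun h : G => (tau R h : Module.End R (Ω → R)))) e
    (by
      rintro _ ⟨h, rfl⟩
      apply LinearMap.ext
      intro x
      funext ω'
      change e x (h⁻¹ • ω') = e (tau R h x) ω'
      rw [he, he]
      refine Fintype.sum_equiv (MulAction.toPerm h) _ _ (fun ω => ?_)
      change s (c₀ (h⁻¹ • ω') (b₀ ω)) * x ω = s (c₀ ω' (b₀ (h • ω))) * x (h⁻¹ • (h • ω))
      rw [inv_smul_smul, ← hginv h ω' (h • ω), inv_smul_smul])
    (by
      intro x
      apply hred
      intro ω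
      rw [heκ, heκ, hpre])
  have hggx : ∀ x, g (g x) = g x := fun x => by
    have h := LinearMap.congr_fun hgg x
    exact h
  have hgκ : ∀ x ω, c.κ (g x ω) = c₀ ω (pr x) := by
    intro x ω
    obtain ⟨y, hy⟩ := hge x
    have h1 : g x ω = e x ω + c.π * y ω := by
      have := congrFun hy ω
      rw [Pi.sub_apply, Pi.smul_apply, smul_eq_mul] at this
      rw [← this]
      ring
    rw [h1, map_add, map_mul, hκπ, zero_mul, add_zero, heκ]
  have hprg : ∀ x, pr (g x) = pr x := by
    intro x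
    rw [hpr (g x)]
    rw [Finset.sum_congr rfl (fun ω _ => by rw [hgκ]), f3]
  have hgt : ∀ (h : G) x, g (tau R h x) = tau R h (g x) := by
    intro h x
    have h1 := LinearMap.congr_fun (hgS _ ⟨h, rfl⟩) x
    exact h1.symm
  have hfix : ∀ x ∈ LinearMap.range g, g x = x := by
    rintro _ ⟨y, rfl⟩
    exact hggx y
  have hmem : ∀ (h : G), ∀ x ∈ LinearMap.range g, tau R h x ∈ LinearMap.range g := by
    rintro h _ ⟨y, rfl⟩
    exact ⟨tau R h y, hgt h y⟩
  let ρ : G →* (LinearMap.range g →ₗ[R] LinearMap.range g) :=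
    { toFun := fun h => (tau R h).restrict (hmem h)
      map_one' := by
        apply LinearMap.ext
        intro x
        apply Subtype.ext
        change tau R 1 x.1 = x.1
        rw [map_one]
        rfl
      map_mul' := by
        intro h k
        apply LinearMap.ext
        intro x
        apply Subtype.ext
        change tau R (h * k) x.1 = tau R h (tau R k x.1)
        rw [map_mul]
        rfl }
  have hρ : ∀ h x, (ρ h x).1 = tau R h x.1 := fun _ _ => rfl
  have hsing : ∀ ω, pr (Pi.single ω 1) = b₀ ω := by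
    intro ω
    rw [hpr, Finset.sum_eq_single ω]
    · rw [Pi.single_eq_same, map_one, one_smul]
    · intro ω' _ hne
      rw [Pi.single_eq_of_ne hne, map_zero, zero_smul]
    · intro h
      exact absurd (Finset.mem_univ ω) h
  have hfree : Module.Free R (LinearMap.range g) := inferInstance
  have hfin : Module.Finite R (LinearMap.range g) := inferInstance
  have hlast : ∀ ω (m : LinearMap.range g), c.κ (m.1 ω) = c₀ ω (pr m.1) := by
    intro ω m
    rw [← hgκ, hfix m.1 m.2]
  refine ⟨LinearMap.range g, inferInstance, inferInstance, hfin, hfree, ρ,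
    fun ω => ⟨g (Pi.single ω 1), ⟨_, rfl⟩⟩,
    fun ω => (LinearMap.proj ω).comp (LinearMap.range g).subtype,
    pr.comp (LinearMap.range g).subtype.toAddMonoidHom, ⟨?_, ?_, ?_⟩, ⟨?_, ?_, ?_, ?_⟩, ?_, ?_⟩
  · intro h ω
    apply Subtype.ext
    rw [hρ]
    change g (Pi.single (h • ω) 1) = tau R h (g (Pi.single ω 1))
    rw [← hgt]
    congr 1
    funext ω'
    rw [tau_ap]
    by_cases hω : ω' = h • ω
    · rw [hω, inv_smul_smul, Pi.single_eq_same, Pi.single_eq_same]
    · rw [Pi.single_eq_of_ne hω, Pi.single_eq_of_ne]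
      intro h1
      apply hω
      rw [← h1, smul_inv_smul]
  · intro h ω n
    change tau R h n.1 (h • ω) = n.1 ω
    rw [tau_ap, inv_smul_smul]
  · intro n
    apply Subtype.ext
    have h1 : ((∑ ω, ((LinearMap.proj ω).comp (LinearMap.range g).subtype) n •
        (⟨g (Pi.single ω 1), ⟨_, rfl⟩⟩ : LinearMap.range g) : LinearMap.range g)).1 =
        ∑ ω, n.1 ω • g (Pi.single ω 1) := by
      rw [Submodule.coe_sum]
      rfl
    rw [h1]
    have h2 : ∑ ω, n.1 ω • g (Pi.single ω 1) = g n.1 := by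
      rw [← Finset.sum_congr rfl (fun ω _ => map_smul g (n.1 ω) (Pi.single ω 1)), ← map_sum]
      congr 1
      funext ω'
      rw [Finset.sum_apply, Finset.sum_eq_single ω']
      · rw [Pi.smul_apply, Pi.single_eq_same, smul_eq_mul, mul_one]
      · intro ω _ hne
        rw [Pi.smul_apply, Pi.single_eq_of_ne hne.symm, smul_zero]
      · intro h
        exact absurd (Finset.mem_univ ω') h
    rw [h2, hfix n.1 n.2]
  · intro r x
    change pr (r • x.1) = c.κ r • pr x.1
    exact hprs r x.1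
  · intro m₀
    refine ⟨⟨g (fun ω => s (c₀ ω m₀)), ⟨_, rfl⟩⟩, ?_⟩
    change pr (g (fun ω => s (c₀ ω m₀))) = m₀
    rw [hprg, hpr]
    rw [Finset.sum_congr rfl (fun ω _ => by rw [hs]), f3]
  · intro x
    change pr x.1 = 0 ↔ _
    constructor
    · intro h
      have h1 : ∀ ω, ∃ t, x.1 ω = c.π * t := by
        intro ω
        rw [← c.ker, hlast, h, map_zero]
      choose z hz using h1
      have hxz : x.1 = c.π • z := by
        funext ω
        rw [hz, Pi.smul_apply, smul_eq_mul]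
      refine ⟨⟨g z, ⟨_, rfl⟩⟩, ?_⟩
      apply Subtype.ext
      change x.1 = c.π • g z
      rw [← map_smul, ← hxz, hfix x.1 x.2]
    · rintro ⟨y, rfl⟩
      exact hprπ y.1
  · intro h x
    change pr (tau R h x.1) = ρ₀ h (pr x.1)
    rw [hpr, hpr, map_sum]
    symm
    refine Fintype.sum_equiv (MulAction.toPerm h) _ _ (fun ω => ?_)
    change ρ₀ h (c.κ (x.1 ω) • b₀ ω) = c.κ (x.1 (h⁻¹ • (h • ω))) • b₀ (h • ω)
    rw [inv_smul_smul, map_smul, f1]
  · intro ω
    change pr (g (Pi.single ω 1)) = b₀ ω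
    rw [hprg, hsing]
  · intro ω m
    exact hlast ω m

end Pool.Agent.PSS.H64
end
end -- Pool.Agent.Helper64_PSS.MOL

section -- Pool.Agent.Helper81_PSS.FLV

/-!
# Squad PSS, row FLV (helper81): the form lifts
-/

set_option autoImplicit false

open scoped BigOperators

noncomputable section

namespace Pool.Agent.PSS.H81

open Pool.Agent.PSS
open Pool.Agent.PFD.D2 (Cdv FibG)
open Pool.Agent.PFD.D2b (FrR FPl)
open Finset

theorem pi_reg {R F : Type} [CommRing R] [Field F] (c : Cdv R F) (n : ℕ) (r : R)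
    (h : c.π ^ n * r = 0) : r = 0 := by
  induction n generalizing r with
  | zero => rwa [pow_zero, one_mul] at h
  | succ n ih =>
    rw [pow_succ', mul_assoc] at h
    exact ih r (c.reg _ h)

theorem kp {R F : Type} [CommRing R] [Field F] (c : Cdv R F) (r : R) : c.κ (c.π * r) = 0 :=
  (c.ker _).2 ⟨r, rfl⟩

theorem kpn {R F : Type} [CommRing R] [Field F] (c : Cdv R F) (n : ℕ) (hn : 1 ≤ n) (r : R) :
    c.κ (c.π ^ n * r) = 0 := by
  obtain ⟨m, rfl⟩ : ∃ m, n = m + 1 := ⟨n - 1, by omega⟩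
  rw [pow_succ', mul_assoc]
  exact kp c _

section

variable {R F V A A' Ω : Type} [CommRing R] [Field F] {c : Cdv R F} [CommGroup V]
    [Ring A] [Algebra F A] [Ring A'] [Algebra R A'] [Fintype Ω] [MulAction (V × V) Ω]
    {α : V →* A} {α' : V →* A'} (f : FibG A' A c) {b : Ω → A'} {cc : Ω → (A' →ₗ[R] R)}

include f in
theorem q_smul (r : R) (x : A') : f.q (r • x) = c.κ r • f.q x := by
  rw [Algebra.smul_def, map_mul, f.sc, ← Algebra.smul_def]

/-- functionals which are invariant under conjugation lift -/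
theorem lift_fun (hα : ∀ v, f.q (α' v) = α v) (hfr : FrR (bw R α') b cc) (t₀ : A →ₗ[F] F)
    (ht : ∀ g x, t₀ (α g * x) = t₀ (x * α g)) :
    ∃ t : A' →ₗ[R] R, (∀ g x, t (α' g * x) = t (x * α' g)) ∧ ∀ x, c.κ (t x) = t₀ (f.q x) := by
  classical
  obtain ⟨hb, hc, hs⟩ := hfr
  choose s hs' using c.surj
  let r : Ω → R := fun w => s (t₀ (f.q (b w)))
  let t : A' →ₗ[R] R := ∑ w, (LinearMap.lsmul R R (r w)).comp (cc w)
  have hta : ∀ x, t x = ∑ w, r w * cc w x := by
    intro x
    show (∑ w, (LinearMap.lsmul R R (r w)).comp (cc w)) x = _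
    rw [LinearMap.sum_apply]
    rfl
  have hr : ∀ (g : V) (w : Ω), r (((g, g) : V × V) • w) = r w := by
    intro g w
    show s _ = s _
    congr 1
    rw [hb]
    show t₀ (f.q (α' g * (b w * α' g⁻¹))) = _
    have h1 : f.q (α' g * (b w * α' g⁻¹)) = α g * (f.q (b w) * α g⁻¹) := by
      rw [map_mul, map_mul, hα, hα]
    rw [h1, ht, mul_assoc, ← map_mul, inv_mul_cancel, map_one, mul_one]
  have hinv : ∀ (g : V) (x : A'), t (α' g * (x * α' g⁻¹)) = t x := by
    intro g x
    rw [hta, hta, ← Equiv.sum_comp (MulAction.toPerm ((g, g) : V × V))]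
    refine Finset.sum_congr rfl fun w _ => ?_
    rw [MulAction.toPerm_apply, hr]
    congr 1
    exact hc (g, g) w x
  refine ⟨t, fun g x => ?_, fun x => ?_⟩
  · have h := hinv g (x * α' g)
    rw [mul_assoc x, ← map_mul, mul_inv_cancel, map_one, mul_one] at h
    exact h
  · rw [hta, map_sum]
    conv_rhs => rw [← hs x]
    rw [map_sum, map_sum]
    refine Finset.sum_congr rfl fun w _ => ?_
    rw [q_smul, map_smul, map_mul, smul_eq_mul, mul_comm]
    congr 1
    exact hs' _

/-- one step -/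
theorem step {K : Type} [Fintype K] (hα : ∀ v, f.q (α' v) = α v) (hfr : FrR (bw R α') b cc)
    (lam : A →ₗ[F] F) (u v : K → A) (hcs : Csm F α u v) (n : ℕ) (hn : 1 ≤ n) (l : A' →ₗ[R] R)
    (h1 : ∀ x, c.κ (l x) = lam (f.q x)) (h2 : ∀ g x, l (α' g * x) = l (x * α' g))
    (h3 : ∀ x y, ∃ r, l (x * y) - l (y * x) = c.π ^ n * r) :
    ∃ t : A' →ₗ[R] R, (∀ x, c.κ ((l - c.π ^ n • t) x) = lam (f.q x)) ∧
      (∀ g x, (l - c.π ^ n • t) (α' g * x) = (l - c.π ^ n • t) (x * α' g)) ∧
      ∀ x y, ∃ r, (l - c.π ^ n • t) (x * y) - (l - c.π ^ n • t) (y * x) = c.π ^ (n + 1) * r := by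
  classical
  choose d hd using h3
  have hu : ∀ x y r, l (x * y) - l (y * x) = c.π ^ n * r → d x y = r := by
    intro x y r h
    have h4 : c.π ^ n * (d x y - r) = 0 := by rw [mul_sub, ← hd, h, sub_self]
    exact sub_eq_zero.1 (pi_reg c n _ h4)
  have dal : ∀ x x' y, d (x + x') y = d x y + d x' y := by
    intro x x' y
    apply hu
    rw [mul_add (c.π ^ n), ← hd, ← hd, add_mul, mul_add y, map_add, map_add]
    ring
  have dsl : ∀ (r : R) x y, d (r • x) y = r * d x y := by
    intro r x y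
    apply hu
    rw [mul_left_comm, ← hd, smul_mul_assoc, mul_smul_comm, map_smul, map_smul, smul_eq_mul,
      smul_eq_mul]
    ring
  have dsw : ∀ x y, d x y = - d y x := by
    intro x y
    apply hu
    rw [mul_neg, ← hd]
    ring
  have dar : ∀ x y y', d x (y + y') = d x y + d x y' := by
    intro x y y'
    rw [dsw, dal, dsw y, dsw y']
    ring
  have dsr : ∀ (r : R) x y, d x (r • y) = r * d x y := by
    intro r x y
    rw [dsw, dsl, dsw y]
    ring
  choose s hs using f.surj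
  -- the reduction of `d` depends on the reductions
  have red1 : ∀ x x' y, f.q x = f.q x' → c.κ (d x y) = c.κ (d x' y) := by
    intro x x' y h
    have h4 : f.q (x - x') = 0 := by rw [map_sub, h, sub_self]
    obtain ⟨z, hz⟩ := f.ker _ h4
    have h5 : x = x' + c.π • z := by rw [← hz]; abel
    rw [h5, dal, dsl, map_add, kp, add_zero]
  have red : ∀ x x' y y', f.q x = f.q x' → f.q y = f.q y' → c.κ (d x y) = c.κ (d x' y') := by
    intro x x' y y' h h'
    rw [red1 x x' y h, dsw, dsw x' y', map_neg, map_neg, red1 y y' x' h']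
  let d₀ : A →ₗ[F] A →ₗ[F] F := LinearMap.mk₂ F (fun x y => c.κ (d (s x) (s y)))
    (by
      intro x x' y
      show c.κ (d (s (x + x')) (s y)) = c.κ (d (s x) (s y)) + c.κ (d (s x') (s y))
      rw [← map_add, ← dal]
      exact red1 _ _ _ (by rw [hs, map_add, hs, hs]))
    (by
      intro r x y
      obtain ⟨r', rfl⟩ := c.surj r
      show c.κ (d (s (c.κ r' • x)) (s y)) = c.κ r' * c.κ (d (s x) (s y))
      rw [← map_mul, ← dsl]
      exact red1 _ _ _ (by rw [hs, q_smul, hs]))
    (by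
      intro x y y'
      show c.κ (d (s x) (s (y + y'))) = c.κ (d (s x) (s y)) + c.κ (d (s x) (s y'))
      rw [← map_add, ← dar]
      exact red _ _ _ _ rfl (by rw [hs, map_add, hs, hs]))
    (by
      intro r x y
      obtain ⟨r', rfl⟩ := c.surj r
      show c.κ (d (s x) (s (c.κ r' • y))) = c.κ r' * c.κ (d (s x) (s y))
      rw [← map_mul, ← dsr]
      exact red _ _ _ _ rfl (by rw [hs, q_smul, hs]))
  have hd₀ : ∀ x y, d₀ (f.q x) (f.q y) = c.κ (d x y) := by
    intro x y
    show c.κ (d (s (f.q x)) (s (f.q y))) = _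
    exact red _ _ _ _ (hs _) (hs _)
  have asym : ∀ x y, d₀ x y = - d₀ y x := by
    intro x y
    rw [← hs x, ← hs y, hd₀, hd₀, dsw, map_neg]
  have cyc : ∀ x y z, d₀ (x * y) z + d₀ (y * z) x + d₀ (z * x) y = 0 := by
    intro x y z
    rw [← hs x, ← hs y, ← hs z, ← map_mul, ← map_mul, ← map_mul, hd₀, hd₀, hd₀, ← map_add,
      ← map_add]
    have h4 : d (s x * s y) (s z) + d (s y * s z) (s x) + d (s z * s x) (s y) = 0 := by
      apply pi_reg c n
      rw [mul_add, mul_add, ← hd, ← hd, ← hd]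
      simp only [mul_assoc]
      ring
    rw [h4, map_zero]
  have dg : ∀ x g, d₀ x (α g) = 0 := by
    intro x g
    rw [← hs x, ← hα, hd₀]
    have h4 : d (s x) (α' g) = 0 := by
      apply hu
      rw [mul_zero, h2, sub_self]
    rw [h4, map_zero]
  have bal : ∀ x g z, d₀ (x * α g) z = d₀ x (α g * z) := by
    intro x g z
    have h4 := cyc x (α g) z
    rw [dg, add_zero] at h4
    rw [asym x, eq_neg_iff_add_eq_zero]
    exact h4
  let t₀ : A →ₗ[F] F := ∑ i, (d₀ (u i)).comp (LinearMap.mulLeft F (v i))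
  have ht₀ : ∀ x, t₀ x = ∑ i, d₀ (u i) (v i * x) := by
    intro x
    show (∑ i, (d₀ (u i)).comp (LinearMap.mulLeft F (v i))) x = _
    rw [LinearMap.sum_apply]
    rfl
  have key : ∀ x y, t₀ (x * y) - t₀ (y * x) = d₀ x y := by
    intro x y
    let g : A →ₗ[F] A →ₗ[F] F := d₀.compl₂ (LinearMap.mulRight F x)
    have hg : ∀ a b, g a b = d₀ a (b * x) := fun _ _ => rfl
    have h4 := hcs.2 F g (fun a w b => by rw [hg, hg, bal, mul_assoc]) y
    simp only [hg] at h4
    have h5 : ∑ i, d₀ (y * u i) (v i * x) =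
        - d₀ x y + ∑ i, d₀ (u i) (v i * (x * y)) := by
      have h6 : ∀ i, d₀ (y * u i) (v i * x) =
          - d₀ (u i * v i * x) y + d₀ (u i) (v i * (x * y)) := by
        intro i
        have h7 := cyc y (u i) (v i * x)
        rw [asym (v i * x * y) (u i), mul_assoc (v i) x y, ← mul_assoc (u i)] at h7
        linear_combination h7
      rw [Finset.sum_congr rfl fun i _ => h6 i, Finset.sum_add_distrib, Finset.sum_neg_distrib]
      congr 2
      have h8 : ∑ i, d₀ (u i * v i * x) y = d₀ ((∑ i, u i * v i) * x) y := by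
        rw [Finset.sum_mul, map_sum, LinearMap.sum_apply]
      rw [h8, hcs.1, one_mul]
    rw [ht₀, ht₀]
    have h9 : ∑ i, d₀ (u i) (v i * (y * x)) = ∑ i, d₀ (u i) (v i * y * x) := by
      simp only [mul_assoc]
    rw [h9, ← h4, h5]
    ring
  obtain ⟨t, ht1, ht2⟩ := lift_fun f hα hfr t₀ (by
    intro g x
    have h4 := key (α g) x
    rw [asym, dg, neg_zero] at h4
    exact sub_eq_zero.1 h4)
  have hap : ∀ x, (l - c.π ^ n • t) x = l x - c.π ^ n * t x := fun x => rfl
  refine ⟨t, ?_, ?_, ?_⟩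
  · intro x
    rw [hap, map_sub, kpn c n hn, sub_zero, h1]
  · intro g x
    rw [hap, hap, h2, ht1]
  · intro x y
    have h4 : c.κ (d x y - (t (x * y) - t (y * x))) = 0 := by
      rw [map_sub, map_sub, ht2, ht2, map_mul f.q, map_mul f.q, key, hd₀, sub_self]
    obtain ⟨r, hr⟩ := (c.ker _).1 h4
    refine ⟨r, ?_⟩
    rw [hap, hap, pow_succ, mul_assoc, ← hr, mul_sub, ← hd]
    ring

end

/-- row FLV -/
theorem flv : FlvStmt := by
  classical
  intro R F V A A' Ω K _ _ _ c _ _ _ _ _ _ _ _ _ _ α α' f b cc lam u v hα hfr hcs hsym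
  let P : ℕ → (A' →ₗ[R] R) → Prop := fun n l => ∃ l' : A' →ₗ[R] R,
    (∃ δ : A' →ₗ[R] R, l - l' = c.π ^ n • δ) ∧ (∀ x, c.κ (l' x) = lam (f.q x)) ∧
    (∀ g x, l' (α' g * x) = l' (x * α' g)) ∧
    ∀ x y, ∃ r, l' (x * y) - l' (y * x) = c.π ^ n * r
  obtain ⟨l₀, g1, g2⟩ := lift_fun f hα hfr lam (fun g x => hsym _ _)
  have hstart : P 1 l₀ := by
    refine ⟨l₀, ⟨0, by rw [sub_self, smul_zero]⟩, g2, g1, fun x y => ?_⟩
    rw [pow_one, ← c.ker, map_sub, g2, g2, map_mul f.q, map_mul f.q, hsym, sub_self]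
  obtain ⟨z, hz⟩ := Pool.Agent.PFD.D2.H10.sug R F (A' →ₗ[R] R) c P
    (by
      rintro n x z ⟨l', ⟨δ, hδ⟩, h⟩
      refine ⟨l', ⟨δ + z, ?_⟩, h⟩
      rw [smul_add, ← hδ]
      abel)
    (by
      rintro n x hn ⟨l', ⟨δ, hδ⟩, h1, h2, h3⟩
      obtain ⟨t, t1, t2, t3⟩ := step f hα hfr lam u v hcs n hn l' h1 h2 h3
      refine ⟨-δ - t, l' - c.π ^ n • t, ⟨0, ?_⟩, t1, t2, t3⟩
      rw [smul_zero, smul_sub, smul_neg, ← hδ]
      abel)
    l₀ hstart
  refine ⟨l₀ + c.π • z, fun x y => ?_, fun x => ?_⟩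
  · apply sub_eq_zero.1
    apply c.sep
    intro n
    rcases Nat.eq_zero_or_pos n with rfl | hn
    · exact ⟨_, by rw [pow_zero, one_mul]⟩
    · obtain ⟨l', ⟨δ, hδ⟩, h1, h2, h3⟩ := hz n hn
      obtain ⟨r, hr⟩ := h3 x y
      refine ⟨r + (δ (x * y) - δ (y * x)), ?_⟩
      have e : ∀ w, (l₀ + c.π • z) w = l' w + c.π ^ n * δ w := by
        intro w
        have h4 := congrArg (fun φ : A' →ₗ[R] R => φ w) hδ
        simp only [LinearMap.sub_apply, LinearMap.smul_apply, smul_eq_mul] at h4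
        rw [← h4]
        ring
      rw [e, e, mul_add, mul_sub, ← hr]
      ring
  · show c.κ (l₀ x + c.π * z x) = _
    rw [map_add, kp, add_zero, g2]

end Pool.Agent.PSS.H81
end
end -- Pool.Agent.Helper81_PSS.FLV
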