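import Pool.Agent.Helper12_AWB.B029
import Pool.Agent.Helper12_AWB.B036

/-!
# Merged copies (generated) of the modules

* `Pool.Agent.Helper10_PFD.REP`
* `Pool.Agent.Helper13_PFD.BOX`
* `Pool.Agent.Helper17_PFD.QUA`
* `Pool.Agent.Helper18_PFD.TSR`
* `Pool.Agent.Helper19_PFD.ACW`
* `Pool.Agent.Helper1_PFD.GBJ`
* `Pool.Agent.Helper25_PFD.DVW`
* `Pool.Agent.Helper31_PFD.SOX`
* `Pool.Agent.Helper35_PFD.FBW`
* `Pool.Agent.Helper35_PFD.PAC`
* `Pool.Agent.Helper41_PFD.GRM`
* `Pool.Agent.Helper44_PFD.CPF`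
* `Pool.Agent.Helper41_PFC.EIG`
* `Pool.Agent.Helper48_PFD.COO`
* `Pool.Agent.Helper51_PFD.CPE`
* `Pool.Agent.Helper53_PFD.NLW`
* `Pool.Agent.Helper60_PFD.CPN`
* `Pool.Agent.Helper60_PFD.GBS`
* `Pool.Agent.Helper63_PFD.ACR`
* `Pool.Agent.Helper65_PFD.CPB`
* `Pool.Agent.Helper65_PFD.RSU`
* `Pool.Agent.Helper70_PFD.EPN`
* `Pool.Agent.Helper70_PFD.SGM`
* `Pool.Agent.Helper75_PFD.ANW`
* `Pool.Agent.Helper75_PFD.REL`
* `Pool.Agent.Helper76_PFD.GLX`
* `Pool.Agent.Helper84_PFD.TSW`
* `Pool.Agent.Helper86_PFD.Rho`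
* `Pool.Agent.Helper90_PFD.EUD`
* `Pool.Agent.Helper91_PFD.CPA`
* `Pool.Agent.Helper91_PFD.CPT`
* `Pool.Agent.Helper91_PFD.CPZ`
* `Pool.Agent.Helper95_PFD.FTS`
* `Pool.Agent.Helper18_PFD.AsmD3`
-/

set_option autoImplicit false

section -- Pool.Agent.Helper10_PFD.REP

/-!
# REP (squad PFD, block D3): homomorphisms of an `ℓ'`-group to the residue algebra lift
-/

open scoped BigOperators

noncomputable section

namespace Pool.Agent.PFD.D3.H10

open Pool.Agent.PFD

section
variable {R F M : Type} [CommRing R] [Field F] (c : D2.Cdv R F) [AddCommGroup M] [Module R M]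

theorem pi_pow_reg (n : ℕ) (r : R) (h : c.π ^ n * r = 0) : r = 0 := by
  induction n with
  | zero => simpa using h
  | succ n ih =>
    apply ih
    apply c.reg
    rw [← mul_assoc, ← pow_succ', h]

variable [Module.Free R M]

theorem smul_reg (n : ℕ) (x : M) (h : c.π ^ n • x = 0) : x = 0 := by
  classical
  let b := Module.Free.chooseBasis R M
  apply b.repr.injective
  rw [map_zero]
  ext k
  have h1 : c.π ^ n * b.repr x k = 0 := by
    have h2 : b.repr (c.π ^ n • x) k = 0 := by rw [h, map_zero]; rfl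
    rw [map_smul, Finsupp.smul_apply, smul_eq_mul] at h2
    exact h2
  exact pi_pow_reg c n _ h1

theorem sep_mod (x : M) (h : ∀ n : ℕ, ∃ y, x = c.π ^ n • y) : x = 0 := by
  classical
  let b := Module.Free.chooseBasis R M
  apply b.repr.injective
  rw [map_zero]
  ext k
  apply c.sep
  intro n
  obtain ⟨y, hy⟩ := h n
  refine ⟨b.repr y k, ?_⟩
  rw [hy, map_smul, Finsupp.smul_apply, smul_eq_mul]

end

theorem q_pi_smul {R F M M0 : Type} [CommRing R] [Field F] {c : D2.Cdv R F} [Ring M]
    [Algebra R M] [Ring M0] [Algebra F M0] (f : D2.FibG M M0 c) (n : ℕ) (hn : 1 ≤ n) (y : M) :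
    f.q (c.π ^ n • y) = 0 := by
  have h1 : c.κ c.π = 0 := (c.ker _).2 ⟨1, by rw [mul_one]⟩
  rw [Algebra.smul_def, map_mul, f.sc, map_pow, h1, zero_pow (by omega), map_zero, zero_mul]

/-- congruence modulo `π` -/
def Cg {R F M : Type} [CommRing R] [Field F] (c : D2.Cdv R F) [AddCommGroup M] [Module R M]
    (x y : M) : Prop := ∃ z, x - y = c.π • z

section
variable {R F M : Type} [CommRing R] [Field F] {c : D2.Cdv R F} [Ring M] [Algebra R M]

theorem Cg.refl (x : M) : Cg c x x := ⟨0, by simp⟩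

theorem Cg.of_eq {x y : M} (h : x = y) : Cg c x y := ⟨0, by simp [h]⟩

theorem Cg.symm {x y : M} (h : Cg c x y) : Cg c y x := by
  obtain ⟨z, hz⟩ := h
  exact ⟨-z, by rw [smul_neg, ← hz]; abel⟩

theorem Cg.trans {x y w : M} (h : Cg c x y) (h' : Cg c y w) : Cg c x w := by
  obtain ⟨z, hz⟩ := h
  obtain ⟨z', hz'⟩ := h'
  exact ⟨z + z', by rw [smul_add, ← hz, ← hz']; abel⟩

theorem Cg.add {x y x' y' : M} (h : Cg c x y) (h' : Cg c x' y') : Cg c (x + x') (y + y') := by
  obtain ⟨z, hz⟩ := h
  obtain ⟨z', hz'⟩ := h'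
  exact ⟨z + z', by rw [smul_add, ← hz, ← hz']; abel⟩

theorem Cg.sub {x y x' y' : M} (h : Cg c x y) (h' : Cg c x' y') : Cg c (x - x') (y - y') := by
  obtain ⟨z, hz⟩ := h
  obtain ⟨z', hz'⟩ := h'
  exact ⟨z - z', by rw [smul_sub, ← hz, ← hz']; abel⟩

theorem Cg.mul_left (a : M) {x y : M} (h : Cg c x y) : Cg c (a * x) (a * y) := by
  obtain ⟨z, hz⟩ := h
  exact ⟨a * z, by rw [← mul_sub, hz, mul_smul_comm]⟩

theorem Cg.mul_right {x y : M} (h : Cg c x y) (a : M) : Cg c (x * a) (y * a) := by
  obtain ⟨z, hz⟩ := h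
  exact ⟨z * a, by rw [← sub_mul, hz, smul_mul_assoc]⟩

theorem Cg.smul (r : R) {x y : M} (h : Cg c x y) : Cg c (r • x) (r • y) := by
  obtain ⟨z, hz⟩ := h
  exact ⟨r • z, by rw [← smul_sub, hz, smul_comm]⟩

theorem Cg.sum {κ : Type} (s : Finset κ) {x y : κ → M} (h : ∀ k ∈ s, Cg c (x k) (y k)) :
    Cg c (∑ k ∈ s, x k) (∑ k ∈ s, y k) := by
  classical
  induction s using Finset.induction_on with
  | empty => exact Cg.refl _
  | insert k s hk ih =>
    rw [Finset.sum_insert hk, Finset.sum_insert hk]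
    exact (h k (Finset.mem_insert_self _ _)).add
      (ih fun j hj => h j (Finset.mem_insert_of_mem hj))

end

section
variable {R F M : Type} [CommRing R] [Field F] (c : D2.Cdv R F) [Ring M] [Algebra R M]
  [Module.Free R M]

/-- the averaging step -/
theorem step {E : Type} [Group E] [Fintype E] (hE : (Fintype.card E : F) ≠ 0) (n : ℕ)
    (hn : 1 ≤ n) (T : E → M) (hT : ∀ g h, ∃ y, T g * T h - T (g * h) = c.π ^ n • y)
    (hT1 : Cg c (T 1) 1) :
    ∃ S : E → M, ∀ g h, ∃ y, (T g + c.π ^ n • S g) * (T h + c.π ^ n • S h) -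
      (T (g * h) + c.π ^ n • S (g * h)) = c.π ^ (n + 1) • y := by
  choose a ha using hT
  obtain ⟨m, rfl⟩ := Nat.exists_eq_add_of_le' hn
  have hcg : ∀ g h, Cg c (T (g * h)) (T g * T h) := by
    intro g h
    refine Cg.symm ⟨c.π ^ m • a g h, ?_⟩
    rw [ha, smul_smul, pow_succ']
  -- the cocycle identity
  have hco : ∀ g h k, T g * a h k + a g (h * k) = a (g * h) k + a g h * T k := by
    intro g h k
    have h0 : c.π ^ (m + 1) • (T g * a h k + a g (h * k) - (a (g * h) k + a g h * T k)) = 0 := by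
      rw [smul_sub, smul_add, smul_add, ← mul_smul_comm, ← smul_mul_assoc, ← ha, ← ha, ← ha,
        ← ha, mul_assoc g h k]
      noncomm_ring
    exact sub_eq_zero.1 (smul_reg c _ _ h0)
  set b : E → M := fun g => ∑ k, a g k * T k⁻¹ with hb
  have hunit : IsUnit ((Fintype.card E : ℕ) : R) := by
    apply c.loc
    rw [map_natCast]
    exact hE
  obtain ⟨v, hv⟩ := hunit.exists_left_inv
  have hTT : ∀ k, Cg c (T k * T k⁻¹) 1 := by
    intro k
    have h1 := hcg k k⁻¹
    rw [mul_inv_cancel] at h1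
    exact h1.symm.trans hT1
  have hmain : ∀ g h, Cg c (T g * b h - b (g * h) + b g * T h)
      (((Fintype.card E : ℕ) : R) • a g h) := by
    intro g h
    have e1 : T g * b h - b (g * h) + ∑ k, a g (h * k) * T k⁻¹ =
        ∑ k, a g h * (T k * T k⁻¹) := by
      rw [hb]
      simp only [Finset.mul_sum]
      rw [← Finset.sum_sub_distrib, ← Finset.sum_add_distrib]
      refine Finset.sum_congr rfl fun k _ => ?_
      have h1 := hco g h k
      have h2 : T g * (a h k * T k⁻¹) - a (g * h) k * T k⁻¹ + a g (h * k) * T k⁻¹ =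
          (T g * a h k + a g (h * k) - a (g * h) k) * T k⁻¹ := by noncomm_ring
      rw [h2, h1]
      noncomm_ring
    have e2 : ∑ k, a g (h * k) * T k⁻¹ = ∑ l, a g l * T (l⁻¹ * h) := by
      refine Fintype.sum_bijective (fun k => h * k) (Group.mulLeft_bijective h) _ _ ?_
      intro k
      rw [mul_inv_rev, inv_mul_cancel_right]
    have e3 : Cg c (∑ l, a g l * T (l⁻¹ * h)) (b g * T h) := by
      rw [hb]
      simp only [Finset.sum_mul]
      refine Cg.sum _ fun l _ => ?_
      rw [mul_assoc]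
      exact (hcg l⁻¹ h).mul_left (a g l)
    have e4 : Cg c (∑ k, a g h * (T k * T k⁻¹)) (((Fintype.card E : ℕ) : R) • a g h) := by
      have h1 : (((Fintype.card E : ℕ) : R) • a g h) = ∑ _k : E, a g h * 1 := by
        rw [Finset.sum_const, Finset.card_univ, mul_one, Nat.cast_smul_eq_nsmul]
      rw [h1]
      exact Cg.sum _ fun k _ => (hTT k).mul_left _
    have e5 : Cg c (T g * b h - b (g * h) + b g * T h)
        (T g * b h - b (g * h) + ∑ k, a g (h * k) * T k⁻¹) := by
      refine (Cg.refl _).add ?_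
      rw [e2]
      exact e3.symm
    rw [e1] at e5
    exact e5.trans e4
  set β : E → M := fun g => v • b g with hβ
  refine ⟨fun g => -β g, fun g h => ?_⟩
  obtain ⟨y, hy⟩ := (hmain g h).smul v
  rw [smul_smul, hv, one_smul] at hy
  refine ⟨-y + c.π ^ m • (β g * β h), ?_⟩
  have h0 : v • (T g * b h - b (g * h) + b g * T h) = T g * β h - β (g * h) + β g * T h := by
    simp only [hβ, smul_add, smul_sub, mul_smul_comm, smul_mul_assoc]
  rw [h0] at hy
  have h1 : a g h - (T g * β h - β (g * h) + β g * T h) = -(c.π • y) := by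
    rw [← hy]
    abel
  have h2 : (T g + c.π ^ (m + 1) • -β g) * (T h + c.π ^ (m + 1) • -β h) -
      (T (g * h) + c.π ^ (m + 1) • -β (g * h)) =
      (T g * T h - T (g * h)) - c.π ^ (m + 1) • (T g * β h - β (g * h) + β g * T h) +
        c.π ^ (m + 1) • c.π ^ (m + 1) • (β g * β h) := by
    simp only [smul_neg, mul_add, add_mul, mul_neg, neg_mul, smul_add, smul_sub, mul_smul_comm,
      smul_mul_assoc]
    abel
  rw [h2, ha, ← smul_sub, h1, smul_neg, smul_smul, smul_add, smul_neg, ← pow_succ, smul_smul,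
    smul_smul]
  congr 1
  rw [← pow_add, ← pow_add]
  congr 2
  ring

end

theorem rep (hS : D2.SugStmt) : RepStmt := by
  intro R F M M0 E _ _ c _ _ _ _ _ _ f _ _ ρ0 hE
  classical
  choose t ht using f.surj
  let T0 : E → M := fun g => t (ρ0 g)
  have hT0 : ∀ g, f.q (T0 g) = ρ0 g := fun g => ht _
  let P : ℕ → (E → M) → Prop := fun n T =>
    (∀ g h, ∃ y, T g * T h - T (g * h) = c.π ^ n • y) ∧ (1 ≤ n → ∀ g, f.q (T g) = ρ0 g)
  have hcgq : ∀ x y : M, f.q x = f.q y → Cg c x y := by
    intro x y h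
    obtain ⟨z, hz⟩ := f.ker (x - y) (by rw [map_sub, h, sub_self])
    exact ⟨z, hz⟩
  have hq : ∀ (n : ℕ) (_ : 1 ≤ n) (T S : E → M) (g : E),
      f.q ((T + c.π ^ n • S) g) = f.q (T g) := by
    intro n hn T S g
    rw [Pi.add_apply, Pi.smul_apply, map_add, q_pi_smul f n hn, add_zero]
  have hinv : ∀ n x z, P n x → P n (x + c.π ^ n • z) := by
    intro n T S hT
    refine ⟨fun g h => ?_, fun hn g => ?_⟩
    · obtain ⟨y, hy⟩ := hT.1 g h
      refine ⟨y + (S g * T h + T g * S h - S (g * h) + c.π ^ n • (S g * S h)), ?_⟩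
      simp only [Pi.add_apply, Pi.smul_apply]
      rw [smul_add, ← hy]
      simp only [mul_add, add_mul, smul_add, smul_sub, mul_smul_comm, smul_mul_assoc]
      abel
    · rw [hq n hn]
      exact hT.2 hn g
  have hstep : ∀ n x, 1 ≤ n → P n x → ∃ z, P (n + 1) (x + c.π ^ n • z) := by
    intro n T hn hT
    have h1 : Cg c (T 1) 1 := by
      apply hcgq
      rw [hT.2 hn, map_one, map_one]
    obtain ⟨S, hS'⟩ := step c hE n hn T hT.1 h1
    refine ⟨S, fun g h => ?_, fun _ g => ?_⟩
    · simp only [Pi.add_apply, Pi.smul_apply]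
      exact hS' g h
    · rw [hq n hn]
      exact hT.2 hn g
  have h0 : P 1 T0 := by
    refine ⟨fun g h => ?_, fun _ g => hT0 g⟩
    obtain ⟨z, hz⟩ := hcgq (T0 g * T0 h) (T0 (g * h)) (by
      rw [map_mul, hT0, hT0, hT0, map_mul])
    exact ⟨z, by rw [pow_one]; exact hz⟩
  obtain ⟨z, hz⟩ := hS R F (E → M) c P hinv hstep T0 h0
  set T : E → M := T0 + c.π • z with hT
  have hmul : ∀ g h, T g * T h = T (g * h) := by
    intro g h
    apply sub_eq_zero.1
    apply sep_mod c
    intro n
    obtain ⟨y, hy⟩ := (hz (n + 1) (by omega)).1 g h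
    exact ⟨c.π • y, by rw [hy, smul_smul, ← pow_succ]⟩
  have hTq : ∀ g, f.q (T g) = ρ0 g := fun g => (hz 1 le_rfl).2 le_rfl g
  have hone : T 1 = 1 := by
    have h1 : (1 - T 1) * (1 - T 1) = 1 - T 1 := by
      have := hmul 1 1
      rw [mul_one] at this
      have h2 : (1 - T 1) * (1 - T 1) = 1 - T 1 - T 1 + T 1 * T 1 := by noncomm_ring
      rw [h2, this]
      abel
    obtain ⟨y, hy⟩ := hcgq 1 (T 1) (by rw [hTq, map_one, map_one])
    have h2 : (1 : M) - T 1 = 0 := by
      apply sep_mod c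
      intro n
      induction n with
      | zero => exact ⟨1 - T 1, by rw [pow_zero, one_smul]⟩
      | succ n ih =>
        obtain ⟨s, hs⟩ := ih
        refine ⟨y * s, ?_⟩
        rw [← h1]
        nth_rewrite 1 [hy]
        rw [hs, smul_mul_assoc, mul_smul_comm, smul_smul, ← pow_succ']
    exact (sub_eq_zero.1 h2).symm
  exact ⟨{ toFun := T, map_one' := hone, map_mul' := fun g h => (hmul g h).symm }, hTq⟩

end Pool.Agent.PFD.D3.H10
end
end -- Pool.Agent.Helper10_PFD.REP

section -- Pool.Agent.Helper13_PFD.BOX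

/-! Squad PFD, row BOX (helper13): the output of block D3. -/

noncomputable section

namespace Pool.Agent.PFD.H13

open Pool.Agent.PFD Pool.Agent.PFD.D3

/-- a basis from dual families -/
def dualBasis {R M K : Type} [CommRing R] [AddCommGroup M] [Module R M] [Fintype K]
    [DecidableEq K] (v : K → M) (f : K → (M →ₗ[R] R))
    (h1 : ∀ i j, f i (v j) = if i = j then 1 else 0) (h2 : ∀ m, ∑ i, f i m • v i = m) :
    Module.Basis K R M :=
  Module.Basis.ofEquivFun
    { toFun := fun m i => f i m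
      map_add' := fun m m' => by
        funext i
        exact map_add (f i) m m'
      map_smul' := fun r m => by
        funext i
        exact map_smul (f i) r m
      invFun := fun g => ∑ i, g i • v i
      left_inv := h2
      right_inv := fun g => by
        funext i
        show f i (∑ j, g j • v j) = g i
        rw [map_sum, Finset.sum_eq_single i]
        · rw [map_smul, h1, if_pos rfl, smul_eq_mul, mul_one]
        · intro j _ hj
          rw [map_smul, h1, if_neg (Ne.symm hj), smul_zero]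
        · intro h
          exact absurd (Finset.mem_univ i) h }

theorem dualBasis_apply {R M K : Type} [CommRing R] [AddCommGroup M] [Module R M] [Fintype K]
    [DecidableEq K] (v : K → M) (f : K → (M →ₗ[R] R))
    (h1 : ∀ i j, f i (v j) = if i = j then 1 else 0) (h2 : ∀ m, ∑ i, f i m • v i = m) (j : K) :
    dualBasis v f h1 h2 j = v j := by
  rw [dualBasis, Module.Basis.coe_ofEquivFun]
  show ∑ i, (Pi.single j (1 : R) : K → R) i • v i = v j
  rw [Finset.sum_eq_single j]
  · rw [Pi.single_eq_same, one_smul]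
  · intro i _ hi
    rw [Pi.single_eq_of_ne hi, zero_smul]
  · intro h
    exact absurd (Finset.mem_univ j) h

theorem box (hSOX : SoxStmt) (hCPB : CpbStmt) (hCPF : CpfStmt) (hCPT : CptStmt)
    (hCPE : CpeStmt) (hCPN : CpnStmt) (hCPZ : CpzStmt) : BoxStmt := by
  classical
  intro R F V E _ _ _ _ _ ℓ c o φ Va W z hW
  haveI := hW.fin
  letI fw : Fintype W := Fintype.ofFinite W
  obtain ⟨S, iS, aS, ⟨s⟩⟩ := hSOX R F V E ℓ c o φ Va W hW
  letI := s.fJ
  -- `S` is finite and free
  let bS : Module.Basis (s.J × W) R S := dualBasis (fun p => s.y p.1 * s.om p.2)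
    (fun p => s.t ∘ₗ LinearMap.mulLeft R (s.om p.2⁻¹ * s.y' p.1))
    (by
      rintro ⟨i, u⟩ ⟨j, v⟩
      show s.t (s.om u⁻¹ * s.y' i * (s.y j * s.om v)) = _
      rw [s.du]
      by_cases h : i = j ∧ u = v
      · rw [if_pos h, if_pos (Prod.ext h.1 h.2)]
      · rw [if_neg h, if_neg]
        intro h'
        exact h ⟨congrArg Prod.fst h', congrArg Prod.snd h'⟩)
    (by
      intro m
      rw [Fintype.sum_prod_type]
      exact s.h1 m)
  haveI hSfin : Module.Finite R S := Module.Finite.of_basis bS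
  haveI hSfree : Module.Free R S := Module.Free.of_basis bS
  obtain ⟨hfin, hfree⟩ := hCPB R S E (D1 o z s)
  obtain ⟨fb, hfb⟩ := hCPF R F V E S ℓ c o φ W z s
  obtain ⟨I, fI, wf, hwt, hwom⟩ := hCPT R F V E S ℓ c o φ W z s hW.sw
  obtain ⟨vc, hv1, hv2, hv3, hv4⟩ := hCPE R S E (D1 o z s) s.v s.v_mul s.v_act
  obtain ⟨Pc, hP1, hP2, hP3, hP4⟩ := hCPN R S E (D1 o z s) s.P s.N s.P_act s.P_nil
  have hcard : (Fintype.card E : F) ≠ 0 := by
    haveI := o.ch
    intro h
    rw [CharP.cast_eq_zero_iff F ℓ] at h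
    apply hW.cop
    rw [Nat.card_eq_fintype_card]
    exact h
  have hsn : ∀ (x : S) (e : E), fb.q (CP.sn (D1 o z s) x e) = CP.sn (D0 φ z) (s.fb.q x) e := by
    intro x e
    apply CP.ext
    funext g
    rw [hfb, CP.sn_f, CP.sn_f]
    by_cases hg : g = e
    · rw [if_pos hg, if_pos hg]
    · rw [if_neg hg, if_neg hg, map_zero]
  let bG : Module.Basis (I × W) R (CP (D1 o z s)) := dualBasis (fun p => wf.x p.1 * wf.om p.2)
    (fun p => wf.t ∘ₗ LinearMap.mulLeft R (wf.om p.2⁻¹ * wf.x' p.1))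
    (by
      rintro ⟨i, u⟩ ⟨j, v⟩
      show wf.t (wf.om u⁻¹ * wf.x' i * (wf.x j * wf.om v)) = _
      rw [wf.du]
      by_cases h : i = j ∧ u = v
      · rw [if_pos h, if_pos (Prod.ext h.1 h.2)]
      · rw [if_neg h, if_neg]
        intro h'
        exact h ⟨congrArg Prod.fst h', congrArg Prod.snd h'⟩)
    (by
      intro m
      rw [Fintype.sum_prod_type]
      exact wf.t1 m)
  refine ⟨CP (D1 o z s), inferInstance, inferInstance, hfin, hfree, ⟨{
    fb := fb
    om := wf.om
    om_q := ?_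
    n := CP.n (D1 o z s)
    n_one := CP.n_one
    n_mul := ?_
    n_om := ?_
    n_q := ?_
    I := I
    fi := fI
    fw := fw
    x := wf.x
    x' := wf.x'
    t := wf.t
    ts := wf.ts
    t1 := wf.t1
    t2 := wf.t2
    bs := bG
    bs_eq := ?_
    ph := wf.ph
    phb := wf.phb
    nrm := wf.nrm
    v := vc
    v_mul := hv2
    v_om := ?_
    v_n := hv3
    wt := s.wt
    wt_pos := s.wt_pos
    t_v := ?_
    P := Pc
    P_l := hP2
    P_r := hP3
    P_v := ?_
    N := s.N
    P_nil := hP4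
    ctr := ?_ }⟩⟩
  · intro w
    rw [hwom, CP.iS_apply, hsn, s.om_q]
    rfl
  · intro e g
    exact CP.n_mul_n e g
  · intro e w w' hw
    rw [hwom, hwom, CP.n_mul_iS]
    have h1 : (D1 o z s).act e (s.om w) = s.om w' := s.om_act e w w' hw
    rw [h1]
  · intro e
    show fb.q (CP.sn (D1 o z s) 1 e) = CP.sn (D0 φ z) 1 e
    rw [hsn, map_one]
  · intro i w
    exact dualBasis_apply _ _ _ _ (i, w)
  · intro w
    rw [hwom, hv4, s.v_om, map_zero]
  · intro a
    rw [hwt, hv1, s.t_v, hwt]
  · intro a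
    rw [hP1]
    intro e
    rw [hv1]
    exact s.P_v _
  · exact hCPZ R F V E S ℓ c o φ W z s fb hfb hcard

end Pool.Agent.PFD.H13
end
end -- Pool.Agent.Helper13_PFD.BOX

section -- Pool.Agent.Helper17_PFD.QUA

/-!
Squad PFD, block D3, row QUA: the quotient `R1` exists.
-/

open scoped BigOperators

noncomputable section

namespace Pool.Agent.PFD.D3.H17

open MvPolynomial

/-- the reduction of matrices is a special fibre map -/
def fibMat {R F : Type} [CommRing R] [Field F] (c : D2.Cdv R F) (J : Type) [Fintype J]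
    [DecidableEq J] : D2.FibG (Matrix J J R) (Matrix J J F) c where
  q := c.κ.mapMatrix
  sc := fun r => by
    rw [RingHom.mapMatrix_apply]
    ext i j
    rw [Matrix.map_apply, Matrix.algebraMap_matrix_apply, Matrix.algebraMap_matrix_apply]
    by_cases h : i = j
    · rw [if_pos h, if_pos h]
      rfl
    · rw [if_neg h, if_neg h, map_zero]
  surj := fun y => by
    choose f hf using c.surj
    refine ⟨Matrix.of fun i j => f (y i j), ?_⟩
    ext i j
    exact hf _
  ker := fun x hx => by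
    have h : ∀ i j, ∃ s, x i j = c.π * s := fun i j => (c.ker _).1 (by
      have := congrFun (congrFun hx i) j
      exact this)
    choose f hf using h
    refine ⟨Matrix.of f, ?_⟩
    ext i j
    rw [Matrix.smul_apply, smul_eq_mul]
    exact hf i j

theorem qua (hRep : RepStmt) (hRel : RelStmt) (hGbs : GbsStmt) : QuaStmt := by
  intro ℓ _ R F E B _ _ _ _ _ c J _ _ _ a D0 hE
  -- the lifts
  have h1 : ∀ b, ∃ ρ : E →* Matrix (J b) (J b) R, ∀ e, (fibMat c (J b)).q (ρ e) = D0 b e :=
    fun b => hRep R F (Matrix (J b) (J b) R) (Matrix (J b) (J b) F) E c (fibMat c (J b)) (D0 b) hE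
  choose D hD using h1
  have hD' : ∀ b e k j, c.κ (D b e k j) = D0 b e k j := by
    intro b e k j
    rw [← hD b e]
    rfl
  have h2 : ∀ b, ∃ ρ : E →* Matrix (J b) (J b) R, ∀ e, (fibMat c (J b)).q (ρ e) =
      ((iterateFrobenius F ℓ (a b)).mapMatrix : Matrix (J b) (J b) F →+* _).toMonoidHom.comp
        (D0 b) e :=
    fun b => hRep R F (Matrix (J b) (J b) R) (Matrix (J b) (J b) F) E c (fibMat c (J b)) _ hE
  choose T hT using h2
  have hT' : ∀ b e k j, c.κ (T b e k j) = c.κ (D b e k j) ^ ℓ ^ a b := by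
    intro b e k j
    rw [hD', ← iterateFrobenius_def]
    exact congrFun (congrFun (hT b e) k) j
  obtain ⟨f, fh, fm, fe⟩ := hRel ℓ R F E B c J a D T hE hT'
  obtain ⟨bb, hb1, hb2⟩ := hGbs R F (Σ b, J b) c (fun i => ℓ ^ a i.1) f
    (fun i => pow_pos (Fact.out : ℓ.Prime).pos _) fh fm
  refine ⟨D, MvPolynomial (Σ b, J b) R ⧸ Ideal.span (Set.range f), inferInstance, inferInstance,
    hD', ⟨?_⟩⟩
  exact
    { pm := Ideal.Quotient.mkₐ R (Ideal.span (Set.range f))
      sur := Ideal.Quotient.mkₐ_surjective _ _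
      f := f
      fh := fh
      fm := fm
      fe := by
        rintro e ⟨b, j⟩
        rw [fe]
        refine Ideal.sum_mem _ fun k _ => ?_
        exact Ideal.mul_mem_left _ _ (Ideal.subset_span ⟨_, rfl⟩)
      ker := by
        intro p
        rw [Ideal.Quotient.mkₐ_eq_mk, Ideal.Quotient.eq_zero_iff_mem]
      b := bb
      b_eq := hb1
      b_deg := hb2 }

end Pool.Agent.PFD.D3.H17
end
end -- Pool.Agent.Helper17_PFD.QUA

section -- Pool.Agent.Helper18_PFD.TSR

/-!
Squad PFD, block D3, row TSR (helper18): the invariant form on the graded lift `R1`.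
-/

set_option autoImplicit false

open scoped BigOperators

noncomputable section

namespace Pool.Agent.PFD.D3.H18

open MvPolynomial

/-- complementary exponents -/
private theorem exp_aux {I : Type} [Fintype I] (n : I → ℕ) (α β : ∀ i, Fin (n i))
    (hs : ∑ i, ((α i : ℕ) + (β i : ℕ)) = ∑ i, (n i - 1)) :
    (∀ i, (α i : ℕ) + (β i : ℕ) = n i - 1) ∨ ∃ i, n i ≤ (α i : ℕ) + (β i : ℕ) := by
  by_cases h : ∃ i, n i ≤ (α i : ℕ) + (β i : ℕ)
  · exact Or.inr h
  · left
    have h1 : ∀ i ∈ (Finset.univ : Finset I), (α i : ℕ) + (β i : ℕ) ≤ n i - 1 := by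
      intro i _
      have : ¬ n i ≤ (α i : ℕ) + (β i : ℕ) := fun hh => h ⟨i, hh⟩
      omega
    intro i
    exact (Finset.sum_eq_sum_iff_of_le h1).1 hs i (Finset.mem_univ i)

theorem tsr (hPac : PacStmt) (hGrm : GrmStmt) (hFts : FtsStmt) : TsrStmt := by
  intro ℓ _ R F V E B R1 _ _ _ _ _ _ _ _ _ c φ J _ _ Z D _ _ q act rho hE hact hx hrho
  classical
  obtain ⟨-, -, -, hdeg⟩ := hPac R E B J D
  -- the reduction of the basis
  have hbs : ∀ α : (∀ i : Σ b, J b, Fin (ℓ ^ Z.a i.1)), rho.q (q.b α) = Z.bs α := by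
    intro α
    rw [q.b_eq, Z.bs_eq, PFC.B3.mo, map_prod, map_prod]
    apply Finset.prod_congr rfl
    intro i _
    rw [map_pow, map_pow, hx]
  have hq0 : ∀ i : Σ b, J b, 0 < ℓ ^ Z.a i.1 := fun i => pow_pos (Fact.out : ℓ.Prime).pos _
  let top : ∀ i : Σ b, J b, Fin (ℓ ^ Z.a i.1) := fun i => ⟨ℓ ^ Z.a i.1 - 1, Nat.sub_lt (hq0 i) one_pos⟩
  have htop : ∀ i, ((top i : Fin _) : ℕ) = ℓ ^ Z.a i.1 - 1 := fun i => rfl
  have hpi : c.κ c.π = 0 := (c.ker c.π).2 ⟨1, (mul_one _).symm⟩
  -- the inverse of |E|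
  have hEu : IsUnit ((Fintype.card E : ℕ) : R) := by
    apply c.loc
    rw [map_natCast]
    exact hE
  obtain ⟨u, hu⟩ := hEu
  have hm : ((Fintype.card E : ℕ) : R) * ((u⁻¹ : Rˣ) : R) = 1 := by rw [← hu, Units.mul_inv]
  have hmκ : ((Fintype.card E : ℕ) : F) * c.κ ((u⁻¹ : Rˣ) : R) = 1 := by
    have := congrArg c.κ hm
    rw [map_mul, map_natCast, map_one] at this
    exact this
  let t0 : R1 →ₗ[R] R := q.b.coord top
  let t : R1 →ₗ[R] R := ((u⁻¹ : Rˣ) : R) • ∑ e : E, t0 ∘ₗ (act e).toLinearMap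
  have ht : ∀ x, t x = ((u⁻¹ : Rˣ) : R) * ∑ e : E, t0 (act e x) := by
    intro x
    show (((u⁻¹ : Rˣ) : R) • ∑ e : E, t0 ∘ₗ (act e).toLinearMap) x = _
    rw [LinearMap.smul_apply, LinearMap.sum_apply, smul_eq_mul]
    rfl
  have htinv : ∀ g x, t (act g x) = t x := by
    intro g x
    rw [ht, ht]
    congr 1
    have h1 := Equiv.sum_comp (Equiv.mulRight g) (fun e => t0 (act e x))
    rw [← h1]
    apply Finset.sum_congr rfl
    intro e _
    rw [Equiv.coe_mulRight, map_mul]
    rfl
  have htdeg : ∀ d (p : MvPolynomial (Σ b, J b) R), p.IsHomogeneous d →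
      d ≠ ∑ i : Σ b, J b, (ℓ ^ Z.a i.1 - 1) → t (q.pm p) = 0 := by
    intro d p hp hd
    rw [ht]
    have : ∀ e ∈ (Finset.univ : Finset E), t0 (act e (q.pm p)) = 0 := by
      intro e _
      rw [hact]
      exact q.b_deg d _ (hdeg e p d hp) top (fun h => hd h.symm)
    rw [Finset.sum_eq_zero this, mul_zero]
  -- values on multiples of π
  have htπ : ∀ x, c.κ (t (c.π • x)) = 0 := by
    intro x
    rw [map_smul, smul_eq_mul, map_mul, hpi, zero_mul]
  have ht0π : ∀ x, c.κ (t0 (c.π • x)) = 0 := by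
    intro x
    rw [map_smul, smul_eq_mul, map_mul, hpi, zero_mul]
  -- the socle
  have hxz : ∀ i, Z.x i * Z.bs top = 0 := by
    intro i
    rw [Z.bs_eq, ← Finset.mul_prod_erase Finset.univ _ (Finset.mem_univ i), ← mul_assoc,
      htop, ← pow_succ', Nat.sub_add_cancel (hq0 i), Z.x0, zero_mul]
  have hbz : ∀ α : (∀ i : Σ b, J b, Fin (ℓ ^ Z.a i.1)), (∃ i, (α i : ℕ) ≠ 0) →
      Z.bs α * Z.bs top = 0 := by
    rintro α ⟨i, hi⟩
    rw [Z.bs_eq α, ← Finset.prod_erase_mul Finset.univ _ (Finset.mem_univ i), mul_assoc]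
    obtain ⟨k, hk⟩ := Nat.exists_eq_succ_of_ne_zero hi
    rw [hk, Nat.succ_eq_add_one, pow_succ, mul_assoc, hxz, mul_zero, mul_zero]
  let aug : MonoidAlgebra F V →ₐ[F] F := MonoidAlgebra.lift F F V (1 : V →* F)
  have haugV : ∀ v, aug (MonoidAlgebra.of F V v) = 1 := by
    intro v
    show (MonoidAlgebra.lift F F V (1 : V →* F)) (MonoidAlgebra.of F V v) = 1
    rw [MonoidAlgebra.lift_of]
    rfl
  have haugx : ∀ i, aug (Z.x i) = 0 := by
    intro i
    have h1 := congrArg aug (Z.x0 i)
    rw [map_pow, map_zero] at h1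
    exact pow_eq_zero_iff (hq0 i).ne' |>.1 h1
  have haugb : ∀ α : (∀ i : Σ b, J b, Fin (ℓ ^ Z.a i.1)), (∃ i, (α i : ℕ) ≠ 0) →
      aug (Z.bs α) = 0 := by
    rintro α ⟨i, hi⟩
    rw [Z.bs_eq α, map_prod]
    apply Finset.prod_eq_zero (Finset.mem_univ i)
    rw [map_pow, haugx, zero_pow hi]
  have haug1 : ∀ α : (∀ i : Σ b, J b, Fin (ℓ ^ Z.a i.1)), (¬ ∃ i, (α i : ℕ) ≠ 0) →
      Z.bs α = 1 := by
    intro α h
    push Not at h
    rw [Z.bs_eq α]
    apply Finset.prod_eq_one
    intro i _
    rw [h i, pow_zero]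
  have hall : ∀ y, y * Z.bs top = aug y • Z.bs top := by
    intro y
    have hy := Z.bs.sum_repr y
    have h1 : ∀ α, Z.bs α * Z.bs top = aug (Z.bs α) • Z.bs top := by
      intro α
      by_cases h : ∃ i, (α i : ℕ) ≠ 0
      · rw [hbz α h, haugb α h, zero_smul]
      · rw [haug1 α h, map_one, one_mul, one_smul]
    rw [← hy, Finset.sum_mul, map_sum, Finset.sum_smul]
    apply Finset.sum_congr rfl
    intro α _
    rw [smul_mul_assoc, h1, map_smul, smul_eq_mul, mul_smul]
  have hsoc : ∀ e, acV F φ e (Z.bs top) = Z.bs top := by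
    apply (hFts F V E φ (Z.bs top) _).2
    intro v
    rw [hall, haugV, one_smul]
  -- the value at the top
  have htt : c.κ (t (q.b top)) = 1 := by
    rw [ht, map_mul, map_sum]
    have h1 : ∀ e ∈ (Finset.univ : Finset E), c.κ (t0 (act e (q.b top))) = 1 := by
      intro e _
      have h2 : rho.q (act e (q.b top) - q.b top) = 0 := by
        rw [map_sub, hrho, hbs, hsoc, sub_self]
      obtain ⟨y, hy⟩ := rho.ker _ h2
      have h3 : act e (q.b top) = q.b top + c.π • y := by rw [← hy]; abel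
      rw [h3, map_add, map_add, ht0π, add_zero]
      show c.κ (q.b.coord top (q.b top)) = 1
      rw [Module.Basis.coord_apply, Module.Basis.repr_self, Finsupp.single_eq_same, map_one]
    rw [Finset.sum_congr rfl h1, Finset.sum_const, Finset.card_univ, nsmul_eq_mul, mul_one,
      mul_comm]
    exact hmκ
  -- the Gram matrix modulo π
  have hrev : ∀ (α : ∀ i : Σ b, J b, Fin (ℓ ^ Z.a i.1)) i,
      ((Fin.rev (α i) : Fin _) : ℕ) = ℓ ^ Z.a i.1 - 1 - α i := by
    intro α i
    rw [Fin.val_rev]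
    omega
  let p : (∀ i : Σ b, J b, Fin (ℓ ^ Z.a i.1)) → (∀ i : Σ b, J b, Fin (ℓ ^ Z.a i.1)) :=
    fun α i => Fin.rev (α i)
  have hp : Function.Bijective p := by
    apply Function.Involutive.bijective
    intro α
    funext i
    exact Fin.rev_rev _
  have hgram : ∀ α β, c.κ (t (q.b α * q.b β)) = if β = p α then 1 else 0 := by
    intro α β
    have hprod : q.b α * q.b β =
        q.pm (∏ i, (X i : MvPolynomial (Σ b, J b) R) ^ ((α i : ℕ) + (β i : ℕ))) := by
      rw [q.b_eq, q.b_eq, ← map_mul, PFC.B3.mo, PFC.B3.mo, ← Finset.prod_mul_distrib]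
      congr 1
      apply Finset.prod_congr rfl
      intro i _
      rw [pow_add]
    have hhom : (∏ i, (X i : MvPolynomial (Σ b, J b) R) ^ ((α i : ℕ) + (β i : ℕ))).IsHomogeneous
        (∑ i, ((α i : ℕ) + (β i : ℕ))) := by
      apply IsHomogeneous.prod
      intro i _
      have h1 := (isHomogeneous_X R i).pow ((α i : ℕ) + (β i : ℕ))
      rw [one_mul] at h1
      exact h1
    by_cases hd : ∑ i, ((α i : ℕ) + (β i : ℕ)) = ∑ i : Σ b, J b, (ℓ ^ Z.a i.1 - 1)
    · rcases exp_aux (fun i : Σ b, J b => ℓ ^ Z.a i.1) α β hd with h | ⟨i, hi⟩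
      · have h1 : β = p α := by
          funext i
          apply Fin.ext
          show (β i : ℕ) = ((Fin.rev (α i) : Fin _) : ℕ)
          rw [hrev]
          have := h i
          omega
        rw [if_pos h1]
        have h2 : q.b α * q.b β = q.b top := by
          rw [hprod, q.b_eq top, PFC.B3.mo]
          congr 1
          apply Finset.prod_congr rfl
          intro i _
          rw [h i]
        rw [h2, htt]
      · have h1 : β ≠ p α := by
          intro hh
          have h2 : (β i : ℕ) = ℓ ^ Z.a i.1 - 1 - α i := by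
            rw [hh]
            exact hrev α i
          have h3 := (α i).2
          have h4 := hq0 i
          have h5 : ℓ ^ Z.a i.1 ≤ (α i : ℕ) + (β i : ℕ) := hi
          omega
        rw [if_neg h1]
        have h2 : rho.q (q.b α * q.b β) = 0 := by
          rw [hprod, map_prod, map_prod]
          apply Finset.prod_eq_zero (Finset.mem_univ i)
          rw [map_pow, map_pow, hx, ← Nat.sub_add_cancel hi, pow_add, Z.x0, mul_zero]
        obtain ⟨y, hy⟩ := rho.ker _ h2
        rw [hy]
        exact htπ y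
    · have h1 : β ≠ p α := by
        intro hh
        apply hd
        apply Finset.sum_congr rfl
        intro i _
        have h2 : (β i : ℕ) = ℓ ^ Z.a i.1 - 1 - α i := by
          rw [hh]
          exact hrev α i
        have h3 := (α i).2
        omega
      rw [if_neg h1, hprod, htdeg _ _ hhom hd, map_zero]
  obtain ⟨y', hy1, hy2⟩ := hGrm R F R1 _ c q.b t p hp hgram
  exact ⟨t, y', hy1, hy2, htinv, htdeg⟩

end Pool.Agent.PFD.D3.H18
end
end -- Pool.Agent.Helper18_PFD.TSR

section -- Pool.Agent.Helper19_PFD.ACW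

/-!
# Squad PFD, row ACW: the action on `R1 [W]`
-/

open scoped BigOperators

noncomputable section

namespace Pool.Agent.PFD.D3.H19

open Pool.Agent.PFD Pool.Agent.PFD.D3

/-- the automorphism of `R1 [W]` which belongs to an automorphism of `R1` and one of `W` -/
def au {R R1 W : Type} [CommRing R] [CommRing R1] [Algebra R R1] [CommGroup W]
    (a : R1 ≃ₐ[R] R1) (s : MulAut W) : MonoidAlgebra R1 W ≃ₐ[R] MonoidAlgebra R1 W :=
  (MonoidAlgebra.domCongr R R1 s).trans (MonoidAlgebra.mapAlgEquiv R W a)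

theorem au_single {R R1 W : Type} [CommRing R] [CommRing R1] [Algebra R R1] [CommGroup W]
    (a : R1 ≃ₐ[R] R1) (s : MulAut W) (w : W) (r : R1) :
    au a s (MonoidAlgebra.single w r) = MonoidAlgebra.single (s w) (a r) := by
  change MonoidAlgebra.mapAlgEquiv R W a (MonoidAlgebra.domCongr R R1 s
    (MonoidAlgebra.single w r)) = _
  rw [MonoidAlgebra.domCongr_single]
  simp

/-- ACW. -/
theorem acw : AcwStmt := by
  intro R R1 W E _ _ _ _ _ act ψ
  refine ⟨{ toFun := fun e => au (act e) (ψ e), map_one' := ?_, map_mul' := ?_ }, ?_⟩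
  · apply AlgEquiv.ext
    intro x
    induction x using MonoidAlgebra.induction_linear with
    | zero => simp
    | add f g hf hg => rw [map_add, hf, hg, map_add]
    | single w r => rw [au_single, map_one, map_one]; rfl
  · intro e g
    apply AlgEquiv.ext
    intro x
    induction x using MonoidAlgebra.induction_linear with
    | zero => simp
    | add f g hf hg => rw [map_add, hf, hg, map_add]
    | single w r =>
      rw [AlgEquiv.mul_apply, au_single, au_single, au_single, map_mul, map_mul]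
      rfl
  · intro e w r
    exact au_single _ _ _ _

end Pool.Agent.PFD.D3.H19
end
end -- Pool.Agent.Helper19_PFD.ACW

section -- Pool.Agent.Helper1_PFD.GBJ

/-!
Squad PFD, row GBJ: a graded linear map which is the identity modulo the prime element is
bijective.
-/

set_option autoImplicit false

namespace Pool.Agent.PFD.D3.H1

open MvPolynomial Pool.Agent.PFD

variable {R I : Type} [CommRing R] [Fintype I]

/-- the polynomials of degree at most `d` -/
noncomputable def Md (R I : Type) [CommRing R] (d : ℕ) : Submodule R (MvPolynomial I R) :=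
  Submodule.span R ((fun γ : I →₀ ℕ => (monomial γ 1 : MvPolynomial I R)) '' {γ | γ.degree ≤ d})

theorem fin_Md (d : ℕ) : Module.Finite R (Md R I d) := by
  refine Module.Finite.iff_fg.2 (Submodule.fg_span ?_)
  exact (Finsupp.finite_of_degree_le d).image _

theorem mem_Md {d : ℕ} {x : MvPolynomial I R} (h : ∀ γ ∈ x.support, γ.degree ≤ d) :
    x ∈ Md R I d := by
  rw [x.as_sum]
  refine Submodule.sum_mem _ fun γ hγ => ?_
  have h1 : (monomial γ (coeff γ x) : MvPolynomial I R) = coeff γ x • monomial γ 1 := by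
    rw [smul_monomial, smul_eq_mul, mul_one]
  rw [h1]
  exact Submodule.smul_mem _ _ (Submodule.subset_span ⟨γ, h γ hγ, rfl⟩)

theorem mem_Md_hom {d n : ℕ} (hn : n ≤ d) {x : MvPolynomial I R} (h : x.IsHomogeneous n) :
    x ∈ Md R I d := by
  refine mem_Md fun γ hγ => ?_
  have h1 : Finsupp.weight 1 γ = n := h (mem_support_iff.1 hγ)
  have h2 := DFunLike.congr_fun (Finsupp.degree_eq_weight_one (σ := I) (R := ℕ)) γ
  have h3 : Finsupp.degree γ = n := h2.trans h1
  exact h3.le.trans hn

theorem gbj (hung : D2.UngStmt) : GbjStmt := by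
  intro R F I _ _ _ c T h1 h2
  have hT : ∀ d, ∀ x ∈ Md R I d, T x ∈ Md R I d := by
    intro d x hx
    unfold Md at hx
    induction hx using Submodule.span_induction with
    | mem y hy =>
      obtain ⟨γ, hγ, rfl⟩ := hy
      exact mem_Md_hom hγ (h1 γ)
    | zero => rw [map_zero]; exact Submodule.zero_mem _
    | add y z _ _ hy hz => rw [map_add]; exact Submodule.add_mem _ hy hz
    | smul r y _ hy => rw [map_smul]; exact Submodule.smul_mem _ _ hy
  have hπ : ∀ d, ∀ x ∈ Md R I d, ∃ y ∈ Md R I d, T x - x = c.π • y := by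
    intro d x hx
    unfold Md at hx
    induction hx using Submodule.span_induction with
    | mem y hy =>
      obtain ⟨γ, hγ, rfl⟩ := hy
      obtain ⟨p, hp⟩ := h2 γ
      have h3 : (monomial γ (1 : R)).IsHomogeneous γ.degree := isHomogeneous_monomial _ rfl
      have h4 := (h1 γ).sub h3
      refine ⟨homogeneousComponent γ.degree p,
        mem_Md_hom hγ (homogeneousComponent_isHomogeneous _ _), ?_⟩
      have h5 := homogeneousComponent_of_mem ((mem_homogeneousSubmodule _ _).2 h4)
        (m := γ.degree)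
      rw [if_pos rfl] at h5
      show T (monomial γ 1) - monomial γ 1 = _
      rw [← h5, hp, map_smul]
    | zero => exact ⟨0, Submodule.zero_mem _, by rw [map_zero, sub_zero, smul_zero]⟩
    | add y z _ _ hy hz =>
      obtain ⟨y', hy', ey⟩ := hy
      obtain ⟨z', hz', ez⟩ := hz
      refine ⟨y' + z', Submodule.add_mem _ hy' hz', ?_⟩
      rw [smul_add, ← ey, ← ez, map_add]
      ring
    | smul r y _ hy =>
      obtain ⟨y', hy', ey⟩ := hy
      refine ⟨r • y', Submodule.smul_mem _ _ hy', ?_⟩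
      rw [smul_comm, ← ey, map_smul, smul_sub]
  have hb : ∀ d, Function.Bijective (T.restrict (hT d)) := by
    intro d
    have := fin_Md (R := R) (I := I) d
    refine hung R F (Md R I d) c _ fun x => ?_
    obtain ⟨y, hy, e⟩ := hπ d x.1 x.2
    exact ⟨⟨y, hy⟩, Subtype.ext e⟩
  have hdeg : ∀ x : MvPolynomial I R, x ∈ Md R I x.totalDegree := by
    intro x
    refine mem_Md fun γ hγ => ?_
    exact le_totalDegree hγ
  constructor
  · intro x y hxy
    have h3 : T (x - y) = 0 := by rw [map_sub, hxy, sub_self]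
    have h4 : (T.restrict (hT (x - y).totalDegree)) ⟨x - y, hdeg _⟩ = 0 := Subtype.ext h3
    have h5 := (hb _).1 (h4.trans (map_zero _).symm)
    exact sub_eq_zero.1 (congrArg Subtype.val h5)
  · intro y
    obtain ⟨x, hx⟩ := (hb y.totalDegree).2 ⟨y, hdeg y⟩
    exact ⟨x.1, congrArg Subtype.val hx⟩

end Pool.Agent.PFD.D3.H1
end -- Pool.Agent.Helper1_PFD.GBJ

section -- Pool.Agent.Helper25_PFD.DVW

/-! PFD, row DVW: the derivation on `R1 [W]`. -/

set_option autoImplicit false

namespace Pool.Agent.PFD.H25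

theorem dvw : D3.DvwStmt := by
  intro R R1 W E _ _ _ _ _ act ψ A v hA hv hact
  let vw : MonoidAlgebra R1 W →ₗ[R] MonoidAlgebra R1 W :=
    (MonoidAlgebra.coeffLinearEquiv R).symm.toLinearMap ∘ₗ
      (Finsupp.mapRange.linearMap v) ∘ₗ (MonoidAlgebra.coeffLinearEquiv R).toLinearMap
  have hs : ∀ w r, vw (MonoidAlgebra.single w r) = MonoidAlgebra.single w (v r) := by
    intro w r
    apply MonoidAlgebra.coeff_injective
    show Finsupp.mapRange v (map_zero v) (MonoidAlgebra.single w r).coeff = _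
    rw [MonoidAlgebra.coeff_single, Finsupp.mapRange_single, MonoidAlgebra.coeff_single]
  have h1 : v 1 = 0 := by
    have h := hv 1 1
    rw [mul_one, one_mul, mul_one] at h
    exact left_eq_add.mp h
  refine ⟨vw, hs, ?_, ?_, ?_⟩
  · intro a b
    induction a using MonoidAlgebra.induction_linear with
    | zero => simp
    | add f g hf hg =>
      rw [add_mul, map_add, hf, hg, map_add, add_mul, add_mul]
      abel
    | single w r =>
      induction b using MonoidAlgebra.induction_linear with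
      | zero => simp
      | add f g hf hg =>
        rw [mul_add, map_add, hf, hg, map_add, mul_add, mul_add]
        abel
      | single w' r' =>
        rw [MonoidAlgebra.single_mul_single, hs, hs, hs, MonoidAlgebra.single_mul_single,
          MonoidAlgebra.single_mul_single, hv, MonoidAlgebra.single_add]
  · intro w
    rw [hs, h1, MonoidAlgebra.single_zero]
  · intro e x
    induction x using MonoidAlgebra.induction_linear with
    | zero => simp
    | add f g hf hg => rw [map_add, map_add, hf, hg, map_add, map_add]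
    | single w r => rw [hA, hs, hs, hA, hact]

end Pool.Agent.PFD.H25
end -- Pool.Agent.Helper25_PFD.DVW

section -- Pool.Agent.Helper31_PFD.SOX

/-!
# Squad PFD, block D3, row SOX (helper31): the lift of `F V`
-/

open scoped BigOperators

noncomputable section

namespace Pool.Agent.PFD.D3.H31

theorem md_act {F V E : Type} [Field F] [CommGroup V] [Group E] (φ : E →* MulAut V)
    (Va : Subgroup V) (ψa : E →* MulAut Va) (hψa : ∀ e (u : Va), (ψa e u : V) = φ e u) (e : E)
    (x : MonoidAlgebra F Va) :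
    MonoidAlgebra.mapDomainAlgHom F F Va.subtype (acV F ψa e x) =
      acV F φ e (MonoidAlgebra.mapDomainAlgHom F F Va.subtype x) := by
  induction x using MonoidAlgebra.induction_linear with
  | zero => rw [map_zero, map_zero, map_zero]
  | add f g hf hg => rw [map_add, map_add, map_add, hf, hg, map_add]
  | single u r =>
    rw [acV_single]
    have h1 : ∀ (u : Va) (r : F), MonoidAlgebra.mapDomainAlgHom F F Va.subtype
        (MonoidAlgebra.single u r) = MonoidAlgebra.single (u : V) r := fun u r =>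
      MonoidAlgebra.mapDomain_single
    rw [h1, h1, acV_single, hψa]

/-- row SOX -/
theorem sox (hrsu : RsuStmt) (hglx : GlxStmt) (hacw : AcwStmt) (hfbw : FbwStmt)
    (htsw : TswStmt) (hdvw : DvwStmt) (hnlw : NlwStmt) (hanw : AnwStmt) : SoxStmt := by
  classical
  intro R F V E _ _ _ _ _ ℓ c o φ Va W _ h
  haveI := h.fin
  haveI : Fact ℓ.Prime := ⟨o.pr⟩
  haveI : CharP F ℓ := o.ch
  letI : Fintype Va := Fintype.ofFinite Va
  obtain ⟨ψa, hψa⟩ := hrsu V E φ Va h.sa
  obtain ⟨ψ, hψ⟩ := hrsu V E φ W h.sw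
  have hcard : (Fintype.card E : F) ≠ 0 := by
    intro h0
    rw [CharP.cast_eq_zero_iff F ℓ, ← Nat.card_eq_fintype_card] at h0
    exact h.cop h0
  have hnt : Nontrivial Va := by
    obtain ⟨u, hu, hu1⟩ := h.nt
    exact ⟨⟨⟨u, hu⟩, 1, fun h0 => hu1 (congrArg Subtype.val h0)⟩⟩
  obtain ⟨R1, _, _, ⟨G⟩⟩ := hglx ℓ R F Va E c ψa (h.pg.to_subgroup Va) hnt hcard
  letI : Fintype G.J := G.fJ
  obtain ⟨A, hA⟩ := hacw R R1 W E G.act ψ
  obtain ⟨fb, hfb⟩ := hfbw R F V R1 c Va W G.rho h.dis h.sup
  obtain ⟨tw, htw, htw1, htwd, htwa⟩ := htsw R R1 W E G.J G.act ψ A G.t G.y G.y' hA G.h1 G.du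
    G.t_act
  obtain ⟨vw, hvw, hvwm, hvw0, hvwa⟩ := hdvw R R1 W E G.act ψ A G.v hA G.v_mul G.v_act
  obtain ⟨P, hPN, hPa, hP⟩ := hnlw R R1 W E G.act ψ A G.eps G.N hA G.eps_act G.eps_nil
  refine ⟨MonoidAlgebra R1 W, inferInstance, inferInstance, ⟨?_⟩⟩
  exact
    { act := A
      fb := fb
      fb_act := by
        intro e s
        induction s using MonoidAlgebra.induction_linear with
        | zero => rw [map_zero, map_zero, map_zero]
        | add f g hf hg => rw [map_add, map_add, hf, hg, map_add, map_add]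
        | single w r =>
          rw [hA, hfb, hfb, G.rho_act, md_act φ Va ψa hψa, map_mul, hψ, MonoidAlgebra.of_apply,
            MonoidAlgebra.of_apply, acV_single]
      om := MonoidAlgebra.of R1 W
      om_q := by
        intro w
        rw [MonoidAlgebra.of_apply, hfb, map_one, map_one, one_mul]
      om_act := by
        intro e w w' hw
        rw [MonoidAlgebra.of_apply, MonoidAlgebra.of_apply, hA, map_one]
        congr 1
        apply Subtype.ext
        rw [hψ, hw]
      J := G.J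
      fJ := G.fJ
      y := fun j => MonoidAlgebra.single 1 (G.y j)
      y' := fun j => MonoidAlgebra.single 1 (G.y' j)
      t := tw
      h1 := by
        intro a
        exact htw1 a
      du := by
        intro i j u v
        refine (htwd i j u v).trans ?_
        congr
      t_act := htwa
      v := vw
      v_mul := hvwm
      v_om := fun w => hvw0 w
      v_act := hvwa
      wt := G.wt
      wt_pos := G.wt_pos
      t_v := by
        intro a
        induction a using MonoidAlgebra.induction_linear with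
        | zero => rw [map_zero, map_zero, mul_zero]
        | add f g hf hg => rw [map_add, map_add, hf, hg, map_add, mul_add]
        | single w r =>
          rw [hvw, htw, htw]
          by_cases hw : w = 1
          · rw [if_pos hw, if_pos hw, G.t_v]
          · rw [if_neg hw, if_neg hw, mul_zero]
      P := P
      P_v := by
        intro a
        induction a using MonoidAlgebra.induction_linear with
        | zero => rw [map_zero]; exact P.zero_mem
        | add f g hf hg => rw [map_add]; exact P.add_mem hf hg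
        | single w r =>
          rw [hvw, hP]
          intro w'
          rw [MonoidAlgebra.coeff_single, Finsupp.single_apply]
          by_cases hw : w = w'
          · rw [if_pos hw, G.eps_v]
          · rw [if_neg hw, map_zero]
      P_act := hPa
      N := G.N
      P_nil := hPN
      ann := hanw R F V E R1 ℓ c o φ Va W G.rho G.act ψ A fb G.eps G.sg h hψ hA hfb G.eps_act
        G.sg_eps G.sg_q }

end Pool.Agent.PFD.D3.H31
end
end -- Pool.Agent.Helper31_PFD.SOX

section -- Pool.Agent.Helper35_PFD.FBW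

/-! PFD, row FBW: the reduction of `R1 [W]`. -/

set_option autoImplicit false

namespace Pool.Agent.PFD.D3.H35

open MonoidAlgebra

theorem fbw : FbwStmt := by
  classical
  intro R F V R1 _ _ _ _ _ _ c Va W rho hdis hsup
  obtain ⟨f, hf⟩ : ∃ f : R1 →+* MonoidAlgebra F V,
      f = (MonoidAlgebra.mapDomainAlgHom F F Va.subtype).toRingHom.comp rho.q := ⟨_, rfl⟩
  have hfr : ∀ r, f r = MonoidAlgebra.mapDomainAlgHom F F Va.subtype (rho.q r) := fun r => by
    rw [hf]
    rfl
  obtain ⟨q, hq⟩ : ∃ q : MonoidAlgebra R1 W →+* MonoidAlgebra F V,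
      q = liftNCRingHom f ((MonoidAlgebra.of F V).comp W.subtype) (fun x y => Commute.all _ _) :=
    ⟨_, rfl⟩
  have hqs : ∀ (w : W) r, q (single w r) =
      MonoidAlgebra.mapDomainAlgHom F F Va.subtype (rho.q r) * MonoidAlgebra.of F V (w : V) := by
    intro w r
    rw [hq, liftNCRingHom_single, hfr]
    rfl
  -- coefficients
  have hc : ∀ (x : MonoidAlgebra R1 W) (u : Va) (w : W),
      (q x).coeff ((u : V) * w) = (rho.q (x.coeff w)).coeff u := by
    intro x u w
    induction x using MonoidAlgebra.induction_linear with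
    | zero => simp
    | add a b ha hb => rw [map_add, coeff_add, Finsupp.add_apply, ha, hb, coeff_add,
        Finsupp.add_apply, map_add, coeff_add, Finsupp.add_apply]
    | single w' r =>
      rw [hqs]
      have h1 : MonoidAlgebra.of F V (w' : V) = single (w' : V) (1 : F) := rfl
      have h2 : ((MonoidAlgebra.mapDomainAlgHom F F Va.subtype (rho.q r)) *
          MonoidAlgebra.of F V (w' : V)).coeff ((u : V) * w) =
          (MonoidAlgebra.mapDomainAlgHom F F Va.subtype (rho.q r)).coeff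
            ((u : V) * w * (w' : V)⁻¹) * 1 := by
        rw [h1]
        refine coeff_mul_single_eq_coeff_mul _ fun m' _ => ?_
        exact ⟨fun h => by rw [← h]; group, fun h => by rw [h]; group⟩
      rw [h2, mul_one]
      have h3 : (MonoidAlgebra.mapDomainAlgHom F F Va.subtype (rho.q r)).coeff =
          Finsupp.mapDomain Va.subtype (rho.q r).coeff := rfl
      rw [h3, coeff_single]
      by_cases hw : w' = w
      · subst hw
        rw [Finsupp.single_eq_same]
        have h4 : (u : V) * w' * (w' : V)⁻¹ = Va.subtype u := by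
          rw [mul_inv_cancel_right]
          rfl
        rw [h4]
        exact Finsupp.mapDomain_apply Va.subtype_injective _ _
      · rw [Finsupp.single_eq_of_ne (Ne.symm hw), map_zero, coeff_zero, Finsupp.zero_apply]
        refine Finsupp.mapDomain_of_notMem_range _ _ ?_
        rintro ⟨u', hu'⟩
        apply hw
        have h5 : (w : V) * (w' : V)⁻¹ ∈ Va ⊓ W := by
          refine ⟨?_, W.mul_mem w.2 (W.inv_mem w'.2)⟩
          have h6 : (w : V) * (w' : V)⁻¹ = (u : V)⁻¹ * u' := by
            have h7 : (u' : V) = (u : V) * w * (w' : V)⁻¹ := hu'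
            rw [h7]
            group
          rw [h6]
          exact Va.mul_mem (Va.inv_mem u.2) u'.2
        rw [hdis, Subgroup.mem_bot] at h5
        exact Subtype.ext (mul_inv_eq_one.1 h5).symm
  have hdec : ∀ v : V, ∃ (u : Va) (w : W), (u : V) * w = v := by
    intro v
    have h1 : v ∈ Va ⊔ W := by
      rw [hsup]
      exact Subgroup.mem_top v
    obtain ⟨u, hu, w, hw, h2⟩ := Subgroup.mem_sup.1 h1
    exact ⟨⟨u, hu⟩, ⟨w, hw⟩, h2⟩
  refine ⟨⟨q, fun r => ?_, fun y => ?_, fun x hx => ?_⟩, hqs⟩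
  · have h1 : algebraMap R (MonoidAlgebra R1 W) r = single 1 (algebraMap R R1 r) := rfl
    rw [h1, hqs, rho.sc, AlgHom.commutes]
    simp
  · induction y using MonoidAlgebra.induction_linear with
    | zero => exact ⟨0, map_zero q⟩
    | add a b ha hb =>
      obtain ⟨x, rfl⟩ := ha
      obtain ⟨x', rfl⟩ := hb
      exact ⟨x + x', map_add q x x'⟩
    | single v a =>
      obtain ⟨u, w, rfl⟩ := hdec v
      obtain ⟨r, hr⟩ := rho.surj (single u a)
      refine ⟨single w r, ?_⟩
      rw [hqs, hr]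
      have h1 : MonoidAlgebra.mapDomainAlgHom F F Va.subtype (single u a) = single (u : V) a :=
        MonoidAlgebra.mapDomain_single
      have h2 : MonoidAlgebra.of F V (w : V) = single (w : V) (1 : F) := rfl
      rw [h1, h2, single_mul_single, mul_one]
  · have h1 : ∀ w : W, rho.q (x.coeff w) = 0 := by
      intro w
      apply MonoidAlgebra.ext
      apply Finsupp.ext
      intro u
      rw [← hc, hx]
      rfl
    choose y hy using fun w => rho.ker _ (h1 w)
    have hWf : Finite W := inferInstance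
    cases nonempty_fintype W
    refine ⟨ofCoeff (Finsupp.equivFunOnFinite.symm y), ?_⟩
    apply MonoidAlgebra.ext
    apply Finsupp.ext
    intro w
    rw [coeff_smul, Finsupp.smul_apply, coeff_ofCoeff]
    exact hy w

end Pool.Agent.PFD.D3.H35
end -- Pool.Agent.Helper35_PFD.FBW

section -- Pool.Agent.Helper35_PFD.PAC

/-! PFD, row PAC: the linear action on polynomials. -/

set_option autoImplicit false

namespace Pool.Agent.PFD.D3.H35

open MvPolynomial

theorem pac : PacStmt := by
  intro R E B _ _ J _ _ D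
  refine ⟨fun p => ?_, fun e g p => ?_, fun e b j => ?_, fun e p d hp => ?_⟩
  · have h : Lb D 1 = AlgHom.id R _ := by
      apply MvPolynomial.algHom_ext
      rintro ⟨b, j⟩
      unfold Lb
      rw [aeval_X]
      simp only [map_one, AlgHom.id_apply]
      rw [Finset.sum_eq_single j]
      · rw [Matrix.one_apply_eq, C_1, one_mul]
      · intro k _ hk
        rw [Matrix.one_apply_ne hk, C_0, zero_mul]
      · intro h
        exact absurd (Finset.mem_univ j) h
    rw [h]
    rfl
  · have h : Lb D (e * g) = (Lb D e).comp (Lb D g) := by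
      apply MvPolynomial.algHom_ext
      rintro ⟨b, j⟩
      rw [AlgHom.comp_apply]
      unfold Lb
      rw [aeval_X, aeval_X, map_sum]
      simp only [map_mul, Matrix.mul_apply, map_sum, aeval_X, algHom_C, MvPolynomial.algebraMap_eq,
        Finset.sum_mul, Finset.mul_sum]
      rw [Finset.sum_comm]
      refine Finset.sum_congr rfl fun k _ => Finset.sum_congr rfl fun l _ => ?_
      ring
    rw [h]
    rfl
  · unfold Lb
    rw [aeval_X]
  · unfold Lb
    have h := hp.aeval (n := 1) (fun i : Σ b, J b => ∑ k : J i.1, C (D i.1 e k i.2) *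
      (X ⟨i.1, k⟩ : MvPolynomial (Σ b, J b) R)) (fun i => by
        refine IsHomogeneous.sum _ _ _ fun k _ => ?_
        have h1 := (isHomogeneous_C (Σ b, J b) (D i.1 e k i.2)).mul
          (isHomogeneous_X R (⟨i.1, k⟩ : Σ b, J b))
        rwa [zero_add] at h1)
    rwa [one_mul] at h

end Pool.Agent.PFD.D3.H35
end -- Pool.Agent.Helper35_PFD.PAC

section -- Pool.Agent.Helper41_PFD.GRM

namespace Pool.Agent.PFD.D3.H41

noncomputable section

theorem grm : GrmStmt := by
  intro R F A K _ _ c _ _ _ _ b t p hp hG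
  obtain ⟨G, hGd⟩ : ∃ G : Matrix K K R, ∀ i j, G i j = t (b i * b j) :=
    ⟨fun i j => t (b i * b j), fun _ _ => rfl⟩
  obtain ⟨M, hMd⟩ : ∃ M : Matrix K K F, M = c.κ.mapMatrix G := ⟨_, rfl⟩
  have hM : ∀ i j, M i j = if j = p i then 1 else 0 := by
    intro i j
    rw [hMd]
    show c.κ (G i j) = _
    rw [hGd]
    exact hG i j
  have h1 : M * M.transpose = 1 := by
    ext i j
    rw [Matrix.mul_apply, Matrix.one_apply]
    have h : ∀ k, M i k * M.transpose k j = if k = p i then (if p i = p j then 1 else 0) else 0 := by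
      intro k
      rw [Matrix.transpose_apply, hM, hM]
      split_ifs with h1 h2 h3 h4 <;> simp_all
    rw [Finset.sum_congr rfl fun k _ => h k, Finset.sum_ite_eq' Finset.univ (p i)]
    simp only [Finset.mem_univ, if_true, hp.1.eq_iff]
  have h2 : c.κ G.det ≠ 0 := by
    rw [RingHom.map_det, ← hMd]
    intro h0
    have h := congrArg Matrix.det h1
    rw [Matrix.det_mul, h0, zero_mul, Matrix.det_one] at h
    exact zero_ne_one h
  have h3 : IsUnit G.det := c.loc _ h2
  have h4 : G⁻¹ * G = 1 := Matrix.nonsing_inv_mul _ h3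
  have h5 : ∀ i j, t ((∑ k, G⁻¹ i k • b k) * b j) = if i = j then 1 else 0 := by
    intro i j
    rw [Finset.sum_mul, map_sum]
    have h := congrFun (congrFun h4 i) j
    rw [Matrix.mul_apply, Matrix.one_apply] at h
    rw [← h]
    refine Finset.sum_congr rfl fun k _ => ?_
    rw [smul_mul_assoc, map_smul, hGd, smul_eq_mul]
  refine ⟨fun i => ∑ k, G⁻¹ i k • b k, ?_, h5⟩
  intro a
  have h6 : (∑ j, (t.comp (LinearMap.mulLeft R (∑ k, G⁻¹ j k • b k))).smulRight (b j)) =
      LinearMap.id := by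
    apply b.ext
    intro i
    rw [LinearMap.sum_apply]
    simp only [LinearMap.smulRight_apply, LinearMap.comp_apply, LinearMap.mulLeft_apply, h5,
      LinearMap.id_apply]
    simp
  have h7 := congrArg (fun f => f a) h6
  simpa only [LinearMap.sum_apply, LinearMap.smulRight_apply, LinearMap.comp_apply,
    LinearMap.mulLeft_apply, LinearMap.id_apply] using h7

end

end Pool.Agent.PFD.D3.H41
end -- Pool.Agent.Helper41_PFD.GRM

section -- Pool.Agent.Helper44_PFD.CPF

/-!
# Squad PFD, row CPF: the special fibre of the crossed product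
-/

set_option autoImplicit false

open scoped BigOperators

noncomputable section

namespace Pool.Agent.PFD.D3.H44

open Pool.Agent.PFD Pool.Agent.PFD.D3

theorem q_smul {R F S A : Type} [CommRing R] [Field F] {c : D2.Cdv R F} [Ring S] [Algebra R S]
    [Ring A] [Algebra F A] (fb : D2.FibG S A c) (r : R) (x : S) :
    fb.q (r • x) = c.κ r • fb.q x := by
  rw [Algebra.smul_def, map_mul, fb.sc, ← Algebra.smul_def]

theorem cpf : CpfStmt := by
  intro R F V E S _ _ _ _ _ ℓ c o φ W _ z _ _ s
  let q : CP (D1 o z s) →+* CP (D0 φ z) :=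
    { toFun := fun a => ⟨fun e => s.fb.q (a.f e)⟩
      map_one' := by
        apply CP.ext
        funext e
        show s.fb.q ((CP.sn (D1 o z s) 1 1).f e) = (CP.sn (D0 φ z) 1 1).f e
        rw [CP.sn_f, CP.sn_f]
        by_cases h : e = 1
        · rw [if_pos h, if_pos h, map_one]
        · rw [if_neg h, if_neg h, map_zero]
      map_mul' := by
        intro a b
        apply CP.ext
        funext e
        show s.fb.q ((a * b).f e) = _
        rw [CP.mul_f, CP.mul_f, map_sum]
        apply Finset.sum_congr rfl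
        intro h _
        rw [q_smul, map_mul]
        have h1 : s.fb.q ((D1 o z s).act h (b.f (h⁻¹ * e))) =
            (D0 φ z).act h (s.fb.q (b.f (h⁻¹ * e))) := s.fb_act h _
        have h2 : c.κ ((D1 o z s).c h (h⁻¹ * e) : R) = ((D0 φ z).c h (h⁻¹ * e) : F) :=
          o.τκ _
        rw [h1, h2]
      map_zero' := by
        apply CP.ext
        funext e
        exact map_zero s.fb.q
      map_add' := by
        intro a b
        apply CP.ext
        funext e
        exact map_add s.fb.q _ _ }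
  refine ⟨⟨q, ?_, ?_, ?_⟩, fun a e => rfl⟩
  · intro r
    rw [Algebra.algebraMap_eq_smul_one, Algebra.algebraMap_eq_smul_one]
    apply CP.ext
    funext e
    show s.fb.q (r • (CP.sn (D1 o z s) 1 1).f e) = c.κ r • (CP.sn (D0 φ z) 1 1).f e
    rw [q_smul, CP.sn_f, CP.sn_f]
    by_cases h : e = 1
    · rw [if_pos h, if_pos h, map_one]
    · rw [if_neg h, if_neg h, map_zero]
  · intro a
    choose y hy using fun e => s.fb.surj (a.f e)
    refine ⟨⟨y⟩, ?_⟩
    apply CP.ext
    funext e
    exact hy e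
  · intro a ha
    have h1 : ∀ e, s.fb.q (a.f e) = 0 := by
      intro e
      have h2 : (q a).f e = 0 := by rw [ha]; rfl
      exact h2
    choose y hy using fun e => s.fb.ker (a.f e) (h1 e)
    refine ⟨⟨y⟩, ?_⟩
    apply CP.ext
    funext e
    exact hy e

end Pool.Agent.PFD.D3.H44
end
end -- Pool.Agent.Helper44_PFD.CPF

section -- Pool.Agent.Helper41_PFC.EIG

namespace Pool.Agent.PFC.B3.H41

open Module

noncomputable section

variable {F V E : Type} [Field F] [CommGroup V]

set_option linter.unusedSectionVars false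

theorem Ia_zero (ℓ : ℕ) : Ia F V ℓ 0 = ⊥ := by
  unfold Ia
  rw [Submodule.span_eq_bot]
  rintro _ ⟨v, hv, rfl⟩
  rw [pow_zero, pow_one] at hv
  rw [hv, map_one, sub_self]

theorem Ia_mono (ℓ : ℕ) {a b : ℕ} (h : a ≤ b) : Ia F V ℓ a ≤ Ia F V ℓ b := by
  refine Submodule.span_mono ?_
  rintro _ ⟨v, hv, rfl⟩
  refine ⟨v, ?_, rfl⟩
  obtain ⟨c, rfl⟩ := Nat.exists_eq_add_of_le h
  rw [pow_add, pow_mul, hv, one_pow]

theorem Ua_zero (ℓ : ℕ) : Ua F V ℓ 0 = Au2 F V := by
  unfold Ua
  rw [Ia_zero, bot_sup_eq]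

theorem Ua_succ (ℓ a : ℕ) : Ua F V ℓ (a + 1) = Ia F V ℓ (a + 1) ⊔ Ua F V ℓ a := by
  have h1 : Ia F V ℓ a ≤ Ia F V ℓ (a + 1) := Ia_mono ℓ (Nat.le_succ a)
  have h2 : Ia F V ℓ (a + 1) ≤ Ua F V ℓ (a + 1) := le_sup_left
  have h3 : Au2 F V ≤ Ua F V ℓ (a + 1) := le_sup_right
  have h4 : Au2 F V ≤ Ua F V ℓ a := le_sup_right
  apply le_antisymm
  · exact sup_le le_sup_left (h4.trans le_sup_right)
  · exact sup_le h2 (sup_le (h1.trans h2) h3)

theorem Ua_mono (ℓ a : ℕ) : Ua F V ℓ a ≤ Ua F V ℓ (a + 1) := by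
  rw [Ua_succ]
  exact le_sup_right

theorem span_stable (T : MonoidAlgebra F V →ₗ[F] MonoidAlgebra F V)
    (S : Set (MonoidAlgebra F V)) (hS : ∀ z ∈ S, T z ∈ S) {z : MonoidAlgebra F V}
    (hz : z ∈ Submodule.span F S) : T z ∈ Submodule.span F S := by
  have h : Submodule.span F S ≤ (Submodule.span F S).comap T := by
    rw [Submodule.span_le]
    intro x hx
    exact Submodule.subset_span (hS x hx)
  exact h hz

theorem ac_of [Group E] (φ : E →* MulAut V) (e : E) (v : V) :
    ac F φ e (MonoidAlgebra.of F V v) = MonoidAlgebra.of F V (φ e v) := by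
  unfold ac
  simp

theorem Ia_stable [Group E] (φ : E →* MulAut V) (ℓ a : ℕ) (e : E) {z : MonoidAlgebra F V}
    (hz : z ∈ Ia F V ℓ a) : ac F φ e z ∈ Ia F V ℓ a := by
  refine span_stable (ac F φ e).toLinearMap _ ?_ hz
  rintro _ ⟨v, hv, rfl⟩
  refine ⟨φ e v, ?_, ?_⟩
  · rw [← map_pow, hv, map_one]
  · show ac F φ e (MonoidAlgebra.of F V v - 1) = _
    rw [map_sub, ac_of, map_one]

theorem Ua_stable [Group E] (φ : E →* MulAut V) (ℓ a : ℕ) (e : E) {z : MonoidAlgebra F V}
    (hz : z ∈ Ua F V ℓ a) : ac F φ e z ∈ Ua F V ℓ a := by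
  obtain ⟨x, hx, y, hy, rfl⟩ := Submodule.mem_sup.1 hz
  rw [map_add]
  refine Submodule.add_mem_sup (Ia_stable φ ℓ a e hx) ?_
  refine span_stable (ac F φ e).toLinearMap _ ?_ hy
  rintro _ ⟨v, w, rfl⟩
  refine ⟨φ e v, φ e w, ?_⟩
  show ac F φ e ((MonoidAlgebra.of F V v - 1) * (MonoidAlgebra.of F V w - 1)) = _
  rw [map_mul, map_sub, map_sub, ac_of, ac_of, map_one]

theorem ac_one_mul [Group E] (φ : E →* MulAut V) (z : MonoidAlgebra F V) :
    ac F φ 1 z = z ∧ ∀ e e', ac F φ (e * e') z = ac F φ e (ac F φ e' z) := by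
  induction z using MonoidAlgebra.induction_on with
  | of v =>
    refine ⟨?_, ?_⟩
    · rw [ac_of, map_one]
      rfl
    · intro e e'
      rw [ac_of, ac_of, ac_of, map_mul]
      rfl
  | add x y hx hy =>
    refine ⟨by rw [map_add, hx.1, hy.1], ?_⟩
    intro e e'
    rw [map_add, hx.2, hy.2, map_add, map_add]
  | smul r x hx =>
    refine ⟨by rw [map_smul, hx.1], ?_⟩
    intro e e'
    rw [map_smul, hx.2, map_smul, map_smul]

def acT [Group E] (φ : E →* MulAut V) : E →* Module.End F (MonoidAlgebra F V) where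
  toFun := fun e => (ac F φ e).toLinearMap
  map_one' := by
    apply LinearMap.ext
    intro z
    exact (ac_one_mul φ z).1
  map_mul' := by
    intro e e'
    apply LinearMap.ext
    intro z
    exact (ac_one_mul φ z).2 e e'

theorem Ia_pow (ℓ : ℕ) [Fact ℓ.Prime] [CharP F ℓ] (a : ℕ) {z : MonoidAlgebra F V}
    (hz : z ∈ Ia F V ℓ a) : z ^ ℓ ^ a = 0 := by
  have hch : CharP (MonoidAlgebra F V) ℓ :=
    charP_of_injective_algebraMap (FaithfulSMul.algebraMap_injective F (MonoidAlgebra F V)) ℓ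
  have hp : (ℓ ^ a) ≠ 0 := pow_ne_zero _ (Fact.out : ℓ.Prime).ne_zero
  unfold Ia at hz
  induction hz using Submodule.span_induction with
  | mem x hx =>
    obtain ⟨v, hv, rfl⟩ := hx
    rw [sub_pow_char_pow, one_pow, ← map_pow, hv, map_one, sub_self]
  | zero => exact zero_pow hp
  | add x y _ _ hx hy => rw [add_pow_char_pow, hx, hy, add_zero]
  | smul c x _ hx => rw [smul_pow, hx, smul_zero]

/-- Abel summation -/
theorem abel_sum (u : ℕ → ℕ) (hu : ∀ a, u a ≤ u (a + 1)) (m : ℕ) :
    ∑ a ∈ Finset.range m, (a + 1) * (u (a + 1) - u a) = ∑ a ∈ Finset.range m, (u m - u a) := by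
  have hmono : Monotone u := monotone_nat_of_le_succ hu
  have h1 : ∀ m, ∑ a ∈ Finset.range m, (a + 1) * (u (a + 1) - u a) +
      ∑ a ∈ Finset.range m, u a = m * u m := by
    intro m
    induction m with
    | zero => simp
    | succ m ih =>
      rw [Finset.sum_range_succ, Finset.sum_range_succ]
      obtain ⟨d, hd⟩ := Nat.exists_eq_add_of_le (hu m)
      rw [hd, Nat.add_sub_cancel_left]
      calc _ = (∑ a ∈ Finset.range m, (a + 1) * (u (a + 1) - u a) +
              ∑ a ∈ Finset.range m, u a) + (m + 1) * d + u m := by ring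
        _ = _ := by rw [ih]; ring
  have h2 : ∑ a ∈ Finset.range m, (u m - u a) + ∑ a ∈ Finset.range m, u a = m * u m := by
    rw [← Finset.sum_add_distrib]
    rw [Finset.sum_congr rfl (g := fun _ => u m)]
    · rw [Finset.sum_const, Finset.card_range, smul_eq_mul]
    · intro a ha
      exact Nat.sub_add_cancel (hmono (Finset.mem_range.1 ha).le)
  have h3 := h1 m
  omega

theorem eig (hDec : DecStmt) (hLin : LinStmt) (hFrb : FrbStmt) (hSpn : SpnStmt)
    (hCnt : CntStmt) (hNky : NkyStmt) : EigStmt := by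
  intro ℓ _ F V E _ _ _ _ _ _ _ φ hVp hVn hE
  classical
  have hℓ : ℓ.Prime := Fact.out
  have hch : CharP (MonoidAlgebra F V) ℓ :=
    charP_of_injective_algebraMap (FaithfulSMul.algebraMap_injective F (MonoidAlgebra F V)) ℓ
  have : Fintype V := Fintype.ofFinite V
  have : Fintype (E →* Fˣ) := Fintype.ofFinite _
  -- the exponent
  obtain ⟨m, hm⟩ : ∃ m : ℕ, ∀ v : V, v ^ ℓ ^ m = 1 := by
    obtain ⟨m, hm⟩ := (IsPGroup.iff_card).1 hVp
    refine ⟨m, fun v => ?_⟩
    rw [← hm]
    exact pow_card_eq_one'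
  -- abbreviations
  let T : E →* Module.End F (MonoidAlgebra F V) := acT φ
  let G : (E →* Fˣ) → Submodule F (MonoidAlgebra F V) :=
    fun η => Eg F (fun e => (ac F φ e).toLinearMap) η
  let D : ℕ → (E →* Fˣ) → ℕ := fun a η => finrank F (Ua F V ℓ a ⊓ G η : Submodule F _)
  have hDfrb : ∀ a η, D a η = D a (η ^ ℓ) := fun a η => hFrb ℓ F V E φ a η
  have hDpow : ∀ a η j, D a η = D a (η ^ ℓ ^ j) := by
    intro a η j
    induction j with
    | zero =>
      have h1 : η ^ ℓ ^ 0 = η := by
        apply MonoidHom.ext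
        intro e
        rw [MonoidHom.pow_apply, pow_zero, pow_one]
      rw [h1]
    | succ j ih =>
      have h1 : (η ^ ℓ ^ j) ^ ℓ = η ^ ℓ ^ (j + 1) := by
        apply MonoidHom.ext
        intro e
        rw [MonoidHom.pow_apply, MonoidHom.pow_apply, MonoidHom.pow_apply, ← pow_mul, ← pow_succ]
      rw [ih, hDfrb, h1]
  have hDmono : ∀ a η, D a η ≤ D (a + 1) η := fun a η =>
    Submodule.finrank_mono (inf_le_inf_right _ (Ua_mono ℓ a))
  let n : ℕ → (E →* Fˣ) → ℕ := fun a η => D (a + 1) η - D a η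
  have hnpow : ∀ a η j, n a η = n a (η ^ ℓ ^ j) := by
    intro a η j
    simp only [n]
    rw [hDpow (a + 1) η j, hDpow a η j]
  have hdec := hDec F E (MonoidAlgebra F V) T hE
  have hUst : ∀ a, ∀ e, ∀ u ∈ Ua F V ℓ a, T e u ∈ Ua F V ℓ a :=
    fun a e u hu => Ua_stable φ ℓ a e hu
  have hIst : ∀ a, ∀ e, ∀ u ∈ Ia F V ℓ a, T e u ∈ Ia F V ℓ a :=
    fun a e u hu => Ia_stable φ ℓ a e hu
  -- the vectors
  have hx : ∀ a η, ∃ x : Fin (n a η) → MonoidAlgebra F V,
      (∀ k, x k ∈ Ia F V ℓ (a + 1) ⊓ G η) ∧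
      Submodule.span F (Set.range x) ⊔ (Ua F V ℓ a ⊓ G η) = Ua F V ℓ (a + 1) ⊓ G η := by
    intro a η
    refine hLin F (MonoidAlgebra F V) (Ia F V ℓ (a + 1) ⊓ G η) (Ua F V ℓ a ⊓ G η)
      (Ua F V ℓ (a + 1) ⊓ G η) (inf_le_inf_right _ (Ua_mono ℓ a)) ?_
    have h1 := hdec.2 (Ia F V ℓ (a + 1)) (Ua F V ℓ a) (hIst _) (hUst _) η
    rw [← Ua_succ] at h1
    exact h1
  choose x hxI hxs using hx
  let I : Type := Σ a : Fin m, Σ η : E →* Fˣ, Fin (n a η)
  let A : I → ℕ := fun i => (i.1 : ℕ) + 1
  let X : I → MonoidAlgebra F V := fun i => x i.1 i.2.1 i.2.2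
  have hXI : ∀ i : I, X i ∈ Ia F V ℓ (A i) := fun i => (Submodule.mem_inf.1 (hxI _ _ _)).1
  have hXG : ∀ i : I, X i ∈ G i.2.1 := fun i => (Submodule.mem_inf.1 (hxI _ _ _)).2
  have hX0 : ∀ i, X i ^ ℓ ^ A i = 0 := fun i => Ia_pow ℓ (A i) (hXI i)
  -- the permutation
  have hinj : ∀ j : ℕ, Function.Injective (fun η : E →* Fˣ => η ^ ℓ ^ j) := by
    intro j η η' h
    ext e
    have h1 : (η ^ ℓ ^ j) e = (η' ^ ℓ ^ j) e := by
      simp only at h
      rw [h]
    rw [MonoidHom.pow_apply, MonoidHom.pow_apply] at h1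
    have h2 := congrArg (Units.val) h1
    rw [Units.val_pow_eq_pow_val, Units.val_pow_eq_pow_val] at h2
    exact iterateFrobenius_inj F ℓ j h2
  let π : ℕ → Equiv.Perm (E →* Fˣ) := fun j =>
    Equiv.ofBijective _ (Finite.injective_iff_bijective.1 (hinj j))
  let p : Equiv.Perm I := Equiv.sigmaCongrRight fun a : Fin m =>
    Equiv.sigmaCongr (π ((a : ℕ) + 1)) fun η => finCongr (hnpow a η ((a : ℕ) + 1))
  have hp : ∀ i : I, (p i).2.1 = i.2.1 ^ ℓ ^ A i := fun i => rfl
  -- spanning
  have hXspan : ∀ a, a ≤ m → Ua F V ℓ a ≤ Submodule.span F (Set.range X) ⊔ Au2 F V := by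
    intro a
    induction a with
    | zero =>
      intro _
      rw [Ua_zero]
      exact le_sup_right
    | succ a ih =>
      intro ha
      have h1 := (hdec.1 (Ua F V ℓ (a + 1)) (hUst _)).2
      rw [h1]
      refine iSup_le ?_
      intro η
      have h2 : Ua F V ℓ (a + 1) ⊓ G η ≤ Submodule.span F (Set.range X) ⊔ Au2 F V := by
        rw [← hxs a η]
        refine sup_le ?_ (inf_le_left.trans (ih (by omega)))
        refine le_trans (Submodule.span_mono ?_) le_sup_left
        rintro _ ⟨k, rfl⟩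
        exact ⟨⟨⟨a, ha⟩, η, k⟩, rfl⟩
      exact h2
  have hAu : Ua F V ℓ m = Au F V := by
    apply le_antisymm (hSpn ℓ F V m).1
    refine le_trans ?_ (le_sup_left : Ia F V ℓ m ≤ Ua F V ℓ m)
    refine Submodule.span_mono ?_
    rintro _ ⟨v, rfl⟩
    exact ⟨v, hm v, rfl⟩
  have hspan : Submodule.span F (Set.range X) ⊔ Au2 F V = Au F V := by
    apply le_antisymm
    · refine sup_le ?_ ?_
      · rw [Submodule.span_le]
        rintro _ ⟨i, rfl⟩
        exact (hSpn ℓ F V (A i)).1 ((le_sup_left : Ia F V ℓ (A i) ≤ Ua F V ℓ (A i)) (hXI i))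
      · rw [← Ua_zero ℓ]
        exact (hSpn ℓ F V 0).1
    · rw [← hAu]
      exact hXspan m le_rfl
  have hqpos : ∀ i : I, 0 < ℓ ^ A i := fun i => pow_pos hℓ.pos _
  have htop := hNky ℓ F V I (fun i => ℓ ^ A i) X hVp hqpos hspan hX0
  -- counting
  let u : ℕ → ℕ := fun a => finrank F (Ua F V ℓ a)
  have hu : ∀ a, u a ≤ u (a + 1) := fun a => Submodule.finrank_mono (Ua_mono ℓ a)
  have huD : ∀ a, u a = ∑ η, D a η := by
    intro a
    have h1 := (hdec.1 (Ua F V ℓ a) (hUst _)).1
    rw [finsum_eq_sum_of_fintype] at h1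
    exact h1
  have hnsum : ∀ a, ∑ η, n a η = u (a + 1) - u a := by
    intro a
    rw [huD, huD, ← Finset.sum_tsub_distrib]
    intro η _
    exact hDmono a η
  have hsumA : ∑ i : I, A i = ∑ a ∈ Finset.range m, (u m - u a) := by
    rw [← abel_sum u hu m, Fintype.sum_sigma, ← Fin.sum_univ_eq_sum_range
      (fun a => (a + 1) * (u (a + 1) - u a)) m]
    refine Finset.sum_congr rfl ?_
    intro a _
    rw [Fintype.sum_sigma, ← hnsum, Finset.mul_sum]
    refine Finset.sum_congr rfl ?_
    intro η _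
    show ∑ _k : Fin (n a η), ((a : ℕ) + 1) = _
    rw [Finset.sum_const, Finset.card_univ, Fintype.card_fin, smul_eq_mul, mul_comm]
  have hcard : Fintype.card (∀ i : I, Fin (ℓ ^ A i)) = ℓ ^ ∑ i : I, A i := by
    rw [Fintype.card_pi]
    simp only [Fintype.card_fin]
    rw [Finset.prod_pow_eq_pow_sum]
  have hle : Fintype.card (∀ i : I, Fin (ℓ ^ A i)) ≤ Nat.card V := by
    rw [hcard, hsumA, ← Finset.prod_pow_eq_pow_sum, ← hCnt ℓ V m hm]
    refine Finset.prod_le_prod' ?_
    intro a _
    have h1 := (hSpn ℓ F V a).2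
    rw [← hAu] at h1
    exact h1
  have hfin : finrank F (MonoidAlgebra F V) = Nat.card V := by
    rw [Module.finrank_eq_card_basis (MonoidAlgebra.basis V F), Nat.card_eq_fintype_card]
  have hge : finrank F (MonoidAlgebra F V) ≤ Fintype.card (∀ i : I, Fin (ℓ ^ A i)) := by
    have h1 := finrank_range_le_card (R := F)
      (fun α : ∀ i : I, Fin (ℓ ^ A i) => ∏ i, X i ^ (α i : ℕ))
    rw [Set.finrank, htop, finrank_top] at h1
    exact h1
  have hceq : Fintype.card (∀ i : I, Fin (ℓ ^ A i)) = finrank F (MonoidAlgebra F V) := by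
    omega
  refine ⟨I, inferInstance, ?_, ⟨⟨A, fun i => Nat.succ_le_succ (Nat.zero_le _), p,
    fun i => i.2.1, ?_, X, hX0, ?_, basisOfTopLeSpanOfCardEqFinrank _ htop.ge hceq, ?_⟩⟩⟩
  · by_contra hemp
    rw [not_nonempty_iff] at hemp
    have h1 : Fintype.card (∀ i : I, Fin (ℓ ^ A i)) = 1 := by
      rw [hcard, Finset.univ_eq_empty, Finset.sum_empty, pow_zero]
    rw [hceq, hfin] at h1
    have h2 := (Nat.card_eq_one_iff_unique.1 h1).1
    exact not_subsingleton V h2
  · intro i e
    rw [hp i, MonoidHom.pow_apply]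
  · intro i e
    exact hXG i e
  · intro α
    rw [coe_basisOfTopLeSpanOfCardEqFinrank]

end

end Pool.Agent.PFC.B3.H41
end -- Pool.Agent.Helper41_PFC.EIG

section -- Pool.Agent.Helper48_PFD.COO

/-!
# Squad PFD, row COO (block D3): coordinates of the group algebra of `V`
-/

set_option autoImplicit false

open scoped BigOperators

noncomputable section

namespace Pool.Agent.PFD.H48

open Pool.Agent.PFD Pool.Agent.PFC.B3 Pool.Agent.PFC.B3.H41 Module
open Pool.Agent.PFD.D3

theorem acV_ac {F V E : Type} [Field F] [CommGroup V] [Group E] (φ : E →* MulAut V) (e : E)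
    (z : MonoidAlgebra F V) : acV F φ e z = ac F φ e z := by
  induction z using MonoidAlgebra.induction_on with
  | of v =>
    rw [ac_of]
    exact acV_single F φ e v 1
  | add x y hx hy => rw [map_add, map_add, hx, hy]
  | smul r x hx => rw [map_smul, map_smul, hx]

/-- the restriction of a representation to a stable subspace -/
def resT {F E M : Type} [Field F] [Group E] [AddCommGroup M] [Module F M]
    (T : E →* Module.End F M) (C : Submodule F M) (h : ∀ e, ∀ u ∈ C, T e u ∈ C) :
    E →* Module.End F C where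
  toFun := fun e => (T e).restrict (h e)
  map_one' := by
    apply LinearMap.ext
    intro u
    apply Subtype.ext
    show T 1 (u : M) = u
    rw [map_one]
    rfl
  map_mul' := by
    intro e e'
    apply LinearMap.ext
    intro u
    apply Subtype.ext
    show T (e * e') (u : M) = T e (T e' (u : M))
    rw [map_mul]
    rfl

theorem coo_mat {F E M : Type} [Field F] [Group E] [AddCommGroup M] [Module F M]
    (T : E →* Module.End F M) (C : Submodule F M) (h : ∀ e, ∀ u ∈ C, T e u ∈ C) {J : Type}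
    [Fintype J] [DecidableEq J] (b : Basis J F C) :
    ∃ D : E →* Matrix J J F, ∀ e j, T e (b j : M) = ∑ k, D e k j • (b k : M) := by
  refine ⟨((LinearMap.toMatrixAlgEquiv b).toAlgHom.toMonoidHom).comp (resT T C h), ?_⟩
  intro e j
  have h1 : ((resT T C h e (b j) : C) : M) = ∑ k, (b.repr (resT T C h e (b j))) k • (b k : M) := by
    conv_lhs => rw [← b.sum_repr (resT T C h e (b j))]
    rw [Submodule.coe_sum]
    rfl
  have h2 : ((resT T C h e (b j) : C) : M) = T e (b j : M) := rfl
  rw [← h2, h1]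
  refine Finset.sum_congr rfl fun k _ => ?_
  refine congrArg (fun t : F => t • (b k : M)) ?_
  exact (LinearMap.toMatrixAlgEquiv_apply b (resT T C h e) k j).symm

theorem coo (hAvg : AvgStmt) (hSpn : SpnStmt) (hCnt : CntStmt) (hNky : NkyStmt) : CooStmt := by
  intro ℓ _ F V E _ _ _ _ _ _ φ hVp hVn hE
  classical
  have hℓ : ℓ.Prime := Fact.out
  have : Fintype V := Fintype.ofFinite V
  -- the exponent
  obtain ⟨m, hm⟩ : ∃ m : ℕ, ∀ v : V, v ^ ℓ ^ m = 1 := by
    obtain ⟨m, hm⟩ := (IsPGroup.iff_card).1 hVp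
    refine ⟨m, fun v => ?_⟩
    rw [← hm]
    exact pow_card_eq_one'
  have hUst : ∀ a, ∀ e, ∀ u ∈ Ua F V ℓ a, acT φ e u ∈ Ua F V ℓ a :=
    fun a e u hu => Ua_stable φ ℓ a e hu
  have hIst : ∀ a, ∀ e, ∀ u ∈ Ia F V ℓ a, acT φ e u ∈ Ia F V ℓ a :=
    fun a e u hu => Ia_stable φ ℓ a e hu
  -- the complements
  have hC : ∀ a : ℕ, ∃ C : Submodule F (MonoidAlgebra F V), (∀ e, ∀ u ∈ C, acT φ e u ∈ C) ∧
      C ≤ Ia F V ℓ (a + 1) ∧ C ⊔ Ua F V ℓ a = Ua F V ℓ (a + 1) ∧ C ⊓ Ua F V ℓ a = ⊥ := by
    intro a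
    obtain ⟨U', hU'⟩ := Submodule.exists_isCompl (Ua F V ℓ a ⊓ Ia F V ℓ (a + 1))
    obtain ⟨W, hW, -, hWs⟩ := hAvg F Empty E (MonoidAlgebra F V) (fun i => i.elim) (acT φ)
      (fun i => i.elim) hE (fun i => i.elim) _ U' hU' (fun i => i.elim) (fun i => i.elim)
      (fun e u hu => ⟨hUst a e u hu.1, hIst (a + 1) e u hu.2⟩)
    have hsup : (Ua F V ℓ a ⊓ Ia F V ℓ (a + 1)) ⊔ (W ⊓ Ia F V ℓ (a + 1)) = Ia F V ℓ (a + 1) := by
      rw [← sup_inf_assoc_of_le W
        (inf_le_right : Ua F V ℓ a ⊓ Ia F V ℓ (a + 1) ≤ Ia F V ℓ (a + 1)), hW.sup_eq_top,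
        top_inf_eq]
    refine ⟨W ⊓ Ia F V ℓ (a + 1), fun e u hu => ⟨hWs e u hu.1, hIst (a + 1) e u hu.2⟩,
      inf_le_right, ?_, ?_⟩
    · rw [Ua_succ]
      apply le_antisymm
      · exact sup_le_sup_right inf_le_right _
      · refine sup_le ?_ le_sup_right
        conv_lhs => rw [← hsup]
        exact sup_le (inf_le_left.trans le_sup_right) le_sup_left
    · have h1 : W ⊓ Ia F V ℓ (a + 1) ⊓ Ua F V ℓ a =
          (Ua F V ℓ a ⊓ Ia F V ℓ (a + 1)) ⊓ W := by
        rw [inf_assoc, inf_comm (Ia F V ℓ (a + 1)), inf_comm]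
      rw [h1, hW.inf_eq_bot]
  choose C hCs hCI hCU hCd using hC
  -- the dimensions
  let u : ℕ → ℕ := fun a => finrank F (Ua F V ℓ a)
  have hu : ∀ a, u a ≤ u (a + 1) := fun a => Submodule.finrank_mono (Ua_mono ℓ a)
  have hdim : ∀ a, finrank F (C a) = u (a + 1) - u a := by
    intro a
    have h1 := Submodule.finrank_sup_add_finrank_inf_eq (C a) (Ua F V ℓ a)
    rw [hCU, hCd, finrank_bot] at h1
    show finrank F (C a) = finrank F (Ua F V ℓ (a + 1)) - finrank F (Ua F V ℓ a)
    omega
  -- the vectors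
  let bas : ∀ a : ℕ, Basis (Fin (finrank F (C a))) F (C a) := fun a => Module.finBasis F (C a)
  let I : Type := Σ a : Fin m, Fin (finrank F (C a))
  let A : I → ℕ := fun i => (i.1 : ℕ) + 1
  let X : I → MonoidAlgebra F V := fun i => (bas i.1 i.2 : MonoidAlgebra F V)
  have hXC : ∀ i : I, X i ∈ C i.1 := fun i => (bas i.1 i.2).2
  have hX0 : ∀ i, X i ^ ℓ ^ A i = 0 := fun i => Ia_pow ℓ (A i) (hCI _ (hXC i))
  have hbsp : ∀ a : ℕ, ∀ z ∈ C a, z ∈ Submodule.span F
      (Set.range fun k => (bas a k : MonoidAlgebra F V)) := by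
    intro a z hz
    have h1 : z = ∑ k, (bas a).repr ⟨z, hz⟩ k • (bas a k : MonoidAlgebra F V) := by
      have h2 := congrArg Subtype.val ((bas a).sum_repr ⟨z, hz⟩)
      rw [Submodule.coe_sum] at h2
      exact h2.symm
    rw [h1]
    exact Submodule.sum_mem _ fun k _ => Submodule.smul_mem _ _
      (Submodule.subset_span ⟨k, rfl⟩)
  -- spanning
  have hXspan : ∀ a, a ≤ m → Ua F V ℓ a ≤ Submodule.span F (Set.range X) ⊔ Au2 F V := by
    intro a
    induction a with
    | zero =>
      intro _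
      rw [Ua_zero]
      exact le_sup_right
    | succ a ih =>
      intro ha
      rw [← hCU a]
      refine sup_le ?_ (ih (by omega))
      refine le_trans ?_ le_sup_left
      intro z hz
      refine Submodule.span_mono ?_ (hbsp a z hz)
      rintro _ ⟨k, rfl⟩
      exact ⟨⟨⟨a, ha⟩, k⟩, rfl⟩
  have hAu : Ua F V ℓ m = Au F V := by
    apply le_antisymm (hSpn ℓ F V m).1
    refine le_trans ?_ (le_sup_left : Ia F V ℓ m ≤ Ua F V ℓ m)
    refine Submodule.span_mono ?_
    rintro _ ⟨v, rfl⟩
    exact ⟨v, hm v, rfl⟩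
  have hspan : Submodule.span F (Set.range X) ⊔ Au2 F V = Au F V := by
    apply le_antisymm
    · refine sup_le ?_ ?_
      · rw [Submodule.span_le]
        rintro _ ⟨i, rfl⟩
        exact (hSpn ℓ F V (A i)).1 ((le_sup_left : Ia F V ℓ (A i) ≤ Ua F V ℓ (A i))
          (hCI _ (hXC i)))
      · rw [← Ua_zero ℓ]
        exact (hSpn ℓ F V 0).1
    · rw [← hAu]
      exact hXspan m le_rfl
  have hqpos : ∀ i : I, 0 < ℓ ^ A i := fun i => pow_pos hℓ.pos _
  have htop := hNky ℓ F V I (fun i => ℓ ^ A i) X hVp hqpos hspan hX0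
  -- counting
  have hsumA : ∑ i : I, A i = ∑ a ∈ Finset.range m, (u m - u a) := by
    rw [← abel_sum u hu m, Fintype.sum_sigma, ← Fin.sum_univ_eq_sum_range
      (fun a => (a + 1) * (u (a + 1) - u a)) m]
    refine Finset.sum_congr rfl ?_
    intro a _
    show ∑ _k : Fin (finrank F (C a)), ((a : ℕ) + 1) = _
    rw [Finset.sum_const, Finset.card_univ, Fintype.card_fin, smul_eq_mul, mul_comm, hdim]
  have hcard : Fintype.card (∀ i : I, Fin (ℓ ^ A i)) = ℓ ^ ∑ i : I, A i := by
    rw [Fintype.card_pi]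
    simp only [Fintype.card_fin]
    rw [Finset.prod_pow_eq_pow_sum]
  have hle : Fintype.card (∀ i : I, Fin (ℓ ^ A i)) ≤ Nat.card V := by
    rw [hcard, hsumA, ← Finset.prod_pow_eq_pow_sum, ← hCnt ℓ V m hm]
    refine Finset.prod_le_prod' ?_
    intro a _
    have h1 := (hSpn ℓ F V a).2
    rw [← hAu] at h1
    exact h1
  have hfin : finrank F (MonoidAlgebra F V) = Nat.card V := by
    rw [Module.finrank_eq_card_basis (MonoidAlgebra.basis V F), Nat.card_eq_fintype_card]
  have hge : finrank F (MonoidAlgebra F V) ≤ Fintype.card (∀ i : I, Fin (ℓ ^ A i)) := by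
    have h1 := finrank_range_le_card (R := F)
      (fun α : ∀ i : I, Fin (ℓ ^ A i) => ∏ i, X i ^ (α i : ℕ))
    rw [Set.finrank, htop, finrank_top] at h1
    exact h1
  have hceq : Fintype.card (∀ i : I, Fin (ℓ ^ A i)) = finrank F (MonoidAlgebra F V) := by
    omega
  -- the matrices
  have hD : ∀ a : ℕ, ∃ D : E →* Matrix (Fin (finrank F (C a))) (Fin (finrank F (C a))) F,
      ∀ e j, acT φ e (bas a j : MonoidAlgebra F V) =
        ∑ k, D e k j • (bas a k : MonoidAlgebra F V) :=
    fun a => coo_mat (acT φ) (C a) (hCs a) (bas a)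
  choose D hD using hD
  refine ⟨Fin m, inferInstance, fun b => Fin (finrank F (C b)), fun b => inferInstance,
    fun b => inferInstance, ?_, ⟨⟨fun b => (b : ℕ) + 1, fun b => Nat.succ_le_succ (Nat.zero_le _),
    fun b => D b, X, hX0, ?_, basisOfTopLeSpanOfCardEqFinrank _ htop.ge hceq, ?_⟩⟩⟩
  · by_contra hemp
    rw [not_nonempty_iff] at hemp
    have hemp' : IsEmpty I := hemp
    have h1 : Fintype.card (∀ i : I, Fin (ℓ ^ A i)) = 1 := by
      rw [hcard, Finset.univ_eq_empty, Finset.sum_empty, pow_zero]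
    rw [hceq, hfin] at h1
    have h2 := (Nat.card_eq_one_iff_unique.1 h1).1
    exact not_subsingleton V h2
  · intro e b j
    rw [acV_ac]
    exact hD b e j
  · intro α
    rw [coe_basisOfTopLeSpanOfCardEqFinrank]

end Pool.Agent.PFD.H48
end
end -- Pool.Agent.Helper48_PFD.COO

section -- Pool.Agent.Helper51_PFD.CPE

/-!
# Squad PFD, block D3, row CPE: the derivation of a crossed product, coefficientwise
-/

set_option autoImplicit false

namespace Pool.Agent.PFD.D3.H51

open scoped BigOperators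

open Pool.Agent.PFD

theorem cpe : CpeStmt := by
  intro k S E _ _ _ _ _ D v hv hact
  have hv1 : v 1 = 0 := by
    have h := hv 1 1
    rw [mul_one, mul_one, one_mul] at h
    have h2 : v 1 + v 1 = v 1 + 0 := by rw [add_zero]; exact h.symm
    exact add_left_cancel h2
  let vc : CP D →ₗ[k] CP D :=
    { toFun := fun a => ⟨fun e => v (a.f e)⟩
      map_add' := fun a b => by
        apply CP.ext; funext e
        show v ((a + b).f e) = v (a.f e) + v (b.f e)
        rw [CP.add_f, map_add]
      map_smul' := fun r a => by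
        apply CP.ext; funext e
        show v ((r • a).f e) = r • v (a.f e)
        rw [CP.smul_f, map_smul] }
  have hf : ∀ a e, (vc a).f e = v (a.f e) := fun a e => rfl
  have hsn : ∀ s e, vc (CP.sn D s e) = CP.sn D (v s) e := by
    intro s e
    apply CP.ext; funext h
    rw [hf, CP.sn_f, CP.sn_f]
    by_cases hh : h = e
    · rw [if_pos hh, if_pos hh]
    · rw [if_neg hh, if_neg hh, map_zero]
  refine ⟨vc, hf, ?_, ?_, ?_⟩
  · intro a b
    apply CP.ext; funext e
    rw [hf, CP.mul_f, CP.add_f, CP.mul_f, CP.mul_f, map_sum, ← Finset.sum_add_distrib]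
    apply Finset.sum_congr rfl
    intro h _
    rw [map_smul, hv, hf, hf, smul_add, hact]
  · intro e
    show vc (CP.sn D 1 e) = 0
    rw [hsn, hv1, CP.sn_zero]
  · intro s
    show vc (CP.sn D s 1) = CP.sn D (v s) 1
    exact hsn s 1

end Pool.Agent.PFD.D3.H51
end -- Pool.Agent.Helper51_PFD.CPE

section -- Pool.Agent.Helper53_PFD.NLW

/-!
# Squad PFD, block D3, row NLW (helper53)
-/

open scoped BigOperators

noncomputable section

namespace Pool.Agent.PFD.H53

theorem pow_aux {A : Type} [CommRing A] (I : Ideal A) : ∀ (n : ℕ) (c : A),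
    (∀ y : Fin n → A, (∀ i, y i ∈ I) → c * ∏ i, y i = 0) → ∀ z ∈ I ^ n, c * z = 0 := by
  intro n
  induction n with
  | zero =>
    intro c hc z _
    have h1 : c = 0 := by
      have h2 := hc (fun i => i.elim0) (fun i => i.elim0)
      simpa using h2
    rw [h1, zero_mul]
  | succ n ih =>
    intro c hc z hz
    rw [pow_succ] at hz
    induction hz using Submodule.mul_induction_on' with
    | mem_mul_mem a ha b hb =>
      have h1 := ih (c * b) (fun y hy => by
        have h2 := hc (Fin.cons b y) (fun i => by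
          refine Fin.cases ?_ (fun j => ?_) i
          · rw [Fin.cons_zero]
            exact hb
          · rw [Fin.cons_succ]
            exact hy j)
        rw [Fin.prod_univ_succ, Fin.cons_zero] at h2
        simp only [Fin.cons_succ] at h2
        rw [mul_assoc]
        exact h2) a ha
      rw [mul_comm a b, ← mul_assoc]
      exact h1
    | add x _ y _ hx hy =>
      rw [mul_add, hx, hy, add_zero]

theorem nlw : D3.NlwStmt := by
  intro R R1 W E _ _ _ _ _ _ act ψ A eps N hA heps hN
  classical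
  have hfin : Fintype W := Fintype.ofFinite W
  have hker : ∀ x : MonoidAlgebra R1 W,
      x ∈ RingHom.ker (MonoidAlgebra.mapRingHom W (eps : R1 →+* R)) ↔
        ∀ w, eps (x.coeff w) = 0 := by
    intro x
    rw [RingHom.mem_ker]
    constructor
    · intro h w
      have h1 := congrArg (fun z : MonoidAlgebra R W => z.coeff w) h
      simpa [MonoidAlgebra.coeff_mapRingHom] using h1
    · intro h
      apply MonoidAlgebra.ext
      ext w
      rw [MonoidAlgebra.coeff_mapRingHom]
      simpa using h w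
  have hsum : ∀ x : MonoidAlgebra R1 W, x = ∑ w, MonoidAlgebra.single w (x.coeff w) := by
    intro x
    conv_lhs => rw [← MonoidAlgebra.sum_coeff_single x]
    rw [Finsupp.sum_fintype]
    intro w
    simp
  refine ⟨RingHom.ker (MonoidAlgebra.mapRingHom W (eps : R1 →+* R)), ?_, ?_, hker⟩
  · have h1 : RingHom.ker (MonoidAlgebra.mapRingHom W (eps : R1 →+* R)) ≤
        Ideal.map (MonoidAlgebra.singleOneRingHom : R1 →+* MonoidAlgebra R1 W)
          (RingHom.ker (eps : R1 →+* R)) := by
      intro x hx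
      rw [hker] at hx
      rw [hsum x]
      refine Ideal.sum_mem _ fun w _ => ?_
      have h2 : (MonoidAlgebra.single w (x.coeff w) : MonoidAlgebra R1 W) =
          MonoidAlgebra.single w 1 * MonoidAlgebra.singleOneRingHom (x.coeff w) := by
        simp [MonoidAlgebra.singleOneRingHom]
      rw [h2]
      refine Ideal.mul_mem_left _ _ (Ideal.mem_map_of_mem _ ?_)
      rw [RingHom.mem_ker]
      exact hx w
    have h3 : (RingHom.ker (eps : R1 →+* R)) ^ N = ⊥ := by
      rw [eq_bot_iff]
      intro z hz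
      rw [Submodule.mem_bot]
      have h4 := pow_aux _ N 1 (fun y hy => by
        rw [one_mul]
        exact hN y fun i => (RingHom.mem_ker).1 (hy i)) z hz
      rwa [one_mul] at h4
    rw [eq_bot_iff]
    calc (RingHom.ker (MonoidAlgebra.mapRingHom W (eps : R1 →+* R))) ^ N ≤
        (Ideal.map (MonoidAlgebra.singleOneRingHom : R1 →+* MonoidAlgebra R1 W)
          (RingHom.ker (eps : R1 →+* R))) ^ N := Ideal.pow_right_mono h1 N
      _ = ⊥ := by rw [← Ideal.map_pow, h3, Ideal.map_bot]
      _ ≤ ⊥ := le_rfl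
  · intro e y hy
    rw [hker] at hy
    rw [hsum y, map_sum]
    refine Ideal.sum_mem _ fun w _ => ?_
    rw [hA, hker]
    intro u
    rw [MonoidAlgebra.coeff_single, Finsupp.single_apply]
    by_cases h : ψ e w = u
    · rw [if_pos h, heps, hy]
    · rw [if_neg h, map_zero]

end Pool.Agent.PFD.H53
end
end -- Pool.Agent.Helper53_PFD.NLW

section -- Pool.Agent.Helper60_PFD.CPN

/-!
Squad PFD, block D3, row CPN: the nilpotent ideal of the crossed product.
-/

set_option autoImplicit false

noncomputable section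

namespace Pool.Agent.PFD.D3.H60

open Pool.Agent.PFD

theorem cpn : CpnStmt := by
  intro k S E _ _ _ _ _ D P N hP hN
  let Pc : Submodule k (CP D) :=
    { carrier := {a | ∀ e, a.f e ∈ P}
      add_mem' := fun {a b} ha hb e => by
        rw [CP.add_f]
        exact P.add_mem (ha e) (hb e)
      zero_mem' := fun e => by
        rw [CP.zero_f]
        exact P.zero_mem
      smul_mem' := fun r a ha e => by
        rw [CP.smul_f, Algebra.smul_def]
        exact P.mul_mem_left _ (ha e) }
  have hmem : ∀ a, a ∈ Pc ↔ ∀ e, a.f e ∈ P := fun a => Iff.rfl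
  have hsm : ∀ (Q : Ideal S) (r : k) (s : S), s ∈ Q → r • s ∈ Q := by
    intro Q r s hs
    rw [Algebra.smul_def]
    exact Q.mul_mem_left _ hs
  refine ⟨Pc, hmem, ?_, ?_, ?_⟩
  · intro a y hy e
    rw [CP.mul_f]
    refine Ideal.sum_mem _ fun h _ => hsm _ _ _ ?_
    exact P.mul_mem_left _ (hP h _ (hy _))
  · intro a y hy e
    rw [CP.mul_f]
    refine Ideal.sum_mem _ fun h _ => hsm _ _ _ ?_
    exact P.mul_mem_right _ (hy _)
  · intro y hy
    have key : ∀ m : ℕ, ∀ e, (((List.range m).map y).prod).f e ∈ P ^ m := by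
      intro m
      induction m with
      | zero =>
        intro e
        rw [pow_zero, Ideal.one_eq_top]
        exact Submodule.mem_top
      | succ m ih =>
        intro e
        rw [List.range_succ, List.map_append, List.prod_append, List.map_singleton,
          List.prod_singleton, CP.mul_f, pow_succ]
        refine Ideal.sum_mem _ fun h _ => hsm _ _ _ ?_
        exact Ideal.mul_mem_mul (ih h) (hP h _ (hy m _))
    apply CP.ext
    funext e
    have h := key N e
    rw [hN] at h
    rw [CP.zero_f]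
    exact (Submodule.mem_bot _).1 h

end Pool.Agent.PFD.D3.H60
end
end -- Pool.Agent.Helper60_PFD.CPN

section -- Pool.Agent.Helper60_PFD.GBS

/-!
Squad PFD, block D3, row GBS: the reduced monomials are a basis of the quotient, and the quotient is
graded.  (Model: `Helper83_PFC/BAS.lean`.)
-/

set_option autoImplicit false

noncomputable section

namespace Pool.Agent.PFD.D3.H60

open MvPolynomial
open Pool.Agent.PFD

section

variable {k I : Type} [CommRing k] [Fintype I] (q : I → ℕ) (f : I → MvPolynomial I k)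

/-- the product of the relations -/
def tm (γ : I →₀ ℕ) : MvPolynomial I k :=
  ∏ i, f i ^ (γ i / q i) * X i ^ (γ i % q i)

/-- the linear map with `T (x ^ γ)` = the product of the relations -/
def TT : MvPolynomial I k →ₗ[k] MvPolynomial I k :=
  (basisMonomials I k).constr k (tm q f)

lemma TT_monomial (γ : I →₀ ℕ) : TT q f (monomial γ 1) = tm q f γ := by
  have h := (basisMonomials I k).constr_basis k (tm q f) γ
  rwa [coe_basisMonomials] at h

lemma mul_tm (hq : ∀ i, 0 < q i) (i : I) (γ : I →₀ ℕ) :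
    f i * tm q f γ = tm q f (Finsupp.single i (q i) + γ) := by
  classical
  rw [tm, tm, ← Finset.mul_prod_erase Finset.univ _ (Finset.mem_univ i),
    ← Finset.mul_prod_erase Finset.univ _ (Finset.mem_univ i)]
  have h1 : (Finsupp.single i (q i) + γ) i = γ i + q i := by
    rw [Finsupp.add_apply, Finsupp.single_eq_same, add_comm]
  have h2 : ∏ x ∈ Finset.univ.erase i, f x ^ ((Finsupp.single i (q i) + γ) x / q x) *
      X x ^ ((Finsupp.single i (q i) + γ) x % q x) =
      ∏ x ∈ Finset.univ.erase i, f x ^ (γ x / q x) * X x ^ (γ x % q x) := by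
    refine Finset.prod_congr rfl fun x hx => ?_
    have hxi : i ≠ x := fun h => (Finset.ne_of_mem_erase hx) h.symm
    rw [Finsupp.add_apply, Finsupp.single_eq_of_ne' hxi, zero_add]
  rw [h2, h1, Nat.add_div_right _ (hq i), Nat.add_mod_right, pow_succ]
  ring

lemma mul_TT (hq : ∀ i, 0 < q i) (i : I) (s : MvPolynomial I k) :
    f i * TT q f s = TT q f (X i ^ q i * s) := by
  have h : (LinearMap.mulLeft k (f i)).comp (TT q f) =
      (TT q f).comp (LinearMap.mulLeft k (X i ^ q i)) := by
    refine (basisMonomials I k).ext fun γ => ?_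
    rw [coe_basisMonomials, LinearMap.comp_apply, LinearMap.comp_apply, LinearMap.mulLeft_apply,
      LinearMap.mulLeft_apply, TT_monomial, mul_tm q f hq, X_pow_eq_monomial, monomial_mul, mul_one,
      TT_monomial]
  exact congrArg (fun g : MvPolynomial I k →ₗ[k] MvPolynomial I k => g s) h

/-- the polynomials without reduced monomials -/
def NN (k : Type) [CommRing k] : Submodule k (MvPolynomial I k) where
  carrier := {s | ∀ γ : I →₀ ℕ, (∀ i, γ i < q i) → coeff γ s = 0}
  add_mem' := by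
    intro a b ha hb γ hγ
    rw [coeff_add, ha γ hγ, hb γ hγ, add_zero]
  zero_mem' := by
    intro γ _
    exact coeff_zero γ
  smul_mem' := by
    intro c a ha γ hγ
    rw [coeff_smul, ha γ hγ, smul_zero]

omit [Fintype I] in
lemma mul_mem_NN (i : I) (s : MvPolynomial I k) : X i ^ q i * s ∈ NN q k := by
  intro γ hγ
  rw [X_pow_eq_monomial, coeff_monomial_mul', if_neg]
  intro h
  have h1 := h i
  rw [Finsupp.single_eq_same] at h1
  exact absurd (hγ i) (not_lt.2 h1)

lemma tm_mem (γ : I →₀ ℕ) (hq : ∀ i, 0 < q i) (h : ∃ i, q i ≤ γ i) :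
    tm q f γ ∈ Ideal.span (Set.range f) := by
  classical
  obtain ⟨i, hi⟩ := h
  rw [tm, ← Finset.mul_prod_erase Finset.univ _ (Finset.mem_univ i)]
  refine Ideal.mul_mem_right _ _ (Ideal.mul_mem_right _ _ ?_)
  refine Ideal.pow_mem_of_mem _ ?_ _ (Nat.div_pos hi (hq i))
  exact Ideal.subset_span ⟨i, rfl⟩

lemma ideal_sub (hq : ∀ i, 0 < q i) (hT : Function.Surjective (TT q f)) (x : MvPolynomial I k)
    (hx : x ∈ Ideal.span (Set.range f)) : ∃ s ∈ NN q k, TT q f s = x := by
  obtain ⟨c, hc⟩ := (Ideal.mem_span_range_iff_exists_fun).1 hx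
  choose s hs using fun i => hT (c i)
  refine ⟨∑ i, X i ^ q i * s i, Submodule.sum_mem _ fun i _ => mul_mem_NN q i (s i), ?_⟩
  rw [← hc, map_sum]
  refine Finset.sum_congr rfl fun i _ => ?_
  rw [← mul_TT q f hq, hs i, mul_comm]

/-- the exponent of a reduced monomial -/
def fs {q : I → ℕ} (α : ∀ i, Fin (q i)) : I →₀ ℕ := Finsupp.equivFunOnFinite.symm fun i => (α i : ℕ)

lemma fs_apply {q : I → ℕ} (α : ∀ i, Fin (q i)) (i : I) : fs α i = α i := rfl

lemma fs_inj {q : I → ℕ} {α β : ∀ i, Fin (q i)} (h : fs α = fs β) : α = β := by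
  funext i
  apply Fin.ext
  exact congrArg (fun g : I →₀ ℕ => g i) h

lemma fs_deg {q : I → ℕ} (α : ∀ i, Fin (q i)) : (fs α).degree = ∑ i, (α i : ℕ) := by
  rw [Finsupp.degree_eq_sum]
  rfl

lemma TT_red (α : ∀ i, Fin (q i)) : TT q f (monomial (fs α) 1) = PFC.B3.mo k I α := by
  rw [TT_monomial, tm, PFC.B3.mo]
  refine Finset.prod_congr rfl fun i _ => ?_
  rw [fs_apply, Nat.div_eq_of_lt (α i).2, Nat.mod_eq_of_lt (α i).2, pow_zero, one_mul]

lemma tm_hom (hf : ∀ i, (f i).IsHomogeneous (q i)) (γ : I →₀ ℕ) :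
    (tm q f γ).IsHomogeneous γ.degree := by
  have h : γ.degree = ∑ i, (q i * (γ i / q i) + γ i % q i) := by
    rw [Finsupp.degree_eq_sum]
    refine Finset.sum_congr rfl fun i _ => ?_
    rw [Nat.div_add_mod]
  rw [h, tm]
  refine IsHomogeneous.prod _ _ _ fun i _ => ?_
  exact ((hf i).pow _).mul (isHomogeneous_X_pow i _)

lemma TT_comp (hf : ∀ i, (f i).IsHomogeneous (q i)) (d : ℕ) (s : MvPolynomial I k) :
    homogeneousComponent d (TT q f s) = TT q f (homogeneousComponent d s) := by
  have h : (homogeneousComponent d).comp (TT q f) =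
      (TT q f).comp (homogeneousComponent d) := by
    refine (basisMonomials I k).ext fun γ => ?_
    rw [coe_basisMonomials, LinearMap.comp_apply, LinearMap.comp_apply, TT_monomial]
    by_cases hd : d = γ.degree
    · subst hd
      rw [homogeneousComponent_of_mem ((mem_homogeneousSubmodule _ _).2 (tm_hom q f hf γ)),
        if_pos rfl,
        homogeneousComponent_of_mem ((mem_homogeneousSubmodule _ _).2
          (isHomogeneous_monomial (1 : k) rfl)), if_pos rfl, TT_monomial]
    · rw [homogeneousComponent_of_mem ((mem_homogeneousSubmodule _ _).2 (tm_hom q f hf γ)),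
        if_neg hd,
        homogeneousComponent_of_mem ((mem_homogeneousSubmodule _ _).2
          (isHomogeneous_monomial (1 : k) rfl)), if_neg hd, map_zero]
  exact congrArg (fun g : MvPolynomial I k →ₗ[k] MvPolynomial I k => g s) h

end

lemma map_eq_zero_dvd {R F I : Type} [CommRing R] [Field F] (c : D2.Cdv R F)
    (p : MvPolynomial I R) (hp : MvPolynomial.map c.κ p = 0) : ∃ p', p = c.π • p' := by
  have h1 : ∀ γ, ∃ s, coeff γ p = c.π * s := by
    intro γ
    rw [← c.ker, ← coeff_map, hp, coeff_zero]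
  choose s hs using h1
  refine ⟨∑ γ ∈ p.support, monomial γ (s γ), ?_⟩
  rw [Finset.smul_sum]
  conv_lhs => rw [p.as_sum]
  refine Finset.sum_congr rfl fun γ _ => ?_
  rw [smul_monomial, smul_eq_mul, ← hs]

theorem gbs (gbj : GbjStmt) : GbsStmt := by
  classical
  intro k F I _ _ _ c q f hq hf hm
  have hT : Function.Bijective (TT q f) := by
    refine gbj k F I c (TT q f) (fun γ => ?_) fun γ => ?_
    · rw [TT_monomial]
      exact tm_hom q f hf γ
    · rw [TT_monomial]
      refine map_eq_zero_dvd c _ ?_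
      rw [map_sub, tm, map_prod, map_monomial, map_one, sub_eq_zero, monomial_eq, map_one,
        one_mul, Finsupp.prod_fintype _ _ (fun i => pow_zero _)]
      refine Finset.prod_congr rfl fun i _ => ?_
      rw [map_mul, map_pow, map_pow, hm, map_X, ← pow_mul, ← pow_add, Nat.div_add_mod]
  have hli : LinearIndependent k
      (fun α : ∀ i, Fin (q i) => Ideal.Quotient.mkₐ k (Ideal.span (Set.range f))
        (PFC.B3.mo k I α)) := by
    rw [Fintype.linearIndependent_iff]
    intro g hg
    have h1 : ∑ α, g α • PFC.B3.mo k I α ∈ Ideal.span (Set.range f) := by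
      rw [← Ideal.Quotient.eq_zero_iff_mem, ← Ideal.Quotient.mkₐ_eq_mk k, map_sum]
      simpa using hg
    obtain ⟨s, hs, hs'⟩ := ideal_sub q f hq hT.2 _ h1
    have h2 : TT q f (∑ α : ∀ i, Fin (q i), g α • monomial (fs α) 1) = TT q f s := by
      rw [hs', map_sum]
      refine Finset.sum_congr rfl fun α _ => ?_
      rw [map_smul, TT_red]
    have h3 := hT.1 h2
    intro α
    have h4 : coeff (fs α) (∑ β : ∀ i, Fin (q i), g β • (monomial (fs β) 1 : MvPolynomial I k)) =
        0 := by
      rw [h3]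
      exact hs _ fun i => (α i).2
    rw [coeff_sum, Finset.sum_eq_single α] at h4
    · rwa [coeff_smul, coeff_monomial, if_pos rfl, smul_eq_mul, mul_one] at h4
    · intro β _ hβ
      rw [coeff_smul, coeff_monomial, if_neg, smul_zero]
      intro h
      exact hβ (fs_inj h)
    · intro h
      exact absurd (Finset.mem_univ α) h
  have hzero : ∀ γ : I →₀ ℕ, ¬ (∀ i, γ i < q i) →
      Ideal.Quotient.mkₐ k (Ideal.span (Set.range f)) (TT q f (monomial γ 1)) = 0 := by
    intro γ hγ
    push Not at hγ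
    rw [Ideal.Quotient.mkₐ_eq_mk, Ideal.Quotient.eq_zero_iff_mem, TT_monomial]
    exact tm_mem q f γ hq hγ
  have hsp : ⊤ ≤ Submodule.span k (Set.range
      (fun α : ∀ i, Fin (q i) => Ideal.Quotient.mkₐ k (Ideal.span (Set.range f))
        (PFC.B3.mo k I α))) := by
    intro z _
    obtain ⟨x, rfl⟩ := Ideal.Quotient.mkₐ_surjective k (Ideal.span (Set.range f)) z
    obtain ⟨s, rfl⟩ := hT.2 x
    rw [s.as_sum, map_sum, map_sum]
    refine Submodule.sum_mem _ fun γ _ => ?_
    have h1 : (monomial γ (coeff γ s) : MvPolynomial I k) = coeff γ s • monomial γ 1 := by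
      rw [smul_monomial, smul_eq_mul, mul_one]
    rw [h1, map_smul, map_smul]
    refine Submodule.smul_mem _ _ ?_
    by_cases hγ : ∀ i, γ i < q i
    · have h2 : γ = fs (q := q) fun i => ⟨γ i, hγ i⟩ := by
        ext i
        rfl
      rw [h2, TT_red]
      exact Submodule.subset_span ⟨_, rfl⟩
    · rw [hzero γ hγ]
      exact Submodule.zero_mem _
  let b := Module.Basis.mk hli hsp
  have hb : ∀ α, b α = Ideal.Quotient.mkₐ k (Ideal.span (Set.range f)) (PFC.B3.mo k I α) :=
    fun α => Module.Basis.mk_apply hli hsp α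
  refine ⟨b, fun α => ?_, ?_⟩
  · rw [hb]
    rfl
  · intro d p hp α hα
    obtain ⟨s, rfl⟩ := hT.2 p
    have hrep : ∀ s : MvPolynomial I k, b.repr (Ideal.Quotient.mkₐ k (Ideal.span (Set.range f))
        (TT q f s)) α = coeff (fs α) s := by
      intro s
      have h : ((b.coord α).comp ((Ideal.Quotient.mkₐ k (Ideal.span (Set.range f))).toLinearMap)).comp
          (TT q f) = lcoeff k (fs α) := by
        refine (basisMonomials I k).ext fun γ => ?_
        rw [coe_basisMonomials, LinearMap.comp_apply, LinearMap.comp_apply, lcoeff_apply,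
          coeff_monomial, AlgHom.toLinearMap_apply, Module.Basis.coord_apply]
        by_cases hγ : ∀ i, γ i < q i
        · have h2 : γ = fs (q := q) fun i => ⟨γ i, hγ i⟩ := by
            ext i
            rfl
          rw [h2, TT_red, ← hb, Module.Basis.repr_self, Finsupp.single_apply]
          refine if_congr ⟨fun h => by rw [h], fun h => fs_inj h⟩ rfl rfl
        · rw [hzero γ hγ, map_zero, Finsupp.zero_apply, if_neg]
          rintro rfl
          exact hγ fun i => (α i).2
      exact congrArg (fun g : MvPolynomial I k →ₗ[k] k => g s) h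
    have h0 := hrep s
    rw [Ideal.Quotient.mkₐ_eq_mk] at h0
    rw [h0]
    have h1 : homogeneousComponent (∑ i, (α i : ℕ)) (TT q f s) = 0 := by
      rw [homogeneousComponent_of_mem ((mem_homogeneousSubmodule _ _).2 hp), if_neg hα]
    rw [TT_comp q f hf] at h1
    have h2 : homogeneousComponent (∑ i, (α i : ℕ)) s = 0 := by
      apply hT.1
      rw [h1, map_zero]
    have h3 := congrArg (coeff (fs α)) h2
    rwa [coeff_homogeneousComponent, if_pos (fs_deg α), coeff_zero] at h3

end Pool.Agent.PFD.D3.H60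
end
end -- Pool.Agent.Helper60_PFD.GBS

section -- Pool.Agent.Helper63_PFD.ACR

/-!
# Squad PFD, row ACR: the action on `R1`
-/

open scoped BigOperators

noncomputable section

namespace Pool.Agent.PFD.D3.H63

open MvPolynomial

section
variable {ℓ : ℕ} {R F E B R1 : Type} [CommRing R] [Field F] [Group E] [Fintype B]
  {c : D2.Cdv R F} {J : B → Type} [∀ b, Fintype (J b)] [∀ b, DecidableEq (J b)] {a : B → ℕ}
  {D : ∀ b, E →* Matrix (J b) (J b) R} [CommRing R1] [Algebra R R1]

/-- the ideal is stable -/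
theorem lb_span (q : Qua R F E B c ℓ a J D R1) (e : E) (p : MvPolynomial (Σ b, J b) R)
    (hp : q.pm p = 0) : q.pm (Lb D e p) = 0 := by
  rw [q.ker] at hp ⊢
  have h1 : Ideal.span (Set.range q.f) ≤
      (Ideal.span (Set.range q.f)).comap (Lb D e).toRingHom := by
    rw [Ideal.span_le]
    rintro _ ⟨i, rfl⟩
    exact q.fe e i
  exact h1 hp

/-- the action of one element -/
def one (q : Qua R F E B c ℓ a J D R1) (e : E) : R1 →ₐ[R] R1 :=
  AlgHom.liftOfSurjective q.pm q.sur (q.pm.comp (Lb D e)) (by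
    intro p hp
    exact lb_span q e p hp)

theorem one_pm (q : Qua R F E B c ℓ a J D R1) (e : E) (p : MvPolynomial (Σ b, J b) R) :
    one q e (q.pm p) = q.pm (Lb D e p) :=
  AlgHom.liftOfSurjective_apply _ _ _ _ _

/-- the action -/
def actm (pac : PacStmt) (q : Qua R F E B c ℓ a J D R1) : E →* (R1 →ₐ[R] R1) where
  toFun := one q
  map_one' := by
    apply AlgHom.ext
    intro x
    obtain ⟨p, rfl⟩ := q.sur x
    rw [one_pm, (pac R E B J D).1]
    rfl
  map_mul' := fun e g => by
    apply AlgHom.ext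
    intro x
    obtain ⟨p, rfl⟩ := q.sur x
    rw [one_pm, (pac R E B J D).2.1]
    show _ = one q e (one q g (q.pm p))
    rw [one_pm, one_pm]

end

/-- Row ACR. -/
theorem acr (pac : PacStmt) : AcrStmt := by
  intro ℓ _ R F V E B R1 _ _ _ _ _ _ c φ J _ _ Z D _ _ q hD
  refine ⟨(AlgEquiv.algHomUnitsEquiv R R1).toMonoidHom.comp (actm pac q).toHomUnits, ?_, ?_⟩
  · intro e p
    show one q e (q.pm p) = _
    exact one_pm q e p
  · intro rho hr e x
    obtain ⟨p, rfl⟩ := q.sur x
    have h1 : ((rho.q.comp (q.pm : MvPolynomial (Σ b, J b) R →+* R1)).comp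
        (Lb D e : MvPolynomial (Σ b, J b) R →+* MvPolynomial (Σ b, J b) R)) =
        ((acV F φ e : MonoidAlgebra F V →+* MonoidAlgebra F V).comp
          (rho.q.comp (q.pm : MvPolynomial (Σ b, J b) R →+* R1))) := by
      apply MvPolynomial.ringHom_ext
      · intro r
        show rho.q (q.pm (Lb D e (C r))) = acV F φ e (rho.q (q.pm (C r)))
        have h2 : (C r : MvPolynomial (Σ b, J b) R) = algebraMap R _ r := rfl
        rw [h2, AlgHom.commutes, AlgHom.commutes, rho.sc, AlgEquiv.commutes]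
      · rintro ⟨b, j⟩
        show rho.q (q.pm (Lb D e (X ⟨b, j⟩))) = acV F φ e (rho.q (q.pm (X ⟨b, j⟩)))
        rw [(pac R E B J D).2.2.1, hr, Z.xe, map_sum, map_sum]
        refine Finset.sum_congr rfl fun k _ => ?_
        have h2 : (C (D b e k j) : MvPolynomial (Σ b, J b) R) = algebraMap R _ (D b e k j) := rfl
        rw [map_mul, map_mul, hr, h2, AlgHom.commutes, rho.sc, hD, Algebra.smul_def]
    have h3 := RingHom.congr_fun h1 p
    show rho.q (one q e (q.pm p)) = _
    rw [one_pm]
    exact h3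

end Pool.Agent.PFD.D3.H63
end
end -- Pool.Agent.Helper63_PFD.ACR

section -- Pool.Agent.Helper65_PFD.CPB

/-! Squad PFD, block D3, row CPB: a crossed product of a free module is free. -/

set_option autoImplicit false

namespace Pool.Agent.PFD.D3.H65

open Pool.Agent.PFD Pool.Agent.PFD.D3

theorem cpb : CpbStmt := by
  intro k S E _ _ _ _ _ D _ _
  let e : (E → S) ≃ₗ[k] CP D :=
    { toFun := fun f => ⟨f⟩
      invFun := fun a => a.f
      map_add' := fun _ _ => rfl
      map_smul' := fun _ _ => rfl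
      left_inv := fun _ => rfl
      right_inv := fun _ => rfl }
  exact ⟨Module.Finite.equiv e, Module.Free.of_equiv e⟩

end Pool.Agent.PFD.D3.H65
end -- Pool.Agent.Helper65_PFD.CPB

section -- Pool.Agent.Helper65_PFD.RSU

/-! Squad PFD, block D3, row RSU: restriction of the action to a stable subgroup. -/

set_option autoImplicit false

namespace Pool.Agent.PFD.D3.H65

open Pool.Agent.PFD Pool.Agent.PFD.D3

theorem rsu : RsuStmt := by
  intro V E _ _ φ W h
  have h1 : ∀ (e : E) (u : V), φ e⁻¹ (φ e u) = u := by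
    intro e u
    rw [← MulAut.mul_apply, ← map_mul, inv_mul_cancel, map_one, MulAut.one_apply]
  have h2 : ∀ (e : E) (u : V), φ e (φ e⁻¹ u) = u := by
    intro e u
    rw [← MulAut.mul_apply, ← map_mul, mul_inv_cancel, map_one, MulAut.one_apply]
  refine ⟨{ toFun := fun e =>
              { toFun := fun u => ⟨φ e u, h e u u.2⟩
                invFun := fun u => ⟨φ e⁻¹ u, h e⁻¹ u u.2⟩
                left_inv := fun u => Subtype.ext (h1 e u)
                right_inv := fun u => Subtype.ext (h2 e u)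
                map_mul' := fun u v => Subtype.ext (map_mul (φ e) (u : V) v) }
            map_one' := ?_
            map_mul' := ?_ }, fun e u => rfl⟩
  · apply MulEquiv.ext
    intro u
    apply Subtype.ext
    show φ 1 (u : V) = u
    rw [map_one, MulAut.one_apply]
  · intro e f
    apply MulEquiv.ext
    intro u
    apply Subtype.ext
    show φ (e * f) (u : V) = φ e (φ f u)
    rw [map_mul, MulAut.mul_apply]

end Pool.Agent.PFD.D3.H65
end -- Pool.Agent.Helper65_PFD.RSU

section -- Pool.Agent.Helper70_PFD.EPN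

/-!
Squad PFD, block D3, row EPN: the augmentation of `R1` and its nilpotent kernel.
-/

set_option autoImplicit false

open scoped BigOperators

noncomputable section

namespace Pool.Agent.PFD.D3.H70

open MvPolynomial

theorem supp_prod {σ R ι : Type} [CommRing R] (s : Finset ι) (p : ι → MvPolynomial σ R)
    (hp : ∀ i ∈ s, MvPolynomial.constantCoeff (p i) = 0) :
    ∀ u ∈ (∏ i ∈ s, p i).support, s.card ≤ u.degree := by
  classical
  induction s using Finset.induction_on with
  | empty =>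
    intro u _
    simp
  | insert i s hi ih =>
    intro u hu
    rw [Finset.prod_insert hi] at hu
    obtain ⟨u1, h1, u2, h2, rfl⟩ := Finset.mem_add.1 (MvPolynomial.support_mul _ _ hu)
    have h3 := ih (fun j hj => hp j (Finset.mem_insert_of_mem hj)) u2 h2
    have h4 : 1 ≤ u1.degree := by
      rw [Nat.one_le_iff_ne_zero]
      intro h0
      rw [Finsupp.degree_eq_zero_iff] at h0
      subst h0
      rw [MvPolynomial.mem_support_iff] at h1
      exact h1 (hp i (Finset.mem_insert_self i s))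
    rw [Finset.card_insert_of_notMem hi, map_add]
    omega

theorem cc_Lb {R E B : Type} [CommRing R] [Group E] {J : B → Type} [∀ b, Fintype (J b)]
    [∀ b, DecidableEq (J b)] (D : ∀ b, E →* Matrix (J b) (J b) R) (e : E)
    (p : MvPolynomial (Σ b, J b) R) :
    MvPolynomial.constantCoeff (Lb D e p) = MvPolynomial.constantCoeff p := by
  have h : (MvPolynomial.constantCoeff (σ := Σ b, J b) (R := R)).comp (Lb D e).toRingHom =
      MvPolynomial.constantCoeff := by
    apply MvPolynomial.ringHom_ext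
    · intro r
      show MvPolynomial.constantCoeff (Lb D e (C r)) = _
      rw [Lb, ← MvPolynomial.algebraMap_eq, AlgHom.commutes]
    · intro i
      show MvPolynomial.constantCoeff (Lb D e (X i)) = _
      rw [Lb, aeval_X, map_sum]
      simp
  exact RingHom.congr_fun h p

theorem epn : EpnStmt := by
  intro ℓ _ R F E B R1 _ _ _ _ c J _ _ a D _ _ q ha
  classical
  have hq0 : ∀ i : Σ b, J b, 0 < ℓ ^ a i.1 := fun i => pow_pos (Fact.out : ℓ.Prime).pos _
  let z : ∀ i : Σ b, J b, Fin (ℓ ^ a i.1) := fun i => ⟨0, hq0 i⟩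
  have hz : ∀ i, ((z i : Fin _) : ℕ) = 0 := fun i => rfl
  have hz0 : ∑ i, ((z i : Fin _) : ℕ) = 0 := Finset.sum_eq_zero fun i _ => hz i
  have hbz : q.b z = 1 := by
    rw [q.b_eq, PFC.B3.mo]
    have : ∏ i : Σ b, J b, (X i : MvPolynomial (Σ b, J b) R) ^ ((z i : Fin _) : ℕ) = 1 :=
      Finset.prod_eq_one fun i _ => by rw [hz, pow_zero]
    rw [this, map_one]
  let t0 : R1 →ₗ[R] R := q.b.coord z
  have ht0 : ∀ p, t0 (q.pm p) = MvPolynomial.constantCoeff p := by
    intro p
    induction p using MvPolynomial.induction_on' with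
    | monomial u r =>
      by_cases hu : u = 0
      · subst hu
        have h1 : (monomial 0 r : MvPolynomial (Σ b, J b) R) = algebraMap R _ r := rfl
        rw [h1, AlgHom.commutes, Algebra.algebraMap_eq_smul_one, map_smul, ← hbz]
        show r • q.b.coord z (q.b z) = _
        rw [Module.Basis.coord_apply, Module.Basis.repr_self, Finsupp.single_eq_same]
        simp [MvPolynomial.algebraMap_eq]
      · have h1 : (monomial u r : MvPolynomial (Σ b, J b) R).IsHomogeneous u.degree :=
          isHomogeneous_monomial r rfl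
        have h2 := q.b_deg _ _ h1 z (by
          rw [hz0]
          intro h
          exact hu ((Finsupp.degree_eq_zero_iff u).1 h.symm))
        show q.b.coord z (q.pm (monomial u r)) = _
        rw [Module.Basis.coord_apply, h2, MvPolynomial.constantCoeff_eq, coeff_monomial, if_neg hu]
    | add p q' hp hq =>
      rw [map_add, map_add, map_add, hp, hq]
  let eps : R1 →ₐ[R] R := AlgHom.ofLinearMap t0
    (by
      have h1 := ht0 1
      rw [map_one q.pm, map_one MvPolynomial.constantCoeff] at h1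
      exact h1)
    (by
      intro x y
      obtain ⟨p, rfl⟩ := q.sur x
      obtain ⟨p', rfl⟩ := q.sur y
      rw [← map_mul, ht0, ht0, ht0, map_mul])
  have heps : ∀ p, eps (q.pm p) = MvPolynomial.constantCoeff p := ht0
  refine ⟨eps, (∑ i : Σ b, J b, (ℓ ^ a i.1 - 1)) + 1, heps, ?_, ?_, ?_⟩
  · intro y hy
    choose p hp using fun i => q.sur (y i)
    have h1 : ∏ i, y i = q.pm (∏ i, p i) := by
      rw [map_prod]
      exact Finset.prod_congr rfl fun i _ => (hp i).symm
    have h2 := supp_prod Finset.univ p (fun i _ => by rw [← heps, hp]; exact hy i)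
    rw [Finset.card_univ, Fintype.card_fin] at h2
    rw [h1, (∏ i, p i).as_sum, map_sum]
    apply Finset.sum_eq_zero
    intro u hu
    apply q.b.ext_elem
    intro α
    rw [map_zero, Finsupp.zero_apply]
    apply q.b_deg _ _ (isHomogeneous_monomial _ rfl)
    have h3 : ∑ i, ((α i : Fin _) : ℕ) ≤ ∑ i : Σ b, J b, (ℓ ^ a i.1 - 1) :=
      Finset.sum_le_sum fun i _ => by
        have := (α i).2
        omega
    have h4 := h2 u hu
    omega
  · intro act hact e x
    obtain ⟨p, rfl⟩ := q.sur x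
    rw [hact, heps, heps, cc_Lb]
  · intro v hv x
    obtain ⟨p, rfl⟩ := q.sur x
    induction p using MvPolynomial.induction_on' with
    | monomial u r =>
      rw [hv u.degree _ (isHomogeneous_monomial r rfl), map_smul, heps,
        MvPolynomial.constantCoeff_eq, coeff_monomial]
      by_cases hu : u = 0
      · subst hu
        simp
      · rw [if_neg hu, smul_zero]
    | add p q' hp hq => rw [map_add, map_add, map_add, hp, hq, add_zero]

end Pool.Agent.PFD.D3.H70
end
end -- Pool.Agent.Helper70_PFD.EPN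

section -- Pool.Agent.Helper70_PFD.SGM

/-!
Squad PFD, block D3, row SGM: the socle element of `R1`.
-/

set_option autoImplicit false

open scoped BigOperators

noncomputable section

namespace Pool.Agent.PFD.D3.H70

theorem sgm (hFts : FtsStmt) : SgmStmt := by
  intro R F V R1 K _ _ _ _ _ _ _ _ c rho ℓ _ _ t y y' eps hV h1 hdu
  classical
  -- scalars
  have hqs : ∀ (r : R) x, rho.q (r • x) = c.κ r • rho.q x := by
    intro r x
    rw [Algebra.smul_def, map_mul, rho.sc, ← Algebra.smul_def]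
  have hpi : c.κ c.π = 0 := (c.ker c.π).2 ⟨1, (mul_one _).symm⟩
  -- the form is nondegenerate
  have hnd : ∀ a b : R1, (∀ w, t (a * w) = t (b * w)) → a = b := by
    intro a b hab
    rw [← h1 a, ← h1 b]
    refine Finset.sum_congr rfl fun j _ => ?_
    rw [mul_comm (y' j) a, mul_comm (y' j) b, hab]
  obtain ⟨s0, hs0⟩ : ∃ s0 : R1, s0 = ∑ j, eps (y j) • y' j := ⟨_, rfl⟩
  have ht0 : ∀ x, t (s0 * x) = eps x := by
    intro x
    rw [hs0, Finset.sum_mul, map_sum]
    have h2 : ∑ j, t (eps (y j) • y' j * x) = eps (∑ j, t (y' j * x) • y j) := by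
      rw [map_sum]
      refine Finset.sum_congr rfl fun j _ => ?_
      rw [smul_mul_assoc, map_smul, map_smul, smul_eq_mul, smul_eq_mul, mul_comm]
    rw [h2, h1]
  have hx0 : ∀ x, x * s0 = eps x • s0 := by
    intro x
    apply hnd
    intro w
    have h2 : x * s0 * w = s0 * (x * w) := by ring
    rw [h2, ht0, map_mul, smul_mul_assoc, map_smul, ht0, smul_eq_mul]
  have ht1 : t s0 = 1 := by
    have := ht0 1
    rw [mul_one, map_one] at this
    exact this
  -- the reduction is killed by the `u - 1`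
  have hchar : CharP (MonoidAlgebra F V) ℓ :=
    charP_of_injective_algebraMap (algebraMap F (MonoidAlgebra F V)).injective ℓ
  have hfix : ∀ u, MonoidAlgebra.of F V u * rho.q s0 = rho.q s0 := by
    intro u
    obtain ⟨r, hr⟩ := rho.surj (MonoidAlgebra.of F V u - 1)
    obtain ⟨n, hn⟩ := hV u
    have h2 : rho.q (r ^ ℓ ^ n) = 0 := by
      rw [map_pow, hr, sub_pow_char_pow, ← map_pow, hn, map_one, one_pow, sub_self]
    obtain ⟨s, hs⟩ := rho.ker _ h2
    have h3 : c.κ (eps r) ^ ℓ ^ n = 0 := by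
      rw [← map_pow, ← map_pow, hs, map_smul, smul_eq_mul, map_mul, hpi, zero_mul]
    have h4 : c.κ (eps r) = 0 := (pow_eq_zero_iff (pow_pos (Fact.out : ℓ.Prime).pos n).ne').1 h3
    have h5 := congrArg rho.q (hx0 r)
    rw [map_mul, hr, hqs, h4, zero_smul, sub_mul, one_mul, sub_eq_zero] at h5
    exact h5
  obtain ⟨⟨m, hm⟩, -⟩ := hFts F V Unit 1 (rho.q s0) hfix
  have hm0 : m ≠ 0 := by
    rintro rfl
    rw [zero_smul] at hm
    obtain ⟨s, hs⟩ := rho.ker _ hm
    rw [hs, map_smul, smul_eq_mul] at ht1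
    have h2 := congrArg c.κ ht1
    rw [map_mul, hpi, zero_mul, map_one] at h2
    exact zero_ne_one h2
  obtain ⟨r, hr⟩ := c.surj m⁻¹
  refine ⟨r • s0, ?_, ?_⟩
  · intro x
    rw [mul_smul_comm, hx0, smul_comm]
  · rw [hqs, hr, hm, smul_smul, inv_mul_cancel₀ hm0, one_smul]

end Pool.Agent.PFD.D3.H70
end
end -- Pool.Agent.Helper70_PFD.SGM

section -- Pool.Agent.Helper75_PFD.ANW

/-! # PFD, block D3, row ANW: lifting of the annihilators -/

open scoped BigOperators

noncomputable section

namespace Pool.Agent.PFD.D3.H75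

open MonoidAlgebra
open Pool.Agent.PFD Pool.Agent.PFD.D3

theorem sum_all {k G : Type} [CommRing k] [Fintype G] (z : MonoidAlgebra k G) :
    (∑ v : G, MonoidAlgebra.single v (z.coeff v)) = z := by
  have h := MonoidAlgebra.sum_coeff_single z
  rw [Finsupp.sum_fintype] at h
  · exact h
  · intro i
    exact MonoidAlgebra.single_zero i

theorem coeff_of_mul {k G : Type} [CommRing k] [CommGroup G] (z : MonoidAlgebra k G)
    (u v : G) : (MonoidAlgebra.of k G u * z).coeff v = z.coeff (u⁻¹ * v) := by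
  rw [MonoidAlgebra.of_apply]
  rw [MonoidAlgebra.coeff_single_mul_eq_mul_coeff (u⁻¹ * v), one_mul]
  intro m' _
  constructor
  · intro h
    rw [← h, inv_mul_cancel_left]
  · intro h
    rw [h, mul_inv_cancel_left]

/-- the coefficients of `z` -/
theorem inv_coeff {F V E : Type} [Field F] [CommGroup V] [Group E] (φ : E →* MulAut V)
    (e : E) (z : MonoidAlgebra F V)
    (hz : ∀ u : V, MonoidAlgebra.of F V (φ e u) * z = MonoidAlgebra.of F V u * z) (u v : V) :
    z.coeff ((φ e u)⁻¹ * u * v) = z.coeff v := by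
  have h := congrArg (fun t => MonoidAlgebra.coeff t (u * v)) (hz u)
  simp only [coeff_of_mul] at h
  rw [inv_mul_cancel_left, ← mul_assoc] at h
  exact h

/-- invariance under `Va` -/
theorem inv_Va {ℓ : ℕ} {F V E : Type} [Field F] [CommGroup V] [Group E]
    (φ : E →* MulAut V) (Va W : Subgroup V) (hC : CtW ℓ φ Va W)
    (e : E) (he : e ≠ 1) (z : MonoidAlgebra F V)
    (hz : ∀ u : V, MonoidAlgebra.of F V (φ e u) * z = MonoidAlgebra.of F V u * z) (a : Va)
    (v : V) : z.coeff (a * v) = z.coeff v := by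
  have := hC.fin
  have hmem : ∀ u : Va, (φ e (u : V))⁻¹ * u ∈ Va := by
    intro u
    exact Va.mul_mem (Va.inv_mem (hC.sa e u u.2)) u.2
  have hinj : Function.Injective (fun u : Va => (⟨(φ e (u : V))⁻¹ * u, hmem u⟩ : Va)) := by
    intro u u' h
    have h1 : (φ e (u : V))⁻¹ * u = (φ e (u' : V))⁻¹ * u' := congrArg Subtype.val h
    have h2 : φ e ((u : V) * (u' : V)⁻¹) = (u : V) * (u' : V)⁻¹ := by
      rw [map_mul, map_inv]
      have h3 : (u : V) = φ e (u : V) * ((φ e (u' : V))⁻¹ * u') := by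
        rw [← h1, mul_inv_cancel_left]
      calc φ e (u : V) * (φ e (u' : V))⁻¹
          = φ e (u : V) * ((φ e (u' : V))⁻¹ * u') * (u' : V)⁻¹ := by
            rw [mul_assoc, mul_assoc, mul_inv_cancel, mul_one]
        _ = (u : V) * (u' : V)⁻¹ := by rw [← h3]
    rcases hC.free e _ (Va.mul_mem u.2 (Va.inv_mem u'.2)) h2 with h4 | h4
    · exact absurd h4 he
    · exact Subtype.ext (mul_inv_eq_one.mp h4)
  have : Finite Va := inferInstance
  obtain ⟨u, hu⟩ := (Finite.injective_iff_surjective.mp hinj) a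
  have hu' : (φ e (u : V))⁻¹ * u = (a : V) := congrArg Subtype.val hu
  rw [← hu']
  exact inv_coeff φ e z hz u v

/-- the product map -/
theorem prod_bij {ℓ : ℕ} {V E : Type} [CommGroup V] [Group E]
    (φ : E →* MulAut V) (Va W : Subgroup V) (hC : CtW ℓ φ Va W) :
    Function.Bijective (fun p : W × Va => (p.2 : V) * (p.1 : V)) := by
  constructor
  · rintro ⟨w, u⟩ ⟨w', u'⟩ h
    have h : (u : V) * (w : V) = (u' : V) * (w' : V) := h
    have h1 : (u' : V)⁻¹ * u = (w' : V) * (w : V)⁻¹ := by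
      rw [eq_mul_inv_iff_mul_eq, mul_assoc, h, inv_mul_cancel_left]
    have h2 : (u' : V)⁻¹ * u ∈ Va ⊓ W :=
      ⟨Va.mul_mem (Va.inv_mem u'.2) u.2, by rw [h1]; exact W.mul_mem w'.2 (W.inv_mem w.2)⟩
    rw [hC.dis, Subgroup.mem_bot] at h2
    have h3 : (u' : V) = u := inv_mul_eq_one.mp h2
    have h4 : (w' : V) = w := by
      rw [h1] at h2
      exact mul_inv_eq_one.mp h2
    exact Prod.ext (Subtype.ext h4.symm) (Subtype.ext h3.symm)
  · intro v
    have hv : v ∈ Va ⊔ W := by rw [hC.sup]; exact Subgroup.mem_top v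
    obtain ⟨u, hu, w, hw, rfl⟩ := Subgroup.mem_sup.mp hv
    exact ⟨(⟨w, hw⟩, ⟨u, hu⟩), rfl⟩

theorem anw : AnwStmt := by
  intro R F V E R1 _ _ _ _ _ _ ℓ c o φ Va W _ rho act ψ A fb eps sg hC hψ hA hfb heps hsg hrho
    e z hz
  classical
  by_cases he : e = 1
  · obtain ⟨y, hy⟩ := fb.surj z
    refine ⟨y, hy, fun s => ?_⟩
    rw [he, map_one]
    rfl
  have := hC.fin
  have : Fintype V := Fintype.ofFinite V
  have : Fintype W := Fintype.ofFinite W
  have hsmul : ∀ (r : R) (x : R1), rho.q (r • x) = c.κ r • rho.q x := by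
    intro r x
    rw [Algebra.smul_def, map_mul, rho.sc, ← Algebra.smul_def]
  have hy : fb.q (∑ w : W, single w (o.τ (z.coeff (w : V)) • sg)) = z := by
    have h1 : ∀ w : W, fb.q (single w (o.τ (z.coeff (w : V)) • sg)) =
        ∑ u : Va, single ((u : V) * (w : V)) (z.coeff ((u : V) * (w : V))) := by
      intro w
      rw [hfb, hsmul, o.τκ, hrho, map_smul, map_sum, smul_mul_assoc, Finset.sum_mul,
        Finset.smul_sum]
      apply Finset.sum_congr rfl
      intro u _
      rw [inv_Va φ Va W hC e he z hz u w, MonoidAlgebra.of_apply, MonoidAlgebra.of_apply]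
      have h2 : (MonoidAlgebra.mapDomainAlgHom F F Va.subtype) (single u (1 : F)) =
          single (u : V) 1 := MonoidAlgebra.mapDomain_single
      rw [h2, single_mul_single, smul_single, mul_one, smul_eq_mul, mul_one]
    rw [map_sum, Finset.sum_congr rfl fun w _ => h1 w]
    rw [← Fintype.sum_prod_type' (f := fun (w : W) (u : Va) =>
      (single ((u : V) * (w : V)) (z.coeff ((u : V) * (w : V))) : MonoidAlgebra F V))]
    have h3 := (prod_bij φ Va W hC).sum_comp
      (fun v : V => (single v (z.coeff v) : MonoidAlgebra F V))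
    rw [sum_all] at h3
    exact h3
  refine ⟨_, hy, fun s => ?_⟩
  induction s using MonoidAlgebra.induction_linear with
  | zero => rw [map_zero, zero_mul]
  | add f g hf hg => rw [map_add, add_mul, add_mul, hf, hg]
  | single w' r =>
    rw [hA, Finset.mul_sum, Finset.mul_sum]
    have hr : ∀ (x : R1) (k : R), x * (k • sg) = k • (eps x • sg) := by
      intro x k
      rw [mul_smul_comm, hsg]
    symm
    apply Fintype.sum_equiv (Equiv.mulLeft ((ψ e w')⁻¹ * w'))
    intro w
    rw [single_mul_single, single_mul_single, hr, hr, heps, Equiv.coe_mulLeft]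
    have h4 : ψ e w' * ((ψ e w')⁻¹ * w' * w) = w' * w := by
      rw [mul_assoc, mul_inv_cancel_left]
    have h5 : z.coeff (((ψ e w')⁻¹ * w' * w : W) : V) = z.coeff (w : V) := by
      rw [Subgroup.coe_mul, Subgroup.coe_mul, Subgroup.coe_inv, hψ]
      exact inv_coeff φ e z hz _ _
    rw [h4, h5]

end Pool.Agent.PFD.D3.H75
end
end -- Pool.Agent.Helper75_PFD.ANW

section -- Pool.Agent.Helper75_PFD.REL

/-! # PFD, block D3, row REL: the relations -/

open scoped BigOperators

noncomputable section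

namespace Pool.Agent.PFD.D3.H75

open MvPolynomial
open Pool.Agent.PFD Pool.Agent.PFD.D3

section rel

variable {R E B : Type} [CommRing R] [Group E] [Fintype E] {J : B → Type}
  [∀ b, Fintype (J b)] [∀ b, DecidableEq (J b)]

/-- the relation -/
def ff (ℓ : ℕ) (a : B → ℕ) (m : R) (D D' : ∀ b, E →* Matrix (J b) (J b) R) (b : B)
    (j : J b) : MvPolynomial (Σ b, J b) R :=
  ∑ h : E, ∑ k : J b, C (m * D' b h⁻¹ k j) * (Lb D h (X ⟨b, k⟩)) ^ ℓ ^ a b

theorem ff_hom (hp : PacStmt) (ℓ : ℕ) (a : B → ℕ) (m : R)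
    (D D' : ∀ b, E →* Matrix (J b) (J b) R) (b : B) (j : J b) :
    (ff ℓ a m D D' b j).IsHomogeneous (ℓ ^ a b) := by
  obtain ⟨-, -, -, hh⟩ := hp R E B J D
  unfold ff
  apply IsHomogeneous.sum
  intro h _
  apply IsHomogeneous.sum
  intro k _
  have h1 := (hh h (X ⟨b, k⟩) 1 (isHomogeneous_X R _)).pow (ℓ ^ a b)
  have h2 := (isHomogeneous_C (Σ b, J b) (m * D' b h⁻¹ k j)).mul h1
  rw [one_mul, zero_add] at h2
  exact h2

theorem ff_act (hp : PacStmt) (ℓ : ℕ) (a : B → ℕ) (m : R)
    (D D' : ∀ b, E →* Matrix (J b) (J b) R) (e : E) (b : B) (j : J b) :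
    Lb D e (ff ℓ a m D D' b j) = ∑ k, C (D' b e k j) * ff ℓ a m D D' b k := by
  obtain ⟨-, hmul, -, -⟩ := hp R E B J D
  have h1 : Lb D e (ff ℓ a m D D' b j) =
      ∑ h : E, ∑ k : J b, C (m * D' b h⁻¹ k j) * (Lb D (e * h) (X ⟨b, k⟩)) ^ ℓ ^ a b := by
    unfold ff
    rw [map_sum]
    apply Finset.sum_congr rfl
    intro h _
    rw [map_sum]
    apply Finset.sum_congr rfl
    intro k _
    rw [map_mul, map_pow, hmul]
    congr 1
    exact (Lb D e).commutes _
  have h2 : (∑ h : E, ∑ k : J b, C (m * D' b h⁻¹ k j) *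
      (Lb D (e * h) (X ⟨b, k⟩)) ^ ℓ ^ a b) =
      ∑ h : E, ∑ k : J b, C (m * D' b (h⁻¹ * e) k j) *
        (Lb D h (X ⟨b, k⟩)) ^ ℓ ^ a b := by
    apply Fintype.sum_equiv (Equiv.mulLeft e)
    intro h
    rw [Equiv.coe_mulLeft]
    apply Finset.sum_congr rfl
    intro k _
    rw [mul_inv_rev, inv_mul_cancel_right]
  rw [h1, h2]
  unfold ff
  have h3 : ∀ h : E, ∀ k : J b, C (m * D' b (h⁻¹ * e) k j) * (Lb D h (X ⟨b, k⟩)) ^ ℓ ^ a b =
      ∑ i : J b, C (D' b e i j) * (C (m * D' b h⁻¹ k i) * (Lb D h (X ⟨b, k⟩)) ^ ℓ ^ a b) := by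
    intro h k
    rw [map_mul (D' b), Matrix.mul_apply, Finset.mul_sum, map_sum, Finset.sum_mul]
    apply Finset.sum_congr rfl
    intro i _
    rw [← mul_assoc (C (D' b e i j)), ← C_mul]
    congr 2
    ring
  calc (∑ h : E, ∑ k : J b, C (m * D' b (h⁻¹ * e) k j) * (Lb D h (X ⟨b, k⟩)) ^ ℓ ^ a b)
      = ∑ h : E, ∑ k : J b, ∑ i : J b, C (D' b e i j) *
          (C (m * D' b h⁻¹ k i) * (Lb D h (X ⟨b, k⟩)) ^ ℓ ^ a b) :=
        Finset.sum_congr rfl fun h _ => Finset.sum_congr rfl fun k _ => h3 h k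
    _ = ∑ h : E, ∑ i : J b, ∑ k : J b, C (D' b e i j) *
          (C (m * D' b h⁻¹ k i) * (Lb D h (X ⟨b, k⟩)) ^ ℓ ^ a b) :=
        Finset.sum_congr rfl fun h _ => Finset.sum_comm
    _ = ∑ i : J b, ∑ h : E, ∑ k : J b, C (D' b e i j) *
          (C (m * D' b h⁻¹ k i) * (Lb D h (X ⟨b, k⟩)) ^ ℓ ^ a b) := Finset.sum_comm
    _ = _ := by
        apply Finset.sum_congr rfl
        intro i _
        rw [Finset.mul_sum]
        apply Finset.sum_congr rfl
        intro h _
        rw [Finset.mul_sum]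

omit [Fintype E] in
/-- the power of the linear form -/
theorem lin_pow (hp : PacStmt) (ℓ : ℕ) [Fact ℓ.Prime] {F : Type} [Field F] [CharP F ℓ]
    (κ : R →+* F) (a : B → ℕ)
    (D D' : ∀ b, E →* Matrix (J b) (J b) R)
    (hD : ∀ b e k j, κ (D' b e k j) = κ (D b e k j) ^ ℓ ^ a b) (b : B) (h : E) (k : J b) :
    (MvPolynomial.map κ (Lb D h (X ⟨b, k⟩))) ^ ℓ ^ a b =
      ∑ i : J b, C (κ (D' b h i k)) * X ⟨b, i⟩ ^ ℓ ^ a b := by
  obtain ⟨-, -, hX, -⟩ := hp R E B J D
  rw [hX, map_sum, sum_pow_char_pow ℓ]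
  apply Finset.sum_congr rfl
  intro i _
  rw [map_mul, map_C, map_X, mul_pow, ← C_pow, hD]

theorem map_ff (hp : PacStmt) (ℓ : ℕ) [Fact ℓ.Prime] {F : Type} [Field F] [CharP F ℓ]
    (κ : R →+* F) (a : B → ℕ) (m : R)
    (D D' : ∀ b, E →* Matrix (J b) (J b) R)
    (hD : ∀ b e k j, κ (D' b e k j) = κ (D b e k j) ^ ℓ ^ a b) (b : B) (j : J b) :
    MvPolynomial.map κ (ff ℓ a m D D' b j) =
      ∑ h : E, ∑ k : J b, ∑ i : J b,
        C (κ (m * (D' b h i k * D' b h⁻¹ k j))) * X ⟨b, i⟩ ^ ℓ ^ a b := by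
  unfold ff
  rw [map_sum]
  apply Finset.sum_congr rfl
  intro h _
  rw [map_sum]
  apply Finset.sum_congr rfl
  intro k _
  rw [map_mul, map_pow, map_C, lin_pow hp ℓ κ a D D' hD b h k, Finset.mul_sum]
  apply Finset.sum_congr rfl
  intro i _
  rw [← mul_assoc, ← C_mul, ← map_mul]
  congr 3
  ring

omit [Fintype E] in
theorem sum_mat {F σ : Type} [Field F] (κ : R →+* F) (m : R) (b : B)
    (D' : E →* Matrix (J b) (J b) R) (Y : J b → MvPolynomial σ F) (j : J b) (h : E) :
    (∑ i : J b, ∑ k : J b, C (κ (m * (D' h i k * D' h⁻¹ k j))) * Y i) =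
      C (κ m) * Y j := by
  have h1 : ∀ i : J b, (∑ k : J b, C (κ (m * (D' h i k * D' h⁻¹ k j))) * Y i) =
      C (κ (m * (1 : Matrix (J b) (J b) R) i j)) * Y i := by
    intro i
    have h2 : (1 : Matrix (J b) (J b) R) i j = ∑ k, D' h i k * D' h⁻¹ k j := by
      rw [← Matrix.mul_apply, ← map_mul, mul_inv_cancel, map_one]
    rw [← Finset.sum_mul, h2, Finset.mul_sum, map_sum, map_sum]
  rw [Finset.sum_congr rfl fun i _ => h1 i, Finset.sum_eq_single j]
  · rw [Matrix.one_apply_eq, mul_one]
  · intro i _ hi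
    rw [Matrix.one_apply_ne hi, mul_zero, map_zero, map_zero, zero_mul]
  · intro h0
    exact absurd (Finset.mem_univ j) h0

theorem ff_map (hp : PacStmt) (ℓ : ℕ) [Fact ℓ.Prime] {F : Type} [Field F] [CharP F ℓ]
    (κ : R →+* F) (a : B → ℕ) (m : R) (hm : m * (Fintype.card E : R) = 1)
    (D D' : ∀ b, E →* Matrix (J b) (J b) R)
    (hD : ∀ b e k j, κ (D' b e k j) = κ (D b e k j) ^ ℓ ^ a b) (b : B) (j : J b) :
    MvPolynomial.map κ (ff ℓ a m D D' b j) = X ⟨b, j⟩ ^ ℓ ^ a b := by
  obtain ⟨Y, hY⟩ : ∃ Y : J b → MvPolynomial (Σ b, J b) F, ∀ i, X ⟨b, i⟩ ^ ℓ ^ a b = Y i :=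
    ⟨fun i => X ⟨b, i⟩ ^ ℓ ^ a b, fun i => rfl⟩
  have h0 : ∀ h : E, (∑ i : J b, ∑ k : J b,
      C (κ (m * (D' b h i k * D' b h⁻¹ k j))) * Y i) = C (κ m) * Y j := by
    intro h
    have h00 := sum_mat κ m b (D' b) Y j h
    exact h00
  have h1 : ∀ h : E, (∑ k : J b, ∑ i : J b,
      C (κ (m * (D' b h i k * D' b h⁻¹ k j))) * Y i) = C (κ m) * Y j := by
    intro h
    rw [← h0 h]
    exact Finset.sum_comm
  have h2 : MvPolynomial.map κ (ff ℓ a m D D' b j) =
      ∑ h : E, ∑ k : J b, ∑ i : J b,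
        C (κ (m * (D' b h i k * D' b h⁻¹ k j))) * Y i := by
    rw [map_ff hp ℓ κ a m D D' hD b j]
    apply Finset.sum_congr rfl
    intro h _
    apply Finset.sum_congr rfl
    intro k _
    apply Finset.sum_congr rfl
    intro i _
    rw [hY i]
  rw [h2, hY j, Finset.sum_congr rfl fun h _ => h1 h, Finset.sum_const, Finset.card_univ,
    nsmul_eq_mul, ← mul_assoc]
  have h3 : ((Fintype.card E : ℕ) : MvPolynomial (Σ b, J b) F) * C (κ m) = 1 := by
    rw [← map_natCast (C : F →+* MvPolynomial (Σ b, J b) F), ← C_mul,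
      ← map_natCast κ, ← map_mul, mul_comm, hm, map_one, map_one]
  rw [h3, one_mul]

end rel

theorem rel (hp : PacStmt) : RelStmt := by
  intro ℓ _ R F E B _ _ _ _ _ c J _ _ a D D' hE hD
  have hu : IsUnit (Fintype.card E : R) := by
    apply c.loc
    rw [map_natCast]
    exact hE
  obtain ⟨m, hm⟩ := hu.exists_left_inv
  refine ⟨fun i => ff ℓ a m D D' i.1 i.2, ?_, ?_, ?_⟩
  · intro i
    exact ff_hom hp ℓ a m D D' i.1 i.2
  · intro i
    exact ff_map hp ℓ c.κ a m hm D D' hD i.1 i.2
  · intro e b j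
    exact ff_act hp ℓ a m D D' e b j

end Pool.Agent.PFD.D3.H75
end
end -- Pool.Agent.Helper75_PFD.REL

section -- Pool.Agent.Helper76_PFD.GLX

/-! Row GLX of squad PFD (block D3): the graded lift of the group algebra of `V` exists. -/

open scoped BigOperators

noncomputable section

namespace Pool.Agent.PFD.D3.H76

open MvPolynomial Pool.Agent.PFD Pool.Agent.PFD.D3

theorem glx (hcoo : CooStmt) (hqua : QuaStmt) (hrho : RhoStmt) (hacr : AcrStmt) (heud : EudStmt)
    (hepn : EpnStmt) (htsr : TsrStmt) (hsgm : SgmStmt) : GlxStmt := by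
  classical
  intro ℓ _ R F V E _ _ _ _ _ _ _ c φ hV hnt hE
  obtain ⟨B, _, J, _, _, hne, ⟨Z⟩⟩ := hcoo ℓ F V E φ hV hnt hE
  obtain ⟨D, R1, _, _, hD, ⟨q⟩⟩ := hqua ℓ R F E B c J Z.a Z.D hE
  obtain ⟨rho, hrho1, -⟩ := hrho ℓ R F V E B R1 c φ J Z D q
  obtain ⟨act, hact1, hact2⟩ := hacr ℓ R F V E B R1 c φ J Z D q hD
  obtain ⟨v, hv1, hv2, hv3⟩ := heud ℓ R F E B R1 c J Z.a D q
  obtain ⟨eps, N, heps, hN, heps1, heps2⟩ := hepn ℓ R F E B R1 c J Z.a D q Z.a1
  obtain ⟨t, y', ht1, ht2, ht3, ht4⟩ :=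
    htsr ℓ R F V E B R1 c φ J Z D q act rho hE hact1 hrho1 (hact2 rho hrho1)
  obtain ⟨sg, hsg1, hsg2⟩ := hsgm R F V R1 (∀ i : Σ b, J b, Fin (ℓ ^ Z.a i.1)) c rho ℓ t q.b y' eps
    hV ht1 ht2
  obtain ⟨wt, hwt⟩ : ∃ wt : ℕ, wt = ∑ i : Σ b, J b, (ℓ ^ Z.a i.1 - 1) := ⟨_, rfl⟩
  have hwt0 : 0 < wt := by
    rw [hwt]
    refine Finset.sum_pos (fun i _ => ?_) Finset.univ_nonempty
    have h1 : 1 < ℓ ^ Z.a i.1 :=
      Nat.one_lt_pow (Nat.one_le_iff_ne_zero.1 (Z.a1 i.1)) (Fact.out : ℓ.Prime).one_lt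
    omega
  have htv : ∀ a, t (v a) = (wt : R) * t a := by
    intro a
    obtain ⟨p, rfl⟩ := q.sur a
    have h1 : ∀ d, t (v (q.pm (homogeneousComponent d p))) =
        (wt : R) * t (q.pm (homogeneousComponent d p)) := by
      intro d
      have h2 := homogeneousComponent_isHomogeneous d p
      rw [hv1 d _ h2, map_smul, smul_eq_mul]
      by_cases hd : d = wt
      · rw [hd]
      · rw [ht4 d _ h2 (by rw [← hwt]; exact hd), mul_zero, mul_zero]
    have h2 := p.sum_homogeneousComponent
    rw [← h2, map_sum, map_sum, map_sum, map_sum, Finset.mul_sum]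
    exact Finset.sum_congr rfl fun d _ => h1 d
  exact ⟨R1, _, _, ⟨
    { act := act
      rho := rho
      rho_act := hact2 rho hrho1
      J := ∀ i : Σ b, J b, Fin (ℓ ^ Z.a i.1)
      fJ := inferInstance
      y := q.b
      y' := y'
      t := t
      h1 := ht1
      du := fun i j => by
        rw [ht2]
        by_cases h : i = j
        · rw [if_pos h, if_pos h]
        · rw [if_neg h, if_neg h]
      t_act := ht3
      v := v
      v_mul := hv2
      v_act := hv3 act hact1
      wt := wt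
      wt_pos := hwt0
      t_v := htv
      eps := eps
      eps_act := heps1 act hact1
      eps_v := heps2 v hv1
      N := N
      eps_nil := hN
      sg := sg
      sg_eps := hsg1
      sg_q := hsg2 }⟩⟩

end Pool.Agent.PFD.D3.H76
end
end -- Pool.Agent.Helper76_PFD.GLX

section -- Pool.Agent.Helper84_PFD.TSW

/-!
Squad PFD, row TSW: the form `x ↦ t (x 1)` on `R1 [W]` and its relative dual bases.
-/

set_option autoImplicit false

open scoped BigOperators

namespace Pool.Agent.PFD.D3.H84

open Pool.Agent.PFD.D3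

/-- the form -/
noncomputable def tw (R R1 W : Type) [CommRing R] [CommRing R1] [Algebra R R1] [CommGroup W]
    (t : R1 →ₗ[R] R) : MonoidAlgebra R1 W →ₗ[R] R where
  toFun := fun x => t (x.coeff 1)
  map_add' := fun x y => by
    rw [MonoidAlgebra.coeff_add, Finsupp.add_apply, map_add]
  map_smul' := fun r x => by
    rw [MonoidAlgebra.coeff_smul, Finsupp.smul_apply, map_smul, RingHom.id_apply]

section
variable {R R1 W : Type} [CommRing R] [CommRing R1] [Algebra R R1] [CommGroup W] [DecidableEq W]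

theorem tw_single (t : R1 →ₗ[R] R) (w : W) (r : R1) :
    tw R R1 W t (MonoidAlgebra.single w r) = if w = 1 then t r else 0 := by
  show t ((MonoidAlgebra.single w r).coeff 1) = _
  rw [MonoidAlgebra.coeff_single_apply]
  split_ifs
  · rfl
  · exact map_zero t

end

/-- module TSW -/
theorem tsw : TswStmt := by
  intro R R1 W E K _ _ _ _ _ _ _ _ _ act ψ A t y y' hA hy hyy ht
  refine ⟨tw R R1 W t, tw_single t, ?_, ?_, ?_⟩
  · intro a
    induction a using MonoidAlgebra.induction_linear with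
    | zero =>
      simp only [mul_zero, map_zero, zero_smul, Finset.sum_const_zero]
    | add f g hf hg =>
      simp only [mul_add, map_add, add_smul, Finset.sum_add_distrib]
      rw [hf, hg]
    | single v r =>
      have e : ∀ (j : K) (w : W), tw R R1 W t (MonoidAlgebra.single w⁻¹ 1 *
          MonoidAlgebra.single 1 (y' j) * MonoidAlgebra.single v r) •
          ((MonoidAlgebra.single 1 (y j) * MonoidAlgebra.single w 1 : MonoidAlgebra R1 W)) =
          if w = v then MonoidAlgebra.single v (t (y' j * r) • y j) else 0 := by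
        intro j w
        rw [MonoidAlgebra.single_mul_single, MonoidAlgebra.single_mul_single,
          MonoidAlgebra.single_mul_single, tw_single, mul_one, one_mul, mul_one, one_mul]
        by_cases h : w = v
        · subst h
          rw [if_pos (inv_mul_cancel w), if_pos rfl, MonoidAlgebra.smul_single]
        · rw [if_neg h, if_neg (fun h' => h (inv_mul_eq_one.1 h')), zero_smul]
      simp only [e, Finset.sum_ite_eq', Finset.mem_univ, if_true]
      rw [← MonoidAlgebra.singleAddHom_apply, ← hy r, map_sum]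
      refine Finset.sum_congr rfl fun j _ => ?_
      rw [hy]
      rfl
  · intro i j u v
    rw [MonoidAlgebra.single_mul_single, MonoidAlgebra.single_mul_single,
      MonoidAlgebra.single_mul_single, tw_single, mul_one, one_mul, mul_one, one_mul, hyy]
    by_cases h : u = v
    · subst h
      rw [if_pos (inv_mul_cancel u)]
      simp only [and_true]
    · rw [if_neg (fun h' => h (inv_mul_eq_one.1 h')), if_neg (fun h' => h h'.2)]
  · intro e x
    induction x using MonoidAlgebra.induction_linear with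
    | zero => rw [map_zero]
    | add f g hf hg => rw [map_add, map_add, map_add, hf, hg]
    | single w r =>
      rw [hA, tw_single, tw_single, ht]
      by_cases h : w = 1
      · subst h
        rw [map_one]
      · rw [if_neg h, if_neg (fun h' => h (by
          have := congrArg (ψ e).symm h'
          rwa [map_one, MulEquiv.symm_apply_apply] at this))]

end Pool.Agent.PFD.D3.H84
end -- Pool.Agent.Helper84_PFD.TSW

section -- Pool.Agent.Helper86_PFD.Rho

/-!
Squad PFD, row RHO (helper86).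
-/

set_option autoImplicit false

namespace Pool.Agent.PFD.D3.H86

open MvPolynomial

/-- RHO. -/
theorem rho : RhoStmt := by
  intro ℓ _ R F V E B R1 _ _ _ _ _ _ c φ J _ _ Z D _ _ q
  classical
  let E0 : MvPolynomial (Σ b, J b) R →+* MonoidAlgebra F V :=
    MvPolynomial.eval₂Hom ((algebraMap F (MonoidAlgebra F V)).comp c.κ) Z.x
  have hE0X : ∀ i, E0 (X i) = Z.x i := fun i => MvPolynomial.eval₂Hom_X' _ _ i
  have hE0C : ∀ r, E0 (C r) = algebraMap F (MonoidAlgebra F V) (c.κ r) := fun r =>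
    MvPolynomial.eval₂Hom_C _ _ r
  have hE0m : ∀ p, E0 p = MvPolynomial.aeval Z.x (MvPolynomial.map c.κ p) := by
    intro p
    show MvPolynomial.eval₂ _ _ p = MvPolynomial.eval₂ _ _ _
    rw [MvPolynomial.eval₂_map]
  have hf : ∀ i, E0 (q.f i) = 0 := by
    intro i
    rw [hE0m, q.fm, map_pow, MvPolynomial.aeval_X, Z.x0]
  have hspan : Ideal.span (Set.range q.f) ≤ RingHom.ker E0 := by
    rw [Ideal.span_le]
    rintro _ ⟨i, rfl⟩
    exact hf i
  have hker : RingHom.ker (q.pm : MvPolynomial (Σ b, J b) R →+* R1) ≤ RingHom.ker E0 := by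
    intro p hp
    exact hspan ((q.ker p).mp hp)
  let ρ : R1 →+* MonoidAlgebra F V :=
    RingHom.liftOfSurjective (q.pm : MvPolynomial (Σ b, J b) R →+* R1) q.sur ⟨E0, hker⟩
  have hρ : ∀ p, ρ (q.pm p) = E0 p := fun p =>
    RingHom.liftOfRightInverse_comp_apply (q.pm : MvPolynomial (Σ b, J b) R →+* R1) _ _
      ⟨E0, hker⟩ p
  have hsc : ∀ r : R, ρ (algebraMap R R1 r) = algebraMap F (MonoidAlgebra F V) (c.κ r) := by
    intro r
    have h1 : algebraMap R R1 r = q.pm (C r) := (q.pm.commutes r).symm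
    rw [h1, hρ, hE0C]
  have hsm : ∀ (r : R) x, ρ (r • x) = c.κ r • ρ x := by
    intro r x
    rw [Algebra.smul_def, map_mul, hsc, ← Algebra.smul_def]
  have hb : ∀ α, ρ (q.b α) = Z.bs α := by
    intro α
    rw [q.b_eq, hρ, Z.bs_eq]
    unfold PFC.B3.mo
    rw [map_prod]
    exact Finset.prod_congr rfl fun i _ => by rw [map_pow, hE0X]
  have hrep : ∀ x, ρ x = ∑ α, c.κ (q.b.repr x α) • Z.bs α := by
    intro x
    conv_lhs => rw [← q.b.sum_repr x]
    rw [map_sum]
    exact Finset.sum_congr rfl fun α _ => by rw [hsm, hb]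
  refine ⟨⟨ρ, hsc, ?_, ?_⟩, ?_, hb⟩
  · intro z
    choose r hr using fun α => c.surj (Z.bs.repr z α)
    refine ⟨∑ α, r α • q.b α, ?_⟩
    rw [map_sum]
    conv_rhs => rw [← Z.bs.sum_repr z]
    exact Finset.sum_congr rfl fun α _ => by rw [hsm, hb, hr]
  · intro x hx
    have h1 : ∀ α, c.κ (q.b.repr x α) = 0 := by
      have h2 := hrep x
      rw [hx] at h2
      exact fun α => (Fintype.linearIndependent_iff.mp Z.bs.linearIndependent _ h2.symm) α
    choose s hs using fun α => (c.ker (q.b.repr x α)).mp (h1 α)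
    refine ⟨∑ α, s α • q.b α, ?_⟩
    conv_lhs => rw [← q.b.sum_repr x]
    rw [Finset.smul_sum]
    exact Finset.sum_congr rfl fun α _ => by rw [hs, mul_smul]
  · intro i
    show ρ (q.pm (X i)) = Z.x i
    rw [hρ, hE0X]

end Pool.Agent.PFD.D3.H86
end -- Pool.Agent.Helper86_PFD.Rho

section -- Pool.Agent.Helper90_PFD.EUD

/-! Squad PFD, block D3, row EUD: the Euler derivation. -/

set_option autoImplicit false

open scoped BigOperators

noncomputable section

namespace Pool.Agent.PFD.D3.H90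

open MvPolynomial Pool.Agent.PFD Pool.Agent.PFD.D3

/-- EUD -/
theorem eud (hPac : PacStmt) : EudStmt := by
  classical
  intro ℓ _ R F E B R1 _ _ _ _ c J _ _ a D _ _ q
  let v : R1 →ₗ[R] R1 := q.b.constr R (fun α => ((∑ i, (α i : ℕ) : ℕ) : R) • q.b α)
  have hv : ∀ x, v x = ∑ α, q.b.equivFun x α • (((∑ i, (α i : ℕ) : ℕ) : R) • q.b α) := by
    intro x
    exact q.b.constr_apply_fintype R _ x
  have h1 : ∀ d (p : MvPolynomial (Σ b, J b) R), p.IsHomogeneous d →
      v (q.pm p) = (d : R) • q.pm p := by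
    intro d p hp
    rw [hv]
    conv_rhs => rw [← q.b.sum_equivFun (q.pm p)]
    rw [Finset.smul_sum]
    refine Finset.sum_congr rfl (fun α _ => ?_)
    by_cases h : (∑ i, (α i : ℕ)) = d
    · rw [h, smul_comm]
    · have h2 : q.b.equivFun (q.pm p) α = 0 := by
        rw [Module.Basis.equivFun_apply]
        exact q.b_deg d p hp α h
      rw [h2, zero_smul, zero_smul, smul_zero]
  have hm : ∀ (u : (Σ b, J b) →₀ ℕ) (r : R), (monomial u r : MvPolynomial (Σ b, J b) R).IsHomogeneous
      u.degree := fun u r => isHomogeneous_monomial r rfl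
  refine ⟨v, h1, ?_, ?_⟩
  · intro x y
    obtain ⟨P, rfl⟩ := q.sur x
    obtain ⟨Q, rfl⟩ := q.sur y
    induction P using MvPolynomial.induction_on' with
    | monomial u r =>
      induction Q using MvPolynomial.induction_on' with
      | monomial w s =>
        have h3 := h1 _ _ ((hm u r).mul (hm w s))
        rw [map_mul] at h3
        rw [h3, h1 _ _ (hm u r), h1 _ _ (hm w s), Nat.cast_add, add_smul, smul_mul_assoc,
          mul_smul_comm]
      | add Q1 Q2 hQ1 hQ2 =>
        rw [map_add, mul_add, map_add, hQ1, hQ2, map_add, mul_add, mul_add]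
        abel
    | add P1 P2 hP1 hP2 =>
      rw [map_add, add_mul, map_add, hP1, hP2, map_add, add_mul, add_mul]
      abel
  · intro act hact e x
    obtain ⟨P, rfl⟩ := q.sur x
    induction P using MvPolynomial.induction_on' with
    | monomial u r =>
      have h4 := (hPac R E B J D).2.2.2 e _ _ (hm u r)
      rw [hact, h1 _ _ h4, h1 _ _ (hm u r), map_smul, hact]
    | add P1 P2 hP1 hP2 =>
      rw [map_add, map_add, map_add, hP1, hP2, map_add, map_add]

end Pool.Agent.PFD.D3.H90
end
end -- Pool.Agent.Helper90_PFD.EUD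

section -- Pool.Agent.Helper91_PFD.CPA

/-!
# Squad PFD, block D3: tools for crossed products
-/

set_option autoImplicit false

open scoped BigOperators

noncomputable section

namespace Pool.Agent.PFD.D3.H91

open Pool.Agent.PFD.CP

section

variable {k S E : Type} [CommRing k] [CommRing S] [Algebra k S] [Group E] [Fintype E]

/-- the inverse of `n e` -/
def ni (D : CD k S E) (e : E) : CP D := (((D.c e e⁻¹)⁻¹ : kˣ) : k) • CP.n D e⁻¹

variable (D : CD k S E)

theorem n_ni (e : E) : CP.n D e * ni D e = 1 := CP.n_mul_inv e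

theorem ni_n (e : E) : ni D e * CP.n D e = 1 := CP.inv_mul_n e

theorem sn_ni_f (b : S) (g e : E) [Decidable (g = e)] :
    (CP.sn D b g * ni D e).f 1 = if g = e then b else 0 := by
  unfold ni CP.n
  rw [mul_smul_comm, CP.sn_mul_sn, CP.smul_f, CP.smul_f, CP.sn_f, map_one, mul_one]
  by_cases h : g = e
  · rw [if_pos h, if_pos (by rw [h, mul_inv_cancel]), h, smul_smul, Units.inv_mul, one_smul]
  · rw [if_neg h, if_neg, smul_zero, smul_zero]
    intro h1
    exact h (mul_inv_eq_one.1 h1.symm)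

theorem sn_eq (b : S) (g : E) : CP.sn D b g = CP.iS D b * CP.n D g := (CP.iS_mul_n b g).symm

theorem iS_sn (a b : S) (g : E) : CP.iS D a * CP.sn D b g = CP.sn D (a * b) g := by
  rw [CP.iS_apply, CP.sn_mul_sn, D.one_left, Units.val_one, one_smul, map_one, one_mul]
  rfl

theorem sn_iS (a b : S) (g : E) : CP.sn D b g * CP.iS D a = CP.sn D (b * D.act g a) g := by
  rw [CP.iS_apply, CP.sn_mul_sn, D.one_right, Units.val_one, one_smul, mul_one]

theorem iS_ni (e : E) (s : S) : CP.iS D s * ni D e = ni D e * CP.iS D (D.act e s) := by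
  have h1 : CP.n D e * (CP.iS D s * ni D e) = CP.n D e * (ni D e * CP.iS D (D.act e s)) := by
    rw [← mul_assoc, CP.n_mul_iS, mul_assoc, n_ni, ← mul_assoc, n_ni, one_mul, mul_one]
  have h2 := congrArg (fun x => ni D e * x) h1
  simpa only [← mul_assoc, ni_n, one_mul] using h2

theorem ni_mul_n (h g : E) : ni D (h * g) * CP.n D h = (D.c h g : k) • ni D g := by
  have h1 : ni D (h * g) * CP.n D h * CP.n D g = (D.c h g : k) • (1 : CP D) := by
    rw [mul_assoc, CP.n_mul_n, mul_smul_comm, ni_n]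
  have h2 := congrArg (fun x => x * ni D g) h1
  simpa only [mul_assoc, n_ni, mul_one, smul_mul_assoc, one_mul] using h2

/-- the centre of a crossed product -/
theorem mem_center (b : CP D) (h1 : ∀ s, CP.iS D s * b = b * CP.iS D s)
    (h2 : ∀ e, CP.n D e * b = b * CP.n D e) : b ∈ Subalgebra.center k (CP D) := by
  rw [Subalgebra.mem_center_iff]
  intro a
  rw [← CP.sum_iS_n a, Finset.sum_mul, Finset.mul_sum]
  refine Finset.sum_congr rfl fun e _ => ?_
  rw [mul_assoc, h2, ← mul_assoc, h1, mul_assoc]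

end

end Pool.Agent.PFD.D3.H91
end
end -- Pool.Agent.Helper91_PFD.CPA

section -- Pool.Agent.Helper91_PFD.CPT

/-!
# Squad PFD, row CPT: the relative Frobenius system of the crossed product
-/

set_option autoImplicit false

open scoped BigOperators

noncomputable section

namespace Pool.Agent.PFD.D3.H91

open Pool.Agent.PFD.CP

/-- the second set of dual bases -/
theorem t2_of_t1 {R Γ K : Type} [CommRing R] [Ring Γ] [Algebra R Γ] [Fintype K] (t : Γ →ₗ[R] R)
    (ts : ∀ x y, t (x * y) = t (y * x)) (b b' : K → Γ) (t1 : ∀ a, ∑ k, t (b' k * a) • b k = a)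
    (a : Γ) : ∑ k, t (a * b k) • b' k = a := by
  have nd : ∀ c, (∀ x, t (c * x) = 0) → c = 0 := by
    intro c hc
    rw [← t1 c]
    refine Finset.sum_eq_zero fun k _ => ?_
    rw [ts, hc, zero_smul]
  rw [← sub_eq_zero]
  apply nd
  intro x
  rw [sub_mul, map_sub, Finset.sum_mul, map_sum, sub_eq_zero]
  have h1 : ∀ k, t (t (a * b k) • b' k * x) = t (a * (t (b' k * x) • b k)) := by
    intro k
    rw [smul_mul_assoc, map_smul, mul_smul_comm, map_smul, smul_eq_mul, smul_eq_mul, mul_comm]
  rw [Finset.sum_congr rfl fun k _ => h1 k, ← map_sum, ← Finset.mul_sum, t1]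

/-- row CPT -/
theorem cpt : CptStmt := by
  intro R F V E S _ _ _ _ _ ℓ c o φ W _ z _ _ s hW
  classical
  letI hfJ : Fintype s.J := s.fJ
  set D := D1 o z s with hD
  have hact : ∀ e x, D.act e x = s.act e x := fun _ _ => rfl
  -- the action on `W`
  let rW : E → (W →* W) := fun e =>
    { toFun := fun w => ⟨φ e w, hW e w w.2⟩
      map_one' := Subtype.ext (by
        show φ e ((1 : W) : V) = 1
        rw [OneMemClass.coe_one, map_one])
      map_mul' := fun u w => Subtype.ext (by
        show φ e ((u * w : W) : V) = φ e u * φ e w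
        rw [Subgroup.coe_mul, map_mul]) }
  have hrW : ∀ e w, ((rW e w : W) : V) = φ e w := fun _ _ => rfl
  have hinv : ∀ e w, rW e (rW e⁻¹ w) = w := by
    intro e w
    apply Subtype.ext
    rw [hrW, hrW, ← MulAut.mul_apply, ← map_mul, mul_inv_cancel, map_one]
    rfl
  have hinv' : ∀ e w, rW e⁻¹ (rW e w) = w := by
    intro e w
    have := hinv e⁻¹ w
    rwa [inv_inv] at this
  have hbij : ∀ e, Function.Bijective (rW e) := fun e =>
    ⟨fun u w h => by rw [← hinv' e u, h, hinv'], fun w => ⟨rW e⁻¹ w, hinv e w⟩⟩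
  have hom : ∀ e w, s.act e (s.om w) = s.om (rW e w) := fun e w => s.om_act e w _ (hrW e w)
  -- the form
  let t : CP D →ₗ[R] R :=
    { toFun := fun a => s.t (a.f 1)
      map_add' := fun a b => by rw [CP.add_f, map_add]
      map_smul' := fun r a => by rw [CP.smul_f, map_smul, RingHom.id_apply] }
  have ht : ∀ a, t a = s.t (a.f 1) := fun _ => rfl
  have ts : ∀ x y, t (x * y) = t (y * x) := by
    intro x y
    rw [ht, ht, CP.mul_f, CP.mul_f, map_sum, map_sum,
      ← Equiv.sum_comp (Equiv.inv E) (fun h => s.t ((D.c h (h⁻¹ * 1) : R) •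
        (y.f h * D.act h (x.f (h⁻¹ * 1)))))]
    refine Finset.sum_congr rfl fun h _ => ?_
    show s.t ((D.c h (h⁻¹ * 1) : R) • (x.f h * D.act h (y.f (h⁻¹ * 1)))) =
      s.t ((D.c h⁻¹ (h⁻¹⁻¹ * 1) : R) • (y.f h⁻¹ * D.act h⁻¹ (x.f (h⁻¹⁻¹ * 1))))
    rw [mul_one, mul_one, inv_inv, map_smul, map_smul, CP.c_inv_symm]
    congr 1
    have h1 : s.act h (y.f h⁻¹ * D.act h⁻¹ (x.f h)) = s.act h (y.f h⁻¹) * x.f h := by
      rw [map_mul]
      congr 1
      show s.act h (s.act h⁻¹ (x.f h)) = x.f h
      rw [← AlgEquiv.mul_apply, ← map_mul, mul_inv_cancel, map_one]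
      rfl
    rw [← s.t_act h (y.f h⁻¹ * D.act h⁻¹ (x.f h)), h1, mul_comm]
    rfl
  -- the families
  let om : W →* CP D := (CP.iS D).toMonoidHom.comp s.om
  have homD : ∀ w, om w = CP.iS D (s.om w) := fun _ => rfl
  let x : s.J × E → CP D := fun i => CP.sn D (s.y i.1) i.2
  let x' : s.J × E → CP D := fun i => ni D i.2 * CP.iS D (s.y' i.1)
  have hx : ∀ (i : s.J × E) (w : W), x i * om w = CP.sn D (s.y i.1 * s.om (rW i.2 w)) i.2 := by
    intro i w
    show CP.sn D (s.y i.1) i.2 * CP.iS D (s.om w) = _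
    rw [sn_iS, hact, hom]
  have key : ∀ (i : s.J × E) (w : W) (b : S) (g : E), t (om w⁻¹ * x' i * CP.sn D b g) =
      if g = i.2 then s.t (s.om (rW g w)⁻¹ * s.y' i.1 * b) else 0 := by
    intro i w b g
    have e1 : om w⁻¹ * x' i * CP.sn D b g =
        (CP.iS D (s.om w⁻¹) * ni D i.2) * (CP.iS D (s.y' i.1) * CP.sn D b g) := by
      show CP.iS D (s.om w⁻¹) * (ni D i.2 * CP.iS D (s.y' i.1)) * CP.sn D b g = _
      simp only [mul_assoc]
    rw [e1, ts, iS_sn, ← mul_assoc, sn_iS, ht, sn_ni_f, hact, hom, map_inv]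
    by_cases h : g = i.2
    · rw [if_pos h, if_pos h]
      congr 1
      ring
    · rw [if_neg h, if_neg h, map_zero]
  have t1 : ∀ a, ∑ i, ∑ w, t (om w⁻¹ * x' i * a) • (x i * om w) = a := by
    intro a
    have h0 : ∀ b g, ∑ i, ∑ w, t (om w⁻¹ * x' i * CP.sn D b g) • (x i * om w) =
        CP.sn D b g := by
      intro b g
      rw [Fintype.sum_prod_type, Finset.sum_comm, Finset.sum_eq_single g]
      · have h2 : ∀ j, ∑ w, t (om w⁻¹ * x' (j, g) * CP.sn D b g) • (x (j, g) * om w) =
            CP.sn D (∑ w, s.t (s.om w⁻¹ * s.y' j * b) • (s.y j * s.om w)) g := by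
          intro j
          rw [← Equiv.sum_comp (Equiv.ofBijective _ (hbij g))
            (fun w => s.t (s.om w⁻¹ * s.y' j * b) • (s.y j * s.om w))]
          have h3 : ∀ (κ : Type) (u : Finset κ) (f : κ → S),
              CP.sn D (∑ k ∈ u, f k) g = ∑ k ∈ u, CP.sn D (f k) g := by
            intro κ u f
            induction u using Finset.induction_on with
            | empty => rw [Finset.sum_empty, Finset.sum_empty, CP.sn_zero]
            | insert k u hk ih => rw [Finset.sum_insert hk, Finset.sum_insert hk, CP.sn_add, ih]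
          rw [h3]
          refine Finset.sum_congr rfl fun w _ => ?_
          rw [key, if_pos rfl, hx, CP.sn_smul]
          rfl
        have h4 : ∀ (κ : Type) (u : Finset κ) (f : κ → S),
            CP.sn D (∑ k ∈ u, f k) g = ∑ k ∈ u, CP.sn D (f k) g := by
          intro κ u f
          induction u using Finset.induction_on with
          | empty => rw [Finset.sum_empty, Finset.sum_empty, CP.sn_zero]
          | insert k u hk ih => rw [Finset.sum_insert hk, Finset.sum_insert hk, CP.sn_add, ih]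
        rw [Finset.sum_congr rfl fun j _ => h2 j, ← h4, s.h1]
      · intro e _ he
        refine Finset.sum_eq_zero fun j _ => Finset.sum_eq_zero fun w _ => ?_
        rw [key, if_neg (Ne.symm he), zero_smul]
      · intro h
        exact absurd (Finset.mem_univ _) h
    have h1 : ∀ i w, t (om w⁻¹ * x' i * a) • (x i * om w) =
        ∑ g, t (om w⁻¹ * x' i * CP.sn D (a.f g) g) • (x i * om w) := by
      intro i w
      conv_lhs => rw [← CP.sum_sn a]
      rw [Finset.mul_sum, map_sum, Finset.sum_smul]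
    rw [Finset.sum_congr rfl fun i _ => Finset.sum_congr rfl fun w _ => h1 i w]
    rw [Finset.sum_congr rfl fun i _ => Finset.sum_comm, Finset.sum_comm,
      Finset.sum_congr rfl fun g _ => h0 (a.f g) g, CP.sum_sn]
  refine ⟨s.J × E, inferInstance, {
    t := t
    ts := ts
    om := om
    x := x
    x' := x'
    t1 := t1
    t2 := ?_
    du := ?_
    ph := fun i => rW i.2⁻¹
    phb := fun i => hbij _
    nrm := ?_ }, fun _ => rfl, fun _ => rfl⟩
  · intro a
    have h1 := t2_of_t1 t ts (fun k : (s.J × E) × W => x k.1 * om k.2)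
      (fun k => om k.2⁻¹ * x' k.1) (fun a => by
        rw [Fintype.sum_prod_type]
        exact t1 a) a
    rw [Fintype.sum_prod_type] at h1
    exact h1
  · intro i j u v
    rw [hx, key]
    by_cases he : i.2 = j.2
    · rw [if_pos he.symm, s.du]
      by_cases h : i.1 = j.1 ∧ rW j.2 u = rW j.2 v
      · rw [if_pos h, if_pos ⟨Prod.ext h.1 he, (hbij _).1 h.2⟩]
      · rw [if_neg h, if_neg]
        rintro ⟨h1, h2⟩
        exact h ⟨by rw [h1], by rw [h2]⟩
    · rw [if_neg (Ne.symm he), if_neg]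
      rintro ⟨h1, -⟩
      exact he (by rw [h1])
  · intro i w
    rw [hx]
    show CP.iS D (s.om w) * CP.sn D (s.y i.1) i.2 = _
    rw [iS_sn, hinv, mul_comm]

end Pool.Agent.PFD.D3.H91
end
end -- Pool.Agent.Helper91_PFD.CPT

section -- Pool.Agent.Helper91_PFD.CPZ

/-!
# Squad PFD, row CPZ: the centre lifts
-/

set_option autoImplicit false

open scoped BigOperators

noncomputable section

namespace Pool.Agent.PFD.D3.H91

open Pool.Agent.PFD.CP

/-- row CPZ -/
theorem cpz : CpzStmt := by
  intro R F V E S _ _ _ _ _ ℓ c o φ W _ z _ _ s fb hfb hE a ha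
  classical
  rw [Subalgebra.mem_center_iff] at ha
  -- the annihilators
  have h1 : ∀ e, ∀ u : V, MonoidAlgebra.of F V (φ e u) * a.f e = MonoidAlgebra.of F V u * a.f e := by
    intro e u
    have h2 := congrArg (fun x : CP (D0 φ z) => x.f e) (ha (CP.iS (D0 φ z) (MonoidAlgebra.of F V u)))
    have h3 : (CP.iS (D0 φ z) (MonoidAlgebra.of F V u) * a).f e =
        MonoidAlgebra.of F V u * a.f e := by
      rw [CP.iS_apply, CP.sn_mul_f, (D0 φ z).one_left, Units.val_one, one_smul, map_one, inv_one,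
        one_mul]
      rfl
    have h4 : (a * CP.iS (D0 φ z) (MonoidAlgebra.of F V u)).f e =
        a.f e * MonoidAlgebra.of F V (φ e u) := by
      conv_lhs => rw [← CP.sum_sn a]
      rw [Finset.sum_mul, CP.sum_f, Finset.sum_eq_single e]
      · rw [sn_iS, CP.sn_f, if_pos rfl]
        show a.f e * acV F φ e (MonoidAlgebra.single u 1) = _
        rw [acV_single]
        rfl
      · intro g _ hg
        rw [sn_iS, CP.sn_f, if_neg (Ne.symm hg)]
      · intro h
        exact absurd (Finset.mem_univ _) h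
    have h5 : MonoidAlgebra.of F V u * a.f e = a.f e * MonoidAlgebra.of F V (φ e u) := by
      rw [← h3, ← h4]
      exact h2
    rw [h5, mul_comm]
  choose y hy1 hy2 using fun e => s.ann e (a.f e) (h1 e)
  let D := D1 o z s
  let b0 : CP D := ⟨y⟩
  have hb0 : ∀ x, CP.iS D x * b0 = b0 * CP.iS D x := by
    intro x
    rw [← CP.sum_sn b0, Finset.mul_sum, Finset.sum_mul]
    refine Finset.sum_congr rfl fun e _ => ?_
    rw [iS_sn, sn_iS]
    congr 1
    show x * y e = y e * s.act e x
    rw [mul_comm (y e), hy2]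
  have hq0 : fb.q b0 = a := by
    apply CP.ext
    funext e
    rw [hfb]
    exact hy1 e
  -- the average
  have hcard : IsUnit ((Fintype.card E : ℕ) : R) := by
    apply c.loc
    rw [map_natCast]
    exact hE
  obtain ⟨r, hr⟩ := hcard.exists_left_inv
  let b1 : CP D := ∑ g, CP.n D g * b0 * ni D g
  have hb1s : ∀ x, CP.iS D x * b1 = b1 * CP.iS D x := by
    intro x
    show CP.iS D x * ∑ g, CP.n D g * b0 * ni D g = (∑ g, CP.n D g * b0 * ni D g) * CP.iS D x
    rw [Finset.mul_sum, Finset.sum_mul]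
    refine Finset.sum_congr rfl fun g _ => ?_
    have e1 : D.act g (D.act g⁻¹ x) = x := by
      rw [← AlgEquiv.mul_apply, ← map_mul, mul_inv_cancel, map_one]
      rfl
    have e2 : CP.iS D x * CP.n D g = CP.n D g * CP.iS D (D.act g⁻¹ x) := by
      rw [CP.n_mul_iS, e1]
    have e3 : ni D g * CP.iS D x = CP.iS D (D.act g⁻¹ x) * ni D g := by
      rw [iS_ni, e1]
    calc CP.iS D x * (CP.n D g * b0 * ni D g)
        = CP.iS D x * CP.n D g * b0 * ni D g := by simp only [mul_assoc]
      _ = CP.n D g * (CP.iS D (D.act g⁻¹ x) * b0) * ni D g := by rw [e2]; simp only [mul_assoc]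
      _ = CP.n D g * b0 * (CP.iS D (D.act g⁻¹ x) * ni D g) := by rw [hb0]; simp only [mul_assoc]
      _ = CP.n D g * b0 * ni D g * CP.iS D x := by rw [← e3]; simp only [mul_assoc]
  have hb1n : ∀ h, CP.n D h * b1 = b1 * CP.n D h := by
    intro h
    show CP.n D h * ∑ g, CP.n D g * b0 * ni D g = (∑ g, CP.n D g * b0 * ni D g) * CP.n D h
    rw [Finset.mul_sum, Finset.sum_mul, ← Equiv.sum_comp (Equiv.mulLeft h)
      (fun g => CP.n D g * b0 * ni D g * CP.n D h)]
    refine Finset.sum_congr rfl fun g _ => ?_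
    show CP.n D h * (CP.n D g * b0 * ni D g) = CP.n D (h * g) * b0 * ni D (h * g) * CP.n D h
    rw [mul_assoc _ (ni D (h * g)), ni_mul_n, mul_smul_comm, ← mul_assoc, ← mul_assoc,
      CP.n_mul_n, smul_mul_assoc, smul_mul_assoc]
  refine ⟨r • b1, mem_center D _ ?_ ?_, ?_⟩
  · intro x
    rw [mul_smul_comm, smul_mul_assoc, hb1s]
  · intro e
    rw [mul_smul_comm, smul_mul_assoc, hb1n]
  · have h2 : fb.q b1 = (Fintype.card E) • a := by
      show fb.q (∑ g, CP.n D g * b0 * ni D g) = _
      rw [map_sum]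
      have h3 : ∀ g, fb.q (CP.n D g * b0 * ni D g) = a := by
        intro g
        rw [map_mul, map_mul, hq0, ha, mul_assoc, ← map_mul, n_ni, map_one, mul_one]
      rw [Finset.sum_congr rfl fun g _ => h3 g, Finset.sum_const, Finset.card_univ]
    rw [Algebra.smul_def, map_mul, fb.sc, h2, ← Algebra.smul_def, ← Nat.cast_smul_eq_nsmul F,
      smul_smul, ← map_natCast c.κ, ← map_mul, hr, map_one, one_smul]

end Pool.Agent.PFD.D3.H91
end
end -- Pool.Agent.Helper91_PFD.CPZ

section -- Pool.Agent.Helper95_PFD.FTS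

/-! Squad PFD, row FTS (D3, ord 313). -/

open scoped BigOperators

namespace Pool.Agent.PFD.H95

open Pool.Agent.PFD Pool.Agent.PFD.D3

theorem fts : FtsStmt := by
  classical
  intro F V E _ _ _ _ φ z hz
  have h1 : ∀ v : V, z.coeff v = z.coeff 1 := by
    intro v
    have h := congrArg (fun x : MonoidAlgebra F V => x.coeff v) (hz v)
    simp only [MonoidAlgebra.of_apply] at h
    rw [MonoidAlgebra.coeff_single_mul_apply, one_mul, inv_mul_cancel] at h
    exact h.symm
  have h2 : z = z.coeff 1 • ∑ u : V, MonoidAlgebra.of F V u := by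
    ext v
    rw [MonoidAlgebra.coeff_smul_apply, MonoidAlgebra.coeff_sum, Finset.sum_apply', h1 v]
    simp [MonoidAlgebra.of_apply, Finsupp.single_apply]
  refine ⟨⟨z.coeff 1, h2⟩, ?_⟩
  intro e
  rw [h2, map_smul, map_sum]
  congr 1
  have h3 : ∀ u : V, acV F φ e (MonoidAlgebra.of F V u) = MonoidAlgebra.of F V (φ e u) := by
    intro u
    rw [MonoidAlgebra.of_apply, MonoidAlgebra.of_apply, acV_single]
  simp_rw [h3]
  exact Equiv.sum_comp (φ e : V ≃* V).toEquiv (fun u => MonoidAlgebra.of F V u)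

end Pool.Agent.PFD.H95
end -- Pool.Agent.Helper95_PFD.FTS

section -- Pool.Agent.Helper18_PFD.AsmD3

/-!
Squad PFD, block D3 (helper18): assembly, the output `BoxStmt`, closed.
-/

set_option autoImplicit false

namespace Pool.Agent.PFD.D3.H18

theorem glx : GlxStmt :=
  H76.glx
    (Pool.Agent.PFD.H48.coo Pool.Agent.PFC.H92.avg Pool.Agent.PFC.B3.H47.spn
      Pool.Agent.PFC.B3.H20.cnt Pool.Agent.PFC.B3.H81.nky)
    (H17.qua (H10.rep Pool.Agent.PFD.D2.H10.sug) (H75.rel H35.pac)
      (H60.gbs (H1.gbj Pool.Agent.PFD.D2.H49.ung)))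
    H86.rho (H63.acr H35.pac) (H90.eud H35.pac) H70.epn
    (tsr H35.pac H41.grm Pool.Agent.PFD.H95.fts) (H70.sgm Pool.Agent.PFD.H95.fts)

theorem sox' (hA : AnwStmt) : SoxStmt :=
  H31.sox H65.rsu glx H19.acw H35.fbw H84.tsw Pool.Agent.PFD.H25.dvw Pool.Agent.PFD.H53.nlw hA

theorem box' (hA : AnwStmt) : BoxStmt :=
  Pool.Agent.PFD.H13.box (sox' hA) H65.cpb H44.cpf H91.cpt H51.cpe H60.cpn H91.cpz

theorem sox : SoxStmt := sox' H75.anw

theorem box : BoxStmt := box' H75.anw

end Pool.Agent.PFD.D3.H18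
end -- Pool.Agent.Helper18_PFD.AsmD3
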