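import Pool.Agent.Helper12_AWB.B013

/-!
# Merged copies (generated) of the modules

* `Pool.Agent.PFC.B4.Psx_h10`
* `Pool.Agent.Helper41_PFC.PSM`
* `Pool.Agent.PFC.B5.CUG_49`
* `Pool.Agent.PFD.StmtsD6b`
* `Pool.Agent.Helper30_PFD.COT`
* `Pool.Agent.Helper77_PFC.TRSa`
* `Pool.Agent.Helper32_PFD.CPJ`
* `Pool.Agent.Helper33_PFD.OMT`
* `Pool.Agent.Helper33_PFD.SPT`
* `Pool.Agent.Helper41_PFC.FDB`
* `Pool.Agent.PFC.B5.FVTa`
* `Pool.Agent.Helper47_PFD.HTW`
* `Pool.Agent.Helper47_PFD.ORB`
* `Pool.Agent.Helper59_PFD.CHS`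
* `Pool.Agent.Helper62_PFD.ALT`
* `Pool.Agent.Helper65_PFD.AVE`
* `Pool.Agent.Helper6_PFD.CAT`
* `Pool.Agent.Helper6_PFD.PRJ`
* `Pool.Agent.Helper6_PFD.QWF`
* `Pool.Agent.Helper6_PFD.TGT`
* `Pool.Agent.Helper79_PFD.RET`
* `Pool.Agent.Helper79_PFD.TXT`
* `Pool.Agent.Helper81_PFD.COC`
* `Pool.Agent.Helper79_PFD.TopD6`
* `Pool.Agent.Helper79_PFE.RowsN`
* `Pool.Agent.Helper79_PFE.Unn`
* `Pool.Agent.Helper79_PFE.TopN`
-/

set_option autoImplicit false

section -- Pool.Agent.PFC.B4.Psx_h10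

/-!
Squad PFC, row PSX of block B4: removal of the orbits of a frame whose stabiliser has Brauer
quotient zero.
-/

namespace Pool.Agent.PFC.H10

open MulAction

theorem psx_aux (ℓ : ℕ) [Fact ℓ.Prime] (F H M : Type) [Field F] [CharP F ℓ] [Group H] [Finite H]
    [AddCommGroup M] [Module F M] (ρ : H →* (M →ₗ[F] M)) (X : Subgroup H → Prop)
    (hH : IsPGroup ℓ H) (hab : ∀ x y : H, x * y = y * x) (n : ℕ) :
    ∀ (Ω : Type) [Fintype Ω] [MulAction H Ω] (b : Ω → M) (c : Ω → (M →ₗ[F] F)),
      Fintype.card Ω = n → IsFr ρ b c → (∀ ω : Ω, X (stabilizer H ω)) →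
      PS (fun K => X K ∧ ¬ Fx ρ K ≤ BK ρ K) ρ := by
  classical
  induction n using Nat.strong_induction_on with
  | _ n ih =>
    intro Ω _ _ b c hn hfr hX
    by_cases hall : ∀ ω : Ω, ¬ Fx ρ (stabilizer H ω) ≤ BK ρ (stabilizer H ω)
    · exact ⟨Ω, inferInstance, inferInstance, b, c, hfr, fun ω => ⟨hX ω, hall ω⟩⟩
    · obtain ⟨ω0, h0⟩ := not_forall.1 hall
      rw [not_not] at h0
      set K := stabilizer H ω0 with hK
      let O : Set Ω := orbit H ω0
      have hO : ∀ (h : H) (ω : Ω), h • ω ∈ O ↔ ω ∈ O := by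
        intro h ω
        constructor
        · rintro ⟨g, hg⟩
          refine ⟨h⁻¹ * g, ?_⟩
          have hg' : g • ω0 = h • ω := hg
          change (h⁻¹ * g) • ω0 = ω
          rw [mul_smul, hg', inv_smul_smul]
        · rintro ⟨g, hg⟩
          refine ⟨h * g, ?_⟩
          have hg' : g • ω0 = ω := hg
          change (h * g) • ω0 = h • ω
          rw [mul_smul, hg']
      have hfix : ∀ ω ∈ O, ∀ k ∈ K, k • ω = ω := by
        rintro ω ⟨g, hg⟩ k hk
        have hg' : g • ω0 = ω := hg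
        rw [← hg', ← mul_smul, hab k g, mul_smul, mem_stabilizer_iff.1 hk]
      have hKp : IsPGroup ℓ K := hH.to_subgroup K
      have hz : ∀ ω ∈ O, ∀ ω1 ∈ O, c ω1 (b ω) = 0 := by
        intro ω hω ω1 hω1
        refine frame_BK hfr K hKp (h0 ?_) ω1 (hfix ω1 hω1)
        intro k hk
        rw [← hfr.1, hfix ω hω k hk]
      let T : Finset Ω := Finset.univ.filter (fun ω => ω ∈ O)
      have hT : ∀ ω, ω ∈ T ↔ ω ∈ O := fun ω => by simp [T]
      let x : M →ₗ[F] M := ∑ ω ∈ T, (c ω).smulRight (b ω)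
      have hx : ∀ m, x m = ∑ ω ∈ T, c ω m • b ω := by
        intro m
        simp only [x, LinearMap.sum_apply, LinearMap.smulRight_apply]
      have hxx : ∀ m, x (x m) = 0 := by
        intro m
        rw [hx (x m)]
        refine Finset.sum_eq_zero ?_
        intro ω1 hω1
        have : c ω1 (x m) = 0 := by
          rw [hx, map_sum]
          refine Finset.sum_eq_zero ?_
          intro ω hω
          rw [map_smul, hz ω ((hT ω).1 hω) ω1 ((hT ω1).1 hω1), smul_zero]
        rw [this, zero_smul]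
      have hxc : ∀ (h : H) m, x (ρ h m) = ρ h (x m) := by
        intro h m
        rw [hx, hx, map_sum]
        symm
        refine Finset.sum_bij (fun ω _ => h • ω) ?_ ?_ ?_ ?_
        · intro ω hω
          exact (hT _).2 ((hO h ω).2 ((hT ω).1 hω))
        · intro ω _ ω' _ hh
          exact smul_left_cancel h hh
        · intro ω hω
          refine ⟨h⁻¹ • ω, (hT _).2 ((hO h⁻¹ ω).2 ((hT ω).1 hω)), ?_⟩
          exact smul_inv_smul h ω
        · intro ω hω
          rw [map_smul, hfr.2.1, hfr.1]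
      let Ω' : Type := {ω : Ω // ω ∉ O}
      let inst : MulAction H Ω' :=
        { smul := fun h ω => ⟨h • ω.1, fun hc => ω.2 ((hO h ω.1).1 hc)⟩
          one_smul := fun ω => Subtype.ext (one_smul H ω.1)
          mul_smul := fun g h ω => Subtype.ext (mul_smul g h ω.1) }
      have hst : ∀ ω : Ω', stabilizer H ω = stabilizer H ω.1 := by
        intro ω
        ext h
        rw [mem_stabilizer_iff, mem_stabilizer_iff]
        constructor
        · intro hh
          exact congrArg Subtype.val hh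
        · intro hh
          exact Subtype.ext hh
      refine ih (Fintype.card Ω') ?_ Ω' (fun ω => b ω.1 + x (b ω.1)) (fun ω => c ω.1) rfl
        ⟨?_, ?_, ?_⟩ ?_
      · rw [← hn]
        refine Fintype.card_lt_of_injective_of_notMem (fun ω : Ω' => ω.1)
          Subtype.val_injective (b := ω0) ?_
        rintro ⟨ω, hω⟩
        have hω' : ω.1 = ω0 := hω
        exact ω.2 (hω' ▸ mem_orbit_self ω0)
      · intro h ω
        change b (h • ω.1) + x (b (h • ω.1)) = ρ h (b ω.1 + x (b ω.1))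
        rw [hfr.1, hxc, map_add]
      · intro h ω m
        exact hfr.2.1 h ω.1 m
      · intro m
        have h1 : ∑ ω : Ω', c ω.1 m • b ω.1 = m - x m := by
          have h2 : ∑ ω : Ω', c ω.1 m • b ω.1 = ∑ ω ∈ Tᶜ, c ω m • b ω := by
            symm
            refine Finset.sum_subtype Tᶜ ?_ (fun ω => c ω m • b ω)
            intro ω
            rw [Finset.mem_compl, hT]
          rw [h2, hx, eq_sub_iff_add_eq, Finset.sum_compl_add_sum, hfr.2.2]
        have h3 : ∑ ω : Ω', c ω.1 m • (b ω.1 + x (b ω.1)) =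
            ∑ ω : Ω', c ω.1 m • b ω.1 + x (∑ ω : Ω', c ω.1 m • b ω.1) := by
          rw [map_sum, ← Finset.sum_add_distrib]
          refine Finset.sum_congr rfl ?_
          intro ω _
          rw [smul_add, map_smul]
        rw [h3, h1, map_sub, hxx, sub_zero, sub_add_cancel]
      · intro ω
        rw [hst]
        exact hX ω.1

theorem psx : PsxStmt := by
  intro ℓ _ F H M _ _ _ _ _ _ ρ X hH hab hPS
  obtain ⟨Ω, i1, i2, b, c, hfr, hX⟩ := hPS
  exact psx_aux ℓ F H M ρ X hH hab (Fintype.card Ω) Ω b c rfl hfr hX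

end Pool.Agent.PFC.H10
end -- Pool.Agent.PFC.B4.Psx_h10

section -- Pool.Agent.Helper41_PFC.PSM

namespace Pool.Agent.PFC.H41

theorem psm : PsmStmt := by
  intro F H M N _ _ _ _ _ _ ρ σ X i p hi hp hpi hPS
  obtain ⟨Ω, iF, iA, b, c, hfr, hX⟩ := hPS
  refine ⟨Ω, iF, iA, fun ω => p (b ω), fun ω => (c ω).comp i, ⟨?_, ?_, ?_⟩, hX⟩
  · intro h ω
    show p (b (h • ω)) = σ h (p (b ω))
    rw [hfr.1, hp]
  · intro h ω n
    show c (h • ω) (i (σ h n)) = c ω (i n)
    rw [hi, hfr.2.1]
  · intro n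
    have h1 := congrArg p (hfr.2.2 (i n))
    rw [hpi, map_sum] at h1
    refine Eq.trans (Finset.sum_congr rfl ?_) h1
    intro ω _
    show c ω (i n) • p (b ω) = p (c ω (i n) • b ω)
    rw [map_smul]

end Pool.Agent.PFC.H41
end -- Pool.Agent.Helper41_PFC.PSM

section -- Pool.Agent.PFC.B5.CUG_49

/-!
Squad PFC, block B5a, rows CUGa, BKIa, NILa (helper49).
-/

namespace Pool.Agent.PFC.H49d

open Pool.Agent.PFC Pool.Agent.PFC.B5a

open scoped BigOperators

/-- BKI: the Brauer kernel is an ideal of the centraliser. -/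
theorem bki : BkiStmt := by
  intro F V A _ _ _ _ _ α Q
  classical
  have h1 : ∀ a : A, a ∈ Fx (cj F α) Q ↔ a ∈ Cz F α Q := by
    intro a
    rw [mem_Fx, Cz, Subalgebra.mem_centralizer_iff]
    have hu : ∀ h : V, α h⁻¹ * α h = 1 := by
      intro h
      rw [← map_mul, inv_mul_cancel, map_one]
    have hu' : ∀ h : V, α h * α h⁻¹ = 1 := by
      intro h
      rw [← map_mul, mul_inv_cancel, map_one]
    constructor
    · rintro h _ ⟨u, hu1, rfl⟩
      have h2 : α u * (a * α u⁻¹) = a := h u hu1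
      calc α u * a = α u * (a * (α u⁻¹ * α u)) := by rw [hu, mul_one]
        _ = (α u * (a * α u⁻¹)) * α u := by simp only [mul_assoc]
        _ = a * α u := by rw [h2]
    · intro h u hu1
      show α u * (a * α u⁻¹) = a
      have h2 : α u * a = a * α u := h (α u) ⟨u, hu1, rfl⟩
      rw [← mul_assoc, h2, mul_assoc, hu', mul_one]
  refine ⟨h1, ?_, ?_⟩
  · intro a ha
    exact (h1 a).1 (BK_le_Fx _ _ ha)
  · intro a ha n hn
    have hcom : ∀ u ∈ Q, α u * a = a * α u := by
      rw [Cz, Subalgebra.mem_centralizer_iff] at ha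
      intro u hu
      exact ha (α u) ⟨u, hu, rfl⟩
    have key : ∀ u ∈ Q, ∀ m : A, cj F α u (a * m) = a * cj F α u m ∧
        cj F α u (m * a) = cj F α u m * a := by
      intro u hu m
      have h3 : a * α u⁻¹ = α u⁻¹ * a := (hcom u⁻¹ (Q.inv_mem hu)).symm
      constructor
      · show α u * (a * m * α u⁻¹) = a * (α u * (m * α u⁻¹))
        calc α u * (a * m * α u⁻¹) = (α u * a) * (m * α u⁻¹) := by simp only [mul_assoc]
          _ = _ := by rw [hcom u hu, mul_assoc]
      · show α u * (m * a * α u⁻¹) = α u * (m * α u⁻¹) * a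
        rw [mul_assoc m, h3]
        simp only [mul_assoc]
    unfold BK at hn ⊢
    induction hn using Submodule.span_induction with
    | mem n hn =>
      obtain ⟨P', S, m, hlt, hS, hm, rfl⟩ := hn
      constructor
      · apply Submodule.subset_span
        refine ⟨P', S, a * m, hlt, hS, ?_, ?_⟩
        · intro u hu
          rw [(key u (hlt.le hu) m).1, hm u hu]
        · rw [Finset.mul_sum]
          exact Finset.sum_congr rfl (fun x hx => ((key x (hS.1 x hx) m).1).symm)
      · apply Submodule.subset_span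
        refine ⟨P', S, m * a, hlt, hS, ?_, ?_⟩
        · intro u hu
          rw [(key u (hlt.le hu) m).2, hm u hu]
        · rw [Finset.sum_mul]
          exact Finset.sum_congr rfl (fun x hx => ((key x (hS.1 x hx) m).2).symm)
    | zero =>
      rw [mul_zero, zero_mul]
      exact ⟨Submodule.zero_mem _, Submodule.zero_mem _⟩
    | add x y _ _ hx hy =>
      rw [mul_add, add_mul]
      exact ⟨Submodule.add_mem _ hx.1 hy.1, Submodule.add_mem _ hx.2 hy.2⟩
    | smul r x _ hx =>
      rw [mul_smul_comm, smul_mul_assoc]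
      exact ⟨Submodule.smul_mem _ _ hx.1, Submodule.smul_mem _ _ hx.2⟩

theorem sum_coe {F G : Type} [Field F] [Group G] [Fintype G] (x : MonoidAlgebra F G) :
    ∑ g : G, x.coeff g • MonoidAlgebra.of F G g = x := by
  classical
  ext g
  rw [MonoidAlgebra.coeff_sum, Finsupp.finsetSum_apply, Finset.sum_eq_single g]
  · rw [MonoidAlgebra.coeff_smul_apply, MonoidAlgebra.of_apply, MonoidAlgebra.coeff_single,
      Finsupp.single_eq_same, smul_eq_mul, mul_one]
  · intro h _ hh
    rw [MonoidAlgebra.coeff_smul_apply, MonoidAlgebra.of_apply, MonoidAlgebra.coeff_single,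
      Finsupp.single_eq_of_ne (Ne.symm hh), smul_zero]
  · intro h
    exact absurd (Finset.mem_univ g) h

/-- NIL: the augmentation ideal is nilpotent. -/
theorem nil : NilStmt := by
  intro ℓ _ F V _ _ _ _ hV
  classical
  have hchar : CharP (MonoidAlgebra F V) ℓ :=
    charP_of_injective_algebraMap (FaithfulSMul.algebraMap_injective F (MonoidAlgebra F V)) ℓ
  obtain ⟨k, hk⟩ := (IsPGroup.iff_card).1 hV
  have hau : ∀ u : V, au F V (MonoidAlgebra.of F V u) = 1 := by
    intro u
    show MonoidAlgebra.lift F F V 1 (MonoidAlgebra.of F V u) = 1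
    rw [MonoidAlgebra.lift_of]
    rfl
  have hspan : RingHom.ker (au F V) =
      Ideal.span (Set.range (fun u : V => MonoidAlgebra.of F V u - 1)) := by
    apply le_antisymm
    · intro x hx
      have hx0 : au F V x = 0 := hx
      have h1 : ∑ u : V, x.coeff u = 0 := by
        have h2 := congrArg (au F V) (sum_coe x)
        rw [map_sum, hx0] at h2
        rw [← h2]
        refine Finset.sum_congr rfl ?_
        intro u _
        rw [map_smul, hau, smul_eq_mul, mul_one]
      have h3 : x = ∑ u : V, x.coeff u • (MonoidAlgebra.of F V u - 1) := by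
        simp only [smul_sub]
        rw [Finset.sum_sub_distrib, sum_coe, ← Finset.sum_smul, h1, zero_smul, sub_zero]
      rw [h3]
      refine Ideal.sum_mem _ ?_
      intro u _
      rw [Algebra.smul_def]
      exact Ideal.mul_mem_left _ _ (Ideal.subset_span ⟨u, rfl⟩)
    · rw [Ideal.span_le]
      rintro _ ⟨u, rfl⟩
      show au F V (MonoidAlgebra.of F V u - 1) = 0
      rw [map_sub, hau, map_one, sub_self]
  have hfg : (RingHom.ker (au F V)).FG := by
    rw [hspan]
    exact ⟨(Set.finite_range _).toFinset, by rw [Set.Finite.coe_toFinset]⟩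
  have hnil : IsNilpotent (RingHom.ker (au F V)) := by
    rw [Ideal.FG.isNilpotent_iff_le_nilradical hfg, hspan, Ideal.span_le]
    rintro _ ⟨u, rfl⟩
    refine ⟨ℓ ^ k, ?_⟩
    rw [sub_pow_char_pow, one_pow, ← map_pow, ← hk, pow_card_eq_one', map_one, sub_self]
    exact Ideal.zero_mem _
  obtain ⟨N, hN⟩ := hnil
  exact ⟨N, hN⟩

/-- CUG: E(1) is a unit. -/
theorem cug : CugStmt := by
  intro hFVT ℓ _ F Γ B _ _ _ _ _ _ _ γ lam W hsym hnorm hne hp hcomm hfree hlam
  classical
  set c : B := Ee F γ lam 1 with hcdef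
  have hinv : ∀ g : Γ, γ g⁻¹ * γ g = 1 := fun g => by rw [← map_mul, inv_mul_cancel, map_one]
  have hinv' : ∀ g : Γ, γ g * γ g⁻¹ = 1 := fun g => by rw [← map_mul, mul_inv_cancel, map_one]
  have hconj : ∀ h g : Γ, lam (γ (h * g * h⁻¹)) = lam (γ g) := by
    intro h g
    rw [map_mul γ, map_mul γ, hsym, ← mul_assoc, hinv, one_mul]
  have hcγ : ∀ h : Γ, γ h * c = c * γ h := by
    intro h
    show γ h * (∑ g, lam (γ g⁻¹ * 1) • γ g) = (∑ g, lam (γ g⁻¹ * 1) • γ g) * γ h
    rw [Finset.mul_sum, Finset.sum_mul]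
    refine Fintype.sum_equiv (MulAut.conj h).toEquiv _ _ ?_
    intro g
    show γ h * (lam (γ g⁻¹ * 1) • γ g) = lam (γ (h * g * h⁻¹)⁻¹ * 1) • γ (h * g * h⁻¹) * γ h
    rw [mul_one, mul_one, mul_smul_comm, smul_mul_assoc, ← map_mul, ← map_mul,
      inv_mul_cancel_right]
    congr 1
    have : (h * g * h⁻¹)⁻¹ = h * g⁻¹ * h⁻¹ := by group
    rw [this, hconj]
  -- the coset decomposition
  have hbij : Function.Bijective (fun z : (Γ ⧸ W) × W => (z.1.out * (z.2 : Γ) : Γ)) := by
    constructor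
    · rintro ⟨q, w⟩ ⟨q', w'⟩ h
      have h' : q.out * (w : Γ) = q'.out * (w' : Γ) := h
      have hq : ∀ (q : Γ ⧸ W) (w : W), (QuotientGroup.mk (q.out * (w : Γ)) : Γ ⧸ W) = q := by
        intro q w
        rw [QuotientGroup.mk_mul_of_mem _ w.2]
        exact QuotientGroup.out_eq' q
      have h2 : q = q' := by rw [← hq q w, ← hq q' w', h']
      subst h2
      have h3 : (w : Γ) = w' := mul_left_cancel h'
      rw [Subtype.ext h3]
    · intro g
      have h1 : (QuotientGroup.mk g : Γ ⧸ W).out⁻¹ * g ∈ W := by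
        rw [← QuotientGroup.eq]
        exact QuotientGroup.out_eq' _
      exact ⟨(QuotientGroup.mk g, ⟨_, h1⟩), mul_inv_cancel_left _ _⟩
  have hinj : ∀ b : B, c * b = 0 → b = 0 := by
    by_contra hcon
    push Not at hcon
    obtain ⟨b0, hb0, hb0'⟩ := hcon
    let ρ : W →* (B →ₗ[F] B) :=
      { toFun := fun w => LinearMap.mulLeft F (γ w)
        map_one' := by
          ext x
          simp
        map_mul' := by
          intro x y
          ext z
          simp }
    let N : Submodule F B := LinearMap.ker (LinearMap.mulLeft F c)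
    have hN : N ≠ ⊥ := by
      intro h
      have h1 : b0 ∈ N := hb0
      rw [h] at h1
      exact hb0' ((Submodule.mem_bot F).1 h1)
    obtain ⟨b, hbN, hb1, hb2⟩ := hFVT ℓ F W B ρ N hp (by
      intro h m hm
      have hm' : c * m = 0 := hm
      show c * (γ h * m) = 0
      rw [← mul_assoc, ← hcγ, mul_assoc, hm', mul_zero]) hN
    have hfix : ∀ w ∈ W, γ w * b = b := fun w hw => hb2 ⟨w, hw⟩ (Subgroup.mem_top _)
    have hcb : c * b = 0 := hbN
    -- the conjugation trick
    have htw : ∀ t, t ∉ W → ∀ w ∈ W, lam (γ (t * w)⁻¹) = lam (γ t⁻¹) := by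
      intro t ht w hw
      let φ : W → W := fun x => ⟨t⁻¹ * x * t * (x : Γ)⁻¹, W.mul_mem (by
        have := hnorm.conj_mem x x.2 t⁻¹
        rwa [inv_inv] at this) (W.inv_mem x.2)⟩
      have hφi : Function.Injective φ := by
        intro x v hxv
        have h1 : t⁻¹ * x * t * (x : Γ)⁻¹ = t⁻¹ * v * t * (v : Γ)⁻¹ := congrArg Subtype.val hxv
        have hcxv : (x : Γ)⁻¹ * v = v * (x : Γ)⁻¹ := hcomm _ (W.inv_mem x.2) _ v.2
        have h2 : t * ((v : Γ)⁻¹ * x) = ((v : Γ)⁻¹ * x) * t := by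
          have h3 : (x : Γ) * t * (x : Γ)⁻¹ = v * t * (v : Γ)⁻¹ := by
            have := congrArg (fun y => t * y) h1
            simpa [mul_assoc] using this
          have h4 : (v : Γ)⁻¹ * x * t = t * ((v : Γ)⁻¹ * x) := by
            calc (v : Γ)⁻¹ * x * t = (v : Γ)⁻¹ * (x * t * (x : Γ)⁻¹) * x := by group
              _ = (v : Γ)⁻¹ * (v * t * (v : Γ)⁻¹) * x := by rw [h3]
              _ = t * ((v : Γ)⁻¹ * x) := by group
          exact h4.symm
        have h5 := hfree t ht _ (W.mul_mem (W.inv_mem v.2) x.2) h2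
        exact Subtype.ext (inv_mul_eq_one.1 h5).symm
      obtain ⟨x, hx⟩ := (Finite.injective_iff_surjective.1 hφi) ⟨w, hw⟩
      have hx' : t⁻¹ * x * t * (x : Γ)⁻¹ = w := congrArg Subtype.val hx
      have h6 : (t * w)⁻¹ = x * t⁻¹ * (x : Γ)⁻¹ := by
        rw [← hx']
        group
      rw [h6, hconj]
    -- the sum
    have hcard : ((Fintype.card W : ℕ) : F) = 0 := by
      obtain ⟨k, hk⟩ := (IsPGroup.iff_card).1 hp
      rw [Nat.card_eq_fintype_card] at hk
      have hk0 : k ≠ 0 := by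
        rintro rfl
        rw [pow_zero] at hk
        apply hne
        rw [← Subgroup.card_eq_one, Nat.card_eq_fintype_card]
        exact hk
      rw [hk, Nat.cast_pow, CharP.cast_eq_zero, zero_pow hk0]
    have hsum : c * b = lam (∑ w : W, γ w) • b := by
      have h1 : c * b = ∑ g, lam (γ g⁻¹) • (γ g * b) := by
        show (∑ g, lam (γ g⁻¹ * 1) • γ g) * b = _
        rw [Finset.sum_mul]
        refine Finset.sum_congr rfl ?_
        intro g _
        rw [mul_one, smul_mul_assoc]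
      rw [h1, ← hbij.sum_comp, Fintype.sum_prod_type, Finset.sum_eq_single (1 : Γ ⧸ W)]
      · have hout : (1 : Γ ⧸ W).out ∈ W := by
          rw [← QuotientGroup.eq_one_iff]
          exact QuotientGroup.out_eq' _
        have h2 : ∀ w : W, lam (γ ((1 : Γ ⧸ W).out * (w : Γ))⁻¹) •
            (γ ((1 : Γ ⧸ W).out * (w : Γ)) * b) =
            lam (γ ((1 : Γ ⧸ W).out * (w : Γ))⁻¹) • b := by
          intro w
          rw [hfix _ (W.mul_mem hout w.2)]
        rw [Finset.sum_congr rfl (fun w _ => h2 w), ← Finset.sum_smul, map_sum]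
        congr 1
        have e : W ≃ W := (Equiv.mulLeft (⟨_, hout⟩ : W)).trans (Equiv.inv W)
        refine Fintype.sum_equiv ((Equiv.mulLeft (⟨_, hout⟩ : W)).trans (Equiv.inv W)) _ _ ?_
        intro w
        rfl
      · intro q _ hq
        have hout : q.out ∉ W := by
          intro h
          apply hq
          have := (QuotientGroup.eq_one_iff (N := W) q.out).2 h
          rw [← this]
          exact (QuotientGroup.out_eq' q).symm
        have h2 : ∀ w : W, lam (γ (q.out * (w : Γ))⁻¹) • (γ (q.out * (w : Γ)) * b) =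
            lam (γ (q.out)⁻¹) • (γ q.out * b) := by
          intro w
          rw [htw _ hout w w.2, map_mul, mul_assoc, hfix _ w.2]
        rw [Finset.sum_congr rfl (fun w _ => h2 w), Finset.sum_const, Finset.card_univ,
          ← Nat.cast_smul_eq_nsmul F, hcard, zero_smul]
      · intro h
        exact absurd (Finset.mem_univ _) h
    rw [hcb] at hsum
    rw [finsum_eq_sum_of_fintype] at hlam
    rcases smul_eq_zero.1 hsum.symm with h | h
    · exact hlam h
    · exact hb1 h
  -- the inverse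
  let L : Submodule F B := Submodule.span F (Set.range γ)
  have hcL : ∀ x ∈ L, c * x ∈ L := by
    intro x hx
    induction hx using Submodule.span_induction with
    | mem x hx =>
      obtain ⟨h, rfl⟩ := hx
      show (∑ g, lam (γ g⁻¹ * 1) • γ g) * γ h ∈ L
      rw [Finset.sum_mul]
      refine Submodule.sum_mem _ ?_
      intro g _
      rw [smul_mul_assoc, ← map_mul]
      exact Submodule.smul_mem _ _ (Submodule.subset_span ⟨_, rfl⟩)
    | zero =>
      rw [mul_zero]
      exact Submodule.zero_mem _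
    | add x y _ _ hx hy =>
      rw [mul_add]
      exact Submodule.add_mem _ hx hy
    | smul r x _ hx =>
      rw [mul_smul_comm]
      exact Submodule.smul_mem _ _ hx
  let T : L →ₗ[F] L := (LinearMap.mulLeft F c).restrict hcL
  have hTi : Function.Injective T := by
    intro x y hxy
    have h1 : c * (x : B) = c * (y : B) := congrArg Subtype.val hxy
    have h2 : c * ((x : B) - y) = 0 := by rw [mul_sub, h1, sub_self]
    exact Subtype.ext (sub_eq_zero.1 (hinj _ h2))
  have hTs : Function.Surjective T := LinearMap.surjective_of_injective hTi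
  have h1L : (1 : B) ∈ L := Submodule.subset_span ⟨1, map_one γ⟩
  obtain ⟨c', hc'⟩ := hTs ⟨1, h1L⟩
  have hr : c * (c' : B) = 1 := congrArg Subtype.val hc'
  refine ⟨c', ?_, hr, ?_, c'.2⟩
  · have h2 : c * ((c' : B) * c - 1) = 0 := by
      rw [mul_sub, ← mul_assoc, hr, one_mul, mul_one, sub_self]
    exact sub_eq_zero.1 (hinj _ h2)
  · intro g
    have h2 : c * ((c' : B) * γ g - γ g * c') = 0 := by
      rw [mul_sub, ← mul_assoc, hr, one_mul, ← mul_assoc, ← hcγ, mul_assoc, hr, mul_one, sub_self]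
    exact sub_eq_zero.1 (hinj _ h2)

end Pool.Agent.PFC.H49d
end -- Pool.Agent.PFC.B5.CUG_49

section -- Pool.Agent.PFD.StmtsD6b

/-!
# Squad PFD, block D6 (helper79): statements

* Part 1: the twisted group algebra inside `A`: COC, TGT, CHS.
* Part 2: the central unit and the retraction: COT, PRJ, RET.
* Part 3: combinatorics of the frame: OMT, ORB.
* Part 4: right projectivity, Casimir element, separability: ALT, AVE, CAT, UNL, SPT, CVS.
* Part 5: the `W`-relative form of the complement: HTW.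
* Part 6: assembly: CPJ, TXT.

`g = gg α n`, `g' = gg' α n'` are `α v * n e` and `n' e * α v⁻¹`.
-/

open scoped BigOperators

noncomputable section

namespace Pool.Agent.PFD.D6

open Pool.Agent.PFC
open Pool.Agent.PFC.B5a (FvtStmt TrsStmt BkiStmt FdbStmt Du)

/-! ## Part 1 -/

/-- COC: the scalars form a normalised cocycle.

Proof.  `n e` is a unit and `A` is not trivial, so `c e f ≠ 0` (otherwise `n e * n f = 0`), and
`a • n e = b • n e` implies `a = b`.  `n 1 = 1` gives `c 1 e = c e 1 = 1`.  Associativity of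
`n e * n f * n g` gives the cocycle identity. -/
def CocStmt : Prop := ∀ (F V E A : Type) [Field F] [CommGroup V] [Group E] [Ring A]
  [Nontrivial A] [Algebra F A] (φ : E →* MulAut V) (α : V →* A) (n n' : E → A) (c : E → E → F),
  Unt φ α n n' c → ∃ z : Coc F E, ∀ e f, (z.c e f : F) = c e f

/-- TGT: the twisted group algebra in `A` and its Casimir element.

Proof.  `n e * α u = α (φ e u) * n e`, `n e * n f = c e f • n (e * f)`, `n 1 = 1`, so the span of the
`α v * n e` is a subalgebra `S`.  `c e f ≠ 0` (see COC).  `n' e = (c e⁻¹ e)⁻¹ • n e⁻¹` (from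
`n e⁻¹ * n e = c e⁻¹ e • 1`), so `g' (v, e) ∈ S`.  Let `(v,e)(u,f) = (v φ e u, e f)`; then
`g p * g q = c • g (p q)` and `g' (p q) = c • g' q * g' p` with `c = c e f`.
`cs1`: it is linear in `s`, so let `s = g h`; put `p = h k`: `g' (h k) * g h = c • g' k`,
`g (h k) = c⁻¹ • g h * g k`.  (It is enough to do this for `s = α u` and for `s = n f`: the set of the
`s` with `cs1` for all `T` is closed under sums, scalar multiples and products.)  `cs2`: the same
with `p = k h`.  `cs3`: replace `p` by `p⁻¹`: `g p⁻¹ = c • g' p`, `g' p⁻¹ = c⁻¹ • g p`, `c = c e e⁻¹`. -/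
def TgtStmt : Prop := ∀ (F V E A : Type) [Field F] [CommGroup V] [Fintype V] [Group E]
  [Fintype E] [Ring A] [Nontrivial A] [Algebra F A] (φ : E →* MulAut V) (α : V →* A)
  (n n' : E → A) (c : E → E → F), Unt φ α n n' c →
  ∃ S : Subalgebra F A, Tg F S (gg α n) (gg' α n') ∧ (∀ u, α u ∈ S) ∧ ∀ e, n e ∈ S

/-- CHS: sums over cosets vanish.

Proof.  For `w ∈ V` put `f w = lam (α w * x)`, `x = n' e` or `x = n e`, `e ≠ 1`.  For `v ∈ V`:
`f w = lam (α v * (α w * n' e) * α v⁻¹)`, `n' e * α v⁻¹ = α (φ e⁻¹ v⁻¹) * n' e`, so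
`f w = f (w * v * φ e⁻¹ v⁻¹)`.  `E` acts faithfully (`Ctf.nt`, `Ctf.free`), so there is `v` with
`k = v * φ e⁻¹ v⁻¹ ≠ 1`; `f` is invariant under the subgroup generated by `k`, whose order is a
power of `ℓ`, not `1`, so `∑ f w = 0`.  The same for `n e`. -/
def ChsStmt : Prop := ∀ (F V E A : Type) [Field F] [CommGroup V] [Fintype V] [Group E]
  [Ring A] [Algebra F A] (ℓ : ℕ) [CharP F ℓ] (φ : E →* MulAut V) (W : Subgroup V)
  (α : V →* A) (n n' : E → A) (c : E → E → F) (lam : A →ₗ[F] F), Ctf ℓ φ W →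
  Unt φ α n n' c → (∀ a b, lam (a * b) = lam (b * a)) →
  ∀ e, e ≠ 1 → ∑ w, lam (α w * n' e) = 0 ∧ ∑ w, lam (α w * n e) = 0

/-! ## Part 2 -/

/-- COT: `Ev 1` is a unit.

Proof.  Let `c0 = Ev 1 = ∑ lam (g' p) • g p`.  By `cs1`, the symmetry of `lam` and `cs2`:
`s * c0 = ∑ lam (g' p * s) • g p = ∑ lam (s * g' p) • g p = c0 * s` for `s ∈ S`.  Let
`N = {b | c0 * b = 0}`; it is stable under left multiplication by `S`, so if `N ≠ 0` there is `b ∈ N`,
`b ≠ 0`, with `α u * b = b` for all `u` (FVT for the group `V`, `ρ u` the left multiplication by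
`α u`).  `g (v, e) * b = α v * n e * b = n e * α (φ e⁻¹ v) * b = n e * b`, so
`0 = c0 * b = ∑_e (∑_v lam (n' e * α v⁻¹)) • n e * b`.  For `e ≠ 1` the coefficient is `0` (CHS, symmetry
of `lam`), for `e = 1` it is `lam (∑ α v) ≠ 0` (`n' 1 = 1`).  So `b = 0`, a contradiction.  The map
`x ↦ c0 * x` on the finite-dimensional space `S` is injective, so there is `c' ∈ S` with
`c0 * c' = 1`; also `c' * c0 = 1` (`c0 * (c' * c0 - 1) = 0`), and `c'` commutes with `S`. -/
def CotStmt : Prop := FvtStmt → ChsStmt → ∀ (F V E A : Type) [Field F] [CommGroup V]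
  [Fintype V] [Group E] [Fintype E] [Ring A] [Algebra F A] [FiniteDimensional F A] (ℓ : ℕ)
  [CharP F ℓ] (φ : E →* MulAut V) (W : Subgroup V) (α : V →* A) (n n' : E → A)
  (c : E → E → F) (lam : A →ₗ[F] F) (S : Subalgebra F A), Ctf ℓ φ W → Unt φ α n n' c →
  (∀ a b, lam (a * b) = lam (b * a)) → lam (∑ u, α u) ≠ 0 →
  Tg F S (gg α n) (gg' α n') → (∀ u, α u ∈ S) → (∀ e, n e ∈ S) →
  ∃ c', Cg F S (gg α n) (gg' α n') lam c'

/-- PRJ: the projection to the complement of `S`, and its Frobenius property.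

Proof.  Write `E x = Ev x`.  `cs1` for `T a b = lam (a * x) • b`: `E (s * x) = s * E x` for `s ∈ S`; the
symmetry of `lam` and `cs2`: `E (x * s) = E x * s`.  `E x ∈ S`.  So `E s = s * E 1`,
`E (E x * c') = E x * c' * E 1 = E x`.  `q x = x - E x * c'`: `E (q x) = 0`, `q (q x) = q x`,
`q (s * x) = s * q x`, `q (x * s) = x * s - E x * s * c' = q x * s`, `q s = s - s * E 1 * c' = 0`.
`lam (z * E y) = ∑ lam (g' p * y) * lam (z * g p)`, `lam (E z * y) = ∑ lam (g' p * z) * lam (g p * y)`; they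
are equal by `cs3` and the symmetry.  Last claim: `lam (E x * c') = lam (E (x * c')) = lam (1 * E (x * c'))`
`= lam (E 1 * x * c') = lam (x * c' * E 1) = lam x`. -/
def PrjStmt : Prop := ∀ (F A ι : Type) [Field F] [Ring A] [Algebra F A] [Fintype ι]
  (S : Subalgebra F A) (g g' : ι → A) (lam : A →ₗ[F] F) (c' : A), Tg F S g g' →
  (∀ a b, lam (a * b) = lam (b * a)) → Cg F S g g' lam c' →
  (∀ x, Ev F g g' lam x ∈ S) ∧
  (∀ s ∈ S, ∀ x, Ev F g g' lam (s * x) = s * Ev F g g' lam x) ∧
  (∀ s ∈ S, ∀ x, Ev F g g' lam (x * s) = Ev F g g' lam x * s) ∧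
  (∀ x y, lam (x * Ev F g g' lam y) = lam (Ev F g g' lam x * y)) ∧
  (∀ x, lam (Ev F g g' lam x * c') = lam x) ∧
  ∃ q : A →ₗ[F] A, (∀ x, q x = x - Ev F g g' lam x * c') ∧ (∀ x, q (q x) = q x) ∧
    (∀ s ∈ S, ∀ x, q (s * x) = s * q x) ∧ (∀ s ∈ S, ∀ x, q (x * s) = q x * s) ∧
    ∀ s ∈ S, q s = 0

/-- RET: the functional of the retraction; the elements `g p` are linearly independent.

Proof.  Let `K` be the space of the functions `k : V × E → F` with `∑ k p • g p = 0`.  It is stable under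
the translations `(u k) (v, e) = k (u⁻¹ v, e)`, `u ∈ V` (multiply by `α u` from the left); if it is not `0` it
contains a nonzero `k` with `k (v, e) = κ e` (FVT), so `∑_e κ e • (σ * n e) = 0`, `σ = ∑ α v`.  Let
`κ f ≠ 0`; multiply by `n' f` from the right and apply `mu`: `n e * n' f` is a scalar multiple of
`n (e * f⁻¹)` (`n (e f⁻¹) * n f = c • n e`), so by CHS only `e = f` contributes: `κ f * mu σ = 0`, a
contradiction.  So the `g p` are linearly independent.  By PRJ
`g q = Ev (g q) * c' = ∑_p mu (g' p * g q * c') • g p` (`Ev (g q * c') = g q * Ev c' = g q`,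
`Ev c' = c' * Ev 1 = 1`), so `mu (g' p * g q * c') = [p = q]`. -/
def RetStmt : Prop := FvtStmt → ChsStmt → PrjStmt → ∀ (F V E A : Type) [Field F]
  [CommGroup V] [Fintype V] [Group E] [Fintype E] [Ring A] [Algebra F A]
  [FiniteDimensional F A] (ℓ : ℕ) [CharP F ℓ] (φ : E →* MulAut V) (W : Subgroup V)
  (α : V →* A) (n n' : E → A) (c : E → E → F) (mu : A →ₗ[F] F) (S : Subalgebra F A) (c' : A),
  Ctf ℓ φ W → Unt φ α n n' c → Frm F α mu → Tg F S (gg α n) (gg' α n') →
  (∀ u, α u ∈ S) → (∀ e, n e ∈ S) → Cg F S (gg α n) (gg' α n') mu c' →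
  LinearIndependent F (gg α n) ∧
  (∀ p, mu (gg' α n' p * gg α n p * c') = 1) ∧
  (∀ p q, p ≠ q → mu (gg' α n' p * gg α n q * c') = 0) ∧
  (∀ s ∈ S, ∀ a, mu (s * a * c') = mu (a * s * c')) ∧
  ∀ x, Ev F (gg α n) (gg' α n') mu x * c' = ∑ p, mu (gg' α n' p * x * c') • gg α n p

/-! ## Part 3 -/

/-- OMT: the orbits of `1 × V`.

Proof.  `O` = the set of the orbits of `1 × V` on `Ω`; `V` acts on it by `(v, 1)`.  `1 × V` acts freely: if
`(1, h) • ω = ω` then `(1, h) = (φ e r, r)`, so `r = 1`.  `s = Quotient.out`.  Last claim: `v • p ω = p ω` means that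
`(v, h) • ω = ω` for some `h`; so for every `v` there is `h ∈ R` with `v = φ e h`, hence `R = ⊤`. -/
def OmtStmt : Prop := ∀ (V E Ω : Type) [CommGroup V] [Fintype V] [Group E]
  (φ : E →* MulAut V) [Fintype Ω] [MulAction (V × V) Ω],
  (∀ ω : Ω, ∃ (e : E) (R : Subgroup V),
    MulAction.stabilizer (V × V) ω = tw (φ e).toMonoidHom R) →
  ∃ (O : Type) (_ : Fintype O) (_ : MulAction V O) (s : O → Ω) (p : Ω → O),
    (∀ o, p (s o) = o) ∧ (∀ (v h : V) (ω : Ω), p ((v, h) • ω) = v • p ω) ∧
    (∀ ω, ∃ h : V, ω = ((1, h) : V × V) • s (p ω)) ∧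
    (∀ (M : Type) [AddCommMonoid M] (f : Ω → M),
      ∑ ω, f ω = ∑ o, ∑ h : V, f (((1, h) : V × V) • s o)) ∧
    ∀ (ω : Ω) (e : E) (R : Subgroup V),
      MulAction.stabilizer (V × V) ω = tw (φ e).toMonoidHom R →
      (∀ v : V, v • p ω = p ω) → R = ⊤

/-- ORB: the `W`-set of a `V × V`-set with stabilisers `tw (φ e) R`, `R ≤ W`.

Proof.  Choose a point `ω_o` in every orbit `o` of `V × V` on `Ω`, and `e_o`, `R_o ≤ W` with
`stabilizer ω_o = tw (φ e_o) R_o`.  `Om` = the set of the points `(φ e_o w, w) • ω_o`, `w ∈ W`, `i` the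
inclusion, `ee = e_o`, `w • p = (φ e_o w, w) • p`.  For a transversal `T` of `W` in `V` the map
`(p, t, v) ↦ (φ e_o t, v) • p` from `Om × T × V` to `Ω` is bijective.  Surjective: `(a, b) • ω_o`,
`a = φ e_o (t w)`; `(a, b) • ω_o = (φ e_o t, b w⁻¹) • ((φ e_o w, w) • ω_o)`.  Injective: if
`(φ e_o (t w), v w) • ω_o = (φ e_o (t₁ w₁), v₁ w₁) • ω_o` then
`t w = r t₁ w₁`, `v w = r v₁ w₁` with `r ∈ R_o ≤ W` (`V` is commutative), so `t = t₁` (`T` is a
transversal), `w = r w₁`, `v = v₁`, and the points are equal. -/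
def OrbStmt : Prop := ∀ (V E Ω : Type) [CommGroup V] [Fintype V] [Group E]
  (φ : E →* MulAut V) (W : Subgroup V) [Fintype Ω] [MulAction (V × V) Ω],
  (∀ ω : Ω, ∃ (e : E) (R : Subgroup V), R ≤ W ∧
    MulAction.stabilizer (V × V) ω = tw (φ e).toMonoidHom R) →
  ∃ (Om : Type) (_ : Fintype Om) (_ : MulAction W Om) (i : Om → Ω) (ee : Om → E),
    (∀ (w : W) (p : Om), ee (w • p) = ee p) ∧
    (∀ (w : W) (p : Om), i (w • p) = ((φ (ee p) (w : V), (w : V)) : V × V) • i p) ∧
    ∀ T : Finset V, IsTv W ⊤ T → ∀ (M : Type) [AddCommMonoid M] (f : Ω → M),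
      ∑ ω, f ω = ∑ p : Om, ∑ t ∈ T, ∑ v : V, f (((φ (ee p) t, v) : V × V) • i p)

/-! ## Part 4 -/

/-- ALT: right projectivity over `V`, and the relative trace.

Proof.  Let `O, s, p` be as in OMT.  `al x = ∑_o d (s o) x • b (s o)`.  `b ((1,h) • ω) = b ω * α h⁻¹` and
`d ((1,h) • ω) x = d ω (x * α h)`; so `q x = ∑_o ∑_h d (s o) (x * α h) • (b (s o) * α h⁻¹)`, replace `h` by
`h⁻¹`.  Second claim: for `ω ∈ Ω` let `y ω = ∑_k d ω (b_k) • b'_k`; it satisfies `lam (y ω * x) = d ω x`
for all `x`, and it is determined by this (`lam` is nondegenerate), so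
`y ((v,h) • ω) = α h * y ω * α v⁻¹`.  `U ω = b ω * ζ * y ω`: `U ((1,h) • ω) = U ω` (`ζ` commutes with
`α h`), so `U ω = U (s (p ω))`, and `U (s (v • o)) = α v * U (s o) * α v⁻¹` (as `v • o = p ((v,1) • s o)`).
`∑_k al (b_k) * ζ * b'_k = ∑_o U (s o)`.  TRS for the group `V` acting on `O`, `ρ = cj F α`, `P = ⊤`, `T`
everything: a point `o` fixed by `V` has `R = ⊤` (OMT for `ω = s o`), but `R ≤ W ≠ ⊤`. -/
def AltStmt : Prop := OmtStmt → TrsStmt → ∀ (F V E A Ω : Type) [Field F] [CommGroup V]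
  [Fintype V] [Group E] [Ring A] [Algebra F A] [FiniteDimensional F A] [Fintype Ω]
  [MulAction (V × V) Ω] (φ : E →* MulAut V) (W : Subgroup V) (α : V →* A) (lam : A →ₗ[F] F)
  (q : A →ₗ[F] A) (b : Ω → A) (d : Ω → (A →ₗ[F] F)), W ≠ ⊤ →
  (∀ a b, lam (a * b) = lam (b * a)) → (∀ a, (∀ b, lam (a * b) = 0) → a = 0) →
  Fq F φ W α q b d →
  ∃ al : A →ₗ[F] A, (∀ x, ∑ h, al (x * α h⁻¹) * α h = q x) ∧
    ∀ (m : ℕ) (b b' : Fin m → A), Du F lam b b' → ∀ ζ : A, (∀ u, ζ * α u = α u * ζ) →
      ∑ k, al (b k) * ζ * b' k ∈ BK (cj F α) ⊤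

/-- AVE: from `V` to `V × E` by averaging over `E`.

Proof.  `al' = |E|⁻¹ • al`.  `∑_{v, e} al (x * n' e * α v⁻¹) * α v * n e = ∑_e q (x * n' e) * n e =
∑_e q (x * n' e * n e) = |E| • q x`. -/
def AveStmt : Prop := ∀ (F V E A : Type) [Field F] [CommGroup V] [Fintype V] [Group E]
  [Fintype E] [Ring A] [Algebra F A] (φ : E →* MulAut V) (α : V →* A) (n n' : E → A)
  (c : E → E → F) (q al : A →ₗ[F] A), Unt φ α n n' c → (Nat.card E : F) ≠ 0 →
  (∀ e x, q (x * n e) = q x * n e) → (∀ x, ∑ h, al (x * α h⁻¹) * α h = q x) →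
  ∀ x, ∑ p, (((Nat.card E : F)⁻¹ • al) (x * gg' α n' p)) * gg α n p = q x

/-- CAT: the relative dual basis and the Casimir element over `S`.

Proof.  As CAS (`PFC/StmtsB5a.lean`), with PRJ.  `u = (c', al (b k))`, `v = (1, b' k)`, `E = Ev`.
(1) `a = ∑ u_i E (v_i a)`: `∑_k al (b k) E (b' k a) = ∑_p al (∑_k lam (g' p b' k a) b k) g p =
∑_p al (a g' p) g p` (`lam (g' p b' k a) = lam (b' k a g' p)`, `Du`) `= a - E a c'`, and
`c' E a = E a c'`.  (2) `lam (b a) = ∑ lam (b u_i E (v_i a)) = lam ((∑ E (b u_i) v_i) a)` for all `a`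
(PRJ), so `b = ∑ E (b u_i) v_i`.  (3) For balanced `T`: `∑_i T (c u_i) (v_i) =
∑_{i,j} T (u_j E (v_j c u_i)) (v_i) = ∑_{i,j} T (u_j) (E (v_j c u_i) v_i) = ∑_j T (u_j) (v_j c)`. -/
def CatStmt : Prop := PrjStmt → ∀ (F A ι : Type) [Field F] [Ring A] [Algebra F A] [Fintype ι]
  (S : Subalgebra F A) (g g' : ι → A) (lam : A →ₗ[F] F) (c' : A) (al : A →ₗ[F] A) (m : ℕ)
  (b b' : Fin m → A), Tg F S g g' → (∀ a b, lam (a * b) = lam (b * a)) →
  (∀ a, (∀ b, lam (a * b) = 0) → a = 0) → Cg F S g g' lam c' →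
  (∀ x, ∑ i, al (x * g' i) * g i = x - Ev F g g' lam x * c') → Du F lam b b' →
  (∀ a, ∑ k : Option (Fin m), k.elim c' (fun k => al (b k)) *
    Ev F g g' lam (k.elim 1 b' * a) = a) ∧
  (∀ a, ∑ k : Option (Fin m), Ev F g g' lam (a * k.elim c' (fun k => al (b k))) *
    k.elim 1 b' = a) ∧
  Cs F S (fun k : Option (Fin m) => k.elim c' (fun k => al (b k)))
    (fun k : Option (Fin m) => k.elim 1 b')

/-- UNL: units modulo the Brauer kernel.

Proof.  `x`, `x'` commute with `α V`, so they are units of `L = Cz F α ⊤`.  `y = x + w`, `w` in the Brauer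
kernel, which is contained in `L`, is an ideal of `L` and does not contain `1` (BKI).  If `y` is not a unit of
the local ring `L`, then, as `x = y + (-w)` is a unit, `-w` is a unit of `L`, so `1` is in the Brauer
kernel, a contradiction. -/
def UnlStmt : Prop := BkiStmt → ∀ (F V A : Type) [Field F] [CommGroup V] [Finite V] [Ring A]
  [Algebra F A] (α : V →* A) (x x' y : A), IsLocalRing (Cz F α ⊤) →
  (1 : A) ∉ BK (cj F α) ⊤ → x * x' = 1 → x' * x = 1 → (∀ u, x * α u = α u * x) →
  y - x ∈ BK (cj F α) ⊤ → IsUnit y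

/-- SPT: separability over `S`, and the units `∑ x k * z * y k`.

Proof.  `ρ = ∑ u k * v k = c' + ∑ al (b k) * b' k`; it is central (`Cs` for `T a b = a * b`), and a unit by
UNL (`x = c'`, `x' = Ev 1`; the difference is in the Brauer kernel by the hypothesis with `ζ = 1`);
its inverse is central.  Take `u k`, `v k * ρ⁻¹`: for balanced `T` apply `Cs` to
`(a, b) ↦ T a (b * ρ⁻¹)`.
Units: `w` commutes with `S`, `w * w' = w' * w = 1`.  `x k = u k`, `y k = Ev 1 * v k`:
`∑ x k * w * y k = ∑ u k * (w * Ev 1) * v k = c' * w * Ev 1 + ∑ al (b k) * (w * Ev 1) * b' k`, the first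
term is `w`, the second is in the Brauer kernel (`ζ = w * Ev 1`); UNL. -/
def SptStmt : Prop := UnlStmt → ∀ (F V A ι : Type) [Field F] [CommGroup V] [Finite V]
  [Ring A] [Algebra F A] [Fintype ι] (S : Subalgebra F A) (g g' : ι → A) (lam : A →ₗ[F] F)
  (c' : A) (al : A →ₗ[F] A) (m : ℕ) (b b' : Fin m → A) (α : V →* A), (∀ u, α u ∈ S) →
  Cg F S g g' lam c' → Ev F g g' lam 1 ∈ S → IsLocalRing (Cz F α ⊤) →
  (1 : A) ∉ BK (cj F α) ⊤ →
  (∀ ζ : A, (∀ u, ζ * α u = α u * ζ) → ∑ k, al (b k) * ζ * b' k ∈ BK (cj F α) ⊤) →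
  Cs F S (fun k : Option (Fin m) => k.elim c' (fun k => al (b k)))
    (fun k : Option (Fin m) => k.elim 1 b') →
  (∃ ρ : A, (∀ a, ρ * a = a * ρ) ∧
    (∑ k : Option (Fin m), k.elim c' (fun k => al (b k)) * (k.elim 1 b' * ρ) = 1) ∧
    Cs F S (fun k : Option (Fin m) => k.elim c' (fun k => al (b k)))
      (fun k : Option (Fin m) => k.elim 1 b' * ρ)) ∧
  ∀ w w' : A, (∀ s ∈ S, w * s = s * w) → w * w' = 1 → w' * w = 1 →
    IsUnit (∑ k : Option (Fin m), k.elim c' (fun k => al (b k)) * w *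
      (Ev F g g' lam 1 * k.elim 1 b'))

/-- CVS: from `F`-bilinear balanced maps to additive balanced maps.

Proof.  Let `B : A →+ A →+ X` be balanced over `S`, in particular over the scalars `F`.  `B` gives an
additive map `A ⊗[F] A → X` (`TensorProduct.liftAddHom`) which kills the subspace spanned by the
`(a * s) ⊗ b - a ⊗ (s * b)`, so an additive map from the quotient `X'` by this subspace; `X'` is an
`F`-space, apply `Cs` to `T a b = [a ⊗ b]`. -/
def CvsStmt : Prop := ∀ (F Γ A κ : Type) [Field F] [Ring Γ] [Algebra F Γ] [Ring A]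
  [Algebra F A] [Fintype κ] (S : Subalgebra F A) (j : Γ →ₐ[F] A) (u v : κ → A),
  (∀ x, x ∈ S ↔ ∃ γ, j γ = x) → ∑ k, u k * v k = 1 → Cs F S u v →
  Nonempty (Pool.Agent.PFC.B1.Sep Γ A κ j.toRingHom)

/-! ## Part 5 -/

/-- HTW: the `W`-relative form of the complement.

Proof.  ORB gives `Om`, `i`, `ee`.  `m p = n' (ee p) * b (i p)`, `τ p x = |E|⁻² • d (i p) (n (ee p) * x)`.
Equivariance: `b (i (w • p)) = α (φ e w) * b (i p) * α w⁻¹`, `n' e * α (φ e w) = α w * n' e`;
`d (i (w • p)) (n e * α w * x * α w⁻¹) = d (i (w • p)) (α (φ e w) * (n e * x) * α w⁻¹) =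
d (i p) (n e * x)`.  The formula: `q y = ∑_p ∑_t ∑_v d ((φ e t, v) • i p) y • b ((φ e t, v) • i p)`, `e = ee p`,
`b ((φ e t, v) • i p) = α (φ e t) * b (i p) * α v⁻¹ = n e * (α t * m p * α v⁻¹)`,
`d ((φ e t, v) • i p) y = d (i p) (α (φ e t)⁻¹ * y * α v) = d (i p) (n e * (α t⁻¹ * n' e * y * α v))`.
Hence `|E|⁻² • q y = ∑_p n e * Q_p (n' e * y)`, `Q_p y = ∑_t ∑_v τ p (α t⁻¹ * y * α v) • (α t * m p * α v⁻¹)`.
`q x = |E|⁻² ∑_{f,g} n f * q (n' f * x * n g) * n' g = ∑_{f,g} ∑_p n f * n e * Q_p (n' e * n' f * x * n g) * n' g`;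
for fixed `p` replace `f` by `h = f * e`: `n f * n e = c • n h`, `n' e * n' f = c⁻¹ • n' h`. -/
def HtwStmt : Prop := OrbStmt → ∀ (F V E A Ω : Type) [Field F] [CommGroup V] [Fintype V]
  [Group E] [Fintype E] [Ring A] [Nontrivial A] [Algebra F A] [Fintype Ω]
  [MulAction (V × V) Ω] (φ : E →* MulAut V) (W : Subgroup V) (α : V →* A) (n n' : E → A)
  (c : E → E → F) (q : A →ₗ[F] A) (b : Ω → A) (d : Ω → (A →ₗ[F] F)),
  Unt φ α n n' c → (Nat.card E : F) ≠ 0 → (∀ e x, q (n e * x) = n e * q x) →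
  (∀ e x, q (x * n e) = q x * n e) → Fq F φ W α q b d →
  ∃ (Om : Type) (_ : Fintype Om) (_ : MulAction W Om) (m : Om → A) (τ : Om → (A →ₗ[F] F)),
    (∀ (w : W) (ω : Om), m (w • ω) = α w * m ω * α (w : V)⁻¹) ∧
    (∀ (w : W) (ω : Om) (a : A), τ (w • ω) (α w * a * α (w : V)⁻¹) = τ ω a) ∧
    ∀ T : Finset V, IsTv W ⊤ T → ∀ a : A,
      ∑ h : E, ∑ t ∈ T, ∑ g : E, ∑ v : V, ∑ ω,
        τ ω (α t⁻¹ * n' h * a * (n g * α v)) • (n h * α t * m ω * (α v⁻¹ * n' g)) = q a

/-! ## Part 6 -/

/-- CPJ: the crossed product and the projection.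

Proof.  `CP.lift` with `al` the algebra map `F V → A` which extends `α` and `m = n`.
`j (∑ ..) = ∑_e ∑_v (γ.f e) v • (α v * n e)`; the image is the span of the `g p`, that is `S`, and `j` is
injective by the linear independence.  `pr x` is the element with
`(pr x).f e = ∑_v lam (g' (v, e) * x) • v`; `j (pr x) = ∑ lam (g' p * x) • g p`.  `pr (j γ) = γ` by
`lam (g' p * g q) = [p = q]`.  `pr (j γ * x) = γ * pr x`: apply the injective `j`:
`j (pr (j γ * x)) = r (j γ * x) = j γ * r x`, `r x = ∑ lam (g' p * x) • g p`. -/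
def CpjStmt : Prop := ∀ (F V E A : Type) [Field F] [CommGroup V] [Fintype V] [Group E]
  [Fintype E] [Ring A] [Algebra F A] (φ : E →* MulAut V) (α : V →* A) (n n' : E → A)
  (z : Coc F E) (lam : A →ₗ[F] F) (S : Subalgebra F A) (r : A →ₗ[F] A),
  Unt φ α n n' (fun e f => (z.c e f : F)) → Tg F S (gg α n) (gg' α n') →
  LinearIndependent F (gg α n) → (∀ x, r x = ∑ p, lam (gg' α n' p * x) • gg α n p) →
  (∀ s ∈ S, r s = s) → (∀ s ∈ S, ∀ x, r (s * x) = s * r x) →
  (∀ s ∈ S, ∀ x, r (x * s) = r x * s) →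
  ∃ (j : CP (D0 φ z) →ₐ[F] A) (pr : A →ₗ[F] CP (D0 φ z)),
    (∀ u, j (vv φ z u) = α u) ∧ (∀ e, j (CP.n (D0 φ z) e) = n e) ∧
    (∀ e, j (ni (D0 φ z) e) = n' e) ∧ (∀ x, x ∈ S ↔ ∃ γ, j γ = x) ∧
    Function.Injective j ∧ (∀ γ, pr (j γ) = γ) ∧ (∀ γ x, pr (j γ * x) = γ * pr x) ∧
    (∀ x γ, pr (x * j γ) = pr x * γ) ∧ ∀ x, j (pr x) = r x

/-- TXT (TOP of D6): `TxtStmt` from the rows.

Proof.  UNT gives `n`, `n'`, `c`; `A` is not trivial (`1` is not in the Brauer kernel), COC gives `z`; the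
form `mu` with `Frm`; TGT, COT, PRJ, RET; `r x = Ev x * c'`, `lam x = mu (x * c')`.  QWF gives the
frame `Fq` for `q`, ALT and AVE `al` (`W ≠ ⊤` by `Ctf.nt`, `|E| ≠ 0` by `Ctf.cop`), FDB the dual bases, CAT
the Casimir element and the dual families `x k = u k`, `y k = Ev 1 * v k` for `r`
(`r (Ev 1 * y) = Ev y`: `Ev (Ev 1 * y) * c' = Ev 1 * Ev y * c'`), SPT, CVS, HTW, CPJ. -/
def TxtRow : Prop := UntStmt → QwfStmt → FvtStmt → TrsStmt → BkiStmt → FdbStmt → CocStmt →
  TgtStmt → ChsStmt → CotStmt → PrjStmt → RetStmt → OmtStmt → OrbStmt → AltStmt → AveStmt →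
  CatStmt → UnlStmt → SptStmt → CvsStmt → HtwStmt → CpjStmt → TxtStmt

end Pool.Agent.PFD.D6
end
end -- Pool.Agent.PFD.StmtsD6b

section -- Pool.Agent.Helper30_PFD.COT

/-! Squad PFD, row COT: `Ev 1` is a unit. -/

open scoped BigOperators

noncomputable section

namespace Pool.Agent.PFD.D6.H30

open Pool.Agent.PFC
open Pool.Agent.PFC.B5a (FvtStmt)

theorem cot : CotStmt := by
  intro hFVT hCHS F V E A _ _ _ _ _ _ _ _ ℓ _ φ W α n n' c lam S hctf hunt hsym hlam hTg hαS hnS
  classical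
  have hℓ : Fact ℓ.Prime := ⟨hctf.pr⟩
  set c0 : A := Ev F (gg α n) (gg' α n') lam 1 with hc0
  have hc0s : c0 = ∑ p, lam (gg' α n' p) • gg α n p := by
    rw [hc0]
    unfold Ev
    refine Finset.sum_congr rfl ?_
    intro p _
    rw [mul_one]
  have hgS : ∀ p, gg α n p ∈ S := fun p => S.mul_mem (hαS _) (hnS _)
  have hc0S : c0 ∈ S := by
    rw [hc0s]
    exact S.sum_mem (fun p _ => S.smul_mem (hgS p) _)
  have hcom : ∀ s ∈ S, s * c0 = c0 * s := by
    intro s hs
    have h1 := hTg.cs1 A ((LinearMap.lsmul F A) ∘ₗ lam) s hs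
    have h2 := hTg.cs2 A ((LinearMap.lsmul F A) ∘ₗ lam) s hs
    simp only [LinearMap.comp_apply, LinearMap.lsmul_apply] at h1 h2
    rw [hc0s, Finset.mul_sum, Finset.sum_mul]
    have h3 : ∑ p, s * lam (gg' α n' p) • gg α n p =
        ∑ p, lam (gg' α n' p) • (s * gg α n p) := by
      refine Finset.sum_congr rfl ?_
      intro p _
      rw [mul_smul_comm]
    have h4 : ∑ p, lam (gg' α n' p) • gg α n p * s =
        ∑ p, lam (gg' α n' p) • (gg α n p * s) := by
      refine Finset.sum_congr rfl ?_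
      intro p _
      rw [smul_mul_assoc]
    rw [h3, h4, ← h1, ← h2]
    refine Finset.sum_congr rfl ?_
    intro p _
    rw [hsym]
  have hinj : ∀ b : A, c0 * b = 0 → b = 0 := by
    by_contra hcon
    push Not at hcon
    obtain ⟨b0, hb0, hb0'⟩ := hcon
    let ρ : V →* (A →ₗ[F] A) :=
      { toFun := fun w => LinearMap.mulLeft F (α w)
        map_one' := by
          ext x
          simp
        map_mul' := by
          intro x y
          ext z
          simp }
    let N : Submodule F A := LinearMap.ker (LinearMap.mulLeft F c0)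
    have hN : N ≠ ⊥ := by
      intro h
      have h1 : b0 ∈ N := hb0
      rw [h] at h1
      exact hb0' ((Submodule.mem_bot F).1 h1)
    obtain ⟨b, hbN, hb1, hb2⟩ := hFVT ℓ F V A ρ N hctf.pg (by
      intro h m hm
      have hm' : c0 * m = 0 := hm
      show c0 * (α h * m) = 0
      rw [← mul_assoc, ← hcom _ (hαS h), mul_assoc, hm', mul_zero]) hN
    have hfix : ∀ w, α w * b = b := fun w => hb2 w (Subgroup.mem_top _)
    have hcb : c0 * b = 0 := hbN
    have hgb : ∀ v e, gg α n (v, e) * b = n e * b := by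
      intro v e
      have h1 := hunt.tw e (φ e⁻¹ v)
      have h2 : φ e (φ e⁻¹ v) = v := by
        rw [← MulAut.mul_apply, ← map_mul, mul_inv_cancel, map_one, MulAut.one_apply]
      rw [h2] at h1
      show α v * n e * b = n e * b
      rw [← h1, mul_assoc, hfix]
    have hn1 : n' 1 = 1 := by
      have h1 := hunt.li 1
      rw [hunt.one, mul_one] at h1
      exact h1
    have hsum : c0 * b = lam (∑ u, α u) • b := by
      rw [hc0s, Finset.sum_mul, Fintype.sum_prod_type, Finset.sum_comm,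
        Finset.sum_eq_single (1 : E)]
      · have h1 : ∀ v, lam (gg' α n' (v, (1 : E))) • gg α n (v, (1 : E)) * b =
            lam (α v⁻¹) • b := by
          intro v
          rw [smul_mul_assoc, hgb, hunt.one, one_mul]
          show lam (n' 1 * α v⁻¹) • b = _
          rw [hn1, one_mul]
        rw [Finset.sum_congr rfl (fun v _ => h1 v), ← Finset.sum_smul, map_sum]
        congr 1
        exact Fintype.sum_equiv (Equiv.inv V) _ _ (fun v => rfl)
      · intro e _ he
        have h1 : ∀ v, lam (gg' α n' (v, e)) • gg α n (v, e) * b =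
            lam (α v⁻¹ * n' e) • (n e * b) := by
          intro v
          rw [smul_mul_assoc, hgb]
          show lam (n' e * α v⁻¹) • (n e * b) = _
          rw [hsym]
        rw [Finset.sum_congr rfl (fun v _ => h1 v), ← Finset.sum_smul]
        have h2 : ∑ v, lam (α v⁻¹ * n' e) = ∑ w, lam (α w * n' e) :=
          Fintype.sum_equiv (Equiv.inv V) _ _ (fun v => rfl)
        rw [h2, (hCHS F V E A ℓ φ W α n n' c lam hctf hunt hsym e he).1, zero_smul]
      · intro h
        exact absurd (Finset.mem_univ _) h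
    rw [hcb] at hsum
    rcases smul_eq_zero.1 hsum.symm with h | h
    · exact hlam h
    · exact hb1 h
  -- the inverse
  let T : Subalgebra.toSubmodule S →ₗ[F] Subalgebra.toSubmodule S :=
    (LinearMap.mulLeft F c0).restrict (fun x hx => S.mul_mem hc0S hx)
  have hTi : Function.Injective T := by
    intro x y hxy
    have h1 : c0 * (x : A) = c0 * (y : A) := congrArg Subtype.val hxy
    have h2 : c0 * ((x : A) - y) = 0 := by rw [mul_sub, h1, sub_self]
    exact Subtype.ext (sub_eq_zero.1 (hinj _ h2))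
  have hTs : Function.Surjective T := LinearMap.surjective_of_injective hTi
  obtain ⟨c', hc'⟩ := hTs ⟨1, S.one_mem⟩
  have hr : c0 * (c' : A) = 1 := congrArg Subtype.val hc'
  refine ⟨c', c'.2, ?_, hr, ?_⟩
  · have h2 : c0 * ((c' : A) * c0 - 1) = 0 := by
      rw [mul_sub, ← mul_assoc, hr, one_mul, mul_one, sub_self]
    exact sub_eq_zero.1 (hinj _ h2)
  · intro s hs
    have h2 : c0 * ((c' : A) * s - s * c') = 0 := by
      rw [mul_sub, ← mul_assoc, hr, one_mul, ← mul_assoc, ← hcom s hs, mul_assoc, hr, mul_one,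
        sub_self]
    exact sub_eq_zero.1 (hinj _ h2)

end Pool.Agent.PFD.D6.H30
end
end -- Pool.Agent.Helper30_PFD.COT

section -- Pool.Agent.Helper77_PFC.TRSa

set_option autoImplicit false

/-!
PFC row TRSa: the sum of an equivariant family over a set without fixed points.
-/

open scoped BigOperators TensorProduct

noncomputable section

namespace Pool.Agent.PFC.B5a.H77

open Pool.Agent.PFC Pool.Agent.PFC.B5a MulAction

theorem trs : TrsStmt := by
  intro F H M Ω _ _ _ _ _ _ ρ P W T hT hT2 hW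
  classical
  induction hn : T.card using Nat.strong_induction_on generalizing T with
  | _ n ih =>
    rcases T.eq_empty_or_nonempty with rfl | ⟨ω, hω⟩
    · rw [Finset.sum_empty]
      exact Submodule.zero_mem _
    · obtain ⟨S, hS, hinj, hsur⟩ := exTv P ω
      let O : Finset Ω := S.image (fun x => x • ω)
      have hO : O ⊆ T := by
        intro y hy
        obtain ⟨x, hx, rfl⟩ := Finset.mem_image.1 hy
        exact hT ω hω x (hS.1 x hx)
      have hOst : ∀ y ∈ O, ∀ h ∈ P, h • y ∈ O := by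
        intro y hy h hh
        obtain ⟨x, hx, rfl⟩ := Finset.mem_image.1 hy
        obtain ⟨z, hz, hz2⟩ := hsur (h * x) (P.mul_mem hh (hS.1 x hx))
        refine Finset.mem_image.2 ⟨z, hz, ?_⟩
        show z • ω = h • x • ω
        rw [hz2, mul_smul]
      have hωO : ω ∈ O := by
        obtain ⟨z, hz, hz2⟩ := hsur 1 P.one_mem
        refine Finset.mem_image.2 ⟨z, hz, ?_⟩
        show z • ω = ω
        rw [hz2, one_smul]
      have hrest : ∑ ω ∈ T \ O, W ω ∈ BK ρ P := by
        refine ih (T \ O).card ?_ (T \ O) ?_ ?_ rfl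
        · rw [← hn]
          exact Finset.card_lt_card (Finset.sdiff_ssubset hO ⟨ω, hωO⟩)
        · intro y hy h hh
          rw [Finset.mem_sdiff] at hy ⊢
          refine ⟨hT y hy.1 h hh, fun hc => hy.2 ?_⟩
          have := hOst _ hc h⁻¹ (P.inv_mem hh)
          rwa [inv_smul_smul] at this
        · intro y hy
          exact hT2 y (Finset.mem_sdiff.1 hy).1
      have horb : ∑ ω ∈ O, W ω ∈ BK ρ P := by
        have h1 : ∑ ω ∈ O, W ω = ∑ x ∈ S, ρ x (W ω) := by
          rw [Finset.sum_image (by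
            intro x hx y hy hxy
            exact hinj x hx y hy hxy)]
          refine Finset.sum_congr rfl ?_
          intro x hx
          exact hW x (hS.1 x hx) ω
        rw [h1]
        refine Submodule.subset_span ?_
        refine ⟨P ⊓ stabilizer H ω, S, W ω, ?_, hS, ?_, rfl⟩
        · refine lt_of_le_of_ne inf_le_left ?_
          intro heq
          apply hT2 ω hω
          intro h hh
          have : h ∈ P ⊓ stabilizer H ω := by
            rw [heq]
            exact hh
          exact mem_stabilizer_iff.1 (Subgroup.mem_inf.1 this).2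
        · intro h hh
          have hh' := Subgroup.mem_inf.1 hh
          rw [← hW h hh'.1, mem_stabilizer_iff.1 hh'.2]
      rw [← Finset.sum_sdiff hO]
      exact Submodule.add_mem _ hrest horb

end Pool.Agent.PFC.B5a.H77
end
end -- Pool.Agent.Helper77_PFC.TRSa

section -- Pool.Agent.Helper32_PFD.CPJ

/-!
# PFD, block D6, row CPJ: the crossed product and the projection
-/

open scoped BigOperators

noncomputable section

namespace Pool.Agent.PFD.D6.H32

open Pool.Agent.PFC

section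

variable {F V E A : Type} [Field F] [CommGroup V] [Fintype V] [Group E] [Fintype E] [Ring A]
  [Algebra F A]

/-- the element of the crossed product with the coefficients `k` -/
def pf (φ : E →* MulAut V) (z : Coc F E) : (V × E → F) →ₗ[F] CP (D0 φ z) where
  toFun k := ⟨fun e => ∑ v, k (v, e) • MonoidAlgebra.of F V v⟩
  map_add' k k' := by
    apply CP.ext; funext e
    rw [CP.add_f]
    change ∑ v, (k (v, e) + k' (v, e)) • MonoidAlgebra.of F V v = _
    rw [← Finset.sum_add_distrib]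
    exact Finset.sum_congr rfl fun v _ => add_smul _ _ _
  map_smul' t k := by
    apply CP.ext; funext e
    rw [RingHom.id_apply, CP.smul_f]
    change ∑ v, (t * k (v, e)) • MonoidAlgebra.of F V v = _
    rw [Finset.smul_sum]
    exact Finset.sum_congr rfl fun v _ => mul_smul _ _ _

theorem al_apply (α : V →* A) (s : MonoidAlgebra F V) :
    MonoidAlgebra.lift F A V α s = ∑ v, s.coeff v • α v := by
  rw [MonoidAlgebra.lift_apply, Finsupp.sum_fintype]
  intro v
  exact zero_smul _ _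

omit [Fintype V] [Fintype E] in
theorem al_act (φ : E →* MulAut V) (z : Coc F E) (α : V →* A) (n n' : E → A)
    (h : Unt φ α n n' (fun e f => (z.c e f : F))) (e : E) (s : MonoidAlgebra F V) :
    n e * MonoidAlgebra.lift F A V α s =
      MonoidAlgebra.lift F A V α ((D0 φ z).act e s) * n e := by
  change _ = MonoidAlgebra.lift F A V α (MonoidAlgebra.domCongr F F (φ e) s) * n e
  induction s using MonoidAlgebra.induction_linear with
  | zero => rw [map_zero, map_zero, map_zero, mul_zero, zero_mul]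
  | add f g hf hg => rw [map_add, mul_add, hf, hg, map_add, map_add, add_mul]
  | single v r =>
    rw [MonoidAlgebra.domCongr_single, MonoidAlgebra.lift_single, MonoidAlgebra.lift_single,
      mul_smul_comm, smul_mul_assoc, h.tw]

end

/-- CPJ -/
theorem cpj : CpjStmt := by
  intro F V E A _ _ _ _ _ _ _ φ α n n' z lam S r hU hT hL hr hr1 hr2 hr3
  obtain ⟨j, hj1, hj2, hj3⟩ := CP.lift (D := D0 φ z) (MonoidAlgebra.lift F A V α) n hU.one
    (fun e g => hU.mul e g) (fun e s => al_act φ z α n n' hU e s)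
  have hsum : ∀ γ : CP (D0 φ z), j γ = ∑ p : V × E, (γ.f p.2).coeff p.1 • gg α n p := by
    intro γ
    rw [hj3, Fintype.sum_prod_type_right]
    refine Finset.sum_congr rfl fun e _ => ?_
    rw [al_apply, Finset.sum_mul]
    exact Finset.sum_congr rfl fun v _ => smul_mul_assoc _ _ _
  have hpf : ∀ k : V × E → F, j (pf φ z k) = ∑ p, k p • gg α n p := by
    intro k
    rw [hj3, Fintype.sum_prod_type_right]
    refine Finset.sum_congr rfl fun e _ => ?_
    change MonoidAlgebra.lift F A V α (∑ v, k (v, e) • MonoidAlgebra.of F V v) * n e = _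
    rw [map_sum, Finset.sum_mul]
    refine Finset.sum_congr rfl fun v _ => ?_
    rw [map_smul, MonoidAlgebra.lift_of, smul_mul_assoc]
    rfl
  have hS : ∀ x, x ∈ S ↔ ∃ γ, j γ = x := by
    intro x
    rw [hT.spn]
    constructor
    · intro hx
      obtain ⟨k, hk⟩ := (Submodule.mem_span_range_iff_exists_fun F).1 hx
      exact ⟨pf φ z k, by rw [hpf, hk]⟩
    · rintro ⟨γ, rfl⟩
      rw [hsum]
      exact Submodule.sum_mem _ fun p _ => Submodule.smul_mem _ _ (Submodule.subset_span ⟨p, rfl⟩)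
  have hinj : Function.Injective j := by
    rw [injective_iff_map_eq_zero]
    intro γ hγ
    rw [hsum] at hγ
    have h1 := Fintype.linearIndependent_iff.1 hL _ hγ
    apply CP.ext
    funext e
    rw [CP.zero_f]
    ext v
    exact h1 (v, e)
  let pr : A →ₗ[F] CP (D0 φ z) := pf φ z ∘ₗ
    (LinearMap.pi fun p => lam ∘ₗ LinearMap.mulLeft F (gg' α n' p))
  have hpr : ∀ x, j (pr x) = r x := by
    intro x
    rw [hr]
    exact hpf _
  refine ⟨j, pr, ?_, hj2, ?_, hS, hinj, ?_, ?_, ?_, hpr⟩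
  · intro u
    change j (CP.iS (D0 φ z) (MonoidAlgebra.of F V u)) = α u
    rw [hj1, MonoidAlgebra.lift_of]
  · intro e
    unfold ni
    rw [map_smul, hj2]
    have h1 := hU.mul e e⁻¹
    rw [mul_inv_cancel, hU.one] at h1
    have h2 : n e⁻¹ = n' e * (n e * n e⁻¹) := by rw [← mul_assoc, hU.li, one_mul]
    rw [h2, h1, mul_smul_comm, mul_one, smul_smul]
    change ((((z.c e e⁻¹)⁻¹ : Fˣ) : F) * ((z.c e e⁻¹ : Fˣ) : F)) • n' e = n' e
    rw [Units.inv_mul, one_smul]
  · intro γ
    apply hinj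
    rw [hpr]
    exact hr1 _ ((hS _).2 ⟨γ, rfl⟩)
  · intro γ x
    apply hinj
    rw [hpr, map_mul j, hpr]
    exact hr2 _ ((hS _).2 ⟨γ, rfl⟩) x
  · intro x γ
    apply hinj
    rw [hpr, map_mul j, hpr]
    exact hr3 _ ((hS _).2 ⟨γ, rfl⟩) x

end Pool.Agent.PFD.D6.H32
end
end -- Pool.Agent.Helper32_PFD.CPJ

section -- Pool.Agent.Helper33_PFD.OMT

/-!
# Squad PFD, row OMT: the orbits of `1 × V`
-/

open scoped BigOperators

noncomputable section

namespace Pool.Agent.PFD.D6.H33

open Pool.Agent.PFC Pool.Agent.PFD.D6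

section

variable {V Ω : Type} [CommGroup V] [MulAction (V × V) Ω]

/-- the orbits of `1 × V` -/
def orS (V Ω : Type) [CommGroup V] [MulAction (V × V) Ω] : Setoid Ω where
  r := fun a b => ∃ h : V, b = ((1, h) : V × V) • a
  iseqv :=
    { refl := fun a => ⟨1, by
        rw [show ((1, 1) : V × V) = 1 from rfl, one_smul]⟩
      symm := by
        rintro a b ⟨h, rfl⟩
        refine ⟨h⁻¹, ?_⟩
        rw [smul_smul, show ((1, h⁻¹) : V × V) * (1, h) = 1 by
          rw [Prod.mk_mul_mk, mul_one, inv_mul_cancel]; rfl, one_smul]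
      trans := by
        rintro a b c ⟨h, rfl⟩ ⟨k, rfl⟩
        refine ⟨k * h, ?_⟩
        rw [smul_smul, Prod.mk_mul_mk, mul_one] }

/-- the action on the orbits -/
def orAct (V Ω : Type) [CommGroup V] [MulAction (V × V) Ω] :
    MulAction V (Quotient (orS V Ω)) where
  smul := fun v o => Quotient.map (sa := orS V Ω) (sb := orS V Ω)
    (fun ω => ((v, 1) : V × V) • ω) (by
      rintro a b ⟨h, rfl⟩
      refine ⟨h, ?_⟩
      rw [smul_smul, smul_smul, Prod.mk_mul_mk, Prod.mk_mul_mk, mul_one, one_mul, mul_one,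
        one_mul]) o
  one_smul := by
    intro o
    induction o using Quotient.ind
    rename_i a
    show Quotient.mk (orS V Ω) (((1, 1) : V × V) • a) = Quotient.mk (orS V Ω) a
    rw [show ((1, 1) : V × V) = 1 from rfl, one_smul]
  mul_smul := by
    intro v w o
    induction o using Quotient.ind
    rename_i a
    show Quotient.mk (orS V Ω) (((v * w, 1) : V × V) • a) =
      Quotient.mk (orS V Ω) (((v, 1) : V × V) • ((w, 1) : V × V) • a)
    rw [smul_smul, Prod.mk_mul_mk, mul_one]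

end

/-- OMT -/
theorem omt : OmtStmt := by
  intro V E Ω _ _ _ φ _ _ hst
  classical
  have hfin : Fintype (Quotient (orS V Ω)) := Fintype.ofFinite _
  have hp : ∀ (v h : V) (ω : Ω), Quotient.mk (orS V Ω) (((v, h) : V × V) • ω) =
      (orAct V Ω).smul v (Quotient.mk (orS V Ω) ω) := by
    intro v h ω
    show Quotient.mk (orS V Ω) (((v, h) : V × V) • ω) =
      Quotient.mk (orS V Ω) (((v, 1) : V × V) • ω)
    apply Eq.symm
    apply Quotient.sound
    refine ⟨h, ?_⟩
    rw [smul_smul, Prod.mk_mul_mk, one_mul, mul_one]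
  have hout : ∀ ω : Ω, ∃ h : V, ω = ((1, h) : V × V) • (Quotient.mk (orS V Ω) ω).out := by
    intro ω
    exact @Quotient.mk_out Ω (orS V Ω) ω
  refine ⟨Quotient (orS V Ω), hfin, orAct V Ω, Quotient.out, Quotient.mk (orS V Ω),
    fun o => Quotient.out_eq o, hp, hout, ?_, ?_⟩
  · intro M _ f
    rw [← Fintype.sum_prod_type (fun x : Quotient (orS V Ω) × V =>
      f (((1, x.2) : V × V) • x.1.out))]
    apply Eq.symm
    refine Function.Bijective.sum_comp (e := fun x : Quotient (orS V Ω) × V =>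
      ((1, x.2) : V × V) • x.1.out) ⟨?_, ?_⟩ f
    · rintro ⟨o, h⟩ ⟨o', h'⟩ heq
      have heq' : ((1, h) : V × V) • o.out = ((1, h') : V × V) • o'.out := heq
      have h1 : ∀ (o : Quotient (orS V Ω)) (h : V),
          Quotient.mk (orS V Ω) (((1, h) : V × V) • o.out) = o := by
        intro o h
        rw [hp, Quotient.out_eq]
        exact (orAct V Ω).one_smul o
      have h2 : o = o' := by rw [← h1 o h, heq', h1]
      subst h2
      obtain ⟨e, R, hR⟩ := hst o.out
      have h3 : ((1, h'⁻¹ * h) : V × V) ∈ MulAction.stabilizer (V × V) o.out := by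
        rw [MulAction.mem_stabilizer_iff]
        have h4 : ((1, h'⁻¹ * h) : V × V) = (1, h'⁻¹) * (1, h) := by
          rw [Prod.mk_mul_mk, mul_one]
        rw [h4, mul_smul, heq', smul_smul, Prod.mk_mul_mk, mul_one, inv_mul_cancel]
        exact one_smul (V × V) o.out
      rw [hR] at h3
      obtain ⟨r, hr, hr2⟩ := Subgroup.mem_map.1 h3
      have h5 : φ e r = 1 := congrArg Prod.fst hr2
      have h6 : r = h'⁻¹ * h := congrArg Prod.snd hr2
      have h7 : r = 1 := (φ e).injective (by rw [h5, map_one])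
      have h8 : h' = h := by
        rw [h7] at h6
        exact (inv_mul_eq_one.1 h6.symm)
      rw [h8]
    · intro ω
      obtain ⟨h, hh⟩ := hout ω
      exact ⟨(Quotient.mk (orS V Ω) ω, h), hh.symm⟩
  · intro ω e R hR hfix
    rw [Subgroup.eq_top_iff']
    intro x
    have h1 : Quotient.mk (orS V Ω) (((φ e x, 1) : V × V) • ω) = Quotient.mk (orS V Ω) ω := by
      rw [hp]
      exact hfix (φ e x)
    obtain ⟨h, hh⟩ := @Quotient.exact Ω (orS V Ω) _ _ h1
    have h2 : ((φ e x, h) : V × V) ∈ MulAction.stabilizer (V × V) ω := by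
      rw [MulAction.mem_stabilizer_iff]
      have h3 : ((φ e x, h) : V × V) = (1, h) * (φ e x, 1) := by
        rw [Prod.mk_mul_mk, mul_one, one_mul]
      rw [h3, mul_smul, ← hh]
    rw [hR] at h2
    obtain ⟨r, hr, hr2⟩ := Subgroup.mem_map.1 h2
    have h5 : φ e r = φ e x := congrArg Prod.fst hr2
    rwa [← (φ e).injective h5]

end Pool.Agent.PFD.D6.H33
end
end -- Pool.Agent.Helper33_PFD.OMT

section -- Pool.Agent.Helper33_PFD.SPT

/-!
# Squad PFD, row SPT: separability over `S`, and the units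
-/

open scoped BigOperators

noncomputable section

namespace Pool.Agent.PFD.D6.H33

open Pool.Agent.PFC Pool.Agent.PFD.D6

/-- an element commutes with the inverse of a commuting element -/
theorem comm_inv {A : Type} [Ring A] {c d x : A} (h1 : c * d = 1) (h2 : d * c = 1)
    (h : c * x = x * c) : d * x = x * d := by
  calc d * x = d * x * (c * d) := by rw [h1, mul_one]
    _ = d * (x * c) * d := by simp only [mul_assoc]
    _ = d * (c * x) * d := by rw [h]
    _ = (d * c) * x * d := by simp only [mul_assoc]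
    _ = x * d := by rw [h2, one_mul]

/-- SPT -/
theorem spt : SptStmt := by
  intro hU F V A ι _ _ _ _ _ _ S g g' lam c' al m b b' α hS hCg hE hloc hone hbk hCs
  have hunl := hU H49d.bki
  have hc : ∀ u, c' * α u = α u * c' := fun u => hCg.com _ (hS u)
  have hEc : ∀ u, Ev F g g' lam 1 * α u = α u * Ev F g g' lam 1 := fun u =>
    comm_inv hCg.lin hCg.rin (hc u)
  obtain ⟨ρ0, hρ0⟩ : ∃ ρ0, ρ0 = ∑ k : Option (Fin m), k.elim c' (fun k => al (b k)) *
    k.elim 1 b' := ⟨_, rfl⟩
  constructor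
  · have hcen : ∀ a, a * ρ0 = ρ0 * a := by
      intro a
      have h1 := hCs A (LinearMap.mul F A) (fun x y s _ => by
        rw [LinearMap.mul_apply', LinearMap.mul_apply', mul_assoc]) a
      have e1 : a * ρ0 = ∑ k : Option (Fin m), (LinearMap.mul F A)
          (a * k.elim c' (fun k => al (b k))) (k.elim 1 b') := by
        rw [hρ0, Finset.mul_sum]
        exact Finset.sum_congr rfl fun k _ => (mul_assoc _ _ _).symm
      have e2 : ρ0 * a = ∑ k : Option (Fin m), (LinearMap.mul F A)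
          (k.elim c' (fun k => al (b k))) (k.elim 1 b' * a) := by
        rw [hρ0, Finset.sum_mul]
        exact Finset.sum_congr rfl fun k _ => mul_assoc _ _ _
      rw [e1, e2]
      exact h1
    have hu : IsUnit ρ0 := by
      refine hunl F V A α c' (Ev F g g' lam 1) ρ0 hloc hone hCg.lin hCg.rin hc ?_
      have h1 : ρ0 - c' = ∑ k, al (b k) * 1 * b' k := by
        rw [hρ0, Fintype.sum_option]
        simp
      rw [h1]
      exact hbk 1 fun u => by rw [one_mul, mul_one]
    obtain ⟨U, hU0⟩ := hu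
    have h1 : ρ0 * (↑U⁻¹ : A) = 1 := by rw [← hU0, Units.mul_inv]
    have h2 : (↑U⁻¹ : A) * ρ0 = 1 := by rw [← hU0, Units.inv_mul]
    have h3 : ∀ a, (↑U⁻¹ : A) * a = a * (↑U⁻¹ : A) := fun a => comm_inv h1 h2 (hcen a).symm
    refine ⟨(↑U⁻¹ : A), h3, ?_, ?_⟩
    · refine Eq.trans ?_ h1
      rw [hρ0, Finset.sum_mul]
      exact Finset.sum_congr rfl fun k _ => (mul_assoc _ _ _).symm
    · intro X _ _ T hT c
      have h4 := hCs X (T.compl₂ (LinearMap.mulRight F (↑U⁻¹ : A))) (fun x y s hs => by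
        show T (x * s) (y * (↑U⁻¹ : A)) = T x (s * y * (↑U⁻¹ : A))
        rw [hT _ _ s hs, mul_assoc]) c
      have h5 : ∀ x y, (T.compl₂ (LinearMap.mulRight F (↑U⁻¹ : A))) x y =
        T x (y * (↑U⁻¹ : A)) := fun _ _ => rfl
      rw [Finset.sum_congr rfl fun k _ => h5 _ _, Finset.sum_congr rfl fun k _ => h5 _ _] at h4
      rw [h4]
      refine Finset.sum_congr rfl fun k _ => ?_
      rw [mul_assoc, mul_assoc, h3]
  · intro w w' hw hww hww'
    have hwu : ∀ u, w * α u = α u * w := fun u => hw _ (hS u)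
    refine hunl F V A α w w' _ hloc hone hww hww' hwu ?_
    have h1 : (∑ k : Option (Fin m), k.elim c' (fun k => al (b k)) * w *
        (Ev F g g' lam 1 * k.elim 1 b')) - w =
        ∑ k, al (b k) * (w * Ev F g g' lam 1) * b' k := by
      rw [Fintype.sum_option]
      have h2 : c' * w * (Ev F g g' lam 1 * 1) = w := by
        rw [mul_one, ← hw c' hCg.mem, mul_assoc, hCg.lin, mul_one]
      show c' * w * (Ev F g g' lam 1 * 1) +
        ∑ k, al (b k) * w * (Ev F g g' lam 1 * b' k) - w = _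
      rw [h2, add_sub_cancel_left]
      refine Finset.sum_congr rfl fun k _ => ?_
      simp only [mul_assoc]
    rw [h1]
    refine hbk _ fun u => ?_
    rw [mul_assoc, hEc, ← mul_assoc, hwu, mul_assoc]

end Pool.Agent.PFD.D6.H33
end
end -- Pool.Agent.Helper33_PFD.SPT

section -- Pool.Agent.Helper41_PFC.FDB

namespace Pool.Agent.PFC.B5a.H41

open Module

theorem fdb : FdbStmt := by
  intro F B _ _ _ _ lam hs hn
  classical
  let Bf : LinearMap.BilinForm F B := (LinearMap.mul F B).compr₂ lam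
  have hBf : ∀ x y, Bf x y = lam (x * y) := fun _ _ => rfl
  have hB : Bf.Nondegenerate := by
    constructor
    · intro x hx
      exact hn x hx
    · intro x hx
      refine hn x ?_
      intro y
      rw [hs]
      exact hx y
  let b := Module.finBasis F B
  let b' := Bf.dualBasis hB b
  have hd : ∀ i j, lam (b' i * b j) = if j = i then 1 else 0 :=
    fun i j => LinearMap.BilinForm.apply_dualBasis_left hB b i j
  refine ⟨Module.finrank F B, b, b', ?_, ?_⟩
  · intro x
    have h1 : x = ∑ j, b.repr x j • b j := (b.sum_repr x).symm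
    have h2 : ∀ k, lam (b' k * x) = b.repr x k := by
      intro k
      conv_lhs => rw [h1]
      rw [Finset.mul_sum, map_sum]
      rw [Finset.sum_eq_single k]
      · rw [mul_smul_comm, map_smul, hd, if_pos rfl, smul_eq_mul, mul_one]
      · intro j _ hj
        rw [mul_smul_comm, map_smul, hd, if_neg hj, smul_zero]
      · intro h
        exact absurd (Finset.mem_univ _) h
    rw [Finset.sum_congr rfl (fun k _ => by rw [h2 k])]
    exact b.sum_repr x
  · intro x
    have h1 : x = ∑ j, b'.repr x j • b' j := (b'.sum_repr x).symm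
    have h2 : ∀ k, lam (x * b k) = b'.repr x k := by
      intro k
      conv_lhs => rw [h1]
      rw [Finset.sum_mul, map_sum]
      rw [Finset.sum_eq_single k]
      · rw [smul_mul_assoc, map_smul, hd, if_pos rfl, smul_eq_mul, mul_one]
      · intro j _ hj
        rw [smul_mul_assoc, map_smul, hd, if_neg (Ne.symm hj), smul_zero]
      · intro h
        exact absurd (Finset.mem_univ _) h
    rw [Finset.sum_congr rfl (fun k _ => by rw [h2 k])]
    exact b'.sum_repr x

end Pool.Agent.PFC.B5a.H41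
end -- Pool.Agent.Helper41_PFC.FDB

section -- Pool.Agent.PFC.B5.FVTa

/-!
# Squad PFC, block B5a, row FVTa (helper46): fixed vectors of `ℓ`-groups
-/

set_option autoImplicit false

noncomputable section

namespace Pool.Agent.PFC.B5a.H46

open Pool.Agent.PFC Pool.Agent.PFC.B5a

section act

variable {F H M : Type} [Field F] [Group H] [AddCommGroup M] [Module F M]

/-- the additive subgroup generated by the orbit of `m` -/
def Sg (ρ : H →* (M →ₗ[F] M)) (m : M) : AddSubgroup M :=
  AddSubgroup.closure (Set.range fun h : H => ρ h m)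

theorem sg_mem (ρ : H →* (M →ₗ[F] M)) (m : M) (h : H) {x : M} (hx : x ∈ Sg ρ m) :
    ρ h x ∈ Sg ρ m := by
  unfold Sg at hx ⊢
  induction hx using AddSubgroup.closure_induction with
  | mem x hx =>
    obtain ⟨g, rfl⟩ := hx
    refine AddSubgroup.subset_closure ⟨h * g, ?_⟩
    simp only [map_mul]
    rfl
  | zero => rw [map_zero]; exact AddSubgroup.zero_mem _
  | add x y _ _ hx hy => rw [map_add]; exact AddSubgroup.add_mem _ hx hy
  | neg x _ hx => rw [map_neg]; exact AddSubgroup.neg_mem _ hx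

/-- the action of `H` on this subgroup -/
@[reducible] def actSg (ρ : H →* (M →ₗ[F] M)) (m : M) : MulAction H (Sg ρ m) where
  smul h x := ⟨ρ h x.1, sg_mem ρ m h x.2⟩
  one_smul x := Subtype.ext (by change ρ 1 x.1 = x.1; rw [map_one]; rfl)
  mul_smul g h x := Subtype.ext (by change ρ (g * h) x.1 = ρ g (ρ h x.1); rw [map_mul]; rfl)

theorem finite_sg {ℓ : ℕ} [Fact ℓ.Prime] [CharP F ℓ] [Finite H] (ρ : H →* (M →ₗ[F] M)) (m : M) :
    Finite (Sg ρ m) := by
  have hl : ∀ x : M, ℓ • x = 0 := by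
    intro x
    rw [← Nat.cast_smul_eq_nsmul F, CharP.cast_eq_zero, zero_smul]
  have hfg : AddGroup.FG (Sg ρ m) := by
    rw [AddGroup.fg_iff_addSubgroup_fg]
    refine (AddSubgroup.fg_iff _).2 ⟨_, rfl, Set.finite_range _⟩
  have ht : AddMonoid.IsTorsion (Sg ρ m) := by
    intro x
    rw [isOfFinAddOrder_iff_nsmul_eq_zero]
    refine ⟨ℓ, (Fact.out : ℓ.Prime).pos, ?_⟩
    refine Subtype.ext ?_
    rw [AddSubgroup.coe_nsmul]
    exact hl x.1
  exact AddCommGroup.finite_of_fg_torsion _ ht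

end act

theorem fvt : FvtStmt := by
  intro ℓ _ F H M _ _ _ _ _ _ ρ N hH hN hne
  obtain ⟨m, hm, hm0⟩ := (Submodule.ne_bot_iff _).1 hne
  have hfin := finite_sg (ℓ := ℓ) ρ m
  have hl : ∀ x : M, ℓ • x = 0 := by
    intro x
    rw [← Nat.cast_smul_eq_nsmul F, CharP.cast_eq_zero, zero_smul]
  have hsub : ∀ x ∈ Sg ρ m, x ∈ N := by
    intro x hx
    have h1 : Sg ρ m ≤ N.toAddSubgroup := by
      unfold Sg
      rw [AddSubgroup.closure_le]
      rintro _ ⟨h, rfl⟩
      exact hN h m hm
    exact h1 hx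
  have hmS : m ∈ Sg ρ m := by
    refine AddSubgroup.subset_closure ⟨1, ?_⟩
    simp only [map_one]
    rfl
  letI := actSg ρ m
  have hdv : ℓ ∣ Nat.card (Sg ρ m) := by
    have h1 : addOrderOf (⟨m, hmS⟩ : Sg ρ m) = ℓ := by
      refine addOrderOf_eq_prime ?_ ?_
      · refine Subtype.ext ?_
        rw [AddSubgroup.coe_nsmul]
        exact hl m
      · intro h0
        exact hm0 (congrArg Subtype.val h0)
    have h2 := addOrderOf_dvd_natCard (⟨m, hmS⟩ : Sg ρ m)
    rwa [h1] at h2
  have hz : (0 : Sg ρ m) ∈ MulAction.fixedPoints H (Sg ρ m) := by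
    intro h
    refine Subtype.ext ?_
    change ρ h 0 = 0
    exact map_zero _
  obtain ⟨b, hb, hb0⟩ := hH.exists_fixed_point_of_prime_dvd_card_of_fixed_point (Sg ρ m) hdv hz
  refine ⟨b.1, hsub b.1 b.2, ?_, ?_⟩
  · intro h0
    exact hb0 (Subtype.ext h0.symm)
  · intro h _
    have h1 := hb h
    exact congrArg Subtype.val h1

end Pool.Agent.PFC.B5a.H46
end
end -- Pool.Agent.PFC.B5.FVTa

section -- Pool.Agent.Helper47_PFD.HTW

/-!
# Squad PFD, block D6, row HTW (helper47): the `W`-relative form of the complement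
-/

open scoped BigOperators

noncomputable section

namespace Pool.Agent.PFD.D6.H47

open Pool.Agent.PFC

theorem htw : HtwStmt := by
  classical
  intro hORB F V E A Ω _ _ _ _ _ _ _ _ _ _ φ W α n n' c q b d hU hE hql hqr hF
  obtain ⟨Om, iOm, aOm, i, ee, hee, hi, hsum⟩ := hORB V E Ω φ W hF.st
  -- basic identities
  have hbi : ∀ (w : V × V) (x : A), bi F α w x = α w.1 * (x * α w.2⁻¹) := fun w x => rfl
  have hn'α : ∀ e u, n' e * α (φ e u) = α u * n' e := by
    intro e u
    calc n' e * α (φ e u) = n' e * α (φ e u) * (n e * n' e) := by rw [hU.ri, mul_one]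
      _ = n' e * (α (φ e u) * n e) * n' e := by simp only [mul_assoc]
      _ = n' e * (n e * α u) * n' e := by rw [hU.tw]
      _ = (n' e * n e) * α u * n' e := by simp only [mul_assoc]
      _ = α u * n' e := by rw [hU.li, one_mul]
  have hαn : ∀ e u, n e * (α u * n' e) = α (φ e u) := by
    intro e u
    rw [← mul_assoc, hU.tw, mul_assoc, hU.ri, mul_one]
  have hc0 : ∀ e f, c e f ≠ 0 := by
    intro e f h0
    have h1 := hU.mul e f
    rw [h0, zero_smul] at h1
    have h2 : n' f * (n' e * (n e * n f)) = 1 := by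
      rw [← mul_assoc (n' e), hU.li, one_mul, hU.li]
    rw [h1, mul_zero, mul_zero] at h2
    exact zero_ne_one h2
  have hn'n' : ∀ e f, n' f * n' e = (c e f)⁻¹ • n' (e * f) := by
    intro e f
    have h1 : n' f * n' e * (n e * n f) = 1 := by
      rw [mul_assoc, ← mul_assoc (n' e), hU.li, one_mul, hU.li]
    rw [hU.mul, mul_smul_comm] at h1
    calc n' f * n' e = n' f * n' e * (n (e * f) * n' (e * f)) := by rw [hU.ri, mul_one]
      _ = (n' f * n' e * n (e * f)) * n' (e * f) := by simp only [mul_assoc]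
      _ = ((c e f)⁻¹ • (c e f • (n' f * n' e * n (e * f)))) * n' (e * f) := by
          rw [smul_smul, inv_mul_cancel₀ (hc0 e f), one_smul]
      _ = (c e f)⁻¹ • n' (e * f) := by rw [h1, smul_mul_assoc, one_mul]
  set k : F := (Nat.card E : F) with hk
  let m : Om → A := fun p => n' (ee p) * b (i p)
  let τ : Om → (A →ₗ[F] F) := fun p =>
    (k⁻¹ * k⁻¹) • (d (i p)).comp (LinearMap.mulLeft F (n (ee p)))
  have hτ : ∀ p x, τ p x = (k⁻¹ * k⁻¹) * d (i p) (n (ee p) * x) := fun p x => rfl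
  have hd : ∀ (w : V × V) (ω : Ω) (y : A), d (w • ω) y = d ω (α w.1⁻¹ * (y * α w.2)) := by
    intro w ω y
    rw [← hF.ed w ω (α w.1⁻¹ * (y * α w.2)), hbi]
    congr 1
    have h1 : α w.1 * α w.1⁻¹ = 1 := by rw [← map_mul, mul_inv_cancel, map_one]
    have h2 : α w.2 * α w.2⁻¹ = 1 := by rw [← map_mul, mul_inv_cancel, map_one]
    calc y = (α w.1 * α w.1⁻¹) * y * (α w.2 * α w.2⁻¹) := by rw [h1, h2, one_mul, mul_one]
      _ = α w.1 * (α w.1⁻¹ * (y * α w.2) * α w.2⁻¹) := by simp only [mul_assoc]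
  refine ⟨Om, iOm, aOm, m, τ, ?_, ?_, ?_⟩
  · intro w p
    show n' (ee (w • p)) * b (i (w • p)) = α w * (n' (ee p) * b (i p)) * α (w : V)⁻¹
    rw [hee, hi, hF.eb, hbi]
    show n' (ee p) * (α (φ (ee p) (w : V)) * (b (i p) * α (w : V)⁻¹)) = _
    rw [← mul_assoc, hn'α]
    simp only [mul_assoc]
  · intro w p a
    rw [hτ, hτ, hee, hi, hd]
    show (k⁻¹ * k⁻¹) * d (i p) (α (φ (ee p) (w : V))⁻¹ *
      (n (ee p) * (α w * a * α (w : V)⁻¹) * α (w : V))) = _
    congr 2
    have h2 : α (w : V)⁻¹ * α (w : V) = 1 := by rw [← map_mul, inv_mul_cancel, map_one]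
    have h3 : α (φ (ee p) (w : V))⁻¹ * α (φ (ee p) (w : V)) = 1 := by
      rw [← map_mul, inv_mul_cancel, map_one]
    calc α (φ (ee p) (w : V))⁻¹ * (n (ee p) * (α w * a * α (w : V)⁻¹) * α (w : V))
        = α (φ (ee p) (w : V))⁻¹ * (n (ee p) * α w) * a * (α (w : V)⁻¹ * α (w : V)) := by
          simp only [mul_assoc]
      _ = α (φ (ee p) (w : V))⁻¹ * (α (φ (ee p) (w : V)) * n (ee p)) * a := by
          rw [h2, mul_one, hU.tw]
      _ = (α (φ (ee p) (w : V))⁻¹ * α (φ (ee p) (w : V))) * (n (ee p) * a) := by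
          simp only [mul_assoc]
      _ = n (ee p) * a := by rw [h3, one_mul]
  · intro T hT a
    -- the formula for q
    have hq : ∀ y, (k⁻¹ * k⁻¹) • q y = ∑ p : Om, ∑ t ∈ T, ∑ v : V,
        τ p (α t⁻¹ * (n' (ee p) * (y * α v))) •
          (n (ee p) * (α t * (m p * α v⁻¹))) := by
      intro y
      rw [← hF.sum y, hsum T hT A (fun ω => d ω y • b ω), Finset.smul_sum]
      refine Finset.sum_congr rfl fun p _ => ?_
      rw [Finset.smul_sum]
      refine Finset.sum_congr rfl fun t _ => ?_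
      rw [Finset.smul_sum]
      refine Finset.sum_congr rfl fun v _ => ?_
      rw [hF.eb, hbi, hd, smul_smul, hτ]
      have e1 : α (φ (ee p) t)⁻¹ * (y * α v) =
          n (ee p) * (α t⁻¹ * (n' (ee p) * (y * α v))) := by
        rw [← map_inv, ← hαn]
        simp only [mul_assoc]
      have e2 : α (φ (ee p) t) * (b (i p) * α v⁻¹) = n (ee p) * (α t * (m p * α v⁻¹)) := by
        show _ = n (ee p) * (α t * (n' (ee p) * b (i p) * α v⁻¹))
        rw [← hαn]
        simp only [mul_assoc]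
      show ((k⁻¹ * k⁻¹) * d (i p) (α (φ (ee p) t)⁻¹ * (y * α v))) •
        (α (φ (ee p) t) * (b (i p) * α v⁻¹)) = _
      rw [e1, e2]
    have hqa : ∀ f g, n f * q (n' f * a * n g) * n' g = q a := by
      intro f g
      rw [← hql, ← mul_assoc, ← mul_assoc, hU.ri, one_mul, hqr, mul_assoc, hU.ri, mul_one]
    have hG : ∀ f g, (k⁻¹ * k⁻¹) • q a = ∑ p : Om, ∑ t ∈ T, ∑ v : V,
        τ p (α t⁻¹ * n' (f * ee p) * a * (n g * α v)) •
          (n (f * ee p) * α t * m p * (α v⁻¹ * n' g)) := by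
      intro f g
      have h1 : (k⁻¹ * k⁻¹) • q a = n f * ((k⁻¹ * k⁻¹) • q (n' f * a * n g)) * n' g := by
        rw [mul_smul_comm, smul_mul_assoc, hqa]
      rw [h1, hq, Finset.mul_sum, Finset.sum_mul]
      refine Finset.sum_congr rfl fun p _ => ?_
      rw [Finset.mul_sum, Finset.sum_mul]
      refine Finset.sum_congr rfl fun t _ => ?_
      rw [Finset.mul_sum, Finset.sum_mul]
      refine Finset.sum_congr rfl fun v _ => ?_
      have e1 : α t⁻¹ * (n' (ee p) * (n' f * a * n g * α v)) =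
          (c f (ee p))⁻¹ • (α t⁻¹ * n' (f * ee p) * a * (n g * α v)) := by
        calc α t⁻¹ * (n' (ee p) * (n' f * a * n g * α v))
            = α t⁻¹ * (n' (ee p) * n' f) * a * (n g * α v) := by simp only [mul_assoc]
          _ = _ := by
            rw [hn'n', mul_smul_comm, smul_mul_assoc, smul_mul_assoc]
      have e2 : n f * (n (ee p) * (α t * (m p * α v⁻¹))) * n' g =
          c f (ee p) • (n (f * ee p) * α t * m p * (α v⁻¹ * n' g)) := by
        calc n f * (n (ee p) * (α t * (m p * α v⁻¹))) * n' g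
            = (n f * n (ee p)) * α t * m p * (α v⁻¹ * n' g) := by simp only [mul_assoc]
          _ = _ := by
            rw [hU.mul, smul_mul_assoc, smul_mul_assoc, smul_mul_assoc]
      rw [mul_smul_comm, smul_mul_assoc, e1, e2, map_smul, smul_smul, smul_eq_mul,
        mul_comm (c f (ee p))⁻¹, mul_assoc, inv_mul_cancel₀ (hc0 f (ee p)), mul_one]
    -- reorder the sums
    have hre : ∑ h : E, ∑ t ∈ T, ∑ g : E, ∑ v : V, ∑ p : Om,
        τ p (α t⁻¹ * n' h * a * (n g * α v)) • (n h * α t * m p * (α v⁻¹ * n' g)) =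
        ∑ g : E, ∑ f : E, ∑ p : Om, ∑ t ∈ T, ∑ v : V,
          τ p (α t⁻¹ * n' (f * ee p) * a * (n g * α v)) •
            (n (f * ee p) * α t * m p * (α v⁻¹ * n' g)) := by
      have s1 : ∀ (G : E → V → E → V → Om → A),
          ∑ h : E, ∑ t ∈ T, ∑ g : E, ∑ v : V, ∑ p : Om, G h t g v p =
          ∑ g : E, ∑ f : E, ∑ p : Om, ∑ t ∈ T, ∑ v : V, G (f * ee p) t g v p := by
        intro G
        calc ∑ h : E, ∑ t ∈ T, ∑ g : E, ∑ v : V, ∑ p : Om, G h t g v p
            = ∑ h : E, ∑ g : E, ∑ t ∈ T, ∑ v : V, ∑ p : Om, G h t g v p :=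
              Finset.sum_congr rfl fun h _ => Finset.sum_comm
          _ = ∑ g : E, ∑ h : E, ∑ t ∈ T, ∑ v : V, ∑ p : Om, G h t g v p := Finset.sum_comm
          _ = ∑ g : E, ∑ h : E, ∑ p : Om, ∑ t ∈ T, ∑ v : V, G h t g v p := by
              refine Finset.sum_congr rfl fun g _ => Finset.sum_congr rfl fun h _ => ?_
              calc ∑ t ∈ T, ∑ v : V, ∑ p : Om, G h t g v p
                  = ∑ t ∈ T, ∑ p : Om, ∑ v : V, G h t g v p :=
                    Finset.sum_congr rfl fun t _ => Finset.sum_comm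
                _ = ∑ p : Om, ∑ t ∈ T, ∑ v : V, G h t g v p := Finset.sum_comm
          _ = ∑ g : E, ∑ p : Om, ∑ h : E, ∑ t ∈ T, ∑ v : V, G h t g v p :=
              Finset.sum_congr rfl fun g _ => Finset.sum_comm
          _ = ∑ g : E, ∑ p : Om, ∑ f : E, ∑ t ∈ T, ∑ v : V, G (f * ee p) t g v p := by
              refine Finset.sum_congr rfl fun g _ => Finset.sum_congr rfl fun p _ => ?_
              exact (Equiv.sum_comp (Equiv.mulRight (ee p))
                (fun h => ∑ t ∈ T, ∑ v : V, G h t g v p)).symm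
          _ = ∑ g : E, ∑ f : E, ∑ p : Om, ∑ t ∈ T, ∑ v : V, G (f * ee p) t g v p :=
              Finset.sum_congr rfl fun g _ => Finset.sum_comm
      exact s1 (fun h t g v p =>
        τ p (α t⁻¹ * n' h * a * (n g * α v)) • (n h * α t * m p * (α v⁻¹ * n' g)))
    rw [hre]
    have hfin : ∑ g : E, ∑ f : E, (k⁻¹ * k⁻¹) • q a = q a := by
      rw [Finset.sum_const, Finset.sum_const, Finset.card_univ, smul_smul,
        ← Nat.cast_smul_eq_nsmul F, smul_smul, ← Nat.card_eq_fintype_card]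
      push_cast
      rw [← hk]
      have : k * k * (k⁻¹ * k⁻¹) = 1 := by field_simp
      rw [this, one_smul]
    calc _ = ∑ g : E, ∑ f : E, (k⁻¹ * k⁻¹) • q a := by
          refine Finset.sum_congr rfl fun g _ => Finset.sum_congr rfl fun f _ => ?_
          rw [hG f g]
      _ = q a := hfin

end Pool.Agent.PFD.D6.H47
end
end -- Pool.Agent.Helper47_PFD.HTW

section -- Pool.Agent.Helper47_PFD.ORB

/-!
# Squad PFD, block D6, row ORB (helper47): the `W`-set of a `V × V`-set
-/

open scoped BigOperators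

noncomputable section

namespace Pool.Agent.PFD.D6.H47

open Pool.Agent.PFC

section

variable {V E Ω : Type} [CommGroup V] [Group E] (φ : E →* MulAut V) [MulAction (V × V) Ω]

/-- the twisted diagonal -/
def th (e : E) : V →* V × V := (φ e).toMonoidHom.prod (MonoidHom.id V)

theorem th_apply (e : E) (v : V) : th φ e v = (φ e v, v) := rfl

/-- the representative of the orbit -/
def rep (ω : Ω) : Ω :=
  Quotient.out (Quotient.mk (MulAction.orbitRel (V × V) Ω) ω)

theorem rep_smul (g : V × V) (ω : Ω) : rep (V := V) (g • ω) = rep (V := V) ω := by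
  unfold rep
  have h : Quotient.mk (MulAction.orbitRel (V × V) Ω) (g • ω) =
      Quotient.mk (MulAction.orbitRel (V × V) Ω) ω := by
    refine Quotient.sound ?_
    show (MulAction.orbitRel (V × V) Ω).r (g • ω) ω
    exact MulAction.orbitRel_apply.2 (MulAction.mem_orbit ω g)
  rw [h]

theorem rep_spec (ω : Ω) : ∃ g : V × V, g • rep (V := V) ω = ω := by
  have h : (MulAction.orbitRel (V × V) Ω).r ω (rep (V := V) ω) := by
    have h1 := Quotient.mk_out (s := MulAction.orbitRel (V × V) Ω) ω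
    exact (MulAction.orbitRel (V × V) Ω).symm h1
  exact MulAction.orbitRel_apply.1 h

theorem rep_rep (ω : Ω) : rep (V := V) (rep (V := V) ω) = rep (V := V) ω := by
  obtain ⟨g, hg⟩ := rep_spec (V := V) ω
  conv_rhs => rw [← hg]
  rw [rep_smul]

variable (W : Subgroup V)
  (H : ∀ ω : Ω, ∃ (e : E) (R : Subgroup V), R ≤ W ∧
    MulAction.stabilizer (V × V) ω = tw (φ e).toMonoidHom R)

/-- the element of `E` of a point -/
def e0 (ω : Ω) : E := Classical.choose (H ω)

/-- the element of `E` of the orbit -/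
def eo (ω : Ω) : E := e0 φ W H (rep (V := V) ω)

theorem eo_smul (g : V × V) (ω : Ω) : eo φ W H (g • ω) = eo φ W H ω := by
  unfold eo
  rw [rep_smul]

theorem eo_spec (ω : Ω) : ∃ R : Subgroup V, R ≤ W ∧
    MulAction.stabilizer (V × V) (rep (V := V) ω) = tw (φ (eo φ W H ω)).toMonoidHom R :=
  Classical.choose_spec (H (rep (V := V) ω))

/-- the `W`-set -/
def Om : Type := {ω : Ω // ∃ w : V, w ∈ W ∧ ω = th φ (eo φ W H ω) w • rep (V := V) ω}

/-- the action of `W` -/
@[reducible] def act : MulAction W (Om φ W H) where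
  smul w p := ⟨th φ (eo φ W H p.1) (w : V) • p.1, by
    obtain ⟨w', hw', h⟩ := p.2
    refine ⟨(w : V) * w', W.mul_mem w.2 hw', ?_⟩
    rw [eo_smul, rep_smul, map_mul, mul_smul, ← h]⟩
  one_smul p := by
    apply Subtype.ext
    show th φ (eo φ W H p.1) ((1 : W) : V) • p.1 = p.1
    rw [OneMemClass.coe_one, map_one, one_smul]
  mul_smul w w' p := by
    apply Subtype.ext
    show th φ (eo φ W H p.1) ((w * w' : W) : V) • p.1 =
      th φ (eo φ W H (th φ (eo φ W H p.1) (w' : V) • p.1)) (w : V) •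
        (th φ (eo φ W H p.1) (w' : V) • p.1)
    rw [eo_smul, Subgroup.coe_mul, map_mul, mul_smul]

/-- the bijection -/
def bij (T : Finset V) (x : Om φ W H × {t // t ∈ T} × V) : Ω :=
  ((φ (eo φ W H x.1.1) (x.2.1 : V), x.2.2) : V × V) • x.1.1

theorem bij_inj (T : Finset V) (hT : IsTv W ⊤ T) : Function.Injective (bij φ W H T) := by
  rintro ⟨⟨p, hp⟩, ⟨t, ht⟩, v⟩ ⟨⟨p1, hp1⟩, ⟨t1, ht1⟩, v1⟩ h
  have h' : ((φ (eo φ W H p) t, v) : V × V) • p = ((φ (eo φ W H p1) t1, v1) : V × V) • p1 := h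
  have he : eo φ W H p = eo φ W H p1 := by
    rw [← eo_smul φ W H (φ (eo φ W H p) t, v) p, h', eo_smul]
  have hr : rep (V := V) p = rep (V := V) p1 := by
    rw [← rep_smul (φ (eo φ W H p) t, v) p, h', rep_smul]
  obtain ⟨w, hw, hpw⟩ := hp
  obtain ⟨w1, hw1, hpw1⟩ := hp1
  obtain ⟨R, hR, hst⟩ := eo_spec φ W H p1
  have hmem : ((φ (eo φ W H p1) (t1 * w1), v1 * w1) : V × V)⁻¹ *
      (φ (eo φ W H p1) (t * w), v * w) ∈ MulAction.stabilizer (V × V) (rep (V := V) p1) := by
    rw [MulAction.mem_stabilizer_iff, mul_smul, inv_smul_eq_iff]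
    have e1 : ((φ (eo φ W H p1) (t * w), v * w) : V × V) =
        (φ (eo φ W H p1) t, v) * th φ (eo φ W H p1) w := by
      rw [th_apply, Prod.mk_mul_mk, map_mul]
    have e2 : ((φ (eo φ W H p1) (t1 * w1), v1 * w1) : V × V) =
        (φ (eo φ W H p1) t1, v1) * th φ (eo φ W H p1) w1 := by
      rw [th_apply, Prod.mk_mul_mk, map_mul]
    rw [e1, e2, mul_smul, mul_smul, ← hpw1]
    have e3 : th φ (eo φ W H p1) w • rep (V := V) p1 = p := by
      rw [← he, ← hr]
      exact hpw.symm
    rw [e3, ← he, h', he]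
  rw [hst] at hmem
  obtain ⟨r, hrR, hrr⟩ := Subgroup.mem_map.1 hmem
  have c1 : φ (eo φ W H p1) r = (φ (eo φ W H p1) (t1 * w1))⁻¹ * φ (eo φ W H p1) (t * w) :=
    congrArg Prod.fst hrr
  have c2 : r = (v1 * w1)⁻¹ * (v * w) := congrArg Prod.snd hrr
  rw [← map_inv, ← map_mul] at c1
  have c3 : r = (t1 * w1)⁻¹ * (t * w) := (φ (eo φ W H p1)).injective c1
  have hrW : r ∈ W := hR hrR
  have c4 : t1⁻¹ * t = r * w1 * w⁻¹ := by
    rw [c3]
    simp only [mul_inv_rev]
    rw [mul_comm w1⁻¹ t1⁻¹]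
    calc t1⁻¹ * t = t1⁻¹ * t * (w1⁻¹ * w1) * (w * w⁻¹) := by
          rw [inv_mul_cancel, mul_inv_cancel, mul_one, mul_one]
      _ = t1⁻¹ * w1⁻¹ * (t * w) * w1 * w⁻¹ := by
          simp only [mul_comm, mul_left_comm, mul_assoc]
  have c5 : t1⁻¹ * t ∈ W := by
    rw [c4]
    exact W.mul_mem (W.mul_mem hrW hw1) (W.inv_mem hw)
  have htt : t = t1 := by
    obtain ⟨s, -, hs⟩ := hT.2 t (Subgroup.mem_top t)
    rw [hs t ⟨ht, by rw [inv_mul_cancel]; exact W.one_mem⟩, hs t1 ⟨ht1, c5⟩]
  subst htt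
  have c6 : v1⁻¹ * v = 1 := by
    have c7 : (v1 * w1)⁻¹ * (v * w) = (t * w1)⁻¹ * (t * w) := by rw [← c2, ← c3]
    have c8 : (t * w1)⁻¹ * (t * w) = w1⁻¹ * w := by
      rw [mul_inv_rev, mul_assoc, inv_mul_cancel_left]
    have c9 : (v1 * w1)⁻¹ * (v * w) = (v1⁻¹ * v) * (w1⁻¹ * w) := by
      rw [mul_inv, mul_mul_mul_comm]
    rw [c8, c9] at c7
    exact mul_eq_right.1 c7
  have hvv : v = v1 := by
    rw [inv_mul_eq_one] at c6
    exact c6.symm
  subst hvv
  rw [he] at h'
  have hpp : p = p1 := MulAction.injective _ h'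
  subst hpp
  rfl

theorem bij_sur (T : Finset V) (hT : IsTv W ⊤ T) : Function.Surjective (bij φ W H T) := by
  intro ω
  obtain ⟨⟨a, b⟩, hg⟩ := rep_spec (V := V) ω
  obtain ⟨t, ⟨ht, htW⟩, -⟩ := hT.2 ((φ (eo φ W H ω)).symm a) (Subgroup.mem_top _)
  set w := t⁻¹ * (φ (eo φ W H ω)).symm a with hw
  have hee : eo φ W H (th φ (eo φ W H ω) w • rep (V := V) ω) = eo φ W H ω := by
    rw [eo_smul]
    unfold eo
    rw [rep_rep]
  have hrr : rep (V := V) (th φ (eo φ W H ω) w • rep (V := V) ω) = rep (V := V) ω := by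
    rw [rep_smul, rep_rep]
  refine ⟨⟨⟨th φ (eo φ W H ω) w • rep (V := V) ω, w, htW, by rw [hee, hrr]⟩, ⟨t, ht⟩,
    b * w⁻¹⟩, ?_⟩
  show ((φ (eo φ W H (th φ (eo φ W H ω) w • rep (V := V) ω)) t, b * w⁻¹) : V × V) •
    (th φ (eo φ W H ω) w • rep (V := V) ω) = ω
  rw [hee, ← mul_smul, th_apply, Prod.mk_mul_mk, ← map_mul, inv_mul_cancel_right]
  have h1 : t * w = (φ (eo φ W H ω)).symm a := by
    rw [hw, mul_inv_cancel_left]
  rw [h1, MulEquiv.apply_symm_apply]
  exact hg

end

theorem orb : OrbStmt := by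
  classical
  intro V E Ω _ _ _ φ W _ _ H
  letI := act φ W H
  haveI : Finite (Om φ W H) := by
    unfold Om
    infer_instance
  refine ⟨Om φ W H, Fintype.ofFinite _, act φ W H, fun p => p.1, fun p => eo φ W H p.1,
    fun w p => ?_, fun w p => rfl, fun T hT M _ f => ?_⟩
  · exact eo_smul φ W H _ _
  · letI : Fintype (Om φ W H) := Fintype.ofFinite _
    have h1 := (show Function.Bijective (bij φ W H T) from
      ⟨bij_inj φ W H T hT, bij_sur φ W H T hT⟩).sum_comp f
    rw [← h1, Fintype.sum_prod_type]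
    refine Finset.sum_congr rfl fun p _ => ?_
    rw [Fintype.sum_prod_type, ← Finset.sum_coe_sort T]
    rfl

end Pool.Agent.PFD.D6.H47
end
end -- Pool.Agent.Helper47_PFD.ORB

section -- Pool.Agent.Helper59_PFD.CHS

/-!
# Squad PFD, block D6, row CHS (helper59): sums over cosets vanish
-/

open scoped BigOperators

noncomputable section

namespace Pool.Agent.PFD.D6.H59

open Pool.Agent.PFC

/-- a function on a finite `ℓ`-group with a nontrivial period has sum zero -/
theorem sum_inv {F V : Type} [Field F] [CommGroup V] [Fintype V] (ℓ : ℕ) [CharP F ℓ]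
    (hpr : ℓ.Prime) (hpg : IsPGroup ℓ V) (f : V → F) (k : V) (hk : k ≠ 1)
    (hf : ∀ w, f (w * k) = f w) : ∑ w, f w = 0 := by
  classical
  have hpr' : Fact ℓ.Prime := ⟨hpr⟩
  set K : Subgroup V := Subgroup.zpowers k with hK
  have hfn : ∀ (n : ℕ) (w : V), f (w * k ^ n) = f w := by
    intro n
    induction n with
    | zero =>
      intro w
      rw [pow_zero, mul_one]
    | succ n ih =>
      intro w
      rw [pow_succ, ← mul_assoc, hf, ih]
  have hfK : ∀ h ∈ K, ∀ w, f (w * h) = f w := by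
    intro h hh w
    have h1 : h ∈ Submonoid.powers k := mem_powers_iff_mem_zpowers.2 hh
    obtain ⟨n, rfl⟩ := h1
    exact hfn n w
  have hcard : ((Fintype.card K : ℕ) : F) = 0 := by
    rw [CharP.cast_eq_zero_iff F ℓ, Fintype.card_zpowers]
    obtain ⟨m, hm⟩ := IsPGroup.iff_orderOf.1 hpg k
    rw [hm]
    apply dvd_pow_self
    rintro rfl
    rw [pow_zero, orderOf_eq_one_iff] at hm
    exact hk hm
  have hbij : Function.Bijective (fun z : (V ⧸ K) × K => (z.1.out * (z.2 : V) : V)) := by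
    constructor
    · rintro ⟨q, w⟩ ⟨q', w'⟩ h
      have h' : q.out * (w : V) = q'.out * (w' : V) := h
      have hq : ∀ (q : V ⧸ K) (w : K), (QuotientGroup.mk (q.out * (w : V)) : V ⧸ K) = q := by
        intro q w
        rw [QuotientGroup.mk_mul_of_mem _ w.2]
        exact QuotientGroup.out_eq' q
      have h2 : q = q' := by rw [← hq q w, ← hq q' w', h']
      subst h2
      have h3 : (w : V) = w' := mul_left_cancel h'
      rw [Subtype.ext h3]
    · intro g
      have h1 : (QuotientGroup.mk g : V ⧸ K).out⁻¹ * g ∈ K := by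
        rw [← QuotientGroup.eq]
        exact QuotientGroup.out_eq' _
      exact ⟨(QuotientGroup.mk g, ⟨_, h1⟩), mul_inv_cancel_left _ _⟩
  rw [← hbij.sum_comp f, Fintype.sum_prod_type]
  apply Finset.sum_eq_zero
  intro q _
  have h1 : ∀ h : K, f (q.out * (h : V)) = f q.out := fun h => hfK h h.2 _
  simp only [h1]
  rw [Finset.sum_const, Finset.card_univ, nsmul_eq_mul, hcard, zero_mul]

theorem chs : ChsStmt := by
  intro F V E A _ _ _ _ _ _ ℓ _ φ W α n n' c lam hctf hunt hsym e he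
  obtain ⟨u, hu⟩ := hctf.nt
  have hinv : ∀ v : V, α v⁻¹ * α v = 1 := fun v => by
    rw [← map_mul, inv_mul_cancel, map_one]
  have hn' : ∀ v : V, n' e * α v = α (φ e⁻¹ v) * n' e := by
    intro v
    have h1 : φ e (φ e⁻¹ v) = v := by
      rw [← MulAut.mul_apply, ← map_mul, mul_inv_cancel, map_one, MulAut.one_apply]
    have h2 := hunt.tw e (φ e⁻¹ v)
    rw [h1] at h2
    calc n' e * α v = n' e * (α v * n e) * n' e := by
          rw [mul_assoc, mul_assoc, hunt.ri, mul_one]
      _ = n' e * (n e * α (φ e⁻¹ v)) * n' e := by rw [h2]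
      _ = α (φ e⁻¹ v) * n' e := by rw [← mul_assoc (n' e), hunt.li, one_mul]
  have key : ∀ (x : A) (e' : E), e' ≠ 1 → (∀ v, x * α v = α (φ e' v) * x) →
      ∑ w, lam (α w * x) = 0 := by
    intro x e' he' hx
    apply sum_inv ℓ hctf.pr hctf.pg (fun w => lam (α w * x)) (u⁻¹ * φ e' u)
    · intro h
      have h1 : φ e' u = u := (inv_mul_eq_one.1 h).symm
      rcases hctf.free e' u h1 with h2 | h2
      · exact he' h2
      · exact hu h2
    · intro w
      have h1 : α (w * (u⁻¹ * φ e' u)) * x = α u⁻¹ * (α w * x * α u) := by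
        rw [mul_assoc (α w), hx, ← mul_assoc (α w), ← mul_assoc (α u⁻¹), ← map_mul, ← map_mul]
        congr 2
        rw [mul_left_comm]
      have h2 : α u * α u⁻¹ = 1 := by rw [← map_mul, mul_inv_cancel, map_one]
      rw [h1, hsym, mul_assoc (α w * x), h2, mul_one]
  constructor
  · exact key (n' e) e⁻¹ (inv_ne_one.2 he) hn'
  · exact key (n e) e he (hunt.tw e)

end Pool.Agent.PFD.D6.H59
end
end -- Pool.Agent.Helper59_PFD.CHS

section -- Pool.Agent.Helper62_PFD.ALT

/-!
# Row ALT of squad PFD (MP_6a3f1a_al)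
-/

set_option autoImplicit false
set_option linter.unusedSectionVars false

open scoped BigOperators

noncomputable section

namespace Pool.Agent.PFD.D6.H62

open Pool.Agent.PFC
open Pool.Agent.PFC.B5a (FvtStmt TrsStmt BkiStmt FdbStmt Du)

section

variable {F V E A Ω : Type} [Field F] [CommGroup V] [Fintype V] [Group E] [Ring A] [Algebra F A]
  [Fintype Ω] [MulAction (V × V) Ω] {φ : E →* MulAut V} {W : Subgroup V} {α : V →* A}
  {q : A →ₗ[F] A} {b : Ω → A} {d : Ω → (A →ₗ[F] F)}

theorem bi_eq (v h : V) (x : A) : bi F α (v, h) x = α v * (x * α h⁻¹) := rfl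

theorem a_l (v : V) : α v⁻¹ * α v = 1 := by rw [← map_mul, inv_mul_cancel, map_one]

theorem a_r (v : V) : α v * α v⁻¹ = 1 := by rw [← map_mul, mul_inv_cancel, map_one]

theorem d_apply (hf : Fq F φ W α q b d) (v h : V) (ω : Ω) (x : A) :
    d (((v, h) : V × V) • ω) x = d ω (α v⁻¹ * x * α h) := by
  have h1 := hf.ed (v, h) ω (α v⁻¹ * x * α h)
  rw [bi_eq] at h1
  rw [← h1]
  congr 1
  calc x = α v * α v⁻¹ * x * (α h * α h⁻¹) := by rw [a_r, a_r, one_mul, mul_one]
    _ = _ := by noncomm_ring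

theorem b_apply (hf : Fq F φ W α q b d) (v h : V) (ω : Ω) :
    b (((v, h) : V × V) • ω) = α v * (b ω * α h⁻¹) := by
  rw [hf.eb (v, h) ω, bi_eq]

/-- `y ω` -/
def yy (d : Ω → (A →ₗ[F] F)) {m : ℕ} (c c' : Fin m → A) (ω : Ω) : A := ∑ k, d ω (c k) • c' k

theorem lam_yy (lam : A →ₗ[F] F) (d : Ω → (A →ₗ[F] F)) {m : ℕ} (c c' : Fin m → A)
    (hc : Du F lam c c') (ω : Ω) (x : A) : lam (yy d c c' ω * x) = d ω x := by
  unfold yy
  rw [Finset.sum_mul, map_sum]
  conv_rhs => rw [← hc x, map_sum]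
  refine Finset.sum_congr rfl fun k _ => ?_
  rw [smul_mul_assoc, map_smul, map_smul, smul_eq_mul, smul_eq_mul, mul_comm]

theorem yy_apply (hf : Fq F φ W α q b d) (lam : A →ₗ[F] F)
    (hsym : ∀ a b, lam (a * b) = lam (b * a)) (hnd : ∀ a, (∀ b, lam (a * b) = 0) → a = 0)
    {m : ℕ} (c c' : Fin m → A) (hc : Du F lam c c') (v h : V) (ω : Ω) :
    yy d c c' (((v, h) : V × V) • ω) = α h * yy d c c' ω * α v⁻¹ := by
  rw [← sub_eq_zero]
  apply hnd
  intro x
  rw [sub_mul, map_sub, lam_yy lam d c c' hc, d_apply hf]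
  have h1 : α h * yy d c c' ω * α v⁻¹ * x = α h * (yy d c c' ω * (α v⁻¹ * x)) := by
    noncomm_ring
  have h2 : yy d c c' ω * (α v⁻¹ * x) * α h = yy d c c' ω * (α v⁻¹ * x * α h) := by
    noncomm_ring
  rw [h1, hsym, h2, lam_yy lam d c c' hc, sub_self]

end

theorem alt : AltStmt := by
  intro omt trs F V E A Ω _ _ _ _ _ _ _ _ _ φ W α lam q b d hW hsym hnd hf
  obtain ⟨O, _, _, s, p, hps, hp, hcov, hsum, hfix⟩ := omt V E Ω φ (fun ω => by
    obtain ⟨e, R, -, h⟩ := hf.st ω
    exact ⟨e, R, h⟩)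
  refine ⟨∑ o, (d (s o)).smulRight (b (s o)), ?_, ?_⟩
  · intro x
    have e1 : ∀ z : A, (∑ o, (d (s o)).smulRight (b (s o))) z = ∑ o, d (s o) z • b (s o) := by
      intro z
      rw [LinearMap.sum_apply]
      rfl
    rw [← hf.sum x, hsum, Finset.sum_comm]
    rw [← Equiv.sum_comp (Equiv.inv V)]
    refine Finset.sum_congr rfl fun h _ => ?_
    rw [e1, Finset.sum_mul]
    refine Finset.sum_congr rfl fun o _ => ?_
    rw [d_apply hf, b_apply hf, Equiv.inv_apply, inv_one, map_one, one_mul, one_mul,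
      smul_mul_assoc, inv_inv]
  · intro m c c' hc ζ hζ
    set U : Ω → A := fun ω => b ω * ζ * yy d c c' ω with hU
    have hU1 : ∀ (v h : V) (ω : Ω), U (((v, h) : V × V) • ω) = cj F α v (U ω) := by
      intro v h ω
      have e1 : cj F α v (U ω) = α v * (U ω * α v⁻¹) := rfl
      rw [e1, hU]
      show b (((v, h) : V × V) • ω) * ζ * yy d c c' (((v, h) : V × V) • ω) = _
      rw [b_apply hf, yy_apply hf lam hsym hnd c c' hc]
      have e2 : α v * (b ω * α h⁻¹) * ζ * (α h * yy d c c' ω * α v⁻¹) =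
          α v * (b ω * (α h⁻¹ * (ζ * α h)) * yy d c c' ω * α v⁻¹) := by noncomm_ring
      rw [e2, hζ h, ← mul_assoc (α h⁻¹), a_l, one_mul]
    have hU2 : ∀ (v : V) (o : O), U (s (v • o)) = cj F α v (U (s o)) := by
      intro v o
      obtain ⟨h, hh⟩ := hcov (((v, 1) : V × V) • s o)
      rw [hp, hps] at hh
      rw [← hU1 v 1 (s o), hh, hU1, map_one]
      rfl
    have hsum2 : ∑ k, (∑ o, (d (s o)).smulRight (b (s o))) (c k) * ζ * c' k =
        ∑ o ∈ Finset.univ, U (s o) := by
      have e1 : ∀ k, (∑ o, (d (s o)).smulRight (b (s o))) (c k) * ζ * c' k =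
          ∑ o, b (s o) * ζ * (d (s o) (c k) • c' k) := by
        intro k
        rw [LinearMap.sum_apply, Finset.sum_mul, Finset.sum_mul]
        refine Finset.sum_congr rfl fun o _ => ?_
        show d (s o) (c k) • b (s o) * ζ * c' k = _
        rw [smul_mul_assoc, smul_mul_assoc, mul_smul_comm]
      rw [Finset.sum_congr rfl fun k _ => e1 k, Finset.sum_comm]
      refine Finset.sum_congr rfl fun o _ => ?_
      rw [← Finset.mul_sum]
      rfl
    rw [hsum2]
    refine trs F V A O (cj F α) ⊤ (fun o => U (s o)) Finset.univ (fun o _ h _ => Finset.mem_univ _)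
      ?_ (fun h _ o => hU2 h o)
    intro o _ hfx
    obtain ⟨e, R, hR, hst⟩ := hf.st (s o)
    have h1 := hfix (s o) e R hst (fun v => by rw [hps]; exact hfx v (Subgroup.mem_top v))
    rw [h1, top_le_iff] at hR
    exact hW hR

end Pool.Agent.PFD.D6.H62
end
end -- Pool.Agent.Helper62_PFD.ALT

section -- Pool.Agent.Helper65_PFD.AVE

/-! Squad PFD, block D6b, row AVE: averaging over `E`. -/

set_option autoImplicit false

open scoped BigOperators

namespace Pool.Agent.PFD.D6.H65

open Pool.Agent.PFD Pool.Agent.PFD.D6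

theorem ave : AveStmt := by
  intro F V E A _ _ _ _ _ _ _ φ α n n' c q al hU hE hq hal x
  have h1 : ∀ e : E, ∑ v : V, (((Nat.card E : F)⁻¹ • al) (x * gg' α n' (v, e))) * gg α n (v, e) =
      (Nat.card E : F)⁻¹ • q x := by
    intro e
    have h2 : ∀ v : V, (((Nat.card E : F)⁻¹ • al) (x * gg' α n' (v, e))) * gg α n (v, e) =
        ((Nat.card E : F)⁻¹ • (al (x * n' e * α v⁻¹) * α v)) * n e := by
      intro v
      show ((Nat.card E : F)⁻¹ • al (x * (n' e * α v⁻¹))) * (α v * n e) = _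
      rw [← mul_assoc x, smul_mul_assoc, smul_mul_assoc, mul_assoc (al _)]
    rw [Finset.sum_congr rfl fun v _ => h2 v, ← Finset.sum_mul, ← Finset.smul_sum, hal,
      smul_mul_assoc, ← hq, mul_assoc, hU.li, mul_one]
  rw [Fintype.sum_prod_type, Finset.sum_comm, Finset.sum_congr rfl fun e _ => h1 e,
    Finset.sum_const, Finset.card_univ, ← Nat.card_eq_fintype_card, ← Nat.cast_smul_eq_nsmul F,
    smul_smul, mul_inv_cancel₀ hE, one_smul]

end Pool.Agent.PFD.D6.H65
end -- Pool.Agent.Helper65_PFD.AVE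

section -- Pool.Agent.Helper6_PFD.CAT

set_option autoImplicit false

/-!
PFD row CAT: the relative dual basis and the Casimir element over `S`
(after helper53's proof of CAS).
-/

open scoped BigOperators

noncomputable section

namespace Pool.Agent.PFD.D6.H6

open Pool.Agent.PFC
open Pool.Agent.PFC.B5a (Du)

theorem cat : CatStmt := by
  intro hP F A ι _ _ _ _ S g g' lam c' al m b b' hT hs hnd hC hal hd
  obtain ⟨emem, el, er, eL, eC, -⟩ := hP F A ι S g g' lam c' hT hs hC
  set E : A → A := Ev F g g' lam with hE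
  have hEx : ∀ x, E x = ∑ i, lam (g' i * x) • g i := fun x => rfl
  have h2 : ∀ a : A, c' * E a + ∑ k, al (b k) * E (b' k * a) = a := by
    intro a
    have h1 : ∑ k, al (b k) * E (b' k * a) = a - E a * c' := by
      rw [← hal a]
      have h3 : ∀ k, al (b k) * E (b' k * a) =
          ∑ h, lam (b' k * (a * g' h)) • (al (b k) * g h) := by
        intro k
        rw [hEx, Finset.mul_sum]
        refine Finset.sum_congr rfl fun h _ => ?_
        rw [mul_smul_comm, hs (g' h), mul_assoc]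
      rw [Finset.sum_congr rfl fun k _ => h3 k, Finset.sum_comm]
      refine Finset.sum_congr rfl fun h _ => ?_
      rw [show al (a * g' h) = al (∑ k, lam (b' k * (a * g' h)) • b k) from
        congrArg al (hd _).symm, map_sum, Finset.sum_mul]
      refine Finset.sum_congr rfl fun k _ => ?_
      rw [map_smul, smul_mul_assoc]
    rw [h1, hC.com _ (emem a)]
    abel
  have h4 : ∀ z : A, E (z * c') * 1 + ∑ k, E (z * al (b k)) * b' k = z := by
    intro z
    rw [← sub_eq_zero]
    refine hnd _ fun a => ?_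
    rw [sub_mul, map_sub, sub_eq_zero, add_mul, map_add, Finset.sum_mul, map_sum]
    have e1 : lam (z * a) = lam (z * c' * E a) +
        ∑ k, lam (z * al (b k) * E (b' k * a)) := by
      conv_lhs => rw [← h2 a]
      rw [mul_add, map_add, Finset.mul_sum, map_sum, ← mul_assoc]
      congr 1
      refine Finset.sum_congr rfl fun k _ => ?_
      rw [mul_assoc]
    rw [e1, mul_one, eL]
    congr 1
    refine Finset.sum_congr rfl fun k _ => ?_
    rw [eL, mul_assoc]
  refine ⟨?_, ?_, ?_⟩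
  · intro a
    rw [Fintype.sum_option]
    simp only [Option.elim]
    rw [one_mul]
    exact h2 a
  · intro a
    rw [Fintype.sum_option]
    simp only [Option.elim]
    exact h4 a
  · intro X _ _ T hTb c
    have hTE : ∀ a z y : A, T (a * E z) y = T a (E z * y) := fun a z y => hTb a y _ (emem z)
    rw [Fintype.sum_option, Fintype.sum_option]
    simp only [Option.elim]
    have h5 : ∀ a y : A, T a y = T c' (E a * y) +
        ∑ k, T (al (b k)) (E (b' k * a) * y) := by
      intro a y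
      conv_lhs => rw [← h2 a]
      rw [map_add, LinearMap.add_apply, map_sum, LinearMap.sum_apply, hTE]
      congr 1
      refine Finset.sum_congr rfl fun k _ => ?_
      rw [hTE]
    have h6 : ∀ z : A, T c' (1 * z) = T c' (E (z * c') * 1) +
        ∑ k, T c' (E (z * al (b k)) * b' k) := by
      intro z
      conv_lhs => rw [one_mul, ← h4 z]
      rw [map_add, map_sum]
    have h7 : ∀ (j : Fin m), T (al (b j)) (b' j * c) =
        T (al (b j)) (E (b' j * (c * c')) * 1) +
        ∑ k, T (al (b j)) (E (b' j * (c * al (b k))) * b' k) := by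
      intro j
      conv_lhs => rw [← h4 (b' j * c)]
      rw [map_add, map_sum, mul_assoc]
      congr 1
      refine Finset.sum_congr rfl fun k _ => ?_
      rw [mul_assoc (b' j)]
    rw [h5 (c * c') 1, Finset.sum_congr rfl fun k (_ : k ∈ Finset.univ) => h5 (c * al (b k)) (b' k),
      h6 c, Finset.sum_congr rfl fun j (_ : j ∈ Finset.univ) => h7 j, Finset.sum_add_distrib,
      Finset.sum_add_distrib, Finset.sum_comm]
    abel

end Pool.Agent.PFD.D6.H6
end
end -- Pool.Agent.Helper6_PFD.CAT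

section -- Pool.Agent.Helper6_PFD.PRJ

set_option autoImplicit false

/-!
PFD row PRJ: the projection to the complement, from the Casimir identities.
-/

open scoped BigOperators

noncomputable section

namespace Pool.Agent.PFD.D6.H6

open Pool.Agent.PFC

theorem prj : PrjStmt := by
  intro F A ι _ _ _ _ S g g' lam c' hT hs hC
  set E : A → A := Ev F g g' lam with hE
  have hEx : ∀ x, E x = ∑ i, lam (g' i * x) • g i := fun x => rfl
  have eadd : ∀ x y, E (x + y) = E x + E y := by
    intro x y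
    rw [hEx, hEx, hEx, ← Finset.sum_add_distrib]
    refine Finset.sum_congr rfl fun i _ => ?_
    rw [mul_add, map_add, add_smul]
  have esmul : ∀ (r : F) x, E (r • x) = r • E x := by
    intro r x
    rw [hEx, hEx, Finset.smul_sum]
    refine Finset.sum_congr rfl fun i _ => ?_
    rw [mul_smul_comm, map_smul, smul_eq_mul, mul_smul]
  have emem : ∀ x, E x ∈ S := by
    intro x
    rw [hT.spn, hEx]
    exact Submodule.sum_mem _ fun i _ => Submodule.smul_mem _ _ (Submodule.subset_span ⟨i, rfl⟩)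
  have el : ∀ s ∈ S, ∀ x, E (s * x) = s * E x := by
    intro s hsS x
    have h := hT.cs1 A ((LinearMap.lsmul F A).comp
      (lam.comp (LinearMap.mulRight F x))) s hsS
    have h1 : ∀ a b : A, ((LinearMap.lsmul F A).comp
      (lam.comp (LinearMap.mulRight F x))) a b = lam (a * x) • b := fun a b => rfl
    simp only [h1] at h
    rw [hEx, hEx, Finset.mul_sum]
    refine Eq.trans ?_ (h.trans ?_)
    · refine Finset.sum_congr rfl fun i _ => ?_
      rw [mul_assoc]
    · refine Finset.sum_congr rfl fun i _ => ?_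
      rw [mul_smul_comm]
  have er : ∀ s ∈ S, ∀ x, E (x * s) = E x * s := by
    intro s hsS x
    have h := hT.cs2 A ((LinearMap.lsmul F A).comp
      (lam.comp (LinearMap.mulRight F x))) s hsS
    have h1 : ∀ a b : A, ((LinearMap.lsmul F A).comp
      (lam.comp (LinearMap.mulRight F x))) a b = lam (a * x) • b := fun a b => rfl
    simp only [h1] at h
    rw [hEx, hEx, Finset.sum_mul]
    refine Eq.trans ?_ (h.trans ?_)
    · refine Finset.sum_congr rfl fun i _ => ?_
      rw [← mul_assoc, hs _ s, ← mul_assoc]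
    · refine Finset.sum_congr rfl fun i _ => ?_
      rw [smul_mul_assoc]
  have eL : ∀ x y, lam (x * E y) = lam (E x * y) := by
    intro x y
    have h := hT.cs3 F ((LinearMap.mul F F).compl₁₂ (lam.comp (LinearMap.mulRight F y))
      (lam.comp (LinearMap.mulLeft F x)))
    have h1 : ∀ a b : A, ((LinearMap.mul F F).compl₁₂ (lam.comp (LinearMap.mulRight F y))
      (lam.comp (LinearMap.mulLeft F x))) a b = lam (a * y) * lam (x * b) := fun a b => rfl
    simp only [h1] at h
    rw [hEx, hEx, Finset.mul_sum, Finset.sum_mul, map_sum, map_sum]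
    refine Eq.trans ?_ (h.trans ?_)
    · refine Finset.sum_congr rfl fun i _ => ?_
      rw [mul_smul_comm, map_smul, smul_eq_mul]
    · refine Finset.sum_congr rfl fun i _ => ?_
      rw [smul_mul_assoc, map_smul, smul_eq_mul, hs x (g' i), mul_comm]
  have e1 : ∀ s ∈ S, E s = s * E 1 := by
    intro s hsS
    have h := el s hsS 1
    rwa [mul_one] at h
  have hlin : c' * E 1 = 1 := hC.lin
  have hrin : E 1 * c' = 1 := hC.rin
  refine ⟨emem, el, er, eL, ?_, ?_⟩
  · intro x
    rw [← er c' hC.mem x]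
    have h := eL 1 (x * c')
    rw [one_mul] at h
    rw [h, hs, mul_assoc, hlin, mul_one]
  · let EL : A →ₗ[F] A := { toFun := E, map_add' := eadd, map_smul' := esmul }
    have hq : ∀ x, (LinearMap.id - (LinearMap.mulRight F c').comp EL : A →ₗ[F] A) x =
        x - E x * c' := fun x => rfl
    have esub : ∀ x y, E (x - y) = E x - E y := fun x y => map_sub EL x y
    refine ⟨LinearMap.id - (LinearMap.mulRight F c').comp EL, hq, ?_, ?_, ?_, ?_⟩
    · intro x
      have h0 : E (x - E x * c') = 0 := by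
        rw [esub, e1 _ (S.mul_mem (emem x) hC.mem), mul_assoc, hlin, mul_one, sub_self]
      rw [hq x, hq (x - E x * c'), h0, zero_mul, sub_zero]
    · intro s hsS x
      rw [hq, hq, el s hsS, mul_sub, mul_assoc]
    · intro s hsS x
      rw [hq, hq, er s hsS, sub_mul, mul_assoc, mul_assoc, hC.com s hsS]
    · intro s hsS
      rw [hq, e1 s hsS, mul_assoc, hrin, mul_one, sub_self]

end Pool.Agent.PFD.D6.H6
end
end -- Pool.Agent.Helper6_PFD.PRJ

section -- Pool.Agent.Helper6_PFD.QWF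

set_option autoImplicit false

/-!
PFD row QWF: the frame of the complement of the twisted group algebra.
-/

open scoped BigOperators

noncomputable section

namespace Pool.Agent.PFD.D6.H6

open Pool.Agent.PFC

/-- transport of Brauer kernels along an injective homomorphism -/
theorem BK_map {F G H M N : Type} [Field F] [Group G] [Group H] [AddCommGroup M] [Module F M]
    [AddCommGroup N] [Module F N] (ρ : G →* (M →ₗ[F] M)) (σ : H →* (N →ₗ[F] N)) (j : G →* H)
    (hj : Function.Injective j) (Θ : M →ₗ[F] N) (hΘ : ∀ g m, Θ (ρ g m) = σ (j g) (Θ m))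
    (R : Subgroup G) (z : M) (hz : z ∈ BK ρ R) : Θ z ∈ BK σ (R.map j) := by
  classical
  unfold BK at hz
  induction hz using Submodule.span_induction with
  | mem n hn =>
    obtain ⟨P', S, m, hlt, hS, hm, rfl⟩ := hn
    apply Submodule.subset_span
    refine ⟨P'.map j, S.image j, Θ m, ?_, ⟨?_, ?_⟩, ?_, ?_⟩
    · exact lt_of_le_of_ne (Subgroup.map_mono hlt.le)
        (fun h => hlt.ne (Subgroup.map_injective hj h))
    · intro s hs
      obtain ⟨s0, hs0, rfl⟩ := Finset.mem_image.1 hs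
      exact Subgroup.mem_map_of_mem j (hS.1 s0 hs0)
    · rintro p ⟨p0, hp0, rfl⟩
      obtain ⟨s0, ⟨hs0, hs1⟩, hs2⟩ := hS.2 p0 hp0
      refine ⟨j s0, ⟨Finset.mem_image_of_mem j hs0, ?_⟩, ?_⟩
      · rw [← map_inv, ← map_mul]
        exact Subgroup.mem_map_of_mem j hs1
      · rintro s ⟨hs, hs'⟩
        obtain ⟨s1, hs1', rfl⟩ := Finset.mem_image.1 hs
        rw [← map_inv, ← map_mul, Subgroup.mem_map_iff_mem hj] at hs'
        rw [hs2 s1 ⟨hs1', hs'⟩]
    · rintro h ⟨v, hv, rfl⟩
      rw [← hΘ, hm v hv]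
    · rw [map_sum, Finset.sum_image (fun x _ y _ h => hj h)]
      exact Finset.sum_congr rfl fun s _ => hΘ s m
  | zero =>
    rw [map_zero]
    exact Submodule.zero_mem _
  | add a b _ _ ha hb =>
    rw [map_add]
    exact Submodule.add_mem _ ha hb
  | smul r a _ ha =>
    rw [map_smul]
    exact Submodule.smul_mem _ _ ha

theorem exσ {F G A : Type} [Field F] [Group G] [Ring A] [Algebra F A] (γ : G →* A)
    (P : Submodule F A) (hP : ∀ (g h : G), ∀ x ∈ P, γ g * x * γ h ∈ P) :
    ∃ σ : G × G →* (P →ₗ[F] P), ∀ w (x : P), ((σ w x : P) : A) = γ w.1 * x * γ w.2⁻¹ := by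
  refine ⟨{ toFun := fun w => LinearMap.codRestrict P
              (((LinearMap.mulLeft F (γ w.1)).comp (LinearMap.mulRight F (γ w.2⁻¹))).comp
                P.subtype) (fun x => ?_), map_one' := ?_, map_mul' := ?_ }, fun w x => ?_⟩
  · show γ w.1 * ((x : A) * γ w.2⁻¹) ∈ P
    rw [← mul_assoc]
    exact hP _ _ _ x.2
  · apply LinearMap.ext
    intro x
    apply Subtype.ext
    show γ 1 * ((x : A) * γ 1⁻¹) = x
    rw [inv_one, map_one, one_mul, mul_one]
  · intro w w'
    apply LinearMap.ext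
    intro x
    apply Subtype.ext
    show γ (w.1 * w'.1) * ((x : A) * γ (w.2 * w'.2)⁻¹) =
      γ w.1 * (γ w'.1 * ((x : A) * γ w'.2⁻¹) * γ w.2⁻¹)
    rw [mul_inv_rev, map_mul, map_mul]
    simp only [mul_assoc]
  · show γ w.1 * ((x : A) * γ w.2⁻¹) = _
    rw [mul_assoc]

theorem qwf (hpsx : PsxStmt) (hpsm : PsmStmt) : QwfStmt := by
  intro F V E A _ _ _ _ _ _ _ ℓ _ φ W α n n' c q hctf hU hPS hSpn hqq hql hqr hqn
  have hfact : Fact ℓ.Prime := ⟨hctf.pr⟩
  set P : Submodule F A := LinearMap.range q with hPdef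
  have hPx : ∀ x ∈ P, q x = x := by
    rintro x ⟨y, rfl⟩
    exact hqq y
  have hlr : ∀ (g h : V) (a : A), q (α g * a * α h) = α g * q a * α h := by
    intro g h a
    rw [hqr, hql]
  have hP : ∀ (g h : V), ∀ x ∈ P, α g * x * α h ∈ P := by
    rintro g h x ⟨y, rfl⟩
    exact ⟨α g * y * α h, hlr g h y⟩
  obtain ⟨σ, hσ⟩ := exσ (F := F) α P hP
  set p : A →ₗ[F] P := LinearMap.codRestrict P q (fun x => ⟨x, rfl⟩) with hp
  have hpx : ∀ a, ((p a : P) : A) = q a := fun _ => rfl
  have hpi : ∀ x : P, p (x : A) = x := by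
    intro x
    apply Subtype.ext
    rw [hpx]
    exact hPx _ x.2
  have hbi : ∀ (w : V × V) (a : A), bi F α w a = α w.1 * a * α w.2⁻¹ := by
    intro w a
    show α w.1 * (a * α w.2⁻¹) = _
    rw [← mul_assoc]
  have hpσ : ∀ (w : V × V) (a : A), p (bi F α w a) = σ w (p a) := by
    intro w a
    apply Subtype.ext
    rw [hσ, hpx, hpx, hbi, hlr]
  have hPSσ : PS (fun K => ∃ (e : E) (R : Subgroup V), K = tw (φ e).toMonoidHom R) σ := by
    refine hpsm F (V × V) A P (bi F α) σ _ P.subtype p ?_ ?_ ?_ hPS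
    · intro w x
      rw [hbi]
      exact hσ w x
    · intro w a
      exact hpσ w a
    · intro x
      exact hpi x
  have hpg : IsPGroup ℓ (V × V) := by
    rw [IsPGroup.iff_card]
    obtain ⟨m, hm⟩ := (IsPGroup.iff_card).1 hctf.pg
    exact ⟨m + m, by rw [Nat.card_prod, hm, pow_add]⟩
  -- the Brauer quotients at `tw (φ e) R`, `R` not in `W`, vanish
  have key : ∀ (e : E) (R : Subgroup V), ¬ R ≤ W →
      Fx σ (tw (φ e).toMonoidHom R) ≤ BK σ (tw (φ e).toMonoidHom R) := by
    intro e R hR x hx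
    set j : V →* V × V := (φ e).toMonoidHom.prod (MonoidHom.id V) with hj
    have hjinj : Function.Injective j := by
      intro u v h
      exact congrArg Prod.snd h
    have hmap : R.map j = tw (φ e).toMonoidHom R := rfl
    have hcomm : ∀ v : V, α (φ e v) * n e = n e * α v := fun v => (hU.tw e v).symm
    have hcomm' : ∀ v : V, n' e * α (φ e v) = α v * n' e := by
      intro v
      calc n' e * α (φ e v) = n' e * (α (φ e v) * n e) * n' e := by
              rw [mul_assoc, mul_assoc, hU.ri, mul_one]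
        _ = α v * n' e := by
              rw [hcomm, ← mul_assoc, hU.li, one_mul]
    set Θ : A →ₗ[F] P := p.comp (LinearMap.mulLeft F (n e)) with hΘ
    have hΘσ : ∀ (v : V) (a : A), Θ (cj F α v a) = σ (j v) (Θ a) := by
      intro v a
      show p (n e * (α v * (a * α v⁻¹))) = σ (j v) (p (n e * a))
      rw [← hpσ, hbi]
      congr 1
      show _ = α (φ e v) * (n e * a) * α v⁻¹
      rw [← mul_assoc (α (φ e v)), hcomm]
      simp only [mul_assoc]
    have hfix : n' e * (x : A) ∈ Fx (cj F α) R := by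
      intro v hv
      have h1 : σ (j v) x = x := hx (j v) (Subgroup.mem_map_of_mem j hv)
      have h2 : ((σ (j v) x : P) : A) = (x : A) := congrArg Subtype.val h1
      rw [hσ] at h2
      have h3 : α (φ e v) * (x : A) * α v⁻¹ = x := h2
      show α v * (n' e * (x : A) * α v⁻¹) = n' e * (x : A)
      conv_rhs => rw [← h3]
      simp only [← mul_assoc]
      rw [hcomm']
    obtain ⟨cf, hcf⟩ := hSpn R hR _ hfix
    have h4 := BK_map (cj F α) σ j hjinj Θ hΘσ R _ hcf
    rw [hmap, map_sub, map_sum] at h4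
    have h5 : ∀ u : V, Θ (cf u • α u) = 0 := by
      intro u
      rw [map_smul]
      have h6 : Θ (α u) = 0 := by
        apply Subtype.ext
        exact hqn e u
      rw [h6, smul_zero]
    rw [Finset.sum_congr rfl fun u _ => h5 u, Finset.sum_const_zero, sub_zero] at h4
    have h7 : Θ (n' e * (x : A)) = x := by
      show p (n e * (n' e * (x : A))) = x
      rw [← mul_assoc, hU.ri, one_mul]
      exact hpi x
    rw [h7] at h4
    exact h4
  obtain ⟨Ω, i1, i2, b, d, hfr, hst⟩ :=
    hpsx ℓ F (V × V) P σ _ hpg (fun x y => mul_comm x y) hPSσ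
  refine ⟨Ω, i1, i2, fun ω => (b ω : A), fun ω => (d ω).comp p, ?_, ?_, ?_, ?_⟩
  · intro w ω
    show ((b (w • ω) : P) : A) = bi F α w (b ω)
    rw [hfr.1, hσ, hbi]
  · intro w ω x
    show d (w • ω) (p (bi F α w x)) = d ω (p x)
    rw [hpσ, hfr.2.1]
  · intro x
    have h := congrArg Subtype.val (hfr.2.2 (p x))
    rw [Submodule.coe_sum] at h
    exact h
  · intro ω
    obtain ⟨⟨e, R, hR⟩, hne⟩ := hst ω
    refine ⟨e, R, ?_, hR⟩
    by_contra hnot
    apply hne
    rw [hR]
    exact key e R hnot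

end Pool.Agent.PFD.D6.H6
end
end -- Pool.Agent.Helper6_PFD.QWF

section -- Pool.Agent.Helper6_PFD.TGT

set_option autoImplicit false

/-!
PFD row TGT: the twisted group algebra in `A` and its Casimir element.
-/

open scoped BigOperators

noncomputable section

namespace Pool.Agent.PFD.D6.H6

open Pool.Agent.PFC

section

variable {F V E A : Type} [Field F] [CommGroup V] [Group E] [Ring A] [Algebra F A]
  {φ : E →* MulAut V} {α : V →* A} {n n' : E → A} {c : E → E → F}

theorem unt_n'1 (h : Unt φ α n n' c) : n' 1 = 1 := by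
  have h1 := h.li 1
  rwa [h.one, mul_one] at h1

theorem unt_c [Nontrivial A] (h : Unt φ α n n' c) (e f : E) : c e f ≠ 0 := by
  intro h0
  have h1 := h.mul e f
  rw [h0, zero_smul] at h1
  have h2 : n' f * (n' e * (n e * n f)) = 1 := by
    rw [← mul_assoc (n' e), h.li, one_mul, h.li]
  rw [h1, mul_zero, mul_zero] at h2
  exact zero_ne_one h2

/-- uniqueness of the inverse of `n e` -/
theorem unt_uni (h : Unt φ α n n' c) (e : E) {x : A} (hx : x * n e = 1) : x = n' e := by
  have h1 : x * n e * n' e = n' e := by rw [hx, one_mul]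
  rwa [mul_assoc, h.ri, mul_one] at h1

theorem unt_uni' (h : Unt φ α n n' c) (e : E) {x : A} (hx : n e * x = 1) : x = n' e := by
  have h1 : n' e * (n e * x) = n' e := by rw [hx, mul_one]
  rwa [← mul_assoc, h.li, one_mul] at h1

theorem unt_n'mul (h : Unt φ α n n' c) (e f : E) : n' (e * f) = c e f • (n' f * n' e) := by
  refine (unt_uni h (e * f) ?_).symm
  rw [smul_mul_assoc, ← mul_smul_comm, ← h.mul]
  rw [mul_assoc, ← mul_assoc (n' e), h.li, one_mul, h.li]

theorem unt_nmul [Nontrivial A] (h : Unt φ α n n' c) (e f : E) :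
    n (e * f) = (c e f)⁻¹ • (n e * n f) := by
  rw [h.mul, smul_smul, inv_mul_cancel₀ (unt_c h e f), one_smul]

/-- `n e⁻¹ = c • n' e` -/
theorem unt_ninv (h : Unt φ α n n' c) (e : E) : n e⁻¹ = c e⁻¹ e • n' e := by
  have h1 := h.mul e⁻¹ e
  rw [inv_mul_cancel, h.one] at h1
  have h2 : n e⁻¹ * n e * n' e = c e⁻¹ e • n' e := by
    rw [h1, smul_mul_assoc, one_mul]
  rwa [mul_assoc, h.ri, mul_one] at h2

/-- `n' e = c⁻¹ • n e⁻¹` -/
theorem unt_n'inv [Nontrivial A] (h : Unt φ α n n' c) (e : E) :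
    n' e = (c e⁻¹ e)⁻¹ • n e⁻¹ := by
  rw [unt_ninv h, smul_smul, inv_mul_cancel₀ (unt_c h _ _), one_smul]

/-- `n' e⁻¹ = c⁻¹ • n e` -/
theorem unt_n'inv' [Nontrivial A] (h : Unt φ α n n' c) (e : E) :
    n' e⁻¹ = (c e⁻¹ e)⁻¹ • n e := by
  refine (unt_uni' h e⁻¹ ?_).symm
  rw [unt_ninv h, smul_mul_smul_comm, h.li, mul_inv_cancel₀ (unt_c h _ _), one_smul]

theorem unt_tw' (h : Unt φ α n n' c) (e : E) (u : V) : n' e * α (φ e u) = α u * n' e := by
  calc n' e * α (φ e u) = n' e * (α (φ e u) * n e) * n' e := by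
          rw [mul_assoc, mul_assoc, h.ri, mul_one]
    _ = α u * n' e := by
          rw [← h.tw, ← mul_assoc, h.li, one_mul]

theorem phi_inv (e : E) (u : V) : φ e (φ e⁻¹ u) = u := by
  rw [map_inv]
  exact (φ e).apply_symm_apply u

theorem gg_mul (h : Unt φ α n n' c) (v u : V) (e f : E) :
    gg α n (v, e) * gg α n (u, f) = c e f • gg α n (v * φ e u, e * f) := by
  show α v * n e * (α u * n f) = c e f • (α (v * φ e u) * n (e * f))
  rw [← mul_smul_comm, ← h.mul, map_mul]
  have h1 := h.tw e u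
  calc α v * n e * (α u * n f) = α v * (n e * α u) * n f := by simp only [mul_assoc]
    _ = α v * α (φ e u) * (n e * n f) := by rw [h1]; simp only [mul_assoc]

end

theorem tgt : TgtStmt := by
  intro F V E A _ _ _ _ _ _ _ _ φ α n n' c hU
  set g := gg α n with hg
  set g' := gg' α n' with hg'
  have hgx : ∀ v e, g (v, e) = α v * n e := fun v e => rfl
  have hgx' : ∀ v e, g' (v, e) = n' e * α v⁻¹ := fun v e => rfl
  have hαg : ∀ v, α v = g (v, 1) := by
    intro v
    rw [hgx, hU.one, mul_one]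
  have hng : ∀ e, n e = g (1, e) := by
    intro e
    rw [hgx, map_one, one_mul]
  let P : Submodule F A := Submodule.span F (Set.range g)
  have hgP : ∀ p, g p ∈ P := fun p => Submodule.subset_span ⟨p, rfl⟩
  have h1P : (1 : A) ∈ P := by
    have h := hgP (1, 1)
    rwa [← hαg, map_one] at h
  have hmP : ∀ x y, x ∈ P → y ∈ P → x * y ∈ P := by
    intro x y hx hy
    induction hx using Submodule.span_induction with
    | mem a ha =>
      obtain ⟨⟨v, e⟩, rfl⟩ := ha
      induction hy using Submodule.span_induction with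
      | mem b hb =>
        obtain ⟨⟨u, f⟩, rfl⟩ := hb
        rw [gg_mul hU]
        exact P.smul_mem _ (hgP _)
      | zero => rw [mul_zero]; exact P.zero_mem
      | add b b' _ _ h h' => rw [mul_add]; exact P.add_mem h h'
      | smul r b _ h => rw [mul_smul_comm]; exact P.smul_mem _ h
    | zero => rw [zero_mul]; exact P.zero_mem
    | add a a' _ _ h h' => rw [add_mul]; exact P.add_mem h h'
    | smul r a _ h => rw [smul_mul_assoc]; exact P.smul_mem _ h
  let S : Subalgebra F A := P.toSubalgebra h1P hmP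
  have hSP : ∀ x, x ∈ S ↔ x ∈ P := fun x => Iff.rfl
  have hαS : ∀ u, α u ∈ S := by
    intro u
    rw [hαg]
    exact hgP _
  have hnS : ∀ e, n e ∈ S := by
    intro e
    rw [hng]
    exact hgP _
  have hn'S : ∀ e, n' e ∈ S := by
    intro e
    rw [unt_n'inv hU]
    exact S.smul_mem (hnS _) _
  -- the sets of the elements with cs1, cs2
  let C1 : A → Prop := fun s => ∀ (X : Type) [AddCommGroup X] [Module F X]
    (T : A →ₗ[F] A →ₗ[F] X), ∑ i, T (g' i * s) (g i) = ∑ i, T (g' i) (s * g i)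
  let C2 : A → Prop := fun s => ∀ (X : Type) [AddCommGroup X] [Module F X]
    (T : A →ₗ[F] A →ₗ[F] X), ∑ i, T (s * g' i) (g i) = ∑ i, T (g' i) (g i * s)
  have c1mul : ∀ s t, C1 s → C1 t → C1 (s * t) := by
    intro s t h1 h2 X _ _ T
    have e1 := h1 X (T.comp (LinearMap.mulRight F t))
    have e2 := h2 X (T.compl₂ (LinearMap.mulLeft F s))
    have a1 : ∀ a b : A, (T.comp (LinearMap.mulRight F t)) a b = T (a * t) b := fun a b => rfl
    have a2 : ∀ a b : A, (T.compl₂ (LinearMap.mulLeft F s)) a b = T a (s * b) := fun a b => rfl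
    simp only [a1] at e1
    simp only [a2] at e2
    simp only [← mul_assoc] at e1 e2 ⊢
    rw [e1, e2]
  have c2mul : ∀ s t, C2 s → C2 t → C2 (s * t) := by
    intro s t h1 h2 X _ _ T
    have e2 := h2 X (T.comp (LinearMap.mulLeft F s))
    have e1 := h1 X (T.compl₂ (LinearMap.mulRight F t))
    have a2 : ∀ a b : A, (T.comp (LinearMap.mulLeft F s)) a b = T (s * a) b := fun a b => rfl
    have a1 : ∀ a b : A, (T.compl₂ (LinearMap.mulRight F t)) a b = T a (b * t) := fun a b => rfl
    simp only [a1] at e1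
    simp only [a2] at e2
    simp only [mul_assoc] at e1 e2 ⊢
    rw [e2, e1]
  have c1add : ∀ s t, C1 s → C1 t → C1 (s + t) := by
    intro s t h1 h2 X _ _ T
    have e1 := h1 X T
    have e2 := h2 X T
    simp only [mul_add, add_mul, map_add, LinearMap.add_apply, Finset.sum_add_distrib]
    rw [e1, e2]
  have c2add : ∀ s t, C2 s → C2 t → C2 (s + t) := by
    intro s t h1 h2 X _ _ T
    have e1 := h1 X T
    have e2 := h2 X T
    simp only [mul_add, add_mul, map_add, LinearMap.add_apply, Finset.sum_add_distrib]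
    rw [e1, e2]
  have c1smul : ∀ (r : F) s, C1 s → C1 (r • s) := by
    intro r s h1 X _ _ T
    have e1 := h1 X T
    simp only [mul_smul_comm, smul_mul_assoc, map_smul, LinearMap.smul_apply]
    rw [← Finset.smul_sum, ← Finset.smul_sum, e1]
  have c2smul : ∀ (r : F) s, C2 s → C2 (r • s) := by
    intro r s h1 X _ _ T
    have e1 := h1 X T
    simp only [mul_smul_comm, smul_mul_assoc, map_smul, LinearMap.smul_apply]
    rw [← Finset.smul_sum, ← Finset.smul_sum, e1]
  have c1z : C1 0 := by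
    intro X _ _ T
    simp
  have c2z : C2 0 := by
    intro X _ _ T
    simp
  -- the generators
  have c1α : ∀ u, C1 (α u) := by
    intro u X _ _ T
    rw [Fintype.sum_prod_type_right, Fintype.sum_prod_type_right]
    refine Finset.sum_congr rfl fun e _ => ?_
    refine (Fintype.sum_equiv (Equiv.mulLeft u) _ _ fun w => ?_).symm
    show T (g' (w, e)) (α u * g (w, e)) = T (g' (u * w, e) * α u) (g (u * w, e))
    have x1 : g' (u * w, e) * α u = g' (w, e) := by
      rw [hgx', hgx', mul_assoc, ← map_mul]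
      congr 2
      group
    have x2 : g (u * w, e) = α u * g (w, e) := by
      rw [hgx, hgx, map_mul, mul_assoc]
    rw [x1, x2]
  have c2α : ∀ u, C2 (α u) := by
    intro u X _ _ T
    rw [Fintype.sum_prod_type_right, Fintype.sum_prod_type_right]
    refine Finset.sum_congr rfl fun e _ => ?_
    refine (Fintype.sum_equiv (Equiv.mulLeft (φ e u)) _ _ fun w => ?_).symm
    show T (g' (w, e)) (g (w, e) * α u) = T (α u * g' (φ e u * w, e)) (g (φ e u * w, e))
    have x1 : α u * g' (φ e u * w, e) = g' (w, e) := by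
      rw [hgx', hgx', ← mul_assoc, ← unt_tw' hU, mul_assoc, ← map_mul]
      congr 2
      rw [mul_inv_rev, mul_comm, mul_assoc, inv_mul_cancel, mul_one]
    have x2 : g (φ e u * w, e) = g (w, e) * α u := by
      rw [hgx, hgx, mul_assoc, hU.tw, ← mul_assoc, ← map_mul, mul_comm w]
    rw [x1, x2]
  have c1n : ∀ f, C1 (n f) := by
    intro f X _ _ T
    have hb : Function.Bijective (fun p : V × E => (φ f p.1, f * p.2)) := by
      constructor
      · rintro ⟨v, e⟩ ⟨v', e'⟩ h
        have h1 : φ f v = φ f v' := congrArg Prod.fst h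
        have h2 : f * e = f * e' := congrArg Prod.snd h
        exact Prod.ext ((φ f).injective h1) (mul_left_cancel h2)
      · rintro ⟨v, e⟩
        refine ⟨(φ f⁻¹ v, f⁻¹ * e), ?_⟩
        show (φ f (φ f⁻¹ v), f * (f⁻¹ * e)) = (v, e)
        rw [phi_inv, mul_inv_cancel_left]
    refine (Fintype.sum_bijective _ hb _ _ fun p => ?_).symm
    obtain ⟨w, k⟩ := p
    show T (g' (w, k)) (n f * g (w, k)) = T (g' (φ f w, f * k) * n f) (g (φ f w, f * k))
    have hc := unt_c hU f k
    have x1 : g' (φ f w, f * k) * n f = c f k • g' (w, k) := by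
      have y1 : α (φ f w)⁻¹ * n f = n f * α w⁻¹ := by
        rw [hU.tw, map_inv (φ f)]
      rw [hgx', hgx', mul_assoc, y1, unt_n'mul hU, smul_mul_assoc]
      congr 1
      rw [mul_assoc, ← mul_assoc (n' f), hU.li, one_mul]
    have x2 : g (φ f w, f * k) = (c f k)⁻¹ • (n f * g (w, k)) := by
      rw [hgx, hgx, unt_nmul hU, mul_smul_comm, ← mul_assoc, ← mul_assoc, hU.tw]
    rw [x1, x2, map_smul, map_smul, LinearMap.smul_apply, smul_smul, inv_mul_cancel₀ hc, one_smul]
  have c2n : ∀ f, C2 (n f) := by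
    intro f X _ _ T
    have hb : Function.Bijective (fun p : V × E => (p.1, p.2 * f)) := by
      constructor
      · rintro ⟨v, e⟩ ⟨v', e'⟩ h
        have h1 : v = v' := congrArg Prod.fst h
        have h2 : e * f = e' * f := congrArg Prod.snd h
        exact Prod.ext h1 (mul_right_cancel h2)
      · rintro ⟨v, e⟩
        refine ⟨(v, e * f⁻¹), ?_⟩
        show (v, e * f⁻¹ * f) = (v, e)
        rw [inv_mul_cancel_right]
    refine (Fintype.sum_bijective _ hb _ _ fun p => ?_).symm
    obtain ⟨w, k⟩ := p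
    show T (g' (w, k)) (g (w, k) * n f) = T (n f * g' (w, k * f)) (g (w, k * f))
    have hc := unt_c hU k f
    have x1 : n f * g' (w, k * f) = c k f • g' (w, k) := by
      rw [hgx', hgx', unt_n'mul hU, smul_mul_assoc, mul_smul_comm]
      congr 1
      rw [← mul_assoc, ← mul_assoc, hU.ri, one_mul]
    have x2 : g (w, k * f) = (c k f)⁻¹ • (g (w, k) * n f) := by
      rw [hgx, hgx, unt_nmul hU, mul_smul_comm, mul_assoc]
    rw [x1, x2, map_smul, map_smul, LinearMap.smul_apply, smul_smul, inv_mul_cancel₀ hc, one_smul]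
  have c1S : ∀ s ∈ S, C1 s := by
    intro s hs
    have hs' : s ∈ Submodule.span F (Set.range g) := hs
    induction hs' using Submodule.span_induction with
    | mem a ha =>
      obtain ⟨⟨v, e⟩, rfl⟩ := ha
      exact c1mul _ _ (c1α v) (c1n e)
    | zero => exact c1z
    | add a b ha hb h h' => exact c1add _ _ (h ha) (h' hb)
    | smul r a ha h => exact c1smul _ _ (h ha)
  have c2S : ∀ s ∈ S, C2 s := by
    intro s hs
    have hs' : s ∈ Submodule.span F (Set.range g) := hs
    induction hs' using Submodule.span_induction with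
    | mem a ha =>
      obtain ⟨⟨v, e⟩, rfl⟩ := ha
      exact c2mul _ _ (c2α v) (c2n e)
    | zero => exact c2z
    | add a b ha hb h h' => exact c2add _ _ (h ha) (h' hb)
    | smul r a ha h => exact c2smul _ _ (h ha)
  refine ⟨S, ⟨fun x => Iff.rfl, ?_, fun X _ _ T s hs => c1S s hs X T,
    fun X _ _ T s hs => c2S s hs X T, ?_⟩, hαS, hnS⟩
  · rintro ⟨v, e⟩
    rw [hgx']
    exact S.mul_mem (hn'S e) (hαS _)
  · intro X _ _ T
    have hb : Function.Bijective (fun p : V × E => (φ p.2⁻¹ p.1⁻¹, p.2⁻¹)) := by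
      constructor
      · rintro ⟨v, e⟩ ⟨v', e'⟩ h
        have h2 : e⁻¹ = e'⁻¹ := congrArg Prod.snd h
        have h3 : e = e' := inv_injective h2
        subst h3
        have h1 : φ e⁻¹ v⁻¹ = φ e⁻¹ v'⁻¹ := congrArg Prod.fst h
        exact Prod.ext (inv_injective ((φ e⁻¹).injective h1)) rfl
      · rintro ⟨v, e⟩
        refine ⟨((φ e⁻¹ v)⁻¹, e⁻¹), ?_⟩
        show (φ e⁻¹⁻¹ ((φ e⁻¹ v)⁻¹)⁻¹, e⁻¹⁻¹) = (v, e)
        rw [inv_inv, inv_inv, phi_inv]
    refine Fintype.sum_bijective _ hb _ _ fun p => ?_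
    obtain ⟨v, e⟩ := p
    show T (g' (v, e)) (g (v, e)) = T (g (φ e⁻¹ v⁻¹, e⁻¹)) (g' (φ e⁻¹ v⁻¹, e⁻¹))
    have hc := unt_c hU e⁻¹ e
    have x1 : g (φ e⁻¹ v⁻¹, e⁻¹) = c e⁻¹ e • g' (v, e) := by
      rw [hgx, hgx', ← hU.tw, unt_ninv hU, smul_mul_assoc]
    have x2 : g' (φ e⁻¹ v⁻¹, e⁻¹) = (c e⁻¹ e)⁻¹ • g (v, e) := by
      rw [hgx, hgx', unt_n'inv' hU, smul_mul_assoc, hU.tw, ← map_inv (φ e⁻¹), inv_inv, phi_inv]
    rw [x1, x2, map_smul, map_smul, LinearMap.smul_apply, smul_smul, inv_mul_cancel₀ hc, one_smul]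

end Pool.Agent.PFD.D6.H6
end
end -- Pool.Agent.Helper6_PFD.TGT

section -- Pool.Agent.Helper79_PFD.RET

/-!
# PFD row RET: the functional of the retraction
-/

open scoped BigOperators

noncomputable section

namespace Pool.Agent.PFD.D6.H79

open Pool.Agent.PFC
open Pool.Agent.PFC.B5a (FvtStmt TrsStmt BkiStmt FdbStmt Du)

/-- translations of functions on `V × E` -/
def tra (F V E : Type) [Field F] [CommGroup V] :
    V →* ((V × E → F) →ₗ[F] (V × E → F)) where
  toFun u :=
    { toFun := fun k p => k (u⁻¹ * p.1, p.2)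
      map_add' := fun _ _ => rfl
      map_smul' := fun _ _ => rfl }
  map_one' := by
    apply LinearMap.ext
    intro k
    funext p
    show k (1⁻¹ * p.1, p.2) = k p
    rw [inv_one, one_mul]
  map_mul' := by
    intro u v
    apply LinearMap.ext
    intro k
    funext p
    show k ((u * v)⁻¹ * p.1, p.2) = k (v⁻¹ * (u⁻¹ * p.1), p.2)
    rw [mul_inv_rev, mul_assoc]

theorem li_gg (hF : FvtStmt) (hCh : ChsStmt) (F V E A : Type) [Field F]
    [CommGroup V] [Fintype V] [Group E] [Fintype E] [Ring A] [Algebra F A]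
    (ℓ : ℕ) [CharP F ℓ] (φ : E →* MulAut V) (W : Subgroup V)
    (α : V →* A) (n n' : E → A) (c : E → E → F) (mu : A →ₗ[F] F)
    (hC : Ctf ℓ φ W) (hU : Unt φ α n n' c) (hM : Frm F α mu) :
    LinearIndependent F (gg α n) := by
  classical
  have : Fact ℓ.Prime := ⟨hC.pr⟩
  have : Nontrivial A := by
    by_contra h
    rw [not_nontrivial_iff_subsingleton] at h
    exact hM.nz (by rw [Subsingleton.elim (∑ u, α u) 0, map_zero])
  let L : (V × E → F) →ₗ[F] A :=
    { toFun := fun k => ∑ p, k p • gg α n p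
      map_add' := fun k k' => by
        rw [← Finset.sum_add_distrib]
        apply Finset.sum_congr rfl
        intro p _
        rw [Pi.add_apply, add_smul]
      map_smul' := fun r k => by
        rw [RingHom.id_apply, Finset.smul_sum]
        apply Finset.sum_congr rfl
        intro p _
        rw [Pi.smul_apply, smul_eq_mul, mul_smul] }
  have hL : ∀ k, L k = ∑ p, k p • gg α n p := fun _ => rfl
  have htr : ∀ u k, L (tra F V E u k) = α u * L k := by
    intro u k
    rw [hL, hL, Finset.mul_sum]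
    have h1 := Equiv.sum_comp (Equiv.prodCongr (Equiv.mulLeft u) (Equiv.refl E))
      (fun p => (tra F V E u k) p • gg α n p)
    rw [← h1]
    apply Finset.sum_congr rfl
    intro p _
    show k (u⁻¹ * (u * p.1), p.2) • (α (u * p.1) * n p.2) = α u * (k p • (α p.1 * n p.2))
    rw [inv_mul_cancel_left, map_mul, mul_smul_comm, mul_assoc]
  have hN : LinearMap.ker L = ⊥ := by
    by_contra hne
    obtain ⟨k, hk, hk0, hfx⟩ := hF ℓ F V (V × E → F) (tra F V E) (LinearMap.ker L) hC.pg
      (fun u k hk => by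
        rw [LinearMap.mem_ker] at hk ⊢
        rw [htr, hk, mul_zero]) hne
    have hk1 : ∀ v e, k (v, e) = k (1, e) := by
      intro v e
      have h1 : tra F V E v k = k := hfx v trivial
      have h2 : k (v⁻¹ * v, e) = k (v, e) := congrFun h1 (v, e)
      rw [inv_mul_cancel] at h2
      exact h2.symm
    obtain ⟨f, hf⟩ : ∃ f, k (1, f) ≠ 0 := by
      by_contra h
      apply hk0
      funext p
      obtain ⟨v, e⟩ := p
      rw [hk1]
      by_contra h2
      exact h ⟨e, h2⟩
    rw [LinearMap.mem_ker, hL, Fintype.sum_prod_type] at hk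
    have h3 : ∑ e, k (1, e) * mu ((∑ v, α v) * (n e * n' f)) = 0 := by
      have h4 : mu ((∑ v, ∑ e, k (v, e) • gg α n (v, e)) * n' f) = 0 := by
        rw [hk, zero_mul, map_zero]
      rw [Finset.sum_comm, Finset.sum_mul, map_sum] at h4
      rw [← h4]
      apply Finset.sum_congr rfl
      intro e _
      have h5 : (∑ v, k (v, e) • gg α n (v, e)) * n' f =
          k (1, e) • ((∑ v, α v) * (n e * n' f)) := by
        rw [Finset.sum_mul, Finset.sum_mul, Finset.smul_sum]
        apply Finset.sum_congr rfl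
        intro v _
        rw [hk1]
        show k (1, e) • (α v * n e) * n' f = _
        rw [smul_mul_assoc, mul_assoc]
      rw [h5, map_smul, smul_eq_mul]
    have h6 : ∀ e, e ≠ f → k (1, e) * mu ((∑ v, α v) * (n e * n' f)) = 0 := by
      intro e he
      have h7 : n (e * f⁻¹) = c (e * f⁻¹) f • (n e * n' f) := by
        have h8 := hU.mul (e * f⁻¹) f
        rw [inv_mul_cancel_right] at h8
        rw [← smul_mul_assoc, ← h8, mul_assoc, hU.ri, mul_one]
      have h9 : c (e * f⁻¹) f ≠ 0 := by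
        intro h0
        rw [h0, zero_smul] at h7
        have h10 := hU.li (e * f⁻¹)
        rw [h7, mul_zero] at h10
        exact zero_ne_one h10
      have h11 : n e * n' f = (c (e * f⁻¹) f)⁻¹ • n (e * f⁻¹) := by
        rw [h7, smul_smul, inv_mul_cancel₀ h9, one_smul]
      have h12 : e * f⁻¹ ≠ 1 := by
        intro h0
        exact he (mul_inv_eq_one.1 h0)
      have h13 := (hCh F V E A ℓ φ W α n n' c mu hC hU hM.sym (e * f⁻¹) h12).2
      rw [h11, mul_smul_comm, map_smul, Finset.sum_mul, map_sum, h13, smul_zero, mul_zero]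
    rw [Finset.sum_eq_single f (fun e _ he => h6 e he)
      (fun h => absurd (Finset.mem_univ _) h), hU.ri, mul_one] at h3
    rcases mul_eq_zero.1 h3 with h | h
    · exact hf h
    · exact hM.nz h
  rw [Fintype.linearIndependent_iff]
  intro k hk p
  have h1 : k ∈ LinearMap.ker L := by
    rw [LinearMap.mem_ker, hL]
    exact hk
  rw [hN, Submodule.mem_bot] at h1
  rw [h1]
  rfl

theorem ret : RetStmt := by
  classical
  intro hF hCh hP F V E A _ _ _ _ _ _ _ _ ℓ _ φ W α n n' c mu S c' hC hU hM hT hα hn hc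
  have hli := li_gg hF hCh F V E A ℓ φ W α n n' c mu hC hU hM
  obtain ⟨hES, hEl, hEr, -, -, -⟩ := hP F A (V × E) S (gg α n) (gg' α n') mu c' hT hM.sym hc
  have h5 : ∀ x, Ev F (gg α n) (gg' α n') mu x * c' =
      ∑ p, mu (gg' α n' p * x * c') • gg α n p := by
    intro x
    rw [← hEr c' hc.mem]
    show ∑ p, mu (gg' α n' p * (x * c')) • gg α n p = _
    apply Finset.sum_congr rfl
    intro p _
    rw [mul_assoc]
  have hg : ∀ q, gg α n q ∈ S := fun q => S.mul_mem (hα _) (hn _)
  have h6 : ∀ q, ∑ p, mu (gg' α n' p * gg α n q * c') • gg α n p = gg α n q := by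
    intro q
    rw [← h5]
    have h7 := hEl (gg α n q) (hg q) 1
    rw [mul_one] at h7
    rw [h7, mul_assoc, hc.rin, mul_one]
  have h8 : ∀ q p, mu (gg' α n' p * gg α n q * c') = if p = q then 1 else 0 := by
    intro q
    rw [Fintype.linearIndependent_iff] at hli
    have h9 : ∑ p, (mu (gg' α n' p * gg α n q * c') - if p = q then 1 else 0) • gg α n p = 0 := by
      have h10 : ∀ p, (mu (gg' α n' p * gg α n q * c') - if p = q then 1 else 0) • gg α n p =
          mu (gg' α n' p * gg α n q * c') • gg α n p -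
            (if p = q then (1 : F) else 0) • gg α n p := fun p => sub_smul _ _ _
      rw [Finset.sum_congr rfl (fun p _ => h10 p), Finset.sum_sub_distrib, h6,
        Finset.sum_eq_single q (fun p _ hp => by rw [if_neg hp, zero_smul])
          (fun h => absurd (Finset.mem_univ _) h), if_pos rfl, one_smul, sub_self]
    intro p
    exact sub_eq_zero.1 (hli _ h9 p)
  refine ⟨hli, ?_, ?_, ?_, h5⟩
  · intro p
    rw [h8, if_pos rfl]
  · intro p q hpq
    rw [h8, if_neg hpq]
  · intro s hs a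
    rw [mul_assoc s a c', hM.sym s (a * c'), mul_assoc a c' s, hc.com s hs, ← mul_assoc]

end Pool.Agent.PFD.D6.H79
end
end -- Pool.Agent.Helper79_PFD.RET

section -- Pool.Agent.Helper79_PFD.TXT

/-!
# PFD row TXT: the top of block D6, from the rows
-/

open scoped BigOperators

noncomputable section

namespace Pool.Agent.PFD.D6.H79

open Pool.Agent.PFC
open Pool.Agent.PFC.B5a (FvtStmt TrsStmt BkiStmt FdbStmt Du)

theorem txt : TxtRow := by
  classical
  intro hUnt hQwf hFvt hTrs hBki hFdb hCoc hTgt hChs hCot hPrj hRet hOmt hOrb hAlt hAve hCat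
    hUnl hSpt hCvs hHtw hCpj F V E A _ _ _ _ _ _ _ _ ℓ _ φ W α hC hM
  have hfin : FiniteDimensional F A := hM.fin
  obtain ⟨n, n', c, hU⟩ := hUnt F V E A ℓ φ W α hC hM
  have hnt : Nontrivial A := by
    by_contra h
    rw [not_nontrivial_iff_subsingleton] at h
    apply hM.one
    rw [Subsingleton.elim (1 : A) 0]
    exact Submodule.zero_mem _
  obtain ⟨z, hz⟩ := hCoc F V E A φ α n n' c hU
  have hcz : c = fun e f => (z.c e f : F) := by
    funext e f
    exact (hz e f).symm
  subst hcz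
  obtain ⟨mu, hmu⟩ := hM.frm
  obtain ⟨S, hT, hα, hn⟩ := hTgt F V E A φ α n n' _ hU
  obtain ⟨c', hc⟩ := hCot hFvt hChs F V E A ℓ φ W α n n' _ mu S hC hU hmu.sym hmu.nz hT hα hn
  obtain ⟨hES, hEl, hEr, hEsym, hEmu, q, hq, hqq, hql, hqr, hqS⟩ :=
    hPrj F A (V × E) S (gg α n) (gg' α n') mu c' hT hmu.sym hc
  obtain ⟨hli, -, -, -, hEx⟩ := hRet hFvt hChs hPrj F V E A ℓ φ W α n n' _ mu S c' hC hU hmu hT
    hα hn hc
  obtain ⟨Ω, _, _, b, d, hb, hd, hsum, hst⟩ := hQwf F V E A ℓ φ W α n n' _ q hC hU hM.ps hM.spn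
    hqq (fun u x => hql _ (hα u) x) (fun u x => hqr _ (hα u) x)
    (fun e u => hqS _ (S.mul_mem (hn e) (hα u)))
  have hFq : Fq F φ W α q b d := ⟨hb, hd, hsum, hst⟩
  have hW : W ≠ ⊤ := by
    intro h
    obtain ⟨u, hu⟩ := hC.nt
    apply hu
    rw [h]
    trivial
  have hcard : (Nat.card E : F) ≠ 0 := by
    intro h
    exact hC.cop ((CharP.cast_eq_zero_iff F ℓ _).1 h)
  obtain ⟨al, hal, halB⟩ := hAlt hOmt hTrs F V E A Ω φ W α mu q b d hW hmu.sym hmu.nd hFq
  have hAL := hAve F V E A φ α n n' _ q al hU hcard (fun e x => hqr _ (hn e) x) hal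
  obtain ⟨m, b0, b0', hDu, -⟩ := hFdb F A mu hmu.sym hmu.nd
  generalize hal' : ((Nat.card E : F)⁻¹ • al : A →ₗ[F] A) = al' at hAL
  obtain ⟨hc1, hc2, hCs⟩ := hCat hPrj F A (V × E) S (gg α n) (gg' α n') mu c' al' m b0 b0' hT
    hmu.sym hmu.nd hc (fun x => by rw [hAL x, hq]) hDu
  have hB' : ∀ ζ : A, (∀ u, ζ * α u = α u * ζ) →
      ∑ k, al' (b0 k) * ζ * b0' k ∈ BK (cj F α) ⊤ := by
    intro ζ hζ
    have h1 : ∑ k, al' (b0 k) * ζ * b0' k =
        (Nat.card E : F)⁻¹ • ∑ k, al (b0 k) * ζ * b0' k := by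
      rw [Finset.smul_sum]
      apply Finset.sum_congr rfl
      intro k _
      rw [← hal', LinearMap.smul_apply, smul_mul_assoc, smul_mul_assoc]
    rw [h1]
    exact Submodule.smul_mem _ _ (halB m b0 b0' hDu ζ hζ)
  obtain ⟨⟨ρ, hρ, hρ1, hρC⟩, hun⟩ := hSpt hUnl F V A (V × E) S (gg α n) (gg' α n') mu c' al' m
    b0 b0' α hα hc (hES 1) hM.loc hM.one hB' hCs
  -- the retraction
  have hr : ∀ x, (LinearMap.id - q : A →ₗ[F] A) x = Ev F (gg α n) (gg' α n') mu x * c' := by
    intro x
    rw [LinearMap.sub_apply, LinearMap.id_apply, hq]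
    abel
  obtain ⟨j, pr, hjv, hjn, hjni, hjS, hjinj, hprj, hprl, hprr, hjpr⟩ :=
    hCpj F V E A φ α n n' z (mu.comp (LinearMap.mulRight F c')) S (LinearMap.id - q) hU hT hli
      (fun x => by
        rw [hr, hEx]
        rfl)
      (fun s hs => by
        rw [LinearMap.sub_apply, LinearMap.id_apply, hqS s hs, sub_zero])
      (fun s hs x => by
        rw [LinearMap.sub_apply, LinearMap.id_apply, hql s hs, LinearMap.sub_apply,
          LinearMap.id_apply, mul_sub])
      (fun s hs x => by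
        rw [LinearMap.sub_apply, LinearMap.id_apply, hqr s hs, LinearMap.sub_apply,
          LinearMap.id_apply, sub_mul])
  have hjE : ∀ x, j (pr x) = Ev F (gg α n) (gg' α n') mu x * c' := fun x => by
    rw [hjpr, hr]
  obtain ⟨sep⟩ := hCvs F (CP (D0 φ z)) A (Option (Fin m)) S j
    (fun k : Option (Fin m) => k.elim c' (fun k => al' (b0 k)))
    (fun k : Option (Fin m) => k.elim 1 b0' * ρ) hjS hρ1 hρC
  obtain ⟨Om, fOm, aOm, mm, τ, hm, hτ, hTW⟩ := hHtw hOrb F V E A Ω φ W α n n' _ q b d hU hcard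
    (fun e x => hql _ (hn e) x) (fun e x => hqr _ (hn e) x) hFq
  -- `Ev 1 * s * c' = s`
  have hs1 : ∀ s ∈ S, Ev F (gg α n) (gg' α n') mu 1 * s * c' = s := by
    intro s hs
    rw [mul_assoc, ← hc.com s hs, ← mul_assoc, hc.rin, one_mul]
  refine ⟨z, ⟨
    { j := j
      pr := pr
      pr_j := hprj
      pr_l := hprl
      pr_r := hprr
      fin := hfin
      mu := mu
      mus := hmu.sym
      mun := hmu.nd
      orth := fun x => by rw [hjE, hEmu]
      K := Option (Fin m)
      fK := inferInstance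
      sep := sep
      N := Option (Fin m)
      fN := inferInstance
      x := fun k => k.elim c' (fun k => al' (b0 k))
      y := fun k => Ev F (gg α n) (gg' α n') mu 1 * k.elim 1 b0'
      e1 := ?_
      e2 := ?_
      unt := ?_
      Om := Om
      fOm := fOm
      aOm := aOm
      m := mm
      τ := τ
      m_eq := ?_
      τ_eq := ?_
      hw := ?_ }⟩⟩
  · intro a
    have h1 : ∀ k : Option (Fin m), k.elim c' (fun k => al' (b0 k)) *
        j (pr (Ev F (gg α n) (gg' α n') mu 1 * k.elim 1 b0' * a)) =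
        k.elim c' (fun k => al' (b0 k)) * Ev F (gg α n) (gg' α n') mu (k.elim 1 b0' * a) := by
      intro k
      rw [hjE, mul_assoc (Ev F (gg α n) (gg' α n') mu 1), hEl _ (hES 1), hs1 _ (hES _)]
    rw [Finset.sum_congr rfl (fun k _ => h1 k)]
    exact hc1 a
  · intro a
    have h1 : ∀ k : Option (Fin m), j (pr (a * k.elim c' (fun k => al' (b0 k)))) *
        (Ev F (gg α n) (gg' α n') mu 1 * k.elim 1 b0') =
        Ev F (gg α n) (gg' α n') mu (a * k.elim c' (fun k => al' (b0 k))) *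
          k.elim 1 b0' := by
      intro k
      rw [hjE, ← mul_assoc, mul_assoc _ c', hc.lin, mul_one]
    rw [Finset.sum_congr rfl (fun k _ => h1 k)]
    exact hc2 a
  · intro w hw hwu
    obtain ⟨⟨w, w', h1, h2⟩, rfl⟩ := hwu
    have h3 := hun (j w) (j w') (fun s hs => by
      obtain ⟨γ, rfl⟩ := (hjS s).1 hs
      rw [← map_mul, ← map_mul]
      exact congrArg j (hw γ)) (by rw [← map_mul, h1, map_one])
      (by rw [← map_mul, h2, map_one])
    exact h3
  · intro w ω
    rw [hjv, hjv]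
    exact hm w ω
  · intro w ω a
    rw [hjv, hjv]
    exact hτ w ω a
  · intro T hT' a
    have h1 := hTW T hT' a
    have h2 : a - j (pr a) = q a := by
      rw [hjpr, LinearMap.sub_apply, LinearMap.id_apply]
      abel
    rw [h2, ← h1]
    apply Finset.sum_congr rfl
    intro h _
    apply Finset.sum_congr rfl
    intro t _
    apply Finset.sum_congr rfl
    intro g _
    apply Finset.sum_congr rfl
    intro v _
    apply Finset.sum_congr rfl
    intro ω _
    rw [map_mul j, map_mul j, map_mul j, map_mul j, hjv, hjv, hjv, hjv, hjn, hjn, hjni, hjni]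

end Pool.Agent.PFD.D6.H79
end
end -- Pool.Agent.Helper79_PFD.TXT

section -- Pool.Agent.Helper81_PFD.COC

/-!
Squad PFD, rows COC, UNL, CVS (helper81).
-/

set_option autoImplicit false

open scoped BigOperators TensorProduct

namespace Pool.Agent.PFD.D6.H81

open Pool.Agent.PFC
open Pool.Agent.PFC.B5a (FvtStmt TrsStmt BkiStmt FdbStmt Du)

/-- row COC -/
theorem coc : CocStmt := by
  intro F V E A _ _ _ _ _ _ φ α n n' c h
  have hcan : ∀ (a b : F) (e : E), a • n e = b • n e → a = b := by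
    intro a b e hab
    have h1 := congrArg (fun z => z * n' e) hab
    simp only [smul_mul_assoc, h.ri] at h1
    rw [← Algebra.algebraMap_eq_smul_one, ← Algebra.algebraMap_eq_smul_one] at h1
    exact (algebraMap F A).injective h1
  have hne : ∀ e f, c e f ≠ 0 := by
    intro e f h0
    have h1 := h.mul e f
    rw [h0, zero_smul] at h1
    have h2 : n' e * (n e * n f) * n' f = 1 := by
      rw [← mul_assoc, h.li, one_mul, h.ri]
    rw [h1, mul_zero, zero_mul] at h2
    exact zero_ne_one h2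
  refine ⟨⟨fun e f => Units.mk0 (c e f) (hne e f), ?_, ?_, ?_⟩, fun e f => rfl⟩
  · intro e
    apply Units.ext
    have h1 := h.mul 1 e
    rw [h.one, one_mul, one_mul] at h1
    refine hcan _ _ e ?_
    change c 1 e • n e = (1 : F) • n e
    rw [one_smul]
    exact h1.symm
  · intro e
    apply Units.ext
    have h1 := h.mul e 1
    rw [h.one, mul_one, mul_one] at h1
    refine hcan _ _ e ?_
    change c e 1 • n e = (1 : F) • n e
    rw [one_smul]
    exact h1.symm
  · intro e f g
    apply Units.ext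
    apply hcan _ _ (e * f * g)
    change (c e f * c (e * f) g) • n (e * f * g) = (c f g * c e (f * g)) • n (e * f * g)
    have h1 : c e (f * g) • n (e * f * g) = n e * n (f * g) := by
      rw [mul_assoc e f g, ← h.mul]
    have h2 : c (e * f) g • n (e * f * g) = n (e * f) * n g := (h.mul (e * f) g).symm
    have h3 : c e f • (n (e * f) * n g) = n e * n f * n g := by
      rw [← smul_mul_assoc, ← h.mul e f]
    have h4 : c f g • (n e * n (f * g)) = n e * (n f * n g) := by
      rw [← mul_smul_comm, ← h.mul f g]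
    rw [mul_smul, mul_smul, h1, h2, h3, h4, mul_assoc]

/-- row UNL -/
theorem unl : UnlStmt := by
  intro bki F V A _ _ _ _ _ α x x' y hloc h1 hx hx' hcom hy
  obtain ⟨b1, b2, b3⟩ := bki F V A α ⊤
  have hmem : ∀ z : A, z ∈ Cz F α ⊤ ↔ ∀ u : V, α u * z = z * α u := by
    intro z
    unfold Cz
    rw [Subalgebra.mem_centralizer_iff]
    constructor
    · intro h u
      exact h (α u) ⟨u, trivial, rfl⟩
    · rintro h _ ⟨u, -, rfl⟩
      exact h u
  have hxL : x ∈ Cz F α ⊤ := (hmem x).2 fun u => (hcom u).symm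
  have hx'L : x' ∈ Cz F α ⊤ := by
    rw [hmem]
    intro u
    calc α u * x' = x' * x * (α u * x') := by rw [hx', one_mul]
      _ = x' * (x * α u) * x' := by simp only [mul_assoc]
      _ = x' * (α u * x) * x' := by rw [hcom]
      _ = x' * α u * (x * x') := by simp only [mul_assoc]
      _ = x' * α u := by rw [hx, mul_one]
  have hyL : y ∈ Cz F α ⊤ := by
    have h2 := (Cz F α ⊤).add_mem (b2 _ hy) hxL
    rwa [sub_add_cancel] at h2
  have hwL : -(y - x) ∈ Cz F α ⊤ := (Cz F α ⊤).neg_mem (b2 _ hy)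
  have hsum : (⟨x' * y, (Cz F α ⊤).mul_mem hx'L hyL⟩ : Cz F α ⊤) +
      ⟨x' * -(y - x), (Cz F α ⊤).mul_mem hx'L hwL⟩ = 1 := by
    apply Subtype.ext
    change x' * y + x' * -(y - x) = 1
    rw [← mul_add, ← hx']
    congr 1
    abel
  rcases IsLocalRing.isUnit_or_isUnit_of_add_one hsum with hu | hu
  · have h2 : IsUnit (x' * y) := hu.map (Cz F α ⊤).val
    have h3 : IsUnit x := ⟨⟨x, x', hx, hx'⟩, rfl⟩
    have h4 : y = x * (x' * y) := by rw [← mul_assoc, hx, one_mul]
    rw [h4]
    exact h3.mul h2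
  · exfalso
    obtain ⟨v, hv⟩ := hu
    apply h1
    have h2 : (x' * -(y - x)) * ((v⁻¹ : (Cz F α ⊤)ˣ) : Cz F α ⊤).1 = 1 := by
      have h3 : ((v : Cz F α ⊤) * ((v⁻¹ : (Cz F α ⊤)ˣ) : Cz F α ⊤)).1 = (1 : Cz F α ⊤).1 := by
        rw [Units.mul_inv]
      rw [hv] at h3
      exact h3
    rw [← h2]
    refine (b3 _ (((v⁻¹ : (Cz F α ⊤)ˣ) : Cz F α ⊤).2) _ ?_).2
    exact (b3 _ hx'L _ (Submodule.neg_mem _ hy)).1

/-- the relations `(a s) ⊗ b = a ⊗ (s b)` -/
def rels {F A : Type} [Field F] [Ring A] [Algebra F A] (S : Subalgebra F A) :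
    Submodule F (A ⊗[F] A) :=
  Submodule.span F {z | ∃ a b, ∃ s ∈ S, z = (a * s) ⊗ₜ[F] b - a ⊗ₜ[F] (s * b)}

/-- row CVS -/
theorem cvs : CvsStmt := by
  intro F Γ A κ _ _ _ _ _ _ S j u v hS h1 h2
  refine ⟨⟨u, v, h1, fun X _ B hB x => ?_⟩⟩
  have h3 := h2 ((A ⊗[F] A) ⧸ rels S) ((TensorProduct.mk F A A).compr₂ (rels S).mkQ)
    (fun a b s hs => by
      show (rels S).mkQ ((a * s) ⊗ₜ[F] b) = (rels S).mkQ (a ⊗ₜ[F] (s * b))
      rw [← sub_eq_zero, ← map_sub, Submodule.mkQ_apply, Submodule.Quotient.mk_eq_zero]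
      exact Submodule.subset_span ⟨a, b, s, hs, rfl⟩) x
  have h4 : (∑ k, (x * u k) ⊗ₜ[F] v k) - ∑ k, u k ⊗ₜ[F] (v k * x) ∈ rels S := by
    rw [← Submodule.Quotient.mk_eq_zero, ← Submodule.mkQ_apply, map_sub, sub_eq_zero, map_sum,
      map_sum]
    exact h3
  have hbs : ∀ (a b s : A), s ∈ S → B (a * s) b = B a (s * b) := by
    intro a b s hs
    obtain ⟨γ, rfl⟩ := (hS s).1 hs
    exact hB a γ b
  have hbal : ∀ (r : F) (m n : A), B (r • m) n = B m (r • n) := by
    intro r m n
    have h := hbs m n (algebraMap F A r) (S.algebraMap_mem r)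
    rw [Algebra.smul_def, Algebra.smul_def, Algebra.commutes, h]
  let Φ : A ⊗[F] A →+ X := TensorProduct.liftAddHom B hbal
  have hΦ : ∀ a b, Φ (a ⊗ₜ[F] b) = B a b := fun a b => TensorProduct.liftAddHom_tmul B hbal a b
  have h5 : ∀ z ∈ rels S, ∀ r : F, Φ (r • z) = 0 := by
    intro z hz
    unfold rels at hz
    induction hz using Submodule.span_induction with
    | mem z hz =>
      intro r
      obtain ⟨a, b, s, hs, rfl⟩ := hz
      rw [smul_sub, map_sub, TensorProduct.smul_tmul', TensorProduct.smul_tmul', hΦ, hΦ,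
        ← smul_mul_assoc, hbs _ _ _ hs, sub_self]
    | zero => intro r; rw [smul_zero, map_zero]
    | add x y _ _ hx hy => intro r; rw [smul_add, map_add, hx, hy, add_zero]
    | smul a x _ hx => intro r; rw [smul_smul]; exact hx _
  have h6 := h5 _ h4 1
  rw [one_smul, map_sub, map_sum, map_sum, sub_eq_zero] at h6
  simp only [hΦ] at h6
  exact h6

end Pool.Agent.PFD.D6.H81
end -- Pool.Agent.Helper81_PFD.COC

section -- Pool.Agent.Helper79_PFD.TopD6

/-!
# PFD, block D6: the top statement, without hypotheses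
-/

namespace Pool.Agent.PFD.D6.H79

open Pool.Agent.PFC

theorem txt_top : TxtStmt :=
  txt H84.unt (H6.qwf Pool.Agent.PFC.H10.psx Pool.Agent.PFC.H41.psm)
    Pool.Agent.PFC.B5a.H46.fvt Pool.Agent.PFC.B5a.H77.trs Pool.Agent.PFC.H49d.bki
    Pool.Agent.PFC.B5a.H41.fdb H81.coc H6.tgt H59.chs H30.cot H6.prj ret H33.omt H47.orb
    H62.alt H65.ave H6.cat H81.unl H33.spt H81.cvs H47.htw H32.cpj

end Pool.Agent.PFD.D6.H79
end -- Pool.Agent.Helper79_PFD.TopD6

section -- Pool.Agent.Helper79_PFE.RowsN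

/-!
# PFE: the rows CHS, COT, RET, QWF, ALT of PFD/D6 for a family `NN`
(proofs of helper59, helper30, helper79, helper6, helper62)
-/

open scoped BigOperators

noncomputable section

namespace Pool.Agent.PFE.H79

open Pool.Agent.PFC Pool.Agent.PFD Pool.Agent.PFD.D6
open Pool.Agent.PFD.D6.H59 (sum_inv)
open Pool.Agent.PFD.D6.H79 (tra)
open Pool.Agent.PFD.D6.H62 (d_apply b_apply yy yy_apply a_l)
open Pool.Agent.PFD.D6.H6 (BK_map exσ)
open Pool.Agent.PFC.B5a (FvtStmt TrsStmt BkiStmt FdbStmt Du)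

theorem chn (F V E A : Type) [Field F] [CommGroup V] [Fintype V] [Group E]
    [Ring A] [Algebra F A] (ℓ : ℕ) [CharP F ℓ] (φ : E →* MulAut V) (NN : Subgroup V → Prop)
    (α : V →* A) (n n' : E → A) (c : E → E → F) (lam : A →ₗ[F] F) (hctf : Ctn ℓ φ NN)
    (hunt : Unt φ α n n' c) (hsym : ∀ a b, lam (a * b) = lam (b * a)) (e : E) (he : e ≠ 1) :
    ∑ w, lam (α w * n' e) = 0 ∧ ∑ w, lam (α w * n e) = 0 := by
  have hinv : ∀ v : V, α v⁻¹ * α v = 1 := fun v => by
    rw [← map_mul, inv_mul_cancel, map_one]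
  have hn' : ∀ v : V, n' e * α v = α (φ e⁻¹ v) * n' e := by
    intro v
    have h1 : φ e (φ e⁻¹ v) = v := by
      rw [← MulAut.mul_apply, ← map_mul, mul_inv_cancel, map_one, MulAut.one_apply]
    have h2 := hunt.tw e (φ e⁻¹ v)
    rw [h1] at h2
    calc n' e * α v = n' e * (α v * n e) * n' e := by
          rw [mul_assoc, mul_assoc, hunt.ri, mul_one]
      _ = n' e * (n e * α (φ e⁻¹ v)) * n' e := by rw [h2]
      _ = α (φ e⁻¹ v) * n' e := by rw [← mul_assoc (n' e), hunt.li, one_mul]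
  have key : ∀ (x : A) (e' : E), e' ≠ 1 → (∀ v, x * α v = α (φ e' v) * x) →
      ∑ w, lam (α w * x) = 0 := by
    intro x e' he' hx
    obtain ⟨u, hu⟩ : ∃ u, φ e' u ≠ u := by
      by_contra h
      exact he' (hctf.fa e' (fun u => by
        by_contra h2
        exact h ⟨u, h2⟩))
    apply sum_inv ℓ hctf.pr hctf.pg (fun w => lam (α w * x)) (u⁻¹ * φ e' u)
    · intro h
      exact hu (inv_mul_eq_one.1 h).symm
    · intro w
      have h1 : α (w * (u⁻¹ * φ e' u)) * x = α u⁻¹ * (α w * x * α u) := by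
        rw [mul_assoc (α w), hx, ← mul_assoc (α w), ← mul_assoc (α u⁻¹), ← map_mul, ← map_mul]
        congr 2
        rw [mul_left_comm]
      have h2 : α u * α u⁻¹ = 1 := by rw [← map_mul, mul_inv_cancel, map_one]
      rw [h1, hsym, mul_assoc (α w * x), h2, mul_one]
  constructor
  · exact key (n' e) e⁻¹ (inv_ne_one.2 he) hn'
  · exact key (n e) e he (hunt.tw e)


theorem cotn (hFVT : FvtStmt) (F V E A : Type) [Field F] [CommGroup V]
    [Fintype V] [Group E] [Fintype E] [Ring A] [Algebra F A] [FiniteDimensional F A] (ℓ : ℕ)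
    [CharP F ℓ] (φ : E →* MulAut V) (NN : Subgroup V → Prop) (α : V →* A) (n n' : E → A)
    (c : E → E → F) (lam : A →ₗ[F] F) (S : Subalgebra F A) (hctf : Ctn ℓ φ NN)
    (hunt : Unt φ α n n' c) (hsym : ∀ a b, lam (a * b) = lam (b * a))
    (hlam : lam (∑ u, α u) ≠ 0) (hTg : Tg F S (gg α n) (gg' α n')) (hαS : ∀ u, α u ∈ S)
    (hnS : ∀ e, n e ∈ S) : ∃ c', Cg F S (gg α n) (gg' α n') lam c' := by
  classical
  have hℓ : Fact ℓ.Prime := ⟨hctf.pr⟩
  set c0 : A := Ev F (gg α n) (gg' α n') lam 1 with hc0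
  have hc0s : c0 = ∑ p, lam (gg' α n' p) • gg α n p := by
    rw [hc0]
    unfold Ev
    refine Finset.sum_congr rfl ?_
    intro p _
    rw [mul_one]
  have hgS : ∀ p, gg α n p ∈ S := fun p => S.mul_mem (hαS _) (hnS _)
  have hc0S : c0 ∈ S := by
    rw [hc0s]
    exact S.sum_mem (fun p _ => S.smul_mem (hgS p) _)
  have hcom : ∀ s ∈ S, s * c0 = c0 * s := by
    intro s hs
    have h1 := hTg.cs1 A ((LinearMap.lsmul F A) ∘ₗ lam) s hs
    have h2 := hTg.cs2 A ((LinearMap.lsmul F A) ∘ₗ lam) s hs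
    simp only [LinearMap.comp_apply, LinearMap.lsmul_apply] at h1 h2
    rw [hc0s, Finset.mul_sum, Finset.sum_mul]
    have h3 : ∑ p, s * lam (gg' α n' p) • gg α n p =
        ∑ p, lam (gg' α n' p) • (s * gg α n p) := by
      refine Finset.sum_congr rfl ?_
      intro p _
      rw [mul_smul_comm]
    have h4 : ∑ p, lam (gg' α n' p) • gg α n p * s =
        ∑ p, lam (gg' α n' p) • (gg α n p * s) := by
      refine Finset.sum_congr rfl ?_
      intro p _
      rw [smul_mul_assoc]
    rw [h3, h4, ← h1, ← h2]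
    refine Finset.sum_congr rfl ?_
    intro p _
    rw [hsym]
  have hinj : ∀ b : A, c0 * b = 0 → b = 0 := by
    by_contra hcon
    push Not at hcon
    obtain ⟨b0, hb0, hb0'⟩ := hcon
    let ρ : V →* (A →ₗ[F] A) :=
      { toFun := fun w => LinearMap.mulLeft F (α w)
        map_one' := by
          ext x
          simp
        map_mul' := by
          intro x y
          ext z
          simp }
    let N : Submodule F A := LinearMap.ker (LinearMap.mulLeft F c0)
    have hN : N ≠ ⊥ := by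
      intro h
      have h1 : b0 ∈ N := hb0
      rw [h] at h1
      exact hb0' ((Submodule.mem_bot F).1 h1)
    obtain ⟨b, hbN, hb1, hb2⟩ := hFVT ℓ F V A ρ N hctf.pg (by
      intro h m hm
      have hm' : c0 * m = 0 := hm
      show c0 * (α h * m) = 0
      rw [← mul_assoc, ← hcom _ (hαS h), mul_assoc, hm', mul_zero]) hN
    have hfix : ∀ w, α w * b = b := fun w => hb2 w (Subgroup.mem_top _)
    have hcb : c0 * b = 0 := hbN
    have hgb : ∀ v e, gg α n (v, e) * b = n e * b := by
      intro v e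
      have h1 := hunt.tw e (φ e⁻¹ v)
      have h2 : φ e (φ e⁻¹ v) = v := by
        rw [← MulAut.mul_apply, ← map_mul, mul_inv_cancel, map_one, MulAut.one_apply]
      rw [h2] at h1
      show α v * n e * b = n e * b
      rw [← h1, mul_assoc, hfix]
    have hn1 : n' 1 = 1 := by
      have h1 := hunt.li 1
      rw [hunt.one, mul_one] at h1
      exact h1
    have hsum : c0 * b = lam (∑ u, α u) • b := by
      rw [hc0s, Finset.sum_mul, Fintype.sum_prod_type, Finset.sum_comm,
        Finset.sum_eq_single (1 : E)]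
      · have h1 : ∀ v, lam (gg' α n' (v, (1 : E))) • gg α n (v, (1 : E)) * b =
            lam (α v⁻¹) • b := by
          intro v
          rw [smul_mul_assoc, hgb, hunt.one, one_mul]
          show lam (n' 1 * α v⁻¹) • b = _
          rw [hn1, one_mul]
        rw [Finset.sum_congr rfl (fun v _ => h1 v), ← Finset.sum_smul, map_sum]
        congr 1
        exact Fintype.sum_equiv (Equiv.inv V) _ _ (fun v => rfl)
      · intro e _ he
        have h1 : ∀ v, lam (gg' α n' (v, e)) • gg α n (v, e) * b =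
            lam (α v⁻¹ * n' e) • (n e * b) := by
          intro v
          rw [smul_mul_assoc, hgb]
          show lam (n' e * α v⁻¹) • (n e * b) = _
          rw [hsym]
        rw [Finset.sum_congr rfl (fun v _ => h1 v), ← Finset.sum_smul]
        have h2 : ∑ v, lam (α v⁻¹ * n' e) = ∑ w, lam (α w * n' e) :=
          Fintype.sum_equiv (Equiv.inv V) _ _ (fun v => rfl)
        rw [h2, (chn F V E A ℓ φ NN α n n' c lam hctf hunt hsym e he).1, zero_smul]
      · intro h
        exact absurd (Finset.mem_univ _) h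
    rw [hcb] at hsum
    rcases smul_eq_zero.1 hsum.symm with h | h
    · exact hlam h
    · exact hb1 h
  -- the inverse
  let T : Subalgebra.toSubmodule S →ₗ[F] Subalgebra.toSubmodule S :=
    (LinearMap.mulLeft F c0).restrict (fun x hx => S.mul_mem hc0S hx)
  have hTi : Function.Injective T := by
    intro x y hxy
    have h1 : c0 * (x : A) = c0 * (y : A) := congrArg Subtype.val hxy
    have h2 : c0 * ((x : A) - y) = 0 := by rw [mul_sub, h1, sub_self]
    exact Subtype.ext (sub_eq_zero.1 (hinj _ h2))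
  have hTs : Function.Surjective T := LinearMap.surjective_of_injective hTi
  obtain ⟨c', hc'⟩ := hTs ⟨1, S.one_mem⟩
  have hr : c0 * (c' : A) = 1 := congrArg Subtype.val hc'
  refine ⟨c', c'.2, ?_, hr, ?_⟩
  · have h2 : c0 * ((c' : A) * c0 - 1) = 0 := by
      rw [mul_sub, ← mul_assoc, hr, one_mul, mul_one, sub_self]
    exact sub_eq_zero.1 (hinj _ h2)
  · intro s hs
    have h2 : c0 * ((c' : A) * s - s * c') = 0 := by
      rw [mul_sub, ← mul_assoc, hr, one_mul, ← mul_assoc, ← hcom s hs, mul_assoc, hr, mul_one,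
        sub_self]
    exact sub_eq_zero.1 (hinj _ h2)


theorem li_ggn (hF : FvtStmt) (F V E A : Type) [Field F]
    [CommGroup V] [Fintype V] [Group E] [Fintype E] [Ring A] [Algebra F A]
    (ℓ : ℕ) [CharP F ℓ] (φ : E →* MulAut V) (NN : Subgroup V → Prop)
    (α : V →* A) (n n' : E → A) (c : E → E → F) (mu : A →ₗ[F] F)
    (hC : Ctn ℓ φ NN) (hU : Unt φ α n n' c) (hM : Frm F α mu) :
    LinearIndependent F (gg α n) := by
  classical
  have : Fact ℓ.Prime := ⟨hC.pr⟩
  have : Nontrivial A := by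
    by_contra h
    rw [not_nontrivial_iff_subsingleton] at h
    exact hM.nz (by rw [Subsingleton.elim (∑ u, α u) 0, map_zero])
  let L : (V × E → F) →ₗ[F] A :=
    { toFun := fun k => ∑ p, k p • gg α n p
      map_add' := fun k k' => by
        rw [← Finset.sum_add_distrib]
        apply Finset.sum_congr rfl
        intro p _
        rw [Pi.add_apply, add_smul]
      map_smul' := fun r k => by
        rw [RingHom.id_apply, Finset.smul_sum]
        apply Finset.sum_congr rfl
        intro p _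
        rw [Pi.smul_apply, smul_eq_mul, mul_smul] }
  have hL : ∀ k, L k = ∑ p, k p • gg α n p := fun _ => rfl
  have htr : ∀ u k, L (tra F V E u k) = α u * L k := by
    intro u k
    rw [hL, hL, Finset.mul_sum]
    have h1 := Equiv.sum_comp (Equiv.prodCongr (Equiv.mulLeft u) (Equiv.refl E))
      (fun p => (tra F V E u k) p • gg α n p)
    rw [← h1]
    apply Finset.sum_congr rfl
    intro p _
    show k (u⁻¹ * (u * p.1), p.2) • (α (u * p.1) * n p.2) = α u * (k p • (α p.1 * n p.2))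
    rw [inv_mul_cancel_left, map_mul, mul_smul_comm, mul_assoc]
  have hN : LinearMap.ker L = ⊥ := by
    by_contra hne
    obtain ⟨k, hk, hk0, hfx⟩ := hF ℓ F V (V × E → F) (tra F V E) (LinearMap.ker L) hC.pg
      (fun u k hk => by
        rw [LinearMap.mem_ker] at hk ⊢
        rw [htr, hk, mul_zero]) hne
    have hk1 : ∀ v e, k (v, e) = k (1, e) := by
      intro v e
      have h1 : tra F V E v k = k := hfx v trivial
      have h2 : k (v⁻¹ * v, e) = k (v, e) := congrFun h1 (v, e)
      rw [inv_mul_cancel] at h2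
      exact h2.symm
    obtain ⟨f, hf⟩ : ∃ f, k (1, f) ≠ 0 := by
      by_contra h
      apply hk0
      funext p
      obtain ⟨v, e⟩ := p
      rw [hk1]
      by_contra h2
      exact h ⟨e, h2⟩
    rw [LinearMap.mem_ker, hL, Fintype.sum_prod_type] at hk
    have h3 : ∑ e, k (1, e) * mu ((∑ v, α v) * (n e * n' f)) = 0 := by
      have h4 : mu ((∑ v, ∑ e, k (v, e) • gg α n (v, e)) * n' f) = 0 := by
        rw [hk, zero_mul, map_zero]
      rw [Finset.sum_comm, Finset.sum_mul, map_sum] at h4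
      rw [← h4]
      apply Finset.sum_congr rfl
      intro e _
      have h5 : (∑ v, k (v, e) • gg α n (v, e)) * n' f =
          k (1, e) • ((∑ v, α v) * (n e * n' f)) := by
        rw [Finset.sum_mul, Finset.sum_mul, Finset.smul_sum]
        apply Finset.sum_congr rfl
        intro v _
        rw [hk1]
        show k (1, e) • (α v * n e) * n' f = _
        rw [smul_mul_assoc, mul_assoc]
      rw [h5, map_smul, smul_eq_mul]
    have h6 : ∀ e, e ≠ f → k (1, e) * mu ((∑ v, α v) * (n e * n' f)) = 0 := by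
      intro e he
      have h7 : n (e * f⁻¹) = c (e * f⁻¹) f • (n e * n' f) := by
        have h8 := hU.mul (e * f⁻¹) f
        rw [inv_mul_cancel_right] at h8
        rw [← smul_mul_assoc, ← h8, mul_assoc, hU.ri, mul_one]
      have h9 : c (e * f⁻¹) f ≠ 0 := by
        intro h0
        rw [h0, zero_smul] at h7
        have h10 := hU.li (e * f⁻¹)
        rw [h7, mul_zero] at h10
        exact zero_ne_one h10
      have h11 : n e * n' f = (c (e * f⁻¹) f)⁻¹ • n (e * f⁻¹) := by
        rw [h7, smul_smul, inv_mul_cancel₀ h9, one_smul]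
      have h12 : e * f⁻¹ ≠ 1 := by
        intro h0
        exact he (mul_inv_eq_one.1 h0)
      have h13 := (chn F V E A ℓ φ NN α n n' c mu hC hU hM.sym (e * f⁻¹) h12).2
      rw [h11, mul_smul_comm, map_smul, Finset.sum_mul, map_sum, h13, smul_zero, mul_zero]
    rw [Finset.sum_eq_single f (fun e _ he => h6 e he)
      (fun h => absurd (Finset.mem_univ _) h), hU.ri, mul_one] at h3
    rcases mul_eq_zero.1 h3 with h | h
    · exact hf h
    · exact hM.nz h
  rw [Fintype.linearIndependent_iff]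
  intro k hk p
  have h1 : k ∈ LinearMap.ker L := by
    rw [LinearMap.mem_ker, hL]
    exact hk
  rw [hN, Submodule.mem_bot] at h1
  rw [h1]
  rfl

theorem retn (hF : FvtStmt) (hP : D6.PrjStmt) (F V E A : Type) [Field F]
    [CommGroup V] [Fintype V] [Group E] [Fintype E] [Ring A] [Algebra F A]
    [FiniteDimensional F A] (ℓ : ℕ) [CharP F ℓ] (φ : E →* MulAut V) (NN : Subgroup V → Prop)
    (α : V →* A) (n n' : E → A) (c : E → E → F) (mu : A →ₗ[F] F) (S : Subalgebra F A) (c' : A)
    (hC : Ctn ℓ φ NN) (hU : Unt φ α n n' c) (hM : Frm F α mu)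
    (hT : Tg F S (gg α n) (gg' α n')) (hα : ∀ u, α u ∈ S) (hn : ∀ e, n e ∈ S)
    (hc : Cg F S (gg α n) (gg' α n') mu c') :
    LinearIndependent F (gg α n) ∧
    ∀ x, Ev F (gg α n) (gg' α n') mu x * c' = ∑ p, mu (gg' α n' p * x * c') • gg α n p := by
  have hli := li_ggn hF F V E A ℓ φ NN α n n' c mu hC hU hM
  obtain ⟨hES, hEl, hEr, -, -, -⟩ := hP F A (V × E) S (gg α n) (gg' α n') mu c' hT hM.sym hc
  have h5 : ∀ x, Ev F (gg α n) (gg' α n') mu x * c' =
      ∑ p, mu (gg' α n' p * x * c') • gg α n p := by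
    intro x
    rw [← hEr c' hc.mem]
    show ∑ p, mu (gg' α n' p * (x * c')) • gg α n p = _
    apply Finset.sum_congr rfl
    intro p _
    rw [mul_assoc]
  exact ⟨hli, h5⟩
/-- a frame of the projection `q` with stabilisers outside `NN` -/
structure FqN {F V E A Ω : Type} [Field F] [CommGroup V] [Group E] [Ring A] [Algebra F A]
    [Fintype Ω] [MulAction (V × V) Ω] (φ : E →* MulAut V) (NN : Subgroup V → Prop)
    (α : V →* A) (q : A →ₗ[F] A) (b : Ω → A) (d : Ω → (A →ₗ[F] F)) : Prop where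
  eb : ∀ (w : V × V) (ω : Ω), b (w • ω) = bi F α w (b ω)
  ed : ∀ (w : V × V) (ω : Ω) (x : A), d (w • ω) (bi F α w x) = d ω x
  sum : ∀ x, ∑ ω, d ω x • b ω = q x
  st : ∀ ω : Ω, ∃ (e : E) (R : Subgroup V), ¬ NN R ∧
    MulAction.stabilizer (V × V) ω = tw (φ e).toMonoidHom R

theorem qwn (hpsx : PsxStmt) (hpsm : PsmStmt) (F V E A : Type) [Field F] [CommGroup V]
    [Fintype V] [Group E] [Fintype E] [Ring A] [Algebra F A] (ℓ : ℕ) [CharP F ℓ]
    (φ : E →* MulAut V) (NN : Subgroup V → Prop) (α : V →* A) (n n' : E → A) (c : E → E → F)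
    (q : A →ₗ[F] A) (hctf : Ctn ℓ φ NN) (hU : Unt φ α n n' c)
    (hPS : PS (fun K => ∃ (e : E) (R : Subgroup V), K = tw (φ e).toMonoidHom R) (bi F α))
    (hSpn : ∀ R : Subgroup V, NN R → ∀ a ∈ Fx (cj F α) R, ∃ c : V → F,
      a - ∑ u, c u • α u ∈ BK (cj F α) R)
    (hqq : ∀ x, q (q x) = q x) (hql : ∀ u x, q (α u * x) = α u * q x)
    (hqr : ∀ u x, q (x * α u) = q x * α u) (hqn : ∀ e u, q (n e * α u) = 0) :
    ∃ (Ω : Type) (_ : Fintype Ω) (_ : MulAction (V × V) Ω) (b : Ω → A) (d : Ω → (A →ₗ[F] F)),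
      FqN φ NN α q b d := by
  have hfact : Fact ℓ.Prime := ⟨hctf.pr⟩
  set P : Submodule F A := LinearMap.range q with hPdef
  have hPx : ∀ x ∈ P, q x = x := by
    rintro x ⟨y, rfl⟩
    exact hqq y
  have hlr : ∀ (g h : V) (a : A), q (α g * a * α h) = α g * q a * α h := by
    intro g h a
    rw [hqr, hql]
  have hP : ∀ (g h : V), ∀ x ∈ P, α g * x * α h ∈ P := by
    rintro g h x ⟨y, rfl⟩
    exact ⟨α g * y * α h, hlr g h y⟩
  obtain ⟨σ, hσ⟩ := exσ (F := F) α P hP
  set p : A →ₗ[F] P := LinearMap.codRestrict P q (fun x => ⟨x, rfl⟩) with hp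
  have hpx : ∀ a, ((p a : P) : A) = q a := fun _ => rfl
  have hpi : ∀ x : P, p (x : A) = x := by
    intro x
    apply Subtype.ext
    rw [hpx]
    exact hPx _ x.2
  have hbi : ∀ (w : V × V) (a : A), bi F α w a = α w.1 * a * α w.2⁻¹ := by
    intro w a
    show α w.1 * (a * α w.2⁻¹) = _
    rw [← mul_assoc]
  have hpσ : ∀ (w : V × V) (a : A), p (bi F α w a) = σ w (p a) := by
    intro w a
    apply Subtype.ext
    rw [hσ, hpx, hpx, hbi, hlr]
  have hPSσ : PS (fun K => ∃ (e : E) (R : Subgroup V), K = tw (φ e).toMonoidHom R) σ := by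
    refine hpsm F (V × V) A P (bi F α) σ _ P.subtype p ?_ ?_ ?_ hPS
    · intro w x
      rw [hbi]
      exact hσ w x
    · intro w a
      exact hpσ w a
    · intro x
      exact hpi x
  have hpg : IsPGroup ℓ (V × V) := by
    rw [IsPGroup.iff_card]
    obtain ⟨m, hm⟩ := (IsPGroup.iff_card).1 hctf.pg
    exact ⟨m + m, by rw [Nat.card_prod, hm, pow_add]⟩
  -- the Brauer quotients at `tw (φ e) R`, `R` in `NN`, vanish
  have key : ∀ (e : E) (R : Subgroup V), NN R →
      Fx σ (tw (φ e).toMonoidHom R) ≤ BK σ (tw (φ e).toMonoidHom R) := by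
    intro e R hR x hx
    set j : V →* V × V := (φ e).toMonoidHom.prod (MonoidHom.id V) with hj
    have hjinj : Function.Injective j := by
      intro u v h
      exact congrArg Prod.snd h
    have hmap : R.map j = tw (φ e).toMonoidHom R := rfl
    have hcomm : ∀ v : V, α (φ e v) * n e = n e * α v := fun v => (hU.tw e v).symm
    have hcomm' : ∀ v : V, n' e * α (φ e v) = α v * n' e := by
      intro v
      calc n' e * α (φ e v) = n' e * (α (φ e v) * n e) * n' e := by
              rw [mul_assoc, mul_assoc, hU.ri, mul_one]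
        _ = α v * n' e := by
              rw [hcomm, ← mul_assoc, hU.li, one_mul]
    set Θ : A →ₗ[F] P := p.comp (LinearMap.mulLeft F (n e)) with hΘ
    have hΘσ : ∀ (v : V) (a : A), Θ (cj F α v a) = σ (j v) (Θ a) := by
      intro v a
      show p (n e * (α v * (a * α v⁻¹))) = σ (j v) (p (n e * a))
      rw [← hpσ, hbi]
      congr 1
      show _ = α (φ e v) * (n e * a) * α v⁻¹
      rw [← mul_assoc (α (φ e v)), hcomm]
      simp only [mul_assoc]
    have hfix : n' e * (x : A) ∈ Fx (cj F α) R := by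
      intro v hv
      have h1 : σ (j v) x = x := hx (j v) (Subgroup.mem_map_of_mem j hv)
      have h2 : ((σ (j v) x : P) : A) = (x : A) := congrArg Subtype.val h1
      rw [hσ] at h2
      have h3 : α (φ e v) * (x : A) * α v⁻¹ = x := h2
      show α v * (n' e * (x : A) * α v⁻¹) = n' e * (x : A)
      conv_rhs => rw [← h3]
      simp only [← mul_assoc]
      rw [hcomm']
    obtain ⟨cf, hcf⟩ := hSpn R hR _ hfix
    have h4 := BK_map (cj F α) σ j hjinj Θ hΘσ R _ hcf
    rw [hmap, map_sub, map_sum] at h4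
    have h5 : ∀ u : V, Θ (cf u • α u) = 0 := by
      intro u
      rw [map_smul]
      have h6 : Θ (α u) = 0 := by
        apply Subtype.ext
        exact hqn e u
      rw [h6, smul_zero]
    rw [Finset.sum_congr rfl fun u _ => h5 u, Finset.sum_const_zero, sub_zero] at h4
    have h7 : Θ (n' e * (x : A)) = x := by
      show p (n e * (n' e * (x : A))) = x
      rw [← mul_assoc, hU.ri, one_mul]
      exact hpi x
    rw [h7] at h4
    exact h4
  obtain ⟨Ω, i1, i2, b, d, hfr, hst⟩ :=
    hpsx ℓ F (V × V) P σ _ hpg (fun x y => mul_comm x y) hPSσ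
  refine ⟨Ω, i1, i2, fun ω => (b ω : A), fun ω => (d ω).comp p, ?_, ?_, ?_, ?_⟩
  · intro w ω
    show ((b (w • ω) : P) : A) = bi F α w (b ω)
    rw [hfr.1, hσ, hbi]
  · intro w ω x
    show d (w • ω) (p (bi F α w x)) = d ω (p x)
    rw [hpσ, hfr.2.1]
  · intro x
    have h := congrArg Subtype.val (hfr.2.2 (p x))
    rw [Submodule.coe_sum] at h
    exact h
  · intro ω
    obtain ⟨⟨e, R, hR⟩, hne⟩ := hst ω
    refine ⟨e, R, ?_, hR⟩
    intro hnot
    apply hne
    rw [hR]
    exact key e R hnot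



theorem altn (omt : OmtStmt) (trs : TrsStmt) (F V E A Ω : Type) [Field F] [CommGroup V]
    [Fintype V] [Group E] [Ring A] [Algebra F A] [FiniteDimensional F A] [Fintype Ω]
    [MulAction (V × V) Ω] (φ : E →* MulAut V) (NN : Subgroup V → Prop) (α : V →* A)
    (lam : A →ₗ[F] F) (q : A →ₗ[F] A) (b : Ω → A) (d : Ω → (A →ₗ[F] F)) (hW : NN ⊤)
    (hsym : ∀ a b, lam (a * b) = lam (b * a)) (hnd : ∀ a, (∀ b, lam (a * b) = 0) → a = 0)
    (hfN : FqN φ NN α q b d) :
    ∃ al : A →ₗ[F] A, (∀ x, ∑ h, al (x * α h⁻¹) * α h = q x) ∧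
      ∀ (m : ℕ) (b b' : Fin m → A), Du F lam b b' → ∀ ζ : A, (∀ u, ζ * α u = α u * ζ) →
        ∑ k, al (b k) * ζ * b' k ∈ BK (cj F α) ⊤ := by
  have hf : Fq F φ ⊤ α q b d := ⟨hfN.eb, hfN.ed, hfN.sum, fun ω => by
    obtain ⟨e, R, -, h⟩ := hfN.st ω
    exact ⟨e, R, le_top, h⟩⟩
  obtain ⟨O, _, _, s, p, hps, hp, hcov, hsum, hfix⟩ := omt V E Ω φ (fun ω => by
    obtain ⟨e, R, -, h⟩ := hf.st ω
    exact ⟨e, R, h⟩)
  refine ⟨∑ o, (d (s o)).smulRight (b (s o)), ?_, ?_⟩
  · intro x
    have e1 : ∀ z : A, (∑ o, (d (s o)).smulRight (b (s o))) z = ∑ o, d (s o) z • b (s o) := by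
      intro z
      rw [LinearMap.sum_apply]
      rfl
    rw [← hf.sum x, hsum, Finset.sum_comm]
    rw [← Equiv.sum_comp (Equiv.inv V)]
    refine Finset.sum_congr rfl fun h _ => ?_
    rw [e1, Finset.sum_mul]
    refine Finset.sum_congr rfl fun o _ => ?_
    rw [d_apply hf, b_apply hf, Equiv.inv_apply, inv_one, map_one, one_mul, one_mul,
      smul_mul_assoc, inv_inv]
  · intro m c c' hc ζ hζ
    set U : Ω → A := fun ω => b ω * ζ * yy d c c' ω with hU
    have hU1 : ∀ (v h : V) (ω : Ω), U (((v, h) : V × V) • ω) = cj F α v (U ω) := by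
      intro v h ω
      have e1 : cj F α v (U ω) = α v * (U ω * α v⁻¹) := rfl
      rw [e1, hU]
      show b (((v, h) : V × V) • ω) * ζ * yy d c c' (((v, h) : V × V) • ω) = _
      rw [b_apply hf, yy_apply hf lam hsym hnd c c' hc]
      have e2 : α v * (b ω * α h⁻¹) * ζ * (α h * yy d c c' ω * α v⁻¹) =
          α v * (b ω * (α h⁻¹ * (ζ * α h)) * yy d c c' ω * α v⁻¹) := by noncomm_ring
      rw [e2, hζ h, ← mul_assoc (α h⁻¹), a_l, one_mul]
    have hU2 : ∀ (v : V) (o : O), U (s (v • o)) = cj F α v (U (s o)) := by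
      intro v o
      obtain ⟨h, hh⟩ := hcov (((v, 1) : V × V) • s o)
      rw [hp, hps] at hh
      rw [← hU1 v 1 (s o), hh, hU1, map_one]
      rfl
    have hsum2 : ∑ k, (∑ o, (d (s o)).smulRight (b (s o))) (c k) * ζ * c' k =
        ∑ o ∈ Finset.univ, U (s o) := by
      have e1 : ∀ k, (∑ o, (d (s o)).smulRight (b (s o))) (c k) * ζ * c' k =
          ∑ o, b (s o) * ζ * (d (s o) (c k) • c' k) := by
        intro k
        rw [LinearMap.sum_apply, Finset.sum_mul, Finset.sum_mul]
        refine Finset.sum_congr rfl fun o _ => ?_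
        show d (s o) (c k) • b (s o) * ζ * c' k = _
        rw [smul_mul_assoc, smul_mul_assoc, mul_smul_comm]
      rw [Finset.sum_congr rfl fun k _ => e1 k, Finset.sum_comm]
      refine Finset.sum_congr rfl fun o _ => ?_
      rw [← Finset.mul_sum]
      rfl
    rw [hsum2]
    refine trs F V A O (cj F α) ⊤ (fun o => U (s o)) Finset.univ (fun o _ h _ => Finset.mem_univ _)
      ?_ (fun h _ o => hU2 h o)
    intro o _ hfx
    obtain ⟨e, R, hR, hst⟩ := hfN.st (s o)
    have h1 := hfix (s o) e R hst (fun v => by rw [hps]; exact hfx v (Subgroup.mem_top v))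
    rw [h1] at hR
    exact hR hW



end Pool.Agent.PFE.H79
end
end -- Pool.Agent.Helper79_PFE.RowsN

section -- Pool.Agent.Helper79_PFE.Unn

/-!
# PFE: units which are multiplicative up to scalars, for a family `NN` (proof of helper84)
-/

open scoped BigOperators

noncomputable section

namespace Pool.Agent.PFE.H79

open Pool.Agent.PFC Pool.Agent.PFD Pool.Agent.PFD.D6 Pool.Agent.PFD.D6.H84

/-- units for a family -/
theorem unn (F V E A : Type) [Field F] [IsAlgClosed F] [CommGroup V] [Fintype V] [Group E]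
    [Fintype E] [Ring A] [Algebra F A] (ℓ : ℕ) [CharP F ℓ] (φ : E →* MulAut V)
    (NN' : Subgroup V → Prop) (α : V →* A) (hC : Ctn ℓ φ NN') (hP : PMidN F φ NN' α) :
    ∃ (n n' : E → A) (c : E → E → F), Unt φ α n n' c := by
  classical
  have hfin := hP.fin
  have hloc := hP.loc
  have hF := fil (F := F) α hloc
  obtain ⟨K, hK⟩ := nn_nil (F := F) α
  have hE : (Fintype.card E : F) ≠ 0 := by
    intro h
    rw [CharP.cast_eq_zero_iff F ℓ, ← Nat.card_eq_fintype_card] at h
    exact hC.cop h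
  choose y y' hr hl htw using hP.uni
  have htw' : ∀ e u, y' e * α (φ e u) = α u * y' e := by
    intro e u
    calc y' e * α (φ e u) = y' e * α (φ e u) * (y e * y' e) := by rw [hr, mul_one]
      _ = y' e * (α (φ e u) * y e) * y' e := by noncomm_ring
      _ = y' e * (y e * α u) * y' e := by rw [htw]
      _ = (y' e * y e) * (α u * y' e) := by noncomm_ring
      _ = α u * y' e := by rw [hl, one_mul]
  have htw'' : ∀ e u, y' e * α u = α (φ e⁻¹ u) * y' e := by
    intro e u
    rw [← htw', ← MulAut.mul_apply, ← map_mul, mul_inv_cancel, map_one, MulAut.one_apply]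
  have cjL : ∀ e, ∀ x ∈ Cz F α ⊤, y e * x * y' e ∈ Cz F α ⊤ := by
    intro e x hx
    rw [mem_Cz] at hx ⊢
    intro u
    have e1 : α u * y e = y e * α (φ e⁻¹ u) := by
      rw [htw, ← MulAut.mul_apply, ← map_mul, mul_inv_cancel, map_one, MulAut.one_apply]
    calc α u * (y e * x * y' e) = (α u * y e) * x * y' e := by noncomm_ring
      _ = y e * (α (φ e⁻¹ u) * x) * y' e := by rw [e1]; noncomm_ring
      _ = y e * x * (α (φ e⁻¹ u) * y' e) := by rw [hx]; noncomm_ring
      _ = y e * x * y' e * α u := by rw [← htw'']; noncomm_ring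
  have cjL' : ∀ e, ∀ x ∈ Cz F α ⊤, y' e * x * y e ∈ Cz F α ⊤ := by
    intro e x hx
    rw [mem_Cz] at hx ⊢
    intro u
    calc α u * (y' e * x * y e) = (α u * y' e) * x * y e := by noncomm_ring
      _ = y' e * (α (φ e u) * x) * y e := by rw [← htw']; noncomm_ring
      _ = y' e * x * (α (φ e u) * y e) := by rw [hx]; noncomm_ring
      _ = y' e * x * y e * α u := by rw [← htw]; noncomm_ring
  have cjN : ∀ e, ∀ n ∈ NN (F := F) α, y e * n * y' e ∈ NN (F := F) α := by
    intro e n hn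
    obtain ⟨z, hz, rfl⟩ := (mem_NN α n).1 hn
    refine (mem_NN α _).2 ⟨⟨_, cjL e z z.2⟩, ?_, rfl⟩
    rw [mem_jac (F := F)] at hz ⊢
    intro hu
    apply hz
    have hart : IsArtinianRing (Cz F α ⊤) := IsArtinianRing.of_finite F _
    obtain ⟨w, hw⟩ := hu.exists_right_inv
    have hw' : y e * (z : A) * y' e * (w : A) = 1 := congrArg Subtype.val hw
    refine IsUnit.of_mul_eq_one ⟨_, cjL' e w w.2⟩ (Subtype.ext ?_)
    show (z : A) * (y' e * (w : A) * y e) = 1
    calc (z : A) * (y' e * (w : A) * y e)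
        = 1 * (z : A) * y' e * (w : A) * y e := by noncomm_ring
      _ = (y' e * y e) * (z : A) * y' e * (w : A) * y e := by rw [hl]
      _ = y' e * (y e * (z : A) * y' e * (w : A)) * y e := by noncomm_ring
      _ = 1 := by rw [hw', mul_one, hl]
  have h0 : ∀ e f, ∃ c : F, c ≠ 0 ∧ ∃ j ∈ NN (F := F) α,
      y e * y f = c • ((1 + j) * y (e * f)) := by
    intro e f
    have hz : y e * y f * y' (e * f) ∈ Cz F α ⊤ := by
      rw [mem_Cz]
      intro u
      have e1 : y' (e * f) * α u = α (φ (e * f)⁻¹ u) * y' (e * f) := htw'' _ _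
      have e2 : φ e (φ f (φ (e * f)⁻¹ u)) = u := by
        rw [← MulAut.mul_apply, ← MulAut.mul_apply, ← map_mul, ← map_mul, mul_inv_cancel,
          map_one, MulAut.one_apply]
      calc α u * (y e * y f * y' (e * f))
          = (α (φ e (φ f (φ (e * f)⁻¹ u))) * y e) * y f * y' (e * f) := by
            rw [e2]; noncomm_ring
        _ = y e * (α (φ f (φ (e * f)⁻¹ u)) * y f) * y' (e * f) := by rw [← htw]; noncomm_ring
        _ = y e * y f * (α (φ (e * f)⁻¹ u) * y' (e * f)) := by rw [← htw]; noncomm_ring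
        _ = y e * y f * y' (e * f) * α u := by rw [← e1]; noncomm_ring
    have hz' : y (e * f) * y' f * y' e ∈ Cz F α ⊤ := by
      rw [mem_Cz]
      intro u
      have e2 : φ (e * f) (φ f⁻¹ (φ e⁻¹ u)) = u := by
        rw [← MulAut.mul_apply, ← MulAut.mul_apply, ← map_mul, ← map_mul]
        have : e * f * f⁻¹ * e⁻¹ = 1 := by group
        rw [this, map_one, MulAut.one_apply]
      calc α u * (y (e * f) * y' f * y' e)
          = (α (φ (e * f) (φ f⁻¹ (φ e⁻¹ u))) * y (e * f)) * y' f * y' e := by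
            rw [e2]; noncomm_ring
        _ = y (e * f) * (α (φ f⁻¹ (φ e⁻¹ u)) * y' f) * y' e := by rw [← htw]; noncomm_ring
        _ = y (e * f) * y' f * (α (φ e⁻¹ u) * y' e) := by rw [← htw'']; noncomm_ring
        _ = y (e * f) * y' f * y' e * α u := by rw [← htw'']; noncomm_ring
    obtain ⟨c, hc⟩ := exists_scalar (F := F) (⟨_, hz⟩ : Cz F α ⊤)
    have hun : IsUnit (⟨_, hz⟩ : Cz F α ⊤) := by
      have hart : IsArtinianRing (Cz F α ⊤) := IsArtinianRing.of_finite F _
      refine IsUnit.of_mul_eq_one ⟨_, hz'⟩ (Subtype.ext ?_)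
      show y e * y f * y' (e * f) * (y (e * f) * y' f * y' e) = 1
      calc y e * y f * y' (e * f) * (y (e * f) * y' f * y' e)
          = y e * y f * (y' (e * f) * y (e * f)) * y' f * y' e := by noncomm_ring
        _ = y e * (y f * y' f) * y' e := by rw [hl]; noncomm_ring
        _ = 1 := by rw [hr, mul_one, hr]
    have hc0 : c ≠ 0 := by
      rintro rfl
      rw [map_zero, sub_zero, mem_jac (F := F)] at hc
      exact hc hun
    refine ⟨c, hc0, c⁻¹ • (y e * y f * y' (e * f) - c • (1 : A)), ?_, ?_⟩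
    · apply Submodule.smul_mem
      refine (mem_NN α _).2 ⟨_, hc, ?_⟩
      show y e * y f * y' (e * f) - algebraMap F A c = _
      rw [Algebra.smul_def, mul_one]
    · rw [smul_sub, smul_smul, inv_mul_cancel₀ hc0, one_smul, add_sub_cancel, smul_mul_assoc,
        smul_smul, mul_inv_cancel₀ hc0, one_smul, mul_assoc (y e * y f), hl, mul_one]
  choose c hc hj using h0
  have ap : Ap (NN (F := F) α) y y' c 1 := by
    refine ⟨hl, hr, cjN, hc, ?_⟩
    intro e f
    rw [pow_one]
    exact hj e f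
  obtain ⟨t, t', ht, ht', h1, h2, ap'⟩ := iter hF K hK hE y y' c ap (K + 1) (by omega)
  have hK1 : (NN (F := F) α) ^ (K + 1) = ⊥ := by
    rw [pow_succ, hK, Submodule.bot_mul]
  have hm : ∀ e f, (t e * y e) * (t f * y f) = c e f • (t (e * f) * y (e * f)) := by
    intro e f
    obtain ⟨j, hj, h⟩ := ap'.mul e f
    rw [hK1, Submodule.mem_bot] at hj
    rw [hj, add_zero, one_mul] at h
    exact h
  have hone : t 1 * y 1 = c 1 1 • 1 := by
    have h3 := hm 1 1
    rw [mul_one] at h3
    have h4 := congrArg (fun z => z * (y' 1 * t' 1)) h3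
    simp only [smul_mul_assoc] at h4
    have h5 : t 1 * y 1 * (y' 1 * t' 1) = 1 := ap'.ri 1
    rw [mul_assoc (t 1 * y 1), h5, mul_one] at h4
    exact h4
  refine ⟨fun e => (c 1 1)⁻¹ • (t e * y e), fun e => (c 1 1) • (y' e * t' e),
    fun e f => (c 1 1)⁻¹ * c e f, ?_, ?_, ?_, ?_, ?_⟩
  · show (c 1 1)⁻¹ • (t 1 * y 1) = 1
    rw [hone, smul_smul, inv_mul_cancel₀ (hc 1 1), one_smul]
  · intro e
    have h5 : y' e * t' e * (t e * y e) = 1 := ap'.li e
    show (c 1 1) • (y' e * t' e) * (c 1 1)⁻¹ • (t e * y e) = 1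
    rw [smul_mul_smul_comm, h5, mul_inv_cancel₀ (hc 1 1), one_smul]
  · intro e
    have h5 : t e * y e * (y' e * t' e) = 1 := ap'.ri e
    show (c 1 1)⁻¹ • (t e * y e) * (c 1 1) • (y' e * t' e) = 1
    rw [smul_mul_smul_comm, h5, inv_mul_cancel₀ (hc 1 1), one_smul]
  · intro e u
    show (c 1 1)⁻¹ • (t e * y e) * α u = α (φ e u) * ((c 1 1)⁻¹ • (t e * y e))
    rw [smul_mul_assoc, mul_smul_comm]
    congr 1
    rw [mul_assoc, htw, ← mul_assoc, ← mul_assoc, (mem_Cz α _).1 (ht e)]
  · intro e f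
    show (c 1 1)⁻¹ • (t e * y e) * (c 1 1)⁻¹ • (t f * y f) =
      ((c 1 1)⁻¹ * c e f) • ((c 1 1)⁻¹ • (t (e * f) * y (e * f)))
    rw [smul_mul_smul_comm, hm, smul_smul, smul_smul]
    congr 1
    ring

end Pool.Agent.PFE.H79
end
end -- Pool.Agent.Helper79_PFE.Unn

section -- Pool.Agent.Helper79_PFE.TopN

/-!
# PFE: `TxnStmt` (the twisted extension for a family `NN`)
-/

open scoped BigOperators

noncomputable section

namespace Pool.Agent.PFE.H79

open Pool.Agent.PFC Pool.Agent.PFD Pool.Agent.PFD.D6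
open Pool.Agent.PFC.B5a (FvtStmt TrsStmt BkiStmt FdbStmt Du)

/-- from relative separability over `F_c[V : E]` to relative separability over `F V` -/
theorem sepV {F V E A K : Type} [Field F] [CommGroup V] [Group E] [Fintype E] [Ring A]
    [Algebra F A] [Fintype K] (φ : E →* MulAut V) (z : Coc F E) (j : CP (D0 φ z) →ₐ[F] A)
    (hcard : (Nat.card E : F) ≠ 0) (s : B1.Sep (CP (D0 φ z)) A K j.toRingHom) :
    Nonempty (B1.Sep (MonoidAlgebra F V) A (K × E) (j.comp (CP.iS (D0 φ z))).toRingHom) := by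
  classical
  have hinv1 : ∀ e, CP.n (D0 φ z) e * ni (D0 φ z) e = 1 := fun e => CP.n_mul_inv e
  have hinv2 : ∀ e, ni (D0 φ z) e * CP.n (D0 φ z) e = 1 := fun e => CP.inv_mul_n e
  have hj1 : ∀ e, j (CP.n (D0 φ z) e) * j (ni (D0 φ z) e) = 1 := fun e => by
    rw [← map_mul, hinv1, map_one]
  have hj2 : ∀ e, j (ni (D0 φ z) e) * j (CP.n (D0 φ z) e) = 1 := fun e => by
    rw [← map_mul, hinv2, map_one]
  have hcE : (Nat.card E : F) = (Fintype.card E : F) := by
    rw [Nat.card_eq_fintype_card]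
  refine ⟨⟨fun k => s.u k.1 * j (CP.n (D0 φ z) k.2),
    fun k => (Nat.card E : F)⁻¹ • (j (ni (D0 φ z) k.2) * s.v k.1), ?_, ?_⟩⟩
  · rw [Fintype.sum_prod_type]
    have h1 : ∀ k, ∑ e, s.u k * j (CP.n (D0 φ z) e) *
        ((Nat.card E : F)⁻¹ • (j (ni (D0 φ z) e) * s.v k)) = s.u k * s.v k := by
      intro k
      have h2 : ∀ e, s.u k * j (CP.n (D0 φ z) e) *
          ((Nat.card E : F)⁻¹ • (j (ni (D0 φ z) e) * s.v k)) =
          (Nat.card E : F)⁻¹ • (s.u k * s.v k) := by
        intro e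
        rw [mul_smul_comm]
        congr 1
        calc s.u k * j (CP.n (D0 φ z) e) * (j (ni (D0 φ z) e) * s.v k)
            = s.u k * (j (CP.n (D0 φ z) e) * j (ni (D0 φ z) e)) * s.v k := by noncomm_ring
          _ = s.u k * s.v k := by rw [hj1, mul_one]
      rw [Finset.sum_congr rfl fun e _ => h2 e, Finset.sum_const, Finset.card_univ,
        ← Nat.cast_smul_eq_nsmul F, smul_smul, ← hcE, mul_inv_cancel₀ hcard, one_smul]
    rw [Finset.sum_congr rfl fun k _ => h1 k]
    exact s.one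
  · intro X _ B hB x
    -- the balanced map over `F_c[V : E]`
    let T : A →+ A →+ X := AddMonoidHom.mk' (fun a => AddMonoidHom.mk' (fun b =>
      ∑ e, B (a * j (CP.n (D0 φ z) e)) ((Nat.card E : F)⁻¹ • (j (ni (D0 φ z) e) * b)))
      (fun b b' => by
        rw [← Finset.sum_add_distrib]
        apply Finset.sum_congr rfl
        intro e _
        rw [mul_add, smul_add, map_add])) (fun a a' => by
        apply AddMonoidHom.ext
        intro b
        show ∑ e, B ((a + a') * j (CP.n (D0 φ z) e))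
            ((Nat.card E : F)⁻¹ • (j (ni (D0 φ z) e) * b)) =
          (∑ e, B (a * j (CP.n (D0 φ z) e)) ((Nat.card E : F)⁻¹ • (j (ni (D0 φ z) e) * b))) +
          ∑ e, B (a' * j (CP.n (D0 φ z) e)) ((Nat.card E : F)⁻¹ • (j (ni (D0 φ z) e) * b))
        rw [← Finset.sum_add_distrib]
        apply Finset.sum_congr rfl
        intro e _
        rw [add_mul, map_add, AddMonoidHom.add_apply])
    have hT : ∀ a b, T a b = ∑ e, B (a * j (CP.n (D0 φ z) e))
        ((Nat.card E : F)⁻¹ • (j (ni (D0 φ z) e) * b)) := fun _ _ => rfl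
    have key : ∀ (a b : A) (m : MonoidAlgebra F V) (g : E),
        T (a * j (CP.iS (D0 φ z) m * CP.n (D0 φ z) g)) b =
          T a (j (CP.iS (D0 φ z) m * CP.n (D0 φ z) g) * b) := by
      intro a b m g
      rw [hT, hT, ← Equiv.sum_comp (Equiv.mulLeft g) (fun e => B (a * j (CP.n (D0 φ z) e))
        ((Nat.card E : F)⁻¹ • (j (ni (D0 φ z) e) *
          (j (CP.iS (D0 φ z) m * CP.n (D0 φ z) g) * b))))]
      apply Finset.sum_congr rfl
      intro e _
      rw [Equiv.coe_mulLeft]
      obtain ⟨t, ht⟩ : ∃ t, CP.iS (D0 φ z) m * CP.n (D0 φ z) g * CP.n (D0 φ z) e =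
          CP.n (D0 φ z) (g * e) * CP.iS (D0 φ z) t := by
        refine ⟨((D0 φ z).c g e : F) • (D0 φ z).act (g * e)⁻¹ m, ?_⟩
        rw [CP.n_mul_iS, map_smul, mul_assoc, CP.n_mul_n, mul_smul_comm]
        have h3 : (D0 φ z).act (g * e) ((D0 φ z).act (g * e)⁻¹ m) = m := by
          rw [← AlgEquiv.mul_apply, ← map_mul, mul_inv_cancel, map_one, AlgEquiv.one_apply]
        rw [h3, map_smul, smul_mul_assoc]
      have ht2 : CP.iS (D0 φ z) t * ni (D0 φ z) e =
          ni (D0 φ z) (g * e) * (CP.iS (D0 φ z) m * CP.n (D0 φ z) g) := by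
        calc CP.iS (D0 φ z) t * ni (D0 φ z) e
            = (ni (D0 φ z) (g * e) * CP.n (D0 φ z) (g * e)) * CP.iS (D0 φ z) t *
                ni (D0 φ z) e := by rw [hinv2, one_mul]
          _ = ni (D0 φ z) (g * e) * (CP.n (D0 φ z) (g * e) * CP.iS (D0 φ z) t) *
                ni (D0 φ z) e := by rw [mul_assoc (ni (D0 φ z) (g * e))]
          _ = ni (D0 φ z) (g * e) * (CP.iS (D0 φ z) m * CP.n (D0 φ z) g * CP.n (D0 φ z) e) *
                ni (D0 φ z) e := by rw [ht]
          _ = ni (D0 φ z) (g * e) * (CP.iS (D0 φ z) m * CP.n (D0 φ z) g) *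
                (CP.n (D0 φ z) e * ni (D0 φ z) e) := by
                  simp only [mul_assoc]
          _ = _ := by rw [hinv1, mul_one]
      have h4 : a * j (CP.iS (D0 φ z) m * CP.n (D0 φ z) g) * j (CP.n (D0 φ z) e) =
          a * j (CP.n (D0 φ z) (g * e)) * j (CP.iS (D0 φ z) t) := by
        rw [mul_assoc, ← map_mul, ht, map_mul, mul_assoc]
      have h5 : j (CP.iS (D0 φ z) t) * ((Nat.card E : F)⁻¹ • (j (ni (D0 φ z) e) * b)) =
          (Nat.card E : F)⁻¹ • (j (ni (D0 φ z) (g * e)) *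
            (j (CP.iS (D0 φ z) m * CP.n (D0 φ z) g) * b)) := by
        rw [mul_smul_comm, ← mul_assoc, ← map_mul, ht2, map_mul, mul_assoc]
      rw [h4]
      have h6 := hB (a * j (CP.n (D0 φ z) (g * e))) t
        ((Nat.card E : F)⁻¹ • (j (ni (D0 φ z) e) * b))
      have h7 : (j.comp (CP.iS (D0 φ z))).toRingHom t = j (CP.iS (D0 φ z) t) := rfl
      rw [h7, h5] at h6
      exact h6
    have hbal : ∀ (a : A) (γ : CP (D0 φ z)) (b : A),
        T (a * j.toRingHom γ) b = T a (j.toRingHom γ * b) := by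
      intro a γ b
      show T (a * j γ) b = T a (j γ * b)
      rw [← CP.sum_iS_n γ, map_sum, Finset.mul_sum, Finset.sum_mul, map_sum, map_sum,
        AddMonoidHom.finsetSum_apply]
      exact Finset.sum_congr rfl fun e _ => key a b _ e
    have h8 := s.bal X T hbal x
    simp only [hT] at h8
    rw [Fintype.sum_prod_type, Fintype.sum_prod_type]
    calc ∑ k, ∑ e, B (x * (s.u k * j (CP.n (D0 φ z) e)))
            ((Nat.card E : F)⁻¹ • (j (ni (D0 φ z) e) * s.v k))
        = ∑ k, ∑ e, B (x * s.u k * j (CP.n (D0 φ z) e))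
            ((Nat.card E : F)⁻¹ • (j (ni (D0 φ z) e) * s.v k)) := by
          refine Finset.sum_congr rfl fun k _ => Finset.sum_congr rfl fun e _ => ?_
          rw [mul_assoc]
      _ = _ := h8
      _ = ∑ k, ∑ e, B (s.u k * j (CP.n (D0 φ z) e))
            ((Nat.card E : F)⁻¹ • (j (ni (D0 φ z) e) * s.v k) * x) := by
          refine Finset.sum_congr rfl fun k _ => Finset.sum_congr rfl fun e _ => ?_
          rw [smul_mul_assoc, mul_assoc]

theorem txn_top : TxnStmt := by
  classical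
  intro F V E A _ _ _ _ _ _ _ _ ℓ _ φ NN α hC hM
  have hfin : FiniteDimensional F A := hM.fin
  obtain ⟨n, n', c, hU⟩ := unn F V E A ℓ φ NN α hC hM
  have hnt : Nontrivial A := by
    by_contra h
    rw [not_nontrivial_iff_subsingleton] at h
    apply hM.one
    rw [Subsingleton.elim (1 : A) 0]
    exact Submodule.zero_mem _
  obtain ⟨z, hz⟩ := H81.coc F V E A φ α n n' c hU
  have hcz : c = fun e f => (z.c e f : F) := by
    funext e f
    exact (hz e f).symm
  subst hcz
  obtain ⟨mu, hmu⟩ := hM.frm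
  obtain ⟨S, hT, hα, hn⟩ := H6.tgt F V E A φ α n n' _ hU
  obtain ⟨c', hc⟩ := cotn B5a.H46.fvt F V E A ℓ φ NN α n n' _ mu S hC hU hmu.sym hmu.nz hT hα hn
  obtain ⟨hES, hEl, hEr, hEsym, hEmu, q, hq, hqq, hql, hqr, hqS⟩ :=
    H6.prj F A (V × E) S (gg α n) (gg' α n') mu c' hT hmu.sym hc
  obtain ⟨hli, hEx⟩ := retn B5a.H46.fvt H6.prj F V E A ℓ φ NN α n n' _ mu S c' hC hU hmu hT
    hα hn hc
  obtain ⟨Ω, _, _, b, d, hFq⟩ := qwn Pool.Agent.PFC.H10.psx Pool.Agent.PFC.H41.psm F V E A ℓ φ NN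
    α n n' _ q hC hU hM.ps hM.spn
    hqq (fun u x => hql _ (hα u) x) (fun u x => hqr _ (hα u) x)
    (fun e u => hqS _ (S.mul_mem (hn e) (hα u)))
  have hcard : (Nat.card E : F) ≠ 0 := by
    intro h
    exact hC.cop ((CharP.cast_eq_zero_iff F ℓ _).1 h)
  obtain ⟨al, hal, halB⟩ := altn H33.omt B5a.H77.trs F V E A Ω φ NN α mu q b d hC.top hmu.sym
    hmu.nd hFq
  have hAL := H65.ave F V E A φ α n n' _ q al hU hcard (fun e x => hqr _ (hn e) x) hal
  obtain ⟨m, b0, b0', hDu, -⟩ := B5a.H41.fdb F A mu hmu.sym hmu.nd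
  generalize hal' : ((Nat.card E : F)⁻¹ • al : A →ₗ[F] A) = al' at hAL
  obtain ⟨hc1, hc2, hCs⟩ := H6.cat H6.prj F A (V × E) S (gg α n) (gg' α n') mu c' al' m b0 b0' hT
    hmu.sym hmu.nd hc (fun x => by rw [hAL x, hq]) hDu
  have hB' : ∀ ζ : A, (∀ u, ζ * α u = α u * ζ) →
      ∑ k, al' (b0 k) * ζ * b0' k ∈ BK (cj F α) ⊤ := by
    intro ζ hζ
    have h1 : ∑ k, al' (b0 k) * ζ * b0' k =
        (Nat.card E : F)⁻¹ • ∑ k, al (b0 k) * ζ * b0' k := by
      rw [Finset.smul_sum]
      apply Finset.sum_congr rfl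
      intro k _
      rw [← hal', LinearMap.smul_apply, smul_mul_assoc, smul_mul_assoc]
    rw [h1]
    exact Submodule.smul_mem _ _ (halB m b0 b0' hDu ζ hζ)
  obtain ⟨⟨ρ, hρ, hρ1, hρC⟩, hun⟩ := H33.spt H81.unl F V A (V × E) S (gg α n) (gg' α n') mu c' al'
    m b0 b0' α hα hc (hES 1) hM.loc hM.one hB' hCs
  have hr : ∀ x, (LinearMap.id - q : A →ₗ[F] A) x = Ev F (gg α n) (gg' α n') mu x * c' := by
    intro x
    rw [LinearMap.sub_apply, LinearMap.id_apply, hq]
    abel
  obtain ⟨j, pr, hjv, hjn, hjni, hjS, hjinj, hprj, hprl, hprr, hjpr⟩ :=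
    H32.cpj F V E A φ α n n' z (mu.comp (LinearMap.mulRight F c')) S (LinearMap.id - q) hU hT hli
      (fun x => by
        rw [hr, hEx]
        rfl)
      (fun s hs => by
        rw [LinearMap.sub_apply, LinearMap.id_apply, hqS s hs, sub_zero])
      (fun s hs x => by
        rw [LinearMap.sub_apply, LinearMap.id_apply, hql s hs, LinearMap.sub_apply,
          LinearMap.id_apply, mul_sub])
      (fun s hs x => by
        rw [LinearMap.sub_apply, LinearMap.id_apply, hqr s hs, LinearMap.sub_apply,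
          LinearMap.id_apply, sub_mul])
  have hjE : ∀ x, j (pr x) = Ev F (gg α n) (gg' α n') mu x * c' := fun x => by
    rw [hjpr, hr]
  obtain ⟨sep⟩ := H81.cvs F (CP (D0 φ z)) A (Option (Fin m)) S j
    (fun k : Option (Fin m) => k.elim c' (fun k => al' (b0 k)))
    (fun k : Option (Fin m) => k.elim 1 b0' * ρ) hjS hρ1 hρC
  obtain ⟨sepv⟩ := sepV φ z j hcard sep
  have hs1 : ∀ s ∈ S, Ev F (gg α n) (gg' α n') mu 1 * s * c' = s := by
    intro s hs
    rw [mul_assoc, ← hc.com s hs, ← mul_assoc, hc.rin, one_mul]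
  have hbi : ∀ (w : V × V) (a : A),
      bi F α w a = j (vv φ z w.1) * a * j (vv φ z w.2⁻¹) := by
    intro w a
    rw [hjv, hjv]
    show α w.1 * (a * α w.2⁻¹) = _
    rw [← mul_assoc]
  refine ⟨z,
    { j := j
      pr := pr
      pr_j := hprj
      pr_l := hprl
      pr_r := hprr
      fin := hfin
      mu := mu
      mus := hmu.sym
      mun := hmu.nd
      orth := fun x => by rw [hjE, hEmu]
      K := Option (Fin m)
      fK := inferInstance
      sep := sep
      sepV := sepv
      N := Option (Fin m)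
      fN := inferInstance
      x := fun k => k.elim c' (fun k => al' (b0 k))
      y := fun k => Ev F (gg α n) (gg' α n') mu 1 * k.elim 1 b0'
      e1 := ?_
      e2 := ?_
      unt := ?_
      Om := Ω
      fOm := inferInstance
      aOm := inferInstance
      b := b
      d := d
      b_eq := ?_
      d_eq := ?_
      sum := ?_
      st := hFq.st }, hjv⟩
  · intro a
    have h1 : ∀ k : Option (Fin m), k.elim c' (fun k => al' (b0 k)) *
        j (pr (Ev F (gg α n) (gg' α n') mu 1 * k.elim 1 b0' * a)) =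
        k.elim c' (fun k => al' (b0 k)) * Ev F (gg α n) (gg' α n') mu (k.elim 1 b0' * a) := by
      intro k
      rw [hjE, mul_assoc (Ev F (gg α n) (gg' α n') mu 1), hEl _ (hES 1), hs1 _ (hES _)]
    rw [Finset.sum_congr rfl (fun k _ => h1 k)]
    exact hc1 a
  · intro a
    have h1 : ∀ k : Option (Fin m), j (pr (a * k.elim c' (fun k => al' (b0 k)))) *
        (Ev F (gg α n) (gg' α n') mu 1 * k.elim 1 b0') =
        Ev F (gg α n) (gg' α n') mu (a * k.elim c' (fun k => al' (b0 k))) *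
          k.elim 1 b0' := by
      intro k
      rw [hjE, ← mul_assoc, mul_assoc _ c', hc.lin, mul_one]
    rw [Finset.sum_congr rfl (fun k _ => h1 k)]
    exact hc2 a
  · intro w hw hwu
    obtain ⟨⟨w, w', h1, h2⟩, rfl⟩ := hwu
    have h3 := hun (j w) (j w') (fun s hs => by
      obtain ⟨γ, rfl⟩ := (hjS s).1 hs
      rw [← map_mul, ← map_mul]
      exact congrArg j (hw γ)) (by rw [← map_mul, h1, map_one])
      (by rw [← map_mul, h2, map_one])
    exact h3
  · intro w ω
    rw [hFq.eb, hbi]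
  · intro w ω a
    rw [← hbi]
    exact hFq.ed w ω a
  · intro a
    rw [hFq.sum, hjpr, LinearMap.sub_apply, LinearMap.id_apply]
    abel

end Pool.Agent.PFE.H79
end
end -- Pool.Agent.Helper79_PFE.TopN
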