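import Pool.Agent.Helper12_AWB.B004
import Pool.Agent.Helper12_AWB.B038

/-!
# Merged copies (generated) of the modules

* `Pool.Agent.Helper19_PFC.QCB`
* `Pool.Agent.PFC.B4.PSR_49`
* `Pool.Agent.Helper20_PFC.QCP`
* `Pool.Agent.Helper70_PFC.QFCa`
* `Pool.Agent.Helper92_PFC.QFR`
* `Pool.Agent.Helper92_PFC.QFM`
* `Pool.Agent.Helper77_PFC.HGP`
* `Pool.Agent.Helper77_PFC.QSB`
* `Pool.Agent.Helper81_PFC.QTA`
* `Pool.Agent.Helper81_PFC.QLW`
* `Pool.Agent.Helper81_PFC.QTR`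
* `Pool.Agent.Helper9_PFC.QVP`
* `Pool.Agent.PFC.B4.Qte_helper65`
* `Pool.Agent.Helper72_PFC.QRE`
-/

set_option autoImplicit false

section -- Pool.Agent.Helper19_PFC.QCB

/-!
# QCB: the Brauer quotient of a corner.
-/

open scoped BigOperators TensorProduct

noncomputable section

namespace Pool.Agent.PFC.H19

section general

variable {F V A : Type} [Field F] [Group V] [Ring A] [Algebra F A]

theorem cj_ap (α : V →* A) (v : V) (a : A) : cj F α v a = α v * a * α v⁻¹ := by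
  change α v * (a * α v⁻¹) = α v * a * α v⁻¹
  rw [mul_assoc]

theorem inv_l (α : V →* A) (v : V) : α v⁻¹ * α v = 1 := by
  rw [← map_mul, inv_mul_cancel, map_one]

theorem inv_r (α : V →* A) (v : V) : α v * α v⁻¹ = 1 := by
  rw [← map_mul, mul_inv_cancel, map_one]

/-- a product of fixed elements is fixed -/
theorem fx_mul (α : V →* A) (Q : Subgroup V) {a b : A} (ha : a ∈ Fx (cj F α) Q)
    (hb : b ∈ Fx (cj F α) Q) : a * b ∈ Fx (cj F α) Q := by
  intro q hq
  have h1 := ha q hq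
  have h2 := hb q hq
  rw [cj_ap] at h1 h2 ⊢
  calc α q * (a * b) * α q⁻¹ = (α q * a * α q⁻¹) * (α q * b * α q⁻¹) := by
        have : α q * a * α q⁻¹ * (α q * b * α q⁻¹) = α q * a * (α q⁻¹ * α q) * (b * α q⁻¹) := by
          noncomm_ring
        rw [this, inv_l, mul_one]
        noncomm_ring
    _ = a * b := by rw [h1, h2]

end general

section modules

variable {F V M N : Type} [Field F] [Group V] [AddCommGroup M] [Module F M]
  [AddCommGroup N] [Module F N]

/-- `g T f` is in the span of the relative traces if `T` is, for equivariant `f`, `g`. -/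
theorem pt_comp (ρ : V →* (M →ₗ[F] M)) (σ : V →* (N →ₗ[F] N)) (Q : Subgroup V)
    (f : N →ₗ[F] M) (g : M →ₗ[F] N) (hf : ∀ v n, f (σ v n) = ρ v (f n))
    (hg : ∀ v m, g (ρ v m) = σ v (g m)) {T : M →ₗ[F] M} (hT : T ∈ PT ρ Q) :
    g ∘ₗ T ∘ₗ f ∈ PT σ Q := by
  unfold PT at hT
  induction hT using Submodule.span_induction with
  | mem T hT =>
    obtain ⟨K, S, h, hK, hS, hc, hs⟩ := hT
    refine Submodule.subset_span ⟨K, S, g ∘ₗ h ∘ₗ f, hK, hS, ?_, ?_⟩
    · intro k hk m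
      change σ k (g (h (f m))) = g (h (f (σ k m)))
      rw [hf, ← hc k hk, hg]
    · intro m
      change g (T (f m)) = ∑ x ∈ S, σ x (g (h (f (σ x⁻¹ m))))
      rw [hs, map_sum]
      refine Finset.sum_congr rfl ?_
      intro x _
      rw [hg, hf]
  | zero =>
    rw [LinearMap.zero_comp, LinearMap.comp_zero]
    exact Submodule.zero_mem _
  | add a b _ _ ha hb =>
    rw [LinearMap.add_comp, LinearMap.comp_add]
    exact Submodule.add_mem _ ha hb
  | smul r a _ ha =>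
    rw [LinearMap.smul_comp, LinearMap.comp_smul]
    exact Submodule.smul_mem _ _ ha

end modules

section corner

variable {F V : Type} [Field F] [CommGroup V]

theorem cor_id {X Y : IA F V} {j : X.A} {κ : Y.A →ₗ[F] X.A} (h : Cor X Y j κ) : j * j = j := by
  have := h.mul 1 1
  rw [mul_one, h.one] at this
  exact this.symm

theorem cor_l {X Y : IA F V} {j : X.A} {κ : Y.A →ₗ[F] X.A} (h : Cor X Y j κ) (a : Y.A) :
    j * κ a = κ a := by
  have := h.mul 1 a
  rw [one_mul, h.one] at this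
  exact this.symm

theorem cor_r {X Y : IA F V} {j : X.A} {κ : Y.A →ₗ[F] X.A} (h : Cor X Y j κ) (a : Y.A) :
    κ a * j = κ a := by
  have := h.mul a 1
  rw [mul_one, h.one] at this
  exact this.symm

/-- the inclusion of the corner is equivariant -/
theorem cor_eq {X Y : IA F V} {j : X.A} {κ : Y.A →ₗ[F] X.A} (h : Cor X Y j κ) (v : V)
    (a : Y.A) : κ (cj F Y.ι v a) = cj F X.ι v (κ a) := by
  rw [cj_ap, cj_ap, h.mul, h.mul, h.cov, h.cov]
  calc X.ι v * j * κ a * (X.ι v⁻¹ * j) = X.ι v * (j * κ a) * (X.ι v⁻¹ * j) := by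
        noncomm_ring
    _ = X.ι v * (κ a * j) * X.ι v⁻¹ := by
        rw [cor_l h, h.com]
        noncomm_ring
    _ = X.ι v * κ a * X.ι v⁻¹ := by rw [cor_r h]

/-- the projection to the corner -/
theorem cor_pr {X Y : IA F V} {j : X.A} {κ : Y.A →ₗ[F] X.A} (h : Cor X Y j κ) :
    ∃ r : X.A →ₗ[F] Y.A, (∀ a, κ (r a) = j * a * j) ∧ (∀ b, r (κ b) = b) ∧
      ∀ v a, r (cj F X.ι v a) = cj F Y.ι v (r a) := by
  have hj := cor_id h
  have h1 : ∀ a : X.A, ∃ b, κ b = j * a * j := by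
    intro a
    refine h.ran _ ?_ ?_
    · calc j * (j * a * j) = j * j * a * j := by noncomm_ring
        _ = j * a * j := by rw [hj]
    · rw [mul_assoc, hj]
  choose r hr using h1
  refine ⟨{ toFun := r, map_add' := ?_, map_smul' := ?_ }, hr, ?_, ?_⟩
  · intro a b
    apply h.inj
    rw [map_add, hr, hr, hr]
    noncomm_ring
  · intro c a
    apply h.inj
    rw [map_smul, hr, hr, RingHom.id_apply, mul_smul_comm, smul_mul_assoc]
  · intro b
    apply h.inj
    change κ (r (κ b)) = κ b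
    rw [hr, cor_l h, cor_r h]
  · intro v a
    apply h.inj
    rw [cor_eq h]
    change κ (r _) = cj F X.ι v (κ (r a))
    rw [hr, hr, cj_ap, cj_ap]
    calc j * (X.ι v * a * X.ι v⁻¹) * j = (j * X.ι v) * a * (X.ι v⁻¹ * j) := by noncomm_ring
      _ = (X.ι v * j) * a * (j * X.ι v⁻¹) := by rw [h.com, h.com]
      _ = X.ι v * (j * a * j) * X.ι v⁻¹ := by noncomm_ring

end corner

/-- QCB: the Brauer quotient of a corner. -/
theorem qcb : QcbStmt := by
  intro ℓ _ F V _ _ _ _ X Y X' Y' Q β s j κ κy hp hB hC hCy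
  obtain ⟨r, hr1, hr2, hr3⟩ := cor_pr hC
  obtain ⟨t, ht1, ht2, ht3⟩ := cor_pr hCy
  have hjid := cor_id hC
  -- `j` is fixed
  have hjF : ∀ v, cj F X.ι v j = j := by
    intro v
    rw [cj_ap, hC.com, mul_assoc, inv_r, mul_one]
  have hjQ : j ∈ Fx (cj F X.ι) Q := fun q _ => hjF q
  -- the values of `s` are fixed
  have hsF : ∀ n, s n ∈ Fx (cj F X.ι) Q := by
    intro n q hq
    rw [← hB.es, hB.tr q hq]
  have hβj : ∀ a ∈ Fx (cj F X.ι) Q, β (j * a * j) = β j * β a * β j := by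
    intro a ha
    rw [hB.mul _ (fx_mul X.ι Q hjQ ha) _ hjQ, hB.mul _ hjQ _ ha]
  -- `κ a` is fixed if `a` is
  have hκF : ∀ a ∈ Fx (cj F X'.ι) Q, κ a ∈ Fx (cj F X.ι) Q := by
    intro a ha q hq
    rw [← cor_eq hC, ha q hq]
  have hβκ : ∀ a ∈ Fx (cj F X'.ι) Q, β j * β (κ a) * β j = β (κ a) := by
    intro a ha
    rw [← hβj _ (hκF a ha), cor_l hC, cor_r hC]
  let β' : X'.A →ₗ[F] Y'.A := t ∘ₗ β ∘ₗ κ
  let s' : Y'.A →ₗ[F] X'.A := r ∘ₗ s ∘ₗ κy
  have hβ' : ∀ a, β' a = t (β (κ a)) := fun a => rfl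
  have hs' : ∀ b, s' b = r (s (κy b)) := fun b => rfl
  have hlast : ∀ a ∈ Fx (cj F X'.ι) Q, κy (β' a) = β (κ a) := by
    intro a ha
    rw [hβ', ht1, hβκ a ha]
  -- `X'.ι v` is fixed
  have hιF : ∀ v, X'.ι v ∈ Fx (cj F X'.ι) Q := by
    intro v q _
    rw [cj_ap, ← map_mul, mul_comm q v, map_mul, mul_assoc, inv_r, mul_one]
  have hιX : ∀ v, X.ι v ∈ Fx (cj F X.ι) Q := by
    intro v q _
    rw [cj_ap, ← map_mul, mul_comm q v, map_mul, mul_assoc, inv_r, mul_one]
  have hbs : ∀ n, β' (s' n) = n := by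
    intro n
    rw [hβ', hs', hr1, hβj _ (hsF _), hB.bs, cor_l hCy, cor_r hCy, ht2]
  have heb : ∀ v m, β' (cj F X'.ι v m) = cj F Y'.ι v (β' m) := by
    intro v m
    rw [hβ', hβ', cor_eq hC, hB.eb, ht3]
  have hes : ∀ v n, s' (cj F Y'.ι v n) = cj F X'.ι v (s' n) := by
    intro v n
    rw [hs', hs', cor_eq hCy, hB.es, hr3]
  have htr : ∀ q ∈ Q, ∀ n, cj F Y'.ι q n = n := by
    intro q hq n
    apply hCy.inj
    rw [cor_eq hCy, hB.tr q hq]
  -- the defect `φ`
  let φ : X.A →ₗ[F] Y.A := β ∘ₗ κ ∘ₗ r - κy ∘ₗ t ∘ₗ β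
  have hφ : ∀ a, φ a = β (κ (r a)) - κy (t (β a)) := fun a => rfl
  have hφF : ∀ a ∈ Fx (cj F X.ι) Q, φ a = 0 := by
    intro a ha
    rw [hφ, hr1, ht1, hβj a ha, sub_self]
  have hφe : ∀ v a, φ (cj F X.ι v a) = cj F Y.ι v (φ a) := by
    intro v a
    rw [hφ, hφ, hr3, cor_eq hC, hB.eb, hB.eb, ht3, cor_eq hCy, map_sub]
  let g : X.A →ₗ[F] X'.A := r + r ∘ₗ s ∘ₗ φ
  have hg0 : ∀ a, g a = r a + r (s (φ a)) := fun a => rfl
  have hge : ∀ v a, g (cj F X.ι v a) = cj F X'.ι v (g a) := by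
    intro v a
    rw [hg0, hg0, hφe, hB.es, hr3, hr3, map_add]
  have hkey : LinearMap.id - s' ∘ₗ β' = g ∘ₗ (LinearMap.id - s ∘ₗ β) ∘ₗ κ := by
    apply LinearMap.ext
    intro a
    change a - s' (β' a) = g (κ a - s (β (κ a)))
    have e1 : φ (κ a - s (β (κ a))) = φ (κ a) := by
      rw [map_sub, hφF _ (hsF _), sub_zero]
    have e2 : s' (β' a) = r (s (κy (t (β (κ a))))) := rfl
    rw [hg0, e1, e2, hφ, map_sub r, hr2, map_sub s, map_sub r]
    abel
  refine ⟨β', s', ⟨⟨hbs, heb, hes, htr, ?_⟩, ?_, ?_⟩, hlast⟩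
  · rw [hkey]
    exact pt_comp _ _ Q κ g (fun v n => cor_eq hC v n) hge hB.hg
  · intro a ha b hb
    apply hCy.inj
    rw [hlast _ (fx_mul X'.ι Q ha hb), hC.mul, hB.mul _ (hκF a ha) _ (hκF b hb), hCy.mul,
      hlast a ha, hlast b hb]
  · intro v
    apply hCy.inj
    rw [hlast _ (hιF v), hC.cov, hB.mul _ (hιX v) _ hjQ, hB.cov, hCy.cov]

end Pool.Agent.PFC.H19
end
end -- Pool.Agent.Helper19_PFC.QCB

section -- Pool.Agent.PFC.B4.PSR_49

/-!
Squad PFC, block B4, rows PSR, PST, PSG (helper49).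
-/

namespace Pool.Agent.PFC.H49b

open Pool.Agent.PFC TensorProduct

/-- PSR: restriction along a homomorphism. -/
theorem psr : PsrStmt := by
  intro F H K M _ _ _ _ _ ρ φ X hPS
  obtain ⟨Ω, hF, hA, b, c, hfr, hst⟩ := hPS
  refine ⟨Ω, hF, MulAction.compHom Ω φ, b, c, ⟨?_, ?_, hfr.2.2⟩, ?_⟩
  · intro k ω
    exact hfr.1 (φ k) ω
  · intro k ω m
    exact hfr.2.1 (φ k) ω m
  · intro ω
    refine ⟨MulAction.stabilizer H ω, hst ω, ?_⟩
    ext k
    rfl

/-- PST: tensor products. -/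
theorem pst : PstStmt := by
  intro F H M N _ _ _ _ _ _ ρ σ X Y h1 h2
  obtain ⟨Ω₁, hF1, hA1, b1, c1, hfr1, hst1⟩ := h1
  obtain ⟨Ω₂, hF2, hA2, b2, c2, hfr2, hst2⟩ := h2
  refine ⟨Ω₁ × Ω₂, inferInstance, inferInstance, fun w => b1 w.1 ⊗ₜ[F] b2 w.2,
    fun w => (TensorProduct.lid F F).toLinearMap ∘ₗ TensorProduct.map (c1 w.1) (c2 w.2),
    ⟨?_, ?_, ?_⟩, ?_⟩
  · intro h w
    show b1 (h • w.1) ⊗ₜ[F] b2 (h • w.2) = TensorProduct.map (ρ h) (σ h) _
    rw [TensorProduct.map_tmul, hfr1.1, hfr2.1]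
  · intro h w m
    show (TensorProduct.lid F F) (TensorProduct.map (c1 (h • w.1)) (c2 (h • w.2))
      (TensorProduct.map (ρ h) (σ h) m)) = (TensorProduct.lid F F)
        (TensorProduct.map (c1 w.1) (c2 w.2) m)
    congr 1
    rw [← LinearMap.comp_apply, ← TensorProduct.map_comp]
    have e1 : (c1 (h • w.1)) ∘ₗ ρ h = c1 w.1 := LinearMap.ext (hfr1.2.1 h w.1)
    have e2 : (c2 (h • w.2)) ∘ₗ σ h = c2 w.2 := LinearMap.ext (hfr2.2.1 h w.2)
    rw [e1, e2]
  · intro m
    induction m using TensorProduct.induction_on with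
    | zero => simp
    | tmul x y =>
      have hx : (∑ ω, c1 ω x • b1 ω) ⊗ₜ[F] (∑ ω, c2 ω y • b2 ω) = x ⊗ₜ[F] y := by
        rw [hfr1.2.2, hfr2.2.2]
      refine Eq.trans ?_ hx
      rw [TensorProduct.sum_tmul, Fintype.sum_prod_type]
      refine Finset.sum_congr rfl ?_
      intro i _
      rw [TensorProduct.tmul_sum]
      refine Finset.sum_congr rfl ?_
      intro j _
      show (TensorProduct.lid F F) (TensorProduct.map (c1 i) (c2 j) (x ⊗ₜ[F] y)) •
        (b1 i ⊗ₜ[F] b2 j) = (c1 i x • b1 i) ⊗ₜ[F] (c2 j y • b2 j)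
      rw [TensorProduct.map_tmul, TensorProduct.lid_tmul, TensorProduct.smul_tmul_smul,
        smul_eq_mul]
    | add x y hx hy =>
      simp only [map_add, add_smul, Finset.sum_add_distrib]
      rw [hx, hy]
  · intro w
    refine ⟨MulAction.stabilizer H w.1, MulAction.stabilizer H w.2, hst1 w.1, hst2 w.2, ?_⟩
    ext h
    rw [Subgroup.mem_inf, MulAction.mem_stabilizer_iff, MulAction.mem_stabilizer_iff,
      MulAction.mem_stabilizer_iff]
    exact Prod.ext_iff

/-- The action of V × V on G by left and right translation through u. -/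
@[reducible] def lract {V G : Type} [Group V] [Group G] (u : V →* G) :
    MulAction (V × V) G where
  smul := fun w g => u w.1 * g * (u w.2)⁻¹
  one_smul := by
    intro g
    show u (1 : V × V).1 * g * (u (1 : V × V).2)⁻¹ = g
    simp
  mul_smul := by
    intro x y g
    show u (x * y).1 * g * (u (x * y).2)⁻¹ = u x.1 * (u y.1 * g * (u y.2)⁻¹) * (u x.2)⁻¹
    simp [mul_assoc]

theorem sum_coe {F G : Type} [Field F] [Group G] [Fintype G] (x : MonoidAlgebra F G) :
    ∑ g : G, x.coeff g • MonoidAlgebra.of F G g = x := by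
  classical
  ext g
  rw [MonoidAlgebra.coeff_sum, Finsupp.finsetSum_apply, Finset.sum_eq_single g]
  · rw [MonoidAlgebra.coeff_smul_apply, MonoidAlgebra.of_apply, MonoidAlgebra.coeff_single,
      Finsupp.single_eq_same, smul_eq_mul, mul_one]
  · intro h _ hh
    rw [MonoidAlgebra.coeff_smul_apply, MonoidAlgebra.of_apply, MonoidAlgebra.coeff_single,
      Finsupp.single_eq_of_ne (Ne.symm hh), smul_zero]
  · intro h
    exact absurd (Finset.mem_univ g) h

/-- PSG: the corners of the group algebra as permutation summands. -/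
theorem psg : PsgStmt := by
  intro F G V A _ _ _ _ _ _ u e he hc i α hinj hmul him hα
  classical
  have : Fintype G := Fintype.ofFinite G
  have hex : ∀ g : G, ∃ a : A, i a = e * MonoidAlgebra.of F G g * e := by
    intro g
    rw [him]
    calc e * (e * MonoidAlgebra.of F G g * e) * e
        = (e * e) * MonoidAlgebra.of F G g * (e * e) := by simp only [mul_assoc]
      _ = _ := by rw [he]
  choose b hb using hex
  have hxe : ∀ a : A, e * i a * e = i a := fun a => (him (i a)).1 ⟨a, rfl⟩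
  have hle : ∀ a : A, e * i a = i a := by
    intro a
    have h1 := hxe a
    calc e * i a = e * (e * i a * e) := by rw [h1]
      _ = (e * e) * i a * e := by simp only [mul_assoc]
      _ = i a := by rw [he, h1]
  have hre : ∀ a : A, i a * e = i a := by
    intro a
    have h1 := hxe a
    calc i a * e = (e * i a * e) * e := by rw [h1]
      _ = e * i a * (e * e) := by simp only [mul_assoc]
      _ = i a := by rw [he, h1]
  have hbi : ∀ (w : V × V) (a : A), i (bi F α w a) =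
      MonoidAlgebra.of F G (u w.1) * i a * MonoidAlgebra.of F G (u w.2)⁻¹ := by
    intro w a
    have h1 : bi F α w a = α w.1 * (a * α w.2⁻¹) := rfl
    rw [h1, hmul, hmul, hα, hα, hc w.1]
    calc MonoidAlgebra.of F G (u w.1) * e * (i a * (e * MonoidAlgebra.of F G (u w.2⁻¹)))
        = MonoidAlgebra.of F G (u w.1) * (e * i a * e) * MonoidAlgebra.of F G (u w.2⁻¹) := by
          simp only [mul_assoc]
      _ = _ := by rw [hxe, map_inv]
  let act := lract u
  refine ⟨G, inferInstance, act, b,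
    fun g => { toFun := fun a => (i a).coeff g
               map_add' := ?_
               map_smul' := ?_ }, ⟨?_, ?_, ?_⟩, ?_⟩
  · intro x y
    rw [map_add, MonoidAlgebra.coeff_add, Finsupp.add_apply]
  · intro r x
    rw [map_smul, MonoidAlgebra.coeff_smul_apply, RingHom.id_apply]
  · intro w g
    apply hinj
    rw [hb, hbi, hb]
    show e * MonoidAlgebra.of F G (u w.1 * g * (u w.2)⁻¹) * e = _
    rw [map_mul, map_mul]
    have h2 : MonoidAlgebra.of F G (u w.2)⁻¹ * e = e * MonoidAlgebra.of F G (u w.2)⁻¹ := by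
      have := hc w.2⁻¹
      rw [map_inv] at this
      exact this.symm
    calc e * (MonoidAlgebra.of F G (u w.1) * MonoidAlgebra.of F G g *
          MonoidAlgebra.of F G (u w.2)⁻¹) * e
        = (e * MonoidAlgebra.of F G (u w.1)) * MonoidAlgebra.of F G g *
          (MonoidAlgebra.of F G (u w.2)⁻¹ * e) := by simp only [mul_assoc]
      _ = _ := by
          rw [h2, hc w.1]
          simp only [mul_assoc]
  · intro w g a
    show (i (bi F α w a)).coeff (u w.1 * g * (u w.2)⁻¹) = (i a).coeff g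
    rw [hbi, MonoidAlgebra.of_apply, MonoidAlgebra.of_apply,
      MonoidAlgebra.coeff_mul_single_apply, MonoidAlgebra.coeff_single_mul_apply, one_mul,
      mul_one]
    congr 1
    group
  · intro a
    apply hinj
    rw [map_sum]
    have h3 : ∀ g : G, i ((i a).coeff g • b g) =
        e * ((i a).coeff g • MonoidAlgebra.of F G g) * e := by
      intro g
      rw [map_smul, hb, mul_smul_comm, smul_mul_assoc]
    calc ∑ g : G, i ((i a).coeff g • b g)
        = ∑ g : G, e * ((i a).coeff g • MonoidAlgebra.of F G g) * e :=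
          Finset.sum_congr rfl (fun g _ => h3 g)
      _ = e * (∑ g : G, (i a).coeff g • MonoidAlgebra.of F G g) * e := by
          rw [Finset.mul_sum, Finset.sum_mul]
      _ = i a := by rw [sum_coe, hxe]
  · intro g
    refine ⟨g, ?_⟩
    intro w
    rw [MulAction.mem_stabilizer_iff]
    show u w.1 * g * (u w.2)⁻¹ = g ↔ _
    exact mul_inv_eq_iff_eq_mul

end Pool.Agent.PFC.H49b
end -- Pool.Agent.PFC.B4.PSR_49

section -- Pool.Agent.Helper20_PFC.QCP

/-!
# PFC, row QCP: summands of permutation modules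
-/

open scoped TensorProduct

namespace Pool.Agent.PFC.H20

open Pool.Agent.PFC

theorem cj_apply {F V A : Type} [Field F] [Group V] [Ring A] [Algebra F A] (α : V →* A) (v : V)
    (a : A) : cj F α v a = α v * (a * α v⁻¹) := rfl

theorem bi_apply {F V A : Type} [Field F] [Group V] [Ring A] [Algebra F A] (α : V →* A)
    (w : V × V) (a : A) : bi F α w a = α w.1 * (a * α w.2⁻¹) := rfl

/-- trivial representations of finite dimension -/
theorem ps_triv {F V M : Type} [Field F] [Group V] [AddCommGroup M] [Module F M]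
    [FiniteDimensional F M] (ρ : V →* (M →ₗ[F] M)) (h : ∀ v m, ρ v m = m) :
    PS (fun _ => True) ρ := by
  refine ⟨Fin (Module.finrank F M), inferInstance,
    { smul := fun _ x => x, one_smul := fun _ => rfl, mul_smul := fun _ _ _ => rfl },
    fun i => Module.finBasis F M i, fun i => (Module.finBasis F M).coord i, ⟨?_, ?_, ?_⟩,
    fun _ => trivial⟩
  · intro v i
    rw [h]
    rfl
  · intro v i m
    rw [h]
    rfl
  · intro m
    exact (Module.finBasis F M).sum_repr m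

theorem cj_comm {F V A : Type} [Field F] [Group V] [CommRing A] [Algebra F A] (α : V →* A) (v : V)
    (a : A) : cj F α v a = a := by
  rw [cj_apply, mul_comm a, ← mul_assoc, ← map_mul, mul_inv_cancel, map_one, one_mul]

theorem op_aux {F V A : Type} [Field F] [Group V] [Ring A] [Algebra F A] (α : V →* A)
    (α' : V →* Aᵐᵒᵖ) (h : ∀ v, α' v = MulOpposite.op (α v⁻¹)) (v : V) (n : Aᵐᵒᵖ) :
    MulOpposite.unop (cj F α' v n) = cj F α v (MulOpposite.unop n) := by
  rw [cj_apply, cj_apply, h, h, MulOpposite.unop_mul, MulOpposite.unop_mul, MulOpposite.unop_op,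
    MulOpposite.unop_op, inv_inv, mul_assoc]

theorem tens_aux {F V A B : Type} [Field F] [Group V] [Ring A] [Algebra F A] [Ring B] [Algebra F B]
    (α : V →* A) (β : V →* B) (γ : V →* A ⊗[F] B) (h : ∀ v, γ v = α v ⊗ₜ[F] β v) :
    cj F γ = tns (cj F α) (cj F β) := by
  ext v : 1
  apply TensorProduct.ext'
  intro a b
  show cj F γ v (a ⊗ₜ[F] b) = (cj F α v a) ⊗ₜ[F] (cj F β v b)
  rw [cj_apply, cj_apply, cj_apply, h, h, Algebra.TensorProduct.tmul_mul_tmul,
    Algebra.TensorProduct.tmul_mul_tmul]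

/-- equivariance of a corner -/
theorem cor_aux {F V : Type} [Field F] [CommGroup V] {X Y : IA F V} {j : X.A} {κ : Y.A →ₗ[F] X.A}
    (hc : Cor X Y j κ) : ∃ p : X.A →ₗ[F] Y.A,
      (∀ w b, κ (bi F Y.ι w b) = bi F X.ι w (κ b)) ∧
      (∀ w a, p (bi F X.ι w a) = bi F Y.ι w (p a)) ∧ ∀ b, p (κ b) = b := by
  obtain ⟨g, hg⟩ := LinearMap.exists_leftInverse_of_injective κ (LinearMap.ker_eq_bot.mpr hc.inj)
  have hg' : ∀ b, g (κ b) = b := fun b => by
    have := LinearMap.congr_fun hg b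
    simpa using this
  have hjb : ∀ b, j * κ b = κ b := fun b => by rw [← hc.one, ← hc.mul, one_mul]
  have hbj : ∀ b, κ b * j = κ b := fun b => by rw [← hc.one, ← hc.mul, mul_one]
  have hjj : j * j = j := by rw [← hc.one, ← hc.mul, mul_one]
  obtain ⟨p, hp⟩ : ∃ p : X.A →ₗ[F] Y.A, ∀ a, p a = g (j * (a * j)) :=
    ⟨g.comp ((LinearMap.mulLeft F j).comp (LinearMap.mulRight F j)), fun a => rfl⟩
  have hκp : ∀ a, κ (p a) = j * (a * j) := by
    intro a
    obtain ⟨b, hb⟩ := hc.ran (j * (a * j)) (by rw [← mul_assoc j j, hjj])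
      (by rw [mul_assoc, mul_assoc, hjj])
    rw [hp, ← hb, hg']
  have hk : ∀ w b, κ (bi F Y.ι w b) = bi F X.ι w (κ b) := by
    intro w b
    rw [bi_apply, bi_apply, hc.mul, hc.mul, hc.cov, hc.cov, hc.com w.2⁻¹, ← mul_assoc (κ b) j,
      hbj, mul_assoc, ← mul_assoc j (κ b), hjb]
  refine ⟨p, hk, ?_, ?_⟩
  · intro w a
    apply hc.inj
    rw [hk, hκp, hκp, bi_apply, bi_apply, ← mul_assoc j, ← mul_assoc j, ← hc.com w.1]
    simp only [mul_assoc]
    rw [hc.com w.2⁻¹]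
  · intro b
    apply hc.inj
    rw [hκp, hbj, hjb]

/-- QCP -/
theorem qcp : QcpStmt := by
  intro F V _ _ _
  have psm := Pool.Agent.PFC.H41.psm
  refine ⟨?_, ?_, ?_, ?_, ?_, ?_, ?_⟩
  · intro X Y hX hY
    have h := Pool.Agent.PFC.H49b.pst F V X.A Y.A (cj F X.ι) (cj F Y.ι) _ _ hX hY
    have h2 : cj F (X.tens Y).ι = tns (cj F X.ι) (cj F Y.ι) :=
      tens_aux X.ι Y.ι (X.tens Y).ι (fun _ => rfl)
    obtain ⟨Ω, iF, iA, b, c, hfr, _⟩ := h
    unfold CP
    rw [h2]
    exact ⟨Ω, iF, iA, b, c, hfr, fun _ => trivial⟩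
  · intro X hX
    refine psm F V X.A X.op.A (cj F X.ι) (cj F X.op.ι) _
      ((MulOpposite.opLinearEquiv F).symm : X.Aᵐᵒᵖ ≃ₗ[F] X.A).toLinearMap
      ((MulOpposite.opLinearEquiv F) : X.A ≃ₗ[F] X.Aᵐᵒᵖ).toLinearMap ?_ ?_ ?_ hX
    · intro v n
      exact op_aux X.ι X.op.ι (fun _ => rfl) v n
    · intro v m
      exact (MulOpposite.unop_injective (op_aux X.ι X.op.ι (fun _ => rfl) v
        (MulOpposite.op m))).symm
    · intro n
      rfl
  · intro X Y Q hQ hX
    obtain ⟨β, s, h⟩ := hQ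
    exact psm F V X.A Y.A (cj F X.ι) (cj F Y.ι) _ s β (fun v n => h.es v n) (fun v m => h.eb v m)
      h.bs hX
  · intro X Y j κ hc hX
    obtain ⟨p, h1, h2, h3⟩ := cor_aux hc
    exact psm F V X.A Y.A (cj F X.ι) (cj F Y.ι) _ κ p (fun v n => h1 (v, v) n)
      (fun v m => h2 (v, v) m) h3 hX
  · intro P X Y j κ hc hX
    obtain ⟨p, h1, h2, h3⟩ := cor_aux hc
    exact psm F (V × V) X.A Y.A (bi F X.ι) (bi F Y.ι) _ κ p h1 h2 h3 hX
  · exact ps_triv (cj F (IA.one F V).ι) (fun v m => cj_comm (A := F) (IA.one F V).ι v m)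
  · exact ps_triv (cj F (IA.gr F V).ι)
      (fun v m => cj_comm (A := MonoidAlgebra F V) (IA.gr F V).ι v m)

end Pool.Agent.PFC.H20
end -- Pool.Agent.Helper20_PFC.QCP

section -- Pool.Agent.Helper70_PFC.QFCa

set_option autoImplicit false

noncomputable section

namespace Pool.Agent.PFC.B5a.H70

open scoped BigOperators

/-- The diagonal homomorphism. -/
def dg (V : Type) [CommGroup V] : V →* V × V := (MonoidHom.id V).prod (MonoidHom.id V)

/-- The points of `Ω` fixed by the diagonal copy of `Q`. -/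
def Op {V : Type} [CommGroup V] (Q : Subgroup V) (Ω : Type) [MulAction (V × V) Ω] : Type :=
  {ω : Ω // ∀ u ∈ Q, ((u, u) : V × V) • ω = ω}

instance {V : Type} [CommGroup V] (Q : Subgroup V) (Ω : Type) [MulAction (V × V) Ω] :
    MulAction (V × V) (Op Q Ω) where
  smul w ω := ⟨w • ω.1, fun u hu => by
    rw [← mul_smul, mul_comm, mul_smul, ω.2 u hu]⟩
  one_smul ω := Subtype.ext (one_smul _ _)
  mul_smul x y ω := Subtype.ext (mul_smul _ _ _)

lemma Op_smul {V : Type} [CommGroup V] (Q : Subgroup V) (Ω : Type) [MulAction (V × V) Ω]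
    (w : V × V) (ω : Op Q Ω) : (w • ω).1 = w • ω.1 := rfl

lemma fac {F M B : Type} [Field F] [AddCommGroup M] [Module F M] [AddCommGroup B] [Module F B]
    (q : M →ₗ[F] B) (hq : Function.Surjective q) (g : M →ₗ[F] F) (h : ∀ m, q m = 0 → g m = 0) :
    ∃ g' : B →ₗ[F] F, ∀ m, g' (q m) = g m := by
  obtain ⟨s, hs⟩ := q.exists_rightInverse_of_surjective (LinearMap.range_eq_top.2 hq)
  refine ⟨g.comp s, fun m => ?_⟩
  have h1 : q (s (q m) - m) = 0 := by
    rw [map_sub, sub_eq_zero]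
    exact LinearMap.congr_fun hs (q m)
  have h2 := h _ h1
  rw [map_sub, sub_eq_zero] at h2
  exact h2

lemma bi_ap (F : Type) {V A : Type} [Field F] [Group V] [Ring A] [Algebra F A] (α : V →* A)
    (w : V × V) (a : A) : bi F α w a = α w.1 * (a * α w.2⁻¹) := rfl

theorem qfc : QfcStmt := by
  intro hBki ℓ _ F V A B _ _ _ _ _ _ _ _ α Q q Ω _ _ b c hV hq hfr
  classical
  obtain ⟨hFx, -, -⟩ := hBki F V A α Q
  -- the frame restricted to the diagonal
  let actV : MulAction V Ω := MulAction.compHom Ω (dg V)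
  have hsm : ∀ (u : V) (ω : Ω), u • ω = ((u, u) : V × V) • ω := fun u ω => rfl
  have hfrV : IsFr (cj F α) b c := ⟨fun u ω => hfr.1 (u, u) ω, fun u ω m => hfr.2.1 (u, u) ω m,
    hfr.2.2⟩
  have hQ : IsPGroup ℓ Q := hV.to_subgroup Q
  have hfix : Fintype (Op Q Ω) := Subtype.fintype _
  -- the vectors
  have hb : ∀ ω : Op Q Ω, b ω.1 ∈ Cz F α Q := by
    intro ω
    rw [← hFx]
    intro u hu
    change cj F α u (b ω.1) = b ω.1
    rw [← hfrV.1 u ω.1]
    congr 1
    exact ω.2 u hu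
  -- the functionals
  have hc : ∀ ω : Op Q Ω, ∃ g' : B →ₗ[F] F, ∀ a : Cz F α Q, g' (q a) = c ω.1 a := by
    intro ω
    refine fac q.toLinearMap hq.sur ((c ω.1).comp (Cz F α Q).val.toLinearMap) fun a ha => ?_
    exact frame_BK hfrV Q hQ ((hq.ker a).1 ha) ω.1 fun u hu => ω.2 u hu
  choose c' hc' using hc
  have hbe : ∀ (w : V × V) (a : Cz F α Q), bi F (be F α Q q) w (q a) =
      q (zin F α Q w.1 * (a * zin F α Q w.2⁻¹)) := by
    intro w a
    rw [bi_ap, map_mul, map_mul]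
    rfl
  refine ⟨Op Q Ω, hfix, inferInstance, fun ω => ω.1, fun ω => q ⟨b ω.1, hb ω⟩, c', ⟨?_, ?_, ?_⟩,
    Subtype.val_injective, ?_, fun w ω => rfl, hc', fun ω => ⟨_, rfl, rfl⟩⟩
  · intro w ω
    rw [hbe]
    refine congrArg q (Subtype.ext ?_)
    change b (w • ω.1) = _
    rw [hfr.1 w ω.1]
    rfl
  · intro w ω m
    obtain ⟨a, rfl⟩ := hq.sur m
    rw [hbe, hc', hc']
    exact hfr.2.1 w ω.1 a
  · intro m
    obtain ⟨a, rfl⟩ := hq.sur m
    have h1 : (a : A) ∈ Fx (cj F α) Q := (hFx _).2 a.2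
    have h2 := frame_sub hfrV Q h1
    have h3 : ∑ ω : Op Q Ω, c' ω (q a) • q ⟨b ω.1, hb ω⟩ =
        q (∑ ω : Op Q Ω, c ω.1 a • ⟨b ω.1, hb ω⟩) := by
      rw [map_sum]
      refine Finset.sum_congr rfl fun ω _ => ?_
      rw [map_smul, hc']
    rw [h3, ← sub_eq_zero, ← map_sub, hq.ker]
    have h4 : ((∑ ω : Op Q Ω, c ω.1 (a : A) • (⟨b ω.1, hb ω⟩ : Cz F α Q) : Cz F α Q) : A) =
        ∑ ω ∈ fp Q Ω, c ω a • b ω := by
      rw [AddSubmonoidClass.coe_finsetSum]
      symm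
      exact Finset.sum_subtype (fp Q Ω) (fun ω => mem_fp Q Ω ω) fun ω => c ω a • b ω
    rw [AddSubgroupClass.coe_sub, h4, ← neg_sub]
    exact Submodule.neg_mem _ h2
  · intro ω
    constructor
    · rintro ⟨ω', rfl⟩
      exact ω'.2
    · intro h
      exact ⟨⟨ω, h⟩, rfl⟩

end Pool.Agent.PFC.B5a.H70
end
end -- Pool.Agent.Helper70_PFC.QFCa

section -- Pool.Agent.Helper92_PFC.QFR

set_option autoImplicit false

/-!
# Squad PFC, block B5a, row QFR
-/

open scoped BigOperators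

noncomputable section

namespace Pool.Agent.PFC.H92

open MulAction

section aux

variable {F V B : Type} [Field F] [CommGroup V] [Ring B] [Algebra F B]

theorem mem_tw_id (R : Subgroup V) (w : V × V) :
    w ∈ tw (MonoidHom.id V) R ↔ w.1 = w.2 ∧ w.2 ∈ R := by
  unfold tw
  rw [Subgroup.mem_map]
  constructor
  · rintro ⟨r, hr, rfl⟩
    exact ⟨rfl, hr⟩
  · rintro ⟨h1, h2⟩
    exact ⟨w.2, h2, Prod.ext h1.symm rfl⟩

theorem bi_apply (β : V →* B) (w : V × V) (x : B) : bi F β w x = β w.1 * (x * β w.2⁻¹) := rfl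

theorem cj_apply (β : V →* B) (u : V) (x : B) : cj F β u x = β u * (x * β u⁻¹) := rfl

/-- the action of `V` through the diagonal -/
abbrev dgA (V Ω : Type) [CommGroup V] [MulAction (V × V) Ω] : MulAction V Ω :=
  MulAction.compHom Ω ((MonoidHom.id V).prod (MonoidHom.id V))

/-- functionals of the points fixed by the diagonal of `P` kill the Brauer kernel -/
theorem diag_BK {ℓ : ℕ} [Fact ℓ.Prime] [CharP F ℓ] [Finite V] {β : V →* B} {Ω : Type} [Fintype Ω]
    [MulAction (V × V) Ω] {b : Ω → B} {c : Ω → (B →ₗ[F] F)} (h : IsFr (bi F β) b c)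
    (P : Subgroup V) (hP : IsPGroup ℓ P) {m : B} (hm : m ∈ BK (cj F β) P) (ω : Ω)
    (hω : ∀ g ∈ P, ((g, g) : V × V) • ω = ω) : c ω m = 0 := by
  let _ : MulAction V Ω := dgA V Ω
  have hfr : IsFr (cj F β) b c :=
    ⟨fun g ω => h.1 (g, g) ω, fun g ω m => h.2.1 (g, g) ω m, h.2.2⟩
  exact frame_BK (ℓ := ℓ) hfr P hP hm ω hω

/-- the Brauer kernel in terms of the frame for the two-sided action -/
theorem diag_iff {ℓ : ℕ} [Fact ℓ.Prime] [CharP F ℓ] [Finite V] {β : V →* B} {Ω : Type} [Fintype Ω]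
    [MulAction (V × V) Ω] {b : Ω → B} {c : Ω → (B →ₗ[F] F)} (h : IsFr (bi F β) b c)
    (P : Subgroup V) (hP : IsPGroup ℓ P) {m : B} (hm : m ∈ Fx (cj F β) P) :
    m ∈ BK (cj F β) P ↔ ∀ ω, (∀ g ∈ P, ((g, g) : V × V) • ω = ω) → c ω m = 0 := by
  let _ : MulAction V Ω := dgA V Ω
  have hfr : IsFr (cj F β) b c :=
    ⟨fun g ω => h.1 (g, g) ω, fun g ω m => h.2.1 (g, g) ω m, h.2.2⟩
  exact frame_iff (ℓ := ℓ) hfr P hP hm

end aux

theorem qfr : B5a.QfrStmt := by
  intro ℓ _ F V B _ _ _ _ _ _ _ β lam c' hV hfrm hc' hPS htp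
  classical
  obtain ⟨hsym, hnd, hnz⟩ := hfrm
  -- the map `E`
  obtain ⟨E, hE⟩ : ∃ E : B →ₗ[F] B, ∀ x, E x = B5a.Ee F β lam x := by
    refine ⟨∑ g, (lam ∘ₗ LinearMap.mulLeft F (β g⁻¹)).smulRight (β g), fun x => ?_⟩
    rw [LinearMap.sum_apply]
    rfl
  have hEx : ∀ x, E x = ∑ g, lam (β g⁻¹ * x) • β g := fun x => hE x
  have hEl : ∀ u x, E (β u * x) = β u * E x := by
    intro u x
    rw [hEx, hEx, Finset.mul_sum]
    refine (Fintype.sum_bijective (fun g => u * g) (Group.mulLeft_bijective u) _ _ fun g => ?_).symm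
    rw [mul_smul_comm, ← map_mul, ← mul_assoc, ← map_mul]
    congr 4
    group
  have hEr : ∀ u x, E (x * β u) = E x * β u := by
    intro u x
    rw [hEx, hEx, Finset.sum_mul]
    refine (Fintype.sum_bijective (fun g => g * u) (Group.mulRight_bijective u) _ _ fun g => ?_).symm
    have h1 : lam (β (g * u)⁻¹ * (x * β u)) = lam (β g⁻¹ * x) := by
      rw [← mul_assoc, hsym, ← mul_assoc, ← map_mul]
      congr 3
      group
    rw [smul_mul_assoc, ← map_mul, h1]
  -- the span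
  obtain ⟨S, hS⟩ : ∃ S : Submodule F B, S = Submodule.span F (Set.range β) := ⟨_, rfl⟩
  have hEs : ∀ s ∈ S, ∀ x, E (x * s) = E x * s := by
    intro s hs x
    rw [hS] at hs
    induction hs using Submodule.span_induction with
    | mem y hy =>
      obtain ⟨u, rfl⟩ := hy
      exact hEr u x
    | zero => rw [mul_zero, mul_zero, map_zero]
    | add a b _ _ ha hb => rw [mul_add, map_add, ha, hb, mul_add]
    | smul r a _ ha => rw [mul_smul_comm, map_smul, ha, mul_smul_comm]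
  have hEs' : ∀ s ∈ S, ∀ x, E (s * x) = s * E x := by
    intro s hs x
    rw [hS] at hs
    induction hs using Submodule.span_induction with
    | mem y hy =>
      obtain ⟨u, rfl⟩ := hy
      exact hEl u x
    | zero => rw [zero_mul, zero_mul, map_zero]
    | add a b _ _ ha hb => rw [add_mul, map_add, ha, hb, add_mul]
    | smul r a _ ha => rw [smul_mul_assoc, map_smul, ha, smul_mul_assoc]
  have hES : ∀ x, E x ∈ S := by
    intro x
    rw [hEx, hS]
    exact Submodule.sum_mem _ fun g _ => Submodule.smul_mem _ _ (Submodule.subset_span ⟨g, rfl⟩)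
  have hc'S : c' ∈ S := by
    rw [hS]
    exact hc'.spn
  have hEc' : E c' = 1 := by
    have h1 := hEs c' hc'S 1
    rw [one_mul] at h1
    rw [h1, hE]
    exact hc'.rin
  have hcom : ∀ g, c' * β g = β g * c' := hc'.com
  -- the projection
  obtain ⟨q, hq⟩ : ∃ q : B →ₗ[F] B, ∀ x, q x = x - E x * c' :=
    ⟨LinearMap.id - (LinearMap.mulRight F c') ∘ₗ E, fun x => rfl⟩
  have hqbi : ∀ w x, q (bi F β w x) = bi F β w (q x) := by
    intro w x
    rw [hq, hq, bi_apply, bi_apply, hEl, hEr, sub_mul, mul_sub]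
    congr 1
    rw [mul_assoc, mul_assoc, mul_assoc, hcom]
  have hqcj : ∀ u x, q (cj F β u x) = cj F β u (q x) := fun u x => hqbi (u, u) x
  have hqβ : ∀ u, q (β u) = 0 := by
    intro u
    rw [hq]
    have h1 := hEl u 1
    rw [mul_one] at h1
    rw [h1, mul_assoc, hE, hc'.rin, mul_one, sub_self]
  have hEE : ∀ x, E (E x * c') = E x := by
    intro x
    rw [hEs' _ (hES x), hEc', mul_one]
  have hqq : ∀ x, q (q x) = q x := by
    intro x
    rw [hq (q x)]
    have h1 : E (q x) = 0 := by rw [hq, map_sub, hEE, sub_self]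
    rw [h1, zero_mul, sub_zero]
  -- the Brauer kernel is stable
  have hqBK : ∀ m ∈ BK (cj F β) ⊤, q m ∈ BK (cj F β) ⊤ := by
    intro m hm
    unfold BK at hm
    induction hm using Submodule.span_induction with
    | mem n hn =>
      obtain ⟨P', T, x, hlt, hT, hx, rfl⟩ := hn
      rw [map_sum]
      refine Submodule.subset_span ⟨P', T, q x, hlt, hT, ?_, ?_⟩
      · intro h hh
        rw [← hqcj, hx h hh]
      · exact Finset.sum_congr rfl fun y _ => hqcj y x
    | zero => rw [map_zero]; exact Submodule.zero_mem _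
    | add a b _ _ ha hb => rw [map_add]; exact Submodule.add_mem _ ha hb
    | smul r a _ ha => rw [map_smul]; exact Submodule.smul_mem _ _ ha
  obtain ⟨Ω, hΩ, hact, b, c, hfr, hst⟩ := hPS
  have hPtop : IsPGroup ℓ (⊤ : Subgroup V) := hV.to_subgroup _
  -- the points fixed by the diagonal
  have hkill : ∀ ω ω' : Ω, (∀ g : V, ((g, g) : V × V) • ω = ω) →
      (∀ g : V, ((g, g) : V × V) • ω' = ω') → c ω' (q (b ω)) = 0 := by
    intro ω ω' h h'
    have h1 : b ω ∈ Fx (cj F β) ⊤ := by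
      intro u _
      have h2 := hfr.1 (u, u) ω
      rw [h u] at h2
      exact h2.symm
    obtain ⟨k, hk⟩ := htp.span _ h1
    have h2 : q (b ω) = q (b ω - ∑ u, k u • β u) := by
      rw [map_sub, map_sum, Finset.sum_eq_zero (s := Finset.univ) (f := fun u => q (k u • β u)),
        sub_zero]
      intro u _
      rw [map_smul, hqβ, smul_zero]
    rw [h2]
    exact diag_BK (ℓ := ℓ) hfr ⊤ hPtop (hqBK _ hk) ω' fun g _ => h' g
  have hfix : ∀ (w : V × V) (ω : Ω), (∀ g : V, ((g, g) : V × V) • w • ω = w • ω) ↔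
      ∀ g : V, ((g, g) : V × V) • ω = ω := by
    intro w ω
    have h1 : ∀ g : V, ((g, g) : V × V) • w • ω = w • ((g, g) : V × V) • ω := by
      intro g
      rw [smul_smul, smul_smul, mul_comm]
    constructor
    · intro h g
      have h2 := h g
      rw [h1] at h2
      exact smul_left_cancel w h2
    · intro h g
      rw [h1, h g]
  -- the new set
  let Ω₂ := {p : Ω × Ω // ¬ ((∀ g : V, ((g, g) : V × V) • p.1 = p.1) ∧
    ∀ g : V, ((g, g) : V × V) • p.2 = p.2)}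
  let fΩ : Fintype Ω₂ := Fintype.ofFinite Ω₂
  let aΩ : MulAction (V × V) Ω₂ :=
    { smul := fun w p => ⟨(w • p.1.1, w • p.1.2), fun h => p.2
        ⟨(hfix w _).1 h.1, (hfix w _).1 h.2⟩⟩
      one_smul := fun p => Subtype.ext (Prod.ext (one_smul _ _) (one_smul _ _))
      mul_smul := fun v w p => Subtype.ext (Prod.ext (mul_smul v w _) (mul_smul v w _)) }
  have hsm : ∀ (w : V × V) (p : Ω₂), ((w • p : Ω₂) : Ω × Ω) = (w • p.1.1, w • p.1.2) :=
    fun w p => rfl
  refine ⟨q, fun x => by rw [hq, hE], hqq, Ω₂, fΩ, aΩ, fun p => c p.1.2 (q (b p.1.1)) • b p.1.2,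
    fun p => c p.1.1 ∘ₗ q, ?_, ?_, ?_, ?_⟩
  · intro w p
    change c (w • p.1.2) (q (b (w • p.1.1))) • b (w • p.1.2) = _
    rw [hfr.1, hfr.1, hqbi, hfr.2.1, map_smul]
  · intro w p x
    change c (w • p.1.1) (q (bi F β w x)) = c p.1.1 (q x)
    rw [hqbi, hfr.2.1]
  · intro x
    change ∑ p : Ω₂, c p.1.1 (q x) • c p.1.2 (q (b p.1.1)) • b p.1.2 = q x
    have h1 : ∑ p : Ω₂, c p.1.1 (q x) • c p.1.2 (q (b p.1.1)) • b p.1.2 =
        ∑ p : Ω × Ω, c p.1 (q x) • c p.2 (q (b p.1)) • b p.2 := by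
      have h2 := Finset.sum_subtype (p := fun p : Ω × Ω =>
          ¬ ((∀ g : V, ((g, g) : V × V) • p.1 = p.1) ∧ ∀ g : V, ((g, g) : V × V) • p.2 = p.2))
        (F := fΩ) (Finset.univ.filter fun p : Ω × Ω =>
          ¬ ((∀ g : V, ((g, g) : V × V) • p.1 = p.1) ∧ ∀ g : V, ((g, g) : V × V) • p.2 = p.2))
        (fun p => by rw [Finset.mem_filter]; exact ⟨fun h => h.2, fun h => ⟨Finset.mem_univ _, h⟩⟩)
        (fun p : Ω × Ω => c p.1 (q x) • c p.2 (q (b p.1)) • b p.2)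
      refine h2.symm.trans (Finset.sum_subset (Finset.filter_subset _ _) ?_)
      intro p _ hp
      rw [Finset.mem_filter, not_and, not_not] at hp
      obtain ⟨h3, h4⟩ := hp (Finset.mem_univ _)
      rw [hkill p.1 p.2 h3 h4, zero_smul, smul_zero]
    rw [h1, Fintype.sum_prod_type]
    have h2 : ∀ ω : Ω, ∑ ω' : Ω, c ω (q x) • c ω' (q (b ω)) • b ω' = q (c ω (q x) • b ω) := by
      intro ω
      rw [← Finset.smul_sum, hfr.2.2, map_smul]
    rw [Finset.sum_congr rfl fun ω _ => h2 ω, ← map_sum, hfr.2.2, hqq]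
  · rintro ⟨⟨ω, ω'⟩, hp⟩
    obtain ⟨R, hR⟩ := hst ω
    obtain ⟨R', hR'⟩ := hst ω'
    refine ⟨R ⊓ R', ?_, ?_⟩
    · intro htop
      apply hp
      have h1 : R = ⊤ := eq_top_iff.2 (htop ▸ inf_le_left)
      have h2 : R' = ⊤ := eq_top_iff.2 (htop ▸ inf_le_right)
      constructor
      · intro g
        have h3 : ((g, g) : V × V) ∈ stabilizer (V × V) ω := by
          rw [hR, mem_tw_id, h1]
          exact ⟨rfl, Subgroup.mem_top _⟩
        exact mem_stabilizer_iff.1 h3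
      · intro g
        have h3 : ((g, g) : V × V) ∈ stabilizer (V × V) ω' := by
          rw [hR', mem_tw_id, h2]
          exact ⟨rfl, Subgroup.mem_top _⟩
        exact mem_stabilizer_iff.1 h3
    · ext w
      have h1 : w ∈ stabilizer (V × V) ω ↔ w ∈ tw (MonoidHom.id V) R := by rw [hR]
      have h2 : w ∈ stabilizer (V × V) ω' ↔ w ∈ tw (MonoidHom.id V) R' := by rw [hR']
      rw [mem_stabilizer_iff, mem_tw_id] at h1 h2
      rw [mem_stabilizer_iff, mem_tw_id, Subgroup.mem_inf, Subtype.ext_iff, hsm]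
      rw [Prod.ext_iff]
      constructor
      · rintro ⟨h3, h4⟩
        exact ⟨(h1.1 h3).1, (h1.1 h3).2, (h2.1 h4).2⟩
      · rintro ⟨h3, h4, h5⟩
        exact ⟨h1.2 ⟨h3, h4⟩, h2.2 ⟨h3, h5⟩⟩

end Pool.Agent.PFC.H92
end
end -- Pool.Agent.Helper92_PFC.QFR

section -- Pool.Agent.Helper92_PFC.QFM

set_option autoImplicit false

/-!
# Squad PFC, block B5a, row QFM
-/

open scoped BigOperators

noncomputable section

namespace Pool.Agent.PFC.H92

open MulAction

/-- an invariant functional kills the Brauer kernel -/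
theorem lam_BK {ℓ : ℕ} [Fact ℓ.Prime] {F V A : Type} [Field F] [CharP F ℓ] [CommGroup V]
    [Finite V] [Ring A] [Algebra F A] (α : V →* A) (lam : A →ₗ[F] F)
    (hsym : ∀ a b, lam (a * b) = lam (b * a)) (Q : Subgroup V) (hQ : IsPGroup ℓ Q) (m : A)
    (hm : m ∈ BK (cj F α) Q) : lam m = 0 := by
  classical
  unfold BK at hm
  induction hm using Submodule.span_induction with
  | mem n hn =>
    obtain ⟨P', S, x, hlt, hS, hx, rfl⟩ := hn
    have h1 : ∀ y ∈ S, lam (cj F α y x) = lam x := by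
      intro y _
      rw [cj_apply, hsym, mul_assoc, ← map_mul, inv_mul_cancel, map_one, mul_one]
    rw [map_sum, Finset.sum_congr rfl h1, Finset.sum_const]
    have hdvd : ℓ ∣ S.card := by
      have hc := card_tv P' Q hlt.le S hS
      obtain ⟨k, hk⟩ := (IsPGroup.iff_card).1 hQ
      have hdiv : S.card ∣ ℓ ^ k := ⟨_, by rw [← hk]; exact hc.symm⟩
      obtain ⟨j, -, hj⟩ := (Nat.dvd_prime_pow (Fact.out : ℓ.Prime)).1 hdiv
      rcases Nat.eq_zero_or_pos j with h0 | h0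
      · exfalso
        rw [h0, pow_zero] at hj
        rw [hj, one_mul] at hc
        exact hlt.ne (Subgroup.eq_of_le_of_card_ge hlt.le hc.ge)
      · rw [hj]
        exact dvd_pow_self ℓ h0.ne'
    obtain ⟨d, hd⟩ := hdvd
    rw [hd, mul_smul, nsmul_eq_mul, CharP.cast_eq_zero, zero_mul]
  | zero => exact map_zero _
  | add a b _ _ ha hb => rw [map_add, ha, hb, add_zero]
  | smul r a _ ha => rw [map_smul, ha, smul_zero]

theorem mem_Cz {F V A : Type} [Field F] [CommGroup V] [Ring A] [Algebra F A] (α : V →* A)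
    (Q : Subgroup V) (a : A) : a ∈ Cz F α Q ↔ ∀ u ∈ Q, α u * a = a * α u := by
  rw [Cz, Subalgebra.mem_centralizer_iff]
  constructor
  · intro h u hu
    exact h _ ⟨u, hu, rfl⟩
  · rintro h _ ⟨u, hu, rfl⟩
    exact h u hu

theorem mem_Fx_cj {F V A : Type} [Field F] [CommGroup V] [Ring A] [Algebra F A] (α : V →* A)
    (Q : Subgroup V) (a : A) : a ∈ Fx (cj F α) Q ↔ a ∈ Cz F α Q := by
  rw [mem_Cz, mem_Fx]
  have h1 : ∀ u : V, cj F α u a = a ↔ α u * a = a * α u := by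
    intro u
    rw [cj_apply]
    constructor
    · intro h
      calc α u * a = α u * (a * α u⁻¹) * α u := by
            rw [mul_assoc, mul_assoc, ← map_mul, inv_mul_cancel, map_one, mul_one]
        _ = a * α u := by rw [h]
    · intro h
      rw [← mul_assoc, h, mul_assoc, ← map_mul, mul_inv_cancel, map_one, mul_one]
  constructor
  · intro h u hu
    exact (h1 u).1 (h u hu)
  · intro h u hu
    exact (h1 u).2 (h u hu)

theorem qfm : B5a.QfmStmt := by
  intro _ ℓ _ F V A B _ _ _ _ _ _ _ _ _ α Q q X lam hV hq hPS hfrm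
  classical
  obtain ⟨hsym, hnd, hnz⟩ := hfrm
  have hQ : IsPGroup ℓ Q := hV.to_subgroup Q
  -- the new form
  have hker : ∀ a a' : Cz F α Q, q a = q a' → lam (a : A) = lam (a' : A) := by
    intro a a' h
    have h1 : q (a - a') = 0 := by rw [map_sub, h, sub_self]
    have h2 := lam_BK (ℓ := ℓ) α lam hsym Q hQ _ ((hq.ker _).1 h1)
    have h3 : ((a - a' : Cz F α Q) : A) = (a : A) - (a' : A) := rfl
    rw [h3, map_sub, sub_eq_zero] at h2
    exact h2
  let s : B → Cz F α Q := Function.surjInv hq.sur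
  have hs : ∀ b, q (s b) = b := Function.surjInv_eq hq.sur
  let lam' : B →ₗ[F] F :=
    { toFun := fun b => lam (s b : A)
      map_add' := fun b b' => by
        have h1 : q (s (b + b')) = q (s b + s b') := by rw [map_add, hs, hs, hs]
        rw [hker _ _ h1, ← map_add]
        rfl
      map_smul' := fun r b => by
        have h1 : q (s (r • b)) = q (r • s b) := by rw [map_smul, hs, hs]
        rw [hker _ _ h1, RingHom.id_apply, ← map_smul]
        rfl }
  have hlam' : ∀ a : Cz F α Q, lam' (q a) = lam (a : A) := by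
    intro a
    exact hker _ _ (hs (q a))
  refine ⟨lam', ?_, ?_, ?_⟩
  · intro x y
    obtain ⟨a, rfl⟩ := hq.sur x
    obtain ⟨b, rfl⟩ := hq.sur y
    rw [← map_mul, ← map_mul, hlam', hlam']
    exact hsym a b
  · intro x hx
    obtain ⟨a, rfl⟩ := hq.sur x
    have hab : ∀ b : Cz F α Q, lam ((a : A) * b) = 0 := by
      intro b
      have h1 := hx (q b)
      rw [← map_mul, hlam'] at h1
      exact h1
    obtain ⟨Ω, hΩ, hact, b, c, hfr, hst⟩ := hPS
    rw [hq.ker, diag_iff (ℓ := ℓ) hfr Q hQ ((mem_Fx_cj α Q _).2 a.2)]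
    intro ω hω
    -- the functional is given by an element
    let Φ : A →ₗ[F] Module.Dual F A :=
      { toFun := fun s => lam ∘ₗ LinearMap.mulLeft F s
        map_add' := fun s t => by
          ext x
          change lam ((s + t) * x) = lam (s * x) + lam (t * x)
          rw [add_mul, map_add]
        map_smul' := fun r s => by
          ext x
          change lam ((r • s) * x) = r • lam (s * x)
          rw [smul_mul_assoc, map_smul] }
    have hΦ : ∀ s x, Φ s x = lam (s * x) := fun s x => rfl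
    have hinj : Function.Injective Φ := by
      rw [injective_iff_map_eq_zero]
      intro s hs0
      apply hnd
      intro x
      rw [← hΦ, hs0]
      rfl
    have hsur : Function.Surjective Φ :=
      (LinearMap.injective_iff_surjective_of_finrank_eq_finrank
        (Subspace.dual_finrank_eq (K := F) (V := A)).symm).1 hinj
    obtain ⟨t, ht⟩ := hsur (c ω)
    have htx : ∀ x, c ω x = lam (t * x) := fun x => by rw [← ht]; rfl
    have htC : t ∈ Cz F α Q := by
      rw [← mem_Fx_cj]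
      intro u hu
      rw [← sub_eq_zero]
      apply hnd
      intro x
      have h1 := hfr.2.1 (u⁻¹, u⁻¹) ω x
      have h2 : ((u⁻¹, u⁻¹) : V × V) • ω = ω := hω u⁻¹ (Q.inv_mem hu)
      rw [h2, htx, htx, bi_apply] at h1
      rw [sub_mul, map_sub, ← h1, sub_eq_zero, cj_apply]
      have h3 : α u * (t * α u⁻¹) * x = α u * (t * (α u⁻¹ * x)) := by
        rw [mul_assoc, mul_assoc]
      rw [h3, hsym, inv_inv]
      congr 1
      simp only [mul_assoc]
    rw [htx, hsym]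
    exact hab ⟨t, htC⟩
  · have h1 : (∑ u, B5a.be F α Q q u) = q (∑ u, B5a.zin F α Q u) := by
      rw [map_sum]
      rfl
    rw [h1, hlam']
    have h2 : ((∑ u, B5a.zin F α Q u : Cz F α Q) : A) = ∑ u, α u := by
      rw [AddSubmonoidClass.coe_finsetSum]
      rfl
    rw [h2]
    exact hnz

end Pool.Agent.PFC.H92
end
end -- Pool.Agent.Helper92_PFC.QFM

section -- Pool.Agent.Helper77_PFC.HGP

set_option autoImplicit false

/-!
PFC row HGP: the complement of the group algebra is a projective bimodule.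
-/

open scoped BigOperators

noncomputable section

namespace Pool.Agent.PFC.H77

open Pool.Agent.PFC

/-- transport of Brauer kernels along an injective homomorphism -/
theorem BK_map {F G H M N : Type} [Field F] [Group G] [Group H] [AddCommGroup M] [Module F M]
    [AddCommGroup N] [Module F N] (ρ : G →* (M →ₗ[F] M)) (σ : H →* (N →ₗ[F] N)) (j : G →* H)
    (hj : Function.Injective j) (Θ : M →ₗ[F] N) (hΘ : ∀ g m, Θ (ρ g m) = σ (j g) (Θ m))
    (R : Subgroup G) (z : M) (hz : z ∈ BK ρ R) : Θ z ∈ BK σ (R.map j) := by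
  classical
  unfold BK at hz
  induction hz using Submodule.span_induction with
  | mem n hn =>
    obtain ⟨P', S, m, hlt, hS, hm, rfl⟩ := hn
    apply Submodule.subset_span
    refine ⟨P'.map j, S.image j, Θ m, ?_, ⟨?_, ?_⟩, ?_, ?_⟩
    · exact lt_of_le_of_ne (Subgroup.map_mono hlt.le)
        (fun h => hlt.ne (Subgroup.map_injective hj h))
    · intro s hs
      obtain ⟨s0, hs0, rfl⟩ := Finset.mem_image.1 hs
      exact Subgroup.mem_map_of_mem j (hS.1 s0 hs0)
    · rintro p ⟨p0, hp0, rfl⟩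
      obtain ⟨s0, ⟨hs0, hs1⟩, hs2⟩ := hS.2 p0 hp0
      refine ⟨j s0, ⟨Finset.mem_image_of_mem j hs0, ?_⟩, ?_⟩
      · rw [← map_inv, ← map_mul]
        exact Subgroup.mem_map_of_mem j hs1
      · rintro s ⟨hs, hs'⟩
        obtain ⟨s1, hs1', rfl⟩ := Finset.mem_image.1 hs
        rw [← map_inv, ← map_mul, Subgroup.mem_map_iff_mem hj] at hs'
        rw [hs2 s1 ⟨hs1', hs'⟩]
    · rintro h ⟨v, hv, rfl⟩
      rw [← hΘ, hm v hv]
    · rw [map_sum, Finset.sum_image (fun x _ y _ h => hj h)]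
      exact Finset.sum_congr rfl fun s _ => hΘ s m
  | zero =>
    rw [map_zero]
    exact Submodule.zero_mem _
  | add a b _ _ ha hb =>
    rw [map_add]
    exact Submodule.add_mem _ ha hb
  | smul r a _ ha =>
    rw [map_smul]
    exact Submodule.smul_mem _ _ ha

theorem exσ {F G A : Type} [Field F] [Group G] [Ring A] [Algebra F A] (γ : G →* A)
    (P : Submodule F A) (hP : ∀ (g h : G), ∀ x ∈ P, γ g * x * γ h ∈ P) :
    ∃ σ : G × G →* (P →ₗ[F] P), ∀ w (x : P), ((σ w x : P) : A) = γ w.1 * x * γ w.2⁻¹ := by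
  refine ⟨{ toFun := fun w => LinearMap.codRestrict P
              (((LinearMap.mulLeft F (γ w.1)).comp (LinearMap.mulRight F (γ w.2⁻¹))).comp
                P.subtype) (fun x => ?_), map_one' := ?_, map_mul' := ?_ }, fun w x => ?_⟩
  · show γ w.1 * ((x : A) * γ w.2⁻¹) ∈ P
    rw [← mul_assoc]
    exact hP _ _ _ x.2
  · apply LinearMap.ext
    intro x
    apply Subtype.ext
    show γ 1 * ((x : A) * γ 1⁻¹) = x
    rw [inv_one, map_one, one_mul, mul_one]
  · intro w w'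
    apply LinearMap.ext
    intro x
    apply Subtype.ext
    show γ (w.1 * w'.1) * ((x : A) * γ (w.2 * w'.2)⁻¹) =
      γ w.1 * (γ w'.1 * ((x : A) * γ w'.2⁻¹) * γ w.2⁻¹)
    rw [mul_inv_rev, map_mul, map_mul]
    simp only [mul_assoc]
  · show γ w.1 * ((x : A) * γ w.2⁻¹) = _
    rw [mul_assoc]

section cp

variable {F G A : Type} [Field F] [Group G] [Fintype G] [Ring A] [Algebra F A]

/-- `cpr` as a linear map -/
def cpL (γ : G →* A) (lam : A →ₗ[F] F) : A →ₗ[F] A where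
  toFun := cpr F γ lam
  map_add' := by
    intro x y
    unfold cpr
    simp only [mul_add, map_add, add_smul, Finset.sum_add_distrib]
    abel
  map_smul' := by
    intro c x
    unfold cpr
    simp only [mul_smul_comm, map_smul, smul_eq_mul, RingHom.id_apply, smul_sub,
      Finset.smul_sum, smul_smul]

variable (γ : G →* A) (lam : A →ₗ[F] F)

theorem cpr_left (h : G) (a : A) : cpr F γ lam (γ h * a) = γ h * cpr F γ lam a := by
  unfold cpr
  rw [mul_sub, Finset.mul_sum]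
  congr 1
  rw [← Equiv.sum_comp (Equiv.mulLeft h)]
  apply Finset.sum_congr rfl
  intro g _
  rw [Equiv.coe_mulLeft, mul_smul_comm, ← map_mul, ← mul_assoc, ← map_mul]
  have : (h * g)⁻¹ * h = g⁻¹ := by group
  rw [this]

theorem cpr_right (hl : ∀ g a, lam (γ g * a) = lam (a * γ g)) (h : G) (a : A) :
    cpr F γ lam (a * γ h) = cpr F γ lam a * γ h := by
  unfold cpr
  rw [sub_mul, Finset.sum_mul]
  congr 1
  rw [← Equiv.sum_comp (Equiv.mulRight h)]
  apply Finset.sum_congr rfl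
  intro g _
  rw [Equiv.coe_mulRight, smul_mul_assoc, ← map_mul, ← mul_assoc, ← hl h, ← mul_assoc, ← map_mul]
  have : h * (g * h)⁻¹ = g⁻¹ := by group
  rw [this]

theorem cpr_self (h1 : lam 1 = 1) (h2 : ∀ g, g ≠ 1 → lam (γ g) = 0) (h : G) :
    cpr F γ lam (γ h) = 0 := by
  unfold cpr
  rw [Finset.sum_eq_single h]
  · rw [← map_mul, inv_mul_cancel, map_one, h1, one_smul, sub_self]
  · intro g _ hg
    rw [← map_mul, h2, zero_smul]
    intro h3
    apply hg
    rw [inv_mul_eq_one] at h3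
    exact h3
  · intro h3
    exact absurd (Finset.mem_univ h) h3

theorem cpr_idem (h1 : lam 1 = 1) (h2 : ∀ g, g ≠ 1 → lam (γ g) = 0) (a : A) :
    cpr F γ lam (cpr F γ lam a) = cpr F γ lam a := by
  have h3 : cpr F γ lam (cpr F γ lam a) =
      cpL γ lam a - cpL γ lam (∑ g, lam (γ g⁻¹ * a) • γ g) := by
    rw [← map_sub]
    rfl
  rw [h3, map_sum]
  have h4 : ∀ g, cpL γ lam (lam (γ g⁻¹ * a) • γ g) = 0 := by
    intro g
    rw [map_smul]
    have : cpL γ lam (γ g) = 0 := cpr_self γ lam h1 h2 g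
    rw [this, smul_zero]
  rw [Finset.sum_congr rfl fun g _ => h4 g, Finset.sum_const_zero, sub_zero]
  rfl

end cp

theorem hgp (hprj : PrjStmt) (hpsm : PsmStmt) (hhgx : HgxStmt) : HgpStmt := by
  intro F V E A _ _ _ _ _ _ _ ℓ _ φ e0 _ γ hctx hPS hSpn lam l1 l2 l3
  have hfact : Fact ℓ.Prime := ⟨hctx.pr⟩
  -- the image of the projection
  set cp := cpL γ lam with hcp
  have cpdef : ∀ a, cp a = cpr F γ lam a := fun _ => rfl
  set P : Submodule F A := LinearMap.range cp with hPdef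
  have hidem : ∀ a, cp (cp a) = cp a := fun a => cpr_idem γ lam l1 l2 a
  have hPx : ∀ x ∈ P, cp x = x := by
    rintro x ⟨y, rfl⟩
    exact hidem y
  have hlr : ∀ (g h : V ⋊[φ] E) (a : A), cp (γ g * a * γ h) = γ g * cp a * γ h := by
    intro g h a
    rw [cpdef, cpr_right γ lam l3, cpr_left γ lam]
    rfl
  have hP : ∀ (g h : V ⋊[φ] E), ∀ x ∈ P, γ g * x * γ h ∈ P := by
    rintro g h x ⟨y, rfl⟩
    exact ⟨γ g * y * γ h, hlr g h y⟩
  obtain ⟨σ, hσ⟩ := exσ (F := F) γ P hP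
  set p : A →ₗ[F] P := LinearMap.codRestrict P cp (fun x => ⟨x, rfl⟩) with hp
  have hpx : ∀ a, ((p a : P) : A) = cp a := fun _ => rfl
  have hpi : ∀ x : P, p (x : A) = x := by
    intro x
    apply Subtype.ext
    rw [hpx]
    exact hPx _ x.2
  have hpσ : ∀ (w : (V ⋊[φ] E) × (V ⋊[φ] E)) (a : A), p (γ w.1 * a * γ w.2⁻¹) = σ w (p a) := by
    intro w a
    apply Subtype.ext
    rw [hσ, hpx, hpx, hlr]
  -- the representation of V × V
  set ι : V × V →* (V ⋊[φ] E) × (V ⋊[φ] E) :=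
    MonoidHom.prodMap SemidirectProduct.inl SemidirectProduct.inl with hι
  have hιinj : Function.Injective ι := by
    intro x y h
    have h1 := congrArg Prod.fst h
    have h2 := congrArg Prod.snd h
    exact Prod.ext (SemidirectProduct.inl_injective h1) (SemidirectProduct.inl_injective h2)
  have hbi : ∀ (w : V × V) (a : A), bi F (γ.comp SemidirectProduct.inl) w a =
      γ (ι w).1 * a * γ (ι w).2⁻¹ := by
    intro w a
    show γ (SemidirectProduct.inl w.1) * (a * γ (SemidirectProduct.inl w.2⁻¹)) = _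
    rw [← mul_assoc, map_inv]
    rfl
  have hPSσ : PS (fun K => ∃ (e : E) (R : Subgroup V), K = tw (φ e).toMonoidHom R)
      (rst σ ι) := by
    refine hpsm F (V × V) A P (bi F (γ.comp SemidirectProduct.inl)) (rst σ ι) _ P.subtype p
      ?_ ?_ ?_ hPS
    · intro w x
      rw [hbi]
      exact hσ (ι w) x
    · intro w a
      rw [hbi]
      exact hpσ (ι w) a
    · intro x
      exact hpi x
  have hpg : IsPGroup ℓ (V × V) := by
    rw [IsPGroup.iff_card]
    obtain ⟨n, hn⟩ := (IsPGroup.iff_card).1 hctx.pg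
    exact ⟨n + n, by rw [Nat.card_prod, hn, pow_add]⟩
  have hHig : Hig (rst σ ι) := by
    refine hprj ℓ F (V × V) P (rst σ ι) _ hpg (fun x y => mul_comm x y) hPSσ ?_
    intro C hC x hx
    have hCp : IsPGroup ℓ C := IsPGroup.of_card (n := 1) (by rw [hC, pow_one])
    obtain ⟨Ω, _, _, b, c, hfr, hst⟩ := hPSσ
    by_cases hω : ∃ ω : Ω, ∀ h ∈ C, h • ω = ω
    · obtain ⟨ω, hω⟩ := hω
      obtain ⟨e, R, hR⟩ := hst ω
      set j : V →* V × V := (φ e).toMonoidHom.prod (MonoidHom.id V) with hj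
      have hjinj : Function.Injective j := by
        intro u v h
        exact congrArg Prod.snd h
      have hCle : C ≤ j.range := by
        intro h hh
        have h1 : h ∈ MulAction.stabilizer (V × V) ω := MulAction.mem_stabilizer_iff.2 (hω h hh)
        rw [hR] at h1
        obtain ⟨u, _, hu⟩ := h1
        exact ⟨u, hu⟩
      set R' : Subgroup V := C.comap j with hR'
      have hmap : R'.map j = C := Subgroup.map_comap_eq_self hCle
      have hne : R' ≠ ⊥ := by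
        intro h
        rw [h, Subgroup.map_bot] at hmap
        rw [← hmap, Subgroup.card_bot] at hC
        exact hctx.pr.one_lt.ne hC
      have hcomm : ∀ v : V, γ (SemidirectProduct.inl (φ e v)) * γ (SemidirectProduct.inr e) =
          γ (SemidirectProduct.inr e) * γ (SemidirectProduct.inl v) := by
        intro v
        rw [← map_mul, ← map_mul]
        congr 1
        rw [SemidirectProduct.inl_aut, mul_assoc (SemidirectProduct.inr e * _), ← map_mul,
          inv_mul_cancel, map_one, mul_one]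
      have hninv : γ (SemidirectProduct.inr e) * γ (SemidirectProduct.inr e)⁻¹ = 1 := by
        rw [← map_mul, mul_inv_cancel, map_one]
      have hninv' : γ (SemidirectProduct.inr e)⁻¹ * γ (SemidirectProduct.inr e) = 1 := by
        rw [← map_mul, inv_mul_cancel, map_one]
      have hcomm' : ∀ v : V, γ (SemidirectProduct.inr e)⁻¹ * γ (SemidirectProduct.inl (φ e v)) =
          γ (SemidirectProduct.inl v) * γ (SemidirectProduct.inr e)⁻¹ := by
        intro v
        calc γ (SemidirectProduct.inr e)⁻¹ * γ (SemidirectProduct.inl (φ e v))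
            = γ (SemidirectProduct.inr e)⁻¹ * (γ (SemidirectProduct.inl (φ e v)) *
              γ (SemidirectProduct.inr e)) * γ (SemidirectProduct.inr e)⁻¹ := by
              rw [mul_assoc, mul_assoc, hninv, mul_one]
          _ = γ (SemidirectProduct.inl v) * γ (SemidirectProduct.inr e)⁻¹ := by
              rw [hcomm, ← mul_assoc, hninv', one_mul]
      -- Θ
      set Θ : A →ₗ[F] P := p.comp (LinearMap.mulLeft F (γ (SemidirectProduct.inr e))) with hΘ
      have hΘσ : ∀ (v : V) (a : A), Θ (cj F (γ.comp SemidirectProduct.inl) v a) =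
          rst σ ι (j v) (Θ a) := by
        intro v a
        show p (γ (SemidirectProduct.inr e) * (γ (SemidirectProduct.inl v) *
          (a * γ (SemidirectProduct.inl v⁻¹)))) =
          σ (ι (j v)) (p (γ (SemidirectProduct.inr e) * a))
        rw [← hpσ]
        congr 1
        show _ = γ (SemidirectProduct.inl (φ e v)) * (γ (SemidirectProduct.inr e) * a) *
          γ (SemidirectProduct.inl v)⁻¹
        rw [← mul_assoc, ← hcomm, map_inv]
        simp only [mul_assoc]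
      have hfix : γ (SemidirectProduct.inr e)⁻¹ * (x : A) ∈
          Fx (cj F (γ.comp SemidirectProduct.inl)) R' := by
        intro v hv
        have h1 : rst σ ι (j v) x = x := hx (j v) hv
        have h2 : ((σ (ι (j v)) x : P) : A) = (x : A) := congrArg Subtype.val h1
        rw [hσ] at h2
        have h3 : γ (SemidirectProduct.inl (φ e v)) * (x : A) *
          γ (SemidirectProduct.inl v)⁻¹ = x := h2
        show γ (SemidirectProduct.inl v) * (γ (SemidirectProduct.inr e)⁻¹ * (x : A) *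
          γ (SemidirectProduct.inl v⁻¹)) = γ (SemidirectProduct.inr e)⁻¹ * (x : A)
        have hiv : (SemidirectProduct.inl v⁻¹ : V ⋊[φ] E) = (SemidirectProduct.inl v)⁻¹ :=
          map_inv _ _
        conv_rhs => rw [← h3]
        rw [hiv]
        simp only [← mul_assoc]
        rw [hcomm']
      obtain ⟨cf, hcf⟩ := hSpn R' hne _ hfix
      have h4 := BK_map (cj F (γ.comp SemidirectProduct.inl)) (rst σ ι) j hjinj Θ hΘσ R' _ hcf
      rw [hmap, map_sub, map_sum] at h4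
      have h5 : ∀ u : V, Θ (cf u • (γ.comp SemidirectProduct.inl) u) = 0 := by
        intro u
        rw [map_smul]
        have h6 : Θ ((γ.comp SemidirectProduct.inl) u) = 0 := by
          apply Subtype.ext
          show cp (γ (SemidirectProduct.inr e) * γ (SemidirectProduct.inl u)) = 0
          rw [← map_mul]
          exact cpr_self γ lam l1 l2 _
        rw [h6, smul_zero]
      rw [Finset.sum_congr rfl fun u _ => h5 u, Finset.sum_const_zero, sub_zero] at h4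
      have h7 : Θ (γ (SemidirectProduct.inr e)⁻¹ * (x : A)) = x := by
        show p (γ (SemidirectProduct.inr e) * (γ (SemidirectProduct.inr e)⁻¹ * (x : A))) = x
        rw [← mul_assoc, hninv, one_mul]
        exact hpi x
      rw [h7] at h4
      exact h4
    · rw [frame_iff hfr C hCp hx]
      intro ω hω'
      exact absurd ⟨ω, hω'⟩ hω
  have hidx : ¬ ℓ ∣ ι.range.index := by
    have h1 : Nat.card ι.range * ι.range.index = Nat.card ((V ⋊[φ] E) × (V ⋊[φ] E)) :=
      Subgroup.card_mul_index _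
    have h2 : Nat.card ι.range = Nat.card V * Nat.card V := by
      rw [← Nat.card_congr (MonoidHom.ofInjective hιinj).toEquiv, Nat.card_prod]
    have h3 : Nat.card ((V ⋊[φ] E) × (V ⋊[φ] E)) =
        (Nat.card V * Nat.card E) * (Nat.card V * Nat.card E) := by
      rw [Nat.card_prod, SemidirectProduct.card]
    have h4 : 0 < Nat.card V := Nat.card_pos
    have h5 : ι.range.index = Nat.card E * Nat.card E := by
      rw [h2, h3] at h1
      have h6 : (Nat.card V * Nat.card V) * ι.range.index =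
          (Nat.card V * Nat.card V) * (Nat.card E * Nat.card E) := by
        rw [h1]
        ring
      exact Nat.eq_of_mul_eq_mul_left (Nat.mul_pos h4 h4) h6
    rw [h5]
    intro h6
    rcases (Nat.Prime.dvd_mul hctx.pr).1 h6 with h7 | h7 <;> exact hctx.cop h7
  obtain ⟨a, ha⟩ := hhgx ℓ F _ (V × V) P σ ι hιinj hidx hHig
  refine ⟨(P.subtype.comp a).comp p, fun x => ?_⟩
  have h8 := ha (p x)
  have h9 : cpr F γ lam x = ((p x : P) : A) := rfl
  rw [h9, ← h8]
  rw [Submodule.coe_sum, Fintype.sum_prod_type]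
  apply Finset.sum_congr rfl
  intro g _
  rw [← Equiv.sum_comp (Equiv.inv (V ⋊[φ] E))]
  apply Finset.sum_congr rfl
  intro h _
  rw [hσ]
  show γ g * ((a (p (γ g⁻¹ * x * γ (h⁻¹)⁻¹)) : P) : A) * γ h⁻¹ = _
  have h10 : p (γ g⁻¹ * x * γ (h⁻¹)⁻¹) = σ (g, h)⁻¹ (p x) := hpσ (g, h)⁻¹ x
  rw [h10]

end Pool.Agent.PFC.H77
end
end -- Pool.Agent.Helper77_PFC.HGP

section -- Pool.Agent.Helper77_PFC.QSB

set_option autoImplicit false

/-!
PFC row QSB: a summand of a permutation module has split Brauer quotients.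
-/

open scoped BigOperators TensorProduct

noncomputable section

namespace Pool.Agent.PFC.H77

open Pool.Agent.PFC

section

variable {F V M : Type} [Field F] [Group V] [AddCommGroup M] [Module F M]

theorem PT_comp (ρ : V →* (M →ₗ[F] M)) (Q : Subgroup V) (T : M →ₗ[F] M)
    (hT : ∀ v m, T (ρ v m) = ρ v (T m)) (X : M →ₗ[F] M) (hX : X ∈ PT ρ Q) :
    X ∘ₗ T ∈ PT ρ Q := by
  unfold PT at hX
  induction hX using Submodule.span_induction with
  | mem X hX =>
    obtain ⟨K, S, h, hK, hS, hh, hX⟩ := hX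
    apply Submodule.subset_span
    refine ⟨K, S, h ∘ₗ T, hK, hS, fun k hk m => ?_, fun m => ?_⟩
    · show ρ k (h (T m)) = h (T (ρ k m))
      rw [hT, hh k hk]
    · show X (T m) = ∑ x ∈ S, ρ x (h (T (ρ x⁻¹ m)))
      rw [hX]
      apply Finset.sum_congr rfl
      intro x _
      rw [hT]
  | zero =>
    rw [LinearMap.zero_comp]
    exact Submodule.zero_mem _
  | add a b _ _ ha hb =>
    rw [LinearMap.add_comp]
    exact Submodule.add_mem _ ha hb
  | smul r a _ ha =>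
    rw [LinearMap.smul_comp]
    exact Submodule.smul_mem _ _ ha

/-- the conjugation representation on the endomorphisms -/
def tau (ρ : V →* (M →ₗ[F] M)) : V →* ((M →ₗ[F] M) →ₗ[F] (M →ₗ[F] M)) where
  toFun := fun v =>
    { toFun := fun h => ρ v ∘ₗ h ∘ₗ ρ v⁻¹
      map_add' := fun a b => by
        apply LinearMap.ext
        intro m
        show ρ v (a (ρ v⁻¹ m) + b (ρ v⁻¹ m)) = ρ v (a (ρ v⁻¹ m)) + ρ v (b (ρ v⁻¹ m))
        rw [map_add]
      map_smul' := fun c a => by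
        apply LinearMap.ext
        intro m
        show ρ v (c • a (ρ v⁻¹ m)) = c • ρ v (a (ρ v⁻¹ m))
        rw [map_smul] }
  map_one' := by
    apply LinearMap.ext
    intro h
    apply LinearMap.ext
    intro m
    show ρ 1 (h (ρ 1⁻¹ m)) = h m
    rw [inv_one, map_one]
    rfl
  map_mul' := by
    intro v w
    apply LinearMap.ext
    intro h
    apply LinearMap.ext
    intro m
    show ρ (v * w) (h (ρ (v * w)⁻¹ m)) = ρ v (ρ w (h (ρ w⁻¹ (ρ v⁻¹ m))))
    rw [mul_inv_rev, map_mul, map_mul]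
    rfl

theorem tau_apply (ρ : V →* (M →ₗ[F] M)) (v : V) (h : M →ₗ[F] M) (m : M) :
    tau ρ v h m = ρ v (h (ρ v⁻¹ m)) := rfl

theorem inv_act (ρ : V →* (M →ₗ[F] M)) (v : V) (m : M) : ρ v⁻¹ (ρ v m) = m := by
  have h : ρ v⁻¹ (ρ v m) = (ρ v⁻¹ * ρ v) m := rfl
  rw [h, ← map_mul, inv_mul_cancel, map_one]
  rfl

theorem act_inv (ρ : V →* (M →ₗ[F] M)) (v : V) (m : M) : ρ v (ρ v⁻¹ m) = m := by
  have h : ρ v (ρ v⁻¹ m) = (ρ v * ρ v⁻¹) m := rfl
  rw [h, ← map_mul, mul_inv_cancel, map_one]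
  rfl

theorem BK_tau (ρ : V →* (M →ₗ[F] M)) (Q : Subgroup V) : BK (tau ρ) Q ≤ PT ρ Q := by
  unfold BK PT
  apply Submodule.span_mono
  rintro _ ⟨K, S, h, hK, hS, hh, rfl⟩
  refine ⟨K, S, h, hK, hS, fun k hk m => ?_, fun m => ?_⟩
  · have h1 : tau ρ k h = h := hh k hk
    have h2 := LinearMap.congr_fun h1 (ρ k m)
    rw [tau_apply, inv_act] at h2
    exact h2
  · rw [LinearMap.sum_apply]
    rfl

end

theorem qsb : QsbStmt := by
  intro ℓ _ F V M _ _ _ _ _ _ ρ hpg hPS Q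
  classical
  obtain ⟨Ω, _, _, b, c, hfr, -⟩ := hPS
  have hQ : IsPGroup ℓ Q := hpg.to_subgroup Q
  -- the sum over the fixed points
  set T : M →ₗ[F] M := ∑ ω ∈ fp Q Ω, (c ω).smulRight (b ω) with hTdef
  have hTa : ∀ m, T m = ∑ ω ∈ fp Q Ω, c ω m • b ω := by
    intro m
    rw [hTdef, LinearMap.sum_apply]
    rfl
  have hcinv : ∀ (v : V) (ω : Ω) (m : M), c (v • ω) m = c ω (ρ v⁻¹ m) := by
    intro v ω m
    have h1 := hfr.2.1 v ω (ρ v⁻¹ m)
    rw [act_inv] at h1
    exact h1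
  have hfp : ∀ (v : V) (ω : Ω), v • ω ∈ fp Q Ω ↔ ω ∈ fp Q Ω := by
    intro v ω
    rw [mem_fp, mem_fp]
    constructor
    · intro h q hq
      have h1 := h q hq
      rw [← mul_smul, mul_comm q v, mul_smul] at h1
      exact MulAction.injective v h1
    · intro h q hq
      rw [← mul_smul, mul_comm q v, mul_smul, h q hq]
  have hTρ : ∀ v m, T (ρ v m) = ρ v (T m) := by
    intro v m
    rw [hTa, hTa, map_sum]
    have h1 : ∀ ω ∈ fp Q Ω, ρ v (c ω m • b ω) = c (v • ω) (ρ v m) • b (v • ω) := by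
      intro ω _
      rw [map_smul, hfr.1, hfr.2.1]
    rw [Finset.sum_congr rfl h1]
    symm
    apply Finset.sum_bij (fun ω _ => v • ω)
    · intro ω hω
      exact (hfp v ω).2 hω
    · intro ω _ ω' _ h
      exact MulAction.injective v h
    · intro ω hω
      refine ⟨v⁻¹ • ω, (hfp v⁻¹ ω).2 hω, ?_⟩
      rw [smul_inv_smul]
    · intro ω _
      rfl
  have hTfx : ∀ m, T m ∈ Fx ρ Q := by
    intro m q hq
    rw [hTa, map_sum]
    apply Finset.sum_congr rfl
    intro ω hω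
    rw [map_smul, ← hfr.1, (mem_fp Q Ω ω).1 hω q hq]
  have hTBK : ∀ m ∈ BK ρ Q, T m = 0 := by
    intro m hm
    rw [hTa]
    apply Finset.sum_eq_zero
    intro ω hω
    rw [frame_BK hfr Q hQ hm ω ((mem_fp Q Ω ω).1 hω), zero_smul]
  have hT3 : ∀ m, T (T (T m)) = T (T m) := by
    intro m
    have h1 := frame_sub hfr Q (hTfx m)
    rw [← hTa] at h1
    have h2 := hTBK _ h1
    rw [map_sub, sub_eq_zero] at h2
    exact h2.symm
  -- D
  have hD : LinearMap.id - T ∈ PT ρ Q := by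
    apply BK_tau
    have h1 : LinearMap.id - T = ∑ ω ∈ Finset.univ \ fp Q Ω, (c ω).smulRight (b ω) := by
      rw [sub_eq_iff_eq_add, Finset.sum_sdiff (Finset.subset_univ _)]
      apply LinearMap.ext
      intro m
      rw [LinearMap.sum_apply]
      exact (hfr.2.2 m).symm
    rw [h1]
    apply B5a.H77.trs F V (M →ₗ[F] M) Ω (tau ρ) Q (fun ω => (c ω).smulRight (b ω))
    · intro ω hω q _
      rw [Finset.mem_sdiff] at hω ⊢
      exact ⟨Finset.mem_univ _, fun h => hω.2 ((hfp q ω).1 h)⟩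
    · intro ω hω h
      rw [Finset.mem_sdiff] at hω
      exact hω.2 ((mem_fp Q Ω ω).2 h)
    · intro q _ ω
      apply LinearMap.ext
      intro m
      rw [tau_apply]
      show c (q • ω) m • b (q • ω) = ρ q (c ω (ρ q⁻¹ m) • b ω)
      rw [hcinv, hfr.1, map_smul]
  -- the idempotent
  set e : M →ₗ[F] M := T ∘ₗ T with he
  have hea : ∀ m, e m = T (T m) := fun _ => rfl
  have hee : ∀ m, e (e m) = e m := by
    intro m
    rw [hea, hea, hT3, hT3]
  have heρ : ∀ v m, e (ρ v m) = ρ v (e m) := by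
    intro v m
    rw [hea, hea, hTρ, hTρ]
  have hst : ∀ v : V, ∀ x ∈ LinearMap.range e, ρ v x ∈ LinearMap.range e := by
    rintro v x ⟨m, rfl⟩
    exact ⟨ρ v m, heρ v m⟩
  refine ⟨LinearMap.range e, inferInstance, inferInstance,
    { toFun := fun v => (ρ v).restrict (hst v)
      map_one' := ?_, map_mul' := ?_ }, LinearMap.rangeRestrict e, (LinearMap.range e).subtype, ?_⟩
  · apply LinearMap.ext
    intro x
    apply Subtype.ext
    show ρ 1 x = x
    rw [map_one]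
    rfl
  · intro v w
    apply LinearMap.ext
    intro x
    apply Subtype.ext
    show ρ (v * w) x = ρ v (ρ w x)
    rw [map_mul]
    rfl
  · refine ⟨?_, ?_, ?_, ?_, ?_⟩
    · rintro ⟨_, m, rfl⟩
      apply Subtype.ext
      exact hee m
    · intro v m
      apply Subtype.ext
      exact heρ v m
    · intro v n
      rfl
    · rintro q hq ⟨_, m, rfl⟩
      apply Subtype.ext
      exact hTfx (T m) q hq
    · have h1 : LinearMap.id - (LinearMap.range e).subtype ∘ₗ LinearMap.rangeRestrict e =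
          (LinearMap.id - T) + (LinearMap.id - T) ∘ₗ T := by
        apply LinearMap.ext
        intro m
        show m - T (T m) = (m - T m) + (T m - T (T m))
        abel
      rw [h1]
      exact Submodule.add_mem _ hD (PT_comp ρ Q T hTρ _ hD)

end Pool.Agent.PFC.H77
end
end -- Pool.Agent.Helper77_PFC.QSB

section -- Pool.Agent.Helper81_PFC.QTA

/-!
Squad PFC, row QTA (helper81): a unit of finite order which realises an automorphism.
-/

set_option autoImplicit false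

open scoped BigOperators TensorProduct

namespace Pool.Agent.PFC.H81

/-- the conjugation action -/
theorem cj_apply {F V A : Type} [Field F] [Group V] [Ring A] [Algebra F A] (α : V →* A) (v : V)
    (a : A) : cj F α v a = α v * (a * α v⁻¹) := rfl

/-- fixed vectors of the conjugation action commute with `V` -/
theorem mem_Fx_cj {F V A : Type} [Field F] [Group V] [Ring A] [Algebra F A] (α : V →* A)
    (Q : Subgroup V) (a : A) : a ∈ Fx (cj F α) Q ↔ ∀ v ∈ Q, α v * a = a * α v := by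
  have h1 : ∀ v : V, α v⁻¹ * α v = 1 := fun v => by rw [← map_mul, inv_mul_cancel, map_one]
  have h2 : ∀ v : V, α v * α v⁻¹ = 1 := fun v => by rw [← map_mul, mul_inv_cancel, map_one]
  constructor
  · intro h v hv
    have h3 : α v * (a * α v⁻¹) = a := h v hv
    calc α v * a = α v * a * (α v⁻¹ * α v) := by rw [h1, mul_one]
      _ = (α v * (a * α v⁻¹)) * α v := by simp only [mul_assoc]
      _ = a * α v := by rw [h3]
  · intro h v hv
    change α v * (a * α v⁻¹) = a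
    rw [← mul_assoc, h v hv, mul_assoc, h2, mul_one]

/-- row QTA -/
theorem qta : QtaStmt := by
  intro ℓ hℓ F V _ _ _ _ X σ m hm hdvd hσ hnt hloc hrz
  obtain ⟨y, hy⟩ := hrz
  -- the powers of y
  have hpow : ∀ (k : ℕ) (v : V), ((y ^ k : X.Aˣ) : X.A) * X.ι v = X.ι ((σ ^ k) v) * (y ^ k : X.Aˣ) := by
    intro k
    induction k with
    | zero =>
      intro v
      simp
    | succ k ih =>
      intro v
      rw [pow_succ, Units.val_mul, mul_assoc, hy v, ← mul_assoc, ih (σ v), mul_assoc]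
      rfl
  have hw : ∀ v : V, ((y ^ m : X.Aˣ) : X.A) * X.ι v = X.ι v * (y ^ m : X.Aˣ) := by
    intro v
    have h1 := hpow m v
    rw [hσ] at h1
    exact h1
  have hfx : ((y ^ m : X.Aˣ) : X.A) ∈ Fx (cj F X.ι) ⊤ := by
    rw [mem_Fx_cj]
    intro v _
    exact (hw v).symm
  obtain ⟨t, ht⟩ := hloc _ hfx
  have ht0 : t ≠ 0 := by
    intro h0
    rw [h0, map_zero, sub_zero] at ht
    exact (Units.isUnit (y ^ m)).not_isNilpotent ht
  -- the scalars as units
  let sc : Fˣ →* X.Aˣ := Units.map (algebraMap F X.A : F →* X.A)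
  have hsc : ∀ (r : Fˣ) (z : X.Aˣ), sc r * z = z * sc r := by
    intro r z
    apply Units.ext
    exact Algebra.commutes (r : F) (z : X.A)
  let tu : Fˣ := Units.mk0 t ht0
  obtain ⟨r, hr⟩ := IsAlgClosed.exists_pow_nat_eq t hm
  have hr0 : r ≠ 0 := by
    intro h0
    rw [h0, zero_pow hm.ne'] at hr
    exact ht0 hr.symm
  let ru : Fˣ := Units.mk0 r hr0
  have hru : ru ^ m = tu := Units.ext (by
    change r ^ m = t
    exact hr)
  -- the unipotent unit
  let u : X.Aˣ := sc tu⁻¹ * y ^ m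
  obtain ⟨a, ha⟩ : ∃ a : ℕ, u ^ ℓ ^ a = 1 := by
    obtain ⟨k, hk⟩ := ht
    have hchar : CharP X.A ℓ := charP_of_injective_algebraMap (algebraMap F X.A).injective ℓ
    refine ⟨k, Units.ext ?_⟩
    have h1 : ((y ^ m : X.Aˣ) : X.A) ^ ℓ ^ k = algebraMap F X.A t ^ ℓ ^ k := by
      have h2 : Commute ((y ^ m : X.Aˣ) : X.A) (algebraMap F X.A t) := Algebra.commute_algebraMap_right _ _
      have h3 := sub_pow_char_pow_of_commute (p := ℓ) (n := k) h2
      have h4 : (((y ^ m : X.Aˣ) : X.A) - algebraMap F X.A t) ^ ℓ ^ k = 0 :=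
        pow_eq_zero_of_le (Nat.lt_pow_self hℓ.out.one_lt).le hk
      rw [h4] at h3
      exact (sub_eq_zero.1 h3.symm)
    have h5 : (u : X.A) = algebraMap F X.A t⁻¹ * ((y ^ m : X.Aˣ) : X.A) := rfl
    have h6 : Commute (algebraMap F X.A t⁻¹) ((y ^ m : X.Aˣ) : X.A) := Algebra.commute_algebraMap_left _ _
    rw [Units.val_pow_eq_pow_val, h5, h6.mul_pow, h1, ← map_pow, ← map_pow, ← map_mul, inv_pow,
      inv_mul_cancel₀ (pow_ne_zero _ ht0), map_one]
    rfl
  have hcop : Nat.Coprime m (ℓ ^ a) :=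
    Nat.Coprime.pow_right _ ((Nat.Prime.coprime_iff_not_dvd hℓ.out).2 hdvd).symm
  -- s * m + 1 is divisible by ℓ ^ a
  obtain ⟨s, q, hs⟩ : ∃ s q : ℕ, s * m + 1 = ℓ ^ a * q := by
    have hne : NeZero (ℓ ^ a) := ⟨pow_ne_zero _ hℓ.out.ne_zero⟩
    let w : (ZMod (ℓ ^ a))ˣ := ZMod.unitOfCoprime m hcop
    refine ⟨(-((w⁻¹ : (ZMod (ℓ ^ a))ˣ) : ZMod (ℓ ^ a))).val, ?_⟩
    have h1 : (ℓ ^ a : ℕ) ∣ (-((w⁻¹ : (ZMod (ℓ ^ a))ˣ) : ZMod (ℓ ^ a))).val * m + 1 := by
      rw [← ZMod.natCast_eq_zero_iff, Nat.cast_add, Nat.cast_mul, ZMod.natCast_zmod_val,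
        ← ZMod.coe_unitOfCoprime m hcop, Nat.cast_one, neg_mul, Units.inv_mul, neg_add_cancel]
    exact h1
  have huy : u * y = y * u := by
    change sc tu⁻¹ * y ^ m * y = y * (sc tu⁻¹ * y ^ m)
    rw [mul_assoc, ← pow_succ, ← mul_assoc, ← hsc, mul_assoc, ← pow_succ']
  refine ⟨sc ru⁻¹ * u ^ s * y, ?_, ?_⟩
  · intro v
    have hu' : ∀ v : V, (u : X.A) * X.ι v = X.ι v * u := by
      intro v
      change algebraMap F X.A t⁻¹ * ((y ^ m : X.Aˣ) : X.A) * X.ι v = X.ι v * (algebraMap F X.A t⁻¹ * ((y ^ m : X.Aˣ) : X.A))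
      rw [mul_assoc, hw, ← mul_assoc, ← mul_assoc, Algebra.commutes]
    have hus : ∀ v : V, ((u ^ s : X.Aˣ) : X.A) * X.ι v = X.ι v * (u ^ s : X.Aˣ) := by
      intro v
      rw [Units.val_pow_eq_pow_val]
      exact Commute.pow_left (hu' v) s
    rw [Units.val_mul, mul_assoc, hy v, ← mul_assoc]
    have h7 : ((sc ru⁻¹ * u ^ s : X.Aˣ) : X.A) * X.ι (σ v) = X.ι (σ v) * (sc ru⁻¹ * u ^ s : X.Aˣ) := by
      rw [Units.val_mul, mul_assoc, hus, ← mul_assoc, ← mul_assoc]
      congr 1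
      exact Algebra.commutes _ _
    rw [h7, mul_assoc]
  · have h8 : Commute (sc ru⁻¹) (u ^ s * y) := hsc _ _
    have h9 : Commute (u ^ s) y := Commute.pow_left huy s
    rw [mul_assoc, h8.mul_pow, h9.mul_pow, ← pow_mul, ← map_pow, inv_pow, hru]
    have h10 : y ^ m = sc tu * u := by
      change y ^ m = sc tu * (sc tu⁻¹ * y ^ m)
      rw [← mul_assoc, ← map_mul, mul_inv_cancel, map_one, one_mul]
    rw [h10, ← mul_assoc (u ^ (s * m)), ← hsc, mul_assoc, ← pow_succ, hs, pow_mul, ha, one_pow,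
      mul_one, ← map_mul, inv_mul_cancel, map_one]

end Pool.Agent.PFC.H81
end -- Pool.Agent.Helper81_PFC.QTA

section -- Pool.Agent.Helper81_PFC.QLW

/-!
Squad PFC, row QLW (helper81): the idempotent `π ⊗ 1`.
-/

set_option autoImplicit false

open scoped BigOperators TensorProduct

namespace Pool.Agent.PFC.H81

/-- a transversal of a proper subgroup of an `ℓ`-group has zero size in `F` -/
theorem tv_zero {ℓ : ℕ} [Fact ℓ.Prime] {F H : Type} [Field F] [CharP F ℓ] [Group H] [Finite H]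
    (P' P : Subgroup H) (hP : IsPGroup ℓ P) (hlt : P' < P) (S : Finset H) (hS : IsTv P' P S) :
    (S.card : F) = 0 := by
  have hdvd : ℓ ∣ S.card := by
    have hc := card_tv P' P hlt.le S hS
    obtain ⟨k, hk⟩ := (IsPGroup.iff_card).1 hP
    have hdiv : S.card ∣ ℓ ^ k := ⟨_, by rw [← hk]; exact hc.symm⟩
    obtain ⟨j, -, hj⟩ := (Nat.dvd_prime_pow (Fact.out : ℓ.Prime)).1 hdiv
    rcases Nat.eq_zero_or_pos j with h0 | h0
    · exfalso
      rw [h0, pow_zero] at hj
      rw [hj, one_mul] at hc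
      exact hlt.ne (Subgroup.eq_of_le_of_card_ge hlt.le hc.ge)
    · rw [hj]
      exact dvd_pow_self ℓ h0.ne'
  rw [CharP.cast_eq_zero_iff F ℓ]
  exact hdvd

/-- a linear map which is constant along the orbits of `P` kills the Brauer kernel -/
theorem kill_BK {ℓ : ℕ} [Fact ℓ.Prime] {F H M N : Type} [Field F] [CharP F ℓ] [Group H]
    [Finite H] [AddCommGroup M] [Module F M] [AddCommGroup N] [Module F N]
    (ρ : H →* (M →ₗ[F] M)) (P : Subgroup H) (hP : IsPGroup ℓ P) (f : M →ₗ[F] N)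
    (hf : ∀ h ∈ P, ∀ m, f (ρ h m) = f m) {m : M} (hm : m ∈ BK ρ P) : f m = 0 := by
  have h1 : BK ρ P ≤ LinearMap.ker f := by
    unfold BK
    rw [Submodule.span_le]
    rintro n ⟨P', S, x, hlt, hS, hx, rfl⟩
    rw [SetLike.mem_coe, LinearMap.mem_ker, map_sum,
      Finset.sum_congr rfl fun y hy => hf y (hS.1 y hy) x, Finset.sum_const,
      ← Nat.cast_smul_eq_nsmul F, tv_zero P' P hP hlt S hS, zero_smul]
  exact h1 hm

/-- large `ℓ`-powers in the group algebra of an `ℓ`-group are scalars -/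
theorem pow_scalar {ℓ : ℕ} [Fact ℓ.Prime] {F V : Type} [Field F] [CharP F ℓ] [CommGroup V]
    (hV : IsPGroup ℓ V) (y : MonoidAlgebra F V) :
    ∃ (k : ℕ) (r : F), y ^ ℓ ^ k = algebraMap F (MonoidAlgebra F V) r := by
  have hchar : CharP (MonoidAlgebra F V) ℓ :=
    charP_of_injective_algebraMap (algebraMap F (MonoidAlgebra F V)).injective ℓ
  have hmore : ∀ (z : MonoidAlgebra F V) (k j : ℕ) (r : F),
      z ^ ℓ ^ k = algebraMap F (MonoidAlgebra F V) r →
      z ^ ℓ ^ (k + j) = algebraMap F (MonoidAlgebra F V) (r ^ ℓ ^ j) := by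
    intro z k j r h
    rw [pow_add, pow_mul, h, map_pow]
  induction y using MonoidAlgebra.induction_on with
  | of v =>
    obtain ⟨k, hk⟩ := hV v
    exact ⟨k, 1, by rw [← map_pow, hk, map_one, map_one]⟩
  | add y z hy hz =>
    obtain ⟨k, r, h⟩ := hy
    obtain ⟨k', r', h'⟩ := hz
    refine ⟨k + k', r ^ ℓ ^ k' + r' ^ ℓ ^ k, ?_⟩
    rw [add_pow_char_pow, hmore y k k' r h, add_comm k k', hmore z k' k r' h', map_add]
  | smul c y hy =>
    obtain ⟨k, r, h⟩ := hy
    refine ⟨k, c ^ ℓ ^ k * r, ?_⟩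
    rw [Algebra.smul_def, mul_pow, h, map_mul, map_pow]

/-- the main part of QLW, for plain algebras -/
theorem qlw_aux {ℓ : ℕ} [Fact ℓ.Prime] {F V A : Type} [Field F] [CharP F ℓ] [CommGroup V]
    [Finite V] [Ring A] [Algebra F A] (ι : V →* A) (τ : V →* A ⊗[F] MonoidAlgebra F V)
    (hτ : ∀ v, τ v = ι v ⊗ₜ[F] MonoidAlgebra.of F V v)
    (c : A ⊗[F] MonoidAlgebra F V →ₗ[F] F) (π : A) (hV : IsPGroup ℓ V) (hc1 : c 1 = 1)
    (hcm : ∀ x ∈ Fx (cj F τ) ⊤, ∀ y ∈ Fx (cj F τ) ⊤, c (x * y) = c x * c y)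
    (hci : ∀ v a, c (cj F τ v a) = c a) (β : A →ₗ[F] F) (s : F →ₗ[F] A) (hβ1 : β 1 = 1)
    (q2 : ∀ m ∈ Fx (cj F ι) ⊤, β m = 0 ↔ m ∈ BK (cj F ι) ⊤)
    (q3 : ∀ m ∈ Fx (cj F ι) ⊤, m - s (β m) ∈ BK (cj F ι) ⊤)
    (hπ : π * π = π) (hπ0 : π ≠ 0) (hl : ∀ v, ι v * π = π) (hr : ∀ v, π * ι v = π)
    (hcor : ∀ a, ∃ t : F, π * a * π = t • π) :
    (π ⊗ₜ[F] (1 : MonoidAlgebra F V)) ∈ Fx (cj F τ) ⊤ ∧
      (π ⊗ₜ[F] (1 : MonoidAlgebra F V)) * (π ⊗ₜ[F] (1 : MonoidAlgebra F V)) =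
        π ⊗ₜ[F] (1 : MonoidAlgebra F V) ∧ c (π ⊗ₜ[F] (1 : MonoidAlgebra F V)) = 1 ∧
      ∀ x ∈ Fx (cj F τ) ⊤,
        c ((π ⊗ₜ[F] (1 : MonoidAlgebra F V)) * x * (π ⊗ₜ[F] (1 : MonoidAlgebra F V))) = 0 →
        IsNilpotent ((π ⊗ₜ[F] (1 : MonoidAlgebra F V)) * x * (π ⊗ₜ[F] (1 : MonoidAlgebra F V))) := by
  have hV' : IsPGroup ℓ (⊤ : Subgroup V) := hV.of_equiv Subgroup.topEquiv.symm
  have hcj : ∀ (v : V) (a : A) (y : MonoidAlgebra F V),
      cj F τ v (a ⊗ₜ[F] y) = (cj F ι v a) ⊗ₜ[F] y := by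
    intro v a y
    rw [cj_apply, cj_apply, hτ, hτ, Algebra.TensorProduct.tmul_mul_tmul,
      Algebra.TensorProduct.tmul_mul_tmul]
    congr 1
    rw [mul_comm y, ← mul_assoc, ← map_mul, mul_inv_cancel, map_one, one_mul]
  have hπfx : π ∈ Fx (cj F ι) ⊤ := by
    rw [mem_Fx_cj]
    intro v _
    rw [hl, hr]
  have h1fx : (1 : A) ∈ Fx (cj F ι) ⊤ := by
    rw [mem_Fx_cj]
    intro v _
    rw [mul_one, one_mul]
  have htfx : ∀ a ∈ Fx (cj F ι) ⊤, ∀ y : MonoidAlgebra F V, a ⊗ₜ[F] y ∈ Fx (cj F τ) ⊤ := by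
    intro a ha y v hv
    rw [hcj, ha v hv]
  -- the character of `A`
  let cW : A →ₗ[F] F := c ∘ₗ (TensorProduct.mk F A (MonoidAlgebra F V)).flip 1
  have hcW : ∀ a, cW a = c (a ⊗ₜ[F] (1 : MonoidAlgebra F V)) := fun a => rfl
  have hinv : ∀ v ∈ (⊤ : Subgroup V), ∀ a, cW (cj F ι v a) = cW a := by
    intro v _ a
    rw [hcW, hcW, ← hcj, hci]
  have hs : ∀ r : F, s r = r • s 1 := by
    intro r
    rw [← map_smul, smul_eq_mul, mul_one]
  have hcs : cW (s 1) = 1 := by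
    have h1 := kill_BK (cj F ι) ⊤ hV' cW hinv (q3 1 h1fx)
    rw [hβ1, map_sub, sub_eq_zero] at h1
    rw [← h1, hcW, ← Algebra.TensorProduct.one_def, hc1]
  have hcπ : cW π = β π := by
    have h1 := kill_BK (cj F ι) ⊤ hV' cW hinv (q3 π hπfx)
    rw [map_sub, sub_eq_zero, hs, map_smul, hcs, smul_eq_mul, mul_one] at h1
    exact h1
  have hβ0 : β π ≠ 0 := by
    intro h0
    have h1 := (q2 π hπfx).1 h0
    let f : A →ₗ[F] A := LinearMap.mulLeft F π ∘ₗ LinearMap.mulRight F π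
    have hf : ∀ a, f a = π * (a * π) := fun a => rfl
    have h2 := kill_BK (cj F ι) ⊤ hV' f (by
      intro v _ a
      rw [hf, hf, cj_apply]
      have h3 : π * (ι v * (a * ι v⁻¹) * π) = (π * ι v) * (a * (ι v⁻¹ * π)) := by
        simp only [mul_assoc]
      rw [h3, hr, hl]) h1
    rw [hf, hπ, hπ] at h2
    exact hπ0 h2
  have hj1 : c (π ⊗ₜ[F] (1 : MonoidAlgebra F V)) = 1 := by
    have h1 := hcm _ (htfx π hπfx 1) _ (htfx π hπfx 1)
    rw [Algebra.TensorProduct.tmul_mul_tmul, hπ, one_mul] at h1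
    have h2 : c (π ⊗ₜ[F] (1 : MonoidAlgebra F V)) ≠ 0 := by
      rw [← hcW, hcπ]
      exact hβ0
    exact (mul_eq_left₀ h2).1 h1.symm
  refine ⟨htfx π hπfx 1, ?_, hj1, ?_⟩
  · rw [Algebra.TensorProduct.tmul_mul_tmul, hπ, one_mul]
  · intro x _
    have hex : ∀ x : A ⊗[F] MonoidAlgebra F V, ∃ y : MonoidAlgebra F V,
        (π ⊗ₜ[F] (1 : MonoidAlgebra F V)) * x * (π ⊗ₜ[F] (1 : MonoidAlgebra F V)) =
          π ⊗ₜ[F] y := by
      intro x
      induction x using TensorProduct.induction_on with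
      | zero => exact ⟨0, by rw [mul_zero, zero_mul, TensorProduct.tmul_zero]⟩
      | tmul a y =>
        obtain ⟨t, ht⟩ := hcor a
        refine ⟨t • y, ?_⟩
        rw [Algebra.TensorProduct.tmul_mul_tmul, Algebra.TensorProduct.tmul_mul_tmul, ht, one_mul,
          mul_one, TensorProduct.smul_tmul]
      | add x x' hx hx' =>
        obtain ⟨y, hy⟩ := hx
        obtain ⟨y', hy'⟩ := hx'
        exact ⟨y + y', by rw [mul_add, add_mul, hy, hy', TensorProduct.tmul_add]⟩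
    obtain ⟨y, hy⟩ := hex x
    rw [hy]
    intro hy0
    have hpw : ∀ n : ℕ, (π ⊗ₜ[F] y) ^ (n + 1) = π ⊗ₜ[F] (y ^ (n + 1)) := by
      intro n
      rw [Algebra.TensorProduct.tmul_pow]
      congr 1
      exact IsIdempotentElem.pow_succ_eq n hπ
    have hcp : ∀ n : ℕ, c (π ⊗ₜ[F] (y ^ (n + 1))) = 0 := by
      intro n
      have h1 : π ⊗ₜ[F] (y ^ (n + 1)) = (π ⊗ₜ[F] (y ^ n)) * (π ⊗ₜ[F] y) := by
        rw [Algebra.TensorProduct.tmul_mul_tmul, hπ, pow_succ]
      rw [h1, hcm _ (htfx π hπfx _) _ (htfx π hπfx _), hy0, mul_zero]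
    obtain ⟨k, r, hk⟩ := pow_scalar hV y
    have hpos : 0 < ℓ ^ k := pow_pos (Fact.out : ℓ.Prime).pos k
    obtain ⟨n, hn⟩ : ∃ n, ℓ ^ k = n + 1 := ⟨ℓ ^ k - 1, by omega⟩
    have h1 := hcp n
    rw [← hn, hk, Algebra.algebraMap_eq_smul_one, TensorProduct.tmul_smul, map_smul, hj1,
      smul_eq_mul, mul_one] at h1
    refine ⟨n + 1, ?_⟩
    rw [hpw, ← hn, hk, h1, map_zero, TensorProduct.tmul_zero]

/-- row QLW -/
theorem qlw (qke : QkeStmt) : QlwStmt := by
  intro ℓ _ F V _ _ _ _ W c π hV hBQ hc hπ hπ0 hl hr hcor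
  obtain ⟨β, s, hβ⟩ := hBQ
  obtain ⟨q1, q2, q3⟩ := qke ℓ F V W.A (IA.one F V).A (cj F W.ι) (cj F (IA.one F V).ι) ⊤ β s hV
    hβ.toBrS
  have hβ1 : β 1 = 1 := by
    have h1 := hβ.cov 1
    rw [map_one W.ι, map_one (IA.one F V).ι] at h1
    exact h1
  obtain ⟨h1, h2, h3, h4⟩ := qlw_aux W.ι (W.tens (IA.gr F V)).ι (fun v => rfl) c π hV hc.one hc.mul
    hc.inv β s hβ1 q2 q3 hπ hπ0 hl hr hcor
  exact ⟨h1, h2, h3, h4⟩

end Pool.Agent.PFC.H81
end -- Pool.Agent.Helper81_PFC.QLW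

section -- Pool.Agent.Helper81_PFC.QTR

/-!
Squad PFC, row QTR (helper81): transitivity of Brauer quotients.
-/

set_option autoImplicit false

open scoped BigOperators TensorProduct

namespace Pool.Agent.PFC.H81

open MulAction

/-- fixed vectors for the join of two subgroups -/
theorem Fx_sup {F H M : Type} [Field F] [Group H] [AddCommGroup M] [Module F M]
    (ρ : H →* (M →ₗ[F] M)) (Q R : Subgroup H) (m : M) :
    m ∈ Fx ρ (Q ⊔ R) ↔ m ∈ Fx ρ Q ∧ m ∈ Fx ρ R := by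
  constructor
  · intro h
    exact ⟨fun q hq => h q (Subgroup.mem_sup_left hq), fun q hq => h q (Subgroup.mem_sup_right hq)⟩
  · rintro ⟨h1, h2⟩ q hq
    have hle : Q ⊔ R ≤
        { carrier := {h | ρ h m = m}
          one_mem' := by
            change ρ 1 m = m
            rw [map_one]
            rfl
          mul_mem' := by
            intro a b ha hb
            change ρ (a * b) m = m
            rw [map_mul]
            change ρ a (ρ b m) = m
            rw [hb, ha]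
          inv_mem' := by
            intro a ha
            change ρ a⁻¹ m = m
            have h3 : ρ a⁻¹ (ρ a m) = m := by
              rw [← Module.End.mul_apply, ← map_mul, inv_mul_cancel, map_one]
              rfl
            rw [ha] at h3
            exact h3 : Subgroup H } := by
      refine sup_le ?_ ?_
      · intro a ha
        exact h1 a ha
      · intro a ha
        exact h2 a ha
    exact hle hq

/-- points fixed by the join of two subgroups -/
theorem fix_sup {H Ω : Type} [Group H] [MulAction H Ω] (Q R : Subgroup H) (ω : Ω) :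
    (∀ h ∈ Q ⊔ R, h • ω = ω) ↔ (∀ h ∈ Q, h • ω = ω) ∧ ∀ h ∈ R, h • ω = ω := by
  constructor
  · intro h
    exact ⟨fun q hq => h q (Subgroup.mem_sup_left hq), fun q hq => h q (Subgroup.mem_sup_right hq)⟩
  · rintro ⟨h1, h2⟩ q hq
    have hle : Q ⊔ R ≤ stabilizer H ω := by
      refine sup_le ?_ ?_
      · intro a ha
        exact h1 a ha
      · intro a ha
        exact h2 a ha
    exact hle hq

/-- the frame of a split Brauer quotient on the fixed points -/
theorem frame_quot {ℓ : ℕ} [Fact ℓ.Prime] {F V M N : Type} [Field F] [CharP F ℓ] [CommGroup V]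
    [Finite V] [AddCommGroup M] [Module F M] [AddCommGroup N] [Module F N]
    (ρ : V →* (M →ₗ[F] M)) (ρ' : V →* (N →ₗ[F] N)) (Q : Subgroup V) (β : M →ₗ[F] N)
    (s : N →ₗ[F] M) (h : BrS ρ ρ' Q β s) (hs : ∀ n, s n ∈ Fx ρ Q)
    (hk : ∀ m ∈ BK ρ Q, β m = 0) {Ω : Type} [Fintype Ω] [MulAction V Ω]
    {b : Ω → M} {c : Ω → (M →ₗ[F] F)} (hfr : IsFr ρ b c) :
    IsFr ρ' (fun ω => by
      classical exact if ω ∈ fp Q Ω then β (b ω) else 0) (fun ω => by
      classical exact if ω ∈ fp Q Ω then c ω ∘ₗ s else 0) := by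
  classical
  have hst : ∀ (v : V) (ω : Ω), v • ω ∈ fp Q Ω ↔ ω ∈ fp Q Ω := by
    intro v ω
    rw [mem_fp, mem_fp]
    constructor
    · intro h1 q hq
      have h2 := h1 q hq
      rw [smul_smul, mul_comm, mul_smul] at h2
      exact smul_left_cancel v h2
    · intro h1 q hq
      rw [smul_smul, mul_comm, mul_smul, h1 q hq]
  refine ⟨?_, ?_, ?_⟩
  · intro v ω
    by_cases hω : ω ∈ fp Q Ω
    · simp only [hst, hω, if_true]
      rw [hfr.1, h.eb]
    · simp only [hst, hω, if_false]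
      rw [map_zero]
  · intro v ω n
    by_cases hω : ω ∈ fp Q Ω
    · simp only [hst, hω, if_true]
      rw [LinearMap.comp_apply, LinearMap.comp_apply, h.es, hfr.2.1]
    · simp only [hst, hω, if_false]
      rfl
  · intro n
    have h1 := frame_sub hfr Q (hs n)
    have h2 := hk _ h1
    rw [map_sub, h.bs, sub_eq_zero] at h2
    rw [map_sum] at h2
    have h3 : ∑ ω, (if ω ∈ fp Q Ω then c ω ∘ₗ s else 0) n • (if ω ∈ fp Q Ω then β (b ω) else 0) =
        ∑ ω ∈ fp Q Ω, β (c ω (s n) • b ω) := by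
      rw [← Finset.sum_filter_add_sum_filter_not Finset.univ (fun ω => ω ∈ fp Q Ω)]
      have h4 : Finset.univ.filter (fun ω => ω ∈ fp Q Ω) = fp Q Ω := by
        ext ω
        simp
      rw [h4]
      have h5 : ∑ ω ∈ Finset.univ.filter (fun ω => ω ∉ fp Q Ω),
          (if ω ∈ fp Q Ω then c ω ∘ₗ s else 0) n • (if ω ∈ fp Q Ω then β (b ω) else 0) = 0 := by
        refine Finset.sum_eq_zero fun ω hω => ?_
        rw [if_neg (Finset.mem_filter.1 hω).2, if_neg (Finset.mem_filter.1 hω).2, smul_zero]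
      rw [h5, add_zero]
      refine Finset.sum_congr rfl fun ω hω => ?_
      rw [if_pos hω, if_pos hω, LinearMap.comp_apply, map_smul]
    exact h3.trans h2.symm

/-- the two Brauer kernels -/
theorem BK_quot {ℓ : ℕ} [Fact ℓ.Prime] {F V M N : Type} [Field F] [CharP F ℓ] [CommGroup V]
    [Finite V] [AddCommGroup M] [Module F M] [AddCommGroup N] [Module F N]
    (ρ : V →* (M →ₗ[F] M)) (ρ' : V →* (N →ₗ[F] N)) (Q R : Subgroup V) (β : M →ₗ[F] N)
    (s : N →ₗ[F] M) (hV : IsPGroup ℓ V) (h : BrS ρ ρ' Q β s) (hs : ∀ n, s n ∈ Fx ρ Q)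
    (hk : ∀ m ∈ BK ρ Q, β m = 0) (hk2 : ∀ m ∈ Fx ρ Q, m - s (β m) ∈ BK ρ Q)
    (hPS : PS (fun _ => True) ρ) (m : M) (hm : m ∈ Fx ρ (Q ⊔ R)) :
    β m ∈ BK ρ' R ↔ m ∈ BK ρ (Q ⊔ R) := by
  classical
  obtain ⟨Ω, _, _, b, c, hfr, -⟩ := hPS
  have hfr' := frame_quot ρ ρ' Q β s h hs hk hfr
  obtain ⟨hmQ, hmR⟩ := (Fx_sup ρ Q R m).1 hm
  have hβm : β m ∈ Fx ρ' R := by
    intro v hv
    rw [← h.eb, hmR v hv]
  rw [frame_iff hfr' R (hV.to_subgroup R) hβm, frame_iff hfr (Q ⊔ R) (hV.to_subgroup _) hm]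
  have hcc : ∀ ω ∈ fp Q Ω, c ω (s (β m)) = c ω m := by
    intro ω hω
    have h1 := frame_BK hfr Q (hV.to_subgroup Q) (hk2 m hmQ) ω ((mem_fp Q Ω ω).1 hω)
    rw [map_sub, sub_eq_zero] at h1
    exact h1.symm
  constructor
  · intro h1 ω hω
    obtain ⟨h2, h3⟩ := (fix_sup Q R ω).1 hω
    have h4 := h1 ω h3
    have h5 : ω ∈ fp Q Ω := (mem_fp Q Ω ω).2 h2
    simp only [h5, if_true] at h4
    rw [LinearMap.comp_apply, hcc ω h5] at h4
    exact h4
  · intro h1 ω hω
    by_cases h5 : ω ∈ fp Q Ω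
    · simp only [h5, if_true]
      rw [LinearMap.comp_apply, hcc ω h5]
      exact h1 ω ((fix_sup Q R ω).2 ⟨(mem_fp Q Ω ω).1 h5, hω⟩)
    · simp only [h5, if_false]
      rfl

/-- row QTR -/
theorem qtr (qal : QalStmt) (qke : QkeStmt) (qcp : QcpStmt) (qis : QisStmt) : QtrStmt := by
  intro ℓ _ F V _ _ _ _ X Y Z Q R hV hX hXY hXZ
  have hY : CP Y := (qcp F V).2.2.1 X Y Q hXY hX
  obtain ⟨Z', hZ'⟩ := qal ℓ F V Y hV hY R
  have hZ'' := hZ'
  obtain ⟨β, s, hb⟩ := hXY
  obtain ⟨β₂, s₂, hb₂⟩ := hXZ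
  obtain ⟨β₃, s₃, hb₃⟩ := hZ'
  obtain ⟨k1, k2, k3⟩ := qke ℓ F V _ _ _ _ Q β s hV hb.toBrS
  obtain ⟨l1, l2, l3⟩ := qke ℓ F V _ _ _ _ (Q ⊔ R) β₂ s₂ hV hb₂.toBrS
  obtain ⟨m1, m2, m3⟩ := qke ℓ F V _ _ _ _ R β₃ s₃ hV hb₃.toBrS
  have hβFx : ∀ x ∈ Fx (cj F X.ι) (Q ⊔ R), β x ∈ Fx (cj F Y.ι) R := by
    intro x hx v hv
    rw [← hb.eb, hx v (Subgroup.mem_sup_right hv)]
  have hsFx : ∀ y ∈ Fx (cj F Y.ι) R, s y ∈ Fx (cj F X.ι) (Q ⊔ R) := by
    intro y hy
    rw [Fx_sup]
    refine ⟨k1 y, fun v hv => ?_⟩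
    rw [← hb.es, hy v hv]
  have hker : ∀ x ∈ Fx (cj F X.ι) (Q ⊔ R), β₃ (β x) = 0 ↔ β₂ x = 0 := by
    intro x hx
    rw [m2 _ (hβFx x hx), l2 x hx]
    exact BK_quot (cj F X.ι) (cj F Y.ι) Q R β s hV hb.toBrS k1 (fun m hm =>
      (k2 m (BK_le_Fx _ _ hm)).2 hm) k3 hX x hx
  have hQ : ∀ x ∈ Fx (cj F X.ι) (Q ⊔ R), x ∈ Fx (cj F X.ι) Q := fun x hx =>
    ((Fx_sup _ Q R x).1 hx).1
  -- the map
  let e : Z'.A →ₗ[F] Z.A := β₂ ∘ₗ s ∘ₗ s₃
  let e' : Z.A →ₗ[F] Z'.A := β₃ ∘ₗ β ∘ₗ s₂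
  have hsur : ∀ z : Z'.A, β₃ (β (s (s₃ z))) = z := by
    intro z
    rw [hb.bs, hb₃.bs]
  have hzFx : ∀ z : Z'.A, s (s₃ z) ∈ Fx (cj F X.ι) (Q ⊔ R) := fun z => hsFx _ (m1 z)
  have he : ∀ x ∈ Fx (cj F X.ι) (Q ⊔ R), e (β₃ (β x)) = β₂ x := by
    intro x hx
    have h1 : s (s₃ (β₃ (β x))) - x ∈ Fx (cj F X.ι) (Q ⊔ R) := Submodule.sub_mem _ (hzFx _) hx
    have h2 : β₃ (β (s (s₃ (β₃ (β x))) - x)) = 0 := by
      rw [map_sub, map_sub, hsur, sub_self]
    have h3 := (hker _ h1).1 h2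
    rw [map_sub, sub_eq_zero] at h3
    exact h3
  have he' : ∀ x ∈ Fx (cj F X.ι) (Q ⊔ R), e' (β₂ x) = β₃ (β x) := by
    intro x hx
    have h1 : s₂ (β₂ x) - x ∈ Fx (cj F X.ι) (Q ⊔ R) := Submodule.sub_mem _ (l1 _) hx
    have h2 : β₂ (s₂ (β₂ x) - x) = 0 := by
      rw [map_sub, hb₂.bs, sub_self]
    have h3 := (hker _ h1).2 h2
    rw [map_sub, map_sub, sub_eq_zero] at h3
    exact h3
  have hmulFx : ∀ x ∈ Fx (cj F X.ι) (Q ⊔ R), ∀ y ∈ Fx (cj F X.ι) (Q ⊔ R),
      x * y ∈ Fx (cj F X.ι) (Q ⊔ R) := by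
    intro x hx y hy
    rw [mem_Fx_cj] at hx hy ⊢
    intro v hv
    rw [← mul_assoc, hx v hv, mul_assoc, hy v hv, mul_assoc]
  have hιFx : ∀ (v : V) (P : Subgroup V), X.ι v ∈ Fx (cj F X.ι) P := by
    intro v P
    rw [mem_Fx_cj]
    intro u _
    rw [← map_mul, ← map_mul, mul_comm]
  have hmul : ∀ z z' : Z'.A, e (z * z') = e z * e z' := by
    intro z z'
    have h1 : z * z' = β₃ (β (s (s₃ z) * s (s₃ z'))) := by
      rw [hb.mul _ (hQ _ (hzFx z)) _ (hQ _ (hzFx z')),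
        hb₃.mul _ (hβFx _ (hzFx z)) _ (hβFx _ (hzFx z')), hsur, hsur]
    rw [h1, he _ (hmulFx _ (hzFx z) _ (hzFx z')), hb₂.mul _ (hzFx z) _ (hzFx z')]
    rfl
  have hι : ∀ v, e (Z'.ι v) = Z.ι v := by
    intro v
    have h1 : Z'.ι v = β₃ (β (X.ι v)) := by rw [hb.cov, hb₃.cov]
    rw [h1, he _ (hιFx v _), hb₂.cov]
  have hone : e 1 = 1 := by
    have h1 := hι 1
    rw [map_one Z'.ι, map_one Z.ι] at h1
    exact h1
  have hinv1 : ∀ z, e (e' z) = z := by
    intro z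
    change e (β₃ (β (s₂ z))) = z
    rw [he _ (l1 z), hb₂.bs]
  have hinv2 : ∀ z, e' (e z) = z := by
    intro z
    change e' (β₂ (s (s₃ z))) = z
    rw [he' _ (hzFx z), hsur]
  have hIso : Iso Z' Z := by
    refine ⟨AlgEquiv.ofLinearEquiv (LinearEquiv.ofLinearMap e e' ?_ ?_) hone hmul, hι⟩
    · apply LinearMap.ext
      intro z
      exact hinv1 z
    · apply LinearMap.ext
      intro z
      exact hinv2 z
  obtain ⟨irefl, -, -, ibq, -⟩ := qis F V
  exact ibq Y Y Z' Z R (irefl Y) hIso hZ''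

end Pool.Agent.PFC.H81
end -- Pool.Agent.Helper81_PFC.QTR

section -- Pool.Agent.Helper9_PFC.QVP

/-!
# Squad PFC, row QVP: the `V × V`-structure of `S ⊗ X`
-/

open scoped BigOperators TensorProduct

noncomputable section

namespace Pool.Agent.PFC.H9Q

open MulAction

theorem bi_apply {F V A : Type} [Field F] [Group V] [Ring A] [Algebra F A] (α : V →* A)
    (h : V × V) (a : A) : bi F α h a = α h.1 * (a * α h.2⁻¹) := rfl

theorem cj_apply {F V A : Type} [Field F] [Group V] [Ring A] [Algebra F A] (α : V →* A)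
    (v : V) (a : A) : cj F α v a = α v * (a * α v⁻¹) := rfl

/-- a choice of representatives of the orbits -/
theorem exists_rep (H Ω : Type) [Group H] [MulAction H Ω] :
    ∃ rep : Ω → Ω, (∀ (g : H) ω, rep (g • ω) = rep ω) ∧ ∀ ω, ∃ g : H, g • rep ω = ω := by
  refine ⟨fun ω => (Quotient.mk (orbitRel H Ω) ω).out, ?_, ?_⟩
  · intro g ω
    apply congrArg Quotient.out
    apply Quotient.sound
    exact ⟨g, rfl⟩
  · intro ω
    obtain ⟨g, hg⟩ := Quotient.mk_out (s := orbitRel H Ω) ω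
    refine ⟨g⁻¹, ?_⟩
    change g⁻¹ • (Quotient.mk (orbitRel H Ω) ω).out = ω
    rw [← hg]
    exact inv_smul_smul g ω

theorem mem_tw {V : Type} [Group V] (φ : V →* V) (R : Subgroup V) (h : V × V) :
    h ∈ tw φ R ↔ h.2 ∈ R ∧ h.1 = φ h.2 := by
  unfold tw
  constructor
  · rintro ⟨r, hr, rfl⟩
    exact ⟨hr, rfl⟩
  · rintro ⟨h1, h2⟩
    refine ⟨h.2, h1, ?_⟩
    apply Prod.ext
    · exact h2.symm
    · rfl

/-- The functions `σ` and `d`. -/
theorem exists_d {V E Ω : Type} [CommGroup V] [Group E] (φ : E →* MulAut V)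
    [MulAction (V × V) Ω]
    (hΩ : ∀ ω : Ω, ∃ (e : E) (R : Subgroup V),
      stabilizer (V × V) ω = tw (φ e).toMonoidHom R) :
    ∃ (e : Ω → E) (R : Ω → Subgroup V) (d : Ω → V),
      (∀ (h : V × V) ω, e (h • ω) = e ω) ∧
      (∀ ω, stabilizer (V × V) ω = tw (φ (e ω)).toMonoidHom (R ω)) ∧
      ∀ (h : V × V) ω, d (h • ω) = h.1 * d ω * (φ (e ω) h.2)⁻¹ := by
  obtain ⟨rep, hrep, hg⟩ := exists_rep (V × V) Ω
  choose g hg using hg
  choose e0 R0 h0 using hΩ
  have hcomm : ∀ (a b : V × V), a * b = b * a := fun a b => mul_comm a b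
  have hst : ∀ ω (h : V × V), h • ω = ω ↔ h • rep ω = rep ω := by
    intro ω h
    conv_lhs => rw [← hg ω]
    rw [← mul_smul, hcomm, mul_smul]
    constructor
    · intro h1
      exact smul_left_cancel _ h1
    · intro h1
      rw [h1]
  have hwell : ∀ ω (h : V × V), h • rep ω = rep ω → h.1 = φ (e0 (rep ω)) h.2 := by
    intro ω h hh
    have h1 : h ∈ stabilizer (V × V) (rep ω) := hh
    rw [h0, mem_tw] at h1
    exact h1.2
  refine ⟨fun ω => e0 (rep ω), fun ω => R0 (rep ω),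
    fun ω => (g ω).1 * (φ (e0 (rep ω)) (g ω).2)⁻¹, ?_, ?_, ?_⟩
  · intro h ω
    exact congrArg e0 (hrep h ω)
  · intro ω
    rw [← h0 (rep ω)]
    ext h
    exact hst ω h
  · intro h ω
    have h1 : ((h * g ω)⁻¹ * g (h • ω)) • rep ω = rep ω := by
      have h2 := hg (h • ω)
      rw [hrep] at h2
      rw [mul_smul, h2, inv_smul_eq_iff, mul_smul, hg]
    have h3 := hwell ω _ h1
    have h4 : (g (h • ω)).1 = (h * g ω).1 * φ (e0 (rep ω)) ((h * g ω)⁻¹ * g (h • ω)).2 := by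
      rw [← h3]
      change (g (h • ω)).1 = (h * g ω).1 * (((h * g ω).1)⁻¹ * (g (h • ω)).1)
      rw [mul_inv_cancel_left]
    change (g (h • ω)).1 * (φ (e0 (rep (h • ω))) (g (h • ω)).2)⁻¹ =
      h.1 * ((g ω).1 * (φ (e0 (rep ω)) (g ω).2)⁻¹) * (φ (e0 (rep ω)) h.2)⁻¹
    rw [hrep, h4, Prod.snd_mul, Prod.snd_inv, Prod.snd_mul, Prod.fst_mul, map_mul, map_inv,
      map_mul, mul_inv]
    rw [← mul_assoc, mul_assoc (h.1 * (g ω).1 * _), mul_inv_cancel, mul_one]
    rw [← mul_assoc h.1, mul_assoc (h.1 * (g ω).1), mul_comm ((φ (e0 (rep ω))) h.2)⁻¹]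

/-- The frame of the tensor product. -/
theorem main {F V E A B : Type} [Field F] [CommGroup V] [Group E] [Ring A] [Algebra F A]
    [Ring B] [Algebra F B] (φ : E →* MulAut V) (α : V →* A) (β : V →* B)
    (τ : V →* A ⊗[F] B) (hτ : ∀ v, τ v = α v ⊗ₜ[F] β v)
    (hS : PS (fun _ => True) (cj F α))
    (hR : ∀ e, ∃ y : Aˣ, ∀ v, (y : A) * α v = α (φ e v) * y)
    (hX : PS (fun K => ∃ (e : E) (R : Subgroup V), K = tw (φ e).toMonoidHom R) (bi F β)) :
    PS (fun K => ∃ (e : E) (R : Subgroup V), K = tw (φ e).toMonoidHom R) (bi F τ) := by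
  obtain ⟨ΩS, fS, aS, b, c, ⟨hb, hc, hbc⟩, -⟩ := hS
  obtain ⟨Ω, fΩ, aΩ, b', c', ⟨hb', hc', hbc'⟩, hst⟩ := hX
  obtain ⟨e, R, d, he, hstab, hd⟩ := exists_d φ hst
  choose y hy using hR
  have hy' : ∀ e v, ((y e)⁻¹ : Aˣ) * α (φ e v) = α v * ((y e)⁻¹ : Aˣ) := by
    intro e v
    rw [Units.inv_mul_eq_iff_eq_mul, ← mul_assoc, hy, mul_assoc, Units.mul_inv, mul_one]
  let act : MulAction (V × V) (ΩS × Ω) :=
    { smul := fun g p => (g.2 • p.1, g • p.2)
      one_smul := by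
        rintro ⟨k, ω⟩
        change (((1 : V × V).2 • k), ((1 : V × V) • ω)) = (k, ω)
        rw [Prod.snd_one, one_smul, one_smul]
      mul_smul := by
        rintro g h ⟨k, ω⟩
        change ((g * h).2 • k, (g * h) • ω) = (g.2 • h.2 • k, g • h • ω)
        rw [Prod.snd_mul, mul_smul, mul_smul] }
  let Bv : ΩS × Ω → A ⊗[F] B := fun p =>
    (α (d p.2) * (y (e p.2) : A) * b p.1) ⊗ₜ[F] b' p.2
  let Cf : ΩS × Ω → (A ⊗[F] B →ₗ[F] F) := fun p =>
    (LinearMap.mul' F F) ∘ₗ TensorProduct.map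
      (c p.1 ∘ₗ LinearMap.mulLeft F ((((y (e p.2))⁻¹ : Aˣ) : A) * α (d p.2)⁻¹)) (c' p.2)
  have hCf : ∀ p s a, Cf p (s ⊗ₜ[F] a) =
      c p.1 ((((y (e p.2))⁻¹ : Aˣ) : A) * α (d p.2)⁻¹ * s) * c' p.2 a := fun p s a => rfl
  have hbi : ∀ (h : V × V) (s : A) (a : B), bi F τ h (s ⊗ₜ[F] a) =
      (α h.1 * (s * α h.2⁻¹)) ⊗ₜ[F] (β h.1 * (a * β h.2⁻¹)) := by
    intro h s a
    rw [bi_apply, hτ, hτ, Algebra.TensorProduct.tmul_mul_tmul,
      Algebra.TensorProduct.tmul_mul_tmul]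
  refine ⟨ΩS × Ω, inferInstance, act, Bv, Cf, ⟨?_, ?_, ?_⟩, ?_⟩
  · rintro ⟨u, v⟩ ⟨k, ω⟩
    change (α (d ((u, v) • ω)) * (y (e ((u, v) • ω)) : A) * b (v • k)) ⊗ₜ[F]
      b' ((u, v) • ω) = bi F τ (u, v) ((α (d ω) * (y (e ω) : A) * b k) ⊗ₜ[F] b' ω)
    rw [hbi, he, hd, hb, hb', cj_apply, bi_apply]
    congr 1
    calc α (u * d ω * (φ (e ω) v)⁻¹) * (y (e ω) : A) * (α v * (b k * α v⁻¹))
        = α (u * d ω * (φ (e ω) v)⁻¹) * ((y (e ω) : A) * α v) * (b k * α v⁻¹) := by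
          simp only [mul_assoc]
      _ = α (u * d ω * (φ (e ω) v)⁻¹ * (φ (e ω) v)) * (y (e ω) : A) * (b k * α v⁻¹) := by
          rw [hy, map_mul α _ (φ (e ω) v)]
          simp only [mul_assoc]
      _ = α u * (α (d ω) * (y (e ω) : A) * b k * α v⁻¹) := by
          rw [inv_mul_cancel_right, map_mul]
          simp only [mul_assoc]
  · rintro ⟨u, v⟩ ⟨k, ω⟩ m
    change Cf (v • k, (u, v) • ω) (bi F τ (u, v) m) = Cf (k, ω) m
    induction m using TensorProduct.induction_on with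
    | zero => rw [map_zero, map_zero, map_zero]
    | tmul s a =>
      rw [hbi, hCf, hCf]
      change c (v • k) ((((y (e ((u, v) • ω)))⁻¹ : Aˣ) : A) * α (d ((u, v) • ω))⁻¹ *
        (α u * (s * α v⁻¹))) * c' ((u, v) • ω) (bi F β (u, v) a) = _
      rw [hc', he, hd]
      congr 1
      rw [← hc v k, cj_apply]
      congr 1
      have h1 : (u * d ω * (φ (e ω) v)⁻¹)⁻¹ = φ (e ω) v * (d ω)⁻¹ * u⁻¹ := by
        rw [mul_inv, inv_inv, mul_inv, mul_comm, mul_comm u⁻¹, mul_assoc]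
      change ((((y (e ω))⁻¹ : Aˣ) : A) * α (u * d ω * (φ (e ω) v)⁻¹)⁻¹ *
        (α u * (s * α v⁻¹))) = _
      rw [h1]
      calc ((((y (e ω))⁻¹ : Aˣ) : A) * α (φ (e ω) v * (d ω)⁻¹ * u⁻¹) * (α u * (s * α v⁻¹)))
          = ((((y (e ω))⁻¹ : Aˣ) : A) * α (φ (e ω) v)) * α ((d ω)⁻¹) * (α (u⁻¹ * u)) *
              (s * α v⁻¹) := by
            rw [map_mul, map_mul, map_mul]
            simp only [mul_assoc]
        _ = α v * ((((y (e ω))⁻¹ : Aˣ) : A) * α (d ω)⁻¹ * s * α v⁻¹) := by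
            rw [hy', inv_mul_cancel, map_one, mul_one]
            simp only [mul_assoc]
    | add x z hx hz => rw [map_add, map_add, map_add, hx, hz]
  · intro m
    induction m using TensorProduct.induction_on with
    | zero =>
      apply Finset.sum_eq_zero
      intro p _
      rw [map_zero, zero_smul]
    | tmul s a =>
      rw [Fintype.sum_prod_type_right]
      have h1 : ∀ ω, ∑ k, Cf (k, ω) (s ⊗ₜ[F] a) • Bv (k, ω) = s ⊗ₜ[F] (c' ω a • b' ω) := by
        intro ω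
        have h2 : ∀ k, Cf (k, ω) (s ⊗ₜ[F] a) • Bv (k, ω) =
            (α (d ω) * (y (e ω) : A) *
              (c k ((((y (e ω))⁻¹ : Aˣ) : A) * α (d ω)⁻¹ * s) • b k)) ⊗ₜ[F]
              (c' ω a • b' ω) := by
          intro k
          rw [hCf]
          change (c k ((((y (e ω))⁻¹ : Aˣ) : A) * α (d ω)⁻¹ * s) * c' ω a) •
            ((α (d ω) * (y (e ω) : A) * b k) ⊗ₜ[F] b' ω) = _
          rw [mul_smul_comm, TensorProduct.tmul_smul, ← TensorProduct.smul_tmul',
            mul_comm (c k _), mul_smul]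
        rw [Finset.sum_congr rfl fun k _ => h2 k, ← TensorProduct.sum_tmul,
          ← Finset.mul_sum, hbc]
        congr 1
        calc α (d ω) * (y (e ω) : A) * ((((y (e ω))⁻¹ : Aˣ) : A) * α (d ω)⁻¹ * s)
            = α (d ω) * ((y (e ω) : A) * (((y (e ω))⁻¹ : Aˣ) : A)) * α (d ω)⁻¹ * s := by
              simp only [mul_assoc]
          _ = s := by
              rw [Units.mul_inv, mul_one, ← map_mul, mul_inv_cancel, map_one, one_mul]
      rw [Finset.sum_congr rfl fun ω _ => h1 ω, ← TensorProduct.tmul_sum, hbc']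
    | add x z hx hz =>
      have h1 : ∀ p, Cf p (x + z) • Bv p = Cf p x • Bv p + Cf p z • Bv p := by
        intro p
        rw [map_add, add_smul]
      rw [Finset.sum_congr rfl fun p _ => h1 p, Finset.sum_add_distrib, hx, hz]
  · rintro ⟨k, ω⟩
    refine ⟨e ω, R ω ⊓ stabilizer V k, ?_⟩
    ext h
    rw [mem_tw, Subgroup.mem_inf]
    have h1 : h ∈ @stabilizer (V × V) (ΩS × Ω) _ act (k, ω) ↔ (h.2 • k = k ∧ h • ω = ω) := by
      change (h.2 • k, h • ω) = (k, ω) ↔ _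
      rw [Prod.mk.injEq]
    rw [h1]
    have h2 : h • ω = ω ↔ h ∈ stabilizer (V × V) ω := Iff.rfl
    rw [h2, hstab, mem_tw]
    have h3 : h.2 ∈ stabilizer V k ↔ h.2 • k = k := Iff.rfl
    rw [h3]
    tauto

/-- Row QVP. -/
theorem qvp : QvpStmt := by
  intro F V E _ _ _ _ φ S X hS hR hX
  exact main φ S.ι X.ι (S.tens X).ι (fun _ => rfl) hS hR hX

end Pool.Agent.PFC.H9Q
end
end -- Pool.Agent.Helper9_PFC.QVP

section -- Pool.Agent.PFC.B4.Qte_helper65

/-!
# Squad PFC, block B4b, row QTE: tensor products of Brauer quotients of algebras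
-/

set_option autoImplicit false

open scoped BigOperators TensorProduct

namespace Pool.Agent.PFC.H65

section ideal
variable {F V A : Type} [Field F] [CommGroup V] [Ring A] [Algebra F A] (α : V →* A)

theorem cj_apply (v : V) (a : A) : cj F α v a = α v * (a * α v⁻¹) := rfl

theorem cj_mul (v : V) (a b : A) : cj F α v (a * b) = cj F α v a * cj F α v b := by
  have h : α v⁻¹ * α v = 1 := by rw [← map_mul, inv_mul_cancel, map_one]
  rw [cj_apply, cj_apply, cj_apply]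
  calc α v * (a * b * α v⁻¹) = α v * a * (1 * (b * α v⁻¹)) := by rw [one_mul]; simp only [mul_assoc]
    _ = α v * a * ((α v⁻¹ * α v) * (b * α v⁻¹)) := by rw [h]
    _ = α v * (a * α v⁻¹) * (α v * (b * α v⁻¹)) := by simp only [mul_assoc]

theorem fx_mul {Q : Subgroup V} {a b : A} (ha : a ∈ Fx (cj F α) Q) (hb : b ∈ Fx (cj F α) Q) :
    a * b ∈ Fx (cj F α) Q := by
  intro v hv
  rw [cj_mul, ha v hv, hb v hv]

theorem bk_mul_left {Q : Subgroup V} {a z : A} (ha : a ∈ Fx (cj F α) Q)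
    (hz : z ∈ BK (cj F α) Q) : a * z ∈ BK (cj F α) Q := by
  refine Submodule.span_induction (p := fun z _ => a * z ∈ BK (cj F α) Q) ?_ ?_ ?_ ?_ hz
  · rintro n ⟨P', S, m, hP, hS, hm, rfl⟩
    apply Submodule.subset_span
    refine ⟨P', S, a * m, hP, hS, fx_mul α (fun v hv => ha v (hP.le hv)) hm, ?_⟩
    rw [Finset.mul_sum]
    refine Finset.sum_congr rfl fun x hx => ?_
    rw [cj_mul, ha x (hS.1 x hx)]
  · rw [mul_zero]
    exact Submodule.zero_mem _
  · intro b c _ _ hb hc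
    rw [mul_add]
    exact Submodule.add_mem _ hb hc
  · intro c b _ hb
    rw [mul_smul_comm]
    exact Submodule.smul_mem _ c hb

theorem bk_mul_right {Q : Subgroup V} {a z : A} (ha : a ∈ Fx (cj F α) Q)
    (hz : z ∈ BK (cj F α) Q) : z * a ∈ BK (cj F α) Q := by
  refine Submodule.span_induction (p := fun z _ => z * a ∈ BK (cj F α) Q) ?_ ?_ ?_ ?_ hz
  · rintro n ⟨P', S, m, hP, hS, hm, rfl⟩
    apply Submodule.subset_span
    refine ⟨P', S, m * a, hP, hS, fx_mul α hm (fun v hv => ha v (hP.le hv)), ?_⟩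
    rw [Finset.sum_mul]
    refine Finset.sum_congr rfl fun x hx => ?_
    rw [cj_mul, ha x (hS.1 x hx)]
  · rw [zero_mul]
    exact Submodule.zero_mem _
  · intro b c _ _ hb hc
    rw [add_mul]
    exact Submodule.add_mem _ hb hc
  · intro c b _ hb
    rw [smul_mul_assoc]
    exact Submodule.smul_mem _ c hb

end ideal

theorem cj_tens {F V : Type} [Field F] [CommGroup V] (X Y : IA F V) :
    cj F (X.tens Y).ι = tns (cj F X.ι) (cj F Y.ι) := by
  apply MonoidHom.ext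
  intro v
  apply TensorProduct.ext'
  intro a b
  show ((X.ι v ⊗ₜ[F] Y.ι v : X.A ⊗[F] Y.A)) * ((a ⊗ₜ[F] b) * (X.ι v⁻¹ ⊗ₜ[F] Y.ι v⁻¹)) =
    (X.ι v * (a * X.ι v⁻¹)) ⊗ₜ[F] (Y.ι v * (b * Y.ι v⁻¹))
  rw [Algebra.TensorProduct.tmul_mul_tmul, Algebra.TensorProduct.tmul_mul_tmul]

theorem qte (hT : QtmStmt) (hK : QkeStmt) : QteStmt := by
  intro ℓ _ F V _ _ _ _ X Y X' Y' Q β s β' s' hV hX hX'
  obtain ⟨hX1, hX2, hX3⟩ := hK ℓ F V X.A Y.A (cj F X.ι) (cj F Y.ι) Q β s hV hX.toBrS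
  obtain ⟨hX1', hX2', hX3'⟩ := hK ℓ F V X'.A Y'.A (cj F X'.ι) (cj F Y'.ι) Q β' s' hV hX'.toBrS
  have hB0 := hT F V X.A Y.A X'.A Y'.A (cj F X.ι) (cj F Y.ι) (cj F X'.ι) (cj F Y'.ι) Q β s β' s'
    hX.toBrS hX'.toBrS
  have hB : BrS (cj F (X.tens X').ι) (cj F (Y.tens Y').ι) Q
      (TensorProduct.map β β' : X.A ⊗[F] X'.A →ₗ[F] Y.A ⊗[F] Y'.A)
      (TensorProduct.map s s' : Y.A ⊗[F] Y'.A →ₗ[F] X.A ⊗[F] X'.A) := by
    rw [cj_tens X X', cj_tens Y Y']
    exact hB0
  obtain ⟨hZ1, hZ2, hZ3⟩ := hK ℓ F V (X.tens X').A (Y.tens Y').A (cj F (X.tens X').ι)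
    (cj F (Y.tens Y').ι) Q (TensorProduct.map β β') (TensorProduct.map s s') hV hB
  -- multiplicativity on the products of fixed vectors
  have hmul : ∀ u w : Y.A ⊗[F] Y'.A,
      (TensorProduct.map β β' : X.A ⊗[F] X'.A →ₗ[F] Y.A ⊗[F] Y'.A)
        ((TensorProduct.map s s' : Y.A ⊗[F] Y'.A →ₗ[F] X.A ⊗[F] X'.A) u *
          (TensorProduct.map s s' : Y.A ⊗[F] Y'.A →ₗ[F] X.A ⊗[F] X'.A) w) = u * w := by
    intro u w
    induction u using TensorProduct.induction_on with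
    | zero => rw [map_zero, zero_mul, map_zero, zero_mul]
    | add u1 u2 h1 h2 => rw [map_add, add_mul, map_add, h1, h2, add_mul]
    | tmul y y' =>
      induction w using TensorProduct.induction_on with
      | zero => rw [map_zero, mul_zero, map_zero, mul_zero]
      | add w1 w2 h1 h2 => rw [map_add, mul_add, map_add, h1, h2, mul_add]
      | tmul z z' =>
        rw [TensorProduct.map_tmul, TensorProduct.map_tmul, Algebra.TensorProduct.tmul_mul_tmul,
          TensorProduct.map_tmul, Algebra.TensorProduct.tmul_mul_tmul,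
          hX.mul _ (hX1 y) _ (hX1 z), hX'.mul _ (hX1' y') _ (hX1' z'), hX.bs, hX.bs, hX'.bs,
          hX'.bs]
  refine { toBrS := hB, mul := ?_, cov := ?_ }
  · intro t ht t' ht'
    have hz := hZ3 t ht
    have hz' := hZ3 t' ht'
    have hS := hZ1 ((TensorProduct.map β β' : X.A ⊗[F] X'.A →ₗ[F] Y.A ⊗[F] Y'.A) t)
    have h1 := bk_mul_right (X.tens X').ι ht' hz
    have h2 := bk_mul_left (X.tens X').ι hS hz'
    have h3 := (hZ2 _ (BK_le_Fx _ _ h1)).2 h1
    have h4 := (hZ2 _ (BK_le_Fx _ _ h2)).2 h2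
    have h5 := hmul ((TensorProduct.map β β' : X.A ⊗[F] X'.A →ₗ[F] Y.A ⊗[F] Y'.A) t)
      ((TensorProduct.map β β' : X.A ⊗[F] X'.A →ₗ[F] Y.A ⊗[F] Y'.A) t')
    rw [sub_mul, map_sub, sub_eq_zero] at h3
    rw [mul_sub, map_sub, sub_eq_zero] at h4
    exact h3.trans (h4.trans h5)
  · intro v
    show (TensorProduct.map β β' : X.A ⊗[F] X'.A →ₗ[F] Y.A ⊗[F] Y'.A) (X.ι v ⊗ₜ[F] X'.ι v) =
      Y.ι v ⊗ₜ[F] Y'.ι v
    rw [TensorProduct.map_tmul, hX.cov, hX'.cov]

end Pool.Agent.PFC.H65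
end -- Pool.Agent.PFC.B4.Qte_helper65

section -- Pool.Agent.Helper72_PFC.QRE

/-! QRE: `S ⊗ S^op` has the trivial summand. -/

set_option autoImplicit false

open scoped BigOperators TensorProduct

noncomputable section

namespace Pool.Agent.PFC.H72

open Pool.Agent.PFC MulOpposite

section

variable {F A : Type} [Field F] [Ring A] [Algebra F A] {n : ℕ}
  (e : A ≃ₐ[F] Matrix (Fin n) (Fin n) F)

/-- matrix units -/
def mu (k l : Fin n) : A := e.symm (Matrix.single k l 1)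

theorem mu_mul (k l p q : Fin n) : mu e k l * mu e p q = if l = p then mu e k q else 0 := by
  unfold mu
  rw [← map_mul]
  split_ifs with h
  · subst h
    rw [Matrix.single_mul_single_same, one_mul]
  · rw [Matrix.single_mul_single_of_ne _ _ _ _ h, map_zero]

theorem mu_sum (a : A) : a = ∑ p, ∑ q, (e a p q) • mu e p q := by
  apply e.injective
  conv_lhs => rw [Matrix.matrix_eq_sum_single (e a)]
  rw [map_sum]
  refine Finset.sum_congr rfl fun p _ => ?_
  rw [map_sum]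
  refine Finset.sum_congr rfl fun q _ => ?_
  rw [map_smul, mu, AlgEquiv.apply_symm_apply, Matrix.smul_single, smul_eq_mul, mul_one]

/-- the Casimir element -/
def p0 : A ⊗[F] Aᵐᵒᵖ := ∑ k, ∑ l, mu e k l ⊗ₜ[F] op (mu e l k)

theorem ext_of {N : Type} [AddCommGroup N] [Module F N] (f g : A →ₗ[F] N)
    (h : ∀ p q, f (mu e p q) = g (mu e p q)) : f = g := by
  ext a
  rw [mu_sum e a]
  simp only [map_sum, map_smul, h]

theorem left_cas (a : A) : (a ⊗ₜ[F] (1 : Aᵐᵒᵖ)) * p0 e = ((1 : A) ⊗ₜ[F] op a) * p0 e := by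
  let f : A →ₗ[F] A ⊗[F] Aᵐᵒᵖ :=
    (LinearMap.mulRight F (p0 e)) ∘ₗ ((TensorProduct.mk F A Aᵐᵒᵖ).flip 1)
  let g : A →ₗ[F] A ⊗[F] Aᵐᵒᵖ :=
    (LinearMap.mulRight F (p0 e)) ∘ₗ ((TensorProduct.mk F A Aᵐᵒᵖ) 1) ∘ₗ
      (opLinearEquiv F : A ≃ₗ[F] Aᵐᵒᵖ).toLinearMap
  have h : f = g := by
    refine ext_of e f g fun p q => ?_
    show (mu e p q ⊗ₜ[F] (1 : Aᵐᵒᵖ)) * p0 e = ((1 : A) ⊗ₜ[F] op (mu e p q)) * p0 e
    unfold p0
    simp only [Finset.mul_sum, Algebra.TensorProduct.tmul_mul_tmul, one_mul, ← op_mul, mu_mul]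
    rw [Finset.sum_eq_single q]
    · rw [Finset.sum_eq_single p (f := fun k => ∑ l, mu e k l ⊗ₜ[F] op
        (if k = p then mu e l q else 0))]
      · simp
      · intro k _ hk
        simp [hk]
      · simp
    · intro k _ hk
      simp [Ne.symm hk]
    · simp
  exact LinearMap.congr_fun h a

theorem right_cas (a : A) : p0 e * (a ⊗ₜ[F] (1 : Aᵐᵒᵖ)) = p0 e * ((1 : A) ⊗ₜ[F] op a) := by
  let f : A →ₗ[F] A ⊗[F] Aᵐᵒᵖ :=
    (LinearMap.mulLeft F (p0 e)) ∘ₗ ((TensorProduct.mk F A Aᵐᵒᵖ).flip 1)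
  let g : A →ₗ[F] A ⊗[F] Aᵐᵒᵖ :=
    (LinearMap.mulLeft F (p0 e)) ∘ₗ ((TensorProduct.mk F A Aᵐᵒᵖ) 1) ∘ₗ
      (opLinearEquiv F : A ≃ₗ[F] Aᵐᵒᵖ).toLinearMap
  have h : f = g := by
    refine ext_of e f g fun p q => ?_
    show p0 e * (mu e p q ⊗ₜ[F] (1 : Aᵐᵒᵖ)) = p0 e * ((1 : A) ⊗ₜ[F] op (mu e p q))
    unfold p0
    simp only [Finset.sum_mul, Algebra.TensorProduct.tmul_mul_tmul, mul_one, ← op_mul, mu_mul]
    refine Finset.sum_congr rfl fun k _ => ?_
    rw [Finset.sum_eq_single p]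
    · rw [Finset.sum_eq_single q (f := fun l => mu e k l ⊗ₜ[F] op
        (if q = l then mu e p k else 0))]
      · simp
      · intro l _ hl
        simp [Ne.symm hl]
      · simp
    · intro l _ hl
      simp [hl]
    · simp
  exact LinearMap.congr_fun h a

/-- the trace -/
def trA : A →ₗ[F] F := (Matrix.traceLinearMap (Fin n) F F) ∘ₗ e.toLinearMap

theorem trA_mu (p q : Fin n) : trA e (mu e p q) = if p = q then 1 else 0 := by
  show Matrix.trace (e (mu e p q)) = _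
  rw [mu, AlgEquiv.apply_symm_apply]
  split_ifs with h
  · subst h
    simp
  · exact Matrix.trace_single_eq_of_ne _ _ _ h

theorem mid (b : A) : p0 e * ((1 : A) ⊗ₜ[F] op b) * p0 e = trA e b • p0 e := by
  let f : A →ₗ[F] A ⊗[F] Aᵐᵒᵖ :=
    (LinearMap.mulRight F (p0 e)) ∘ₗ (LinearMap.mulLeft F (p0 e)) ∘ₗ
      ((TensorProduct.mk F A Aᵐᵒᵖ) 1) ∘ₗ (opLinearEquiv F : A ≃ₗ[F] Aᵐᵒᵖ).toLinearMap
  let g : A →ₗ[F] A ⊗[F] Aᵐᵒᵖ := (trA e).smulRight (p0 e)
  have h : f = g := by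
    refine ext_of e f g fun p q => ?_
    show p0 e * ((1 : A) ⊗ₜ[F] op (mu e p q)) * p0 e = trA e (mu e p q) • p0 e
    rw [trA_mu]
    have h1 : p0 e * ((1 : A) ⊗ₜ[F] op (mu e p q)) = ∑ k, mu e k q ⊗ₜ[F] op (mu e p k) := by
      unfold p0
      simp only [Finset.sum_mul, Algebra.TensorProduct.tmul_mul_tmul, mul_one, ← op_mul, mu_mul]
      refine Finset.sum_congr rfl fun k _ => ?_
      rw [Finset.sum_eq_single q (f := fun l => mu e k l ⊗ₜ[F] op
        (if q = l then mu e p k else 0))]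
      · simp
      · intro l _ hl
        simp [Ne.symm hl]
      · simp
    rw [h1]
    unfold p0
    simp only [Finset.sum_mul, Finset.mul_sum, Algebra.TensorProduct.tmul_mul_tmul, ← op_mul,
      mu_mul]
    split_ifs with hpq
    · subst hpq
      rw [one_smul, Finset.sum_eq_single p]
      · simp only [if_true]
        rw [Finset.sum_comm]
      · intro k _ hk
        refine Finset.sum_eq_zero fun x _ => Finset.sum_eq_zero fun i _ => ?_
        rw [if_neg hk]
        simp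
      · simp
    · rw [zero_smul]
      refine Finset.sum_eq_zero fun k _ => Finset.sum_eq_zero fun i _ =>
        Finset.sum_eq_zero fun l _ => ?_
      by_cases h2 : q = k
      · have h3 : ¬ k = p := fun h => hpq (by rw [← h, h2])
        rw [if_neg h3]
        simp
      · rw [if_neg h2]
        simp
  exact LinearMap.congr_fun h b

theorem mid' (a b : A) : p0 e * (a ⊗ₜ[F] op b) * p0 e = trA e (b * a) • p0 e := by
  have h1 : a ⊗ₜ[F] op b = (a ⊗ₜ[F] (1 : Aᵐᵒᵖ)) * ((1 : A) ⊗ₜ[F] op b) := by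
    rw [Algebra.TensorProduct.tmul_mul_tmul, mul_one, one_mul]
  rw [h1, ← mul_assoc, right_cas, mul_assoc (p0 e), Algebra.TensorProduct.tmul_mul_tmul,
    one_mul, ← op_mul, mid]

theorem p0_ne (hn : 0 < n) : p0 e ≠ 0 := by
  intro h
  let i0 : Fin n := ⟨0, hn⟩
  let g : A →ₗ[F] Aᵐᵒᵖ →ₗ[F] A :=
    LinearMap.mk₂ F (fun a b => a * mu e i0 i0 * b.unop)
      (fun a a' b => by simp [add_mul]) (fun c a b => by simp)
      (fun a b b' => by simp [mul_add]) (fun c a b => by simp)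
  have h1 : TensorProduct.lift g (p0 e) = 1 := by
    unfold p0
    simp only [map_sum, TensorProduct.lift.tmul]
    have h2 : ∀ k l : Fin n, g (mu e k l) (op (mu e l k)) =
        if l = i0 then mu e k k else 0 := by
      intro k l
      show mu e k l * mu e i0 i0 * mu e l k = _
      rw [mu_mul]
      split_ifs with h3
      · rw [h3, mu_mul, if_pos rfl]
      · rw [zero_mul]
    simp only [h2, Finset.sum_ite_eq', Finset.mem_univ, if_true]
    apply e.injective
    rw [map_sum, map_one]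
    have h4 : ∀ k, e (mu e k k) = Matrix.single k k (1 : F) := fun k => by
      rw [mu, AlgEquiv.apply_symm_apply]
    simp only [h4]
    ext i j
    rw [Matrix.sum_apply]
    by_cases hij : i = j
    · subst hij
      rw [Finset.sum_eq_single i]
      · simp
      · intro k _ hk
        simp [hk]
      · simp
    · rw [Matrix.one_apply_ne hij]
      refine Finset.sum_eq_zero fun k _ => ?_
      rw [Matrix.single_apply, if_neg]
      rintro ⟨rfl, h6⟩
      exact hij h6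
  rw [h, map_zero] at h1
  have h5 := congrArg e h1
  rw [map_zero, map_one] at h5
  have h6 := congrFun (congrFun h5 i0) i0
  rw [Matrix.zero_apply, Matrix.one_apply_eq] at h6
  exact zero_ne_one h6

end

theorem qre : QreStmt := by
  intro F V _ _ S hS hd
  obtain ⟨n, hn, ⟨e⟩⟩ := hS
  have hnF : (n : F) ≠ 0 := by
    intro h
    apply hd
    have h1 : Module.finrank F S.A = n * n := by
      rw [e.toLinearEquiv.finrank_eq, Module.finrank_matrix]
      simp
    rw [h1, Nat.cast_mul, h, mul_zero]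
  have htr1 : trA e (1 : S.A) = n := by
    show Matrix.trace (e 1) = n
    rw [map_one, Matrix.trace_one, Fintype.card_fin]
  let π : S.A ⊗[F] S.Aᵐᵒᵖ := (n : F)⁻¹ • p0 e
  have hι : ∀ v, (S.tens S.op).ι v = (S.ι v ⊗ₜ[F] op (S.ι v⁻¹) : S.A ⊗[F] S.Aᵐᵒᵖ) := fun _ => rfl
  have hinv : ∀ v, S.ι v * S.ι v⁻¹ = 1 := fun v => by rw [← map_mul, mul_inv_cancel, map_one]
  have hinv' : ∀ v, S.ι v⁻¹ * S.ι v = 1 := fun v => by rw [← map_mul, inv_mul_cancel, map_one]
  have hl : ∀ v, (S.ι v ⊗ₜ[F] op (S.ι v⁻¹) : S.A ⊗[F] S.Aᵐᵒᵖ) * p0 e = p0 e := by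
    intro v
    have h1 : (S.ι v ⊗ₜ[F] op (S.ι v⁻¹) : S.A ⊗[F] S.Aᵐᵒᵖ) =
        ((1 : S.A) ⊗ₜ[F] op (S.ι v⁻¹)) * (S.ι v ⊗ₜ[F] (1 : S.Aᵐᵒᵖ)) := by
      rw [Algebra.TensorProduct.tmul_mul_tmul, mul_one, one_mul]
    rw [h1, mul_assoc, left_cas, ← mul_assoc, Algebra.TensorProduct.tmul_mul_tmul, one_mul,
      ← op_mul, hinv, op_one, ← Algebra.TensorProduct.one_def, one_mul]
  have hr : ∀ v, p0 e * (S.ι v ⊗ₜ[F] op (S.ι v⁻¹) : S.A ⊗[F] S.Aᵐᵒᵖ) = p0 e := by
    intro v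
    have h1 : (S.ι v ⊗ₜ[F] op (S.ι v⁻¹) : S.A ⊗[F] S.Aᵐᵒᵖ) =
        (S.ι v ⊗ₜ[F] (1 : S.Aᵐᵒᵖ)) * ((1 : S.A) ⊗ₜ[F] op (S.ι v⁻¹)) := by
      rw [Algebra.TensorProduct.tmul_mul_tmul, mul_one, one_mul]
    rw [h1, ← mul_assoc, right_cas, mul_assoc, Algebra.TensorProduct.tmul_mul_tmul, one_mul,
      ← op_mul, hinv', op_one, ← Algebra.TensorProduct.one_def, mul_one]
  refine ⟨π, ?_, ?_, ?_, ?_, ?_⟩
  · show π * π = π
    have h1 : p0 e * p0 e = (n : F) • p0 e := by
      have h2 := mid' e (1 : S.A) 1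
      rw [op_one, ← Algebra.TensorProduct.one_def, mul_one, mul_one, htr1] at h2
      exact h2
    show ((n : F)⁻¹ • p0 e) * ((n : F)⁻¹ • p0 e) = (n : F)⁻¹ • p0 e
    rw [smul_mul_assoc, mul_smul_comm, h1, smul_smul (n : F)⁻¹ (n : F), inv_mul_cancel₀ hnF,
      one_smul]
  · exact smul_ne_zero (inv_ne_zero hnF) (p0_ne e hn)
  · intro v
    rw [hι]
    show (S.ι v ⊗ₜ[F] op (S.ι v⁻¹) : S.A ⊗[F] S.Aᵐᵒᵖ) * ((n : F)⁻¹ • p0 e) = (n : F)⁻¹ • p0 e
    rw [mul_smul_comm, hl]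
  · intro v
    rw [hι]
    show ((n : F)⁻¹ • p0 e) * (S.ι v ⊗ₜ[F] op (S.ι v⁻¹) : S.A ⊗[F] S.Aᵐᵒᵖ) = (n : F)⁻¹ • p0 e
    rw [smul_mul_assoc, hr]
  · have key : ∀ a : S.A ⊗[F] S.Aᵐᵒᵖ, ∃ c : F, p0 e * a * p0 e = c • p0 e := by
      intro a
      induction a using TensorProduct.induction_on with
      | zero => exact ⟨0, by rw [mul_zero, zero_mul, zero_smul]⟩
      | tmul x y => exact ⟨trA e (y.unop * x), mid' e x y.unop⟩
      | add x y hx hy =>
        obtain ⟨c, hc⟩ := hx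
        obtain ⟨c', hc'⟩ := hy
        exact ⟨c + c', by rw [mul_add, add_mul, hc, hc', add_smul]⟩
    change ∀ a : S.A ⊗[F] S.Aᵐᵒᵖ, ∃ c : F, π * a * π = c • π
    intro a
    obtain ⟨c, hc⟩ := key a
    refine ⟨(n : F)⁻¹ * c, ?_⟩
    show ((n : F)⁻¹ • p0 e) * a * ((n : F)⁻¹ • p0 e) = ((n : F)⁻¹ * c) • ((n : F)⁻¹ • p0 e)
    rw [smul_mul_assoc, smul_mul_assoc, mul_smul_comm, hc, smul_smul, smul_smul, smul_smul]
    congr 1
    ring

end Pool.Agent.PFC.H72
end
end -- Pool.Agent.Helper72_PFC.QRE
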