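import Pool.Agent.Helper12_AWB.B004
import Pool.Agent.Helper12_AWB.B038

/-!
# Merged copies (generated) of the modules

* `Pool.Agent.Helper13_PFC.SUV`
* `Pool.Agent.Helper24_PFC.KWB`
* `Pool.Agent.Helper31_PFC.FulA`
* `Pool.Agent.Helper31_PFC.FulB`
* `Pool.Agent.Helper31_PFC.FUL`
* `Pool.Agent.Helper31_PFC.INJa`
* `Pool.Agent.Helper83_PFC.QTPa`
* `Pool.Agent.Helper38_PFC.MID`
* `Pool.Agent.Helper52_PFC.LAM`
* `Pool.Agent.Helper59_PFC.LOQa`
* `Pool.Agent.Helper63_PFC.LSC`
* `Pool.Agent.Helper63_PFC.TRB`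
* `Pool.Agent.Helper72_PFC.CPSa`
* `Pool.Agent.PFC.B5.LSM_49`
* `Pool.Agent.Helper41_PFC.DIM`
-/

set_option autoImplicit false

section -- Pool.Agent.Helper13_PFC.SUV

/-! Squad PFC, row SUV of block B5a (helper13): the lift is surjective. -/

noncomputable section

namespace Pool.Agent.PFC.H13

open Pool.Agent.PFC Pool.Agent.PFC.B5a

section MI

variable {S : Type} [CommRing S] {n : ℕ}

/-- matrices with entries in an ideal -/
def MI (J : Ideal S) : Submodule S (Matrix (Fin n) (Fin n) S) where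
  carrier := {X | ∀ i j, X i j ∈ J}
  add_mem' := fun hX hY i j => J.add_mem (hX i j) (hY i j)
  zero_mem' := fun _ _ => J.zero_mem
  smul_mem' := fun c _ hX i j => J.mul_mem_left c (hX i j)

theorem MI_mul {J K : Ideal S} {X Y : Matrix (Fin n) (Fin n) S} (hX : X ∈ MI J) (hY : Y ∈ MI K) :
    X * Y ∈ MI (J * K) := by
  intro i j
  rw [Matrix.mul_apply]
  exact Ideal.sum_mem _ fun k _ => Ideal.mul_mem_mul (hX i k) (hY k j)

theorem MI_mul_left {J : Ideal S} (X : Matrix (Fin n) (Fin n) S)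
    {Y : Matrix (Fin n) (Fin n) S} (hY : Y ∈ MI J) : X * Y ∈ MI J := by
  intro i j
  rw [Matrix.mul_apply]
  exact Ideal.sum_mem _ fun k _ => J.mul_mem_left _ (hY k j)

theorem MI_mul_right {J : Ideal S} {X : Matrix (Fin n) (Fin n) S}
    (hX : X ∈ MI J) (Y : Matrix (Fin n) (Fin n) S) : X * Y ∈ MI J := by
  intro i j
  rw [Matrix.mul_apply]
  exact Ideal.sum_mem _ fun k _ => J.mul_mem_right _ (hX i k)

theorem sum_single_diag (c : S) :
    ∑ k : Fin n, Matrix.single k k c = c • (1 : Matrix (Fin n) (Fin n) S) := by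
  ext p q
  rw [Matrix.sum_apply, Matrix.smul_apply, Matrix.one_apply, smul_eq_mul, mul_ite, mul_one,
    mul_zero]
  by_cases h : p = q
  · subst h
    rw [if_pos rfl, Finset.sum_eq_single p]
    · rw [Matrix.single_apply, if_pos ⟨rfl, rfl⟩]
    · intro k _ hk
      rw [Matrix.single_apply, if_neg fun h => hk h.1]
    · intro hp
      exact absurd (Finset.mem_univ _) hp
  · rw [if_neg h]
    refine Finset.sum_eq_zero fun k _ => ?_
    rw [Matrix.single_apply, if_neg fun h' => h (h'.1.symm.trans h'.2)]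

end MI

theorem trace_unip (ℓ : ℕ) [Fact ℓ.Prime] (F : Type) [Field F] [CharP F ℓ] (n m : ℕ)
    (M : Matrix (Fin n) (Fin n) F) (h : M ^ ℓ ^ m = 1) (hn : (n : F) ≠ 0) :
    Matrix.trace M = n := by
  have hn0 : n ≠ 0 := by
    rintro rfl
    exact hn Nat.cast_zero
  haveI : Nonempty (Fin n) := ⟨⟨0, Nat.pos_of_ne_zero hn0⟩⟩
  haveI : CharP (Matrix (Fin n) (Fin n) F) ℓ := inferInstance
  have h1 : (M - 1) ^ ℓ ^ m = 0 := by
    rw [sub_pow_char_pow_of_commute _ _ (Commute.one_right M), h, one_pow, sub_self]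
  have h2 := (Matrix.isNilpotent_trace_of_isNilpotent ⟨_, h1⟩).eq_zero
  rw [Matrix.trace_sub, Matrix.trace_one, Fintype.card_fin, sub_eq_zero] at h2
  exact h2

theorem suv : SuvStmt := by
  classical
  intro hnil ℓ _ F V B _ _ _ _ _ _ β n π f hV hπ hn hf
  obtain ⟨N, hN⟩ := hnil ℓ F V hV
  set I : Ideal (MonoidAlgebra F V) := RingHom.ker (au F V) with hI
  have hmemI : ∀ a, a ∈ I ↔ au F V a = 0 := fun a => RingHom.mem_ker
  choose e he using fun (p q : Fin n) => hπ (Matrix.single p q (1 : F))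
  have hfe : ∀ p q, f (e p q) - Matrix.single p q (1 : MonoidAlgebra F V) ∈ MI I := by
    intro p q i j
    rw [hmemI, Matrix.sub_apply, map_sub, hf.aug, he, Matrix.single_apply, Matrix.single_apply]
    split_ifs
    · rw [map_one, sub_self]
    · rw [map_zero, sub_self]
  let U : Submodule F (MonoidAlgebra F V) :=
    { carrier := {a | ∃ b, f b - a • (1 : Matrix (Fin n) (Fin n) (MonoidAlgebra F V)) ∈ MI (I ^ 2)}
      add_mem' := by
        rintro a a' ⟨b, hb⟩ ⟨b', hb'⟩
        refine ⟨b + b', ?_⟩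
        have h1 : f (b + b') - (a + a') • (1 : Matrix (Fin n) (Fin n) (MonoidAlgebra F V)) =
            (f b - a • (1 : Matrix (Fin n) (Fin n) (MonoidAlgebra F V))) +
            (f b' - a' • (1 : Matrix (Fin n) (Fin n) (MonoidAlgebra F V))) := by
          rw [map_add, add_smul]
          abel
        rw [h1]
        exact add_mem hb hb'
      zero_mem' := ⟨0, by
        rw [map_zero, zero_smul, sub_zero]
        exact zero_mem _⟩
      smul_mem' := by
        rintro c a ⟨b, hb⟩
        refine ⟨c • b, ?_⟩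
        have h1 : f (c • b) - (c • a) • (1 : Matrix (Fin n) (Fin n) (MonoidAlgebra F V)) =
            c • (f b - a • (1 : Matrix (Fin n) (Fin n) (MonoidAlgebra F V))) := by
          rw [map_smul, smul_sub, smul_assoc]
        rw [h1]
        intro i j
        exact Submodule.smul_of_tower_mem (I ^ 2) c (hb i j) }
  have hUmem : ∀ a, a ∈ U ↔
    ∃ b, f b - a • (1 : Matrix (Fin n) (Fin n) (MonoidAlgebra F V)) ∈ MI (I ^ 2) := fun a => Iff.rfl
  have hfb : ∀ b, π b = 0 → f b ∈ MI I := by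
    intro b hb i j
    rw [hmemI, hf.aug, hb]
    rfl
  have hent : ∀ b, π b = 0 → ∀ i, f b i i ∈ U := by
    intro b hb i
    refine (hUmem _).mpr ⟨∑ k, e k i * b * e i k, ?_⟩
    have h1 : (f b i i) • (1 : Matrix (Fin n) (Fin n) (MonoidAlgebra F V)) =
        ∑ k, Matrix.single k i 1 * f b * Matrix.single i k 1 := by
      rw [← sum_single_diag]
      refine Finset.sum_congr rfl fun k _ => ?_
      rw [Matrix.single_mul_mul_single, one_mul, mul_one]
    rw [map_sum, h1, ← Finset.sum_sub_distrib]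
    refine Submodule.sum_mem _ fun k _ => ?_
    rw [map_mul, map_mul]
    have h2 : f (e k i) * f b * f (e i k) -
        Matrix.single k i (1 : MonoidAlgebra F V) * f b * Matrix.single i k 1 =
        ((f (e k i) - Matrix.single k i 1) * f b) * f (e i k) +
        Matrix.single k i (1 : MonoidAlgebra F V) * (f b * (f (e i k) - Matrix.single i k 1)) := by
      noncomm_ring
    rw [h2]
    rw [pow_two]
    exact add_mem (MI_mul_right (MI_mul (hfe k i) (hfb b hb)) _)
      (MI_mul_left _ (MI_mul (hfb b hb) (hfe i k)))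
  have hUtop : U = ⊤ := by
    by_contra hne
    obtain ⟨θ, hθ0, hθ⟩ := Submodule.exists_le_ker_of_lt_top U (lt_top_iff_ne_top.mpr hne)
    apply hθ0
    let t : B →ₗ[F] F :=
      θ ∘ₗ (Matrix.traceLinearMap (Fin n) F (MonoidAlgebra F V)) ∘ₗ f.toLinearMap
    have ht : ∀ b, t b = θ (Matrix.trace (f b)) := fun b => rfl
    have htc : ∀ b b', t (b * b') = t (b' * b) := by
      intro b b'
      rw [ht, ht, map_mul, map_mul, Matrix.trace_mul_comm]
    have ht0 : ∀ b, π b = 0 → t b = 0 := by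
      intro b hb
      rw [ht, Matrix.trace, map_sum]
      exact Finset.sum_eq_zero fun i _ => hθ (hent b hb i)
    have ht1 : ∀ b b', π b = π b' → t b = t b' := by
      intro b b' h
      rw [← sub_eq_zero, ← map_sub]
      apply ht0
      rw [map_sub, h, sub_self]
    have hθ1 : θ 1 = 0 := hθ ((hUmem _).mpr ⟨1, by
      rw [map_one, one_smul, sub_self]
      exact zero_mem _⟩)
    have ht_one : t 1 = 0 := by
      rw [ht, map_one, Matrix.trace_one, Fintype.card_fin]
      have h1 : ((n : ℕ) : MonoidAlgebra F V) = n • (1 : MonoidAlgebra F V) := by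
        rw [nsmul_eq_mul, mul_one]
      rw [h1, map_nsmul, hθ1, smul_zero]
    have hoff : ∀ p q, p ≠ q → t (e p q) = 0 := by
      intro p q hpq
      have h1 : π (e p q) = π (e p p * e p q - e p q * e p p) := by
        rw [map_sub, map_mul, map_mul, he, he, Matrix.single_mul_single_same,
          Matrix.single_mul_single_of_ne _ _ _ _ (Ne.symm hpq), sub_zero, mul_one]
      rw [ht1 _ _ h1, map_sub, htc, sub_self]
    have hdiag : ∀ p q, t (e p p) = t (e q q) := by
      intro p q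
      have h1 : ∀ p q, π (e p p) = π (e p q * e q p) := by
        intro p q
        rw [map_mul, he, he, he, Matrix.single_mul_single_same, mul_one]
      rw [ht1 _ _ (h1 p q), ht1 _ _ (h1 q p), htc]
    have hsum : ∑ p, t (e p p) = 0 := by
      rw [← map_sum, ← ht_one]
      apply ht1
      rw [map_sum, map_one, Finset.sum_congr rfl fun p _ => he p p, sum_single_diag, one_smul]
    have hd0 : ∀ p, t (e p p) = 0 := by
      intro p
      have h1 : (n : F) * t (e p p) = 0 := by
        rw [← hsum, Finset.sum_congr rfl (fun q _ => hdiag q p), Finset.sum_const,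
          Finset.card_univ, Fintype.card_fin, nsmul_eq_mul]
      exact (mul_eq_zero.mp h1).resolve_left hn
    have hte : ∀ p q, t (e p q) = 0 := by
      intro p q
      by_cases h : p = q
      · rw [h]
        exact hd0 q
      · exact hoff p q h
    have ht2 : ∀ b, t b = 0 := by
      intro b
      have h1 : π b = π (∑ p, ∑ q, π b p q • e p q) := by
        rw [map_sum]
        conv_lhs => rw [Matrix.matrix_eq_sum_single (π b)]
        refine Finset.sum_congr rfl fun p _ => ?_
        rw [map_sum]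
        refine Finset.sum_congr rfl fun q _ => ?_
        rw [map_smul, he, Matrix.smul_single, smul_eq_mul, mul_one]
      rw [ht1 _ _ h1, map_sum]
      refine Finset.sum_eq_zero fun p _ => ?_
      rw [map_sum]
      refine Finset.sum_eq_zero fun q _ => ?_
      rw [map_smul, hte, smul_zero]
    refine MonoidAlgebra.lhom_ext' fun u => LinearMap.ext_ring ?_
    show θ (MonoidAlgebra.single u 1) = 0
    obtain ⟨m, hm⟩ := hV u
    have htr : Matrix.trace (π (β u)) = n := by
      refine trace_unip ℓ F n m _ ?_ hn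
      rw [← map_pow, ← map_pow, hm, map_one, map_one]
    have h3 := ht2 (β u)
    rw [ht, Matrix.trace] at h3
    have h4 : ∑ i, (f (β u)).diag i =
        Matrix.trace (π (β u)) • MonoidAlgebra.single u (1 : F) := by
      rw [Matrix.trace, Finset.sum_smul]
      refine Finset.sum_congr rfl fun i _ => ?_
      rw [Matrix.diag_apply, Matrix.diag_apply, hf.grp, MonoidAlgebra.smul_single, smul_eq_mul,
        mul_one]
    rw [h4, htr, map_smul, smul_eq_mul] at h3
    exact (mul_eq_zero.mp h3).resolve_left hn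
  have hP : ∀ k, ∀ X ∈ MI (n := n) (I ^ k), ∃ b, X - f b ∈ MI (I ^ (k + 1)) := by
    intro k
    induction k with
    | zero =>
      intro X _
      obtain ⟨b, hb⟩ := hπ (Matrix.of fun i j => au F V (X i j))
      refine ⟨b, fun i j => ?_⟩
      rw [zero_add, pow_one, hmemI, Matrix.sub_apply, map_sub, hf.aug, hb]
      exact sub_self _
    | succ k ih =>
      have key : ∀ a ∈ I ^ (k + 1), ∀ i j : Fin n,
          ∃ b, Matrix.single i j a - f b ∈ MI (I ^ (k + 1 + 1)) := by
        intro a ha i j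
        rw [pow_succ] at ha
        refine Submodule.mul_induction_on ha ?_ ?_
        · intro x hx y hy
          have hsx : Matrix.single i j x ∈ MI (n := n) (I ^ k) := by
            intro p q
            rw [Matrix.single_apply]
            split_ifs
            · exact hx
            · exact zero_mem _
          obtain ⟨b, hb⟩ := ih _ hsx
          have hyU : y ∈ U := by
            rw [hUtop]
            exact Submodule.mem_top
          obtain ⟨b', hb'⟩ := (hUmem y).mp hyU
          have hy1 : y • (1 : Matrix (Fin n) (Fin n) (MonoidAlgebra F V)) ∈ MI I := by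
            intro p q
            rw [Matrix.smul_apply, smul_eq_mul]
            exact I.mul_mem_right _ hy
          have hfb' : f b ∈ MI (I ^ k) := by
            have h1 : f b = Matrix.single i j x - (Matrix.single i j x - f b) := by abel
            rw [h1]
            refine sub_mem hsx ?_
            intro p q
            exact Ideal.pow_le_pow_right (Nat.le_succ k) (hb p q)
          refine ⟨b * b', ?_⟩
          have h2 : Matrix.single i j (x * y) =
              Matrix.single i j x * (y • (1 : Matrix (Fin n) (Fin n) (MonoidAlgebra F V))) := by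
            rw [Matrix.mul_smul, mul_one, Matrix.smul_single, smul_eq_mul, mul_comm]
          have h3 : Matrix.single i j (x * y) - f (b * b') =
              (Matrix.single i j x - f b) *
                (y • (1 : Matrix (Fin n) (Fin n) (MonoidAlgebra F V))) -
              f b * (f b' - y • (1 : Matrix (Fin n) (Fin n) (MonoidAlgebra F V))) := by
            rw [h2, map_mul, sub_mul, mul_sub]
            abel
          rw [h3]
          refine sub_mem ?_ ?_
          · have := MI_mul hb hy1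
            rw [← pow_succ] at this
            exact this
          · have := MI_mul hfb' hb'
            rw [← pow_add] at this
            exact this
        · rintro x y ⟨b, hb⟩ ⟨b', hb'⟩
          refine ⟨b + b', ?_⟩
          have h1 : Matrix.single i j (x + y) - f (b + b') =
              (Matrix.single i j x - f b) + (Matrix.single i j y - f b') := by
            rw [map_add, Matrix.single_add]
            abel
          rw [h1]
          exact add_mem hb hb'
      intro X hX
      choose c hc using fun i j => key (X i j) (hX i j) i j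
      refine ⟨∑ i, ∑ j, c i j, ?_⟩
      have h1 : X - f (∑ i, ∑ j, c i j) =
          ∑ i, ∑ j, (Matrix.single i j (X i j) - f (c i j)) := by
        conv_lhs => rw [Matrix.matrix_eq_sum_single X]
        rw [map_sum, ← Finset.sum_sub_distrib]
        refine Finset.sum_congr rfl fun i _ => ?_
        rw [map_sum, ← Finset.sum_sub_distrib]
      rw [h1]
      exact Submodule.sum_mem _ fun i _ => Submodule.sum_mem _ fun j _ => hc i j
  intro X
  have hfin : ∀ k, ∃ b, X - f b ∈ MI (I ^ k) := by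
    intro k
    induction k with
    | zero =>
      refine ⟨0, fun i j => ?_⟩
      rw [pow_zero, Ideal.one_eq_top]
      exact Submodule.mem_top
    | succ k ih =>
      obtain ⟨b, hb⟩ := ih
      obtain ⟨b', hb'⟩ := hP k _ hb
      refine ⟨b + b', ?_⟩
      rw [map_add, ← sub_sub]
      exact hb'
  obtain ⟨b, hb⟩ := hfin N
  refine ⟨b, ?_⟩
  have h1 : X - f b = 0 := by
    ext i j
    have h2 := hb i j
    rw [hN, Ideal.mem_bot] at h2
    rw [h2]
    rfl
  exact (sub_eq_zero.mp h1).symm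

end Pool.Agent.PFC.H13
end
end -- Pool.Agent.Helper13_PFC.SUV

section -- Pool.Agent.Helper24_PFC.KWB

/-!
# Squad PFC, block B5a, row KWB
-/

open scoped BigOperators

noncomputable section

namespace Pool.Agent.PFC.B5a.H24

open Pool.Agent.PFC Pool.Agent.PFC.B5a

section entries

variable {R : Type} [CommRing R] {n : ℕ}

/-- all entries are in the ideal -/
def En (J : Ideal R) (x : Matrix (Fin n) (Fin n) R) : Prop := ∀ i j, x i j ∈ J

theorem En.add {J : Ideal R} {x y : Matrix (Fin n) (Fin n) R} (hx : En J x) (hy : En J y) :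
    En J (x + y) := fun i j => J.add_mem (hx i j) (hy i j)

theorem En.sub {J : Ideal R} {x y : Matrix (Fin n) (Fin n) R} (hx : En J x) (hy : En J y) :
    En J (x - y) := fun i j => J.sub_mem (hx i j) (hy i j)

theorem En.sum {J : Ideal R} {κ : Type} (s : Finset κ) (x : κ → Matrix (Fin n) (Fin n) R)
    (hx : ∀ k ∈ s, En J (x k)) : En J (∑ k ∈ s, x k) := by
  intro i j
  rw [Matrix.sum_apply]
  exact J.sum_mem fun k hk => hx k hk i j

theorem En.mul_left {J : Ideal R} (x : Matrix (Fin n) (Fin n) R) {y : Matrix (Fin n) (Fin n) R}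
    (hy : En J y) : En J (x * y) := by
  intro i j
  rw [Matrix.mul_apply]
  exact J.sum_mem fun k _ => J.mul_mem_left _ (hy k j)

theorem En.mul {J J' : Ideal R} {x y : Matrix (Fin n) (Fin n) R} (hx : En J x) (hy : En J' y) :
    En (J * J') (x * y) := by
  intro i j
  rw [Matrix.mul_apply]
  exact (J * J').sum_mem fun k _ => Ideal.mul_mem_mul (hx i k) (hy k j)

theorem En.mono {J J' : Ideal R} (h : J ≤ J') {x : Matrix (Fin n) (Fin n) R} (hx : En J x) :
    En J' x := fun i j => h (hx i j)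

end entries

theorem kwb : KwbStmt := by
  intro F V B _ _ _ _ _ β n π k f hsep hk hLf h1 hl hr hI
  obtain ⟨κ, _, u, v, huv, hcas⟩ := hsep
  set I := RingHom.ker (au F V) with hIdef
  -- the defect
  let w : B → B → Matrix (Fin n) (Fin n) (MonoidAlgebra F V) := fun x y => f (x * y) - f x * f y
  have hw : ∀ x y, w x y = f (x * y) - f x * f y := fun _ _ => rfl
  have hfw : ∀ x y, f (x * y) = w x y + f x * f y := fun x y => (sub_add_cancel _ _).symm
  have hwI : ∀ x y, En (I ^ k) (w x y) := hI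
  have hcoc : ∀ a b c, w a (b * c) = w (a * b) c + w a b * f c - f a * w b c := by
    intro a b c
    rw [hw, hw, hw, hw, mul_assoc a b c, sub_mul, mul_sub, mul_assoc (f a)]
    abel
  have hwl : ∀ g y a, w (β g * y) a = f (β g) * w y a := by
    intro g y a
    rw [hw, hw, mul_assoc (β g) y a, hl, hl, mul_sub, mul_assoc]
  have hwr : ∀ g y a, w y (a * β g) = w y a * f (β g) := by
    intro g y a
    rw [hw, hw, ← mul_assoc y a (β g), hr, hr, sub_mul, mul_assoc]
  have hwm : ∀ g y a, w y (β g * a) = w (y * β g) a := by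
    intro g y a
    rw [hw, hw, ← mul_assoc y (β g) a, hl, hr, mul_assoc (f y) (f (β g)) (f a)]
  have hw1 : ∀ y, w y 1 = 0 := by
    intro y
    rw [hw, mul_one, h1, mul_one, sub_self]
  -- the Casimir property
  have hC : ∀ a c, ∑ i, f (c * u i) * w (v i) a = ∑ i, f (u i) * w (v i * c) a := by
    intro a c
    let T : B →ₗ[F] B →ₗ[F] Matrix (Fin n) (Fin n) (MonoidAlgebra F V) :=
      LinearMap.mk₂ F (fun x y => f x * w y a)
        (by
          intro x x' y
          rw [map_add, add_mul])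
        (by
          intro r x y
          rw [map_smul, smul_mul_assoc])
        (by
          intro x y y'
          rw [← mul_add]
          congr 1
          rw [hw, hw, hw, add_mul, map_add, map_add, add_mul]
          abel)
        (by
          intro r x y
          rw [← mul_smul_comm]
          congr 1
          rw [hw, hw, smul_mul_assoc, map_smul, map_smul, smul_mul_assoc, smul_sub])
    have hT : ∀ x y, T x y = f x * w y a := fun x y => rfl
    have hb := hcas _ T (by
      intro x y g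
      rw [hT, hT, hr, hwl, mul_assoc]) c
    simp only [hT] at hb
    exact hb
  -- the correction
  let ν : B →ₗ[F] Matrix (Fin n) (Fin n) (MonoidAlgebra F V) :=
    { toFun := fun a => ∑ i, f (u i) * w (v i) a
      map_add' := by
        intro a a'
        rw [← Finset.sum_add_distrib]
        refine Finset.sum_congr rfl fun i _ => ?_
        rw [← mul_add]
        congr 1
        rw [hw, hw, hw, mul_add, map_add, map_add, mul_add]
        abel
      map_smul' := by
        intro r a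
        rw [RingHom.id_apply, Finset.smul_sum]
        refine Finset.sum_congr rfl fun i _ => ?_
        rw [← mul_smul_comm]
        congr 1
        rw [hw, hw, mul_smul_comm, map_smul, map_smul, mul_smul_comm, smul_sub] }
  have hν : ∀ a, ν a = ∑ i, f (u i) * w (v i) a := fun _ => rfl
  have hνI : ∀ a, En (I ^ k) (ν a) := by
    intro a
    rw [hν]
    exact En.sum _ _ fun i _ => En.mul_left _ (hwI _ _)
  have hν1 : ν 1 = 0 := by
    rw [hν]
    exact Finset.sum_eq_zero fun i _ => by rw [hw1, mul_zero]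
  have hνr : ∀ g a, ν (a * β g) = ν a * f (β g) := by
    intro g a
    rw [hν, hν, Finset.sum_mul]
    exact Finset.sum_congr rfl fun i _ => by rw [hwr, mul_assoc]
  have hνβ : ∀ g, ν (β g) = 0 := by
    intro g
    have := hνr g 1
    rw [one_mul, hν1, zero_mul] at this
    exact this
  have hνl : ∀ g a, ν (β g * a) = f (β g) * ν a := by
    intro g a
    rw [hν, hν, Finset.mul_sum]
    calc ∑ i, f (u i) * w (v i) (β g * a) = ∑ i, f (u i) * w (v i * β g) a :=
          Finset.sum_congr rfl fun i _ => by rw [hwm]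
      _ = ∑ i, f (β g * u i) * w (v i) a := (hC a (β g)).symm
      _ = ∑ i, f (β g) * (f (u i) * w (v i) a) :=
          Finset.sum_congr rfl fun i _ => by rw [hl, mul_assoc]
  have hsum : ∑ i, f (u i) * f (v i) = 1 - ∑ i, w (u i) (v i) := by
    rw [eq_sub_iff_add_eq, ← Finset.sum_add_distrib]
    calc ∑ i, (f (u i) * f (v i) + w (u i) (v i)) = ∑ i, f (u i * v i) :=
          Finset.sum_congr rfl fun i _ => by rw [hfw, add_comm]
      _ = 1 := by rw [← map_sum, huv, h1]
  have hνm : ∀ a b, ν (a * b) = f a * ν b + ∑ i, w a (u i) * w (v i) b + ν a * f b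
      - w a b + (∑ i, w (u i) (v i)) * w a b := by
    intro a b
    have e1 : ∑ i, f (u i) * w (v i * a) b = f a * ν b + ∑ i, w a (u i) * w (v i) b := by
      rw [← hC b a, hν, Finset.mul_sum, ← Finset.sum_add_distrib]
      refine Finset.sum_congr rfl fun i _ => ?_
      rw [hfw a (u i), add_mul, mul_assoc, add_comm]
    have e2 : ν (a * b) = ∑ i, f (u i) * w (v i * a) b + ν a * f b
        - (∑ i, f (u i) * f (v i)) * w a b := by
      rw [hν, hν, Finset.sum_mul, Finset.sum_mul, ← Finset.sum_add_distrib,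
        ← Finset.sum_sub_distrib]
      refine Finset.sum_congr rfl fun i _ => ?_
      rw [hcoc, mul_sub, mul_add, mul_assoc, mul_assoc]
    rw [e2, e1, hsum, sub_mul, one_mul]
    abel
  have hf' : ∀ a, (f + ν) a = f a + ν a := fun _ => rfl
  have hdef : ∀ a b, (f + ν) (a * b) - (f + ν) a * (f + ν) b =
      ∑ i, w a (u i) * w (v i) b + (∑ i, w (u i) (v i)) * w a b - ν a * ν b := by
    intro a b
    rw [hf', hf', hf', hνm, hfw a b, add_mul, mul_add, mul_add]
    abel
  have hkk : I ^ k * I ^ k ≤ I ^ (k + 1) := by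
    rw [← pow_add]
    exact Ideal.pow_le_pow_right (by omega)
  refine ⟨f + ν, ⟨?_, ?_⟩, ?_, ?_, ?_, ?_⟩
  · intro x i j
    have h2 : (f + ν) x i j = f x i j + ν x i j := rfl
    have h3 : ν x i j ∈ I := Ideal.pow_le_self (by omega) (hνI x i j)
    rw [h2, map_add, hLf.aug, hIdef, RingHom.mem_ker] at *
    rw [h3, add_zero]
  · intro g i j
    rw [hf', hνβ, add_zero]
    exact hLf.grp g i j
  · rw [hf', hν1, add_zero, h1]
  · intro g x
    rw [hf', hf', hf', hνβ, add_zero, hνl, hl, mul_add]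
  · intro g x
    rw [hf', hf', hf', hνβ, add_zero, hνr, hr, add_mul]
  · intro x y
    rw [hdef]
    refine En.mono hkk (En.sub (En.add (En.sum _ _ fun i _ => ?_) ?_) ?_)
    · exact En.mul (hwI _ _) (hwI _ _)
    · exact En.mul (En.sum _ _ fun i _ => hwI _ _) (hwI _ _)
    · exact En.mul (hνI _) (hνI _)

end Pool.Agent.PFC.B5a.H24
end
end -- Pool.Agent.Helper24_PFC.KWB

section -- Pool.Agent.Helper31_PFC.FulA

/-!
# Squad PFC, block B5c, row FUL (helper31), part 1: the dual frame and the central elements `T w`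
-/

open scoped BigOperators TensorProduct

noncomputable section

namespace Pool.Agent.PFC.B5c.H31

section basics

variable {F V A : Type} [Field F] [CommGroup V] [Ring A] [Algebra F A]

theorem bi_ap (α : V →* A) (w : V × V) (x : A) : bi F α w x = α w.1 * x * α w.2⁻¹ := by
  rw [mul_assoc]
  rfl

theorem cj_ap (α : V →* A) (u : V) (x : A) : cj F α u x = α u * x * α u⁻¹ :=
  bi_ap α (u, u) x

theorem mi (α : V →* A) (u : V) : α u * α u⁻¹ = 1 := by
  rw [← map_mul, mul_inv_cancel, map_one]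

theorem im (α : V →* A) (u : V) : α u⁻¹ * α u = 1 := by
  rw [← map_mul, inv_mul_cancel, map_one]

theorem mem_C (α : V →* A) (x : A) : x ∈ Fx (cj F α) ⊤ ↔ ∀ u, α u * x = x * α u := by
  rw [mem_Fx]
  constructor
  · intro h u
    have h1 := h u (Subgroup.mem_top u)
    rw [cj_ap] at h1
    calc α u * x = α u * x * (α u⁻¹ * α u) := by rw [im, mul_one]
      _ = α u * x * α u⁻¹ * α u := by rw [mul_assoc (α u * x)]
      _ = x * α u := by rw [h1]
  · intro h u _
    rw [cj_ap, h u, mul_assoc, mi, mul_one]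

theorem C_mul (α : V →* A) {x y : A} (hx : x ∈ Fx (cj F α) ⊤) (hy : y ∈ Fx (cj F α) ⊤) :
    x * y ∈ Fx (cj F α) ⊤ := by
  rw [mem_C] at *
  intro u
  rw [← mul_assoc, hx, mul_assoc, hy, mul_assoc]

theorem al_C (α : V →* A) (v : V) : α v ∈ Fx (cj F α) ⊤ := by
  rw [mem_C]
  intro u
  rw [← map_mul, ← map_mul, mul_comm]

theorem one_C (α : V →* A) : (1 : A) ∈ Fx (cj F α) ⊤ := by
  rw [mem_C]
  intro u
  rw [mul_one, one_mul]

end basics

section quot

variable {V Ω : Type} [CommGroup V] [MulAction (V × V) Ω]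

/-- the relation: same orbit of `1 × V` -/
def st (V Ω : Type) [CommGroup V] [MulAction (V × V) Ω] : Setoid Ω where
  r ω ω' := ∃ v : V, ((1, v) : V × V) • ω = ω'
  iseqv := by
    refine ⟨fun ω => ⟨1, one_smul _ _⟩, ?_, ?_⟩
    · rintro ω ω' ⟨v, h⟩
      refine ⟨v⁻¹, ?_⟩
      rw [← h, smul_smul, Prod.mk_mul_mk, inv_mul_cancel, one_mul]
      exact one_smul _ _
    · rintro ω ω' ω'' ⟨v, h⟩ ⟨v', h'⟩
      refine ⟨v' * v, ?_⟩
      rw [← h', ← h, smul_smul, Prod.mk_mul_mk, one_mul]

/-- the orbits of `1 × V` -/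
def Zq (V Ω : Type) [CommGroup V] [MulAction (V × V) Ω] : Type := Quotient (st V Ω)

/-- the orbit of a point -/
def cl (V : Type) {Ω : Type} [CommGroup V] [MulAction (V × V) Ω] (ω : Ω) : Zq V Ω :=
  Quotient.mk (st V Ω) ω

/-- a representative -/
def rp (z : Zq V Ω) : Ω := Quotient.out z

theorem cl_rp (z : Zq V Ω) : cl V (rp z) = z := Quotient.out_eq z

theorem cl_eq (ω ω' : Ω) : cl V ω = cl V ω' ↔ ∃ v : V, ((1, v) : V × V) • ω = ω' :=
  ⟨fun h => Quotient.exact h, fun h => Quotient.sound (s := st V Ω) h⟩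

instance [Finite Ω] : Finite (Zq V Ω) := inferInstanceAs (Finite (Quotient (st V Ω)))

instance [Fintype Ω] : Fintype (Zq V Ω) := Fintype.ofFinite _

instance : MulAction V (Zq V Ω) where
  smul u := Quotient.map (fun ω : Ω => ((u, 1) : V × V) • ω) (by
    rintro ω ω' ⟨v, h⟩
    refine ⟨v, ?_⟩
    change ((1, v) : V × V) • ((u, 1) : V × V) • ω = ((u, 1) : V × V) • ω'
    rw [← h, smul_smul, smul_smul, mul_comm])
  one_smul := by
    intro z
    induction z using Quotient.ind with
    | _ ω => exact congrArg _ (one_smul (V × V) ω)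
  mul_smul := by
    intro u u' z
    induction z using Quotient.ind with
    | _ ω =>
      refine congrArg (Quotient.mk (st V Ω)) (?_ : ((u * u', 1) : V × V) • ω =
        ((u, 1) : V × V) • ((u', 1) : V × V) • ω)
      rw [smul_smul, Prod.mk_mul_mk, one_mul]

theorem smul_cl (u : V) (ω : Ω) : u • cl V ω = cl V (((u, 1) : V × V) • ω) := rfl

theorem bij [Fintype V] [Fintype Ω] (hfree : ∀ (ω : Ω) (v : V), ((1, v) : V × V) • ω = ω → v = 1) :
    Function.Bijective (fun p : Zq V Ω × V => ((1, p.2) : V × V) • rp p.1) := by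
  constructor
  · rintro ⟨z, v⟩ ⟨z', v'⟩ h
    change ((1, v) : V × V) • rp z = ((1, v') : V × V) • rp z' at h
    have hz : z = z' := by
      rw [← cl_rp z, ← cl_rp z', cl_eq]
      refine ⟨v'⁻¹ * v, ?_⟩
      have h1 : ((1, v'⁻¹ * v) : V × V) = (1, v'⁻¹) * (1, v) := by
        rw [Prod.mk_mul_mk, one_mul]
      rw [h1, mul_smul, h, smul_smul, Prod.mk_mul_mk, inv_mul_cancel, one_mul]
      exact one_smul _ _
    subst hz
    have h2 : v'⁻¹ * v = 1 := by
      apply hfree (rp z)
      have h1 : ((1, v'⁻¹ * v) : V × V) = (1, v'⁻¹) * (1, v) := by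
        rw [Prod.mk_mul_mk, one_mul]
      rw [h1, mul_smul, h, smul_smul, Prod.mk_mul_mk, inv_mul_cancel, one_mul]
      exact one_smul _ _
    rw [inv_mul_eq_one] at h2
    rw [h2]
  · intro ω
    obtain ⟨v, hv⟩ := (cl_eq (rp (cl V ω)) ω).1 (cl_rp (cl V ω))
    exact ⟨(cl V ω, v), hv⟩

theorem sum_z [Fintype V] [Fintype Ω] {M : Type} [AddCommMonoid M]
    (hfree : ∀ (ω : Ω) (v : V), ((1, v) : V × V) • ω = ω → v = 1) (g : Ω → M) :
    ∑ ω, g ω = ∑ z : Zq V Ω, ∑ v : V, g (((1, v) : V × V) • rp z) := by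
  rw [← (bij hfree).sum_comp g, Fintype.sum_prod_type]

end quot

section frame

variable {F V A Ω : Type} [Field F] [CommGroup V] [Ring A] [Algebra F A]
  [MulAction (V × V) Ω] [Fintype Ω]

/-- The frame with the functionals `c ω x = lam(s ω * x)`. -/
structure Fr2 (α : V →* A) (lam : A →ₗ[F] F) (b s : Ω → A) : Prop where
  sym : ∀ x y, lam (x * y) = lam (y * x)
  nd : ∀ x, (∀ y, lam (x * y) = 0) → x = 0
  fb : ∀ (w : V × V) (ω : Ω), b (w • ω) = α w.1 * b ω * α w.2⁻¹
  fs : ∀ (w : V × V) (ω : Ω), s (w • ω) = α w.2 * s ω * α w.1⁻¹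
  s1 : ∀ x, ∑ ω, lam (s ω * x) • b ω = x
  s2 : ∀ x, ∑ ω, lam (x * b ω) • s ω = x

theorem eq_of_lam {lam : A →ₗ[F] F} (nd : ∀ x, (∀ y, lam (x * y) = 0) → x = 0) {x x' : A}
    (h : ∀ y, lam (x * y) = lam (x' * y)) : x = x' := by
  rw [← sub_eq_zero]
  apply nd
  intro y
  rw [sub_mul, map_sub, h, sub_self]

theorem ex_s [FiniteDimensional F A] {lam : A →ₗ[F] F}
    (nd : ∀ x, (∀ y, lam (x * y) = 0) → x = 0) (c : A →ₗ[F] F) :
    ∃ s : A, ∀ x, c x = lam (s * x) := by
  let L : A →ₗ[F] (A →ₗ[F] F) := (LinearMap.mul F A).compr₂ lam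
  have hL : ∀ x y, L x y = lam (x * y) := fun x y => rfl
  have hinj : Function.Injective L := by
    rw [injective_iff_map_eq_zero]
    intro x hx
    exact nd x fun y => by rw [← hL, hx, LinearMap.zero_apply]
  have hsur : Function.Surjective L :=
    (LinearMap.injective_iff_surjective_of_finrank_eq_finrank
      (Subspace.dual_finrank_eq (K := F) (V := A)).symm).1 hinj
  obtain ⟨s, hs⟩ := hsur c
  exact ⟨s, fun x => by rw [← hs, hL]⟩

theorem ex_fr [FiniteDimensional F A] {α : V →* A} {lam : A →ₗ[F] F}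
    (sym : ∀ x y, lam (x * y) = lam (y * x)) (nd : ∀ x, (∀ y, lam (x * y) = 0) → x = 0)
    {b : Ω → A} {c : Ω → (A →ₗ[F] F)} (h : IsFr (bi F α) b c) :
    ∃ s : Ω → A, (∀ ω x, c ω x = lam (s ω * x)) ∧ Fr2 α lam b s := by
  choose s hs using fun ω => ex_s nd (c ω)
  refine ⟨s, hs, sym, nd, ?_, ?_, ?_, ?_⟩
  · intro w ω
    rw [h.1, bi_ap]
  · intro w ω
    apply eq_of_lam nd
    intro y
    have h1 := h.2.1 w ω (α w.1⁻¹ * y * α w.2)
    have h2 : bi F α w (α w.1⁻¹ * y * α w.2) = y := by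
      rw [bi_ap]
      calc α w.1 * (α w.1⁻¹ * y * α w.2) * α w.2⁻¹
          = (α w.1 * α w.1⁻¹) * y * (α w.2 * α w.2⁻¹) := by simp only [mul_assoc]
        _ = y := by rw [mi, mi, one_mul, mul_one]
    rw [h2, hs, hs] at h1
    rw [h1]
    calc lam (s ω * (α w.1⁻¹ * y * α w.2)) = lam ((s ω * α w.1⁻¹ * y) * α w.2) := by
          simp only [mul_assoc]
      _ = lam (α w.2 * (s ω * α w.1⁻¹ * y)) := sym _ _
      _ = lam (α w.2 * s ω * α w.1⁻¹ * y) := by simp only [mul_assoc]
  · intro x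
    simp only [← hs]
    exact h.2.2 x
  · intro x
    apply eq_of_lam nd
    intro y
    rw [Finset.sum_mul, map_sum]
    calc ∑ ω, lam (lam (x * b ω) • s ω * y) = ∑ ω, lam (x * (lam (s ω * y) • b ω)) := by
          refine Finset.sum_congr rfl fun ω _ => ?_
          rw [smul_mul_assoc, mul_smul_comm, map_smul, map_smul, smul_eq_mul, smul_eq_mul,
            mul_comm]
      _ = lam (x * ∑ ω, lam (s ω * y) • b ω) := by rw [Finset.mul_sum, map_sum]
      _ = lam (x * y) := by
          simp only [← hs]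
          rw [h.2.2]

variable [Fintype V]

/-- `E x = ∑_v lam(v x) v⁻¹` -/
def Ev (α : V →* A) (lam : A →ₗ[F] F) (x : A) : A := ∑ v, lam (α v * x) • α v⁻¹

theorem Ev_comm (α : V →* A) (lam : A →ₗ[F] F) (x : A) {w : A} (hw : w ∈ Fx (cj F α) ⊤) :
    Ev α lam x * w = w * Ev α lam x := by
  rw [mem_C] at hw
  rw [Ev, Finset.sum_mul, Finset.mul_sum]
  refine Finset.sum_congr rfl fun v _ => ?_
  rw [smul_mul_assoc, mul_smul_comm, hw]

theorem Ev_inv (α : V →* A) (lam : A →ₗ[F] F) (x : A) :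
    Ev α lam x = ∑ v, lam (α v⁻¹ * x) • α v := by
  rw [Ev, ← Equiv.sum_comp (Equiv.inv V)]
  refine Finset.sum_congr rfl fun v _ => ?_
  rw [Equiv.inv_apply, inv_inv]

variable {α : V →* A} {lam : A →ₗ[F] F} {b s : Ω → A} (hf : Fr2 α lam b s)
  (hfree : ∀ (ω : Ω) (v : V), ((1, v) : V × V) • ω = ω → v = 1)

include hf in
theorem fr_b (ω : Ω) (v : V) : b (((1, v) : V × V) • ω) = b ω * α v⁻¹ := by
  rw [hf.fb, map_one, one_mul]

include hf in
theorem fr_s (ω : Ω) (v : V) : s (((1, v) : V × V) • ω) = α v * s ω := by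
  rw [hf.fs, inv_one, map_one, mul_one]

include hf hfree in
theorem fr_1 (x : A) : ∑ z : Zq V Ω, b (rp z) * Ev α lam (s (rp z) * x) = x := by
  conv_rhs => rw [← hf.s1 x]
  rw [sum_z hfree]
  refine Finset.sum_congr rfl fun z _ => ?_
  rw [Ev, Finset.mul_sum]
  refine Finset.sum_congr rfl fun v _ => ?_
  rw [fr_b hf, fr_s hf, mul_smul_comm, mul_assoc]

include hf hfree in
theorem fr_2 (x : A) : ∑ z : Zq V Ω, Ev α lam (x * b (rp z)) * s (rp z) = x := by
  conv_rhs => rw [← hf.s2 x]
  rw [sum_z hfree]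
  refine Finset.sum_congr rfl fun z _ => ?_
  rw [Ev_inv, Finset.sum_mul]
  refine Finset.sum_congr rfl fun v _ => ?_
  rw [fr_b hf, fr_s hf, smul_mul_assoc, hf.sym, mul_assoc]

/-- the central elements `T w` -/
def Tm (V : Type) [CommGroup V] [MulAction (V × V) Ω] (b s : Ω → A) (w : A) : A :=
  ∑ z : Zq V Ω, b (rp z) * w * s (rp z)

include hf hfree in
theorem Tm_central {w : A} (hw : w ∈ Fx (cj F α) ⊤) (y : A) :
    y * Tm V b s w = Tm V b s w * y := by
  calc y * Tm V b s w
      = ∑ z : Zq V Ω, (∑ z' : Zq V Ω, b (rp z') * Ev α lam (s (rp z') * (y * b (rp z)))) *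
          w * s (rp z) := by
        rw [Tm, Finset.mul_sum]
        refine Finset.sum_congr rfl fun z _ => ?_
        rw [fr_1 hf hfree]
        simp only [mul_assoc]
    _ = ∑ z : Zq V Ω, ∑ z' : Zq V Ω,
          b (rp z') * w * (Ev α lam (s (rp z') * y * b (rp z)) * s (rp z)) := by
        refine Finset.sum_congr rfl fun z _ => ?_
        rw [Finset.sum_mul, Finset.sum_mul]
        refine Finset.sum_congr rfl fun z' _ => ?_
        rw [mul_assoc (b (rp z')), Ev_comm α lam _ hw]
        simp only [mul_assoc]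
    _ = ∑ z' : Zq V Ω, b (rp z') * w * ∑ z : Zq V Ω,
          (Ev α lam (s (rp z') * y * b (rp z)) * s (rp z)) := by
        rw [Finset.sum_comm]
        refine Finset.sum_congr rfl fun z' _ => ?_
        rw [Finset.mul_sum]
    _ = Tm V b s w * y := by
        rw [Tm, Finset.sum_mul]
        refine Finset.sum_congr rfl fun z' _ => ?_
        rw [fr_2 hf hfree]
        simp only [mul_assoc]

end frame

end Pool.Agent.PFC.B5c.H31
end
end -- Pool.Agent.Helper31_PFC.FulA

section -- Pool.Agent.Helper31_PFC.FulB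

/-!
# Squad PFC, block B5c, row FUL (helper31), part 2: the orbits of `V × V` and the character
-/

open scoped BigOperators TensorProduct

noncomputable section

namespace Pool.Agent.PFC.B5c.H31

section conj

variable {F V A : Type} [Field F] [CommGroup V] [Ring A] [Algebra F A]

/-- the map `w ↦ b w s` maps the Brauer kernel to the Brauer kernel if `b`, `s` twist the action -/
theorem conj_BK (α : V →* A) (ψ : V ≃* V) (b s : A) (hb : ∀ u, b * α u = α (ψ u) * b)
    (hs : ∀ u, α u * s = s * α (ψ u)) {w : A} (hw : w ∈ BK (cj F α) ⊤) :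
    b * w * s ∈ BK (cj F α) ⊤ := by
  classical
  unfold BK at hw
  induction hw using Submodule.span_induction with
  | mem n hn =>
    obtain ⟨K, S, m, hlt, hS, hm, rfl⟩ := hn
    have hst : ∀ x, b * cj F α x m * s = cj F α (ψ x) (b * m * s) := by
      intro x
      rw [cj_ap, cj_ap, ← map_inv ψ]
      calc b * (α x * m * α x⁻¹) * s = (b * α x) * m * (α x⁻¹ * s) := by simp only [mul_assoc]
        _ = α (ψ x) * (b * m * s) * α (ψ x⁻¹) := by
          rw [hb, hs]
          simp only [mul_assoc]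
    refine Submodule.subset_span ⟨K.map ψ.toMonoidHom, S.image ψ, b * m * s, ?_, ⟨?_, ?_⟩, ?_, ?_⟩
    · rw [lt_top_iff_ne_top] at hlt ⊢
      intro h
      apply hlt
      rw [eq_top_iff]
      intro x _
      have h1 : ψ x ∈ K.map ψ.toMonoidHom := by
        rw [h]
        trivial
      obtain ⟨x', hx', h2⟩ := Subgroup.mem_map.1 h1
      rwa [← ψ.injective (show ψ x' = ψ x from h2)]
    · intro t _
      trivial
    · intro p _
      obtain ⟨p', rfl⟩ := ψ.surjective p
      obtain ⟨t, ⟨ht, ht2⟩, ht3⟩ := hS.2 p' (Subgroup.mem_top _)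
      refine ⟨ψ t, ⟨Finset.mem_image_of_mem _ ht, ?_⟩, ?_⟩
      · rw [← map_inv, ← map_mul]
        exact Subgroup.mem_map_of_mem _ ht2
      · rintro t' ⟨ht', ht'2⟩
        obtain ⟨t0, ht0, rfl⟩ := Finset.mem_image.1 ht'
        rw [← map_inv, ← map_mul] at ht'2
        obtain ⟨x', hx', h2⟩ := Subgroup.mem_map.1 ht'2
        rw [ψ.injective (show ψ x' = ψ (t0⁻¹ * p') from h2)] at hx'
        rw [ht3 t0 ⟨ht0, hx'⟩]
    · intro x hx
      obtain ⟨x', hx', rfl⟩ := Subgroup.mem_map.1 hx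
      have h1 := hst x'
      rw [hm x' hx'] at h1
      exact h1.symm
    · rw [Finset.sum_image (fun x _ x' _ h => ψ.injective h), Finset.mul_sum, Finset.sum_mul]
      exact Finset.sum_congr rfl fun x _ => hst x
  | zero => rw [mul_zero, zero_mul]; exact Submodule.zero_mem _
  | add x y _ _ hx hy => rw [mul_add, add_mul]; exact Submodule.add_mem _ hx hy
  | smul r x _ hx =>
    rw [mul_smul_comm, smul_mul_assoc]
    exact Submodule.smul_mem _ _ hx

/-- the size of a transversal of a proper subgroup is zero in `F` -/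
theorem card_zero {ℓ : ℕ} [Fact ℓ.Prime] (F : Type) [Field F] [CharP F ℓ] {H : Type} [Group H]
    [Finite H] {K P : Subgroup H} (hP : IsPGroup ℓ P) (hlt : K < P) {S : Finset H}
    (hS : IsTv K P S) : (S.card : F) = 0 := by
  have hdvd : ℓ ∣ S.card := by
    have hc := card_tv K P hlt.le S hS
    obtain ⟨k, hk⟩ := (IsPGroup.iff_card).1 hP
    have hdiv : S.card ∣ ℓ ^ k := ⟨_, by rw [← hk]; exact hc.symm⟩
    obtain ⟨j, -, hj⟩ := (Nat.dvd_prime_pow (Fact.out : ℓ.Prime)).1 hdiv
    rcases Nat.eq_zero_or_pos j with h0 | h0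
    · exfalso
      rw [h0, pow_zero] at hj
      rw [hj, one_mul] at hc
      exact hlt.ne (Subgroup.eq_of_le_of_card_ge hlt.le hc.ge)
    · rw [hj]
      exact dvd_pow_self ℓ h0.ne'
  exact (CharP.cast_eq_zero_iff F ℓ _).2 hdvd

/-- `lam(v n) = 0` for `n` in the Brauer kernel -/
theorem lam_BK {ℓ : ℕ} [Fact ℓ.Prime] [CharP F ℓ] [Finite V] (hV : IsPGroup ℓ V) (α : V →* A)
    {lam : A →ₗ[F] F} (sym : ∀ x y, lam (x * y) = lam (y * x)) (v : V) {w : A}
    (hw : w ∈ BK (cj F α) ⊤) : lam (α v * w) = 0 := by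
  classical
  unfold BK at hw
  induction hw using Submodule.span_induction with
  | mem n hn =>
    obtain ⟨K, S, m, hlt, hS, hm, rfl⟩ := hn
    have h1 : ∀ x ∈ S, lam (α v * cj F α x m) = lam (α v * m) := by
      intro x _
      rw [cj_ap]
      calc lam (α v * (α x * m * α x⁻¹)) = lam ((α v * α x * m) * α x⁻¹) := by
            simp only [mul_assoc]
        _ = lam (α x⁻¹ * (α v * α x * m)) := sym _ _
        _ = lam (α x⁻¹ * α v * α x * m) := by simp only [mul_assoc]
        _ = lam (α v * m) := by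
            rw [← map_mul, ← map_mul, mul_comm x⁻¹ v, inv_mul_cancel_right]
    rw [Finset.mul_sum, map_sum, Finset.sum_congr rfl h1, Finset.sum_const, nsmul_eq_mul,
      card_zero F (hV.to_subgroup ⊤) hlt hS, zero_mul]
  | zero => rw [mul_zero, map_zero]
  | add x y _ _ hx hy => rw [mul_add, map_add, hx, hy, add_zero]
  | smul r x _ hx => rw [mul_smul_comm, map_smul, hx, smul_zero]

/-- The character of the centraliser of `V`. -/
structure Ch [Fintype V] (α : V →* A) (chi : A →ₗ[F] F) : Prop where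
  bk : ∀ m ∈ BK (cj F α) ⊤, chi m = 0
  mul : ∀ x ∈ Fx (cj F α) ⊤, ∀ y ∈ Fx (cj F α) ⊤, chi (x * y) = chi x * chi y
  al : ∀ v, chi (α v) = 1
  spn : ∀ x ∈ Fx (cj F α) ⊤, ∃ q : V → F, x - ∑ v, q v • α v ∈ BK (cj F α) ⊤

variable [Fintype V] {α : V →* A} {chi : A →ₗ[F] F} (hc : Ch α chi)

include hc in
theorem Ch.one : chi 1 = 1 := by
  rw [← map_one α, hc.al]

include hc in
theorem Ch.q {x : A} {q : V → F} (hq : x - ∑ v, q v • α v ∈ BK (cj F α) ⊤) :
    chi x = ∑ v, q v := by
  have h1 := hc.bk _ hq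
  rw [map_sub, sub_eq_zero] at h1
  rw [h1, map_sum]
  refine Finset.sum_congr rfl fun v _ => ?_
  rw [map_smul, hc.al, smul_eq_mul, mul_one]

include hc in
/-- `chi` is invariant under conjugation with units which normalise `V` -/
theorem Ch.conj (ψ : V ≃* V) (b s : A) (hb : ∀ u, b * α u = α (ψ u) * b)
    (hs : ∀ u, α u * s = s * α (ψ u)) (hbs : b * s = 1) {x : A} (hx : x ∈ Fx (cj F α) ⊤) :
    chi (b * x * s) = chi x := by
  obtain ⟨q, hq⟩ := hc.spn x hx
  have h1 := hc.bk _ (conj_BK α ψ b s hb hs hq)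
  rw [mul_sub, sub_mul, map_sub, sub_eq_zero] at h1
  rw [h1, hc.q hq, Finset.mul_sum, Finset.sum_mul, map_sum]
  refine Finset.sum_congr rfl fun v _ => ?_
  rw [mul_smul_comm, smul_mul_assoc, map_smul, hb, mul_assoc, hbs, mul_one, hc.al, smul_eq_mul,
    mul_one]

include hc in
/-- `lam(σ x) = chi(x) lam(σ)` -/
theorem Ch.sig {ℓ : ℕ} [Fact ℓ.Prime] [CharP F ℓ] (hV : IsPGroup ℓ V)
    {lam : A →ₗ[F] F} (sym : ∀ x y, lam (x * y) = lam (y * x)) {x : A}
    (hx : x ∈ Fx (cj F α) ⊤) : ∑ v, lam (α v * x) = chi x * lam (∑ v, α v) := by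
  obtain ⟨q, hq⟩ := hc.spn x hx
  have h1 : ∀ v, lam (α v * x) = ∑ u, q u * lam (α (v * u)) := by
    intro v
    have h2 := lam_BK hV α sym v hq
    rw [mul_sub, map_sub, sub_eq_zero] at h2
    rw [h2, Finset.mul_sum, map_sum]
    refine Finset.sum_congr rfl fun u _ => ?_
    rw [mul_smul_comm, map_smul, smul_eq_mul, map_mul α]
  rw [hc.q hq, Finset.sum_congr rfl fun v _ => h1 v, Finset.sum_comm, Finset.sum_mul]
  refine Finset.sum_congr rfl fun u _ => ?_
  rw [← Finset.mul_sum, map_sum]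
  congr 1
  exact Equiv.sum_comp (Equiv.mulRight u) fun v => lam (α v)

end conj

section types

variable {F V E A Ω : Type} [Field F] [CommGroup V] [Group E] [Ring A] [Algebra F A]
  [MulAction (V × V) Ω]

theorem mem_tw (ψ : V →* V) (R : Subgroup V) (x y : V) :
    ((x, y) : V × V) ∈ tw ψ R ↔ y ∈ R ∧ ψ y = x := by
  rw [tw, Subgroup.mem_map]
  constructor
  · rintro ⟨r, hr, h⟩
    have h1 : ψ r = x := congrArg Prod.fst h
    have h2 : r = y := congrArg Prod.snd h
    subst h2
    exact ⟨hr, h1⟩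
  · rintro ⟨h1, h2⟩
    exact ⟨y, h1, Prod.ext h2 rfl⟩

/-- the point `ω` is fixed by the twisted diagonal of type `e` -/
def Ft (φ : E →* MulAut V) (e : E) (ω : Ω) : Prop := ∀ u : V, ((φ e u, u) : V × V) • ω = ω

variable {φ : E →* MulAut V}

theorem free_of (hst : ∀ ω : Ω, ∃ (e : E) (R : Subgroup V),
      MulAction.stabilizer (V × V) ω = tw (φ e).toMonoidHom R) (ω : Ω) (v : V)
    (h : ((1, v) : V × V) • ω = ω) : v = 1 := by
  obtain ⟨e, R, hR⟩ := hst ω
  have h1 : ((1, v) : V × V) ∈ MulAction.stabilizer (V × V) ω := h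
  rw [hR, mem_tw] at h1
  exact (map_eq_one_iff (φ e) (φ e).injective).1 h1.2

theorem Ft_mul (e : E) (ω : Ω) (w : V × V) (h : Ft φ e ω) : Ft φ e (w • ω) := by
  intro u
  rw [smul_smul, mul_comm, mul_smul, h u]

theorem Ft_iff (e : E) (ω : Ω) (w : V × V) : Ft φ e (w • ω) ↔ Ft φ e ω := by
  constructor
  · intro h
    have h1 := Ft_mul e _ w⁻¹ h
    rwa [inv_smul_smul] at h1
  · exact Ft_mul e ω w

theorem ex_Ft (hst : ∀ ω : Ω, ∃ (e : E) (R : Subgroup V),
      MulAction.stabilizer (V × V) ω = tw (φ e).toMonoidHom R) (z : Zq V Ω)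
    (h : ∀ u : V, u • z = z) : ∃ e : E, Ft φ e (rp z) := by
  obtain ⟨e, R, hR⟩ := hst (rp z)
  refine ⟨e, fun u => ?_⟩
  have h1 : cl V (((φ e u, 1) : V × V) • rp z) = cl V (rp z) := by
    rw [← smul_cl, cl_rp, h]
  obtain ⟨v, hv⟩ := (cl_eq _ _).1 h1
  rw [smul_smul, Prod.mk_mul_mk, one_mul, mul_one] at hv
  have h2 : ((φ e u, v) : V × V) ∈ MulAction.stabilizer (V × V) (rp z) := hv
  rw [hR, mem_tw] at h2
  have h3 : v = u := (φ e).injective h2.2
  rwa [h3] at hv

theorem Ft_fix (e : E) (z : Zq V Ω) (h : Ft φ e (rp z)) (u : V) : u • z = z := by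
  obtain ⟨u', rfl⟩ := (φ e).surjective u
  rw [← cl_rp z, smul_cl, cl_eq]
  refine ⟨u', ?_⟩
  rw [smul_smul, Prod.mk_mul_mk, one_mul, mul_one]
  exact h u'

theorem Ft_unique {ℓ : ℕ} {W : Subgroup V} (hC : Ctf ℓ φ W)
    (hst : ∀ ω : Ω, ∃ (e : E) (R : Subgroup V),
      MulAction.stabilizer (V × V) ω = tw (φ e).toMonoidHom R) (e e' : E) (ω : Ω)
    (h : Ft φ e ω) (h' : Ft φ e' ω) : e = e' := by
  obtain ⟨e1, R, hR⟩ := hst ω
  have h1 : ∀ u, φ e1 u = φ e u := by
    intro u
    have h2 : ((φ e u, u) : V × V) ∈ MulAction.stabilizer (V × V) ω := h u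
    rw [hR, mem_tw] at h2
    exact h2.2
  have h1' : ∀ u, φ e1 u = φ e' u := by
    intro u
    have h2 : ((φ e' u, u) : V × V) ∈ MulAction.stabilizer (V × V) ω := h' u
    rw [hR, mem_tw] at h2
    exact h2.2
  obtain ⟨u, hu⟩ := hC.nt
  have h3 : φ (e'⁻¹ * e) u = u := by
    rw [map_mul, MulAut.mul_apply, ← h1, h1', ← MulAut.mul_apply, ← map_mul, inv_mul_cancel,
      map_one, MulAut.one_apply]
  rcases hC.free _ _ h3 with h4 | h4
  · rw [inv_mul_eq_one] at h4
    exact h4.symm
  · exact absurd h4 hu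

variable [Fintype Ω] [Fintype V]

/-- the summand of `T w` at the orbit `z` -/
def fw (b s : Ω → A) (w : A) (z : Zq V Ω) : A := b (rp z) * w * s (rp z)

variable {α : V →* A} {lam : A →ₗ[F] F} {b s : Ω → A} (hf : Fr2 α lam b s)

include hf in
theorem fw_cl {w : A} (hw : w ∈ Fx (cj F α) ⊤) (ω : Ω) :
    fw b s w (cl V ω) = b ω * w * s ω := by
  obtain ⟨v, hv⟩ := (cl_eq (rp (cl V ω)) ω).1 (cl_rp _)
  rw [mem_C] at hw
  rw [fw]
  conv_rhs => rw [← hv, fr_b hf, fr_s hf]
  calc b (rp (cl V ω)) * w * s (rp (cl V ω))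
      = b (rp (cl V ω)) * (α v⁻¹ * α v) * w * s (rp (cl V ω)) := by rw [im, mul_one]
    _ = b (rp (cl V ω)) * α v⁻¹ * (α v * w) * s (rp (cl V ω)) := by simp only [mul_assoc]
    _ = b (rp (cl V ω)) * α v⁻¹ * w * (α v * s (rp (cl V ω))) := by
        rw [hw]
        simp only [mul_assoc]

include hf in
theorem fw_smul {w : A} (hw : w ∈ Fx (cj F α) ⊤) (u : V) (z : Zq V Ω) :
    fw b s w (u • z) = cj F α u (fw b s w z) := by
  have h1 : u • z = cl V (((u, 1) : V × V) • rp z) := by rw [← smul_cl, cl_rp]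
  rw [h1, fw_cl hf hw, hf.fb, hf.fs, cj_ap, fw]
  simp only [inv_one, map_one, mul_one, one_mul, mul_assoc]

include hf in
theorem Ft_b (e : E) (ω : Ω) (h : Ft φ e ω) (u : V) : b ω * α u = α (φ e u) * b ω := by
  have h1 := hf.fb (φ e u, u) ω
  rw [h u] at h1
  calc b ω * α u = α (φ e u) * b ω * α u⁻¹ * α u := by rw [← h1]
    _ = α (φ e u) * b ω := by rw [mul_assoc, im, mul_one]

include hf in
theorem Ft_s (e : E) (ω : Ω) (h : Ft φ e ω) (u : V) : α u * s ω = s ω * α (φ e u) := by
  have h1 := hf.fs (φ e u, u) ω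
  rw [h u] at h1
  calc α u * s ω = α u * s ω * (α (φ e u)⁻¹ * α (φ e u)) := by rw [im, mul_one]
    _ = (α u * s ω * α (φ e u)⁻¹) * α (φ e u) := by simp only [mul_assoc]
    _ = s ω * α (φ e u) := by rw [← h1]

include hf in
theorem Tm_split {w : A} (hw : w ∈ Fx (cj F α) ⊤) :
    ∃ T : Finset (Zq V Ω), (∀ z, z ∈ T ↔ ∀ u : V, u • z = z) ∧
      Tm V b s w - ∑ z ∈ T, fw b s w z ∈ BK (cj F α) ⊤ := by
  classical
  refine ⟨Finset.univ.filter (fun z : Zq V Ω => ∀ u : V, u • z = z), ?_, ?_⟩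
  · intro z
    rw [Finset.mem_filter]
    exact ⟨fun h => h.2, fun h => ⟨Finset.mem_univ _, h⟩⟩
  · have h1 : Tm V b s w = ∑ z ∈ Finset.univ.filter (fun z : Zq V Ω => ∀ u : V, u • z = z),
        fw b s w z + ∑ z ∈ Finset.univ.filter (fun z : Zq V Ω => ¬ ∀ u : V, u • z = z),
        fw b s w z := by
      rw [Finset.sum_filter_add_sum_filter_not]
      rfl
    rw [h1, add_sub_cancel_left]
    apply Pool.Agent.PFC.B5a.H77.trs F V A (Zq V Ω) (cj F α) ⊤
    · intro z hz u _
      rw [Finset.mem_filter] at hz ⊢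
      refine ⟨Finset.mem_univ _, fun h => hz.2 fun u' => ?_⟩
      have h2 := h u'
      rw [smul_smul, mul_comm, mul_smul] at h2
      exact smul_left_cancel u h2
    · intro z hz h
      rw [Finset.mem_filter] at hz
      exact hz.2 fun u => h u (Subgroup.mem_top u)
    · intro u _ z
      exact fw_smul hf hw u z

include hf in
theorem Tm_BK (hst : ∀ ω : Ω, ∃ (e : E) (R : Subgroup V),
      MulAction.stabilizer (V × V) ω = tw (φ e).toMonoidHom R) {w : A}
    (hw : w ∈ BK (cj F α) ⊤) : Tm V b s w ∈ BK (cj F α) ⊤ := by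
  obtain ⟨T, hT, hT2⟩ := Tm_split hf (BK_le_Fx _ _ hw)
  have h1 : ∑ z ∈ T, fw b s w z ∈ BK (cj F α) ⊤ := by
    refine Submodule.sum_mem _ fun z hz => ?_
    obtain ⟨e, he⟩ := ex_Ft hst z ((hT z).1 hz)
    exact conj_BK α (φ e) _ _ (Ft_b hf e _ he) (Ft_s hf e _ he) hw
  have h2 := Submodule.add_mem _ hT2 h1
  rwa [sub_add_cancel] at h2

end types

end Pool.Agent.PFC.B5c.H31
end
end -- Pool.Agent.Helper31_PFC.FulB

section -- Pool.Agent.Helper31_PFC.FUL

/-!
# Squad PFC, block B5c, row FUL (helper31): an idempotent which is `1` modulo the Brauer kernel of `V`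
is full
-/

open scoped BigOperators TensorProduct

noncomputable section

namespace Pool.Agent.PFC.B5c.H31

section claim

variable {F V E A Ω : Type} [Field F] [CommGroup V] [Group E] [Ring A] [Algebra F A]
  [MulAction (V × V) Ω] [Fintype Ω] [Fintype V] {φ : E →* MulAut V} {α : V →* A}
  {lam : A →ₗ[F] F} {b s : Ω → A} {c : Ω → (A →ₗ[F] F)} {chi : A →ₗ[F] F}

/-- `chi(∑_{O of type (e, ⊤)} b_O s_O) * lam(σ) = 1` -/
theorem claim {ℓ : ℕ} [Fact ℓ.Prime] [CharP F ℓ] (hV : IsPGroup ℓ V) (hf : Fr2 α lam b s)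
    (hfr : IsFr (bi F α) b c) (hcs : ∀ ω x, c ω x = lam (s ω * x)) (hc : Ch α chi)
    (hst : ∀ ω : Ω, ∃ (e : E) (R : Subgroup V),
      MulAction.stabilizer (V × V) ω = tw (φ e).toMonoidHom R) (e : E) (y y' : A)
    (h1 : y * y' = 1) (h2 : y' * y = 1) (h3 : ∀ u, y * α u = α (φ e u) * y)
    (T : Finset (Zq V Ω)) (hT : ∀ z, z ∈ T ↔ Ft φ e (rp z)) :
    (∑ z ∈ T, chi (fw b s 1 z)) * lam (∑ v, α v) = 1 := by
  classical
  let ψ : V →* V × V := (φ e).toMonoidHom.prod (MonoidHom.id V)
  letI : MulAction V Ω := MulAction.compHom Ω ψ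
  let ρ : V →* (A →ₗ[F] A) := rst (bi F α) ψ
  have hρ : IsFr ρ b c := ⟨fun h ω => hfr.1 (ψ h) ω, fun h ω m => hfr.2.1 (ψ h) ω m, hfr.2.2⟩
  have hap : ∀ u x, ρ u x = α (φ e u) * x * α u⁻¹ := fun u x => bi_ap α (ψ u) x
  have hy : y ∈ Fx ρ ⊤ := fun u _ => by rw [hap, ← h3, mul_assoc, mi, mul_one]
  have hy' : ∀ u, y' * α (φ e u) = α u * y' := by
    intro u
    calc y' * α (φ e u) = y' * (α (φ e u) * y) * y' := by
          rw [mul_assoc, mul_assoc, h1, mul_one]
      _ = y' * y * (α u * y') := by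
          rw [← h3]
          simp only [mul_assoc]
      _ = α u * y' := by rw [h2, one_mul]
  have hsub := frame_sub hρ ⊤ hy
  have hmul : ∀ x ∈ BK ρ ⊤, y' * x ∈ BK (cj F α) ⊤ := by
    intro x hx
    unfold BK at hx
    induction hx using Submodule.span_induction with
    | mem n hn =>
      obtain ⟨K, S, m, hlt, hS, hm, rfl⟩ := hn
      have h4 : ∀ x, y' * ρ x m = cj F α x (y' * m) := by
        intro x
        rw [hap, cj_ap]
        calc y' * (α (φ e x) * m * α x⁻¹) = (y' * α (φ e x)) * m * α x⁻¹ := by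
              simp only [mul_assoc]
          _ = α x * (y' * m) * α x⁻¹ := by
              rw [hy']
              simp only [mul_assoc]
      refine Submodule.subset_span ⟨K, S, y' * m, hlt, hS, ?_, ?_⟩
      · intro x hx
        rw [← h4, hm x hx]
      · rw [Finset.mul_sum]
        exact Finset.sum_congr rfl fun x _ => h4 x
    | zero => rw [mul_zero]; exact Submodule.zero_mem _
    | add x x' _ _ hx hx' => rw [mul_add]; exact Submodule.add_mem _ hx hx'
    | smul r x _ hx => rw [mul_smul_comm]; exact Submodule.smul_mem _ _ hx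
  have h5 := hc.bk _ (hmul _ hsub)
  rw [mul_sub, h2, map_sub, hc.one, sub_eq_zero, Finset.mul_sum, map_sum] at h5
  have h6 : ∀ ω : Ω, ω ∈ fp (⊤ : Subgroup V) Ω ↔ Ft φ e ω := by
    intro ω
    rw [mem_fp]
    exact ⟨fun h u => h u (Subgroup.mem_top u), fun h u _ => h u⟩
  have h7 : (fp (⊤ : Subgroup V) Ω) = Finset.univ.filter (fun ω => Ft φ e ω) := by
    ext ω
    rw [h6, Finset.mem_filter]
    exact ⟨fun h => ⟨Finset.mem_univ _, h⟩, fun h => h.2⟩
  have h8 : T = Finset.univ.filter (fun z : Zq V Ω => Ft φ e (rp z)) := by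
    ext z
    rw [hT, Finset.mem_filter]
    exact ⟨fun h => ⟨Finset.mem_univ _, h⟩, fun h => h.2⟩
  rw [h5, h7, h8, Finset.sum_mul, Finset.sum_filter, Finset.sum_filter, sum_z (free_of hst)]
  refine Finset.sum_congr rfl fun z _ => ?_
  simp only [Ft_iff]
  by_cases hz : Ft φ e (rp z)
  · simp only [if_pos hz]
    -- the elements `y' b` and `s y` commute with `V`
    have hb := Ft_b hf e (rp z) hz
    have hs := Ft_s hf e (rp z) hz
    have hB : y' * b (rp z) ∈ Fx (cj F α) ⊤ := by
      rw [mem_C]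
      intro u
      rw [← mul_assoc, ← hy', mul_assoc, ← hb, mul_assoc]
    have hS : s (rp z) * y ∈ Fx (cj F α) ⊤ := by
      rw [mem_C]
      intro u
      rw [← mul_assoc, hs, mul_assoc, ← h3, mul_assoc]
    have hbs : b (rp z) * s (rp z) ∈ Fx (cj F α) ⊤ := by
      rw [mem_C]
      intro u
      obtain ⟨u', rfl⟩ := (φ e).surjective u
      rw [← mul_assoc, ← hb, mul_assoc, hs, mul_assoc]
    have h9 : ∀ v, chi (y' * c (((1, v) : V × V) • rp z) y • b (((1, v) : V × V) • rp z)) =
        lam (α v * (s (rp z) * y)) * chi (y' * b (rp z)) := by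
      intro v
      rw [hcs, fr_b hf, fr_s hf, mul_smul_comm, map_smul, smul_eq_mul, ← mul_assoc y',
        hc.mul _ hB _ (al_C α _), hc.al, mul_one, mul_assoc (α v)]
    rw [Finset.sum_congr rfl fun v _ => h9 v, ← Finset.sum_mul, hc.sig hV hf.sym hS, fw, mul_one]
    have h10 : chi (y' * (b (rp z) * s (rp z)) * y) = chi (b (rp z) * s (rp z)) := by
      refine hc.conj ((φ e).symm : V ≃* V) y' y ?_ ?_ h2 hbs
      · intro u
        have := hy' ((φ e).symm u)
        rwa [MulEquiv.apply_symm_apply] at this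
      · intro u
        have := h3 ((φ e).symm u)
        rw [MulEquiv.apply_symm_apply] at this
        exact this.symm
    have h11 : y' * (b (rp z) * s (rp z)) * y = (y' * b (rp z)) * (s (rp z) * y) := by
      simp only [mul_assoc]
    rw [h11, hc.mul _ hB _ hS] at h10
    rw [← h10]
    ring
  · simp only [if_neg hz, Finset.sum_const_zero, zero_mul]

end claim

/-- The statement without the bundles. -/
theorem ful_main {F V E A : Type} [Field F] [CommGroup V] [Group E] [Ring A] [Algebra F A]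
    [Fintype V] [Fintype E] [FiniteDimensional F A] {φ : E →* MulAut V} {α : V →* A}
    {lam : A →ₗ[F] F} {chi : A →ₗ[F] F} {ℓ : ℕ} [Fact ℓ.Prime] [CharP F ℓ] {W : Subgroup V}
    (hC : Ctf ℓ φ W) (hlam : Frm F α lam)
    (hps : PS (fun K => ∃ (e : E) (R : Subgroup V), K = tw (φ e).toMonoidHom R) (bi F α))
    (hc : Ch α chi)
    (huni : ∀ e : E, ∃ y y' : A, y * y' = 1 ∧ y' * y = 1 ∧ ∀ u, y * α u = α (φ e u) * y)
    (hcen : ∀ z : A, (∀ a, z * a = a * z) → IsUnit z ∨ IsNilpotent z) (j : A)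
    (hj : j ∈ Fx (cj F α) ⊤) (hj1 : 1 - j ∈ BK (cj F α) ⊤) :
    (1 : A) ∈ Submodule.span F {x | ∃ a b : A, x = a * j * b} := by
  classical
  obtain ⟨Ω, _, _, b, c, hfr, hst⟩ := hps
  obtain ⟨s, hcs, hf⟩ := ex_fr hlam.sym hlam.nd hfr
  have hfree := free_of hst
  obtain ⟨T, hT, hT2⟩ := Tm_split hf (one_C α)
  have hchi1 : chi (Tm V b s 1) = ∑ z ∈ T, chi (fw b s 1 z) := by
    have h1 := hc.bk _ hT2
    rwa [map_sub, map_sum, sub_eq_zero] at h1
  have hcard : chi (Tm V b s 1) * lam (∑ v, α v) = (Fintype.card E : F) := by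
    have h1 : ∑ z ∈ T, chi (fw b s 1 z) =
        ∑ e : E, ∑ z ∈ T.filter (fun z => Ft φ e (rp z)), chi (fw b s 1 z) := by
      simp only [Finset.sum_filter]
      rw [Finset.sum_comm]
      refine Finset.sum_congr rfl fun z hz => ?_
      obtain ⟨e, he⟩ := ex_Ft hst z ((hT z).1 hz)
      rw [Finset.sum_eq_single e, if_pos he]
      · intro e' _ hne
        rw [if_neg]
        intro he'
        exact hne (Ft_unique hC hst e' e _ he' he)
      · intro h
        exact absurd (Finset.mem_univ e) h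
    rw [hchi1, h1, Finset.sum_mul]
    have h2 : ∀ e : E, (∑ z ∈ T.filter (fun z => Ft φ e (rp z)), chi (fw b s 1 z)) *
        lam (∑ v, α v) = 1 := by
      intro e
      obtain ⟨y, y', hy1, hy2, hy3⟩ := huni e
      refine claim hC.pg hf hfr hcs hc hst e y y' hy1 hy2 hy3 _ fun z => ?_
      rw [Finset.mem_filter, hT]
      exact ⟨fun h => h.2, fun h => ⟨fun u => Ft_fix e z h u, h⟩⟩
    rw [Finset.sum_congr rfl fun e _ => h2 e, Finset.sum_const, Finset.card_univ, nsmul_eq_mul,
      mul_one]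
  have hne : (Fintype.card E : F) ≠ 0 := by
    intro h
    rw [CharP.cast_eq_zero_iff F ℓ, ← Nat.card_eq_fintype_card] at h
    exact hC.cop h
  have hadd : Tm V b s 1 = Tm V b s j + Tm V b s (1 - j) := by
    rw [Tm, Tm, Tm, ← Finset.sum_add_distrib]
    refine Finset.sum_congr rfl fun z _ => ?_
    rw [← add_mul, ← mul_add, add_sub_cancel]
  have hchij : chi (Tm V b s j) = chi (Tm V b s 1) := by
    rw [hadd, map_add, hc.bk _ (Tm_BK hf hst hj1), add_zero]
  have hzc : ∀ a, Tm V b s j * a = a * Tm V b s j := fun a => (Tm_central hf hfree hj a).symm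
  have hz0 : chi (Tm V b s j) ≠ 0 := by
    intro h
    rw [hchij] at h
    rw [h, zero_mul] at hcard
    exact hne hcard.symm
  rcases hcen _ hzc with hu | hn
  · obtain ⟨z', hz'⟩ := hu.exists_left_inv
    have h1 : ∑ z : Zq V Ω, z' * b (rp z) * j * s (rp z) = 1 := by
      rw [← hz', Tm, Finset.mul_sum]
      simp only [mul_assoc]
    rw [← h1]
    exact Submodule.sum_mem _ fun z _ => Submodule.subset_span ⟨_, _, rfl⟩
  · exfalso
    obtain ⟨N, hN⟩ := hn
    have hCz : Tm V b s j ∈ Fx (cj F α) ⊤ := by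
      rw [mem_C]
      intro u
      exact (hzc _).symm
    have hpow : ∀ k : ℕ, Tm V b s j ^ k ∈ Fx (cj F α) ⊤ ∧
        chi (Tm V b s j ^ k) = chi (Tm V b s j) ^ k := by
      intro k
      induction k with
      | zero =>
        rw [pow_zero, pow_zero]
        exact ⟨one_C α, hc.one⟩
      | succ k ih =>
        rw [pow_succ, pow_succ, hc.mul _ ih.1 _ hCz, ih.2]
        exact ⟨C_mul α ih.1 hCz, rfl⟩
    have h1 := (hpow N).2
    rw [hN, map_zero] at h1
    exact pow_ne_zero N hz0 h1.symm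

/-- row FUL -/
theorem ful (hbrk : BrkStmt) : FulStmt := by
  classical
  intro ℓ _ F V E A _ _ _ _ _ _ _ _ _ φ W α lam j hC hlam hps hbq huni hcen hj _ hj1
  obtain ⟨β, sg, h⟩ := hbq
  let β' : A →ₗ[F] MonoidAlgebra F V := β
  have hβ : ∀ m ∈ Fx (cj F α) ⊤, β' m = 0 ↔ m ∈ BK (cj F α) ⊤ :=
    hbrk ℓ F V A (MonoidAlgebra F V) (cj F α) (cj F (MonoidAlgebra.of F V)) ⊤ β' sg hC.pg
      h.toBrS
  have hcov : ∀ v, β' (α v) = MonoidAlgebra.of F V v := h.cov
  have hmul : ∀ x ∈ Fx (cj F α) ⊤, ∀ y ∈ Fx (cj F α) ⊤, β' (x * y) = β' x * β' y := h.mul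
  let chi : A →ₗ[F] F := (B5a.au F V).toLinearMap.comp β'
  have hchi : ∀ x, chi x = B5a.au F V (β' x) := fun x => rfl
  have hc : Ch α chi := by
    refine ⟨?_, ?_, ?_, ?_⟩
    · intro m hm
      rw [hchi, (hβ m (BK_le_Fx _ _ hm)).2 hm, map_zero]
    · intro x hx y hy
      rw [hchi, hmul x hx y hy, map_mul]
      rfl
    · intro v
      rw [hchi, hcov, B5a.au, MonoidAlgebra.lift_of]
      rfl
    · intro x hx
      refine ⟨fun v => (β' x).coeff v, ?_⟩
      rw [← hβ]
      · rw [map_sub, map_sum, sub_eq_zero]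
        ext w
        rw [MonoidAlgebra.coeff_sum, Finsupp.finset_sum_apply]
        simp only [map_smul, hcov, MonoidAlgebra.of_apply, MonoidAlgebra.coeff_smul,
          MonoidAlgebra.coeff_single, Finsupp.smul_apply, Finsupp.single_apply, smul_eq_mul,
          mul_ite, mul_one, mul_zero, Finset.sum_ite_eq', Finset.mem_univ, if_true]
      · refine Submodule.sub_mem _ hx (Submodule.sum_mem _ fun v _ => ?_)
        exact Submodule.smul_mem _ _ (al_C α v)
  exact ful_main hC hlam hps hc huni hcen j hj hj1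

end Pool.Agent.PFC.B5c.H31
end
end -- Pool.Agent.Helper31_PFC.FUL

section -- Pool.Agent.Helper31_PFC.INJa

/-!
# Squad PFC, block B5a, row INJa (helper31): the lift is injective
-/

open scoped BigOperators TensorProduct

noncomputable section

namespace Pool.Agent.PFC.B5a.H31

section

variable {F V B : Type} [Field F] [CommGroup V] [Ring B] [Algebra F B] {n : ℕ}

/-- the matrix of the coefficients at `u` -/
def Yc (u : V) (c : Matrix (Fin n) (Fin n) (MonoidAlgebra F V)) :
    Matrix (Fin n) (Fin n) F := fun i j => (c i j).coeff u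

theorem Yc_add (u : V) (c d : Matrix (Fin n) (Fin n) (MonoidAlgebra F V)) :
    Yc u (c + d) = Yc u c + Yc u d := rfl

theorem Yc_smul (u : V) (r : F) (c : Matrix (Fin n) (Fin n) (MonoidAlgebra F V)) :
    Yc u (r • c) = r • Yc u c := rfl

/-- `κ_u(c) = τ u⁻¹ y_u(c)` -/
def kap (β : V →* B) (π : B →ₐ[F] Matrix (Fin n) (Fin n) F) (u : V)
    (c : Matrix (Fin n) (Fin n) (MonoidAlgebra F V)) : Matrix (Fin n) (Fin n) F :=
  π (β u⁻¹) * Yc u c

theorem mul_kap (β : V →* B) (π : B →ₐ[F] Matrix (Fin n) (Fin n) F) (u : V)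
    (c : Matrix (Fin n) (Fin n) (MonoidAlgebra F V)) :
    π (β u) * kap β π u c = Yc u c := by
  rw [kap, ← mul_assoc, ← map_mul, ← map_mul, mul_inv_cancel, map_one, map_one, one_mul]

theorem Yc_grp (β : V →* B) (π : B →ₐ[F] Matrix (Fin n) (Fin n) F)
    (f : B →ₐ[F] Matrix (Fin n) (Fin n) (MonoidAlgebra F V)) (hf : Lf F β n π f) (v w : V)
    (c : Matrix (Fin n) (Fin n) (MonoidAlgebra F V)) :
    Yc w (f (β v) * c) = π (β v) * Yc (v⁻¹ * w) c := by
  ext i j
  simp only [Yc, Matrix.mul_apply, hf.grp, MonoidAlgebra.coeff_sum, Finsupp.finset_sum_apply,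
    MonoidAlgebra.coeff_single_mul_apply]

theorem kap_grp (β : V →* B) (π : B →ₐ[F] Matrix (Fin n) (Fin n) F)
    (f : B →ₐ[F] Matrix (Fin n) (Fin n) (MonoidAlgebra F V)) (hf : Lf F β n π f) (v w : V)
    (c : Matrix (Fin n) (Fin n) (MonoidAlgebra F V)) :
    kap β π w (f (β v) * c) = kap β π (v⁻¹ * w) c := by
  rw [kap, Yc_grp β π f hf, kap, ← mul_assoc, ← map_mul, ← map_mul, mul_inv_rev, inv_inv]

variable [Fintype V]

/-- `w_ij(c) = ∑_u κ_u(c)_ij β u` -/
def wm (β : V →* B) (π : B →ₐ[F] Matrix (Fin n) (Fin n) F) (i j : Fin n) :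
    Matrix (Fin n) (Fin n) (MonoidAlgebra F V) →ₗ[F] B where
  toFun c := ∑ u, kap β π u c i j • β u
  map_add' c d := by
    simp only [kap, Yc_add, mul_add, Matrix.add_apply, add_smul, Finset.sum_add_distrib]
  map_smul' r c := by
    simp only [kap, Yc_smul, Matrix.mul_smul, Matrix.smul_apply, smul_assoc, Finset.smul_sum,
      RingHom.id_apply]

theorem wm_grp (β : V →* B) (π : B →ₐ[F] Matrix (Fin n) (Fin n) F)
    (f : B →ₐ[F] Matrix (Fin n) (Fin n) (MonoidAlgebra F V)) (hf : Lf F β n π f) (i j : Fin n)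
    (v : V) (c : Matrix (Fin n) (Fin n) (MonoidAlgebra F V)) :
    wm β π i j (f (β v) * c) = β v * wm β π i j c := by
  change ∑ u, kap β π u (f (β v) * c) i j • β u = β v * ∑ u, kap β π u c i j • β u
  rw [Finset.mul_sum, ← Equiv.sum_comp (Equiv.mulLeft v)]
  refine Finset.sum_congr rfl fun u _ => ?_
  rw [kap_grp β π f hf, Equiv.coe_mulLeft, inv_mul_cancel_left, mul_smul_comm, map_mul]

theorem wm_sum (β : V →* B) (π : B →ₐ[F] Matrix (Fin n) (Fin n) F)
    (f : B →ₐ[F] Matrix (Fin n) (Fin n) (MonoidAlgebra F V)) (hf : Lf F β n π f)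
    (c : Matrix (Fin n) (Fin n) (MonoidAlgebra F V)) :
    ∑ i, ∑ j, f (wm β π i j c) * Matrix.single i j 1 = c := by
  classical
  ext p q w
  have h1 : ∀ i j, (f (wm β π i j c) p i).coeff w = kap β π w c i j * π (β w) p i := by
    intro i j
    change (f (∑ u, kap β π u c i j • β u) p i).coeff w = _
    simp only [map_sum, map_smul, Matrix.sum_apply, Matrix.smul_apply, hf.grp,
      MonoidAlgebra.coeff_sum, MonoidAlgebra.coeff_smul, MonoidAlgebra.coeff_single,
      Finsupp.finset_sum_apply, Finsupp.smul_apply, Finsupp.single_apply, smul_eq_mul, mul_ite,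
      mul_zero, Finset.sum_ite_eq, Finset.sum_ite_eq', Finset.mem_univ, if_true]
  have h2 : ∀ i j, ((f (wm β π i j c) * Matrix.single i j 1 :
      Matrix (Fin n) (Fin n) (MonoidAlgebra F V)) p q).coeff w =
      if j = q then kap β π w c i j * π (β w) p i else 0 := by
    intro i j
    by_cases h : j = q
    · subst h
      rw [if_pos rfl, Matrix.mul_single_apply_same, mul_one, h1]
    · rw [if_neg h, Matrix.mul_single_apply_of_ne _ _ _ _ _ (Ne.symm h)]
      rfl
  have h3 : (c p q).coeff w = (π (β w) * kap β π w c) p q := by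
    rw [mul_kap]
    rfl
  rw [h3, Matrix.mul_apply]
  simp only [Matrix.sum_apply, MonoidAlgebra.coeff_sum, Finsupp.finset_sum_apply, h2]
  refine Finset.sum_congr rfl fun i _ => ?_
  rw [Finset.sum_ite_eq' Finset.univ q, if_pos (Finset.mem_univ q), mul_comm]

end

/-- row INJa -/
theorem inj : InjStmt := by
  classical
  intro F V B _ _ _ _ _ β n π f hn hsep hsur hnil hf
  obtain ⟨κ, _, u, v, huv, hT⟩ := hsep
  -- the averaged maps
  let s : Fin n → Fin n → Matrix (Fin n) (Fin n) (MonoidAlgebra F V) → B := fun i j c =>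
    ∑ k, u k * wm β π i j (f (v k) * c)
  have hs : ∀ i j c b, s i j (f b * c) = b * s i j c := by
    intro i j c b
    let T : B →ₗ[F] B →ₗ[F] B := LinearMap.mk₂ F (fun x y => x * wm β π i j (f y * c))
      (fun x x' y => add_mul _ _ _) (fun r x y => smul_mul_assoc _ _ _)
      (fun x y y' => by rw [map_add, add_mul, map_add, mul_add])
      (fun r x y => by rw [map_smul, smul_mul_assoc, map_smul, mul_smul_comm])
    have hTa : ∀ x y, T x y = x * wm β π i j (f y * c) := fun x y => rfl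
    have h := hT B T (fun a b g => by
      rw [hTa, hTa, map_mul f, mul_assoc (f (β g)), wm_grp β π f hf, mul_assoc]) b
    simp only [hTa] at h
    change ∑ k, u k * wm β π i j (f (v k) * (f b * c)) = b * ∑ k, u k * wm β π i j (f (v k) * c)
    rw [Finset.mul_sum]
    calc ∑ k, u k * wm β π i j (f (v k) * (f b * c))
        = ∑ k, u k * wm β π i j (f (v k * b) * c) := by
          refine Finset.sum_congr rfl fun k _ => ?_
          rw [map_mul f, mul_assoc]
      _ = ∑ k, b * u k * wm β π i j (f (v k) * c) := h.symm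
      _ = _ := Finset.sum_congr rfl fun k _ => mul_assoc _ _ _
  have hsum : ∑ i, ∑ j, f (s i j 1) * Matrix.single i j 1 =
      (1 : Matrix (Fin n) (Fin n) (MonoidAlgebra F V)) := by
    have h1 : ∀ i j, f (s i j 1) = ∑ k, f (u k) * f (wm β π i j (f (v k) * 1)) := by
      intro i j
      change f (∑ k, u k * wm β π i j (f (v k) * 1)) = _
      rw [map_sum]
      exact Finset.sum_congr rfl fun k _ => map_mul f _ _
    calc ∑ i, ∑ j, f (s i j 1) * Matrix.single i j 1
        = ∑ i, ∑ j, ∑ k, f (u k) * (f (wm β π i j (f (v k) * 1)) * Matrix.single i j 1) := by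
          refine Finset.sum_congr rfl fun i _ => Finset.sum_congr rfl fun j _ => ?_
          rw [h1, Finset.sum_mul]
          exact Finset.sum_congr rfl fun k _ => mul_assoc _ _ _
      _ = ∑ i, ∑ k, ∑ j, f (u k) * (f (wm β π i j (f (v k) * 1)) * Matrix.single i j 1) :=
          Finset.sum_congr rfl fun i _ => Finset.sum_comm
      _ = ∑ k, ∑ i, ∑ j, f (u k) * (f (wm β π i j (f (v k) * 1)) * Matrix.single i j 1) :=
          Finset.sum_comm
      _ = ∑ k, f (u k) * ∑ i, ∑ j, f (wm β π i j (f (v k) * 1)) * Matrix.single i j 1 := by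
          simp only [Finset.mul_sum]
      _ = ∑ k, f (u k) * (f (v k) * 1) := by
          refine Finset.sum_congr rfl fun k _ => ?_
          rw [wm_sum β π f hf]
      _ = f (∑ k, u k * v k) := by
          simp only [map_sum, map_mul, mul_one]
      _ = 1 := by rw [huv, map_one]
  have hs0 : ∀ i j, s i j 0 = 0 := by
    intro i j
    change ∑ k, u k * wm β π i j (f (v k) * 0) = 0
    simp only [mul_zero, map_zero, Finset.sum_const_zero]
  clear_value s
  -- some coefficient does not vanish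
  have hne : ∃ i j p q, π (s i j 1) p q ≠ 0 := by
    by_contra hcon
    simp only [not_exists, not_not] at hcon
    have h0 : au F V ((1 : Matrix (Fin n) (Fin n) (MonoidAlgebra F V)) ⟨0, hn⟩ ⟨0, hn⟩) = 0 := by
      rw [← hsum]
      simp only [Matrix.sum_apply, Matrix.mul_apply, map_sum, map_mul, hf.aug, hcon, zero_mul,
        Finset.sum_const_zero]
    rw [Matrix.one_apply_eq, map_one] at h0
    exact one_ne_zero h0
  obtain ⟨i, j, p, q, hx⟩ := hne
  rw [injective_iff_map_eq_zero]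
  intro k hk
  have hkb : ∀ b, k * (b * s i j 1) = 0 := by
    intro b
    rw [← mul_assoc, ← hs, map_mul f, hk, zero_mul, zero_mul, hs0]
  choose e he using fun m : Fin n => hsur (Matrix.single m p (1 : F))
  choose e' he' using fun m : Fin n => hsur (Matrix.single q m (1 : F))
  set y : B := (π (s i j 1) p q)⁻¹ • ∑ m, e m * s i j 1 * e' m with hy
  have hπy : π y = 1 := by
    rw [hy, map_smul, map_sum]
    simp only [map_mul, he, he']
    ext a b
    rw [Matrix.smul_apply, Matrix.sum_apply, smul_eq_mul]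
    have h1 : ∀ m : Fin n, (Matrix.single m p (1 : F) * π (s i j 1) * Matrix.single q m (1 : F) :
        Matrix (Fin n) (Fin n) F) a b = if a = m then (if m = b then π (s i j 1) p q else 0) else 0 := by
      intro m
      by_cases ha : a = m
      · subst ha
        rw [if_pos rfl]
        by_cases hb : a = b
        · subst hb
          rw [if_pos rfl, Matrix.mul_single_apply_same, mul_one,
            Matrix.single_mul_apply_same, one_mul]
        · rw [if_neg hb, Matrix.mul_single_apply_of_ne _ _ _ _ _ (Ne.symm hb)]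
      · rw [if_neg ha, Matrix.mul_assoc, Matrix.single_mul_apply_of_ne _ _ _ _ _ ha]
    simp only [h1, Finset.sum_ite_eq, Finset.mem_univ, if_true]
    by_cases hab : a = b
    · subst hab
      rw [if_pos rfl, inv_mul_cancel₀ hx, Matrix.one_apply_eq]
    · rw [if_neg hab, mul_zero, Matrix.one_apply_ne hab]
  have hky : k * y = 0 := by
    rw [hy, mul_smul_comm, Finset.mul_sum]
    simp only [← mul_assoc]
    have h1 : ∀ m, k * e m * s i j 1 * e' m = 0 := by
      intro m
      rw [mul_assoc k, hkb, zero_mul]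
    simp only [h1, Finset.sum_const_zero, smul_zero]
  have hu : IsUnit y := by
    have h1 : IsNilpotent (1 - y) := hnil _ (by rw [map_sub, map_one, hπy, sub_self])
    have h2 := h1.isUnit_one_sub
    rwa [sub_sub_cancel] at h2
  exact (hu.mul_left_eq_zero).1 hky

end Pool.Agent.PFC.B5a.H31
end
end -- Pool.Agent.Helper31_PFC.INJa

section -- Pool.Agent.Helper83_PFC.QTPa

/-!
Squad PFC, block B5a, row QTP: `A(Q)(V) = A(V) = F V`, and the centraliser of `V` in `A(Q)` is local.
-/

set_option autoImplicit false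

noncomputable section

namespace Pool.Agent.PFC.B5a.H83

section

variable {F V A B : Type} [Field F] [CommGroup V] [Ring A] [Algebra F A] [Ring B] [Algebra F B]

lemma mem_Cz (α : V →* A) (Q : Subgroup V) (a : A) :
    a ∈ Cz F α Q ↔ ∀ u ∈ Q, α u * a = a * α u := by
  unfold Cz
  rw [Subalgebra.mem_centralizer_iff]
  constructor
  · intro h u hu
    exact h _ ⟨u, hu, rfl⟩
  · rintro h _ ⟨u, hu, rfl⟩
    exact h u hu

lemma cj_apply (α : V →* A) (u : V) (a : A) : cj F α u a = α u * a * α u⁻¹ := by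
  change α u * (a * α u⁻¹) = _
  rw [mul_assoc]

/-- the Brauer kernel in terms of a frame of the bimodule -/
lemma diag_iff {ℓ : ℕ} [Fact ℓ.Prime] [CharP F ℓ] [Finite V] {α : V →* A} {Ω : Type} [Fintype Ω]
    [MulAction (V × V) Ω] {b : Ω → A} {c : Ω → (A →ₗ[F] F)} (hfr : IsFr (bi F α) b c)
    (P : Subgroup V) (hP : IsPGroup ℓ P) {m : A} (hm : m ∈ Fx (cj F α) P) :
    m ∈ BK (cj F α) P ↔ ∀ ω : Ω, (∀ u ∈ P, ((u, u) : V × V) • ω = ω) → c ω m = 0 := by
  let : MulAction V Ω := MulAction.compHom Ω ((MonoidHom.id V).prod (MonoidHom.id V))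
  have h : IsFr (cj F α) b c :=
    ⟨fun h ω => hfr.1 (h, h) ω, fun h ω m => hfr.2.1 (h, h) ω m, hfr.2.2⟩
  exact frame_iff h P hP hm

lemma Cz_top_le (α : V →* A) (Q : Subgroup V) : Cz F α ⊤ ≤ Cz F α Q := by
  intro a ha
  rw [mem_Cz] at ha ⊢
  exact fun u _ => ha u (Subgroup.mem_top u)

lemma q_mem (α : V →* A) (Q : Subgroup V) (q : Cz F α Q →ₐ[F] B) (a : Cz F α ⊤) :
    q (Subalgebra.inclusion (Cz_top_le α Q) a) ∈ Cz F (be F α Q q) ⊤ := by
  rw [mem_Cz]
  intro u _
  have h1 : be F α Q q u = q (zin F α Q u) := rfl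
  rw [h1, ← map_mul, ← map_mul]
  refine congrArg q (Subtype.ext ?_)
  exact (mem_Cz α ⊤ (a : A)).1 a.2 u (Subgroup.mem_top u)

/-- the map `Cz F α ⊤ → Cz F (be F α Q q) ⊤` -/
def gg (α : V →* A) (Q : Subgroup V) (q : Cz F α Q →ₐ[F] B) :
    Cz F α ⊤ →ₐ[F] Cz F (be F α Q q) ⊤ :=
  (q.comp (Subalgebra.inclusion (Cz_top_le α Q))).codRestrict _ (q_mem α Q q)

end

theorem qtpa : QtpStmt := by
  classical
  intro bki qfc ℓ _ F V A B _ _ _ _ _ _ _ _ α Q q X hV hq hps htp hloc
  obtain ⟨Ω, _, _, b, c, hfr, -⟩ := hps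
  obtain ⟨Ω', _, _, j, b', c', hfr', hj, hfx, hje, hc, hb⟩ :=
    qfc bki ℓ F V A B α Q q Ω b c hV hq hfr
  have hPG : ∀ P : Subgroup V, IsPGroup ℓ P := fun P => hV.to_subgroup P
  -- fixed vectors and centralisers
  have hFA : ∀ a : A, a ∈ Fx (cj F α) ⊤ ↔ a ∈ Cz F α ⊤ := (bki F V A α ⊤).1
  have hFB : ∀ x : B, x ∈ Fx (cj F (be F α Q q)) ⊤ ↔ x ∈ Cz F (be F α Q q) ⊤ :=
    (bki F V B (be F α Q q) ⊤).1
  -- (1) lifting
  have lift : ∀ x : Cz F (be F α Q q) ⊤, ∃ a : Cz F α ⊤, gg α Q q a = x := by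
    intro x
    choose s hs1 hs2 using hb
    have hxf := (hFB x).2 x.2
    have hinv : ∀ (u : V) (ω' : Ω'), c' (((u, u) : V × V) • ω') x = c' ω' x := by
      intro u ω'
      have h := hfr'.2.1 (u, u) ω' x
      have h2 : bi F (be F α Q q) (u, u) (x : B) = x := hxf u (Subgroup.mem_top u)
      rwa [h2] at h
    let y : Cz F α Q := ∑ ω', c' ω' x • s ω'
    have hy : (y : A) = ∑ ω', c' ω' x • b (j ω') := by
      simp only [y]
      rw [AddSubmonoidClass.coe_finsetSum]
      refine Finset.sum_congr rfl fun ω' _ => ?_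
      rw [← hs1]
      rfl
    have hyF : (y : A) ∈ Fx (cj F α) ⊤ := by
      intro u _
      rw [hy, map_sum]
      have h1 : ∀ ω', cj F α u (c' ω' x • b (j ω')) =
          c' (((u, u) : V × V) • ω') x • b (j (((u, u) : V × V) • ω')) := by
        intro ω'
        rw [map_smul, hinv, hje, hfr.1]
        rfl
      rw [Finset.sum_congr rfl fun ω' _ => h1 ω']
      exact Equiv.sum_comp (MulAction.toPerm ((u, u) : V × V)) fun ω' => c' ω' x • b (j ω')
    refine ⟨⟨y, (hFA y).1 hyF⟩, Subtype.ext ?_⟩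
    have h2 : (gg α Q q ⟨y, (hFA y).1 hyF⟩ : B) = q y := rfl
    rw [h2]
    simp only [y]
    rw [map_sum]
    conv_rhs => rw [← hfr'.2.2 (x : B)]
    refine Finset.sum_congr rfl fun ω' _ => ?_
    rw [map_smul, hs2]
  -- (2) the Brauer kernels
  have hBK : ∀ a : Cz F α ⊤, ((gg α Q q a : B) ∈ BK (cj F (be F α Q q)) ⊤ ↔
      (a : A) ∈ BK (cj F α) ⊤) := by
    intro a
    rw [diag_iff hfr ⊤ (hPG ⊤) ((hFA a).2 a.2),
      diag_iff hfr' ⊤ (hPG ⊤) ((hFB _).2 (gg α Q q a).2)]
    have h1 : ∀ ω', c' ω' (gg α Q q a : B) = c (j ω') (a : A) := by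
      intro ω'
      exact hc ω' _
    constructor
    · intro h ω hω
      obtain ⟨ω', rfl⟩ := (hfx ω).2 fun u _ => hω u (Subgroup.mem_top u)
      rw [← h1]
      refine h ω' fun u hu => ?_
      apply hj
      rw [hje]
      exact hω u hu
    · intro h ω' hω'
      rw [h1]
      refine h (j ω') fun u hu => ?_
      rw [← hje, hω' u hu]
  have hsum : ∀ k : V → F, ∃ a : Cz F α ⊤, (a : A) = ∑ u, k u • α u ∧
      (gg α Q q a : B) = ∑ u, k u • be F α Q q u := by
    intro k
    let y : Cz F α ⊤ := ∑ u, k u • zin F α ⊤ u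
    have hy : (y : A) = ∑ u, k u • α u := by
      simp only [y]
      rw [AddSubmonoidClass.coe_finsetSum]
      rfl
    refine ⟨y, hy, ?_⟩
    have h2 : (gg α Q q y : B) = q (∑ u, k u • zin F α Q u) := by
      refine congrArg q (Subtype.ext ?_)
      rw [AddSubmonoidClass.coe_finsetSum]
      exact hy
    rw [h2, map_sum]
    refine Finset.sum_congr rfl fun u _ => ?_
    rw [map_smul]
    rfl
  -- (3)
  have htpv : Tpv F (be F α Q q) := by
    constructor
    · intro x hx
      obtain ⟨a, ha⟩ := lift ⟨x, (hFB x).1 hx⟩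
      obtain ⟨k, hk⟩ := htp.span a ((hFA a).2 a.2)
      obtain ⟨s, hs1, hs2⟩ := hsum k
      refine ⟨k, ?_⟩
      have h1 : (gg α Q q (a - s) : B) = x - ∑ u, k u • be F α Q q u := by
        rw [map_sub, ha, ← hs2]
        rfl
      rw [← h1, hBK]
      have h2 : ((a - s : Cz F α ⊤) : A) = a - ∑ u, k u • α u := by
        rw [← hs1]
        rfl
      rw [h2]
      exact hk
    · intro k hk
      obtain ⟨s, hs1, hs2⟩ := hsum k
      rw [← hs2, hBK, hs1] at hk
      exact htp.free k hk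
  refine ⟨htpv, ?_⟩
  -- (4)
  have hnt : Nontrivial (Cz F (be F α Q q) ⊤) := by
    refine ⟨1, 0, fun h => ?_⟩
    have hB : (1 : B) = 0 := congrArg Subtype.val h
    have h1 : (∑ u : V, (Pi.single 1 1 : V → F) u • be F α Q q u) ∈
        BK (cj F (be F α Q q)) ⊤ := by
      have h2 : (∑ u : V, (Pi.single 1 1 : V → F) u • be F α Q q u) = (0 : B) := by
        rw [← mul_one (∑ u : V, (Pi.single 1 1 : V → F) u • be F α Q q u), hB, mul_zero]
      rw [h2]
      exact Submodule.zero_mem _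
    have h3 := congrFun (htpv.free _ h1) 1
    rw [Pi.single_eq_same] at h3
    exact one_ne_zero h3
  refine IsLocalRing.of_is_unit_or_is_unit_of_add_one fun {x y} hxy => ?_
  obtain ⟨a, ha⟩ := lift x
  have hy : gg α Q q (1 - a) = y := by
    rw [map_sub, map_one, ha, ← hxy, add_sub_cancel_left]
  rcases hloc.isUnit_or_isUnit_of_add_one (add_sub_cancel a 1) with h | h
  · left
    rw [← ha]
    exact h.map (gg α Q q)
  · right
    rw [← hy]
    exact h.map (gg α Q q)

end Pool.Agent.PFC.B5a.H83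
end
end -- Pool.Agent.Helper83_PFC.QTPa

section -- Pool.Agent.Helper38_PFC.MID

/-!
# Squad PFC, row MID: the last step of part (0)
-/

noncomputable section

namespace Pool.Agent.PFC.H38

open Pool.Agent.PFC

theorem mid (hSMD : SmdStmt) (hHGP : HgpStmt) (hSEX : SexStmt) : MidStmt := by
  intro F V E A _ _ _ _ _ _ _ _ ℓ _ φ e0 α _ hctx hm
  obtain ⟨y, hy1, hy2⟩ := hm.uni
  obtain ⟨γ, hγ1, hγ2⟩ := hSMD V E A φ e0 α y hctx.gen hy1 hy2
  have hα : γ.comp (SemidirectProduct.inl : V →* V ⋊[φ] E) = α := by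
    ext u
    exact hγ1 u
  have := hm.fin
  have hps : PS (fun K => ∃ (e : E) (R : Subgroup V), K = tw (φ e).toMonoidHom R)
      (bi F (γ.comp SemidirectProduct.inl)) := by
    rw [hα]
    exact hm.ps
  have hspn : Spn F (γ.comp (SemidirectProduct.inl : V →* V ⋊[φ] E)) := by
    rw [hα]
    exact hm.spn
  have hhig : HigA F γ := hHGP F V E A ℓ φ e0 γ hctx hps hspn
  obtain ⟨mu, hmu⟩ := hm.frm
  have hmu' : Frm F (γ.comp (SemidirectProduct.inl : V →* V ⋊[φ] E)) mu := by
    rw [hα]
    exact hmu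
  have hloc : IsLocalRing (Cz F (γ.comp (SemidirectProduct.inl : V →* V ⋊[φ] E)) ⊤) := by
    rw [hα]
    exact hm.loc
  have hone : (1 : A) ∉ BK (cj F (γ.comp (SemidirectProduct.inl : V →* V ⋊[φ] E))) ⊤ := by
    rw [hα]
    exact hm.one
  exact ⟨γ, hSEX F V E A ℓ φ e0 γ mu hctx hmu' hloc hone hhig⟩

end Pool.Agent.PFC.H38
end
end -- Pool.Agent.Helper38_PFC.MID

section -- Pool.Agent.Helper52_PFC.LAM

set_option autoImplicit false

open scoped BigOperators

noncomputable section

namespace Pool.Agent.PFC.H52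

open Pool.Agent.PFC Pool.Agent.PFC.B5a SemidirectProduct

section gen

variable {F Γ B : Type} [Field F] [Group Γ] [Fintype Γ] [Ring B] [Algebra F B]

theorem Ee_mul_left (γ : Γ →* B) (mu : B →ₗ[F] F) (h : Γ) (x : B) :
    Ee F γ mu (γ h * x) = γ h * Ee F γ mu x := by
  unfold Ee
  rw [Finset.mul_sum]
  refine Fintype.sum_equiv (Equiv.mulLeft h⁻¹) _ _ fun g => ?_
  rw [Equiv.coe_mulLeft, mul_smul_comm, ← map_mul, mul_inv_cancel_left, mul_inv_rev, inv_inv,
    map_mul γ, mul_assoc]

theorem Ee_mul_right (γ : Γ →* B) (mu : B →ₗ[F] F) (hs : ∀ a b, mu (a * b) = mu (b * a)) (h : Γ)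
    (x : B) : Ee F γ mu (x * γ h) = Ee F γ mu x * γ h := by
  unfold Ee
  rw [Finset.sum_mul]
  refine Fintype.sum_equiv (Equiv.mulRight h⁻¹) _ _ fun g => ?_
  rw [Equiv.coe_mulRight, smul_mul_assoc, ← map_mul, inv_mul_cancel_right, mul_inv_rev, inv_inv,
    map_mul γ, mul_assoc (γ h) (γ g⁻¹) x, hs (γ h), mul_assoc]

theorem Ee_add (γ : Γ →* B) (mu : B →ₗ[F] F) (x y : B) :
    Ee F γ mu (x + y) = Ee F γ mu x + Ee F γ mu y := by
  unfold Ee
  rw [← Finset.sum_add_distrib]
  refine Finset.sum_congr rfl fun g _ => ?_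
  rw [mul_add, map_add, add_smul]

theorem Ee_smul (γ : Γ →* B) (mu : B →ₗ[F] F) (c : F) (x : B) :
    Ee F γ mu (c • x) = c • Ee F γ mu x := by
  unfold Ee
  rw [Finset.smul_sum]
  refine Finset.sum_congr rfl fun g _ => ?_
  rw [mul_smul_comm, map_smul, smul_eq_mul, mul_smul]

theorem Ee_zero (γ : Γ →* B) (mu : B →ₗ[F] F) : Ee F γ mu 0 = 0 := by
  unfold Ee
  simp

theorem Ee_span (γ : Γ →* B) (mu : B →ₗ[F] F) (hs : ∀ a b, mu (a * b) = mu (b * a)) (x s : B)
    (h : s ∈ Submodule.span F (Set.range γ)) : Ee F γ mu (x * s) = Ee F γ mu x * s := by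
  induction h using Submodule.span_induction with
  | mem s h =>
    obtain ⟨g, rfl⟩ := h
    exact Ee_mul_right γ mu hs g x
  | zero => rw [mul_zero, mul_zero, Ee_zero]
  | add s t _ _ h1 h2 => rw [mul_add, mul_add, Ee_add, h1, h2]
  | smul c s _ h1 => rw [mul_smul_comm, mul_smul_comm, Ee_smul, h1]

end gen

theorem sum_sd {V E : Type} [Group V] [Fintype V] [Group E] [Fintype E] (φ : E →* MulAut V)
    [Fintype (V ⋊[φ] E)] {M : Type} [AddCommMonoid M] (f : V ⋊[φ] E → M) :
    ∑ g, f g = ∑ e : E, ∑ u : V, f (inl u * inr e) := by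
  rw [Finset.sum_comm, ← Fintype.sum_prod_type' (f := fun u e => f (inl u * inr e))]
  refine Fintype.sum_equiv SemidirectProduct.equivProd _ _ fun g => ?_
  have h : (inl (SemidirectProduct.equivProd g).1 : V ⋊[φ] E) *
      inr (SemidirectProduct.equivProd g).2 = g := inl_left_mul_inr_right g
  rw [h]

theorem lam : LamStmt := by
  classical
  intro hFvt hCug ℓ _ F V E A _ _ _ _ _ _ _ _ _ φ e0 _ γ mu hctx hfrm
  have hs := hfrm.sym
  -- the subgroup `W`
  set W : Subgroup (V ⋊[φ] E) := (inl : V →* V ⋊[φ] E).range with hW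
  have hWn : W.Normal := by
    rw [hW, range_inl_eq_ker_rightHom]
    infer_instance
  obtain ⟨u0, hu0⟩ := hctx.nt
  have hWb : W ≠ ⊥ := by
    intro h
    have h1 : (inl u0 : V ⋊[φ] E) ∈ W := ⟨u0, rfl⟩
    rw [h, Subgroup.mem_bot] at h1
    exact hu0 (inl_injective (h1.trans (map_one _).symm))
  have hWp : IsPGroup ℓ W :=
    hctx.pg.of_surjective (inl : V →* V ⋊[φ] E).rangeRestrict (MonoidHom.rangeRestrict_surjective _)
  have hWc : ∀ a ∈ W, ∀ b ∈ W, a * b = b * a := by
    rintro _ ⟨a, rfl⟩ _ ⟨b, rfl⟩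
    rw [← map_mul, ← map_mul, mul_comm]
  have hWf : ∀ t, t ∉ W → ∀ w ∈ W, t * w = w * t → w = 1 := by
    rintro t ht _ ⟨w, rfl⟩ h
    have h1 := congrArg SemidirectProduct.left h
    rw [mul_left, mul_left, left_inl, right_inl, map_one, MulAut.one_apply, mul_comm w t.left] at h1
    have h2 : φ t.right w = w := mul_left_cancel h1
    rcases hctx.free _ _ h2 with h3 | h3
    · exfalso
      apply ht
      rw [hW, range_inl_eq_ker_rightHom, MonoidHom.mem_ker]
      exact h3
    · rw [h3, map_one]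
  have hsum : (∑ᶠ w : W, γ w) = ∑ u, (γ.comp (inl : V →* V ⋊[φ] E)) u := by
    rw [← finsum_eq_sum_of_fintype]
    let eq : V ≃ W := (MonoidHom.ofInjective (f := (inl : V →* V ⋊[φ] E)) inl_injective).toEquiv
    rw [← finsum_comp_equiv eq]
    rfl
  obtain ⟨c', hc⟩ := hCug hFvt ℓ F (V ⋊[φ] E) A γ mu W hs hWn hWb hWp hWc hWf
    (by rw [hsum]; exact hfrm.nz)
  refine ⟨c', hc, ?_⟩
  have hEc : Ee F γ mu c' = 1 := by
    have h1 := Ee_span γ mu hs 1 c' hc.spn
    rw [one_mul] at h1
    rw [h1, hc.rin]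
  -- linear independence
  have hcard : ((Fintype.card V : ℕ) : F) = 0 := by
    rw [CharP.cast_eq_zero_iff F ℓ]
    obtain ⟨n, hn⟩ := IsPGroup.iff_card.mp hctx.pg
    rw [Nat.card_eq_fintype_card] at hn
    have hne : n ≠ 0 := by
      rintro rfl
      rw [pow_zero] at hn
      exact hu0 (Fintype.card_le_one_iff.mp hn.le u0 1)
    rw [hn]
    exact dvd_pow_self ℓ hne
  have hmuf : ∀ f : E, f ≠ 1 → ∑ u : V, mu (γ (inl u * inr f)) = 0 := by
    intro f hf
    have hinj : Function.Injective (fun w : V => w * φ f w⁻¹) := by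
      intro w w' h
      have h' : w * φ f w⁻¹ = w' * φ f w'⁻¹ := h
      have h1 : φ f (w'⁻¹ * w) = w'⁻¹ * w := by
        have h2 : φ f w⁻¹ = (φ f w)⁻¹ := map_inv _ _
        have h3 : φ f w'⁻¹ = (φ f w')⁻¹ := map_inv _ _
        rw [h2, h3] at h'
        rw [map_mul, h3]
        have h4 : w * (φ f w') = w' * (φ f w) := by
          calc w * (φ f w') = (w * (φ f w)⁻¹) * (φ f w * φ f w') := by group
            _ = (w' * (φ f w')⁻¹) * (φ f w * φ f w') := by rw [h']
            _ = (w' * (φ f w')⁻¹) * (φ f w' * φ f w) := by rw [mul_comm (φ f w)]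
            _ = w' * φ f w := by group
        calc (φ f w')⁻¹ * φ f w = (φ f w')⁻¹ * (w'⁻¹ * (w' * φ f w)) := by group
          _ = (φ f w')⁻¹ * (w'⁻¹ * (w * φ f w')) := by rw [h4]
          _ = (φ f w')⁻¹ * ((w'⁻¹ * w) * φ f w') := by group
          _ = (φ f w')⁻¹ * (φ f w' * (w'⁻¹ * w)) := by rw [mul_comm (w'⁻¹ * w)]
          _ = w'⁻¹ * w := by group
      rcases hctx.free _ _ h1 with h2 | h2
      · exact absurd h2 hf
      · exact (inv_mul_eq_one.mp h2).symm
    have hsurj := Finite.surjective_of_injective hinj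
    have h1 : ∀ u : V, mu (γ (inl u * inr f)) = mu (γ (inr f)) := by
      intro u
      obtain ⟨w, hw⟩ := hsurj u
      have h2 : (inl u * inr f : V ⋊[φ] E) = inl w * (inr f * inl w⁻¹) := by
        rw [← hw]
        ext
        · simp
        · simp
      rw [h2, map_mul, hs, ← map_mul, mul_assoc, ← map_mul, inv_mul_cancel, map_one, mul_one]
    rw [Finset.sum_congr rfl fun u _ => h1 u, Finset.sum_const, Finset.card_univ,
      ← Nat.cast_smul_eq_nsmul F, hcard, zero_smul]
  have hli : ∀ k : V ⋊[φ] E → F, ∑ g, k g • γ g = 0 → k = 0 := by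
    let T : (V ⋊[φ] E → F) →ₗ[F] A := Fintype.linearCombination F (γ : V ⋊[φ] E → A)
    have hT : ∀ k, T k = ∑ g, k g • γ g := fun k => rfl
    let ρ : V →* ((V ⋊[φ] E → F) →ₗ[F] (V ⋊[φ] E → F)) :=
      { toFun := fun v => LinearMap.funLeft F F (fun g : V ⋊[φ] E => inl v⁻¹ * g)
        map_one' := by
          ext k g
          simp
        map_mul' := by
          intro v w
          ext k g
          simp [mul_assoc] }
    have hρ : ∀ v k g, ρ v k g = k (inl v⁻¹ * g) := fun v k g => rfl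
    have hst : ∀ v : V, ∀ m ∈ LinearMap.ker T, ρ v m ∈ LinearMap.ker T := by
      intro v m hm
      rw [LinearMap.mem_ker, hT] at hm ⊢
      have h1 : ∑ g, ρ v m g • γ g = γ (inl v) * ∑ g, m g • γ g := by
        rw [Finset.mul_sum]
        refine Fintype.sum_equiv (Equiv.mulLeft (inl v⁻¹)) _ _ fun g => ?_
        rw [hρ, Equiv.coe_mulLeft, mul_smul_comm, ← map_mul, ← mul_assoc, ← map_mul,
          mul_inv_cancel, map_one, one_mul]
      rw [h1, hm, mul_zero]
    by_contra hcon
    push Not at hcon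
    obtain ⟨k, hk, hk0⟩ := hcon
    have hN : LinearMap.ker T ≠ ⊥ := by
      intro h
      have h1 : k ∈ LinearMap.ker T := by rw [LinearMap.mem_ker, hT]; exact hk
      rw [h, Submodule.mem_bot] at h1
      exact hk0 h1
    obtain ⟨m, hm, hm0, hmf⟩ := hFvt ℓ F V (V ⋊[φ] E → F) ρ (LinearMap.ker T) hctx.pg hst hN
    have hinv : ∀ (v : V) (e : E), m (inl v * inr e) = m (inr e) := by
      intro v e
      have h1 := congrFun (hmf v (Subgroup.mem_top v)) (inl v * inr e)
      rw [hρ, ← mul_assoc, ← map_mul, inv_mul_cancel, map_one, one_mul] at h1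
      exact h1.symm
    have hex : ∃ e1 : E, m (inr e1) ≠ 0 := by
      by_contra hcon
      push Not at hcon
      apply hm0
      ext g
      rw [← inl_left_mul_inr_right g, hinv, hcon]
      rfl
    obtain ⟨e1, he1⟩ := hex
    rw [LinearMap.mem_ker, hT, sum_sd] at hm
    have h1 : mu ((∑ e : E, ∑ u : V, m (inl u * inr e) • γ (inl u * inr e)) * γ (inr e1⁻¹)) = 0 := by
      rw [hm, zero_mul, map_zero]
    rw [Finset.sum_mul, map_sum] at h1
    have h2 : ∀ e : E, mu ((∑ u : V, m (inl u * inr e) • γ (inl u * inr e)) * γ (inr e1⁻¹)) =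
        m (inr e) * ∑ u : V, mu (γ (inl u * inr (e * e1⁻¹))) := by
      intro e
      rw [Finset.sum_mul, map_sum, Finset.mul_sum]
      refine Finset.sum_congr rfl fun u _ => ?_
      rw [hinv, smul_mul_assoc, map_smul, smul_eq_mul, ← map_mul, mul_assoc, ← map_mul]
    rw [Finset.sum_congr rfl fun e _ => h2 e, Finset.sum_eq_single e1] at h1
    · rw [mul_inv_cancel, map_one] at h1
      have h3 : ∑ u : V, mu (γ (inl u * 1)) = mu (∑ u, (γ.comp (inl : V →* V ⋊[φ] E)) u) := by
        rw [map_sum]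
        refine Finset.sum_congr rfl fun u _ => ?_
        rw [mul_one]
        rfl
      rw [h3] at h1
      exact (mul_ne_zero he1 hfrm.nz) h1
    · intro e _ he
      rw [hmuf, mul_zero]
      intro h
      exact he (mul_inv_eq_one.mp h)
    · intro h
      exact absurd (Finset.mem_univ _) h
  have hδ : ∀ g h : V ⋊[φ] E, mu (γ g⁻¹ * (γ h * c')) = if g = h then 1 else 0 := by
    intro g h
    have h1 : Ee F γ mu (γ h * c') = γ h := by
      rw [Ee_mul_left, hEc, mul_one]
    have h2 : ∑ g, (mu (γ g⁻¹ * (γ h * c')) - if g = h then 1 else 0) • γ g = 0 := by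
      simp only [sub_smul, Finset.sum_sub_distrib]
      have h3 : ∑ g, mu (γ g⁻¹ * (γ h * c')) • γ g = γ h := h1
      rw [h3]
      simp
    exact sub_eq_zero.mp (congrFun (hli _ h2) g)
  refine ⟨mu.comp (LinearMap.mulRight F c'), fun x => rfl, ?_, ?_, ?_, ?_⟩
  · have h1 := hδ 1 1
    rw [inv_one, map_one, one_mul, one_mul, if_pos rfl] at h1
    change mu (1 * c') = 1
    rw [one_mul]
    exact h1
  · intro g hg
    have h1 := hδ 1 g
    rw [inv_one, map_one, one_mul, if_neg (Ne.symm hg)] at h1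
    exact h1
  · intro g a
    change mu (γ g * a * c') = mu (a * γ g * c')
    rw [mul_assoc, hs, mul_assoc a c' (γ g), hc.com, ← mul_assoc]
  · intro x
    rw [← Ee_span γ mu hs x c' hc.spn]
    refine Finset.sum_congr rfl fun g _ => ?_
    change mu (γ g⁻¹ * (x * c')) • γ g = mu (γ g⁻¹ * x * c') • γ g
    rw [mul_assoc]

end Pool.Agent.PFC.H52
end
end -- Pool.Agent.Helper52_PFC.LAM

section -- Pool.Agent.Helper59_PFC.LOQa

/-!
# Squad PFC, row LOQa (helper59): the local structure of `A(Q)`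
-/

open scoped BigOperators TensorProduct

noncomputable section

namespace Pool.Agent.PFC.B5a.H59

/-- the isomorphism `Mat_n(F V) = Mat_n(F) ⊗ F V` -/
def mte (F V : Type) [Field F] [CommGroup V] (n : ℕ) :
    Matrix (Fin n) (Fin n) (MonoidAlgebra F V) ≃ₐ[F]
      Matrix (Fin n) (Fin n) F ⊗[F] MonoidAlgebra F V :=
  (matrixEquivTensor (Fin n) F (MonoidAlgebra F V)).trans
    (Algebra.TensorProduct.comm F (MonoidAlgebra F V) (Matrix (Fin n) (Fin n) F))

theorem mte_symm (F V : Type) [Field F] [CommGroup V] (n : ℕ) (M : Matrix (Fin n) (Fin n) F)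
    (u : V) : (mte F V n).symm (M ⊗ₜ[F] MonoidAlgebra.of F V u) =
      Matrix.of fun i j => MonoidAlgebra.single u (M i j) := by
  have h : (mte F V n).symm (M ⊗ₜ[F] MonoidAlgebra.of F V u) =
      (matrixEquivTensor (Fin n) F (MonoidAlgebra F V)).symm
        (MonoidAlgebra.of F V u ⊗ₜ[F] M) := rfl
  rw [h, matrixEquivTensor_apply_symm]
  apply Matrix.ext
  intro i j
  change MonoidAlgebra.of F V u * algebraMap F (MonoidAlgebra F V) (M i j) =
    MonoidAlgebra.single u (M i j)
  rw [MonoidAlgebra.of_apply, MonoidAlgebra.coe_algebraMap]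
  simp [MonoidAlgebra.single_mul_single]

theorem loq : LoqStmt := by
  intro hBki hQex hQfc hQfm hQps hQtp hQmt hCps hLoc F V E A _ _ _ _ _ _ ℓ _ φ W α Q n π
    hctx hpin hQ hl
  have : Fact ℓ.Prime := ⟨hctx.pr⟩
  have := hpin.fin
  obtain ⟨B, _, _, q, hq⟩ := hQex hBki F V A α Q
  obtain ⟨π', h1, h2, h3, h4⟩ := hQmt F V A B α Q q n π hq hl
  obtain ⟨lam, hlam⟩ := hpin.frm
  obtain ⟨htp, hloc⟩ :=
    hQtp hBki hQfc ℓ F V A B α Q q _ hctx.pg hq hpin.ps hpin.top hpin.loc
  have hps := hQps hBki hQfc ℓ F V E A B φ W α Q q hctx hq hQ hpin.ps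
  have hLB : LB F (be F α Q q) n π' :=
    { fin := h3
      frm := hQfm hBki ℓ F V A B α Q q _ lam hctx.pg hq hpin.ps hlam
      loc := hloc
      ps := hps
      top := htp
      pos := hl.pos
      sur := h2
      nil := h4
      cop := hl.cop }
  have : Nontrivial V := by
    obtain ⟨u, hu⟩ := hctx.nt
    refine ⟨⟨u, 1, ?_⟩⟩
    rintro rfl
    exact hu W.one_mem
  obtain ⟨f, hf, hbij⟩ := hLoc ℓ F V B (be F α Q q) n π' hctx.pg hLB
  have hcomp : (π' : B →* Matrix (Fin n) (Fin n) F).comp (be F α Q q) =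
      (π : Cz F α Q →* Matrix (Fin n) (Fin n) F).comp (zin F α Q) := by
    apply MonoidHom.ext
    intro u
    exact h1 (zin F α Q u)
  constructor
  · rw [← hcomp]
    exact hCps F V B (be F α Q q) n π' f _ hf hbij hps
  · refine ⟨((mte F V n : Matrix (Fin n) (Fin n) (MonoidAlgebra F V) →ₐ[F]
      Matrix (Fin n) (Fin n) F ⊗[F] MonoidAlgebra F V).comp f).comp q, ?_, ?_, ?_⟩
    · intro y
      obtain ⟨x, hx⟩ := (mte F V n).surjective y
      obtain ⟨b, hb⟩ := hbij.2 x
      obtain ⟨a, ha⟩ := hq.sur b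
      refine ⟨a, ?_⟩
      change mte F V n (f (q a)) = y
      rw [ha, hb, hx]
    · intro a
      rw [← hq.ker a]
      change mte F V n (f (q a)) = 0 ↔ q a = 0
      constructor
      · intro h
        apply hbij.1
        rw [map_zero]
        apply (mte F V n).injective
        rw [h, map_zero]
      · intro h
        rw [h, map_zero, map_zero]
    · intro u
      change mte F V n (f (q (zin F α Q u))) = _
      rw [← (mte F V n).apply_symm_apply (π (zin F α Q u) ⊗ₜ[F] MonoidAlgebra.of F V u),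
        mte_symm]
      have h5 : f (q (zin F α Q u)) =
          Matrix.of fun i j => MonoidAlgebra.single u (π (zin F α Q u) i j) := by
        ext1 i j
        rw [Matrix.of_apply, ← h1]
        exact hf.grp u i j
      rw [h5]

end Pool.Agent.PFC.B5a.H59
end
end -- Pool.Agent.Helper59_PFC.LOQa

section -- Pool.Agent.Helper63_PFC.LSC

/-!
# Squad PFC, row LSC: a corner has at most as many simple modules
-/

open scoped BigOperators

namespace Pool.Agent.PFC.H63

/-- Finitely many irreducible representations such that the intersection of the kernels is nil. -/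
theorem wed (F X : Type) [Field F] [IsAlgClosed F] [Ring X] [Algebra F X]
    [FiniteDimensional F X] :
    ∃ (n : ℕ) (d : Fin n → ℕ) (ρ : ∀ i, X →ₐ[F] Matrix (Fin (d i)) (Fin (d i)) F),
      (∀ i, 0 < d i) ∧ (∀ i, Function.Surjective (ρ i)) ∧
      ∀ x, (∀ i, ρ i x = 0) → IsNilpotent x := by
  have hA : IsArtinianRing X := IsArtinianRing.of_finite F X
  have hF : FiniteDimensional F (X ⧸ Ring.jacobson X) :=
    Module.Finite.of_surjective (Ideal.Quotient.mkₐ F (Ring.jacobson X)).toLinearMap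
      (Ideal.Quotient.mkₐ_surjective F _)
  obtain ⟨n, d, hd, ⟨e⟩⟩ :=
    IsSemisimpleRing.exists_algEquiv_pi_matrix_of_isAlgClosed F (X ⧸ Ring.jacobson X)
  refine ⟨n, d, fun i => (Pi.evalAlgHom F _ i).comp
    (e.toAlgHom.comp (Ideal.Quotient.mkₐ F (Ring.jacobson X))),
    fun i => Nat.pos_of_ne_zero (hd i).out, ?_, ?_⟩
  · intro i z
    obtain ⟨y, hy⟩ := e.surjective (Pi.single i z)
    obtain ⟨x, hx⟩ := Ideal.Quotient.mk_surjective y
    refine ⟨x, ?_⟩
    have h1 : e (Ideal.Quotient.mk (Ring.jacobson X) x) = Pi.single i z := by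
      rw [hx, hy]
    have h2 := congrFun h1 i
    rw [Pi.single_eq_same] at h2
    exact h2
  · intro x hx
    have h1 : Ideal.Quotient.mk (Ring.jacobson X) x = 0 := by
      apply e.injective
      rw [map_zero]
      funext i
      exact hx i
    rw [Ideal.Quotient.eq_zero_iff_mem] at h1
    obtain ⟨m, hm⟩ := IsSemiprimaryRing.isNilpotent (R := X)
    refine ⟨m, ?_⟩
    have h2 := Ideal.pow_mem_pow h1 m
    rw [hm] at h2
    exact h2

theorem mat_mid {F : Type} [Field F] {m : ℕ} {M N : Matrix (Fin m) (Fin m) F} (hM : M ≠ 0)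
    (hN : N ≠ 0) : ∃ Z : Matrix (Fin m) (Fin m) F, M * Z * N ≠ 0 := by
  have h1 : ∃ a b, M a b ≠ 0 := by
    by_contra h
    push Not at h
    exact hM (Matrix.ext h)
  have h2 : ∃ a b, N a b ≠ 0 := by
    by_contra h
    push Not at h
    exact hN (Matrix.ext h)
  obtain ⟨a, b, hab⟩ := h1
  obtain ⟨c, d, hcd⟩ := h2
  refine ⟨Matrix.single b c 1, ?_⟩
  intro h
  have h3 := congrFun (congrFun h a) d
  rw [Matrix.mul_assoc, Matrix.mul_apply] at h3
  rw [Finset.sum_eq_single b] at h3
  · rw [Matrix.single_mul_apply_same, one_mul, Matrix.zero_apply] at h3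
    exact (mul_ne_zero hab hcd) h3
  · intro k _ hk
    rw [Matrix.single_mul_apply_of_ne _ _ _ _ _ hk, mul_zero]
  · intro h
    exact absurd (Finset.mem_univ _) h

theorem mat_one {F : Type} [Field F] {m : ℕ} {M : Matrix (Fin m) (Fin m) F} (hM : M ≠ 0) :
    ∃ A B : Fin m → Matrix (Fin m) (Fin m) F, ∑ k, A k * M * B k = 1 := by
  have h1 : ∃ a b, M a b ≠ 0 := by
    by_contra h
    push Not at h
    exact hM (Matrix.ext h)
  obtain ⟨a, b, hab⟩ := h1
  refine ⟨fun k => Matrix.single k a (M a b)⁻¹, fun k => Matrix.single b k 1, ?_⟩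
  have h2 : ∀ k, Matrix.single k a (M a b)⁻¹ * M * Matrix.single b k 1 =
      Matrix.single k k (1 : F) := by
    intro k
    rw [Matrix.single_mul_mul_single]
    congr 1
    rw [mul_one, inv_mul_cancel₀ hab]
  rw [Finset.sum_congr rfl (fun k _ => h2 k)]
  ext p q
  rw [Matrix.sum_apply]
  by_cases hpq : p = q
  · subst hpq
    rw [Matrix.one_apply_eq, Finset.sum_eq_single p]
    · rw [Matrix.single_apply_same]
    · intro k _ hk
      rw [Matrix.single_apply_of_ne]
      exact fun h => hk h.1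
    · intro h
      exact absurd (Finset.mem_univ _) h
  · rw [Matrix.one_apply_ne hpq]
    refine Finset.sum_eq_zero ?_
    intro k _
    rw [Matrix.single_apply_of_ne]
    exact fun h => hpq (h.1.symm.trans h.2)

/-- The kernel of an irreducible representation of the corner is the restriction of one of the
kernels for the algebra. -/
theorem crn {F X Y : Type} [Field F] [Ring X] [Algebra F X] [Ring Y] [Algebra F Y]
    {j : X} {κ : Y →ₗ[F] X} (hc : Cnr j κ) {n : ℕ} {d : Fin n → ℕ}
    (ρ : ∀ i, X →ₐ[F] Matrix (Fin (d i)) (Fin (d i)) F) (hs : ∀ i, Function.Surjective (ρ i))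
    (hnil : ∀ x, (∀ i, ρ i x = 0) → IsNilpotent x) {m : ℕ} (hm : 0 < m)
    (σ : Y →ₐ[F] Matrix (Fin m) (Fin m) F) (hσ : Function.Surjective σ) :
    ∃ i, ∀ y, σ y = 0 ↔ ρ i (κ y) = 0 := by
  classical
  have h10 : (1 : Matrix (Fin m) (Fin m) F) ≠ 0 := by
    have : Nonempty (Fin m) := ⟨⟨0, hm⟩⟩
    exact one_ne_zero
  have hjy : ∀ y, j * κ y = κ y := by
    intro y
    rw [← hc.one, ← hc.mul, one_mul]
  have hyj : ∀ y, κ y * j = κ y := by
    intro y
    rw [← hc.one, ← hc.mul, mul_one]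
  have hjj : j * j = j := by
    have := hjy 1
    rwa [hc.one] at this
  have hcr : ∀ x, ∃ y, κ y = j * x * j := by
    intro x
    refine hc.ran (j * x * j) ?_ ?_
    · rw [← mul_assoc, ← mul_assoc, hjj]
    · rw [mul_assoc, hjj]
  choose cr hcr using hcr
  -- the nil part
  have hN : ∀ y, (∀ i, ρ i (κ y) = 0) → σ y = 0 := by
    intro y hy
    by_contra hne
    obtain ⟨A, B, hAB⟩ := mat_one hne
    choose a ha using fun k => hσ (A k)
    choose b hb using fun k => hσ (B k)
    have hw : σ (∑ k, a k * y * b k) = 1 := by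
      rw [map_sum, ← hAB]
      refine Finset.sum_congr rfl ?_
      intro k _
      rw [map_mul, map_mul, ha, hb]
    have hw2 : ∀ i, ρ i (κ (∑ k, a k * y * b k)) = 0 := by
      intro i
      rw [map_sum, map_sum]
      refine Finset.sum_eq_zero ?_
      intro k _
      rw [hc.mul, hc.mul, map_mul, map_mul, hy i, mul_zero, zero_mul]
    obtain ⟨N, hN⟩ := hnil _ hw2
    have hpow : ∀ (w : Y) (k : ℕ), κ (w ^ (k + 1)) = (κ w) ^ (k + 1) := by
      intro w k
      induction k with
      | zero => rw [zero_add, pow_one, pow_one]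
      | succ k ih => rw [pow_succ, hc.mul, ih, ← pow_succ]
    have h3 : (∑ k, a k * y * b k) ^ (N + 1) = 0 := by
      apply hc.inj
      rw [hpow, pow_succ, hN, zero_mul, map_zero]
    have h4 := congrArg σ h3
    rw [map_pow, hw, one_pow, map_zero] at h4
    exact h10 h4
  -- the prime part
  have hP : ∃ i, ∀ y, ρ i (κ y) = 0 → σ y = 0 := by
    by_contra hcon
    push Not at hcon
    choose z hz hz2 using hcon
    have hS : ∀ S : Finset (Fin n), ∃ y, σ y ≠ 0 ∧ ∀ i ∈ S, ρ i (κ y) = 0 := by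
      intro S
      induction S using Finset.induction_on with
      | empty => exact ⟨1, by rw [map_one]; exact h10, by simp⟩
      | insert i S _ ih =>
        obtain ⟨y, hy, hy2⟩ := ih
        obtain ⟨Z, hZ⟩ := mat_mid hy (hz2 i)
        obtain ⟨w, hw⟩ := hσ Z
        refine ⟨y * w * z i, ?_, ?_⟩
        · rw [map_mul, map_mul, hw]
          exact hZ
        · intro k hk
          rw [hc.mul, hc.mul, map_mul, map_mul]
          rcases Finset.mem_insert.1 hk with rfl | hk
          · rw [hz, mul_zero]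
          · rw [hy2 k hk, zero_mul, zero_mul]
    obtain ⟨y, hy, hy2⟩ := hS Finset.univ
    exact hy (hN y fun i => hy2 i (Finset.mem_univ i))
  obtain ⟨i, hi⟩ := hP
  refine ⟨i, fun y => ⟨fun hy => ?_, hi y⟩⟩
  by_contra hne
  obtain ⟨A, B, hAB⟩ := mat_one hne
  choose a ha using fun k => hs i (A k)
  choose b hb using fun k => hs i (B k)
  have hw : σ (∑ k, cr (a k) * y * cr (b k)) = 0 := by
    rw [map_sum]
    refine Finset.sum_eq_zero ?_
    intro k _
    rw [map_mul, map_mul, hy, mul_zero, zero_mul]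
  have hκ : κ (∑ k, cr (a k) * y * cr (b k)) = j * (∑ k, a k * κ y * b k) * j := by
    rw [map_sum, Finset.mul_sum, Finset.sum_mul]
    refine Finset.sum_congr rfl ?_
    intro k _
    rw [hc.mul, hc.mul, hcr, hcr]
    calc j * a k * j * κ y * (j * b k * j) = j * a k * (j * κ y * j) * b k * j := by
          simp only [mul_assoc]
      _ = j * (a k * κ y * b k) * j := by
          rw [hjy, hyj]
          simp only [mul_assoc]
  have h1 : ρ i (κ (∑ k, cr (a k) * y * cr (b k))) = ρ i (κ 1) := by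
    rw [hκ, map_mul, map_mul, map_sum]
    have h2 : ∑ k, ρ i (a k * κ y * b k) = 1 := by
      rw [← hAB]
      refine Finset.sum_congr rfl ?_
      intro k _
      rw [map_mul, map_mul, ha, hb]
    rw [h2, mul_one, ← map_mul, hjj, hc.one]
  have h3 : σ ((∑ k, cr (a k) * y * cr (b k)) - 1) = 0 := by
    apply hi
    rw [map_sub, map_sub, h1, sub_self]
  rw [map_sub, hw, map_one, zero_sub, neg_eq_zero] at h3
  exact h10 h3

/-- There are finitely many kernels. -/
theorem kers_fin (F X : Type) [Field F] [IsAlgClosed F] [Ring X] [Algebra F X]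
    [FiniteDimensional F X] : (kers F X).Finite := by
  obtain ⟨n, d, ρ, -, hs, hnil⟩ := wed F X
  refine (Set.finite_range fun i : Fin n => {x : X | ρ i x = 0}).subset ?_
  rintro K ⟨m, σ, hm, hσ, rfl⟩
  have hc : Cnr (1 : X) (LinearMap.id : X →ₗ[F] X) :=
    ⟨fun _ _ h => h, fun _ _ => rfl, rfl, fun a _ _ => ⟨a, rfl⟩⟩
  obtain ⟨i, hi⟩ := crn hc ρ hs hnil hm σ hσ
  refine ⟨i, ?_⟩
  ext x
  exact (hi x).symm

/-- Row LSC. -/
theorem lsc : LscStmt := by
  intro F X Y _ _ _ _ _ _ _ j κ hc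
  obtain ⟨n, d, ρ, hd, hs, hnil⟩ := wed F X
  have hsub : kers F Y ⊆ (fun S : Set X => κ ⁻¹' S) '' kers F X := by
    rintro K ⟨m, σ, hm, hσ, rfl⟩
    obtain ⟨i, hi⟩ := crn hc ρ hs hnil hm σ hσ
    refine ⟨{x | ρ i x = 0}, ⟨d i, ρ i, hd i, hs i, rfl⟩, ?_⟩
    ext y
    exact (hi y).symm
  have hfin := kers_fin F X
  exact (Set.ncard_le_ncard hsub (hfin.image _)).trans (Set.ncard_image_le hfin)

end Pool.Agent.PFC.H63
end -- Pool.Agent.Helper63_PFC.LSC

section -- Pool.Agent.Helper63_PFC.TRB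

/-!
# Squad PFC, row TRB: a model of the Brauer quotient of a summand of a permutation module is split
-/

open scoped BigOperators TensorProduct

noncomputable section

namespace Pool.Agent.PFC.B5c.H63

open Pool.Agent.PFC.B5a (zin)
open MulAction

section ad

variable {F V M : Type} [Field F] [Group V] [AddCommGroup M] [Module F M]

/-- conjugation on the endomorphisms -/
def ad (ρ : V →* (M →ₗ[F] M)) : V →* ((M →ₗ[F] M) →ₗ[F] (M →ₗ[F] M)) where
  toFun v :=
    { toFun := fun h => ρ v ∘ₗ h ∘ₗ ρ v⁻¹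
      map_add' := by
        intro f g
        ext m
        simp
      map_smul' := by
        intro r f
        ext m
        simp }
  map_one' := by
    ext f m
    simp
  map_mul' u v := by
    ext f m
    simp

theorem ad_apply (ρ : V →* (M →ₗ[F] M)) (v : V) (h : M →ₗ[F] M) (m : M) :
    ad ρ v h m = ρ v (h (ρ v⁻¹ m)) := rfl

theorem BK_le_PT (ρ : V →* (M →ₗ[F] M)) (Q : Subgroup V) : BK (ad ρ) Q ≤ PT ρ Q := by
  unfold BK PT
  rw [Submodule.span_le]
  rintro n ⟨P', S, m, hlt, hS, hm, rfl⟩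
  refine Submodule.subset_span ⟨P', S, m, hlt, hS, ?_, ?_⟩
  · intro k hk x
    have h1 := hm k hk
    have h2 := LinearMap.congr_fun h1 (ρ k x)
    rw [ad_apply] at h2
    have h3 : ρ k⁻¹ (ρ k x) = x := by
      rw [← Module.End.mul_apply, ← map_mul, inv_mul_cancel, map_one, Module.End.one_apply]
    rw [h3] at h2
    exact h2
  · intro x
    rw [LinearMap.sum_apply]
    rfl

theorem PT_comp {ρ : V →* (M →ₗ[F] M)} {Q : Subgroup V} {T g : M →ₗ[F] M} (hT : T ∈ PT ρ Q)
    (hg : ∀ v m, g (ρ v m) = ρ v (g m)) : T ∘ₗ g ∈ PT ρ Q := by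
  unfold PT at hT
  induction hT using Submodule.span_induction with
  | mem T hT =>
    obtain ⟨K, S, h, hlt, hS, hc, hT⟩ := hT
    refine Submodule.subset_span ⟨K, S, h ∘ₗ g, hlt, hS, ?_, ?_⟩
    · intro k hk m
      rw [LinearMap.comp_apply, LinearMap.comp_apply, hg, hc k hk]
    · intro m
      rw [LinearMap.comp_apply, hT]
      refine Finset.sum_congr rfl fun x _ => ?_
      rw [LinearMap.comp_apply, hg]
  | zero =>
    rw [LinearMap.zero_comp]
    exact Submodule.zero_mem _
  | add a b _ _ ha hb =>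
    rw [LinearMap.add_comp]
    exact Submodule.add_mem _ ha hb
  | smul r a _ ha =>
    rw [LinearMap.smul_comp]
    exact Submodule.smul_mem _ _ ha

end ad

section alg

variable {F V A : Type} [Field F] [CommGroup V] [Ring A] [Algebra F A]

theorem cj_apply (α : V →* A) (u : V) (a : A) : cj F α u a = α u * (a * α u⁻¹) := rfl

theorem fx_iff (α : V →* A) (Q : Subgroup V) (a : A) : a ∈ Fx (cj F α) Q ↔ a ∈ Cz F α Q := by
  rw [Cz, Subalgebra.mem_centralizer_iff]
  constructor
  · rintro h _ ⟨u, hu, rfl⟩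
    have h1 := h u hu
    rw [cj_apply] at h1
    calc α u * a = α u * (a * (α u⁻¹ * α u)) := by
          rw [← map_mul, inv_mul_cancel, map_one, mul_one]
      _ = α u * (a * α u⁻¹) * α u := by simp only [mul_assoc]
      _ = a * α u := by rw [h1]
  · intro h u hu
    rw [cj_apply, ← mul_assoc, h _ ⟨u, hu, rfl⟩, mul_assoc, ← map_mul, mul_inv_cancel, map_one,
      mul_one]

end alg

/-- Row TRB. -/
theorem trb : TrbStmt := by
  classical
  intro ℓ hℓ F V _ _ _ _ X Y Q q hV hCP hsur hker hzin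
  obtain ⟨Ω, iΩ, iA, b, c, hfr, -⟩ := hCP
  have hQ : IsPGroup ℓ Q := hV.to_subgroup Q
  -- the fixed points
  have hst : ∀ (v : V) (ω : Ω), ω ∈ fp Q Ω → v • ω ∈ fp Q Ω := by
    intro v ω hω
    rw [mem_fp] at hω ⊢
    intro h hh
    rw [← mul_smul, mul_comm, mul_smul, hω h hh]
  have hb : ∀ ω ∈ fp Q Ω, b ω ∈ Fx (cj F X.ι) Q := by
    intro ω hω h hh
    rw [← hfr.1, (mem_fp Q Ω ω).1 hω h hh]
  -- the projection
  let e : X.A →ₗ[F] X.A := ∑ ω ∈ fp Q Ω, (c ω).smulRight (b ω)
  have he : ∀ m, e m = ∑ ω ∈ fp Q Ω, c ω m • b ω := by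
    intro m
    simp only [e, LinearMap.sum_apply, LinearMap.smulRight_apply]
  have heF : ∀ m, e m ∈ Fx (cj F X.ι) Q := by
    intro m
    rw [he]
    exact Submodule.sum_mem _ fun ω hω => Submodule.smul_mem _ _ (hb ω hω)
  have heC : ∀ m, e m ∈ Cz F X.ι Q := fun m => (fx_iff X.ι Q _).1 (heF m)
  have hev : ∀ (v : V) (m : X.A), e (cj F X.ι v m) = cj F X.ι v (e m) := by
    intro v m
    rw [he, he, map_sum]
    symm
    refine Finset.sum_bij (fun ω _ => v • ω) (fun ω hω => hst v ω hω) ?_ ?_ ?_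
    · intro x _ y _ hxy
      exact smul_left_cancel v hxy
    · intro y hy
      exact ⟨v⁻¹ • y, hst v⁻¹ y hy, smul_inv_smul v y⟩
    · intro ω _
      rw [map_smul, hfr.2.1, hfr.1]
  have heB : ∀ m ∈ BK (cj F X.ι) Q, e m = 0 := by
    intro m hm
    rw [he]
    refine Finset.sum_eq_zero fun ω hω => ?_
    rw [frame_BK hfr Q hQ hm ω ((mem_fp Q Ω ω).1 hω), zero_smul]
  have hsub : ∀ m ∈ Fx (cj F X.ι) Q, m - e m ∈ BK (cj F X.ι) Q := by
    intro m hm
    rw [he]
    exact frame_sub hfr Q hm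
  -- the map β
  let e' : X.A →ₗ[F] Cz F X.ι Q := LinearMap.codRestrict (Subalgebra.toSubmodule (Cz F X.ι Q)) e heC
  have he' : ∀ m, ((e' m : Cz F X.ι Q) : X.A) = e m := fun m => rfl
  let β : X.A →ₗ[F] Y.A := q.toLinearMap ∘ₗ e'
  have hβ : ∀ m, β m = q (e' m) := fun m => rfl
  have hβF : ∀ a : Cz F X.ι Q, β (a : X.A) = q a := by
    intro a
    rw [hβ, ← sub_eq_zero, ← map_sub, hker]
    have h1 := hsub _ ((fx_iff X.ι Q (a : X.A)).2 a.2)
    have h2 : ((e' (a : X.A) - a : Cz F X.ι Q) : X.A) = -((a : X.A) - e (a : X.A)) := by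
      rw [neg_sub]
      rfl
    rw [h2]
    exact Submodule.neg_mem _ h1
  -- the section
  obtain ⟨r, hr⟩ := LinearMap.exists_rightInverse_of_surjective q.toLinearMap
    (LinearMap.range_eq_top.2 hsur)
  have hr' : ∀ n, q (r n) = n := fun n => LinearMap.congr_fun hr n
  let s : Y.A →ₗ[F] X.A := e ∘ₗ (Cz F X.ι Q).val.toLinearMap ∘ₗ r
  have hs : ∀ n, s n = e ((r n : Cz F X.ι Q) : X.A) := fun n => rfl
  have hsq : ∀ a : Cz F X.ι Q, s (q a) = e (a : X.A) := by
    intro a
    rw [hs, ← sub_eq_zero, ← map_sub]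
    apply heB
    have h1 : q (r (q a) - a) = 0 := by
      rw [map_sub, hr', sub_self]
    exact (hker _).1 h1
  -- conjugation
  have hcj : ∀ (v : V) (a : Cz F X.ι Q),
      ((zin F X.ι Q v * (a * zin F X.ι Q v⁻¹) : Cz F X.ι Q) : X.A) = cj F X.ι v (a : X.A) :=
    fun v a => rfl
  have hqcj : ∀ (v : V) (a : Cz F X.ι Q),
      q (zin F X.ι Q v * (a * zin F X.ι Q v⁻¹)) = cj F Y.ι v (q a) := by
    intro v a
    rw [map_mul, map_mul, hzin, hzin]
    rfl
  refine ⟨β, s, ⟨⟨?_, ?_, ?_, ?_, ?_⟩, ?_, ?_⟩⟩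
  · intro n
    have h1 : s n = ((e' ((r n : Cz F X.ι Q) : X.A) : Cz F X.ι Q) : X.A) := rfl
    rw [h1, hβF, ← hβ, hβF, hr']
  · intro v m
    have h1 : e' (cj F X.ι v m) = zin F X.ι Q v * (e' m * zin F X.ι Q v⁻¹) := by
      apply Subtype.ext
      rw [he', hev, hcj, he']
    rw [hβ, h1, hqcj, hβ]
  · intro v n
    have h1 : cj F Y.ι v n = q (zin F X.ι Q v * (r n * zin F X.ι Q v⁻¹)) := by
      rw [hqcj, hr']
    rw [h1, hsq, hcj, hev, hs]
  · intro u hu n
    have h1 : zin F X.ι Q u * (r n * zin F X.ι Q u⁻¹) = r n := by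
      apply Subtype.ext
      rw [hcj]
      exact (fx_iff X.ι Q _).2 (r n).2 u hu
    have h2 := hqcj u (r n)
    rw [h1, hr'] at h2
    exact h2.symm
  · -- the complement
    have h1 : LinearMap.id - e ∈ PT (cj F X.ι) Q := by
      have h2 : LinearMap.id - e = ∑ ω ∈ Finset.univ \ fp Q Ω, (c ω).smulRight (b ω) := by
        have h3 := Finset.sum_sdiff (Finset.subset_univ (fp Q Ω))
          (f := fun ω => (c ω).smulRight (b ω))
        have h4 : ∑ ω, (c ω).smulRight (b ω) = (LinearMap.id : X.A →ₗ[F] X.A) := by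
          ext m
          rw [LinearMap.sum_apply]
          exact hfr.2.2 m
        rw [h4] at h3
        exact sub_eq_of_eq_add h3.symm
      rw [h2]
      apply BK_le_PT
      refine B5a.H77.trs F V (X.A →ₗ[F] X.A) Ω (ad (cj F X.ι)) Q
        (fun ω => (c ω).smulRight (b ω)) _ ?_ ?_ ?_
      · intro ω hω h hh
        rw [Finset.mem_sdiff] at hω ⊢
        refine ⟨Finset.mem_univ _, fun hc => hω.2 ?_⟩
        have h5 := hst h⁻¹ _ hc
        rwa [inv_smul_smul] at h5
      · intro ω hω hc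
        exact (Finset.mem_sdiff.1 hω).2 ((mem_fp Q Ω ω).2 hc)
      · intro h _ ω
        ext m
        rw [ad_apply, LinearMap.smulRight_apply, LinearMap.smulRight_apply, map_smul, hfr.1]
        congr 1
        have h5 := hfr.2.1 h ω (cj F X.ι h⁻¹ m)
        rw [← h5, ← Module.End.mul_apply, ← map_mul, mul_inv_cancel, map_one,
          Module.End.one_apply]
    have h6 := PT_comp (g := LinearMap.id + e) h1 (by
      intro v m
      rw [LinearMap.add_apply, LinearMap.add_apply, LinearMap.id_apply, LinearMap.id_apply,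
        map_add, hev])
    have h7 : LinearMap.id - s ∘ₗ β = (LinearMap.id - e) ∘ₗ (LinearMap.id + e) := by
      ext m
      have h8 : s (β m) = e (e m) := by
        rw [hβ, hsq, he']
      rw [LinearMap.sub_apply, LinearMap.comp_apply, LinearMap.id_apply, h8,
        LinearMap.comp_apply, LinearMap.sub_apply, LinearMap.add_apply, LinearMap.id_apply,
        LinearMap.id_apply, map_add]
      abel
    rw [h7]
    exact h6
  · intro a ha a' ha'
    have h1 := (fx_iff X.ι Q a).1 ha
    have h2 := (fx_iff X.ι Q a').1 ha'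
    have h3 := hβF (⟨a, h1⟩ * ⟨a', h2⟩)
    rw [map_mul, ← hβF, ← hβF] at h3
    exact h3
  · intro v
    have h1 := hβF (zin F X.ι Q v)
    rw [hzin] at h1
    exact h1

end Pool.Agent.PFC.B5c.H63
end
end -- Pool.Agent.Helper63_PFC.TRB

section -- Pool.Agent.Helper72_PFC.CPSa

/-! CPS: the frame of the matrix algebra. -/

set_option autoImplicit false

open scoped BigOperators TensorProduct

noncomputable section

namespace Pool.Agent.PFC.B5a.H72

open Pool.Agent.PFC Pool.Agent.PFC.B5a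

section

variable {F V : Type} [Field F] [CommGroup V] {n : ℕ}

/-- `x ↦ x ⊗ 1` -/
def s0 : Matrix (Fin n) (Fin n) F →ₐ[F] Matrix (Fin n) (Fin n) (MonoidAlgebra F V) :=
  (Algebra.ofId F (MonoidAlgebra F V)).mapMatrix

/-- the coefficient at one -/
def co : MonoidAlgebra F V →ₗ[F] F where
  toFun y := y.coeff 1
  map_add' x y := by simp
  map_smul' a y := by simp

/-- the coefficients at one of the entries -/
def r0 : Matrix (Fin n) (Fin n) (MonoidAlgebra F V) →ₗ[F] Matrix (Fin n) (Fin n) F where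
  toFun Y := Matrix.of fun i j => co (Y i j)
  map_add' X Y := by ext i j; simp
  map_smul' a Y := by ext i j; simp

theorem s0_apply (x : Matrix (Fin n) (Fin n) F) (i j : Fin n) :
    (s0 x : Matrix (Fin n) (Fin n) (MonoidAlgebra F V)) i j = MonoidAlgebra.single 1 (x i j) := by
  rfl

theorem r0_apply (Y : Matrix (Fin n) (Fin n) (MonoidAlgebra F V)) (i j : Fin n) :
    r0 Y i j = co (Y i j) := rfl

theorem co_single_mul (a : F) (y : MonoidAlgebra F V) :
    co (MonoidAlgebra.single 1 a * y) = a * co y := by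
  show (MonoidAlgebra.single 1 a * y).coeff 1 = a * y.coeff 1
  rw [MonoidAlgebra.coeff_single_mul_apply, inv_one, one_mul]

theorem r0_s0 (x : Matrix (Fin n) (Fin n) F) :
    r0 (s0 x : Matrix (Fin n) (Fin n) (MonoidAlgebra F V)) = x := by
  ext i j
  rw [r0_apply, s0_apply]
  show (MonoidAlgebra.single 1 (x i j)).coeff 1 = x i j
  simp

theorem r0_s0_mul (x : Matrix (Fin n) (Fin n) F)
    (Y : Matrix (Fin n) (Fin n) (MonoidAlgebra F V)) : r0 (s0 x * Y) = x * r0 Y := by
  ext i j
  rw [r0_apply, Matrix.mul_apply, Matrix.mul_apply, map_sum]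
  refine Finset.sum_congr rfl fun k _ => ?_
  rw [s0_apply, co_single_mul, r0_apply]

theorem r0_mul_s0 (x : Matrix (Fin n) (Fin n) F)
    (Y : Matrix (Fin n) (Fin n) (MonoidAlgebra F V)) : r0 (Y * s0 x) = r0 Y * x := by
  ext i j
  rw [r0_apply, Matrix.mul_apply, Matrix.mul_apply, map_sum]
  refine Finset.sum_congr rfl fun k _ => ?_
  rw [s0_apply, mul_comm, co_single_mul, r0_apply, mul_comm]

end

theorem cps : CpsStmt := by
  intro F V B _ _ _ _ _ β n π f X hL hbij ⟨Ω, hΩ, hact, b, c, hfr, _⟩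
  obtain ⟨hb, hc, hsum⟩ := hfr
  let τ : V →* Matrix (Fin n) (Fin n) F := (π : B →* Matrix (Fin n) (Fin n) F).comp β
  have hfβ : ∀ u : V, f (β u) = (MonoidAlgebra.single u (1 : F)) •
      (s0 (τ u) : Matrix (Fin n) (Fin n) (MonoidAlgebra F V)) := by
    intro u
    ext1 i j
    rw [hL.grp, Matrix.smul_apply, s0_apply, smul_eq_mul, MonoidAlgebra.single_mul_single,
      mul_one, one_mul]
    rfl
  have hone : ∀ u : V, (MonoidAlgebra.single u (1 : F)) * MonoidAlgebra.single u⁻¹ 1 = 1 := by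
    intro u
    rw [MonoidAlgebra.single_mul_single, mul_inv_cancel, one_mul]
    rfl
  have hconj : ∀ (u : V) (Y : Matrix (Fin n) (Fin n) (MonoidAlgebra F V)),
      f (β u) * (Y * f (β u⁻¹)) = s0 (τ u) * (Y * s0 (τ u⁻¹)) := by
    intro u Y
    rw [hfβ, hfβ, Matrix.mul_smul, Matrix.mul_smul, Matrix.smul_mul, smul_smul, mul_comm, hone,
      one_smul]
  let e : B ≃ₐ[F] Matrix (Fin n) (Fin n) (MonoidAlgebra F V) := AlgEquiv.ofBijective f hbij
  have hfe : ∀ Y, f (e.symm Y) = Y := fun Y => e.apply_symm_apply Y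
  let s : Matrix (Fin n) (Fin n) F →ₗ[F] B := e.symm.toLinearMap ∘ₗ s0.toLinearMap
  let r : B →ₗ[F] Matrix (Fin n) (Fin n) F := r0 ∘ₗ f.toLinearMap
  have hfs : ∀ x, f (s x) = s0 x := fun x => hfe _
  have hrs : ∀ x, r (s x) = x := by
    intro x
    show r0 (f (s x)) = x
    rw [hfs, r0_s0]
  have hr : ∀ (u : V) (x : B), r (bi F β (u, u) x) = cj F τ u (r x) := by
    intro u x
    show r0 (f (β u * (x * β u⁻¹))) = τ u * (r0 (f x) * τ u⁻¹)
    rw [map_mul f, map_mul f, hconj, r0_s0_mul, r0_mul_s0]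
  have hs : ∀ (u : V) (x : Matrix (Fin n) (Fin n) F), s (cj F τ u x) = bi F β (u, u) (s x) := by
    intro u x
    apply hbij.1
    show f (s (τ u * (x * τ u⁻¹))) = f (β u * (s x * β u⁻¹))
    rw [hfs, map_mul f, map_mul f, hfs, hconj, map_mul, map_mul]
  letI act : MulAction V Ω := MulAction.compHom Ω ((MonoidHom.id V).prod (MonoidHom.id V))
  have hsm : ∀ (u : V) (ω : Ω), u • ω = ((u, u) : V × V) • ω := fun u ω => rfl
  refine ⟨Ω, hΩ, act, fun ω => r (b ω), fun ω => (c ω).comp s, ⟨?_, ?_, ?_⟩, fun _ => trivial⟩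
  · intro u ω
    show r (b (((u, u) : V × V) • ω)) = cj F τ u (r (b ω))
    rw [hb, hr]
  · intro u ω m
    show c (((u, u) : V × V) • ω) (s (cj F τ u m)) = c ω (s m)
    rw [hs, hc]
  · intro m
    show ∑ ω, c ω (s m) • r (b ω) = m
    calc ∑ ω, c ω (s m) • r (b ω) = r (∑ ω, c ω (s m) • b ω) := by
          rw [map_sum]
          exact Finset.sum_congr rfl fun ω _ => (map_smul r _ _).symm
      _ = m := by rw [hsum, hrs]

end Pool.Agent.PFC.B5a.H72
end
end -- Pool.Agent.Helper72_PFC.CPSa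

section -- Pool.Agent.PFC.B5.LSM_49

/-!
Squad PFC, block B5b, rows LSM, SMD (helper49).
-/

namespace Pool.Agent.PFC.H49c

open Pool.Agent.PFC TensorProduct

/-- LSM: N ⊗ A has at most as many simple modules as A if N is a full matrix algebra. -/
theorem lsm (hLSF : LsfStmt) : LsmStmt := by
  intro F N A _ _ _ _ _ _ _ n hn hN
  classical
  obtain ⟨ε⟩ := hN
  have : NeZero n := ⟨hn.ne'⟩
  have : FiniteDimensional F N := Module.Finite.equiv ε.symm.toLinearEquiv
  let E : Fin n → Fin n → N := fun i j => ε.symm (Matrix.single i j 1)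
  have hE : ∀ i j k, E i j * E j k = E i k := by
    intro i j k
    show ε.symm _ * ε.symm _ = ε.symm _
    rw [← map_mul, Matrix.single_mul_single_same, one_mul]
  have hcor : ∀ x : N, E 0 0 * x * E 0 0 = (ε x 0 0) • E 0 0 := by
    intro x
    apply ε.injective
    rw [map_mul, map_mul, map_smul]
    show ε (ε.symm _) * ε x * ε (ε.symm _) = _ • ε (ε.symm _)
    rw [AlgEquiv.apply_symm_apply]
    ext i j
    rw [Matrix.single_mul_mul_single, one_mul, mul_one, Matrix.smul_apply]
    simp only [Matrix.single_apply, smul_eq_mul]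
    split_ifs <;> simp
  let f0 : N →ₗ[F] F :=
    { toFun := fun x => ε x 0 0
      map_add' := fun x y => by rw [map_add, Matrix.add_apply]
      map_smul' := fun c x => by rw [map_smul, Matrix.smul_apply, RingHom.id_apply] }
  let f : N ⊗[F] A →ₗ[F] A := TensorProduct.lid F A ∘ₗ TensorProduct.map f0 LinearMap.id
  let κ : A →ₗ[F] N ⊗[F] A := TensorProduct.mk F N A (E 0 0)
  have hf0 : f0 (E 0 0) = 1 := by
    show ε (ε.symm _) 0 0 = 1
    rw [AlgEquiv.apply_symm_apply, Matrix.single_apply_same]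
  have hfκ : ∀ a, f (κ a) = a := by
    intro a
    show TensorProduct.lid F A (TensorProduct.map f0 LinearMap.id (E 0 0 ⊗ₜ[F] a)) = a
    rw [TensorProduct.map_tmul, TensorProduct.lid_tmul, hf0, one_smul]
    rfl
  have hκf : ∀ z : N ⊗[F] A, (E 0 0 ⊗ₜ[F] (1 : A)) * z * (E 0 0 ⊗ₜ[F] (1 : A)) = κ (f z) := by
    intro z
    induction z using TensorProduct.induction_on with
    | zero => simp
    | tmul x a =>
      rw [Algebra.TensorProduct.tmul_mul_tmul, Algebra.TensorProduct.tmul_mul_tmul, one_mul,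
        mul_one, hcor]
      show _ = E 0 0 ⊗ₜ[F] (TensorProduct.lid F A (TensorProduct.map f0 LinearMap.id (x ⊗ₜ[F] a)))
      rw [TensorProduct.map_tmul, TensorProduct.lid_tmul, TensorProduct.smul_tmul]
      rfl
    | add x y hx hy =>
      rw [mul_add, add_mul, hx, hy, map_add, map_add]
  refine hLSF F (N ⊗[F] A) A (E 0 0 ⊗ₜ[F] (1 : A)) κ ⟨?_, ?_, rfl, ?_⟩ ?_
  · intro a b h
    rw [← hfκ a, ← hfκ b, h]
  · intro a b
    show E 0 0 ⊗ₜ[F] (a * b) = (E 0 0 ⊗ₜ[F] a) * (E 0 0 ⊗ₜ[F] b)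
    rw [Algebra.TensorProduct.tmul_mul_tmul, hE]
  · intro z h1 h2
    refine ⟨f z, ?_⟩
    rw [← hκf, h1, h2]
  · have h1 : (1 : N ⊗[F] A) = ∑ i : Fin n, (E i 0 ⊗ₜ[F] (1 : A)) * (E 0 0 ⊗ₜ[F] (1 : A)) *
        (E 0 i ⊗ₜ[F] (1 : A)) := by
      have h2 : ∀ i : Fin n, (E i 0 ⊗ₜ[F] (1 : A)) * (E 0 0 ⊗ₜ[F] (1 : A)) *
        (E 0 i ⊗ₜ[F] (1 : A)) = (E i i) ⊗ₜ[F] (1 : A) := by
        intro i
        rw [Algebra.TensorProduct.tmul_mul_tmul, Algebra.TensorProduct.tmul_mul_tmul, hE, hE,
          one_mul, one_mul]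
      rw [Finset.sum_congr rfl (fun i _ => h2 i), ← TensorProduct.sum_tmul]
      have h3 : ∑ i : Fin n, E i i = 1 := by
        show ∑ i : Fin n, ε.symm (Matrix.single i i 1) = 1
        rw [← map_sum]
        have h4 : ∑ i : Fin n, Matrix.single i i (1 : F) = 1 := by
          ext i j
          rw [Matrix.sum_apply, Matrix.one_apply]
          simp only [Matrix.single_apply]
          split_ifs with h
          · subst h
            simp
          · apply Finset.sum_eq_zero
            intro k _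
            rw [if_neg]
            rintro ⟨rfl, rfl⟩
            exact h rfl
        rw [h4, map_one]
      rw [h3]
      rfl
    rw [h1]
    refine Submodule.sum_mem _ ?_
    intro i _
    exact Submodule.subset_span ⟨_, _, rfl⟩

/-- SMD: a homomorphism of the semidirect product. -/
theorem smd : SmdStmt := by
  intro V E A _ _ _ _ φ e0 α y hgen hy hord
  classical
  have hpos : 0 < Nat.card E := Nat.card_pos
  let yu : Aˣ :=
    { val := y
      inv := y ^ (Nat.card E - 1)
      val_inv := by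
        rw [← pow_succ', Nat.sub_add_cancel hpos, hord]
      inv_val := by
        rw [← pow_succ, Nat.sub_add_cancel hpos, hord] }
  have hyu : yu ^ Nat.card E = 1 := by
    ext
    rw [Units.val_pow_eq_pow_val, Units.val_one]
    exact hord
  let fn : V →* Aˣ := MonoidHom.toHomUnits α
  have ho : orderOf yu ∣ orderOf e0 := by
    rw [orderOf_eq_card_of_forall_mem_zpowers hgen]
    exact orderOf_dvd_of_pow_eq_one hyu
  let fg : E →* Aˣ := monoidHomOfForallMemZpowers hgen ho
  have hfg : fg e0 = yu := monoidHomOfForallMemZpowers_apply_gen hgen ho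
  have hone : ∀ u, fn (φ e0 u) = yu * fn u * yu⁻¹ := by
    intro u
    rw [eq_mul_inv_iff_mul_eq]
    ext
    exact (hy u).symm
  have hall : ∀ (k : ℕ) (u : V), fn (φ (e0 ^ k) u) = fg (e0 ^ k) * fn u * (fg (e0 ^ k))⁻¹ := by
    intro k
    induction k with
    | zero =>
      intro u
      simp
    | succ k ih =>
      intro u
      rw [pow_succ', map_mul, MulAut.mul_apply, hone, ih, map_mul, hfg]
      group
  have hh : ∀ g : E, fn.comp (φ g).toMonoidHom = (MulAut.conj (fg g)).toMonoidHom.comp fn := by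
    intro g
    obtain ⟨k, hk⟩ := mem_powers_iff_mem_zpowers.2 (hgen g)
    ext u
    have h1 := hall k u
    have hk' : e0 ^ k = g := hk
    rw [hk'] at h1
    show ((fn (φ g u) : Aˣ) : A) = ((fg g * fn u * (fg g)⁻¹ : Aˣ) : A)
    rw [h1]
  refine ⟨(Units.coeHom A).comp (SemidirectProduct.lift fn fg hh), ?_, ?_⟩
  · intro u
    rw [MonoidHom.comp_apply, SemidirectProduct.lift_inl]
    rfl
  · rw [MonoidHom.comp_apply, SemidirectProduct.lift_inr, hfg]
    rfl

end Pool.Agent.PFC.H49c
end -- Pool.Agent.PFC.B5.LSM_49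

section -- Pool.Agent.Helper41_PFC.DIM

namespace Pool.Agent.PFC.H41

open MulAction

/-- an invariant function sums to zero over a stable set without fixed points -/
theorem orbit_zero {ℓ : ℕ} [Fact ℓ.Prime] {F H Ω : Type} [Field F] [CharP F ℓ] [Group H]
    [Finite H] [Fintype Ω] [MulAction H Ω] (P : Subgroup H) (hP : IsPGroup ℓ P)
    (g : Ω → F) (hg : ∀ ω, ∀ h ∈ P, g (h • ω) = g ω) (T : Finset Ω)
    (hT : ∀ ω ∈ T, ∀ h ∈ P, h • ω ∈ T) (hT2 : ∀ ω ∈ T, ¬ ∀ h ∈ P, h • ω = ω) :
    ∑ ω ∈ T, g ω = 0 := by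
  classical
  induction hn : T.card using Nat.strong_induction_on generalizing T with
  | _ n ih =>
    rcases T.eq_empty_or_nonempty with rfl | ⟨ω, hω⟩
    · exact Finset.sum_empty
    · obtain ⟨S, hS, hinj, hsur⟩ := exTv P ω
      let O : Finset Ω := S.image (fun x => x • ω)
      have hO : O ⊆ T := by
        intro y hy
        obtain ⟨x, hx, rfl⟩ := Finset.mem_image.1 hy
        exact hT ω hω x (hS.1 x hx)
      have hOst : ∀ y ∈ O, ∀ h ∈ P, h • y ∈ O := by
        intro y hy h hh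
        obtain ⟨x, hx, rfl⟩ := Finset.mem_image.1 hy
        obtain ⟨z, hz, hz2⟩ := hsur (h * x) (P.mul_mem hh (hS.1 x hx))
        refine Finset.mem_image.2 ⟨z, hz, ?_⟩
        rw [hz2, mul_smul]
      have hωO : ω ∈ O := by
        obtain ⟨z, hz, hz2⟩ := hsur 1 P.one_mem
        refine Finset.mem_image.2 ⟨z, hz, ?_⟩
        rw [hz2, one_smul]
      have hrest : ∑ ω ∈ T \ O, g ω = 0 := by
        refine ih (T \ O).card ?_ (T \ O) ?_ ?_ rfl
        · rw [← hn]
          exact Finset.card_lt_card (Finset.sdiff_ssubset hO ⟨ω, hωO⟩)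
        · intro y hy h hh
          rw [Finset.mem_sdiff] at hy ⊢
          refine ⟨hT y hy.1 h hh, fun hc => hy.2 ?_⟩
          have := hOst _ hc h⁻¹ (P.inv_mem hh)
          rwa [inv_smul_smul] at this
        · intro y hy
          exact hT2 y (Finset.mem_sdiff.1 hy).1
      have horb : ∑ ω ∈ O, g ω = 0 := by
        have h1 : ∑ y ∈ O, g y = ∑ x ∈ S, g ω := by
          rw [Finset.sum_image (by
            intro x hx y hy hxy
            exact hinj x hx y hy hxy)]
          refine Finset.sum_congr rfl ?_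
          intro x hx
          exact hg ω x (hS.1 x hx)
        rw [h1, Finset.sum_const]
        have hlt : P ⊓ stabilizer H ω < P := by
          refine lt_of_le_of_ne inf_le_left ?_
          intro heq
          apply hT2 ω hω
          intro h hh
          have : h ∈ P ⊓ stabilizer H ω := by
            rw [heq]
            exact hh
          exact mem_stabilizer_iff.1 (Subgroup.mem_inf.1 this).2
        have hdvd : ℓ ∣ S.card := by
          have hc := card_tv (P ⊓ stabilizer H ω) P hlt.le S hS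
          obtain ⟨k, hk⟩ := (IsPGroup.iff_card).1 hP
          have hdiv : S.card ∣ ℓ ^ k := ⟨_, by rw [← hk]; exact hc.symm⟩
          obtain ⟨j, -, hj⟩ := (Nat.dvd_prime_pow (Fact.out : ℓ.Prime)).1 hdiv
          rcases Nat.eq_zero_or_pos j with h0 | h0
          · exfalso
            rw [h0, pow_zero] at hj
            rw [hj, one_mul] at hc
            exact hlt.ne (Subgroup.eq_of_le_of_card_ge hlt.le hc.ge)
          · rw [hj]
            exact dvd_pow_self ℓ h0.ne'
        obtain ⟨d, hd⟩ := hdvd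
        rw [hd, mul_smul, nsmul_eq_mul, CharP.cast_eq_zero, zero_mul]
      rw [← Finset.sum_sdiff hO, hrest, horb, add_zero]

theorem sum_fp {ℓ : ℕ} [Fact ℓ.Prime] {F H Ω : Type} [Field F] [CharP F ℓ] [Group H]
    [Finite H] [Fintype Ω] [MulAction H Ω] (P : Subgroup H) (hP : IsPGroup ℓ P)
    (g : Ω → F) (hg : ∀ ω, ∀ h ∈ P, g (h • ω) = g ω) :
    ∑ ω, g ω = ∑ ω ∈ fp P Ω, g ω := by
  classical
  have h1 := orbit_zero (ℓ := ℓ) P hP g hg (Finset.univ \ fp P Ω) ?_ ?_
  · have h2 := Finset.sum_sdiff (Finset.subset_univ (fp P Ω)) (f := g)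
    rw [h1, zero_add] at h2
    exact h2.symm
  · intro ω hω h hh
    rw [Finset.mem_sdiff] at hω ⊢
    refine ⟨Finset.mem_univ _, fun hc => hω.2 ?_⟩
    rw [mem_fp] at hc ⊢
    intro k hk
    have h4 := hc (h * k * h⁻¹) (P.mul_mem (P.mul_mem hh hk) (P.inv_mem hh))
    rw [mul_smul, mul_smul, inv_smul_smul] at h4
    exact smul_left_cancel h h4
  · intro ω hω hc
    exact (Finset.mem_sdiff.1 hω).2 ((mem_fp P Ω ω).2 hc)

/-- the dimension is the trace of a decomposition of the identity -/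
theorem dim_frame {F V ι : Type} [Field F] [AddCommGroup V] [Module F V] (T : Finset ι)
    (v : ι → V) (f : ι → (V →ₗ[F] F)) (h : ∀ x, ∑ i ∈ T, f i x • v i = x) :
    (Module.finrank F V : F) = ∑ i ∈ T, f i (v i) := by
  classical
  have hfd : Module.Finite F V := by
    refine ⟨⟨T.image v, ?_⟩⟩
    rw [eq_top_iff]
    intro x _
    rw [← h x]
    refine Submodule.sum_mem _ ?_
    intro i hi
    refine Submodule.smul_mem _ _ (Submodule.subset_span ?_)
    rw [Finset.coe_image]
    exact ⟨i, hi, rfl⟩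
  have h1 : (LinearMap.id : V →ₗ[F] V) = ∑ i ∈ T, (f i).smulRight (v i) := by
    ext x
    rw [LinearMap.sum_apply]
    exact (h x).symm
  rw [← LinearMap.trace_id F V, h1, map_sum]
  refine Finset.sum_congr rfl ?_
  intro i _
  exact LinearMap.trace_smulRight (f i) (v i)

theorem dim : DimStmt := by
  intro ℓ _ F H M N _ _ _ _ _ _ _ _ ρ X hPS P hP π hπ
  classical
  obtain ⟨Ω, iF, iA, b, c, hfr, -⟩ := hPS
  have hinv : ∀ ω, ∀ h ∈ P, c (h • ω) (b (h • ω)) = c ω (b ω) := by
    intro ω h _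
    rw [hfr.1, hfr.2.1]
  have hM : (Module.finrank F M : F) = ∑ ω ∈ fp P Ω, c ω (b ω) := by
    rw [dim_frame (Finset.univ : Finset Ω) b c hfr.2.2]
    exact sum_fp P hP (fun ω => c ω (b ω)) hinv
  choose s hs using hπ.2
  have hdiff : ∀ ω, (∀ h ∈ P, h • ω = ω) → ∀ m ∈ Fx ρ P, ∀ m' ∈ Fx ρ P, π m = π m' →
      c ω m = c ω m' := by
    intro ω hω m hm m' hm' he
    have h1 : m - m' ∈ BK ρ P := by
      rw [← hπ.1 _ (Submodule.sub_mem _ hm hm'), map_sub, he, sub_self]
    have h2 := frame_BK hfr P hP h1 ω hω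
    rw [map_sub] at h2
    exact sub_eq_zero.1 h2
  let d : Ω → (N →ₗ[F] F) := fun ω => if hω : ∀ h ∈ P, h • ω = ω then
    { toFun := fun n => c ω (s n)
      map_add' := by
        intro x y
        rw [← map_add]
        apply hdiff ω hω _ (hs _).1 _ (Submodule.add_mem _ (hs _).1 (hs _).1)
        rw [map_add, (hs _).2, (hs _).2, (hs _).2]
      map_smul' := by
        intro r x
        rw [RingHom.id_apply, ← map_smul]
        apply hdiff ω hω _ (hs _).1 _ (Submodule.smul_mem _ _ (hs _).1)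
        rw [map_smul, (hs _).2, (hs _).2] } else 0
  have hd : ∀ ω ∈ fp P Ω, ∀ m ∈ Fx ρ P, d ω (π m) = c ω m := by
    intro ω hω m hm
    have hω' := (mem_fp P Ω ω).1 hω
    have h1 : d ω (π m) = c ω (s (π m)) := by
      simp only [d]
      rw [dif_pos hω']
      rfl
    rw [h1]
    exact hdiff ω hω' _ (hs _).1 _ hm (hs _).2
  have hb : ∀ ω ∈ fp P Ω, b ω ∈ Fx ρ P := by
    intro ω hω h hh
    rw [← hfr.1, (mem_fp P Ω ω).1 hω h hh]
  have hN : (Module.finrank F N : F) = ∑ ω ∈ fp P Ω, d ω (π (b ω)) := by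
    refine dim_frame (fp P Ω) (fun ω => π (b ω)) d ?_
    intro n
    obtain ⟨hm, hn⟩ := hs n
    have h1 := frame_sub hfr P hm
    have h2 := BK_le_Fx ρ P h1
    have h3 := (hπ.1 _ h2).2 h1
    rw [map_sub, map_sum, sub_eq_zero, hn] at h3
    refine Eq.trans (Finset.sum_congr rfl ?_) h3.symm
    intro ω hω
    rw [map_smul, ← hd ω hω _ hm, hn]
  rw [hM, hN]
  refine Finset.sum_congr rfl ?_
  intro ω hω
  exact (hd ω hω _ (hb ω hω)).symm

end Pool.Agent.PFC.H41
end -- Pool.Agent.Helper41_PFC.DIM
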