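import Pool.Agent.Helper12_AWB.B005

/-!
# Merged copies (generated) of the modules

* `Pool.Agent.Helper99_PFD.GAU`
-/

set_option autoImplicit false

section -- Pool.Agent.Helper99_PFD.GAU

/-!
# PFD row GAU (helper99)

Independence of the family in the 4-gon with a bimodule map inserted.
-/

open scoped BigOperators

noncomputable section

namespace Pool.Agent.PFD.H99

open Pool.Agent.PFC.B1 Pool.Agent.PFD

section
variable {R M M' X : Type} [CommRing R] [AddCommGroup M] [Module R M]
    [AddCommGroup M'] [Module R M'] [AddCommGroup X] [Module R X] {F : M → M' → X}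

theorem bsum1 (h : Bil R F) {ι : Type} (s : Finset ι) (f : ι → M) (b : M') :
    F (∑ i ∈ s, f i) b = ∑ i ∈ s, F (f i) b := by
  classical
  induction s using Finset.induction_on with
  | empty =>
    simp only [Finset.sum_empty]
    have h0 := h.s1 0 0 b
    simpa using h0
  | insert a s ha ih => rw [Finset.sum_insert ha, Finset.sum_insert ha, h.a1, ih]

theorem bsum2 (h : Bil R F) {ι : Type} (s : Finset ι) (f : ι → M') (a : M) :
    F a (∑ i ∈ s, f i) = ∑ i ∈ s, F a (f i) := by
  classical
  induction s using Finset.induction_on with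
  | empty =>
    simp only [Finset.sum_empty]
    have h0 := h.s2 0 a 0
    simpa using h0
  | insert b s hb ih => rw [Finset.sum_insert hb, Finset.sum_insert hb, h.a2, ih]

end

section
variable {R B I X : Type} [CommRing R] [Ring B] [Algebra R B] [Fintype I]
    [AddCommGroup X] [Module R X]

/-- M2 for a symmetric Frobenius system -/
theorem mv2 (c : FS R B I) (hs : ∀ x y, c.lam (x * y) = c.lam (y * x)) {F : B → B → X}
    (h : Bil R F) (x : B) : ∑ i, F (c.b i * x) (c.b' i) = ∑ i, F (c.b i) (x * c.b' i) := by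
  have e1 : ∀ i, F (c.b i * x) (c.b' i) =
      ∑ k, c.lam (c.b' k * (c.b i * x)) • F (c.b k) (c.b' i) := fun i => by
    conv_lhs => rw [← c.h1 (c.b i * x)]
    rw [bsum1 h]
    exact Finset.sum_congr rfl fun k _ => h.s1 _ _ _
  have e2 : ∀ i, F (c.b i) (x * c.b' i) =
      ∑ k, c.lam (x * c.b' i * c.b k) • F (c.b i) (c.b' k) := fun i => by
    conv_lhs => rw [← c.h2 (x * c.b' i)]
    rw [bsum2 h]
    exact Finset.sum_congr rfl fun k _ => h.s2 _ _ _
  simp only [e1, e2]
  rw [Finset.sum_comm]
  refine Finset.sum_congr rfl fun k _ => Finset.sum_congr rfl fun i _ => ?_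
  rw [← mul_assoc, hs (c.b' k * c.b i) x, ← mul_assoc]

/-- M3 -/
theorem mv3 (c : FS R B I) (hs : ∀ x y, c.lam (x * y) = c.lam (y * x)) {F : B → B → X}
    (h : Bil R F) : ∑ i, F (c.b i) (c.b' i) = ∑ i, F (c.b' i) (c.b i) := by
  have e1 : ∀ i, F (c.b i) (c.b' i) =
      ∑ k, c.lam (c.b i * c.b k) • F (c.b' k) (c.b' i) := fun i => by
    conv_lhs => rw [← c.h2 (c.b i)]
    rw [bsum1 h]
    exact Finset.sum_congr rfl fun k _ => h.s1 _ _ _
  have e2 : ∀ i, F (c.b' i) (c.b i) =
      ∑ k, c.lam (c.b i * c.b k) • F (c.b' i) (c.b' k) := fun i => by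
    conv_lhs => rw [← c.h2 (c.b i)]
    rw [bsum2 h]
    exact Finset.sum_congr rfl fun k _ => h.s2 _ _ _
  simp only [e1, e2]
  rw [Finset.sum_comm]
  refine Finset.sum_congr rfl fun k _ => Finset.sum_congr rfl fun i _ => ?_
  rw [hs]

end

section
variable {R B A I J N X : Type} [CommRing R] [Ring B] [Algebra R B] [Ring A] [Algebra R A]
    [Fintype I] [Fintype J] [Fintype N] [AddCommGroup X] [Module R X]

/-- CP -/
theorem cp (D : Net R B A I J N) {F : A → A → X} (h : Bil R F) :
    ∑ s, ∑ i, ∑ l, F (D.u i * D.x s * D.u' l) (D.u l * D.y s * D.u' i) =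
      ∑ p, F (D.d.b p) (D.d.b' p) - ∑ i, F (D.u i) (D.u' i) := by
  have e1 : ∀ a a', F a a' = ∑ p, D.T (a' * D.d.b p) • F a (D.d.b' p) := fun a a' => by
    conv_lhs => rw [← D.d.h2 a']
    rw [bsum2 h]
    exact Finset.sum_congr rfl fun k _ => h.s2 _ _ _
  have e2 : ∀ a a' : A, F (a - a') = fun b => F a b - F a' b := fun a a' => by
    funext b
    have h1 := h.a1 (a - a') a' b
    rw [sub_add_cancel] at h1
    rw [h1, add_sub_cancel_right]
  have e3 : ∀ p, F (D.j (D.pr (D.d.b p))) (D.d.b' p) =
      ∑ i, D.T (D.u' i * D.d.b p) • F (D.u i) (D.d.b' p) := fun p => by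
    have h1 : D.j (D.pr (D.d.b p)) = ∑ i, D.T (D.u' i * D.d.b p) • D.u i := by
      conv_lhs => rw [← D.c.h1 (D.pr (D.d.b p))]
      rw [map_sum]
      refine Finset.sum_congr rfl fun i _ => ?_
      rw [map_smul]
      show _ = D.d.lam (D.j (D.c.b' i) * D.d.b p) • D.j (D.c.b i)
      rw [D.ort, D.pr_l]
    rw [h1, bsum1 h]
    exact Finset.sum_congr rfl fun k _ => h.s1 _ _ _
  have e4 : ∀ p, F (D.d.b p - D.j (D.pr (D.d.b p))) (D.d.b' p) =
      ∑ s, ∑ i, ∑ l, D.T (D.u l * D.y s * D.u' i * D.d.b p) •
        F (D.u i * D.x s * D.u' l) (D.d.b' p) := fun p => by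
    rw [← D.cx (D.d.b p)]
    rw [bsum1 h]
    refine Finset.sum_congr rfl fun s _ => ?_
    rw [bsum1 h]
    refine Finset.sum_congr rfl fun i _ => ?_
    rw [bsum1 h]
    refine Finset.sum_congr rfl fun k _ => ?_
    exact h.s1 _ _ _
  have e5 : ∑ i, F (D.u i) (D.u' i) = ∑ p, F (D.j (D.pr (D.d.b p))) (D.d.b' p) := by
    simp only [e3]
    rw [Finset.sum_comm]
    exact Finset.sum_congr rfl fun i _ => e1 _ _
  rw [e5, ← Finset.sum_sub_distrib]
  have e6 : ∀ p, F (D.d.b p) (D.d.b' p) - F (D.j (D.pr (D.d.b p))) (D.d.b' p) =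
      F (D.d.b p - D.j (D.pr (D.d.b p))) (D.d.b' p) := fun p => by rw [e2]
  rw [Finset.sum_congr rfl fun p _ => (e6 p).trans (e4 p)]
  have c1 : ∀ f : J → N → I → I → X, ∑ p, ∑ s, ∑ i, ∑ l, f p s i l =
      ∑ s, ∑ i, ∑ l, ∑ p, f p s i l := fun f => by
    rw [Finset.sum_comm]
    refine Finset.sum_congr rfl fun s _ => ?_
    rw [Finset.sum_comm]
    refine Finset.sum_congr rfl fun i _ => ?_
    rw [Finset.sum_comm]
  rw [c1]
  exact Finset.sum_congr rfl fun s _ => Finset.sum_congr rfl fun i _ =>
    Finset.sum_congr rfl fun l _ => e1 _ _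

end

theorem cpop {R B A I J N X : Type} [CommRing R] [Ring B] [Algebra R B] [Ring A] [Algebra R A]
    [Fintype I] [Fintype J] [Fintype N] [AddCommGroup X] [Module R X]
    (D : Net R B A I J N) {F : A → A → X} (h : Bil R F) :
    ∑ s, ∑ i, ∑ l, F (D.u i * D.y s * D.u' l) (D.u l * D.x s * D.u' i) =
      ∑ p, F (D.d.b p) (D.d.b' p) - ∑ i, F (D.u i) (D.u' i) := cp D.op h

section
variable {R B A I J N : Type} [CommRing R] [Ring B] [Algebra R B] [Ring A] [Algebra R A]
    [Fintype I] [Fintype J] [Fintype N]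

theorem tcyc (D : Net R B A I J N) (a b : A) : D.T (a * b) = D.T (b * a) := D.ds a b

/-- the 4-gon after the moves -/
theorem n4a (D : Net R B A I J N) (X X' : N → A) (de : A →ₗ[R] A)
    (hl : ∀ b a, de (D.j b * a) = D.j b * de a) (hr : ∀ a b, de (a * D.j b) = de a * D.j b)
    (h1 : de 1 = 0) :
    D.N4 X X' de = ∑ r, ∑ i, ∑ l, ∑ s, ∑ k,
      D.T ((D.u' i * X r * D.u l) * D.x s * D.u k * (D.u' l * X' r * D.u i) * D.u' k *
        de (D.y s)) := by
  have hu0 : ∀ i, de (D.u' i) = 0 := fun i => by
    have h := hr 1 (D.c.b' i)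
    rw [one_mul, h1, zero_mul] at h
    exact h
  have hu : ∀ s k l, de (D.u k * D.y s * D.u' l) = D.u k * de (D.y s) * D.u' l := fun s k l => by
    show de (D.j (D.c.b k) * D.y s * D.j (D.c.b' l)) = _
    rw [hr, hl]; rfl
  unfold Net.N4
  refine Finset.sum_congr rfl fun r _ => ?_
  -- step 1: CP
  have hF : ∀ i, Bil R (fun a a' : A => D.T (X r * a * X' r * D.u i * de a' * D.u' i)) := fun i =>
    { a1 := fun a a' b => by
        simp only [mul_add, add_mul, Net.T, map_add]
      a2 := fun a b b' => by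
        simp only [mul_add, add_mul, Net.T, map_add]
      s1 := fun t a b => by
        simp only [Net.T, mul_smul_comm, smul_mul_assoc, map_smul]
      s2 := fun t a b => by
        simp only [Net.T, mul_smul_comm, smul_mul_assoc, map_smul] }
  have e1 : ∀ i, ∑ p, D.T (X r * D.d.b p * X' r * D.u i * de (D.d.b' p) * D.u' i) =
      ∑ s, ∑ l, ∑ k, D.T (X r * (D.u l * D.x s * D.u' k) * X' r * D.u i *
        (D.u k * de (D.y s) * D.u' l) * D.u' i) := fun i => by
    have h := cp D (hF i)
    simp only [hu] at h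
    rw [h]
    simp only [hu0, mul_zero, zero_mul]
    simp only [Net.T, map_zero, Finset.sum_const_zero, sub_zero]
  simp only [e1]
  -- step 2: M3 on k
  have e2 : ∀ i s l, ∑ k, D.T (X r * (D.u l * D.x s * D.u' k) * X' r * D.u i *
        (D.u k * de (D.y s) * D.u' l) * D.u' i) =
      ∑ k, D.T (X r * (D.u l * D.x s * D.u k) * X' r * D.u i *
        (D.u' k * de (D.y s) * D.u' l) * D.u' i) := fun i s l => by
    have hG : Bil R (fun a a' : B => D.T (X r * (D.u l * D.x s * D.j a) * X' r * D.u i *
        (D.j a' * de (D.y s) * D.u' l) * D.u' i)) :=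
      { a1 := fun a a' b => by
          simp only [mul_add, add_mul, Net.T, map_add]
        a2 := fun a b b' => by
          simp only [mul_add, add_mul, Net.T, map_add]
        s1 := fun t a b => by
          simp only [Net.T, mul_smul_comm, smul_mul_assoc, map_smul]
        s2 := fun t a b => by
          simp only [Net.T, mul_smul_comm, smul_mul_assoc, map_smul] }
    exact (mv3 D.c D.cs hG).symm
  simp only [e2]
  -- step 3: M2 on i
  have e3 : ∀ s l k, ∑ i, D.T (X r * (D.u l * D.x s * D.u k) * X' r * D.u i *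
        (D.u' k * de (D.y s) * D.u' l) * D.u' i) =
      ∑ i, D.T (X r * (D.u l * D.x s * D.u k) * X' r * D.u i *
        (de (D.y s) * D.u' l) * (D.u' k * D.u' i)) := fun s l k => by
    have hG : Bil R (fun a a' : B => D.T (X r * (D.u l * D.x s * D.u k) * X' r * D.j a *
        (de (D.y s) * D.u' l) * D.j a')) :=
      { a1 := fun a a' b => by
          simp only [mul_add, add_mul, Net.T, map_add]
        a2 := fun a b b' => by
          simp only [mul_add, add_mul, Net.T, map_add]
        s1 := fun t a b => by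
          simp only [Net.T, mul_smul_comm, smul_mul_assoc, map_smul]
        s2 := fun t a b => by
          simp only [Net.T, mul_smul_comm, smul_mul_assoc, map_smul] }
    have h := mv2 D.c D.cs hG (D.c.b' k)
    simp only [map_mul] at h
    refine Eq.trans (Finset.sum_congr rfl fun i _ => ?_) h
    simp only [Net.u, Net.u', mul_assoc]
  -- step 4: M2 on k
  have e4 : ∀ i s l, ∑ k, D.T (X r * (D.u l * D.x s * D.u k) * X' r * D.u i *
        (de (D.y s) * D.u' l) * (D.u' k * D.u' i)) =
      ∑ k, D.T (X r * (D.u l * D.x s * (D.u k * D.u' l)) * X' r * D.u i *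
        de (D.y s) * (D.u' k * D.u' i)) := fun i s l => by
    have hG : Bil R (fun a a' : B => D.T (X r * (D.u l * D.x s * D.j a) * X' r * D.u i *
        de (D.y s) * (D.j a' * D.u' i))) :=
      { a1 := fun a a' b => by
          simp only [mul_add, add_mul, Net.T, map_add]
        a2 := fun a b b' => by
          simp only [mul_add, add_mul, Net.T, map_add]
        s1 := fun t a b => by
          simp only [Net.T, mul_smul_comm, smul_mul_assoc, map_smul]
        s2 := fun t a b => by
          simp only [Net.T, mul_smul_comm, smul_mul_assoc, map_smul] }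
    have h := mv2 D.c D.cs hG (D.c.b' l)
    simp only [map_mul] at h
    refine Eq.trans (Finset.sum_congr rfl fun k _ => ?_) h.symm
    simp only [Net.u, Net.u', mul_assoc]
  -- step 5: M2 on i back
  have e5 : ∀ s l k, ∑ i, D.T (X r * (D.u l * D.x s * (D.u k * D.u' l)) * X' r * D.u i *
        de (D.y s) * (D.u' k * D.u' i)) =
      ∑ i, D.T (X r * (D.u l * D.x s * (D.u k * D.u' l)) * X' r * (D.u i * D.u' k) *
        de (D.y s) * D.u' i) := fun s l k => by
    have hG : Bil R (fun a a' : B => D.T (X r * (D.u l * D.x s * (D.u k * D.u' l)) * X' r * D.j a *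
        de (D.y s) * D.j a')) :=
      { a1 := fun a a' b => by
          simp only [mul_add, add_mul, Net.T, map_add]
        a2 := fun a b b' => by
          simp only [mul_add, add_mul, Net.T, map_add]
        s1 := fun t a b => by
          simp only [Net.T, mul_smul_comm, smul_mul_assoc, map_smul]
        s2 := fun t a b => by
          simp only [Net.T, mul_smul_comm, smul_mul_assoc, map_smul] }
    have h := mv2 D.c D.cs hG (D.c.b' k)
    simp only [map_mul] at h
    exact h.symm
  have c1 : ∀ f : I → N → I → I → R, ∑ i, ∑ s, ∑ l, ∑ k, f i s l k =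
      ∑ s, ∑ l, ∑ k, ∑ i, f i s l k := fun f => by
    rw [Finset.sum_comm]
    refine Finset.sum_congr rfl fun s _ => ?_
    rw [Finset.sum_comm]
    refine Finset.sum_congr rfl fun l _ => ?_
    rw [Finset.sum_comm]
  rw [c1]
  simp only [e3]
  rw [← c1]
  simp only [e4]
  rw [c1]
  simp only [e5]
  rw [← c1]
  refine Finset.sum_congr rfl fun i _ => ?_
  rw [Finset.sum_comm]
  refine Finset.sum_congr rfl fun l _ => Finset.sum_congr rfl fun s _ =>
    Finset.sum_congr rfl fun k _ => ?_
  rw [tcyc]
  simp only [mul_assoc]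

/-- M3 for the two outer indices -/
theorem sw (D : Net R B A I J N) {F : A → A → R} (hG : Bil R F) (z w : A) :
    ∑ i, ∑ l, F (D.u' i * z * D.u l) (D.u' l * w * D.u i) =
      ∑ i, ∑ l, F (D.u i * z * D.u' l) (D.u l * w * D.u' i) := by
  have h2 : ∀ i, ∑ l, F (D.u' i * z * D.u l) (D.u' l * w * D.u i) =
      ∑ l, F (D.u' i * z * D.u' l) (D.u l * w * D.u i) := fun i => by
    have hH : Bil R (fun a a' : B => F (D.u' i * z * D.j a) (D.j a' * w * D.u i)) :=
      { a1 := fun a a' b => by
          simp only [map_add, mul_add]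
          exact hG.a1 _ _ _
        a2 := fun a b b' => by
          simp only [map_add, add_mul]
          exact hG.a2 _ _ _
        s1 := fun t a b => by
          simp only [map_smul, mul_smul_comm]
          exact hG.s1 _ _ _
        s2 := fun t a b => by
          simp only [map_smul, smul_mul_assoc]
          exact hG.s2 _ _ _ }
    exact mv3 D.c D.cs hH
  rw [Finset.sum_congr rfl fun i _ => h2 i]
  rw [Finset.sum_comm]
  have h3 : ∀ l, ∑ i, F (D.u' i * z * D.u' l) (D.u l * w * D.u i) =
      ∑ i, F (D.u i * z * D.u' l) (D.u l * w * D.u' i) := fun l => by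
    have hH : Bil R (fun a a' : B => F (D.j a * z * D.u' l) (D.u l * w * D.j a')) :=
      { a1 := fun a a' b => by
          simp only [map_add, add_mul]
          exact hG.a1 _ _ _
        a2 := fun a b b' => by
          simp only [map_add, mul_add]
          exact hG.a2 _ _ _
        s1 := fun t a b => by
          simp only [map_smul, smul_mul_assoc]
          exact hG.s1 _ _ _
        s2 := fun t a b => by
          simp only [map_smul, mul_smul_comm]
          exact hG.s2 _ _ _ }
    exact (mv3 D.c D.cs hH).symm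
  rw [Finset.sum_congr rfl fun l _ => h3 l]
  rw [Finset.sum_comm]

/-- the two orders of the outer wall -/
theorem swg (D : Net R B A I J N) {F : A → A → R} (hG : Bil R F) :
    ∑ r, ∑ i, ∑ l, F (D.u' i * D.x r * D.u l) (D.u' l * D.y r * D.u i) =
      ∑ r, ∑ i, ∑ l, F (D.u' i * D.y r * D.u l) (D.u' l * D.x r * D.u i) := by
  rw [Finset.sum_congr rfl fun r _ => sw D hG (D.x r) (D.y r),
    Finset.sum_congr rfl fun r _ => sw D hG (D.y r) (D.x r), cp D hG, cpop D hG]

/-- GAU -/
theorem gau : GauStmt := by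
  intro R B A I J N _ _ _ _ _ _ _ _ D de hl hr h1
  rw [n4a D D.x D.y de hl hr h1, n4a D D.y D.x de hl hr h1]
  have hG : Bil R (fun a a' : A => ∑ s, ∑ k, D.T (a * D.x s * D.u k * a' * D.u' k *
      de (D.y s))) :=
    { a1 := fun a a' b => by
        simp only [add_mul, Net.T, map_add, Finset.sum_add_distrib]
      a2 := fun a b b' => by
        simp only [mul_add, add_mul, Net.T, map_add, Finset.sum_add_distrib]
      s1 := fun t a b => by
        simp only [Net.T, smul_mul_assoc, map_smul, Finset.smul_sum]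
      s2 := fun t a b => by
        simp only [Net.T, mul_smul_comm, smul_mul_assoc, map_smul, Finset.smul_sum] }
  exact swg D hG

end

end Pool.Agent.PFD.H99
end
end -- Pool.Agent.Helper99_PFD.GAU
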