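import Pool.Agent.Helper12_AWB.B015
import Pool.Agent.Helper12_AWB.B041

/-!
# Merged copies (generated) of the modules

* `Pool.Agent.Helper10_PFD.TRC`
* `Pool.Agent.Helper13_PFD.TZB`
* `Pool.Agent.Helper19_PFD.GB3`
* `Pool.Agent.Helper24_PFD.NTX`
* `Pool.Agent.Helper25_PFD.KAP`
* `Pool.Agent.Helper41_PFD.ROT`
* `Pool.Agent.Helper41_PFD.TRF`
* `Pool.Agent.Helper41_PFD.W13`
* `Pool.Agent.Helper48_PFD.RES`
* `Pool.Agent.Helper64_PFD.SUM`
* `Pool.Agent.Helper81_PFD.FOT`
* `Pool.Agent.Helper82_PFD.RO6`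
* `Pool.Agent.Helper84_PFD.GB1`
* `Pool.Agent.Helper91_PFD.NID`
* `Pool.Agent.Helper91_PFD.RTU`
* `Pool.Agent.Helper91_PFD.RTX`
* `Pool.Agent.Helper94_PFD.ADJ`
* `Pool.Agent.PFD.D1.Final`
-/

set_option autoImplicit false

section -- Pool.Agent.Helper10_PFD.TRC

/-!
# TRC (squad PFD, block D1): the trace of the multiplication with the relative trace of `z`
-/

open scoped BigOperators

noncomputable section

namespace Pool.Agent.PFD.H10

open Pool.Agent.PFC.B1

section moves

variable {R B I X : Type} [CommRing R] [Ring B] [Algebra R B] [Fintype I] [AddCommGroup X]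
  [Module R X]

theorem bil_zero1 {F : B → B → X} (hF : Bil R F) (b : B) : F 0 b = 0 := by
  have := hF.s1 0 0 b
  simpa using this

theorem bil_zero2 {F : B → B → X} (hF : Bil R F) (a : B) : F a 0 = 0 := by
  have := hF.s2 0 a 0
  simpa using this

theorem bil_sum1 {F : B → B → X} (hF : Bil R F) {κ : Type} (s : Finset κ) (r : κ → R)
    (a : κ → B) (b : B) : F (∑ k ∈ s, r k • a k) b = ∑ k ∈ s, r k • F (a k) b := by
  classical
  induction s using Finset.induction_on with
  | empty => simp [bil_zero1 hF]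
  | insert k s hk ih => rw [Finset.sum_insert hk, Finset.sum_insert hk, hF.a1, hF.s1, ih]

theorem bil_sum2 {F : B → B → X} (hF : Bil R F) {κ : Type} (s : Finset κ) (r : κ → R)
    (b : κ → B) (a : B) : F a (∑ k ∈ s, r k • b k) = ∑ k ∈ s, r k • F a (b k) := by
  classical
  induction s using Finset.induction_on with
  | empty => simp [bil_zero2 hF]
  | insert k s hk ih => rw [Finset.sum_insert hk, Finset.sum_insert hk, hF.a2, hF.s2, ih]

/-- M1 -/
theorem mv1 (c : FS R B I) {F : B → B → X} (hF : Bil R F) (x : B) :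
    ∑ i, F (x * c.b i) (c.b' i) = ∑ i, F (c.b i) (c.b' i * x) := by
  have h1 : ∀ i, F (x * c.b i) (c.b' i) = ∑ k, c.lam (c.b' k * (x * c.b i)) •
      F (c.b k) (c.b' i) := by
    intro i
    conv_lhs => rw [← c.h1 (x * c.b i)]
    rw [bil_sum1 hF]
  have h2 : ∀ k, F (c.b k) (c.b' k * x) = ∑ i, c.lam (c.b' k * (x * c.b i)) •
      F (c.b k) (c.b' i) := by
    intro k
    conv_lhs => rw [← c.h2 (c.b' k * x)]
    rw [bil_sum2 hF]
    simp only [mul_assoc]
  rw [Finset.sum_congr rfl fun i _ => h1 i, Finset.sum_congr rfl fun k _ => h2 k,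
    Finset.sum_comm]

/-- M2 -/
theorem mv2 (c : FS R B I) (cs : ∀ x y, c.lam (x * y) = c.lam (y * x)) {F : B → B → X}
    (hF : Bil R F) (x : B) :
    ∑ i, F (c.b i * x) (c.b' i) = ∑ i, F (c.b i) (x * c.b' i) := by
  have h1 : ∀ i, F (c.b i * x) (c.b' i) = ∑ k, c.lam (c.b' k * (c.b i * x)) •
      F (c.b k) (c.b' i) := by
    intro i
    conv_lhs => rw [← c.h1 (c.b i * x)]
    rw [bil_sum1 hF]
  have h2 : ∀ k, F (c.b k) (x * c.b' k) = ∑ i, c.lam (c.b' k * (c.b i * x)) •
      F (c.b k) (c.b' i) := by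
    intro k
    conv_lhs => rw [← c.h2 (x * c.b' k)]
    rw [bil_sum2 hF]
    refine Finset.sum_congr rfl fun i _ => ?_
    rw [mul_assoc x, cs x, mul_assoc]
  rw [Finset.sum_congr rfl fun i _ => h1 i, Finset.sum_congr rfl fun k _ => h2 k,
    Finset.sum_comm]

/-- M3 -/
theorem mv3 (c : FS R B I) (cs : ∀ x y, c.lam (x * y) = c.lam (y * x)) {F : B → B → X}
    (hF : Bil R F) :
    ∑ i, F (c.b i) (c.b' i) = ∑ i, F (c.b' i) (c.b i) := by
  have h1 : ∀ i, F (c.b i) (c.b' i) = ∑ k, c.lam (c.b i * c.b k) • F (c.b' k) (c.b' i) := by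
    intro i
    conv_lhs => rw [← c.h2 (c.b i)]
    rw [bil_sum1 hF]
  have h2 : ∀ k, F (c.b' k) (c.b k) = ∑ i, c.lam (c.b i * c.b k) • F (c.b' k) (c.b' i) := by
    intro k
    conv_lhs => rw [← c.h2 (c.b k)]
    rw [bil_sum2 hF]
    refine Finset.sum_congr rfl fun i _ => ?_
    rw [cs]
  rw [Finset.sum_congr rfl fun i _ => h1 i, Finset.sum_congr rfl fun k _ => h2 k,
    Finset.sum_comm]

end moves

section net

variable {R B A I J N : Type} [CommRing R] [Ring B] [Algebra R B] [Ring A] [Algebra R A]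
    [Fintype I] [Fintype J] [Fintype N] (D : Net R B A I J N)

/-- the bilinear function `T(a j(p) a' j(q) a'')` -/
theorem bil_T (a a' a'' : A) :
    Bil R (fun p q : B => D.T (a * D.j p * a' * D.j q * a'')) where
  a1 p p' q := by simp [Net.T, mul_add, add_mul]
  a2 p q q' := by simp [Net.T, mul_add, add_mul]
  s1 r p q := by simp [Net.T]
  s2 r p q := by simp [Net.T]

/-- the centraliser of `B` -/
def CB : Submodule R A where
  carrier := {a | ∀ b, D.j b * a = a * D.j b}
  zero_mem' := fun b => by simp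
  add_mem' := fun {a a'} h h' b => by rw [mul_add, add_mul, h, h']
  smul_mem' := fun r a h b => by rw [mul_smul_comm, smul_mul_assoc, h]

/-- the relative trace as a linear map -/
def rxL : A →ₗ[R] A where
  toFun := D.rx
  map_add' a a' := by
    simp only [Net.rx, mul_add, add_mul, Finset.sum_add_distrib]
    abel
  map_smul' r a := by
    simp only [Net.rx, mul_smul_comm, smul_mul_assoc, ← Finset.smul_sum, RingHom.id_apply,
      smul_add]

theorem rxL_apply (a : A) : rxL D a = D.rx a := rfl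

theorem rx_eq (a : A) : D.rx a = a + ∑ r, ∑ i, D.u i * D.x r * a * (D.y r * D.u' i) := rfl

/-- the projection to the complement -/
def qL : A →ₗ[R] A := LinearMap.id - D.j.toLinearMap ∘ₗ D.pr

theorem qL_apply (a : A) : qL D a = a - D.j (D.pr a) := rfl

theorem pr_q (a : A) : D.pr (qL D a) = 0 := by rw [qL_apply, map_sub, D.pr_j, sub_self]

theorem q_mem {a : A} (h : ∀ b, D.j b * a = a * D.j b) : qL D a ∈ D.PB := by
  refine ⟨pr_q D a, fun b => ?_⟩
  have h1 : b * D.pr a = D.pr a * b := by rw [← D.pr_l, ← D.pr_r, h]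
  rw [qL_apply, mul_sub, sub_mul, h, ← map_mul, ← map_mul, h1]

theorem T_comm (a b : A) : D.T (a * b) = D.T (b * a) := D.ds a b

theorem T_j_mul_y (b : B) (r : N) : D.T (D.j b * D.y r) = 0 := by
  have : D.T (D.j b * D.y r) = D.c.lam (D.pr (D.j b * D.y r)) := D.ort _
  rw [this, D.pr_l, D.py, mul_zero, map_zero]

/-- the function `T(x_r p y_r q)` -/
def FT (r : N) (p q : B) : R := D.T (D.x r * D.j p * D.y r * D.j q * 1)

theorem bil_FT (r : N) : Bil R (FT D r) := bil_T D (D.x r) (D.y r) 1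

theorem E_eq (z : B) :
    D.E z = ∑ r, ∑ i, ∑ k, FT D r (z * (D.c.b' i * D.c.b' k)) (D.c.b i * D.c.b k) := by
  unfold Net.E FT
  refine Finset.sum_congr rfl fun r _ => Finset.sum_congr rfl fun i _ =>
    Finset.sum_congr rfl fun k _ => ?_
  have h : D.u' k * D.y r * D.u i * D.u k * D.x r * D.j z * D.u' i =
      (D.u' k * D.y r * D.u i * D.u k) * (D.x r * D.j z * D.u' i) := by
    simp only [mul_assoc]
  rw [h, T_comm]
  simp only [Net.u, Net.u', map_mul, mul_assoc, mul_one]

theorem kap_form (hK : KapStmt) {F : B → B → R} (hF : Bil R F) (z : B)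
    (hz : ∀ a, z * a = a * z) :
    ∑ i, ∑ k, F (D.c.b i * D.c.b k) (z * (D.c.b' i * D.c.b' k)) =
      ∑ i, ∑ k, F (z * (D.c.b' i * D.c.b' k)) (D.c.b i * D.c.b k) := by
  have hF2 : Bil R (fun p q : B => F p (z * q)) :=
    { a1 := fun p p' q => hF.a1 _ _ _
      a2 := fun p q q' => by rw [mul_add]; exact hF.a2 _ _ _
      s1 := fun r p q => hF.s1 _ _ _
      s2 := fun r p q => by rw [mul_smul_comm]; exact hF.s2 _ _ _ }
  have h1 := (hK R B A I J N R D (fun p q : B => F p (z * q)) hF2).1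
  have h4 := (hK R B A I J N R D F hF).2.2.2.1 z hz
  rw [h4]
  exact h1.symm

/-- the first sum -/
theorem sum1 (hK : KapStmt) (z : B) (hz : ∀ a, z * a = a * z) :
    ∑ r, ∑ l, ∑ i, FT D r (D.c.b l) (D.c.b' i * D.c.b' l * (z * D.c.b i)) = D.E z := by
  rw [E_eq]
  refine Finset.sum_congr rfl fun r _ => ?_
  have hF := bil_FT D r
  rw [← kap_form D hK hF z hz, Finset.sum_comm]
  have h1 : ∀ i, ∑ l, FT D r (D.c.b l) (D.c.b' i * D.c.b' l * (z * D.c.b i)) =
      ∑ l, FT D r (D.c.b l * D.c.b' i) (D.c.b' l * (z * D.c.b i)) := by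
    intro i
    have hG : Bil R (fun p q : B => FT D r p (q * (z * D.c.b i))) :=
      { a1 := fun p p' q => hF.a1 _ _ _
        a2 := fun p q q' => by rw [add_mul]; exact hF.a2 _ _ _
        s1 := fun r p q => hF.s1 _ _ _
        s2 := fun r p q => by rw [smul_mul_assoc]; exact hF.s2 _ _ _ }
    exact (mv2 D.c D.cs hG (D.c.b' i)).symm
  rw [Finset.sum_congr rfl fun i _ => h1 i, Finset.sum_comm]
  refine Finset.sum_congr rfl fun l _ => ?_
  have hG : Bil R (fun p q : B => FT D r (D.c.b l * p) (D.c.b' l * (z * q))) :=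
    { a1 := fun p p' q => by rw [mul_add]; exact hF.a1 _ _ _
      a2 := fun p q q' => by rw [mul_add, mul_add]; exact hF.a2 _ _ _
      s1 := fun r p q => by rw [mul_smul_comm]; exact hF.s1 _ _ _
      s2 := fun r p q => by rw [mul_smul_comm, mul_smul_comm]; exact hF.s2 _ _ _ }
  have h2 := mv3 D.c D.cs hG
  refine h2.symm.trans (Finset.sum_congr rfl fun i _ => ?_)
  show FT D r (D.c.b l * D.c.b i) (D.c.b' l * (z * D.c.b' i)) = _
  rw [← mul_assoc (D.c.b' l), ← hz (D.c.b' l), mul_assoc]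

/-- the second sum -/
theorem sum2 (hK : KapStmt) (z : B) (hz : ∀ a, z * a = a * z) :
    ∑ r, ∑ i, ∑ l, FT D r (D.c.b' l * D.c.b' i * D.c.b l) (z * D.c.b i) = D.E z := by
  rw [E_eq]
  refine Finset.sum_congr rfl fun r _ => ?_
  have hF := bil_FT D r
  rw [← kap_form D hK hF z hz, Finset.sum_comm]
  have h1 : ∀ l, ∑ i, FT D r (D.c.b' l * D.c.b' i * D.c.b l) (z * D.c.b i) =
      ∑ i, FT D r (D.c.b i * D.c.b l) (z * (D.c.b' i * D.c.b' l)) := by
    intro l
    have hG : Bil R (fun p q : B => FT D r (p * D.c.b l) (z * q)) :=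
      { a1 := fun p p' q => by rw [add_mul]; exact hF.a1 _ _ _
        a2 := fun p q q' => by rw [mul_add]; exact hF.a2 _ _ _
        s1 := fun r p q => by rw [smul_mul_assoc]; exact hF.s1 _ _ _
        s2 := fun r p q => by rw [mul_smul_comm]; exact hF.s2 _ _ _ }
    have hG' : Bil R (fun p q : B => FT D r (D.c.b' l * p * D.c.b l) (z * q)) :=
      { a1 := fun p p' q => by rw [mul_add, add_mul]; exact hF.a1 _ _ _
        a2 := fun p q q' => by rw [mul_add]; exact hF.a2 _ _ _
        s1 := fun r p q => by rw [mul_smul_comm, smul_mul_assoc]; exact hF.s1 _ _ _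
        s2 := fun r p q => by rw [mul_smul_comm]; exact hF.s2 _ _ _ }
    exact (mv3 D.c D.cs hG').symm.trans (mv1 D.c hG (D.c.b' l))
  rw [Finset.sum_congr rfl fun l _ => h1 l, Finset.sum_comm]

end net

section tr

variable {K B A I J N : Type} [Field K] [Ring B] [Algebra K B] [Module.Finite K B] [Ring A]
    [Algebra K A] [Module.Finite K A] [Fintype I] [Fintype J] [Fintype N] (D : Net K B A I J N)

/-- `b ↦ ∑ pr(x_r b y_r)` -/
def psL : B →ₗ[K] B :=
  ∑ r, D.pr ∘ₗ LinearMap.mulRight K (D.y r) ∘ₗ LinearMap.mulLeft K (D.x r) ∘ₗ D.j.toLinearMap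

omit [Module.Finite K B] [Module.Finite K A] in
theorem psL_apply (b : B) : psL D b = ∑ r, D.pr (D.x r * D.j b * D.y r) := by
  simp [psL, LinearMap.sum_apply]

omit [Module.Finite K B] [Module.Finite K A] in
theorem pr_rx (b : B) : D.pr (D.rx (D.j b)) = b + ∑ i, D.c.b i * psL D b * D.c.b' i := by
  rw [rx_eq, map_add, D.pr_j, map_sum]
  congr 1
  simp only [map_sum, psL_apply, Finset.mul_sum, Finset.sum_mul]
  rw [Finset.sum_comm]
  refine Finset.sum_congr rfl fun i _ => Finset.sum_congr rfl fun r _ => ?_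
  have h : D.u i * D.x r * D.j b * (D.y r * D.u' i) =
      D.j (D.c.b i) * (D.x r * D.j b * D.y r) * D.j (D.c.b' i) := by
    simp only [Net.u, Net.u', mul_assoc]
  rw [h, D.pr_r, D.pr_l]

omit [Module.Finite K B] [Module.Finite K A] in
theorem tzb_sum (hK : KapStmt) (z : B) (hz : ∀ a, z * a = a * z) :
    ∑ l, ∑ i, D.c.lam (D.c.b' l * (z * (D.c.b i * psL D (D.c.b l) * D.c.b' i))) = D.E z := by
  rw [← sum1 D hK z hz]
  have h : ∀ l i, D.c.lam (D.c.b' l * (z * (D.c.b i * psL D (D.c.b l) * D.c.b' i))) =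
      ∑ r, FT D r (D.c.b l) (D.c.b' i * D.c.b' l * (z * D.c.b i)) := by
    intro l i
    simp only [psL_apply, Finset.mul_sum, Finset.sum_mul, map_sum]
    refine Finset.sum_congr rfl fun r _ => ?_
    have h1 : D.c.lam (D.c.b' l * (z * (D.c.b i * D.pr (D.x r * D.j (D.c.b l) * D.y r) *
        D.c.b' i))) = D.T (D.j (D.c.b' l * (z * D.c.b i)) * (D.x r * D.j (D.c.b l) * D.y r) *
          D.j (D.c.b' i)) := by
      have h2 : D.T (D.j (D.c.b' l * (z * D.c.b i)) * (D.x r * D.j (D.c.b l) * D.y r) *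
          D.j (D.c.b' i)) = D.c.lam (D.pr (D.j (D.c.b' l * (z * D.c.b i)) *
            (D.x r * D.j (D.c.b l) * D.y r) * D.j (D.c.b' i))) := D.ort _
      rw [h2, D.pr_r, D.pr_l]
      simp only [mul_assoc]
    rw [h1, mul_assoc (D.j (D.c.b' l * (z * D.c.b i))), T_comm]
    unfold FT
    simp only [map_mul, mul_assoc, mul_one]
  rw [Finset.sum_congr rfl fun l _ => Finset.sum_congr rfl fun i _ => h l i]
  rw [Finset.sum_congr rfl fun l _ => Finset.sum_comm, Finset.sum_comm]

/-- `a ↦ ∑ b_i x_r a y_r b_i'` -/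
def sL : A →ₗ[K] A := rxL D - LinearMap.id

omit [Module.Finite K B] [Module.Finite K A] in
theorem sL_apply (a : A) : sL D a = ∑ r, ∑ i, D.u i * D.x r * a * (D.y r * D.u' i) := by
  simp [sL, rxL_apply, rx_eq]

/-- the map of the complement -/
def gL (z : B) : A →ₗ[K] A :=
  LinearMap.mulLeft K (D.j z) ∘ₗ qL D + qL D ∘ₗ LinearMap.mulLeft K (D.j z) ∘ₗ sL D

omit [Module.Finite K B] [Module.Finite K A] in
theorem gL_apply (z : B) (a : A) :
    gL D z a = D.j z * qL D a + qL D (D.j z * sL D a) := rfl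

omit [Module.Finite K B] [Module.Finite K A] in
theorem T_q (c : A) (b : B) (r : N) :
    D.T (qL D c * D.j b * D.y r) = D.T (c * D.j b * D.y r) := by
  rw [qL_apply, sub_mul, sub_mul, ← map_mul]
  have h : D.T (c * D.j b * D.y r - D.j (D.pr c * b) * D.y r) =
      D.T (c * D.j b * D.y r) - D.T (D.j (D.pr c * b) * D.y r) := map_sub D.d.lam _ _
  rw [h, T_j_mul_y, sub_zero]

omit [Module.Finite K B] [Module.Finite K A] in
theorem T_zq (z : B) (c : A) (b : B) (r : N) :
    D.T (D.j z * qL D c * D.j b * D.y r) = D.T (D.j z * c * D.j b * D.y r) := by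
  rw [qL_apply, mul_sub, sub_mul, sub_mul, ← map_mul, ← map_mul]
  have h : D.T (D.j z * c * D.j b * D.y r - D.j (z * D.pr c * b) * D.y r) =
      D.T (D.j z * c * D.j b * D.y r) - D.T (D.j (z * D.pr c * b) * D.y r) :=
    map_sub D.d.lam _ _
  rw [h, T_j_mul_y, sub_zero]

omit [Module.Finite K B] [Module.Finite K A] in
theorem tpb_sum (hK : KapStmt) (hD : DppStmt) (z : B) (hz : ∀ a, z * a = a * z) :
    ∑ r, ∑ i, ∑ l, D.T (gL D z (D.u i * D.x r * D.u' l * D.u' i) * D.u l * D.y r) =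
      D.E z + D.H4 D.x D.y D.x D.y (Lz K z) (I1 K B) (I1 K B) (I1 K B) := by
  have h0 : ∀ r i l, D.T (gL D z (D.u i * D.x r * D.u' l * D.u' i) * D.u l * D.y r) =
      FT D r (D.c.b' l * D.c.b' i * D.c.b l) (z * D.c.b i) +
      ∑ s, ∑ k, D.T (D.j z * (D.u k * D.x s * (D.u i * D.x r * D.u' l * D.u' i) *
        D.y s * D.u' k) * D.u l * D.y r) := by
    intro r i l
    set a := D.u i * D.x r * D.u' l * D.u' i with ha
    have h1 : D.T (gL D z a * D.u l * D.y r) = D.T (D.j z * qL D a * D.j (D.c.b l) * D.y r) +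
        D.T (qL D (D.j z * sL D a) * D.j (D.c.b l) * D.y r) := by
      rw [gL_apply, add_mul, add_mul]
      exact map_add D.d.lam _ _
    rw [h1, T_zq D z, T_q]
    congr 1
    · rw [ha]
      have h2 : D.j z * (D.u i * D.x r * D.u' l * D.u' i) * D.j (D.c.b l) * D.y r =
          (D.j z * D.u i) * (D.x r * D.u' l * D.u' i * D.j (D.c.b l) * D.y r) := by
        simp only [mul_assoc]
      rw [h2, T_comm]
      unfold FT
      simp only [Net.u, Net.u', map_mul, mul_assoc, mul_one]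
    · have h3 : D.j z * sL D a * D.j (D.c.b l) * D.y r = ∑ s, ∑ k, D.j z * (D.u k * D.x s * a *
          D.y s * D.u' k) * D.u l * D.y r := by
        rw [sL_apply]
        simp only [Finset.mul_sum, Finset.sum_mul, Net.u, Net.u', mul_assoc]
      rw [h3]
      have h4 : D.T (∑ s, ∑ k, D.j z * (D.u k * D.x s * a * D.y s * D.u' k) * D.u l * D.y r) =
          ∑ s, ∑ k, D.T (D.j z * (D.u k * D.x s * a * D.y s * D.u' k) * D.u l * D.y r) := by
        unfold Net.T
        rw [map_sum]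
        exact Finset.sum_congr rfl fun s _ => map_sum _ _ _
      exact h4
  rw [Finset.sum_congr rfl fun r _ => Finset.sum_congr rfl fun i _ =>
    Finset.sum_congr rfl fun l _ => h0 r i l]
  simp only [Finset.sum_add_distrib]
  rw [sum2 D hK z hz, ← hD K B A I J N D z hz]
  congr 1
  have e1 : ∀ r, ∑ i, ∑ l, ∑ s, ∑ k, D.T (D.j z * (D.u k * D.x s *
      (D.u i * D.x r * D.u' l * D.u' i) * D.y s * D.u' k) * D.u l * D.y r) =
      ∑ s, ∑ k, ∑ i, ∑ l, D.T (D.j z * (D.u k * D.x s *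
      (D.u i * D.x r * D.u' l * D.u' i) * D.y s * D.u' k) * D.u l * D.y r) := by
    intro r
    have e2 : ∀ i, ∑ l, ∑ s, ∑ k, D.T (D.j z * (D.u k * D.x s *
      (D.u i * D.x r * D.u' l * D.u' i) * D.y s * D.u' k) * D.u l * D.y r) =
      ∑ s, ∑ k, ∑ l, D.T (D.j z * (D.u k * D.x s *
      (D.u i * D.x r * D.u' l * D.u' i) * D.y s * D.u' k) * D.u l * D.y r) := by
      intro i
      rw [Finset.sum_comm]
      exact Finset.sum_congr rfl fun s _ => Finset.sum_comm
    rw [Finset.sum_congr rfl fun i _ => e2 i, Finset.sum_comm]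
    exact Finset.sum_congr rfl fun s _ => Finset.sum_comm
  rw [Finset.sum_congr rfl fun r _ => e1 r, Finset.sum_comm]
  exact Finset.sum_congr rfl fun s _ => Finset.sum_comm

end tr

theorem trc (hX : RtxStmt) (hU : RtuStmt) (hZ : TzbStmt) (hP : TpbStmt) (hD : DppStmt)
    (hK : KapStmt) : TrcStmt := by
  intro K B A I J N _ _ _ _ _ _ _ _ _ _ D z f g hz hf hg
  obtain ⟨s, hs⟩ := hX K B A I J N D
  have hrt : ∀ a, (∀ b, D.j b * a = a * D.j b) →
      (∀ c, c * D.rx a = D.rx a * c) ∧ ∀ w : A, (∀ c, w * c = c * w) →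
        D.rx (w * a) = w * D.rx a := by
    intro a ha
    have h := hU K B A _ _ D.j D.pr s s a ha
    refine ⟨fun c => ?_, fun w hw => ?_⟩
    · rw [← hs]
      exact h.2.1 c
    · rw [← hs, ← hs]
      exact h.2.2 w hw
  have hzj : ∀ b, D.j b * D.j z = D.j z * D.j b := fun b => by
    rw [← map_mul, ← map_mul, hz]
  have hcen : ∀ (w : Subalgebra.center K A) (a : A), (w : A) * a = a * w := fun w a =>
    ((Subalgebra.mem_center_iff.1 w.2) a).symm
  have hcenB : ∀ (w : Subalgebra.center K B) (b : B), (w : B) * b = b * w := fun w b =>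
    ((Subalgebra.mem_center_iff.1 w.2) b).symm
  -- the maps
  let al : Subalgebra.center K A →ₗ[K] CB D :=
    { toFun := fun w => ⟨D.j z * w, fun b => by
        rw [← mul_assoc, hzj, mul_assoc, mul_assoc, hcen w (D.j b)]⟩
      map_add' := fun w w' => Subtype.ext (mul_add _ _ _)
      map_smul' := fun r w => Subtype.ext (mul_smul_comm _ _ _) }
  let be : CB D →ₗ[K] Subalgebra.center K A :=
    { toFun := fun c => ⟨D.rx c, Subalgebra.mem_center_iff.2 fun a => (hrt c c.2).1 a⟩
      map_add' := fun c c' => Subtype.ext ((rxL D).map_add _ _)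
      map_smul' := fun r c => Subtype.ext ((rxL D).map_smul _ _) }
  have hfab : f = be ∘ₗ al := by
    apply LinearMap.ext
    intro w
    apply Subtype.ext
    show (f w : A) = D.rx (D.j z * w)
    rw [hf, ← hcen w (D.j z), (hrt (D.j z) hzj).2 w (fun c => hcen w c), hcen]
  have htr1 : LinearMap.trace K _ f = LinearMap.trace K (CB D) (al ∘ₗ be) := by
    rw [hfab, LinearMap.trace_comp_comm']
  let i1 : Subalgebra.center K B →ₗ[K] CB D :=
    { toFun := fun w => ⟨D.j w, fun b => by rw [← map_mul, ← map_mul, hcenB]⟩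
      map_add' := fun w w' => Subtype.ext (map_add _ _ _)
      map_smul' := fun r w => Subtype.ext (map_smul _ _ _) }
  let p1 : CB D →ₗ[K] Subalgebra.center K B :=
    { toFun := fun c => ⟨D.pr c, Subalgebra.mem_center_iff.2 fun b => by
        rw [← D.pr_l, ← D.pr_r, c.2 b]⟩
      map_add' := fun w w' => Subtype.ext (map_add _ _ _)
      map_smul' := fun r w => Subtype.ext (map_smul _ _ _) }
  let i2 : D.PB →ₗ[K] CB D :=
    { toFun := fun p => ⟨p, p.2.2⟩
      map_add' := fun w w' => rfl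
      map_smul' := fun r w => rfl }
  let p2 : CB D →ₗ[K] D.PB :=
    { toFun := fun c => ⟨qL D c, q_mem D c.2⟩
      map_add' := fun w w' => Subtype.ext ((qL D).map_add _ _)
      map_smul' := fun r w => Subtype.ext ((qL D).map_smul _ _) }
  have hid : i1 ∘ₗ p1 + i2 ∘ₗ p2 = LinearMap.id := by
    apply LinearMap.ext
    intro c
    apply Subtype.ext
    show D.j (D.pr c) + qL D c = c
    rw [qL_apply]
    abel
  set H := al ∘ₗ be with hH
  have hHap : ∀ c, (H c : A) = D.j z * D.rx c := fun c => rfl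
  have htr2 : LinearMap.trace K (CB D) H =
      LinearMap.trace K _ (p1 ∘ₗ H ∘ₗ i1) + LinearMap.trace K _ (p2 ∘ₗ H ∘ₗ i2) := by
    have h1 : H = (H ∘ₗ i1) ∘ₗ p1 + (H ∘ₗ i2) ∘ₗ p2 := by
      calc H = H ∘ₗ LinearMap.id := (LinearMap.comp_id H).symm
        _ = H ∘ₗ (i1 ∘ₗ p1 + i2 ∘ₗ p2) := by rw [hid]
        _ = H ∘ₗ (i1 ∘ₗ p1) + H ∘ₗ (i2 ∘ₗ p2) := LinearMap.comp_add _ _ _
        _ = (H ∘ₗ i1) ∘ₗ p1 + (H ∘ₗ i2) ∘ₗ p2 := rfl
    conv_lhs => rw [h1]
    rw [map_add, LinearMap.trace_comp_comm' p1 (H ∘ₗ i1),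
      LinearMap.trace_comp_comm' p2 (H ∘ₗ i2)]
  -- the part of `B`
  have htr3 : LinearMap.trace K _ (p1 ∘ₗ H ∘ₗ i1) = LinearMap.trace K _ g + D.E z := by
    have h1 : p1 ∘ₗ H ∘ₗ i1 = g + (p1 ∘ₗ H ∘ₗ i1 - g) := by abel
    rw [h1, map_add]
    congr 1
    rw [hZ K B A I J N D z (psL D) (p1 ∘ₗ H ∘ₗ i1 - g) hz ?_, tzb_sum D hK z hz]
    intro w
    have h2 : (((p1 ∘ₗ H ∘ₗ i1 - g) w : Subalgebra.center K B) : B) =
        D.pr (D.j z * D.rx (D.j w)) - (g w : B) := rfl
    rw [h2, D.pr_l, pr_rx, hg, mul_add, add_sub_cancel_left]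
  -- the part of the complement
  have htr4 : LinearMap.trace K _ (p2 ∘ₗ H ∘ₗ i2) =
      D.E z + D.H4 D.x D.y D.x D.y (Lz K z) (I1 K B) (I1 K B) (I1 K B) := by
    rw [hP K B A I J N D (gL D z) (p2 ∘ₗ H ∘ₗ i2) ?_ ?_, tpb_sum D hK hD z hz]
    · intro a ha
      have hs : ∀ b, D.j b * sL D a = sL D a * D.j b := by
        intro b
        have h1 : sL D a = D.rx a - a := rfl
        rw [h1, mul_sub, sub_mul, ha b, (hrt a ha).1 (D.j b)]
      rw [gL_apply]
      refine Submodule.add_mem _ ?_ (q_mem D fun b => ?_)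
      · have h1 := q_mem D ha
        refine ⟨?_, fun b => ?_⟩
        · rw [D.pr_l, h1.1, mul_zero]
        · rw [← mul_assoc, hzj, mul_assoc, h1.2 b, mul_assoc]
      · rw [← mul_assoc, hzj, mul_assoc, hs b, mul_assoc]
    · intro p
      have h1 : ((p2 ∘ₗ H ∘ₗ i2) p : A) = qL D (D.j z * D.rx p) := rfl
      have h2 : D.rx (p : A) = p + sL D p := by
        show D.rx (p : A) = p + (D.rx (p : A) - p)
        abel
      have h3 : qL D (p : A) = p := by rw [qL_apply, p.2.1, map_zero, sub_zero]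
      have h4 : qL D (D.j z * (p : A)) = D.j z * p := by
        rw [qL_apply, D.pr_l, p.2.1, mul_zero, map_zero, sub_zero]
      rw [h1, h2, mul_add, map_add, h4, gL_apply, h3]
  rw [htr1, htr2, htr3, htr4]
  ring

end Pool.Agent.PFD.H10
end
end -- Pool.Agent.Helper10_PFD.TRC

section -- Pool.Agent.Helper13_PFD.TZB

/-! Squad PFD, row TZB (helper13): a trace on the centre of `B`. -/

noncomputable section

namespace Pool.Agent.PFD.H13

open Pool.Agent.PFC.B1 Pool.Agent.PFD

theorem tzb (htrf : TrfStmt) : TzbStmt := by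
  classical
  intro K B A I J N _ _ _ _ _ _ _ _ _ D z ps h hz hh
  have hbil : ∀ b : B, Bil K (fun u v : B => u * b * v) := fun b =>
    ⟨fun a a' c => by rw [add_mul, add_mul], fun a c c' => by rw [mul_add],
      fun r a c => by rw [smul_mul_assoc, smul_mul_assoc], fun r a c => by rw [mul_smul_comm]⟩
  have hcen : ∀ b : B, z * ∑ i, D.c.b i * b * D.c.b' i ∈ Subalgebra.center K B := by
    intro b
    rw [Subalgebra.mem_center_iff]
    intro a
    have h1 : ∑ i, a * D.c.b i * b * D.c.b' i = ∑ i, D.c.b i * b * (D.c.b' i * a) :=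
      D.m1 (hbil b) a
    calc a * (z * ∑ i, D.c.b i * b * D.c.b' i)
        = z * ∑ i, a * D.c.b i * b * D.c.b' i := by
          rw [← mul_assoc, ← hz a, mul_assoc, Finset.mul_sum]
          congr 1
          exact Finset.sum_congr rfl fun i _ => by rw [mul_assoc, mul_assoc, mul_assoc]
      _ = z * (∑ i, D.c.b i * b * D.c.b' i) * a := by
          rw [h1, mul_assoc, Finset.sum_mul]
          congr 1
          exact Finset.sum_congr rfl fun i _ => by rw [mul_assoc (D.c.b i * b)]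
  let g : B →ₗ[K] Subalgebra.center K B :=
    { toFun := fun b => ⟨z * ∑ i, D.c.b i * b * D.c.b' i, hcen b⟩
      map_add' := by
        intro b b'
        refine Subtype.ext ?_
        show z * ∑ i, D.c.b i * (b + b') * D.c.b' i =
          z * (∑ i, D.c.b i * b * D.c.b' i) + z * (∑ i, D.c.b i * b' * D.c.b' i)
        rw [← mul_add, ← Finset.sum_add_distrib]
        congr 1
        exact Finset.sum_congr rfl fun i _ => by rw [mul_add, add_mul]
      map_smul' := by
        intro r b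
        refine Subtype.ext ?_
        show z * ∑ i, D.c.b i * (r • b) * D.c.b' i = r • (z * ∑ i, D.c.b i * b * D.c.b' i)
        rw [← mul_smul_comm, Finset.smul_sum]
        congr 1
        exact Finset.sum_congr rfl fun i _ => by rw [mul_smul_comm, smul_mul_assoc] }
  let inc : Subalgebra.center K B →ₗ[K] B := (Subalgebra.center K B).val.toLinearMap
  have h1 : h = (g ∘ₗ ps) ∘ₗ inc := by
    refine LinearMap.ext fun w => Subtype.ext ?_
    exact hh w
  haveI : Module.Finite K (Subalgebra.center K B) :=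
    inferInstanceAs (Module.Finite K (Subalgebra.toSubmodule (Subalgebra.center K B)))
  rw [h1, LinearMap.trace_comp_comm', htrf K B I D.c]
  refine Finset.sum_congr rfl fun l _ => ?_
  show D.c.lam (D.c.b' l * (z * ∑ i, D.c.b i * ps (D.c.b l) * D.c.b' i)) = _
  rw [Finset.mul_sum, Finset.mul_sum, map_sum]

end Pool.Agent.PFD.H13
end
end -- Pool.Agent.Helper13_PFD.TZB

section -- Pool.Agent.Helper19_PFD.GB3

/-!
# Squad PFD, row GB3: the `B`-part, rotated by two
-/

open scoped BigOperators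

noncomputable section

namespace Pool.Agent.PFD.H19

open Pool.Agent.PFC.B1 Pool.Agent.PFD

theorem swap4 {X I : Type} [AddCommMonoid X] [Fintype I] (f : I → I → I → I → X) :
    ∑ i1, ∑ i2, ∑ i3, ∑ i4, f i1 i2 i3 i4 = ∑ i3, ∑ i4, ∑ i1, ∑ i2, f i1 i2 i3 i4 := by
  have h1 : ∑ i1, ∑ i2, ∑ i3, ∑ i4, f i1 i2 i3 i4 =
      ∑ p : I × I, ∑ q : I × I, f p.1 p.2 q.1 q.2 := by
    simp only [Fintype.sum_prod_type]
  have h2 : ∑ i3, ∑ i4, ∑ i1, ∑ i2, f i1 i2 i3 i4 =
      ∑ q : I × I, ∑ p : I × I, f p.1 p.2 q.1 q.2 := by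
    simp only [Fintype.sum_prod_type]
  rw [h1, h2, Finset.sum_comm]

/-- GB3. -/
theorem gb3 : Gb3Stmt := by
  intro R B A I J N _ _ _ _ _ _ _ _ D v
  unfold Net.GB
  refine Finset.sum_congr rfl fun r _ => Finset.sum_congr rfl fun s _ => ?_
  rw [swap4]
  refine Finset.sum_congr rfl fun i3 _ => Finset.sum_congr rfl fun i4 _ =>
    Finset.sum_congr rfl fun i1 _ => Finset.sum_congr rfl fun i2 _ => ?_
  have hw : D.w4 (I1 R B) (I1 R B) v (I1 R B) (D.c.b' i1) (D.c.b' i2) (D.c.b' i3) (D.c.b' i4) =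
      D.op.w4 v (I1 R B) (I1 R B) (I1 R B) (D.op.c.b' i3) (D.op.c.b' i4) (D.op.c.b' i1)
        (D.op.c.b' i2) := by
    change D.c.lam (D.c.b' i1 * D.c.b' i2 * v (D.c.b' i3) * D.c.b' i4) =
      D.c.lam (v (D.c.b' i3) * D.c.b' i4 * D.c.b' i1 * D.c.b' i2)
    rw [mul_assoc (D.c.b' i1 * D.c.b' i2), D.cs]
    simp only [mul_assoc]
  rw [← Finset.mul_sum, ← Finset.mul_sum, hw]
  congr 1
  have hF : Bil R (fun p q : A => D.T (p * D.x r * D.u i1 * D.x s * D.u i2) *
      D.T (D.y r * D.u i3 * D.y s * D.u i4 * q)) :=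
    ⟨fun p p' q => by simp only [add_mul, D.T_add],
      fun p q q' => by simp only [mul_add, D.T_add],
      fun c p q => by simp only [smul_mul_assoc, D.T_smul, smul_eq_mul]; ring,
      fun c p q => by simp only [mul_smul_comm, D.T_smul, smul_eq_mul]; ring⟩
  have h3 := D.n3 hF
  calc ∑ k, D.T (D.x r * D.u i1 * D.x s * D.u i2 * D.u k) *
        D.T (D.u' k * D.y r * D.u i3 * D.y s * D.u i4)
      = ∑ k, D.T (D.u k * D.x r * D.u i1 * D.x s * D.u i2) *
        D.T (D.y r * D.u i3 * D.y s * D.u i4 * D.u' k) := by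
        refine Finset.sum_congr rfl fun k _ => ?_
        rw [D.T_comm _ (D.u k), D.T_comm _ (D.u' k)]
        simp only [mul_assoc]
    _ = ∑ k, D.T (D.u' k * D.x r * D.u i1 * D.x s * D.u i2) *
        D.T (D.y r * D.u i3 * D.y s * D.u i4 * D.u k) := h3
    _ = _ := by
        refine Finset.sum_congr rfl fun k _ => ?_
        change _ = D.T (D.y r * D.u i3 * D.y s * D.u i4 * D.u k) *
          D.T (D.u' k * D.x r * D.u i1 * D.x s * D.u i2)
        rw [mul_comm]

end Pool.Agent.PFD.H19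
end
end -- Pool.Agent.Helper19_PFD.GB3

section -- Pool.Agent.Helper24_PFD.NTX

set_option autoImplicit false

/-!
# Squad PFD, row NTX: the network data of a Higman operator
-/

open scoped BigOperators

namespace Pool.Agent.PFD.H24

open Pool.Agent.PFC.B1

section
variable {R B A I J : Type} [CommRing R] [Ring B] [Algebra R B] [Ring A] [Algebra R A]
  [Fintype I] [Fintype J] {c : FS R B I}

/-- the projector onto the complement -/
noncomputable def qq (sp : Split c A) : A →ₗ[R] A := LinearMap.id - sp.j.toLinearMap ∘ₗ sp.pr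

theorem qq_apply (sp : Split c A) (a : A) : qq sp a = a - sp.j (sp.pr a) := rfl

theorem pr_qq (sp : Split c A) (a : A) : sp.pr (qq sp a) = 0 := by
  rw [qq_apply, map_sub, sp.pr_j, sub_self]

theorem qq_qq (sp : Split c A) (a : A) : qq sp (qq sp a) = qq sp a := by
  rw [qq_apply sp (qq sp a), pr_qq, map_zero, sub_zero]

theorem qq_l (sp : Split c A) (b : B) (a : A) : qq sp (sp.j b * a) = sp.j b * qq sp a := by
  rw [qq_apply, qq_apply, sp.pr_l, map_mul, mul_sub]

theorem qq_r (sp : Split c A) (a : A) (b : B) : qq sp (a * sp.j b) = qq sp a * sp.j b := by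
  rw [qq_apply, qq_apply, sp.pr_r, map_mul, sub_mul]

theorem qq_adj (d : FS R A J) (sp : Split c A) (hT : ∀ x, d.lam x = c.lam (sp.pr x)) (a a' : A) :
    d.lam (qq sp a * a') = d.lam (a * qq sp a') := by
  rw [qq_apply, qq_apply, sub_mul, mul_sub, map_sub, map_sub]
  congr 1
  rw [hT, hT, sp.pr_l, sp.pr_r]

/-- the adjoint of a linear map -/
noncomputable def ad (d : FS R A J) (f : A →ₗ[R] A) (z : A) : A :=
  ∑ p, d.lam (f (d.b p) * z) • d.b' p

theorem ad_spec (d : FS R A J) (hs : ∀ x y, d.lam (x * y) = d.lam (y * x)) (f : A →ₗ[R] A)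
    (e z : A) : d.lam (e * ad d f z) = d.lam (f e * z) := by
  have h : f e = ∑ p, d.lam (d.b' p * e) • f (d.b p) := by
    conv_lhs => rw [← d.h1 e]
    rw [map_sum]
    exact Finset.sum_congr rfl fun p _ => by rw [map_smul]
  rw [h, Finset.sum_mul, map_sum]
  unfold ad
  rw [Finset.mul_sum, map_sum]
  refine Finset.sum_congr rfl fun p _ => ?_
  rw [mul_smul_comm, map_smul, smul_mul_assoc, map_smul, hs e, smul_eq_mul, smul_eq_mul, mul_comm]

/-- an element is determined by its form values -/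
theorem nondeg (d : FS R A J) {z w : A} (h : ∀ f, d.lam (z * f) = d.lam (w * f)) : z = w := by
  rw [← d.h2 z, ← d.h2 w]
  exact Finset.sum_congr rfl fun i _ => by rw [h]

/-- the averages of the adjoint -/
theorem ad_avg (d : FS R A J) (sp : Split c A) (hs : ∀ x y, d.lam (x * y) = d.lam (y * x))
    (hT : ∀ x, d.lam x = c.lam (sp.pr x)) (e : A) :
    ∑ i, ∑ l, sp.j (c.b i) * ad d sp.a (sp.j (c.b' i) * e * sp.j (c.b l)) * sp.j (c.b' l) =
      qq sp e := by
  apply nondeg d
  intro f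
  have h1 : d.lam (qq sp e * f) = d.lam (qq sp f * e) := by
    rw [qq_adj d sp hT, hs]
  rw [h1, qq_apply, ← sp.a_id f]
  simp only [Finset.sum_mul, map_sum]
  rw [Finset.sum_comm]
  refine Finset.sum_congr rfl fun l _ => Finset.sum_congr rfl fun i _ => ?_
  have h2 : d.lam (sp.j (c.b i) * ad d sp.a (sp.j (c.b' i) * e * sp.j (c.b l)) *
      sp.j (c.b' l) * f) =
      d.lam ((sp.j (c.b' l) * f * sp.j (c.b i)) *
        ad d sp.a (sp.j (c.b' i) * e * sp.j (c.b l))) := by
    rw [mul_assoc (sp.j (c.b i) * _) _ f, hs]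
    simp only [mul_assoc]
  have h3 : d.lam (sp.j (c.b l) * sp.a (sp.j (c.b' l) * f * sp.j (c.b i)) * sp.j (c.b' i) * e) =
      d.lam (sp.a (sp.j (c.b' l) * f * sp.j (c.b i)) * (sp.j (c.b' i) * e * sp.j (c.b l))) := by
    rw [mul_assoc, mul_assoc, hs]
    simp only [mul_assoc]
  rw [h2, h3, ad_spec d hs]

end

/-- **NTX** -/
theorem ntx : NtxStmt := by
  intro R B A I J _ _ _ _ _ _ _ c d sp hc hs hT
  refine ⟨{ c := c
            d := d
            cs := hc
            ds := hs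
            j := sp.j
            pr := sp.pr
            pr_j := sp.pr_j
            pr_l := sp.pr_l
            pr_r := sp.pr_r
            ort := hT
            x := fun p => qq sp (sp.a (qq sp (d.b p)))
            y := fun p => qq sp (d.b' p)
            px := fun p => pr_qq sp _
            py := fun p => pr_qq sp _
            cx := ?_
            cy := ?_ }, rfl, rfl, rfl, rfl⟩
  · intro a
    have key : ∀ i l, ∑ r, d.lam (sp.j (c.b l) * qq sp (d.b' r) * sp.j (c.b' i) * a) •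
        (sp.j (c.b i) * qq sp (sp.a (qq sp (d.b r))) * sp.j (c.b' l)) =
        qq sp (sp.j (c.b i) * sp.a (sp.j (c.b' i) * qq sp a * sp.j (c.b l)) * sp.j (c.b' l)) := by
      intro i l
      have h1 : ∀ r, d.lam (sp.j (c.b l) * qq sp (d.b' r) * sp.j (c.b' i) * a) =
          d.lam (d.b' r * qq sp (sp.j (c.b' i) * a * sp.j (c.b l))) := by
        intro r
        rw [← qq_adj d sp hT, mul_assoc, mul_assoc, hs]
        simp only [mul_assoc]
      have h2 : ∑ r, d.lam (d.b' r * qq sp (sp.j (c.b' i) * a * sp.j (c.b l))) •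
          (sp.j (c.b i) * qq sp (sp.a (qq sp (d.b r))) * sp.j (c.b' l)) =
          sp.j (c.b i) * qq sp (sp.a (qq sp (∑ r, d.lam (d.b' r *
            qq sp (sp.j (c.b' i) * a * sp.j (c.b l))) • d.b r))) * sp.j (c.b' l) := by
        simp only [map_sum, map_smul, Finset.mul_sum, Finset.sum_mul, mul_smul_comm,
          smul_mul_assoc]
      refine (Finset.sum_congr rfl fun r _ => by rw [h1 r]).trans (h2.trans ?_)
      rw [d.h1, qq_qq, qq_r, qq_l, qq_r, qq_l]
    rw [Finset.sum_comm]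
    refine (Finset.sum_congr rfl fun i _ => Finset.sum_comm).trans ?_
    refine (Finset.sum_congr rfl fun i _ => Finset.sum_congr rfl fun l _ => key i l).trans ?_
    simp only [← map_sum]
    rw [sp.a_id, ← qq_apply, qq_qq, qq_qq, qq_apply]
  · intro a
    have key : ∀ i l, ∑ r, d.lam (sp.j (c.b l) * qq sp (sp.a (qq sp (d.b r))) *
        sp.j (c.b' i) * a) • (sp.j (c.b i) * qq sp (d.b' r) * sp.j (c.b' l)) =
        qq sp (sp.j (c.b i) * ad d sp.a (sp.j (c.b' i) * qq sp a * sp.j (c.b l)) *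
          sp.j (c.b' l)) := by
      intro i l
      have h1 : ∀ r, d.lam (sp.j (c.b l) * qq sp (sp.a (qq sp (d.b r))) * sp.j (c.b' i) * a) =
          d.lam (qq sp (ad d sp.a (qq sp (sp.j (c.b' i) * a * sp.j (c.b l)))) * d.b r) := by
        intro r
        have e1 : d.lam (sp.j (c.b l) * qq sp (sp.a (qq sp (d.b r))) * sp.j (c.b' i) * a) =
            d.lam (qq sp (sp.a (qq sp (d.b r))) * (sp.j (c.b' i) * a * sp.j (c.b l))) := by
          rw [mul_assoc, mul_assoc, hs]
          simp only [mul_assoc]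
        rw [e1, qq_adj d sp hT, ← ad_spec d hs, hs, ← qq_adj d sp hT]
      have h2 : ∑ r, d.lam (qq sp (ad d sp.a (qq sp (sp.j (c.b' i) * a * sp.j (c.b l)))) *
          d.b r) • (sp.j (c.b i) * qq sp (d.b' r) * sp.j (c.b' l)) =
          sp.j (c.b i) * qq sp (∑ r, d.lam (qq sp (ad d sp.a (qq sp (sp.j (c.b' i) * a *
            sp.j (c.b l)))) * d.b r) • d.b' r) * sp.j (c.b' l) := by
        simp only [map_sum, map_smul, Finset.mul_sum, Finset.sum_mul, mul_smul_comm,
          smul_mul_assoc]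
      refine (Finset.sum_congr rfl fun r _ => by rw [h1 r]).trans (h2.trans ?_)
      rw [d.h2, qq_qq, qq_r sp _ (c.b l), qq_l, qq_r, qq_l]
    rw [Finset.sum_comm]
    refine (Finset.sum_congr rfl fun i _ => Finset.sum_comm).trans ?_
    refine (Finset.sum_congr rfl fun i _ => Finset.sum_congr rfl fun l _ => key i l).trans ?_
    simp only [← map_sum]
    rw [ad_avg d sp hs hT, qq_qq, qq_qq, qq_apply]

end Pool.Agent.PFD.H24
end -- Pool.Agent.Helper24_PFD.NTX

section -- Pool.Agent.Helper25_PFD.KAP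

/-! PFD, row KAP: the tensor `κ = ∑ b_i' b_k' ⊗ b_i b_k`. -/

set_option autoImplicit false

namespace Pool.Agent.PFD.H25

open Pool.Agent.PFC.B1

section bil

variable {R : Type} {M M' X : Type} [CommRing R] [AddCommGroup M] [Module R M]
    [AddCommGroup M'] [Module R M'] [AddCommGroup X] [Module R X] {F : M → M' → X}

theorem bil_zero1 (h : Bil R F) (b : M') : F 0 b = 0 := by
  have := h.s1 0 0 b
  rw [zero_smul, zero_smul] at this
  exact this

theorem bil_zero2 (h : Bil R F) (a : M) : F a 0 = 0 := by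
  have := h.s2 0 a 0
  rw [zero_smul, zero_smul] at this
  exact this

theorem bil_sum1 (h : Bil R F) {ι : Type} (s : Finset ι) (r : ι → R) (a : ι → M) (b : M') :
    F (∑ i ∈ s, r i • a i) b = ∑ i ∈ s, r i • F (a i) b := by
  classical
  induction s using Finset.induction_on with
  | empty => rw [Finset.sum_empty, Finset.sum_empty, bil_zero1 h]
  | insert x s hx ih => rw [Finset.sum_insert hx, Finset.sum_insert hx, h.a1, h.s1, ih]

theorem bil_sum2 (h : Bil R F) {ι : Type} (s : Finset ι) (r : ι → R) (a : M) (b : ι → M') :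
    F a (∑ i ∈ s, r i • b i) = ∑ i ∈ s, r i • F a (b i) := by
  classical
  induction s using Finset.induction_on with
  | empty => rw [Finset.sum_empty, Finset.sum_empty, bil_zero2 h]
  | insert x s hx ih => rw [Finset.sum_insert hx, Finset.sum_insert hx, h.a2, h.s2, ih]

end bil

section casimir

variable {R B I X : Type} [CommRing R] [Ring B] [Algebra R B] [Fintype I]
    [AddCommGroup X] [Module R X] (c : FS R B I) {F : B → B → X}

theorem m1 (h : Bil R F) (x : B) :
    ∑ i, F (x * c.b i) (c.b' i) = ∑ i, F (c.b i) (c.b' i * x) := by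
  have e1 : ∀ i, F (x * c.b i) (c.b' i) =
      ∑ k, c.lam (c.b' k * (x * c.b i)) • F (c.b k) (c.b' i) := by
    intro i
    rw [← bil_sum1 h, c.h1]
  have e2 : ∀ k, F (c.b k) (c.b' k * x) =
      ∑ i, c.lam (c.b' k * (x * c.b i)) • F (c.b k) (c.b' i) := by
    intro k
    have : c.b' k * x = ∑ i, c.lam (c.b' k * (x * c.b i)) • c.b' i := by
      conv_lhs => rw [← c.h2 (c.b' k * x)]
      refine Finset.sum_congr rfl fun i _ => ?_
      rw [mul_assoc]
    rw [this, bil_sum2 h]
  rw [Finset.sum_congr rfl fun i _ => e1 i, Finset.sum_congr rfl fun i _ => e2 i,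
    Finset.sum_comm]

theorem m2 (cs : ∀ x y, c.lam (x * y) = c.lam (y * x)) (h : Bil R F) (x : B) :
    ∑ i, F (c.b i * x) (c.b' i) = ∑ i, F (c.b i) (x * c.b' i) := by
  have e1 : ∀ i, F (c.b i * x) (c.b' i) =
      ∑ k, c.lam (c.b' k * (c.b i * x)) • F (c.b k) (c.b' i) := by
    intro i
    rw [← bil_sum1 h, c.h1]
  have e2 : ∀ k, F (c.b k) (x * c.b' k) =
      ∑ i, c.lam (c.b' k * (c.b i * x)) • F (c.b k) (c.b' i) := by
    intro k
    have : x * c.b' k = ∑ i, c.lam (c.b' k * (c.b i * x)) • c.b' i := by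
      conv_lhs => rw [← c.h2 (x * c.b' k)]
      refine Finset.sum_congr rfl fun i _ => ?_
      congr 1
      rw [mul_assoc, cs, mul_assoc]
    rw [this, bil_sum2 h]
  rw [Finset.sum_congr rfl fun i _ => e1 i, Finset.sum_congr rfl fun i _ => e2 i,
    Finset.sum_comm]

theorem m3 (cs : ∀ x y, c.lam (x * y) = c.lam (y * x)) (h : Bil R F) :
    ∑ i, F (c.b i) (c.b' i) = ∑ i, F (c.b' i) (c.b i) := by
  have e1 : ∀ k, F (c.b k) (c.b' k) = ∑ i, c.lam (c.b' k * c.b' i) • F (c.b k) (c.b i) := by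
    intro k
    have : c.b' k = ∑ i, c.lam (c.b' k * c.b' i) • c.b i := by
      conv_lhs => rw [← c.h1 (c.b' k)]
      refine Finset.sum_congr rfl fun i _ => ?_
      rw [cs]
    conv_lhs => rw [this]
    rw [bil_sum2 h]
  have e2 : ∀ i, F (c.b' i) (c.b i) = ∑ k, c.lam (c.b' k * c.b' i) • F (c.b k) (c.b i) := by
    intro i
    rw [← bil_sum1 h, c.h1]
  rw [Finset.sum_congr rfl fun i _ => e1 i, Finset.sum_congr rfl fun i _ => e2 i,
    Finset.sum_comm]

theorem m5 (h : Bil R F) (v : B →ₗ[R] B) (De : B) (der : ∀ a b, v (a * b) = v a * b + a * v b)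
    (div : ∀ a, c.lam (v a) = - c.lam (a * De)) :
    ∑ i, F (c.b i) (v (c.b' i)) = - ∑ i, F (v (c.b i) + c.b i * De) (c.b' i) := by
  have e1 : ∀ k, F (c.b k) (v (c.b' k)) =
      ∑ i, (- c.lam (c.b' k * (v (c.b i) + c.b i * De))) • F (c.b k) (c.b' i) := by
    intro k
    have : v (c.b' k) = ∑ i, (- c.lam (c.b' k * (v (c.b i) + c.b i * De))) • c.b' i := by
      conv_lhs => rw [← c.h2 (v (c.b' k))]
      refine Finset.sum_congr rfl fun i _ => ?_
      congr 1
      have h1 := div (c.b' k * c.b i)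
      rw [der, map_add] at h1
      rw [mul_add, map_add, ← mul_assoc (c.b' k) (c.b i) De]
      linear_combination h1
    rw [this, bil_sum2 h]
  have e2 : ∀ i, F (v (c.b i) + c.b i * De) (c.b' i) =
      ∑ k, c.lam (c.b' k * (v (c.b i) + c.b i * De)) • F (c.b k) (c.b' i) := by
    intro i
    rw [← bil_sum1 h, c.h1]
  rw [Finset.sum_congr rfl fun i _ => e1 i, Finset.sum_congr rfl fun i _ => e2 i,
    Finset.sum_comm, ← Finset.sum_neg_distrib]
  refine Finset.sum_congr rfl fun i _ => ?_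
  rw [← Finset.sum_neg_distrib]
  refine Finset.sum_congr rfl fun k _ => ?_
  rw [neg_smul]

end casimir

theorem kap : KapStmt := by
  intro R B A I J N X _ _ _ _ _ _ _ _ _ _ D F h
  set c := D.c with hc
  have cs := D.cs
  have K1 : ∀ G : B → B → X, Bil R G →
      ∑ i, ∑ k, G (c.b' i * c.b' k) (c.b i * c.b k) =
        ∑ i, ∑ k, G (c.b i * c.b k) (c.b' i * c.b' k) := by
    intro G hG
    have s1 : ∑ i, ∑ k, G (c.b' i * c.b' k) (c.b i * c.b k) =
        ∑ i, ∑ k, G (c.b i * c.b' k) (c.b' i * c.b k) := by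
      rw [Finset.sum_comm]
      rw [Finset.sum_comm (f := fun i k => G (c.b i * c.b' k) (c.b' i * c.b k))]
      refine Finset.sum_congr rfl fun k _ => ?_
      refine (m3 c cs (F := fun p q => G (p * c.b' k) (q * c.b k)) ?_).symm
      refine ⟨?_, ?_, ?_, ?_⟩ <;> intros <;>
        simp only [add_mul, hG.a1, hG.a2, hG.s1, hG.s2, smul_mul_assoc]
    rw [s1]
    refine Finset.sum_congr rfl fun i _ => ?_
    refine (m3 c cs (F := fun p q => G (c.b i * p) (c.b' i * q)) ?_).symm
    refine ⟨?_, ?_, ?_, ?_⟩ <;> intros <;>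
      simp only [mul_add, hG.a1, hG.a2, hG.s1, hG.s2, mul_smul_comm]
  have K4 : ∀ G : B → B → X, Bil R G → ∀ z, (∀ a, z * a = a * z) →
      ∑ i, ∑ k, G (z * (c.b' i * c.b' k)) (c.b i * c.b k) =
      ∑ i, ∑ k, G (c.b' i * c.b' k) (z * (c.b i * c.b k)) := by
    intro G hG z hz
    have b1 : Bil R (fun a b => G (z * a) b) := by
      refine ⟨?_, ?_, ?_, ?_⟩ <;> intros <;>
        simp only [mul_add, hG.a1, hG.a2, hG.s1, hG.s2, mul_smul_comm]
    have b2 : Bil R (fun a b => G a (z * b)) := by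
      refine ⟨?_, ?_, ?_, ?_⟩ <;> intros <;>
        simp only [mul_add, hG.a1, hG.a2, hG.s1, hG.s2, mul_smul_comm]
    rw [K1 _ b1, K1 _ b2]
    rw [Finset.sum_comm]
    rw [Finset.sum_comm (f := fun i k => G (c.b i * c.b k) (z * (c.b' i * c.b' k)))]
    refine Finset.sum_congr rfl fun k _ => ?_
    have b3 : Bil R (fun p q => G (p * c.b k) (q * c.b' k)) := by
      refine ⟨?_, ?_, ?_, ?_⟩ <;> intros <;>
        simp only [add_mul, hG.a1, hG.a2, hG.s1, hG.s2, smul_mul_assoc]
    have h1 := m1 c b3 z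
    calc ∑ i, G (z * (c.b i * c.b k)) (c.b' i * c.b' k)
        = ∑ i, G (z * c.b i * c.b k) (c.b' i * c.b' k) := by
          refine Finset.sum_congr rfl fun i _ => ?_
          rw [mul_assoc]
      _ = ∑ i, G (c.b i * c.b k) (c.b' i * z * c.b' k) := h1
      _ = ∑ i, G (c.b i * c.b k) (z * (c.b' i * c.b' k)) := by
          refine Finset.sum_congr rfl fun i _ => ?_
          rw [← hz (c.b' i), mul_assoc]
  refine ⟨K1 F h, ?_, ?_, K4 F h, ?_⟩
  · intro x
    have b1 : Bil R (fun a b => F (x * a) b) := by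
      refine ⟨?_, ?_, ?_, ?_⟩ <;> intros <;>
        simp only [mul_add, h.a1, h.a2, h.s1, h.s2, mul_smul_comm]
    have b2 : Bil R (fun a b => F (a * x) b) := by
      refine ⟨?_, ?_, ?_, ?_⟩ <;> intros <;>
        simp only [add_mul, h.a1, h.a2, h.s1, h.s2, smul_mul_assoc]
    rw [K1 _ b1, K1 _ b2]
    have s1 : ∑ i, ∑ k, F (x * (c.b i * c.b k)) (c.b' i * c.b' k) =
        ∑ i, ∑ k, F (c.b i * c.b k) (c.b' i * x * c.b' k) := by
      rw [Finset.sum_comm]
      rw [Finset.sum_comm (f := fun i k => F (c.b i * c.b k) (c.b' i * x * c.b' k))]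
      refine Finset.sum_congr rfl fun k _ => ?_
      have b3 : Bil R (fun p q => F (p * c.b k) (q * c.b' k)) := by
        refine ⟨?_, ?_, ?_, ?_⟩ <;> intros <;>
          simp only [add_mul, h.a1, h.a2, h.s1, h.s2, smul_mul_assoc]
      have h1 := m1 c b3 x
      rw [← h1]
      refine Finset.sum_congr rfl fun i _ => ?_
      rw [mul_assoc]
    rw [s1]
    refine Finset.sum_congr rfl fun i _ => ?_
    have b3 : Bil R (fun p q => F (c.b i * p) (c.b' i * q)) := by
      refine ⟨?_, ?_, ?_, ?_⟩ <;> intros <;>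
        simp only [mul_add, h.a1, h.a2, h.s1, h.s2, mul_smul_comm]
    have h1 := m2 c cs b3 x
    calc ∑ k, F (c.b i * c.b k) (c.b' i * x * c.b' k)
        = ∑ k, F (c.b i * c.b k) (c.b' i * (x * c.b' k)) := by
          refine Finset.sum_congr rfl fun k _ => ?_
          rw [mul_assoc]
      _ = ∑ k, F (c.b i * (c.b k * x)) (c.b' i * c.b' k) := h1.symm
      _ = _ := by
          refine Finset.sum_congr rfl fun k _ => ?_
          rw [mul_assoc]
  · intro x
    have b1 : Bil R (fun a b => F a (x * b)) := by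
      refine ⟨?_, ?_, ?_, ?_⟩ <;> intros <;>
        simp only [mul_add, h.a1, h.a2, h.s1, h.s2, mul_smul_comm]
    have b2 : Bil R (fun a b => F a (b * x)) := by
      refine ⟨?_, ?_, ?_, ?_⟩ <;> intros <;>
        simp only [add_mul, h.a1, h.a2, h.s1, h.s2, smul_mul_assoc]
    rw [K1 _ b1, K1 _ b2]
    have s1 : ∑ i, ∑ k, F (c.b i * c.b k) (c.b' i * c.b' k * x) =
        ∑ i, ∑ k, F (c.b i * (x * c.b k)) (c.b' i * c.b' k) := by
      refine Finset.sum_congr rfl fun i _ => ?_
      have b3 : Bil R (fun p q => F (c.b i * p) (c.b' i * q)) := by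
        refine ⟨?_, ?_, ?_, ?_⟩ <;> intros <;>
          simp only [mul_add, h.a1, h.a2, h.s1, h.s2, mul_smul_comm]
      have h1 := m1 c b3 x
      rw [h1]
      refine Finset.sum_congr rfl fun k _ => ?_
      rw [mul_assoc]
    rw [s1]
    rw [Finset.sum_comm]
    rw [Finset.sum_comm (f := fun i k => F (c.b i * (x * c.b k)) (c.b' i * c.b' k))]
    refine Finset.sum_congr rfl fun k _ => ?_
    have b3 : Bil R (fun p q => F (p * c.b k) (q * c.b' k)) := by
      refine ⟨?_, ?_, ?_, ?_⟩ <;> intros <;>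
        simp only [add_mul, h.a1, h.a2, h.s1, h.s2, smul_mul_assoc]
    have h1 := m2 c cs b3 x
    calc ∑ i, F (c.b i * c.b k) (x * (c.b' i * c.b' k))
        = ∑ i, F (c.b i * c.b k) (x * c.b' i * c.b' k) := by
          refine Finset.sum_congr rfl fun i _ => ?_
          rw [mul_assoc x]
      _ = ∑ i, F (c.b i * x * c.b k) (c.b' i * c.b' k) := h1.symm
      _ = _ := by
          refine Finset.sum_congr rfl fun i _ => ?_
          rw [mul_assoc (c.b i)]
  · intro v De hv
    -- the sum over the first index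
    have p1 : ∑ i, ∑ k, F (v (c.b' i) * c.b' k) (c.b i * c.b k) +
        ∑ i, ∑ k, F (c.b' i * c.b' k) (v (c.b i) * c.b k) =
        - ∑ i, ∑ k, F (De * (c.b' i * c.b' k)) (c.b i * c.b k) := by
      rw [K4 F h De hv.cen]
      rw [Finset.sum_comm]
      rw [Finset.sum_comm (f := fun i k => F (c.b' i * c.b' k) (v (c.b i) * c.b k))]
      rw [Finset.sum_comm (f := fun i k => F (c.b' i * c.b' k) (De * (c.b i * c.b k)))]
      rw [← Finset.sum_add_distrib, ← Finset.sum_neg_distrib]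
      refine Finset.sum_congr rfl fun k _ => ?_
      have b3 : Bil R (fun p q => F (q * c.b' k) (p * c.b k)) := by
        refine ⟨?_, ?_, ?_, ?_⟩ <;> intros <;>
          simp only [add_mul, h.a1, h.a2, h.s1, h.s2, smul_mul_assoc]
      have h1 := m5 c b3 v De hv.der hv.div
      have h1' : ∑ i, F (v (c.b' i) * c.b' k) (c.b i * c.b k) =
          - ∑ i, F (c.b' i * c.b' k) ((v (c.b i) + c.b i * De) * c.b k) := h1
      rw [h1']
      have h2 : ∑ i, F (c.b' i * c.b' k) ((v (c.b i) + c.b i * De) * c.b k) =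
          ∑ i, F (c.b' i * c.b' k) (v (c.b i) * c.b k) +
          ∑ i, F (c.b' i * c.b' k) (De * (c.b i * c.b k)) := by
        rw [← Finset.sum_add_distrib]
        refine Finset.sum_congr rfl fun i _ => ?_
        rw [add_mul, h.a2, ← hv.cen (c.b i), mul_assoc De]
      rw [h2]
      abel
    have p2 : ∑ i, ∑ k, F (c.b' i * v (c.b' k)) (c.b i * c.b k) +
        ∑ i, ∑ k, F (c.b' i * c.b' k) (c.b i * v (c.b k)) =
        - ∑ i, ∑ k, F (De * (c.b' i * c.b' k)) (c.b i * c.b k) := by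
      rw [K4 F h De hv.cen]
      rw [← Finset.sum_add_distrib, ← Finset.sum_neg_distrib]
      refine Finset.sum_congr rfl fun i _ => ?_
      have b3 : Bil R (fun p q => F (c.b' i * q) (c.b i * p)) := by
        refine ⟨?_, ?_, ?_, ?_⟩ <;> intros <;>
          simp only [mul_add, h.a1, h.a2, h.s1, h.s2, mul_smul_comm]
      have h1 := m5 c b3 v De hv.der hv.div
      have h1' : ∑ k, F (c.b' i * v (c.b' k)) (c.b i * c.b k) =
          - ∑ k, F (c.b' i * c.b' k) (c.b i * (v (c.b k) + c.b k * De)) := h1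
      rw [h1']
      have h2 : ∑ k, F (c.b' i * c.b' k) (c.b i * (v (c.b k) + c.b k * De)) =
          ∑ k, F (c.b' i * c.b' k) (c.b i * v (c.b k)) +
          ∑ k, F (c.b' i * c.b' k) (De * (c.b i * c.b k)) := by
        rw [← Finset.sum_add_distrib]
        refine Finset.sum_congr rfl fun k _ => ?_
        rw [mul_add, h.a2, hv.cen (c.b i * c.b k), mul_assoc (c.b i)]
      rw [h2]
      abel
    have q1 : ∑ i, ∑ k, F (v (c.b' i * c.b' k)) (c.b i * c.b k) =
        ∑ i, ∑ k, F (v (c.b' i) * c.b' k) (c.b i * c.b k) +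
        ∑ i, ∑ k, F (c.b' i * v (c.b' k)) (c.b i * c.b k) := by
      rw [← Finset.sum_add_distrib]
      refine Finset.sum_congr rfl fun i _ => ?_
      rw [← Finset.sum_add_distrib]
      refine Finset.sum_congr rfl fun k _ => ?_
      rw [hv.der, h.a1]
    have q2 : ∑ i, ∑ k, F (c.b' i * c.b' k) (v (c.b i * c.b k)) =
        ∑ i, ∑ k, F (c.b' i * c.b' k) (v (c.b i) * c.b k) +
        ∑ i, ∑ k, F (c.b' i * c.b' k) (c.b i * v (c.b k)) := by
      rw [← Finset.sum_add_distrib]
      refine Finset.sum_congr rfl fun i _ => ?_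
      rw [← Finset.sum_add_distrib]
      refine Finset.sum_congr rfl fun k _ => ?_
      rw [hv.der, h.a2]
    rw [q1, q2, two_smul, neg_add]
    nth_rewrite 1 [← p1]
    rw [← p2]
    abel

end Pool.Agent.PFD.H25
end -- Pool.Agent.Helper25_PFD.KAP

section -- Pool.Agent.Helper41_PFD.ROT

namespace Pool.Agent.PFD.H41

open Pool.Agent.PFC.B1

noncomputable section

theorem rot_sum {R I : Type} [AddCommMonoid R] [Fintype I] (f : I → I → I → I → R) :
    ∑ i1, ∑ i2, ∑ i3, ∑ i4, f i1 i2 i3 i4 = ∑ i1, ∑ i2, ∑ i3, ∑ i4, f i4 i1 i2 i3 := by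
  rw [Finset.sum_comm]
  refine Finset.sum_congr rfl fun i1 _ => ?_
  rw [Finset.sum_comm]
  refine Finset.sum_congr rfl fun i2 _ => ?_
  exact Finset.sum_comm

theorem rot : RotStmt := by
  intro R B A I J N _ _ _ _ _ _ _ _ D X X' Y Y' f1 f2 f3 f4
  have hT : ∀ a b : A, D.T (a * b) = D.T (b * a) := D.ds
  unfold Net.H4
  rw [Finset.sum_comm]
  refine Finset.sum_congr rfl fun s _ => Finset.sum_congr rfl fun r _ => ?_
  rw [rot_sum]
  refine Finset.sum_congr rfl fun i1 _ => Finset.sum_congr rfl fun i2 _ =>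
    Finset.sum_congr rfl fun i3 _ => Finset.sum_congr rfl fun i4 _ => ?_
  have h1 : D.w4 f1 f2 f3 f4 (D.c.b' i4) (D.c.b' i1) (D.c.b' i2) (D.c.b' i3) =
      D.w4 f2 f3 f4 f1 (D.c.b' i1) (D.c.b' i2) (D.c.b' i3) (D.c.b' i4) := by
    unfold Net.w4
    rw [← D.cs]
    simp only [mul_assoc]
    rw [D.cs]
    simp only [mul_assoc]
    try rw [D.cs]
    try simp only [mul_assoc]
  have h2 : D.T (X r * D.u i4 * Y s * D.u i1 * X' r * D.u i2 * Y' s * D.u i3) =
      D.T (Y s * D.u i1 * X' r * D.u i2 * Y' s * D.u i3 * X r * D.u i4) := by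
    have h := hT (X r * D.u i4) (Y s * D.u i1 * X' r * D.u i2 * Y' s * D.u i3)
    simpa only [mul_assoc] using h
  rw [h1, h2]

end

end Pool.Agent.PFD.H41
end -- Pool.Agent.Helper41_PFD.ROT

section -- Pool.Agent.Helper41_PFD.TRF

namespace Pool.Agent.PFD.H41

open Pool.Agent.PFC.B1

noncomputable section

theorem trf : TrfStmt := by
  intro K A J _ _ _ _ _ d h
  have h1 : h = ∑ p, (d.lam.comp (LinearMap.mulLeft K (d.b' p))).smulRight (h (d.b p)) := by
    apply LinearMap.ext
    intro x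
    rw [LinearMap.sum_apply]
    simp only [LinearMap.smulRight_apply, LinearMap.comp_apply, LinearMap.mulLeft_apply]
    conv_lhs => rw [← d.h1 x]
    rw [map_sum]
    exact Finset.sum_congr rfl fun p _ => by rw [map_smul]
  conv_lhs => rw [h1]
  rw [map_sum]
  refine Finset.sum_congr rfl fun p _ => ?_
  rw [LinearMap.trace_smulRight]
  rfl

end

end Pool.Agent.PFD.H41
end -- Pool.Agent.Helper41_PFD.TRF

section -- Pool.Agent.Helper41_PFD.W13

namespace Pool.Agent.PFD.H41

open Pool.Agent.PFC.B1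

noncomputable section

theorem w13 (hLnk : LnkStmt) (hCon : ConStmt) (hGau : GauStmt) : W13Stmt := by
  intro R B A I J N _ _ _ _ _ _ _ _ D v De hD
  have hDop : D.op.Der v De := ⟨hD.der, hD.cen, hD.div⟩
  obtain ⟨ya, ys, yl, yr, y1, -, -, -, -, -⟩ := hCon R B A I J N D v De hD
  obtain ⟨xa, xs, xl, xr, x1, -, -, -, -, -⟩ := hCon R B A I J N D.op v De hDop
  let de : A →ₗ[R] A :=
    { toFun := fun a => D.op.Ry v a - D.Ry v a
      map_add' := by
        intro a b
        rw [xa, ya]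
        abel
      map_smul' := by
        intro r a
        rw [xs, ys, RingHom.id_apply, smul_sub] }
  have hde : ∀ a, de a = D.op.Ry v a - D.Ry v a := fun _ => rfl
  have hg := hGau R B A I J N D de ?_ ?_ ?_
  · have hN : ∀ X X' : N → A, D.N4 X X' de = D.N4 X X' (D.op.Ry v) - D.N4 X X' (D.Ry v) := by
      intro X X'
      unfold Net.N4
      rw [← Finset.sum_sub_distrib]
      refine Finset.sum_congr rfl fun r _ => ?_
      rw [← Finset.sum_sub_distrib]
      refine Finset.sum_congr rfl fun i _ => ?_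
      rw [← Finset.sum_sub_distrib]
      refine Finset.sum_congr rfl fun p _ => ?_
      rw [hde, mul_sub, sub_mul]
      unfold Net.T
      rw [map_sub]
    rw [hN, hN] at hg
    have h1 := hLnk R B A I J N D v D.x D.y
    have h2 : D.H4 D.y D.x D.y D.x v (I1 R B) (I1 R B) (I1 R B) = D.N4 D.y D.x (D.op.Ry v) :=
      hLnk R B A I J N D.op v D.y D.x
    have h3 : D.H4 D.x D.y D.y D.x v (I1 R B) (I1 R B) (I1 R B) = D.N4 D.x D.y (D.op.Ry v) :=
      hLnk R B A I J N D.op v D.x D.y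
    have h4 := hLnk R B A I J N D v D.y D.x
    rw [h1, h2, h3, h4]
    linear_combination -hg
  · intro b a
    have h5 : D.op.Ry v (D.j b * a) = D.j b * D.op.Ry v a := xl b a
    rw [hde, hde, h5, yl, mul_sub]
  · intro a b
    have h5 : D.op.Ry v (a * D.j b) =
      D.op.Ry v a * D.j b + (a - D.j (D.pr a)) * D.j (v b) := xr a b
    have h6 : (D.op.Ry v a - D.Ry v a) * D.j b = D.op.Ry v a * D.j b - D.Ry v a * D.j b :=
      sub_mul _ _ _
    rw [hde, hde, h5, yr, h6]
    abel
  · rw [hde, x1, y1, sub_zero]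

end

end Pool.Agent.PFD.H41
end -- Pool.Agent.Helper41_PFD.W13

section -- Pool.Agent.Helper48_PFD.RES

/-!
# Squad PFD, row RES (block D1): resolution of the 4-gon
-/

set_option autoImplicit false

open scoped BigOperators

noncomputable section

namespace Pool.Agent.PFD.H48

open Pool.Agent.PFC.B1 Pool.Agent.PFD

section bil
variable {R M M' X : Type} [CommRing R] [AddCommGroup M] [Module R M]
    [AddCommGroup M'] [Module R M'] [AddCommGroup X] [Module R X]

theorem Bil.lin1 {F : M → M' → X} (h : Bil R F) {K : Type} [Fintype K] (r : K → R) (z : K → M)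
    (b : M') : F (∑ k, r k • z k) b = ∑ k, r k • F (z k) b := by
  obtain ⟨L, hL⟩ : ∃ L : M →ₗ[R] X, ∀ a, L a = F a b :=
    ⟨{ toFun := fun a => F a b
       map_add' := fun a a' => h.a1 a a' b
       map_smul' := fun r a => h.s1 r a b }, fun a => rfl⟩
  rw [← hL, map_sum]
  exact Finset.sum_congr rfl fun k _ => by rw [map_smul, hL]

theorem Bil.lin2 {F : M → M' → X} (h : Bil R F) {K : Type} [Fintype K] (r : K → R) (z : K → M')
    (a : M) : F a (∑ k, r k • z k) = ∑ k, r k • F a (z k) := by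
  obtain ⟨L, hL⟩ : ∃ L : M' →ₗ[R] X, ∀ b, L b = F a b :=
    ⟨{ toFun := fun b => F a b
       map_add' := fun b b' => h.a2 a b b'
       map_smul' := fun r b => h.s2 r a b }, fun b => rfl⟩
  rw [← hL, map_sum]
  exact Finset.sum_congr rfl fun k _ => by rw [map_smul, hL]

theorem Bil.sum {K : Type} [Fintype K] {F : K → M → M' → X} (h : ∀ k, Bil R (F k)) :
    Bil R (fun a b => ∑ k, F k a b) := by
  constructor
  · intro a a' b
    rw [← Finset.sum_add_distrib]
    exact Finset.sum_congr rfl fun k _ => (h k).a1 a a' b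
  · intro a b b'
    rw [← Finset.sum_add_distrib]
    exact Finset.sum_congr rfl fun k _ => (h k).a2 a b b'
  · intro r a b
    rw [Finset.smul_sum]
    exact Finset.sum_congr rfl fun k _ => (h k).s1 r a b
  · intro r a b
    rw [Finset.smul_sum]
    exact Finset.sum_congr rfl fun k _ => (h k).s2 r a b

end bil

section rules
variable {R B I X : Type} [CommRing R] [Ring B] [Algebra R B] [Fintype I] [AddCommGroup X]
  [Module R X]

/-- rule M2 -/
theorem m2 (c : FS R B I) (cs : ∀ x y, c.lam (x * y) = c.lam (y * x)) {F : B → B → X}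
    (hF : Bil R F) (x : B) : ∑ i, F (c.b i * x) (c.b' i) = ∑ i, F (c.b i) (x * c.b' i) := by
  calc ∑ i, F (c.b i * x) (c.b' i)
      = ∑ i, ∑ k, c.lam (c.b' k * (c.b i * x)) • F (c.b k) (c.b' i) := by
        refine Finset.sum_congr rfl fun i _ => ?_
        conv_lhs => rw [← c.h1 (c.b i * x)]
        exact Bil.lin1 hF _ _ _
    _ = ∑ k, ∑ i, c.lam (c.b' k * (c.b i * x)) • F (c.b k) (c.b' i) := Finset.sum_comm
    _ = ∑ k, F (c.b k) (x * c.b' k) := by
        refine Finset.sum_congr rfl fun k _ => ?_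
        conv_rhs => rw [← c.h2 (x * c.b' k)]
        rw [Bil.lin2 hF]
        refine Finset.sum_congr rfl fun i _ => ?_
        rw [← mul_assoc, cs, ← mul_assoc]

/-- rule M3 -/
theorem m3 (c : FS R B I) (cs : ∀ x y, c.lam (x * y) = c.lam (y * x)) {F : B → B → X}
    (hF : Bil R F) : ∑ i, F (c.b i) (c.b' i) = ∑ i, F (c.b' i) (c.b i) := by
  calc ∑ i, F (c.b i) (c.b' i)
      = ∑ i, ∑ k, c.lam (c.b i * c.b k) • F (c.b' k) (c.b' i) := by
        refine Finset.sum_congr rfl fun i _ => ?_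
        conv_lhs => rw [← c.h2 (c.b i)]
        exact Bil.lin1 hF _ _ _
    _ = ∑ k, ∑ i, c.lam (c.b i * c.b k) • F (c.b' k) (c.b' i) := Finset.sum_comm
    _ = ∑ k, F (c.b' k) (c.b k) := by
        refine Finset.sum_congr rfl fun k _ => ?_
        conv_rhs => rw [← c.h2 (c.b k)]
        rw [Bil.lin2 hF]
        refine Finset.sum_congr rfl fun i _ => ?_
        rw [cs]

end rules

section reorder
variable {X : Type} [AddCommMonoid X] {I N : Type} [Fintype I] [Fintype N]

theorem ord1 (g : I → I → I → I → N → I → I → X) :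
    ∑ a, ∑ b, ∑ c, ∑ d, ∑ m, ∑ i, ∑ l, g a b c d m i l =
      ∑ m, ∑ i, ∑ l, ∑ a, ∑ c, ∑ b, ∑ d, g a b c d m i l := by
  have h : ∑ x : I × I × I × I × N × I × I, g x.1 x.2.1 x.2.2.1 x.2.2.2.1 x.2.2.2.2.1
        x.2.2.2.2.2.1 x.2.2.2.2.2.2 =
      ∑ y : N × I × I × I × I × I × I, g y.2.2.2.1 y.2.2.2.2.2.1 y.2.2.2.2.1 y.2.2.2.2.2.2 y.1
        y.2.1 y.2.2.1 :=
    Fintype.sum_equiv
      { toFun := fun x => (x.2.2.2.2.1, x.2.2.2.2.2.1, x.2.2.2.2.2.2, x.1, x.2.2.1, x.2.1,
          x.2.2.2.1)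
        invFun := fun y => (y.2.2.2.1, y.2.2.2.2.2.1, y.2.2.2.2.1, y.2.2.2.2.2.2, y.1, y.2.1,
          y.2.2.1)
        left_inv := fun x => rfl
        right_inv := fun y => rfl } _ _ fun x => rfl
  simpa only [Fintype.sum_prod_type] using h

theorem ord2 (g : I → I → I → I → I → I → X) :
    ∑ i, ∑ l, ∑ a, ∑ c, ∑ b, ∑ d, g i l a c b d =
      ∑ a, ∑ b, ∑ l, ∑ c, ∑ d, ∑ i, g i l a c b d := by
  have h : ∑ x : I × I × I × I × I × I, g x.1 x.2.1 x.2.2.1 x.2.2.2.1 x.2.2.2.2.1
        x.2.2.2.2.2 =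
      ∑ y : I × I × I × I × I × I, g y.2.2.2.2.2 y.2.2.1 y.1 y.2.2.2.1 y.2.1 y.2.2.2.2.1 :=
    Fintype.sum_equiv
      { toFun := fun x => (x.2.2.1, x.2.2.2.2.1, x.2.1, x.2.2.2.1, x.2.2.2.2.2, x.1)
        invFun := fun y => (y.2.2.2.2.2, y.2.2.1, y.1, y.2.2.2.1, y.2.1, y.2.2.2.2.1)
        left_inv := fun x => rfl
        right_inv := fun y => rfl } _ _ fun x => rfl
  simpa only [Fintype.sum_prod_type] using h

end reorder

section main
variable {R B A I J N : Type} [CommRing R] [Ring B] [Algebra R B] [Ring A] [Algebra R A]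
    [Fintype I] [Fintype J] [Fintype N]

theorem T_comm (D : Net R B A I J N) (a b : A) : D.T (a * b) = D.T (b * a) := D.ds a b

/-- `T(a b)` as a sum of a `B`-part and a `P`-part -/
theorem T_split (D : Net R B A I J N) (a b : A) :
    D.T (a * b) = (∑ k, D.T (a * D.u k) * D.T (D.u' k * b)) +
      ∑ m, ∑ i, ∑ l, D.T (a * (D.u i * D.x m * D.u' l)) * D.T (D.u l * D.y m * D.u' i * b) := by
  obtain ⟨L, hL⟩ : ∃ L : A →ₗ[R] R, ∀ z, L z = D.T (a * z) :=
    ⟨D.d.lam.comp (LinearMap.mulLeft R a), fun z => rfl⟩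
  have h1 : ∑ m, ∑ i, ∑ l, D.T (a * (D.u i * D.x m * D.u' l)) * D.T (D.u l * D.y m * D.u' i * b) =
      L (b - D.j (D.pr b)) := by
    rw [← D.cx b, map_sum]
    refine Finset.sum_congr rfl fun m _ => ?_
    rw [map_sum]
    refine Finset.sum_congr rfl fun i _ => ?_
    rw [map_sum]
    refine Finset.sum_congr rfl fun l _ => ?_
    rw [map_smul, hL, smul_eq_mul, mul_comm]
    rfl
  have h2 : ∑ k, D.T (a * D.u k) * D.T (D.u' k * b) = L (D.j (D.pr b)) := by
    conv_rhs => rw [← D.c.h1 (D.pr b)]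
    rw [map_sum, map_sum]
    refine Finset.sum_congr rfl fun k _ => ?_
    rw [map_smul, map_smul, hL, smul_eq_mul, mul_comm]
    have h3 : D.T (D.u' k * b) = D.c.lam (D.c.b' k * D.pr b) := by
      show D.d.lam (D.j (D.c.b' k) * b) = _
      rw [D.ort, D.pr_l]
    rw [h3]
    rfl
  rw [h1, h2, ← map_add, hL, add_sub_cancel]

/-- the trace with three corners -/
def tr3 (D : Net R B A I J N) (X Y Z : A) (p q w : B) : R :=
  D.T (X * D.j p * Y * D.j q * Z * D.j w)

theorem res : ResStmt := by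
  intro R B A I J N _ _ _ _ _ _ _ _ D f1 f2 f3 f4
  -- the summand
  obtain ⟨Φ, hΦ⟩ : ∃ Φ : B → B → B → B → R, ∀ a b c d,
      Φ a b c d = D.c.lam (f1 a * f2 b * f3 c * f4 d) := ⟨_, fun _ _ _ _ => rfl⟩
  obtain ⟨U, hU⟩ : ∃ U : N → N → N → B → B → B → R, ∀ r s m p q w,
      U r s m p q w = D.T (D.x r * D.j p * D.x s * D.j q * D.x m * D.j w) :=
    ⟨_, fun _ _ _ _ _ _ => rfl⟩
  obtain ⟨V, hV⟩ : ∃ V : N → N → N → B → B → B → R, ∀ r s m p q w,
      V r s m p q w = D.T (D.y r * D.j p * D.y s * D.j q * D.y m * D.j w) :=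
    ⟨_, fun _ _ _ _ _ _ => rfl⟩
  have hT1 : ∀ a b, D.T (a + b) = D.T a + D.T b := fun a b => map_add D.d.lam a b
  have hT2 : ∀ (c : R) a, D.T (c • a) = c * D.T a := fun c a => map_smul D.d.lam c a
  -- linearity
  have Φ2a : ∀ a b b' c d, Φ a (b + b') c d = Φ a b c d + Φ a b' c d := by
    intro a b b' c d
    simp only [hΦ, map_add, mul_add, add_mul]
  have Φ2s : ∀ (t : R) a b c d, Φ a (t • b) c d = t * Φ a b c d := by
    intro t a b c d
    simp only [hΦ, map_smul, mul_smul_comm, smul_mul_assoc, smul_eq_mul]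
  have Φ4a : ∀ a b c d d', Φ a b c (d + d') = Φ a b c d + Φ a b c d' := by
    intro a b c d d'
    simp only [hΦ, map_add, mul_add]
  have Φ4s : ∀ (t : R) a b c d, Φ a b c (t • d) = t * Φ a b c d := by
    intro t a b c d
    simp only [hΦ, map_smul, mul_smul_comm, smul_eq_mul]
  have U2a : ∀ r s m p q q' w, U r s m p (q + q') w = U r s m p q w + U r s m p q' w := by
    intro r s m p q q' w
    simp only [hU, map_add, mul_add, add_mul, hT1]
  have U2s : ∀ r s m (t : R) p q w, U r s m p (t • q) w = t * U r s m p q w := by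
    intro r s m t p q w
    simp only [hU, map_smul, mul_smul_comm, smul_mul_assoc, hT2]
  have U3a : ∀ r s m p q w w', U r s m p q (w + w') = U r s m p q w + U r s m p q w' := by
    intro r s m p q w w'
    simp only [hU, map_add, mul_add, hT1]
  have U3s : ∀ r s m (t : R) p q w, U r s m p q (t • w) = t * U r s m p q w := by
    intro r s m t p q w
    simp only [hU, map_smul, mul_smul_comm, hT2]
  have V2a : ∀ r s m p q q' w, V r s m p (q + q') w = V r s m p q w + V r s m p q' w := by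
    intro r s m p q q' w
    simp only [hV, map_add, mul_add, add_mul, hT1]
  have V2s : ∀ r s m (t : R) p q w, V r s m p (t • q) w = t * V r s m p q w := by
    intro r s m t p q w
    simp only [hV, map_smul, mul_smul_comm, smul_mul_assoc, hT2]
  have V3a : ∀ r s m p q w w', V r s m p q (w + w') = V r s m p q w + V r s m p q w' := by
    intro r s m p q w w'
    simp only [hV, map_add, mul_add, hT1]
  have V3s : ∀ r s m (t : R) p q w, V r s m p q (t • w) = t * V r s m p q w := by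
    intro r s m t p q w
    simp only [hV, map_smul, mul_smul_comm, hT2]
  -- step 1
  have h1 : D.H4 D.x D.y D.x D.y f1 f2 f3 f4 = D.GB f1 f2 f3 f4 +
      ∑ r, ∑ s, ∑ i1, ∑ i2, ∑ i3, ∑ i4, ∑ m, ∑ i, ∑ l,
        Φ (D.c.b' i1) (D.c.b' i2) (D.c.b' i3) (D.c.b' i4) *
          (U r s m (D.c.b i1) (D.c.b i2 * D.c.b i) (D.c.b' l) *
            V r s m (D.c.b i3) (D.c.b i4 * D.c.b l) (D.c.b' i)) := by
    unfold Net.H4 Net.GB
    simp only [← Finset.sum_add_distrib]
    refine Finset.sum_congr rfl fun r _ => Finset.sum_congr rfl fun s _ =>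
      Finset.sum_congr rfl fun i1 _ => Finset.sum_congr rfl fun i2 _ =>
      Finset.sum_congr rfl fun i3 _ => Finset.sum_congr rfl fun i4 _ => ?_
    have h2 : D.T (D.x r * D.u i1 * D.x s * D.u i2 * D.y r * D.u i3 * D.y s * D.u i4) =
        D.T ((D.x r * D.u i1 * D.x s * D.u i2) * (D.y r * D.u i3 * D.y s * D.u i4)) := by
      simp only [mul_assoc]
    rw [h2, T_split, mul_add, Finset.mul_sum]
    refine congrArg₂ (· + ·) ?_ ?_
    · refine Finset.sum_congr rfl fun k _ => ?_
      simp only [mul_assoc]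
    · simp only [Finset.mul_sum]
      refine Finset.sum_congr rfl fun m _ => Finset.sum_congr rfl fun i _ =>
        Finset.sum_congr rfl fun l _ => ?_
      have h3 : D.T (D.x r * D.u i1 * D.x s * D.u i2 * (D.u i * D.x m * D.u' l)) =
          U r s m (D.c.b i1) (D.c.b i2 * D.c.b i) (D.c.b' l) := by
        rw [hU, map_mul]
        simp only [mul_assoc]
        rfl
      have h4 : D.T (D.u l * D.y m * D.u' i * (D.y r * D.u i3 * D.y s * D.u i4)) =
          V r s m (D.c.b i3) (D.c.b i4 * D.c.b l) (D.c.b' i) := by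
        rw [hV, map_mul, T_comm]
        simp only [mul_assoc]
        rfl
      rw [h3, h4]
      show D.w4 f1 f2 f3 f4 _ _ _ _ * _ = _
      rw [hΦ]
      rfl
  have h5 : ∀ r s, ∑ i1, ∑ i2, ∑ i3, ∑ i4, ∑ m, ∑ i, ∑ l,
        Φ (D.c.b' i1) (D.c.b' i2) (D.c.b' i3) (D.c.b' i4) *
          (U r s m (D.c.b i1) (D.c.b i2 * D.c.b i) (D.c.b' l) *
            V r s m (D.c.b i3) (D.c.b i4 * D.c.b l) (D.c.b' i)) =
      ∑ m, ∑ i1, ∑ i2, ∑ i3, ∑ k1, ∑ k2, ∑ k3,
        Φ (D.c.b' i1) (D.c.b' k3 * D.c.b' i2) (D.c.b' k1) (D.c.b' i3 * D.c.b' k2) *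
          (U r s m (D.c.b i1) (D.c.b i2) (D.c.b i3) *
            V r s m (D.c.b k1) (D.c.b k2) (D.c.b k3)) := by
    intro r s
    rw [ord1]
    refine Finset.sum_congr rfl fun m _ => ?_
    -- M2 on the corners 2 and 4
    have h6 : ∀ i l a c, ∑ b, ∑ d, Φ (D.c.b' a) (D.c.b' b) (D.c.b' c) (D.c.b' d) *
          (U r s m (D.c.b a) (D.c.b b * D.c.b i) (D.c.b' l) *
            V r s m (D.c.b c) (D.c.b d * D.c.b l) (D.c.b' i)) =
        ∑ b, ∑ d, Φ (D.c.b' a) (D.c.b i * D.c.b' b) (D.c.b' c) (D.c.b l * D.c.b' d) *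
          (U r s m (D.c.b a) (D.c.b b) (D.c.b' l) *
            V r s m (D.c.b c) (D.c.b d) (D.c.b' i)) := by
      intro i l a c
      rw [m2 D.c D.cs (F := fun p q => ∑ d, Φ (D.c.b' a) q (D.c.b' c) (D.c.b' d) *
          (U r s m (D.c.b a) p (D.c.b' l) *
            V r s m (D.c.b c) (D.c.b d * D.c.b l) (D.c.b' i))) (Bil.sum fun d => by
          constructor
          · intro p p' q; rw [U2a]; ring
          · intro p q q'; rw [Φ2a]; ring
          · intro t p q; rw [U2s, smul_eq_mul]; ring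
          · intro t p q; rw [Φ2s, smul_eq_mul]; ring) (D.c.b i)]
      refine Finset.sum_congr rfl fun b _ => ?_
      rw [m2 D.c D.cs (F := fun p q => Φ (D.c.b' a) (D.c.b i * D.c.b' b) (D.c.b' c) q *
          (U r s m (D.c.b a) (D.c.b b) (D.c.b' l) * V r s m (D.c.b c) p (D.c.b' i))) (by
          constructor
          · intro p p' q; rw [V2a]; ring
          · intro p q q'; rw [Φ4a]; ring
          · intro t p q; rw [V2s, smul_eq_mul]; ring
          · intro t p q; rw [Φ4s, smul_eq_mul]; ring) (D.c.b l)]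
    have h7 : ∑ i, ∑ l, ∑ a, ∑ c, ∑ b, ∑ d, Φ (D.c.b' a) (D.c.b' b) (D.c.b' c) (D.c.b' d) *
          (U r s m (D.c.b a) (D.c.b b * D.c.b i) (D.c.b' l) *
            V r s m (D.c.b c) (D.c.b d * D.c.b l) (D.c.b' i)) =
        ∑ i, ∑ l, ∑ a, ∑ c, ∑ b, ∑ d,
          Φ (D.c.b' a) (D.c.b i * D.c.b' b) (D.c.b' c) (D.c.b l * D.c.b' d) *
          (U r s m (D.c.b a) (D.c.b b) (D.c.b' l) *
            V r s m (D.c.b c) (D.c.b d) (D.c.b' i)) :=
      Finset.sum_congr rfl fun i _ => Finset.sum_congr rfl fun l _ =>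
        Finset.sum_congr rfl fun a _ => Finset.sum_congr rfl fun c _ => h6 i l a c
    rw [h7]
    -- M3 for i
    rw [m3 D.c D.cs (F := fun p q => ∑ l, ∑ a, ∑ c, ∑ b, ∑ d,
          Φ (D.c.b' a) (p * D.c.b' b) (D.c.b' c) (D.c.b l * D.c.b' d) *
          (U r s m (D.c.b a) (D.c.b b) (D.c.b' l) * V r s m (D.c.b c) (D.c.b d) q))
        (Bil.sum fun l => Bil.sum fun a => Bil.sum fun c => Bil.sum fun b => Bil.sum fun d => by
          constructor
          · intro p p' q; rw [add_mul, Φ2a]; ring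
          · intro p q q'; rw [V3a]; ring
          · intro t p q; rw [smul_mul_assoc, Φ2s, smul_eq_mul]; ring
          · intro t p q; rw [V3s, smul_eq_mul]; ring)]
    -- M3 for l
    have h8 : ∀ i, ∑ l, ∑ a, ∑ c, ∑ b, ∑ d,
          Φ (D.c.b' a) (D.c.b' i * D.c.b' b) (D.c.b' c) (D.c.b l * D.c.b' d) *
          (U r s m (D.c.b a) (D.c.b b) (D.c.b' l) * V r s m (D.c.b c) (D.c.b d) (D.c.b i)) =
        ∑ l, ∑ a, ∑ c, ∑ b, ∑ d,
          Φ (D.c.b' a) (D.c.b' i * D.c.b' b) (D.c.b' c) (D.c.b' l * D.c.b' d) *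
          (U r s m (D.c.b a) (D.c.b b) (D.c.b l) * V r s m (D.c.b c) (D.c.b d) (D.c.b i)) := by
      intro i
      exact m3 D.c D.cs (F := fun p q => ∑ a, ∑ c, ∑ b, ∑ d,
          Φ (D.c.b' a) (D.c.b' i * D.c.b' b) (D.c.b' c) (p * D.c.b' d) *
          (U r s m (D.c.b a) (D.c.b b) q * V r s m (D.c.b c) (D.c.b d) (D.c.b i)))
        (Bil.sum fun a => Bil.sum fun c => Bil.sum fun b => Bil.sum fun d => by
          constructor
          · intro p p' q; rw [add_mul, Φ4a]; ring
          · intro p q q'; rw [U3a]; ring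
          · intro t p q; rw [smul_mul_assoc, Φ4s, smul_eq_mul]; ring
          · intro t p q; rw [U3s, smul_eq_mul]; ring)
    rw [Finset.sum_congr rfl fun i _ => h8 i, ord2]
  rw [h1]
  refine congrArg₂ (· + ·) rfl ?_
  unfold Net.G6
  refine Finset.sum_congr rfl fun r _ => Finset.sum_congr rfl fun s _ => ?_
  rw [h5]
  simp only [hΦ, hU, hV]
  rfl

end main

end Pool.Agent.PFD.H48
end
end -- Pool.Agent.Helper48_PFD.RES

section -- Pool.Agent.Helper64_PFD.SUM

/-!
# Squad PFD, row SUM: the sum over the corners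
-/

open scoped BigOperators

noncomputable section

namespace Pool.Agent.PFD.H64

open Pool.Agent.PFC.B1

section
variable {R B A I J N : Type} [CommRing R] [Ring B] [Algebra R B] [Ring A] [Algebra R A]
  [Fintype I] [Fintype J] [Fintype N]

/-- the sum over the four places -/
lemma w4_sum (D : Net R B A I J N) {v : B →ₗ[R] B} {De : B} (h : D.Der v De) (a b c e : B) :
    D.w4 v (I1 R B) (I1 R B) (I1 R B) a b c e + D.w4 (I1 R B) v (I1 R B) (I1 R B) a b c e +
      D.w4 (I1 R B) (I1 R B) v (I1 R B) a b c e + D.w4 (I1 R B) (I1 R B) (I1 R B) v a b c e =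
      - D.w4 (Lz R De) (I1 R B) (I1 R B) (I1 R B) a b c e := by
  unfold Net.w4
  simp only [LinearMap.id_coe, id_eq, LinearMap.mulLeft_apply]
  have h1 : v (a * b * c * e) = v a * b * c * e + a * v b * c * e + a * b * v c * e +
      a * b * c * v e := by
    rw [h.der, h.der, h.der]
    noncomm_ring
  have h2 := h.div (a * b * c * e)
  rw [h1, map_add, map_add, map_add, D.cs (a * b * c * e) De] at h2
  rw [h2]
  simp only [mul_assoc]

/-- the sum over the six places -/
lemma w6_sum (D : Net R B A I J N) {v : B →ₗ[R] B} {De : B} (h : D.Der v De)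
    (a b c e f g : B) :
    D.w6 v (I1 R B) (I1 R B) (I1 R B) (I1 R B) (I1 R B) a b c e f g +
      D.w6 (I1 R B) v (I1 R B) (I1 R B) (I1 R B) (I1 R B) a b c e f g +
      D.w6 (I1 R B) (I1 R B) v (I1 R B) (I1 R B) (I1 R B) a b c e f g +
      D.w6 (I1 R B) (I1 R B) (I1 R B) v (I1 R B) (I1 R B) a b c e f g +
      D.w6 (I1 R B) (I1 R B) (I1 R B) (I1 R B) v (I1 R B) a b c e f g +
      D.w6 (I1 R B) (I1 R B) (I1 R B) (I1 R B) (I1 R B) v a b c e f g =
      - D.w6 (Lz R De) (I1 R B) (I1 R B) (I1 R B) (I1 R B) (I1 R B) a b c e f g := by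
  unfold Net.w6
  simp only [LinearMap.id_coe, id_eq, LinearMap.mulLeft_apply]
  have h1 : v (a * b * c * e * f * g) = v a * b * c * e * f * g + a * v b * c * e * f * g +
      a * b * v c * e * f * g + a * b * c * v e * f * g + a * b * c * e * v f * g +
      a * b * c * e * f * v g := by
    rw [h.der, h.der, h.der, h.der, h.der]
    noncomm_ring
  have h2 := h.div (a * b * c * e * f * g)
  rw [h1, map_add, map_add, map_add, map_add, map_add, D.cs (a * b * c * e * f * g) De] at h2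
  rw [h2]
  simp only [mul_assoc]

lemma g6_add (D : Net R B A I J N) (W W' : B → B → B → B → B → B → R) :
    D.G6 W + D.G6 W' = D.G6 fun a b c e f g => W a b c e f g + W' a b c e f g := by
  unfold Net.G6
  simp only [← Finset.sum_add_distrib, add_mul]

lemma g6_neg (D : Net R B A I J N) (W : B → B → B → B → B → B → R) :
    - D.G6 W = D.G6 fun a b c e f g => - W a b c e f g := by
  unfold Net.G6
  simp only [← Finset.sum_neg_distrib, neg_mul]

end

/-- SUM -/
theorem sum : SumStmt := by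
  intro R B A I J N _ _ _ _ _ _ _ _ D v De h
  refine ⟨fun X X' Y Y' => ?_, ?_, ?_⟩
  · unfold Net.H4
    simp only [← Finset.sum_add_distrib, ← Finset.sum_neg_distrib]
    refine Finset.sum_congr rfl fun r _ => Finset.sum_congr rfl fun s _ =>
      Finset.sum_congr rfl fun i1 _ => Finset.sum_congr rfl fun i2 _ =>
      Finset.sum_congr rfl fun i3 _ => Finset.sum_congr rfl fun i4 _ => ?_
    rw [← add_mul, ← add_mul, ← add_mul, w4_sum D h, neg_mul]
  · unfold Net.GB
    simp only [← Finset.sum_add_distrib, ← Finset.sum_neg_distrib]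
    refine Finset.sum_congr rfl fun r _ => Finset.sum_congr rfl fun s _ =>
      Finset.sum_congr rfl fun i1 _ => Finset.sum_congr rfl fun i2 _ =>
      Finset.sum_congr rfl fun i3 _ => Finset.sum_congr rfl fun i4 _ =>
      Finset.sum_congr rfl fun k _ => ?_
    rw [← add_mul, ← add_mul, ← add_mul, w4_sum D h, neg_mul]
  · rw [g6_add, g6_add, g6_add, g6_add, g6_add, g6_neg]
    congr 1
    funext a b c e f g
    exact w6_sum D h a b c e f g

end Pool.Agent.PFD.H64
end
end -- Pool.Agent.Helper64_PFD.SUM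

section -- Pool.Agent.Helper81_PFD.FOT

/-!
Squad PFD, row FOT (helper81): the first order theorem.
-/

set_option autoImplicit false

open scoped BigOperators

namespace Pool.Agent.PFD.H81

open Pool.Agent.PFC.B1

/-- row FOT -/
theorem fot (ntx : NtxStmt) (rtx : RtxStmt) (rtu : RtuStmt) (trc : TrcStmt) (nid : NidStmt) :
    FotStmt := by
  intro K B A I J N _ _ _ _ _ _ _ _ _ _ _ c d sp s hcs hds hort v De hder hcen hdiv
  obtain ⟨D, hDc, hDd, hj, hpr⟩ := ntx K B A I J c d sp hcs hds hort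
  revert s
  rw [← hj, ← hpr]
  intro s
  obtain ⟨s0, hs0⟩ := rtx K B A I J J D
  have hcomm : ∀ b, D.j b * D.j De = D.j De * D.j b := by
    intro b
    rw [← map_mul, ← map_mul, hcen]
  obtain ⟨h1, h2, -⟩ := rtu K B A N (Option (J × I)) D.j D.pr s s0 (D.j De) hcomm
  have hDer : D.Der v De := by
    refine ⟨hder, hcen, ?_⟩
    rw [hDc]
    exact hdiv
  refine ⟨h2, ?_⟩
  intro f g hf hg
  have h3 := trc K B A I J J D De f g hcen (fun w => by rw [hf w, h1, hs0]) hg
  have h4 := nid K B A I J J D v De hDer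
  rw [h3, add_assoc, h4, add_zero]

end Pool.Agent.PFD.H81
end -- Pool.Agent.Helper81_PFD.FOT

section -- Pool.Agent.Helper82_PFD.RO6

/-! Squad PFD, row RO6 (helper82): rotation of the hexagon. -/

noncomputable section

namespace Pool.Agent.PFD.H82

open Pool.Agent.PFC.B1 Pool.Agent.PFD

theorem rot3 {α R : Type} [Fintype α] [AddCommMonoid R] (F : α → α → α → R) :
    ∑ a, ∑ b, ∑ c, F a b c = ∑ a, ∑ b, ∑ c, F c a b := by
  symm
  calc ∑ a, ∑ b, ∑ c, F c a b = ∑ a, ∑ c, ∑ b, F c a b :=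
        Finset.sum_congr rfl fun a _ => Finset.sum_comm
    _ = ∑ c, ∑ a, ∑ b, F c a b := Finset.sum_comm

theorem rot9 {α β R : Type} [Fintype α] [Fintype β] [AddCommMonoid R]
    (F : α → α → α → β → β → β → β → β → β → R) :
    ∑ r, ∑ s, ∑ m, ∑ i1, ∑ i2, ∑ i3, ∑ k1, ∑ k2, ∑ k3, F r s m i1 i2 i3 k1 k2 k3 =
    ∑ r, ∑ s, ∑ m, ∑ i1, ∑ i2, ∑ i3, ∑ k1, ∑ k2, ∑ k3, F m r s i3 i1 i2 k3 k1 k2 := by
  rw [rot3]
  refine Finset.sum_congr rfl fun r _ => Finset.sum_congr rfl fun s _ =>
    Finset.sum_congr rfl fun m _ => ?_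
  rw [rot3]
  refine Finset.sum_congr rfl fun i1 _ => Finset.sum_congr rfl fun i2 _ =>
    Finset.sum_congr rfl fun i3 _ => ?_
  rw [rot3]

theorem ro6 : Ro6Stmt := by
  intro R B A I J N _ _ _ _ _ _ _ _ D f1 f2 f3 f4 f5 f6
  unfold Net.G6
  rw [rot9]
  refine Finset.sum_congr rfl fun r _ => Finset.sum_congr rfl fun s _ =>
    Finset.sum_congr rfl fun m _ => Finset.sum_congr rfl fun i1 _ =>
    Finset.sum_congr rfl fun i2 _ => Finset.sum_congr rfl fun i3 _ =>
    Finset.sum_congr rfl fun k1 _ => Finset.sum_congr rfl fun k2 _ =>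
    Finset.sum_congr rfl fun k3 _ => ?_
  have hT : ∀ a b, D.T (a * b) = D.T (b * a) := fun a b => D.ds a b
  have h1 : D.T (D.x m * D.u i3 * D.x r * D.u i1 * D.x s * D.u i2) =
      D.T (D.x r * D.u i1 * D.x s * D.u i2 * D.x m * D.u i3) := by
    have h := hT (D.x m * D.u i3) (D.x r * D.u i1 * D.x s * D.u i2)
    simp only [mul_assoc] at h ⊢
    exact h
  have h2 : D.T (D.y m * D.u k3 * D.y r * D.u k1 * D.y s * D.u k2) =
      D.T (D.y r * D.u k1 * D.y s * D.u k2 * D.y m * D.u k3) := by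
    have h := hT (D.y m * D.u k3) (D.y r * D.u k1 * D.y s * D.u k2)
    simp only [mul_assoc] at h ⊢
    exact h
  have h3 : D.w6 f1 f2 f3 f4 f5 f6 (D.c.b' i3) (D.c.b' k2) (D.c.b' i1) (D.c.b' k3) (D.c.b' i2)
      (D.c.b' k1) = D.w6 f3 f4 f5 f6 f1 f2 (D.c.b' i1) (D.c.b' k3) (D.c.b' i2) (D.c.b' k1)
      (D.c.b' i3) (D.c.b' k2) := by
    have h := D.cs (f1 (D.c.b' i3) * f2 (D.c.b' k2)) (f3 (D.c.b' i1) * f4 (D.c.b' k3) *
      f5 (D.c.b' i2) * f6 (D.c.b' k1))
    unfold Net.w6
    simp only [mul_assoc] at h ⊢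
    exact h
  rw [h1, h2, h3]

end Pool.Agent.PFD.H82
end
end -- Pool.Agent.Helper82_PFD.RO6

section -- Pool.Agent.Helper84_PFD.GB1

/-!
Squad PFD, row GB1: the `B`-part with `v` in the first corner.
-/

set_option autoImplicit false

open scoped BigOperators

namespace Pool.Agent.PFD.H84

open Pool.Agent.PFD Pool.Agent.PFC.B1

section rules

variable {R B A I J N : Type} [CommRing R] [Ring B] [Algebra R B] [Ring A] [Algebra R A]
    [Fintype I] [Fintype J] [Fintype N]

/-- the rule M2 -/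
theorem m2 (D : Net R B A I J N) {X : Type} [AddCommGroup X] [Module R X] (F : B →ₗ[R] B →ₗ[R] X)
    (x : B) : ∑ i, F (D.c.b i * x) (D.c.b' i) = ∑ i, F (D.c.b i) (x * D.c.b' i) := by
  have h1 : ∀ i, F (D.c.b i) (x * D.c.b' i) =
      ∑ l, D.c.lam (x * D.c.b' i * D.c.b l) • F (D.c.b i) (D.c.b' l) := by
    intro i
    conv_lhs => rw [← D.c.h2 (x * D.c.b' i)]
    rw [map_sum]
    simp only [map_smul]
  have h2 : ∀ l, F (D.c.b l * x) (D.c.b' l) =
      ∑ i, D.c.lam (x * D.c.b' i * D.c.b l) • F (D.c.b i) (D.c.b' l) := by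
    intro l
    conv_lhs => rw [← D.c.h1 (D.c.b l * x)]
    rw [map_sum, LinearMap.sum_apply]
    refine Finset.sum_congr rfl fun i _ => ?_
    rw [map_smul, LinearMap.smul_apply, ← mul_assoc, D.cs _ x, ← mul_assoc]
  simp only [h1, h2]
  exact Finset.sum_comm

/-- the rule M4 -/
theorem m4 (D : Net R B A I J N) (w : A) (a : B) :
    ∑ i, D.c.lam (a * D.c.b' i) * D.T (w * D.u i) = D.T (w * D.j a) := by
  conv_rhs => rw [← D.c.h1 a]
  unfold Net.T Net.u
  rw [map_sum, Finset.mul_sum, map_sum]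
  refine Finset.sum_congr rfl fun i _ => ?_
  rw [map_smul, mul_smul_comm, map_smul, smul_eq_mul, D.cs]

theorem cyc (D : Net R B A I J N) (a b : A) : D.T (a * b) = D.T (b * a) := D.ds a b

/-- left linearity of the right connection -/
theorem ry_mul (D : Net R B A I J N) (v : B →ₗ[R] B) (b : B) (a : A) :
    D.Ry v (D.j b * a) = D.j b * D.Ry v a := by
  unfold Net.Ry
  rw [Finset.mul_sum]
  refine Finset.sum_congr rfl fun s _ => ?_
  rw [Finset.mul_sum]
  refine Finset.sum_congr rfl fun i _ => ?_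
  rw [Finset.mul_sum]
  have h : ∑ l, D.T (D.u i * D.x s * D.j (D.c.b l * b) * a) •
        (D.j (D.c.b' l) * D.y s * D.j (v (D.c.b' i))) =
      ∑ l, D.T (D.u i * D.x s * D.j (D.c.b l) * a) •
        (D.j (b * D.c.b' l) * D.y s * D.j (v (D.c.b' i))) :=
    m2 D (LinearMap.mk₂ R (fun p q : B =>
    D.T (D.u i * D.x s * D.j p * a) • (D.j q * D.y s * D.j (v (D.c.b' i))))
    (by
      intro p p' q
      simp only [map_add, mul_add, add_mul, Net.T, add_smul])
    (by
      intro r p q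
      simp only [map_smul, mul_smul_comm, smul_mul_assoc, Net.T, smul_eq_mul, mul_smul])
    (by
      intro p q q'
      simp only [map_add, add_mul, smul_add])
    (by
      intro r p q
      simp only [map_smul, smul_mul_assoc]
      rw [smul_comm])) b
  unfold Net.u Net.u'
  refine Eq.trans ?_ (h.trans ?_)
  · refine Finset.sum_congr rfl fun l _ => ?_
    rw [map_mul, ← mul_assoc, ← mul_assoc]
    rfl
  · refine Finset.sum_congr rfl fun l _ => ?_
    rw [map_mul, mul_smul_comm]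
    congr 1
    noncomm_ring

end rules

/-- module GB1 -/
theorem gb1 : Gb1Stmt := by
  intro R B A I J N _ _ _ _ _ _ _ _ D v
  have comm4 : ∀ G : N → I → I → I → R, ∑ s, ∑ i1, ∑ i2, ∑ k, G s i1 i2 k =
      ∑ k, ∑ s, ∑ i1, ∑ i2, G s i1 i2 k := fun G =>
    (Finset.sum_congr rfl fun s _ => Finset.sum_congr rfl fun i1 _ => Finset.sum_comm).trans
      ((Finset.sum_congr rfl fun s _ => Finset.sum_comm).trans Finset.sum_comm)
  -- the summand
  obtain ⟨Z, hZ⟩ : ∃ Z : N → I → I → N → I → I → R, ∀ r i k s i1 i2, Z r i k s i1 i2 =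
      D.T (D.u i1 * D.x s * D.u i2 * (D.u k * D.x r)) *
        D.T (D.u' k * D.y r * D.u i * (D.u' i2 * D.y s * D.j (v (D.c.b' i1))) * D.u' i) :=
    ⟨_, fun _ _ _ _ _ _ => rfl⟩
  have hS : D.S1 v = ∑ r, ∑ i, ∑ k, ∑ s, ∑ i1, ∑ i2, Z r i k s i1 i2 := by
    unfold Net.S1
    refine Finset.sum_congr rfl fun r _ => Finset.sum_congr rfl fun i _ =>
      Finset.sum_congr rfl fun k _ => ?_
    have e1 : D.u' k * D.y r * D.u i * D.u k * D.Ry v (D.x r) * D.u' i =
        D.u' k * D.y r * D.u i * (D.Ry v (D.u k * D.x r)) * D.u' i := by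
      unfold Net.u
      rw [ry_mul]
      noncomm_ring
    rw [e1]
    unfold Net.Ry
    simp only [Finset.mul_sum, Finset.sum_mul, Net.T, map_sum]
    refine Finset.sum_congr rfl fun s _ => Finset.sum_congr rfl fun i1 _ =>
      Finset.sum_congr rfl fun i2 _ => ?_
    rw [hZ, mul_smul_comm, smul_mul_assoc, map_smul, smul_eq_mul]
    rfl
  have hG : ∀ r s i1 i2, ∑ i3, ∑ i4, ∑ k,
      D.w4 v (I1 R B) (I1 R B) (I1 R B) (D.c.b' i1) (D.c.b' i2) (D.c.b' i3) (D.c.b' i4) *
      (D.T (D.x r * D.u i1 * D.x s * D.u i2 * D.u k) *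
        D.T (D.u' k * D.y r * D.u i3 * D.y s * D.u i4)) =
      ∑ k, ∑ i, Z r i k s i1 i2 := by
    intro r s i1 i2
    have e1 : ∀ k i3, ∑ i4, D.w4 v (I1 R B) (I1 R B) (I1 R B) (D.c.b' i1) (D.c.b' i2)
        (D.c.b' i3) (D.c.b' i4) * (D.T (D.x r * D.u i1 * D.x s * D.u i2 * D.u k) *
        D.T (D.u' k * D.y r * D.u i3 * D.y s * D.u i4)) =
        D.T (D.x r * D.u i1 * D.x s * D.u i2 * D.u k) *
          D.T (D.u' k * D.y r * D.u i3 * D.y s * D.j (v (D.c.b' i1) * D.c.b' i2 * D.c.b' i3)) := by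
      intro k i3
      rw [← m4, Finset.mul_sum]
      refine Finset.sum_congr rfl fun i4 _ => ?_
      unfold Net.w4
      simp only [LinearMap.id_apply]
      ring
    have e2 : ∀ k, ∑ i3, D.T (D.u' k * D.y r * D.u i3 * D.y s *
        D.j (v (D.c.b' i1) * D.c.b' i2 * D.c.b' i3)) =
        ∑ i3, D.T (D.u' k * D.y r * D.u i3 * (D.u' i2 * D.y s * D.j (v (D.c.b' i1))) *
          D.u' i3) := by
      intro k
      have h : ∑ i, D.T (D.u' k * D.y r * D.j (D.c.b i * D.c.b' i2) * D.y s *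
            D.j (v (D.c.b' i1)) * D.j (D.c.b' i)) =
          ∑ i, D.T (D.u' k * D.y r * D.j (D.c.b i) * D.y s *
            D.j (v (D.c.b' i1)) * D.j (D.c.b' i2 * D.c.b' i)) :=
        m2 D (LinearMap.mk₂ R (fun p q : B =>
        D.T (D.u' k * D.y r * D.j p * D.y s * D.j (v (D.c.b' i1)) * D.j q))
        (by
          intro p p' q
          simp only [map_add, mul_add, add_mul, Net.T])
        (by
          intro r p q
          simp only [map_smul, mul_smul_comm, smul_mul_assoc, Net.T])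
        (by
          intro p q q'
          simp only [map_add, mul_add, Net.T])
        (by
          intro r p q
          simp only [map_smul, mul_smul_comm, Net.T])) (D.c.b' i2)
      refine Eq.trans ?_ (h.symm.trans ?_)
      · refine Finset.sum_congr rfl fun i _ => ?_
        unfold Net.u
        rw [map_mul, map_mul, map_mul]
        congr 1
        noncomm_ring
      · refine Finset.sum_congr rfl fun i _ => ?_
        unfold Net.u Net.u'
        rw [map_mul]
        congr 1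
        noncomm_ring
    refine ((Finset.sum_congr rfl fun i3 _ => Finset.sum_comm).trans Finset.sum_comm).trans ?_
    refine Finset.sum_congr rfl fun k _ => ?_
    simp only [e1]
    rw [← Finset.mul_sum, e2, Finset.mul_sum]
    refine Finset.sum_congr rfl fun i _ => ?_
    rw [hZ]
    congr 1
    have e3 : D.x r * D.u i1 * D.x s * D.u i2 * D.u k =
      D.x r * (D.u i1 * D.x s * D.u i2 * D.u k) := by noncomm_ring
    rw [e3, cyc]
    congr 1
    noncomm_ring
  rw [hS]
  unfold Net.GB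
  refine Finset.sum_congr rfl fun r _ => ?_
  simp only [hG]
  rw [comm4 (fun s i1 i2 k => ∑ i, Z r i k s i1 i2)]
  simp only [comm4]
  exact Finset.sum_comm

end Pool.Agent.PFD.H84
end -- Pool.Agent.Helper84_PFD.GB1

section -- Pool.Agent.Helper91_PFD.NID

/-!
# Squad PFD, row NID: the network identity
-/

set_option autoImplicit false

open scoped BigOperators

noncomputable section

namespace Pool.Agent.PFD.H91

open Pool.Agent.PFC.B1

theorem G6_add {R B A I J N : Type} [CommRing R] [Ring B] [Algebra R B] [Ring A] [Algebra R A]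
    [Fintype I] [Fintype J] [Fintype N] (D : Net R B A I J N)
    (W W' : B → B → B → B → B → B → R) :
    D.G6 (fun a1 a2 a3 a4 a5 a6 => W a1 a2 a3 a4 a5 a6 + W' a1 a2 a3 a4 a5 a6) =
      D.G6 W + D.G6 W' := by
  unfold Net.G6
  simp only [add_mul, Finset.sum_add_distrib]

/-- row NID -/
theorem nid (sum : SumStmt) (rot : RotStmt) (ro6 : Ro6Stmt) (res : ResStmt) (gbz : GbzStmt)
    (gb1 : Gb1Stmt) (gb3 : Gb3Stmt) (s1a : S1aStmt) (s1b : S1bStmt) (w13 : W13Stmt) :
    NidStmt := by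
  intro K B A I J N _ _ _ _ _ _ _ _ _ D v De hv
  have hop : D.op.Der v De := ⟨hv.der, hv.cen, hv.div⟩
  obtain ⟨s1, s2, s3⟩ := sum K B A I J N D v De hv
  have hs1 := s1 D.x D.y D.x D.y
  have hgz := gbz K B A I J N D De hv.cen
  have hg1 := gb1 K B A I J N D v
  have hg3 := (gb3 K B A I J N D v).trans (gb1 K B A I J N D.op v)
  have ha := s1a K B A I J N D v De hv
  have ha' : D.op.S1 v + D.S1 v = - (D.op.e1 v + D.op.E De) := s1a K B A I J N D.op v De hop
  obtain ⟨hb1, hb2⟩ := s1b K B A I J N D v De hv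
  have hw := w13 K B A I J N D v De hv
  have hr := rot K B A I J N D
  have r2 := hr D.x D.y D.x D.y (I1 K B) v (I1 K B) (I1 K B)
  have r3 := (hr D.x D.y D.x D.y (I1 K B) (I1 K B) v (I1 K B)).trans
    (hr D.x D.y D.y D.x (I1 K B) v (I1 K B) (I1 K B))
  have r4 := ((hr D.x D.y D.x D.y (I1 K B) (I1 K B) (I1 K B) v).trans
    (hr D.x D.y D.y D.x (I1 K B) (I1 K B) v (I1 K B))).trans
    (hr D.y D.x D.y D.x (I1 K B) v (I1 K B) (I1 K B))
  have h6 := ro6 K B A I J N D
  have p5 := h6 v (I1 K B) (I1 K B) (I1 K B) (I1 K B) (I1 K B)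
  have p3 := h6 (I1 K B) (I1 K B) (I1 K B) (I1 K B) v (I1 K B)
  have m6 := h6 (I1 K B) v (I1 K B) (I1 K B) (I1 K B) (I1 K B)
  have m4 := h6 (I1 K B) (I1 K B) (I1 K B) (I1 K B) (I1 K B) v
  have hres := res K B A I J N D
  have e1 : D.H4 D.x D.y D.x D.y v (I1 K B) (I1 K B) (I1 K B) =
      D.GB v (I1 K B) (I1 K B) (I1 K B) +
        D.G6 (D.w6 v (I1 K B) (I1 K B) (I1 K B) (I1 K B) (I1 K B)) := by
    rw [hres]
    congr 2
    funext a1 a2 a3 a4 a5 a6
    simp only [Net.w6, LinearMap.id_apply, mul_assoc]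
  have e2 : D.H4 D.x D.y D.x D.y (I1 K B) v (I1 K B) (I1 K B) =
      D.GB (I1 K B) v (I1 K B) (I1 K B) +
        (D.G6 (D.w6 (I1 K B) v (I1 K B) (I1 K B) (I1 K B) (I1 K B)) +
          D.G6 (D.w6 (I1 K B) (I1 K B) v (I1 K B) (I1 K B) (I1 K B))) := by
    rw [hres, ← G6_add]
    congr 2
    funext a1 a2 a3 a4 a5 a6
    simp only [Net.w6, LinearMap.id_apply, mul_assoc, hv.der, add_mul, mul_add, map_add]
  have e3 : D.H4 D.x D.y D.x D.y (I1 K B) (I1 K B) v (I1 K B) =
      D.GB (I1 K B) (I1 K B) v (I1 K B) +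
        D.G6 (D.w6 (I1 K B) (I1 K B) (I1 K B) v (I1 K B) (I1 K B)) := by
    rw [hres]
    congr 2
    funext a1 a2 a3 a4 a5 a6
    simp only [Net.w6, LinearMap.id_apply, mul_assoc]
  have e4 : D.H4 D.x D.y D.x D.y (I1 K B) (I1 K B) (I1 K B) v =
      D.GB (I1 K B) (I1 K B) (I1 K B) v +
        (D.G6 (D.w6 (I1 K B) (I1 K B) (I1 K B) (I1 K B) v (I1 K B)) +
          D.G6 (D.w6 (I1 K B) (I1 K B) (I1 K B) (I1 K B) (I1 K B) v)) := by
    rw [hres, ← G6_add]
    congr 2
    funext a1 a2 a3 a4 a5 a6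
    simp only [Net.w6, LinearMap.id_apply, mul_assoc, hv.der, add_mul, mul_add, map_add]
  have e0 : D.H4 D.x D.y D.x D.y (Lz K De) (I1 K B) (I1 K B) (I1 K B) =
      D.GB (Lz K De) (I1 K B) (I1 K B) (I1 K B) +
        D.G6 (D.w6 (Lz K De) (I1 K B) (I1 K B) (I1 K B) (I1 K B) (I1 K B)) := by
    rw [hres]
    congr 2
    funext a1 a2 a3 a4 a5 a6
    simp only [Net.w6, LinearMap.id_apply, LinearMap.mulLeft_apply, mul_assoc]
  have h2 : (2 : K) ≠ 0 := two_ne_zero
  have hS : D.S1 v + D.op.S1 v = 0 := by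
    have h3 : (2 : K) * (D.S1 v + D.op.S1 v) = 0 := by linear_combination ha + ha' - hb1 - hb2
    exact (mul_eq_zero.1 h3).resolve_left h2
  have hP5 := p5.symm
  have hP3 := (p5.trans p3).symm
  have hM6 := m6.symm
  have hM4 := (m6.trans m4).symm
  have hpm : D.G6 (D.w6 v (I1 K B) (I1 K B) (I1 K B) (I1 K B) (I1 K B)) +
      D.G6 (D.w6 (I1 K B) v (I1 K B) (I1 K B) (I1 K B) (I1 K B)) = D.E De := by
    linear_combination 2 * hS + 2 * hg1 + 2 * hg3 + hgz - s2 + hM4 - hP3 - hP5 - hM6 - hw - r3 +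
      r2 + r4 + e1 + e3 - e2 - e4
  linear_combination -3 * hpm - hP3 - hM4 - hP5 - hM6 + s3 + hgz + e0

end Pool.Agent.PFD.H91
end
end -- Pool.Agent.Helper91_PFD.NID

section -- Pool.Agent.Helper91_PFD.RTU

/-!
# Squad PFD, row RTU: the relative trace is intrinsic
-/

set_option autoImplicit false

open scoped BigOperators

noncomputable section

namespace Pool.Agent.PFD.H91

open Pool.Agent.PFC.B1

/-- row RTU -/
theorem rtu : RtuStmt := by
  intro R B A N N' _ _ _ _ _ _ _ j pr s s' a ha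
  refine ⟨?_, ?_, ?_⟩
  · unfold RF.rt
    have h1 : ∀ k, s.x k * a * s.y k =
        ∑ l, s'.x l * a * (j (pr (s'.y l * s.x k)) * s.y k) := by
      intro k
      conv_lhs => rw [← s'.e1 (s.x k)]
      rw [Finset.sum_mul, Finset.sum_mul]
      refine Finset.sum_congr rfl fun l _ => ?_
      rw [mul_assoc (s'.x l), ha, ← mul_assoc (s'.x l), mul_assoc (s'.x l * a)]
    rw [Finset.sum_congr rfl fun k _ => h1 k, Finset.sum_comm]
    refine Finset.sum_congr rfl fun l _ => ?_
    rw [← Finset.mul_sum, s.e2]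
  · intro c
    unfold RF.rt
    have h1 : ∀ k, c * (s.x k * a * s.y k) =
        ∑ l, s.x l * a * (j (pr (s.y l * c * s.x k)) * s.y k) := by
      intro k
      rw [← mul_assoc, ← mul_assoc]
      conv_lhs => rw [← s.e1 (c * s.x k)]
      rw [Finset.sum_mul, Finset.sum_mul]
      refine Finset.sum_congr rfl fun l _ => ?_
      rw [mul_assoc (s.x l), ha, ← mul_assoc (s.x l), mul_assoc (s.x l * a), mul_assoc (s.y l)]
    rw [Finset.mul_sum, Finset.sum_congr rfl fun k _ => h1 k, Finset.sum_comm, Finset.sum_mul]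
    refine Finset.sum_congr rfl fun l _ => ?_
    rw [← Finset.mul_sum, s.e2, ← mul_assoc]
  · intro w hw
    unfold RF.rt
    rw [Finset.mul_sum]
    refine Finset.sum_congr rfl fun k _ => ?_
    rw [← mul_assoc, ← hw]
    simp only [mul_assoc]

end Pool.Agent.PFD.H91
end
end -- Pool.Agent.Helper91_PFD.RTU

section -- Pool.Agent.Helper91_PFD.RTX

/-!
# Squad PFD, row RTX: the relative Frobenius system of the family
-/

set_option autoImplicit false

open scoped BigOperators

noncomputable section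

namespace Pool.Agent.PFD.H91

open Pool.Agent.PFC.B1

section

variable {R B A I J N : Type} [CommRing R] [Ring B] [Algebra R B] [Ring A] [Algebra R A]
    [Fintype I] [Fintype J] [Fintype N] (D : Net R B A I J N)

theorem jpr2 (a : A) : D.j (D.pr a) = ∑ l, D.d.lam (a * D.j (D.c.b l)) • D.j (D.c.b' l) := by
  conv_lhs => rw [← D.c.h2 (D.pr a)]
  rw [map_sum]
  refine Finset.sum_congr rfl fun l _ => ?_
  rw [map_smul, D.ort, D.pr_r]

theorem jpr1 (a : A) : D.j (D.pr a) = ∑ l, D.d.lam (D.j (D.c.b' l) * a) • D.j (D.c.b l) := by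
  conv_lhs => rw [← D.c.h1 (D.pr a)]
  rw [map_sum]
  refine Finset.sum_congr rfl fun l _ => ?_
  rw [map_smul, D.ort, D.pr_l]

end

/-- row RTX -/
theorem rtx : RtxStmt := by
  intro R B A I J N _ _ _ _ _ _ _ _ D
  refine ⟨{ x := fun o => o.elim 1 (fun p => D.u p.2 * D.x p.1)
            y := fun o => o.elim 1 (fun p => D.y p.1 * D.u' p.2)
            e1 := fun a => ?_
            e2 := fun a => ?_ }, fun a => ?_⟩
  · rw [Fintype.sum_option, Fintype.sum_prod_type]
    show 1 * D.j (D.pr (1 * a)) + ∑ r, ∑ i, D.u i * D.x r * D.j (D.pr (D.y r * D.u' i * a)) = a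
    have h : ∑ r, ∑ i, D.u i * D.x r * D.j (D.pr (D.y r * D.u' i * a)) = a - D.j (D.pr a) := by
      rw [← D.cx a]
      refine Finset.sum_congr rfl fun r _ => Finset.sum_congr rfl fun i _ => ?_
      rw [jpr2, Finset.mul_sum]
      refine Finset.sum_congr rfl fun l _ => ?_
      rw [mul_smul_comm, D.ds (D.y r * D.u' i * a)]
      show D.d.lam (D.j (D.c.b l) * (D.y r * D.j (D.c.b' i) * a)) •
        (D.j (D.c.b i) * D.x r * D.j (D.c.b' l)) = _
      simp only [mul_assoc]
    rw [h, one_mul, one_mul]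
    abel
  · rw [Fintype.sum_option, Fintype.sum_prod_type]
    show D.j (D.pr (a * 1)) * 1 + ∑ r, ∑ i, D.j (D.pr (a * (D.u i * D.x r))) *
      (D.y r * D.u' i) = a
    have h : ∑ r, ∑ i, D.j (D.pr (a * (D.u i * D.x r))) * (D.y r * D.u' i) =
        a - D.j (D.pr a) := by
      rw [← D.cy a]
      refine Finset.sum_congr rfl fun r _ => ?_
      rw [Finset.sum_comm]
      refine Finset.sum_congr rfl fun i _ => ?_
      rw [jpr1, Finset.sum_mul]
      refine Finset.sum_congr rfl fun l _ => ?_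
      rw [smul_mul_assoc, ← mul_assoc (D.j (D.c.b' l)), D.ds (D.j (D.c.b' l) * a)]
      show D.d.lam (D.j (D.c.b i) * D.x r * (D.j (D.c.b' l) * a)) •
        (D.j (D.c.b l) * (D.y r * D.j (D.c.b' i))) = _
      simp only [mul_assoc]
    rw [h, mul_one, mul_one]
    abel
  · unfold RF.rt Net.rx
    rw [Fintype.sum_option, Fintype.sum_prod_type]
    show 1 * a * 1 + _ = _
    rw [one_mul, mul_one]
    rfl

end Pool.Agent.PFD.H91
end
end -- Pool.Agent.Helper91_PFD.RTX

section -- Pool.Agent.Helper94_PFD.ADJ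

/-!
# Squad PFD, row ADJ: the adjoint of the right connection
-/

set_option autoImplicit false

open scoped BigOperators

noncomputable section

namespace Pool.Agent.PFD.H94

open Pool.Agent.PFC.B1 Pool.Agent.PFD

section
variable {R B I : Type} [CommRing R] [Ring B] [Algebra R B] [Fintype I]

/-- a bilinear function as a linear map -/
def lm {X : Type} [AddCommGroup X] [Module R X] {F : B → B → X} (h : Bil R F) :
    B →ₗ[R] B →ₗ[R] X :=
  LinearMap.mk₂ R F h.a1 h.s1 h.a2 h.s2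

theorem lm_apply {X : Type} [AddCommGroup X] [Module R X] {F : B → B → X} (h : Bil R F)
    (a b : B) : lm h a b = F a b := rfl

/-- M3 -/
theorem m3 (c : FS R B I) (cs : ∀ x y, c.lam (x * y) = c.lam (y * x)) {X : Type}
    [AddCommGroup X] [Module R X] {F : B → B → X} (h : Bil R F) :
    ∑ i, F (c.b i) (c.b' i) = ∑ i, F (c.b' i) (c.b i) := by
  have h1 : ∀ i, F (c.b i) (c.b' i) = ∑ k, c.lam (c.b i * c.b k) • F (c.b' k) (c.b' i) := by
    intro i
    have e : F (c.b i) (c.b' i) = lm h (∑ k, c.lam (c.b i * c.b k) • c.b' k) (c.b' i) := by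
      rw [c.h2]; rfl
    rw [e, map_sum, LinearMap.sum_apply]
    refine Finset.sum_congr rfl fun k _ => ?_
    rw [map_smul, LinearMap.smul_apply, lm_apply]
  have h2 : ∀ k, F (c.b' k) (c.b k) = ∑ i, c.lam (c.b i * c.b k) • F (c.b' k) (c.b' i) := by
    intro k
    have e : F (c.b' k) (c.b k) = lm h (c.b' k) (∑ i, c.lam (c.b k * c.b i) • c.b' i) := by
      rw [c.h2]; rfl
    rw [e, map_sum]
    refine Finset.sum_congr rfl fun i _ => ?_
    rw [map_smul, lm_apply, cs]
  simp only [h1, h2]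
  exact Finset.sum_comm

/-- M5 -/
theorem m5 (c : FS R B I) {X : Type}
    [AddCommGroup X] [Module R X] {F : B → B → X} (h : Bil R F) (v : B →ₗ[R] B) (De : B)
    (der : ∀ a b, v (a * b) = v a * b + a * v b) (div : ∀ a, c.lam (v a) = - c.lam (a * De)) :
    ∑ i, F (c.b i) (v (c.b' i)) = - ∑ i, F (v (c.b i) + c.b i * De) (c.b' i) := by
  have h1 : ∀ i, F (c.b i) (v (c.b' i)) = ∑ k, c.lam (v (c.b' i) * c.b k) • F (c.b i) (c.b' k) := by
    intro i
    have e : F (c.b i) (v (c.b' i)) =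
        lm h (c.b i) (∑ k, c.lam (v (c.b' i) * c.b k) • c.b' k) := by
      rw [c.h2]; rfl
    rw [e, map_sum]
    refine Finset.sum_congr rfl fun k _ => ?_
    rw [map_smul, lm_apply]
  have h2 : ∀ k, F (v (c.b k) + c.b k * De) (c.b' k) =
      ∑ i, - c.lam (v (c.b' i) * c.b k) • F (c.b i) (c.b' k) := by
    intro k
    have e : F (v (c.b k) + c.b k * De) (c.b' k) =
        lm h (∑ i, c.lam (c.b' i * (v (c.b k) + c.b k * De)) • c.b i) (c.b' k) := by
      rw [c.h1]; rfl
    rw [e, map_sum, LinearMap.sum_apply]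
    refine Finset.sum_congr rfl fun i _ => ?_
    rw [map_smul, LinearMap.smul_apply, lm_apply]
    have e2 : c.lam (c.b' i * (v (c.b k) + c.b k * De)) = - c.lam (v (c.b' i) * c.b k) := by
      have e3 := div (c.b' i * c.b k)
      rw [der, map_add] at e3
      rw [mul_add, map_add, ← mul_assoc]
      linear_combination e3
    rw [e2]
  simp only [h1, h2]
  rw [Finset.sum_comm, ← Finset.sum_neg_distrib]
  refine Finset.sum_congr rfl fun k _ => ?_
  rw [← Finset.sum_neg_distrib]
  refine Finset.sum_congr rfl fun i _ => ?_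
  rw [neg_smul, neg_neg]

end

section
variable {R B A I J N : Type} [CommRing R] [Ring B] [Algebra R B] [Ring A] [Algebra R A]
    [Fintype I] [Fintype J] [Fintype N]

/-- bilinear functions made of two traces -/
theorem bilT (D : Net R B A I J N) (g g' : B →ₗ[R] B) (a1 a2 a3 a4 : A) :
    Bil R (fun p q : B => D.T (a1 * D.j (g p) * a2) * D.T (a3 * D.j (g' q) * a4)) where
  a1 a a' b := by
    simp only [map_add, mul_add, add_mul, Net.T]
  a2 a b b' := by
    simp only [map_add, mul_add, add_mul, Net.T]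
  s1 r a b := by
    simp only [map_smul, mul_smul_comm, smul_mul_assoc, Net.T, smul_eq_mul]
    ring
  s2 r a b := by
    simp only [map_smul, mul_smul_comm, smul_mul_assoc, Net.T, smul_eq_mul]
    ring

theorem T_comm (D : Net R B A I J N) (a b : A) : D.T (a * b) = D.T (b * a) := D.ds a b

/-- the double M3 move -/
theorem key (D : Net R B A I J N) (g : B →ₗ[R] B) (a b : A) :
    ∑ s, ∑ i, ∑ l, D.T (D.j (g (D.c.b i)) * D.y s * D.u l * a) *
      D.T (D.u' l * D.x s * D.u' i * b) =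
    ∑ s, ∑ i, ∑ l, D.T (D.u i * D.x s * D.u l * b) *
      D.T (a * D.j (g (D.c.b' l)) * D.y s * D.u' i) := by
  refine Finset.sum_congr rfl fun s _ => ?_
  have h1 : ∀ i, ∑ l, D.T (D.j (g (D.c.b i)) * D.y s * D.u l * a) *
      D.T (D.u' l * D.x s * D.u' i * b) = ∑ l, D.T (D.j (g (D.c.b i)) * D.y s * D.u' l * a) *
      D.T (D.u l * D.x s * D.u' i * b) := by
    intro i
    have h := m3 D.c D.cs (bilT D LinearMap.id LinearMap.id (D.j (g (D.c.b i)) * D.y s) a 1
      (D.x s * D.u' i * b))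
    simp only [LinearMap.id_coe, id_eq, one_mul] at h
    refine (Finset.sum_congr rfl fun l _ => ?_).trans (h.trans (Finset.sum_congr rfl fun l _ => ?_))
    · simp only [Net.u, Net.u', mul_assoc]
    · simp only [Net.u, Net.u', mul_assoc]
  simp only [h1]
  rw [Finset.sum_comm]
  refine Finset.sum_congr rfl fun l _ => ?_
  have h := m3 D.c D.cs (bilT D g LinearMap.id 1 (D.y s * D.u' l * a) (D.u l * D.x s) b)
  simp only [LinearMap.id_coe, id_eq, one_mul] at h
  refine (Finset.sum_congr rfl fun i _ => ?_).trans (h.trans (Finset.sum_congr rfl fun i _ => ?_))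
  · simp only [Net.u, Net.u', mul_assoc]
  · rw [mul_comm]
    simp only [Net.u, Net.u', mul_assoc]
    congr 1
    rw [T_comm D a]
    simp only [mul_assoc]

/-- CQ -/
theorem cq (D : Net R B A I J N) (a : A) :
    ∑ s, ∑ i, ∑ l, D.T (D.u i * D.x s * D.u l * a) • (D.u' l * D.y s * D.u' i) =
      a - D.j (D.pr a) := by
  rw [← D.cy a]
  refine Finset.sum_congr rfl fun s _ => ?_
  rw [Finset.sum_comm]
  rw [Finset.sum_comm (f := fun i l => D.d.lam (D.j (D.c.b l) * D.x s * D.j (D.c.b' i) * a) •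
    (D.j (D.c.b i) * D.y s * D.j (D.c.b' l)))]
  rw [Finset.sum_comm]
  refine Finset.sum_congr rfl fun i _ => ?_
  have hb : Bil R (fun p q : B => D.T (D.j (D.c.b i) * D.x s * D.j p * a) •
      (D.j q * D.y s * D.j (D.c.b' i))) := by
    constructor
    · intro a a' b
      simp only [map_add, mul_add, add_mul, Net.T, add_smul]
    · intro a a' b
      simp only [map_add, add_mul, smul_add]
    · intro r a b
      simp only [map_smul, mul_smul_comm, smul_mul_assoc, Net.T, smul_assoc]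
    · intro r a b
      simp only [map_smul, smul_mul_assoc]
      rw [smul_comm]
  exact m3 D.c D.cs hb

theorem adj : AdjStmt := by
  intro R B A I J N _ _ _ _ _ _ _ _ D v De hv a b
  have e1 : D.T (D.op.Ry v a * b) = ∑ s, ∑ l, ∑ i, D.T (D.u i * D.y s * D.u l * a) *
      D.T (D.u' l * D.x s * D.j (v (D.c.b' i)) * b) := by
    have h : D.op.Ry v a = ∑ s, ∑ i, ∑ l, D.T (D.u i * D.y s * D.u l * a) •
      (D.u' l * D.x s * D.j (v (D.c.b' i))) := rfl
    rw [h]
    simp only [Finset.sum_mul, Net.T, map_sum]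
    refine Finset.sum_congr rfl fun s _ => ?_
    rw [Finset.sum_comm]
    refine Finset.sum_congr rfl fun l _ => Finset.sum_congr rfl fun i _ => ?_
    rw [smul_mul_assoc, map_smul, smul_eq_mul]
  have e2 : ∀ s l, ∑ i, D.T (D.u i * D.y s * D.u l * a) *
      D.T (D.u' l * D.x s * D.j (v (D.c.b' i)) * b) =
      - ∑ i, D.T (D.j (v (D.c.b i)) * D.y s * D.u l * a) *
      D.T (D.u' l * D.x s * D.u' i * b) - ∑ i, D.T (D.j (De * D.c.b i) * D.y s * D.u l * a) *
      D.T (D.u' l * D.x s * D.u' i * b) := by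
    intro s l
    have h := m5 D.c (bilT D LinearMap.id LinearMap.id 1 (D.y s * D.u l * a)
      (D.u' l * D.x s) b) v De hv.der hv.div
    simp only [LinearMap.id_coe, id_eq, one_mul] at h
    rw [← neg_add', ← Finset.sum_add_distrib]
    refine (Finset.sum_congr rfl fun i _ => ?_).trans (h.trans ?_)
    · simp only [Net.u, Net.u', mul_assoc]
    · congr 1
      refine Finset.sum_congr rfl fun i _ => ?_
      rw [← hv.cen]
      simp only [Net.u, Net.u', mul_assoc, map_add, add_mul, Net.T]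
  have e3 : D.T (a * (D.Ly v b + D.j De * (b - D.j (D.pr b)))) =
      (∑ s, ∑ i, ∑ l, D.T (D.u i * D.x s * D.u l * b) *
        D.T (a * D.j (v (D.c.b' l)) * D.y s * D.u' i)) +
      ∑ s, ∑ i, ∑ l, D.T (D.u i * D.x s * D.u l * b) *
        D.T (a * D.j (De * D.c.b' l) * D.y s * D.u' i) := by
    rw [← cq D b]
    unfold Net.Ly
    simp only [Net.T, mul_add, Finset.mul_sum, map_add, map_sum]
    congr 1
    · refine Finset.sum_congr rfl fun s _ => Finset.sum_congr rfl fun i _ =>
        Finset.sum_congr rfl fun l _ => ?_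
      rw [mul_smul_comm, map_smul, smul_eq_mul]
      simp only [mul_assoc]
    · refine Finset.sum_congr rfl fun s _ => Finset.sum_congr rfl fun i _ =>
        Finset.sum_congr rfl fun l _ => ?_
      rw [mul_smul_comm, mul_smul_comm, map_smul, smul_eq_mul, map_mul D.j]
      simp only [mul_assoc, Net.u']
  have k1 := key D v a b
  have k2 := key D (Lz R De) a b
  simp only [LinearMap.mulLeft_apply] at k2
  rw [e1, e3, ← k1, ← k2]
  simp only [e2, Finset.sum_sub_distrib, Finset.sum_neg_distrib]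
  rw [neg_add']
  congr 1
  · congr 1
    exact Finset.sum_congr rfl fun s _ => Finset.sum_comm
  · exact Finset.sum_congr rfl fun s _ => Finset.sum_comm

end

end Pool.Agent.PFD.H94
end
end -- Pool.Agent.Helper94_PFD.ADJ

section -- Pool.Agent.PFD.D1.Final

/-!
# Squad PFD, block D1: the first order theorem, assembled (helper78)
-/

namespace Pool.Agent.PFD.H78

theorem trc : TrcStmt :=
  H10.trc H91.rtx H91.rtu (H13.tzb H41.trf) (H69.tpb H41.trf) H81.dpp H25.kap

theorem nid : NidStmt :=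
  H91.nid H64.sum H41.rot H82.ro6 H48.res H34.gbz H84.gb1 H19.gb3
    (H92.s1a H94.adj H81.con H25.kap) (H77.s1b H25.kap) (H41.w13 H33.lnk H81.con H99.gau)

/-- The first order theorem. -/
theorem fot : FotStmt := H81.fot H24.ntx H91.rtx H91.rtu trc nid

end Pool.Agent.PFD.H78
end -- Pool.Agent.PFD.D1.Final
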