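import Pool.Agent.Helper12_AWB.B030
import Pool.Agent.Helper12_AWB.B031
import Pool.Agent.Helper12_AWB.B036
import Pool.Agent.Helper12_AWB.B042

/-!
# Merged copies (generated) of the modules

* `Pool.Agent.Helper13_PFD.BDV`
* `Pool.Agent.Helper13_PFD.BWF`
* `Pool.Agent.Helper77_PFC.CAS`
* `Pool.Agent.Helper17_PFD.CHF`
* `Pool.Agent.Helper19_PFD.MEQ`
* `Pool.Agent.Helper20_PFD.LAT`
* `Pool.Agent.Helper24_PFD.BRF`
* `Pool.Agent.Helper30_PFD.LFB`
* `Pool.Agent.Helper81_PFD.KLT`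
* `Pool.Agent.Helper32_PFE.KKL`
* `Pool.Agent.Helper33_PFD.ING`
* `Pool.Agent.Helper3_PFD.ZET`
* `Pool.Agent.Helper41_PFD.BSP`
* `Pool.Agent.Helper48_PFD.LAX`
* `Pool.Agent.Helper52_PFD.ORT`
* `Pool.Agent.Helper58_PFC.RNG`
* `Pool.Agent.Helper65_PFD.CZW`
* `Pool.Agent.Helper65_PFD.INX`
* `Pool.Agent.Helper65_PFD.LFA`
* `Pool.Agent.Helper68_PFD.CRS`
* `Pool.Agent.Helper72_PFD.HGR`
* `Pool.Agent.Helper80_PFD.ZON`
* `Pool.Agent.Helper89_PFD.HSV`
* `Pool.Agent.Helper90_PFD.KBC`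
* `Pool.Agent.Helper91_PFD.FPG`
* `Pool.Agent.Helper91_PFD.FPX`
* `Pool.Agent.Helper92_PFD.WGF`
* `Pool.Agent.PFD.D4h46.TTR`
* `Pool.Agent.Helper36_PFD.AsmD4`
-/

set_option autoImplicit false

section -- Pool.Agent.Helper13_PFD.BDV

/-!
Squad PFD, row BDV (helper13): base change of the derivation.
-/

set_option autoImplicit false

open scoped BigOperators TensorProduct

noncomputable section

namespace Pool.Agent.Helper13_PFD

open Pool.Agent.PFD Pool.Agent.PFD.D4

theorem bdv : BdvStmt := by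
  intro R K Γ _ _ _ _ _ v P N hv hP hN
  refine ⟨LinearMap.baseChange K v, fun k a => LinearMap.baseChange_tmul _ _ _, ?_, ?_⟩
  · intro a b
    induction a using TensorProduct.induction_on with
    | zero => simp only [zero_mul, map_zero, add_zero]
    | add x y hx hy =>
      rw [add_mul, map_add, hx, hy, map_add, add_mul, add_mul]
      abel
    | tmul k a =>
      induction b using TensorProduct.induction_on with
      | zero => simp only [mul_zero, map_zero, add_zero]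
      | add x y hx hy =>
        rw [mul_add, map_add, hx, hy, map_add, mul_add, mul_add]
        abel
      | tmul k' a' =>
        simp only [Algebra.TensorProduct.tmul_mul_tmul, LinearMap.baseChange_tmul, hv,
          TensorProduct.tmul_add]
  · intro b
    let T : ℕ → Set (K ⊗[R] Γ) := fun n =>
      {x | ∃ y : ℕ → Γ, (∀ i, y i ∈ P) ∧ x = (1 : K) ⊗ₜ[R] ((List.range n).map y).prod}
    have h1 : LinearMap.baseChange K v b ∈ Submodule.span K (T 1) := by
      induction b using TensorProduct.induction_on with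
      | zero => rw [map_zero]; exact Submodule.zero_mem _
      | add x y hx hy => rw [map_add]; exact Submodule.add_mem _ hx hy
      | tmul k a =>
        have h : LinearMap.baseChange K v (k ⊗ₜ[R] a) = k • ((1 : K) ⊗ₜ[R] v a) := by
          rw [LinearMap.baseChange_tmul, TensorProduct.smul_tmul', smul_eq_mul, mul_one]
        rw [h]
        refine Submodule.smul_mem _ _ (Submodule.subset_span ⟨fun _ => v a, fun _ => hP a, ?_⟩)
        simp
    have h2 : ∀ n, (LinearMap.baseChange K v b) ^ n ∈ Submodule.span K (T n) := by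
      intro n
      induction n with
      | zero =>
        refine Submodule.subset_span ⟨fun _ => 0, fun _ => P.zero_mem, ?_⟩
        rw [pow_zero, List.range_zero, List.map_nil, List.prod_nil]
        rfl
      | succ n ih =>
        rw [pow_succ]
        have h3 := Submodule.mul_mem_mul ih h1
        rw [Submodule.span_mul_span] at h3
        refine Submodule.span_mono ?_ h3
        rintro _ ⟨_, ⟨y, hy, rfl⟩, _, ⟨z, hz, rfl⟩, rfl⟩
        refine ⟨fun i => if i = n then z 0 else y i, ?_, ?_⟩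
        · intro i
          show (if i = n then z 0 else y i) ∈ P
          split_ifs
          · exact hz 0
          · exact hy i
        · show (1 : K) ⊗ₜ[R] _ * (1 : K) ⊗ₜ[R] _ = _
          have e1 : ((List.range (n + 1)).map fun i => if i = n then z 0 else y i).prod =
              ((List.range n).map y).prod * z 0 := by
            rw [List.range_succ, List.map_append, List.prod_append]
            have e2 : (List.range n).map (fun i => if i = n then z 0 else y i) =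
                (List.range n).map y := by
              refine List.map_congr_left fun i hi => ?_
              rw [List.mem_range] at hi
              rw [if_neg hi.ne]
            rw [e2]
            simp
          have e3 : ((List.range 1).map z).prod = z 0 := by simp
          rw [Algebra.TensorProduct.tmul_mul_tmul, one_mul, e1, e3]
    refine ⟨N, ?_⟩
    have h4 := h2 N
    have h5 : T N ⊆ {0} := by
      rintro _ ⟨y, hy, rfl⟩
      rw [hN y hy, TensorProduct.tmul_zero]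
      rfl
    have h6 := Submodule.span_mono (R := K) h5 h4
    rw [Submodule.span_zero_singleton] at h6
    exact (Submodule.mem_bot K).mp h6

end Pool.Agent.Helper13_PFD
end
end -- Pool.Agent.Helper13_PFD.BDV

section -- Pool.Agent.Helper13_PFD.BWF

/-!
Squad PFD, row BWF (helper13).
-/

set_option autoImplicit false

open scoped BigOperators

noncomputable section

namespace Pool.Agent.Helper13_PFD

open Pool.Agent.PFD Pool.Agent.PFD.D2b

theorem bwf_fsum {W M : Type} [AddCommMonoid M] (i1 i2 : Fintype W) (f : W → M) :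
    (@Finset.sum W M _ (@Finset.univ W i1) f) = @Finset.sum W M _ (@Finset.univ W i2) f := by
  rw [Subsingleton.elim i1 i2]

theorem bwf : BwfStmt := by
  classical
  intro R F V E Γ _ _ _ _ _ ℓ c o φ W fW z _ _ bo
  let _ := bo.fi
  have h1 : ∀ x, ∑ i, ∑ w, bo.t (bo.om w⁻¹ * bo.x' i * x) • (bo.x i * bo.om w) = x := by
    intro x
    rw [← bo.t1 x]
    exact Finset.sum_congr rfl fun i _ => by rw [bo.t1 x]; exact bwf_fsum _ _ _
  have h2 : ∀ x, ∑ i, ∑ w, bo.t (x * (bo.x i * bo.om w)) • (bo.om w⁻¹ * bo.x' i) = x := by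
    intro x
    rw [← bo.t2 x]
    exact Finset.sum_congr rfl fun i _ => by rw [bo.t2 x]; exact bwf_fsum _ _ _
  have hd : ∀ i j (u w : W), bo.t (bo.om u⁻¹ * bo.x' i * (bo.x j * bo.om w)) =
      if j = i ∧ w = u then 1 else 0 := by
    intro i j u w
    have h := h1 (bo.x j * bo.om w)
    have h' : ∑ s : bo.I × W, bo.t (bo.om s.2⁻¹ * bo.x' s.1 * (bo.x j * bo.om w)) •
        bo.bs s = bo.bs (j, w) := by
      rw [Fintype.sum_prod_type, bo.bs_eq j w]
      conv_rhs => rw [← h]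
      exact Finset.sum_congr rfl fun i _ => Finset.sum_congr rfl fun u _ => by rw [bo.bs_eq]
    have h3 := congrArg (fun y => bo.bs.repr y (i, u)) h'
    simp only [map_sum, map_smul, Module.Basis.repr_self, Finsupp.coe_finsetSum,
      Finset.sum_apply, Finsupp.smul_apply, Finsupp.single_apply, smul_eq_mul, mul_ite, mul_one,
      mul_zero, Finset.sum_ite_eq', Finset.mem_univ, if_true] at h3
    rw [h3]
    simp only [Prod.mk.injEq]
  refine ⟨bo.I, bo.fi, { lam := bo.t, sym := bo.ts, om := bo.om, cf := bo.x, cf' := bo.x', h1 := h1, h2 := h2, d1 := ?_, d0 := ?_, ph := bo.ph, phb := bo.phb, nrm := bo.nrm }, rfl, rfl⟩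
  · intro i w
    rw [hd, if_pos ⟨rfl, rfl⟩]
  · intro i j u w h
    rw [hd, if_neg]
    rintro ⟨rfl, rfl⟩
    rcases h with h | h
    · exact h rfl
    · exact h rfl

end Pool.Agent.Helper13_PFD
end
end -- Pool.Agent.Helper13_PFD.BWF

section -- Pool.Agent.Helper77_PFC.CAS

set_option autoImplicit false

/-!
PFC row CAS: the Casimir identity.
-/

namespace Pool.Agent.PFC.H77

open Pool.Agent.PFC.B1

theorem cas : CasStmt := by
  intro R A I X _ _ _ _ _ _ c B x
  have h1 : ∀ i, B (x * c.b i) (c.b' i) =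
      ∑ j, c.lam (c.b' j * x * c.b i) • B (c.b j) (c.b' i) := by
    intro i
    conv_lhs => rw [← c.h1 (x * c.b i)]
    rw [map_sum, LinearMap.sum_apply]
    apply Finset.sum_congr rfl
    intro j _
    rw [map_smul, LinearMap.smul_apply, mul_assoc]
  have h2 : ∀ j, B (c.b j) (c.b' j * x) =
      ∑ i, c.lam (c.b' j * x * c.b i) • B (c.b j) (c.b' i) := by
    intro j
    conv_lhs => rw [← c.h2 (c.b' j * x)]
    rw [map_sum]
    apply Finset.sum_congr rfl
    intro i _
    rw [map_smul]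
  rw [Finset.sum_congr rfl fun i _ => h1 i, Finset.sum_congr rfl fun j _ => h2 j,
    Finset.sum_comm]

end Pool.Agent.PFC.H77
end -- Pool.Agent.Helper77_PFC.CAS

section -- Pool.Agent.Helper17_PFD.CHF

/-!
Squad PFD, block D2c, row CHF: change of the relative Frobenius family in a `WFr`.
-/

open scoped BigOperators

noncomputable section

namespace Pool.Agent.PFD.D2b.H17

open MulOpposite
open Pool.Agent.PFC.B1 (BiM FS Sep)
open Pool.Agent.PFD.D2

/-- the bilinear map `(x, y) ↦ L1 y • L2 x` -/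
def bl {R Γ A : Type} [CommRing R] [AddCommGroup Γ] [Module R Γ] [AddCommGroup A] [Module R A]
    (L1 : Γ →ₗ[R] R) (L2 : Γ →ₗ[R] A) : Γ →ₗ[R] Γ →ₗ[R] A :=
  LinearMap.mk₂ R (fun x y => L1 y • L2 x)
    (fun x x' y => by rw [map_add, smul_add])
    (fun c x y => by rw [map_smul, smul_comm])
    (fun x y y' => by rw [map_add, add_smul])
    (fun c x y => by rw [map_smul, smul_assoc])

theorem chf (hCzw : CzwStmt) : ChfStmt := by
  intro R Γ W I I' A Ω _ _ _ _ _ _ _ _ _ _ _ D D' z z' hom hz hz' hzz hlam j pr hT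
  obtain ⟨T⟩ := hT
  have hzz' : z' * z = 1 := by rw [← hz, hzz]
  let τ : Ω → (A →ₗ[R] R) := fun ω =>
    T.τ ω ∘ₗ (LinearMap.mulLeft R (j z)) ∘ₗ (LinearMap.mulRight R (j z))
  have hτ : ∀ ω a, τ ω a = T.τ ω (j z * (a * j z)) := fun ω a => rfl
  have jz : ∀ γ, j z * j γ = j γ * j z := fun γ => by rw [← map_mul, ← map_mul, hz]
  have m1 : ∀ w ω, T.m (w • ω) = j (D.om w) * T.m ω * j (D.om w⁻¹) := by
    intro w ω
    rw [hom, hom, T.m1]
  have t1 : ∀ w ω a, τ (w • ω) (j (D.om w) * a * j (D.om w⁻¹)) = τ ω a := by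
    intro w ω a
    rw [hτ, hτ, hom, hom, ← T.t1 w ω (j z * (a * j z))]
    congr 1
    calc j z * (j (D'.om w) * a * j (D'.om w⁻¹) * j z)
        = (j z * j (D'.om w)) * a * (j (D'.om w⁻¹) * j z) := by simp only [mul_assoc]
      _ = (j (D'.om w) * j z) * a * (j z * j (D'.om w⁻¹)) := by rw [jz, jz]
      _ = j (D'.om w) * (j z * (a * j z)) * j (D'.om w⁻¹) := by simp only [mul_assoc]
  refine ⟨{ m := T.m, τ := τ, m1 := m1, t1 := t1, id := ?_ }⟩
  intro a
  -- the first bilinear map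
  let β1 : Γ →ₗ[R] Γ →ₗ[R] A := ∑ k, ∑ w, ∑ ω,
    bl (τ ω ∘ₗ LinearMap.mulRight R (j (D.cf k * D.om w)) ∘ₗ LinearMap.mulRight R a ∘ₗ
        j.toLinearMap)
      (LinearMap.mulRight R (j (D.om w⁻¹ * D.cf' k)) ∘ₗ LinearMap.mulRight R (T.m ω) ∘ₗ
        j.toLinearMap)
  have hβ1 : ∀ x y, β1 x y = ∑ k, ∑ w, ∑ ω, τ ω (j y * a * j (D.cf k * D.om w)) •
      (j x * T.m ω * j (D.om w⁻¹ * D.cf' k)) := by
    intro x y
    simp only [β1, LinearMap.sum_apply]
    rfl
  have bal1 : ∀ x y u, β1 (x * D.om u) y = β1 x (D.om u * y) := by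
    intro x y u
    rw [hβ1, hβ1]
    refine Finset.sum_congr rfl fun k _ => ?_
    symm
    have hG : ∀ w, (∑ ω, τ ω (j (D.om u * y) * a * j (D.cf k * D.om w)) •
        (j x * T.m ω * j (D.om w⁻¹ * D.cf' k))) =
        ∑ ω, τ ω (j y * a * j (D.cf k * D.om (w * u))) •
          (j (x * D.om u) * T.m ω * j (D.om (w * u)⁻¹ * D.cf' k)) := by
      intro w
      rw [← Equiv.sum_comp (MulAction.toPerm u)]
      refine Finset.sum_congr rfl fun ω _ => ?_
      show τ (u • ω) (j (D.om u * y) * a * j (D.cf k * D.om w)) •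
        (j x * T.m (u • ω) * j (D.om w⁻¹ * D.cf' k)) = _
      have e1 : j (D.om u * y) * a * j (D.cf k * D.om w) =
          j (D.om u) * (j y * a * j (D.cf k * D.om (w * u))) * j (D.om u⁻¹) := by
        have : D.om w = D.om w * D.om u * D.om u⁻¹ := by
          rw [mul_assoc, ← map_mul, mul_inv_cancel, map_one, mul_one]
        conv_lhs => rw [this]
        simp only [map_mul, mul_assoc]
      have e2 : j x * T.m (u • ω) * j (D.om w⁻¹ * D.cf' k) =
          j (x * D.om u) * T.m ω * j (D.om (w * u)⁻¹ * D.cf' k) := by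
        rw [m1, mul_inv_rev]
        simp only [map_mul, mul_assoc]
      rw [e1, t1, e2]
    rw [Finset.sum_congr rfl fun w _ => hG w]
    exact Equiv.sum_comp (Equiv.mulRight u) (fun w => ∑ ω,
      τ ω (j y * a * j (D.cf k * D.om w)) •
        (j (x * D.om u) * T.m ω * j (D.om w⁻¹ * D.cf' k)))
  -- the second bilinear map
  let β2 : Γ →ₗ[R] Γ →ₗ[R] A := ∑ w, ∑ ω, ∑ l,
    (bl (τ ω ∘ₗ LinearMap.mulLeft R (j (z' * D'.cf' l) * a) ∘ₗ j.toLinearMap ∘ₗ
        LinearMap.mulRight R (D.om w))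
      (LinearMap.mulLeft R (j (D'.cf l) * T.m ω) ∘ₗ j.toLinearMap ∘ₗ
        LinearMap.mulLeft R (D.om w⁻¹))).flip
  have hβ2 : ∀ x y, β2 x y = ∑ w, ∑ ω, ∑ l,
      τ ω (j (z' * D'.cf' l) * a * j (x * D.om w)) •
        (j (D'.cf l) * T.m ω * j (D.om w⁻¹ * y)) := by
    intro x y
    simp only [β2, LinearMap.sum_apply]
    rfl
  have bal2 : ∀ x y u, β2 (x * D.om u) y = β2 x (D.om u * y) := by
    intro x y u
    rw [hβ2, hβ2]
    symm
    rw [← Equiv.sum_comp (Equiv.mulLeft u)]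
    refine Finset.sum_congr rfl fun w _ => Finset.sum_congr rfl fun ω _ =>
      Finset.sum_congr rfl fun l _ => ?_
    have e1 : x * D.om (Equiv.mulLeft u w) = x * D.om u * D.om w := by
      rw [mul_assoc, ← map_mul]
      rfl
    have e2 : D.om (Equiv.mulLeft u w)⁻¹ * (D.om u * y) = D.om w⁻¹ * y := by
      rw [← mul_assoc, ← map_mul]
      congr 2
      show (u * w)⁻¹ * u = w⁻¹
      rw [mul_inv_rev, mul_assoc, inv_mul_cancel, mul_one]
    rw [e1, e2]
  -- the third bilinear map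
  let β3 : Γ →ₗ[R] Γ →ₗ[R] A := ∑ ω, ∑ l,
    (bl (T.τ ω ∘ₗ LinearMap.mulLeft R (j (D'.cf' l) * a) ∘ₗ j.toLinearMap)
      (LinearMap.mulLeft R (j (D'.cf l) * T.m ω) ∘ₗ j.toLinearMap ∘ₗ
        LinearMap.mulLeft R z')).flip
  have hβ3 : ∀ x y, β3 x y = ∑ ω, ∑ l, T.τ ω (j (D'.cf' l) * a * j x) •
      (j (D'.cf l) * T.m ω * j (z' * y)) := by
    intro x y
    simp only [β3, LinearMap.sum_apply]
    rfl
  calc ∑ i, ∑ k, ∑ w, ∑ ω, τ ω (j (D.cf' i) * a * j (D.cf k * D.om w)) •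
        (j (D.cf i) * T.m ω * j (D.om w⁻¹ * D.cf' k))
      = ∑ i, β1 (D.cf i) (D.cf' i) := by simp only [hβ1]
    _ = ∑ l, β1 (D'.cf l) (z' * D'.cf' l) :=
        hCzw R Γ W I I' A D D' z z' hom hz hz' hzz hlam β1 bal1
    _ = ∑ k, β2 (D.cf k) (D.cf' k) := by
        simp only [hβ1, hβ2]
        rw [Finset.sum_comm]
        refine Finset.sum_congr rfl fun k _ => ?_
        rw [Finset.sum_comm]
        refine Finset.sum_congr rfl fun w _ => ?_
        rw [Finset.sum_comm]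
    _ = ∑ k, β2 (D'.cf k) (z' * D'.cf' k) :=
        hCzw R Γ W I I' A D D' z z' hom hz hz' hzz hlam β2 bal2
    _ = ∑ s, β3 (z * D'.fs.b s) (D'.fs.b' s) := by
        rw [Fintype.sum_prod_type]
        refine Finset.sum_congr rfl fun k _ => ?_
        rw [hβ2]
        refine Finset.sum_congr rfl fun w _ => ?_
        rw [hβ3]
        refine Finset.sum_congr rfl fun ω _ => Finset.sum_congr rfl fun l _ => ?_
        show τ ω (j (z' * D'.cf' l) * a * j (D'.cf k * D.om w)) •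
          (j (D'.cf l) * T.m ω * j (D.om w⁻¹ * (z' * D'.cf' k))) =
          T.τ ω (j (D'.cf' l) * a * j (z * (D'.cf k * D'.om w))) •
          (j (D'.cf l) * T.m ω * j (z' * (D'.om w⁻¹ * D'.cf' k)))
        have e1 : j z * (j (z' * D'.cf' l) * a * j (D'.cf k * D.om w) * j z) =
            j (D'.cf' l) * a * j (z * (D'.cf k * D'.om w)) := by
          have h1 : j (D'.cf k * D.om w) * j z = j (z * (D'.cf k * D'.om w)) := by
            rw [← map_mul, ← hz, hom]
          have h2 : j z * j (z' * D'.cf' l) = j (D'.cf' l) := by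
            rw [← map_mul, ← mul_assoc, hzz, one_mul]
          rw [mul_assoc (j (z' * D'.cf' l) * a), h1, ← mul_assoc, ← mul_assoc, h2]
        have e2 : D.om w⁻¹ * (z' * D'.cf' k) = z' * (D'.om w⁻¹ * D'.cf' k) := by
          rw [← mul_assoc, ← hz', mul_assoc, hom]
        rw [hτ, e1, e2]
    _ = ∑ s, β3 (D'.fs.b s) (D'.fs.b' s * z) :=
        Pool.Agent.PFC.H77.cas R Γ (I' × W) A D'.fs β3 z
    _ = a - j (pr a) := by
        rw [← T.id a, Fintype.sum_prod_type]
        have hs : ∀ k w, β3 (D'.fs.b (k, w)) (D'.fs.b' (k, w) * z) =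
            ∑ ω, ∑ l, T.τ ω (j (D'.cf' l) * a * j (D'.cf k * D'.om w)) •
              (j (D'.cf l) * T.m ω * j (D'.om w⁻¹ * D'.cf' k)) := by
          intro k w
          rw [hβ3]
          have e : z' * (D'.fs.b' (k, w) * z) = D'.om w⁻¹ * D'.cf' k := by
            rw [← hz, ← mul_assoc, hzz', one_mul]
            rfl
          rw [e]
          rfl
        simp only [hs]
        symm
        rw [Finset.sum_comm]
        refine Finset.sum_congr rfl fun k _ => ?_
        rw [Finset.sum_comm]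
        refine Finset.sum_congr rfl fun w _ => ?_
        rw [Finset.sum_comm]

end Pool.Agent.PFD.D2b.H17
end
end -- Pool.Agent.Helper17_PFD.CHF

section -- Pool.Agent.Helper19_PFD.MEQ

/-!
# Squad PFD, row MEQ: top of D2b and D4
-/

open scoped BigOperators TensorProduct

noncomputable section

namespace Pool.Agent.PFD.D4.H19

open Pool.Agent.PFD Pool.Agent.PFD.D2 Pool.Agent.PFD.D2b Pool.Agent.PFD.D4

/-- MEQ. -/
theorem meq (hLAT : D2b.LatStmt) (hLRX : LrxStmt) (hZON : ZonStmt) (hKBC : KbcStmt)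
    (hKLT : KltStmt) (hCNR : CnrStmt) (hCNK : CnkStmt) : MeqStmt := by
  intro R F V E A Γ _ _ _ _ _ _ _ _ ℓ c o φ W z _ _ _ _ bo tx hst
  classical
  let _ : Fintype W := bo.fw
  have := o.dom
  have := o.pid
  have := o.ch0
  have := tx.fin
  let _ : Fintype tx.N := tx.fN
  have : FiniteDimensional F (CP (D0 φ z)) := by
    refine FiniteDimensional.of_injective tx.j.toLinearMap ?_
    intro a b hab
    have h1 : tx.pr (tx.j a) = tx.pr (tx.j b) := congrArg tx.pr hab
    rwa [tx.pr_j, tx.pr_j] at h1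
  obtain ⟨I, _, D, A1, _, _, _, _, hlam, -, ⟨la⟩⟩ := hLAT R F V E A Γ ℓ c o φ W z bo tx hst
  have hctr : ∀ a : CP (D0 φ z), (∀ γ, a * γ = γ * a) →
      ∃ b : Γ, (∀ γ, b * γ = γ * b) ∧ bo.fb.q b = a := by
    intro a ha
    obtain ⟨b, hb, hba⟩ := bo.ctr a (Subalgebra.mem_center_iff.2 fun γ => (ha γ).symm)
    exact ⟨b, fun γ => (Subalgebra.mem_center_iff.1 hb γ).symm, hba⟩
  obtain ⟨lr⟩ := hLRX R F Γ (CP (D0 φ z)) A A1 W I tx.N c D bo.fb tx.j tx.pr tx.mu la tx.x tx.y
    tx.pr_j tx.pr_l tx.pr_r tx.mus tx.orth tx.mun hctr tx.e1 tx.e2 tx.unt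
  have hzon := hZON R F Γ (CP (D0 φ z)) A A1 W I c D bo.fb tx.j tx.pr lr
  have h1 := hCNR R F A A1 c lr.fb hzon
  have h2 := hCNR R F (CP (D0 φ z)) Γ c bo.fb hctr
  -- the field `K`
  let K : Type := AlgebraicClosure (FractionRing R)
  have : CharZero (FractionRing R) :=
    charZero_of_injective_algebraMap (IsFractionRing.injective R (FractionRing R))
  have : CharZero K :=
    charZero_of_injective_algebraMap (FaithfulSMul.algebraMap_injective (FractionRing R) K)
  have : FaithfulSMul R K := by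
    rw [faithfulSMul_iff_algebraMap_injective, IsScalarTower.algebraMap_eq R (FractionRing R) K]
    exact (FaithfulSMul.algebraMap_injective (FractionRing R) K).comp
      (IsFractionRing.injective R (FractionRing R))
  obtain ⟨J, N, _, _, ⟨kl⟩⟩ := hKBC R F Γ (CP (D0 φ z)) A A1 W I K c D bo.fb tx.j tx.pr lr bo.v
    bo.P bo.N bo.wt bo.v_mul bo.P_v bo.P_nil bo.wt_pos (by
      intro a
      rw [hlam]
      exact bo.t_v a)
  have h3 := hKLT K (K ⊗[R] Γ) (K ⊗[R] A1) (I × W) J N kl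
  have h4 := hCNK R K A1
  have h5 := hCNK R K Γ
  rw [h1, h2, ← h4, ← h5, h3]

end Pool.Agent.PFD.D4.H19
end
end -- Pool.Agent.Helper19_PFD.MEQ

section -- Pool.Agent.Helper20_PFD.LAT

/-!
Squad PFD, row LAT (helper20): the lift `A1` exists (assembly).
-/

open scoped BigOperators

noncomputable section

namespace Pool.Agent.PFD.D2b.H20

open MulOpposite
open Pool.Agent.PFC.B1 (BiM FS Sep)
open Pool.Agent.PFD.D2

/-- a transversal of a subgroup -/
theorem exTv {V : Type} [Group V] [Fintype V] (W : Subgroup V) :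
    ∃ T : Finset V, Pool.Agent.PFC.IsTv W ⊤ T := by
  classical
  let _ : Fintype (V ⧸ W) := Fintype.ofFinite _
  refine ⟨Finset.univ.image (fun q : V ⧸ W => q.out), fun s _ => Subgroup.mem_top s, ?_⟩
  intro p _
  refine ⟨(QuotientGroup.mk p : V ⧸ W).out, ⟨?_, ?_⟩, ?_⟩
  · exact Finset.mem_image.mpr ⟨_, Finset.mem_univ _, rfl⟩
  · have h : (QuotientGroup.mk ((QuotientGroup.mk p : V ⧸ W).out) : V ⧸ W) = QuotientGroup.mk p :=
      QuotientGroup.out_eq' _
    exact QuotientGroup.eq.mp h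
  · rintro s ⟨hs, hsp⟩
    obtain ⟨q, _, rfl⟩ := Finset.mem_image.mp hs
    have h : (QuotientGroup.mk q.out : V ⧸ W) = QuotientGroup.mk p := QuotientGroup.eq.mpr hsp
    rw [QuotientGroup.out_eq'] at h
    rw [h]

theorem lat (hBWF : BwfStmt) (hRWF : RwfStmt) (hINX : InxStmt) (hWGD : WgdStmt) (hWGF : WgfStmt)
    (hLCU : LcuStmt) (hCHF : ChfStmt) (hSPX : SpxStmt) (hLFX : LfxStmt) (hEXX : ExxStmt)
    (hLAX : LaxStmt) : LatStmt := by
  intro R F V E A Γ _ _ _ _ _ _ _ _ ℓ c o φ W _ z _ _ _ _ bo tx hW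
  have i1 : IsDomain R := o.dom
  have i2 : IsPrincipalIdealRing R := o.pid
  obtain ⟨I, fI, D, hDl, hDo⟩ := hBWF R F V E Γ ℓ c o φ W z bo
  obtain ⟨D0, hl, ho, -, -, hfib⟩ := hRWF R F Γ (CP (D0 φ z)) W I c bo.fb D
  obtain ⟨T, hT⟩ := exTv W
  obtain ⟨DG, g1, g2, g3⟩ := hWGD F V E φ W z hW T hT
  obtain ⟨Ω, fΩ, aΩ, hfr⟩ := hWGF F V E A φ W z tx T hT DG g1 g2 g3
  obtain ⟨z1, z2, hz1, h12, h21, hz2, hlz⟩ :=
    (hLCU F (CP (Pool.Agent.PFD.D0 φ z)) W I D0).2 (E × T) DG
  have hom : ∀ w, D0.om w = DG.om w := by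
    intro w
    rw [ho, g1, hDo, bo.om_q]
  obtain ⟨fr0⟩ := hCHF F (CP (Pool.Agent.PFD.D0 φ z)) W I (E × T) A Ω D0 DG z1 z2 hom hz1 hz2 h12
    hlz tx.j tx.pr hfr
  obtain ⟨BX, hBX⟩ := hINX R Γ W I Ω D
  obtain ⟨B0, hB0⟩ := hINX F (CP (Pool.Agent.PFD.D0 φ z)) W I Ω D0
  obtain ⟨sp0, s1, s2⟩ := hSPX F (CP (Pool.Agent.PFD.D0 φ z)) W I A Ω D0 B0 hB0 tx.j tx.pr tx.pr_j
    tx.pr_l tx.pr_r fr0
  obtain ⟨fm⟩ := hfib Ω BX B0 hBX hB0
  have hL : Lft c.π BX := hLFX R Γ W I Ω D BX c.π hBX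
  let _ : Fintype tx.K := tx.fK
  have hsep : Sep (CP (Pool.Agent.PFD.D0 φ z)) A tx.K sp0.j.toRingHom := by
    rw [s1]
    exact tx.sep
  obtain ⟨A1, rA1, aA1, fA1, frA1, ⟨df⟩⟩ := hEXX R F Γ (CP (Pool.Agent.PFD.D0 φ z)) A
    (I × Ω → Γ) (I × Ω → CP (Pool.Agent.PFD.D0 φ z)) tx.K c bo.fb BX B0 fm hL sp0 hsep
  have hctr : ∀ a : CP (Pool.Agent.PFD.D0 φ z), (∀ γ, a * γ = γ * a) →
      ∃ b : Γ, (∀ γ, b * γ = γ * b) ∧ bo.fb.q b = a := by
    intro a ha
    obtain ⟨b, hb, hba⟩ := bo.ctr a (Subalgebra.mem_center_iff.mpr fun γ => (ha γ).symm)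
    exact ⟨b, fun γ => (Subalgebra.mem_center_iff.mp hb γ).symm, hba⟩
  have hLA : Nonempty (LA A1 D bo.fb sp0.j sp0.pr) :=
    hLAX R F Γ (CP (Pool.Agent.PFD.D0 φ z)) A (I × Ω → CP (Pool.Agent.PFD.D0 φ z)) W I Ω A1 c D
      bo.fb BX hBX B0 sp0 df hctr
  rw [s1, s2] at hLA
  exact ⟨I, fI, D, A1, rA1, aA1, fA1, frA1, hDl, hDo, hLA⟩

end Pool.Agent.PFD.D2b.H20
end
end -- Pool.Agent.Helper20_PFD.LAT

section -- Pool.Agent.Helper24_PFD.BRF

set_option autoImplicit false

/-!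
# Squad PFD, row BRF: base change of a relative Frobenius system
-/

open scoped BigOperators TensorProduct

noncomputable section

namespace Pool.Agent.PFD.D4.H24

/-- **BRF** -/
theorem brf : BrfStmt := by
  intro R K Γ A N _ _ _ _ _ _ _ _ j pr s j' pr' hj hpr
  have h1 : ∀ a : K ⊗[R] A, ∑ k, ((1 : K) ⊗ₜ[R] s.x k) * j' (pr' (((1 : K) ⊗ₜ[R] s.y k) * a)) =
      a := by
    intro a
    induction a using TensorProduct.induction_on with
    | zero => simp only [mul_zero, map_zero, Finset.sum_const_zero]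
    | tmul x a =>
      have e : ∀ k, ((1 : K) ⊗ₜ[R] s.x k) * j' (pr' (((1 : K) ⊗ₜ[R] s.y k) * (x ⊗ₜ[R] a))) =
          x ⊗ₜ[R] (s.x k * j (pr (s.y k * a))) := by
        intro k
        rw [Algebra.TensorProduct.tmul_mul_tmul, hpr, hj, Algebra.TensorProduct.tmul_mul_tmul,
          one_mul, one_mul]
      rw [Finset.sum_congr rfl fun k _ => e k, ← TensorProduct.tmul_sum, s.e1]
    | add a b ha hb =>
      simp only [mul_add, map_add, Finset.sum_add_distrib]
      rw [ha, hb]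
  have h2 : ∀ a : K ⊗[R] A, ∑ k, j' (pr' (a * ((1 : K) ⊗ₜ[R] s.x k))) * ((1 : K) ⊗ₜ[R] s.y k) =
      a := by
    intro a
    induction a using TensorProduct.induction_on with
    | zero => simp only [zero_mul, map_zero, Finset.sum_const_zero]
    | tmul x a =>
      have e : ∀ k, j' (pr' ((x ⊗ₜ[R] a) * ((1 : K) ⊗ₜ[R] s.x k))) * ((1 : K) ⊗ₜ[R] s.y k) =
          x ⊗ₜ[R] (j (pr (a * s.x k)) * s.y k) := by
        intro k
        rw [Algebra.TensorProduct.tmul_mul_tmul, hpr, hj, Algebra.TensorProduct.tmul_mul_tmul,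
          mul_one, mul_one]
      rw [Finset.sum_congr rfl fun k _ => e k, ← TensorProduct.tmul_sum, s.e2]
    | add a b ha hb =>
      simp only [add_mul, map_add, Finset.sum_add_distrib]
      rw [ha, hb]
  refine ⟨⟨fun k => 1 ⊗ₜ s.x k, fun k => 1 ⊗ₜ s.y k, h1, h2⟩, fun _ => rfl, fun _ => rfl, ?_⟩
  intro a
  show ∑ k, ((1 : K) ⊗ₜ[R] s.x k) * (1 ⊗ₜ[R] a) * (1 ⊗ₜ[R] s.y k) = 1 ⊗ₜ[R] ∑ k, s.x k * a * s.y k
  rw [TensorProduct.tmul_sum]
  refine Finset.sum_congr rfl fun k _ => ?_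
  rw [Algebra.TensorProduct.tmul_mul_tmul, Algebra.TensorProduct.tmul_mul_tmul, one_mul, one_mul]

end Pool.Agent.PFD.D4.H24
end
end -- Pool.Agent.Helper24_PFD.BRF

section -- Pool.Agent.Helper30_PFD.LFB

/-! Squad PFD, row LFB: balanced maps modulo `p` lift. -/

open scoped BigOperators

noncomputable section

namespace Pool.Agent.PFD.D2b.H30

open MulOpposite
open Pool.Agent.PFC.B1 (BiM FS)
open Pool.Agent.PFD.D2

section md

variable {R N M : Type} [CommRing R] [AddCommGroup N] [Module R N] [AddCommGroup M] [Module R M]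

/-- congruence modulo `p` -/
def Md (p : R) (x y : N) : Prop := ∃ n, x - y = p • n

theorem Md.rfl' {p : R} {x : N} : Md p x x := ⟨0, by rw [sub_self, smul_zero]⟩

theorem Md.symm {p : R} {x y : N} (h : Md p x y) : Md p y x := by
  obtain ⟨n, hn⟩ := h
  exact ⟨-n, by rw [smul_neg, ← hn, neg_sub]⟩

theorem Md.trans {p : R} {x y z : N} (h : Md p x y) (h' : Md p y z) : Md p x z := by
  obtain ⟨n, hn⟩ := h
  obtain ⟨m, hm⟩ := h'
  exact ⟨n + m, by rw [smul_add, ← hn, ← hm, sub_add_sub_cancel]⟩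

theorem Md.map {p : R} {x y : N} (h : Md p x y) (f : N →ₗ[R] M) : Md p (f x) (f y) := by
  obtain ⟨n, hn⟩ := h
  exact ⟨f n, by rw [← map_sub, hn, map_smul]⟩

theorem Md.sum {p : R} {κ : Type} (s : Finset κ) {f g : κ → N} (h : ∀ k ∈ s, Md p (f k) (g k)) :
    Md p (∑ k ∈ s, f k) (∑ k ∈ s, g k) := by
  classical
  induction s using Finset.induction_on with
  | empty => exact Md.rfl'
  | insert a s ha ih =>
    rw [Finset.sum_insert ha, Finset.sum_insert ha]
    obtain ⟨n, hn⟩ := h a (Finset.mem_insert_self _ _)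
    obtain ⟨m, hm⟩ := ih (fun k hk => h k (Finset.mem_insert_of_mem hk))
    exact ⟨n + m, by rw [smul_add, ← hn, ← hm]; abel⟩

end md

/-- the action of `W × W` on `Ω × Ω × T` -/
@[reducible] def act3 {W Ω T : Type} [CommGroup W] [MulAction W Ω] [MulAction (W × W) T] :
    MulAction (W × W) (Ω × Ω × T) where
  smul := fun w x => (w.1 • x.1, w.2 • x.2.1, w • x.2.2)
  one_smul := fun x => by
    show ((1 : W) • x.1, (1 : W) • x.2.1, (1 : W × W) • x.2.2) = x
    rw [one_smul, one_smul, one_smul]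
  mul_smul := fun v w x => by
    show ((v.1 * w.1) • x.1, (v.2 * w.2) • x.2.1, (v * w) • x.2.2) =
      (v.1 • w.1 • x.1, v.2 • w.2 • x.2.1, v • w • x.2.2)
    rw [mul_smul, mul_smul, mul_smul]

section

variable {R Γ W N : Type} [CommRing R] [Ring Γ] [Algebra R Γ] [CommGroup W]
  [AddCommGroup N] [Module R N]

theorem rm_mul (B : BiM R Γ N) (x y : Γ) (n : N) :
    B.rm (op (x * y)) n = B.rm (op y) (B.rm (op x) n) := by
  rw [op_mul, map_mul]
  rfl

theorem lm_mul (B : BiM R Γ N) (x y : Γ) (n : N) :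
    B.lm (x * y) n = B.lm x (B.lm y n) := by
  rw [map_mul]
  rfl

theorem wrp_apply (om : W →* Γ) (B : BiM R Γ N) (u v : W) (n : N) :
    wrp om B (u, v) n = B.lm (om u) (B.rm (op (om v⁻¹)) n) := rfl

theorem om_inv (om : W →* Γ) (u : W) : om u⁻¹ * om u = 1 := by
  rw [← map_mul, inv_mul_cancel, map_one]

theorem om_inv' (om : W →* Γ) (u : W) : om u * om u⁻¹ = 1 := by
  rw [← map_mul, mul_inv_cancel, map_one]

end

theorem lfb (heqf : EqfStmt) (hing : IngStmt) (hinb : InbStmt) (hfpg : FpgStmt) : LfbStmt := by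
  classical
  intro R Γ W I Ω N _ _ _ _ _ _ _ _ D BX hX _ _ BN p hF β hβ
  obtain ⟨aT, c, -, -, hb, hc, hsum⟩ := hfpg R Γ W I D
  obtain ⟨ε, hε, hdec, -⟩ := hing R Γ W I Ω D BX hX
  obtain ⟨hβ1, hβ2, hβ3⟩ := hβ
  let bt : I × W → Γ := fun t => D.cf t.1 * D.om t.2
  let m : Ω × Ω × (I × W) → N := fun x => β (BX.rm (op (bt x.2.2)) (ε x.1)) (ε x.2.1)
  -- the element `ε (u ω)`
  have hε1 : ∀ u ω, BX.rm (op (D.om u)) (ε (u • ω)) = BX.lm (D.om u) (ε ω) := by
    intro u ω
    rw [hε u ω, BX.comm, ← rm_mul, om_inv, op_one, map_one]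
    rfl
  have hε2 : ∀ v ω, BX.lm (D.om v⁻¹) (ε (v • ω)) = BX.rm (op (D.om v⁻¹)) (ε ω) := by
    intro v ω
    rw [hε v ω, ← lm_mul, om_inv, map_one]
    rfl
  have hm : ∀ (g : W × W) (x : Ω × Ω × (I × W)), Md p (m ((act3 (Ω := Ω) (T := I × W)).smul g x))
      (wrp D.om BN g (m x)) := by
    rintro ⟨u, v⟩ ⟨ω, ω', t⟩
    show Md p (β (BX.rm (op (bt ((u, v) • t))) (ε (u • ω))) (ε (v • ω')))
      (BN.lm (D.om u) (BN.rm (op (D.om v⁻¹)) (β (BX.rm (op (bt t)) (ε ω)) (ε ω'))))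
    have h1 : bt ((u, v) • t) = D.om u * (bt t * D.om v⁻¹) := hb (u, v) t
    have h2 : BX.rm (op (bt ((u, v) • t))) (ε (u • ω)) =
        BX.lm (D.om u) (BX.rm (op (D.om v⁻¹)) (BX.rm (op (bt t)) (ε ω))) := by
      rw [h1, rm_mul, hε1, rm_mul, ← BX.comm, ← BX.comm]
    rw [h2]
    refine Md.trans (hβ1 _ _ _) ?_
    refine Md.map ?_ (BN.lm (D.om u))
    refine Md.trans (hβ2 _ _ _) ?_
    rw [hε2]
    exact hβ3 _ _ _
  obtain ⟨m', hm1, hm2⟩ := @heqf R (W × W) N (Ω × Ω × (I × W)) _ _ _ _ act3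
    (wrp D.om BN) p hF m hm
  let μ : Ω → Ω → (Γ →ₗ[R] N) := fun ω ω' => ∑ t, (c t).smulRight (m' (ω, ω', t))
  have hμ : ∀ ω ω' γ, μ ω ω' γ = ∑ t, c t γ • m' (ω, ω', t) := by
    intro ω ω' γ
    show (∑ t, (c t).smulRight (m' (ω, ω', t))) γ = _
    rw [LinearMap.sum_apply]
    rfl
  have hμ2 : ∀ ω ω' γ, Md p (μ ω ω' γ) (β (BX.rm (op γ) (ε ω)) (ε ω')) := by
    intro ω ω' γ
    rw [hμ]
    have h1 : β (BX.rm (op γ) (ε ω)) (ε ω') =
        ∑ t, c t γ • β (BX.rm (op (bt t)) (ε ω)) (ε ω') := by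
      have h2 : op γ = ∑ t, c t γ • op (bt t) := by
        conv_lhs => rw [← hsum γ]
        rw [← MulOpposite.coe_opLinearEquiv R, map_sum]
        refine Finset.sum_congr rfl ?_
        intro t _
        rw [map_smul]
      rw [h2, map_sum, LinearMap.sum_apply, map_sum, LinearMap.sum_apply]
      refine Finset.sum_congr rfl ?_
      intro t _
      rw [map_smul, LinearMap.smul_apply, map_smul, LinearMap.smul_apply]
    rw [h1]
    refine Md.sum _ ?_
    intro t _
    exact Md.map (hm2 (ω, ω', t)) (LinearMap.lsmul R N (c t γ))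
  obtain ⟨β', hβ', hform⟩ := hinb R Γ W I Ω N D BX hX BN μ (by
    intro u v ω ω' γ
    rw [hμ, hμ, map_sum]
    rw [← Equiv.sum_comp (MulAction.toPerm (u, v) : Equiv.Perm (I × W))]
    refine Finset.sum_congr rfl ?_
    intro t _
    rw [MulAction.toPerm_apply]
    have h1 : c ((u, v) • t) (D.om u * γ * D.om v⁻¹) = c t γ := by
      have h2 := hc (u, v) t γ
      have h3 : wrp D.om (regB R Γ) (u, v) γ = D.om u * γ * D.om v⁻¹ := by
        show D.om u * (γ * D.om v⁻¹) = _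
        rw [mul_assoc]
      rw [h3] at h2
      exact h2
    have h2 : m' (u • ω, v • ω', (u, v) • t) = wrp D.om BN (u, v) (m' (ω, ω', t)) :=
      hm1 (u, v) (ω, ω', t)
    rw [h1, h2, map_smul])
  refine ⟨β', hβ', ?_⟩
  intro f f'
  rw [hform]
  -- the value of `β`
  have h1 : β f f' = ∑ i, ∑ ω, ∑ i', ∑ ω',
      β (BX.lm (D.cf i) (BX.rm (op (f (i, ω))) (ε ω)))
        (BX.lm (D.cf i') (BX.rm (op (f' (i', ω'))) (ε ω'))) := by
    have h1a : ∀ y, β f y = ∑ i, ∑ ω, β (BX.lm (D.cf i) (BX.rm (op (f (i, ω))) (ε ω))) y := by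
      intro y
      conv_lhs => rw [← hdec f]
      simp only [map_sum, LinearMap.sum_apply]
    have h1b : ∀ x, β x f' =
        ∑ i', ∑ ω', β x (BX.lm (D.cf i') (BX.rm (op (f' (i', ω'))) (ε ω'))) := by
      intro x
      conv_lhs => rw [← hdec f']
      simp only [map_sum]
    rw [h1a]
    exact Finset.sum_congr rfl (fun i _ => Finset.sum_congr rfl (fun ω _ => h1b _))
  rw [h1]
  refine Md.sum _ (fun i _ => Md.sum _ (fun ω _ => Md.sum _ (fun i' _ => Md.sum _
    (fun ω' _ => ?_))))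
  have h2 : Md p (β (BX.lm (D.cf i) (BX.rm (op (f (i, ω))) (ε ω)))
        (BX.lm (D.cf i') (BX.rm (op (f' (i', ω'))) (ε ω'))))
      (BN.lm (D.cf i) (BN.rm (op (f' (i', ω')))
        (β (BX.rm (op (f (i, ω) * D.cf i')) (ε ω)) (ε ω')))) := by
    refine Md.trans (hβ1 _ _ _) ?_
    refine Md.map ?_ (BN.lm (D.cf i))
    refine Md.trans (Md.symm (hβ2 _ _ _)) ?_
    rw [← rm_mul]
    exact hβ3 _ _ _
  refine Md.trans ?_ (Md.symm h2)
  refine Md.map ?_ (BN.lm (D.cf i))
  refine Md.map ?_ (BN.rm (op (f' (i', ω'))))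
  exact hμ2 _ _ _

end Pool.Agent.PFD.D2b.H30
end
end -- Pool.Agent.Helper30_PFD.LFB

section -- Pool.Agent.Helper81_PFD.KLT

/-!
Squad PFD, rows KLT and LRX (helper81): the equality of the dimensions of the centres, and the
assembly of the final lift.
-/

set_option autoImplicit false

open scoped BigOperators

noncomputable section

namespace Pool.Agent.PFD.D4.H81

open Pool.Agent.PFC.B1 (BiM FS Sep Split)
open Pool.Agent.PFD
open Pool.Agent.PFD.D2
open Pool.Agent.PFD.D2b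
open Pool.Agent.PFD.D4

/-- the trace, on the centre, of a central element which is a scalar up to a nilpotent -/
theorem tr_center {K A : Type} [Field K] [Ring A] [Algebra K A] [Module.Finite K A] (z : A) (k : K)
    (hz : ∀ a, z * a = a * z) (hn : IsNilpotent (z + algebraMap K A k)) :
    ∃ f : Subalgebra.center K A →ₗ[K] Subalgebra.center K A, (∀ w, (f w : A) = z * w) ∧
      LinearMap.trace K _ f = - (k * (Module.finrank K (Subalgebra.center K A) : K)) := by
  let z' : Subalgebra.center K A := ⟨z, Subalgebra.mem_center_iff.2 (fun b => (hz b).symm)⟩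
  have hz' : (z' : A) = z := rfl
  refine ⟨LinearMap.mulLeft K z', fun w => ?_, ?_⟩
  · rw [LinearMap.mulLeft_apply]
    rfl
  · have h1 : IsNilpotent (z' + algebraMap K (Subalgebra.center K A) k) := by
      obtain ⟨n, hn⟩ := hn
      refine ⟨n, Subtype.ext ?_⟩
      have h2 : (((z' + algebraMap K (Subalgebra.center K A) k) ^ n : Subalgebra.center K A) : A) =
          (z + algebraMap K A k) ^ n := rfl
      rw [h2, hn]
      rfl
    have h2 : IsNilpotent (LinearMap.mulLeft K (z' + algebraMap K (Subalgebra.center K A) k)) :=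
      (LinearMap.isNilpotent_mulLeft_iff (R := K) _).2 h1
    have h3 : LinearMap.mulLeft K (z' + algebraMap K (Subalgebra.center K A) k) =
        LinearMap.mulLeft K z' + k • (LinearMap.id : _ →ₗ[K] Subalgebra.center K A) := by
      ext w
      simp [add_mul, Algebra.smul_def]
    have h4 := (LinearMap.isNilpotent_trace_of_isNilpotent h2).eq_zero
    rw [h3, map_add, map_smul, LinearMap.trace_id, smul_eq_mul] at h4
    exact eq_neg_of_add_eq_zero_left h4

/-- row KLT -/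
theorem klt (zet : ZetStmt) (fot : Pool.Agent.PFD.FotStmt) : KltStmt := by
  intro K B A I J N _ _ _ _ _ _ _ _ _ _ _ _ D
  obtain ⟨De, ν, h1, h2, h3, h4, h5⟩ := zet K B A I J N D
  have hDc : ∀ b, De * b = b * De := by
    intro b
    rw [h1, sub_mul, mul_sub, h3 b, Algebra.commutes]
  obtain ⟨hc, hf⟩ := fot K B A I J N D.c D.d D.sp D.s D.cs D.ds D.ort D.v De D.vm hDc h4
  obtain ⟨f, f1, f2⟩ := tr_center (D.s.rt (D.sp.j De)) (D.wt : K) (fun a => (hc a).symm) h5
  have h6 : IsNilpotent (De + algebraMap K B (D.wt : K)) := by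
    rw [h1, sub_add_cancel]
    exact h2
  obtain ⟨g, g1, g2⟩ := tr_center De (D.wt : K) hDc h6
  have h7 := hf f g f1 g1
  rw [f2, g2] at h7
  have h8 : (D.wt : K) ≠ 0 := Nat.cast_ne_zero.2 (Nat.pos_iff_ne_zero.1 D.wp)
  exact Nat.cast_injective (R := K) (mul_left_cancel₀ h8 (neg_injective h7))

/-- row LRX -/
theorem lrx (rfl' : RflStmt) (unm : UnmStmt) (ulf : UlfStmt) (frm : FrmStmt) (ort : OrtStmt) :
    LrxStmt := by
  intro R F Γ Γ0 A A1 W I N _ _ c _ _ _ _ _ _ _ _ _ _ _ _ _ _ _ _ _ D f j0 pr0 mu la x y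
    p1 p2 p3 m1 m2 m3 ctr e1 e2 unt
  obtain ⟨s, sx, sy⟩ := rfl' R F Γ Γ0 A A1 N c f la.fb j0 pr0 la.j la.pr x y la.pr_j la.pr_l
    la.pr_r la.cj la.cp e1 e2
  have hs1 : IsUnit (s.rt 1) := by
    apply unm R F A A1 c la.fb
    have h := unt 1 (fun γ => by rw [one_mul, mul_one]) isUnit_one
    have h2 : la.fb.q (s.rt 1) = ∑ k, x k * j0 1 * y k := by
      unfold RF.rt
      rw [map_sum]
      refine Finset.sum_congr rfl fun k _ => ?_
      rw [map_mul, map_mul, sx, sy, map_one, map_one]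
    rw [h2]
    exact h
  obtain ⟨u, uc, uu, hu⟩ := ulf R F Γ Γ0 A W I c D f j0 pr0 mu p1 p2 m1 m2 m3 ctr
  obtain ⟨tA, t1, t2⟩ := frm R F Γ Γ0 A A1 W I N c D f la.fb j0 pr0 la.j la.pr s u mu la.pr_l
    la.pr_r la.cp hs1 uc m1 m2 hu
  obtain ⟨la', u1, u1', hfb, hj, uc1, uu1, ht⟩ := ort R F Γ Γ0 A A1 W I c D f j0 pr0 mu la tA
    p1 p2 p3 m1 m2 m3 t1 t2
  obtain ⟨s', sx', sy'⟩ := rfl' R F Γ Γ0 A A1 N c f la'.fb j0 pr0 la'.j la'.pr x y la'.pr_j
    la'.pr_l la'.pr_r la'.cj la'.cp e1 e2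
  have key : ∀ w : Γ, la'.fb.q (s'.rt (la'.j w)) = ∑ k, x k * j0 (f.q w) * y k := by
    intro w
    unfold RF.rt
    rw [map_sum]
    refine Finset.sum_congr rfl fun k _ => ?_
    rw [map_mul, map_mul, sx', sy', la'.cj]
  have uu2 : u1' * u1 = 1 := by rw [← uc1, uu1]
  have uc' : ∀ γ, u1' * γ = γ * u1' := by
    intro γ
    calc u1' * γ = u1' * γ * (u1 * u1') := by rw [uu1, mul_one]
      _ = u1' * (γ * u1) * u1' := by simp only [mul_assoc]
      _ = u1' * (u1 * γ) * u1' := by rw [uc1]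
      _ = (u1' * u1) * γ * u1' := by simp only [mul_assoc]
      _ = γ * u1' := by rw [uu2, one_mul]
  refine ⟨{ la' with
    N := N
    fN := inferInstance
    rf := s'
    tA := tA
    ts := t1
    u := u1
    u' := u1'
    uc := uc1
    uu := uu1
    ort := ht
    un1 := ?_
    unu := ?_ }⟩
  · apply unm R F A A1 c la'.fb
    have h := key 1
    rw [map_one] at h
    rw [h]
    refine unt _ (fun γ => ?_) ?_
    · rw [map_one, one_mul, mul_one]
    · rw [map_one]; exact isUnit_one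
  · apply unm R F A A1 c la'.fb
    have h := key u1'
    rw [h]
    refine unt _ (fun γ => ?_) ?_
    · obtain ⟨g, rfl⟩ := f.surj γ
      rw [← map_mul, ← map_mul, uc']
    · have h3 : f.q u1' * f.q u1 = 1 := by rw [← map_mul, uu2, map_one]
      have h4 : f.q u1 * f.q u1' = 1 := by rw [← map_mul, uu1, map_one]
      exact ⟨⟨f.q u1', f.q u1, h3, h4⟩, rfl⟩

end Pool.Agent.PFD.D4.H81
end
end -- Pool.Agent.Helper81_PFD.KLT

section -- Pool.Agent.Helper32_PFE.KKL

/-!
Squad PFE, row KKL (helper32, after helper81's row KLT of squad PFD): the equality of the dimensions of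
the centres.
-/

set_option autoImplicit false

open scoped BigOperators

noncomputable section

namespace Pool.Agent.PFE.H32

open Pool.Agent.PFC.B1 (FS Split)
open Pool.Agent.PFD (RF FotStmt)
open Pool.Agent.PFE

theorem kkl (kzt : KztStmt) (fot : FotStmt) : KklStmt := by
  intro K B A I J N _ _ _ _ _ _ _ _ _ _ _ D
  obtain ⟨De, ν, h1, h2, h3, h4, -, h5⟩ := kzt K B A I J N D
  have hDc : ∀ b, De * b = b * De := by
    intro b
    rw [h1, sub_mul, mul_sub, h3 b, Algebra.commutes]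
  obtain ⟨hc, hf⟩ := fot K B A I J N D.c D.d D.sp D.s D.cs D.ds D.ort D.v De D.vm hDc h4
  obtain ⟨f, f1, f2⟩ := Pool.Agent.PFD.D4.H81.tr_center (D.s.rt (D.sp.j De)) (D.wt : K)
    (fun a => (hc a).symm) h5
  have h6 : IsNilpotent (De + algebraMap K B (D.wt : K)) := by
    rw [h1, sub_add_cancel]
    exact h2
  obtain ⟨g, g1, g2⟩ := Pool.Agent.PFD.D4.H81.tr_center De (D.wt : K) hDc h6
  have h7 := hf f g f1 g1
  rw [f2, g2] at h7
  have h8 : (D.wt : K) ≠ 0 := Nat.cast_ne_zero.2 (Nat.pos_iff_ne_zero.1 D.wp)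
  exact Nat.cast_injective (R := K) (mul_left_cancel₀ h8 (neg_injective h7))

end Pool.Agent.PFE.H32
end
end -- Pool.Agent.Helper32_PFE.KKL

section -- Pool.Agent.Helper33_PFD.ING

/-!
# Squad PFD, rows ING and INM: the bimodule `X` is generated by `ε ω`, homomorphisms from `X`
-/

open scoped BigOperators

noncomputable section

namespace Pool.Agent.PFD.D2b.H33

open MulOpposite
open Pool.Agent.PFC.B1 (BiM FS)
open Pool.Agent.PFD.D2 Pool.Agent.PFD.D2b

section

variable {R Γ W I Ω N : Type} [CommRing R] [Ring Γ] [Algebra R Γ] [CommGroup W] [Fintype W]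
  [Fintype I] [Fintype Ω] [MulAction W Ω] [AddCommGroup N] [Module R N]

open Classical in
/-- the generators `1 ⊗ ω ⊗ 1` -/
def eps (D : WFS R Γ W I) (ω : Ω) : I × Ω → Γ := fun x =>
  ∑ w : W, if w • ω = x.2 then D.lam (D.om w⁻¹ * D.cf' x.1) • D.om w else 0

omit [Fintype Ω] in
open Classical in
theorem eps_apply (D : WFS R Γ W I) (ω : Ω) (i : I) (ω' : Ω) : eps D ω (i, ω') =
    ∑ w : W, if w • ω = ω' then D.lam (D.om w⁻¹ * D.cf' i) • D.om w else 0 := rfl

/-- the second dual family formula with a twist -/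
theorem fs_twist (D : WFS R Γ W I) (x y : Γ) :
    ∑ i, ∑ w, D.lam (D.om w⁻¹ * x * D.cf i) * D.lam (y * (D.om w * D.cf' i)) =
      D.lam (y * x) := by
  have h1 := D.h2 x
  have h2 : ∑ i, ∑ w, D.lam (x * (D.cf i * D.om w)) * D.lam (y * (D.om w⁻¹ * D.cf' i)) =
      D.lam (y * x) := by
    conv_rhs => rw [← h1]
    rw [Finset.mul_sum, map_sum]
    refine Finset.sum_congr rfl fun i _ => ?_
    rw [Finset.mul_sum, map_sum]
    refine Finset.sum_congr rfl fun w _ => ?_
    rw [mul_smul_comm, map_smul, smul_eq_mul]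
  rw [← h2]
  refine Finset.sum_congr rfl fun i _ => ?_
  rw [← Equiv.sum_comp (Equiv.inv W)]
  refine Finset.sum_congr rfl fun w _ => ?_
  rw [Equiv.inv_apply, inv_inv, mul_assoc, D.sym, mul_assoc x]

open Classical in
theorem lm_eps (D : WFS R Γ W I) {BX : BiM R Γ (I × Ω → Γ)} (hX : IsX D Ω BX) (a : Γ) (ω : Ω)
    (j : I) (ω' : Ω) : BX.lm a (eps D ω) (j, ω') =
      ∑ v : W, if v • ω = ω' then D.lam (D.om v⁻¹ * D.cf' j * a) • D.om v else 0 := by
  rw [hX.1]
  have h1 : ∀ (i : I) (w : W), D.lam (D.om w⁻¹ * D.cf' j * a * D.cf i) •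
      (D.om w * eps D ω (i, w⁻¹ • ω')) = ∑ v : W, if v • ω = ω' then
        (D.lam (D.om w⁻¹ * (D.cf' j * a) * D.cf i) *
          D.lam (D.om v⁻¹ * (D.om w * D.cf' i))) • D.om v else 0 := by
    intro i w
    rw [eps_apply, Finset.mul_sum, Finset.smul_sum, ← Equiv.sum_comp (Equiv.mulLeft w⁻¹)]
    refine Finset.sum_congr rfl fun v _ => ?_
    show _ • (_ * (if (w⁻¹ * v) • ω = w⁻¹ • ω' then
      D.lam (D.om (w⁻¹ * v)⁻¹ * D.cf' i) • D.om (w⁻¹ * v) else 0)) = _
    rw [mul_smul]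
    by_cases hv : v • ω = ω'
    · rw [if_pos (by rw [hv]), if_pos hv, mul_smul_comm, smul_smul, ← map_mul D.om w,
        mul_inv_cancel_left, mul_inv_rev, inv_inv, map_mul D.om v⁻¹, mul_assoc (D.om v⁻¹),
        mul_assoc (D.om w⁻¹) (D.cf' j) a]
    · rw [if_neg (fun h => hv (smul_left_cancel _ h)), if_neg hv, mul_zero, smul_zero]
  rw [Finset.sum_congr rfl fun i _ => Finset.sum_congr rfl fun w _ => h1 i w]
  rw [Finset.sum_congr rfl fun i _ => Finset.sum_comm, Finset.sum_comm]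
  refine Finset.sum_congr rfl fun v _ => ?_
  by_cases hv : v • ω = ω'
  · rw [if_pos hv, mul_assoc (D.om v⁻¹), ← fs_twist D (D.cf' j * a) (D.om v⁻¹),
      Finset.sum_smul]
    refine Finset.sum_congr rfl fun i _ => ?_
    rw [Finset.sum_smul]
    refine Finset.sum_congr rfl fun w _ => ?_
    rw [if_pos hv]
  · rw [if_neg hv]
    refine Finset.sum_eq_zero fun i _ => Finset.sum_eq_zero fun w _ => ?_
    rw [if_neg hv]

open Classical in
theorem lm_cf_eps (D : WFS R Γ W I) {BX : BiM R Γ (I × Ω → Γ)} (hX : IsX D Ω BX) (i : I)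
    (ω : Ω) (j : I) (ω' : Ω) : BX.lm (D.cf i) (eps D ω) (j, ω') =
      if i = j ∧ ω = ω' then 1 else 0 := by
  rw [lm_eps D hX, Finset.sum_eq_single (1 : W)]
  · rw [one_smul]
    by_cases h : ω = ω'
    · rw [if_pos h]
      by_cases hij : i = j
      · rw [if_pos ⟨hij, h⟩, hij]
        have h1 := D.d1 j 1
        rw [map_one, mul_one] at h1
        rw [h1, one_smul, map_one]
      · rw [if_neg (fun h' => hij h'.1)]
        have h1 := D.d0 j i 1 1 (Or.inl (fun h' => hij h'.symm))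
        rw [map_one, mul_one] at h1
        rw [h1, zero_smul]
    · rw [if_neg h, if_neg (fun h' => h h'.2)]
  · intro v _ hv
    have h1 := D.d0 j i v 1 (Or.inr hv)
    rw [map_one, mul_one] at h1
    rw [h1, zero_smul, ite_self]
  · intro h
    exact absurd (Finset.mem_univ _) h

/-- ING -/
theorem ing : IngStmt := by
  intro R Γ W I Ω _ _ _ _ _ _ _ _ D BX hX
  classical
  refine ⟨eps D, ?_, ?_, ?_⟩
  · intro u ω
    funext x
    obtain ⟨j, ω'⟩ := x
    rw [BX.comm, hX.2, lm_eps D hX, eps_apply, Finset.sum_mul,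
      ← Equiv.sum_comp (Equiv.mulRight u) (fun v : W => (if v • ω = ω' then
        D.lam (D.om v⁻¹ * D.cf' j * D.om u) • D.om v else 0) * D.om u⁻¹)]
    refine Finset.sum_congr rfl fun t _ => ?_
    rw [Equiv.coe_mulRight, mul_smul]
    by_cases ht : t • u • ω = ω'
    · rw [if_pos ht, if_pos ht, smul_mul_assoc, ← map_mul D.om, mul_inv_cancel_right,
        mul_inv_rev, map_mul D.om]
      congr 1
      rw [D.sym _ (D.om u), mul_assoc (D.om u⁻¹), ← mul_assoc (D.om u), ← map_mul D.om,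
        mul_inv_cancel, map_one, one_mul]
    · rw [if_neg ht, if_neg ht, zero_mul]
  · intro f
    funext x
    obtain ⟨j, ω'⟩ := x
    rw [Finset.sum_apply, Finset.sum_eq_single j]
    · rw [Finset.sum_apply, Finset.sum_eq_single ω']
      · rw [BX.comm, hX.2, lm_cf_eps D hX, if_pos ⟨rfl, rfl⟩, one_mul]
      · intro ω _ hω
        rw [BX.comm, hX.2, lm_cf_eps D hX, if_neg (fun h => hω h.2), zero_mul]
      · intro h
        exact absurd (Finset.mem_univ _) h
    · intro i _ hi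
      rw [Finset.sum_apply]
      refine Finset.sum_eq_zero fun ω _ => ?_
      rw [BX.comm, hX.2, lm_cf_eps D hX, if_neg (fun h => hi h.1), zero_mul]
    · intro h
      exact absurd (Finset.mem_univ _) h
  · intro ω x _
    refine Finset.sum_congr rfl fun w _ => ?_
    by_cases h : w • ω = x.2
    · rw [if_pos h, if_pos h]
    · rw [if_neg h, if_neg h]

/-- right multiplication of a fixed vector -/
def rmv (BN : BiM R Γ N) (n : N) : Γ →ₗ[R] N where
  toFun := fun γ => BN.rm (op γ) n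
  map_add' := fun a b => by
    rw [op_add, map_add]
    rfl
  map_smul' := fun r a => by
    rw [op_smul, map_smul]
    rfl

/-- the homomorphism given by an equivariant map -/
def gm (D : WFS R Γ W I) (BN : BiM R Γ N) (m : Ω → N) : (I × Ω → Γ) →ₗ[R] N :=
  ∑ i, ∑ ω, (BN.lm (D.cf i)) ∘ₗ (rmv BN (m ω)) ∘ₗ (LinearMap.proj (i, ω))

omit [Fintype Ω] in
theorem om_eq {D : WFS R Γ W I} {BN : BiM R Γ N} {m : Ω → N}
    (hm : EqM D.om BN m) (w : W) (ω : Ω) :
    BN.rm (op (D.om w)) (m (w • ω)) = BN.lm (D.om w) (m ω) := by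
  rw [hm, ← BN.comm, ← Module.End.mul_apply (BN.rm (op (D.om w))), ← map_mul BN.rm, ← op_mul,
    ← map_mul, inv_mul_cancel, map_one, op_one, map_one]
  rfl

omit [MulAction W Ω] in
theorem gm_apply (D : WFS R Γ W I) (BN : BiM R Γ N) (m : Ω → N) (f : I × Ω → Γ) :
    gm D BN m f = ∑ i, ∑ ω, BN.lm (D.cf i) (BN.rm (op (f (i, ω))) (m ω)) := by
  unfold gm
  rw [LinearMap.sum_apply]
  refine Finset.sum_congr rfl fun i _ => ?_
  rw [LinearMap.sum_apply]
  rfl

/-- the first dual family formula in a bimodule -/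
theorem lm_dual (D : WFS R Γ W I) (BN : BiM R Γ N) (x : Γ) (n : N) :
    ∑ j, ∑ w, D.lam (D.om w⁻¹ * D.cf' j * x) • BN.lm (D.cf j) (BN.lm (D.om w) n) =
      BN.lm x n := by
  conv_rhs => rw [← D.h1 x]
  rw [map_sum, LinearMap.sum_apply]
  refine Finset.sum_congr rfl fun j _ => ?_
  rw [map_sum, LinearMap.sum_apply]
  refine Finset.sum_congr rfl fun w _ => ?_
  rw [map_smul, map_mul BN.lm]
  rfl

/-- INM -/
theorem inm : InmStmt := by
  intro R Γ W I Ω N _ _ _ _ _ _ _ _ D BX hX _ _ BN m hm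
  classical
  refine ⟨gm D BN m, ⟨?_, ?_⟩, gm_apply D BN m, ?_⟩
  · intro γ f
    rw [gm_apply, gm_apply, map_sum]
    have h1 : ∀ (j : I) (ω' : Ω), BN.lm (D.cf j) (BN.rm (op (BX.lm γ f (j, ω'))) (m ω')) =
        ∑ i, ∑ w, D.lam (D.om w⁻¹ * D.cf' j * γ * D.cf i) •
          BN.lm (D.cf j) (BN.rm (op (f (i, w⁻¹ • ω'))) (BN.rm (op (D.om w)) (m ω'))) := by
      intro j ω'
      have h2 : BN.lm (D.cf j) (BN.rm (op (BX.lm γ f (j, ω'))) (m ω')) =
          ((BN.lm (D.cf j)) ∘ₗ (rmv BN (m ω'))) (BX.lm γ f (j, ω')) := rfl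
      rw [h2, hX.1, map_sum]
      refine Finset.sum_congr rfl fun i _ => ?_
      rw [map_sum]
      refine Finset.sum_congr rfl fun w _ => ?_
      rw [map_smul]
      congr 1
      show BN.lm (D.cf j) (BN.rm (op (D.om w * f (i, w⁻¹ • ω'))) (m ω')) = _
      rw [op_mul, map_mul]
      rfl
    rw [Finset.sum_congr rfl fun j _ => Finset.sum_congr rfl fun ω' _ => h1 j ω']
    -- order of the sums: i, ω, j, w
    have h3 : ∀ j : I, ∑ ω' : Ω, ∑ i : I, ∑ w : W, D.lam (D.om w⁻¹ * D.cf' j * γ * D.cf i) •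
          BN.lm (D.cf j) (BN.rm (op (f (i, w⁻¹ • ω'))) (BN.rm (op (D.om w)) (m ω'))) =
        ∑ i : I, ∑ ω : Ω, ∑ w : W, D.lam (D.om w⁻¹ * D.cf' j * (γ * D.cf i)) •
          BN.lm (D.cf j) (BN.lm (D.om w) (BN.rm (op (f (i, ω))) (m ω))) := by
      intro j
      rw [Finset.sum_comm]
      refine Finset.sum_congr rfl fun i _ => ?_
      rw [Finset.sum_comm]
      rw [Finset.sum_comm (f := fun (ω : Ω) (w : W) =>
        D.lam (D.om w⁻¹ * D.cf' j * (γ * D.cf i)) •
          BN.lm (D.cf j) (BN.lm (D.om w) (BN.rm (op (f (i, ω))) (m ω))))]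
      refine Finset.sum_congr rfl fun w _ => ?_
      rw [← Equiv.sum_comp (MulAction.toPerm w : Equiv.Perm Ω)]
      refine Finset.sum_congr rfl fun ω _ => ?_
      rw [MulAction.toPerm_apply, inv_smul_smul, om_eq hm, mul_assoc (D.om w⁻¹ * D.cf' j),
        ← BN.comm (D.om w)]
    rw [Finset.sum_congr rfl fun j _ => h3 j, Finset.sum_comm]
    refine Finset.sum_congr rfl fun i _ => ?_
    rw [Finset.sum_comm, map_sum]
    refine Finset.sum_congr rfl fun ω _ => ?_
    rw [lm_dual D BN (γ * D.cf i), map_mul]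
    rfl
  · intro γ f
    obtain ⟨γ, rfl⟩ := op_surjective γ
    rw [gm_apply, gm_apply, map_sum]
    refine Finset.sum_congr rfl fun i _ => ?_
    rw [map_sum]
    refine Finset.sum_congr rfl fun ω _ => ?_
    rw [hX.2, op_mul, map_mul, ← BN.comm]
    rfl
  · intro ω e _ he
    rw [gm_apply]
    have h1 : ∀ (i : I) (ω' : Ω), BN.lm (D.cf i) (BN.rm (op (e (i, ω'))) (m ω')) =
        ∑ w : W, if w • ω = ω' then D.lam (D.om w⁻¹ * D.cf' i) •
          BN.lm (D.cf i) (BN.rm (op (D.om w)) (m ω')) else 0 := by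
      intro i ω'
      have h2 : BN.lm (D.cf i) (BN.rm (op (e (i, ω'))) (m ω')) =
          ((BN.lm (D.cf i)) ∘ₗ (rmv BN (m ω'))) (e (i, ω')) := rfl
      rw [h2, he, map_sum]
      refine Finset.sum_congr rfl fun w _ => ?_
      by_cases hw : w • ω = ω'
      · rw [if_pos hw, if_pos hw, map_smul]
        rfl
      · rw [if_neg hw, if_neg hw, map_zero]
    have h3 : ∀ i : I, ∑ ω' : Ω, BN.lm (D.cf i) (BN.rm (op (e (i, ω'))) (m ω')) =
        ∑ w : W, D.lam (D.om w⁻¹ * D.cf' i * 1) • BN.lm (D.cf i) (BN.lm (D.om w) (m ω)) := by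
      intro i
      rw [Finset.sum_congr rfl fun ω' _ => h1 i ω', Finset.sum_comm]
      refine Finset.sum_congr rfl fun w _ => ?_
      rw [Finset.sum_ite_eq Finset.univ (w • ω) (fun ω' => D.lam (D.om w⁻¹ * D.cf' i) •
        BN.lm (D.cf i) (BN.rm (op (D.om w)) (m ω'))), if_pos (Finset.mem_univ _), om_eq hm,
        mul_one]
    rw [Finset.sum_congr rfl fun i _ => h3 i, lm_dual D BN 1, map_one]
    rfl

end

end Pool.Agent.PFD.D2b.H33
end
end -- Pool.Agent.Helper33_PFD.ING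

section -- Pool.Agent.Helper3_PFD.ZET

/-!
# Squad PFD, row ZET: the divergence
-/

open scoped BigOperators

noncomputable section

namespace Pool.Agent.PFD.D4.H3

open Pool.Agent.PFC.B1 (FS Split)

theorem zet (hCRS : CrsStmt) (hTTR : TtrStmt) (hZPN : ZpnStmt) (hRTC : RtcStmt) : ZetStmt := by
  intro K B A I J N _ _ _ _ _ _ _ _ _ _ _ _ D
  have huu : D.u' * D.u = 1 := by rw [← D.uc]; exact D.uu
  have hu' : ∀ b, D.u' * b = b * D.u' := by
    intro b
    calc D.u' * b = D.u' * b * (D.u * D.u') := by rw [D.uu, mul_one]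
      _ = D.u' * (b * D.u) * D.u' := by noncomm_ring
      _ = D.u' * (D.u * b) * D.u' := by rw [D.uc]
      _ = (D.u' * D.u) * b * D.u' := by noncomm_ring
      _ = b * D.u' := by rw [huu, one_mul]
  have hvu : ∀ b, D.v D.u * b = b * D.v D.u := by
    intro b
    have h1 := congrArg D.v (D.uc b)
    rw [D.vm, D.vm, D.uc (D.v b), add_comm (D.v b * D.u)] at h1
    exact add_right_cancel h1
  set ν : B := D.u' * D.v D.u with hν
  have hνc : ∀ b, ν * b = b * ν := by
    intro b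
    rw [hν, mul_assoc, hvu, ← mul_assoc, hu', mul_assoc]
  have hνn : IsNilpotent ν := by
    obtain ⟨m, hm⟩ := D.nil D.u
    refine ⟨m, ?_⟩
    have hc : Commute D.u' (D.v D.u) := hu' _
    rw [hν, hc.mul_pow, hm, mul_zero]
  set De : B := ν - algebraMap K B (D.wt : K) with hDe
  have hDec : ∀ b, De * b = b * De := by
    intro b
    rw [hDe, sub_mul, mul_sub, hνc, Algebra.commutes]
  refine ⟨De, ν, rfl, hνn, hνc, ?_, ?_⟩
  · intro a
    have h1 := D.tv (D.u * a)
    rw [D.vm, mul_add, ← mul_assoc, ← mul_assoc, ← mul_assoc, huu, one_mul, one_mul, map_add] at h1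
    rw [hDe, mul_sub, map_sub, ← hνc a, ← Algebra.commutes, ← Algebra.smul_def, map_smul,
      smul_eq_mul, ← h1, hν]
    ring
  · obtain ⟨t0, ht0⟩ := hCRS K B A I J N D (D.sp.j De) (fun b => by
      rw [← map_mul, ← map_mul, hDec])
    obtain ⟨r1, r2, r3, r4, -⟩ := hTTR K B A I J N D
    obtain ⟨s1, s2, -⟩ := hRTC K B A N D.sp.j D.sp.pr D.s
    set ζ : A := D.s.rt (D.sp.j De) + algebraMap K A (D.wt : K) with hζ
    have hζ1 : ζ = D.sp.j ν + D.TB t0 := by
      rw [hζ, ht0, hDe, map_sub, AlgHom.commutes]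
      abel
    have hζc : ∀ a, a * ζ = ζ * a := by
      intro a
      rw [hζ, mul_add, add_mul, s1 (D.sp.j De) (fun γ => by
        rw [← map_mul, ← map_mul, hDec]) a, Algebra.commutes]
    have hTBadd : ∀ a b, D.TB (a + b) = D.TB a + D.TB b := by
      intro a b
      unfold KL.TB
      rw [← Finset.sum_add_distrib]
      refine Finset.sum_congr rfl fun i _ => ?_
      rw [mul_add, add_mul]
    have hjν : ∀ b, D.sp.j b * D.sp.j ν = D.sp.j ν * D.sp.j b := fun b => by
      rw [← map_mul, ← map_mul, hνc]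
    have hpow : ∀ m : ℕ, ∃ t, ζ ^ m = D.sp.j ν ^ m + D.TB t := by
      intro m
      induction m with
      | zero =>
        refine ⟨0, ?_⟩
        have h0 : D.TB 0 = 0 := by
          unfold KL.TB
          simp
        rw [pow_zero, pow_zero, h0, add_zero]
      | succ m ih =>
        obtain ⟨t, ht⟩ := ih
        have hm : ∀ b, D.sp.j b * D.sp.j ν ^ m = D.sp.j ν ^ m * D.sp.j b := fun b => by
          have h2 : Commute (D.sp.j b) (D.sp.j ν) := hjν b
          exact h2.pow_right m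
        refine ⟨D.sp.j ν ^ m * t0 + (t * D.sp.j ν + t * D.TB t0), ?_⟩
        rw [hTBadd, hTBadd, ← (r3 t0 _ hm).1, ← (r3 t _ hjν).2, ← (r3 t _ (r2 t0)).2, pow_succ,
          ht, hζ1, pow_succ]
        noncomm_ring
    obtain ⟨M, hM⟩ := hνn
    obtain ⟨t, ht⟩ := hpow M
    have ht' : ζ ^ M = D.TB t := by
      rw [ht, ← map_pow, hM, map_zero, zero_add]
    obtain ⟨w, hw⟩ := D.un1
    have h1c : ∀ a, a * D.s.rt 1 = D.s.rt 1 * a := s1 1 (fun γ => by rw [mul_one, one_mul])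
    have hwc : ∀ a, a * (↑w⁻¹ : A) = ↑w⁻¹ * a := by
      intro a
      have h2 : Commute a (w : A) := by
        rw [hw]
        exact h1c a
      exact h2.units_inv_right
    have hζMc : ∀ a, ζ ^ M * a = a * ζ ^ M := by
      intro a
      have h2 : Commute a ζ := hζc a
      exact (h2.pow_right M).symm
    have h3 : ζ ^ M * D.s.rt 1 = D.TA t := by
      rw [← s2 (ζ ^ M) 1 hζMc, mul_one, ht', r1]
    have h4 : ζ ^ M = D.TA (↑w⁻¹ * t) := by
      rw [← r4 t (↑w⁻¹) hwc, ← h3, ← hw, ← hwc, mul_assoc, Units.mul_inv, mul_one]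
    obtain ⟨k, hk⟩ := hZPN K B A I J N D (↑w⁻¹ * t)
    refine ⟨M * k, ?_⟩
    rw [pow_mul, h4, hk]

end Pool.Agent.PFD.D4.H3
end
end -- Pool.Agent.Helper3_PFD.ZET

section -- Pool.Agent.Helper41_PFD.BSP

open scoped BigOperators TensorProduct

namespace Pool.Agent.PFD.D4.H41

open Pool.Agent.PFC.B1 (BiM FS Sep Split)
open Pool.Agent.PFD.D2
open Pool.Agent.PFD.D2b

noncomputable section

theorem bsp : BspStmt := by
  intro R K Γ A I _ _ _ _ _ _ _ _ c c' j pr a m hb hb' hj hl hr ha hm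
  have jt : ∀ (k : K) (γ : Γ), Algebra.TensorProduct.map (AlgHom.id K K) j (k ⊗ₜ[R] γ) =
      k ⊗ₜ[R] j γ := fun k γ => rfl
  have pt : ∀ (k : K) (x : A), pr.baseChange K (k ⊗ₜ[R] x) = k ⊗ₜ[R] pr x := fun k x => rfl
  have at' : ∀ (k : K) (x : A), a.baseChange K (k ⊗ₜ[R] x) = k ⊗ₜ[R] a x := fun k x => rfl
  refine ⟨{ j := Algebra.TensorProduct.map (AlgHom.id K K) j
            pr := pr.baseChange K
            pr_j := ?_
            pr_l := ?_
            pr_r := ?_
            a := (algebraMap R K m)⁻¹ • a.baseChange K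
            a_id := ?_ }, jt, pt⟩
  · intro γ
    induction γ using TensorProduct.induction_on with
    | zero => simp
    | tmul k γ => rw [jt, pt, hj]
    | add x y hx hy => rw [map_add, map_add, hx, hy]
  · intro γ x
    induction γ using TensorProduct.induction_on with
    | zero => simp
    | tmul k γ =>
      induction x using TensorProduct.induction_on with
      | zero => simp
      | tmul l x =>
        rw [jt, pt, Algebra.TensorProduct.tmul_mul_tmul, Algebra.TensorProduct.tmul_mul_tmul, pt, hl]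
      | add x y hx hy => rw [mul_add, map_add, map_add, mul_add, hx, hy]
    | add x y hx hy => rw [map_add, add_mul, map_add, add_mul, hx, hy]
  · intro x γ
    induction γ using TensorProduct.induction_on with
    | zero => simp
    | tmul k γ =>
      induction x using TensorProduct.induction_on with
      | zero => simp
      | tmul l x =>
        rw [jt, pt, Algebra.TensorProduct.tmul_mul_tmul, Algebra.TensorProduct.tmul_mul_tmul, pt, hr]
      | add x y hx hy => rw [add_mul, map_add, map_add, add_mul, hx, hy]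
    | add x y hx hy => rw [map_add, mul_add, map_add, mul_add, hx, hy]
  · intro x
    induction x using TensorProduct.induction_on with
    | zero => simp
    | tmul k y =>
      have h1 : ∀ i l, Algebra.TensorProduct.map (AlgHom.id K K) j (c'.b i) *
          ((algebraMap R K m)⁻¹ • a.baseChange K)
            (Algebra.TensorProduct.map (AlgHom.id K K) j (c'.b' i) * (k ⊗ₜ[R] y) *
              Algebra.TensorProduct.map (AlgHom.id K K) j (c'.b l)) *
          Algebra.TensorProduct.map (AlgHom.id K K) j (c'.b' l) =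
          (algebraMap R K m)⁻¹ • (k ⊗ₜ[R]
            (j (c.b i) * a (j (c.b' i) * y * j (c.b l)) * j (c.b' l))) := by
        intro i l
        rw [hb, hb', hb, hb', jt, jt, jt, jt, Algebra.TensorProduct.tmul_mul_tmul,
          Algebra.TensorProduct.tmul_mul_tmul, LinearMap.smul_apply, at', mul_smul_comm,
          smul_mul_assoc, Algebra.TensorProduct.tmul_mul_tmul,
          Algebra.TensorProduct.tmul_mul_tmul]
        simp only [one_mul, mul_one]
      rw [Finset.sum_congr rfl fun i _ => Finset.sum_congr rfl fun l _ => h1 i l]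
      simp only [← Finset.smul_sum]
      simp only [← TensorProduct.tmul_sum]
      rw [ha, TensorProduct.tmul_smul, ← algebraMap_smul K m, smul_smul, inv_mul_cancel₀ hm,
        one_smul, TensorProduct.tmul_sub, pt, jt]
    | add x y hx hy =>
      simp only [mul_add, add_mul, map_add, Finset.sum_add_distrib]
      rw [hx, hy]
      abel

end

end Pool.Agent.PFD.D4.H41
end -- Pool.Agent.Helper41_PFD.BSP

section -- Pool.Agent.Helper48_PFD.LAX

/-!
# Squad PFD, row LAX (block D2b): the lift `A1`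
-/

set_option autoImplicit false

open scoped BigOperators

noncomputable section

namespace Pool.Agent.PFD.D2b.H48

open MulOpposite
open Pool.Agent.PFC.B1 (BiM FS Sep)
open Pool.Agent.PFD.D2 Pool.Agent.PFD.D2b

theorem kappa_pi {R F : Type} [CommRing R] [Field F] (c : Cdv R F) : c.κ c.π = 0 :=
  (c.ker c.π).2 ⟨1, (mul_one _).symm⟩

theorem fib_pi {R F A' A : Type} [CommRing R] [Field F] {c : Cdv R F} [Ring A'] [Algebra R A']
    [Ring A] [Algebra F A] (fb : FibG A' A c) (y : A') : fb.q (c.π • y) = 0 := by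
  rw [Algebra.smul_def, map_mul, fb.sc, kappa_pi, map_zero, zero_mul]

theorem lax (hHGR : HgrStmt) (hXCL : XclStmt) : LaxStmt := by
  intro R F Γ Γ0 A X0 W I Ω A1 _ _ c _ _ _ _ _ _ _ _ _ _ _ _ _ _ _ D f BX hX B0 sp0 df ctr
  obtain ⟨aX, haX⟩ := hHGR R Γ W I Ω D BX hX
  refine ⟨{ fb := df.fb, j := df.sp.j, pr := df.sp.pr, pr_j := df.sp.pr_j, pr_l := df.sp.pr_l,
            pr_r := df.sp.pr_r, cj := df.cj, cp := df.cp,
            a := df.sp.p ∘ₗ aX ∘ₗ df.sp.i, a_id := ?_, cl := ?_ }⟩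
  · intro x
    have key : ∀ s t, df.sp.j (D.fs.b s) * (df.sp.p ∘ₗ aX ∘ₗ df.sp.i)
        (df.sp.j (D.fs.b' s) * x * df.sp.j (D.fs.b t)) * df.sp.j (D.fs.b' t) =
        df.sp.p (BX.lm (D.fs.b s) (BX.rm (op (D.fs.b' t)) (aX (BX.lm (D.fs.b' s)
        (BX.rm (op (D.fs.b t)) (df.sp.i x)))))) := by
      intro s t
      rw [df.sp.p1, df.sp.p2, LinearMap.comp_apply, LinearMap.comp_apply, df.sp.i2, df.sp.i1,
        BX.comm, mul_assoc]
    rw [Finset.sum_congr rfl fun s _ => Finset.sum_congr rfl fun t _ => key s t]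
    have h2 := congrArg df.sp.p (haX (df.sp.i x))
    rw [map_smul, df.sp.ip, map_sum] at h2
    rw [← h2]
    refine Finset.sum_congr rfl fun s _ => ?_
    rw [map_sum]
  · intro x0 hx0
    have hc : ∀ γ, sp0.pr x0 * γ = γ * sp0.pr x0 := by
      intro γ
      rw [← sp0.pr_l, ← sp0.pr_r, hx0]
    obtain ⟨ζ, hζ, hζq⟩ := ctr _ hc
    obtain ⟨a1, ha1⟩ := df.fb.surj x0
    have hcom : ∀ γ, ∃ y, BX.lm γ (df.sp.i a1) - BX.rm (op γ) (df.sp.i a1) = c.π • y := by
      intro γ
      have h0 : df.fb.q (df.sp.j γ * a1 - a1 * df.sp.j γ) = 0 := by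
        rw [map_sub, map_mul, map_mul, df.cj, ha1, hx0, sub_self]
      obtain ⟨y, hy⟩ := df.fb.ker _ h0
      refine ⟨df.sp.i y, ?_⟩
      rw [← df.sp.i1, ← df.sp.i2, ← map_sub, hy, map_smul]
    obtain ⟨x', hx', y, hy⟩ := hXCL R Γ W I Ω D BX c.π hX (df.sp.i a1) hcom
    refine ⟨df.sp.j ζ + df.sp.p x', ?_, ?_⟩
    · intro γ
      rw [mul_add, add_mul, ← map_mul, ← map_mul, hζ, ← df.sp.p1, ← df.sp.p2, hx']
    · have e : x' = df.sp.i a1 + c.π • y := by
        rw [← hy]; abel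
      rw [map_add, df.cj, hζq, e, map_add, map_smul, df.sp.ip, map_add, fib_pi, map_sub, df.cj,
        ← df.cp, ha1]
      abel

end Pool.Agent.PFD.D2b.H48
end
end -- Pool.Agent.Helper48_PFD.LAX

section -- Pool.Agent.Helper52_PFD.ORT

set_option autoImplicit false

open scoped BigOperators TensorProduct

noncomputable section

namespace Pool.Agent.PFD.H52

open Pool.Agent.PFC.B1 (BiM FS Sep Split)
open Pool.Agent.PFD.D2
open Pool.Agent.PFD.D2b
open Pool.Agent.PFD.D4

/-- elements are determined by the values `lam (x γ)` -/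
theorem lam_det {R Γ W I : Type} [CommRing R] [Ring Γ] [Algebra R Γ] [CommGroup W] [Fintype W]
    [Fintype I] (D : WFS R Γ W I) {x y : Γ} (h : ∀ γ, D.lam (x * γ) = D.lam (y * γ)) : x = y := by
  rw [← D.h2 x, ← D.h2 y]
  refine Finset.sum_congr rfl fun i _ => Finset.sum_congr rfl fun w _ => ?_
  rw [h]

section ee

variable {R Γ A1 W I : Type} [CommRing R] [Ring Γ] [Algebra R Γ] [Ring A1] [Algebra R A1]
  [CommGroup W] [Fintype W] [Fintype I] (D : WFS R Γ W I) (j : Γ →ₐ[R] A1) (tA : A1 →ₗ[R] R)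

/-- the map `e` -/
def emap : A1 →ₗ[R] Γ where
  toFun := fun a => ∑ s, tA (a * j (D.fs.b s)) • D.fs.b' s
  map_add' := fun a b => by
    simp only [add_mul, map_add, add_smul, Finset.sum_add_distrib]
  map_smul' := fun r a => by
    rw [RingHom.id_apply, Finset.smul_sum]
    refine Finset.sum_congr rfl fun s _ => ?_
    rw [smul_mul_assoc, map_smul, smul_assoc]

theorem lam_emap (a : A1) (γ : Γ) : D.lam (emap D j tA a * γ) = tA (a * j γ) := by
  have h1 : γ = ∑ s, D.fs.lam (D.fs.b' s * γ) • D.fs.b s := (D.fs.h1 γ).symm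
  conv_rhs => rw [h1]
  change D.lam ((∑ s, tA (a * j (D.fs.b s)) • D.fs.b' s) * γ) = _
  rw [Finset.sum_mul, map_sum, map_sum, Finset.mul_sum, map_sum]
  refine Finset.sum_congr rfl fun s _ => ?_
  rw [smul_mul_assoc, map_smul, map_smul, mul_smul_comm, map_smul, smul_eq_mul, smul_eq_mul,
    mul_comm]
  rfl

variable {tA} (ts : ∀ a b, tA (a * b) = tA (b * a))

include ts

theorem emap_l (δ : Γ) (a : A1) : emap D j tA (j δ * a) = δ * emap D j tA a := by
  apply lam_det D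
  intro γ
  rw [lam_emap, mul_assoc δ, D.sym δ, mul_assoc (emap D j tA a), lam_emap, mul_assoc (j δ), ts,
    mul_assoc a, ← map_mul j]

omit ts in
theorem emap_r (δ : Γ) (a : A1) : emap D j tA (a * j δ) = emap D j tA a * δ := by
  apply lam_det D
  intro γ
  rw [lam_emap, mul_assoc a, mul_assoc (emap D j tA a), lam_emap, map_mul j]

end ee

theorem ort (lcu : LcuStmt) (rwf : RwfStmt) (unm : UnmStmt) : OrtStmt := by
  intro R F Γ Γ0 A A1 W I _ _ c _ _ _ _ _ _ _ _ _ _ _ _ _ _ D f j0 pr0 mu la tA h1 h2 h3 ms mp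
    mn ts tm
  obtain ⟨D0, hD0, -⟩ := rwf R F Γ Γ0 W I c f D
  -- the element `u`
  obtain ⟨u, uc, hu⟩ := (lcu R Γ W I D).1 (tA ∘ₗ la.j.toLinearMap) (by
    intro x y
    change tA (la.j (x * y)) = tA (la.j (y * x))
    rw [map_mul la.j, map_mul la.j, ts])
  have hu' : ∀ γ, tA (la.j γ) = D.lam (u * γ) := fun γ => hu γ
  have hfu : ∀ γ0 : Γ0, D0.lam (f.q u * γ0) = mu (j0 γ0) := by
    intro γ0
    obtain ⟨γ, rfl⟩ := f.surj γ0
    rw [← map_mul, hD0, ← hu', tm, la.cj]
  have hfc : ∀ γ0 : Γ0, f.q u * γ0 = γ0 * f.q u := by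
    intro γ0
    obtain ⟨γ, rfl⟩ := f.surj γ0
    rw [← map_mul, uc, map_mul]
  have hinj : ∀ γ0 : Γ0, f.q u * γ0 = 0 → γ0 = 0 := by
    intro γ0 h0
    have h4 : ∀ a, mu (j0 γ0 * a) = 0 := by
      intro a
      rw [← mp, h2, ← hfu, ← mul_assoc, h0, zero_mul, map_zero]
    have h5 := mn _ h4
    rw [← h1 γ0, h5, map_zero]
  have hunit : IsUnit (f.q u) := by
    have h4 : Function.Injective (LinearMap.mulLeft F (f.q u)) := by
      rw [injective_iff_map_eq_zero]
      intro x hx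
      exact hinj x hx
    obtain ⟨v, hv⟩ := LinearMap.injective_iff_surjective.mp h4 1
    have hv' : f.q u * v = 1 := hv
    exact ⟨⟨f.q u, v, hv', by rw [← hfc, hv']⟩, rfl⟩
  obtain ⟨U, hU⟩ := unm R F Γ0 Γ c f u hunit
  obtain ⟨u', hu'def⟩ : ∃ u' : Γ, u' = ((U⁻¹ : Γˣ) : Γ) := ⟨_, rfl⟩
  have huu : u * u' = 1 := by
    rw [hu'def, ← hU]
    exact U.mul_inv
  have huu' : u' * u = 1 := by
    rw [hu'def, ← hU]
    exact U.inv_mul
  have uc' : ∀ γ, u' * γ = γ * u' := by
    intro γ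
    calc u' * γ = u' * (γ * (u * u')) := by rw [huu, mul_one]
      _ = u' * (γ * u) * u' := by simp only [mul_assoc]
      _ = γ * u' := by rw [← uc, ← mul_assoc u', huu', one_mul]
  -- the projection
  obtain ⟨e, he⟩ : ∃ e : A1 →ₗ[R] Γ, e = emap D la.j tA := ⟨_, rfl⟩
  have elam : ∀ a γ, D.lam (e a * γ) = tA (a * la.j γ) := fun a γ => by rw [he, lam_emap]
  have el : ∀ δ a, e (la.j δ * a) = δ * e a := fun δ a => by rw [he, emap_l D la.j ts]
  have er : ∀ δ a, e (a * la.j δ) = e a * δ := fun δ a => by rw [he, emap_r D la.j]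
  obtain ⟨pr', hpr'⟩ : ∃ pr' : A1 →ₗ[R] Γ, ∀ a, pr' a = u' * e a :=
    ⟨(LinearMap.mulLeft R u') ∘ₗ e, fun a => rfl⟩
  have upr : ∀ a, u * pr' a = e a := fun a => by rw [hpr', ← mul_assoc, huu, one_mul]
  have prj : ∀ γ, pr' (la.j γ) = γ := by
    intro γ
    have h4 : e (la.j γ) = u * γ := by
      apply lam_det D
      intro δ
      rw [elam, ← map_mul la.j, hu', mul_assoc]
    rw [hpr', h4, ← mul_assoc, huu', one_mul]
  have prl : ∀ γ x, pr' (la.j γ * x) = γ * pr' x := by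
    intro γ x
    rw [hpr', hpr', el, ← mul_assoc, uc', mul_assoc]
  have prr : ∀ x γ, pr' (x * la.j γ) = pr' x * γ := by
    intro x γ
    rw [hpr', hpr', er, mul_assoc]
  have hcp : ∀ x, pr0 (la.fb.q x) = f.q (pr' x) := by
    intro x
    have h4 : f.q u * pr0 (la.fb.q x) = f.q u * f.q (pr' x) := by
      apply lam_det D0
      intro γ0
      obtain ⟨γ, rfl⟩ := f.surj γ0
      rw [mul_assoc, hfu, ← h3, mp, ← map_mul f.q, ← map_mul f.q, hD0, upr, elam, tm,
        map_mul la.fb.q, la.cj]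
    exact hunit.mul_left_cancel h4
  have hq : ∀ y, la.j y - la.j (pr' (la.j y)) = 0 := by
    intro y
    rw [prj, sub_self]
  refine ⟨{
    fb := la.fb
    j := la.j
    pr := pr'
    pr_j := prj
    pr_l := prl
    pr_r := prr
    cj := la.cj
    cp := hcp
    a := la.a - la.j.toLinearMap ∘ₗ pr' ∘ₗ la.a
    a_id := ?_
    cl := la.cl }, u, u', rfl, rfl, uc, huu, ?_⟩
  · intro x
    have h5 : ∀ y, (la.a - la.j.toLinearMap ∘ₗ pr' ∘ₗ la.a) y = la.a y - la.j (pr' (la.a y)) :=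
      fun y => rfl
    have h6 : ∀ s t, la.j (D.fs.b s) *
        (la.a - la.j.toLinearMap ∘ₗ pr' ∘ₗ la.a) (la.j (D.fs.b' s) * x * la.j (D.fs.b t)) *
        la.j (D.fs.b' t) =
        la.j (D.fs.b s) * la.a (la.j (D.fs.b' s) * x * la.j (D.fs.b t)) * la.j (D.fs.b' t) -
        la.j (pr' (la.j (D.fs.b s) * la.a (la.j (D.fs.b' s) * x * la.j (D.fs.b t)) *
          la.j (D.fs.b' t))) := by
      intro s t
      rw [h5, prr, prl, map_mul la.j, map_mul la.j, mul_sub, sub_mul]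
    rw [Finset.sum_congr rfl fun s _ => Finset.sum_congr rfl fun t _ => h6 s t]
    simp only [Finset.sum_sub_distrib, ← map_sum]
    rw [la.a_id, map_smul, map_smul, map_sub, prj, map_sub, ← smul_sub]
    congr 1
    abel
  · intro a
    change tA a = D.lam (u * pr' a)
    rw [upr, ← mul_one (e a), elam, map_one, mul_one]

end Pool.Agent.PFD.H52
end
end -- Pool.Agent.Helper52_PFD.ORT

section -- Pool.Agent.Helper58_PFC.RNG

set_option autoImplicit false

namespace Pool.Agent.PFC.B1.H58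

open MulOpposite

variable {R Γ P : Type} [CommRing R] [Ring Γ] [Algebra R Γ] [AddCommGroup P] [Module R P]

/-- The underlying type of the algebra. -/
def AA (B : BiM R Γ P) (_ : P →ₗ[R] P →ₗ[R] Γ × P) : Type := have _ := B; Γ × P

instance (B : BiM R Γ P) (β : P →ₗ[R] P →ₗ[R] Γ × P) : AddCommGroup (AA B β) :=
  inferInstanceAs (AddCommGroup (Γ × P))

instance (B : BiM R Γ P) (β : P →ₗ[R] P →ₗ[R] Γ × P) : Module R (AA B β) :=
  inferInstanceAs (Module R (Γ × P))

theorem mu_add (B : BiM R Γ P) (β : P →ₗ[R] P →ₗ[R] Γ × P) (x y z : Γ × P) :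
    B.mu β x (y + z) = B.mu β x y + B.mu β x z := by
  unfold BiM.mu
  ext
  · simp only [Prod.fst_add, Prod.snd_add, mul_add, map_add]
    abel
  · simp only [Prod.fst_add, Prod.snd_add, map_add, op_add, LinearMap.add_apply]
    abel

theorem add_mu (B : BiM R Γ P) (β : P →ₗ[R] P →ₗ[R] Γ × P) (x y z : Γ × P) :
    B.mu β (x + y) z = B.mu β x z + B.mu β y z := by
  unfold BiM.mu
  ext
  · simp only [Prod.fst_add, Prod.snd_add, add_mul, map_add, LinearMap.add_apply]
    abel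
  · simp only [Prod.fst_add, Prod.snd_add, map_add, LinearMap.add_apply]
    abel

theorem smul_mu (B : BiM R Γ P) (β : P →ₗ[R] P →ₗ[R] Γ × P) (r : R) (x y : Γ × P) :
    B.mu β (r • x) y = r • B.mu β x y := by
  unfold BiM.mu
  ext
  · simp only [Prod.fst_add, Prod.smul_fst, Prod.smul_snd, smul_mul_assoc, map_smul,
      LinearMap.smul_apply, smul_add]
  · simp only [Prod.snd_add, Prod.smul_fst, Prod.smul_snd, map_smul,
      LinearMap.smul_apply, smul_add]

theorem mu_smul (B : BiM R Γ P) (β : P →ₗ[R] P →ₗ[R] Γ × P) (r : R) (x y : Γ × P) :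
    B.mu β x (r • y) = r • B.mu β x y := by
  unfold BiM.mu
  ext
  · simp only [Prod.fst_add, Prod.smul_fst, Prod.smul_snd, mul_smul_comm, map_smul, smul_add]
  · simp only [Prod.snd_add, Prod.smul_fst, Prod.smul_snd, map_smul, op_smul,
      LinearMap.smul_apply, smul_add]

theorem one_mu (B : BiM R Γ P) (β : P →ₗ[R] P →ₗ[R] Γ × P) (x : Γ × P) :
    B.mu β (1, 0) x = x := by
  unfold BiM.mu
  ext
  · simp
  · simp

theorem mu_one (B : BiM R Γ P) (β : P →ₗ[R] P →ₗ[R] Γ × P) (x : Γ × P) :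
    B.mu β x (1, 0) = x := by
  unfold BiM.mu
  ext
  · simp
  · simp

/-- The ring structure. -/
@[reducible]
def ringAA (B : BiM R Γ P) (β : P →ₗ[R] P →ₗ[R] Γ × P) (h : ∀ x y z, B.as β x y z = 0) :
    Ring (AA B β) :=
  { (inferInstance : AddCommGroup (AA B β)) with
    mul := B.mu β
    one := ((1, 0) : Γ × P)
    left_distrib := fun x y z => mu_add B β x y z
    right_distrib := fun x y z => add_mu B β x y z
    zero_mul := fun x => by
      have h := smul_mu B β (0 : R) 0 x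
      rw [zero_smul, zero_smul] at h
      exact h
    mul_zero := fun x => by
      have h := mu_smul B β (0 : R) x 0
      rw [zero_smul, zero_smul] at h
      exact h
    mul_assoc := fun x y z => sub_eq_zero.mp (h x y z)
    one_mul := fun x => one_mu B β x
    mul_one := fun x => mu_one B β x }

/-- The algebra structure. -/
@[reducible]
def algAA (B : BiM R Γ P) (β : P →ₗ[R] P →ₗ[R] Γ × P) (h : ∀ x y z, B.as β x y z = 0) :
    @Algebra R (AA B β) _ (ringAA B β h).toSemiring :=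
  letI : Ring (AA B β) := ringAA B β h
  letI : Module R (AA B β) := inferInstanceAs (Module R (Γ × P))
  Algebra.ofModule (fun r x y => smul_mu B β r x y) (fun r x y => mu_smul B β r x y)

theorem rng : RngStmt := by
  intro R Γ P _ _ _ _ _ B β _ h
  exact ⟨AA B β, ringAA B β h, algAA B β h, LinearEquiv.refl R (Γ × P), rfl, fun x y => rfl⟩

end Pool.Agent.PFC.B1.H58
end -- Pool.Agent.Helper58_PFC.RNG

section -- Pool.Agent.Helper65_PFD.CZW

/-! Squad PFD, block D2b part 2, row CZW: relative Casimir elements of two dual families. -/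

set_option autoImplicit false

open scoped BigOperators

namespace Pool.Agent.PFD.D2b.H65

open MulOpposite
open Pool.Agent.PFC.B1 (BiM FS)
open Pool.Agent.PFD.D2 Pool.Agent.PFD.D2b

theorem czw : CzwStmt := by
  intro R Γ W I I' X _ _ _ _ _ _ _ _ _ D D' z z' hom hz hz' hzz hlam β hβ
  have e1 : ∀ y, D'.lam y = D.lam (z' * y) := by
    intro y
    rw [hlam, ← mul_assoc, hzz, one_mul]
  -- the inner sum
  have e2 : ∀ k : I', ∑ i, ∑ w, D'.lam (D'.om w⁻¹ * D'.cf' k * D.cf i) • (D.om w * D.cf' i) =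
      z' * D'.cf' k := by
    intro k
    refine Eq.trans (Finset.sum_congr rfl fun i _ => ?_) (D.h2 (z' * D'.cf' k))
    refine (Equiv.sum_comp (Equiv.inv W) _).symm.trans ?_
    refine Finset.sum_congr rfl fun w _ => ?_
    rw [Equiv.inv_apply, inv_inv]
    have e3 : D'.lam (D'.om w * D'.cf' k * D.cf i) =
        D.lam (z' * D'.cf' k * (D.cf i * D.om w)) := by
      rw [e1, ← hom, show z' * (D.om w * D'.cf' k * D.cf i) =
        (z' * D.om w) * (D'.cf' k * D.cf i) by simp only [mul_assoc], hz',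
        show D.om w * z' * (D'.cf' k * D.cf i) = D.om w * (z' * D'.cf' k * D.cf i) by
          simp only [mul_assoc], D.sym]
      simp only [mul_assoc]
    rw [e3]
  have e4 : ∀ i, β (D.cf i) (D.cf' i) = ∑ k, ∑ w,
      D'.lam (D'.om w⁻¹ * D'.cf' k * D.cf i) • β (D'.cf k) (D.om w * D.cf' i) := by
    intro i
    conv_lhs => rw [← D'.h1 (D.cf i)]
    rw [map_sum, LinearMap.sum_apply]
    refine Finset.sum_congr rfl fun k _ => ?_
    rw [map_sum, LinearMap.sum_apply]
    refine Finset.sum_congr rfl fun w _ => ?_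
    rw [map_smul, LinearMap.smul_apply, ← hom w, ← hβ]
  have e5 : ∀ k, β (D'.cf k) (z' * D'.cf' k) = ∑ i, ∑ w,
      D'.lam (D'.om w⁻¹ * D'.cf' k * D.cf i) • β (D'.cf k) (D.om w * D.cf' i) := by
    intro k
    rw [← e2 k, map_sum]
    refine Finset.sum_congr rfl fun i _ => ?_
    rw [map_sum]
    exact Finset.sum_congr rfl fun w _ => map_smul _ _ _
  rw [Finset.sum_congr rfl fun i _ => e4 i, Finset.sum_comm]
  exact Finset.sum_congr rfl fun k _ => (e5 k).symm

end Pool.Agent.PFD.D2b.H65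
end -- Pool.Agent.Helper65_PFD.CZW

section -- Pool.Agent.Helper65_PFD.INX

/-! Squad PFD, block D2b, row INX: the formula of `IsX` defines a bimodule. -/

set_option autoImplicit false

open scoped BigOperators

namespace Pool.Agent.PFD.D2b.H65

open MulOpposite
open Pool.Agent.PFC.B1 (BiM FS)
open Pool.Agent.PFD.D2 Pool.Agent.PFD.D2b

section
variable {R Γ W I Ω : Type} [CommRing R] [Ring Γ] [Algebra R Γ] [CommGroup W] [Fintype W]
    [Fintype I] [MulAction W Ω]

theorem key (D : WFS R Γ W I) (j k : I) (v : W) (γ δ : Γ) :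
    ∑ i, ∑ w, D.lam (D.om w⁻¹ * D.cf' j * γ * D.cf i) *
      D.lam (D.om (w⁻¹ * v)⁻¹ * D.cf' i * δ * D.cf k) =
      D.lam (D.om v⁻¹ * D.cf' j * (γ * δ) * D.cf k) := by
  have h := congrArg (fun z => D.lam (z * (δ * D.cf k * D.om v⁻¹))) (D.h2 (D.cf' j * γ))
  have h1 : D.lam (D.cf' j * γ * (δ * D.cf k * D.om v⁻¹)) =
      D.lam (D.om v⁻¹ * D.cf' j * (γ * δ) * D.cf k) := by
    rw [show D.cf' j * γ * (δ * D.cf k * D.om v⁻¹) = (D.cf' j * (γ * δ) * D.cf k) * D.om v⁻¹ by
      simp only [mul_assoc], D.sym]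
    simp only [mul_assoc]
  simp only [Finset.sum_mul, map_sum, smul_mul_assoc, map_smul, smul_eq_mul] at h
  rw [h1] at h
  rw [← h]
  refine Finset.sum_congr rfl fun i _ => ?_
  refine (Equiv.sum_comp (Equiv.inv W) _).symm.trans ?_
  refine Finset.sum_congr rfl fun w _ => ?_
  rw [Equiv.inv_apply, inv_inv]
  have e1 : D.lam (D.om w * D.cf' j * γ * D.cf i) =
      D.lam (D.cf' j * γ * (D.cf i * D.om w)) := by
    rw [show D.om w * D.cf' j * γ * D.cf i = D.om w * (D.cf' j * γ * D.cf i) by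
      simp only [mul_assoc], D.sym]
    simp only [mul_assoc]
  have e2 : D.lam (D.om (w * v)⁻¹ * D.cf' i * δ * D.cf k) =
      D.lam (D.om w⁻¹ * D.cf' i * (δ * D.cf k * D.om v⁻¹)) := by
    rw [mul_inv, mul_comm w⁻¹ v⁻¹, D.om.map_mul,
      show D.om v⁻¹ * D.om w⁻¹ * D.cf' i * δ * D.cf k =
        D.om v⁻¹ * (D.om w⁻¹ * D.cf' i * δ * D.cf k) by simp only [mul_assoc], D.sym]
    simp only [mul_assoc]
  rw [e1, e2]

/-- the left multiplication -/
noncomputable def lmL (D : WFS R Γ W I) : Γ →ₗ[R] (I × Ω → Γ) →ₗ[R] (I × Ω → Γ) :=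
  LinearMap.mk₂ R (fun γ f p =>
    ∑ i, ∑ w, D.lam (D.om w⁻¹ * D.cf' p.1 * γ * D.cf i) • (D.om w * f (i, w⁻¹ • p.2)))
    (fun γ γ' f => by
      funext p
      simp only [Pi.add_apply, mul_add, add_mul, map_add, add_smul, Finset.sum_add_distrib])
    (fun r γ f => by
      funext p
      simp only [Pi.smul_apply, mul_smul_comm, smul_mul_assoc, map_smul, smul_assoc,
        Finset.smul_sum])
    (fun γ f f' => by
      funext p
      simp only [Pi.add_apply, mul_add, smul_add, Finset.sum_add_distrib])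
    (fun r γ f => by
      funext p
      simp only [Pi.smul_apply, mul_smul_comm, Finset.smul_sum]
      exact Finset.sum_congr rfl fun i _ => Finset.sum_congr rfl fun w _ => smul_comm _ _ _)

theorem lmL_apply (D : WFS R Γ W I) (γ : Γ) (f : I × Ω → Γ) (p : I × Ω) :
    lmL D γ f p = ∑ i, ∑ w, D.lam (D.om w⁻¹ * D.cf' p.1 * γ * D.cf i) •
      (D.om w * f (i, w⁻¹ • p.2)) := rfl

theorem lmL_one (D : WFS R Γ W I) : lmL (Ω := Ω) D 1 = 1 := by
  apply LinearMap.ext
  intro f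
  funext p
  rw [lmL_apply, Finset.sum_eq_single p.1, Finset.sum_eq_single (1 : W)]
  · have h := D.d1 p.1 1
    rw [inv_one, map_one, one_mul, mul_one] at h
    rw [inv_one, map_one, one_mul, mul_one, h, one_smul, one_mul, one_smul]
    rfl
  · intro w _ hw
    have h := D.d0 p.1 p.1 w 1 (Or.inr hw)
    rw [map_one, mul_one] at h
    rw [mul_one, h, zero_smul]
  · intro h
    exact absurd (Finset.mem_univ _) h
  · intro i _ hi
    apply Finset.sum_eq_zero
    intro w _
    have h := D.d0 p.1 i w 1 (Or.inl (Ne.symm hi))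
    rw [map_one, mul_one] at h
    rw [mul_one, h, zero_smul]
  · intro h
    exact absurd (Finset.mem_univ _) h

theorem lmL_mul (D : WFS R Γ W I) (γ δ : Γ) :
    lmL (Ω := Ω) D (γ * δ) = lmL (Ω := Ω) D γ * lmL (Ω := Ω) D δ := by
  apply LinearMap.ext
  intro f
  funext p
  rw [Module.End.mul_apply, lmL_apply, lmL_apply]
  have h1 : ∀ (i : I) (w : W), D.lam (D.om w⁻¹ * D.cf' p.1 * γ * D.cf i) •
      (D.om w * lmL D δ f (i, w⁻¹ • p.2)) =
      ∑ k, ∑ v, (D.lam (D.om w⁻¹ * D.cf' p.1 * γ * D.cf i) *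
        D.lam (D.om (w⁻¹ * v)⁻¹ * D.cf' i * δ * D.cf k)) • (D.om v * f (k, v⁻¹ • p.2)) := by
    intro i w
    rw [lmL_apply, Finset.mul_sum, Finset.smul_sum]
    refine Finset.sum_congr rfl fun k _ => ?_
    rw [Finset.mul_sum, Finset.smul_sum]
    refine (Equiv.sum_comp (Equiv.mulLeft w⁻¹) _).symm.trans ?_
    refine Finset.sum_congr rfl fun v _ => ?_
    have h2 : (w⁻¹ * v)⁻¹ • w⁻¹ • p.2 = v⁻¹ • p.2 := by
      rw [smul_smul, mul_inv_rev, inv_inv, mul_assoc, mul_inv_cancel, mul_one]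
    have h5 : D.om w * D.om (w⁻¹ * v) = D.om v := by
      rw [← D.om.map_mul, mul_inv_cancel_left]
    show D.lam (D.om w⁻¹ * D.cf' p.1 * γ * D.cf i) • (D.om w *
      (D.lam (D.om (w⁻¹ * v)⁻¹ * D.cf' i * δ * D.cf k) •
        (D.om (w⁻¹ * v) * f (k, (w⁻¹ * v)⁻¹ • w⁻¹ • p.2)))) = _
    rw [h2, mul_smul_comm, smul_smul, ← mul_assoc (D.om w), h5]
  simp only [h1]
  have h3 : ∀ (k : I) (v : W), D.lam (D.om v⁻¹ * D.cf' p.1 * (γ * δ) * D.cf k) •
      (D.om v * f (k, v⁻¹ • p.2)) = ∑ i, ∑ w,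
      (D.lam (D.om w⁻¹ * D.cf' p.1 * γ * D.cf i) *
        D.lam (D.om (w⁻¹ * v)⁻¹ * D.cf' i * δ * D.cf k)) • (D.om v * f (k, v⁻¹ • p.2)) := by
    intro k v
    rw [← key, Finset.sum_smul]
    exact Finset.sum_congr rfl fun i _ => Finset.sum_smul
  simp only [h3]
  -- exchange the sums
  have h4 : ∀ (T : I → W → I → W → Γ), ∑ k, ∑ v, ∑ i, ∑ w, T k v i w =
      ∑ i, ∑ w, ∑ k, ∑ v, T k v i w := by
    intro T
    calc ∑ k, ∑ v, ∑ i, ∑ w, T k v i w = ∑ q : I × W, ∑ r : I × W, T q.1 q.2 r.1 r.2 := by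
          simp only [Fintype.sum_prod_type]
      _ = ∑ r : I × W, ∑ q : I × W, T q.1 q.2 r.1 r.2 := Finset.sum_comm
      _ = _ := by simp only [Fintype.sum_prod_type]
  exact h4 _

/-- the right multiplication -/
noncomputable def rmR (R : Type) {Γ I Ω : Type} [CommRing R] [Ring Γ] [Algebra R Γ] :
    Γᵐᵒᵖ →ₐ[R] Module.End R (I × Ω → Γ) where
  toFun := fun g =>
    { toFun := fun f p => f p * g.unop
      map_add' := fun f f' => by
        funext p
        exact add_mul _ _ _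
      map_smul' := fun r f => by
        funext p
        exact smul_mul_assoc r (f p) g.unop }
  map_one' := by
    apply LinearMap.ext
    intro f
    funext p
    exact mul_one _
  map_mul' := fun a b => by
    apply LinearMap.ext
    intro f
    funext p
    show f p * (a * b).unop = f p * b.unop * a.unop
    rw [unop_mul, mul_assoc]
  map_zero' := by
    apply LinearMap.ext
    intro f
    funext p
    exact mul_zero _
  map_add' := fun a b => by
    apply LinearMap.ext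
    intro f
    funext p
    exact mul_add _ _ _
  commutes' := fun r => by
    apply LinearMap.ext
    intro f
    funext p
    show f p * (algebraMap R Γᵐᵒᵖ r).unop = r • f p
    rw [MulOpposite.algebraMap_apply, unop_op, ← Algebra.commutes, Algebra.smul_def]

theorem inx0 (D : WFS R Γ W I) : ∃ BX : BiM R Γ (I × Ω → Γ), IsX D Ω BX := by
  refine ⟨{ lm := AlgHom.ofLinearMap (lmL D) (lmL_one D) (lmL_mul D), rm := rmR R, comm := ?_ },
    fun γ f j ω => lmL_apply D γ f (j, ω), fun γ f x => rfl⟩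
  intro a b x
  funext p
  show lmL D a (fun q => x q * b.unop) p = lmL D a x p * b.unop
  rw [lmL_apply, lmL_apply, Finset.sum_mul]
  refine Finset.sum_congr rfl fun i _ => ?_
  rw [Finset.sum_mul]
  refine Finset.sum_congr rfl fun w _ => ?_
  simp only [smul_mul_assoc, mul_assoc]

end

theorem inx : InxStmt := by
  intro R Γ W I Ω _ _ _ _ _ _ _ _ D
  exact inx0 D

end Pool.Agent.PFD.D2b.H65
end -- Pool.Agent.Helper65_PFD.INX

section -- Pool.Agent.Helper65_PFD.LFA

/-! Squad PFD, block D2b, row LFA: lifting of bimodule homomorphisms. -/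

set_option autoImplicit false

open scoped BigOperators

namespace Pool.Agent.PFD.D2b.H65

open MulOpposite
open Pool.Agent.PFC.B1 (BiM FS)
open Pool.Agent.PFD.D2 Pool.Agent.PFD.D2b

theorem sum_smul_ex {R N ι : Type} [CommRing R] [AddCommGroup N] [Module R N] (p : R)
    (s : Finset ι) (f : ι → N) (h : ∀ i, ∃ n, f i = p • n) : ∃ n, ∑ i ∈ s, f i = p • n := by
  choose n hn using h
  exact ⟨∑ i ∈ s, n i, by rw [Finset.smul_sum]; exact Finset.sum_congr rfl fun i _ => hn i⟩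

theorem lfa (hE : EqfStmt) (hG : IngStmt) (hM : InmStmt) : LfaStmt := by
  classical
  intro R Γ W I Ω N _ _ _ _ _ _ _ _ D BX hX _ _ BN p hF g hg
  obtain ⟨ε, hε1, hε2, -⟩ := hG R Γ W I Ω D BX hX
  obtain ⟨ρ, hρ⟩ : ∃ ρ : W →* (N →ₗ[R] N), ∀ w n, ρ w n =
      BN.lm (D.om w) (BN.rm (op (D.om w⁻¹)) n) :=
    ⟨(wrp D.om BN).comp ((MonoidHom.id W).prod (MonoidHom.id W)), fun w n => rfl⟩
  have hFP : FPl p ρ := by
    intro S n hS
    obtain ⟨m, hm1, hm2⟩ := hF (S.map ((MonoidHom.id W).prod (MonoidHom.id W))) n (by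
      rintro _ ⟨s, hs, rfl⟩
      obtain ⟨x, hx⟩ := hS s hs
      exact ⟨x, by rw [← hx, hρ]; rfl⟩)
    refine ⟨m, fun s hs => ?_, hm2⟩
    rw [hρ]
    exact hm1 _ ⟨s, hs, rfl⟩
  have hm0 : ∀ (w : W) (ω : Ω), ∃ x, g (ε (w • ω)) - ρ w (g (ε ω)) = p • x := by
    intro w ω
    obtain ⟨x, hx⟩ := hg.1 (D.om w) (BX.rm (op (D.om w⁻¹)) (ε ω))
    obtain ⟨y, hy⟩ := hg.2 (op (D.om w⁻¹)) (ε ω)
    refine ⟨x + BN.lm (D.om w) y, ?_⟩
    rw [hε1, hρ, smul_add, ← hx, ← map_smul, ← hy, map_sub]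
    abel
  obtain ⟨m', hm1, hm2⟩ := hE R W N Ω ρ p hFP (fun ω => g (ε ω)) hm0
  obtain ⟨g', hg1, hg2, -⟩ := hM R Γ W I Ω N D BX hX BN m' (fun w ω => by rw [hm1, hρ])
  refine ⟨g', hg1, fun x => ?_⟩
  have h1 : g x = ∑ i, ∑ ω, g (BX.lm (D.cf i) (BX.rm (op (x (i, ω))) (ε ω))) := by
    conv_lhs => rw [← hε2 x]
    rw [map_sum]
    exact Finset.sum_congr rfl fun i _ => map_sum g _ _
  rw [hg2, h1, ← Finset.sum_sub_distrib]
  apply sum_smul_ex
  intro i
  rw [← Finset.sum_sub_distrib]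
  apply sum_smul_ex
  intro ω
  obtain ⟨a, ha⟩ := hm2 ω
  obtain ⟨b, hb⟩ := hg.2 (op (x (i, ω))) (ε ω)
  obtain ⟨c, hc⟩ := hg.1 (D.cf i) (BX.rm (op (x (i, ω))) (ε ω))
  refine ⟨BN.lm (D.cf i) (BN.rm (op (x (i, ω))) a) - BN.lm (D.cf i) b - c, ?_⟩
  rw [smul_sub, smul_sub, ← hc, ← map_smul (BN.lm (D.cf i)), ← map_smul (BN.rm (op (x (i, ω)))),
    ← ha, ← map_smul (BN.lm (D.cf i)), ← hb, map_sub (BN.rm (op (x (i, ω)))),
    map_sub (BN.lm (D.cf i)), map_sub (BN.lm (D.cf i))]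
  abel

end Pool.Agent.PFD.D2b.H65
end -- Pool.Agent.Helper65_PFD.LFA

section -- Pool.Agent.Helper68_PFD.CRS

set_option autoImplicit false

/-!
# Squad PFD, row CRS: `rt s - s` is a trace from `1` to `B`
-/

open scoped BigOperators

noncomputable section

namespace Pool.Agent.PFD.D4.H68

open Pool.Agent.PFC.B1 (BiM FS Sep Split)
open Pool.Agent.PFD.D2
open Pool.Agent.PFD.D2b
open Pool.Agent.PFD.D4

/-- ROW CRS. -/
theorem crs (hCAS : Pool.Agent.PFC.B1.CasStmt) : CrsStmt := by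
  intro K B A I J N _ _ _ _ _ _ _ _ D s hs
  -- the operator `al`
  let al : A →ₗ[K] A := ∑ i, (LinearMap.mulLeft K (D.sp.j (D.c.b i))) ∘ₗ D.sp.a ∘ₗ
    (LinearMap.mulLeft K (D.sp.j (D.c.b' i)))
  have hal : ∀ y, al y = ∑ i, D.sp.j (D.c.b i) * D.sp.a (D.sp.j (D.c.b' i) * y) := by
    intro y
    simp only [al, LinearMap.sum_apply, LinearMap.comp_apply, LinearMap.mulLeft_apply]
  -- (1)
  have h1 : ∀ x, x - D.sp.j (D.sp.pr x) =
      ∑ k, al (D.d.b k) * D.sp.j (D.sp.pr (D.d.b' k * x)) := by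
    intro x
    rw [← D.sp.a_id x, Finset.sum_comm]
    have e1 : ∀ l, ∑ i, D.sp.j (D.c.b i) * D.sp.a (D.sp.j (D.c.b' i) * x * D.sp.j (D.c.b l)) *
        D.sp.j (D.c.b' l) = ∑ k, al (D.d.b k) *
          D.sp.j (D.c.lam (D.sp.pr (D.d.b' k * x) * D.c.b l) • D.c.b' l) := by
      intro l
      rw [← Finset.sum_mul]
      have e2 : ∑ i, D.sp.j (D.c.b i) * D.sp.a (D.sp.j (D.c.b' i) * x * D.sp.j (D.c.b l)) =
          al (x * D.sp.j (D.c.b l)) := by
        rw [hal]
        exact Finset.sum_congr rfl fun i _ => by rw [mul_assoc (D.sp.j (D.c.b' i))]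
      rw [e2]
      conv_lhs => rw [← D.d.h1 (x * D.sp.j (D.c.b l))]
      rw [map_sum, Finset.sum_mul]
      refine Finset.sum_congr rfl fun k _ => ?_
      rw [map_smul, map_smul, D.ort, ← mul_assoc, D.sp.pr_r, smul_mul_assoc, mul_smul_comm]
    rw [Finset.sum_congr rfl fun l _ => e1 l, Finset.sum_comm]
    refine Finset.sum_congr rfl fun k _ => ?_
    rw [← Finset.mul_sum, ← map_sum, D.c.h2]
  -- (2)
  have h2 : D.s.rt s = s + ∑ k, al (D.d.b k) * s * D.d.b' k := by
    unfold RF.rt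
    have e3 : ∀ n, D.s.x n * s * D.s.y n = s * (D.sp.j (D.sp.pr (1 * D.s.x n)) * D.s.y n) +
        ∑ k, al (D.d.b k) * s * (D.sp.j (D.sp.pr (D.d.b' k * D.s.x n)) * D.s.y n) := by
      intro n
      have e4 : D.s.x n = D.sp.j (D.sp.pr (D.s.x n)) +
          ∑ k, al (D.d.b k) * D.sp.j (D.sp.pr (D.d.b' k * D.s.x n)) := by
        rw [← h1]; abel
      conv_lhs => rw [e4]
      rw [add_mul, add_mul, hs, one_mul, mul_assoc s, Finset.sum_mul, Finset.sum_mul]
      congr 1
      refine Finset.sum_congr rfl fun k _ => ?_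
      rw [mul_assoc (al (D.d.b k)), hs]
      simp only [mul_assoc]
    rw [Finset.sum_congr rfl fun n _ => e3 n, Finset.sum_add_distrib, ← Finset.mul_sum, D.s.e2,
      mul_one, Finset.sum_comm]
    congr 1
    refine Finset.sum_congr rfl fun k _ => ?_
    rw [← Finset.mul_sum, D.s.e2]
  -- (3)
  refine ⟨∑ k, D.sp.a (D.d.b k) * s * D.d.b' k, ?_⟩
  rw [h2]
  congr 1
  unfold KL.TB
  let β : A →ₗ[K] A →ₗ[K] A := LinearMap.mk₂ K (fun u v => D.sp.a u * s * v)
    (fun u u' v => by rw [map_add, add_mul, add_mul])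
    (fun r u v => by rw [map_smul, smul_mul_assoc, smul_mul_assoc])
    (fun u v v' => by rw [mul_add])
    (fun r u v => by rw [mul_smul_comm])
  have hβ : ∀ u v, β u v = D.sp.a u * s * v := fun u v => rfl
  have h3 : ∀ x, ∑ k, D.sp.a (x * D.d.b k) * s * D.d.b' k =
      ∑ k, D.sp.a (D.d.b k) * s * (D.d.b' k * x) := by
    intro x
    exact hCAS K A J A D.d β x
  have e5 : ∀ k, al (D.d.b k) * s * D.d.b' k =
      ∑ i, D.sp.j (D.c.b i) * (D.sp.a (D.sp.j (D.c.b' i) * D.d.b k) * s * D.d.b' k) := by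
    intro k
    rw [hal, Finset.sum_mul, Finset.sum_mul]
    exact Finset.sum_congr rfl fun i _ => by simp only [mul_assoc]
  rw [Finset.sum_congr rfl fun k _ => e5 k, Finset.sum_comm]
  refine Finset.sum_congr rfl fun i _ => ?_
  rw [← Finset.mul_sum, h3, mul_assoc (D.sp.j (D.c.b i)), Finset.sum_mul]
  simp only [mul_assoc]

end Pool.Agent.PFD.D4.H68
end
end -- Pool.Agent.Helper68_PFD.CRS

section -- Pool.Agent.Helper72_PFD.HGR

/-! HGR: the bimodule `X` is Higman projective up to the factor `|W|`. -/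

set_option autoImplicit false

open scoped BigOperators

noncomputable section

namespace Pool.Agent.PFD.D2b.H72

open MulOpposite
open Pool.Agent.PFC.B1 (BiM FS)
open Pool.Agent.PFD.D2
open Pool.Agent.PFD.D2b

/-- both dual families at once -/
theorem two_sided {R Γ J N : Type} [CommRing R] [Ring Γ] [Algebra R Γ] [Fintype J]
    [AddCommGroup N] [Module R N] (c : FS R Γ J) (B : BiM R Γ N) (p q : Γ) (e : N) :
    ∑ s, ∑ t, (c.lam (c.b' s * p) * c.lam (q * c.b t)) •
      B.lm (c.b s) (B.rm (op (c.b' t)) e) = B.lm p (B.rm (op q) e) := by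
  have h1 : B.lm p (B.rm (op q) e) =
      ∑ s, c.lam (c.b' s * p) • B.lm (c.b s) (B.rm (op q) e) := by
    conv_lhs => rw [← c.h1 p]
    rw [map_sum, LinearMap.sum_apply]
    refine Finset.sum_congr rfl fun s _ => ?_
    rw [map_smul, LinearMap.smul_apply]
  have h2 : B.rm (op q) e = ∑ t, c.lam (q * c.b t) • B.rm (op (c.b' t)) e := by
    conv_lhs => rw [← c.h2 q]
    have h3 : op (∑ t, c.lam (q * c.b t) • c.b' t) =
        ∑ t, c.lam (q * c.b t) • op (c.b' t) := by
      have h4 := map_sum (MulOpposite.opLinearEquiv R : Γ ≃ₗ[R] Γᵐᵒᵖ)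
        (fun t => c.lam (q * c.b t) • c.b' t) Finset.univ
      exact h4
    rw [h3, map_sum, LinearMap.sum_apply]
    refine Finset.sum_congr rfl fun t _ => ?_
    rw [map_smul, LinearMap.smul_apply]
  rw [h1, h2]
  refine Finset.sum_congr rfl fun s _ => ?_
  rw [map_sum, Finset.smul_sum]
  refine Finset.sum_congr rfl fun t _ => ?_
  rw [map_smul, smul_smul]

section

variable {R Γ W I Ω X : Type} [CommRing R] [Ring Γ] [Algebra R Γ] [CommGroup W] [Fintype W]
  [Fintype I] [Fintype Ω] [MulAction W Ω] [AddCommGroup X] [Module R X]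

/-- the map `Ψ γ h = ∑ lam (γ om v⁻¹) lam (om v h ω) • ε (v ω)` -/
def Psi (D : WFS R Γ W I) (ε : Ω → X) : Γ →ₗ[R] (Ω → Γ) →ₗ[R] X :=
  LinearMap.mk₂ R (fun γ h => ∑ ω, ∑ v, (D.lam (γ * D.om v⁻¹) * D.lam (D.om v * h ω)) • ε (v • ω))
    (fun γ γ' h => by
      simp only [add_mul, map_add, add_smul, Finset.sum_add_distrib])
    (fun r γ h => by
      simp only [smul_mul_assoc, map_smul, smul_eq_mul, mul_assoc, mul_smul, Finset.smul_sum])
    (fun γ h h' => by
      simp only [Pi.add_apply, mul_add, map_add, add_smul, Finset.sum_add_distrib])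
    (fun r γ h => by
      simp only [Pi.smul_apply, mul_smul_comm, map_smul, smul_eq_mul, Finset.smul_sum, mul_smul,
        smul_comm r])

theorem Psi_apply (D : WFS R Γ W I) (ε : Ω → X) (γ : Γ) (h : Ω → Γ) :
    Psi D ε γ h = ∑ ω, ∑ v, (D.lam (γ * D.om v⁻¹) * D.lam (D.om v * h ω)) • ε (v • ω) := rfl

theorem Psi_eq (D : WFS R Γ W I) (ε : Ω → X) (γ : Γ) (w : W) (h : Ω → Γ) :
    Psi D ε γ (fun ω => D.om w * h (w⁻¹ • ω)) = Psi D ε (γ * D.om w) h := by
  rw [Psi_apply, Psi_apply, ← Equiv.sum_comp (MulAction.toPerm w)]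
  refine Finset.sum_congr rfl fun ω _ => ?_
  rw [← Equiv.sum_comp (Equiv.mulRight w⁻¹)]
  refine Finset.sum_congr rfl fun v _ => ?_
  have e1 : (MulAction.toPerm w : Equiv.Perm Ω) ω = w • ω := rfl
  have e2 : (Equiv.mulRight w⁻¹) v = v * w⁻¹ := rfl
  have e3 : D.om (v * w⁻¹) * (D.om w * h ω) = D.om v * h ω := by
    rw [← mul_assoc, ← map_mul, inv_mul_cancel_right]
  have e4 : γ * D.om (v * w⁻¹)⁻¹ = γ * D.om w * D.om v⁻¹ := by
    rw [mul_inv_rev, inv_inv, map_mul, mul_assoc]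
  rw [e1, e2, inv_smul_smul, smul_smul, inv_mul_cancel_right, e3, e4]

end

theorem hgr (hing : IngStmt) : HgrStmt := by
  intro R Γ W I Ω _ _ _ _ _ _ _ _ D BX hX
  obtain ⟨ε, hε, hgen, -⟩ := hing R Γ W I Ω D BX hX
  let a : (I × Ω → Γ) →ₗ[R] (I × Ω → Γ) :=
    ∑ i, (Psi D ε (D.cf i)) ∘ₗ (LinearMap.pi fun ω => LinearMap.proj (i, ω))
  have ha : ∀ f, a f = ∑ i, Psi D ε (D.cf i) (fun ω => f (i, ω)) := by
    intro f
    show (∑ i, (Psi D ε (D.cf i)) ∘ₗ (LinearMap.pi fun ω => LinearMap.proj (i, ω))) f = _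
    rw [LinearMap.sum_apply]
    rfl
  have hag : ∀ γ f, a (BX.lm γ f) = ∑ i, Psi D ε (γ * D.cf i) (fun ω => f (i, ω)) := by
    intro γ f
    rw [ha]
    have h1 : ∀ j, Psi D ε (D.cf j) (fun ω => BX.lm γ f (j, ω)) =
        ∑ i, ∑ w, D.lam (D.om w⁻¹ * D.cf' j * (γ * D.cf i)) •
          Psi D ε (D.cf j * D.om w) (fun ω => f (i, ω)) := by
      intro j
      have h2 : (fun ω => BX.lm γ f (j, ω)) = ∑ i, ∑ w,
          D.lam (D.om w⁻¹ * D.cf' j * (γ * D.cf i)) •
            (fun ω => D.om w * (fun ω' => f (i, ω')) (w⁻¹ • ω)) := by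
        funext ω
        rw [hX.1, Finset.sum_apply]
        refine Finset.sum_congr rfl fun i _ => ?_
        rw [Finset.sum_apply]
        refine Finset.sum_congr rfl fun w _ => ?_
        rw [Pi.smul_apply, mul_assoc (D.om w⁻¹ * D.cf' j) γ (D.cf i)]
      rw [h2, map_sum]
      refine Finset.sum_congr rfl fun i _ => ?_
      rw [map_sum]
      refine Finset.sum_congr rfl fun w _ => ?_
      rw [map_smul]
      exact congrArg _ (Psi_eq D ε (D.cf j) w (fun ω' => f (i, ω')))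
    rw [Finset.sum_congr rfl fun j _ => h1 j, Finset.sum_comm]
    refine Finset.sum_congr rfl fun i _ => ?_
    conv_rhs => rw [← D.h1 (γ * D.cf i)]
    rw [map_sum, LinearMap.sum_apply]
    refine Finset.sum_congr rfl fun j _ => ?_
    rw [map_sum, LinearMap.sum_apply]
    refine Finset.sum_congr rfl fun w _ => ?_
    rw [map_smul, LinearMap.smul_apply]
  have hrm : ∀ γ f, BX.rm (op γ) f = fun x => f x * γ := by
    intro γ f
    funext x
    exact hX.2 γ f x
  refine ⟨a, fun x => ?_⟩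
  have hstep : ∀ s t : I × W, BX.lm (D.fs.b s) (BX.rm (op (D.fs.b' t)) (a (BX.lm (D.fs.b' s)
      (BX.rm (op (D.fs.b t)) x)))) = ∑ i, ∑ ω, ∑ v,
      (D.fs.lam (D.fs.b' s * (D.cf i * D.om v⁻¹)) * D.fs.lam ((D.om v * x (i, ω)) * D.fs.b t)) •
        BX.lm (D.fs.b s) (BX.rm (op (D.fs.b' t)) (ε (v • ω))) := by
    intro s t
    rw [hag, map_sum, map_sum]
    refine Finset.sum_congr rfl fun i _ => ?_
    rw [Psi_apply, map_sum, map_sum]
    refine Finset.sum_congr rfl fun ω _ => ?_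
    rw [map_sum, map_sum]
    refine Finset.sum_congr rfl fun v _ => ?_
    rw [map_smul, map_smul, hrm, mul_assoc, mul_assoc (D.om v)]
    rfl
  have hT : ∑ s, ∑ t, BX.lm (D.fs.b s) (BX.rm (op (D.fs.b' t)) (a (BX.lm (D.fs.b' s)
      (BX.rm (op (D.fs.b t)) x)))) = ∑ i, ∑ ω, ∑ v, BX.lm (D.cf i * D.om v⁻¹)
        (BX.rm (op (D.om v * x (i, ω))) (ε (v • ω))) := by
    calc _ = ∑ s, ∑ t, ∑ i, ∑ ω, ∑ v,
          (D.fs.lam (D.fs.b' s * (D.cf i * D.om v⁻¹)) *
            D.fs.lam ((D.om v * x (i, ω)) * D.fs.b t)) •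
            BX.lm (D.fs.b s) (BX.rm (op (D.fs.b' t)) (ε (v • ω))) :=
          Finset.sum_congr rfl fun s _ => Finset.sum_congr rfl fun t _ => hstep s t
      _ = ∑ s, ∑ t, ∑ q : I × Ω × W,
          (D.fs.lam (D.fs.b' s * (D.cf q.1 * D.om q.2.2⁻¹)) *
            D.fs.lam ((D.om q.2.2 * x (q.1, q.2.1)) * D.fs.b t)) •
            BX.lm (D.fs.b s) (BX.rm (op (D.fs.b' t)) (ε (q.2.2 • q.2.1))) := by
          refine Finset.sum_congr rfl fun s _ => Finset.sum_congr rfl fun t _ => ?_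
          rw [Fintype.sum_prod_type]
          refine Finset.sum_congr rfl fun i _ => ?_
          rw [Fintype.sum_prod_type]
      _ = ∑ s, ∑ q : I × Ω × W, ∑ t,
          (D.fs.lam (D.fs.b' s * (D.cf q.1 * D.om q.2.2⁻¹)) *
            D.fs.lam ((D.om q.2.2 * x (q.1, q.2.1)) * D.fs.b t)) •
            BX.lm (D.fs.b s) (BX.rm (op (D.fs.b' t)) (ε (q.2.2 • q.2.1))) :=
          Finset.sum_congr rfl fun s _ => Finset.sum_comm
      _ = ∑ q : I × Ω × W, ∑ s, ∑ t,
          (D.fs.lam (D.fs.b' s * (D.cf q.1 * D.om q.2.2⁻¹)) *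
            D.fs.lam ((D.om q.2.2 * x (q.1, q.2.1)) * D.fs.b t)) •
            BX.lm (D.fs.b s) (BX.rm (op (D.fs.b' t)) (ε (q.2.2 • q.2.1))) :=
          Finset.sum_comm
      _ = ∑ q : I × Ω × W, BX.lm (D.cf q.1 * D.om q.2.2⁻¹)
          (BX.rm (op (D.om q.2.2 * x (q.1, q.2.1))) (ε (q.2.2 • q.2.1))) :=
          Finset.sum_congr rfl fun q _ => two_sided D.fs BX _ _ _
      _ = _ := by
          rw [Fintype.sum_prod_type]
          refine Finset.sum_congr rfl fun i _ => ?_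
          rw [Fintype.sum_prod_type]
  rw [hT]
  have hu : ∀ i ω v, BX.lm (D.cf i * D.om v⁻¹) (BX.rm (op (D.om v * x (i, ω))) (ε (v • ω))) =
      BX.lm (D.cf i) (BX.rm (op (x (i, ω))) (ε ω)) := by
    intro i ω v
    have h1 : ε ω = BX.lm (D.om v⁻¹) (BX.rm (op (D.om v)) (ε (v • ω))) := by
      have h2 := hε v⁻¹ (v • ω)
      rw [inv_smul_smul, inv_inv] at h2
      exact h2
    conv_rhs => rw [h1]
    rw [map_mul, Module.End.mul_apply, op_mul, map_mul, Module.End.mul_apply,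
      ← BX.comm (D.om v⁻¹)]
  calc ∑ i, ∑ ω, ∑ v, BX.lm (D.cf i * D.om v⁻¹)
        (BX.rm (op (D.om v * x (i, ω))) (ε (v • ω)))
      = ∑ i, ∑ ω, ∑ _v : W, BX.lm (D.cf i) (BX.rm (op (x (i, ω))) (ε ω)) :=
        Finset.sum_congr rfl fun i _ => Finset.sum_congr rfl fun ω _ =>
          Finset.sum_congr rfl fun v _ => hu i ω v
    _ = (Fintype.card W : R) • ∑ i, ∑ ω, BX.lm (D.cf i) (BX.rm (op (x (i, ω))) (ε ω)) := by
        rw [Finset.smul_sum]
        refine Finset.sum_congr rfl fun i _ => ?_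
        rw [Finset.smul_sum]
        refine Finset.sum_congr rfl fun ω _ => ?_
        rw [Finset.sum_const, Finset.card_univ, Nat.cast_smul_eq_nsmul]
    _ = (Fintype.card W : R) • x := by rw [hgen x]

end Pool.Agent.PFD.D2b.H72
end
end -- Pool.Agent.Helper72_PFD.HGR

section -- Pool.Agent.Helper80_PFD.ZON

/-! PFD, row ZON: the centre of `A1` maps onto the centre of `A`. -/

set_option autoImplicit false

namespace Pool.Agent.PFD.D4.H80

open Pool.Agent.PFD.D4 Pool.Agent.PFD.D2 Pool.Agent.PFD.D2b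

theorem zon (hRTC : RtcStmt) : ZonStmt := by
  intro R F Γ Γ0 A A1 W I _ _ c _ _ _ _ _ _ _ _ _ _ _ D f j0 pr0 lr z hz
  letI := lr.fN
  obtain ⟨b, hb1, hb2⟩ := lr.cl z (fun γ => (hz _).symm)
  obtain ⟨h1, -, -⟩ := hRTC R Γ A1 lr.N lr.j lr.pr lr.rf
  have hcb := h1 b hb1
  have hc1 := h1 1 (fun γ => by rw [mul_one, one_mul])
  obtain ⟨i, hi⟩ := lr.un1
  have hi1 : lr.rf.rt 1 * (↑i⁻¹ : A1) = 1 := by rw [← hi, Units.mul_inv]
  have hi2 : (↑i⁻¹ : A1) * lr.rf.rt 1 = 1 := by rw [← hi, Units.inv_mul]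
  have hic : ∀ a : A1, a * (↑i⁻¹ : A1) = (↑i⁻¹ : A1) * a := by
    intro a
    calc a * (↑i⁻¹ : A1) = (↑i⁻¹ : A1) * lr.rf.rt 1 * a * (↑i⁻¹ : A1) := by rw [hi2, one_mul]
      _ = (↑i⁻¹ : A1) * (lr.rf.rt 1 * a) * (↑i⁻¹ : A1) := by rw [mul_assoc (↑i⁻¹ : A1)]
      _ = (↑i⁻¹ : A1) * (a * lr.rf.rt 1) * (↑i⁻¹ : A1) := by rw [hc1]
      _ = (↑i⁻¹ : A1) * a * (lr.rf.rt 1 * (↑i⁻¹ : A1)) := by simp only [mul_assoc]
      _ = (↑i⁻¹ : A1) * a := by rw [hi1, mul_one]
  have hq : lr.fb.q (lr.rf.rt b) = z * lr.fb.q (lr.rf.rt 1) := by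
    unfold RF.rt
    rw [map_sum, map_sum, Finset.mul_sum]
    refine Finset.sum_congr rfl fun k _ => ?_
    rw [map_mul, map_mul, map_mul, map_mul, hb2, map_one, mul_one, ← hz, mul_assoc]
  refine ⟨lr.rf.rt b * (↑i⁻¹ : A1), ?_, ?_⟩
  · intro a
    rw [mul_assoc, ← hic a, ← mul_assoc, ← hcb a, mul_assoc]
  · rw [map_mul, hq, mul_assoc, ← map_mul, hi1, map_one, mul_one]

end Pool.Agent.PFD.D4.H80
end -- Pool.Agent.Helper80_PFD.ZON

section -- Pool.Agent.Helper89_PFD.HSV

/-!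
HSV: the form vanishes on the Hattori-Stallings trace of an idempotent.
-/

open scoped BigOperators

noncomputable section

namespace Pool.Agent.PFD.D4.H89

open Pool.Agent.PFC.B1 (FS Split)

/-- the trace of a matrix composed with a linear form -/
def trf {K B N : Type} [Field K] [Ring B] [Algebra K B] [Fintype N] (t : B →ₗ[K] K)
    (M : Matrix N N B) : K := ∑ k, t (M k k)

theorem trf_comm {K B N : Type} [Field K] [Ring B] [Algebra K B] [Fintype N] (t : B →ₗ[K] K)
    (ts : ∀ a b, t (a * b) = t (b * a)) (M M' : Matrix N N B) :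
    trf t (M * M') = trf t (M' * M) := by
  simp only [trf, Matrix.mul_apply, map_sum]
  rw [Finset.sum_comm]
  refine Finset.sum_congr rfl fun k _ => Finset.sum_congr rfl fun l _ => ts _ _

theorem trf_add {K B N : Type} [Field K] [Ring B] [Algebra K B] [Fintype N] (t : B →ₗ[K] K)
    (M M' : Matrix N N B) : trf t (M + M') = trf t M + trf t M' := by
  simp only [trf, Matrix.add_apply, map_add, Finset.sum_add_distrib]

theorem hsv : HsvStmt := by
  intro K B A I J N _ _ _ _ _ _ _ _ _ D e he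
  set f : Matrix N N B := Matrix.of fun k l => D.sp.pr (D.s.y k * e * D.s.x l) with hf
  set g : Matrix N N B := f.map D.v with hg
  set t : B →ₗ[K] K := D.c.lam ∘ₗ LinearMap.mulLeft K D.u' with ht
  have ta : ∀ b, t b = D.c.lam (D.u' * b) := fun b => rfl
  have uu' : D.u' * D.u = 1 := by rw [← D.uc, D.uu]
  have u'c : ∀ b, D.u' * b = b * D.u' := by
    intro b
    calc D.u' * b = D.u' * b * (D.u * D.u') := by rw [D.uu, mul_one]
      _ = D.u' * (b * D.u) * D.u' := by simp only [mul_assoc]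
      _ = D.u' * (D.u * b) * D.u' := by rw [D.uc b]
      _ = (D.u' * D.u) * b * D.u' := by simp only [mul_assoc]
      _ = b * D.u' := by rw [uu', one_mul]
  have ts : ∀ a b, t (a * b) = t (b * a) := by
    intro a b
    rw [ta, ta, ← mul_assoc, D.cs, ← mul_assoc, ← u'c, mul_assoc]
  have ff : f * f = f := by
    ext k l
    rw [Matrix.mul_apply]
    simp only [hf, Matrix.of_apply]
    have h1 : ∀ m, D.sp.pr (D.s.y k * e * D.s.x m) * D.sp.pr (D.s.y m * e * D.s.x l) =
        D.sp.pr (D.s.y k * e * (D.s.x m * D.sp.j (D.sp.pr (D.s.y m * (e * D.s.x l))))) := by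
      intro m
      rw [← D.sp.pr_r, mul_assoc (D.s.y k * e), mul_assoc (D.s.y m)]
    rw [Finset.sum_congr rfl fun m _ => h1 m, ← map_sum, ← Finset.mul_sum, D.s.e1,
      ← mul_assoc, mul_assoc (D.s.y k), he]
  have gg : g = g * f + f * g := by
    ext k l
    rw [Matrix.add_apply, Matrix.mul_apply, Matrix.mul_apply, ← Finset.sum_add_distrib]
    have h1 : g k l = D.v ((f * f) k l) := by rw [ff]; rfl
    rw [h1, Matrix.mul_apply, map_sum]
    exact Finset.sum_congr rfl fun m _ => D.vm _ _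
  have fgf : f * g * f = 0 := by
    have h1 : f * g * f = f * g * f + f * g * f := by
      calc f * g * f = f * (g * f + f * g) * f := by rw [← gg]
        _ = f * g * (f * f) + (f * f) * g * f := by
          rw [Matrix.mul_add, Matrix.add_mul]
          simp only [Matrix.mul_assoc]
        _ = f * g * f + f * g * f := by rw [ff]
    exact (add_eq_left.mp h1.symm)
  have h2 : trf t g = 0 := by
    have h3 : trf t (g * f) = 0 := by
      calc trf t (g * f) = trf t (g * (f * f)) := by rw [ff]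
        _ = trf t ((g * f) * f) := by rw [Matrix.mul_assoc]
        _ = trf t (f * (g * f)) := trf_comm t ts _ _
        _ = trf t (f * g * f) := by rw [Matrix.mul_assoc]
        _ = 0 := by
          rw [fgf]
          simp [trf]
    rw [gg, trf_add, trf_comm t ts f g, h3, add_zero]
  have h4 : trf t g = (D.wt : K) * trf t f := by
    rw [trf, trf, Finset.mul_sum]
    exact Finset.sum_congr rfl fun k _ => D.tv _
  have h5 : trf t f = 0 := by
    rw [h2] at h4
    have h6 : (D.wt : K) ≠ 0 := by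
      exact_mod_cast D.wp.ne'
    exact (mul_eq_zero.mp h4.symm).resolve_left h6
  rw [← h5, RF.rt, Finset.sum_mul, map_sum, trf]
  refine Finset.sum_congr rfl fun k _ => ?_
  rw [ta, hf, Matrix.of_apply, ← D.sp.pr_l, ← D.ort, mul_assoc, mul_assoc, D.ds]
  simp only [mul_assoc]

end Pool.Agent.PFD.D4.H89
end
end -- Pool.Agent.Helper89_PFD.HSV

section -- Pool.Agent.Helper90_PFD.KBC

/-!
Squad PFD, row KBC (helper90): the data over `K`.
-/

open scoped BigOperators TensorProduct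

noncomputable section

namespace Pool.Agent.PFD.D4.H90

open Pool.Agent.PFC.B1 (BiM FS Sep Split)
open Pool.Agent.PFD.D2
open Pool.Agent.PFD.D2b

section
variable {R F Γ Γ0 A A1 W I : Type} [CommRing R] [Field F] {c : Cdv R F} [Ring Γ]
    [Algebra R Γ] [Ring Γ0] [Algebra F Γ0] [Ring A] [Algebra F A] [Ring A1] [Algebra R A1]
    [CommGroup W] [Fintype W] [Fintype I] {D : WFS R Γ W I} {f : FibG Γ Γ0 c}
    {j0 : Γ0 →ₐ[F] A} {pr0 : A →ₗ[F] Γ0}

/-- the twisted form on `Γ` -/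
def c1 (D : WFS R Γ W I) (u u' : Γ) (uu : u * u' = 1) (uu' : u' * u = 1) :
    FS R Γ (I × W) where
  lam := D.lam ∘ₗ LinearMap.mulLeft R u
  b := D.fs.b
  b' := fun s => u' * D.fs.b' s
  h1 := fun x => by
    have h := D.fs.h1 x
    conv_rhs => rw [← h]
    apply Finset.sum_congr rfl
    intro s _
    show D.lam (u * (u' * D.fs.b' s * x)) • D.fs.b s = _
    rw [mul_assoc u', ← mul_assoc u, uu, one_mul]
    rfl
  h2 := fun x => by
    have h := D.fs.h2 (u * x)
    have h2 : x = u' * (u * x) := by rw [← mul_assoc, uu', one_mul]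
    conv_rhs => rw [h2, ← h, Finset.mul_sum]
    apply Finset.sum_congr rfl
    intro s _
    show D.lam (u * (x * D.fs.b s)) • (u' * D.fs.b' s) = _
    rw [mul_smul_comm, mul_assoc u]
    rfl

theorem c1_lam (D : WFS R Γ W I) (u u' : Γ) (uu : u * u' = 1) (uu' : u' * u = 1) (x : Γ) :
    (c1 D u u' uu uu').lam x = D.lam (u * x) := rfl

theorem c1_b (D : WFS R Γ W I) (u u' : Γ) (uu : u * u' = 1) (uu' : u' * u = 1) (s : I × W) :
    (c1 D u u' uu uu').b s = D.fs.b s := rfl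

theorem c1_b' (D : WFS R Γ W I) (u u' : Γ) (uu : u * u' = 1) (uu' : u' * u = 1) (s : I × W) :
    (c1 D u u' uu uu').b' s = u' * D.fs.b' s := rfl

/-- the form `tA` on `A1` -/
def d1 {B N J : Type} [Ring B] [Algebra R B] [Fintype N] [Fintype J] (c : FS R B J)
    (j : B →ₐ[R] A1) (pr : A1 →ₗ[R] B) (s : RF R B A1 N j pr) (tA : A1 →ₗ[R] R)
    (pl : ∀ γ x, pr (j γ * x) = γ * pr x) (prr : ∀ x γ, pr (x * j γ) = pr x * γ)
    (ort : ∀ x, tA x = c.lam (pr x)) : FS R A1 (N × J) where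
  lam := tA
  b := fun p => s.x p.1 * j (c.b p.2)
  b' := fun p => j (c.b' p.2) * s.y p.1
  h1 := fun a => by
    rw [Fintype.sum_prod_type]
    have h := s.e1 a
    conv_rhs => rw [← h]
    apply Finset.sum_congr rfl
    intro k _
    have h3 := c.h1 (pr (s.y k * a))
    conv_rhs => rw [← h3, map_sum, Finset.mul_sum]
    apply Finset.sum_congr rfl
    intro i _
    show tA (j (c.b' i) * s.y k * a) • (s.x k * j (c.b i)) = _
    rw [ort, mul_assoc, pl, map_smul, mul_smul_comm]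
  h2 := fun a => by
    rw [Fintype.sum_prod_type]
    have h := s.e2 a
    conv_rhs => rw [← h]
    apply Finset.sum_congr rfl
    intro k _
    have h3 := c.h2 (pr (a * s.x k))
    conv_rhs => rw [← h3, map_sum, Finset.sum_mul]
    apply Finset.sum_congr rfl
    intro i _
    show tA (a * (s.x k * j (c.b i))) • (j (c.b' i) * s.y k) = _
    rw [ort, ← mul_assoc, prr, map_smul, smul_mul_assoc]

end

theorem kbc (hBFS : BfsStmt) (hBSP : BspStmt) (hBRF : BrfStmt) (hBDV : BdvStmt) : KbcStmt := by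
  intro R F Γ Γ0 A A1 W I K _ _ c _ _ _ _ _ _ _ _ _ _ _ D f j0 pr0 lr _ _ _ v P M wt vm vP vN hw
    hv
  letI := lr.fN
  have uu := lr.uu
  have uu' : lr.u' * lr.u = 1 := by rw [← lr.uc]; exact uu
  -- the Frobenius system of `Γ`
  set cc := c1 D lr.u lr.u' uu uu' with hcc
  have ccl : ∀ x, cc.lam x = D.lam (lr.u * x) := fun x => rfl
  have ccs : ∀ x y, cc.lam (x * y) = cc.lam (y * x) := by
    intro x y
    rw [ccl, ccl, ← mul_assoc, D.sym, ← mul_assoc, ← lr.uc, mul_assoc]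
  obtain ⟨c', c'b, c'b', c'l, c's⟩ := hBFS R K Γ (I × W) cc
  -- the Frobenius system of `A1`
  obtain ⟨d', d'b, d'b', d'l, d's⟩ := hBFS R K A1 (lr.N × (I × W))
    (d1 cc lr.j lr.pr lr.rf lr.tA lr.pr_l lr.pr_r (fun x => lr.ort x))
  -- the split
  have hju : lr.j lr.u * lr.j lr.u' = 1 := by rw [← map_mul, uu, map_one]
  obtain ⟨sp, spj, spp⟩ := hBSP R K Γ A1 (I × W) cc c' lr.j lr.pr
    (LinearMap.mulRight R (lr.j lr.u) ∘ₗ lr.a ∘ₗ LinearMap.mulLeft R (lr.j lr.u))
    (Fintype.card W : R) c'b c'b' lr.pr_j lr.pr_l lr.pr_r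
    (by
      intro x
      rw [← lr.a_id x]
      apply Finset.sum_congr rfl
      intro s _
      apply Finset.sum_congr rfl
      intro t _
      show lr.j (D.fs.b s) * (lr.a (lr.j lr.u * (lr.j (lr.u' * D.fs.b' s) * x * lr.j (D.fs.b t))) *
        lr.j lr.u) * lr.j (lr.u' * D.fs.b' t) = _
      have h1 : lr.j lr.u * (lr.j (lr.u' * D.fs.b' s) * x * lr.j (D.fs.b t)) =
          lr.j (D.fs.b' s) * x * lr.j (D.fs.b t) := by
        rw [map_mul, ← mul_assoc, ← mul_assoc, ← mul_assoc, hju, one_mul]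
      have h2 : ∀ z : A1, z * lr.j lr.u * lr.j (lr.u' * D.fs.b' t) = z * lr.j (D.fs.b' t) := by
        intro z
        rw [map_mul, mul_assoc, ← mul_assoc (lr.j lr.u), hju, one_mul]
      rw [h1, ← mul_assoc (lr.j (D.fs.b s)), h2])
    (by
      rw [map_natCast]
      exact Nat.cast_ne_zero.mpr Fintype.card_ne_zero)
  -- the relative Frobenius system
  obtain ⟨s', s'x, s'y, s'r⟩ := hBRF R K Γ A1 lr.N lr.j lr.pr lr.rf sp.j sp.pr spj spp
  -- the derivation
  obtain ⟨v', v'v, v'm, v'n⟩ := hBDV R K Γ v P M vm vP vN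
  have hone : ∀ (B : Type) [Ring B] [Algebra R B] (x : B), IsUnit x →
      IsUnit ((1 : K) ⊗ₜ[R] x) := by
    intro B _ _ x hx
    exact hx.map (Algebra.TensorProduct.includeRight : B →ₐ[R] K ⊗[R] B)
  refine ⟨lr.N × (I × W), lr.N, inferInstance, inferInstance, ⟨?_⟩⟩
  refine
    { c := c'
      cs := c's ccs
      sp := sp
      d := d'
      ds := d's lr.ts
      ort := ?_
      s := s'
      u := 1 ⊗ₜ lr.u
      u' := 1 ⊗ₜ lr.u'
      uc := ?_
      uu := ?_
      v := v'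
      vm := v'm
      wt := wt
      wp := hw
      tv := ?_
      nil := v'n
      un1 := ?_
      unu := ?_ }
  · intro x
    induction x using TensorProduct.induction_on with
    | zero => rw [map_zero, map_zero, map_zero]
    | tmul k a =>
      rw [d'l, spp, c'l]
      show algebraMap R K (lr.tA a) * k = _
      rw [lr.ort, ccl]
    | add x y hx hy => rw [map_add, map_add, map_add, hx, hy]
  · intro x
    induction x using TensorProduct.induction_on with
    | zero => rw [mul_zero, zero_mul]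
    | tmul k a =>
      rw [Algebra.TensorProduct.tmul_mul_tmul, Algebra.TensorProduct.tmul_mul_tmul, one_mul,
        mul_one, lr.uc]
    | add x y hx hy => rw [mul_add, add_mul, hx, hy]
  · rw [Algebra.TensorProduct.tmul_mul_tmul, one_mul, uu]
    rfl
  · intro x
    induction x using TensorProduct.induction_on with
    | zero => rw [map_zero, mul_zero, map_zero, mul_zero]
    | tmul k a =>
      have e : ∀ z : Γ, lr.u * (lr.u' * z) = z := fun z => by rw [← mul_assoc, uu, one_mul]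
      rw [v'v, Algebra.TensorProduct.tmul_mul_tmul, Algebra.TensorProduct.tmul_mul_tmul, one_mul,
        c'l, c'l, ccl, ccl, e, e, hv, map_mul, map_natCast, mul_assoc]
    | add x y hx hy =>
      rw [map_add, mul_add, map_add, hx, hy, mul_add, map_add, mul_add]
  · have h : s'.rt 1 = 1 ⊗ₜ lr.rf.rt 1 := s'r 1
    rw [h]
    exact hone A1 _ lr.un1
  · rw [spj, s'r]
    exact hone A1 _ lr.unu

end Pool.Agent.PFD.D4.H90
end
end -- Pool.Agent.Helper90_PFD.KBC

section -- Pool.Agent.Helper91_PFD.FPG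

/-!
# Squad PFD, row FPG: the frame of `Γ` for `W × W`
-/

set_option autoImplicit false

open scoped BigOperators

noncomputable section

namespace Pool.Agent.PFD.D2b.H91

open MulOpposite
open Pool.Agent.PFC.B1 (BiM FS)
open Pool.Agent.PFD.D2

variable {R Γ W I : Type} [CommRing R] [Ring Γ] [Algebra R Γ] [CommGroup W] [Fintype W]
  [Fintype I]

/-- the action of `W × W` on `I × W` -/
def act (D : WFS R Γ W I) : MulAction (W × W) (I × W) where
  smul := fun g t => (t.1, D.ph t.1 g.1 * t.2 * g.2⁻¹)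
  one_smul := fun t => by
    show (t.1, D.ph t.1 1 * t.2 * (1 : W)⁻¹) = t
    rw [map_one, one_mul, inv_one, mul_one]
  mul_smul := fun g h t => by
    show (t.1, D.ph t.1 (g.1 * h.1) * t.2 * (g.2 * h.2)⁻¹) =
      (t.1, D.ph t.1 g.1 * (D.ph t.1 h.1 * t.2 * h.2⁻¹) * g.2⁻¹)
    rw [map_mul, mul_inv_rev]
    simp only [mul_assoc]

/-- the dual families are dual -/
theorem dual [DecidableEq (I × W)] (D : WFS R Γ W I) (t s : I × W) :
    D.lam (D.om t.2⁻¹ * D.cf' t.1 * (D.cf s.1 * D.om s.2)) = if t = s then 1 else 0 := by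
  by_cases h : t = s
  · rw [if_pos h, h]
    exact D.d1 s.1 s.2
  · rw [if_neg h]
    apply D.d0
    by_contra hc
    push Not at hc
    exact h (Prod.ext hc.1 hc.2)

/-- row FPG -/
theorem fpg : FpgStmt := by
  intro R Γ W I _ _ _ _ _ _ D
  classical
  letI := act D
  have hsm : ∀ (g : W × W) (t : I × W), g • t = (t.1, D.ph t.1 g.1 * t.2 * g.2⁻¹) :=
    fun _ _ => rfl
  refine ⟨act D, fun t => D.lam ∘ₗ LinearMap.mulLeft R (D.om t.2⁻¹ * D.cf' t.1),
    fun u v i w => rfl, fun t x => rfl, ?_, ?_, ?_⟩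
  · intro g t
    show D.cf (g • t).1 * D.om (g • t).2 = D.om g.1 * (D.cf t.1 * D.om t.2 * D.om g.2⁻¹)
    rw [hsm, map_mul, map_mul]
    simp only [← mul_assoc]
    rw [D.nrm]
  · intro g t n
    have hb : ∀ s : I × W, (wrp D.om (regB R Γ) g) (D.cf s.1 * D.om s.2) =
        D.cf (g • s).1 * D.om (g • s).2 := by
      intro s
      show D.om g.1 * (D.cf s.1 * D.om s.2 * D.om g.2⁻¹) = _
      rw [hsm, map_mul, map_mul]
      simp only [← mul_assoc]
      rw [D.nrm]
    have key : ∀ s : I × W, (D.lam ∘ₗ LinearMap.mulLeft R (D.om (g • t).2⁻¹ * D.cf' (g • t).1))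
        ((wrp D.om (regB R Γ) g) (D.cf s.1 * D.om s.2)) =
        (D.lam ∘ₗ LinearMap.mulLeft R (D.om t.2⁻¹ * D.cf' t.1)) (D.cf s.1 * D.om s.2) := by
      intro s
      rw [hb]
      show D.lam (D.om (g • t).2⁻¹ * D.cf' (g • t).1 * (D.cf (g • s).1 * D.om (g • s).2)) =
        D.lam (D.om t.2⁻¹ * D.cf' t.1 * (D.cf s.1 * D.om s.2))
      rw [dual, dual]
      by_cases h : t = s
      · rw [if_pos h, if_pos (by rw [h])]
      · rw [if_neg h, if_neg]
        intro h'
        exact h (MulAction.injective g h')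
    have hn : n = ∑ s : I × W, D.lam (D.om s.2⁻¹ * D.cf' s.1 * n) • (D.cf s.1 * D.om s.2) := by
      rw [Fintype.sum_prod_type]
      exact (D.h1 n).symm
    conv_lhs => rw [hn]
    conv_rhs => rw [hn]
    rw [map_sum, map_sum, map_sum]
    refine Finset.sum_congr rfl fun s _ => ?_
    rw [map_smul, map_smul, map_smul, key]
  · intro n
    rw [Fintype.sum_prod_type]
    exact D.h1 n

end Pool.Agent.PFD.D2b.H91
end
end -- Pool.Agent.Helper91_PFD.FPG

section -- Pool.Agent.Helper91_PFD.FPX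

/-!
# Squad PFD, row FPX: the bimodule `X` has a permutation frame for `W × W`
-/

set_option autoImplicit false

open scoped BigOperators

noncomputable section

namespace Pool.Agent.PFD.D2b.H91

open MulOpposite
open Pool.Agent.PFC.B1 (BiM FS)
open Pool.Agent.PFD.D2

/-- row FPX -/
theorem fpx (fpf : FpfStmt) (fpg : FpgStmt) : FpxStmt := by
  intro R Γ W I Ω _ _ _ _ _ _ _ _ D BX hX p
  classical
  obtain ⟨iact, c, hact, hc, hfr1, hfr2, hfr3⟩ := fpg R Γ W I D
  refine ⟨?_, fpf R (W × W) Γ (I × W) _ _ c p ⟨hfr1, hfr2, hfr3⟩⟩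
  -- the action of `W × W` on the functions
  have hval : ∀ (g : W × W) (f : I × Ω → Γ) (x : I × Ω), (wrp D.om BX g f) x =
      wrp D.om (regB R Γ) (D.ph x.1 g.1, g.2) (f (x.1, (D.ph x.1 g.1)⁻¹ • x.2)) := by
    rintro g f ⟨j, ω⟩
    show BX.lm (D.om g.1) (BX.rm (op (D.om g.2⁻¹)) f) (j, ω) =
      D.om (D.ph j g.1) * (f (j, (D.ph j g.1)⁻¹ • ω) * D.om g.2⁻¹)
    rw [hX.1]
    have h1 : ∀ i w, D.lam (D.om w⁻¹ * D.cf' j * D.om g.1 * D.cf i) =
        if ((j, w) : I × W) = (i, D.ph i g.1) then 1 else 0 := by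
      intro i w
      rw [← dual D (j, w) (i, D.ph i g.1), mul_assoc _ (D.om g.1), D.nrm]
    rw [Finset.sum_eq_single j, Finset.sum_eq_single (D.ph j g.1)]
    · rw [h1, if_pos rfl, one_smul, hX.2]
    · intro w _ hw
      rw [h1, if_neg, zero_smul]
      intro h
      exact hw (congrArg Prod.snd h)
    · intro h
      exact absurd (Finset.mem_univ _) h
    · intro i _ hi
      refine Finset.sum_eq_zero fun w _ => ?_
      rw [h1, if_neg, zero_smul]
      intro h
      exact hi (congrArg Prod.fst h).symm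
    · intro h
      exact absurd (Finset.mem_univ _) h
  letI aT : MulAction (W × W) ((I × Ω) × (I × W)) :=
    { smul := fun g t => ((t.1.1, D.ph t.1.1 g.1 • t.1.2), ((D.ph t.1.1 g.1, g.2) : W × W) • t.2)
      one_smul := fun t => by
        show ((t.1.1, D.ph t.1.1 1 • t.1.2), ((D.ph t.1.1 1, 1) : W × W) • t.2) = t
        rw [map_one, one_smul]
        rw [show ((1, 1) : W × W) = 1 from rfl, one_smul]
      mul_smul := fun g h t => by
        show ((t.1.1, D.ph t.1.1 (g.1 * h.1) • t.1.2),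
          ((D.ph t.1.1 (g.1 * h.1), g.2 * h.2) : W × W) • t.2) =
          ((t.1.1, D.ph t.1.1 g.1 • D.ph t.1.1 h.1 • t.1.2),
            ((D.ph t.1.1 g.1, g.2) : W × W) • ((D.ph t.1.1 h.1, h.2) : W × W) • t.2)
        rw [map_mul, mul_smul, smul_smul ((D.ph t.1.1 g.1, g.2) : W × W), Prod.mk_mul_mk] }
  have hsm : ∀ (g : W × W) (t : (I × Ω) × (I × W)), g • t =
      ((t.1.1, D.ph t.1.1 g.1 • t.1.2), ((D.ph t.1.1 g.1, g.2) : W × W) • t.2) := fun _ _ => rfl
  refine fpf R (W × W) (I × Ω → Γ) ((I × Ω) × (I × W)) (wrp D.om BX)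
    (fun t => Pi.single t.1 (D.cf t.2.1 * D.om t.2.2))
    (fun t => c t.2 ∘ₗ LinearMap.proj t.1) p ⟨?_, ?_, ?_⟩
  · rintro g ⟨⟨j, ω⟩, t⟩
    rw [hsm]
    funext x
    rw [hval]
    show (Pi.single ((j, D.ph j g.1 • ω) : I × Ω)
      (D.cf (((D.ph j g.1, g.2) : W × W) • t).1 * D.om (((D.ph j g.1, g.2) : W × W) • t).2) :
        I × Ω → Γ) x = wrp D.om (regB R Γ) (D.ph x.1 g.1, g.2)
      ((Pi.single ((j, ω) : I × Ω) (D.cf t.1 * D.om t.2) : I × Ω → Γ)
        (x.1, (D.ph x.1 g.1)⁻¹ • x.2))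
    by_cases h : x = (j, D.ph j g.1 • ω)
    · subst h
      rw [Pi.single_eq_same]
      show _ = wrp D.om (regB R Γ) (D.ph j g.1, g.2)
        ((Pi.single ((j, ω) : I × Ω) (D.cf t.1 * D.om t.2) : I × Ω → Γ)
          (j, (D.ph j g.1)⁻¹ • D.ph j g.1 • ω))
      rw [inv_smul_smul, Pi.single_eq_same]
      exact hfr1 _ _
    · rw [Pi.single_eq_of_ne h, Pi.single_eq_of_ne, map_zero]
      intro h'
      apply h
      have h1 : x.1 = j := congrArg Prod.fst h'
      have h2 : (D.ph x.1 g.1)⁻¹ • x.2 = ω := congrArg Prod.snd h'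
      refine Prod.ext h1 ?_
      show x.2 = D.ph j g.1 • ω
      rw [← h2, ← h1, smul_inv_smul]
  · rintro g ⟨⟨j, ω⟩, t⟩ f
    rw [hsm]
    show c (((D.ph j g.1, g.2) : W × W) • t) ((wrp D.om BX g f) (j, D.ph j g.1 • ω)) =
      c t (f (j, ω))
    rw [hval]
    show c (((D.ph j g.1, g.2) : W × W) • t) (wrp D.om (regB R Γ) (D.ph j g.1, g.2)
      (f (j, (D.ph j g.1)⁻¹ • D.ph j g.1 • ω))) = c t (f (j, ω))
    rw [inv_smul_smul, hfr2]
  · intro f
    rw [Fintype.sum_prod_type]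
    funext x
    rw [Finset.sum_apply, Finset.sum_eq_single x]
    · rw [Finset.sum_apply]
      have h1 : ∀ t : I × W, ((c t ∘ₗ LinearMap.proj x) f •
          (Pi.single x (D.cf t.1 * D.om t.2) : I × Ω → Γ)) x =
          c t (f x) • (D.cf t.1 * D.om t.2) := by
        intro t
        rw [Pi.smul_apply, Pi.single_eq_same]
        rfl
      rw [Finset.sum_congr rfl fun t _ => h1 t]
      exact hfr3 (f x)
    · intro y _ hy
      rw [Finset.sum_apply]
      refine Finset.sum_eq_zero fun t _ => ?_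
      show (c t ∘ₗ LinearMap.proj y) f •
        (Pi.single y (D.cf t.1 * D.om t.2) : I × Ω → Γ) x = 0
      rw [Pi.single_eq_of_ne hy.symm, smul_zero]
    · intro h
      exact absurd (Finset.mem_univ _) h

end Pool.Agent.PFD.D2b.H91
end
end -- Pool.Agent.Helper91_PFD.FPX

section -- Pool.Agent.Helper92_PFD.WGF

/-!
# Squad PFD, part D2b, block 2: row WGF (helper92)
-/

open scoped BigOperators

noncomputable section

namespace Pool.Agent.PFD.H92

open MulOpposite
open Pool.Agent.PFC.B1 (BiM FS Sep)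
open Pool.Agent.PFD.D2
open Pool.Agent.PFD.D2b

/-- reindexing `V = T x W` -/
theorem sum_tw {V X : Type} [CommGroup V] [Fintype V] [AddCommMonoid X] (W : Subgroup V)
    [Fintype W] (T : Finset V) (hT : Pool.Agent.PFC.IsTv W ⊤ T) (f : V → X) :
    ∑ t : T, ∑ w : W, f ((t : V) * (w : V)) = ∑ v : V, f v := by
  rw [← Fintype.sum_prod_type' (f := fun (t : T) (w : W) => f ((t : V) * (w : V)))]
  refine Function.Bijective.sum_comp (e := fun p : T × W => (p.1 : V) * (p.2 : V)) ?_ f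
  refine ⟨?_, ?_⟩
  · rintro ⟨⟨t, ht⟩, ⟨w, hw⟩⟩ ⟨⟨t', ht'⟩, ⟨w', hw'⟩⟩ h
    have h' : t * w = t' * w' := h
    obtain ⟨s, -, hs⟩ := hT.2 (t * w) (Subgroup.mem_top _)
    have e1 : t = s := hs t ⟨ht, by rw [inv_mul_cancel_left]; exact hw⟩
    have e2 : t' = s := hs t' ⟨ht', by rw [h', inv_mul_cancel_left]; exact hw'⟩
    have e3 : t = t' := e1.trans e2.symm
    subst e3
    have e4 : w = w' := mul_left_cancel h'
    subst e4
    rfl
  · intro v
    obtain ⟨s, ⟨hs1, hs2⟩, -⟩ := hT.2 v (Subgroup.mem_top _)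
    exact ⟨(⟨s, hs1⟩, ⟨s⁻¹ * v, hs2⟩), mul_inv_cancel_left s v⟩

theorem wgf : WgfStmt := by
  intro F V E A _ _ _ _ _ _ _ φ W _ z tx T hT D ho hc hc'
  refine ⟨tx.Om, tx.fOm, tx.aOm, ⟨?_⟩⟩
  letI := tx.fOm
  letI := tx.aOm
  have ho' : ∀ w : W, D.om w⁻¹ = vv φ z (w : V)⁻¹ := fun w => ho w⁻¹
  refine { m := tx.m, τ := tx.τ, m1 := ?_, t1 := ?_, id := ?_ }
  · intro w ω
    rw [ho, ho']
    exact tx.m_eq w ω
  · intro w ω a
    rw [ho, ho']
    exact tx.τ_eq w ω a
  · intro a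
    rw [← tx.hw T hT a, Fintype.sum_prod_type]
    refine Finset.sum_congr rfl fun h _ => ?_
    rw [← Finset.sum_coe_sort T (fun t => ∑ g : E, ∑ v : V, ∑ ω,
      tx.τ ω (tx.j (vv φ z t⁻¹ * D6.ni (D0 φ z) h) * a *
        tx.j (CP.n (D0 φ z) g * vv φ z v)) •
        (tx.j (CP.n (D0 φ z) h * vv φ z t) * tx.m ω * tx.j (vv φ z v⁻¹ * D6.ni (D0 φ z) g)))]
    refine Finset.sum_congr rfl fun t _ => ?_
    rw [Fintype.sum_prod_type]
    refine Finset.sum_congr rfl fun g _ => ?_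
    rw [← sum_tw W T hT]
    refine Finset.sum_congr rfl fun t' _ => Finset.sum_congr rfl fun w _ =>
      Finset.sum_congr rfl fun ω _ => ?_
    have e1 : D.cf (g, t') * D.om w = CP.n (D0 φ z) g * vv φ z ((t' : V) * (w : V)) := by
      rw [hc, ho, mul_assoc, map_mul]
    have e2 : D.om w⁻¹ * D.cf' (g, t') =
        vv φ z ((t' : V) * (w : V))⁻¹ * D6.ni (D0 φ z) g := by
      rw [hc', ho', ← mul_assoc, ← map_mul, mul_inv, mul_comm (w : V)⁻¹]
    rw [e1, e2, hc, hc']

end Pool.Agent.PFD.H92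
end
end -- Pool.Agent.Helper92_PFD.WGF

section -- Pool.Agent.PFD.D4h46.TTR

/-!
Squad PFD, part D4, row TTR (helper46): transitivity of the trace.
-/

set_option autoImplicit false

open scoped BigOperators

noncomputable section

namespace Pool.Agent.PFD.D4.H46

open Pool.Agent.PFC.B1 (FS Split CasStmt)
open Pool.Agent.PFD.D4 Pool.Agent.PFD

section field

variable {K B A I J N : Type} [Field K] [Ring B] [Algebra K B] [Ring A] [Algebra K A]
    [Fintype I] [Fintype J] [Fintype N]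

/-- the bilinear map `(u, v) ↦ f u * a * g v` -/
def sandB {C : Type} [Ring C] [Algebra K C] (f : C →ₗ[K] A) (a : A) : C →ₗ[K] C →ₗ[K] A :=
  LinearMap.mk₂ K (fun u v => f u * a * f v)
    (fun u u' v => by rw [map_add, add_mul, add_mul])
    (fun r u v => by rw [map_smul, smul_mul_assoc, smul_mul_assoc])
    (fun u v v' => by rw [map_add, mul_add])
    (fun r u v => by rw [map_smul, mul_smul_comm])

theorem sandB_apply {C : Type} [Ring C] [Algebra K C] (f : C →ₗ[K] A) (a : A) (u v : C) :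
    sandB f a u v = f u * a * f v := rfl

theorem dual_fam (D : KL K B A I J N) (z : A) :
    ∑ k, ∑ i, D.d.lam (D.sp.j (D.c.b' i) * D.s.y k * z) • (D.s.x k * D.sp.j (D.c.b i)) = z := by
  conv_rhs => rw [← D.s.e1 z]
  refine Finset.sum_congr rfl fun k _ => ?_
  have h1 := D.c.h1 (D.sp.pr (D.s.y k * z))
  conv_rhs => rw [← h1]
  rw [map_sum, Finset.mul_sum]
  refine Finset.sum_congr rfl fun i _ => ?_
  rw [map_smul, mul_smul_comm, D.ort, mul_assoc, D.sp.pr_l]

theorem rt_TB (D : KL K B A I J N) (a : A) : D.s.rt (D.TB a) = D.TA a := by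
  have h1 : D.TA a = ∑ p, ∑ k, ∑ i,
      (D.d.lam (D.sp.j (D.c.b' i) * D.s.y k * D.d.b p) • (D.s.x k * D.sp.j (D.c.b i))) * a *
        D.d.b' p := by
    unfold KL.TA
    refine Finset.sum_congr rfl fun p _ => ?_
    conv_lhs => rw [← dual_fam D (D.d.b p)]
    rw [Finset.sum_mul, Finset.sum_mul]
    refine Finset.sum_congr rfl fun k _ => ?_
    rw [Finset.sum_mul, Finset.sum_mul]
  rw [h1, Finset.sum_comm]
  unfold RF.rt KL.TB
  refine Finset.sum_congr rfl fun k _ => ?_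
  rw [Finset.sum_comm, Finset.mul_sum, Finset.sum_mul]
  refine Finset.sum_congr rfl fun i _ => ?_
  have h2 := D.d.h2 (D.sp.j (D.c.b' i) * D.s.y k)
  have h3 : D.s.x k * (D.sp.j (D.c.b i) * a * D.sp.j (D.c.b' i)) * D.s.y k =
      D.s.x k * D.sp.j (D.c.b i) * a * (D.sp.j (D.c.b' i) * D.s.y k) := by
    simp only [mul_assoc]
  rw [h3]
  conv_lhs => rw [← h2]
  rw [Finset.mul_sum]
  refine Finset.sum_congr rfl fun p _ => ?_
  rw [mul_smul_comm, smul_mul_assoc, smul_mul_assoc]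

end field

theorem ttr (cas : CasStmt) : TtrStmt := by
  intro K B A I J N _ _ _ _ _ _ _ _ D
  refine ⟨rt_TB D, ?_, ?_, ?_, ?_⟩
  · intro a b
    have h1 := cas K B I A D.c (sandB D.sp.j.toLinearMap a) b
    simp only [sandB_apply, AlgHom.toLinearMap_apply, map_mul] at h1
    unfold KL.TB
    rw [Finset.mul_sum, Finset.sum_mul]
    have h2 : ∀ i, D.sp.j b * (D.sp.j (D.c.b i) * a * D.sp.j (D.c.b' i)) =
        D.sp.j b * D.sp.j (D.c.b i) * a * D.sp.j (D.c.b' i) := by
      intro i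
      simp only [mul_assoc]
    have h3 : ∀ i, D.sp.j (D.c.b i) * a * D.sp.j (D.c.b' i) * D.sp.j b =
        D.sp.j (D.c.b i) * a * (D.sp.j (D.c.b' i) * D.sp.j b) := by
      intro i
      simp only [mul_assoc]
    simp only [h2, h3]
    exact h1
  · intro a z hz
    unfold KL.TB
    constructor
    · rw [Finset.mul_sum]
      refine Finset.sum_congr rfl fun i _ => ?_
      rw [← mul_assoc, ← mul_assoc, ← hz, mul_assoc (D.sp.j (D.c.b i)) z a]
    · rw [Finset.sum_mul]
      refine Finset.sum_congr rfl fun i _ => ?_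
      rw [mul_assoc, hz]
      simp only [mul_assoc]
  · intro a z hz
    unfold KL.TA
    rw [Finset.mul_sum]
    refine Finset.sum_congr rfl fun p _ => ?_
    rw [← mul_assoc, ← mul_assoc, ← hz, mul_assoc (D.d.b p) z a]
  · intro a z
    have h1 := cas K A J A D.d (sandB LinearMap.id a) z
    simp only [sandB_apply, LinearMap.id_apply] at h1
    unfold KL.TA
    rw [Finset.mul_sum, Finset.sum_mul]
    have h2 : ∀ i, z * (D.d.b i * a * D.d.b' i) = z * D.d.b i * a * D.d.b' i := by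
      intro i
      simp only [mul_assoc]
    have h3 : ∀ i, D.d.b i * a * D.d.b' i * z = D.d.b i * a * (D.d.b' i * z) := by
      intro i
      simp only [mul_assoc]
    simp only [h2, h3]
    exact h1

end Pool.Agent.PFD.D4.H46
end
end -- Pool.Agent.PFD.D4h46.TTR

section -- Pool.Agent.Helper36_PFD.AsmD4

/-!
# Squad PFD, blocks D2a, D2b, D4 assembled (helper36): `LatStmt` and `MeqStmt` without hypotheses
-/

namespace Pool.Agent.PFD.H36

theorem cas : Pool.Agent.PFC.B1.CasStmt := Pool.Agent.PFC.H77.cas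

/-- D2a -/
theorem exx : D2.ExxStmt :=
  D2.H79.exx (D2.H94.plg (D2.H76.idg D2.H10.sug)) D2.H17.lbg
    (D2.H72.alx D2.H10.sug Pool.Agent.Helper86_PFC.pen (D2.H84.stg Pool.Agent.Helper86_PFC.pen))
    Pool.Agent.PFC.B1.H58.rng

theorem fpx : D2b.FpxStmt := D2b.H91.fpx D2b.H49.fpf D2b.H91.fpg

theorem lfx : D2b.LfxStmt :=
  D2b.H49.lfx fpx (D2b.H65.lfa D2b.H13.eqf D2b.H33.ing D2b.H33.inm)
    (D2b.H30.lfb D2b.H13.eqf D2b.H33.ing D2b.H49.inb D2b.H91.fpg)

/-- D2b: the lift `A1` -/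
theorem lat : D2b.LatStmt :=
  D2b.H20.lat Pool.Agent.Helper13_PFD.bwf D2b.H24.rwf D2b.H65.inx D2b.H44.wgd H92.wgf
    D2b.H33.lcu (D2b.H17.chf D2b.H65.czw) (D2b.H29.spx D2b.H33.inm cas) lfx exx
    (D2b.H48.lax (D2b.H72.hgr D2b.H33.ing) (H52.xcl D2b.H13.eqf fpx))

theorem lrx : D4.LrxStmt :=
  D4.H81.lrx (D4.H15.rfl_ D2.H49.ung) (D4.H30.unm D2.H49.ung) (H92.ulf D2b.H33.lcu D2b.H24.rwf)
    (D4.H33.frm D4.H91.rtc) (H52.ort D2b.H33.lcu D2b.H24.rwf (D4.H30.unm D2.H49.ung))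

theorem klt : D4.KltStmt :=
  D4.H81.klt
    (D4.H3.zet (D4.H68.crs cas) (D4.H46.ttr cas)
      (D4.H48.zpn D4.H20.idm D4.H41.tfs (D4.H46.ttr cas) D4.H89.hsv D4.H91.rtc) D4.H91.rtc)
    H78.fot

theorem kbc : D4.KbcStmt :=
  D4.H90.kbc D4.H35.bfs D4.H41.bsp D4.H24.brf Pool.Agent.Helper13_PFD.bdv

/-- D4: TOP -/
theorem meq : D4.MeqStmt :=
  D4.H19.meq lat lrx (D4.H80.zon D4.H91.rtc) kbc klt D4.H68.cnr D4.H35.cnk

end Pool.Agent.PFD.H36
end -- Pool.Agent.Helper36_PFD.AsmD4
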