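import Mathlib

/-!
# Merged copies (generated) of the modules

* `Pool.Agent.Helper71_ML.Rel`
-/

set_option autoImplicit false

section -- Pool.Agent.Helper71_ML.Rel

/-!
The star relation and the chain relation for the moves on `(x, y, z, z')` with
`[x, y] = g z z'` (torus with two more punctures), as identities in a group.
-/

namespace Pool.Agent.PP.ML.H71

variable {G : Type*} [Group G]

/-- `x` is kept, `y` is multiplied by `x` -/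
def mA1 (t : G × G × G × G) : G × G × G × G := (t.1, t.2.1 * t.1, t.2.2.1, t.2.2.2)

/-- `y` is kept, `x` is multiplied by `y⁻¹` -/
def mB (t : G × G × G × G) : G × G × G × G := (t.1 * t.2.1⁻¹, t.2.1, t.2.2.1, t.2.2.2)

/-- the twist around the handle and both punctures -/
def mA2 (g : G) (t : G × G × G × G) : G × G × G × G :=
  (t.1, g⁻¹ * t.1 * t.2.1, (g⁻¹ * t.1) * t.2.2.1 * (g⁻¹ * t.1)⁻¹,
    (g⁻¹ * t.1) * t.2.2.2 * (g⁻¹ * t.1)⁻¹)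

/-- the twist around the handle and the last puncture -/
def mA3 (g : G) (t : G × G × G × G) : G × G × G × G :=
  (t.1, t.2.2.1⁻¹ * g⁻¹ * t.1 * t.2.1, t.2.2.1,
    (t.2.2.1⁻¹ * g⁻¹ * t.1) * t.2.2.2 * (t.2.2.1⁻¹ * g⁻¹ * t.1)⁻¹)

/-- the relation `[x, y] = g z z'` -/
def MRel (g : G) (t : G × G × G × G) : Prop :=
  t.1 * t.2.1 * t.1⁻¹ * t.2.1⁻¹ = g * t.2.2.1 * t.2.2.2

theorem MRel.mA1 {g : G} {t : G × G × G × G} (h : MRel g t) : MRel g (mA1 t) := by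
  unfold MRel at h ⊢
  show t.1 * (t.2.1 * t.1) * t.1⁻¹ * (t.2.1 * t.1)⁻¹ = g * t.2.2.1 * t.2.2.2
  rw [← h]
  group

theorem MRel.mB {g : G} {t : G × G × G × G} (h : MRel g t) : MRel g (mB t) := by
  unfold MRel at h ⊢
  show t.1 * t.2.1⁻¹ * t.2.1 * (t.1 * t.2.1⁻¹)⁻¹ * t.2.1⁻¹ = g * t.2.2.1 * t.2.2.2
  rw [← h]
  group

theorem mrel_z {g : G} {t : G × G × G × G} (h : MRel g t) :
    t.2.2.2 = t.2.2.1⁻¹ * g⁻¹ * (t.1 * t.2.1 * t.1⁻¹ * t.2.1⁻¹) := by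
  unfold MRel at h
  rw [h]
  group

theorem MRel.mA2 {g : G} {t : G × G × G × G} (h : MRel g t) : MRel g (mA2 g t) := by
  have hz := mrel_z h
  unfold MRel at h ⊢
  obtain ⟨x, y, z, z'⟩ := t
  simp only at h hz
  subst hz
  simp only [H71.mA2]
  group

theorem MRel.mA3 {g : G} {t : G × G × G × G} (h : MRel g t) : MRel g (mA3 g t) := by
  have hz := mrel_z h
  unfold MRel at h ⊢
  obtain ⟨x, y, z, z'⟩ := t
  simp only at h hz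
  subst hz
  simp only [H71.mA3]
  group

/-- `a₁ b a₁ = b a₁ b` -/
theorem braid1 (t : G × G × G × G) : mA1 (mB (mA1 t)) = mB (mA1 (mB t)) := by
  simp only [mA1, mB, Prod.mk.injEq, and_true]
  constructor <;> group

/-- `a₂ b a₂ = b a₂ b` -/
theorem braid2 {g : G} {t : G × G × G × G} (h : MRel g t) :
    mA2 g (mB (mA2 g t)) = mB (mA2 g (mB t)) := by
  have hz := mrel_z h
  obtain ⟨x, y, z, z'⟩ := t
  simp only at hz
  subst hz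
  simp only [mA2, mB, Prod.mk.injEq]
  refine ⟨?_, ?_, ?_, ?_⟩ <;> group

/-- `a₃ b a₃ = b a₃ b` -/
theorem braid3 {g : G} {t : G × G × G × G} (h : MRel g t) :
    mA3 g (mB (mA3 g t)) = mB (mA3 g (mB t)) := by
  have hz := mrel_z h
  obtain ⟨x, y, z, z'⟩ := t
  simp only at hz
  subst hz
  simp only [mA3, mB, Prod.mk.injEq]
  refine ⟨?_, ?_, ?_, ?_⟩ <;> group

/-- the element `a₁ a₂ a₃ b` -/
def mTh (g : G) (t : G × G × G × G) : G × G × G × G := mA1 (mA2 g (mA3 g (mB t)))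

theorem MRel.mTh {g : G} {t : G × G × G × G} (h : MRel g t) : MRel g (mTh g t) :=
  h.mB.mA3.mA2.mA1

/-- the first three coordinates of `a₁ a₂ a₃ b` -/
theorem mTh_val (g : G) (t : G × G × G × G) :
    (mTh g t).1 = t.1 * t.2.1⁻¹ ∧
    (mTh g t).2.1 = g⁻¹ * t.1 * t.2.1⁻¹ * t.2.2.1⁻¹ * g⁻¹ * t.1 * t.1 * t.2.1⁻¹ ∧
    (mTh g t).2.2.1 = g⁻¹ * t.1 * t.2.1⁻¹ * t.2.2.1 * t.2.1 * t.1⁻¹ * g := by
  simp only [mTh, mA1, mA2, mA3, mB]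
  refine ⟨trivial, ?_, ?_⟩ <;> group

/-- two tuples with the relation and the same first three coordinates are equal -/
theorem mrel_ext {g : G} {t t' : G × G × G × G} (h : MRel g t) (h' : MRel g t')
    (h1 : t.1 = t'.1) (h2 : t.2.1 = t'.2.1) (h3 : t.2.2.1 = t'.2.2.1) : t = t' := by
  have hz := mrel_z h
  have hz' := mrel_z h'
  rw [← h1, ← h2, ← h3, ← hz] at hz'
  obtain ⟨x, y, z, w⟩ := t
  obtain ⟨x', y', z', w'⟩ := t'
  simp only at h1 h2 h3 hz'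
  rw [h1, h2, h3, hz']

/-- the first three coordinates of the square of `a₁ a₂ a₃ b` -/
theorem mTh2_val (g : G) (t : G × G × G × G) :
    (mTh g (mTh g t)).1 = t.1⁻¹ * g * t.2.2.1 * t.2.1 * t.1⁻¹ * g ∧
    (mTh g (mTh g t)).2.1 = g⁻¹ * t.1⁻¹ * g * t.1⁻¹ * g * t.2.2.1 * t.2.1 * t.1⁻¹ * g ∧
    (mTh g (mTh g t)).2.2.1 = g⁻¹ * t.1⁻¹ * g * t.2.2.1 * g⁻¹ * t.1 * g := by
  obtain ⟨h1, h2, h3⟩ := mTh_val g t
  obtain ⟨h5, h6, h7⟩ := mTh_val g (mTh g t)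
  rw [h1, h2] at h5
  rw [h1, h2, h3] at h6 h7
  refine ⟨h5.trans ?_, h6.trans ?_, h7.trans ?_⟩ <;> group

/-- the star relation: `(a₁ a₂ a₃ b) ^ 3` is the conjugation by `g⁻¹` -/
theorem star_rel {g : G} {t : G × G × G × G} (h : MRel g t) :
    mTh g (mTh g (mTh g t)) =
      (g⁻¹ * t.1 * g, g⁻¹ * t.2.1 * g, g⁻¹ * t.2.2.1 * g, g⁻¹ * t.2.2.2 * g) := by
  obtain ⟨h1, h2, h3⟩ := mTh2_val g t
  obtain ⟨h5, h6, h7⟩ := mTh_val g (mTh g (mTh g t))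
  rw [h1, h2] at h5
  rw [h1, h2, h3] at h6 h7
  apply mrel_ext h.mTh.mTh.mTh
  · unfold MRel at h ⊢
    show g⁻¹ * t.1 * g * (g⁻¹ * t.2.1 * g) * (g⁻¹ * t.1 * g)⁻¹ * (g⁻¹ * t.2.1 * g)⁻¹ =
      g * (g⁻¹ * t.2.2.1 * g) * (g⁻¹ * t.2.2.2 * g)
    have h8 : g⁻¹ * t.1 * g * (g⁻¹ * t.2.1 * g) * (g⁻¹ * t.1 * g)⁻¹ * (g⁻¹ * t.2.1 * g)⁻¹ =
        g⁻¹ * (t.1 * t.2.1 * t.1⁻¹ * t.2.1⁻¹) * g := by group
    rw [h8, h]
    group
  · refine h5.trans ?_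
    show _ = g⁻¹ * t.1 * g
    group
  · refine h6.trans ?_
    show _ = g⁻¹ * t.2.1 * g
    group
  · refine h7.trans ?_
    show _ = g⁻¹ * t.2.2.1 * g
    group

/-- the element `a₁ b a₂` -/
def mKa (g : G) (t : G × G × G × G) : G × G × G × G := mA1 (mB (mA2 g t))

theorem MRel.mKa {g : G} {t : G × G × G × G} (h : MRel g t) : MRel g (mKa g t) :=
  h.mA2.mB.mA1

/-- `a₁ b a₂` keeps the condition `z' = 1` -/
theorem mKa_one {g : G} {t : G × G × G × G} (h : t.2.2.2 = 1) : (mKa g t).2.2.2 = 1 := by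
  simp only [mKa, mA1, mB, mA2, h]
  group

theorem mKa_val (g : G) (t : G × G × G × G) :
    (mKa g t).1 = t.1 * t.2.1⁻¹ * t.1⁻¹ * g ∧
    (mKa g t).2.1 = g⁻¹ * t.1 * t.2.1 * t.1 * t.2.1⁻¹ * t.1⁻¹ * g := by
  simp only [mKa, mA1, mA2, mB]
  refine ⟨?_, ?_⟩ <;> group

theorem mKa2_val (g : G) (t : G × G × G × G) :
    (mKa g (mKa g t)).1 = t.1⁻¹ * g ∧
    (mKa g (mKa g t)).2.1 = g⁻¹ * t.1 * t.1 * t.2.1⁻¹ * t.1⁻¹ * g * t.1⁻¹ * g := by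
  obtain ⟨h1, h2⟩ := mKa_val g t
  obtain ⟨h5, h6⟩ := mKa_val g (mKa g t)
  rw [h1, h2] at h5 h6
  refine ⟨h5.trans ?_, h6.trans ?_⟩ <;> group

theorem mKa4_val (g : G) (t : G × G × G × G) :
    (mKa g (mKa g (mKa g (mKa g t)))).1 = g⁻¹ * t.1 * g ∧
    (mKa g (mKa g (mKa g (mKa g t)))).2.1 = g⁻¹ * t.2.1 * g := by
  obtain ⟨h1, h2⟩ := mKa2_val g t
  obtain ⟨h5, h6⟩ := mKa2_val g (mKa g (mKa g t))
  rw [h1] at h5
  rw [h1, h2] at h6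
  refine ⟨h5.trans ?_, h6.trans ?_⟩ <;> group

/-- the chain relation: if `z' = 1` then `(a₁ b a₂) ^ 4` is the conjugation by `g⁻¹` -/
theorem chain_rel {g : G} {t : G × G × G × G} (h : MRel g t) (h0 : t.2.2.2 = 1) :
    mKa g (mKa g (mKa g (mKa g t))) =
      (g⁻¹ * t.1 * g, g⁻¹ * t.2.1 * g, g⁻¹ * t.2.2.1 * g, g⁻¹ * t.2.2.2 * g) := by
  obtain ⟨h1, h2⟩ := mKa4_val g t
  have h3 := mKa_one (g := g) (mKa_one (g := g) (mKa_one (g := g) (mKa_one (g := g) h0)))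
  have h4 := h.mKa.mKa.mKa.mKa
  obtain ⟨t', ht'⟩ : ∃ t', t' = mKa g (mKa g (mKa g (mKa g t))) := ⟨_, rfl⟩
  rw [← ht'] at h1 h2 h3 h4 ⊢
  have h5 : t'.2.2.1 = g⁻¹ * (t'.1 * t'.2.1 * t'.1⁻¹ * t'.2.1⁻¹) := by
    have h6 := h4
    unfold MRel at h6
    rw [h6, h3]
    group
  have h7 : t.2.2.1 = g⁻¹ * (t.1 * t.2.1 * t.1⁻¹ * t.2.1⁻¹) := by
    have h6 := h
    unfold MRel at h6
    rw [h6, h0]
    group
  have h8 : t' = (t'.1, t'.2.1, t'.2.2.1, t'.2.2.2) := rfl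
  rw [h8, Prod.mk.injEq, Prod.mk.injEq, Prod.mk.injEq]
  refine ⟨h1, h2, ?_, ?_⟩
  · rw [h5, h1, h2, h7]
    group
  · rw [h3, h0]
    group

/-- `a₁` commutes with `a₂` -/
theorem comm12 (g : G) (t : G × G × G × G) : mA1 (mA2 g t) = mA2 g (mA1 t) := by
  simp only [mA1, mA2, Prod.mk.injEq, and_true, true_and]
  group

end Pool.Agent.PP.ML.H71
end -- Pool.Agent.Helper71_ML.Rel
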