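import Pool.Agent.Helper58_CL.Stmt

/-!
# Merged copies (generated) of the modules

* `Pool.Agent.Helper58_CL.Tw`
* `Pool.Agent.Helper58_CL.Coef`
* `Pool.Agent.Helper58_CL.Mono`
* `Pool.Agent.Helper58_CL.Idx`
* `Pool.Agent.Helper58_CL.Rp`
* `Pool.Agent.Helper58_CL.Cl`
* `Pool.Agent.Helper58_CL.Fin`
-/

set_option autoImplicit false

section -- Pool.Agent.Helper58_CL.Tw

/-!
Implementers of conjugation on an irreducible matrix representation of a normal subgroup and the
twisted trace functions on a coset.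
-/

open scoped BigOperators

set_option linter.unusedSectionVars false

noncomputable section

namespace Pool.Agent.Helper58_CL

open Pool.Agent.PP

variable {F : Type} [Field F] {H : Type} [Group H] {L : Subgroup H} [L.Normal]

theorem irr_commute_all {K : Type} [Group K] {n : ℕ} {ρ : K →* Matrix (Fin n) (Fin n) F}
    (h : IsIrr ρ) {T : Matrix (Fin n) (Fin n) F} (hT : ∀ g, T * ρ g = ρ g * T)
    (A : Matrix (Fin n) (Fin n) F) : T * A = A * T := by
  have hA : A ∈ Submodule.span F (Set.range ρ) := by rw [h.2]; trivial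
  induction hA using Submodule.span_induction with
  | mem x hx =>
    obtain ⟨g, rfl⟩ := hx
    exact hT g
  | zero => simp
  | add x y _ _ hx hy => rw [mul_add, hx, hy, add_mul]
  | smul a x _ hx => rw [Matrix.mul_smul, hx, Matrix.smul_mul]

/-- Schur's lemma -/
theorem irr_schur {K : Type} [Group K] {n : ℕ} {ρ : K →* Matrix (Fin n) (Fin n) F}
    (h : IsIrr ρ) {T : Matrix (Fin n) (Fin n) F} (hT : ∀ g, T * ρ g = ρ g * T) :
    ∃ c : F, T = c • (1 : Matrix (Fin n) (Fin n) F) := by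
  have h1 : T ∈ Set.range (Matrix.scalar (Fin n)) := by
    apply Matrix.mem_range_scalar_of_commute_single
    intro i j _
    exact (irr_commute_all h hT _).symm
  obtain ⟨c, hc⟩ := h1
  refine ⟨c, ?_⟩
  rw [← hc]
  ext i j
  simp [Matrix.scalar_apply, Matrix.diagonal_apply, Matrix.one_apply]

/-- A matrix `A` with `tr (A ρ(g)) = 0` for all `g` is zero. -/
theorem irr_eq_zero_of_trace {K : Type} [Group K] {n : ℕ} {ρ : K →* Matrix (Fin n) (Fin n) F}
    (h : IsIrr ρ) {A : Matrix (Fin n) (Fin n) F} (hA : ∀ g, (A * ρ g).trace = 0) : A = 0 := by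
  have h1 : ∀ B : Matrix (Fin n) (Fin n) F, (A * B).trace = 0 := by
    intro B
    have hB : B ∈ Submodule.span F (Set.range ρ) := by rw [h.2]; trivial
    induction hB using Submodule.span_induction with
    | mem x hx =>
      obtain ⟨g, rfl⟩ := hx
      exact hA g
    | zero => simp
    | add x y _ _ hx hy => rw [mul_add, Matrix.trace_add, hx, hy, add_zero]
    | smul a x _ hx => rw [Matrix.mul_smul, Matrix.trace_smul, hx, smul_zero]
  ext i j
  have h2 := h1 (Matrix.single j i 1)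
  rw [Matrix.trace_mul_single] at h2
  simpa using h2

/-- `X` implements the conjugation by `x` on the representation `ρ` of the normal subgroup -/
structure Imp {n : ℕ} (ρ : L →* Matrix (Fin n) (Fin n) F) (x : H)
    (X : Matrix (Fin n) (Fin n) F) : Prop where
  unit : IsUnit X
  eq : ∀ g : L, X * ρ g = ρ (MulAut.conjNormal x g) * X

variable {n : ℕ} {ρ : L →* Matrix (Fin n) (Fin n) F}

theorem isUnit_rep (g : L) : IsUnit (ρ g) := (Group.isUnit g).map ρ

theorem Imp.mul {x y : H} {X Y : Matrix (Fin n) (Fin n) F} (hx : Imp ρ x X) (hy : Imp ρ y Y) :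
    Imp ρ (x * y) (X * Y) := by
  refine ⟨hx.unit.mul hy.unit, fun g => ?_⟩
  rw [mul_assoc, hy.eq, ← mul_assoc, hx.eq, mul_assoc, map_mul]
  rfl

theorem Imp.coe (l : L) : Imp ρ (l : H) (ρ l) := by
  refine ⟨isUnit_rep l, fun g => ?_⟩
  rw [← map_mul, ← map_mul]
  congr 1
  ext
  simp [MulAut.conjNormal_apply]

theorem Imp.uniq (hρ : IsIrr ρ) {x : H} {X Y : Matrix (Fin n) (Fin n) F} (hx : Imp ρ x X)
    (hy : Imp ρ x Y) : ∃ c : F, c ≠ 0 ∧ Y = c • X := by
  obtain ⟨u, hu⟩ := hx.unit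
  have hT : ∀ g, ((u⁻¹).val * Y) * ρ g = ρ g * ((u⁻¹).val * Y) := by
    intro g
    rw [mul_assoc, hy.eq]
    have h1 := hx.eq g
    rw [← hu] at h1
    have h2 : (u⁻¹).val * ρ (MulAut.conjNormal x g) = ρ g * (u⁻¹).val := by
      rw [Units.inv_mul_eq_iff_eq_mul, ← mul_assoc, h1, mul_assoc, Units.mul_inv, mul_one]
    rw [← mul_assoc, h2, mul_assoc]
  obtain ⟨c, hc⟩ := irr_schur hρ hT
  have hY : Y = c • X := by
    have h3 : (u : Matrix (Fin n) (Fin n) F) * ((u⁻¹).val * Y) = Y := by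
      rw [← mul_assoc, Units.mul_inv, one_mul]
    rw [← h3, hc, hu, Matrix.mul_smul, mul_one]
  refine ⟨c, ?_, hY⟩
  rintro rfl
  rw [zero_smul] at hY
  have hn : 0 < n := hρ.1
  have h4 := hy.unit
  rw [hY] at h4
  have : Nonempty (Fin n) := ⟨⟨0, hn⟩⟩
  exact not_isUnit_zero h4

/-- change of the representation by a change of basis -/
theorem Imp.conj {x : H} {X : Matrix (Fin n) (Fin n) F} {ρ' : L →* Matrix (Fin n) (Fin n) F}
    (P : (Matrix (Fin n) (Fin n) F)ˣ)
    (hP : ∀ g, (P : Matrix (Fin n) (Fin n) F) * ρ g = ρ' g * P) (hx : Imp ρ x X) :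
    Imp ρ' x (P * X * (P⁻¹).val) := by
  refine ⟨(P.isUnit.mul hx.unit).mul P⁻¹.isUnit, fun g => ?_⟩
  have h1 : (P⁻¹).val * ρ' g = ρ g * (P⁻¹).val := by
    rw [Units.inv_mul_eq_iff_eq_mul, ← mul_assoc, hP, mul_assoc, Units.mul_inv, mul_one]
  rw [mul_assoc, h1, ← mul_assoc, mul_assoc (P : Matrix (Fin n) (Fin n) F), hx.eq, ← mul_assoc, hP]
  simp only [mul_assoc]

/-- the conjugate representation -/
def crep (ρ : L →* Matrix (Fin n) (Fin n) F) (y : H) : L →* Matrix (Fin n) (Fin n) F :=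
  ρ.comp (MulAut.conjNormal y⁻¹ : MulAut L).toMonoidHom

theorem crep_apply (y : H) (g : L) : crep ρ y g = ρ (MulAut.conjNormal y⁻¹ g) := rfl

theorem crep_irr {y : H} (h : IsIrr ρ) : IsIrr (crep ρ y) := by
  refine ⟨h.1, ?_⟩
  rw [← h.2]
  congr 1
  ext A
  constructor
  · rintro ⟨g, rfl⟩
    exact ⟨_, rfl⟩
  · rintro ⟨g, rfl⟩
    refine ⟨MulAut.conjNormal y g, ?_⟩
    rw [crep_apply]
    congr 1
    ext
    simp

theorem Imp.crep {x : H} {X : Matrix (Fin n) (Fin n) F} (y : H) (hx : Imp ρ x X) :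
    Imp (crep ρ y) (y * x * y⁻¹) X := by
  refine ⟨hx.unit, fun g => ?_⟩
  rw [crep_apply, crep_apply, hx.eq]
  congr 2
  ext
  simp [MulAut.conjNormal_apply, mul_assoc]

/-- The twisted trace function on the coset `x L` : `x l ↦ tr (X ρ(l))`, zero elsewhere. -/
def tw (ρ : L →* Matrix (Fin n) (Fin n) F) (x : H) (X : Matrix (Fin n) (Fin n) F) (h : H) : F :=
  open Classical in if hh : x⁻¹ * h ∈ L then (X * ρ ⟨x⁻¹ * h, hh⟩).trace else 0

theorem tw_mem {x : H} {X : Matrix (Fin n) (Fin n) F} {h : H} (hh : x⁻¹ * h ∈ L) :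
    tw ρ x X h = (X * ρ ⟨x⁻¹ * h, hh⟩).trace := by
  classical
  rw [tw, dif_pos hh]

theorem tw_not {x : H} {X : Matrix (Fin n) (Fin n) F} {h : H} (hh : x⁻¹ * h ∉ L) :
    tw ρ x X h = 0 := by
  classical
  rw [tw, dif_neg hh]

theorem tw_mul {x : H} {X : Matrix (Fin n) (Fin n) F} (l : L) :
    tw ρ x X (x * l) = (X * ρ l).trace := by
  have hh : x⁻¹ * (x * (l : H)) ∈ L := by rw [inv_mul_cancel_left]; exact l.2
  rw [tw_mem hh]
  congr 3
  ext
  simp

theorem tw_smul {x : H} {X : Matrix (Fin n) (Fin n) F} (c : F) (h : H) :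
    tw ρ x (c • X) h = c * tw ρ x X h := by
  by_cases hh : x⁻¹ * h ∈ L
  · rw [tw_mem hh, tw_mem hh, Matrix.smul_mul, Matrix.trace_smul, smul_eq_mul]
  · rw [tw_not hh, tw_not hh, mul_zero]

/-- the function does not depend on the representative of the coset -/
theorem tw_lift {x : H} {X : Matrix (Fin n) (Fin n) F} (l : L) (h : H) :
    tw ρ (x * l) (X * ρ l) h = tw ρ x X h := by
  by_cases hh : x⁻¹ * h ∈ L
  · have hh' : (x * (l : H))⁻¹ * h ∈ L := by
      rw [mul_inv_rev, mul_assoc]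
      exact L.mul_mem (L.inv_mem l.2) hh
    rw [tw_mem hh, tw_mem hh', mul_assoc, ← map_mul]
    congr 3
    ext
    simp [mul_assoc]
  · have hh' : (x * (l : H))⁻¹ * h ∉ L := by
      intro h1
      apply hh
      rw [mul_inv_rev, mul_assoc] at h1
      have := L.mul_mem l.2 h1
      rwa [mul_inv_cancel_left] at this
    rw [tw_not hh, tw_not hh']

/-- change of basis does not change the function -/
theorem tw_conj {x : H} {X : Matrix (Fin n) (Fin n) F} {ρ' : L →* Matrix (Fin n) (Fin n) F}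
    (P : (Matrix (Fin n) (Fin n) F)ˣ)
    (hP : ∀ g, (P : Matrix (Fin n) (Fin n) F) * ρ g = ρ' g * P) (h : H) :
    tw ρ' x (P * X * (P⁻¹).val) h = tw ρ x X h := by
  by_cases hh : x⁻¹ * h ∈ L
  · rw [tw_mem hh, tw_mem hh]
    have h1 : (P⁻¹).val * ρ' ⟨x⁻¹ * h, hh⟩ =
        ρ ⟨x⁻¹ * h, hh⟩ * (P⁻¹).val := by
      rw [Units.inv_mul_eq_iff_eq_mul, ← mul_assoc, hP, mul_assoc, Units.mul_inv, mul_one]
    rw [mul_assoc, h1, ← mul_assoc, mul_assoc (P : Matrix (Fin n) (Fin n) F),
      Matrix.trace_mul_comm, ← mul_assoc, Units.inv_mul, one_mul]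
  · rw [tw_not hh, tw_not hh]

/-- the conjugate of a twisted trace function -/
theorem tw_act {x : H} {X : Matrix (Fin n) (Fin n) F} (y h : H) :
    tw ρ x X (y⁻¹ * h * y) = tw (crep ρ y) (y * x * y⁻¹) X h := by
  have he : (y * x * y⁻¹)⁻¹ * h = y * (x⁻¹ * (y⁻¹ * h * y)) * y⁻¹ := by
    simp only [mul_inv_rev, inv_inv]
    group
  by_cases hh : x⁻¹ * (y⁻¹ * h * y) ∈ L
  · have hh' : (y * x * y⁻¹)⁻¹ * h ∈ L := by
      rw [he]
      exact Subgroup.Normal.conj_mem inferInstance _ hh y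
    rw [tw_mem hh, tw_mem hh', crep_apply]
    congr 3
    ext
    simp only [MulAut.conjNormal_apply, inv_inv, he]
    group
  · have hh' : (y * x * y⁻¹)⁻¹ * h ∉ L := by
      rw [he]
      intro h1
      apply hh
      have := Subgroup.Normal.conj_mem (inferInstance : L.Normal) _ h1 y⁻¹
      have h2 : y⁻¹ * (y * (x⁻¹ * (y⁻¹ * h * y)) * y⁻¹) * y⁻¹⁻¹ = x⁻¹ * (y⁻¹ * h * y) := by
        group
      rwa [h2] at this
    rw [tw_not hh, tw_not hh']

/-- twisted trace functions are not zero -/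
theorem tw_ne_zero (hρ : IsIrr ρ) {x : H} {X : Matrix (Fin n) (Fin n) F} (hX : IsUnit X) :
    ∃ h, tw ρ x X h ≠ 0 := by
  by_contra hcon
  push Not at hcon
  have h1 : X = 0 := irr_eq_zero_of_trace hρ (fun g => by rw [← tw_mul (x := x)]; exact hcon _)
  rw [h1] at hX
  have : Nonempty (Fin n) := ⟨⟨0, hρ.1⟩⟩
  exact not_isUnit_zero hX

/-- the value on `h u` with `u ∈ L` a commuting unipotent element -/
theorem tw_unip {l : ℕ} [Fact l.Prime] [CharP F l] {x : H} {X : Matrix (Fin n) (Fin n) F}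
    (hX : Imp ρ x X) {h : H} {u : L} {k : ℕ} (hc : h * (u : H) = (u : H) * h)
    (hu : u ^ l ^ k = 1) : tw ρ x X (h * u) = tw ρ x X h := by
  by_cases hh : x⁻¹ * h ∈ L
  · have hh' : x⁻¹ * (h * (u : H)) ∈ L := by
      rw [← mul_assoc]
      exact L.mul_mem hh u.2
    rw [tw_mem hh, tw_mem hh']
    have h0 : (⟨x⁻¹ * (h * (u : H)), hh'⟩ : L) = ⟨x⁻¹ * h, hh⟩ * u := by
      ext
      simp [mul_assoc]
    rw [h0, map_mul, ← mul_assoc]
    set A := X * ρ ⟨x⁻¹ * h, hh⟩ with hA
    have hAi : Imp ρ h A := by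
      have := hX.mul (Imp.coe (ρ := ρ) ⟨x⁻¹ * h, hh⟩)
      simpa using this
    have hcomm : A * ρ u = ρ u * A := by
      rw [hAi.eq]
      congr 2
      ext
      simp [MulAut.conjNormal_apply, hc]
    have hnil : IsNilpotent (ρ u - 1) := by
      have hchar : CharP (Matrix (Fin n) (Fin n) F) l ∨ n = 0 := by
        rcases Nat.eq_zero_or_pos n with h0 | h0
        · exact Or.inr h0
        · left
          have : Nonempty (Fin n) := ⟨⟨0, h0⟩⟩
          infer_instance
      rcases hchar with hchar | h0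
      · refine ⟨l ^ k, ?_⟩
        rw [sub_pow_char_pow_of_commute _ _ (Commute.one_right _), one_pow, ← map_pow, hu, map_one,
          sub_self]
      · subst h0
        refine ⟨1, ?_⟩
        ext i
        exact i.elim0
    have hnil2 : IsNilpotent (A * (ρ u - 1)) := by
      have hcc : Commute A (ρ u - 1) := by
        show A * (ρ u - 1) = (ρ u - 1) * A
        rw [mul_sub, sub_mul, hcomm, mul_one, one_mul]
      exact hcc.isNilpotent_mul_left hnil
    have htr : (A * (ρ u - 1)).trace = 0 := by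
      have := Matrix.isNilpotent_trace_of_isNilpotent hnil2
      exact this.eq_zero
    have : A * ρ u = A + A * (ρ u - 1) := by
      rw [mul_sub, mul_one]
      abel
    rw [this, Matrix.trace_add, htr, add_zero]
  · have hh' : x⁻¹ * (h * (u : H)) ∉ L := by
      intro h1
      apply hh
      rw [← mul_assoc] at h1
      have := L.mul_mem h1 (L.inv_mem u.2)
      rwa [mul_inv_cancel_right] at this
    rw [tw_not hh, tw_not hh']

end Pool.Agent.Helper58_CL
end
end -- Pool.Agent.Helper58_CL.Tw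

section -- Pool.Agent.Helper58_CL.Coef

/-!
The restriction of an irreducible modular character of `H` to a coset of a normal subgroup `L` is
a sum of twisted trace functions.
-/

open scoped BigOperators

set_option linter.unusedSectionVars false

noncomputable section

namespace Pool.Agent.Helper58_CL

open Pool.Agent.PP

section chosen

variable {F : Type} [Field F] {K : Type} [Group K]

/-- the degree of a chosen representation with trace `φ` -/
def dimOf (φ : IBr F K) : ℕ := φ.2.choose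

/-- a chosen representation with trace `φ` -/
def repOf (φ : IBr F K) : K →* Matrix (Fin (dimOf φ)) (Fin (dimOf φ)) F := φ.2.choose_spec.choose

theorem repOf_irr (φ : IBr F K) : IsIrr (repOf φ) := φ.2.choose_spec.choose_spec.1

theorem repOf_tr (φ : IBr F K) : tr (repOf φ) = (φ : K → F) := φ.2.choose_spec.choose_spec.2.symm

theorem ev_eq [Fintype K] {n : ℕ} (ρ : K →* Matrix (Fin n) (Fin n) F) (a : K → F) :
    ev ρ a = ∑ t, a t • ρ t := by
  rw [ev, finsum_eq_sum_of_fintype]

theorem ev_mulF [Finite K] {n : ℕ} (ρ : K →* Matrix (Fin n) (Fin n) F) (a b : K → F) :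
    ev ρ (mulF a b) = ev ρ a * ev ρ b := by
  have := Fintype.ofFinite K
  rw [ev_eq, ev_eq, ev_eq, Finset.sum_mul]
  simp only [mulF, finsum_eq_sum_of_fintype, Finset.sum_smul]
  rw [Finset.sum_comm]
  apply Finset.sum_congr rfl
  intro t _
  rw [Finset.mul_sum]
  rw [← Equiv.sum_comp (Equiv.mulLeft t)]
  apply Finset.sum_congr rfl
  intro s _
  rw [Equiv.coe_mulLeft, inv_mul_cancel_left, map_mul, Matrix.smul_mul, Matrix.mul_smul, mul_smul]

theorem trace_ev [Fintype K] {n : ℕ} (ρ : K →* Matrix (Fin n) (Fin n) F)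
    (T : Matrix (Fin n) (Fin n) F) (a : K → F) :
    (T * ev ρ a).trace = ∑ t, a t * (T * ρ t).trace := by
  rw [ev_eq, Finset.mul_sum, Matrix.trace_sum]
  apply Finset.sum_congr rfl
  intro t _
  rw [Matrix.mul_smul, Matrix.trace_smul, smul_eq_mul]

theorem ev_single [Fintype K] [DecidableEq K] {n : ℕ} (ρ : K →* Matrix (Fin n) (Fin n) F)
    (k : K) : ev ρ (Pi.single k 1) = ρ k := by
  rw [ev_eq, Finset.sum_eq_single k]
  · simp
  · intro t _ ht
    rw [Pi.single_eq_of_ne ht, zero_smul]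
  · intro h
    exact absurd (Finset.mem_univ _) h

theorem ev_sub [Finite K] {n : ℕ} (ρ : K →* Matrix (Fin n) (Fin n) F) (a b : K → F) :
    ev ρ (a - b) = ev ρ a - ev ρ b := by
  have := Fintype.ofFinite K
  rw [ev_eq, ev_eq, ev_eq, ← Finset.sum_sub_distrib]
  apply Finset.sum_congr rfl
  intro t _
  rw [Pi.sub_apply, sub_smul]

theorem ev_smul [Finite K] {n : ℕ} (ρ : K →* Matrix (Fin n) (Fin n) F) (c : F) (a : K → F) :
    ev ρ (c • a) = c • ev ρ a := by
  have := Fintype.ofFinite K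
  rw [ev_eq, ev_eq, Finset.smul_sum]
  apply Finset.sum_congr rfl
  intro t _
  rw [Pi.smul_apply, smul_eq_mul, mul_smul]

theorem ev_sum [Finite K] {n : ℕ} (ρ : K →* Matrix (Fin n) (Fin n) F) {ι : Type*} (s : Finset ι)
    (a : ι → K → F) : ev ρ (∑ i ∈ s, a i) = ∑ i ∈ s, ev ρ (a i) := by
  have := Fintype.ofFinite K
  simp only [ev_eq]
  rw [Finset.sum_comm]
  apply Finset.sum_congr rfl
  intro t _
  rw [Finset.sum_apply, Finset.sum_smul]

/-- the ideal of elements acting as zero in all irreducible representations -/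
def Nil (F K : Type) [Field F] [Group K] (b : K → F) : Prop :=
  ∀ (n : ℕ) (ρ : K →* Matrix (Fin n) (Fin n) F), IsIrr ρ → ev ρ b = 0

theorem nil_of_repOf (hC : IbcStmt) {ℓ : ℕ} (hF : GoodF ℓ F) [Finite K] {b : K → F}
    (h : ∀ φ : IBr F K, ev (repOf φ) b = 0) : Nil F K b := by
  intro n ρ hρ
  have := Fintype.ofFinite K
  let φ : IBr F K := ⟨tr ρ, n, ρ, hρ, rfl⟩
  obtain ⟨X, Y, hn, h1, h2, h3⟩ := hC ℓ F hF K n _ ρ (repOf φ) hρ (repOf_irr φ) (repOf_tr φ).symm
  have h4 : X * ev ρ b = ev (repOf φ) b * X := by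
    rw [ev_eq, ev_eq, Matrix.mul_sum, Matrix.sum_mul]
    apply Finset.sum_congr rfl
    intro t _
    rw [Matrix.mul_smul, h3, Matrix.smul_mul]
  have h5 : ev ρ b = Y * (X * ev ρ b) := by
    rw [← Matrix.mul_assoc, h2, Matrix.one_mul]
  rw [h5, h4, h φ, Matrix.zero_mul, Matrix.mul_zero]

theorem Nil.mul_left [Finite K] {b : K → F} (hb : Nil F K b) (a : K → F) : Nil F K (mulF a b) := by
  intro n ρ hρ
  rw [ev_mulF, hb n ρ hρ, mul_zero]

theorem Nil.isNilpotent (hN : IbnStmt) {ℓ : ℕ} (hF : GoodF ℓ F) [Finite K] {b : K → F}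
    (hb : Nil F K b) {n : ℕ} (R : K →* Matrix (Fin n) (Fin n) F) : IsNilpotent (ev R b) := by
  obtain ⟨k, hk⟩ := hN ℓ F hF K b hb
  have h1 : ∀ k : ℕ, ev R ((mulF b)^[k] b) = ev R b ^ (k + 1) := by
    intro k
    induction k with
    | zero => simp
    | succ k ih =>
      rw [Function.iterate_succ_apply', ev_mulF, ih, pow_succ' (ev R b) (k + 1)]
  refine ⟨k + 1, ?_⟩
  rw [← h1, hk, ev]
  simp

/-- linear independence of the matrix coefficients -/
theorem coef_indep (hJ : IbjStmt) {ℓ : ℕ} (hF : GoodF ℓ F) [Finite K] [Fintype (IBr F K)]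
    (T : ∀ φ : IBr F K, Matrix (Fin (dimOf φ)) (Fin (dimOf φ)) F)
    (h : ∀ k : K, ∑ φ : IBr F K, (T φ * repOf φ k).trace = 0) (φ : IBr F K) : T φ = 0 := by
  classical
  have := Fintype.ofFinite K
  have hinj : Function.Injective (fun φ : IBr F K => tr (repOf φ)) := by
    intro φ ψ h
    simp only [repOf_tr] at h
    exact Subtype.ext h
  have key : ∀ B : Matrix (Fin (dimOf φ)) (Fin (dimOf φ)) F, (T φ * B).trace = 0 := by
    intro B
    obtain ⟨a, ha⟩ := hJ ℓ F hF K (IBr F K) _ (fun φ => repOf φ) (fun φ => repOf_irr φ) hinj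
      (Pi.single φ B)
    have h1 : ∑ k, a k * ∑ ψ : IBr F K, (T ψ * repOf ψ k).trace = 0 := by
      apply Finset.sum_eq_zero
      intro k _
      rw [h, mul_zero]
    simp only [Finset.mul_sum] at h1
    rw [Finset.sum_comm] at h1
    simp only [← trace_ev, ha] at h1
    rw [Finset.sum_eq_single φ] at h1
    · rwa [Pi.single_eq_same] at h1
    · intro ψ _ hψ
      rw [Pi.single_eq_of_ne hψ, Matrix.mul_zero, Matrix.trace_zero]
    · intro h2
      exact absurd (Finset.mem_univ _) h2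
  ext i j
  have h2 := key (Matrix.single j i 1)
  rw [Matrix.trace_mul_single] at h2
  simpa using h2

/-- a functional vanishing on the ideal is a sum of matrix coefficients -/
theorem coef_span (hJ : IbjStmt) {ℓ : ℕ} (hF : GoodF ℓ F) [Fintype K] [Fintype (IBr F K)]
    (g : K → F) (hg : ∀ b : K → F, (∀ φ : IBr F K, ev (repOf φ) b = 0) → ∑ k, b k * g k = 0) :
    ∃ T : ∀ φ : IBr F K, Matrix (Fin (dimOf φ)) (Fin (dimOf φ)) F,
      ∀ k, g k = ∑ φ : IBr F K, (T φ * repOf φ k).trace := by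
  classical
  have hinj : Function.Injective (fun φ : IBr F K => tr (repOf φ)) := by
    intro φ ψ h
    simp only [repOf_tr] at h
    exact Subtype.ext h
  have h1 : ∀ (φ : IBr F K) (i j : Fin (dimOf φ)), ∃ a : K → F, ev (repOf φ) a = Matrix.single i j 1 ∧
      ∀ ψ, ψ ≠ φ → ev (repOf ψ) a = 0 := by
    intro φ i j
    obtain ⟨a, ha⟩ := hJ ℓ F hF K (IBr F K) _ (fun φ => repOf φ) (fun φ => repOf_irr φ) hinj
      (Pi.single φ (Matrix.single i j 1))
    refine ⟨a, ?_, ?_⟩
    · rw [ha, Pi.single_eq_same]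
    · intro ψ hψ
      rw [ha, Pi.single_eq_of_ne hψ]
  choose a ha ha' using h1
  refine ⟨fun φ => Matrix.of (fun j i => ∑ k, a φ i j k * g k), ?_⟩
  intro k
  have h2 := hg (Pi.single k 1 - ∑ φ : IBr F K, ∑ i, ∑ j, repOf φ k i j • a φ i j) (by
    intro ψ
    rw [ev_sub, ev_single, ev_sum, Finset.sum_eq_single ψ]
    · simp only [ev_sum, ev_smul, ha]
      rw [sub_eq_zero]
      conv_lhs => rw [Matrix.matrix_eq_sum_single (repOf ψ k)]
      apply Finset.sum_congr rfl
      intro i _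
      apply Finset.sum_congr rfl
      intro j _
      rw [Matrix.smul_single, smul_eq_mul, mul_one]
    · intro φ _ hφ
      simp only [ev_sum, ev_smul]
      apply Finset.sum_eq_zero
      intro i _
      apply Finset.sum_eq_zero
      intro j _
      rw [ha' φ i j ψ hφ.symm, smul_zero]
    · intro h3
      exact absurd (Finset.mem_univ _) h3)
  simp only [Pi.sub_apply, sub_mul, Finset.sum_sub_distrib, Finset.sum_apply, Pi.smul_apply,
    smul_eq_mul] at h2
  have h3 : ∑ x, (Pi.single k 1 : K → F) x * g x = g k := by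
    rw [Finset.sum_eq_single k]
    · simp
    · intro x _ hx
      rw [Pi.single_eq_of_ne hx, zero_mul]
    · intro h4
      exact absurd (Finset.mem_univ _) h4
  rw [h3, sub_eq_zero] at h2
  rw [h2]
  simp only [Finset.sum_mul]
  rw [Finset.sum_comm]
  apply Finset.sum_congr rfl
  intro φ _
  rw [Finset.sum_comm]
  have h5 : ∀ i : Fin (dimOf φ), ∑ x, ∑ j, repOf φ k i j * a φ i j x * g x =
      ∑ j, repOf φ k i j * ∑ x, a φ i j x * g x := by
    intro i
    rw [Finset.sum_comm]
    apply Finset.sum_congr rfl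
    intro j _
    rw [Finset.mul_sum]
    apply Finset.sum_congr rfl
    intro x _
    ring
  simp only [h5]
  rw [Matrix.trace]
  simp only [Matrix.diag_apply, Matrix.mul_apply, Matrix.of_apply]
  rw [Finset.sum_comm]
  apply Finset.sum_congr rfl
  intro j _
  apply Finset.sum_congr rfl
  intro i _
  ring

end chosen

variable {F : Type} [Field F] {H : Type} [Group H] {L : Subgroup H} [L.Normal]

/-- intertwiners are zero or invertible -/
theorem inter_unit {n : ℕ} {ρ : L →* Matrix (Fin n) (Fin n) F} (hρ : IsIrr ρ) {x : H}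
    {T : Matrix (Fin n) (Fin n) F} (hT : ∀ g : L, T * ρ g = ρ (MulAut.conjNormal x g) * T) :
    T = 0 ∨ Imp ρ x T := by
  by_cases hu : IsUnit T
  · exact Or.inr ⟨hu, hT⟩
  · left
    have hdet : T.det = 0 := by
      by_contra hne
      exact hu ((Matrix.isUnit_iff_isUnit_det T).2 (isUnit_iff_ne_zero.2 hne))
    obtain ⟨v, hv, hTv⟩ := Matrix.exists_mulVec_eq_zero_iff.2 hdet
    have h1 : ∀ A : Matrix (Fin n) (Fin n) F, T.mulVec (A.mulVec v) = 0 := by
      intro A
      have hA : A ∈ Submodule.span F (Set.range ρ) := by rw [hρ.2]; trivial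
      induction hA using Submodule.span_induction with
      | mem x hx =>
        obtain ⟨g, rfl⟩ := hx
        rw [Matrix.mulVec_mulVec, hT, ← Matrix.mulVec_mulVec, hTv, Matrix.mulVec_zero]
      | zero => simp
      | add x y _ _ hx hy => rw [Matrix.add_mulVec, Matrix.mulVec_add, hx, hy, add_zero]
      | smul a x _ hx => rw [Matrix.smul_mulVec, Matrix.mulVec_smul, hx, smul_zero]
    obtain ⟨i, hi⟩ : ∃ i, v i ≠ 0 := by
      by_contra hcon
      push Not at hcon
      exact hv (funext hcon)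
    have h2 : ∀ j, T.mulVec (Pi.single j 1) = 0 := by
      intro j
      have h3 := h1 ((v i)⁻¹ • Matrix.single j i 1)
      have h4 : ((v i)⁻¹ • Matrix.single j i (1 : F)).mulVec v = Pi.single j 1 := by
        rw [Matrix.smul_mulVec, Matrix.single_mulVec]
        ext k
        simp only [Pi.smul_apply, smul_eq_mul, one_mul]
        by_cases hk : k = j
        · subst hk
          simp [hi]
        · simp [hk]
      rwa [h4] at h3
    ext k j
    have h5 := congrFun (h2 j) k
    rw [Matrix.mulVec_single_one] at h5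
    simpa using h5

/-- Elements of the ideal of `L` times an element of `H` have trace zero. -/
theorem nil_trace (hN : IbnStmt) {ℓ : ℕ} (hF : GoodF ℓ F) [Finite H] {N : ℕ}
    (R : H →* Matrix (Fin N) (Fin N) F) (x : H) {b : L → F} (hb : Nil F L b) :
    (R x * ev (R.comp L.subtype) b).trace = 0 := by
  have := Fintype.ofFinite L
  set E : (L → F) → Matrix (Fin N) (Fin N) F := ev (R.comp L.subtype) with hE
  -- conjugation
  have hconj : ∀ (y : H) (b : L → F), Nil F L b →
      ∃ b' : L → F, Nil F L b' ∧ E b * R y = R y * E b' := by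
    intro y b hb
    refine ⟨fun t => b (MulAut.conjNormal y t), ?_, ?_⟩
    · intro n ρ hρ
      have h1 := hb n (crep ρ y) (crep_irr hρ)
      rw [ev_eq] at h1 ⊢
      rw [← Equiv.sum_comp (MulAut.conjNormal y : MulAut L).toEquiv] at h1
      rw [← h1]
      apply Finset.sum_congr rfl
      intro t _
      have : crep ρ y ((MulAut.conjNormal y : MulAut L).toEquiv t) = ρ t := by
        rw [crep_apply]
        congr 1
        ext
        simp [mul_assoc]
      rw [this]
      rfl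
    · rw [hE, ev_eq, ev_eq, Finset.sum_mul, Finset.mul_sum]
      rw [← Equiv.sum_comp (MulAut.conjNormal y : MulAut L).toEquiv]
      apply Finset.sum_congr rfl
      intro t _
      rw [Matrix.smul_mul, Matrix.mul_smul]
      have h2 : (R.comp L.subtype) ((MulAut.conjNormal y : MulAut L).toEquiv t) * R y =
          R y * (R.comp L.subtype) t := by
        simp only [MonoidHom.comp_apply, Subgroup.coe_subtype]
        rw [← map_mul, ← map_mul]
        congr 1
        have : (((MulAut.conjNormal y : MulAut L).toEquiv t : L) : H) = y * t * y⁻¹ := rfl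
        rw [this]
        group
      rw [h2]
      rfl
  have hmulE : ∀ a b : L → F, E (mulF a b) = E a * E b := fun a b => ev_mulF _ a b
  have hpow : ∀ k : ℕ, ∃ b' : L → F, Nil F L b' ∧ (R x * E b) ^ (k + 1) = R (x ^ (k + 1)) * E b' := by
    intro k
    induction k with
    | zero => exact ⟨b, hb, by simp⟩
    | succ k ih =>
      obtain ⟨b', hb', he⟩ := ih
      obtain ⟨b'', hb'', he2⟩ := hconj x b' hb'
      refine ⟨mulF b'' b, hb.mul_left _, ?_⟩
      rw [pow_succ, he, hmulE, ← mul_assoc, mul_assoc (R (x ^ (k + 1))), he2, pow_succ x (k + 1),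
        map_mul]
      simp only [mul_assoc]
  have hcard : 0 < Nat.card H := Nat.card_pos
  obtain ⟨b', hb', he⟩ := hpow (Nat.card H - 1)
  rw [Nat.sub_add_cancel hcard, pow_card_eq_one', map_one, one_mul] at he
  obtain ⟨k, hk⟩ := hb'.isNilpotent hN hF (R.comp L.subtype)
  have hnil : IsNilpotent (R x * E b) := by
    refine ⟨Nat.card H * k, ?_⟩
    rw [pow_mul, he]
    exact hk
  exact (Matrix.isNilpotent_trace_of_isNilpotent hnil).eq_zero

/-- The restriction of an irreducible modular character of `H` to the coset `x L`. -/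
theorem decomp (hC : IbcStmt) (hJ : IbjStmt) (hN : IbnStmt) {ℓ : ℕ} (hF : GoodF ℓ F) [Finite H]
    [Fintype (IBr F L)] {N : ℕ} (R : H →* Matrix (Fin N) (Fin N) F) (x : H) :
    ∃ T : ∀ φ : IBr F L, Matrix (Fin (dimOf φ)) (Fin (dimOf φ)) F,
      (∀ φ, T φ = 0 ∨ Imp (repOf φ) x (T φ)) ∧
      ∀ l : L, (R (x * l)).trace = ∑ φ : IBr F L, (T φ * repOf φ l).trace := by
  have := Fintype.ofFinite L
  obtain ⟨T, hT⟩ := coef_span hJ hF (fun l : L => (R (x * l)).trace) (by
    intro b hb
    have h1 := nil_trace hN hF R x (nil_of_repOf hC hF hb)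
    rw [trace_ev] at h1
    rw [← h1]
    apply Finset.sum_congr rfl
    intro t _
    rw [map_mul]
    rfl)
  refine ⟨T, ?_, hT⟩
  have key : ∀ (l' : L) (φ : IBr F L), repOf φ l' * T φ - T φ * repOf φ (MulAut.conjNormal x⁻¹ l') = 0 := by
    intro l'
    apply coef_indep hJ hF (fun φ => repOf φ l' * T φ - T φ * repOf φ (MulAut.conjNormal x⁻¹ l'))
    intro l
    have h1 := hT (l * l')
    have h2 := hT (MulAut.conjNormal x⁻¹ l' * l)
    have h3 : (R (x * ((l * l' : L) : H))).trace =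
        (R (x * ((MulAut.conjNormal x⁻¹ l' * l : L) : H))).trace := by
      have e1 : R (x * ((l * l' : L) : H)) = R (x * l) * R l' := by
        rw [← map_mul]
        congr 1
        simp [mul_assoc]
      have e2 : R (x * ((MulAut.conjNormal x⁻¹ l' * l : L) : H)) = R l' * R (x * l) := by
        rw [← map_mul]
        congr 1
        simp [mul_assoc]
      rw [e1, e2, Matrix.trace_mul_comm]
    have h1' : (R (x * ((l * l' : L) : H))).trace = ∑ φ : IBr F L, (T φ * repOf φ (l * l')).trace :=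
      h1
    have h2' : (R (x * ((MulAut.conjNormal x⁻¹ l' * l : L) : H))).trace =
        ∑ φ : IBr F L, (T φ * repOf φ (MulAut.conjNormal x⁻¹ l' * l)).trace := h2
    rw [h1', h2'] at h3
    have h4 : ∀ φ : IBr F L, ((repOf φ l' * T φ - T φ * repOf φ (MulAut.conjNormal x⁻¹ l')) *
        repOf φ l).trace = (T φ * repOf φ (l * l')).trace -
          (T φ * repOf φ (MulAut.conjNormal x⁻¹ l' * l)).trace := by
      intro φ
      rw [sub_mul, Matrix.trace_sub, map_mul, map_mul]
      congr 1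
      · rw [mul_assoc, Matrix.trace_mul_comm, mul_assoc]
      · rw [mul_assoc]
    simp only [h4]
    rw [Finset.sum_sub_distrib, h3, sub_self]
  intro φ
  apply inter_unit (repOf_irr φ)
  intro g
  have h5 := key (MulAut.conjNormal x g) φ
  rw [sub_eq_zero] at h5
  rw [h5]
  congr 2
  ext
  simp [mul_assoc]

end Pool.Agent.Helper58_CL
end
end -- Pool.Agent.Helper58_CL.Coef

section -- Pool.Agent.Helper58_CL.Mono

/-!
Invariants of a monomial representation: a finite group acts on a space of functions on a finite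
set `I` through a permutation action twisted by scalars. The dimension of the space of invariants
is computed by a sum of lifted scalars over the fixed points.
-/

open scoped BigOperators

noncomputable section

namespace Pool.Agent.Helper58_CL

variable {F : Type*} [Field F] {Q : Type*} [Group Q] {I : Type*} [MulAction Q I]

/-- cocycle condition for the scalars of a monomial representation -/
def IsCoc (u : Q → I → F) : Prop :=
  (∀ i, u 1 i = 1) ∧ ∀ y z i, u (y * z) i = u y (z • i) * u z i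

theorem IsCoc.ne_zero {u : Q → I → F} (h : IsCoc u) (y : Q) (i : I) : u y i ≠ 0 := by
  intro h0
  have h1 := h.2 y⁻¹ y i
  rw [inv_mul_cancel, h.1, h0, mul_zero] at h1
  exact one_ne_zero h1

/-- the coefficient functions of invariant vectors -/
def monoInv (u : Q → I → F) : Submodule F (I → F) where
  carrier := {c | ∀ y i, c (y • i) = u y i * c i}
  add_mem' := by
    intro a b ha hb y i
    simp only [Pi.add_apply, ha y i, hb y i, mul_add]
  zero_mem' := by
    intro y i
    simp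
  smul_mem' := by
    intro r a ha y i
    simp only [Pi.smul_apply, ha y i, smul_eq_mul]
    ring

/-- good points: the stabiliser acts trivially on the line -/
def Good (u : Q → I → F) (i : I) : Prop := ∀ y : Q, y • i = i → u y i = 1

theorem good_smul {u : Q → I → F} (h : IsCoc u) {i : I} (hi : Good u i) (z : Q) :
    Good u (z • i) := by
  intro y hy
  have h1 : (z⁻¹ * y * z) • i = i := by
    rw [mul_smul, mul_smul, hy, inv_smul_smul]
  have h2 := hi _ h1
  rw [mul_assoc, h.2, h.2] at h2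
  have h3 : u z⁻¹ (z • i) * u z i = 1 := by
    rw [← h.2, inv_mul_cancel, h.1]
  rw [mul_smul, hy] at h2
  have h4 : u z⁻¹ (z • i) ≠ 0 := h.ne_zero _ _
  have h5 : u z i ≠ 0 := h.ne_zero _ _
  have h6 : u z⁻¹ (z • i) * (u y (z • i) * u z i) = u z⁻¹ (z • i) * (1 * u z i) := by
    rw [h2, one_mul, h3]
  have h7 := mul_left_cancel₀ h4 h6
  exact mul_right_cancel₀ h5 h7

theorem monoInv_bad {u : Q → I → F} {c : I → F} (hc : c ∈ monoInv u) {i : I}
    (hi : ¬ Good u i) : c i = 0 := by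
  simp only [Good, not_forall] at hi
  obtain ⟨y, hy, hne⟩ := hi
  have h1 := hc y i
  rw [hy] at h1
  have h2 : (1 - u y i) * c i = 0 := by
    rw [sub_mul, one_mul, ← h1, sub_self]
  rcases mul_eq_zero.1 h2 with h3 | h3
  · exact absurd (sub_eq_zero.1 h3).symm hne
  · exact h3

/-- good orbits -/
def GoodOrb (u : Q → I → F) : Type _ :=
  {ω : MulAction.orbitRel.Quotient Q I // ∀ i : I, (Quotient.mk _ i : MulAction.orbitRel.Quotient Q I) = ω → Good u i}

theorem mk_smul (y : Q) (i : I) :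
    (Quotient.mk (MulAction.orbitRel Q I) (y • i)) = Quotient.mk (MulAction.orbitRel Q I) i :=
  Quotient.sound ⟨y, rfl⟩

theorem exists_smul_out (i : I) :
    ∃ y : Q, y • (Quotient.mk (MulAction.orbitRel Q I) i).out = i := by
  have h : MulAction.orbitRel Q I i (Quotient.mk (MulAction.orbitRel Q I) i).out :=
    Quotient.exact (Quotient.out_eq _).symm
  obtain ⟨y, hy⟩ := h
  exact ⟨y, hy⟩

/-- a choice of an element moving the representative to the point -/
def mv (Q : Type*) [Group Q] {I : Type*} [MulAction Q I] (i : I) : Q :=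
  (exists_smul_out (Q := Q) i).choose

theorem mv_spec (i : I) : mv Q i • (Quotient.mk (MulAction.orbitRel Q I) i).out = i :=
  (exists_smul_out (Q := Q) i).choose_spec

theorem coc_eq_of_good {u : Q → I → F} (h : IsCoc u) {i : I} (hi : Good u i) {y z : Q}
    (hyz : y • i = z • i) : u y i = u z i := by
  have h1 : (z⁻¹ * y) • i = i := by rw [mul_smul, hyz, inv_smul_smul]
  have h2 := hi _ h1
  have h3 : u y i = u (z * (z⁻¹ * y)) i := by rw [mul_inv_cancel_left]
  rw [h3, h.2, h2, mul_one, h1]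

/-- the invariants are the functions on the good orbits -/
def monoEquiv {u : Q → I → F} (h : IsCoc u) : monoInv u ≃ₗ[F] (GoodOrb u → F) where
  toFun c := fun ω => c.1 ω.1.out
  map_add' a b := rfl
  map_smul' r a := rfl
  invFun d := ⟨fun i => by
      classical
      exact if hi : Good u i then
        u (mv Q i) (Quotient.mk (MulAction.orbitRel Q I) i).out *
          d ⟨Quotient.mk _ i, fun j hj => by
            obtain ⟨y, hy⟩ := Quotient.exact hj.symm
            have hy' : y • j = i := hy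
            have : j = y⁻¹ • i := by rw [← hy', inv_smul_smul]
            rw [this]
            exact good_smul h hi _⟩ else 0, by
    intro y i
    classical
    by_cases hi : Good u i
    · have hyi : Good u (y • i) := good_smul h hi y
      have he := mk_smul y i
      have hr : Good u (Quotient.mk (MulAction.orbitRel Q I) i).out := by
        have h1 : (Quotient.mk (MulAction.orbitRel Q I) i).out = (mv Q i)⁻¹ • i := by
          rw [eq_inv_smul_iff, mv_spec]
        rw [h1]
        exact good_smul h hi _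
      simp only [dif_pos hi, dif_pos hyi]
      have key : u (mv Q (y • i)) (Quotient.mk (MulAction.orbitRel Q I) (y • i)).out =
          u y i * u (mv Q i) (Quotient.mk (MulAction.orbitRel Q I) i).out := by
        have h1 := mv_spec (Q := Q) (y • i)
        have h2 := mv_spec (Q := Q) i
        rw [he] at h1 ⊢
        have h3 : u y i = u y (mv Q i • (Quotient.mk (MulAction.orbitRel Q I) i).out) := by
          rw [h2]
        rw [h3, ← h.2]
        apply coc_eq_of_good h hr
        rw [h1, mul_smul, h2]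
      rw [key, mul_assoc]
      congr 3
      exact Subtype.ext he
    · have hyi : ¬ Good u (y • i) := by
        intro hg
        apply hi
        have := good_smul h hg y⁻¹
        rwa [inv_smul_smul] at this
      simp only [dif_neg hi, dif_neg hyi, mul_zero]⟩
  left_inv := by
    intro c
    apply Subtype.ext
    funext i
    classical
    by_cases hi : Good u i
    · simp only [dif_pos hi]
      have h1 := c.2 (mv Q i) (Quotient.mk (MulAction.orbitRel Q I) i).out
      rw [mv_spec] at h1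
      exact h1.symm
    · simp only [dif_neg hi]
      exact (monoInv_bad c.2 hi).symm
  right_inv := by
    intro d
    funext ω
    classical
    have ho : Quotient.mk (MulAction.orbitRel Q I) ω.1.out = ω.1 := Quotient.out_eq _
    have hg : Good u ω.1.out := ω.2 _ ho
    simp only [dif_pos hg]
    have h1 := mv_spec (Q := Q) ω.1.out
    have h2 : u (mv Q ω.1.out) (Quotient.mk (MulAction.orbitRel Q I) ω.1.out).out = 1 := by
      have h3 : (Quotient.mk (MulAction.orbitRel Q I) ω.1.out).out = ω.1.out := by rw [ho]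
      rw [h3]
      apply hg
      rw [h3] at h1
      exact h1
    rw [h2, one_mul]
    congr 1
    exact Subtype.ext ho

theorem good_out_iff {u : Q → I → F} (h : IsCoc u) (ω : MulAction.orbitRel.Quotient Q I) :
    (∀ i : I, (Quotient.mk _ i : MulAction.orbitRel.Quotient Q I) = ω → Good u i) ↔
      Good u ω.out := by
  constructor
  · intro hg
    exact hg _ (Quotient.out_eq _)
  · intro hg i hi
    have h1 : Quotient.mk (MulAction.orbitRel Q I) i = Quotient.mk _ ω.out := by
      rw [hi]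
      exact (Quotient.out_eq _).symm
    obtain ⟨y, hy⟩ := Quotient.exact h1
    have hy' : y • ω.out = i := hy
    rw [← hy']
    exact good_smul h hg y

theorem finrank_monoInv [Finite I] {u : Q → I → F} (h : IsCoc u) :
    Module.finrank F (monoInv u) = Nat.card (GoodOrb u) := by
  have : Finite (GoodOrb u) := by unfold GoodOrb; infer_instance
  have := Fintype.ofFinite (GoodOrb u)
  rw [(monoEquiv h).finrank_eq, Module.finrank_fintype_fun_eq_card, Nat.card_eq_fintype_card]

/-- the sum of the lifted scalars over a stabiliser -/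
theorem sum_stab [Finite Q] {u : Q → I → F} (h : IsCoc u) (τ : F → ℂ)
    (τ1 : τ 1 = 1) (τmul : ∀ a b, a ≠ 0 → b ≠ 0 → τ (a * b) = τ a * τ b)
    (τinj : ∀ a, a ≠ 0 → τ a = 1 → a = 1) (i : I) :
    ∑ᶠ (y : Q) (_ : y • i = i), τ (u y i) =
      (Nat.card (MulAction.stabilizer Q i) : ℂ) * (open Classical in if Good u i then 1 else 0) := by
  classical
  have := Fintype.ofFinite Q
  have hsum : ∑ᶠ (y : Q) (_ : y • i = i), τ (u y i) =
      ∑ y : MulAction.stabilizer Q i, τ (u (y : Q) i) := by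
    rw [finsum_eq_sum_of_fintype]
    have h1 : ∀ y : Q, (∑ᶠ (_ : y • i = i), τ (u y i)) =
        if y • i = i then τ (u y i) else 0 := by
      intro y
      split_ifs with hy
      · simp [hy]
      · simp [hy]
    simp only [h1]
    rw [← Finset.sum_filter]
    refine Finset.sum_subtype (Finset.univ.filter fun y : Q => y • i = i) ?_ (fun y => τ (u y i))
    intro y
    simp [MulAction.mem_stabilizer_iff]
  rw [hsum]
  split_ifs with hg
  · rw [mul_one, Finset.sum_congr rfl (g := fun _ => (1 : ℂ))]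
    · simp [Nat.card_eq_fintype_card]
    · intro y _
      rw [hg _ y.2, τ1]
  · simp only [Good, not_forall] at hg
    obtain ⟨z, hz, hne⟩ := hg
    rw [mul_zero]
    have hz0 : u z i ≠ 0 := h.ne_zero _ _
    have h2 : τ (u z i) * ∑ y : MulAction.stabilizer Q i, τ (u (y : Q) i) =
        ∑ y : MulAction.stabilizer Q i, τ (u (y : Q) i) := by
      rw [Finset.mul_sum]
      let zz : MulAction.stabilizer Q i := ⟨z, hz⟩
      rw [← Equiv.sum_comp (Equiv.mulLeft zz) (fun y : MulAction.stabilizer Q i => τ (u (y : Q) i))]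
      apply Finset.sum_congr rfl
      intro y _
      have hy : (y : Q) • i = i := y.2
      have : u (((Equiv.mulLeft zz) y : MulAction.stabilizer Q i) : Q) i = u z i * u (y : Q) i := by
        show u (z * (y : Q)) i = _
        rw [h.2, hy]
      rw [this, τmul _ _ hz0 (h.ne_zero _ _)]
    have h3 : (τ (u z i) - 1) * ∑ y : MulAction.stabilizer Q i, τ (u (y : Q) i) = 0 := by
      rw [sub_mul, h2, one_mul, sub_self]
    rcases mul_eq_zero.1 h3 with h4 | h4
    · exact absurd (τinj _ hz0 (sub_eq_zero.1 h4)) hne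
    · exact h4

/-- The number of good orbits as a sum over all fixed points. -/
theorem card_mul_goodOrb [Finite Q] [Finite I] {u : Q → I → F} (h : IsCoc u) (τ : F → ℂ)
    (τ1 : τ 1 = 1) (τmul : ∀ a b, a ≠ 0 → b ≠ 0 → τ (a * b) = τ a * τ b)
    (τinj : ∀ a, a ≠ 0 → τ a = 1 → a = 1) :
    (Nat.card Q : ℂ) * Nat.card (GoodOrb u) =
      ∑ᶠ (y : Q) (i : I) (_ : y • i = i), τ (u y i) := by
  classical
  have := Fintype.ofFinite Q
  have := Fintype.ofFinite I
  have hsw : ∑ᶠ (y : Q) (i : I) (_ : y • i = i), τ (u y i) =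
      ∑ i : I, ∑ᶠ (y : Q) (_ : y • i = i), τ (u y i) := by
    rw [finsum_eq_sum_of_fintype]
    simp only [finsum_eq_sum_of_fintype]
    exact Finset.sum_comm
  rw [hsw]
  have h1 : ∀ i : I, ∑ᶠ (y : Q) (_ : y • i = i), τ (u y i) =
      (Nat.card (MulAction.stabilizer Q i) : ℂ) * (if Good u i then 1 else 0) := fun i =>
    sum_stab h τ τ1 τmul τinj i
  simp only [h1]
  have : Fintype (MulAction.orbitRel.Quotient Q I) := Fintype.ofFinite _
  have h2 : ∑ i : I, (Nat.card (MulAction.stabilizer Q i) : ℂ) * (if Good u i then 1 else 0) =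
      ∑ ω : MulAction.orbitRel.Quotient Q I,
        ∑ i ∈ Finset.univ.filter (fun i : I => (Quotient.mk _ i :
          MulAction.orbitRel.Quotient Q I) = ω),
          (Nat.card (MulAction.stabilizer Q i) : ℂ) * (if Good u i then 1 else 0) := by
    rw [Finset.sum_fiberwise]
  rw [h2]
  have h3 : ∀ ω : MulAction.orbitRel.Quotient Q I,
      ∑ i ∈ Finset.univ.filter (fun i : I => (Quotient.mk _ i :
          MulAction.orbitRel.Quotient Q I) = ω),
          (Nat.card (MulAction.stabilizer Q i) : ℂ) * (if Good u i then 1 else 0) =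
        (Nat.card Q : ℂ) * (if Good u ω.out then 1 else 0) := by
    intro ω
    have h4 : ∀ i ∈ Finset.univ.filter (fun i : I => (Quotient.mk _ i :
          MulAction.orbitRel.Quotient Q I) = ω),
        (Nat.card (MulAction.stabilizer Q i) : ℂ) * (if Good u i then 1 else 0) =
        (Nat.card (MulAction.stabilizer Q ω.out) : ℂ) * (if Good u ω.out then 1 else 0) := by
      intro i hi
      simp only [Finset.mem_filter, Finset.mem_univ, true_and] at hi
      have h5 : Quotient.mk (MulAction.orbitRel Q I) i = Quotient.mk _ ω.out := by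
        rw [hi]
        exact (Quotient.out_eq _).symm
      obtain ⟨y, hy⟩ := Quotient.exact h5
      have hy' : y • ω.out = i := hy
      have hgi : Good u i ↔ Good u ω.out := by
        constructor
        · intro hg
          have := good_smul h hg y⁻¹
          rwa [← hy', inv_smul_smul] at this
        · intro hg
          rw [← hy']
          exact good_smul h hg y
      have hcard : Nat.card (MulAction.stabilizer Q i) =
          Nat.card (MulAction.stabilizer Q ω.out) := by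
        rw [← hy']
        exact Nat.card_congr
          (MulAction.stabilizerEquivStabilizer (g := y) (a := ω.out) (b := y • ω.out)
            rfl).symm.toEquiv
      simp only [hgi, hcard]
    rw [Finset.sum_congr rfl h4, Finset.sum_const, nsmul_eq_mul]
    have hcount : ((Finset.univ.filter (fun i : I => (Quotient.mk _ i :
          MulAction.orbitRel.Quotient Q I) = ω)).card : ℕ) *
        Nat.card (MulAction.stabilizer Q ω.out) = Nat.card Q := by
      have h6 : (Finset.univ.filter (fun i : I => (Quotient.mk _ i :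
          MulAction.orbitRel.Quotient Q I) = ω)).card = Nat.card (MulAction.orbit Q ω.out) := by
        rw [Nat.card_eq_fintype_card, ← Set.toFinset_card]
        congr 1
        ext i
        simp only [Finset.mem_filter, Finset.mem_univ, true_and, Set.mem_toFinset]
        constructor
        · intro hi
          have h5 : Quotient.mk (MulAction.orbitRel Q I) i = Quotient.mk _ ω.out := by
            rw [hi]
            exact (Quotient.out_eq _).symm
          exact Quotient.exact h5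
        · intro hi
          have h7 : Quotient.mk (MulAction.orbitRel Q I) i = Quotient.mk _ ω.out :=
            Quotient.sound hi
          rw [h7]
          exact Quotient.out_eq _
      rw [h6]
      have := MulAction.card_orbit_mul_card_stabilizer_eq_card_group Q ω.out
      rw [Nat.card_eq_fintype_card, Nat.card_eq_fintype_card, Nat.card_eq_fintype_card]
      exact this
    rw [← mul_assoc, ← Nat.cast_mul, hcount]
  rw [Finset.sum_congr rfl (fun ω _ => h3 ω), ← Finset.mul_sum]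
  congr 1
  have h8 : Nat.card (GoodOrb u) = (Finset.univ.filter
      (fun ω : MulAction.orbitRel.Quotient Q I => Good u ω.out)).card := by
    rw [← Fintype.card_subtype, ← Nat.card_eq_fintype_card]
    apply Nat.card_congr
    exact Equiv.subtypeEquivRight (fun ω => good_out_iff h ω)
  rw [h8, Finset.card_eq_sum_ones, Finset.sum_filter]
  push_cast
  apply Finset.sum_congr rfl
  intro ω _
  split_ifs <;> simp

/-- **Monomial representations**: dimension of the invariants as a sum over fixed points. -/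
theorem card_mul_finrank [Finite Q] [Finite I] {u : Q → I → F} (h : IsCoc u) (τ : F → ℂ)
    (τ1 : τ 1 = 1) (τmul : ∀ a b, a ≠ 0 → b ≠ 0 → τ (a * b) = τ a * τ b)
    (τinj : ∀ a, a ≠ 0 → τ a = 1 → a = 1) :
    (Nat.card Q : ℂ) * Module.finrank F (monoInv u) =
      ∑ᶠ (y : Q) (i : I) (_ : y • i = i), τ (u y i) := by
  rw [finrank_monoInv h]
  exact card_mul_goodOrb h τ τ1 τmul τinj

end Pool.Agent.Helper58_CL
end
end -- Pool.Agent.Helper58_CL.Mono

section -- Pool.Agent.Helper58_CL.Idx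

/-!
The index set of the twisted trace functions, with its monomial action of `H`.
-/

open scoped BigOperators

set_option linter.unusedSectionVars false

noncomputable section

namespace Pool.Agent.Helper58_CL

open Pool.Agent.PP

variable {F : Type} [Field F] {H : Type} [Group H] {L : Subgroup H} [L.Normal]

/-- implementers and twisted trace functions for representations with equal traces -/
theorem tw_change (hC : IbcStmt) {ℓ : ℕ} (hF : GoodF ℓ F) [Finite H] {n m : ℕ}
    {ρ : L →* Matrix (Fin n) (Fin n) F} {σ : L →* Matrix (Fin m) (Fin m) F} (hρ : IsIrr ρ)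
    (hσ : IsIrr σ) (h : tr ρ = tr σ) {x : H} {X : Matrix (Fin n) (Fin n) F} (hX : Imp ρ x X) :
    ∃ X' : Matrix (Fin m) (Fin m) F, Imp σ x X' ∧ ∀ g, tw σ x X' g = tw ρ x X g := by
  obtain ⟨P, P', hn, h1, h2, h3⟩ := hC ℓ F hF L n m ρ σ hρ hσ h
  subst hn
  let u : (Matrix (Fin n) (Fin n) F)ˣ := ⟨P, P', h1, h2⟩
  exact ⟨u * X * (u⁻¹).val, hX.conj u h3, fun g => tw_conj u h3 g⟩

/-- implementers exist for stable traces -/
theorem exists_imp (hC : IbcStmt) {ℓ : ℕ} (hF : GoodF ℓ F) [Finite H] {n : ℕ}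
    {ρ : L →* Matrix (Fin n) (Fin n) F} (hρ : IsIrr ρ) {x : H}
    (h : ∀ l, tr ρ (MulAut.conjNormal x l) = tr ρ l) : ∃ X, Imp ρ x X := by
  have h1 : crep ρ x⁻¹ = ρ.comp (MulAut.conjNormal x : MulAut L).toMonoidHom := by
    rw [crep, inv_inv]
  have h2 : tr ρ = tr (crep ρ x⁻¹) := by
    funext l
    rw [h1]
    exact (h l).symm
  obtain ⟨P, P', hn, h1', h2', h3⟩ := hC ℓ F hF L n n ρ (crep ρ x⁻¹) hρ (crep_irr hρ) h2
  let u : (Matrix (Fin n) (Fin n) F)ˣ := ⟨P, P', h1', h2'⟩
  refine ⟨P, u.isUnit, fun g => ?_⟩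
  rw [h3, h1]
  rfl

theorem Imp.trace_eq {n : ℕ} {ρ : L →* Matrix (Fin n) (Fin n) F} {x : H}
    {X : Matrix (Fin n) (Fin n) F} (hX : Imp ρ x X) (l : L) :
    tr ρ (MulAut.conjNormal x l) = tr ρ l := by
  obtain ⟨u, rfl⟩ := hX.unit
  have h1 : ρ (MulAut.conjNormal x l) = u * ρ l * (u⁻¹).val := by
    rw [hX.eq, mul_assoc, Units.mul_inv, mul_one]
  show (ρ (MulAut.conjNormal x l)).trace = (ρ l).trace
  rw [h1, Matrix.trace_mul_comm, ← mul_assoc, Units.inv_mul, one_mul]

/-- the conjugate of an irreducible modular character of `L` -/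
def cIBr (y : H) (φ : IBr F L) : IBr F L :=
  ⟨fun l => φ.1 (MulAut.conjNormal y⁻¹ l), dimOf φ, crep (repOf φ) y, crep_irr (repOf_irr φ), by
    funext l
    rw [← repOf_tr φ]
    rfl⟩

theorem cIBr_apply (y : H) (φ : IBr F L) (l : L) :
    (cIBr y φ).1 l = φ.1 (MulAut.conjNormal y⁻¹ l) := rfl

theorem cIBr_one (φ : IBr F L) : cIBr (1 : H) φ = φ := by
  apply Subtype.ext
  funext l
  rw [cIBr_apply]
  have h : MulAut.conjNormal (1 : H)⁻¹ l = l := by
    ext
    simp
  rw [h]

theorem cIBr_mul (y z : H) (φ : IBr F L) : cIBr (y * z) φ = cIBr y (cIBr z φ) := by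
  apply Subtype.ext
  funext l
  rw [cIBr_apply, cIBr_apply, cIBr_apply]
  have h : MulAut.conjNormal (y * z)⁻¹ l =
      MulAut.conjNormal z⁻¹ (MulAut.conjNormal y⁻¹ l) := by
    ext
    simp [mul_assoc]
  rw [h]

theorem tr_crep (y : H) (φ : IBr F L) : tr (crep (repOf φ) y) = tr (repOf (cIBr y φ)) := by
  rw [repOf_tr]
  funext l
  rw [cIBr_apply, ← repOf_tr φ]
  rfl

/-- stability of a character under a coset -/
def St (c : H ⧸ L) (φ : IBr F L) : Prop := ∃ X, Imp (repOf φ) c.out X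

theorem st_mk {x : H} {φ : IBr F L} : St (x : H ⧸ L) φ ↔ ∃ X, Imp (repOf φ) x X := by
  have h : (x : H ⧸ L).out⁻¹ * x ∈ L := by
    rw [← QuotientGroup.eq, QuotientGroup.out_eq']
  constructor
  · rintro ⟨X, hX⟩
    have h1 := hX.mul (Imp.coe (ρ := repOf φ) ⟨_, h⟩)
    rw [mul_inv_cancel_left] at h1
    exact ⟨_, h1⟩
  · rintro ⟨X, hX⟩
    have h1 := hX.mul (Imp.coe (ρ := repOf φ) (⟨_, h⟩ : L)⁻¹)
    have h2 : x * (((⟨(x : H ⧸ L).out⁻¹ * x, h⟩ : L)⁻¹ : L) : H) = (x : H ⧸ L).out := by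
      simp
    rw [h2] at h1
    exact ⟨_, h1⟩

/-- The index set: `ℓ`-regular cosets and stable characters on which `a` acts as the identity. -/
def Idx (ℓ : ℕ) (L : Subgroup H) [L.Normal] (a : H → F) : Type :=
  {p : (H ⧸ L) × IBr F L // Reg ℓ p.1 ∧ St p.1 p.2 ∧
    actF (fun t : L => a t) p.2.1 = p.2.1}

theorem reg_conj {ℓ : ℕ} {K : Type} [Group K] {x : K} (hx : Reg ℓ x) (y : K) :
    Reg ℓ (y * x * y⁻¹) := by
  unfold Reg at *
  have : orderOf (y * x * y⁻¹) = orderOf x := (MulAut.conj y).orderOf_eq x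
  rwa [this]

theorem actF_conj [Finite H] {a : H → F} (ha : IsCl a) (y : H) (φ : IBr F L)
    (h : actF (fun t : L => a t) φ.1 = φ.1) :
    actF (fun t : L => a t) (cIBr y φ).1 = (cIBr y φ).1 := by
  have := Fintype.ofFinite L
  funext x
  have h1 := congrFun h (MulAut.conjNormal y⁻¹ x)
  rw [cIBr_apply, ← h1]
  simp only [actF, finsum_eq_sum_of_fintype]
  rw [← Equiv.sum_comp (MulAut.conjNormal y : MulAut L).toEquiv]
  apply Finset.sum_congr rfl
  intro t _
  have e1 : a (((MulAut.conjNormal y : MulAut L).toEquiv t : L) : H) = a t := ha _ _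
  rw [e1, cIBr_apply]
  have e2 : MulAut.conjNormal y⁻¹ ((MulAut.conjNormal y : MulAut L).toEquiv t * x) =
      t * MulAut.conjNormal y⁻¹ x := by
    ext
    show y⁻¹ * ((y * t * y⁻¹) * x) * y⁻¹⁻¹ = _
    simp [mul_assoc]
  rw [e2]

theorem st_conj (hC : IbcStmt) {ℓ : ℕ} (hF : GoodF ℓ F) [Finite H] (y : H) {c : H ⧸ L}
    {φ : IBr F L} (h : St c φ) : St ((y : H ⧸ L) * c * (y : H ⧸ L)⁻¹) (cIBr y φ) := by
  obtain ⟨X, hX⟩ := h
  obtain ⟨X', hX', _⟩ := tw_change hC hF (crep_irr (repOf_irr φ)) (repOf_irr (cIBr y φ))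
    (tr_crep y φ) (hX.crep y)
  have h1 : ((y * c.out * y⁻¹ : H) : H ⧸ L) = (y : H ⧸ L) * c * (y : H ⧸ L)⁻¹ := by
    rw [QuotientGroup.mk_mul, QuotientGroup.mk_mul, QuotientGroup.mk_inv, QuotientGroup.out_eq']
  rw [← h1, st_mk]
  exact ⟨X', hX'⟩

/-- the hypotheses of the counting lemma -/
structure Hyp (ℓ : ℕ) (F : Type) [Field F] : Prop where
  hF : GoodF ℓ F
  ibf : IbfStmt
  ibc : IbcStmt
  ibj : IbjStmt
  ibn : IbnStmt
  eig : EigStmt
  brt : BrtStmt

/-- the action of `H` on the index set -/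
@[instance_reducible] def idxAction {ℓ : ℕ} (hy : Hyp ℓ F) [Finite H] {a : H → F} (ha : IsCl a) :
    MulAction H (Idx ℓ L a) where
  smul y p := ⟨((y : H ⧸ L) * p.1.1 * (y : H ⧸ L)⁻¹, cIBr y p.1.2), reg_conj p.2.1 _,
    st_conj hy.ibc hy.hF y p.2.2.1, actF_conj ha y _ p.2.2.2⟩
  one_smul p := by
    apply Subtype.ext
    apply Prod.ext
    · show ((1 : H) : H ⧸ L) * p.1.1 * ((1 : H) : H ⧸ L)⁻¹ = p.1.1
      simp
    · exact cIBr_one _
  mul_smul y z p := by
    apply Subtype.ext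
    apply Prod.ext
    · show ((y * z : H) : H ⧸ L) * p.1.1 * ((y * z : H) : H ⧸ L)⁻¹ =
        (y : H ⧸ L) * ((z : H ⧸ L) * p.1.1 * (z : H ⧸ L)⁻¹) * (y : H ⧸ L)⁻¹
      simp [mul_assoc]
    · exact cIBr_mul _ _ _

/-- chosen implementers -/
def XX (c : H ⧸ L) (φ : IBr F L) : Matrix (Fin (dimOf φ)) (Fin (dimOf φ)) F :=
  open Classical in if h : St c φ then h.choose else 0

theorem XX_imp {c : H ⧸ L} {φ : IBr F L} (h : St c φ) : Imp (repOf φ) c.out (XX c φ) := by
  rw [XX, dif_pos h]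
  exact h.choose_spec

/-- the twisted trace functions -/
def ff (c : H ⧸ L) (φ : IBr F L) : H → F := tw (repOf φ) c.out (XX c φ)

theorem ff_not {c : H ⧸ L} {φ : IBr F L} {h : H} (hc : (h : H ⧸ L) ≠ c) : ff c φ h = 0 := by
  apply tw_not
  intro h1
  apply hc
  rw [← QuotientGroup.eq, QuotientGroup.out_eq'] at h1
  exact h1.symm

theorem ff_mul (c : H ⧸ L) (φ : IBr F L) (l : L) :
    ff c φ (c.out * l) = (XX c φ * repOf φ l).trace := tw_mul l

theorem ff_ne_zero {c : H ⧸ L} {φ : IBr F L} (h : St c φ) : ∃ g, ff c φ g ≠ 0 :=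
  tw_ne_zero (repOf_irr φ) (XX_imp h).unit

/-- every twisted trace function of the same coset and character is a multiple -/
theorem ff_uniq (hC : IbcStmt) {ℓ : ℕ} (hF : GoodF ℓ F) [Finite H] {n : ℕ}
    {ρ : L →* Matrix (Fin n) (Fin n) F} (hρ : IsIrr ρ) {φ : IBr F L} (h : tr ρ = φ.1) {x : H}
    {X : Matrix (Fin n) (Fin n) F} (hX : Imp ρ x X) :
    ∃ u : F, u ≠ 0 ∧ ∀ g, tw ρ x X g = u * ff (x : H ⧸ L) φ g := by
  obtain ⟨X', hX', h'⟩ := tw_change hC hF hρ (repOf_irr φ) (h.trans (repOf_tr φ).symm) hX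
  have hm : (x : H ⧸ L).out⁻¹ * x ∈ L := by
    rw [← QuotientGroup.eq, QuotientGroup.out_eq']
  have h2 : x * (((⟨(x : H ⧸ L).out⁻¹ * x, hm⟩ : L)⁻¹ : L) : H) = (x : H ⧸ L).out := by
    simp
  have h1 := hX'.mul (Imp.coe (ρ := repOf φ) (⟨_, hm⟩ : L)⁻¹)
  have h3 := fun g => tw_lift (ρ := repOf φ) (x := x) (X := X') (⟨_, hm⟩ : L)⁻¹ g
  rw [h2] at h1
  rw [h2] at h3
  obtain ⟨u, hu, he⟩ := Imp.uniq (repOf_irr φ) (XX_imp ⟨_, h1⟩) h1
  refine ⟨u, hu, fun g => ?_⟩
  rw [← h', ← h3, he, tw_smul]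
  rfl

theorem ff_act (hC : IbcStmt) {ℓ : ℕ} (hF : GoodF ℓ F) [Finite H] (y : H) {c : H ⧸ L}
    {φ : IBr F L} (h : St c φ) : ∃ u : F, u ≠ 0 ∧ ∀ g,
      ff c φ (y⁻¹ * g * y) = u * ff ((y : H ⧸ L) * c * (y : H ⧸ L)⁻¹) (cIBr y φ) g := by
  obtain ⟨u, hu, he⟩ := ff_uniq hC hF (φ := cIBr y φ) (crep_irr (repOf_irr φ))
    (by rw [tr_crep, repOf_tr]) ((XX_imp h).crep y)
  refine ⟨u, hu, fun g => ?_⟩
  have h1 : ((y * c.out * y⁻¹ : H) : H ⧸ L) = (y : H ⧸ L) * c * (y : H ⧸ L)⁻¹ := by
    rw [QuotientGroup.mk_mul, QuotientGroup.mk_mul, QuotientGroup.mk_inv, QuotientGroup.out_eq']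
  rw [← h1, ← he, ← tw_act]
  rfl

section idx

variable {ℓ : ℕ} (hy : Hyp ℓ F) [Finite H] {a : H → F} (ha : IsCl a)

/-- the twisted trace function of an index -/
def fi (p : Idx ℓ L a) : H → F := ff p.1.1 p.1.2

/-- the scalars of the monomial action -/
def uu (y : H) (p : Idx ℓ L a) : F := (ff_act hy.ibc hy.hF y p.2.2.1).choose

include ha in
theorem uu_spec (y : H) (p : Idx ℓ L a) (g : H) :
    letI := idxAction hy (L := L) ha
    fi p (y⁻¹ * g * y) = uu hy y p * fi (y • p) g :=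
  (ff_act hy.ibc hy.hF y p.2.2.1).choose_spec.2 g

theorem fi_ne_zero (p : Idx ℓ L a) : ∃ g, fi p g ≠ 0 := ff_ne_zero p.2.2.1

theorem uu_coc :
    letI := idxAction hy (L := L) ha
    IsCoc (uu hy (L := L) (a := a)) := by
  let _ := idxAction hy (L := L) ha
  constructor
  · intro p
    obtain ⟨g, hg⟩ := fi_ne_zero p
    have h1 := uu_spec hy ha 1 p g
    rw [inv_one, one_mul, mul_one, one_smul] at h1
    have h2 : (1 - uu hy 1 p) * fi p g = 0 := by
      rw [sub_mul, one_mul, ← h1, sub_self]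
    rcases mul_eq_zero.1 h2 with h3 | h3
    · exact (sub_eq_zero.1 h3).symm
    · exact absurd h3 hg
  · intro y z p
    obtain ⟨g, hg⟩ := fi_ne_zero (y • z • p)
    have h1 := uu_spec hy ha (y * z) p g
    have h2 : (y * z)⁻¹ * g * (y * z) = z⁻¹ * (y⁻¹ * g * y) * z := by group
    rw [h2, uu_spec hy ha z p, uu_spec hy ha y (z • p), mul_smul, ← mul_assoc] at h1
    have h3 := mul_right_cancel₀ hg h1
    rw [← h3, mul_comm]

end idx

end Pool.Agent.Helper58_CL
end
end -- Pool.Agent.Helper58_CL.Idx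

section -- Pool.Agent.Helper58_CL.Rp

/-!
The `ℓ'`-part of an element as a power with an exponent that depends only on the order of the group.
-/

open scoped BigOperators

set_option linter.unusedSectionVars false
set_option linter.unusedVariables false

noncomputable section

namespace Pool.Agent.Helper58_CL

open Pool.Agent.PP

/-- the exponent -/
def qe (ℓ : ℕ) (H : Type) : ℕ :=
  ((Nat.card H).factorization ℓ + 1) * Nat.totient (Nat.card H / ℓ ^ (Nat.card H).factorization ℓ)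

/-- `x ^ qq ℓ H` is the `ℓ'`-part of `x` -/
def qq (ℓ : ℕ) (H : Type) : ℕ := ℓ ^ qe ℓ H

variable {ℓ : ℕ} {H : Type} [Group H] [Finite H]

theorem compl_pos (hp : ℓ.Prime) : 0 < Nat.card H / ℓ ^ (Nat.card H).factorization ℓ :=
  Nat.ordCompl_pos ℓ (Nat.card_pos (α := H)).ne'

theorem coprime_compl (hp : ℓ.Prime) :
    Nat.Coprime ℓ (Nat.card H / ℓ ^ (Nat.card H).factorization ℓ) :=
  Nat.coprime_ordCompl hp (Nat.card_pos (α := H)).ne'

theorem proj_dvd_qq (hp : ℓ.Prime) : ℓ ^ (Nat.card H).factorization ℓ ∣ qq ℓ H := by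
  apply pow_dvd_pow
  unfold qe
  have h1 : 0 < Nat.totient (Nat.card H / ℓ ^ (Nat.card H).factorization ℓ) :=
    Nat.totient_pos.2 (compl_pos hp)
  nlinarith

theorem qq_mod (hp : ℓ.Prime) :
    qq ℓ H ≡ 1 [MOD Nat.card H / ℓ ^ (Nat.card H).factorization ℓ] := by
  unfold qq qe
  rw [mul_comm, pow_mul]
  have h1 := Nat.ModEq.pow_totient (coprime_compl (H := H) hp)
  have h2 := h1.pow ((Nat.card H).factorization ℓ + 1)
  rwa [one_pow] at h2

theorem reg_dvd (hp : ℓ.Prime) {n : ℕ} (h1 : n ∣ Nat.card H) (h2 : n.Coprime ℓ) :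
    n ∣ Nat.card H / ℓ ^ (Nat.card H).factorization ℓ := by
  have h3 : n ∣ ℓ ^ (Nat.card H).factorization ℓ *
      (Nat.card H / ℓ ^ (Nat.card H).factorization ℓ) := by
    rw [Nat.ordProj_mul_ordCompl_eq_self]
    exact h1
  exact (h2.pow_right _).dvd_of_dvd_mul_left h3

theorem pow_qq_of_reg (hp : ℓ.Prime) {K : Type} [Group K] {x : K} (hx : Reg ℓ x)
    (hd : orderOf x ∣ Nat.card H) : x ^ qq ℓ H = x := by
  have h1 : x ^ qq ℓ H = x ^ 1 := by
    rw [pow_eq_pow_iff_modEq]
    exact (qq_mod hp).of_dvd (reg_dvd hp hd hx)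
  rw [h1, pow_one]

theorem pow_qq_of_pow (hp : ℓ.Prime) {u : H} {n : ℕ} (hu : u ^ ℓ ^ n = 1) : u ^ qq ℓ H = 1 := by
  rw [← orderOf_dvd_iff_pow_eq_one] at hu ⊢
  obtain ⟨k, _, hk⟩ := (Nat.dvd_prime_pow hp).1 hu
  refine dvd_trans ?_ (proj_dvd_qq hp)
  rw [hk]
  apply pow_dvd_pow
  rw [← hp.pow_dvd_iff_le_factorization (Nat.card_pos (α := H)).ne', ← hk]
  exact orderOf_dvd_natCard u

theorem reg_pow_qq (hp : ℓ.Prime) (x : H) : Reg ℓ (x ^ qq ℓ H) := by
  have h1 : (x ^ qq ℓ H) ^ (Nat.card H / ℓ ^ (Nat.card H).factorization ℓ) = 1 := by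
    rw [← pow_mul, ← orderOf_dvd_iff_pow_eq_one]
    refine dvd_trans (orderOf_dvd_natCard x) ?_
    conv_lhs => rw [← Nat.ordProj_mul_ordCompl_eq_self (Nat.card H) ℓ]
    exact Nat.mul_dvd_mul (proj_dvd_qq hp) dvd_rfl
  have h2 := orderOf_dvd_of_pow_eq_one h1
  exact Nat.Coprime.coprime_dvd_left h2 (coprime_compl hp).symm

theorem pow_qq_qq (hp : ℓ.Prime) (x : H) : (x ^ qq ℓ H) ^ qq ℓ H = x ^ qq ℓ H :=
  pow_qq_of_reg hp (reg_pow_qq hp x) (orderOf_dvd_natCard _)

/-- the `ℓ`-part is an `ℓ`-element -/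
theorem part_pow (hp : ℓ.Prime) (x : H) : ((x ^ qq ℓ H)⁻¹ * x) ^ qq ℓ H = 1 := by
  have hc : Commute (x ^ qq ℓ H)⁻¹ x := by
    apply Commute.inv_left
    exact Commute.pow_left (Commute.refl x) _
  rw [hc.mul_pow, inv_pow, pow_qq_qq hp, inv_mul_cancel]

theorem part_mem (hp : ℓ.Prime) {L : Subgroup H} [L.Normal] {x : H} (hx : Reg ℓ (x : H ⧸ L)) :
    (x ^ qq ℓ H)⁻¹ * x ∈ L := by
  rw [← QuotientGroup.eq, QuotientGroup.mk_pow]
  apply pow_qq_of_reg hp hx
  exact dvd_trans (orderOf_map_dvd (QuotientGroup.mk' L) x) (orderOf_dvd_natCard x)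

theorem mk_pow_qq (hp : ℓ.Prime) {L : Subgroup H} [L.Normal] {x : H} (hx : Reg ℓ (x : H ⧸ L)) :
    ((x ^ qq ℓ H : H) : H ⧸ L) = x := by
  rw [QuotientGroup.eq]
  exact part_mem hp hx

theorem reg_mk {L : Subgroup H} [L.Normal] {x : H} (hx : Reg ℓ x) : Reg ℓ (x : H ⧸ L) :=
  Nat.Coprime.coprime_dvd_left (orderOf_map_dvd (QuotientGroup.mk' L) x) hx

end Pool.Agent.Helper58_CL
end
end -- Pool.Agent.Helper58_CL.Rp

section -- Pool.Agent.Helper58_CL.Cl

/-!
The counting lemma: first part.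
-/

open scoped BigOperators

set_option linter.unusedSectionVars false
set_option linter.unusedVariables false

noncomputable section

namespace Pool.Agent.Helper58_CL

open Pool.Agent.PP

variable {F : Type} [Field F] {H : Type} [Group H] {L : Subgroup H} [L.Normal] {ℓ : ℕ} [Finite H]
  {a : H → F}

theorem finite_ibr (hy : Hyp ℓ F) : Finite (IBr F L) := (hy.ibf ℓ F hy.hF L).1.to_subtype

theorem finite_idx (hy : Hyp ℓ F) : Finite (Idx ℓ L a) := by
  have := finite_ibr (L := L) hy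
  unfold Idx
  infer_instance

theorem fi_reg (hy : Hyp ℓ F) (p : Idx ℓ L a) {g : H} (hg : Reg ℓ (g : H ⧸ L)) :
    fi p (g ^ qq ℓ H) = fi p g := by
  have hp := hy.hF.prime
  have := Fact.mk hp
  have := hy.hF.char
  have hX := XX_imp p.2.2.1
  have hm := part_mem hp hg
  have h1 := tw_unip (l := ℓ) hX (h := g ^ qq ℓ H) (u := ⟨_, hm⟩) (k := qe ℓ H)
    (by
      show g ^ qq ℓ H * ((g ^ qq ℓ H)⁻¹ * g) = ((g ^ qq ℓ H)⁻¹ * g) * g ^ qq ℓ H
      rw [mul_inv_cancel_left, mul_assoc, ← pow_succ', pow_succ, inv_mul_cancel_left])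
    (by
      apply Subtype.ext
      rw [Subgroup.coe_pow, Subgroup.coe_one]
      exact part_pow hp g)
  have h2 : g ^ qq ℓ H * (((⟨(g ^ qq ℓ H)⁻¹ * g, hm⟩ : L)) : H) = g := mul_inv_cancel_left _ _
  rw [h2] at h1
  exact h1.symm

theorem fi_off (p : Idx ℓ L a) {g : H} (hg : ¬ Reg ℓ (g : H ⧸ L)) : fi p g = 0 := by
  apply ff_not
  intro h
  apply hg
  rw [h]
  exact p.2.1

theorem isCl_restrict {a : H → F} (ha : IsCl a) : IsCl (fun t : L => a t) := by
  intro x y
  exact ha _ _

theorem mk_mul_left (t : L) (g : H) : ((t * g : H) : H ⧸ L) = g := by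
  rw [QuotientGroup.mk_mul, (QuotientGroup.eq_one_iff (t : H)).2 t.2, one_mul]

/-- the action of a class function supported on `L` on twisted trace functions -/
theorem ff_ev (ha : IsCl a) [Fintype L] {c : H ⧸ L} {φ : IBr F L} (hSt : St c φ) {w : F}
    (hw : ev (repOf φ) (fun t : L => a t) = Matrix.scalar (Fin (dimOf φ)) w) (g : H) :
    ∑ t : L, a t * ff c φ (t * g) = w * ff c φ g := by
  by_cases hg : (g : H ⧸ L) = c
  · have hX := XX_imp hSt
    have hm : c.out⁻¹ * g ∈ L := by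
      rw [← QuotientGroup.eq, QuotientGroup.out_eq', hg]
    set l : L := ⟨_, hm⟩ with hl
    have hgl : g = c.out * l := by simp [hl]
    have h1 : ∀ t : L, ff c φ (t * g) = (repOf φ t * (XX c φ * repOf φ l)).trace := by
      intro t
      have e1 : (t : H) * g = c.out * ((MulAut.conjNormal c.out⁻¹ t * l : L) : H) := by
        rw [hgl]
        simp [mul_assoc]
      rw [e1, ff_mul, map_mul, ← mul_assoc, hX.eq]
      have e2 : MulAut.conjNormal c.out (MulAut.conjNormal c.out⁻¹ t) = t := by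
        ext
        simp [mul_assoc]
      rw [e2, mul_assoc]
    simp only [h1]
    have h2 : ∑ t : L, a t * (repOf φ t * (XX c φ * repOf φ l)).trace =
        (ev (repOf φ) (fun t : L => a t) * (XX c φ * repOf φ l)).trace := by
      rw [Matrix.trace_mul_comm, trace_ev]
      apply Finset.sum_congr rfl
      intro t _
      rw [Matrix.trace_mul_comm]
    rw [h2, hw]
    have h3 : Matrix.scalar (Fin (dimOf φ)) w = w • (1 : Matrix (Fin (dimOf φ)) (Fin (dimOf φ)) F) := by
      ext i j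
      simp [Matrix.scalar_apply, Matrix.diagonal_apply, Matrix.one_apply]
    rw [h3, Matrix.smul_mul, one_mul, Matrix.trace_smul, smul_eq_mul]
    conv_rhs => rw [hgl, ff_mul]
  · rw [ff_not hg, mul_zero]
    apply Finset.sum_eq_zero
    intro t _
    rw [ff_not, mul_zero]
    rw [mk_mul_left]
    exact hg

theorem tr_ne_zero {K : Type} [Group K] {n : ℕ} {ρ : K →* Matrix (Fin n) (Fin n) F}
    (hρ : IsIrr ρ) : ∃ g, tr ρ g ≠ 0 := by
  by_contra hcon
  push Not at hcon
  have h1 : (1 : Matrix (Fin n) (Fin n) F) = 0 :=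
    irr_eq_zero_of_trace hρ (fun g => by rw [one_mul]; exact hcon g)
  have : Nonempty (Fin n) := ⟨⟨0, hρ.1⟩⟩
  exact one_ne_zero h1

theorem eq_one_of_act {K : Type} [Group K] {n : ℕ} {ρ : K →* Matrix (Fin n) (Fin n) F}
    (hρ : IsIrr ρ) {b : K → F} {w : F} (h1 : actF b (tr ρ) = w • tr ρ)
    (h2 : actF b (tr ρ) = tr ρ) : w = 1 := by
  obtain ⟨g, hg⟩ := tr_ne_zero hρ
  have h3 := congrFun (h1.symm.trans h2) g
  rw [Pi.smul_apply, smul_eq_mul] at h3
  have h4 : (w - 1) * tr ρ g = 0 := by rw [sub_mul, h3, one_mul, sub_self]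
  rcases mul_eq_zero.1 h4 with h5 | h5
  · exact sub_eq_zero.1 h5
  · exact absurd h5 hg

/-- the action of `a` on the twisted trace functions of the index set -/
theorem fi_act (hy : Hyp ℓ F) (ha : IsCl a) [Fintype L] (p : Idx ℓ L a) (g : H) :
    ∑ t : L, a t * fi p (t * g) = fi p g := by
  obtain ⟨w, hw, hw2, _⟩ := hy.eig F L _ (repOf p.1.2) (repOf_irr _) _ (isCl_restrict ha)
  have h1 : w = 1 := by
    apply eq_one_of_act (repOf_irr p.1.2) hw2
    have := p.2.2.2
    rwa [← repOf_tr] at this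
  have h2 := ff_ev ha p.2.2.1 hw g
  rw [h1, one_mul] at h2
  exact h2

/-- sums over the index set, restricted to one coset -/
theorem sum_idx [Fintype (Idx ℓ L a)] [Fintype (IBr F L)] (c : H ⧸ L) (G : Idx ℓ L a → F)
    (hG : ∀ p, p.1.1 ≠ c → G p = 0) :
    ∑ p, G p = ∑ φ : IBr F L, (open Classical in if h : Reg ℓ c ∧ St c φ ∧
      actF (fun t : L => a t) φ.1 = φ.1 then G ⟨(c, φ), h⟩ else 0) := by
  classical
  let S := {φ : IBr F L // Reg ℓ c ∧ St c φ ∧ actF (fun t : L => a t) φ.1 = φ.1}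
  let e : S → Idx ℓ L a := fun s => ⟨(c, s.1), s.2⟩
  have he : Function.Injective e := by
    intro s t h
    have h1 := congrArg (fun q : Idx ℓ L a => q.1.2) h
    exact Subtype.ext h1
  have h1 : ∑ s : S, G (e s) = ∑ p, G p := by
    apply Fintype.sum_of_injective e he
    · intro p hp
      apply hG
      intro hc
      apply hp
      subst hc
      exact ⟨⟨p.1.2, p.2⟩, rfl⟩
    · intro s
      rfl
  rw [← h1]
  apply Fintype.sum_of_injective (fun s : S => s.1) Subtype.val_injective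
  · intro φ hφ
    rw [dif_neg]
    intro h
    exact hφ ⟨⟨φ, h⟩, rfl⟩
  · intro s
    rw [dif_pos s.2]

/-- linear independence of the twisted trace functions -/
theorem fi_indep (hy : Hyp ℓ F) [Fintype (Idx ℓ L a)] (c : Idx ℓ L a → F)
    (h : ∀ g, ∑ p, c p * fi p g = 0) : c = 0 := by
  classical
  have := finite_ibr (L := L) hy
  have := Fintype.ofFinite (IBr F L)
  funext p0
  let T : ∀ φ : IBr F L, Matrix (Fin (dimOf φ)) (Fin (dimOf φ)) F := fun φ =>
    if h : Reg ℓ p0.1.1 ∧ St p0.1.1 φ ∧ actF (fun t : L => a t) φ.1 = φ.1 then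
      c ⟨(p0.1.1, φ), h⟩ • XX p0.1.1 φ else 0
  have h1 : ∀ l : L, ∑ φ : IBr F L, (T φ * repOf φ l).trace = 0 := by
    intro l
    rw [← h (p0.1.1.out * l), sum_idx p0.1.1]
    · apply Finset.sum_congr rfl
      intro φ _
      by_cases hφ : Reg ℓ p0.1.1 ∧ St p0.1.1 φ ∧ actF (fun t : L => a t) φ.1 = φ.1
      · have e1 : T φ = c ⟨(p0.1.1, φ), hφ⟩ • XX p0.1.1 φ := dif_pos hφ
        rw [dif_pos hφ, e1, Matrix.smul_mul, Matrix.trace_smul, smul_eq_mul, ← ff_mul]
        rfl
      · have e1 : T φ = 0 := dif_neg hφ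
        rw [dif_neg hφ, e1, Matrix.zero_mul, Matrix.trace_zero]
    · intro p hp
      have : fi p (p0.1.1.out * l) = 0 := by
        apply ff_not
        rw [QuotientGroup.mk_mul, QuotientGroup.out_eq', (QuotientGroup.eq_one_iff (l : H)).2 l.2,
          mul_one]
        exact fun h => hp h.symm
      rw [this, mul_zero]
  have h2 := coef_indep hy.ibj hy.hF T h1 p0.1.2
  have h3 : T p0.1.2 = c p0 • XX p0.1.1 p0.1.2 := dif_pos p0.2
  rw [h3] at h2
  by_contra hne
  have h4 : XX p0.1.1 p0.1.2 = 0 := by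
    rcases smul_eq_zero.1 h2 with h5 | h5
    · exact absurd h5 hne
    · exact h5
  have h5 := (XX_imp p0.2.2.1).unit
  rw [h4] at h5
  have : Nonempty (Fin (dimOf p0.1.2)) := ⟨⟨0, (repOf_irr p0.1.2).1⟩⟩
  exact not_isUnit_zero h5

/-- the function on `H` with given coefficients -/
def Psi [Fintype (Idx ℓ L a)] (c : Idx ℓ L a → F) : H → F :=
  fun g => ∑ p, c p * fi p (g ^ qq ℓ H)

theorem Psi_reg (hy : Hyp ℓ F) [Fintype (Idx ℓ L a)] (c : Idx ℓ L a → F) {g : H}
    (hg : Reg ℓ (g : H ⧸ L)) : Psi c g = ∑ p, c p * fi p g := by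
  unfold Psi
  apply Finset.sum_congr rfl
  intro p _
  rw [fi_reg hy p hg]

/-- invariance -/
theorem sum_conj (hy : Hyp ℓ F) (ha : IsCl a) [Fintype (Idx ℓ L a)] {c : Idx ℓ L a → F}
    (hc : letI := idxAction hy (L := L) ha; c ∈ monoInv (uu hy (L := L) (a := a))) (y g : H) :
    ∑ p, c p * fi p (y⁻¹ * g * y) = ∑ p, c p * fi p g := by
  let _ := idxAction hy (L := L) ha
  have h1 : ∀ p : Idx ℓ L a, c p * fi p (y⁻¹ * g * y) = c (y • p) * fi (y • p) g := by
    intro p
    rw [uu_spec hy ha y p g, hc y p]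
    ring
  simp only [h1]
  exact Equiv.sum_comp (MulAction.toPerm y) (fun p => c p * fi p g)

theorem Psi_mem_TT (hy : Hyp ℓ F) (ha : IsCl a) [Fintype (Idx ℓ L a)] {c : Idx ℓ L a → F}
    (hc : letI := idxAction hy (L := L) ha; c ∈ monoInv (uu hy (L := L) (a := a))) :
    Psi c ∈ TT F H ℓ := by
  constructor
  · intro x y
    unfold Psi
    have h1 := sum_conj hy ha hc y⁻¹ (x ^ qq ℓ H)
    rw [inv_inv] at h1
    have h2 : (y * x * y⁻¹) ^ qq ℓ H = y * x ^ qq ℓ H * y⁻¹ := by
      rw [conj_pow]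
    rw [h2, h1]
  · rintro x y hxy ⟨n, hn⟩
    unfold Psi
    have h2 : (x * y) ^ qq ℓ H = x ^ qq ℓ H := by
      rw [hxy.mul_pow, pow_qq_of_pow hy.hF.prime hn, mul_one]
    rw [h2]

theorem TT_reg {f : H → F} (hp : ℓ.Prime) (hf : f ∈ TT F H ℓ) (g : H) :
    f (g ^ qq ℓ H) = f g := by
  have h1 := hf.2 (g ^ qq ℓ H) ((g ^ qq ℓ H)⁻¹ * g)
    (by
      show g ^ qq ℓ H * ((g ^ qq ℓ H)⁻¹ * g) = ((g ^ qq ℓ H)⁻¹ * g) * g ^ qq ℓ H
      rw [mul_inv_cancel_left, mul_assoc, ← pow_succ', pow_succ, inv_mul_cancel_left])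
    ⟨qe ℓ H, part_pow hp g⟩
  rw [mul_inv_cancel_left] at h1
  exact h1.symm

theorem actF_eq_sum [Fintype L] (haL : ∀ h, h ∉ L → a h = 0) (f : H → F) (g : H) :
    actF a f g = ∑ t : L, a t * f (t * g) := by
  have := Fintype.ofFinite H
  rw [actF, finsum_eq_sum_of_fintype]
  symm
  apply Fintype.sum_of_injective (fun t : L => (t : H)) Subtype.val_injective
  · intro h hh
    rw [haL, zero_mul]
    intro h1
    exact hh ⟨⟨h, h1⟩, rfl⟩
  · intro t
    rfl

theorem actF_sum [Fintype H] {ι : Type*} [Fintype ι] (d : ι → F) (f : ι → H → F) (b : H → F) :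
    actF b (∑ i, d i • f i) = ∑ i, d i • actF b (f i) := by
  funext x
  simp only [actF, finsum_eq_sum_of_fintype, Finset.sum_apply, Pi.smul_apply, smul_eq_mul,
    Finset.mul_sum]
  rw [Finset.sum_comm]
  apply Finset.sum_congr rfl
  intro i _
  apply Finset.sum_congr rfl
  intro t _
  ring

/-- coordinates in the basis of modular characters -/
theorem exists_coord (hy : Hyp ℓ F) [Fintype (IBr F H)] {f : H → F} (hf : f ∈ TT F H ℓ) :
    ∃ d : IBr F H → F, f = ∑ θ, d θ • (θ : H → F) := by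
  rw [← hy.brt ℓ F hy.hF H] at hf
  have h1 : f ∈ Submodule.span F (Set.range (fun θ : IBr F H => (θ : H → F))) := by
    rw [Subtype.range_coe]
    exact hf
  rw [Submodule.mem_span_range_iff_exists_fun] at h1
  obtain ⟨d, hd⟩ := h1
  exact ⟨d, hd.symm⟩

theorem actF_mem_TT (hy : Hyp ℓ F) {b : H → F} (hb : IsCl b) {f : H → F} (hf : f ∈ TT F H ℓ) :
    actF b f ∈ TT F H ℓ := by
  have := (hy.ibf ℓ F hy.hF H).1.to_subtype
  have := Fintype.ofFinite (IBr F H)
  have := Fintype.ofFinite H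
  obtain ⟨d, rfl⟩ := exists_coord hy hf
  rw [actF_sum]
  apply Submodule.sum_mem
  intro θ _
  apply Submodule.smul_mem
  obtain ⟨w, _, hw2, _⟩ := hy.eig F H _ (repOf θ) (repOf_irr θ) b hb
  rw [repOf_tr] at hw2
  rw [hw2]
  apply Submodule.smul_mem
  rw [← hy.brt ℓ F hy.hF H]
  exact Submodule.subset_span θ.2

/-- `a` acts as the identity on `Psi c`. -/
theorem actF_Psi (hy : Hyp ℓ F) (ha : IsCl a) (haL : ∀ h, h ∉ L → a h = 0)
    [Fintype (Idx ℓ L a)] {c : Idx ℓ L a → F}
    (hc : letI := idxAction hy (L := L) ha; c ∈ monoInv (uu hy (L := L) (a := a))) :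
    actF a (Psi c) = Psi c := by
  have := Fintype.ofFinite L
  have h1 := Psi_mem_TT hy ha hc
  have h2 := actF_mem_TT hy ha h1
  funext g
  rw [← TT_reg hy.hF.prime h1, ← TT_reg hy.hF.prime h2]
  have hr : Reg ℓ ((g ^ qq ℓ H : H) : H ⧸ L) := reg_mk (reg_pow_qq hy.hF.prime g)
  rw [actF_eq_sum haL, Psi_reg hy c hr]
  have h3 : ∀ t : L, Psi c (t * g ^ qq ℓ H) = ∑ p, c p * fi p (t * g ^ qq ℓ H) := by
    intro t
    apply Psi_reg hy c
    rw [mk_mul_left]
    exact hr
  simp only [h3, Finset.mul_sum]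
  rw [Finset.sum_comm]
  apply Finset.sum_congr rfl
  intro p _
  rw [← fi_act hy ha p (g ^ qq ℓ H), Finset.mul_sum]
  apply Finset.sum_congr rfl
  intro t _
  ring

/-- the coefficients of an irreducible modular character of `H` -/
theorem exists_coef (hy : Hyp ℓ F) (ha : IsCl a) (haL : ∀ h, h ∉ L → a h = 0)
    [Fintype (Idx ℓ L a)] (θ : IBr F H) (hθ : actF a θ.1 = θ.1) :
    ∃ c : Idx ℓ L a → F,
      (letI := idxAction hy (L := L) ha; c ∈ monoInv (uu hy (L := L) (a := a))) ∧ Psi c = θ.1 := by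
  classical
  have := finite_ibr (L := L) hy
  have := Fintype.ofFinite (IBr F L)
  have := Fintype.ofFinite L
  have h1 : ∀ c : H ⧸ L, ∃ s : IBr F L → F, (∀ φ, ¬ St c φ → s φ = 0) ∧
      (∀ φ, s φ ≠ 0 → actF (fun t : L => a t) φ.1 = φ.1) ∧
      ∀ l : L, θ.1 (c.out * l) = ∑ φ, s φ * ff c φ (c.out * l) := by
    intro c
    obtain ⟨T, hT1, hT2⟩ := decomp hy.ibc hy.ibj hy.ibn hy.hF (L := L) (repOf θ) c.out
    have h2 : ∀ φ, ∃ s : F, T φ = s • XX c φ ∧ (¬ St c φ → s = 0) := by
      intro φ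
      by_cases hS : St c φ
      · rcases hT1 φ with h0 | h0
        · exact ⟨0, by rw [h0, zero_smul], fun h => absurd hS h⟩
        · obtain ⟨u, _, hu⟩ := Imp.uniq (repOf_irr φ) (XX_imp hS) h0
          exact ⟨u, hu, fun h => absurd hS h⟩
      · rcases hT1 φ with h0 | h0
        · exact ⟨0, by rw [h0, zero_smul], fun _ => rfl⟩
        · exact absurd ⟨_, h0⟩ hS
    choose s hs1 hs2 using h2
    have h3 : ∀ l : L, θ.1 (c.out * l) = ∑ φ, s φ * ff c φ (c.out * l) := by
      intro l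
      have e1 : θ.1 (c.out * l) = (repOf θ (c.out * l)).trace := by
        conv_lhs => rw [← repOf_tr θ]
        rfl
      rw [e1, hT2]
      apply Finset.sum_congr rfl
      intro φ _
      rw [hs1, Matrix.smul_mul, Matrix.trace_smul, smul_eq_mul, ff_mul]
    refine ⟨s, hs2, ?_, h3⟩
    -- the scalars of `a`
    have hw : ∀ φ : IBr F L, ∃ w : F, ev (repOf φ) (fun t : L => a t) =
        Matrix.scalar (Fin (dimOf φ)) w ∧ (w = 1 → actF (fun t : L => a t) φ.1 = φ.1) := by
      intro φ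
      obtain ⟨w, hw, hw2, _⟩ := hy.eig F L _ (repOf φ) (repOf_irr _) _ (isCl_restrict ha)
      refine ⟨w, hw, fun h => ?_⟩
      rw [repOf_tr] at hw2
      rw [hw2, h, one_smul]
    choose w hw1 hw2 using hw
    have h4 : ∀ l : L, ∑ φ, (((w φ - 1) * s φ) • XX c φ * repOf φ l).trace = 0 := by
      intro l
      have e1 := congrFun hθ (c.out * l)
      rw [actF_eq_sum haL] at e1
      have e2 : ∀ t : L, θ.1 ((t : H) * (c.out * l)) = ∑ φ, s φ * ff c φ (t * (c.out * l)) := by
        intro t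
        have e3 : (t : H) * (c.out * l) = c.out * ((MulAut.conjNormal c.out⁻¹ t * l : L) : H) := by
          simp [mul_assoc]
        rw [e3]
        exact h3 _
      simp only [e2, Finset.mul_sum] at e1
      rw [Finset.sum_comm, h3] at e1
      have e4 : ∀ φ, ∑ t : L, a t * (s φ * ff c φ (t * (c.out * l))) =
          w φ * s φ * ff c φ (c.out * l) := by
        intro φ
        by_cases hS : St c φ
        · have := ff_ev ha hS (hw1 φ) (c.out * l)
          rw [mul_comm (w φ), mul_assoc, ← this, Finset.mul_sum]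
          apply Finset.sum_congr rfl
          intro t _
          ring
        · rw [hs2 φ hS]
          simp
      simp only [e4] at e1
      have e5 : ∀ φ, (((w φ - 1) * s φ) • XX c φ * repOf φ l).trace =
          w φ * s φ * ff c φ (c.out * l) - s φ * ff c φ (c.out * l) := by
        intro φ
        rw [Matrix.smul_mul, Matrix.trace_smul, smul_eq_mul, ff_mul]
        ring
      simp only [e5]
      rw [Finset.sum_sub_distrib, e1, sub_self]
    intro φ hφ
    have h5 := coef_indep hy.ibj hy.hF (fun φ => ((w φ - 1) * s φ) • XX c φ) h4 φ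
    apply hw2
    by_contra hne
    have hS : St c φ := by
      by_contra hS
      exact hφ (hs2 φ hS)
    have h6 : XX c φ = 0 := by
      rcases smul_eq_zero.1 h5 with h7 | h7
      · rcases mul_eq_zero.1 h7 with h8 | h8
        · exact absurd (sub_eq_zero.1 h8) hne
        · exact absurd h8 hφ
      · exact h7
    have h7 := (XX_imp hS).unit
    rw [h6] at h7
    have : Nonempty (Fin (dimOf φ)) := ⟨⟨0, (repOf_irr φ).1⟩⟩
    exact not_isUnit_zero h7
  choose s hs1 hs2 hs3 using h1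
  let c : Idx ℓ L a → F := fun p => s p.1.1 p.1.2
  have h2 : ∀ g : H, Reg ℓ (g : H ⧸ L) → ∑ p, c p * fi p g = θ.1 g := by
    intro g hg
    have hm : (g : H ⧸ L).out⁻¹ * g ∈ L := by
      rw [← QuotientGroup.eq, QuotientGroup.out_eq']
    have hgl : g = (g : H ⧸ L).out * (⟨_, hm⟩ : L) := by simp
    rw [sum_idx (g : H ⧸ L)]
    · conv_rhs => rw [hgl, hs3]
      apply Finset.sum_congr rfl
      intro φ _
      rw [← hgl]
      by_cases hφ : Reg ℓ (g : H ⧸ L) ∧ St (g : H ⧸ L) φ ∧ actF (fun t : L => a t) φ.1 = φ.1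
      · rw [dif_pos hφ]
        rfl
      · rw [dif_neg hφ]
        have : s (g : H ⧸ L) φ = 0 := by
          by_contra hne
          apply hφ
          refine ⟨hg, ?_, hs2 _ _ hne⟩
          by_contra hS
          exact hne (hs1 _ _ hS)
        rw [this, zero_mul]
    · intro p hp
      have : fi p g = 0 := ff_not (fun h => hp h.symm)
      rw [this, mul_zero]
  have hθT : θ.1 ∈ TT F H ℓ := by
    rw [← hy.brt ℓ F hy.hF H]
    exact Submodule.subset_span θ.2
  refine ⟨c, ?_, ?_⟩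
  · let _ := idxAction hy (L := L) ha
    have h3 : (fun p => c (p) * 1 - c p) = fun _ : Idx ℓ L a => (0 : F) := by
      funext p
      ring
    intro y p0
    have h4 : (fun p : Idx ℓ L a => c (y⁻¹ • p) * uu hy y (y⁻¹ • p) - c p) = 0 := by
      apply fi_indep hy
      intro g
      simp only [sub_mul, Finset.sum_sub_distrib]
      by_cases hg : Reg ℓ (g : H ⧸ L)
      · rw [h2 g hg]
        have e1 : ∑ p : Idx ℓ L a, c (y⁻¹ • p) * uu hy y (y⁻¹ • p) * fi p g =
            ∑ p : Idx ℓ L a, c p * fi p (y⁻¹ * g * y) := by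
          rw [← Equiv.sum_comp (MulAction.toPerm y)]
          apply Finset.sum_congr rfl
          intro p _
          rw [uu_spec hy ha y p g]
          simp only [MulAction.toPerm_apply, inv_smul_smul]
          ring
        have hg' : Reg ℓ ((y⁻¹ * g * y : H) : H ⧸ L) := by
          have := reg_conj hg (y : H ⧸ L)⁻¹
          rw [inv_inv] at this
          exact this
        rw [e1, h2 _ hg']
        have e2 := hθT.1 g y⁻¹
        rw [inv_inv] at e2
        rw [e2, sub_self]
      · have e1 : ∀ p : Idx ℓ L a, fi p g = 0 := fun p => fi_off p hg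
        simp [e1]
    have h5 := congrFun h4 (y • p0)
    simp only [inv_smul_smul, Pi.zero_apply] at h5
    rw [sub_eq_zero] at h5
    rw [← h5, mul_comm]
  · funext g
    rw [← TT_reg hy.hF.prime hθT g, ← h2 _ (reg_mk (reg_pow_qq hy.hF.prime g))]
    rfl

/-- **The counting lemma, orbit form**: the number of irreducible modular characters of `H` on
which `a` acts as the identity is the dimension of a space of invariants. -/
theorem finrank_monoInv_eq (hy : Hyp ℓ F) (ha : IsCl a) (haL : ∀ h, h ∉ L → a h = 0) :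
    letI := idxAction hy (L := L) ha
    Module.finrank F (monoInv (uu hy (L := L) (a := a))) =
      {θ : H → F | θ ∈ IBr F H ∧ actF a θ = θ}.ncard := by
  classical
  let _ := idxAction hy (L := L) ha
  have := finite_idx (L := L) (a := a) hy
  have := Fintype.ofFinite (Idx ℓ L a)
  have := (hy.ibf ℓ F hy.hF H).1.to_subtype
  have := Fintype.ofFinite (IBr F H)
  have := Fintype.ofFinite H
  let Θ := {θ : H → F | θ ∈ IBr F H ∧ actF a θ = θ}
  have hΘ : Θ.Finite := (hy.ibf ℓ F hy.hF H).1.subset (fun θ h => h.1)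
  let PsiL : monoInv (uu hy (L := L) (a := a)) →ₗ[F] (H → F) :=
    { toFun := fun c => Psi c.1
      map_add' := by
        intro c d
        funext g
        simp only [Psi, Submodule.coe_add, Pi.add_apply, add_mul, Finset.sum_add_distrib]
      map_smul' := by
        intro r c
        funext g
        simp only [Psi, Submodule.coe_smul, Pi.smul_apply, smul_eq_mul, RingHom.id_apply,
          Finset.mul_sum, mul_assoc] }
  have hinj : Function.Injective PsiL := by
    rw [injective_iff_map_eq_zero]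
    intro c hc
    apply Subtype.ext
    apply fi_indep hy
    intro g
    by_cases hg : Reg ℓ (g : H ⧸ L)
    · rw [← Psi_reg hy c.1 hg]
      exact congrFun hc g
    · apply Finset.sum_eq_zero
      intro p _
      rw [fi_off p hg, mul_zero]
  have hrange : LinearMap.range PsiL = Submodule.span F Θ := by
    apply le_antisymm
    · rintro _ ⟨c, rfl⟩
      have h1 : Psi c.1 ∈ TT F H ℓ := Psi_mem_TT hy ha c.2
      have h2 : actF a (Psi c.1) = Psi c.1 := actF_Psi hy ha haL c.2
      obtain ⟨d, hd⟩ := exists_coord hy h1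
      have hw : ∀ θ : IBr F H, ∃ w : F, actF a θ.1 = w • θ.1 := by
        intro θ
        obtain ⟨w, _, hw2, _⟩ := hy.eig F H _ (repOf θ) (repOf_irr θ) a ha
        rw [repOf_tr] at hw2
        exact ⟨w, hw2⟩
      choose w hw using hw
      have h3 : ∑ θ : IBr F H, (d θ * (w θ - 1)) • θ.1 = 0 := by
        have e1 : actF a (Psi c.1) = ∑ θ : IBr F H, d θ • (w θ • θ.1) := by
          rw [hd, actF_sum]
          apply Finset.sum_congr rfl
          intro θ _
          rw [hw]
        rw [h2, hd] at e1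
        have e2 : ∀ θ : IBr F H, (d θ * (w θ - 1)) • θ.1 = d θ • (w θ • θ.1) - d θ • θ.1 := by
          intro θ
          rw [smul_smul, ← sub_smul]
          congr 1
          ring
        simp only [e2]
        rw [Finset.sum_sub_distrib, ← e1, sub_self]
      have h4 := Fintype.linearIndependent_iff.1 (hy.ibf ℓ F hy.hF H).2 _ h3
      show Psi c.1 ∈ _
      rw [hd]
      apply Submodule.sum_mem
      intro θ _
      by_cases h0 : d θ = 0
      · rw [h0, zero_smul]
        exact Submodule.zero_mem _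
      · apply Submodule.smul_mem
        apply Submodule.subset_span
        refine ⟨θ.2, ?_⟩
        rcases mul_eq_zero.1 (h4 θ) with h5 | h5
        · exact absurd h5 h0
        · rw [hw, sub_eq_zero.1 h5, one_smul]
    · rw [Submodule.span_le]
      rintro θ ⟨h1, h2⟩
      obtain ⟨c, hc, hc2⟩ := exists_coef hy ha haL ⟨θ, h1⟩ h2
      exact ⟨⟨c, hc⟩, hc2⟩
  have h1 : Module.finrank F (monoInv (uu hy (L := L) (a := a))) =
      Module.finrank F (Submodule.span F Θ) := by
    rw [← hrange, LinearMap.finrank_range_of_inj hinj]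
  rw [h1]
  have hli : LinearIndependent F (fun θ : Θ => (θ : H → F)) := by
    have h2 := (hy.ibf ℓ F hy.hF H).2
    exact h2.comp (fun θ : Θ => (⟨θ.1, θ.2.1⟩ : IBr F H)) (by
      intro s t h
      have := congrArg Subtype.val h
      exact Subtype.ext this)
  have : Fintype Θ := hΘ.fintype
  show _ = Θ.ncard
  rw [← Nat.card_coe_set_eq, Nat.card_eq_fintype_card]
  have h3 := finrank_span_eq_card hli
  rw [← h3, Subtype.range_coe]

end Pool.Agent.Helper58_CL
end
end -- Pool.Agent.Helper58_CL.Cl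

section -- Pool.Agent.Helper58_CL.Fin

/-!
The counting lemma: final form.
-/

open scoped BigOperators

set_option linter.unusedSectionVars false
set_option linter.unusedVariables false

noncomputable section

namespace Pool.Agent.Helper58_CL

open Pool.Agent.PP

variable {F : Type} [Field F] {H : Type} [Group H] {L : Subgroup H} [L.Normal] {ℓ : ℕ} [Finite H]
  {a : H → F}

theorem comm_mul (x y : H) (hk : x * y * x⁻¹ * y⁻¹ ∈ L) :
    ((⟨x * y * x⁻¹ * y⁻¹, hk⟩ : L) : H) * y * x = x * y := by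
  show x * y * x⁻¹ * y⁻¹ * y * x = x * y
  group

/-- the scalar for given implementers -/
theorem exists_scalar {n : ℕ} {ρ : L →* Matrix (Fin n) (Fin n) F} (hρ : IsIrr ρ) {x y : H}
    {X Y : Matrix (Fin n) (Fin n) F} (hX : Imp ρ x X) (hY : Imp ρ y Y)
    (hk : x * y * x⁻¹ * y⁻¹ ∈ L) :
    ∃ c : F, c ≠ 0 ∧ X * Y = c • (ρ ⟨x * y * x⁻¹ * y⁻¹, hk⟩ * Y * X) := by
  have h1 := ((Imp.coe (ρ := ρ) ⟨x * y * x⁻¹ * y⁻¹, hk⟩).mul hY).mul hX
  rw [comm_mul] at h1
  obtain ⟨c, hc, he⟩ := Imp.uniq hρ h1 (hX.mul hY)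
  exact ⟨c, hc, he⟩

theorem exists_tc (hC : IbcStmt) (hF : GoodF ℓ F) {φ : L → F} (hφ : φ ∈ IBr F L) {x y : H}
    (hk : x * y * x⁻¹ * y⁻¹ ∈ L) (hx : ∀ l, φ (MulAut.conjNormal x l) = φ l)
    (hy : ∀ l, φ (MulAut.conjNormal y l) = φ l) : ∃ c, c ≠ 0 ∧ IsTC L φ x y c := by
  obtain ⟨n, ρ, hρ, rfl⟩ := hφ
  obtain ⟨X, hX⟩ := exists_imp hC hF hρ hx
  obtain ⟨Y, hY⟩ := exists_imp hC hF hρ hy
  obtain ⟨c, hc, he⟩ := exists_scalar hρ hX hY hk
  exact ⟨c, hc, n, ρ, X, Y, hk, hρ, rfl, hX.unit, hY.unit, hX.eq, hY.eq, he⟩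

theorem tc_unique (hC : IbcStmt) (hF : GoodF ℓ F) {φ : L → F} {x y : H} {c d : F}
    (h1 : IsTC L φ x y c) (h2 : IsTC L φ x y d) : c = d := by
  obtain ⟨n, ρ, X, Y, hk, hρ, htr, hX, hY, hX', hY', he⟩ := h1
  obtain ⟨m, σ, X2, Y2, _, hσ, htr2, hX2, hY2, hX2', hY2', he2⟩ := h2
  obtain ⟨P, P', hn, hP1, hP2, hP3⟩ := hC ℓ F hF L m n σ ρ hσ hρ (htr2.trans htr.symm)
  subst hn
  let u : (Matrix (Fin m) (Fin m) F)ˣ := ⟨P, P', hP1, hP2⟩
  have hu : ∀ g, (u : Matrix (Fin m) (Fin m) F) * σ g = ρ g * u := hP3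
  have iX : Imp σ x X2 := ⟨hX2, hX2'⟩
  have iY : Imp σ y Y2 := ⟨hY2, hY2'⟩
  have jX := iX.conj u hu
  have jY := iY.conj u hu
  obtain ⟨r, hr, hrX⟩ := Imp.uniq hρ ⟨hX, hX'⟩ jX
  obtain ⟨s, hs, hsY⟩ := Imp.uniq hρ ⟨hY, hY'⟩ jY
  set k : L := ⟨x * y * x⁻¹ * y⁻¹, hk⟩ with hkk
  have e1 : (u.val * X2 * (u⁻¹).val) * (u.val * Y2 * (u⁻¹).val) = u.val * (X2 * Y2) * (u⁻¹).val := by
    simp only [mul_assoc, Units.inv_mul_cancel_left]
  have e2 : u.val * (σ k * Y2 * X2) * (u⁻¹).val =
      ρ k * (u.val * Y2 * (u⁻¹).val) * (u.val * X2 * (u⁻¹).val) := by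
    simp only [mul_assoc, Units.inv_mul_cancel_left]
    rw [← mul_assoc u.val, hu]
    simp only [mul_assoc]
  have e3 : (r • X) * (s • Y) = d • (ρ k * (s • Y) * (r • X)) := by
    rw [← hrX, ← hsY, e1, he2, ← e2, Matrix.mul_smul, Matrix.smul_mul]
  have e4 : (r * s) • (X * Y) = (r * s) • (d • (ρ k * Y * X)) := by
    have l1 : (r • X) * (s • Y) = (r * s) • (X * Y) := by
      rw [Matrix.smul_mul, Matrix.mul_smul, smul_smul]
    have l2 : d • (ρ k * (s • Y) * (r • X)) = (r * s) • (d • (ρ k * Y * X)) := by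
      rw [Matrix.mul_smul, Matrix.mul_smul, Matrix.smul_mul, smul_smul, smul_smul, smul_smul]
      congr 1
      ring
    rw [← l1, ← l2, e3]
  have hrs : r * s ≠ 0 := mul_ne_zero hr hs
  have e5 : X * Y = d • (ρ k * Y * X) := smul_right_injective _ hrs e4
  rw [he] at e5
  have h6 : (c - d) • (ρ k * Y * X) = 0 := by rw [sub_smul, e5, sub_self]
  rcases smul_eq_zero.1 h6 with h7 | h7
  · exact sub_eq_zero.1 h7
  · have h8 : IsUnit (ρ k * Y * X) := ((isUnit_rep k).mul hY).mul hX
    rw [h7] at h8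
    have : Nonempty (Fin m) := ⟨⟨0, hρ.1⟩⟩
    exact absurd h8 not_isUnit_zero

/-- CLU -/
theorem clu (hC : IbcStmt) : CluStmt := by
  intro ℓ F _ hF H _ _ L _ φ hφ x y hk hx hy
  obtain ⟨c, hc, h⟩ := exists_tc hC hF hφ hk hx hy
  have h1 : ∃ c, IsTC L φ x y c := ⟨c, h⟩
  have h2 : tc L φ x y = h1.choose := by rw [tc, dif_pos h1]
  have h3 : IsTC L φ x y (tc L φ x y) := by
    rw [h2]
    exact h1.choose_spec
  refine ⟨?_, h3, fun d hd => tc_unique hC hF hd h3⟩
  rw [tc_unique hC hF h3 h]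
  exact hc

/-- the scalars of the monomial action are the scalars `c_φ(x, y)` -/
theorem uu_eq (hy : Hyp ℓ F) (ha : IsCl a) (p : Idx ℓ L a) (x y : H) (hx : (x : H ⧸ L) = p.1.1)
    (hp : letI := idxAction hy (L := L) ha; y • p = p) (hk : x * y * x⁻¹ * y⁻¹ ∈ L)
    (hsx : ∀ l, p.1.2.1 (MulAut.conjNormal x l) = p.1.2.1 l)
    (hsy : ∀ l, p.1.2.1 (MulAut.conjNormal y l) = p.1.2.1 l) :
    uu hy y⁻¹ p = tc L p.1.2.1 x y := by
  let _ := idxAction hy (L := L) ha
  have hp' : y⁻¹ • p = p := by rw [inv_smul_eq_iff]; exact hp.symm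
  have h1 : ∀ g, fi p (y * g * y⁻¹) = uu hy y⁻¹ p * fi p g := by
    intro g
    have h2 := uu_spec hy ha y⁻¹ p g
    rw [inv_inv, hp'] at h2
    exact h2
  set φ := p.1.2 with hφ
  set ρ := repOf φ with hρd
  have hρ : IsIrr ρ := repOf_irr φ
  have htr : tr ρ = φ.1 := repOf_tr φ
  obtain ⟨X, hX⟩ := exists_imp hy.ibc hy.hF hρ (x := x) (by rw [htr]; exact hsx)
  obtain ⟨Y, hY⟩ := exists_imp hy.ibc hy.hF hρ (x := y) (by rw [htr]; exact hsy)
  obtain ⟨c, hc, he⟩ := exists_scalar hρ hX hY hk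
  have htc : tc L φ.1 x y = c := by
    symm
    exact (clu hy.ibc ℓ F hy.hF H L φ.1 φ.2 x y hk hsx hsy).2.2 c
      ⟨_, ρ, X, Y, hk, hρ, htr, hX.unit, hY.unit, hX.eq, hY.eq, he⟩
  rw [htc]
  obtain ⟨d, hd, hdd⟩ := ff_uniq hy.ibc hy.hF hρ htr hX
  rw [hx] at hdd
  have h3 : ∀ g, tw ρ x X (y * g * y⁻¹) = uu hy y⁻¹ p * tw ρ x X g := by
    intro g
    rw [hdd, hdd]
    have := h1 g
    unfold fi at this
    rw [this]
    ring
  obtain ⟨g, hg⟩ := tw_ne_zero hρ (x := x) hX.unit
  have hgl : x⁻¹ * g ∈ L := by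
    by_contra hcon
    exact hg (tw_not hcon)
  set l : L := ⟨_, hgl⟩ with hl
  have hgx : g = x * l := by simp [hl]
  have hk' : x⁻¹ * y * x * y⁻¹ ∈ L := by
    have h4 := L.inv_mem hk
    have h5 := Subgroup.Normal.conj_mem (inferInstance : L.Normal) _ h4 x⁻¹
    have h6 : x⁻¹ * (x * y * x⁻¹ * y⁻¹)⁻¹ * x⁻¹⁻¹ = x⁻¹ * y * x * y⁻¹ := by group
    rwa [h6] at h5
  have h4 : tw ρ x X (y * g * y⁻¹) = c * tw ρ x X g := by
    have e1 : y * g * y⁻¹ = x * ((⟨_, hk'⟩ * MulAut.conjNormal y l : L) : H) := by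
      rw [hgx]
      show _ = x * ((x⁻¹ * y * x * y⁻¹) * (y * l * y⁻¹))
      group
    rw [e1, tw_mul, map_mul]
    conv_rhs => rw [hgx, tw_mul]
    obtain ⟨v, hv⟩ := hY.unit
    have e2 : ρ (MulAut.conjNormal y l) = Y * ρ l * (v⁻¹).val := by
      rw [hY.eq, mul_assoc, ← hv, Units.mul_inv, mul_one]
    have e3 : X * ρ ⟨_, hk'⟩ * Y = c • (Y * X) := by
      rw [hX.eq]
      have e4 : MulAut.conjNormal x (⟨_, hk'⟩ : L) = (⟨_, hk⟩ : L)⁻¹ := by
        ext
        show x * (x⁻¹ * y * x * y⁻¹) * x⁻¹ = (x * y * x⁻¹ * y⁻¹)⁻¹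
        group
      rw [e4, mul_assoc, he, Matrix.mul_smul, ← mul_assoc, ← mul_assoc, ← map_mul, inv_mul_cancel,
        map_one, one_mul]
    rw [e2]
    have e5 : X * (ρ ⟨_, hk'⟩ * (Y * ρ l * (v⁻¹).val)) =
        (X * ρ ⟨_, hk'⟩ * Y) * ρ l * (v⁻¹).val := by
      simp only [mul_assoc]
    rw [e5, e3, Matrix.trace_mul_comm, ← mul_assoc, Matrix.mul_smul, ← mul_assoc, ← hv,
      Units.inv_mul, one_mul, Matrix.smul_mul, Matrix.trace_smul, smul_eq_mul]
  rw [h3] at h4
  exact mul_right_cancel₀ hg h4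

theorem sum_quot [Fintype H] [Fintype (H ⧸ L)] (g : H ⧸ L → ℂ) :
    ∑ x : H, g (x : H ⧸ L) = (Nat.card L : ℂ) * ∑ c : H ⧸ L, g c := by
  classical
  rw [← Finset.sum_fiberwise (s := Finset.univ) (g := fun x : H => (x : H ⧸ L)), Finset.mul_sum]
  apply Finset.sum_congr rfl
  intro c _
  rw [Finset.sum_congr rfl (g := fun _ => g c)]
  · rw [Finset.sum_const, nsmul_eq_mul]
    congr 2
    rw [← Fintype.card_subtype, ← Nat.card_eq_fintype_card]
    apply Nat.card_congr
    refine ⟨fun x => ⟨c.out⁻¹ * x.1, ?_⟩, fun l => ⟨c.out * l, ?_⟩, ?_, ?_⟩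
    · rw [← QuotientGroup.eq, QuotientGroup.out_eq', x.2]
    · rw [QuotientGroup.mk_mul, QuotientGroup.out_eq', (QuotientGroup.eq_one_iff (l : H)).2 l.2,
        mul_one]
    · intro x
      apply Subtype.ext
      simp
    · intro l
      apply Subtype.ext
      simp
  · intro x hx
    rw [Finset.mem_filter] at hx
    rw [hx.2]

theorem st_iff (hC : IbcStmt) (hF : GoodF ℓ F) {x : H} {φ : IBr F L} :
    St (x : H ⧸ L) φ ↔ ∀ l, φ.1 (MulAut.conjNormal x l) = φ.1 l := by
  rw [st_mk]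
  constructor
  · rintro ⟨X, hX⟩ l
    have h1 := hX.trace_eq l
    rwa [repOf_tr] at h1
  · intro h
    exact exists_imp hC hF (repOf_irr φ) (by rw [repOf_tr]; exact h)

theorem cIBr_eq_iff {y : H} {φ : IBr F L} :
    cIBr y φ = φ ↔ ∀ l, φ.1 (MulAut.conjNormal y l) = φ.1 l := by
  constructor
  · intro h l
    have h1 := congrFun (congrArg Subtype.val h) (MulAut.conjNormal y l)
    rw [cIBr_apply] at h1
    have e1 : MulAut.conjNormal y⁻¹ (MulAut.conjNormal y l) = l := by
      ext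
      simp [mul_assoc]
    rw [e1] at h1
    exact h1.symm
  · intro h
    apply Subtype.ext
    funext l
    rw [cIBr_apply, ← h]
    have e1 : MulAut.conjNormal y (MulAut.conjNormal y⁻¹ l) = l := by
      ext
      simp [mul_assoc]
    rw [e1]

theorem quot_comm {x y : H} :
    (y : H ⧸ L) * (x : H ⧸ L) * (y : H ⧸ L)⁻¹ = (x : H ⧸ L) ↔ x * y * x⁻¹ * y⁻¹ ∈ L := by
  rw [← QuotientGroup.eq_one_iff, QuotientGroup.mk_mul, QuotientGroup.mk_mul, QuotientGroup.mk_mul,
    QuotientGroup.mk_inv, QuotientGroup.mk_inv, mul_inv_eq_iff_eq_mul, mul_inv_eq_one,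
    mul_inv_eq_iff_eq_mul]
  exact eq_comm

theorem csum_eq (τ : F → ℂ) [Fintype (IBr F L)] (x y : H) :
    csum τ L a x y = ∑ φ : IBr F L, (open Classical in if φ.1 ∈ phiSet L a x y then
      τ (tc L φ.1 x y) else 0) := by
  classical
  have h1 : csum τ L a x y = ∑ᶠ φ ∈ IBr F L, (if φ ∈ phiSet L a x y then
      τ (tc L φ x y) else 0) := by
    unfold csum
    apply finsum_congr
    intro φ
    by_cases h : φ ∈ phiSet L a x y
    · rw [finsum_eq_if, finsum_eq_if, if_pos h, if_pos h.1]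
    · rw [finsum_eq_if, finsum_eq_if, if_neg h]
      split_ifs <;> rfl
  rw [h1, ← finsum_set_coe_eq_finsum_mem, finsum_eq_sum_of_fintype]

/-- an index -/
def mkIdx (c : H ⧸ L) (φ : IBr F L)
    (h : Reg ℓ c ∧ St c φ ∧ actF (fun t : L => a t) φ.1 = φ.1) : Idx ℓ L a := ⟨(c, φ), h⟩

/-- **CL**: the counting lemma. -/
theorem cl_of_hyp (hy : Hyp ℓ F) {τ : F → ℂ} (hτ : IsLift τ) (ha : IsCl a)
    (haL : ∀ h, h ∉ L → a h = 0) :
    (Nat.card H : ℂ) * Nat.card L * ({θ : H → F | θ ∈ IBr F H ∧ actF a θ = θ}.ncard : ℂ) =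
      ∑ᶠ (x : H) (y : H) (_ : Reg ℓ (x : H ⧸ L) ∧ x * y * x⁻¹ * y⁻¹ ∈ L), csum τ L a x y := by
  classical
  let _ := idxAction hy (L := L) ha
  have := finite_idx (L := L) (a := a) hy
  have := Fintype.ofFinite (Idx ℓ L a)
  have := finite_ibr (L := L) hy
  have := Fintype.ofFinite (IBr F L)
  have := Fintype.ofFinite H
  have := Fintype.ofFinite (H ⧸ L)
  have h1 := card_mul_finrank (uu_coc hy (L := L) (a := a) ha) τ hτ.one hτ.mul hτ.inj
  rw [finrank_monoInv_eq hy ha haL] at h1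
  -- the summand
  let G : H → H → ℂ := fun x y => if Reg ℓ (x : H ⧸ L) ∧ x * y * x⁻¹ * y⁻¹ ∈ L then
    csum τ L a x y else 0
  have hR : ∑ᶠ (x : H) (y : H) (_ : Reg ℓ (x : H ⧸ L) ∧ x * y * x⁻¹ * y⁻¹ ∈ L), csum τ L a x y =
      ∑ x : H, ∑ y : H, G x y := by
    rw [finsum_eq_sum_of_fintype]
    apply Finset.sum_congr rfl
    intro x _
    rw [finsum_eq_sum_of_fintype]
    apply Finset.sum_congr rfl
    intro y _
    rw [finsum_eq_if]
  -- the left side
  let e : H → H ⧸ L → IBr F L → ℂ := fun y c φ =>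
    if h : Reg ℓ c ∧ St c φ ∧ actF (fun t : L => a t) φ.1 = φ.1 then
      (if y • (mkIdx c φ h) = mkIdx c φ h then τ (uu hy y⁻¹ (mkIdx c φ h)) else 0) else 0
  have hL : ∑ᶠ (y : H) (i : Idx ℓ L a) (_ : y • i = i), τ (uu hy y i) =
      ∑ y : H, ∑ c : H ⧸ L, ∑ φ : IBr F L, e y c φ := by
    rw [finsum_eq_sum_of_fintype, ← Equiv.sum_comp (Equiv.inv H)]
    apply Finset.sum_congr rfl
    intro y _
    rw [finsum_eq_sum_of_fintype, ← Fintype.sum_prod_type']
    have e1 : ∀ i : Idx ℓ L a, ∑ᶠ (_ : (Equiv.inv H y) • i = i), τ (uu hy (Equiv.inv H y) i) =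
        if y • i = i then τ (uu hy y⁻¹ i) else 0 := by
      intro i
      rw [finsum_eq_if]
      have : ((Equiv.inv H y) • i = i) ↔ (y • i = i) := by
        rw [Equiv.inv_apply, inv_smul_eq_iff, eq_comm]
      simp only [this]
      rfl
    simp only [e1]
    apply Fintype.sum_of_injective (fun i : Idx ℓ L a => i.1) Subtype.val_injective
    · intro q hq
      have : ¬ (Reg ℓ q.1 ∧ St q.1 q.2 ∧ actF (fun t : L => a t) q.2.1 = q.2.1) := by
        intro h
        exact hq ⟨⟨q, h⟩, rfl⟩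
      exact dif_neg this
    · intro i
      have : e y i.1.1 i.1.2 = if y • i = i then τ (uu hy y⁻¹ i) else 0 := dif_pos i.2
      exact this.symm
  have hG : ∀ x y : H, G x y = ∑ φ : IBr F L, e y (x : H ⧸ L) φ := by
    intro x y
    by_cases hxy : Reg ℓ (x : H ⧸ L) ∧ x * y * x⁻¹ * y⁻¹ ∈ L
    · have e1 : G x y = csum τ L a x y := if_pos hxy
      rw [e1, csum_eq]
      apply Finset.sum_congr rfl
      intro φ _
      by_cases hφ : φ.1 ∈ phiSet L a x y
      · rw [if_pos hφ]
        have hh : Reg ℓ (x : H ⧸ L) ∧ St (x : H ⧸ L) φ ∧ actF (fun t : L => a t) φ.1 = φ.1 :=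
          ⟨hxy.1, (st_iff hy.ibc hy.hF).2 hφ.2.2.1, hφ.2.1⟩
        have hfix : y • (mkIdx (x : H ⧸ L) φ hh) = mkIdx (x : H ⧸ L) φ hh := by
          apply Subtype.ext
          apply Prod.ext
          · exact quot_comm.2 hxy.2
          · exact cIBr_eq_iff.2 hφ.2.2.2
        show _ = (if h : _ then _ else _)
        rw [dif_pos hh, if_pos hfix, uu_eq hy ha (mkIdx (x : H ⧸ L) φ hh) x y rfl hfix hxy.2
          hφ.2.2.1 hφ.2.2.2]
        rfl
      · rw [if_neg hφ]
        show _ = (if h : _ then _ else _)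
        by_cases hh : Reg ℓ (x : H ⧸ L) ∧ St (x : H ⧸ L) φ ∧ actF (fun t : L => a t) φ.1 = φ.1
        · rw [dif_pos hh, if_neg]
          intro hfix
          apply hφ
          have h2 := congrArg (fun q : Idx ℓ L a => q.1.2) hfix
          exact ⟨φ.2, hh.2.2, (st_iff hy.ibc hy.hF).1 hh.2.1, cIBr_eq_iff.1 h2⟩
        · rw [dif_neg hh]
    · have e1 : G x y = 0 := if_neg hxy
      rw [e1]
      symm
      apply Finset.sum_eq_zero
      intro φ _
      show (if h : _ then _ else _) = _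
      by_cases hh : Reg ℓ (x : H ⧸ L) ∧ St (x : H ⧸ L) φ ∧ actF (fun t : L => a t) φ.1 = φ.1
      · rw [dif_pos hh, if_neg]
        intro hfix
        apply hxy
        have h2 := congrArg (fun q : Idx ℓ L a => q.1.1) hfix
        exact ⟨hh.1, quot_comm.1 h2⟩
      · rw [dif_neg hh]
  rw [hR]
  have h2 : ∑ x : H, ∑ y : H, G x y = (Nat.card L : ℂ) * ∑ c : H ⧸ L, ∑ y : H, ∑ φ : IBr F L, e y c φ := by
    rw [← sum_quot (fun c => ∑ y : H, ∑ φ : IBr F L, e y c φ)]
    apply Finset.sum_congr rfl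
    intro x _
    apply Finset.sum_congr rfl
    intro y _
    exact hG x y
  rw [h2, Finset.sum_comm, ← hL, ← h1]
  ring

theorem cl (h1 : IbfStmt) (h2 : IbcStmt) (h3 : IbjStmt) (h4 : IbnStmt) (h5 : EigStmt)
    (h6 : BrtStmt) : ClStmt := by
  intro ℓ F _ hF τ hτ H _ _ L _ a ha haL
  exact cl_of_hyp ⟨hF, h1, h2, h3, h4, h5, h6⟩ hτ ha haL

end Pool.Agent.Helper58_CL
end
end -- Pool.Agent.Helper58_CL.Fin
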