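import Pool.Agent.Helper94_PP.StmtsKR

/-!
# Merged copies (generated) of the modules

* `Pool.Agent.Helper20_PP.Sim`
* `Pool.Agent.Helper20_PP.Ibr`
-/

set_option autoImplicit false

section -- Pool.Agent.Helper20_PP.Sim

/-!
AWC, base: trace functions of the simple modules of a finite dimensional algebra over an
algebraically closed field.
-/

open scoped BigOperators

noncomputable section

namespace Pool.Agent.PP.H20

variable (F : Type) [Field F]

/-- the trace functions of the surjections of `A` onto matrix algebras -/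
def Sim (A : Type) [Ring A] [Algebra F A] : Set (A → F) :=
  {τ | ∃ (n : ℕ) (ρ : A →ₐ[F] Matrix (Fin n) (Fin n) F), 0 < n ∧ Function.Surjective ρ ∧
    ∀ a, τ a = (ρ a).trace}

variable {F}

variable {A : Type} [Ring A] [Algebra F A]

theorem sim_of_end {V : Type} [AddCommGroup V] [Module F V] [FiniteDimensional F V]
    [Nontrivial V] (ρ : A →ₐ[F] Module.End F V) (h : Function.Surjective ρ) :
    (fun a => LinearMap.trace F V (ρ a)) ∈ Sim F A := by
  have b := Module.finBasis F V
  refine ⟨Module.finrank F V, ((LinearMap.toMatrixAlgEquiv b).toAlgHom.comp ρ), ?_, ?_, ?_⟩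
  · exact Module.finrank_pos
  · exact (LinearMap.toMatrixAlgEquiv b).surjective.comp h
  · intro a
    show LinearMap.trace F V (ρ a) = ((LinearMap.toMatrixAlgEquiv b) (ρ a)).trace
    rw [LinearMap.trace_eq_matrix_trace F b]
    rfl

theorem mat_gen {n : ℕ} (M : Matrix (Fin n) (Fin n) F) (h : M ≠ 0) :
    ∃ (i j : Fin n), M i j ≠ 0 ∧
      ∑ p, Matrix.single p i (M i j)⁻¹ * M * Matrix.single j p 1 = 1 := by
  obtain ⟨i, j, hij⟩ : ∃ i j, M i j ≠ 0 := by
    by_contra hc
    push Not at hc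
    exact h (Matrix.ext hc)
  refine ⟨i, j, hij, ?_⟩
  simp only [Matrix.single_mul_mul_single, mul_one, inv_mul_cancel₀ hij]
  ext a b
  simp only [Matrix.sum_apply, Matrix.single_apply, Matrix.one_apply]
  by_cases hab : a = b
  · subst hab
    simp
  · rw [if_neg hab]
    apply Finset.sum_eq_zero
    intro p _
    rw [if_neg]
    rintro ⟨rfl, rfl⟩
    exact hab rfl

/-- A surjection onto a matrix algebra kills the nilpotent two sided ideals. -/
theorem surj_nil {n : ℕ} (hn : 0 < n) (ρ : A →ₐ[F] Matrix (Fin n) (Fin n) F)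
    (h : Function.Surjective ρ) (J : Ideal A) [J.IsTwoSided] (hJ : ∀ a ∈ J, IsNilpotent a) (a : A)
    (ha : a ∈ J) : ρ a = 0 := by
  have : NeZero n := ⟨hn.ne'⟩
  by_contra hne
  obtain ⟨i, j, -, hs⟩ := mat_gen _ hne
  choose g hg using h
  have hb : ∑ p, g (Matrix.single p i (ρ a i j)⁻¹) * a * g (Matrix.single j p 1) ∈ J := by
    apply Submodule.sum_mem
    intro p _
    exact J.mul_mem_right _ (J.mul_mem_left _ ha)
  obtain ⟨k, hk⟩ := hJ _ hb
  have h1 := congrArg ρ hk
  rw [map_pow, map_sum] at h1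
  simp only [map_mul, hg, hs, one_pow, map_zero] at h1
  exact one_ne_zero h1

theorem comm_scalar {n : ℕ} (M : Matrix (Fin n) (Fin n) F) (h : ∀ N, N * M = M * N) :
    ∃ c : F, M = c • 1 := by
  have h1 : M ∈ Set.range (Matrix.scalar (Fin n)) := by
    rw [Matrix.mem_range_scalar_iff_commute_single']
    intro i j
    exact h _
  obtain ⟨c, rfl⟩ := h1
  exact ⟨c, by rw [Matrix.scalar_apply, Matrix.smul_one_eq_diagonal]⟩

/-- an algebra isomorphism of matrix algebras is a conjugation -/
theorem equiv_conj {m n : ℕ} (f : Matrix (Fin m) (Fin m) F ≃ₐ[F] Matrix (Fin n) (Fin n) F) :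
    ∃ (X : Matrix (Fin n) (Fin m) F) (Y : Matrix (Fin m) (Fin n) F), n = m ∧ X * Y = 1 ∧
      Y * X = 1 ∧ ∀ x, X * x = f x * X := by
  let g : Module.End F (Fin m → F) ≃ₐ[F] Module.End F (Fin n → F) :=
    (Matrix.toLinAlgEquiv' (R := F) (n := Fin m)).symm.trans
      (f.trans (Matrix.toLinAlgEquiv' (R := F) (n := Fin n)))
  obtain ⟨T, hT⟩ := AlgEquiv.eq_linearEquivConjAlgEquiv g
  have h1 : ∀ x, Matrix.toLin' (f x) = T.toLinearMap ∘ₗ Matrix.toLin' x ∘ₗ T.symm.toLinearMap := by
    intro x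
    have h2 : Matrix.toLinAlgEquiv' (f x) = g (Matrix.toLinAlgEquiv' x) := by
      show _ = Matrix.toLinAlgEquiv' (f (Matrix.toLinAlgEquiv'.symm (Matrix.toLinAlgEquiv' x)))
      rw [AlgEquiv.symm_apply_apply]
    rw [hT] at h2
    exact h2
  refine ⟨LinearMap.toMatrix' T.toLinearMap, LinearMap.toMatrix' T.symm.toLinearMap, ?_, ?_, ?_, ?_⟩
  · have := T.finrank_eq
    simpa using this.symm
  · rw [← LinearMap.toMatrix'_comp, LinearEquiv.comp_coe, LinearEquiv.symm_trans_self]
    exact LinearMap.toMatrix'_id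
  · rw [← LinearMap.toMatrix'_comp, LinearEquiv.comp_coe, LinearEquiv.self_trans_symm]
    exact LinearMap.toMatrix'_id
  · intro x
    have h2 := congrArg LinearMap.toMatrix' (h1 x)
    rw [LinearMap.toMatrix'_toLin'] at h2
    rw [h2, ← LinearMap.toMatrix'_comp]
    have h3 : (LinearMap.toMatrix' T.toLinearMap) * x =
        LinearMap.toMatrix' (T.toLinearMap ∘ₗ Matrix.toLin' x) := by
      rw [LinearMap.toMatrix'_comp, LinearMap.toMatrix'_toLin']
    rw [h3]
    congr 1
    ext v
    simp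

/-- an algebra isomorphism of matrix algebras preserves the trace -/
theorem trace_equiv {m n : ℕ} (f : Matrix (Fin m) (Fin m) F ≃ₐ[F] Matrix (Fin n) (Fin n) F)
    (x : Matrix (Fin m) (Fin m) F) : (f x).trace = x.trace := by
  let g : Module.End F (Fin m → F) ≃ₐ[F] Module.End F (Fin n → F) :=
    (Matrix.toLinAlgEquiv' (R := F) (n := Fin m)).symm.trans
      (f.trans (Matrix.toLinAlgEquiv' (R := F) (n := Fin n)))
  obtain ⟨T, hT⟩ := AlgEquiv.eq_linearEquivConjAlgEquiv g
  have h1 : Matrix.toLinAlgEquiv' (f x) = g (Matrix.toLinAlgEquiv' x) := by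
    show _ = Matrix.toLinAlgEquiv' (f (Matrix.toLinAlgEquiv'.symm (Matrix.toLinAlgEquiv' x)))
    rw [AlgEquiv.symm_apply_apply]
  have h2 : LinearMap.trace F _ (Matrix.toLinAlgEquiv' (f x)) =
      LinearMap.trace F _ (Matrix.toLinAlgEquiv' x) := by
    rw [h1, hT]
    exact LinearMap.trace_conj' _ T
  have h3 : ∀ {k : ℕ} (y : Matrix (Fin k) (Fin k) F),
      LinearMap.trace F _ (Matrix.toLinAlgEquiv' y) = y.trace := by
    intro k y
    have := Matrix.trace_toLin'_eq y
    exact this
  rw [h3, h3] at h2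
  exact h2

/-- structure theorem -/
theorem sim_struct (A : Type) [Ring A] [Algebra F A] [IsAlgClosed F] [FiniteDimensional F A] :
    ∃ (n : ℕ) (d : Fin n → ℕ) (π : A →ₐ[F] Π i, Matrix (Fin (d i)) (Fin (d i)) F),
      (∀ i, 0 < d i) ∧ Function.Surjective π ∧ (∀ a, π a = 0 ↔ a ∈ Ring.jacobson A) ∧
      (∀ (m : ℕ) (ρ : A →ₐ[F] Matrix (Fin m) (Fin m) F), 0 < m → Function.Surjective ρ →
        ∃ i, (∀ a, (ρ a).trace = (π a i).trace) ∧ ∀ a, ρ a = 0 ↔ π a i = 0) := by
  have : IsArtinianRing A := IsArtinianRing.of_finite F A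
  obtain ⟨n, d, hd, ⟨e⟩⟩ := IsSemisimpleRing.exists_algEquiv_pi_matrix_of_isAlgClosed F
    (A ⧸ Ring.jacobson A)
  let q : A →ₐ[F] A ⧸ Ring.jacobson A := Ideal.Quotient.mkₐ F (Ring.jacobson A)
  have hq : Function.Surjective q := Ideal.Quotient.mkₐ_surjective F _
  have hq0 : ∀ a, q a = 0 ↔ a ∈ Ring.jacobson A := fun a => Ideal.Quotient.eq_zero_iff_mem
  let π : A →ₐ[F] Π i, Matrix (Fin (d i)) (Fin (d i)) F := e.toAlgHom.comp q
  have hπ : Function.Surjective π := e.surjective.comp hq
  have hπ0 : ∀ a, π a = 0 ↔ a ∈ Ring.jacobson A := by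
    intro a
    rw [← hq0]
    show e (q a) = 0 ↔ _
    exact map_eq_zero_iff e e.injective
  refine ⟨n, d, π, fun i => Nat.pos_of_ne_zero (hd i).out, hπ, hπ0, ?_⟩
  intro m ρ hm hρ
  have : NeZero m := ⟨hm.ne'⟩
  have hnil : ∀ a ∈ Ring.jacobson A, IsNilpotent a := by
    intro a ha
    obtain ⟨k, hk⟩ := IsSemiprimaryRing.isNilpotent (R := A)
    refine ⟨k, ?_⟩
    have := Ideal.pow_mem_pow ha k
    rw [hk] at this
    exact this
  have hker : ∀ a, π a = 0 → ρ a = 0 := fun a ha => surj_nil hm ρ hρ _ hnil a ((hπ0 a).1 ha)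
  choose s hs using hπ
  have hρs : ∀ a, ρ (s (π a)) = ρ a := by
    intro a
    have h1 : π (s (π a) - a) = 0 := by rw [map_sub, hs, sub_self]
    have h2 := hker _ h1
    rw [map_sub, sub_eq_zero] at h2
    exact h2
  -- the central idempotents
  let ε : Fin n → Π i, Matrix (Fin (d i)) (Fin (d i)) F := fun i => Pi.single i 1
  have hε1 : ∑ i, ε i = 1 := by
    funext j
    rw [Finset.sum_apply]
    exact Finset.univ_sum_single (1 : Π i, Matrix (Fin (d i)) (Fin (d i)) F) |> fun h => by
      have := congrFun h j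
      rw [Finset.sum_apply] at this
      exact this
  have hεc : ∀ i, ∃ c : F, ρ (s (ε i)) = c • 1 := by
    intro i
    apply comm_scalar
    intro N
    obtain ⟨a, rfl⟩ := hρ N
    rw [← map_mul, ← map_mul, ← hρs (a * s (ε i)), ← hρs (s (ε i) * a), map_mul, map_mul, hs]
    congr 2
    funext j
    simp only [Pi.mul_apply, ε]
    by_cases hij : j = i
    · subst hij; rw [Pi.single_eq_same, mul_one, one_mul]
    · rw [Pi.single_eq_of_ne hij, mul_zero, zero_mul]
  have hsum : ∑ i, ρ (s (ε i)) = 1 := by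
    rw [← map_sum, ← hρs, map_sum]
    simp only [hs]
    rw [hε1]
    have := hρs 1
    rw [map_one] at this
    rw [this, map_one]
  obtain ⟨i, hi⟩ : ∃ i, ρ (s (ε i)) ≠ 0 := by
    by_contra hc
    push Not at hc
    rw [Finset.sum_eq_zero (fun i _ => hc i)] at hsum
    exact zero_ne_one hsum
  have hi1 : ρ (s (ε i)) = 1 := by
    obtain ⟨c, hc⟩ := hεc i
    have h1 : ρ (s (ε i)) * ρ (s (ε i)) = ρ (s (ε i)) := by
      rw [← map_mul, ← hρs, map_mul, hs]
      congr 2
      funext j
      simp only [Pi.mul_apply, ε]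
      by_cases hij : j = i
      · subst hij; rw [Pi.single_eq_same, mul_one]
      · rw [Pi.single_eq_of_ne hij, mul_zero]
    rw [hc] at h1 hi ⊢
    rw [smul_mul_smul_comm, one_mul] at h1
    have h2 : c * c = c := by
      have := congrFun (congrFun h1 0) 0
      simpa using this
    have h3 : c ≠ 0 := by
      rintro rfl
      exact hi (zero_smul _ _)
    have h4 : c = 1 := by
      have := mul_left_cancel₀ h3 (h2.trans (mul_one c).symm)
      exact this
    rw [h4, one_smul]
  have hfac : ∀ a, ρ a = ρ (s (Pi.single i (π a i))) := by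
    intro a
    calc ρ a = ρ a * ρ (s (ε i)) := by rw [hi1, mul_one]
      _ = ρ (a * s (ε i)) := (map_mul _ _ _).symm
      _ = ρ (s (π (a * s (ε i)))) := (hρs _).symm
      _ = ρ (s (Pi.single i (π a i))) := by
        rw [map_mul, hs]
        congr 2
        funext j
        simp only [Pi.mul_apply, ε]
        by_cases hij : j = i
        · subst hij; rw [Pi.single_eq_same, mul_one, Pi.single_eq_same]
        · rw [Pi.single_eq_of_ne hij, mul_zero, Pi.single_eq_of_ne hij]
  have hval : ∀ u a, π a = u → ρ (s u) = ρ a := by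
    rintro u a rfl
    exact hρs a
  let L : Matrix (Fin (d i)) (Fin (d i)) F →ₗ[F] Matrix (Fin m) (Fin m) F :=
    { toFun := fun x => ρ (s (Pi.single i x))
      map_add' := by
        intro x y
        rw [← map_add]
        apply hval
        rw [map_add, hs, hs, Pi.single_add]
      map_smul' := by
        intro c x
        rw [RingHom.id_apply, ← map_smul]
        apply hval
        rw [map_smul, hs, Pi.single_smul] }
  let σ : Matrix (Fin (d i)) (Fin (d i)) F →ₐ[F] Matrix (Fin m) (Fin m) F :=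
    AlgHom.ofLinearMap L hi1 (by
      intro x y
      show ρ (s (Pi.single i (x * y))) = ρ (s (Pi.single i x)) * ρ (s (Pi.single i y))
      rw [← map_mul]
      apply hval
      rw [map_mul, hs, hs]
      funext j
      rw [Pi.mul_apply]
      by_cases hij : j = i
      · subst hij; rw [Pi.single_eq_same, Pi.single_eq_same, Pi.single_eq_same]
      · rw [Pi.single_eq_of_ne hij, Pi.single_eq_of_ne hij, Pi.single_eq_of_ne hij, mul_zero])
  have hσ : ∀ a, ρ a = σ (π a i) := hfac
  have hσs : Function.Surjective σ := by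
    intro y
    obtain ⟨a, rfl⟩ := hρ y
    exact ⟨π a i, (hσ a).symm⟩
  have : NeZero (d i) := hd i
  have hσi : Function.Injective σ := by
    have h := RingHom.injective σ.toRingHom
    exact h
  let σe := AlgEquiv.ofBijective σ ⟨hσi, hσs⟩
  refine ⟨i, fun a => ?_, fun a => ?_⟩
  · rw [hσ a]
    exact trace_equiv σe _
  · rw [hσ a]
    exact map_eq_zero_iff σ hσi

theorem sim_ker {k l : ℕ} (σ : A →ₐ[F] Matrix (Fin k) (Fin k) F)
    (σ' : A →ₐ[F] Matrix (Fin l) (Fin l) F) (hs' : Function.Surjective σ')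
    (hh : ∀ a, (σ a).trace = (σ' a).trace) (a : A) (ha : σ a = 0) : σ' a = 0 := by
  apply Matrix.ext
  intro i j
  obtain ⟨b, hb⟩ := hs' (Matrix.single j i 1)
  have h1 := hh (a * b)
  rw [map_mul, ha, zero_mul, Matrix.trace_zero, map_mul, hb, Matrix.trace_mul_single,
    MulOpposite.op_one, one_smul] at h1
  rw [Matrix.zero_apply, h1]

/-- two surjections with the same trace have the same kernel and are conjugate -/
theorem sim_equiv {m n : ℕ} (ρ : A →ₐ[F] Matrix (Fin m) (Fin m) F)
    (ρ' : A →ₐ[F] Matrix (Fin n) (Fin n) F) (h : Function.Surjective ρ)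
    (h' : Function.Surjective ρ') (ht : ∀ a, (ρ a).trace = (ρ' a).trace) :
    ∃ f : Matrix (Fin m) (Fin m) F ≃ₐ[F] Matrix (Fin n) (Fin n) F, ∀ a, ρ' a = f (ρ a) := by
  choose s hs using h
  have hval : ∀ u a, ρ a = u → ρ' (s u) = ρ' a := by
    rintro u a rfl
    have h1 : ρ (s (ρ a) - a) = 0 := by rw [map_sub, hs, sub_self]
    have h2 := sim_ker ρ ρ' h' ht _ h1
    rw [map_sub, sub_eq_zero] at h2
    exact h2
  let L : Matrix (Fin m) (Fin m) F →ₗ[F] Matrix (Fin n) (Fin n) F :=
    { toFun := fun x => ρ' (s x)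
      map_add' := by
        intro x y
        rw [← map_add]
        apply hval
        rw [map_add, hs, hs]
      map_smul' := by
        intro c x
        rw [RingHom.id_apply, ← map_smul]
        apply hval
        rw [map_smul, hs] }
  let σ : Matrix (Fin m) (Fin m) F →ₐ[F] Matrix (Fin n) (Fin n) F :=
    AlgHom.ofLinearMap L (by
      show ρ' (s 1) = 1
      rw [hval 1 1 (map_one ρ), map_one]) (by
      intro x y
      show ρ' (s (x * y)) = ρ' (s x) * ρ' (s y)
      rw [← map_mul]
      apply hval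
      rw [map_mul, hs, hs])
  have hσ : ∀ a, ρ' a = σ (ρ a) := fun a => (hval _ a rfl).symm
  have hσs : Function.Surjective σ := by
    intro y
    obtain ⟨a, rfl⟩ := h' y
    exact ⟨ρ a, (hσ a).symm⟩
  have hσi : Function.Injective σ := by
    rw [injective_iff_map_eq_zero]
    intro x hx
    rw [← hs x]
    apply sim_ker ρ' ρ _ (fun a => (ht a).symm) (s x) hx
    intro y
    exact ⟨s y, hs y⟩
  exact ⟨AlgEquiv.ofBijective σ ⟨hσi, hσs⟩, hσ⟩

end Pool.Agent.PP.H20
end
end -- Pool.Agent.Helper20_PP.Sim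

section -- Pool.Agent.Helper20_PP.Ibr

/-!
IBF, IBC, IBJ, IBN, EIG: irreducible modular characters as functions.
-/

open scoped BigOperators

noncomputable section

namespace Pool.Agent.PP.H20

variable {F H : Type} [Field F] [Group H]

section ma

variable [Finite H]

/-- a function as an element of the group algebra -/
def toMA (a : H → F) : MonoidAlgebra F H := MonoidAlgebra.ofCoeff (Finsupp.equivFunOnFinite.symm a)

omit [Group H] in
theorem toMA_coeff (a : H → F) (h : H) : (toMA a).coeff h = a h := rfl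

omit [Group H] in
theorem toMA_injective : Function.Injective (toMA : (H → F) → MonoidAlgebra F H) := by
  intro a b hab
  funext h
  rw [← toMA_coeff a, hab, toMA_coeff]

omit [Group H] in
theorem toMA_eq (a : H → F) [Fintype H] : toMA a = ∑ h, MonoidAlgebra.single h (a h) := by
  apply MonoidAlgebra.coeff_injective
  rw [MonoidAlgebra.coeff_sum]
  ext g
  rw [toMA_coeff, Finsupp.finsetSum_apply, Finset.sum_eq_single g]
  · rw [MonoidAlgebra.coeff_single, Finsupp.single_eq_same]
  · intro h _ hne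
    rw [MonoidAlgebra.coeff_single, Finsupp.single_eq_of_ne (Ne.symm hne)]
  · intro h; exact absurd (Finset.mem_univ _) h

omit [Group H] in
theorem toMA_surjective : Function.Surjective (toMA : (H → F) → MonoidAlgebra F H) := by
  intro x
  refine ⟨fun h => x.coeff h, ?_⟩
  apply MonoidAlgebra.coeff_injective
  ext g
  rfl

/-- the linear equivalence -/
def maE : (H → F) ≃ₗ[F] MonoidAlgebra F H where
  toFun := toMA
  invFun x := fun h => x.coeff h
  left_inv _ := rfl
  right_inv x := by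
    apply MonoidAlgebra.coeff_injective
    ext g
    rfl
  map_add' a b := by
    apply MonoidAlgebra.coeff_injective
    ext g
    rfl
  map_smul' c a := by
    apply MonoidAlgebra.coeff_injective
    ext g
    rfl

instance finMA : FiniteDimensional F (MonoidAlgebra F H) := Module.Finite.equiv maE

theorem toMA_mulF (a b : H → F) : toMA (mulF a b) = toMA a * toMA b := by
  have := Fintype.ofFinite H
  apply MonoidAlgebra.coeff_injective
  ext g
  rw [toMA_coeff, mulF, finsum_eq_sum_of_fintype, toMA_eq a, toMA_eq b, Finset.sum_mul,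
    MonoidAlgebra.coeff_sum, Finsupp.finsetSum_apply]
  apply Finset.sum_congr rfl
  intro t _
  rw [Finset.mul_sum, MonoidAlgebra.coeff_sum, Finsupp.finsetSum_apply]
  simp only [MonoidAlgebra.single_mul_single, MonoidAlgebra.coeff_single]
  rw [Finset.sum_eq_single (t⁻¹ * g)]
  · rw [mul_inv_cancel_left, Finsupp.single_eq_same]
  · intro s _ hs
    rw [Finsupp.single_eq_of_ne]
    rintro rfl
    exact hs (by rw [inv_mul_cancel_left])
  · intro h; exact absurd (Finset.mem_univ _) h

theorem lift_toMA {n : ℕ} (ρ : H →* Matrix (Fin n) (Fin n) F) (a : H → F) :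
    MonoidAlgebra.lift F (Matrix (Fin n) (Fin n) F) H ρ (toMA a) = ev ρ a := by
  have := Fintype.ofFinite H
  rw [toMA_eq, map_sum, ev, finsum_eq_sum_of_fintype]
  simp only [MonoidAlgebra.lift_single]

theorem ev_mulF {n : ℕ} (ρ : H →* Matrix (Fin n) (Fin n) F) (a b : H → F) :
    ev ρ (mulF a b) = ev ρ a * ev ρ b := by
  rw [← lift_toMA, toMA_mulF, map_mul, lift_toMA, lift_toMA]

theorem lift_surjective {n : ℕ} (ρ : H →* Matrix (Fin n) (Fin n) F) :
    Function.Surjective (MonoidAlgebra.lift F (Matrix (Fin n) (Fin n) F) H ρ) ↔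
      Submodule.span F (Set.range ρ) = ⊤ := by
  have := Fintype.ofFinite H
  constructor
  · intro h
    rw [eq_top_iff]
    rintro x -
    obtain ⟨y, rfl⟩ := h x
    obtain ⟨a, rfl⟩ := toMA_surjective y
    rw [lift_toMA, ev, finsum_eq_sum_of_fintype]
    exact Submodule.sum_mem _ fun t _ => Submodule.smul_mem _ _ (Submodule.subset_span ⟨t, rfl⟩)
  · intro h x
    have hx : x ∈ Submodule.span F (Set.range ρ) := by rw [h]; trivial
    have : Submodule.span F (Set.range ρ) ≤
        LinearMap.range (MonoidAlgebra.lift F (Matrix (Fin n) (Fin n) F) H ρ).toLinearMap := by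
      rw [Submodule.span_le]
      rintro _ ⟨t, rfl⟩
      exact ⟨MonoidAlgebra.single t 1, by
        show MonoidAlgebra.lift F _ H ρ (MonoidAlgebra.single t 1) = _
        rw [MonoidAlgebra.lift_single, one_smul]⟩
    obtain ⟨y, hy⟩ := this hx
    exact ⟨y, hy⟩

/-- the representation of an algebra homomorphism -/
def ofAlg {n : ℕ} (Φ : MonoidAlgebra F H →ₐ[F] Matrix (Fin n) (Fin n) F) :
    H →* Matrix (Fin n) (Fin n) F := (MonoidAlgebra.lift F (Matrix (Fin n) (Fin n) F) H).symm Φ

theorem ofAlg_ev {n : ℕ} (Φ : MonoidAlgebra F H →ₐ[F] Matrix (Fin n) (Fin n) F) (a : H → F) :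
    ev (ofAlg Φ) a = Φ (toMA a) := by
  rw [← lift_toMA, ofAlg, Equiv.apply_symm_apply]

theorem ofAlg_irr {n : ℕ} (hn : 0 < n) (Φ : MonoidAlgebra F H →ₐ[F] Matrix (Fin n) (Fin n) F)
    (h : Function.Surjective Φ) : IsIrr (ofAlg Φ) := by
  refine ⟨hn, ?_⟩
  rw [← lift_surjective, ofAlg, Equiv.apply_symm_apply]
  exact h

omit [Finite H] in
theorem ev_trace {n : ℕ} (ρ : H →* Matrix (Fin n) (Fin n) F) (a : H → F) [Fintype H] :
    (ev ρ a).trace = ∑ t, a t * tr ρ t := by
  rw [ev, finsum_eq_sum_of_fintype, Matrix.trace_sum]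
  apply Finset.sum_congr rfl
  intro t _
  rw [Matrix.trace_smul]
  rfl

theorem actF_tr {n : ℕ} (ρ : H →* Matrix (Fin n) (Fin n) F) (a : H → F) (x : H) :
    actF a (tr ρ) x = (ev ρ a * ρ x).trace := by
  have := Fintype.ofFinite H
  rw [actF, finsum_eq_sum_of_fintype, ev, finsum_eq_sum_of_fintype, Finset.sum_mul,
    Matrix.trace_sum]
  apply Finset.sum_congr rfl
  intro t _
  rw [tr, map_mul, Matrix.smul_mul, Matrix.trace_smul]
  rfl

end ma

/-- the structure theorem for the group algebra -/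
theorem ibr_struct [Finite H] [IsAlgClosed F] :
    ∃ (n : ℕ) (d : Fin n → ℕ) (π : MonoidAlgebra F H →ₐ[F] Π i, Matrix (Fin (d i)) (Fin (d i)) F)
      (ρ : ∀ i, H →* Matrix (Fin (d i)) (Fin (d i)) F),
      Function.Surjective π ∧ (∀ a, π a = 0 → IsNilpotent a) ∧ (∀ i, IsIrr (ρ i)) ∧
      (∀ i a, ev (ρ i) a = π (toMA a) i) ∧
      (∀ (m : ℕ) (σ : H →* Matrix (Fin m) (Fin m) F), IsIrr σ →
        ∃ i, tr σ = tr (ρ i) ∧ ∀ a, ev σ a = 0 ↔ ev (ρ i) a = 0) ∧
      Function.Injective (fun i => tr (ρ i)) := by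
  have hF := Fintype.ofFinite H
  obtain ⟨n, d, π, hd, hπ, hker, hall⟩ := sim_struct (F := F) (MonoidAlgebra F H)
  let φ : ∀ i, MonoidAlgebra F H →ₐ[F] Matrix (Fin (d i)) (Fin (d i)) F := fun i =>
    (Pi.evalAlgHom F (fun i => Matrix (Fin (d i)) (Fin (d i)) F) i).comp π
  have hφ : ∀ i, Function.Surjective (φ i) := by
    intro i y
    obtain ⟨x, hx⟩ := hπ (Pi.single i y)
    refine ⟨x, ?_⟩
    show π x i = y
    rw [hx, Pi.single_eq_same]
  refine ⟨n, d, π, fun i => ofAlg (φ i), hπ, ?_, fun i => ofAlg_irr (hd i) _ (hφ i),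
    fun i a => ofAlg_ev _ _, ?_, ?_⟩
  · intro a ha
    have h1 := (hker a).1 ha
    have : IsArtinianRing (MonoidAlgebra F H) := IsArtinianRing.of_finite F _
    obtain ⟨k, hk⟩ := IsSemiprimaryRing.isNilpotent (R := MonoidAlgebra F H)
    refine ⟨k, ?_⟩
    have := Ideal.pow_mem_pow h1 k
    rw [hk] at this
    exact this
  · intro m σ hσ
    obtain ⟨i, hi, hi'⟩ := hall m (MonoidAlgebra.lift F _ H σ) hσ.1 ((lift_surjective σ).2 hσ.2)
    refine ⟨i, ?_, ?_⟩
    · funext h
      have h1 := hi (MonoidAlgebra.single h 1)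
      rw [MonoidAlgebra.lift_single, one_smul] at h1
      rw [tr, h1]
      rfl
    · intro a
      rw [← lift_toMA, hi', ofAlg_ev]
      rfl
  · intro i j hij
    by_contra hne
    -- an element with different traces
    obtain ⟨x, hx⟩ := hπ (Pi.single i (Matrix.single ⟨0, hd i⟩ ⟨0, hd i⟩ 1))
    obtain ⟨a, rfl⟩ := toMA_surjective x
    have h1 : (ev (ofAlg (φ i)) a).trace = 1 := by
      rw [ofAlg_ev]
      show (π (toMA a) i).trace = 1
      rw [hx, Pi.single_eq_same, Matrix.trace_single_eq_same]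
    have h2 : (ev (ofAlg (φ j)) a).trace = 0 := by
      rw [ofAlg_ev]
      show (π (toMA a) j).trace = 0
      rw [hx, Pi.single_eq_of_ne (Ne.symm hne), Matrix.trace_zero]
    rw [ev_trace] at h1 h2
    have h3 : tr (ofAlg (φ i)) = tr (ofAlg (φ j)) := hij
    rw [h3, h2] at h1
    exact zero_ne_one h1

theorem ibf : IbfStmt := by
  intro ℓ F _ hF H _ _
  have := hF.closed
  have hfin := Fintype.ofFinite H
  obtain ⟨n, d, π, ρ, hπ, -, hirr, hev, hall, hinj⟩ := ibr_struct (F := F) (H := H)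
  have hrange : IBr F H = Set.range (fun i => tr (ρ i)) := by
    ext f
    constructor
    · rintro ⟨m, σ, hσ, rfl⟩
      obtain ⟨i, hi, -⟩ := hall m σ hσ
      exact ⟨i, hi.symm⟩
    · rintro ⟨i, rfl⟩
      exact ⟨d i, ρ i, hirr i, rfl⟩
  have hli : LinearIndependent F (fun i => tr (ρ i)) := by
    rw [Fintype.linearIndependent_iff]
    intro g hg i
    obtain ⟨x, hx⟩ := hπ (Pi.single i (Matrix.single ⟨0, (hirr i).1⟩ ⟨0, (hirr i).1⟩ 1))
    obtain ⟨a, rfl⟩ := toMA_surjective x
    have h1 : ∀ j, ∑ t, a t * tr (ρ j) t = if j = i then 1 else 0 := by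
      intro j
      rw [← ev_trace, hev, hx]
      by_cases hji : j = i
      · subst hji
        rw [Pi.single_eq_same, Matrix.trace_single_eq_same, if_pos rfl]
      · rw [Pi.single_eq_of_ne hji, Matrix.trace_zero, if_neg hji]
    have h2 : ∑ t, a t * (∑ j, g j • tr (ρ j)) t = 0 := by
      rw [hg]
      simp
    have h3 : ∑ t, a t * (∑ j, g j • tr (ρ j)) t = g i := by
      simp only [Finset.sum_apply, Pi.smul_apply, smul_eq_mul, Finset.mul_sum]
      rw [Finset.sum_comm]
      have : ∀ j, ∑ t, a t * (g j * tr (ρ j) t) = g j * if j = i then 1 else 0 := by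
        intro j
        rw [← h1 j, Finset.mul_sum]
        exact Finset.sum_congr rfl fun t _ => by ring
      rw [Finset.sum_congr rfl fun j _ => this j]
      simp
    rw [← h3, h2]
  constructor
  · rw [hrange]
    exact Set.finite_range _
  · rw [hrange]
    exact hli.linearIndepOn_id

theorem tr_lift [Finite H] {n m : ℕ} (ρ : H →* Matrix (Fin n) (Fin n) F)
    (σ : H →* Matrix (Fin m) (Fin m) F) (h : tr ρ = tr σ) (x : MonoidAlgebra F H) :
    (MonoidAlgebra.lift F (Matrix (Fin n) (Fin n) F) H ρ x).trace =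
      (MonoidAlgebra.lift F (Matrix (Fin m) (Fin m) F) H σ x).trace := by
  have := Fintype.ofFinite H
  obtain ⟨a, rfl⟩ := toMA_surjective x
  rw [lift_toMA, lift_toMA, ev_trace, ev_trace, h]

theorem ibc : IbcStmt := by
  intro ℓ F _ hF H _ _ n m ρ σ hρ hσ h
  obtain ⟨f, hf⟩ := sim_equiv _ _ ((lift_surjective ρ).2 hρ.2) ((lift_surjective σ).2 hσ.2)
    (tr_lift ρ σ h)
  obtain ⟨X, Y, h1, h2, h3, h4⟩ := equiv_conj f
  refine ⟨X, Y, h1.symm, h2, h3, ?_⟩
  intro t
  have h5 := hf (MonoidAlgebra.single t 1)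
  rw [MonoidAlgebra.lift_single, MonoidAlgebra.lift_single, one_smul, one_smul] at h5
  rw [h5, h4]

theorem ibj : IbjStmt := by
  intro ℓ F _ hF H _ _ ι _ n ρ hρ hinj B
  have := hF.closed
  have hι := Fintype.ofFinite ι
  obtain ⟨k, d, π, σ, hπ, -, hirr, hev, hall, hinj'⟩ := ibr_struct (F := F) (H := H)
  choose j hj hj' using fun i => hall (n i) (ρ i) (hρ i)
  have hjinj : Function.Injective j := by
    intro i i' h
    apply hinj
    show tr (ρ i) = tr (ρ i')
    rw [hj, hj, h]
  choose f hf using fun i => sim_equiv _ _ ((lift_surjective (σ (j i))).2 (hirr (j i)).2)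
    ((lift_surjective (ρ i)).2 (hρ i).2) (tr_lift (σ (j i)) (ρ i) (hj i).symm)
  obtain ⟨x, hx⟩ := hπ (∑ i, Pi.single (j i) ((f i).symm (B i)))
  obtain ⟨a, rfl⟩ := toMA_surjective x
  refine ⟨a, fun i => ?_⟩
  rw [← lift_toMA, hf, lift_toMA, hev, hx, Finset.sum_apply, Finset.sum_eq_single i]
  · rw [Pi.single_eq_same, AlgEquiv.apply_symm_apply]
  · intro i' _ hne
    rw [Pi.single_eq_of_ne]
    intro h
    exact hne (hjinj h.symm)
  · intro h; exact absurd (Finset.mem_univ _) h

theorem mulF_iterate [Finite H] (a b : H → F) (k : ℕ) :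
    toMA ((mulF a)^[k] b) = toMA a ^ k * toMA b := by
  induction k with
  | zero => simp
  | succ k ih => rw [Function.iterate_succ_apply', toMA_mulF, ih, pow_succ', mul_assoc]

theorem ibn : IbnStmt := by
  intro ℓ F _ hF H _ _ a ha
  have := hF.closed
  obtain ⟨k, d, π, σ, hπ, hnil, hirr, hev, hall, hinj'⟩ := ibr_struct (F := F) (H := H)
  obtain ⟨m, hm⟩ := hnil (toMA a) (by
    funext i
    rw [← hev, ha _ _ (hirr i), Pi.zero_apply])
  refine ⟨m, toMA_injective ?_⟩
  rw [mulF_iterate, hm, zero_mul]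
  exact (maE (F := F) (H := H)).map_zero.symm

theorem ev_class [Finite H] {n : ℕ} (ρ : H →* Matrix (Fin n) (Fin n) F) (a : H → F) (ha : IsCl a)
    (t : H) : ρ t * ev ρ a = ev ρ a * ρ t := by
  have := Fintype.ofFinite H
  rw [ev, finsum_eq_sum_of_fintype, Finset.mul_sum, Finset.sum_mul]
  rw [← Equiv.sum_comp (MulAut.conj t⁻¹).toEquiv]
  apply Finset.sum_congr rfl
  intro s _
  show ρ t * (a (t⁻¹ * s * t⁻¹⁻¹) • ρ (t⁻¹ * s * t⁻¹⁻¹)) = a s • ρ s * ρ t
  rw [ha, Matrix.mul_smul, Matrix.smul_mul, ← map_mul, ← map_mul]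
  congr 2
  group

theorem eig : EigStmt := by
  intro F _ H _ _ n ρ hρ a ha
  have hN : NeZero n := ⟨hρ.1.ne'⟩
  obtain ⟨w, hw⟩ := comm_scalar (ev ρ a) (by
    intro N
    have hN' : N ∈ Submodule.span F (Set.range ρ) := by rw [hρ.2]; trivial
    induction hN' using Submodule.span_induction with
    | mem x hx =>
      obtain ⟨t, rfl⟩ := hx
      exact ev_class ρ a ha t
    | zero => rw [zero_mul, mul_zero]
    | add x y _ _ hx hy => rw [add_mul, mul_add, hx, hy]
    | smul c x _ hx => rw [Matrix.smul_mul, Matrix.mul_smul, hx])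
  have hw' : ev ρ a = Matrix.scalar (Fin n) w := by
    rw [hw, Matrix.scalar_apply, Matrix.smul_one_eq_diagonal]
  refine ⟨w, hw', ?_, ?_⟩
  · funext x
    rw [actF_tr, hw, Matrix.smul_mul, one_mul, Matrix.trace_smul]
    rfl
  · intro hi
    have h1 : ev ρ a * ev ρ a = ev ρ a := by rw [← ev_mulF, hi.2]
    rw [hw, smul_mul_smul_comm, one_mul] at h1
    have h2 : w * w = w := by
      have := congrFun (congrFun h1 0) 0
      simpa using this
    by_cases h0 : w = 0
    · exact Or.inl h0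
    · right
      exact mul_left_cancel₀ h0 (h2.trans (mul_one w).symm)

end Pool.Agent.PP.H20
end
end -- Pool.Agent.Helper20_PP.Ibr
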