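import Pool.Agent.Helper12_AWB.B046
import Pool.Agent.Helper18_PP.StmtsDZ
import Pool.Agent.Helper94_PP.Bridge

/-!
# Merged copies (generated) of the modules

* `Pool.Agent.Helper33_PP.Gal`
* `Pool.Agent.Helper74_PP.Tens`
-/

set_option autoImplicit false

section -- Pool.Agent.Helper33_PP.Gal

/-!
# Squad PP, part DZ, module GAL: the correspondence of Gallagher
-/

open scoped BigOperators

noncomputable section

namespace Pool.Agent.PP.H33

open Pool.Agent.PP

section basic

variable {F H : Type} [Field F] [Group H] [Finite H]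

theorem ev_surj {n : ℕ} {ρ : H →* Matrix (Fin n) (Fin n) F} (hρ : IsIrr ρ)
    (B : Matrix (Fin n) (Fin n) F) : ∃ a : H → F, ev ρ a = B := by
  have hB : B ∈ Submodule.span F (Set.range ρ) := by
    rw [hρ.2]; trivial
  have := Fintype.ofFinite H
  rw [Submodule.mem_span_range_iff_exists_fun] at hB
  obtain ⟨c, hc⟩ := hB
  exact ⟨c, by rw [ev, finsum_eq_sum_of_fintype]; exact hc⟩

theorem ev_mem_span {n : ℕ} (ρ : H →* Matrix (Fin n) (Fin n) F) (a : H → F) :
    ev ρ a ∈ Submodule.span F (Set.range ρ) := by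
  have := Fintype.ofFinite H
  rw [ev, finsum_eq_sum_of_fintype]
  exact Submodule.sum_mem _ fun t _ => Submodule.smul_mem _ _ (Submodule.subset_span ⟨t, rfl⟩)

omit [Finite H] in
theorem kr_mul {n m : ℕ} (A A' : Matrix (Fin n) (Fin n) F) (B B' : Matrix (Fin m) (Fin m) F) :
    kr (A * A') (B * B') = kr A B * kr A' B' := by
  unfold kr
  have h := Matrix.mul_kronecker_mul A A' B B'
  rw [h, Matrix.reindex_apply, Matrix.reindex_apply, Matrix.reindex_apply,
    Matrix.submatrix_mul_equiv]

theorem kr_apply {n m : ℕ} (A : Matrix (Fin n) (Fin n) F) (B : Matrix (Fin m) (Fin m) F)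
    (i j : Fin (n * m)) : kr A B i j =
      A (finProdFinEquiv.symm i).1 (finProdFinEquiv.symm j).1 *
        B (finProdFinEquiv.symm i).2 (finProdFinEquiv.symm j).2 := rfl

theorem kr_one {n m : ℕ} : kr (1 : Matrix (Fin n) (Fin n) F) (1 : Matrix (Fin m) (Fin m) F) = 1 := by
  unfold kr
  have h := Matrix.one_kronecker_one (m := Fin n) (n := Fin m) (α := F)
  rw [h, Matrix.reindex_apply, Matrix.submatrix_one_equiv]

theorem kr_trace {n m : ℕ} (A : Matrix (Fin n) (Fin n) F) (B : Matrix (Fin m) (Fin m) F) :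
    (kr A B).trace = A.trace * B.trace := by
  unfold Matrix.trace
  rw [Finset.sum_mul_sum, ← Finset.sum_product', ← Equiv.sum_comp finProdFinEquiv,
    Finset.univ_product_univ]
  refine Finset.sum_congr rfl fun i _ => ?_
  rw [Matrix.diag_apply, kr_apply, Equiv.symm_apply_apply]
  rfl

theorem kr_add_left {n m : ℕ} (A A' : Matrix (Fin n) (Fin n) F) (B : Matrix (Fin m) (Fin m) F) :
    kr (A + A') B = kr A B + kr A' B := by
  ext i j
  simp only [kr_apply, Matrix.add_apply, add_mul]

theorem kr_add_right {n m : ℕ} (A : Matrix (Fin n) (Fin n) F) (B B' : Matrix (Fin m) (Fin m) F) :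
    kr A (B + B') = kr A B + kr A B' := by
  ext i j
  simp only [kr_apply, Matrix.add_apply, mul_add]

theorem kr_smul_left {n m : ℕ} (c : F) (A : Matrix (Fin n) (Fin n) F)
    (B : Matrix (Fin m) (Fin m) F) : kr (c • A) B = c • kr A B := by
  ext i j
  simp only [kr_apply, Matrix.smul_apply, smul_eq_mul, mul_assoc]

theorem kr_smul_right {n m : ℕ} (c : F) (A : Matrix (Fin n) (Fin n) F)
    (B : Matrix (Fin m) (Fin m) F) : kr A (c • B) = c • kr A B := by
  ext i j
  simp only [kr_apply, Matrix.smul_apply, smul_eq_mul]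
  ring

theorem kr_zero_left {n m : ℕ} (B : Matrix (Fin m) (Fin m) F) :
    kr (0 : Matrix (Fin n) (Fin n) F) B = 0 := by
  ext i j
  simp only [kr_apply, Matrix.zero_apply, zero_mul]

theorem kr_zero_right {n m : ℕ} (A : Matrix (Fin n) (Fin n) F) :
    kr A (0 : Matrix (Fin m) (Fin m) F) = 0 := by
  ext i j
  simp only [kr_apply, Matrix.zero_apply, mul_zero]

theorem top_of_kr {n m : ℕ} (S : Submodule F (Matrix (Fin (n * m)) (Fin (n * m)) F))
    (h : ∀ (A : Matrix (Fin n) (Fin n) F) (B : Matrix (Fin m) (Fin m) F), kr A B ∈ S) :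
    S = ⊤ := by
  classical
  rw [eq_top_iff]
  intro M _
  rw [Matrix.matrix_eq_sum_single M]
  refine Submodule.sum_mem _ fun i _ => Submodule.sum_mem _ fun j _ => ?_
  have e : Matrix.single i j (M i j) =
      kr (Matrix.single (finProdFinEquiv.symm i).1 (finProdFinEquiv.symm j).1 (M i j))
        (Matrix.single (finProdFinEquiv.symm i).2 (finProdFinEquiv.symm j).2 (1 : F)) := by
    ext i' j'
    rw [kr_apply, Matrix.single_apply, Matrix.single_apply, Matrix.single_apply]
    by_cases h1 : i = i' ∧ j = j'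
    · obtain ⟨rfl, rfl⟩ := h1
      simp
    · rw [if_neg h1]
      by_cases h2 : (finProdFinEquiv.symm i).1 = (finProdFinEquiv.symm i').1 ∧
        (finProdFinEquiv.symm j).1 = (finProdFinEquiv.symm j').1
      · rw [if_pos h2]
        rw [if_neg, mul_zero]
        rintro ⟨h3, h4⟩
        apply h1
        exact ⟨finProdFinEquiv.symm.injective (Prod.ext h2.1 h3),
          finProdFinEquiv.symm.injective (Prod.ext h2.2 h4)⟩
      · rw [if_neg h2, zero_mul]
  rw [e]
  exact h _ _

end basic

section idem

variable {F : Type} [Field F]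

/-- rank factorisation of an idempotent matrix -/
theorem idem_factor {k : ℕ} (e : Matrix (Fin k) (Fin k) F) (he : e * e = e) :
    ∃ (m : ℕ) (P : Matrix (Fin k) (Fin m) F) (Q : Matrix (Fin m) (Fin k) F),
      Q * P = 1 ∧ P * Q = e := by
  classical
  let f : (Fin k → F) →ₗ[F] (Fin k → F) := Matrix.toLin' e
  have hf : ∀ x, f (f x) = f x := by
    intro x
    change Matrix.toLin' e (Matrix.toLin' e x) = Matrix.toLin' e x
    rw [← Matrix.toLin'_mul_apply, he]
  let b : Module.Basis (Fin (Module.finrank F (LinearMap.range f))) F (LinearMap.range f) :=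
    Module.finBasis F _
  refine ⟨Module.finrank F (LinearMap.range f),
    LinearMap.toMatrix b (Pi.basisFun F (Fin k)) (LinearMap.range f).subtype,
    LinearMap.toMatrix (Pi.basisFun F (Fin k)) b f.rangeRestrict, ?_, ?_⟩
  · rw [← LinearMap.toMatrix_comp, ← LinearMap.toMatrix_id b]
    congr 1
    ext x
    obtain ⟨x, y, rfl⟩ := x
    exact congrFun (hf y) _
  · rw [← LinearMap.toMatrix_comp]
    have : (LinearMap.range f).subtype ∘ₗ f.rangeRestrict = f := by
      ext x; rfl
    rw [this]
    exact LinearMap.toMatrix'_toLin' e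

end idem

section tr

variable {F H : Type} [Field F] [Group H] [Finite H]

theorem trace_ev {n : ℕ} (ρ : H →* Matrix (Fin n) (Fin n) F) (a : H → F) :
    (ev ρ a).trace = ∑ᶠ t, a t * tr ρ t := by
  have := Fintype.ofFinite H
  rw [ev, finsum_eq_sum_of_fintype, finsum_eq_sum_of_fintype, Matrix.trace_sum]
  exact Finset.sum_congr rfl fun t _ => by rw [Matrix.trace_smul]; rfl

theorem tr_ne_zero {n : ℕ} {ρ : H →* Matrix (Fin n) (Fin n) F} (hρ : IsIrr ρ) :
    ∃ x, tr ρ x ≠ 0 := by
  by_contra hcon
  push Not at hcon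
  obtain ⟨a, ha⟩ := ev_surj hρ (Matrix.single (⟨0, hρ.1⟩ : Fin n) ⟨0, hρ.1⟩ (1 : F))
  have h := congrArg Matrix.trace ha
  rw [trace_ev, Matrix.trace_single_eq_same] at h
  have h2 : ∑ᶠ t, a t * tr ρ t = 0 := by
    have : ∀ t, a t * tr ρ t = 0 := fun t => by rw [hcon t, mul_zero]
    rw [finsum_congr this, finsum_zero]
  rw [h2] at h
  exact zero_ne_one h

end tr

section gal

variable {F X : Type} [Field F] [Group X] [Finite X] {C : Subgroup X} {n : ℕ}
  {α : X →* Matrix (Fin n) (Fin n) F}

omit [Finite X] in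
theorem rep_inv (x : X) : α x * α x⁻¹ = 1 := by rw [← map_mul, mul_inv_cancel, map_one]

omit [Finite X] in
theorem rep_inv' (x : X) : α x⁻¹ * α x = 1 := by rw [← map_mul, inv_mul_cancel, map_one]

/-- every matrix is a combination of the matrices of a coset -/
theorem coset_surj (hα : IsIrr (α.comp C.subtype)) (x : X) (A : Matrix (Fin n) (Fin n) F) :
    ∃ a : C → F, ∑ᶠ c : C, a c • α (x * c) = A := by
  obtain ⟨a, ha⟩ := ev_surj hα (α x⁻¹ * A)
  refine ⟨a, ?_⟩
  have := Fintype.ofFinite C
  rw [ev, finsum_eq_sum_of_fintype] at ha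
  rw [finsum_eq_sum_of_fintype]
  calc ∑ c : C, a c • α (x * c) = α x * ∑ c : C, a c • (α.comp C.subtype) c := by
        rw [Finset.mul_sum]
        refine Finset.sum_congr rfl fun c _ => ?_
        rw [map_mul, mul_smul_comm]; rfl
    _ = A := by rw [ha, ← mul_assoc, rep_inv, one_mul]

variable [C.Normal]

theorem zero_of_tr_mul (hα : IsIrr (α.comp C.subtype)) (u : X ⧸ C → F)
    (hu : ∀ x : X, tr α x * u x = 0) : u = 0 := by
  funext y
  induction y using QuotientGroup.induction_on with
  | H x =>
    obtain ⟨a, ha⟩ := coset_surj hα x (Matrix.single (⟨0, hα.1⟩ : Fin n) ⟨0, hα.1⟩ (1 : F))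
    have h := congrArg Matrix.trace ha
    have := Fintype.ofFinite C
    rw [finsum_eq_sum_of_fintype, Matrix.trace_sum, Matrix.trace_single_eq_same] at h
    have h2 : ∀ c : C, (a c • α (x * c)).trace * u x = 0 := by
      intro c
      have h3 := hu (x * c)
      have h4 : ((x * c : X) : X ⧸ C) = x := by
        rw [QuotientGroup.mk_mul, (QuotientGroup.eq_one_iff (c : X)).2 c.2, mul_one]
      rw [h4] at h3
      rw [Matrix.trace_smul, smul_eq_mul, mul_assoc]
      change a c * (tr α (x * c) * u x) = 0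
      rw [h3, mul_zero]
    have h5 : (∑ c : C, (a c • α (x * c)).trace) * u x = 0 := by
      rw [Finset.sum_mul]
      exact Finset.sum_eq_zero fun c _ => h2 c
    rw [h, one_mul] at h5
    exact h5

omit [C.Normal] in
theorem sum_cosets {V : Type} [AddCommMonoid V] (f : X → V) :
    ∑ᶠ t, f t = ∑ᶠ y : X ⧸ C, ∑ᶠ c : C, f (y.out * c) := by
  have := Fintype.ofFinite X
  have := Fintype.ofFinite C
  have := Fintype.ofFinite (X ⧸ C)
  simp only [finsum_eq_sum_of_fintype]
  have hb : Function.Bijective (fun p : (X ⧸ C) × C => p.1.out * (p.2 : X)) := by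
    constructor
    · rintro ⟨y, c⟩ ⟨y', c'⟩ h
      have h : y.out * (c : X) = y'.out * (c' : X) := h
      have h1 : y = y' := by
        have := congrArg (fun x : X => (x : X ⧸ C)) h
        simpa only [QuotientGroup.mk_mul_of_mem _ c.2, QuotientGroup.mk_mul_of_mem _ c'.2,
          QuotientGroup.out_eq'] using this
      subst h1
      have h2 := mul_left_cancel h
      rw [Subtype.ext h2]
    · intro x
      have h1 : (x : X ⧸ C).out⁻¹ * x ∈ C := by
        rw [← QuotientGroup.eq, QuotientGroup.out_eq']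
      exact ⟨⟨(x : X ⧸ C), ⟨_, h1⟩⟩, mul_inv_cancel_left _ _⟩
  rw [← Equiv.sum_comp (Equiv.ofBijective _ hb), Fintype.sum_prod_type]
  rfl

theorem actF_tr_mul (a : X → F) (a' : X ⧸ C → F)
    (h : ∀ g : X, ∑ᶠ c : C, a (g * c) • α (g * c) = Matrix.scalar (Fin n) (a' g))
    (κ : X ⧸ C → F) (x : X) :
    actF a (fun x : X => tr α x * κ x) x = tr α x * actF a' κ x := by
  have := Fintype.ofFinite C
  have := Fintype.ofFinite (X ⧸ C)
  rw [actF, sum_cosets (C := C), actF, finsum_eq_sum_of_fintype, finsum_eq_sum_of_fintype,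
    Finset.mul_sum]
  refine Finset.sum_congr rfl fun y _ => ?_
  have h1 := h y.out
  rw [QuotientGroup.out_eq', finsum_eq_sum_of_fintype] at h1
  rw [finsum_eq_sum_of_fintype]
  have h2 : ∀ c : C, a (y.out * c) * (tr α (y.out * c * x) * κ ((y.out * c * x : X) : X ⧸ C)) =
      ((a (y.out * c) • α (y.out * c)) * α x).trace * κ (y * (x : X ⧸ C)) := by
    intro c
    have h4 : ((y.out * c * x : X) : X ⧸ C) = y * x := by
      rw [QuotientGroup.mk_mul, QuotientGroup.mk_mul, (QuotientGroup.eq_one_iff (c : X)).2 c.2,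
        mul_one, QuotientGroup.out_eq']
    rw [h4, smul_mul_assoc, ← map_mul, Matrix.trace_smul, smul_eq_mul, ← mul_assoc]
    rfl
  rw [Finset.sum_congr rfl fun c _ => h2 c, ← Finset.sum_mul, ← Matrix.trace_sum,
    ← Finset.sum_mul, h1]
  have h5 : (Matrix.scalar (Fin n) (a' y) * α x).trace = a' y * tr α x := by
    rw [Matrix.scalar_apply, ← Matrix.smul_eq_diagonal_mul, Matrix.trace_smul, smul_eq_mul]
    rfl
  rw [h5]
  ring

/-- the tensor product -/
def tens {m : ℕ} (α : X →* Matrix (Fin n) (Fin n) F) (K : X ⧸ C →* Matrix (Fin m) (Fin m) F) :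
    X →* Matrix (Fin (n * m)) (Fin (n * m)) F where
  toFun x := kr (α x) (K x)
  map_one' := by rw [map_one, QuotientGroup.mk_one, map_one, kr_one]
  map_mul' x y := by rw [map_mul, QuotientGroup.mk_mul, map_mul, kr_mul]

theorem tens_irr {m : ℕ} (hα : IsIrr (α.comp C.subtype))
    (K : X ⧸ C →* Matrix (Fin m) (Fin m) F) (hK : IsIrr K) : IsIrr (tens α K) := by
  refine ⟨Nat.mul_pos hα.1 hK.1, top_of_kr _ fun A B => ?_⟩
  have hB : B ∈ Submodule.span F (Set.range K) := by rw [hK.2]; trivial
  induction hB using Submodule.span_induction with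
  | mem B hB =>
    obtain ⟨y, rfl⟩ := hB
    induction y using QuotientGroup.induction_on with
    | H x =>
      obtain ⟨a, ha⟩ := coset_surj hα x A
      have := Fintype.ofFinite C
      rw [finsum_eq_sum_of_fintype] at ha
      have e : kr A (K x) = ∑ c : C, a c • tens α K (x * c) := by
        rw [← ha]
        have : ∀ s : Finset C, kr (∑ c ∈ s, a c • α (x * c)) (K x) =
            ∑ c ∈ s, a c • tens α K (x * c) := by
          classical
          intro s
          induction s using Finset.induction_on with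
          | empty => rw [Finset.sum_empty, Finset.sum_empty, kr_zero_left]
          | insert c s hc ih =>
            rw [Finset.sum_insert hc, Finset.sum_insert hc, kr_add_left, ih, kr_smul_left]
            congr 2
            change kr (α (x * c)) (K x) = kr (α (x * c)) (K ((x * c : X) : X ⧸ C))
            rw [QuotientGroup.mk_mul, (QuotientGroup.eq_one_iff (c : X)).2 c.2, mul_one]
        exact this _
      rw [e]
      exact Submodule.sum_mem _ fun c _ =>
        Submodule.smul_mem _ _ (Submodule.subset_span ⟨_, rfl⟩)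
  | zero => rw [kr_zero_right]; exact Submodule.zero_mem _
  | add B B' _ _ h h' => rw [kr_add_right]; exact Submodule.add_mem _ h h'
  | smul c B _ h => rw [kr_smul_right]; exact Submodule.smul_mem _ _ h


omit [C.Normal] in
/-- the map of matrix algebras defined by a representation over `α` -/
theorem exists_phi (hα : IsIrr (α.comp C.subtype)) {k : ℕ} (V : X →* Matrix (Fin k) (Fin k) F)
    (h : ∀ a : C → F, ev (α.comp C.subtype) a = 0 → ev (V.comp C.subtype) a = 0) :
    ∃ φ : Matrix (Fin n) (Fin n) F →ₗ[F] Matrix (Fin k) (Fin k) F,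
      (∀ A B, φ (A * B) = φ A * φ B) ∧ (∀ c ∈ C, φ (α c) = V c) := by
  have hw : ∀ a b : C → F, ev (α.comp C.subtype) a = ev (α.comp C.subtype) b →
      ev (V.comp C.subtype) a = ev (V.comp C.subtype) b := by
    intro a b hab
    have h1 := h (a + (-1 : F) • b) (by
      rw [ev_add, ev_smul, hab, neg_smul, one_smul, add_neg_cancel])
    rw [ev_add, ev_smul, neg_smul, one_smul] at h1
    exact add_neg_eq_zero.1 h1
  choose g hg using fun A => ev_surj hα A
  let φ : Matrix (Fin n) (Fin n) F →ₗ[F] Matrix (Fin k) (Fin k) F :=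
    { toFun := fun A => ev (V.comp C.subtype) (g A)
      map_add' := fun A B => by
        rw [← ev_add]
        exact hw _ _ (by rw [ev_add, hg, hg, hg])
      map_smul' := fun c A => by
        rw [RingHom.id_apply, ← ev_smul]
        exact hw _ _ (by rw [ev_smul, hg, hg]) }
  refine ⟨φ, ?_, ?_⟩
  · intro A B
    change ev (V.comp C.subtype) (g (A * B)) =
      ev (V.comp C.subtype) (g A) * ev (V.comp C.subtype) (g B)
    rw [← ev_mulF]
    exact hw _ _ (by rw [ev_mulF, hg, hg, hg])
  · intro c hc
    change ev (V.comp C.subtype) (g (α c)) = V c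
    have h1 := hw (g (α c)) (dl F (⟨c, hc⟩ : C)) (by rw [hg, ev_dl]; rfl)
    rw [h1, ev_dl]
    rfl

omit [Finite X] in
theorem conj_phi (hα : IsIrr (α.comp C.subtype)) {k : ℕ} {V : X →* Matrix (Fin k) (Fin k) F}
    {φ : Matrix (Fin n) (Fin n) F →ₗ[F] Matrix (Fin k) (Fin k) F}
    (h2 : ∀ c ∈ C, φ (α c) = V c) (x : X) (A : Matrix (Fin n) (Fin n) F) :
    V x * φ A = φ (α x * A * α x⁻¹) * V x := by
  have hA : A ∈ Submodule.span F (Set.range (α.comp C.subtype)) := by rw [hα.2]; trivial
  induction hA using Submodule.span_induction with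
  | mem A hA =>
    obtain ⟨c, rfl⟩ := hA
    change V x * φ (α c) = φ (α x * α c * α x⁻¹) * V x
    rw [← map_mul, ← map_mul, h2 c c.2, h2 _ (Subgroup.Normal.conj_mem inferInstance _ c.2 x),
      ← map_mul, ← map_mul, inv_mul_cancel_right]
  | zero => rw [map_zero, mul_zero, mul_zero, zero_mul, map_zero, zero_mul]
  | add A B _ _ hA hB => rw [map_add, mul_add, hA, hB, mul_add, add_mul, map_add, add_mul]
  | smul c A _ hA =>
    rw [map_smul, mul_smul_comm, hA, mul_smul_comm, smul_mul_assoc, map_smul, smul_mul_assoc]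

theorem trace_phi {k : ℕ} {φ : Matrix (Fin n) (Fin n) F →ₗ[F] Matrix (Fin k) (Fin k) F}
    (h1 : ∀ A B, φ (A * B) = φ A * φ B) (i0 : Fin n) (W : Matrix (Fin k) (Fin k) F)
    (hW : ∀ A, W * φ A = φ A * W) (A : Matrix (Fin n) (Fin n) F) :
    (φ A * W).trace = A.trace * (W * φ (Matrix.single i0 i0 1)).trace := by
  classical
  have key : ∀ i j (c : F), (φ (Matrix.single i j c) * W).trace =
      (if i = j then c else 0) * (W * φ (Matrix.single i0 i0 1)).trace := by
    intro i j c
    have e1 : Matrix.single i j c = Matrix.single i i0 c * Matrix.single i0 j 1 := by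
      rw [Matrix.single_mul_single_same, mul_one]
    rw [e1, h1, mul_assoc, Matrix.trace_mul_comm, mul_assoc, ← mul_assoc, ← hW, mul_assoc,
      ← h1]
    by_cases hij : i = j
    · subst hij
      rw [if_pos rfl, Matrix.single_mul_single_same, one_mul]
      have e2 : Matrix.single i0 i0 c = c • Matrix.single i0 i0 (1 : F) := by
        rw [Matrix.smul_single, smul_eq_mul, mul_one]
      rw [e2, map_smul, mul_smul_comm, Matrix.trace_smul, smul_eq_mul]
    · rw [if_neg hij, Matrix.single_mul_single_of_ne (h := fun h => hij h.symm), map_zero,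
        mul_zero, Matrix.trace_zero, zero_mul]
  conv_lhs => rw [Matrix.matrix_eq_sum_single A]
  rw [map_sum, Finset.sum_mul, Matrix.trace_sum, Matrix.trace, Finset.sum_mul]
  refine Finset.sum_congr rfl fun i _ => ?_
  rw [map_sum, Finset.sum_mul, Matrix.trace_sum, Finset.sum_eq_single i]
  · rw [key, if_pos rfl]; rfl
  · intro j _ hj
    rw [key, if_neg (fun h => hj h.symm), zero_mul]
  · intro hi
    exact absurd (Finset.mem_univ _) hi

/-- a representation over `α` is a tensor product -/
theorem over_alpha (hα : IsIrr (α.comp C.subtype)) {k : ℕ} (V : X →* Matrix (Fin k) (Fin k) F)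
    (hV : IsIrr V)
    (h : ∀ a : C → F, ev (α.comp C.subtype) a = 0 → ev (V.comp C.subtype) a = 0) :
    ∃ (m : ℕ) (K : X ⧸ C →* Matrix (Fin m) (Fin m) F), IsIrr K ∧
      ∀ x : X, tr V x = tr α x * tr K x := by
  classical
  obtain ⟨φ, h1, h2⟩ := exists_phi hα V h
  have hφ1 : φ 1 = 1 := by
    rw [← map_one α, h2 1 C.one_mem, map_one]
  have hW : ∀ (x : X) (A : Matrix (Fin n) (Fin n) F),
      (φ (α x⁻¹) * V x) * φ A = φ A * (φ (α x⁻¹) * V x) := by
    intro x A
    rw [mul_assoc, conj_phi hα h2, ← mul_assoc, ← h1, ← mul_assoc (φ A), ← h1, ← mul_assoc,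
      ← mul_assoc, rep_inv', one_mul]
  have hWm : ∀ x y : X, (φ (α (x * y)⁻¹) * V (x * y)) =
      (φ (α x⁻¹) * V x) * (φ (α y⁻¹) * V y) := by
    intro x y
    calc φ (α (x * y)⁻¹) * V (x * y) = φ (α y⁻¹) * φ (α x⁻¹) * (V x * V y) := by
          rw [mul_inv_rev, map_mul α, h1, map_mul V]
      _ = _ := by
          rw [← mul_assoc (φ (α x⁻¹) * V x), hW]
          simp only [mul_assoc]
  have hWc : ∀ c ∈ C, φ (α c⁻¹) * V c = 1 := by
    intro c hc
    rw [h2 _ (C.inv_mem hc), rep_inv']
  obtain ⟨m, P, Q, hQP, hPQ⟩ := idem_factor (φ (Matrix.single (⟨0, hα.1⟩ : Fin n) ⟨0, hα.1⟩ 1))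
    (by rw [← h1, Matrix.single_mul_single_same, one_mul])
  have hQe : Q * φ (Matrix.single (⟨0, hα.1⟩ : Fin n) ⟨0, hα.1⟩ 1) = Q := by
    rw [← hPQ, ← Matrix.mul_assoc, hQP, Matrix.one_mul]
  have heP : φ (Matrix.single (⟨0, hα.1⟩ : Fin n) ⟨0, hα.1⟩ 1) * P = P := by
    rw [← hPQ, Matrix.mul_assoc, hQP, Matrix.mul_one]
  let KX : X →* Matrix (Fin m) (Fin m) F :=
    { toFun := fun x => Q * (φ (α x⁻¹) * V x) * P
      map_one' := by
        rw [hWc 1 C.one_mem, Matrix.mul_one, hQP]
      map_mul' := fun x y => by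
        have e1 : Q * (φ (α x⁻¹) * V x) * P * (Q * (φ (α y⁻¹) * V y) * P) =
            Q * ((φ (α x⁻¹) * V x) * (P * Q)) * ((φ (α y⁻¹) * V y) * P) := by
          simp only [Matrix.mul_assoc]
        rw [e1, hPQ, hW, ← Matrix.mul_assoc Q (φ (Matrix.single _ _ 1)), hQe, hWm]
        simp only [Matrix.mul_assoc] }
  have hKX : ∀ x, KX x = Q * (φ (α x⁻¹) * V x) * P := fun _ => rfl
  have hker : C ≤ KX.ker := by
    intro c hc
    rw [MonoidHom.mem_ker, hKX, hWc c hc, Matrix.mul_one, hQP]
  have htr : ∀ x : X, tr V x = tr α x * (KX x).trace := by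
    intro x
    have e1 : V x = φ (α x) * (φ (α x⁻¹) * V x) := by
      rw [← mul_assoc, ← h1, rep_inv, hφ1, one_mul]
    rw [tr, e1, trace_phi h1 ⟨0, hα.1⟩ _ (hW x), hKX, ← hPQ, ← Matrix.mul_assoc,
      Matrix.trace_mul_comm _ Q, ← Matrix.mul_assoc]
    rfl
  refine ⟨m, QuotientGroup.lift C KX hker, ⟨?_, ?_⟩, ?_⟩
  · obtain ⟨x, hx⟩ := tr_ne_zero hV
    rw [htr] at hx
    rcases Nat.eq_zero_or_pos m with h0 | h0
    · subst h0
      exfalso
      apply hx
      have : (KX x).trace = 0 := by
        rw [Matrix.trace]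
        exact Finset.sum_of_isEmpty _
      rw [this, mul_zero]
    · exact h0
  · rw [eq_top_iff]
    intro B _
    obtain ⟨a, ha⟩ := ev_surj hV (P * B * Q)
    have e1 : B = Q * (P * B * Q) * P := by
      rw [← Matrix.mul_assoc, ← Matrix.mul_assoc, hQP, Matrix.one_mul, Matrix.mul_assoc, hQP,
        Matrix.mul_one]
    have := Fintype.ofFinite X
    rw [e1, ← ha, ev, finsum_eq_sum_of_fintype, Matrix.mul_sum, Matrix.sum_mul]
    refine Submodule.sum_mem _ fun x _ => ?_
    have e2 : Q * (a x • V x) * P = (a x * α x ⟨0, hα.1⟩ ⟨0, hα.1⟩) • KX x := by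
      have e3 : V x = φ (α x) * (φ (α x⁻¹) * V x) := by
        rw [← mul_assoc, ← h1, rep_inv, hφ1, one_mul]
      have e4 : Q * V x * P = α x ⟨0, hα.1⟩ ⟨0, hα.1⟩ • KX x := by
        have e5 : Q * V x * P = Q * (φ (Matrix.single (⟨0, hα.1⟩ : Fin n) ⟨0, hα.1⟩ 1) *
            φ (α x) * φ (Matrix.single (⟨0, hα.1⟩ : Fin n) ⟨0, hα.1⟩ 1)) *
            (φ (α x⁻¹) * V x) * P := by
          calc Q * V x * P
              = Q * φ (Matrix.single (⟨0, hα.1⟩ : Fin n) ⟨0, hα.1⟩ 1) *
                (φ (α x) * (φ (α x⁻¹) * V x)) *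
                (φ (Matrix.single (⟨0, hα.1⟩ : Fin n) ⟨0, hα.1⟩ 1) * P) := by
                rw [hQe, heP, ← e3]
            _ = Q * φ (Matrix.single (⟨0, hα.1⟩ : Fin n) ⟨0, hα.1⟩ 1) * φ (α x) *
                ((φ (α x⁻¹) * V x) *
                φ (Matrix.single (⟨0, hα.1⟩ : Fin n) ⟨0, hα.1⟩ 1)) * P := by
                simp only [Matrix.mul_assoc]
            _ = _ := by
                rw [hW]
                simp only [Matrix.mul_assoc]
        have e6 : Matrix.single (⟨0, hα.1⟩ : Fin n) ⟨0, hα.1⟩ (1 : F) * α x *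
            Matrix.single (⟨0, hα.1⟩ : Fin n) ⟨0, hα.1⟩ 1 =
            α x ⟨0, hα.1⟩ ⟨0, hα.1⟩ • Matrix.single (⟨0, hα.1⟩ : Fin n) ⟨0, hα.1⟩ 1 := by
          rw [Matrix.single_mul_mul_single, one_mul, mul_one, Matrix.smul_single, smul_eq_mul,
            mul_one]
        rw [e5, ← h1, ← h1, e6, map_smul, Matrix.mul_smul, hQe, Matrix.smul_mul,
          Matrix.smul_mul, hKX]
      rw [Matrix.mul_smul, Matrix.smul_mul, e4, smul_smul]
    rw [e2]
    refine Submodule.smul_mem _ _ (Submodule.subset_span ⟨(x : X ⧸ C), ?_⟩)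
    rfl
  · intro x
    rw [htr]
    rfl

end gal

theorem gal : GalStmt := by
  intro ℓ F _ hF X _ _ C _ n α hα
  refine ⟨?_, ?_, ?_, ?_⟩
  · intro m K hK
    exact ⟨tens α K, tens_irr hα K hK, fun x => rfl, fun x => kr_trace _ _⟩
  · intro k V hV h
    exact over_alpha hα V hV h
  · intro κ _ κ' _ h
    have h1 := zero_of_tr_mul hα (κ - κ') (fun x => by
      rw [Pi.sub_apply, mul_sub, h x, sub_self])
    exact sub_eq_zero.1 h1
  · intro a a' _ h κ _
    constructor
    · intro h1
      have h2 := zero_of_tr_mul hα (actF a' κ - κ) (fun x => by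
        have h3 := congrFun h1 x
        rw [actF_tr_mul a a' h κ x] at h3
        rw [Pi.sub_apply, mul_sub, h3, sub_self])
      exact sub_eq_zero.1 h2
    · intro h1
      funext x
      rw [actF_tr_mul a a' h κ x, h1]

end Pool.Agent.PP.H33
end
end -- Pool.Agent.Helper33_PP.Gal

section -- Pool.Agent.Helper74_PP.Tens

/-!
TENS: unital algebra maps `M_n → M_N` are conjugate to `A ↦ A ⊗ 1`; commuting families of matrices
whose products span the matrix algebra split as a tensor product.
-/

open scoped BigOperators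

set_option linter.unusedSectionVars false
set_option synthInstance.maxHeartbeats 400000
set_option maxHeartbeats 4000000

noncomputable section

namespace Pool.Agent.PP.H74

open Pool.Agent.PP

variable {F : Type} [Field F]

theorem kr_apply {n m : ℕ} (A : Matrix (Fin n) (Fin n) F) (B : Matrix (Fin m) (Fin m) F)
    (i j : Fin n) (k l : Fin m) :
    kr A B (finProdFinEquiv (i, k)) (finProdFinEquiv (j, l)) = A i j * B k l := by
  simp [kr, Matrix.reindex_apply, Matrix.submatrix_apply, Matrix.kroneckerMap_apply]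

theorem kr_ext {n m : ℕ} {M M' : Matrix (Fin (n * m)) (Fin (n * m)) F}
    (h : ∀ i j k l, M (finProdFinEquiv (i, k)) (finProdFinEquiv (j, l)) =
      M' (finProdFinEquiv (i, k)) (finProdFinEquiv (j, l))) : M = M' := by
  ext p q
  obtain ⟨⟨i, k⟩, rfl⟩ := finProdFinEquiv.surjective p
  obtain ⟨⟨j, l⟩, rfl⟩ := finProdFinEquiv.surjective q
  exact h i j k l

theorem sum_prod_fin {n m : ℕ} {V : Type*} [AddCommMonoid V] (f : Fin (n * m) → V) :
    ∑ p, f p = ∑ i, ∑ k, f (finProdFinEquiv (i, k)) := by
  rw [← Equiv.sum_comp finProdFinEquiv f, Fintype.sum_prod_type]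

theorem kr_mul {n m : ℕ} (A A' : Matrix (Fin n) (Fin n) F) (B B' : Matrix (Fin m) (Fin m) F) :
    kr A B * kr A' B' = kr (A * A') (B * B') := by
  apply kr_ext
  intro i j k l
  rw [Matrix.mul_apply, sum_prod_fin, kr_apply, Matrix.mul_apply, Matrix.mul_apply,
    Finset.sum_mul_sum]
  apply Finset.sum_congr rfl
  intro a _
  apply Finset.sum_congr rfl
  intro b _
  rw [kr_apply, kr_apply]
  ring

theorem kr_one {n m : ℕ} : kr (1 : Matrix (Fin n) (Fin n) F) (1 : Matrix (Fin m) (Fin m) F) = 1 := by
  apply kr_ext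
  intro i j k l
  rw [kr_apply, Matrix.one_apply, Matrix.one_apply, Matrix.one_apply]
  by_cases h1 : i = j <;> by_cases h2 : k = l <;> simp [h1, h2]

theorem kr_trace {n m : ℕ} (A : Matrix (Fin n) (Fin n) F) (B : Matrix (Fin m) (Fin m) F) :
    (kr A B).trace = A.trace * B.trace := by
  simp only [Matrix.trace, Matrix.diag_apply]
  rw [sum_prod_fin, Finset.sum_mul_sum]
  apply Finset.sum_congr rfl
  intro i _
  apply Finset.sum_congr rfl
  intro k _
  rw [kr_apply]

theorem kr_add_left {n m : ℕ} (A A' : Matrix (Fin n) (Fin n) F) (B : Matrix (Fin m) (Fin m) F) :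
    kr (A + A') B = kr A B + kr A' B := by
  apply kr_ext
  intro i j k l
  rw [Matrix.add_apply, kr_apply, kr_apply, kr_apply, Matrix.add_apply, add_mul]

theorem kr_add_right {n m : ℕ} (A : Matrix (Fin n) (Fin n) F) (B B' : Matrix (Fin m) (Fin m) F) :
    kr A (B + B') = kr A B + kr A B' := by
  apply kr_ext
  intro i j k l
  rw [Matrix.add_apply, kr_apply, kr_apply, kr_apply, Matrix.add_apply, mul_add]

theorem kr_smul_left {n m : ℕ} (c : F) (A : Matrix (Fin n) (Fin n) F)
    (B : Matrix (Fin m) (Fin m) F) : kr (c • A) B = c • kr A B := by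
  apply kr_ext
  intro i j k l
  rw [Matrix.smul_apply, kr_apply, kr_apply, Matrix.smul_apply, smul_eq_mul, smul_eq_mul, mul_assoc]

theorem kr_smul_right {n m : ℕ} (c : F) (A : Matrix (Fin n) (Fin n) F)
    (B : Matrix (Fin m) (Fin m) F) : kr A (c • B) = c • kr A B := by
  apply kr_ext
  intro i j k l
  rw [Matrix.smul_apply, kr_apply, kr_apply, Matrix.smul_apply, smul_eq_mul, smul_eq_mul]
  ring

theorem kr_one_inj_right {n m : ℕ} (hn : 0 < n) {B B' : Matrix (Fin m) (Fin m) F}
    (h : kr (1 : Matrix (Fin n) (Fin n) F) B = kr 1 B') : B = B' := by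
  ext k l
  have h1 := congrFun (congrFun h (finProdFinEquiv (⟨0, hn⟩, k))) (finProdFinEquiv (⟨0, hn⟩, l))
  rw [kr_apply, kr_apply] at h1
  simpa using h1

theorem kr_one_inj_left {n m : ℕ} (hm : 0 < m) {A A' : Matrix (Fin n) (Fin n) F}
    (h : kr A (1 : Matrix (Fin m) (Fin m) F) = kr A' 1) : A = A' := by
  ext k l
  have h1 := congrFun (congrFun h (finProdFinEquiv (k, ⟨0, hm⟩))) (finProdFinEquiv (l, ⟨0, hm⟩))
  rw [kr_apply, kr_apply] at h1
  simpa using h1

/-- the commutant of `M_n ⊗ 1` is `1 ⊗ M_m` -/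
theorem kr_commutant {n m : ℕ} (hn : 0 < n) (M : Matrix (Fin (n * m)) (Fin (n * m)) F)
    (h : ∀ A : Matrix (Fin n) (Fin n) F, kr A (1 : Matrix (Fin m) (Fin m) F) * M = M * kr A 1) :
    ∃ B : Matrix (Fin m) (Fin m) F, M = kr 1 B := by
  have : NeZero n := ⟨hn.ne'⟩
  have key : ∀ (a b j : Fin n) (k l : Fin m),
      M (finProdFinEquiv (b, k)) (finProdFinEquiv (j, l)) =
        if j = b then M (finProdFinEquiv (a, k)) (finProdFinEquiv (a, l)) else 0 := by
    intro a b j k l
    have h1 := congrFun (congrFun (h (Matrix.single a b 1)) (finProdFinEquiv (a, k)))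
      (finProdFinEquiv (j, l))
    rw [Matrix.mul_apply, Matrix.mul_apply, sum_prod_fin, sum_prod_fin] at h1
    simp only [kr_apply] at h1
    rw [Finset.sum_eq_single b, Finset.sum_eq_single k] at h1
    · rw [Finset.sum_eq_single a, Finset.sum_eq_single l] at h1
      · simp only [Matrix.single_apply, Matrix.one_apply_eq, mul_one] at h1
        simp only [true_and, and_self, if_true, one_mul] at h1
        rw [h1]
        by_cases hb : j = b
        · simp [hb]
        · rw [if_neg hb, if_neg (fun hh => hb hh.symm), mul_zero]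
      · intro x _ hx
        rw [Matrix.one_apply_ne hx, mul_zero, mul_zero]
      · intro hx; exact absurd (Finset.mem_univ _) hx
      · intro x _ hx
        apply Finset.sum_eq_zero
        intro y _
        rw [Matrix.single_apply_of_row_ne (Ne.symm hx), zero_mul, mul_zero]
      · intro hx; exact absurd (Finset.mem_univ _) hx
    · intro x _ hx
      rw [Matrix.one_apply_ne (Ne.symm hx), mul_zero, zero_mul]
    · intro hx; exact absurd (Finset.mem_univ _) hx
    · intro x _ hx
      apply Finset.sum_eq_zero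
      intro y _
      rw [Matrix.single_apply_of_col_ne _ _ (Ne.symm hx), zero_mul, zero_mul]
    · intro hx; exact absurd (Finset.mem_univ _) hx
  refine ⟨Matrix.of fun k l => M (finProdFinEquiv (0, k)) (finProdFinEquiv (0, l)), ?_⟩
  apply kr_ext
  intro i j k l
  rw [key 0 i j k l, kr_apply, Matrix.one_apply, Matrix.of_apply]
  by_cases hij : i = j
  · simp [hij]
  · rw [if_neg (Ne.symm hij), if_neg hij, zero_mul]

/-- Every unital algebra map `M_n → M_N` is conjugate to `A ↦ A ⊗ 1_m`. -/
theorem mat_conj {n N : ℕ} (hn : 0 < n)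
    (Φ : Matrix (Fin n) (Fin n) F →ₐ[F] Matrix (Fin N) (Fin N) F) :
    ∃ (m : ℕ) (T : Matrix (Fin N) (Fin (n * m)) F) (T' : Matrix (Fin (n * m)) (Fin N) F),
      N = n * m ∧ T * T' = 1 ∧ T' * T = 1 ∧
        ∀ A, Φ A * T = T * kr A (1 : Matrix (Fin m) (Fin m) F) := by
  have : NeZero n := ⟨hn.ne'⟩
  let E : Fin n → Fin n → ((Fin N → F) →ₗ[F] (Fin N → F)) :=
    fun i j => Matrix.toLin' (Φ (Matrix.single i j 1))
  have hE : ∀ i j k l, ∀ v, E i j (E k l v) = if j = k then E i l v else 0 := by
    intro i j k l v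
    simp only [E]
    rw [← LinearMap.comp_apply, ← Matrix.toLin'_mul, ← map_mul]
    by_cases h : j = k
    · subst h
      rw [Matrix.single_mul_single_same, mul_one, if_pos rfl]
    · rw [Matrix.single_mul_single_of_ne _ _ _ _ h, map_zero, map_zero, if_neg h]
      rfl
  have hA : ∀ (A : Matrix (Fin n) (Fin n) F) (j l : Fin n) (v : Fin N → F),
      Matrix.toLin' (Φ A) (E j l v) = ∑ i, A i j • E i l v := by
    intro A j l v
    simp only [E]
    rw [← LinearMap.comp_apply, ← Matrix.toLin'_mul, ← map_mul]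
    have h1 : A * Matrix.single j l 1 = ∑ i, A i j • Matrix.single i l (1 : F) := by
      ext a b
      rw [Matrix.sum_apply, Finset.sum_eq_single a]
      · rw [Matrix.smul_apply]
        by_cases hb : l = b
        · subst hb
          rw [Matrix.mul_single_apply_same]
          simp
        · rw [Matrix.mul_single_apply_of_ne _ _ _ _ _ (Ne.symm hb),
            Matrix.single_apply_of_col_ne _ _ hb, smul_zero]
      · intro x _ hx
        rw [Matrix.smul_apply, Matrix.single_apply_of_row_ne hx, smul_zero]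
      · intro hx; exact absurd (Finset.mem_univ _) hx
    rw [h1, map_sum, map_sum, LinearMap.sum_apply]
    apply Finset.sum_congr rfl
    intro i _
    rw [map_smul, map_smul, LinearMap.smul_apply]
  have hsum : ∀ v, ∑ i, E i i v = v := by
    intro v
    simp only [E]
    rw [← LinearMap.sum_apply, ← map_sum, ← map_sum]
    have : ∑ i : Fin n, Matrix.single i i (1 : F) = 1 := by
      ext a b
      rw [Matrix.sum_apply, Matrix.one_apply]
      simp only [Matrix.single_apply]
      by_cases h : a = b
      · subst h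
        simp
      · rw [if_neg h]
        apply Finset.sum_eq_zero
        intro i _
        rw [if_neg]
        rintro ⟨rfl, rfl⟩
        exact h rfl
    rw [this, map_one, Matrix.toLin'_one, LinearMap.id_apply]
  -- the space `U`
  let U : Submodule F (Fin N → F) := LinearMap.range (E 0 0)
  have hU : ∀ v, E 0 0 v ∈ U := fun v => ⟨v, rfl⟩
  have hUf : ∀ u ∈ U, E 0 0 u = u := by
    rintro _ ⟨v, rfl⟩
    rw [hE, if_pos rfl]
  have hUi : ∀ i v, E 0 i v ∈ U := by
    intro i v
    have : E 0 i v = E 0 0 (E 0 i v) := by rw [hE, if_pos rfl]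
    rw [this]; exact hU _
  let m := Module.finrank F U
  let b : Module.Basis (Fin m) F U := Module.finBasis F U
  let S : (Fin n × Fin m → F) →ₗ[F] (Fin N → F) :=
    Fintype.linearCombination F (fun p : Fin n × Fin m => E p.1 0 (b p.2 : Fin N → F))
  let S' : (Fin N → F) →ₗ[F] (Fin n × Fin m → F) :=
    LinearMap.pi (fun p : Fin n × Fin m => (b.coord p.2) ∘ₗ ((E 0 p.1).codRestrict U (hUi p.1)))
  have hS : ∀ x, S x = ∑ i, E i 0 ((∑ k, x (i, k) • b k : U) : Fin N → F) := by
    intro x
    simp only [S, Fintype.linearCombination_apply]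
    rw [Fintype.sum_prod_type]
    apply Finset.sum_congr rfl
    intro i _
    rw [AddSubmonoidClass.coe_finsetSum, map_sum]
    apply Finset.sum_congr rfl
    intro k _
    rw [Submodule.coe_smul, map_smul]
  have hSS' : ∀ v, S (S' v) = v := by
    intro v
    rw [hS]
    conv_rhs => rw [← hsum v]
    apply Finset.sum_congr rfl
    intro i _
    have h1 : (∑ k, S' v (i, k) • b k : U) = (E 0 i).codRestrict U (hUi i) v := by
      have := b.sum_repr ((E 0 i).codRestrict U (hUi i) v)
      exact this
    rw [h1]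
    change E i 0 (E 0 i v) = E i i v
    rw [hE, if_pos rfl]
  have hS'S : ∀ x, S' (S x) = x := by
    intro x
    funext ⟨i, k⟩
    change b.repr ((E 0 i).codRestrict U (hUi i) (S x)) k = x (i, k)
    have h1 : (E 0 i).codRestrict U (hUi i) (S x) = ∑ k, x (i, k) • b k := by
      apply Subtype.ext
      change E 0 i (S x) = _
      rw [hS, map_sum, Finset.sum_eq_single i]
      · rw [hE, if_pos rfl]
        exact hUf _ (Subtype.mem _)
      · intro j _ hj
        rw [hE, if_neg (Ne.symm hj)]
      · intro hx; exact absurd (Finset.mem_univ _) hx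
    rw [h1, map_sum, Finsupp.finsetSum_apply, Finset.sum_eq_single k]
    · simp
    · intro l _ hl
      simp [hl]
    · intro hx; exact absurd (Finset.mem_univ _) hx
  let L0 : (Fin n × Fin m → F) ≃ₗ[F] (Fin N → F) :=
    LinearEquiv.ofLinearMap S S' (LinearMap.ext hSS') (LinearMap.ext hS'S)
  let L : (Fin (n * m) → F) ≃ₗ[F] (Fin N → F) :=
    (LinearEquiv.funCongrLeft F F finProdFinEquiv).trans L0
  refine ⟨m, LinearMap.toMatrix' L.toLinearMap, LinearMap.toMatrix' L.symm.toLinearMap, ?_, ?_, ?_,
    ?_⟩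
  · have := L.finrank_eq
    simpa using this.symm
  · rw [← LinearMap.toMatrix'_comp, LinearEquiv.comp_coe, LinearEquiv.symm_trans_self]
    exact LinearMap.toMatrix'_id
  · rw [← LinearMap.toMatrix'_comp, LinearEquiv.comp_coe, LinearEquiv.self_trans_symm]
    exact LinearMap.toMatrix'_id
  · intro A
    have hkey : Matrix.toLin' (Φ A) ∘ₗ L.toLinearMap = L.toLinearMap ∘ₗ
        Matrix.toLin' (kr A (1 : Matrix (Fin m) (Fin m) F)) := by
      apply LinearMap.ext
      intro x
      have h1 : ∀ x, L x = ∑ j, ∑ l, x (finProdFinEquiv (j, l)) • E j 0 (b l : Fin N → F) := by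
        intro x
        change S (fun p => x (finProdFinEquiv p)) = _
        simp only [S, Fintype.linearCombination_apply]
        rw [Fintype.sum_prod_type]
      simp only [LinearMap.comp_apply, LinearEquiv.coe_coe]
      rw [h1, h1, map_sum]
      simp_rw [map_sum, map_smul, hA, Finset.smul_sum, smul_smul]
      rw [Finset.sum_comm]
      conv_lhs =>
        enter [2, l]
        rw [Finset.sum_comm]
      rw [Finset.sum_comm]
      apply Finset.sum_congr rfl
      intro i _
      apply Finset.sum_congr rfl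
      intro l _
      rw [← Finset.sum_smul]
      congr 1
      rw [Matrix.toLin'_apply, Matrix.mulVec, dotProduct, sum_prod_fin]
      apply Finset.sum_congr rfl
      intro j _
      rw [Finset.sum_eq_single l]
      · rw [kr_apply, Matrix.one_apply_eq, mul_one, mul_comm]
      · intro k _ hk
        rw [kr_apply, Matrix.one_apply_ne (Ne.symm hk), mul_zero, zero_mul]
      · intro hx; exact absurd (Finset.mem_univ _) hx
    have h2 := congrArg LinearMap.toMatrix' hkey
    rw [LinearMap.toMatrix'_comp, LinearMap.toMatrix'_comp, LinearMap.toMatrix'_toLin',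
      LinearMap.toMatrix'_toLin'] at h2
    exact h2

/-- products of many elements of the radical vanish -/
theorem exists_nil (B : Type) [Ring B] [IsArtinianRing B] : ∃ p : ℕ, ∀ f : Fin p → B,
    (∀ i, f i ∈ Ring.jacobson B) → (List.ofFn f).prod = 0 := by
  obtain ⟨p, hp⟩ := (IsSemiprimaryRing.isNilpotent : IsNilpotent (Ring.jacobson B))
  refine ⟨p, fun f hf => ?_⟩
  have key : ∀ (q : ℕ) (f : Fin q → B), (∀ i, f i ∈ Ring.jacobson B) →
      (List.ofFn f).prod ∈ (Ring.jacobson B) ^ q := by
    intro q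
    induction q with
    | zero =>
      intro f _
      rw [Submodule.pow_zero, Ideal.one_eq_top]
      trivial
    | succ q ih =>
      intro f hf
      rw [List.ofFn_succ, List.prod_cons, Ideal.IsTwoSided.pow_succ]
      exact Ideal.mul_mem_mul (hf 0) (ih _ fun i => hf i.succ)
  have := key p f hf
  rw [hp] at this
  simpa using this

/-- TENS: commuting multiplicatively closed families of matrices whose products span the matrix
algebra split it as a tensor product. -/
theorem tens [IsAlgClosed F] {N : ℕ} (hN : 0 < N) (S₁ S₂ : Set (Matrix (Fin N) (Fin N) F))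
    (h1 : (1 : Matrix (Fin N) (Fin N) F) ∈ S₁) (h2 : ∀ a ∈ S₁, ∀ b ∈ S₁, a * b ∈ S₁)
    (hcomm : ∀ a ∈ S₁, ∀ b ∈ S₂, a * b = b * a)
    (hspan : ∀ X : Matrix (Fin N) (Fin N) F, X ∈ Submodule.span F {z | ∃ a ∈ S₁, ∃ b ∈ S₂, z = a * b}) :
    ∃ (n m : ℕ) (T : Matrix (Fin N) (Fin (n * m)) F) (T' : Matrix (Fin (n * m)) (Fin N) F)
      (A : Matrix (Fin N) (Fin N) F → Matrix (Fin n) (Fin n) F)
      (B : Matrix (Fin N) (Fin N) F → Matrix (Fin m) (Fin m) F),
      0 < n ∧ 0 < m ∧ N = n * m ∧ T * T' = 1 ∧ T' * T = 1 ∧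
      (∀ a ∈ S₁, a = T * kr (A a) (1 : Matrix (Fin m) (Fin m) F) * T') ∧
      (∀ b ∈ S₂, b = T * kr (1 : Matrix (Fin n) (Fin n) F) (B b) * T') ∧
      Submodule.span F (A '' S₁) = ⊤ ∧ Submodule.span F (B '' S₂) = ⊤ := by
  have : NeZero N := ⟨hN.ne'⟩
  have hnt : Nontrivial (Matrix (Fin N) (Fin N) F) := inferInstance
  -- the algebras
  have hmul : ∀ (S : Set (Matrix (Fin N) (Fin N) F)), (∀ a ∈ S, ∀ b ∈ S, a * b ∈ S) →
      ∀ a ∈ Submodule.span F S, ∀ b ∈ Submodule.span F S, a * b ∈ Submodule.span F S := by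
    intro S hS a ha b hb
    induction ha using Submodule.span_induction with
    | mem x hx =>
      induction hb using Submodule.span_induction with
      | mem y hy => exact Submodule.subset_span (hS x hx y hy)
      | zero => rw [mul_zero]; exact Submodule.zero_mem _
      | add y z _ _ hy hz => rw [mul_add]; exact Submodule.add_mem _ hy hz
      | smul c y _ hy => rw [mul_smul_comm]; exact Submodule.smul_mem _ _ hy
    | zero => rw [zero_mul]; exact Submodule.zero_mem _
    | add x y _ _ hx hy => rw [add_mul]; exact Submodule.add_mem _ hx hy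
    | smul c x _ hx => rw [smul_mul_assoc]; exact Submodule.smul_mem _ _ hx
  let B₁ : Subalgebra F (Matrix (Fin N) (Fin N) F) :=
    { carrier := (Submodule.span F S₁ : Set (Matrix (Fin N) (Fin N) F))
      mul_mem' := fun {a b} ha hb => hmul S₁ h2 a ha b hb
      add_mem' := fun {a b} ha hb => Submodule.add_mem _ ha hb
      algebraMap_mem' := by
        intro r
        rw [Algebra.algebraMap_eq_smul_one]
        exact Submodule.smul_mem _ _ (Submodule.subset_span h1) }
  have hB₁ : ∀ x, x ∈ B₁ ↔ x ∈ Submodule.span F S₁ := fun x => Iff.rfl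
  have hc1 : ∀ a ∈ B₁, ∀ b ∈ S₂, a * b = b * a := by
    intro a ha b hb
    rw [hB₁] at ha
    induction ha using Submodule.span_induction with
    | mem x hx => exact hcomm x hx b hb
    | zero => simp
    | add x y _ _ hx hy => rw [add_mul, mul_add, hx, hy]
    | smul c x _ hx => rw [smul_mul_assoc, hx, mul_smul_comm]
  -- central elements of `B₁` are scalars
  have hcen : ∀ z ∈ B₁, (∀ a ∈ B₁, z * a = a * z) → ∃ c : F, z = c • 1 := by
    intro z hz hza
    apply H20.comm_scalar
    intro X
    have hX := hspan X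
    induction hX using Submodule.span_induction with
    | mem x hx =>
      obtain ⟨a, ha, b, hb, rfl⟩ := hx
      have ha' : a ∈ B₁ := Submodule.subset_span ha
      rw [mul_assoc, ← hc1 z hz b hb, ← mul_assoc, ← hza a ha', mul_assoc]
    | zero => simp
    | add x y _ _ hx hy => rw [add_mul, mul_add, hx, hy]
    | smul c x _ hx => rw [smul_mul_assoc, hx, mul_smul_comm]
  -- structure of `B₁`
  obtain ⟨k, d, π, hd, hπ, hπ0, -⟩ := H20.sim_struct (F := F) B₁
  have hfd : FiniteDimensional F B₁ := inferInstance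
  have : IsArtinianRing B₁ := IsArtinianRing.of_finite F B₁
  obtain ⟨p, hp⟩ := exists_nil B₁
  -- the radical vanishes
  have hrad : ∀ x : B₁, x ∈ Ring.jacobson B₁ → x = 0 := by
    intro x hx
    by_contra hne
    have hne' : (x : Matrix (Fin N) (Fin N) F) ≠ 0 := fun h => hne (Subtype.ext h)
    -- two sided ideals in the whole algebra
    let W : ℕ → Submodule F (Matrix (Fin N) (Fin N) F) := fun q =>
      Nat.rec ⊤ (fun _ V => Submodule.span F
        {z | ∃ a : B₁, a ∈ Ring.jacobson B₁ ∧ ∃ y ∈ V, z = (a : Matrix (Fin N) (Fin N) F) * y}) q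
    have hW0 : W 0 = ⊤ := rfl
    have hWs : ∀ q, W (q + 1) = Submodule.span F {z | ∃ a : B₁, a ∈ Ring.jacobson B₁ ∧
        ∃ y ∈ W q, z = (a : Matrix (Fin N) (Fin N) F) * y} := fun _ => rfl
    clear_value W
    have hWr : ∀ q, ∀ z ∈ W q, ∀ X, z * X ∈ W q := by
      intro q
      induction q with
      | zero => intro z _ X; rw [hW0]; trivial
      | succ q ih =>
        intro z hz X
        rw [hWs] at hz ⊢
        induction hz using Submodule.span_induction with
        | mem x hx =>
          obtain ⟨a, ha, Y, hY, rfl⟩ := hx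
          exact Submodule.subset_span ⟨a, ha, Y * X, ih Y hY X, by rw [mul_assoc]⟩
        | zero => rw [zero_mul]; exact Submodule.zero_mem _
        | add x y _ _ hx hy => rw [add_mul]; exact Submodule.add_mem _ hx hy
        | smul c x _ hx => rw [smul_mul_assoc]; exact Submodule.smul_mem _ _ hx
    have hWl : ∀ q, ∀ z ∈ W q, ∀ X, X * z ∈ W q := by
      intro q
      induction q with
      | zero => intro z _ X; rw [hW0]; trivial
      | succ q ih =>
        intro z hz X
        have hX := hspan X
        rw [hWs] at hz ⊢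
        induction hX using Submodule.span_induction with
        | mem x hx =>
          obtain ⟨a, ha, b, hb, rfl⟩ := hx
          have ha' : a ∈ B₁ := Submodule.subset_span ha
          induction hz using Submodule.span_induction with
          | mem x hx =>
            obtain ⟨c, hc, Y, hY, rfl⟩ := hx
            refine Submodule.subset_span ⟨⟨a, ha'⟩ * c, Ideal.mul_mem_left _ _ hc, b * Y,
              ih Y hY b, ?_⟩
            have e1 := hc1 c c.2 b hb
            calc a * b * ((c : Matrix (Fin N) (Fin N) F) * Y)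
                = a * (b * (c : Matrix (Fin N) (Fin N) F)) * Y := by simp only [mul_assoc]
              _ = a * ((c : Matrix (Fin N) (Fin N) F) * b) * Y := by rw [e1]
              _ = a * (c : Matrix (Fin N) (Fin N) F) * (b * Y) := by simp only [mul_assoc]
          | zero => rw [mul_zero]; exact Submodule.zero_mem _
          | add x y _ _ hx hy => rw [mul_add]; exact Submodule.add_mem _ hx hy
          | smul c x _ hx => rw [mul_smul_comm]; exact Submodule.smul_mem _ _ hx
        | zero => rw [zero_mul]; exact Submodule.zero_mem _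
        | add x y _ _ hx hy => rw [add_mul]; exact Submodule.add_mem _ hx hy
        | smul c x _ hx => rw [smul_mul_assoc]; exact Submodule.smul_mem _ _ hx
    have hW1 : (1 : Matrix (Fin N) (Fin N) F) ∈ W 1 := by
      obtain ⟨i, j, -, hs⟩ := H20.mat_gen _ hne'
      rw [← hs]
      apply Submodule.sum_mem
      intro q _
      apply hWr
      apply hWl
      rw [hWs]
      exact Submodule.subset_span ⟨x, hx, 1, by rw [hW0]; trivial, by rw [mul_one]⟩
    have hWq : ∀ q, (1 : Matrix (Fin N) (Fin N) F) ∈ W q := by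
      intro q
      induction q with
      | zero => rw [hW0]; trivial
      | succ q ih =>
        have key : ∀ z ∈ W 1, z ∈ W (q + 1) := by
          intro z hz
          rw [hWs] at hz ⊢
          induction hz using Submodule.span_induction with
          | mem x hx =>
            obtain ⟨a, ha, X, -, rfl⟩ := hx
            have := hWl q 1 ih X
            rw [mul_one] at this
            exact Submodule.subset_span ⟨a, ha, X, this, rfl⟩
          | zero => exact Submodule.zero_mem _
          | add x y _ _ hx hy => exact Submodule.add_mem _ hx hy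
          | smul c x _ hx => exact Submodule.smul_mem _ _ hx
        exact key 1 hW1
    have hWp : ∀ q, ∀ z ∈ W q, z ∈ Submodule.span F {z : Matrix (Fin N) (Fin N) F |
        ∃ f : Fin q → B₁, (∀ i, f i ∈ Ring.jacobson B₁) ∧
          ∃ X : Matrix (Fin N) (Fin N) F, z = ((List.ofFn f).prod : B₁) * X} := by
      intro q
      induction q with
      | zero =>
        intro z _
        exact Submodule.subset_span ⟨fun i => i.elim0, fun i => i.elim0, z, by simp⟩
      | succ q ih =>
        intro z hz
        rw [hWs] at hz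
        induction hz using Submodule.span_induction with
        | mem x hx =>
          obtain ⟨a, ha, y, hy, rfl⟩ := hx
          have hy' := ih y hy
          clear hy
          induction hy' using Submodule.span_induction with
          | mem x hx =>
            obtain ⟨f, hf, X, rfl⟩ := hx
            refine Submodule.subset_span ⟨Fin.cons a f, ?_, X, ?_⟩
            · intro i
              refine Fin.cases ?_ (fun i => ?_) i
              · rw [Fin.cons_zero]; exact ha
              · rw [Fin.cons_succ]; exact hf i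
            · rw [List.ofFn_succ, List.prod_cons]
              simp only [Fin.cons_zero, Fin.cons_succ, Subalgebra.coe_mul, mul_assoc]
          | zero => rw [mul_zero]; exact Submodule.zero_mem _
          | add x y _ _ hx hy => rw [mul_add]; exact Submodule.add_mem _ hx hy
          | smul c x _ hx => rw [mul_smul_comm]; exact Submodule.smul_mem _ _ hx
        | zero => exact Submodule.zero_mem _
        | add x y _ _ hx hy => exact Submodule.add_mem _ hx hy
        | smul c x _ hx => exact Submodule.smul_mem _ _ hx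
    have h0 := hWp p 1 (hWq p)
    have hz : Submodule.span F {z : Matrix (Fin N) (Fin N) F |
        ∃ f : Fin p → B₁, (∀ i, f i ∈ Ring.jacobson B₁) ∧
          ∃ X : Matrix (Fin N) (Fin N) F, z = ((List.ofFn f).prod : B₁) * X} = ⊥ := by
      rw [eq_bot_iff]
      refine Submodule.span_le.2 ?_
      rintro z ⟨f, hf, X, rfl⟩
      rw [hp f hf]
      simp
    rw [hz, Submodule.mem_bot] at h0
    exact one_ne_zero h0
  have hinj : ∀ x : B₁, π x = 0 → x = 0 := fun x hx => hrad x ((hπ0 x).1 hx)
  have hinj' : Function.Injective π := (injective_iff_map_eq_zero π).2 hinj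
  -- only one factor
  have hk : ∃ i0 : Fin k, ∀ i, i = i0 := by
    rcases Nat.eq_zero_or_pos k with rfl | hkpos
    · exfalso
      have : (1 : B₁) = 0 := hinj 1 (by funext i; exact i.elim0)
      have := congrArg Subtype.val this
      exact one_ne_zero this
    · refine ⟨⟨0, hkpos⟩, fun i => ?_⟩
      by_contra hi
      obtain ⟨ε, hε⟩ := hπ (Pi.single i 1)
      obtain ⟨c, hc⟩ := hcen ε.1 ε.2 (by
        intro a ha
        have : ε * ⟨a, ha⟩ = ⟨a, ha⟩ * ε := by
          apply hinj'
          rw [map_mul, map_mul, hε]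
          funext j
          by_cases hj : j = i
          · subst hj; simp
          · simp [hj]
        exact congrArg Subtype.val this)
      have hc' : ε = c • (1 : B₁) := Subtype.ext hc
      have h3 : π ε = c • (1 : ∀ i, Matrix (Fin (d i)) (Fin (d i)) F) := by
        rw [hc', map_smul, map_one]
      have h4 := congrFun h3 ⟨0, hkpos⟩
      have h5 := congrFun h3 i
      rw [hε] at h4 h5
      have hne0 : NeZero (d ⟨0, hkpos⟩) := ⟨(hd _).ne'⟩
      have hne1 : NeZero (d i) := ⟨(hd _).ne'⟩
      rw [Pi.single_eq_of_ne (Ne.symm hi)] at h4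
      rw [Pi.single_eq_same] at h5
      have h6 : c = 0 := by
        have := congrFun (congrFun h4 0) 0
        simpa using this.symm
      have h7 : (1 : Matrix (Fin (d i)) (Fin (d i)) F) = 0 := by
        rw [h5, h6]
        simp
      exact one_ne_zero h7
  obtain ⟨i0, hi0⟩ := hk
  -- `B₁` is a matrix algebra
  let n := d i0
  have hn : 0 < n := hd i0
  let π0 : B₁ →ₐ[F] Matrix (Fin n) (Fin n) F :=
    (Pi.evalAlgHom F (fun i => Matrix (Fin (d i)) (Fin (d i)) F) i0).comp π
  have hπ0i : Function.Injective π0 := by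
    rw [injective_iff_map_eq_zero]
    intro x hx
    apply hinj
    funext i
    rw [hi0 i]
    exact hx
  have hπ0s : Function.Surjective π0 := by
    intro A
    obtain ⟨x, hx⟩ := hπ (Pi.single i0 A)
    refine ⟨x, ?_⟩
    change π x i0 = A
    rw [hx, Pi.single_eq_same]
  let e0 : B₁ ≃ₐ[F] Matrix (Fin n) (Fin n) F := AlgEquiv.ofBijective π0 ⟨hπ0i, hπ0s⟩
  let Φ : Matrix (Fin n) (Fin n) F →ₐ[F] Matrix (Fin N) (Fin N) F :=
    B₁.val.comp e0.symm.toAlgHom
  obtain ⟨m, T, T', hNm, hTT, hTT', hT⟩ := mat_conj hn Φ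
  have hm : 0 < m := by
    rcases Nat.eq_zero_or_pos m with h | h
    · rw [h, mul_zero] at hNm; omega
    · exact h
  have hT2 : ∀ A, Φ A = T * kr A (1 : Matrix (Fin m) (Fin m) F) * T' := by
    intro A
    rw [← hT, Matrix.mul_assoc, hTT, Matrix.mul_one]
  -- the functions `A` and `B`
  have hAex : ∀ a : Matrix (Fin N) (Fin N) F, ∃ A : Matrix (Fin n) (Fin n) F,
      a ∈ B₁ → a = T * kr A (1 : Matrix (Fin m) (Fin m) F) * T' := by
    intro a
    by_cases ha : a ∈ B₁
    · refine ⟨e0 ⟨a, ha⟩, fun _ => ?_⟩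
      rw [← hT2]
      change a = ((e0.symm (e0 ⟨a, ha⟩) : B₁) : Matrix (Fin N) (Fin N) F)
      rw [AlgEquiv.symm_apply_apply]
    · exact ⟨0, fun h => absurd h ha⟩
  choose A hA using hAex
  have hΦB : ∀ X, Φ X ∈ B₁ := fun X => (e0.symm X).2
  have hBex : ∀ b : Matrix (Fin N) (Fin N) F, ∃ B : Matrix (Fin m) (Fin m) F,
      b ∈ S₂ → b = T * kr (1 : Matrix (Fin n) (Fin n) F) B * T' := by
    intro b
    by_cases hb : b ∈ S₂
    · obtain ⟨B, hB⟩ := kr_commutant hn (T' * b * T) (by
        intro X
        have h3 : T * kr X (1 : Matrix (Fin m) (Fin m) F) * T' * b =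
            b * (T * kr X (1 : Matrix (Fin m) (Fin m) F) * T') := by
          rw [← hT2]
          exact hc1 _ (hΦB X) b hb
        calc kr X (1 : Matrix (Fin m) (Fin m) F) * (T' * b * T)
            = (T' * T) * kr X (1 : Matrix (Fin m) (Fin m) F) * (T' * b * T) := by
              rw [hTT', Matrix.one_mul]
          _ = T' * (T * kr X (1 : Matrix (Fin m) (Fin m) F) * T' * b) * T := by
              simp only [Matrix.mul_assoc]
          _ = T' * (b * (T * kr X (1 : Matrix (Fin m) (Fin m) F) * T')) * T := by rw [h3]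
          _ = T' * b * T * kr X (1 : Matrix (Fin m) (Fin m) F) * (T' * T) := by
              simp only [Matrix.mul_assoc]
          _ = _ := by rw [hTT', Matrix.mul_one])
      refine ⟨B, fun _ => ?_⟩
      rw [← hB]
      simp only [Matrix.mul_assoc]
      rw [hTT, Matrix.mul_one, ← Matrix.mul_assoc, hTT, Matrix.one_mul]
    · exact ⟨0, fun h => absurd h hb⟩
  choose B hB using hBex
  refine ⟨n, m, T, T', A, B, hn, hm, hNm, hTT, hTT', fun a ha => hA a (Submodule.subset_span ha),
    hB, ?_, ?_⟩
  · rw [eq_top_iff]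
    intro X _
    have key : ∀ z ∈ Submodule.span F S₁, ∃ Y ∈ Submodule.span F (A '' S₁),
        T' * z * T = kr Y (1 : Matrix (Fin m) (Fin m) F) := by
      intro z hz
      induction hz using Submodule.span_induction with
      | mem x hx =>
        refine ⟨A x, Submodule.subset_span ⟨x, hx, rfl⟩, ?_⟩
        conv_lhs => rw [hA x (Submodule.subset_span hx)]
        simp only [Matrix.mul_assoc]
        rw [hTT', Matrix.mul_one, ← Matrix.mul_assoc, hTT', Matrix.one_mul]
      | zero =>
        refine ⟨0, Submodule.zero_mem _, ?_⟩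
        rw [Matrix.mul_zero, Matrix.zero_mul]
        apply kr_ext
        intro i j k l
        rw [kr_apply]
        simp
      | add x y _ _ hx hy =>
        obtain ⟨X1, h3, h4⟩ := hx
        obtain ⟨Y1, h5, h6⟩ := hy
        exact ⟨X1 + Y1, Submodule.add_mem _ h3 h5, by
          rw [Matrix.mul_add, Matrix.add_mul, h4, h6, kr_add_left]⟩
      | smul c x _ hx =>
        obtain ⟨X1, h3, h4⟩ := hx
        exact ⟨c • X1, Submodule.smul_mem _ _ h3, by
          rw [Matrix.mul_smul, Matrix.smul_mul, h4, kr_smul_left]⟩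
    obtain ⟨Y, hY, hYX⟩ := key (Φ X) (hΦB X)
    have h3 : T' * Φ X * T = kr X (1 : Matrix (Fin m) (Fin m) F) := by
      rw [hT2]
      simp only [Matrix.mul_assoc]
      rw [hTT', Matrix.mul_one, ← Matrix.mul_assoc, hTT', Matrix.one_mul]
    rw [h3] at hYX
    rw [kr_one_inj_left hm hYX]
    exact hY
  · rw [eq_top_iff]
    intro X _
    have hn0 : NeZero n := ⟨hn.ne'⟩
    let sl : Matrix (Fin (n * m)) (Fin (n * m)) F →ₗ[F] Matrix (Fin m) (Fin m) F :=
      { toFun := fun M => Matrix.of fun k l =>
          M (finProdFinEquiv ((0 : Fin n), k)) (finProdFinEquiv ((0 : Fin n), l))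
        map_add' := fun M M' => by ext k l; rfl
        map_smul' := fun c M => by ext k l; rfl }
    have hsl : ∀ (Y : Matrix (Fin n) (Fin n) F) (Z : Matrix (Fin m) (Fin m) F),
        sl (kr Y Z) = Y 0 0 • Z := by
      intro Y Z
      ext k l
      change kr Y Z (finProdFinEquiv ((0 : Fin n), k)) (finProdFinEquiv ((0 : Fin n), l)) = _
      rw [kr_apply]
      rfl
    have key : ∀ z : Matrix (Fin N) (Fin N) F, sl (T' * z * T) ∈ Submodule.span F (B '' S₂) := by
      intro z
      have hz := hspan z
      induction hz using Submodule.span_induction with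
      | mem x hx =>
        obtain ⟨a, ha, b, hb, rfl⟩ := hx
        have h3 : T' * (a * b) * T = kr (A a) (B b) := by
          conv_lhs => rw [hA a (Submodule.subset_span ha), hB b hb]
          simp only [Matrix.mul_assoc]
          rw [hTT', Matrix.mul_one, ← Matrix.mul_assoc T' T, hTT', Matrix.one_mul,
            ← Matrix.mul_assoc T' T, hTT', Matrix.one_mul, kr_mul, Matrix.mul_one, Matrix.one_mul]
        rw [h3, hsl]
        exact Submodule.smul_mem _ _ (Submodule.subset_span ⟨b, hb, rfl⟩)
      | zero =>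
        rw [Matrix.mul_zero, Matrix.zero_mul, map_zero]
        exact Submodule.zero_mem _
      | add x y _ _ hx hy =>
        rw [Matrix.mul_add, Matrix.add_mul, map_add]
        exact Submodule.add_mem _ hx hy
      | smul c x _ hx =>
        rw [Matrix.mul_smul, Matrix.smul_mul, map_smul]
        exact Submodule.smul_mem _ _ hx
    have h3 := key (T * kr (1 : Matrix (Fin n) (Fin n) F) X * T')
    have h4 : T' * (T * kr (1 : Matrix (Fin n) (Fin n) F) X * T') * T =
        kr (1 : Matrix (Fin n) (Fin n) F) X := by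
      simp only [Matrix.mul_assoc]
      rw [hTT', Matrix.mul_one, ← Matrix.mul_assoc, hTT', Matrix.one_mul]
    rw [h4, hsl, Matrix.one_apply_eq, one_smul] at h3
    exact h3

end Pool.Agent.PP.H74
end
end -- Pool.Agent.Helper74_PP.Tens
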