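import Pool.Agent.Helper12_AWB.B046
import Pool.Agent.Helper46_PP.Alg
import Pool.Agent.Helper96_PP.StmtsA

/-!
# Merged copies (generated) of the modules

* `Pool.Agent.Helper46_PP.Blk`
* `Pool.Agent.Helper94_PP.Clr`
* `Pool.Agent.Helper94_PP.Pos2`
* `Pool.Agent.Helper39_AWR.Pos3`
-/

set_option autoImplicit false

section -- Pool.Agent.Helper46_PP.Blk

/-!
# Squad PP, module TOP: blocks of normal subgroups
-/

open scoped BigOperators

noncomputable section

namespace Pool.Agent.PP.H46

open Pool.Agent.Helper51_AWC Pool.Agent.Helper79_WRA Pool.Agent.PP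

section blk

variable {F H : Type} [Field F] [Group H] [Finite H]

omit [Finite H] in
theorem ext0_of_mem {N : Subgroup H} (g : N → F) {x : H} (h : x ∈ N) :
    ext0 N g x = g ⟨x, h⟩ := dif_pos h

omit [Finite H] in
theorem ext0_of_not_mem {N : Subgroup H} (g : N → F) {x : H} (h : x ∉ N) :
    ext0 N g x = 0 := dif_neg h

omit [Finite H] in
theorem ext0_restr {N : Subgroup H} {b : H → F} (hb : ∀ x, x ∉ N → b x = 0) :
    ext0 N (fun t : N => b t) = b := by
  funext x
  by_cases h : x ∈ N
  · rw [ext0_of_mem _ h]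
  · rw [ext0_of_not_mem _ h, hb x h]

omit [Finite H] in
theorem restr_ext0 {N : Subgroup H} (g : N → F) : (fun t : N => ext0 N g t) = g := by
  funext t
  rw [ext0_of_mem _ t.2]

omit [Finite H] in
theorem ext0_add {N : Subgroup H} (g h : N → F) : ext0 N (g + h) = ext0 N g + ext0 N h := by
  funext x
  change _ = ext0 N g x + ext0 N h x
  by_cases hx : x ∈ N
  · rw [ext0_of_mem _ hx, ext0_of_mem _ hx, ext0_of_mem _ hx]; rfl
  · rw [ext0_of_not_mem _ hx, ext0_of_not_mem _ hx, ext0_of_not_mem _ hx, add_zero]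

theorem ext0_mul {N : Subgroup H} (g h : N → F) :
    ext0 N (mulF g h) = mulF (ext0 N g) (ext0 N h) := by
  classical
  have := Fintype.ofFinite H
  have := Fintype.ofFinite N
  funext x
  unfold mulF
  rw [finsum_eq_sum_of_fintype]
  have e0 : ∑ t : H, ext0 N g t * ext0 N h (t⁻¹ * x) =
      ∑ t ∈ Finset.univ.filter (fun t : H => t ∈ N), ext0 N g t * ext0 N h (t⁻¹ * x) := by
    symm
    apply Finset.sum_subset (Finset.filter_subset _ _)
    intro t _ ht
    rw [Finset.mem_filter, not_and] at ht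
    rw [ext0_of_not_mem _ (ht (Finset.mem_univ _)), zero_mul]
  have e1 : ∑ t ∈ Finset.univ.filter (fun t : H => t ∈ N), ext0 N g t * ext0 N h (t⁻¹ * x) =
      ∑ t : N, ext0 N g t * ext0 N h ((t : H)⁻¹ * x) := by
    apply Finset.sum_subtype
    intro t
    rw [Finset.mem_filter]
    exact ⟨fun h => h.2, fun h => ⟨Finset.mem_univ _, h⟩⟩
  rw [e0, e1]
  by_cases hx : x ∈ N
  · rw [ext0_of_mem _ hx, finsum_eq_sum_of_fintype]
    refine Finset.sum_congr rfl fun t _ => ?_
    rw [ext0_of_mem _ t.2, ext0_of_mem _ (N.mul_mem (N.inv_mem t.2) hx)]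
    rfl
  · rw [ext0_of_not_mem _ hx]
    symm
    refine Finset.sum_eq_zero fun t _ => ?_
    rw [ext0_of_not_mem (x := (t : H)⁻¹ * x), mul_zero]
    intro h
    apply hx
    have := N.mul_mem t.2 h
    rwa [mul_inv_cancel_left] at this

omit [Finite H] in
theorem ext0_dl (N : Subgroup H) : ext0 N (dl F (1 : N)) = dl F (1 : H) := by
  classical
  funext x
  by_cases hx : x ∈ N
  · rw [ext0_of_mem _ hx]
    unfold dl
    by_cases h : x = 1
    · subst h
      rw [if_pos rfl, if_pos]
      rfl
    · rw [if_neg h, if_neg]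
      intro h'
      exact h (congrArg Subtype.val h')
  · rw [ext0_of_not_mem _ hx]
    unfold dl
    rw [if_neg]
    rintro rfl
    exact hx N.one_mem

/-- There is a block of the subgroup `N` under a nonzero idempotent. -/
theorem exists_blk {e : H → F} (he : e ≠ 0) (N : Subgroup H) :
    ∃ b : H → F, (∀ x, x ∉ N → b x = 0) ∧ IsBlk (fun t : N => b t) ∧ mulF e b ≠ 0 := by
  by_contra hcon
  push Not at hcon
  have h1 : ∀ g : N → F, IsIdem g → mulF e (ext0 N g) = 0 := by
    apply idem_induction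
    · have : ext0 N (0 : N → F) = 0 := by
        funext x
        by_cases hx : x ∈ N
        · rw [ext0_of_mem _ hx]; rfl
        · rw [ext0_of_not_mem _ hx]; rfl
      rw [this, mulF_zero]
    · intro b hb
      apply hcon
      · intro x hx
        exact ext0_of_not_mem _ hx
      · rw [restr_ext0]
        exact hb
    · intro e₁ e₂ _ _ _ h1 h2
      rw [ext0_add, mulF_add, h1, h2, add_zero]
  have h2 := h1 _ isIdem_one
  rw [ext0_dl, mulF_one] at h2
  exact he h2

/-- A stable block of a normal subgroup is a central idempotent of the whole group ring. -/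
theorem isIdem_stable {N : Subgroup H} {b : H → F} (hs : ∀ x, x ∉ N → b x = 0)
    (hb : IsBlk (fun t : N => b t)) (hc : IsCl b) : IsIdem b := by
  refine ⟨hc, ?_⟩
  have h1 := hb.1.2
  have h2 : mulF (ext0 N (fun t : N => b t)) (ext0 N (fun t : N => b t)) =
      ext0 N (fun t : N => b t) := by rw [← ext0_mul, h1]
  rwa [ext0_restr hs] at h2

/-- A stable block of a normal subgroup under a block of the group. -/
theorem mul_stable {N : Subgroup H} {b e : H → F} (hs : ∀ x, x ∉ N → b x = 0)
    (hb : IsBlk (fun t : N => b t)) (hc : IsCl b) (he : IsBlk e) (h : mulF e b ≠ 0) :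
    mulF e b = e :=
  (he.2.2 b (isIdem_stable hs hb hc)).resolve_right h

/-- IDM -/
theorem idm : IdmStmt := by
  intro ℓ F _ _ G _ _ N hN e he hz
  refine ⟨?_, ?_⟩
  · obtain ⟨b, hb1, hb2, hb3⟩ := exists_blk hz N
    refine ⟨fun t : N => b t, hb2, ?_⟩
    rwa [ext0_restr hb1]
  · intro hB b hb h hst
    apply mul_stable (N := N) (fun x hx => ext0_of_not_mem _ hx) _ _ hB h
    · rw [restr_ext0]; exact hb
    · intro x y
      have : y ∈ stabF (ext0 N b) := by rw [hst]; exact Subgroup.mem_top y
      exact this x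

end blk

end Pool.Agent.PP.H46
end
end -- Pool.Agent.Helper46_PP.Blk

section -- Pool.Agent.Helper94_PP.Clr

/-!
# Squad PP: the radical of a normal subgroup acts as zero (Clifford)
-/

open scoped BigOperators

set_option linter.unusedSectionVars false

noncomputable section

namespace Pool.Agent.PP.H94

open Pool.Agent.Helper51_AWC Pool.Agent.Helper79_WRA Pool.Agent.PP

variable {F : Type} [Field F] {H : Type} [Group H] [Finite H]

/-- the radical: all irreducible representations vanish -/
def InJ (a : MonoidAlgebra F H) : Prop :=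
  ∀ (n : ℕ) (ρ : H →* Matrix (Fin n) (Fin n) F), IsIrr ρ → repA ρ a = 0

theorem repA_surj {n : ℕ} {ρ : H →* Matrix (Fin n) (Fin n) F} (hρ : IsIrr ρ) :
    Function.Surjective (repA ρ) := (H20.lift_surjective ρ).2 hρ.2

theorem inJ_iff [IsAlgClosed F] (a : MonoidAlgebra F H) :
    InJ a ↔ a ∈ Ring.jacobson (MonoidAlgebra F H) := by
  obtain ⟨n, d, π, hd, hπ, hJ, hall⟩ := H20.sim_struct (F := F) (MonoidAlgebra F H)
  rw [← hJ]
  constructor
  · intro h
    funext i
    let Φ : MonoidAlgebra F H →ₐ[F] Matrix (Fin (d i)) (Fin (d i)) F :=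
      (Pi.evalAlgHom F _ i).comp π
    have hΦ : Function.Surjective Φ := (Function.surjective_eval i).comp hπ
    have h1 := h (d i) (H20.ofAlg Φ) (H20.ofAlg_irr (hd i) Φ hΦ)
    have e : repA (H20.ofAlg Φ) = Φ := by
      change MonoidAlgebra.lift F _ H ((MonoidAlgebra.lift F _ H).symm Φ) = Φ
      exact Equiv.apply_symm_apply _ _
    rw [e] at h1
    exact h1
  · intro h m ρ hρ
    obtain ⟨i, -, hi⟩ := hall m (repA ρ) hρ.1 (repA_surj hρ)
    rw [hi, h]
    rfl

/-- conjugation of the group ring of a normal subgroup -/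
def cj (Q : Subgroup H) [Q.Normal] (h : H) : MonoidAlgebra F Q →ₐ[F] MonoidAlgebra F Q :=
  MonoidAlgebra.mapDomainAlgHom F F ((MulAut.conjNormal h : MulAut Q) : Q →* Q)

theorem cj_single (Q : Subgroup H) [Q.Normal] (h : H) (q : Q) (c : F) :
    cj Q h (MonoidAlgebra.single q c) = MonoidAlgebra.single (MulAut.conjNormal h q) c := by
  change MonoidAlgebra.mapDomain _ _ = _
  rw [MonoidAlgebra.mapDomain_single]
  rfl

theorem inJ_cj (Q : Subgroup H) [Q.Normal] (h : H) {a : MonoidAlgebra F Q} (ha : InJ a) :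
    InJ (cj Q h a) := by
  intro n ρ hρ
  have h1 : IsIrr (ρ.comp ((MulAut.conjNormal h : MulAut Q) : Q →* Q)) := by
    refine ⟨hρ.1, ?_⟩
    rw [← hρ.2]
    congr 1
    ext x
    constructor
    · rintro ⟨q, rfl⟩
      exact ⟨_, rfl⟩
    · rintro ⟨q, rfl⟩
      refine ⟨(MulAut.conjNormal h : MulAut Q).symm q, ?_⟩
      change ρ ((MulAut.conjNormal h : MulAut Q) ((MulAut.conjNormal h : MulAut Q).symm q)) = _
      rw [MulEquiv.apply_symm_apply]
  have h2 := ha n _ h1
  have e : ∀ b : MonoidAlgebra F Q, repA ρ (cj Q h b) =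
      repA (ρ.comp ((MulAut.conjNormal h : MulAut Q) : Q →* Q)) b := by
    intro b
    induction b using MonoidAlgebra.induction_linear with
    | zero => rw [map_zero, map_zero, map_zero]
    | add x y hx hy => rw [map_add, map_add, map_add, hx, hy]
    | single g c => rw [cj_single, repA_single, repA_single]; rfl
  rw [e, h2]

theorem repA_cj {n : ℕ} (Q : Subgroup H) [Q.Normal] (ρ : H →* Matrix (Fin n) (Fin n) F) (h : H)
    (a : MonoidAlgebra F Q) : ρ h * repA (ρ.comp Q.subtype) a =
      repA (ρ.comp Q.subtype) (cj Q h a) * ρ h := by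
  induction a using MonoidAlgebra.induction_linear with
  | zero => rw [map_zero, map_zero, map_zero, mul_zero, zero_mul]
  | add x y hx hy => rw [map_add, map_add, map_add, mul_add, add_mul, hx, hy]
  | single g c =>
    rw [cj_single, repA_single, repA_single, mul_smul_comm, smul_mul_assoc]
    congr 1
    change ρ h * ρ (g : H) = ρ ((MulAut.conjNormal h g : Q) : H) * ρ h
    rw [← map_mul, ← map_mul, MulAut.conjNormal_apply, inv_mul_cancel_right]

/-- The radical of a normal subgroup acts as zero on the irreducible representations. -/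
theorem clr [IsAlgClosed F] (Q : Subgroup H) [Q.Normal] {n : ℕ}
    {ρ : H →* Matrix (Fin n) (Fin n) F} (hρ : IsIrr ρ) {a : MonoidAlgebra F Q} (ha : InJ a) :
    repA (ρ.comp Q.subtype) a = 0 := by
  classical
  by_contra hne
  set Φ := repA (ρ.comp Q.subtype) with hΦ
  set J := Ring.jacobson (MonoidAlgebra F Q) with hJ
  have hart : IsArtinianRing (MonoidAlgebra F Q) := IsArtinianRing.of_finite F _
  obtain ⟨m, hm⟩ : IsNilpotent J := IsSemiprimaryRing.isNilpotent
  -- the right ideals
  let S : ℕ → Submodule F (Matrix (Fin n) (Fin n) F) := fun k =>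
    Submodule.span F {x | ∃ b ∈ J ^ k, ∃ W, x = Φ b * W}
  have hS1 : (1 : Matrix (Fin n) (Fin n) F) ∈ S 1 := by
    obtain ⟨i, j, -, hs⟩ := H20.mat_gen _ hne
    rw [← hs]
    refine Submodule.sum_mem _ fun p _ => ?_
    have key : ∀ (U : Matrix (Fin n) (Fin n) F), ∀ W, U * Φ a * W ∈ S 1 := by
      intro U
      have hU : U ∈ Submodule.span F (Set.range ρ) := by rw [hρ.2]; trivial
      induction hU using Submodule.span_induction with
      | mem x hx =>
        obtain ⟨h, rfl⟩ := hx
        intro W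
        rw [hΦ, repA_cj, mul_assoc]
        refine Submodule.subset_span ⟨cj Q h a, ?_, _, rfl⟩
        rw [Submodule.pow_one, hJ, ← inJ_iff]
        exact inJ_cj Q h ha
      | zero =>
        intro W
        rw [zero_mul, zero_mul]
        exact Submodule.zero_mem _
      | add x y _ _ hx hy =>
        intro W
        rw [add_mul, add_mul]
        exact Submodule.add_mem _ (hx W) (hy W)
      | smul c x _ hx =>
        intro W
        rw [smul_mul_assoc, smul_mul_assoc]
        exact Submodule.smul_mem _ _ (hx W)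
    exact key _ _
  have hSk : ∀ k, (1 : Matrix (Fin n) (Fin n) F) ∈ S (k + 1) := by
    intro k
    induction k with
    | zero => exact hS1
    | succ k ih =>
      have key : ∀ b ∈ J ^ (k + 1), ∀ V, V ∈ S 1 → ∀ W, Φ b * V * W ∈ S (k + 1 + 1) := by
        intro b hb V hV
        induction hV using Submodule.span_induction with
        | mem x hx =>
          obtain ⟨b', hb', W', rfl⟩ := hx
          intro W
          rw [Submodule.pow_one] at hb'
          have e : Φ b * (Φ b' * W') * W = Φ (b * b') * (W' * W) := by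
            rw [map_mul]
            noncomm_ring
          rw [e]
          refine Submodule.subset_span ⟨b * b', ?_, _, rfl⟩
          rw [Submodule.pow_succ (n := k + 1)]
          exact Ideal.mul_mem_mul hb hb'
        | zero =>
          intro W
          rw [mul_zero, zero_mul]
          exact Submodule.zero_mem _
        | add x y _ _ hx hy =>
          intro W
          rw [mul_add, add_mul]
          exact Submodule.add_mem _ (hx W) (hy W)
        | smul c x _ hx =>
          intro W
          rw [mul_smul_comm, smul_mul_assoc]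
          exact Submodule.smul_mem _ _ (hx W)
      refine Submodule.span_induction (p := fun x _ => x ∈ S (k + 1 + 1)) ?_ ?_ ?_ ?_ ih
      · rintro x ⟨b, hb, W, rfl⟩
        have := key b hb 1 hS1 W
        rwa [mul_one] at this
      · exact Submodule.zero_mem _
      · intro x y _ _ hx hy
        exact Submodule.add_mem _ hx hy
      · intro c x _ hx
        exact Submodule.smul_mem _ _ hx
  have h1 := hSk m
  have h2 : S (m + 1) = ⊥ := by
    rw [eq_bot_iff]
    refine Submodule.span_le.2 ?_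
    rintro x ⟨b, hb, W, rfl⟩
    have hb' := Ideal.pow_le_pow_right (Nat.le_succ m) hb
    rw [hm] at hb'
    have hb0 : b = 0 := hb'
    rw [hb0, map_zero, zero_mul]
    exact Submodule.zero_mem _
  rw [h2, Submodule.mem_bot] at h1
  have : NeZero n := ⟨hρ.1.ne'⟩
  exact one_ne_zero h1

/-- The same for functions. -/
theorem clr' [IsAlgClosed F] (Q : Subgroup H) [Q.Normal] {n : ℕ}
    {ρ : H →* Matrix (Fin n) (Fin n) F} (hρ : IsIrr ρ) {a : Q → F}
    (ha : ∀ (k : ℕ) (σ : Q →* Matrix (Fin k) (Fin k) F), IsIrr σ → ev σ a = 0) :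
    ev (ρ.comp Q.subtype) a = 0 := by
  rw [ev_eq]
  apply clr Q hρ
  intro k σ hσ
  rw [← ev_eq]
  exact ha k σ hσ

end Pool.Agent.PP.H94
end
end -- Pool.Agent.Helper94_PP.Clr

section -- Pool.Agent.Helper94_PP.Pos2

/-!
# Squad PP, module POS2: positivity over a normal subgroup implies positivity
-/

open scoped BigOperators

set_option linter.unusedSectionVars false

noncomputable section

namespace Pool.Agent.PP

open Pool.Agent.Helper51_AWC Pool.Agent.Helper79_WRA

/-- POS2: positivity over a normal subgroup implies positivity. -/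
def Pos2Stmt : Prop := ∀ (ℓ : ℕ) (F : Type) [Field F], GoodF ℓ F → ∀ (H : Type) [Group H] [Finite H]
  (Q : Subgroup H), Q.Normal → ∀ e : H → F, IsIdem e → Pos ℓ e Q → Pos ℓ e ⊤

namespace H94

variable {F : Type} [Field F] {H : Type} [Group H]

open Classical in
/-- the sum over all conjugates -/
theorem sum_conj {V : Type} [AddCommGroup V] [Fintype H] (x : H) (f : H → V) :
    ∑ g : H, f (g * x * g⁻¹) = Nat.card (Subgroup.centralizer ({x} : Set H)) •
      ∑ y : H, if ∃ g : H, y = g * x * g⁻¹ then f y else 0 := by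
  have h1 : ∑ g : H, f (g * x * g⁻¹) =
      ∑ y : H, ∑ g ∈ Finset.univ.filter (fun g : H => g * x * g⁻¹ = y), f (g * x * g⁻¹) :=
    (Finset.sum_fiberwise _ _ _).symm
  rw [h1, Finset.smul_sum]
  refine Finset.sum_congr rfl fun y _ => ?_
  by_cases hy : ∃ g : H, y = g * x * g⁻¹
  · rw [if_pos hy]
    obtain ⟨g₀, hg₀⟩ := hy
    have h2 : ∑ g ∈ Finset.univ.filter (fun g : H => g * x * g⁻¹ = y), f (g * x * g⁻¹) =
        ∑ g ∈ Finset.univ.filter (fun g : H => g * x * g⁻¹ = y), f y := by
      refine Finset.sum_congr rfl fun g hg => ?_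
      rw [(Finset.mem_filter.1 hg).2]
    rw [h2, Finset.sum_const]
    congr 1
    rw [Nat.card_eq_fintype_card, ← Finset.card_univ]
    symm
    refine Finset.card_bij (fun c _ => g₀ * (c : H)) ?_ ?_ ?_
    · intro c _
      rw [Finset.mem_filter]
      refine ⟨Finset.mem_univ _, ?_⟩
      have hc := Subgroup.mem_centralizer_singleton_iff.1 c.2
      rw [hg₀]
      have : g₀ * (c : H) * x * (g₀ * (c : H))⁻¹ = g₀ * ((c : H) * x) * (c : H)⁻¹ * g₀⁻¹ := by
        group
      rw [this, hc]
      group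
    · intro c _ c' _ h
      exact Subtype.ext (mul_left_cancel h)
    · intro g hg
      have hg' := (Finset.mem_filter.1 hg).2
      refine ⟨⟨g₀⁻¹ * g, ?_⟩, Finset.mem_univ _, by rw [mul_inv_cancel_left]⟩
      rw [Subgroup.mem_centralizer_singleton_iff]
      rw [hg₀] at hg'
      have h3 : g * x = g₀ * x * g₀⁻¹ * g := by
        rw [← hg', inv_mul_cancel_right]
      rw [mul_assoc, h3]
      group
  · rw [if_neg hy, smul_zero]
    refine Finset.sum_eq_zero fun g hg => ?_
    exact absurd ⟨g, (Finset.mem_filter.1 hg).2.symm⟩ hy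

theorem clsum_isCl (Q : Subgroup H) [Q.Normal] (x : H) :
    ∀ z y, y ∈ Q → clsum F Q x (y * z * y⁻¹) = clsum F Q x z := by
  classical
  intro z y hy
  unfold clsum
  congr 1
  apply propext
  constructor
  · rintro ⟨q, hq, h⟩
    refine ⟨y⁻¹ * q, Q.mul_mem (Q.inv_mem hy) hq, ?_⟩
    have : z = y⁻¹ * (y * z * y⁻¹) * y := by group
    rw [this, h]
    group
  · rintro ⟨q, hq, rfl⟩
    exact ⟨y * q, Q.mul_mem hy hq, by group⟩

theorem card_cent (Q : Subgroup H) (x : Q) :
    Nat.card (Subgroup.centralizer ({x} : Set Q)) =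
      Nat.card (Subgroup.centralizer ({(x : H)} : Set H) ⊓ Q : Subgroup H) := by
  refine Nat.card_congr
    { toFun := fun c => ⟨(c : Q), ?_, (c : Q).2⟩
      invFun := fun c => ⟨⟨c, c.2.2⟩, ?_⟩
      left_inv := fun c => rfl
      right_inv := fun c => rfl }
  · have := Subgroup.mem_centralizer_singleton_iff.1 c.2
    exact Subgroup.mem_centralizer_singleton_iff.2 (congrArg Subtype.val this)
  · have := Subgroup.mem_centralizer_singleton_iff.1 c.2.1
    exact Subgroup.mem_centralizer_singleton_iff.2 (Subtype.ext this)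

/-- The value of a function vanishing outside of a subgroup. -/
theorem ev_restrict [Finite H] {n : ℕ} (ρ : H →* Matrix (Fin n) (Fin n) F) (Q : Subgroup H)
    (b : H → F) (hb : ∀ x, x ∉ Q → b x = 0) :
    ev ρ b = ev (ρ.comp Q.subtype) (fun q : Q => b q) := by
  classical
  have := Fintype.ofFinite H
  rw [ev, ev, finsum_eq_sum_of_fintype, finsum_eq_sum_of_fintype]
  rw [← Finset.sum_subset (Finset.subset_univ (Finset.univ.filter (fun x : H => x ∈ Q)))]
  · refine (Finset.sum_bij (fun (q : Q) _ => (q : H)) ?_ ?_ ?_ ?_).symm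
    · intro q _
      exact Finset.mem_filter.2 ⟨Finset.mem_univ _, q.2⟩
    · intro q _ q' _ h
      exact Subtype.ext h
    · intro x hx
      exact ⟨⟨x, (Finset.mem_filter.1 hx).2⟩, Finset.mem_univ _, rfl⟩
    · intro q _
      rfl
  · intro x _ hx
    rw [hb x (fun h => hx (Finset.mem_filter.2 ⟨Finset.mem_univ _, h⟩)), zero_smul]

/-- sums over a group by cosets of a subgroup -/
theorem sum_cosets {V : Type} [AddCommGroup V] [Fintype H] (Q : Subgroup H) (f : H → V)
    (h0 : ∀ r : H, ∑ᶠ q : Q, f (r * q) = 0) : ∑ h : H, f h = 0 := by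
  classical
  have hb : Function.Bijective (fun p : (H ⧸ Q) × Q => p.1.out * (p.2 : H)) := by
    constructor
    · rintro ⟨c, q⟩ ⟨c', q'⟩ h
      have h1 : c.out * (q : H) = c'.out * (q' : H) := h
      have h2 : c = c' := by
        have e1 : ((c.out * (q : H) : H) : H ⧸ Q) = c := by
          rw [QuotientGroup.mk_mul_of_mem _ q.2]
          exact Quotient.out_eq' c
        have e2 : ((c'.out * (q' : H) : H) : H ⧸ Q) = c' := by
          rw [QuotientGroup.mk_mul_of_mem _ q'.2]
          exact Quotient.out_eq' c'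
        rw [← e1, ← e2, h1]
      subst h2
      rw [Prod.mk.injEq]
      exact ⟨rfl, Subtype.ext (mul_left_cancel h1)⟩
    · intro h
      refine ⟨⟨(h : H ⧸ Q), ⟨((h : H ⧸ Q)).out⁻¹ * h, ?_⟩⟩, ?_⟩
      · rw [← QuotientGroup.eq]
        exact Quotient.out_eq' _
      · exact mul_inv_cancel_left _ _
  rw [← (Equiv.ofBijective _ hb).sum_comp f, Fintype.sum_prod_type]
  refine Finset.sum_eq_zero fun c _ => ?_
  rw [← h0 c.out, finsum_eq_sum_of_fintype]
  rfl

/-- `ev` as a linear map -/
def evL [Finite H] {n : ℕ} (ρ : H →* Matrix (Fin n) (Fin n) F) :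
    (H → F) →ₗ[F] Matrix (Fin n) (Fin n) F := (repA ρ).toLinearMap ∘ₗ maL.toLinearMap

theorem evL_apply [Finite H] {n : ℕ} (ρ : H →* Matrix (Fin n) (Fin n) F) (a : H → F) :
    evL ρ a = ev ρ a := (ev_eq ρ a).symm

theorem evL_surj [Finite H] {n : ℕ} {ρ : H →* Matrix (Fin n) (Fin n) F} (hρ : IsIrr ρ) :
    Function.Surjective (evL ρ) := (repA_surj hρ).comp maL.surjective

theorem ev_clsum [Fintype H] {n : ℕ} (ρ : H →* Matrix (Fin n) (Fin n) F) (x : H) :
    ∑ g : H, ρ g * ρ x * ρ g⁻¹ =
      (Nat.card (Subgroup.centralizer ({x} : Set H)) : F) • ev ρ (clsum F ⊤ x) := by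
  classical
  have h1 := sum_conj x (fun y => ρ y)
  have h2 : ∑ g : H, ρ g * ρ x * ρ g⁻¹ = ∑ g : H, ρ (g * x * g⁻¹) :=
    Finset.sum_congr rfl fun g _ => by rw [map_mul, map_mul]
  rw [h2, h1, ← Nat.cast_smul_eq_nsmul F, ev, finsum_eq_sum_of_fintype]
  congr 1
  refine Finset.sum_congr rfl fun y _ => ?_
  unfold clsum
  by_cases hy : ∃ g : H, y = g * x * g⁻¹
  · rw [if_pos hy, if_pos (by obtain ⟨g, hg⟩ := hy; exact ⟨g, trivial, hg⟩), one_smul]
  · rw [if_neg hy, if_neg (by rintro ⟨g, _, hg⟩; exact hy ⟨g, hg⟩), zero_smul]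

theorem clsum_restrict (Q : Subgroup H) (y : Q) :
    (fun q : Q => clsum F Q (y : H) q) = clsum F (⊤ : Subgroup Q) y := by
  classical
  funext q
  unfold clsum
  congr 1
  apply propext
  constructor
  · rintro ⟨r, hr, h⟩
    exact ⟨⟨r, hr⟩, trivial, Subtype.ext h⟩
  · rintro ⟨r, _, h⟩
    exact ⟨r, r.2, congrArg Subtype.val h⟩

theorem clsum_outside (Q : Subgroup H) (y : Q) (x : H) (hx : x ∉ Q) :
    clsum F Q (y : H) x = 0 := by
  classical
  unfold clsum
  rw [if_neg]
  rintro ⟨q, hq, rfl⟩
  exact hx (Q.mul_mem (Q.mul_mem hq y.2) (Q.inv_mem hq))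

theorem ev_intertwine [Finite H] {n m : ℕ} (ρ : H →* Matrix (Fin n) (Fin n) F)
    (τ : H →* Matrix (Fin m) (Fin m) F) (Y : Matrix (Fin n) (Fin m) F)
    (h : ∀ g, ρ g * Y = Y * τ g) (a : H → F) : ev ρ a * Y = Y * ev τ a := by
  have := Fintype.ofFinite H
  rw [ev, ev, finsum_eq_sum_of_fintype, finsum_eq_sum_of_fintype, Matrix.sum_mul, Matrix.mul_sum]
  refine Finset.sum_congr rfl fun t _ => ?_
  rw [Matrix.smul_mul, Matrix.mul_smul, h]

theorem mul_single_mul {a b : ℕ} (A : Matrix (Fin a) (Fin a) F) (B : Matrix (Fin b) (Fin b) F)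
    (i j : Fin a) (k l : Fin b) :
    (A * Matrix.single j k (1 : F) * B) i l = A i j * B k l := by
  rw [Matrix.mul_apply, Finset.sum_eq_single k]
  · rw [Matrix.mul_single_apply_same, mul_one]
  · intro c _ hc
    rw [Matrix.mul_single_apply_of_ne _ _ _ _ _ hc, zero_mul]
  · intro h
    exact absurd (Finset.mem_univ _) h

theorem bil_zero {ι : Type} [Fintype ι] {a b n : ℕ}
    (L : Matrix (Fin a) (Fin a) F →ₗ[F] Matrix (Fin n) (Fin n) F)
    (R : Matrix (Fin b) (Fin b) F →ₗ[F] Matrix (Fin n) (Fin n) F) (Z : Matrix (Fin n) (Fin n) F)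
    (A : ι → Matrix (Fin a) (Fin a) F) (B : ι → Matrix (Fin b) (Fin b) F)
    (h : ∀ (j : Fin a) (k : Fin b), ∑ q, A q * Matrix.single j k (1 : F) * B q = 0) :
    ∑ q, L (A q) * Z * R (B q) = 0 := by
  classical
  have hexp : ∀ {c : ℕ} (T : Matrix (Fin c) (Fin c) F →ₗ[F] Matrix (Fin n) (Fin n) F)
      (X : Matrix (Fin c) (Fin c) F), T X = ∑ i, ∑ j, X i j • T (Matrix.single i j 1) := by
    intro c T X
    conv_lhs => rw [Matrix.matrix_eq_sum_single X]
    rw [map_sum]
    refine Finset.sum_congr rfl fun i _ => ?_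
    rw [map_sum]
    refine Finset.sum_congr rfl fun j _ => ?_
    rw [← map_smul, Matrix.smul_single, smul_eq_mul, mul_one]
  have e2 : ∀ q, L (A q) * Z * R (B q) = ∑ i, ∑ j, ∑ k, ∑ l, (A q i j * B q k l) •
      (L (Matrix.single i j 1) * Z * R (Matrix.single k l 1)) := by
    intro q
    rw [hexp L (A q), Finset.sum_mul, Finset.sum_mul]
    refine Finset.sum_congr rfl fun i _ => ?_
    rw [Finset.sum_mul, Finset.sum_mul]
    refine Finset.sum_congr rfl fun j _ => ?_
    rw [hexp R (B q), Finset.mul_sum]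
    refine Finset.sum_congr rfl fun k _ => ?_
    rw [Finset.mul_sum]
    refine Finset.sum_congr rfl fun l _ => ?_
    rw [smul_mul_assoc, smul_mul_assoc, mul_smul_comm, smul_smul]
  simp only [e2]
  rw [Finset.sum_comm]
  refine Finset.sum_eq_zero fun i _ => ?_
  rw [Finset.sum_comm]
  refine Finset.sum_eq_zero fun j _ => ?_
  rw [Finset.sum_comm]
  refine Finset.sum_eq_zero fun k _ => ?_
  rw [Finset.sum_comm]
  refine Finset.sum_eq_zero fun l _ => ?_
  rw [← Finset.sum_smul]
  have h1 := congrFun (congrFun (h j k) i) l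
  rw [Matrix.sum_apply] at h1
  simp only [mul_single_mul] at h1
  rw [h1]
  exact zero_smul _ _

/-- POS2 -/
theorem pos2 : Pos2Stmt := by
  classical
  intro ℓ F _ hF H _ _ Q hQ e he hpos x _ hx
  have := hF.closed
  have := hF.char
  have hfH := Fintype.ofFinite H
  have hfQ := Fintype.ofFinite Q
  by_contra hcon
  push Not at hcon
  set K := clsum F (⊤ : Subgroup H) x with hK
  have hKc : IsCl K := fun z y => clsum_isCl ⊤ x z y trivial
  -- an irreducible representation
  obtain ⟨n, ρ, hρ, hne⟩ : ∃ (n : ℕ) (ρ : H →* Matrix (Fin n) (Fin n) F),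
      IsIrr ρ ∧ ev ρ (mulF K e) ≠ 0 := by
    by_contra hc
    push Not at hc
    obtain ⟨k, hk⟩ := H20.ibn ℓ F hF H (mulF K e) hc
    apply hcon (k + 1)
    apply ma_injective
    rw [ma_iterate, ma_zero]
    have h1 := congrArg ma hk
    rw [ma_iterate, ma_mul, ma_zero, ← pow_succ] at h1
    have hcomm : Commute (ma K) (ma e) :=
      ((Subalgebra.mem_center_iff.1 ((isCl_iff K).1 hKc)) (ma e)).symm
    rw [hcomm.mul_pow, ((isIdem_iff e).1 he).2.pow_succ_eq] at h1
    exact h1
  obtain ⟨κ, hκ, -, -⟩ := H20.eig F H n ρ hρ K hKc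
  obtain ⟨w, hw, -, hw01⟩ := H20.eig F H n ρ hρ e he.1
  rw [ev_mulF, hκ, hw] at hne
  have hκ0 : κ ≠ 0 := by
    rintro rfl
    apply hne
    rw [map_zero, zero_mul]
  have hw1 : w = 1 := by
    rcases hw01 he with h | h
    · subst h
      exact absurd (by rw [map_zero, mul_zero]) hne
    · exact h
  subst hw1
  rw [map_one] at hw
  set ρ' : Q →* Matrix (Fin n) (Fin n) F := ρ.comp Q.subtype with hρ'
  have hn0 : NeZero n := ⟨hρ.1.ne'⟩
  -- the irreducible representations of `Q`
  obtain ⟨hfin, -⟩ := H20.ibf ℓ F hF Q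
  have hfin' : Finite (IBr F Q) := hfin
  have hft := Fintype.ofFinite (IBr F Q)
  choose d σ hσ htr using fun i : IBr F Q => i.2
  have hinj : Function.Injective (fun i => tr (σ i)) := by
    intro i j h
    exact Subtype.ext ((htr i).trans (h.trans (htr j).symm))
  have hJ : ∀ a : Q → F, (∀ i, ev (σ i) a = 0) → ev ρ' a = 0 := by
    intro a ha
    apply clr' Q hρ
    intro k τ hτ
    have hm : tr τ ∈ IBr F Q := ⟨k, τ, hτ, rfl⟩
    obtain ⟨X, Y, hkd, hXY, hYX, hX⟩ := H20.ibc ℓ F hF Q _ _ τ (σ ⟨tr τ, hm⟩) hτ (hσ _)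
      (htr ⟨tr τ, hm⟩)
    have h2 : X * ev τ a = ev (σ ⟨tr τ, hm⟩) a * X := by
      exact (ev_intertwine _ _ X (fun g => (hX g).symm) a).symm
    rw [ha, Matrix.zero_mul] at h2
    calc ev τ a = Y * (X * ev τ a) := by rw [← Matrix.mul_assoc, hYX, Matrix.one_mul]
      _ = 0 := by rw [h2, Matrix.mul_zero]
  have hf : ∀ i, ∃ f : Q → F, ∀ j, ev (σ j) f = if j = i then 1 else 0 := fun i =>
    H20.ibj ℓ F hF Q (IBr F Q) d σ hσ hinj (fun j => if j = i then 1 else 0)
  choose f hf using hf
  have hev_sum : ∀ {m : ℕ} (τ : Q →* Matrix (Fin m) (Fin m) F) (s : IBr F Q → Q → F),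
      ev τ (∑ i, s i) = ∑ i, ev τ (s i) := by
    intro m τ s
    rw [← evL_apply, map_sum]
    exact Finset.sum_congr rfl fun i _ => evL_apply τ _
  have hev_sub : ∀ {m : ℕ} (τ : Q →* Matrix (Fin m) (Fin m) F) (a b : Q → F),
      ev τ (a - b) = ev τ a - ev τ b := by
    intro m τ a b
    rw [← evL_apply, map_sub, evL_apply, evL_apply]
  set P : IBr F Q → Matrix (Fin n) (Fin n) F := fun i => ev ρ' (f i) with hP
  have hone : ∑ i, P i = 1 := by
    have h1 := hJ (dl F 1 - ∑ i, f i) (by
      intro j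
      rw [hev_sub, ev_dl, map_one, hev_sum]
      simp only [hf]
      rw [Finset.sum_ite_eq Finset.univ j, if_pos (Finset.mem_univ _), sub_self])
    rw [hev_sub, ev_dl, map_one, hev_sum, sub_eq_zero] at h1
    exact h1.symm
  -- linear sections
  have hs : ∀ i, ∃ s : Matrix (Fin (d i)) (Fin (d i)) F →ₗ[F] (Q → F), ∀ X, ev (σ i) (s X) = X := by
    intro i
    obtain ⟨s, hs⟩ := (evL (σ i)).exists_rightInverse_of_surjective
      (LinearMap.range_eq_top.2 (evL_surj (hσ i)))
    refine ⟨s, fun X => ?_⟩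
    rw [← evL_apply]
    exact LinearMap.congr_fun hs X
  choose s hs using hs
  let L : ∀ i, Matrix (Fin (d i)) (Fin (d i)) F →ₗ[F] Matrix (Fin n) (Fin n) F := fun i =>
    (LinearMap.mulRight F (P i)) ∘ₗ (evL ρ') ∘ₗ s i
  let R : ∀ i, Matrix (Fin (d i)) (Fin (d i)) F →ₗ[F] Matrix (Fin n) (Fin n) F := fun i =>
    (LinearMap.mulLeft F (P i)) ∘ₗ (evL ρ') ∘ₗ s i
  have hL : ∀ i a, ev ρ' a * P i = L i (ev (σ i) a) := by
    intro i a
    change _ = evL ρ' (s i (ev (σ i) a)) * P i
    rw [evL_apply, ← sub_eq_zero, ← sub_mul, ← hev_sub]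
    change _ * ev ρ' (f i) = 0
    rw [← ev_mulF]
    apply hJ
    intro j
    rw [ev_mulF, hf, hev_sub]
    by_cases hji : j = i
    · subst hji
      rw [hs, sub_self, zero_mul]
    · rw [if_neg hji, mul_zero]
  have hR : ∀ i a, P i * ev ρ' a = R i (ev (σ i) a) := by
    intro i a
    change _ = P i * evL ρ' (s i (ev (σ i) a))
    rw [evL_apply, ← sub_eq_zero, ← mul_sub, ← hev_sub]
    change ev ρ' (f i) * _ = 0
    rw [← ev_mulF]
    apply hJ
    intro j
    rw [ev_mulF, hf, hev_sub]
    by_cases hji : j = i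
    · subst hji
      rw [hs, sub_self, mul_zero]
    · rw [if_neg hji, zero_mul]
  -- defect zero classes act as zero
  have hdz : ∀ i, P i ≠ 0 → ∀ y : Q, ¬ ℓ ∣ Nat.card (Subgroup.centralizer ({y} : Set Q)) →
      ev (σ i) (clsum F (⊤ : Subgroup Q) y) = 0 := by
    intro i hi y hy
    obtain ⟨k, hk⟩ := hpos y y.2 (by rwa [← card_cent])
    have h1 := congrArg (ev ρ) hk
    rw [ev_iterate, hw, mul_one, ev_restrict ρ Q _ (clsum_outside Q y), clsum_restrict] at h1
    have h2 : ev ρ (0 : H → F) = 0 := by rw [ev_eq, ma_zero, map_zero]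
    rw [h2] at h1
    obtain ⟨c, hc, -, -⟩ := H20.eig F Q _ (σ i) (hσ i) (clsum F (⊤ : Subgroup Q) y)
      (fun z u => clsum_isCl ⊤ y z u trivial)
    have h3 : ev ρ' (clsum F (⊤ : Subgroup Q) y) * P i = c • P i := by
      have e1 : P i = L i 1 := by
        have := hL i (dl F 1)
        rwa [ev_dl, map_one, one_mul, ev_dl, map_one] at this
      rw [hL, hc, e1, ← map_smul]
      congr 1
      rw [Matrix.scalar_apply, Matrix.smul_one_eq_diagonal]
    have h4 : ∀ m : ℕ, ev ρ' (clsum F (⊤ : Subgroup Q) y) ^ m * P i = c ^ m • P i := by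
      intro m
      induction m with
      | zero => rw [pow_zero, pow_zero, one_mul, one_smul]
      | succ m ih => rw [pow_succ, mul_assoc, h3, mul_smul_comm, ih, smul_smul, pow_succ, mul_comm]
    have h5 := h4 k
    rw [h1, zero_mul] at h5
    have h6 : c ^ k = 0 := by
      rcases smul_eq_zero.1 h5.symm with h | h
      · exact h
      · exact absurd h hi
    have h7 : c = 0 := eq_zero_of_pow_eq_zero h6
    rw [hc, h7, map_zero]
  -- orthogonality
  have hcoef : ∀ i j, P i ≠ 0 → ∀ (b : Fin (d i)) (c : Fin (d j)),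
      ∑ q : Q, σ i q * Matrix.single b c (1 : F) * σ j q⁻¹ = 0 := by
    intro i j hi b c
    by_cases hij : i = j
    · subst hij
      obtain ⟨a, ha⟩ : ∃ a, ev (σ i) a = Matrix.single b c (1 : F) := ⟨_, hs i _⟩
      rw [← ha]
      have e1 : ∀ q : Q, σ i q * ev (σ i) a * σ i q⁻¹ =
          ∑ y : Q, a y • (σ i q * σ i y * σ i q⁻¹) := by
        intro q
        rw [ev, finsum_eq_sum_of_fintype, Finset.mul_sum, Finset.sum_mul]
        refine Finset.sum_congr rfl fun y _ => ?_
        rw [mul_smul_comm, smul_mul_assoc]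
      simp only [e1]
      rw [Finset.sum_comm]
      refine Finset.sum_eq_zero fun y _ => ?_
      rw [← Finset.smul_sum, ev_clsum]
      by_cases hy : ℓ ∣ Nat.card (Subgroup.centralizer ({y} : Set Q))
      · rw [(CharP.cast_eq_zero_iff F ℓ _).2 hy, zero_smul, smul_zero]
      · rw [hdz i hi y hy, smul_zero, smul_zero]
    · set Y := ∑ q : Q, σ i q * Matrix.single b c (1 : F) * σ j q⁻¹ with hY
      have h1 : ∀ g : Q, σ i g * Y = Y * σ j g := by
        intro g
        rw [hY, Matrix.mul_sum, Matrix.sum_mul]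
        rw [← Equiv.sum_comp (Equiv.mulLeft g : Q ≃ Q)
          (fun q => σ i q * Matrix.single b c (1 : F) * σ j q⁻¹ * σ j g)]
        refine Finset.sum_congr rfl fun q _ => ?_
        change _ = σ i (g * q) * Matrix.single b c (1 : F) * σ j (g * q)⁻¹ * σ j g
        rw [mul_inv_rev, Matrix.mul_assoc _ (σ j _) (σ j g), ← map_mul (σ j),
          inv_mul_cancel_right, map_mul (σ i)]
        simp only [Matrix.mul_assoc]
      have h2 : ev (σ i) (f i) * Y = Y * ev (σ j) (f i) := ev_intertwine _ _ Y h1 (f i)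
      rw [hf, hf, if_pos rfl, if_neg (fun h => hij h.symm), Matrix.one_mul, Matrix.mul_zero] at h2
      exact h2
  -- the trace from the trivial subgroup to `Q` is zero
  have hT : ∀ Z : Matrix (Fin n) (Fin n) F, ∑ q : Q, ρ' q * Z * ρ' q⁻¹ = 0 := by
    intro Z
    have e1 : ∀ q : Q, ρ' q * Z * ρ' q⁻¹ =
        ∑ i, ∑ j, L i (σ i q) * Z * R j (σ j q⁻¹) := by
      intro q
      have a1 : ρ' q = ∑ i, L i (σ i q) := by
        rw [← mul_one (ρ' q), ← hone, Finset.mul_sum]
        refine Finset.sum_congr rfl fun i _ => ?_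
        have := hL i (dl F q)
        rwa [ev_dl, ev_dl] at this
      have a2 : ρ' q⁻¹ = ∑ j, R j (σ j q⁻¹) := by
        rw [← one_mul (ρ' q⁻¹), ← hone, Finset.sum_mul]
        refine Finset.sum_congr rfl fun i _ => ?_
        have := hR i (dl F q⁻¹)
        rwa [ev_dl, ev_dl] at this
      rw [a1, a2, Finset.sum_mul, Finset.sum_mul]
      refine Finset.sum_congr rfl fun i _ => ?_
      rw [Finset.mul_sum]
    simp only [e1]
    rw [Finset.sum_comm]
    refine Finset.sum_eq_zero fun i _ => ?_
    rw [Finset.sum_comm]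
    refine Finset.sum_eq_zero fun j _ => ?_
    by_cases hi : P i = 0
    · refine Finset.sum_eq_zero fun q _ => ?_
      have : L i (σ i q) = 0 := by
        change evL ρ' (s i (σ i q)) * P i = 0
        rw [hi, mul_zero]
      rw [this, zero_mul, zero_mul]
    · exact bil_zero (L i) (R j) Z (fun q => σ i q) (fun q => σ j q⁻¹) (hcoef i j hi)
  -- conclusion
  have h1 : ∑ h : H, ρ h * ρ x * ρ h⁻¹ = 0 := by
    apply sum_cosets Q (fun h => ρ h * ρ x * ρ h⁻¹)
    intro r
    rw [finsum_eq_sum_of_fintype]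
    have e1 : ∀ q : Q, ρ (r * (q : H)) * ρ x * ρ (r * (q : H))⁻¹ =
        ρ r * (ρ' q * ρ x * ρ' q⁻¹) * ρ r⁻¹ := by
      intro q
      change _ = ρ r * (ρ (q : H) * ρ x * ρ ((q : H)⁻¹)) * ρ r⁻¹
      rw [mul_inv_rev, map_mul, map_mul]
      simp only [mul_assoc]
    simp only [e1]
    rw [← Finset.sum_mul, ← Finset.mul_sum, hT, mul_zero, zero_mul]
  rw [ev_clsum, hκ] at h1
  have h2 : (Nat.card (Subgroup.centralizer ({x} : Set H)) : F) ≠ 0 := by
    rw [Ne, CharP.cast_eq_zero_iff F ℓ]
    rwa [inf_top_eq] at hx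
  rcases smul_eq_zero.1 h1 with h | h
  · exact h2 h
  · have h3 := congrFun (congrFun h 0) 0
    rw [Matrix.scalar_apply, Matrix.diagonal_apply_eq] at h3
    exact hκ0 h3

end H94

end Pool.Agent.PP
end
end -- Pool.Agent.Helper94_PP.Pos2

section -- Pool.Agent.Helper39_AWR.Pos3

/-!
# AWR squad: `Ps3Stmt`, `Ps4Stmt`, `Ps5Stmt`
-/

open scoped BigOperators

noncomputable section

namespace Pool.Agent.AWR.H39

open Pool.Agent.PP Pool.Agent.PP.H94

section alg

variable {F N : Type} [Field F] [Group N] [Finite N]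

/-- the projective centre of the group ring -/
def PC (F : Type) [Field F] (ℓ : ℕ) (N : Type) [Group N] : Submodule F (N → F) :=
  Submodule.span F {f : N → F | ∃ x : N,
    ¬ ℓ ∣ Nat.card (Subgroup.centralizer ({x} : Set N)) ∧ f = clsum F ⊤ x}

open Classical in
theorem ma_clsum [Fintype N] (x : N) : ma (clsum F ⊤ x) =
    ∑ y : N, if ∃ g : N, y = g * x * g⁻¹ then (MonoidAlgebra.single y (1 : F)) else 0 := by
  classical
  rw [ma_eq_sum, finsum_eq_sum_of_fintype]
  refine Finset.sum_congr rfl fun y _ => ?_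
  unfold clsum
  by_cases h : ∃ g : N, y = g * x * g⁻¹
  · rw [if_pos h, if_pos]
    obtain ⟨g, hg⟩ := h
    exact ⟨g, Subgroup.mem_top g, hg⟩
  · rw [if_neg h, if_neg]
    · rw [MonoidAlgebra.single_zero]
    · rintro ⟨g, _, hg⟩
      exact h ⟨g, hg⟩

/-- `∑_g g x g⁻¹ = |C(x)| K_x` -/
theorem sum_single_conj [Fintype N] (x : N) :
    ∑ g : N, MonoidAlgebra.single (g * x * g⁻¹) (1 : F) =
      (Nat.card (Subgroup.centralizer ({x} : Set N)) : F) • ma (clsum F ⊤ x) := by
  have h := sum_conj x (fun y : N => (MonoidAlgebra.single y (1 : F)))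
  rw [h, ma_clsum, Nat.cast_smul_eq_nsmul]

/-- The projective centre is an ideal. -/
theorem pc_mul {ℓ : ℕ} (hF : CharP F ℓ) {a z : N → F} (ha : a ∈ PC F ℓ N) (hz : IsCl z) :
    mulF a z ∈ PC F ℓ N := by
  classical
  have := Fintype.ofFinite N
  unfold PC at ha
  induction ha using Submodule.span_induction with
  | zero =>
    have : mulF (0 : N → F) z = 0 := by
      apply ma_injective; rw [ma_mul, ma_zero, zero_mul]
    rw [this]; exact Submodule.zero_mem _
  | add f g _ _ hf hg =>
    have : mulF (f + g) z = mulF f z + mulF g z := by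
      apply ma_injective; rw [ma_mul, ma_add, ma_add, ma_mul, ma_mul, add_mul]
    rw [this]; exact Submodule.add_mem _ hf hg
  | smul c f _ hf =>
    have : mulF (c • f) z = c • mulF f z := by
      apply ma_injective; rw [ma_mul, ma_smul, ma_smul, ma_mul, smul_mul_assoc]
    rw [this]; exact Submodule.smul_mem _ c hf
  | mem f hf =>
    obtain ⟨x, hx, rfl⟩ := hf
    have hc : (Nat.card (Subgroup.centralizer ({x} : Set N)) : F) ≠ 0 := by
      rwa [Ne, CharP.cast_eq_zero_iff F ℓ]
    set w : N → F := fun y => z (x⁻¹ * y) with hw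
    -- `w = x z`
    have hwz : ma w = MonoidAlgebra.single x 1 * ma z := by
      rw [← ma_dl (F := F) x, ← ma_mul]
      congr 1
      funext y
      unfold mulF
      rw [finsum_eq_sum_of_fintype, Finset.sum_eq_single x]
      · simp [dl, hw]
      · intro b _ hb
        simp [dl, hb]
      · intro h; exact absurd (Finset.mem_univ _) h
    have hzc : ∀ g : N, ma z * MonoidAlgebra.single g 1 = MonoidAlgebra.single g 1 * ma z := by
      intro g
      have := (isCl_iff z).1 hz
      rw [Subalgebra.mem_center_iff] at this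
      exact (this _).symm
    have key : (Nat.card (Subgroup.centralizer ({x} : Set N)) : F) • ma (mulF (clsum F ⊤ x) z) =
        ∑ y : N, (w y * (Nat.card (Subgroup.centralizer ({y} : Set N)) : F)) •
          ma (clsum F ⊤ y) := by
      rw [ma_mul, ← smul_mul_assoc, ← sum_single_conj, Finset.sum_mul]
      have e1 : ∀ g : N, MonoidAlgebra.single (g * x * g⁻¹) (1 : F) * ma z =
          ∑ y : N, w y • MonoidAlgebra.single (g * y * g⁻¹) (1 : F) := by
        intro g
        have e2 : MonoidAlgebra.single (g * x * g⁻¹) (1 : F) * ma z =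
            MonoidAlgebra.single g 1 * ma w * MonoidAlgebra.single g⁻¹ 1 := by
          rw [hwz]
          have e3 : MonoidAlgebra.single (g * x * g⁻¹) (1 : F) =
              MonoidAlgebra.single g 1 * MonoidAlgebra.single x 1 * MonoidAlgebra.single g⁻¹ 1 := by
            rw [MonoidAlgebra.single_mul_single, MonoidAlgebra.single_mul_single, one_mul, one_mul]
          rw [e3, mul_assoc _ _ (ma z), ← hzc]
          simp only [mul_assoc]
        rw [e2, ma_eq_sum w, finsum_eq_sum_of_fintype, Finset.mul_sum, Finset.sum_mul]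
        refine Finset.sum_congr rfl fun y _ => ?_
        rw [MonoidAlgebra.single_mul_single, MonoidAlgebra.single_mul_single, one_mul, mul_one,
          MonoidAlgebra.smul_single, smul_eq_mul, mul_one]
      rw [Finset.sum_congr rfl fun g _ => e1 g, Finset.sum_comm]
      refine Finset.sum_congr rfl fun y _ => ?_
      rw [← Finset.smul_sum, sum_single_conj, smul_smul]
    have e4 : mulF (clsum F ⊤ x) z = ∑ y : N,
        ((Nat.card (Subgroup.centralizer ({x} : Set N)) : F)⁻¹ *
          (w y * (Nat.card (Subgroup.centralizer ({y} : Set N)) : F))) • clsum F ⊤ y := by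
      apply ma_injective
      rw [ma_sum]
      simp only [ma_smul, mul_smul]
      rw [← Finset.smul_sum]
      simp only [mul_smul] at key
      rw [← key, smul_smul, inv_mul_cancel₀ hc, one_smul]
    rw [e4]
    refine Submodule.sum_mem _ fun y _ => ?_
    by_cases hy : ℓ ∣ Nat.card (Subgroup.centralizer ({y} : Set N))
    · have : (Nat.card (Subgroup.centralizer ({y} : Set N)) : F) = 0 := by
        rwa [CharP.cast_eq_zero_iff F ℓ]
      rw [this, mul_zero, mul_zero, zero_smul]
      exact Submodule.zero_mem _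
    · exact Submodule.smul_mem _ _ (Submodule.subset_span ⟨y, hy, rfl⟩)

theorem clsum_cl (x : N) : IsCl (clsum F ⊤ x) := by
  intro z y
  exact clsum_isCl ⊤ x z y (Subgroup.mem_top y)

/-- The product of a block outside the projective centre with a class sum of defect zero is
nilpotent. -/
theorem nilp {ℓ : ℕ} (hF : CharP F ℓ) {b : N → F} (hb : IsBlk b) (hbI : b ∉ PC F ℓ N) {k : N → F}
    (hk : k ∈ PC F ℓ N) (hkc : IsCl k) : ∃ n : ℕ, (mulF k)^[n] b = 0 := by
  classical
  have := Fintype.ofFinite N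
  have hfd : Module.Finite F (MonoidAlgebra F N) := Module.Finite.equiv (maL (F := F) (H := N))
  have hfd2 : Module.Finite F (Subalgebra.center F (MonoidAlgebra F N)) :=
    FiniteDimensional.finiteDimensional_submodule
      (Subalgebra.center F (MonoidAlgebra F N)).toSubmodule
  have hart : IsArtinianRing (Subalgebra.center F (MonoidAlgebra F N)) :=
    IsArtinianRing.of_finite F _
  set K : Subalgebra.center F (MonoidAlgebra F N) := ⟨ma k, (isCl_iff k).1 hkc⟩ with hK
  set B : Subalgebra.center F (MonoidAlgebra F N) := ⟨ma b, (isCl_iff b).1 hb.1.1⟩ with hB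
  have hBB : B * B = B := by
    apply Subtype.ext
    exact ((isIdem_iff b).1 hb.1).2
  obtain ⟨n, y, hy⟩ := IsArtinian.exists_pow_succ_smul_dvd (K * B)
    (1 : Subalgebra.center F (MonoidAlgebra F N))
  rw [smul_eq_mul, smul_eq_mul, mul_one] at hy
  set X := K * B with hX
  -- `X ^ n * (X y) ^ m = X ^ n`
  have h1 : ∀ m : ℕ, X ^ n * (X * y) ^ m = X ^ n := by
    intro m
    induction m with
    | zero => rw [pow_zero, mul_one]
    | succ m ih =>
      rw [pow_succ, ← mul_assoc, ih, ← mul_assoc, ← pow_succ]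
      exact hy
  set f := (X * y) ^ (n + 1) with hf
  have hff : f * f = f := by
    rw [hf]
    have e : (X * y) ^ (n + 1) = X ^ n * (X * y ^ (n + 1)) := by
      rw [mul_pow, pow_succ X n]; ring
    calc (X * y) ^ (n + 1) * (X * y) ^ (n + 1) = X ^ n * (X * y ^ (n + 1)) * (X * y) ^ (n + 1) := by
          rw [← e]
      _ = X ^ n * (X * y) ^ (n + 1) * (X * y ^ (n + 1)) := by ring
      _ = X ^ n * (X * y ^ (n + 1)) := by rw [h1]
      _ = (X * y) ^ (n + 1) := e.symm
  have hBf : B * f = f := by
    have hBX : B * X = X := by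
      rw [hX, mul_comm K B, ← mul_assoc, hBB]
    rw [hf, pow_succ', mul_assoc, ← mul_assoc B X, hBX]
  obtain ⟨f0, hf0⟩ := ma_surjective (f : MonoidAlgebra F N)
  have hf0c : IsIdem f0 := by
    rw [isIdem_iff, hf0]
    refine ⟨f.2, ?_⟩
    have := congrArg Subtype.val hff
    exact this
  have hbf : mulF b f0 = f0 := by
    apply ma_injective
    rw [ma_mul, hf0]
    exact congrArg Subtype.val hBf
  have hf00 : f0 = 0 := by
    rcases hb.2.2 f0 hf0c with h2 | h2
    · exfalso
      apply hbI
      have h3 : b = f0 := by rw [← h2, hbf]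
      obtain ⟨z, hz⟩ := ma_surjective ((B * y * (X * y) ^ n : Subalgebra.center F _) :
        MonoidAlgebra F N)
      have hzc : IsCl z := by
        rw [isCl_iff, hz]; exact Subtype.property _
      have h4 : mulF k z = f0 := by
        apply ma_injective
        rw [ma_mul, hz, hf0]
        have : K * (B * y * (X * y) ^ n) = f := by
          rw [hf, pow_succ', hX]; ring
        exact congrArg Subtype.val this
      rw [h3, ← h4]
      exact pc_mul hF hk hzc
    · rw [← hbf, h2]
  have hfz : f = 0 := by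
    apply Subtype.ext
    rw [← hf0, hf00, ma_zero]; rfl
  have hXn : X ^ (n + 1) = 0 := by
    have := h1 (n + 1)
    rw [← hf, hfz, mul_zero] at this
    rw [pow_succ, ← this, zero_mul]
  refine ⟨n + 1, ?_⟩
  apply ma_injective
  rw [ma_iterate, ma_zero]
  have e5 : K ^ (n + 1) * B = 0 := by
    rw [← hXn, hX, mul_pow]
    congr 1
    have : ∀ m : ℕ, B ^ (m + 1) = B := by
      intro m
      induction m with
      | zero => rw [zero_add, pow_one]
      | succ m ih => rw [pow_succ, ih, hBB]
    exact (this n).symm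
  exact congrArg Subtype.val e5

end alg

section stmts

variable {F G : Type} [Field F] [Group G] [Finite G]

theorem mulF_comm_of_cl {e : G → F} (he : IsCl e) (a : G → F) : mulF e a = mulF a e := by
  apply ma_injective
  rw [ma_mul, ma_mul]
  have := (isCl_iff e).1 he
  rw [Subalgebra.mem_center_iff] at this
  exact (this _).symm

theorem ext0_clsum (N : Subgroup G) (x : N) : ext0 N (clsum F ⊤ x) = clsum F N (x : G) := by
  rw [← clsum_restrict]
  exact H46.ext0_restr fun y hy => clsum_outside N x y hy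

theorem ext0_iterate (N : Subgroup G) (k b : N → F) (e : G → F) (n : ℕ) :
    (mulF (ext0 N k))^[n] (mulF (ext0 N b) e) = mulF (ext0 N ((mulF k)^[n] b)) e := by
  induction n with
  | zero => rfl
  | succ n ih =>
    rw [Function.iterate_succ_apply', ih, Function.iterate_succ_apply', ← mulF_assoc,
      ← H46.ext0_mul]

theorem ext0_zero (N : Subgroup G) : ext0 N (0 : N → F) = 0 := by
  funext x
  unfold ext0
  by_cases h : x ∈ N
  · rw [dif_pos h]; rfl
  · rw [dif_neg h]; rfl

theorem zero_mulF (e : G → F) : mulF 0 e = 0 := by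
  apply ma_injective; rw [ma_mul, ma_zero, zero_mul]

theorem ps3 : Ps3Stmt := by
  classical
  intro ℓ F _ hF G _ _ N hN b hb _ e he heb
  have hchar := hF.char
  constructor
  · intro hDZ x hx hxc
    rw [← card_cent N ⟨x, hx⟩] at hxc
    obtain ⟨n, hn⟩ := nilp (F := F) hchar hb hDZ (k := clsum F ⊤ (⟨x, hx⟩ : N))
      (Submodule.subset_span ⟨_, hxc, rfl⟩) (clsum_cl _)
    refine ⟨n, ?_⟩
    have e1 : e = mulF (ext0 N b) e := by
      rw [← mulF_comm_of_cl he.1, heb]
    rw [← ext0_clsum N ⟨x, hx⟩, e1, ext0_iterate, hn, ext0_zero, zero_mulF]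
  · intro hDZ hpos
    -- `e * (ext0 f)` is nilpotent for `f` in the projective centre
    have hec := (isIdem_iff e).1 he
    have hcomm : ∀ z : MonoidAlgebra F G, Commute (ma e) z := by
      intro z
      have := hec.1
      rw [Subalgebra.mem_center_iff] at this
      exact (this z).symm
    have key : ∀ f : N → F, f ∈ PC F ℓ N → IsCl f ∧ IsNilpotent (ma e * ma (ext0 N f)) := by
      intro f hf
      unfold PC at hf
      induction hf using Submodule.span_induction with
      | zero =>
        refine ⟨fun _ _ => rfl, ?_⟩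
        rw [ext0_zero, ma_zero, mul_zero]; exact IsNilpotent.zero
      | add f g _ _ hf hg =>
        refine ⟨(cfs F N).add_mem hf.1 hg.1, ?_⟩
        rw [H46.ext0_add, ma_add, mul_add]
        apply Commute.isNilpotent_add _ hf.2 hg.2
        have h1 : Commute (ma (ext0 N f)) (ma (ext0 N g)) := by
          change _ * _ = _ * _
          rw [← ma_mul, ← ma_mul, ← H46.ext0_mul, ← H46.ext0_mul, mulF_comm_of_cl hf.1]
        exact ((hcomm _).mul_right (hcomm _)).mul_left (((hcomm _).symm).mul_right h1)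
      | smul c f _ hf =>
        refine ⟨(cfs F N).smul_mem c hf.1, ?_⟩
        have : ext0 N (c • f) = c • ext0 N f := by
          funext x
          change _ = c • (ext0 N f x)
          by_cases h : x ∈ N
          · rw [H46.ext0_of_mem _ h, H46.ext0_of_mem _ h]; rfl
          · rw [H46.ext0_of_not_mem _ h, H46.ext0_of_not_mem _ h, smul_zero]
        rw [this, ma_smul, mul_smul_comm]
        exact hf.2.smul c
      | mem f hf =>
        obtain ⟨x, hx, rfl⟩ := hf
        refine ⟨clsum_cl x, ?_⟩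
        rw [card_cent N x] at hx
        obtain ⟨n, hn⟩ := hpos x x.2 hx
        rw [ext0_clsum]
        refine ⟨n + 1, ?_⟩
        have h2 : ma (clsum F N (x : G)) ^ n * ma e = 0 := by
          rw [← ma_iterate, hn, ma_zero]
        rw [(hcomm _).mul_pow, pow_succ, pow_succ, mul_assoc (ma e ^ n), ← mul_assoc (ma e),
          (hcomm (ma (clsum F N (x : G)) ^ n)).eq, h2, zero_mul, mul_zero]
    obtain ⟨_, n, hn⟩ := key b hDZ
    have e2 : ma e * ma (ext0 N b) = ma e := by rw [← ma_mul, heb]
    rw [e2] at hn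
    have h3 : ma e = 0 := by
      by_contra hne
      have h4 : ∀ m : ℕ, ma e ^ (m + 1) = ma e := by
        intro m
        induction m with
        | zero => rw [zero_add, pow_one]
        | succ m ih => rw [pow_succ, ih]; exact hec.2
      have h5 : ma e ^ (n + 1) = 0 := by rw [pow_succ, hn, zero_mul]
      rw [h4] at h5
      exact hne h5
    apply ma_injective
    rw [h3, ma_zero]

theorem ps4 : Ps4Stmt := by
  classical
  intro ℓ F _ hF N _ _ hN b hb
  have hchar := hF.char
  have := Fintype.ofFinite N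
  -- the size of the class of `x` in `F`
  set c : N → F := fun x => ∑ y : N, clsum F ⊤ x y with hc
  have hdvd : ∀ x : N, ¬ ℓ ∣ Nat.card (Subgroup.centralizer ({x} : Set N)) := by
    intro x h
    exact hN (h.trans (Subgroup.card_subgroup_dvd_card _))
  have hc0 : ∀ x, c x ≠ 0 := by
    intro x h0
    have h1 := sum_conj x (fun _ : N => (1 : F))
    have h2 : (∑ y : N, if ∃ g : N, y = g * x * g⁻¹ then (1 : F) else 0) = c x := by
      refine Finset.sum_congr rfl fun y _ => ?_
      unfold clsum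
      congr 1
      apply propext
      simp
    rw [h2, h0, smul_zero, Finset.sum_const, Finset.card_univ, nsmul_eq_mul, mul_one,
      CharP.cast_eq_zero_iff F ℓ, ← Nat.card_eq_fintype_card] at h1
    exact hN h1
  have hsym : ∀ x y : N, clsum F ⊤ x y = clsum F ⊤ y x := by
    intro x y
    unfold clsum
    congr 1
    apply propext
    constructor
    · rintro ⟨g, _, h⟩
      exact ⟨g⁻¹, Subgroup.mem_top _, by rw [h]; group⟩
    · rintro ⟨g, _, h⟩
      exact ⟨g⁻¹, Subgroup.mem_top _, by rw [h]; group⟩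
  have hcls : ∀ x y : N, clsum F ⊤ x y ≠ 0 → ∃ g, y = g * x * g⁻¹ := by
    intro x y h
    by_contra h2
    apply h
    unfold clsum
    rw [if_neg]
    rintro ⟨g, _, hg⟩
    exact h2 ⟨g, hg⟩
  have key : b = ∑ x : N, (b x * (c x)⁻¹) • clsum F ⊤ x := by
    funext y
    rw [Finset.sum_apply]
    have e1 : ∀ x : N, ((b x * (c x)⁻¹) • clsum F ⊤ x) y = b y * (c y)⁻¹ * clsum F ⊤ y x := by
      intro x
      rw [Pi.smul_apply, smul_eq_mul, hsym x y]
      by_cases h0 : clsum F ⊤ y x = 0
      · rw [h0, mul_zero, mul_zero]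
      · obtain ⟨g, rfl⟩ := hcls y x h0
        have e2 : b (g * y * g⁻¹) = b y := hb y g
        have e3 : c (g * y * g⁻¹) = c y := by
          simp only [hc]
          refine Finset.sum_congr rfl fun z _ => ?_
          rw [hsym, hsym y z]
          exact clsum_cl z y g
        rw [e2, e3]
    rw [Finset.sum_congr rfl fun x _ => e1 x, ← Finset.mul_sum, mul_assoc]
    change b y = b y * ((c y)⁻¹ * c y)
    rw [inv_mul_cancel₀ (hc0 y), mul_one]
  change b ∈ PC F ℓ N
  rw [key]
  exact Submodule.sum_mem _ fun x _ => Submodule.smul_mem _ _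
    (Submodule.subset_span ⟨x, hdvd x, rfl⟩)

theorem ps5 : Ps5Stmt := by
  intro ℓ F _ hF G _ _ Q hQ e f he hf hef hpos x hx hxc
  obtain ⟨n, hn⟩ := hpos x hx hxc
  refine ⟨n, ?_⟩
  apply ma_injective
  have h1 : ma (clsum F Q x) ^ n * ma e = 0 := by rw [← ma_iterate, hn, ma_zero]
  rw [ma_iterate, ma_zero, ← hef, ma_mul, ← mul_assoc, h1, zero_mul]

end stmts

end Pool.Agent.AWR.H39
end
end -- Pool.Agent.Helper39_AWR.Pos3
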