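import Pool.Agent.Helper18_PP.StmtsDZ
import Pool.Agent.Helper74_PP.Orbit
import Pool.Agent.Helper94_PP.Bridge

/-!
# Merged copies (generated) of the modules

* `Pool.Agent.Helper18_PP.Bet`
-/

set_option autoImplicit false

section -- Pool.Agent.Helper18_PP.Bet

/-!
# Squad PP, module BET: the truncation on matrices
-/

open scoped BigOperators

set_option linter.unusedSectionVars false

noncomputable section

namespace Pool.Agent.PP.H18

open Pool.Agent.PP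

section aut

variable {F N : Type} [Field F] [Group N] [Finite N]

theorem mem_fixN {P : Subgroup (MulAut N)} {h : N} : h ∈ fixN P ↔ ∀ p ∈ P, p h = h := Iff.rfl

/-- the orbit lemma for an `ℓ`-group of automorphisms -/
theorem aut_sum {ℓ : ℕ} (hℓ : ℓ.Prime) {V : Type} [AddCommGroup V] (hV : ∀ v : V, ℓ • v = 0)
    (P : Subgroup (MulAut N)) (hP : IsPGroup ℓ P) (h : N → V)
    (hinv : ∀ p ∈ P, ∀ t, h (p t) = h t) :
    ∑ᶠ t, h t = ∑ᶠ t : fixN P, h t := by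
  classical
  have : Fact ℓ.Prime := ⟨hℓ⟩
  have := Fintype.ofFinite N
  let _ : MulAction P N :=
    { smul := fun r t => (r : MulAut N) t
      one_smul := fun t => rfl
      mul_smul := fun r s t => rfl }
  have hsm : ∀ (r : P) (t : N), r • t = (r : MulAut N) t := fun _ _ => rfl
  have hiff : ∀ t : N, (∀ r : P, r • t = t) ↔ t ∈ fixN P := by
    intro t
    rw [mem_fixN]
    exact ⟨fun h p hp => h ⟨p, hp⟩, fun h r => h r r.2⟩
  rw [finsum_eq_sum_of_fintype, finsum_eq_sum_of_fintype,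
    H74.orbit_sum (R := P) hP hV h (fun r t => by rw [hsm]; exact hinv r r.2 t)]
  rw [Finset.sum_subtype (Finset.univ.filter fun t : N => ∀ r : P, r • t = t)
    (p := fun t => t ∈ fixN P) (fun t => by
      rw [Finset.mem_filter, hiff]; exact ⟨fun h => h.2, fun h => ⟨Finset.mem_univ _, h⟩⟩)]

/-- truncation is multiplicative -/
theorem trunc_mul {ℓ : ℕ} (hℓ : ℓ.Prime) (hF : CharP F ℓ) (P : Subgroup (MulAut N))
    (hP : IsPGroup ℓ P) {a a' : N → F} (ha : InvF P a) (ha' : InvF P a') :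
    (fun x : fixN P => mulF a a' x) = mulF (fun x : fixN P => a x) (fun x : fixN P => a' x) := by
  funext x
  unfold mulF
  rw [aut_sum hℓ (fun v => by rw [nsmul_eq_mul, CharP.cast_eq_zero, zero_mul]) P hP
    (fun t => a t * a' (t⁻¹ * x))]
  · rfl
  · intro p hp t
    rw [ha p hp, ← ha' p hp (t⁻¹ * x), map_mul, map_inv, x.2 p hp]

theorem invF_mul {P : Subgroup (MulAut N)} {a a' : N → F} (ha : InvF P a) (ha' : InvF P a') :
    InvF P (mulF a a') := by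
  intro p hp x
  unfold mulF
  have := Fintype.ofFinite N
  rw [finsum_eq_sum_of_fintype, finsum_eq_sum_of_fintype,
    ← Equiv.sum_comp p.toEquiv (fun t => a t * a' (t⁻¹ * p x))]
  refine Finset.sum_congr rfl fun t _ => ?_
  have e : p.toEquiv t = p t := rfl
  rw [e, ha p hp, ← map_inv, ← map_mul, ha' p hp]

/-- transport of the evaluation by an implemented automorphism -/
theorem ev_aut {K : Subgroup N} {n : ℕ} (ρ : K →* Matrix (Fin n) (Fin n) F) (φ : MulAut N)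
    (hK : ∀ h, φ h ∈ K ↔ h ∈ K) (X : (Matrix (Fin n) (Fin n) F)ˣ) (hX : Impl ρ φ X) (a : N → F) :
    (X : Matrix (Fin n) (Fin n) F) * ev ρ (fun x => a x) =
      ev ρ (fun x => a (φ⁻¹ (x : N))) * X := by
  have := Fintype.ofFinite K
  unfold ev
  rw [finsum_eq_sum_of_fintype, finsum_eq_sum_of_fintype, Finset.mul_sum, Finset.sum_mul]
  let e : K ≃ K :=
    { toFun := fun x => ⟨φ x, (hK x).2 x.2⟩
      invFun := fun x => ⟨φ⁻¹ (x : N), (hK _).1 (by rw [MulAut.apply_inv_self]; exact x.2)⟩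
      left_inv := fun x => Subtype.ext (MulAut.inv_apply_self N φ x)
      right_inv := fun x => Subtype.ext (MulAut.apply_inv_self N φ x) }
  rw [← Equiv.sum_comp e (fun x : K => (a (φ⁻¹ (x : N)) • ρ x) * (X : Matrix (Fin n) (Fin n) F))]
  refine Finset.sum_congr rfl fun t _ => ?_
  have e1 : ((e t : K) : N) = φ t := rfl
  rw [e1, MulAut.inv_apply_self, mul_smul_comm, smul_mul_assoc, hX t (e t) e1]

theorem impl_mul {K : Subgroup N} {n : ℕ} {ρ : K →* Matrix (Fin n) (Fin n) F} {φ ψ : MulAut N}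
    (hK : ∀ h, ψ h ∈ K ↔ h ∈ K) {X Y : (Matrix (Fin n) (Fin n) F)ˣ} (hX : Impl ρ φ X)
    (hY : Impl ρ ψ Y) : Impl ρ (φ * ψ : MulAut N) (X * Y) := by
  intro h h' e
  have e1 := hY h ⟨ψ h, (hK h).2 h.2⟩ rfl
  have e2 := hX ⟨ψ h, (hK h).2 h.2⟩ h' (by rw [e]; rfl)
  rw [Units.val_mul, mul_assoc, e1, ← mul_assoc, e2, mul_assoc]

theorem impl_inv {K : Subgroup N} {n : ℕ} {ρ : K →* Matrix (Fin n) (Fin n) F} {φ : MulAut N}
    {X : (Matrix (Fin n) (Fin n) F)ˣ} (hX : Impl ρ φ X) : Impl ρ (φ⁻¹ : MulAut N) X⁻¹ := by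
  intro h h' e
  have e1 := hX h' h (by rw [e, MulAut.apply_inv_self])
  calc ((X⁻¹ : (Matrix (Fin n) (Fin n) F)ˣ) : Matrix (Fin n) (Fin n) F) * ρ h
      = (X⁻¹ : (Matrix (Fin n) (Fin n) F)ˣ) * (ρ h * X) * (X⁻¹ : (Matrix (Fin n) (Fin n) F)ˣ) := by
        rw [mul_assoc, mul_assoc (ρ h), Units.mul_inv, mul_one]
    _ = (X⁻¹ : (Matrix (Fin n) (Fin n) F)ˣ) * (X * ρ h') * (X⁻¹ : (Matrix (Fin n) (Fin n) F)ˣ) := by
        rw [e1]
    _ = ρ h' * (X⁻¹ : (Matrix (Fin n) (Fin n) F)ˣ) := by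
        rw [← mul_assoc, Units.inv_mul, one_mul]

theorem impl_one {K : Subgroup N} {n : ℕ} (ρ : K →* Matrix (Fin n) (Fin n) F) :
    Impl ρ ((1 : MulAut N)) 1 := by
  intro h h' e
  have : h' = h := Subtype.ext e
  rw [this, Units.val_one, one_mul, mul_one]

/-- existence of implementing matrices -/
theorem exists_impl' {ℓ : ℕ} (hF : GoodF ℓ F) (hc : IbcStmt) {b : N → F}
    {K : Subgroup N} {n : ℕ} (ρ : K →* Matrix (Fin n) (Fin n) F)
    (hρ : IsIrr ρ) (hρb : ev ρ (fun x => b x) = 1)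
    (htr : ∀ σ : K →* Matrix (Fin n) (Fin n) F, IsIrr σ → ev σ (fun x => b x) = 1 → tr ρ = tr σ)
    (φ : MulAut N) (hK : ∀ h, φ h ∈ K ↔ h ∈ K)
    (hφ : ∀ h, b (φ h) = b h) : ∃ X, Impl ρ φ X := by
  have := Fintype.ofFinite K
  let e : K ≃ K :=
    { toFun := fun x => ⟨φ x, (hK x).2 x.2⟩
      invFun := fun x => ⟨φ⁻¹ (x : N), (hK _).1 (by rw [MulAut.apply_inv_self]; exact x.2)⟩
      left_inv := fun x => Subtype.ext (MulAut.inv_apply_self N φ x)
      right_inv := fun x => Subtype.ext (MulAut.apply_inv_self N φ x) }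
  have e1 : ∀ t, ((e t : K) : N) = φ t := fun _ => rfl
  let σ : K →* Matrix (Fin n) (Fin n) F :=
    { toFun := fun x => ρ (e x)
      map_one' := by
        have : e 1 = 1 := Subtype.ext (map_one φ)
        rw [this, map_one]
      map_mul' := fun x y => by
        have : e (x * y) = e x * e y := Subtype.ext (map_mul φ _ _)
        rw [this, map_mul] }
  have hσv : ∀ x, σ x = ρ (e x) := fun _ => rfl
  have hσ : IsIrr σ := by
    refine ⟨hρ.1, ?_⟩
    have : Set.range σ = Set.range ρ := by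
      ext M
      constructor
      · rintro ⟨x, rfl⟩; exact ⟨e x, rfl⟩
      · rintro ⟨x, rfl⟩; exact ⟨e.symm x, by rw [hσv, Equiv.apply_symm_apply]⟩
    rw [this, hρ.2]
  have hσb : ev σ (fun x => b x) = 1 := by
    rw [← hρb]
    unfold ev
    rw [finsum_eq_sum_of_fintype, finsum_eq_sum_of_fintype,
      ← Equiv.sum_comp e (fun x : K => b x • ρ x)]
    refine Finset.sum_congr rfl fun t _ => ?_
    rw [hσv, e1, hφ]
  obtain ⟨X, Y, _, h1, h2, h3⟩ := hc ℓ F hF K n n ρ σ hρ hσ (htr σ hσ hσb)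
  refine ⟨⟨X, Y, h1, h2⟩, fun h h' hh => ?_⟩
  have : h' = e h := Subtype.ext (by rw [hh, e1])
  rw [this]
  exact h3 h

theorem exists_impl {ℓ : ℕ} (hF : GoodF ℓ F) (hm : MatStmt) (hc : IbcStmt) {b : N → F}
    {K : Subgroup N} (hb : DZB ℓ (fun x : K => b x)) {n : ℕ} (ρ : K →* Matrix (Fin n) (Fin n) F)
    (hρ : IsIrr ρ) (hρb : ev ρ (fun x => b x) = 1) (φ : MulAut N) (hK : ∀ h, φ h ∈ K ↔ h ∈ K)
    (hφ : ∀ h, b (φ h) = b h) : ∃ X, Impl ρ φ X :=
  exists_impl' hF hc ρ hρ hρb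
    (fun σ hσ hσb => (hm ℓ F hF K _ hb).2.2.1 n n ρ σ hρ hσ hρb hσb) φ hK hφ

end aut

section top

variable {F N : Type} [Field F] [Group N] [Finite N]

/-- the representation of the whole group -/
def tp {n : ℕ} (ρ : (⊤ : Subgroup N) →* Matrix (Fin n) (Fin n) F) : N →* Matrix (Fin n) (Fin n) F :=
  ρ.comp (Subgroup.topEquiv (G := N)).symm.toMonoidHom

theorem tp_apply {n : ℕ} (ρ : (⊤ : Subgroup N) →* Matrix (Fin n) (Fin n) F) (h : N) :
    tp ρ h = ρ ⟨h, Subgroup.mem_top h⟩ := rfl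

theorem tp_irr {n : ℕ} {ρ : (⊤ : Subgroup N) →* Matrix (Fin n) (Fin n) F} (hρ : IsIrr ρ) :
    IsIrr (tp ρ) := by
  refine ⟨hρ.1, ?_⟩
  have : Set.range (tp ρ) = Set.range ρ := by
    ext M
    constructor
    · rintro ⟨x, rfl⟩; exact ⟨⟨x, Subgroup.mem_top x⟩, rfl⟩
    · rintro ⟨x, rfl⟩; exact ⟨x, rfl⟩
  rw [this, hρ.2]

theorem ev_tp {n : ℕ} (ρ : (⊤ : Subgroup N) →* Matrix (Fin n) (Fin n) F) (a : N → F) :
    ev ρ (fun x => a x) = ev (tp ρ) a := by
  have := Fintype.ofFinite N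
  have := Fintype.ofFinite (⊤ : Subgroup N)
  unfold ev
  rw [finsum_eq_sum_of_fintype, finsum_eq_sum_of_fintype,
    ← Equiv.sum_comp (Subgroup.topEquiv (G := N)).toEquiv (fun t => a t • tp ρ t)]
  exact Finset.sum_congr rfl fun t _ => rfl

theorem ev_surj {n : ℕ} {ρ : N →* Matrix (Fin n) (Fin n) F} (hρ : IsIrr ρ)
    (M : Matrix (Fin n) (Fin n) F) : ∃ a, ev ρ a = M := by
  have hM : M ∈ Submodule.span F (Set.range ρ) := by rw [hρ.2]; trivial
  induction hM using Submodule.span_induction with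
  | mem x hx => obtain ⟨h, rfl⟩ := hx; exact ⟨dl F h, ev_dl ρ h⟩
  | zero => exact ⟨0, by rw [ev_eq, ma_zero, map_zero]⟩
  | add x y _ _ hx hy =>
    obtain ⟨a, rfl⟩ := hx
    obtain ⟨a', rfl⟩ := hy
    exact ⟨a + a', ev_add ρ a a'⟩
  | smul c x _ hx =>
    obtain ⟨a, rfl⟩ := hx
    exact ⟨c • a, ev_smul ρ c a⟩

theorem ev_sub {n : ℕ} (ρ : N →* Matrix (Fin n) (Fin n) F) (a a' : N → F) :
    ev ρ (a - a') = ev ρ a - ev ρ a' := by
  rw [ev_eq, ev_eq, ev_eq, ma_sub, map_sub]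

/-- the product commutes with automorphisms -/
theorem mulF_aut (a a' : N → F) (φ : MulAut N) :
    mulF (fun x => a (φ x)) (fun x => a' (φ x)) = fun x => mulF a a' (φ x) := by
  funext x
  unfold mulF
  have := Fintype.ofFinite N
  rw [finsum_eq_sum_of_fintype, finsum_eq_sum_of_fintype,
    ← Equiv.sum_comp φ.toEquiv (fun t => a t * a' (t⁻¹ * φ x))]
  refine Finset.sum_congr rfl fun t _ => ?_
  have e : φ.toEquiv t = φ t := rfl
  rw [e, ← map_inv, ← map_mul]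

/-- Data of the truncation. -/
structure Dat (ℓ : ℕ) (F : Type) [Field F] {N : Type} [Group N] [Finite N] (b : N → F)
    (P : Subgroup (MulAut N)) {n n' : ℕ} (ρ : (⊤ : Subgroup N) →* Matrix (Fin n) (Fin n) F)
    (ρ' : fixN P →* Matrix (Fin n') (Fin n') F) : Prop where
  good : GoodF ℓ F
  hb : DZB ℓ b
  hP : IsPGroup ℓ P
  inv : InvF P b
  irr : IsIrr ρ
  irr' : IsIrr ρ'
  evb : ev ρ (fun x => b x) = 1
  evb' : ev ρ' (fun x => b x) = 1

variable {ℓ : ℕ} {b : N → F} {P : Subgroup (MulAut N)} {n n' : ℕ}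
  {ρ : (⊤ : Subgroup N) →* Matrix (Fin n) (Fin n) F} {ρ' : fixN P →* Matrix (Fin n') (Fin n') F}

theorem ev_mulF_sub {K : Subgroup N} {m : ℕ} (σ : K →* Matrix (Fin m) (Fin m) F) (a a' : K → F) :
    ev σ (mulF a a') = ev σ a * ev σ a' := ev_mulF σ a a'

/-- well-definedness -/
theorem Dat.wd (hm : MatStmt) (D : Dat ℓ F b P ρ ρ') {a : N → F} (ha : InvF P a)
    (h0 : ev ρ (fun x => a x) = 0) : ev ρ' (fun x => a x) = 0 := by
  have h1 : mulF a b = 0 := (hm ℓ F D.good N b D.hb).2.1 n (tp ρ) (tp_irr D.irr)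
    (by rw [← ev_tp, D.evb]) a (by rw [← ev_tp, h0])
  have h2 := trunc_mul D.good.prime D.good.char P D.hP ha D.inv
  have h3 : ev ρ' (mulF (fun x : fixN P => a x) (fun x : fixN P => b x)) = 0 := by
    rw [← h2, h1]
    change ev ρ' (0 : fixN P → F) = 0
    rw [ev_eq, ma_zero, map_zero]
  rw [ev_mulF, D.evb', mul_one] at h3
  exact h3

theorem Dat.wd' (hm : MatStmt) (D : Dat ℓ F b P ρ ρ') {a a' : N → F} (ha : InvF P a)
    (ha' : InvF P a') (h0 : ev ρ (fun x => a x) = ev ρ (fun x => a' x)) :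
    ev ρ' (fun x => a x) = ev ρ' (fun x => a' x) := by
  have h1 : InvF P (a - a') := fun p hp h => by
    rw [Pi.sub_apply, Pi.sub_apply, ha p hp, ha' p hp]
  have h2 := D.wd hm h1 (by
    change ev ρ ((fun x : (⊤ : Subgroup N) => a x) - (fun x : (⊤ : Subgroup N) => a' x)) = 0
    rw [ev_sub, h0, sub_self])
  have h3 : ev ρ' ((fun x : fixN P => a x) - (fun x : fixN P => a' x)) = 0 := h2
  rw [ev_sub] at h3
  exact sub_eq_zero.1 h3

open Classical in
/-- the truncation -/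
def bet (P : Subgroup (MulAut N)) (ρ : (⊤ : Subgroup N) →* Matrix (Fin n) (Fin n) F)
    (ρ' : fixN P →* Matrix (Fin n') (Fin n') F) (M : Matrix (Fin n) (Fin n) F) :
    Matrix (Fin n') (Fin n') F :=
  if h : ∃ a : N → F, InvF P a ∧ ev ρ (fun x => a x) = M then ev ρ' (fun x => h.choose x) else 0

theorem Dat.bet_ev (hm : MatStmt) (D : Dat ℓ F b P ρ ρ') {a : N → F} (ha : InvF P a) :
    bet P ρ ρ' (ev ρ (fun x => a x)) = ev ρ' (fun x => a x) := by
  have h : ∃ a' : N → F, InvF P a' ∧ ev ρ (fun x => a' x) = ev ρ (fun x => a x) := ⟨a, ha, rfl⟩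
  unfold bet
  rw [dif_pos h]
  exact D.wd' hm h.choose_spec.1 ha h.choose_spec.2

theorem conj_of_comm {m : ℕ} (A : (Matrix (Fin m) (Fin m) F)ˣ) (M : Matrix (Fin m) (Fin m) F) :
    (A : Matrix (Fin m) (Fin m) F) * M * ((A⁻¹ : (Matrix (Fin m) (Fin m) F)ˣ) :
      Matrix (Fin m) (Fin m) F) * A = A * M := by
  rw [mul_assoc, Units.inv_mul, mul_one]

theorem cancel_unit {m : ℕ} (A : (Matrix (Fin m) (Fin m) F)ˣ) {M M' : Matrix (Fin m) (Fin m) F}
    (h : M * (A : Matrix (Fin m) (Fin m) F) = M' * A) : M = M' := by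
  have := congrArg (fun Z => Z * ((A⁻¹ : (Matrix (Fin m) (Fin m) F)ˣ) :
      Matrix (Fin m) (Fin m) F)) h
  simp only [mul_assoc, Units.mul_inv, mul_one] at this
  exact this

/-- the invariant elements give fixed matrices -/
theorem Dat.fix (_D : Dat ℓ F b P ρ ρ') {a : N → F} (ha : InvF P a) :
    FixM ρ P (ev ρ (fun x => a x)) := by
  intro p hp A hA
  rw [ev_aut ρ p (fun h => ⟨fun _ => Subgroup.mem_top h, fun _ => Subgroup.mem_top _⟩) A hA a]
  have : (fun x : (⊤ : Subgroup N) => a (p⁻¹ (x : N))) = fun x : (⊤ : Subgroup N) => a x := by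
    funext x
    exact ha p⁻¹ (P.inv_mem hp) x
  rw [this]

/-- existence of implementing matrices on `ρ` -/
theorem Dat.impl (hm : MatStmt) (hc : IbcStmt) (D : Dat ℓ F b P ρ ρ') (φ : MulAut N)
    (hφ : ∀ h, b (φ h) = b h) : ∃ X, Impl ρ φ X := by
  refine exists_impl' D.good hc ρ D.irr D.evb (fun σ hσ hσb => ?_) φ
    (fun h => ⟨fun _ => Subgroup.mem_top h, fun _ => Subgroup.mem_top _⟩) hφ
  have h1 := (hm ℓ F D.good N b D.hb).2.2.1 n n (tp ρ) (tp σ) (tp_irr D.irr) (tp_irr hσ)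
    (by rw [← ev_tp, D.evb]) (by rw [← ev_tp, hσb])
  funext x
  exact congrFun h1 x

/-- fixed matrices come from invariant elements -/
theorem Dat.surj (hm : MatStmt) (hc : IbcStmt) (D : Dat ℓ F b P ρ ρ')
    {M : Matrix (Fin n) (Fin n) F} (hM : FixM ρ P M) :
    ∃ a : N → F, InvF P a ∧ ev ρ (fun x => a x) = M := by
  obtain ⟨g, hg⟩ := ev_surj (tp_irr D.irr) M
  have hbb : mulF b b = b := D.hb.1.1.2
  have hevb : ev (tp ρ) b = 1 := by rw [← ev_tp, D.evb]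
  have h1 : ev (tp ρ) (mulF g b) = M := by rw [ev_mulF, hg, hevb, mul_one]
  refine ⟨mulF g b, ?_, by rw [ev_tp, h1]⟩
  have key : ∀ p ∈ P, (fun x => mulF g b (p⁻¹ x)) = mulF g b := by
    intro p hp
    obtain ⟨A, hA⟩ := D.impl hm hc p (fun h => D.inv p hp h)
    have e1 := ev_aut ρ p (fun h => ⟨fun _ => Subgroup.mem_top h, fun _ => Subgroup.mem_top _⟩)
      A hA (mulF g b)
    rw [ev_tp, h1, hM p hp A hA] at e1
    have e2 : M = ev (tp ρ) (fun x => mulF g b (p⁻¹ x)) := by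
      rw [← ev_tp]; exact cancel_unit A e1
    have e3 := (hm ℓ F D.good N b D.hb).2.1 n (tp ρ) (tp_irr D.irr) hevb
      ((fun x => mulF g b (p⁻¹ x)) - mulF g b) (by rw [ev_sub, ← e2, h1, sub_self])
    have e4 : mulF (fun x => mulF g b (p⁻¹ x)) b = mulF (mulF g b) b := by
      apply ma_injective
      have e5 := congrArg ma e3
      rw [ma_mul, ma_sub, ma_zero, sub_mul, sub_eq_zero] at e5
      rw [ma_mul, ma_mul, e5]
    rw [mulF_assoc, hbb] at e4
    have e6 : (fun x => b (p⁻¹ x)) = b := by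
      funext x; exact D.inv p⁻¹ (P.inv_mem hp) x
    calc (fun x => mulF g b (p⁻¹ x)) = fun x => mulF (mulF g b) b (p⁻¹ x) := by
          rw [mulF_assoc, hbb]
      _ = mulF (fun x => mulF g b (p⁻¹ x)) (fun x => b (p⁻¹ x)) := by
          rw [mulF_aut]
      _ = mulF g b := by rw [e6, e4]
  intro p hp h
  have := congrFun (key p hp) (p h)
  rw [MulAut.inv_apply_self] at this
  exact this.symm

theorem ktop {K : Subgroup N} (hK : K = ⊤) (φ : MulAut N) : ∀ h, φ h ∈ K ↔ h ∈ K := by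
  intro h; rw [hK]; exact ⟨fun _ => Subgroup.mem_top h, fun _ => Subgroup.mem_top _⟩

/-- invariance of `fixN` -/
theorem fixN_stable {x : MulAut N} (hx : ∀ p ∈ P, x * p * x⁻¹ ∈ P) :
    (∀ p ∈ P, x⁻¹ * p * x ∈ P) ∧ ∀ h, x h ∈ fixN P ↔ h ∈ fixN P := by
  have h1 : ∀ p ∈ P, x⁻¹ * p * x ∈ P := by
    intro p hp
    have hfin : (P : Set (MulAut N)).Finite := Set.toFinite _
    have hmaps : Set.MapsTo (fun q => x * q * x⁻¹) (P : Set (MulAut N)) P := fun q hq => hx q hq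
    have hinj : Set.InjOn (fun q => x * q * x⁻¹) (P : Set (MulAut N)) := by
      intro q _ r _ h
      exact mul_left_cancel (mul_right_cancel h)
    obtain ⟨q, hq, he⟩ := ((hfin.injOn_iff_bijOn_of_mapsTo hmaps).1 hinj).surjOn hp
    have : x⁻¹ * p * x = q := by rw [← he]; group
    rw [this]; exact hq
  refine ⟨h1, fun h => ⟨fun hh p hp => ?_, fun hh p hp => ?_⟩⟩
  · have e := hh (x * p * x⁻¹) (hx p hp)
    have e2 : (x * p * x⁻¹) (x h) = x (p h) := by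
      simp only [MulAut.mul_apply, MulAut.inv_apply_self]
    rw [e2] at e
    exact x.injective e
  · have e := hh (x⁻¹ * p * x) (h1 p hp)
    have e2 : p (x h) = x ((x⁻¹ * p * x) h) := by
      simp only [MulAut.mul_apply, MulAut.apply_inv_self]
    rw [e2, e]

/-- conjugation of invariant functions -/
theorem inv_conj {x : MulAut N} (hx : ∀ p ∈ P, x * p * x⁻¹ ∈ P) {a : N → F} (ha : InvF P a) :
    InvF P (fun h => a (x⁻¹ h)) := by
  intro p hp h
  have e : x⁻¹ (p h) = (x⁻¹ * p * x) (x⁻¹ h) := by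
    simp only [MulAut.mul_apply, MulAut.apply_inv_self]
  change a (x⁻¹ (p h)) = a (x⁻¹ h)
  rw [e, ha _ ((fixN_stable hx).1 p hp)]

theorem ev_conj {K : Subgroup N} {m : ℕ} (σ : K →* Matrix (Fin m) (Fin m) F) (φ : MulAut N)
    (hK : ∀ h, φ h ∈ K ↔ h ∈ K) (X : (Matrix (Fin m) (Fin m) F)ˣ) (hX : Impl σ φ X) (a : N → F) :
    (X : Matrix (Fin m) (Fin m) F) * ev σ (fun x => a x) *
      ((X⁻¹ : (Matrix (Fin m) (Fin m) F)ˣ) : Matrix (Fin m) (Fin m) F) =
      ev σ (fun x => a (φ⁻¹ (x : N))) := by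
  rw [ev_aut σ φ hK X hX a, mul_assoc, Units.mul_inv, mul_one]

theorem Dat.conj (hm : MatStmt) (hc : IbcStmt) (D : Dat ℓ F b P ρ ρ') (x : MulAut N)
    (hx : ∀ p ∈ P, x * p * x⁻¹ ∈ P) (X : (Matrix (Fin n) (Fin n) F)ˣ)
    (X' : (Matrix (Fin n') (Fin n') F)ˣ) (hX : Impl ρ x X) (hX' : Impl ρ' x X')
    (M : Matrix (Fin n) (Fin n) F) (hM : FixM ρ P M) :
    FixM ρ P ((X : Matrix _ _ F) * M * ((X⁻¹ : (Matrix (Fin n) (Fin n) F)ˣ) : Matrix _ _ F)) ∧
      bet P ρ ρ' ((X : Matrix _ _ F) * M *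
        ((X⁻¹ : (Matrix (Fin n) (Fin n) F)ˣ) : Matrix _ _ F)) =
        (X' : Matrix _ _ F) * bet P ρ ρ' M *
          ((X'⁻¹ : (Matrix (Fin n') (Fin n') F)ˣ) : Matrix _ _ F) := by
  obtain ⟨a, ha, rfl⟩ := D.surj hm hc hM
  rw [ev_conj ρ x (ktop rfl x) X hX a, D.bet_ev hm ha,
    ev_conj ρ' x (fixN_stable hx).2 X' hX' a]
  exact ⟨D.fix (inv_conj hx ha), D.bet_ev hm (inv_conj hx ha)⟩

theorem Dat.mul (hm : MatStmt) (hc : IbcStmt) (D : Dat ℓ F b P ρ ρ')
    {M M' : Matrix (Fin n) (Fin n) F} (hM : FixM ρ P M) (hM' : FixM ρ P M') :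
    FixM ρ P (M * M') ∧ bet P ρ ρ' (M * M') = bet P ρ ρ' M * bet P ρ ρ' M' := by
  obtain ⟨a, ha, rfl⟩ := D.surj hm hc hM
  obtain ⟨a', ha', rfl⟩ := D.surj hm hc hM'
  have e : ev ρ (fun x => a x) * ev ρ (fun x => a' x) = ev ρ (fun x => mulF a a' x) := by
    rw [ev_tp, ev_tp, ev_tp, ev_mulF]
  have h := invF_mul ha ha'
  rw [e, D.bet_ev hm h, D.bet_ev hm ha, D.bet_ev hm ha']
  refine ⟨D.fix h, ?_⟩
  rw [trunc_mul D.good.prime D.good.char P D.hP ha ha', ev_mulF]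

theorem Dat.one (hm : MatStmt) (D : Dat ℓ F b P ρ ρ') : bet P ρ ρ' 1 = 1 := by
  have h := D.bet_ev hm D.inv
  rw [D.evb, D.evb'] at h
  exact h

theorem fix_one : FixM ρ P 1 := fun p _ A _ => by rw [mul_one, one_mul]

theorem fix_inv {Y : (Matrix (Fin n) (Fin n) F)ˣ} (hY : FixM ρ P Y) :
    FixM ρ P ((Y⁻¹ : (Matrix (Fin n) (Fin n) F)ˣ) : Matrix _ _ F) := by
  intro p hp A hA
  have h := hY p hp A hA
  have h' : A * Y = Y * A := Units.ext (by rw [Units.val_mul, Units.val_mul]; exact h)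
  have h2 : A * Y⁻¹ = Y⁻¹ * A := by
    rw [mul_inv_eq_iff_eq_mul, mul_assoc, h', inv_mul_cancel_left]
  have h3 := congrArg Units.val h2
  rw [Units.val_mul, Units.val_mul] at h3
  exact h3

/-- two matrices which implement the same automorphism differ by a scalar -/
theorem impl_uniq {K : Subgroup N} {m : ℕ} {σ : K →* Matrix (Fin m) (Fin m) F} (hσ : IsIrr σ)
    {φ : MulAut N} (hK : ∀ h, φ h ∈ K ↔ h ∈ K)
    {X Y : (Matrix (Fin m) (Fin m) F)ˣ} (hX : Impl σ φ X) (hY : Impl σ φ Y) :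
    ∃ w : F, w ≠ 0 ∧ (Y : Matrix (Fin m) (Fin m) F) = w • (X : Matrix (Fin m) (Fin m) F) := by
  have h1 : ∀ h : K, ((X⁻¹ * Y : (Matrix (Fin m) (Fin m) F)ˣ) : Matrix (Fin m) (Fin m) F) * σ h =
      σ h * ((X⁻¹ * Y : (Matrix (Fin m) (Fin m) F)ˣ) : Matrix (Fin m) (Fin m) F) := by
    intro h
    have e1 := hX h ⟨φ h, (hK h).2 h.2⟩ rfl
    have e2 := hY h ⟨φ h, (hK h).2 h.2⟩ rfl
    rw [Units.val_mul, mul_assoc, e2, ← mul_assoc, ← mul_assoc]
    have e3 : ((X⁻¹ : (Matrix (Fin m) (Fin m) F)ˣ) : Matrix (Fin m) (Fin m) F) *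
        σ ⟨φ h, (hK h).2 h.2⟩ = σ h * ((X⁻¹ : (Matrix (Fin m) (Fin m) F)ˣ) :
          Matrix (Fin m) (Fin m) F) := by
      apply cancel_unit X
      rw [mul_assoc, ← e1, ← mul_assoc, Units.inv_mul, one_mul, mul_assoc, Units.inv_mul, mul_one]
    rw [e3]
  obtain ⟨w, hw⟩ := schur hσ _ h1
  have h2 : (Y : Matrix (Fin m) (Fin m) F) = w • (X : Matrix (Fin m) (Fin m) F) := by
    have h3 : (X : Matrix (Fin m) (Fin m) F) *
        ((X⁻¹ * Y : (Matrix (Fin m) (Fin m) F)ˣ) : Matrix (Fin m) (Fin m) F) = Y := by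
      rw [← Units.val_mul, mul_inv_cancel_left]
    rw [← h3, hw, Matrix.scalar_apply, ← Matrix.smul_one_eq_diagonal, Matrix.mul_smul, mul_one]
  refine ⟨w, fun h0 => ?_, h2⟩
  rw [h0, zero_smul] at h2
  have h4 : (Y : Matrix (Fin m) (Fin m) F) * ((Y⁻¹ : (Matrix (Fin m) (Fin m) F)ˣ) :
      Matrix (Fin m) (Fin m) F) = 1 := Units.mul_inv Y
  rw [h2, zero_mul] at h4
  have : Nonempty (Fin m) := ⟨⟨0, hσ.1⟩⟩
  exact zero_ne_one h4

theorem impl_pow {K : Subgroup N} {m : ℕ} {σ : K →* Matrix (Fin m) (Fin m) F}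
    {φ : MulAut N} (hK : ∀ h, φ h ∈ K ↔ h ∈ K) {X : (Matrix (Fin m) (Fin m) F)ˣ}
    (hX : Impl σ φ X) (k : ℕ) : Impl σ (φ ^ k : MulAut N) (X ^ k) := by
  induction k with
  | zero => rw [pow_zero, pow_zero]; exact impl_one σ
  | succ k ih => rw [pow_succ, pow_succ]; exact impl_mul hK ih hX

/-- a matrix which implements an automorphism commuting with `P` is fixed -/
theorem Dat.comm_fix (D : Dat ℓ F b P ρ ρ') (y : MulAut N) (hy : ∀ p ∈ P, Commute y p)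
    (Y : (Matrix (Fin n) (Fin n) F)ˣ) (hY : Impl ρ y Y) : FixM ρ P Y := by
  intro p hp A hA
  have h1 : Impl ρ (p * y : MulAut N) (A * Y) := impl_mul (ktop rfl y) hA hY
  have h2 : Impl ρ (p * y : MulAut N) (Y * A) := by
    rw [← (hy p hp).eq]; exact impl_mul (ktop rfl p) hY hA
  obtain ⟨z, hz0, hz⟩ := impl_uniq D.irr (ktop rfl _) h2 h1
  rw [Units.val_mul, Units.val_mul] at hz
  have h3 : ∀ k : ℕ, ((A ^ k : (Matrix (Fin n) (Fin n) F)ˣ) : Matrix (Fin n) (Fin n) F) * Y =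
      z ^ k • (Y * ((A ^ k : (Matrix (Fin n) (Fin n) F)ˣ) : Matrix (Fin n) (Fin n) F)) := by
    intro k
    induction k with
    | zero => rw [pow_zero, pow_zero, Units.val_one, one_mul, mul_one, one_smul]
    | succ k ih =>
      rw [pow_succ, Units.val_mul, mul_assoc, hz, Matrix.mul_smul, ← mul_assoc, ih, smul_mul_assoc,
        smul_smul, mul_assoc, pow_succ, mul_comm]
  obtain ⟨k, hk⟩ := D.hP ⟨p, hp⟩
  have hk' : p ^ ℓ ^ k = 1 := congrArg Subtype.val hk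
  have h4 : Impl ρ (1 : MulAut N) (A ^ ℓ ^ k) := by
    rw [← hk']; exact impl_pow (ktop rfl p) hA _
  obtain ⟨w, hw0, hw⟩ := impl_uniq D.irr (ktop rfl _) (impl_one ρ) h4
  rw [Units.val_one] at hw
  have h5 := h3 (ℓ ^ k)
  rw [hw, smul_mul_assoc, one_mul, Matrix.mul_smul, mul_one, smul_comm] at h5
  have h6 : w • ((Y : Matrix (Fin n) (Fin n) F)) = w • (z ^ ℓ ^ k • (Y : Matrix (Fin n) (Fin n) F)) := h5
  have h7 : (Y : Matrix (Fin n) (Fin n) F) = z ^ ℓ ^ k • (Y : Matrix (Fin n) (Fin n) F) :=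
    smul_right_injective _ hw0 h6
  have h8 : (1 : Matrix (Fin n) (Fin n) F) = z ^ ℓ ^ k • 1 := by
    have := congrArg (fun Z => Z * ((Y⁻¹ : (Matrix (Fin n) (Fin n) F)ˣ) :
      Matrix (Fin n) (Fin n) F)) h7
    simpa only [smul_mul_assoc, Units.mul_inv] using this
  have h9 : z ^ ℓ ^ k = 1 := by
    have := congrFun (congrFun h8 ⟨0, D.irr.1⟩) ⟨0, D.irr.1⟩
    rw [Matrix.smul_apply, Matrix.one_apply_eq, smul_eq_mul, mul_one] at this
    exact this.symm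
  have h10 : z = 1 := by
    have := D.good.char
    have : Fact ℓ.Prime := ⟨D.good.prime⟩
    apply iterateFrobenius_inj F ℓ k
    rw [iterateFrobenius_def, iterateFrobenius_def, h9, one_pow]
  rw [hz, h10, one_smul]

theorem inv_dl (h : N) (hh : h ∈ fixN P) : InvF P (dl F h) := by
  intro p hp t
  have : (p t = h) ↔ (t = h) := by
    constructor
    · intro e; exact p.injective (by rw [e, hh p hp])
    · intro e; rw [e, hh p hp]
  by_cases ht : t = h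
  · have ht' := this.2 ht
    unfold dl
    rw [if_pos ht', if_pos ht]
  · have ht' := fun e => ht (this.1 e)
    unfold dl
    rw [if_neg ht', if_neg ht]

theorem Dat.comm (hm : MatStmt) (hc : IbcStmt) (D : Dat ℓ F b P ρ ρ') (y : MulAut N)
    (hy : ∀ p ∈ P, Commute y p) (Y : (Matrix (Fin n) (Fin n) F)ˣ) (hY : Impl ρ y Y) :
    FixM ρ P Y ∧ ∃ Y' : (Matrix (Fin n') (Fin n') F)ˣ, bet P ρ ρ' Y = Y' ∧ Impl ρ' y Y' := by
  have hf := D.comm_fix y hy Y hY
  have hf' := fix_inv hf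
  have h1 : bet P ρ ρ' Y * bet P ρ ρ' ((Y⁻¹ : (Matrix (Fin n) (Fin n) F)ˣ) : Matrix _ _ F) = 1 := by
    rw [← (D.mul hm hc hf hf').2, Units.mul_inv, D.one hm]
  have h2 : bet P ρ ρ' ((Y⁻¹ : (Matrix (Fin n) (Fin n) F)ˣ) : Matrix _ _ F) * bet P ρ ρ' Y = 1 := by
    rw [← (D.mul hm hc hf' hf).2, Units.inv_mul, D.one hm]
  refine ⟨hf, ⟨_, _, h1, h2⟩, rfl, ?_⟩
  intro h h' e
  change bet P ρ ρ' Y * ρ' h = ρ' h' * bet P ρ ρ' Y
  have e1 : ∀ g : fixN P, ev ρ (fun x => dl F (g : N) x) = ρ ⟨g, Subgroup.mem_top _⟩ := by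
    intro g
    rw [ev_tp, ev_dl, tp_apply]
  have e2 : ∀ g : fixN P, ev ρ' (fun x => dl F (g : N) x) = ρ' g := by
    intro g
    have : (fun x : fixN P => dl F (g : N) x) = dl F g := by
      funext x
      by_cases hx : x = g
      · have hx' : (x : N) = g := congrArg Subtype.val hx
        unfold dl
        rw [if_pos hx', if_pos hx]
      · have hx' : ¬ (x : N) = g := fun e => hx (Subtype.ext e)
        unfold dl
        rw [if_neg hx', if_neg hx]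
    rw [this, ev_dl]
  have e3 : ∀ g : fixN P, bet P ρ ρ' (ρ ⟨g, Subgroup.mem_top _⟩) = ρ' g ∧
      FixM ρ P (ρ ⟨g, Subgroup.mem_top _⟩) := by
    intro g
    rw [← e1, D.bet_ev hm (inv_dl (g : N) g.2), e2]
    exact ⟨rfl, D.fix (inv_dl (g : N) g.2)⟩
  rw [← (e3 h).1, ← (e3 h').1, ← (D.mul hm hc hf (e3 h).2).2, ← (D.mul hm hc (e3 h').2 hf).2]
  have e4 := hY ⟨h, Subgroup.mem_top _⟩ ⟨h', Subgroup.mem_top _⟩ e
  rw [e4]

end top

/-- BET -/
theorem bet_stmt (hm : MatStmt) (hc : IbcStmt) : BetStmt := by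
  intro ℓ F _ hF N _ _ b hb P hP hinv _ n n' ρ ρ' hρ hρ' h1 h2
  have D : Dat ℓ F b P ρ ρ' := ⟨hF, hb, hP, hinv, hρ, hρ', h1, h2⟩
  exact ⟨bet P ρ ρ', fun a ha => ⟨D.fix ha, D.bet_ev hm ha⟩, fun M hM => D.surj hm hc hM,
    fun M M' hM hM' => D.mul hm hc hM hM', D.one hm,
    fun x hx _ X X' hX hX' M hM => D.conj hm hc x hx X X' hX hX' M hM,
    fun y hy _ Y hY => D.comm hm hc y hy Y hY⟩

end Pool.Agent.PP.H18
end
end -- Pool.Agent.Helper18_PP.Bet
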