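import Pool.Agent.Helper75_PP.Transport
import Pool.Agent.Helper79_WRA.Basic
import Pool.Agent.Helper79_WRA.Stmt
import Pool.Agent.Helper96_PP.StmtsA

/-!
# Merged copies (generated) of the modules

* `Pool.Agent.Helper46_WRA.Tzero`
* `Pool.Agent.Helper91_WRA.Inter`
* `Pool.Agent.Helper91_WRA.ChainRed`
* `Pool.Agent.Helper94_PP.Nch`
* `Pool.Agent.Helper96_PP.Rch`
* `Pool.Agent.Helper96_PP.Trn`
-/

set_option autoImplicit false

section -- Pool.Agent.Helper46_WRA.Tzero

/-!
WRA, module TZERO: if `C_N(c)` has a nontrivial normal `ℓ`-subgroup then the inner sum vanishes.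
-/

open scoped BigOperators

noncomputable section

namespace Pool.Agent.Helper79_WRA.H46

open Pool.Agent.Helper51_AWC

section

variable {Γ : Type} [Group Γ]

theorem mem_cent {N : Subgroup Γ} {c : Finset (Subgroup Γ)} {x : Γ} :
    x ∈ cent N c ↔ x ∈ N ∧ ∀ D ∈ c, ∀ y ∈ D, y * x = x * y := by
  unfold cent
  rw [Subgroup.mem_inf]
  simp only [Subgroup.mem_iInf, Subgroup.mem_centralizer_iff, SetLike.mem_coe]

theorem conj_mem_cent {N : Subgroup Γ} (hN : N.Normal) {c : Finset (Subgroup Γ)} {g x : Γ}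
    (hg : g ∈ stab c) (hx : x ∈ cent N c) : g * x * g⁻¹ ∈ cent N c := by
  rw [mem_cent] at hx ⊢
  refine ⟨hN.conj_mem x hx.1 g, fun D hD y hy => ?_⟩
  have h1 := (mem_stab.1 hg) D hD
  rw [← h1, mem_conjS] at hy
  have h2 := hx.2 D hD _ hy
  have h3 : g * (g⁻¹ * y * g * x) * g⁻¹ = g * (x * (g⁻¹ * y * g)) * g⁻¹ := by rw [h2]
  calc y * (g * x * g⁻¹) = g * (g⁻¹ * y * g * x) * g⁻¹ := by group
    _ = g * (x * (g⁻¹ * y * g)) * g⁻¹ := h3
    _ = g * x * g⁻¹ * y := by group

/-- conjugation by an element of `stab c` on `C_N(c)` -/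
def conjCent {N : Subgroup Γ} (hN : N.Normal) {c : Finset (Subgroup Γ)} {g : Γ}
    (hg : g ∈ stab c) : cent N c ≃* cent N c where
  toFun x := ⟨g * x * g⁻¹, conj_mem_cent hN hg x.2⟩
  invFun x := ⟨g⁻¹ * x * g, by
    have := conj_mem_cent hN ((stab c).inv_mem hg) x.2
    rwa [inv_inv] at this⟩
  left_inv x := by apply Subtype.ext; simp [mul_assoc]
  right_inv x := by apply Subtype.ext; simp [mul_assoc]
  map_mul' x y := by apply Subtype.ext; simp [mul_assoc]

theorem conjS_opCore [Finite Γ] (ℓ : ℕ) [Fact ℓ.Prime] {N : Subgroup Γ} (hN : N.Normal)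
    {c : Finset (Subgroup Γ)} {g : Γ} (hg : g ∈ stab c) :
    conjS g ((opCore ℓ (cent N c)).map (cent N c).subtype) =
      (opCore ℓ (cent N c)).map (cent N c).subtype := by
  have h1 := opCore_equiv ℓ (conjCent hN hg)
  rw [mapE_apply] at h1
  conv_rhs => rw [← h1]
  unfold conjS
  rw [Subgroup.map_map, Subgroup.map_map]
  rfl

end

theorem tzero (hCone : ConeStmt) : TZeroStmt := by
  intro ℓ hℓ Γ _ _ N hN w c hne
  classical
  set H := cent N c with hH
  set O : Subgroup Γ := (opCore ℓ H).map H.subtype with hO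
  obtain ⟨o1, o2, -⟩ := opCore_spec ℓ H
  have hOH : O ≤ H := Subgroup.map_subtype_le _
  have hOne : ¬ O ≤ ⊥ := by
    intro h
    apply hne
    rw [le_bot_iff, hO, Subgroup.map_eq_bot_iff_of_injective _ H.subtype_injective] at h
    exact h
  have hsup : ∀ x : Subgroup Γ, x ≤ H →
      x ⊔ O = ((x.subgroupOf H) ⊔ opCore ℓ H).map H.subtype := by
    intro x hx
    rw [Subgroup.map_sup, Subgroup.map_subgroupOf_eq_of_le hx]
  have hjp : ∀ x ∈ psubIn ℓ H, x ⊔ O ∈ psubIn ℓ H := by
    intro x hx
    rw [mem_psubIn] at hx ⊢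
    refine ⟨sup_le hx.1 hOH, ?_⟩
    rw [hsup x hx.1]
    exact (IsPGroup.to_sup_of_normal_right
      (hx.2.comap_of_injective _ H.subtype_injective) o2).map _
  have hstab : ∀ (d : Finset (Subgroup Γ)) (x : Subgroup Γ), x ∈ d →
      stab c ⊓ stab (insert (x ⊔ O) d) = stab c ⊓ stab d := by
    intro d x hx
    ext g
    rw [Subgroup.mem_inf, Subgroup.mem_inf, mem_stab (d := insert (x ⊔ O) d),
      mem_stab (d := d)]
    constructor
    · rintro ⟨h1, h2⟩
      exact ⟨h1, fun D hD => h2 D (Finset.mem_insert_of_mem hD)⟩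
    · rintro ⟨h1, h2⟩
      refine ⟨h1, fun D hD => ?_⟩
      rcases Finset.mem_insert.1 hD with rfl | hD
      · have h3 : conjS g (x ⊔ O) = conjS g x ⊔ conjS g O := Subgroup.map_sup _ _ _
        rw [h3, h2 x hx, hO, hH, conjS_opCore ℓ hN h1]
      · exact h2 D hD
  unfold tsum
  refine hCone (Subgroup Γ) (psubIn ℓ H) ⊥ O (fun x => x ⊔ O) hOne (fun _ _ => bot_le) hjp
    (fun _ _ => le_sup_left) (fun _ _ => le_sup_right) (fun x _ y _ h1 h2 => sup_le h1 h2)
    (fun v => (-1) ^ (v.card + 1) * w (stab c ⊓ stab v)) ?_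
  intro d _ x hx hnot
  rw [hstab d x hx, Finset.card_insert_of_notMem hnot]
  ring

end Pool.Agent.Helper79_WRA.H46
end
end -- Pool.Agent.Helper46_WRA.Tzero

section -- Pool.Agent.Helper91_WRA.Inter

/-!
WRA: modules INTER and CONE.
-/

open scoped BigOperators

noncomputable section

namespace Pool.Agent.Helper79_WRA.H91

open Pool.Agent.Helper51_AWC Pool.Agent.Helper79_WRA

/-- INTER -/
theorem inter : InterStmt := by
  intro α _ _ s b c hs hle hmono hidem hb hcb hbl f hf
  classical
  rw [← Finset.sum_filter_add_sum_filter_not (chainsOn s b) (fun d => ∀ x ∈ d, c x = x)]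
  rw [add_eq_left]
  -- the least non-fixed element
  have hex : ∀ d : Finset α, ∃ m : α, d ∈ (chainsOn s b).filter (fun d => ¬ ∀ x ∈ d, c x = x) →
      m ∈ d ∧ c m ≠ m ∧ ∀ y ∈ d, c y ≠ y → m ≤ y := by
    intro d
    by_cases hd : d ∈ (chainsOn s b).filter (fun d => ¬ ∀ x ∈ d, c x = x)
    · have hd' := hd
      rw [Finset.mem_filter, mem_chainsOn] at hd'
      obtain ⟨⟨_, _, hch⟩, hne⟩ := hd'
      push Not at hne
      obtain ⟨x, hx, hxc⟩ := hne
      obtain ⟨m, hm, hmin⟩ := exists_least (d := d.filter (fun x => c x ≠ x))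
        (hch.mono (by intro y hy; exact Finset.mem_of_mem_filter y hy))
        ⟨x, Finset.mem_filter.2 ⟨hx, hxc⟩⟩
      rw [Finset.mem_filter] at hm
      exact ⟨m, fun _ => ⟨hm.1, hm.2, fun y hy hyc => hmin y (Finset.mem_filter.2 ⟨hy, hyc⟩)⟩⟩
    · exact ⟨b, fun h => absurd h hd⟩
  choose m hm using hex
  have hkey : ∀ d ∈ (chainsOn s b).filter (fun d => ¬ ∀ x ∈ d, c x = x),
      toggle d (c (m d)) ∈ (chainsOn s b).filter (fun d => ¬ ∀ x ∈ d, c x = x) ∧
      m (toggle d (c (m d))) = m d := by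
    intro d hd
    obtain ⟨hmd, hmc, hmin⟩ := hm d hd
    have hd' := hd
    rw [Finset.mem_filter, mem_chainsOn] at hd'
    obtain ⟨⟨hsub, hbd, hch⟩, -⟩ := hd'
    have hms := hsub hmd
    have hmem : toggle d (c (m d)) ∈ (chainsOn s b).filter (fun d => ¬ ∀ x ∈ d, c x = x) := by
      rw [Finset.mem_filter, mem_chainsOn]
      unfold toggle
      split_ifs with h
      · refine ⟨⟨(Finset.erase_subset _ _).trans hsub, ?_, ?_⟩, ?_⟩
        · rw [Finset.mem_erase]
          refine ⟨?_, hbd⟩
          intro hbe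
          apply hmc
          have h1 : m d = b := hcb _ hms hbe.symm
          rw [h1, hb]
        · exact hch.mono (by intro y hy; exact Finset.mem_of_mem_erase hy)
        · push Not
          exact ⟨m d, Finset.mem_erase.2 ⟨fun h' => hmc h'.symm, hmd⟩, hmc⟩
      · refine ⟨⟨?_, Finset.mem_insert_of_mem hbd, ?_⟩, ?_⟩
        · intro y hy
          rcases Finset.mem_insert.1 hy with rfl | hy
          · exact hs _ hms
          · exact hsub hy
        · rw [Finset.coe_insert]
          apply hch.insert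
          intro y hy hne
          rcases chain_total hch hmd hy with h1 | h1
          · left; exact (hle _ hms).trans h1
          · by_cases hyc : c y = y
            · right
              rw [← hyc]; exact hmono _ (hsub hy) _ hms h1
            · have := hmin y hy hyc
              have : y = m d := le_antisymm h1 this
              left; rw [this]; exact hle _ hms
        · push Not
          exact ⟨m d, Finset.mem_insert_of_mem hmd, hmc⟩
    refine ⟨hmem, ?_⟩
    obtain ⟨h1, h2, h3⟩ := hm _ hmem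
    have hmt : m d ∈ toggle d (c (m d)) := by
      unfold toggle
      split_ifs with h
      · exact Finset.mem_erase.2 ⟨fun h' => hmc h'.symm, hmd⟩
      · exact Finset.mem_insert_of_mem hmd
    apply le_antisymm
    · exact h3 _ hmt hmc
    · have h4 : m (toggle d (c (m d))) ∈ d := by
        generalize m (toggle d (c (m d))) = t at h1 h2
        unfold toggle at h1
        split_ifs at h1 with h
        · exact Finset.mem_of_mem_erase h1
        · rcases Finset.mem_insert.1 h1 with h' | h'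
          · exfalso; apply h2; rw [h', hidem _ hms]
          · exact h'
      exact hmin _ h4 h2
  apply sum_toggle _ (fun d => c (m d))
  · intro d hd; exact (hkey d hd).1
  · intro d hd; rw [(hkey d hd).2]
  · intro d hd
    obtain ⟨hmd, hmc, hmin⟩ := hm d hd
    have hd' := Finset.mem_filter.1 hd
    simp only [toggle]
    split_ifs with h
    · have h1 : d.erase (c (m d)) ∈ chainsOn s b := by
        have := (hkey d hd).1
        unfold toggle at this
        rw [if_pos h] at this
        exact (Finset.mem_filter.1 this).1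
      have h2 := hf _ h1 (m d) (Finset.mem_erase.2 ⟨fun h' => hmc h'.symm, hmd⟩)
        (Finset.notMem_erase _ _)
      rw [Finset.insert_erase h] at h2
      rw [h2]; ring
    · exact hf d hd'.1 (m d) hmd h

/-- CONE -/
theorem cone : ConeStmt := by
  intro α _ _ s b o j hob hbl hs hle hoj hmin f hf
  classical
  -- the greatest element which is not above `o`
  have hex : ∀ d : Finset α, ∃ m : α, d ∈ chainsOn s b →
      m ∈ d ∧ ¬ o ≤ m ∧ ∀ y ∈ d, ¬ o ≤ y → y ≤ m := by
    intro d
    by_cases hd : d ∈ chainsOn s b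
    · obtain ⟨_, hbd, hch⟩ := mem_chainsOn.1 hd
      obtain ⟨m, hm, hmax⟩ := exists_greatest (d := d.filter (fun x => ¬ o ≤ x))
        (hch.mono (by intro y hy; exact Finset.mem_of_mem_filter y hy))
        ⟨b, Finset.mem_filter.2 ⟨hbd, hob⟩⟩
      rw [Finset.mem_filter] at hm
      exact ⟨m, fun _ => ⟨hm.1, hm.2, fun y hy hyo => hmax y (Finset.mem_filter.2 ⟨hy, hyo⟩)⟩⟩
    · exact ⟨b, fun h => absurd h hd⟩
  choose m hm using hex
  have hkey : ∀ d ∈ chainsOn s b, toggle d (j (m d)) ∈ chainsOn s b ∧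
      m (toggle d (j (m d))) = m d ∧ j (m d) ≠ m d := by
    intro d hd
    obtain ⟨hmd, hmo, hmax⟩ := hm d hd
    obtain ⟨hsub, hbd, hch⟩ := mem_chainsOn.1 hd
    have hms := hsub hmd
    have hjm : j (m d) ≠ m d := fun h => hmo (h ▸ hoj _ hms)
    have hmem : toggle d (j (m d)) ∈ chainsOn s b := by
      rw [mem_chainsOn]
      unfold toggle
      split_ifs with h
      · refine ⟨(Finset.erase_subset _ _).trans hsub, ?_, ?_⟩
        · rw [Finset.mem_erase]
          refine ⟨?_, hbd⟩
          intro hbe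
          exact hob (hbe ▸ hoj _ hms)
        · exact hch.mono (by intro y hy; exact Finset.mem_of_mem_erase hy)
      · refine ⟨?_, Finset.mem_insert_of_mem hbd, ?_⟩
        · intro y hy
          rcases Finset.mem_insert.1 hy with rfl | hy
          · exact hs _ hms
          · exact hsub hy
        · rw [Finset.coe_insert]
          apply hch.insert
          intro y hy hne
          by_cases hyo : o ≤ y
          · left
            have h1 : m d ≤ y := by
              rcases chain_total hch hmd hy with h1 | h1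
              · exact h1
              · exact absurd (hyo.trans h1) hmo
            exact hmin _ hms _ (hsub hy) h1 hyo
          · right
            exact (hmax y hy hyo).trans (hle _ hms)
    refine ⟨hmem, ?_, hjm⟩
    obtain ⟨h1, h2, h3⟩ := hm _ hmem
    have hmt : m d ∈ toggle d (j (m d)) := by
      unfold toggle
      split_ifs with h
      · exact Finset.mem_erase.2 ⟨fun h' => hjm h'.symm, hmd⟩
      · exact Finset.mem_insert_of_mem hmd
    apply le_antisymm
    · have h4 : m (toggle d (j (m d))) ∈ d := by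
        generalize m (toggle d (j (m d))) = t at h1 h2
        unfold toggle at h1
        split_ifs at h1 with h
        · exact Finset.mem_of_mem_erase h1
        · rcases Finset.mem_insert.1 h1 with h' | h'
          · exact absurd (h' ▸ hoj _ hms) h2
          · exact h'
      exact hmax _ h4 h2
    · exact h3 _ hmt hmo
  apply sum_toggle _ (fun d => j (m d))
  · intro d hd; exact (hkey d hd).1
  · intro d hd; rw [(hkey d hd).2.1]
  · intro d hd
    obtain ⟨hmd, hmo, hmax⟩ := hm d hd
    obtain ⟨hk1, hk2, hk3⟩ := hkey d hd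
    simp only [toggle]
    split_ifs with h
    · have h1 : d.erase (j (m d)) ∈ chainsOn s b := by
        unfold toggle at hk1
        rw [if_pos h] at hk1
        exact hk1
      have h2 := hf _ h1 (m d) (Finset.mem_erase.2 ⟨fun h' => hk3 h'.symm, hmd⟩)
        (Finset.notMem_erase _ _)
      rw [Finset.insert_erase h] at h2
      rw [h2]; ring
    · exact hf d hd (m d) hmd h

end Pool.Agent.Helper79_WRA.H91
end
end -- Pool.Agent.Helper91_WRA.Inter

section -- Pool.Agent.Helper91_WRA.ChainRed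

/-!
WRA: module CHAINRED.
-/

open scoped BigOperators

noncomputable section

namespace Pool.Agent.Helper79_WRA.H91

open Pool.Agent.Helper51_AWC Pool.Agent.Helper79_WRA

section group

variable {ℓ : ℕ} [Fact ℓ.Prime] {Γ : Type} [Group Γ]

omit [Fact ℓ.Prime] in
theorem conjS_inf (g : Γ) (A B : Subgroup Γ) : conjS g (A ⊓ B) = conjS g A ⊓ conjS g B := by
  ext x
  rw [mem_conjS, Subgroup.mem_inf, Subgroup.mem_inf, mem_conjS, mem_conjS]

theorem conjS_sup (g : Γ) (A B : Subgroup Γ) : conjS g (A ⊔ B) = conjS g A ⊔ conjS g B := by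
  unfold conjS
  exact Subgroup.map_sup _ _ _

theorem mem_cent {N : Subgroup Γ} {c : Finset (Subgroup Γ)} {x : Γ} :
    x ∈ cent N c ↔ x ∈ N ∧ ∀ D ∈ c, ∀ y ∈ D, y * x = x * y := by
  simp only [cent, Subgroup.mem_inf, Subgroup.mem_iInf, Subgroup.mem_centralizer_iff,
    SetLike.mem_coe]

/-- an element fixing all the members of `c` fixes `cent N c` -/
theorem conjS_cent {N : Subgroup Γ} (hN : N.Normal) {c : Finset (Subgroup Γ)} {g : Γ}
    (hg : ∀ D ∈ c, conjS g D = D) : conjS g (cent N c) = cent N c := by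
  have key : ∀ h : Γ, (∀ D ∈ c, conjS h D = D) → cent N c ≤ conjS h (cent N c) := by
    intro h hh x hx
    rw [mem_cent] at hx
    rw [mem_conjS, mem_cent]
    refine ⟨?_, ?_⟩
    · have := hN.conj_mem x hx.1 h⁻¹
      simpa using this
    · intro D hD y hy
      have h1 : h * y * h⁻¹ ∈ D := by
        rw [← hh D hD, mem_conjS]
        simpa [mul_assoc] using hy
      have h2 := hx.2 D hD _ h1
      have h3 : h * (y * (h⁻¹ * x * h)) * h⁻¹ = h * ((h⁻¹ * x * h) * y) * h⁻¹ := by
        calc h * (y * (h⁻¹ * x * h)) * h⁻¹ = (h * y * h⁻¹) * x := by group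
          _ = x * (h * y * h⁻¹) := h2
          _ = h * ((h⁻¹ * x * h) * y) * h⁻¹ := by group
      exact mul_left_cancel (mul_right_cancel h3)
  apply le_antisymm _ (key g hg)
  have hg' : ∀ D ∈ c, conjS g⁻¹ D = D := by
    intro D hD
    conv_lhs => rw [← hg D hD]
    rw [conjS_conjS, inv_mul_cancel, conjS_one]
  have h1 := conjS_mono (g := g) |>.2 (key g⁻¹ hg')
  rwa [conjS_conjS, mul_inv_cancel, conjS_one] at h1

/-- an `ℓ`-subgroup meeting the normal subgroup `N` nontrivially contains a nontrivial element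
of `N` in its centre -/
theorem exists_central [Finite Γ] {N D : Subgroup Γ} (hN : N.Normal) (hD : IsPGroup ℓ D)
    (hne : D ⊓ N ≠ ⊥) : ∃ z ∈ D ⊓ N, z ≠ 1 ∧ ∀ y ∈ D, y * z = z * y := by
  have hnorm : (N.subgroupOf D).Normal := hN.subgroupOf D
  have h1 := (hD.of_equiv ConjAct.toConjAct).exists_fixed_point_of_prime_dvd_card_of_fixed_point
    (N.subgroupOf D)
  have h2 : ℓ ∣ Nat.card (N.subgroupOf D) := by
    have h3 : IsPGroup ℓ (N.subgroupOf D) := hD.to_subgroup _
    have h4 : Nontrivial (N.subgroupOf D) := by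
      rw [Subgroup.nontrivial_iff_ne_bot]
      intro h
      apply hne
      rw [Subgroup.subgroupOf_eq_bot] at h
      rw [inf_comm]
      exact h.eq_bot
    obtain ⟨n, hn, hn'⟩ := h3.nontrivial_iff_card.1 h4
    rw [hn']
    exact dvd_pow_self _ hn.ne'
  obtain ⟨b, hb, hb'⟩ := h1 h2 (a := 1) (by
    intro g
    exact smul_one g)
  refine ⟨(b : D), ⟨(b : D).2, Subgroup.mem_subgroupOf.1 b.2⟩, ?_, ?_⟩
  · intro h
    apply hb'
    apply Subtype.ext
    apply Subtype.ext
    exact h.symm
  · intro y hy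
    have h3 := hb (ConjAct.toConjAct ⟨y, hy⟩)
    have h4 : (⟨y, hy⟩ : D) * (b : D) * (⟨y, hy⟩ : D)⁻¹ = (b : D) := by
      have := congrArg Subtype.val h3
      exact this
    have h5 : y * ((b : D) : Γ) * y⁻¹ = ((b : D) : Γ) := congrArg Subtype.val h4
    rw [mul_inv_eq_iff_eq_mul] at h5
    exact h5

theorem inf_cent_ne_bot [Finite Γ] {N D : Subgroup Γ} (hN : N.Normal) (hD : IsPGroup ℓ D)
    (hne : D ⊓ N ≠ ⊥) {c : Finset (Subgroup Γ)} (hc : ∀ E ∈ c, E ≤ D) :
    D ⊓ cent N c ≠ ⊥ := by
  obtain ⟨z, hz, hz1, hz2⟩ := exists_central hN hD hne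
  intro h
  apply hz1
  have : z ∈ D ⊓ cent N c := by
    exact ⟨hz.1, mem_cent.2 ⟨hz.2, fun E hE y hy => hz2 y (hc E hE hy)⟩⟩
  rw [h] at this
  exact Subgroup.mem_bot.1 this

omit [Fact ℓ.Prime] in
/-- the modular law for commuting subgroups -/
theorem sup_inf_of_comm {P R W : Subgroup Γ} (hRW : R ≤ W) (hPW : P ⊓ W = ⊥)
    (hcomm : ∀ p ∈ P, ∀ r ∈ R, p * r = r * p) : (P ⊔ R) ⊓ W = R := by
  let Q : Subgroup Γ :=
    { carrier := {x | ∃ p ∈ P, ∃ r ∈ R, x = p * r}
      one_mem' := ⟨1, P.one_mem, 1, R.one_mem, (one_mul 1).symm⟩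
      mul_mem' := by
        rintro _ _ ⟨p, hp, r, hr, rfl⟩ ⟨p', hp', r', hr', rfl⟩
        refine ⟨p * p', P.mul_mem hp hp', r * r', R.mul_mem hr hr', ?_⟩
        rw [mul_assoc, ← mul_assoc r, ← hcomm p' hp' r hr]
        simp only [mul_assoc]
      inv_mem' := by
        rintro _ ⟨p, hp, r, hr, rfl⟩
        refine ⟨p⁻¹, P.inv_mem hp, r⁻¹, R.inv_mem hr, ?_⟩
        rw [mul_inv_rev, hcomm _ (P.inv_mem hp) _ (R.inv_mem hr)] }
  have hQ : P ⊔ R ≤ Q := by
    apply sup_le
    · intro x hx; exact ⟨x, hx, 1, R.one_mem, (mul_one x).symm⟩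
    · intro x hx; exact ⟨1, P.one_mem, x, hx, (one_mul x).symm⟩
  apply le_antisymm
  · rintro x ⟨hx, hxW⟩
    obtain ⟨p, hp, r, hr, rfl⟩ := hQ hx
    have h1 : p ∈ P ⊓ W := by
      refine ⟨hp, ?_⟩
      have := W.mul_mem hxW (W.inv_mem (hRW hr))
      simpa using this
    rw [hPW, Subgroup.mem_bot] at h1
    rw [h1, one_mul]; exact hr
  · exact le_inf le_sup_right hRW

end group

section fibre

variable {ℓ : ℕ} [Fact ℓ.Prime] {Γ : Type} [Group Γ] [Finite Γ]

open Classical in
/-- the subgroups over `P` meeting `N` nontrivially, and `P` -/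
def overS (ℓ : ℕ) {Γ : Type} [Group Γ] [Finite Γ] (N P : Subgroup Γ) : Finset (Subgroup Γ) :=
  (psub ℓ Γ).filter (fun D => P ≤ D ∧ (D = P ∨ D ⊓ N ≠ ⊥))

omit [Fact ℓ.Prime] in
theorem mem_over {N P D : Subgroup Γ} :
    D ∈ overS ℓ N P ↔ D ∈ psub ℓ Γ ∧ P ≤ D ∧ (D = P ∨ D ⊓ N ≠ ⊥) := by
  simp [overS]

omit [Fact ℓ.Prime] in
open Classical in
/-- the chains with prescribed members meeting `N` trivially -/
theorem fibre_sum {N : Subgroup Γ} (c : Finset (Subgroup Γ)) (hc : c ∈ chainsOn (psub ℓ Γ) ⊥)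
    (hcN : ∀ D ∈ c, D ⊓ N = ⊥) {P : Subgroup Γ} (hP : P ∈ c) (hPmax : ∀ D ∈ c, D ≤ P)
    (f : Finset (Subgroup Γ) → ℤ) :
    ∑ d ∈ (chainsOn (psub ℓ Γ) ⊥).filter (fun d => d.filter (fun D => D ⊓ N = ⊥) = c), f d =
      ∑ u ∈ chainsOn (overS ℓ N P) P, f (c ∪ u) := by
  obtain ⟨c1, c2, c3⟩ := mem_chainsOn.1 hc
  have hPN := hcN P hP
  refine Finset.sum_bij' (fun d _ => insert P (d.filter (fun D => ¬ D ⊓ N = ⊥)))
    (fun u _ => c ∪ u) ?_ ?_ ?_ ?_ ?_
  · intro d hd
    rw [Finset.mem_filter] at hd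
    obtain ⟨hd, hdc⟩ := hd
    obtain ⟨d1, d2, d3⟩ := mem_chainsOn.1 hd
    have hPd : P ∈ d := by
      rw [← hdc] at hP
      exact (Finset.mem_filter.1 hP).1
    have hle : ∀ D ∈ d, ¬ D ⊓ N = ⊥ → P ≤ D := by
      intro D hD hDN
      rcases chain_total d3 hPd hD with h | h
      · exact h
      · exfalso; apply hDN
        rw [← le_bot_iff, ← hPN]
        exact inf_le_inf_right _ h
    rw [mem_chainsOn]
    refine ⟨?_, Finset.mem_insert_self _ _, ?_⟩
    · intro D hD
      rw [mem_over]
      rcases Finset.mem_insert.1 hD with rfl | hD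
      · exact ⟨c1 hP, le_refl _, Or.inl rfl⟩
      · rw [Finset.mem_filter] at hD
        exact ⟨d1 hD.1, hle D hD.1 hD.2, Or.inr hD.2⟩
    · refine IsChain.mono ?_ d3
      intro D hD
      rcases Finset.mem_insert.1 (Finset.mem_coe.1 hD) with rfl | hD
      · exact hPd
      · exact (Finset.mem_filter.1 hD).1
  · intro u hu
    obtain ⟨u1, u2, u3⟩ := mem_chainsOn.1 hu
    rw [Finset.mem_filter, mem_chainsOn]
    refine ⟨⟨?_, Finset.mem_union_left _ c2, ?_⟩, ?_⟩
    · intro D hD
      rcases Finset.mem_union.1 hD with hD | hD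
      · exact c1 hD
      · exact (mem_over.1 (u1 hD)).1
    · intro D hD E hE _
      rcases Finset.mem_union.1 (Finset.mem_coe.1 hD) with hD | hD <;>
      rcases Finset.mem_union.1 (Finset.mem_coe.1 hE) with hE | hE
      · exact chain_total c3 hD hE
      · left; exact (hPmax D hD).trans (mem_over.1 (u1 hE)).2.1
      · right; exact (hPmax E hE).trans (mem_over.1 (u1 hD)).2.1
      · exact chain_total u3 hD hE
    · ext D
      rw [Finset.mem_filter, Finset.mem_union]
      constructor
      · rintro ⟨h | h, h'⟩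
        · exact h
        · rcases (mem_over.1 (u1 h)).2.2 with h2 | h2
          · rw [h2]; exact hP
          · exact absurd h' h2
      · intro h
        exact ⟨Or.inl h, hcN D h⟩
  · intro d hd
    rw [Finset.mem_filter] at hd
    obtain ⟨hd, hdc⟩ := hd
    have hPd : P ∈ d := by
      rw [← hdc] at hP
      exact (Finset.mem_filter.1 hP).1
    ext D
    rw [Finset.mem_union, Finset.mem_insert, Finset.mem_filter]
    constructor
    · rintro (h | rfl | h)
      · rw [← hdc] at h
        exact (Finset.mem_filter.1 h).1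
      · exact hPd
      · exact h.1
    · intro h
      by_cases hDN : D ⊓ N = ⊥
      · left; rw [← hdc]; exact Finset.mem_filter.2 ⟨h, hDN⟩
      · right; right; exact ⟨h, hDN⟩
  · intro u hu
    obtain ⟨u1, u2, u3⟩ := mem_chainsOn.1 hu
    ext D
    rw [Finset.mem_insert, Finset.mem_filter, Finset.mem_union]
    constructor
    · rintro (rfl | ⟨h | h, h'⟩)
      · exact u2
      · exact absurd (hcN D h) h'
      · exact h
    · intro h
      rcases (mem_over.1 (u1 h)).2.2 with h2 | h2
      · left; exact h2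
      · right; exact ⟨Or.inr h, h2⟩
  · intro d hd
    rw [Finset.mem_filter] at hd
    obtain ⟨hd, hdc⟩ := hd
    have hPd : P ∈ d := by
      rw [← hdc] at hP
      exact (Finset.mem_filter.1 hP).1
    congr 1
    ext D
    rw [Finset.mem_union, Finset.mem_insert, Finset.mem_filter]
    constructor
    · intro h
      by_cases hDN : D ⊓ N = ⊥
      · left; rw [← hdc]; exact Finset.mem_filter.2 ⟨h, hDN⟩
      · right; right; exact ⟨h, hDN⟩
    · rintro (h | rfl | h)
      · rw [← hdc] at h
        exact (Finset.mem_filter.1 h).1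
      · exact hPd
      · exact h.1

end fibre

section main

variable {ℓ : ℕ} [Fact ℓ.Prime] {Γ : Type} [Group Γ] [Finite Γ]

omit [Finite Γ] in
theorem stab_union_of {c u : Finset (Subgroup Γ)} [DecidableEq (Subgroup Γ)] {E : Subgroup Γ}
    (h : ∀ g, (∀ D ∈ c ∪ u, conjS g D = D) → conjS g E = E) :
    stab (c ∪ insert E u) = stab (c ∪ u) := by
  ext g
  rw [mem_stab, mem_stab]
  constructor
  · intro h1 K hK
    apply h1 K
    rcases Finset.mem_union.1 hK with hK | hK
    · exact Finset.mem_union_left _ hK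
    · exact Finset.mem_union_right _ (Finset.mem_insert_of_mem hK)
  · intro h1 K hK
    rcases Finset.mem_union.1 hK with hK | hK
    · exact h1 K (Finset.mem_union_left _ hK)
    · rcases Finset.mem_insert.1 hK with rfl | hK
      · exact h g h1
      · exact h1 K (Finset.mem_union_right _ hK)

open Classical in
theorem inner (hO : opCore ℓ Γ = ⊥) {N : Subgroup Γ} (hN : N.Normal) (w : Subgroup Γ → ℤ)
    (c : Finset (Subgroup Γ)) (hc : c ∈ chainsOn (psub ℓ Γ) ⊥)
    (hcN : ∀ D ∈ c, D ⊓ N = ⊥) {P : Subgroup Γ} (hP : P ∈ c) (hPmax : ∀ D ∈ c, D ≤ P) :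
    ∑ u ∈ chainsOn (overS ℓ N P) P, (-1) ^ ((c ∪ u).card + 1) * w (stab (c ∪ u)) =
      (-1) ^ (c.card + 1) * tsum ℓ N w c := by
  obtain ⟨c1, c2, c3⟩ := mem_chainsOn.1 hc
  have hPN := hcN P hP
  have hPpsub := mem_psub.1 (c1 hP)
  have hWN : cent N c ≤ N := inf_le_left
  have hPW : P ⊓ cent N c = ⊥ := by
    rw [← le_bot_iff, ← hPN]
    exact inf_le_inf_left _ hWN
  have hcomm : ∀ p ∈ P, ∀ r ∈ cent N c, p * r = r * p := by
    intro p hp r hr
    exact (mem_cent.1 hr).2 P hP p hp
  let κ : Subgroup Γ → Subgroup Γ := fun D => P ⊔ (D ⊓ cent N c)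
  have hκle : ∀ D, P ≤ D → κ D ≤ D := fun D hD => sup_le hD inf_le_left
  have hκP : κ P = P := sup_inf_self
  have hκN : ∀ D ∈ overS ℓ N P, D ≠ P → κ D ⊓ N ≠ ⊥ := by
    intro D hD hDP
    obtain ⟨h1, h2, h3⟩ := mem_over.1 hD
    have h4 := inf_cent_ne_bot hN (mem_psub.1 h1).2 (h3.resolve_left hDP)
      (fun E hE => (hPmax E hE).trans h2)
    intro h
    apply h4
    rw [← le_bot_iff, ← h]
    exact le_inf le_sup_right (inf_le_right.trans hWN)
  have hκs : ∀ D ∈ overS ℓ N P, κ D ∈ overS ℓ N P := by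
    intro D hD
    obtain ⟨h1, h2, h3⟩ := mem_over.1 hD
    rw [mem_over, mem_psub, hO]
    refine ⟨⟨bot_le, (mem_psub.1 h1).2.to_le (hκle D h2)⟩, le_sup_left, ?_⟩
    by_cases hDP : D = P
    · left; rw [hDP, hκP]
    · right; exact hκN D hD hDP
  have hκfix : ∀ g, (∀ D ∈ c, conjS g D = D) → ∀ D, conjS g D = D → conjS g (κ D) = κ D := by
    intro g hg D hD
    show conjS g (P ⊔ (D ⊓ cent N c)) = P ⊔ (D ⊓ cent N c)
    rw [conjS_sup, conjS_inf, hg P hP, hD, conjS_cent hN hg]
  have hinter := inter (Subgroup Γ) (overS ℓ N P) P κ hκs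
    (fun D hD => hκle D (mem_over.1 hD).2.1)
    (fun D _ E _ h => sup_le_sup_left (inf_le_inf_right _ h) _)
    (by
      intro D hD
      apply le_antisymm
      · exact hκle _ le_sup_left
      · exact sup_le_sup_left (le_inf le_sup_right inf_le_right) _)
    hκP
    (by
      intro D hD h
      by_contra hDP
      exact hκN D hD hDP (by rw [h]; exact hPN))
    (fun D hD => (mem_over.1 hD).2.1)
    (fun u => (-1) ^ ((c ∪ u).card + 1) * w (stab (c ∪ u)))
    (by
      intro u hu D hD hDn
      obtain ⟨u1, u2, u3⟩ := mem_chainsOn.1 hu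
      have h1 : κ D ∉ c ∪ u := by
        intro h
        rcases Finset.mem_union.1 h with h | h
        · apply hDn
          have : κ D = P := le_antisymm (hPmax _ h) le_sup_left
          rw [this]; exact u2
        · exact hDn h
      have h2 : c ∪ insert (κ D) u = insert (κ D) (c ∪ u) := by
        rw [Finset.union_insert]
      rw [stab_union_of (E := κ D) (by
        intro g hg
        exact hκfix g (fun E hE => hg E (Finset.mem_union_left _ hE)) D
          (hg D (Finset.mem_union_right _ hD))), h2, Finset.card_insert_of_notMem h1]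
      ring)
  rw [hinter]
  -- the fixed chains
  have hup : ∀ R, R ≤ cent N c → (P ⊔ R) ⊓ cent N c = R := fun R hR =>
    sup_inf_of_comm hR hPW (fun p hp r hr => hcomm p hp r (hR hr))
  unfold tsum
  rw [Finset.mul_sum]
  refine Finset.sum_bij' (fun u _ => u.image (fun D => D ⊓ cent N c))
    (fun v _ => v.image (fun R => P ⊔ R)) ?_ ?_ ?_ ?_ ?_
  · intro u hu
    rw [Finset.mem_filter, mem_chainsOn] at hu
    obtain ⟨⟨u1, u2, u3⟩, u4⟩ := hu
    rw [mem_chainsOn]
    refine ⟨?_, ?_, ?_⟩
    · intro R hR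
      obtain ⟨D, hD, rfl⟩ := Finset.mem_image.1 hR
      rw [mem_psubIn]
      exact ⟨inf_le_right, (mem_psub.1 (mem_over.1 (u1 hD)).1).2.to_le inf_le_left⟩
    · exact Finset.mem_image.2 ⟨P, u2, hPW⟩
    · intro R hR S hS _
      obtain ⟨D, hD, rfl⟩ := Finset.mem_image.1 (Finset.mem_coe.1 hR)
      obtain ⟨E, hE, rfl⟩ := Finset.mem_image.1 (Finset.mem_coe.1 hS)
      rcases chain_total u3 hD hE with h | h
      · left; exact inf_le_inf_right _ h
      · right; exact inf_le_inf_right _ h
  · intro v hv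
    rw [mem_chainsOn] at hv
    obtain ⟨v1, v2, v3⟩ := hv
    rw [Finset.mem_filter, mem_chainsOn]
    refine ⟨⟨?_, ?_, ?_⟩, ?_⟩
    · intro D hD
      obtain ⟨R, hR, rfl⟩ := Finset.mem_image.1 hD
      obtain ⟨h1, h2⟩ := mem_psubIn.1 (v1 hR)
      rw [mem_over, mem_psub, hO]
      have hn : R ≤ Subgroup.normalizer (P : Set Γ) := by
        intro r hr
        rw [mem_normalizer_iff_conjS]
        ext x
        rw [mem_conjS]
        constructor
        · intro hx
          have h3 := hcomm _ hx r (h1 hr)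
          have h4 : r⁻¹ * x * r = x := by
            have h5 : r * (r⁻¹ * x * r) = r * (r⁻¹ * x * r) := rfl
            have h6 : x * r = (r⁻¹ * x * r) * r := by
              rw [h3]; group
            exact (mul_right_cancel h6).symm
          rwa [h4] at hx
        · intro hx
          have h3 := hcomm _ hx r (h1 hr)
          have h4 : r⁻¹ * x * r = x := by
            rw [mul_assoc, h3, inv_mul_cancel_left]
          rwa [h4]
      refine ⟨⟨bot_le, ?_⟩, le_sup_left, ?_⟩
      · exact hPpsub.2.to_sup_of_normal_left' h2 hn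
      · by_cases hRb : R = ⊥
        · left; rw [hRb, sup_bot_eq]
        · right
          intro h
          apply hRb
          rw [← le_bot_iff, ← h]
          exact le_inf le_sup_right (h1.trans hWN)
    · exact Finset.mem_image.2 ⟨⊥, v2, sup_bot_eq _⟩
    · intro R hR S hS _
      obtain ⟨D, hD, rfl⟩ := Finset.mem_image.1 (Finset.mem_coe.1 hR)
      obtain ⟨E, hE, rfl⟩ := Finset.mem_image.1 (Finset.mem_coe.1 hS)
      rcases chain_total v3 hD hE with h | h
      · left; exact sup_le_sup_left h _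
      · right; exact sup_le_sup_left h _
    · intro D hD
      obtain ⟨R, hR, rfl⟩ := Finset.mem_image.1 hD
      show P ⊔ ((P ⊔ R) ⊓ cent N c) = P ⊔ R
      rw [hup R (mem_psubIn.1 (v1 hR)).1]
  · intro u hu
    rw [Finset.mem_filter, mem_chainsOn] at hu
    obtain ⟨⟨u1, u2, u3⟩, u4⟩ := hu
    ext D
    rw [Finset.mem_image]
    constructor
    · rintro ⟨R, hR, rfl⟩
      obtain ⟨E, hE, rfl⟩ := Finset.mem_image.1 hR
      rw [show P ⊔ (E ⊓ cent N c) = E from u4 E hE]
      exact hE
    · intro hD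
      exact ⟨D ⊓ cent N c, Finset.mem_image_of_mem _ hD, u4 D hD⟩
  · intro v hv
    rw [mem_chainsOn] at hv
    obtain ⟨v1, v2, v3⟩ := hv
    ext R
    rw [Finset.mem_image]
    constructor
    · rintro ⟨D, hD, rfl⟩
      obtain ⟨S, hS, rfl⟩ := Finset.mem_image.1 hD
      rw [hup S (mem_psubIn.1 (v1 hS)).1]
      exact hS
    · intro hR
      exact ⟨P ⊔ R, Finset.mem_image_of_mem _ hR, hup R (mem_psubIn.1 (v1 hR)).1⟩
  · intro u hu
    rw [Finset.mem_filter, mem_chainsOn] at hu
    obtain ⟨⟨u1, u2, u3⟩, u4⟩ := hu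
    have hcard : (u.image (fun D => D ⊓ cent N c)).card = u.card := by
      apply Finset.card_image_of_injOn
      intro D hD E hE h
      have h' : D ⊓ cent N c = E ⊓ cent N c := h
      rw [← u4 D hD, ← u4 E hE]
      show P ⊔ (D ⊓ cent N c) = P ⊔ (E ⊓ cent N c)
      rw [h']
    have hinter' : c ∩ u = {P} := by
      ext D
      rw [Finset.mem_inter, Finset.mem_singleton]
      constructor
      · rintro ⟨h1, h2⟩
        exact le_antisymm (hPmax D h1) (mem_over.1 (u1 h2)).2.1
      · rintro rfl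
        exact ⟨hP, u2⟩
    have hcu : (c ∪ u).card + 1 = c.card + u.card := by
      have := Finset.card_union_add_card_inter c u
      rw [hinter', Finset.card_singleton] at this
      exact this
    have hst : stab (c ∪ u) = stab c ⊓ stab (u.image (fun D => D ⊓ cent N c)) := by
      ext g
      rw [mem_stab, Subgroup.mem_inf, mem_stab, mem_stab]
      constructor
      · intro h
        have h1 : ∀ D ∈ c, conjS g D = D := fun D hD => h D (Finset.mem_union_left _ hD)
        refine ⟨h1, ?_⟩
        intro R hR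
        obtain ⟨D, hD, rfl⟩ := Finset.mem_image.1 hR
        rw [conjS_inf, conjS_cent hN h1, h D (Finset.mem_union_right _ hD)]
      · rintro ⟨h1, h2⟩ D hD
        rcases Finset.mem_union.1 hD with hD | hD
        · exact h1 D hD
        · rw [← u4 D hD]
          show conjS g (P ⊔ (D ⊓ cent N c)) = P ⊔ (D ⊓ cent N c)
          rw [conjS_sup, h1 P hP, h2 _ (Finset.mem_image_of_mem _ hD)]
    rw [hcard, hst, hcu, ← mul_assoc, ← pow_add]
    congr 1
    rw [show c.card + 1 + (u.card + 1) = c.card + u.card + 2 by ring, pow_add _ _ 2]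
    norm_num

end main

/-- CHAINRED -/
theorem chainRed : ChainRedStmt := by
  intro ℓ _ Γ _ _ N hN hO w
  classical
  rw [← Finset.sum_fiberwise_of_maps_to
    (t := (chainsOn (psub ℓ Γ) ⊥).filter (fun c => ∀ D ∈ c, D ⊓ N = ⊥))
    (g := fun d => d.filter (fun D => D ⊓ N = ⊥))]
  · apply Finset.sum_congr rfl
    intro c hc
    rw [Finset.mem_filter] at hc
    obtain ⟨hc, hcN⟩ := hc
    obtain ⟨c1, c2, c3⟩ := mem_chainsOn.1 hc
    obtain ⟨P, hP, hPmax⟩ := exists_greatest c3 ⟨_, c2⟩
    have h1 := fibre_sum c hc hcN hP hPmax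
      (fun d => (-1) ^ (d.card + 1) * w (stab d))
    have h2 := inner hO hN w c hc hcN hP hPmax
    rw [← h2, ← h1]
  · intro d hd
    obtain ⟨d1, d2, d3⟩ := mem_chainsOn.1 hd
    rw [Finset.mem_filter, mem_chainsOn]
    refine ⟨⟨(Finset.filter_subset _ _).trans d1, ?_, ?_⟩, ?_⟩
    · exact Finset.mem_filter.2 ⟨d2, bot_inf_eq _⟩
    · exact d3.mono (by intro D hD; exact (Finset.mem_filter.1 (Finset.mem_coe.1 hD)).1)
    · intro D hD
      exact (Finset.mem_filter.1 hD).2

end Pool.Agent.Helper79_WRA.H91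
end
end -- Pool.Agent.Helper91_WRA.ChainRed

section -- Pool.Agent.Helper94_PP.Nch

/-!
# Squad PP, module NCH: only the normal chains matter
-/

open scoped BigOperators

set_option linter.unusedSectionVars false

noncomputable section

namespace Pool.Agent.PP.H94

open Pool.Agent.Helper51_AWC Pool.Agent.Helper79_WRA Pool.Agent.PP

variable {G : Type} [Group G]

/-- normalisers grow in `ℓ`-groups -/
theorem grow {ℓ : ℕ} [Fact ℓ.Prime] [Finite G] {R D : Subgroup G} (hD : IsPGroup ℓ D)
    (h : R < D) : ∃ x ∈ D, x ∉ R ∧ x ∈ Subgroup.normalizer (R : Set G) := by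
  have hn : Group.IsNilpotent D := hD.isNilpotent
  have h1 : R.subgroupOf D < ⊤ := by
    rw [lt_top_iff_ne_top, Ne, Subgroup.subgroupOf_eq_top]
    exact not_le_of_gt h
  obtain ⟨x, hx1, hx2⟩ := SetLike.exists_of_lt
    (Group.normalizerCondition_of_isNilpotent (R.subgroupOf D) h1)
  rw [Subgroup.mem_subgroupOf] at hx2
  refine ⟨x, x.2, hx2, ?_⟩
  rw [← Subgroup.subgroupOf_normalizer_eq h.le, Subgroup.mem_subgroupOf] at hx1
  exact hx1

/-- a member which does not normalise a smaller one -/
def bad (d : Finset (Subgroup G)) (D : Subgroup G) : Prop :=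
  ∃ D' ∈ d, D' < D ∧ ¬ D ≤ Subgroup.normalizer (D' : Set G)

/-- the elements of `B` normalising all smaller members -/
def loc (d : Finset (Subgroup G)) (B : Subgroup G) : Subgroup G :=
  B ⊓ ⨅ (D : Subgroup G) (_ : D ∈ d ∧ D < B), Subgroup.normalizer (D : Set G)

theorem mem_loc {d : Finset (Subgroup G)} {B : Subgroup G} {x : G} :
    x ∈ loc d B ↔ x ∈ B ∧ ∀ D ∈ d, D < B → x ∈ Subgroup.normalizer (D : Set G) := by
  simp only [loc, Subgroup.mem_inf, Subgroup.mem_iInf]
  exact and_congr_right fun _ => ⟨fun h D h1 h2 => h D ⟨h1, h2⟩, fun h D h1 => h D h1.1 h1.2⟩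

/-- the smallest bad member -/
def IsB (d : Finset (Subgroup G)) (B : Subgroup G) : Prop :=
  B ∈ d ∧ bad d B ∧ ∀ D ∈ d, bad d D → B ≤ D

theorem IsB.unique {d : Finset (Subgroup G)} {B B' : Subgroup G} (h : IsB d B) (h' : IsB d B') :
    B = B' := le_antisymm (h.2.2 _ h'.1 h'.2.1) (h'.2.2 _ h.1 h.2.1)

theorem mem_stab' {d : Finset (Subgroup G)} {g : G} :
    g ∈ stab d ↔ ∀ D ∈ d, g ∈ Subgroup.normalizer (D : Set G) := by
  simp only [stab, Subgroup.mem_iInf]

theorem stab_le_loc {d : Finset (Subgroup G)} {B : Subgroup G} (hB : B ∈ d) :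
    stab d ≤ Subgroup.normalizer (loc d B : Set G) := by
  intro g hg
  rw [mem_stab'] at hg
  rw [Subgroup.mem_normalizer_iff]
  intro x
  rw [mem_loc, mem_loc]
  refine and_congr ((Subgroup.mem_normalizer_iff.1 (hg B hB)) x) ?_
  refine forall_congr' fun D => forall_congr' fun hD => forall_congr' fun _ => ?_
  have h1 := hg D hD
  constructor
  · intro h
    exact mul_mem (mul_mem h1 h) (inv_mem h1)
  · intro h
    have h2 := mul_mem (mul_mem (inv_mem h1) h) h1
    have e : g⁻¹ * (g * x * g⁻¹) * g = x := by group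
    rwa [e] at h2

theorem top_mem {d : Finset (Subgroup G)} (hd : IsChain (· ≤ ·) (d : Set (Subgroup G)))
    (hne : d.Nonempty) : top d ∈ d ∧ ∀ D ∈ d, D ≤ top d := by
  obtain ⟨T, hT, hmax⟩ := exists_greatest hd hne
  have e : top d = T := le_antisymm (sSup_le fun D hD => hmax D hD) (le_sSup hT)
  rw [e]
  exact ⟨hT, hmax⟩

theorem exists_isB {d : Finset (Subgroup G)} (hd : IsChain (· ≤ ·) (d : Set (Subgroup G)))
    (hn : ¬ NormalChain d) : ∃ B, IsB d B := by
  classical
  rw [NormalChain] at hn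
  push Not at hn
  obtain ⟨D, hD, hDn⟩ := hn
  obtain ⟨hT, hmax⟩ := top_mem hd ⟨D, hD⟩
  have hbad : bad d (top d) := by
    refine ⟨D, hD, lt_of_le_of_ne (hmax D hD) ?_, hDn⟩
    intro h
    apply hDn
    rw [← h]
    exact Subgroup.le_normalizer
  obtain ⟨B, hB, hmin⟩ := exists_least (d := d.filter (fun D => bad d D))
    (hd.mono (fun y hy => Finset.mem_of_mem_filter y hy)) ⟨top d, Finset.mem_filter.2 ⟨hT, hbad⟩⟩
  rw [Finset.mem_filter] at hB
  exact ⟨B, hB.1, hB.2, fun D hD hb => hmin D (Finset.mem_filter.2 ⟨hD, hb⟩)⟩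

section main

variable {ℓ : ℕ} [Fact ℓ.Prime] [Finite G] {P : Finset (Subgroup G)} {d : Finset (Subgroup G)}
  {B : Subgroup G}

theorem loc_lt (hB : IsB d B) : loc d B < B := by
  refine lt_of_le_of_ne inf_le_left ?_
  intro h
  obtain ⟨D, hD, hlt, hn⟩ := hB.2.1
  apply hn
  intro x hx
  rw [← h, mem_loc] at hx
  exact hx.2 D hD hlt

theorem le_loc (hd : IsChain (· ≤ ·) (d : Set (Subgroup G))) (hB : IsB d B) {D : Subgroup G}
    (hD : D ∈ d) (hlt : D < B) : D ≤ loc d B := by
  intro x hx
  rw [mem_loc]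
  refine ⟨hlt.le hx, fun D' hD' hlt' => ?_⟩
  rcases chain_total hd hD' hD with h | h
  · rcases eq_or_lt_of_le h with h | h
    · rw [h]
      exact Subgroup.le_normalizer hx
    · by_contra hn
      have hb : bad d D := ⟨D', hD', h, fun hle => hn (hle hx)⟩
      exact absurd (hB.2.2 D hD hb) (not_le_of_gt hlt)
  · exact Subgroup.le_normalizer (h hx)

/-- the properties preserved by the toggle -/
theorem toggle_props [DecidableEq (Subgroup G)] (hPp : ∀ D ∈ P, IsPGroup ℓ D)
    (hPl : ∀ c : Finset (Subgroup G), c ⊆ P → IsChain (· ≤ ·) (c : Set (Subgroup G)) →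
      ∀ D ∈ c, loc c D ∈ P) (hd : d ∈ chainsOn P ⊥) (hB : IsB d B) :
    toggle d (loc d B) ∈ chainsOn P ⊥ ∧ IsB (toggle d (loc d B)) B ∧
      loc (toggle d (loc d B)) B = loc d B ∧ top (toggle d (loc d B)) = top d ∧
      stab (toggle d (loc d B)) = stab d := by
  rw [mem_chainsOn] at hd
  obtain ⟨hsub, hbot, hch⟩ := hd
  have hBp := hPp _ (hsub hB.1)
  have hlt := loc_lt hB
  have hRp : loc d B ∈ P := hPl d hsub hch B hB.1
  set R := loc d B with hR
  by_cases hmem : R ∈ d
  · -- removal
    have et : toggle d R = d.erase R := by rw [toggle, if_pos hmem]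
    rw [et]
    have hBe : B ∈ d.erase R := Finset.mem_erase.2 ⟨hlt.ne', hB.1⟩
    have hRle : R ≤ loc (d.erase R) B := by
      intro x hx
      have hx' := hx
      rw [hR, mem_loc] at hx'
      rw [mem_loc]
      exact ⟨hx'.1, fun D hD => hx'.2 D (Finset.mem_of_mem_erase hD)⟩
    have hloc : loc (d.erase R) B = R := by
      by_contra hne
      have hlt' : R < loc (d.erase R) B := lt_of_le_of_ne hRle (fun h => hne h.symm)
      have hp : IsPGroup ℓ (loc (d.erase R) B) := hBp.to_le inf_le_left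
      obtain ⟨x, hx1, hx2, hx3⟩ := grow hp hlt'
      apply hx2
      rw [mem_loc] at hx1
      rw [hR, mem_loc]
      refine ⟨hx1.1, fun D hD hDB => ?_⟩
      by_cases hDR : D = R
      · rw [hDR]
        exact hx3
      · exact hx1.2 D (Finset.mem_erase.2 ⟨hDR, hD⟩) hDB
    have hIsB : IsB (d.erase R) B := by
      refine ⟨hBe, ?_, ?_⟩
      · by_contra hnb
        rw [bad] at hnb
        push Not at hnb
        have h1 : loc (d.erase R) B = B := by
          refine le_antisymm inf_le_left fun x hx => ?_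
          rw [mem_loc]
          exact ⟨hx, fun D hD hDB => hnb D hD hDB hx⟩
        rw [hloc] at h1
        exact hlt.ne h1
      · rintro D hD ⟨D', hD', h1, h2⟩
        exact hB.2.2 D (Finset.mem_of_mem_erase hD) ⟨D', Finset.mem_of_mem_erase hD', h1, h2⟩
    have hRbot : (⊥ : Subgroup G) ≠ R := by
      intro h
      obtain ⟨D, hD, h1, h2⟩ := hB.2.1
      apply h2
      have h3 := le_loc hch hB hD h1
      rw [← hR, ← h, le_bot_iff] at h3
      rw [h3]
      intro x _
      rw [Subgroup.mem_normalizer_iff]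
      intro y
      rw [Subgroup.mem_bot, Subgroup.mem_bot, mul_inv_eq_one, mul_eq_left]
    have htop : top (d.erase R) = top d := by
      refine le_antisymm (sSup_le_sSup fun D hD => Finset.mem_of_mem_erase hD) ?_
      refine sSup_le fun D hD => ?_
      by_cases hDR : D = R
      · rw [hDR]
        exact hlt.le.trans (le_sSup hBe)
      · exact le_sSup (Finset.mem_erase.2 ⟨hDR, hD⟩)
    have hst : stab (d.erase R) = stab d := by
      apply le_antisymm
      · intro g hg
        rw [mem_stab']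
        intro D hD
        by_cases hDR : D = R
        · rw [hDR]
          have := stab_le_loc hBe hg
          rwa [hloc] at this
        · exact (mem_stab'.1 hg) D (Finset.mem_erase.2 ⟨hDR, hD⟩)
      · intro g hg
        rw [mem_stab'] at hg ⊢
        exact fun D hD => hg D (Finset.mem_of_mem_erase hD)
    refine ⟨?_, hIsB, hloc, htop, hst⟩
    rw [mem_chainsOn]
    exact ⟨(Finset.erase_subset _ _).trans hsub, Finset.mem_erase.2 ⟨hRbot, hbot⟩,
      hch.mono (fun y hy => Finset.mem_of_mem_erase hy)⟩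
  · -- insertion
    have et : toggle d R = insert R d := by rw [toggle, if_neg hmem]
    rw [et]
    have hBi : B ∈ insert R d := Finset.mem_insert_of_mem hB.1
    have hRn : ∀ D ∈ d, D < B → R ≤ Subgroup.normalizer (D : Set G) := by
      intro D hD hDB x hx
      rw [hR, mem_loc] at hx
      exact hx.2 D hD hDB
    have hloc : loc (insert R d) B = R := by
      ext x
      rw [mem_loc]
      constructor
      · rintro ⟨h1, h2⟩
        rw [hR, mem_loc]
        exact ⟨h1, fun D hD => h2 D (Finset.mem_insert_of_mem hD)⟩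
      · intro hx
        refine ⟨hlt.le hx, fun D hD hDB => ?_⟩
        rcases Finset.mem_insert.1 hD with h | h
        · rw [h]
          exact Subgroup.le_normalizer hx
        · exact hRn D h hDB hx
    have hcmp : ∀ D ∈ d, D ≤ R ∨ R ≤ D := by
      intro D hD
      rcases chain_total hch hD hB.1 with h | h
      · rcases eq_or_lt_of_le h with h | h
        · rw [h]
          exact Or.inr hlt.le
        · exact Or.inl (le_loc hch hB hD h)
      · exact Or.inr (hlt.le.trans h)
    have hIsB : IsB (insert R d) B := by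
      refine ⟨hBi, ?_, ?_⟩
      · obtain ⟨D, hD, h1, h2⟩ := hB.2.1
        exact ⟨D, Finset.mem_insert_of_mem hD, h1, h2⟩
      · rintro D hD ⟨D', hD', h1, h2⟩
        rcases Finset.mem_insert.1 hD with h | h
        · subst h
          rcases Finset.mem_insert.1 hD' with h' | h'
          · exact absurd h' h1.ne
          · exact absurd (hRn D' h' (h1.trans hlt)) h2
        · by_contra hBD
          have hDB : D < B := by
            rcases chain_total hch h hB.1 with h3 | h3
            · exact lt_of_le_of_ne h3 (fun e => hBD e.ge)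
            · exact absurd h3 hBD
          rcases Finset.mem_insert.1 hD' with h' | h'
          · rw [h'] at h1
            exact absurd (le_loc hch hB h hDB) (not_le_of_gt h1)
          · exact hBD (hB.2.2 D h ⟨D', h', h1, h2⟩)
    have htop : top (insert R d) = top d := by
      refine le_antisymm (sSup_le fun D hD => ?_) (sSup_le_sSup fun D hD =>
        Finset.mem_insert_of_mem hD)
      rcases Finset.mem_insert.1 hD with h | h
      · rw [h]
        exact hlt.le.trans (le_sSup hB.1)
      · exact le_sSup h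
    have hst : stab (insert R d) = stab d := by
      apply le_antisymm
      · intro g hg
        rw [mem_stab'] at hg ⊢
        exact fun D hD => hg D (Finset.mem_insert_of_mem hD)
      · intro g hg
        rw [mem_stab']
        intro D hD
        rcases Finset.mem_insert.1 hD with h | h
        · rw [h]
          exact stab_le_loc hB.1 hg
        · exact (mem_stab'.1 hg) D h
    refine ⟨?_, hIsB, hloc, htop, hst⟩
    rw [mem_chainsOn]
    refine ⟨?_, Finset.mem_insert_of_mem hbot, ?_⟩
    · intro D hD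
      rcases Finset.mem_insert.1 hD with h | h
      · rw [h]
        exact hRp
      · exact hsub h
    · rw [Finset.coe_insert]
      refine hch.insert ?_
      intro D hD _
      rcases hcmp D hD with h | h
      · exact Or.inr h
      · exact Or.inl h

end main

open Classical in
/-- NCF: only the normal chains matter, for a family of `ℓ`-subgroups. -/
theorem ncf (ℓ : ℕ) [Fact ℓ.Prime] [Finite G] (P : Finset (Subgroup G))
    (hPp : ∀ D ∈ P, IsPGroup ℓ D)
    (hPl : ∀ c : Finset (Subgroup G), c ⊆ P → IsChain (· ≤ ·) (c : Set (Subgroup G)) →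
      ∀ D ∈ c, loc c D ∈ P) (w : Subgroup G → Subgroup G → ℤ) :
    ∑ d ∈ chainsOn P ⊥, (-1) ^ (d.card + 1) * w (stab d) (top d) =
      ∑ d ∈ (chainsOn P ⊥).filter NormalChain, (-1) ^ (d.card + 1) * w (stab d) (top d) := by
  set S := (chainsOn P ⊥).filter (fun d => ¬ NormalChain d) with hS
  have key : ∑ d ∈ S, (-1) ^ (d.card + 1) * w (stab d) (top d) = 0 := by
    have hex : ∀ d : Finset (Subgroup G), ∃ B, d ∈ S → IsB d B := by
      intro d
      by_cases hd : d ∈ S
      · rw [hS, Finset.mem_filter, mem_chainsOn] at hd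
        obtain ⟨B, hB⟩ := exists_isB hd.1.2.2 hd.2
        exact ⟨B, fun _ => hB⟩
      · exact ⟨⊥, fun h => absurd h hd⟩
    choose B hB using hex
    have hmem : ∀ d ∈ S, toggle d (loc d (B d)) ∈ S := by
      intro d hd
      have h1 := hB d hd
      rw [hS, Finset.mem_filter] at hd ⊢
      obtain ⟨a1, a2, a3, a4, a5⟩ := toggle_props hPp hPl hd.1 h1
      refine ⟨a1, fun hn => ?_⟩
      obtain ⟨D, hD, b1, b2⟩ := a2.2.1
      have := hn D hD
      exact b2 (((top_mem (mem_chainsOn.1 a1).2.2 ⟨D, hD⟩).2 _ a2.1).trans this)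
    apply sum_toggle S (fun d => loc d (B d))
    · exact hmem
    · intro d hd
      have h1 := hB d hd
      obtain ⟨a1, a2, a3, a4, a5⟩ := toggle_props hPp hPl (Finset.mem_filter.1 hd).1 h1
      have h2 := hB _ (hmem d hd)
      have h3 : B (toggle d (loc d (B d))) = B d := h2.unique a2
      change loc (toggle d (loc d (B d))) (B (toggle d (loc d (B d)))) = _
      rw [h3, a3]
    · intro d hd
      obtain ⟨a1, a2, a3, a4, a5⟩ := toggle_props hPp hPl (Finset.mem_filter.1 hd).1 (hB d hd)
      rw [a4, a5]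
      have hc : (-1 : ℤ) ^ ((toggle d (loc d (B d))).card + 1) = - (-1) ^ (d.card + 1) := by
        by_cases hm : loc d (B d) ∈ d
        · have et : toggle d (loc d (B d)) = d.erase (loc d (B d)) := by rw [toggle, if_pos hm]
          rw [et, Finset.card_erase_of_mem hm]
          have : 0 < d.card := Finset.card_pos.2 ⟨_, hm⟩
          obtain ⟨k, hk⟩ : ∃ k, d.card = k + 1 := ⟨d.card - 1, by omega⟩
          rw [hk, Nat.add_sub_cancel]
          ring
        · have et : toggle d (loc d (B d)) = insert (loc d (B d)) d := by rw [toggle, if_neg hm]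
          rw [et, Finset.card_insert_of_notMem hm]
          ring
      rw [hc]
      ring
  rw [← Finset.sum_filter_add_sum_filter_not (chainsOn P ⊥) NormalChain, key, add_zero]

/-- NCH -/
theorem nch : NchStmt := by
  classical
  intro ℓ _ G _ _ Q w
  refine ncf ℓ (psubIn ℓ Q) (fun D hD => (mem_psubIn.1 hD).2) ?_ w
  intro c hc _ D hD
  have h := mem_psubIn.1 (hc hD)
  exact mem_psubIn.2 ⟨inf_le_left.trans h.1, h.2.to_le inf_le_left⟩

end Pool.Agent.PP.H94
end
end -- Pool.Agent.Helper94_PP.Nch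

section -- Pool.Agent.Helper96_PP.Rch

/-!
# Squad PP, modules RCH and RCN: relative chain reduction

The chains of `ℓ`-subgroups of `M` are reduced to the chains meeting the normal subgroup `N`
trivially.
-/

open scoped BigOperators

noncomputable section

namespace Pool.Agent.PP.H96

open Pool.Agent.Helper51_AWC Pool.Agent.Helper79_WRA Pool.Agent.Helper79_WRA.H91 Pool.Agent.PP

section fibre

variable {ℓ : ℕ} [Fact ℓ.Prime] {Γ : Type} [Group Γ] [Finite Γ]

open Classical in
/-- the subgroups over `P` meeting `N` nontrivially, and `P` -/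
def overR (ℓ : ℕ) {Γ : Type} [Group Γ] [Finite Γ] (M N P : Subgroup Γ) : Finset (Subgroup Γ) :=
  (psubIn ℓ M).filter (fun D => P ≤ D ∧ (D = P ∨ D ⊓ N ≠ ⊥))

omit [Fact ℓ.Prime] in
theorem mem_overR {M N P D : Subgroup Γ} :
    D ∈ overR ℓ M N P ↔ D ∈ psubIn ℓ M ∧ P ≤ D ∧ (D = P ∨ D ⊓ N ≠ ⊥) := by
  simp [overR]

omit [Fact ℓ.Prime] in
open Classical in
/-- the chains with prescribed members meeting `N` trivially -/
theorem fibre_sum {M N : Subgroup Γ} (c : Finset (Subgroup Γ)) (hc : c ∈ chainsOn (psubIn ℓ M) ⊥)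
    (hcN : ∀ D ∈ c, D ⊓ N = ⊥) {P : Subgroup Γ} (hP : P ∈ c) (hPmax : ∀ D ∈ c, D ≤ P)
    (f : Finset (Subgroup Γ) → ℤ) :
    ∑ d ∈ (chainsOn (psubIn ℓ M) ⊥).filter (fun d => d.filter (fun D => D ⊓ N = ⊥) = c), f d =
      ∑ u ∈ chainsOn (overR ℓ M N P) P, f (c ∪ u) := by
  obtain ⟨c1, c2, c3⟩ := mem_chainsOn.1 hc
  have hPN := hcN P hP
  refine Finset.sum_bij' (fun d _ => insert P (d.filter (fun D => ¬ D ⊓ N = ⊥)))
    (fun u _ => c ∪ u) ?_ ?_ ?_ ?_ ?_
  · intro d hd
    rw [Finset.mem_filter] at hd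
    obtain ⟨hd, hdc⟩ := hd
    obtain ⟨d1, d2, d3⟩ := mem_chainsOn.1 hd
    have hPd : P ∈ d := by
      rw [← hdc] at hP
      exact (Finset.mem_filter.1 hP).1
    have hle : ∀ D ∈ d, ¬ D ⊓ N = ⊥ → P ≤ D := by
      intro D hD hDN
      rcases chain_total d3 hPd hD with h | h
      · exact h
      · exfalso; apply hDN
        rw [← le_bot_iff, ← hPN]
        exact inf_le_inf_right _ h
    rw [mem_chainsOn]
    refine ⟨?_, Finset.mem_insert_self _ _, ?_⟩
    · intro D hD
      rw [mem_overR]
      rcases Finset.mem_insert.1 hD with rfl | hD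
      · exact ⟨c1 hP, le_refl _, Or.inl rfl⟩
      · rw [Finset.mem_filter] at hD
        exact ⟨d1 hD.1, hle D hD.1 hD.2, Or.inr hD.2⟩
    · refine IsChain.mono ?_ d3
      intro D hD
      rcases Finset.mem_insert.1 (Finset.mem_coe.1 hD) with rfl | hD
      · exact hPd
      · exact (Finset.mem_filter.1 hD).1
  · intro u hu
    obtain ⟨u1, u2, u3⟩ := mem_chainsOn.1 hu
    rw [Finset.mem_filter, mem_chainsOn]
    refine ⟨⟨?_, Finset.mem_union_left _ c2, ?_⟩, ?_⟩
    · intro D hD
      rcases Finset.mem_union.1 hD with hD | hD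
      · exact c1 hD
      · exact (mem_overR.1 (u1 hD)).1
    · intro D hD E hE _
      rcases Finset.mem_union.1 (Finset.mem_coe.1 hD) with hD | hD <;>
      rcases Finset.mem_union.1 (Finset.mem_coe.1 hE) with hE | hE
      · exact chain_total c3 hD hE
      · left; exact (hPmax D hD).trans (mem_overR.1 (u1 hE)).2.1
      · right; exact (hPmax E hE).trans (mem_overR.1 (u1 hD)).2.1
      · exact chain_total u3 hD hE
    · ext D
      rw [Finset.mem_filter, Finset.mem_union]
      constructor
      · rintro ⟨h | h, h'⟩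
        · exact h
        · rcases (mem_overR.1 (u1 h)).2.2 with h2 | h2
          · rw [h2]; exact hP
          · exact absurd h' h2
      · intro h
        exact ⟨Or.inl h, hcN D h⟩
  · intro d hd
    rw [Finset.mem_filter] at hd
    obtain ⟨hd, hdc⟩ := hd
    have hPd : P ∈ d := by
      rw [← hdc] at hP
      exact (Finset.mem_filter.1 hP).1
    ext D
    rw [Finset.mem_union, Finset.mem_insert, Finset.mem_filter]
    constructor
    · rintro (h | rfl | h)
      · rw [← hdc] at h
        exact (Finset.mem_filter.1 h).1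
      · exact hPd
      · exact h.1
    · intro h
      by_cases hDN : D ⊓ N = ⊥
      · left; rw [← hdc]; exact Finset.mem_filter.2 ⟨h, hDN⟩
      · right; right; exact ⟨h, hDN⟩
  · intro u hu
    obtain ⟨u1, u2, u3⟩ := mem_chainsOn.1 hu
    ext D
    rw [Finset.mem_insert, Finset.mem_filter, Finset.mem_union]
    constructor
    · rintro (rfl | ⟨h | h, h'⟩)
      · exact u2
      · exact absurd (hcN D h) h'
      · exact h
    · intro h
      rcases (mem_overR.1 (u1 h)).2.2 with h2 | h2
      · left; exact h2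
      · right; exact ⟨Or.inr h, h2⟩
  · intro d hd
    rw [Finset.mem_filter] at hd
    obtain ⟨hd, hdc⟩ := hd
    have hPd : P ∈ d := by
      rw [← hdc] at hP
      exact (Finset.mem_filter.1 hP).1
    congr 1
    ext D
    rw [Finset.mem_union, Finset.mem_insert, Finset.mem_filter]
    constructor
    · intro h
      by_cases hDN : D ⊓ N = ⊥
      · left; rw [← hdc]; exact Finset.mem_filter.2 ⟨h, hDN⟩
      · right; right; exact ⟨h, hDN⟩
    · rintro (h | rfl | h)
      · rw [← hdc] at h
        exact (Finset.mem_filter.1 h).1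
      · exact hPd
      · exact h.1

end fibre

section main

variable {ℓ : ℕ} [Fact ℓ.Prime] {Γ : Type} [Group Γ] [Finite Γ]

omit [Finite Γ] in
theorem stab_union_of {c u : Finset (Subgroup Γ)} [DecidableEq (Subgroup Γ)] {E : Subgroup Γ}
    (h : ∀ g, (∀ D ∈ c ∪ u, conjS g D = D) → conjS g E = E) :
    stab (c ∪ insert E u) = stab (c ∪ u) := by
  ext g
  rw [mem_stab, mem_stab]
  constructor
  · intro h1 K hK
    apply h1 K
    rcases Finset.mem_union.1 hK with hK | hK
    · exact Finset.mem_union_left _ hK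
    · exact Finset.mem_union_right _ (Finset.mem_insert_of_mem hK)
  · intro h1 K hK
    rcases Finset.mem_union.1 hK with hK | hK
    · exact h1 K (Finset.mem_union_left _ hK)
    · rcases Finset.mem_insert.1 hK with rfl | hK
      · exact h g h1
      · exact h1 K (Finset.mem_union_right _ hK)

open Classical in
theorem inner {M N : Subgroup Γ} (hN : N.Normal) (hNM : N ≤ M) (w : Subgroup Γ → ℤ)
    (c : Finset (Subgroup Γ)) (hc : c ∈ chainsOn (psubIn ℓ M) ⊥)
    (hcN : ∀ D ∈ c, D ⊓ N = ⊥) {P : Subgroup Γ} (hP : P ∈ c) (hPmax : ∀ D ∈ c, D ≤ P) :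
    ∑ u ∈ chainsOn (overR ℓ M N P) P, (-1) ^ ((c ∪ u).card + 1) * w (stab (c ∪ u)) =
      (-1) ^ (c.card + 1) * tsum ℓ N w c := by
  obtain ⟨c1, c2, c3⟩ := mem_chainsOn.1 hc
  have hPN := hcN P hP
  have hPpsub := mem_psubIn.1 (c1 hP)
  have hWN : cent N c ≤ N := inf_le_left
  have hPW : P ⊓ cent N c = ⊥ := by
    rw [← le_bot_iff, ← hPN]
    exact inf_le_inf_left _ hWN
  have hcomm : ∀ p ∈ P, ∀ r ∈ cent N c, p * r = r * p := by
    intro p hp r hr
    exact (mem_cent.1 hr).2 P hP p hp
  let κ : Subgroup Γ → Subgroup Γ := fun D => P ⊔ (D ⊓ cent N c)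
  have hκle : ∀ D, P ≤ D → κ D ≤ D := fun D hD => sup_le hD inf_le_left
  have hκP : κ P = P := sup_inf_self
  have hκN : ∀ D ∈ overR ℓ M N P, D ≠ P → κ D ⊓ N ≠ ⊥ := by
    intro D hD hDP
    obtain ⟨h1, h2, h3⟩ := mem_overR.1 hD
    have h4 := inf_cent_ne_bot hN (mem_psubIn.1 h1).2 (h3.resolve_left hDP)
      (fun E hE => (hPmax E hE).trans h2)
    intro h
    apply h4
    rw [← le_bot_iff, ← h]
    exact le_inf le_sup_right (inf_le_right.trans hWN)
  have hκs : ∀ D ∈ overR ℓ M N P, κ D ∈ overR ℓ M N P := by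
    intro D hD
    obtain ⟨h1, h2, h3⟩ := mem_overR.1 hD
    rw [mem_overR, mem_psubIn]
    refine ⟨⟨(hκle D h2).trans (mem_psubIn.1 h1).1, (mem_psubIn.1 h1).2.to_le (hκle D h2)⟩,
      le_sup_left, ?_⟩
    by_cases hDP : D = P
    · left; rw [hDP, hκP]
    · right; exact hκN D hD hDP
  have hκfix : ∀ g, (∀ D ∈ c, conjS g D = D) → ∀ D, conjS g D = D → conjS g (κ D) = κ D := by
    intro g hg D hD
    show conjS g (P ⊔ (D ⊓ cent N c)) = P ⊔ (D ⊓ cent N c)
    rw [conjS_sup, conjS_inf, hg P hP, hD, conjS_cent hN hg]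
  have hinter := inter (Subgroup Γ) (overR ℓ M N P) P κ hκs
    (fun D hD => hκle D (mem_overR.1 hD).2.1)
    (fun D _ E _ h => sup_le_sup_left (inf_le_inf_right _ h) _)
    (by
      intro D hD
      apply le_antisymm
      · exact hκle _ le_sup_left
      · exact sup_le_sup_left (le_inf le_sup_right inf_le_right) _)
    hκP
    (by
      intro D hD h
      by_contra hDP
      exact hκN D hD hDP (by rw [h]; exact hPN))
    (fun D hD => (mem_overR.1 hD).2.1)
    (fun u => (-1) ^ ((c ∪ u).card + 1) * w (stab (c ∪ u)))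
    (by
      intro u hu D hD hDn
      obtain ⟨u1, u2, u3⟩ := mem_chainsOn.1 hu
      have h1 : κ D ∉ c ∪ u := by
        intro h
        rcases Finset.mem_union.1 h with h | h
        · apply hDn
          have : κ D = P := le_antisymm (hPmax _ h) le_sup_left
          rw [this]; exact u2
        · exact hDn h
      have h2 : c ∪ insert (κ D) u = insert (κ D) (c ∪ u) := by
        rw [Finset.union_insert]
      rw [stab_union_of (E := κ D) (by
        intro g hg
        exact hκfix g (fun E hE => hg E (Finset.mem_union_left _ hE)) D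
          (hg D (Finset.mem_union_right _ hD))), h2, Finset.card_insert_of_notMem h1]
      ring)
  rw [hinter]
  -- the fixed chains
  have hup : ∀ R, R ≤ cent N c → (P ⊔ R) ⊓ cent N c = R := fun R hR =>
    sup_inf_of_comm hR hPW (fun p hp r hr => hcomm p hp r (hR hr))
  unfold Helper79_WRA.tsum
  rw [Finset.mul_sum]
  refine Finset.sum_bij' (fun u _ => u.image (fun D => D ⊓ cent N c))
    (fun v _ => v.image (fun R => P ⊔ R)) ?_ ?_ ?_ ?_ ?_
  · intro u hu
    rw [Finset.mem_filter, mem_chainsOn] at hu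
    obtain ⟨⟨u1, u2, u3⟩, u4⟩ := hu
    rw [mem_chainsOn]
    refine ⟨?_, ?_, ?_⟩
    · intro R hR
      obtain ⟨D, hD, rfl⟩ := Finset.mem_image.1 hR
      rw [mem_psubIn]
      exact ⟨inf_le_right, (mem_psubIn.1 (mem_overR.1 (u1 hD)).1).2.to_le inf_le_left⟩
    · exact Finset.mem_image.2 ⟨P, u2, hPW⟩
    · intro R hR S hS _
      obtain ⟨D, hD, rfl⟩ := Finset.mem_image.1 (Finset.mem_coe.1 hR)
      obtain ⟨E, hE, rfl⟩ := Finset.mem_image.1 (Finset.mem_coe.1 hS)
      rcases chain_total u3 hD hE with h | h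
      · left; exact inf_le_inf_right _ h
      · right; exact inf_le_inf_right _ h
  · intro v hv
    rw [mem_chainsOn] at hv
    obtain ⟨v1, v2, v3⟩ := hv
    rw [Finset.mem_filter, mem_chainsOn]
    refine ⟨⟨?_, ?_, ?_⟩, ?_⟩
    · intro D hD
      obtain ⟨R, hR, rfl⟩ := Finset.mem_image.1 hD
      obtain ⟨h1, h2⟩ := mem_psubIn.1 (v1 hR)
      rw [mem_overR, mem_psubIn]
      have hn : R ≤ Subgroup.normalizer (P : Set Γ) := by
        intro r hr
        rw [mem_normalizer_iff_conjS]
        ext x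
        rw [mem_conjS]
        constructor
        · intro hx
          have h3 := hcomm _ hx r (h1 hr)
          have h4 : r⁻¹ * x * r = x := by
            have h5 : r * (r⁻¹ * x * r) = r * (r⁻¹ * x * r) := rfl
            have h6 : x * r = (r⁻¹ * x * r) * r := by
              rw [h3]; group
            exact (mul_right_cancel h6).symm
          rwa [h4] at hx
        · intro hx
          have h3 := hcomm _ hx r (h1 hr)
          have h4 : r⁻¹ * x * r = x := by
            rw [mul_assoc, h3, inv_mul_cancel_left]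
          rwa [h4]
      refine ⟨⟨sup_le hPpsub.1 ((h1.trans hWN).trans hNM), ?_⟩, le_sup_left, ?_⟩
      · exact hPpsub.2.to_sup_of_normal_left' h2 hn
      · by_cases hRb : R = ⊥
        · left; rw [hRb, sup_bot_eq]
        · right
          intro h
          apply hRb
          rw [← le_bot_iff, ← h]
          exact le_inf le_sup_right (h1.trans hWN)
    · exact Finset.mem_image.2 ⟨⊥, v2, sup_bot_eq _⟩
    · intro R hR S hS _
      obtain ⟨D, hD, rfl⟩ := Finset.mem_image.1 (Finset.mem_coe.1 hR)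
      obtain ⟨E, hE, rfl⟩ := Finset.mem_image.1 (Finset.mem_coe.1 hS)
      rcases chain_total v3 hD hE with h | h
      · left; exact sup_le_sup_left h _
      · right; exact sup_le_sup_left h _
    · intro D hD
      obtain ⟨R, hR, rfl⟩ := Finset.mem_image.1 hD
      show P ⊔ ((P ⊔ R) ⊓ cent N c) = P ⊔ R
      rw [hup R (mem_psubIn.1 (v1 hR)).1]
  · intro u hu
    rw [Finset.mem_filter, mem_chainsOn] at hu
    obtain ⟨⟨u1, u2, u3⟩, u4⟩ := hu
    ext D
    rw [Finset.mem_image]
    constructor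
    · rintro ⟨R, hR, rfl⟩
      obtain ⟨E, hE, rfl⟩ := Finset.mem_image.1 hR
      rw [show P ⊔ (E ⊓ cent N c) = E from u4 E hE]
      exact hE
    · intro hD
      exact ⟨D ⊓ cent N c, Finset.mem_image_of_mem _ hD, u4 D hD⟩
  · intro v hv
    rw [mem_chainsOn] at hv
    obtain ⟨v1, v2, v3⟩ := hv
    ext R
    rw [Finset.mem_image]
    constructor
    · rintro ⟨D, hD, rfl⟩
      obtain ⟨S, hS, rfl⟩ := Finset.mem_image.1 hD
      rw [hup S (mem_psubIn.1 (v1 hS)).1]
      exact hS
    · intro hR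
      exact ⟨P ⊔ R, Finset.mem_image_of_mem _ hR, hup R (mem_psubIn.1 (v1 hR)).1⟩
  · intro u hu
    rw [Finset.mem_filter, mem_chainsOn] at hu
    obtain ⟨⟨u1, u2, u3⟩, u4⟩ := hu
    have hcard : (u.image (fun D => D ⊓ cent N c)).card = u.card := by
      apply Finset.card_image_of_injOn
      intro D hD E hE h
      have h' : D ⊓ cent N c = E ⊓ cent N c := h
      rw [← u4 D hD, ← u4 E hE]
      show P ⊔ (D ⊓ cent N c) = P ⊔ (E ⊓ cent N c)
      rw [h']
    have hinter' : c ∩ u = {P} := by
      ext D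
      rw [Finset.mem_inter, Finset.mem_singleton]
      constructor
      · rintro ⟨h1, h2⟩
        exact le_antisymm (hPmax D h1) (mem_overR.1 (u1 h2)).2.1
      · rintro rfl
        exact ⟨hP, u2⟩
    have hcu : (c ∪ u).card + 1 = c.card + u.card := by
      have := Finset.card_union_add_card_inter c u
      rw [hinter', Finset.card_singleton] at this
      exact this
    have hst : stab (c ∪ u) = stab c ⊓ stab (u.image (fun D => D ⊓ cent N c)) := by
      ext g
      rw [mem_stab, Subgroup.mem_inf, mem_stab, mem_stab]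
      constructor
      · intro h
        have h1 : ∀ D ∈ c, conjS g D = D := fun D hD => h D (Finset.mem_union_left _ hD)
        refine ⟨h1, ?_⟩
        intro R hR
        obtain ⟨D, hD, rfl⟩ := Finset.mem_image.1 hR
        rw [conjS_inf, conjS_cent hN h1, h D (Finset.mem_union_right _ hD)]
      · rintro ⟨h1, h2⟩ D hD
        rcases Finset.mem_union.1 hD with hD | hD
        · exact h1 D hD
        · rw [← u4 D hD]
          show conjS g (P ⊔ (D ⊓ cent N c)) = P ⊔ (D ⊓ cent N c)
          rw [conjS_sup, h1 P hP, h2 _ (Finset.mem_image_of_mem _ hD)]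
    rw [hcard, hst, hcu, ← mul_assoc, ← pow_add]
    congr 1
    rw [show c.card + 1 + (u.card + 1) = c.card + u.card + 2 by ring, pow_add _ _ 2]
    norm_num

end main

open Classical in
/-- RCH -/
theorem rch : RchStmt := by
  intro ℓ _ Γ _ _ M N hM hN hNM w
  rw [← Finset.sum_fiberwise_of_maps_to
    (t := (chainsOn (psubIn ℓ M) ⊥).filter (fun c => ∀ D ∈ c, D ⊓ N = ⊥))
    (g := fun d => d.filter (fun D => D ⊓ N = ⊥))]
  · apply Finset.sum_congr rfl
    intro c hc
    rw [Finset.mem_filter] at hc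
    obtain ⟨hc, hcN⟩ := hc
    obtain ⟨c1, c2, c3⟩ := mem_chainsOn.1 hc
    obtain ⟨P, hP, hPmax⟩ := exists_greatest c3 ⟨_, c2⟩
    have h1 := fibre_sum c hc hcN hP hPmax
      (fun d => (-1) ^ (d.card + 1) * w (stab d))
    have h2 := inner hN hNM w c hc hcN hP hPmax
    rw [← h2, ← h1]
  · intro d hd
    obtain ⟨d1, d2, d3⟩ := mem_chainsOn.1 hd
    rw [Finset.mem_filter, mem_chainsOn]
    refine ⟨⟨(Finset.filter_subset _ _).trans d1, ?_, ?_⟩, ?_⟩
    · exact Finset.mem_filter.2 ⟨d2, bot_inf_eq _⟩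
    · exact d3.mono (by intro D hD; exact (Finset.mem_filter.1 (Finset.mem_coe.1 hD)).1)
    · intro D hD
      exact (Finset.mem_filter.1 hD).2

/-- the centraliser of a chain is the centraliser of its largest member -/
theorem cent_eq {Γ : Type} [Group Γ] (N : Subgroup Γ) {c : Finset (Subgroup Γ)}
    (hc : IsChain (· ≤ ·) (c : Set (Subgroup Γ))) (hne : c.Nonempty) :
    cent N c = N ⊓ Subgroup.centralizer (top c : Set Γ) := by
  obtain ⟨h1, h2⟩ := H94.top_mem hc hne
  apply le_antisymm
  · apply inf_le_inf_left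
    exact iInf₂_le (top c) h1
  · apply inf_le_inf_left
    refine le_iInf₂ fun D hD => ?_
    exact Subgroup.centralizer_le (h2 D hD)

open Classical in
/-- RCN -/
theorem rcn : RcnStmt := by
  intro ℓ _ Γ _ _ M N hM hN hNM w
  rw [rch ℓ Γ M N hM hN hNM w]
  let w' : Subgroup Γ → Subgroup Γ → ℤ := fun X T => if T ⊓ N = ⊥ then
    ∑ v ∈ chainsOn (psubIn ℓ (N ⊓ Subgroup.centralizer (T : Set Γ))) ⊥,
      (-1) ^ (v.card + 1) * w (X ⊓ stab v) else 0
  have key : ∀ c ∈ chainsOn (psubIn ℓ M) ⊥, ((∀ D ∈ c, D ⊓ N = ⊥) ↔ top c ⊓ N = ⊥) ∧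
      tsum ℓ N w c = ∑ v ∈ chainsOn (psubIn ℓ (N ⊓ Subgroup.centralizer (top c : Set Γ))) ⊥,
        (-1) ^ (v.card + 1) * w (stab c ⊓ stab v) := by
    intro c hc
    obtain ⟨c1, c2, c3⟩ := mem_chainsOn.1 hc
    obtain ⟨h1, h2⟩ := H94.top_mem c3 ⟨_, c2⟩
    refine ⟨⟨fun h => h _ h1, fun h D hD => ?_⟩, ?_⟩
    · rw [← le_bot_iff, ← h]
      exact inf_le_inf_right _ (h2 D hD)
    · unfold Helper79_WRA.tsum
      rw [cent_eq N c3 ⟨_, c2⟩]
  have h := H94.nch ℓ Γ M w'
  rw [Finset.sum_filter, Finset.sum_filter]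
  rw [Finset.sum_filter] at h
  have e1 : ∀ c ∈ chainsOn (psubIn ℓ M) ⊥,
      (if ∀ D ∈ c, D ⊓ N = ⊥ then (-1) ^ (c.card + 1) * tsum ℓ N w c else 0) =
        (-1) ^ (c.card + 1) * w' (stab c) (top c) := by
    intro c hc
    obtain ⟨k1, k2⟩ := key c hc
    by_cases h1 : top c ⊓ N = ⊥
    · rw [if_pos (k1.2 h1), k2]
      simp only [w', if_pos h1]
    · rw [if_neg (fun h2 => h1 (k1.1 h2))]
      simp only [w', if_neg h1, mul_zero]
  rw [Finset.sum_congr rfl e1, h]
  apply Finset.sum_congr rfl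
  intro c hc
  obtain ⟨k1, k2⟩ := key c hc
  by_cases h0 : NormalChain c
  · by_cases h1 : top c ⊓ N = ⊥
    · rw [if_pos h0, if_pos ⟨h0, k1.2 h1⟩, k2]
      simp only [w', if_pos h1]
    · rw [if_pos h0, if_neg (fun h2 => h1 (k1.1 h2.2))]
      simp only [w', if_neg h1, mul_zero]
  · rw [if_neg h0, if_neg (fun h2 => h0 h2.1)]

end Pool.Agent.PP.H96
end
end -- Pool.Agent.Helper96_PP.Rch

section -- Pool.Agent.Helper96_PP.Trn

/-!
# Squad PP, modules YZR and TRN
-/

open scoped BigOperators

noncomputable section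

namespace Pool.Agent.PP.H96

open Pool.Agent.Helper51_AWC Pool.Agent.Helper79_WRA Pool.Agent.Helper79_WRA.H91 Pool.Agent.PP

/-- YZR -/
theorem yzr : YzrStmt := by
  intro ℓ F _ hℓ G _ _ Q hQ hO e
  have : Fact ℓ.Prime := ⟨hℓ⟩
  have hb : Subgroup.centralizer ((⊥ : Subgroup G) : Set G) = ⊤ := by
    ext x
    simp [Subgroup.mem_centralizer_iff]
  have hc : cent Q {⊥} = Q := by
    apply le_antisymm inf_le_left
    apply le_inf le_rfl
    refine le_iInf₂ fun D hD => ?_
    rw [Finset.mem_singleton] at hD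
    rw [hD, hb]
    exact le_top
  have hs : stab ({⊥} : Finset (Subgroup G)) = ⊤ := by
    ext g
    rw [mem_stab]
    simp only [Finset.mem_singleton, forall_eq, Subgroup.mem_top, iff_true]
    unfold conjS
    exact Subgroup.map_bot _
  have h := H46.tzero H91.cone ℓ G Q hQ
    (fun X => (Nat.card X : ℤ) * (lnum X e : ℤ)) {⊥} (by rw [hc]; exact hO)
  unfold Helper79_WRA.tsum at h
  rw [hc, hs] at h
  simp only [top_inf_eq] at h
  exact h

/-- the `ℓ`-number of a subgroup normalising the `ℓ`-subgroup `P` which it contains -/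
theorem lnum_br {ℓ : ℕ} {F : Type} [Field F] (hF : GoodF ℓ F) (hnls : NlsStmt) {G : Type} [Group G]
    [Finite G] {P X : Subgroup G} (hP : IsPGroup ℓ P) (hPX : P ≤ X)
    (hXP : X ≤ Subgroup.normalizer (P : Set G)) {e : G → F} (he : IsCl e) :
    lnum X e = lnum X (br P e) := by
  have hn : (P.subgroupOf X).Normal := (Subgroup.normal_subgroupOf_iff_le_normalizer hPX).2 hXP
  have hp : IsPGroup ℓ (P.subgroupOf X) := hP.comap_of_injective X.subtype X.subtype_injective
  have hcl : IsCl (fun t : X => e t) := by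
    intro x y
    exact he x y
  have hbr : br (P.subgroupOf X) (fun t : X => e t) = fun t : X => br P e t := by
    funext t
    unfold br
    have hiff : t ∈ Subgroup.centralizer ((P.subgroupOf X : Subgroup X) : Set X) ↔
        (t : G) ∈ Subgroup.centralizer (P : Set G) := by
      rw [Subgroup.mem_centralizer_iff, Subgroup.mem_centralizer_iff]
      constructor
      · intro h y hy
        exact congrArg Subtype.val (h ⟨y, hPX hy⟩ hy)
      · intro h y hy
        exact Subtype.ext (h y hy)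
    by_cases h : (t : G) ∈ Subgroup.centralizer (P : Set G)
    · rw [if_pos h, if_pos (hiff.2 h)]
    · rw [if_neg h, if_neg (fun h2 => h (hiff.1 h2))]
  unfold lnum
  congr 1
  ext f
  constructor
  · rintro ⟨hf, h2⟩
    refine ⟨hf, ?_⟩
    obtain ⟨n, ρ, hρ, rfl⟩ := hf
    have h3 := ((hnls ℓ F hF X (P.subgroupOf X) hn hp n ρ hρ).2 _ hcl).2
    rw [hbr] at h3
    rw [← h3]
    exact h2
  · rintro ⟨hf, h2⟩
    refine ⟨hf, ?_⟩
    obtain ⟨n, ρ, hρ, rfl⟩ := hf
    have h3 := ((hnls ℓ F hF X (P.subgroupOf X) hn hp n ρ hρ).2 _ hcl).2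
    rw [hbr] at h3
    rw [h3]
    exact h2

/-- TRN -/
theorem trn (hnls : NlsStmt) : TrnStmt := by
  intro ℓ F _ hF G _ _ N hN e he c hc hnc
  have : Fact ℓ.Prime := ⟨hF.prime⟩
  obtain ⟨c1, c2, c3⟩ := mem_chainsOn.1 hc
  obtain ⟨t1, t2⟩ := H94.top_mem c3 ⟨_, c2⟩
  have htp : IsPGroup ℓ (top c) := (mem_psubIn.1 (c1 t1)).2
  have hle : cent N c ≤ stab c := by
    intro x hx
    rw [H91.mem_cent] at hx
    rw [mem_stab]
    intro D hD
    ext y
    rw [mem_conjS]
    constructor
    · intro hy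
      have h1 := hx.2 D hD _ hy
      have h2 : x * (x⁻¹ * y * x) * x⁻¹ = x⁻¹ * y * x := by
        rw [← h1]; group
      have h3 : y = x⁻¹ * y * x := by
        rw [← h2]; group
      rw [h3]; exact hy
    · intro hy
      have h1 := hx.2 D hD _ hy
      have h2 : x⁻¹ * y * x = y := by
        rw [mul_assoc, h1]; group
      rw [h2]; exact hy
  rw [H75.YY_subgroup ℓ (stab c) (cent N c) hle (br (top c) e)]
  unfold Helper79_WRA.tsum
  apply Finset.sum_congr rfl
  intro v hv
  obtain ⟨v1, v2, v3⟩ := mem_chainsOn.1 hv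
  have hPX : top c ≤ stab v ⊓ stab c := by
    refine le_inf ?_ ?_
    · intro x hx
      rw [H94.mem_stab']
      intro D hD
      have hDc := (mem_psubIn.1 (v1 hD)).1
      rw [Subgroup.mem_normalizer_iff]
      intro y
      have hcomm : ∀ y ∈ D, x * y = y * x := by
        intro y hy
        exact (H91.mem_cent.1 (hDc hy)).2 _ t1 x hx
      constructor
      · intro hy
        rw [hcomm y hy, mul_inv_cancel_right]
        exact hy
      · intro hy
        have h1 := hcomm _ hy
        have h2 : x * (x * y * x⁻¹) * x⁻¹ = x * y * x⁻¹ := by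
          rw [h1]; group
        have h3 : x * y * x⁻¹ = y := by
          have : x⁻¹ * (x * (x * y * x⁻¹) * x⁻¹) * x = x⁻¹ * (x * y * x⁻¹) * x :=
            congrArg (fun z => x⁻¹ * z * x) h2
          calc x * y * x⁻¹ = x⁻¹ * (x * (x * y * x⁻¹) * x⁻¹) * x := by group
            _ = x⁻¹ * (x * y * x⁻¹) * x := this
            _ = y := by group
        rwa [h3] at hy
    · intro x hx
      rw [H94.mem_stab']
      intro D hD
      exact hnc D hD hx
  have hXP : stab v ⊓ stab c ≤ Subgroup.normalizer (top c : Set G) := by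
    intro x hx
    exact (H94.mem_stab'.1 hx.2) _ t1
  rw [inf_comm (stab c) (stab v)]
  change _ * (_ * ((lnum (stab v ⊓ stab c) e : ℕ) : ℤ)) = _
  rw [lnum_br hF hnls htp hPX hXP he.1]

end Pool.Agent.PP.H96
end
end -- Pool.Agent.Helper96_PP.Trn
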