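import Pool.Agent.Helper12_AWB.B047
import Pool.Agent.Helper12_AWB.B055
import Pool.Agent.Helper18_PP.StmtsDZ
import Pool.Agent.Helper46_PP.Alg

/-!
# Merged copies (generated) of the modules

* `Pool.Agent.Helper21_PP.Psf`
* `Pool.Agent.Helper65_PP.Sup`
* `Pool.Agent.Helper9_PP.Add`
-/

set_option autoImplicit false

section -- Pool.Agent.Helper21_PP.Psf

/-!
Squad PP (AWC), part DZ, module PSF: the idempotent of the quotient and its positivity.
-/

open scoped BigOperators

noncomputable section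

namespace Pool.Agent.PP.H21

open Pool.Agent.PP Pool.Agent.PP.H20

section kl

variable {F Γ : Type} [Field F] [Group Γ] {n : ℕ}

/-- `X ⊗ t` -/
def kl (t : Γ) : Matrix (Fin n) (Fin n) F →ₗ[F] Matrix (Fin n) (Fin n) (MonoidAlgebra F Γ) where
  toFun X := fun i j => MonoidAlgebra.single t (X i j)
  map_add' X Y := by
    refine Matrix.ext fun i j => ?_
    exact MonoidAlgebra.single_add t (X i j) (Y i j)
  map_smul' c X := by
    refine Matrix.ext fun i j => ?_
    exact (MonoidAlgebra.smul_single' c t (X i j)).symm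

omit [Group Γ] in
theorem kl_apply (t : Γ) (X : Matrix (Fin n) (Fin n) F) (i j : Fin n) :
    kl t X i j = MonoidAlgebra.single t (X i j) := rfl

theorem kl_mul (s t : Γ) (X Y : Matrix (Fin n) (Fin n) F) :
    kl s X * kl t Y = kl (s * t) (X * Y) := by
  refine Matrix.ext fun i j => ?_
  rw [kl_apply, Matrix.mul_apply, Matrix.mul_apply]
  simp_rw [kl_apply, MonoidAlgebra.single_mul_single]
  exact (map_sum (MonoidAlgebra.singleAddHom (s * t)) _ _).symm

theorem kl_scalar (t : Γ) (c : F) :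
    kl t (Matrix.diagonal (fun _ : Fin n => c)) =
      Matrix.diagonal (fun _ : Fin n => MonoidAlgebra.single t c) := by
  refine Matrix.ext fun i j => ?_
  rw [kl_apply]
  by_cases h : i = j
  · subst h
    rw [Matrix.diagonal_apply_eq, Matrix.diagonal_apply_eq]
  · rw [Matrix.diagonal_apply_ne _ h, Matrix.diagonal_apply_ne _ h, MonoidAlgebra.single_zero]

theorem kl_one_one : kl (1 : Γ) (1 : Matrix (Fin n) (Fin n) F) = 1 := by
  rw [← Matrix.diagonal_one, kl_scalar, ← Matrix.diagonal_one, ← MonoidAlgebra.one_def]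

end kl

section psi

variable {F G : Type} [Field F] [Group G] {N : Subgroup G} [N.Normal] {n : ℕ}

/-- the monoid homomorphism `g ↦ α(g) ⊗ gN` -/
def psiH (N : Subgroup G) [N.Normal] (α : G →* Matrix (Fin n) (Fin n) F) :
    G →* Matrix (Fin n) (Fin n) (MonoidAlgebra F (G ⧸ N)) where
  toFun g := kl (g : G ⧸ N) (α g)
  map_one' := by rw [map_one, QuotientGroup.mk_one, kl_one_one]
  map_mul' x y := by rw [map_mul, QuotientGroup.mk_mul, kl_mul]

/-- the algebra homomorphism `FG → M_n(F) ⊗ F(G/N)` -/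
def Psi (N : Subgroup G) [N.Normal] (α : G →* Matrix (Fin n) (Fin n) F) :
    MonoidAlgebra F G →ₐ[F] Matrix (Fin n) (Fin n) (MonoidAlgebra F (G ⧸ N)) :=
  MonoidAlgebra.lift F (Matrix (Fin n) (Fin n) (MonoidAlgebra F (G ⧸ N))) G (psiH N α)

theorem Psi_single (α : G →* Matrix (Fin n) (Fin n) F) (g : G) (c : F) :
    Psi N α (MonoidAlgebra.single g c) = c • kl (g : G ⧸ N) (α g) := by
  rw [Psi, MonoidAlgebra.lift_single]
  rfl

omit [N.Normal] in
/-- the sum over a coset -/
theorem sum_coset {V : Type} [AddCommMonoid V] [Fintype G] [Fintype N] [DecidableEq (G ⧸ N)]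
    (φ : G → V) (g : G) :
    ∑ x : G, (if (x : G ⧸ N) = (g : G ⧸ N) then φ x else 0) = ∑ h : N, φ (g * h) := by
  rw [← Finset.sum_filter]
  symm
  apply Finset.sum_bij (fun (h : N) _ => g * (h : G))
  · intro h _
    rw [Finset.mem_filter]
    refine ⟨Finset.mem_univ _, ?_⟩
    rw [eq_comm, QuotientGroup.eq, inv_mul_cancel_left]
    exact h.2
  · intro h _ h' _ hh
    exact Subtype.ext (mul_left_cancel hh)
  · intro x hx
    rw [Finset.mem_filter, eq_comm, QuotientGroup.eq] at hx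
    exact ⟨⟨g⁻¹ * x, hx.2⟩, Finset.mem_univ _, mul_inv_cancel_left _ _⟩
  · intro h _
    rfl

theorem Psi_coeff [Finite G] (α : G →* Matrix (Fin n) (Fin n) F) (a : G → F) (g : G) (i j : Fin n) :
    (Psi N α (toMA a) i j).coeff (g : G ⧸ N) = (∑ᶠ h : N, a (g * h) • α (g * h)) i j := by
  classical
  have := Fintype.ofFinite G
  rw [finsum_eq_sum_of_fintype, toMA_eq, map_sum, Matrix.sum_apply, MonoidAlgebra.coeff_sum,
    Finsupp.finsetSum_apply, Matrix.sum_apply]
  simp_rw [Psi_single]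
  rw [← sum_coset (fun x => (a x • α x) i j) g]
  apply Finset.sum_congr rfl
  intro x _
  rw [Matrix.smul_apply, kl_apply, MonoidAlgebra.smul_single', MonoidAlgebra.coeff_single,
    Finsupp.single_apply]
  rfl

theorem Psi_scalar_inj (hn : 0 < n) {Γ : Type} [Group Γ] {x y : MonoidAlgebra F Γ}
    (h : Matrix.scalar (Fin n) x = Matrix.scalar (Fin n) y) : x = y := by
  have h1 := congrFun (congrFun h ⟨0, hn⟩) ⟨0, hn⟩
  rwa [Matrix.scalar_apply, Matrix.scalar_apply, Matrix.diagonal_apply_eq,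
    Matrix.diagonal_apply_eq] at h1

theorem exists_pre [Finite G] (α : G →* Matrix (Fin n) (Fin n) F)
    (hα : IsIrr (α.comp N.subtype)) [Fintype N] (g : G) (X : Matrix (Fin n) (Fin n) F) :
    ∃ c : N → F, Psi N α (∑ h : N, MonoidAlgebra.single (g * (h : G)) (c h)) =
      kl (g : G ⧸ N) X := by
  have h1 : α g⁻¹ * X ∈ Submodule.span F (Set.range (α.comp N.subtype)) := by
    rw [hα.2]
    exact Submodule.mem_top
  obtain ⟨c, hc⟩ := (Submodule.mem_span_range_iff_exists_fun F).mp h1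
  refine ⟨c, ?_⟩
  rw [map_sum]
  have h2 : ∀ h : N, Psi N α (MonoidAlgebra.single (g * (h : G)) (c h)) =
      kl (g : G ⧸ N) (α g * (c h • α h)) := by
    intro h
    have h3 : ((g * (h : G) : G) : G ⧸ N) = g := by
      rw [eq_comm, QuotientGroup.eq, inv_mul_cancel_left]
      exact h.2
    rw [Psi_single, h3, ← map_smul, map_mul, Matrix.mul_smul]
  simp_rw [h2]
  rw [← map_sum, ← Finset.mul_sum]
  have h4 : ∑ h : N, c h • α h = α g⁻¹ * X := hc
  rw [h4, ← mul_assoc, ← map_mul, mul_inv_cancel, map_one, one_mul]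

omit [N.Normal] in
theorem toMA_comm_single [Finite G] {e : G → F} (he : IsCl e) (g : G) (c : F) :
    toMA e * MonoidAlgebra.single g c = MonoidAlgebra.single g c * toMA e := by
  apply MonoidAlgebra.ext
  ext h
  rw [MonoidAlgebra.coeff_mul_single_apply, MonoidAlgebra.coeff_single_mul_apply, toMA_coeff,
    toMA_coeff, mul_comm]
  congr 1
  rw [← he (g⁻¹ * h) g]
  congr 1
  group

omit [N.Normal] in
theorem toMA_comm [Finite G] {e : G → F} (he : IsCl e) (x : MonoidAlgebra F G) :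
    toMA e * x = x * toMA e := by
  induction x using MonoidAlgebra.induction_linear with
  | zero => simp
  | add a b ha hb => rw [mul_add, add_mul, ha, hb]
  | single g c => exact toMA_comm_single he g c

theorem psi_comm [Finite G] (α : G →* Matrix (Fin n) (Fin n) F)
    (hα : IsIrr (α.comp N.subtype)) {e : G → F} (he : IsCl e) (g : G)
    (X : Matrix (Fin n) (Fin n) F) :
    Psi N α (toMA e) * kl (g : G ⧸ N) X = kl (g : G ⧸ N) X * Psi N α (toMA e) := by
  have := Fintype.ofFinite N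
  obtain ⟨c, hc⟩ := exists_pre α hα g X
  rw [← hc, ← map_mul, toMA_comm he, map_mul]

theorem exists_f [Finite G] (α : G →* Matrix (Fin n) (Fin n) F)
    (hα : IsIrr (α.comp N.subtype)) {e : G → F} (he : IsIdem e) :
    ∃ f : G ⧸ N → F, Psi N α (toMA e) = Matrix.scalar (Fin n) (toMA f) ∧ IsIdem f := by
  obtain ⟨φ, hφ⟩ : Psi N α (toMA e) ∈ Set.range (Matrix.scalar (Fin n)) := by
    rw [Matrix.mem_range_scalar_iff_commute_single']
    intro i j
    have h1 := psi_comm (N := N) α hα he.1 1 (Matrix.single i j 1)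
    have h2 : kl ((1 : G) : G ⧸ N) (Matrix.single i j (1 : F)) =
        Matrix.single i j (1 : MonoidAlgebra F (G ⧸ N)) := by
      refine Matrix.ext fun a b => ?_
      rw [kl_apply, Matrix.single_apply, Matrix.single_apply]
      by_cases h : i = a ∧ j = b
      · rw [if_pos h, if_pos h]
        rfl
      · rw [if_neg h, if_neg h, MonoidAlgebra.single_zero]
    rw [h2] at h1
    exact h1.symm
  obtain ⟨f, rfl⟩ := toMA_surjective φ
  refine ⟨f, hφ.symm, ?_, ?_⟩
  · intro t y
    obtain ⟨g, rfl⟩ := QuotientGroup.mk_surjective y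
    have h1 := psi_comm (N := N) α hα he.1 g 1
    rw [← hφ, ← Matrix.diagonal_one, kl_scalar, ← Matrix.scalar_apply, ← map_mul, ← map_mul] at h1
    have h2 := Psi_scalar_inj hα.1 h1
    have h3 := congrArg (fun x => x.coeff ((g : G ⧸ N) * t)) h2
    simp only [MonoidAlgebra.coeff_mul_single_apply, MonoidAlgebra.coeff_single_mul_apply,
      toMA_coeff, mul_one, one_mul, inv_mul_cancel_left] at h3
    exact h3
  · apply toMA_injective
    apply Psi_scalar_inj hα.1
    rw [toMA_mulF, map_mul, hφ, ← map_mul, ← toMA_mulF, he.2]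

theorem f_formula [Finite G] (α : G →* Matrix (Fin n) (Fin n) F) {e : G → F} {f : G ⧸ N → F}
    (h : Psi N α (toMA e) = Matrix.scalar (Fin n) (toMA f)) (g : G) :
    ∑ᶠ h : N, e (g * h) • α (g * h) = Matrix.scalar (Fin n) (f g) := by
  refine Matrix.ext fun i j => ?_
  rw [← Psi_coeff, h, Matrix.scalar_apply, Matrix.scalar_apply]
  by_cases hij : i = j
  · subst hij
    rw [Matrix.diagonal_apply_eq, Matrix.diagonal_apply_eq]
    rfl
  · rw [Matrix.diagonal_apply_ne _ hij, Matrix.diagonal_apply_ne _ hij]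
    rfl

end psi

section tr

variable {F H : Type} [Field F] [Group H]

/-- the solutions of `d x d⁻¹ = q x q⁻¹` in `Q` -/
theorem card_conj [Finite H] (Q : Subgroup H) (x q : H) (hq : q ∈ Q) :
    Nat.card {d : Q // (d : H) * x * (d : H)⁻¹ = q * x * q⁻¹} =
      Nat.card (Subgroup.centralizer ({x} : Set H) ⊓ Q : Subgroup H) := by
  apply Nat.card_congr
  refine
    { toFun := fun d => ⟨q⁻¹ * (d.1 : H), ?_, Q.mul_mem (Q.inv_mem hq) d.1.2⟩
      invFun := fun c => ⟨⟨q * (c : H), Q.mul_mem hq c.2.2⟩, ?_⟩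
      left_inv := fun d => Subtype.ext (Subtype.ext (mul_inv_cancel_left _ _))
      right_inv := fun c => Subtype.ext (inv_mul_cancel_left _ _) }
  · have h2 := mul_inv_eq_iff_eq_mul.mp d.2
    apply Subgroup.mem_centralizer_singleton_iff.mpr
    rw [mul_assoc, h2]
    group
  · have h1 := Subgroup.mem_centralizer_singleton_iff.mp c.2.1
    show q * (c : H) * x * (q * (c : H))⁻¹ = q * x * q⁻¹
    rw [mul_assoc q, h1]
    group

theorem card_conj_top [Finite H] (x q : H) :
    Nat.card {d : H // d * x * d⁻¹ = q * x * q⁻¹} =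
      Nat.card (Subgroup.centralizer ({x} : Set H)) := by
  apply Nat.card_congr
  refine
    { toFun := fun d => ⟨q⁻¹ * (d.1 : H), ?_⟩
      invFun := fun c => ⟨q * (c : H), ?_⟩
      left_inv := fun d => Subtype.ext (mul_inv_cancel_left _ _)
      right_inv := fun c => Subtype.ext (inv_mul_cancel_left _ _) }
  · have h2 := mul_inv_eq_iff_eq_mul.mp d.2
    apply Subgroup.mem_centralizer_singleton_iff.mpr
    rw [mul_assoc, h2]
    group
  · have h1 := Subgroup.mem_centralizer_singleton_iff.mp c.2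
    show q * (c : H) * x * (q * (c : H))⁻¹ = q * x * q⁻¹
    rw [mul_assoc q, h1]
    group

/-- the trace of a group element -/
theorem trace_single [Finite H] (Q : Subgroup H) [Fintype Q] (x : H) :
    ∑ d : Q, MonoidAlgebra.single ((d : H) * x * (d : H)⁻¹) (1 : F) =
      (Nat.card (Subgroup.centralizer ({x} : Set H) ⊓ Q : Subgroup H) : F) •
        toMA (clsum F Q x) := by
  classical
  apply MonoidAlgebra.ext
  ext y
  rw [MonoidAlgebra.coeff_sum, Finsupp.finsetSum_apply, MonoidAlgebra.coeff_smul,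
    Finsupp.smul_apply, toMA_coeff, clsum, smul_eq_mul]
  simp_rw [MonoidAlgebra.coeff_single, Finsupp.single_apply]
  rw [Finset.sum_boole]
  by_cases hy : ∃ q ∈ Q, y = q * x * q⁻¹
  · rw [if_pos hy, mul_one]
    obtain ⟨q, hq, rfl⟩ := hy
    rw [← card_conj Q x q hq, Nat.card_eq_fintype_card, Fintype.card_subtype]
  · rw [if_neg hy, mul_zero, Finset.filter_eq_empty_iff.mpr, Finset.card_empty, Nat.cast_zero]
    intro d _ hd
    exact hy ⟨d, d.2, hd.symm⟩

/-- elements of the projective centre are traces -/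
theorem exists_trace [Fintype H] {ℓ : ℕ} (hF : CharP F ℓ) {a : H → F} (ha : PrC ℓ a) :
    ∃ v : H → F, ∀ y, ∑ n : H, v (n⁻¹ * y * n) = a y := by
  classical
  let rep : H → H := fun y => Quotient.out (ConjClasses.mk y)
  have hrep : ∀ y, ∃ g, g * rep y * g⁻¹ = y := by
    intro y
    have h1 : ConjClasses.mk (rep y) = ConjClasses.mk y := Quotient.out_eq _
    rw [ConjClasses.mk_eq_mk_iff_isConj, isConj_iff] at h1
    exact h1
  have hrep2 : ∀ y n : H, rep (n⁻¹ * y * n) = rep y := by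
    intro y n
    have h1 : ConjClasses.mk (n⁻¹ * y * n) = ConjClasses.mk y := by
      rw [ConjClasses.mk_eq_mk_iff_isConj, isConj_iff]
      exact ⟨n, by group⟩
    show Quotient.out (ConjClasses.mk _) = Quotient.out (ConjClasses.mk _)
    rw [h1]
  let C : H → ℕ := fun y => Nat.card (Subgroup.centralizer ({y} : Set H))
  refine ⟨fun x => if x = rep x then a x * (C x : F)⁻¹ else 0, fun y => ?_⟩
  obtain ⟨g, hg⟩ := hrep y
  have h1 : ∀ n : H, (if n⁻¹ * y * n = rep (n⁻¹ * y * n) then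
      a (n⁻¹ * y * n) * (C (n⁻¹ * y * n) : F)⁻¹ else 0) =
      if n * rep y * n⁻¹ = y then a y * (C (rep y) : F)⁻¹ else 0 := by
    intro n
    rw [hrep2]
    have h2 : n⁻¹ * y * n = rep y ↔ n * rep y * n⁻¹ = y := by
      constructor
      · intro h
        rw [← h]
        group
      · intro h
        calc n⁻¹ * y * n = n⁻¹ * (n * rep y * n⁻¹) * n := by rw [h]
          _ = rep y := by group
    by_cases h3 : n⁻¹ * y * n = rep y
    · rw [if_pos h3, if_pos (h2.mp h3), h3]
      have h4 : a (rep y) = a y := by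
        conv_rhs => rw [← hg]
        exact (ha.1 _ _).symm
      rw [h4]
    · rw [if_neg h3, if_neg (fun h => h3 (h2.mpr h))]
  simp_rw [h1]
  rw [← Finset.sum_filter, Finset.sum_const, nsmul_eq_mul]
  have h5 : (Finset.univ.filter (fun n : H => n * rep y * n⁻¹ = y)).card = C (rep y) := by
    have h6 := card_conj_top (rep y) g
    rw [hg, Nat.card_eq_fintype_card, Fintype.card_subtype] at h6
    exact h6
  rw [h5]
  by_cases h7 : ℓ ∣ C (rep y)
  · have h8 : a y = 0 := by
      have h9 := ha.2 (rep y) h7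
      rw [← hg, ha.1]
      exact h9
    rw [h8, zero_mul, mul_zero]
  · have h8 : (C (rep y) : F) ≠ 0 := by
      rwa [Ne, CharP.cast_eq_zero_iff F ℓ]
    field_simp

end tr

section pos

variable {F G : Type} [Field F] [Group G] {N : Subgroup G} [N.Normal] {n : ℕ}

/-- sums over `M` as double sums over `M / N` and `N` -/
theorem sum_regroup {V : Type} [AddCommMonoid V] (M : Subgroup G) (hNM : N ≤ M) [Fintype M]
    [Fintype N] [Fintype (M.map (QuotientGroup.mk' N))] (φ : G → V) :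
    ∃ s : M.map (QuotientGroup.mk' N) → G, (∀ t, ((s t : G) : G ⧸ N) = t) ∧
      ∑ d : M, φ d = ∑ t, ∑ k : N, φ (s t * k) := by
  have h1 : ∀ t : M.map (QuotientGroup.mk' N), ∃ g ∈ M, ((g : G) : G ⧸ N) = t := by
    intro t
    exact Subgroup.mem_map.mp t.2
  choose s hsM hs using h1
  refine ⟨s, hs, ?_⟩
  rw [← Fintype.sum_prod_type' (f := fun t (k : N) => φ (s t * k))]
  symm
  apply Fintype.sum_bijective (fun p : (M.map (QuotientGroup.mk' N)) × N =>
    (⟨s p.1 * p.2, M.mul_mem (hsM _) (hNM p.2.2)⟩ : M))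
  · constructor
    · rintro ⟨t, k⟩ ⟨t', k'⟩ h
      have h2 : s t * (k : G) = s t' * k' := congrArg Subtype.val h
      have h3 : t = t' := by
        apply Subtype.ext
        rw [← hs t, ← hs t', QuotientGroup.eq]
        have h4 : (s t)⁻¹ * s t' = k * (k' : G)⁻¹ := by
          rw [eq_mul_inv_iff_mul_eq, mul_assoc, ← h2, inv_mul_cancel_left]
        rw [h4]
        exact N.mul_mem k.2 (N.inv_mem k'.2)
      subst h3
      rw [Subtype.ext (mul_left_cancel h2)]
    · intro d
      have h2 : ((d : G) : G ⧸ N) ∈ M.map (QuotientGroup.mk' N) := ⟨d, d.2, rfl⟩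
      have h3 : (s ⟨_, h2⟩)⁻¹ * (d : G) ∈ N := QuotientGroup.eq.mp (hs ⟨_, h2⟩)
      refine ⟨(⟨_, h2⟩, ⟨_, h3⟩), Subtype.ext ?_⟩
      exact mul_inv_cancel_left _ _
  · intro p
    rfl

omit [N.Normal] in
theorem nil_of_iter [Finite G] {a e : G → F} (he : IsIdem e) {k : ℕ}
    (h : (mulF a)^[k] e = 0) : IsNilpotent (toMA a * toMA e) := by
  refine ⟨k + 1, ?_⟩
  have hc : Commute (toMA a) (toMA e) := (toMA_comm he.1 _).symm
  have h2 : toMA a ^ k * toMA e = 0 := by
    rw [← mulF_iterate, h]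
    exact (maE (F := F) (H := G)).map_zero
  rw [hc.mul_pow, pow_succ' (toMA a), pow_succ' (toMA e), mul_assoc,
    ← mul_assoc (toMA a ^ k), h2, zero_mul, mul_zero]

omit [N.Normal] in
theorem comm_of [Finite G] {a b : G → F} (h : ∀ g, b g ≠ 0 → ∀ x, a (g * x * g⁻¹) = a x) :
    Commute (toMA a) (toMA b) := by
  have := Fintype.ofFinite G
  rw [toMA_eq b]
  apply Commute.sum_right
  intro g _
  by_cases hg : b g = 0
  · rw [hg, MonoidAlgebra.single_zero]
    exact Commute.zero_right _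
  · show toMA a * MonoidAlgebra.single g (b g) = MonoidAlgebra.single g (b g) * toMA a
    apply MonoidAlgebra.ext
    ext y
    rw [MonoidAlgebra.coeff_mul_single_apply, MonoidAlgebra.coeff_single_mul_apply, toMA_coeff,
      toMA_coeff, mul_comm]
    congr 1
    rw [← h g hg (g⁻¹ * y)]
    congr 1
    group

omit [N.Normal] in
theorem clsum_comm [Finite G] (M : Subgroup G) {x y : G} (hy : y ∈ M) :
    Commute (toMA (clsum F M x)) (toMA (clsum F M y)) := by
  apply comm_of
  intro g hg z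
  have hgM : g ∈ M := by
    by_contra hgM
    apply hg
    rw [clsum, if_neg]
    rintro ⟨q, hq, rfl⟩
    exact hgM (M.mul_mem (M.mul_mem hq hy) (M.inv_mem hq))
  unfold clsum
  have h1 : (∃ q ∈ M, g * z * g⁻¹ = q * x * q⁻¹) ↔ ∃ q ∈ M, z = q * x * q⁻¹ := by
    constructor
    · rintro ⟨q, hq, h⟩
      refine ⟨g⁻¹ * q, M.mul_mem (M.inv_mem hgM) hq, ?_⟩
      calc z = g⁻¹ * (g * z * g⁻¹) * g := by group
        _ = g⁻¹ * (q * x * q⁻¹) * g := by rw [h]
        _ = g⁻¹ * q * x * (g⁻¹ * q)⁻¹ := by group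
    · rintro ⟨q, hq, rfl⟩
      exact ⟨g * q, M.mul_mem hgM hq, by group⟩
  by_cases h2 : ∃ q ∈ M, z = q * x * q⁻¹
  · rw [if_pos h2, if_pos (h1.mpr h2)]
  · rw [if_neg h2, if_neg (fun h => h2 (h1.mp h))]

theorem kl_zero_pow (hn : 0 < n) {Γ : Type} [Group Γ] {x : MonoidAlgebra F Γ}
    (h : IsNilpotent (Matrix.scalar (Fin n) x)) : IsNilpotent x := by
  obtain ⟨k, hk⟩ := h
  refine ⟨k, Psi_scalar_inj hn ?_⟩
  rw [map_pow, hk, map_zero]

omit [N.Normal] in
theorem trace_V [Fintype N] (α : G →* Matrix (Fin n) (Fin n) F) {b : G → F} {v : N → F}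
    (hv : ∀ y : N, ∑ k : N, v (k⁻¹ * y * k) = b y)
    (hb1 : ev (α.comp N.subtype) (fun x : N => b x) = 1) :
    ∑ k : N, α k * ev (α.comp N.subtype) v * α (k : G)⁻¹ = 1 := by
  have h1 : ∀ k : N, α k * ev (α.comp N.subtype) v * α (k : G)⁻¹ =
      ∑ y : N, v (k⁻¹ * y * k) • α y := by
    intro k
    rw [ev, finsum_eq_sum_of_fintype, Finset.mul_sum, Finset.sum_mul]
    symm
    apply Fintype.sum_equiv (MulAut.conj k⁻¹).toEquiv
    intro y
    show v (k⁻¹ * y * k) • α y =
      α k * (v (k⁻¹ * y * k⁻¹⁻¹) • α ((k⁻¹ * y * k⁻¹⁻¹ : N) : G)) * α (k : G)⁻¹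
    rw [Matrix.mul_smul, Matrix.smul_mul, ← map_mul, ← map_mul, inv_inv]
    congr 2
    push_cast
    group
  simp_rw [h1]
  rw [Finset.sum_comm, ← hb1, ev, finsum_eq_sum_of_fintype]
  apply Finset.sum_congr rfl
  intro y _
  rw [← Finset.sum_smul, hv]
  rfl

theorem psf_pos [Finite G] {ℓ : ℕ} (hF : CharP F ℓ) (α : G →* Matrix (Fin n) (Fin n) F)
    (hα : IsIrr (α.comp N.subtype)) {b e : G → F} (hb : PrC ℓ (fun x : N => b x))
    (hb1 : ev (α.comp N.subtype) (fun x : N => b x) = 1) (he : IsIdem e) {f : G ⧸ N → F}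
    (hf : Psi N α (toMA e) = Matrix.scalar (Fin n) (toMA f)) (hfi : IsIdem f)
    (M : Subgroup G) (hNM : N ≤ M) (hpos : Pos ℓ e M) :
    Pos ℓ f (M.map (QuotientGroup.mk' N)) := by
  intro t ht hdz
  obtain ⟨x, hxM, rfl⟩ := Subgroup.mem_map.mp ht
  have := Fintype.ofFinite N
  have := Fintype.ofFinite M
  have := Fintype.ofFinite (M.map (QuotientGroup.mk' N))
  obtain ⟨v, hv⟩ := exists_trace hF hb
  have hV := trace_V α hv hb1
  set V := ev (α.comp N.subtype) v with hVdef
  set t : G ⧸ N := QuotientGroup.mk' N x with htdef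
  set c₀ := Nat.card (Subgroup.centralizer ({t} : Set (G ⧸ N)) ⊓ M.map (QuotientGroup.mk' N) :
    Subgroup (G ⧸ N)) with hc₀
  have hc₀' : (c₀ : F) ≠ 0 := by
    rwa [Ne, CharP.cast_eq_zero_iff F ℓ]
  obtain ⟨c, hc⟩ := exists_pre α hα x ((c₀ : F)⁻¹ • V)
  set w := ∑ h : N, MonoidAlgebra.single (x * (h : G)) (c h) with hw
  let z := ∑ d : M, MonoidAlgebra.single (d : G) (1 : F) * w * MonoidAlgebra.single (d : G)⁻¹ 1
  have hz1 : Psi N α z = Matrix.scalar (Fin n) (toMA (clsum F (M.map (QuotientGroup.mk' N)) t)) := by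
    show Psi N α (∑ d : M, MonoidAlgebra.single (d : G) (1 : F) * w *
      MonoidAlgebra.single (d : G)⁻¹ 1) = _
    rw [map_sum]
    have h1 : ∀ d : M, Psi N α (MonoidAlgebra.single (d : G) (1 : F) * w *
        MonoidAlgebra.single (d : G)⁻¹ 1) =
        (c₀ : F)⁻¹ • kl (((d : G) * x * (d : G)⁻¹ : G) : G ⧸ N) (α d * V * α (d : G)⁻¹) := by
      intro d
      rw [map_mul, map_mul, hc, Psi_single, Psi_single, one_smul, one_smul, kl_mul, kl_mul,
        Matrix.mul_smul, Matrix.smul_mul, map_smul]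
      rfl
    simp_rw [h1]
    obtain ⟨s, hs, hsum⟩ := sum_regroup M hNM (fun d : G =>
      (c₀ : F)⁻¹ • kl ((d * x * d⁻¹ : G) : G ⧸ N) (α d * V * α d⁻¹))
    rw [hsum]
    have h2 : ∀ (t' : M.map (QuotientGroup.mk' N)),
        ∑ k : N, (c₀ : F)⁻¹ • kl (((s t' * k) * x * (s t' * k)⁻¹ : G) : G ⧸ N)
          (α (s t' * k) * V * α (s t' * k)⁻¹) =
        (c₀ : F)⁻¹ • Matrix.scalar (Fin n)
          (MonoidAlgebra.single ((t' : G ⧸ N) * t * (t' : G ⧸ N)⁻¹) (1 : F)) := by
      intro t'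
      rw [← Finset.smul_sum]
      congr 1
      have h3 : ∀ k : N, (((s t' * k) * x * (s t' * k)⁻¹ : G) : G ⧸ N) =
          (t' : G ⧸ N) * t * (t' : G ⧸ N)⁻¹ := by
        intro k
        have hk : ((k : G) : G ⧸ N) = 1 := (QuotientGroup.eq_one_iff _).mpr k.2
        rw [QuotientGroup.mk_mul, QuotientGroup.mk_inv, QuotientGroup.mk_mul, QuotientGroup.mk_mul,
          hk, mul_one, hs]
        rfl
      simp_rw [h3]
      rw [← map_sum]
      have h4 : ∑ k : N, α (s t' * k) * V * α (s t' * k)⁻¹ = 1 := by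
        have h5 : ∀ k : N, α (s t' * k) * V * α (s t' * k)⁻¹ =
            α (s t') * (α k * V * α (k : G)⁻¹) * α (s t')⁻¹ := by
          intro k
          rw [mul_inv_rev, map_mul, map_mul]
          simp only [mul_assoc]
        simp_rw [h5]
        rw [← Finset.sum_mul, ← Finset.mul_sum, hV, mul_one, ← map_mul, mul_inv_cancel, map_one]
      rw [h4, ← Matrix.diagonal_one, kl_scalar, Matrix.scalar_apply]
    simp_rw [h2]
    rw [← Finset.smul_sum, ← map_sum, trace_single, ← hc₀]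
    have h6 : Matrix.scalar (Fin n) ((c₀ : F) •
        toMA (clsum F (M.map (QuotientGroup.mk' N)) t)) =
        (c₀ : F) • Matrix.scalar (Fin n) (toMA (clsum F (M.map (QuotientGroup.mk' N)) t)) := by
      rw [Matrix.scalar_apply, Matrix.scalar_apply, ← Matrix.diagonal_smul]
      rfl
    rw [h6, smul_smul, inv_mul_cancel₀ hc₀', one_smul]
  have hz2 : z = ∑ h : N, (c h * (Nat.card (Subgroup.centralizer ({x * (h : G)} : Set G) ⊓ M :
      Subgroup G) : F)) • toMA (clsum F M (x * (h : G))) := by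
    show ∑ d : M, MonoidAlgebra.single (d : G) (1 : F) * w *
      MonoidAlgebra.single (d : G)⁻¹ 1 = _
    simp_rw [hw, Finset.mul_sum, Finset.sum_mul]
    rw [Finset.sum_comm]
    apply Finset.sum_congr rfl
    intro h _
    rw [mul_smul, ← trace_single M (x * (h : G)), Finset.smul_sum]
    apply Finset.sum_congr rfl
    intro d _
    rw [MonoidAlgebra.single_mul_single, MonoidAlgebra.single_mul_single,
      MonoidAlgebra.smul_single', one_mul, mul_one]
  have hnil : IsNilpotent (z * toMA e) := by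
    rw [hz2, Finset.sum_mul]
    apply Commute.isNilpotent_sum
    · intro h _
      rw [smul_mul_assoc]
      have hm : x * (h : G) ∈ M := M.mul_mem hxM (hNM h.2)
      by_cases hd : ℓ ∣ Nat.card (Subgroup.centralizer ({x * (h : G)} : Set G) ⊓ M : Subgroup G)
      · rw [(CharP.cast_eq_zero_iff F ℓ _).mpr hd, mul_zero, zero_smul]
        exact IsNilpotent.zero
      · obtain ⟨k, hk⟩ := hpos _ hm hd
        exact (nil_of_iter he hk).smul _
    · intro h h' _ _
      rw [smul_mul_assoc, smul_mul_assoc]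
      apply Commute.smul_left
      apply Commute.smul_right
      have hm : x * (h' : G) ∈ M := M.mul_mem hxM (hNM h'.2)
      have h5 : Commute (toMA e) (toMA e) := Commute.refl _
      have h6 : ∀ y, Commute (toMA e) y := fun y => toMA_comm he.1 y
      exact ((clsum_comm M hm).mul_left (h6 _)).mul_right ((h6 _).symm.mul_left h5)
  have h3 : IsNilpotent (toMA (clsum F (M.map (QuotientGroup.mk' N)) t) * toMA f) := by
    apply kl_zero_pow hα.1
    rw [map_mul, ← hz1, ← hf, ← map_mul]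
    exact hnil.map (Psi N α)
  obtain ⟨k, hk⟩ := h3
  refine ⟨k + 1, toMA_injective ?_⟩
  rw [mulF_iterate]
  have hcm : Commute (toMA (clsum F (M.map (QuotientGroup.mk' N)) t)) (toMA f) :=
    (toMA_comm hfi.1 _).symm
  have hidem : IsIdempotentElem (toMA f) := by
    show toMA f * toMA f = toMA f
    rw [← toMA_mulF, hfi.2]
  have h4 : (toMA (clsum F (M.map (QuotientGroup.mk' N)) t) * toMA f) ^ (k + 1) = 0 := by
    rw [pow_succ, hk, zero_mul]
  rw [hcm.mul_pow, hidem.pow_succ_eq] at h4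
  rw [h4]
  exact (maE (F := F) (H := G ⧸ N)).map_zero.symm

end pos

theorem psf : PsfStmt := by
  intro ℓ F _ hF G _ _ N _ b e n α hb hα hb1 he _
  have := hF.char
  obtain ⟨f, hf, hfi⟩ := exists_f α hα he
  exact ⟨f, f_formula α hf, hfi, fun M _ hNM hpos =>
    psf_pos hF.char α hα hb.2.2.2.2 hb1 he hf hfi M hNM hpos⟩

end Pool.Agent.PP.H21
end
end -- Pool.Agent.Helper21_PP.Psf

section -- Pool.Agent.Helper65_PP.Sup

/-!
# Squad PP, part DZ, module SUP (DZ2)

Chains which meet `N`, and chains which are not good, do not contribute.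
-/

open scoped BigOperators

set_option linter.unusedSectionVars false

noncomputable section

namespace Pool.Agent.PP.H65

open Pool.Agent.Helper51_AWC Pool.Agent.Helper79_WRA

section lem

variable {ℓ : ℕ} {F : Type} [Field F] {G : Type} [Group G] [Finite G]

/-- The truncation argument: if `b` vanishes at the elements of `N` centralising the `ℓ`-group `R`,
then `e = e b` vanishes on the centraliser of `R`. -/
theorem trunc (hF : GoodF ℓ F) {N R : Subgroup G} {b e : G → F} (hb : IsCl b)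
    (hbN : ∀ g, g ∉ N → b g = 0) (he : IsCl e) (heb : mulF e b = e) (hR : IsPGroup ℓ R)
    (h0 : ∀ n ∈ N, n ∈ Subgroup.centralizer (R : Set G) → b n = 0) {g : G}
    (hg : g ∈ Subgroup.centralizer (R : Set G)) : e g = 0 := by
  have hch := hF.char
  have hfin := Fintype.ofFinite G
  classical
  have hV : ∀ v : F, ℓ • v = 0 := by
    intro v
    rw [nsmul_eq_mul, CharP.cast_eq_zero, zero_mul]
  have h1 : e g = ∑ t, e t * b (t⁻¹ * g) := by
    conv_lhs => rw [← heb]
    unfold mulF
    rw [finsum_eq_sum_of_fintype]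
  rw [h1, H20.conj_sum hF.prime hV R hR (fun t => e t * b (t⁻¹ * g)) (fun r hr t => by
    show e (r * t * r⁻¹) * b ((r * t * r⁻¹)⁻¹ * g) = e t * b (t⁻¹ * g)
    have h3 : r * g = g * r := Subgroup.mem_centralizer_iff.1 hg r hr
    have h4 : (r * t * r⁻¹)⁻¹ * g = r * (t⁻¹ * g) * r⁻¹ := by
      have h5 : r⁻¹ * g = g * r⁻¹ := by
        calc r⁻¹ * g = r⁻¹ * (g * r) * r⁻¹ := by group
          _ = r⁻¹ * (r * g) * r⁻¹ := by rw [h3]
          _ = g * r⁻¹ := by group
      calc (r * t * r⁻¹)⁻¹ * g = r * t⁻¹ * (r⁻¹ * g) := by group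
        _ = r * t⁻¹ * (g * r⁻¹) := by rw [h5]
        _ = r * (t⁻¹ * g) * r⁻¹ := by group
    rw [he, h4, hb])]
  apply Finset.sum_eq_zero
  intro t _
  by_cases ht : t ∈ Subgroup.centralizer (R : Set G)
  · rw [if_pos ht]
    have h6 : t⁻¹ * g ∈ Subgroup.centralizer (R : Set G) := mul_mem (inv_mem ht) hg
    by_cases h7 : t⁻¹ * g ∈ N
    · show e t * b (t⁻¹ * g) = 0
      rw [h0 _ h7 h6, mul_zero]
    · show e t * b (t⁻¹ * g) = 0
      rw [hbN _ h7, mul_zero]
  · rw [if_neg ht]

theorem ibr_ne_zero (hF : GoodF ℓ F) {H : Type} [Group H] [Finite H] {f : H → F}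
    (hf : f ∈ IBr F H) : f ≠ 0 := by
  have h1 := (H20.ibf ℓ F hF H).2
  exact h1.ne_zero (⟨f, hf⟩ : IBr F H)

/-- If `e` vanishes on the centraliser of a normal `ℓ`-subgroup of `X`, the `ℓ`-number of `X`
vanishes. -/
theorem kill (hnls : NlsStmt) (hF : GoodF ℓ F) {X R : Subgroup G} {e : G → F} (he : IsCl e)
    (hRX : R ≤ X) (hXN : X ≤ Subgroup.normalizer (R : Set G)) (hR : IsPGroup ℓ R)
    (h0 : ∀ g ∈ X, g ∈ Subgroup.centralizer (R : Set G) → e g = 0) : lnum X e = 0 := by
  unfold lnum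
  rw [Set.ncard_eq_zero (Set.Finite.subset (H20.ibf ℓ F hF X).1 (fun f hf => hf.1))]
  rw [Set.eq_empty_iff_forall_notMem]
  rintro f ⟨hf, hfe⟩
  apply ibr_ne_zero hF hf
  obtain ⟨n, ρ, hρ, rfl⟩ := hf
  have hnorm : (R.subgroupOf X).Normal := by
    constructor
    intro r hr g
    rw [Subgroup.mem_subgroupOf] at hr ⊢
    exact (Subgroup.mem_normalizer_iff.1 (hXN g.2) (r : G)).1 hr
  have hp : IsPGroup ℓ (R.subgroupOf X) := by
    intro r
    obtain ⟨k, hk⟩ := hR ⟨((r : X) : G), r.2⟩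
    refine ⟨k, ?_⟩
    apply Subtype.ext
    apply Subtype.ext
    have := congrArg Subtype.val hk
    simpa using this
  have h1 := ((hnls ℓ F hF X (R.subgroupOf X) hnorm hp n ρ hρ).2 (fun t : X => e t)
    (fun x y => he x y)).2
  have h2 : br (R.subgroupOf X) (fun t : X => e t) = 0 := by
    funext t
    simp only [br, Pi.zero_apply]
    split_ifs with ht
    · apply h0 _ t.2
      rw [Subgroup.mem_centralizer_iff] at ht ⊢
      intro r hr
      have := ht ⟨r, hRX hr⟩ (by
        show (⟨r, hRX hr⟩ : X) ∈ R.subgroupOf X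
        rw [Subgroup.mem_subgroupOf]
        exact hr)
      exact congrArg Subtype.val this
    · rfl
  rw [h2, hfe] at h1
  rw [h1]
  funext x
  unfold actF
  simp

/-- A block of defect zero vanishes at the elements centralised by a nontrivial `ℓ`-subgroup. -/
theorem dzb_zero (hF : GoodF ℓ F) {N R : Subgroup G} {b : G → F} (hNB : NB ℓ N b)
    (hRN : R ≤ N) (hR : IsPGroup ℓ R) (hR1 : R ≠ ⊥) {n : G} (hn : n ∈ N)
    (hnR : n ∈ Subgroup.centralizer (R : Set G)) : b n = 0 := by
  have : Fact ℓ.Prime := ⟨hF.prime⟩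
  refine hNB.2.2.2.2.2 ⟨n, hn⟩ ?_
  obtain ⟨r, hr, hr1⟩ : ∃ r ∈ R, r ≠ 1 := by
    by_contra hc
    push Not at hc
    exact hR1 ((Subgroup.eq_bot_iff_forall _).2 hc)
  obtain ⟨k, hk⟩ := IsPGroup.iff_orderOf.1 hR ⟨r, hr⟩
  rw [Subgroup.orderOf_mk] at hk
  have hk0 : k ≠ 0 := by
    intro h
    rw [h, pow_zero, orderOf_eq_one_iff] at hk
    exact hr1 hk
  have hmem : (⟨r, hRN hr⟩ : N) ∈ Subgroup.centralizer ({⟨n, hn⟩} : Set N) := by
    rw [Subgroup.mem_centralizer_iff]
    intro x hx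
    rw [Set.mem_singleton_iff] at hx
    subst hx
    apply Subtype.ext
    exact (Subgroup.mem_centralizer_iff.1 hnR r hr).symm
  have h1 : orderOf (⟨⟨r, hRN hr⟩, hmem⟩ : Subgroup.centralizer ({⟨n, hn⟩} : Set N)) = ℓ ^ k := by
    rw [Subgroup.orderOf_mk, Subgroup.orderOf_mk, hk]
  have h2 := orderOf_dvd_natCard
    (⟨⟨r, hRN hr⟩, hmem⟩ : Subgroup.centralizer ({⟨n, hn⟩} : Set N))
  rw [h1] at h2
  exact (dvd_pow_self ℓ hk0).trans h2

/-- An `ℓ`-group normalising a nontrivial `ℓ`-group centralises a nontrivial element of it. -/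
theorem exists_cent (hℓ : ℓ.Prime) {E Q : Subgroup G} (hE : IsPGroup ℓ E) (hQ : IsPGroup ℓ Q)
    (hQ1 : Q ≠ ⊥) (hEQ : E ≤ Subgroup.normalizer (Q : Set G)) :
    Q ⊓ Subgroup.centralizer (E : Set G) ≠ ⊥ := by
  have : Fact ℓ.Prime := ⟨hℓ⟩
  have hconj : ∀ r : E, ∀ t : Q, (r : G) * t * (r : G)⁻¹ ∈ Q := fun r t =>
    (Subgroup.mem_normalizer_iff.1 (hEQ r.2) (t : G)).1 t.2
  let _ : MulAction E Q :=
    { smul := fun r t => ⟨(r : G) * t * (r : G)⁻¹, hconj r t⟩
      one_smul := fun t => Subtype.ext (by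
        show (1 : G) * t * (1 : G)⁻¹ = t
        rw [one_mul, inv_one, mul_one])
      mul_smul := fun r s t => Subtype.ext (by
        show ((r : G) * s) * t * ((r : G) * s)⁻¹ = r * (s * t * (s : G)⁻¹) * (r : G)⁻¹
        group) }
  have hsm : ∀ (r : E) (t : Q), ((r • t : Q) : G) = r * t * (r : G)⁻¹ := fun _ _ => rfl
  have hdvd : ℓ ∣ Nat.card Q := by
    obtain ⟨k, hk⟩ := IsPGroup.iff_card.1 hQ
    rw [hk]
    apply dvd_pow_self
    intro h
    rw [h, pow_zero] at hk
    exact hQ1 ((Subgroup.card_eq_one).1 hk)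
  obtain ⟨x, hx, hne⟩ := hE.exists_fixed_point_of_prime_dvd_card_of_fixed_point Q hdvd
    (a := (1 : Q)) (by
      intro r
      apply Subtype.ext
      rw [hsm]
      simp)
  intro hbot
  apply hne
  have h1 : (x : G) ∈ Q ⊓ Subgroup.centralizer (E : Set G) := by
    refine Subgroup.mem_inf.2 ⟨x.2, ?_⟩
    rw [Subgroup.mem_centralizer_iff]
    intro r hr
    have h2 := congrArg Subtype.val (hx ⟨r, hr⟩)
    rw [hsm] at h2
    have h3 : r * (x : G) * r⁻¹ = x := h2
    calc r * (x : G) = r * (x : G) * r⁻¹ * r := by group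
      _ = x * r := by rw [h3]
  rw [hbot, Subgroup.mem_bot] at h1
  exact Subtype.ext h1.symm

theorem norm_inf {A B : Subgroup G} {g : G} (hA : g ∈ Subgroup.normalizer (A : Set G))
    (hB : g ∈ Subgroup.normalizer (B : Set G)) :
    g ∈ Subgroup.normalizer ((A ⊓ B : Subgroup G) : Set G) := by
  rw [Subgroup.mem_normalizer_iff] at hA hB ⊢
  intro h
  rw [Subgroup.mem_inf, Subgroup.mem_inf, hA, hB]

theorem norm_cent {A : Subgroup G} {g : G} (hA : g ∈ Subgroup.normalizer (A : Set G)) :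
    g ∈ Subgroup.normalizer ((Subgroup.centralizer (A : Set G) : Subgroup G) : Set G) := by
  rw [Subgroup.mem_normalizer_iff]
  intro h
  exact (H20.cent_conj_iff hA).symm

end lem

theorem sup (hnls : NlsStmt) : SupStmt := by
  intro ℓ F _ hF G _ _ N b e hNB he heb
  have : Fact ℓ.Prime := ⟨hF.prime⟩
  classical
  have hN := hNB.1
  have hbc := hNB.2.1
  have hbN := hNB.2.2.1
  -- part one
  have part1 : ∀ d ∈ chainsOn (psubIn ℓ (⊤ : Subgroup G)) ⊥, top d ⊓ N ≠ ⊥ →
      lnum (stab d) e = 0 := by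
    intro d hd hdN
    obtain ⟨hds, hbot, hch⟩ := mem_chainsOn.1 hd
    have hpg : ∀ D ∈ d, IsPGroup ℓ D := fun D hD => (mem_psubIn.1 (hds hD)).2
    obtain ⟨hT, hmax⟩ := H94.top_mem hch ⟨⊥, hbot⟩
    -- the smallest member meeting `N`
    obtain ⟨D, hD, hDmin⟩ := exists_least (d := d.filter (fun D => D ⊓ N ≠ ⊥))
      (hch.mono (fun y hy => Finset.mem_of_mem_filter y hy))
      ⟨top d, Finset.mem_filter.2 ⟨hT, hdN⟩⟩
    rw [Finset.mem_filter] at hD
    -- the largest member not meeting `N`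
    obtain ⟨E, hE, hEmax⟩ := exists_greatest (d := d.filter (fun D => D ⊓ N = ⊥))
      (hch.mono (fun y hy => Finset.mem_of_mem_filter y hy))
      ⟨⊥, Finset.mem_filter.2 ⟨hbot, bot_inf_eq _⟩⟩
    rw [Finset.mem_filter] at hE
    have hED : E ≤ D := by
      rcases chain_total hch hE.1 hD.1 with h | h
      · exact h
      · exact absurd (le_bot_iff.1 (hE.2 ▸ inf_le_inf_right N h)) hD.2
    have hnD : ∀ g ∈ stab d, ∀ D' ∈ d, g ∈ Subgroup.normalizer (D' : Set G) := fun g hg =>
      H94.mem_stab'.1 hg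
    have hNn : ∀ g : G, g ∈ Subgroup.normalizer (N : Set G) := fun g => by
      rw [Subgroup.normalizer_eq_top_iff.2 hN]; trivial
    obtain ⟨R, hR⟩ : ∃ R : Subgroup G, R = (D ⊓ N) ⊓ Subgroup.centralizer (E : Set G) := ⟨_, rfl⟩
    have hDNp : IsPGroup ℓ (D ⊓ N : Subgroup G) := (hpg D hD.1).to_le inf_le_left
    have hR1 : R ≠ ⊥ := by
      rw [hR]
      refine exists_cent hF.prime (hpg E hE.1) hDNp hD.2 ?_
      intro x hx
      exact norm_inf (Subgroup.le_normalizer (hED hx)) (hNn x)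
    have hRp : IsPGroup ℓ R := by rw [hR]; exact hDNp.to_le inf_le_left
    have hRN : R ≤ N := by rw [hR]; exact inf_le_left.trans inf_le_right
    have hRX : R ≤ stab d := by
      intro x hx
      rw [hR] at hx
      rw [H94.mem_stab']
      intro D' hD'
      by_cases h : D' ⊓ N = ⊥
      · have h1 := hEmax D' (Finset.mem_filter.2 ⟨hD', h⟩)
        have h2 : x ∈ Subgroup.centralizer (D' : Set G) :=
          Subgroup.centralizer_le (fun y hy => h1 hy) hx.2
        exact Subgroup.centralizer_le_normalizer _ h2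
      · have h1 := hDmin D' (Finset.mem_filter.2 ⟨hD', h⟩)
        exact Subgroup.le_normalizer (h1 hx.1.1)
    have hXR : stab d ≤ Subgroup.normalizer (R : Set G) := by
      intro g hg
      rw [hR]
      exact norm_inf (norm_inf (hnD g hg D hD.1) (hNn g)) (norm_cent (hnD g hg E hE.1))
    refine kill hnls hF he.1 hRX hXR hRp ?_
    intro g _ hg
    exact trunc hF hbc hbN he.1 heb hRp (fun n hn hnR => dzb_zero hF hNB hRN hRp hR1 hn hnR) hg
  have part2 : ∀ P : Subgroup G, IsPGroup ℓ P → P ⊓ N = ⊥ → ¬ Good ℓ N b P →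
      ∀ g ∈ Subgroup.centralizer (P : Set G), e g = 0 := by
    intro P hP hPN hgood g hg
    refine trunc hF hbc hbN he.1 heb hP (fun n hn hnP => ?_) hg
    by_contra hne
    exact hgood ⟨hP, hPN, n, hn, hnP, hne⟩
  refine ⟨part1, part2, ?_⟩
  intro d hd hnc hgood
  by_cases hdN : top d ⊓ N = ⊥
  · obtain ⟨hds, hbot, hch⟩ := mem_chainsOn.1 hd
    obtain ⟨hT, hmax⟩ := H94.top_mem hch ⟨⊥, hbot⟩
    have hp : IsPGroup ℓ (top d) := (mem_psubIn.1 (hds hT)).2
    refine kill hnls hF he.1 (R := top d) ?_ ?_ hp ?_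
    · intro x hx
      rw [H94.mem_stab']
      exact fun D hD => hnc D hD hx
    · intro g hg
      exact H94.mem_stab'.1 hg _ hT
    · intro g _ hg
      exact part2 (top d) hp hdN hgood g hg
  · exact part1 d hd hdN

end Pool.Agent.PP.H65
end
end -- Pool.Agent.Helper65_PP.Sup

section -- Pool.Agent.Helper9_PP.Add

/-!
# Squad PP, module ADD: additivity of the alternating sum, reduction to blocks
-/

open scoped BigOperators

noncomputable section

namespace Pool.Agent.PP.H9

open Pool.Agent.Helper51_AWC Pool.Agent.Helper79_WRA Pool.Agent.PP Pool.Agent.PP.H94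

section lnum

variable {F X : Type} [Field F] [Group X] [Finite X]

theorem actF_add (a b f : X → F) : actF (a + b) f = actF a f + actF b f := by
  funext x
  have := Fintype.ofFinite X
  simp only [actF, Pi.add_apply, finsum_eq_sum_of_fintype, add_mul, Finset.sum_add_distrib]

/-- additivity of the number of irreducible characters under orthogonal central idempotents -/
theorem ncard_add {ℓ : ℕ} (hF : GoodF ℓ F) (heig : EigStmt) (hibf : IbfStmt) {a b : X → F}
    (ha : IsIdem a) (hb : IsIdem b) (hab : mulF a b = 0) :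
    {f : X → F | f ∈ IBr F X ∧ actF (a + b) f = f}.ncard =
      {f : X → F | f ∈ IBr F X ∧ actF a f = f}.ncard +
        {f : X → F | f ∈ IBr F X ∧ actF b f = f}.ncard := by
  have hfin := (hibf ℓ F hF X).1
  have key : ∀ f ∈ IBr F X, ∃ w v : F, actF a f = w • f ∧ actF b f = v • f ∧ (w = 0 ∨ w = 1) ∧
      (v = 0 ∨ v = 1) ∧ w * v = 0 ∧ f ≠ 0 := by
    intro f hf
    have hne : f ≠ 0 := H65.ibr_ne_zero hF hf
    obtain ⟨n, ρ, hρ, rfl⟩ := hf
    obtain ⟨w, hw1, hw2, hw3⟩ := heig F X n ρ hρ a ha.1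
    obtain ⟨v, hv1, hv2, hv3⟩ := heig F X n ρ hρ b hb.1
    refine ⟨w, v, hw2, hv2, hw3 ha, hv3 hb, ?_, hne⟩
    have h1 : ev ρ (mulF a b) = ev ρ a * ev ρ b := ev_mulF ρ a b
    have h2 : ev ρ (0 : X → F) = 0 := by
      unfold ev
      simp
    rw [hab, h2, hw1, hv1] at h1
    have h3 := congrFun (congrFun h1 ⟨0, hρ.1⟩) ⟨0, hρ.1⟩
    rw [← map_mul] at h3
    simpa [Matrix.scalar_apply] using h3.symm
  have hun : {f : X → F | f ∈ IBr F X ∧ actF (a + b) f = f} =
      {f : X → F | f ∈ IBr F X ∧ actF a f = f} ∪ {f : X → F | f ∈ IBr F X ∧ actF b f = f} := by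
    ext f
    constructor
    · rintro ⟨hf, h⟩
      obtain ⟨w, v, hw, hv, hw01, hv01, hwv, hne⟩ := key f hf
      rw [actF_add, hw, hv] at h
      rcases hw01 with h0 | h0
      · rcases hv01 with h1 | h1
        · exfalso
          apply hne
          rw [← h, h0, h1, zero_smul, add_zero]
        · right
          exact ⟨hf, by rw [hv, h1, one_smul]⟩
      · left
        exact ⟨hf, by rw [hw, h0, one_smul]⟩
    · have hone : ∀ {w : F} {f : X → F}, f ≠ 0 → w • f = f → w = 1 := by
        intro w f hne h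
        by_contra hw
        apply hne
        have h1 : (w - 1) • f = 0 := by rw [sub_smul, h, one_smul, sub_self]
        exact (smul_eq_zero.1 h1).resolve_left (sub_ne_zero.2 hw)
      rintro (⟨hf, h⟩ | ⟨hf, h⟩)
      · obtain ⟨w, v, hw, hv, hw01, hv01, hwv, hne⟩ := key f hf
        refine ⟨hf, ?_⟩
        have hw1 : w = 1 := hone hne (by rw [← hw, h])
        rw [hw1, one_mul] at hwv
        rw [actF_add, hw, hv, hw1, hwv, one_smul, zero_smul, add_zero]
      · obtain ⟨w, v, hw, hv, hw01, hv01, hwv, hne⟩ := key f hf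
        refine ⟨hf, ?_⟩
        have hv1 : v = 1 := hone hne (by rw [← hv, h])
        rw [hv1, mul_one] at hwv
        rw [actF_add, hw, hv, hv1, hwv, one_smul, zero_smul, zero_add]
  rw [hun]
  apply Set.ncard_union_eq
  · rw [Set.disjoint_left]
    rintro f ⟨hf, h1⟩ ⟨-, h2⟩
    obtain ⟨w, v, hw, hv, hw01, hv01, hwv, hne⟩ := key f hf
    rcases mul_eq_zero.1 hwv with h0 | h0
    · apply hne
      rw [← h1, hw, h0, zero_smul]
    · apply hne
      rw [← h2, hv, h0, zero_smul]
  · exact hfin.subset fun f hf => hf.1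
  · exact hfin.subset fun f hf => hf.1

end lnum

section main

variable {ℓ : ℕ} {F G : Type} [Field F] [Group G] [Finite G]

theorem lnum_add (hF : GoodF ℓ F) (hnls : NlsStmt) (hbrm : BrmStmt) (heig : EigStmt)
    (hibf : IbfStmt) {R X : Subgroup G} (hR : IsPGroup ℓ R) (hRX : R ≤ X)
    (hCX : Subgroup.centralizer (R : Set G) ≤ X) (hXR : X ≤ Subgroup.normalizer (R : Set G))
    {e g : G → F} (he : IsIdem e) (hg : IsIdem g) (heg : mulF e g = 0) :
    lnum X (e + g) = lnum X e + lnum X g := by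
  obtain ⟨h1, h2, h3⟩ := hbrm ℓ F hF G R X hR hCX hXR
  have hcl : IsCl (e + g) := by
    intro x y
    rw [Pi.add_apply, Pi.add_apply, he.1, hg.1]
  rw [H96.lnum_br hF hnls hR hRX hXR hcl, H96.lnum_br hF hnls hR hRX hXR he.1,
    H96.lnum_br hF hnls hR hRX hXR hg.1]
  have hadd : (fun t : X => br R (e + g) t) = (fun t : X => br R e t) + fun t : X => br R g t := by
    funext t
    rw [Pi.add_apply]
    unfold br
    by_cases h : (t : G) ∈ Subgroup.centralizer (R : Set G)
    · rw [if_pos h, if_pos h, if_pos h]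
      rfl
    · rw [if_neg h, if_neg h, if_neg h, add_zero]
  have hmul : mulF (fun t : X => br R e t) (fun t : X => br R g t) = 0 := by
    rw [← h2, ← h1 e g he.1 hg.1, heg]
    funext t
    unfold br
    split_ifs <;> rfl
  unfold lnum
  rw [hadd]
  exact ncard_add hF heig hibf (h3 e he) (h3 g hg) hmul

theorem YY_add (hF : GoodF ℓ F) (hnch : NchStmt) (hnls : NlsStmt) (hbrm : BrmStmt)
    (heig : EigStmt) (hibf : IbfStmt) (Q : Subgroup G) {e g : G → F} (he : IsIdem e)
    (hg : IsIdem g) (heg : mulF e g = 0) : YY ℓ Q (e + g) = YY ℓ Q e + YY ℓ Q g := by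
  classical
  have : Fact ℓ.Prime := ⟨hF.prime⟩
  unfold YY
  have k : ∀ a : G → F, ∑ d ∈ chainsOn (psubIn ℓ Q) ⊥, (-1) ^ (d.card + 1) *
      ((Nat.card (stab d) : ℤ) * (lnum (stab d) a : ℤ)) =
      ∑ d ∈ (chainsOn (psubIn ℓ Q) ⊥).filter NormalChain, (-1) ^ (d.card + 1) *
      ((Nat.card (stab d) : ℤ) * (lnum (stab d) a : ℤ)) := fun a =>
    hnch ℓ G Q (fun X _ => (Nat.card X : ℤ) * (lnum X a : ℤ))
  rw [k, k, k, ← Finset.sum_add_distrib]
  apply Finset.sum_congr rfl
  intro d hd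
  rw [Finset.mem_filter] at hd
  obtain ⟨hd, hn⟩ := hd
  obtain ⟨c1, c2, c3⟩ := mem_chainsOn.1 hd
  obtain ⟨t1, t2⟩ := top_mem c3 ⟨_, c2⟩
  have htp : IsPGroup ℓ (top d) := (mem_psubIn.1 (c1 t1)).2
  have hRX : top d ≤ stab d := by
    intro x hx
    rw [mem_stab']
    intro D hD
    exact hn D hD hx
  have hXR : stab d ≤ Subgroup.normalizer (top d : Set G) := by
    intro x hx
    exact (mem_stab'.1 hx) _ t1
  have hCX : Subgroup.centralizer (top d : Set G) ≤ stab d := by
    intro x hx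
    rw [Subgroup.mem_centralizer_iff] at hx
    rw [mem_stab']
    intro D hD
    rw [Subgroup.mem_normalizer_iff]
    intro y
    constructor
    · intro hy
      rw [← hx y (t2 D hD hy), mul_inv_cancel_right]
      exact hy
    · intro hy
      have h1 := hx _ (t2 D hD hy)
      have h2 : x * y * x⁻¹ * x = x * y := by group
      rw [h2] at h1
      have h3 : x * y * x⁻¹ = y := by
        calc x * y * x⁻¹ = x⁻¹ * (x * (x * y * x⁻¹)) := by group
          _ = x⁻¹ * (x * y) := by rw [← h1]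
          _ = y := by group
      rwa [h3] at hy
  rw [lnum_add hF hnls hbrm heig hibf htp hRX hCX hXR he hg heg]
  push_cast
  ring

end main

/-- ADD -/
theorem add (hnch : NchStmt) (hnls : NlsStmt) (hbrm : BrmStmt) (heig : EigStmt) (hibf : IbfStmt) :
    AddStmt := by
  intro ℓ F _ hF G _ _ Q hQ e he
  refine H46.idem_induction (fun e => (∀ f : G → F, IsBlk f → mulF e f = f → YY ℓ Q f = 0) →
    YY ℓ Q e = 0) ?_ ?_ ?_ e he
  · intro _
    have h := YY_add hF hnch hnls hbrm heig hibf Q (H46.isIdem_zero (F := F) (H := G))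
      H46.isIdem_zero (H46.mulF_zero 0)
    rw [add_zero] at h
    linarith
  · intro b hb h
    exact h b hb hb.1.2
  · intro e₁ e₂ h1 h2 h12 p1 p2 h
    have h21 : mulF e₂ e₁ = 0 := by rw [← H46.mulF_comm h1.1, h12]
    have hd : ∀ f : G → F, mulF (e₁ + e₂) f = mulF e₁ f + mulF e₂ f := by
      intro f
      apply ma_injective
      rw [ma_mul, ma_add, ma_add, ma_mul, ma_mul, add_mul]
    have hz : ∀ f : G → F, mulF (0 : G → F) f = 0 := by
      intro f
      apply ma_injective
      rw [ma_mul, ma_zero, zero_mul]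
    rw [YY_add hF hnch hnls hbrm heig hibf Q h1 h2 h12, p1, p2, add_zero]
    · intro f hf hfe
      apply h f hf
      rw [hd, hfe]
      have : mulF e₁ f = 0 := by rw [← hfe, ← mulF_assoc, h12, hz]
      rw [this, zero_add]
    · intro f hf hfe
      apply h f hf
      rw [hd, hfe]
      have : mulF e₂ f = 0 := by rw [← hfe, ← mulF_assoc, h21, hz]
      rw [this, add_zero]

/-- ADD without hypotheses -/
theorem addStmt : AddStmt := add nch H20.nls H20.brm H20.eig H20.ibf

end Pool.Agent.PP.H9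
end
end -- Pool.Agent.Helper9_PP.Add
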