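import Pool.Agent.Helper98_CC.Stmts

/-!
# Merged copies (generated) of the modules

* `Pool.Agent.Helper75_WRA.Box`
* `Pool.Agent.Helper75_WRA.Trans`
* `Pool.Agent.Helper75_WRA.Twist`
* `Pool.Agent.Helper75_WRA.Lam`
* `Pool.Agent.Helper36_WRA.Lambda2`
* `Pool.Agent.Helper36_WRA.Sumc`
* `Pool.Agent.Helper62_WRA.Mzero1`
* `Pool.Agent.Helper62_WRA.Mzero2`
* `Pool.Agent.Helper62_WRA.Mzero3`
* `Pool.Agent.Helper62_WRA.Mzero`
* `Pool.Agent.Helper29_CC.Boxt`
-/

set_option autoImplicit false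

section -- Pool.Agent.Helper75_WRA.Box

/-!
WRA, module BOX: only the chains of boxes matter.
-/

open scoped BigOperators

noncomputable section

namespace Pool.Agent.Helper79_WRA.H75

open Pool.Agent.Helper51_AWC

section phi

variable {G Δ K : Type} [Group G] [Group K] [MulAction K Δ]

/-- conjugation by `t` on the base group -/
def phi (t : Wreath G Δ K) : (Δ → G) →* (Δ → G) where
  toFun y := fun j => t.f j * y (t.s⁻¹ • j) * (t.f j)⁻¹
  map_one' := by funext j; simp
  map_mul' x y := by funext j; simp [mul_assoc]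

theorem phi_apply (t : Wreath G Δ K) (y : Δ → G) (j : Δ) :
    phi t y j = t.f j * y (t.s⁻¹ • j) * (t.f j)⁻¹ := rfl

theorem base_phi (t : Wreath G Δ K) (y : Δ → G) :
    Wreath.base (phi t y) = t * Wreath.base y * t⁻¹ := by
  apply Wreath.ext
  · funext j
    rw [Wreath.conj_f, Wreath.base_s, inv_one, mul_one, mul_inv_cancel, one_smul]
    rfl
  · rw [Wreath.conj_s, Wreath.base_s, Wreath.base_s, mul_one, mul_inv_cancel]

theorem conjS_base (t : Wreath G Δ K) (D : Subgroup (Δ → G)) :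
    conjS t (D.map Wreath.base) = (D.map (phi t)).map Wreath.base := by
  ext x
  constructor
  · intro hx
    rw [mem_conjS] at hx
    obtain ⟨y, hy, hyx⟩ := hx
    refine ⟨phi t y, ⟨y, hy, rfl⟩, ?_⟩
    rw [base_phi, hyx]
    group
  · rintro ⟨z, ⟨y, hy, rfl⟩, rfl⟩
    rw [mem_conjS, base_phi]
    refine ⟨y, hy, ?_⟩
    group

theorem mem_stabB {v : Finset (Subgroup (Δ → G))} {t : Wreath G Δ K} :
    t ∈ stabB K v ↔ ∀ R ∈ v, R.map (phi t) = R := by
  unfold stabB
  simp only [Subgroup.mem_iInf, mem_normalizer_iff_conjS]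
  constructor
  · intro h R hR
    have := h R hR
    rw [conjS_base] at this
    exact Subgroup.map_injective Wreath.base_injective this
  · intro h R hR
    rw [conjS_base, h R hR]

theorem map_phi_pi (t : Wreath G Δ K) (R : Δ → Subgroup G) :
    (Subgroup.pi Set.univ R).map (phi t) =
      Subgroup.pi Set.univ (fun j => conjS (t.f j) (R (t.s⁻¹ • j))) := by
  ext x
  rw [Subgroup.mem_pi]
  constructor
  · rintro ⟨y, hy, rfl⟩ j -
    rw [mem_conjS, phi_apply]
    have := (Subgroup.mem_pi _).1 hy (t.s⁻¹ • j) (Set.mem_univ _)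
    have e : (t.f j)⁻¹ * (t.f j * y (t.s⁻¹ • j) * (t.f j)⁻¹) * t.f j = y (t.s⁻¹ • j) := by group
    rw [e]
    exact this
  · intro h
    refine ⟨fun j => (t.f (t.s • j))⁻¹ * x (t.s • j) * t.f (t.s • j), ?_, ?_⟩
    · intro j _
      have := h (t.s • j) (Set.mem_univ _)
      rw [mem_conjS, inv_smul_smul] at this
      exact this
    · funext j
      rw [phi_apply, smul_inv_smul]
      group

/-- the closure operator -/
def clo (D : Subgroup (Δ → G)) : Subgroup (Δ → G) :=
  Subgroup.pi Set.univ (fun j => D.map (Pi.evalMonoidHom (fun _ : Δ => G) j))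

theorem le_clo (D : Subgroup (Δ → G)) : D ≤ clo D := by
  intro x hx j _
  exact ⟨x, hx, rfl⟩

theorem clo_mono {D E : Subgroup (Δ → G)} (h : D ≤ E) : clo D ≤ clo E := by
  intro x hx j hj
  exact Subgroup.map_mono h (hx j hj)

open Classical in
theorem map_eval_pi (R : Δ → Subgroup G) (j : Δ) :
    (Subgroup.pi Set.univ R).map (Pi.evalMonoidHom (fun _ : Δ => G) j) = R j := by
  ext x
  constructor
  · rintro ⟨y, hy, rfl⟩; exact hy j (Set.mem_univ _)
  · intro hx
    refine ⟨Pi.mulSingle j x, ?_, ?_⟩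
    · intro i _
      by_cases h : i = j
      · subst h; rw [Pi.mulSingle_eq_same]; exact hx
      · rw [Pi.mulSingle_eq_of_ne h]; exact (R i).one_mem
    · show (Pi.mulSingle j x : Δ → G) j = x
      rw [Pi.mulSingle_eq_same]

theorem clo_pi (R : Δ → Subgroup G) : clo (Subgroup.pi Set.univ R) = Subgroup.pi Set.univ R := by
  unfold clo
  congr 1
  funext j
  exact map_eval_pi R j

theorem clo_clo (D : Subgroup (Δ → G)) : clo (clo D) = clo D := clo_pi _

theorem map_phi_clo {t : Wreath G Δ K} {D : Subgroup (Δ → G)} (h : D.map (phi t) = D) :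
    (clo D).map (phi t) = clo D := by
  unfold clo
  rw [map_phi_pi]
  congr 1
  funext j
  conv_rhs => rw [← h]
  ext x
  rw [mem_conjS]
  constructor
  · rintro ⟨y, hy, hyx⟩
    refine ⟨phi t y, ⟨y, hy, rfl⟩, ?_⟩
    have hyx' : y (t.s⁻¹ • j) = (t.f j)⁻¹ * x * t.f j := hyx
    show phi t y j = x
    rw [phi_apply, hyx']
    group
  · rintro ⟨z, ⟨y, hy, rfl⟩, rfl⟩
    refine ⟨y, hy, ?_⟩
    show y (t.s⁻¹ • j) = (t.f j)⁻¹ * (t.f j * y (t.s⁻¹ • j) * (t.f j)⁻¹) * t.f j
    group

/-- boxes as subgroups -/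
def boxE (G Δ : Type) [Group G] : (Δ → Subgroup G) ↪o Subgroup (Δ → G) where
  toFun R := Subgroup.pi Set.univ R
  inj' := by
    intro R S h
    funext j
    have h' : Subgroup.pi Set.univ R = Subgroup.pi Set.univ S := h
    rw [← map_eval_pi R j, h', map_eval_pi]
  map_rel_iff' := by
    intro R S
    constructor
    · intro h j
      have h' : Subgroup.pi Set.univ R ≤ Subgroup.pi Set.univ S := h
      have := Subgroup.map_mono (f := Pi.evalMonoidHom (fun _ : Δ => G) j) h'
      rwa [map_eval_pi, map_eval_pi] at this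
    · intro h x hx j hj
      exact h j (hx j hj)

theorem boxE_apply (R : Δ → Subgroup G) : boxE G Δ R = Subgroup.pi Set.univ R := rfl

theorem boxE_bot : boxE G Δ (fun _ => ⊥) = ⊥ := by
  rw [boxE_apply, eq_bot_iff]
  intro x hx
  rw [Subgroup.mem_bot]
  funext j
  exact Subgroup.mem_bot.1 (hx j (Set.mem_univ _))

theorem isPGroup_pi [Finite Δ] {ℓ : ℕ} {R : Δ → Subgroup G} (h : ∀ j, IsPGroup ℓ (R j)) :
    IsPGroup ℓ (Subgroup.pi Set.univ R) := by
  classical
  have := Fintype.ofFinite Δ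
  rintro ⟨x, hx⟩
  choose n hn using fun j => h j ⟨x j, hx j (Set.mem_univ _)⟩
  refine ⟨∑ j, n j, ?_⟩
  apply Subtype.ext
  show x ^ ℓ ^ (∑ j, n j) = 1
  funext j
  have h1 : x j ^ ℓ ^ n j = 1 := congrArg Subtype.val (hn j)
  show x j ^ ℓ ^ (∑ j, n j) = 1
  obtain ⟨m, hm⟩ := Nat.exists_eq_add_of_le
    (Finset.single_le_sum (f := n) (fun _ _ => Nat.zero_le _) (Finset.mem_univ j))
  rw [hm, pow_add, pow_mul, h1, one_pow]

theorem stabB_box (v : Finset (Δ → Subgroup G)) :
    stabB K (v.map (boxE G Δ).toEmbedding) = boxStab K v := by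
  ext t
  rw [mem_stabB, mem_boxStab]
  constructor
  · intro h R hR j
    have h1 := h _ (Finset.mem_map_of_mem _ hR)
    have h2 : (Subgroup.pi Set.univ R).map (phi t) = Subgroup.pi Set.univ R := h1
    rw [map_phi_pi] at h2
    exact congrFun ((boxE G Δ).injective h2) j
  · intro h D hD
    obtain ⟨R, hR, rfl⟩ := Finset.mem_map.1 hD
    show (Subgroup.pi Set.univ R).map (phi t) = Subgroup.pi Set.univ R
    rw [map_phi_pi]
    congr 1
    funext j
    exact h R hR j

end phi

open Classical in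
/-- BOX -/
theorem box : BoxStmt := by
  intro ℓ _ G Δ K _ _ _ _ _ _ hcore w
  rw [sum_closure (psubIn ℓ (⊤ : Subgroup (Δ → G))) ⊥ clo]
  · have h1 : (chainsOn (psubIn ℓ (⊤ : Subgroup (Δ → G))) ⊥).filter (fun d => ∀ x ∈ d, clo x = x) =
        chainsOn ((boxes ℓ G Δ).map (boxE G Δ).toEmbedding) (boxE G Δ (fun _ => ⊥)) := by
      ext d
      rw [Finset.mem_filter, mem_chainsOn, mem_chainsOn, boxE_bot]
      constructor
      · rintro ⟨⟨l1, l2, l3⟩, l4⟩
        refine ⟨?_, l2, l3⟩
        intro D hD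
        rw [Finset.mem_map]
        refine ⟨fun j => D.map (Pi.evalMonoidHom (fun _ : Δ => G) j), ?_, l4 D hD⟩
        rw [mem_boxes]
        intro j
        rw [mem_psub, hcore]
        exact ⟨bot_le, (mem_psubIn.1 (l1 hD)).2.map _⟩
      · rintro ⟨l1, l2, l3⟩
        refine ⟨⟨?_, l2, l3⟩, ?_⟩
        · intro D hD
          obtain ⟨R, hR, rfl⟩ := Finset.mem_map.1 (l1 hD)
          rw [mem_psubIn]
          refine ⟨le_top, isPGroup_pi (fun j => (mem_psub.1 (mem_boxes.1 hR j)).2)⟩
        · intro D hD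
          obtain ⟨R, hR, rfl⟩ := Finset.mem_map.1 (l1 hD)
          exact clo_pi R
    rw [h1, sum_chainsOn_map]
    apply Finset.sum_congr rfl
    intro v _
    rw [Finset.card_map, stabB_box]
  · intro D hD
    rw [mem_psubIn] at hD ⊢
    exact ⟨le_top, isPGroup_pi (fun j => hD.2.map _)⟩
  · intro D _; exact le_clo D
  · intro D _ E _ h; exact clo_mono h
  · intro D _; exact clo_clo D
  · have := clo_pi (G := G) (Δ := Δ) (fun _ => ⊥)
    rw [← boxE_bot]
    exact this
  · intro D _; exact bot_le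
  · intro d _ D hD hDn
    have h1 : stabB K (insert (clo D) d) = stabB K d := by
      ext t
      rw [mem_stabB, mem_stabB]
      constructor
      · intro h R hR; exact h R (Finset.mem_insert_of_mem hR)
      · intro h R hR
        rcases Finset.mem_insert.1 hR with rfl | hR
        · exact map_phi_clo (h D hD)
        · exact h R hR
    rw [h1, Finset.card_insert_of_notMem hDn]
    ring

end Pool.Agent.Helper79_WRA.H75
end
end -- Pool.Agent.Helper75_WRA.Box

section -- Pool.Agent.Helper75_WRA.Trans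

/-!
WRA, module TRANS: transport of the inner sum to the smaller wreath product.
-/

open scoped BigOperators

noncomputable section

namespace Pool.Agent.Helper79_WRA.H75

open Pool.Agent.Helper51_AWC

/-- the order embedding of subgroups given by an injective homomorphism -/
def mapO {A B : Type} [Group A] [Group B] (f : A →* B) (hf : Function.Injective f) :
    Subgroup A ↪o Subgroup B where
  toFun D := D.map f
  inj' := Subgroup.map_injective hf
  map_rel_iff' := Subgroup.map_le_map_iff_of_injective hf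

theorem mapO_apply {A B : Type} [Group A] [Group B] (f : A →* B) (hf : Function.Injective f)
    (D : Subgroup A) : mapO f hf D = D.map f := rfl

theorem conjS_map_hom {A B : Type} [Group A] [Group B] (f : A →* B) (g : A) (D : Subgroup A) :
    conjS (f g) (D.map f) = (conjS g D).map f := by
  ext x
  constructor
  · intro hx
    rw [mem_conjS] at hx
    obtain ⟨y, hy, hyx⟩ := hx
    refine ⟨g * y * g⁻¹, ?_, ?_⟩
    · rw [SetLike.mem_coe, mem_conjS]
      have e : g⁻¹ * (g * y * g⁻¹) * g = y := by group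
      rw [e]; exact hy
    · rw [map_mul, map_mul, map_inv, hyx]; group
  · rintro ⟨y, hy, rfl⟩
    rw [SetLike.mem_coe, mem_conjS] at hy
    rw [mem_conjS]
    refine ⟨_, hy, ?_⟩
    rw [map_mul, map_mul, map_inv]

/-- TRANS -/
theorem trans : TransStmt := by
  intro ℓ _ Γ G Δ K _ _ _ _ _ _ _ _ N w c ι hι hr hc
  have hinj : Function.Injective (ι.comp (Wreath.base : (Δ → G) →* Wreath G Δ K)) := by
    rw [MonoidHom.coe_comp]
    exact hι.comp Wreath.base_injective
  have hps : psubIn ℓ (cent N c) =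
      (psubIn ℓ (⊤ : Subgroup (Δ → G))).map (mapO _ hinj).toEmbedding := by
    ext D
    rw [mem_psubIn, Finset.mem_map]
    constructor
    · rintro ⟨h1, h2⟩
      rw [hc] at h1
      refine ⟨D.comap (ι.comp Wreath.base), ?_, ?_⟩
      · rw [mem_psubIn]
        exact ⟨le_top, h2.comap_of_injective _ hinj⟩
      · show (D.comap (ι.comp Wreath.base)).map (ι.comp Wreath.base) = D
        rw [Subgroup.map_comap_eq]
        exact inf_eq_right.2 h1
    · rintro ⟨E, hE, rfl⟩
      rw [mem_psubIn] at hE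
      rw [hc]
      refine ⟨?_, hE.2.map _⟩
      rintro x ⟨y, _, rfl⟩
      exact ⟨y, rfl⟩
  have hst : ∀ v : Finset (Subgroup (Δ → G)),
      stab c ⊓ stab (v.map (mapO _ hinj).toEmbedding) = (stabB K v).map ι := by
    intro v
    have key : ∀ t : Wreath G Δ K, ι t ∈ stab (v.map (mapO _ hinj).toEmbedding) ↔
        t ∈ stabB K v := by
      intro t
      rw [mem_stab, mem_stabB]
      have h1 : ∀ R : Subgroup (Δ → G), conjS (ι t) (mapO _ hinj R) = mapO _ hinj (R.map (phi t)) := by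
        intro R
        rw [mapO_apply, mapO_apply, ← Subgroup.map_map, ← Subgroup.map_map, conjS_map_hom,
          conjS_base]
      constructor
      · intro h R hR
        have h2 := h _ (Finset.mem_map_of_mem _ hR)
        exact (mapO _ hinj).injective ((h1 R).symm.trans h2)
      · intro h D hD
        obtain ⟨R, hR, rfl⟩ := Finset.mem_map.1 hD
        show conjS (ι t) (mapO _ hinj R) = mapO _ hinj R
        rw [h1, h R hR]
    ext x
    rw [Subgroup.mem_inf, ← hr]
    constructor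
    · rintro ⟨⟨t, rfl⟩, h2⟩
      exact ⟨t, (key t).1 h2, rfl⟩
    · rintro ⟨t, ht, rfl⟩
      exact ⟨⟨t, rfl⟩, (key t).2 ht⟩
  have hbot : (⊥ : Subgroup Γ) = mapO _ hinj ⊥ := by
    rw [mapO_apply, Subgroup.map_bot]
  unfold tsum
  rw [hps, hbot, sum_chainsOn_map]
  apply Finset.sum_congr rfl
  intro v _
  rw [Finset.card_map, hst]

end Pool.Agent.Helper79_WRA.H75
end
end -- Pool.Agent.Helper75_WRA.Trans

section -- Pool.Agent.Helper75_WRA.Twist

/-!
WRA, module TWIST: a chain of `ℓ`-subgroups is conjugate into the top group, or its centraliser in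
the base group has a nontrivial normal `ℓ`-subgroup.
-/

open scoped BigOperators

noncomputable section

namespace Pool.Agent.Helper79_WRA.H75

open Pool.Agent.Helper51_AWC

section

variable {G Ω L : Type} [Group G] [Group L] [MulAction L Ω]

theorem pow_fix {p : Wreath G Ω L} {i : Ω} (h : p.s • i = i) (n : ℕ) :
    (p ^ n).s • i = i ∧ (p ^ n).f i = (p.f i) ^ n := by
  have h' : p.s⁻¹ • i = i := by
    conv_lhs => rw [← h]
    rw [inv_smul_smul]
  induction n with
  | zero => simp only [pow_zero, Wreath.one_s, one_smul, Wreath.one_f, and_self]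
  | succ n ih =>
    rw [pow_succ', Wreath.mul_s, Wreath.mul_f, mul_smul, ih.1, h, h', ih.2, pow_succ']
    exact ⟨rfl, rfl⟩

/-- the group of the values at `i` of the elements of `P` fixing `i` -/
def Qgrp (P : Subgroup (Wreath G Ω L)) (i : Ω) : Subgroup G where
  carrier := {g | ∃ p ∈ P, p.s • i = i ∧ p.f i = g}
  one_mem' := ⟨1, P.one_mem, by rw [Wreath.one_s, one_smul], rfl⟩
  mul_mem' := by
    rintro a b ⟨p, hp, hpi, rfl⟩ ⟨q, hq, hqi, rfl⟩
    have h' : p.s⁻¹ • i = i := by
      conv_lhs => rw [← hpi]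
      rw [inv_smul_smul]
    refine ⟨p * q, P.mul_mem hp hq, ?_, ?_⟩
    · rw [Wreath.mul_s, mul_smul, hqi, hpi]
    · rw [Wreath.mul_f, h']
  inv_mem' := by
    rintro a ⟨p, hp, hpi, rfl⟩
    have h' : p.s⁻¹ • i = i := by
      conv_lhs => rw [← hpi]
      rw [inv_smul_smul]
    refine ⟨p⁻¹, P.inv_mem hp, ?_, ?_⟩
    · rw [Wreath.inv_s, h']
    · rw [Wreath.inv_f, hpi]

theorem mem_Qgrp {P : Subgroup (Wreath G Ω L)} {i : Ω} {g : G} :
    g ∈ Qgrp P i ↔ ∃ p ∈ P, p.s • i = i ∧ p.f i = g := Iff.rfl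

theorem Qgrp_pgroup {ℓ : ℕ} {P : Subgroup (Wreath G Ω L)} (hP : IsPGroup ℓ P) (i : Ω) :
    IsPGroup ℓ (Qgrp P i) := by
  rintro ⟨g, p, hp, hpi, rfl⟩
  obtain ⟨k, hk⟩ := hP ⟨p, hp⟩
  refine ⟨k, ?_⟩
  apply Subtype.ext
  show (p.f i) ^ ℓ ^ k = 1
  have h1 : p ^ ℓ ^ k = 1 := congrArg Subtype.val hk
  rw [← (pow_fix hpi _).2, h1, Wreath.one_f]

/-- the values of two elements of `P` with the same effect at `i` differ by an element of `Q i` -/
theorem same_effect {P : Subgroup (Wreath G Ω L)} {i j : Ω} {p q : Wreath G Ω L} (hp : p ∈ P)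
    (hq : q ∈ P) (hpi : p.s • i = j) (hqi : q.s • i = j) :
    ∃ g ∈ Qgrp P i, q.f j = p.f j * g := by
  have hpj : p.s⁻¹ • j = i := by rw [← hpi, inv_smul_smul]
  refine ⟨(p⁻¹ * q).f i, ⟨p⁻¹ * q, P.mul_mem (P.inv_mem hp) hq, ?_, rfl⟩, ?_⟩
  · rw [Wreath.mul_s, Wreath.inv_s, mul_smul, hqi, hpj]
  · rw [Wreath.mul_f, Wreath.inv_f, Wreath.inv_s, inv_inv, hpi]
    group

theorem base_conj_f (g : Ω → G) (q : Wreath G Ω L) (j : Ω) :
    (Wreath.base g * q * (Wreath.base g)⁻¹).f j = g j * q.f j * (g (q.s⁻¹ • j))⁻¹ := by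
  rw [Wreath.conj_f, Wreath.base_s, Wreath.base_f]
  simp only [inv_one, one_smul, one_mul, mul_one]

theorem conj_base_f (u : Ω → G) (q : Wreath G Ω L) (j : Ω) :
    (q * Wreath.base u * q⁻¹).f j = q.f j * u (q.s⁻¹ • j) * (q.f j)⁻¹ := by
  rw [Wreath.conj_f, Wreath.base_s, Wreath.base_f]
  simp only [inv_one, mul_one, mul_inv_cancel, one_smul]

end

/-- TWIST -/
theorem twist : TwistStmt := by
  classical
  intro ℓ _ G Ω L _ _ _ _ _ _ c hp hne hch _
  obtain ⟨P, hPc, hPmax⟩ := exists_greatest hch hne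
  have hPp := hp P hPc
  by_cases hQ : ∀ i : Ω, Qgrp P i = ⊥
  · right
    -- representatives of the orbits
    let S : Setoid Ω :=
      { r := fun i j => ∃ p ∈ P, p.s • i = j
        iseqv := by
          refine ⟨fun i => ⟨1, P.one_mem, by rw [Wreath.one_s, one_smul]⟩, ?_, ?_⟩
          · rintro i j ⟨p, hp, rfl⟩
            exact ⟨p⁻¹, P.inv_mem hp, by rw [Wreath.inv_s, inv_smul_smul]⟩
          · rintro i j k ⟨p, hp, rfl⟩ ⟨q, hq, rfl⟩
            exact ⟨q * p, P.mul_mem hq hp, by rw [Wreath.mul_s, mul_smul]⟩ }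
    let rep : Ω → Ω := fun j => (Quotient.mk S j).out
    have hrep : ∀ j, ∃ p ∈ P, p.s • rep j = j := by
      intro j
      exact Quotient.exact (s := S) (Quotient.out_eq (Quotient.mk S j))
    have hrep2 : ∀ q ∈ P, ∀ j, rep (q.s⁻¹ • j) = rep j := by
      intro q hq j
      have : Quotient.mk S (q.s⁻¹ • j) = Quotient.mk S j :=
        Quotient.sound (s := S) ⟨q, hq, by rw [smul_inv_smul]⟩
      show (Quotient.mk S (q.s⁻¹ • j)).out = (Quotient.mk S j).out
      rw [this]
    choose t ht1 ht2 using hrep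
    have hkey : ∀ q ∈ P, ∀ j, (t j).f j = q.f j * (t (q.s⁻¹ • j)).f (q.s⁻¹ • j) := by
      intro q hq j
      have h1 : (q * t (q.s⁻¹ • j)).s • rep j = j := by
        rw [Wreath.mul_s, mul_smul, ← hrep2 q hq j, ht2, smul_inv_smul]
      obtain ⟨g, hg, hge⟩ := same_effect (P := P) (i := rep j) (j := j)
        (P.mul_mem hq (ht1 (q.s⁻¹ • j))) (ht1 j) h1 (ht2 j)
      rw [hQ, Subgroup.mem_bot] at hg
      rw [hge, hg, mul_one, Wreath.mul_f]
    refine ⟨fun j => ((t j).f j)⁻¹, ?_⟩
    intro D hD x hx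
    rw [mem_conjS] at hx
    rw [Wreath.mem_top_range]
    intro j
    set g : Ω → G := fun j => ((t j).f j)⁻¹ with hg
    have hq : (Wreath.base g)⁻¹ * x * Wreath.base g ∈ P := hPmax D hD hx
    generalize hqe : (Wreath.base g)⁻¹ * x * Wreath.base g = q at hq
    have hx2 : x = Wreath.base g * q * (Wreath.base g)⁻¹ := by rw [← hqe]; group
    rw [hx2, base_conj_f]
    simp only [hg, inv_inv]
    rw [mul_assoc, ← hkey q hq j, inv_mul_cancel]
  · left
    push Not at hQ
    obtain ⟨i, hi⟩ := hQ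
    have hnt : Nontrivial (Qgrp P i) := (Subgroup.nontrivial_iff_ne_bot _).2 hi
    have hcen := (Qgrp_pgroup hPp i).center_nontrivial
    obtain ⟨⟨⟨z, hzQ⟩, hzc⟩, hz1⟩ := exists_ne (1 : Subgroup.center (Qgrp P i))
    have hzne : z ≠ 1 := by
      intro h
      apply hz1
      apply Subtype.ext
      apply Subtype.ext
      exact h
    have hzcomm : ∀ g ∈ Qgrp P i, g * z = z * g := by
      intro g hg
      have := Subgroup.mem_center_iff.1 hzc ⟨g, hg⟩
      exact congrArg Subtype.val this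
    -- the element of the base group
    let w : Ω → G := fun j =>
      if h : ∃ p ∈ P, p.s • i = j then (h.choose).f j * z * ((h.choose).f j)⁻¹ else 1
    have hw : ∀ p ∈ P, ∀ j, p.s • i = j → w j = p.f j * z * (p.f j)⁻¹ := by
      intro p hp j hj
      have hex : ∃ p ∈ P, p.s • i = j := ⟨p, hp, hj⟩
      have e : w j = (hex.choose).f j * z * ((hex.choose).f j)⁻¹ := dif_pos hex
      obtain ⟨h1, h2⟩ := hex.choose_spec
      obtain ⟨g, hg, hge⟩ := same_effect hp h1 hj h2
      rw [e, hge]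
      have h3 : p.f j * g * z * (p.f j * g)⁻¹ = p.f j * (g * z * g⁻¹) * (p.f j)⁻¹ := by group
      rw [h3, hzcomm g hg, mul_inv_cancel_right]
    have hw0 : ∀ j, (¬ ∃ p ∈ P, p.s • i = j) → w j = 1 := fun j hj => dif_neg hj
    have hwi : w i = z := by
      have := hw 1 P.one_mem i (by rw [Wreath.one_s, one_smul])
      rw [this, Wreath.one_f, one_mul, inv_one, mul_one]
    -- it centralises `P`
    have hwP : ∀ q ∈ P, q * Wreath.base w * q⁻¹ = Wreath.base w := by
      intro q hq
      apply Wreath.ext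
      · funext j
        rw [conj_base_f, Wreath.base_f]
        by_cases hj : ∃ p ∈ P, p.s • i = j
        · obtain ⟨p, hp, hpj⟩ := hj
          have h1 := hw (q⁻¹ * p) (P.mul_mem (P.inv_mem hq) hp) (q.s⁻¹ • j) (by
            rw [Wreath.mul_s, Wreath.inv_s, mul_smul, hpj])
          rw [h1, hw p hp j hpj]
          have h2 : (q⁻¹ * p).f (q.s⁻¹ • j) = (q.f j)⁻¹ * p.f j := by
            rw [Wreath.mul_f, Wreath.inv_f, Wreath.inv_s, inv_inv, smul_inv_smul]
          rw [h2]
          group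
        · rw [hw0 j hj, hw0 (q.s⁻¹ • j)]
          · group
          · rintro ⟨p, hp, hpj⟩
            exact hj ⟨q * p, P.mul_mem hq hp, by rw [Wreath.mul_s, mul_smul, hpj, smul_inv_smul]⟩
      · rw [Wreath.conj_s, Wreath.base_s, mul_one, mul_inv_cancel]
    have hwW : (Wreath.base w : Wreath G Ω L) ∈
        cent (Wreath.base : (Ω → G) →* Wreath G Ω L).range c := by
      unfold cent
      rw [Subgroup.mem_inf]
      refine ⟨⟨w, rfl⟩, ?_⟩
      simp only [Subgroup.mem_iInf]
      intro D hD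
      rw [Subgroup.mem_centralizer_iff]
      intro q hq
      have := hwP q (hPmax D hD hq)
      exact mul_inv_eq_iff_eq_mul.1 this
    -- it is central
    have hcent : ∀ x ∈ cent (Wreath.base : (Ω → G) →* Wreath G Ω L).range c,
        x * Wreath.base w = Wreath.base w * x := by
      intro x hx
      unfold cent at hx
      rw [Subgroup.mem_inf] at hx
      obtain ⟨⟨u, rfl⟩, hx2⟩ := hx
      simp only [Subgroup.mem_iInf] at hx2
      have hu : ∀ q ∈ P, ∀ j, q.f j * u (q.s⁻¹ • j) * (q.f j)⁻¹ = u j := by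
        intro q hq j
        have h1 := Subgroup.mem_centralizer_iff.1 (hx2 P hPc) q hq
        have h2 : q * Wreath.base u * q⁻¹ = Wreath.base u := mul_inv_eq_iff_eq_mul.2 h1
        rw [← conj_base_f, h2, Wreath.base_f]
      have hui : u i * z = z * u i := by
        obtain ⟨p, hp, hpi, rfl⟩ := hzQ
        have h' : p.s⁻¹ • i = i := by
          conv_lhs => rw [← hpi]
          rw [inv_smul_smul]
        have := hu p hp i
        rw [h'] at this
        exact (mul_inv_eq_iff_eq_mul.1 this).symm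
      rw [← map_mul, ← map_mul]
      congr 1
      funext j
      show u j * w j = w j * u j
      by_cases hj : ∃ p ∈ P, p.s • i = j
      · obtain ⟨p, hp, hpj⟩ := hj
        have h1 : p.s⁻¹ • j = i := by rw [← hpj, inv_smul_smul]
        have h2 := hu p hp j
        rw [h1] at h2
        rw [hw p hp j hpj, ← h2]
        have e1 : p.f j * u i * (p.f j)⁻¹ * (p.f j * z * (p.f j)⁻¹) =
            p.f j * (u i * z) * (p.f j)⁻¹ := by group
        have e2 : p.f j * z * (p.f j)⁻¹ * (p.f j * u i * (p.f j)⁻¹) =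
            p.f j * (z * u i) * (p.f j)⁻¹ := by group
        rw [e1, e2, hui]
      · rw [hw0 j hj, mul_one, one_mul]
    -- the order is a power of `ℓ`
    obtain ⟨k, hk⟩ := Qgrp_pgroup hPp i ⟨z, hzQ⟩
    have hk' : z ^ ℓ ^ k = 1 := congrArg Subtype.val hk
    have hwk : w ^ ℓ ^ k = 1 := by
      funext j
      show w j ^ ℓ ^ k = 1
      by_cases hj : ∃ p ∈ P, p.s • i = j
      · obtain ⟨p, hp, hpj⟩ := hj
        rw [hw p hp j hpj, conj_pow, hk', mul_one, mul_inv_cancel]
      · rw [hw0 j hj, one_pow]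
    set W := cent (Wreath.base : (Ω → G) →* Wreath G Ω L).range c with hW
    set ww : W := ⟨Wreath.base w, hwW⟩ with hww
    have hN : (Subgroup.zpowers ww).Normal := by
      have hc : ww ∈ Subgroup.center W := by
        rw [Subgroup.mem_center_iff]
        rintro ⟨x, hx⟩
        apply Subtype.ext
        exact hcent x hx
      have hle : Subgroup.zpowers ww ≤ Subgroup.center W := by
        rw [Subgroup.zpowers_le]; exact hc
      exact Subgroup.Normal.mk (fun a ha g => by
        have h1 := Subgroup.mem_center_iff.1 (hle ha) g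
        rw [h1, mul_inv_cancel_right]
        exact ha)
    have hpg : IsPGroup ℓ (Subgroup.zpowers ww) := by
      rintro ⟨x, n, rfl⟩
      refine ⟨k, ?_⟩
      apply Subtype.ext
      show (ww ^ n) ^ ℓ ^ k = 1
      have h1 : ww ^ ℓ ^ k = 1 := by
        apply Subtype.ext
        show (Wreath.base w : Wreath G Ω L) ^ ℓ ^ k = 1
        rw [← map_pow, hwk, map_one]
      rw [← zpow_natCast, ← zpow_mul, mul_comm, zpow_mul, zpow_natCast, h1, one_zpow]
    obtain ⟨-, -, h3⟩ := opCore_spec ℓ W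
    intro hbot
    have h4 := h3 _ hN hpg
    rw [hbot, le_bot_iff, Subgroup.zpowers_eq_bot] at h4
    apply hzne
    have h5 : (Wreath.base w : Wreath G Ω L) = 1 := congrArg Subtype.val h4
    have h6 := congrFun (congrArg Wreath.f h5) i
    rw [Wreath.base_f, hwi] at h6
    exact h6

end Pool.Agent.Helper79_WRA.H75
end
end -- Pool.Agent.Helper75_WRA.Twist

section -- Pool.Agent.Helper75_WRA.Lam

/-!
WRA, module LAMBDA: the stabiliser of a chain of `ℓ`-subgroups of the top group.
-/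

open scoped BigOperators

noncomputable section

namespace Pool.Agent.Helper79_WRA.H75

open Pool.Agent.Helper51_AWC

section

variable {G Ω L : Type} [Group G] [Group L] [MulAction L Ω]

/-- the subgroup of the top group stabilising the chain -/
def Kg (c : Finset (Subgroup (Wreath G Ω L))) : Subgroup L :=
  (stab c).comap (Wreath.top : L →* Wreath G Ω L)

/-- the subgroup of the top group given by `P` -/
def Pl (P : Subgroup (Wreath G Ω L)) : Subgroup L := P.comap (Wreath.top : L →* Wreath G Ω L)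

/-- the orbits -/
abbrev Dl (P : Subgroup (Wreath G Ω L)) : Type := Quotient (MulAction.orbitRel (Pl P) Ω)

theorem conj_mem_Pl {c : Finset (Subgroup (Wreath G Ω L))} {P : Subgroup (Wreath G Ω L)}
    (hP : P ∈ c) {k l : L} (hk : k ∈ Kg c) (hl : l ∈ Pl P) : k * l * k⁻¹ ∈ Pl P := by
  have h1 : conjS (Wreath.top k) P = P := mem_stab.1 hk P hP
  show Wreath.top (k * l * k⁻¹) ∈ P
  rw [← h1, mem_conjS]
  have e : (Wreath.top k : Wreath G Ω L)⁻¹ * Wreath.top (k * l * k⁻¹) * Wreath.top k =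
      Wreath.top l := by
    rw [map_mul, map_mul, map_inv]; group
  rw [e]
  exact hl

theorem smul_rel {c : Finset (Subgroup (Wreath G Ω L))} {P : Subgroup (Wreath G Ω L)}
    (hP : P ∈ c) (k : Kg c) {i j : Ω} (h : (MulAction.orbitRel (Pl P) Ω) i j) :
    (MulAction.orbitRel (Pl P) Ω) ((k : L) • i) ((k : L) • j) := by
  rw [MulAction.orbitRel_apply, MulAction.mem_orbit_iff] at h ⊢
  obtain ⟨⟨l, hl⟩, rfl⟩ := h
  refine ⟨⟨k * l * (k : L)⁻¹, conj_mem_Pl hP k.2 hl⟩, ?_⟩
  show ((k : L) * l * (k : L)⁻¹) • (k : L) • j = (k : L) • l • j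
  rw [mul_smul, mul_smul, inv_smul_smul]

/-- the action on the orbits -/
@[reducible] def act {c : Finset (Subgroup (Wreath G Ω L))} {P : Subgroup (Wreath G Ω L)}
    (hP : P ∈ c) : MulAction (Kg c) (Dl P) where
  smul k := Quotient.map (fun i => (k : L) • i) (fun _ _ h => smul_rel hP k h)
  one_smul := by
    intro x
    induction x using Quotient.inductionOn with
    | h i =>
      show Quotient.mk _ (((1 : Kg c) : L) • i) = Quotient.mk _ i
      rw [Subgroup.coe_one, one_smul]
  mul_smul := by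
    intro k k' x
    induction x using Quotient.inductionOn with
    | h i =>
      show Quotient.mk _ (((k * k' : Kg c) : L) • i) = Quotient.mk _ ((k : L) • (k' : L) • i)
      rw [Subgroup.coe_mul, mul_smul]

theorem base_top_f (u : Ω → G) (l : L) (j : Ω) :
    (Wreath.base u * Wreath.top l * (Wreath.base u)⁻¹ : Wreath G Ω L).f j =
      u j * (u (l⁻¹ • j))⁻¹ := by
  rw [base_conj_f, Wreath.top_f, Wreath.top_s, mul_one]

theorem conj_id_of_comm {A : Type} [Group A] {b : A} {D : Subgroup A}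
    (h : ∀ d ∈ D, b * d * b⁻¹ = d) : conjS b D = D := by
  ext x
  rw [mem_conjS]
  constructor
  · intro hx
    have := h _ hx
    have e : b * (b⁻¹ * x * b) * b⁻¹ = x := by group
    rw [e] at this
    rw [this]; exact hx
  · intro hx
    have h1 := h x hx
    have e : b⁻¹ * x * b = x := by
      conv_lhs => rw [← h1]
      group
    rw [e]; exact hx

/-- a function that is invariant under `Pl P` factors through the orbits -/
theorem factor {P : Subgroup (Wreath G Ω L)} {u : Ω → G} (h : ∀ l ∈ Pl P, ∀ j, u (l • j) = u j) :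
    ∃ f : Dl P → G, ∀ i, f (Quotient.mk _ i) = u i := by
  refine ⟨Quotient.lift u ?_, fun i => rfl⟩
  intro i j hij
  have h' : (MulAction.orbitRel (Pl P) Ω) i j := hij
  rw [MulAction.orbitRel_apply, MulAction.mem_orbit_iff] at h'
  obtain ⟨⟨l, hl⟩, rfl⟩ := h'
  exact h l hl j

theorem const_of {P : Subgroup (Wreath G Ω L)} (f : Dl P → G) {l : L} (hl : l ∈ Pl P) (j : Ω) :
    f (Quotient.mk _ (l • j)) = f (Quotient.mk _ j) := by
  congr 1
  apply Quotient.sound
  show (MulAction.orbitRel (Pl P) Ω) (l • j) j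
  rw [MulAction.orbitRel_apply, MulAction.mem_orbit_iff]
  exact ⟨⟨l, hl⟩, rfl⟩

end

/-- LAMBDA -/
theorem lambda : LambdaStmt := by
  classical
  intro ℓ _ G Ω L _ _ _ _ _ _ c hp hne hch htop
  obtain ⟨P, hPc, hPmax⟩ := exists_greatest hch hne
  have hPp := hp P hPc
  letI := act hPc
  let q : Ω → Dl P := Quotient.mk _
  have hq : ∀ (k : Kg c) (i : Ω), q (((Kg c).subtype k) • i) = k • q i := fun k i => rfl
  have hqs : Function.Surjective q := Quotient.mk_surjective
  let ι : Wreath G (Dl P) (Kg c) →* Wreath G Ω L :=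
    { toFun := fun x => ⟨fun i => x.f (q i), (Kg c).subtype x.s⟩
      map_one' := by
        apply Wreath.ext
        · rfl
        · exact map_one _
      map_mul' := by
        intro x y
        apply Wreath.ext
        · funext i
          show x.f (q i) * y.f (x.s⁻¹ • q i) =
            x.f (q i) * y.f (q (((Kg c).subtype x.s)⁻¹ • i))
          rw [← map_inv, hq]
        · show (Kg c).subtype (x.s * y.s) = (Kg c).subtype x.s * (Kg c).subtype y.s
          rw [map_mul] }
  have hι : ∀ x, ι x = ⟨fun i => x.f (q i), (Kg c).subtype x.s⟩ := fun x => rfl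
  -- elements of `P` and `Pl`
  have hPt : ∀ D ∈ c, ∀ d ∈ D, ∃ l ∈ Pl P, Wreath.top l = d := by
    intro D hD d hd
    obtain ⟨l, rfl⟩ := htop D hD hd
    exact ⟨l, hPmax D hD hd, rfl⟩
  -- `base u` with `u` constant on the orbits commutes with everything
  have hcomm : ∀ f : Dl P → G, ∀ D ∈ c, ∀ d ∈ D,
      (Wreath.base (fun i => f (q i)) * d * (Wreath.base (fun i => f (q i)))⁻¹ :
        Wreath G Ω L) = d := by
    intro f D hD d hd
    obtain ⟨l, hl, rfl⟩ := hPt D hD d hd
    apply Wreath.ext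
    · funext j
      rw [base_top_f, Wreath.top_f]
      have := const_of f ((Pl P).inv_mem hl) j
      show f (q j) * (f (q (l⁻¹ • j)))⁻¹ = 1
      rw [show f (q (l⁻¹ • j)) = f (q j) from this, mul_inv_cancel]
    · rw [Wreath.conj_s, Wreath.base_s, one_mul, inv_one, mul_one]
  -- invariance of `u`
  have hinv : ∀ u : Ω → G, (∀ l ∈ Pl P, ∀ j, (Wreath.base u * Wreath.top l *
      (Wreath.base u)⁻¹ : Wreath G Ω L).f j = 1) → ∀ l ∈ Pl P, ∀ j, u (l • j) = u j := by
    intro u h l hl j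
    have h1 := h l hl (l • j)
    rw [base_top_f, inv_smul_smul] at h1
    exact mul_inv_eq_one.1 h1
  refine ⟨Dl P, Kg c, Fintype.ofFinite _, inferInstance, inferInstance, act hPc, q,
    (Kg c).subtype, ι, hqs, Subgroup.subtype_injective _, ?_, hq, hι, ?_, ?_, ?_⟩
  · intro x y hxy
    rw [hι, hι] at hxy
    have h1 := congrArg Wreath.f hxy
    have h2 := congrArg Wreath.s hxy
    apply Wreath.ext
    · funext j
      obtain ⟨i, rfl⟩ := hqs j
      exact congrFun h1 i
    · exact Subgroup.subtype_injective _ h2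
  · intro j
    obtain ⟨i, rfl⟩ := hqs j
    have hPlp : IsPGroup ℓ (Pl P) := hPp.comap_of_injective _ Wreath.top_injective
    obtain ⟨n, hn⟩ := hPlp.card_orbit i
    refine ⟨n, ?_⟩
    rw [← hn]
    apply Nat.card_congr
    apply Equiv.subtypeEquivRight
    intro i'
    show Quotient.mk _ i' = Quotient.mk _ i ↔ i' ∈ MulAction.orbit (Pl P) i
    rw [← MulAction.orbitRel_apply]
    exact Quotient.eq
  · apply le_antisymm
    · rintro _ ⟨x, rfl⟩
      rw [mem_stab]
      intro D hD
      have e : ι x = Wreath.base (fun i => x.f (q i)) * Wreath.top ((Kg c).subtype x.s) := by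
        rw [hι]
        apply Wreath.ext
        · funext i
          rw [Wreath.mul_f, Wreath.base_f, Wreath.top_f, mul_one]
        · rw [Wreath.mul_s, Wreath.base_s, Wreath.top_s, one_mul]
      rw [e, ← conjS_conjS]
      have h1 : conjS (Wreath.top ((Kg c).subtype x.s)) D = D := mem_stab.1 x.s.2 D hD
      rw [h1]
      exact conj_id_of_comm (hcomm x.f D hD)
    · intro x hx
      rw [mem_stab] at hx
      -- the component in the top group
      have hxs : x.s ∈ Kg c := by
        show Wreath.top x.s ∈ stab c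
        rw [mem_stab]
        intro D hD
        have hD1 : (D.map (Wreath.proj : Wreath G Ω L →* L)).map
            (Wreath.top : L →* Wreath G Ω L) = D := by
          ext y
          constructor
          · rintro ⟨_, ⟨d, hd, rfl⟩, rfl⟩
            obtain ⟨l, rfl⟩ := htop D hD hd
            exact hd
          · intro hd
            obtain ⟨l, rfl⟩ := htop D hD hd
            exact ⟨l, ⟨_, hd, rfl⟩, rfl⟩
        have h2 : conjS x.s (D.map (Wreath.proj : Wreath G Ω L →* L)) =
            D.map (Wreath.proj : Wreath G Ω L →* L) := by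
          have h3 := conjS_map_hom (Wreath.proj : Wreath G Ω L →* L) x D
          rw [hx D hD, Wreath.proj_apply] at h3
          exact h3
        conv_lhs => rw [← hD1]
        rw [conjS_map_hom, h2, hD1]
      have hb : ∀ D ∈ c, conjS (Wreath.base x.f : Wreath G Ω L) D = D := by
        intro D hD
        have e : (Wreath.base x.f : Wreath G Ω L) = x * (Wreath.top x.s)⁻¹ := by
          rw [← map_inv]
          apply Wreath.ext
          · funext i
            rw [Wreath.mul_f, Wreath.base_f, Wreath.top_f, mul_one]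
          · rw [Wreath.mul_s, Wreath.base_s, Wreath.top_s, mul_inv_cancel]
        have h1 : conjS (Wreath.top x.s : Wreath G Ω L)⁻¹ D = D := by
          have : (Wreath.top x.s : Wreath G Ω L)⁻¹ ∈ stab c := (stab c).inv_mem hxs
          exact mem_stab.1 this D hD
        rw [e, ← conjS_conjS, h1, hx D hD]
      have hu : ∀ l ∈ Pl P, ∀ j, x.f (l • j) = x.f j := by
        apply hinv
        intro l hl j
        have h1 : (Wreath.base x.f * Wreath.top l * (Wreath.base x.f)⁻¹ : Wreath G Ω L) ∈ P := by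
          rw [← hb P hPc, mem_conjS]
          have e : (Wreath.base x.f : Wreath G Ω L)⁻¹ * (Wreath.base x.f * Wreath.top l *
            (Wreath.base x.f)⁻¹) * Wreath.base x.f = Wreath.top l := by group
          rw [e]; exact hl
        exact Wreath.mem_top_range.1 (htop P hPc h1) j
      obtain ⟨f, hf⟩ := factor hu
      refine ⟨⟨f, ⟨x.s, hxs⟩⟩, ?_⟩
      rw [hι]
      apply Wreath.ext
      · funext i
        exact hf i
      · rfl
  · apply le_antisymm
    · intro x hx
      unfold cent at hx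
      rw [Subgroup.mem_inf] at hx
      obtain ⟨⟨u, rfl⟩, hx2⟩ := hx
      simp only [Subgroup.mem_iInf] at hx2
      have hu : ∀ l ∈ Pl P, ∀ j, u (l • j) = u j := by
        apply hinv
        intro l hl j
        have h1 := Subgroup.mem_centralizer_iff.1 (hx2 P hPc) (Wreath.top l) hl
        have h2 : (Wreath.base u * Wreath.top l * (Wreath.base u)⁻¹ : Wreath G Ω L) =
            Wreath.top l := by
          rw [← h1]; group
        rw [h2, Wreath.top_f]
      obtain ⟨f, hf⟩ := factor hu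
      refine ⟨f, ?_⟩
      show ι (Wreath.base f) = Wreath.base u
      rw [hι]
      apply Wreath.ext
      · funext i
        exact hf i
      · exact map_one _
    · rintro _ ⟨f, rfl⟩
      have e : (ι.comp (Wreath.base : (Dl P → G) →* Wreath G (Dl P) (Kg c))) f =
          Wreath.base (fun i => f (q i)) := by
        show ι (Wreath.base f) = _
        rw [hι]
        apply Wreath.ext
        · rfl
        · exact map_one _
      rw [e]
      unfold cent
      rw [Subgroup.mem_inf]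
      refine ⟨⟨_, rfl⟩, ?_⟩
      simp only [Subgroup.mem_iInf]
      intro D hD
      rw [Subgroup.mem_centralizer_iff]
      intro d hd
      have h1 := hcomm f D hD d hd
      exact (mul_inv_eq_iff_eq_mul.1 h1).symm

end Pool.Agent.Helper79_WRA.H75
end
end -- Pool.Agent.Helper75_WRA.Lam

section -- Pool.Agent.Helper36_WRA.Lambda2

/-!
WRA, module LAMBDA2: the stabiliser of a chain of `ℓ`-subgroups of the top group, explicitly.
-/

open scoped BigOperators

noncomputable section

namespace Pool.Agent.Helper79_WRA.H36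

open Pool.Agent.Helper51_AWC

section

variable {G Ω L : Type} [Group G] [Group L] [MulAction L Ω]

omit [MulAction L Ω] in
theorem topP_eq {c : Finset (Subgroup L)} {P : Subgroup L} (hP : P ∈ c) (h : ∀ D ∈ c, D ≤ P) :
    topP c = P := by
  unfold topP
  exact le_antisymm (iSup₂_le h) (le_iSup₂ (f := fun D (_ : D ∈ c) => D) P hP)

omit [MulAction L Ω] in
theorem topP_mem {c : Finset (Subgroup L)} (hne : c.Nonempty)
    (hch : IsChain (· ≤ ·) (c : Set (Subgroup L))) : topP c ∈ c ∧ ∀ D ∈ c, D ≤ topP c := by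
  obtain ⟨P, hP, hmax⟩ := exists_greatest hch hne
  rw [topP_eq hP hmax]
  exact ⟨hP, hmax⟩

omit [MulAction L Ω] in
theorem le_topP {c : Finset (Subgroup L)} {D : Subgroup L} (hD : D ∈ c) : D ≤ topP c :=
  le_iSup₂ (f := fun D (_ : D ∈ c) => D) D hD

theorem qq_smul {c : Finset (Subgroup L)} {l : L} (hl : l ∈ topP c) (i : Ω) :
    (qq c (l • i) : Dl c Ω) = qq c i := by
  rw [qq_eq_iff]
  exact ⟨l⁻¹, (topP c).inv_mem hl, inv_smul_smul _ _⟩

omit [Group G] in
theorem factor {c : Finset (Subgroup L)} {u : Ω → G} (h : ∀ l ∈ topP c, ∀ j, u (l • j) = u j) :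
    ∃ f : Dl c Ω → G, ∀ i, f (qq c i) = u i := by
  refine ⟨Quotient.lift u ?_, fun i => rfl⟩
  intro i j hij
  have h1 : (qq c i : Dl c Ω) = qq c j := Quotient.sound hij
  obtain ⟨p, hp, rfl⟩ := qq_eq_iff.1 h1
  exact (h p hp i).symm

/-- `base u` with `u` constant on the orbits commutes with the chain -/
theorem comm_base {c : Finset (Subgroup L)} (f : Dl c Ω → G) {d : L} (hd : d ∈ topP c) :
    (Wreath.base (fun i => f (qq c i)) * Wreath.top d * (Wreath.base (fun i => f (qq c i)))⁻¹ :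
      Wreath G Ω L) = Wreath.top d := by
  apply Wreath.ext
  · funext j
    rw [H75.base_top_f, Wreath.top_f, qq_smul ((topP c).inv_mem hd), mul_inv_cancel]
  · rw [Wreath.conj_s, Wreath.base_s, one_mul, inv_one, mul_one]

/-- if `base u` conjugates the elements of the top of the chain into the top group, then `u` is
constant on the orbits -/
theorem const_of_conj {c : Finset (Subgroup L)} {u : Ω → G}
    (h : ∀ l ∈ topP c, ∀ j, (Wreath.base u * Wreath.top l *
      (Wreath.base u)⁻¹ : Wreath G Ω L).f j = 1) : ∀ l ∈ topP c, ∀ j, u (l • j) = u j := by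
  intro l hl j
  have h1 := h l hl (l • j)
  rw [H75.base_top_f, inv_smul_smul] at h1
  exact mul_inv_eq_one.1 h1

theorem mem_topc {c : Finset (Subgroup L)} {D : Subgroup (Wreath G Ω L)} :
    D ∈ topc c G Ω ↔ ∃ E ∈ c, E.map (Wreath.top : L →* Wreath G Ω L) = D := by
  classical
  unfold topc
  rw [Finset.mem_image]

theorem iota_eq (c : Finset (Subgroup L)) (x : Wreath G (Dl c Ω) (stab c)) :
    iota c G Ω x = Wreath.base (fun i => x.f (qq c i)) * Wreath.top (x.s : L) := by
  rw [iota_apply]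
  apply Wreath.ext
  · funext i
    rw [Wreath.mul_f, Wreath.base_f, Wreath.top_f, mul_one]
  · rw [Wreath.mul_s, Wreath.base_s, Wreath.top_s, one_mul]

theorem map_top_proj (D : Subgroup L) :
    (D.map (Wreath.top : L →* Wreath G Ω L)).map (Wreath.proj : Wreath G Ω L →* L) = D := by
  rw [Subgroup.map_map]
  exact Subgroup.map_id D

theorem base_eq (x : Wreath G Ω L) : (Wreath.base x.f : Wreath G Ω L) = x * (Wreath.top x.s)⁻¹ := by
  rw [← map_inv]
  apply Wreath.ext
  · funext i
    rw [Wreath.mul_f, Wreath.base_f, Wreath.top_f, mul_one]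
  · rw [Wreath.mul_s, Wreath.base_s, Wreath.top_s, mul_inv_cancel]

theorem iota_range {c : Finset (Subgroup L)} (hne : c.Nonempty)
    (hch : IsChain (· ≤ ·) (c : Set (Subgroup L))) :
    (iota c G Ω).range = stab (topc c G Ω) := by
  obtain ⟨hPc, hPmax⟩ := topP_mem hne hch
  apply le_antisymm
  · rintro _ ⟨x, rfl⟩
    rw [mem_stab]
    intro D hD
    obtain ⟨E, hE, rfl⟩ := mem_topc.1 hD
    rw [iota_eq, ← conjS_conjS, H75.conjS_map_hom, mem_stab.1 x.s.2 E hE]
    apply H75.conj_id_of_comm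
    rintro _ ⟨d, hd, rfl⟩
    exact comm_base x.f (hPmax E hE hd)
  · intro x hx
    rw [mem_stab] at hx
    have hx' : ∀ E ∈ c, conjS x (E.map (Wreath.top : L →* Wreath G Ω L)) = E.map Wreath.top :=
      fun E hE => hx _ (mem_topc.2 ⟨E, hE, rfl⟩)
    have hxs : x.s ∈ stab c := by
      rw [mem_stab]
      intro E hE
      have h3 := H75.conjS_map_hom (Wreath.proj : Wreath G Ω L →* L) x (E.map Wreath.top)
      rw [hx' E hE, map_top_proj, Wreath.proj_apply] at h3
      exact h3
    have hb : ∀ E ∈ c, conjS (Wreath.base x.f : Wreath G Ω L) (E.map Wreath.top) =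
        E.map Wreath.top := by
      intro E hE
      have h1 : conjS (Wreath.top x.s : Wreath G Ω L)⁻¹ (E.map Wreath.top) = E.map Wreath.top := by
        rw [← map_inv, H75.conjS_map_hom, mem_stab.1 ((stab c).inv_mem hxs) E hE]
      rw [base_eq, ← conjS_conjS, h1, hx' E hE]
    have hu : ∀ l ∈ topP c, ∀ j, x.f (l • j) = x.f j := by
      apply const_of_conj (G := G)
      intro l hl j
      have h1 : (Wreath.base x.f * Wreath.top l * (Wreath.base x.f)⁻¹ : Wreath G Ω L) ∈
          (topP c).map (Wreath.top : L →* Wreath G Ω L) := by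
        rw [← hb (topP c) hPc, mem_conjS]
        have e : (Wreath.base x.f : Wreath G Ω L)⁻¹ * (Wreath.base x.f * Wreath.top l *
          (Wreath.base x.f)⁻¹) * Wreath.base x.f = Wreath.top l := by group
        rw [e]; exact ⟨l, hl, rfl⟩
      obtain ⟨m, _, hm⟩ := h1
      rw [← hm, Wreath.top_f]
    obtain ⟨f, hf⟩ := factor hu
    refine ⟨⟨f, ⟨x.s, hxs⟩⟩, ?_⟩
    rw [iota_apply]
    apply Wreath.ext
    · funext i
      exact hf i
    · rfl

theorem iota_base (c : Finset (Subgroup L)) (f : Dl c Ω → G) :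
    iota c G Ω (Wreath.base f) = Wreath.base (fun i => f (qq c i)) := rfl

theorem cent_topc {c : Finset (Subgroup L)} (hne : c.Nonempty)
    (hch : IsChain (· ≤ ·) (c : Set (Subgroup L))) :
    cent (Wreath.base : (Ω → G) →* Wreath G Ω L).range (topc c G Ω) =
      ((iota c G Ω).comp (Wreath.base : (Dl c Ω → G) →* Wreath G (Dl c Ω) (stab c))).range := by
  obtain ⟨hPc, hPmax⟩ := topP_mem hne hch
  apply le_antisymm
  · intro x hx
    unfold cent at hx
    rw [Subgroup.mem_inf] at hx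
    obtain ⟨⟨u, rfl⟩, hx2⟩ := hx
    simp only [Subgroup.mem_iInf] at hx2
    have hu : ∀ l ∈ topP c, ∀ j, u (l • j) = u j := by
      apply const_of_conj (G := G)
      intro l hl j
      have h1 := Subgroup.mem_centralizer_iff.1 (hx2 _ (mem_topc.2 ⟨_, hPc, rfl⟩))
        (Wreath.top l) ⟨l, hl, rfl⟩
      have h2 : (Wreath.base u * Wreath.top l * (Wreath.base u)⁻¹ : Wreath G Ω L) =
          Wreath.top l := by
        rw [← h1]; group
      rw [h2, Wreath.top_f]
    obtain ⟨f, hf⟩ := factor hu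
    refine ⟨f, ?_⟩
    show iota c G Ω (Wreath.base f) = Wreath.base u
    rw [iota_base]
    congr 1
    funext i
    exact hf i
  · rintro _ ⟨f, rfl⟩
    show iota c G Ω (Wreath.base f) ∈ _
    rw [iota_base]
    unfold cent
    rw [Subgroup.mem_inf]
    refine ⟨⟨_, rfl⟩, ?_⟩
    simp only [Subgroup.mem_iInf]
    intro D hD
    obtain ⟨E, hE, rfl⟩ := mem_topc.1 hD
    rw [Subgroup.mem_centralizer_iff]
    rintro _ ⟨d, hd, rfl⟩
    have h1 := comm_base f (hPmax E hE hd)
    exact (mul_inv_eq_iff_eq_mul.1 h1).symm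

end

/-- LAMBDA2 -/
theorem lambda2 : Lambda2Stmt := by
  classical
  intro ℓ _ G Ω L _ _ _ _ _ _ c hp hne hch
  obtain ⟨hPc, hPmax⟩ := topP_mem hne hch
  have hPp := hp _ hPc
  refine ⟨hPc, hPmax, ?_, ?_, ?_, iota_range hne hch, cent_topc hne hch, ?_, ?_⟩
  · intro x y hxy
    rw [iota_apply, iota_apply] at hxy
    have h1 := congrArg Wreath.f hxy
    have h2 := congrArg Wreath.s hxy
    apply Wreath.ext
    · funext j
      obtain ⟨i, rfl⟩ := qq_surjective c j
      exact congrFun h1 i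
    · exact Subtype.ext h2
  · intro D hD
    obtain ⟨E, hE, rfl⟩ := mem_topc.1 hD
    exact (hp E hE).map _
  · intro D hD D' hD' _
    obtain ⟨E, hE, rfl⟩ := mem_topc.1 (Finset.mem_coe.1 hD)
    obtain ⟨E', hE', rfl⟩ := mem_topc.1 (Finset.mem_coe.1 hD')
    rcases chain_total hch hE hE' with h | h
    · left; exact Subgroup.map_mono h
    · right; exact Subgroup.map_mono h
  · exact ⟨hPp, fun x => rfl, qq_surjective c, Subgroup.subtype_injective _, fun k i => rfl,
      fun i i' => qq_eq_iff, fun k => conjS_topP k.2⟩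
  · intro j
    obtain ⟨i, rfl⟩ := qq_surjective c j
    obtain ⟨n, hn⟩ := hPp.card_orbit i
    refine ⟨n, ?_⟩
    rw [← hn]
    apply Nat.card_congr
    apply Equiv.subtypeEquivRight
    intro i'
    rw [MulAction.mem_orbit_iff]
    constructor
    · intro h
      obtain ⟨p, hp', h'⟩ := qq_eq_iff.1 h.symm
      exact ⟨⟨p, hp'⟩, h'⟩
    · rintro ⟨p, rfl⟩
      exact qq_smul p.2 i

end Pool.Agent.Helper79_WRA.H36
end
end -- Pool.Agent.Helper36_WRA.Lambda2

section -- Pool.Agent.Helper36_WRA.Sumc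

/-!
WRA, module SUMC: the sum over the chains of `ℓ`-subgroups meeting the base group trivially, in
terms of chains of the top group.
-/

open scoped BigOperators

noncomputable section

namespace Pool.Agent.Helper79_WRA.H36

open Pool.Agent.Helper51_AWC

theorem card_fib {A B : Type*} [Group A] [Finite A] (H : Subgroup A) (Φ : A → B)
    (h : ∀ a b, Φ a = Φ b ↔ a⁻¹ * b ∈ H) :
    Nat.card A = Nat.card (Set.range Φ) * Nat.card H := by
  rw [H.card_eq_card_quotient_mul_card_subgroup]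
  congr 1
  let F : A ⧸ H → Set.range Φ := fun q => Quotient.liftOn' q (fun a => ⟨Φ a, a, rfl⟩) (by
    intro a b hab
    apply Subtype.ext
    rw [QuotientGroup.leftRel_apply] at hab
    exact (h a b).2 hab)
  apply Nat.card_congr
  apply Equiv.ofBijective F
  constructor
  · intro p q hpq
    induction p using Quotient.inductionOn' with
    | h a =>
      induction q using Quotient.inductionOn' with
      | h b =>
        have h1 : Φ a = Φ b := congrArg Subtype.val hpq
        apply Quotient.sound'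
        rw [QuotientGroup.leftRel_apply]
        exact (h a b).1 h1
  · rintro ⟨_, a, rfl⟩
    exact ⟨Quotient.mk'' a, rfl⟩

section

variable {G Ω L : Type} [Group G] [Group L] [MulAction L Ω]

theorem base_range_eq_ker :
    (Wreath.base : (Ω → G) →* Wreath G Ω L).range = (Wreath.proj : Wreath G Ω L →* L).ker := by
  ext x
  rw [Wreath.mem_base_range, MonoidHom.mem_ker, Wreath.proj_apply]

theorem base_normal : ((Wreath.base : (Ω → G) →* Wreath G Ω L).range).Normal := by
  rw [base_range_eq_ker]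
  infer_instance

theorem conjS_base_proj (g : Ω → G) (D : Subgroup (Wreath G Ω L)) :
    (conjS (Wreath.base g) D).map (Wreath.proj : Wreath G Ω L →* L) = D.map Wreath.proj := by
  rw [← H75.conjS_map_hom, Wreath.proj_apply, Wreath.base_s, conjS_one]

theorem map_proj_top {D : Subgroup (Wreath G Ω L)}
    (hD : D ≤ (Wreath.top : L →* Wreath G Ω L).range) :
    (D.map (Wreath.proj : Wreath G Ω L →* L)).map (Wreath.top : L →* Wreath G Ω L) = D := by
  ext y
  constructor
  · rintro ⟨_, ⟨d, hd, rfl⟩, rfl⟩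
    obtain ⟨l, rfl⟩ := hD hd
    exact hd
  · intro hd
    obtain ⟨l, rfl⟩ := hD hd
    exact ⟨l, ⟨_, hd, rfl⟩, rfl⟩

theorem inf_base_top (E : Subgroup L) :
    E.map (Wreath.top : L →* Wreath G Ω L) ⊓ (Wreath.base : (Ω → G) →* Wreath G Ω L).range = ⊥ := by
  rw [eq_bot_iff]
  intro x hx
  obtain ⟨⟨l, _, rfl⟩, h2⟩ := Subgroup.mem_inf.1 hx
  rw [Wreath.mem_base_range] at h2
  have : l = 1 := h2
  rw [this, map_one]
  exact Subgroup.one_mem _

theorem conjS_inf_bot {A : Type} [Group A] {N D : Subgroup A} (hN : N.Normal) (g : A)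
    (h : D ⊓ N = ⊥) : conjS g D ⊓ N = ⊥ := by
  rw [eq_bot_iff] at h ⊢
  intro x hx
  obtain ⟨h1, h2⟩ := Subgroup.mem_inf.1 hx
  rw [mem_conjS] at h1
  have h3 : g⁻¹ * x * g ∈ D ⊓ N := Subgroup.mem_inf.2 ⟨h1, by
    have := hN.conj_mem x h2 g⁻¹
    rwa [inv_inv] at this⟩
  have h4 := Subgroup.mem_bot.1 (h h3)
  rw [Subgroup.mem_bot]
  have e : x = g * (g⁻¹ * x * g) * g⁻¹ := by group
  rw [e, h4]; group

open Classical in
/-- the projection of a chain -/
def prc (d : Finset (Subgroup (Wreath G Ω L))) : Finset (Subgroup L) :=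
  d.image (fun D => D.map (Wreath.proj : Wreath G Ω L →* L))

open Classical in
/-- the base conjugates of the chain of the top group -/
def bc (c : Finset (Subgroup L)) (g : Ω → G) : Finset (Subgroup (Wreath G Ω L)) :=
  (topc c G Ω).image (conjS (Wreath.base g))

theorem mem_bc {c : Finset (Subgroup L)} {g : Ω → G} {D : Subgroup (Wreath G Ω L)} :
    D ∈ bc c g ↔ ∃ E ∈ c, conjS (Wreath.base g) (E.map (Wreath.top : L →* Wreath G Ω L)) = D := by
  classical
  unfold bc
  rw [Finset.mem_image]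
  constructor
  · rintro ⟨D', hD', rfl⟩
    obtain ⟨E, hE, rfl⟩ := mem_topc.1 hD'
    exact ⟨E, hE, rfl⟩
  · rintro ⟨E, hE, rfl⟩
    exact ⟨_, mem_topc.2 ⟨E, hE, rfl⟩, rfl⟩

theorem mem_prc {d : Finset (Subgroup (Wreath G Ω L))} {E : Subgroup L} :
    E ∈ prc d ↔ ∃ D ∈ d, D.map (Wreath.proj : Wreath G Ω L →* L) = E := by
  classical
  unfold prc
  rw [Finset.mem_image]

theorem prc_bc (c : Finset (Subgroup L)) (g : Ω → G) : prc (bc c g) = c := by
  ext E
  rw [mem_prc]
  constructor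
  · rintro ⟨D, hD, rfl⟩
    obtain ⟨E, hE, rfl⟩ := mem_bc.1 hD
    rw [conjS_base_proj, map_top_proj]
    exact hE
  · intro hE
    exact ⟨_, mem_bc.2 ⟨E, hE, rfl⟩, by rw [conjS_base_proj, map_top_proj]⟩

theorem prc_card {d : Finset (Subgroup (Wreath G Ω L))}
    (hch : IsChain (· ≤ ·) (d : Set (Subgroup (Wreath G Ω L))))
    (hN : ∀ D ∈ d, D ⊓ (Wreath.base : (Ω → G) →* Wreath G Ω L).range = ⊥) :
    (prc d).card = d.card := by
  classical
  unfold prc
  apply Finset.card_image_of_injOn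
  have key : ∀ D ∈ d, ∀ D' ∈ d, D ≤ D' →
      D.map (Wreath.proj : Wreath G Ω L →* L) = D'.map Wreath.proj → D = D' := by
    intro D _ D' hD' hle h
    apply le_antisymm hle
    intro x hx
    have h1 : Wreath.proj x ∈ D.map (Wreath.proj : Wreath G Ω L →* L) := by
      rw [h]; exact ⟨x, hx, rfl⟩
    obtain ⟨y, hy, hyx⟩ := h1
    have h2 : y⁻¹ * x ∈ D' ⊓ (Wreath.base : (Ω → G) →* Wreath G Ω L).range := by
      rw [Subgroup.mem_inf]
      refine ⟨D'.mul_mem (D'.inv_mem (hle hy)) hx, ?_⟩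
      rw [base_range_eq_ker, MonoidHom.mem_ker, map_mul, map_inv, hyx, inv_mul_cancel]
    rw [hN D' hD', Subgroup.mem_bot] at h2
    have h3 : x = y := (inv_mul_eq_one.1 h2).symm
    rw [h3]; exact hy
  intro D hD D' hD' h
  rcases chain_total hch hD hD' with hle | hle
  · exact key D hD D' hD' hle h
  · exact (key D' hD' D hD hle h.symm).symm

theorem bc_eq_iff {c : Finset (Subgroup L)} (g g' : Ω → G) :
    bc c g = bc c g' ↔
      g⁻¹ * g' ∈ (stab (topc c G Ω)).comap (Wreath.base : (Ω → G) →* Wreath G Ω L) := by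
  classical
  rw [Subgroup.mem_comap, mem_stab]
  constructor
  · intro h D hD
    obtain ⟨E, hE, rfl⟩ := mem_topc.1 hD
    have h1 : conjS (Wreath.base g') (E.map (Wreath.top : L →* Wreath G Ω L)) ∈ bc c g := by
      rw [h]; exact mem_bc.2 ⟨E, hE, rfl⟩
    obtain ⟨E', hE', h2⟩ := mem_bc.1 h1
    have h3 : E' = E := by
      have := congrArg (Subgroup.map (Wreath.proj : Wreath G Ω L →* L)) h2
      rw [conjS_base_proj, conjS_base_proj, map_top_proj, map_top_proj] at this
      exact this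
    subst h3
    rw [map_mul, ← conjS_conjS, ← h2, conjS_conjS, map_inv, inv_mul_cancel, conjS_one]
  · intro h
    have h' : ∀ E ∈ c, conjS (Wreath.base g') (E.map (Wreath.top : L →* Wreath G Ω L)) =
        conjS (Wreath.base g) (E.map Wreath.top) := by
      intro E hE
      have h1 := h _ (mem_topc.2 ⟨E, hE, rfl⟩)
      have h2 := congrArg (conjS (Wreath.base g)) h1
      rw [conjS_conjS, ← map_mul, mul_inv_cancel_left] at h2
      exact h2
    ext D
    rw [mem_bc, mem_bc]
    constructor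
    · rintro ⟨E, hE, rfl⟩
      exact ⟨E, hE, h' E hE⟩
    · rintro ⟨E, hE, rfl⟩
      exact ⟨E, hE, (h' E hE).symm⟩

theorem card_stab_base [Finite Ω] {c : Finset (Subgroup L)} (hne : c.Nonempty)
    (hch : IsChain (· ≤ ·) (c : Set (Subgroup L))) :
    Nat.card ((stab (topc c G Ω)).comap (Wreath.base : (Ω → G) →* Wreath G Ω L)) =
      Nat.card G ^ Nat.card (Dl c Ω) := by
  rw [← Nat.card_fun]
  symm
  let F : (Dl c Ω → G) → (stab (topc c G Ω)).comap (Wreath.base : (Ω → G) →* Wreath G Ω L) :=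
    fun f => ⟨fun i => f (qq c i), by
      rw [Subgroup.mem_comap, ← iota_range hne hch]
      exact ⟨Wreath.base f, iota_base c f⟩⟩
  apply Nat.card_congr
  apply Equiv.ofBijective F
  constructor
  · intro f f' h
    funext j
    obtain ⟨i, rfl⟩ := qq_surjective c j
    exact congrFun (congrArg Subtype.val h) i
  · rintro ⟨u, hu⟩
    have hu' := hu
    rw [Subgroup.mem_comap, ← iota_range hne hch] at hu'
    obtain ⟨x, hx⟩ := hu'
    refine ⟨x.f, ?_⟩
    apply Subtype.ext
    have := congrArg Wreath.f hx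
    rw [Wreath.base_f, iota_apply] at this
    exact this

end

/-- SUMC -/
theorem sumc (hT0 : TZeroStmt) (hTC : TConjStmt) (hTw : TwistStmt) : SumcStmt := by
  classical
  intro ℓ _ G Ω L _ _ _ _ _ _ w hw hcore r hr
  set N : Subgroup (Wreath G Ω L) := (Wreath.base : (Ω → G) →* Wreath G Ω L).range with hNdef
  have hN : N.Normal := base_normal
  set S := (chainsOn (psub ℓ (Wreath G Ω L)) ⊥).filter (fun c => ∀ D ∈ c, D ⊓ N = ⊥) with hS
  set T := chainsOn (psubIn ℓ (⊤ : Subgroup L)) ⊥ with hT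
  have hmS : ∀ d, d ∈ S ↔ ((∀ D ∈ d, IsPGroup ℓ D) ∧ ⊥ ∈ d ∧
      IsChain (· ≤ ·) (d : Set (Subgroup (Wreath G Ω L)))) ∧ ∀ D ∈ d, D ⊓ N = ⊥ := by
    intro d
    rw [hS, Finset.mem_filter, mem_chainsOn]
    constructor
    · rintro ⟨⟨h1, h2, h3⟩, h4⟩
      exact ⟨⟨fun D hD => (mem_psub.1 (h1 hD)).2, h2, h3⟩, h4⟩
    · rintro ⟨⟨h1, h2, h3⟩, h4⟩
      refine ⟨⟨fun D hD => mem_psub.2 ⟨?_, h1 D hD⟩, h2, h3⟩, h4⟩
      rw [hcore]; exact bot_le
  have hmT : ∀ c, c ∈ T ↔ (∀ D ∈ c, IsPGroup ℓ D) ∧ ⊥ ∈ c ∧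
      IsChain (· ≤ ·) (c : Set (Subgroup L)) := by
    intro c
    rw [hT, mem_chainsOn]
    constructor
    · rintro ⟨h1, h2, h3⟩
      exact ⟨fun D hD => (mem_psubIn.1 (h1 hD)).2, h2, h3⟩
    · rintro ⟨h1, h2, h3⟩
      exact ⟨fun D hD => mem_psubIn.2 ⟨le_top, h1 D hD⟩, h2, h3⟩
  have hpr : ∀ d ∈ S, prc d ∈ T := by
    intro d hd
    obtain ⟨⟨h1, h2, h3⟩, h4⟩ := (hmS d).1 hd
    rw [hmT]
    refine ⟨?_, ?_, ?_⟩
    · intro E hE
      obtain ⟨D, hD, rfl⟩ := mem_prc.1 hE
      exact (h1 D hD).map _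
    · exact mem_prc.2 ⟨⊥, h2, Subgroup.map_bot _⟩
    · intro E hE E' hE' _
      obtain ⟨D, hD, rfl⟩ := mem_prc.1 (Finset.mem_coe.1 hE)
      obtain ⟨D', hD', rfl⟩ := mem_prc.1 (Finset.mem_coe.1 hE')
      rcases chain_total h3 hD hD' with h | h
      · left; exact Subgroup.map_mono h
      · right; exact Subgroup.map_mono h
  rw [← Finset.sum_fiberwise_of_maps_to hpr, Finset.mul_sum]
  apply Finset.sum_congr rfl
  intro c hc
  have hc' := hc
  rw [hmT] at hc'
  obtain ⟨hc1, hc2, hc3⟩ := hc'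
  have hcne : c.Nonempty := ⟨⊥, hc2⟩
  -- the base conjugates
  have hfin : (Set.range (bc c : (Ω → G) → _)).Finite := Set.finite_range _
  set B := hfin.toFinset with hB
  have hmB : ∀ d, d ∈ B ↔ ∃ g, bc c g = d := by
    intro d
    rw [hB, Set.Finite.mem_toFinset]; rfl
  have hBS : B ⊆ S.filter (fun d => prc d = c) := by
    intro d hd
    obtain ⟨g, rfl⟩ := (hmB d).1 hd
    rw [Finset.mem_filter]
    refine ⟨?_, prc_bc c g⟩
    rw [hmS]
    refine ⟨⟨?_, ?_, ?_⟩, ?_⟩
    · intro D hD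
      obtain ⟨E, hE, rfl⟩ := mem_bc.1 hD
      exact conjS_pgroup ((hc1 E hE).map _)
    · refine mem_bc.2 ⟨⊥, hc2, ?_⟩
      rw [Subgroup.map_bot]
      exact Subgroup.map_bot _
    · intro D hD D' hD' _
      obtain ⟨E, hE, rfl⟩ := mem_bc.1 (Finset.mem_coe.1 hD)
      obtain ⟨E', hE', rfl⟩ := mem_bc.1 (Finset.mem_coe.1 hD')
      rcases chain_total hc3 hE hE' with h | h
      · left; exact conjS_mono.2 (Subgroup.map_mono h)
      · right; exact conjS_mono.2 (Subgroup.map_mono h)
    · intro D hD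
      obtain ⟨E, hE, rfl⟩ := mem_bc.1 hD
      exact conjS_inf_bot hN _ (inf_base_top E)
  have hzero : ∀ d ∈ S.filter (fun d => prc d = c), d ∉ B →
      (-1 : ℤ) ^ (d.card + 1) * tsum ℓ N w d = 0 := by
    intro d hd hdB
    obtain ⟨hdS, hdc⟩ := Finset.mem_filter.1 hd
    obtain ⟨⟨h1, h2, h3⟩, h4⟩ := (hmS d).1 hdS
    rcases hTw ℓ G Ω L d h1 ⟨⊥, h2⟩ h3 h4 with h | ⟨g, hg⟩
    · rw [hT0 ℓ (Wreath G Ω L) N hN w d h, mul_zero]
    · exfalso
      apply hdB
      rw [hmB]
      refine ⟨g⁻¹, ?_⟩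
      have key : ∀ D ∈ d, conjS (Wreath.base g⁻¹)
          ((D.map (Wreath.proj : Wreath G Ω L →* L)).map (Wreath.top : L →* Wreath G Ω L)) = D := by
        intro D hD
        have e1 := map_proj_top (hg D hD)
        rw [conjS_base_proj] at e1
        rw [e1, conjS_conjS, ← map_mul, inv_mul_cancel, map_one, conjS_one]
      ext D
      rw [mem_bc]
      constructor
      · rintro ⟨E, hE, rfl⟩
        rw [← hdc] at hE
        obtain ⟨D, hD, rfl⟩ := mem_prc.1 hE
        rw [key D hD]; exact hD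
      · intro hD
        refine ⟨D.map Wreath.proj, ?_, key D hD⟩
        rw [← hdc]
        exact mem_prc.2 ⟨D, hD, rfl⟩
  rw [← Finset.sum_subset hBS hzero]
  have hval : ∀ d ∈ B, (-1 : ℤ) ^ (d.card + 1) * tsum ℓ N w d =
      (-1) ^ (c.card + 1) * ((Nat.card G : ℤ) ^ Nat.card (Dl c Ω) * r c) := by
    intro d hd
    have hd' := Finset.mem_filter.1 (hBS hd)
    obtain ⟨⟨h1, h2, h3⟩, h4⟩ := (hmS d).1 hd'.1
    have h5 : d.card = c.card := by
      rw [← prc_card h3 h4, hd'.2]
    obtain ⟨g, rfl⟩ := (hmB d).1 hd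
    rw [h5, ← hr c hc]
    congr 1
    exact hTC ℓ (Wreath G Ω L) N hN w hw (Wreath.base g) (topc c G Ω)
  rw [Finset.sum_congr rfl hval, Finset.sum_const, nsmul_eq_mul]
  have hcard := card_fib _ (bc c : (Ω → G) → _) bc_eq_iff
  rw [card_stab_base hcne hc3, Nat.card_fun] at hcard
  have hBc : Nat.card (Set.range (bc c : (Ω → G) → _)) = B.card := by
    rw [hB, Nat.card_coe_set_eq, Set.ncard_eq_toFinset_card _ hfin]
  rw [hBc] at hcard
  have hcard' : (Nat.card G : ℤ) ^ Nat.card Ω = B.card * (Nat.card G : ℤ) ^ Nat.card (Dl c Ω) := by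
    exact_mod_cast hcard
  rw [hcard']
  ring

end Pool.Agent.Helper79_WRA.H36
end
end -- Pool.Agent.Helper36_WRA.Sumc

section -- Pool.Agent.Helper62_WRA.Mzero1

/-!
WRA, module MZERO, part 1: conjugation of characters, counting of conjugating elements.
-/

open scoped BigOperators

noncomputable section

namespace Pool.Agent.Helper79_WRA.H62

open Pool.Agent.Helper51_AWC Pool.Agent.Helper79_WRA

section
variable {G Δ K : Type} [Group G] [Group K] [MulAction K Δ]

/-- conjugation as an isomorphism onto the conjugate subgroup -/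
def conjE (g : G) (H : Subgroup G) : conjS g H ≃* H where
  toFun y := ⟨g⁻¹ * y * g, mem_conjS.1 y.2⟩
  invFun x := ⟨g * x * g⁻¹, mem_conjS.2 (by simp [mul_assoc])⟩
  left_inv y := by apply Subtype.ext; simp [mul_assoc]
  right_inv x := by apply Subtype.ext; simp [mul_assoc]
  map_mul' x y := by apply Subtype.ext; simp [mul_assoc]

theorem IrrS_conj {H : Subgroup G} {a : G → ℂ} (ha : a ∈ IrrS H) (g : G) :
    (fun y => a (g⁻¹ * y * g)) ∈ IrrS (conjS g H) := by
  refine ⟨fun y hy => ha.1 _ fun h => hy (mem_conjS.2 h), ?_⟩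
  exact irr_comp_equiv (conjE g H) ha.2

/-- a character extended by zero is invariant under conjugation by its subgroup -/
theorem IrrS_class {H : Subgroup G} {a : G → ℂ} (ha : a ∈ IrrS H) {x : G} (hx : x ∈ H) (y : G) :
    a (x * y * x⁻¹) = a y := by
  by_cases hy : y ∈ H
  · exact irr_conj ha.2 ⟨y, hy⟩ ⟨x, hx⟩
  · rw [ha.1 y hy, ha.1]
    intro h
    apply hy
    have := H.mul_mem (H.mul_mem (H.inv_mem hx) h) hx
    simpa [mul_assoc] using this

theorem labF_conj [Finite G] {M : Ideal (integralClosure ℤ ℂ)} {a b : G → ℂ} {x : G}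
    (h : ∀ y, b (x * y * x⁻¹) = a y) : labF M b = labF M a := by
  classical
  have := Fintype.ofFinite G
  funext g
  unfold labF
  congr 1
  rw [omega_eq, omega_eq]
  have h1 : b 1 = a 1 := by
    rw [← h 1]; simp
  rw [h1]
  congr 1
  symm
  apply Fintype.sum_equiv (MulAut.conj x).toEquiv
  intro y
  have e1 : (MulAut.conj x).toEquiv y = x * y * x⁻¹ := rfl
  rw [e1, h]
  have e2 : IsConj g ((MonoidHom.id G) y) ↔ IsConj g ((MonoidHom.id G) (x * y * x⁻¹)) := by
    have hc : IsConj y (x * y * x⁻¹) := isConj_iff.2 ⟨x, rfl⟩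
    exact ⟨fun h' => IsConj.trans h' hc, fun h' => IsConj.trans h' hc.symm⟩
  simp only [e2]

/-- the element `x` carries the column `i` of `(v, α)` to the column `j` -/
def Carry (v : Finset (Δ → Subgroup G)) (α : Δ → G → ℂ) (i j : Δ) (x : G) : Prop :=
  (∀ R ∈ v, conjS x (R i) = R j) ∧ ∀ y, α j (x * y * x⁻¹) = α i y

theorem Carry.trans {v : Finset (Δ → Subgroup G)} {α : Δ → G → ℂ} {i j k : Δ} {x y : G}
    (h1 : Carry v α i j x) (h2 : Carry v α j k y) : Carry v α i k (y * x) := by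
  refine ⟨fun R hR => ?_, fun z => ?_⟩
  · rw [← conjS_conjS, h1.1 R hR, h2.1 R hR]
  · have e : y * x * z * (y * x)⁻¹ = y * (x * z * x⁻¹) * y⁻¹ := by group
    rw [e, h2.2, h1.2]

theorem Carry.symm {v : Finset (Δ → Subgroup G)} {α : Δ → G → ℂ} {i j : Δ} {x : G}
    (h1 : Carry v α i j x) : Carry v α j i x⁻¹ := by
  refine ⟨fun R hR => ?_, fun z => ?_⟩
  · rw [← h1.1 R hR, conjS_conjS, inv_mul_cancel, conjS_one]
  · rw [← h1.2]
    congr 1
    group

theorem Carry.refl (v : Finset (Δ → Subgroup G)) (α : Δ → G → ℂ) (i : Δ) : Carry v α i i 1 := by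
  refine ⟨fun R _ => conjS_one _, fun z => ?_⟩
  simp

theorem carry_self {v : Finset (Δ → Subgroup G)} {α : Δ → G → ℂ} (hα : IsChars v α) {j : Δ}
    {x : G} : Carry v α j j x ↔ x ∈ colStab v j := by
  constructor
  · intro h
    exact mem_colStab.2 h.1
  · intro h
    exact ⟨mem_colStab.1 h, IrrS_class (hα j) h⟩

/-- the number of elements carrying a column to another one -/
theorem card_carry {v : Finset (Δ → Subgroup G)} {α : Δ → G → ℂ}
    (hα : IsChars v α) {i j : Δ} {x₀ : G} (h : Carry v α i j x₀) :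
    Nat.card {x : G // Carry v α i j x} = Nat.card (colStab v j) := by
  apply Nat.card_congr
  refine ⟨fun x => ⟨x.1 * x₀⁻¹, (carry_self hα).1 (h.symm.trans x.2)⟩,
    fun y => ⟨y.1 * x₀, h.trans ((carry_self hα).2 y.2)⟩, ?_, ?_⟩
  · intro x; apply Subtype.ext; simp
  · intro y; apply Subtype.ext; simp

theorem le_topSt_iff {v : Finset (Δ → Subgroup G)} {α : Δ → G → ℂ} {U : Subgroup K} :
    U ≤ topSt K v α ↔ ∀ k ∈ U, ∀ j, ∃ x, Carry v α (k⁻¹ • j) j x := by
  constructor
  · intro h k hk j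
    exact mem_topSt.1 (h hk) j
  · intro h k hk
    exact mem_topSt.2 (h k hk)

theorem carry_orbit {v : Finset (Δ → Subgroup G)} {α : Δ → G → ℂ} {U : Subgroup K}
    (h : U ≤ topSt K v α) {i j : Δ} (hj : j ∈ MulAction.orbit U i) : ∃ x, Carry v α i j x := by
  obtain ⟨k, rfl⟩ := hj
  have h1 := le_topSt_iff.1 h k k.2 ((k : U) • i)
  obtain ⟨x, hx⟩ := h1
  refine ⟨x, ?_⟩
  have e : (k : K)⁻¹ • (k • i) = i := by
    rw [Subgroup.smul_def, inv_smul_smul]
  rw [e] at hx
  exact hx

end

end Pool.Agent.Helper79_WRA.H62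
end
end -- Pool.Agent.Helper62_WRA.Mzero1

section -- Pool.Agent.Helper62_WRA.Mzero2

/-!
WRA, module MZERO, part 2: the order embedding and the bijection for fixed conjugating elements.
-/

open scoped BigOperators

noncomputable section

namespace Pool.Agent.Helper79_WRA.H62

open Pool.Agent.Helper51_AWC Pool.Agent.Helper79_WRA

/-- restricting a sum over chains to the chains inside a subset -/
theorem sum_chains_filter {A : Type*} [PartialOrder A] (s : Finset A) (b : A) (p : A → Prop)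
    [DecidablePred p] (F : Finset A → ℤ) (hF : ∀ v ∈ chainsOn s b, (∃ R ∈ v, ¬ p R) → F v = 0) :
    ∑ v ∈ chainsOn s b, F v = ∑ v ∈ chainsOn (s.filter p) b, F v := by
  symm
  apply Finset.sum_subset
  · intro v hv
    obtain ⟨h1, h2, h3⟩ := mem_chainsOn.1 hv
    exact mem_chainsOn.2 ⟨fun x hx => (Finset.mem_filter.1 (h1 hx)).1, h2, h3⟩
  · intro v hv hn
    apply hF v hv
    by_contra hc
    push Not at hc
    apply hn
    obtain ⟨h1, h2, h3⟩ := mem_chainsOn.1 hv
    exact mem_chainsOn.2 ⟨fun x hx => Finset.mem_filter.2 ⟨h1 hx, hc x hx⟩, h2, h3⟩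

open Classical in
/-- the first projections -/
def im1 {A B : Type*} (d : Finset (A × B)) : Finset A := d.image Prod.fst

open Classical in
/-- the second projections -/
def im2 {A B : Type*} (d : Finset (A × B)) : Finset B := d.image Prod.snd

theorem mem_im1 {A B : Type*} {d : Finset (A × B)} {x : A} : x ∈ im1 d ↔ ∃ p ∈ d, p.1 = x := by
  classical
  unfold im1
  exact Finset.mem_image

theorem mem_im2 {A B : Type*} {d : Finset (A × B)} {x : B} : x ∈ im2 d ↔ ∃ p ∈ d, p.2 = x := by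
  classical
  unfold im2
  exact Finset.mem_image

section
variable {G Δ : Type} [Group G]

open Classical in
/-- the function on `Δ` given by one subgroup on `ω` (conjugated by `g j`) and a function outside
of `ω` -/
def psiFun (ω : Set Δ) (g : Δ → G) (p : Subgroup G × ({j // j ∉ ω} → Subgroup G)) :
    Δ → Subgroup G := fun j => if h : j ∈ ω then conjS (g j) p.1 else p.2 ⟨j, h⟩

theorem psiFun_pos {ω : Set Δ} {g : Δ → G} {p : Subgroup G × ({j // j ∉ ω} → Subgroup G)} {j : Δ}
    (h : j ∈ ω) : psiFun ω g p j = conjS (g j) p.1 := by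
  unfold psiFun
  rw [dif_pos h]

theorem psiFun_neg {ω : Set Δ} {g : Δ → G} {p : Subgroup G × ({j // j ∉ ω} → Subgroup G)} {j : Δ}
    (h : j ∉ ω) : psiFun ω g p j = p.2 ⟨j, h⟩ := by
  unfold psiFun
  rw [dif_neg h]

/-- `psiFun` as an order embedding -/
def psi (ω : Set Δ) (j₀ : Δ) (hj : j₀ ∈ ω) (g : Δ → G) (hg : g j₀ = 1) :
    Subgroup G × ({j // j ∉ ω} → Subgroup G) ↪o (Δ → Subgroup G) :=
  OrderEmbedding.ofMapLEIff (psiFun ω g) (by
    intro p q
    constructor
    · intro h
      constructor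
      · have := h j₀
        rw [psiFun_pos hj, psiFun_pos hj, hg, conjS_one, conjS_one] at this
        exact this
      · intro j
        have := h j
        rw [psiFun_neg j.2, psiFun_neg j.2] at this
        exact this
    · intro h j
      by_cases hj' : j ∈ ω
      · rw [psiFun_pos hj', psiFun_pos hj']
        exact conjS_mono.2 h.1
      · rw [psiFun_neg hj', psiFun_neg hj']
        exact h.2 ⟨j, hj'⟩)

variable {ω : Set Δ} {j₀ : Δ} {hj : j₀ ∈ ω} {g : Δ → G} {hg : g j₀ = 1}

theorem psi_pos {p : Subgroup G × ({j // j ∉ ω} → Subgroup G)} {j : Δ} (h : j ∈ ω) :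
    psi ω j₀ hj g hg p j = conjS (g j) p.1 := psiFun_pos h

theorem psi_neg {p : Subgroup G × ({j // j ∉ ω} → Subgroup G)} {j : Δ} (h : j ∉ ω) :
    psi ω j₀ hj g hg p j = p.2 ⟨j, h⟩ := psiFun_neg h

theorem psi_base {p : Subgroup G × ({j // j ∉ ω} → Subgroup G)} :
    psi ω j₀ hj g hg p j₀ = p.1 := by
  rw [psi_pos hj, hg, conjS_one]

theorem psi_bot : psi ω j₀ hj g hg (⊥, fun _ => ⊥) = fun _ => ⊥ := by
  funext j
  by_cases h : j ∈ ω
  · rw [psi_pos h]; exact Subgroup.map_bot _
  · rw [psi_neg h]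

theorem conj_mem_psub {ℓ : ℕ} {x : G} {D : Subgroup G} [Finite G] (h : D ∈ psub ℓ G) :
    conjS x D ∈ psub ℓ G := by
  rw [mem_psub] at h ⊢
  refine ⟨?_, conjS_pgroup h.2⟩
  rw [← opCore_conj ℓ x]
  exact conjS_mono.2 h.1

open Classical in
theorem map_psi (ℓ : ℕ) [Finite G] [Fintype Δ] :
    (psub ℓ G ×ˢ boxes ℓ G {j // j ∉ ω}).map (psi ω j₀ hj g hg).toEmbedding =
      (boxes ℓ G Δ).filter (fun R => ∀ j ∈ ω, conjS (g j) (R j₀) = R j) := by
  ext R
  simp only [Finset.mem_map, Finset.mem_filter, Finset.mem_product]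
  constructor
  · rintro ⟨p, ⟨hp1, hp2⟩, rfl⟩
    refine ⟨mem_boxes.2 fun j => ?_, fun j hjj => ?_⟩
    · show psi ω j₀ hj g hg p j ∈ _
      by_cases h : j ∈ ω
      · rw [psi_pos h]; exact conj_mem_psub hp1
      · rw [psi_neg h]; exact mem_boxes.1 hp2 _
    · show conjS (g j) (psi ω j₀ hj g hg p j₀) = psi ω j₀ hj g hg p j
      rw [psi_base, psi_pos hjj]
  · rintro ⟨h1, h2⟩
    refine ⟨(R j₀, fun j => R j), ⟨mem_boxes.1 h1 j₀, mem_boxes.2 fun j => mem_boxes.1 h1 _⟩, ?_⟩
    funext j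
    show psi ω j₀ hj g hg (R j₀, fun j => R j) j = R j
    by_cases h : j ∈ ω
    · rw [psi_pos h]; exact h2 j h
    · rw [psi_neg h]

open Classical in
theorem colStab_psi_base (d : Finset (Subgroup G × ({j // j ∉ ω} → Subgroup G))) :
    colStab (d.map (psi ω j₀ hj g hg).toEmbedding) j₀ = stab (im1 d) := by
  ext x
  rw [mem_colStab, mem_stab]
  simp only [Finset.mem_map, mem_im1, mem_im2]
  constructor
  · rintro h D ⟨p, hp, rfl⟩
    have := h _ ⟨p, hp, rfl⟩
    have e : (psi ω j₀ hj g hg).toEmbedding p j₀ = p.1 := psi_base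
    rwa [e] at this
  · rintro h R ⟨p, hp, rfl⟩
    have e : (psi ω j₀ hj g hg).toEmbedding p j₀ = p.1 := psi_base
    rw [e]
    exact h _ ⟨p, hp, rfl⟩

theorem conjS_eq_iff {x y : G} {D : Subgroup G} :
    conjS x (conjS y D) = conjS y D ↔ conjS (y⁻¹ * x * y) D = D := by
  rw [conjS_conjS]
  constructor
  · intro h
    have := congrArg (conjS y⁻¹) h
    rw [conjS_conjS, conjS_conjS, inv_mul_cancel, conjS_one] at this
    rw [mul_assoc]; exact this
  · intro h
    have := congrArg (conjS y) h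
    rw [conjS_conjS] at this
    rw [← this]
    congr 1
    group

open Classical in
theorem colStab_psi_pos (d : Finset (Subgroup G × ({j // j ∉ ω} → Subgroup G))) {j : Δ}
    (h : j ∈ ω) : colStab (d.map (psi ω j₀ hj g hg).toEmbedding) j =
      conjS (g j) (stab (im1 d)) := by
  ext x
  rw [mem_colStab, mem_conjS, mem_stab]
  simp only [Finset.mem_map, mem_im1, mem_im2]
  constructor
  · rintro h' D ⟨p, hp, rfl⟩
    have := h' _ ⟨p, hp, rfl⟩
    have e : (psi ω j₀ hj g hg).toEmbedding p j = conjS (g j) p.1 := psi_pos h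
    rw [e] at this
    exact conjS_eq_iff.1 this
  · rintro h' R ⟨p, hp, rfl⟩
    have e : (psi ω j₀ hj g hg).toEmbedding p j = conjS (g j) p.1 := psi_pos h
    rw [e]
    exact conjS_eq_iff.2 (h' _ ⟨p, hp, rfl⟩)

open Classical in
theorem colStab_psi_neg (d : Finset (Subgroup G × ({j // j ∉ ω} → Subgroup G))) {j : Δ}
    (h : j ∉ ω) : colStab (d.map (psi ω j₀ hj g hg).toEmbedding) j =
      colStab (im2 d) ⟨j, h⟩ := by
  ext x
  rw [mem_colStab, mem_colStab]
  simp only [Finset.mem_map, mem_im1, mem_im2]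
  constructor
  · rintro h' R ⟨p, hp, rfl⟩
    have := h' _ ⟨p, hp, rfl⟩
    have e : (psi ω j₀ hj g hg).toEmbedding p j = p.2 ⟨j, h⟩ := psi_neg h
    rwa [e] at this
  · rintro h' R ⟨p, hp, rfl⟩
    have e : (psi ω j₀ hj g hg).toEmbedding p j = p.2 ⟨j, h⟩ := psi_neg h
    rw [e]
    exact h' _ ⟨p, hp, rfl⟩

end

end Pool.Agent.Helper79_WRA.H62
end
end -- Pool.Agent.Helper62_WRA.Mzero2

section -- Pool.Agent.Helper62_WRA.Mzero3

/-!
WRA, module MZERO, part 3: the characters for fixed conjugating elements.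
-/

open scoped BigOperators

noncomputable section

namespace Pool.Agent.Helper79_WRA.H62

open Pool.Agent.Helper51_AWC Pool.Agent.Helper79_WRA

section
variable {G Δ K : Type} [Group G] [Group K] [MulAction K Δ]

/-- the stability condition outside of `ω` -/
def Bc (ω : Set Δ) (U : Subgroup K) (c : Finset ({j // j ∉ ω} → Subgroup G))
    (α : {j // j ∉ ω} → G → ℂ) : Prop :=
  ∀ k ∈ U, ∀ i j : {j // j ∉ ω}, (i : Δ) = k⁻¹ • (j : Δ) → ∃ x, Carry c α i j x

open Classical in
/-- the datum on `Δ` -/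
def dext (M : Ideal (integralClosure ℤ ℂ)) (ω : Set Δ) (b : G → FF M)
    (c : Finset ({j // j ∉ ω} → Subgroup G)) (α : {j // j ∉ ω} → G → ℂ) :
    Δ → (G → FF M) × FF M :=
  fun j => if h : j ∈ ω then (b, 0) else dat M c α ⟨j, h⟩

open Classical in
/-- the characters on `Δ` from one on `ω` and those outside -/
def glue (ω : Set Δ) (g : Δ → G) (q : (G → ℂ) × ({j // j ∉ ω} → G → ℂ)) : Δ → G → ℂ :=
  fun j => if h : j ∈ ω then (fun y => q.1 ((g j)⁻¹ * y * g j)) else q.2 ⟨j, h⟩

theorem glue_pos {ω : Set Δ} {g : Δ → G} {q : (G → ℂ) × ({j // j ∉ ω} → G → ℂ)} {j : Δ}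
    (h : j ∈ ω) : glue ω g q j = fun y => q.1 ((g j)⁻¹ * y * g j) := by
  unfold glue
  rw [dif_pos h]

theorem glue_neg {ω : Set Δ} {g : Δ → G} {q : (G → ℂ) × ({j // j ∉ ω} → G → ℂ)} {j : Δ}
    (h : j ∉ ω) : glue ω g q j = q.2 ⟨j, h⟩ := by
  unfold glue
  rw [dif_neg h]

variable {ω : Set Δ} {j₀ : Δ} {hj : j₀ ∈ ω} {g : Δ → G} {hg : g j₀ = 1}

open Classical in
theorem carry_psi_neg (d : Finset (Subgroup G × ({j // j ∉ ω} → Subgroup G)))
    (α : Δ → G → ℂ) (i j : {j // j ∉ ω}) (x : G) :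
    Carry (d.map (psi ω j₀ hj g hg).toEmbedding) α i j x ↔
      Carry (im2 d) (fun j => α j) i j x := by
  unfold Carry
  refine and_congr ?_ Iff.rfl
  simp only [Finset.mem_map, mem_im1, mem_im2]
  constructor
  · rintro h' R ⟨p, hp, rfl⟩
    have := h' _ ⟨p, hp, rfl⟩
    have e1 : (psi ω j₀ hj g hg).toEmbedding p j = p.2 j := psi_neg j.2
    have e2 : (psi ω j₀ hj g hg).toEmbedding p i = p.2 i := psi_neg i.2
    rwa [e1, e2] at this
  · rintro h' R ⟨p, hp, rfl⟩
    have e1 : (psi ω j₀ hj g hg).toEmbedding p j = p.2 j := psi_neg j.2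
    have e2 : (psi ω j₀ hj g hg).toEmbedding p i = p.2 i := psi_neg i.2
    rw [e1, e2]
    exact h' _ ⟨p, hp, rfl⟩

open Classical in
theorem dat_eq [Finite G] {ℓ : ℕ} {M : Ideal (integralClosure ℤ ℂ)}
    {d : Finset (Subgroup G × ({j // j ∉ ω} → Subgroup G))} {α : Δ → G → ℂ}
    {β : Δ → G → FF M} (hβ : ∀ j ∈ ω, β j = β j₀)
    (hd : im1 d ∈ chainsOn (psub ℓ G) ⊥)
    (h2 : ∀ d ∈ chainsOn (psub ℓ G) ⊥, ∀ a ∈ IrrS (stab d), labF M a = β j₀ →
      red M ((Nat.card (stab d) : ℂ) / a 1) = 0)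
    (hα : IsChars (d.map (psi ω j₀ hj g hg).toEmbedding) α)
    (hc : ∀ j ∈ ω, Carry (d.map (psi ω j₀ hj g hg).toEmbedding) α j₀ j (g j))
    (hlab : ∀ j, labF M (α j) = β j) :
    dat M (d.map (psi ω j₀ hj g hg).toEmbedding) α =
      dext M ω (β j₀) (im2 d) (fun j => α j) := by
  funext j
  by_cases h : j ∈ ω
  · have e : dext M ω (β j₀) (im2 d) (fun j => α j) j = (β j₀, 0) := by
      unfold dext
      rw [dif_pos h]
    rw [e]
    refine Prod.ext ?_ ?_
    · show labF M (α j) = β j₀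
      rw [hlab, hβ j h]
    · show red M ((Nat.card (colStab (d.map (psi ω j₀ hj g hg).toEmbedding) j) : ℂ) / α j 1) = 0
      have e1 : α j 1 = α j₀ 1 := by
        have := (hc j h).2 1
        simpa using this
      have e2 : Nat.card (colStab (d.map (psi ω j₀ hj g hg).toEmbedding) j) =
          Nat.card (stab (im1 d)) := by
        rw [colStab_psi_pos d h]
        exact Nat.card_congr (conjE (g j) _).toEquiv
      rw [e1, e2]
      refine h2 _ hd (α j₀) ?_ (hlab j₀)
      have := hα j₀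
      rwa [colStab_psi_base] at this
  · have e : dext M ω (β j₀) (im2 d) (fun j => α j) j =
        dat M (im2 d) (fun j => α j) ⟨j, h⟩ := by
      unfold dext
      rw [dif_neg h]
    rw [e]
    unfold dat
    rw [colStab_psi_neg d h]

open Classical in
/-- the bijection of characters -/
theorem card_chars [Finite G] [Fintype Δ] {ℓ : ℕ} {M : Ideal (integralClosure ℤ ℂ)}
    {U : Subgroup K} (hω : ω = MulAction.orbit U j₀)
    {d : Finset (Subgroup G × ({j // j ∉ ω} → Subgroup G))}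
    {β : Δ → G → FF M} {P : (Δ → (G → FF M) × FF M) → Prop} (hβ : ∀ j ∈ ω, β j = β j₀)
    (hd : im1 d ∈ chainsOn (psub ℓ G) ⊥)
    (h2 : ∀ d ∈ chainsOn (psub ℓ G) ⊥, ∀ a ∈ IrrS (stab d), labF M a = β j₀ →
      red M ((Nat.card (stab d) : ℂ) / a 1) = 0) :
    ((charsOf (d.map (psi ω j₀ hj g hg).toEmbedding)).filter (fun α =>
      (U ≤ topSt K (d.map (psi ω j₀ hj g hg).toEmbedding) α ∧ (∀ j, labF M (α j) = β j) ∧
        P (dat M (d.map (psi ω j₀ hj g hg).toEmbedding) α)) ∧
      ∀ j ∈ ω, Carry (d.map (psi ω j₀ hj g hg).toEmbedding) α j₀ j (g j))).card =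
    ((IrrS_finite (stab (im1 d))).toFinset.filter (fun a => labF M a = β j₀)).card *
    ((charsOf (im2 d)).filter (fun α => Bc ω U (im2 d) α ∧
      (∀ j : {j // j ∉ ω}, labF M (α j) = β j) ∧
      P (dext M ω (β j₀) (im2 d) α))).card := by
  have hinv : ∀ k ∈ U, ∀ j : Δ, j ∈ ω ↔ k⁻¹ • j ∈ ω := by
    intro k hk j
    rw [hω]
    constructor
    · rintro ⟨u, rfl⟩
      exact ⟨⟨k⁻¹, U.inv_mem hk⟩ * u, mul_smul _ _ _⟩
    · rintro ⟨u, hu⟩
      refine ⟨⟨k, hk⟩ * u, ?_⟩
      have hu' : u • j₀ = k⁻¹ • j := hu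
      show ((⟨k, hk⟩ : U) * u) • j₀ = j
      rw [mul_smul, hu', Subgroup.smul_def, smul_inv_smul]
  rw [← Finset.card_product]
  apply Finset.card_nbij' (i := fun α => (α j₀, fun j : {j // j ∉ ω} => α j))
    (j := fun q => glue ω g q)
  · intro α hα
    rw [Finset.mem_coe, Finset.mem_filter, mem_charsOf] at hα
    obtain ⟨hα, ⟨hU, hlab, hP⟩, hc⟩ := hα
    rw [Finset.mem_coe, Finset.mem_product, Finset.mem_filter, Finset.mem_filter, mem_charsOf,
      Set.Finite.mem_toFinset]
    refine ⟨⟨?_, hlab j₀⟩, ?_, ?_, fun j => hlab j, ?_⟩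
    · have := hα j₀
      rwa [colStab_psi_base] at this
    · intro j
      have := hα j
      rw [colStab_psi_neg d j.2] at this
      exact this
    · intro k hk i j hij
      obtain ⟨x, hx⟩ := le_topSt_iff.1 hU k hk j
      refine ⟨x, ?_⟩
      rw [← hij] at hx
      exact (carry_psi_neg d α i j x).1 hx
    · rw [dat_eq hβ hd h2 hα hc hlab] at hP
      exact hP
  · rintro ⟨a, α⟩ hq
    rw [Finset.mem_coe, Finset.mem_product, Finset.mem_filter, Finset.mem_filter, mem_charsOf,
      Set.Finite.mem_toFinset] at hq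
    obtain ⟨⟨ha, hla⟩, hα, hB, hlab, hP⟩ := hq
    rw [Finset.mem_coe, Finset.mem_filter, mem_charsOf]
    have hres : (fun j : {j // j ∉ ω} => glue ω g (a, α) j) = α := by
      funext j
      exact glue_neg j.2
    have hch : IsChars (d.map (psi ω j₀ hj g hg).toEmbedding) (glue ω g (a, α)) := by
      intro j
      by_cases h : j ∈ ω
      · rw [glue_pos h, colStab_psi_pos d h]
        exact IrrS_conj ha (g j)
      · rw [glue_neg h, colStab_psi_neg d h]
        exact hα ⟨j, h⟩
    have hcar : ∀ j ∈ ω, Carry (d.map (psi ω j₀ hj g hg).toEmbedding) (glue ω g (a, α)) j₀ j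
        (g j) := by
      intro j h
      refine ⟨?_, fun y => ?_⟩
      · intro R hR
        obtain ⟨p, hp, rfl⟩ := Finset.mem_map.1 hR
        have e1 : (psi ω j₀ hj g hg).toEmbedding p j₀ = p.1 := psi_base
        have e2 : (psi ω j₀ hj g hg).toEmbedding p j = conjS (g j) p.1 := psi_pos h
        rw [e1, e2]
      · rw [glue_pos h, glue_pos hj, hg]
        show a _ = a _
        congr 1
        group
    have hl : ∀ j, labF M (glue ω g (a, α) j) = β j := by
      intro j
      by_cases h : j ∈ ω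
      · rw [labF_conj (hcar j h).2, glue_pos hj, hg, hβ j h, ← hla]
        congr 1
        funext y
        show a _ = a y
        congr 1
        group
      · rw [glue_neg h]
        exact hlab ⟨j, h⟩
    refine ⟨hch, ⟨?_, hl, ?_⟩, hcar⟩
    · rw [le_topSt_iff]
      intro k hk j
      by_cases h : j ∈ ω
      · have h' := (hinv k hk j).1 h
        exact ⟨_, (hcar _ h').symm.trans (hcar j h)⟩
      · have h' : k⁻¹ • j ∉ ω := fun hc => h ((hinv k hk j).2 hc)
        obtain ⟨x, hx⟩ := hB k hk ⟨k⁻¹ • j, h'⟩ ⟨j, h⟩ rfl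
        refine ⟨x, (carry_psi_neg d (glue ω g (a, α)) ⟨k⁻¹ • j, h'⟩ ⟨j, h⟩ x).2 ?_⟩
        rw [hres]
        exact hx
    · rw [dat_eq hβ hd h2 hch hcar hl, hres]
      exact hP
  · intro α hα
    rw [Finset.mem_coe, Finset.mem_filter, mem_charsOf] at hα
    obtain ⟨hα, _, hc⟩ := hα
    funext j
    show glue ω g (α j₀, fun j : {j // j ∉ ω} => α j) j = α j
    by_cases h : j ∈ ω
    · rw [glue_pos h]
      funext y
      show α j₀ _ = α j y
      rw [← (hc j h).2]
      congr 1
      group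
    · rw [glue_neg h]
  · rintro ⟨a, α⟩ hq
    refine Prod.ext ?_ ?_
    · show glue ω g (a, α) j₀ = a
      rw [glue_pos hj, hg]
      funext y
      show a _ = a y
      congr 1
      group
    · funext j
      exact glue_neg j.2

end

end Pool.Agent.Helper79_WRA.H62
end
end -- Pool.Agent.Helper62_WRA.Mzero3

section -- Pool.Agent.Helper62_WRA.Mzero

/-!
WRA, module MZERO.
-/

open scoped BigOperators

noncomputable section

namespace Pool.Agent.Helper79_WRA.H62

open Pool.Agent.Helper51_AWC Pool.Agent.Helper79_WRA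

section
variable {G Δ K : Type} [Group G] [Group K] [MulAction K Δ]

open Classical in
/-- the product of the orders of the column stabilisers outside of `ω` and at `j₀` -/
def wt [Fintype Δ] (ω : Set Δ) (j₀ : Δ) (v : Finset (Δ → Subgroup G)) : ℤ :=
  ∏ j, if j ∈ ω ∧ j ≠ j₀ then 1 else (Nat.card (colStab v j) : ℤ)

variable {ω : Set Δ} {j₀ : Δ} {hj : j₀ ∈ ω} {g : Δ → G} {hg : g j₀ = 1}

open Classical in
theorem wt_psi [Fintype Δ] (d : Finset (Subgroup G × ({j // j ∉ ω} → Subgroup G))) :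
    wt ω j₀ (d.map (psi ω j₀ hj g hg).toEmbedding) =
      (Nat.card (stab (im1 d)) : ℤ) *
        ∏ j : {j // j ∉ ω}, (Nat.card (colStab (im2 d) j) : ℤ) := by
  unfold wt
  have h1 : ∀ j : Δ, (if j ∈ ω ∧ j ≠ j₀ then (1 : ℤ) else
      (Nat.card (colStab (d.map (psi ω j₀ hj g hg).toEmbedding) j) : ℤ)) =
      (if j = j₀ then (Nat.card (stab (im1 d)) : ℤ) else 1) *
      (if h : j ∉ ω then (Nat.card (colStab (im2 d) ⟨j, h⟩) : ℤ) else 1) := by
    intro j
    by_cases h : j ∈ ω
    · rw [dif_neg (not_not.2 h), mul_one]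
      by_cases h' : j = j₀
      · subst h'
        rw [if_neg (fun hc => hc.2 rfl), if_pos rfl, colStab_psi_base]
      · rw [if_pos ⟨h, h'⟩, if_neg h']
    · have h' : j ≠ j₀ := fun hc => h (hc ▸ hj)
      rw [dif_pos h, if_neg h', one_mul, if_neg (fun hc => h hc.1), colStab_psi_neg d h]
  rw [Finset.prod_congr rfl fun j _ => h1 j, Finset.prod_mul_distrib]
  congr 1
  · rw [Finset.prod_ite_eq' Finset.univ j₀]
    simp
  · rw [Finset.prod_dite, Finset.prod_const_one, mul_one]
    symm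
    apply Finset.prod_bij (fun (j : {j // j ∉ ω}) _ =>
      (⟨j.1, by simp [j.2]⟩ : {x // x ∈ Finset.univ.filter (fun j => j ∉ ω)}))
    · intro j _; exact Finset.mem_attach _ _
    · intro i _ j _ h
      apply Subtype.ext
      have := congrArg Subtype.val h
      exact this
    · intro j _
      have := (Finset.mem_filter.1 j.2).2
      exact ⟨⟨j.1, this⟩, Finset.mem_univ _, rfl⟩
    · intro j _; rfl

/-- the image of a chain under the first projection is a chain -/
theorem im1_chain {A B : Type*} [PartialOrder A] [PartialOrder B] {s : Finset A} {t : Finset B}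
    {a : A} {b : B} {d : Finset (A × B)} (hd : d ∈ chainsOn (s ×ˢ t) (a, b)) :
    im1 d ∈ chainsOn s a := by
  obtain ⟨h1, h2, h3⟩ := mem_chainsOn.1 hd
  refine mem_chainsOn.2 ⟨?_, mem_im1.2 ⟨_, h2, rfl⟩, ?_⟩
  · intro x hx
    obtain ⟨p, hp, rfl⟩ := mem_im1.1 hx
    exact (Finset.mem_product.1 (h1 hp)).1
  · intro x hx y hy hne
    obtain ⟨p, hp, rfl⟩ := mem_im1.1 (Finset.mem_coe.1 hx)
    obtain ⟨q, hq, rfl⟩ := mem_im1.1 (Finset.mem_coe.1 hy)
    rcases chain_total h3 hp hq with h | h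
    · exact Or.inl h.1
    · exact Or.inr h.1

open Classical in
/-- the sum for fixed conjugating elements vanishes -/
theorem fixed_zero [Finite G] [Fintype Δ] {ℓ : ℕ} [Fact ℓ.Prime] {M : Ideal (integralClosure ℤ ℂ)}
    {U : Subgroup K} (hω : ω = MulAction.orbit U j₀) (g : Δ → G) (hg : g j₀ = 1)
    {β : Δ → G → FF M} {P : (Δ → (G → FF M) × FF M) → Prop}
    (h1 : ∑ d ∈ chainsOn (psub ℓ G) ⊥, (-1) ^ (d.card + 1) * ((Nat.card (stab d) : ℤ) *
      (({a | a ∈ IrrS (stab d) ∧ labF M a = β j₀}.ncard : ℕ) : ℤ)) = 0)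
    (h2 : ∀ d ∈ chainsOn (psub ℓ G) ⊥, ∀ a ∈ IrrS (stab d), labF M a = β j₀ →
      red M ((Nat.card (stab d) : ℂ) / a 1) = 0) :
    ∑ v ∈ chainsOn (boxes ℓ G Δ) (fun _ => ⊥), (-1) ^ (v.card + 1) * (wt ω j₀ v *
      (((charsOf v).filter (fun α => (U ≤ topSt K v α ∧ (∀ j, labF M (α j) = β j) ∧
        P (dat M v α)) ∧ ∀ j ∈ ω, Carry v α j₀ j (g j))).card : ℤ)) = 0 := by
  have hj : j₀ ∈ ω := by rw [hω]; exact MulAction.mem_orbit_self j₀
  by_cases hβ : ∀ j ∈ ω, β j = β j₀
  swap
  · apply Finset.sum_eq_zero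
    intro v _
    have : (charsOf v).filter (fun α => (U ≤ topSt K v α ∧ (∀ j, labF M (α j) = β j) ∧
        P (dat M v α)) ∧ ∀ j ∈ ω, Carry v α j₀ j (g j)) = ∅ := by
      rw [Finset.filter_eq_empty_iff]
      rintro α _ ⟨⟨_, hlab, _⟩, hc⟩
      apply hβ
      intro j hjω
      rw [← hlab j, ← hlab j₀]
      exact labF_conj (hc j hjω).2
    rw [this]; simp
  rw [sum_chains_filter (boxes ℓ G Δ) (fun _ => ⊥) (fun R => ∀ j ∈ ω, conjS (g j) (R j₀) = R j)]
  swap
  · rintro v _ ⟨R, hR, hn⟩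
    have : (charsOf v).filter (fun α => (U ≤ topSt K v α ∧ (∀ j, labF M (α j) = β j) ∧
        P (dat M v α)) ∧ ∀ j ∈ ω, Carry v α j₀ j (g j)) = ∅ := by
      rw [Finset.filter_eq_empty_iff]
      rintro α _ ⟨_, hc⟩
      exact hn fun j hjω => (hc j hjω).1 R hR
    rw [this]; simp
  have e1 := map_psi (ω := ω) (j₀ := j₀) (hj := hj) (g := g) (hg := hg) (G := G) ℓ
  have e2 := psi_bot (ω := ω) (j₀ := j₀) (hj := hj) (g := g) (hg := hg)
  rw [← e1, ← e2, sum_chainsOn_map]
  have e3 : ∀ d ∈ chainsOn (psub ℓ G ×ˢ boxes ℓ G {j // j ∉ ω}) (⊥, fun _ => ⊥),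
      (-1) ^ ((d.map (psi ω j₀ hj g hg).toEmbedding).card + 1) *
        (wt ω j₀ (d.map (psi ω j₀ hj g hg).toEmbedding) *
      (((charsOf (d.map (psi ω j₀ hj g hg).toEmbedding)).filter (fun α =>
        (U ≤ topSt K (d.map (psi ω j₀ hj g hg).toEmbedding) α ∧ (∀ j, labF M (α j) = β j) ∧
        P (dat M (d.map (psi ω j₀ hj g hg).toEmbedding) α)) ∧
        ∀ j ∈ ω, Carry (d.map (psi ω j₀ hj g hg).toEmbedding) α j₀ j (g j))).card : ℤ)) =
      (-1) ^ (d.card + 1) * (fun (c : Finset (Subgroup G))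
        (c' : Finset ({j // j ∉ ω} → Subgroup G)) =>
        ((Nat.card (stab c) : ℤ) *
          ((((IrrS_finite (stab c)).toFinset.filter (fun a => labF M a = β j₀)).card : ℕ) : ℤ)) *
        ((∏ j : {j // j ∉ ω}, (Nat.card (colStab c' j) : ℤ)) *
          ((((charsOf c').filter (fun α => Bc ω U c' α ∧
            (∀ j : {j // j ∉ ω}, labF M (α j) = β j) ∧
            P (dext M ω (β j₀) c' α))).card : ℕ) : ℤ))) (im1 d) (im2 d) := by
    intro d hd
    rw [Finset.card_map, wt_psi, card_chars hω hβ (im1_chain hd) h2]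
    push_cast
    ring
  rw [Finset.sum_congr rfl e3]
  have e4 := sum_prod_chains (psub ℓ G) ⊥ (boxes ℓ G {j // j ∉ ω}) (fun _ => ⊥)
    (fun x _ => bot_le) (fun y _ => fun j => bot_le) (fun (c : Finset (Subgroup G))
        (c' : Finset ({j // j ∉ ω} → Subgroup G)) =>
        ((Nat.card (stab c) : ℤ) *
          ((((IrrS_finite (stab c)).toFinset.filter (fun a => labF M a = β j₀)).card : ℕ) : ℤ)) *
        ((∏ j : {j // j ∉ ω}, (Nat.card (colStab c' j) : ℤ)) *
          ((((charsOf c').filter (fun α => Bc ω U c' α ∧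
            (∀ j : {j // j ∉ ω}, labF M (α j) = β j) ∧
            P (dext M ω (β j₀) c' α))).card : ℕ) : ℤ)))
  refine e4.trans ?_
  have e5 : ∀ c ∈ chainsOn (psub ℓ G) ⊥,
      (({a | a ∈ IrrS (stab c) ∧ labF M a = β j₀}.ncard : ℕ) : ℤ) =
        ((((IrrS_finite (stab c)).toFinset.filter (fun a => labF M a = β j₀)).card : ℕ) : ℤ) := by
    intro c _
    congr 1
    rw [← Set.ncard_coe_finset]
    congr 1
    ext a
    simp
  rw [Finset.sum_comm]
  apply Finset.sum_eq_zero
  intro c' _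
  have e6 : ∀ c ∈ chainsOn (psub ℓ G) ⊥, (-1) ^ (c.card + 1) * (-1) ^ (c'.card + 1) *
      (((Nat.card (stab c) : ℤ) *
          ((((IrrS_finite (stab c)).toFinset.filter (fun a => labF M a = β j₀)).card : ℕ) : ℤ)) *
        ((∏ j : {j // j ∉ ω}, (Nat.card (colStab c' j) : ℤ)) *
          ((((charsOf c').filter (fun α => Bc ω U c' α ∧
            (∀ j : {j // j ∉ ω}, labF M (α j) = β j) ∧
            P (dext M ω (β j₀) c' α))).card : ℕ) : ℤ))) =
      ((-1) ^ (c.card + 1) * ((Nat.card (stab c) : ℤ) *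
      (({a | a ∈ IrrS (stab c) ∧ labF M a = β j₀}.ncard : ℕ) : ℤ))) *
      ((-1) ^ (c'.card + 1) * ((∏ j : {j // j ∉ ω}, (Nat.card (colStab c' j) : ℤ)) *
          ((((charsOf c').filter (fun α => Bc ω U c' α ∧
            (∀ j : {j // j ∉ ω}, labF M (α j) = β j) ∧
            P (dext M ω (β j₀) c' α))).card : ℕ) : ℤ))) := by
    intro c hc
    rw [e5 c hc]
    ring
  rw [Finset.sum_congr rfl e6, ← Finset.sum_mul, h1, zero_mul]

open Classical in
/-- counting the conjugating elements -/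
theorem count_carry [Finite G] [Fintype (Δ → G)] [Fintype Δ] {U : Subgroup K}
    (hω : ω = MulAction.orbit U j₀)
    {v : Finset (Δ → Subgroup G)} {α : Δ → G → ℂ} (hα : IsChars v α) (hU : U ≤ topSt K v α) :
    (∏ j, (Nat.card (colStab v j) : ℤ)) *
        (∏ j, if j ∈ ω ∧ j ≠ j₀ then (1 : ℤ) else (Nat.card G : ℤ)) =
      wt ω j₀ v * (((Finset.univ : Finset (Δ → G)).filter (fun g => ∀ j ∈ ω,
        Carry v α j₀ j (Function.update g j₀ 1 j))).card : ℤ) := by
  have := Fintype.ofFinite G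
  have e1 : (Finset.univ : Finset (Δ → G)).filter (fun g => ∀ j ∈ ω,
      Carry v α j₀ j (Function.update g j₀ 1 j)) =
      Fintype.piFinset (fun j => (Finset.univ : Finset G).filter (fun x =>
        (j ∈ ω ∧ j ≠ j₀) → Carry v α j₀ j x)) := by
    ext g
    rw [Finset.mem_filter, Fintype.mem_piFinset]
    constructor
    · rintro ⟨_, h⟩ j
      rw [Finset.mem_filter]
      refine ⟨Finset.mem_univ _, fun hj => ?_⟩
      have := h j hj.1
      rwa [Function.update_of_ne hj.2] at this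
    · intro h
      refine ⟨Finset.mem_univ _, fun j hjω => ?_⟩
      by_cases hj : j = j₀
      · subst hj
        rw [Function.update_self]
        exact Carry.refl v α j
      · rw [Function.update_of_ne hj]
        exact (Finset.mem_filter.1 (h j)).2 ⟨hjω, hj⟩
  rw [e1, Fintype.card_piFinset]
  push_cast
  unfold wt
  rw [← Finset.prod_mul_distrib, ← Finset.prod_mul_distrib]
  refine Finset.prod_congr rfl fun j _ => ?_
  by_cases hj : j ∈ ω ∧ j ≠ j₀
  · rw [if_pos hj, if_pos hj, mul_one, one_mul]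
    obtain ⟨x, hx⟩ := carry_orbit hU (hω ▸ hj.1)
    rw [← card_carry hα hx, Nat.card_eq_fintype_card, Fintype.card_subtype]
    congr 2
    ext y
    simp [hj]
  · rw [if_neg hj, if_neg hj]
    congr 1
    have : (Finset.univ : Finset G).filter (fun x => (j ∈ ω ∧ j ≠ j₀) → Carry v α j₀ j x) =
        Finset.univ := by
      rw [Finset.filter_eq_self]
      intro x _ hc
      exact absurd hc hj
    rw [this, Finset.card_univ, Nat.card_eq_fintype_card]

end

/-- MZERO -/
theorem mzero : MZeroStmt := by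
  intro ℓ _ G Δ K _ _ _ _ _ _ M U j₀ β P _ h1 h2
  classical
  have : Fintype (Δ → G) := Fintype.ofFinite _
  have hK : (∏ j : Δ, if j ∈ MulAction.orbit U j₀ ∧ j ≠ j₀ then (1 : ℤ) else (Nat.card G : ℤ)) ≠
      0 := by
    refine Finset.prod_ne_zero_iff.2 fun j _ => ?_
    split_ifs
    · exact one_ne_zero
    · exact_mod_cast Nat.card_pos.ne'
  have hmain : (∑ v ∈ chainsOn (boxes ℓ G Δ) (fun _ => ⊥), (-1) ^ (v.card + 1) *
      ∑ α ∈ (charsOf v).filter (fun α => U ≤ topSt K v α ∧ (∀ j, labF M (α j) = β j) ∧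
        P (dat M v α)), ∏ j, (Nat.card (colStab v j) : ℤ)) *
      (∏ j : Δ, if j ∈ MulAction.orbit U j₀ ∧ j ≠ j₀ then (1 : ℤ) else (Nat.card G : ℤ)) =
      ∑ g : Δ → G, ∑ v ∈ chainsOn (boxes ℓ G Δ) (fun _ => ⊥), (-1) ^ (v.card + 1) *
        (wt (MulAction.orbit U j₀) j₀ v *
      (((charsOf v).filter (fun α => (U ≤ topSt K v α ∧ (∀ j, labF M (α j) = β j) ∧
        P (dat M v α)) ∧ ∀ j ∈ MulAction.orbit U j₀,
          Carry v α j₀ j (Function.update g j₀ 1 j))).card : ℤ)) := by
    rw [Finset.sum_comm, Finset.sum_mul]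
    refine Finset.sum_congr rfl fun v _ => ?_
    rw [← Finset.mul_sum, mul_assoc, ← Finset.mul_sum]
    congr 1
    rw [Finset.sum_mul]
    have e1 : ∀ α ∈ (charsOf v).filter (fun α => U ≤ topSt K v α ∧ (∀ j, labF M (α j) = β j) ∧
        P (dat M v α)), (∏ j, (Nat.card (colStab v j) : ℤ)) *
        (∏ j : Δ, if j ∈ MulAction.orbit U j₀ ∧ j ≠ j₀ then (1 : ℤ) else (Nat.card G : ℤ)) =
        wt (MulAction.orbit U j₀) j₀ v * ∑ g : Δ → G, if (∀ j ∈ MulAction.orbit U j₀,
          Carry v α j₀ j (Function.update g j₀ 1 j)) then (1 : ℤ) else 0 := by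
      intro α hα
      rw [Finset.mem_filter, mem_charsOf] at hα
      rw [count_carry rfl hα.1 hα.2.1, Finset.sum_boole]
    rw [Finset.sum_congr rfl e1, ← Finset.mul_sum]
    congr 1
    rw [Finset.sum_comm]
    refine Finset.sum_congr rfl fun g _ => ?_
    rw [Finset.sum_boole, Finset.filter_filter]
  have h0 := hmain.trans (Finset.sum_eq_zero fun g _ => ?_)
  · rcases mul_eq_zero.1 h0 with h | h
    · exact h
    · exact absurd h hK
  · exact fixed_zero rfl (Function.update g j₀ 1) (Function.update_self _ _ _) h1 h2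

end Pool.Agent.Helper79_WRA.H62
end
end -- Pool.Agent.Helper62_WRA.Mzero

section -- Pool.Agent.Helper29_CC.Boxt

/-!
CC, module BOXT: the sum over the families stabilised by a transitive group (adapted from the
module MZERO of the wreath product squad).
-/

open scoped BigOperators

noncomputable section

namespace Pool.Agent.Helper29_CC

open Pool.Agent.Helper51_AWC Pool.Agent.Helper79_WRA Pool.Agent.Helper79_WRA.H62
open Pool.Agent.Helper98_CC

section
variable {G Δ K : Type} [Group G] [Group K] [MulAction K Δ]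
variable {ω : Set Δ} {j₀ : Δ}

theorem chains_empty [Finite G] [Finite Δ] {ℓ : ℕ} (hE : IsEmpty {j // j ∉ ω}) :
    chainsOn (boxes ℓ G {j // j ∉ ω}) (fun _ => ⊥) = {{fun _ => ⊥}} := by
  ext c
  rw [Finset.mem_singleton, mem_chainsOn]
  constructor
  · rintro ⟨_, h2, _⟩
    ext R
    rw [Finset.mem_singleton]
    have hR : R = fun _ => ⊥ := Subsingleton.elim _ _
    constructor
    · intro _; exact hR
    · intro _; rw [hR]; exact h2
  · rintro rfl
    refine ⟨?_, Finset.mem_singleton_self _, ?_⟩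
    · intro R _
      exact mem_boxes.2 fun j => hE.elim j
    · intro x _ y _ hne
      exact absurd (Subsingleton.elim x y) hne

theorem chars_empty [Finite G] [Finite Δ] (hE : IsEmpty {j // j ∉ ω})
    (c : Finset ({j // j ∉ ω} → Subgroup G)) : (charsOf c).card = 1 := by
  rw [Finset.card_eq_one]
  refine ⟨fun j => hE.elim j, ?_⟩
  ext α
  rw [Finset.mem_singleton, mem_charsOf]
  constructor
  · intro _; exact Subsingleton.elim _ _
  · intro _ j
    exact hE.elim j

open Classical in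
/-- the sum for fixed conjugating elements -/
theorem fixed_val [Finite G] [Fintype Δ] {ℓ : ℕ} [Fact ℓ.Prime] {M : Ideal (integralClosure ℤ ℂ)}
    {U : Subgroup K} (hω : ω = MulAction.orbit U j₀) (hun : ∀ j, j ∈ ω) (g : Δ → G)
    (hg : g j₀ = 1) {β : G → FF M} {P : (Δ → (G → FF M) × FF M) → Prop} (hP : ∀ x, P x)
    (h2 : ∀ d ∈ chainsOn (psub ℓ G) ⊥, ∀ a ∈ IrrS (stab d), labF M a = β →
      red M ((Nat.card (stab d) : ℂ) / a 1) = 0) :
    ∑ v ∈ chainsOn (boxes ℓ G Δ) (fun _ => ⊥), (-1) ^ (v.card + 1) * (wt ω j₀ v *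
      (((charsOf v).filter (fun α => (U ≤ topSt K v α ∧ (∀ j, labF M (α j) = β) ∧
        P (dat M v α)) ∧ ∀ j ∈ ω, Carry v α j₀ j (g j))).card : ℤ)) = asum ℓ M β := by
  have hj : j₀ ∈ ω := hun j₀
  have hE : IsEmpty {j // j ∉ ω} := ⟨fun j => j.2 (hun j.1)⟩
  rw [sum_chains_filter (boxes ℓ G Δ) (fun _ => ⊥) (fun R => ∀ j ∈ ω, conjS (g j) (R j₀) = R j)]
  swap
  · rintro v _ ⟨R, hR, hn⟩
    have : (charsOf v).filter (fun α => (U ≤ topSt K v α ∧ (∀ j, labF M (α j) = β) ∧
        P (dat M v α)) ∧ ∀ j ∈ ω, Carry v α j₀ j (g j)) = ∅ := by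
      rw [Finset.filter_eq_empty_iff]
      rintro α _ ⟨_, hc⟩
      exact hn fun j hjω => (hc j hjω).1 R hR
    rw [this]; simp
  have e1 := map_psi (ω := ω) (j₀ := j₀) (hj := hj) (g := g) (hg := hg) (G := G) ℓ
  have e2 := psi_bot (ω := ω) (j₀ := j₀) (hj := hj) (g := g) (hg := hg)
  rw [← e1, ← e2, sum_chainsOn_map]
  have e3 : ∀ d ∈ chainsOn (psub ℓ G ×ˢ boxes ℓ G {j // j ∉ ω}) (⊥, fun _ => ⊥),
      (-1) ^ ((d.map (psi ω j₀ hj g hg).toEmbedding).card + 1) *
        (wt ω j₀ (d.map (psi ω j₀ hj g hg).toEmbedding) *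
      (((charsOf (d.map (psi ω j₀ hj g hg).toEmbedding)).filter (fun α =>
        (U ≤ topSt K (d.map (psi ω j₀ hj g hg).toEmbedding) α ∧ (∀ j, labF M (α j) = β) ∧
        P (dat M (d.map (psi ω j₀ hj g hg).toEmbedding) α)) ∧
        ∀ j ∈ ω, Carry (d.map (psi ω j₀ hj g hg).toEmbedding) α j₀ j (g j))).card : ℤ)) =
      (-1) ^ (d.card + 1) * (fun (c : Finset (Subgroup G))
        (c' : Finset ({j // j ∉ ω} → Subgroup G)) =>
        ((Nat.card (stab c) : ℤ) *
          ((((IrrS_finite (stab c)).toFinset.filter (fun a => labF M a = β)).card : ℕ) : ℤ)) *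
        ((∏ j : {j // j ∉ ω}, (Nat.card (colStab c' j) : ℤ)) *
          ((((charsOf c').filter (fun α => Bc ω U c' α ∧
            (∀ j : {j // j ∉ ω}, labF M (α j) = (fun _ : Δ => β) j) ∧
            P (dext M ω β c' α))).card : ℕ) : ℤ))) (im1 d) (im2 d) := by
    intro d hd
    rw [Finset.card_map, wt_psi, card_chars (β := fun _ => β) (P := P) hω
      (fun _ _ => rfl) (im1_chain hd) h2]
    push_cast
    ring
  rw [Finset.sum_congr rfl e3]
  have e4 := sum_prod_chains (psub ℓ G) ⊥ (boxes ℓ G {j // j ∉ ω}) (fun _ => ⊥)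
    (fun x _ => bot_le) (fun y _ => fun j => bot_le) (fun (c : Finset (Subgroup G))
        (c' : Finset ({j // j ∉ ω} → Subgroup G)) =>
        ((Nat.card (stab c) : ℤ) *
          ((((IrrS_finite (stab c)).toFinset.filter (fun a => labF M a = β)).card : ℕ) : ℤ)) *
        ((∏ j : {j // j ∉ ω}, (Nat.card (colStab c' j) : ℤ)) *
          ((((charsOf c').filter (fun α => Bc ω U c' α ∧
            (∀ j : {j // j ∉ ω}, labF M (α j) = (fun _ : Δ => β) j) ∧
            P (dext M ω β c' α))).card : ℕ) : ℤ)))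
  refine e4.trans ?_
  have e5 : ∀ c ∈ chainsOn (psub ℓ G) ⊥,
      (({a | a ∈ IrrS (stab c) ∧ labF M a = β}.ncard : ℕ) : ℤ) =
        ((((IrrS_finite (stab c)).toFinset.filter (fun a => labF M a = β)).card : ℕ) : ℤ) := by
    intro c _
    congr 1
    rw [← Set.ncard_coe_finset]
    congr 1
    ext a
    simp
  unfold asum
  refine Finset.sum_congr rfl fun c hc => ?_
  rw [chains_empty hE, Finset.sum_singleton, Finset.card_singleton,
    Finset.filter_true_of_mem (s := charsOf _) (fun α _ =>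
      ⟨fun _ _ i _ _ => hE.elim i, fun j => hE.elim j, hP _⟩), chars_empty hE,
    Finset.univ_eq_empty, Finset.prod_empty, e5 c hc]
  ring

end

/-- BOXT -/
theorem boxt : BoxtStmt := by
  intro ℓ _ M G Δ K _ _ _ _ _ _ j₀ β htr _ h2
  classical
  have : Fintype (Δ → G) := Fintype.ofFinite _
  obtain ⟨P, hP⟩ : ∃ P : (Δ → (G → FF M) × FF M) → Prop, ∀ x, P x :=
    ⟨fun _ => True, fun _ => trivial⟩
  have hun : ∀ j, j ∈ MulAction.orbit (⊤ : Subgroup K) j₀ := by
    intro j
    obtain ⟨k, hk⟩ := htr j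
    exact ⟨⟨k, trivial⟩, hk⟩
  have hprod : (∏ j : Δ, if j ∈ MulAction.orbit (⊤ : Subgroup K) j₀ ∧ j ≠ j₀ then (1 : ℤ)
      else (Nat.card G : ℤ)) = (Nat.card G : ℤ) := by
    have h1 : ∀ j : Δ, (if j ∈ MulAction.orbit (⊤ : Subgroup K) j₀ ∧ j ≠ j₀ then (1 : ℤ)
        else (Nat.card G : ℤ)) = if j = j₀ then (Nat.card G : ℤ) else 1 := by
      intro j
      by_cases h : j = j₀
      · rw [if_neg (fun hc => hc.2 h), if_pos h]
      · rw [if_pos ⟨hun j, h⟩, if_neg h]
    rw [Finset.prod_congr rfl fun j _ => h1 j, Finset.prod_ite_eq' Finset.univ j₀]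
    simp
  have hmain : (∑ v ∈ chainsOn (boxes ℓ G Δ) (fun _ => ⊥), (-1) ^ (v.card + 1) *
      ∑ α ∈ (charsOf v).filter (fun w => ⊤ ≤ topSt K v w ∧ ∀ j, labF M (w j) = β),
        ∏ j, (Nat.card (colStab v j) : ℤ)) *
      (∏ j : Δ, if j ∈ MulAction.orbit (⊤ : Subgroup K) j₀ ∧ j ≠ j₀ then (1 : ℤ)
        else (Nat.card G : ℤ)) =
      ∑ g : Δ → G, ∑ v ∈ chainsOn (boxes ℓ G Δ) (fun _ => ⊥), (-1) ^ (v.card + 1) *
        (wt (MulAction.orbit (⊤ : Subgroup K) j₀) j₀ v *
      (((charsOf v).filter (fun α => ((⊤ : Subgroup K) ≤ topSt K v α ∧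
        (∀ j, labF M (α j) = β) ∧ P (dat M v α)) ∧ ∀ j ∈ MulAction.orbit (⊤ : Subgroup K) j₀,
          Carry v α j₀ j (Function.update g j₀ 1 j))).card : ℤ)) := by
    rw [Finset.sum_comm, Finset.sum_mul]
    refine Finset.sum_congr rfl fun v _ => ?_
    rw [← Finset.mul_sum, mul_assoc, ← Finset.mul_sum]
    congr 1
    rw [Finset.sum_mul]
    have e0 : (charsOf v).filter (fun w => ⊤ ≤ topSt K v w ∧ ∀ j, labF M (w j) = β) =
        (charsOf v).filter (fun α => (⊤ : Subgroup K) ≤ topSt K v α ∧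
          (∀ j, labF M (α j) = β) ∧ P (dat M v α)) := by
      refine Finset.filter_congr fun α _ => ?_
      exact ⟨fun h => ⟨h.1, h.2, hP _⟩, fun h => ⟨h.1, h.2.1⟩⟩
    rw [e0]
    have e1 : ∀ α ∈ (charsOf v).filter (fun α => (⊤ : Subgroup K) ≤ topSt K v α ∧
        (∀ j, labF M (α j) = β) ∧ P (dat M v α)), (∏ j, (Nat.card (colStab v j) : ℤ)) *
        (∏ j : Δ, if j ∈ MulAction.orbit (⊤ : Subgroup K) j₀ ∧ j ≠ j₀ then (1 : ℤ)
          else (Nat.card G : ℤ)) =
        wt (MulAction.orbit (⊤ : Subgroup K) j₀) j₀ v * ∑ g : Δ → G,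
          if (∀ j ∈ MulAction.orbit (⊤ : Subgroup K) j₀,
            Carry v α j₀ j (Function.update g j₀ 1 j)) then (1 : ℤ) else 0 := by
      intro α hα
      rw [Finset.mem_filter, mem_charsOf] at hα
      rw [count_carry rfl hα.1 hα.2.1, Finset.sum_boole]
    rw [Finset.sum_congr rfl e1, ← Finset.mul_sum]
    congr 1
    rw [Finset.sum_comm]
    refine Finset.sum_congr rfl fun g _ => ?_
    rw [Finset.sum_boole, Finset.filter_filter]
  rw [hprod, mul_comm] at hmain
  rw [hmain, Finset.sum_congr rfl fun g _ => fixed_val (U := (⊤ : Subgroup K)) rfl hun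
    (Function.update g j₀ 1) (Function.update_self _ _ _) hP h2, Finset.sum_const,
    Finset.card_univ, nsmul_eq_mul]
  congr 1
  rw [← Nat.card_eq_fintype_card, Nat.card_fun, Nat.card_eq_fintype_card (α := Δ)]
  push_cast
  rfl

end Pool.Agent.Helper29_CC
end
end -- Pool.Agent.Helper29_CC.Boxt
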