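import Pool.Agent.Helper18_PP.StmtsDZ
import Pool.Agent.Helper74_PP.Orbit
import Pool.Agent.Helper79_WRA.Basic

/-!
# Merged copies (generated) of the modules

* `Pool.Agent.Helper74_PP.Alg`
* `Pool.Agent.Helper74_PP.Cen`
* `Pool.Agent.Helper74_PP.Brt`
-/

set_option autoImplicit false

section -- Pool.Agent.Helper74_PP.Alg

/-!
Functions on a finite group as elements of the group algebra; functionals; `ℓ'`-parts.
-/

open scoped BigOperators

set_option linter.unusedSectionVars false

noncomputable section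

namespace Pool.Agent.PP.H74

open Pool.Agent.PP

section alg

variable {F H : Type} [Field F] [Group H] [Fintype H]

theorem actF_eq (a f : H → F) (x : H) : actF a f x = ∑ t, a t * f (t * x) :=
  finsum_eq_sum_of_fintype _

theorem mulF_eq (a b : H → F) (x : H) : mulF a b x = ∑ t, a t * b (t⁻¹ * x) :=
  finsum_eq_sum_of_fintype _

theorem ev_eq {n : ℕ} (ρ : H →* Matrix (Fin n) (Fin n) F) (a : H → F) :
    ev ρ a = ∑ t, a t • ρ t := finsum_eq_sum_of_fintype _

/-- the element of the group algebra -/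
def ma (a : H → F) : MonoidAlgebra F H := ∑ t, MonoidAlgebra.single t (a t)

theorem coeff_ma (a : H → F) (t : H) : (ma a).coeff t = a t := by
  classical
  rw [ma, MonoidAlgebra.coeff_sum, Finsupp.finsetSum_apply]
  simp [Finsupp.single_apply]

theorem ma_coeff (z : MonoidAlgebra F H) : ma (fun t => z.coeff t) = z := by
  apply MonoidAlgebra.ext
  ext t
  rw [coeff_ma]

theorem ma_injective : Function.Injective (ma : (H → F) → MonoidAlgebra F H) := by
  intro a b hab
  funext t
  rw [← coeff_ma a, hab, coeff_ma]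

theorem ma_mul (a b : H → F) : ma a * ma b = ma (mulF a b) := by
  classical
  unfold ma
  rw [Finset.sum_mul_sum]
  have h1 : ∀ s : H, ∑ t, MonoidAlgebra.single s (a s) * MonoidAlgebra.single t (b t) =
      ∑ x, MonoidAlgebra.single x (a s * b (s⁻¹ * x)) := by
    intro s
    rw [← Equiv.sum_comp (Equiv.mulLeft s) (fun x => MonoidAlgebra.single x (a s * b (s⁻¹ * x)))]
    apply Finset.sum_congr rfl
    intro t _
    simp
  simp_rw [h1]
  rw [Finset.sum_comm]
  apply Finset.sum_congr rfl
  intro x _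
  rw [mulF_eq]
  apply MonoidAlgebra.ext
  rw [MonoidAlgebra.coeff_sum]
  simp only [MonoidAlgebra.coeff_single]
  rw [← Finsupp.single_finsetSum]

theorem ma_zero : ma (0 : H → F) = 0 := by
  simp [ma]

theorem ma_add (a b : H → F) : ma (a + b) = ma a + ma b := by
  apply MonoidAlgebra.ext
  ext t
  rw [MonoidAlgebra.coeff_add, Finsupp.add_apply, coeff_ma, coeff_ma, coeff_ma]
  rfl

theorem ma_iterate (a : H → F) (k : ℕ) : ma ((mulF a)^[k] a) = ma a ^ (k + 1) := by
  induction k with
  | zero => simp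
  | succ k ih => rw [Function.iterate_succ_apply', ← ma_mul, ih, pow_succ' (ma a) (k + 1)]

/-- the functional on the group algebra given by a function on the group -/
def fl (f : H → F) : MonoidAlgebra F H →+ F := MonoidAlgebra.liftNC (AddMonoidHom.id F) f

theorem fl_single (f : H → F) (t : H) (c : F) : fl f (MonoidAlgebra.single t c) = c * f t := by
  rw [fl, MonoidAlgebra.liftNC_single]; rfl

theorem fl_ma (f a : H → F) : fl f (ma a) = ∑ t, a t * f t := by
  rw [ma, map_sum]
  simp_rw [fl_single]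

theorem fl_mul_comm {f : H → F} (hf : ∀ x y, f (x * y) = f (y * x)) (a b : MonoidAlgebra F H) :
    fl f (a * b) = fl f (b * a) := by
  induction a using MonoidAlgebra.induction_linear with
  | zero => simp
  | add a a' ha ha' => rw [add_mul, mul_add, map_add, map_add, ha, ha']
  | single x c =>
    induction b using MonoidAlgebra.induction_linear with
    | zero => simp
    | add b b' hb hb' => rw [add_mul, mul_add, map_add, map_add, hb, hb']
    | single y d =>
      rw [MonoidAlgebra.single_mul_single, MonoidAlgebra.single_mul_single, fl_single, fl_single,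
        hf x y, mul_comm c d]

theorem IsCl.comm {f : H → F} (hf : IsCl f) (x y : H) : f (x * y) = f (y * x) := by
  have := hf (y * x) x
  rw [← this]
  congr 1
  group

/-- the `ℓ`-power lemma in the group algebra -/
theorem fl_pow {ℓ : ℕ} (hℓ : ℓ.Prime) [CharP F ℓ] {f : H → F} (hf : ∀ x y, f (x * y) = f (y * x))
    (a : H → F) (y : H) (n : ℕ) :
    fl f ((ma a * MonoidAlgebra.single y 1) ^ ℓ ^ n) =
      ∑ t, a t ^ ℓ ^ n * f ((t * y) ^ ℓ ^ n) := by
  have : Fact ℓ.Prime := ⟨hℓ⟩
  have h1 : ma a * MonoidAlgebra.single y 1 = ∑ t, MonoidAlgebra.single (t * y) (a t) := by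
    rw [ma, Finset.sum_mul]
    simp
  rw [h1, pow_sum (l := ℓ) (fun v => by rw [nsmul_eq_mul, CharP.cast_eq_zero, zero_mul]) (fl f)
    (fl_mul_comm hf)]
  apply Finset.sum_congr rfl
  intro t _
  rw [MonoidAlgebra.single_pow, fl_single]

end alg

section parts

variable (H : Type) [Group H] [Finite H]

/-- Powers `q = ℓ^M` which project onto the `ℓ'`-parts. -/
theorem exists_power {ℓ : ℕ} (hℓ : ℓ.Prime) (B : ℕ) : ∃ M : ℕ, B ≤ M ∧ ∀ t : H,
    Reg ℓ (t ^ ℓ ^ M) ∧ (Reg ℓ t → t ^ ℓ ^ M = t) ∧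
    ∃ u : H, Commute (t ^ ℓ ^ M) u ∧ (∃ n : ℕ, u ^ ℓ ^ n = 1) ∧ t = t ^ ℓ ^ M * u := by
  obtain ⟨a, m, hm, hcard⟩ := Nat.exists_eq_pow_mul_and_not_dvd (n := Nat.card H)
    Nat.card_pos.ne' ℓ hℓ.ne_one
  have hcop : Nat.Coprime ℓ m := (Nat.Prime.coprime_iff_not_dvd hℓ).2 hm
  have hmpos : 0 < m := Nat.pos_of_ne_zero (by rintro rfl; exact hm (dvd_zero _))
  set M := m.totient * (a + B + 1) with hM
  have htot : 0 < m.totient := Nat.totient_pos.2 hmpos
  have hMB : B ≤ M := by
    calc B ≤ a + B + 1 := by omega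
      _ ≤ m.totient * (a + B + 1) := Nat.le_mul_of_pos_left _ htot
  have hMa : a ≤ M := by
    calc a ≤ a + B + 1 := by omega
      _ ≤ m.totient * (a + B + 1) := Nat.le_mul_of_pos_left _ htot
  -- q ≡ 1 mod m
  have hq1 : ℓ ^ M ≡ 1 [MOD m] := by
    rw [hM, pow_mul]
    have := (Nat.ModEq.pow_totient hcop).pow (a + B + 1)
    rwa [one_pow] at this
  -- ℓ^a ∣ q
  have hq2 : ℓ ^ a ∣ ℓ ^ M := pow_dvd_pow _ hMa
  have hqpos : 0 < ℓ ^ M := Nat.pow_pos hℓ.pos
  have hq3 : m ∣ ℓ ^ M - 1 := (Nat.modEq_iff_dvd' (by omega)).1 hq1.symm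
  refine ⟨M, hMB, fun t => ?_⟩
  have ht : t ^ (ℓ ^ a * m) = 1 := by rw [← hcard]; exact pow_card_eq_one'
  have h1 : (t ^ ℓ ^ M) ^ m = 1 := by
    obtain ⟨c, hc⟩ := hq2
    rw [← pow_mul, hc, show ℓ ^ a * c * m = ℓ ^ a * m * c by ring, pow_mul, ht, one_pow]
  refine ⟨?_, ?_, ?_⟩
  · exact Nat.Coprime.coprime_dvd_left (orderOf_dvd_of_pow_eq_one h1) hcop.symm
  · intro hreg
    have h2 : orderOf t ∣ ℓ ^ a * m := orderOf_dvd_of_pow_eq_one ht
    have h3 : orderOf t ∣ m := by
      apply Nat.Coprime.dvd_of_dvd_mul_left _ h2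
      exact Nat.Coprime.pow_right a hreg
    have h4 : orderOf t ∣ ℓ ^ M - 1 := h3.trans hq3
    have h5 : t ^ (ℓ ^ M - 1) = 1 := orderOf_dvd_iff_pow_eq_one.1 h4
    calc t ^ ℓ ^ M = t ^ (ℓ ^ M - 1 + 1) := by rw [Nat.sub_add_cancel hqpos]
      _ = t := by rw [pow_succ, h5, one_mul]
  · have hu : t = t ^ ℓ ^ M * (t ^ (ℓ ^ M - 1))⁻¹ := by
      conv_rhs => rw [← Nat.sub_add_cancel hqpos, Nat.add_sub_cancel, pow_succ' t (ℓ ^ M - 1)]
      group
    refine ⟨(t ^ (ℓ ^ M - 1))⁻¹, ?_, ⟨a, ?_⟩, hu⟩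
    · exact ((Commute.refl t).pow_pow _ _).inv_right
    · obtain ⟨c, hc⟩ := hq3
      rw [inv_pow, ← pow_mul, hc, show m * c * ℓ ^ a = ℓ ^ a * m * c by ring, pow_mul, ht,
        one_pow, inv_one]

end parts

end Pool.Agent.PP.H74
end
end -- Pool.Agent.Helper74_PP.Alg

section -- Pool.Agent.Helper74_PP.Cen

/-!
CEN: the invariants `IsIdem`, `lnum`, `YY`, `Pos` under central extensions by `ℓ'`-groups.
-/

open scoped BigOperators

set_option linter.unusedSectionVars false

noncomputable section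

namespace Pool.Agent.PP.H74

open Pool.Agent.PP Pool.Agent.Helper51_AWC Pool.Agent.Helper79_WRA

section infl

variable {F E G : Type} [Field F] [Group E] [Group G]

/-- inflation of an element of the group ring along a surjection -/
def infl (π : E →* G) (a : G → F) : E → F := fun x => (Nat.card π.ker : F)⁻¹ * a (π x)

theorem sum_comp_hom {V : Type*} [AddCommMonoid V] [Fintype E] [Fintype G] (π : E →* G)
    (hπ : Function.Surjective π) (f : G → V) :
    ∑ t, f (π t) = Nat.card π.ker • ∑ s, f s := by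
  classical
  rw [Finset.sum_comp f π, Finset.smul_sum]
  have him : Finset.image π Finset.univ = Finset.univ := by
    ext s
    simp only [Finset.mem_image, Finset.mem_univ, true_and, iff_true]
    exact hπ s
  rw [him]
  apply Finset.sum_congr rfl
  intro s _
  congr 1
  rw [MonoidHom.card_fiber_eq_of_mem_range π (hπ s) (hπ 1), Nat.card_eq_fintype_card,
    Fintype.card_subtype]
  congr 1
  ext t
  simp

theorem natCast_ne {ℓ k : ℕ} (hF : GoodF ℓ F) (hk : k.Coprime ℓ) : (k : F) ≠ 0 := by
  have := hF.char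
  intro h
  rw [CharP.cast_eq_zero_iff F ℓ] at h
  have h1 : ℓ ∣ 1 := by
    have := Nat.dvd_gcd h (dvd_refl ℓ)
    rwa [hk] at this
  exact hF.prime.one_lt.ne' (Nat.dvd_one.1 h1)

variable [Finite E] [Finite G] {ℓ : ℕ} (hF : GoodF ℓ F) (π : E →* G)
  (hπ : Function.Surjective π) (hk : (Nat.card π.ker).Coprime ℓ)

include hF hπ hk

theorem infl_actF (a f : G → F) (x : E) :
    actF (infl π a) (fun t => f (π t)) x = actF a f (π x) := by
  have := Fintype.ofFinite E
  have := Fintype.ofFinite G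
  have hne := natCast_ne hF hk
  rw [actF_eq, actF_eq]
  have h1 : ∀ t : E, infl π a t * f (π (t * x)) =
      (fun s : G => (Nat.card π.ker : F)⁻¹ * (a s * f (s * π x))) (π t) := by
    intro t
    simp only [infl, map_mul, mul_assoc]
  rw [Finset.sum_congr rfl (fun t _ => h1 t), sum_comp_hom π hπ
    (fun s : G => (Nat.card π.ker : F)⁻¹ * (a s * f (s * π x))), ← Finset.mul_sum, nsmul_eq_mul,
    ← mul_assoc, mul_inv_cancel₀ hne, one_mul]

theorem infl_mulF (a b : G → F) : mulF (infl π a) (infl π b) = infl π (mulF a b) := by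
  have := Fintype.ofFinite E
  have := Fintype.ofFinite G
  have hne := natCast_ne hF hk
  funext x
  rw [mulF_eq]
  have h1 : ∀ t : E, infl π a t * infl π b (t⁻¹ * x) =
      (fun s : G => (Nat.card π.ker : F)⁻¹ * ((Nat.card π.ker : F)⁻¹ *
        (a s * b (s⁻¹ * π x)))) (π t) := by
    intro t
    simp only [infl, map_mul, map_inv]
    ring
  rw [Finset.sum_congr rfl (fun t _ => h1 t), sum_comp_hom π hπ
    (fun s : G => (Nat.card π.ker : F)⁻¹ * ((Nat.card π.ker : F)⁻¹ *
        (a s * b (s⁻¹ * π x)))), ← Finset.mul_sum, ← Finset.mul_sum, nsmul_eq_mul, ← mul_assoc,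
    mul_inv_cancel₀ hne, one_mul, infl, mulF_eq]

theorem infl_isIdem {a : G → F} (ha : IsIdem a) : IsIdem (infl π a) := by
  refine ⟨fun x y => ?_, ?_⟩
  · unfold infl
    rw [map_mul, map_mul, map_inv, ha.1]
  · rw [infl_mulF hF π hπ hk, ha.2]

/-- the irreducible characters on which an inflated element acts as one are inflated -/
theorem infl_IBr (a : G → F) :
    {f : E → F | f ∈ IBr F E ∧ actF (infl π a) f = f} =
      (fun f' : G → F => fun t => f' (π t)) '' {f : G → F | f ∈ IBr F G ∧ actF a f = f} := by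
  have := Fintype.ofFinite E
  have := Fintype.ofFinite G
  ext f
  constructor
  · rintro ⟨⟨n, σ, hσ, rfl⟩, hact⟩
    -- the kernel acts trivially
    have htr : ∀ z ∈ π.ker, ∀ x, tr σ (z * x) = tr σ x := by
      intro z hz x
      rw [← hact, actF_eq, actF_eq,
        ← Equiv.sum_comp (Equiv.mulRight z) (fun t => infl π a t * tr σ (t * x))]
      apply Finset.sum_congr rfl
      intro t _
      have h1 : π z = 1 := hz
      simp only [Equiv.coe_mulRight, infl, map_mul, h1, mul_one, mul_assoc]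
    have hone : ∀ z ∈ π.ker, σ z = 1 := by
      intro z hz
      have h1 : ∀ B : Matrix (Fin n) (Fin n) F, ((σ z - 1) * B).trace = 0 := by
        intro B
        have hB : B ∈ Submodule.span F (Set.range σ) := by rw [hσ.2]; trivial
        induction hB using Submodule.span_induction with
        | mem x hx =>
          obtain ⟨h, rfl⟩ := hx
          rw [sub_mul, one_mul, Matrix.trace_sub, ← map_mul]
          exact sub_eq_zero.2 (htr z hz h)
        | zero => simp
        | add x y _ _ hx hy => rw [mul_add, Matrix.trace_add, hx, hy, add_zero]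
        | smul c x _ hx => rw [mul_smul_comm, Matrix.trace_smul, hx, smul_zero]
      have h2 : σ z - 1 = 0 := by
        ext i j
        have := h1 (Matrix.single j i 1)
        rw [Matrix.trace_mul_single] at this
        simpa using this
      exact sub_eq_zero.1 h2
    have hfac : ∀ x y : E, π x = π y → σ x = σ y := by
      intro x y hxy
      have h1 : x * y⁻¹ ∈ π.ker := by
        rw [MonoidHom.mem_ker, map_mul, map_inv, hxy, mul_inv_cancel]
      have h2 : x = x * y⁻¹ * y := by group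
      rw [h2, map_mul, hone _ h1, one_mul]
    let σ' : G →* Matrix (Fin n) (Fin n) F :=
      { toFun := fun g => σ (Function.surjInv hπ g)
        map_one' := by
          rw [← map_one σ]
          apply hfac
          rw [Function.surjInv_eq hπ, map_one]
        map_mul' := by
          intro g h
          rw [← map_mul]
          apply hfac
          rw [Function.surjInv_eq hπ, map_mul, Function.surjInv_eq hπ, Function.surjInv_eq hπ] }
    have hσ' : ∀ x, σ' (π x) = σ x := fun x => hfac _ _ (Function.surjInv_eq hπ _)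
    have htr' : (fun t => tr σ' (π t)) = tr σ := by
      funext t
      simp only [tr, hσ']
    refine ⟨tr σ', ⟨⟨n, σ', ⟨hσ.1, ?_⟩, rfl⟩, ?_⟩, htr'⟩
    · rw [eq_top_iff, ← hσ.2, Submodule.span_le]
      rintro _ ⟨x, rfl⟩
      apply Submodule.subset_span
      exact ⟨π x, hσ' x⟩
    · funext g
      obtain ⟨x, rfl⟩ := hπ g
      rw [← infl_actF hF π hπ hk, htr', hact]
      exact (congrFun htr' x).symm
  · rintro ⟨f', ⟨⟨n, σ, hσ, rfl⟩, hact⟩, rfl⟩
    refine ⟨⟨n, σ.comp π, ⟨hσ.1, ?_⟩, rfl⟩, ?_⟩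
    · rw [eq_top_iff, ← hσ.2, Submodule.span_le]
      rintro _ ⟨x, rfl⟩
      apply Submodule.subset_span
      obtain ⟨y, rfl⟩ := hπ x
      exact ⟨y, rfl⟩
    · funext x
      rw [infl_actF hF π hπ hk, hact]

theorem infl_ncard (a : G → F) :
    {f : E → F | f ∈ IBr F E ∧ actF (infl π a) f = f}.ncard =
      {f : G → F | f ∈ IBr F G ∧ actF a f = f}.ncard := by
  rw [infl_IBr hF π hπ hk]
  apply Set.ncard_image_of_injective
  intro f g hfg
  funext s
  obtain ⟨x, rfl⟩ := hπ s
  exact congrFun hfg x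

theorem infl_lnum (a : G → F) (X : Subgroup G) :
    lnum (X.comap π) (infl π a) = lnum X a := by
  let p : X.comap π →* X := π.subgroupComap X
  have hp : Function.Surjective p := by
    rintro ⟨g, hg⟩
    obtain ⟨x, rfl⟩ := hπ g
    exact ⟨⟨x, hg⟩, rfl⟩
  have hcard : Nat.card p.ker = Nat.card π.ker := by
    apply Nat.card_congr
    exact
      { toFun := fun x => ⟨x.1.1, congrArg Subtype.val x.2⟩
        invFun := fun x => ⟨⟨x.1, by
          change π x.1 ∈ X
          rw [show π x.1 = 1 from x.2]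
          exact X.one_mem⟩, Subtype.ext x.2⟩
        left_inv := fun x => rfl
        right_inv := fun x => rfl }
  have h1 := infl_ncard hF p hp (by rw [hcard]; exact hk) (fun t : X => a t)
  unfold lnum
  rw [← h1]
  congr 1
  ext f
  have h2 : (fun t : X.comap π => infl π a t) = infl p (fun t : X => a t) := by
    funext t
    simp only [infl, hcard]
    rfl
  rw [h2]

end infl

section chains

variable {E G : Type} [Group E] [Group G] [Finite E] [Finite G] {ℓ : ℕ} (π : E →* G)
  (hπ : Function.Surjective π) (hc : π.ker ≤ Subgroup.center E)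
  (hk : (Nat.card π.ker).Coprime ℓ)

theorem pgroup_pow {ℓ : ℕ} {D : Subgroup E} (hD : IsPGroup ℓ D) {x : E} (hx : x ∈ D) :
    ∃ k : ℕ, x ^ ℓ ^ k = 1 := by
  obtain ⟨k, hk⟩ := hD ⟨x, hx⟩
  exact ⟨k, congrArg Subtype.val hk⟩

include hk in
theorem ker_eq_one {z : E} (hz : z ∈ π.ker) {k : ℕ} (h : z ^ ℓ ^ k = 1) : z = 1 := by
  have h1 : orderOf z ∣ ℓ ^ k := orderOf_dvd_of_pow_eq_one h
  have h2 : orderOf z ∣ Nat.card π.ker := by
    have := orderOf_dvd_natCard (⟨z, hz⟩ : π.ker)
    rwa [Subgroup.orderOf_mk] at this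
  have h3 : orderOf z ∣ 1 := by
    have h4 : (Nat.card π.ker).Coprime (ℓ ^ k) := Nat.Coprime.pow_right k hk
    have := Nat.dvd_gcd h2 h1
    rwa [h4] at this
  exact orderOf_eq_one_iff.1 (Nat.dvd_one.1 h3)

include hc hk in
theorem map_le_map {D D' : Subgroup E} (hD : IsPGroup ℓ D) (hD' : IsPGroup ℓ D')
    (h : D.map π ≤ D'.map π) : D ≤ D' := by
  intro x hx
  obtain ⟨y, hy, hxy⟩ := h ⟨x, hx, rfl⟩
  obtain ⟨k, hk1⟩ := pgroup_pow hD hx
  obtain ⟨k', hk2⟩ := pgroup_pow hD' hy
  have hz : y⁻¹ * x ∈ π.ker := by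
    rw [MonoidHom.mem_ker, map_mul, map_inv, hxy, inv_mul_cancel]
  have hz1 : y⁻¹ * x = 1 := by
    apply ker_eq_one π hk hz (k := k + k')
    have hcomm : Commute y x := by
      have h1 : x = y * (y⁻¹ * x) := by group
      have h2 : Commute y (y⁻¹ * x) := Subgroup.mem_center_iff.1 (hc hz) y
      rw [h1]
      exact (Commute.refl y).mul_right h2
    rw [hcomm.inv_left.mul_pow, inv_pow, pow_add, pow_mul x, hk1, one_pow, mul_comm (ℓ ^ k),
      pow_mul y, hk2, one_pow, inv_one, one_mul]
  have h1 : x = y := by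
    rw [inv_mul_eq_one] at hz1
    exact hz1.symm
  rw [h1]
  exact hy

include hπ hk in
theorem exists_lift (hℓ : ℓ.Prime) {R : Subgroup G} (hR : IsPGroup ℓ R) :
    ∃ D : Subgroup E, IsPGroup ℓ D ∧ D.map π = R := by
  have : Fact ℓ.Prime := ⟨hℓ⟩
  obtain ⟨P⟩ : Nonempty (Sylow ℓ (R.comap π)) := inferInstance
  let D : Subgroup E := (P : Subgroup (R.comap π)).map (R.comap π).subtype
  have hD : IsPGroup ℓ D := P.isPGroup'.map _
  have hDR : D.map π ≤ R := by
    rintro _ ⟨x, ⟨y, _, rfl⟩, rfl⟩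
    exact y.2
  refine ⟨D, hD, ?_⟩
  -- orders
  obtain ⟨n, hn⟩ := hR.exists_card_eq
  have hcard : Nat.card (R.comap π) = Nat.card R * Nat.card π.ker := by
    let p : R.comap π →* R := π.subgroupComap R
    have hp : Function.Surjective p := by
      rintro ⟨g, hg⟩
      obtain ⟨x, rfl⟩ := hπ g
      exact ⟨⟨x, hg⟩, rfl⟩
    have h1 : Nat.card p.ker = Nat.card π.ker := by
      apply Nat.card_congr
      exact
        { toFun := fun x => ⟨x.1.1, congrArg Subtype.val x.2⟩
          invFun := fun x => ⟨⟨x.1, by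
            change π x.1 ∈ R
            rw [show π x.1 = 1 from x.2]
            exact R.one_mem⟩, Subtype.ext x.2⟩
          left_inv := fun x => rfl
          right_inv := fun x => rfl }
    have h2 := Subgroup.card_eq_card_quotient_mul_card_subgroup p.ker
    rw [h2, h1, Nat.card_congr (QuotientGroup.quotientKerEquivOfSurjective p hp).toEquiv]
  have hPc : Nat.card P = ℓ ^ n := by
    rw [P.card_eq_multiplicity, hcard, hn]
    congr 1
    have hk0 : Nat.card π.ker ≠ 0 := Nat.card_pos.ne'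
    rw [Nat.factorization_mul (pow_ne_zero _ hℓ.ne_zero) hk0, Finsupp.add_apply,
      hℓ.factorization_pow, Finsupp.single_eq_same,
      Nat.factorization_eq_zero_of_not_dvd ((Nat.Prime.coprime_iff_not_dvd hℓ).1 hk.symm)]
    simp
  have hDc : Nat.card D = ℓ ^ n := by
    rw [← hPc]
    exact Nat.card_congr ((P : Subgroup (R.comap π)).equivMapOfInjective _
      (Subgroup.subtype_injective _)).toEquiv.symm
  have hinj : Function.Injective (π.subgroupMap D) := by
    rw [injective_iff_map_eq_one]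
    intro x hx
    have hx1 : π x = 1 := congrArg Subtype.val hx
    obtain ⟨k, hk1⟩ := pgroup_pow hD x.2
    exact Subtype.ext (ker_eq_one π hk hx1 hk1)
  have hDm : Nat.card (D.map π) = ℓ ^ n := by
    rw [← hDc]
    exact (Nat.card_congr (Equiv.ofBijective _ ⟨hinj, π.subgroupMap_surjective D⟩)).symm
  exact Subgroup.eq_of_le_of_card_ge hDR (by rw [hDm, hn])

end chains

section yy

variable {F E G : Type} [Field F] [Group E] [Group G] [Finite E] [Finite G] {ℓ : ℕ}
  (hF : GoodF ℓ F) (π : E →* G)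
  (hπ : Function.Surjective π) (hc : π.ker ≤ Subgroup.center E)
  (hk : (Nat.card π.ker).Coprime ℓ)

include hπ in
theorem card_comap' (X : Subgroup G) : Nat.card (X.comap π) = Nat.card π.ker * Nat.card X := by
  let p : X.comap π →* X := π.subgroupComap X
  have hp : Function.Surjective p := by
    rintro ⟨g, hg⟩
    obtain ⟨x, rfl⟩ := hπ g
    exact ⟨⟨x, hg⟩, rfl⟩
  have h1 : Nat.card p.ker = Nat.card π.ker := by
    apply Nat.card_congr
    exact
      { toFun := fun x => ⟨x.1.1, congrArg Subtype.val x.2⟩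
        invFun := fun x => ⟨⟨x.1, by
          change π x.1 ∈ X
          rw [show π x.1 = 1 from x.2]
          exact X.one_mem⟩, Subtype.ext x.2⟩
        left_inv := fun x => rfl
        right_inv := fun x => rfl }
  have h2 := Subgroup.card_eq_card_quotient_mul_card_subgroup p.ker
  rw [h2, h1, Nat.card_congr (QuotientGroup.quotientKerEquivOfSurjective p hp).toEquiv, mul_comm]

theorem map_conjS (x : E) (D : Subgroup E) : (conjS x D).map π = conjS (π x) (D.map π) := by
  unfold conjS
  rw [Subgroup.map_map, Subgroup.map_map]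
  congr 1
  ext y
  simp

include hc hk in
theorem map_inj {D D' : Subgroup E} (hD : IsPGroup ℓ D) (hD' : IsPGroup ℓ D')
    (h : D.map π = D'.map π) : D = D' :=
  le_antisymm (map_le_map π hc hk hD hD' h.le) (map_le_map π hc hk hD' hD h.ge)

include hc hk in
theorem stab_comap {d : Finset (Subgroup E)} (hd : ∀ D ∈ d, IsPGroup ℓ D)
    [DecidableEq (Subgroup G)] :
    stab d = (stab (d.image (Subgroup.map π))).comap π := by
  ext x
  rw [Subgroup.mem_comap, mem_stab, mem_stab]
  constructor
  · intro h D' hD'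
    obtain ⟨D, hD, rfl⟩ := Finset.mem_image.1 hD'
    rw [← map_conjS, h D hD]
  · intro h D hD
    apply map_inj π hc hk (conjS_pgroup (hd D hD)) (hd D hD)
    rw [map_conjS]
    exact h _ (Finset.mem_image_of_mem _ hD)

include hF hπ hc hk in
theorem infl_YY (e : G → F) (M : Subgroup G) :
    YY ℓ (M.comap π) (infl π e) = Nat.card π.ker * YY ℓ M e := by
  classical
  unfold YY
  rw [Finset.mul_sum]
  have hps : ∀ d ∈ chainsOn (psubIn ℓ (M.comap π)) ⊥, ∀ D ∈ d,
      D ≤ M.comap π ∧ IsPGroup ℓ D := by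
    intro d hd D hD
    exact mem_psubIn.1 ((mem_chainsOn.1 hd).1 hD)
  apply Finset.sum_bij (fun d _ => d.image (Subgroup.map π))
  · intro d hd
    rw [mem_chainsOn]
    refine ⟨?_, ?_, ?_⟩
    · intro D' hD'
      obtain ⟨D, hD, rfl⟩ := Finset.mem_image.1 hD'
      obtain ⟨h1, h2⟩ := hps d hd D hD
      exact mem_psubIn.2 ⟨Subgroup.map_le_iff_le_comap.2 h1, h2.map π⟩
    · rw [Finset.mem_image]
      exact ⟨⊥, (mem_chainsOn.1 hd).2.1, Subgroup.map_bot π⟩
    · intro D1 hD1 D2 hD2 _
      obtain ⟨A, hA, rfl⟩ := Finset.mem_image.1 hD1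
      obtain ⟨B, hB, rfl⟩ := Finset.mem_image.1 hD2
      rcases chain_total (mem_chainsOn.1 hd).2.2 hA hB with h | h
      · left; exact Subgroup.map_mono h
      · right; exact Subgroup.map_mono h
  · intro d1 hd1 d2 hd2 h
    have key : ∀ d1 ∈ chainsOn (psubIn ℓ (M.comap π)) ⊥, ∀ d2 ∈ chainsOn (psubIn ℓ (M.comap π)) ⊥,
        d1.image (Subgroup.map π) = d2.image (Subgroup.map π) → d1 ⊆ d2 := by
      intro d1 hd1 d2 hd2 h D hD
      have h1 : D.map π ∈ d2.image (Subgroup.map π) := by
        rw [← h]; exact Finset.mem_image_of_mem _ hD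
      obtain ⟨D', hD', hDD'⟩ := Finset.mem_image.1 h1
      have : D' = D := map_inj π hc hk (hps d2 hd2 D' hD').2 (hps d1 hd1 D hD).2 hDD'
      rwa [← this]
    exact Finset.Subset.antisymm (key d1 hd1 d2 hd2 h) (key d2 hd2 d1 hd1 h.symm)
  · intro d' hd'
    obtain ⟨h1, h2, h3⟩ := mem_chainsOn.1 hd'
    refine ⟨(psubIn ℓ (M.comap π)).filter (fun D => D.map π ∈ d'), ?_, ?_⟩
    · rw [mem_chainsOn]
      refine ⟨Finset.filter_subset _ _, ?_, ?_⟩
      · rw [Finset.mem_filter]
        refine ⟨mem_psubIn.2 ⟨bot_le, IsPGroup.of_bot⟩, ?_⟩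
        rw [Subgroup.map_bot]; exact h2
      · intro D1 hD1 D2 hD2 _
        rw [Finset.mem_coe, Finset.mem_filter] at hD1 hD2
        have hp1 := (mem_psubIn.1 hD1.1).2
        have hp2 := (mem_psubIn.1 hD2.1).2
        rcases chain_total h3 hD1.2 hD2.2 with h | h
        · left; exact map_le_map π hc hk hp1 hp2 h
        · right; exact map_le_map π hc hk hp2 hp1 h
    · ext R
      rw [Finset.mem_image]
      constructor
      · rintro ⟨D, hD, rfl⟩
        exact (Finset.mem_filter.1 hD).2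
      · intro hR
        obtain ⟨hRM, hRp⟩ := mem_psubIn.1 (h1 hR)
        obtain ⟨D, hD, rfl⟩ := exists_lift π hπ hk hF.prime hRp
        refine ⟨D, ?_, rfl⟩
        rw [Finset.mem_filter]
        exact ⟨mem_psubIn.2 ⟨Subgroup.map_le_iff_le_comap.1 hRM, hD⟩, hR⟩
  · intro d hd
    have hcard : (d.image (Subgroup.map π)).card = d.card := by
      apply Finset.card_image_of_injOn
      intro A hA B hB hAB
      exact map_inj π hc hk (hps d hd A hA).2 (hps d hd B hB).2 hAB
    rw [hcard, stab_comap π hc hk (fun D hD => (hps d hd D hD).2), infl_lnum hF π hπ hk,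
      card_comap' π hπ]
    push_cast
    ring

end yy

section pos

variable {F H : Type} [Field F] [Group H]

theorem mulF_smul [Finite H] (c : F) (a b : H → F) : mulF a (c • b) = c • mulF a b := by
  have := Fintype.ofFinite H
  funext x
  rw [Pi.smul_apply, mulF_eq, mulF_eq, smul_eq_mul, Finset.mul_sum]
  apply Finset.sum_congr rfl
  intro t _
  simp only [Pi.smul_apply, smul_eq_mul]
  ring

/-- multiplication by a class sum as an average -/
theorem clsum_avg [Finite H] (Q : Subgroup H) {x : H} (hx : x ∈ Q) (b : H → F) (y : H) :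
    (Nat.card (Subgroup.centralizer ({x} : Set H) ⊓ Q : Subgroup H) : F) *
      mulF (clsum F Q x) b y = ∑ᶠ q : Q, b ((q * x * (q : H)⁻¹)⁻¹ * y) := by
  classical
  have := Fintype.ofFinite H
  have : Fintype Q := Fintype.ofFinite Q
  rw [finsum_eq_sum_of_fintype, mulF_eq,
    Finset.sum_comp (fun t : H => b (t⁻¹ * y)) (fun q : Q => (q : H) * x * (q : H)⁻¹),
    Finset.mul_sum]
  symm
  apply Finset.sum_subset_zero_on_sdiff (Finset.subset_univ _)
  · intro t ht
    rw [Finset.mem_sdiff] at ht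
    have h1 : ¬ ∃ q ∈ Q, t = q * x * q⁻¹ := by
      rintro ⟨q, hq, rfl⟩
      exact ht.2 (Finset.mem_image.2 ⟨⟨q, hq⟩, Finset.mem_univ _, rfl⟩)
    rw [clsum, if_neg h1, zero_mul, mul_zero]
  · intro t ht
    obtain ⟨q0, -, rfl⟩ := Finset.mem_image.1 ht
    have h1 : ∃ q ∈ Q, (q0 : H) * x * (q0 : H)⁻¹ = q * x * q⁻¹ := ⟨q0, q0.2, rfl⟩
    rw [clsum, if_pos h1, one_mul, nsmul_eq_mul]
    congr 2
    rw [← Fintype.card_subtype, ← Nat.card_eq_fintype_card]
    apply Nat.card_congr
    exact
      { toFun := fun a => ⟨(q0 : H)⁻¹ * a.1, by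
          refine Subgroup.mem_inf.2 ⟨?_, Q.mul_mem (Q.inv_mem q0.2) a.1.2⟩
          rw [Subgroup.mem_centralizer_singleton_iff]
          have h2 : (a.1 : H) * x * (a.1 : H)⁻¹ = (q0 : H) * x * (q0 : H)⁻¹ := a.2
          have h3 : (a.1 : H) * x = (q0 : H) * x * (q0 : H)⁻¹ * a.1 :=
            calc (a.1 : H) * x = (a.1 : H) * x * (a.1 : H)⁻¹ * a.1 := by group
              _ = _ := congrArg (fun t => t * (a.1 : H)) h2
          rw [mul_assoc, h3]; group⟩
        invFun := fun c => ⟨⟨(q0 : H) * c.1, Q.mul_mem q0.2 (Subgroup.mem_inf.1 c.2).2⟩, by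
          have h2 := (Subgroup.mem_inf.1 c.2).1
          rw [Subgroup.mem_centralizer_singleton_iff] at h2
          have h3 : c.1 * x * (c.1)⁻¹ = x := by rw [h2]; group
          change (q0 : H) * c.1 * x * ((q0 : H) * c.1)⁻¹ = _
          calc (q0 : H) * c.1 * x * ((q0 : H) * c.1)⁻¹ = (q0 : H) * (c.1 * x * (c.1)⁻¹) *
              (q0 : H)⁻¹ := by group
            _ = _ := by rw [h3]⟩
        left_inv := fun a => by
          apply Subtype.ext
          apply Subtype.ext
          simp
        right_inv := fun c => by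
          apply Subtype.ext
          simp }

end pos

section pos2

variable {F E G : Type} [Field F] [Group E] [Group G] [Finite E] [Finite G] {ℓ : ℕ}
  (hF : GoodF ℓ F) (π : E →* G)
  (hπ : Function.Surjective π) (hc : π.ker ≤ Subgroup.center E)
  (hk : (Nat.card π.ker).Coprime ℓ)

include hF hπ hc hk in
/-- defect zero classes go to defect zero classes -/
theorem dz_map (M : Subgroup G) {x : E}
    (h : ¬ ℓ ∣ Nat.card (Subgroup.centralizer ({x} : Set E) ⊓ M.comap π : Subgroup E)) :
    ¬ ℓ ∣ Nat.card (Subgroup.centralizer ({π x} : Set G) ⊓ M : Subgroup G) := by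
  intro hdvd
  apply h
  have : Fact ℓ.Prime := ⟨hF.prime⟩
  obtain ⟨g, hg⟩ := exists_prime_orderOf_dvd_card' ℓ hdvd
  have hgo : orderOf (g : G) = ℓ := by rw [← hg]; exact Subgroup.orderOf_coe g
  have hRp : IsPGroup ℓ (Subgroup.zpowers (g : G)) := by
    apply IsPGroup.of_card (n := 1)
    rw [Nat.card_zpowers, hgo, pow_one]
  obtain ⟨D, hD, hDR⟩ := exists_lift π hπ hk hF.prime hRp
  have hgm : (g : G) ∈ D.map π := by rw [hDR]; exact Subgroup.mem_zpowers _
  obtain ⟨d, hd, hdg⟩ := hgm
  obtain ⟨k, hdk⟩ := pgroup_pow hD hd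
  obtain ⟨hg1, hg2⟩ := Subgroup.mem_inf.1 g.2
  rw [Subgroup.mem_centralizer_singleton_iff] at hg1
  -- the commutator
  set z := d * x * d⁻¹ * x⁻¹ with hz
  have hzk : z ∈ π.ker := by
    rw [MonoidHom.mem_ker, hz]
    simp only [map_mul, map_inv, hdg]
    rw [hg1]; group
  have hzc : ∀ y, Commute y z := fun y => Subgroup.mem_center_iff.1 (hc hzk) y
  have hdx : d * x * d⁻¹ = z * x := by rw [hz]; group
  have hpow : ∀ j : ℕ, d ^ j * x * (d ^ j)⁻¹ = z ^ j * x := by
    intro j
    induction j with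
    | zero => simp
    | succ j ih =>
      calc d ^ (j + 1) * x * (d ^ (j + 1))⁻¹ = d * (d ^ j * x * (d ^ j)⁻¹) * d⁻¹ := by
            rw [pow_succ']; group
        _ = d * (z ^ j * x) * d⁻¹ := by rw [ih]
        _ = z ^ j * (d * x * d⁻¹) := by
            have h1 : d * z ^ j = z ^ j * d := ((hzc d).pow_right j).eq
            rw [← mul_assoc, h1]; group
        _ = z ^ (j + 1) * x := by rw [hdx, ← mul_assoc, ← pow_succ]
  have hz1 : z = 1 := by
    apply ker_eq_one π hk hzk (k := k)
    have := hpow (ℓ ^ k)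
    rw [hdk] at this
    simpa using this.symm
  have hdc : d ∈ Subgroup.centralizer ({x} : Set E) ⊓ M.comap π := by
    refine Subgroup.mem_inf.2 ⟨?_, ?_⟩
    · rw [Subgroup.mem_centralizer_singleton_iff]
      rw [hz1, one_mul] at hdx
      calc d * x = d * x * d⁻¹ * d := by group
        _ = x * d := by rw [hdx]
    · change π d ∈ M
      rw [hdg]; exact hg2
  have hd1 : orderOf d ∣ ℓ ^ k := orderOf_dvd_of_pow_eq_one hdk
  have hd2 : ℓ ∣ orderOf d := by
    have : orderOf (π d) ∣ orderOf d := orderOf_map_dvd π d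
    rwa [hdg, hgo] at this
  exact hd2.trans (by
    have := orderOf_dvd_natCard (⟨d, hdc⟩ :
      (Subgroup.centralizer ({x} : Set E) ⊓ M.comap π : Subgroup E))
    rwa [Subgroup.orderOf_mk] at this)

include hF hπ hk in
theorem infl_clsum (M : Subgroup G) {x : E} (hx : x ∈ M.comap π)
    (h : ¬ ℓ ∣ Nat.card (Subgroup.centralizer ({x} : Set E) ⊓ M.comap π : Subgroup E)) :
    ∃ w : F, ∀ b : G → F, mulF (clsum F (M.comap π) x) (infl π b) =
      w • infl π (mulF (clsum F M (π x)) b) := by
  have hne := natCast_ne hF hk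
  have hcE : (Nat.card (Subgroup.centralizer ({x} : Set E) ⊓ M.comap π : Subgroup E) : F) ≠ 0 :=
    natCast_ne hF ((Nat.Prime.coprime_iff_not_dvd hF.prime).2 h).symm
  set cE := Nat.card (Subgroup.centralizer ({x} : Set E) ⊓ M.comap π : Subgroup E)
  set cG := Nat.card (Subgroup.centralizer ({π x} : Set G) ⊓ M : Subgroup G) with hcG
  refine ⟨(cE : F)⁻¹ * (cG * Nat.card π.ker), fun b => ?_⟩
  funext y
  have h1 := clsum_avg (M.comap π) hx (infl π b) y
  have h2 := clsum_avg M (x := π x) hx b (π y)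
  have h3 : ∑ᶠ q : M.comap π, infl π b ((q * x * (q : E)⁻¹)⁻¹ * y) =
      ∑ᶠ q : M, b ((q * π x * (q : G)⁻¹)⁻¹ * π y) := by
    have := Fintype.ofFinite (M.comap π)
    have := Fintype.ofFinite M
    rw [finsum_eq_sum_of_fintype, finsum_eq_sum_of_fintype]
    let p : M.comap π →* M := π.subgroupComap M
    have hp : Function.Surjective p := by
      rintro ⟨g, hg⟩
      obtain ⟨x, rfl⟩ := hπ g
      exact ⟨⟨x, hg⟩, rfl⟩
    have hcard : Nat.card p.ker = Nat.card π.ker := by
      apply Nat.card_congr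
      exact
        { toFun := fun x => ⟨x.1.1, congrArg Subtype.val x.2⟩
          invFun := fun x => ⟨⟨x.1, by
            change π x.1 ∈ M
            rw [show π x.1 = 1 from x.2]
            exact M.one_mem⟩, Subtype.ext x.2⟩
          left_inv := fun x => rfl
          right_inv := fun x => rfl }
    have h4 : ∀ q : M.comap π, infl π b ((q * x * (q : E)⁻¹)⁻¹ * y) =
        (fun q' : M => (Nat.card π.ker : F)⁻¹ * b ((q' * π x * (q' : G)⁻¹)⁻¹ * π y)) (p q) := by
      intro q
      change (Nat.card π.ker : F)⁻¹ * b (π ((q * x * (q : E)⁻¹)⁻¹ * y)) =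
        (Nat.card π.ker : F)⁻¹ * b ((π q * π x * (π q)⁻¹)⁻¹ * π y)
      simp only [map_mul, map_inv]
    rw [Finset.sum_congr rfl (fun q _ => h4 q), sum_comp_hom p hp (fun q' : M =>
      (Nat.card π.ker : F)⁻¹ * b ((q' * π x * (q' : G)⁻¹)⁻¹ * π y)), ← Finset.mul_sum,
      nsmul_eq_mul, hcard, ← mul_assoc, mul_inv_cancel₀ hne, one_mul]
  rw [h3, ← h2] at h1
  rw [Pi.smul_apply, smul_eq_mul, infl]
  rw [← hcG] at h1
  have h5 : mulF (clsum F (M.comap π) x) (infl π b) y = (cE : F)⁻¹ * (cG *
      mulF (clsum F M (π x)) b (π y)) := by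
    rw [← h1, ← mul_assoc, inv_mul_cancel₀ hcE, one_mul]
  rw [h5]
  calc (cE : F)⁻¹ * (cG * mulF (clsum F M (π x)) b (π y)) =
      (cE : F)⁻¹ * (cG * (Nat.card π.ker * (Nat.card π.ker : F)⁻¹) *
        mulF (clsum F M (π x)) b (π y)) := by rw [mul_inv_cancel₀ hne, mul_one]
    _ = _ := by ring

include hF hπ hc hk in
theorem infl_Pos (e : G → F) (M : Subgroup G) (hpos : Pos ℓ e M) :
    Pos ℓ (infl π e) (M.comap π) := by
  intro x hx h
  obtain ⟨n, hn⟩ := hpos (π x) hx (dz_map hF π hπ hc hk M h)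
  obtain ⟨w, hw⟩ := infl_clsum hF π hπ hk M hx h
  refine ⟨n, ?_⟩
  have key : ∀ n : ℕ, (mulF (clsum F (M.comap π) x))^[n] (infl π e) =
      w ^ n • infl π ((mulF (clsum F M (π x)))^[n] e) := by
    intro n
    induction n with
    | zero => simp
    | succ n ih =>
      rw [Function.iterate_succ_apply', ih, mulF_smul, hw, Function.iterate_succ_apply', smul_smul,
        pow_succ]
  rw [key, hn]
  funext y
  simp [infl]

end pos2

theorem cen : CenStmt := by
  intro ℓ F _ hF E G _ _ _ _ π hπ hc hk e he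
  have hk' : (Nat.card π.ker).Coprime ℓ :=
    ((Nat.Prime.coprime_iff_not_dvd hF.prime).2 hk).symm
  have hc' : π.ker ≤ Subgroup.center E := fun x hx => hc x hx
  exact ⟨infl_isIdem hF π hπ hk' he, fun X => infl_lnum hF π hπ hk' e X,
    fun M _ => ⟨infl_YY hF π hπ hc' hk' e M, infl_Pos hF π hπ hc' hk' e M⟩⟩

end Pool.Agent.PP.H74
end
end -- Pool.Agent.Helper74_PP.Cen

section -- Pool.Agent.Helper74_PP.Brt

/-!
Modules ORB, RGL, BRT, RNK of squad PP: orbit sums, Brauer's theorem.
-/

open scoped BigOperators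

set_option linter.unusedSectionVars false

noncomputable section

namespace Pool.Agent.PP.H74

open Pool.Agent.PP Pool.Agent.Helper51_AWC Pool.Agent.Helper79_WRA

theorem orb : OrbStmt := by
  classical
  intro ℓ F V R T _ _ _ _ _ _ _ hℓ hF hR h hinv
  have := Fintype.ofFinite T
  have : Fact ℓ.Prime := ⟨hℓ⟩
  have hV : ∀ v : V, ℓ • v = 0 := by
    intro v
    rw [← Nat.cast_smul_eq_nsmul F, CharP.cast_eq_zero, zero_smul]
  rw [finsum_eq_sum_of_fintype, orbit_sum hR hV h hinv, finsum_eq_sum_of_fintype,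
    Finset.sum_filter]
  apply Finset.sum_congr rfl
  intro t _
  rw [finsum_eq_if]
  simp only [MulAction.mem_fixedPoints]

section rgl

variable {F H : Type} [Field F] [Group H] [Fintype H]

theorem ma_one_pow {e : H → F} (he : mulF e e = e) : ∀ n : ℕ, 0 < n → ma e ^ n = ma e := by
  intro n hn
  obtain ⟨k, rfl⟩ := Nat.exists_eq_succ_of_ne_zero hn.ne'
  induction k with
  | zero => rw [pow_one]
  | succ k ih => rw [pow_succ, ih (Nat.succ_pos _), ma_mul, he]

theorem ma_central {e : H → F} (he : IsCl e) (y : H) :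
    Commute (ma e) (MonoidAlgebra.single y (1 : F)) := by
  change ma e * MonoidAlgebra.single y 1 = MonoidAlgebra.single y 1 * ma e
  unfold ma
  rw [Finset.sum_mul, Finset.mul_sum,
    ← Equiv.sum_comp (MulAut.conj y).toEquiv
      (fun t => MonoidAlgebra.single t (e t) * MonoidAlgebra.single y 1)]
  apply Finset.sum_congr rfl
  intro t _
  simp [he t y]

theorem rgl_aux {ℓ : ℕ} (hF : GoodF ℓ F) (e g : H → F) (he : IsIdem e) (hg : IsCl g)
    (h0 : ∀ x, Reg ℓ x → g x = 0) (x : H) (hx : Reg ℓ x) : actF e g x = 0 := by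
  have hℓ := hF.prime
  have := hF.char
  obtain ⟨M, -, hM⟩ := exists_power H hℓ 0
  have hpos : 0 < ℓ ^ M := Nat.pow_pos hℓ.pos
  have h1 : (ma e * MonoidAlgebra.single x (1 : F)) ^ ℓ ^ M =
      ma e * MonoidAlgebra.single x 1 := by
    rw [(ma_central he.1 x).mul_pow, ma_one_pow he.2 _ hpos, MonoidAlgebra.single_pow,
      (hM x).2.1 hx, one_pow]
  have h2 := fl_pow (f := g) hℓ (IsCl.comm hg) e x M
  rw [h1] at h2
  have h3 : ma e * MonoidAlgebra.single x (1 : F) = ∑ t, MonoidAlgebra.single (t * x) (e t) := by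
    rw [ma, Finset.sum_mul]
    simp
  rw [h3, map_sum] at h2
  simp_rw [fl_single] at h2
  rw [actF_eq, h2]
  apply Finset.sum_eq_zero
  intro t _
  rw [h0 _ (hM _).1, mul_zero]

end rgl

theorem rgl : RglStmt := by
  intro ℓ F _ hF H _ _ e g he hg h0 x hx
  have := Fintype.ofFinite H
  exact rgl_aux hF e g he hg h0 x hx

section brt

variable {F H : Type} [Field F] [Group H] [Fintype H]

/-- functions in `TT` vanish on nilpotent elements -/
theorem TT_nilp {ℓ : ℕ} (hF : GoodF ℓ F) {f : H → F} (hf : f ∈ TT F H ℓ) (a : H → F) (k : ℕ)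
    (ha : ma a ^ k = 0) : ∑ t, a t * f t = 0 := by
  have hℓ := hF.prime
  have := hF.char
  obtain ⟨M, hkM, hM⟩ := exists_power H hℓ k
  have hpos : 0 < ℓ ^ M := Nat.pow_pos hℓ.pos
  have hfq : ∀ t : H, f (t ^ ℓ ^ M) = f t := by
    intro t
    obtain ⟨u, hu1, hu2, hu3⟩ := (hM t).2.2
    conv_rhs => rw [hu3]
    exact (hf.2 _ _ hu1 hu2).symm
  have hcomm := IsCl.comm hf.1
  have h1 : (ma a * MonoidAlgebra.single (1 : H) (1 : F)) ^ ℓ ^ M = 0 := by
    rw [← MonoidAlgebra.one_def, mul_one]
    exact pow_eq_zero_of_le (hkM.trans (Nat.lt_pow_self hℓ.one_lt).le) ha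
  have h2 := fl_pow (f := fun x => f x ^ ℓ ^ M) hℓ (fun x y => by rw [hcomm]) a 1 M
  rw [h1, map_zero] at h2
  simp only [mul_one, hfq] at h2
  simp_rw [← mul_pow] at h2
  have : Fact ℓ.Prime := ⟨hℓ⟩
  rw [← sum_pow_char_pow] at h2
  exact (pow_eq_zero_iff hpos.ne').1 h2.symm

theorem tr_mem_TT {ℓ : ℕ} (hF : GoodF ℓ F) {n : ℕ} (ρ : H →* Matrix (Fin n) (Fin n) F) :
    tr ρ ∈ TT F H ℓ := by
  have hℓ := hF.prime
  have := hF.char
  refine ⟨?_, ?_⟩
  · intro x y
    unfold tr
    rw [map_mul, map_mul, Matrix.trace_mul_comm, ← mul_assoc, ← map_mul]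
    simp
  · rintro x y hxy ⟨k, hk⟩
    unfold tr
    have : Fact ℓ.Prime := ⟨hℓ⟩
    rcases Nat.eq_zero_or_pos n with rfl | hn
    · simp [Matrix.trace]
    have : NeZero n := ⟨hn.ne'⟩
    have hch : CharP (Matrix (Fin n) (Fin n) F) ℓ := inferInstance
    rw [← sub_eq_zero, ← Matrix.trace_sub]
    apply IsNilpotent.eq_zero
    apply Matrix.isNilpotent_trace_of_isNilpotent
    refine ⟨ℓ ^ k, ?_⟩
    have hc : Commute (ρ x * ρ y) (ρ x) := by
      have : Commute (x * y) x := ((Commute.refl x).mul_left hxy.symm)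
      rw [← map_mul]
      exact this.map ρ
    rw [map_mul, sub_pow_char_pow_of_commute _ _ hc]
    have hc2 : Commute (ρ x) (ρ y) := hxy.map ρ
    rw [hc2.mul_pow, ← map_pow ρ y, hk, map_one, mul_one, sub_self]

theorem ev_mul {n : ℕ} (ρ : H →* Matrix (Fin n) (Fin n) F) (a b : H → F) :
    ev ρ (mulF a b) = ev ρ a * ev ρ b := by
  rw [ev_eq, ev_eq, ev_eq, Finset.sum_mul_sum]
  have h1 : ∀ s : H, ∑ t, a s • ρ s * b t • ρ t = ∑ x, (a s * b (s⁻¹ * x)) • ρ x := by
    intro s
    rw [← Equiv.sum_comp (Equiv.mulLeft s) (fun x => (a s * b (s⁻¹ * x)) • ρ x)]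
    apply Finset.sum_congr rfl
    intro t _
    simp only [Equiv.coe_mulLeft, inv_mul_cancel_left, map_mul]
    rw [smul_mul_smul_comm]
  simp_rw [h1]
  rw [Finset.sum_comm]
  apply Finset.sum_congr rfl
  intro x _
  rw [mulF_eq, Finset.sum_smul]

/-- a functional with the trace property on a matrix algebra is a multiple of the trace -/
theorem trace_form {n : ℕ} (L : Matrix (Fin n) (Fin n) F →ₗ[F] F)
    (hL : ∀ A B, L (A * B) = L (B * A)) : ∃ c : F, ∀ A, L A = c * A.trace := by
  rcases Nat.eq_zero_or_pos n with rfl | hn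
  · refine ⟨0, fun A => ?_⟩
    have : A = 0 := Subsingleton.elim _ _
    rw [this]; simp
  have : NeZero n := ⟨hn.ne'⟩
  have h1 : ∀ i j : Fin n, L (Matrix.single i j 1) =
      if i = j then L (Matrix.single 0 0 1) else 0 := by
    intro i j
    have h2 : (Matrix.single i j 1 : Matrix (Fin n) (Fin n) F) =
        Matrix.single i 0 1 * Matrix.single 0 j 1 := by
      rw [Matrix.single_mul_single_same, mul_one]
    rw [h2, hL]
    split_ifs with hij
    · subst hij
      rw [Matrix.single_mul_single_same, mul_one]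
    · rw [Matrix.single_mul_single_of_ne _ _ _ _ (Ne.symm hij), map_zero]
  refine ⟨L (Matrix.single 0 0 1), fun A => ?_⟩
  conv_lhs => rw [Matrix.matrix_eq_sum_single A]
  rw [map_sum]
  have h3 : ∀ i : Fin n, L (∑ j, Matrix.single i j (A i j)) = A i i * L (Matrix.single 0 0 1) := by
    intro i
    rw [map_sum, Finset.sum_eq_single_of_mem i (Finset.mem_univ _)]
    · have : Matrix.single i i (A i i) = A i i • (Matrix.single i i (1 : F)) := by
        rw [Matrix.smul_single, smul_eq_mul, mul_one]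
      rw [this, map_smul, h1, if_pos rfl, smul_eq_mul]
    · intro j _ hj
      have : Matrix.single i j (A i j) = A i j • (Matrix.single i j (1 : F)) := by
        rw [Matrix.smul_single, smul_eq_mul, mul_one]
      rw [this, map_smul, h1, if_neg (Ne.symm hj), smul_zero]
  simp_rw [h3]
  rw [← Finset.sum_mul, mul_comm]
  rfl

end brt

theorem brt (hf : IbfStmt) (hc : IbcStmt) (hj : IbjStmt) (hn : IbnStmt) : BrtStmt := by
  classical
  intro ℓ F _ hF H _ _
  have := Fintype.ofFinite H
  apply le_antisymm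
  · rw [Submodule.span_le]
    rintro f ⟨n, ρ, hρ, rfl⟩
    exact tr_mem_TT hF ρ
  · intro f hf'
    have hfin := (hf ℓ F hF H).1
    have : Finite (IBr F H) := hfin
    have := Fintype.ofFinite (IBr F H)
    choose n ρ hρ hθ using fun i : IBr F H => i.2
    have hinj : Function.Injective (fun i => tr (ρ i)) := by
      intro i j hij
      apply Subtype.ext
      rw [hθ i, hθ j]
      exact hij
    -- the evaluation map
    let Ev : (H → F) →ₗ[F] (∀ i, Matrix (Fin (n i)) (Fin (n i)) F) :=
      { toFun := fun a i => ev (ρ i) a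
        map_add' := by
          intro a b
          funext i
          simp only [ev_eq, Pi.add_apply, add_smul, Finset.sum_add_distrib]
        map_smul' := by
          intro c a
          funext i
          simp only [ev_eq, Pi.smul_apply, smul_eq_mul, RingHom.id_apply, Finset.smul_sum,
            mul_smul] }
    have hsurj : Function.Surjective Ev := by
      intro B
      obtain ⟨a, ha⟩ := hj ℓ F hF H (IBr F H) n ρ hρ hinj B
      exact ⟨a, funext ha⟩
    -- the functional of f
    let L : (H → F) →ₗ[F] F :=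
      { toFun := fun a => ∑ t, a t * f t
        map_add' := by
          intro a b
          simp only [Pi.add_apply, add_mul, Finset.sum_add_distrib]
        map_smul' := by
          intro c a
          simp only [Pi.smul_apply, smul_eq_mul, RingHom.id_apply, Finset.mul_sum, mul_assoc] }
    have hker : LinearMap.ker Ev ≤ LinearMap.ker L := by
      intro a ha
      rw [LinearMap.mem_ker] at ha ⊢
      have hall : ∀ (m : ℕ) (σ : H →* Matrix (Fin m) (Fin m) F), IsIrr σ → ev σ a = 0 := by
        intro m σ hσ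
        have hmem : tr σ ∈ IBr F H := ⟨m, σ, hσ, rfl⟩
        obtain ⟨X, Y, -, hXY, -, hX⟩ := hc ℓ F hF H _ _ (ρ ⟨tr σ, hmem⟩) σ (hρ _) hσ
          (hθ ⟨tr σ, hmem⟩).symm
        have h1 : ∀ h, σ h = X * ρ ⟨tr σ, hmem⟩ h * Y := by
          intro h
          rw [hX, Matrix.mul_assoc, hXY, Matrix.mul_one]
        have h2 : ev (ρ ⟨tr σ, hmem⟩) a = 0 := congrFun ha ⟨tr σ, hmem⟩
        have h3 : ev σ a = X * ev (ρ ⟨tr σ, hmem⟩) a * Y := by
          rw [ev_eq, ev_eq, Matrix.mul_sum, Matrix.sum_mul]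
          apply Finset.sum_congr rfl
          intro t _
          rw [h1 t, Matrix.mul_smul, Matrix.smul_mul]
        rw [h3, h2]
        simp
      obtain ⟨k, hk⟩ := hn ℓ F hF H a hall
      have h4 : ma a ^ (k + 1) = 0 := by
        rw [← ma_iterate, hk, ma_zero]
      exact TT_nilp hF hf' a (k + 1) h4
    -- factor through the product
    obtain ⟨L', hL'⟩ : ∃ L' : (∀ i, Matrix (Fin (n i)) (Fin (n i)) F) →ₗ[F] F, ∀ a, L' (Ev a) = L a := by
      refine ⟨(LinearMap.ker Ev).liftQ L hker ∘ₗ
        (Ev.quotKerEquivOfSurjective hsurj).symm.toLinearMap, fun a => ?_⟩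
      have : (Ev.quotKerEquivOfSurjective hsurj).symm (Ev a) = (LinearMap.ker Ev).mkQ a := by
        rw [LinearEquiv.symm_apply_eq]
        rfl
      simp only [LinearMap.comp_apply, LinearEquiv.coe_coe]
      rw [this]
      simp
    have hLcomm : ∀ a b : H → F, L (mulF a b) = L (mulF b a) := by
      intro a b
      have h1 : ∀ a : H → F, L a = fl f (ma a) := fun a => (fl_ma f a).symm
      rw [h1, h1, ← ma_mul, ← ma_mul, fl_mul_comm (IsCl.comm hf'.1)]
    have hL'comm : ∀ A B, L' (A * B) = L' (B * A) := by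
      intro A B
      obtain ⟨a, rfl⟩ := hsurj A
      obtain ⟨b, rfl⟩ := hsurj B
      have h1 : ∀ a b : H → F, Ev a * Ev b = Ev (mulF a b) := by
        intro a b
        funext i
        exact (ev_mul (ρ i) a b).symm
      rw [h1, h1, hL', hL', hLcomm]
    have hform : ∀ i, ∃ c : F, ∀ A : Matrix (Fin (n i)) (Fin (n i)) F,
        L' (Pi.single i A) = c * A.trace := by
      intro i
      apply trace_form (L' ∘ₗ LinearMap.single F (fun i => Matrix (Fin (n i)) (Fin (n i)) F) i)
      intro A B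
      simp only [LinearMap.comp_apply, LinearMap.single_apply]
      rw [Pi.single_mul, Pi.single_mul, hL'comm]
    choose c hc' using hform
    have hfinal : f = ∑ i : IBr F H, c i • (i : H → F) := by
      funext x
      have h1 : L (Pi.single x 1) = f x := by
        change ∑ t, (Pi.single x (1 : F) : H → F) t * f t = f x
        rw [Finset.sum_eq_single_of_mem x (Finset.mem_univ _)]
        · simp
        · intro t _ ht
          rw [Pi.single_eq_of_ne ht, zero_mul]
      have h2 : ∀ i, Ev (Pi.single x 1) i = ρ i x := by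
        intro i
        change ev (ρ i) _ = _
        rw [ev_eq, Finset.sum_eq_single_of_mem x (Finset.mem_univ _)]
        · simp
        · intro t _ ht
          rw [Pi.single_eq_of_ne ht, zero_smul]
      rw [← h1, ← hL']
      have h3 : Ev (Pi.single x 1) = ∑ i, Pi.single i (ρ i x) := by
        funext i
        rw [h2, Finset.sum_apply, Finset.sum_eq_single_of_mem i (Finset.mem_univ _)]
        · simp
        · intro j _ hj
          rw [Pi.single_eq_of_ne (Ne.symm hj)]
      rw [h3, map_sum, Finset.sum_apply]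
      apply Finset.sum_congr rfl
      intro i _
      rw [hc', Pi.smul_apply, smul_eq_mul]
      congr 1
      exact (congrFun (hθ i) x).symm
    rw [hfinal]
    apply Submodule.sum_mem
    intro i _
    exact Submodule.smul_mem _ _ (Submodule.subset_span i.2)

theorem rnk (hf : IbfStmt) (he : EigStmt) (hb : BrtStmt) : RnkStmt := by
  classical
  intro ℓ F _ hF H _ _ e hid
  have hfin := (hf ℓ F hF H).1
  have hlin := (hf ℓ F hF H).2
  unfold rk
  rw [← hb ℓ F hF H, Submodule.map_span]
  set S : Set (H → F) := {f | f ∈ IBr F H ∧ actF e f = f} with hS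
  have hSsub : S ⊆ IBr F H := fun f hf => hf.1
  have hSfin : S.Finite := hfin.subset hSsub
  have h1 : Submodule.span F ((actL e) '' IBr F H) = Submodule.span F S := by
    apply le_antisymm
    · rw [Submodule.span_le]
      rintro _ ⟨f, hfm, rfl⟩
      change actF e f ∈ _
      obtain ⟨n, ρ, hρ, rfl⟩ := hfm
      obtain ⟨w, -, hw, hw2⟩ := he F H n ρ hρ e hid.1
      rcases hw2 hid with h | h
      · rw [hw, h, zero_smul]
        exact Submodule.zero_mem _
      · have : actF e (tr ρ) = tr ρ := by rw [hw, h, one_smul]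
        rw [this]
        exact Submodule.subset_span ⟨⟨n, ρ, hρ, rfl⟩, this⟩
    · rw [Submodule.span_le]
      rintro f ⟨hf1, hf2⟩
      apply Submodule.subset_span
      exact ⟨f, hf1, hf2⟩
  rw [h1]
  have := hSfin.fintype
  have hlin' : LinearIndependent F (fun f : S => (f : H → F)) :=
    hlin.comp (fun f : S => (⟨f.1, hSsub f.2⟩ : IBr F H))
      (fun a b hab => Subtype.ext (congrArg (fun z : IBr F H => (z : H → F)) hab))
  rw [finrank_span_set_eq_card hlin', Set.ncard_eq_toFinset_card']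

end Pool.Agent.PP.H74
end
end -- Pool.Agent.Helper74_PP.Brt
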