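import Pool.Agent.Helper79_WRA.Basic
import Pool.Agent.Helper79_WRA.Stmt

/-!
# Merged copies (generated) of the modules

* `Pool.Agent.Helper33_WRA.ExtA`
* `Pool.Agent.Helper33_WRA.ExtB`
* `Pool.Agent.Helper33_WRA.Ext`
* `Pool.Agent.Helper44_WRA.Schur`
* `Pool.Agent.Helper44_WRA.Coset`
* `Pool.Agent.Helper44_WRA.Cliff`
-/

set_option autoImplicit false

section -- Pool.Agent.Helper33_WRA.ExtA

/-!
WRA, module EXT, part A: a representation with irreducible restriction is irreducible.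
-/

open scoped BigOperators
open Module

noncomputable section

namespace Pool.Agent.Helper79_WRA.H33

open Pool.Agent.Helper51_AWC

theorem mem_Irr_of_restrict {T Y : Type} [Group T] [Fintype T] [Group Y] [Fintype Y] (ι : Y →* T)
    {V : Type} [AddCommGroup V] [Module ℂ V] [FiniteDimensional ℂ V] (ρ : Representation ℂ T V)
    (h : (fun y => ρ.character (ι y)) ∈ Irr Y) : ρ.character ∈ Irr T := by
  have hcT : (Nat.card T : ℂ) ≠ 0 := by exact_mod_cast Nat.card_pos.ne'
  have hcY : (Nat.card Y : ℂ) ≠ 0 := by exact_mod_cast Nat.card_pos.ne'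
  have hiT := invertibleOfNonzero hcT
  have hiY := invertibleOfNonzero hcY
  let σ : Representation ℂ Y V := ρ.comp ι
  have h1 : finrank ℂ (Representation.IntertwiningMap σ σ) = 1 := by
    have h2 := Representation.card_inv_mul_sum_char_mul_char_eq_finrank σ σ
    have h3 : ∑ g, σ.character g * σ.character g⁻¹ = Fintype.card Y := irr_orth_self h
    rw [h3, ← Nat.card_eq_fintype_card, inv_mul_cancel₀ hcY] at h2
    exact_mod_cast h2.symm
  have hfin : FiniteDimensional ℂ (Representation.IntertwiningMap σ σ) :=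
    FiniteDimensional.of_finrank_pos (by rw [h1]; exact one_pos)
  let F : Representation.IntertwiningMap ρ ρ →ₗ[ℂ] Representation.IntertwiningMap σ σ :=
    { toFun := fun f => ⟨f.toLinearMap, fun y => f.isIntertwining' (ι y)⟩
      map_add' := fun _ _ => rfl
      map_smul' := fun _ _ => rfl }
  have hF : Function.Injective F := by
    intro f g hfg
    apply Representation.IntertwiningMap.ext
    have h8 := congrArg (fun f : Representation.IntertwiningMap σ σ => f.toLinearMap) hfg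
    exact h8
  have h4 : finrank ℂ (Representation.IntertwiningMap ρ ρ) ≤ 1 := by
    rw [← h1]
    exact LinearMap.finrank_le_finrank_of_injective hF
  have hfin' : FiniteDimensional ℂ (Representation.IntertwiningMap ρ ρ) :=
    FiniteDimensional.of_injective F hF
  have hV : Nontrivial V := by
    by_contra hcon
    rw [not_nontrivial_iff_subsingleton] at hcon
    have h5 := irr_one_ne h
    apply h5
    simp only [map_one, Representation.char_one]
    rw [finrank_zero_of_subsingleton]; simp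
  have h5 : 0 < finrank ℂ (Representation.IntertwiningMap ρ ρ) := by
    rw [finrank_pos_iff]
    refine ⟨⟨0, Representation.IntertwiningMap.id ρ, fun h => ?_⟩⟩
    obtain ⟨v, hv⟩ := exists_ne (0 : V)
    apply hv
    have := congrArg (fun f => Representation.IntertwiningMap.toLinearMap f v) h
    exact this.symm
  have h6 : finrank ℂ (Representation.IntertwiningMap ρ ρ) = 1 := by omega
  apply mem_Irr_of_norm
  have h7 := Representation.card_inv_mul_sum_char_mul_char_eq_finrank ρ ρ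
  rw [h6, Nat.cast_one, inv_mul_eq_one₀ hcT] at h7
  rw [← h7, Nat.card_eq_fintype_card]

/-- a system of matrix coefficients with irreducible restriction -/
theorem mem_Irr_of_coeff_restrict {T Y : Type} [Group T] [Fintype T] [Group Y] [Fintype Y]
    (ι : Y →* T) {X : Type} [Fintype X] [DecidableEq X]
    (r : T → X → X → ℂ) (h1 : ∀ a b, r 1 a b = if a = b then 1 else 0)
    (h2 : ∀ g h a b, r (g * h) a b = ∑ c, r g a c * r h c b) (χ : T → ℂ)
    (h3 : ∀ g, ∑ a, r g a a = χ g) (h4 : (fun y => χ (ι y)) ∈ Irr Y) : χ ∈ Irr T := by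
  let R : T →* Matrix X X ℂ :=
    { toFun := fun g => Matrix.of (r g)
      map_one' := by
        ext a b
        rw [Matrix.one_apply]
        exact h1 a b
      map_mul' := by
        intro g h
        ext a b
        rw [Matrix.mul_apply]
        exact h2 g h a b }
  let ρ : Representation ℂ T (X → ℂ) :=
    (Matrix.toLinAlgEquiv' : Matrix X X ℂ ≃ₐ[ℂ] _).toRingEquiv.toMulEquiv.toMonoidHom.comp R
  have hc : ρ.character = χ := by
    funext g
    rw [← h3 g]
    simp only [Representation.character]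
    rw [LinearMap.trace_eq_matrix_trace ℂ (Pi.basisFun ℂ X)]
    have : LinearMap.toMatrix (Pi.basisFun ℂ X) (Pi.basisFun ℂ X) (ρ g) = R g := by
      show LinearMap.toMatrix (Pi.basisFun ℂ X) (Pi.basisFun ℂ X) (Matrix.toLin' (R g)) = R g
      rw [LinearMap.toMatrix_eq_toMatrix', LinearMap.toMatrix'_toLin']
    rw [this]
    rfl
  have h5 := mem_Irr_of_restrict ι ρ (by rw [hc]; exact h4)
  rw [hc] at h5
  exact h5

/-- padded matrix coefficients of an irreducible character of a subgroup -/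
structure Coef {G : Type} [Group G] (H : Subgroup G) (α : G → ℂ) where
  /-- the degree -/
  n : ℕ
  /-- the coefficients -/
  B : G → ℕ → ℕ → ℂ
  one : ∀ a b, a < n → b < n → B 1 a b = if a = b then 1 else 0
  mul : ∀ g ∈ H, ∀ h ∈ H, ∀ a b, B (g * h) a b = ∑ c ∈ Finset.range n, B g a c * B h c b
  tr : ∀ g ∈ H, ∑ a ∈ Finset.range n, B g a a = α g

open Classical in
theorem exists_coef {G : Type} [Group G] (H : Subgroup G) (α : G → ℂ)
    (hα : (fun h : H => α h) ∈ Irr H) : Nonempty (Coef H α) := by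
  obtain ⟨n, r, h1, h2, h3⟩ := irr_coeff hα
  refine ⟨⟨n, fun g a b => if h : g ∈ H ∧ a < n ∧ b < n then r ⟨g, h.1⟩ ⟨a, h.2.1⟩ ⟨b, h.2.2⟩
    else 0, ?_, ?_, ?_⟩⟩
  · intro a b ha hb
    rw [dif_pos ⟨H.one_mem, ha, hb⟩]
    have := h1 ⟨a, ha⟩ ⟨b, hb⟩
    simp only [Fin.mk.injEq] at this
    exact this
  · intro g hg h hh a b
    by_cases hab : a < n ∧ b < n
    · rw [dif_pos ⟨H.mul_mem hg hh, hab⟩]
      have := h2 ⟨g, hg⟩ ⟨h, hh⟩ ⟨a, hab.1⟩ ⟨b, hab.2⟩
      rw [← Fin.sum_univ_eq_sum_range (fun c => (if h : g ∈ H ∧ a < n ∧ c < n then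
        r ⟨g, h.1⟩ ⟨a, h.2.1⟩ ⟨c, h.2.2⟩ else 0) * (if h' : h ∈ H ∧ c < n ∧ b < n then
        r ⟨h, h'.1⟩ ⟨c, h'.2.1⟩ ⟨b, h'.2.2⟩ else 0))]
      have e : (⟨g * h, H.mul_mem hg hh⟩ : H) = ⟨g, hg⟩ * ⟨h, hh⟩ := rfl
      rw [e, this]
      apply Finset.sum_congr rfl
      intro c _
      rw [dif_pos ⟨hg, hab.1, c.2⟩, dif_pos ⟨hh, c.2, hab.2⟩]
    · rw [dif_neg (fun h => hab h.2)]
      symm
      apply Finset.sum_eq_zero
      intro c _
      by_cases ha : a < n
      · rw [mul_comm, dif_neg (fun h => hab ⟨ha, h.2.2⟩), zero_mul]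
      · rw [dif_neg (fun h => ha h.2.1), zero_mul]
  · intro g hg
    rw [← Fin.sum_univ_eq_sum_range (fun a => (if h : g ∈ H ∧ a < n ∧ a < n then
        r ⟨g, h.1⟩ ⟨a, h.2.1⟩ ⟨a, h.2.2⟩ else 0))]
    rw [← h3 ⟨g, hg⟩]
    apply Finset.sum_congr rfl
    intro a _
    rw [dif_pos ⟨hg, a.2, a.2⟩]

end Pool.Agent.Helper79_WRA.H33
end
end -- Pool.Agent.Helper33_WRA.ExtA

section -- Pool.Agent.Helper33_WRA.ExtB

/-!
WRA, module EXT, part B: cycles and a trace formula.
-/

open scoped BigOperators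

noncomputable section

namespace Pool.Agent.Helper79_WRA.H33

open Pool.Agent.Helper51_AWC

section cyc

variable {K Δ : Type} [Group K] [MulAction K Δ] {h : K} {B : Finset Δ}

/-- induction along the cycles of `h` -/
theorem cyc_ind [Finite K] (hB : IsBase h B) (Q : Δ → Prop) (h1 : ∀ b ∈ B, Q b)
    (h2 : ∀ j, j ∉ B → Q (h⁻¹ • j) → Q j) : ∀ j, Q j := by
  intro j
  obtain ⟨b, ⟨hb, hbo⟩, -⟩ := hB j
  have hj : j ∈ MulAction.orbit (Subgroup.zpowers h) b := by
    rw [← MulAction.orbit_eq_iff] at hbo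
    rw [hbo]; exact MulAction.mem_orbit_self j
  obtain ⟨⟨z, hz⟩, rfl⟩ := hj
  obtain ⟨i, rfl⟩ : ∃ i : ℕ, h ^ i = z := by
    have := mem_powers_iff_mem_zpowers.2 hz
    exact this
  show Q (h ^ i • b)
  clear hbo hz
  induction i with
  | zero => rw [pow_zero, one_smul]; exact h1 b hb
  | succ i ih =>
    by_cases hm : h ^ (i + 1) • b ∈ B
    · exact h1 _ hm
    · apply h2 _ hm
      rw [pow_succ', mul_smul, inv_smul_smul]
      exact ih

/-- the base point of the cycle -/
def bp (hB : IsBase h B) (j : Δ) : Δ := (hB j).choose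

theorem bp_mem (hB : IsBase h B) (j : Δ) : bp hB j ∈ B := (hB j).choose_spec.1.1

theorem bp_orb (hB : IsBase h B) (j : Δ) :
    bp hB j ∈ MulAction.orbit (Subgroup.zpowers h) j := (hB j).choose_spec.1.2

theorem bp_uniq (hB : IsBase h B) {j b : Δ} (h1 : b ∈ B)
    (h2 : b ∈ MulAction.orbit (Subgroup.zpowers h) j) : b = bp hB j :=
  (hB j).choose_spec.2 b ⟨h1, h2⟩

theorem bp_self (hB : IsBase h B) {b : Δ} (h1 : b ∈ B) : bp hB b = b :=
  (bp_uniq hB h1 (MulAction.mem_orbit_self b)).symm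

theorem bp_inv (hB : IsBase h B) (j : Δ) : bp hB (h⁻¹ • j) = bp hB j := by
  apply bp_uniq hB (bp_mem hB _)
  have h1 := bp_orb hB (h⁻¹ • j)
  have h2 : h⁻¹ • j ∈ MulAction.orbit (Subgroup.zpowers h) j :=
    ⟨⟨h⁻¹, Subgroup.inv_mem _ (Subgroup.mem_zpowers h)⟩, rfl⟩
  rw [← MulAction.orbit_eq_iff] at h2
  rw [h2] at h1
  exact h1

theorem trace_cycles [Finite K] [Fintype Δ] [DecidableEq Δ] (hB : IsBase h B) (N : Δ → ℕ)
    (hN : ∀ j, N (h⁻¹ • j) = N j) (F : Δ → ℕ → ℕ → ℂ)
    (hF : ∀ j, j ∉ B → ∀ a c, a < N j → c < N j → F j a c = if a = c then 1 else 0) :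
    ∑ p ∈ Fintype.piFinset (fun j => Finset.range (N j)), ∏ j, F j (p j) (p (h⁻¹ • j)) =
      ∏ b ∈ B, ∑ a ∈ Finset.range (N b), F b a a := by
  have hNb : ∀ j, N (bp hB j) = N j := by
    apply cyc_ind hB
    · intro b hb
      rw [bp_self hB hb]
    · intro j _ h1
      rw [← bp_inv hB j, h1, hN]
  -- the right-hand side
  have hR : ∏ b ∈ B, ∑ a ∈ Finset.range (N b), F b a a =
      ∑ q ∈ Fintype.piFinset (fun j => if j ∈ B then Finset.range (N j) else {0}),
        ∏ j, (if j ∈ B then F j (q j) (q j) else 1) := by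
    rw [← Finset.prod_univ_sum
      (fun j => if j ∈ B then Finset.range (N j) else {0})
      (fun j a => if j ∈ B then F j a a else 1)]
    rw [← Finset.prod_subset (Finset.subset_univ B)]
    · apply Finset.prod_congr rfl
      intro b hb
      simp only [if_pos hb]
    · intro j _ hj
      simp only [if_neg hj, Finset.sum_singleton]
  rw [hR]
  have hL : ∑ p ∈ Fintype.piFinset (fun j => Finset.range (N j)),
      ∏ j, F j (p j) (p (h⁻¹ • j)) =
      ∑ p ∈ (Fintype.piFinset (fun j => Finset.range (N j))).filter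
        (fun p => ∀ j, j ∉ B → p j = p (h⁻¹ • j)), ∏ j, F j (p j) (p (h⁻¹ • j)) := by
    symm
    apply Finset.sum_filter_of_ne
    intro p hp hne j hj
    by_contra hcon
    apply hne
    apply Finset.prod_eq_zero (Finset.mem_univ j)
    rw [Fintype.mem_piFinset] at hp
    have h1 := Finset.mem_range.1 (hp j)
    have h2 := Finset.mem_range.1 (hp (h⁻¹ • j))
    rw [hN] at h2
    rw [hF j hj _ _ h1 h2, if_neg hcon]
  rw [hL]
  apply Finset.sum_nbij' (fun p j => if j ∈ B then p j else 0) (fun q j => q (bp hB j))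
  · intro p hp
    rw [Finset.mem_filter, Fintype.mem_piFinset] at hp
    rw [Fintype.mem_piFinset]
    intro j
    by_cases hj : j ∈ B
    · simp only [if_pos hj]; exact hp.1 j
    · simp only [if_neg hj, Finset.mem_singleton]
  · intro q hq
    rw [Fintype.mem_piFinset] at hq
    rw [Finset.mem_filter, Fintype.mem_piFinset]
    constructor
    · intro j
      have := hq (bp hB j)
      rw [if_pos (bp_mem hB j), hNb] at this
      exact this
    · intro j _
      show q (bp hB j) = q (bp hB (h⁻¹ • j))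
      rw [bp_inv]
  · intro p hp
    rw [Finset.mem_filter] at hp
    funext j
    show (if bp hB j ∈ B then p (bp hB j) else 0) = p j
    rw [if_pos (bp_mem hB j)]
    revert j
    apply cyc_ind hB
    · intro b hb
      rw [bp_self hB hb]
    · intro j hj h1
      rw [← bp_inv hB j, h1, hp.2 j hj]
  · intro q hq
    rw [Fintype.mem_piFinset] at hq
    funext j
    show (if j ∈ B then q (bp hB j) else 0) = q j
    by_cases hj : j ∈ B
    · rw [if_pos hj, bp_self hB hj]
    · rw [if_neg hj]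
      have := hq j
      rw [if_neg hj, Finset.mem_singleton] at this
      exact this.symm
  · intro p hp
    rw [Finset.mem_filter, Fintype.mem_piFinset] at hp
    have hpb : ∀ j, p (bp hB j) = p j := by
      apply cyc_ind hB
      · intro b hb
        rw [bp_self hB hb]
      · intro j hj h1
        rw [← bp_inv hB j, h1, hp.2 j hj]
    apply Finset.prod_congr rfl
    intro j _
    by_cases hj : j ∈ B
    · simp only [if_pos hj]
      rw [← hpb (h⁻¹ • j), bp_inv, hpb]
    · rw [if_neg hj]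
      have h1 := Finset.mem_range.1 (hp.1 j)
      rw [← hp.2 j hj, hF j hj _ _ h1 h1, if_pos rfl]

end cyc

/-! ### the groupoid -/

section car

variable {G Δ : Type} [Group G]

/-- `g` carries the datum at `i` to the datum at `j` -/
def Car (v : Finset (Δ → Subgroup G)) (α : Δ → G → ℂ) (g : G) (i j : Δ) : Prop :=
  (∀ R ∈ v, conjS g (R i) = R j) ∧ ∀ y, α j (g * y * g⁻¹) = α i y

variable {v : Finset (Δ → Subgroup G)} {α : Δ → G → ℂ}

theorem car_one (j : Δ) : Car v α 1 j j := by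
  refine ⟨fun R _ => conjS_one _, fun y => ?_⟩
  rw [one_mul, inv_one, mul_one]

theorem car_mul {g g' : G} {i j k : Δ} (h : Car v α g i j) (h' : Car v α g' j k) :
    Car v α (g' * g) i k := by
  refine ⟨fun R hR => ?_, fun y => ?_⟩
  · rw [← conjS_conjS, h.1 R hR, h'.1 R hR]
  · rw [← h.2 y, ← h'.2]
    congr 1
    group

theorem car_inv {g : G} {i j : Δ} (h : Car v α g i j) : Car v α g⁻¹ j i := by
  refine ⟨fun R hR => ?_, fun y => ?_⟩
  · rw [← h.1 R hR, conjS_conjS, inv_mul_cancel, conjS_one]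
  · rw [← h.2]
    congr 1
    group

theorem car_self_iff (hα : IsChars v α) {g : G} {j : Δ} : Car v α g j j ↔ g ∈ colStab v j := by
  rw [mem_colStab]
  constructor
  · intro h; exact h.1
  · intro h
    refine ⟨h, fun y => ?_⟩
    have hg : g ∈ colStab v j := mem_colStab.2 h
    by_cases hy : y ∈ colStab v j
    · exact irr_conj (hα j).2 (⟨y, hy⟩ : colStab v j) ⟨g, hg⟩
    · rw [(hα j).1 y hy, (hα j).1]
      intro h1
      apply hy
      have := (colStab v j).mul_mem ((colStab v j).mul_mem ((colStab v j).inv_mem hg) h1) hg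
      have e : g⁻¹ * (g * y * g⁻¹) * g = y := by group
      rwa [e] at this

theorem car_colStab {g : G} {i j : Δ} (h : Car v α g i j) {y : G} (hy : y ∈ colStab v i) :
    g * y * g⁻¹ ∈ colStab v j := by
  rw [mem_colStab] at hy ⊢
  intro R hR
  have e2 : g * y * g⁻¹ * g = g * y := by group
  rw [← h.1 R hR, conjS_conjS, e2, ← conjS_conjS, hy R hR]

theorem mem_stX_iff {K : Type} [Group K] [MulAction K Δ] {t : Wreath G Δ K} :
    t ∈ stX K v α ↔ ∀ j, Car v α (t.f j) (t.s⁻¹ • j) j := by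
  rw [mem_stX]
  constructor
  · intro h j
    exact ⟨fun R hR => h.1 R hR j, h.2 j⟩
  · intro h
    exact ⟨fun R hR j => (h j).1 R hR, fun j => (h j).2⟩

/-- the relation `i ~ j` -/
def relS (v : Finset (Δ → Subgroup G)) (α : Δ → G → ℂ) : Setoid Δ where
  r i j := ∃ g, Car v α g i j
  iseqv := ⟨fun j => ⟨1, car_one j⟩, fun ⟨g, h⟩ => ⟨g⁻¹, car_inv h⟩,
    fun ⟨_, h⟩ ⟨_, h'⟩ => ⟨_, car_mul h h'⟩⟩

/-- the chosen representative -/
def rp (v : Finset (Δ → Subgroup G)) (α : Δ → G → ℂ) (j : Δ) : Δ :=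
  (Quotient.mk (relS v α) j).out

theorem rp_rel (j : Δ) : ∃ g, Car v α g (rp v α j) j :=
  Quotient.exact (s := relS v α) (Quotient.out_eq _)

theorem rp_eq {g : G} {i j : Δ} (h : Car v α g i j) : rp v α i = rp v α j := by
  unfold rp
  congr 1
  exact Quotient.sound (s := relS v α) ⟨g, h⟩

/-- the chosen transporter -/
def kp (v : Finset (Δ → Subgroup G)) (α : Δ → G → ℂ) (j : Δ) : G := (rp_rel (v := v) (α := α) j).choose

theorem kp_car (j : Δ) : Car v α (kp v α j) (rp v α j) j := (rp_rel (v := v) (α := α) j).choose_spec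

end car

end Pool.Agent.Helper79_WRA.H33
end
end -- Pool.Agent.Helper33_WRA.ExtB

section -- Pool.Agent.Helper33_WRA.Ext

/-!
WRA, module EXT: the canonical extension exists.
-/

open scoped BigOperators

noncomputable section

namespace Pool.Agent.Helper79_WRA.H33

open Pool.Agent.Helper51_AWC

section main

variable {G Δ K : Type} [Group G] [Group K] [MulAction K Δ]
  {v : Finset (Δ → Subgroup G)} {α : Δ → G → ℂ}

/-- the coordinates of `t` read at the representatives -/
def DD (v : Finset (Δ → Subgroup G)) (α : Δ → G → ℂ) (t : Wreath G Δ K) (j : Δ) : G :=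
  (kp v α j)⁻¹ * t.f j * kp v α (t.s⁻¹ • j)

theorem stX_rp {t : Wreath G Δ K} (ht : t ∈ stX K v α) (j : Δ) :
    rp v α (t.s⁻¹ • j) = rp v α j := rp_eq (mem_stX_iff.1 ht j)

theorem stX_rp' {t : Wreath G Δ K} (ht : t ∈ stX K v α) (j : Δ) :
    rp v α (t.s • j) = rp v α j := by
  have := stX_rp ht (t.s • j)
  rw [inv_smul_smul] at this
  exact this.symm

theorem DD_car {t : Wreath G Δ K} (ht : t ∈ stX K v α) (j : Δ) :
    Car v α (DD v α t j) (rp v α j) (rp v α j) := by
  have h1 := kp_car (v := v) (α := α) (t.s⁻¹ • j)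
  rw [stX_rp ht] at h1
  have h2 := car_mul (car_mul h1 (mem_stX_iff.1 ht j)) (car_inv (kp_car (v := v) (α := α) j))
  unfold DD
  rw [mul_assoc]
  exact h2

theorem DD_mem (hα : IsChars v α) {t : Wreath G Δ K} (ht : t ∈ stX K v α) (j : Δ) :
    DD v α t j ∈ colStab v (rp v α j) := (car_self_iff hα).1 (DD_car ht j)

theorem DD_mul (t s : Wreath G Δ K) (j : Δ) :
    DD v α (t * s) j = DD v α t j * DD v α s (t.s⁻¹ • j) := by
  unfold DD
  rw [Wreath.mul_f, Wreath.mul_s, mul_inv_rev, mul_smul]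
  group

theorem DD_one (j : Δ) : DD v α (1 : Wreath G Δ K) j = 1 := by
  unfold DD
  rw [Wreath.one_f, Wreath.one_s, inv_one, one_smul, mul_one, inv_mul_cancel]

variable [Fintype Δ] [DecidableEq Δ]

/-- the matrix coefficients of the extension -/
def MM (c : ∀ j, Coef (colStab v j) (α j)) (t : Wreath G Δ K) (p q : Δ → ℕ) : ℂ :=
  ∏ j, (c (rp v α j)).B (DD v α t j) (p j) (q (t.s⁻¹ • j))

/-- the index set -/
def PP (c : ∀ j, Coef (colStab v j) (α j)) : Finset (Δ → ℕ) :=
  Fintype.piFinset (fun j => Finset.range (c (rp v α j)).n)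

theorem mem_PP {c : ∀ j, Coef (colStab v j) (α j)} {p : Δ → ℕ} :
    p ∈ PP c ↔ ∀ j, p j < (c (rp v α j)).n := by
  unfold PP
  rw [Fintype.mem_piFinset]
  simp only [Finset.mem_range]

theorem MM_mul (hα : IsChars v α) (c : ∀ j, Coef (colStab v j) (α j)) {t s : Wreath G Δ K}
    (ht : t ∈ stX K v α) (hs : s ∈ stX K v α) (p q : Δ → ℕ) :
    MM c (t * s) p q = ∑ r ∈ PP c, MM c t p r * MM c s r q := by
  have h1 : MM c (t * s) p q = ∑ r ∈ PP c, ∏ j,
      ((c (rp v α j)).B (DD v α t j) (p j) (r j) *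
        (c (rp v α j)).B (DD v α s (t.s⁻¹ • j)) (r j) (q (s.s⁻¹ • t.s⁻¹ • j))) := by
    unfold PP MM
    rw [← Finset.prod_univ_sum (fun j => Finset.range (c (rp v α j)).n)
      (fun j a => (c (rp v α j)).B (DD v α t j) (p j) a *
        (c (rp v α j)).B (DD v α s (t.s⁻¹ • j)) a (q (s.s⁻¹ • t.s⁻¹ • j)))]
    apply Finset.prod_congr rfl
    intro j _
    rw [DD_mul, Wreath.mul_s, mul_inv_rev, mul_smul]
    apply (c (rp v α j)).mul _ (DD_mem hα ht j)
    have := DD_mem hα hs (t.s⁻¹ • j)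
    rw [stX_rp ht] at this
    exact this
  rw [h1]
  apply Finset.sum_nbij' (fun r j => r (t.s • j)) (fun r j => r (t.s⁻¹ • j))
  · intro r hr
    rw [mem_PP] at hr ⊢
    intro j
    have := hr (t.s • j)
    rw [stX_rp' ht] at this
    exact this
  · intro r hr
    rw [mem_PP] at hr ⊢
    intro j
    have := hr (t.s⁻¹ • j)
    rw [stX_rp ht] at this
    exact this
  · intro r _
    funext j
    show r (t.s • t.s⁻¹ • j) = r j
    rw [smul_inv_smul]
  · intro r _
    funext j
    show r (t.s⁻¹ • t.s • j) = r j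
    rw [inv_smul_smul]
  · intro r _
    rw [Finset.prod_mul_distrib]
    congr 1
    · unfold MM
      apply Finset.prod_congr rfl
      intro j _
      show _ = (c (rp v α j)).B (DD v α t j) (p j) (r (t.s • t.s⁻¹ • j))
      rw [smul_inv_smul]
    · unfold MM
      rw [← Equiv.prod_comp (MulAction.toPerm (t.s⁻¹) : Equiv.Perm Δ) (fun i =>
        (c (rp v α i)).B (DD v α s i) (r (t.s • i)) (q (s.s⁻¹ • i)))]
      apply Finset.prod_congr rfl
      intro j _
      show _ = (c (rp v α (t.s⁻¹ • j))).B (DD v α s (t.s⁻¹ • j)) (r (t.s • t.s⁻¹ • j))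
        (q (s.s⁻¹ • t.s⁻¹ • j))
      rw [smul_inv_smul, stX_rp ht]

theorem MM_one (c : ∀ j, Coef (colStab v j) (α j)) {p q : Δ → ℕ} (hp : p ∈ PP c)
    (hq : q ∈ PP c) : MM c (1 : Wreath G Δ K) p q = if p = q then 1 else 0 := by
  rw [mem_PP] at hp hq
  unfold MM
  simp only [DD_one, Wreath.one_s, inv_one, one_smul]
  split_ifs with h
  · subst h
    apply Finset.prod_eq_one
    intro j _
    rw [(c (rp v α j)).one _ _ (hp j) (hp j), if_pos rfl]
  · obtain ⟨j, hj⟩ := Function.ne_iff.1 h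
    apply Finset.prod_eq_zero (Finset.mem_univ j)
    rw [(c (rp v α j)).one _ _ (hp j) (hq j), if_neg hj]

open Classical in
/-- the character -/
def XX (c : ∀ j, Coef (colStab v j) (α j)) (t : Wreath G Δ K) : ℂ :=
  if t ∈ stX K v α then ∑ p ∈ PP c, MM c t p p else 0

theorem XX_of (c : ∀ j, Coef (colStab v j) (α j)) {t : Wreath G Δ K} (ht : t ∈ stX K v α) :
    XX c t = ∑ p ∈ PP c, MM c t p p := by
  unfold XX; rw [if_pos ht]

theorem XX_not (c : ∀ j, Coef (colStab v j) (α j)) {t : Wreath G Δ K} (ht : t ∉ stX K v α) :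
    XX c t = 0 := by
  unfold XX; rw [if_neg ht]

theorem XX_comm (hα : IsChars v α) (c : ∀ j, Coef (colStab v j) (α j)) {t s : Wreath G Δ K}
    (ht : t ∈ stX K v α) (hs : s ∈ stX K v α) : XX c (t * s) = XX c (s * t) := by
  rw [XX_of c ((stX K v α).mul_mem ht hs), XX_of c ((stX K v α).mul_mem hs ht)]
  simp only [MM_mul hα c ht hs, MM_mul hα c hs ht]
  rw [Finset.sum_comm]
  apply Finset.sum_congr rfl
  intro p _
  apply Finset.sum_congr rfl
  intro q _
  rw [mul_comm]

theorem XX_conj (hα : IsChars v α) (c : ∀ j, Coef (colStab v j) (α j)) {x y : Wreath G Δ K}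
    (hx : x ∈ stX K v α) (hy : y ∈ stX K v α) : XX c (y * x * y⁻¹) = XX c x := by
  rw [XX_comm hα c ((stX K v α).mul_mem hy hx) ((stX K v α).inv_mem hy)]
  congr 1
  group

theorem base_mem_stX (hα : IsChars v α) {y : Δ → G} :
    (Wreath.base y : Wreath G Δ K) ∈ stX K v α ↔ ∀ j, y j ∈ colStab v j := by
  rw [mem_stX_iff]
  simp only [Wreath.base_f, Wreath.base_s, inv_one, one_smul]
  exact forall_congr' fun j => car_self_iff hα

theorem XX_base (hα : IsChars v α) (c : ∀ j, Coef (colStab v j) (α j)) (y : Δ → G) :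
    XX c (Wreath.base y : Wreath G Δ K) = ∏ j, α j (y j) := by
  by_cases h : ∀ j, y j ∈ colStab v j
  · have hm : (Wreath.base y : Wreath G Δ K) ∈ stX K v α := (base_mem_stX hα).2 h
    rw [XX_of c hm]
    unfold MM PP
    simp only [Wreath.base_s, inv_one, one_smul]
    rw [← Finset.prod_univ_sum (fun j => Finset.range (c (rp v α j)).n)
      (fun j a => (c (rp v α j)).B (DD v α (Wreath.base y : Wreath G Δ K) j) a a)]
    apply Finset.prod_congr rfl
    intro j _
    rw [(c (rp v α j)).tr _ (DD_mem hα hm j)]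
    rw [← (car_inv (kp_car (v := v) (α := α) j)).2 (y j)]
    unfold DD
    rw [Wreath.base_f, Wreath.base_s, inv_one, one_smul, inv_inv]
  · rw [XX_not c (fun hm => h ((base_mem_stX hα).1 hm))]
    push Not at h
    obtain ⟨j, hj⟩ := h
    symm
    apply Finset.prod_eq_zero (Finset.mem_univ j)
    exact (hα j).1 _ hj

theorem XX_mem [Finite G] [Finite K] (hα : IsChars v α)
    (c : ∀ j, Coef (colStab v j) (α j)) : XX c ∈ IrrS (stX K v α) := by
  classical
  refine ⟨fun g hg => XX_not c hg, ?_⟩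
  have hfT : Fintype (stX K v α) := Fintype.ofFinite _
  have hfY : ∀ j, Fintype (colStab v j) := fun j => Fintype.ofFinite _
  let ι : (∀ j, colStab v j) →* stX K v α :=
    { toFun := fun y => ⟨Wreath.base (fun j => (y j : G)), (base_mem_stX hα).2 fun j => (y j).2⟩
      map_one' := rfl
      map_mul' := by
        intro x y
        apply Subtype.ext
        exact map_mul (Wreath.base : (Δ → G) →* Wreath G Δ K) _ _ }
  refine mem_Irr_of_coeff_restrict ι (X := PP c)
    (fun t p q => MM c (t : Wreath G Δ K) p q) ?_ ?_ _ ?_ ?_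
  · intro p q
    have h1 := MM_one (K := K) c p.2 q.2
    rw [← Subgroup.coe_one (stX K v α)] at h1
    rw [h1]
    by_cases h : p = q
    · rw [if_pos h, if_pos (congrArg _ h)]
    · rw [if_neg h, if_neg (fun h' => h (Subtype.ext h'))]
  · intro g h p q
    rw [Subgroup.coe_mul, MM_mul hα c g.2 h.2]
    rw [← Finset.sum_coe_sort (PP c) (fun r => MM c (g : Wreath G Δ K) p r *
      MM c (h : Wreath G Δ K) r q)]
  · intro g
    rw [XX_of c g.2]
    rw [← Finset.sum_coe_sort (PP c) (fun r => MM c (g : Wreath G Δ K) r r)]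
  · have h1 : piChar (fun j => fun x : colStab v j => α j x) ∈ Irr (∀ j, colStab v j) :=
      piChar_mem fun j => (hα j).2
    have h2 : (fun y => XX c ((ι y : stX K v α) : Wreath G Δ K)) =
        piChar (fun j => fun x : colStab v j => α j x) := by
      funext y
      exact XX_base hα c _
    rw [h2]
    exact h1

/-! ### the formula -/

section form

variable {h : K} {B : Finset Δ}

omit [Fintype Δ] in
theorem exists_a0 [Finite K] (hB : IsBase h B) (hh : h ∈ topSt K v α) :
    ∃ a0 : Δ → G, (∀ j, Car v α (a0 j) (bp hB j) j) ∧ ∀ b ∈ B, a0 b = 1 := by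
  have h1 : ∀ j, ∃ g, Car v α g (bp hB j) j := by
    apply cyc_ind hB
    · intro b hb
      rw [bp_self hB hb]
      exact ⟨1, car_one b⟩
    · rintro j _ ⟨g, hg⟩
      obtain ⟨g', hg'⟩ := mem_topSt.1 hh j
      rw [bp_inv] at hg
      exact ⟨g' * g, car_mul hg hg'⟩
  choose a ha using h1
  refine ⟨fun j => if j ∈ B then 1 else a j, fun j => ?_, fun b hb => if_pos hb⟩
  by_cases hj : j ∈ B
  · simp only [if_pos hj]
    rw [bp_self hB hj]
    exact car_one j
  · simp only [if_neg hj]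
    exact ha j

/-- the conjugating part -/
def az (B : Finset Δ) (a0 : Δ → G) (z : Δ → G) (j : Δ) : G := if j ∈ B then 1 else z j * a0 j

/-- the part supported at the base points -/
def yz (B : Finset Δ) (z : Δ → G) (j : Δ) : G := if j ∈ B then z j else 1

/-- the parametrisation -/
def wz (h : K) (B : Finset Δ) (a0 : Δ → G) (z : Δ → G) (j : Δ) : G :=
  az B a0 z j * yz B z j * (az B a0 z (h⁻¹ • j))⁻¹

omit [Fintype Δ] in
theorem wz_conj (a0 z : Δ → G) : (⟨wz h B a0 z, h⟩ : Wreath G Δ K) =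
    Wreath.base (az B a0 z) * ⟨yz B z, h⟩ * (Wreath.base (az B a0 z))⁻¹ := by
  apply Wreath.ext
  · funext i
    rw [Wreath.conj_f]
    simp only [Wreath.base_f, Wreath.base_s, inv_one, one_smul, one_mul, mul_one]
    rfl
  · rw [Wreath.conj_s, Wreath.base_s, one_mul, inv_one, mul_one]

omit [Fintype Δ] in
theorem az_car (hα : IsChars v α) (hB : IsBase h B) {a0 : Δ → G}
    (ha0 : ∀ j, Car v α (a0 j) (bp hB j) j) {z : Δ → G} (hz : ∀ j, z j ∈ colStab v j) (j : Δ) :
    Car v α (az B a0 z j) (bp hB j) j := by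
  unfold az
  split_ifs with hj
  · rw [bp_self hB hj]; exact car_one j
  · exact car_mul (ha0 j) ((car_self_iff hα).2 (hz j))

omit [Fintype Δ] in
theorem yz_car (hα : IsChars v α) (hB : IsBase h B) {z : Δ → G}
    (hz : ∀ j, z j ∈ colStab v j) (j : Δ) :
    Car v α (yz B z j) (bp hB j) (bp hB j) := by
  unfold yz
  split_ifs with hj
  · rw [bp_self hB hj]; exact (car_self_iff hα).2 (hz j)
  · exact car_one _

omit [Fintype Δ] in
theorem wz_mem (hα : IsChars v α) (hB : IsBase h B) {a0 : Δ → G}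
    (ha0 : ∀ j, Car v α (a0 j) (bp hB j) j) {z : Δ → G} (hz : ∀ j, z j ∈ colStab v j) :
    (⟨wz h B a0 z, h⟩ : Wreath G Δ K) ∈ stX K v α := by
  rw [mem_stX_iff]
  intro j
  have h1 := car_inv (az_car hα hB ha0 hz (h⁻¹ • j))
  rw [bp_inv] at h1
  have h2 := car_mul (car_mul h1 (yz_car hα hB hz j)) (az_car hα hB ha0 hz j)
  rw [← mul_assoc] at h2
  exact h2

omit [Fintype Δ] in
theorem wz_inj [Finite K] (hB : IsBase h B) (a0 : Δ → G) :
    Function.Injective (wz h B a0) := by
  intro z z' hzz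
  have h1 : ∀ j, (az B a0 z' j)⁻¹ * az B a0 z j = 1 := by
    apply cyc_ind hB
    · intro b hb
      unfold az
      rw [if_pos hb, if_pos hb, inv_one, mul_one]
    · intro j hj h2
      have h3 := congrFun hzz j
      unfold wz at h3
      have e1 : yz B z j = 1 := if_neg hj
      have e2 : yz B z' j = 1 := if_neg hj
      rw [e1, e2, mul_one, mul_one] at h3
      have h4 : az B a0 z (h⁻¹ • j) = az B a0 z' (h⁻¹ • j) := (inv_mul_eq_one.1 h2).symm
      rw [h4] at h3
      rw [mul_right_cancel h3, inv_mul_cancel]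
  have h2 : ∀ j, az B a0 z j = az B a0 z' j := fun j => (inv_mul_eq_one.1 (h1 j)).symm
  funext j
  by_cases hj : j ∈ B
  · have h3 := congrFun hzz j
    unfold wz at h3
    rw [h2 j, h2 (h⁻¹ • j)] at h3
    have h4 := mul_left_cancel (mul_right_cancel h3)
    unfold yz at h4
    rw [if_pos hj, if_pos hj] at h4
    exact h4
  · have h3 := h2 j
    unfold az at h3
    rw [if_neg hj, if_neg hj] at h3
    exact mul_right_cancel h3

/-- the value of the character at a parametrised element -/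
theorem XX_wz [Finite K] (hα : IsChars v α) (c : ∀ j, Coef (colStab v j) (α j))
    (hB : IsBase h B) {a0 : Δ → G}
    (ha0 : ∀ j, Car v α (a0 j) (bp hB j) j) {z : Δ → G} (hz : ∀ j, z j ∈ colStab v j) :
    XX c (⟨wz h B a0 z, h⟩ : Wreath G Δ K) = ∏ b ∈ B, α b (z b) := by
  have hm := wz_mem hα hB ha0 hz
  let ε : Δ → G := fun j => az B a0 z j * kp v α (bp hB j) * (kp v α j)⁻¹
  let t : Wreath G Δ K := ⟨fun j => kp v α j * ((kp v α (bp hB j))⁻¹ * yz B z j *
    kp v α (bp hB j)) * (kp v α (h⁻¹ • j))⁻¹, h⟩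
  have hεc : ∀ j, Car v α (ε j) j j := by
    intro j
    have h1 := az_car hα hB ha0 hz j
    have h2 := kp_car (v := v) (α := α) (bp hB j)
    rw [rp_eq h1] at h2
    have h3 := car_mul (car_mul (car_inv (kp_car (v := v) (α := α) j)) h2) h1
    rw [← mul_assoc] at h3
    exact h3
  have hε : (Wreath.base ε : Wreath G Δ K) ∈ stX K v α :=
    (base_mem_stX hα).2 fun j => (car_self_iff hα).1 (hεc j)
  have hw : (⟨wz h B a0 z, h⟩ : Wreath G Δ K) = Wreath.base ε * t * (Wreath.base ε)⁻¹ := by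
    apply Wreath.ext
    · funext i
      rw [Wreath.conj_f]
      simp only [Wreath.base_f, Wreath.base_s, inv_one, one_smul, one_mul, mul_one]
      show az B a0 z i * yz B z i * (az B a0 z (h⁻¹ • i))⁻¹ =
        az B a0 z i * kp v α (bp hB i) * (kp v α i)⁻¹ *
          (kp v α i * ((kp v α (bp hB i))⁻¹ * yz B z i * kp v α (bp hB i)) *
            (kp v α (h⁻¹ • i))⁻¹) *
          (az B a0 z (h⁻¹ • i) * kp v α (bp hB (h⁻¹ • i)) * (kp v α (h⁻¹ • i))⁻¹)⁻¹
      rw [bp_inv]
      group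
    · rw [Wreath.conj_s, Wreath.base_s, one_mul, inv_one, mul_one]
  have ht : t ∈ stX K v α := by
    have e : t = (Wreath.base ε)⁻¹ * (⟨wz h B a0 z, h⟩ : Wreath G Δ K) * Wreath.base ε := by
      rw [hw]; group
    rw [e]
    exact (stX K v α).mul_mem ((stX K v α).mul_mem ((stX K v α).inv_mem hε) hm) hε
  rw [hw, XX_conj hα c ht hε, XX_of c ht]
  have hDt : ∀ j, DD v α t j = (kp v α (bp hB j))⁻¹ * yz B z j * kp v α (bp hB j) := by
    intro j
    show (kp v α j)⁻¹ * (kp v α j * ((kp v α (bp hB j))⁻¹ * yz B z j *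
      kp v α (bp hB j)) * (kp v α (h⁻¹ • j))⁻¹) * kp v α (h⁻¹ • j) = _
    group
  have h1 := trace_cycles hB (fun j => (c (rp v α j)).n)
    (fun j => by
      show (c (rp v α (t.s⁻¹ • j))).n = (c (rp v α j)).n
      rw [stX_rp ht j]) (fun j a b => (c (rp v α j)).B (DD v α t j) a b) (by
      intro j hj a b ha hb
      have e1 : DD v α t j = 1 := by
        rw [hDt j]
        have e2 : yz B z j = 1 := if_neg hj
        rw [e2, mul_one, inv_mul_cancel]
      simp only [e1]
      exact (c (rp v α j)).one _ _ ha hb)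
  have h2 : ∑ p ∈ PP c, MM c t p p = ∏ b ∈ B, ∑ a ∈ Finset.range (c (rp v α b)).n,
      (c (rp v α b)).B (DD v α t b) a a := by
    unfold PP MM
    exact h1
  rw [h2]
  apply Finset.prod_congr rfl
  intro b hb
  rw [(c (rp v α b)).tr _ (DD_mem hα ht b), hDt b, bp_self hB hb]
  have e2 : yz B z b = z b := if_pos hb
  rw [e2, ← (car_inv (kp_car (v := v) (α := α) b)).2 (z b), inv_inv]

open Classical in
/-- the finite set of the elements of `colStab v j` -/
def HF [Finite G] (v : Finset (Δ → Subgroup G)) (j : Δ) : Finset G :=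
  (Set.toFinite (colStab v j : Set G)).toFinset

omit [Fintype Δ] [DecidableEq Δ] in
theorem mem_HF [Finite G] {j : Δ} {g : G} : g ∈ HF v j ↔ g ∈ colStab v j := by
  unfold HF
  rw [Set.Finite.mem_toFinset]; rfl

omit [Fintype Δ] [DecidableEq Δ] in
theorem card_HF [Finite G] (j : Δ) : (HF v j).card = Nat.card (colStab v j) := by
  unfold HF
  rw [← Set.ncard_eq_toFinset_card]
  exact (Nat.card_coe_set_eq _).symm

theorem wz_image [Finite G] [Fintype G] [Finite K] (hα : IsChars v α)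
    (hh : h ∈ topSt K v α) (hB : IsBase h B) {a0 : Δ → G}
    (ha0 : ∀ j, Car v α (a0 j) (bp hB j) j) (Z W : Finset (Δ → G))
    (hZ : ∀ z, z ∈ Z ↔ ∀ j, z j ∈ colStab v j)
    (hW : ∀ w, w ∈ W ↔ (⟨w, h⟩ : Wreath G Δ K) ∈ stX K v α) [DecidableEq G] :
    Z.image (wz h B a0) = W := by
  obtain ⟨w0, hw0⟩ : ∃ w0 : Δ → G, ∀ j, Car v α (w0 j) (h⁻¹ • j) j := by
    have := mem_topSt.1 hh
    choose w0 hw0 using this
    exact ⟨w0, hw0⟩
  have hcard : W.card = Z.card := by
    apply Finset.card_nbij' (fun w j => w j * (w0 j)⁻¹) (fun z j => z j * w0 j)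
    · intro w hw
      rw [Finset.mem_coe, hZ]
      intro j
      rw [Finset.mem_coe, hW, mem_stX_iff] at hw
      exact (car_self_iff hα).1 (car_mul (car_inv (hw0 j)) (hw j))
    · intro z hz
      rw [Finset.mem_coe, hW, mem_stX_iff]
      intro j
      rw [Finset.mem_coe, hZ] at hz
      exact car_mul (hw0 j) ((car_self_iff hα).2 (hz j))
    · intro w _
      funext j
      show w j * (w0 j)⁻¹ * w0 j = w j
      rw [inv_mul_cancel_right]
    · intro z _
      funext j
      show z j * w0 j * (w0 j)⁻¹ = z j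
      rw [mul_inv_cancel_right]
  apply Finset.eq_of_subset_of_card_le
  · intro w hw
    obtain ⟨z, hz, rfl⟩ := Finset.mem_image.1 hw
    rw [hW]
    exact wz_mem hα hB ha0 ((hZ z).1 hz)
  · rw [Finset.card_image_of_injective _ (wz_inj hB a0), hcard]

theorem wz_surj [Finite G] [Finite K] (hα : IsChars v α)
    (hB : IsBase h B) {a0 : Δ → G}
    (ha0 : ∀ j, Car v α (a0 j) (bp hB j) j) {w : Δ → G}
    (hw : (⟨w, h⟩ : Wreath G Δ K) ∈ stX K v α) :
    ∃ z : Δ → G, (∀ j, z j ∈ colStab v j) ∧ wz h B a0 z = w := by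
  classical
  have hfG : Fintype G := Fintype.ofFinite G
  have hh : h ∈ topSt K v α := ⟨_, hw, rfl⟩
  have h1 := wz_image hα hh hB ha0 (Fintype.piFinset (fun j => HF v j))
    (Finset.univ.filter (fun w => (⟨w, h⟩ : Wreath G Δ K) ∈ stX K v α))
    (fun z => by simp only [Fintype.mem_piFinset, mem_HF])
    (fun w => by simp only [Finset.mem_filter, Finset.mem_univ, true_and])
  have h2 : w ∈ Finset.univ.filter (fun w => (⟨w, h⟩ : Wreath G Δ K) ∈ stX K v α) := by
    rw [Finset.mem_filter]; exact ⟨Finset.mem_univ _, hw⟩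
  rw [← h1] at h2
  obtain ⟨z, hz, rfl⟩ := Finset.mem_image.1 h2
  refine ⟨z, fun j => ?_, rfl⟩
  rw [Fintype.mem_piFinset] at hz
  exact mem_HF.1 (hz j)

omit [Fintype Δ] in
/-- powers of the gauge-fixed element -/
theorem pow_yz (hB : IsBase h B) (z : Δ → G) {b : Δ} (hb : b ∈ B) (m : ℕ)
    (hm : m < Function.minimalPeriod (fun i : Δ => h • i) b) :
    ((⟨yz B z, h⟩ : Wreath G Δ K) ^ (m + 1)).f b = z b ∧
      ((⟨yz B z, h⟩ : Wreath G Δ K) ^ (m + 1)).s = h ^ (m + 1) := by
  induction m with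
  | zero =>
    rw [zero_add, pow_one, pow_one]
    exact ⟨if_pos hb, rfl⟩
  | succ m ih =>
    have ih' := ih (by omega)
    rw [pow_succ, Wreath.mul_f, Wreath.mul_s, ih'.1, ih'.2, pow_succ h (m + 1)]
    refine ⟨?_, rfl⟩
    have h1 : (h ^ (m + 1))⁻¹ • b ∉ B := by
      intro h2
      have h3 : (h ^ (m + 1))⁻¹ • b = b := by
        rw [bp_uniq hB h2 (j := b), bp_self hB hb]
        exact ⟨⟨(h ^ (m + 1))⁻¹, Subgroup.inv_mem _
          (Subgroup.pow_mem _ (Subgroup.mem_zpowers h) _)⟩, rfl⟩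
      have h4 : Function.IsPeriodicPt (fun i : Δ => h • i) (m + 1) b := by
        show (fun i : Δ => h • i)^[m + 1] b = b
        rw [smul_iterate]
        show h ^ (m + 1) • b = b
        rw [inv_smul_eq_iff] at h3
        exact h3.symm
      have h5 := h4.minimalPeriod_le (Nat.succ_pos m)
      omega
    have e : (⟨yz B z, h⟩ : Wreath G Δ K).f ((h ^ (m + 1))⁻¹ • b) = 1 := if_neg h1
    rw [e, mul_one]

theorem XX_value [Finite G] [Finite K] (hα : IsChars v α)
    (c : ∀ j, Coef (colStab v j) (α j)) {t : Wreath G Δ K} (ht : t ∈ stX K v α)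
    (hB : IsBase t.s B) :
    XX c t = ∏ b ∈ B, α b ((t ^ Function.minimalPeriod (fun i : Δ => t.s • i) b).f b) := by
  have hh : t.s ∈ topSt K v α := ⟨_, ht, rfl⟩
  obtain ⟨a0, ha0, -⟩ := exists_a0 hB hh
  obtain ⟨z, hz, hw⟩ := wz_surj hα hB ha0 (w := t.f) ht
  have ht' : t = (⟨wz t.s B a0 z, t.s⟩ : Wreath G Δ K) := Wreath.ext hw.symm rfl
  have h1 : XX c t = ∏ b ∈ B, α b (z b) := by
    conv_lhs => rw [ht']
    exact XX_wz hα c hB ha0 hz
  rw [h1]
  apply Finset.prod_congr rfl
  intro b hb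
  congr 1
  have hper := Function.isPeriodicPt_minimalPeriod (fun i : Δ => t.s • i) b
  have hpos : 0 < Function.minimalPeriod (fun i : Δ => t.s • i) b := by
    apply Function.IsPeriodicPt.minimalPeriod_pos (n := orderOf t.s) (orderOf_pos _)
    show (fun i : Δ => t.s • i)^[orderOf t.s] b = b
    rw [smul_iterate]
    show t.s ^ orderOf t.s • b = b
    rw [pow_orderOf_eq_one, one_smul]
  have hfix : t.s ^ Function.minimalPeriod (fun i : Δ => t.s • i) b • b = b := by
    have : (fun i : Δ => t.s • i)^[Function.minimalPeriod (fun i : Δ => t.s • i) b] b = b := hper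
    rw [smul_iterate] at this
    exact this
  obtain ⟨m, hm⟩ : ∃ m, Function.minimalPeriod (fun i : Δ => t.s • i) b = m + 1 :=
    ⟨Function.minimalPeriod (fun i : Δ => t.s • i) b - 1, by omega⟩
  have h2 := pow_yz (G := G) hB z hb m (by omega)
  rw [hm] at hfix ⊢
  have h3 : t ^ (m + 1) = Wreath.base (az B a0 z) *
      (⟨yz B z, t.s⟩ : Wreath G Δ K) ^ (m + 1) * (Wreath.base (az B a0 z))⁻¹ := by
    conv_lhs => rw [ht', wz_conj]
    rw [conj_pow]
  rw [h3, Wreath.conj_f]
  simp only [Wreath.base_f, Wreath.base_s, inv_one, one_smul, one_mul, mul_one]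
  rw [h2.1, h2.2]
  have e1 : az B a0 z b = 1 := if_pos hb
  have e2 : (t.s ^ (m + 1))⁻¹ • b = b := by
    rw [inv_smul_eq_iff]
    exact hfix.symm
  rw [e2, e1, inv_one, one_mul, mul_one]

theorem XX_form [Finite G] [Finite K] (hα : IsChars v α) (c : ∀ j, Coef (colStab v j) (α j))
    (hh : h ∈ topSt K v α) (hB : IsBase h B) (Φ : Wreath G Δ K → ℂ)
    (hΦ : ∀ x (a : Δ → G), Φ (Wreath.base a * x * (Wreath.base a)⁻¹) = Φ x) :
    ∑ᶠ w : Δ → G, Φ ⟨w, h⟩ * XX c ⟨w, h⟩ =
      (∏ j, if j ∈ B then 1 else (Nat.card (colStab v j) : ℂ)) *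
        ∑ᶠ (y : Δ → G) (_ : ∀ j, j ∉ B → y j = 1), Φ ⟨y, h⟩ * ∏ b ∈ B, α b (y b) := by
  classical
  have hfG : Fintype G := Fintype.ofFinite G
  obtain ⟨a0, ha0, -⟩ := exists_a0 hB hh
  let Z : Finset (Δ → G) := Fintype.piFinset (fun j => HF v j)
  have hZ : ∀ z, z ∈ Z ↔ ∀ j, z j ∈ colStab v j := by
    intro z
    simp only [Z, Fintype.mem_piFinset, mem_HF]
  let W : Finset (Δ → G) := Finset.univ.filter
    (fun w => (⟨w, h⟩ : Wreath G Δ K) ∈ stX K v α)
  have hW : ∀ w, w ∈ W ↔ (⟨w, h⟩ : Wreath G Δ K) ∈ stX K v α := by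
    intro w
    simp only [W, Finset.mem_filter, Finset.mem_univ, true_and]
  have himg : Z.image (wz h B a0) = W := wz_image hα hh hB ha0 Z W hZ hW
  let F : (Δ → G) → ℂ := fun y => Φ ⟨y, h⟩ * ∏ b ∈ B, α b (y b)
  have hL : ∑ᶠ w : Δ → G, Φ ⟨w, h⟩ * XX c ⟨w, h⟩ = ∑ z ∈ Z, F (yz B z) := by
    rw [finsum_eq_sum_of_fintype]
    have h1 : ∑ w : Δ → G, Φ ⟨w, h⟩ * XX c ⟨w, h⟩ = ∑ w ∈ W, Φ ⟨w, h⟩ * XX c ⟨w, h⟩ := by
      symm
      apply Finset.sum_subset (Finset.subset_univ W)
      intro w _ hw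
      rw [XX_not c (fun h' => hw ((hW w).2 h')), mul_zero]
    rw [h1, ← himg, Finset.sum_image (fun x _ y _ hxy => wz_inj hB a0 hxy)]
    apply Finset.sum_congr rfl
    intro z hz
    rw [XX_wz hα c hB ha0 ((hZ z).1 hz), wz_conj, hΦ]
    show _ = Φ ⟨yz B z, h⟩ * ∏ b ∈ B, α b (yz B z b)
    congr 1
    apply Finset.prod_congr rfl
    intro b hb
    have e2 : yz B z b = z b := if_pos hb
    rw [e2]
  let Y : Finset (Δ → G) := Fintype.piFinset (fun j => if j ∈ B then HF v j else {1})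
  have hY : ∀ y, y ∈ Y ↔ (∀ j, j ∉ B → y j = 1) ∧ ∀ j, j ∈ B → y j ∈ colStab v j := by
    intro y
    simp only [Y, Fintype.mem_piFinset]
    constructor
    · intro h1
      refine ⟨fun j hj => ?_, fun j hj => ?_⟩
      · have := h1 j
        rw [if_neg hj, Finset.mem_singleton] at this
        exact this
      · have := h1 j
        rw [if_pos hj, mem_HF] at this
        exact this
    · rintro ⟨h1, h2⟩ j
      split_ifs with hj
      · rw [mem_HF]; exact h2 j hj
      · rw [Finset.mem_singleton]; exact h1 j hj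
  have hR : ∑ᶠ (y : Δ → G) (_ : ∀ j, j ∉ B → y j = 1), Φ ⟨y, h⟩ * ∏ b ∈ B, α b (y b) =
      ∑ y ∈ Y, F y := by
    rw [finsum_eq_sum_of_fintype]
    simp only [finsum_eq_if]
    rw [← Finset.sum_filter]
    symm
    apply Finset.sum_subset
    · intro y hy
      rw [Finset.mem_filter]
      exact ⟨Finset.mem_univ _, ((hY y).1 hy).1⟩
    · intro y hy hy'
      rw [Finset.mem_filter] at hy
      have h2 : ∃ j, j ∈ B ∧ y j ∉ colStab v j := by
        by_contra hcon
        push Not at hcon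
        exact hy' ((hY y).2 ⟨hy.2, hcon⟩)
      obtain ⟨j, hj, hyj⟩ := h2
      show Φ ⟨y, h⟩ * ∏ b ∈ B, α b (y b) = 0
      rw [Finset.prod_eq_zero hj ((hα j).1 _ hyj), mul_zero]
  rw [hL, hR]
  have hmaps : ∀ z ∈ Z, yz B z ∈ Y := by
    intro z hz
    rw [hY]
    refine ⟨fun j hj => if_neg hj, fun j hj => ?_⟩
    have e2 : yz B z j = z j := if_pos hj
    rw [e2]
    exact (hZ z).1 hz j
  rw [← Finset.sum_fiberwise_of_maps_to hmaps, Finset.mul_sum]
  apply Finset.sum_congr rfl
  intro y hy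
  have hfib : Z.filter (fun z => yz B z = y) =
      Fintype.piFinset (fun j => if j ∈ B then {y j} else HF v j) := by
    ext z
    rw [Finset.mem_filter, hZ, Fintype.mem_piFinset]
    constructor
    · rintro ⟨h1, h2⟩ j
      split_ifs with hj
      · rw [Finset.mem_singleton, ← h2]
        exact (if_pos hj).symm
      · rw [mem_HF]; exact h1 j
    · intro h1
      have h3 : ∀ j, j ∈ B → z j = y j := by
        intro j hj
        have := h1 j
        rw [if_pos hj, Finset.mem_singleton] at this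
        exact this
      refine ⟨fun j => ?_, ?_⟩
      · by_cases hj : j ∈ B
        · rw [h3 j hj]
          exact ((hY y).1 hy).2 j hj
        · have := h1 j
          rw [if_neg hj, mem_HF] at this
          exact this
      · funext j
        by_cases hj : j ∈ B
        · rw [← h3 j hj]; exact if_pos hj
        · rw [((hY y).1 hy).1 j hj]; exact if_neg hj
  have hsum : ∑ z ∈ Z.filter (fun z => yz B z = y), F (yz B z) =
      ∑ z ∈ Z.filter (fun z => yz B z = y), F y := by
    apply Finset.sum_congr rfl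
    intro z hz
    rw [(Finset.mem_filter.1 hz).2]
  rw [hsum, Finset.sum_const, nsmul_eq_mul, hfib, Fintype.card_piFinset]
  congr 1
  push_cast
  apply Finset.prod_congr rfl
  intro j _
  split_ifs with hj
  · rw [Finset.card_singleton, Nat.cast_one]
  · rw [card_HF]

end form

end main

theorem ext_ : ExtStmt := by
  intro G Δ K _ _ _ _ _ _ v α hα
  classical
  have c : ∀ j, Coef (colStab v j) (α j) := fun j => (exists_coef _ _ (hα j).2).some
  refine ⟨XX c, XX_mem hα c, XX_base hα c, fun t ht B hB => XX_value hα c ht hB, ?_⟩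
  intro h hh B hB Φ hΦ
  exact XX_form hα c hh hB Φ hΦ

end Pool.Agent.Helper79_WRA.H33
end
end -- Pool.Agent.Helper33_WRA.Ext

section -- Pool.Agent.Helper44_WRA.Schur

/-!
WRA, module CLIFF, part 1: Schur's lemma for matrix representations known through the norms of
their characters, orthogonality of matrix coefficients, completeness.
-/

open scoped BigOperators
open Module

noncomputable section

namespace Pool.Agent.Helper79_WRA.H44

open Pool.Agent.Helper51_AWC

section schur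

variable {Y : Type} [Group Y] {n m : ℕ}

/-- the representation of a matrix representation -/
def rep (P : Y →* Matrix (Fin n) (Fin n) ℂ) : Representation ℂ Y (Fin n → ℂ) :=
  (Matrix.toLinAlgEquiv' :
    Matrix (Fin n) (Fin n) ℂ ≃ₐ[ℂ] _).toRingEquiv.toMulEquiv.toMonoidHom.comp P

theorem rep_apply (P : Y →* Matrix (Fin n) (Fin n) ℂ) (y : Y) :
    rep P y = Matrix.toLin' (P y) := rfl

theorem rep_char (P : Y →* Matrix (Fin n) (Fin n) ℂ) (y : Y) :
    (rep P).character y = (P y).trace := by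
  simp only [Representation.character]
  rw [LinearMap.trace_eq_matrix_trace ℂ (Pi.basisFun ℂ (Fin n))]
  congr 1
  show LinearMap.toMatrix (Pi.basisFun ℂ (Fin n)) (Pi.basisFun ℂ (Fin n))
    (Matrix.toLin' (P y)) = P y
  rw [LinearMap.toMatrix_eq_toMatrix', LinearMap.toMatrix'_toLin']

variable [Fintype Y]

/-- Schur's lemma, orthogonal characters -/
theorem schur_zero (P : Y →* Matrix (Fin n) (Fin n) ℂ) (Q : Y →* Matrix (Fin m) (Fin m) ℂ)
    (h : ∑ y, (P y).trace * (Q y⁻¹).trace = 0) (M : Matrix (Fin n) (Fin m) ℂ)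
    (hM : ∀ z, P z * M = M * Q z) : M = 0 := by
  have hc : (Nat.card Y : ℂ) ≠ 0 := by exact_mod_cast Nat.card_pos.ne'
  have hinv := invertibleOfNonzero hc
  have h1 := Representation.card_inv_mul_sum_char_mul_char_eq_finrank (rep Q) (rep P)
  simp_rw [rep_char] at h1
  rw [h, mul_zero] at h1
  have h2 : finrank ℂ (Representation.IntertwiningMap (rep Q) (rep P)) = 0 := by
    exact_mod_cast h1.symm
  have hfin : FiniteDimensional ℂ (Representation.IntertwiningMap (rep Q) (rep P)) :=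
    Module.Finite.equiv (Representation.invariantsEquivIntertwiningMap (rep Q) (rep P))
  have h3 := Module.finrank_zero_iff.1 h2
  let T : Representation.IntertwiningMap (rep Q) (rep P) := ⟨Matrix.toLin' M, by
    intro z
    rw [rep_apply, rep_apply, ← Matrix.toLin'_mul, ← Matrix.toLin'_mul, hM]⟩
  have h4 : T = 0 := Subsingleton.elim _ _
  have h5 := congrArg Representation.IntertwiningMap.toLinearMap h4
  exact (LinearEquiv.map_eq_zero_iff _).1 h5

/-- Schur's lemma, character of norm one -/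
theorem schur_one (P : Y →* Matrix (Fin n) (Fin n) ℂ)
    (h : ∑ y, (P y).trace * (P y⁻¹).trace = Fintype.card Y) (M : Matrix (Fin n) (Fin n) ℂ)
    (hM : ∀ z, P z * M = M * P z) : ∃ c : ℂ, M = c • (1 : Matrix (Fin n) (Fin n) ℂ) := by
  have hc : (Nat.card Y : ℂ) ≠ 0 := by exact_mod_cast Nat.card_pos.ne'
  have hinv := invertibleOfNonzero hc
  have h1 := Representation.card_inv_mul_sum_char_mul_char_eq_finrank (rep P) (rep P)
  simp_rw [rep_char] at h1
  rw [h, ← Nat.card_eq_fintype_card, inv_mul_cancel₀ hc] at h1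
  have h2 : finrank ℂ (Representation.IntertwiningMap (rep P) (rep P)) = 1 := by
    exact_mod_cast h1.symm
  let T : Representation.IntertwiningMap (rep P) (rep P) := ⟨Matrix.toLin' M, by
    intro z
    rw [rep_apply, ← Matrix.toLin'_mul, ← Matrix.toLin'_mul, hM]⟩
  let I : Representation.IntertwiningMap (rep P) (rep P) := Representation.IntertwiningMap.id _
  have hI : I ≠ 0 := by
    intro h0
    have h5 := congrArg Representation.IntertwiningMap.toLinearMap h0
    have h6 : ∀ x : Fin n → ℂ, x = 0 := fun x => LinearMap.congr_fun h5 x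
    have h7 : ∀ y, (P y).trace = 0 := by
      intro y
      rw [Matrix.trace]
      apply Finset.sum_eq_zero
      intro i _
      have := congrFun (h6 (fun _ => 1)) i
      exact absurd this one_ne_zero
    have h8 : (Fintype.card Y : ℂ) = 0 := by
      rw [← h]
      apply Finset.sum_eq_zero
      intro y _
      rw [h7, zero_mul]
    exact (by exact_mod_cast Fintype.card_ne_zero : (Fintype.card Y : ℂ) ≠ 0) h8
  obtain ⟨c, hc'⟩ := (finrank_eq_one_iff_of_nonzero' I hI).1 h2 T
  refine ⟨c, ?_⟩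
  have h5 := congrArg Representation.IntertwiningMap.toLinearMap hc'
  have h6 : Matrix.toLin' (c • (1 : Matrix (Fin n) (Fin n) ℂ)) = Matrix.toLin' M := by
    rw [map_smul, Matrix.toLin'_one]
    exact h5
  exact (Matrix.toLin'.injective h6).symm

/-- orthogonality of the matrix coefficients, different characters -/
theorem orth_zero (P : Y →* Matrix (Fin n) (Fin n) ℂ) (Q : Y →* Matrix (Fin m) (Fin m) ℂ)
    (h : ∑ y, (P y).trace * (Q y⁻¹).trace = 0) (B : Matrix (Fin n) (Fin m) ℂ) :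
    ∑ y, P y * B * Q y⁻¹ = 0 := by
  apply schur_zero P Q h
  intro z
  rw [Matrix.mul_sum, Matrix.sum_mul,
    ← Equiv.sum_comp (Equiv.mulLeft z) (fun y => P y * B * Q y⁻¹ * Q z)]
  apply Finset.sum_congr rfl
  intro y _
  rw [Equiv.coe_mulLeft, map_mul, mul_inv_rev, map_mul]
  simp only [Matrix.mul_assoc]
  rw [← map_mul, inv_mul_cancel, map_one, Matrix.mul_one]

/-- orthogonality of the matrix coefficients, norm one -/
theorem orth_one (P : Y →* Matrix (Fin n) (Fin n) ℂ)
    (h : ∑ y, (P y).trace * (P y⁻¹).trace = Fintype.card Y) (B : Matrix (Fin n) (Fin n) ℂ) :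
    (n : ℂ) ≠ 0 ∧
    ∑ y, P y * B * P y⁻¹ = ((Fintype.card Y : ℂ) * B.trace / n) •
      (1 : Matrix (Fin n) (Fin n) ℂ) := by
  have hn : (n : ℂ) ≠ 0 := by
    intro h0
    have hn0 : n = 0 := by exact_mod_cast h0
    subst hn0
    have h8 : (Fintype.card Y : ℂ) = 0 := by
      rw [← h]
      apply Finset.sum_eq_zero
      intro y _
      rw [Matrix.trace, Finset.univ_eq_empty, Finset.sum_empty, zero_mul]
    exact (by exact_mod_cast Fintype.card_ne_zero : (Fintype.card Y : ℂ) ≠ 0) h8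
  refine ⟨hn, ?_⟩
  obtain ⟨c, hc⟩ := schur_one P h (∑ y, P y * B * P y⁻¹) (by
    intro z
    rw [Matrix.mul_sum, Matrix.sum_mul,
      ← Equiv.sum_comp (Equiv.mulLeft z) (fun y => P y * B * P y⁻¹ * P z)]
    apply Finset.sum_congr rfl
    intro y _
    rw [Equiv.coe_mulLeft, map_mul, mul_inv_rev, map_mul]
    simp only [Matrix.mul_assoc]
    rw [← map_mul, inv_mul_cancel, map_one, Matrix.mul_one])
  rw [hc]
  congr 1
  have h1 := congrArg Matrix.trace hc
  rw [Matrix.trace_sum, Matrix.trace_smul, Matrix.trace_one, Fintype.card_fin] at h1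
  have h2 : ∀ y, (P y * B * P y⁻¹).trace = B.trace := by
    intro y
    rw [Matrix.trace_mul_comm, ← Matrix.mul_assoc, ← map_mul, inv_mul_cancel, map_one,
      Matrix.one_mul]
  simp_rw [h2] at h1
  rw [Finset.sum_const, Finset.card_univ, nsmul_eq_mul] at h1
  rw [h1, smul_eq_mul, mul_div_assoc, div_self hn, mul_one]

/-- orthogonality in trace form, different characters -/
theorem tr_orth_zero (P : Y →* Matrix (Fin n) (Fin n) ℂ) (Q : Y →* Matrix (Fin m) (Fin m) ℂ)
    (h : ∑ y, (P y).trace * (Q y⁻¹).trace = 0) (A : Matrix (Fin n) (Fin n) ℂ)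
    (B : Matrix (Fin m) (Fin m) ℂ) :
    ∑ y, (P y * A).trace * (B * Q y⁻¹).trace = 0 := by
  classical
  have h1 : ∀ i j k l, ∑ y, P y i j * Q y⁻¹ k l = 0 := by
    intro i j k l
    have := congrFun (congrFun (orth_zero P Q h (Matrix.single j k 1)) i) l
    rw [Matrix.sum_apply] at this
    rw [Matrix.zero_apply] at this
    rw [← this]
    apply Finset.sum_congr rfl
    intro y _
    rw [Matrix.mul_apply, Finset.sum_eq_single_of_mem k (Finset.mem_univ _)]
    · rw [Matrix.mul_single_apply_same, mul_one]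
    · intro b _ hb
      rw [Matrix.mul_single_apply_of_ne _ _ _ _ _ hb.symm.symm, zero_mul]
  have h2 : ∀ y, (P y * A).trace * (B * Q y⁻¹).trace =
      ∑ i, ∑ j, ∑ k, ∑ l, A j i * B l k * (P y i j * Q y⁻¹ k l) := by
    intro y
    simp only [Matrix.trace, Matrix.diag_apply, Matrix.mul_apply, Finset.sum_mul_sum]
    apply Finset.sum_congr rfl
    intro i _
    rw [Finset.sum_comm]
    apply Finset.sum_congr rfl
    intro j _
    rw [Finset.sum_comm]
    apply Finset.sum_congr rfl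
    intro k _
    apply Finset.sum_congr rfl
    intro l _
    ring
  simp_rw [h2]
  rw [Finset.sum_comm]
  apply Finset.sum_eq_zero
  intro i _
  rw [Finset.sum_comm]
  apply Finset.sum_eq_zero
  intro j _
  rw [Finset.sum_comm]
  apply Finset.sum_eq_zero
  intro k _
  rw [Finset.sum_comm]
  apply Finset.sum_eq_zero
  intro l _
  rw [← Finset.mul_sum, h1, mul_zero]

/-- orthogonality in trace form, norm one -/
theorem tr_orth_one (P : Y →* Matrix (Fin n) (Fin n) ℂ)
    (h : ∑ y, (P y).trace * (P y⁻¹).trace = Fintype.card Y) (A B : Matrix (Fin n) (Fin n) ℂ)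
    (hAB : A * B = 1) :
    ∑ y, (P y * A).trace * (B * P y⁻¹).trace = Fintype.card Y := by
  classical
  have hn := (orth_one P h 1).1
  have h1 : ∀ i j k l, ∑ y, P y i j * P y⁻¹ k l =
      (Fintype.card Y : ℂ) / n * (if j = k then 1 else 0) * (if i = l then 1 else 0) := by
    intro i j k l
    have := congrFun (congrFun (orth_one P h (Matrix.single j k 1)).2 i) l
    rw [Matrix.sum_apply] at this
    rw [Matrix.smul_apply, Matrix.one_apply] at this
    have e : (Matrix.single j k (1 : ℂ)).trace = if j = k then 1 else 0 := by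
      split_ifs with hjk
      · subst hjk; exact Matrix.trace_single_eq_same _ _
      · exact Matrix.trace_single_eq_of_ne _ _ _ hjk
    rw [e] at this
    have e2 : ∑ y, P y i j * P y⁻¹ k l = ∑ y, (P y * Matrix.single j k (1 : ℂ) * P y⁻¹ :
        Matrix (Fin n) (Fin n) ℂ) i l := by
      apply Finset.sum_congr rfl
      intro y _
      rw [Matrix.mul_apply, Finset.sum_eq_single_of_mem k (Finset.mem_univ _)]
      · rw [Matrix.mul_single_apply_same, mul_one]
      · intro b _ hb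
        rw [Matrix.mul_single_apply_of_ne _ _ _ _ _ hb.symm.symm, zero_mul]
    rw [e2, this, smul_eq_mul]
    ring
  have h2 : ∀ y, (P y * A).trace * (B * P y⁻¹).trace =
      ∑ i, ∑ j, ∑ k, ∑ l, A j i * B l k * (P y i j * P y⁻¹ k l) := by
    intro y
    simp only [Matrix.trace, Matrix.diag_apply, Matrix.mul_apply, Finset.sum_mul_sum]
    apply Finset.sum_congr rfl
    intro i _
    rw [Finset.sum_comm]
    apply Finset.sum_congr rfl
    intro j _
    rw [Finset.sum_comm]
    apply Finset.sum_congr rfl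
    intro k _
    apply Finset.sum_congr rfl
    intro l _
    ring
  have h3 : ∑ y, (P y * A).trace * (B * P y⁻¹).trace =
      ∑ i, ∑ j, ∑ k, ∑ l, A j i * B l k * ∑ y, (P y i j * P y⁻¹ k l) := by
    simp_rw [h2]
    rw [Finset.sum_comm]
    apply Finset.sum_congr rfl
    intro i _
    rw [Finset.sum_comm]
    apply Finset.sum_congr rfl
    intro j _
    rw [Finset.sum_comm]
    apply Finset.sum_congr rfl
    intro k _
    rw [Finset.sum_comm]
    apply Finset.sum_congr rfl
    intro l _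
    rw [← Finset.mul_sum]
  rw [h3]
  simp_rw [h1]
  have h4 : ∀ i j : Fin n, ∑ k, ∑ l, A j i * B l k * ((Fintype.card Y : ℂ) / n *
      (if j = k then 1 else 0) * (if i = l then 1 else 0)) =
      (Fintype.card Y : ℂ) / n * (A j i * B i j) := by
    intro i j
    rw [Finset.sum_eq_single_of_mem j (Finset.mem_univ _)]
    · rw [Finset.sum_eq_single_of_mem i (Finset.mem_univ _)]
      · rw [if_pos rfl, if_pos rfl]; ring
      · intro l _ hl
        rw [if_neg hl.symm, mul_zero, mul_zero]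
    · intro k _ hk
      apply Finset.sum_eq_zero
      intro l _
      rw [if_neg hk.symm, mul_zero, zero_mul, mul_zero]
  simp_rw [h4, ← Finset.mul_sum]
  have h5 : ∑ i, ∑ j, A j i * B i j = (A * B).trace := by
    rw [Finset.sum_comm]
    simp only [Matrix.trace, Matrix.diag_apply, Matrix.mul_apply]
  rw [h5, hAB, Matrix.trace_one, Fintype.card_fin, div_mul_cancel₀ _ hn]

/-- completeness: a function all of whose translates are orthogonal to all irreducible characters
vanishes -/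
theorem complete_translates (F : Y → ℂ)
    (h : ∀ χ ∈ Irr Y, ∀ x, ∑ y, F y * χ (y⁻¹ * x) = 0) : F = 0 := by
  funext x
  have hH : (fun y => ∑ u : Y, F (x * (u * y * u⁻¹))) = 0 := by
    apply irr_complete'
    · intro g k
      rw [← Equiv.sum_comp (Equiv.mulRight k) (fun u : Y => F (x * (u * g * u⁻¹)))]
      apply Finset.sum_congr rfl
      intro u _
      rw [Equiv.coe_mulRight]
      congr 2
      group
    · intro χ hχ
      simp_rw [Finset.sum_mul]
      rw [Finset.sum_comm]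
      apply Finset.sum_eq_zero
      intro u _
      rw [← h χ hχ x]
      apply Fintype.sum_equiv ((MulAut.conj u).toEquiv.trans (Equiv.mulLeft x))
      intro y
      show F (x * (u * y * u⁻¹)) * χ y⁻¹ = F (x * (u * y * u⁻¹)) * χ ((x * (u * y * u⁻¹))⁻¹ * x)
      congr 1
      rw [← irr_conj hχ y⁻¹ u]
      congr 1
      group
  have h2 := congrFun hH 1
  simp only [mul_one, mul_inv_cancel, Finset.sum_const, Finset.card_univ, nsmul_eq_mul,
    Pi.zero_apply] at h2
  rcases mul_eq_zero.1 h2 with h3 | h3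
  · exact absurd h3 (by exact_mod_cast Fintype.card_ne_zero)
  · exact h3

end schur

end Pool.Agent.Helper79_WRA.H44
end
end -- Pool.Agent.Helper44_WRA.Schur

section -- Pool.Agent.Helper44_WRA.Coset

/-!
WRA, module CLIFF, part 2: matrices on subgroups, orthogonality and completeness on cosets.
-/

open scoped BigOperators
open Module

noncomputable section

namespace Pool.Agent.Helper79_WRA.H44

open Pool.Agent.Helper51_AWC

variable {Λ : Type} [Group Λ]

/-- a system of matrices on a subgroup whose traces are the values of `E` -/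
structure MR (S : Subgroup Λ) (E : Λ → ℂ) where
  /-- the degree -/
  n : ℕ
  /-- the matrices -/
  R : Λ → Matrix (Fin n) (Fin n) ℂ
  one : R 1 = 1
  mul : ∀ s ∈ S, ∀ t ∈ S, R (s * t) = R s * R t
  tr : ∀ s ∈ S, (R s).trace = E s

theorem exists_MR {S : Subgroup Λ} {E : Λ → ℂ} (h : E ∈ IrrS S) : Nonempty (MR S E) := by
  classical
  obtain ⟨n, R, hR⟩ := irr_matrix h.2
  refine ⟨⟨n, fun g => if hg : g ∈ S then R ⟨g, hg⟩ else 0, ?_, ?_, ?_⟩⟩
  · rw [dif_pos S.one_mem]
    exact map_one R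
  · intro s hs t ht
    rw [dif_pos hs, dif_pos ht, dif_pos (S.mul_mem hs ht), ← map_mul]
    rfl
  · intro s hs
    simp only [dif_pos hs]
    exact hR ⟨s, hs⟩

/-- restriction to a smaller subgroup -/
def MR.res {S Y : Subgroup Λ} {E : Λ → ℂ} (r : MR S E) (h : Y ≤ S) :
    Y →* Matrix (Fin r.n) (Fin r.n) ℂ where
  toFun y := r.R y
  map_one' := r.one
  map_mul' x y := r.mul _ (h x.2) _ (h y.2)

theorem MR.res_apply {S Y : Subgroup Λ} {E : Λ → ℂ} (r : MR S E) (h : Y ≤ S) (y : Y) :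
    r.res h y = r.R y := rfl

theorem MR.res_trace {S Y : Subgroup Λ} {E : Λ → ℂ} (r : MR S E) (h : Y ≤ S) (y : Y) :
    (r.res h y).trace = E y := r.tr _ (h y.2)

section

variable {S S' Y : Subgroup Λ} [Fintype Y] {E E' : Λ → ℂ}

theorem coset_zero (r : MR S E) (r' : MR S' E') (h : Y ≤ S) (h' : Y ≤ S')
    (h0 : ∑ y : Y, E y * E' (y : Λ)⁻¹ = 0) {t : Λ} (ht : t ∈ S) (ht' : t ∈ S') :
    ∑ y : Y, E (y * t) * E' (y * t)⁻¹ = 0 := by
  have h1 := tr_orth_zero (r.res h) (r'.res h') (by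
    simp_rw [MR.res_trace]
    exact h0) (r.R t) (r'.R t⁻¹)
  rw [← h1]
  apply Finset.sum_congr rfl
  intro y _
  rw [MR.res_apply, MR.res_apply, ← r.mul _ (h y.2) _ ht, r.tr _ (S.mul_mem (h y.2) ht),
    ← r'.mul _ (S'.inv_mem ht') _ (h' (y⁻¹).2), r'.tr _ (S'.mul_mem (S'.inv_mem ht') (h' (y⁻¹).2))]
  congr 2
  rw [mul_inv_rev]; rfl

theorem coset_one (r : MR S E) (h : Y ≤ S)
    (h0 : ∑ y : Y, E y * E (y : Λ)⁻¹ = Fintype.card Y) {t : Λ} (ht : t ∈ S) :
    ∑ y : Y, E (y * t) * E (y * t)⁻¹ = Fintype.card Y := by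
  have h1 := tr_orth_one (r.res h) (by
    simp_rw [MR.res_trace]
    exact h0) (r.R t) (r.R t⁻¹) (by
    rw [← r.mul _ ht _ (S.inv_mem ht), mul_inv_cancel, r.one])
  rw [← h1]
  apply Finset.sum_congr rfl
  intro y _
  rw [MR.res_apply, MR.res_apply, ← r.mul _ (h y.2) _ ht, r.tr _ (S.mul_mem (h y.2) ht),
    ← r.mul _ (S.inv_mem ht) _ (h (y⁻¹).2), r.tr _ (S.mul_mem (S.inv_mem ht) (h (y⁻¹).2))]
  congr 2
  rw [mul_inv_rev]; rfl

theorem coset_kill (hY : Y.Normal) (r : MR S E) (h : Y ≤ S)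
    (h1 : ∑ y : Y, E y * E (y : Λ)⁻¹ = Fintype.card Y)
    (hS : ∀ w, w ∉ S → ∑ y : Y, E (w * y * w⁻¹) * E (y : Λ)⁻¹ = 0)
    (F : Λ → ℂ) (hF : ∀ z ∈ Y, ∀ g, F (z * g * z⁻¹) = F g) (t : Λ)
    (h0 : t ∈ S → ∑ y : Y, F (y * t) * E (y * t)⁻¹ = 0) (x : Y) :
    ∑ y : Y, F (y * t) * E ((y : Λ)⁻¹ * x) = 0 := by
  classical
  set M : Matrix (Fin r.n) (Fin r.n) ℂ := ∑ y : Y, F (y * t) • r.R (y : Λ)⁻¹ with hM
  have hcn : ∀ (z : Y) (u : Λ), u * z * u⁻¹ ∈ Y := fun z u => hY.conj_mem _ z.2 u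
  have key : ∀ z : Y, r.R (t * z * t⁻¹) * M = M * r.R z := by
    intro z
    let c : Y := ⟨t * (z : Λ)⁻¹ * t⁻¹, hcn z⁻¹ t⟩
    rw [hM, Matrix.mul_sum, Matrix.sum_mul,
      ← Equiv.sum_comp ((Equiv.mulLeft z).trans (Equiv.mulRight c))
        (fun y : Y => F (y * t) • r.R (y : Λ)⁻¹ * r.R z)]
    apply Finset.sum_congr rfl
    intro y _
    have e1 : (((Equiv.mulLeft z).trans (Equiv.mulRight c)) y : Y) = z * y * c := rfl
    rw [e1]
    have e2 : ((z * y * c : Y) : Λ) * t = z * (y * t) * (z : Λ)⁻¹ := by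
      show (z : Λ) * y * (t * (z : Λ)⁻¹ * t⁻¹) * t = _
      group
    rw [e2, hF _ z.2, Matrix.mul_smul, Matrix.smul_mul]
    congr 1
    have e3 : ((z * y * c : Y) : Λ)⁻¹ = (t * z * t⁻¹) * ((y : Λ)⁻¹ * (z : Λ)⁻¹) := by
      show ((z : Λ) * y * (t * (z : Λ)⁻¹ * t⁻¹))⁻¹ = _
      group
    have m1 : (y : Λ)⁻¹ ∈ Y := (y⁻¹).2
    have m2 : (z : Λ)⁻¹ ∈ Y := (z⁻¹).2
    rw [e3, ← r.mul _ (h (hcn z t)) _ (h m1)]
    rw [← r.mul _ (h (Y.mul_mem (hcn z t) (Y.mul_mem m1 m2))) _ (h z.2)]
    congr 1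
    show t * z * t⁻¹ * (y : Λ)⁻¹ = _
    group
  have hM0 : M = 0 := by
    by_cases ht : t ∈ S
    · obtain ⟨hn, -⟩ := orth_one (r.res h) (by
        simp_rw [MR.res_trace]
        exact h1) 1
      obtain ⟨c, hc⟩ := schur_one (r.res h) (by
        simp_rw [MR.res_trace]
        exact h1) (r.R t⁻¹ * M) (by
        intro z
        rw [MR.res_apply, Matrix.mul_assoc, ← key z, ← Matrix.mul_assoc, ← Matrix.mul_assoc,
          ← r.mul _ (h z.2) _ (S.inv_mem ht), ← r.mul _ (S.inv_mem ht) _ (h (hcn z t))]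
        congr 2
        group)
      have h2 := congrArg Matrix.trace hc
      rw [hM, Matrix.mul_sum, Matrix.trace_sum, Matrix.trace_smul, Matrix.trace_one,
        Fintype.card_fin] at h2
      have h3 : ∑ y : Y, (r.R t⁻¹ * F (y * t) • r.R (y : Λ)⁻¹).trace = 0 := by
        rw [← h0 ht]
        apply Finset.sum_congr rfl
        intro y _
        have m1 : (y : Λ)⁻¹ ∈ Y := (y⁻¹).2
        rw [Matrix.mul_smul, Matrix.trace_smul, ← r.mul _ (S.inv_mem ht) _ (h m1),
          r.tr _ (S.mul_mem (S.inv_mem ht) (h m1)), smul_eq_mul, mul_inv_rev]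
      rw [h3, smul_eq_mul] at h2
      have hc0 : c = 0 := by
        rcases mul_eq_zero.1 h2.symm with h4 | h4
        · exact h4
        · exact absurd h4 hn
      rw [hc0, zero_smul] at hc
      have h5 : r.R t * (r.R t⁻¹ * M) = M := by
        rw [← Matrix.mul_assoc, ← r.mul _ ht _ (S.inv_mem ht), mul_inv_cancel, r.one,
          Matrix.one_mul]
      rw [← h5, hc, Matrix.mul_zero]
    · let P : Y →* Matrix (Fin r.n) (Fin r.n) ℂ :=
        { toFun := fun z => r.R (t * z * t⁻¹)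
          map_one' := by
            rw [OneMemClass.coe_one, mul_one, mul_inv_cancel]; exact r.one
          map_mul' := by
            intro z z'
            rw [← r.mul _ (h (hcn z t)) _ (h (hcn z' t))]
            congr 1
            rw [MulMemClass.coe_mul]
            group }
      apply schur_zero P (r.res h) ?_ M
      · intro z
        exact key z
      · rw [← hS t ht]
        apply Finset.sum_congr rfl
        intro y _
        rw [MR.res_trace]
        congr 1
        exact r.tr _ (h (hcn y t))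
  have h2 : (M * r.R x).trace = 0 := by rw [hM0, Matrix.zero_mul, Matrix.trace_zero]
  rw [hM, Matrix.sum_mul, Matrix.trace_sum] at h2
  rw [← h2]
  apply Finset.sum_congr rfl
  intro y _
  have m1 : (y : Λ)⁻¹ ∈ Y := (y⁻¹).2
  rw [Matrix.smul_mul, Matrix.trace_smul, ← r.mul _ (h m1) _ (h x.2),
    r.tr _ (S.mul_mem (h m1) (h x.2)), smul_eq_mul]

end

section sums

variable {K : Type} [Group K] (π : Λ →* K) [Fintype Λ] [Fintype K] [Fintype π.ker]
  [DecidableEq K]

omit [Fintype K] in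
theorem fiber_sum (h : Λ → ℂ) (t : Λ) :
    ∑ g, (if π g = π t then h g else 0) = ∑ y : π.ker, h (y * t) := by
  rw [← Finset.sum_filter]
  symm
  apply Finset.sum_bij (fun (y : π.ker) _ => (y : Λ) * t)
  · intro y _
    rw [Finset.mem_filter, map_mul, MonoidHom.mem_ker.1 y.2, one_mul]
    exact ⟨Finset.mem_univ _, rfl⟩
  · intro y _ z _ hyz
    exact Subtype.ext (mul_right_cancel hyz)
  · intro g hg
    rw [Finset.mem_filter] at hg
    refine ⟨⟨g * t⁻¹, ?_⟩, Finset.mem_univ _, ?_⟩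
    · rw [MonoidHom.mem_ker, map_mul, map_inv, hg.2, mul_inv_cancel]
    · show g * t⁻¹ * t = g
      group
  · intro y _; rfl

omit [Fintype π.ker] in
theorem sum_fib (h : Λ → ℂ) : ∑ g, h g = ∑ κ : K, ∑ g, (if π g = κ then h g else 0) := by
  rw [Finset.sum_comm]
  apply Finset.sum_congr rfl
  intro g _
  rw [Finset.sum_ite_eq, if_pos (Finset.mem_univ _)]

theorem fib (c : K → ℂ) (hc : ∀ κ, κ ∉ π.range → c κ = 0) :
    ∑ g, c (π g) = (Fintype.card π.ker : ℂ) * ∑ κ, c κ := by
  rw [sum_fib π, Finset.mul_sum]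
  apply Finset.sum_congr rfl
  intro κ _
  by_cases hκ : κ ∈ π.range
  · obtain ⟨t, rfl⟩ := hκ
    rw [fiber_sum π (fun g => c (π g)) t]
    have : ∀ y : π.ker, c (π (y * t)) = c (π t) := by
      intro y
      rw [map_mul, MonoidHom.mem_ker.1 y.2, one_mul]
    simp_rw [this]
    rw [Finset.sum_const, Finset.card_univ, nsmul_eq_mul]
  · rw [hc κ hκ, mul_zero]
    apply Finset.sum_eq_zero
    intro g _
    rw [if_neg]
    rintro rfl
    exact hκ ⟨g, rfl⟩

omit [Fintype K] [DecidableEq K] in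
/-- averaging over the cosets of the kernel -/
theorem avg (F : Λ → ℂ) :
    (Fintype.card π.ker : ℂ) * ∑ g, F g = ∑ g, ∑ y : π.ker, F (y * g) := by
  rw [Finset.sum_comm]
  have : ∀ y : π.ker, ∑ g, F (y * g) = ∑ g, F g := fun y => Equiv.sum_comp (Equiv.mulLeft (y : Λ)) F
  simp_rw [this]
  rw [Finset.sum_const, Finset.card_univ, nsmul_eq_mul]

end sums

/-- a class function with natural multiplicities and norm one is an irreducible character -/
theorem mem_Irr_of_mult {G : Type} [Group G] [Fintype G] {f : G → ℂ}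
    (hf : ∀ g h, f (h * g * h⁻¹) = f g)
    (hm : ∀ χ ∈ Irr G, ∃ m : ℕ, ∑ g, f g * χ g⁻¹ = m * Fintype.card G)
    (h : ∑ g, f g * f g⁻¹ = Fintype.card G) : f ∈ Irr G := by
  classical
  have hc' : (Fintype.card G : ℂ) ≠ 0 := by exact_mod_cast Fintype.card_ne_zero
  have := Fintype.ofFinite (Irr G)
  have hm' : ∀ χ : Irr G, ∃ m : ℕ, ∑ g, f g * (χ : G → ℂ) g⁻¹ = m * Fintype.card G :=
    fun χ => hm χ χ.2
  choose m hm using hm'
  have hdec : f = ∑ χ : Irr G, (m χ : ℂ) • (χ : G → ℂ) := by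
    have : f - ∑ χ : Irr G, (m χ : ℂ) • (χ : G → ℂ) = 0 := by
      apply irr_complete'
      · intro g h
        simp only [Pi.sub_apply, Finset.sum_apply, Pi.smul_apply, hf]
        congr 1
        apply Finset.sum_congr rfl
        intro χ _
        rw [irr_conj χ.2]
      · intro ψ hψ
        simp only [Pi.sub_apply, Finset.sum_apply, Pi.smul_apply, smul_eq_mul, sub_mul,
          Finset.sum_sub_distrib, Finset.sum_mul]
        rw [hm ⟨ψ, hψ⟩, Finset.sum_comm, Finset.sum_eq_single_of_mem ⟨ψ, hψ⟩ (Finset.mem_univ _)]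
        · simp_rw [mul_assoc]
          rw [← Finset.mul_sum, irr_orth_self hψ, sub_self]
        · intro χ _ hne
          simp_rw [mul_assoc]
          rw [← Finset.mul_sum, irr_orth_ne χ.2 hψ (fun h => hne (Subtype.ext h)), mul_zero]
    exact sub_eq_zero.1 this
  have hnorm : (∑ χ : Irr G, (m χ) ^ 2) = 1 := by
    have h2 : ∑ g, f g * f g⁻¹ =
        ((∑ χ : Irr G, (m χ) ^ 2 : ℕ) : ℂ) * Fintype.card G := by
      have : ∀ g, f g * f g⁻¹ =
          ∑ χ : Irr G, (m χ : ℂ) * (f g * (χ : G → ℂ) g⁻¹) := by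
        intro g
        conv_lhs => rw [show f g⁻¹ = ∑ χ : Irr G, (m χ : ℂ) * (χ : G → ℂ) g⁻¹ by
          conv_lhs => rw [hdec]
          simp]
        rw [Finset.mul_sum]
        apply Finset.sum_congr rfl
        intro χ _; ring
      simp_rw [this]
      rw [Finset.sum_comm]
      simp_rw [← Finset.mul_sum, hm]
      push_cast
      rw [Finset.sum_mul]
      apply Finset.sum_congr rfl
      intro χ _; ring
    rw [h2] at h
    have h3 : ((∑ χ : Irr G, (m χ) ^ 2 : ℕ) : ℂ) = 1 :=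
      mul_right_cancel₀ hc' (by rw [h, one_mul])
    exact_mod_cast h3
  obtain ⟨χ, hχ⟩ : ∃ χ : Irr G, m χ ≠ 0 := by
    by_contra hcon
    push Not at hcon
    simp [hcon] at hnorm
  have h1 : m χ ^ 2 ≤ 1 := by
    rw [← hnorm]
    exact Finset.single_le_sum (f := fun χ => m χ ^ 2) (fun _ _ => Nat.zero_le _)
      (Finset.mem_univ χ)
  have h1' : m χ = 1 := by
    have : m χ ≤ 1 := by nlinarith
    omega
  have h2 : ∀ ψ : Irr G, ψ ≠ χ → m ψ = 0 := by
    intro ψ hne
    by_contra hψ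
    have h3 : m χ ^ 2 + m ψ ^ 2 ≤ 1 := by
      rw [← hnorm]
      calc m χ ^ 2 + m ψ ^ 2 = ∑ x ∈ {χ, ψ}, m x ^ 2 := by
            rw [Finset.sum_pair (Ne.symm hne)]
        _ ≤ _ := Finset.sum_le_sum_of_subset (Finset.subset_univ _)
    have : 0 < m ψ := Nat.pos_of_ne_zero hψ
    nlinarith
  have h3 : f = χ := by
    rw [hdec, Finset.sum_eq_single_of_mem χ (Finset.mem_univ _)]
    · rw [h1']; simp
    · intro ψ _ hne
      rw [h2 ψ hne]; simp
  rw [h3]; exact χ.2

/-- Parseval for a class function -/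
theorem parseval {G : Type} [Group G] [Fintype G] [Fintype (Irr G)] {f : G → ℂ}
    (hf : ∀ g h, f (h * g * h⁻¹) = f g) :
    (Fintype.card G : ℂ) * ∑ g, f g * f g⁻¹ = ∑ χ : Irr G, (∑ g, f g * (χ : G → ℂ) g⁻¹) ^ 2 := by
  classical
  have hc' : (Fintype.card G : ℂ) ≠ 0 := by exact_mod_cast Fintype.card_ne_zero
  set m : Irr G → ℂ := fun χ => (∑ g, f g * (χ : G → ℂ) g⁻¹) / Fintype.card G with hm'
  have hm : ∀ χ : Irr G, ∑ g, f g * (χ : G → ℂ) g⁻¹ = m χ * Fintype.card G := by
    intro χ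
    rw [hm']
    field_simp
  have hdec : f = ∑ χ : Irr G, (m χ : ℂ) • (χ : G → ℂ) := by
    have : f - ∑ χ : Irr G, (m χ : ℂ) • (χ : G → ℂ) = 0 := by
      apply irr_complete'
      · intro g h
        simp only [Pi.sub_apply, Finset.sum_apply, Pi.smul_apply, hf]
        congr 1
        apply Finset.sum_congr rfl
        intro χ _
        rw [irr_conj χ.2]
      · intro ψ hψ
        simp only [Pi.sub_apply, Finset.sum_apply, Pi.smul_apply, smul_eq_mul, sub_mul,
          Finset.sum_sub_distrib, Finset.sum_mul]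
        rw [hm ⟨ψ, hψ⟩, Finset.sum_comm, Finset.sum_eq_single_of_mem ⟨ψ, hψ⟩ (Finset.mem_univ _)]
        · simp_rw [mul_assoc]
          rw [← Finset.mul_sum, irr_orth_self hψ, sub_self]
        · intro χ _ hne
          simp_rw [mul_assoc]
          rw [← Finset.mul_sum, irr_orth_ne χ.2 hψ (fun h => hne (Subtype.ext h)), mul_zero]
    exact sub_eq_zero.1 this
  have h1 : ∀ g, f g * f g⁻¹ = ∑ χ : Irr G, (m χ : ℂ) * (f g * (χ : G → ℂ) g⁻¹) := by
    intro g
    conv_lhs => rw [show f g⁻¹ = ∑ χ : Irr G, (m χ : ℂ) * (χ : G → ℂ) g⁻¹ by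
      conv_lhs => rw [hdec]
      simp]
    rw [Finset.mul_sum]
    apply Finset.sum_congr rfl
    intro χ _; ring
  simp_rw [h1]
  rw [Finset.sum_comm]
  simp_rw [← Finset.mul_sum, hm]
  rw [Finset.mul_sum]
  apply Finset.sum_congr rfl
  intro χ _
  ring

end Pool.Agent.Helper79_WRA.H44
end
end -- Pool.Agent.Helper44_WRA.Coset

section -- Pool.Agent.Helper44_WRA.Cliff

/-!
WRA, module CLIFF, part 3: the counting formula.
-/

open scoped BigOperators
open Module

noncomputable section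

namespace Pool.Agent.Helper79_WRA.H44

open Pool.Agent.Helper51_AWC

/-! ### induction -/

section ind

variable {Λ : Type} [Group Λ] [Fintype Λ]

theorem ind_apply (T : Subgroup Λ) (η : Λ → ℂ) (g : Λ) :
    ind T η g = (∑ x : Λ, η (x * g * x⁻¹)) / (Nat.card T : ℂ) := by
  unfold ind
  rw [finsum_eq_sum_of_fintype]

theorem ind_class (T : Subgroup Λ) (η : Λ → ℂ) (g k : Λ) :
    ind T η (k * g * k⁻¹) = ind T η g := by
  rw [ind_apply, ind_apply]
  congr 1
  rw [← Equiv.sum_comp (Equiv.mulRight k) (fun x => η (x * g * x⁻¹))]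
  apply Finset.sum_congr rfl
  intro x _
  rw [Equiv.coe_mulRight]
  congr 1
  group

theorem ind_inner (T : Subgroup Λ) (η f : Λ → ℂ) (hf : ∀ g k, f (k * g * k⁻¹) = f g) :
    (Nat.card T : ℂ) * ∑ g, ind T η g * f g⁻¹ = (Fintype.card Λ : ℂ) * ∑ g, η g * f g⁻¹ := by
  have hT : (Nat.card T : ℂ) ≠ 0 := by exact_mod_cast Nat.card_pos.ne'
  have h1 : ∀ g, (Nat.card T : ℂ) * (ind T η g * f g⁻¹) = ∑ x, η (x * g * x⁻¹) * f g⁻¹ := by
    intro g
    rw [ind_apply, ← Finset.sum_mul]
    field_simp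
  rw [Finset.mul_sum]
  simp_rw [h1]
  rw [Finset.sum_comm]
  have h2 : ∀ x, ∑ g, η (x * g * x⁻¹) * f g⁻¹ = ∑ g, η g * f g⁻¹ := by
    intro x
    apply Fintype.sum_equiv (MulAut.conj x).toEquiv
    intro g
    show η (x * g * x⁻¹) * f g⁻¹ = η (x * g * x⁻¹) * f (x * g * x⁻¹)⁻¹
    congr 1
    rw [← hf g⁻¹ x]
    congr 1
    group
  simp_rw [h2]
  rw [Finset.sum_const, Finset.card_univ, nsmul_eq_mul]

end ind

section main

variable {Λ K A : Type} [Group Λ] [Fintype Λ] [Group K] [Fintype K] [Fintype A] [DecidableEq K]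
  (π : Λ →* K) [Fintype π.ker] (ν X : A → Λ → ℂ) (T : A → Subgroup Λ)

/-- the standing hypotheses -/
structure Hyp : Prop where
  h1 : ∀ a, ν a ∈ IrrS π.ker
  h2 : Function.Injective ν
  h3 : ∀ η ∈ IrrS π.ker, ∃ a, ν a = η
  h4 : ∀ a t, t ∈ T a ↔ ∀ y, ν a (t * y * t⁻¹) = ν a y
  h5 : ∀ a, X a ∈ IrrS (T a)
  h6 : ∀ a, ∀ y ∈ π.ker, X a y = ν a y

variable {π ν X T}

namespace Hyp

variable (H : Hyp π ν X T)
include H

omit [Fintype Λ] [Fintype K] [Fintype A] [DecidableEq K] [Fintype π.ker] in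
theorem ker_le (a : A) : π.ker ≤ T a := by
  intro t ht
  rw [H.h4]
  intro y
  by_cases hy : y ∈ π.ker
  · exact irr_conj (H.h1 a).2 ⟨y, hy⟩ ⟨t, ht⟩
  · rw [(H.h1 a).1 y hy, (H.h1 a).1]
    intro h
    apply hy
    have := π.normal_ker.conj_mem _ h t⁻¹
    have e : t⁻¹ * (t * y * t⁻¹) * t⁻¹⁻¹ = y := by group
    rwa [e] at this

omit [Fintype Λ] [Fintype K] [Fintype A] [DecidableEq K] [Fintype π.ker] in
theorem X_conj (a : A) {s : Λ} (hs : s ∈ T a) (g : Λ) : X a (s * g * s⁻¹) = X a g := by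
  by_cases hg : g ∈ T a
  · exact irr_conj (H.h5 a).2 ⟨g, hg⟩ ⟨s, hs⟩
  · rw [(H.h5 a).1 g hg, (H.h5 a).1]
    intro h
    apply hg
    have := (T a).mul_mem ((T a).mul_mem ((T a).inv_mem hs) h) hs
    have e : s⁻¹ * (s * g * s⁻¹) * s = g := by group
    rwa [e] at this

omit [Fintype Λ] [Fintype K] [Fintype A] [DecidableEq K] in
theorem norm_one (a : A) :
    ∑ y : π.ker, X a y * X a (y : Λ)⁻¹ = Fintype.card π.ker := by
  rw [← irr_orth_self (H.h1 a).2]
  apply Finset.sum_congr rfl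
  intro y _
  rw [H.h6 a _ y.2, H.h6 a _ (π.ker.inv_mem y.2)]
  rfl

omit [Fintype Λ] [Fintype K] [Fintype A] [DecidableEq K] in
theorem norm_zero {a b : A} (hab : a ≠ b) :
    ∑ y : π.ker, X a y * X b (y : Λ)⁻¹ = 0 := by
  rw [← irr_orth_ne (H.h1 a).2 (H.h1 b).2 (by
    intro h
    apply hab
    apply H.h2
    exact IrrS_ext (H.h1 a) (H.h1 b) (fun x => congrFun h x))]
  apply Finset.sum_congr rfl
  intro y _
  rw [H.h6 a _ y.2, H.h6 b _ (π.ker.inv_mem y.2)]
  rfl

omit [Fintype Λ] [Fintype K] [Fintype A] [DecidableEq K] [Fintype π.ker] in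
theorem nu_conj (a : A) (w : Λ) : (fun y : π.ker => ν a (w * y * w⁻¹)) ∈ Irr π.ker := by
  have := irr_comp_equiv (MulAut.conjNormal w : π.ker ≃* π.ker) (H.h1 a).2
  convert this using 2
  rw [MulAut.conjNormal_apply]

omit [Fintype Λ] [Fintype K] [Fintype A] [DecidableEq K] in
theorem norm_conj (a : A) {w : Λ} (hw : w ∉ T a) :
    ∑ y : π.ker, X a (w * y * w⁻¹) * X a (y : Λ)⁻¹ = 0 := by
  rw [← irr_orth_ne (H.nu_conj a w) (H.h1 a).2 (by
    intro h
    apply hw
    rw [H.h4]
    intro y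
    by_cases hy : y ∈ π.ker
    · exact congrFun h ⟨y, hy⟩
    · rw [(H.h1 a).1 y hy, (H.h1 a).1]
      intro h
      apply hy
      have := π.normal_ker.conj_mem _ h w⁻¹
      have e : w⁻¹ * (w * y * w⁻¹) * w⁻¹⁻¹ = y := by group
      rwa [e] at this)]
  apply Finset.sum_congr rfl
  intro y _
  rw [H.h6 a _ (π.normal_ker.conj_mem _ y.2 w), H.h6 a _ (π.ker.inv_mem y.2)]
  rfl

omit [Fintype Λ] [Fintype K] [Fintype A] [DecidableEq K] [Fintype π.ker] in
theorem X_off (a : A) {t : Λ} (ht : t ∉ T a) (y : π.ker) : X a (y * t) = 0 := by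
  apply (H.h5 a).1
  intro h
  apply ht
  have := (T a).mul_mem ((T a).inv_mem (H.ker_le a y.2)) h
  rwa [inv_mul_cancel_left] at this

omit [Fintype Λ] [Fintype K] [Fintype A] [DecidableEq K] [Fintype π.ker] in
theorem X_off' (a : A) {t : Λ} (ht : t ∉ T a) (y : π.ker) : X a (y * t)⁻¹ = 0 := by
  apply (H.h5 a).1
  intro h
  apply ht
  have h' := (T a).inv_mem h
  rw [inv_inv] at h'
  have := (T a).mul_mem ((T a).inv_mem (H.ker_le a y.2)) h'
  rwa [inv_mul_cancel_left] at this

omit [Fintype Λ] [Fintype K] [Fintype A] [DecidableEq K] in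
/-- orthogonality on a coset -/
theorem coset_eq (a : A) (t : Λ) [Decidable (t ∈ T a)] :
    ∑ y : π.ker, X a (y * t) * X a (y * t)⁻¹ =
      if t ∈ T a then (Fintype.card π.ker : ℂ) else 0 := by
  split_ifs with ht
  · obtain ⟨r⟩ := exists_MR (H.h5 a)
    exact coset_one r (H.ker_le a) (H.norm_one a) ht
  · apply Finset.sum_eq_zero
    intro y _
    rw [H.X_off a ht, zero_mul]

omit [Fintype Λ] [Fintype K] [Fintype A] [DecidableEq K] in
theorem coset_ne {a b : A} (hab : a ≠ b) (t : Λ) :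
    ∑ y : π.ker, X a (y * t) * X b (y * t)⁻¹ = 0 := by
  by_cases ha : t ∈ T a
  · by_cases hb : t ∈ T b
    · obtain ⟨r⟩ := exists_MR (H.h5 a)
      obtain ⟨r'⟩ := exists_MR (H.h5 b)
      exact coset_zero r r' (H.ker_le a) (H.ker_le b) (H.norm_zero hab) ha hb
    · apply Finset.sum_eq_zero
      intro y _
      rw [H.X_off' b hb, mul_zero]
  · apply Finset.sum_eq_zero
    intro y _
    rw [H.X_off a ha, zero_mul]

omit [Fintype Λ] [Fintype K] [Fintype A] [DecidableEq K] in
theorem coset_conj (a : A) {w : Λ} (hw : w ∉ T a) (t : Λ) :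
    ∑ y : π.ker, X a (y * t) * X a (w * (y * t)⁻¹ * w⁻¹) = 0 := by
  by_cases ht : t ∈ T a
  · by_cases ht' : w * t * w⁻¹ ∈ T a
    · obtain ⟨r⟩ := exists_MR (H.h5 a)
      -- the conjugate system
      let S' : Subgroup Λ := (T a).comap (MulAut.conj w).toMonoidHom
      have hS' : ∀ s, s ∈ S' ↔ w * s * w⁻¹ ∈ T a := fun s => Iff.rfl
      let r' : MR S' (fun t => X a (w * t * w⁻¹)) :=
        { n := r.n
          R := fun t => r.R (w * t * w⁻¹)
          one := by
            rw [mul_one, mul_inv_cancel]; exact r.one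
          mul := by
            intro s hs t ht
            rw [← r.mul (w * s * w⁻¹) hs (w * t * w⁻¹) ht]
            congr 1
            group
          tr := fun s hs => r.tr _ hs }
      have hY' : π.ker ≤ S' := fun y hy => H.ker_le a (π.normal_ker.conj_mem _ hy w)
      have h0 : ∑ y : π.ker, (fun t => X a (w * t * w⁻¹)) (y : Λ) * X a (y : Λ)⁻¹ = 0 :=
        H.norm_conj a hw
      have h00 : ∑ y : π.ker, X a y * (fun t => X a (w * t * w⁻¹)) (y : Λ)⁻¹ = 0 := by
        rw [← h0, ← Equiv.sum_comp (Equiv.inv π.ker)]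
        apply Finset.sum_congr rfl
        intro y _
        simp only [Equiv.inv_apply, InvMemClass.coe_inv, inv_inv]
        ring
      exact coset_zero r r' (H.ker_le a) hY' h00 ht ht'
    · apply Finset.sum_eq_zero
      intro y _
      rw [(H.h5 a).1 (w * (y * t)⁻¹ * w⁻¹), mul_zero]
      intro h
      apply ht'
      have h2 := (T a).inv_mem h
      have m1 : w * (y : Λ) * w⁻¹ ∈ T a := H.ker_le a (π.normal_ker.conj_mem _ y.2 w)
      have := (T a).mul_mem ((T a).inv_mem m1) h2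
      have e : (w * (y : Λ) * w⁻¹)⁻¹ * (w * (y * t)⁻¹ * w⁻¹)⁻¹ = w * t * w⁻¹ := by group
      rwa [e] at this
  · apply Finset.sum_eq_zero
    intro y _
    rw [H.X_off a ht, zero_mul]

/-! ### the induced characters -/

omit [Fintype Λ] [Fintype K] [Fintype A] [DecidableEq K] [Fintype π.ker] H in
theorem lam_class {L : Subgroup K} {lam : K → ℂ} (hl : lam ∈ IrrS L) {s : K} (hs : s ∈ L)
    (k : K) : lam (s * k * s⁻¹) = lam k := by
  by_cases hk : k ∈ L
  · exact irr_conj hl.2 ⟨k, hk⟩ ⟨s, hs⟩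
  · rw [hl.1 k hk, hl.1]
    intro h
    apply hk
    have := L.mul_mem (L.mul_mem (L.inv_mem hs) h) hs
    have e : s⁻¹ * (s * k * s⁻¹) * s = k := by group
    rwa [e] at this

omit [Fintype Λ] [Fintype K] [Fintype A] [DecidableEq K] [Fintype π.ker] in
theorem mem_of_map {a : A} {t : Λ} (h : π t ∈ (T a).map π) : t ∈ T a := by
  obtain ⟨s, hs, hst⟩ := h
  have : t * s⁻¹ ∈ π.ker := by
    rw [MonoidHom.mem_ker, map_mul, map_inv, ← hst, mul_inv_cancel]
  have := (T a).mul_mem (H.ker_le a this) hs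
  rwa [inv_mul_cancel_right] at this

omit [Fintype A] [DecidableEq K] in
theorem card_T (a : A) : (Nat.card (T a) : ℂ) =
    (Fintype.card π.ker : ℂ) * (Nat.card ((T a).map π) : ℂ) := by
  classical
  have h := fib π (fun κ => if κ ∈ (T a).map π then (1 : ℂ) else 0) (by
    intro κ hκ
    rw [if_neg]
    rintro ⟨s, _, rfl⟩
    exact hκ ⟨s, rfl⟩)
  have e1 : ∑ g, (if π g ∈ (T a).map π then (1 : ℂ) else 0) = (Nat.card (T a) : ℂ) := by
    rw [Finset.sum_ite, Finset.sum_const_zero, add_zero, Finset.sum_const, nsmul_eq_mul, mul_one]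
    congr 1
    rw [Nat.card_eq_fintype_card, Fintype.card_subtype]
    congr 1
    ext t
    simp only [Finset.mem_filter, Finset.mem_univ, true_and]
    exact ⟨fun h => H.mem_of_map h, fun h => ⟨t, h, rfl⟩⟩
  have e2 : ∑ κ : K, (if κ ∈ (T a).map π then (1 : ℂ) else 0) =
      (Nat.card ((T a).map π) : ℂ) := by
    rw [Finset.sum_ite, Finset.sum_const_zero, add_zero, Finset.sum_const, nsmul_eq_mul, mul_one]
    congr 1
    rw [Nat.card_eq_fintype_card, Fintype.card_subtype]
  rw [← e1, h, e2]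

omit [Fintype A] in
/-- the norm of `X a * (lam ∘ π)`, twisted by conjugation -/
theorem J (a : A) {lam : K → ℂ} (hl : lam ∈ IrrS ((T a).map π)) (w : Λ)
    [Decidable (w ∈ T a)] :
    ∑ g, (X a g * lam (π g)) * (X a (w * g⁻¹ * w⁻¹) * lam (π (w * g⁻¹ * w⁻¹))) =
      if w ∈ T a then (Nat.card (T a) : ℂ) else 0 := by
  classical
  have hY : (Fintype.card π.ker : ℂ) ≠ 0 := by exact_mod_cast Fintype.card_ne_zero
  apply mul_left_cancel₀ hY
  rw [avg π]
  have h1 : ∀ g, ∑ y : π.ker, (X a (y * g) * lam (π (y * g))) *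
      (X a (w * (y * g)⁻¹ * w⁻¹) * lam (π (w * (y * g)⁻¹ * w⁻¹))) =
      lam (π g) * lam (π (w * g⁻¹ * w⁻¹)) *
        ∑ y : π.ker, X a (y * g) * X a (w * (y * g)⁻¹ * w⁻¹) := by
    intro g
    rw [Finset.mul_sum]
    apply Finset.sum_congr rfl
    intro y _
    have e1 : π (y * g) = π g := by rw [map_mul, MonoidHom.mem_ker.1 y.2, one_mul]
    have e2 : π (w * (y * g)⁻¹ * w⁻¹) = π (w * g⁻¹ * w⁻¹) := by
      rw [map_mul, map_mul, map_inv π (y * g), e1, map_mul, map_mul, map_inv π g]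
    rw [e1, e2]
    ring
  simp_rw [h1]
  split_ifs with hw
  · have h2 : ∀ g, lam (π g) * lam (π (w * g⁻¹ * w⁻¹)) *
        ∑ y : π.ker, X a (y * g) * X a (w * (y * g)⁻¹ * w⁻¹) =
        (Fintype.card π.ker : ℂ) * (lam (π g) * lam (π g)⁻¹) := by
      intro g
      simp_rw [H.X_conj a hw]
      rw [H.coset_eq a g]
      have e3 : lam (π (w * g⁻¹ * w⁻¹)) = lam (π g)⁻¹ := by
        rw [map_mul, map_mul, map_inv π w, map_inv π g]
        exact lam_class hl ⟨w, hw, rfl⟩ _
      rw [e3]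
      split_ifs with hg
      · ring
      · rw [hl.1 (π g) (fun h => hg (H.mem_of_map h))]
        ring
    simp_rw [h2, ← Finset.mul_sum]
    congr 1
    rw [fib π (fun κ => lam κ * lam κ⁻¹) (by
      intro κ hκ
      rw [hl.1 κ, zero_mul]
      rintro ⟨s, _, rfl⟩
      exact hκ ⟨s, rfl⟩), H.card_T a]
    congr 1
    have h3 := irr_orth_self hl.2
    rw [← Nat.card_eq_fintype_card] at h3
    rw [← h3]
    have h4 : ∑ κ : K, lam κ * lam κ⁻¹ =
        ∑ κ ∈ Finset.univ.filter (fun κ => κ ∈ (T a).map π), lam κ * lam κ⁻¹ := by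
      symm
      apply Finset.sum_subset (Finset.subset_univ _)
      intro κ _ hκ
      rw [hl.1 κ, zero_mul]
      intro h
      exact hκ (Finset.mem_filter.2 ⟨Finset.mem_univ _, h⟩)
    rw [h4]
    symm
    apply Finset.sum_bij (fun (x : (T a).map π) _ => (x : K))
    · intro x _
      exact Finset.mem_filter.2 ⟨Finset.mem_univ _, x.2⟩
    · intro x _ y _ h; exact Subtype.ext h
    · intro κ hκ
      exact ⟨⟨κ, (Finset.mem_filter.1 hκ).2⟩, Finset.mem_univ _, rfl⟩
    · intro x _; rfl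
  · rw [mul_zero]
    apply Finset.sum_eq_zero
    intro g _
    rw [H.coset_conj a hw, mul_zero]

/-- the induced function -/
def Th (π : Λ →* K) (X : A → Λ → ℂ) (T : A → Subgroup Λ) (a : A) (lam : K → ℂ) : Λ → ℂ :=
  ind (T a) (fun t => X a t * lam (π t))

omit [Fintype A] [DecidableEq K] [Fintype π.ker] in
theorem mult (a : A) {lam : K → ℂ} (hl : lam ∈ IrrS ((T a).map π)) {θ : Λ → ℂ}
    (hθ : θ ∈ Irr Λ) :
    ∃ m : ℕ, ∑ g, (X a g * lam (π g)) * θ g⁻¹ = m * (Nat.card (T a) : ℂ) := by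
  classical
  obtain ⟨n, ρ, _, hρ⟩ := (H.h5 a).2
  obtain ⟨k, σ, _, hσ⟩ := hl.2
  obtain ⟨p, κ, _, hκ⟩ := hθ
  have hc : (Nat.card (T a) : ℂ) ≠ 0 := by exact_mod_cast Nat.card_pos.ne'
  have hinv := invertibleOfNonzero hc
  have hft := Fintype.ofFinite (T a)
  have h := Representation.card_inv_mul_sum_char_mul_char_eq_finrank
    (κ.comp (T a).subtype) (Representation.tprod ρ (σ.comp (π.subgroupMap (T a))))
  obtain ⟨m, hm⟩ : ∃ m : ℕ, (finrank ℂ (Representation.IntertwiningMap (κ.comp (T a).subtype)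
    (Representation.tprod ρ (σ.comp (π.subgroupMap (T a))))) : ℂ) = (m : ℂ) := ⟨_, rfl⟩
  refine ⟨m, ?_⟩
  rw [← hm, ← h, mul_comm, ← mul_assoc, mul_inv_cancel₀ hc, one_mul]
  have h1 : ∑ g, (X a g * lam (π g)) * θ g⁻¹ =
      ∑ g ∈ Finset.univ.filter (fun g => g ∈ T a), (X a g * lam (π g)) * θ g⁻¹ := by
    symm
    apply Finset.sum_subset (Finset.subset_univ _)
    intro g _ hg
    rw [(H.h5 a).1 g, zero_mul, zero_mul]
    intro h
    exact hg (Finset.mem_filter.2 ⟨Finset.mem_univ _, h⟩)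
  rw [h1]
  symm
  apply Finset.sum_bij (fun (x : T a) _ => (x : Λ))
  · intro x _
    exact Finset.mem_filter.2 ⟨Finset.mem_univ _, x.2⟩
  · intro x _ y _ h; exact Subtype.ext h
  · intro g hg
    exact ⟨⟨g, (Finset.mem_filter.1 hg).2⟩, Finset.mem_univ _, rfl⟩
  · intro x _
    rw [Representation.char_tensor, Pi.mul_apply]
    have e1 : ρ.character x = X a x := congrFun hρ x
    have e2 : (Representation.character (σ.comp (π.subgroupMap (T a)))) x = lam (π x) :=
      congrFun hσ (π.subgroupMap (T a) x)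
    have e3 : (Representation.character (κ.comp (T a).subtype)) x⁻¹ = θ (x : Λ)⁻¹ :=
      congrFun hκ ((x : Λ)⁻¹)
    rw [e1, e2, e3]

omit [Fintype A] in
theorem Th_mem (a : A) {lam : K → ℂ} (hl : lam ∈ IrrS ((T a).map π)) :
    Th π X T a lam ∈ Irr Λ := by
  classical
  have hT : (Nat.card (T a) : ℂ) ≠ 0 := by exact_mod_cast Nat.card_pos.ne'
  apply mem_Irr_of_mult
  · intro g k
    exact ind_class _ _ _ _
  · intro θ hθ
    obtain ⟨m, hm⟩ := H.mult a hl hθ
    refine ⟨m, ?_⟩
    apply mul_left_cancel₀ hT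
    have := ind_inner (T a) (fun t => X a t * lam (π t)) θ (fun g k => irr_conj hθ g k)
    unfold Th
    rw [this, hm]
    ring
  · apply mul_left_cancel₀ (mul_ne_zero hT hT)
    have h1 := ind_inner (T a) (fun t => X a t * lam (π t)) (Th π X T a lam)
      (fun g k => ind_class _ _ _ _)
    have h2 : (Nat.card (T a) : ℂ) * ∑ g, (X a g * lam (π g)) * Th π X T a lam g⁻¹ =
        (Nat.card (T a) : ℂ) * (Nat.card (T a) : ℂ) := by
      have e1 : ∀ g, (Nat.card (T a) : ℂ) * ((X a g * lam (π g)) * Th π X T a lam g⁻¹) =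
          ∑ x, (X a g * lam (π g)) * (X a (x * g⁻¹ * x⁻¹) * lam (π (x * g⁻¹ * x⁻¹))) := by
        intro g
        unfold Th
        rw [ind_apply, ← Finset.mul_sum]
        field_simp
      rw [Finset.mul_sum]
      simp_rw [e1]
      rw [Finset.sum_comm]
      simp_rw [H.J a hl]
      rw [Finset.sum_ite, Finset.sum_const_zero, add_zero, Finset.sum_const, nsmul_eq_mul]
      congr 2
      rw [Nat.card_eq_fintype_card, Fintype.card_subtype]
    calc (Nat.card (T a) : ℂ) * (Nat.card (T a) : ℂ) * ∑ g, Th π X T a lam g * Th π X T a lam g⁻¹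
        = (Nat.card (T a) : ℂ) * ((Nat.card (T a) : ℂ) *
            ∑ g, Th π X T a lam g * Th π X T a lam g⁻¹) := by ring
      _ = (Nat.card (T a) : ℂ) * ((Fintype.card Λ : ℂ) *
            ∑ g, (X a g * lam (π g)) * Th π X T a lam g⁻¹) := by
          rw [← h1]; rfl
      _ = (Fintype.card Λ : ℂ) * ((Nat.card (T a) : ℂ) *
            ∑ g, (X a g * lam (π g)) * Th π X T a lam g⁻¹) := by ring
      _ = _ := by rw [h2]; ring

/-! ### completeness -/

/-- the coefficient functions of a class function -/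
def ph (π : Λ →* K) [Fintype π.ker] (X : A → Λ → ℂ) (θ : Λ → ℂ) (a : A) (κ : K) : ℂ :=
  (∑ g, (if π g = κ then θ g * X a g⁻¹ else 0)) / Fintype.card π.ker

omit [Fintype K] [Fintype A] H in
theorem ph_eq (θ : Λ → ℂ) (a : A) (t : Λ) :
    ∑ y : π.ker, θ (y * t) * X a (y * t)⁻¹ = (Fintype.card π.ker : ℂ) * ph π X θ a (π t) := by
  have hY : (Fintype.card π.ker : ℂ) ≠ 0 := by exact_mod_cast Fintype.card_ne_zero
  unfold ph
  rw [fiber_sum π (fun g => θ g * X a g⁻¹) t]
  field_simp

omit [Fintype K] [Fintype A] in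
theorem ph_off (θ : Λ → ℂ) (a : A) {κ : K} (hκ : κ ∉ (T a).map π) : ph π X θ a κ = 0 := by
  unfold ph
  rw [Finset.sum_eq_zero, zero_div]
  intro g _
  split_ifs with hg
  · rw [(H.h5 a).1 g⁻¹, mul_zero]
    intro h
    apply hκ
    have := (T a).inv_mem h
    rw [inv_inv] at this
    exact ⟨g, this, hg⟩
  · rfl

omit [Fintype K] [Fintype A] in
theorem ph_class {θ : Λ → ℂ} (hθ : θ ∈ Irr Λ) (a : A) {s : Λ} (hs : s ∈ T a) (κ : K) :
    ph π X θ a (π s * κ * (π s)⁻¹) = ph π X θ a κ := by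
  unfold ph
  congr 1
  symm
  apply Fintype.sum_equiv (MulAut.conj s).toEquiv
  intro g
  show _ = if π (s * g * s⁻¹) = _ then θ (s * g * s⁻¹) * X a (s * g * s⁻¹)⁻¹ else 0
  have e1 : (s * g * s⁻¹)⁻¹ = s * g⁻¹ * s⁻¹ := by group
  rw [irr_conj hθ, e1, H.X_conj a hs]
  have e2 : π (s * g * s⁻¹) = π s * κ * (π s)⁻¹ ↔ π g = κ := by
    rw [map_mul, map_mul, map_inv]
    constructor
    · intro h
      exact mul_left_cancel (mul_right_cancel h)
    · rintro rfl; rfl
  simp only [e2]

theorem expand {θ : Λ → ℂ} (hθ : θ ∈ Irr Λ) (g : Λ) :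
    θ g = ∑ a, ph π X θ a (π g) * X a g := by
  classical
  have hY : (Fintype.card π.ker : ℂ) ≠ 0 := by exact_mod_cast Fintype.card_ne_zero
  set F : Λ → ℂ := fun g => θ g - ∑ a, ph π X θ a (π g) * X a g with hF
  have hker : ∀ (y : π.ker) (t : Λ), π (y * t) = π t := by
    intro y t
    rw [map_mul, MonoidHom.mem_ker.1 y.2, one_mul]
  have hFc : ∀ z ∈ π.ker, ∀ g, F (z * g * z⁻¹) = F g := by
    intro z hz g
    rw [hF]
    simp only
    rw [irr_conj hθ]
    congr 1
    apply Finset.sum_congr rfl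
    intro a _
    rw [H.X_conj a (H.ker_le a hz), map_mul, map_mul, map_inv, MonoidHom.mem_ker.1 hz, inv_one,
      one_mul, mul_one]
  have hF0 : ∀ b t, ∑ y : π.ker, F (y * t) * X b (y * t)⁻¹ = 0 := by
    intro b t
    have e1 : ∀ y : π.ker, F (y * t) * X b (y * t)⁻¹ = θ (y * t) * X b (y * t)⁻¹ -
        ∑ a, ph π X θ a (π t) * (X a (y * t) * X b (y * t)⁻¹) := by
      intro y
      rw [hF]
      simp only
      rw [sub_mul, Finset.sum_mul]
      congr 1
      apply Finset.sum_congr rfl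
      intro a _
      rw [hker]
      ring
    simp_rw [e1]
    rw [Finset.sum_sub_distrib, ph_eq, Finset.sum_comm]
    simp_rw [← Finset.mul_sum]
    rw [Finset.sum_eq_single_of_mem b (Finset.mem_univ _)]
    · rw [H.coset_eq b t]
      split_ifs with ht
      · ring
      · rw [H.ph_off θ b (fun h => ht (H.mem_of_map h))]
        ring
    · intro a _ hab
      rw [H.coset_ne hab, mul_zero]
  have hall : ∀ t, (fun y : π.ker => F (y * t)) = 0 := by
    intro t
    apply complete_translates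
    intro χ hχ x
    obtain ⟨η, hη, hηχ⟩ := exists_IrrS π.ker hχ
    obtain ⟨b, rfl⟩ := H.h3 η hη
    obtain ⟨r⟩ := exists_MR (H.h5 b)
    have := coset_kill π.normal_ker r (H.ker_le b) (H.norm_one b) (fun w hw => H.norm_conj b hw)
      F hFc t (fun _ => hF0 b t) x
    rw [← this]
    apply Finset.sum_congr rfl
    intro y _
    congr 1
    rw [← hηχ, H.h6 b _ (π.ker.mul_mem (π.ker.inv_mem y.2) x.2)]
    rfl
  have := congrFun (hall g) 1
  simp only [OneMemClass.coe_one, one_mul, Pi.zero_apply] at this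
  exact sub_eq_zero.1 this

omit [Fintype A] in
/-- Parseval for the coefficient function -/
theorem pars {θ : Λ → ℂ} (hθ : θ ∈ Irr Λ) (a : A) :
    (Nat.card ((T a).map π) : ℂ) * ∑ κ, ph π X θ a κ * ph π X θ a κ⁻¹ =
      ∑ lam ∈ (IrrS_finite ((T a).map π)).toFinset, (∑ κ, ph π X θ a κ * lam κ⁻¹) ^ 2 := by
  classical
  set L := (T a).map π with hL
  have hft := Fintype.ofFinite (Irr L)
  have hsum : ∀ f : K → ℂ, ∑ κ, ph π X θ a κ * f κ = ∑ κ : L, ph π X θ a κ * f κ := by
    intro f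
    have h4 : ∑ κ : K, ph π X θ a κ * f κ =
        ∑ κ ∈ Finset.univ.filter (fun κ => κ ∈ L), ph π X θ a κ * f κ := by
      symm
      apply Finset.sum_subset (Finset.subset_univ _)
      intro κ _ hκ
      rw [H.ph_off θ a, zero_mul]
      intro h
      exact hκ (Finset.mem_filter.2 ⟨Finset.mem_univ _, h⟩)
    rw [h4]
    symm
    apply Finset.sum_bij (fun (x : L) _ => (x : K))
    · intro x _
      exact Finset.mem_filter.2 ⟨Finset.mem_univ _, x.2⟩
    · intro x _ y _ h; exact Subtype.ext h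
    · intro κ hκ
      exact ⟨⟨κ, (Finset.mem_filter.1 hκ).2⟩, Finset.mem_univ _, rfl⟩
    · intro x _; rfl
  have h := parseval (f := fun κ : L => ph π X θ a κ) (by
    intro g h
    obtain ⟨s, hs, hsh⟩ := h.2
    have : ((h * g * h⁻¹ : L) : K) = π s * g * (π s)⁻¹ := by
      rw [hsh]; rfl
    rw [this]
    exact H.ph_class hθ a hs _)
  rw [hsum (fun κ => ph π X θ a κ⁻¹), Nat.card_eq_fintype_card]
  have h' : (Fintype.card L : ℂ) * ∑ κ : L, ph π X θ a κ * ph π X θ a (κ : K)⁻¹ =
      ∑ χ : Irr L, (∑ g : L, ph π X θ a g * (χ : L → ℂ) g⁻¹) ^ 2 := h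
  rw [h']
  symm
  apply Finset.sum_bij (fun lam hlam => (⟨fun x : L => lam x,
    ((IrrS_finite L).mem_toFinset.1 hlam).2⟩ : Irr L))
  · intro lam _
    exact Finset.mem_univ _
  · intro lam hlam mu hmu h
    have h1 := congrArg Subtype.val h
    exact IrrS_ext ((IrrS_finite L).mem_toFinset.1 hlam) ((IrrS_finite L).mem_toFinset.1 hmu)
      (fun x => congrFun h1 x)
  · intro χ _
    obtain ⟨lam, hl, hlχ⟩ := exists_IrrS L χ.2
    exact ⟨lam, (IrrS_finite L).mem_toFinset.2 hl, Subtype.ext (funext hlχ)⟩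
  · intro lam hlam
    rw [hsum (fun κ => lam κ⁻¹)]
    rfl

omit [Fintype A] in
theorem coeff {θ : Λ → ℂ} (hθ : θ ∈ Irr Λ) (a : A) {lam : K → ℂ}
    (hl : lam ∈ IrrS ((T a).map π)) [Decidable (Th π X T a lam = θ)] :
    ∑ κ, ph π X θ a κ * lam κ⁻¹ =
      if Th π X T a lam = θ then (Nat.card ((T a).map π) : ℂ) else 0 := by
  classical
  have hY : (Fintype.card π.ker : ℂ) ≠ 0 := by exact_mod_cast Fintype.card_ne_zero
  have hΛ : (Fintype.card Λ : ℂ) ≠ 0 := by exact_mod_cast Fintype.card_ne_zero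
  have hT : (Nat.card (T a) : ℂ) ≠ 0 := by exact_mod_cast Nat.card_pos.ne'
  apply mul_left_cancel₀ (mul_ne_zero hΛ hY)
  have h1 : (Fintype.card π.ker : ℂ) * ∑ κ, ph π X θ a κ * lam κ⁻¹ =
      ∑ g, θ g * (X a g⁻¹ * lam (π g⁻¹)) := by
    rw [Finset.mul_sum, sum_fib π]
    apply Finset.sum_congr rfl
    intro κ _
    unfold ph
    rw [div_mul_eq_mul_div, mul_div_cancel₀ _ hY, Finset.sum_mul]
    apply Finset.sum_congr rfl
    intro g _
    split_ifs with hg
    · rw [map_inv, hg]; ring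
    · rw [zero_mul]
  have h2 : ∑ g, θ g * (X a g⁻¹ * lam (π g⁻¹)) = ∑ g, (X a g * lam (π g)) * θ g⁻¹ := by
    rw [← Equiv.sum_comp (Equiv.inv Λ)]
    apply Finset.sum_congr rfl
    intro g _
    simp only [Equiv.inv_apply, inv_inv]
    ring
  have h3 := ind_inner (T a) (fun t => X a t * lam (π t)) θ (fun g k => irr_conj hθ g k)
  rw [mul_assoc, h1, h2, ← h3]
  have h4 : ∑ g, ind (T a) (fun t => X a t * lam (π t)) g * θ g⁻¹ =
      if Th π X T a lam = θ then (Fintype.card Λ : ℂ) else 0 := by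
    split_ifs with he
    · rw [← irr_orth_self hθ]
      apply Finset.sum_congr rfl
      intro g _
      congr 1
      exact congrFun he g
    · exact irr_orth_ne (H.Th_mem a hl) hθ he
  rw [h4]
  split_ifs with he
  · rw [H.card_T a]; ring
  · ring

/-- the main count for one character -/
theorem count {θ : Λ → ℂ} (hθ : θ ∈ Irr Λ) [DecidableEq (Λ → ℂ)] :
    ∑ a, Nat.card (T a) *
      ((IrrS_finite ((T a).map π)).toFinset.filter (fun lam => Th π X T a lam = θ)).card =
      Fintype.card Λ := by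
  classical
  have hY : (Fintype.card π.ker : ℂ) ≠ 0 := by exact_mod_cast Fintype.card_ne_zero
  have h1 : (Fintype.card Λ : ℂ) = ∑ a, ∑ g, ph π X θ a (π g) * (X a g * θ g⁻¹) := by
    rw [← irr_orth_self hθ, Finset.sum_comm]
    apply Finset.sum_congr rfl
    intro g _
    conv_lhs => rw [H.expand hθ g]
    rw [Finset.sum_mul]
    apply Finset.sum_congr rfl
    intro a _
    ring
  have h2 : ∀ a, ∑ g, ph π X θ a (π g) * (X a g * θ g⁻¹) =
      (Fintype.card π.ker : ℂ) * ∑ κ, ph π X θ a κ * ph π X θ a κ⁻¹ := by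
    intro a
    rw [sum_fib π, Finset.mul_sum]
    apply Finset.sum_congr rfl
    intro κ _
    have e1 : ∑ g, (if π g = κ then ph π X θ a (π g) * (X a g * θ g⁻¹) else 0) =
        ph π X θ a κ * ∑ g, (if π g = κ⁻¹ then θ g * X a g⁻¹ else 0) := by
      rw [Finset.mul_sum, ← Equiv.sum_comp (Equiv.inv Λ)]
      apply Finset.sum_congr rfl
      intro g _
      simp only [Equiv.inv_apply, inv_inv, map_inv]
      have e2 : (π g)⁻¹ = κ ↔ π g = κ⁻¹ := inv_eq_iff_eq_inv
      simp only [e2]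
      split_ifs with hg
      · rw [hg, inv_inv]; ring
      · rw [mul_zero]
    rw [e1]
    conv_rhs => rw [ph]
    unfold ph
    field_simp
  have h3 : ∀ a, (Fintype.card π.ker : ℂ) * ∑ κ, ph π X θ a κ * ph π X θ a κ⁻¹ =
      (Nat.card (T a) : ℂ) *
        (((IrrS_finite ((T a).map π)).toFinset.filter (fun lam => Th π X T a lam = θ)).card :
          ℂ) := by
    intro a
    have hL : (Nat.card ((T a).map π) : ℂ) ≠ 0 := by exact_mod_cast Nat.card_pos.ne'
    apply mul_left_cancel₀ hL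
    have := H.pars hθ a
    calc (Nat.card ((T a).map π) : ℂ) * ((Fintype.card π.ker : ℂ) *
          ∑ κ, ph π X θ a κ * ph π X θ a κ⁻¹)
        = (Fintype.card π.ker : ℂ) * ((Nat.card ((T a).map π) : ℂ) *
          ∑ κ, ph π X θ a κ * ph π X θ a κ⁻¹) := by ring
      _ = (Fintype.card π.ker : ℂ) * ∑ lam ∈ (IrrS_finite ((T a).map π)).toFinset,
          (if Th π X T a lam = θ then (Nat.card ((T a).map π) : ℂ) ^ 2 else 0) := by
          rw [this]
          congr 1
          apply Finset.sum_congr rfl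
          intro lam hlam
          rw [H.coeff hθ a ((Set.Finite.mem_toFinset _).1 hlam)]
          split_ifs <;> ring
      _ = _ := by
          rw [Finset.sum_ite, Finset.sum_const_zero, add_zero, Finset.sum_const, nsmul_eq_mul,
            H.card_T a]
          ring
  have h4 : ((∑ a, Nat.card (T a) *
      ((IrrS_finite ((T a).map π)).toFinset.filter (fun lam => Th π X T a lam = θ)).card : ℕ) :
        ℂ) = (Fintype.card Λ : ℂ) := by
    rw [h1]
    push_cast
    apply Finset.sum_congr rfl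
    intro a _
    rw [h2, h3]
  exact_mod_cast h4

end Hyp

end main

/-- module CLIFF -/
theorem cliff : CliffStmt := by
  intro Λ K A _ _ _ _ _ π ν X T h1 h2 h3 h4 h5 h6 S
  classical
  have := Fintype.ofFinite Λ
  have := Fintype.ofFinite K
  have := Fintype.ofFinite π.ker
  have H : Hyp π ν X T := ⟨h1, h2, h3, h4, h5, h6⟩
  set I : Finset (Λ → ℂ) := (irr_finite' (G := Λ)).toFinset.filter (fun θ => θ ∈ S) with hI
  have e1 : {θ | θ ∈ Irr Λ ∧ θ ∈ S}.ncard = I.card := by
    rw [← Set.ncard_coe_finset]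
    congr 1
    ext θ
    simp [hI]
  have e2 : ∀ a, {lam | lam ∈ IrrS ((T a).map π) ∧
      ind (T a) (fun t => X a t * lam (π t)) ∈ S}.ncard =
      ∑ θ ∈ I, ((IrrS_finite ((T a).map π)).toFinset.filter
        (fun lam => Hyp.Th π X T a lam = θ)).card := by
    intro a
    set J : Finset (K → ℂ) := (IrrS_finite ((T a).map π)).toFinset.filter
      (fun lam => Hyp.Th π X T a lam ∈ S) with hJ
    have e3 : {lam | lam ∈ IrrS ((T a).map π) ∧
        ind (T a) (fun t => X a t * lam (π t)) ∈ S}.ncard = J.card := by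
      rw [← Set.ncard_coe_finset]
      congr 1
      ext lam
      simp only [hJ, Set.mem_ofPred_eq, Finset.coe_filter, Set.Finite.mem_toFinset]
      rfl
    rw [e3, Finset.card_eq_sum_card_fiberwise (f := fun lam => Hyp.Th π X T a lam) (t := I)]
    · apply Finset.sum_congr rfl
      intro θ hθ
      congr 1
      ext lam
      simp only [hJ, Finset.mem_filter]
      constructor
      · rintro ⟨⟨ha, _⟩, hb⟩
        exact ⟨ha, hb⟩
      · rintro ⟨ha, hb⟩
        refine ⟨⟨ha, ?_⟩, hb⟩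
        rw [hb]
        exact (Finset.mem_filter.1 hθ).2
    · intro lam hlam
      have hlam' := Finset.mem_filter.1 (Finset.mem_coe.1 hlam)
      apply Finset.mem_coe.2
      rw [hI, Finset.mem_filter, Set.Finite.mem_toFinset]
      exact ⟨H.Th_mem a ((Set.Finite.mem_toFinset _).1 hlam'.1), hlam'.2⟩
  rw [e1]
  simp_rw [e2, Finset.mul_sum]
  rw [Finset.sum_comm]
  have e4 : ∀ θ ∈ I, ∑ a, Nat.card (T a) * ((IrrS_finite ((T a).map π)).toFinset.filter
        (fun lam => Hyp.Th π X T a lam = θ)).card = Nat.card Λ := by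
    intro θ hθ
    rw [Nat.card_eq_fintype_card]
    exact H.count ((Set.Finite.mem_toFinset _).1 (Finset.mem_filter.1 hθ).1)
  rw [Finset.sum_congr rfl e4, Finset.sum_const, smul_eq_mul, mul_comm]

end Pool.Agent.Helper79_WRA.H44
end
end -- Pool.Agent.Helper44_WRA.Cliff
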