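import Pool.Agent.Helper79_WRA.StmtB
import Pool.Agent.Helper83_WRA.Pos

/-!
# Merged copies (generated) of the modules

* `Pool.Agent.Helper46_WRA.Res1`
* `Pool.Agent.Helper46_WRA.Resum`
* `Pool.Agent.Helper62_WRA.Dz1`
* `Pool.Agent.Helper62_WRA.Dz2`
* `Pool.Agent.Helper62_WRA.Dzdet`
* `Pool.Agent.Helper62_WRA.Fam`
* `Pool.Agent.Helper62_WRA.Bma1`
* `Pool.Agent.Helper62_WRA.Bma`
-/

set_option autoImplicit false

section -- Pool.Agent.Helper46_WRA.Res1

/-!
WRA, module RES1: transport to the stabiliser of the family.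
-/

open scoped BigOperators

noncomputable section

namespace Pool.Agent.Helper79_WRA.H46

open Pool.Agent.Helper51_AWC

section LLsec

variable {G Ω L : Type} [Group G] [Group L] [MulAction L Ω]

theorem mem_LL {β : Ω → G → ℂ} (hβ : ∀ i, β i ∈ Irr G) {h : L} :
    h ∈ LL L β ↔ ∀ j, β (h⁻¹ • j) = β j := by
  rw [mem_topSt]
  constructor
  · intro H j
    obtain ⟨g, -, hg⟩ := H j
    funext y
    rw [← hg y, irr_conj (hβ j)]
  · intro H j
    refine ⟨1, ?_, ?_⟩
    · intro R hR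
      have h1 : R = fun _ => ⊥ := by simpa [triv] using hR
      rw [h1]
      exact conjS_one _
    · intro y
      rw [one_mul, inv_one, mul_one, H j]

theorem LL_tr {β : Ω → G → ℂ} (hβ : ∀ i, β i ∈ Irr G) (l : L) :
    LL L (tr l β) = conjS l (LL L β) := by
  ext h
  rw [mem_conjS, mem_LL hβ, mem_LL (β := tr l β) (fun i => hβ _)]
  constructor
  · intro H j
    have h1 := H (l • j)
    unfold tr at h1
    rw [inv_smul_smul, ← mul_smul, ← mul_smul] at h1
    rw [← h1]
    congr 1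
    congr 1
    group
  · intro H j
    have h1 := H (l⁻¹ • j)
    unfold tr
    rw [← h1, ← mul_smul, ← mul_smul]
    congr 1
    congr 1
    group

end LLsec

theorem red_field {ℓ : ℕ} [hℓ : Fact ℓ.Prime] {M : Ideal (integralClosure ℤ ℂ)} [hM : M.IsMaximal]
    (hℓM : (ℓ : integralClosure ℤ ℂ) ∈ M) {a b : FF M} {n : ℕ} (h : a ^ (ℓ ^ n) = b ^ (ℓ ^ n)) :
    a = b := by
  have hnt : Nontrivial (FF M) := Ideal.Quotient.nontrivial_iff.2 hM.ne_top
  have hdom : IsDomain (FF M) := Ideal.Quotient.isDomain M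
  have hchar : CharP (FF M) ℓ := by
    have h0 : ((ℓ : ℕ) : FF M) = 0 := by
      have : (Ideal.Quotient.mk M) (ℓ : integralClosure ℤ ℂ) = 0 :=
        Ideal.Quotient.eq_zero_iff_mem.2 hℓM
      rw [← this, map_natCast]
    exact (CharP.charP_iff_prime_eq_zero hℓ.out).2 h0
  have h1 : (a - b) ^ (ℓ ^ n) = 0 := by rw [sub_pow_char_pow, h, sub_self]
  exact sub_eq_zero.1 (eq_zero_of_pow_eq_zero h1)

section chain

variable {L : Type} [Group L]

theorem topP_mem {c : Finset (Subgroup L)} (hne : c.Nonempty)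
    (hc : IsChain (· ≤ ·) (c : Set (Subgroup L))) : topP c ∈ c := by
  classical
  obtain ⟨D, hD, hmax⟩ := c.exists_maximal hne
  have h1 : ∀ E ∈ c, E ≤ D := by
    intro E hE
    rcases hc.total hE hD with h | h
    · exact h
    · exact hmax hE h
  have h2 : topP c = D := by
    apply le_antisymm
    · exact iSup₂_le h1
    · exact le_iSup₂_of_le D hD le_rfl
  rw [h2]; exact hD

theorem le_topP {c : Finset (Subgroup L)} {D : Subgroup L} (hD : D ∈ c) : D ≤ topP c :=
  le_iSup₂_of_le D hD le_rfl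

theorem card_fibre {ℓ : ℕ} [Fact ℓ.Prime] {Ω : Type} [Finite Ω] [MulAction L Ω]
    {c : Finset (Subgroup L)} (hP : IsPGroup ℓ (topP c)) (i : Ω) :
    ∃ n, Nat.card {i' : Ω // (qq c i' : Dl c Ω) = qq c i} = ℓ ^ n := by
  have := Fintype.ofFinite Ω
  obtain ⟨n, hn⟩ := hP.card_orbit i
  refine ⟨n, ?_⟩
  rw [← hn]
  apply Nat.card_congr
  refine Equiv.subtypeEquivRight fun i' => ?_
  rw [eq_comm, qq_eq_iff, MulAction.mem_orbit_iff]
  constructor
  · rintro ⟨p, hp, h⟩; exact ⟨⟨p, hp⟩, h⟩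
  · rintro ⟨p, hp⟩; exact ⟨p, p.2, hp⟩

theorem card_fibre_smul {Ω : Type} [MulAction L Ω]
    {c : Finset (Subgroup L)} (k : stab c) (i : Ω) :
    Nat.card {i' : Ω // (qq c i' : Dl c Ω) = qq c ((k : L) • i)} =
      Nat.card {i' : Ω // (qq c i' : Dl c Ω) = qq c i} := by
  symm
  apply Nat.card_congr
  refine (MulAction.toPerm (k : L) : Equiv.Perm Ω).subtypeEquiv fun i' => ?_
  rw [MulAction.toPerm_apply, ← smul_qq, ← smul_qq]
  exact (MulAction.injective k).eq_iff.symm

/-- the stabiliser of `α` in `stab c` -/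
theorem mem_LL_alpha (hDzu : DzuStmt) {ℓ : ℕ} [Fact ℓ.Prime] {M : Ideal (integralClosure ℤ ℂ)}
    [M.IsMaximal] (hℓM : (ℓ : integralClosure ℤ ℂ) ∈ M) {G : Type} [Group G] [Finite G]
    (hG : opCore ℓ G = ⊥) {Ω : Type} [Finite Ω] [MulAction L Ω] {c : Finset (Subgroup L)}
    (hP : IsPGroup ℓ (topP c)) {β : Ω → G → ℂ} {α : Dl c Ω → G → ℂ}
    (h : TwPair ℓ M (qq c) β α) (k : stab c) : k ∈ LL (stab c) α ↔ (k : L) ∈ LL L β := by
  rw [mem_LL (fun j => (h.dz' j).1), mem_LL (fun i => (h.dz i).1)]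
  have key : ∀ i : Ω, α (k⁻¹ • qq c i) = α (qq c i) ↔ β ((k : L)⁻¹ • i) = β i := by
    intro i
    obtain ⟨n, hn⟩ := card_fibre (ℓ := ℓ) hP i
    have hn' : Nat.card {i' : Ω // (qq c i' : Dl c Ω) = qq c ((k : L)⁻¹ • i)} = ℓ ^ n := by
      rw [← hn]
      exact card_fibre_smul k⁻¹ i
    have t1 := h.tw i n hn
    have t2 := h.tw ((k : L)⁻¹ • i) n hn'
    have e1 : k⁻¹ • (qq c i : Dl c Ω) = qq c ((k : L)⁻¹ • i) := smul_qq c k⁻¹ i
    rw [e1]
    constructor
    · intro hh
      refine hDzu ℓ M hℓM G hG _ (h.dz _) _ (h.dz i).1 ?_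
      funext g
      apply red_field hℓM (n := n)
      rw [← t2 g, hh, t1 g]
    · intro hh
      refine hDzu ℓ M hℓM G hG _ (h.dz' _) _ (h.dz' _).1 ?_
      funext g
      rw [t2 g, hh, t1 g]
  constructor
  · intro H i
    exact (key i).1 (H _)
  · intro H j
    obtain ⟨i, rfl⟩ := qq_surjective c j
    exact (key i).2 (H i)

end chain

theorem conjS_subgroupOf {L : Type} [Group L] {U : Subgroup L} (u : U) (E : Subgroup L) :
    conjS u (E.subgroupOf U) = (conjS (u : L) E).subgroupOf U := by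
  ext x
  rw [mem_conjS, Subgroup.mem_subgroupOf, Subgroup.mem_subgroupOf, mem_conjS]
  rfl

theorem subgroupOf_inj' {L : Type} [Group L] {U E F : Subgroup L} (hE : E ≤ U) (hF : F ≤ U) :
    E.subgroupOf U = F.subgroupOf U ↔ E = F := by
  rw [Subgroup.subgroupOf_inj, inf_eq_left.2 hE, inf_eq_left.2 hF]

theorem conjS_conjS_iff {L : Type} [Group L] (l u : L) (D : Subgroup L) :
    conjS u (conjS l⁻¹ D) = conjS l⁻¹ D ↔ conjS (l * u * l⁻¹) D = D := by
  rw [← (conjS_injective l).eq_iff, conjS_conjS, conjS_conjS, conjS_conjS, mul_inv_cancel,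
    conjS_one]

theorem mem_conjS' {L : Type} [Group L] {l x : L} {D : Subgroup L} :
    l * x * l⁻¹ ∈ conjS l D ↔ x ∈ D := by
  rw [mem_conjS]
  have : l⁻¹ * (l * x * l⁻¹) * l = x := by group
  rw [this]

theorem conjS_le_of_mem {L : Type} [Group L] {U E : Subgroup L} (hE : E ≤ U) {u : L}
    (hu : u ∈ U) : conjS u E ≤ U := by
  intro x hx
  rw [mem_conjS] at hx
  have h1 : u * (u⁻¹ * x * u) * u⁻¹ ∈ U := U.mul_mem (U.mul_mem hu (hE hx)) (U.inv_mem hu)
  have : u * (u⁻¹ * x * u) * u⁻¹ = x := by group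
  rwa [this] at h1

open Classical in
theorem mem_T0 {L : Type} [Group L] {U0 : Subgroup L} {c : Finset (Subgroup L)} {l : L}
    (hc : ∀ D ∈ c, conjS l⁻¹ D ≤ U0) (u : U0) :
    u ∈ stab (inU U0 (c.image (conjS l⁻¹))) ↔ l * (u : L) * l⁻¹ ∈ stab c := by
  rw [mem_stab, mem_stab]
  constructor
  · intro H D hD
    have h1 := H ((conjS l⁻¹ D).subgroupOf U0)
      (Finset.mem_image_of_mem _ (Finset.mem_image_of_mem _ hD))
    rw [conjS_subgroupOf, subgroupOf_inj' (conjS_le_of_mem (hc D hD) u.2) (hc D hD),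
      conjS_conjS_iff] at h1
    exact h1
  · intro H E hE
    obtain ⟨E', hE', rfl⟩ := Finset.mem_image.1 hE
    obtain ⟨D, hD, rfl⟩ := Finset.mem_image.1 hE'
    rw [conjS_subgroupOf, subgroupOf_inj' (conjS_le_of_mem (hc D hD) u.2) (hc D hD),
      conjS_conjS_iff]
    exact H D hD

theorem isConj_iff_U {L : Type} [Group L] {U0 U : Subgroup L} {l : L} (hU : U = conjS l U0)
    (g t : U0) : IsConj g t ↔ ∃ u ∈ U, l * (t : L) * l⁻¹ = u * (l * (g : L) * l⁻¹) * u⁻¹ := by
  rw [isConj_iff]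
  constructor
  · rintro ⟨c0, hc0⟩
    refine ⟨l * c0 * l⁻¹, ?_, ?_⟩
    · rw [hU, mem_conjS']; exact c0.2
    · rw [← hc0]
      push_cast
      group
  · rintro ⟨u, hu, h⟩
    rw [hU, mem_conjS] at hu
    refine ⟨⟨l⁻¹ * u * l, hu⟩, ?_⟩
    apply Subtype.ext
    have h1 : (t : L) = l⁻¹ * (l * (t : L) * l⁻¹) * l := by group
    rw [h1, h]
    push_cast
    group

theorem res1 (hDzu : DzuStmt) : Res1Stmt := by
  intro ℓ hℓ M hM hℓM G _ _ hG Ω L _ _ _ _ αs μ hαs hμ c hc β α hTw l hβ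
  classical
  have := Fintype.ofFinite L
  obtain ⟨hc1, hc2, hc3⟩ := mem_chainsOn.1 hc
  have hPmem : topP c ∈ c := topP_mem ⟨_, hc2⟩ hc3
  have hP : IsPGroup ℓ (topP c) := (mem_psubIn.1 (hc1 hPmem)).2
  have hβI : ∀ i, β i ∈ Irr G := fun i => (hTw.dz i).1
  have hU : LL L β = conjS l (LL L αs) := by
    rw [hβ]; exact LL_tr (fun i => (hαs i).1) l
  have htop : topP c ≤ LL L β := by
    intro p hp
    rw [mem_LL hβI]
    intro j
    apply hTw.fib
    rw [qq_eq_iff]
    exact ⟨p, hp, by rw [smul_inv_smul]⟩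
  set U := LL L β with hUdef
  set U0 := LL L αs with hU0def
  have hcU : ∀ D ∈ c, conjS l⁻¹ D ≤ U0 := by
    intro D hD x hx
    rw [mem_conjS, inv_inv] at hx
    have h1 : l * x * l⁻¹ ∈ conjS l U0 := by
      rw [← hU]; exact htop (le_topP hD hx)
    exact mem_conjS'.1 h1
  set T0 := stab (inU U0 (c.image (conjS l⁻¹))) with hT0
  have hmem : ∀ k : stab c, k ∈ LL (stab c) α ↔ (k : L) ∈ U := fun k =>
    mem_LL_alpha hDzu hℓM hG hP hTw k
  -- the isomorphism
  let φ1 : T0 →* stab c := ((MulAut.conj l).toMonoidHom.comp (U0.subtype.comp T0.subtype)).codRestrict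
    (stab c) (fun t => (mem_T0 hcU (t : U0)).1 t.2)
  have hφ1 : ∀ t : T0, ((φ1 t : stab c) : L) = l * ((t : U0) : L) * l⁻¹ := fun t => rfl
  let φ2 : T0 →* LL (stab c) α := φ1.codRestrict (LL (stab c) α) (fun t => by
    rw [hmem, hφ1, hU, mem_conjS']
    exact (t : U0).2)
  have hφ2 : ∀ t : T0, ((φ2 t : stab c) : L) = l * ((t : U0) : L) * l⁻¹ := fun t => rfl
  have hbij : Function.Bijective φ2 := by
    constructor
    · intro t t' h
      have h1 := hφ2 t
      rw [h, hφ2 t'] at h1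
      have h2 : ((t' : U0) : L) = ((t : U0) : L) := mul_left_cancel (mul_right_cancel h1)
      exact (Subtype.ext (Subtype.ext h2)).symm
    · intro k
      have hk : ((k : stab c) : L) ∈ U := (hmem k).1 k.2
      rw [hU, mem_conjS] at hk
      have e1 : l * (l⁻¹ * ((k : stab c) : L) * l) * l⁻¹ = ((k : stab c) : L) := by group
      refine ⟨⟨⟨l⁻¹ * ((k : stab c) : L) * l, hk⟩, (mem_T0 hcU _).2 ?_⟩, ?_⟩
      · show l * (l⁻¹ * ((k : stab c) : L) * l) * l⁻¹ ∈ stab c
        rw [e1]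
        exact (k : stab c).2
      · apply Subtype.ext
        apply Subtype.ext
        rw [hφ2]
        exact e1
  let φ : T0 ≃* LL (stab c) α := MulEquiv.ofBijective φ2 hbij
  have hφ : ∀ t : T0, (((φ t : LL (stab c) α) : stab c) : L) = l * ((t : U0) : L) * l⁻¹ :=
    fun t => rfl
  unfold weight
  rw [← hT0, ← Nat.card_congr φ.toEquiv]
  congr 1
  have h1 : l * ((1 : U0) : L) * l⁻¹ = 1 := by simp
  have hif : ∀ {X : Type} [Fintype X] (p : X → Prop) [DecidablePred p] (f : X → ℂ),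
      (∑ᶠ (x : X) (_ : p x), f x) = ∑ x, if p x then f x else 0 := by
    intro X _ p _ f
    rw [finsum_eq_sum_of_fintype]
    refine Finset.sum_congr rfl fun x _ => ?_
    rw [finsum_eq_if]
  -- first key identity
  have K1 : ∀ lam ∈ IrrS (LL (stab c) α), ∀ g : U0,
      omega T0.subtype (fun t : T0 => lam (φ t)) g =
        (∑ᶠ (k : stab c) (_ : ∃ u ∈ U, (k : L) = u * (l * (g : L) * l⁻¹) * u⁻¹), lam k) /
          lam 1 := by
    intro lam hlam g
    unfold omega
    rw [hif, hif]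
    congr 1
    · refine Fintype.sum_of_injective (fun t : T0 => ((φ t : LL (stab c) α) : stab c)) ?_ _ _ ?_ ?_
      · intro t t' h
        exact φ.injective (Subtype.ext h)
      · intro k hk
        have hk' : k ∉ LL (stab c) α := by
          intro hk'
          exact hk ⟨φ.symm ⟨k, hk'⟩, by simp⟩
        rw [hlam.1 k hk', ite_self]
      · intro t
        have e := isConj_iff_U hU g (t : U0)
        by_cases hh : IsConj g (t : U0)
        · rw [if_pos (show IsConj g (T0.subtype t) from hh), if_pos]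
          rw [hφ]
          exact e.1 hh
        · rw [if_neg (show ¬ IsConj g (T0.subtype t) from hh), if_neg]
          rw [hφ]
          exact fun h => hh (e.2 h)
    · show lam (φ 1 : LL (stab c) α) = lam 1
      rw [map_one]
      rfl
  have K2 : ∀ g : U0, omega (MonoidHom.id U0) (resT U0 μ) g =
      ulab U (fun x => μ (l⁻¹ * x * l)) (l * (g : L) * l⁻¹) := by
    intro g
    unfold omega ulab
    rw [hif, hif]
    congr 1
    · refine Fintype.sum_of_injective (fun t : U0 => l * (t : L) * l⁻¹) ?_ _ _ ?_ ?_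
      · intro t t' h
        exact Subtype.ext (mul_left_cancel (mul_right_cancel h))
      · intro x hx
        rw [if_neg]
        rintro ⟨u, hu, h⟩
        apply hx
        have hxU : x ∈ U := by
          rw [h]
          refine U.mul_mem (U.mul_mem hu ?_) (U.inv_mem hu)
          rw [hU, mem_conjS']
          exact g.2
        rw [hU, mem_conjS] at hxU
        exact ⟨⟨l⁻¹ * x * l, hxU⟩, by simp [mul_assoc]⟩
      · intro t
        have e := isConj_iff_U hU g t
        have e1 : l⁻¹ * (l * (t : L) * l⁻¹) * l = t := by group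
        by_cases hh : IsConj g t
        · rw [if_pos (show IsConj g (MonoidHom.id U0 t) from hh), if_pos (e.1 hh), e1]
          rfl
        · rw [if_neg (show ¬ IsConj g (MonoidHom.id U0 t) from hh), if_neg (fun h => hh (e.2 h))]
    · show μ 1 = μ (l⁻¹ * 1 * l)
      congr 1
      group
  have hLab : ∀ lam ∈ IrrS (LL (stab c) α), (LabC M c U lam (fun x => μ (l⁻¹ * x * l)) ↔
      ∀ g : U0, Cong M (omega T0.subtype (fun t : T0 => lam (φ t)) g)
        (omega (MonoidHom.id U0) (resT U0 μ) g)) := by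
    intro lam hlam
    constructor
    · intro H g
      rw [K1 lam hlam, K2]
      apply H
      rw [hU, mem_conjS']
      exact g.2
    · intro H h hh
      rw [hU, mem_conjS] at hh
      have h2 := H ⟨l⁻¹ * h * l, hh⟩
      rw [K1 lam hlam, K2] at h2
      have e1 : l * (l⁻¹ * h * l) * l⁻¹ = h := by group
      simp only [e1] at h2
      exact h2
  apply Set.ncard_congr (fun lam _ => fun t : T0 => lam (φ t))
  · rintro lam ⟨h2, h3⟩
    exact ⟨irr_comp_equiv φ h2.2, (hLab lam h2).1 h3⟩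
  · rintro lam lam' ⟨h2, -⟩ ⟨h3, -⟩ h
    apply IrrS_ext h2 h3
    intro x
    have := congrFun h (φ.symm x)
    simpa using this
  · rintro ϑ ⟨h2, h3⟩
    obtain ⟨a, ha, hae⟩ := exists_IrrS (LL (stab c) α) (irr_comp_equiv φ.symm h2)
    have e : (fun t : T0 => a (φ t)) = ϑ := by
      funext t
      rw [hae]
      exact congrArg ϑ (φ.symm_apply_apply t)
    refine ⟨a, ⟨ha, (hLab a ha).2 ?_⟩, e⟩
    rw [e]
    exact h3

end Pool.Agent.Helper79_WRA.H46
end
end -- Pool.Agent.Helper46_WRA.Res1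

section -- Pool.Agent.Helper46_WRA.Resum

/-!
WRA, module RESUM: resummation over the families of characters of defect zero.
-/

open scoped BigOperators

noncomputable section

namespace Pool.Agent.Helper79_WRA.H46

open Pool.Agent.Helper51_AWC

/-! ### The subgroups of `U0` inside `L`, conjugated by `l` -/

section emb

variable {L : Type} [Group L]

/-- `E ↦ l E l⁻¹` from the subgroups of `U0` to those of `L` -/
def emb (U0 : Subgroup L) (l : L) : Subgroup U0 ↪o Subgroup L :=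
  OrderEmbedding.ofMapLEIff (fun E => conjS l (E.map U0.subtype)) (by
    intro E F
    rw [conjS_mono, Subgroup.map_le_map_iff_of_injective U0.subtype_injective])

theorem emb_apply (U0 : Subgroup L) (l : L) (E : Subgroup U0) :
    emb U0 l E = conjS l (E.map U0.subtype) := rfl

theorem conjS_emb (U0 : Subgroup L) (l : L) (E : Subgroup U0) :
    conjS l⁻¹ (emb U0 l E) = E.map U0.subtype := by
  rw [emb_apply, conjS_conjS, inv_mul_cancel, conjS_one]

theorem emb_subgroupOf {U0 : Subgroup L} {l : L} {D : Subgroup L} (h : conjS l⁻¹ D ≤ U0) :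
    emb U0 l ((conjS l⁻¹ D).subgroupOf U0) = D := by
  rw [emb_apply, Subgroup.map_subgroupOf_eq_of_le h, conjS_conjS, mul_inv_cancel, conjS_one]

theorem emb_bot (U0 : Subgroup L) (l : L) : emb U0 l ⊥ = ⊥ := by
  rw [emb_apply, Subgroup.map_bot]
  exact Subgroup.map_bot _

open Classical in
theorem inU_emb (U0 : Subgroup L) (l : L) (e : Finset (Subgroup U0)) :
    inU U0 ((e.map (emb U0 l).toEmbedding).image (conjS l⁻¹)) = e := by
  unfold inU
  ext E
  rw [Finset.mem_image]
  constructor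
  · rintro ⟨E', hE', rfl⟩
    obtain ⟨D, hD, rfl⟩ := Finset.mem_image.1 hE'
    obtain ⟨F, hF, rfl⟩ := Finset.mem_map.1 hD
    have h1 : (conjS l⁻¹ ((emb U0 l).toEmbedding F)).subgroupOf U0 = F := by
      show (conjS l⁻¹ (emb U0 l F)).subgroupOf U0 = F
      rw [conjS_emb]
      exact Subgroup.comap_map_eq_self_of_injective U0.subtype_injective F
    rw [h1]; exact hF
  · intro hE
    refine ⟨E.map U0.subtype, Finset.mem_image.2
      ⟨emb U0 l E, Finset.mem_map_of_mem _ hE, conjS_emb U0 l E⟩, ?_⟩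
    exact Subgroup.comap_map_eq_self_of_injective U0.subtype_injective E

open Classical in
theorem psubIn_map_emb [Finite L] (ℓ : ℕ) (U0 : Subgroup L) (l : L) :
    (psubIn ℓ (⊤ : Subgroup U0)).map (emb U0 l).toEmbedding =
      (psubIn ℓ (⊤ : Subgroup L)).filter (fun D => conjS l⁻¹ D ≤ U0) := by
  ext D
  rw [Finset.mem_map, Finset.mem_filter, mem_psubIn]
  constructor
  · rintro ⟨E, hE, rfl⟩
    rw [mem_psubIn] at hE
    refine ⟨⟨le_top, ?_⟩, ?_⟩
    · exact (hE.2.map _).map _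
    · show conjS l⁻¹ (emb U0 l E) ≤ U0
      rw [conjS_emb]
      exact Subgroup.map_subtype_le E
  · rintro ⟨⟨-, h1⟩, h2⟩
    refine ⟨(conjS l⁻¹ D).subgroupOf U0, ?_, emb_subgroupOf h2⟩
    rw [mem_psubIn]
    exact ⟨le_top, (conjS_pgroup h1).comap_of_injective _ U0.subtype_injective⟩

open Classical in
theorem sum_chain_emb [Finite L] (ℓ : ℕ) (U0 : Subgroup L) (l : L)
    (w : Finset (Subgroup U0) → ℤ) :
    ∑ c ∈ (chainsOn (psubIn ℓ (⊤ : Subgroup L)) ⊥).filter (fun c => ∀ D ∈ c, conjS l⁻¹ D ≤ U0),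
      (-1) ^ (c.card + 1) * w (inU U0 (c.image (conjS l⁻¹))) =
    ∑ e ∈ chainsOn (psubIn ℓ (⊤ : Subgroup U0)) ⊥, (-1) ^ (e.card + 1) * w e := by
  have h1 : (chainsOn (psubIn ℓ (⊤ : Subgroup L)) ⊥).filter
      (fun c => ∀ D ∈ c, conjS l⁻¹ D ≤ U0) =
      chainsOn ((psubIn ℓ (⊤ : Subgroup U0)).map (emb U0 l).toEmbedding) (emb U0 l ⊥) := by
    ext c
    rw [Finset.mem_filter, mem_chainsOn, mem_chainsOn, psubIn_map_emb, emb_bot]
    constructor
    · rintro ⟨⟨a1, a2, a3⟩, a4⟩
      exact ⟨fun D hD => Finset.mem_filter.2 ⟨a1 hD, a4 D hD⟩, a2, a3⟩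
    · rintro ⟨a1, a2, a3⟩
      exact ⟨⟨fun D hD => (Finset.mem_filter.1 (a1 hD)).1, a2, a3⟩,
        fun D hD => (Finset.mem_filter.1 (a1 hD)).2⟩
  rw [h1, sum_chainsOn_map]
  refine Finset.sum_congr rfl fun e _ => ?_
  rw [Finset.card_map, inU_emb]

end emb

/-! ### Twists of families -/

section tw

variable {ℓ : ℕ} [hℓ : Fact ℓ.Prime] {M : Ideal (integralClosure ℤ ℂ)} [hM : M.IsMaximal]
  {G : Type} [Group G] [Finite G]

omit hℓ hM in
theorem dz_finite : (DZ ℓ M G).Finite := by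
  have := Fintype.ofFinite G
  exact irr_finite'.subset fun _ h => h.1

theorem tw_surj (hDzt : DztStmt) (hDzu : DzuStmt) (hℓM : (ℓ : integralClosure ℤ ℂ) ∈ M)
    (hG : opCore ℓ G = ⊥) (n : ℕ) {η : G → ℂ} (hη : η ∈ DZ ℓ M G) :
    ∃ ξ ∈ DZ ℓ M G, η 1 = ξ 1 ∧ IsTw ℓ M n ξ η := by
  have H := hDzt ℓ M hℓM G hG
  choose! f hf using fun (ξ : G → ℂ) (hξ : ξ ∈ DZ ℓ M G) => H ξ hξ n
  have hfin : Finite (DZ ℓ M G) := dz_finite (ℓ := ℓ) (M := M) (G := G)
  let g : DZ ℓ M G → DZ ℓ M G := fun ξ => ⟨f ξ, (hf ξ ξ.2).1⟩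
  have hg : Function.Injective g := by
    intro ξ ξ' h
    apply Subtype.ext
    refine hDzu ℓ M hℓM G hG _ ξ.2 _ ξ'.2.1 ?_
    funext y
    apply red_field hℓM (n := n)
    rw [← (hf ξ ξ.2).2.2 y, ← (hf ξ' ξ'.2).2.2 y]
    have : f ξ = f ξ' := congrArg Subtype.val h
    rw [this]
  obtain ⟨ξ, hξ⟩ := (Finite.injective_iff_surjective.1 hg) ⟨η, hη⟩
  have h1 : f ξ = η := congrArg Subtype.val hξ
  refine ⟨ξ, ξ.2, ?_, ?_⟩
  · rw [← h1]; exact (hf ξ ξ.2).2.1
  · rw [← h1]; exact (hf ξ ξ.2).2.2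

variable {L : Type} [Group L] {Ω : Type} [Finite Ω] [MulAction L Ω] {c : Finset (Subgroup L)}

theorem alpha_unique (hDzu : DzuStmt) (hℓM : (ℓ : integralClosure ℤ ℂ) ∈ M)
    (hG : opCore ℓ G = ⊥) (hP : IsPGroup ℓ (topP c)) {β : Ω → G → ℂ} {α α' : Dl c Ω → G → ℂ}
    (h : TwPair ℓ M (qq c) β α) (h' : TwPair ℓ M (qq c) β α') : α = α' := by
  funext j
  obtain ⟨i, rfl⟩ := qq_surjective c j
  obtain ⟨n, hn⟩ := card_fibre (ℓ := ℓ) hP i
  refine hDzu ℓ M hℓM G hG _ (h.dz' _) _ (h'.dz' _).1 ?_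
  funext g
  rw [h.tw i n hn g, h'.tw i n hn g]

theorem beta_unique (hDzu : DzuStmt) (hℓM : (ℓ : integralClosure ℤ ℂ) ∈ M)
    (hG : opCore ℓ G = ⊥) (hP : IsPGroup ℓ (topP c)) {β β' : Ω → G → ℂ} {α : Dl c Ω → G → ℂ}
    (h : TwPair ℓ M (qq c) β α) (h' : TwPair ℓ M (qq c) β' α) : β = β' := by
  funext i
  obtain ⟨n, hn⟩ := card_fibre (ℓ := ℓ) hP i
  refine hDzu ℓ M hℓM G hG _ (h.dz _) _ (h'.dz _).1 ?_
  funext g
  apply red_field hℓM (n := n)
  rw [← h.tw i n hn g, ← h'.tw i n hn g]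

theorem exists_alpha (hDzt : DztStmt) (hℓM : (ℓ : integralClosure ℤ ℂ) ∈ M)
    (hG : opCore ℓ G = ⊥) (hP : IsPGroup ℓ (topP c)) {β : Ω → G → ℂ}
    (hβ : ∀ i, β i ∈ DZ ℓ M G)
    (hfib : ∀ i i' : Ω, (qq c i : Dl c Ω) = qq c i' → β i = β i') :
    ∃ α, TwPair ℓ M (qq c) β α := by
  choose r hr using qq_surjective (Ω := Ω) c
  choose n hn using fun i : Ω => card_fibre (ℓ := ℓ) hP i
  choose f hf using fun j : Dl c Ω => hDzt ℓ M hℓM G hG (β (r j)) (hβ _) (n (r j))
  have e1 : ∀ i, β (r (qq c i)) = β i := fun i => hfib _ _ (hr _)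
  refine ⟨f, hβ, fun j => (hf j).1, hfib, ?_, ?_⟩
  · intro i m hm
    have h1 : ℓ ^ m = ℓ ^ n (r (qq c i)) := by
      rw [← hm, ← hn (r (qq c i)), hr]
    have h2 : m = n (r (qq c i)) := Nat.pow_right_injective hℓ.out.two_le h1
    have h3 := (hf (qq c i)).2.2
    rw [e1, ← h2] at h3
    exact h3
  · intro i
    rw [(hf (qq c i)).2.1, e1]

theorem exists_beta (hDzt : DztStmt) (hDzu : DzuStmt) (hℓM : (ℓ : integralClosure ℤ ℂ) ∈ M)
    (hG : opCore ℓ G = ⊥) (hP : IsPGroup ℓ (topP c)) {α : Dl c Ω → G → ℂ}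
    (hα : ∀ j, α j ∈ DZ ℓ M G) : ∃ β : Ω → G → ℂ, TwPair ℓ M (qq c) β α := by
  choose r hr using qq_surjective (Ω := Ω) c
  choose n hn using fun i : Ω => card_fibre (ℓ := ℓ) hP i
  choose f hf using fun j : Dl c Ω => tw_surj hDzt hDzu hℓM hG (n (r j)) (hα j)
  refine ⟨fun i => f (qq c i), fun i => (hf _).1, hα, ?_, ?_, ?_⟩
  · intro i i' h
    show f (qq c i) = f (qq c i')
    rw [h]
  · intro i m hm
    have h1 : ℓ ^ m = ℓ ^ n (r (qq c i)) := by
      rw [← hm, ← hn (r (qq c i)), hr]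
    have h2 : m = n (r (qq c i)) := Nat.pow_right_injective hℓ.out.two_le h1
    rw [h2]
    exact (hf (qq c i)).2.2
  · intro i
    exact (hf (qq c i)).2.1

end tw

theorem tr_tr {G Ω L : Type} [Group L] [MulAction L Ω] (l l' : L) (β : Ω → G → ℂ) :
    tr l (tr l' β) = tr (l * l') β := by
  funext i
  unfold tr
  rw [mul_inv_rev, mul_smul]

theorem tr_one {G Ω L : Type} [Group L] [MulAction L Ω] (β : Ω → G → ℂ) :
    tr (1 : L) β = β := by
  funext i
  unfold tr
  rw [inv_one, one_smul]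

theorem mem_LL_iff_tr {G Ω L : Type} [Group G] [Group L] [MulAction L Ω] {β : Ω → G → ℂ}
    (hβ : ∀ i, β i ∈ Irr G) {h : L} : h ∈ LL L β ↔ tr h β = β := by
  rw [mem_LL hβ]
  exact ⟨fun H => funext H, fun H i => congrFun H i⟩

/-- the chains whose members are conjugate into `U0` by `l⁻¹` -/
theorem fib_iff {ℓ : ℕ} {G Ω L : Type} [Group G] [Group L] [MulAction L Ω] [Finite L]
    {αs : Ω → G → ℂ} (hαs : ∀ i, αs i ∈ Irr G) {c : Finset (Subgroup L)}
    (hc : c ∈ chainsOn (psubIn ℓ (⊤ : Subgroup L)) ⊥) (l : L) :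
    (∀ D ∈ c, conjS l⁻¹ D ≤ LL L αs) ↔
      ∀ i i' : Ω, (qq c i : Dl c Ω) = qq c i' → tr l αs i = tr l αs i' := by
  obtain ⟨-, hc2, hc3⟩ := mem_chainsOn.1 hc
  have hPmem : topP c ∈ c := topP_mem ⟨_, hc2⟩ hc3
  have hI : ∀ i, tr l αs i ∈ Irr G := fun i => hαs _
  have h1 : (∀ D ∈ c, conjS l⁻¹ D ≤ LL L αs) ↔ topP c ≤ LL L (tr l αs) := by
    rw [LL_tr hαs]
    constructor
    · intro H x hx
      have h2 := H _ hPmem (mem_conjS'.2 hx)
      rw [mem_conjS]
      simpa using h2
    · intro H D hD x hx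
      rw [mem_conjS, inv_inv] at hx
      exact mem_conjS'.1 (H (le_topP hD hx))
  rw [h1]
  constructor
  · intro H i i' h
    obtain ⟨p, hp, rfl⟩ := qq_eq_iff.1 h
    have h2 := (mem_LL hI).1 (H hp) (p • i)
    rw [inv_smul_smul] at h2
    exact h2
  · intro H p hp
    rw [mem_LL hI]
    intro j
    apply H
    rw [qq_eq_iff]
    exact ⟨p, hp, by rw [smul_inv_smul]⟩

open Classical in
/-- the claim for one chain -/
theorem chain_sum (hBma : BmaStmt) (hBmb : BmbStmt) (hRes1 : Res1Stmt) (hDzt : DztStmt)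
    (hDzu : DzuStmt) {ℓ : ℕ} [hℓ : Fact ℓ.Prime] {M : Ideal (integralClosure ℤ ℂ)}
    [hM : M.IsMaximal] (hℓM : (ℓ : integralClosure ℤ ℂ) ∈ M) {G : Type} [Group G] [Finite G]
    (hG : opCore ℓ G = ⊥) {Ω L : Type} [Fintype Ω] [Group L] [Fintype L] [MulAction L Ω]
    {χ : Wreath G Ω L → ℂ} {αs : Ω → G → ℂ} {μ : L → ℂ} (hχ : χ ∈ Irr (Wreath G Ω L))
    (hαs : ∀ i, αs i ∈ DZ ℓ M G) (hμ : μ ∈ IrrS (LL L αs))
    (hval : ∀ Φ : Wreath G Ω L → ℂ, (∀ x y, Φ (y * x * y⁻¹) = Φ x) →
      val Φ χ = val Φ (et αs μ))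
    {c : Finset (Subgroup L)} (hc : c ∈ chainsOn (psubIn ℓ (⊤ : Subgroup L)) ⊥) :
    (Nat.card (LL L αs) : ℤ) *
      ∑ᶠ (α : Dl c Ω → G → ℂ) (_ : α ∈ dzFun ℓ M G (Dl c Ω)),
          (Nat.card (LL (stab c) α) : ℤ) *
            (({lam | lam ∈ IrrS (LL (stab c) α) ∧ GoodC M c χ α lam}.ncard : ℕ) : ℤ) =
      ∑ l : L, if (∀ D ∈ c, conjS l⁻¹ D ≤ LL L αs) then
        (weight M (resT (LL L αs) μ) (inU (LL L αs) (c.image (conjS l⁻¹))) : ℤ) else 0 := by
  have hαI : ∀ i, αs i ∈ Irr G := fun i => (hαs i).1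
  obtain ⟨hc1, hc2, hc3⟩ := mem_chainsOn.1 hc
  have hPmem : topP c ∈ c := topP_mem ⟨_, hc2⟩ hc3
  have hP : IsPGroup ℓ (topP c) := (mem_psubIn.1 (hc1 hPmem)).2
  set P : L → Prop := fun l => ∀ D ∈ c, conjS l⁻¹ D ≤ LL L αs with hPdef
  set W : (Dl c Ω → G → ℂ) → ℤ := fun α => (Nat.card (LL (stab c) α) : ℤ) *
    (({lam | lam ∈ IrrS (LL (stab c) α) ∧ GoodC M c χ α lam}.ncard : ℕ) : ℤ) with hW
  have hfib : ∀ l, P l ↔
      ∀ i i' : Ω, (qq c i : Dl c Ω) = qq c i' → tr l αs i = tr l αs i' :=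
    fun l => fib_iff hαI hc l
  have hex : ∀ l : L, P l → ∃ α, TwPair ℓ M (qq c) (tr l αs) α := fun l hl =>
    exists_alpha hDzt hℓM hG hP (fun i => hαs _) ((hfib l).1 hl)
  choose! A hA using hex
  have hWA : ∀ l, P l → W (A l) =
      (weight M (resT (LL L αs) μ) (inU (LL L αs) (c.image (conjS l⁻¹))) : ℤ) := by
    intro l hl
    rw [← hRes1 ℓ M hℓM G hG Ω L αs μ hαs hμ c hc (tr l αs) (A l) (hA l hl) l rfl]
    have hset : {lam | lam ∈ IrrS (LL (stab c) (A l)) ∧ GoodC M c χ (A l) lam} =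
        {lam | lam ∈ IrrS (LL (stab c) (A l)) ∧
          LabC M c (LL L (tr l αs)) lam (fun x => μ (l⁻¹ * x * l))} := by
      ext lam
      constructor
      · rintro ⟨h1, h2⟩
        exact ⟨h1, (hBma ℓ M hℓM G hG Ω L χ αs μ hχ hαs hμ hval c hc (tr l αs) (A l)
          (hA l hl) lam h1 h2).2 l rfl⟩
      · rintro ⟨h1, h2⟩
        exact ⟨h1, hBmb ℓ M hℓM G hG Ω L χ αs μ hχ hαs hμ hval c hc (tr l αs) (A l)
          (hA l hl) lam h1 l rfl h2⟩
    rw [hW]
    simp only
    rw [hset]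
    push_cast
    rfl
  have hR : (∑ l : L, if P l then
        (weight M (resT (LL L αs) μ) (inU (LL L αs) (c.image (conjS l⁻¹))) : ℤ) else 0) =
      ∑ l ∈ Finset.univ.filter P, W (A l) := by
    rw [Finset.sum_filter]
    refine Finset.sum_congr rfl fun l _ => ?_
    by_cases hl : P l
    · rw [if_pos hl, if_pos hl, hWA l hl]
    · rw [if_neg hl, if_neg hl]
  rw [hR, Finset.sum_comp W A]
  have hL : (∑ᶠ (α : Dl c Ω → G → ℂ) (_ : α ∈ dzFun ℓ M G (Dl c Ω)), W α) =
      ∑ α ∈ (Finset.univ.filter P).image A, W α := by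
    apply finsum_mem_eq_sum_of_inter_support_eq
    ext α
    constructor
    · rintro ⟨h1, h2⟩
      refine ⟨?_, h2⟩
      obtain ⟨β, hβ⟩ := exists_beta hDzt hDzu hℓM hG hP h1
      have hne : {lam | lam ∈ IrrS (LL (stab c) α) ∧ GoodC M c χ α lam}.Nonempty := by
        by_contra hcon
        rw [Set.not_nonempty_iff_eq_empty] at hcon
        apply h2
        show (Nat.card (LL (stab c) α) : ℤ) *
          (({lam | lam ∈ IrrS (LL (stab c) α) ∧ GoodC M c χ α lam}.ncard : ℕ) : ℤ) = 0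
        rw [hcon]
        simp
      obtain ⟨lam, h3, h4⟩ := hne
      obtain ⟨l, hl⟩ := (hBma ℓ M hℓM G hG Ω L χ αs μ hχ hαs hμ hval c hc β α
        hβ lam h3 h4).1
      subst hl
      have hPl : P l := (hfib l).2 hβ.fib
      rw [Finset.mem_coe, Finset.mem_image]
      exact ⟨l, Finset.mem_filter.2 ⟨Finset.mem_univ _, hPl⟩,
        alpha_unique hDzu hℓM hG hP (hA l hPl) hβ⟩
    · rintro ⟨h1, h2⟩
      refine ⟨?_, h2⟩
      rw [Finset.mem_coe, Finset.mem_image] at h1
      obtain ⟨l, hl, rfl⟩ := h1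
      exact fun j => (hA l (Finset.mem_filter.1 hl).2).dz' j
  rw [hL, Finset.mul_sum]
  refine Finset.sum_congr rfl fun α hα => ?_
  obtain ⟨l0, hl0, rfl⟩ := Finset.mem_image.1 hα
  have hPl0 : P l0 := (Finset.mem_filter.1 hl0).2
  have hcard : ((Finset.univ.filter P).filter (fun l => A l = A l0)).card =
      Nat.card (LL L αs) := by
    rw [Nat.card_eq_fintype_card, ← Finset.card_univ]
    refine Finset.card_bij' (fun l hl => ⟨l0⁻¹ * l, ?_⟩) (fun u _ => l0 * (u : L)) ?_ ?_ ?_ ?_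
    · rw [Finset.mem_filter, Finset.mem_filter] at hl
      have h1 := hA l hl.1.2
      rw [hl.2] at h1
      have h2 := beta_unique hDzu hℓM hG hP h1 (hA l0 hPl0)
      rw [mem_LL_iff_tr hαI, ← tr_tr, h2, tr_tr, inv_mul_cancel, tr_one]
    · intro l hl
      exact Finset.mem_univ _
    · intro u _
      have h1 : tr (l0 * (u : L)) αs = tr l0 αs := by
        rw [← tr_tr, (mem_LL_iff_tr hαI).1 u.2]
      have h2 : P (l0 * (u : L)) := by
        rw [hfib, h1]
        exact (hfib l0).1 hPl0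
      have h3 := hA _ h2
      rw [h1] at h3
      rw [Finset.mem_filter, Finset.mem_filter]
      exact ⟨⟨Finset.mem_univ _, h2⟩, alpha_unique hDzu hℓM hG hP h3 (hA l0 hPl0)⟩
    · intro l hl
      simp
    · intro u hu
      simp
  rw [hcard, nsmul_eq_mul]

theorem resum (hBma : BmaStmt) (hBmb : BmbStmt) (hRes1 : Res1Stmt) (hDzt : DztStmt)
    (hDzu : DzuStmt) : ResumStmt := by
  intro ℓ hℓ M hM hℓM G _ _ hG Ω L _ _ _ _ χ αs μ hχ hαs hμ hval
  classical
  have := Fintype.ofFinite L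
  have e1 : ∀ c ∈ chainsOn (psubIn ℓ (⊤ : Subgroup L)) ⊥,
      (Nat.card (LL L αs) : ℤ) * ((-1) ^ (c.card + 1) *
        ∑ᶠ (α : Dl c Ω → G → ℂ) (_ : α ∈ dzFun ℓ M G (Dl c Ω)),
          (Nat.card (LL (stab c) α) : ℤ) *
            (({lam | lam ∈ IrrS (LL (stab c) α) ∧ GoodC M c χ α lam}.ncard : ℕ) : ℤ)) =
      ∑ l : L, if (∀ D ∈ c, conjS l⁻¹ D ≤ LL L αs) then (-1) ^ (c.card + 1) *
        (weight M (resT (LL L αs) μ) (inU (LL L αs) (c.image (conjS l⁻¹))) : ℤ) else 0 := by
    intro c hc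
    have h1 := chain_sum hBma hBmb hRes1 hDzt hDzu hℓM hG hχ hαs hμ hval hc
    rw [mul_left_comm, h1, Finset.mul_sum]
    refine Finset.sum_congr rfl fun l _ => ?_
    rw [mul_ite, mul_zero]
  rw [Finset.mul_sum, Finset.sum_congr rfl e1, Finset.sum_comm]
  have e2 : ∀ l : L, (∑ c ∈ chainsOn (psubIn ℓ (⊤ : Subgroup L)) ⊥,
      if (∀ D ∈ c, conjS l⁻¹ D ≤ LL L αs) then (-1) ^ (c.card + 1) *
        (weight M (resT (LL L αs) μ) (inU (LL L αs) (c.image (conjS l⁻¹))) : ℤ) else 0) =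
      sum0 ℓ M (resT (LL L αs) μ) := by
    intro l
    rw [← Finset.sum_filter]
    unfold sum0
    convert sum_chain_emb ℓ (LL L αs) l (fun e => (weight M (resT (LL L αs) μ) e : ℤ)) using 2
    ext c
    simp only [Finset.mem_filter]
  rw [Finset.sum_congr rfl (fun l _ => e2 l), Finset.sum_const, nsmul_eq_mul,
    Finset.card_univ, Nat.card_eq_fintype_card]

end Pool.Agent.Helper79_WRA.H46
end
end -- Pool.Agent.Helper46_WRA.Resum

section -- Pool.Agent.Helper62_WRA.Dz1

/-!
WRA, module DZDET, part 1: central elements supported on the base group.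
-/

open scoped BigOperators

noncomputable section

namespace Pool.Agent.Helper79_WRA.H62

open Pool.Agent.Helper51_AWC Pool.Agent.Helper79_WRA

/-- class functions act as scalars on irreducible representations -/
theorem irr_scalar {G : Type} [Group G] [Fintype G] {χ : G → ℂ} (hχ : χ ∈ Irr G) (Z : G → ℂ)
    (hZ : ∀ g h, Z (h * g * h⁻¹) = Z g) (x : G) :
    ∑ y, Z y * χ (y * x) = (∑ y, Z y * χ y) / χ 1 * χ x := by
  have h1 := irr_one_ne hχ
  obtain ⟨n, ρ, hρ, rfl⟩ := hχ
  obtain ⟨c, hc⟩ := act_scalar ρ Z hZ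
  have h2 := act_trace ρ Z
  rw [hc, map_smul, smul_eq_mul] at h2
  have h3 : LinearMap.trace ℂ (Fin n → ℂ) LinearMap.id = ρ.character 1 := by
    rw [Representation.character, map_one]; rfl
  rw [h3] at h2
  have h4 : LinearMap.trace ℂ (Fin n → ℂ) (act ρ Z * ρ x) = ∑ y, Z y * ρ.character (y * x) := by
    unfold act
    rw [Finset.sum_mul, map_sum]
    refine Finset.sum_congr rfl fun y _ => ?_
    rw [smul_mul_assoc, map_smul, smul_eq_mul, ← map_mul]
    rfl
  rw [← h4, hc, ← h2, mul_div_assoc, div_self h1, mul_one]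
  rw [smul_mul_assoc, map_smul, smul_eq_mul]
  rfl

/-- the sum over the classes -/
theorem val_classes {G : Type} [Group G] [Fintype G] [Fintype (ConjClasses G)] {F α : G → ℂ}
    (hF : ∀ g h, F (h * g * h⁻¹) = F g) :
    (∑ y, F y * α y) / α 1 =
      ∑ C : ConjClasses G, F (Quotient.out C) * omega (MonoidHom.id G) α (Quotient.out C) := by
  classical
  rw [← Finset.sum_fiberwise Finset.univ (fun g : G => ConjClasses.mk g), Finset.sum_div]
  refine Finset.sum_congr rfl fun C _ => ?_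
  have hC : ConjClasses.mk (Quotient.out C) = C := Quotient.out_eq C
  rw [omega_eq, ← mul_div_assoc, Finset.mul_sum, Finset.sum_filter]
  congr 1
  refine Finset.sum_congr rfl fun g _ => ?_
  have e : ConjClasses.mk g = C ↔ IsConj (Quotient.out C) g := by
    conv_lhs => rw [← hC]
    rw [ConjClasses.mk_eq_mk_iff_isConj]
    exact ⟨fun h => h.symm, fun h => h.symm⟩
  by_cases h : IsConj (Quotient.out C) g
  · rw [if_pos (e.2 h), MonoidHom.id_apply, if_pos h]
    obtain ⟨c, hc⟩ := isConj_iff.1 h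
    rw [← hc, hF]
  · rw [if_neg (fun hh => h (e.1 hh)), MonoidHom.id_apply, if_neg h, mul_zero]

theorem val_classes_integral {G : Type} [Group G] [Fintype G] {F α : G → ℂ}
    (hF : ∀ g h, F (h * g * h⁻¹) = F g) (hFi : ∀ g, IsIntegral ℤ (F g))
    (hα : ∀ g, IsIntegral ℤ (omega (MonoidHom.id G) α g)) :
    IsIntegral ℤ ((∑ y, F y * α y) / α 1) := by
  have : Fintype (ConjClasses G) := Fintype.ofFinite _
  rw [val_classes hF]
  apply IsIntegral.sum
  intro C _
  exact (hFi _).mul (hα _)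

theorem red_val_classes {G : Type} [Group G] [Fintype G] [Fintype (ConjClasses G)]
    (M : Ideal (integralClosure ℤ ℂ)) {F α : G → ℂ}
    (hF : ∀ g h, F (h * g * h⁻¹) = F g) (hFi : ∀ g, IsIntegral ℤ (F g))
    (hα : ∀ g, IsIntegral ℤ (omega (MonoidHom.id G) α g)) :
    red M ((∑ y, F y * α y) / α 1) =
      ∑ C : ConjClasses G, red M (F (Quotient.out C)) * labF M α (Quotient.out C) := by
  rw [val_classes hF, red_sum]
  · apply Finset.sum_congr rfl
    intro C _
    rw [red_mul (hFi _) (hα _)]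
    rfl
  · intro C _
    exact (hFi _).mul (hα _)

open Classical in
/-- the indicator of a class -/
def indC {Γ : Type} [Group Γ] (g x : Γ) : ℂ := if IsConj g x then 1 else 0

open Classical in
/-- a class function is a combination of indicators of classes -/
theorem expand_classes {G : Type} [Group G] [Fintype (ConjClasses G)] {F : G → ℂ}
    (hF : ∀ g h, F (h * g * h⁻¹) = F g) (x : G) :
    F x = ∑ C : ConjClasses G, F (Quotient.out C) * indC (Quotient.out C) x := by
  unfold indC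
  have h1 : IsConj x (Quotient.out (ConjClasses.mk x)) :=
    ConjClasses.mk_eq_mk_iff_isConj.1 (Quotient.out_eq (ConjClasses.mk x)).symm
  have h2 : ∀ C : ConjClasses G, F (Quotient.out C) *
      (if IsConj (Quotient.out C) x then (1 : ℂ) else 0) =
      if C = ConjClasses.mk x then F x else 0 := by
    intro C
    by_cases hC : C = ConjClasses.mk x
    · subst hC
      rw [if_pos h1.symm, if_pos rfl, mul_one]
      obtain ⟨y, hy⟩ := isConj_iff.1 h1
      rw [← hy, hF]
    · rw [if_neg hC, if_neg, mul_zero]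
      intro h
      apply hC
      rw [← ConjClasses.mk_eq_mk_iff_isConj.2 h]
      exact (Quotient.out_eq C).symm
  rw [Finset.sum_congr rfl fun C _ => h2 C, Finset.sum_ite_eq']
  simp

section wreath
variable {G Ω L : Type} [Group G] [Group L] [MulAction L Ω]

open Classical in
/-- the central element of the base group attached to `f` -/
def zf [Fintype Ω] (f : G → ℂ) (x : Wreath G Ω L) : ℂ := if x.s = 1 then ∏ i, f (x.f i) else 0

theorem zf_class [Fintype Ω] {f : G → ℂ} (hf : ∀ g h, f (h * g * h⁻¹) = f g)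
    (x y : Wreath G Ω L) : zf f (y * x * y⁻¹) = zf f x := by
  unfold zf
  have e1 : (y * x * y⁻¹).s = 1 ↔ x.s = 1 := by
    rw [Wreath.conj_s]
    exact conj_eq_one_iff
  by_cases h : x.s = 1
  · rw [if_pos (e1.2 h), if_pos h]
    have e2 : ∀ i, f ((y * x * y⁻¹).f i) = f (x.f (y.s⁻¹ • i)) := by
      intro i
      rw [Wreath.conj_f, h]
      simp only [inv_one, mul_one, mul_inv_cancel, one_smul]
      exact hf _ _
    simp only [e2]
    exact Equiv.prod_comp (MulAction.toPerm (y.s⁻¹)) (fun i => f (x.f i))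
  · rw [if_neg (fun hh => h (e1.1 hh)), if_neg h]

omit [Group G] [MulAction L Ω] in
theorem zf_integral [Fintype Ω] {f : G → ℂ} (hf : ∀ g, IsIntegral ℤ (f g)) (x : Wreath G Ω L) :
    IsIntegral ℤ (zf f x) := by
  unfold zf
  split_ifs
  · exact IsIntegral.prod _ fun i _ => hf _
  · exact isIntegral_zero

open Classical in
theorem sum_base [Fintype (Wreath G Ω L)] [Fintype (Ω → G)] (A : Wreath G Ω L → ℂ) :
    ∑ x : Wreath G Ω L, (if x.s = 1 then A x else 0) = ∑ w : Ω → G, A (Wreath.base w) := by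
  rw [← Finset.sum_filter]
  symm
  apply Finset.sum_bij (fun (w : Ω → G) _ => (Wreath.base w : Wreath G Ω L))
  · intro w _
    rw [Finset.mem_filter]
    exact ⟨Finset.mem_univ _, rfl⟩
  · intro w _ w' _ h
    exact Wreath.base_injective h
  · intro x hx
    refine ⟨x.f, Finset.mem_univ _, ?_⟩
    exact Wreath.ext rfl (Finset.mem_filter.1 hx).2.symm
  · intro w _; rfl

/-- the scalar by which the central element acts on a representation lying over `∏ αs i` -/
theorem val_zf [Finite G] [Fintype Ω] [Finite L] [Fintype G] [Fintype (Wreath G Ω L)]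
    {f : G → ℂ} (hf : ∀ g h, f (h * g * h⁻¹) = f g) {χ : Wreath G Ω L → ℂ}
    (hχ : χ ∈ Irr (Wreath G Ω L)) {αs : Ω → G → ℂ} (hαs : ∀ i, αs i ∈ Irr G)
    (hl : LiesOver χ αs) :
    (∑ x, zf f x * χ x) / χ 1 = ∏ i, (∑ y, f y * αs i y) / αs i 1 := by
  classical
  set c : ℂ := (∑ x, zf f x * χ x) / χ 1 with hc
  let ψ : (Ω → G) → ℂ := piChar αs
  have hψ : ψ ∈ Irr (Ω → G) := piChar_mem hαs
  let ZB : (Ω → G) → ℂ := fun w => ∏ i, f (w i)
  have hZB : ∀ w x : Ω → G, ZB (x * w * x⁻¹) = ZB w := by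
    intro w x
    show ∏ i, f ((x * w * x⁻¹) i) = ∏ i, f (w i)
    refine Finset.prod_congr rfl fun i _ => ?_
    exact hf _ _
  set ω : ℂ := (∑ w, ZB w * ψ w) / ψ 1 with hω
  have hS : ∑ z : Ω → G, χ (Wreath.base z) * ψ z⁻¹ ≠ 0 := by
    unfold LiesOver at hl
    rw [finsum_eq_sum_of_fintype] at hl
    exact hl
  have h1 : ∀ x : Ω → G, ∑ y : Ω → G, ZB y * χ (Wreath.base (y * x)) = c * χ (Wreath.base x) := by
    intro x
    rw [hc, ← irr_scalar hχ (zf f) (fun g h => zf_class hf g h) (Wreath.base x)]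
    have hb := sum_base (fun t : Wreath G Ω L => (∏ i, f (t.f i)) * χ (t * Wreath.base x))
    refine Eq.trans ?_ (hb.symm.trans ?_)
    · refine Finset.sum_congr rfl fun w _ => ?_
      rw [map_mul]
      rfl
    · refine Finset.sum_congr rfl fun t _ => ?_
      unfold zf
      split_ifs
      · rfl
      · rw [zero_mul]
  have h2 : ∀ z : Ω → G, ∑ y : Ω → G, ZB y * ψ (z⁻¹ * y) = ω * ψ z⁻¹ := by
    intro z
    rw [hω, ← irr_scalar hψ ZB hZB]
    refine Finset.sum_congr rfl fun y _ => ?_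
    rw [irr_mul_comm hψ]
  have h3 : ∑ x : Ω → G, (∑ y : Ω → G, ZB y * χ (Wreath.base (y * x))) * ψ x⁻¹ =
      ∑ z : Ω → G, χ (Wreath.base z) * ∑ y : Ω → G, ZB y * ψ (z⁻¹ * y) := by
    simp only [Finset.sum_mul, Finset.mul_sum]
    rw [Finset.sum_comm]
    conv_rhs => rw [Finset.sum_comm]
    refine Finset.sum_congr rfl fun y _ => ?_
    rw [← Equiv.sum_comp (Equiv.mulLeft y)
      (fun z => χ (Wreath.base z) * (ZB y * ψ (z⁻¹ * y)))]
    refine Finset.sum_congr rfl fun x _ => ?_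
    have e : (y * x)⁻¹ * y = x⁻¹ := by group
    simp only [Equiv.coe_mulLeft, e]
    ring
  have h4 : c * ∑ z : Ω → G, χ (Wreath.base z) * ψ z⁻¹ =
      ω * ∑ z : Ω → G, χ (Wreath.base z) * ψ z⁻¹ := by
    calc c * ∑ z : Ω → G, χ (Wreath.base z) * ψ z⁻¹ =
          ∑ x : Ω → G, (∑ y : Ω → G, ZB y * χ (Wreath.base (y * x))) * ψ x⁻¹ := by
          rw [Finset.mul_sum]
          refine Finset.sum_congr rfl fun x _ => ?_
          rw [h1]; ring
      _ = ∑ z : Ω → G, χ (Wreath.base z) * ∑ y : Ω → G, ZB y * ψ (z⁻¹ * y) := h3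
      _ = ω * ∑ z : Ω → G, χ (Wreath.base z) * ψ z⁻¹ := by
          rw [Finset.mul_sum]
          refine Finset.sum_congr rfl fun z _ => ?_
          rw [h2]; ring
  rw [mul_right_cancel₀ hS h4, hω, Finset.prod_div_distrib]
  congr 1
  rw [← sum_pi_prod (fun i y => f y * αs i y)]
  refine Finset.sum_congr rfl fun w _ => ?_
  show (∏ i, f (w i)) * ∏ i, αs i (w i) = _
  rw [← Finset.prod_mul_distrib]

end wreath

end Pool.Agent.Helper79_WRA.H62
end
end -- Pool.Agent.Helper62_WRA.Dz1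

section -- Pool.Agent.Helper62_WRA.Dz2

/-!
WRA, module DZDET, part 2: the residue field is infinite of characteristic `ℓ`; additive
polynomials.
-/

open scoped BigOperators

noncomputable section

namespace Pool.Agent.Helper79_WRA.H62

open Pool.Agent.Helper51_AWC Pool.Agent.Helper79_WRA

theorem infinite_FF (M : Ideal (integralClosure ℤ ℂ)) [hM : M.IsMaximal] : Infinite (FF M) := by
  by_contra hcon
  rw [not_infinite_iff_finite] at hcon
  have hfield : IsField (FF M) := (Ideal.Quotient.maximal_ideal_iff_isField_quotient M).1 hM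
  let _ : Field (FF M) := hfield.toField
  have _ : Finite (FF M) := hcon
  let _ : Fintype (FF M) := Fintype.ofFinite _
  have hN : 1 < Fintype.card (FF M) := Fintype.one_lt_card
  set N := Fintype.card (FF M) with hNdef
  obtain ⟨r, hr⟩ : ∃ r : ℂ, r ^ N - r + 1 = 0 := by
    have hdeg : (Polynomial.X ^ N - Polynomial.X + Polynomial.C 1 : Polynomial ℂ).degree ≠ 0 := by
      have h1 : (Polynomial.X ^ N - Polynomial.X + Polynomial.C 1 : Polynomial ℂ).natDegree = N := by
        rw [show (Polynomial.X ^ N - Polynomial.X + Polynomial.C 1 : Polynomial ℂ) =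
          Polynomial.X ^ N + (-Polynomial.X + Polynomial.C 1) by ring]
        rw [Polynomial.natDegree_add_eq_left_of_natDegree_lt, Polynomial.natDegree_X_pow]
        rw [Polynomial.natDegree_X_pow]
        refine lt_of_le_of_lt ?_ hN
        refine (Polynomial.natDegree_add_le _ _).trans ?_
        simp
      intro h
      have h2 := Polynomial.natDegree_eq_zero_iff_degree_le_zero.2 h.le
      rw [h1] at h2
      omega
    obtain ⟨r, hr⟩ := IsAlgClosed.exists_root _ hdeg
    refine ⟨r, ?_⟩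
    simpa [Polynomial.IsRoot] using hr
  have hint : IsIntegral ℤ r := by
    refine ⟨Polynomial.X ^ N + (-Polynomial.X + Polynomial.C 1), ?_, ?_⟩
    · apply Polynomial.monic_X_pow_add
      refine lt_of_le_of_lt (Polynomial.degree_add_le _ _) ?_
      rw [Polynomial.degree_neg, Polynomial.degree_X, max_lt_iff]
      constructor
      · exact_mod_cast hN
      · refine lt_of_le_of_lt Polynomial.degree_C_le ?_
        exact_mod_cast (zero_lt_one.trans hN)
    · simp only [Polynomial.eval₂_add, Polynomial.eval₂_pow, Polynomial.eval₂_X,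
        Polynomial.eval₂_neg, Polynomial.eval₂_one, map_one]
      linear_combination hr
  have h0 : (⟨r, hint⟩ : integralClosure ℤ ℂ) ^ N - ⟨r, hint⟩ + 1 = 0 := by
    apply Subtype.ext
    exact hr
  have h1 := congrArg (Ideal.Quotient.mk M) h0
  rw [map_add, map_sub, map_pow, map_one, map_zero] at h1
  have h2 : (Ideal.Quotient.mk M ⟨r, hint⟩) ^ N = Ideal.Quotient.mk M ⟨r, hint⟩ :=
    FiniteField.pow_card (K := FF M) _
  rw [h2, sub_self, zero_add] at h1
  exact one_ne_zero h1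

/-- nonzero additive polynomials have a common non-zero -/
theorem exists_nonzero {F σ J : Type} [CommRing F] [IsDomain F] [Infinite F] [Finite σ]
    [Fintype J] (c : J → σ → F) (s : J → ℕ) (hs : ∀ j, s j ≠ 0) (hc : ∀ j, ∃ C, c j C ≠ 0)
    [Fintype σ] : ∃ t : σ → F, ∀ j, ∑ C, c j C * t C ^ s j ≠ 0 := by
  classical
  let P : J → MvPolynomial σ F := fun j =>
    ∑ C, MvPolynomial.monomial (Finsupp.single C (s j)) (c j C)
  have hP : ∀ j, P j ≠ 0 := by
    intro j h0
    obtain ⟨C, hC⟩ := hc j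
    apply hC
    have h1 : MvPolynomial.coeff (Finsupp.single C (s j)) (P j) = c j C := by
      show MvPolynomial.coeff _ (∑ C, MvPolynomial.monomial (Finsupp.single C (s j)) (c j C)) = _
      rw [MvPolynomial.coeff_sum, Finset.sum_eq_single C]
      · rw [MvPolynomial.coeff_monomial, if_pos rfl]
      · intro D _ hD
        rw [MvPolynomial.coeff_monomial, if_neg]
        intro h
        exact hD ((Finsupp.single_left_inj (hs j)).1 h)
      · intro h; exact absurd (Finset.mem_univ _) h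
    rw [← h1, h0, MvPolynomial.coeff_zero]
  have hprod : ∏ j, P j ≠ 0 := Finset.prod_ne_zero_iff.2 fun j _ => hP j
  obtain ⟨t, ht⟩ : ∃ t : σ → F, MvPolynomial.eval t (∏ j, P j) ≠ 0 := by
    by_contra hcon
    push Not at hcon
    apply hprod
    apply MvPolynomial.funext
    intro x
    rw [hcon x, map_zero]
  refine ⟨t, fun j => ?_⟩
  rw [map_prod] at ht
  have := Finset.prod_ne_zero_iff.1 ht j (Finset.mem_univ j)
  have e : MvPolynomial.eval t (P j) = ∑ C, c j C * t C ^ s j := by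
    show MvPolynomial.eval t (∑ C, MvPolynomial.monomial (Finsupp.single C (s j)) (c j C)) = _
    rw [map_sum]
    refine Finset.sum_congr rfl fun C _ => ?_
    rw [MvPolynomial.eval_monomial]
    simp
  rwa [e] at this

end Pool.Agent.Helper79_WRA.H62
end
end -- Pool.Agent.Helper62_WRA.Dz2

section -- Pool.Agent.Helper62_WRA.Dzdet

/-!
WRA, module DZDET.
-/

open scoped BigOperators

noncomputable section

namespace Pool.Agent.Helper79_WRA.H62

open Pool.Agent.Helper51_AWC Pool.Agent.Helper79_WRA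

theorem card_centralizer_conj {G : Type} [Group G] (g h : G) :
    Nat.card (Subgroup.centralizer {h * g * h⁻¹} : Subgroup G) =
      Nat.card (Subgroup.centralizer {g} : Subgroup G) := by
  apply Nat.card_congr
  refine ⟨fun x => ⟨h⁻¹ * x * h, ?_⟩, fun x => ⟨h * x * h⁻¹, ?_⟩, ?_, ?_⟩
  · have := x.2
    rw [Subgroup.mem_centralizer_singleton_iff] at this ⊢
    have e : (h⁻¹ * (x : G) * h) * g = h⁻¹ * ((x : G) * (h * g * h⁻¹)) * h := by group
    rw [e, this]
    group
  · have := x.2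
    rw [Subgroup.mem_centralizer_singleton_iff] at this ⊢
    have e : (h * (x : G) * h⁻¹) * (h * g * h⁻¹) = h * ((x : G) * g) * h⁻¹ := by group
    rw [e, this]
    group
  · intro x; apply Subtype.ext; simp [mul_assoc]
  · intro x; apply Subtype.ext; simp [mul_assoc]

theorem labF_class {G : Type} [Group G] {M : Ideal (integralClosure ℤ ℂ)} (a : G → ℂ)
    {g h : G} (hgh : IsConj g h) : labF M a g = labF M a h := by
  unfold labF omega
  have e : ∀ x, IsConj g ((MonoidHom.id G) x) ↔ IsConj h ((MonoidHom.id G) x) :=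
    fun x => ⟨fun h' => hgh.symm.trans h', fun h' => hgh.trans h'⟩
  simp only [e]

/-- DZDET -/
theorem dzdet : DzDetStmt := by
  intro ℓ hℓp M hM hℓM G Ω L Δ K _ _ _ _ _ _ _ _ _ _ q κ ι hq hκ hι hfib χ hχ αs hαs hl hi v α lam
    hα hext hlam hgood
  have hgood' : ∀ g : Wreath G Ω L, Cong M (val (fun t : Wreath G Δ K => indC g (ι t))
      (eta v α lam)) (omega (MonoidHom.id _) χ g) := hgood
  classical
  have := Fintype.ofFinite G
  have : Fintype (Wreath G Ω L) := Fintype.ofFinite _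
  have : Fintype (Wreath G Δ K) := Fintype.ofFinite _
  have : Fintype (ConjClasses G) := Fintype.ofFinite _
  have : Fintype (ConjClasses (Wreath G Ω L)) := Fintype.ofFinite _
  have hMp : M.IsPrime := hM.isPrime
  have hfield : IsField (FF M) := (Ideal.Quotient.maximal_ideal_iff_isField_quotient M).1 hM
  have hdom : IsDomain (FF M) := Ideal.Quotient.isDomain M
  have hinf : Infinite (FF M) := infinite_FF M
  by_contra hcon
  push Not at hcon
  -- the exponents
  let s : Δ → ℕ := fun j => (Finset.univ.filter (fun i => q i = j)).card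
  have hs0 : ∀ j, s j ≠ 0 := by
    intro j
    obtain ⟨i, hi⟩ := hq j
    exact Finset.card_ne_zero.2 ⟨i, by simp [hi]⟩
  let S : G → Prop := fun g => ¬ ℓ ∣ Nat.card (Subgroup.centralizer {g} : Subgroup G)
  let c : Δ → ConjClasses G → FF M := fun j C =>
    if S (Quotient.out C) then labF M (α j) (Quotient.out C) else 0
  have hout : ∀ g : G, IsConj g (Quotient.out (ConjClasses.mk g)) := fun g =>
    ConjClasses.mk_eq_mk_iff_isConj.1 (Quotient.out_eq (ConjClasses.mk g)).symm
  have hSconj : ∀ g h : G, S (h * g * h⁻¹) ↔ S g := by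
    intro g h
    show ¬ _ ↔ ¬ _
    rw [card_centralizer_conj]
  have hSC : ∀ g h : G, IsConj g h → (S g ↔ S h) := by
    intro g h hgh
    obtain ⟨x, rfl⟩ := isConj_iff.1 hgh
    exact (hSconj g x).symm
  have hc : ∀ j, ∃ C, c j C ≠ 0 := by
    intro j
    obtain ⟨g, hg1, hg2⟩ := hcon j
    refine ⟨ConjClasses.mk g, ?_⟩
    show (if S (Quotient.out (ConjClasses.mk g)) then _ else _) ≠ _
    rw [if_pos ((hSC _ _ (hout g)).1 hg1), ← labF_class (α j) (hout g)]
    exact hg2
  obtain ⟨t, ht⟩ := exists_nonzero c s hs0 hc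
  -- the class function
  have hlift : ∀ x : FF M, ∃ z : integralClosure ℤ ℂ, Ideal.Quotient.mk M z = x :=
    Ideal.Quotient.mk_surjective
  choose lift hlift using hlift
  let f : G → ℂ := fun g => if S g then (lift (t (ConjClasses.mk g)) : ℂ) else 0
  have hf : ∀ g h, f (h * g * h⁻¹) = f g := by
    intro g h
    show (if S (h * g * h⁻¹) then _ else _) = if S g then _ else _
    have e : ConjClasses.mk (h * g * h⁻¹) = ConjClasses.mk g :=
      ConjClasses.mk_eq_mk_iff_isConj.2 (isConj_iff.2 ⟨h, rfl⟩ : IsConj g _).symm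
    rw [e]
    simp only [hSconj]
  have hfi : ∀ g, IsIntegral ℤ (f g) := by
    intro g
    show IsIntegral ℤ (if S g then (lift (t (ConjClasses.mk g)) : ℂ) else 0)
    split_ifs
    · exact (lift _).2
    · exact isIntegral_zero
  have hredf : ∀ g, red M (f g) = if S g then t (ConjClasses.mk g) else 0 := by
    intro g
    show red M (if S g then (lift (t (ConjClasses.mk g)) : ℂ) else 0) = _
    split_ifs
    · rw [red_of (lift _).2]
      exact hlift _
    · exact red_zero
  -- the value at `χ`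
  have hχval := val_zf hf hχ hαs hl
  have hαsint : ∀ i g, IsIntegral ℤ (omega (MonoidHom.id G) (αs i) g) := fun i g =>
    omega_integral _ (hαs i) g
  have hfac : ∀ i, IsIntegral ℤ ((∑ y, f y * αs i y) / αs i 1) := fun i =>
    val_classes_integral hf hfi (hαsint i)
  have hzero : red M ((∑ x, zf f x * χ x) / χ 1) = 0 := by
    rw [hχval, red_prod _ _ fun i _ => hfac i]
    obtain ⟨i, hi⟩ := hi
    refine Finset.prod_eq_zero (Finset.mem_univ i) ?_
    rw [red_val_classes M hf hfi (hαsint i)]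
    refine Finset.sum_eq_zero fun C _ => ?_
    rw [hredf]
    split_ifs with hS
    · rw [hi _ hS, mul_zero]
    · rw [zero_mul]
  -- the value at `eta`
  have hη1 : eta v α lam (1 : Wreath G Δ K) = (∏ j, α j 1) * lam 1 := by
    have h1 : ext K v α (1 : Wreath G Δ K) = ∏ j, α j 1 := by
      have := hext.base 1
      rw [map_one] at this
      exact this
    show ext K v α 1 * lam 1 = _
    rw [h1]
  have hlam1 : lam 1 ≠ 0 := IrrS_one_ne hlam
  have hηval : val (fun t : Wreath G Δ K => zf f (ι t)) (eta v α lam) =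
      ∏ j, (∑ y, f y ^ s j * α j y) / α j 1 := by
    rw [val_eq, hη1]
    have h1 : ∀ t : Wreath G Δ K, zf f (ι t) * eta v α lam t =
        if t.s = 1 then (∏ j, f (t.f j) ^ s j) * (ext K v α t * lam t.s) else 0 := by
      intro t
      unfold zf
      rw [hι]
      have e1 : κ t.s = 1 ↔ t.s = 1 := by
        rw [← map_one κ]; exact hκ.eq_iff
      by_cases h : t.s = 1
      · rw [if_pos (e1.2 h), if_pos h]
        congr 1
        show ∏ i, f (t.f (q i)) = _
        rw [← Finset.prod_fiberwise Finset.univ q]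
        refine Finset.prod_congr rfl fun j _ => ?_
        rw [Finset.prod_congr rfl (g := fun _ => f (t.f j)) (fun i hi => by
          rw [(Finset.mem_filter.1 hi).2]), Finset.prod_const]
      · rw [if_neg (fun hh => h (e1.1 hh)), if_neg h, zero_mul]
    rw [Finset.sum_congr rfl fun t _ => h1 t,
      sum_base (fun t : Wreath G Δ K => (∏ j, f (t.f j) ^ s j) * (ext K v α t * lam t.s))]
    have h2 : ∀ w : Δ → G, (∏ j, f ((Wreath.base w : Wreath G Δ K).f j) ^ s j) *
        (ext K v α (Wreath.base w) * lam (Wreath.base w : Wreath G Δ K).s) =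
        (∏ j, (f (w j) ^ s j * α j (w j))) * lam 1 := by
      intro w
      rw [hext.base w, Finset.prod_mul_distrib, Wreath.base_f, Wreath.base_s]
      ring
    rw [Finset.sum_congr rfl fun w _ => h2 w, ← Finset.sum_mul,
      mul_div_mul_right _ _ hlam1, Finset.prod_div_distrib]
    congr 1
    exact sum_pi_prod (fun j y => f y ^ s j * α j y)
  -- the congruence
  have hcong : Cong M (val (fun t : Wreath G Δ K => zf f (ι t)) (eta v α lam))
      ((∑ x, zf f x * χ x) / χ 1) := by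
    have e1 : ∀ t : Wreath G Δ K, zf f (ι t) =
        ∑ C : ConjClasses (Wreath G Ω L), zf f (Quotient.out C) *
          indC (Quotient.out C) (ι t) := fun t =>
      expand_classes (fun g h => zf_class hf g h) (ι t)
    have e2 : val (fun t : Wreath G Δ K => zf f (ι t)) (eta v α lam) =
        ∑ C : ConjClasses (Wreath G Ω L), zf f (Quotient.out C) *
          val (fun t : Wreath G Δ K => indC (Quotient.out C) (ι t)) (eta v α lam) := by
      simp only [val_eq]
      simp only [← mul_div_assoc, ← Finset.sum_div]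
      congr 1
      simp only [e1, Finset.sum_mul, Finset.mul_sum]
      rw [Finset.sum_comm]
      refine Finset.sum_congr rfl fun C _ => Finset.sum_congr rfl fun t _ => ?_
      rw [mul_assoc]
    rw [e2, val_classes (fun g h => zf_class hf g h)]
    refine Cong.sum _ _ _ fun C _ => ?_
    exact (hgood' (Quotient.out C)).mul_left (zf_integral hfi _)
  -- the contradiction
  have hαint : ∀ j g, IsIntegral ℤ (omega (MonoidHom.id G) (α j) g) := fun j g =>
    omega_IrrS_integral (hα j) g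
  have hfs : ∀ j g h, f (h * g * h⁻¹) ^ s j = f g ^ s j := fun j g h => by rw [hf]
  have hfacj : ∀ j, IsIntegral ℤ ((∑ y, f y ^ s j * α j y) / α j 1) := fun j =>
    val_classes_integral (F := fun y => f y ^ s j) (hfs j) (fun g => (hfi g).pow _) (hαint j)
  have hχint : IsIntegral ℤ ((∑ x, zf f x * χ x) / χ 1) := by
    rw [hχval]
    exact IsIntegral.prod _ fun i _ => hfac i
  have hηint : IsIntegral ℤ (val (fun t : Wreath G Δ K => zf f (ι t)) (eta v α lam)) := by
    rw [hηval]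
    exact IsIntegral.prod _ fun j _ => hfacj j
  have h9 := (red_eq_iff (M := M) hηint hχint).2 hcong
  rw [hzero, hηval, red_prod _ _ fun j _ => hfacj j] at h9
  obtain ⟨j, _, hj⟩ := Finset.prod_eq_zero_iff.1 h9
  apply ht j
  rw [red_val_classes M (F := fun y => f y ^ s j) (hfs j) (fun g => (hfi g).pow _) (hαint j)] at hj
  rw [← hj]
  refine Finset.sum_congr rfl fun C _ => ?_
  have hC : ConjClasses.mk (Quotient.out C) = C := Quotient.out_eq C
  rw [red_pow (hfi _), hredf, hC]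
  show (if S (Quotient.out C) then labF M (α j) (Quotient.out C) else 0) * t C ^ s j = _
  by_cases hS : S (Quotient.out C)
  · rw [if_pos hS, if_pos hS, mul_comm]
  · rw [if_neg hS, if_neg hS, zero_pow (hs0 j), zero_mul, zero_mul]

end Pool.Agent.Helper79_WRA.H62
end
end -- Pool.Agent.Helper62_WRA.Dzdet

section -- Pool.Agent.Helper62_WRA.Fam

/-!
WRA, stage B: families of characters of defect zero, their stabilisers and twists.
-/

open scoped BigOperators

noncomputable section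

namespace Pool.Agent.Helper79_WRA.H62

open Pool.Agent.Helper51_AWC Pool.Agent.Helper79_WRA

section fam

variable {G Ω L : Type} [Group G] [Group L] [MulAction L Ω]

theorem mem_LL {β : Ω → G → ℂ} (hβ : ∀ i, β i ∈ Irr G) {h : L} :
    h ∈ LL L β ↔ ∀ i, β (h⁻¹ • i) = β i := by
  rw [mem_topSt]
  constructor
  · intro H i
    obtain ⟨g, -, hg⟩ := H i
    funext y
    rw [← hg y]
    exact irr_conj (hβ i) y g
  · intro H j
    refine ⟨1, ?_, ?_⟩
    · intro R hR
      unfold triv at hR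
      rw [Finset.mem_singleton] at hR
      subst hR
      exact conjS_one _
    · intro y
      rw [H j]
      simp

omit [Group L] [MulAction L Ω] in
theorem colStab_triv (j : Ω) : colStab (triv G Ω) j = ⊤ := by
  ext g
  rw [mem_colStab]
  simp only [Subgroup.mem_top, iff_true]
  intro R hR
  unfold triv at hR
  rw [Finset.mem_singleton] at hR
  subst hR
  show conjS g ⊥ = ⊥
  unfold conjS
  rw [Subgroup.map_bot]

omit [Group L] [MulAction L Ω] in
theorem isChars_triv {α : Ω → G → ℂ} (hα : ∀ j, α j ∈ Irr G) : IsChars (triv G Ω) α := by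
  intro j
  rw [colStab_triv, mem_IrrS_top]
  exact hα j

omit [Group G] in
theorem tr_tr (l l' : L) (β : Ω → G → ℂ) : tr l (tr l' β) = tr (l * l') β := by
  funext i
  unfold tr
  rw [mul_inv_rev, mul_smul]

omit [Group G] in
theorem tr_one (β : Ω → G → ℂ) : tr (1 : L) β = β := by
  funext i
  unfold tr
  rw [inv_one, one_smul]

omit [Group G] in
theorem tr_inv_eq {l : L} {β β' : Ω → G → ℂ} (h : tr l β = β') : β = tr l⁻¹ β' := by
  rw [← h, tr_tr, inv_mul_cancel, tr_one]

omit [Group G] in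
theorem tr_mem {S : Set (G → ℂ)} {l : L} {β : Ω → G → ℂ} (hβ : ∀ i, β i ∈ S) (i : Ω) :
    tr l β i ∈ S := hβ _

theorem mem_LL_iff_tr {β : Ω → G → ℂ} (hβ : ∀ i, β i ∈ Irr G) {h : L} :
    h ∈ LL L β ↔ tr h β = β := by
  rw [mem_LL hβ]
  constructor
  · intro H; funext i; exact H i
  · intro H i; exact congrFun H i

theorem mem_LL_tr {β : Ω → G → ℂ} (hβ : ∀ i, β i ∈ Irr G) {l h : L} :
    h ∈ LL L (tr l β) ↔ l⁻¹ * h * l ∈ LL L β := by
  rw [mem_LL_iff_tr (fun i => tr_mem hβ i), mem_LL_iff_tr hβ, tr_tr]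
  constructor
  · intro H
    have := congrArg (tr l⁻¹) H
    rw [tr_tr, tr_tr, inv_mul_cancel, tr_one, ← mul_assoc] at this
    exact this
  · intro H
    have := congrArg (tr l) H
    rw [tr_tr] at this
    rw [← this]
    congr 1
    group

end fam

section char

variable {ℓ : ℕ} [hp : Fact ℓ.Prime] {M : Ideal (integralClosure ℤ ℂ)} [hM : M.IsMaximal]

theorem charP_FF (hℓ : (ℓ : integralClosure ℤ ℂ) ∈ M) : CharP (FF M) ℓ := by
  have : Nontrivial (FF M) := Ideal.Quotient.nontrivial_iff.2 hM.ne_top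
  rw [CharP.charP_iff_prime_eq_zero hp.out]
  have : ((ℓ : ℕ) : FF M) = Ideal.Quotient.mk M (ℓ : integralClosure ℤ ℂ) := by
    rw [map_natCast]
  rw [this]
  exact Ideal.Quotient.eq_zero_iff_mem.2 hℓ

theorem frob_inj (hℓ : (ℓ : integralClosure ℤ ℂ) ∈ M) (n : ℕ) {x y : FF M}
    (h : x ^ (ℓ ^ n) = y ^ (ℓ ^ n)) : x = y := by
  have := charP_FF (M := M) hℓ
  have hdom : IsDomain (FF M) := by
    have : M.IsPrime := hM.isPrime
    exact Ideal.Quotient.isDomain M
  have h1 : (x - y) ^ (ℓ ^ n) = 0 := by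
    rw [sub_pow_char_pow, h, sub_self]
  have h2 := pow_eq_zero_iff (pow_ne_zero n hp.out.ne_zero) |>.1 h1
  exact sub_eq_zero.1 h2

variable {G : Type} [Group G] [Finite G]

omit hp hM in
theorem dz_irr {ξ : G → ℂ} (h : ξ ∈ DZ ℓ M G) : ξ ∈ Irr G := h.1

theorem tw_inj (hdzu : DzuStmt) (hℓ : (ℓ : integralClosure ℤ ℂ) ∈ M) (hop : opCore ℓ G = ⊥)
    {ξ ξ' η : G → ℂ} {n : ℕ} (hξ : ξ ∈ DZ ℓ M G) (hξ' : ξ' ∈ DZ ℓ M G) (h : IsTw ℓ M n ξ η)
    (h' : IsTw ℓ M n ξ' η) : ξ = ξ' := by
  apply hdzu ℓ M hℓ G hop ξ hξ ξ' hξ'.1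
  funext g
  apply frob_inj hℓ n
  rw [← h g, ← h' g]

theorem tw_fun (hdzu : DzuStmt) (hℓ : (ℓ : integralClosure ℤ ℂ) ∈ M) (hop : opCore ℓ G = ⊥)
    {ξ η η' : G → ℂ} {n : ℕ} (hη : η ∈ DZ ℓ M G) (hη' : η' ∈ DZ ℓ M G) (h : IsTw ℓ M n ξ η)
    (h' : IsTw ℓ M n ξ η') : η = η' := by
  apply hdzu ℓ M hℓ G hop η hη η' hη'.1
  funext g
  rw [h g, h' g]

omit hp hM in
theorem codeg_int {ξ : G → ℂ} (hξ : ξ ∈ Irr G) : IsIntegral ℤ ((Nat.card G : ℂ) / ξ 1) := by
  have := Fintype.ofFinite G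
  rw [Nat.card_eq_fintype_card]
  exact H83.codeg_integral hξ

omit hp hM in
theorem uu_int {Ω : Type} [Fintype Ω] {β : Ω → G → ℂ} (hβ : ∀ i, β i ∈ Irr G) :
    IsIntegral ℤ (uu β) := IsIntegral.prod _ fun i _ => codeg_int (hβ i)

theorem uu_ne (hℓ : (ℓ : integralClosure ℤ ℂ) ∈ M) (hop : opCore ℓ G = ⊥)
    {Ω : Type} [Fintype Ω] {β : Ω → G → ℂ} (hβ : ∀ i, β i ∈ DZ ℓ M G) : ¬ Cong M (uu β) 0 := by
  have hMp : M.IsPrime := hM.isPrime
  have hdom : IsDomain (FF M) := Ideal.Quotient.isDomain M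
  intro h
  have h1 : red M (uu β) = 0 := by
    rw [← red_zero (M := M), red_eq_iff (uu_int fun i => (hβ i).1) isIntegral_zero]
    exact h
  unfold uu at h1
  rw [red_prod _ _ fun i _ => codeg_int (hβ i).1] at h1
  obtain ⟨i, _, hi⟩ := Finset.prod_eq_zero_iff.1 h1
  exact (hβ i).2 (((H83.pos ℓ M hℓ G hop).1 _ (hβ i).1).2 hi)

omit hp hM [Finite G] in
theorem uu_tr {Ω L : Type} [Fintype Ω] [Group L] [MulAction L Ω] (β : Ω → G → ℂ) (l : L) :
    uu (tr l β) = uu β := by
  unfold uu tr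
  exact Equiv.prod_comp (MulAction.toPerm (l⁻¹)) (fun i => (Nat.card G : ℂ) / β i 1)

omit hp in
/-- cancellation modulo `M` -/
theorem cong_cancel {u a b : ℂ} (hu : IsIntegral ℤ u) (hun : ¬ Cong M u 0) (ha : IsIntegral ℤ a)
    (hb : IsIntegral ℤ b) (h : Cong M (u * a) (u * b)) : Cong M a b := by
  have hMp : M.IsPrime := hM.isPrime
  rw [cong_iff_sub] at h ⊢
  rw [← mul_sub] at h
  exact (cong_mul_zero hu (ha.sub hb) h).resolve_left hun

end char

section val

/-- restriction of the sum to a subgroup -/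
theorem sum_IrrS {K : Type} [Group K] [Fintype K] {V : Subgroup K} [Fintype V] {lam : K → ℂ}
    (hlam : lam ∈ IrrS V) (F : K → ℂ) : ∑ x, F x * lam x = ∑ x : V, F x * lam x := by
  classical
  rw [← Finset.sum_filter_add_sum_filter_not Finset.univ (fun x => x ∈ V)]
  rw [Finset.sum_eq_zero (s := Finset.univ.filter (fun x => ¬ x ∈ V)), add_zero]
  · symm
    apply Finset.sum_bij (fun (x : V) _ => (x : K))
    · intro x _; simp
    · intro x _ y _ h; exact Subtype.ext h
    · intro x hx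
      exact ⟨⟨x, (Finset.mem_filter.1 hx).2⟩, Finset.mem_univ _, rfl⟩
    · intro x _; rfl
  · intro x hx
    rw [hlam.1 x (Finset.mem_filter.1 hx).2, mul_zero]

/-- integrality of `val` -/
theorem val_IrrS_integral {K : Type} [Group K] [Finite K] {V : Subgroup K} {lam : K → ℂ}
    (hlam : lam ∈ IrrS V) {F : K → ℂ} (hF : ∀ x, ∀ y ∈ V, F (y * x * y⁻¹) = F x)
    (hFi : ∀ x, IsIntegral ℤ (F x)) : IsIntegral ℤ (val F lam) := by
  classical
  have := Fintype.ofFinite K
  have := Fintype.ofFinite V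
  rw [val_eq, sum_IrrS hlam]
  exact val_classes_integral (G := V) (F := fun x => F x) (α := fun x => lam x)
    (fun g h => hF g h h.2) (fun g => hFi g) (fun g => omega_integral _ hlam.2 g)

/-- a finsum over a set as a value -/
theorem finsum_val {K : Type} [Group K] (P : K → Prop) [DecidablePred P] (lam : K → ℂ) :
    (∑ᶠ (x : K) (_ : P x), lam x) / lam 1 = val (fun x => if P x then 1 else 0) lam := by
  unfold val
  congr 1
  apply finsum_congr
  intro x
  rw [finsum_eq_if]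
  beta_reduce
  by_cases h : P x
  · rw [if_pos h, if_pos h, one_mul]
  · rw [if_neg h, if_neg h, zero_mul]

end val

end Pool.Agent.Helper79_WRA.H62
end
end -- Pool.Agent.Helper62_WRA.Fam

section -- Pool.Agent.Helper62_WRA.Bma1

/-!
WRA, module BMA, part 1.
-/

open scoped BigOperators

noncomputable section

namespace Pool.Agent.Helper79_WRA.H62

open Pool.Agent.Helper51_AWC Pool.Agent.Helper79_WRA

/-- the block condition for all class functions -/
theorem good_val {Λ Γ : Type} [Group Λ] [Group Γ] [Finite Λ] [Finite Γ]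
    {M : Ideal (integralClosure ℤ ℂ)} {ι : Λ →* Γ} {χ : Γ → ℂ} {η : Λ → ℂ}
    (h : Good M (clas ι) (fun g => omega (MonoidHom.id _) χ g) η) {Φ : Γ → ℂ}
    (hΦ : ∀ x y, Φ (y * x * y⁻¹) = Φ x) (hΦi : ∀ x, IsIntegral ℤ (Φ x)) :
    Cong M (val (fun t => Φ (ι t)) η) (val Φ χ) := by
  have h' : ∀ g : Γ, Cong M (val (fun t : Λ => indC g (ι t)) η)
      (omega (MonoidHom.id _) χ g) := h
  classical
  have := Fintype.ofFinite Λ
  have := Fintype.ofFinite Γ
  have : Fintype (ConjClasses Γ) := Fintype.ofFinite _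
  have e2 : val (fun t => Φ (ι t)) η =
      ∑ C : ConjClasses Γ, Φ (Quotient.out C) *
        val (fun t => indC (Quotient.out C) (ι t)) η := by
    simp only [val_eq]
    simp only [← mul_div_assoc, ← Finset.sum_div]
    congr 1
    have e1 : ∀ t, Φ (ι t) * η t =
        ∑ C : ConjClasses Γ, Φ (Quotient.out C) * indC (Quotient.out C) (ι t) * η t := by
      intro t
      rw [expand_classes hΦ (ι t), Finset.sum_mul]
    rw [Finset.sum_congr rfl fun t _ => e1 t, Finset.sum_comm]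
    refine Finset.sum_congr rfl fun C _ => ?_
    rw [Finset.mul_sum]
    refine Finset.sum_congr rfl fun t _ => ?_
    rw [mul_assoc]
  rw [e2, val_eq, val_classes hΦ]
  refine Cong.sum _ _ _ fun C _ => ?_
  exact (h' (Quotient.out C)).mul_left (hΦi _)

section main

variable {ℓ : ℕ} [Fact ℓ.Prime] {M : Ideal (integralClosure ℤ ℂ)} [M.IsMaximal]
variable {G Ω L : Type} [Group G] [Finite G] [Fintype Ω] [Group L] [Finite L] [MulAction L Ω]

omit [Finite G] [Fintype Ω] [Finite L] in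
/-- the top element commutes with the image of `t` iff its component does -/
theorem iota_comm {c : Finset (Subgroup L)} {p : L} (hp : p ∈ topP c)
    (t : Wreath G (Dl c Ω) (stab c)) :
    (Wreath.top p : Wreath G Ω L) * iota c G Ω t = iota c G Ω t * Wreath.top p ↔
      p * (t.s : L) = (t.s : L) * p := by
  constructor
  · intro h
    exact congrArg Wreath.s h
  · intro h
    apply Wreath.ext
    · funext i
      rw [Wreath.mul_f, Wreath.mul_f, Wreath.top_f, Wreath.top_f, one_mul, mul_one, Wreath.top_s,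
        iota_apply]
      show t.f (qq c (p⁻¹ • i)) = t.f (qq c i)
      congr 1
      rw [qq_eq_iff]
      exact ⟨p, hp, by rw [smul_inv_smul]⟩
    · exact h

/-- the hypothesis of TEST -/
theorem restr_hyp (hrestr : RestrStmt) (hcls : ClsStmt) (hlam2 : Lambda2Stmt)
    (hℓM : (ℓ : integralClosure ℤ ℂ) ∈ M) {c : Finset (Subgroup L)}
    (hc1 : ∀ D ∈ c, IsPGroup ℓ D) (hc2 : c.Nonempty)
    (hc3 : IsChain (· ≤ ·) (c : Set (Subgroup L))) {α : Dl c Ω → G → ℂ}
    (hα : ∀ j, α j ∈ Irr G) {lam : stab c → ℂ} (hlam : lam ∈ IrrS (LL (stab c) α))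
    (Φ : Wreath G Ω L → ℂ) (hΦ : ∀ x y, Φ (y * x * y⁻¹) = Φ x) (hΦi : ∀ x, IsIntegral ℤ (Φ x))
    (Ψ : Wreath G (Dl c Ω) (stab c) → ℂ)
    (h1 : ∀ t, (∀ p ∈ topP c, p * (stab c).subtype t.s = (stab c).subtype t.s * p) →
      Ψ t = Φ (iota c G Ω t))
    (h2 : ∀ t, ¬ (∀ p ∈ topP c, p * (stab c).subtype t.s = (stab c).subtype t.s * p) →
      Ψ t = 0) :
    Cong M (val (fun t => Φ (iota c G Ω t)) (et α lam)) (val Ψ (et α lam)) := by
  classical
  have hfG := Fintype.ofFinite (Wreath G Ω L)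
  have hfΛ := Fintype.ofFinite (Wreath G (Dl c Ω) (stab c))
  obtain ⟨-, hle, hinj, hpg, hch, hran, -, -, -⟩ := hlam2 ℓ G Ω L c hc1 hc2 hc3
  obtain ⟨θ, hθ, hval, -, -⟩ := (hcls G (Dl c Ω) (stab c)).1 α hα lam hlam
  -- Ψ is a class function
  have hΨ : ∀ x y, Ψ (y * x * y⁻¹) = Ψ x := by
    intro x y
    have key : ∀ x y : Wreath G (Dl c Ω) (stab c),
        (∀ p ∈ topP c, p * (stab c).subtype x.s = (stab c).subtype x.s * p) →
        ∀ p ∈ topP c, p * (stab c).subtype (y * x * y⁻¹).s =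
          (stab c).subtype (y * x * y⁻¹).s * p := by
      intro x y H p hp
      rw [Wreath.conj_s]
      simp only [map_mul, map_inv, Subgroup.coe_subtype] at H ⊢
      have hp' : (y.s : L)⁻¹ * p * y.s ∈ topP c := by
        have := conjS_topP (y.s).2
        rw [← mem_conjS, this]; exact hp
      have := H _ hp'
      calc p * ((y.s : L) * x.s * (y.s : L)⁻¹) =
            (y.s : L) * (((y.s : L)⁻¹ * p * y.s) * x.s) * (y.s : L)⁻¹ := by group
        _ = (y.s : L) * (x.s * ((y.s : L)⁻¹ * p * y.s)) * (y.s : L)⁻¹ := by rw [this]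
        _ = ((y.s : L) * x.s * (y.s : L)⁻¹) * p := by group
    by_cases H : ∀ p ∈ topP c, p * (stab c).subtype x.s = (stab c).subtype x.s * p
    · rw [h1 _ (key x y H), h1 x H, map_mul, map_mul, map_inv, hΦ]
    · rw [h2 x H, h2]
      intro H'
      apply H
      have := key (y * x * y⁻¹) y⁻¹ H'
      have e : y⁻¹ * (y * x * y⁻¹) * y⁻¹⁻¹ = x := by group
      rw [e] at this
      exact this
  have hΦι : ∀ x y, (fun t => Φ (iota c G Ω t)) (y * x * y⁻¹) =
      (fun t => Φ (iota c G Ω t)) x := by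
    intro x y
    show Φ (iota c G Ω (y * x * y⁻¹)) = Φ (iota c G Ω x)
    rw [map_mul, map_mul, map_inv, hΦ]
  rw [← hval _ hΦι, ← hval _ hΨ]
  -- the character of the stabiliser
  let e : Wreath G (Dl c Ω) (stab c) ≃* stab (topc c G Ω) :=
    (MonoidHom.ofInjective hinj).trans (MulEquiv.subgroupCongr hran)
  have he : ∀ t, ((e t : stab (topc c G Ω)) : Wreath G Ω L) = iota c G Ω t := fun t => rfl
  obtain ⟨a, ha, hae⟩ := exists_IrrS (stab (topc c G Ω)) (irr_comp_equiv e.symm hθ)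
  have hae' : ∀ t, a (iota c G Ω t) = θ t := by
    intro t
    rw [← he, hae, MulEquiv.symm_apply_apply]
  have hoff : ∀ x, x ∉ Set.range (iota c G Ω) → a x = 0 := by
    intro x hx
    apply ha.1
    rw [← hran]
    exact fun h => hx h
  have htrans : ∀ F : Wreath G Ω L → ℂ, val F a = val (fun t => F (iota c G Ω t)) θ := by
    intro F
    rw [val_eq, val_eq]
    congr 1
    · symm
      refine Fintype.sum_of_injective (iota c G Ω) hinj _ _ ?_ ?_
      · intro x hx
        rw [hoff x hx, mul_zero]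
      · intro t
        rw [hae']
    · rw [← hae', map_one]
  have hR := hrestr ℓ M hℓM (Wreath G Ω L) (topc c G Ω) hpg hch a ha Φ hΦ hΦi
  rw [htrans, htrans] at hR
  refine hR.trans (Cong.of_eq ?_)
  congr 1
  funext t
  have hiff : (∀ D ∈ topc c G Ω, ∀ y ∈ D, y * iota c G Ω t = iota c G Ω t * y) ↔
      ∀ p ∈ topP c, p * (stab c).subtype t.s = (stab c).subtype t.s * p := by
    constructor
    · intro H p hp
      rw [Subgroup.coe_subtype, ← iota_comm hp]
      refine H ((topP c).map Wreath.top) ?_ _ (Subgroup.mem_map_of_mem _ hp)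
      exact Finset.mem_image_of_mem _ (H46.topP_mem hc2 hc3)
    · intro H D hD y hy
      obtain ⟨D', hD', rfl⟩ := Finset.mem_image.1 hD
      obtain ⟨p, hp, rfl⟩ := Subgroup.mem_map.1 hy
      have hp' : p ∈ topP c := H46.le_topP hD' hp
      rw [iota_comm hp']
      exact H p hp'
  by_cases H : ∀ p ∈ topP c, p * (stab c).subtype t.s = (stab c).subtype t.s * p
  · rw [if_pos (hiff.2 H), h1 t H]
  · rw [if_neg (fun h => H (hiff.1 h)), h2 t H]

/-- the test on the wreath product itself -/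
theorem test_self (htest : TestStmt) (hℓM : (ℓ : integralClosure ℤ ℂ) ∈ M)
    (hop : opCore ℓ G = ⊥) {αs : Ω → G → ℂ} (hαs : ∀ i, αs i ∈ DZ ℓ M G) {μ : L → ℂ}
    (hμ : μ ∈ IrrS (LL L αs)) {h₀ : L} (hh : h₀ ∈ LL L αs) :
    Cong M (val (fun t => testT αs h₀ t) (et αs μ)) (uu αs * ulab (LL L αs) μ h₀) := by
  have hsit : Sit ℓ (id : Ω → Ω) (MonoidHom.id L) (MonoidHom.id (Wreath G Ω L))
      (⊥ : Subgroup L) := by
    refine ⟨IsPGroup.of_bot, fun x => rfl, Function.surjective_id, Function.injective_id,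
      fun k i => rfl, ?_, ?_⟩
    · intro i i'
      constructor
      · intro h
        exact ⟨1, Subgroup.one_mem _, by rw [one_smul]; exact h⟩
      · rintro ⟨p, hp, h⟩
        rw [Subgroup.mem_bot.1 hp, one_smul] at h
        exact h
    · intro k
      unfold conjS
      rw [Subgroup.map_bot]
  have htw : TwPair ℓ M (id : Ω → Ω) αs αs := by
    refine ⟨hαs, hαs, ?_, ?_, fun i => rfl⟩
    · intro i i' h
      exact congrArg αs h
    · intro i n hn g
      have h1 : Nat.card {i' : Ω // id i' = id i} = 1 := by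
        rw [Nat.card_eq_one_iff_unique]
        exact ⟨⟨fun a b => Subtype.ext (a.2.trans b.2.symm)⟩, ⟨⟨i, rfl⟩⟩⟩
      rw [h1] at hn
      rw [← hn, pow_one]
      rfl
  have h := (htest ℓ M hℓM G hop Ω L Ω L (id : Ω → Ω) (MonoidHom.id L)
    (MonoidHom.id (Wreath G Ω L)) ⊥ αs αs hsit htw μ hμ (by
      intro Φ hΦ hΦi Ψ h1 h2
      have : Ψ = fun t => Φ ((MonoidHom.id (Wreath G Ω L)) t) := by
        funext t
        apply h1
        intro p hp
        rw [Subgroup.mem_bot.1 hp, one_mul, mul_one]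
      rw [this]
      exact Cong.refl _)).2 h₀ hh
  refine Cong.trans ?_ (h.trans (Cong.of_eq ?_))
  · exact Cong.refl _
  · congr 1
    unfold ulab
    congr 1
    apply finsum_congr
    intro k
    have : ((∀ p ∈ (⊥ : Subgroup L), p * (MonoidHom.id L) k = (MonoidHom.id L) k * p) ∧
        ∃ u ∈ LL L αs, (MonoidHom.id L) k = u * h₀ * u⁻¹) ↔
        ∃ u ∈ LL L αs, k = u * h₀ * u⁻¹ := by
      constructor
      · exact fun h => h.2
      · intro h
        refine ⟨?_, h⟩
        intro p hp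
        rw [Subgroup.mem_bot.1 hp, one_mul, mul_one]
    exact finsum_congr_Prop (propext this) fun _ => rfl

end main

end Pool.Agent.Helper79_WRA.H62
end
end -- Pool.Agent.Helper62_WRA.Bma1

section -- Pool.Agent.Helper62_WRA.Bma

/-!
WRA, module BMA.
-/

open scoped BigOperators

noncomputable section

namespace Pool.Agent.Helper79_WRA.H62

open Pool.Agent.Helper51_AWC Pool.Agent.Helper79_WRA

open Classical in
/-- the indicator of a predicate -/
def indP {X : Type} (P : X → Prop) (x : X) : ℂ := if P x then 1 else 0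

theorem indP_pos {X : Type} {P : X → Prop} {x : X} (h : P x) : indP P x = 1 := if_pos h

theorem indP_neg {X : Type} {P : X → Prop} {x : X} (h : ¬ P x) : indP P x = 0 := if_neg h

theorem indP_congr {X Y : Type} {P : X → Prop} {Q : Y → Prop} {x : X} {y : Y}
    (h : P x ↔ Q y) : indP P x = indP Q y := by
  by_cases H : P x
  · rw [indP_pos H, indP_pos (h.1 H)]
  · rw [indP_neg H, indP_neg fun h' => H (h.2 h')]

theorem indP_int {X : Type} (P : X → Prop) (x : X) : IsIntegral ℤ (indP P x) := by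
  unfold indP
  split_ifs
  · exact isIntegral_one
  · exact isIntegral_zero

/-- dropping the restriction to the centraliser -/
theorem drop_cent (hrestr : RestrStmt) {ℓ : ℕ} [Fact ℓ.Prime] {M : Ideal (integralClosure ℤ ℂ)}
    [M.IsMaximal] (hℓM : (ℓ : integralClosure ℤ ℂ) ∈ M) {L : Type} [Group L] [Finite L]
    {c : Finset (Subgroup L)} (hc1 : ∀ D ∈ c, IsPGroup ℓ D) (hc2 : c.Nonempty)
    (hc3 : IsChain (· ≤ ·) (c : Set (Subgroup L))) {U : Subgroup L} (hcU : ∀ D ∈ c, D ≤ U)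
    {V : Subgroup (stab c)} (hV : ∀ k : stab c, k ∈ V ↔ (k : L) ∈ U) {lam : stab c → ℂ}
    (hlam : lam ∈ IrrS V) {h : L} :
    Cong M ((∑ᶠ (k : stab c) (_ : ∃ u ∈ U, (k : L) = u * h * u⁻¹), lam k) / lam 1)
      ((∑ᶠ (k : stab c) (_ : (∀ p ∈ topP c, p * (k : L) = (k : L) * p) ∧
        ∃ u ∈ U, (k : L) = u * h * u⁻¹), lam k) / lam 1) := by
  classical
  have := Fintype.ofFinite L
  -- the stabiliser of the chain in `U`
  have hmem : ∀ x : U, x ∈ stab (inU U c) ↔ (x : L) ∈ stab c := by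
    intro x
    rw [mem_stab, mem_stab]
    constructor
    · intro H D hD
      have h1 := H (D.subgroupOf U) (Finset.mem_image_of_mem _ hD)
      rw [H46.conjS_subgroupOf, H46.subgroupOf_inj' (H46.conjS_le_of_mem (hcU D hD) x.2)
        (hcU D hD)] at h1
      exact h1
    · intro H E hE
      obtain ⟨D, hD, rfl⟩ := Finset.mem_image.1 hE
      rw [H46.conjS_subgroupOf, H46.subgroupOf_inj' (H46.conjS_le_of_mem (hcU D hD) x.2)
        (hcU D hD)]
      exact H D hD
  let f1 : stab (inU U c) →* stab c :=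
    (U.subtype.comp (stab (inU U c)).subtype).codRestrict (stab c)
      (fun x => (hmem (x : U)).1 x.2)
  have hf1 : ∀ x, ((f1 x : stab c) : L) = ((x : U) : L) := fun x => rfl
  let f2 : stab (inU U c) →* V := f1.codRestrict V (fun x => by
    rw [hV, hf1]; exact (x : U).2)
  have hf2 : ∀ x, (((f2 x : V) : stab c) : L) = ((x : U) : L) := fun x => rfl
  have hbij : Function.Bijective f2 := by
    constructor
    · intro x y hxy
      apply Subtype.ext
      apply Subtype.ext
      rw [← hf2, hxy, hf2]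
    · intro k
      have hk : ((k : stab c) : L) ∈ U := (hV _).1 k.2
      exact ⟨⟨⟨((k : stab c) : L), hk⟩, (hmem _).2 (k : stab c).2⟩, rfl⟩
  let φ : stab (inU U c) ≃* V := MulEquiv.ofBijective f2 hbij
  have hφ : ∀ x, (((φ x : V) : stab c) : L) = ((x : U) : L) := fun x => rfl
  obtain ⟨a, ha, hae⟩ := exists_IrrS (stab (inU U c)) (irr_comp_equiv φ hlam.2)
  have ha1 : a 1 = lam 1 := by
    have := hae 1
    rw [Subgroup.coe_one] at this
    rw [this, map_one]
    rfl
  -- translation of sums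
  have key : ∀ P : L → Prop, (∑ᶠ (k : stab c) (_ : P (k : L)), lam k) / lam 1 =
      val (fun x : U => indP P (x : L)) a := by
    intro P
    rw [finsum_val (fun k : stab c => P (k : L)), val_eq, val_eq, ha1]
    congr 1
    rw [sum_IrrS hlam, sum_IrrS ha]
    symm
    refine Fintype.sum_equiv φ.toEquiv _ _ ?_
    intro x
    rw [hae]
    show indP P ((x : U) : L) * lam (φ x) =
      (if P (((φ x : V) : stab c) : L) then (1 : ℂ) else 0) * lam (φ x)
    rw [hφ]
    rfl
  have hΦ : ∀ x y : U, (fun x : U => indP (fun z => ∃ u ∈ U, z = u * h * u⁻¹) (x : L))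
      (y * x * y⁻¹) = (fun x : U => indP (fun z => ∃ u ∈ U, z = u * h * u⁻¹) (x : L)) x := by
    intro x y
    have : (∃ u ∈ U, ((y * x * y⁻¹ : U) : L) = u * h * u⁻¹) ↔
        ∃ u ∈ U, (x : L) = u * h * u⁻¹ := by
      constructor
      · rintro ⟨u, hu, e⟩
        refine ⟨(y : L)⁻¹ * u, U.mul_mem (U.inv_mem y.2) hu, ?_⟩
        have : (x : L) = (y : L)⁻¹ * ((y * x * y⁻¹ : U) : L) * y := by
          push_cast; group
        rw [this, e]; group
      · rintro ⟨u, hu, e⟩
        refine ⟨(y : L) * u, U.mul_mem y.2 hu, ?_⟩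
        push_cast
        rw [e]; group
    exact indP_congr (P := fun z => ∃ u ∈ U, z = u * h * u⁻¹)
      (Q := fun z => ∃ u ∈ U, z = u * h * u⁻¹) this
  have hR := hrestr ℓ M hℓM U (inU U c) (by
    intro D hD
    obtain ⟨E, hE, rfl⟩ := Finset.mem_image.1 hD
    exact (hc1 E hE).comap_of_injective U.subtype U.subtype_injective) (by
    intro D hD D' hD' hne
    obtain ⟨E, hE, rfl⟩ := Finset.mem_image.1 (Finset.mem_coe.1 hD)
    obtain ⟨E', hE', rfl⟩ := Finset.mem_image.1 (Finset.mem_coe.1 hD')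
    rcases chain_total hc3 hE hE' with h1 | h1
    · exact Or.inl (Subgroup.comap_mono h1)
    · exact Or.inr (Subgroup.comap_mono h1)) a ha
    (fun x : U => indP (fun z => ∃ u ∈ U, z = u * h * u⁻¹) (x : L)) hΦ
    (fun x => indP_int _ _)
  rw [key (fun k => ∃ u ∈ U, k = u * h * u⁻¹),
    key (fun k => (∀ p ∈ topP c, p * k = k * p) ∧ ∃ u ∈ U, k = u * h * u⁻¹)]
  refine hR.trans (Cong.of_eq ?_)
  congr 1
  funext x
  have hiff : (∀ D ∈ inU U c, ∀ y ∈ D, y * x = x * y) ↔
      ∀ p ∈ topP c, p * (x : L) = (x : L) * p := by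
    constructor
    · intro H p hp
      have hPU : topP c ≤ U := hcU _ (H46.topP_mem hc2 hc3)
      have := H ((topP c).subgroupOf U) (Finset.mem_image_of_mem _ (H46.topP_mem hc2 hc3))
        ⟨p, hPU hp⟩ (Subgroup.mem_subgroupOf.2 hp)
      exact congrArg Subtype.val this
    · intro H D hD y hy
      obtain ⟨E, hE, rfl⟩ := Finset.mem_image.1 hD
      apply Subtype.ext
      exact H _ (H46.le_topP hE (Subgroup.mem_subgroupOf.1 hy))
  by_cases H : ∀ p ∈ topP c, p * (x : L) = (x : L) * p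
  · rw [if_pos (hiff.2 H)]
    exact indP_congr (P := fun z => ∃ u ∈ U, z = u * h * u⁻¹)
      (Q := fun k => (∀ p ∈ topP c, p * k = k * p) ∧ ∃ u ∈ U, k = u * h * u⁻¹)
      ⟨fun h => ⟨H, h⟩, fun h => h.2⟩
  · rw [if_neg (fun h => H (hiff.1 h))]
    exact (indP_neg (P := fun k => (∀ p ∈ topP c, p * k = k * p) ∧
        ∃ u ∈ U, k = u * h * u⁻¹) fun h => H h.1).symm

/-- BMA -/
theorem bma (htest : TestStmt) (heqv : EqvStmt) (hrestr : RestrStmt) (hcls : ClsStmt)
    (hlam2 : Lambda2Stmt) (hdzu : DzuStmt) : BmaStmt := by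
  intro ℓ _ M _ hℓM G _ _ hop Ω L _ _ _ _ χ αs μ hχ hαs hμ hval c hc β α htw lam hlam hgood
  classical
  have := Fintype.ofFinite L
  obtain ⟨hcs, hc2, hc3⟩ := mem_chainsOn.1 hc
  have hc1 : ∀ D ∈ c, IsPGroup ℓ D := fun D hD => (mem_psubIn.1 (hcs hD)).2
  have hne : c.Nonempty := ⟨_, hc2⟩
  have hPmem : topP c ∈ c := H46.topP_mem hne hc3
  have hP : IsPGroup ℓ (topP c) := hc1 _ hPmem
  have hβI : ∀ i, β i ∈ Irr G := fun i => (htw.dz i).1
  have hαI : ∀ i, α i ∈ Irr G := fun i => (htw.dz' i).1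
  have hαsI : ∀ i, αs i ∈ Irr G := fun i => (hαs i).1
  obtain ⟨-, -, -, -, -, -, -, hsit, -⟩ := hlam2 ℓ G Ω L c hc1 hne hc3
  have hT := htest ℓ M hℓM G hop Ω L (Dl c Ω) (stab c) (qq c) (stab c).subtype (iota c G Ω)
    (topP c) β α hsit htw lam hlam
    (fun Φ hΦ hΦi Ψ h1 h2 => restr_hyp hrestr hcls hlam2 hℓM hc1 hne hc3 hαI hlam Φ hΦ hΦi Ψ
      h1 h2)
  obtain ⟨-, hE2, -⟩ := heqv G Ω L αs hαsI
  -- the fundamental congruence
  have hfund : ∀ h₀ ∈ LL L αs, Cong M (val (fun t => testT αs h₀ (iota c G Ω t)) (et α lam))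
      (uu αs * ulab (LL L αs) μ h₀) := by
    intro h₀ hh
    obtain ⟨hcl, hint, -⟩ := hE2 h₀ hh
    have h1 := good_val hgood hcl hint
    rw [hval _ hcl] at h1
    exact h1.trans (test_self htest hℓM hop hαs hμ hh)
  -- `β` is in the orbit
  have hex : ∃ l : L, β = tr l αs := by
    by_contra hcon
    push Not at hcon
    have h1 := hT.1 αs hαs (by
      intro l h
      exact hcon _ (tr_inv_eq h)) 1 (Subgroup.one_mem _)
    have h2 := (h1.symm.trans (hfund 1 (Subgroup.one_mem _))).symm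
    apply uu_ne hℓM hop hαs
    have h3 : ulab (LL L αs) μ 1 = 1 := by
      unfold ulab
      rw [div_eq_one_iff_eq (IrrS_one_ne hμ)]
      rw [finsum_eq_single _ (1 : L)]
      · rw [finsum_eq_if, if_pos ⟨1, Subgroup.one_mem _, by group⟩]
      · intro x hx
        rw [finsum_eq_if, if_neg]
        rintro ⟨u, -, e⟩
        apply hx
        rw [e]; group
    rwa [h3, mul_one] at h2
  refine ⟨hex, ?_⟩
  intro l hl h hh
  -- transport to `αs`
  have hh0 : l⁻¹ * h * l ∈ LL L αs := by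
    rw [← mem_LL_tr hαsI, ← hl]; exact hh
  obtain ⟨-, -, hE3⟩ := hE2 _ hh0
  have hc' : l * (l⁻¹ * h * l) * l⁻¹ = h := by group
  have htt : testT β h = testT αs (l⁻¹ * h * l) := by
    rw [← hE3 l, hc', ← hl]
  have h1 := hT.2 h hh
  rw [htt] at h1
  have h2 := h1.symm.trans (hfund _ hh0)
  have huu : uu αs = uu β := by rw [hl, uu_tr]
  -- the label of the conjugate
  have hlab : ulab (LL L αs) μ (l⁻¹ * h * l) =
      ulab (LL L β) (fun x => μ (l⁻¹ * x * l)) h := by
    unfold ulab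
    have e1 : (fun x => μ (l⁻¹ * x * l)) 1 = μ 1 := by
      show μ (l⁻¹ * 1 * l) = μ 1
      congr 1; group
    rw [e1]
    congr 1
    rw [← finsum_comp_equiv (MulAut.conj l).symm.toEquiv]
    apply finsum_congr
    intro x
    have e2 : (MulAut.conj l).symm.toEquiv x = l⁻¹ * x * l := by
      show (MulAut.conj l).symm x = _
      rw [MulAut.conj_symm_apply]
    rw [e2]
    refine finsum_congr_Prop (propext ?_) fun _ => rfl
    constructor
    · rintro ⟨u, hu, e⟩
      refine ⟨l * u * l⁻¹, ?_, ?_⟩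
      · rw [hl, mem_LL_tr hαsI]
        have : l⁻¹ * (l * u * l⁻¹) * l = u := by group
        rw [this]; exact hu
      · have : x = l * (l⁻¹ * x * l) * l⁻¹ := by group
        rw [this, e]; group
    · rintro ⟨u, hu, e⟩
      refine ⟨l⁻¹ * u * l, ?_, ?_⟩
      · rw [← mem_LL_tr hαsI, ← hl]; exact hu
      · rw [e]; group
  rw [huu, hlab] at h2
  -- membership in the stabiliser
  have hVU : ∀ k : stab c, k ∈ LL (stab c) α ↔ (k : L) ∈ LL L β := fun k =>
    H46.mem_LL_alpha hdzu hℓM hop hP htw k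
  have hPU : topP c ≤ LL L β := by
    intro p hp
    rw [mem_LL hβI]
    intro j
    apply htw.fib
    rw [qq_eq_iff]
    exact ⟨p, hp, by rw [smul_inv_smul]⟩
  -- integrality
  have hint1 : IsIntegral ℤ ((∑ᶠ (k : stab c) (_ : (∀ p ∈ topP c,
      p * (stab c).subtype k = (stab c).subtype k * p) ∧
        ∃ u ∈ LL L β, (stab c).subtype k = u * h * u⁻¹), lam k) / lam 1) := by
    rw [finsum_val]
    apply val_IrrS_integral hlam
    · intro x y hy
      have hyU := (hVU y).1 hy
      have hyP : ∀ p, p ∈ topP c ↔ (y : L)⁻¹ * p * y ∈ topP c := by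
        intro p
        conv_lhs => rw [← conjS_topP y.2, mem_conjS]
      have : ((∀ p ∈ topP c, p * (stab c).subtype (y * x * y⁻¹) =
          (stab c).subtype (y * x * y⁻¹) * p) ∧
          ∃ u ∈ LL L β, (stab c).subtype (y * x * y⁻¹) = u * h * u⁻¹) ↔
          ((∀ p ∈ topP c, p * (stab c).subtype x = (stab c).subtype x * p) ∧
          ∃ u ∈ LL L β, (stab c).subtype x = u * h * u⁻¹) := by
        simp only [map_mul, map_inv, Subgroup.coe_subtype]
        constructor
        · rintro ⟨H, u, hu, e⟩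
          refine ⟨?_, (y : L)⁻¹ * u, Subgroup.mul_mem _ (Subgroup.inv_mem _ hyU) hu, ?_⟩
          · intro p hp
            have hp' : (y : L) * p * (y : L)⁻¹ ∈ topP c := by
              rw [hyP]
              have : (y : L)⁻¹ * ((y : L) * p * (y : L)⁻¹) * y = p := by group
              rw [this]; exact hp
            have := H _ hp'
            calc p * (x : L) = (y : L)⁻¹ * (((y : L) * p * (y : L)⁻¹) *
                  ((y : L) * x * (y : L)⁻¹)) * y := by group
              _ = (y : L)⁻¹ * (((y : L) * x * (y : L)⁻¹) *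
                  ((y : L) * p * (y : L)⁻¹)) * y := by rw [this]
              _ = (x : L) * p := by group
          · have : (x : L) = (y : L)⁻¹ * ((y : L) * x * (y : L)⁻¹) * y := by group
            rw [this, e]; group
        · rintro ⟨H, u, hu, e⟩
          refine ⟨?_, (y : L) * u, Subgroup.mul_mem _ hyU hu, ?_⟩
          · intro p hp
            have := H _ ((hyP p).1 hp)
            calc p * ((y : L) * x * (y : L)⁻¹) =
                  (y : L) * (((y : L)⁻¹ * p * y) * x) * (y : L)⁻¹ := by group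
              _ = (y : L) * (x * ((y : L)⁻¹ * p * y)) * (y : L)⁻¹ := by rw [this]
              _ = ((y : L) * x * (y : L)⁻¹) * p := by group
          · rw [e]; group
      simp only [this]
    · intro x
      split_ifs
      · exact isIntegral_one
      · exact isIntegral_zero
  have hμ' : (fun x => μ (l⁻¹ * x * l)) ∈ IrrS (LL L β) := by
    have := ((heqv G Ω L αs hαsI).2.2 μ hμ l).1
    rw [hl]; exact this
  have hint2 : IsIntegral ℤ (ulab (LL L β) (fun x => μ (l⁻¹ * x * l)) h) := by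
    unfold ulab
    rw [finsum_val (fun x => ∃ u ∈ LL L β, x = u * h * u⁻¹) (fun x => μ (l⁻¹ * x * l))]
    apply val_IrrS_integral hμ'
    · intro x y hy
      have : (∃ u ∈ LL L β, y * x * y⁻¹ = u * h * u⁻¹) ↔
          ∃ u ∈ LL L β, x = u * h * u⁻¹ := by
        constructor
        · rintro ⟨u, hu, e⟩
          refine ⟨y⁻¹ * u, Subgroup.mul_mem _ (Subgroup.inv_mem _ hy) hu, ?_⟩
          have : x = y⁻¹ * (y * x * y⁻¹) * y := by group
          rw [this, e]; group
        · rintro ⟨u, hu, e⟩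
          refine ⟨y * u, Subgroup.mul_mem _ hy hu, ?_⟩
          rw [e]; group
      simp only [this]
    · intro x
      split_ifs
      · exact isIntegral_one
      · exact isIntegral_zero
  have h3 := cong_cancel (uu_int hβI) (uu_ne hℓM hop htw.dz) hint1 hint2 h2
  exact (drop_cent hrestr hℓM hc1 hne hc3 (fun D hD => (H46.le_topP hD).trans hPU) hVU
    hlam).trans h3

end Pool.Agent.Helper79_WRA.H62
end
end -- Pool.Agent.Helper62_WRA.Bma
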