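import Pool.Agent.Helper83_WRA.LabSum
import Pool.Agent.Helper83_WRA.Pos
import Pool.Agent.Helper98_CC.Stmts

/-!
# Merged copies (generated) of the modules

* `Pool.Agent.Helper51_AWC.Abelian`
* `Pool.Agent.Helper44_WRA.Kill`
* `Pool.Agent.Helper47_WRA.Dzt`
* `Pool.Agent.Helper48_WRA.Dzu`
* `Pool.Agent.Helper87_CC.Dz1`
-/

set_option autoImplicit false

section -- Pool.Agent.Helper51_AWC.Abelian

/-!
The alternating sum of a finite abelian `ℓ`-group.
-/

open scoped BigOperators

noncomputable section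

namespace Pool.Agent.Helper51_AWC

/-- linear characters are irreducible -/
theorem linear_mem_Irr {G : Type} [Group G] [Finite G] (ψ : G →* ℂˣ) :
    (fun g => (ψ g : ℂ)) ∈ Irr G := by
  have := Fintype.ofFinite G
  let ρ : Representation ℂ G ℂ :=
    { toFun := fun g => (ψ g : ℂ) • LinearMap.id
      map_one' := by ext; simp
      map_mul' := by intro g h; ext; simp [mul_comm] }
  have hc : ρ.character = fun g => (ψ g : ℂ) := by
    ext g
    simp [Representation.character, ρ]
  rw [← hc]
  apply mem_Irr_of_norm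
  rw [hc]
  simp

/-- an `ℓ`-power root of unity is congruent to `1` -/
theorem cong_one_of_pow {ℓ : ℕ} [hp : Fact ℓ.Prime] {M : Ideal (integralClosure ℤ ℂ)}
    [hM : M.IsPrime]
    (hℓ : (ℓ : integralClosure ℤ ℂ) ∈ M) {ζ : ℂ} {n : ℕ} (h : ζ ^ ℓ ^ n = 1) : Cong M ζ 1 := by
  have hpos : 0 < ℓ ^ n := pow_pos hp.out.pos n
  have hint : AI ζ := by
    apply IsIntegral.of_pow hpos
    rw [h]; exact isIntegral_one
  let z : integralClosure ℤ ℂ := ⟨ζ, hint⟩
  have hnt : Nontrivial (integralClosure ℤ ℂ ⧸ M) := Ideal.Quotient.nontrivial_iff.2 hM.ne_top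
  have hchar : CharP (integralClosure ℤ ℂ ⧸ M) ℓ := by
    rw [CharP.charP_iff_prime_eq_zero hp.out]
    have := Ideal.Quotient.eq_zero_iff_mem.2 hℓ
    simpa using this
  have h1 : z ^ ℓ ^ n = 1 := Subtype.ext h
  have h2 : (Ideal.Quotient.mk M (z - 1)) ^ ℓ ^ n = 0 := by
    rw [map_sub, sub_pow_char_pow, ← map_pow, h1]
    simp
  have h3 : z - 1 ∈ M := by
    rw [← map_pow, Ideal.Quotient.eq_zero_iff_mem] at h2
    exact hM.mem_of_pow_mem _ h2
  exact ⟨z - 1, h3, by push_cast; rfl⟩

variable {Z : Type} [CommGroup Z] [Finite Z]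

theorem omega_comm (χ : Z → ℂ) (g : Z) : omega (MonoidHom.id Z) χ g = χ g / χ 1 := by
  classical
  have := Fintype.ofFinite Z
  rw [omega_eq]
  congr 1
  rw [Finset.sum_eq_single_of_mem g (Finset.mem_univ _)]
  · simp
  · intro h _ hne
    rw [if_neg]
    intro hc
    apply hne
    exact (isConj_iff_eq.1 hc).symm

theorem card_le_altSum {ℓ : ℕ} [hp : Fact ℓ.Prime] {M : Ideal (integralClosure ℤ ℂ)}
    [hM : M.IsPrime] (hℓ : (ℓ : integralClosure ℤ ℂ) ∈ M) (hZ : IsPGroup ℓ Z) :
    (Nat.card Z : ℤ) ≤ altSum ℓ M (fun _ : Z => (1 : ℂ)) := by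
  classical
  have := Fintype.ofFinite Z
  obtain ⟨a1, a2, a3⟩ := opCore_spec ℓ Z
  have htop : opCore ℓ Z = ⊤ := by
    rw [eq_top_iff]
    exact a3 ⊤ inferInstance (hZ.to_subgroup ⊤)
  have hps : psub ℓ Z = {⊤} := by
    ext D
    rw [mem_psub, htop, Finset.mem_singleton]
    constructor
    · rintro ⟨h, _⟩; exact eq_top_iff.2 h
    · rintro rfl; exact ⟨le_refl _, hZ.to_subgroup ⊤⟩
  have hch : chainsOn (psub ℓ Z) (opCore ℓ Z) = {{⊤}} := by
    ext d
    rw [mem_chainsOn, hps, htop, Finset.mem_singleton]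
    constructor
    · rintro ⟨h1, h2, _⟩
      exact Finset.Subset.antisymm h1 (Finset.singleton_subset_iff.2 h2)
    · rintro rfl
      refine ⟨Finset.Subset.refl _, Finset.mem_singleton_self _, ?_⟩
      intro x hx y hy hne
      exact absurd ((Finset.mem_singleton.1 hx).trans (Finset.mem_singleton.1 hy).symm) hne
  have hstab : stab ({⊤} : Finset (Subgroup Z)) = ⊤ := by
    rw [eq_top_iff]
    intro g _
    rw [mem_stab]
    intro D hD
    rw [Finset.mem_singleton] at hD
    subst hD
    ext x; simp [mem_conjS]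
  have hS := card_mul_altSum ℓ M (fun _ : Z => (1 : ℂ))
  rw [hch, Finset.sum_singleton, weight, hstab] at hS
  simp only [Finset.card_singleton, Subgroup.card_top, Nat.cast_mul] at hS
  have hc : ((Nat.card Z : ℤ)) ≠ 0 := by exact_mod_cast Nat.card_pos.ne'
  have hS' : altSum ℓ M (fun _ : Z => (1 : ℂ)) =
      ((IrrBlock M (⊤ : Subgroup Z).subtype (fun _ : Z => (1 : ℂ))).ncard : ℤ) := by
    apply mul_left_cancel₀ hc
    rw [hS]; norm_num
  rw [hS']
  norm_cast
  rw [ncard_IrrBlock_equiv M (fun _ : Z => (1 : ℂ)) _ (MonoidHom.id Z) Subgroup.topEquiv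
    (fun h => IsConj.refl _)]
  -- the linear characters
  have hroots : HasEnoughRootsOfUnity ℂ (Monoid.exponent Z) := inferInstance
  have hcard : Nat.card (Z →* ℂˣ) = Nat.card Z :=
    CommGroup.card_monoidHom_of_hasEnoughRootsOfUnity Z ℂ
  have hfin : Finite (Z →* ℂˣ) := by
    apply Nat.finite_of_card_ne_zero
    rw [hcard]; exact Nat.card_pos.ne'
  have hfin2 : (IrrBlock M (MonoidHom.id Z) (fun _ : Z => (1 : ℂ))).Finite :=
    (irr_finite' (G := Z)).subset fun ϑ hϑ => hϑ.1
  let F : (Z →* ℂˣ) → (Z → ℂ) := fun ψ g => (ψ g : ℂ)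
  have hF : Function.Injective F := by
    intro ψ ψ' h
    ext g
    exact congrFun h g
  have hF2 : Set.range F ⊆ IrrBlock M (MonoidHom.id Z) (fun _ : Z => (1 : ℂ)) := by
    rintro _ ⟨ψ, rfl⟩
    refine ⟨linear_mem_Irr ψ, fun g => ?_⟩
    rw [omega_comm, omega_comm]
    simp only [F, map_one, Units.val_one, div_one]
    obtain ⟨n, hn⟩ := hZ g
    apply cong_one_of_pow hℓ (n := n)
    rw [← Units.val_pow_eq_pow_val, ← map_pow, hn, map_one, Units.val_one]
  calc Nat.card Z = Nat.card (Z →* ℂˣ) := hcard.symm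
    _ = (Set.range F).ncard := (Set.ncard_range_of_injective hF).symm
    _ ≤ _ := Set.ncard_le_ncard hF2 hfin2

end Pool.Agent.Helper51_AWC
end
end -- Pool.Agent.Helper51_AWC.Abelian

section -- Pool.Agent.Helper44_WRA.Kill

/-!
WRA, modules KILL and BR: central elements supported off the centraliser of a normal
`ℓ`-subgroup, multiplicativity of the central character of the induced block.
-/

open scoped BigOperators
open Module

noncomputable section

namespace Pool.Agent.Helper79_WRA.H44

open Pool.Agent.Helper51_AWC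

/-- a sum of a function invariant under conjugation by an `ℓ`-subgroup, vanishing at the fixed
points, vanishes in characteristic `ℓ` -/
theorem sum_fix {F : Type*} [CommRing F] {ℓ : ℕ} [hp : Fact ℓ.Prime] (hF : (ℓ : F) = 0)
    {G : Type} [Group G] [Fintype G] {D : Subgroup G} (hD : IsPGroup ℓ D) (f : G → F)
    (hf : ∀ d ∈ D, ∀ y, f (d * y * d⁻¹) = f y) (h0 : ∀ y, (∀ d ∈ D, d * y = y * d) → f y = 0) :
    ∑ y, f y = 0 := by
  classical
  rw [← Finset.sum_fiberwise_of_maps_to (s := Finset.univ) (t := Finset.univ.image f) (g := f)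
    (fun y hy => Finset.mem_image_of_mem f hy)]
  apply Finset.sum_eq_zero
  intro c _
  have h1 : ∑ y ∈ Finset.univ.filter (fun y => f y = c), f y =
      ((Finset.univ.filter (fun y => f y = c)).card : F) * c := by
    rw [Finset.sum_congr rfl (fun y hy => (Finset.mem_filter.1 hy).2), Finset.sum_const,
      nsmul_eq_mul]
  rw [h1]
  by_cases hc : c = 0
  · rw [hc, mul_zero]
  · let _ : MulAction D {y : G // f y = c} :=
      { smul := fun d y => ⟨d * y * (d : G)⁻¹, by rw [hf d d.2, y.2]⟩
        one_smul := by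
          intro y
          apply Subtype.ext
          show (1 : G) * y * (1 : G)⁻¹ = y
          rw [one_mul, inv_one, mul_one]
        mul_smul := by
          intro d e y
          apply Subtype.ext
          show ((d : G) * e) * y * ((d : G) * e)⁻¹ = d * (e * y * (e : G)⁻¹) * (d : G)⁻¹
          group }
    have h2 := hD.card_modEq_card_fixedPoints {y : G // f y = c}
    have h3 : Nat.card (MulAction.fixedPoints D {y : G // f y = c}) = 0 := by
      rw [Nat.card_eq_zero]
      left
      constructor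
      rintro ⟨⟨y, hy⟩, hfix⟩
      apply hc
      rw [← hy]
      apply h0
      intro d hd
      have h4 := congrArg Subtype.val (hfix ⟨d, hd⟩)
      have h5 : d * y * d⁻¹ = y := h4
      exact mul_inv_eq_iff_eq_mul.1 h5
    rw [h3] at h2
    have h4 : ℓ ∣ Nat.card {y : G // f y = c} := (Nat.modEq_zero_iff_dvd).1 h2
    have h5 : Nat.card {y : G // f y = c} = (Finset.univ.filter (fun y => f y = c)).card := by
      rw [Nat.card_eq_fintype_card, Fintype.card_subtype]
    rw [h5] at h4
    obtain ⟨k, hk⟩ := h4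
    rw [hk, Nat.cast_mul, hF, zero_mul, zero_mul]

/-- an `ℓ`-group acting on an abelian group of exponent `ℓ` fixes a nonzero vector -/
theorem exists_fixed {ℓ : ℕ} [hp : Fact ℓ.Prime] {V : Type*} [AddCommGroup V] {D : Type}
    [Group D] [Finite D] (hD : IsPGroup ℓ D) (L : D → V →+ V) (L_one : ∀ v, L 1 v = v)
    (L_mul : ∀ d e v, L (d * e) v = L d (L e v)) (hV : ∀ v : V, ℓ • v = 0) {v : V}
    (hv : v ≠ 0) :
    ∃ w ∈ AddSubgroup.closure (Set.range fun d => L d v), w ≠ 0 ∧ ∀ d, L d w = w := by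
  classical
  set W : AddSubgroup V := AddSubgroup.closure (Set.range fun d => L d v) with hW
  have hfg : AddGroup.FG W := AddGroup.closure_finite_fg (Set.range fun d => L d v)
  have htors : ∀ w : W, ℓ • w = 0 := fun w => Subtype.ext (hV w)
  have hfin : Finite W := by
    apply AddCommGroup.finite_of_fg_isAddTorsion
    intro w
    exact isOfFinAddOrder_iff_nsmul_eq_zero.2 ⟨ℓ, hp.out.pos, htors w⟩
  have hvW : v ∈ W := by
    apply AddSubgroup.subset_closure
    exact ⟨1, L_one v⟩
  have hdvd : ℓ ∣ Nat.card W := by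
    have h1 : addOrderOf (⟨v, hvW⟩ : W) = ℓ := by
      apply addOrderOf_eq_prime (htors _)
      intro h
      exact hv (congrArg Subtype.val h)
    rw [← h1]
    exact addOrderOf_dvd_natCard _
  have hmap : ∀ d : D, ∀ w ∈ W, L d w ∈ W := by
    intro d w hw
    rw [hW] at hw ⊢
    induction hw using AddSubgroup.closure_induction with
    | mem x hx =>
      obtain ⟨e, rfl⟩ := hx
      apply AddSubgroup.subset_closure
      exact ⟨d * e, L_mul d e v⟩
    | zero => rw [map_zero]; exact AddSubgroup.zero_mem _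
    | add x y _ _ hx hy => rw [map_add]; exact AddSubgroup.add_mem _ hx hy
    | neg x _ hx => rw [map_neg]; exact AddSubgroup.neg_mem _ hx
  let _ : MulAction D W :=
    { smul := fun d w => ⟨L d w, hmap d w w.2⟩
      one_smul := fun w => Subtype.ext (L_one w)
      mul_smul := fun d e w => Subtype.ext (L_mul d e w) }
  have h0 : (0 : W) ∈ MulAction.fixedPoints D W := fun d => Subtype.ext (map_zero (L d))
  obtain ⟨w, hw, hne⟩ := hD.exists_fixed_point_of_prime_dvd_card_of_fixed_point W hdvd h0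
  refine ⟨w, w.2, fun h => hne (Subtype.ext h.symm), fun d => congrArg Subtype.val (hw d)⟩

/-! ### values of class functions at irreducible characters -/

section val

variable {H : Type} [Group H] [Fintype H]

theorem val_classes [Fintype (ConjClasses H)] {ϑ Φ : H → ℂ} (hϑ : ϑ ∈ Irr H)
    (hΦ : ∀ x y, Φ (y * x * y⁻¹) = Φ x) :
    val Φ ϑ = ∑ K : ConjClasses H, omega (MonoidHom.id H) ϑ (Quotient.out K) *
      Φ (Quotient.out K) := by
  have h := sum_classes (φ := ϑ) (ψ := fun g => Φ g⁻¹) (irr_one_ne hϑ) (by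
    intro g k
    have e : (k * g * k⁻¹)⁻¹ = k * g⁻¹ * k⁻¹ := by group
    rw [e, hΦ])
  simp only [inv_inv] at h
  rw [val_eq, div_eq_iff (irr_one_ne hϑ), mul_comm _ (ϑ 1), ← h]
  apply Finset.sum_congr rfl
  intro t _
  ring

variable {M : Ideal (integralClosure ℤ ℂ)}

theorem val_integral {ϑ Φ : H → ℂ} (hϑ : ϑ ∈ Irr H) (hΦ : ∀ x y, Φ (y * x * y⁻¹) = Φ x)
    (hi : ∀ x, IsIntegral ℤ (Φ x)) : IsIntegral ℤ (val Φ ϑ) := by
  classical
  have := Fintype.ofFinite (ConjClasses H)
  rw [val_classes hϑ hΦ]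
  exact IsIntegral.sum _ fun K _ => (omega_integral _ hϑ _).mul (hi _)

theorem val_cong {ϑ Φ Ψ : H → ℂ} (hϑ : ϑ ∈ Irr H) (hΦ : ∀ x y, Φ (y * x * y⁻¹) = Φ x)
    (hΨ : ∀ x y, Ψ (y * x * y⁻¹) = Ψ x) (h : ∀ x, Cong M (Φ x) (Ψ x)) :
    Cong M (val Φ ϑ) (val Ψ ϑ) := by
  classical
  have := Fintype.ofFinite (ConjClasses H)
  rw [val_classes hϑ hΦ, val_classes hϑ hΨ]
  apply Cong.sum
  intro K _
  exact (h _).mul_left (omega_integral _ hϑ _)

theorem act_val {n : ℕ} (ρ : Representation ℂ H (Fin n → ℂ)) (hρ : ρ.IsIrreducible) {Φ : H → ℂ}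
    (hΦ : ∀ x y, Φ (y * x * y⁻¹) = Φ x) : act ρ Φ = (val Φ ρ.character) • LinearMap.id := by
  obtain ⟨c, hc⟩ := act_scalar ρ Φ hΦ
  have h1 : ρ.character 1 ≠ 0 := irr_one_ne ⟨n, ρ, hρ, rfl⟩
  have h2 := act_trace ρ Φ
  rw [hc] at h2
  have h3 : LinearMap.trace ℂ (Fin n → ℂ) (c • LinearMap.id) = c * ρ.character 1 := by
    rw [map_smul, smul_eq_mul]
    congr 1
    rw [Representation.character, map_one]; rfl
  rw [h3] at h2
  rw [hc]
  congr 1
  rw [val_eq, ← h2, mul_div_assoc, div_self h1, mul_one]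

theorem conv_eq (a b : H → ℂ) (x : H) : conv a b x = ∑ y, a y * b (y⁻¹ * x) := by
  unfold conv
  rw [finsum_eq_sum_of_fintype]

theorem conv_class {a b : H → ℂ} (ha : ∀ x y, a (y * x * y⁻¹) = a x)
    (hb : ∀ x y, b (y * x * y⁻¹) = b x) (x y : H) : conv a b (y * x * y⁻¹) = conv a b x := by
  rw [conv_eq, conv_eq]
  symm
  apply Fintype.sum_equiv (MulAut.conj y).toEquiv
  intro z
  show a z * b (z⁻¹ * x) = a (y * z * y⁻¹) * b ((y * z * y⁻¹)⁻¹ * (y * x * y⁻¹))
  have e : (y * z * y⁻¹)⁻¹ * (y * x * y⁻¹) = y * (z⁻¹ * x) * y⁻¹ := by group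
  rw [ha, e, hb]

theorem conv_integral {a b : H → ℂ} (ha : ∀ x, IsIntegral ℤ (a x))
    (hb : ∀ x, IsIntegral ℤ (b x)) (x : H) : IsIntegral ℤ (conv a b x) := by
  rw [conv_eq]
  exact IsIntegral.sum _ fun y _ => (ha _).mul (hb _)

theorem val_conv {ϑ a b : H → ℂ} (hϑ : ϑ ∈ Irr H) (ha : ∀ x y, a (y * x * y⁻¹) = a x) :
    val (conv a b) ϑ = val a ϑ * val b ϑ := by
  obtain ⟨n, ρ, hρ, rfl⟩ := hϑ
  have h1 := act_mul ρ a b
  rw [act_val ρ hρ ha] at h1
  have h2 := congrArg (LinearMap.trace ℂ (Fin n → ℂ)) h1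
  have h3 : (fun y => ∑ h, a h * b (h⁻¹ * y)) = conv a b := funext fun x => (conv_eq a b x).symm
  rw [h3, act_trace, smul_mul_assoc, map_smul] at h2
  have h4 : (LinearMap.id : (Fin n → ℂ) →ₗ[ℂ] (Fin n → ℂ)) * act ρ b = act ρ b := rfl
  rw [h4, act_trace, smul_eq_mul] at h2
  rw [val_eq (conv a b), ← h2, val_eq b]
  ring

end val

section kill

variable {H : Type} [Group H] [Fintype H] {M : Ideal (integralClosure ℤ ℂ)}

/-- convolution on functions with values in a ring -/
def cv {F : Type*} [CommRing F] (a : H → F) : (H → F) →ₗ[F] (H → F) where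
  toFun v x := ∑ y, a y * v (y⁻¹ * x)
  map_add' v w := by
    funext x
    simp only [Pi.add_apply, mul_add, Finset.sum_add_distrib]
  map_smul' c v := by
    funext x
    simp only [Pi.smul_apply, smul_eq_mul, RingHom.id_apply, Finset.mul_sum]
    apply Finset.sum_congr rfl
    intro y _; ring

theorem cv_apply {F : Type*} [CommRing F] (a v : H → F) (x : H) :
    cv a v x = ∑ y, a y * v (y⁻¹ * x) := rfl

/-- left translation -/
def tl {F : Type*} [CommRing F] (d : H) : (H → F) →+ (H → F) where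
  toFun v x := v (d⁻¹ * x)
  map_zero' := rfl
  map_add' _ _ := rfl

omit [Fintype H] in
theorem tl_apply {F : Type*} [CommRing F] (d : H) (v : H → F) (x : H) :
    tl d v x = v (d⁻¹ * x) := rfl

theorem tl_cv {F : Type*} [CommRing F] (a : H → F) (ha : ∀ x y, a (y * x * y⁻¹) = a x) (d : H)
    (v : H → F) : tl d (cv a v) = cv a (tl d v) := by
  funext x
  rw [tl_apply, cv_apply, cv_apply]
  apply Fintype.sum_equiv (MulAut.conj d).toEquiv
  intro y
  show a y * v (y⁻¹ * (d⁻¹ * x)) = a (d * y * d⁻¹) * tl d v ((d * y * d⁻¹)⁻¹ * x)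
  rw [ha, tl_apply]
  congr 2
  group

theorem tl_cv_pow {F : Type*} [CommRing F] (a : H → F) (ha : ∀ x y, a (y * x * y⁻¹) = a x)
    (d : H) (k : ℕ) (v : H → F) : tl d (((cv a) ^ k) v) = ((cv a) ^ k) (tl d v) := by
  induction k generalizing v with
  | zero => rfl
  | succ k ih =>
    rw [pow_succ, Module.End.mul_apply, Module.End.mul_apply, ih, tl_cv a ha]

/-- the convolution operator of a class function with support off the centraliser of a normal
`ℓ`-subgroup is nilpotent in characteristic `ℓ` -/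
theorem cv_nilpotent {F : Type*} [Field F] {ℓ : ℕ} [hp : Fact ℓ.Prime] (hF : (ℓ : F) = 0)
    {D : Subgroup H} (hn : D.Normal) (hD : IsPGroup ℓ D) (a : H → F)
    (ha : ∀ x y, a (y * x * y⁻¹) = a x) (h0 : ∀ y, (∀ d ∈ D, d * y = y * d) → a y = 0) :
    ∃ k, (cv a) ^ k = 0 := by
  obtain ⟨n, hn'⟩ := Filter.eventually_atTop.1 (LinearMap.eventually_isCompl_ker_pow_range_pow
    (cv a : (H → F) →ₗ[F] (H → F)))
  refine ⟨n + 1, ?_⟩
  have hc := hn' (n + 1) (Nat.le_succ n)
  by_contra hne
  obtain ⟨u, hu⟩ : ∃ u, ((cv a) ^ (n + 1)) u ≠ 0 := by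
    by_contra hcon
    push Not at hcon
    exact hne (LinearMap.ext hcon)
  set v := ((cv a) ^ (n + 1)) u with hv
  obtain ⟨w, hw, hw0, hfix⟩ := exists_fixed (V := H → F) hD (fun d : D => tl (d : H))
    (by
      intro v
      funext x
      rw [tl_apply, OneMemClass.coe_one, inv_one, one_mul])
    (by
      intro d e v
      funext x
      rw [tl_apply, tl_apply, tl_apply, MulMemClass.coe_mul, mul_inv_rev, mul_assoc])
    (by
      intro v
      funext x
      rw [Pi.smul_apply, nsmul_eq_mul, hF, zero_mul]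
      rfl) hu
  -- `w` lies in the range
  have hwr : w ∈ LinearMap.range ((cv a) ^ (n + 1)) := by
    have hle : AddSubgroup.closure (Set.range fun d : D => tl (d : H) v) ≤
        (LinearMap.range ((cv a) ^ (n + 1))).toAddSubgroup := by
      rw [AddSubgroup.closure_le]
      rintro _ ⟨e, rfl⟩
      exact ⟨tl (e : H) u, (tl_cv_pow a ha _ _ _).symm⟩
    exact hle hw
  -- `w` is killed by the operator
  have hker : cv a w = 0 := by
    funext x
    rw [cv_apply]
    apply sum_fix hF hD (fun y => a y * w (y⁻¹ * x))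
    · intro d hd y
      rw [ha]
      congr 1
      have e1 : (d * y * d⁻¹)⁻¹ * x = (d * (y⁻¹ * d⁻¹ * y) : H) * (y⁻¹ * x) := by group
      have m1 : d * (y⁻¹ * d⁻¹ * y) ∈ D := by
        have := hn.conj_mem _ (D.inv_mem hd) y⁻¹
        rw [inv_inv] at this
        exact D.mul_mem hd this
      have h1 := congrFun (hfix ⟨_, D.inv_mem m1⟩) (y⁻¹ * x)
      rw [tl_apply] at h1
      rw [e1, ← h1]
      simp only [inv_inv]
    · intro y hy
      rw [h0 y hy, zero_mul]
  have hw1 : w ∈ LinearMap.ker ((cv a) ^ (n + 1)) := by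
    rw [LinearMap.mem_ker, pow_succ, Module.End.mul_apply, hker, map_zero]
  exact hw0 (Submodule.disjoint_def.1 hc.disjoint w hw1 hwr)

open Classical in
/-- the iterated convolution powers -/
def pw (a : H → ℂ) : ℕ → H → ℂ
  | 0 => fun x => if x = 1 then 1 else 0
  | n + 1 => conv a (pw a n)

omit [Fintype H] in
theorem pw_zero (a : H → ℂ) [DecidableEq H] (x : H) : pw a 0 x = if x = 1 then 1 else 0 := by
  by_cases h : x = 1
  · rw [if_pos h]; simp [pw, h]
  · rw [if_neg h]; simp [pw, h]

theorem pw_integral {a : H → ℂ} (ha : ∀ x, IsIntegral ℤ (a x)) (n : ℕ) (x : H) :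
    IsIntegral ℤ (pw a n x) := by
  classical
  induction n generalizing x with
  | zero =>
    rw [pw_zero]
    split_ifs
    · exact isIntegral_one
    · exact isIntegral_zero
  | succ n ih => exact conv_integral ha ih x

theorem pw_class {a : H → ℂ} (ha : ∀ x y, a (y * x * y⁻¹) = a x) (n : ℕ) (x y : H) :
    pw a n (y * x * y⁻¹) = pw a n x := by
  classical
  induction n generalizing x y with
  | zero =>
    rw [pw_zero, pw_zero]
    have : y * x * y⁻¹ = 1 ↔ x = 1 := by
      rw [mul_inv_eq_one]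
      exact mul_eq_left
    simp only [this]
  | succ n ih => exact conv_class ha ih x y

theorem val_pw {ϑ a : H → ℂ} (hϑ : ϑ ∈ Irr H) (ha : ∀ x y, a (y * x * y⁻¹) = a x) (n : ℕ) :
    val (pw a n) ϑ = val a ϑ ^ n := by
  classical
  induction n with
  | zero =>
    rw [val_eq, pow_zero]
    simp only [pw_zero, ite_mul, one_mul, zero_mul, Finset.sum_ite_eq', Finset.mem_univ, if_true]
    exact div_self (irr_one_ne hϑ)
  | succ n ih =>
    rw [pow_succ', ← ih]
    exact val_conv hϑ ha

theorem red_pw [hM : M.IsMaximal] {a : H → ℂ} (ha : ∀ x, IsIntegral ℤ (a x)) (n : ℕ) :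
    (fun x => red M (pw a n x)) =
      ((cv (fun x => red M (a x))) ^ n) (fun x => red M (pw a 0 x)) := by
  induction n with
  | zero => rfl
  | succ n ih =>
    rw [pow_succ', Module.End.mul_apply, ← ih]
    funext x
    rw [cv_apply]
    show red M (conv a (pw a n) x) = _
    rw [conv_eq, red_sum]
    · apply Finset.sum_congr rfl
      intro y _
      rw [red_mul (ha y) (pw_integral ha n _)]
    · intro y _
      exact (ha y).mul (pw_integral ha n _)

theorem cong_pow_zero [hM : M.IsMaximal] {c : ℂ} (hc : IsIntegral ℤ c) {k : ℕ}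
    (h : Cong M (c ^ k) 0) : Cong M c 0 := by
  induction k with
  | zero =>
    rw [pow_zero] at h
    exact absurd h one_not_cong
  | succ k ih =>
    rw [pow_succ] at h
    rcases cong_mul_zero (hc.pow k) hc h with h1 | h1
    · exact ih h1
    · exact h1

end kill

/-- module KILL -/
theorem kill : KillStmt := by
  intro ℓ hp M hM hℓ H _ _ D hn hD ϑ hϑ a ha hi h0
  classical
  have := Fintype.ofFinite H
  have hF : (ℓ : FF M) = 0 := by
    have : (Ideal.Quotient.mk M) (ℓ : integralClosure ℤ ℂ) = 0 := Ideal.Quotient.eq_zero_iff_mem.2 hℓ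
    rwa [map_natCast] at this
  let _ : Field (FF M) := Ideal.Quotient.field M
  obtain ⟨k, hk⟩ := cv_nilpotent (F := FF M) hF hn hD (fun x => red M (a x))
    (fun x y => by rw [ha]) (by
      intro y hy
      have : a y = 0 := by
        by_contra hne
        obtain ⟨d, hd, hdy⟩ := h0 y hne
        exact hdy (hy d hd)
      rw [this, red_zero])
  have h1 := red_pw (M := M) hi k
  have h2 : ∀ x, Cong M (pw a k x) 0 := by
    intro x
    rw [← red_eq_iff (pw_integral hi k x) isIntegral_zero, red_zero]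
    have h3 := congrFun h1 x
    rw [hk] at h3
    exact h3
  apply cong_pow_zero (val_integral hϑ ha hi) (k := k)
  rw [← val_pw hϑ ha]
  have h4 := val_cong hϑ (pw_class ha k) (Ψ := fun _ => 0) (fun _ _ => rfl) h2
  have h5 : val (fun _ : H => (0 : ℂ)) ϑ = 0 := by
    rw [val_eq]; simp
  rwa [h5] at h4

/-- module BR (the dependence on KILL is discharged) -/
theorem br : BrStmt := by
  intro ℓ hp M hM hℓ G _ _ H D hD hDH hHN hCH ϑ hϑ a b ha hai hb hbi
  classical
  have := Fintype.ofFinite G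
  have := Fintype.ofFinite H
  set C : Subgroup G := Subgroup.centralizer (D : Set G) with hC
  have hCn : ∀ h ∈ H, ∀ x, x ∈ C ↔ h * x * h⁻¹ ∈ C := by
    intro h hh x
    have hN := Subgroup.mem_normalizer_iff.1 (hHN hh)
    have hN' := Subgroup.mem_normalizer_iff.1 (hHN (H.inv_mem hh))
    rw [hC, Subgroup.mem_centralizer_iff, Subgroup.mem_centralizer_iff]
    constructor
    · intro hx d hd
      have h1 := hx (h⁻¹ * d * h) (by
        have := (hN' d).1 hd
        rwa [inv_inv] at this)
      calc d * (h * x * h⁻¹) = h * ((h⁻¹ * d * h) * x) * h⁻¹ := by group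
        _ = h * (x * (h⁻¹ * d * h)) * h⁻¹ := by rw [h1]
        _ = h * x * h⁻¹ * d := by group
    · intro hx d hd
      have h1 := hx (h * d * h⁻¹) ((hN d).1 hd)
      calc d * x = h⁻¹ * ((h * d * h⁻¹) * (h * x * h⁻¹)) * h := by group
        _ = h⁻¹ * ((h * x * h⁻¹) * (h * d * h⁻¹)) * h := by rw [h1]
        _ = x * d := by group
  -- the part on `C` of a class function of `G`
  let cut : (G → ℂ) → (H → ℂ) := fun f h => if (h : G) ∈ C then f h else 0
  have hcutc : ∀ f : G → ℂ, (∀ x y, f (y * x * y⁻¹) = f x) →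
      ∀ x y : H, cut f (y * x * y⁻¹) = cut f x := by
    intro f hf x y
    show (if ((y * x * y⁻¹ : H) : G) ∈ C then f ((y * x * y⁻¹ : H) : G) else 0) =
      if (x : G) ∈ C then f x else 0
    have e : ((y * x * y⁻¹ : H) : G) = y * x * (y : G)⁻¹ := rfl
    rw [e, hf]
    have := hCn y y.2 x
    simp only [← this]
  have hcuti : ∀ f : G → ℂ, (∀ x, IsIntegral ℤ (f x)) → ∀ x : H, IsIntegral ℤ (cut f x) := by
    intro f hf x
    show IsIntegral ℤ (if (x : G) ∈ C then f x else 0)
    split_ifs
    · exact hf _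
    · exact isIntegral_zero
  -- only `C` matters
  have key : ∀ f : G → ℂ, (∀ x y, f (y * x * y⁻¹) = f x) → (∀ x, IsIntegral ℤ (f x)) →
      Cong M (val (fun h : H => f h) ϑ) (val (cut f) ϑ) := by
    intro f hf hfi
    rw [cong_iff_sub]
    have h1 := kill ℓ M hℓ H (D.subgroupOf H) (by
      constructor
      intro d hd h
      rw [Subgroup.mem_subgroupOf] at hd ⊢
      exact (Subgroup.mem_normalizer_iff.1 (hHN h.2) _).1 hd) (hD.comap_subtype) ϑ hϑ
      (fun h => f h - cut f h) (by
      intro x y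
      rw [hcutc f hf]
      congr 1
      exact hf _ _) (fun x => (hfi _).sub (hcuti f hfi x)) (by
      intro x hx
      by_contra hcon
      push Not at hcon
      apply hx
      have hxC : (x : G) ∈ C := by
        rw [hC, Subgroup.mem_centralizer_iff]
        intro d hd
        exact congrArg Subtype.val (hcon ⟨d, hDH hd⟩ (by rw [Subgroup.mem_subgroupOf]; exact hd))
      show f x - (if (x : G) ∈ C then f x else 0) = 0
      rw [if_pos hxC, sub_self])
    have h2 : val (fun h : H => f h) ϑ - val (cut f) ϑ = val (fun h : H => f h - cut f h) ϑ := by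
      rw [val_eq, val_eq, val_eq, ← sub_div, ← Finset.sum_sub_distrib]
      congr 1
      apply Finset.sum_congr rfl
      intro t _; ring
    rw [h2]
    exact h1
  -- the convolution on `C`
  have hconv : ∀ x : H, Cong M (cut (conv a b) x) (conv (cut a) (cut b) x) := by
    intro x
    by_cases hx : (x : G) ∈ C
    · have e1 : cut (conv a b) x = ∑ y : G, a y * b (y⁻¹ * x) := by
        show (if (x : G) ∈ C then conv a b x else 0) = _
        rw [if_pos hx, conv_eq]
      have e2 : conv (cut a) (cut b) x = ∑ y : G, (if y ∈ C then a y * b (y⁻¹ * x) else 0) := by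
        rw [conv_eq, ← Finset.sum_filter]
        have e3 : ∀ y : H, cut a y * cut b (y⁻¹ * x) =
            if (y : G) ∈ C then a y * b ((y : G)⁻¹ * x) else 0 := by
          intro y
          show (if (y : G) ∈ C then a y else 0) *
            (if ((y⁻¹ * x : H) : G) ∈ C then b ((y⁻¹ * x : H) : G) else 0) = _
          have e4 : ((y⁻¹ * x : H) : G) = (y : G)⁻¹ * x := rfl
          rw [e4]
          by_cases hy : (y : G) ∈ C
          · rw [if_pos hy, if_pos hy, if_pos (C.mul_mem (C.inv_mem hy) hx)]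
          · rw [if_neg hy, if_neg hy, zero_mul]
        simp_rw [e3]
        rw [← Finset.sum_filter]
        apply Finset.sum_bij (fun (y : H) _ => (y : G))
        · intro y hy
          exact Finset.mem_filter.2 ⟨Finset.mem_univ _, (Finset.mem_filter.1 hy).2⟩
        · intro y _ z _ h; exact Subtype.ext h
        · intro y hy
          have hyC := (Finset.mem_filter.1 hy).2
          exact ⟨⟨y, hCH hyC⟩, Finset.mem_filter.2 ⟨Finset.mem_univ _, hyC⟩, rfl⟩
        · intro y _; rfl
      have hint : ∀ y : G, IsIntegral ℤ (if y ∈ C then (0 : ℂ) else a y * b (y⁻¹ * x)) := by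
        intro y
        split_ifs
        · exact isIntegral_zero
        · exact (hai _).mul (hbi _)
      have e5 : cut (conv a b) x - conv (cut a) (cut b) x =
          ∑ y : G, (if y ∈ C then (0 : ℂ) else a y * b (y⁻¹ * x)) := by
        rw [e1, e2, ← Finset.sum_sub_distrib]
        apply Finset.sum_congr rfl
        intro y _
        split_ifs
        · rw [sub_self]
        · rw [sub_zero]
      rw [cong_iff_sub, e5, ← red_eq_iff (IsIntegral.sum _ fun y _ => hint y) isIntegral_zero,
        red_zero, red_sum _ _ (fun y _ => hint y)]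
      have hF : (ℓ : FF M) = 0 := by
        have : (Ideal.Quotient.mk M) (ℓ : integralClosure ℤ ℂ) = 0 :=
          Ideal.Quotient.eq_zero_iff_mem.2 hℓ
        rwa [map_natCast] at this
      apply sum_fix hF hD (fun y => red M (if y ∈ C then (0 : ℂ) else a y * b (y⁻¹ * x)))
      · intro d hd y
        have h1 : d * y * d⁻¹ ∈ C ↔ y ∈ C := (hCn d (hDH hd) y).symm
        have h2 : (d * y * d⁻¹)⁻¹ * x = d * (y⁻¹ * x) * d⁻¹ := by
          have h3 := (Subgroup.mem_centralizer_iff.1 hx) d hd
          calc (d * y * d⁻¹)⁻¹ * x = d * y⁻¹ * d⁻¹ * x := by group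
            _ = d * y⁻¹ * d⁻¹ * (x * d) * d⁻¹ := by group
            _ = d * y⁻¹ * d⁻¹ * (d * x) * d⁻¹ := by rw [h3]
            _ = _ := by group
        rw [h2, ha, hb]
        simp only [h1]
      · intro y hy
        have : y ∈ C := by
          rw [hC, Subgroup.mem_centralizer_iff]
          exact hy
        simp only [if_pos this, red_zero]
    · have e1 : cut (conv a b) x = 0 := by
        show (if (x : G) ∈ C then conv a b x else 0) = _
        rw [if_neg hx]
      have e2 : conv (cut a) (cut b) x = 0 := by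
        rw [conv_eq]
        apply Finset.sum_eq_zero
        intro y _
        show (if (y : G) ∈ C then a y else 0) *
            (if ((y⁻¹ * x : H) : G) ∈ C then b ((y⁻¹ * x : H) : G) else 0) = _
        by_cases hy : (y : G) ∈ C
        · rw [if_neg (c := ((y⁻¹ * x : H) : G) ∈ C), mul_zero]
          intro h
          apply hx
          have := C.mul_mem hy h
          have e : (y : G) * ((y⁻¹ * x : H) : G) = x := by
            show (y : G) * ((y : G)⁻¹ * x) = x
            group
          rwa [e] at this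
        · rw [if_neg hy, zero_mul]
      rw [e1, e2]
      exact Cong.refl _
  have hcc := fun x y => conv_class ha hb x y
  have h1 := key (conv a b) hcc (conv_integral hai hbi)
  have h2 := val_cong hϑ (hcutc _ hcc) (conv_class (hcutc a ha) (hcutc b hb)) hconv
  rw [val_conv hϑ (hcutc a ha)] at h2
  have ia : IsIntegral ℤ (val (fun h : H => a h) ϑ) :=
    val_integral hϑ (fun x y => ha _ _) (fun x => hai _)
  have ib : IsIntegral ℤ (val (cut b) ϑ) := val_integral hϑ (hcutc b hb) (hcuti b hbi)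
  have h3 := (key a ha hai).mul (key b hb hbi) ?_ ?_
  · exact h1.trans (h2.trans h3.symm)
  · exact val_integral hϑ (hcutc a ha) (hcuti a hai)
  · exact val_integral hϑ (fun x y => hb _ _) (fun x => hbi _)

end Pool.Agent.Helper79_WRA.H44
end
end -- Pool.Agent.Helper44_WRA.Kill

section -- Pool.Agent.Helper47_WRA.Dzt

/-!
WRA, module DZT: Frobenius twists of characters of defect zero.
-/

open scoped BigOperators

noncomputable section

namespace Pool.Agent.Helper79_WRA.H47

open Pool.Agent.Helper51_AWC Pool.Agent.Helper79_WRA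

section

variable {G : Type} [Group G]

open Classical in
/-- the indicator function of a class -/
def ic (A : ConjClasses G) : G → ℂ := fun x => if ConjClasses.mk x = A then 1 else 0

theorem mk_conj (x y : G) : ConjClasses.mk (y * x * y⁻¹) = ConjClasses.mk x := by
  rw [ConjClasses.mk_eq_mk_iff_isConj]
  exact (isConj_iff.2 ⟨y, rfl⟩).symm

theorem ic_class (A : ConjClasses G) (x y : G) : ic A (y * x * y⁻¹) = ic A x := by
  unfold ic
  rw [mk_conj]

theorem ic_integral (A : ConjClasses G) (x : G) : IsIntegral ℤ (ic A x) := by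
  unfold ic
  split_ifs
  · exact isIntegral_one
  · exact isIntegral_zero

theorem mk_out (A : ConjClasses G) : ConjClasses.mk (Quotient.out A) = A := Quotient.out_eq A

theorem class_out {a : G → ℂ} (ha : ∀ x y, a (y * x * y⁻¹) = a x) (x : G) :
    a x = a (Quotient.out (ConjClasses.mk x)) := by
  have h : IsConj (Quotient.out (ConjClasses.mk x)) x :=
    ConjClasses.mk_eq_mk_iff_isConj.1 (mk_out _)
  obtain ⟨c, hc⟩ := isConj_iff.1 h
  conv_lhs => rw [← hc]
  rw [ha]

/-- a class function as a combination of indicators -/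
theorem class_sum [Fintype (ConjClasses G)] {a : G → ℂ} (ha : ∀ x y, a (y * x * y⁻¹) = a x)
    (x : G) : a x = ∑ A : ConjClasses G, a (Quotient.out A) * ic A x := by
  classical
  rw [Finset.sum_eq_single_of_mem (ConjClasses.mk x) (Finset.mem_univ _)]
  · unfold ic
    rw [if_pos rfl, mul_one]
    exact class_out ha x
  · intro B _ hB
    unfold ic
    rw [if_neg (fun h => hB h.symm), mul_zero]

variable [Fintype G]

theorem conv_bilin [Fintype (ConjClasses G)] {a b : G → ℂ}
    (ha : ∀ x y, a (y * x * y⁻¹) = a x) (hb : ∀ x y, b (y * x * y⁻¹) = b x) (x : G) :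
    conv a b x = ∑ A : ConjClasses G, ∑ B : ConjClasses G,
      a (Quotient.out A) * b (Quotient.out B) * conv (ic A) (ic B) x := by
  simp_rw [H44.conv_eq]
  have h : ∀ y : G, a y * b (y⁻¹ * x) = ∑ A : ConjClasses G, ∑ B : ConjClasses G,
      a (Quotient.out A) * b (Quotient.out B) * (ic A y * ic B (y⁻¹ * x)) := by
    intro y
    conv_lhs => rw [class_sum ha y, class_sum hb (y⁻¹ * x), Finset.sum_mul_sum]
    refine Finset.sum_congr rfl fun A _ => Finset.sum_congr rfl fun B _ => ?_
    ring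
  simp_rw [h]
  rw [Finset.sum_comm]
  refine Finset.sum_congr rfl fun A _ => ?_
  rw [Finset.sum_comm]
  refine Finset.sum_congr rfl fun B _ => ?_
  rw [Finset.mul_sum]

theorem conv_ic_nat (A B : ConjClasses G) (x : G) : ∃ m : ℕ, conv (ic A) (ic B) x = m := by
  classical
  have h : ∀ (C : ConjClasses G) (y : G), ∃ m : ℕ, ic C y = m := by
    intro C y
    unfold ic
    split_ifs
    · exact ⟨1, Nat.cast_one.symm⟩
    · exact ⟨0, Nat.cast_zero.symm⟩
  choose f hf using h
  refine ⟨∑ y : G, f A y * f B (y⁻¹ * x), ?_⟩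
  rw [H44.conv_eq, Nat.cast_sum]
  refine Finset.sum_congr rfl fun y _ => ?_
  rw [hf, hf, Nat.cast_mul]

theorem val_ic [Fintype (ConjClasses G)] (A : ConjClasses G) {ξ : G → ℂ} (hξ : ξ ∈ Irr G) :
    val (ic A) ξ = omega (MonoidHom.id G) ξ (Quotient.out A) := by
  classical
  rw [H44.val_classes hξ (ic_class A), Finset.sum_eq_single_of_mem A (Finset.mem_univ _)]
  · unfold ic
    rw [if_pos (mk_out A), mul_one]
  · intro B _ hB
    unfold ic
    rw [if_neg (fun h => hB ((mk_out B).symm.trans h)), mul_zero]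

/-- the functional -/
def Wq [Fintype (ConjClasses G)] (ξ : G → ℂ) (q : ℕ) : (G → ℂ) →ₗ[ℂ] ℂ where
  toFun a := ∑ K : ConjClasses G, a (Quotient.out K) *
    (omega (MonoidHom.id G) ξ (Quotient.out K)) ^ q
  map_add' a b := by
    rw [← Finset.sum_add_distrib]
    refine Finset.sum_congr rfl fun K _ => ?_
    rw [Pi.add_apply]; ring
  map_smul' c a := by
    rw [RingHom.id_apply, smul_eq_mul, Finset.mul_sum]
    refine Finset.sum_congr rfl fun K _ => ?_
    rw [Pi.smul_apply, smul_eq_mul]; ring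

omit [Fintype G] in
theorem Wq_apply [Fintype (ConjClasses G)] (ξ : G → ℂ) (q : ℕ) (a : G → ℂ) :
    Wq ξ q a = ∑ K : ConjClasses G, a (Quotient.out K) *
      (omega (MonoidHom.id G) ξ (Quotient.out K)) ^ q := rfl

omit [Fintype G] in
theorem Wq_ic [Fintype (ConjClasses G)] (ξ : G → ℂ) (q : ℕ) (A : ConjClasses G) :
    Wq ξ q (ic A) = (omega (MonoidHom.id G) ξ (Quotient.out A)) ^ q := by
  classical
  rw [Wq_apply, Finset.sum_eq_single_of_mem A (Finset.mem_univ _)]
  · unfold ic
    rw [if_pos (mk_out A), one_mul]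
  · intro B _ hB
    unfold ic
    rw [if_neg (fun h => hB ((mk_out B).symm.trans h)), zero_mul]

theorem Wq_integral [Fintype (ConjClasses G)] {ξ : G → ℂ} (hξ : ξ ∈ Irr G) (q : ℕ) {a : G → ℂ}
    (hi : ∀ x, IsIntegral ℤ (a x)) : IsIntegral ℤ (Wq ξ q a) := by
  rw [Wq_apply]
  exact IsIntegral.sum _ fun K _ => (hi _).mul ((omega_integral _ hξ _).pow q)

variable {M : Ideal (integralClosure ℤ ℂ)}

theorem red_natCast (m : ℕ) : red M (m : ℂ) = (m : FF M) := by
  induction m with
  | zero => rw [Nat.cast_zero, Nat.cast_zero, red_zero]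
  | succ m ih =>
    rw [Nat.cast_succ, Nat.cast_succ, red_add (AI.natCast m) isIntegral_one, ih, red_one]

theorem charP_FF {ℓ : ℕ} [Fact ℓ.Prime] [M.IsMaximal] (hℓ : (ℓ : integralClosure ℤ ℂ) ∈ M) :
    CharP (FF M) ℓ := by
  have h0 : ((ℓ : ℕ) : FF M) = 0 := by
    have h1 : Ideal.Quotient.mk M (ℓ : integralClosure ℤ ℂ) = 0 :=
      Ideal.Quotient.eq_zero_iff_mem.2 hℓ
    rwa [map_natCast] at h1
  have : Nontrivial (FF M) := Ideal.Quotient.nontrivial_iff.2 (Ideal.IsMaximal.ne_top ‹_›)
  exact (CharP.charP_iff_prime_eq_zero (R := FF M) (Fact.out : ℓ.Prime)).2 h0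

theorem natCast_pow {ℓ : ℕ} [hp : Fact ℓ.Prime] {F : Type*} [CommRing F] [CharP F ℓ] (m n : ℕ) :
    ((m : F)) ^ (ℓ ^ n) = m := by
  induction m with
  | zero =>
    rw [Nat.cast_zero, zero_pow (pow_ne_zero _ hp.out.ne_zero)]
  | succ m ih =>
    rw [Nat.cast_succ, add_pow_char_pow, ih, one_pow]

/-- multiplicativity on the indicators -/
theorem Wq_conv_ic [Fintype (ConjClasses G)] {ℓ : ℕ} [Fact ℓ.Prime] [M.IsMaximal]
    (hℓ : (ℓ : integralClosure ℤ ℂ) ∈ M) {ξ : G → ℂ} (hξ : ξ ∈ Irr G) (n : ℕ)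
    (A B : ConjClasses G) :
    Cong M (Wq ξ (ℓ ^ n) (conv (ic A) (ic B)))
      ((omega (MonoidHom.id G) ξ (Quotient.out A)) ^ (ℓ ^ n) *
        (omega (MonoidHom.id G) ξ (Quotient.out B)) ^ (ℓ ^ n)) := by
  have hch := charP_FF (M := M) hℓ
  choose N hN using conv_ic_nat A B
  have hci : ∀ x, IsIntegral ℤ (conv (ic A) (ic B) x) :=
    H44.conv_integral (ic_integral A) (ic_integral B)
  have hw : ∀ g, IsIntegral ℤ (omega (MonoidHom.id G) ξ g) := fun g => omega_integral _ hξ g
  obtain ⟨w, hwd⟩ : ∃ w : ConjClasses G → ℂ, ∀ K, w K = omega (MonoidHom.id G) ξ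
    (Quotient.out K) := ⟨_, fun _ => rfl⟩
  obtain ⟨c, hcd⟩ : ∃ c : ConjClasses G → ℂ, ∀ K, c K = conv (ic A) (ic B)
    (Quotient.out K) := ⟨_, fun _ => rfl⟩
  have hwI : ∀ K, IsIntegral ℤ (w K) := fun K => by rw [hwd]; exact hw _
  have hcI : ∀ K, IsIntegral ℤ (c K) := fun K => by rw [hcd]; exact hci _
  have e1 : Wq ξ (ℓ ^ n) (conv (ic A) (ic B)) = ∑ K : ConjClasses G, c K * w K ^ (ℓ ^ n) := by
    rw [Wq_apply]
    exact Finset.sum_congr rfl fun K _ => by rw [hwd, hcd]
  have e2 : w A * w B = ∑ K : ConjClasses G, w K * c K := by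
    rw [hwd, hwd, ← val_ic A hξ, ← val_ic B hξ, ← H44.val_conv hξ (ic_class A),
      H44.val_classes hξ (H44.conv_class (ic_class A) (ic_class B))]
    exact Finset.sum_congr rfl fun K _ => by rw [hwd, hcd]
  rw [e1, ← hwd A, ← hwd B, ← mul_pow, e2]
  rw [← red_eq_iff (IsIntegral.sum _ fun K _ => (hcI K).mul ((hwI K).pow _))
    ((IsIntegral.sum _ fun K _ => (hwI K).mul (hcI K)).pow _),
    red_pow (IsIntegral.sum _ fun K _ => (hwI K).mul (hcI K)),
    red_sum _ _ (fun K _ => (hwI K).mul (hcI K)), sum_pow_char_pow,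
    red_sum _ _ (fun K _ => (hcI K).mul ((hwI K).pow _))]
  refine Finset.sum_congr rfl fun K _ => ?_
  have e3 : c K = (N (Quotient.out K) : ℂ) := by rw [hcd, hN]
  rw [e3, red_mul (AI.natCast _) ((hwI K).pow _), red_mul (hwI K) (AI.natCast _), mul_pow,
    red_natCast, natCast_pow, red_pow (hwI K), mul_comm]

theorem Wq_conv [Fintype (ConjClasses G)] {ℓ : ℕ} [Fact ℓ.Prime] [M.IsMaximal]
    (hℓ : (ℓ : integralClosure ℤ ℂ) ∈ M) {ξ : G → ℂ} (hξ : ξ ∈ Irr G) (n : ℕ) {a b : G → ℂ}
    (ha : ∀ x y, a (y * x * y⁻¹) = a x) (hai : ∀ x, IsIntegral ℤ (a x))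
    (hb : ∀ x y, b (y * x * y⁻¹) = b x) (hbi : ∀ x, IsIntegral ℤ (b x)) :
    Cong M (Wq ξ (ℓ ^ n) (conv a b)) (Wq ξ (ℓ ^ n) a * Wq ξ (ℓ ^ n) b) := by
  have e1 : conv a b = ∑ A : ConjClasses G, ∑ B : ConjClasses G,
      (a (Quotient.out A) * b (Quotient.out B)) • conv (ic A) (ic B) := by
    funext x
    rw [conv_bilin ha hb x]
    simp only [Finset.sum_apply, Pi.smul_apply, smul_eq_mul]
  have e2 : Wq ξ (ℓ ^ n) (conv a b) = ∑ A : ConjClasses G, ∑ B : ConjClasses G,
      a (Quotient.out A) * b (Quotient.out B) * Wq ξ (ℓ ^ n) (conv (ic A) (ic B)) := by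
    rw [e1, map_sum]
    refine Finset.sum_congr rfl fun A _ => ?_
    rw [map_sum]
    refine Finset.sum_congr rfl fun B _ => ?_
    rw [map_smul, smul_eq_mul]
  have e3 : Wq ξ (ℓ ^ n) a * Wq ξ (ℓ ^ n) b = ∑ A : ConjClasses G, ∑ B : ConjClasses G,
      a (Quotient.out A) * b (Quotient.out B) *
        ((omega (MonoidHom.id G) ξ (Quotient.out A)) ^ (ℓ ^ n) *
        (omega (MonoidHom.id G) ξ (Quotient.out B)) ^ (ℓ ^ n)) := by
    rw [Wq_apply, Wq_apply, Finset.sum_mul_sum]
    refine Finset.sum_congr rfl fun A _ => Finset.sum_congr rfl fun B _ => ?_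
    ring
  rw [e2, e3]
  apply Cong.sum
  intro A _
  apply Cong.sum
  intro B _
  exact (Wq_conv_ic hℓ hξ n A B).mul_left ((hai _).mul (hbi _))

end

theorem dzt (halg : AlgStmt) (hgal : GalStmt) (hpos : PosStmt) : DztStmt := by
  intro ℓ hp M hM hℓ G _ _ hop ξ hξ n
  classical
  have := Fintype.ofFinite G
  have := Fintype.ofFinite (ConjClasses G)
  have hMp : M.IsPrime := hM.isPrime
  have hcard : (Nat.card G : ℂ) = (Fintype.card G : ℂ) := by rw [Nat.card_eq_fintype_card]
  obtain ⟨p1, -, p3, p4⟩ := hpos ℓ M hℓ G hop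
  have hw : ∀ g, IsIntegral ℤ (omega (MonoidHom.id G) ξ g) := fun g => omega_integral _ hξ.1 g
  obtain ⟨χ, hχ, hW⟩ := halg M G (Wq ξ (ℓ ^ n))
    (fun a _ hai => Wq_integral hξ.1 _ hai)
    (fun a b ha hai hb hbi => Wq_conv hℓ hξ.1 n ha hai hb hbi)
    (by
      intro a ha0 ha1
      have hcl : ∀ x y, a (y * x * y⁻¹) = a x := by
        intro x y
        by_cases hx : x = 1
        · subst hx; rw [mul_one, mul_inv_cancel]
        · rw [ha0 x hx, ha0]
          intro h
          apply hx
          have := congrArg (fun z => y⁻¹ * z * y) h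
          simpa [mul_assoc] using this
      rw [Wq_apply, Finset.sum_eq_single_of_mem (ConjClasses.mk (1 : G)) (Finset.mem_univ _)]
      · have h1 : (Quotient.out (ConjClasses.mk (1 : G)) : G) = 1 := by
          have h2 : IsConj (Quotient.out (ConjClasses.mk (1 : G))) (1 : G) :=
            ConjClasses.mk_eq_mk_iff_isConj.1 (mk_out _)
          exact isConj_one_left.1 h2
        rw [h1, ha1, one_mul]
        have h3 : omega (MonoidHom.id G) ξ 1 = 1 :=
          omega_one (i := MonoidHom.id G) (fun _ _ h => h) (irr_one_ne hξ.1)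
        rw [h3, one_pow]
        exact Cong.refl _
      · intro K _ hK
        rw [ha0, zero_mul]
        intro h
        apply hK
        rw [← h, mk_out])
  -- the label of `χ`
  have htw : IsTw ℓ M n ξ χ := by
    intro g
    unfold labF
    have h1 := hW (ic (ConjClasses.mk g)) (ic_class _) (ic_integral _)
    rw [Wq_ic, val_ic _ hχ] at h1
    have hout : IsConj (Quotient.out (ConjClasses.mk g)) g :=
      ConjClasses.mk_eq_mk_iff_isConj.1 (mk_out _)
    have h2 : ∀ η : G → ℂ, omega (MonoidHom.id G) η (Quotient.out (ConjClasses.mk g)) =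
        omega (MonoidHom.id G) η g := by
      intro η
      rw [omega_eq, omega_eq]
      congr 1
      refine Finset.sum_congr rfl fun x _ => ?_
      have h3 : IsConj (Quotient.out (ConjClasses.mk g)) ((MonoidHom.id G) x) ↔
          IsConj g ((MonoidHom.id G) x) :=
        ⟨fun h => hout.symm.trans h, fun h => hout.trans h⟩
      by_cases h4 : IsConj g ((MonoidHom.id G) x)
      · rw [if_pos h4, if_pos (h3.2 h4)]
      · rw [if_neg h4, if_neg (fun h => h4 (h3.1 h))]
    rw [h2, h2] at h1
    rw [← red_pow (hw g)]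
    exact ((red_eq_iff ((hw g).pow _) (omega_integral _ hχ g)).2 h1).symm
  -- `χ` has defect zero
  have hdom : IsDomain (FF M) := Ideal.Quotient.isDomain M
  have hDZ : ¬ LargeDefect ℓ M χ := by
    intro hL
    obtain ⟨g, hg, hne⟩ := p4 ξ hξ.1 hξ.2
    have h1 := p3 χ hχ hL g hg
    rw [htw g] at h1
    exact hne (pow_eq_zero_iff (pow_ne_zero _ hp.out.ne_zero) |>.1 h1)
  -- the Galois conjugate
  obtain ⟨ψ, hψ, hdeg, hlab⟩ := hgal ℓ M hℓ G ξ hξ.1 n
  have hcod : ¬ Cong M ((Fintype.card G : ℂ) / ψ 1) 0 := by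
    intro h
    apply hξ.2
    rw [p1 ξ hξ.1, hcard, ← hdeg]
    exact H83.red_zero_of_cong h
  have heq : χ = ψ := by
    by_contra hne
    apply hcod
    rw [codeg_eq hψ]
    have h1 := sum_classes (irr_one_ne hχ) (fun g h => irr_conj hψ g h)
    rw [irr_orth_ne hχ hψ hne] at h1
    have h2 : ∑ K : ConjClasses G,
        omega (MonoidHom.id G) χ (Quotient.out K) * ψ (Quotient.out K)⁻¹ = 0 := by
      rcases mul_eq_zero.1 h1.symm with h3 | h3
      · exact absurd h3 (irr_one_ne hχ)
      · exact h3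
    rw [← h2]
    apply Cong.sum
    intro K _
    by_cases hd : ℓ ∣ Nat.card (Subgroup.centralizer {Quotient.out K} : Subgroup G)
    · have h3 : Cong M ((Fintype.card G : ℂ) / ψ 1 * ψ (Quotient.out K)⁻¹) 0 := by
        rw [H83.codeg_mul hψ, H83.centralizer_inv_eq]
        exact (cong_nat_of_dvd hℓ hd).mul_zero_right (omega_integral _ hψ _)
      have h4 : Cong M (ψ (Quotient.out K)⁻¹) 0 := by
        rcases cong_mul_zero (H83.codeg_integral hψ) (irr_integral hψ _) h3 with h5 | h5
        · exact absurd h5 hcod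
        · exact h5
      exact (h4.mul_zero_left (omega_integral _ hψ _)).trans
        (h4.mul_zero_left (omega_integral _ hχ _)).symm
    · have h3 := hlab _ hd
      rw [← htw] at h3
      exact ((red_eq_iff (omega_integral _ hψ _) (omega_integral _ hχ _)).1 h3).mul_right
        (irr_integral hψ _)
  exact ⟨χ, ⟨hχ, hDZ⟩, by rw [heq, hdeg], htw⟩

end Pool.Agent.Helper79_WRA.H47
end
end -- Pool.Agent.Helper47_WRA.Dzt

section -- Pool.Agent.Helper48_WRA.Dzu

/-!
WRA, modules DZU and DZN: a character of defect zero is alone in its block, and the labels of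
characters of stabilisers of nontrivial chains vanish on classes of defect zero.
-/

open scoped BigOperators

noncomputable section

namespace Pool.Agent.Helper79_WRA.H48

open Pool.Agent.Helper51_AWC

theorem dzu (hPos : PosStmt) : DzuStmt := by
  intro ℓ hℓ M hM hℓM G _ _ hcore ξ hξ ξ' hξ' hlab
  classical
  by_contra hne
  have := Fintype.ofFinite G
  have := Fintype.ofFinite (ConjClasses G)
  have hξ1 : ξ ∈ Irr G := hξ.1
  apply hξ.2
  rw [(hPos ℓ M hℓM G hcore).1 ξ hξ1]
  have hint : IsIntegral ℤ ((Nat.card G : ℂ) / ξ 1) := by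
    rw [Nat.card_eq_fintype_card, codeg_eq hξ1]
    apply IsIntegral.sum
    intro K _
    exact (omega_integral _ hξ1 _).mul (irr_integral hξ1 _)
  rw [← red_zero (M := M), red_eq_iff hint isIntegral_zero]
  rw [Nat.card_eq_fintype_card, codeg_eq hξ1]
  have h1 := sum_classes (irr_one_ne hξ') (fun g h => irr_conj hξ1 g h)
  rw [irr_orth_ne hξ' hξ1 (fun h => hne h.symm)] at h1
  have h2 : ∑ K : ConjClasses G,
      omega (MonoidHom.id G) ξ' (Quotient.out K) * ξ (Quotient.out K)⁻¹ = 0 := by
    rcases mul_eq_zero.1 h1.symm with h3 | h3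
    · exact absurd h3 (irr_one_ne hξ')
    · exact h3
  rw [← h2]
  apply Cong.sum
  intro K _
  refine Cong.mul_right ?_ (irr_integral hξ1 _)
  rw [← red_eq_iff (omega_integral _ hξ1 _) (omega_integral _ hξ' _)]
  exact congrFun hlab _

theorem card_centralizer_conj {G : Type} [Group G] {g x : G} (h : IsConj g x) :
    Nat.card (Subgroup.centralizer {g} : Subgroup G) =
      Nat.card (Subgroup.centralizer {x} : Subgroup G) := by
  obtain ⟨c, rfl⟩ := isConj_iff.1 h
  rw [← card_conjS c (Subgroup.centralizer {g})]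
  congr 1
  have : conjS c (Subgroup.centralizer {g}) = Subgroup.centralizer {c * g * c⁻¹} := by
    ext y
    rw [mem_conjS, Subgroup.mem_centralizer_singleton_iff, Subgroup.mem_centralizer_singleton_iff]
    constructor
    · intro hy
      calc y * (c * g * c⁻¹) = c * (c⁻¹ * y * c * g) * c⁻¹ := by group
        _ = c * (g * (c⁻¹ * y * c)) * c⁻¹ := by rw [hy]
        _ = c * g * c⁻¹ * y := by group
    · intro hy
      calc c⁻¹ * y * c * g = c⁻¹ * (y * (c * g * c⁻¹)) * c := by group
        _ = c⁻¹ * (c * g * c⁻¹ * y) * c := by rw [hy]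
        _ = g * (c⁻¹ * y * c) := by group
  rw [this]

theorem exists_smallest {G : Type} [Group G] [Finite G] {d : Finset (Subgroup G)}
    (hch : IsChain (· ≤ ·) (d : Set (Subgroup G))) (hne : ∃ D ∈ d, D ≠ ⊥) :
    ∃ D₁ ∈ d, D₁ ≠ ⊥ ∧ ∀ D ∈ d, D ≠ ⊥ → D₁ ≤ D := by
  classical
  obtain ⟨D₀, hD₀, hD₀'⟩ := hne
  obtain ⟨D₁, hD₁, hmin⟩ := Finset.exists_min_image (d.filter fun D => D ≠ ⊥)
    (fun D => Nat.card D) ⟨D₀, Finset.mem_filter.2 ⟨hD₀, hD₀'⟩⟩
  rw [Finset.mem_filter] at hD₁
  refine ⟨D₁, hD₁.1, hD₁.2, ?_⟩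
  intro D hD hD'
  rcases chain_total hch hD₁.1 hD with h | h
  · exact h
  · have h1 := hmin D (Finset.mem_filter.2 ⟨hD, hD'⟩)
    have : D = D₁ := by
      apply Subgroup.eq_of_le_of_card_ge h
      exact h1
    exact this.ge

theorem dzn (hKill : KillStmt) : DznStmt := by
  intro ℓ hℓ M hM hℓM G _ _ d hpg hch hne a ha g hg
  classical
  have := Fintype.ofFinite G
  obtain ⟨D₁, hD₁, hD₁n, hmin⟩ := exists_smallest hch hne
  have hle : D₁ ≤ stab d := by
    intro x hx
    rw [mem_stab]
    intro D hD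
    by_cases hD0 : D = ⊥
    · subst hD0
      ext y
      rw [mem_conjS, Subgroup.mem_bot, Subgroup.mem_bot]
      constructor
      · intro h
        have : y = x * (x⁻¹ * y * x) * x⁻¹ := by group
        rw [this, h]; group
      · rintro rfl; group
    · have hxD : x ∈ D := hmin D hD hD0 hx
      rw [← mem_normalizer_iff_conjS]
      exact Subgroup.le_normalizer hxD
  have hnorm : stab d ≤ Subgroup.normalizer (D₁ : Set G) := by
    intro x hx
    rw [mem_normalizer_iff_conjS]
    exact mem_stab.1 hx D₁ hD₁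
  have hN : (D₁.subgroupOf (stab d)).Normal := by
    constructor
    intro x hx y
    rw [Subgroup.mem_subgroupOf] at hx ⊢
    have := (Subgroup.mem_normalizer_iff.1 (hnorm y.2) x).1 hx
    simpa using this
  have hP : IsPGroup ℓ (D₁.subgroupOf (stab d)) :=
    (hpg D₁ hD₁).of_injective (Subgroup.subgroupOfEquivOfLe hle).toMonoidHom
      (Subgroup.subgroupOfEquivOfLe hle).injective
  have key := hKill ℓ M hℓM (stab d) (D₁.subgroupOf (stab d)) hN hP (fun h => a h) ha.2
    (fun h => if IsConj g (h : G) then (1 : ℂ) else 0) (by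
      intro x y
      have : IsConj g ((y * x * y⁻¹ : stab d) : G) ↔ IsConj g (x : G) := by
        have h1 : IsConj (x : G) ((y * x * y⁻¹ : stab d) : G) := isConj_iff.2 ⟨y, by simp⟩
        exact ⟨fun h' => h'.trans h1.symm, fun h' => h'.trans h1⟩
      simp only [this]) (by
      intro x
      split_ifs
      · exact isIntegral_one
      · exact isIntegral_zero) (by
      intro x hx
      have hgx : IsConj g (x : G) := by
        by_contra hcon
        exact hx (if_neg hcon)
      by_contra hcon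
      push Not at hcon
      apply hg
      rw [card_centralizer_conj hgx]
      have h1 : D₁ ≤ Subgroup.centralizer {(x : G)} := by
        intro y hy
        rw [Subgroup.mem_centralizer_singleton_iff]
        have := hcon ⟨y, hle hy⟩ (by rw [Subgroup.mem_subgroupOf]; exact hy)
        exact congrArg Subtype.val this
      have h2 : ℓ ∣ Nat.card D₁ := by
        obtain ⟨k, hk⟩ := (IsPGroup.iff_card (p := ℓ)).1 (hpg D₁ hD₁)
        rw [hk]
        apply dvd_pow_self
        rintro rfl
        apply hD₁n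
        rw [pow_zero] at hk
        exact (Subgroup.card_eq_one).1 hk
      exact h2.trans (Subgroup.card_dvd_of_le h1))
  have hval : val (fun h : stab d => if IsConj g (h : G) then (1 : ℂ) else 0)
      (fun h : stab d => a h) = omega (MonoidHom.id G) a g := by
    rw [omega_IrrS ha]
    have := Fintype.ofFinite (stab d)
    rw [val_eq, omega_eq]
    congr 1
    apply Finset.sum_congr rfl
    intro h _
    by_cases hc : IsConj g (h : G)
    · rw [if_pos hc, if_pos (show IsConj g ((stab d).subtype h) from hc), one_mul]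
    · rw [if_neg hc, if_neg (show ¬ IsConj g ((stab d).subtype h) from hc), zero_mul]
  rw [hval] at key
  show red M (omega (MonoidHom.id G) a g) = 0
  rw [← red_zero (M := M), red_eq_iff (omega_IrrS_integral ha g) isIntegral_zero]
  exact key

end Pool.Agent.Helper79_WRA.H48
end
end -- Pool.Agent.Helper48_WRA.Dzu

section -- Pool.Agent.Helper87_CC.Dz1

/-!
CC, module DZ1: the alternating sum of a block of defect zero is one.
-/

open scoped BigOperators

noncomputable section

namespace Pool.Agent.Helper87_CC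

open Pool.Agent.Helper51_AWC Pool.Agent.Helper79_WRA Pool.Agent.Helper98_CC

/-- only the trivial chain contributes -/
theorem dz1 : Dz1Stmt := by
  intro ℓ hp M hM hℓ G _ _ hop χ hχ
  classical
  obtain ⟨hχI, hχD⟩ := hχ
  obtain ⟨g, hg, hg0⟩ := (H83.pos ℓ M hℓ G hop).2.2.2 χ hχI hχD
  have hs := H83.labSum ℓ M G hop χ hχI
  have hmem : ({⊥} : Finset (Subgroup G)) ∈ chainsOn (psub ℓ G) ⊥ := by
    rw [mem_chainsOn]
    refine ⟨?_, Finset.mem_singleton_self _, ?_⟩
    · intro D hD
      rw [Finset.mem_singleton] at hD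
      subst hD
      rw [mem_psub]
      exact ⟨by rw [hop], IsPGroup.of_bot⟩
    · rw [Finset.coe_singleton]
      exact Set.subsingleton_singleton.isChain
  rw [Finset.sum_eq_single_of_mem _ hmem] at hs
  · have h1 : stab ({⊥} : Finset (Subgroup G)) = ⊤ := by
      rw [eq_top_iff]
      intro x _
      rw [mem_stab]
      intro D hD
      rw [Finset.mem_singleton] at hD
      subst hD
      unfold conjS
      exact Subgroup.map_bot _
    have h2 : {a | a ∈ IrrS (stab ({⊥} : Finset (Subgroup G))) ∧ labF M a = labF M χ} =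
        {χ} := by
      ext a
      rw [h1]
      constructor
      · rintro ⟨ha, hl⟩
        exact (H48.dzu H83.pos ℓ M hℓ G hop χ ⟨hχI, hχD⟩ a (mem_IrrS_top.1 ha) hl.symm).symm
      · rintro rfl
        exact ⟨mem_IrrS_top.2 hχI, rfl⟩
    rw [h2, Set.ncard_singleton, h1, Finset.card_singleton, Subgroup.card_top] at hs
    have h3 : (Nat.card G : ℤ) ≠ 0 := by exact_mod_cast Nat.card_pos.ne'
    have h4 : (Nat.card G : ℤ) * altSum ℓ M χ = (Nat.card G : ℤ) * 1 := by
      rw [← hs]; ring
    exact mul_left_cancel₀ h3 h4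
  · intro d hd hne
    obtain ⟨d1, d2, d3⟩ := mem_chainsOn.1 hd
    have hD : ∃ D ∈ d, D ≠ ⊥ := by
      by_contra hcon
      push Not at hcon
      apply hne
      ext D
      rw [Finset.mem_singleton]
      exact ⟨hcon D, fun h => h ▸ d2⟩
    have h0 : {a | a ∈ IrrS (stab d) ∧ labF M a = labF M χ} = ∅ := by
      rw [Set.eq_empty_iff_forall_notMem]
      rintro a ⟨ha, hl⟩
      apply hg0
      rw [← hl]
      exact H48.dzn H44.kill ℓ M hℓ G d (fun D hD => (mem_psub.1 (d1 hD)).2) d3 hD a ha g hg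
    rw [h0, Set.ncard_empty]
    simp

end Pool.Agent.Helper87_CC
end
end -- Pool.Agent.Helper87_CC.Dz1
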