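import Pool.Agent.Helper12_AWB.B061

/-!
# Merged copies (generated) of the modules

* `Pool.Agent.Helper79_WRA.StmtC`
* `Pool.Agent.Helper15_WRA.Afb`
* `Pool.Agent.Helper46_WRA.Afc`
* `Pool.Agent.Helper59_WRA.Afa`
* `Pool.Agent.Helper79_WRA.Fin`
* `Pool.Agent.Helper79_WRA.Tower`
-/

set_option autoImplicit false

section -- Pool.Agent.Helper79_WRA.StmtC

/-!
WRA, third stage: unconditional examples. The affine groups `AGL_1(F)`.
-/

open scoped BigOperators

noncomputable section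

namespace Pool.Agent.Helper79_WRA

open Pool.Agent.Helper51_AWC

/-- the affine group `AGL_1(F)`: the maps `x ↦ a x + b` -/
@[ext] structure Aff (F : Type) [Field F] where
  a : Fˣ
  b : F

namespace Aff

variable {F : Type} [Field F]

instance : Mul (Aff F) := ⟨fun x y => ⟨x.a * y.a, (x.a : F) * y.b + x.b⟩⟩
instance : One (Aff F) := ⟨⟨1, 0⟩⟩
instance : Inv (Aff F) := ⟨fun x => ⟨x.a⁻¹, -((x.a⁻¹ : Fˣ) : F) * x.b⟩⟩

theorem mul_a (x y : Aff F) : (x * y).a = x.a * y.a := rfl
theorem mul_b (x y : Aff F) : (x * y).b = (x.a : F) * y.b + x.b := rfl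
theorem one_a : (1 : Aff F).a = 1 := rfl
theorem one_b : (1 : Aff F).b = 0 := rfl
theorem inv_a (x : Aff F) : (x⁻¹).a = x.a⁻¹ := rfl
theorem inv_b (x : Aff F) : (x⁻¹).b = -((x.a⁻¹ : Fˣ) : F) * x.b := rfl

instance : Group (Aff F) :=
  Group.ofLeftAxioms
    (by
      intro x y z
      apply Aff.ext
      · simp only [mul_a, mul_assoc]
      · simp only [mul_a, mul_b, Units.val_mul]; ring)
    (by
      intro x
      apply Aff.ext
      · simp only [mul_a, one_a, one_mul]
      · simp only [mul_b, one_a, one_b, Units.val_one]; ring)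
    (by
      intro x
      apply Aff.ext
      · simp only [mul_a, inv_a, one_a, inv_mul_cancel]
      · simp only [mul_b, inv_a, inv_b, one_b]; ring)

/-- the underlying product type -/
def equivProd (F : Type) [Field F] : Aff F ≃ Fˣ × F where
  toFun x := (x.a, x.b)
  invFun p := ⟨p.1, p.2⟩
  left_inv _ := rfl
  right_inv _ := rfl

instance [Finite F] : Finite (Aff F) := Finite.of_equiv _ (equivProd F).symm

/-- the homotheties `x ↦ a x` -/
def C0 (F : Type) [Field F] : Subgroup (Aff F) where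
  carrier := {x | x.b = 0}
  one_mem' := rfl
  mul_mem' := by
    intro x y hx hy
    show (x.a : F) * y.b + x.b = 0
    rw [show y.b = 0 from hy, show x.b = 0 from hx]; ring
  inv_mem' := by
    intro x hx
    show -((x.a⁻¹ : Fˣ) : F) * x.b = 0
    rw [show x.b = 0 from hx]; ring

end Aff

/-- AFA: the chains of `ℓ`-subgroups of `AGL_1(F)`, `ℓ ∣ |F| - 1`. -/
def AfaStmt : Prop :=
  ∀ (ℓ : ℕ) [Fact ℓ.Prime] (F : Type) [Field F] [Finite F], ℓ ∣ Nat.card F - 1 →
    opCore ℓ (Aff F) = ⊥ ∧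
    ∀ w : Subgroup (Aff F) → ℤ, (∀ g H, w (conjS g H) = w H) →
      ∑ d ∈ chainsOn (psub ℓ (Aff F)) ⊥, (-1) ^ (d.card + 1) * w (stab d) =
        w ⊤ - (Nat.card F : ℤ) * w (Aff.C0 F)

open Classical in
/-- AFB: the irreducible characters of `AGL_1(F)`. -/
def AfbStmt : Prop :=
  ∀ (F : Type) [Field F] [Finite F], ∀ χ : Aff F → ℂ,
    (χ ∈ Irr (Aff F) ↔ (∃ ψ : Fˣ →* ℂˣ, χ = fun x => (ψ x.a : ℂ)) ∨
      χ = fun x => if x.a = 1 then (if x.b = 0 then (Nat.card F : ℂ) - 1 else -1) else 0)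

/-- AFC: the blocks of `AGL_1(F)`. -/
def AfcStmt : Prop :=
  ∀ (ℓ : ℕ) [Fact ℓ.Prime] (M : Ideal (integralClosure ℤ ℂ)) [M.IsMaximal],
    (ℓ : integralClosure ℤ ℂ) ∈ M → ∀ (F : Type) [Field F] [Finite F], ℓ ∣ Nat.card F - 1 →
    opCore ℓ (Aff F) = ⊥ → ∀ χ ∈ Irr (Aff F), LargeDefect ℓ M χ →
    (IrrBlock M (⊤ : Subgroup (Aff F)).subtype χ).ncard =
      (IrrBlock M (Aff.C0 F).subtype χ).ncard

/-- the affine groups satisfy the conjecture -/
def AffStmt : Prop :=
  ∀ (ℓ : ℕ) [Fact ℓ.Prime] (M : Ideal (integralClosure ℤ ℂ)) [M.IsMaximal],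
    (ℓ : integralClosure ℤ ℂ) ∈ M → ∀ (F : Type) [Field F] [Finite F], ℓ ∣ Nat.card F - 1 →
    opCore ℓ (Aff F) = ⊥ ∧ Q1For ℓ M (Aff F)

theorem aff_of (ha : AfaStmt) (hc : AfcStmt) : AffStmt := by
  intro ℓ _ M _ hℓ F _ _ hdvd
  obtain ⟨h1, h2⟩ := ha ℓ F hdvd
  refine ⟨h1, ?_⟩
  intro χ hχ hLD
  have hcard : ((Nat.card (Aff F) : ℤ)) ≠ 0 := by exact_mod_cast Nat.card_pos.ne'
  apply mul_left_cancel₀ hcard
  rw [mul_zero, card_mul_altSum, h1]
  have hw : ∀ d : Finset (Subgroup (Aff F)), (weight M χ d : ℤ) =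
      (fun H : Subgroup (Aff F) => (Nat.card H : ℤ) *
        ((IrrBlock M H.subtype χ).ncard : ℤ)) (stab d) := by
    intro d
    simp only [weight]
    push_cast
    rfl
  simp_rw [hw]
  have h3 := h2 (fun H : Subgroup (Aff F) => (Nat.card H : ℤ) *
        ((IrrBlock M H.subtype χ).ncard : ℤ)) (by
    intro g H
    rw [(weight_conjS M χ g H).1, (weight_conjS M χ g H).2])
  rw [h3, hc ℓ M hℓ F hdvd h1 χ hχ hLD]
  have e1 : Nat.card (⊤ : Subgroup (Aff F)) = Nat.card F * Nat.card (Aff.C0 F) := by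
    rw [Subgroup.card_top, Nat.card_congr (Aff.equivProd F), Nat.card_prod, mul_comm]
    congr 1
    apply Nat.card_congr
    exact
      { toFun := fun a => ⟨⟨a, 0⟩, rfl⟩
        invFun := fun x => x.1.a
        left_inv := fun _ => rfl
        right_inv := fun x => by
          apply Subtype.ext
          apply Aff.ext
          · rfl
          · exact x.2.symm }
  rw [e1]
  push_cast
  ring

end Pool.Agent.Helper79_WRA
end
end -- Pool.Agent.Helper79_WRA.StmtC

section -- Pool.Agent.Helper15_WRA.Afb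

/-!
WRA, AFB: the irreducible characters of `AGL_1(F)`.
-/

open scoped BigOperators

noncomputable section

namespace Pool.Agent.Helper79_WRA.H15

open Pool.Agent.Helper51_AWC Pool.Agent.Helper79_WRA

section aff

variable (F : Type) [Field F] [Finite F]

open Classical in
/-- the character of degree `|F| - 1` -/
def bigc : Aff F → ℂ :=
  fun x => if x.a = 1 then (if x.b = 0 then (Nat.card F : ℂ) - 1 else -1) else 0

/-- the projection to the multiplicative group -/
def projA : Aff F →* Fˣ where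
  toFun x := x.a
  map_one' := rfl
  map_mul' _ _ := rfl

theorem card_aff : Nat.card (Aff F) = Nat.card F * (Nat.card F - 1) := by
  classical
  have := Fintype.ofFinite F
  rw [Nat.card_congr (Aff.equivProd F), Nat.card_prod, mul_comm, Nat.card_units]

theorem sum_aff [Fintype F] [Fintype (Aff F)] [DecidableEq F] (f : Aff F → ℂ) :
    ∑ x, f x = ∑ a : Fˣ, ∑ b : F, f ⟨a, b⟩ := by
  rw [← Equiv.sum_comp (Aff.equivProd F).symm, Fintype.sum_prod_type]
  rfl

theorem bigc_norm [Fintype (Aff F)] :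
    ∑ x, bigc F x * bigc F x⁻¹ = Fintype.card (Aff F) := by
  classical
  have := Fintype.ofFinite F
  have hq : 1 < Nat.card F := Finite.one_lt_card
  rw [sum_aff F, Finset.sum_eq_single_of_mem (1 : Fˣ) (Finset.mem_univ _)]
  · have h1 : ∀ b : F, bigc F ⟨1, b⟩ * bigc F (⟨1, b⟩ : Aff F)⁻¹ =
        if b = 0 then ((Nat.card F : ℂ) - 1) ^ 2 else 1 := by
      intro b
      unfold bigc
      rw [Aff.inv_a, Aff.inv_b]
      simp only [inv_one, Units.val_one, if_true]
      by_cases hb : b = 0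
      · subst hb; simp; ring
      · simp [hb]
    simp_rw [h1]
    rw [← Finset.add_sum_erase _ _ (Finset.mem_univ (0 : F)), if_pos rfl,
      Finset.sum_congr rfl (fun b hb => if_neg (Finset.ne_of_mem_erase hb)),
      Finset.sum_const, Finset.card_erase_of_mem (Finset.mem_univ _), Finset.card_univ,
      ← Nat.card_eq_fintype_card (α := Aff F), card_aff, ← Nat.card_eq_fintype_card,
      nsmul_eq_mul, mul_one]
    push_cast [Nat.cast_sub hq.le]
    ring
  · intro a _ ha
    apply Finset.sum_eq_zero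
    intro b _
    unfold bigc
    rw [if_neg ha, zero_mul]

theorem bigc_mem : bigc F ∈ Irr (Aff F) := by
  classical
  have := Fintype.ofFinite F
  have := Fintype.ofFinite (Aff F)
  obtain ⟨ψ, hψ⟩ := (AddChar.exists_apply_ne_zero (α := F) (a := 1)).2 one_ne_zero
  have hψ1 : ψ ≠ 1 := by
    rintro rfl
    exact hψ (AddChar.one_apply _)
  have hprim := AddChar.IsPrimitive.of_ne_one hψ1
  refine mem_Irr_of_coeff (X := Fˣ)
    (fun x d c => if c = d * x.a then ψ ((d : F) * x.b) else 0) ?_ ?_ (bigc F) ?_ (bigc_norm F)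
  · intro a b
    rw [Aff.one_a, Aff.one_b, mul_one, mul_zero, AddChar.map_zero_eq_one]
    simp only [eq_comm]
  · intro g h a b
    rw [Finset.sum_eq_single_of_mem (a * g.a) (Finset.mem_univ _)]
    · rw [if_pos rfl, Aff.mul_a, Aff.mul_b]
      by_cases hb : b = a * g.a * h.a
      · rw [if_pos hb, if_pos (by rw [hb, mul_assoc]), ← AddChar.map_add_eq_mul]
        congr 1
        push_cast
        ring
      · rw [if_neg hb, if_neg (by rw [← mul_assoc]; exact hb), mul_zero]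
    · intro c _ hc
      rw [if_neg hc, zero_mul]
  · intro g
    unfold bigc
    by_cases ha : g.a = 1
    · rw [if_pos ha]
      simp only [ha, mul_one, if_true]
      have h1 : ∑ x : F, ψ (x * g.b) = ∑ d : Fˣ, ψ ((d : F) * g.b) + 1 := by
        rw [← Finset.add_sum_erase _ _ (Finset.mem_univ (0 : F)), zero_mul,
          AddChar.map_zero_eq_one, add_comm]
        congr 1
        symm
        refine Finset.sum_bij (fun (d : Fˣ) _ => (d : F)) ?_ ?_ ?_ ?_
        · intro d _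
          rw [Finset.mem_erase]
          exact ⟨d.ne_zero, Finset.mem_univ _⟩
        · intro d _ e _ h
          exact Units.ext h
        · intro x hx
          exact ⟨Units.mk0 x (Finset.ne_of_mem_erase hx), Finset.mem_univ _, rfl⟩
        · intro d _
          rfl
      rw [AddChar.sum_mulShift _ hprim] at h1
      by_cases hb : g.b = 0
      · rw [if_pos hb] at h1 ⊢
        rw [Nat.card_eq_fintype_card]
        have h2 : ((Fintype.card F : ℕ) : ℂ) = ∑ d : Fˣ, ψ ((d : F) * g.b) + 1 := by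
          rw [← h1]
        rw [h2]
        ring
      · rw [if_neg hb] at h1 ⊢
        push_cast at h1
        linear_combination -h1
    · rw [if_neg ha]
      apply Finset.sum_eq_zero
      intro d _
      rw [if_neg]
      intro h
      exact ha (mul_left_cancel (a := d) (by rw [mul_one]; exact h.symm))

theorem lin_mem (ψ : Fˣ →* ℂˣ) : (fun x : Aff F => (ψ x.a : ℂ)) ∈ Irr (Aff F) :=
  linear_mem_Irr (ψ.comp (projA F))

end aff

theorem afb : AfbStmt := by
  classical
  intro F _ _ χ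
  have := Fintype.ofFinite F
  have := Fintype.ofFinite (Aff F)
  have hq : 1 < Nat.card F := Finite.one_lt_card
  constructor
  · intro hχ
    by_contra hno
    push Not at hno
    obtain ⟨hno1, hno2⟩ := hno
    have hroots : HasEnoughRootsOfUnity ℂ (Monoid.exponent Fˣ) := inferInstance
    have hcard : Nat.card (Fˣ →* ℂˣ) = Nat.card Fˣ :=
      CommGroup.card_monoidHom_of_hasEnoughRootsOfUnity Fˣ ℂ
    have hfin : Finite (Fˣ →* ℂˣ) := by
      apply Nat.finite_of_card_ne_zero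
      rw [hcard]; exact Nat.card_pos.ne'
    have := Fintype.ofFinite (Fˣ →* ℂˣ)
    have hfI : Finite (Irr (Aff F)) := (irr_finite' (G := Aff F)).to_subtype
    have := Fintype.ofFinite (Irr (Aff F))
    have h1 := sum_one_mul (G := Aff F) 1
    rw [if_pos rfl] at h1
    -- the injection
    let e : Option (Option (Fˣ →* ℂˣ)) → Irr (Aff F) := fun o =>
      match o with
      | none => ⟨χ, hχ⟩
      | some none => ⟨bigc F, bigc_mem F⟩
      | some (some ψ) => ⟨fun x => (ψ x.a : ℂ), lin_mem F ψ⟩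
    have he : Function.Injective e := by
      intro x y hxy
      rcases x with _ | _ | ψ <;> rcases y with _ | _ | ψ'
      · rfl
      · exact absurd (congrArg Subtype.val hxy) hno2
      · exact absurd (congrArg Subtype.val hxy) (hno1 ψ')
      · exact absurd (congrArg Subtype.val hxy).symm hno2
      · rfl
      · exfalso
        have h2 := congrFun (congrArg Subtype.val hxy) (⟨1, 1⟩ : Aff F)
        simp only [e, bigc, if_true, one_ne_zero, if_false, map_one, Units.val_one] at h2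
        norm_num at h2
      · exact absurd (congrArg Subtype.val hxy).symm (hno1 ψ)
      · exfalso
        have h2 := congrFun (congrArg Subtype.val hxy) (⟨1, 1⟩ : Aff F)
        simp only [e, bigc, if_true, one_ne_zero, if_false, map_one, Units.val_one] at h2
        norm_num at h2
      · congr 2
        ext u
        exact congrFun (congrArg Subtype.val hxy) (⟨u, 0⟩ : Aff F)
    have hdeg : ∀ χ : Irr (Aff F), ∃ d : ℕ, 0 < d ∧ (χ : Aff F → ℂ) 1 = d := fun χ => irr_one χ.2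
    choose d hd hd1 using hdeg
    have h3 : ∑ χ : Irr (Aff F), (d χ) ^ 2 = Nat.card F * (Nat.card F - 1) := by
      rw [← card_aff, Nat.card_eq_fintype_card]
      have h4 : ((∑ χ : Irr (Aff F), (d χ) ^ 2 : ℕ) : ℂ) = ((Fintype.card (Aff F) : ℕ) : ℂ) := by
        rw [← h1]
        push_cast
        apply Finset.sum_congr rfl
        intro χ _
        rw [hd1]
        ring
      exact_mod_cast h4
    have h5 : ∑ o : Option (Option (Fˣ →* ℂˣ)), (d (e o)) ^ 2 ≤ ∑ χ : Irr (Aff F), (d χ) ^ 2 := by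
      rw [← Finset.sum_image (s := Finset.univ) (f := fun χ => (d χ) ^ 2) (g := e)
        (fun x _ y _ h => he h)]
      exact Finset.sum_le_sum_of_subset (Finset.subset_univ _)
    rw [Fintype.sum_option, Fintype.sum_option, h3] at h5
    have h6 : d (e (some none)) = Nat.card F - 1 := by
      have h7 := hd1 (e (some none))
      have h8 : (e (some none) : Aff F → ℂ) 1 = (Nat.card F : ℂ) - 1 := by
        show bigc F 1 = _
        unfold bigc
        rw [Aff.one_a, Aff.one_b, if_pos rfl, if_pos rfl]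
      rw [h8] at h7
      have h9 : ((d (e (some none)) : ℕ) : ℂ) = ((Nat.card F - 1 : ℕ) : ℂ) := by
        rw [← h7]
        push_cast [Nat.cast_sub hq.le]
        ring
      exact_mod_cast h9
    have h10 : ∀ ψ, d (e (some (some ψ))) = 1 := by
      intro ψ
      have h7 := hd1 (e (some (some ψ)))
      have h8 : (e (some (some ψ)) : Aff F → ℂ) 1 = 1 := by
        show ((ψ (1 : Aff F).a : ℂˣ) : ℂ) = 1
        rw [Aff.one_a, map_one, Units.val_one]
      rw [h8] at h7
      exact_mod_cast h7.symm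
    simp only [h6, h10] at h5
    rw [Finset.sum_const, Finset.card_univ, ← Nat.card_eq_fintype_card, hcard,
      Nat.card_units] at h5
    have h11 := hd (e none)
    obtain ⟨n, hn⟩ : ∃ n, Nat.card F = n + 1 := ⟨Nat.card F - 1, by omega⟩
    rw [hn] at h5
    simp only [Nat.add_sub_cancel] at h5
    have h12 : 0 < (d (e none)) ^ 2 := pow_pos h11 2
    simp only [smul_eq_mul] at h5
    nlinarith [h5, h12]
  · rintro (⟨ψ, rfl⟩ | rfl)
    · exact lin_mem F ψ
    · exact bigc_mem F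

end Pool.Agent.Helper79_WRA.H15
end
end -- Pool.Agent.Helper15_WRA.Afb

section -- Pool.Agent.Helper46_WRA.Afc

/-!
WRA, module AFC: the blocks of `AGL_1(F)`.
-/

open scoped BigOperators

noncomputable section

namespace Pool.Agent.Helper79_WRA.H46

open Pool.Agent.Helper51_AWC

/-- irreducible characters of commutative groups are linear -/
theorem irr_comm {H : Type} [Group H] [Finite H] (hcomm : ∀ x y : H, x * y = y * x)
    {ϑ : H → ℂ} (hϑ : ϑ ∈ Irr H) : ∃ ψ : H →* ℂˣ, ϑ = fun g => (ψ g : ℂ) := by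
  classical
  have := Fintype.ofFinite H
  have horth := irr_orth_self hϑ
  obtain ⟨d, hd, hd1⟩ := irr_one hϑ
  obtain ⟨n, ρ, hρ, rfl⟩ := hϑ
  have hn : n = d := by
    have h1 : ρ.character 1 = n := by simp
    rw [h1] at hd1
    exact_mod_cast hd1
  subst hn
  have hn0 : (n : ℂ) ≠ 0 := by exact_mod_cast hd.ne'
  have hsc : ∀ g, ∃ c : ℂ, ρ g = c • LinearMap.id := fun g =>
    schur_scalar ρ (ρ g) (fun h => by
      have h1 : ρ g * ρ h = ρ h * ρ g := by rw [← map_mul, ← map_mul, hcomm]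
      exact h1)
  choose c hc using hsc
  have htr : ∀ g, ρ.character g = c g * n := by
    intro g
    show LinearMap.trace ℂ (Fin n → ℂ) (ρ g) = _
    rw [hc g, map_smul, smul_eq_mul, LinearMap.trace_id]
    simp
  have hmul : ∀ g h, c (g * h) = c g * c h := by
    intro g h
    have h1 : (c (g * h)) • (LinearMap.id : (Fin n → ℂ) →ₗ[ℂ] (Fin n → ℂ)) =
        (c g * c h) • LinearMap.id := by
      rw [← hc (g * h), map_mul, hc g, hc h]
      ext v
      simp [mul_smul]
      ring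
    have h2 := congrArg (LinearMap.trace ℂ (Fin n → ℂ)) h1
    rw [map_smul, map_smul, LinearMap.trace_id, smul_eq_mul, smul_eq_mul] at h2
    have h3 : ((Module.finrank ℂ (Fin n → ℂ) : ℕ) : ℂ) = n := by simp
    rw [h3] at h2
    exact mul_right_cancel₀ hn0 h2
  have hone : c 1 = 1 := by
    have h1 := htr 1
    rw [hd1] at h1
    have h2 : (1 : ℂ) * n = c 1 * n := by rw [one_mul]; exact h1
    exact (mul_right_cancel₀ hn0 h2).symm
  have hn1 : (n : ℂ) = 1 := by
    have h1 : ∀ g, ρ.character g * ρ.character g⁻¹ = (n : ℂ) ^ 2 := by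
      intro g
      rw [htr, htr]
      have h2 : c g * c g⁻¹ = 1 := by rw [← hmul, mul_inv_cancel, hone]
      calc c g * n * (c g⁻¹ * n) = (c g * c g⁻¹) * (n : ℂ) ^ 2 := by ring
        _ = (n : ℂ) ^ 2 := by rw [h2, one_mul]
    rw [Finset.sum_congr rfl (fun g _ => h1 g), Finset.sum_const, nsmul_eq_mul,
      Finset.card_univ] at horth
    have hcard : ((Fintype.card H : ℕ) : ℂ) ≠ 0 := by exact_mod_cast Fintype.card_ne_zero
    have h3 : (n : ℂ) ^ 2 = 1 := by
      apply mul_left_cancel₀ hcard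
      rw [horth, mul_one]
    have h4 : (n : ℕ) ^ 2 = 1 := by exact_mod_cast h3
    have h5 : n = 1 := by
      rcases Nat.pow_eq_one.1 h4 with h | h
      · exact h
      · omega
    rw [h5]; simp
  let ψ0 : H →* ℂ := { toFun := c, map_one' := hone, map_mul' := hmul }
  refine ⟨ψ0.toHomUnits, ?_⟩
  funext g
  rw [htr, hn1, mul_one]
  rfl

section aff

variable {F : Type} [Field F]

theorem conj_a (x y : Aff F) : (y * x * y⁻¹).a = x.a := by
  rw [Aff.mul_a, Aff.mul_a, Aff.inv_a, mul_comm y.a, mul_inv_cancel_right]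

theorem isConj_a {g h : Aff F} (hh : IsConj g h) : h.a = g.a := by
  obtain ⟨c, rfl⟩ := isConj_iff.1 hh
  exact conj_a g c

theorem conj_b (x y : Aff F) :
    (y * x * y⁻¹).b = (y.a : F) * x.b + (1 - (x.a : F)) * y.b := by
  rw [Aff.mul_b, Aff.mul_b, Aff.mul_a, Aff.inv_b, Units.val_mul]
  have : (y.a : F) * ((y.a⁻¹ : Fˣ) : F) = 1 := by
    rw [← Units.val_mul, mul_inv_cancel, Units.val_one]
  linear_combination (-(x.a : F) * y.b) * this

theorem isConj_iff_a {g h : Aff F} (hg : g.a ≠ 1) : IsConj g h ↔ h.a = g.a := by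
  refine ⟨isConj_a, fun hh => ?_⟩
  have h1 : (1 : F) - (g.a : F) ≠ 0 := by
    intro h0
    apply hg
    apply Units.ext
    rw [Units.val_one]
    linear_combination -h0
  rw [isConj_iff]
  refine ⟨⟨1, (h.b - g.b) / (1 - (g.a : F))⟩, ?_⟩
  apply Aff.ext
  · rw [conj_a, hh]
  · rw [conj_b]
    show ((1 : Fˣ) : F) * g.b + (1 - (g.a : F)) * ((h.b - g.b) / (1 - (g.a : F))) = h.b
    rw [mul_div_cancel₀ _ h1, Units.val_one]
    ring

theorem isConj_iff_b {g h : Aff F} (hg : g.a = 1) (hb : g.b ≠ 0) :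
    IsConj g h ↔ h.a = 1 ∧ h.b ≠ 0 := by
  constructor
  · intro hh
    refine ⟨(isConj_a hh).trans hg, ?_⟩
    obtain ⟨c, rfl⟩ := isConj_iff.1 hh
    rw [conj_b, hg, Units.val_one, sub_self, zero_mul, add_zero]
    exact mul_ne_zero c.a.ne_zero hb
  · rintro ⟨h1, h2⟩
    rw [isConj_iff]
    refine ⟨⟨Units.mk0 (h.b / g.b) (div_ne_zero h2 hb), 0⟩, ?_⟩
    apply Aff.ext
    · rw [conj_a, hg, h1]
    · rw [conj_b]
      show (h.b / g.b) * g.b + (1 - (g.a : F)) * 0 = h.b
      rw [mul_zero, add_zero, div_mul_cancel₀ _ hb]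

variable [Fintype F] [DecidableEq F]

theorem sum_aff [Fintype (Aff F)] (φ : Aff F → ℂ) :
    ∑ h, φ h = ∑ a : Fˣ, ∑ b : F, φ ⟨a, b⟩ := by
  rw [← Fintype.sum_prod_type (fun p : Fˣ × F => φ ⟨p.1, p.2⟩)]
  exact Fintype.sum_equiv (Aff.equivProd F) _ _ (fun x => rfl)

end aff

open Classical in
theorem omega_a {F : Type} [Field F] [Finite F] (ψ : Fˣ →* ℂˣ) {g : Aff F} (hg : g.a ≠ 1) :
    omega (MonoidHom.id (Aff F)) (fun x => (ψ x.a : ℂ)) g = (Nat.card F : ℂ) * ψ g.a := by
  have := Fintype.ofFinite F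
  have := Fintype.ofFinite (Aff F)
  rw [omega_eq, Aff.one_a, map_one, Units.val_one, div_one, sum_aff,
    Finset.sum_eq_single_of_mem g.a (Finset.mem_univ _)]
  · rw [Finset.sum_congr rfl (g := fun _ => (ψ g.a : ℂ))]
    · rw [Finset.sum_const, nsmul_eq_mul, Finset.card_univ, Nat.card_eq_fintype_card]
    · intro b _
      rw [if_pos]
      exact (isConj_iff_a hg).2 rfl
  · intro a _ ha
    apply Finset.sum_eq_zero
    intro b _
    rw [if_neg]
    intro h
    exact ha ((isConj_iff_a hg).1 h)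

open Classical in
theorem omega_b {F : Type} [Field F] [Finite F] (ψ : Fˣ →* ℂˣ) {g : Aff F} (hg : g.a = 1)
    (hb : g.b ≠ 0) :
    omega (MonoidHom.id (Aff F)) (fun x => (ψ x.a : ℂ)) g = (Nat.card F : ℂ) - 1 := by
  have := Fintype.ofFinite F
  have := Fintype.ofFinite (Aff F)
  rw [omega_eq, Aff.one_a, map_one, Units.val_one, div_one, sum_aff,
    Finset.sum_eq_single_of_mem (1 : Fˣ) (Finset.mem_univ _)]
  · have h1 : ∀ b : F, (if IsConj g ((MonoidHom.id (Aff F)) ⟨1, b⟩) then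
        ((ψ (1 : Fˣ) : ℂˣ) : ℂ) else 0) = 1 - if b = 0 then (1 : ℂ) else 0 := by
      intro b
      have e : IsConj g ((MonoidHom.id (Aff F)) ⟨1, b⟩) ↔ b ≠ 0 := by
        rw [MonoidHom.id_apply, isConj_iff_b hg hb]
        exact ⟨fun h => h.2, fun h => ⟨rfl, h⟩⟩
      by_cases hb0 : b = 0
      · rw [if_neg (fun h => (e.1 h) hb0), if_pos hb0, sub_self]
      · rw [if_pos (e.2 hb0), if_neg hb0, map_one, Units.val_one, sub_zero]
    rw [Finset.sum_congr rfl (fun b _ => h1 b), Finset.sum_sub_distrib, Finset.sum_const,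
      nsmul_eq_mul, mul_one, Finset.card_univ, Nat.card_eq_fintype_card]
    simp
  · intro a _ ha
    apply Finset.sum_eq_zero
    intro b _
    rw [if_neg]
    intro h
    exact ha ((isConj_iff_b hg hb).1 h).1

open Classical in
theorem omega_C0 {F : Type} [Field F] [Finite F] {ϑ : Aff.C0 F → ℂ} (g : Aff F) :
    omega (Aff.C0 F).subtype ϑ g =
      if g.a ≠ 1 ∨ g.b = 0 then ϑ ⟨⟨g.a, 0⟩, rfl⟩ / ϑ 1 else 0 := by
  have := Fintype.ofFinite (Aff.C0 F)
  have key : ∀ h : Aff.C0 F, IsConj g ((Aff.C0 F).subtype h) ↔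
      ((g.a ≠ 1 ∨ g.b = 0) ∧ h = ⟨⟨g.a, 0⟩, rfl⟩) := by
    intro h
    have hb : (h : Aff F).b = 0 := h.2
    rw [Subgroup.coe_subtype]
    constructor
    · intro hh
      have ha := isConj_a hh
      refine ⟨?_, ?_⟩
      · by_contra hcon
        push Not at hcon
        exact ((isConj_iff_b hcon.1 hcon.2).1 hh).2 hb
      · apply Subtype.ext
        exact Aff.ext ha hb
    · rintro ⟨h1, rfl⟩
      by_cases ha : g.a = 1
      · have hb : g.b = 0 := by
          rcases h1 with h1 | h1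
          · exact absurd ha h1
          · exact h1
        have : g = ⟨g.a, 0⟩ := Aff.ext rfl hb
        rw [show ((⟨⟨g.a, 0⟩, rfl⟩ : Aff.C0 F) : Aff F) = g from this.symm]
      · exact (isConj_iff_a ha).2 rfl
  rw [omega_eq]
  by_cases h1 : g.a ≠ 1 ∨ g.b = 0
  · rw [if_pos h1]
    congr 1
    rw [Finset.sum_eq_single_of_mem (⟨⟨g.a, 0⟩, rfl⟩ : Aff.C0 F) (Finset.mem_univ _)]
    · rw [if_pos ((key _).2 ⟨h1, rfl⟩)]
    · intro h _ hne
      rw [if_neg]
      intro hh
      exact hne ((key h).1 hh).2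
  · rw [if_neg h1, Finset.sum_eq_zero, zero_div]
    intro h _
    rw [if_neg]
    intro hh
    exact h1 ((key h).1 hh).1

theorem afc (hAfb : AfbStmt) : AfcStmt := by
  intro ℓ hℓ M hM hℓM F _ _ hdvd hcore χ hχ hLD
  classical
  have := Fintype.ofFinite F
  have hMp : M.IsPrime := hM.isPrime
  set q : ℕ := Nat.card F with hq
  have hq2 : 2 ≤ q := by
    rw [hq, Nat.card_eq_fintype_card]
    exact Fintype.one_lt_card
  have hq1 : Cong M ((q : ℂ) - 1) 0 := by
    have h1 : ((q - 1 : ℕ) : ℂ) = (q : ℂ) - 1 := by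
      rw [Nat.cast_sub (by omega)]; simp
    rw [← h1]
    exact cong_nat_of_dvd hℓM hdvd
  have hq1' : Cong M (q : ℂ) 1 := by rw [cong_iff_sub]; exact hq1
  have hpos := (H83.pos ℓ M hℓM (Aff F) hcore).1
  have hcardU : Nat.card Fˣ = q - 1 := by
    rw [hq, Nat.card_units]
  have hcardG : (Nat.card (Aff F) : ℂ) = ((q : ℂ) - 1) * q := by
    rw [Nat.card_congr (Aff.equivProd F), Nat.card_prod, hcardU]
    push_cast [Nat.cast_sub (show 1 ≤ q by omega)]
    rfl
  -- the big character has defect zero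
  have hρ : ∀ θ ∈ Irr (Aff F), (∀ g, Cong M (omega (MonoidHom.id (Aff F)) θ g)
      (omega (MonoidHom.id (Aff F)) χ g)) → ∃ ψ' : Fˣ →* ℂˣ, θ = fun x => (ψ' x.a : ℂ) := by
    intro θ hθ hcong
    rcases (hAfb F θ).1 hθ with h | h
    · exact h
    · exfalso
      have hLD' : LargeDefect ℓ M θ := by
        obtain ⟨ψ, h1, h2, h3⟩ := hLD
        exact ⟨ψ, h1, fun g => (h2 g).trans (hcong g).symm, h3⟩
      have h1 := (hpos θ hθ).1 hLD'
      have h2 : θ 1 = (q : ℂ) - 1 := by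
        rw [h]
        simp [Aff.one_a, Aff.one_b, hq]
      have hq0 : (q : ℂ) - 1 ≠ 0 := by
        rw [sub_ne_zero]
        exact_mod_cast (by omega : q ≠ 1)
      rw [h2, hcardG, mul_div_cancel_left₀ _ hq0] at h1
      have hqI : IsIntegral ℤ (q : ℂ) := AI.natCast q
      rw [← red_zero (M := M), red_eq_iff hqI isIntegral_zero] at h1
      exact one_not_cong (hq1'.symm.trans h1)
  obtain ⟨ψ, hψ⟩ := hρ χ hχ (fun g => Cong.refl _)
  set S : Set (Fˣ →* ℂˣ) := {ψ' | ∀ a, Cong M (ψ' a : ℂ) (ψ a : ℂ)} with hS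
  have hint : ∀ (ψ' : Fˣ →* ℂˣ) (a : Fˣ), AI (ψ' a : ℂ) := fun ψ' a =>
    irr_integral (linear_mem_Irr ψ') a
  -- the comparison for an element with `a ≠ 1`
  have hcmp : ∀ (x y : ℂ), AI x → AI y → (Cong M ((q : ℂ) * x) ((q : ℂ) * y) ↔ Cong M x y) := by
    intro x y hx hy
    have h1 : ∀ z : ℂ, AI z → Cong M ((q : ℂ) * z) z := by
      intro z hz
      have := hq1'.mul_right hz
      rwa [one_mul] at this
    constructor
    · intro h
      exact (h1 x hx).symm.trans (h.trans (h1 y hy))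
    · intro h
      exact (h1 x hx).trans (h.trans (h1 y hy).symm)
  -- first set
  have hlab1 : ∀ ψ' : Fˣ →* ℂˣ, (∀ g, Cong M
      (omega (MonoidHom.id (Aff F)) (fun x => (ψ' x.a : ℂ)) g)
      (omega (MonoidHom.id (Aff F)) χ g)) ↔ ψ' ∈ S := by
    intro ψ'
    rw [hψ]
    constructor
    · intro H a
      by_cases ha : a = 1
      · rw [ha, map_one, map_one]; exact Cong.refl _
      · have h1 := H ⟨a, 0⟩
        rw [omega_a ψ' (show (⟨a, 0⟩ : Aff F).a ≠ 1 from ha),
          omega_a ψ (show (⟨a, 0⟩ : Aff F).a ≠ 1 from ha), ← hq,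
          hcmp _ _ (hint _ _) (hint _ _)] at h1
        exact h1
    · intro H g
      by_cases ha : g.a = 1
      · by_cases hb : g.b = 0
        · have : g = 1 := Aff.ext ha hb
          rw [this]
          apply Cong.of_eq
          rw [omega_one (fun _ _ h => h) (by simp), omega_one (fun _ _ h => h) (by simp)]
        · rw [omega_b ψ' ha hb, omega_b ψ ha hb]
          exact Cong.refl _
      · rw [omega_a ψ' ha, omega_a ψ ha, ← hq, hcmp _ _ (hint _ _) (hint _ _)]
        exact H g.a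
  have hA : IrrBlock M (MonoidHom.id (Aff F)) χ =
      (fun ψ' : Fˣ →* ℂˣ => fun x : Aff F => (ψ' x.a : ℂ)) '' S := by
    ext θ
    constructor
    · rintro ⟨h1, h2⟩
      obtain ⟨ψ', rfl⟩ := hρ θ h1 h2
      exact ⟨ψ', (hlab1 ψ').1 h2, rfl⟩
    · rintro ⟨ψ', h1, rfl⟩
      exact ⟨(hAfb F _).2 (Or.inl ⟨ψ', rfl⟩), (hlab1 ψ').2 h1⟩
  -- second set
  have hlab2 : ∀ ψ' : Fˣ →* ℂˣ, (∀ g, Cong M
      (omega (Aff.C0 F).subtype (fun x : Aff.C0 F => (ψ' x.1.a : ℂ)) g)
      (omega (MonoidHom.id (Aff F)) χ g)) ↔ ψ' ∈ S := by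
    intro ψ'
    rw [hψ]
    have h1 : ((1 : Aff.C0 F) : Aff F).a = 1 := rfl
    constructor
    · intro H a
      by_cases ha : a = 1
      · rw [ha, map_one, map_one]; exact Cong.refl _
      · have h2 := H ⟨a, 0⟩
        rw [omega_C0, if_pos (Or.inl ha), omega_a ψ (show (⟨a, 0⟩ : Aff F).a ≠ 1 from ha),
          ← hq] at h2
        rw [h1, map_one, Units.val_one, div_one] at h2
        refine Cong.trans h2 ?_
        have := hq1'.mul_right (hint ψ a)
        rwa [one_mul] at this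
    · intro H g
      rw [omega_C0]
      by_cases ha : g.a = 1
      · by_cases hb : g.b = 0
        · have hg1 : g = 1 := Aff.ext ha hb
          rw [if_pos (Or.inr hb)]
          subst hg1
          apply Cong.of_eq
          rw [omega_one (fun _ _ h => h) (by simp)]
          show ((ψ' 1 : ℂˣ) : ℂ) / ((ψ' 1 : ℂˣ) : ℂ) = 1
          rw [map_one, Units.val_one, div_one]
        · rw [if_neg (by push Not; exact ⟨ha, hb⟩), omega_b ψ ha hb]
          exact hq1.symm
      · rw [if_pos (Or.inl ha), omega_a ψ ha, ← hq, h1, map_one, Units.val_one, div_one]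
        have h3 := (hq1'.mul_right (hint ψ g.a)).symm
        rw [one_mul] at h3
        exact (H g.a).trans h3
  have hcommC : ∀ x y : Aff.C0 F, x * y = y * x := by
    intro x y
    apply Subtype.ext
    have hx : (x : Aff F).b = 0 := x.2
    have hy : (y : Aff F).b = 0 := y.2
    apply Aff.ext
    · show ((x : Aff F) * y).a = ((y : Aff F) * x).a
      rw [Aff.mul_a, Aff.mul_a, mul_comm]
    · show ((x : Aff F) * y).b = ((y : Aff F) * x).b
      rw [Aff.mul_b, Aff.mul_b, hx, hy]; ring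
  let aHom : Aff.C0 F →* Fˣ := { toFun := fun x => x.1.a, map_one' := rfl, map_mul' := fun _ _ => rfl }
  let eC : Fˣ →* Aff.C0 F :=
    { toFun := fun a => ⟨⟨a, 0⟩, rfl⟩
      map_one' := rfl
      map_mul' := fun a b => by
        apply Subtype.ext
        apply Aff.ext
        · rfl
        · show (0 : F) = (a : F) * 0 + 0
          ring }
  have hB : IrrBlock M (Aff.C0 F).subtype χ =
      (fun ψ' : Fˣ →* ℂˣ => fun x : Aff.C0 F => (ψ' x.1.a : ℂ)) '' S := by
    ext θ
    constructor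
    · rintro ⟨h1, h2⟩
      obtain ⟨φ, rfl⟩ := irr_comm hcommC h1
      have e : (fun x : Aff.C0 F => (φ x : ℂ)) =
          fun x : Aff.C0 F => ((φ.comp eC) x.1.a : ℂ) := by
        funext x
        have hx : (x : Aff F).b = 0 := x.2
        have : eC x.1.a = x := by
          apply Subtype.ext
          exact Aff.ext rfl hx.symm
        rw [MonoidHom.comp_apply, this]
      rw [e] at h2 ⊢
      exact ⟨φ.comp eC, (hlab2 _).1 h2, rfl⟩
    · rintro ⟨ψ', h1, rfl⟩
      exact ⟨linear_mem_Irr (ψ'.comp aHom), (hlab2 ψ').2 h1⟩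
  have hAB : (IrrBlock M (⊤ : Subgroup (Aff F)).subtype χ).ncard =
      (IrrBlock M (MonoidHom.id (Aff F)) χ).ncard :=
    ncard_IrrBlock_equiv M χ _ _ Subgroup.topEquiv (fun h => IsConj.refl _)
  rw [hAB, hA, hB, Set.ncard_image_of_injective, Set.ncard_image_of_injective]
  · intro ψ1 ψ2 h
    apply MonoidHom.ext
    intro a
    exact Units.ext (congrFun h ⟨⟨a, 0⟩, rfl⟩)
  · intro ψ1 ψ2 h
    apply MonoidHom.ext
    intro a
    exact Units.ext (congrFun h ⟨a, 0⟩)

end Pool.Agent.Helper79_WRA.H46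
end
end -- Pool.Agent.Helper46_WRA.Afc

section -- Pool.Agent.Helper59_WRA.Afa

/-!
WRA, module AFA: the chains of `ℓ`-subgroups of `AGL_1(F)`.
-/

open scoped BigOperators

noncomputable section

namespace Pool.Agent.Helper59_WRA

open Pool.Agent.Helper51_AWC Pool.Agent.Helper79_WRA

section aff

variable {F : Type} [Field F]

/-- the natural action -/
@[instance_reducible] def act1 : MulAction (Aff F) F where
  smul x t := (x.a : F) * t + x.b
  one_smul t := by
    show ((1 : Aff F).a : F) * t + (1 : Aff F).b = t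
    rw [Aff.one_a, Aff.one_b, Units.val_one]; ring
  mul_smul x y t := by
    show ((x * y).a : F) * t + (x * y).b = (x.a : F) * ((y.a : F) * t + y.b) + x.b
    rw [Aff.mul_a, Aff.mul_b, Units.val_mul]; ring

/-- the stabiliser of the point `y` -/
def Cy (y : F) : Subgroup (Aff F) where
  carrier := {x | (x.a : F) * y + x.b = y}
  one_mem' := by
    show ((1 : Aff F).a : F) * y + (1 : Aff F).b = y
    rw [Aff.one_a, Aff.one_b, Units.val_one]; ring
  mul_mem' := by
    intro x z hx hz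
    show ((x * z).a : F) * y + (x * z).b = y
    have hx' : (x.a : F) * y + x.b = y := hx
    have hz' : (z.a : F) * y + z.b = y := hz
    rw [Aff.mul_a, Aff.mul_b, Units.val_mul]
    calc (x.a : F) * z.a * y + ((x.a : F) * z.b + x.b)
        = (x.a : F) * ((z.a : F) * y + z.b) + x.b := by ring
      _ = y := by rw [hz', hx']
  inv_mem' := by
    intro x hx
    show ((x⁻¹).a : F) * y + (x⁻¹).b = y
    have hx' : (x.a : F) * y + x.b = y := hx
    rw [Aff.inv_a, Aff.inv_b]
    calc ((x.a⁻¹ : Fˣ) : F) * y + -((x.a⁻¹ : Fˣ) : F) * x.b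
        = ((x.a⁻¹ : Fˣ) : F) * (((x.a : F) * y + x.b) - x.b) := by rw [hx']; ring
      _ = (((x.a⁻¹ : Fˣ) : F) * (x.a : F)) * y := by ring
      _ = y := by rw [← Units.val_mul, inv_mul_cancel, Units.val_one, one_mul]

theorem mem_Cy {y : F} {x : Aff F} : x ∈ Cy y ↔ (x.a : F) * y + x.b = y := Iff.rfl

theorem Cy_unique {y z : F} {x : Aff F} (hx : x ∈ Cy y) (hx' : x ∈ Cy z) (h1 : x ≠ 1) :
    y = z := by
  rw [mem_Cy] at hx hx'
  by_contra hne
  have h2 : ((x.a : F) - 1) * (y - z) = 0 := by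
    linear_combination hx - hx'
  rcases mul_eq_zero.1 h2 with h | h
  · have ha : (x.a : F) = 1 := sub_eq_zero.1 h
    apply h1
    apply Aff.ext
    · exact Units.ext ha
    · rw [ha] at hx
      show x.b = 0
      linear_combination hx
  · exact hne (sub_eq_zero.1 h)

theorem Cy_comm {y : F} {x z : Aff F} (hx : x ∈ Cy y) (hz : z ∈ Cy y) : x * z = z * x := by
  rw [mem_Cy] at hx hz
  have hxb : x.b = y - (x.a : F) * y := by linear_combination hx
  have hzb : z.b = y - (z.a : F) * y := by linear_combination hz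
  apply Aff.ext
  · rw [Aff.mul_a, Aff.mul_a, mul_comm]
  · rw [Aff.mul_b, Aff.mul_b, hxb, hzb]; ring

/-- the translation by `y` -/
def tra (y : F) : Aff F := ⟨1, y⟩

theorem mem_C0 {x : Aff F} : x ∈ Aff.C0 F ↔ x.b = 0 := Iff.rfl

theorem conj_C0 (y : F) : conjS (tra y) (Aff.C0 F) = Cy y := by
  ext x
  rw [mem_conjS, mem_C0, mem_Cy]
  simp only [Aff.mul_b, Aff.mul_a, Aff.inv_a, Aff.inv_b, tra, inv_one, Units.val_one, one_mul]
  constructor
  · intro h; linear_combination h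
  · intro h; linear_combination h

/-- conjugation moves the fixed point -/
theorem Cy_conj {y : F} {g x : Aff F} (hx : g⁻¹ * x * g ∈ Cy y) :
    x ∈ Cy ((g.a : F) * y + g.b) := by
  let _ : MulAction (Aff F) F := act1
  have h1 : ∀ (u : Aff F) (t : F), u ∈ Cy t ↔ u • t = t := fun u t => Iff.rfl
  have h2 : (g.a : F) * y + g.b = g • y := rfl
  rw [h1] at hx
  rw [h2, h1]
  rw [mul_smul, mul_smul, inv_smul_eq_iff] at hx
  exact hx

variable (ℓ : ℕ)

/-- the Sylow `ℓ`-subgroup of the stabiliser of `y` -/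
def Py (y : F) : Subgroup (Aff F) where
  carrier := {x | x ∈ Cy y ∧ ∃ k, x.a ^ (ℓ ^ k) = 1}
  one_mem' := ⟨(Cy y).one_mem, 0, by rw [Aff.one_a, one_pow]⟩
  mul_mem' := by
    rintro x z ⟨hx, k, hk⟩ ⟨hz, m, hm⟩
    refine ⟨(Cy y).mul_mem hx hz, k + m, ?_⟩
    rw [Aff.mul_a, mul_pow, pow_add]
    have e1 : x.a ^ (ℓ ^ k * ℓ ^ m) = 1 := by rw [pow_mul, hk, one_pow]
    have e2 : z.a ^ (ℓ ^ k * ℓ ^ m) = 1 := by rw [mul_comm, pow_mul, hm, one_pow]
    rw [e1, e2, one_mul]
  inv_mem' := by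
    rintro x ⟨hx, k, hk⟩
    refine ⟨(Cy y).inv_mem hx, k, ?_⟩
    rw [Aff.inv_a, inv_pow, hk, inv_one]

theorem mem_Py {y : F} {x : Aff F} : x ∈ Py ℓ y ↔ x ∈ Cy y ∧ ∃ k, x.a ^ (ℓ ^ k) = 1 := Iff.rfl

theorem pow_a (x : Aff F) (n : ℕ) : (x ^ n).a = x.a ^ n := by
  induction n with
  | zero => rw [pow_zero, pow_zero, Aff.one_a]
  | succ n ih => rw [pow_succ, pow_succ, Aff.mul_a, ih]

theorem Py_le (y : F) : Py ℓ y ≤ Cy y := fun _ h => h.1

theorem Py_pgroup (y : F) : IsPGroup ℓ (Py ℓ y) := by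
  intro x
  obtain ⟨hx, k, hk⟩ := x.2
  refine ⟨k, ?_⟩
  apply Subtype.ext
  rw [Subgroup.coe_pow, Subgroup.coe_one]
  have h1 : (x : Aff F) ^ ℓ ^ k ∈ Cy y := (Cy y).pow_mem hx _
  apply Aff.ext
  · rw [pow_a, hk, Aff.one_a]
  · rw [mem_Cy, pow_a, hk, Units.val_one] at h1
    rw [Aff.one_b]
    linear_combination h1

theorem le_Py {y : F} {D : Subgroup (Aff F)} (hD : IsPGroup ℓ D) (h : D ≤ Cy y) :
    D ≤ Py ℓ y := by
  intro x hx
  refine ⟨h hx, ?_⟩
  obtain ⟨k, hk⟩ := hD ⟨x, hx⟩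
  refine ⟨k, ?_⟩
  have := congrArg (fun z : D => ((z : Aff F)).a) hk
  simp only [Subgroup.coe_pow, Subgroup.coe_one, Aff.one_a] at this
  rw [← pow_a]
  exact this

variable [Fact ℓ.Prime]

theorem card_pos_dvd [Finite F] (h : ℓ ∣ Nat.card F - 1) : ¬ ℓ ∣ Nat.card F := by
  have hp : ℓ.Prime := Fact.out
  intro h'
  have h1 : 1 ≤ Nat.card F := Nat.card_pos
  have h2 : ℓ ∣ 1 := by
    have := Nat.dvd_sub h' h
    rwa [Nat.sub_sub_self h1] at this
  exact hp.one_lt.ne' (Nat.dvd_one.1 h2)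

/-- a `ℓ`-subgroup has a fixed point -/
theorem exists_fix [Finite F] (h : ℓ ∣ Nat.card F - 1) {D : Subgroup (Aff F)}
    (hD : IsPGroup ℓ D) : ∃ y, D ≤ Cy y := by
  let _ : MulAction (Aff F) F := act1
  obtain ⟨y, hy⟩ := hD.nonempty_fixed_point_of_prime_not_dvd_card F (card_pos_dvd ℓ h)
  refine ⟨y, ?_⟩
  intro x hx
  exact hy ⟨x, hx⟩

theorem Py_ne_bot [Finite F] (h : ℓ ∣ Nat.card F - 1) (y : F) : Py ℓ y ≠ ⊥ := by
  classical
  have hp : ℓ.Prime := Fact.out
  have := Fintype.ofFinite F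
  have hc : ℓ ∣ Nat.card Fˣ := by rw [Nat.card_units]; exact h
  obtain ⟨u, hu⟩ := exists_prime_orderOf_dvd_card' (G := Fˣ) ℓ hc
  intro hbot
  have hmem : (⟨u, y - (u : F) * y⟩ : Aff F) ∈ Py ℓ y := by
    refine ⟨?_, 1, ?_⟩
    · rw [mem_Cy]
      show (u : F) * y + (y - (u : F) * y) = y
      ring
    · show u ^ (ℓ ^ 1) = 1
      rw [pow_one, ← hu, pow_orderOf_eq_one]
  rw [hbot, Subgroup.mem_bot] at hmem
  have h1 : u = 1 := congrArg Aff.a hmem
  rw [h1, orderOf_one] at hu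
  exact hp.one_lt.ne hu

omit [Fact ℓ.Prime] in
theorem fix_unique {D : Subgroup (Aff F)} (hne : D ≠ ⊥) {y z : F} (hy : D ≤ Cy y)
    (hz : D ≤ Cy z) : y = z := by
  obtain ⟨x, hx, hx1⟩ : ∃ x : Aff F, x ∈ D ∧ x ≠ 1 := by
    by_contra hcon
    push Not at hcon
    apply hne
    rw [eq_bot_iff]
    intro x hx
    rw [Subgroup.mem_bot]
    exact hcon x hx
  exact Cy_unique (hy hx) (hz hx) hx1

omit [Fact ℓ.Prime] in
/-- the normaliser of a nontrivial subgroup of `Cy y` -/
theorem conj_eq_iff {D : Subgroup (Aff F)} (hne : D ≠ ⊥) {y : F} (hy : D ≤ Cy y) (g : Aff F) :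
    conjS g D = D ↔ g ∈ Cy y := by
  constructor
  · intro h
    have h1 : D ≤ Cy ((g.a : F) * y + g.b) := by
      intro x hx
      rw [← h, mem_conjS] at hx
      exact Cy_conj (hy hx)
    have := fix_unique hne hy h1
    rw [mem_Cy]
    exact this.symm
  · intro hg
    ext x
    rw [mem_conjS]
    constructor
    · intro hx
      have h1 : g * (g⁻¹ * x * g) = (g⁻¹ * x * g) * g := Cy_comm hg (hy hx)
      have h2 : g⁻¹ * x * g = x := by
        have h3 : g * (g⁻¹ * x * g) = x * g := by group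
        rw [h3] at h1
        exact (mul_right_cancel h1).symm
      rwa [h2] at hx
    · intro hx
      have h1 : g * x = x * g := Cy_comm hg (hy hx)
      have h2 : g⁻¹ * x * g = x := by rw [mul_assoc, ← h1]; group
      rwa [h2]

omit [Fact ℓ.Prime] in
theorem conjS_bot' (g : Aff F) : conjS g (⊥ : Subgroup (Aff F)) = ⊥ := by
  unfold conjS; exact Subgroup.map_bot _

omit [Fact ℓ.Prime] in
theorem stab_eq {d : Finset (Subgroup (Aff F))} {y : F} (h1 : ∀ D ∈ d, D ≤ Cy y)
    (h2 : ∃ D ∈ d, D ≠ ⊥) : stab d = Cy y := by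
  ext g
  rw [mem_stab]
  constructor
  · intro H
    obtain ⟨D, hD, hne⟩ := h2
    exact (conj_eq_iff hne (h1 D hD) g).1 (H D hD)
  · intro hg D hD
    by_cases hne : D = ⊥
    · rw [hne, conjS_bot']
    · exact (conj_eq_iff hne (h1 D hD) g).2 hg

omit [Fact ℓ.Prime] in
theorem stab_bot : stab ({⊥} : Finset (Subgroup (Aff F))) = ⊤ := by
  rw [eq_top_iff]
  intro g _
  rw [mem_stab]
  intro D hD
  rw [Finset.mem_singleton.1 hD, conjS_bot']

theorem opCore_aff [Finite F] (h : ℓ ∣ Nat.card F - 1) : opCore ℓ (Aff F) = ⊥ := by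
  obtain ⟨hn, hp, -⟩ := opCore_spec ℓ (Aff F)
  by_contra hne
  obtain ⟨y, hy⟩ := exists_fix ℓ h hp
  have h1 : tra (1 : F) ∈ Cy y := by
    rw [← conj_eq_iff hne hy]
    exact opCore_conj ℓ _
  rw [mem_Cy] at h1
  simp only [tra, Units.val_one, one_mul] at h1
  exact one_ne_zero (α := F) (by linear_combination h1)

open Classical in
/-- the closure operator -/
def cl (D : Subgroup (Aff F)) : Subgroup (Aff F) :=
  if h : D ≠ ⊥ ∧ ∃ y : F, D ≤ Cy y then Py ℓ h.2.choose else D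

omit [Fact ℓ.Prime] in
theorem cl_bot : cl ℓ (⊥ : Subgroup (Aff F)) = ⊥ := by
  unfold cl
  rw [dif_neg]
  rintro ⟨h, -⟩
  exact h rfl

omit [Fact ℓ.Prime] in
theorem cl_eq {D : Subgroup (Aff F)} (hne : D ≠ ⊥) {y : F} (hy : D ≤ Cy y) :
    cl ℓ D = Py ℓ y := by
  unfold cl
  have h : D ≠ ⊥ ∧ ∃ y : F, D ≤ Cy y := ⟨hne, y, hy⟩
  rw [dif_pos h, fix_unique hne h.2.choose_spec hy]

end aff

theorem afa : AfaStmt := by
  classical
  intro ℓ _ F _ _ hdvd
  have hFt : Fintype F := Fintype.ofFinite F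
  have hcore := opCore_aff (F := F) ℓ hdvd
  refine ⟨hcore, ?_⟩
  intro w hw
  have hps : ∀ D : Subgroup (Aff F), D ∈ psub ℓ (Aff F) ↔ IsPGroup ℓ D := by
    intro D
    rw [mem_psub, hcore]
    exact ⟨fun h => h.2, fun h => ⟨bot_le, h⟩⟩
  have hPmem : ∀ y : F, Py ℓ y ∈ psub ℓ (Aff F) := fun y => (hps _).2 (Py_pgroup ℓ y)
  have hPne : ∀ y : F, Py ℓ y ≠ ⊥ := Py_ne_bot ℓ hdvd
  have hfix : ∀ D ∈ psub ℓ (Aff F), ∃ y : F, D ≤ Cy y := fun D hD => exists_fix ℓ hdvd ((hps D).1 hD)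
  have hcl : ∀ D ∈ psub ℓ (Aff F), D ≠ ⊥ → ∃ y : F, D ≤ Cy y ∧ cl ℓ D = Py ℓ y := by
    intro D hD hne
    obtain ⟨y, hy⟩ := hfix D hD
    exact ⟨y, hy, cl_eq ℓ hne hy⟩
  have hchain : ∀ d ∈ chainsOn (psub ℓ (Aff F)) ⊥, ∀ x ∈ d, x ≠ ⊥ → ∀ y : F, x ≤ Cy y →
      ∀ z ∈ d, z ≤ Cy y := by
    intro d hd x hx hne y hy z hz
    obtain ⟨hd1, hd2, hd3⟩ := mem_chainsOn.1 hd
    rcases chain_total hd3 hz hx with h | h
    · exact h.trans hy
    · obtain ⟨y', hy'⟩ := hfix z (hd1 hz)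
      rw [fix_unique hne hy (h.trans hy')]
      exact hy'
  rw [sum_closure (psub ℓ (Aff F)) ⊥ (cl ℓ)]
  · -- the remaining chains
    have hset : (chainsOn (psub ℓ (Aff F)) ⊥).filter (fun d => ∀ x ∈ d, cl ℓ x = x) =
        insert {⊥} ((Finset.univ : Finset F).image
          (fun y => ({⊥, Py ℓ y} : Finset (Subgroup (Aff F))))) := by
      ext d
      rw [Finset.mem_filter, Finset.mem_insert, Finset.mem_image]
      constructor
      · rintro ⟨hd, hdc⟩
        obtain ⟨hd1, hd2, hd3⟩ := mem_chainsOn.1 hd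
        by_cases hall : ∀ x ∈ d, x = ⊥
        · left
          ext x
          rw [Finset.mem_singleton]
          constructor
          · intro hx; exact hall x hx
          · rintro rfl; exact hd2
        · right
          push Not at hall
          obtain ⟨x, hx, hne⟩ := hall
          obtain ⟨y, hy, hxy⟩ := hcl x (hd1 hx) hne
          rw [hdc x hx] at hxy
          refine ⟨y, Finset.mem_univ _, ?_⟩
          ext z
          rw [Finset.mem_insert, Finset.mem_singleton]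
          constructor
          · rintro (rfl | rfl)
            · exact hd2
            · rw [← hxy]; exact hx
          · intro hz
            by_cases hz0 : z = ⊥
            · left; exact hz0
            · right
              have h1 := hchain d hd x hx hne y hy z hz
              rw [← hdc z hz]
              exact cl_eq ℓ hz0 h1
      · rintro (rfl | ⟨y, -, rfl⟩)
        · refine ⟨?_, ?_⟩
          · rw [mem_chainsOn]
            refine ⟨?_, Finset.mem_singleton_self _, ?_⟩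
            · intro x hx
              rw [Finset.mem_singleton.1 hx, hps]
              exact IsPGroup.of_bot
            · intro a ha b hb hne
              exact absurd ((Finset.mem_singleton.1 ha).trans (Finset.mem_singleton.1 hb).symm) hne
          · intro x hx
            rw [Finset.mem_singleton.1 hx, cl_bot]
        · refine ⟨?_, ?_⟩
          · rw [mem_chainsOn]
            refine ⟨?_, Finset.mem_insert_self _ _, ?_⟩
            · intro x hx
              rcases Finset.mem_insert.1 hx with rfl | hx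
              · rw [hps]; exact IsPGroup.of_bot
              · rw [Finset.mem_singleton.1 hx]; exact hPmem y
            · intro a ha b hb hne
              rw [Finset.mem_coe, Finset.mem_insert, Finset.mem_singleton] at ha hb
              rcases ha with rfl | rfl
              · left; exact bot_le
              · rcases hb with rfl | rfl
                · right; exact bot_le
                · exact absurd rfl hne
          · intro x hx
            rcases Finset.mem_insert.1 hx with rfl | hx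
            · exact cl_bot ℓ
            · rw [Finset.mem_singleton.1 hx]
              exact cl_eq ℓ (hPne y) (Py_le ℓ y)
    rw [hset]
    have hPinj : ∀ y z : F, Py ℓ y = Py ℓ z → y = z := by
      intro y z h
      apply fix_unique (hPne y) (Py_le ℓ y)
      rw [h]; exact Py_le ℓ z
    have hcard2 : ∀ y : F, ({⊥, Py ℓ y} : Finset (Subgroup (Aff F))).card = 2 := fun y =>
      Finset.card_pair (hPne y).symm
    rw [Finset.sum_insert, Finset.sum_image]
    · have h2 : ∀ y : F, stab ({⊥, Py ℓ y} : Finset (Subgroup (Aff F))) = Cy y := by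
        intro y
        apply stab_eq
        · intro D hD
          rcases Finset.mem_insert.1 hD with rfl | hD
          · exact bot_le
          · rw [Finset.mem_singleton.1 hD]; exact Py_le ℓ y
        · exact ⟨Py ℓ y, Finset.mem_insert_of_mem (Finset.mem_singleton_self _), hPne y⟩
      have h3 : ∀ y : F, w (Cy y) = w (Aff.C0 F) := by
        intro y
        rw [← conj_C0, hw]
      simp_rw [hcard2, h2, h3]
      rw [stab_bot, Finset.card_singleton, Finset.sum_const, Finset.card_univ]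
      rw [← Nat.card_eq_fintype_card, nsmul_eq_mul]
      ring
    · intro y _ z _ h
      apply hPinj
      have h1 : Py ℓ y ∈ ({⊥, Py ℓ z} : Finset (Subgroup (Aff F))) := by
        have h0 : ({⊥, Py ℓ y} : Finset (Subgroup (Aff F))) = {⊥, Py ℓ z} := h
        rw [← h0]
        exact Finset.mem_insert_of_mem (Finset.mem_singleton_self _)
      rcases Finset.mem_insert.1 h1 with h1 | h1
      · exact absurd h1 (hPne y)
      · exact Finset.mem_singleton.1 h1
    · intro h
      obtain ⟨y, -, hy⟩ := Finset.mem_image.1 h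
      have h1 := hcard2 y
      rw [hy, Finset.card_singleton] at h1
      exact absurd h1 (by norm_num)
  · intro x hx
    by_cases hx0 : x = ⊥
    · rw [hx0, cl_bot, hps]; exact IsPGroup.of_bot
    · obtain ⟨y, -, h⟩ := hcl x hx hx0
      rw [h]; exact hPmem y
  · intro x hx
    by_cases hx0 : x = ⊥
    · rw [hx0]; exact bot_le
    · obtain ⟨y, hy, h⟩ := hcl x hx hx0
      rw [h]; exact le_Py ℓ ((hps x).1 hx) hy
  · intro x hx z hz hxz
    by_cases hx0 : x = ⊥
    · rw [hx0, cl_bot]; exact bot_le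
    · have hz0 : z ≠ ⊥ := by
        rintro rfl
        exact hx0 (le_bot_iff.1 hxz)
      obtain ⟨y, hy, h⟩ := hcl z hz hz0
      rw [h, cl_eq ℓ hx0 (hxz.trans hy)]
  · intro x hx
    by_cases hx0 : x = ⊥
    · rw [hx0, cl_bot, cl_bot]
    · obtain ⟨y, -, h⟩ := hcl x hx hx0
      rw [h]
      exact cl_eq ℓ (hPne y) (Py_le ℓ y)
  · exact cl_bot ℓ
  · intro x _; exact bot_le
  · intro d hd x hx hxc
    have hx0 : x ≠ ⊥ := by
      rintro rfl
      rw [cl_bot] at hxc
      exact hxc hx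
    obtain ⟨hd1, hd2, hd3⟩ := mem_chainsOn.1 hd
    obtain ⟨y, hy, h⟩ := hcl x (hd1 hx) hx0
    have h1 : stab d = Cy y := stab_eq (hchain d hd x hx hx0 y hy) ⟨x, hx, hx0⟩
    have h2 : stab (insert (cl ℓ x) d) = Cy y := by
      apply stab_eq
      · intro D hD
        rcases Finset.mem_insert.1 hD with rfl | hD
        · rw [h]; exact Py_le ℓ y
        · exact hchain d hd x hx hx0 y hy D hD
      · exact ⟨x, Finset.mem_insert_of_mem hx, hx0⟩
    rw [h1, h2, Finset.card_insert_of_notMem hxc]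
    ring

end Pool.Agent.Helper59_WRA
end
end -- Pool.Agent.Helper59_WRA.Afa

section -- Pool.Agent.Helper79_WRA.Fin

/-!
WRA: the final theorem from the module statements.
-/

open scoped BigOperators

noncomputable section

namespace Pool.Agent.Helper79_WRA

open Pool.Agent.Helper51_AWC

/-- a group of order `ℓ` acting on itself -/
abbrev Cyc (ℓ : ℕ) : Type := Multiplicative (ZMod ℓ)

section final

/-- a trivial group has no character of positive defect -/
theorem q1_of_subsingleton {ℓ : ℕ} [hp : Fact ℓ.Prime] (M : Ideal (integralClosure ℤ ℂ))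
    {X : Type} [Group X] [Finite X] (h : Nat.card X = 1) : Q1For ℓ M X := by
  rintro χ hχ ⟨ψ, hψ, -, n, hn, hdvd⟩
  exfalso
  rw [h] at hdvd
  have h1 := Nat.eq_one_of_mul_eq_one_right (Nat.dvd_one.1 hdvd)
  have h2 := Nat.eq_one_of_mul_eq_one_right h1
  exact hp.out.one_lt.ne' h2

/-- the theorem for the wreath products with `C_ℓ` -/
theorem q1_cyc (hB : MainBStmt) {ℓ : ℕ} [hp : Fact ℓ.Prime]
    (M : Ideal (integralClosure ℤ ℂ)) [M.IsMaximal] (hℓ : (ℓ : integralClosure ℤ ℂ) ∈ M)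
    {G : Type} [Group G] [Finite G] (hnt : Nontrivial G) (hG : opCore ℓ G = ⊥)
    (hQ : Q1For ℓ M G) :
    opCore ℓ (Wreath G (Cyc ℓ) (Cyc ℓ)) = ⊥ ∧ Q1For ℓ M (Wreath G (Cyc ℓ) (Cyc ℓ)) := by
  have hne : NeZero ℓ := ⟨hp.out.ne_zero⟩
  have : Finite (Cyc ℓ) := Finite.of_equiv (ZMod ℓ) Multiplicative.ofAdd
  obtain ⟨h1, h2⟩ := hB ℓ M hℓ G hnt hG hQ (Cyc ℓ) (Cyc ℓ)
  refine ⟨h1, h2.2 ?_⟩
  intro β _ hU
  apply q1_of_subsingleton
  -- the stabiliser is an `ℓ`-group with trivial `O_ℓ`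
  have hc : Nat.card (Cyc ℓ) = ℓ ^ 1 := by
    rw [pow_one]
    rw [show Nat.card (Cyc ℓ) = Nat.card (ZMod ℓ) from Nat.card_congr Multiplicative.toAdd,
      Nat.card_zmod]
  have hpg : IsPGroup ℓ (famStab (Cyc ℓ) β) := (IsPGroup.of_card hc).to_subgroup _
  have htop : (⊤ : Subgroup (famStab (Cyc ℓ) β)) ≤ opCore ℓ (famStab (Cyc ℓ) β) :=
    (opCore_spec ℓ (famStab (Cyc ℓ) β)).2.2 ⊤ inferInstance (hpg.to_subgroup _)
  rw [hU] at htop
  have : Nat.card (⊤ : Subgroup (famStab (Cyc ℓ) β)) = 1 := by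
    rw [le_bot_iff.1 htop, Subgroup.card_bot]
  rwa [Subgroup.card_top] at this

/-- degrees and defects -/
theorem codeg_wreath {G Ω L : Type} [Group G] [Finite G] [Fintype Ω] [Group L] [Finite L]
    [MulAction L Ω] (χ : Wreath G Ω L → ℂ) (β : Ω → G → ℂ) (μ : L → ℂ)
    (hχ : χ ∈ Irr (Wreath G Ω L)) (hβ : ∀ i, β i ∈ Irr G) (hμ : μ ∈ IrrS (LL L β))
    (hdeg : χ 1 * (Nat.card (LL L β) : ℂ) = (Nat.card L : ℂ) * (∏ i, β i 1) * μ 1) :
    (Nat.card (Wreath G Ω L) : ℂ) / χ 1 = uu β * ((Nat.card (LL L β) : ℂ) / μ 1) := by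
  have hχ1 : χ 1 ≠ 0 := irr_one_ne hχ
  have hμ1 : μ 1 ≠ 0 := IrrS_one_ne hμ
  have hα1 : ∀ i, β i 1 ≠ 0 := fun i => irr_one_ne (hβ i)
  have hp : (∏ i, β i 1) ≠ 0 := Finset.prod_ne_zero_iff.2 fun i _ => hα1 i
  have huu : uu β = (Nat.card G : ℂ) ^ Nat.card Ω / ∏ i, β i 1 := by
    unfold uu
    rw [Finset.prod_div_distrib, Finset.prod_const, Finset.card_univ,
      ← Nat.card_eq_fintype_card]
  rw [huu, card_wreath]
  push_cast
  rw [div_mul_div_comm, div_eq_div_iff hχ1 (mul_ne_zero hp hμ1)]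
  have : (Nat.card G : ℂ) ^ Nat.card Ω * (Nat.card L : ℂ) * ((∏ i, β i 1) * μ 1) =
      (Nat.card G : ℂ) ^ Nat.card Ω * ((Nat.card L : ℂ) * (∏ i, β i 1) * μ 1) := by ring
  rw [this, ← hdeg]
  ring

/-- the irreducible characters of a group of prime order have degree one -/
theorem degree_prime {ℓ : ℕ} [hp : Fact ℓ.Prime] {X : Type} [Group X] [Finite X]
    (hX : Nat.card X = ℓ) {χ : X → ℂ} (hχ : χ ∈ Irr X) : χ 1 = 1 := by
  classical
  have := Fintype.ofFinite X
  have := Fintype.ofFinite (Irr X)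
  obtain ⟨n, hn, h1⟩ := irr_one hχ
  have hs := sum_one_mul (G := X) 1
  rw [if_pos rfl, ← Nat.card_eq_fintype_card, hX] at hs
  have hall : ∀ ψ : Irr X, ∃ m : ℕ, (ψ : X → ℂ) 1 = m := fun ψ => by
    obtain ⟨m, _, h⟩ := irr_one ψ.2
    exact ⟨m, h⟩
  choose m hm using hall
  have hs' : ∑ ψ : Irr X, m ψ * m ψ = ℓ := by
    have : ((∑ ψ : Irr X, m ψ * m ψ : ℕ) : ℂ) = (ℓ : ℂ) := by
      rw [← hs]
      push_cast
      apply Finset.sum_congr rfl
      intro ψ _
      rw [hm]
    exact_mod_cast this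
  have hmn : m ⟨χ, hχ⟩ = n := by
    have h2 : χ 1 = (m ⟨χ, hχ⟩ : ℂ) := hm ⟨χ, hχ⟩
    rw [h1] at h2
    exact_mod_cast h2.symm
  have hle : n * n ≤ ℓ := by
    rw [← hs', ← hmn]
    exact Finset.single_le_sum (f := fun ψ : Irr X => m ψ * m ψ) (fun _ _ => Nat.zero_le _)
      (Finset.mem_univ (⟨χ, hχ⟩ : Irr X))
  -- `n` divides `ℓ`
  have hint := codeg_int hχ
  rw [hX, h1] at hint
  have hdvd : n ∣ ℓ := by
    have h2 : ((ℓ : ℂ) / (n : ℂ)) = ((ℓ / n : ℚ) : ℂ) := by push_cast; rfl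
    rw [h2] at hint
    have h3 : IsIntegral ℤ ((ℓ : ℚ) / n) := by
      have := (isIntegral_algHom_iff (Algebra.ofId ℚ ℂ |>.restrictScalars ℤ)
        (Algebra.ofId ℚ ℂ).toRingHom.injective (x := (ℓ : ℚ) / n)).1
      exact this (by simpa using hint)
    obtain ⟨z, hz⟩ := IsIntegrallyClosed.isIntegral_iff.1 h3
    have hn0 : (n : ℚ) ≠ 0 := by exact_mod_cast hn.ne'
    have h4 : (ℓ : ℚ) = z * n := by
      have : (z : ℚ) = (ℓ : ℚ) / n := by simpa using hz
      rw [this]; field_simp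
    have h5 : (ℓ : ℤ) = z * n := by exact_mod_cast h4
    exact Int.natCast_dvd_natCast.1 ⟨z, by rw [h5]; ring⟩
  rcases (Nat.dvd_prime hp.out).1 hdvd with h | h
  · rw [h1, h]; norm_num
  · exfalso
    rw [h] at hle
    have := hp.out.one_lt
    nlinarith

/-- if `G` has at most one character of defect zero then `G wr C_ℓ` has none -/
theorem nodz (hps : PosStmt) (hcl : ClsStmt) {ℓ : ℕ} [hp : Fact ℓ.Prime]
    (M : Ideal (integralClosure ℤ ℂ)) [M.IsMaximal] (hℓ : (ℓ : integralClosure ℤ ℂ) ∈ M)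
    {G : Type} [Group G] [Finite G] (hG : opCore ℓ G = ⊥)
    (hΓ : opCore ℓ (Wreath G (Cyc ℓ) (Cyc ℓ)) = ⊥)
    (huniq : ∀ ξ ∈ DZ ℓ M G, ∀ ξ' ∈ DZ ℓ M G, ξ = ξ') [Finite (Cyc ℓ)] :
    ∀ χ ∈ Irr (Wreath G (Cyc ℓ) (Cyc ℓ)), LargeDefect ℓ M χ := by
  classical
  intro χ hχ
  have := Fintype.ofFinite (Cyc ℓ)
  obtain ⟨-, hc2, hc3⟩ := hcl G (Cyc ℓ) (Cyc ℓ)
  obtain ⟨β, hβ, hover⟩ := hc3 χ hχ
  obtain ⟨μ, hμ, -, hdeg⟩ := hc2 χ hχ β hβ hover
  rw [(hps ℓ M hℓ _ hΓ).1 χ hχ, codeg_wreath χ β μ hχ hβ hμ hdeg]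
  have hui : ∀ i ∈ (Finset.univ : Finset (Cyc ℓ)), IsIntegral ℤ ((Nat.card G : ℂ) / β i 1) :=
    fun i _ => codeg_int (hβ i)
  have huI : IsIntegral ℤ (uu β) := IsIntegral.prod _ hui
  have hμI : IsIntegral ℤ ((Nat.card (LL (Cyc ℓ) β) : ℂ) / μ 1) := by
    have := codeg_int hμ.2
    simpa using this
  rw [red_mul huI hμI]
  by_cases hpos : ∃ i, LargeDefect ℓ M (β i)
  · obtain ⟨i, hi⟩ := hpos
    have : red M (uu β) = 0 := by
      unfold uu
      rw [red_prod _ _ hui]
      apply Finset.prod_eq_zero (Finset.mem_univ i)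
      exact ((hps ℓ M hℓ G hG).1 (β i) (hβ i)).1 hi
    rw [this, zero_mul]
  · have hβD : ∀ i, β i ∈ DZ ℓ M G := fun i => ⟨hβ i, fun h => hpos ⟨i, h⟩⟩
    have hLL : LL (Cyc ℓ) β = ⊤ := by
      rw [eq_top_iff]
      intro h _
      rw [mem_LL hβ]
      intro i
      exact huniq _ (hβD _) _ (hβD _)
    have hcard : Nat.card (LL (Cyc ℓ) β) = ℓ := by
      rw [hLL, Subgroup.card_top]
      rw [show Nat.card (Cyc ℓ) = Nat.card (ZMod ℓ) from Nat.card_congr Multiplicative.toAdd,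
        Nat.card_zmod]
    have h1 : μ 1 = 1 := by
      have := degree_prime hcard hμ.2
      simpa using this
    rw [h1, hcard, div_one]
    have : red M (ℓ : ℂ) = 0 := by
      have hi : IsIntegral ℤ (ℓ : ℂ) := AI.natCast ℓ
      rw [red_of hi, Ideal.Quotient.eq_zero_iff_mem]
      have : (⟨(ℓ : ℂ), hi⟩ : integralClosure ℤ ℂ) = (ℓ : integralClosure ℤ ℂ) := by
        apply Subtype.ext
        simp
      rw [this]; exact hℓ
    rw [this, mul_zero]

/-- the affine groups have exactly one character of defect zero -/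
theorem aff_uniq (hps : PosStmt) (hafb : AfbStmt) {ℓ : ℕ} [hp : Fact ℓ.Prime]
    (M : Ideal (integralClosure ℤ ℂ)) [M.IsMaximal] (hℓ : (ℓ : integralClosure ℤ ℂ) ∈ M)
    {F : Type} [Field F] [Finite F] (hdvd : ℓ ∣ Nat.card F - 1)
    (hG : opCore ℓ (Aff F) = ⊥) :
    ∀ ξ ∈ DZ ℓ M (Aff F), ∀ ξ' ∈ DZ ℓ M (Aff F), ξ = ξ' := by
  classical
  have hlin : ∀ ψ : Fˣ →* ℂˣ, (fun x : Aff F => (ψ x.a : ℂ)) ∉ DZ ℓ M (Aff F) := by
    rintro ψ ⟨h1, h2⟩
    apply h2
    rw [(hps ℓ M hℓ _ hG).1 _ h1]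
    have e1 : ((ψ (1 : Aff F).a : ℂˣ) : ℂ) = 1 := by
      rw [Aff.one_a, map_one, Units.val_one]
    rw [e1, div_one]
    have hc : Nat.card (Aff F) = Nat.card Fˣ * Nat.card F := by
      rw [Nat.card_congr (Aff.equivProd F), Nat.card_prod]
    have hu : Nat.card Fˣ = Nat.card F - 1 := by
      have := Fintype.ofFinite F
      rw [Nat.card_eq_fintype_card, Nat.card_eq_fintype_card, Fintype.card_units]
    have hd : ℓ ∣ Nat.card (Aff F) := by
      rw [hc, hu]; exact Dvd.dvd.mul_right hdvd _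
    obtain ⟨k, hk⟩ := hd
    have hi : IsIntegral ℤ ((Nat.card (Aff F) : ℕ) : ℂ) := AI.natCast _
    rw [red_of hi, Ideal.Quotient.eq_zero_iff_mem]
    have : (⟨((Nat.card (Aff F) : ℕ) : ℂ), hi⟩ : integralClosure ℤ ℂ) =
        (ℓ : integralClosure ℤ ℂ) * (k : integralClosure ℤ ℂ) := by
      apply Subtype.ext
      show ((Nat.card (Aff F) : ℕ) : ℂ) = _
      rw [hk]; simp
    rw [this]
    exact M.mul_mem_right _ hℓ
  intro ξ hξ ξ' hξ'
  rcases (hafb F ξ).1 hξ.1 with ⟨ψ, rfl⟩ | h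
  · exact absurd hξ (hlin ψ)
  rcases (hafb F ξ').1 hξ'.1 with ⟨ψ, rfl⟩ | h'
  · exact absurd hξ' (hlin ψ)
  rw [h, h']

/-- the unconditional theorem -/
theorem unconditional (hB : MainBStmt) (hps : PosStmt) (hcl : ClsStmt) (hafb : AfbStmt)
    (haff : AffStmt) (ℓ : ℕ) [hp : Fact ℓ.Prime] (M : Ideal (integralClosure ℤ ℂ))
    [M.IsMaximal] (hℓ : (ℓ : integralClosure ℤ ℂ) ∈ M) (F : Type) [Field F] [Finite F]
    (hdvd : ℓ ∣ Nat.card F - 1) (Ω L : Type) [Finite Ω] [Group L] [Finite L] [MulAction L Ω]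
    [FaithfulSMul L Ω] :
    opCore ℓ (Wreath (Wreath (Aff F) (Cyc ℓ) (Cyc ℓ)) Ω L) = ⊥ ∧
      Q1For ℓ M (Wreath (Wreath (Aff F) (Cyc ℓ) (Cyc ℓ)) Ω L) := by
  have hne : NeZero ℓ := ⟨hp.out.ne_zero⟩
  have hfin : Finite (Cyc ℓ) := Finite.of_equiv (ZMod ℓ) Multiplicative.ofAdd
  obtain ⟨h1, h2⟩ := haff ℓ M hℓ F hdvd
  have hnt : Nontrivial (Aff F) := ⟨⟨⟨1, 0⟩, ⟨1, 1⟩, fun h => by
    have := congrArg Aff.b h
    exact zero_ne_one this⟩⟩
  obtain ⟨h3, h4⟩ := q1_cyc hB M hℓ hnt h1 h2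
  have hno := nodz hps hcl M hℓ h1 h3 (aff_uniq hps hafb M hℓ hdvd h1)
  have hnt' : Nontrivial (Wreath (Aff F) (Cyc ℓ) (Cyc ℓ)) := by
    refine ⟨⟨1, ⟨fun _ => ⟨1, 1⟩, 1⟩, fun h => ?_⟩⟩
    have := congrArg (fun x : Wreath (Aff F) (Cyc ℓ) (Cyc ℓ) => (x.f 1).b) h
    exact zero_ne_one this
  obtain ⟨h5, h6⟩ := hB ℓ M hℓ (Wreath (Aff F) (Cyc ℓ) (Cyc ℓ)) hnt' h3 h4 Ω L
  refine ⟨h5, h6.2 ?_⟩
  intro β hβ _
  rcases isEmpty_or_nonempty Ω with hΩ | ⟨⟨i⟩⟩
  · apply q1_of_subsingleton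
    have : Subsingleton L := ⟨fun a b => FaithfulSMul.eq_of_smul_eq_smul
      (fun i : Ω => (hΩ.false i).elim)⟩
    have : Subsingleton (famStab L β) := ⟨fun a b => Subtype.ext (Subsingleton.elim _ _)⟩
    exact Nat.card_of_subsingleton (1 : famStab L β)
  · exact absurd (hno _ (hβ i).1) (hβ i).2

end final

end Pool.Agent.Helper79_WRA
end
end -- Pool.Agent.Helper79_WRA.Fin

section -- Pool.Agent.Helper79_WRA.Tower

/-!
WRA: groups all of whose alternating sums vanish.
-/

open scoped BigOperators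

noncomputable section

namespace Pool.Agent.Helper79_WRA

open Pool.Agent.Helper51_AWC

section

variable {ℓ : ℕ} [hp : Fact ℓ.Prime] {M : Ideal (integralClosure ℤ ℂ)} [hM : M.IsMaximal]

/-- if `O_ℓ(L) ≠ 1` then `|L| / χ(1)` is divisible by `ℓ` -/
theorem codeg_of_opCore (hℓ : (ℓ : integralClosure ℤ ℂ) ∈ M) {L : Type} [Group L] [Finite L]
    (hL : opCore ℓ L ≠ ⊥) {χ : L → ℂ} (hχ : χ ∈ Irr L) :
    red M ((Nat.card L : ℂ) / χ 1) = 0 := by
  classical
  have := Fintype.ofFinite L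
  have hMp : M.IsPrime := hM.isPrime
  obtain ⟨s1, s2, -⟩ := opCore_spec ℓ L
  rw [Nat.card_eq_fintype_card, H83.red_eq_zero_iff (H83.codeg_integral hχ)]
  by_contra hcon
  apply hcon
  have := Fintype.ofFinite (ConjClasses L)
  rw [codeg_eq hχ]
  have h0 : (0 : ℂ) = ∑ _K : ConjClasses L, (0 : ℂ) := by simp
  rw [h0]
  apply Cong.sum
  intro K _
  by_cases hd : ℓ ∣ Nat.card (Subgroup.centralizer {Quotient.out K} : Subgroup L)
  · have h2 : Cong M ((Fintype.card L : ℂ) / χ 1 * χ (Quotient.out K)⁻¹) 0 := by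
      rw [H83.codeg_mul hχ, H83.centralizer_inv_eq]
      exact (cong_nat_of_dvd hℓ hd).mul_zero_right (omega_integral _ hχ _)
    rcases cong_mul_zero (H83.codeg_integral hχ) (irr_integral hχ _) h2 with h3 | h3
    · exact absurd h3 hcon
    · exact h3.mul_zero_left (omega_integral _ hχ _)
  · -- the class lies outside of the centraliser of `O_ℓ(L)`
    set g : L := Quotient.out K with hg
    have hkill := H44.kill ℓ M hℓ L (opCore ℓ L) s1 s2 χ hχ
      (fun x => if IsConj g x then (1 : ℂ) else 0)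
      (by
        intro x y
        have : IsConj g (y * x * y⁻¹) ↔ IsConj g x :=
          ⟨fun h => h.trans (isConj_iff.2 ⟨y⁻¹, by group⟩),
            fun h => h.trans (isConj_iff.2 ⟨y, rfl⟩)⟩
        simp only [this])
      (by
        intro x
        split_ifs
        · exact isIntegral_one
        · exact isIntegral_zero)
      (by
        intro x hx
        have hgx : IsConj g x := by
          by_contra h
          exact hx (if_neg h)
        by_contra hno
        push Not at hno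
        apply hd
        -- `O_ℓ(L)` is contained in the centraliser of `x`
        have hle : opCore ℓ L ≤ Subgroup.centralizer {x} := by
          intro y hy
          rw [Subgroup.mem_centralizer_singleton_iff]
          exact hno y hy
        have hc : Nat.card (Subgroup.centralizer {g} : Subgroup L) =
            Nat.card (Subgroup.centralizer {x} : Subgroup L) := by
          obtain ⟨c, hc⟩ := isConj_iff.1 hgx
          have e := card_class g
          have e' := card_class x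
          have : (Finset.univ.filter fun h => IsConj g h) =
              (Finset.univ.filter fun h => IsConj x h) := by
            ext h
            simp only [Finset.mem_filter, Finset.mem_univ, true_and]
            exact ⟨fun h' => hgx.symm.trans h', fun h' => hgx.trans h'⟩
          rw [this] at e
          have hpos : 0 < (Finset.univ.filter fun h => IsConj x h).card :=
            Finset.card_pos.2 ⟨x, Finset.mem_filter.2 ⟨Finset.mem_univ _, IsConj.refl x⟩⟩
          exact Nat.eq_of_mul_eq_mul_right hpos (e.trans e'.symm)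
        rw [hc]
        have h1 : ℓ ∣ Nat.card (opCore ℓ L) := by
          obtain ⟨n, hn⟩ := IsPGroup.iff_card.1 s2
          have hn0 : n ≠ 0 := by
            rintro rfl
            apply hL
            rw [pow_zero] at hn
            exact Subgroup.eq_bot_of_card_eq _ hn
          rw [hn]
          exact dvd_pow_self _ hn0
        exact h1.trans (Subgroup.card_dvd_of_le hle))
    have hval : val (fun x => if IsConj g x then (1 : ℂ) else 0) χ =
        omega (MonoidHom.id L) χ g := by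
      rw [val_eq, omega_eq]
      congr 1
      apply Finset.sum_congr rfl
      intro x _
      simp only [MonoidHom.id_apply, ite_mul, one_mul, zero_mul]
    rw [hval] at hkill
    exact hkill.mul_zero_right (irr_integral hχ _)

/-- `O_ℓ(N) = 1`, every block of `N` has positive defect, and all the alternating sums of `N`
vanish -/
def AllVanish (ℓ : ℕ) (M : Ideal (integralClosure ℤ ℂ)) (N : Type) [Group N] : Prop :=
  opCore ℓ N = ⊥ ∧ ∀ χ ∈ Irr N, LargeDefect ℓ M χ ∧ altSum ℓ M χ = 0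

theorem AllVanish.nontrivial {N : Type} [Group N] [Finite N] (h : AllVanish ℓ M N) :
    Nontrivial N := by
  classical
  have := Fintype.ofFinite N
  by_contra hcon
  rw [not_nontrivial_iff_subsingleton] at hcon
  have hone : (fun _ : N => (1 : ℂ)) ∈ Irr N := by
    have := linear_mem_Irr (1 : N →* ℂˣ)
    simpa using this
  obtain ⟨ψ, hψ, -, n, hn, hdvd⟩ := (h.2 _ hone).1
  rw [Nat.card_of_subsingleton (1 : N)] at hdvd
  have h1 := Nat.eq_one_of_mul_eq_one_right (Nat.dvd_one.1 hdvd)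
  have h2 := Nat.eq_one_of_mul_eq_one_right h1
  exact hp.out.one_lt.ne' h2

/-- products -/
theorem AllVanish.prod (hps : PosStmt) (hℓ : (ℓ : integralClosure ℤ ℂ) ∈ M)
    {N X : Type} [Group N] [Finite N] [Group X] [Finite X]
    (hN : AllVanish ℓ M N) (hX : opCore ℓ X = ⊥) : AllVanish ℓ M (N × X) := by
  classical
  have := Fintype.ofFinite N
  have := Fintype.ofFinite X
  have hop : opCore ℓ (N × X) = ⊥ := by
    rw [opCore_prod, hN.1, hX, Subgroup.bot_prod_bot]
  refine ⟨hop, ?_⟩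
  intro χ hχ
  obtain ⟨a, ha, b, hb, rfl⟩ := exists_prodChar hχ
  obtain ⟨h1, h2⟩ := hN.2 a ha
  constructor
  · rw [(hps ℓ M hℓ _ hop).1 _ hχ]
    have e : (Nat.card (N × X) : ℂ) / prodChar a b 1 =
        ((Nat.card N : ℂ) / a 1) * ((Nat.card X : ℂ) / b 1) := by
      rw [Nat.card_prod]
      show ((Nat.card N * Nat.card X : ℕ) : ℂ) / (a 1 * b 1) = _
      push_cast
      rw [div_mul_div_comm]
    rw [e, red_mul (codeg_int ha) (codeg_int hb), ((hps ℓ M hℓ _ hN.1).1 a ha).1 h1, zero_mul]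
  · rw [altSum_prod ℓ M ha hb, h2, zero_mul]

/-- characters of the wreath product that lie over a character of positive defect have positive
defect -/
theorem large_of_pos (hps : PosStmt) (hcl : ClsStmt)
    (hℓ : (ℓ : integralClosure ℤ ℂ) ∈ M) {N Ω L : Type} [Group N] [Finite N] [Fintype Ω]
    [Group L] [Finite L] [MulAction L Ω] (hN : opCore ℓ N = ⊥)
    (hΓ : opCore ℓ (Wreath N Ω L) = ⊥) {χ : Wreath N Ω L → ℂ} (hχ : χ ∈ Irr (Wreath N Ω L))
    {β : Ω → N → ℂ} (hβ : ∀ i, β i ∈ Irr N) (hover : LiesOver χ β)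
    (hpos : ∃ i, LargeDefect ℓ M (β i)) : LargeDefect ℓ M χ := by
  classical
  obtain ⟨-, hc2, -⟩ := hcl N Ω L
  obtain ⟨μ, hμ, -, hdeg⟩ := hc2 χ hχ β hβ hover
  rw [(hps ℓ M hℓ _ hΓ).1 χ hχ, codeg_wreath χ β μ hχ hβ hμ hdeg]
  have hui : ∀ i ∈ (Finset.univ : Finset Ω), IsIntegral ℤ ((Nat.card N : ℂ) / β i 1) :=
    fun i _ => codeg_int (hβ i)
  have huI : IsIntegral ℤ (uu β) := IsIntegral.prod _ hui
  have hμI : IsIntegral ℤ ((Nat.card (LL L β) : ℂ) / μ 1) := by
    have := codeg_int hμ.2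
    simpa using this
  rw [red_mul huI hμI]
  obtain ⟨i, hi⟩ := hpos
  have : red M (uu β) = 0 := by
    unfold uu
    rw [red_prod _ _ hui]
    apply Finset.prod_eq_zero (Finset.mem_univ i)
    exact ((hps ℓ M hℓ N hN).1 (β i) (hβ i)).1 hi
  rw [this, zero_mul]

/-- wreath products -/
theorem AllVanish.wreath (hB : MainBStmt) (hps : PosStmt) (hcl : ClsStmt)
    (hℓ : (ℓ : integralClosure ℤ ℂ) ∈ M) {N Ω L : Type} [Group N] [Finite N]
    [Nonempty Ω] [Finite Ω] [Group L] [Finite L] [MulAction L Ω] [FaithfulSMul L Ω]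
    (hN : AllVanish ℓ M N) : AllVanish ℓ M (Wreath N Ω L) := by
  classical
  have := Fintype.ofFinite Ω
  obtain ⟨h1, h2⟩ := hB ℓ M hℓ N hN.nontrivial hN.1 (fun χ hχ _ => (hN.2 χ hχ).2) Ω L
  refine ⟨h1, ?_⟩
  obtain ⟨i₀⟩ := (inferInstance : Nonempty Ω)
  have h3 : Q1For ℓ M (Wreath N Ω L) :=
    h2.2 fun β hβ _ => absurd (hN.2 _ (hβ i₀).1).1 (hβ i₀).2
  intro χ hχ
  obtain ⟨-, -, hc3⟩ := hcl N Ω L
  obtain ⟨β, hβ, hover⟩ := hc3 χ hχ
  have h4 : LargeDefect ℓ M χ :=
    large_of_pos hps hcl hℓ hN.1 h1 hχ hβ hover ⟨i₀, (hN.2 _ (hβ i₀)).1⟩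
  exact ⟨h4, h3 χ hχ h4⟩

/-- `O_ℓ` of the whole group as a subgroup -/
theorem opCore_top_ne {L : Type} [Group L] [Finite L] {U : Subgroup L} (hU : U = ⊤)
    (hL : opCore ℓ L ≠ ⊥) : opCore ℓ U ≠ ⊥ := by
  subst hU
  intro h
  apply hL
  obtain ⟨s1, s2, -⟩ := opCore_spec ℓ L
  obtain ⟨-, -, s3⟩ := opCore_spec ℓ (⊤ : Subgroup L)
  have h1 := s3 ((opCore ℓ L).subgroupOf ⊤) (Subgroup.Normal.subgroupOf s1 _)
    (s2.comap_of_injective _ Subtype.val_injective)
  rw [h] at h1
  rw [eq_bot_iff]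
  intro x hx
  have h2 : (⟨x, Subgroup.mem_top x⟩ : (⊤ : Subgroup L)) ∈ (opCore ℓ L).subgroupOf ⊤ :=
    Subgroup.mem_subgroupOf.2 hx
  have h3 := h1 h2
  rw [Subgroup.mem_bot] at h3 ⊢
  exact congrArg Subtype.val h3

/-- wreath products of a group with at most one character of defect zero -/
theorem AllVanish.of_uniq (hB : MainBStmt) (hps : PosStmt) (hcl : ClsStmt)
    (hℓ : (ℓ : integralClosure ℤ ℂ) ∈ M) {G Ω L : Type} [Group G] [Finite G]
    [Finite Ω] [Group L] [Finite L] [MulAction L Ω] [FaithfulSMul L Ω]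
    (hnt : Nontrivial G) (hG : opCore ℓ G = ⊥) (hQ : Q1For ℓ M G)
    (huniq : ∀ ξ ∈ DZ ℓ M G, ∀ ξ' ∈ DZ ℓ M G, ξ = ξ') (hL : opCore ℓ L ≠ ⊥) :
    AllVanish ℓ M (Wreath G Ω L) := by
  classical
  have := Fintype.ofFinite Ω
  obtain ⟨h1, h2⟩ := hB ℓ M hℓ G hnt hG hQ Ω L
  refine ⟨h1, ?_⟩
  have hst : ∀ β : Ω → G → ℂ, (∀ i, β i ∈ DZ ℓ M G) → famStab L β = ⊤ := by
    intro β hβ
    rw [eq_top_iff]
    intro l _ i
    exact huniq _ (hβ _) _ (hβ _)
  have h3 : Q1For ℓ M (Wreath G Ω L) :=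
    h2.2 fun β hβ hop => absurd hop (opCore_top_ne (hst β hβ) hL)
  intro χ hχ
  obtain ⟨-, hc2, hc3⟩ := hcl G Ω L
  obtain ⟨β, hβ, hover⟩ := hc3 χ hχ
  have h4 : LargeDefect ℓ M χ := by
    by_cases hpos : ∃ i, LargeDefect ℓ M (β i)
    · exact large_of_pos hps hcl hℓ hG h1 hχ hβ hover hpos
    · have hβD : ∀ i, β i ∈ DZ ℓ M G := fun i => ⟨hβ i, fun h => hpos ⟨i, h⟩⟩
      obtain ⟨μ, hμ, -, hdeg⟩ := hc2 χ hχ β hβ hover
      rw [(hps ℓ M hℓ _ h1).1 χ hχ, codeg_wreath χ β μ hχ hβ hμ hdeg]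
      have hui : ∀ i ∈ (Finset.univ : Finset Ω), IsIntegral ℤ ((Nat.card G : ℂ) / β i 1) :=
        fun i _ => codeg_int (hβ i)
      have huI : IsIntegral ℤ (uu β) := IsIntegral.prod _ hui
      have hμI : IsIntegral ℤ ((Nat.card (LL L β) : ℂ) / μ 1) := by
        have := codeg_int hμ.2
        simpa using this
      have hLL : opCore ℓ (LL L β) ≠ ⊥ := by
        apply opCore_top_ne _ hL
        rw [LL_eq hβ, hst β hβD]
      have h5 := codeg_of_opCore hℓ hLL hμ.2
      have h6 : ((Nat.card (LL L β) : ℂ) / μ 1) =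
          (Nat.card (LL L β) : ℂ) / (fun h : LL L β => μ h) 1 := by simp
      rw [red_mul huI hμI, h6, h5, mul_zero]
  exact ⟨h4, h3 χ hχ h4⟩

end

/-- The groups obtained from `AGL_1(F) wr L`, where `ℓ` divides `|F| - 1` and `L` is a faithful
permutation group with `O_ℓ(L) ≠ 1`, by repeatedly forming the product with a finite group `X`
with `O_ℓ(X) = 1` and the wreath product with a finite permutation group. -/
inductive Tower (ℓ : ℕ) : (N : Type) → [Group N] → Prop
  | affine (F Ω L : Type) [Field F] [Finite F] [Finite Ω] [Group L] [Finite L] [MulAction L Ω]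
      [FaithfulSMul L Ω] : ℓ ∣ Nat.card F - 1 → opCore ℓ L ≠ ⊥ → Tower ℓ (Wreath (Aff F) Ω L)
  | prod (N X : Type) [Group N] [Group X] [Finite X] :
      Tower ℓ N → opCore ℓ X = ⊥ → Tower ℓ (N × X)
  | wreath (N Ω L : Type) [Group N] [Nonempty Ω] [Finite Ω] [Group L] [Finite L]
      [MulAction L Ω] [FaithfulSMul L Ω] : Tower ℓ N → Tower ℓ (Wreath N Ω L)

theorem tower_of (hB : MainBStmt) (hps : PosStmt) (hcl : ClsStmt) (hafb : AfbStmt)
    (haff : AffStmt) (ℓ : ℕ) [hp : Fact ℓ.Prime] (M : Ideal (integralClosure ℤ ℂ))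
    [M.IsMaximal] (hℓ : (ℓ : integralClosure ℤ ℂ) ∈ M) (N : Type) [Group N]
    (hN : Tower ℓ N) : Finite N ∧ AllVanish ℓ M N := by
  induction hN with
  | affine F Ω L hdvd hL =>
    obtain ⟨h1, h2⟩ := haff ℓ M hℓ F hdvd
    have hnt : Nontrivial (Aff F) := ⟨⟨⟨1, 0⟩, ⟨1, 1⟩, fun h => by
      have := congrArg Aff.b h
      exact zero_ne_one this⟩⟩
    exact ⟨inferInstance, AllVanish.of_uniq hB hps hcl hℓ hnt h1 h2
      (aff_uniq hps hafb M hℓ hdvd h1) hL⟩
  | prod N X h hX ih =>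
    obtain ⟨hf, ih⟩ := ih
    exact ⟨inferInstance, ih.prod hps hℓ hX⟩
  | wreath N Ω L h ih =>
    obtain ⟨hf, ih⟩ := ih
    exact ⟨inferInstance, ih.wreath hB hps hcl hℓ⟩

end Pool.Agent.Helper79_WRA
end
end -- Pool.Agent.Helper79_WRA.Tower
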