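import Pool.Agent.Helper12_AWB.B059
import Pool.Agent.Helper83_WRA.Pos
import Pool.Agent.Helper98_CC.Stmts

/-!
# Merged copies (generated) of the modules

* `Pool.Agent.Helper13_WRA.Form`
* `Pool.Agent.Helper15_WRA.Vpow`
* `Pool.Agent.Helper15_WRA.Gal`
* `Pool.Agent.Helper15_WRA.Test`
* `Pool.Agent.Helper33_WRA.Formi`
* `Pool.Agent.Helper55_CC.Off`
-/

set_option autoImplicit false

section -- Pool.Agent.Helper13_WRA.Form

/-!
WRA, module FORM: the block condition depends only on the local data.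
-/

open scoped BigOperators

noncomputable section

namespace Pool.Agent.Helper79_WRA.H13

open Pool.Agent.Helper51_AWC Pool.Agent.Helper79_WRA

/-! ### sums over classes -/

theorem sum_class1 {G : Type} [Group G] [Fintype G] [DecidableEq (ConjClasses G)]
    [Fintype (ConjClasses G)] (F a : G → ℂ) (hF : ∀ x y, F (y * x * y⁻¹) = F x) :
    ∑ g, F g * a g = ∑ C : ConjClasses G, F (Quotient.out C) *
      ∑ x ∈ Finset.univ.filter (fun x => ConjClasses.mk x = C), a x := by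
  rw [← Finset.sum_fiberwise Finset.univ (fun g : G => ConjClasses.mk g)]
  refine Finset.sum_congr rfl fun C _ => ?_
  rw [Finset.mul_sum]
  refine Finset.sum_congr rfl fun g hg => ?_
  have h1 := (Finset.mem_filter.1 hg).2
  have h2 : ConjClasses.mk (Quotient.out C) = C := Quotient.out_eq C
  rw [← h2] at h1
  obtain ⟨c, hc⟩ := isConj_iff.1 (ConjClasses.mk_eq_mk_iff_isConj.1 h1)
  rw [← hc, hF]

theorem sum_class_pi {ι G : Type} [Fintype ι] [DecidableEq ι] [Group G] [Fintype G]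
    [DecidableEq (ConjClasses G)] [Fintype (ConjClasses G)] (F : (ι → G) → ℂ) (a : ι → G → ℂ)
    (hF : ∀ y z : ι → G, (∀ i, IsConj (y i) (z i)) → F y = F z) :
    ∑ y, F y * ∏ i, a i (y i) = ∑ C : ι → ConjClasses G, F (fun i => Quotient.out (C i)) *
      ∏ i, ∑ x ∈ Finset.univ.filter (fun x => ConjClasses.mk x = C i), a i x := by
  rw [← Finset.sum_fiberwise Finset.univ (fun y : ι → G => fun i => ConjClasses.mk (y i))]
  refine Finset.sum_congr rfl fun C _ => ?_
  rw [Finset.prod_univ_sum, Finset.mul_sum]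
  have h1 : (Finset.univ.filter fun y : ι → G => (fun i => ConjClasses.mk (y i)) = C) =
      Fintype.piFinset fun i => Finset.univ.filter (fun x => ConjClasses.mk x = C i) := by
    ext y
    simp only [Finset.mem_filter, Finset.mem_univ, true_and, Fintype.mem_piFinset]
    exact funext_iff
  rw [h1]
  refine Finset.sum_congr rfl fun y hy => ?_
  congr 1
  apply hF
  intro i
  have h2 := (Finset.mem_filter.1 (Fintype.mem_piFinset.1 hy i)).2
  have h3 : ConjClasses.mk (Quotient.out (C i)) = C i := Quotient.out_eq (C i)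
  rw [← h3] at h2
  exact ConjClasses.mk_eq_mk_iff_isConj.1 h2

/-- class sums of `a` are values of `omega` -/
theorem class_omega {G : Type} [Group G] [Fintype G] [DecidableEq (ConjClasses G)]
    (a : G → ℂ) (h1 : a 1 ≠ 0) (C : ConjClasses G) :
    ∑ x ∈ Finset.univ.filter (fun x => ConjClasses.mk x = C), a x =
      omega (MonoidHom.id G) a (Quotient.out C) * a 1 := by
  classical
  rw [omega_eq, div_mul_cancel₀ _ h1, Finset.sum_filter]
  refine Finset.sum_congr rfl fun x _ => ?_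
  have h2 : ConjClasses.mk (Quotient.out C) = C := Quotient.out_eq C
  have : ConjClasses.mk x = C ↔ IsConj (Quotient.out C) ((MonoidHom.id G) x) := by
    conv_lhs => rw [← h2]
    rw [ConjClasses.mk_eq_mk_iff_isConj, isConj_comm]
    rfl
  simp only [this]

/-- a class function with values in `M` acts by elements of `M` -/
theorem cong_class {U : Type} [Group U] [Finite U] {M : Ideal (integralClosure ℤ ℂ)}
    {lam : U → ℂ} (hl : lam ∈ Irr U) (D : U → ℂ) (hD : ∀ x y, D (y * x * y⁻¹) = D x)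
    (hM : ∀ x, Cong M (D x) 0) [Fintype U] : Cong M ((∑ h, lam h * D h) / lam 1) 0 := by
  classical
  have := Fintype.ofFinite (ConjClasses U)
  have h1 : ∑ h, lam h * D h = ∑ h, D h * lam h :=
    Finset.sum_congr rfl fun h _ => mul_comm _ _
  rw [h1, sum_class1 D lam hD, Finset.sum_div]
  have h0 : (0 : ℂ) = ∑ _C : ConjClasses U, (0 : ℂ) := by simp
  rw [h0]
  apply Cong.sum
  intro C _
  rw [class_omega lam (irr_one_ne hl), ← mul_assoc, mul_div_assoc, div_self (irr_one_ne hl),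
    mul_one]
  exact (hM _).mul_zero_right (omega_integral _ hl _)

/-- `|H| / a(1)` is integral -/
theorem card_div_integral {G : Type} [Group G] [Finite G] {H : Subgroup G} {a : G → ℂ}
    (ha : a ∈ IrrS H) : IsIntegral ℤ ((Nat.card H : ℂ) / a 1) := by
  classical
  have := Fintype.ofFinite H
  have := Fintype.ofFinite (ConjClasses H)
  have h := codeg_eq ha.2
  rw [Nat.card_eq_fintype_card]
  have h2 : (Fintype.card H : ℂ) / a 1 = (Fintype.card H : ℂ) / (fun h : H => a h) 1 := rfl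
  rw [h2, h]
  apply IsIntegral.sum
  intro C _
  exact (omega_integral _ ha.2 _).mul (irr_integral ha.2 _)

theorem Cong.prod' {M : Ideal (integralClosure ℤ ℂ)} {ι : Type*} (s : Finset ι) (f g : ι → ℂ)
    (h : ∀ i ∈ s, Cong M (f i) (g i)) (hf : ∀ i ∈ s, AI (f i)) (hg : ∀ i ∈ s, AI (g i)) :
    Cong M (∏ i ∈ s, f i) (∏ i ∈ s, g i) := by
  classical
  induction s using Finset.induction_on with
  | empty => simpa using Cong.refl _
  | insert a s ha ih =>
    rw [Finset.prod_insert ha, Finset.prod_insert ha]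
    refine (h a (Finset.mem_insert_self _ _)).mul
      (ih (fun i hi => h i (Finset.mem_insert_of_mem hi))
        (fun i hi => hf i (Finset.mem_insert_of_mem hi))
        (fun i hi => hg i (Finset.mem_insert_of_mem hi)))
      (hg a (Finset.mem_insert_self _ _)) ?_
    exact IsIntegral.prod _ fun i hi => hf i (Finset.mem_insert_of_mem hi)

/-! ### base points -/

variable {G Δ K : Type} [Group G] [Group K] [MulAction K Δ]

theorem exists_base [Fintype Δ] (h : K) : ∃ B : Finset Δ, IsBase h B := by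
  classical
  let s := MulAction.orbitRel (Subgroup.zpowers h) Δ
  let r : Δ → Δ := fun j => (Quotient.mk s j).out
  have hr : ∀ j, r j ∈ MulAction.orbit (Subgroup.zpowers h) j := fun j =>
    Quotient.exact (s := s) (Quotient.out_eq (Quotient.mk s j))
  refine ⟨Finset.univ.image r, fun j => ⟨r j, ⟨Finset.mem_image_of_mem _ (Finset.mem_univ _),
    hr j⟩, ?_⟩⟩
  rintro b ⟨hb, hbj⟩
  obtain ⟨j', -, rfl⟩ := Finset.mem_image.1 hb
  have h1 : Quotient.mk s (r j') = Quotient.mk s j := Quotient.sound (s := s) hbj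
  have h2 : Quotient.mk s (r j') = Quotient.mk s j' := Quotient.out_eq _
  show (Quotient.mk s j').out = (Quotient.mk s j).out
  rw [← h2, h1]

open Classical in
/-- the restriction of a function to `B` -/
def res (B : Finset Δ) (y : Δ → G) : Δ → G := fun i => if i ∈ B then y i else 1

theorem conj_base (a : Δ → G) (y : Δ → G) (h : K) :
    Wreath.base a * (⟨y, h⟩ : Wreath G Δ K) * (Wreath.base a)⁻¹ =
      ⟨fun i => a i * y i * (a (h⁻¹ • i))⁻¹, h⟩ := by
  apply Wreath.ext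
  · funext i
    rw [Wreath.conj_f, Wreath.base_s, Wreath.base_f, inv_one, one_smul, one_mul, mul_one]
  · rw [Wreath.conj_s, Wreath.base_s, one_mul, inv_one, mul_one]

theorem res_class {h : K} {B : Finset Δ} (hB : IsBase h B) {Φ : Wreath G Δ K → ℂ}
    (hΦ : ∀ x y, Φ (y * x * y⁻¹) = Φ x) {y z : Δ → G} (hyz : ∀ i, IsConj (y i) (z i)) :
    Φ ⟨res B y, h⟩ = Φ ⟨res B z, h⟩ := by
  classical
  choose c hc using fun i => isConj_iff.1 (hyz i)
  choose b hb hu using fun j => hB j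
  have hb1 : ∀ j, b (h⁻¹ • j) = b j := by
    intro j
    apply hu
    refine ⟨(hb _).1, ?_⟩
    have h1 := (hb (h⁻¹ • j)).2
    have h2 : h⁻¹ • j ∈ MulAction.orbit (Subgroup.zpowers h) j :=
      ⟨⟨h⁻¹, (Subgroup.zpowers h).inv_mem (Subgroup.mem_zpowers h)⟩, rfl⟩
    rwa [MulAction.orbit_eq_iff.2 h2] at h1
  have hb2 : ∀ i ∈ B, b i = i := fun i hi =>
    (hu i i ⟨hi, MulAction.mem_orbit_self i⟩).symm
  have h1 := hΦ ⟨res B y, h⟩ (Wreath.base (fun i => c (b i)))
  rw [conj_base] at h1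
  rw [← h1]
  congr 2
  funext i
  unfold res
  by_cases hi : i ∈ B
  · rw [if_pos hi, if_pos hi, hb1, hb2 i hi, hc]
  · rw [if_neg hi, if_neg hi, hb1, mul_one, mul_inv_cancel]

/-- the sum over the coset of `h` -/
def Sh (Φ X : Wreath G Δ K → ℂ) (h : K) : ℂ := ∑ᶠ w : Δ → G, Φ ⟨w, h⟩ * X ⟨w, h⟩

open Classical in
/-- local factors -/
def omB (B : Finset Δ) (α : Δ → G → ℂ) (i : Δ) (C : ConjClasses G) : ℂ :=
  if i ∈ B then omega (MonoidHom.id G) (α i) (Quotient.out C) else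
    if C = ConjClasses.mk 1 then 1 else 0

open Classical in
theorem Sh_eq [Finite G] [Fintype Δ] [Fintype (ConjClasses G)]
    {v : Finset (Δ → Subgroup G)} {α : Δ → G → ℂ} {X : Wreath G Δ K → ℂ} (hα : IsChars v α)
    (hX : IsExt K v α X) {h : K} (hh : h ∈ topSt K v α) {B : Finset Δ} (hB : IsBase h B)
    {Φ : Wreath G Δ K → ℂ} (hΦ : ∀ x y, Φ (y * x * y⁻¹) = Φ x) :
    Sh Φ X h / ∏ j, α j 1 =
      (∏ j, if j ∈ B then (1 : ℂ) else (Nat.card (colStab v j) : ℂ) / α j 1) *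
        ∑ C : Δ → ConjClasses G, Φ ⟨res B (fun i => Quotient.out (C i)), h⟩ *
          ∏ i, omB B α i (C i) := by
  have := Fintype.ofFinite G
  have hone : ∀ j, α j 1 ≠ 0 := fun j => IrrS_one_ne (hα j)
  have h1 := hX.form h hh B hB Φ (fun x a => hΦ x _)
  have h2 : (∑ᶠ (y : Δ → G) (_ : ∀ j, j ∉ B → y j = 1), Φ ⟨y, h⟩ * ∏ b ∈ B, α b (y b)) =
      ∑ y : Δ → G, Φ ⟨res B y, h⟩ *
        ∏ i, (if i ∈ B then α i (y i) else if y i = 1 then 1 else 0) := by
    rw [finsum_eq_sum_of_fintype]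
    refine Finset.sum_congr rfl fun y _ => ?_
    rw [finsum_eq_if]
    split_ifs with hy
    · have h3 : res B y = y := by
        funext i
        unfold res
        split_ifs with hi
        · rfl
        · exact (hy i hi).symm
      rw [h3]
      congr 1
      rw [← Finset.prod_subset (Finset.subset_univ B)]
      · exact Finset.prod_congr rfl fun i hi => by rw [if_pos hi]
      · intro i _ hi
        rw [if_neg hi, if_pos (hy i hi)]
    · push Not at hy
      obtain ⟨j, hj, hj2⟩ := hy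
      rw [Finset.prod_eq_zero (Finset.mem_univ j), mul_zero]
      rw [if_neg hj, if_neg hj2]
  have h3 := sum_class_pi (fun y : Δ → G => Φ ⟨res B y, h⟩)
    (fun i x => if i ∈ B then α i x else if x = 1 then 1 else 0)
    (fun y z hyz => res_class hB hΦ hyz)
  have h4 : ∀ (i : Δ) (C : ConjClasses G),
      ∑ x ∈ Finset.univ.filter (fun x => ConjClasses.mk x = C),
        (if i ∈ B then α i x else if x = 1 then 1 else 0) =
      omB B α i C * (if i ∈ B then α i 1 else 1) := by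
    intro i C
    unfold omB
    by_cases hi : i ∈ B
    · simp only [if_pos hi]
      exact class_omega (α i) (hone i) C
    · simp only [if_neg hi, mul_one]
      rw [Finset.sum_ite_eq']
      simp only [Finset.mem_filter, Finset.mem_univ, true_and]
      by_cases hC : C = ConjClasses.mk 1
      · rw [if_pos hC.symm, if_pos hC]
      · rw [if_neg (fun h => hC h.symm), if_neg hC]
  unfold Sh
  rw [h1, h2, h3]
  simp only [h4, Finset.prod_mul_distrib]
  have h5 : ∏ j, α j 1 = (∏ j, if j ∈ B then α j 1 else 1) *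
      ∏ j, if j ∈ B then 1 else α j 1 := by
    rw [← Finset.prod_mul_distrib]
    refine Finset.prod_congr rfl fun j _ => ?_
    split_ifs <;> simp
  have h6 : (∏ j, if j ∈ B then (1 : ℂ) else (Nat.card (colStab v j) : ℂ) / α j 1) =
      (∏ j, if j ∈ B then (1 : ℂ) else (Nat.card (colStab v j) : ℂ)) /
        ∏ j, if j ∈ B then 1 else α j 1 := by
    rw [← Finset.prod_div_distrib]
    refine Finset.prod_congr rfl fun j _ => ?_
    split_ifs <;> simp
  have h7 : (∏ j, if j ∈ B then α j 1 else 1) ≠ 0 := by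
    refine Finset.prod_ne_zero_iff.2 fun j _ => ?_
    split_ifs
    · exact hone j
    · exact one_ne_zero
  have h8 : (∏ j, if j ∈ B then (1 : ℂ) else α j 1) ≠ 0 := by
    refine Finset.prod_ne_zero_iff.2 fun j _ => ?_
    split_ifs
    · exact one_ne_zero
    · exact hone j
  have h9 : ∑ C : Δ → ConjClasses G, Φ ⟨res B (fun i => Quotient.out (C i)), h⟩ *
      ((∏ i, omB B α i (C i)) * ∏ j, if j ∈ B then α j 1 else 1) =
      (∑ C : Δ → ConjClasses G, Φ ⟨res B (fun i => Quotient.out (C i)), h⟩ *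
        ∏ i, omB B α i (C i)) * ∏ j, if j ∈ B then α j 1 else 1 := by
    rw [Finset.sum_mul]
    exact Finset.sum_congr rfl fun C _ => by ring
  rw [h9, h5, h6]
  field_simp

theorem omB_integral [Finite G] {v : Finset (Δ → Subgroup G)} {α : Δ → G → ℂ}
    (hα : IsChars v α) (B : Finset Δ) (i : Δ) (C : ConjClasses G) : AI (omB B α i C) := by
  classical
  unfold omB
  split_ifs
  · exact omega_IrrS_integral (hα i) _
  · exact isIntegral_one
  · exact isIntegral_zero

theorem Sh_cong [Finite G] [Fintype Δ] {M : Ideal (integralClosure ℤ ℂ)}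
    {v v' : Finset (Δ → Subgroup G)} {α α' : Δ → G → ℂ} {X X' : Wreath G Δ K → ℂ}
    (hα : IsChars v α) (hα' : IsChars v' α') (hX : IsExt K v α X) (hX' : IsExt K v' α' X')
    {h : K} (hh : h ∈ topSt K v α) (hh' : h ∈ topSt K v' α')
    (hdat : ∀ j, dat M v α j = dat M v' α' j)
    {Φ : Wreath G Δ K → ℂ} (hΦ : ∀ x y, Φ (y * x * y⁻¹) = Φ x) (hI : ∀ x, IsIntegral ℤ (Φ x)) :
    Cong M (Sh Φ X h / ∏ j, α j 1) (Sh Φ X' h / ∏ j, α' j 1) := by
  classical
  have := Fintype.ofFinite (ConjClasses G)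
  obtain ⟨B, hB⟩ := exists_base (Δ := Δ) h
  rw [Sh_eq hα hX hh hB hΦ, Sh_eq hα' hX' hh' hB hΦ]
  have hq : ∀ (w : Finset (Δ → Subgroup G)) (β : Δ → G → ℂ), IsChars w β → ∀ j,
      AI (if j ∈ B then (1 : ℂ) else (Nat.card (colStab w j) : ℂ) / β j 1) := by
    intro w β hβ j
    split_ifs
    · exact isIntegral_one
    · exact card_div_integral (hβ j)
  have hs : ∀ (w : Finset (Δ → Subgroup G)) (β : Δ → G → ℂ), IsChars w β →
      AI (∑ C : Δ → ConjClasses G, Φ ⟨res B (fun i => Quotient.out (C i)), h⟩ *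
          ∏ i, omB B β i (C i)) := by
    intro w β hβ
    refine IsIntegral.sum _ fun C _ => (hI _).mul ?_
    exact IsIntegral.prod _ fun i _ => omB_integral hβ B i _
  refine Cong.mul ?_ ?_ (IsIntegral.prod _ fun j _ => hq v' α' hα' j) (hs v α hα)
  · refine Cong.prod' _ _ _ (fun j _ => ?_) (fun j _ => hq v α hα j)
      (fun j _ => hq v' α' hα' j)
    split_ifs
    · exact Cong.refl _
    · have h1 := congrArg Prod.snd (hdat j)
      exact (red_eq_iff (card_div_integral (hα j)) (card_div_integral (hα' j))).1 h1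
  · apply Cong.sum
    intro C _
    refine Cong.mul_left ?_ (hI _)
    refine Cong.prod' _ _ _ (fun i _ => ?_) (fun i _ => omB_integral hα B i _)
      (fun i _ => omB_integral hα' B i _)
    unfold omB
    split_ifs
    · have h1 := congrFun (congrArg Prod.fst (hdat i)) (Quotient.out (C i))
      exact (red_eq_iff (omega_IrrS_integral (hα i) _) (omega_IrrS_integral (hα' i) _)).1 h1
    · exact Cong.refl _
    · exact Cong.refl _

theorem IrrS_class {Γ : Type} [Group Γ] {H : Subgroup Γ} {a : Γ → ℂ} (ha : a ∈ IrrS H)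
    {t : Γ} (ht : t ∈ H) (x : Γ) : a (t * x * t⁻¹) = a x := by
  by_cases hx : x ∈ H
  · exact irr_conj ha.2 (⟨x, hx⟩ : H) ⟨t, ht⟩
  · rw [ha.1 x hx, ha.1]
    intro h
    apply hx
    have := H.mul_mem (H.mul_mem (H.inv_mem ht) h) ht
    have e : t⁻¹ * (t * x * t⁻¹) * t = x := by group
    rwa [e] at this

/-- the coset sums are invariant -/
theorem Sh_conj {v : Finset (Δ → Subgroup G)} {α : Δ → G → ℂ} {X : Wreath G Δ K → ℂ}
    (hX : X ∈ IrrS (stX K v α)) {u : K} (hu : u ∈ topSt K v α) {Φ : Wreath G Δ K → ℂ}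
    (hΦ : ∀ x y, Φ (y * x * y⁻¹) = Φ x) (h : K) : Sh Φ X (u * h * u⁻¹) = Sh Φ X h := by
  obtain ⟨t, ht, rfl⟩ := hu
  unfold Sh
  let e : (Δ → G) ≃ (Δ → G) :=
    { toFun := fun w => (t * (⟨w, h⟩ : Wreath G Δ K) * t⁻¹).f
      invFun := fun w => (t⁻¹ * (⟨w, t.s * h * t.s⁻¹⟩ : Wreath G Δ K) * t).f
      left_inv := fun w => by
        have h1 : (⟨(t * (⟨w, h⟩ : Wreath G Δ K) * t⁻¹).f, t.s * h * t.s⁻¹⟩ : Wreath G Δ K) =
            t * (⟨w, h⟩ : Wreath G Δ K) * t⁻¹ := Wreath.ext rfl rfl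
        show (t⁻¹ * (⟨(t * (⟨w, h⟩ : Wreath G Δ K) * t⁻¹).f, t.s * h * t.s⁻¹⟩ :
          Wreath G Δ K) * t).f = w
        rw [h1]
        have h2 : t⁻¹ * (t * (⟨w, h⟩ : Wreath G Δ K) * t⁻¹) * t = ⟨w, h⟩ := by group
        rw [h2]
      right_inv := fun w => by
        have h1 : (⟨(t⁻¹ * (⟨w, t.s * h * t.s⁻¹⟩ : Wreath G Δ K) * t).f, h⟩ : Wreath G Δ K) =
            t⁻¹ * (⟨w, t.s * h * t.s⁻¹⟩ : Wreath G Δ K) * t := by
          refine Wreath.ext rfl ?_
          show h = t.s⁻¹ * (t.s * h * t.s⁻¹) * t.s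
          group
        show (t * (⟨(t⁻¹ * (⟨w, t.s * h * t.s⁻¹⟩ : Wreath G Δ K) * t).f, h⟩ :
          Wreath G Δ K) * t⁻¹).f = w
        rw [h1]
        have h2 : t * (t⁻¹ * (⟨w, t.s * h * t.s⁻¹⟩ : Wreath G Δ K) * t) * t⁻¹ =
            ⟨w, t.s * h * t.s⁻¹⟩ := by group
        rw [h2] }
  have h3 : ∀ w : Δ → G, (⟨e w, t.s * h * t.s⁻¹⟩ : Wreath G Δ K) =
      t * (⟨w, h⟩ : Wreath G Δ K) * t⁻¹ := fun w => Wreath.ext rfl rfl
  rw [← finsum_comp_equiv e]
  refine finsum_congr fun w => ?_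
  show Φ ⟨e w, t.s * h * t.s⁻¹⟩ * X ⟨e w, t.s * h * t.s⁻¹⟩ = _
  rw [h3, hΦ, IrrS_class hX ht]

theorem val_eta [Finite G] [Fintype Δ] [Fintype K] {v : Finset (Δ → Subgroup G)}
    {α : Δ → G → ℂ} (hX : IsExt K v α (ext K v α)) (Φ : Wreath G Δ K → ℂ) (lam : K → ℂ) :
    val Φ (eta v α lam) =
      (∑ h, lam h * (Sh Φ (ext K v α) h / ∏ j, α j 1)) / lam 1 := by
  classical
  have := Fintype.ofFinite G
  have := Fintype.ofFinite (Wreath G Δ K)
  rw [val_eq]
  have h1 : eta v α lam (1 : Wreath G Δ K) = (∏ j, α j 1) * lam 1 := by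
    unfold eta
    have := hX.base 1
    rw [map_one] at this
    rw [this]
    rfl
  rw [h1]
  have h2 : ∑ t : Wreath G Δ K, Φ t * eta v α lam t =
      ∑ h : K, lam h * Sh Φ (ext K v α) h := by
    rw [← Equiv.sum_comp (Wreath.equivProd G Δ K).symm, Fintype.sum_prod_type_right]
    refine Finset.sum_congr rfl fun h _ => ?_
    unfold Sh
    rw [finsum_eq_sum_of_fintype, Finset.mul_sum]
    refine Finset.sum_congr rfl fun w _ => ?_
    show Φ ⟨w, h⟩ * (ext K v α ⟨w, h⟩ * lam h) = _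
    ring
  rw [h2, ← div_div, Finset.sum_div]
  congr 1
  refine Finset.sum_congr rfl fun h _ => ?_
  rw [mul_div_assoc]

theorem formStmt (hext : ExtStmt) : FormStmt := by
  classical
  intro G Δ K _ _ _ _ _ _ M v v' α α' U lam Φ hα hα' hU hU' hlam hdat hΦ hI
  have hE : ∀ (w : Finset (Δ → Subgroup G)) β, IsChars w β → IsExt K w β (ext K w β) := by
    intro w β hβ
    have h := hext G Δ K w β hβ
    unfold ext
    rw [dif_pos h]
    exact h.choose_spec
  have := Fintype.ofFinite K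
  have := Fintype.ofFinite U
  have hX := hE v α hα
  have hX' := hE v' α' hα'
  rw [val_eta hX, val_eta hX', cong_iff_sub, ← sub_div, ← Finset.sum_sub_distrib]
  set D : K → ℂ := fun h => Sh Φ (ext K v α) h / (∏ j, α j 1) -
    Sh Φ (ext K v' α') h / ∏ j, α' j 1 with hD
  have h1 : ∑ h : K, (lam h * (Sh Φ (ext K v α) h / ∏ j, α j 1) -
      lam h * (Sh Φ (ext K v' α') h / ∏ j, α' j 1)) = ∑ h : U, lam h * D h := by
    have h2 : ∀ h : K, (lam h * (Sh Φ (ext K v α) h / ∏ j, α j 1) -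
        lam h * (Sh Φ (ext K v' α') h / ∏ j, α' j 1)) = if h ∈ U then lam h * D h else 0 := by
      intro h
      split_ifs with hh
      · rw [hD]; ring
      · rw [hlam.1 h hh]; ring
    simp_rw [h2]
    rw [← Finset.sum_filter]
    symm
    refine Finset.sum_bij (fun (x : U) _ => (x : K)) ?_ ?_ ?_ ?_
    · intro x _; simp
    · intro x _ y _ hxy; exact Subtype.ext hxy
    · intro x hx
      exact ⟨⟨x, (Finset.mem_filter.1 hx).2⟩, Finset.mem_univ _, rfl⟩
    · intro x _; rfl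
  rw [h1]
  refine cong_class hlam.2 (fun h : U => D h) (fun x y => ?_) (fun x => ?_)
  · show D ((y : K) * x * (y : K)⁻¹) = D x
    rw [hD]
    simp only
    rw [Sh_conj hX.mem (hU y.2) hΦ, Sh_conj hX'.mem (hU' y.2) hΦ]
  · have := Sh_cong hα hα' hX hX' (hU x.2) (hU' x.2) hdat hΦ hI
    exact cong_iff_sub.1 this

end Pool.Agent.Helper79_WRA.H13
end
end -- Pool.Agent.Helper13_WRA.Form

section -- Pool.Agent.Helper15_WRA.Vpow

/-!
WRA, VPOW: values of characters at powers.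
-/

open scoped BigOperators

noncomputable section

namespace Pool.Agent.Helper79_WRA.H15

open Pool.Agent.Helper51_AWC Pool.Agent.Helper79_WRA

/-- Traces of the powers of an endomorphism of finite order. -/
theorem trace_pow_eq {V : Type*} [AddCommGroup V] [Module ℂ V] [FiniteDimensional ℂ V]
    (f : Module.End ℂ V) {N : ℕ} (hN : 0 < N) (hf : f ^ N = 1) {ζ : ℂ}
    (hζ : IsPrimitiveRoot ζ N) :
    ∃ m : ℕ → ℕ, ∀ k : ℕ, LinearMap.trace ℂ V (f ^ k) =
      ∑ j ∈ Finset.range N, (m j : ℂ) * (ζ ^ j) ^ k := by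
  have hN0 : (N : ℂ) ≠ 0 := by exact_mod_cast hN.ne'
  have hζ0 : ζ ≠ 0 := hζ.ne_zero hN.ne'
  -- the orthogonality relations
  have horth : ∀ a b : ℕ, a < N → b < N →
      ∑ k ∈ Finset.range N, (ζ ^ a) ^ k * ((ζ ^ b)⁻¹) ^ k = if a = b then (N : ℂ) else 0 := by
    intro a b ha hb
    simp_rw [← mul_pow]
    by_cases hab : a = b
    · subst hab
      rw [mul_inv_cancel₀ (pow_ne_zero _ hζ0), if_pos rfl]
      simp
    · rw [if_neg hab]
      have h1 : ζ ^ a * (ζ ^ b)⁻¹ ≠ 1 := by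
        intro h
        apply hab
        have h2 : ζ ^ a = ζ ^ b := by
          rw [mul_inv_eq_one₀ (pow_ne_zero _ hζ0)] at h
          exact h
        exact hζ.pow_inj ha hb h2
      have h3 := mul_geom_sum (ζ ^ a * (ζ ^ b)⁻¹) N
      have h4 : (ζ ^ a * (ζ ^ b)⁻¹) ^ N = 1 := by
        rw [mul_pow, inv_pow, ← pow_mul, ← pow_mul, mul_comm a, mul_comm b, pow_mul, pow_mul,
          hζ.pow_eq_one]
        simp
      rw [h4, sub_self] at h3
      rcases mul_eq_zero.1 h3 with h5 | h5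
      · exact absurd (sub_eq_zero.1 h5) h1
      · exact h5
  let P : ℕ → Module.End ℂ V := fun j =>
    (N : ℂ)⁻¹ • ∑ k ∈ Finset.range N, (((ζ ^ j)⁻¹) ^ k) • f ^ k
  -- f P_j = ζ^j P_j
  have hfP : ∀ j, f * P j = (ζ ^ j) • P j := by
    intro j
    have hj0 : ζ ^ j ≠ 0 := pow_ne_zero _ hζ0
    have h1 : ∀ k, f * ((((ζ ^ j)⁻¹) ^ k) • f ^ k) =
        (ζ ^ j) • ((((ζ ^ j)⁻¹) ^ (k + 1)) • f ^ (k + 1)) := by
      intro k
      rw [mul_smul_comm, ← pow_succ', smul_smul]
      congr 1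
      rw [pow_succ]
      field_simp
    have h2 : ∑ k ∈ Finset.range N, ((((ζ ^ j)⁻¹) ^ (k + 1)) • f ^ (k + 1)) =
        ∑ k ∈ Finset.range N, ((((ζ ^ j)⁻¹) ^ k) • f ^ k) := by
      have h3 := Finset.sum_range_succ (fun k => (((ζ ^ j)⁻¹) ^ k) • f ^ k) N
      have h4 := Finset.sum_range_succ' (fun k => (((ζ ^ j)⁻¹) ^ k) • f ^ k) N
      rw [h3] at h4
      have h5 : (((ζ ^ j)⁻¹) ^ N) • f ^ N = (((ζ ^ j)⁻¹) ^ 0) • f ^ 0 := by
        rw [hf, pow_zero, pow_zero, inv_pow, ← pow_mul, mul_comm j, pow_mul, hζ.pow_eq_one, one_pow,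
          inv_one]
      rw [h5] at h4
      exact (add_right_cancel h4).symm
    change f * ((N : ℂ)⁻¹ • ∑ k ∈ Finset.range N, (((ζ ^ j)⁻¹) ^ k) • f ^ k) = _
    rw [mul_smul_comm, Finset.mul_sum]
    simp_rw [h1]
    rw [← Finset.smul_sum, h2, smul_comm]
  have hfkP : ∀ j k, f ^ k * P j = (ζ ^ j) ^ k • P j := by
    intro j k
    induction k with
    | zero => rw [pow_zero, pow_zero, one_mul, one_smul]
    | succ k ih =>
      rw [pow_succ, mul_assoc, hfP, mul_smul_comm, ih, smul_smul, ← pow_succ']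
  -- idempotents
  have hPP : ∀ j < N, P j * P j = P j := by
    intro j hj
    have h1 : P j * P j = (N : ℂ)⁻¹ • ∑ k ∈ Finset.range N, (((ζ ^ j)⁻¹) ^ k) • (f ^ k * P j) := by
      change ((N : ℂ)⁻¹ • ∑ k ∈ Finset.range N, (((ζ ^ j)⁻¹) ^ k) • f ^ k) * P j = _
      rw [smul_mul_assoc, Finset.sum_mul]
      simp_rw [smul_mul_assoc]
    rw [h1]
    simp_rw [hfkP, smul_smul]
    rw [← Finset.sum_smul, smul_smul]
    have h2 := horth j j hj hj
    rw [if_pos rfl] at h2
    simp_rw [mul_comm] at h2 ⊢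
    rw [h2, inv_mul_cancel₀ hN0, one_smul]
  -- the sum of the idempotents
  have hsum : ∑ j ∈ Finset.range N, P j = 1 := by
    change ∑ j ∈ Finset.range N, ((N : ℂ)⁻¹ • ∑ k ∈ Finset.range N, (((ζ ^ j)⁻¹) ^ k) • f ^ k) = 1
    rw [← Finset.smul_sum, Finset.sum_comm]
    simp_rw [← Finset.sum_smul]
    have h1 : ∀ k ∈ Finset.range N, (∑ j ∈ Finset.range N, ((ζ ^ j)⁻¹) ^ k) • f ^ k =
        if k = 0 then (N : ℂ) • (1 : Module.End ℂ V) else 0 := by
      intro k hk
      have h2 := horth 0 k hN (Finset.mem_range.1 hk)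
      simp only [pow_zero, one_pow, one_mul] at h2
      have h3 : ∀ j, ((ζ ^ j)⁻¹) ^ k = ((ζ ^ k)⁻¹) ^ j := by
        intro j
        rw [inv_pow, inv_pow, ← pow_mul, ← pow_mul, mul_comm]
      simp_rw [h3]
      rw [h2]
      by_cases hk0 : k = 0
      · subst hk0
        rw [if_pos rfl, if_pos rfl, pow_zero]
      · rw [if_neg (fun h => hk0 h.symm), if_neg hk0, zero_smul]
    rw [Finset.sum_congr rfl h1, Finset.sum_ite_eq' (Finset.range N) 0, if_pos
      (Finset.mem_range.2 hN), smul_smul, inv_mul_cancel₀ hN0, one_smul]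
  have htr : ∀ j : ℕ, ∃ m : ℕ, j < N → LinearMap.trace ℂ V (P j) = m := by
    intro j
    by_cases hj : j < N
    · have h1 : LinearMap.IsProj (LinearMap.range (P j)) (P j) :=
        LinearMap.IsIdempotentElem.isProj_range (P j) (hPP j hj)
      exact ⟨_, fun _ => h1.trace⟩
    · exact ⟨0, fun h => absurd h hj⟩
  choose m hm using htr
  refine ⟨m, fun k => ?_⟩
  have h1 : f ^ k = ∑ j ∈ Finset.range N, (ζ ^ j) ^ k • P j := by
    conv_lhs => rw [← mul_one (f ^ k), ← hsum, Finset.mul_sum]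
    simp_rw [hfkP]
  rw [h1, map_sum]
  apply Finset.sum_congr rfl
  intro j hj
  rw [map_smul, hm j (Finset.mem_range.1 hj), smul_eq_mul, mul_comm]

/-- Values of a character at the powers of an element. -/
theorem irr_pow {G : Type} [Group G] {χ : G → ℂ} (hχ : χ ∈ Irr G) (y : G) {N : ℕ} (hN : 0 < N)
    (hy : y ^ N = 1) {ζ : ℂ} (hζ : IsPrimitiveRoot ζ N) :
    ∃ m : ℕ → ℕ, ∀ k : ℕ, χ (y ^ k) = ∑ j ∈ Finset.range N, (m j : ℂ) * (ζ ^ j) ^ k := by
  obtain ⟨n, ρ, hρ, rfl⟩ := hχ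
  obtain ⟨m, hm⟩ := trace_pow_eq (ρ y) hN (by rw [← map_pow, hy, map_one]) hζ
  refine ⟨m, fun k => ?_⟩
  rw [← hm k, ← map_pow]
  rfl

theorem charP_FF {ℓ : ℕ} [hp : Fact ℓ.Prime] {M : Ideal (integralClosure ℤ ℂ)} [hM : M.IsMaximal]
    (hℓ : (ℓ : integralClosure ℤ ℂ) ∈ M) : CharP (FF M) ℓ := by
  have h1 : Nontrivial (FF M) := Ideal.Quotient.nontrivial_iff.2 hM.ne_top
  rw [CharP.charP_iff_prime_eq_zero hp.out]
  have h2 : ((ℓ : ℕ) : FF M) = Ideal.Quotient.mk M (ℓ : integralClosure ℤ ℂ) :=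
    (map_natCast (Ideal.Quotient.mk M) ℓ).symm
  rw [h2]
  exact Ideal.Quotient.eq_zero_iff_mem.2 hℓ

theorem red_natCast {M : Ideal (integralClosure ℤ ℂ)} (n : ℕ) : red M (n : ℂ) = (n : FF M) := by
  rw [red_of (AI.natCast n)]
  have h2 : ((n : ℕ) : FF M) = Ideal.Quotient.mk M (n : integralClosure ℤ ℂ) :=
    (map_natCast (Ideal.Quotient.mk M) n).symm
  rw [h2]
  congr 1

/-- Sums of multiples of integral elements: powers. -/
theorem red_sum_pow {ℓ : ℕ} [hp : Fact ℓ.Prime] {M : Ideal (integralClosure ℤ ℂ)}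
    [hM : M.IsMaximal] (hℓ : (ℓ : integralClosure ℤ ℂ) ∈ M) (n : ℕ) (s : Finset ℕ) (m : ℕ → ℕ)
    (z : ℕ → ℂ) (hz : ∀ j, IsIntegral ℤ (z j)) :
    red M (∑ j ∈ s, (m j : ℂ) * (z j) ^ (ℓ ^ n)) =
      (red M (∑ j ∈ s, (m j : ℂ) * z j)) ^ (ℓ ^ n) := by
  have hch : CharP (FF M) ℓ := charP_FF hℓ
  have hexp : ExpChar (FF M) ℓ := ExpChar.prime hp.out
  have hF : ∀ x : FF M, x ^ (ℓ ^ n) = iterateFrobenius (FF M) ℓ n x := fun x =>
    (iterateFrobenius_def ℓ n x).symm
  rw [red_sum _ _ fun j _ => (AI.natCast _).mul ((hz j).pow _),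
    red_sum _ _ fun j _ => (AI.natCast _).mul (hz j), hF, map_sum]
  apply Finset.sum_congr rfl
  intro j _
  rw [red_mul (AI.natCast _) ((hz j).pow _), red_mul (AI.natCast _) (hz j), map_mul,
    red_natCast, map_natCast, red_pow (hz j), hF]

theorem integral_root {ζ : ℂ} {N : ℕ} (hN : 0 < N) (h : ζ ^ N = 1) : IsIntegral ℤ ζ := by
  apply IsIntegral.of_pow (n := N) hN
  rw [h]
  exact isIntegral_one

theorem vpow : VpowStmt := by
  intro ℓ _ M _ hℓ G _ _ χ hχ y n
  have hN : 0 < orderOf y := orderOf_pos y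
  obtain ⟨m, hm⟩ := irr_pow hχ y hN (pow_orderOf_eq_one y)
    (Complex.isPrimitiveRoot_exp (orderOf y) hN.ne')
  have h1 := hm 1
  rw [pow_one] at h1
  simp_rw [pow_one] at h1
  rw [hm (ℓ ^ n), h1]
  refine red_sum_pow hℓ n _ m _ fun j => ?_
  exact (integral_root hN (Complex.isPrimitiveRoot_exp (orderOf y) hN.ne').pow_eq_one).pow _

end Pool.Agent.Helper79_WRA.H15
end
end -- Pool.Agent.Helper15_WRA.Vpow

section -- Pool.Agent.Helper15_WRA.Gal

/-!
WRA, GAL: Galois conjugation by a Frobenius element.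
-/

open scoped BigOperators Cardinal
open Polynomial Cardinal

noncomputable section

namespace Pool.Agent.Helper79_WRA.H15

open Pool.Agent.Helper51_AWC Pool.Agent.Helper79_WRA

/-- Two uncountable algebraically closed extensions of a countable field of the same cardinality
are isomorphic over it. -/
theorem exists_ringEquiv (R K L : Type) [Field R] [Field K] [Field L] [Algebra R K] [Algebra R L]
    [IsAlgClosed K] [IsAlgClosed L] (hR : #R ≤ ℵ₀) (hK : ℵ₀ < #K) (hKL : #K = #L) :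
    ∃ σ : K ≃+* L, ∀ r, σ (algebraMap R K r) = algebraMap R L r := by
  obtain ⟨s, hs⟩ := exists_isTranscendenceBasis R K
  obtain ⟨t, ht⟩ := exists_isTranscendenceBasis R L
  have h1 := IsAlgClosed.cardinal_eq_cardinal_transcendence_basis_of_aleph0_lt' _ hs hR hK
  have h2 := IsAlgClosed.cardinal_eq_cardinal_transcendence_basis_of_aleph0_lt' _ ht hR
    (hKL ▸ hK)
  have h3 : #s = #t := by rw [← h1, ← h2, hKL]
  obtain ⟨e⟩ := Cardinal.eq.1 h3
  letI := IsAlgClosed.isAlgClosure_of_transcendence_basis _ hs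
  letI := IsAlgClosed.isAlgClosure_of_transcendence_basis _ ht
  let E := hs.1.aevalEquiv.symm.trans ((MvPolynomial.renameEquiv R e).trans ht.1.aevalEquiv)
  refine ⟨IsAlgClosure.equivOfEquiv K L E.toRingEquiv, fun r => ?_⟩
  have h4 : algebraMap R K r = algebraMap (Algebra.adjoin R (Set.range ((↑) : s → K))) K
      (algebraMap R _ r) := IsScalarTower.algebraMap_apply _ _ _ _
  have h5 : algebraMap R L r = algebraMap (Algebra.adjoin R (Set.range ((↑) : t → L))) L
      (algebraMap R _ r) := IsScalarTower.algebraMap_apply _ _ _ _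
  rw [h4, IsAlgClosure.equivOfEquiv_algebraMap, h5]
  congr 1
  exact E.commutes r

/-- Endomorphisms of `ℂ` with given action on roots of unity. -/
theorem exists_sigma (m q : ℕ) (hm : 0 < m) (hq : q.Coprime m) :
    ∃ σ : ℂ →+* ℂ, ∀ z : ℂ, z ^ m = 1 → σ z = z ^ q := by
  set ζ : ℂ := Complex.exp (2 * Real.pi * Complex.I / m) with hζd
  have hζ : IsPrimitiveRoot ζ m := Complex.isPrimitiveRoot_exp m hm.ne'
  have hζq : IsPrimitiveRoot (ζ ^ q) m := hζ.pow_of_coprime q hq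
  have hirr : Fact (Irreducible (cyclotomic m ℚ)) := ⟨cyclotomic.irreducible_rat hm⟩
  have h1 : eval₂ (algebraMap ℚ ℂ) ζ (cyclotomic m ℚ) = 0 := by
    rw [← eval_map, map_cyclotomic]
    exact hζ.isRoot_cyclotomic hm
  have h2 : eval₂ (algebraMap ℚ ℂ) (ζ ^ q) (cyclotomic m ℚ) = 0 := by
    rw [← eval_map, map_cyclotomic]
    exact hζq.isRoot_cyclotomic hm
  let i₁ : AdjoinRoot (cyclotomic m ℚ) →+* ℂ := AdjoinRoot.lift (algebraMap ℚ ℂ) ζ h1
  let i₂ : AdjoinRoot (cyclotomic m ℚ) →+* ℂ := AdjoinRoot.lift (algebraMap ℚ ℂ) (ζ ^ q) h2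
  have hcount : #(AdjoinRoot (cyclotomic m ℚ)) ≤ ℵ₀ := by
    have h3 : #(AdjoinRoot (cyclotomic m ℚ)) ≤ #(ℚ[X]) :=
      Cardinal.mk_le_of_surjective (f := AdjoinRoot.mk (cyclotomic m ℚ)) AdjoinRoot.mk_surjective
    refine h3.trans (Polynomial.cardinalMk_le_max.trans ?_)
    simp
  have hC : ℵ₀ < #ℂ := by
    rw [Cardinal.mk_complex]
    exact Cardinal.aleph0_lt_continuum
  obtain ⟨σ, hσ⟩ := @exists_ringEquiv (AdjoinRoot (cyclotomic m ℚ)) ℂ ℂ _ _ _ i₁.toAlgebra
    i₂.toAlgebra _ _ hcount hC rfl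
  refine ⟨(σ : ℂ →+* ℂ), fun z hz => ?_⟩
  have h3 : σ ζ = ζ ^ q := by
    have h4 := hσ (AdjoinRoot.root _)
    have h5 : i₁ (AdjoinRoot.root _) = ζ := AdjoinRoot.lift_root h1
    have h6 : i₂ (AdjoinRoot.root _) = ζ ^ q := AdjoinRoot.lift_root h2
    change σ (i₁ (AdjoinRoot.root _)) = i₂ (AdjoinRoot.root _) at h4
    rw [h5, h6] at h4
    exact h4
  have hm' : NeZero m := ⟨hm.ne'⟩
  obtain ⟨k, _, rfl⟩ := hζ.eq_pow_of_pow_eq_one hz
  change σ (ζ ^ k) = _
  rw [map_pow, h3, ← pow_mul, ← pow_mul, mul_comm]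

/-- `|G| / χ(1)` is a natural number. -/
theorem codeg_nat {G : Type} [Group G] [Finite G] {χ : G → ℂ} (hχ : χ ∈ Irr G) :
    ∃ u : ℕ, (Nat.card G : ℂ) / χ 1 = u := by
  classical
  have := Fintype.ofFinite G
  have := Fintype.ofFinite (ConjClasses G)
  have h1 : IsIntegral ℤ ((Nat.card G : ℂ) / χ 1) := by
    rw [Nat.card_eq_fintype_card, codeg_eq hχ]
    exact IsIntegral.sum _ fun K _ => (omega_integral _ hχ _).mul (irr_integral hχ _)
  obtain ⟨d, hd, hd'⟩ := irr_one hχ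
  have h2 : (Nat.card G : ℂ) / χ 1 = algebraMap ℚ ℂ ((Nat.card G : ℚ) / d) := by
    rw [hd', map_div₀, map_natCast, map_natCast]
  rw [h2] at h1
  have h3 : IsIntegral ℤ ((Nat.card G : ℚ) / d) :=
    (isIntegral_algebraMap_iff (algebraMap ℚ ℂ).injective).1 h1
  obtain ⟨z, hz⟩ := IsIntegrallyClosed.isIntegral_iff.1 h3
  have h4 : (0 : ℤ) ≤ z := by
    have h5 : (0 : ℚ) ≤ (z : ℚ) := by
      have h6 : (z : ℚ) = (Nat.card G : ℚ) / d := hz
      rw [h6]; positivity
    exact_mod_cast h5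
  obtain ⟨u, rfl⟩ := Int.eq_ofNat_of_zero_le h4
  refine ⟨u, ?_⟩
  rw [h2, ← hz]
  simp

/-- `|C_G(g)| ω_χ(g) = (|G| / χ(1)) χ(g)`. -/
theorem cent_omega {G : Type} [Group G] [Finite G] {χ : G → ℂ} (hχ : χ ∈ Irr G) (g : G) :
    (Nat.card (Subgroup.centralizer {g} : Subgroup G) : ℂ) * omega (MonoidHom.id G) χ g =
      (Nat.card G : ℂ) / χ 1 * χ g := by
  classical
  have := Fintype.ofFinite G
  rw [omega_eq]
  have h1 : (∑ h : G, if IsConj g ((MonoidHom.id G) h) then χ h else 0) =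
      ((Finset.univ.filter fun h => IsConj g h).card : ℂ) * χ g := by
    rw [← Finset.sum_filter, Finset.sum_congr rfl (g := fun _ => χ g)]
    · rw [Finset.sum_const, nsmul_eq_mul]
      rfl
    · intro h hh
      exact (irr_isConj hχ (Finset.mem_filter.1 hh).2).symm
  rw [h1]
  have h2 := card_class g
  have h3 : (Nat.card (Subgroup.centralizer {g} : Subgroup G) : ℂ) *
      ((Finset.univ.filter fun h => IsConj g h).card : ℂ) = (Nat.card G : ℂ) := by
    rw [Nat.card_eq_fintype_card (α := G), ← h2]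
    push_cast
    rfl
  rw [← mul_div_assoc, ← mul_assoc, h3]
  ring

theorem gal : GalStmt := by
  intro ℓ hp M hM hℓ G _ _ ξ hξ n
  classical
  have := Fintype.ofFinite G
  have hch : CharP (FF M) ℓ := charP_FF hℓ
  have hexp : ExpChar (FF M) ℓ := ExpChar.prime hp.out
  have hfield : IsDomain (FF M) := Ideal.Quotient.isDomain M
  set m : ℕ := Nat.card G / ℓ ^ (Nat.card G).factorization ℓ with hmdef
  have hG : Nat.card G ≠ 0 := Nat.card_pos.ne'
  have hm : 0 < m := Nat.ordCompl_pos ℓ hG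
  have hcop : (ℓ ^ n).Coprime m := (Nat.coprime_ordCompl hp.out hG).pow_left n
  obtain ⟨σ, hσ⟩ := exists_sigma m (ℓ ^ n) hm hcop
  obtain ⟨d, hd, hd'⟩ := irr_one hξ
  have hmem : (fun g => σ (ξ g)) ∈ Irr G := by
    obtain ⟨k, r, hr1, hr2, hr3⟩ := irr_coeff hξ
    refine mem_Irr_of_coeff (fun g a b => σ (r g a b)) ?_ ?_ _ ?_ ?_
    · intro a b
      rw [hr1]
      split_ifs <;> simp
    · intro g h a b
      rw [hr2, map_sum]
      simp
    · intro g
      rw [← hr3, map_sum]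
    · have h1 := irr_orth_self hξ
      have h2 := congrArg σ h1
      rw [map_sum, map_natCast] at h2
      rw [← h2]
      simp
  refine ⟨_, hmem, ?_, ?_⟩
  · change σ (ξ 1) = ξ 1
    rw [hd', map_natCast]
  · intro g hg
    set C : ℕ := Nat.card (Subgroup.centralizer {g} : Subgroup G) with hC
    -- the order of `g`
    have hord : g ^ m = 1 := by
      have h1 : orderOf g ∣ C := by
        have h2 : g ∈ Subgroup.centralizer ({g} : Set G) := by
          rw [Subgroup.mem_centralizer_singleton_iff]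
        have h3 := orderOf_dvd_natCard (⟨g, h2⟩ : (Subgroup.centralizer {g} : Subgroup G))
        rwa [Subgroup.orderOf_mk] at h3
      have h2 : ¬ ℓ ∣ orderOf g := fun h => hg (h.trans h1)
      have h3 : orderOf g ∣ Nat.card G := orderOf_dvd_natCard g
      apply orderOf_dvd_iff_pow_eq_one.1
      have h4 : Nat.card G = ℓ ^ (Nat.card G).factorization ℓ * m :=
        (Nat.ordProj_mul_ordCompl_eq_self _ _).symm
      rw [h4] at h3
      refine Nat.Coprime.dvd_of_dvd_mul_left ?_ h3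
      exact (((Nat.Prime.coprime_iff_not_dvd hp.out).2 h2).symm).pow_right _
    set ζ : ℂ := Complex.exp (2 * Real.pi * Complex.I / m) with hζd
    have hζ : IsPrimitiveRoot ζ m := Complex.isPrimitiveRoot_exp m hm.ne'
    obtain ⟨a, ha⟩ := irr_pow hξ g hm hord hζ
    have h1 := ha 1
    rw [pow_one] at h1
    simp_rw [pow_one] at h1
    have hzint : ∀ j, IsIntegral ℤ (ζ ^ j) := fun j =>
      (integral_root hm hζ.pow_eq_one).pow j
    have hσg : red M (σ (ξ g)) = (red M (ξ g)) ^ (ℓ ^ n) := by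
      rw [h1, map_sum, ← red_sum_pow hℓ n _ a _ hzint]
      congr 1
      apply Finset.sum_congr rfl
      intro j _
      rw [map_mul, map_natCast, hσ (ζ ^ j) (by rw [← pow_mul, mul_comm, pow_mul, hζ.pow_eq_one,
        one_pow])]
    obtain ⟨u, hu⟩ := codeg_nat hξ
    have hu' : (Nat.card G : ℂ) / σ (ξ 1) = u := by
      rw [hd', map_natCast, ← hd']; exact hu
    have e1 := cent_omega hξ g
    have e2 := cent_omega hmem g
    rw [hu] at e1
    change _ = (Nat.card G : ℂ) / σ (ξ 1) * σ (ξ g) at e2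
    rw [hu'] at e2
    have f1 := congrArg (red M) e1
    have f2 := congrArg (red M) e2
    rw [red_mul (AI.natCast _) (omega_integral _ hξ g), red_mul (AI.natCast _) (irr_integral hξ g),
      red_natCast, red_natCast] at f1
    rw [red_mul (AI.natCast _) (omega_integral _ hmem g),
      red_mul (AI.natCast _) (irr_integral hmem g), red_natCast, red_natCast] at f2
    have hFn : ∀ k : ℕ, (k : FF M) ^ (ℓ ^ n) = k := by
      intro k
      rw [← iterateFrobenius_def, map_natCast]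
    have g1 := congrArg (fun x => x ^ (ℓ ^ n)) f1
    simp only [mul_pow, hFn] at g1
    rw [hσg] at f2
    have hCne : (C : FF M) ≠ 0 := by
      rw [Ne, CharP.cast_eq_zero_iff (FF M) ℓ]
      exact hg
    exact mul_left_cancel₀ hCne (f2.trans g1.symm)

end Pool.Agent.Helper79_WRA.H15
end
end -- Pool.Agent.Helper15_WRA.Gal

section -- Pool.Agent.Helper15_WRA.Test

/-!
WRA, TEST: evaluation of the tests.
-/

open scoped BigOperators

noncomputable section

namespace Pool.Agent.Helper79_WRA.H15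

open Pool.Agent.Helper51_AWC Pool.Agent.Helper79_WRA

/-- Sums of invariant functions over a set with an action of a `p`-group, in characteristic `p`:
only the fixed points contribute. -/
theorem sum_fixed {p : ℕ} [Fact p.Prime] {F X Q : Type*} [CommRing F] [CharP F p] [Group Q]
    [Finite Q] (hQ : IsPGroup p Q) [MulAction Q X] [Fintype X] [DecidableEq F]
    [DecidablePred fun x : X => ∀ q : Q, q • x = x] (f : X → F)
    (hf : ∀ (q : Q) (x : X), f (q • x) = f x) :
    ∑ x, f x = ∑ x ∈ Finset.univ.filter (fun x => ∀ q : Q, q • x = x), f x := by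
  classical
  have h1 : ∑ x, f x = ∑ v ∈ Finset.univ.image f, ∑ x ∈ Finset.univ.filter (fun x => f x = v), f x :=
    (Finset.sum_fiberwise_of_maps_to (fun x _ => Finset.mem_image_of_mem f (Finset.mem_univ x)) _).symm
  have h2 : ∑ x ∈ Finset.univ.filter (fun x => ∀ q : Q, q • x = x), f x =
      ∑ v ∈ Finset.univ.image f, ∑ x ∈ (Finset.univ.filter (fun x => ∀ q : Q, q • x = x)).filter
        (fun x => f x = v), f x :=
    (Finset.sum_fiberwise_of_maps_to
      (fun x _ => Finset.mem_image_of_mem f (Finset.mem_univ x)) _).symm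
  rw [h1, h2]
  apply Finset.sum_congr rfl
  intro v _
  have h3 : ∀ s : Finset X, ∑ x ∈ s.filter (fun x => f x = v), f x =
      ((s.filter (fun x => f x = v)).card : F) * v := by
    intro s
    rw [Finset.sum_congr rfl (fun x hx => (Finset.mem_filter.1 hx).2), Finset.sum_const,
      nsmul_eq_mul]
  rw [h3, h3]
  congr 1
  letI act : MulAction Q {x : X // f x = v} :=
    { smul := fun q x => ⟨q • x.1, by rw [hf]; exact x.2⟩
      one_smul := fun x => Subtype.ext (one_smul Q x.1)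
      mul_smul := fun a b x => Subtype.ext (mul_smul a b x.1) }
  have hc := hQ.card_modEq_card_fixedPoints {x : X // f x = v}
  have h4 : Nat.card {x : X // f x = v} = (Finset.univ.filter (fun x => f x = v)).card := by
    rw [Nat.card_eq_fintype_card, Fintype.card_subtype]
  have h5 : Nat.card (MulAction.fixedPoints Q {x : X // f x = v}) =
      ((Finset.univ.filter (fun x => ∀ q : Q, q • x = x)).filter (fun x => f x = v)).card := by
    have e : MulAction.fixedPoints Q {x : X // f x = v} ≃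
        ((Finset.univ.filter (fun x => ∀ q : Q, q • x = x)).filter (fun x => f x = v) :
          Finset X) :=
      { toFun := fun y => ⟨y.1.1, by
          rw [Finset.mem_filter, Finset.mem_filter]
          exact ⟨⟨Finset.mem_univ _, fun q => congrArg Subtype.val (y.2 q)⟩, y.1.2⟩⟩
        invFun := fun x => ⟨⟨x.1, (Finset.mem_filter.1 x.2).2⟩, fun q =>
          Subtype.ext ((Finset.mem_filter.1 (Finset.mem_filter.1 x.2).1).2 q)⟩
        left_inv := fun _ => rfl
        right_inv := fun _ => rfl }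
    rw [Nat.card_congr e, Nat.card_eq_fintype_card, Fintype.card_coe]
  rw [h4, h5] at hc
  exact (CharP.natCast_eq_natCast F p).2 hc

section tr

variable {G Ω L : Type} [Group L] [MulAction L Ω]

theorem tr_mul (a b : L) (β : Ω → G → ℂ) : tr (a * b) β = tr a (tr b β) := by
  funext i
  simp only [tr, mul_inv_rev, mul_smul]

theorem tr_one (β : Ω → G → ℂ) : tr (1 : L) β = β := by
  funext i
  simp only [tr, inv_one, one_smul]

/-- the families occurring in the tests -/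
def SS (β₀ : Ω → G → ℂ) (h₀ k : L) : Set (Ω → G → ℂ) :=
  {β' | ∃ l : L, β' = tr l β₀ ∧ k = l * h₀ * l⁻¹}

theorem SS_finite [Finite L] (β₀ : Ω → G → ℂ) (h₀ k : L) : (SS β₀ h₀ k).Finite := by
  apply (Set.finite_range (fun l : L => tr l β₀)).subset
  rintro _ ⟨l, rfl, -⟩
  exact ⟨l, rfl⟩

theorem tr_mem_SS {β₀ : Ω → G → ℂ} {h₀ k p : L} (hp : p * k = k * p) {β' : Ω → G → ℂ}
    (h : β' ∈ SS β₀ h₀ k) : tr p β' ∈ SS β₀ h₀ k := by
  obtain ⟨l, rfl, hl⟩ := h
  refine ⟨p * l, (tr_mul _ _ _).symm, ?_⟩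
  have h1 : p * l * h₀ * (p * l)⁻¹ = p * (l * h₀ * l⁻¹) * p⁻¹ := by group
  rw [h1, ← hl, hp, mul_inv_cancel_right]

end tr

theorem isExt_ext {G Δ K : Type} [Group G] [Finite G] [Fintype Δ] [Group K] [Finite K]
    [MulAction K Δ] (hext : ExtStmt) {v : Finset (Δ → Subgroup G)} {α : Δ → G → ℂ}
    (hα : IsChars v α) : IsExt K v α (ext K v α) := by
  have h := hext G Δ K v α hα
  unfold ext
  rw [dif_pos h]
  exact h.choose_spec

section sit

variable {ℓ : ℕ} [Fact ℓ.Prime] {M : Ideal (integralClosure ℤ ℂ)}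
  {G Ω L Δ K : Type} [Group G] [Finite G] [Fintype Ω] [Group L] [Finite L]
  [MulAction L Ω] [Fintype Δ] [Group K] [Finite K] [MulAction K Δ] {q : Ω → Δ} {κ : K →* L}
  {ι : Wreath G Δ K →* Wreath G Ω L} {P : Subgroup L}

omit [Finite G] [Fintype Ω] [Finite L] [Fintype Δ] [Finite K] [Fact ℓ.Prime] in
theorem top_comm (hs : Sit ℓ q κ ι P) {p : L} (hp : p ∈ P) {h : K} (hc : p * κ h = κ h * p)
    (w : Δ → G) : Wreath.top p * ι ⟨w, h⟩ = ι ⟨w, h⟩ * Wreath.top p := by
  rw [hs.iota]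
  apply Wreath.ext
  · funext i
    simp only [Wreath.mul_f, Wreath.top_f, Wreath.top_s, one_mul, mul_one]
    congr 1
    apply ((hs.fib _ _).2 ⟨p, hp, _⟩)
    rw [smul_inv_smul]
  · exact hc

omit [Finite G] [Finite K] [Fact ℓ.Prime] in
theorem EE_tr [Finite G] (heqv : EqvStmt) (hs : Sit ℓ q κ ι P) {β' : Ω → G → ℂ}
    (hβ' : ∀ i, β' i ∈ Irr G)
    (α : Δ → G → ℂ) {p : L} (hp : p ∈ P) {h : K} (hc : p * κ h = κ h * p) :
    EE ι (tr p β') α h = EE ι β' α h := by
  unfold EE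
  congr 1
  apply finsum_congr
  intro w
  congr 1
  have h1 := (heqv G Ω L β' hβ').1 (ι ⟨w, h⟩)⁻¹ (Wreath.top p)
  rw [Wreath.top_s] at h1
  have h2 : Wreath.top p * (ι ⟨w, h⟩)⁻¹ * (Wreath.top p)⁻¹ = (ι ⟨w, h⟩)⁻¹ := by
    have h3 := top_comm hs hp hc w
    rw [mul_inv_eq_iff_eq_mul, eq_inv_mul_iff_mul_eq, ← mul_assoc, ← h3, mul_inv_cancel_right]
  rw [h2] at h1
  exact h1

omit [Fact ℓ.Prime] in
theorem EE_int (hext : ExtStmt) (heqv : EqvStmt) (hformi : FormiStmt) (hs : Sit ℓ q κ ι P)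
    {β' : Ω → G → ℂ} (hβ' : ∀ i, β' i ∈ Irr G) {α : Δ → G → ℂ} (hα : ∀ j, α j ∈ Irr G) {h : K}
    (hh : h ∈ LL K α) : IsIntegral ℤ (EE ι β' α h) := by
  refine (hformi G Δ K ⊥ (triv G Δ) α (isChars_triv.2 hα) h hh
    (fun x => ex L β' (ι x)⁻¹) ?_).1 ?_
  · intro x a
    have h1 := (heqv G Ω L β' hβ').1 (ι x)⁻¹ (ι (Wreath.base a))
    have h2 : (ι (Wreath.base a)).s = 1 := by
      rw [hs.iota]
      exact map_one κ
    rw [h2, tr_one] at h1
    show ex L β' (ι (Wreath.base a * x * (Wreath.base a)⁻¹))⁻¹ = _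
    rw [← h1]
    congr 1
    simp only [map_mul, map_inv, mul_inv_rev, inv_inv, mul_assoc]
  · intro x
    exact IrrS_integral (isExt_ext hext (isChars_triv.2 hβ')).mem _

/-- The sum over all families occurring for an element commuting with `P`. -/
theorem inner_eval [M.IsMaximal] (hext : ExtStmt) (heqv : EqvStmt) (hformi : FormiStmt)
    (hte : TesteStmt) (hℓ : (ℓ : integralClosure ℤ ℂ) ∈ M) (hG : opCore ℓ G = ⊥)
    (hs : Sit ℓ q κ ι P) {β : Ω → G → ℂ} {α : Δ → G → ℂ} (htw : TwPair ℓ M q β α) {h : K}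
    (hh : h ∈ LL K α) (hc : ∀ p ∈ P, p * κ h = κ h * p) {β₀ : Ω → G → ℂ}
    (hβ₀ : ∀ i, β₀ i ∈ DZ ℓ M G) {h₀ : L} (hh₀ : h₀ ∈ LL L β₀) :
    IsIntegral ℤ (∑ᶠ (β' : Ω → G → ℂ) (_ : β' ∈ SS β₀ h₀ (κ h)), EE ι β' α h) ∧
    (β ∈ SS β₀ h₀ (κ h) → red M (∑ᶠ (β' : Ω → G → ℂ) (_ : β' ∈ SS β₀ h₀ (κ h)), EE ι β' α h) =
      red M (uu β)) ∧
    (β ∉ SS β₀ h₀ (κ h) → red M (∑ᶠ (β' : Ω → G → ℂ) (_ : β' ∈ SS β₀ h₀ (κ h)), EE ι β' α h) =
      0) := by
  classical
  have hch : CharP (FF M) ℓ := charP_FF hℓ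
  have hfin := SS_finite β₀ h₀ (κ h)
  letI : Fintype (SS β₀ h₀ (κ h)) := hfin.fintype
  have e1 : ∑ᶠ (β' : Ω → G → ℂ) (_ : β' ∈ SS β₀ h₀ (κ h)), EE ι β' α h =
      ∑ x : SS β₀ h₀ (κ h), EE ι x.1 α h := by
    rw [← finsum_set_coe_eq_finsum_mem (SS β₀ h₀ (κ h)) (f := fun β' => EE ι β' α h),
      finsum_eq_sum_of_fintype]
  have hα : ∀ j, α j ∈ Irr G := fun j => (htw.dz' j).1
  have hDZ : ∀ β' ∈ SS β₀ h₀ (κ h), ∀ i, β' i ∈ DZ ℓ M G := by
    rintro _ ⟨l, rfl, -⟩ i
    exact hβ₀ _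
  have hint : ∀ x : SS β₀ h₀ (κ h), IsIntegral ℤ (EE ι x.1 α h) := fun x =>
    EE_int hext heqv hformi hs (fun i => (hDZ _ x.2 i).1) hα hh
  rw [e1, red_sum _ _ fun x _ => hint x]
  letI act : MulAction P (SS β₀ h₀ (κ h)) :=
    { smul := fun p x => ⟨tr (p : L) x.1, tr_mem_SS (hc p p.2) x.2⟩
      one_smul := fun x => Subtype.ext (tr_one x.1)
      mul_smul := fun a b x => Subtype.ext (tr_mul (a : L) (b : L) x.1) }
  have hact : ∀ (p : P) (x : SS β₀ h₀ (κ h)), ((p • x : SS β₀ h₀ (κ h)) : Ω → G → ℂ) =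
      tr (p : L) x.1 := fun _ _ => rfl
  rw [sum_fixed (p := ℓ) (Q := P) hs.pgroup (fun x : SS β₀ h₀ (κ h) => red M (EE ι x.1 α h))
    (fun p x => by
      rw [hact, EE_tr heqv hs (fun i => (hDZ _ x.2 i).1) α p.2 (hc p p.2)])]
  have hLL : ∀ β' ∈ SS β₀ h₀ (κ h), κ h ∈ LL L β' := by
    rintro β' ⟨l, hl, hk⟩
    rw [mem_LL (fun i => (hβ₀ i).1)] at hh₀
    have hI : ∀ i, β' i ∈ Irr G := by
      intro i
      rw [hl]
      exact (hβ₀ _).1
    rw [mem_LL hI]
    intro i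
    rw [hl, hk]
    show β₀ (l⁻¹ • ((l * h₀ * l⁻¹)⁻¹ • i)) = β₀ (l⁻¹ • i)
    have h1 : l⁻¹ • ((l * h₀ * l⁻¹)⁻¹ • i) = h₀⁻¹ • (l⁻¹ • i) := by
      simp only [← mul_smul]
      congr 1
      group
    rw [h1, hh₀]
  have hfixed : ∀ x : SS β₀ h₀ (κ h), (∀ p : P, p • x = x) → ∀ i i', q i = q i' →
      x.1 i = x.1 i' := by
    intro x hx i i' hii
    obtain ⟨p, hp, rfl⟩ := (hs.fib _ _).1 hii
    have h1 : tr p x.1 = x.1 := congrArg Subtype.val (hx ⟨p, hp⟩)
    have h2 := congrFun h1 (p • i)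
    unfold tr at h2
    rw [inv_smul_smul] at h2
    exact h2
  have hval : ∀ x : SS β₀ h₀ (κ h), (∀ p : P, p • x = x) →
      (x.1 = β → red M (EE ι x.1 α h) = red M (uu β)) ∧
      (x.1 ≠ β → red M (EE ι x.1 α h) = 0) := by
    intro x hx
    obtain ⟨h1, h2⟩ := hte ℓ M hℓ G hG Ω L Δ K q κ ι P β α hs htw h hh hc x.1 (hDZ _ x.2)
      (hfixed x hx) (hLL _ x.2)
    refine ⟨fun h3 => (red_eq_iff (hint x) ?_).2 (h1 h3), fun h3 => ?_⟩
    · exact IsIntegral.prod _ fun i _ => codeg_int (htw.dz i).1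
    · rw [(red_eq_iff (hint x) isIntegral_zero).2 (h2 h3), red_zero]
  refine ⟨IsIntegral.sum _ fun x _ => hint x, ?_, ?_⟩
  · intro hβ
    have hmem : (⟨β, hβ⟩ : SS β₀ h₀ (κ h)) ∈
        Finset.univ.filter (fun x : SS β₀ h₀ (κ h) => ∀ p : P, p • x = x) := by
      rw [Finset.mem_filter]
      refine ⟨Finset.mem_univ _, fun p => Subtype.ext ?_⟩
      rw [hact]
      funext i
      unfold tr
      apply htw.fib
      apply (hs.fib _ _).2
      exact ⟨p, p.2, smul_inv_smul _ _⟩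
    rw [Finset.sum_eq_single_of_mem _ hmem]
    · exact (hval _ (Finset.mem_filter.1 hmem).2).1 rfl
    · intro x hx hne
      exact (hval x (Finset.mem_filter.1 hx).2).2 (fun h' => hne (Subtype.ext h'))
  · intro hβ
    apply Finset.sum_eq_zero
    intro x hx
    exact (hval x (Finset.mem_filter.1 hx).2).2 (fun h' => hβ (h' ▸ x.2))

omit [Fact ℓ.Prime] [Fintype Ω] [Fintype Δ] [Finite G] [Finite K] in
/-- The cardinality of a fibre is a power of the prime. -/
theorem card_fib [Fact ℓ.Prime] [Finite Ω] (hs : Sit ℓ q κ ι P) (i : Ω) :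
    ∃ n, Nat.card {i' // q i' = q i} = ℓ ^ n := by
  obtain ⟨n, hn⟩ := hs.pgroup.card_orbit i
  refine ⟨n, ?_⟩
  rw [← hn]
  apply Nat.card_congr
  refine Equiv.subtypeEquivRight fun i' => ?_
  rw [MulAction.mem_orbit_iff]
  constructor
  · intro h
    obtain ⟨p, hp, h1⟩ := (hs.fib _ _).1 h.symm
    exact ⟨⟨p, hp⟩, h1⟩
  · rintro ⟨p, hp⟩
    exact ((hs.fib _ _).2 ⟨p, p.2, hp⟩).symm

theorem kappa_mem [M.IsMaximal] (hdzu : DzuStmt) (hℓ : (ℓ : integralClosure ℤ ℂ) ∈ M)
    (hG : opCore ℓ G = ⊥) (hs : Sit ℓ q κ ι P) {β : Ω → G → ℂ} {α : Δ → G → ℂ}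
    (htw : TwPair ℓ M q β α) {k : K} (hk : k ∈ LL K α) : κ k ∈ LL L β := by
  have hch : CharP (FF M) ℓ := charP_FF hℓ
  have hexp : ExpChar (FF M) ℓ := ExpChar.prime Fact.out
  have hdom : IsDomain (FF M) := Ideal.Quotient.isDomain M
  rw [mem_LL (fun i => (htw.dz i).1)]
  rw [mem_LL (fun j => (htw.dz' j).1)] at hk
  intro i
  have h1 : q ((κ k)⁻¹ • i) = k⁻¹ • q i := by
    rw [← map_inv]
    exact hs.compat _ _
  have h2 : α (q ((κ k)⁻¹ • i)) = α (q i) := by rw [h1, hk]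
  obtain ⟨n, hn⟩ := card_fib hs i
  have hn' : Nat.card {i' // q i' = q ((κ k)⁻¹ • i)} = ℓ ^ n := by
    rw [← hn]
    apply Nat.card_congr
    refine (MulAction.toPerm (κ k)).subtypeEquiv fun i' => ?_
    show q i' = q ((κ k)⁻¹ • i) ↔ q (κ k • i') = q i
    rw [hs.compat, h1, smul_eq_iff_eq_inv_smul]
  have h3 := htw.tw i n hn
  have h4 := htw.tw ((κ k)⁻¹ • i) n hn'
  rw [h2] at h4
  apply hdzu ℓ M hℓ G hG _ (htw.dz _) _ (htw.dz _).1
  funext g
  have h5 : labF M (β ((κ k)⁻¹ • i)) g ^ ℓ ^ n = labF M (β i) g ^ ℓ ^ n :=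
    (h4 g).symm.trans (h3 g)
  apply iterateFrobenius_inj (FF M) ℓ n
  rw [iterateFrobenius_def, iterateFrobenius_def]
  exact h5

omit [Finite G] [Finite K] [Fact ℓ.Prime] in
theorem Sh_test [Finite G] (hs : Sit ℓ q κ ι P) (β₀ : Ω → G → ℂ) (h₀ : L) (α : Δ → G → ℂ)
    (h : K) : H13.Sh (fun t => testT β₀ h₀ (ι t)) (ex K α) h / ∏ j, α j 1 =
      ∑ᶠ (β' : Ω → G → ℂ) (_ : β' ∈ SS β₀ h₀ (κ h)), EE ι β' α h := by
  classical
  have := Fintype.ofFinite G
  have hfin := SS_finite β₀ h₀ (κ h)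
  letI : Fintype (SS β₀ h₀ (κ h)) := hfin.fintype
  have e1 : ∀ F : (Ω → G → ℂ) → ℂ, ∑ᶠ (β' : Ω → G → ℂ) (_ : β' ∈ SS β₀ h₀ (κ h)), F β' =
      ∑ x : SS β₀ h₀ (κ h), F x.1 := by
    intro F
    rw [← finsum_set_coe_eq_finsum_mem (SS β₀ h₀ (κ h)) (f := F), finsum_eq_sum_of_fintype]
  rw [e1]
  unfold H13.Sh EE
  have e2 : ∀ w : Δ → G, testT β₀ h₀ (ι ⟨w, h⟩) =
      ∑ x : SS β₀ h₀ (κ h), ex L x.1 (ι ⟨w, h⟩)⁻¹ := by
    intro w
    rw [← e1 (fun β' => ex L β' (ι ⟨w, h⟩)⁻¹)]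
    have h1 : (ι ⟨w, h⟩).s = κ h := by rw [hs.iota]
    unfold testT
    rw [h1]
    rfl
  simp only [e2, finsum_eq_sum_of_fintype]
  rw [← Finset.sum_div, Finset.sum_comm]
  congr 1
  apply Finset.sum_congr rfl
  intro w _
  rw [Finset.sum_mul]

omit [Finite G] [Fintype Ω] [Finite L] [Fintype Δ] [Finite K] [Fact ℓ.Prime] in
theorem good_conj (hs : Sit ℓ q κ ι P) (k h : K) :
    (∀ p ∈ P, p * κ (k * h * k⁻¹) = κ (k * h * k⁻¹) * p) ↔ ∀ p ∈ P, p * κ h = κ h * p := by
  have hmem : ∀ (k : K) (p : L), p ∈ P → κ k * p * (κ k)⁻¹ ∈ P := by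
    intro k p hp
    have h1 := hs.norm k
    rw [← h1, mem_conjS]
    have : (κ k)⁻¹ * (κ k * p * (κ k)⁻¹) * κ k = p := by group
    rw [this]
    exact hp
  constructor
  · intro H p hp
    have h1 := H _ (hmem k p hp)
    simp only [map_mul, map_inv] at h1
    have h2 : κ k * (p * κ h) * (κ k)⁻¹ = κ k * (κ h * p) * (κ k)⁻¹ := by
      calc κ k * (p * κ h) * (κ k)⁻¹
          = κ k * p * (κ k)⁻¹ * (κ k * κ h * (κ k)⁻¹) := by group
        _ = κ k * κ h * (κ k)⁻¹ * (κ k * p * (κ k)⁻¹) := h1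
        _ = κ k * (κ h * p) * (κ k)⁻¹ := by group
    exact mul_left_cancel (mul_right_cancel h2)
  · intro H p hp
    have h1 := H _ (hmem k⁻¹ p hp)
    simp only [map_mul, map_inv, inv_inv] at h1 ⊢
    calc p * (κ k * κ h * (κ k)⁻¹)
        = κ k * ((κ k)⁻¹ * p * κ k * κ h) * (κ k)⁻¹ := by group
      _ = κ k * (κ h * ((κ k)⁻¹ * p * κ k)) * (κ k)⁻¹ := by rw [h1]
      _ = κ k * κ h * (κ k)⁻¹ * p := by group

end sit

theorem test (hext : ExtStmt) (heqv : EqvStmt) (hformi : FormiStmt) (hdzu : DzuStmt)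
    (hte : TesteStmt) : TestStmt := by
  classical
  intro ℓ _ M _ hℓ G _ _ hG Ω L Δ K _ _ _ _ _ _ _ _ q κ ι P β α hs htw lam hlam hrestr
  have := Fintype.ofFinite K
  have := Fintype.ofFinite (LL K α)
  have hα : ∀ j, α j ∈ Irr G := fun j => (htw.dz' j).1
  have hXα := isExt_ext (K := K) hext (isChars_triv.2 hα)
  have key : ∀ (β₀ : Ω → G → ℂ), (∀ i, β₀ i ∈ DZ ℓ M G) → ∀ h₀ ∈ LL L β₀, ∀ R : K → ℂ,
      (∀ u ∈ LL K α, ∀ h, R (u * h * u⁻¹) = R h) →
      (∀ h ∈ LL K α, (∀ p ∈ P, p * κ h = κ h * p) →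
        Cong M (∑ᶠ (β' : Ω → G → ℂ) (_ : β' ∈ SS β₀ h₀ (κ h)), EE ι β' α h) (R h)) →
      (∀ h, ¬ (∀ p ∈ P, p * κ h = κ h * p) → R h = 0) →
      Cong M (val (fun t => testT β₀ h₀ (ι t)) (et α lam)) ((∑ h, lam h * R h) / lam 1) := by
    intro β₀ hβ₀ h₀ hh₀ R hR hR1 hR2
    obtain ⟨hΦc, hΦi, -⟩ := (heqv G Ω L β₀ (fun i => (hβ₀ i).1)).2.1 h₀ hh₀
    obtain ⟨Ψ, hΨ⟩ : ∃ Ψ : Wreath G Δ K → ℂ, Ψ = fun t =>
      if ∀ p ∈ P, p * κ t.s = κ t.s * p then testT β₀ h₀ (ι t) else 0 := ⟨_, rfl⟩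
    have h1 := hrestr (testT β₀ h₀) hΦc hΦi Ψ
      (fun t ht => by rw [hΨ]; exact if_pos ht) (fun t ht => by rw [hΨ]; exact if_neg ht)
    refine h1.trans ?_
    have hΨc : ∀ x y, Ψ (y * x * y⁻¹) = Ψ x := by
      intro x y
      rw [hΨ]
      show (if ∀ p ∈ P, p * κ (y * x * y⁻¹).s = κ (y * x * y⁻¹).s * p then
        testT β₀ h₀ (ι (y * x * y⁻¹)) else 0) = if ∀ p ∈ P, p * κ x.s = κ x.s * p then
        testT β₀ h₀ (ι x) else 0
      have h2 : (∀ p ∈ P, p * κ (y * x * y⁻¹).s = κ (y * x * y⁻¹).s * p) ↔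
          ∀ p ∈ P, p * κ x.s = κ x.s * p := by
        rw [Wreath.conj_s]
        exact good_conj hs y.s x.s
      have h3 : testT β₀ h₀ (ι (y * x * y⁻¹)) = testT β₀ h₀ (ι x) := by
        rw [map_mul, map_mul, map_inv, hΦc]
      rw [h3]
      by_cases hg : ∀ p ∈ P, p * κ x.s = κ x.s * p
      · rw [if_pos hg, if_pos (h2.2 hg)]
      · rw [if_neg hg, if_neg (fun h => hg (h2.1 h))]
    have hD : ∀ h ∈ LL K α, Cong M (H13.Sh Ψ (ex K α) h / ∏ j, α j 1) (R h) := by
      intro h hh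
      by_cases hg : ∀ p ∈ P, p * κ h = κ h * p
      · have h2 : H13.Sh Ψ (ex K α) h = H13.Sh (fun t => testT β₀ h₀ (ι t)) (ex K α) h := by
          unfold H13.Sh
          apply finsum_congr
          intro w
          congr 1
          rw [hΨ]
          exact if_pos hg
        rw [h2, Sh_test hs]
        exact hR1 h hh hg
      · have h2 : H13.Sh Ψ (ex K α) h = 0 := by
          unfold H13.Sh
          have h3 : ∀ w : Δ → G, Ψ ⟨w, h⟩ * ex K α ⟨w, h⟩ = 0 := by
            intro w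
            have h4 : Ψ ⟨w, h⟩ = 0 := by
              rw [hΨ]
              exact if_neg hg
            rw [h4, zero_mul]
          simp only [h3, finsum_zero]
        rw [h2, zero_div, hR2 h hg]
        exact Cong.refl _
    have hval := H13.val_eta (K := K) hXα Ψ lam
    rw [hval, cong_iff_sub, ← sub_div, ← Finset.sum_sub_distrib]
    have h2 : ∑ h : K, (lam h * (H13.Sh Ψ (ext K (triv G Δ) α) h / ∏ j, α j 1) - lam h * R h) =
        ∑ h : LL K α, lam h * (H13.Sh Ψ (ext K (triv G Δ) α) h / (∏ j, α j 1) - R h) := by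
      have h3 : ∀ h : K, (lam h * (H13.Sh Ψ (ext K (triv G Δ) α) h / ∏ j, α j 1) -
          lam h * R h) = if h ∈ LL K α then
            lam h * (H13.Sh Ψ (ext K (triv G Δ) α) h / (∏ j, α j 1) - R h) else 0 := by
        intro h
        split_ifs with hh
        · ring
        · rw [hlam.1 h hh]; ring
      simp_rw [h3]
      rw [← Finset.sum_filter]
      symm
      refine Finset.sum_bij (fun (x : LL K α) _ => (x : K)) ?_ ?_ ?_ ?_
      · intro x _; simp
      · intro x _ y _ hxy; exact Subtype.ext hxy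
      · intro x hx
        exact ⟨⟨x, (Finset.mem_filter.1 hx).2⟩, Finset.mem_univ _, rfl⟩
      · intro x _; rfl
    rw [h2]
    refine H13.cong_class hlam.2
      (fun h : LL K α => H13.Sh Ψ (ext K (triv G Δ) α) h / (∏ j, α j 1) - R h)
      (fun x y => ?_) (fun x => ?_)
    · show H13.Sh Ψ (ext K (triv G Δ) α) ((y : K) * x * (y : K)⁻¹) / (∏ j, α j 1) -
        R ((y : K) * x * (y : K)⁻¹) = _
      rw [H13.Sh_conj hXα.mem y.2 hΨc, hR _ y.2]
    · exact cong_iff_sub.1 (hD x x.2)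
  constructor
  · intro β₀ hβ₀ hno h₀ hh₀
    have h1 := key β₀ hβ₀ h₀ hh₀ (fun _ => 0) (fun _ _ _ => rfl) (fun h hh hc => by
      obtain ⟨hi, -, h2⟩ := inner_eval hext heqv hformi hte hℓ hG hs htw hh hc hβ₀ hh₀
      apply (red_eq_iff hi isIntegral_zero).1
      rw [h2, red_zero]
      rintro ⟨l, hl, -⟩
      apply hno l⁻¹
      rw [hl, ← tr_mul, inv_mul_cancel, tr_one]) (fun _ _ => rfl)
    simpa using h1
  · intro h₀ hh₀
    have hβI : ∀ i, β i ∈ Irr G := fun i => (htw.dz i).1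
    have huI : IsIntegral ℤ (uu β) := IsIntegral.prod _ fun i _ => codeg_int (hβI i)
    have hSS : ∀ h : K, β ∈ SS β h₀ (κ h) ↔ ∃ u ∈ LL L β, κ h = u * h₀ * u⁻¹ := by
      intro h
      constructor
      · rintro ⟨l, hl, hk⟩
        refine ⟨l, ?_, hk⟩
        rw [mem_LL hβI]
        intro i
        exact (congrFun hl i).symm
      · rintro ⟨u, hu, hk⟩
        refine ⟨u, ?_, hk⟩
        funext i
        exact ((mem_LL hβI).1 hu i).symm
    have h1 := key β htw.dz h₀ hh₀ (fun h => if (∀ p ∈ P, p * κ h = κ h * p) ∧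
        ∃ u ∈ LL L β, κ h = u * h₀ * u⁻¹ then uu β else 0) ?_ ?_ ?_
    · have h2 : (∑ h, lam h * (if (∀ p ∈ P, p * κ h = κ h * p) ∧
          ∃ u ∈ LL L β, κ h = u * h₀ * u⁻¹ then uu β else 0)) / lam 1 =
          uu β * ((∑ᶠ (k : K) (_ : (∀ p ∈ P, p * κ k = κ k * p) ∧
            ∃ u ∈ LL L β, κ k = u * h₀ * u⁻¹), lam k) / lam 1) := by
        rw [← mul_div_assoc, finsum_eq_sum_of_fintype, Finset.mul_sum]
        congr 1
        apply Finset.sum_congr rfl
        intro k _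
        rw [finsum_eq_if]
        split_ifs
        · ring
        · ring
      rw [h2] at h1
      exact h1
    · intro u hu h
      have h2 : ((∀ p ∈ P, p * κ (u * h * u⁻¹) = κ (u * h * u⁻¹) * p) ∧
          ∃ v ∈ LL L β, κ (u * h * u⁻¹) = v * h₀ * v⁻¹) ↔
          ((∀ p ∈ P, p * κ h = κ h * p) ∧ ∃ v ∈ LL L β, κ h = v * h₀ * v⁻¹) := by
        have hku := kappa_mem hdzu hℓ hG hs htw hu
        rw [good_conj hs]
        apply and_congr_right
        intro _
        constructor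
        · rintro ⟨v, hv, h3⟩
          refine ⟨(κ u)⁻¹ * v, (LL L β).mul_mem ((LL L β).inv_mem hku) hv, ?_⟩
          simp only [map_mul, map_inv] at h3
          have h4 : κ h = (κ u)⁻¹ * (κ u * κ h * (κ u)⁻¹) * κ u := by group
          rw [h4, h3]
          group
        · rintro ⟨v, hv, h3⟩
          refine ⟨κ u * v, (LL L β).mul_mem hku hv, ?_⟩
          simp only [map_mul, map_inv]
          rw [h3]
          group
      simp only [h2]
    · intro h hh hc
      obtain ⟨hi, h3, h4⟩ := inner_eval hext heqv hformi hte hℓ hG hs htw hh hc htw.dz hh₀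
      by_cases hex : ∃ u ∈ LL L β, κ h = u * h₀ * u⁻¹
      · simp only [if_pos (And.intro hc hex)]
        exact (red_eq_iff hi huI).1 (h3 ((hSS h).2 hex))
      · simp only [if_neg (fun h' : _ ∧ _ => hex h'.2)]
        apply (red_eq_iff hi isIntegral_zero).1
        rw [h4 (fun h' => hex ((hSS h).1 h')), red_zero]
    · intro h hc
      simp only [if_neg (fun h' : _ ∧ _ => hc h'.1)]

end Pool.Agent.Helper79_WRA.H15
end
end -- Pool.Agent.Helper15_WRA.Test

section -- Pool.Agent.Helper33_WRA.Formi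

/-!
WRA, module FORMI: integrality of the inner sums for base-invariant functions.
-/

open scoped BigOperators

noncomputable section

namespace Pool.Agent.Helper79_WRA.H33

open Pool.Agent.Helper51_AWC Pool.Agent.Helper79_WRA.H13

theorem isExt_ext {G Δ K : Type} [Group G] [Finite G] [Fintype Δ] [Group K] [Finite K]
    [MulAction K Δ] {v : Finset (Δ → Subgroup G)} {α : Δ → G → ℂ} (hα : IsChars v α) :
    IsExt K v α (ext K v α) := by
  have h := ext_ G Δ K v α hα
  unfold ext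
  rw [dif_pos h]
  exact h.choose_spec

variable {G Δ K : Type} [Group G] [Group K] [MulAction K Δ]

theorem res_class' {h : K} {B : Finset Δ} (hB : IsBase h B) {Φ : Wreath G Δ K → ℂ}
    (hΦ : ∀ x (a : Δ → G), Φ (Wreath.base a * x * (Wreath.base a)⁻¹) = Φ x) {y z : Δ → G}
    (hyz : ∀ i, IsConj (y i) (z i)) :
    Φ ⟨res B y, h⟩ = Φ ⟨res B z, h⟩ := by
  classical
  choose c hc using fun i => isConj_iff.1 (hyz i)
  choose b hb hu using fun j => hB j
  have hb1 : ∀ j, b (h⁻¹ • j) = b j := by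
    intro j
    apply hu
    refine ⟨(hb _).1, ?_⟩
    have h1 := (hb (h⁻¹ • j)).2
    have h2 : h⁻¹ • j ∈ MulAction.orbit (Subgroup.zpowers h) j :=
      ⟨⟨h⁻¹, (Subgroup.zpowers h).inv_mem (Subgroup.mem_zpowers h)⟩, rfl⟩
    rwa [MulAction.orbit_eq_iff.2 h2] at h1
  have hb2 : ∀ i ∈ B, b i = i := fun i hi =>
    (hu i i ⟨hi, MulAction.mem_orbit_self i⟩).symm
  have h1 := hΦ ⟨res B y, h⟩ (fun i => c (b i))
  rw [conj_base] at h1
  rw [← h1]
  congr 2
  funext i
  unfold res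
  by_cases hi : i ∈ B
  · rw [if_pos hi, if_pos hi, hb1, hb2 i hi, hc]
  · rw [if_neg hi, if_neg hi, hb1, mul_one, mul_inv_cancel]

open Classical in
theorem Sh_eq' [Finite G] [Fintype Δ] [Fintype (ConjClasses G)]
    {v : Finset (Δ → Subgroup G)} {α : Δ → G → ℂ} {X : Wreath G Δ K → ℂ} (hα : IsChars v α)
    (hX : IsExt K v α X) {h : K} (hh : h ∈ topSt K v α) {B : Finset Δ} (hB : IsBase h B)
    {Φ : Wreath G Δ K → ℂ}
    (hΦ : ∀ x (a : Δ → G), Φ (Wreath.base a * x * (Wreath.base a)⁻¹) = Φ x) :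
    Sh Φ X h / ∏ j, α j 1 =
      (∏ j, if j ∈ B then (1 : ℂ) else (Nat.card (colStab v j) : ℂ) / α j 1) *
        ∑ C : Δ → ConjClasses G, Φ ⟨res B (fun i => Quotient.out (C i)), h⟩ *
          ∏ i, omB B α i (C i) := by
  have := Fintype.ofFinite G
  have hone : ∀ j, α j 1 ≠ 0 := fun j => IrrS_one_ne (hα j)
  have h1 := hX.form h hh B hB Φ hΦ
  have h2 : (∑ᶠ (y : Δ → G) (_ : ∀ j, j ∉ B → y j = 1), Φ ⟨y, h⟩ * ∏ b ∈ B, α b (y b)) =
      ∑ y : Δ → G, Φ ⟨res B y, h⟩ *
        ∏ i, (if i ∈ B then α i (y i) else if y i = 1 then 1 else 0) := by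
    rw [finsum_eq_sum_of_fintype]
    refine Finset.sum_congr rfl fun y _ => ?_
    rw [finsum_eq_if]
    split_ifs with hy
    · have h3 : res B y = y := by
        funext i
        unfold res
        split_ifs with hi
        · rfl
        · exact (hy i hi).symm
      rw [h3]
      congr 1
      rw [← Finset.prod_subset (Finset.subset_univ B)]
      · exact Finset.prod_congr rfl fun i hi => by rw [if_pos hi]
      · intro i _ hi
        rw [if_neg hi, if_pos (hy i hi)]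
    · push Not at hy
      obtain ⟨j, hj, hj2⟩ := hy
      rw [Finset.prod_eq_zero (Finset.mem_univ j), mul_zero]
      rw [if_neg hj, if_neg hj2]
  have h3 := sum_class_pi (fun y : Δ → G => Φ ⟨res B y, h⟩)
    (fun i x => if i ∈ B then α i x else if x = 1 then 1 else 0)
    (fun y z hyz => res_class' hB hΦ hyz)
  have h4 : ∀ (i : Δ) (C : ConjClasses G),
      ∑ x ∈ Finset.univ.filter (fun x => ConjClasses.mk x = C),
        (if i ∈ B then α i x else if x = 1 then 1 else 0) =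
      omB B α i C * (if i ∈ B then α i 1 else 1) := by
    intro i C
    unfold omB
    by_cases hi : i ∈ B
    · simp only [if_pos hi]
      exact class_omega (α i) (hone i) C
    · simp only [if_neg hi, mul_one]
      rw [Finset.sum_ite_eq']
      simp only [Finset.mem_filter, Finset.mem_univ, true_and]
      by_cases hC : C = ConjClasses.mk 1
      · rw [if_pos hC.symm, if_pos hC]
      · rw [if_neg (fun h => hC h.symm), if_neg hC]
  unfold Sh
  rw [h1, h2, h3]
  simp only [h4, Finset.prod_mul_distrib]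
  have h5 : ∏ j, α j 1 = (∏ j, if j ∈ B then α j 1 else 1) *
      ∏ j, if j ∈ B then 1 else α j 1 := by
    rw [← Finset.prod_mul_distrib]
    refine Finset.prod_congr rfl fun j _ => ?_
    split_ifs <;> simp
  have h6 : (∏ j, if j ∈ B then (1 : ℂ) else (Nat.card (colStab v j) : ℂ) / α j 1) =
      (∏ j, if j ∈ B then (1 : ℂ) else (Nat.card (colStab v j) : ℂ)) /
        ∏ j, if j ∈ B then 1 else α j 1 := by
    rw [← Finset.prod_div_distrib]
    refine Finset.prod_congr rfl fun j _ => ?_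
    split_ifs <;> simp
  have h7 : (∏ j, if j ∈ B then α j 1 else 1) ≠ 0 := by
    refine Finset.prod_ne_zero_iff.2 fun j _ => ?_
    split_ifs
    · exact hone j
    · exact one_ne_zero
  have h8 : (∏ j, if j ∈ B then (1 : ℂ) else α j 1) ≠ 0 := by
    refine Finset.prod_ne_zero_iff.2 fun j _ => ?_
    split_ifs
    · exact one_ne_zero
    · exact hone j
  have h9 : ∑ C : Δ → ConjClasses G, Φ ⟨res B (fun i => Quotient.out (C i)), h⟩ *
      ((∏ i, omB B α i (C i)) * ∏ j, if j ∈ B then α j 1 else 1) =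
      (∑ C : Δ → ConjClasses G, Φ ⟨res B (fun i => Quotient.out (C i)), h⟩ *
        ∏ i, omB B α i (C i)) * ∏ j, if j ∈ B then α j 1 else 1 := by
    rw [Finset.sum_mul]
    exact Finset.sum_congr rfl fun C _ => by ring
  rw [h9, h5, h6]
  field_simp

theorem formi : FormiStmt := by
  classical
  intro G Δ K _ _ _ _ _ _ M v α hα h hh Φ hΦ
  have := Fintype.ofFinite (ConjClasses G)
  obtain ⟨B, hB⟩ := exists_base (Δ := Δ) h
  have h1 := Sh_eq' hα (isExt_ext hα) hh hB hΦ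
  unfold Sh at h1
  have hq : ∀ j, IsIntegral ℤ (if j ∈ B then (1 : ℂ) else (Nat.card (colStab v j) : ℂ) / α j 1) := by
    intro j
    split_ifs
    · exact isIntegral_one
    · exact card_div_integral (hα j)
  have ho : ∀ C : Δ → ConjClasses G, IsIntegral ℤ (∏ i, omB B α i (C i)) := fun C =>
    IsIntegral.prod _ fun i _ => omB_integral hα B i _
  rw [h1]
  constructor
  · intro hI
    exact (IsIntegral.prod _ fun j _ => hq j).mul (IsIntegral.sum _ fun C _ => (hI _).mul (ho C))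
  · intro hM
    refine Cong.mul_zero_left ?_ (IsIntegral.prod _ fun j _ => hq j)
    have h0 : (0 : ℂ) = ∑ _C : Δ → ConjClasses G, (0 : ℂ) := by simp
    rw [h0]
    apply Cong.sum
    intro C _
    exact (hM _).mul_zero_right (ho C)

end Pool.Agent.Helper79_WRA.H33
end
end -- Pool.Agent.Helper33_WRA.Formi

section -- Pool.Agent.Helper55_CC.Off

/-!
CC, module OFF: the inner sums outside of the base group vanish modulo `M`.
-/

open scoped BigOperators

noncomputable section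

namespace Pool.Agent.Helper98_CC.H55

open Pool.Agent.Helper51_AWC Pool.Agent.Helper79_WRA Pool.Agent.Helper79_WRA.H13
open Pool.Agent.Helper79_WRA.H33

theorem off : OffStmt := by
  classical
  intro ℓ hp M hM hℓ G _ _ hG χ hχ hLD h hh Φ hΦ hI
  have := Fintype.ofFinite (ConjClasses G)
  have hα : IsChars (triv G (ZMod ℓ)) (fun _ : ZMod ℓ => χ) := isChars_triv.2 fun _ => hχ
  have hmem : h ∈ topSt (Cl ℓ) (triv G (ZMod ℓ)) (fun _ : ZMod ℓ => χ) :=
    (mem_LL (L := Cl ℓ) (β := fun _ : ZMod ℓ => χ) fun _ => hχ).2 fun _ => rfl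
  obtain ⟨B, hB⟩ := exists_base (Δ := ZMod ℓ) h
  have hcod : IsIntegral ℤ ((Nat.card G : ℂ) / χ 1) := codeg_int hχ
  have hred : Cong M ((Nat.card G : ℂ) / χ 1) 0 :=
    (H83.red_eq_zero_iff hcod).1 (((H83.pos ℓ M hℓ G hG).1 χ hχ).1 hLD)
  -- some index is not in the base
  obtain ⟨j, hj⟩ : ∃ j, j ∉ B := by
    by_contra hcon
    push Not at hcon
    obtain ⟨b, -, hu⟩ := hB 0
    have h1 : (0 : ZMod ℓ) = b := hu 0 ⟨hcon 0, MulAction.mem_orbit_self 0⟩
    have h2 : h • (0 : ZMod ℓ) = b :=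
      hu _ ⟨hcon _, ⟨⟨h, Subgroup.mem_zpowers h⟩, rfl⟩⟩
    rw [← h1, cl_smul, add_zero] at h2
    exact hh (Multiplicative.toAdd.injective h2)
  have h1 := Sh_eq' hα (isExt_ext hα) hmem hB (fun x a => hΦ x (Wreath.base a))
  unfold Sh at h1
  have h2 : (∑ᶠ w : ZMod ℓ → G, Φ ⟨w, h⟩ * ex (Cl ℓ) (fun _ => χ) ⟨w, h⟩) /
      ∏ _j : ZMod ℓ, χ 1 = _ := h1
  rw [h2]
  refine Cong.mul_zero_right ?_ (IsIntegral.sum _ fun C _ => (hI _).mul
    (IsIntegral.prod _ fun i _ => omB_integral hα B i _))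
  rw [← Finset.mul_prod_erase _ _ (Finset.mem_univ j), if_neg hj, colStab_triv,
    Subgroup.card_top]
  refine Cong.mul_zero_right hred (IsIntegral.prod _ fun i _ => ?_)
  split_ifs
  · exact isIntegral_one
  · rw [colStab_triv, Subgroup.card_top]
    exact hcod

end Pool.Agent.Helper98_CC.H55
end
end -- Pool.Agent.Helper55_CC.Off
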