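import Pool.Agent.Helper12_AWB.B060
import Pool.Agent.Helper12_AWB.B061
import Pool.Agent.Helper12_AWB.B063

/-!
# Merged copies (generated) of the modules

* `Pool.Agent.Helper13_WRA.Label`
* `Pool.Agent.Helper47_WRA.Restr`
* `Pool.Agent.Helper69_WRA.Alg`
* `Pool.Agent.Helper65_CC.Ind`
* `Pool.Agent.Helper33_CC.Gooda`
* `Pool.Agent.Helper81_CC.Eqb`
-/

set_option autoImplicit false

section -- Pool.Agent.Helper13_WRA.Label

/-!
WRA, module LABEL: induced blocks are defined for stabilisers of chains of `ℓ`-subgroups.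
-/

open scoped BigOperators

noncomputable section

namespace Pool.Agent.Helper79_WRA.H13

open Pool.Agent.Helper51_AWC Pool.Agent.Helper79_WRA

theorem val_class {H : Type} [Group H] [Fintype H] [DecidableEq (ConjClasses H)]
    [Fintype (ConjClasses H)] (F a : H → ℂ) (hF : ∀ x y, F (y * x * y⁻¹) = F x) (h1 : a 1 ≠ 0) :
    val F a = ∑ C : ConjClasses H, F (Quotient.out C) *
      omega (MonoidHom.id H) a (Quotient.out C) := by
  rw [val_eq, sum_class1 F a hF, Finset.sum_div]
  refine Finset.sum_congr rfl fun C _ => ?_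
  rw [class_omega a h1, ← mul_assoc, mul_div_assoc, div_self h1, mul_one]

theorem val_integral {H : Type} [Group H] [Finite H] {F a : H → ℂ}
    (hF : ∀ x y, F (y * x * y⁻¹) = F x) (hI : ∀ x, IsIntegral ℤ (F x)) (ha : a ∈ Irr H) :
    IsIntegral ℤ (val F a) := by
  classical
  have := Fintype.ofFinite H
  have := Fintype.ofFinite (ConjClasses H)
  rw [val_class F a hF (irr_one_ne ha)]
  exact IsIntegral.sum _ fun C _ => (hI _).mul (omega_integral _ ha _)

/-- congruence of values for functions with congruent central characters -/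
theorem val_cong {H : Type} [Group H] [Finite H] {M : Ideal (integralClosure ℤ ℂ)}
    {F a b : H → ℂ} (hF : ∀ x y, F (y * x * y⁻¹) = F x) (hI : ∀ x, IsIntegral ℤ (F x))
    (ha : a 1 ≠ 0) (hb : b 1 ≠ 0)
    (h : ∀ g, Cong M (omega (MonoidHom.id H) a g) (omega (MonoidHom.id H) b g)) :
    Cong M (val F a) (val F b) := by
  classical
  have := Fintype.ofFinite H
  have := Fintype.ofFinite (ConjClasses H)
  rw [val_class F a hF ha, val_class F b hF hb]
  apply Cong.sum
  intro C _
  exact (h _).mul_left (hI _)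

theorem val_restrict' {Γ : Type} [Group Γ] [Finite Γ] {Λ : Subgroup Γ} (Φ η : Γ → ℂ)
    (hη : ∀ t, t ∉ Λ → η t = 0) :
    val (fun t : Λ => Φ t) (fun t : Λ => η t) = val Φ η := by
  classical
  unfold val
  congr 1
  have h1 : ∑ᶠ t : Λ, (fun t : Λ => Φ t) t * (fun t : Λ => η t) t =
      ∑ᶠ (t : Γ) (_ : t ∈ Λ), Φ t * η t :=
    finsum_subtype_eq_finsum_cond (f := fun t => Φ t * η t) (p := fun t => t ∈ Λ)
  rw [h1]
  refine finsum_congr fun t => ?_
  rw [finsum_eq_if]
  split_ifs with h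
  · rfl
  · rw [hη t h, mul_zero]

open Classical in
/-- the indicator of the class of `g` on `H` -/
theorem omega_eq_val {G : Type} [Group G] [Finite G] (H : Subgroup G) (a : H → ℂ) (g : G) :
    omega H.subtype a g = val (fun h : H => if IsConj g (h : G) then (1 : ℂ) else 0) a := by
  have := Fintype.ofFinite H
  rw [omega_eq, val_eq]
  congr 1
  refine Finset.sum_congr rfl fun h _ => ?_
  by_cases hg : IsConj g (h : G)
  · have hg' : IsConj g (H.subtype h) := hg
    rw [if_pos hg, if_pos hg', one_mul]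
  · have hg' : ¬ IsConj g (H.subtype h) := hg
    rw [if_neg hg, if_neg hg', zero_mul]

open Classical in
theorem omega_eq_val' {G : Type} [Group G] [Finite G] (a : G → ℂ) (g : G) :
    omega (MonoidHom.id G) a g = val (fun h : G => if IsConj g h then (1 : ℂ) else 0) a := by
  have := Fintype.ofFinite G
  rw [omega_eq, val_eq]
  congr 1
  refine Finset.sum_congr rfl fun h _ => ?_
  simp only [MonoidHom.id_apply, ite_mul, one_mul, zero_mul]

theorem conj_indicator {G : Type} [Group G] (g x y : G) [Decidable (IsConj g (y * x * y⁻¹))]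
    [Decidable (IsConj g x)] : (if IsConj g (y * x * y⁻¹) then (1 : ℂ) else 0) =
      if IsConj g x then 1 else 0 := by
  have h : IsConj x (y * x * y⁻¹) := isConj_iff.2 ⟨y, rfl⟩
  by_cases h1 : IsConj g x
  · rw [if_pos h1, if_pos (h1.trans h)]
  · rw [if_neg h1, if_neg (fun h2 => h1 (h2.trans h.symm))]

theorem exists_max {G : Type} [Group G] [Finite G] {d : Finset (Subgroup G)} (hne : d.Nonempty)
    (hd : IsChain (· ≤ ·) (d : Set (Subgroup G))) : ∃ D ∈ d, ∀ E ∈ d, E ≤ D := by
  obtain ⟨D, hD, hmax⟩ := Finset.exists_max_image d (fun E => Nat.card E) hne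
  refine ⟨D, hD, fun E hE => ?_⟩
  rcases chain_total hd hE hD with h | h
  · exact h
  · rw [Subgroup.eq_of_le_of_card_ge h (hmax E hE)]

/-- the functional of a character of a subgroup -/
def Wf {G : Type} [Group G] [Finite G] (H : Subgroup G) (ϑ : H → ℂ) : (G → ℂ) →ₗ[ℂ] ℂ where
  toFun f := val (fun h : H => f h) ϑ
  map_add' f g := by
    have := Fintype.ofFinite H
    rw [val_eq, val_eq, val_eq, ← add_div, ← Finset.sum_add_distrib]
    congr 1
    exact Finset.sum_congr rfl fun t _ => by rw [Pi.add_apply]; ring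
  map_smul' c f := by
    have := Fintype.ofFinite H
    rw [val_eq, val_eq, RingHom.id_apply, smul_eq_mul, ← mul_div_assoc, Finset.mul_sum]
    congr 1
    exact Finset.sum_congr rfl fun t _ => by rw [Pi.smul_apply, smul_eq_mul]; ring

theorem Wf_integral {G : Type} [Group G] [Finite G] {H : Subgroup G} {ϑ : H → ℂ}
    (hϑ : ϑ ∈ Irr H) (f : G → ℂ) (hf : ∀ x y, f (y * x * y⁻¹) = f x)
    (hfi : ∀ x, IsIntegral ℤ (f x)) : IsIntegral ℤ (Wf H ϑ f) :=
  val_integral (F := fun h : H => f h) (fun _ _ => hf _ _) (fun _ => hfi _) hϑ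

theorem Wf_one {G : Type} [Group G] [Finite G] {M : Ideal (integralClosure ℤ ℂ)}
    {H : Subgroup G} {ϑ : H → ℂ} (hϑ : ϑ ∈ Irr H) (f : G → ℂ) (hf : ∀ x, x ≠ 1 → f x = 0)
    (hf1 : f 1 = 1) : Cong M (Wf H ϑ f) 1 := by
  have := Fintype.ofFinite H
  show Cong M (val (fun h : H => f h) ϑ) 1
  rw [val_eq, Finset.sum_eq_single_of_mem 1 (Finset.mem_univ _)]
  · rw [OneMemClass.coe_one, hf1, one_mul, div_self (irr_one_ne hϑ)]
    exact Cong.refl _
  · intro x _ hx
    rw [hf _ (fun h => hx (Subtype.ext h)), zero_mul]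

theorem chain_image {G : Type} [Group G] [DecidableEq (Subgroup G)] {d : Finset (Subgroup G)}
    (hc : IsChain (· ≤ ·) (d : Set (Subgroup G))) (D H : Subgroup G)
    [DecidableEq (Subgroup H)] :
    IsChain (· ≤ ·) (((d.erase D).image fun E => E.subgroupOf H : Finset (Subgroup H)) :
      Set (Subgroup H)) := by
  intro E hE E' hE' _
  rw [Finset.mem_coe] at hE hE'
  obtain ⟨F, hF, rfl⟩ := Finset.mem_image.1 hE
  obtain ⟨F', hF', rfl⟩ := Finset.mem_image.1 hE'
  rcases chain_total hc (Finset.mem_erase.1 hF).2 (Finset.mem_erase.1 hF').2 with h | h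
  · left
    show F.subgroupOf H ≤ F'.subgroupOf H
    intro x hx
    exact Subgroup.mem_subgroupOf.2 (h (Subgroup.mem_subgroupOf.1 hx))
  · right
    show F'.subgroupOf H ≤ F.subgroupOf H
    intro x hx
    exact Subgroup.mem_subgroupOf.2 (h (Subgroup.mem_subgroupOf.1 hx))

theorem mem_stab_subgroupOf {G : Type} [Group G] [DecidableEq (Subgroup G)]
    {d : Finset (Subgroup G)} {H : Subgroup G} [DecidableEq (Subgroup H)] {D : Subgroup G}
    (hH : H = Subgroup.normalizer (D : Set G)) (hle : ∀ E ∈ d, E ≤ H) :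
    stab ((d.erase D).image fun E => E.subgroupOf H) = (stab d).subgroupOf H := by
  ext g
  rw [mem_stab, Subgroup.mem_subgroupOf, mem_stab]
  have key : ∀ E ∈ d, conjS g (E.subgroupOf H) = E.subgroupOf H ↔ conjS (g : G) E = E := by
    intro E hE
    constructor
    · intro h
      ext x
      rw [mem_conjS]
      by_cases hx : x ∈ H
      · have h1 := congrArg (fun S : Subgroup H => (⟨x, hx⟩ : H) ∈ S) h
        simp only [mem_conjS, Subgroup.mem_subgroupOf, eq_iff_iff] at h1
        exact h1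
      · constructor
        · intro h1
          exfalso
          apply hx
          have h2 := H.mul_mem (H.mul_mem g.2 (hle E hE h1)) (H.inv_mem g.2)
          have e : (g : G) * ((g : G)⁻¹ * x * g) * (g : G)⁻¹ = x := by group
          rwa [e] at h2
        · intro h1
          exact absurd (hle E hE h1) hx
    · intro h
      ext x
      rw [mem_conjS, Subgroup.mem_subgroupOf, Subgroup.mem_subgroupOf]
      conv_rhs => rw [← h, mem_conjS]
      rfl
  constructor
  · intro h E hE
    by_cases hED : E = D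
    · have h1 : (g : G) ∈ Subgroup.normalizer (D : Set G) := hH.le g.2
      rw [hED]
      exact mem_normalizer_iff_conjS.1 h1
    · exact (key E hE).1 (h _ (Finset.mem_image_of_mem _ (Finset.mem_erase.2 ⟨hED, hE⟩)))
  · intro h E hE
    obtain ⟨E', hE', rfl⟩ := Finset.mem_image.1 hE
    have h1 := (Finset.mem_erase.1 hE').2
    exact (key E' h1).2 (h E' h1)

theorem exists_small_chain {G : Type} [Group G] [Finite G] {ℓ : ℕ} {d : Finset (Subgroup G)}
    (hp : ∀ D ∈ d, IsPGroup ℓ D) (hc : IsChain (· ≤ ·) (d : Set (Subgroup G))) {D : Subgroup G}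
    (hD : D ∈ d) (H : Subgroup G) (hH : H = Subgroup.normalizer (D : Set G))
    (hle : ∀ E ∈ d, E ≤ H) :
    ∃ d' : Finset (Subgroup H), d'.card < d.card ∧ (∀ E ∈ d', IsPGroup ℓ E) ∧
      IsChain (· ≤ ·) (d' : Set (Subgroup H)) ∧ stab d' = (stab d).subgroupOf H := by
  classical
  have h10 := chain_image hc D H
  have h11 := mem_stab_subgroupOf (d := d) (D := D) (H := H) hH hle
  have h12 : ((d.erase D).image fun E => E.subgroupOf H).card < d.card := by
    have h1 := Finset.card_image_le (s := d.erase D) (f := fun E => E.subgroupOf H)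
    have h2 := Finset.card_erase_of_mem hD
    have h3 : 0 < d.card := Finset.card_pos.2 ⟨D, hD⟩
    omega
  have h13 : ∀ E ∈ ((d.erase D).image fun E => E.subgroupOf H : Finset (Subgroup H)),
      IsPGroup ℓ E := by
    intro E hE
    obtain ⟨E', hE', rfl⟩ := Finset.mem_image.1 hE
    have h1 := hp E' (Finset.mem_erase.1 hE').2
    exact h1.comap_of_injective H.subtype H.subtype_injective
  exact ⟨_, h12, h13, h10, h11⟩

theorem label_step {G : Type} [Group G] [Finite G] {ℓ : ℕ} [Fact ℓ.Prime]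
    {M : Ideal (integralClosure ℤ ℂ)} [M.IsMaximal] (hℓ : (ℓ : integralClosure ℤ ℂ) ∈ M)
    (hbr : BrStmt) (halg : AlgStmt) {D H T : Subgroup G} (hD : IsPGroup ℓ D)
    (hH : H = Subgroup.normalizer (D : Set G)) (hTH : T ≤ H) {a : G → ℂ} (ha : a ∈ IrrS T)
    {T' : Subgroup H} (ha' : (fun t : H => a t) ∈ IrrS T') {ϑ : H → ℂ} (hϑ : ϑ ∈ Irr H)
    (hlab : labF M (fun t : H => a t) = labF M ϑ) : ∃ χ ∈ Irr G, labF M a = labF M χ := by
  classical
  obtain ⟨χ, hχ, hW⟩ := halg M G (Wf H ϑ) (Wf_integral hϑ)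
    (fun f f' hf hfi hf' hfi' => hbr ℓ M hℓ G H D hD
      (by rw [hH]; exact Subgroup.le_normalizer) hH.le
      (by rw [hH]; exact Subgroup.centralizer_le_normalizer _) ϑ hϑ f f' hf hfi hf' hfi')
    (Wf_one hϑ)
  refine ⟨χ, hχ, ?_⟩
  funext g
  unfold labF
  rw [red_eq_iff (omega_IrrS_integral ha g) (omega_integral _ hχ g)]
  have hcl : ∀ x y : G, (if IsConj g (y * x * y⁻¹) then (1 : ℂ) else 0) =
      if IsConj g x then 1 else 0 := fun x y => conj_indicator g x y
  have hint : ∀ x : G, IsIntegral ℤ (if IsConj g x then (1 : ℂ) else 0) := by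
    intro x
    split_ifs
    · exact isIntegral_one
    · exact isIntegral_zero
  have h1 := hW (fun x => if IsConj g x then (1 : ℂ) else 0) hcl hint
  have h2 : omega (MonoidHom.id G) a g =
      val (fun h : H => if IsConj g (h : G) then (1 : ℂ) else 0) (fun h : H => a h) := by
    rw [omega_eq_val']
    exact (val_restrict' (fun x => if IsConj g x then (1 : ℂ) else 0) a
      (fun t ht => ha.1 t fun h => ht (hTH h))).symm
  rw [h2, omega_eq_val']
  refine Cong.trans ?_ h1
  show Cong M _ (val (fun h : H => if IsConj g (h : G) then (1 : ℂ) else 0) ϑ)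
  have ha1 : (fun t : H => a t) 1 ≠ 0 := by
    have := IrrS_one_ne ha'
    exact this
  refine val_cong (fun x y => hcl _ _) (fun x => hint _) ha1 (irr_one_ne hϑ) ?_
  intro x
  have h3 := congrFun hlab x
  exact (red_eq_iff (omega_IrrS_integral ha' x) (omega_integral _ hϑ x)).1 h3

theorem label_base {G : Type} [Group G] {M : Ideal (integralClosure ℤ ℂ)}
    {a : G → ℂ} (ha : a ∈ IrrS (stab (∅ : Finset (Subgroup G)))) :
    ∃ χ ∈ Irr G, labF M a = labF M χ := by
  have h1 : stab (∅ : Finset (Subgroup G)) = ⊤ := by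
    rw [eq_top_iff]
    intro x _
    rw [mem_stab]
    intro D hD
    exact absurd hD (Finset.notMem_empty _)
  rw [h1] at ha
  exact ⟨a, mem_IrrS_top.1 ha, rfl⟩

theorem label (hbr : BrStmt) (halg : AlgStmt) : LabelStmt := by
  intro ℓ _ M _ hℓ
  suffices h : ∀ (n : ℕ) (G : Type) [Group G] [Finite G] (d : Finset (Subgroup G)),
      d.card ≤ n → (∀ D ∈ d, IsPGroup ℓ D) → IsChain (· ≤ ·) (d : Set (Subgroup G)) →
      ∀ a ∈ IrrS (stab d), ∃ χ ∈ Irr G, labF M a = labF M χ from
    fun G _ _ d hp hc a ha => h d.card G d le_rfl hp hc a ha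
  intro n
  induction n with
  | zero =>
    intro G _ _ d hn hp hc a ha
    have : d = ∅ := Finset.card_eq_zero.1 (by omega)
    subst this
    exact label_base ha
  | succ n ih =>
    intro G _ _ d hn hp hc a ha
    rcases d.eq_empty_or_nonempty with h0 | hne
    · subst h0
      exact label_base ha
    · obtain ⟨D, hD, hmax⟩ := exists_max hne hc
      obtain ⟨H, hH⟩ : ∃ H : Subgroup G, H = Subgroup.normalizer (D : Set G) := ⟨_, rfl⟩
      have hDH : D ≤ H := by rw [hH]; exact Subgroup.le_normalizer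
      have hle : ∀ E ∈ d, E ≤ H := fun E hE => (hmax E hE).trans hDH
      have hstle : stab d ≤ H := by
        intro g hg
        rw [hH, mem_normalizer_iff_conjS]
        exact mem_stab.1 hg D hD
      obtain ⟨d', hd1, hd2, hd3, hd4⟩ := exists_small_chain hp hc hD H hH hle
      have ha' : (fun t : H => a t) ∈ IrrS (stab d') := by
        rw [hd4]
        refine ⟨fun t ht => ha.1 _ fun h => ht (Subgroup.mem_subgroupOf.2 h), ?_⟩
        exact irr_comp_equiv (Subgroup.subgroupOfEquivOfLe hstle) ha.2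
      obtain ⟨ϑ, hϑ, hlab⟩ := ih H d' (by omega) hd2 hd3 (fun t : H => a t) ha'
      exact label_step hℓ hbr halg (hp D hD) hH hstle ha ha' hϑ hlab

end Pool.Agent.Helper79_WRA.H13
end
end -- Pool.Agent.Helper13_WRA.Label

section -- Pool.Agent.Helper47_WRA.Restr

/-!
WRA, module RESTR: for a character of the stabiliser of a chain, only the centraliser of the
chain matters modulo `M`.
-/

open scoped BigOperators

noncomputable section

namespace Pool.Agent.Helper79_WRA.H47

open Pool.Agent.Helper51_AWC Pool.Agent.Helper79_WRA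

theorem val_sub {H : Type} [Group H] [Finite H] (F F' a : H → ℂ) :
    val (fun x => F x - F' x) a = val F a - val F' a := by
  have := Fintype.ofFinite H
  rw [val_eq, val_eq, val_eq, ← sub_div, ← Finset.sum_sub_distrib]
  congr 1
  exact Finset.sum_congr rfl fun t _ => by ring

theorem conj_comm_iff {X : Type} [Group X] {D : Subgroup X} {h x : X}
    (hh : h ∈ Subgroup.normalizer (D : Set X)) :
    (∀ y ∈ D, y * (h * x * h⁻¹) = h * x * h⁻¹ * y) ↔ ∀ y ∈ D, y * x = x * y := by
  rw [Subgroup.mem_normalizer_iff] at hh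
  constructor
  · intro H y hy
    have h1 := H (h * y * h⁻¹) ((hh y).1 hy)
    have h2 : h * (y * x) * h⁻¹ = h * (x * y) * h⁻¹ := by
      calc h * (y * x) * h⁻¹ = h * y * h⁻¹ * (h * x * h⁻¹) := by group
        _ = h * x * h⁻¹ * (h * y * h⁻¹) := h1
        _ = h * (x * y) * h⁻¹ := by group
    exact mul_left_cancel (mul_right_cancel h2)
  · intro H y hy
    have h0 : h⁻¹ * y * h ∈ D := by
      rw [hh]
      have : h * (h⁻¹ * y * h) * h⁻¹ = y := by group
      rw [this]; exact hy
    have h1 := H _ h0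
    calc y * (h * x * h⁻¹) = h * ((h⁻¹ * y * h) * x) * h⁻¹ := by group
      _ = h * (x * (h⁻¹ * y * h)) * h⁻¹ := by rw [h1]
      _ = h * x * h⁻¹ * y := by group

open Classical in
theorem restr (hlabel : LabelStmt) (hkill : KillStmt) : RestrStmt := by
  intro ℓ _ M _ hℓ X _ _ d hp hc a ha Φ hΦ hI
  rcases d.eq_empty_or_nonempty with h0 | hne
  · subst h0
    have e : (fun x => if ∀ D ∈ (∅ : Finset (Subgroup X)), ∀ y ∈ D, y * x = x * y then Φ x
        else 0) = Φ := by
      funext x
      rw [if_pos]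
      intro D hD
      exact absurd hD (Finset.notMem_empty _)
    rw [e]
    exact Cong.refl _
  · obtain ⟨D, hD, hmax⟩ := H13.exists_max hne hc
    obtain ⟨H, hH⟩ : ∃ H : Subgroup X, H = Subgroup.normalizer (D : Set X) := ⟨_, rfl⟩
    have hDH : D ≤ H := by rw [hH]; exact Subgroup.le_normalizer
    have hle : ∀ E ∈ d, E ≤ H := fun E hE => (hmax E hE).trans hDH
    have hstle : stab d ≤ H := by
      intro g hg
      rw [hH, mem_normalizer_iff_conjS]
      exact mem_stab.1 hg D hD
    obtain ⟨d', -, hd2, hd3, hd4⟩ := H13.exists_small_chain hp hc hD H hH hle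
    have ha' : (fun t : H => a t) ∈ IrrS (stab d') := by
      rw [hd4]
      refine ⟨fun t ht => ha.1 _ fun h => ht (Subgroup.mem_subgroupOf.2 h), ?_⟩
      exact irr_comp_equiv (Subgroup.subgroupOfEquivOfLe hstle) ha.2
    obtain ⟨ϑ, hϑ, hlab⟩ := hlabel ℓ M hℓ H d' hd2 hd3 (fun t : H => a t) ha'
    -- the restricted function
    obtain ⟨Ψ, hΨ⟩ : ∃ Ψ : X → ℂ, Ψ = fun x =>
      if ∀ D ∈ d, ∀ y ∈ D, y * x = x * y then Φ x else 0 := ⟨_, rfl⟩
    have hcond : ∀ x, (∀ E ∈ d, ∀ y ∈ E, y * x = x * y) ↔ ∀ y ∈ D, y * x = x * y := by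
      intro x
      exact ⟨fun h => h D hD, fun h E hE y hy => h y (hmax E hE hy)⟩
    have hΨ1 : ∀ x, (∀ y ∈ D, y * x = x * y) → Ψ x = Φ x := by
      intro x hx
      rw [hΨ]
      exact if_pos ((hcond x).2 hx)
    have hΨ2 : ∀ x, ¬ (∀ y ∈ D, y * x = x * y) → Ψ x = 0 := by
      intro x hx
      rw [hΨ]
      exact if_neg (fun h => hx ((hcond x).1 h))
    rw [← hΨ]
    have hΨc : ∀ x y : H, Ψ ((y * x * y⁻¹ : H) : X) = Ψ x := by
      intro x y
      have hy : (y : X) ∈ Subgroup.normalizer (D : Set X) := by rw [← hH]; exact y.2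
      have e : ((y * x * y⁻¹ : H) : X) = (y : X) * x * (y : X)⁻¹ := by push_cast; rfl
      by_cases h : ∀ z ∈ D, z * (x : X) = x * z
      · rw [hΨ1 _ h, e, hΨ1 _ ((conj_comm_iff hy).2 h), hΦ]
      · rw [hΨ2 _ h, e, hΨ2 _ (fun h' => h ((conj_comm_iff hy).1 h'))]
    have hΦc : ∀ x y : H, Φ ((y * x * y⁻¹ : H) : X) = Φ x := by
      intro x y
      have e : ((y * x * y⁻¹ : H) : X) = (y : X) * x * (y : X)⁻¹ := by push_cast; rfl
      rw [e, hΦ]
    have hΨI : ∀ x, IsIntegral ℤ (Ψ x) := by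
      intro x
      by_cases h : ∀ z ∈ D, z * x = x * z
      · rw [hΨ1 _ h]; exact hI x
      · rw [hΨ2 _ h]; exact isIntegral_zero
    have hz : ∀ t, t ∉ H → a t = 0 := fun t ht => ha.1 t fun h => ht (hstle h)
    have ha1 : (fun t : H => a t) 1 ≠ 0 := by
      have h1 := IrrS_one_ne ha'
      exact h1
    have hom : ∀ g : H, Cong M (omega (MonoidHom.id H) (fun t : H => a t) g)
        (omega (MonoidHom.id H) ϑ g) := by
      intro g
      exact (red_eq_iff (omega_IrrS_integral ha' g) (omega_integral _ hϑ g)).1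
        (congrFun hlab g)
    have k1 : Cong M (val Φ a) (val (fun t : H => Φ t) ϑ) := by
      rw [← H13.val_restrict' Φ a hz]
      exact H13.val_cong hΦc (fun x => hI _) ha1 (irr_one_ne hϑ) hom
    have k2 : Cong M (val Ψ a) (val (fun t : H => Ψ t) ϑ) := by
      rw [← H13.val_restrict' Ψ a hz]
      exact H13.val_cong hΨc (fun x => hΨI _) ha1 (irr_one_ne hϑ) hom
    have k3 : Cong M (val (fun t : H => Φ t - Ψ t) ϑ) 0 := by
      apply hkill ℓ M hℓ H (D.subgroupOf H) ?_ ?_ ϑ hϑ (fun t : H => Φ t - Ψ t)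
      · intro x y
        show Φ ((y * x * y⁻¹ : H) : X) - Ψ ((y * x * y⁻¹ : H) : X) = Φ x - Ψ x
        rw [hΦc, hΨc]
      · intro x
        exact (hI _).sub (hΨI _)
      · intro x hx
        by_contra hcon
        push Not at hcon
        apply hx
        have : ∀ z ∈ D, z * (x : X) = x * z := by
          intro z hz
          have := hcon ⟨z, hDH hz⟩ (Subgroup.mem_subgroupOf.2 hz)
          exact congrArg Subtype.val this
        show Φ x - Ψ x = 0
        rw [hΨ1 _ this, sub_self]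
      · subst hH
        exact Subgroup.normal_in_normalizer
      · exact (hp D hD).comap_of_injective H.subtype H.subtype_injective
    rw [val_sub (fun t : H => Φ t) (fun t : H => Ψ t) ϑ] at k3
    have k4 : Cong M (val (fun t : H => Φ t) ϑ) (val (fun t : H => Ψ t) ϑ) :=
      cong_iff_sub.2 k3
    exact k1.trans (k4.trans k2.symm)

end Pool.Agent.Helper79_WRA.H47
end
end -- Pool.Agent.Helper47_WRA.Restr

section -- Pool.Agent.Helper69_WRA.Alg

/-!
WRA, module ALG: the algebra homomorphisms on the centre of the group algebra modulo `M` are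
central characters of irreducible characters.
-/

open scoped BigOperators
open Module

noncomputable section

namespace Pool.Agent.Helper79_WRA.H69

open Pool.Agent.Helper51_AWC Pool.Agent.Helper79_WRA

variable {G : Type} [Group G]

theorem conv_eq [Fintype G] (a b : G → ℂ) (x : G) : conv a b x = ∑ y, a y * b (y⁻¹ * x) := by
  unfold conv
  rw [finsum_eq_sum_of_fintype]

theorem conv_class [Finite G] {a b : G → ℂ} (ha : ∀ x y, a (y * x * y⁻¹) = a x)
    (hb : ∀ x y, b (y * x * y⁻¹) = b x) (x g : G) : conv a b (g * x * g⁻¹) = conv a b x := by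
  have := Fintype.ofFinite G
  rw [conv_eq, conv_eq, ← Equiv.sum_comp (MulAut.conj g).toEquiv]
  apply Finset.sum_congr rfl
  intro y _
  simp only [MulEquiv.toEquiv_eq_coe, EquivLike.coe_coe, MulAut.conj_apply]
  rw [ha]
  congr 1
  rw [← hb (y⁻¹ * x) g]
  congr 1
  group

theorem conv_integral [Finite G] {a b : G → ℂ} (ha : ∀ x, IsIntegral ℤ (a x))
    (hb : ∀ x, IsIntegral ℤ (b x)) (x : G) : IsIntegral ℤ (conv a b x) := by
  have := Fintype.ofFinite G
  rw [conv_eq]
  exact IsIntegral.sum _ (fun y _ => (ha y).mul (hb _))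

theorem act_conv [Fintype G] {V : Type*} [AddCommGroup V] [Module ℂ V]
    (ρ : Representation ℂ G V) (a b : G → ℂ) :
    act ρ (conv a b) = act ρ a * act ρ b := by
  unfold act
  simp_rw [conv_eq, Finset.sum_smul]
  rw [Finset.sum_comm, Finset.sum_mul]
  apply Finset.sum_congr rfl
  intro y _
  rw [Finset.mul_sum, ← Equiv.sum_comp (Equiv.mulLeft y)]
  apply Finset.sum_congr rfl
  intro x _
  simp only [Equiv.coe_mulLeft, inv_mul_cancel_left, map_mul]
  rw [smul_mul_smul_comm]

theorem val_of_scalar [Fintype G] {n : ℕ} (ρ : Representation ℂ G (Fin n → ℂ))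
    (h1 : ρ.character 1 ≠ 0) (z : G → ℂ) (c : ℂ) (hc : act ρ z = c • LinearMap.id) :
    val z ρ.character = c := by
  rw [val_eq, ← act_trace, hc, map_smul, smul_eq_mul]
  have : LinearMap.trace ℂ (Fin n → ℂ) LinearMap.id = ρ.character 1 := by
    rw [Representation.character, map_one]; rfl
  rw [this, mul_div_assoc, div_self h1, mul_one]

theorem val_conv [Finite G] {χ : G → ℂ} (hχ : χ ∈ Irr G) {a b : G → ℂ}
    (ha : ∀ x y, a (y * x * y⁻¹) = a x) (hb : ∀ x y, b (y * x * y⁻¹) = b x) :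
    val (conv a b) χ = val a χ * val b χ := by
  have := Fintype.ofFinite G
  have h1 := irr_one_ne hχ
  obtain ⟨n, ρ, hρ, rfl⟩ := hχ
  obtain ⟨c, hc⟩ := act_scalar ρ a ha
  obtain ⟨d, hd⟩ := act_scalar ρ b hb
  rw [val_of_scalar ρ h1 a c hc, val_of_scalar ρ h1 b d hd]
  apply val_of_scalar ρ h1
  rw [act_conv, hc, hd, smul_mul_smul_comm]
  rfl

theorem val_integral [Finite G] {χ : G → ℂ} (hχ : χ ∈ Irr G) {a : G → ℂ}
    (ha : ∀ x y, a (y * x * y⁻¹) = a x) (hi : ∀ x, IsIntegral ℤ (a x)) :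
    IsIntegral ℤ (val a χ) := by
  classical
  have := Fintype.ofFinite G
  have h : val a χ = ∑ C : ConjClasses G,
      a (Quotient.out C) * omega (MonoidHom.id G) χ (Quotient.out C) := by
    rw [val_eq]
    simp_rw [omega_eq]
    rw [← Finset.sum_fiberwise (s := Finset.univ) (g := fun t : G => ConjClasses.mk t)]
    rw [Finset.sum_div]
    apply Finset.sum_congr rfl
    intro C _
    rw [← mul_div_assoc, Finset.mul_sum, Finset.sum_filter]
    congr 1
    apply Finset.sum_congr rfl
    intro t _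
    have hout : ConjClasses.mk (Quotient.out C) = C := Quotient.out_eq C
    by_cases ht : ConjClasses.mk t = C
    · have hct : IsConj (Quotient.out C) t := by
        rw [← ConjClasses.mk_eq_mk_iff_isConj, hout, ht]
      rw [if_pos ht, if_pos (by simpa using hct)]
      congr 1
      obtain ⟨g, hg⟩ := isConj_iff.1 hct
      rw [← hg, ha]
    · have hct : ¬ IsConj (Quotient.out C) t := by
        intro h
        apply ht
        rw [← hout, ConjClasses.mk_eq_mk_iff_isConj]
        exact h.symm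
      rw [if_neg ht, if_neg (by simpa using hct), mul_zero]
  rw [h]
  exact IsIntegral.sum _ (fun C _ => (hi _).mul (omega_integral _ hχ _))

open Classical in
/-- the unit of the group algebra -/
def delta (G : Type) [Group G] : G → ℂ := fun x => if x = 1 then 1 else 0

theorem delta_class (x y : G) : delta G (y * x * y⁻¹) = delta G x := by
  unfold delta
  congr 1
  rw [eq_iff_iff]
  constructor
  · intro h
    have := congrArg (fun z => y⁻¹ * z * y) h
    simpa [mul_assoc] using this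
  · rintro rfl; simp

theorem delta_integral (x : G) : IsIntegral ℤ (delta G x) := by
  unfold delta
  split_ifs
  · exact isIntegral_one
  · exact isIntegral_zero

theorem val_sub [Finite G] (a b χ : G → ℂ) : val (a - b) χ = val a χ - val b χ := by
  have := Fintype.ofFinite G
  rw [val_eq, val_eq, val_eq, ← sub_div, ← Finset.sum_sub_distrib]
  congr 1
  apply Finset.sum_congr rfl
  intro x _
  rw [Pi.sub_apply, sub_mul]

theorem val_smul_delta [Finite G] (c : ℂ) {χ : G → ℂ} (h : χ 1 ≠ 0) :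
    val (c • delta G) χ = c := by
  have := Fintype.ofFinite G
  rw [val_eq]
  have : ∑ t, (c • delta G) t * χ t = c * χ 1 := by
    rw [Finset.sum_eq_single_of_mem 1 (Finset.mem_univ _)]
    · simp [delta]
    · intro t _ ht
      simp [delta, ht]
  rw [this, mul_div_assoc, div_self h, mul_one]

/-- the class functions with integral values -/
def IC (a : G → ℂ) : Prop := (∀ x y, a (y * x * y⁻¹) = a x) ∧ ∀ x, IsIntegral ℤ (a x)

theorem alg : AlgStmt := by
  intro M hM G _ _ W hW1 hW2 hW3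
  classical
  have := Fintype.ofFinite G
  have hprime : M.IsPrime := hM.isPrime
  by_contra hcon
  push Not at hcon
  have hδ : Cong M (W (delta G)) 1 := hW3 _ (by intro x hx; simp [delta, hx]) (by simp [delta])
  have hδi : IsIntegral ℤ (W (delta G)) := hW1 _ delta_class delta_integral
  -- the element for one character
  have hz : ∀ χ ∈ Irr G, ∃ z : G → ℂ, IC z ∧ val z χ = 0 ∧ ¬ Cong M (W z) 0 := by
    intro χ hχ
    obtain ⟨a, ha, hai, hn⟩ := hcon χ hχ
    have hv := val_integral hχ ha hai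
    refine ⟨a - (val a χ) • delta G, ⟨?_, ?_⟩, ?_, ?_⟩
    · intro x y
      simp only [Pi.sub_apply, Pi.smul_apply, ha, delta_class]
    · intro x
      simp only [Pi.sub_apply, Pi.smul_apply, smul_eq_mul]
      exact (hai x).sub (hv.mul (delta_integral x))
    · rw [val_sub, val_smul_delta _ (irr_one_ne hχ), sub_self]
    · intro h
      apply hn
      rw [map_sub, map_smul, smul_eq_mul] at h
      have h1 : Cong M (val a χ * W (delta G)) (val a χ * 1) := hδ.mul_left hv
      have h2 := h.add h1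
      rw [sub_add_cancel, zero_add, mul_one] at h2
      exact h2
  -- the product
  have hprod : ∀ S : Finset (G → ℂ), (∀ χ ∈ S, χ ∈ Irr G) →
      ∃ z : G → ℂ, IC z ∧ (∀ χ ∈ S, val z χ = 0) ∧ ¬ Cong M (W z) 0 := by
    intro S
    induction S using Finset.induction_on with
    | empty =>
      intro _
      refine ⟨delta G, ⟨delta_class, delta_integral⟩, by simp, ?_⟩
      intro h
      exact one_not_cong (M := M) (hδ.symm.trans h)
    | insert χ S hχS ih =>
      intro hS
      obtain ⟨z, hz1, hz2, hz3⟩ := ih (fun ψ hψ => hS ψ (Finset.mem_insert_of_mem hψ))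
      have hχ := hS χ (Finset.mem_insert_self _ _)
      obtain ⟨y, hy1, hy2, hy3⟩ := hz χ hχ
      refine ⟨conv z y, ⟨conv_class hz1.1 hy1.1, conv_integral hz1.2 hy1.2⟩, ?_, ?_⟩
      · intro ψ hψ
        have hψI := hS ψ hψ
        rw [val_conv hψI hz1.1 hy1.1]
        rcases Finset.mem_insert.1 hψ with rfl | h
        · rw [hy2, mul_zero]
        · rw [hz2 ψ h, zero_mul]
      · intro h
        have h1 := (hW2 z y hz1.1 hz1.2 hy1.1 hy1.2).symm.trans h
        rcases cong_mul_zero (hW1 z hz1.1 hz1.2) (hW1 y hy1.1 hy1.2) h1 with h2 | h2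
        · exact hz3 h2
        · exact hy3 h2
  obtain ⟨z, hz1, hz2, hz3⟩ := hprod (irr_finite' (G := G)).toFinset (by
    intro χ hχ
    simpa using hχ)
  have hz0 : z = 0 := by
    apply irr_complete z hz1.1
    intro χ hχ
    have h1 := hz2 χ (by simpa using hχ)
    rw [val_eq, div_eq_zero_iff] at h1
    exact h1.resolve_right (irr_one_ne hχ)
  apply hz3
  rw [hz0, map_zero]
  exact Cong.refl 0

end Pool.Agent.Helper79_WRA.H69
end
end -- Pool.Agent.Helper69_WRA.Alg

section -- Pool.Agent.Helper65_CC.Ind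

/-!
CC, module IND: linear independence of the labels (Dedekind).
-/

open scoped BigOperators

noncomputable section

namespace Pool.Agent.Helper65_CC

open Pool.Agent.Helper51_AWC Pool.Agent.Helper79_WRA Pool.Agent.Helper98_CC
open Pool.Agent.Helper79_WRA.H44

/-- a product of two values of a label is a combination of its values, with coefficients that do
not depend on the label -/
theorem lab_mul (M : Ideal (integralClosure ℤ ℂ)) {G : Type} [Group G] [Finite G]
    [Fintype (ConjClasses G)] (g h : G) :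
    ∃ n : ConjClasses G → FF M, ∀ β ∈ Labs M G,
      β g * β h = ∑ C, n C * β (Quotient.out C) := by
  classical
  have := Fintype.ofFinite G
  obtain ⟨a, ha⟩ : ∃ a : G → ℂ, a = fun x => if IsConj g x then (1 : ℂ) else 0 := ⟨_, rfl⟩
  obtain ⟨b, hb⟩ : ∃ b : G → ℂ, b = fun x => if IsConj h x then (1 : ℂ) else 0 := ⟨_, rfl⟩
  have ha1 : ∀ x y, a (y * x * y⁻¹) = a x := by
    intro x y
    have h0 : IsConj x (y * x * y⁻¹) := isConj_iff.2 ⟨y, rfl⟩
    simp only [ha]
    by_cases h1 : IsConj g x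
    · rw [if_pos h1, if_pos (h1.trans h0)]
    · rw [if_neg h1, if_neg (fun h2 => h1 (h2.trans h0.symm))]
  have hb1 : ∀ x y, b (y * x * y⁻¹) = b x := by
    intro x y
    have h0 : IsConj x (y * x * y⁻¹) := isConj_iff.2 ⟨y, rfl⟩
    simp only [hb]
    by_cases h1 : IsConj h x
    · rw [if_pos h1, if_pos (h1.trans h0)]
    · rw [if_neg h1, if_neg (fun h2 => h1 (h2.trans h0.symm))]
  have ha2 : ∀ x, IsIntegral ℤ (a x) := by
    intro x
    simp only [ha]
    split_ifs
    · exact isIntegral_one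
    · exact isIntegral_zero
  have hb2 : ∀ x, IsIntegral ℤ (b x) := by
    intro x
    simp only [hb]
    split_ifs
    · exact isIntegral_one
    · exact isIntegral_zero
  refine ⟨fun C => red M (conv a b (Quotient.out C)), ?_⟩
  rintro β ⟨χ, hχ, rfl⟩
  have e1 : omega (MonoidHom.id G) χ g = val a χ := by
    rw [omega_eq, val_eq]
    congr 1
    refine Finset.sum_congr rfl fun x _ => ?_
    simp only [ha, MonoidHom.id_apply, ite_mul, one_mul, zero_mul]
  have e2 : omega (MonoidHom.id G) χ h = val b χ := by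
    rw [omega_eq, val_eq]
    congr 1
    refine Finset.sum_congr rfl fun x _ => ?_
    simp only [hb, MonoidHom.id_apply, ite_mul, one_mul, zero_mul]
  have h1 : labF M χ g * labF M χ h = red M (val (conv a b) χ) := by
    rw [val_conv hχ ha1, ← e1, ← e2, red_mul (omega_integral _ hχ _) (omega_integral _ hχ _)]
    rfl
  rw [h1, val_eq]
  exact H62.red_val_classes M (fun x y => conv_class ha1 hb1 x y)
    (fun x => conv_integral ha2 hb2 x) (fun x => omega_integral _ hχ x)

theorem lab_one (M : Ideal (integralClosure ℤ ℂ)) {G : Type} [Group G] [Finite G]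
    {β : G → FF M} (hβ : β ∈ Labs M G) : β 1 = 1 := by
  obtain ⟨χ, hχ, rfl⟩ := hβ
  have h1 : omega (MonoidHom.id G) χ 1 = 1 := omega_one Function.injective_id (irr_one_ne hχ)
  show red M (omega (MonoidHom.id G) χ 1) = 1
  rw [h1, red_one]

/-- IND. -/
theorem ind : IndStmt := by
  intro M _ G _ _ c hc
  classical
  have := Fintype.ofFinite G
  have := Fintype.ofFinite (ConjClasses G)
  have hfin : (Labs M G).Finite := by
    have h1 : Labs M G = (fun χ => labF M χ) '' Irr G := by
      ext β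
      constructor
      · rintro ⟨χ, hχ, rfl⟩
        exact ⟨χ, hχ, rfl⟩
      · rintro ⟨χ, hχ, rfl⟩
        exact ⟨χ, hχ, rfl⟩
    rw [h1]
    exact irr_finite'.image _
  obtain ⟨S, hS⟩ : ∃ S : Finset (G → FF M), S = hfin.toFinset := ⟨_, rfl⟩
  have hmem : ∀ β, β ∈ S ↔ β ∈ Labs M G := by
    intro β
    rw [hS, Set.Finite.mem_toFinset]
  have hc' : ∀ g : G, ∑ β ∈ S, c β * β g = 0 := by
    intro g
    rw [hS, ← finsum_mem_eq_finite_toFinset_sum _ hfin]
    exact hc g
  -- words
  have hw : ∀ (w : List G) (g : G), ∑ β ∈ S, c β * ((w.map β).prod * β g) = 0 := by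
    intro w
    induction w with
    | nil =>
      intro g
      simpa using hc' g
    | cons x w ih =>
      intro g
      obtain ⟨n, hn⟩ := lab_mul M x g
      have h1 : ∀ β ∈ S, c β * (((x :: w).map β).prod * β g) =
          ∑ C : ConjClasses G, n C * (c β * ((w.map β).prod * β (Quotient.out C))) := by
        intro β hβ
        have h2 := hn β ((hmem β).1 hβ)
        rw [List.map_cons, List.prod_cons,
          show β x * (w.map β).prod * β g = (w.map β).prod * (β x * β g) by ring, h2,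
          Finset.mul_sum, Finset.mul_sum]
        refine Finset.sum_congr rfl fun C _ => ?_
        ring
      rw [Finset.sum_congr rfl h1, Finset.sum_comm]
      refine Finset.sum_eq_zero fun C _ => ?_
      rw [← Finset.mul_sum, ih, mul_zero]
  have hli : LinearIndependent (FF M) (fun β : G → FF M =>
      (FreeMonoid.lift β : FreeMonoid G → FF M)) :=
    (linearIndependent_monoidHom (FreeMonoid G) (FF M)).comp (fun β : G → FF M =>
      FreeMonoid.lift β) (FreeMonoid.lift (α := G) (M := FF M)).injective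
  intro β hβ
  refine linearIndependent_iff'.1 hli S c ?_ β ((hmem β).2 hβ)
  funext w
  have h2 := hw (FreeMonoid.toList w) 1
  rw [Finset.sum_apply]
  refine Eq.trans (Finset.sum_congr rfl fun β' hβ' => ?_) h2
  rw [lab_one M ((hmem β').1 hβ'), mul_one, Pi.smul_apply, smul_eq_mul, FreeMonoid.lift_apply]

end Pool.Agent.Helper65_CC
end
end -- Pool.Agent.Helper65_CC.Ind

section -- Pool.Agent.Helper33_CC.Gooda

/-!
CC, module GOODA: the block condition for the chains of the base group.
-/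

open scoped BigOperators

noncomputable section

namespace Pool.Agent.Helper33_CC

open Pool.Agent.Helper51_AWC Pool.Agent.Helper79_WRA Pool.Agent.Helper98_CC

section field

variable {M : Ideal (integralClosure ℤ ℂ)} [M.IsMaximal]

omit [M.IsMaximal] in
theorem natCast_eq_zero {ℓ : ℕ} (hℓ : (ℓ : integralClosure ℤ ℂ) ∈ M) : ((ℓ : ℕ) : FF M) = 0 := by
  have h : ((ℓ : ℕ) : FF M) = Ideal.Quotient.mk M (ℓ : integralClosure ℤ ℂ) := by
    rw [map_natCast]
  rw [h]
  exact Ideal.Quotient.eq_zero_iff_mem.2 hℓ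

theorem charP_FF {ℓ : ℕ} [hp : Fact ℓ.Prime] (hℓ : (ℓ : integralClosure ℤ ℂ) ∈ M) :
    CharP (FF M) ℓ := by
  have : Nontrivial (FF M) := Ideal.Quotient.nontrivial_iff.2 (Ideal.IsMaximal.ne_top inferInstance)
  exact ringChar.of_eq (CharP.ringChar_of_prime_eq_zero hp.out (natCast_eq_zero hℓ))

theorem frob_inj {ℓ : ℕ} [hp : Fact ℓ.Prime] (hℓ : (ℓ : integralClosure ℤ ℂ) ∈ M)
    {a b : FF M} (h : a ^ ℓ = b ^ ℓ) : a = b := by
  have := charP_FF hℓ
  have : IsDomain (FF M) := Ideal.Quotient.isDomain M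
  have h1 : (a - b) ^ ℓ = 0 := by
    rw [sub_pow_char, h, sub_self]
  exact sub_eq_zero.1 (pow_eq_zero_iff hp.out.ne_zero |>.1 h1)

omit [M.IsMaximal] in
theorem red_natCast (n : ℕ) : red M (n : ℂ) = (n : FF M) := by
  induction n with
  | zero => rw [Nat.cast_zero, Nat.cast_zero, red_zero]
  | succ n ih =>
    have h1 : IsIntegral ℤ (n : ℂ) := AI.natCast n
    rw [Nat.cast_succ, Nat.cast_succ, red_add h1 isIntegral_one, ih, red_one]

end field

section conj

variable {G : Type} [Group G] {ℓ : ℕ}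

theorem isConj_base {y y' : ZMod ℓ → G} :
    IsConj (Wreath.base y : Gam ℓ G) (Wreath.base y') ↔
      ∃ a : Cl ℓ, ∀ j, IsConj (y (a⁻¹ • j)) (y' j) := by
  constructor
  · intro h
    obtain ⟨c, hc⟩ := isConj_iff.1 h
    refine ⟨c.s, fun j => isConj_iff.2 ⟨c.f j, ?_⟩⟩
    have h1 := congrArg (fun x : Gam ℓ G => x.f j) hc
    simp only [Wreath.conj_f, Wreath.base_f, Wreath.base_s, inv_one, mul_one, mul_inv_cancel,
      one_smul] at h1
    exact h1
  · rintro ⟨a, ha⟩
    choose g hg using fun j => isConj_iff.1 (ha j)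
    refine isConj_iff.2 ⟨⟨g, a⟩, ?_⟩
    apply Wreath.ext
    · funext j
      rw [Wreath.conj_f]
      simp only [Wreath.base_f, Wreath.base_s, inv_one, mul_one, mul_inv_cancel,
        one_smul]
      exact hg j
    · rw [Wreath.conj_s]
      simp only [Wreath.base_s, mul_one, mul_inv_cancel]

theorem s_of_isConj_base {y : ZMod ℓ → G} {t : Gam ℓ G} (h : IsConj (Wreath.base y) t) :
    t.s = 1 := by
  obtain ⟨c, rfl⟩ := isConj_iff.1 h
  rw [Wreath.conj_s, Wreath.base_s, mul_one, mul_inv_cancel]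

open Classical in
/-- the number of shifts which preserve the classes -/
def NN [NeZero ℓ] (y : ZMod ℓ → G) : ℕ :=
  (Finset.univ.filter fun a : Cl ℓ => ∀ j, IsConj (y (a⁻¹ • j)) (y j)).card

open Classical in
theorem count_shift [NeZero ℓ] (y y' : ZMod ℓ → G) :
    (Finset.univ.filter fun a : Cl ℓ => ∀ j, IsConj (y (a⁻¹ • j)) (y' j)).card =
      if IsConj (Wreath.base y : Gam ℓ G) (Wreath.base y') then NN y else 0 := by
  split_ifs with h
  · obtain ⟨b, hb⟩ := isConj_base.1 h
    unfold NN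
    apply Finset.card_bij' (fun a _ => b⁻¹ * a) (fun a _ => b * a)
    · intro a ha
      rw [Finset.mem_filter] at ha ⊢
      refine ⟨Finset.mem_univ _, fun j => ?_⟩
      have h1 := ha.2 (b • j)
      have h2 := hb (b • j)
      rw [inv_smul_smul] at h2
      have h3 : (b⁻¹ * a)⁻¹ • j = a⁻¹ • b • j := by
        rw [mul_inv_rev, inv_inv, mul_smul]
      rw [h3]
      exact h1.trans h2.symm
    · intro a ha
      rw [Finset.mem_filter] at ha ⊢
      refine ⟨Finset.mem_univ _, fun j => ?_⟩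
      have h1 := ha.2 (b⁻¹ • j)
      have h3 : (b * a)⁻¹ • j = a⁻¹ • b⁻¹ • j := by
        rw [mul_inv_rev, mul_smul]
      rw [h3]
      exact h1.trans (hb j)
    · intro a _
      exact mul_inv_cancel_left b a
    · intro a _
      exact inv_mul_cancel_left b a
  · rw [Finset.card_eq_zero, Finset.filter_eq_empty_iff]
    intro a _ ha
    exact h (isConj_base.2 ⟨a, ha⟩)

open Classical in
theorem count_shift' [NeZero ℓ] (y y' : ZMod ℓ → G)
    (inst : DecidablePred fun a : Cl ℓ => ∀ j, IsConj (y (a⁻¹ • j)) (y' j)) :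
    (@Finset.filter _ (fun a : Cl ℓ => ∀ j, IsConj (y (a⁻¹ • j)) (y' j)) inst
      Finset.univ).card =
      if IsConj (Wreath.base y : Gam ℓ G) (Wreath.base y') then NN y else 0 := by
  rw [← count_shift y y']
  congr

end conj

section shift

variable {G : Type} [Group G] [Finite G] {ℓ : ℕ} [NeZero ℓ]

theorem eta_one {v : Finset (ZMod ℓ → Subgroup G)} {α : ZMod ℓ → G → ℂ}
    (hα : IsChars v α) (lam : Cl ℓ → ℂ) : eta v α lam 1 = (∏ j, α j 1) * lam 1 := by
  have hX := Pool.Agent.Helper79_WRA.H33.isExt_ext (K := Cl ℓ) hα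
  have h1 := hX.base 1
  unfold eta
  rw [Wreath.one_s]
  congr 1

theorem eta_base {v : Finset (ZMod ℓ → Subgroup G)} {α : ZMod ℓ → G → ℂ}
    (hα : IsChars v α) (lam : Cl ℓ → ℂ) (y : ZMod ℓ → G) :
    eta v α lam (Wreath.base y) = (∏ j, α j (y j)) * lam 1 := by
  have hX := Pool.Agent.Helper79_WRA.H33.isExt_ext (K := Cl ℓ) hα
  have h1 := hX.base y
  unfold eta
  rw [Wreath.base_s, h1]

/-- sums of functions supported on the base group -/
theorem sum_base (f : Gam ℓ G → ℂ) (hf : ∀ t, t.s ≠ 1 → f t = 0) :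
    ∑ᶠ t, f t = ∑ᶠ y : ZMod ℓ → G, f (Wreath.base y) := by
  classical
  have := Fintype.ofFinite G
  have := Fintype.ofFinite (Gam ℓ G)
  rw [finsum_eq_sum_of_fintype, finsum_eq_sum_of_fintype]
  symm
  apply Finset.sum_of_injOn (fun y => (Wreath.base y : Gam ℓ G))
  · exact Wreath.base_injective.injOn
  · intro y _
    exact Finset.mem_coe.2 (Finset.mem_univ _)
  · intro t _ ht
    apply hf
    intro hs
    apply ht
    obtain ⟨y, hy⟩ := Wreath.mem_base_range.2 hs
    exact ⟨y, Finset.mem_coe.2 (Finset.mem_univ _), hy⟩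
  · intro y _
    rfl

theorem shift_sum {v : Finset (ZMod ℓ → Subgroup G)} {α : ZMod ℓ → G → ℂ}
    (hα : IsChars v α) (lam : Cl ℓ → ℂ) (hlam : lam 1 ≠ 0) (y : ZMod ℓ → G) :
    ∑ a : Cl ℓ, ∏ j, omega (MonoidHom.id G) (α j) (y (a⁻¹ • j)) =
      (NN y : ℂ) * val (clas (MonoidHom.id (Gam ℓ G)) (Wreath.base y)) (eta v α lam) := by
  classical
  have := Fintype.ofFinite G
  have h1 : ∀ a : Cl ℓ, ∏ j, omega (MonoidHom.id G) (α j) (y (a⁻¹ • j)) =
      ∑ y' : ZMod ℓ → G, (if ∀ j, IsConj (y (a⁻¹ • j)) (y' j) then (∏ j, α j (y' j)) else 0) /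
        ∏ j, α j 1 := by
    intro a
    have e1 : ∀ j, omega (MonoidHom.id G) (α j) (y (a⁻¹ • j)) =
        (∑ x : G, if IsConj (y (a⁻¹ • j)) x then α j x else 0) / α j 1 := fun j =>
      omega_eq (MonoidHom.id G) (α j) _
    rw [Finset.prod_congr rfl fun j _ => e1 j, Finset.prod_div_distrib, Finset.prod_univ_sum,
      Fintype.piFinset_univ, ← Finset.sum_div]
    congr 1
    refine Finset.sum_congr rfl fun y' _ => ?_
    rw [Finset.prod_ite_zero]
    simp only [Finset.mem_univ, true_imp_iff]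
  rw [Finset.sum_congr rfl fun a _ => h1 a, Finset.sum_comm]
  have h2 : ∀ y' : ZMod ℓ → G, ∑ a : Cl ℓ,
      (if ∀ j, IsConj (y (a⁻¹ • j)) (y' j) then (∏ j, α j (y' j)) else 0) / ∏ j, α j 1 =
      (NN y : ℂ) * ((if IsConj (Wreath.base y : Gam ℓ G) (Wreath.base y') then (1 : ℂ) else 0) *
        (∏ j, α j (y' j)) / ∏ j, α j 1) := by
    intro y'
    rw [← Finset.sum_div, ← Finset.sum_filter, Finset.sum_const, count_shift' y y' _]
    split_ifs
    · rw [nsmul_eq_mul, one_mul, mul_div_assoc]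
    · rw [zero_smul, zero_mul, zero_div, mul_zero]
  rw [Finset.sum_congr rfl fun y' _ => h2 y', ← Finset.mul_sum]
  congr 1
  unfold val
  rw [sum_base]
  · rw [finsum_eq_sum_of_fintype, eta_one hα, Finset.sum_div]
    refine Finset.sum_congr rfl fun y' _ => ?_
    rw [eta_base hα, ← mul_assoc, mul_div_mul_right _ _ hlam]
    rfl
  · intro t ht
    unfold clas
    rw [if_neg, zero_mul]
    intro h
    exact ht (s_of_isConj_base h)

end shift

section indep

variable {M : Ideal (integralClosure ℤ ℂ)} [M.IsMaximal] {G : Type} [Group G] [Finite G]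

/-- dual functionals of the labels -/
theorem dual {β₀ : G → FF M} (hβ₀ : β₀ ∈ Labs M G) :
    ∃ c : G → FF M, (∑ᶠ g, c g * β₀ g = 1) ∧
      ∀ β ∈ Labs M G, β ≠ β₀ → ∑ᶠ g, c g * β g = 0 := by
  classical
  let _ : Field (FF M) := Ideal.Quotient.field M
  have := Fintype.ofFinite G
  have hfin : (Labs M G).Finite := by
    have h1 : Labs M G = (fun χ => labF M χ) '' Irr G := by
      ext β
      constructor
      · rintro ⟨χ, hχ, rfl⟩
        exact ⟨χ, hχ, rfl⟩
      · rintro ⟨χ, hχ, rfl⟩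
        exact ⟨χ, hχ, rfl⟩
    rw [h1]
    exact irr_finite'.image _
  have : Finite (Labs M G) := hfin
  have := Fintype.ofFinite (Labs M G)
  have hli : LinearIndependent (FF M) (fun β : Labs M G => (β : G → FF M)) := by
    rw [Fintype.linearIndependent_iff]
    intro c hc β
    have h1 := Pool.Agent.Helper65_CC.ind M G
      (fun β => if h : β ∈ Labs M G then c ⟨β, h⟩ else 0) (by
        intro g
        rw [← finsum_set_coe_eq_finsum_mem (f := fun β : G → FF M =>
          (if h : β ∈ Labs M G then c ⟨β, h⟩ else 0) * β g), finsum_eq_sum_of_fintype]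
        have h2 := congrFun hc g
        rw [Finset.sum_apply, Pi.zero_apply] at h2
        rw [← h2]
        refine Finset.sum_congr rfl fun β _ => ?_
        rw [dif_pos β.2, Pi.smul_apply, smul_eq_mul]) β β.2
    rw [dif_pos β.2] at h1
    exact h1
  obtain ⟨f, hf⟩ := LinearMap.exists_extend ((Module.Basis.span hli).coord ⟨β₀, hβ₀⟩)
  have hval : ∀ β : Labs M G, f (β : G → FF M) = if β = ⟨β₀, hβ₀⟩ then 1 else 0 := by
    intro β
    have h1 : f ((Module.Basis.span hli β : _) : G → FF M) =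
        (Module.Basis.span hli).coord ⟨β₀, hβ₀⟩ (Module.Basis.span hli β) :=
      LinearMap.congr_fun hf (Module.Basis.span hli β)
    have h2 : ((Module.Basis.span hli β : _) : G → FF M) = (β : G → FF M) :=
      congrArg Subtype.val (Module.Basis.span_apply hli β)
    rw [h2, Module.Basis.coord_apply, Module.Basis.repr_self, Finsupp.single_apply] at h1
    exact h1
  have hsum : ∀ β : G → FF M, ∑ᶠ g, f (fun j => if g = j then 1 else 0) * β g = f β := by
    intro β
    rw [LinearMap.pi_apply_eq_sum_univ f β, finsum_eq_sum_of_fintype]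
    exact Finset.sum_congr rfl fun g _ => by rw [smul_eq_mul, mul_comm]
  refine ⟨fun g => f (fun j => if g = j then 1 else 0), ?_, ?_⟩
  · rw [hsum, hval ⟨β₀, hβ₀⟩, if_pos rfl]
  · intro β hβ hne
    rw [hsum, hval ⟨β, hβ⟩, if_neg]
    intro h
    exact hne (congrArg Subtype.val h)

theorem shift_const {ℓ : ℕ} [hp : Fact ℓ.Prime] (β : ZMod ℓ → G → FF M)
    (hβ : ∀ j, β j ∈ Labs M G)
    (h : ∀ y : ZMod ℓ → G, ∑ a : Cl ℓ, ∏ j, β j (y (a⁻¹ • j)) = 0) : ∀ j, β j = β 0 := by
  classical
  have := Fintype.ofFinite G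
  have hnt : Nontrivial (FF M) :=
    Ideal.Quotient.nontrivial_iff.2 (Ideal.IsMaximal.ne_top inferInstance)
  choose c hc1 hc0 using fun j => dual (hβ j)
  simp only [finsum_eq_sum_of_fintype] at hc1 hc0
  have key : ∑ y : ZMod ℓ → G, (∏ i, c i (y i)) * ∑ a : Cl ℓ, ∏ j, β j (y (a⁻¹ • j)) = 0 :=
    Finset.sum_eq_zero fun y _ => by rw [h y, mul_zero]
  have h1 : ∀ (y : ZMod ℓ → G) (a : Cl ℓ), ∏ j, β j (y (a⁻¹ • j)) =
      ∏ i, β (a • i) (y i) := by
    intro y a
    rw [← Equiv.prod_comp (MulAction.toPerm a)]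
    refine Finset.prod_congr rfl fun i _ => ?_
    rw [MulAction.toPerm_apply, inv_smul_smul]
  have h2 : ∑ a : Cl ℓ, ∏ i, ∑ g : G, c i g * β (a • i) g = 0 := by
    rw [← key]
    have h3 : ∀ y : ZMod ℓ → G, (∏ i, c i (y i)) * ∑ a : Cl ℓ, ∏ j, β j (y (a⁻¹ • j)) =
        ∑ a : Cl ℓ, ∏ i, c i (y i) * β (a • i) (y i) := by
      intro y
      rw [Finset.mul_sum]
      refine Finset.sum_congr rfl fun a _ => ?_
      rw [h1, Finset.prod_mul_distrib]
    rw [Finset.sum_congr rfl fun y _ => h3 y, Finset.sum_comm]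
    refine Finset.sum_congr rfl fun a _ => ?_
    rw [Finset.prod_univ_sum, Fintype.piFinset_univ]
  have h4 : ∀ (a : Cl ℓ) (i : ZMod ℓ), ∑ g : G, c i g * β (a • i) g =
      if β (a • i) = β i then 1 else 0 := by
    intro a i
    split_ifs with h5
    · rw [h5]; exact hc1 i
    · exact hc0 i _ (hβ _) h5
  have h5 : ((Finset.univ.filter fun a : Cl ℓ => ∀ i, β (a • i) = β i).card : FF M) = 0 := by
    rw [← h2, Finset.card_filter, Nat.cast_sum]
    refine Finset.sum_congr rfl fun a _ => ?_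
    rw [Finset.prod_congr rfl fun i _ => h4 a i, Finset.prod_ite_zero]
    simp only [Finset.mem_univ, true_imp_iff, Finset.prod_const_one]
    split_ifs
    · exact Nat.cast_one
    · exact Nat.cast_zero
  by_cases hall : ∀ (a : Cl ℓ) (i : ZMod ℓ), β (a • i) = β i
  · intro j
    have h6 := hall (Multiplicative.ofAdd j) 0
    rw [cl_smul, toAdd_ofAdd, add_zero] at h6
    exact h6
  · exfalso
    have h6 : (Finset.univ.filter fun a : Cl ℓ => ∀ i, β (a • i) = β i) = {1} := by
      ext b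
      rw [Finset.mem_filter, Finset.mem_singleton]
      constructor
      · rintro ⟨-, hb⟩
        by_contra hne
        apply hall
        intro a i
        have hk : Multiplicative.toAdd b ≠ 0 := fun h0 =>
          hne (Multiplicative.toAdd.injective h0)
        have h7 : ∀ (m : ℕ) (i : ZMod ℓ), β (m * Multiplicative.toAdd b + i) = β i := by
          intro m
          induction m with
          | zero => intro i; rw [Nat.cast_zero, zero_mul, zero_add]
          | succ m ih =>
            intro i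
            have h8 : ((m + 1 : ℕ) : ZMod ℓ) * Multiplicative.toAdd b + i =
              Multiplicative.toAdd b + (m * Multiplicative.toAdd b + i) := by
              rw [Nat.cast_succ]; ring
            rw [h8, ← cl_smul, hb, ih]
        have h9 := h7 (Multiplicative.toAdd a / Multiplicative.toAdd b).val i
        rw [ZMod.natCast_zmod_val, div_mul_cancel₀ _ hk] at h9
        rw [cl_smul]
        exact h9
      · rintro rfl
        exact ⟨Finset.mem_univ _, fun i => by rw [one_smul]⟩
    rw [h6, Finset.card_singleton, Nat.cast_one] at h5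
    exact one_ne_zero h5

end indep

section main

theorem clas_class {Γ : Type} [Group Γ] (z x y : Γ) :
    clas (MonoidHom.id Γ) z (y * x * y⁻¹) = clas (MonoidHom.id Γ) z x := by
  have h0 : IsConj x (y * x * y⁻¹) := isConj_iff.2 ⟨y, rfl⟩
  have : IsConj z (MonoidHom.id Γ (y * x * y⁻¹)) ↔ IsConj z (MonoidHom.id Γ x) :=
    ⟨fun h => h.trans h0.symm, fun h => h.trans h0⟩
  unfold clas
  by_cases h : IsConj z (MonoidHom.id Γ x)
  · rw [if_pos h, if_pos (this.2 h)]
  · rw [if_neg h, if_neg (fun h' => h (this.1 h'))]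

theorem clas_integral {Γ : Type} [Group Γ] (z x : Γ) :
    IsIntegral ℤ (clas (MonoidHom.id Γ) z x) := by
  unfold clas
  split_ifs
  · exact isIntegral_one
  · exact isIntegral_zero

theorem omega_val {Γ : Type} [Group Γ] [Finite Γ] (χ : Γ → ℂ) (z : Γ) :
    omega (MonoidHom.id Γ) χ z = val (clas (MonoidHom.id Γ) z) χ := by
  classical
  have := Fintype.ofFinite Γ
  rw [omega_eq, val_eq]
  congr 1
  refine Finset.sum_congr rfl fun x _ => ?_
  unfold clas
  by_cases h : IsConj z (MonoidHom.id Γ x)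
  · rw [if_pos h, if_pos h, one_mul]
  · rw [if_neg h, if_neg h, zero_mul]

variable {G : Type} [Group G] [Finite G] {ℓ : ℕ} [hp : Fact ℓ.Prime]

omit [Finite G] in
theorem NN_const (g : G) : NN (ℓ := ℓ) (fun _ => g) = ℓ := by
  classical
  unfold NN
  rw [Finset.filter_true_of_mem (fun a _ j => IsConj.refl g), Finset.card_univ,
    Fintype.card_multiplicative, ZMod.card]

theorem good_imp {M : Ideal (integralClosure ℤ ℂ)} [M.IsMaximal]
    (hℓ : (ℓ : integralClosure ℤ ℂ) ∈ M) {χ : G → ℂ} (hχ : χ ∈ Irr G) {χ' : Gam ℓ G → ℂ}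
    (hχ' : Over ℓ χ χ') {v : Finset (ZMod ℓ → Subgroup G)} {α : ZMod ℓ → G → ℂ}
    (hα : IsChars v α) (hlab : ∀ j, labF M (α j) ∈ Labs M G) {lam : Cl ℓ → ℂ}
    (hlam : lam 1 ≠ 0)
    (hgood : Good M (clas (MonoidHom.id (Gam ℓ G))) (fun g => omega (MonoidHom.id _) χ' g)
      (eta v α lam)) : ∀ j, labF M (α j) = labF M χ := by
  classical
  have hc : IsChars (triv G (ZMod ℓ)) (fun _ : ZMod ℓ => χ) := isChars_triv.2 fun _ => hχ
  have hov : ∀ z, omega (MonoidHom.id (Gam ℓ G)) χ' z = val (clas (MonoidHom.id (Gam ℓ G)) z)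
      (et (fun _ => χ) (fun _ => (1 : ℂ))) := by
    intro z
    rw [omega_val, hχ'.2 _ (clas_class z)]
  have hint : ∀ j g, IsIntegral ℤ (omega (MonoidHom.id G) (α j) g) := fun j g =>
    omega_IrrS_integral (hα j) g
  have hintχ : ∀ g, IsIntegral ℤ (omega (MonoidHom.id G) χ g) := fun g =>
    omega_integral _ hχ g
  have hℓ0 : (ℓ : ℂ) ≠ 0 := by exact_mod_cast hp.out.ne_zero
  -- the sums over the shifts vanish
  have E1 : ∀ y : ZMod ℓ → G, ∑ a : Cl ℓ, ∏ j, labF M (α j) (y (a⁻¹ • j)) = 0 := by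
    intro y
    have h1 := shift_sum hα lam hlam y
    have h2 := shift_sum hc (fun _ : Cl ℓ => (1 : ℂ)) one_ne_zero y
    have h3 : Cong M (∑ a : Cl ℓ, ∏ j, omega (MonoidHom.id G) (α j) (y (a⁻¹ • j)))
        (∑ a : Cl ℓ, ∏ j : ZMod ℓ, omega (MonoidHom.id G) χ (y (a⁻¹ • j))) := by
      rw [h1, h2]
      refine Cong.mul_left ?_ (AI.natCast _)
      have h4 : Cong M _ (omega (MonoidHom.id (Gam ℓ G)) χ' (Wreath.base y)) :=
        hgood (Wreath.base y)
      rw [hov] at h4
      exact h4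
    have h5 : ∀ a : Cl ℓ, ∏ j : ZMod ℓ, omega (MonoidHom.id G) χ (y (a⁻¹ • j)) =
        ∏ j : ZMod ℓ, omega (MonoidHom.id G) χ (y j) := by
      intro a
      exact Equiv.prod_comp (MulAction.toPerm a⁻¹) (fun j => omega (MonoidHom.id G) χ (y j))
    rw [Finset.sum_congr rfl fun a _ => h5 a, Finset.sum_const, Finset.card_univ,
      Fintype.card_multiplicative, ZMod.card, nsmul_eq_mul] at h3
    have hI1 : IsIntegral ℤ (∑ a : Cl ℓ, ∏ j, omega (MonoidHom.id G) (α j) (y (a⁻¹ • j))) :=
      IsIntegral.sum _ fun a _ => IsIntegral.prod _ fun j _ => hint j _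
    have hI2 : IsIntegral ℤ (∏ j : ZMod ℓ, omega (MonoidHom.id G) χ (y j)) :=
      IsIntegral.prod _ fun j _ => hintχ _
    have h6 := (red_eq_iff hI1 ((AI.natCast ℓ).mul hI2)).2 h3
    rw [red_sum _ _ fun a _ => IsIntegral.prod _ fun j _ => hint j _,
      red_mul (AI.natCast ℓ) hI2, red_natCast, natCast_eq_zero hℓ, zero_mul] at h6
    rw [← h6]
    refine Finset.sum_congr rfl fun a _ => ?_
    rw [red_prod _ _ fun j _ => hint j _]
    rfl
  have E2 : ∀ g : G, ∏ j, labF M (α j) g = labF M χ g ^ ℓ := by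
    intro g
    have h1 := shift_sum hα lam hlam (fun _ => g)
    have h2 := shift_sum hc (fun _ : Cl ℓ => (1 : ℂ)) one_ne_zero (fun _ => g)
    rw [NN_const, Finset.sum_const, Finset.card_univ, Fintype.card_multiplicative, ZMod.card,
      nsmul_eq_mul] at h1 h2
    have h3 := mul_left_cancel₀ hℓ0 h1
    have h4 := mul_left_cancel₀ hℓ0 h2
    have h5 : Cong M _ (omega (MonoidHom.id (Gam ℓ G)) χ' (Wreath.base (fun _ => g))) :=
      hgood (Wreath.base (fun _ => g))
    rw [hov] at h5
    have h5 : Cong M (val (clas (MonoidHom.id (Gam ℓ G)) (Wreath.base (fun _ => g)))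
      (eta v α lam)) (val (clas (MonoidHom.id (Gam ℓ G)) (Wreath.base (fun _ => g)))
      (et (fun _ => χ) (fun _ => (1 : ℂ)))) := h5
    rw [← h3] at h5
    have h5 : Cong M (∏ j, omega (MonoidHom.id G) (α j) g) _ := h5
    have h6 : val (clas (MonoidHom.id (Gam ℓ G)) (Wreath.base (fun _ => g)))
      (et (fun _ => χ) (fun _ => (1 : ℂ))) = ∏ _j : ZMod ℓ, omega (MonoidHom.id G) χ g := h4.symm
    rw [h6] at h5
    have h7 := (red_eq_iff (IsIntegral.prod _ fun j _ => hint j g)
      (IsIntegral.prod _ fun j _ => hintχ g)).2 h5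
    rw [red_prod _ _ fun j _ => hint j g, red_prod _ _ fun j _ => hintχ g, Finset.prod_const,
      Finset.card_univ, ZMod.card] at h7
    exact h7
  have hconst := shift_const (fun j => labF M (α j)) hlab E1
  have h0 : labF M (α 0) = labF M χ := by
    funext g
    apply frob_inj hℓ
    rw [← E2 g, Finset.prod_congr rfl fun j _ => congrFun (hconst j) g, Finset.prod_const,
      Finset.card_univ, ZMod.card]
  intro j
  rw [← h0]
  exact hconst j

/-- the values for the trivial chain and the constant family, up to the inner sums outside of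
the base group -/
theorem val_et_cong {M : Ideal (integralClosure ℤ ℂ)} [M.IsMaximal] {χ : G → ℂ} (hχ : χ ∈ Irr G)
    (Φ : Gam ℓ G → ℂ)
    (hS : ∀ h : Cl ℓ, h ≠ 1 → Cong M ((∑ᶠ w : ZMod ℓ → G, Φ ⟨w, h⟩ *
      ex (Cl ℓ) (fun _ => χ) ⟨w, h⟩) / ∏ _j : ZMod ℓ, χ 1) 0)
    (lam : Cl ℓ → ℂ) (h0 : lam 1 ≠ 0) (hlam : ∀ h, IsIntegral ℤ (lam h / lam 1)) :
    Cong M (val Φ (et (fun _ => χ) lam)) ((∑ᶠ w : ZMod ℓ → G, Φ ⟨w, 1⟩ *
      ex (Cl ℓ) (fun _ => χ) ⟨w, 1⟩) / ∏ _j : ZMod ℓ, χ 1) := by
  classical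
  have := Fintype.ofFinite G
  have := Fintype.ofFinite (Gam ℓ G)
  have hc : IsChars (triv G (ZMod ℓ)) (fun _ : ZMod ℓ => χ) := isChars_triv.2 fun _ => hχ
  have h1 : val Φ (et (fun _ => χ) lam) = ∑ h : Cl ℓ, (lam h / lam 1) *
      ((∑ᶠ w : ZMod ℓ → G, Φ ⟨w, h⟩ * ex (Cl ℓ) (fun _ => χ) ⟨w, h⟩) /
        ∏ _j : ZMod ℓ, χ 1) := by
    have he1 : et (fun _ => χ) lam 1 = (∏ _j : ZMod ℓ, χ 1) * lam 1 := eta_one hc lam
    rw [val_eq, he1, ← Equiv.sum_comp (Wreath.equivProd G (ZMod ℓ) (Cl ℓ)).symm,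
      Fintype.sum_prod_type_right, Finset.sum_div]
    refine Finset.sum_congr rfl fun h _ => ?_
    rw [finsum_eq_sum_of_fintype, div_mul_div_comm, Finset.mul_sum, mul_comm (lam 1)]
    congr 1
    refine Finset.sum_congr rfl fun w _ => ?_
    change Φ ⟨w, h⟩ * (ex (Cl ℓ) (fun _ => χ) ⟨w, h⟩ * lam h) = _
    ring
  have h2 : (∑ᶠ w : ZMod ℓ → G, Φ ⟨w, 1⟩ * ex (Cl ℓ) (fun _ => χ) ⟨w, 1⟩) /
      ∏ _j : ZMod ℓ, χ 1 = ∑ h : Cl ℓ, if h = 1 then (∑ᶠ w : ZMod ℓ → G, Φ ⟨w, h⟩ *
        ex (Cl ℓ) (fun _ => χ) ⟨w, h⟩) / ∏ _j : ZMod ℓ, χ 1 else 0 := by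
    rw [Finset.sum_ite_eq' Finset.univ (1 : Cl ℓ), if_pos (Finset.mem_univ _)]
  rw [h1, h2]
  refine Cong.sum _ _ _ fun h _ => ?_
  by_cases hh : h = 1
  · subst hh
    rw [if_pos rfl, div_self h0, one_mul]
    exact Cong.refl _
  · rw [if_neg hh]
    exact Cong.mul_zero_left (hS h hh) (hlam h)

/-- the values `lam h / lam 1` are algebraic integers -/
theorem lam_integral {U : Subgroup (Cl ℓ)} {lam : Cl ℓ → ℂ} (hlam : lam ∈ IrrS U) (h : Cl ℓ) :
    IsIntegral ℤ (lam h / lam 1) := by
  by_cases hU : h ∈ U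
  · have h1 := omega_integral (MonoidHom.id U) hlam.2 ⟨h, hU⟩
    have h2 := omega_comm (Z := U) (fun x : U => lam x) ⟨h, hU⟩
    have h3 : omega (MonoidHom.id U) (fun x : U => lam x) ⟨h, hU⟩ = lam h / lam 1 := h2
    rw [h3] at h1
    exact h1
  · rw [hlam.1 h hU, zero_div]
    exact isIntegral_zero

/-- GOODA. -/
theorem gooda (hoff : OffStmt) : GoodaStmt := by
  classical
  intro ℓ hp M hM hℓ G _ _ hG χ hχ hLD χ' hχ' v hv α hα lam hlam
  have hlam1 : lam 1 ≠ 0 := IrrS_one_ne hlam
  obtain ⟨hv1, hv2, hv3⟩ := mem_chainsOn.1 hv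
  -- the columns
  have hcol : ∀ j, v.image (fun R => R j) ∈ chainsOn (psub ℓ G) ⊥ := by
    intro j
    rw [mem_chainsOn]
    refine ⟨?_, Finset.mem_image.2 ⟨_, hv2, rfl⟩, ?_⟩
    · intro D hD
      obtain ⟨R, hR, rfl⟩ := Finset.mem_image.1 hD
      exact mem_boxes.1 (hv1 hR) j
    · intro D hD E hE hne
      obtain ⟨R, hR, rfl⟩ := Finset.mem_image.1 (Finset.mem_coe.1 hD)
      obtain ⟨R', hR', rfl⟩ := Finset.mem_image.1 (Finset.mem_coe.1 hE)
      rcases chain_total hv3 hR hR' with h | h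
      · left; exact h j
      · right; exact h j
  have hαcol : ∀ j, α j ∈ IrrS (stab (v.image (fun R => R j))) := by
    intro j
    rw [← colStab_eq]
    exact hα j
  constructor
  · intro hgood
    have hlabs : ∀ j, labF M (α j) ∈ Labs M G := by
      intro j
      have h1 := hcol j
      have h2 := hαcol j
      generalize v.image (fun R => R j) = e at h1 h2
      obtain ⟨hc1, -, hc3⟩ := mem_chainsOn.1 h1
      obtain ⟨χ₁, h3, h4⟩ := Pool.Agent.Helper79_WRA.H13.label Pool.Agent.Helper79_WRA.H44.br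
        Pool.Agent.Helper79_WRA.H69.alg ℓ M hℓ G e
        (fun D hD => (mem_psub.1 (hc1 hD)).2) hc3 (α j) h2
      exact ⟨χ₁, h3, h4⟩
    exact good_imp hℓ hχ hχ' hα hlabs hlam1 hgood
  · intro hlab z
    have hc : IsChars (triv G (ZMod ℓ)) (fun _ : ZMod ℓ => χ) := isChars_triv.2 fun _ => hχ
    have htop : topSt (Cl ℓ) v α ≤ topSt (Cl ℓ) (triv G (ZMod ℓ)) (fun _ : ZMod ℓ => χ) := by
      intro h _
      exact (mem_LL (L := Cl ℓ) (β := fun _ : ZMod ℓ => χ) fun _ => hχ).2 fun _ => rfl
    obtain ⟨p1, p2, -, -⟩ := Pool.Agent.Helper79_WRA.H83.pos ℓ M hℓ G hG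
    have hdat : ∀ j, dat M v α j = dat M (triv G (ZMod ℓ)) (fun _ : ZMod ℓ => χ) j := by
      intro j
      unfold dat
      rw [hlab j, colStab_eq, p2 _ (hcol j) (α j) (hαcol j) χ hχ hLD (hlab j), colStab_triv,
        Subgroup.card_top, (p1 χ hχ).1 hLD]
    have h1 := Pool.Agent.Helper79_WRA.H13.formStmt Pool.Agent.Helper79_WRA.H33.ext_ G (ZMod ℓ)
      (Cl ℓ) M v (triv G (ZMod ℓ)) α (fun _ : ZMod ℓ => χ) (topSt (Cl ℓ) v α) lam
      (clas (MonoidHom.id (Gam ℓ G)) z) hα hc le_rfl htop hlam hdat (clas_class z)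
      (clas_integral z)
    have hS := fun h hh => hoff ℓ M hℓ G hG χ hχ hLD h hh (clas (MonoidHom.id (Gam ℓ G)) z)
      (clas_class z) (clas_integral z)
    have h2 := val_et_cong hχ (clas (MonoidHom.id (Gam ℓ G)) z) hS lam hlam1
      (lam_integral hlam)
    have h3 := val_et_cong hχ (clas (MonoidHom.id (Gam ℓ G)) z) hS (fun _ => (1 : ℂ))
      one_ne_zero (fun _ => by rw [div_one]; exact isIntegral_one)
    have h4 : omega (MonoidHom.id (Gam ℓ G)) χ' z = val (clas (MonoidHom.id (Gam ℓ G)) z)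
        (et (fun _ => χ) (fun _ => (1 : ℂ))) := by
      rw [omega_val, hχ'.2 _ (clas_class z)]
    change Cong M (val (clas (MonoidHom.id (Gam ℓ G)) z) (eta v α lam))
      (omega (MonoidHom.id (Gam ℓ G)) χ' z)
    rw [h4]
    exact (h1.trans h2).trans h3.symm

end main

end Pool.Agent.Helper33_CC
end
end -- Pool.Agent.Helper33_CC.Gooda

section -- Pool.Agent.Helper81_CC.Eqb

/-!
CC, module EQB: labels of irreducible characters of `G wr C_ℓ` are determined on the base group.
-/

open scoped BigOperators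

noncomputable section

namespace Pool.Agent.Helper98_CC.H81

open Pool.Agent.Helper51_AWC Pool.Agent.Helper79_WRA Pool.Agent.Helper98_CC
open Pool.Agent.Helper79_WRA.H44 (pw pw_zero pw_class pw_integral val_pw conv_eq)

theorem isConj_s {ℓ : ℕ} {G : Type} [Group G] {x y : Gam ℓ G} (h : IsConj x y) : y.s = x.s := by
  obtain ⟨c, rfl⟩ := isConj_iff.1 h
  rw [Wreath.conj_s, mul_comm c.s x.s, mul_assoc, mul_inv_cancel, mul_one]

open Classical in
/-- the indicator of a class -/
def cls {Γ : Type} [Group Γ] (g : Γ) : Γ → ℂ := fun h => if IsConj g h then (1 : ℂ) else 0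

theorem cls_conj {Γ : Type} [Group Γ] (g x y : Γ) : cls g (y * x * y⁻¹) = cls g x := by
  classical
  unfold cls
  exact H13.conj_indicator g x y

theorem cls_int {Γ : Type} [Group Γ] (g x : Γ) : IsIntegral ℤ (cls g x) := by
  unfold cls
  split_ifs
  · exact isIntegral_one
  · exact isIntegral_zero

theorem pw_supp {ℓ : ℕ} [Fact ℓ.Prime] {G : Type} [Group G] [Finite G] [Fintype (Gam ℓ G)]
    (g : Gam ℓ G) (n : ℕ) (x : Gam ℓ G) (h : pw (cls g) n x ≠ 0) : x.s = g.s ^ n := by
  classical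
  induction n generalizing x with
  | zero =>
    rw [pw_zero] at h
    have hx : x = 1 := by
      by_contra hne
      rw [if_neg hne] at h
      exact h rfl
    rw [hx, pow_zero]
    rfl
  | succ n ih =>
    have h1 : pw (cls g) (n + 1) x = ∑ y, cls g y * pw (cls g) n (y⁻¹ * x) := conv_eq _ _ x
    rw [h1] at h
    obtain ⟨y, _, hy⟩ := Finset.exists_ne_zero_of_sum_ne_zero h
    have hy1 : cls g y ≠ 0 := left_ne_zero_of_mul hy
    have hy2 := ih _ (right_ne_zero_of_mul hy)
    have hc : IsConj g y := by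
      by_contra hne
      apply hy1
      unfold cls
      rw [if_neg hne]
    have hs := isConj_s hc
    rw [Wreath.mul_s, Wreath.inv_s, hs, inv_mul_eq_iff_eq_mul] at hy2
    rw [hy2, pow_succ']

theorem labF_pow {ℓ : ℕ} {M : Ideal (integralClosure ℤ ℂ)} {Γ : Type}
    [Group Γ] [Fintype Γ] {χ : Γ → ℂ} (hχ : χ ∈ Irr Γ) (g : Γ) :
    labF M χ g ^ ℓ = red M (val (pw (cls g) ℓ) χ) := by
  classical
  have h1 : labF M χ g = red M (val (cls g) χ) := by
    unfold labF
    rw [H13.omega_eq_val']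
    rfl
  rw [h1, ← red_pow (H13.val_integral (cls_conj g) (cls_int g) hχ), val_pw hχ (cls_conj g)]

theorem red_val_eq {M : Ideal (integralClosure ℤ ℂ)} {Γ : Type} [Group Γ] [Finite Γ]
    {χ₁ χ₂ F : Γ → ℂ} (h₁ : χ₁ ∈ Irr Γ) (h₂ : χ₂ ∈ Irr Γ) (hi : ∀ x, IsIntegral ℤ (F x))
    (hcl : ∀ x y, F (y * x * y⁻¹) = F x) (h : ∀ x, F x ≠ 0 → labF M χ₁ x = labF M χ₂ x) :
    red M (val F χ₁) = red M (val F χ₂) := by
  classical
  have := Fintype.ofFinite Γ
  have := Fintype.ofFinite (ConjClasses Γ)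
  have e : ∀ {χ : Γ → ℂ}, χ ∈ Irr Γ → red M (val F χ) =
      ∑ C : ConjClasses Γ, red M (F (Quotient.out C)) * labF M χ (Quotient.out C) := by
    intro χ hχ
    rw [H13.val_class F χ hcl (irr_one_ne hχ)]
    refine (red_sum Finset.univ (fun C : ConjClasses Γ => F (Quotient.out C) *
      omega (MonoidHom.id Γ) χ (Quotient.out C)) fun C _ =>
        (hi _).mul (omega_integral _ hχ _)).trans ?_
    refine Finset.sum_congr rfl fun C _ => ?_
    exact red_mul (hi _) (omega_integral _ hχ _)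
  rw [e h₁, e h₂]
  refine Finset.sum_congr rfl fun C _ => ?_
  by_cases h0 : F (Quotient.out C) = 0
  · rw [h0, red_zero, zero_mul, zero_mul]
  · rw [h _ h0]

/-- EQB -/
theorem eqb : EqbStmt := by
  intro ℓ hℓ M hM hM' G _ _ χ₁ h₁ χ₂ h₂ h
  classical
  have : NeZero ℓ := ⟨hℓ.out.ne_zero⟩
  have := Fintype.ofFinite (Gam ℓ G)
  have hch : CharP (FF M) ℓ := H15.charP_FF hM'
  have hexp : ExpChar (FF M) ℓ := ExpChar.prime hℓ.out
  have hdom : IsDomain (FF M) := Ideal.Quotient.isDomain M
  funext g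
  have hfr : Function.Injective (frobenius (FF M) ℓ) := frobenius_inj (FF M) ℓ
  apply hfr
  rw [frobenius_def, frobenius_def, labF_pow h₁, labF_pow h₂]
  have hgs : g.s ^ ℓ = 1 := by
    have h1 : Multiplicative.toAdd (g.s ^ ℓ) = Multiplicative.toAdd (1 : Cl ℓ) := by
      rw [toAdd_pow, toAdd_one, nsmul_eq_mul, ZMod.natCast_self, zero_mul]
    exact Multiplicative.toAdd.injective h1
  refine red_val_eq h₁ h₂ (pw_integral (cls_int g) ℓ) (pw_class (cls_conj g) ℓ) fun x hx => ?_
  have hs := pw_supp g ℓ _ hx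
  rw [hgs] at hs
  have hb : x = Wreath.base x.f := Wreath.ext rfl hs
  rw [hb]
  exact h x.f

end Pool.Agent.Helper98_CC.H81
end
end -- Pool.Agent.Helper81_CC.Eqb
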