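import Pool.Agent.Helper12_AWB.B063

/-!
# Merged copies (generated) of the modules

* `Pool.Agent.Helper13_WRA.Count`
* `Pool.Agent.Helper33_WRA.TesteA`
* `Pool.Agent.Helper46_WRA.Dzo`
* `Pool.Agent.Helper33_WRA.Teste`
* `Pool.Agent.Helper40_WRA.Aform`
* `Pool.Agent.Helper40_WRA.Cls`
-/

set_option autoImplicit false

section -- Pool.Agent.Helper13_WRA.Count

/-!
WRA, module COUNT: the number of characters of the stabiliser of `v` satisfying the block
condition.
-/

open scoped BigOperators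

noncomputable section

namespace Pool.Agent.Helper79_WRA.H13

open Pool.Agent.Helper51_AWC Pool.Agent.Helper79_WRA

variable {G Δ K : Type} [Group G] [Group K] [MulAction K Δ]

/-- the projection of the stabiliser of `v` -/
def pr (K : Type) [Group K] [MulAction K Δ] (v : Finset (Δ → Subgroup G)) : boxStab K v →* K :=
  (Wreath.proj : Wreath G Δ K →* K).comp (boxStab K v).subtype

theorem pr_apply (v : Finset (Δ → Subgroup G)) (t : boxStab K v) :
    pr K v t = (t : Wreath G Δ K).s := rfl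

theorem mem_ker_pr {v : Finset (Δ → Subgroup G)} {t : boxStab K v} :
    t ∈ (pr K v).ker ↔ (t : Wreath G Δ K).s = 1 := Iff.rfl

theorem base_mem_boxStab {v : Finset (Δ → Subgroup G)} {y : Δ → G} :
    (Wreath.base y : Wreath G Δ K) ∈ boxStab K v ↔ ∀ j, y j ∈ colStab v j := by
  rw [mem_boxStab]
  constructor
  · intro h j
    rw [mem_colStab]
    intro R hR
    have := h R hR j
    rwa [Wreath.base_s, inv_one, one_smul] at this
  · intro h R hR j
    rw [Wreath.base_s, inv_one, one_smul]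
    exact mem_colStab.1 (h j) R hR

theorem eq_base_of_s {t : Wreath G Δ K} (h : t.s = 1) : t = Wreath.base t.f :=
  Wreath.ext rfl h

/-- the kernel is the product of the stabilisers of the columns -/
def kerEquiv (K : Type) [Group K] [MulAction K Δ] (v : Finset (Δ → Subgroup G)) :
    (pr K v).ker ≃* (∀ j, colStab v j) where
  toFun t j := ⟨(t.1.1).f j, by
    have h1 : (t.1.1) ∈ boxStab K v := t.1.2
    have h2 : (t.1.1).s = 1 := t.2
    rw [eq_base_of_s h2, base_mem_boxStab] at h1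
    exact h1 j⟩
  invFun y := ⟨⟨Wreath.base (fun j => (y j : G)), base_mem_boxStab.2 fun j => (y j).2⟩, rfl⟩
  left_inv t := by
    apply Subtype.ext
    apply Subtype.ext
    exact (eq_base_of_s t.2).symm
  right_inv y := rfl
  map_mul' t u := by
    funext j
    apply Subtype.ext
    show ((t.1.1) * (u.1.1)).f j = (t.1.1).f j * (u.1.1).f j
    have h2 : (t.1.1).s = 1 := t.2
    rw [Wreath.mul_f, h2, inv_one, one_smul]

open Classical in
/-- the character of the kernel attached to `α` -/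
def nu [Fintype Δ] (v : Finset (Δ → Subgroup G)) (α : Δ → G → ℂ) (t : boxStab K v) : ℂ :=
  if (t : Wreath G Δ K).s = 1 then ∏ j, α j ((t : Wreath G Δ K).f j) else 0

section fin

variable [Finite G] [Fintype Δ]

omit [Finite G] in
theorem nu_base (v : Finset (Δ → Subgroup G)) (α : Δ → G → ℂ) (y : ∀ j, colStab v j) :
    nu (K := K) v α ((kerEquiv K v).symm y : (pr K v).ker) =
      piChar (fun j (z : colStab v j) => α j z) y := by
  unfold nu
  rw [if_pos]
  · rfl
  · rfl

theorem nu_mem (v : Finset (Δ → Subgroup G)) (α : Δ → G → ℂ) (hα : IsChars v α) :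
    nu v α ∈ IrrS (pr K v).ker := by
  classical
  have : ∀ j, Fintype (colStab v j) := fun j => Fintype.ofFinite _
  refine ⟨fun t ht => ?_, ?_⟩
  · unfold nu
    rw [if_neg]
    exact ht
  · have h1 : piChar (fun j (z : colStab v j) => α j z) ∈ Irr (∀ j, colStab v j) :=
      piChar_mem (fun j => (hα j).2)
    have h2 := irr_comp_equiv (kerEquiv K v) h1
    have h3 : (fun h : (pr K v).ker => nu (K := K) v α h) =
        fun g => piChar (fun j (z : colStab v j) => α j z) (kerEquiv K v g) := by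
      funext t
      rw [← nu_base (K := K), MulEquiv.symm_apply_apply]
    rw [h3]
    exact h2

theorem nu_inj {v : Finset (Δ → Subgroup G)} {α β : Δ → G → ℂ} (hα : IsChars v α)
    (hβ : IsChars v β) (h : nu (K := K) v α = nu v β) : α = β := by
  classical
  have : ∀ j, Fintype (colStab v j) := fun j => Fintype.ofFinite _
  have h1 : piChar (fun j (z : colStab v j) => α j z) =
      piChar (fun j (z : colStab v j) => β j z) := by
    funext y
    rw [← nu_base (K := K), ← nu_base (K := K), h]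
  have h2 := piChar_inj (fun j => (hα j).2) (fun j => (hβ j).2) h1
  funext j
  refine IrrS_ext (hα j) (hβ j) fun x => ?_
  exact congrFun (congrFun h2 j) x

theorem nu_surj (v : Finset (Δ → Subgroup G)) (η : boxStab K v → ℂ)
    (hη : η ∈ IrrS (pr K v).ker) : ∃ α, IsChars v α ∧ nu v α = η := by
  classical
  have : ∀ j, Fintype (colStab v j) := fun j => Fintype.ofFinite _
  have h1 := irr_comp_equiv (kerEquiv K v).symm hη.2
  obtain ⟨α, hα, hα2⟩ := exists_piChar h1
  choose β hβ hβ2 using fun j => exists_IrrS (colStab v j) (hα j)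
  refine ⟨β, hβ, ?_⟩
  refine IrrS_ext (nu_mem v β hβ) hη fun t => ?_
  have h2 := congrFun hα2 (kerEquiv K v t)
  simp only [MulEquiv.symm_apply_apply] at h2
  rw [h2]
  have h3 := nu_base (K := K) v β (kerEquiv K v t)
  rw [MulEquiv.symm_apply_apply] at h3
  rw [h3]
  unfold piChar
  exact Finset.prod_congr rfl fun j _ => hβ2 j _

end fin

/-! ### the stabiliser -/

theorem IrrS_conj {G : Type} [Group G] {H H' : Subgroup G} (g : G)
    (h : ∀ y, y ∈ H ↔ g * y * g⁻¹ ∈ H') {a : G → ℂ} (ha : a ∈ IrrS H') :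
    (fun y => a (g * y * g⁻¹)) ∈ IrrS H := by
  refine ⟨fun y hy => ha.1 _ fun h' => hy ((h y).2 h'), ?_⟩
  let e : H ≃* H' :=
    { toFun := fun y => ⟨g * y * g⁻¹, (h y).1 y.2⟩
      invFun := fun y => ⟨g⁻¹ * y * g, by
        rw [h]
        have : g * (g⁻¹ * (y : G) * g) * g⁻¹ = y := by group
        rw [this]
        exact y.2⟩
      left_inv := fun y => by
        apply Subtype.ext
        show g⁻¹ * (g * (y : G) * g⁻¹) * g = y
        group
      right_inv := fun y => by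
        apply Subtype.ext
        show g * (g⁻¹ * (y : G) * g) * g⁻¹ = y
        group
      map_mul' := fun y z => by
        apply Subtype.ext
        show g * ((y : G) * z) * g⁻¹ = (g * (y : G) * g⁻¹) * (g * (z : G) * g⁻¹)
        group }
  exact irr_comp_equiv e ha.2

/-- the conjugate of `α` -/
def tw (α : Δ → G → ℂ) (t : Wreath G Δ K) (j : Δ) (y : G) : ℂ :=
  α (t.s • j) (t.f (t.s • j) * y * (t.f (t.s • j))⁻¹)

theorem tw_isChars {v : Finset (Δ → Subgroup G)} {α : Δ → G → ℂ} (hα : IsChars v α)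
    {t : Wreath G Δ K} (ht : t ∈ boxStab K v) : IsChars v (tw α t) := by
  intro j
  refine IrrS_conj (t.f (t.s • j)) (fun y => ?_) (hα (t.s • j))
  rw [mem_colStab, mem_colStab]
  have h1 : ∀ R ∈ v, conjS (t.f (t.s • j)) (R j) = R (t.s • j) := by
    intro R hR
    have := ht R hR (t.s • j)
    rwa [inv_smul_smul] at this
  constructor
  · intro h R hR
    rw [← h1 R hR, conjS_conjS]
    have : t.f (t.s • j) * y * (t.f (t.s • j))⁻¹ * t.f (t.s • j) = t.f (t.s • j) * y := by group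
    rw [this, ← conjS_conjS, h R hR]
  · intro h R hR
    have h2 := h R hR
    rw [← h1 R hR, conjS_conjS] at h2
    have : t.f (t.s • j) * y * (t.f (t.s • j))⁻¹ * t.f (t.s • j) = t.f (t.s • j) * y := by group
    rw [this, ← conjS_conjS] at h2
    exact conjS_injective _ h2

theorem nu_tw [Fintype Δ] (v : Finset (Δ → Subgroup G)) (α : Δ → G → ℂ) (t y : boxStab K v) :
    nu v (tw α (t : Wreath G Δ K)) y = nu v α (t * y * t⁻¹) := by
  unfold nu
  have hs : ((t * y * t⁻¹ : boxStab K v) : Wreath G Δ K).s =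
      (t : Wreath G Δ K).s * (y : Wreath G Δ K).s * ((t : Wreath G Δ K).s)⁻¹ :=
    Wreath.conj_s (y : Wreath G Δ K) (t : Wreath G Δ K)
  by_cases h : (y : Wreath G Δ K).s = 1
  · rw [if_pos h, if_pos (by rw [hs, h, mul_one, mul_inv_cancel])]
    have h1 : ∀ j, ((t * y * t⁻¹ : boxStab K v) : Wreath G Δ K).f j =
        (t : Wreath G Δ K).f j * (y : Wreath G Δ K).f ((t : Wreath G Δ K).s⁻¹ • j) *
          ((t : Wreath G Δ K).f j)⁻¹ := by
      intro j
      have h2 := Wreath.conj_f (y : Wreath G Δ K) (t : Wreath G Δ K) j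
      rw [h, inv_one, mul_one, mul_inv_cancel, one_smul] at h2
      exact h2
    simp only [h1]
    unfold tw
    rw [← Equiv.prod_comp (MulAction.toPerm (t : Wreath G Δ K).s)
      (fun j => α j ((t : Wreath G Δ K).f j *
        (y : Wreath G Δ K).f ((t : Wreath G Δ K).s⁻¹ • j) * ((t : Wreath G Δ K).f j)⁻¹))]
    refine Finset.prod_congr rfl fun j _ => ?_
    rw [MulAction.toPerm_apply, inv_smul_smul]
  · rw [if_neg h, if_neg]
    rw [hs]
    intro h2
    apply h
    have : (y : Wreath G Δ K).s = ((t : Wreath G Δ K).s)⁻¹ *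
        ((t : Wreath G Δ K).s * (y : Wreath G Δ K).s * ((t : Wreath G Δ K).s)⁻¹) *
          (t : Wreath G Δ K).s := by group
    rw [this, h2]
    group

theorem mem_T [Finite G] [Fintype Δ] {v : Finset (Δ → Subgroup G)}
    {α : Δ → G → ℂ} (hα : IsChars v α) (t : boxStab K v) :
    t ∈ (stX K v α).subgroupOf (boxStab K v) ↔ ∀ y, nu v α (t * y * t⁻¹) = nu v α y := by
  rw [Subgroup.mem_subgroupOf, mem_stX]
  constructor
  · rintro ⟨-, h⟩ y
    rw [← nu_tw]
    have : tw α (t : Wreath G Δ K) = α := by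
      funext j z
      have := h ((t : Wreath G Δ K).s • j) z
      rw [inv_smul_smul] at this
      exact this
    rw [this]
  · intro h
    have h1 : nu (K := K) v (tw α (t : Wreath G Δ K)) = nu v α := by
      funext y
      rw [nu_tw, h]
    have h2 := nu_inj (tw_isChars hα t.2) hα h1
    refine ⟨t.2, fun j y => ?_⟩
    have h3 := congrFun (congrFun h2 ((t : Wreath G Δ K).s⁻¹ • j)) y
    unfold tw at h3
    rw [smul_inv_smul] at h3
    exact h3

theorem card_stX [Finite G] [Fintype Δ] {v : Finset (Δ → Subgroup G)}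
    {α : Δ → G → ℂ} (hα : IsChars v α) :
    Nat.card (stX K v α) = (∏ j, Nat.card (colStab v j)) * Nat.card (topSt K v α) := by
  let f : stX K v α →* K := (Wreath.proj : Wreath G Δ K →* K).comp (stX K v α).subtype
  have h1 : f.range = topSt K v α := by
    show (Wreath.proj.comp (stX K v α).subtype).range = _
    rw [MonoidHom.range_comp, Subgroup.range_subtype]
    rfl
  have h2 := Subgroup.card_mul_index f.ker
  rw [Subgroup.index_ker, h1] at h2
  rw [← h2]
  congr 1
  rw [← Nat.card_pi]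
  refine Nat.card_congr ?_
  refine ⟨fun t j => ⟨(t.1.1).f j, ?_⟩, fun y => ⟨⟨Wreath.base (fun j => (y j : G)), ?_⟩, rfl⟩,
    fun t => ?_, fun y => rfl⟩
  · have h3 : (t.1.1) ∈ boxStab K v := t.1.2.1
    have h4 : (t.1.1).s = 1 := t.2
    rw [eq_base_of_s h4, base_mem_boxStab] at h3
    exact h3 j
  · refine ⟨base_mem_boxStab.2 fun j => (y j).2, fun j z => ?_⟩
    rw [Wreath.base_s, inv_one, one_smul, Wreath.base_f]
    by_cases hz : z ∈ colStab v j
    · exact irr_conj (hα j).2 (⟨z, hz⟩ : colStab v j) (y j)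
    · rw [(hα j).1 z hz, (hα j).1]
      intro h3
      apply hz
      have := (colStab v j).mul_mem ((colStab v j).mul_mem ((colStab v j).inv_mem (y j).2) h3)
        (y j).2
      have e : (y j : G)⁻¹ * ((y j : G) * z * (y j : G)⁻¹) * (y j : G) = z := by group
      rwa [e] at this
  · apply Subtype.ext
    apply Subtype.ext
    exact (eq_base_of_s t.2).symm

/-! ### values -/

theorem IrrS_restrict {Γ : Type} [Group Γ] {H Λ : Subgroup Γ} (hle : H ≤ Λ) {a : Γ → ℂ}
    (ha : a ∈ IrrS H) : (fun t : Λ => a t) ∈ IrrS (H.subgroupOf Λ) := by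
  refine ⟨fun t ht => ha.1 _ fun h => ht (Subgroup.mem_subgroupOf.2 h), ?_⟩
  exact irr_comp_equiv (Subgroup.subgroupOfEquivOfLe hle) ha.2

theorem val_restrict {Γ : Type} [Group Γ] [Finite Γ] {Λ : Subgroup Γ} (Φ η : Γ → ℂ)
    (hη : ∀ t, t ∉ Λ → η t = 0) :
    val (fun t : Λ => Φ t) (fun t : Λ => η t) = val Φ η := by
  classical
  unfold val
  congr 1
  have h1 : ∑ᶠ t : Λ, (fun t : Λ => Φ t) t * (fun t : Λ => η t) t =
      ∑ᶠ (t : Γ) (_ : t ∈ Λ), Φ t * η t :=
    finsum_subtype_eq_finsum_cond (f := fun t => Φ t * η t) (p := fun t => t ∈ Λ)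
  rw [h1]
  refine finsum_congr fun t => ?_
  rw [finsum_eq_if]
  split_ifs with h
  · rfl
  · rw [hη t h, mul_zero]

theorem val_ind {Λ : Type} [Group Λ] [Finite Λ] (T : Subgroup Λ) (Φ η : Λ → ℂ)
    (hΦ : ∀ x y, Φ (y * x * y⁻¹) = Φ x) : val Φ (ind T η) = val Φ η := by
  classical
  have := Fintype.ofFinite Λ
  rw [val_eq, val_eq]
  unfold ind
  have h1 : ∀ g, (∑ᶠ x : Λ, η (x * g * x⁻¹)) = ∑ x : Λ, η (x * g * x⁻¹) := fun g =>
    finsum_eq_sum_of_fintype _
  simp only [h1]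
  have h2 : ∑ g, Φ g * ((∑ x : Λ, η (x * g * x⁻¹)) / (Nat.card T : ℂ)) =
      ((Fintype.card Λ : ℂ) / (Nat.card T : ℂ)) * ∑ g, Φ g * η g := by
    have h3 : ∀ x : Λ, ∑ g, Φ g * η (x * g * x⁻¹) = ∑ g, Φ g * η g := by
      intro x
      rw [← Equiv.sum_comp (MulAut.conj x).toEquiv (fun g => Φ g * η g)]
      refine Finset.sum_congr rfl fun g _ => ?_
      show _ = Φ (x * g * x⁻¹) * η (x * g * x⁻¹)
      rw [hΦ]
    have h4 : ∑ g, Φ g * ((∑ x : Λ, η (x * g * x⁻¹)) / (Nat.card T : ℂ)) =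
        (∑ x : Λ, ∑ g, Φ g * η (x * g * x⁻¹)) / (Nat.card T : ℂ) := by
      rw [Finset.sum_comm, Finset.sum_div]
      refine Finset.sum_congr rfl fun g _ => ?_
      rw [← Finset.mul_sum, mul_div_assoc]
    rw [h4]
    simp only [h3, Finset.sum_const, Finset.card_univ, nsmul_eq_mul]
    ring
  have h5 : (∑ x : Λ, η (x * 1 * x⁻¹)) / (Nat.card T : ℂ) =
      ((Fintype.card Λ : ℂ) / (Nat.card T : ℂ)) * η 1 := by
    simp only [mul_one, mul_inv_cancel, Finset.sum_const, Finset.card_univ, nsmul_eq_mul]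
    ring
  rw [h2, h5, mul_div_mul_left]
  refine div_ne_zero ?_ ?_
  · exact_mod_cast Fintype.card_ne_zero
  · exact_mod_cast Nat.card_pos.ne'

theorem count (hext : ExtStmt) (hcl : CliffStmt) : CountStmt := by
  classical
  intro G Δ K I _ _ _ _ _ _ M Φ ws v hΦ
  have hE : ∀ α, IsChars v α → IsExt K v α (ext K v α) := by
    intro α hα
    have h := hext G Δ K v α hα
    unfold ext
    rw [dif_pos h]
    exact h.choose_spec
  have hmem : ∀ a : {α // α ∈ charsOf v}, IsChars v a.1 := fun a => mem_charsOf.1 a.2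
  have hle : ∀ α, stX K v α ≤ boxStab K v := fun α => stX_le_boxStab
  have key := hcl (boxStab K v) K {α // α ∈ charsOf v} (pr K v) (fun a => nu v a.1)
    (fun a t => ext K v a.1 t) (fun a => (stX K v a.1).subgroupOf (boxStab K v))
    (fun a => nu_mem v a.1 (hmem a))
    (fun a b h => Subtype.ext (nu_inj (hmem a) (hmem b) h))
    (fun η hη => by
      obtain ⟨α, hα, h⟩ := nu_surj v η hη
      exact ⟨⟨α, mem_charsOf.2 hα⟩, h⟩)
    (fun a t => mem_T (hmem a) t)
    (fun a => IrrS_restrict (hle a.1) (hE a.1 (hmem a)).mem)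
    (fun a y hy => by
      have h1 : (y : Wreath G Δ K).s = 1 := hy
      show ext K v a.1 (y : Wreath G Δ K) = nu v a.1 y
      unfold nu
      rw [if_pos h1, eq_base_of_s h1, (hE a.1 (hmem a)).base]
      rfl)
    {θ | Good M (fun z (t : boxStab K v) => Φ z t) ws θ}
  have h1 : (Nat.card (boxStab K v) : ℤ) *
      (({ϑ | ϑ ∈ Irr (boxStab K v) ∧
        Good M (fun z (t : boxStab K v) => Φ z t) ws ϑ}.ncard : ℕ) : ℤ) =
      ((Nat.card (boxStab K v) * {θ | θ ∈ Irr (boxStab K v) ∧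
        θ ∈ {θ | Good M (fun z (t : boxStab K v) => Φ z t) ws θ}}.ncard : ℕ) : ℤ) := by
    push_cast
    rfl
  rw [h1, key, ← Finset.sum_coe_sort (charsOf v)]
  push_cast
  refine Finset.sum_congr rfl fun a _ => ?_
  have hcard : Nat.card ((stX K v a.1).subgroupOf (boxStab K v)) =
      (∏ j, Nat.card (colStab v j)) * Nat.card (topSt K v a.1) := by
    rw [← card_stX (hmem a)]
    exact Nat.card_congr (Subgroup.subgroupOfEquivOfLe (hle a.1)).toEquiv
  have hmap : ((stX K v a.1).subgroupOf (boxStab K v)).map (pr K v) = topSt K v a.1 := by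
    unfold pr topSt
    rw [← Subgroup.map_map, Subgroup.subgroupOf_map_subtype, inf_eq_left.2 (hle a.1)]
  have hset : {lam | lam ∈ IrrS (((stX K v a.1).subgroupOf (boxStab K v)).map (pr K v)) ∧
      ind ((stX K v a.1).subgroupOf (boxStab K v)) (fun t => ext K v a.1 t * lam (pr K v t)) ∈
        {θ | Good M (fun z (t : boxStab K v) => Φ z t) ws θ}} =
      {lam | lam ∈ IrrS (topSt K v a.1) ∧ Good M Φ ws (eta v a.1 lam)} := by
    ext lam
    rw [Set.mem_ofPred_eq, Set.mem_ofPred_eq, Set.mem_ofPred_eq, hmap]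
    have h2 : ∀ z, val (fun t : boxStab K v => Φ z t)
        (ind ((stX K v a.1).subgroupOf (boxStab K v))
          (fun t => ext K v a.1 t * lam (pr K v t))) = val (Φ z) (eta v a.1 lam) := by
      intro z
      rw [val_ind ((stX K v a.1).subgroupOf (boxStab K v)) (fun t : boxStab K v => Φ z t)
        (fun t => ext K v a.1 t * lam (pr K v t)) (fun x y => hΦ z x y)]
      exact val_restrict (Φ z) (eta v a.1 lam) (fun t ht => by
        unfold eta
        rw [(hE a.1 (hmem a)).mem.1 t fun h => ht (hle a.1 h), zero_mul])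
    unfold Good
    simp only [h2]
  rw [hset, hcard]
  push_cast
  rfl

end Pool.Agent.Helper79_WRA.H13
end
end -- Pool.Agent.Helper13_WRA.Count

section -- Pool.Agent.Helper33_WRA.TesteA

/-!
WRA, module TESTE, part A: cycles over fibres and the value of the extension.
-/

open scoped BigOperators

noncomputable section

namespace Pool.Agent.Helper79_WRA.H33

open Pool.Agent.Helper51_AWC Pool.Agent.Helper79_WRA.H13

/-! ### the trivial chain of boxes -/

section triv

variable {G Ω L : Type} [Group G] [Group L] [MulAction L Ω]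

theorem conjS_bot' (g : G) : conjS g (⊥ : Subgroup G) = ⊥ := Subgroup.map_bot _

omit [Group L] [MulAction L Ω] in
theorem mem_triv {R : Ω → Subgroup G} : R ∈ triv G Ω ↔ R = fun _ => ⊥ := by
  unfold triv
  exact Finset.mem_singleton

omit [Group L] [MulAction L Ω] in
theorem colStab_triv (j : Ω) : colStab (triv G Ω) j = ⊤ := by
  rw [eq_top_iff]
  intro g _
  rw [mem_colStab]
  intro R hR
  rw [mem_triv.1 hR]
  exact conjS_bot' g

omit [Group L] [MulAction L Ω] in
theorem isChars_triv {β : Ω → G → ℂ} (hβ : ∀ i, β i ∈ Irr G) : IsChars (triv G Ω) β := by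
  intro j
  rw [colStab_triv]
  exact mem_IrrS_top.2 (hβ j)

theorem mem_stX_triv {β : Ω → G → ℂ} (hβ : ∀ i, β i ∈ Irr G) {t : Wreath G Ω L} :
    t ∈ stX L (triv G Ω) β ↔ ∀ i, β (t.s⁻¹ • i) = β i := by
  rw [mem_stX]
  constructor
  · rintro ⟨_, h⟩ i
    funext y
    rw [← h i y, irr_conj (hβ i)]
  · intro h
    refine ⟨fun R hR j => ?_, fun j y => ?_⟩
    · rw [mem_triv.1 hR]
      exact conjS_bot' _
    · rw [irr_conj (hβ j), h]

theorem mem_LL {β : Ω → G → ℂ} (hβ : ∀ i, β i ∈ Irr G) {h : L} :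
    h ∈ LL L β ↔ ∀ i, β (h⁻¹ • i) = β i := by
  constructor
  · rintro ⟨t, ht, rfl⟩
    exact (mem_stX_triv hβ).1 ht
  · intro H
    exact ⟨⟨fun _ => 1, h⟩, (mem_stX_triv hβ).2 H, rfl⟩

theorem LL_smul {β : Ω → G → ℂ} (hβ : ∀ i, β i ∈ Irr G) {h : L} (hh : h ∈ LL L β) (i : Ω) :
    β (h • i) = β i := by
  have := (mem_LL hβ).1 hh (h • i)
  rw [inv_smul_smul] at this
  exact this.symm

end triv

/-! ### periods -/

section per

variable {L Ω : Type} [Group L] [MulAction L Ω]

/-- the period -/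
abbrev pr (h : L) (i : Ω) : ℕ := Function.minimalPeriod (fun j : Ω => h • j) i

theorem pow_smul_iff (h : L) (i : Ω) (n : ℕ) : h ^ n • i = i ↔ pr h i ∣ n := by
  rw [← Function.isPeriodicPt_iff_minimalPeriod_dvd]
  show _ ↔ (fun j : Ω => h • j)^[n] i = i
  rw [smul_iterate]

theorem pr_pos [Finite L] (h : L) (i : Ω) : 0 < pr h i := by
  have h1 : pr h i ∣ orderOf h := by
    rw [← pow_smul_iff, pow_orderOf_eq_one, one_smul]
  exact Nat.pos_of_dvd_of_pos h1 (orderOf_pos h)

theorem pr_inv (h : L) (i : Ω) : pr h⁻¹ i = pr h i := by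
  have key : ∀ n, pr h⁻¹ i ∣ n ↔ pr h i ∣ n := by
    intro n
    rw [← pow_smul_iff, ← pow_smul_iff, inv_pow, inv_smul_eq_iff]
    exact eq_comm
  exact Nat.dvd_antisymm ((key _).2 dvd_rfl) ((key _).1 dvd_rfl)

theorem isBase_inv {h : L} {B : Finset Ω} (hB : IsBase h B) : IsBase h⁻¹ B := by
  intro j
  have := hB j
  have e : Subgroup.zpowers h⁻¹ = Subgroup.zpowers h := Subgroup.zpowers_inv
  rw [e]
  exact this

theorem mem_orbit_pow [Finite L] {h : L} {i i' : Ω}
    (hi : i' ∈ MulAction.orbit (Subgroup.zpowers h) i) : ∃ k : ℕ, i' = h ^ k • i := by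
  obtain ⟨⟨z, hz⟩, rfl⟩ := hi
  obtain ⟨k, rfl⟩ : ∃ k : ℕ, h ^ k = z := by
    have := mem_powers_iff_mem_zpowers.2 hz
    exact this
  exact ⟨k, rfl⟩

theorem orbit_symm' {h : L} {i i' : Ω} (hi : i' ∈ MulAction.orbit (Subgroup.zpowers h) i) :
    i ∈ MulAction.orbit (Subgroup.zpowers h) i' := by
  rw [← MulAction.orbit_eq_iff] at hi
  rw [hi]
  exact MulAction.mem_orbit_self i

theorem pow_mem_orbit (h : L) (i : Ω) (k : ℕ) :
    h ^ k • i ∈ MulAction.orbit (Subgroup.zpowers h) i :=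
  ⟨⟨h ^ k, Subgroup.pow_mem _ (Subgroup.mem_zpowers h) _⟩, rfl⟩

end per

/-! ### powers in the wreath product -/

section pow

variable {G Δ K : Type} [Group G] [Group K] [MulAction K Δ]

theorem pow_s (u : Wreath G Δ K) (n : ℕ) : (u ^ n).s = u.s ^ n :=
  map_pow (Wreath.proj : Wreath G Δ K →* K) u n

theorem pow_f_mul (u : Wreath G Δ K) (b : Δ) (n m : ℕ) (hfix : u.s ^ n • b = b) :
    (u ^ (n * m)).f b = ((u ^ n).f b) ^ m := by
  induction m with
  | zero => rw [mul_zero, pow_zero, pow_zero, Wreath.one_f]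
  | succ m ih =>
    have h1 : u.s ^ (n * m) • b = b := by
      rw [pow_smul_iff] at hfix ⊢
      exact dvd_mul_of_dvd_left hfix m
    rw [mul_add, mul_one, pow_add, Wreath.mul_f, ih, pow_s, pow_succ]
    congr 2
    rw [inv_smul_eq_iff]
    exact h1.symm

end pow

/-! ### cycles over fibres -/

section overs

variable {Ω Δ L K : Type} [Group L] [MulAction L Ω] [Group K] [MulAction K Δ]
  {q : Ω → Δ} {κ : K →* L}

theorem pow_compat (hc : ∀ k i, q (κ k • i) = k • q i) (h : K) (n : ℕ) (i : Ω) :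
    q (κ h ^ n • i) = h ^ n • q i := by
  rw [← map_pow, hc]

theorem pr_dvd (hc : ∀ k i, q (κ k • i) = k • q i) (h : K) (i : Ω) :
    pr h (q i) ∣ pr (κ h) i := by
  rw [← pow_smul_iff, ← pow_compat hc, (pow_smul_iff (κ h) i _).2 dvd_rfl]

theorem per_over [Finite K] {ℓ : ℕ} (hℓ : ℓ.Prime) (hc : ∀ k i, q (κ k • i) = k • q i)
    {P : Subgroup L} (hP : IsPGroup ℓ P) (hfib : ∀ i i', q i = q i' ↔ ∃ p ∈ P, p • i = i')
    {h : K} (hcomm : ∀ p ∈ P, p * κ h = κ h * p) (i : Ω) :
    ∃ a, pr (κ h) i = pr h (q i) * ℓ ^ a := by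
  obtain ⟨m, hm⟩ := pr_dvd hc h i
  have hfix : h ^ pr h (q i) • q i = q i := (pow_smul_iff h (q i) _).2 dvd_rfl
  have hg : q (κ h ^ pr h (q i) • i) = q i := by
    rw [pow_compat hc, hfix]
  obtain ⟨p, hp, hpi⟩ := (hfib i _).1 hg.symm
  have hcm : ∀ k, p * (κ h ^ pr h (q i)) ^ k = (κ h ^ pr h (q i)) ^ k * p := by
    intro k
    have h1 : Commute p (κ h) := hcomm p hp
    exact ((h1.pow_right _).pow_right k)
  have hpg : ∀ k : ℕ, (κ h ^ pr h (q i)) ^ k • i = p ^ k • i := by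
    intro k
    induction k with
    | zero => rw [pow_zero, pow_zero]
    | succ k ih =>
      rw [pow_succ, mul_smul, ← hpi, ← mul_smul, ← hcm, mul_smul, ih, ← mul_smul, ← pow_succ']
  obtain ⟨a, ha⟩ := hP ⟨p, hp⟩
  have ha' : p ^ (ℓ ^ a) = 1 := congrArg Subtype.val ha
  have h2 : pr (κ h) i ∣ pr h (q i) * ℓ ^ a := by
    rw [← pow_smul_iff, pow_mul, hpg, ha', one_smul]
  rw [hm] at h2
  have h3 := Nat.dvd_of_mul_dvd_mul_left (pr_pos h (q i)) h2
  obtain ⟨a', _, rfl⟩ := (Nat.dvd_prime_pow hℓ).1 h3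
  exact ⟨a', hm⟩

theorem exists_base_over [Fintype Ω] (hc : ∀ k i, q (κ k • i) = k • q i) {h : K} {B : Finset Δ}
    (hB : IsBase h B) : ∃ BΩ : Finset Ω, IsBase (κ h) BΩ ∧ ∀ i ∈ BΩ, q i ∈ B := by
  classical
  have h1 : ∀ i : Ω, ∃ i' ∈ MulAction.orbit (Subgroup.zpowers (κ h)) i, q i' ∈ B := by
    intro i
    obtain ⟨⟨z, hz⟩, hz'⟩ := bp_orb hB (q i)
    have hz2 : z • q i = bp hB (q i) := hz'
    refine ⟨κ z • i, ⟨⟨κ z, ?_⟩, rfl⟩, ?_⟩
    · obtain ⟨n, rfl⟩ := hz
      exact ⟨n, by simp⟩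
    · rw [hc, hz2]
      exact bp_mem hB _
  choose f hf1 hf2 using h1
  let s := MulAction.orbitRel (Subgroup.zpowers (κ h)) Ω
  let r : Ω → Ω := fun j => f (Quotient.mk s j).out
  have hr : ∀ j, r j ∈ MulAction.orbit (Subgroup.zpowers (κ h)) j := by
    intro j
    have h2 : (Quotient.mk s j).out ∈ MulAction.orbit (Subgroup.zpowers (κ h)) j :=
      Quotient.exact (s := s) (Quotient.out_eq (Quotient.mk s j))
    have h3 := hf1 (Quotient.mk s j).out
    rwa [MulAction.orbit_eq_iff.2 h2] at h3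
  refine ⟨Finset.univ.image r, fun j => ⟨r j, ⟨Finset.mem_image_of_mem _ (Finset.mem_univ _),
    hr j⟩, ?_⟩, ?_⟩
  · rintro b ⟨hb, hbj⟩
    obtain ⟨j', -, rfl⟩ := Finset.mem_image.1 hb
    have h1 : Quotient.mk s (r j') = Quotient.mk s j := Quotient.sound (s := s) hbj
    have h2 : Quotient.mk s (r j') = Quotient.mk s j' := Quotient.sound (s := s) (hr j')
    show f (Quotient.mk s j').out = f (Quotient.mk s j).out
    rw [← h2, h1]
  · intro i hi
    obtain ⟨j', -, rfl⟩ := Finset.mem_image.1 hi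
    exact hf2 _

theorem q_bp [Finite L] (hc : ∀ k i, q (κ k • i) = k • q i) {h : K} {B : Finset Δ}
    (hB : IsBase h B) {BΩ : Finset Ω} (hBΩ : IsBase (κ h) BΩ) (hover : ∀ i ∈ BΩ, q i ∈ B) (i : Ω) :
    q (bp hBΩ i) = bp hB (q i) := by
  apply bp_uniq hB (hover _ (bp_mem hBΩ i))
  obtain ⟨k, hk⟩ := mem_orbit_pow (bp_orb hBΩ i)
  rw [hk, pow_compat hc]
  exact pow_mem_orbit h (q i) k

theorem card_fib [Fintype Ω] [DecidableEq Δ] [Finite L] [Finite K]
    (hc : ∀ k i, q (κ k • i) = k • q i) {h : K} {B : Finset Δ}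
    (hB : IsBase h B) {BΩ : Finset Ω} (hBΩ : IsBase (κ h) BΩ) (hover : ∀ i ∈ BΩ, q i ∈ B)
    {b : Δ} (hb : b ∈ B) :
    ∑ i ∈ BΩ.filter (fun i => q i = b), pr (κ h) i / pr h (q i) = Nat.card {i : Ω // q i = b} := by
  classical
  have hF : Nat.card {i : Ω // q i = b} = (Finset.univ.filter (fun i : Ω => q i = b)).card := by
    rw [Nat.card_eq_fintype_card, Fintype.card_subtype]
  rw [hF]
  have hmaps : ∀ i' ∈ Finset.univ.filter (fun i : Ω => q i = b),
      bp hBΩ i' ∈ BΩ.filter (fun i => q i = b) := by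
    intro i' hi'
    have h1 := (Finset.mem_filter.1 hi').2
    rw [Finset.mem_filter]
    refine ⟨bp_mem hBΩ i', ?_⟩
    rw [q_bp hc hB hBΩ hover, h1, bp_self hB hb]
  rw [Finset.card_eq_sum_card_fiberwise hmaps]
  apply Finset.sum_congr rfl
  intro i hi
  obtain ⟨hi1, hi2⟩ := Finset.mem_filter.1 hi
  obtain ⟨m, hm⟩ := pr_dvd hc h i
  have hn' : 0 < pr h (q i) := pr_pos h (q i)
  have hn : 0 < pr (κ h) i := pr_pos (κ h) i
  have hmq : pr (κ h) i / pr h (q i) = m := by
    rw [hm, Nat.mul_div_cancel_left _ hn']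
  rw [hmq]
  have himg : (Finset.univ.filter (fun i : Ω => q i = b)).filter (fun i' => bp hBΩ i' = i) =
      (Finset.range m).image (fun k => κ h ^ (pr h (q i) * k) • i) := by
    ext i'
    rw [Finset.mem_filter, Finset.mem_filter, Finset.mem_image]
    constructor
    · rintro ⟨⟨_, h1⟩, h2⟩
      have h3 := bp_orb hBΩ i'
      rw [h2] at h3
      obtain ⟨k, hk⟩ := mem_orbit_pow (orbit_symm' h3)
      have h4 : κ h ^ (k % pr (κ h) i) • i = i' := by
        rw [hk]
        have h5 := Function.iterate_mod_minimalPeriod_eq (f := fun j : Ω => κ h • j) (x := i)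
          (n := k)
        rw [smul_iterate, smul_iterate] at h5
        exact h5
      have h6 : pr h (q i) ∣ k % pr (κ h) i := by
        have h7 : q (κ h ^ (k % pr (κ h) i) • i) = q i := by rw [h4, h1, hi2]
        rw [pow_compat hc] at h7
        exact (pow_smul_iff h (q i) _).1 h7
      obtain ⟨k', hk'⟩ := h6
      refine ⟨k', ?_, ?_⟩
      · rw [Finset.mem_range]
        have h8 : k % pr (κ h) i < pr (κ h) i := Nat.mod_lt _ hn
        rw [hk'] at h8
        conv_rhs at h8 => rw [hm]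
        exact Nat.lt_of_mul_lt_mul_left h8
      · show κ h ^ (pr h (q i) * k') • i = i'
        rw [← hk', h4]
    · rintro ⟨k, _, rfl⟩
      refine ⟨⟨Finset.mem_univ _, ?_⟩, ?_⟩
      · rw [pow_compat hc, (pow_smul_iff h (q i) _).2 (dvd_mul_right _ _), hi2]
      · exact (bp_uniq hBΩ hi1 (orbit_symm' (pow_mem_orbit (κ h) i _))).symm
  rw [himg, Finset.card_image_of_injOn, Finset.card_range]
  intro k hk k' hk' hkk
  have hk1 : pr h (q i) * k < pr (κ h) i := by
    rw [hm]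
    exact Nat.mul_lt_mul_of_pos_left (Finset.mem_range.1 hk) hn'
  have hk2 : pr h (q i) * k' < pr (κ h) i := by
    rw [hm]
    exact Nat.mul_lt_mul_of_pos_left (Finset.mem_range.1 hk') hn'
  have h9 := (Function.iterate_eq_iterate_iff_of_lt_minimalPeriod hk1 hk2).1 (by
    rw [smul_iterate, smul_iterate]
    exact hkk)
  exact Nat.eq_of_mul_eq_mul_left hn' h9

end overs

/-! ### the value of the extension -/

section value

variable {ℓ : ℕ} {G Ω L Δ K : Type} [Group G] [Finite G] [Fintype Ω] [Group L] [Finite L]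
  [MulAction L Ω] [Fintype Δ] [Group K] [Finite K] [MulAction K Δ]

omit [Fintype Δ] in
theorem ex_red [Fact ℓ.Prime] {M : Ideal (integralClosure ℤ ℂ)} [M.IsMaximal]
    (hℓM : (ℓ : integralClosure ℤ ℂ) ∈ M) {q : Ω → Δ} {κ : K →* L}
    {ι : Wreath G Δ K →* Wreath G Ω L} {P : Subgroup L} (hs : Sit ℓ q κ ι P)
    {h : K} (hcomm : ∀ p ∈ P, p * κ h = κ h * p) {β' : Ω → G → ℂ} (hβ' : ∀ i, β' i ∈ Irr G)
    (hh' : κ h ∈ LL L β') (βd : Δ → G → ℂ) (hβd : ∀ i, βd (q i) = β' i)
    {B : Finset Δ} (hB : IsBase h B) (u : Wreath G Δ K) (hu : u.s = h) :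
    IsIntegral ℤ (ex L β' (ι u)⁻¹) ∧ red M (ex L β' (ι u)⁻¹) =
      ∏ b ∈ B, (red M (βd b ((u ^ pr h b).f b)⁻¹)) ^ Nat.card {i : Ω // q i = b} := by
  classical
  have hι := hs.iota
  have hc := hs.compat
  obtain ⟨BΩ, hBΩ, hover⟩ := exists_base_over hc hB
  have hus : (ι u).s = κ h := by rw [hι, hu]
  have hts : ((ι u)⁻¹).s = (κ h)⁻¹ := by rw [Wreath.inv_s, hus]
  have ht : (ι u)⁻¹ ∈ stX L (triv G Ω) β' := by
    rw [mem_stX_triv hβ']
    intro i
    rw [hts, inv_inv]
    exact LL_smul hβ' hh' i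
  have hX := isExt_ext (K := L) (isChars_triv hβ')
  refine ⟨IrrS_integral hX.mem _, ?_⟩
  have hBt : IsBase ((ι u)⁻¹).s BΩ := by rw [hts]; exact isBase_inv hBΩ
  have hval := hX.value _ ht BΩ hBt
  have h1 : ∀ i ∈ BΩ, red M (β' i (((ι u)⁻¹ ^
      Function.minimalPeriod (fun j : Ω => ((ι u)⁻¹).s • j) i).f i)) =
      (red M (βd (q i) ((u ^ pr h (q i)).f (q i))⁻¹)) ^ (pr (κ h) i / pr h (q i)) := by
    intro i _
    have e1 : Function.minimalPeriod (fun j : Ω => ((ι u)⁻¹).s • j) i = pr (κ h) i := by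
      show pr ((ι u)⁻¹).s i = _
      rw [hts, pr_inv]
    obtain ⟨a, ha⟩ := per_over (Fact.out : ℓ.Prime) hc hs.pgroup hs.fib hcomm i
    have e2 : pr (κ h) i / pr h (q i) = ℓ ^ a := by
      rw [ha, Nat.mul_div_cancel_left _ (pr_pos h (q i))]
    have hfix : h ^ pr h (q i) • q i = q i := (pow_smul_iff h (q i) _).2 dvd_rfl
    have e3 : ((ι u)⁻¹ ^ pr (κ h) i).f i = (((u ^ pr h (q i)).f (q i))⁻¹) ^ (ℓ ^ a) := by
      rw [inv_pow, Wreath.inv_f, pow_s, hus, (pow_smul_iff (κ h) i _).2 dvd_rfl, ← map_pow, hι]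
      show ((u ^ pr (κ h) i).f (q i))⁻¹ = _
      rw [ha, pow_f_mul u (q i) _ _ (by rw [hu]; exact hfix), inv_pow]
    rw [e1, e2, e3, H15.vpow ℓ M hℓM G _ (hβ' i), hβd]
  show red M (ext L (triv G Ω) β' (ι u)⁻¹) = _
  rw [hval, red_prod _ _ (fun i _ => irr_integral (hβ' i) _), Finset.prod_congr rfl h1,
    ← Finset.prod_fiberwise_of_maps_to hover]
  apply Finset.prod_congr rfl
  intro b hb
  rw [← card_fib hc hB hBΩ hover hb, ← Finset.prod_pow_eq_pow_sum]
  apply Finset.prod_congr rfl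
  intro i hi
  rw [(Finset.mem_filter.1 hi).2]

end value

end Pool.Agent.Helper79_WRA.H33
end
end -- Pool.Agent.Helper33_WRA.TesteA

section -- Pool.Agent.Helper46_WRA.Dzo

/-!
WRA, module DZO: orthogonality of characters of defect zero and twists, modulo `M`.
-/

open scoped BigOperators

noncomputable section

namespace Pool.Agent.Helper79_WRA.H46

open Pool.Agent.Helper51_AWC

theorem dzo : DzoStmt := by
  intro ℓ hℓ M hM hℓM G _ _ _hcore n ξ hξ ξ' hξ' η hη htw
  classical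
  have := Fintype.ofFinite G
  have := Fintype.ofFinite (ConjClasses G)
  have hξI : ξ ∈ Irr G := hξ.1
  have hξI' : ξ' ∈ Irr G := hξ'.1
  have hηI : η ∈ Irr G := hη.1
  have hchar : CharP (FF M) ℓ := by
    have h0 : ((ℓ : ℕ) : FF M) = 0 := by
      have : (Ideal.Quotient.mk M) (ℓ : integralClosure ℤ ℂ) = 0 :=
        Ideal.Quotient.eq_zero_iff_mem.2 hℓM
      rw [← this, map_natCast]
    have hnt : Nontrivial (FF M) := Ideal.Quotient.nontrivial_iff.2 hM.ne_top
    exact (CharP.charP_iff_prime_eq_zero hℓ.out).2 h0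
  -- the sum over the classes
  have hsum : ∀ (φ ψ : G → ℂ), φ ∈ Irr G → (∀ g h, ψ (h * g * h⁻¹) = ψ g) →
      (∑ g, φ g * ψ g⁻¹) / φ 1 = ∑ K : ConjClasses G,
        omega (MonoidHom.id G) φ (Quotient.out K) * ψ (Quotient.out K)⁻¹ := by
    intro φ ψ hφ hψ
    rw [sum_classes (irr_one_ne hφ) hψ, mul_div_cancel_left₀ _ (irr_one_ne hφ)]
  have hval : val (fun y => (η y⁻¹) ^ (ℓ ^ n)) ξ' = ∑ K : ConjClasses G,
      omega (MonoidHom.id G) ξ' (Quotient.out K) * (η (Quotient.out K)⁻¹) ^ (ℓ ^ n) := by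
    rw [val_eq, ← hsum ξ' (fun g => (η g) ^ (ℓ ^ n)) hξI'
      (fun g h => by simp only [irr_conj hηI])]
    congr 1
    exact Finset.sum_congr rfl fun g _ => mul_comm _ _
  have hint : ∀ K : ConjClasses G, IsIntegral ℤ (omega (MonoidHom.id G) ξ' (Quotient.out K) *
      (η (Quotient.out K)⁻¹) ^ (ℓ ^ n)) := fun K =>
    (omega_integral _ hξI' _).mul ((irr_integral hηI _).pow _)
  have hred : red M (val (fun y => (η y⁻¹) ^ (ℓ ^ n)) ξ') =
      (red M ((∑ g, ξ g * η g⁻¹) / ξ 1)) ^ (ℓ ^ n) := by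
    rw [hval, hsum ξ η hξI (fun g h => irr_conj hηI g h),
      red_sum _ _ (fun K _ => hint K),
      red_sum _ _ (fun K _ => (omega_integral _ hξI _).mul (irr_integral hηI _)),
      sum_pow_char_pow]
    refine Finset.sum_congr rfl fun K _ => ?_
    rw [red_mul (omega_integral _ hξI' _) ((irr_integral hηI _).pow _),
      red_mul (omega_integral _ hξI _) (irr_integral hηI _), mul_pow,
      red_pow (irr_integral hηI _)]
    congr 1
    exact htw (Quotient.out K)
  refine ⟨?_, ?_, ?_⟩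
  · rw [hval]
    exact IsIntegral.sum _ fun K _ => hint K
  · rintro rfl
    rw [hred, irr_orth_self hξI, Nat.card_eq_fintype_card]
  · intro hne
    rw [hred, irr_orth_ne hξI hηI (Ne.symm hne), zero_div, red_zero,
      zero_pow (pow_ne_zero n hℓ.out.ne_zero)]

end Pool.Agent.Helper79_WRA.H46
end
end -- Pool.Agent.Helper46_WRA.Dzo

section -- Pool.Agent.Helper33_WRA.Teste

/-!
WRA, module TESTE: evaluation of the inner sum.
-/

open scoped BigOperators

noncomputable section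

namespace Pool.Agent.Helper79_WRA.H33

open Pool.Agent.Helper51_AWC Pool.Agent.Helper79_WRA.H13

/-- `|G| / χ(1)` is a natural number -/
theorem codeg_nat {G : Type} [Group G] [Finite G] {χ : G → ℂ} (hχ : χ ∈ Irr G) :
    ∃ u : ℕ, (Nat.card G : ℂ) / χ 1 = u := by
  classical
  have := Fintype.ofFinite G
  have := Fintype.ofFinite (ConjClasses G)
  have h1 : IsIntegral ℤ ((Nat.card G : ℂ) / χ 1) := by
    rw [Nat.card_eq_fintype_card, codeg_eq hχ]
    exact IsIntegral.sum _ fun K _ => (omega_integral _ hχ _).mul (irr_integral hχ _)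
  obtain ⟨d, hd, hd'⟩ := irr_one hχ
  have h2 : (Nat.card G : ℂ) / χ 1 = algebraMap ℚ ℂ ((Nat.card G : ℚ) / d) := by
    rw [hd', map_div₀, map_natCast, map_natCast]
  rw [h2] at h1
  have h3 : IsIntegral ℤ ((Nat.card G : ℚ) / d) :=
    (isIntegral_algebraMap_iff (algebraMap ℚ ℂ).injective).1 h1
  obtain ⟨z, hz⟩ := IsIntegrallyClosed.isIntegral_iff.1 h3
  have h4 : (0 : ℤ) ≤ z := by
    have h5 : (0 : ℚ) ≤ (z : ℚ) := by
      have h6 : (z : ℚ) = (Nat.card G : ℚ) / d := hz
      rw [h6]; positivity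
    exact_mod_cast h5
  obtain ⟨u, rfl⟩ := Int.eq_ofNat_of_zero_le h4
  refine ⟨u, ?_⟩
  rw [h2, ← hz]
  simp

theorem natCast_pow_pow {F : Type*} [CommRing F] {ℓ : ℕ} [Fact ℓ.Prime] [CharP F ℓ] (u n : ℕ) :
    ((u : F)) ^ (ℓ ^ n) = u := by
  have h1 : (iterateFrobenius F ℓ n) (u : F) = (u : F) := map_natCast _ u
  rw [iterateFrobenius_def] at h1
  exact h1

section main

variable {ℓ : ℕ} {G Ω L Δ K : Type} [Group G] [Finite G] [Fintype Ω] [Group L] [Finite L]
  [MulAction L Ω] [Fintype Δ] [Group K] [Finite K] [MulAction K Δ]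

omit [Fintype Δ] [Finite K] in
theorem phi_base {q : Ω → Δ} {κ : K →* L} {ι : Wreath G Δ K →* Wreath G Ω L} {P : Subgroup L}
    (hs : Sit ℓ q κ ι P) {β' : Ω → G → ℂ} (hβ' : ∀ i, β' i ∈ Irr G) (x : Wreath G Δ K)
    (a : Δ → G) :
    ex L β' (ι (Wreath.base a * x * (Wreath.base a)⁻¹))⁻¹ = ex L β' (ι x)⁻¹ := by
  have hι := hs.iota
  have h1 : ι (Wreath.base a) = Wreath.base (fun i => a (q i)) := by
    rw [hι]
    apply Wreath.ext
    · rfl
    · show κ 1 = 1
      exact map_one κ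
  have h2 : (ι (Wreath.base a * x * (Wreath.base a)⁻¹))⁻¹ =
      Wreath.base (fun i => a (q i)) * (ι x)⁻¹ * (Wreath.base (fun i => a (q i)))⁻¹ := by
    rw [map_mul, map_mul, map_inv, h1]
    group
  rw [h2]
  have hX := isExt_ext (K := L) (isChars_triv hβ')
  apply IrrS_class hX.mem
  rw [mem_stX_triv hβ']
  intro i
  rw [Wreath.base_s, inv_one, one_smul]

open Classical in
/-- the model function -/
def Psi (h : K) (B : Finset Δ) (βd : Δ → G → ℂ) (s : Δ → ℕ) (t : Wreath G Δ K) : ℂ :=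
  if t.s = h then ∏ b ∈ B, (βd b ((t ^ pr h b).f b)⁻¹) ^ s b else 0

omit [Finite G] [Fintype Δ] [Finite K] in
theorem Psi_base {h : K} {B : Finset Δ} {βd : Δ → G → ℂ} (hβd : ∀ b, βd b ∈ Irr G)
    (s : Δ → ℕ) (x : Wreath G Δ K) (a : Δ → G) :
    Psi h B βd s (Wreath.base a * x * (Wreath.base a)⁻¹) = Psi h B βd s x := by
  have h1 : (Wreath.base a * x * (Wreath.base a)⁻¹).s = x.s := by
    rw [Wreath.conj_s, Wreath.base_s, one_mul, inv_one, mul_one]
  unfold Psi
  by_cases hx : x.s = h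
  · rw [if_pos (h1.trans hx), if_pos hx]
    apply Finset.prod_congr rfl
    intro b _
    congr 1
    rw [conj_pow, Wreath.conj_f]
    simp only [Wreath.base_f, Wreath.base_s, inv_one, one_smul, one_mul, mul_one]
    have h2 : ((x ^ pr h b).s)⁻¹ • b = b := by
      rw [pow_s, hx, inv_smul_eq_iff]
      exact ((pow_smul_iff h b _).2 dvd_rfl).symm
    rw [h2]
    have h3 : (a b * (x ^ pr h b).f b * (a b)⁻¹)⁻¹ = a b * ((x ^ pr h b).f b)⁻¹ * (a b)⁻¹ := by
      group
    rw [h3, irr_conj (hβd b)]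
  · rw [if_neg (fun h' => hx (h1.symm.trans h')), if_neg hx]

omit [Finite G] [Fintype Δ] in
theorem Psi_gauge {h : K} {B : Finset Δ} (hB : IsBase h B) (βd : Δ → G → ℂ) (s : Δ → ℕ)
    {y : Δ → G} (hy : ∀ j, j ∉ B → y j = 1) :
    Psi h B βd s (⟨y, h⟩ : Wreath G Δ K) = ∏ b ∈ B, (βd b (y b)⁻¹) ^ s b := by
  classical
  unfold Psi
  rw [if_pos rfl]
  have h1 : y = yz B y := by
    funext j
    unfold yz
    split_ifs with hj
    · rfl
    · exact hy j hj
  apply Finset.prod_congr rfl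
  intro b hb
  have hpos := pr_pos h b
  obtain ⟨m, hm⟩ : ∃ m, pr h b = m + 1 := ⟨pr h b - 1, by omega⟩
  have h2 := (pow_yz (G := G) hB y hb m (by
    show m < pr h b
    omega)).1
  rw [← h1] at h2
  rw [hm, h2]

theorem Psi_sum {h : K} {B : Finset Δ} (hB : IsBase h B) {α βd : Δ → G → ℂ}
    (hα : ∀ j, α j ∈ Irr G) (hβd : ∀ b, βd b ∈ Irr G) (hh : h ∈ LL K α) (s : Δ → ℕ)
    [DecidableEq Δ] [DecidableEq G] :
    (∑ᶠ w : Δ → G, Psi h B βd s (⟨w, h⟩ : Wreath G Δ K) * ex K α ⟨w, h⟩) / ∏ j, α j 1 =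
      (∏ j, if j ∈ B then 1 else (Nat.card G : ℂ) / α j 1) *
        ∏ b ∈ B, val (fun y => (βd b y⁻¹) ^ s b) (α b) := by
  have := Fintype.ofFinite G
  have hX := isExt_ext (K := K) (isChars_triv hα)
  have hone : ∀ j, α j 1 ≠ 0 := fun j => irr_one_ne (hα j)
  have h1 := hX.form h hh B hB (Psi h B βd s) (fun x a => Psi_base hβd s x a)
  have h2 : ∑ᶠ (y : Δ → G) (_ : ∀ j, j ∉ B → y j = 1),
      Psi h B βd s (⟨y, h⟩ : Wreath G Δ K) * ∏ b ∈ B, α b (y b) =
      ∑ y : Δ → G, ∏ j, (if j ∈ B then (βd j (y j)⁻¹) ^ s j * α j (y j) else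
        if y j = 1 then 1 else 0) := by
    classical
    rw [finsum_eq_sum_of_fintype]
    refine Finset.sum_congr rfl fun y _ => ?_
    rw [finsum_eq_if]
    split_ifs with hy
    · rw [Psi_gauge hB βd s hy, ← Finset.prod_mul_distrib]
      rw [← Finset.prod_subset (Finset.subset_univ B)]
      · exact Finset.prod_congr rfl fun i hi => by rw [if_pos hi]
      · intro i _ hi
        rw [if_neg hi, if_pos (hy i hi)]
    · push Not at hy
      obtain ⟨j, hj, hj2⟩ := hy
      symm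
      apply Finset.prod_eq_zero (Finset.mem_univ j)
      rw [if_neg hj, if_neg hj2]
  have h3 : ∑ y : Δ → G, ∏ j, (if j ∈ B then (βd j (y j)⁻¹) ^ s j * α j (y j) else
        if y j = 1 then 1 else 0) =
      ∏ j, ∑ g : G, (if j ∈ B then (βd j g⁻¹) ^ s j * α j g else if g = 1 then 1 else 0) := by
    rw [Finset.prod_univ_sum, Fintype.piFinset_univ]
  have h4 : ∏ j, ∑ g : G, (if j ∈ B then (βd j g⁻¹) ^ s j * α j g else
      if g = 1 then 1 else 0) =
      ∏ j, (if j ∈ B then val (fun y => (βd j y⁻¹) ^ s j) (α j) * α j 1 else 1) := by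
    apply Finset.prod_congr rfl
    intro j _
    by_cases hj : j ∈ B
    · simp only [if_pos hj]
      rw [val_eq, div_mul_cancel₀ _ (hone j)]
    · simp only [if_neg hj]
      rw [Finset.sum_ite_eq']
      simp
  have h5 : (∏ j, if j ∈ B then (1 : ℂ) else (Nat.card (colStab (triv G Δ) j) : ℂ)) =
      ∏ j, if j ∈ B then (1 : ℂ) else (Nat.card G : ℂ) := by
    apply Finset.prod_congr rfl
    intro j _
    rw [colStab_triv, Subgroup.card_top]
  have h1' : ∑ᶠ w : Δ → G, Psi h B βd s (⟨w, h⟩ : Wreath G Δ K) * ex K α ⟨w, h⟩ =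
      (∏ j, if j ∈ B then (1 : ℂ) else (Nat.card (colStab (triv G Δ) j) : ℂ)) *
        ∑ᶠ (y : Δ → G) (_ : ∀ j, j ∉ B → y j = 1),
          Psi h B βd s (⟨y, h⟩ : Wreath G Δ K) * ∏ b ∈ B, α b (y b) := by
    rw [show (∑ᶠ w : Δ → G, Psi h B βd s (⟨w, h⟩ : Wreath G Δ K) * ex K α ⟨w, h⟩) = _ from h1]
    refine congrArg (fun z => z * _) ?_
    apply Finset.prod_congr rfl
    intro j _
    split_ifs <;> rfl
  rw [h1', h2, h3, h4, h5]
  have h6 : ∏ b ∈ B, val (fun y => (βd b y⁻¹) ^ s b) (α b) =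
      ∏ j, (if j ∈ B then val (fun y => (βd j y⁻¹) ^ s j) (α j) else 1) := by
    rw [← Finset.prod_subset (Finset.subset_univ B)]
    · exact Finset.prod_congr rfl fun i hi => by rw [if_pos hi]
    · intro i _ hi
      rw [if_neg hi]
  rw [h6, ← Finset.prod_mul_distrib, ← Finset.prod_mul_distrib, ← Finset.prod_div_distrib]
  apply Finset.prod_congr rfl
  intro j _
  split_ifs
  · rw [one_mul, one_mul, mul_div_assoc, div_self (hone j), mul_one]
  · rw [mul_one, mul_one]

end main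

/-- TESTE -/
theorem teste (hdzu : DzuStmt) : TesteStmt := by
  classical
  intro ℓ hℓ M hM hℓM G _ _ hcore Ω L Δ K _ _ _ _ _ _ _ _ q κ ι P β α hs ht h hh hcomm β' hdz'
    hfib' hκh
  have hchar : CharP (FF M) ℓ := H15.charP_FF hℓM
  have hfield : IsDomain (FF M) := Ideal.Quotient.isDomain M
  have hβ : ∀ i, β i ∈ Irr G := fun i => (ht.dz i).1
  have hβ' : ∀ i, β' i ∈ Irr G := fun i => (hdz' i).1
  have hα : ∀ j, α j ∈ Irr G := fun j => (ht.dz' j).1
  -- the functions on `Δ`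
  obtain ⟨sec, hsec⟩ := hs.surj.hasRightInverse
  let βd : Δ → G → ℂ := fun j => β' (sec j)
  let βe : Δ → G → ℂ := fun j => β (sec j)
  have hβd : ∀ i, βd (q i) = β' i := fun i => hfib' _ _ (hsec (q i))
  have hβe : ∀ i, βe (q i) = β i := fun i => ht.fib _ _ (hsec (q i))
  have hβdI : ∀ j, βd j ∈ Irr G := fun j => hβ' _
  have hβeI : ∀ j, βe j ∈ Irr G := fun j => hβ _
  have hdeg : ∀ j, α j 1 = βe j 1 := by
    intro j
    have := ht.deg (sec j)
    rw [hsec j] at this
    exact this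
  let s : Δ → ℕ := fun j => Nat.card {i : Ω // q i = j}
  -- the fibres
  have hsn : ∀ j, ∃ n, s j = ℓ ^ n := by
    intro j
    obtain ⟨n, hn⟩ := hs.pgroup.card_orbit (sec j)
    refine ⟨n, ?_⟩
    rw [← hn]
    apply Nat.card_congr
    refine Equiv.subtypeEquivRight ?_
    intro i
    rw [MulAction.mem_orbit_iff]
    constructor
    · intro hi
      obtain ⟨p, hp, hpi⟩ := (hs.fib (sec j) i).1 (by rw [hsec j, hi])
      exact ⟨⟨p, hp⟩, hpi⟩
    · rintro ⟨p, hpi⟩
      have := (hs.fib (sec j) i).2 ⟨p, p.2, hpi⟩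
      rw [← this, hsec j]
  choose nn hnn using hsn
  -- the base points
  obtain ⟨B, hB⟩ := exists_base (Δ := Δ) h
  -- the comparison function
  let D : Wreath G Δ K → ℂ := fun t =>
    if t.s = h then ex L β' (ι t)⁻¹ - Psi h B βd s t else 0
  have hDb : ∀ x (a : Δ → G), D (Wreath.base a * x * (Wreath.base a)⁻¹) = D x := by
    intro x a
    have h1 : (Wreath.base a * x * (Wreath.base a)⁻¹).s = x.s := by
      rw [Wreath.conj_s, Wreath.base_s, one_mul, inv_one, mul_one]
    simp only [D]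
    rw [h1, phi_base hs hβ', Psi_base hβdI]
  have hDM : ∀ t, Cong M (D t) 0 := by
    intro t
    simp only [D]
    split_ifs with ht'
    · rw [← cong_iff_sub]
      obtain ⟨hi, hr⟩ := ex_red hℓM hs hcomm hβ' hκh βd hβd hB t ht'
      have hψ : Psi h B βd s t = ∏ b ∈ B, (βd b ((t ^ pr h b).f b)⁻¹) ^ s b := if_pos ht'
      have hi2 : ∀ b ∈ B, IsIntegral ℤ ((βd b ((t ^ pr h b).f b)⁻¹) ^ s b) := fun b _ =>
        (irr_integral (hβdI b) _).pow _
      have hi3 : IsIntegral ℤ (Psi h B βd s t) := by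
        rw [hψ]; exact IsIntegral.prod _ hi2
      rw [← red_eq_iff hi hi3, hr, hψ, red_prod _ _ hi2]
      apply Finset.prod_congr rfl
      intro b _
      rw [red_pow (irr_integral (hβdI b) _)]
    · exact Cong.refl _
  have hEE : Cong M (EE ι β' α h)
      ((∑ᶠ w : Δ → G, Psi h B βd s (⟨w, h⟩ : Wreath G Δ K) * ex K α ⟨w, h⟩) /
        ∏ j, α j 1) := by
    have h1 := (formi G Δ K M (triv G Δ) α (isChars_triv hα) h hh D hDb).2 hDM
    have := Fintype.ofFinite G
    rw [cong_iff_sub]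
    have h2 : EE ι β' α h - (∑ᶠ w : Δ → G, Psi h B βd s (⟨w, h⟩ : Wreath G Δ K) *
        ex K α ⟨w, h⟩) / ∏ j, α j 1 =
        (∑ᶠ w : Δ → G, D ⟨w, h⟩ * ext K (triv G Δ) α ⟨w, h⟩) / ∏ j, α j 1 := by
      unfold EE
      rw [← sub_div, finsum_eq_sum_of_fintype, finsum_eq_sum_of_fintype,
        finsum_eq_sum_of_fintype, ← Finset.sum_sub_distrib]
      congr 1
      apply Finset.sum_congr rfl
      intro w _
      have h3 : D ⟨w, h⟩ = ex L β' (ι ⟨w, h⟩)⁻¹ - Psi h B βd s ⟨w, h⟩ := if_pos rfl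
      rw [h3]
      ring
    rw [h2]
    exact h1
  rw [Psi_sum hB hα hβdI hh s] at hEE
  -- the local factors
  have hV : ∀ b, IsIntegral ℤ (val (fun y => (βd b y⁻¹) ^ s b) (α b)) ∧
      (βd b = βe b → Cong M (val (fun y => (βd b y⁻¹) ^ s b) (α b))
        (((Nat.card G : ℂ) / α b 1) ^ s b)) ∧
      (βd b ≠ βe b → Cong M (val (fun y => (βd b y⁻¹) ^ s b) (α b)) 0) := by
    intro b
    have htw := ht.tw (sec b) (nn b) (by
      rw [hsec b]
      exact hnn b)
    rw [hsec b] at htw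
    obtain ⟨h1, h2, h3⟩ := H46.dzo ℓ M hℓM G hcore (nn b) (βe b) (ht.dz _) (α b) (ht.dz' b)
      (βd b) (hdz' _) htw
    rw [← hnn b] at h1 h2 h3
    refine ⟨h1, fun hb => ?_, fun hb => ?_⟩
    · have h4 : IsIntegral ℤ ((Nat.card G : ℂ) / α b 1) := by
        obtain ⟨u, hu⟩ := codeg_nat (hα b)
        rw [hu]; exact AI.natCast u
      rw [← red_eq_iff h1 (h4.pow _), h2 hb, red_pow h4, hdeg b]
    · rw [← red_eq_iff h1 isIntegral_zero, h3 hb, red_zero]
  have hU : ∀ j, ∃ u : ℕ, (Nat.card G : ℂ) / α j 1 = u := fun j => codeg_nat (hα j)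
  choose u hu using hU
  have huI : ∀ j, IsIntegral ℤ ((Nat.card G : ℂ) / α j 1) := by
    intro j
    rw [hu j]; exact AI.natCast _
  have hA : IsIntegral ℤ (∏ j, if j ∈ B then (1 : ℂ) else (Nat.card G : ℂ) / α j 1) := by
    apply IsIntegral.prod
    intro j _
    split_ifs
    · exact isIntegral_one
    · exact huI j
  constructor
  · -- equal families
    intro heq
    have hde : ∀ b, βd b = βe b := fun b => by
      show β' (sec b) = β (sec b)
      rw [heq]
    refine hEE.trans ?_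
    have h1 : uu β = ∏ j, ((Nat.card G : ℂ) / α j 1) ^ s j := by
      unfold uu
      rw [← Finset.prod_fiberwise Finset.univ q]
      apply Finset.prod_congr rfl
      intro j _
      have h2 : ∀ i ∈ Finset.univ.filter (fun i => q i = j),
          (Nat.card G : ℂ) / β i 1 = (Nat.card G : ℂ) / α j 1 := by
        intro i hi
        rw [hdeg j, ← (Finset.mem_filter.1 hi).2, hβe i]
      rw [Finset.prod_congr rfl h2, Finset.prod_const]
      congr 1
      show _ = Nat.card {i : Ω // q i = j}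
      rw [Nat.card_eq_fintype_card, Fintype.card_subtype]
    have h2 : ∏ j, ((Nat.card G : ℂ) / α j 1) ^ s j =
        (∏ j, if j ∈ B then (1 : ℂ) else ((Nat.card G : ℂ) / α j 1) ^ s j) *
          ∏ b ∈ B, ((Nat.card G : ℂ) / α b 1) ^ s b := by
      have h3 : ∏ b ∈ B, ((Nat.card G : ℂ) / α b 1) ^ s b =
          ∏ j, (if j ∈ B then ((Nat.card G : ℂ) / α j 1) ^ s j else 1) := by
        rw [← Finset.prod_subset (Finset.subset_univ B)]
        · exact Finset.prod_congr rfl fun i hi => by rw [if_pos hi]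
        · intro i _ hi
          rw [if_neg hi]
      rw [h3, ← Finset.prod_mul_distrib]
      apply Finset.prod_congr rfl
      intro j _
      split_ifs
      · rw [one_mul]
      · rw [mul_one]
    rw [h1, h2]
    have hVI : IsIntegral ℤ (∏ b ∈ B, val (fun y => (βd b y⁻¹) ^ s b) (α b)) :=
      IsIntegral.prod _ fun b _ => (hV b).1
    refine Cong.mul ?_ ?_ ?_ hVI
    · refine Cong.prod' _ _ _ (fun j _ => ?_) (fun j _ => ?_) (fun j _ => ?_)
      · split_ifs
        · exact Cong.refl _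
        · rw [← red_eq_iff (huI j) ((huI j).pow _), red_pow (huI j), hu j, H15.red_natCast,
            hnn j]
          have hF : ((u j : FF M)) ^ (ℓ ^ nn j) = u j := by
            exact natCast_pow_pow (F := FF M) (u j) (nn j)
          exact hF.symm
      · split_ifs
        · exact isIntegral_one
        · exact huI j
      · split_ifs
        · exact isIntegral_one
        · exact (huI j).pow _
    · exact Cong.prod' _ _ _ (fun b _ => (hV b).2.1 (hde b)) (fun b _ => (hV b).1)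
        (fun b _ => (huI b).pow _)
    · apply IsIntegral.prod
      intro j _
      split_ifs
      · exact isIntegral_one
      · exact (huI j).pow _
  · -- different families
    intro hne
    refine hEE.trans ?_
    -- invariance of `β` under `κ h`
    have hβinv : ∀ i, β (κ h • i) = β i := by
      intro i
      apply hdzu ℓ M hℓM G hcore _ (ht.dz _) _ (hβ i)
      funext g
      have e1 : q (κ h • i) = h • q i := hs.compat h i
      have e2 : α (q (κ h • i)) = α (q i) := by rw [e1, LL_smul hα hh]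
      have hcard : Nat.card {i' : Ω // q i' = q (κ h • i)} = Nat.card {i' : Ω // q i' = q i} := by
        apply Nat.card_congr
        refine (Equiv.subtypeEquiv (MulAction.toPerm (κ h) : Equiv.Perm Ω) ?_).symm
        intro i'
        show q i' = q i ↔ q (κ h • i') = q (κ h • i)
        rw [hs.compat, hs.compat]
        exact ⟨fun h' => by rw [h'], fun h' => MulAction.injective h h'⟩
      have t1 := ht.tw i (nn (q i)) (hnn (q i)) g
      have t2 := ht.tw (κ h • i) (nn (q i)) (hcard.trans (hnn (q i))) g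
      rw [e2, t1] at t2
      exact (iterateFrobenius_inj (FF M) ℓ (nn (q i)) (by
        rw [iterateFrobenius_def, iterateFrobenius_def]
        exact t2)).symm
    have hex : ∃ b ∈ B, βd b ≠ βe b := by
      by_contra hcon
      push Not at hcon
      apply hne
      have h1 : ∀ j, ∀ i, q i = j → β' i = β i := by
        apply cyc_ind hB
        · intro b hb i hi
          rw [← hβd i, ← hβe i, hi, hcon b hb]
        · intro j _ ih i hi
          have h2 := ih ((κ h)⁻¹ • i) (by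
            rw [← map_inv, hs.compat, hi])
          have h3 := hβinv ((κ h)⁻¹ • i)
          rw [smul_inv_smul] at h3
          have h4 := LL_smul hβ' hκh ((κ h)⁻¹ • i)
          rw [smul_inv_smul] at h4
          rw [h4, h2, ← h3]
      funext i
      exact h1 (q i) i rfl
    obtain ⟨b, hb, hbne⟩ := hex
    refine Cong.mul_zero_left ?_ hA
    rw [← Finset.mul_prod_erase B _ hb]
    exact ((hV b).2.2 hbne).mul_zero_right (IsIntegral.prod _ fun b _ => (hV b).1)

end Pool.Agent.Helper79_WRA.H33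
end
end -- Pool.Agent.Helper33_WRA.Teste

section -- Pool.Agent.Helper40_WRA.Aform

/-!
WRA, module AFORM: the values depend only on the label of the character of the top group.
-/

open scoped BigOperators

noncomputable section

namespace Pool.Agent.Helper79_WRA.H40

open Pool.Agent.Helper51_AWC Pool.Agent.Helper79_WRA Pool.Agent.Helper79_WRA.H13

theorem isExt_ext (hext : ExtStmt) {G Δ K : Type} [Group G] [Finite G] [Fintype Δ] [Group K]
    [Finite K] [MulAction K Δ] {v : Finset (Δ → Subgroup G)} {α : Δ → G → ℂ}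
    (hα : IsChars v α) : IsExt K v α (ext K v α) := by
  have h := hext G Δ K v α hα
  unfold ext
  rw [dif_pos h]
  exact h.choose_spec

theorem Sh_integral {G Δ K : Type} [Group G] [Group K] [MulAction K Δ] [Finite G] [Fintype Δ]
    {v : Finset (Δ → Subgroup G)} {α : Δ → G → ℂ} {X : Wreath G Δ K → ℂ}
    (hα : IsChars v α) (hX : IsExt K v α X) {h : K} (hh : h ∈ topSt K v α)
    {Φ : Wreath G Δ K → ℂ} (hΦ : ∀ x y, Φ (y * x * y⁻¹) = Φ x) (hI : ∀ x, IsIntegral ℤ (Φ x)) :
    IsIntegral ℤ (Sh Φ X h / ∏ j, α j 1) := by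
  classical
  have := Fintype.ofFinite (ConjClasses G)
  obtain ⟨B, hB⟩ := exists_base (Δ := Δ) h
  rw [Sh_eq hα hX hh hB hΦ]
  refine IsIntegral.mul (IsIntegral.prod _ fun j _ => ?_) (IsIntegral.sum _ fun C _ =>
    (hI _).mul (IsIntegral.prod _ fun i _ => omB_integral hα B i _))
  split_ifs
  · exact isIntegral_one
  · exact card_div_integral (hα j)

/-- class sums of a character extended by zero are values of `ulab` -/
theorem class_ulab {K : Type} [Group K] [Finite K] {U : Subgroup K} [Fintype U]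
    [DecidableEq (ConjClasses U)] (lam : K → ℂ) (h : U) :
    (∑ x ∈ Finset.univ.filter (fun x : U => ConjClasses.mk x = ConjClasses.mk h),
      lam x) / lam 1 = ulab U lam h := by
  classical
  have := Fintype.ofFinite K
  unfold ulab
  congr 1
  rw [finsum_eq_sum_of_fintype]
  have h1 : ∀ x : K, (∑ᶠ (_ : ∃ u ∈ U, x = u * (h : K) * u⁻¹), lam x) =
      if ∃ u ∈ U, x = u * (h : K) * u⁻¹ then lam x else 0 := fun x => finsum_eq_if
  simp_rw [h1]
  rw [← Finset.sum_filter]
  refine Finset.sum_bij (fun (x : U) _ => (x : K)) ?_ ?_ ?_ ?_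
  · intro x hx
    have h2 := (Finset.mem_filter.1 hx).2
    obtain ⟨c, hc⟩ := isConj_iff.1 (ConjClasses.mk_eq_mk_iff_isConj.1 h2.symm)
    refine Finset.mem_filter.2 ⟨Finset.mem_univ _, c, c.2, ?_⟩
    rw [← hc]
    rfl
  · intro x _ y _ hxy
    exact Subtype.ext hxy
  · intro x hx
    obtain ⟨u, hu, h2⟩ := (Finset.mem_filter.1 hx).2
    refine ⟨⟨x, ?_⟩, ?_, rfl⟩
    · rw [h2]
      exact U.mul_mem (U.mul_mem hu h.2) (U.inv_mem hu)
    · refine Finset.mem_filter.2 ⟨Finset.mem_univ _, ?_⟩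
      refine (ConjClasses.mk_eq_mk_iff_isConj.2 (isConj_iff.2 ⟨⟨u, hu⟩, ?_⟩)).symm
      apply Subtype.ext
      exact h2.symm
  · intro x _
    rfl

theorem sum_subtype_of_zero {K : Type} [Fintype K] (U : Set K) [Fintype U] (F : K → ℂ)
    (hF : ∀ h, h ∉ U → F h = 0) : ∑ h : K, F h = ∑ h : U, F h := by
  classical
  have h2 : ∀ h : K, F h = if h ∈ U then F h else 0 := by
    intro h
    split_ifs with hh
    · rfl
    · exact hF h hh
  have h3 : ∑ h : K, F h = ∑ h : K, if h ∈ U then F h else 0 :=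
    Finset.sum_congr rfl fun h _ => h2 h
  rw [h3, ← Finset.sum_filter]
  symm
  refine Finset.sum_bij (fun (x : U) _ => (x : K)) ?_ ?_ ?_ ?_
  · intro x _; simp
  · intro x _ y _ hxy; exact Subtype.ext hxy
  · intro x hx
    exact ⟨⟨x, (Finset.mem_filter.1 hx).2⟩, Finset.mem_univ _, rfl⟩
  · intro x _; rfl

/-- the value in terms of the labels of `lam` -/
theorem val_eta_ulab {G Δ K : Type} [Group G] [Finite G] [Fintype Δ] [Group K] [Finite K]
    [MulAction K Δ] {v : Finset (Δ → Subgroup G)} {α : Δ → G → ℂ}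
    (hX : IsExt K v α (ext K v α)) {Φ : Wreath G Δ K → ℂ} (hΦ : ∀ x y, Φ (y * x * y⁻¹) = Φ x)
    {lam : K → ℂ} (hlam : lam ∈ IrrS (topSt K v α)) [Fintype (ConjClasses (topSt K v α))] :
    val Φ (eta v α lam) = ∑ C : ConjClasses (topSt K v α),
      (Sh Φ (ext K v α) (Quotient.out C : topSt K v α) / ∏ j, α j 1) *
        ulab (topSt K v α) lam (Quotient.out C : topSt K v α) := by
  classical
  have := Fintype.ofFinite K
  have := Fintype.ofFinite (topSt K v α)
  rw [val_eta hX]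
  rw [sum_subtype_of_zero (topSt K v α : Set K)
    (fun h => lam h * (Sh Φ (ext K v α) h / ∏ j, α j 1))
    (fun h hh => by rw [hlam.1 h hh, zero_mul])]
  have h1 : ∑ h : (topSt K v α : Set K), lam h * (Sh Φ (ext K v α) h / ∏ j, α j 1) =
      ∑ h : topSt K v α, (fun h : topSt K v α => Sh Φ (ext K v α) h / ∏ j, α j 1) h *
        (fun h : topSt K v α => lam h) h :=
    Finset.sum_congr rfl fun h _ => mul_comm _ _
  rw [h1, sum_class1 (fun h : topSt K v α => Sh Φ (ext K v α) h / ∏ j, α j 1)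
    (fun h : topSt K v α => lam h) (fun x y => by
      show Sh Φ (ext K v α) ((y : K) * x * (y : K)⁻¹) / _ = _
      rw [Sh_conj hX.mem y.2 hΦ]), Finset.sum_div]
  refine Finset.sum_congr rfl fun C _ => ?_
  rw [mul_div_assoc]
  congr 1
  have h2 : ConjClasses.mk (Quotient.out C) = C := Quotient.out_eq C
  rw [← class_ulab lam (Quotient.out C), h2]

theorem aform (hext : ExtStmt) : AformStmt := by
  classical
  intro G Δ K _ _ _ _ _ _ M v α hα lam hlam lam' hlam' hlab Φ hΦ hI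
  have hX := isExt_ext hext (K := K) hα
  have := Fintype.ofFinite K
  have := Fintype.ofFinite (topSt K v α)
  have := Fintype.ofFinite (ConjClasses (topSt K v α))
  rw [val_eta_ulab hX hΦ hlam, val_eta_ulab hX hΦ hlam']
  apply Cong.sum
  intro C _
  exact (hlab _ (Quotient.out C : topSt K v α).2).mul_left
    (Sh_integral hα hX (Quotient.out C : topSt K v α).2 hΦ hI)

end Pool.Agent.Helper79_WRA.H40
end
end -- Pool.Agent.Helper40_WRA.Aform

section -- Pool.Agent.Helper40_WRA.Cls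

/-!
WRA, module CLS: classification of the irreducible characters of the wreath product.
-/

open scoped BigOperators

noncomputable section

namespace Pool.Agent.Helper79_WRA.H40

open Pool.Agent.Helper51_AWC Pool.Agent.Helper79_WRA Pool.Agent.Helper79_WRA.H13

variable {G Ω L : Type} [Group G] [Group L] [MulAction L Ω]

theorem colStab_triv (j : Ω) : colStab (triv G Ω) j = ⊤ := by
  rw [eq_top_iff]
  intro g _
  rw [mem_colStab]
  intro R hR
  have h : R = fun _ => ⊥ := Finset.mem_singleton.1 hR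
  rw [h]
  exact Subgroup.map_bot _

theorem isChars_triv {β : Ω → G → ℂ} : IsChars (triv G Ω) β ↔ ∀ i, β i ∈ Irr G := by
  unfold IsChars
  simp only [colStab_triv, mem_IrrS_top]

theorem tw_eq_tr {β : Ω → G → ℂ} (hβ : ∀ i, β i ∈ Irr G) (t : Wreath G Ω L) :
    tw β t = tr t.s⁻¹ β := by
  funext j y
  show β (t.s • j) (t.f (t.s • j) * y * (t.f (t.s • j))⁻¹) = β (t.s⁻¹⁻¹ • j) y
  rw [irr_conj (hβ _), inv_inv]

theorem tr_one (β : Ω → G → ℂ) : tr (1 : L) β = β := by
  funext i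
  show β ((1 : L)⁻¹ • i) = β i
  rw [inv_one, one_smul]

theorem tr_mul (l m : L) (β : Ω → G → ℂ) : tr (l * m) β = tr l (tr m β) := by
  funext i
  show β ((l * m)⁻¹ • i) = β (m⁻¹ • (l⁻¹ • i))
  rw [mul_inv_rev, mul_smul]

theorem mem_stX_triv {β : Ω → G → ℂ} (hβ : ∀ i, β i ∈ Irr G) {t : Wreath G Ω L} :
    t ∈ stX L (triv G Ω) β ↔ tr t.s β = β := by
  rw [mem_stX]
  constructor
  · rintro ⟨-, h⟩
    funext j y
    have := h j y
    rw [irr_conj (hβ _)] at this
    exact this.symm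
  · intro h
    refine ⟨?_, ?_⟩
    · intro R hR j
      have h : R = fun _ => ⊥ := Finset.mem_singleton.1 hR
      rw [h]
      exact Subgroup.map_bot _
    · intro j y
      rw [irr_conj (hβ _)]
      exact (congrFun (congrFun h j) y).symm

theorem mem_LL {β : Ω → G → ℂ} (hβ : ∀ i, β i ∈ Irr G) {h : L} :
    h ∈ LL L β ↔ tr h β = β := by
  constructor
  · rintro ⟨t, ht, rfl⟩
    exact (mem_stX_triv hβ).1 ht
  · intro hh
    exact ⟨Wreath.top h, (mem_stX_triv hβ).2 hh, rfl⟩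

theorem card_stX_triv [Finite G] [Fintype Ω] {β : Ω → G → ℂ} (hβ : ∀ i, β i ∈ Irr G) :
    Nat.card (stX L (triv G Ω) β) = Nat.card (Ω → G) * Nat.card (LL L β) := by
  rw [card_stX (isChars_triv.2 hβ)]
  congr 1
  have h : ∀ j : Ω, Nat.card (colStab (triv G Ω) j) = Nat.card G := by
    intro j
    rw [colStab_triv]
    exact Nat.card_congr Subgroup.topEquiv.toEquiv
  simp only [h]
  rw [Nat.card_pi]

theorem card_wreath [Finite G] [Finite Ω] [Finite L] :
    Nat.card (Wreath G Ω L) = Nat.card (Ω → G) * Nat.card L := by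
  rw [Nat.card_congr (Wreath.equivProd G Ω L), Nat.card_prod]

/-- the kernel of the projection -/
def kerE (G Ω L : Type) [Group G] [Group L] [MulAction L Ω] :
    (Wreath.proj : Wreath G Ω L →* L).ker ≃* (Ω → G) where
  toFun t := t.1.f
  invFun y := ⟨Wreath.base y, rfl⟩
  left_inv t := by
    apply Subtype.ext
    exact (eq_base_of_s t.2).symm
  right_inv _ := rfl
  map_mul' t u := by
    funext j
    have h2 : (t.1).s = 1 := t.2
    show ((t.1) * (u.1)).f j = (t.1).f j * (u.1).f j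
    rw [Wreath.mul_f, h2, inv_one, one_smul]

open Classical in
/-- the character of the kernel attached to `β` -/
def nuW [Fintype Ω] (β : Ω → G → ℂ) (t : Wreath G Ω L) : ℂ :=
  if t.s = 1 then ∏ j, β j (t.f j) else 0

theorem nuW_base [Fintype Ω] (β : Ω → G → ℂ) (y : Ω → G) :
    nuW (L := L) β (Wreath.base y) = ∏ j, β j (y j) := by
  unfold nuW
  rw [if_pos (Wreath.base_s y)]
  rfl

section fin

variable [Finite G] [Fintype Ω]

theorem nuW_mem {β : Ω → G → ℂ} (hβ : ∀ i, β i ∈ Irr G) :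
    nuW β ∈ IrrS (Wreath.proj : Wreath G Ω L →* L).ker := by
  classical
  have := Fintype.ofFinite G
  refine ⟨fun t ht => if_neg ht, ?_⟩
  have h1 : piChar (H := fun _ : Ω => G) β ∈ Irr (Ω → G) := piChar_mem hβ
  have h2 := irr_comp_equiv (kerE G Ω L) h1
  have h3 : (fun h : (Wreath.proj : Wreath G Ω L →* L).ker => nuW β (h : Wreath G Ω L)) =
      fun g => piChar (H := fun _ : Ω => G) β (kerE G Ω L g) := by
    funext t
    exact if_pos t.2
  rw [h3]
  exact h2

theorem nuW_inj {α β : Ω → G → ℂ} (hα : ∀ i, α i ∈ Irr G) (hβ : ∀ i, β i ∈ Irr G)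
    (h : nuW (L := L) α = nuW β) : α = β := by
  classical
  have := Fintype.ofFinite G
  refine piChar_inj (H := fun _ : Ω => G) hα hβ ?_
  funext y
  have := congrFun h (Wreath.base y)
  rw [nuW_base, nuW_base] at this
  exact this

theorem nuW_surj (η : Wreath G Ω L → ℂ)
    (hη : η ∈ IrrS (Wreath.proj : Wreath G Ω L →* L).ker) :
    ∃ α : Ω → G → ℂ, (∀ i, α i ∈ Irr G) ∧ nuW α = η := by
  classical
  have := Fintype.ofFinite G
  have h1 := irr_comp_equiv (kerE G Ω L).symm hη.2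
  obtain ⟨α, hα, hα2⟩ := exists_piChar (H := fun _ : Ω => G) h1
  refine ⟨α, hα, ?_⟩
  refine IrrS_ext (nuW_mem hα) hη fun t => ?_
  have h2 := congrFun hα2 (kerE G Ω L t)
  simp only [MulEquiv.symm_apply_apply] at h2
  rw [h2]
  exact if_pos t.2

omit [Finite G] in
theorem nuW_tw (β : Ω → G → ℂ) (t y : Wreath G Ω L) :
    nuW β (t * y * t⁻¹) = nuW (tw β t) y := by
  unfold nuW
  have hs : (t * y * t⁻¹).s = t.s * y.s * t.s⁻¹ := Wreath.conj_s y t
  by_cases h : y.s = 1
  · rw [if_pos h, if_pos (by rw [hs, h, mul_one, mul_inv_cancel])]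
    have h1 : ∀ j, (t * y * t⁻¹).f j = t.f j * y.f (t.s⁻¹ • j) * (t.f j)⁻¹ := by
      intro j
      have h2 := Wreath.conj_f y t j
      rw [h, inv_one, mul_one, mul_inv_cancel, one_smul] at h2
      exact h2
    simp only [h1]
    unfold tw
    rw [← Equiv.prod_comp (MulAction.toPerm t.s)
      (fun j => β j (t.f j * y.f (t.s⁻¹ • j) * (t.f j)⁻¹))]
    refine Finset.prod_congr rfl fun j _ => ?_
    rw [MulAction.toPerm_apply, inv_smul_smul]
  · rw [if_neg h, if_neg]
    rw [hs]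
    intro h2
    apply h
    have : y.s = t.s⁻¹ * (t.s * y.s * t.s⁻¹) * t.s := by group
    rw [this, h2]
    group

theorem mem_T_triv {β : Ω → G → ℂ} (hβ : ∀ i, β i ∈ Irr G) (t : Wreath G Ω L) :
    t ∈ stX L (triv G Ω) β ↔ ∀ y, nuW β (t * y * t⁻¹) = nuW β y := by
  have hinv : tr t.s⁻¹ β = β ↔ tr t.s β = β := by
    constructor
    · intro h
      conv_lhs => rw [← h]
      rw [← tr_mul, mul_inv_cancel, tr_one]
    · intro h
      conv_lhs => rw [← h]
      rw [← tr_mul, inv_mul_cancel, tr_one]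
  rw [mem_stX_triv hβ, ← hinv]
  constructor
  · intro h y
    rw [nuW_tw, tw_eq_tr hβ, h]
  · intro h
    have h1 : nuW (L := L) (tr t.s⁻¹ β) = nuW β := by
      funext y
      rw [← tw_eq_tr hβ, ← nuW_tw, h]
    exact nuW_inj (fun i => hβ _) hβ h1

end fin

theorem et_base [Finite G] [Fintype Ω] {β : Ω → G → ℂ}
    (hX : IsExt L (triv G Ω) β (ext L (triv G Ω) β)) (lam : L → ℂ) {t : Wreath G Ω L}
    (ht : t.s = 1) : et β lam t = nuW β t * lam 1 := by
  show ext L (triv G Ω) β t * lam t.s = _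
  rw [ht, eq_base_of_s ht, hX.base, nuW_base]

/-- the inner products of the restriction of an induced character -/
theorem inner_ind [Finite G] [Fintype Ω] [Finite L] {β γ : Ω → G → ℂ}
    (hβ : ∀ i, β i ∈ Irr G) (hγ : ∀ i, γ i ∈ Irr G)
    (hX : IsExt L (triv G Ω) β (ext L (triv G Ω) β)) (lam : L → ℂ) :
    (∑ᶠ f : Ω → G, ind (stX L (triv G Ω) β) (et β lam) (Wreath.base f) *
      ∏ i, γ i (f i)⁻¹) =
      lam 1 / (Nat.card (stX L (triv G Ω) β) : ℂ) * (Nat.card (Ω → G) : ℂ) *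
        (Nat.card {x : Wreath G Ω L // tr x.s⁻¹ β = γ} : ℂ) := by
  classical
  have := Fintype.ofFinite G
  have := Fintype.ofFinite L
  have := Fintype.ofFinite (Wreath G Ω L)
  rw [finsum_eq_sum_of_fintype]
  have h1 : ∀ f : Ω → G, ind (stX L (triv G Ω) β) (et β lam) (Wreath.base f) =
      (∑ x : Wreath G Ω L, piChar (H := fun _ : Ω => G) (tr x.s⁻¹ β) f * lam 1) /
        (Nat.card (stX L (triv G Ω) β) : ℂ) := by
    intro f
    unfold ind
    congr 1
    rw [finsum_eq_sum_of_fintype]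
    refine Finset.sum_congr rfl fun x _ => ?_
    have hs : (x * Wreath.base f * x⁻¹).s = 1 := by
      rw [Wreath.conj_s, Wreath.base_s, mul_one, mul_inv_cancel]
    rw [et_base hX lam hs, nuW_tw, nuW_base, tw_eq_tr hβ]
    rfl
  simp only [h1]
  have h2 : ∀ f : Ω → G, (∑ x : Wreath G Ω L, piChar (H := fun _ : Ω => G) (tr x.s⁻¹ β) f *
      lam 1) / (Nat.card (stX L (triv G Ω) β) : ℂ) * ∏ i, γ i (f i)⁻¹ =
      lam 1 / (Nat.card (stX L (triv G Ω) β) : ℂ) * ∑ x : Wreath G Ω L,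
        piChar (H := fun _ : Ω => G) (tr x.s⁻¹ β) f * piChar (H := fun _ : Ω => G) γ f⁻¹ := by
    intro f
    have h3 : piChar (H := fun _ : Ω => G) γ f⁻¹ = ∏ i, γ i (f i)⁻¹ := rfl
    rw [← h3, ← Finset.sum_mul, ← Finset.sum_mul]
    ring
  simp only [h2]
  rw [← Finset.mul_sum, Finset.sum_comm]
  have h4 : ∀ x : Wreath G Ω L, (∑ f : Ω → G, piChar (H := fun _ : Ω => G) (tr x.s⁻¹ β) f *
      piChar (H := fun _ : Ω => G) γ f⁻¹) =
      if tr x.s⁻¹ β = γ then (Nat.card (Ω → G) : ℂ) else 0 := by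
    intro x
    split_ifs with h
    · rw [h, Nat.card_eq_fintype_card]
      exact piChar_inner_self (H := fun _ : Ω => G) hγ
    · exact piChar_inner_ne (H := fun _ : Ω => G) (fun i => hβ _) hγ h
  simp only [h4]
  have h5 : Nat.card {x : Wreath G Ω L // tr x.s⁻¹ β = γ} =
      (Finset.univ.filter fun x : Wreath G Ω L => tr x.s⁻¹ β = γ).card := by
    rw [Nat.card_eq_fintype_card, Fintype.card_subtype]
  rw [← Finset.sum_filter, Finset.sum_const, nsmul_eq_mul, h5]
  ring

theorem liesOver_ind [Finite G] [Fintype Ω] [Finite L] {β γ : Ω → G → ℂ}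
    (hβ : ∀ i, β i ∈ Irr G) (hγ : ∀ i, γ i ∈ Irr G)
    (hX : IsExt L (triv G Ω) β (ext L (triv G Ω) β)) {lam : L → ℂ} (hlam : lam ∈ IrrS (LL L β)) :
    LiesOver (ind (stX L (triv G Ω) β) (et β lam)) γ ↔ ∃ l : L, tr l β = γ := by
  unfold LiesOver
  rw [inner_ind hβ hγ hX]
  have h1 : lam 1 ≠ 0 := IrrS_one_ne hlam
  have h2 : (Nat.card (stX L (triv G Ω) β) : ℂ) ≠ 0 := by exact_mod_cast Nat.card_pos.ne'
  have h3 : (Nat.card (Ω → G) : ℂ) ≠ 0 := by exact_mod_cast Nat.card_pos.ne'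
  constructor
  · intro h
    by_contra hcon
    push Not at hcon
    apply h
    have : IsEmpty {x : Wreath G Ω L // tr x.s⁻¹ β = γ} := ⟨fun x => hcon _ x.2⟩
    have h5 : Nat.card {x : Wreath G Ω L // tr x.s⁻¹ β = γ} = 0 := Nat.card_of_isEmpty
    rw [h5, Nat.cast_zero, mul_zero]
  · rintro ⟨l, hl⟩
    have : Nonempty {x : Wreath G Ω L // tr x.s⁻¹ β = γ} :=
      ⟨⟨Wreath.top l⁻¹, by rw [Wreath.top_s, inv_inv]; exact hl⟩⟩
    have h4 : (Nat.card {x : Wreath G Ω L // tr x.s⁻¹ β = γ} : ℂ) ≠ 0 := by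
      exact_mod_cast Nat.card_pos.ne'
    exact mul_ne_zero (mul_ne_zero (div_ne_zero h1 h2) h3) h4

theorem ind_one [Finite G] [Fintype Ω] [Finite L] {β : Ω → G → ℂ}
    (hβ : ∀ i, β i ∈ Irr G) (hX : IsExt L (triv G Ω) β (ext L (triv G Ω) β)) (lam : L → ℂ) :
    ind (stX L (triv G Ω) β) (et β lam) 1 * (Nat.card (LL L β) : ℂ) =
      (Nat.card L : ℂ) * (∏ i, β i 1) * lam 1 := by
  classical
  have := Fintype.ofFinite G
  have := Fintype.ofFinite L
  have := Fintype.ofFinite (Wreath G Ω L)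
  have h0 : ind (stX L (triv G Ω) β) (et β lam) 1 =
      (Nat.card (Wreath G Ω L) : ℂ) * ((∏ i, β i 1) * lam 1) /
        (Nat.card (stX L (triv G Ω) β) : ℂ) := by
    unfold ind
    congr 1
    rw [finsum_eq_sum_of_fintype]
    have h1 : ∀ x : Wreath G Ω L, et β lam (x * 1 * x⁻¹) = (∏ i, β i 1) * lam 1 := by
      intro x
      rw [mul_one, mul_inv_cancel, et_base hX lam Wreath.one_s]
      congr 1
      unfold nuW
      rw [if_pos Wreath.one_s]
      rfl
    simp only [h1]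
    rw [Finset.sum_const, Finset.card_univ, nsmul_eq_mul, Nat.card_eq_fintype_card]
  rw [h0, card_stX_triv hβ, card_wreath]
  have h2 : (Nat.card (LL L β) : ℂ) ≠ 0 := by exact_mod_cast Nat.card_pos.ne'
  have h3 : (Nat.card (Ω → G) : ℂ) ≠ 0 := by exact_mod_cast Nat.card_pos.ne'
  push_cast
  field_simp

/-- Clifford's counting formula for the wreath product -/
theorem cliff_wreath (hext : ExtStmt) (hcl : CliffStmt) (G Ω L : Type) [Group G] [Finite G]
    [Fintype Ω] [Group L] [Finite L] [MulAction L Ω] (S : Set (Wreath G Ω L → ℂ)) :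
    Nat.card (Wreath G Ω L) * {θ | θ ∈ Irr (Wreath G Ω L) ∧ θ ∈ S}.ncard =
      ∑ a : {β : Ω → G → ℂ // β ∈ charsOf (triv G Ω)},
        Nat.card (stX L (triv G Ω) a.1) * {lam | lam ∈ IrrS (LL L a.1) ∧
          ind (stX L (triv G Ω) a.1) (et a.1 lam) ∈ S}.ncard := by
  have hmem : ∀ a : {β : Ω → G → ℂ // β ∈ charsOf (triv G Ω)}, ∀ i, a.1 i ∈ Irr G :=
    fun a => isChars_triv.1 (mem_charsOf.1 a.2)
  have hE : ∀ a : {β : Ω → G → ℂ // β ∈ charsOf (triv G Ω)},
      IsExt L (triv G Ω) a.1 (ext L (triv G Ω) a.1) :=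
    fun a => isExt_ext hext (mem_charsOf.1 a.2)
  exact hcl (Wreath G Ω L) L {β : Ω → G → ℂ // β ∈ charsOf (triv G Ω)}
    (Wreath.proj : Wreath G Ω L →* L) (fun a => nuW a.1)
    (fun a => ext L (triv G Ω) a.1) (fun a => stX L (triv G Ω) a.1)
    (fun a => nuW_mem (hmem a))
    (fun a b h => Subtype.ext (nuW_inj (hmem a) (hmem b) h))
    (fun η hη => by
      obtain ⟨α, hα, h⟩ := nuW_surj η hη
      exact ⟨⟨α, mem_charsOf.2 (isChars_triv.2 hα)⟩, h⟩)
    (fun a t => mem_T_triv (hmem a) t)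
    (fun a => (hE a).mem)
    (fun a y hy => by
      have h1 : y.s = 1 := hy
      show ext L (triv G Ω) a.1 y = nuW a.1 y
      rw [eq_base_of_s h1, (hE a).base, nuW_base])
    S

theorem ind_mem (hext : ExtStmt) (hcl : CliffStmt) {G Ω L : Type} [Group G] [Finite G]
    [Fintype Ω] [Group L] [Finite L] [MulAction L Ω] {β : Ω → G → ℂ} (hβ : ∀ i, β i ∈ Irr G)
    {lam : L → ℂ} (hlam : lam ∈ IrrS (LL L β)) :
    ind (stX L (triv G Ω) β) (et β lam) ∈ Irr (Wreath G Ω L) := by
  classical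
  have key := cliff_wreath hext hcl G Ω L (Irr (Wreath G Ω L))ᶜ
  have h0 : {θ | θ ∈ Irr (Wreath G Ω L) ∧ θ ∈ (Irr (Wreath G Ω L))ᶜ} =
      (∅ : Set (Wreath G Ω L → ℂ)) := by
    ext θ
    constructor
    · rintro ⟨h1, h2⟩
      exact h2 h1
    · intro h
      exact h.elim
  rw [h0, Set.ncard_empty, mul_zero] at key
  have h1 := (Finset.sum_eq_zero_iff_of_nonneg (fun a _ => Nat.zero_le _)).1 key.symm
    ⟨β, mem_charsOf.2 (isChars_triv.2 hβ)⟩ (Finset.mem_univ _)
  have h2 := (Nat.mul_eq_zero.1 h1).resolve_left Nat.card_pos.ne'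
  have hfin : {lam | lam ∈ IrrS (LL L β) ∧
      ind (stX L (triv G Ω) β) (et β lam) ∈ (Irr (Wreath G Ω L))ᶜ}.Finite :=
    (IrrS_finite (LL L β)).subset fun _ h => h.1
  have h3 := (Set.ncard_eq_zero hfin).1 h2
  by_contra hcon
  have : lam ∈ {lam | lam ∈ IrrS (LL L β) ∧
      ind (stX L (triv G Ω) β) (et β lam) ∈ (Irr (Wreath G Ω L))ᶜ} := ⟨hlam, hcon⟩
  rw [h3] at this
  exact this.elim

theorem exists_ind (hext : ExtStmt) (hcl : CliffStmt) {G Ω L : Type} [Group G] [Finite G]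
    [Fintype Ω] [Group L] [Finite L] [MulAction L Ω] {χ : Wreath G Ω L → ℂ}
    (hχ : χ ∈ Irr (Wreath G Ω L)) :
    ∃ β : Ω → G → ℂ, (∀ i, β i ∈ Irr G) ∧ ∃ lam ∈ IrrS (LL L β),
      ind (stX L (triv G Ω) β) (et β lam) = χ := by
  classical
  have key := cliff_wreath hext hcl G Ω L {χ}
  have h0 : {θ | θ ∈ Irr (Wreath G Ω L) ∧ θ ∈ ({χ} : Set (Wreath G Ω L → ℂ))} = {χ} := by
    ext θ
    constructor
    · rintro ⟨_, h2⟩
      exact h2
    · intro h
      exact ⟨by rw [Set.mem_singleton_iff.1 h]; exact hχ, h⟩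
  rw [h0, Set.ncard_singleton, mul_one] at key
  have h1 : ∑ a : {β : Ω → G → ℂ // β ∈ charsOf (triv G Ω)},
        Nat.card (stX L (triv G Ω) a.1) * {lam | lam ∈ IrrS (LL L a.1) ∧
          ind (stX L (triv G Ω) a.1) (et a.1 lam) ∈ ({χ} : Set (Wreath G Ω L → ℂ))}.ncard ≠ 0 := by
    rw [← key]
    exact Nat.card_pos.ne'
  obtain ⟨a, -, ha⟩ := Finset.exists_ne_zero_of_sum_ne_zero h1
  refine ⟨a.1, isChars_triv.1 (mem_charsOf.1 a.2), ?_⟩
  have h2 := (mul_ne_zero_iff.1 ha).2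
  obtain ⟨lam, h3, h4⟩ := Set.nonempty_of_ncard_ne_zero h2
  exact ⟨lam, h3, h4⟩

theorem card_LL_tr [Finite L] {β : Ω → G → ℂ} (hβ : ∀ i, β i ∈ Irr G) (l : L) :
    Nat.card (LL L (tr l β)) = Nat.card (LL L β) := by
  have h : LL L (tr l β) = conjS l (LL L β) := by
    ext h
    rw [mem_conjS, mem_LL hβ, mem_LL (β := tr l β) (fun i => hβ _)]
    constructor
    · intro hh
      rw [mul_assoc, tr_mul, tr_mul, hh, ← tr_mul, inv_mul_cancel, tr_one]
    · intro hh
      have : h * l = l * (l⁻¹ * h * l) := by group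
      rw [← tr_mul, this, tr_mul, hh]
  rw [h, card_conjS]

theorem cls (hext : ExtStmt) (hcl : CliffStmt) (heqv : EqvStmt) : ClsStmt := by
  intro G Ω L _ _ _ _ _ _
  refine ⟨?_, ?_, ?_⟩
  · intro β hβ lam hlam
    have hX : IsExt L (triv G Ω) β (ext L (triv G Ω) β) := isExt_ext hext (isChars_triv.2 hβ)
    refine ⟨ind (stX L (triv G Ω) β) (et β lam), ind_mem hext hcl hβ hlam, ?_, ?_, ?_⟩
    · intro Φ hΦ
      exact val_ind _ Φ _ hΦ
    · exact (liesOver_ind hβ hβ hX hlam).2 ⟨1, tr_one β⟩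
    · exact ind_one hβ hX lam
  · intro χ hχ γ hγ hover
    obtain ⟨β, hβ, lam, hlam, rfl⟩ := exists_ind hext hcl hχ
    have hX : IsExt L (triv G Ω) β (ext L (triv G Ω) β) := isExt_ext hext (isChars_triv.2 hβ)
    obtain ⟨l, rfl⟩ := (liesOver_ind hβ hγ hX hlam).1 hover
    obtain ⟨-, -, h3⟩ := heqv G Ω L β hβ
    obtain ⟨h4, h5⟩ := h3 lam hlam l
    refine ⟨_, h4, ?_, ?_⟩
    · intro Φ hΦ
      rw [h5 Φ hΦ]
      exact val_ind _ Φ _ hΦ
    · have h6 := ind_one hβ hX lam
      rw [card_LL_tr hβ, h6]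
      have h7 : ∏ i, tr l β i 1 = ∏ i, β i 1 :=
        Equiv.prod_comp (MulAction.toPerm l⁻¹) (fun i => β i 1)
      have h8 : l⁻¹ * 1 * l = (1 : L) := by group
      simp only [h7, h8]
  · intro χ hχ
    obtain ⟨β, hβ, lam, hlam, rfl⟩ := exists_ind hext hcl hχ
    have hX : IsExt L (triv G Ω) β (ext L (triv G Ω) β) := isExt_ext hext (isChars_triv.2 hβ)
    exact ⟨β, hβ, (liesOver_ind hβ hβ hX hlam).2 ⟨1, tr_one β⟩⟩

end Pool.Agent.Helper79_WRA.H40
end
end -- Pool.Agent.Helper40_WRA.Cls
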