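import Pool.Agent.Helper12_AWB.B055
import Pool.Agent.Helper12_AWB.B057
import Pool.Agent.Helper12_AWB.B062
import Pool.Agent.Helper12_AWB.B064
import Pool.Agent.Helper12_AWB.B065

/-!
# Merged copies (generated) of the modules

* `Pool.Agent.Helper45_WRA.OpCore`
* `Pool.Agent.Helper59_WRA.Bmb`
* `Pool.Agent.Helper69_WRA.Marks`
* `Pool.Agent.Helper83_WRA.Tconj`
* `Pool.Agent.Helper97_WRA.Eqv`
* `Pool.Agent.Helper79_WRA.Final`
* `Pool.Agent.Helper55_CC.Step`
* `Pool.Agent.Helper81_CC.Wcl`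
-/

set_option autoImplicit false

section -- Pool.Agent.Helper45_WRA.OpCore

/-! # OPCORE: the wreath product has no nontrivial normal `ℓ`-subgroup -/

set_option autoImplicit false

namespace Pool.Agent.Helper79_WRA.H45

open Pool.Agent.Helper51_AWC Wreath

theorem opCore_wreath : OpCoreStmt := by
  classical
  intro ℓ _ G Ω L _ _ _ _ _ _ _ hnt hG
  obtain ⟨c1, c2, c3⟩ := opCore_spec ℓ (Wreath G Ω L)
  obtain ⟨a1, a2, a3⟩ := opCore_spec ℓ G
  set Q := opCore ℓ (Wreath G Ω L) with hQ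
  -- the intersection with the base group
  have hEn : (Q.comap (base : (Ω → G) →* Wreath G Ω L)).Normal := c1.comap _
  have hEp : IsPGroup ℓ (Q.comap (base : (Ω → G) →* Wreath G Ω L)) :=
    c2.comap_of_injective _ base_injective
  have h1 : ∀ f : Ω → G, (base f : Wreath G Ω L) ∈ Q → f = 1 := by
    intro f hf
    funext i
    have h2 : (Q.comap (base : (Ω → G) →* Wreath G Ω L)).map (Pi.evalMonoidHom (fun _ => G) i) ≤
        opCore ℓ G := by
      apply a3
      · exact hEn.map _ (Function.surjective_eval i)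
      · exact hEp.map _
    rw [hG] at h2
    have h3 : f i ∈ (⊥ : Subgroup G) := h2 ⟨f, hf, rfl⟩
    exact Subgroup.mem_bot.1 h3
  have h4 : ∀ x ∈ Q, x.s = 1 → x = 1 := by
    intro x hx hs
    obtain ⟨f, rfl⟩ := mem_base_range.2 hs
    rw [h1 f hx, map_one]
  rw [eq_bot_iff]
  intro x hx
  rw [Subgroup.mem_bot]
  apply h4 x hx
  have h5 : ∀ f : Ω → G, (base f : Wreath G Ω L) * x = x * base f := by
    intro f
    have h6 : (base f : Wreath G Ω L) * x * (base f)⁻¹ * x⁻¹ ∈ Q :=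
      Q.mul_mem (c1.conj_mem x hx _) (Q.inv_mem hx)
    have h7 := h4 _ h6 (by simp only [mul_s, inv_s, base_s, inv_one, one_mul, mul_one,
      mul_inv_cancel])
    rw [mul_inv_eq_one, mul_inv_eq_iff_eq_mul] at h7
    exact h7
  have h8 : ∀ i : Ω, x.s⁻¹ • i = i := by
    intro i
    by_contra hne
    obtain ⟨y, hy⟩ := exists_ne (1 : G)
    have h9 := congrArg (fun z : Wreath G Ω L => z.f i) (h5 (Pi.mulSingle i y))
    simp only [mul_f, base_f, base_s, inv_one, one_smul, Pi.mulSingle_eq_same,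
      Pi.mulSingle_eq_of_ne hne, mul_one] at h9
    exact hy (mul_eq_right.1 h9)
  have h10 : x.s⁻¹ = 1 := by
    apply FaithfulSMul.eq_of_smul_eq_smul (α := Ω)
    intro i
    rw [h8 i, one_smul]
  exact inv_eq_one.1 h10

end Pool.Agent.Helper79_WRA.H45
end -- Pool.Agent.Helper45_WRA.OpCore

section -- Pool.Agent.Helper59_WRA.Bmb

/-!
WRA, module BMB: matching of blocks, second half.
-/

open scoped BigOperators

noncomputable section

namespace Pool.Agent.Helper59_WRA

open Pool.Agent.Helper51_AWC Pool.Agent.Helper79_WRA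

section clasL

variable {Λ Γ : Type} [Group Λ] [Group Γ]

theorem clas_conj (ι : Λ →* Γ) (z : Γ) (x y : Λ) : clas ι z (y * x * y⁻¹) = clas ι z x := by
  classical
  have : IsConj z (ι (y * x * y⁻¹)) ↔ IsConj z (ι x) := by
    have h1 : IsConj (ι x) (ι (y * x * y⁻¹)) := by
      rw [map_mul, map_mul, map_inv]
      exact isConj_iff.2 ⟨ι y, rfl⟩
    exact ⟨fun h => h.trans h1.symm, fun h => h.trans h1⟩
  unfold clas
  simp only [this]

theorem clas_int (ι : Λ →* Γ) (z : Γ) (x : Λ) : IsIntegral ℤ (clas ι z x) := by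
  classical
  unfold clas
  split_ifs
  · exact isIntegral_one
  · exact isIntegral_zero

/-- the pairing with the class indicator is the value of the central character -/
theorem val_clas [Finite Λ] (ι : Λ →* Γ) (η : Λ → ℂ) (z : Γ) :
    val (clas ι z) η = omega ι η z := by
  classical
  have := Fintype.ofFinite Λ
  rw [val_eq, omega_eq]
  congr 1
  apply Finset.sum_congr rfl
  intro x _
  unfold clas
  split_ifs
  · rw [one_mul]
  · rw [zero_mul]

/-- transport of a character along an injective homomorphism -/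
theorem exists_push [Finite Λ] [Finite Γ] {ι : Λ →* Γ} (hι : Function.Injective ι)
    {H : Subgroup Γ} (hH : ι.range = H) {χ : Λ → ℂ} (hχ : χ ∈ Irr Λ) :
    ∃ a ∈ IrrS H, ∀ g, omega (MonoidHom.id Γ) a g = omega ι χ g := by
  classical
  subst hH
  obtain ⟨e, he⟩ : ∃ e : Λ ≃* ι.range, ∀ x, ((e x : ι.range) : Γ) = ι x :=
    ⟨MonoidHom.ofInjective hι, fun x => rfl⟩
  have hψ : (fun h : ι.range => χ (e.symm h)) ∈ Irr ι.range := irr_comp_equiv e.symm hχ
  obtain ⟨a, ha, hax⟩ := exists_IrrS ι.range hψ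
  refine ⟨a, ha, ?_⟩
  intro g
  rw [omega_IrrS ha]
  have h1 : (fun h : ι.range => a h) = fun h : ι.range => χ (e.symm h) := funext hax
  rw [h1]
  have := Fintype.ofFinite Λ
  have := Fintype.ofFinite ι.range
  rw [omega_eq, omega_eq]
  congr 1
  · symm
    apply Fintype.sum_equiv e.toEquiv
    intro x
    have h2 : (ι.range.subtype (e.toEquiv x)) = ι x := he x
    rw [h2]
    have h3 : e.symm (e.toEquiv x) = x := e.symm_apply_apply x
    rw [h3]
  · rw [map_one]

end clasL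

theorem bmb (hbm : BmaStmt) (hlb : LabelStmt) (hdz : DzDetStmt) (hps : PosStmt)
    (haf : AformStmt) (heq : EqvStmt) (hex : ExtStmt) (hcl : ClsStmt) (hl2 : Lambda2Stmt) :
    BmbStmt := by
  classical
  intro ℓ _ M _ hℓ G _ _ hG Ω L _ _ _ _ χ αs μ hχ hαs hμ hval c hc β α hTw lam hlam l hβ hLab
  obtain ⟨hc1, hc2, hc3⟩ := mem_chainsOn.1 hc
  have hcp : ∀ D ∈ c, IsPGroup ℓ D := fun D hD => (mem_psubIn.1 (hc1 hD)).2
  obtain ⟨-, -, hinj, htp, htch, hrange, -, -, hfib⟩ := hl2 ℓ G Ω L c hcp ⟨_, hc2⟩ hc3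
  have hαI : ∀ j, α j ∈ Irr G := fun j => (hTw.dz' j).1
  -- the character of the smaller wreath product
  obtain ⟨χ1, hχ1, hval1, -, -⟩ := (hcl G (Dl c Ω) (stab c)).1 α hαI lam hlam
  -- the block of `Γ`
  obtain ⟨a, ha, hav⟩ := exists_push hinj hrange hχ1
  obtain ⟨χ', hχ', hlab⟩ := hlb ℓ M hℓ (Wreath G Ω L) (topc c G Ω) htp htch a ha
  have hgood : GoodC M c χ' α lam := by
    intro g
    have h1 : red M (omega (MonoidHom.id _) a g) = red M (omega (MonoidHom.id _) χ' g) :=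
      congrFun hlab g
    rw [red_eq_iff (omega_IrrS_integral ha g) (omega_integral _ hχ' g), hav g] at h1
    rw [← val_clas, hval1 _ (clas_conj _ g)] at h1
    exact h1
  -- `χ'` lies over characters of defect zero
  obtain ⟨β', hβ'I, hover⟩ := (hcl G Ω L).2.2 χ' hχ'
  obtain ⟨-, -, hp3, hp4⟩ := hps ℓ M hℓ G hG
  have hβ'D : ∀ i, β' i ∈ DZ ℓ M G := by
    intro i
    refine ⟨hβ'I i, ?_⟩
    intro hLD
    have hE : IsExt (stab c) (triv G (Dl c Ω)) α (ext (stab c) (triv G (Dl c Ω)) α) := by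
      have h := hex G (Dl c Ω) (stab c) (triv G (Dl c Ω)) α (isChars_triv.2 hαI)
      unfold ext
      rw [dif_pos h]
      exact h.choose_spec
    obtain ⟨j, hj⟩ := hdz ℓ M hℓ G Ω L (Dl c Ω) (stab c) (qq c) (stab c).subtype (iota c G Ω)
      (qq_surjective c) (Subgroup.subtype_injective _) (iota_apply c) hfib χ' hχ' β' hβ'I hover
      ⟨i, fun g hg => hp3 (β' i) (hβ'I i) hLD g hg⟩ (triv G (Dl c Ω)) α lam
      (isChars_triv.2 hαI) hE hlam hgood
    obtain ⟨g, hg, hg'⟩ := hp4 (α j) (hαI j) (hTw.dz' j).2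
    exact hg' (hj g hg)
  obtain ⟨μ', hμ', hval', -⟩ := (hcl G Ω L).2.1 χ' hχ' β' hβ'I hover
  obtain ⟨⟨l', hl'⟩, hLab'⟩ := hbm ℓ M hℓ G hG Ω L χ' β' μ' hχ' hβ'D hμ' hval' c hc β α hTw
    lam hlam hgood
  have hL1 := hLab' l' hl'
  -- comparison
  have hβI : ∀ i, β i ∈ Irr G := fun i => (hTw.dz i).1
  have hm1 := ((heq G Ω L β' hβ'I).2.2 μ' hμ' l')
  have hm2 := ((heq G Ω L αs (fun i => (hαs i).1)).2.2 μ hμ l)
  rw [← hl'] at hm1
  rw [← hβ] at hm2
  obtain ⟨hm1a, hm1b⟩ := hm1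
  obtain ⟨hm2a, hm2b⟩ := hm2
  have hcmp : ∀ Φ : Wreath G Ω L → ℂ, (∀ x y, Φ (y * x * y⁻¹) = Φ x) →
      (∀ x, IsIntegral ℤ (Φ x)) → Cong M (val Φ χ') (val Φ χ) := by
    intro Φ hΦ hΦi
    rw [hval' Φ hΦ, hval Φ hΦ, ← hm1b Φ hΦ, ← hm2b Φ hΦ]
    refine haf G Ω L M (triv G Ω) β (isChars_triv.2 hβI) _ hm1a _ hm2a ?_ Φ hΦ hΦi
    intro h hh
    exact (hL1 h hh).symm.trans (hLab h hh)
  intro g
  refine (hgood g).trans ?_
  have h1 := hcmp (clas (MonoidHom.id _) g) (clas_conj _ g) (clas_int _ g)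
  rw [val_clas, val_clas] at h1
  exact h1

end Pool.Agent.Helper59_WRA
end
end -- Pool.Agent.Helper59_WRA.Bmb

section -- Pool.Agent.Helper69_WRA.Marks

/-!
WRA, module MARKS: descending induction over the subgroups of the top group.
-/

open scoped BigOperators

noncomputable section

namespace Pool.Agent.Helper79_WRA.H69

open Pool.Agent.Helper51_AWC Pool.Agent.Helper79_WRA

open Classical in
/-- descending induction -/
theorem desc {X 𝒰 : Type*} [PartialOrder 𝒰] [Fintype 𝒰] (S : Finset X) (w : X → ℤ)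
    (τ : X → 𝒰) (U0 : 𝒰)
    (h : ∀ U, U0 ≤ U → ∑ x ∈ S.filter (fun x => U ≤ τ x), w x = 0) :
    ∀ U, U0 ≤ U → ∑ x ∈ S.filter (fun x => τ x = U), w x = 0 := by
  intro U
  induction U using WellFoundedGT.induction with
  | ind U ih =>
    intro hU
    have h1 := h U hU
    have h2 : S.filter (fun x => U ≤ τ x) =
        S.filter (fun x => τ x = U) ∪ S.filter (fun x => U < τ x) := by
      ext x
      simp only [Finset.mem_filter, Finset.mem_union]
      constructor
      · rintro ⟨hx, hle⟩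
        rcases hle.eq_or_lt with h | h
        · exact Or.inl ⟨hx, h.symm⟩
        · exact Or.inr ⟨hx, h⟩
      · rintro (⟨hx, h⟩ | ⟨hx, h⟩)
        · exact ⟨hx, h.ge⟩
        · exact ⟨hx, h.le⟩
    have hd : Disjoint (S.filter (fun x => τ x = U)) (S.filter (fun x => U < τ x)) := by
      rw [Finset.disjoint_left]
      intro x hx hx'
      rw [Finset.mem_filter] at hx hx'
      exact absurd hx.2 hx'.2.ne'
    rw [h2, Finset.sum_union hd] at h1
    have h3 : ∑ x ∈ S.filter (fun x => U < τ x), w x = 0 := by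
      rw [← Finset.sum_fiberwise_of_maps_to (s := S.filter (fun x => U < τ x))
        (t := Finset.univ) (g := τ) (fun x _ => Finset.mem_univ _)]
      apply Finset.sum_eq_zero
      intro U' _
      by_cases hlt : U < U'
      · have h4 := ih U' hlt (hU.trans hlt.le)
        rw [← h4]
        apply Finset.sum_congr _ (fun _ _ => rfl)
        ext x
        simp only [Finset.mem_filter]
        constructor
        · rintro ⟨⟨hx, _⟩, h⟩
          exact ⟨hx, h⟩
        · rintro ⟨hx, h⟩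
          exact ⟨⟨hx, h ▸ hlt⟩, h⟩
      · apply Finset.sum_eq_zero
        intro x hx
        simp only [Finset.mem_filter] at hx
        exact absurd (hx.2 ▸ hx.1.2) hlt
    rw [h3, add_zero] at h1
    exact h1

open Classical in
/-- the abstract form of the argument -/
theorem marks_aux {X 𝒰 B Y : Type*} [PartialOrder 𝒰] [Fintype 𝒰] (S : Finset X) (w : X → ℤ)
    (τ : X → 𝒰) (lab : X → B) (Q : B → Prop) (Lam : 𝒰 → Finset Y) (good : X → Y → Prop)
    (size : 𝒰 → ℤ)
    (h : ∀ U0, ∀ y ∈ Lam U0, ∀ U, U0 ≤ U → ∀ b, Q b →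
      ∑ x ∈ S.filter (fun x => U ≤ τ x ∧ lab x = b ∧ good x y), w x = 0) :
    ∑ x ∈ S.filter (fun x => Q (lab x)),
      w x * size (τ x) * (((Lam (τ x)).filter (fun y => good x y)).card : ℤ) = 0 := by
  rw [← Finset.sum_fiberwise_of_maps_to (s := S.filter (fun x => Q (lab x)))
    (t := Finset.univ) (g := τ) (fun x _ => Finset.mem_univ _)]
  apply Finset.sum_eq_zero
  intro U _
  have e1 : ∀ x ∈ (S.filter (fun x => Q (lab x))).filter (fun x => τ x = U),
      w x * size (τ x) * (((Lam (τ x)).filter (fun y => good x y)).card : ℤ) =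
        ∑ y ∈ Lam U, (if good x y then w x * size U else 0) := by
    intro x hx
    rw [Finset.mem_filter] at hx
    rw [hx.2, ← Finset.sum_filter, Finset.sum_const, nsmul_eq_mul]
    ring
  rw [Finset.sum_congr rfl e1, Finset.sum_comm]
  apply Finset.sum_eq_zero
  intro y hy
  rw [← Finset.sum_filter]
  rw [← Finset.sum_mul]
  have e2 : ∑ x ∈ ((S.filter (fun x => Q (lab x))).filter (fun x => τ x = U)).filter
      (fun x => good x y), w x = 0 := by
    rw [← Finset.sum_fiberwise_of_maps_to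
      (s := ((S.filter (fun x => Q (lab x))).filter (fun x => τ x = U)).filter
        (fun x => good x y))
      (t := (S.filter (fun x => Q (lab x))).image lab) (g := lab)]
    · apply Finset.sum_eq_zero
      intro b hb
      obtain ⟨x0, hx0, rfl⟩ := Finset.mem_image.1 hb
      rw [Finset.mem_filter] at hx0
      have h5 := desc (S.filter (fun x => lab x = lab x0 ∧ good x y)) w τ U (by
        intro U' hU'
        rw [← h U y hy U' hU' (lab x0) hx0.2]
        apply Finset.sum_congr _ (fun _ _ => rfl)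
        ext x
        simp only [Finset.mem_filter]
        tauto) U le_rfl
      rw [← h5]
      apply Finset.sum_congr _ (fun _ _ => rfl)
      ext x
      simp only [Finset.mem_filter]
      constructor
      · rintro ⟨⟨⟨⟨hx, _⟩, h1⟩, h2⟩, h3⟩
        exact ⟨⟨hx, h3, h2⟩, h1⟩
      · rintro ⟨⟨hx, h3, h2⟩, h1⟩
        exact ⟨⟨⟨⟨hx, by rw [h3]; exact hx0.2⟩, h1⟩, h2⟩, h3⟩
    · intro x hx
      simp only [Finset.mem_filter] at hx
      exact Finset.mem_image_of_mem _ (Finset.mem_filter.2 hx.1.1)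
  rw [e2, zero_mul]

open Classical in
theorem marks : MarksStmt := by
  intro ℓ _ G Δ K I _ _ _ _ _ _ M Φ ws hF hM
  have : Fintype (Subgroup K) := Fintype.ofFinite _
  let S : Finset (Σ _ : Finset (Δ → Subgroup G), (Δ → G → ℂ)) :=
    (chainsOn (boxes ℓ G Δ) (fun _ => ⊥)).sigma (fun v => charsOf v)
  let w : (Σ _ : Finset (Δ → Subgroup G), (Δ → G → ℂ)) → ℤ := fun x =>
    (-1) ^ (x.1.card + 1) * ∏ j, (Nat.card (colStab x.1 j) : ℤ)
  let τ : (Σ _ : Finset (Δ → Subgroup G), (Δ → G → ℂ)) → Subgroup K := fun x =>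
    topSt K x.1 x.2
  let lab : (Σ _ : Finset (Δ → Subgroup G), (Δ → G → ℂ)) → (Δ → G → FF M) := fun x j =>
    labF M (x.2 j)
  let Q : (Δ → G → FF M) → Prop := fun β => ∃ j, ∃ χ ∈ Irr G, LargeDefect ℓ M χ ∧
    β j = labF M χ
  let Lam : Subgroup K → Finset (K → ℂ) := fun U => (IrrS_finite U).toFinset
  let good : (Σ _ : Finset (Δ → Subgroup G), (Δ → G → ℂ)) → (K → ℂ) → Prop := fun x lam =>
    Good M Φ ws (eta x.1 x.2 lam)
  have key := marks_aux S w τ lab Q Lam good (fun U => (Nat.card U : ℤ)) (by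
    intro U0 lam hlam U hU β hβ
    obtain ⟨j₀, χ, hχ, hL, hβ⟩ := hβ
    have hlam' : lam ∈ IrrS U0 := by
      simpa [Lam] using hlam
    let P : (Δ → (G → FF M) × FF M) → Prop := fun D =>
      ∃ (v' : Finset (Δ → Subgroup G)) (α' : Δ → G → ℂ), IsChars v' α' ∧
        U0 ≤ topSt K v' α' ∧ dat M v' α' = D ∧ Good M Φ ws (eta v' α' lam)
    have h1 := hM U j₀ β P ⟨χ, hχ, hL, hβ⟩
    rw [← h1]
    refine (Finset.sum_congr (s₂ := (chainsOn (boxes ℓ G Δ) (fun _ => ⊥)).sigma
      (fun v => (charsOf v).filter (fun α => U ≤ topSt K v α ∧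
        (∀ j, labF M (α j) = β j) ∧ P (dat M v α)))) (g := w) ?_ (fun _ _ => rfl)).trans ?_
    · ext ⟨v, α⟩
      simp only [S, τ, lab, good, Finset.mem_filter, Finset.mem_sigma]
      constructor
      · rintro ⟨⟨hv, hα⟩, h2, h3, h4⟩
        refine ⟨hv, hα, h2, fun j => congrFun h3 j, ?_⟩
        exact ⟨v, α, mem_charsOf.1 hα, hU.trans h2, rfl, h4⟩
      · rintro ⟨hv, hα, h2, h3, v', α', h5, h6, h7, h8⟩
        refine ⟨⟨hv, hα⟩, h2, funext h3, ?_⟩
        intro z
        refine (hF v v' α α' U0 lam z (mem_charsOf.1 hα) h5 (hU.trans h2) h6 hlam' ?_).trans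
          (h8 z)
        intro j
        exact (congrFun h7 j).symm
    · rw [Finset.sum_sigma]
      apply Finset.sum_congr rfl
      intro v _
      rw [Finset.mul_sum])
  rw [← key]
  symm
  refine (Finset.sum_congr (s₂ := (chainsOn (boxes ℓ G Δ) (fun _ => ⊥)).sigma
    (fun v => (charsOf v).filter (fun α => ∃ j, PosL ℓ M (α j)))) ?_
    (fun _ _ => rfl)).trans ?_
  · ext ⟨v, α⟩
    simp only [S, lab, Q, Finset.mem_filter, Finset.mem_sigma, and_assoc]
    rfl
  rw [Finset.sum_sigma]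
  apply Finset.sum_congr rfl
  intro v _
  rw [Finset.mul_sum]
  apply Finset.sum_congr rfl
  intro α _
  have e3 : {lam | lam ∈ IrrS (topSt K v α) ∧ Good M Φ ws (eta v α lam)}.ncard =
      ((Lam (topSt K v α)).filter (fun y => good ⟨v, α⟩ y)).card := by
    rw [← Set.ncard_coe_finset]
    congr 1
    ext lam
    simp [Lam, good]
  rw [e3]
  simp only [w, τ]
  ring

end Pool.Agent.Helper79_WRA.H69
end
end -- Pool.Agent.Helper69_WRA.Marks

section -- Pool.Agent.Helper83_WRA.Tconj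

/-!
WRA: TCONJ (the inner sum is invariant under conjugation).
-/

open scoped BigOperators

noncomputable section

namespace Pool.Agent.Helper79_WRA.H83

open Pool.Agent.Helper51_AWC

/-- conjugation as an automorphism of the lattice of subgroups -/
def cE {Γ : Type} [Group Γ] (g : Γ) : Subgroup Γ ↪o Subgroup Γ := mapE (MulAut.conj g)

theorem cE_apply {Γ : Type} [Group Γ] (g : Γ) (D : Subgroup Γ) : cE g D = conjS g D := rfl

theorem conjS_inf {Γ : Type} [Group Γ] (g : Γ) (A B : Subgroup Γ) :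
    conjS g (A ⊓ B) = conjS g A ⊓ conjS g B := by
  ext x
  simp only [mem_conjS, Subgroup.mem_inf]

theorem conjS_inv_conjS {Γ : Type} [Group Γ] (g : Γ) (A : Subgroup Γ) :
    conjS g (conjS g⁻¹ A) = A := by
  rw [conjS_conjS, mul_inv_cancel, conjS_one]

theorem cent_conj {Γ : Type} [Group Γ] {N : Subgroup Γ} (hN : N.Normal) (g : Γ)
    (c : Finset (Subgroup Γ)) :
    cent N (c.map (cE g).toEmbedding) = conjS g (cent N c) := by
  ext x
  rw [mem_conjS]
  unfold cent
  simp only [Subgroup.mem_inf, Subgroup.mem_iInf]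
  constructor
  · rintro ⟨h1, h2⟩
    refine ⟨by simpa using hN.conj_mem x h1 g⁻¹, ?_⟩
    intro D hD
    have h3 := h2 (cE g D) (Finset.mem_map_of_mem _ hD)
    rw [Subgroup.mem_centralizer_iff] at h3 ⊢
    intro y hy
    have h4 := h3 (g * y * g⁻¹) (by
      show g * y * g⁻¹ ∈ conjS g D
      rw [mem_conjS]
      simpa [mul_assoc] using hy)
    calc y * (g⁻¹ * x * g) = g⁻¹ * (g * y * g⁻¹ * x) * g := by group
      _ = g⁻¹ * (x * (g * y * g⁻¹)) * g := by rw [h4]
      _ = g⁻¹ * x * g * y := by group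
  · rintro ⟨h1, h2⟩
    refine ⟨?_, ?_⟩
    · have := hN.conj_mem _ h1 g
      have e : g * (g⁻¹ * x * g) * g⁻¹ = x := by group
      rwa [e] at this
    · intro D hD
      obtain ⟨E, hE, rfl⟩ := Finset.mem_map.1 hD
      have h3 := h2 E hE
      rw [Subgroup.mem_centralizer_iff] at h3 ⊢
      intro y hy
      have hy' : g⁻¹ * y * g ∈ E := mem_conjS.1 hy
      have h4 := h3 _ hy'
      calc y * x = g * (g⁻¹ * y * g * (g⁻¹ * x * g)) * g⁻¹ := by group
        _ = g * (g⁻¹ * x * g * (g⁻¹ * y * g)) * g⁻¹ := by rw [h4]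
        _ = x * y := by group

theorem psubIn_conj {ℓ : ℕ} {Γ : Type} [Group Γ] [Finite Γ] (g : Γ) (W : Subgroup Γ) :
    psubIn ℓ (conjS g W) = (psubIn ℓ W).map (cE g).toEmbedding := by
  ext D
  rw [mem_psubIn, Finset.mem_map]
  constructor
  · rintro ⟨h1, h2⟩
    refine ⟨conjS g⁻¹ D, ?_, ?_⟩
    · rw [mem_psubIn]
      refine ⟨?_, conjS_pgroup h2⟩
      rw [← conjS_mono (g := g), conjS_inv_conjS]
      exact h1
    · exact conjS_inv_conjS g D
  · rintro ⟨E, hE, rfl⟩
    rw [mem_psubIn] at hE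
    exact ⟨conjS_mono.2 hE.1, conjS_pgroup hE.2⟩

theorem tconj : TConjStmt := by
  intro ℓ _ Γ _ _ N hN w hw g c
  classical
  have hc : c.image (conjS g) = c.map (cE g).toEmbedding := by
    rw [Finset.map_eq_image]
    rfl
  have hstab : ∀ v : Finset (Subgroup Γ),
      stab (v.map (cE g).toEmbedding) = conjS g (stab v) := fun v => stab_equiv _ v
  have hbot : (⊥ : Subgroup Γ) = cE g ⊥ := (Subgroup.map_bot _).symm
  have hgoal : tsum ℓ N w (c.map (cE g).toEmbedding) = tsum ℓ N w c := by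
    unfold tsum
    rw [cent_conj hN, psubIn_conj]
    conv_lhs => rw [hbot]
    rw [sum_chainsOn_map]
    apply Finset.sum_congr rfl
    intro v _
    rw [Finset.card_map, hstab, hstab, ← conjS_inf, hw]
  rw [← hgoal, ← hc]

end Pool.Agent.Helper79_WRA.H83
end
end -- Pool.Agent.Helper83_WRA.Tconj

section -- Pool.Agent.Helper97_WRA.Eqv

/-!
WRA: module EQV.
-/

set_option autoImplicit false
set_option linter.unusedSectionVars false

open scoped BigOperators

noncomputable section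

namespace Pool.Agent.Helper79_WRA.H97

open Pool.Agent.Helper51_AWC

section

variable {G Ω L : Type} [Group G] [Group L] [MulAction L Ω]

omit [Group G] in
theorem tr_tr [Group G] (l m : L) (β : Ω → G → ℂ) : tr l (tr m β) = tr (l * m) β := by
  funext i
  simp only [tr, mul_inv_rev, mul_smul]

theorem tr_one (β : Ω → G → ℂ) : tr (1 : L) β = β := by
  funext i
  simp only [tr, inv_one, one_smul]

theorem tr_irr {β : Ω → G → ℂ} (h : ∀ i, β i ∈ Irr G) (l : L) : ∀ i, tr l β i ∈ Irr G :=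
  fun i => h (l⁻¹ • i)

theorem colStab_triv (j : Ω) : colStab (triv G Ω) j = ⊤ := by
  rw [eq_top_iff]
  intro g _
  rw [mem_colStab]
  intro R hR
  have : R = fun _ => ⊥ := by simpa [triv] using hR
  rw [this]
  ext x
  rw [mem_conjS, Subgroup.mem_bot, Subgroup.mem_bot]
  constructor
  · intro h
    have : x = g * (g⁻¹ * x * g) * g⁻¹ := by group
    rw [this, h]
    group
  · intro h
    rw [h]
    group

theorem isChars_triv {β : Ω → G → ℂ} (h : ∀ i, β i ∈ Irr G) : IsChars (triv G Ω) β := by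
  intro j
  rw [colStab_triv]
  exact mem_IrrS_top.2 (h j)

theorem mem_stX_triv {β : Ω → G → ℂ} (h : ∀ i, β i ∈ Irr G) {t : Wreath G Ω L} :
    t ∈ stX L (triv G Ω) β ↔ ∀ j, β (t.s⁻¹ • j) = β j := by
  rw [mem_stX]
  constructor
  · rintro ⟨_, h2⟩ j
    funext y
    rw [← h2 j y, irr_conj (h j)]
  · intro h2
    refine ⟨?_, ?_⟩
    · intro R hR j
      have : R = fun _ => ⊥ := by simpa [triv] using hR
      rw [this]
      ext x
      rw [mem_conjS, Subgroup.mem_bot, Subgroup.mem_bot]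
      constructor
      · intro h
        have : x = t.f j * ((t.f j)⁻¹ * x * t.f j) * (t.f j)⁻¹ := by group
        rw [this, h]
        group
      · intro h
        rw [h]
        group
    · intro j y
      rw [irr_conj (h j), h2 j]

theorem mem_LL {β : Ω → G → ℂ} (h : ∀ i, β i ∈ Irr G) {k : L} :
    k ∈ LL L β ↔ ∀ j, β (k⁻¹ • j) = β j := by
  constructor
  · rintro ⟨t, ht, rfl⟩
    exact (mem_stX_triv h).1 ht
  · intro h2
    exact ⟨⟨fun _ => 1, k⟩, (mem_stX_triv h).2 h2, rfl⟩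

theorem mem_LL_tr {β : Ω → G → ℂ} (h : ∀ i, β i ∈ Irr G) {k l : L} :
    k ∈ LL L (tr l β) ↔ l⁻¹ * k * l ∈ LL L β := by
  rw [mem_LL h, mem_LL (tr_irr h l)]
  simp only [tr]
  constructor
  · intro h2 j
    have := h2 (l • j)
    simp only [← mul_smul] at this
    rw [inv_mul_cancel, one_smul] at this
    rw [← this]
    congr 2
    group
  · intro h2 j
    have := h2 (l⁻¹ • j)
    simp only [← mul_smul] at this
    rw [← mul_smul, ← this]
    congr 2
    group

end

section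

variable {G Ω L : Type} [Group G] [Finite G] [Fintype Ω] [Group L] [Finite L] [MulAction L Ω]

theorem isExt (hExt : ExtStmt) {β : Ω → G → ℂ} (h : ∀ i, β i ∈ Irr G) :
    IsExt L (triv G Ω) β (ex L β) := by
  have h1 := hExt G Ω L (triv G Ω) β (isChars_triv h)
  unfold ex ext
  rw [dif_pos h1]
  exact h1.choose_spec

theorem exists_base (h : L) : ∃ B : Finset Ω, IsBase h B := by
  classical
  let q : Ω → MulAction.orbitRel.Quotient (Subgroup.zpowers h) Ω := fun i => Quotient.mk _ i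
  refine ⟨Finset.univ.image fun i => Quotient.out (q i), fun j => ?_⟩
  refine ⟨Quotient.out (q j), ⟨Finset.mem_image_of_mem _ (Finset.mem_univ _), ?_⟩, ?_⟩
  · exact Quotient.mk_out (s := MulAction.orbitRel (Subgroup.zpowers h) Ω) j
  · rintro b ⟨hb, hb2⟩
    obtain ⟨i, _, rfl⟩ := Finset.mem_image.1 hb
    congr 1
    have h1 : (MulAction.orbitRel (Subgroup.zpowers h) Ω) (Quotient.out (q i)) j := hb2
    have h2 : Quotient.mk (MulAction.orbitRel (Subgroup.zpowers h) Ω) (Quotient.out (q i)) =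
      Quotient.mk _ j := Quotient.sound h1
    rw [Quotient.out_eq] at h2
    exact h2

theorem isBase_conj {h : L} {B : Finset Ω} (hB : IsBase h B) (l : L) [DecidableEq Ω] :
    IsBase (l * h * l⁻¹) (B.image (fun b => l • b)) := by
  have key : ∀ b j : Ω, l • b ∈ MulAction.orbit (Subgroup.zpowers (l * h * l⁻¹)) j ↔
      b ∈ MulAction.orbit (Subgroup.zpowers h) (l⁻¹ • j) := by
    intro b j
    constructor
    · rintro ⟨⟨x, hx⟩, hxj⟩
      obtain ⟨n, rfl⟩ := Subgroup.mem_zpowers_iff.1 hx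
      refine ⟨⟨h ^ n, Subgroup.mem_zpowers_iff.2 ⟨n, rfl⟩⟩, ?_⟩
      have h1 : ((l * h * l⁻¹) ^ n) • j = l • b := hxj
      rw [conj_zpow] at h1
      show h ^ n • l⁻¹ • j = b
      have h2 := congrArg (fun x => l⁻¹ • x) h1
      simp only [mul_smul, inv_smul_smul] at h2
      exact h2
    · rintro ⟨⟨x, hx⟩, hxj⟩
      obtain ⟨n, rfl⟩ := Subgroup.mem_zpowers_iff.1 hx
      refine ⟨⟨(l * h * l⁻¹) ^ n, Subgroup.mem_zpowers_iff.2 ⟨n, rfl⟩⟩, ?_⟩
      have h1 : h ^ n • l⁻¹ • j = b := hxj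
      show ((l * h * l⁻¹) ^ n) • j = l • b
      rw [conj_zpow, mul_smul, mul_smul, h1]
  intro j
  obtain ⟨b, ⟨hb1, hb2⟩, hb3⟩ := hB (l⁻¹ • j)
  refine ⟨l • b, ⟨Finset.mem_image_of_mem _ hb1, (key b j).2 hb2⟩, ?_⟩
  rintro c ⟨hc1, hc2⟩
  obtain ⟨b', hb', rfl⟩ := Finset.mem_image.1 hc1
  rw [hb3 b' ⟨hb', (key b' j).1 hc2⟩]

omit [Group G] [Finite G] [Finite L] [Fintype Ω] in
theorem minimalPeriod_conj (h l : L) (b : Ω) :
    Function.minimalPeriod (fun i : Ω => (l * h * l⁻¹) • i) (l • b) =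
      Function.minimalPeriod (fun i : Ω => h • i) b := by
  have h1 : Function.Semiconj (fun i : Ω => l • i) (fun i : Ω => h • i)
      (fun i : Ω => (l * h * l⁻¹) • i) := fun i => by
    simp only [mul_smul, inv_smul_smul]
  have h2 : Function.Semiconj (fun i : Ω => l⁻¹ • i) (fun i : Ω => (l * h * l⁻¹) • i)
      (fun i : Ω => h • i) := fun i => by
    simp only [mul_smul, inv_smul_smul]
  apply Nat.dvd_antisymm
  · exact ((Function.isPeriodicPt_minimalPeriod _ b).map h1).minimalPeriod_dvd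
  · have := ((Function.isPeriodicPt_minimalPeriod _ (l • b)).map h2).minimalPeriod_dvd
    rwa [inv_smul_smul] at this

theorem pow_s (x : Wreath G Ω L) (n : ℕ) : (x ^ n).s = x.s ^ n :=
  map_pow (Wreath.proj : Wreath G Ω L →* L) x n

theorem ex_conj (hExt : ExtStmt) {β : Ω → G → ℂ} (h : ∀ i, β i ∈ Irr G) (x y : Wreath G Ω L) :
    ex L (tr y.s β) (y * x * y⁻¹) = ex L β x := by
  classical
  have hE := isExt (L := L) hExt h
  have hE' := isExt (L := L) hExt (tr_irr h y.s)
  by_cases hx : x ∈ stX L (triv G Ω) β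
  · have hx' : y * x * y⁻¹ ∈ stX L (triv G Ω) (tr y.s β) := by
      rw [mem_stX_triv (tr_irr h y.s)]
      intro j
      have h1 := (mem_stX_triv h).1 hx (y.s⁻¹ • j)
      simp only [tr, Wreath.conj_s]
      rw [← h1]
      simp only [← mul_smul]
      congr 2
      group
    obtain ⟨B, hB⟩ := exists_base (Ω := Ω) x.s
    have hB' := isBase_conj hB y.s
    rw [hE.value x hx B hB, hE'.value _ hx' _ hB', Finset.prod_image
      (fun a _ b _ hab => smul_left_cancel _ hab)]
    refine Finset.prod_congr rfl fun b _ => ?_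
    have e1 : tr y.s β (y.s • b) = β b := by
      show β (y.s⁻¹ • y.s • b) = β b
      rw [inv_smul_smul]
    have e2 : Function.minimalPeriod (fun i : Ω => (y * x * y⁻¹).s • i) (y.s • b) =
        Function.minimalPeriod (fun i : Ω => x.s • i) b := minimalPeriod_conj x.s y.s b
    rw [e1, e2]
    set n := Function.minimalPeriod (fun i : Ω => x.s • i) b with hn
    have e3 : (y * x * y⁻¹) ^ n = y * x ^ n * y⁻¹ := conj_pow
    have e4 : x.s ^ n • b = b := by
      have := Function.isPeriodicPt_minimalPeriod (fun i : Ω => x.s • i) b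
      rw [← hn] at this
      have h3 : (fun i : Ω => x.s • i)^[n] b = x.s ^ n • b := by
        rw [smul_iterate]
      rw [← h3]
      exact this
    rw [e3, Wreath.conj_f, inv_smul_smul, pow_s]
    have e5 : (y.s * (x.s ^ n)⁻¹ * y.s⁻¹) • y.s • b = y.s • b := by
      rw [mul_smul, inv_smul_smul, mul_smul]
      congr 1
      rw [inv_smul_eq_iff]
      exact e4.symm
    rw [e5, irr_conj (h b)]
  · have hx' : y * x * y⁻¹ ∉ stX L (triv G Ω) (tr y.s β) := by
      intro h1
      apply hx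
      rw [mem_stX_triv h]
      rw [mem_stX_triv (tr_irr h y.s)] at h1
      intro j
      have h2 := h1 (y.s • j)
      simp only [tr, Wreath.conj_s] at h2
      rw [inv_smul_smul] at h2
      rw [← h2]
      simp only [← mul_smul]
      congr 2
      group
    rw [hE.mem.1 x hx, hE'.mem.1 _ hx']

/-- EQV. -/
theorem eqv (hExt : ExtStmt) : EqvStmt := by
  intro G Ω L _ _ _ _ _ _ β hβ
  refine ⟨fun x y => ex_conj hExt hβ x y, ?_, ?_⟩
  · intro h₀ hh₀
    refine ⟨?_, ?_, ?_⟩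
    · intro x y
      unfold testT
      symm
      apply finsum_mem_eq_of_bijOn (tr y.s)
      · refine ⟨?_, ?_, ?_⟩
        · rintro β' ⟨l, rfl, hl⟩
          refine ⟨y.s * l, (tr_tr _ _ _), ?_⟩
          rw [Wreath.conj_s, hl]
          group
        · intro a _ b _ hab
          have := congrArg (tr y.s⁻¹) hab
          rwa [tr_tr, tr_tr, inv_mul_cancel, tr_one, tr_one] at this
        · rintro β' ⟨l, rfl, hl⟩
          refine ⟨tr (y.s⁻¹ * l) β, ⟨y.s⁻¹ * l, rfl, ?_⟩, ?_⟩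
          · rw [Wreath.conj_s] at hl
            have : x.s = y.s⁻¹ * (y.s * x.s * y.s⁻¹) * y.s := by group
            rw [this, hl]
            group
          · rw [tr_tr]
            congr 1
            group
      · rintro β' ⟨l, rfl, hl⟩
        have e : (y * x * y⁻¹)⁻¹ = y * x⁻¹ * y⁻¹ := by group
        rw [e, ex_conj hExt (tr_irr hβ l)]
    · intro x
      unfold testT
      refine finsum_induction _ isIntegral_zero (fun a b ha hb => ha.add hb) fun β' => ?_
      refine finsum_induction _ isIntegral_zero (fun a b ha hb => ha.add hb) fun hβ' => ?_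
      obtain ⟨l, rfl, hl⟩ := hβ'
      exact IrrS_integral (isExt hExt (tr_irr hβ l)).mem _
    · intro l
      funext x
      unfold testT
      refine finsum_congr fun β' => ?_
      have e : (∃ l' : L, β' = tr l' (tr l β) ∧ x.s = l' * (l * h₀ * l⁻¹) * l'⁻¹) ↔
          ∃ l' : L, β' = tr l' β ∧ x.s = l' * h₀ * l'⁻¹ := by
        constructor
        · rintro ⟨l', rfl, h1⟩
          refine ⟨l' * l, tr_tr _ _ _, ?_⟩
          rw [h1]
          group
        · rintro ⟨l', rfl, h1⟩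
          refine ⟨l' * l⁻¹, ?_, ?_⟩
          · rw [tr_tr]
            congr 1
            group
          · rw [h1]
            group
      exact finsum_congr_Prop (propext e) fun _ => rfl
  · intro lam hlam l
    have hmem : (fun x => lam (l⁻¹ * x * l)) ∈ IrrS (LL L (tr l β)) := by
      refine ⟨?_, ?_⟩
      · intro g hg
        apply hlam.1
        rwa [← mem_LL_tr hβ]
      · let e : LL L (tr l β) ≃* LL L β :=
          { toFun := fun x => ⟨l⁻¹ * x * l, (mem_LL_tr hβ).1 x.2⟩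
            invFun := fun x => ⟨l * x * l⁻¹, (mem_LL_tr hβ).2 (by
              have : l⁻¹ * (l * (x : L) * l⁻¹) * l = x := by group
              rw [this]
              exact x.2)⟩
            left_inv := fun x => Subtype.ext (by
              show l * (l⁻¹ * (x : L) * l) * l⁻¹ = x
              group)
            right_inv := fun x => Subtype.ext (by
              show l⁻¹ * (l * (x : L) * l⁻¹) * l = x
              group)
            map_mul' := fun x y => Subtype.ext (by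
              show l⁻¹ * ((x : L) * y) * l = (l⁻¹ * x * l) * (l⁻¹ * y * l)
              group) }
        exact irr_comp_equiv e hlam.2
    refine ⟨hmem, fun Φ hΦ => ?_⟩
    have h1 : et (tr l β) (fun x => lam (l⁻¹ * x * l)) (1 : Wreath G Ω L) =
        et β lam (1 : Wreath G Ω L) := by
      have := ex_conj hExt hβ (1 : Wreath G Ω L) (Wreath.top l)
      rw [mul_one, mul_inv_cancel] at this
      show ex L (tr l β) 1 * lam (l⁻¹ * (1 : Wreath G Ω L).s * l) = ex L β 1 * lam _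
      rw [show ex L (tr l β) (1 : Wreath G Ω L) = ex L β 1 from this, Wreath.one_s, mul_one,
        inv_mul_cancel]
    unfold val
    rw [h1]
    congr 1
    rw [← finsum_comp_equiv (MulAut.conj (Wreath.top l : Wreath G Ω L)).toEquiv]
    refine finsum_congr fun t => ?_
    have e1 : (MulAut.conj (Wreath.top l : Wreath G Ω L)).toEquiv t =
        Wreath.top l * t * (Wreath.top l)⁻¹ := rfl
    rw [e1, hΦ]
    congr 1
    show ex L (tr l β) (Wreath.top l * t * (Wreath.top l)⁻¹) *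
      lam (l⁻¹ * (Wreath.top l * t * (Wreath.top l)⁻¹).s * l) = ex L β t * lam t.s
    have e2 := ex_conj hExt hβ t (Wreath.top l)
    rw [show ex L (tr l β) (Wreath.top l * t * (Wreath.top l)⁻¹) = ex L β t from e2,
      Wreath.conj_s, Wreath.top_s]
    congr 2
    group

end

end Pool.Agent.Helper79_WRA.H97
end
end -- Pool.Agent.Helper97_WRA.Eqv

section -- Pool.Agent.Helper79_WRA.Final

/-!
WRA: everything together.
-/

open scoped BigOperators

noncomputable section

namespace Pool.Agent.Helper79_WRA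

open Pool.Agent.Helper51_AWC

theorem extAll : ExtStmt := H33.ext_
theorem eqvAll : EqvStmt := H97.eqv extAll
theorem clsAll : ClsStmt := H40.cls extAll H44.cliff eqvAll
theorem labelAll : LabelStmt := H13.label H44.br H69.alg
theorem dzuAll : DzuStmt := H48.dzu H83.pos
theorem tzeroAll : TZeroStmt := H46.tzero H91.cone
theorem restrAll : RestrStmt := H47.restr labelAll H44.kill
theorem dztAll : DztStmt := H47.dzt H69.alg H15.gal H83.pos
theorem testAll : TestStmt := H15.test extAll eqvAll H33.formi dzuAll (H33.teste dzuAll)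
theorem bmaAll : BmaStmt := H62.bma testAll eqvAll restrAll clsAll H36.lambda2 dzuAll
theorem bmbAll : BmbStmt := Helper59_WRA.bmb bmaAll labelAll H62.dzdet H83.pos
  (H40.aform extAll) eqvAll extAll clsAll H36.lambda2
theorem resumAll : ResumStmt := H46.resum bmaAll bmbAll (H46.res1 dzuAll) dztAll dzuAll
theorem sumcAll : SumcStmt := H36.sumc tzeroAll H83.tconj H75.twist

/-- Q1 for the blocks of a wreath product lying over a character of positive defect -/
theorem mainA : MainStmt :=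
  main_of H91.chainRed tzeroAll H83.tconj H45.opCore_wreath H75.twist H75.lambda H75.trans
    H75.box extAll (H13.count extAll H44.cliff) (H13.formStmt extAll) H62.mzero H69.marks
    labelAll H83.pos H83.labSum H62.dzdet

/-- Q1 for all the blocks of a wreath product -/
theorem mainB : MainBStmt :=
  mainB_of mainA H45.opCore_wreath tzeroAll H91.chainRed H75.trans H75.box
    (H13.count extAll H44.cliff) (H13.formStmt extAll) H62.mzero H69.marks labelAll H83.pos
    H83.labSum (H48.dzn H44.kill) H36.lambda2 sumcAll resumAll clsAll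

/-- Q1 for the affine groups -/
theorem affAll : AffStmt := aff_of Helper59_WRA.afa (H46.afc H15.afb)

/-- the groups all of whose alternating sums vanish -/
theorem towerAll (ℓ : ℕ) [Fact ℓ.Prime] (M : Ideal (integralClosure ℤ ℂ))
    [M.IsMaximal] (hℓ : (ℓ : integralClosure ℤ ℂ) ∈ M) (N : Type) [Group N]
    (hN : Tower ℓ N) : Finite N ∧ AllVanish ℓ M N :=
  tower_of mainB H83.pos clsAll H15.afb affAll ℓ M hℓ N hN

end Pool.Agent.Helper79_WRA
end
end -- Pool.Agent.Helper79_WRA.Final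

section -- Pool.Agent.Helper55_CC.Step

/-!
CC, module STEP: the properties of the wreath product used in the final argument.
-/

open scoped BigOperators

noncomputable section

namespace Pool.Agent.Helper98_CC.H55

open Pool.Agent.Helper51_AWC Pool.Agent.Helper79_WRA

instance clFaithful (ℓ : ℕ) : FaithfulSMul (Cl ℓ) (ZMod ℓ) where
  eq_of_smul_eq_smul := by
    intro a b h
    have h1 := h 0
    rw [cl_smul, cl_smul, add_zero, add_zero] at h1
    exact Multiplicative.toAdd.injective h1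

/-- a group with a character of positive defect is nontrivial -/
theorem nontrivial_of_largeDefect {ℓ : ℕ} [Fact ℓ.Prime] {M : Ideal (integralClosure ℤ ℂ)}
    {G : Type} [Group G] [Finite G] {χ : G → ℂ} (h : LargeDefect ℓ M χ) : Nontrivial G := by
  obtain ⟨ψ, hψ, -, n, hn, hd⟩ := h
  rw [← Finite.one_lt_card_iff_nontrivial]
  obtain ⟨m, hm, hm'⟩ := irr_one hψ
  have hn0 : 0 < n := by
    rw [hm'] at hn
    have : m = n := by exact_mod_cast hn
    rw [← this]; exact hm
  have h1 := Nat.le_of_dvd Nat.card_pos hd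
  have h2 : 1 < ℓ := (Fact.out : ℓ.Prime).one_lt
  have h3 : 0 < Nat.card (opCore ℓ G) := Nat.card_pos
  calc 1 < ℓ := h2
    _ = ℓ * 1 * 1 := by ring
    _ ≤ ℓ * Nat.card (opCore ℓ G) * n :=
      Nat.mul_le_mul (Nat.mul_le_mul_left _ h3) hn0
    _ ≤ Nat.card G := h1

/-- the Frobenius twist of a block of positive defect -/
theorem twist_asum (ℓ : ℕ) [Fact ℓ.Prime] (M : Ideal (integralClosure ℤ ℂ)) [M.IsMaximal]
    (hℓ : (ℓ : integralClosure ℤ ℂ) ∈ M) (G : Type) [Group G] [Finite G] (hG : opCore ℓ G = ⊥)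
    (χ : G → ℂ) (hχ : χ ∈ Irr G) (hLD : LargeDefect ℓ M χ) :
    ∃ s' : ℤ, asum ℓ M (fun g => labF M χ g ^ ℓ) = (Nat.card G : ℤ) * s' ∧
      (s' = 0 ∨ ∃ χ₂ ∈ Irr G, LargeDefect ℓ M χ₂ ∧ altSum ℓ M χ₂ = s') := by
  classical
  obtain ⟨hp1, hp2, hp3, hp4⟩ := H83.pos ℓ M hℓ G hG
  by_cases h : ∃ χ₂ ∈ Irr G, labF M χ₂ = fun g => labF M χ g ^ ℓ
  · obtain ⟨χ₂, hχ₂, hlab⟩ := h
    refine ⟨altSum ℓ M χ₂, ?_, Or.inr ⟨χ₂, hχ₂, ?_, rfl⟩⟩
    · rw [← hlab]
      exact H83.labSum ℓ M G hG χ₂ hχ₂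
    · by_contra hn
      obtain ⟨g, hg, hg'⟩ := hp4 χ₂ hχ₂ hn
      apply hg'
      rw [hlab]
      show labF M χ g ^ ℓ = 0
      rw [hp3 χ hχ hLD g hg, zero_pow (Fact.out : ℓ.Prime).ne_zero]
  · refine ⟨0, ?_, Or.inl rfl⟩
    rw [mul_zero]
    unfold asum
    apply Finset.sum_eq_zero
    intro d hd
    have h1 : {a | a ∈ IrrS (stab d) ∧ labF M a = fun g => labF M χ g ^ ℓ} = ∅ := by
      rw [Set.eq_empty_iff_forall_notMem]
      rintro a ⟨ha, hlab⟩
      obtain ⟨hd1, hd2, hd3⟩ := mem_chainsOn.1 hd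
      obtain ⟨χ₂, hχ₂, h2⟩ := labelAll ℓ M hℓ G d (fun D hD => (mem_psub.1 (hd1 hD)).2) hd3 a ha
      exact h ⟨χ₂, hχ₂, h2.symm.trans hlab⟩
    rw [h1, Set.ncard_empty]
    simp

theorem step : StepStmt := by
  classical
  intro ℓ hp M hM hℓ G _ _ hG χ hχ hLD
  refine ⟨twist_asum ℓ M hℓ G hG χ hχ hLD, ?_⟩
  have hnt : Nontrivial G := nontrivial_of_largeDefect hLD
  have hΓ : opCore ℓ (Gam ℓ G) = ⊥ := H45.opCore_wreath ℓ G (ZMod ℓ) (Cl ℓ) hnt hG
  have hLL : LL (Cl ℓ) (fun _ : ZMod ℓ => χ) = ⊤ := by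
    rw [eq_top_iff]
    intro h _
    exact (mem_LL (L := Cl ℓ) (β := fun _ : ZMod ℓ => χ) fun _ => hχ).2 fun _ => rfl
  have hlam : (fun _ : Cl ℓ => (1 : ℂ)) ∈ IrrS (LL (Cl ℓ) (fun _ : ZMod ℓ => χ)) := by
    rw [hLL, mem_IrrS_top]
    have h1 := linear_mem_Irr (G := Cl ℓ) 1
    simpa using h1
  obtain ⟨hc1, -, -⟩ := clsAll G (ZMod ℓ) (Cl ℓ)
  obtain ⟨χ', hχ', hval, -, hdeg⟩ := hc1 (fun _ => χ) (fun _ => hχ) (fun _ => 1) hlam
  refine ⟨χ', ⟨hχ', hval⟩, ?_, hΓ⟩
  have hcod := codeg_wreath χ' (fun _ => χ) (fun _ => 1) hχ' (fun _ => hχ) hlam hdeg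
  rw [(H83.pos ℓ M hℓ (Gam ℓ G) hΓ).1 χ' hχ', hcod]
  have hui : IsIntegral ℤ ((Nat.card G : ℂ) / χ 1) := codeg_int hχ
  have hred : red M ((Nat.card G : ℂ) / χ 1) = 0 := ((H83.pos ℓ M hℓ G hG).1 χ hχ).1 hLD
  have huI : IsIntegral ℤ (uu (fun _ : ZMod ℓ => χ)) := IsIntegral.prod _ fun _ _ => hui
  have h2 : IsIntegral ℤ ((Nat.card (LL (Cl ℓ) (fun _ : ZMod ℓ => χ)) : ℂ) / 1) := by
    rw [div_one]
    exact_mod_cast isIntegral_algebraMap (R := ℤ) (A := ℂ)
      (x := (Nat.card (LL (Cl ℓ) (fun _ : ZMod ℓ => χ)) : ℤ))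
  rw [red_mul huI h2]
  have h3 : red M (uu (fun _ : ZMod ℓ => χ)) = 0 := by
    unfold uu
    rw [red_prod _ _ fun _ _ => hui]
    exact Finset.prod_eq_zero (Finset.mem_univ (0 : ZMod ℓ)) hred
  rw [h3, zero_mul]

end Pool.Agent.Helper98_CC.H55
end
end -- Pool.Agent.Helper55_CC.Step

section -- Pool.Agent.Helper81_CC.Wcl

/-!
CC, module WCL: the alternating sum of the block of `G wr C_ℓ` covering the power of the block
of `χ`.
-/

open scoped BigOperators

noncomputable section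

namespace Pool.Agent.Helper98_CC.H81

open Pool.Agent.Helper51_AWC Pool.Agent.Helper79_WRA Pool.Agent.Helper98_CC

/-! ### characters of abelian groups -/

open Classical in
/-- the number of irreducible characters of an abelian group -/
theorem ncard_IrrS {K : Type} [Group K] [Finite K] (hK : ∀ x y : K, x * y = y * x)
    (U : Subgroup K) : (IrrS U).ncard = Nat.card U := by
  let cg : CommGroup U := { (inferInstance : Group U) with
    mul_comm := fun a b => Subtype.ext (hK a b) }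
  have hroots : HasEnoughRootsOfUnity ℂ (Monoid.exponent U) := inferInstance
  have hcard : Nat.card (U →* ℂˣ) = Nat.card U :=
    CommGroup.card_monoidHom_of_hasEnoughRootsOfUnity U ℂ
  let F : (U →* ℂˣ) → (K → ℂ) := fun ψ g => if h : g ∈ U then (ψ ⟨g, h⟩ : ℂ) else 0
  have hF1 : ∀ ψ (g : U), F ψ g = (ψ g : ℂ) := by
    intro ψ g
    simp only [F]
    rw [dif_pos g.2]
  have hF0 : ∀ ψ (g : K), g ∉ U → F ψ g = 0 := by
    intro ψ g hg
    simp only [F]
    rw [dif_neg hg]
  have hF : Function.Injective F := by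
    intro ψ ψ' h
    ext g
    rw [← hF1, ← hF1, h]
  have hr : Set.range F = IrrS U := by
    ext a
    constructor
    · rintro ⟨ψ, rfl⟩
      refine ⟨hF0 ψ, ?_⟩
      have : (fun h : U => F ψ h) = fun h : U => (ψ h : ℂ) := funext fun h => hF1 ψ h
      rw [this]
      exact linear_mem_Irr ψ
    · rintro ⟨h0, h1⟩
      obtain ⟨ψ, hψ⟩ := Pool.Agent.Helper79_WRA.H46.irr_comm (H := U)
        (fun x y => Subtype.ext (hK x y)) h1
      refine ⟨ψ, ?_⟩
      funext g
      by_cases hg : g ∈ U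
      · have h2 := congrFun hψ ⟨g, hg⟩
        have h3 := hF1 ψ ⟨g, hg⟩
        exact h3.trans h2.symm
      · rw [hF0 ψ g hg, h0 g hg]
  rw [← hr, Set.ncard_range_of_injective hF]
  exact hcard

/-! ### the cyclic group -/

section cl

open Classical

variable {ℓ : ℕ} [hℓ : Fact ℓ.Prime]

theorem neZero : NeZero ℓ := ⟨hℓ.out.ne_zero⟩

theorem card_cl : Nat.card (Cl ℓ) = ℓ := by
  have := neZero (ℓ := ℓ)
  show Nat.card (ZMod ℓ) = ℓ
  rw [Nat.card_eq_fintype_card, ZMod.card]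

theorem cl_comm (x y : Cl ℓ) : x * y = y * x := mul_comm x y

theorem cl_sub (H : Subgroup (Cl ℓ)) : H = ⊥ ∨ H = ⊤ := by
  have : Fact (Nat.card (Cl ℓ)).Prime := ⟨by rw [card_cl]; exact hℓ.out⟩
  exact H.eq_bot_or_eq_top_of_prime_card

theorem bot_ne_top : (⊥ : Subgroup (Cl ℓ)) ≠ ⊤ := by
  intro h
  have h1 : Nat.card (⊥ : Subgroup (Cl ℓ)) = Nat.card (⊤ : Subgroup (Cl ℓ)) := by rw [h]
  rw [Subgroup.card_bot, Subgroup.card_top, card_cl] at h1
  exact hℓ.out.one_lt.ne h1

theorem cl_pgroup (H : Subgroup (Cl ℓ)) : IsPGroup ℓ H := by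
  have h : IsPGroup ℓ (Cl ℓ) := IsPGroup.of_card (n := 1) (by rw [card_cl, pow_one])
  exact h.to_subgroup H

theorem sum_chains (ℓ : ℕ) [hℓ : Fact ℓ.Prime] [Finite (Cl ℓ)] (f : Finset (Subgroup (Cl ℓ)) → ℤ) :
    ∑ c ∈ chainsOn (psubIn ℓ (⊤ : Subgroup (Cl ℓ))) ⊥, f c = f {⊥} + f {⊥, ⊤} := by
  have hch : chainsOn (psubIn ℓ (⊤ : Subgroup (Cl ℓ))) ⊥ = {{⊥}, {⊥, ⊤}} := by
    ext c
    rw [mem_chainsOn, Finset.mem_insert, Finset.mem_singleton]
    constructor
    · rintro ⟨_, h2, _⟩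
      by_cases h : (⊤ : Subgroup (Cl ℓ)) ∈ c
      · right
        ext D
        rw [Finset.mem_insert, Finset.mem_singleton]
        constructor
        · intro _
          exact cl_sub D
        · rintro (rfl | rfl)
          · exact h2
          · exact h
      · left
        ext D
        rw [Finset.mem_singleton]
        constructor
        · intro hD
          rcases cl_sub D with rfl | rfl
          · rfl
          · exact absurd hD h
        · rintro rfl
          exact h2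
    · intro h
      have hmem : ∀ D : Subgroup (Cl ℓ), D ∈ psubIn ℓ (⊤ : Subgroup (Cl ℓ)) := by
        intro D
        rw [mem_psubIn]
        exact ⟨le_top, cl_pgroup D⟩
      have hchain : ∀ d : Finset (Subgroup (Cl ℓ)),
          IsChain (· ≤ ·) (d : Set (Subgroup (Cl ℓ))) := by
        intro d D _ E _ _
        rcases cl_sub D with rfl | rfl
        · exact Or.inl bot_le
        · exact Or.inr le_top
      refine ⟨fun D _ => hmem D, ?_, hchain c⟩
      rcases h with rfl | rfl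
      · exact Finset.mem_singleton_self _
      · exact Finset.mem_insert_self _ _
  have hne : ({⊥} : Finset (Subgroup (Cl ℓ))) ≠ {⊥, ⊤} := by
    intro h
    have h1 : (⊤ : Subgroup (Cl ℓ)) ∈ ({⊥} : Finset (Subgroup (Cl ℓ))) := by
      rw [h]
      exact Finset.mem_insert_of_mem (Finset.mem_singleton_self _)
    exact bot_ne_top (Finset.mem_singleton.1 h1).symm
  rw [hch, Finset.sum_pair hne]

theorem card_pair : ({⊥, ⊤} : Finset (Subgroup (Cl ℓ))).card = 2 :=
  Finset.card_pair bot_ne_top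

theorem topP_bot : topP ({⊥} : Finset (Subgroup (Cl ℓ))) = ⊥ := by
  unfold topP
  simp

theorem topP_top : topP ({⊥, ⊤} : Finset (Subgroup (Cl ℓ))) = ⊤ := by
  unfold topP
  exact le_antisymm le_top (le_iSup₂_of_le (⊤ : Subgroup (Cl ℓ))
    (Finset.mem_insert_of_mem (Finset.mem_singleton_self _)) le_rfl)

theorem card_Dl_bot : Nat.card (Dl ({⊥} : Finset (Subgroup (Cl ℓ))) (ZMod ℓ)) = ℓ := by
  have h : Function.Bijective (qq ({⊥} : Finset (Subgroup (Cl ℓ))) : ZMod ℓ → _) := by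
    refine ⟨?_, qq_surjective _⟩
    intro i j hij
    obtain ⟨p, hp, h⟩ := qq_eq_iff.1 hij
    rw [topP_bot, Subgroup.mem_bot] at hp
    rw [hp, one_smul] at h
    exact h
  have := neZero (ℓ := ℓ)
  rw [← Nat.card_eq_of_bijective _ h, Nat.card_eq_fintype_card, ZMod.card]

theorem qq_top (i j : ZMod ℓ) : (qq ({⊥, ⊤} : Finset (Subgroup (Cl ℓ))) i : Dl _ (ZMod ℓ)) =
    qq ({⊥, ⊤} : Finset (Subgroup (Cl ℓ))) j := by
  rw [qq_eq_iff]
  refine ⟨Multiplicative.ofAdd (j - i), ?_, ?_⟩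
  · rw [topP_top]
    exact Subgroup.mem_top _
  · rw [cl_smul, toAdd_ofAdd, sub_add_cancel]

theorem card_Dl_top : Nat.card (Dl ({⊥, ⊤} : Finset (Subgroup (Cl ℓ))) (ZMod ℓ)) = 1 := by
  rw [Nat.card_eq_one_iff_unique]
  refine ⟨⟨fun a b => ?_⟩, ⟨qq _ 0⟩⟩
  obtain ⟨i, rfl⟩ := qq_surjective _ a
  obtain ⟨j, rfl⟩ := qq_surjective _ b
  exact qq_top i j

theorem stab_cl (c : Finset (Subgroup (Cl ℓ))) : stab c = ⊤ := by
  rw [eq_top_iff]
  intro g _
  rw [mem_stab]
  intro D _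
  ext x
  rw [mem_conjS, cl_comm g⁻¹ x, mul_assoc, inv_mul_cancel, mul_one]

theorem faithful : FaithfulSMul (Cl ℓ) (ZMod ℓ) := by
  constructor
  intro a b h
  have h1 := h 0
  rw [cl_smul, cl_smul, add_zero, add_zero] at h1
  exact Multiplicative.toAdd.injective h1

theorem nontrivial_of_large {M : Ideal (integralClosure ℤ ℂ)} {G : Type} [Group G] [Finite G]
    {χ : G → ℂ} (h : LargeDefect ℓ M χ) : Nontrivial G := by
  by_contra hn
  rw [not_nontrivial_iff_subsingleton] at hn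
  obtain ⟨ψ, _, _, n, _, hd⟩ := h
  have h1 : Nat.card G = 1 := Nat.card_eq_one_iff_unique.2 ⟨hn, ⟨1⟩⟩
  rw [h1, mul_assoc] at hd
  exact hℓ.out.one_lt.ne' (Nat.dvd_one.1 (dvd_of_mul_right_dvd hd))

variable {G : Type} [Group G]

theorem conjS_bot {Γ : Type} [Group Γ] (g : Γ) : conjS g (⊥ : Subgroup Γ) = ⊥ := by
  unfold conjS
  rw [Subgroup.map_bot]

theorem stab_bot {Γ : Type} [Group Γ] : stab ({⊥} : Finset (Subgroup Γ)) = ⊤ := by
  rw [eq_top_iff]
  intro g _
  rw [mem_stab]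
  intro D hD
  rw [Finset.mem_singleton.1 hD, conjS_bot]

theorem cent_bot {Γ : Type} [Group Γ] (N : Subgroup Γ) :
    cent N ({⊥} : Finset (Subgroup Γ)) = N := by
  unfold cent
  simp only [Finset.mem_singleton, iInf_iInf_eq_left]
  apply le_antisymm inf_le_left
  refine le_inf le_rfl ?_
  intro x _
  rw [Subgroup.mem_centralizer_iff]
  intro y hy
  rw [Subgroup.mem_bot.1 hy, one_mul, mul_one]

theorem topc_bot : topc ({⊥} : Finset (Subgroup (Cl ℓ))) G (ZMod ℓ) = {⊥} := by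
  unfold topc
  rw [Finset.image_singleton, Subgroup.map_bot]

theorem dia_inj : Function.Injective (dia ℓ G) := by
  intro x y h
  have h1 := congrArg Wreath.f h
  have h2 := congrArg Wreath.s h
  apply Wreath.ext
  · funext u
    exact congrFun h1 0
  · exact h2

theorem mem_dia_range {x : Gam ℓ G} : x ∈ (dia ℓ G).range ↔ ∀ i, x.f i = x.f 0 := by
  constructor
  · rintro ⟨y, rfl⟩ i
    rfl
  · intro h
    exact ⟨⟨fun _ => x.f 0, x.s⟩, Wreath.ext (funext fun i => (h i).symm) rfl⟩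

theorem mem_dia_base_range {x : Gam ℓ G} :
    x ∈ ((dia ℓ G).comp (Wreath.base : (Unit → G) →* Wreath G Unit (Cl ℓ))).range ↔
      x.s = 1 ∧ ∀ i, x.f i = x.f 0 := by
  constructor
  · rintro ⟨y, rfl⟩
    exact ⟨rfl, fun i => rfl⟩
  · rintro ⟨h1, h2⟩
    exact ⟨fun _ => x.f 0, Wreath.ext (funext fun i => (h2 i).symm) h1.symm⟩

theorem mem_iota_range {x : Gam ℓ G} :
    x ∈ (iota ({⊥, ⊤} : Finset (Subgroup (Cl ℓ))) G (ZMod ℓ)).range ↔ ∀ i, x.f i = x.f 0 := by
  constructor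
  · rintro ⟨y, rfl⟩ i
    rw [iota_apply]
    show y.f (qq _ i) = y.f (qq _ 0)
    rw [qq_top i 0]
  · intro h
    refine ⟨⟨fun _ => x.f 0, ⟨x.s, by rw [stab_cl]; exact Subgroup.mem_top _⟩⟩, ?_⟩
    rw [iota_apply]
    exact Wreath.ext (funext fun i => (h i).symm) rfl

theorem mem_iota_base_range {x : Gam ℓ G} :
    x ∈ ((iota ({⊥, ⊤} : Finset (Subgroup (Cl ℓ))) G (ZMod ℓ)).comp
      (Wreath.base : (Dl _ (ZMod ℓ) → G) →* Wreath G _ (stab _))).range ↔
      x.s = 1 ∧ ∀ i, x.f i = x.f 0 := by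
  constructor
  · rintro ⟨y, rfl⟩
    refine ⟨rfl, fun i => ?_⟩
    rw [MonoidHom.comp_apply, iota_apply]
    show y (qq _ i) = y (qq _ 0)
    rw [qq_top i 0]
  · rintro ⟨h1, h2⟩
    refine ⟨fun _ => x.f 0, ?_⟩
    rw [MonoidHom.comp_apply, iota_apply]
    exact Wreath.ext (funext fun i => (h2 i).symm) h1.symm

theorem topSt_unit (v : Finset (Unit → Subgroup G)) (α : Unit → G → ℂ) :
    topSt (Cl ℓ) v α = ⊤ := by
  rw [eq_top_iff]
  intro h _
  rw [mem_topSt]
  intro j
  refine ⟨1, ?_, ?_⟩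
  · intro R _
    rw [conjS_one]
  · intro y
    rw [one_mul, inv_one, mul_one]

/-- the number of elements of a subgroup of the cyclic group, squared -/
theorem sq_card (U : Subgroup (Cl ℓ)) :
    (Nat.card U : ℤ) * (Nat.card U : ℤ) = 1 + ((ℓ : ℤ) ^ 2 - 1) * (if ⊤ ≤ U then 1 else 0) := by
  rcases cl_sub U with rfl | rfl
  · have h : ¬ (⊤ : Subgroup (Cl ℓ)) ≤ ⊥ := fun h => bot_ne_top (le_antisymm bot_le h)
    rw [if_neg h, Subgroup.card_bot]
    simp
  · rw [if_pos le_rfl, Subgroup.card_top, card_cl]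
    ring

theorem ncard_good {K : Type} {S : Set (K → ℂ)} {P : (K → ℂ) → Prop} {Q : Prop} [Decidable Q]
    (h : ∀ lam ∈ S, (P lam ↔ Q)) :
    {lam | lam ∈ S ∧ P lam}.ncard = if Q then S.ncard else 0 := by
  by_cases hQ : Q
  · rw [if_pos hQ]
    congr 1
    ext lam
    exact ⟨fun h' => h'.1, fun h' => ⟨h', (h lam h').2 hQ⟩⟩
  · rw [if_neg hQ]
    have : {lam | lam ∈ S ∧ P lam} = ∅ := by
      ext lam
      exact ⟨fun h' => hQ ((h lam h'.1).1 h'.2), fun h' => h'.elim⟩
    rw [this, Set.ncard_empty]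

theorem sum_ite_filter {ι : Type} (s : Finset ι) (P : ι → Prop) [DecidablePred P] (f : ι → ℤ) :
    ∑ a ∈ s, f a * (if P a then 1 else 0) = ∑ a ∈ s.filter P, f a := by
  rw [Finset.sum_filter]
  apply Finset.sum_congr rfl
  intro a _
  split_ifs
  · rw [mul_one]
  · rw [mul_zero]

variable [Finite G]

/-- the inner sum for the trivial chain of the top group -/
theorem tsum_bot (hbp : BoxpStmt) (hbt : BoxtStmt) (hga : GoodaStmt)
    (M : Ideal (integralClosure ℤ ℂ)) [M.IsMaximal] (hM : (ℓ : integralClosure ℤ ℂ) ∈ M)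
    (hG : opCore ℓ G = ⊥) {χ : G → ℂ} (hχ : χ ∈ Irr G) (hLD : LargeDefect ℓ M χ)
    {χ' : Gam ℓ G → ℂ} (hχ' : Over ℓ χ χ') {s : ℤ}
    (hs : asum ℓ M (labF M χ) = (Nat.card G : ℤ) * s) :
    tsum ℓ (Wreath.base : (ZMod ℓ → G) →* Gam ℓ G).range (wt M χ') {⊥} =
      (Nat.card G : ℤ) ^ ℓ * (s ^ ℓ + ((ℓ : ℤ) ^ 2 - 1) * s) := by
  have hGne : (Nat.card G : ℤ) ≠ 0 := by exact_mod_cast Nat.card_pos.ne'
  have hcardZ : Fintype.card (ZMod ℓ) = ℓ := ZMod.card ℓ
  rw [inner_sum Pool.Agent.Helper79_WRA.H75.trans Pool.Agent.Helper79_WRA.H75.box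
    (Pool.Agent.Helper79_WRA.H13.count extAll Pool.Agent.Helper79_WRA.H44.cliff) ℓ M hG χ'
    (MonoidHom.id (Gam ℓ G)) (fun x y h => h) {⊥} (by
      rw [stab_bot]
      exact MonoidHom.range_eq_top.2 (fun x => ⟨x, rfl⟩)) (by
      rw [cent_bot, MonoidHom.id_comp])]
  have hterm : ∀ v ∈ chainsOn (boxes ℓ G (ZMod ℓ)) (fun _ => ⊥),
      ∑ α ∈ charsOf v, (∏ j, (Nat.card (colStab v j) : ℤ)) *
        (Nat.card (topSt (Cl ℓ) v α) : ℤ) *
        (({lam | lam ∈ IrrS (topSt (Cl ℓ) v α) ∧ Good M (clas (MonoidHom.id (Gam ℓ G)))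
          (fun g => omega (MonoidHom.id _) χ' g) (eta v α lam)}.ncard : ℕ) : ℤ) =
      ∑ α ∈ (charsOf v).filter (fun w => ∀ j, labF M (w j) = labF M χ),
        ∏ j, (Nat.card (colStab v j) : ℤ) + ((ℓ : ℤ) ^ 2 - 1) *
      ∑ α ∈ (charsOf v).filter (fun w => ⊤ ≤ topSt (Cl ℓ) v w ∧ ∀ j, labF M (w j) = labF M χ),
        ∏ j, (Nat.card (colStab v j) : ℤ) := by
    intro v hv
    rw [← sum_ite_filter, ← sum_ite_filter, Finset.mul_sum, ← Finset.sum_add_distrib]
    apply Finset.sum_congr rfl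
    intro α hα
    have hα' := mem_charsOf.1 hα
    have h1 := ncard_good (S := IrrS (topSt (Cl ℓ) v α))
      (P := fun lam => Good M (clas (MonoidHom.id (Gam ℓ G)))
          (fun g => omega (MonoidHom.id _) χ' g) (eta v α lam))
      (Q := ∀ j, labF M (α j) = labF M χ)
      (fun lam hlam => hga ℓ M hM G hG χ hχ hLD χ' hχ' v hv α hα' lam hlam)
    rw [h1, ncard_IrrS cl_comm]
    by_cases hQ : ∀ j, labF M (α j) = labF M χ
    · rw [if_pos hQ, if_pos hQ, mul_assoc, sq_card]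
      by_cases hT : ⊤ ≤ topSt (Cl ℓ) v α
      · rw [if_pos hT, if_pos ⟨hT, hQ⟩]
        ring
      · rw [if_neg hT, if_neg (fun h => hT h.1)]
        ring
    · rw [if_neg hQ, if_neg hQ, if_neg (fun h => hQ h.2)]
      push_cast
      ring
  have hA := hbp ℓ M G (ZMod ℓ) (fun _ => labF M χ) hG
  have hB := hbt ℓ M G (ZMod ℓ) (Cl ℓ) 0 (labF M χ)
    (fun j => ⟨Multiplicative.ofAdd j, by rw [cl_smul, toAdd_ofAdd, add_zero]⟩) hG
    (fun d hd a ha h => (Pool.Agent.Helper79_WRA.H83.pos ℓ M hM G hG).2.1 d hd a ha χ hχ hLD h)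
  rw [Finset.prod_const, Finset.card_univ, hcardZ, hs] at hA
  rw [hcardZ, hs] at hB
  have hB' := mul_left_cancel₀ hGne (hB.trans (by ring :
    (Nat.card G : ℤ) ^ ℓ * ((Nat.card G : ℤ) * s) =
      (Nat.card G : ℤ) * ((Nat.card G : ℤ) ^ ℓ * s)))
  rw [Finset.sum_congr rfl (fun v hv => by rw [hterm v hv])]
  simp_rw [mul_add]
  rw [Finset.sum_add_distrib, hA]
  have h3 : ∀ v : Finset (ZMod ℓ → Subgroup G), (-1 : ℤ) ^ (v.card + 1) * (((ℓ : ℤ) ^ 2 - 1) *
      ∑ α ∈ (charsOf v).filter (fun w => ⊤ ≤ topSt (Cl ℓ) v w ∧ ∀ j, labF M (w j) = labF M χ),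
        ∏ j, (Nat.card (colStab v j) : ℤ)) = ((ℓ : ℤ) ^ 2 - 1) * ((-1 : ℤ) ^ (v.card + 1) *
      ∑ α ∈ (charsOf v).filter (fun w => ⊤ ≤ topSt (Cl ℓ) v w ∧ ∀ j, labF M (w j) = labF M χ),
        ∏ j, (Nat.card (colStab v j) : ℤ)) := by
    intro v
    ring
  simp_rw [h3]
  rw [← Finset.mul_sum, hB', mul_pow]
  ring

/-- the inner sum for the chain containing the whole of the top group -/
theorem tsum_top (hbp : BoxpStmt) (hgb : GoodbStmt)
    (M : Ideal (integralClosure ℤ ℂ)) [M.IsMaximal] (hM : (ℓ : integralClosure ℤ ℂ) ∈ M)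
    (hG : opCore ℓ G = ⊥) {χ : G → ℂ} (hχ : χ ∈ Irr G) (hLD : LargeDefect ℓ M χ)
    {χ' : Gam ℓ G → ℂ} (hχ' : Over ℓ χ χ') {s' : ℤ}
    (hs : asum ℓ M (fun g => labF M χ g ^ ℓ) = (Nat.card G : ℤ) * s') :
    tsum ℓ (Wreath.base : (ZMod ℓ → G) →* Gam ℓ G).range (wt M χ')
      (topc ({⊥, ⊤} : Finset (Subgroup (Cl ℓ))) G (ZMod ℓ)) =
      (Nat.card G : ℤ) * ((ℓ : ℤ) ^ 2 * s') := by
  obtain ⟨-, -, -, -, -, hrange, hcent, -, -⟩ := Pool.Agent.Helper79_WRA.H36.lambda2 ℓ G (ZMod ℓ)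
    (Cl ℓ) ({⊥, ⊤} : Finset (Subgroup (Cl ℓ))) (fun D _ => cl_pgroup D)
    ⟨_, Finset.mem_insert_self _ _⟩ (by
      intro D _ E _ _
      rcases cl_sub D with rfl | rfl
      · exact Or.inl bot_le
      · exact Or.inr le_top)
  rw [inner_sum Pool.Agent.Helper79_WRA.H75.trans Pool.Agent.Helper79_WRA.H75.box
    (Pool.Agent.Helper79_WRA.H13.count extAll Pool.Agent.Helper79_WRA.H44.cliff) ℓ M hG χ'
    (dia ℓ G) dia_inj _ (by
      rw [← hrange]
      ext x
      rw [mem_dia_range, mem_iota_range]) (by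
      rw [hcent]
      ext x
      rw [mem_dia_base_range, mem_iota_base_range])]
  have hterm : ∀ v ∈ chainsOn (boxes ℓ G Unit) (fun _ => ⊥),
      ∑ α ∈ charsOf v, (∏ j, (Nat.card (colStab v j) : ℤ)) *
        (Nat.card (topSt (Cl ℓ) v α) : ℤ) *
        (({lam | lam ∈ IrrS (topSt (Cl ℓ) v α) ∧ Good M (clas (dia ℓ G))
          (fun g => omega (MonoidHom.id _) χ' g) (eta v α lam)}.ncard : ℕ) : ℤ) =
      (ℓ : ℤ) ^ 2 *
      ∑ α ∈ (charsOf v).filter (fun w => ∀ j, labF M (w j) = fun g => labF M χ g ^ ℓ),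
        ∏ j, (Nat.card (colStab v j) : ℤ) := by
    intro v hv
    rw [← sum_ite_filter, Finset.mul_sum]
    apply Finset.sum_congr rfl
    intro α hα
    have hα' := mem_charsOf.1 hα
    have h1 := ncard_good (S := IrrS (topSt (Cl ℓ) v α))
      (P := fun lam => Good M (clas (dia ℓ G))
          (fun g => omega (MonoidHom.id _) χ' g) (eta v α lam))
      (Q := ∀ j, labF M (α j) = fun g => labF M χ g ^ ℓ)
      (fun lam hlam => (hgb ℓ M hM G hG χ hχ hLD χ' hχ' v hv α hα' lam hlam).trans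
        ⟨fun h j => funext h, fun h g => congrFun (h ()) g⟩)
    rw [h1, ncard_IrrS cl_comm, topSt_unit, Subgroup.card_top, card_cl]
    by_cases hQ : ∀ j, labF M (α j) = fun g => labF M χ g ^ ℓ
    · rw [if_pos hQ, if_pos hQ]
      ring
    · rw [if_neg hQ, if_neg hQ]
      push_cast
      ring
  have hA := hbp ℓ M G Unit (fun _ => fun g => labF M χ g ^ ℓ) hG
  rw [Finset.prod_const, Finset.card_univ, Fintype.card_unit, hs, pow_one] at hA
  rw [Finset.sum_congr rfl (fun v hv => by rw [hterm v hv])]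
  have h3 : ∀ v : Finset (Unit → Subgroup G), (-1 : ℤ) ^ (v.card + 1) * ((ℓ : ℤ) ^ 2 *
      ∑ α ∈ (charsOf v).filter (fun w => ∀ j, labF M (w j) = fun g => labF M χ g ^ ℓ),
        ∏ j, (Nat.card (colStab v j) : ℤ)) = (ℓ : ℤ) ^ 2 * ((-1 : ℤ) ^ (v.card + 1) *
      ∑ α ∈ (charsOf v).filter (fun w => ∀ j, labF M (w j) = fun g => labF M χ g ^ ℓ),
        ∏ j, (Nat.card (colStab v j) : ℤ)) := by
    intro v
    ring
  simp_rw [h3]
  rw [← Finset.mul_sum, hA]
  ring

/-- WCL: the alternating sum of the block of `G wr C_ℓ` covering the power of the block of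
`χ`. -/
theorem wcl (hbp : BoxpStmt) (hbt : BoxtStmt) (hga : GoodaStmt) (hgb : GoodbStmt) :
    WclStmt := by
  intro ℓ hℓ M hMm hM G _ _ hG χ hχ hLD χ' hχ' s s' hs hs'
  have : Nontrivial G := nontrivial_of_large hLD
  have : FaithfulSMul (Cl ℓ) (ZMod ℓ) := faithful
  have hΓ : opCore ℓ (Gam ℓ G) = ⊥ :=
    Pool.Agent.Helper79_WRA.H45.opCore_wreath ℓ G (ZMod ℓ) (Cl ℓ) inferInstance hG
  have hGne : (Nat.card G : ℤ) ^ ℓ ≠ 0 := by
    apply pow_ne_zero
    exact_mod_cast Nat.card_pos.ne'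
  have hN : (Wreath.base : (ZMod ℓ → G) →* Gam ℓ G).range.Normal := by
    refine ⟨?_⟩
    intro x hx g
    rw [Wreath.mem_base_range] at hx ⊢
    rw [Wreath.conj_s, hx, mul_one, mul_inv_cancel]
  have hZ : Nat.card (ZMod ℓ) = ℓ := card_cl
  set r : Finset (Subgroup (Cl ℓ)) → ℤ := fun c =>
    if c = {⊥} then s ^ ℓ + ((ℓ : ℤ) ^ 2 - 1) * s else (ℓ : ℤ) ^ 2 * s' with hr
  have hne : ({⊥, ⊤} : Finset (Subgroup (Cl ℓ))) ≠ {⊥} := by
    intro h
    have h1 : (⊤ : Subgroup (Cl ℓ)) ∈ ({⊥} : Finset (Subgroup (Cl ℓ))) := by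
      rw [← h]
      exact Finset.mem_insert_of_mem (Finset.mem_singleton_self _)
    exact bot_ne_top (Finset.mem_singleton.1 h1).symm
  have hr1 : r {⊥} = s ^ ℓ + ((ℓ : ℤ) ^ 2 - 1) * s := if_pos rfl
  have hr2 : r {⊥, ⊤} = (ℓ : ℤ) ^ 2 * s' := if_neg hne
  have h1 : (Nat.card (Gam ℓ G) : ℤ) * altSum ℓ M χ' = (Nat.card G : ℤ) ^ ℓ *
      ∑ c ∈ chainsOn (psubIn ℓ (⊤ : Subgroup (Cl ℓ))) ⊥, (-1) ^ (c.card + 1) * r c := by
    rw [card_mul_altSum, hΓ]
    have hw : ∀ d : Finset (Subgroup (Gam ℓ G)), (weight M χ' d : ℤ) = wt M χ' (stab d) := by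
      intro d
      simp only [weight, wt]
      push_cast
      rfl
    simp_rw [hw]
    rw [Pool.Agent.Helper79_WRA.H91.chainRed ℓ (Gam ℓ G) _ hN hΓ (wt M χ')]
    have h2 := sumcAll ℓ G (ZMod ℓ) (Cl ℓ) (wt M χ') (wt_conj M χ') hΓ r
    rw [hZ] at h2
    apply h2
    intro c hc
    have hc' : c = {⊥} ∨ c = {⊥, ⊤} := by
      obtain ⟨_, h2, _⟩ := mem_chainsOn.1 hc
      by_cases h : (⊤ : Subgroup (Cl ℓ)) ∈ c
      · right
        ext D
        rw [Finset.mem_insert, Finset.mem_singleton]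
        constructor
        · intro _
          exact cl_sub D
        · rintro (rfl | rfl)
          · exact h2
          · exact h
      · left
        ext D
        rw [Finset.mem_singleton]
        constructor
        · intro hD
          rcases cl_sub D with rfl | rfl
          · rfl
          · exact absurd hD h
        · rintro rfl
          exact h2
    rcases hc' with rfl | rfl
    · rw [topc_bot, card_Dl_bot, tsum_bot hbp hbt hga M hM hG hχ hLD hχ' hs, hr1]
    · rw [card_Dl_top, tsum_top hbp hgb M hM hG hχ hLD hχ' hs', pow_one, hr2]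
  rw [sum_chains ℓ, card_pair, Finset.card_singleton, hr1, hr2, card_wreath, hZ, card_cl] at h1
  apply mul_left_cancel₀ hGne
  push_cast at h1
  calc (Nat.card G : ℤ) ^ ℓ * ((ℓ : ℤ) * altSum ℓ M χ')
      = (Nat.card G : ℤ) ^ ℓ * (ℓ : ℤ) * altSum ℓ M χ' := by ring
    _ = _ := by rw [h1]; ring

end cl

end Pool.Agent.Helper98_CC.H81
end
end -- Pool.Agent.Helper81_CC.Wcl
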