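import Pool.Agent.Helper12_AWB.B048
import Pool.Agent.Helper75_PP.Conj
import Pool.Agent.Helper83_WRA.Pos
import Pool.Agent.Helper98_PP.StmtsR2

/-!
# Merged copies (generated) of the modules

* `Pool.Agent.Helper75_PP.Res`
* `Pool.Agent.Helper75_PP.Blk`
* `Pool.Agent.Helper60_PP.OrvA`
* `Pool.Agent.Helper60_PP.OrvB`
* `Pool.Agent.Helper60_PP.Orv`
-/

set_option autoImplicit false

section -- Pool.Agent.Helper75_PP.Res

/-!
# Squad PP: the residues of the central characters as algebra homomorphisms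
-/

open scoped BigOperators

set_option linter.unusedSectionVars false

noncomputable section

namespace Pool.Agent.PP.H75

open Pool.Agent.Helper51_AWC Pool.Agent.Helper79_WRA Pool.Agent.PP

section cc

variable {H : Type} [Group H] [Fintype H]

/-- the central character at a complex class function -/
def wC (A χ : H → ℂ) : ℂ := (∑ t, A t * χ t) / χ 1

theorem act_eq_wC {χ : H → ℂ} {n : ℕ} {ρ : Representation ℂ H (Fin n → ℂ)}
    (hρ : ρ.IsIrreducible) (hχ : ρ.character = χ) (h1 : χ 1 ≠ 0) {A : H → ℂ}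
    (hA : ∀ g h, A (h * g * h⁻¹) = A g) : act ρ A = wC A χ • LinearMap.id := by
  obtain ⟨c, hc⟩ := act_scalar ρ A hA
  rw [hc]
  congr 1
  have h2 := act_trace ρ A
  rw [hc] at h2
  have h3 : LinearMap.trace ℂ (Fin n → ℂ) (c • LinearMap.id) = c * χ 1 := by
    rw [map_smul, smul_eq_mul]
    congr 1
    rw [← hχ, Representation.character, map_one]
    rfl
  rw [h3] at h2
  rw [wC, eq_div_iff h1, h2, hχ]

theorem wC_mul {χ : H → ℂ} (hχ : χ ∈ Irr H) {A B : H → ℂ} (hA : ∀ g h, A (h * g * h⁻¹) = A g)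
    (hB : ∀ g h, B (h * g * h⁻¹) = B g) (hAB : ∀ g h, (fun y => ∑ t, A t * B (t⁻¹ * y))
      (h * g * h⁻¹) = (fun y => ∑ t, A t * B (t⁻¹ * y)) g) :
    wC (fun y => ∑ t, A t * B (t⁻¹ * y)) χ = wC A χ * wC B χ := by
  have h1 := irr_one_ne hχ
  obtain ⟨n, ρ, hρ, hch⟩ := hχ
  have h2 := act_mul ρ A B
  rw [act_eq_wC hρ hch h1 hA, act_eq_wC hρ hch h1 hB, act_eq_wC hρ hch h1 hAB] at h2
  have h3 := congrArg (LinearMap.trace ℂ (Fin n → ℂ)) h2
  have h4 : (wC A χ • (LinearMap.id : (Fin n → ℂ) →ₗ[ℂ] (Fin n → ℂ))) * (wC B χ • LinearMap.id) =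
      (wC A χ * wC B χ) • LinearMap.id := by
    apply LinearMap.ext
    intro v
    change wC A χ • wC B χ • v = (wC A χ * wC B χ) • v
    rw [smul_smul]
  rw [h4, map_smul, map_smul, smul_eq_mul, smul_eq_mul] at h3
  have h5 : LinearMap.trace ℂ (Fin n → ℂ) LinearMap.id = χ 1 := by
    rw [← hch, Representation.character, map_one]
    rfl
  rw [h5] at h3
  exact (mul_right_cancel₀ h1 h3).symm

/-- the central character through the classes -/
theorem wC_eq [Fintype (ConjClasses H)] {χ : H → ℂ} (hχ : χ ∈ Irr H) {A : H → ℂ}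
    (hA : ∀ g h, A (h * g * h⁻¹) = A g) :
    wC A χ = ∑ K : ConjClasses H, A (Quotient.out K) *
      omega (MonoidHom.id H) χ (Quotient.out K) := by
  have h := sum_classes (φ := χ) (ψ := fun g => A g⁻¹) (irr_one_ne hχ) (by
    intro g h
    have e : (h * g * h⁻¹)⁻¹ = h * g⁻¹ * h⁻¹ := by group
    change A (h * g * h⁻¹)⁻¹ = A g⁻¹
    rw [e, hA])
  rw [wC, div_eq_iff (irr_one_ne hχ), mul_comm (∑ K : ConjClasses H, _) (χ 1)]
  have e1 : ∑ t, A t * χ t = ∑ g, χ g * (fun g => A g⁻¹) g⁻¹ := by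
    apply Finset.sum_congr rfl
    intro t _
    change _ = χ t * A t⁻¹⁻¹
    rw [inv_inv, mul_comm]
  rw [e1, h]
  congr 1
  apply Finset.sum_congr rfl
  intro K _
  rw [inv_inv, mul_comm]

end cc

section resi

variable {M : Ideal (integralClosure ℤ ℂ)}

/-- lifts of residues -/
def lf (M : Ideal (integralClosure ℤ ℂ)) (x : FF M) : ℂ :=
  ((Ideal.Quotient.mk_surjective x).choose : integralClosure ℤ ℂ)

theorem lf_integral (x : FF M) : IsIntegral ℤ (lf M x) :=
  ((Ideal.Quotient.mk_surjective x).choose : integralClosure ℤ ℂ).2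

theorem red_lf (x : FF M) : red M (lf M x) = x := by
  rw [red_of (lf_integral x)]
  exact (Ideal.Quotient.mk_surjective x).choose_spec

variable {H : Type} [Group H] [Finite H]

/-- `res` through an integral lift -/
theorem res_eq_red [Fintype H] {χ : H → ℂ} (hχ : χ ∈ Irr H) {A : H → ℂ}
    (hA : ∀ g h, A (h * g * h⁻¹) = A g) (hint : ∀ g, IsIntegral ℤ (A g)) (a : H → FF M)
    (ha : ∀ g, red M (A g) = a g) : IsIntegral ℤ (wC A χ) ∧ res M a χ = red M (wC A χ) := by
  have := Fintype.ofFinite (ConjClasses H)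
  rw [wC_eq hχ hA]
  refine ⟨IsIntegral.sum _ fun K _ => (hint _).mul (omega_integral _ hχ _), ?_⟩
  have h := red_sum (M := M) Finset.univ (fun K : ConjClasses H => A (Quotient.out K) *
    omega (MonoidHom.id H) χ (Quotient.out K))
    (fun K _ => (hint _).mul (omega_integral _ hχ _))
  refine Eq.trans ?_ h.symm
  rw [res, finsum_eq_sum_of_fintype]
  apply Finset.sum_congr rfl
  intro K _
  rw [red_mul (hint _) (omega_integral _ hχ _), ha]

/-- T1: `res` is multiplicative on class functions -/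
theorem res_mulF [M.IsMaximal] : letI := Ideal.Quotient.field M
    ∀ {χ : H → ℂ}, χ ∈ Irr H → ∀ {a b : H → FF M}, IsCl a → IsCl b →
      res M (mulF a b) χ = res M a χ * res M b χ := by
  let _ := Ideal.Quotient.field M
  intro χ hχ a b ha hb
  have := Fintype.ofFinite H
  set A : H → ℂ := fun g => lf M (a g) with hA
  set B : H → ℂ := fun g => lf M (b g) with hB
  have hA1 : ∀ g h, A (h * g * h⁻¹) = A g := by
    intro g h
    rw [hA]
    change lf M (a _) = lf M (a _)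
    rw [ha g h]
  have hB1 : ∀ g h, B (h * g * h⁻¹) = B g := by
    intro g h
    rw [hB]
    change lf M (b _) = lf M (b _)
    rw [hb g h]
  have hA2 : ∀ g, IsIntegral ℤ (A g) := fun g => lf_integral _
  have hB2 : ∀ g, IsIntegral ℤ (B g) := fun g => lf_integral _
  have hAB1 : ∀ g h, (fun y => ∑ t, A t * B (t⁻¹ * y)) (h * g * h⁻¹) =
      (fun y => ∑ t, A t * B (t⁻¹ * y)) g := by
    intro g h
    change ∑ t, A t * B (t⁻¹ * (h * g * h⁻¹)) = ∑ t, A t * B (t⁻¹ * g)
    rw [← Equiv.sum_comp (MulAut.conj h).toEquiv]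
    apply Finset.sum_congr rfl
    intro t _
    change A (h * t * h⁻¹) * B ((h * t * h⁻¹)⁻¹ * (h * g * h⁻¹)) = _
    have e : (h * t * h⁻¹)⁻¹ * (h * g * h⁻¹) = h * (t⁻¹ * g) * h⁻¹ := by group
    rw [e, hA1, hB1]
  have hint : ∀ g, IsIntegral ℤ (∑ t, A t * B (t⁻¹ * g)) := fun g =>
    IsIntegral.sum _ fun t _ => (hA2 _).mul (hB2 _)
  obtain ⟨i1, r1⟩ := res_eq_red hχ hA1 hA2 a (fun g => red_lf _)
  obtain ⟨i2, r2⟩ := res_eq_red hχ hB1 hB2 b (fun g => red_lf _)
  obtain ⟨_, r3⟩ := res_eq_red hχ hAB1 hint (mulF a b) (by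
    intro g
    rw [red_sum _ _ (fun t _ => (hA2 _).mul (hB2 _)), mulF, finsum_eq_sum_of_fintype]
    apply Finset.sum_congr rfl
    intro t _
    rw [red_mul (hA2 _) (hB2 _)]
    change red M (lf M (a t)) * red M (lf M (b _)) = _
    rw [red_lf, red_lf])
  rw [r1, r2, r3, wC_mul hχ hA1 hB1 hAB1, red_mul i1 i2]

/-- T4 -/
theorem res_congr {χ ψ : H → ℂ} (h : labF M ψ = labF M χ) (a : H → FF M) :
    res M a ψ = res M a χ := by
  unfold res
  apply finsum_congr
  intro K
  have := congrFun h (Quotient.out K)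
  change red M _ = red M _ at this
  rw [this]

theorem res_zero (χ : H → ℂ) : res M (0 : H → FF M) χ = 0 := by
  unfold res
  rw [finsum_eq_zero_of_forall_eq_zero]
  intro K
  change (0 : FF M) * _ = 0
  rw [zero_mul]

/-- `res` at a class sum is the label -/
theorem res_clsum [M.IsMaximal] {χ : H → ℂ} (x : H) :
    letI := Ideal.Quotient.field M
    res M (clsum (FF M) ⊤ x) χ = labF M χ x := by
  let _ := Ideal.Quotient.field M
  have hK : ∀ K : ConjClasses H, ConjClasses.mk (Quotient.out K) = K := fun K => Quotient.out_eq K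
  have hx : IsConj x (Quotient.out (ConjClasses.mk x)) := by
    rw [← ConjClasses.mk_eq_mk_iff_isConj, hK]
  unfold res
  rw [finsum_eq_single _ (ConjClasses.mk x)]
  · obtain ⟨c, hc⟩ := isConj_iff.1 hx
    rw [clsum, if_pos ⟨c, Subgroup.mem_top _, hc.symm⟩, one_mul]
    change red M (omega (MonoidHom.id H) χ _) = red M (omega (MonoidHom.id H) χ x)
    congr 1
    unfold omega
    congr 1
    apply finsum_congr
    intro h
    have e : IsConj (Quotient.out (ConjClasses.mk x)) ((MonoidHom.id H) h) =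
        IsConj x ((MonoidHom.id H) h) := propext ⟨fun h' => hx.trans h', fun h' => hx.symm.trans h'⟩
    exact congrArg (fun p : Prop => ∑ᶠ (_ : p), χ h) e
  · intro K hKx
    rw [clsum, if_neg, zero_mul]
    rintro ⟨c, _, hc⟩
    apply hKx
    rw [← hK K]
    symm
    rw [ConjClasses.mk_eq_mk_iff_isConj, isConj_iff]
    exact ⟨c, hc.symm⟩

end resi

end Pool.Agent.PP.H75
end
end -- Pool.Agent.Helper75_PP.Res

section -- Pool.Agent.Helper75_PP.Blk

/-!
# Squad PP: block idempotents and their characters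
-/

open scoped BigOperators

set_option linter.unusedSectionVars false

noncomputable section

namespace Pool.Agent.PP.H75

open Pool.Agent.Helper51_AWC Pool.Agent.Helper79_WRA Pool.Agent.PP

section loc

variable {F H : Type} [Field F] [Group H] [Finite H]

instance : Module.Finite F (MonoidAlgebra F H) :=
  Module.Finite.equiv (maL (F := F) (H := H))

/-- a power of a central element generates an idempotent -/
theorem exists_idem (a : H → F) (ha : IsCl a) : ∃ (n : ℕ) (c : H → F), IsCl c ∧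
    ma a ^ (n + 1) * ma c * (ma a ^ (n + 1) * ma c) = ma a ^ (n + 1) * ma c ∧
    ma a ^ (n + 1) * (ma a ^ (n + 1) * ma c) = ma a ^ (n + 1) := by
  set Z := Subalgebra.center F (MonoidAlgebra F H)
  have hfin : Module.Finite F Z := inferInstance
  have hart : IsArtinianRing Z := IsArtinianRing.of_finite F Z
  obtain ⟨n, y, hy⟩ := IsArtinian.exists_pow_succ_smul_dvd
    (⟨ma a, (isCl_iff a).1 ha⟩ : Z) (1 : Z)
  rw [smul_eq_mul, smul_eq_mul, mul_one] at hy
  set r : Z := ⟨ma a, (isCl_iff a).1 ha⟩ with hr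
  -- `r ^ (n+1+k) * y ^ k = r ^ (n+1)`
  have h1 : ∀ k : ℕ, r ^ (n + 1 + k) * y ^ k = r ^ (n + 1) := by
    intro k
    induction k with
    | zero => rw [add_zero, pow_zero, mul_one]
    | succ k ih =>
      calc r ^ (n + 1 + (k + 1)) * y ^ (k + 1)
          = r ^ (k + 1) * (r ^ n.succ * y) * y ^ k := by
            rw [show n + 1 + (k + 1) = (k + 1) + n.succ by omega, pow_add, pow_succ y]
            ring
        _ = r ^ (k + 1) * r ^ n * y ^ k := by rw [hy]
        _ = r ^ (n + 1 + k) * y ^ k := by rw [← pow_add]; congr 2; omega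
        _ = r ^ (n + 1) := ih
  have h2 := h1 (n + 1)
  have h3 : r ^ (n + 1) * (r ^ (n + 1) * y ^ (n + 1)) = r ^ (n + 1) := by
    rw [← mul_assoc, ← pow_add, h2]
  obtain ⟨c, hc⟩ := ma_surjective (((y ^ (n + 1) : Z) : MonoidAlgebra F H))
  refine ⟨n, c, ?_, ?_, ?_⟩
  · rw [isCl_iff, hc]
    exact (y ^ (n + 1) : Z).2
  · rw [hc]
    have h4 : r ^ (n + 1) * y ^ (n + 1) * (r ^ (n + 1) * y ^ (n + 1)) =
        r ^ (n + 1) * y ^ (n + 1) := by
      calc r ^ (n + 1) * y ^ (n + 1) * (r ^ (n + 1) * y ^ (n + 1))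
          = (r ^ (n + 1) * (r ^ (n + 1) * y ^ (n + 1))) * y ^ (n + 1) := by ring
        _ = _ := by rw [h3]
    have := congrArg (fun z : Z => (z : MonoidAlgebra F H)) h4
    exact this
  · rw [hc]
    have := congrArg (fun z : Z => (z : MonoidAlgebra F H)) h3
    exact this

theorem ma_pow_cl {a : H → F} (ha : IsCl a) (n : ℕ) : ∃ c : H → F, IsCl c ∧ ma c = ma a ^ n := by
  obtain ⟨c, hc⟩ := ma_surjective (ma a ^ n)
  refine ⟨c, ?_, hc⟩
  rw [isCl_iff, hc]
  exact Subalgebra.pow_mem _ ((isCl_iff a).1 ha) n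

theorem isCl_mulF {a b : H → F} (ha : IsCl a) (hb : IsCl b) : IsCl (mulF a b) := by
  rw [isCl_iff, ma_mul]
  exact Subalgebra.mul_mem _ ((isCl_iff a).1 ha) ((isCl_iff b).1 hb)

end loc

section blk

variable {M : Ideal (integralClosure ℤ ℂ)} {H : Type} [Group H] [Finite H]

/-- T2: a class function with residue zero is nilpotent on the block -/
theorem nilp [M.IsMaximal] : letI := Ideal.Quotient.field M
    ∀ {χ : H → ℂ}, χ ∈ Irr H → ∀ {e a : H → FF M}, IsBlk e → res M e χ = 1 → IsCl a →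
      res M a χ = 0 → ∃ n : ℕ, (mulF a)^[n] e = 0 := by
  let _ := Ideal.Quotient.field M
  intro χ hχ e a he he1 ha ha0
  have hea : IsCl (mulF e a) := isCl_mulF he.1.1 ha
  obtain ⟨n, c, hc, h1, h2⟩ := exists_idem (mulF e a) hea
  have hee : ma e * ma e = ma e := by rw [← ma_mul, he.1.2]
  have hcomm : Commute (ma e) (ma a) := by
    change ma e * ma a = ma a * ma e
    rw [← ma_mul, ← ma_mul, mulF_comm_cl he.1.1]
  have hpow : ma (mulF e a) ^ (n + 1) = ma e * ma a ^ (n + 1) := by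
    rw [ma_mul, hcomm.mul_pow]
    congr 1
    induction n with
    | zero => rw [zero_add, pow_one]
    | succ n _ =>
      have : ∀ m : ℕ, ma e ^ (m + 1) = ma e := by
        intro m
        induction m with
        | zero => rw [zero_add, pow_one]
        | succ m ih => rw [pow_succ, ih, hee]
      exact this _
  obtain ⟨a', ha', ha'eq⟩ := ma_pow_cl ha n
  -- the idempotent as a function
  obtain ⟨g, hg⟩ := ma_surjective (ma (mulF e a) ^ (n + 1) * ma c)
  have hgcl : IsCl g := by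
    rw [isCl_iff, hg]
    exact Subalgebra.mul_mem _ (Subalgebra.pow_mem _ ((isCl_iff _).1 hea) _) ((isCl_iff c).1 hc)
  have hgid : IsIdem g := by
    refine ⟨hgcl, ?_⟩
    apply ma_injective
    rw [ma_mul, hg, h1]
  have heg : mulF e g = g := by
    apply ma_injective
    rw [ma_mul, hg, hpow, ← mul_assoc, ← mul_assoc, hee]
  rcases he.2.2 g hgid with h3 | h3
  · exfalso
    have h4 : g = mulF e (mulF a (mulF a' c)) := by
      apply ma_injective
      rw [ma_mul, ma_mul, ma_mul, hg, hpow, ha'eq, pow_succ', ← mul_assoc, ← mul_assoc,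
        ← mul_assoc]
    have h5 : e = g := by rw [← h3, heg]
    have h6 : res M e χ = 0 := by
      rw [h5, h4, res_mulF hχ he.1.1 (isCl_mulF ha (isCl_mulF ha' hc)),
        res_mulF hχ ha (isCl_mulF ha' hc), ha0, zero_mul, mul_zero]
    rw [he1] at h6
    exact one_ne_zero h6
  · refine ⟨n + 1, ?_⟩
    apply ma_injective
    rw [ma_iterate, ma_zero]
    have h4 : ma g = 0 := by
      rw [← heg, h3, ma_zero]
    rw [← hg, h4, mul_zero] at h2
    rw [hpow] at h2
    rw [← (hcomm.pow_right (n + 1)).eq, ← h2]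

/-- T3: every block idempotent belongs to a character -/
theorem blk_char (chp : ChpStmt) (bid : BidStmt) {ℓ : ℕ} (hℓ : ℓ.Prime) [M.IsMaximal]
    (hM : (ℓ : integralClosure ℤ ℂ) ∈ M) : letI := Ideal.Quotient.field M
    ∀ {e : H → FF M}, IsBlk e → ∃ χ ∈ Irr H, res M e χ = 1 ∧
      ∀ ψ ∈ Irr H, labF M ψ ≠ labF M χ → res M e ψ = 0 := by
  let _ := Ideal.Quotient.field M
  intro e he
  have h1 := chp ℓ hℓ M hM H e he.1
  -- the rank is positive
  have h2 : rk e (cfs (FF M) H) ≠ 0 := by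
    intro h0
    set f : H → FF M := fun x => e x⁻¹ with hf
    have hfcl : f ∈ cfs (FF M) H := by
      intro x y
      change e (y * x * y⁻¹)⁻¹ = e x⁻¹
      have e1 : (y * x * y⁻¹)⁻¹ = y * x⁻¹ * y⁻¹ := by group
      rw [e1, he.1.1]
    have h3 : (cfs (FF M) H).map (actL e) = ⊥ := by
      rw [rk] at h0
      exact Submodule.finrank_eq_zero.1 h0
    have h4 : actF e f = 0 := by
      have : actL e f ∈ (cfs (FF M) H).map (actL e) := ⟨f, hfcl, rfl⟩
      rw [h3, Submodule.mem_bot] at this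
      exact this
    apply he.2.1
    funext x
    have h5 := congrFun h4 x⁻¹
    have h6 : actF e f x⁻¹ = mulF e e x := by
      unfold actF mulF
      apply finsum_congr
      intro t
      congr 1
      change e (t * x⁻¹)⁻¹ = e (t⁻¹ * x)
      have e1 : (t * x⁻¹)⁻¹ = t * (t⁻¹ * x) * t⁻¹ := by group
      rw [e1, he.1.1]
    rw [h6, he.1.2] at h5
    exact h5
  rw [h1] at h2
  obtain ⟨χ, hχ, hχ1⟩ := Set.nonempty_of_ncard_ne_zero h2
  refine ⟨χ, hχ, hχ1, ?_⟩
  obtain ⟨e', he', h3, h4⟩ := bid ℓ hℓ M hM H χ hχ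
  have h5 : mulF e e' ≠ 0 := by
    intro h0
    have h6 := res_mulF hχ he.1.1 he'.1.1
    rw [h0, res_zero, hχ1, h3, mul_one] at h6
    exact zero_ne_one h6
  have h6 : e = e' := by
    have h7 := (he.2.2 e' he'.1).resolve_right h5
    have h8 : mulF e' e ≠ 0 := by
      rw [mulF_comm_cl he'.1.1]
      exact h5
    have h9 := (he'.2.2 e he.1).resolve_right h8
    rw [← h7, mulF_comm_cl he.1.1, h9]
  rw [h6]
  exact h4

end blk

end Pool.Agent.PP.H75
end
end -- Pool.Agent.Helper75_PP.Blk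

section -- Pool.Agent.Helper60_PP.OrvA

/-!
Squad PP, part R2, module ORV: preliminaries (blocks and automorphisms of subgroups).
-/

open scoped BigOperators

noncomputable section

namespace Pool.Agent.PP.H60

open Pool.Agent.Helper51_AWC Pool.Agent.Helper79_WRA Pool.Agent.PP

/-! ### Extension by zero -/

section ext

variable {F Y : Type} [Field F] [Group Y] [Finite Y]

theorem ext0_supp (K : Subgroup Y) (a : K → F) : ∀ x, x ∉ K → ext0 K a x = 0 := by
  intro x hx
  rw [ext0, dif_neg hx]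

theorem ext0_mem (K : Subgroup Y) (a : K → F) {x : Y} (hx : x ∈ K) : ext0 K a x = a ⟨x, hx⟩ := by
  rw [ext0, dif_pos hx]

theorem ext0_mulF (K : Subgroup Y) (a b : K → F) :
    ext0 K (mulF a b) = mulF (ext0 K a) (ext0 K b) :=
  H75.ext0_mulF K a b

theorem ext0_zero (K : Subgroup Y) : ext0 K (0 : K → F) = 0 := by
  funext x
  by_cases hx : x ∈ K
  · rw [ext0_mem K _ hx]; rfl
  · rw [ext0_supp K _ x hx]; rfl

/-- transitivity of the extension by zero -/
theorem ext0_trans {K H : Subgroup Y} (h : K ≤ H) (a : K → F) :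
    ext0 H (ext0 (K.subgroupOf H) (fun x => a (Subgroup.subgroupOfEquivOfLe h x))) = ext0 K a := by
  funext x
  by_cases hx : x ∈ H
  · rw [ext0_mem H _ hx]
    by_cases hk : x ∈ K
    · rw [ext0_mem K _ hk, ext0_mem (K.subgroupOf H) _ (x := ⟨x, hx⟩) (by
        rw [Subgroup.mem_subgroupOf]; exact hk)]
      rfl
    · rw [ext0_supp K _ x hk, ext0_supp (K.subgroupOf H) _ ⟨x, hx⟩ (by
        rw [Subgroup.mem_subgroupOf]; exact hk)]
  · rw [ext0_supp H _ x hx, ext0_supp K _ x (fun hk => hx (h hk))]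

/-- class functions of a factor of a central product -/
theorem isCl_ext0 {K C : Subgroup Y} (hc : ∀ x ∈ K, ∀ y ∈ C, x * y = y * x) (ht : K ⊔ C = ⊤)
    {a : K → F} (ha : IsCl a) : IsCl (ext0 K a) := by
  have h1 : K ≤ stabF (ext0 K a) := by
    intro g hg x
    by_cases hx : x ∈ K
    · have hx' : g * x * g⁻¹ ∈ K := K.mul_mem (K.mul_mem hg hx) (K.inv_mem hg)
      rw [ext0_mem K _ hx, ext0_mem K _ hx']
      exact ha ⟨x, hx⟩ ⟨g, hg⟩
    · have hx' : g * x * g⁻¹ ∉ K := by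
        intro h
        apply hx
        have := K.mul_mem (K.mul_mem (K.inv_mem hg) h) hg
        have e : g⁻¹ * (g * x * g⁻¹) * g = x := by group
        rwa [e] at this
      rw [ext0_supp K _ _ hx, ext0_supp K _ _ hx']
  have h2 : C ≤ stabF (ext0 K a) := by
    intro g hg x
    by_cases hx : x ∈ K
    · have e : g * x * g⁻¹ = x := by rw [← hc x hx g hg]; group
      rw [e]
    · have hx' : g * x * g⁻¹ ∉ K := by
        intro h
        apply hx
        have e : g * x * g⁻¹ = x := by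
          have := hc _ h g hg
          have e2 : g * x * g⁻¹ * g = g * x := by group
          rw [e2] at this
          have e3 := mul_left_cancel this
          exact e3.symm
        rwa [e] at h
      rw [ext0_supp K _ _ hx, ext0_supp K _ _ hx']
  have h3 : stabF (ext0 K a) = ⊤ := by
    rw [eq_top_iff, ← ht]
    exact sup_le h1 h2
  intro x y
  have : y ∈ stabF (ext0 K a) := by rw [h3]; trivial
  exact this x

end ext

/-! ### Isomorphisms -/

section iso

variable {F Y Y' : Type} [Field F] [Group Y] [Group Y'] [Finite Y] [Finite Y']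

theorem mulF_comp (e : Y' ≃* Y) (a b : Y → F) :
    mulF (fun x => a (e x)) (fun x => b (e x)) = fun x => mulF a b (e x) := by
  funext x
  unfold mulF
  rw [← finsum_comp_equiv e.toEquiv]
  refine finsum_congr fun t => ?_
  show a (e t) * b (e (t⁻¹ * x)) = a (e t) * b ((e t)⁻¹ * e x)
  rw [map_mul, map_inv]

theorem isIdem_comp (e : Y' ≃* Y) {a : Y → F} (h : IsIdem a) : IsIdem (fun x => a (e x)) := by
  refine ⟨fun x y => ?_, ?_⟩
  · show a (e (y * x * y⁻¹)) = a (e x)
    rw [map_mul, map_mul, map_inv]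
    exact h.1 _ _
  · rw [mulF_comp, h.2]

theorem isBlk_comp (e : Y' ≃* Y) {a : Y → F} (h : IsBlk a) : IsBlk (fun x => a (e x)) := by
  refine ⟨isIdem_comp e h.1, ?_, ?_⟩
  · intro h0
    apply h.2.1
    funext x
    have := congrFun h0 (e.symm x)
    simpa using this
  · intro g hg
    have hg' := isIdem_comp e.symm hg
    have e1 : (fun x => (fun y => g (e.symm y)) (e x)) = g := by
      funext x; simp
    rcases h.2.2 _ hg' with h1 | h1
    · left
      have := mulF_comp e a (fun y => g (e.symm y))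
      rw [e1, h1] at this
      exact this
    · right
      have := mulF_comp e a (fun y => g (e.symm y))
      rw [e1, h1] at this
      exact this

end iso

/-! ### Restrictions of automorphisms -/

section res

variable {Y : Type} [Group Y]

theorem exists_res {K : Subgroup Y} {γ : MulAut Y} (h : K.map γ.toMonoidHom = K) :
    ∃ γ₁ : MulAut K, ResA K γ γ₁ :=
  ⟨(MulEquiv.subgroupMap γ K).trans (MulEquiv.subgroupCongr h), fun _ => rfl⟩

theorem res_unique {K : Subgroup Y} {γ : MulAut Y} {γ₁ γ₂ : MulAut K} (h₁ : ResA K γ γ₁)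
    (h₂ : ResA K γ γ₂) : γ₁ = γ₂ := by
  ext k
  rw [h₁, h₂]

theorem res_mul {K : Subgroup Y} {γ δ : MulAut Y} {γ₁ δ₁ : MulAut K} (h₁ : ResA K γ γ₁)
    (h₂ : ResA K δ δ₁) : ResA K (γ * δ) (γ₁ * δ₁) := by
  intro k
  rw [MulAut.mul_apply, MulAut.mul_apply, h₁, h₂]

theorem res_one {K : Subgroup Y} : ResA K (1 : MulAut Y) (1 : MulAut K) := fun _ => rfl

theorem res_pow {K : Subgroup Y} {γ : MulAut Y} {γ₁ : MulAut K} (h₁ : ResA K γ γ₁) (n : ℕ) :
    ResA K (γ ^ n) (γ₁ ^ n) := by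
  induction n with
  | zero => rw [pow_zero, pow_zero]; exact res_one
  | succ n ih => rw [pow_succ, pow_succ]; exact res_mul ih h₁

theorem mem_map_aut {K : Subgroup Y} {γ : MulAut Y} {x : Y} :
    x ∈ K.map γ.toMonoidHom ↔ ∃ y ∈ K, γ y = x := by
  rw [Subgroup.mem_map]
  rfl

theorem map_one_aut (K : Subgroup Y) : K.map (1 : MulAut Y).toMonoidHom = K := by
  ext x
  rw [mem_map_aut]
  constructor
  · rintro ⟨y, hy, rfl⟩; exact hy
  · intro hx; exact ⟨x, hx, rfl⟩

theorem map_mul_aut (K : Subgroup Y) (γ δ : MulAut Y) :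
    K.map (γ * δ).toMonoidHom = (K.map δ.toMonoidHom).map γ.toMonoidHom := by
  ext x
  rw [mem_map_aut, mem_map_aut]
  constructor
  · rintro ⟨y, hy, rfl⟩
    exact ⟨δ y, mem_map_aut.2 ⟨y, hy, rfl⟩, rfl⟩
  · rintro ⟨z, hz, rfl⟩
    obtain ⟨y, hy, rfl⟩ := mem_map_aut.1 hz
    exact ⟨y, hy, rfl⟩

theorem map_subgroupOf {H K K' : Subgroup Y} {γ : MulAut Y} {γ₁ : MulAut H} (hr : ResA H γ γ₁)
    (hK : K ≤ H) (h : K.map γ.toMonoidHom = K') :
    (K.subgroupOf H).map γ₁.toMonoidHom = K'.subgroupOf H := by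
  ext x
  rw [mem_map_aut, Subgroup.mem_subgroupOf, ← h, mem_map_aut]
  constructor
  · rintro ⟨y, hy, rfl⟩
    exact ⟨y, hy, (hr y).symm⟩
  · rintro ⟨y, hy, hyx⟩
    refine ⟨⟨y, hK hy⟩, hy, ?_⟩
    apply Subtype.ext
    rw [hr]
    exact hyx

/-- automorphisms of `K.subgroupOf H` and of `K` -/
theorem res_congr {H K : Subgroup Y} (hK : K ≤ H) {γ : MulAut Y} {γ₁ : MulAut H}
    (hr : ResA H γ γ₁) {γ₂ : MulAut (K.subgroupOf H)} (hr2 : ResA (K.subgroupOf H) γ₁ γ₂) :
    ResA K γ (MulAut.congr (Subgroup.subgroupOfEquivOfLe hK) γ₂) := by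
  intro k
  obtain ⟨x, rfl⟩ := (Subgroup.subgroupOfEquivOfLe hK).surjective k
  have h1 : MulAut.congr (Subgroup.subgroupOfEquivOfLe hK) γ₂ (Subgroup.subgroupOfEquivOfLe hK x) =
      Subgroup.subgroupOfEquivOfLe hK (γ₂ x) := by
    show Subgroup.subgroupOfEquivOfLe hK (γ₂ ((Subgroup.subgroupOfEquivOfLe hK).symm
      (Subgroup.subgroupOfEquivOfLe hK x))) = _
    rw [MulEquiv.symm_apply_apply]
  rw [h1]
  show (((γ₂ x : K.subgroupOf H) : H) : Y) = γ (((x : K.subgroupOf H) : H) : Y)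
  rw [hr2, hr]

end res

end Pool.Agent.PP.H60
end
end -- Pool.Agent.Helper60_PP.OrvA

section -- Pool.Agent.Helper60_PP.OrvB

/-!
Squad PP, part R2, module ORV: families of commuting subgroups.
-/

open scoped BigOperators

noncomputable section

namespace Pool.Agent.PP.H60

open Pool.Agent.Helper51_AWC Pool.Agent.Helper79_WRA Pool.Agent.PP

variable {Y : Type} [Group Y] {I : Type} {K : I → Subgroup Y}

/-- the subgroup generated by the `K j`, `j ∈ T` -/
def YT (K : I → Subgroup Y) (T : Set I) : Subgroup Y := ⨆ j : T, K j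

theorem le_YT {T : Set I} {j : I} (hj : j ∈ T) : K j ≤ YT K T := by
  unfold YT
  exact le_iSup (fun j : T => K j) ⟨j, hj⟩

theorem YT_le {T : Set I} {H : Subgroup Y} (h : ∀ j ∈ T, K j ≤ H) : YT K T ≤ H := by
  unfold YT
  exact iSup_le fun j => h j j.2

theorem YT_mono {T T' : Set I} (h : T ⊆ T') : YT K T ≤ YT K T' :=
  YT_le fun _ hj => le_YT (h hj)

theorem YT_map {γ : MulAut Y} {c : I → I} (h : ∀ i, (K i).map γ.toMonoidHom = K (c i))
    (T : Set I) : (YT K T).map γ.toMonoidHom = YT K (c '' T) := by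
  unfold YT
  rw [Subgroup.map_iSup]
  apply le_antisymm
  · refine iSup_le fun j => ?_
    rw [h]
    exact le_iSup (fun j : (c '' T : Set I) => K j) ⟨c j, j, j.2, rfl⟩
  · refine iSup_le ?_
    rintro ⟨_, j, hj, rfl⟩
    rw [← h]
    exact le_iSup (fun j : T => (K j).map γ.toMonoidHom) ⟨j, hj⟩

theorem YT_comm (hc : ∀ i j, i ≠ j → ∀ x ∈ K i, ∀ y ∈ K j, x * y = y * x) {T T' : Set I}
    (h : Disjoint T T') : ∀ x ∈ YT K T, ∀ y ∈ YT K T', x * y = y * x := by
  have h1 : YT K T ≤ Subgroup.centralizer (YT K T' : Set Y) := by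
    refine YT_le fun i hi => ?_
    rw [Subgroup.le_centralizer_iff]
    refine YT_le fun j hj => ?_
    intro y hy
    rw [Subgroup.mem_centralizer_iff]
    intro x hx
    refine hc i j ?_ x hx y hy
    rintro rfl
    exact Set.disjoint_left.1 h hi hj
  intro x hx y hy
  have := h1 hx
  rw [Subgroup.mem_centralizer_iff] at this
  exact (this y hy).symm

theorem YT_compl (ht : (⨆ i, K i) = ⊤) (T : Set I) : YT K T ⊔ YT K Tᶜ = ⊤ := by
  rw [eq_top_iff, ← ht]
  refine iSup_le fun i => ?_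
  by_cases hi : i ∈ T
  · exact (le_YT hi).trans le_sup_left
  · exact (le_YT (T := Tᶜ) hi).trans le_sup_right

/-- the centre of a factor -/
theorem center_le {H C : Subgroup Y} (hc : ∀ x ∈ H, ∀ y ∈ C, x * y = y * x) (ht : H ⊔ C = ⊤) :
    (Subgroup.center H).map H.subtype ≤ Subgroup.center Y := by
  rintro _ ⟨z, hz, rfl⟩
  rw [SetLike.mem_coe, Subgroup.mem_center_iff] at hz
  have h1 : H ≤ Subgroup.centralizer {(z : Y)} := by
    intro x hx
    rw [Subgroup.mem_centralizer_iff]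
    rintro _ rfl
    have := congrArg (Subtype.val) (hz ⟨x, hx⟩)
    exact this.symm
  have h2 : C ≤ Subgroup.centralizer {(z : Y)} := by
    intro x hx
    rw [Subgroup.mem_centralizer_iff]
    rintro _ rfl
    exact hc z z.2 x hx
  rw [Subgroup.mem_center_iff]
  intro g
  have h3 : g ∈ Subgroup.centralizer {(z : Y)} := by
    have : H ⊔ C ≤ Subgroup.centralizer {(z : Y)} := sup_le h1 h2
    rw [ht] at this
    exact this trivial
  rw [Subgroup.mem_centralizer_iff] at h3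
  exact (h3 _ rfl).symm

theorem center_dvd [Finite Y] {ℓ : ℕ} {H C : Subgroup Y} (hc : ∀ x ∈ H, ∀ y ∈ C, x * y = y * x)
    (ht : H ⊔ C = ⊤) (h : ¬ ℓ ∣ Nat.card (Subgroup.center Y)) :
    ¬ ℓ ∣ Nat.card (Subgroup.center H) := by
  intro h1
  apply h
  have h2 : Nat.card ((Subgroup.center H).map H.subtype : Subgroup Y) = Nat.card (Subgroup.center H) :=
    Subgroup.card_map_of_injective H.subtype_injective
  rw [← h2] at h1
  exact h1.trans (Subgroup.card_dvd_of_le (center_le hc ht))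

/-- the subgroups `K j` inside the subgroup generated by some of them -/
theorem iSup_subgroupOf {T : Set I} :
    (⨆ j : T, (K j).subgroupOf (YT K T)) = ⊤ := by
  apply Subgroup.map_injective (YT K T).subtype_injective
  rw [Subgroup.map_iSup, ← MonoidHom.range_eq_map, Subgroup.range_subtype]
  have : ∀ j : T, ((K j).subgroupOf (YT K T)).map (YT K T).subtype = K j :=
    fun j => Subgroup.map_subgroupOf_eq_of_le (le_YT j.2)
  simp only [this]
  rfl

end Pool.Agent.PP.H60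
end
end -- Pool.Agent.Helper60_PP.OrvB

section -- Pool.Agent.Helper60_PP.Orv

/-!
Squad PP, part R2, module ORV: a central product of components permuted by two automorphisms.
-/

open scoped BigOperators

noncomputable section

namespace Pool.Agent.PP.H60

open Pool.Agent.Helper51_AWC Pool.Agent.Helper79_WRA Pool.Agent.PP

/-- the block of `K` under the block of a larger subgroup -/
theorem blk_down {F Y : Type} [Field F] [Group Y] [Finite Y] {H K : Subgroup Y} (hKH : K ≤ H)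
    {C : Subgroup H} (hc : ∀ x ∈ K.subgroupOf H, ∀ y ∈ C, x * y = y * x)
    (ht : K.subgroupOf H ⊔ C = ⊤) {f : Y → F} (hf : f ≠ 0) {fH : H → F} (hH : BlkU H f fH)
    {f₁ : K → F} (h₁ : BlkU K f f₁) :
    BlkU (K.subgroupOf H) fH (fun x => f₁ (Subgroup.subgroupOfEquivOfLe hKH x)) := by
  have hb := isBlk_comp (Subgroup.subgroupOfEquivOfLe hKH) h₁.1
  refine ⟨hb, ?_⟩
  have hcl : IsCl (ext0 (K.subgroupOf H)
      (fun x => f₁ (Subgroup.subgroupOfEquivOfLe hKH x))) := isCl_ext0 hc ht hb.1.1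
  have hid : IsIdem (ext0 (K.subgroupOf H)
      (fun x => f₁ (Subgroup.subgroupOfEquivOfLe hKH x))) := by
    refine ⟨hcl, ?_⟩
    rw [← ext0_mulF, hb.1.2]
  rcases hH.1.2.2 _ hid with h | h
  · rw [H20.mulF_comm_of_cl hcl, h]
  · exfalso
    apply hf
    have h2 := congrArg (ext0 H) h
    rw [ext0_mulF, ext0_trans hKH, ext0_zero] at h2
    calc f = mulF (ext0 H fH) (mulF (ext0 K f₁) f) := by rw [h₁.2, hH.2]
      _ = mulF (mulF (ext0 H fH) (ext0 K f₁)) f := (H20.mulF_assoc _ _ _).symm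
      _ = 0 := by rw [h2, H20.zero_mulF]

/-- transport of the vanishing from `K` to `K.subgroupOf H` -/
theorem van_down (hiso : IsoStmt) {ℓ : ℕ} {F Y : Type} [Field F] [Group Y] [Finite Y]
    {H K : Subgroup Y} (hKH : K ≤ H) {A B : MulAut Y} {A₁ B₁ : MulAut H} (hA : ResA H A A₁)
    (hB : ResA H B B₁) {f₁ : K → F}
    (hv : ∀ α₁ β₁ : MulAut K, ResA K A α₁ → ResA K B β₁ → Van ℓ f₁ α₁ β₁)
    (α₂ β₂ : MulAut (K.subgroupOf H)) (h₂ : ResA (K.subgroupOf H) A₁ α₂)
    (h₃ : ResA (K.subgroupOf H) B₁ β₂) :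
    Van ℓ (fun x => f₁ (Subgroup.subgroupOfEquivOfLe hKH x)) α₂ β₂ := by
  refine hiso ℓ F K (K.subgroupOf H) (Subgroup.subgroupOfEquivOfLe hKH).symm f₁
    (MulAut.congr (Subgroup.subgroupOfEquivOfLe hKH) α₂)
    (MulAut.congr (Subgroup.subgroupOfEquivOfLe hKH) β₂) _ α₂ β₂ ?_ ?_ ?_ ?_
  · intro y
    show f₁ (Subgroup.subgroupOfEquivOfLe hKH ((Subgroup.subgroupOfEquivOfLe hKH).symm y)) = f₁ y
    rw [MulEquiv.apply_symm_apply]
  · intro y
    show α₂ ((Subgroup.subgroupOfEquivOfLe hKH).symm y) = (Subgroup.subgroupOfEquivOfLe hKH).symm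
      (Subgroup.subgroupOfEquivOfLe hKH (α₂ ((Subgroup.subgroupOfEquivOfLe hKH).symm y)))
    rw [MulEquiv.symm_apply_apply]
  · intro y
    show β₂ ((Subgroup.subgroupOfEquivOfLe hKH).symm y) = (Subgroup.subgroupOfEquivOfLe hKH).symm
      (Subgroup.subgroupOfEquivOfLe hKH (β₂ ((Subgroup.subgroupOfEquivOfLe hKH).symm y)))
    rw [MulEquiv.symm_apply_apply]
  · exact hv _ _ (res_congr hKH hA h₂) (res_congr hKH hB h₃)

/-- one orbit of the shift -/
theorem main_orbit (hcyv : CyvStmt) (hswa : SwaStmt) {ℓ : ℕ} [Fact ℓ.Prime] {F : Type} [Field F]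
    (hF : GoodF ℓ F) {Y : Type} [Group Y] [Finite Y] {K₀ : Subgroup Y} {f : Y → F}
    {α β : MulAut Y} {p : ℕ} {α₁ β₁ : MulAut K₀}
    (hc : ∀ i, 0 < i → i ≤ p → ∀ x ∈ K₀, ∀ y ∈ K₀, x * (α ^ i) y = (α ^ i) y * x)
    (ht : (⨆ i ∈ Finset.range (p + 1), K₀.map (α ^ i).toMonoidHom) = ⊤)
    (hz : ¬ ℓ ∣ Nat.card (Subgroup.center Y))
    (hs : ∀ i, i ≤ p → (K₀.map (α ^ i).toMonoidHom).map β.toMonoidHom =
      K₀.map (α ^ i).toMonoidHom)
    (hα : ResA K₀ (α ^ (p + 1)) α₁) (hβ : ResA K₀ β β₁) {f₁ : K₀ → F} (hb : BlkU K₀ f f₁)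
    (hv : Van ℓ f₁ α₁ β₁) : Van ℓ f α β :=
  hswa ℓ F hF Y f α β (hcyv ℓ F hF Y K₀ f β α p β₁ α₁ hc ht hz hs hβ hα f₁ hb
    (hswa ℓ F hF K₀ f₁ β₁ α₁ hv))

theorem nie_pow (hnie : NieStmt) {ℓ : ℕ} {F : Type} [Field F]
    (hF : GoodF ℓ F) {Y : Type} [Group Y] [Finite Y] {f : Y → F} {α β : MulAut Y} (k : ℕ)
    (hv : Van ℓ f α (β * α ^ k)) : Van ℓ f α β := by
  induction k with
  | zero => rw [pow_zero, mul_one] at hv; exact hv
  | succ k ih =>
    rw [pow_succ, ← mul_assoc] at hv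
    exact ih (hnie ℓ F hF Y f α (β * α ^ k) hv)

theorem map_pow_aut {Y : Type} [Group Y] {I : Type} {K : I → Subgroup Y} {γ : MulAut Y}
    {c : Equiv.Perm I} (h : ∀ i, (K i).map γ.toMonoidHom = K (c i)) (n : ℕ) (i : I) :
    (K i).map (γ ^ n).toMonoidHom = K ((c ^ n) i) := by
  induction n with
  | zero => rw [pow_zero, pow_zero, map_one_aut]; rfl
  | succ n ih => rw [pow_succ', pow_succ', map_mul_aut, ih, h]; rfl

section trans

variable {I : Type} [Finite I] {a b : Equiv.Perm I} {i : I}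

theorem exists_pow_fix (c : Equiv.Perm I) (i : I) : ∃ n, 0 < n ∧ (c ^ n) i = i :=
  ⟨orderOf c, orderOf_pos c, by rw [pow_orderOf_eq_one]; rfl⟩

theorem pow_apply_comm (hab : a * b = b * a) (x y : ℕ) (j : I) :
    (a ^ x) ((b ^ y) j) = (b ^ y) ((a ^ x) j) := by
  have h : a ^ x * b ^ y = b ^ y * a ^ x := (show Commute a b from hab).pow_pow x y
  exact congrFun (congrArg (fun f : Equiv.Perm I => (f : I → I)) h) j

theorem pow_back (c : Equiv.Perm I) (j : ℕ) (i : I) : ∃ k, ∀ l : I, (c ^ k) ((c ^ j) l) = l := by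
  refine ⟨orderOf c * (j + 1) - j, fun l => ?_⟩
  have h1 : j ≤ orderOf c * (j + 1) := by
    have := orderOf_pos c
    nlinarith
  rw [← Equiv.Perm.mul_apply, ← pow_add, Nat.sub_add_cancel h1, pow_mul, pow_orderOf_eq_one,
    one_pow]
  rfl

end trans

/-- The transitive case. -/
theorem main_trans (hcyv : CyvStmt) (hnie : NieStmt) (hswa : SwaStmt) (hfbk : FbkStmt)
    (hiso : IsoStmt) {ℓ : ℕ} [Fact ℓ.Prime] {F : Type} [Field F]
    (hF : GoodF ℓ F) {Y : Type} [Group Y] [Finite Y] {I : Type} [Finite I] {K : I → Subgroup Y}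
    {f : Y → F} (hf : IsBlk f) {α β : MulAut Y} {a b : Equiv.Perm I}
    (hc : ∀ i j, i ≠ j → ∀ x ∈ K i, ∀ y ∈ K j, x * y = y * x)
    (ht : (⨆ i, K i) = ⊤) (hz : ¬ ℓ ∣ Nat.card (Subgroup.center Y))
    (ha : ∀ i, (K i).map α.toMonoidHom = K (a i)) (hb : ∀ i, (K i).map β.toMonoidHom = K (b i))
    (hab : a * b = b * a) {i : I} {f₁ : K i → F} (h₁ : BlkU (K i) f f₁)
    (hv : ∀ p q k : ℕ, 0 < p → 0 < q → (a ^ p) i = i → (b ^ q * a ^ k) i = i →
      ∀ α₁ β₁ : MulAut (K i), ResA (K i) (α ^ p) α₁ → ResA (K i) (β ^ q * α ^ k) β₁ →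
        Van ℓ f₁ α₁ β₁)
    (htr : ∀ j, ∃ x y : ℕ, (a ^ x) ((b ^ y) i) = j) : Van ℓ f α β := by
  classical
  -- the period of `a`
  have hp := exists_pow_fix a i
  obtain ⟨p₀, hp₀, hp₁, hp₂⟩ : ∃ p₀, 0 < p₀ ∧ (a ^ p₀) i = i ∧
      ∀ t, 0 < t → t < p₀ → (a ^ t) i ≠ i :=
    ⟨Nat.find hp, (Nat.find_spec hp).1, (Nat.find_spec hp).2,
      fun t h0 h1 h2 => Nat.find_min hp h1 ⟨h0, h2⟩⟩
  have hpm : ∀ x : ℕ, (a ^ x) i = (a ^ (x % p₀)) i := by
    intro x
    conv_lhs => rw [← Nat.mod_add_div x p₀, pow_add, pow_mul]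
    rw [Equiv.Perm.mul_apply]
    congr 1
    exact Function.IsFixedPt.perm_pow hp₁ _
  obtain ⟨S, hS⟩ : ∃ S : Set I, S = {j | ∃ x : ℕ, (a ^ x) i = j} := ⟨_, rfl⟩
  have hmem : ∀ j, j ∈ S ↔ ∃ x : ℕ, (a ^ x) i = j := by intro j; rw [hS]; rfl
  have hiS : i ∈ S := (hmem i).2 ⟨0, rfl⟩
  -- the period of `b`
  have hq : ∃ n, 0 < n ∧ (b ^ n) i ∈ S := by
    obtain ⟨n, hn, hn2⟩ := exists_pow_fix b i
    exact ⟨n, hn, by rw [hn2]; exact hiS⟩
  obtain ⟨q, hq₀, hq₁, hq₂⟩ : ∃ q, 0 < q ∧ (b ^ q) i ∈ S ∧ ∀ t, 0 < t → t < q → (b ^ t) i ∉ S :=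
    ⟨Nat.find hq, (Nat.find_spec hq).1, (Nat.find_spec hq).2,
      fun t h0 h1 h2 => Nat.find_min hq h1 ⟨h0, h2⟩⟩
  obtain ⟨j₀, hj₀⟩ := (hmem _).1 hq₁
  obtain ⟨k, hk⟩ := pow_back a j₀ i
  have hki : (b ^ q) ((a ^ k) i) = i := by
    rw [← pow_apply_comm hab, ← hj₀, hk]
  have hks : ∀ x : ℕ, (b ^ q) ((a ^ k) ((a ^ x) i)) = (a ^ x) i := by
    intro x
    have e : (a ^ k) ((a ^ x) i) = (a ^ x) ((a ^ k) i) := by
      rw [← Equiv.Perm.mul_apply, ← Equiv.Perm.mul_apply, ← pow_add, ← pow_add, add_comm]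
    rw [e, ← pow_apply_comm hab, hki]
  -- images of S
  have haS : a '' S = S := by
    apply Set.Subset.antisymm
    · rintro _ ⟨j, hj, rfl⟩
      obtain ⟨x, rfl⟩ := (hmem j).1 hj
      exact (hmem _).2 ⟨x + 1, by rw [pow_succ']; rfl⟩
    · intro j hj
      obtain ⟨x, rfl⟩ := (hmem j).1 hj
      refine ⟨(a ^ (x + p₀ - 1)) i, (hmem _).2 ⟨_, rfl⟩, ?_⟩
      rw [← Equiv.Perm.mul_apply, ← pow_succ', show x + p₀ - 1 + 1 = x + p₀ by omega, pow_add,
        Equiv.Perm.mul_apply, hp₁]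
  have hbqS : ((b ^ q : Equiv.Perm I) : I → I) '' S = S := by
    apply Set.Subset.antisymm
    · rintro _ ⟨j, hj, rfl⟩
      obtain ⟨x, rfl⟩ := (hmem j).1 hj
      rw [← pow_apply_comm hab, ← hj₀]
      exact (hmem _).2 ⟨x + j₀, by rw [pow_add]; rfl⟩
    · intro j hj
      obtain ⟨x, rfl⟩ := (hmem j).1 hj
      exact ⟨(a ^ k) ((a ^ x) i), (hmem _).2 ⟨k + x, by rw [pow_add]; rfl⟩, hks x⟩
  have hβp : ∀ (t : ℕ) (T : Set I), (YT K T).map (β ^ t).toMonoidHom =
      YT K (((b ^ t : Equiv.Perm I) : I → I) '' T) :=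
    fun t T => YT_map (fun i => map_pow_aut hb t i) T
  have hSα : (YT K S).map α.toMonoidHom = YT K S := by rw [YT_map ha, haS]
  have hSβ : (YT K S).map (β ^ q).toMonoidHom = YT K S := by rw [hβp, hbqS]
  obtain ⟨αS, hαS⟩ := exists_res hSα
  obtain ⟨βS, hβS⟩ := exists_res hSβ
  have hcS : ∀ x ∈ YT K S, ∀ y ∈ YT K Sᶜ, x * y = y * x := YT_comm hc disjoint_compl_right
  have htS := YT_compl ht S
  obtain ⟨⟨fS, hfS⟩, _, _⟩ := hfbk ℓ F hF Y (YT K S) (YT K Sᶜ) hcS htS hz f hf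
  have hq1 : q - 1 + 1 = q := by omega
  refine hcyv ℓ F hF Y (YT K S) f α β (q - 1) αS βS ?_ ?_ hz ?_ hαS (by rw [hq1]; exact hβS)
    fS hfS ?_
  · -- commuting bunches
    intro t ht0 ht1 x hx y hy
    have hdis : Disjoint S (((b ^ t : Equiv.Perm I) : I → I) '' S) := by
      rw [Set.disjoint_left]
      rintro j hj ⟨j', hj', hjj⟩
      obtain ⟨x, rfl⟩ := (hmem j).1 hj
      obtain ⟨y, rfl⟩ := (hmem j').1 hj'
      apply hq₂ t ht0 (by omega)
      obtain ⟨z, hz'⟩ := pow_back a y i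
      have e : (b ^ t) i = (a ^ z) ((a ^ x) i) := by
        rw [← hjj, pow_apply_comm hab, hz']
      rw [e]
      exact (hmem _).2 ⟨z + x, by rw [pow_add]; rfl⟩
    refine YT_comm hc hdis x hx _ ?_
    rw [← hβp]
    exact mem_map_aut.2 ⟨y, hy, rfl⟩
  · -- they generate
    rw [eq_top_iff, ← ht]
    refine iSup_le fun j => ?_
    obtain ⟨x, y, rfl⟩ := htr j
    have hu : ∀ u : ℕ, ((b ^ q) ^ u) i ∈ S := by
      intro u
      induction u with
      | zero => exact hiS
      | succ u ih =>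
        rw [pow_succ', Equiv.Perm.mul_apply]
        rw [← hbqS]
        exact ⟨_, ih, rfl⟩
    have hy : (b ^ y) i = (b ^ (y % q)) (((b ^ q) ^ (y / q)) i) := by
      conv_lhs => rw [← Nat.mod_add_div y q, pow_add, pow_mul]
      rfl
    have hxS : (a ^ x) (((b ^ q) ^ (y / q)) i) ∈ S := by
      obtain ⟨x', hx'⟩ := (hmem _).1 (hu (y / q))
      rw [← hx']
      exact (hmem _).2 ⟨x + x', by rw [pow_add]; rfl⟩
    have h2 : K ((a ^ x) ((b ^ y) i)) ≤ (YT K S).map (β ^ (y % q)).toMonoidHom := by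
      rw [hβp, hy, pow_apply_comm hab]
      exact le_YT ⟨_, hxS, rfl⟩
    refine h2.trans ?_
    exact le_iSup₂ (f := fun (i : ℕ) (_ : i ∈ Finset.range (q - 1 + 1)) =>
      (YT K S).map (β ^ i).toMonoidHom) (y % q) (by
        rw [Finset.mem_range, hq1]; exact Nat.mod_lt _ hq₀)
  · -- stable under α
    intro t _
    rw [hβp, YT_map ha]
    congr 1
    conv_rhs => rw [← haS]
    rw [Set.image_image, Set.image_image]
    congr 1
    funext j
    have := pow_apply_comm hab 1 t j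
    rw [pow_one] at this
    exact this
  · -- the bunch
    have hKS : K i ≤ YT K S := le_YT hiS
    refine nie_pow hnie hF k ?_
    have hp1 : p₀ - 1 + 1 = p₀ := by omega
    have hαt : ∀ t : ℕ, ((K i).subgroupOf (YT K S)).map (αS ^ t).toMonoidHom =
        (K ((a ^ t) i)).subgroupOf (YT K S) :=
      fun t => map_subgroupOf (res_pow hαS t) hKS (map_pow_aut ha t i)
    have hB' : ResA (YT K S) (β ^ q * α ^ k) (βS * αS ^ k) := res_mul hβS (res_pow hαS k)
    have hβt : ∀ t : ℕ, ((K ((a ^ t) i)).subgroupOf (YT K S)).map (βS * αS ^ k).toMonoidHom =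
        (K ((a ^ t) i)).subgroupOf (YT K S) := by
      intro t
      refine map_subgroupOf hB' (le_YT ((hmem _).2 ⟨t, rfl⟩)) ?_
      rw [map_mul_aut, map_pow_aut ha, map_pow_aut hb, hks]
    obtain ⟨α₂, hα₂⟩ : ∃ α₂, ResA ((K i).subgroupOf (YT K S)) (αS ^ p₀) α₂ := by
      apply exists_res
      rw [hαt, hp₁]
    obtain ⟨β₂, hβ₂⟩ : ∃ β₂, ResA ((K i).subgroupOf (YT K S)) (βS * αS ^ k) β₂ := by
      apply exists_res
      exact hβt 0
    have hsup := iSup_subgroupOf (K := K) (T := S)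
    refine main_orbit hcyv hswa hF (K₀ := (K i).subgroupOf (YT K S)) (p := p₀ - 1) (α₁ := α₂)
      (β₁ := β₂) ?_ ?_ (center_dvd hcS htS hz) ?_ (by rw [hp1]; exact hα₂) hβ₂
      (blk_down hKS (C := (YT K (S \ {i})).subgroupOf (YT K S)) ?_ ?_ hf.2.1 hfS h₁)
      (van_down hiso hKS (res_pow hαS p₀) hB' (hv p₀ q k hp₀ hq₀ hp₁ hki) α₂ β₂ hα₂ hβ₂)
    · intro t ht0 ht1 x hx y hy
      apply Subtype.ext
      show (x : Y) * (((αS ^ t) y : YT K S) : Y) = (((αS ^ t) y : YT K S) : Y) * (x : Y)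
      rw [res_pow hαS t]
      refine hc i ((a ^ t) i) (fun h => hp₂ t ht0 (by omega) h.symm) _ hx _ ?_
      rw [← map_pow_aut ha]
      exact mem_map_aut.2 ⟨y, hy, rfl⟩
    · rw [eq_top_iff, ← hsup]
      refine iSup_le ?_
      rintro ⟨j, hj⟩
      obtain ⟨x, rfl⟩ := (hmem j).1 hj
      show (K ((a ^ x) i)).subgroupOf (YT K S) ≤ _
      rw [hpm x, ← hαt]
      exact le_iSup₂ (f := fun (t : ℕ) (_ : t ∈ Finset.range (p₀ - 1 + 1)) =>
        ((K i).subgroupOf (YT K S)).map (αS ^ t).toMonoidHom) (x % p₀) (by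
          rw [Finset.mem_range, hp1]; exact Nat.mod_lt _ hp₀)
    · intro t _
      rw [hαt, hβt]
    · intro x hx y hy
      apply Subtype.ext
      have : K i ≤ YT K {i} := le_YT rfl
      exact YT_comm hc (T := {i}) (T' := S \ {i}) Set.disjoint_sdiff_right x (this hx) y hy
    · rw [eq_top_iff, ← hsup]
      refine iSup_le ?_
      rintro ⟨j, hj⟩
      by_cases hji : j = i
      · subst hji
        exact le_sup_left
      · refine le_trans ?_ le_sup_right
        have : K j ≤ YT K (S \ {i}) := le_YT ⟨hj, hji⟩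
        exact fun x hx => this hx

/-- ORV. -/
theorem orv (hprv : PrvStmt) (hcyv : CyvStmt) (hnie : NieStmt) (hswa : SwaStmt)
    (hfbk : FbkStmt) (hiso : IsoStmt) : OrvStmt := by
  intro ℓ _ F _ hF Y _ _ I _ K f α β a b hc ht hz ha hb hab i f₁ h₁ hv τ hτ w wi hT
  have hf := hT.blk
  obtain ⟨O, hO⟩ : ∃ O : Set I, O = {j | ∃ x y : ℕ, (a ^ x) ((b ^ y) i) = j} := ⟨_, rfl⟩
  have hmem : ∀ j, j ∈ O ↔ ∃ x y : ℕ, (a ^ x) ((b ^ y) i) = j := by intro j; rw [hO]; rfl
  have hiO : i ∈ O := (hmem i).2 ⟨0, 0, rfl⟩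
  have haO : ∀ j, a j ∈ O ↔ j ∈ O := by
    intro j
    constructor
    · intro h
      obtain ⟨x, y, hxy⟩ := (hmem _).1 h
      obtain ⟨z, hz'⟩ := pow_back a 1 j
      have e : j = (a ^ z) (a j) := by
        have := hz' j
        rw [pow_one] at this
        exact this.symm
      rw [e, ← hxy]
      exact (hmem _).2 ⟨z + x, y, by rw [pow_add]; rfl⟩
    · intro h
      obtain ⟨x, y, rfl⟩ := (hmem _).1 h
      exact (hmem _).2 ⟨x + 1, y, by rw [pow_succ']; rfl⟩
  have hbO : ∀ j, b j ∈ O ↔ j ∈ O := by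
    intro j
    constructor
    · intro h
      obtain ⟨x, y, hxy⟩ := (hmem _).1 h
      obtain ⟨z, hz'⟩ := pow_back b 1 j
      have e : j = (b ^ z) (b j) := by
        have := hz' j
        rw [pow_one] at this
        exact this.symm
      rw [e, ← hxy]
      exact (hmem _).2 ⟨x, z + y, by rw [← pow_apply_comm hab, pow_add b]; rfl⟩
    · intro h
      obtain ⟨x, y, rfl⟩ := (hmem _).1 h
      refine (hmem _).2 ⟨x, y + 1, ?_⟩
      rw [pow_succ' b, Equiv.Perm.mul_apply]
      have := pow_apply_comm hab x 1 ((b ^ y) i)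
      rw [pow_one] at this
      exact this
  have himg : ∀ (c : Equiv.Perm I), (∀ j, c j ∈ O ↔ j ∈ O) → c '' O = O ∧ c '' Oᶜ = Oᶜ := by
    intro c hc'
    have h1 : c '' O = O := by
      ext j
      constructor
      · rintro ⟨j', hj', rfl⟩
        exact (hc' j').2 hj'
      · intro hj
        refine ⟨c.symm j, ?_, c.apply_symm_apply j⟩
        rw [← hc', c.apply_symm_apply]
        exact hj
    refine ⟨h1, ?_⟩
    rw [Set.image_compl_eq c.bijective, h1]
  have hcO : ∀ x ∈ YT K O, ∀ y ∈ YT K Oᶜ, x * y = y * x := YT_comm hc disjoint_compl_right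
  have htO := YT_compl ht O
  obtain ⟨⟨fO, hfO⟩, _, _⟩ := hfbk ℓ F hF Y (YT K O) (YT K Oᶜ) hcO htO hz f hf
  have hOα : (YT K O).map α.toMonoidHom = YT K O := by rw [YT_map ha, (himg a haO).1]
  have hOβ : (YT K O).map β.toMonoidHom = YT K O := by rw [YT_map hb, (himg b hbO).1]
  obtain ⟨αO, hαO⟩ := exists_res hOα
  obtain ⟨βO, hβO⟩ := exists_res hOβ
  have hsup := iSup_subgroupOf (K := K) (T := O)
  have hKO : K i ≤ YT K O := le_YT hiO
  have hapow : ∀ (n : ℕ) (j : O), (((a.subtypePerm haO) ^ n) j : I) = (a ^ n) (j : I) := by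
    intro n
    induction n with
    | zero => intro j; rfl
    | succ n ih =>
      intro j
      rw [pow_succ', pow_succ', Equiv.Perm.mul_apply, Equiv.Perm.mul_apply, ← ih]
      rfl
  have hbpow : ∀ (n : ℕ) (j : O), (((b.subtypePerm hbO) ^ n) j : I) = (b ^ n) (j : I) := by
    intro n
    induction n with
    | zero => intro j; rfl
    | succ n ih =>
      intro j
      rw [pow_succ', pow_succ', Equiv.Perm.mul_apply, Equiv.Perm.mul_apply, ← ih]
      rfl
  have hvO : Van ℓ fO αO βO := by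
    refine main_trans hcyv hnie hswa hfbk hiso hF (K := fun j : O => (K j).subgroupOf (YT K O))
      hfO.1 (a := a.subtypePerm haO) (b := b.subtypePerm hbO) (i := ⟨i, hiO⟩) ?_ hsup
      (center_dvd hcO htO hz) ?_ ?_ ?_
      (blk_down hKO (C := (YT K (O \ {i})).subgroupOf (YT K O)) ?_ ?_ hf.2.1 hfO h₁) ?_ ?_
    · intro j j' hjj x hx y hy
      apply Subtype.ext
      exact hc j j' (fun h => hjj (Subtype.ext h)) x hx y hy
    · intro j
      exact map_subgroupOf hαO (le_YT j.2) (ha j)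
    · intro j
      exact map_subgroupOf hβO (le_YT j.2) (hb j)
    · ext j
      show a (b (j : I)) = b (a (j : I))
      exact congrFun (congrArg (fun f : Equiv.Perm I => (f : I → I)) hab) j
    · intro x hx y hy
      apply Subtype.ext
      have : K i ≤ YT K {i} := le_YT rfl
      exact YT_comm hc (T := {i}) (T' := O \ {i}) Set.disjoint_sdiff_right x (this hx) y hy
    · rw [eq_top_iff, ← hsup]
      refine iSup_le ?_
      rintro ⟨j, hj⟩
      by_cases hji : j = i
      · subst hji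
        exact le_sup_left
      · refine le_trans ?_ le_sup_right
        have : K j ≤ YT K (O \ {i}) := le_YT ⟨hj, hji⟩
        exact fun x hx => this hx
    · intro p q k hp hq h3 h4 α₂ β₂ hα₂ hβ₂
      have h5 : (a ^ p) i = i := by
        have := congrArg Subtype.val h3
        rwa [hapow] at this
      have h6 : (b ^ q * a ^ k) i = i := by
        have := congrArg Subtype.val h4
        rw [Equiv.Perm.mul_apply, hbpow, hapow] at this
        exact this
      exact van_down hiso hKO (res_pow hαO p) (res_mul (res_pow hβO q) (res_pow hαO k))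
        (hv p q k hp hq h5 h6) α₂ β₂ hα₂ hβ₂
    · rintro ⟨j, hj⟩
      obtain ⟨x, y, hxy⟩ := (hmem j).1 hj
      refine ⟨x, y, ?_⟩
      apply Subtype.ext
      rw [hapow, hbpow]
      exact hxy
  exact hprv ℓ F hF Y (YT K O) (YT K Oᶜ) hcO htO hz f α β αO βO hαO hβO
    (by rw [YT_map ha, (himg a haO).2]) (by rw [YT_map hb, (himg b hbO).2]) fO hfO hvO τ hτ w wi hT

end Pool.Agent.PP.H60
end
end -- Pool.Agent.Helper60_PP.Orv
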