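import Pool.Agent.Helper12_AWB.B046
import Pool.Agent.Helper46_PP.StmtsTop
import Pool.Agent.Helper94_PP.Bridge

/-!
# Merged copies (generated) of the modules

* `Pool.Agent.Helper67_PP.Ex`
* `Pool.Agent.Helper67_PP.Stmts`
-/

set_option autoImplicit false

section -- Pool.Agent.Helper67_PP.Ex

/-!
SI1, tools: representations of subgroups evaluated at functions on the ambient group.
-/

open scoped BigOperators

set_option linter.unusedSectionVars false

noncomputable section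

namespace Pool.Agent.PP.H67

open Pool.Agent.PP

variable {F G : Type} [Field F] [Group G] [Finite G]

/-- the value of a representation of a subgroup at a function on the group -/
def ex {X : Subgroup G} {n : ℕ} (σ : X →* Matrix (Fin n) (Fin n) F) (a : G → F) :
    Matrix (Fin n) (Fin n) F := ev σ (fun x : X => a x)

/-- support in a subgroup -/
def Sp (X : Subgroup G) (a : G → F) : Prop := ∀ g, g ∉ X → a g = 0

/-- `g a g⁻¹` -/
def cja (g : G) (a : G → F) : G → F := fun x => a (g⁻¹ * x * g)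

section basics

variable {X Y : Subgroup G} {n : ℕ} (σ : X →* Matrix (Fin n) (Fin n) F)

theorem ex_eq [Fintype X] (a : G → F) : ex σ a = ∑ x : X, a x • σ x :=
  finsum_eq_sum_of_fintype _

theorem ex_add (a b : G → F) : ex σ (a + b) = ex σ a + ex σ b := by
  have := Fintype.ofFinite X
  rw [ex_eq, ex_eq, ex_eq, ← Finset.sum_add_distrib]
  exact Finset.sum_congr rfl fun x _ => by rw [Pi.add_apply, add_smul]

theorem ex_sub (a b : G → F) : ex σ (a - b) = ex σ a - ex σ b := by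
  have := Fintype.ofFinite X
  rw [ex_eq, ex_eq, ex_eq, ← Finset.sum_sub_distrib]
  exact Finset.sum_congr rfl fun x _ => by rw [Pi.sub_apply, sub_smul]

theorem ex_smul (c : F) (a : G → F) : ex σ (c • a) = c • ex σ a := by
  have := Fintype.ofFinite X
  rw [ex_eq, ex_eq, Finset.smul_sum]
  exact Finset.sum_congr rfl fun x _ => by rw [Pi.smul_apply, smul_eq_mul, mul_smul]

theorem ex_zero : ex σ (0 : G → F) = 0 := by
  have := Fintype.ofFinite X
  rw [ex_eq]
  exact Finset.sum_eq_zero fun x _ => by rw [Pi.zero_apply, zero_smul]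

theorem ex_sum {ι : Type*} (s : Finset ι) (a : ι → G → F) :
    ex σ (∑ i ∈ s, a i) = ∑ i ∈ s, ex σ (a i) := by
  classical
  induction s using Finset.induction_on with
  | empty => rw [Finset.sum_empty, Finset.sum_empty, ex_zero]
  | insert i s hi ih => rw [Finset.sum_insert hi, Finset.sum_insert hi, ex_add, ih]

theorem ex_congr {a b : G → F} (h : ∀ x ∈ X, a x = b x) : ex σ a = ex σ b := by
  rw [ex, ex]
  congr 1
  funext x
  exact h x x.2

theorem ex_ext0 (a : X → F) : ex σ (fun g => open Classical in if h : g ∈ X then a ⟨g, h⟩ else 0) =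
    ev σ a := by
  rw [ex]
  congr 1
  funext x
  rw [dif_pos x.2]

theorem sum_sub {V : Type*} [AddCommMonoid V] [Fintype G] [Fintype X] (f : G → V)
    (h : ∀ g, g ∉ X → f g = 0) : ∑ g, f g = ∑ x : X, f x := by
  symm
  apply Fintype.sum_of_injective (fun x : X => (x : G)) Subtype.val_injective
  · intro g hg
    apply h
    intro hX
    exact hg ⟨⟨g, hX⟩, rfl⟩
  · intro x; rfl

theorem mulF_sub_right {a b : G → F} (hb : Sp X b) (x : X) :
    mulF a b x = mulF (fun t : X => a t) (fun t : X => b t) x := by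
  have := Fintype.ofFinite G
  have := Fintype.ofFinite X
  rw [mulF, mulF, finsum_eq_sum_of_fintype, finsum_eq_sum_of_fintype, sum_sub (X := X)]
  · rfl
  · intro g hg
    rw [hb, mul_zero]
    intro h
    apply hg
    have := X.mul_mem x.2 (X.inv_mem h)
    rw [mul_inv_rev, inv_inv, mul_inv_cancel_left] at this
    exact this

theorem mulF_sub_left {a b : G → F} (ha : Sp X a) (x : X) :
    mulF a b x = mulF (fun t : X => a t) (fun t : X => b t) x := by
  have := Fintype.ofFinite G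
  have := Fintype.ofFinite X
  rw [mulF, mulF, finsum_eq_sum_of_fintype, finsum_eq_sum_of_fintype, sum_sub (X := X)]
  · rfl
  · intro g hg
    rw [ha g hg, zero_mul]

theorem ex_mulF_right {a b : G → F} (hb : Sp X b) : ex σ (mulF a b) = ex σ a * ex σ b := by
  rw [ex, ex, ex, ← H20.ev_mulF]
  congr 1
  funext x
  exact mulF_sub_right hb x

theorem ex_mulF_left {a b : G → F} (ha : Sp X a) : ex σ (mulF a b) = ex σ a * ex σ b := by
  rw [ex, ex, ex, ← H20.ev_mulF]
  congr 1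
  funext x
  exact mulF_sub_left ha x

theorem sp_mulF {a b : G → F} (ha : Sp X a) (hb : Sp X b) : Sp X (mulF a b) := by
  have := Fintype.ofFinite G
  intro g hg
  rw [mulF, finsum_eq_sum_of_fintype]
  apply Finset.sum_eq_zero
  intro t _
  by_cases ht : t ∈ X
  · rw [hb, mul_zero]
    intro h
    apply hg
    have := X.mul_mem ht h
    rwa [mul_inv_cancel_left] at this
  · rw [ha t ht, zero_mul]

theorem sp_iterate {a b : G → F} (ha : Sp X a) (hb : Sp X b) (k : ℕ) :
    Sp X ((mulF a)^[k] b) := by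
  induction k with
  | zero => exact hb
  | succ k ih => rw [Function.iterate_succ_apply']; exact sp_mulF ha ih

theorem iterate_sub {a b : G → F} (ha : Sp X a) (k : ℕ) (x : X) :
    (mulF a)^[k] b x = (mulF (fun t : X => a t))^[k] (fun t : X => b t) x := by
  induction k generalizing x with
  | zero => rfl
  | succ k ih =>
    rw [Function.iterate_succ_apply', Function.iterate_succ_apply', mulF_sub_left ha]
    congr 1
    funext t
    exact ih t

theorem ex_iterate {a b : G → F} (ha : Sp X a) (k : ℕ) :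
    ex σ ((mulF a)^[k] b) = ex σ a ^ k * ex σ b := by
  induction k with
  | zero => rw [Function.iterate_zero, id, pow_zero, one_mul]
  | succ k ih =>
    rw [Function.iterate_succ_apply', ex_mulF_left σ ha, ih, ← mul_assoc, pow_succ']

theorem Sp.mono (h : Y ≤ X) {a : G → F} (ha : Sp Y a) : Sp X a := fun g hg => ha g fun h' => hg (h h')

theorem ex_sub_group (h : Y ≤ X) {a : G → F} (ha : Sp Y a) :
    ex (σ.comp (Subgroup.inclusion h)) a = ex σ a := by
  have := Fintype.ofFinite X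
  have := Fintype.ofFinite Y
  rw [ex_eq, ex_eq]
  apply Fintype.sum_of_injective (fun x : Y => (⟨x, h x.2⟩ : X))
  · intro x y hxy
    exact Subtype.ext (congrArg (fun z : X => (z : G)) hxy)
  · intro x hx
    rw [ha x, zero_smul]
    intro hY
    exact hx ⟨⟨x, hY⟩, rfl⟩
  · intro x; rfl

theorem ex_cja (g : X) (a : G → F) : ex σ (cja g a) = σ g * ex σ a * σ g⁻¹ := by
  have := Fintype.ofFinite X
  rw [ex_eq, ex_eq, Finset.mul_sum, Finset.sum_mul,
    ← Equiv.sum_comp (MulAut.conj g).toEquiv]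
  apply Finset.sum_congr rfl
  intro x _
  show a ((g : G)⁻¹ * ((g : G) * x * (g : G)⁻¹) * g) • σ (g * x * g⁻¹) = _
  rw [Matrix.mul_smul, Matrix.smul_mul, ← map_mul, ← map_mul]
  congr 2
  group

theorem ex_comm (g : X) (a : G → F) : ex σ (cja g a) * σ g = σ g * ex σ a := by
  rw [ex_cja, mul_assoc, ← map_mul, inv_mul_cancel, map_one, mul_one]

theorem cja_sp (hX : X.Normal) (g : G) {a : G → F} (ha : Sp X a) : Sp X (cja g a) := by
  intro x hx
  apply ha
  intro h
  apply hx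
  have := hX.conj_mem _ h g
  have e : g * (g⁻¹ * x * g) * g⁻¹ = x := by group
  rwa [e] at this

theorem cja_cja (g h : G) (a : G → F) : cja g (cja h a) = cja (g * h) a := by
  funext x
  rw [cja, cja, cja]
  congr 1
  group

theorem cja_one (a : G → F) : cja 1 a = a := by
  funext x
  rw [cja]
  congr 1
  group

/-- conjugate of a representation of a normal subgroup -/
def crep (hX : X.Normal) (g : G) : X →* X where
  toFun x := ⟨g * x * g⁻¹, hX.conj_mem x x.2 g⟩
  map_one' := Subtype.ext (by simp)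
  map_mul' x y := Subtype.ext (by simp)

theorem crep_surj (hX : X.Normal) (g : G) : Function.Surjective (crep hX g) := by
  intro x
  refine ⟨⟨g⁻¹ * x * g, ?_⟩, ?_⟩
  · have := hX.conj_mem x x.2 g⁻¹
    rwa [inv_inv] at this
  · apply Subtype.ext
    show g * (g⁻¹ * x * g) * g⁻¹ = x
    group

theorem irr_comp {H K : Type} [Group H] [Group K] {m : ℕ} {ρ : K →* Matrix (Fin m) (Fin m) F}
    (hρ : IsIrr ρ) (f : H →* K) (hf : Function.Surjective f) : IsIrr (ρ.comp f) := by
  refine ⟨hρ.1, ?_⟩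
  rw [← hρ.2]
  congr 1
  ext M
  constructor
  · rintro ⟨x, rfl⟩; exact ⟨f x, rfl⟩
  · rintro ⟨x, rfl⟩
    obtain ⟨y, rfl⟩ := hf x
    exact ⟨y, rfl⟩

theorem irr_of_comp {H K : Type} [Group H] [Group K] {m : ℕ} {ρ : K →* Matrix (Fin m) (Fin m) F}
    (f : H →* K) (hρ : IsIrr (ρ.comp f)) : IsIrr ρ := by
  refine ⟨hρ.1, ?_⟩
  rw [eq_top_iff, ← hρ.2]
  apply Submodule.span_mono
  rintro _ ⟨x, rfl⟩
  exact ⟨f x, rfl⟩

theorem ex_crep (hX : X.Normal) (g : G) (a : G → F) :
    ex (σ.comp (crep hX g)) a = ex σ (cja g a) := by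
  have := Fintype.ofFinite X
  rw [ex_eq, ex_eq]
  apply Fintype.sum_bijective (crep hX g)
  · constructor
    · intro x y hxy
      have := congrArg (fun z : X => (z : G)) hxy
      apply Subtype.ext
      have h : g * (x : G) * g⁻¹ = g * (y : G) * g⁻¹ := this
      exact mul_left_cancel (mul_right_cancel h)
    · exact crep_surj hX g
  · intro x
    rw [cja]
    show a x • σ (crep hX g x) = a (g⁻¹ * (g * x * g⁻¹) * g) • σ (crep hX g x)
    congr 2
    group

end basics

section conj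

variable {X : Subgroup G} {n : ℕ} {σ : X →* Matrix (Fin n) (Fin n) F}

/-- conjugate representations have conjugate values -/
theorem ev_conj {H : Type} [Group H] [Finite H] {n m : ℕ} {ρ : H →* Matrix (Fin n) (Fin n) F}
    {τ : H →* Matrix (Fin m) (Fin m) F} {A : Matrix (Fin m) (Fin n) F}
    (h : ∀ x, A * ρ x = τ x * A) (a : H → F) : A * ev ρ a = ev τ a * A := by
  have := Fintype.ofFinite H
  rw [ev, ev, finsum_eq_sum_of_fintype, finsum_eq_sum_of_fintype, Matrix.mul_sum, Matrix.sum_mul]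
  apply Finset.sum_congr rfl
  intro x _
  rw [Matrix.mul_smul, Matrix.smul_mul, h]

/-- equal traces: the kernels agree and so do scalar values -/
theorem ev_eq_of_tr {ℓ : ℕ} (hF : GoodF ℓ F) {H : Type} [Group H] [Finite H] {n m : ℕ}
    {ρ : H →* Matrix (Fin n) (Fin n) F} {τ : H →* Matrix (Fin m) (Fin m) F} (hρ : IsIrr ρ)
    (hτ : IsIrr τ) (h : tr ρ = tr τ) (a : H → F) (w : F) (ha : ev ρ a = Matrix.scalar (Fin n) w) :
    ev τ a = Matrix.scalar (Fin m) w := by
  obtain ⟨A, B, -, h1, h2, h3⟩ := H20.ibc ℓ F hF H n m ρ τ hρ hτ h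
  have h4 := ev_conj h3 a
  rw [ha] at h4
  calc ev τ a = ev τ a * (A * B) := by rw [h1, mul_one]
    _ = (ev τ a * A) * B := by rw [Matrix.mul_assoc]
    _ = (A * Matrix.scalar (Fin n) w) * B := by rw [h4]
    _ = Matrix.scalar (Fin m) w := by
      rw [Matrix.scalar_apply, ← Matrix.smul_one_eq_diagonal, Matrix.mul_smul, Matrix.mul_one,
        Matrix.smul_mul, h1, Matrix.scalar_apply, Matrix.smul_one_eq_diagonal]

/-- nilpotency passes to conjugate representations -/
theorem nil_of_tr {ℓ : ℕ} (hF : GoodF ℓ F) {H : Type} [Group H] [Finite H] {n m : ℕ}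
    {ρ : H →* Matrix (Fin n) (Fin n) F} {τ : H →* Matrix (Fin m) (Fin m) F} (hρ : IsIrr ρ)
    (hτ : IsIrr τ) (h : tr ρ = tr τ) (a : H → F) (ha : IsNilpotent (ev ρ a)) :
    IsNilpotent (ev τ a) := by
  obtain ⟨A, B, -, h1, h2, h3⟩ := H20.ibc ℓ F hF H n m ρ τ hρ hτ h
  have h4 := ev_conj h3 a
  obtain ⟨k, hk⟩ := ha
  have h5 : ∀ j : ℕ, A * ev ρ a ^ j = ev τ a ^ j * A := by
    intro j
    induction j with
    | zero => rw [pow_zero, pow_zero, Matrix.mul_one, Matrix.one_mul]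
    | succ j ih => rw [pow_succ, pow_succ, ← Matrix.mul_assoc, ih, Matrix.mul_assoc, h4,
        Matrix.mul_assoc]
  refine ⟨k, ?_⟩
  have h6 := h5 k
  rw [hk, Matrix.mul_zero] at h6
  calc ev τ a ^ k = ev τ a ^ k * (A * B) := by rw [h1, mul_one]
    _ = (ev τ a ^ k * A) * B := by rw [Matrix.mul_assoc]
    _ = 0 := by rw [← h6, Matrix.zero_mul]

end conj

end Pool.Agent.PP.H67
end
end -- Pool.Agent.Helper67_PP.Ex

section -- Pool.Agent.Helper67_PP.Stmts

/-!
# SI1 (the case of a simple chief factor): statements of the parts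

Text: `AWC_A.md`, A5, with the cover `E` of helper18.

`C = C_G(N)`, `ρ` an irreducible representation of `C` with trace `θ`, `L = stC θ` its stabiliser,
`p : E → G` with image `L` and central kernel of order prime to `ℓ`, `α` a representation of `E`,
`K = {x : p x ∈ C, α x = ρ (p x)}`, which is mapped bijectively onto `C`, `D = E / K`.
-/

open scoped BigOperators

set_option linter.unusedSectionVars false

noncomputable section

namespace Pool.Agent.PP.H67

open Pool.Agent.Helper51_AWC Pool.Agent.Helper79_WRA Pool.Agent.PP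

section defs

variable {F G : Type} [Field F] [Group G]

/-- the stabiliser of a function on the normal subgroup `C` -/
def stC {C : Subgroup G} (hC : C.Normal) (θ : C → F) : Subgroup G where
  carrier := {g | ∀ c : C, θ ⟨g * c * g⁻¹, hC.conj_mem c c.2 g⟩ = θ c}
  one_mem' := by
    intro c
    congr 1
    exact Subtype.ext (by simp)
  mul_mem' := by
    intro g h hg hh c
    have e : (⟨g * h * c * (g * h)⁻¹, hC.conj_mem c c.2 (g * h)⟩ : C) =
        ⟨g * (⟨h * c * h⁻¹, hC.conj_mem c c.2 h⟩ : C) * g⁻¹, hC.conj_mem _ (hC.conj_mem c c.2 h) g⟩ :=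
      Subtype.ext (by simp only [mul_inv_rev, mul_assoc])
    rw [e, hg, hh]
  inv_mem' := by
    intro g hg c
    have := hg ⟨g⁻¹ * c * g⁻¹⁻¹, hC.conj_mem c c.2 g⁻¹⟩
    rw [← this]
    congr 1
    apply Subtype.ext
    show g * (g⁻¹ * c * g⁻¹⁻¹) * g⁻¹ = c
    group

/-- the representation `τ` of `X` lies over the representation `ρ` of `C ≤ X` (is a multiple of `ρ`
on `C`) -/
def Ov {C X : Subgroup G} {n m : ℕ} (ρ : C →* Matrix (Fin n) (Fin n) F)
    (τ : X →* Matrix (Fin m) (Fin m) F) : Prop :=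
  ∀ a : G → F, Sp C a → ex ρ a = 0 → ex τ a = 0

/-- the irreducible characters of `X` which are multiples of `θ` on `C` and on which `e` acts as the
identity -/
def LT {C : Subgroup G} (X : Subgroup G) (θ : C → F) (e : G → F) : Set (X → F) :=
  {f | (∃ (n m : ℕ) (ρ : C →* Matrix (Fin n) (Fin n) F) (τ : X →* Matrix (Fin m) (Fin m) F),
    IsIrr ρ ∧ IsIrr τ ∧ tr ρ = θ ∧ tr τ = f ∧ Ov ρ τ) ∧ actF (fun t : X => e t) f = f}

/-- the cover -/
structure Cover (ℓ : ℕ) {E : Type} [Group E] {n : ℕ} (C L : Subgroup G)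
    (ρ : C →* Matrix (Fin n) (Fin n) F) (p : E →* G) (α : E →* Matrix (Fin n) (Fin n) F)
    (K : Subgroup E) : Prop where
  irr : IsIrr ρ
  le : C ≤ L
  range : p.range = L
  central : ∀ x, p x = 1 → x ∈ Subgroup.center E
  prime : ¬ ℓ ∣ Nat.card p.ker
  faithful : ∀ x, p x = 1 → α x = 1 → x = 1
  scalar : ∀ x, p x = 1 → ∃ z : F, α x = Matrix.scalar (Fin n) z
  impl : ∀ (x : E) (c c' : C), (c' : G) = p x * c * (p x)⁻¹ → α x * ρ c = ρ c' * α x
  lift : ∀ c : C, ∃ x, p x = c ∧ α x = ρ c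
  mem : ∀ x, x ∈ K ↔ ∃ c : C, p x = c ∧ α x = ρ c

end defs

/-- CVR: existence of the cover. -/
def CvrStmt : Prop := ∀ (ℓ : ℕ) (F : Type) [Field F], GoodF ℓ F → ∀ (G : Type) [Group G] [Finite G]
  (C : Subgroup G) (hC : C.Normal) (n : ℕ) (ρ : C →* Matrix (Fin n) (Fin n) F), IsIrr ρ →
  ∃ (E : Type) (_ : Group E) (_ : Finite E) (p : E →* G) (α : E →* Matrix (Fin n) (Fin n) F)
    (K : Subgroup E), K.Normal ∧ Cover ℓ C (stC hC (tr ρ)) ρ p α K

open Classical in
/-- CLS: the Clifford correspondence, as a formula for the `ℓ`-numbers. -/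
def ClsStmt : Prop := ∀ (ℓ : ℕ) (F : Type) [Field F], GoodF ℓ F → ∀ (G : Type) [Group G] [Finite G]
  (C : Subgroup G) (hC : C.Normal) (X : Subgroup G), C ≤ X → ∀ e : G → F, IsCl e →
  (Nat.card X : ℤ) * (lnum X e : ℤ) = ∑ᶠ θ ∈ IBr F C,
    (Nat.card (X ⊓ stC hC θ : Subgroup G) : ℤ) * ((LT (X ⊓ stC hC θ) θ e).ncard : ℤ)

/-- CLR: an irreducible representation `τ` of the stabiliser of `θ` lying over `θ` is a corner of
an irreducible representation `σ` of the group. -/
def ClrStmt : Prop := ∀ (ℓ : ℕ) (F : Type) [Field F], GoodF ℓ F → ∀ (G : Type) [Group G] [Finite G]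
  (C : Subgroup G) (hC : C.Normal) (n m : ℕ) (ρ : C →* Matrix (Fin n) (Fin n) F)
  (τ : stC hC (tr ρ) →* Matrix (Fin m) (Fin m) F), IsIrr ρ → IsIrr τ → Ov ρ τ →
  ∃ (k : ℕ) (σ : G →* Matrix (Fin k) (Fin k) F) (P : Matrix (Fin m) (Fin k) F)
    (Q : Matrix (Fin k) (Fin m) F), IsIrr σ ∧ P * Q = 1 ∧ (∀ g : stC hC (tr ρ), P * σ g * Q = τ g) ∧
    (∀ g : stC hC (tr ρ), Q * P * σ g = σ g * (Q * P)) ∧
    ∀ (e : G → F) (w : F), IsCl e → ev σ e = Matrix.scalar (Fin k) w →
      ex τ e = Matrix.scalar (Fin m) w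

/-- LMA: the `ℓ`-numbers over `θ` are the `ℓ`-numbers of the class function `s` of `D = E / K`. -/
def LmaStmt : Prop := ∀ (ℓ : ℕ) (F : Type) [Field F], GoodF ℓ F → ∀ (G E : Type) [Group G]
  [Finite G] [Group E] [Finite E] (C : Subgroup G) (hC : C.Normal) (n : ℕ)
  (ρ : C →* Matrix (Fin n) (Fin n) F) (p : E →* G) (α : E →* Matrix (Fin n) (Fin n) F)
  (K : Subgroup E) [K.Normal], Cover ℓ C (stC hC (tr ρ)) ρ p α K → ∀ e : G → F, IsIdem e →
  ∃ s : E ⧸ K → F, IsCl s ∧
    (∀ x : E, ∑ᶠ k : K, ((Nat.card p.ker : F)⁻¹ * e (p (x * k))) • α (x * k) =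
      Matrix.scalar (Fin n) (s x)) ∧
    (∀ X : Subgroup G, C ≤ X → (LT (X ⊓ stC hC (tr ρ)) (tr ρ) e).ncard =
      lnum ((X.comap p).map (QuotientGroup.mk' K)) s) ∧
    -- the irreducible representations `κ` of `D` on which `s` does not act as zero:
    -- `α ⊗ κ` is a representation of the stabiliser
    ∀ (m : ℕ) (κ : E ⧸ K →* Matrix (Fin m) (Fin m) F) (w : F), IsIrr κ →
      ev κ s = Matrix.scalar (Fin m) w → w ≠ 0 →
      ∃ σ : stC hC (tr ρ) →* Matrix (Fin (n * m)) (Fin (n * m)) F, IsIrr σ ∧ Ov ρ σ ∧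
        (∀ (x : E) (hx : p x ∈ stC hC (tr ρ)), σ ⟨p x, hx⟩ = kr (α x) (κ x)) ∧
        ex σ e = Matrix.scalar (Fin (n * m)) w

/-- CHF: chains under a homomorphism whose kernel centralises `M` and meets it in an `ℓ'`-group. -/
def ChfStmt : Prop := ∀ (ℓ : ℕ) [Fact ℓ.Prime] (E G : Type) [Group E] [Finite E] [Group G]
  [Finite G] (f : E →* G) (M : Subgroup E), M.Normal → (∀ k, f k = 1 → ∀ m ∈ M, k * m = m * k) →
  ¬ ℓ ∣ Nat.card (f.ker ⊓ M : Subgroup E) → ∀ w : Subgroup E → ℤ,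
  ∑ d ∈ chainsOn (psubIn ℓ M) ⊥, (-1) ^ (d.card + 1) * w (stab d) =
    ∑ d ∈ chainsOn (psubIn ℓ (M.map f)) ⊥, (-1) ^ (d.card + 1) * w ((stab d).comap f)

/-- POW: a class function which acts as zero or one in the irreducible representations may be
replaced by an idempotent. -/
def PowStmt : Prop := ∀ (ℓ : ℕ) (F : Type) [Field F], GoodF ℓ F → ∀ (D : Type) [Group D] [Finite D]
  (s : D → F), IsCl s → (∀ (m : ℕ) (κ : D →* Matrix (Fin m) (Fin m) F) (w : F), IsIrr κ →
    ev κ s = Matrix.scalar (Fin m) w → w = 0 ∨ w = 1) →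
  ∃ f : D → F, IsIdem f ∧ (∀ (m : ℕ) (κ : D →* Matrix (Fin m) (Fin m) F), IsIrr κ →
    ev κ f = ev κ s) ∧ (∀ Q : Subgroup D, Q.Normal → YY ℓ Q f = YY ℓ Q s) ∧
    ∀ (z : D) (c : F), (∀ x, s (z * x) = c * s x) → ∀ x, f (z * x) = c * f x

/-- PSE: positivity of the idempotent of `D`. -/
def PseStmt : Prop := ∀ (ℓ : ℕ) (F : Type) [Field F], GoodF ℓ F → ∀ (G E : Type) [Group G]
  [Finite G] [Group E] [Finite E] (C L : Subgroup G) (n : ℕ)
  (ρ : C →* Matrix (Fin n) (Fin n) F) (p : E →* G) (α : E →* Matrix (Fin n) (Fin n) F)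
  (K : Subgroup E) [K.Normal], C.Normal → Cover ℓ C L ρ p α K →
  ∀ N : Subgroup G, N.Normal → N ≤ L → (∀ x ∈ N, ∀ c ∈ C, x * c = c * x) →
  ¬ ℓ ∣ Nat.card (C ⊓ N : Subgroup G) → ∀ e : G → F, IsIdem e → Pos ℓ e N → ∀ f : E ⧸ K → F, IsIdem f →
  (∀ (m : ℕ) (κ : E ⧸ K →* Matrix (Fin m) (Fin m) F), IsIrr κ → ev κ f ≠ 0 →
    ∃ (k : ℕ) (σ : G →* Matrix (Fin k) (Fin k) F) (P : Matrix (Fin (n * m)) (Fin k) F)
      (Q : Matrix (Fin k) (Fin (n * m)) F), IsIrr σ ∧ ev σ e = 1 ∧ P * Q = 1 ∧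
      ∀ x : E, Q * P * σ (p x) = σ (p x) * (Q * P) ∧ P * σ (p x) * Q = kr (α x) (κ x)) →
  Pos ℓ f ((N.comap p).map (QuotientGroup.mk' K))

/-- STR: the structure of `D = E / K`. -/
def StrStmt : Prop := ∀ (ℓ : ℕ) [Fact ℓ.Prime] (G E : Type) [Group G] [Finite G] [Group E]
  [Finite E] (N : Subgroup G), N.Normal → opCore ℓ N = ⊥ →
  NASimple (N ⧸ (Subgroup.center G).subgroupOf N) → NilOut N → ∀ (p : E →* G) (K : Subgroup E)
  [K.Normal], N ≤ p.range → Subgroup.centralizer (N : Set G) ≤ p.range →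
  (∀ x, p x = 1 → x ∈ Subgroup.center E) → ¬ ℓ ∣ Nat.card p.ker →
  K.map p = Subgroup.centralizer (N : Set G) → K ⊓ p.ker = ⊥ →
  -- for the chains
  (∀ k ∈ K, ∀ m ∈ N.comap p, k * m = m * k) ∧ ¬ ℓ ∣ Nat.card (K ⊓ N.comap p : Subgroup E) ∧
  -- for the hypothesis on nearly simple groups
  opCore ℓ (E ⧸ K) = ⊥ ∧
  NearlySimple (E ⧸ K) (N ⧸ (Subgroup.center G).subgroupOf N) ∧
  Subgroup.center (E ⧸ K) = p.ker.map (QuotientGroup.mk' K) ∧
  -- for the induction
  ((N.comap p).map (QuotientGroup.mk' K)).Normal ∧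
  Subgroup.centralizer (((N.comap p).map (QuotientGroup.mk' K) : Subgroup (E ⧸ K)) : Set (E ⧸ K)) =
    Subgroup.center (E ⧸ K) ∧
  ¬ ℓ ∣ Nat.card (Subgroup.center (E ⧸ K)) ∧
  Subgroup.center (E ⧸ K) ≤ (N.comap p).map (QuotientGroup.mk' K) ∧
  mu ((N.comap p).map (QuotientGroup.mk' K)) = mu N

/-- FNL: the end of the proof of S1, in the group `D`. -/
def FnlStmt : Prop := ∀ (ℓ : ℕ) [Fact ℓ.Prime] (F : Type) [Field F], GoodF ℓ F →
  ∀ (D : Type) [Group D] [Finite D] (M : Subgroup D), M.Normal →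
  Subgroup.centralizer (M : Set D) = Subgroup.center D → ¬ ℓ ∣ Nat.card (Subgroup.center D) →
  Subgroup.center D ≤ M → GoodP ℓ F M → Ylt ℓ F (mu M) →
  ∀ f : D → F, IsIdem f → Pos ℓ f M → (Pos ℓ f ⊤ → YY ℓ ⊤ f = 0) → YY ℓ M f = 0

end Pool.Agent.PP.H67
end
end -- Pool.Agent.Helper67_PP.Stmts
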