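import Pool.Agent.Helper12_AWB.B047
import Pool.Agent.Helper12_AWB.B055
import Pool.Agent.Helper12_AWB.B069

/-!
# Merged copies (generated) of the modules

* `Pool.Agent.Helper6_PP.Cmp`
* `Pool.Agent.Helper6_PP.Nco`
* `Pool.Agent.Helper6_PP.NcoF`
* `Pool.Agent.Helper91_AWR.Pow`
-/

set_option autoImplicit false

section -- Pool.Agent.Helper6_PP.Cmp

/-!
# Squad PP, module CMP: good complements
-/

open scoped BigOperators

set_option linter.unusedSectionVars false

noncomputable section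

namespace Pool.Agent.PP.H6

open Pool.Agent.Helper51_AWC Pool.Agent.Helper79_WRA Pool.Agent.PP

variable {F G : Type} [Field F] [Group G]

open Classical in
/-- the class sum of a conjugacy class -/
def cs (F : Type) [Field F] {N : Type} [Group N] (K : ConjClasses N) : N → F :=
  fun y => if ConjClasses.mk y = K then 1 else 0

theorem cs_congr {N N' : Type} [Group N] [Group N'] {K : ConjClasses N} {K' : ConjClasses N'}
    {y : N} {y' : N'} (h : ConjClasses.mk y = K ↔ ConjClasses.mk y' = K') :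
    cs F K y = cs F K' y' := by
  unfold cs
  by_cases h1 : ConjClasses.mk y = K
  · rw [if_pos h1, if_pos (h.1 h1)]
  · rw [if_neg h1, if_neg (fun h2 => h1 (h.2 h2))]

theorem cs_isCl {N : Type} [Group N] (K : ConjClasses N) : IsCl (cs F K) := by
  intro x y
  have h : ConjClasses.mk (y * x * y⁻¹) = ConjClasses.mk x :=
    ConjClasses.mk_eq_mk_iff_isConj.2 (isConj_iff.2 ⟨y, rfl⟩).symm
  unfold cs
  rw [h]

theorem mulF_fin {N : Type} [Group N] [Fintype N] (a b : N → F) (x : N) :
    mulF a b x = ∑ t, a t * b (t⁻¹ * x) := by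
  rw [mulF, finsum_eq_sum_of_fintype]

/-- the value of a class function at the representative -/
theorem cl_out {N : Type} [Group N] {b : N → F} (hb : IsCl b) (y : N) :
    b (ConjClasses.mk y).out = b y := by
  have h : IsConj (ConjClasses.mk y).out y := by
    rw [← ConjClasses.mk_eq_mk_iff_isConj]
    exact Quotient.out_eq _
  obtain ⟨c, hc⟩ := isConj_iff.1 h
  have h1 := hb (ConjClasses.mk y).out c
  rw [hc] at h1
  exact h1.symm

/-- the decomposition of `1` as a sum of central characters at class sums -/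
theorem one_eq_sum {N : Type} [Group N] [Fintype N] [Fintype (ConjClasses N)] {b : N → F}
    (hb : IsIdem b) (w : ConjClasses N → F) (hw : ∀ K, mulF (cs F K) b = w K • b)
    {x : N} (hx : b x ≠ 0) : ∑ K : ConjClasses N, b K.out * w K = 1 := by
  have h1 : b x = ∑ K : ConjClasses N, b K.out * (w K * b x) := by
    conv_lhs => rw [← hb.2]
    rw [mulF_fin]
    have h2 : ∀ t : N, b t * b (t⁻¹ * x) =
        ∑ K : ConjClasses N, b K.out * (cs F K t * b (t⁻¹ * x)) := by
      intro t
      classical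
      rw [Finset.sum_eq_single (ConjClasses.mk t)]
      · rw [cl_out hb.1]
        unfold cs
        rw [if_pos rfl, one_mul]
      · intro K _ hK
        unfold cs
        rw [if_neg (Ne.symm hK), zero_mul, mul_zero]
      · intro h
        exact absurd (Finset.mem_univ _) h
    rw [Finset.sum_congr rfl fun t _ => h2 t, Finset.sum_comm]
    refine Finset.sum_congr rfl fun K _ => ?_
    rw [← Finset.mul_sum, ← mulF_fin, hw K, Pi.smul_apply, smul_eq_mul]
  have h3 : (∑ K : ConjClasses N, b K.out * w K) * b x = 1 * b x := by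
    rw [Finset.sum_mul, one_mul, h1]
    refine Finset.sum_congr rfl fun K _ => ?_
    rw [mul_assoc]
    congr 1
    rw [← h1]
  exact mul_right_cancel₀ hx h3

/-- conjugation by elements of `G` on the conjugacy classes of `N` -/
@[reducible] def ccAct {N : Subgroup G} [N.Normal] (S : Subgroup G) :
    MulAction S (ConjClasses N) where
  smul s K := ConjClasses.map (MulAut.conjNormal (s : G) : MulAut N).toMonoidHom K
  one_smul K := by
    induction K using Quotient.inductionOn with
    | h x =>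
      change ConjClasses.mk (MulAut.conjNormal ((1 : S) : G) x) = ConjClasses.mk x
      rw [OneMemClass.coe_one, map_one]
      rfl
  mul_smul s t K := by
    induction K using Quotient.inductionOn with
    | h x =>
      change ConjClasses.mk (MulAut.conjNormal ((s * t : S) : G) x) =
        ConjClasses.mk (MulAut.conjNormal (s : G) (MulAut.conjNormal (t : G) x))
      rw [Subgroup.coe_mul, map_mul]
      rfl

/-- the order of the centraliser -/
theorem card_cent (N : Subgroup G) (x : N) :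
    Nat.card (N ⊓ Subgroup.centralizer ({(x : G)} : Set G) : Subgroup G) =
      Nat.card (Subgroup.centralizer ({x} : Set N)) := by
  have h : (Subgroup.centralizer ({x} : Set N)).map N.subtype =
      N ⊓ Subgroup.centralizer ({(x : G)} : Set G) := by
    ext y
    rw [Subgroup.mem_inf, Subgroup.mem_centralizer_singleton_iff]
    constructor
    · rintro ⟨z, hz, rfl⟩
      have hz' := Subgroup.mem_centralizer_singleton_iff.1 hz
      exact ⟨z.2, congrArg Subtype.val hz'⟩
    · rintro ⟨h1, h2⟩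
      refine ⟨⟨y, h1⟩, ?_, rfl⟩
      change (⟨y, h1⟩ : N) ∈ Subgroup.centralizer ({x} : Set N)
      rw [Subgroup.mem_centralizer_singleton_iff]
      exact Subtype.ext h2
  rw [← h, Subgroup.card_map_of_injective N.subtype_injective]

variable [Finite G]

/-- an `ℓ`-subgroup supplementing `N` in `T` -/
theorem exists_suppl {ℓ : ℕ} [Fact ℓ.Prime] {N T : Subgroup G} [N.Normal] (hNT : N ≤ T) {k : ℕ}
    (hk : N.relIndex T = ℓ ^ k) : ∃ S : Subgroup G, IsPGroup ℓ S ∧ S ⊔ N = T := by
  obtain ⟨P₀⟩ : Nonempty (Sylow ℓ T) := inferInstance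
  refine ⟨(P₀ : Subgroup T).map T.subtype, P₀.isPGroup'.map _, ?_⟩
  have h1 : ((P₀ : Subgroup T) ⊔ N.subgroupOf T).index = 1 := by
    have h2 := Subgroup.index_dvd_of_le (le_sup_left : (P₀ : Subgroup T) ≤ (P₀ : Subgroup T) ⊔ N.subgroupOf T)
    have h3 := Subgroup.index_dvd_of_le (le_sup_right : N.subgroupOf T ≤ (P₀ : Subgroup T) ⊔ N.subgroupOf T)
    have h4 : (N.subgroupOf T).index = ℓ ^ k := hk
    rw [h4] at h3
    obtain ⟨j, _, hj⟩ := (Nat.dvd_prime_pow (Fact.out : ℓ.Prime)).1 h3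
    rcases Nat.eq_zero_or_pos j with rfl | hj0
    · rw [hj, pow_zero]
    · exfalso
      rw [hj] at h2
      exact P₀.not_dvd_index (dvd_trans (dvd_pow_self ℓ hj0.ne') h2)
  rw [Subgroup.index_eq_one] at h1
  have h5 : ((P₀ : Subgroup T) ⊔ N.subgroupOf T).map T.subtype = T := by
    rw [h1, ← MonoidHom.range_eq_map, Subgroup.range_subtype]
  rw [Subgroup.map_sup, Subgroup.map_subgroupOf_eq_of_le hNT] at h5
  exact h5

/-- the key point: a class of `N` fixed by `T` with nonzero central character -/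
theorem exists_class {ℓ : ℕ} (hℓ : ℓ.Prime) (hF : CharP F ℓ) (horb : OrbStmt)
    {N T : Subgroup G} [N.Normal] {b : G → F} (hb : IsCl b)
    (hbi : IsIdem (fun x : N => b x)) (hne : ∃ x : N, b x ≠ 0)
    (hmat : ∀ z : N → F, IsCl z → ∃ w : F, mulF z (fun x : N => b x) = w • (fun x : N => b x))
    (hNT : N ≤ T) {k : ℕ} (hk : N.relIndex T = ℓ ^ k) :
    ∃ (x : N) (w : F), b x ≠ 0 ∧ w ≠ 0 ∧
      mulF (cs F (ConjClasses.mk x)) (fun x : N => b x) = w • (fun x : N => b x) ∧
      ∀ t ∈ T, ∃ m ∈ N, m * t ∈ Subgroup.centralizer ({(x : G)} : Set G) := by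
  have : Fact ℓ.Prime := ⟨hℓ⟩
  classical
  have := Fintype.ofFinite N
  have := Fintype.ofFinite (ConjClasses N)
  obtain ⟨S, hS, hST⟩ := exists_suppl hNT hk
  choose w hw using fun K : ConjClasses N => hmat (cs F K) (cs_isCl K)
  obtain ⟨x₀, hx₀⟩ := hne
  have hsum := one_eq_sum hbi w hw (x := x₀) hx₀
  let act := ccAct (N := N) S
  have hsm : ∀ (s : S) (y : N), s • (ConjClasses.mk y) =
      ConjClasses.mk (MulAut.conjNormal (s : G) y) := fun s y => rfl
  have hout : ∀ (s : S) (K : ConjClasses N), b ((s • K).out : N) = b (K.out : N) := by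
    intro s K
    induction K using Quotient.inductionOn with
    | h y =>
      have h1 := cl_out (b := fun x : N => b x) hbi.1 (MulAut.conjNormal (s : G) y)
      have h2 := cl_out (b := fun x : N => b x) hbi.1 y
      change b ((ConjClasses.mk (MulAut.conjNormal (s : G) y)).out : N) =
        b ((ConjClasses.mk y).out : N)
      rw [h1, h2, MulAut.conjNormal_apply, hb]
  have hwinv : ∀ (s : S) (K : ConjClasses N), w (s • K) = w K := by
    intro s K
    have e1 := congrFun (hw (s • K)) (MulAut.conjNormal (s : G) x₀)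
    have e2 := congrFun (hw K) x₀
    rw [Pi.smul_apply, smul_eq_mul, mulF_fin] at e1 e2
    have h3 : b ((MulAut.conjNormal (s : G) x₀ : N) : G) = b x₀ := by
      rw [MulAut.conjNormal_apply, hb]
    rw [h3] at e1
    have h4 : ∑ t : N, cs F (s • K) t * b ((t⁻¹ * MulAut.conjNormal (s : G) x₀ : N) : G) =
        ∑ t : N, cs F K t * b ((t⁻¹ * x₀ : N) : G) := by
      refine (Fintype.sum_equiv (MulAut.conjNormal (s : G) : MulAut N).toEquiv _ _ ?_).symm
      intro t
      have h5 : cs F (s • K) ((MulAut.conjNormal (s : G) : MulAut N).toEquiv t) = cs F K t := by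
        have h6 : (ConjClasses.mk ((MulAut.conjNormal (s : G) : MulAut N).toEquiv t) = s • K) ↔
            (ConjClasses.mk t = K) := by
          have h7 : ConjClasses.mk ((MulAut.conjNormal (s : G) : MulAut N).toEquiv t) =
            s • ConjClasses.mk t := rfl
          rw [h7]
          exact (MulAction.injective s).eq_iff
        exact cs_congr h6
      have h8 : b ((((MulAut.conjNormal (s : G) : MulAut N).toEquiv t)⁻¹ *
          MulAut.conjNormal (s : G) x₀ : N) : G) = b ((t⁻¹ * x₀ : N) : G) := by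
        have h9 : ((MulAut.conjNormal (s : G) : MulAut N).toEquiv t)⁻¹ *
          MulAut.conjNormal (s : G) x₀ = MulAut.conjNormal (s : G) (t⁻¹ * x₀) := by
          rw [map_mul, map_inv]
          rfl
        rw [h9, MulAut.conjNormal_apply, hb]
      rw [h5, h8]
    rw [h4, e2] at e1
    exact (mul_right_cancel₀ hx₀ e1).symm
  have horb' := horb ℓ F F S (ConjClasses N) hℓ hF hS (fun K => b (K.out : N) * w K)
    (fun s K => by simp only [hout s K, hwinv s K])
  rw [finsum_eq_sum_of_fintype, hsum] at horb'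
  obtain ⟨K, hKf, hK⟩ : ∃ K ∈ MulAction.fixedPoints S (ConjClasses N),
      b (K.out : N) * w K ≠ 0 := by
    by_contra hcon
    push Not at hcon
    have h0 : ∑ᶠ (t : ConjClasses N) (_ : t ∈ MulAction.fixedPoints S (ConjClasses N)),
        b (t.out : N) * w t = 0 :=
      finsum_eq_zero_of_forall_eq_zero fun t => by
        rw [finsum_eq_if]
        split_ifs with ht
        · exact hcon t ht
        · rfl
    rw [h0] at horb'
    exact one_ne_zero horb'
  have hKo : ConjClasses.mk (K.out : N) = K := Quotient.out_eq _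
  refine ⟨K.out, w K, left_ne_zero_of_mul hK, right_ne_zero_of_mul hK, ?_, ?_⟩
  · rw [hKo]
    exact hw K
  · intro t ht
    rw [← hST, Subgroup.mem_sup_of_normal_right] at ht
    obtain ⟨s, hs, n, hn, rfl⟩ := ht
    -- `s K = K`
    have h1 : (⟨s, hs⟩ : S) • K = K := hKf ⟨s, hs⟩
    have h2 : ConjClasses.mk (MulAut.conjNormal s (MulAut.conjNormal n (K.out : N))) = K := by
      have h3 : ConjClasses.mk (MulAut.conjNormal n (K.out : N)) = K := by
        conv_rhs => rw [← hKo]
        rw [ConjClasses.mk_eq_mk_iff_isConj]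
        refine (isConj_iff.2 ⟨⟨n, hn⟩, ?_⟩).symm
        apply Subtype.ext
        rw [MulAut.conjNormal_apply]
        rfl
      conv_rhs => rw [← h1]
      conv_rhs => rw [← h3]
      rfl
    rw [← hKo, ConjClasses.mk_eq_mk_iff_isConj] at h2
    obtain ⟨c, hc⟩ := isConj_iff.1 h2
    refine ⟨c, c.2, ?_⟩
    rw [hKo] at hc
    have hc' := congrArg (Subtype.val : N → G) hc
    rw [Subgroup.coe_mul, Subgroup.coe_mul, Subgroup.coe_inv, MulAut.conjNormal_apply,
      MulAut.conjNormal_apply] at hc'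
    rw [Subgroup.mem_centralizer_singleton_iff]
    generalize ((K.out : N) : G) = u at hc'
    conv_rhs => rw [← hc']
    group

/-- truncation: the class meets the centraliser of a good complement -/
theorem class_meets {ℓ : ℕ} (hℓ : ℓ.Prime) (hF : CharP F ℓ) (horb : OrbStmt)
    {N : Subgroup G} [N.Normal] {b : G → F} (hb : IsCl b) {x : N} {w : F} (hw0 : w ≠ 0)
    (hw : mulF (cs F (ConjClasses.mk x)) (fun x : N => b x) = w • (fun x : N => b x))
    {P : Subgroup G} (hP : IsPGroup ℓ P)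
    (hPT : ∀ p ∈ P, ∃ m ∈ N, m * p ∈ Subgroup.centralizer ({(x : G)} : Set G))
    (hgd : ∃ y ∈ N, y ∈ Subgroup.centralizer (P : Set G) ∧ b y ≠ 0) :
    ∃ n : N, (n : G) * x * (n : G)⁻¹ ∈ Subgroup.centralizer (P : Set G) := by
  classical
  have := Fintype.ofFinite N
  obtain ⟨y, hyN, hyP, hy⟩ := hgd
  let : MulAction P N := MulAction.compHom N ((MulAut.conjNormal : G →* MulAut N).comp P.subtype)
  have hsm : ∀ (p : P) (t : N), ((p • t : N) : G) = p * t * (p : G)⁻¹ := by
    intro p t
    exact MulAut.conjNormal_apply (p : G) t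
  have hmk : ∀ (p : P) (t : N), (ConjClasses.mk (p • t) = ConjClasses.mk x) ↔
      (ConjClasses.mk t = ConjClasses.mk x) := by
    have key : ∀ (p : G) (_ : ∃ m ∈ N, m * p ∈ Subgroup.centralizer ({(x : G)} : Set G)) (t t' : N),
        (t' : G) = p * t * p⁻¹ → IsConj t x → IsConj t' x := by
      rintro p ⟨m, hm, hmp⟩ t t' ht' hc
      obtain ⟨c, hc⟩ := isConj_iff.1 hc
      have hc' := congrArg (Subtype.val : N → G) hc
      rw [Subgroup.coe_mul, Subgroup.coe_mul, Subgroup.coe_inv] at hc'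
      rw [Subgroup.mem_centralizer_singleton_iff] at hmp
      refine isConj_iff.2 ⟨⟨m * (p * c * p⁻¹), mul_mem hm (Subgroup.Normal.conj_mem
        inferInstance _ c.2 _)⟩, ?_⟩
      apply Subtype.ext
      rw [Subgroup.coe_mul, Subgroup.coe_mul, Subgroup.coe_inv]
      change m * (p * c * p⁻¹) * t' * (m * (p * c * p⁻¹))⁻¹ = (x : G)
      rw [ht']
      have e1 : m * (p * c * p⁻¹) * (p * t * p⁻¹) * (m * (p * c * p⁻¹))⁻¹ =
          m * p * (c * t * (c : G)⁻¹) * (m * p)⁻¹ := by group
      rw [e1, hc', hmp]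
      group
    intro p t
    rw [ConjClasses.mk_eq_mk_iff_isConj, ConjClasses.mk_eq_mk_iff_isConj]
    constructor
    · intro h
      refine key ((p : G)⁻¹) (hPT _ (inv_mem p.2)) (p • t) t ?_ h
      rw [hsm]
      group
    · intro h
      exact key (p : G) (hPT _ p.2) t (p • t) (hsm p t) h
  have h1 := congrFun hw ⟨y, hyN⟩
  rw [mulF, Pi.smul_apply, smul_eq_mul] at h1
  have h2 := horb ℓ F F P N hℓ hF hP
    (fun t : N => cs F (ConjClasses.mk x) t * b ((t⁻¹ * ⟨y, hyN⟩ : N) : G)) (by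
      intro p t
      have e1 : cs F (ConjClasses.mk x) (p • t) = cs F (ConjClasses.mk x) t :=
        cs_congr (hmk p t)
      have e2 : b (((p • t)⁻¹ * ⟨y, hyN⟩ : N) : G) = b ((t⁻¹ * ⟨y, hyN⟩ : N) : G) := by
        rw [Subgroup.coe_mul, Subgroup.coe_inv, hsm, Subgroup.coe_mul, Subgroup.coe_inv]
        change b (((p : G) * t * (p : G)⁻¹)⁻¹ * y) = b ((t : G)⁻¹ * y)
        have h3 := Subgroup.mem_centralizer_iff.1 hyP (p : G) p.2
        have e3 : ((p : G) * t * (p : G)⁻¹)⁻¹ * y = (p : G) * ((t : G)⁻¹ * y) * (p : G)⁻¹ := by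
          have e4 : y = (p : G) * y * (p : G)⁻¹ := by rw [h3]; group
          conv_lhs => rw [e4]
          group
        rw [e3, hb]
      simp only [e1, e2])
  have h3 : w * b y = ∑ᶠ (t : N) (_ : t ∈ MulAction.fixedPoints P N),
      cs F (ConjClasses.mk x) t * b ((t⁻¹ * ⟨y, hyN⟩ : N) : G) := by
    rw [← h2]
    exact h1.symm
  obtain ⟨t, ht, htn⟩ : ∃ t ∈ MulAction.fixedPoints P N,
      cs F (ConjClasses.mk x) t * b ((t⁻¹ * ⟨y, hyN⟩ : N) : G) ≠ 0 := by
    by_contra hcon
    push Not at hcon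
    have h0 : ∑ᶠ (t : N) (_ : t ∈ MulAction.fixedPoints P N),
        cs F (ConjClasses.mk x) t * b ((t⁻¹ * ⟨y, hyN⟩ : N) : G) = 0 :=
      finsum_eq_zero_of_forall_eq_zero fun t => by
        rw [finsum_eq_if]
        split_ifs with ht
        · exact hcon t ht
        · rfl
    rw [h0] at h3
    exact mul_ne_zero hw0 hy h3
  have h4 : ConjClasses.mk t = ConjClasses.mk x := by
    by_contra hcon
    apply left_ne_zero_of_mul htn
    unfold cs
    rw [if_neg hcon]
  rw [ConjClasses.mk_eq_mk_iff_isConj] at h4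
  obtain ⟨c, hc⟩ := isConj_iff.1 h4.symm
  refine ⟨c, ?_⟩
  have hc' := congrArg (Subtype.val : N → G) hc
  rw [Subgroup.coe_mul, Subgroup.coe_mul, Subgroup.coe_inv] at hc'
  rw [hc', Subgroup.mem_centralizer_iff]
  intro p hp
  have h5 := congrArg (Subtype.val : N → G) (ht ⟨p, hp⟩)
  rw [hsm] at h5
  change p * t * p⁻¹ = (t : G) at h5
  rw [mul_inv_eq_iff_eq_mul] at h5
  exact h5

/-- the order of a good complement -/
theorem card_compl {N P T : Subgroup G} [N.Normal] (h : P ⊓ N = ⊥) (e : P ⊔ N = T) :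
    Nat.card P = N.relIndex T := by
  rw [← e, Subgroup.relIndex_sup_right, ← Subgroup.inf_relIndex_right, inf_comm, h,
    Subgroup.relIndex_bot_left]

theorem card_of_relIndex {N T : Subgroup G} (h : N ≤ T) :
    Nat.card T = N.relIndex T * Nat.card N := by
  have h1 := Subgroup.card_mul_index (N.subgroupOf T)
  rw [Nat.card_congr (Subgroup.subgroupOfEquivOfLe h).toEquiv] at h1
  rw [← h1, mul_comm]
  rfl

theorem cmp (hmat : MatStmt) (horb : OrbStmt) : CmpStmt := by
  intro ℓ F _ hF G _ _ N T b hNB hNT hk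
  obtain ⟨hNn, hbc, hb0, hblk, hprc⟩ := hNB
  obtain ⟨k, hk⟩ := hk
  have := hNn
  have hℓ := hF.prime
  have : Fact ℓ.Prime := ⟨hℓ⟩
  have hchar := hF.char
  have hne : ∃ x : N, b x ≠ 0 := by
    by_contra hcon
    push Not at hcon
    exact hblk.2.1 (funext hcon)
  have hm4 := (hmat ℓ F hF N (fun x : N => b x) ⟨hblk, hprc⟩).2.2.2
  obtain ⟨x, w, hbx, hw0, hw, hfix⟩ := exists_class hℓ hchar horb hbc hblk.1 hne hm4 hNT hk
  have hcop : ¬ ℓ ∣ Nat.card (N ⊓ Subgroup.centralizer ({(x : G)} : Set G) : Subgroup G) := by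
    rw [card_cent]
    intro h
    exact hbx (hprc.2 x h)
  set C : Subgroup G := T ⊓ Subgroup.centralizer ({(x : G)} : Set G) with hC
  have hCN : C ⊔ N = T := by
    apply le_antisymm (sup_le inf_le_left hNT)
    intro t ht
    obtain ⟨m, hm, hmt⟩ := hfix t ht
    have e : t = (m⁻¹ * (m * t)) := by group
    rw [e]
    exact mul_mem ((le_sup_right : N ≤ C ⊔ N) (inv_mem hm))
      ((le_sup_left : C ≤ C ⊔ N) (Subgroup.mem_inf.2 ⟨mul_mem (hNT hm) ht, hmt⟩))
  have hNC : N ⊓ C = N ⊓ Subgroup.centralizer ({(x : G)} : Set G) := by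
    rw [hC, ← inf_assoc, inf_eq_left.2 hNT]
  have hcardC : Nat.card C = ℓ ^ k *
      Nat.card (N ⊓ Subgroup.centralizer ({(x : G)} : Set G) : Subgroup G) := by
    have h1 := card_of_relIndex (inf_le_right : N ⊓ C ≤ C)
    rw [Subgroup.inf_relIndex_right, ← Subgroup.relIndex_sup_right C N, hCN, hk, hNC] at h1
    exact h1
  have hTcard : Nat.card T = ℓ ^ k * Nat.card N := by rw [card_of_relIndex hNT, hk]
  -- subgroups of order `ℓ ^ k` of `C` are complements
  have htriv : ∀ P : Subgroup G, IsPGroup ℓ P →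
      P ≤ Subgroup.centralizer ({(x : G)} : Set G) → P ⊓ N = ⊥ := by
    intro P hP hPx
    have h1 : IsPGroup ℓ (P ⊓ N : Subgroup G) := hP.to_le inf_le_left
    obtain ⟨j, hj⟩ := IsPGroup.iff_card.1 h1
    have h2 : Nat.card (P ⊓ N : Subgroup G) ∣
        Nat.card (N ⊓ Subgroup.centralizer ({(x : G)} : Set G) : Subgroup G) :=
      Subgroup.card_dvd_of_le (le_inf inf_le_right (inf_le_left.trans hPx))
    rcases Nat.eq_zero_or_pos j with rfl | hj0
    · rw [pow_zero, Subgroup.card_eq_one] at hj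
      exact hj
    · exfalso
      rw [hj] at h2
      exact hcop (dvd_trans (dvd_pow_self ℓ hj0.ne') h2)
  constructor
  · obtain ⟨P₀, hP₀⟩ := Sylow.exists_subgroup_card_pow_prime (G := C) ℓ (n := k)
      (by rw [hcardC]; exact Dvd.intro _ rfl)
    set P : Subgroup G := P₀.map C.subtype with hPdef
    have hPc : Nat.card P = ℓ ^ k := by
      rw [hPdef, Subgroup.card_map_of_injective C.subtype_injective, hP₀]
    have hPC : P ≤ C := by
      rintro _ ⟨y, _, rfl⟩
      exact y.2
    have hPp : IsPGroup ℓ P := IsPGroup.of_card hPc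
    have hPN := htriv P hPp (hPC.trans inf_le_right)
    refine ⟨P, ⟨hPp, hPN, x, x.2, ?_, hbx⟩, ?_⟩
    · rw [Subgroup.mem_centralizer_iff]
      intro p hp
      have h1 := (hPC.trans inf_le_right) hp
      exact Subgroup.mem_centralizer_singleton_iff.1 h1
    · apply Subgroup.eq_of_le_of_card_ge
      · exact sup_le (hPC.trans inf_le_left) hNT
      · rw [hTcard, card_of_relIndex (le_sup_right : N ≤ P ⊔ N), ← card_compl hPN rfl, hPc]
  · -- conjugacy
    have key : ∀ P : Subgroup G, Good ℓ N b P → P ⊔ N = T →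
        ∃ n ∈ N, conjS n P ≤ C ∧ Nat.card (conjS n P) = ℓ ^ k := by
      intro P hP hPT
      obtain ⟨n, hn⟩ := class_meets hℓ hchar horb hbc hw0 hw hP.1
        (fun p hp => hfix p (by rw [← hPT]; exact (le_sup_left : P ≤ P ⊔ N) hp)) hP.2.2
      refine ⟨(n : G)⁻¹, inv_mem n.2, ?_, ?_⟩
      · intro y hy
        rw [mem_conjS, inv_inv] at hy
        refine Subgroup.mem_inf.2 ⟨?_, ?_⟩
        · have h1 : (n : G) * y * (n : G)⁻¹ ∈ T := by
            rw [← hPT]; exact (le_sup_left : P ≤ P ⊔ N) hy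
          have h2 := mul_mem (mul_mem (inv_mem (hNT n.2)) h1) (hNT n.2)
          have e : (n : G)⁻¹ * ((n : G) * y * (n : G)⁻¹) * n = y := by group
          rwa [e] at h2
        · rw [Subgroup.mem_centralizer_singleton_iff]
          have h1 := Subgroup.mem_centralizer_iff.1 hn _ hy
          have e : (n : G) * (y * x) = (n : G) * (x * y) := by
            have e1 : (n : G) * y * (n : G)⁻¹ * (n * x * (n : G)⁻¹) * n = (n : G) * (y * x) := by
              group
            have e2 : (n : G) * x * (n : G)⁻¹ * (n * y * (n : G)⁻¹) * n = (n : G) * (x * y) := by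
              group
            rw [← e1, ← e2, h1]
          exact mul_left_cancel e
      · rw [card_conjS, card_compl hP.2.1 hPT, hk]
    intro P P' hP hP' hPT hPT'
    obtain ⟨n, hn, hnC, hnc⟩ := key P hP hPT
    obtain ⟨n', hn', hnC', hnc'⟩ := key P' hP' hPT'
    have hfac : (Nat.card C).factorization ℓ = k := by
      rw [hcardC, Nat.factorization_mul (pow_ne_zero _ hℓ.ne_zero) Nat.card_pos.ne',
        hℓ.factorization_pow]
      simp only [Finsupp.coe_add, Pi.add_apply, Finsupp.single_eq_same]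
      rw [Nat.factorization_eq_zero_of_not_dvd hcop, add_zero]
    have hcS : ∀ Q : Subgroup G, Q ≤ C → Nat.card Q = ℓ ^ k →
        Nat.card (Q.subgroupOf C) = ℓ ^ (Nat.card C).factorization ℓ := by
      intro Q hQ hQc
      rw [hfac, Nat.card_congr (Subgroup.subgroupOfEquivOfLe hQ).toEquiv, hQc]
    let A : Sylow ℓ C := Sylow.ofCard _ (hcS _ hnC hnc)
    let B : Sylow ℓ C := Sylow.ofCard _ (hcS _ hnC' hnc')
    obtain ⟨u, hu⟩ := MulAction.exists_smul_eq C A B
    -- `conjS u (conjS n P) = conjS n' P'`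
    have hconj : conjS (u : G) (conjS n P) = conjS n' P' := by
      have h1 : (A : Subgroup C) = (conjS n P).subgroupOf C := rfl
      have h2 : (B : Subgroup C) = (conjS n' P').subgroupOf C := rfl
      have h3 := congrArg (fun S : Sylow ℓ C => (S : Subgroup C)) hu
      simp only [Sylow.coe_subgroup_smul] at h3
      have hsmul : ∀ z : C, (MulAut.conj u)⁻¹ • z = u⁻¹ * z * u := by
        intro z
        rw [← map_inv, MulAut.smul_def, MulAut.conj_apply, inv_inv]
      ext y
      constructor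
      · intro hy
        have hy' := mem_conjS.1 hy
        have hyC : y ∈ C := by
          have h4 := mul_mem (mul_mem u.2 (hnC hy')) (inv_mem u.2)
          have e : (u : G) * ((u : G)⁻¹ * y * u) * (u : G)⁻¹ = y := by group
          rwa [e] at h4
        have h5 : (⟨y, hyC⟩ : C) ∈ (B : Subgroup C) := by
          rw [← h3, Subgroup.mem_pointwise_smul_iff_inv_smul_mem, hsmul, h1,
            Subgroup.mem_subgroupOf]
          exact hy'
        rw [h2, Subgroup.mem_subgroupOf] at h5
        exact h5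
      · intro hy
        have hyC : y ∈ C := hnC' hy
        have h5 : (⟨y, hyC⟩ : C) ∈ (B : Subgroup C) := by
          rw [h2, Subgroup.mem_subgroupOf]
          exact hy
        rw [← h3, Subgroup.mem_pointwise_smul_iff_inv_smul_mem, hsmul, h1,
          Subgroup.mem_subgroupOf] at h5
        rw [mem_conjS]
        exact h5
    have hfin : P' = conjS (n'⁻¹ * (u : G) * n) P := by
      rw [← conjS_conjS, ← conjS_conjS, hconj, conjS_conjS, inv_mul_cancel, conjS_one]
    -- write `n'⁻¹ u n = m p` with `m ∈ N`, `p ∈ P`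
    have hv : n'⁻¹ * (u : G) * n ∈ T :=
      mul_mem (mul_mem (inv_mem (hNT hn')) u.2.1) (hNT hn)
    rw [← hPT, sup_comm, Subgroup.mem_sup_of_normal_left] at hv
    obtain ⟨m, hm, p, hp, hmp⟩ := hv
    refine ⟨m, hm, ?_⟩
    rw [hfin, ← hmp, ← conjS_conjS]
    congr 1
    ext y
    rw [mem_conjS]
    constructor
    · intro h
      have h1 := mul_mem (mul_mem hp h) (inv_mem hp)
      have e : p * (p⁻¹ * y * p) * p⁻¹ = y := by group
      rwa [e] at h1
    · intro h
      exact mul_mem (mul_mem (inv_mem hp) h) hp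

end Pool.Agent.PP.H6
end
end -- Pool.Agent.Helper6_PP.Cmp

section -- Pool.Agent.Helper6_PP.Nco

/-!
# Squad PP, module NCO: chains with a good top and chains of the quotient
-/

open scoped BigOperators

set_option linter.unusedSectionVars false

noncomputable section

namespace Pool.Agent.PP.H6

open Pool.Agent.Helper51_AWC Pool.Agent.Helper79_WRA Pool.Agent.PP Pool.Agent.PP.H94

variable {G G' : Type} [Group G] [Group G']

/-- Data for NCO: the good `ℓ`-subgroups of `G` with respect to the kernel of `q : G → G'`. -/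
structure GoodSys (ℓ : ℕ) (q : G →* G') (good : Subgroup G → Prop) : Prop where
  surj : Function.Surjective q
  pg : ∀ P, good P → IsPGroup ℓ P
  dis : ∀ P, good P → P ⊓ q.ker = ⊥
  sub : ∀ P R, good P → R ≤ P → good R
  cnj : ∀ g P, good P → good (conjS g P)
  ex : ∀ T : Subgroup G', IsPGroup ℓ T → ∃ P, good P ∧ P.map q = T
  uniq : ∀ P P', good P → good P' → P.map q = P'.map q → ∃ n ∈ q.ker, conjS n P = P'

theorem map_conjS (q : G →* G') (g : G) (D : Subgroup G) :
    (conjS g D).map q = conjS (q g) (D.map q) := by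
  rw [conjS, conjS, Subgroup.map_map, Subgroup.map_map]
  congr 1
  ext x
  simp

/-- injectivity on the subgroups of `P` -/
theorem map_le_iff {q : G →* G'} {P D D' : Subgroup G} (h : P ⊓ q.ker = ⊥) (hD : D ≤ P)
    (hD' : D' ≤ P) : D.map q ≤ D'.map q ↔ D ≤ D' := by
  constructor
  · intro hm x hx
    obtain ⟨y, hy, hxy⟩ := hm ⟨x, hx, rfl⟩
    have h1 : y⁻¹ * x ∈ P ⊓ q.ker := by
      refine Subgroup.mem_inf.2 ⟨mul_mem (inv_mem (hD' hy)) (hD hx), ?_⟩
      rw [MonoidHom.mem_ker, map_mul, map_inv, hxy, inv_mul_cancel]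
    rw [h, Subgroup.mem_bot, inv_mul_eq_one] at h1
    rw [← h1]
    exact hy
  · exact fun h => Subgroup.map_mono h

theorem map_inj {q : G →* G'} {P D D' : Subgroup G} (h : P ⊓ q.ker = ⊥) (hD : D ≤ P)
    (hD' : D' ≤ P) (e : D.map q = D'.map q) : D = D' :=
  le_antisymm ((map_le_iff h hD hD').1 e.le) ((map_le_iff h hD' hD).1 e.ge)

/-- an element of the kernel which normalises a complement centralises it -/
theorem norm_cent {q : G →* G'} {P : Subgroup G} (h : P ⊓ q.ker = ⊥) {n : G} (hn : n ∈ q.ker)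
    (hc : conjS n P = P) : n ∈ Subgroup.centralizer (P : Set G) := by
  rw [Subgroup.mem_centralizer_iff]
  intro x hx
  have h1 : n * x * n⁻¹ ∈ P := by
    rw [← hc, mem_conjS]
    have e : n⁻¹ * (n * x * n⁻¹) * n = x := by group
    rw [e]
    exact hx
  have h2 : n * x * n⁻¹ * x⁻¹ ∈ P ⊓ q.ker := by
    refine Subgroup.mem_inf.2 ⟨mul_mem h1 (inv_mem hx), ?_⟩
    rw [MonoidHom.mem_ker] at hn ⊢
    rw [map_mul, map_mul, map_mul, hn, one_mul, map_inv, hn, inv_one, mul_one, ← map_mul,
      mul_inv_cancel, map_one]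
  rw [h, Subgroup.mem_bot] at h2
  have h3 : n * x * n⁻¹ = x := mul_inv_eq_one.1 h2
  rw [mul_inv_eq_iff_eq_mul] at h3
  exact h3.symm

theorem cent_conjS {P D : Subgroup G} (hD : D ≤ P) {n : G}
    (hn : n ∈ Subgroup.centralizer (P : Set G)) : conjS n D = D := by
  rw [← mem_normalizer_iff_conjS, Subgroup.mem_normalizer_iff]
  intro x
  rw [Subgroup.mem_centralizer_iff] at hn
  constructor
  · intro hx
    have := hn x (hD hx)
    rw [← this]
    simpa using hx
  · intro hx
    have := hn _ (hD hx)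
    have e : n * x * n⁻¹ = x := by
      have h1 : n * x * n⁻¹ * n = n * x := by group
      rw [h1] at this
      have h2 : n * x = n * (n * x * n⁻¹) := this
      exact (mul_left_cancel h2).symm
    rwa [e] at hx

variable {ℓ : ℕ} {q : G →* G'} {good : Subgroup G → Prop}

/-- lifting of normalising elements -/
theorem lift_norm (S : GoodSys ℓ q good) {P : Subgroup G} (hP : good P) {g' : G'}
    (h : conjS g' (P.map q) = P.map q) : ∃ g, q g = g' ∧ conjS g P = P := by
  obtain ⟨g, rfl⟩ := S.surj g'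
  have h1 : (conjS g P).map q = P.map q := by rw [map_conjS, h]
  obtain ⟨n, hn, hc⟩ := S.uniq _ _ (S.cnj g P hP) hP h1
  refine ⟨n * g, ?_, ?_⟩
  · rw [map_mul, MonoidHom.mem_ker.1 hn, one_mul]
  · rw [← conjS_conjS, hc]

theorem fix_of_map {P D : Subgroup G} (hd : P ⊓ q.ker = ⊥) (hD : D ≤ P) {g : G}
    (hg : conjS g P = P) (h : conjS (q g) (D.map q) = D.map q) : conjS g D = D := by
  refine map_inj hd ?_ hD ?_
  · rw [← hg]
    exact conjS_mono.2 hD
  · rw [map_conjS, h]

/-- the centraliser of the image of a good subgroup -/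
theorem map_centralizer (S : GoodSys ℓ q good) {P : Subgroup G} (hP : good P) :
    (Subgroup.centralizer (P : Set G)).map q =
      Subgroup.centralizer ((P.map q : Subgroup G') : Set G') := by
  apply le_antisymm
  · rintro _ ⟨x, hx, rfl⟩
    rw [Subgroup.mem_centralizer_iff]
    rintro _ ⟨y, hy, rfl⟩
    have := Subgroup.mem_centralizer_iff.1 hx y hy
    rw [← map_mul, this, map_mul]
  · intro g' hg'
    have h1 : conjS g' (P.map q) = P.map q := cent_conjS le_rfl hg'
    obtain ⟨g, rfl, hg⟩ := lift_norm S hP h1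
    refine ⟨g, ?_, rfl⟩
    change g ∈ Subgroup.centralizer (P : Set G)
    rw [Subgroup.mem_centralizer_iff]
    intro x hx
    have h2 : g * x * g⁻¹ ∈ P := by
      have : g * x * g⁻¹ ∈ conjS g P := by
        rw [mem_conjS]
        have e : g⁻¹ * (g * x * g⁻¹) * g = x := by group
        rw [e]
        exact hx
      rwa [hg] at this
    have h3 : g * x * g⁻¹ * x⁻¹ ∈ P ⊓ q.ker := by
      refine Subgroup.mem_inf.2 ⟨mul_mem h2 (inv_mem hx), ?_⟩
      rw [MonoidHom.mem_ker]
      have h4 := Subgroup.mem_centralizer_iff.1 hg' (q x) ⟨x, hx, rfl⟩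
      rw [map_mul, map_mul, map_mul, map_inv, map_inv, ← h4, mul_assoc (q x), mul_inv_cancel,
        mul_one, mul_inv_cancel]
    rw [S.dis P hP, Subgroup.mem_bot] at h3
    have h5 : g * x * g⁻¹ = x := mul_inv_eq_one.1 h3
    rw [mul_inv_eq_iff_eq_mul] at h5
    exact h5.symm

open Classical in
/-- the image of a chain -/
def imC (q : G →* G') (c : Finset (Subgroup G)) : Finset (Subgroup G') :=
  c.image (fun D => D.map q)

theorem mem_imC {c : Finset (Subgroup G)} {D' : Subgroup G'} :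
    D' ∈ imC q c ↔ ∃ D ∈ c, D.map q = D' := by
  simp [imC]

/-- a chain with good top -/
structure GC (ℓ : ℕ) (q : G →* G') (good : Subgroup G → Prop) (c : Finset (Subgroup G)) :
    Prop where
  ne : c.Nonempty
  chain : IsChain (· ≤ ·) (c : Set (Subgroup G))
  gd : good (top c)

theorem GC.top_mem {c : Finset (Subgroup G)} (h : GC ℓ q good c) : top c ∈ c :=
  (H94.top_mem h.chain h.ne).1

theorem GC.le_top {c : Finset (Subgroup G)} (h : GC ℓ q good c) {D : Subgroup G} (hD : D ∈ c) :
    D ≤ top c := (H94.top_mem h.chain h.ne).2 D hD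

theorem top_imC {c : Finset (Subgroup G)} (h : GC ℓ q good c) :
    top (imC q c) = (top c).map q := by
  apply le_antisymm
  · refine sSup_le ?_
    intro D' hD'
    obtain ⟨D, hD, rfl⟩ := mem_imC.1 (Finset.mem_coe.1 hD')
    exact Subgroup.map_mono (h.le_top hD)
  · exact le_sSup (Finset.mem_coe.2 (mem_imC.2 ⟨_, h.top_mem, rfl⟩))

/-- the stabiliser of the image -/
theorem stab_imC (S : GoodSys ℓ q good) {c : Finset (Subgroup G)} (h : GC ℓ q good c) :
    stab (imC q c) = (stab c).map q := by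
  apply le_antisymm
  · intro g' hg'
    have hs := mem_stab.1 hg'
    have h1 : conjS g' ((top c).map q) = (top c).map q :=
      hs _ (mem_imC.2 ⟨_, h.top_mem, rfl⟩)
    obtain ⟨g, rfl, hg⟩ := lift_norm S h.gd h1
    refine ⟨g, ?_, rfl⟩
    change g ∈ stab c
    rw [mem_stab]
    intro D hD
    exact fix_of_map (S.dis _ h.gd) (h.le_top hD) hg (hs _ (mem_imC.2 ⟨D, hD, rfl⟩))
  · rintro _ ⟨g, hg, rfl⟩
    rw [mem_stab]
    intro D' hD'
    obtain ⟨D, hD, rfl⟩ := mem_imC.1 hD'
    rw [← map_conjS, mem_stab.1 hg D hD]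

theorem stab_inf_ker (S : GoodSys ℓ q good) {c : Finset (Subgroup G)} (h : GC ℓ q good c) :
    stab c ⊓ q.ker = Subgroup.centralizer (top c : Set G) ⊓ q.ker := by
  ext n
  rw [Subgroup.mem_inf, Subgroup.mem_inf]
  refine and_congr_left fun hn => ?_
  constructor
  · intro hs
    exact norm_cent (S.dis _ h.gd) hn (mem_stab.1 hs _ h.top_mem)
  · intro hc
    rw [mem_stab]
    intro D hD
    exact cent_conjS (h.le_top hD) hc

theorem card_map (q : G →* G') (H : Subgroup G) :
    Nat.card H = Nat.card (H.map q) * Nat.card (H ⊓ q.ker : Subgroup G) := by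
  have h1 := Subgroup.card_eq_card_quotient_mul_card_subgroup (q.comp H.subtype).ker
  have h2 : Nat.card (H ⧸ (q.comp H.subtype).ker) = Nat.card (H.map q) := by
    have e1 := Nat.card_congr (QuotientGroup.quotientKerEquivRange (q.comp H.subtype)).toEquiv
    rw [e1]
    have e2 : (q.comp H.subtype).range = H.map q := by
      ext x
      constructor
      · rintro ⟨y, rfl⟩
        exact ⟨y, y.2, rfl⟩
      · rintro ⟨y, hy, rfl⟩
        exact ⟨⟨y, hy⟩, rfl⟩
    rw [e2]
  have h3 : Nat.card (q.comp H.subtype).ker = Nat.card (H ⊓ q.ker : Subgroup G) := by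
    refine Nat.card_congr ⟨fun x => ⟨x.1.1, x.1.2, ?_⟩, fun x => ⟨⟨x.1, x.2.1⟩, ?_⟩, ?_, ?_⟩
    · exact x.2
    · exact x.2.2
    · intro x; rfl
    · intro x; rfl
  rw [h1, h2, h3]

theorem card_stab (S : GoodSys ℓ q good) {c : Finset (Subgroup G)} (h : GC ℓ q good c) :
    Nat.card (stab c) =
      Nat.card (Subgroup.centralizer (top c : Set G) ⊓ q.ker : Subgroup G) *
        Nat.card (stab (imC q c)) := by
  rw [card_map q (stab c), stab_inf_ker S h, stab_imC S h, mul_comm]

theorem imC_injOn (S : GoodSys ℓ q good) {c : Finset (Subgroup G)} (h : GC ℓ q good c) :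
    Set.InjOn (fun D : Subgroup G => D.map q) (c : Set (Subgroup G)) := by
  intro D hD D' hD' e
  exact map_inj (S.dis _ h.gd) (h.le_top hD) (h.le_top hD') e

theorem card_imC (S : GoodSys ℓ q good) {c : Finset (Subgroup G)} (h : GC ℓ q good c) :
    (imC q c).card = c.card := by
  classical
  rw [imC, Finset.card_image_of_injOn]
  exact imC_injOn S h

theorem chain_imC {c : Finset (Subgroup G)} (hc : IsChain (· ≤ ·) (c : Set (Subgroup G))) :
    IsChain (· ≤ ·) (imC q c : Set (Subgroup G')) := by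
  intro A hA B hB _
  obtain ⟨D, hD, rfl⟩ := mem_imC.1 (Finset.mem_coe.1 hA)
  obtain ⟨E, hE, rfl⟩ := mem_imC.1 (Finset.mem_coe.1 hB)
  rcases chain_total hc hD hE with h | h
  · exact Or.inl (Subgroup.map_mono h)
  · exact Or.inr (Subgroup.map_mono h)

theorem conjS_self {D : Subgroup G} {x : G} (hx : x ∈ D) : conjS x D = D := by
  ext y
  rw [mem_conjS]
  constructor
  · intro h
    have h1 := mul_mem (mul_mem hx h) (inv_mem hx)
    have e : x * (x⁻¹ * y * x) * x⁻¹ = y := by group
    rwa [e] at h1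
  · intro h
    exact mul_mem (mul_mem (inv_mem hx) h) hx

theorem normal_imC (S : GoodSys ℓ q good) {c : Finset (Subgroup G)} (h : GC ℓ q good c) :
    NormalChain (imC q c) ↔ NormalChain c := by
  unfold NormalChain
  rw [top_imC h]
  constructor
  · intro hn D hD x hx
    rw [mem_normalizer_iff_conjS]
    have h1 := hn _ (mem_imC.2 ⟨D, hD, rfl⟩) (⟨x, hx, rfl⟩ : q x ∈ (top c).map q)
    rw [mem_normalizer_iff_conjS] at h1
    exact fix_of_map (S.dis _ h.gd) (h.le_top hD) (conjS_self hx) h1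
  · intro hn D' hD'
    obtain ⟨D, hD, rfl⟩ := mem_imC.1 hD'
    rintro _ ⟨x, hx, rfl⟩
    rw [mem_normalizer_iff_conjS, ← map_conjS, mem_normalizer_iff_conjS.1 (hn D hD hx)]

open Classical in
/-- conjugate of a chain -/
def cnjC (g : G) (c : Finset (Subgroup G)) : Finset (Subgroup G) := c.image (conjS g)

theorem mem_cnjC {g : G} {c : Finset (Subgroup G)} {E : Subgroup G} :
    E ∈ cnjC g c ↔ ∃ D ∈ c, conjS g D = E := by
  simp [cnjC]

theorem cnjC_one (c : Finset (Subgroup G)) : cnjC 1 c = c := by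
  ext D
  rw [mem_cnjC]
  simp only [conjS_one, exists_eq_right]

theorem cnjC_mul (g h : G) (c : Finset (Subgroup G)) : cnjC g (cnjC h c) = cnjC (g * h) c := by
  ext D
  simp only [mem_cnjC]
  constructor
  · rintro ⟨_, ⟨E, hE, rfl⟩, rfl⟩
    exact ⟨E, hE, by rw [conjS_conjS]⟩
  · rintro ⟨E, hE, rfl⟩
    exact ⟨_, ⟨E, hE, rfl⟩, by rw [conjS_conjS]⟩

theorem chain_cnjC {g : G} {c : Finset (Subgroup G)}
    (hc : IsChain (· ≤ ·) (c : Set (Subgroup G))) :
    IsChain (· ≤ ·) (cnjC g c : Set (Subgroup G)) := by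
  intro A hA B hB _
  obtain ⟨D, hD, rfl⟩ := mem_cnjC.1 (Finset.mem_coe.1 hA)
  obtain ⟨E, hE, rfl⟩ := mem_cnjC.1 (Finset.mem_coe.1 hB)
  rcases chain_total hc hD hE with h | h
  · exact Or.inl (conjS_mono.2 h)
  · exact Or.inr (conjS_mono.2 h)

theorem top_cnjC {g : G} {c : Finset (Subgroup G)} (h : GC ℓ q good c) :
    top (cnjC g c) = conjS g (top c) := by
  apply le_antisymm
  · refine sSup_le ?_
    intro D' hD'
    obtain ⟨D, hD, rfl⟩ := mem_cnjC.1 (Finset.mem_coe.1 hD')
    exact conjS_mono.2 (h.le_top hD)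
  · exact le_sSup (Finset.mem_coe.2 (mem_cnjC.2 ⟨_, h.top_mem, rfl⟩))

theorem GC.cnjC (S : GoodSys ℓ q good) {g : G} {c : Finset (Subgroup G)} (h : GC ℓ q good c) :
    GC ℓ q good (cnjC g c) where
  ne := ⟨_, mem_cnjC.2 ⟨_, h.top_mem, rfl⟩⟩
  chain := chain_cnjC h.chain
  gd := by
    rw [top_cnjC h]
    exact S.cnj _ _ h.gd

theorem imC_cnjC {n : G} (hn : n ∈ q.ker) (c : Finset (Subgroup G)) :
    imC q (cnjC n c) = imC q c := by
  ext D
  simp only [mem_imC, mem_cnjC]
  have e : ∀ E : Subgroup G, (conjS n E).map q = E.map q := by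
    intro E
    rw [map_conjS, MonoidHom.mem_ker.1 hn, conjS_one]
  constructor
  · rintro ⟨_, ⟨E, hE, rfl⟩, rfl⟩
    exact ⟨E, hE, (e E).symm⟩
  · rintro ⟨E, hE, rfl⟩
    exact ⟨_, ⟨E, hE, rfl⟩, e E⟩

/-- chains with the same image are conjugate under the kernel -/
theorem exists_cnj (S : GoodSys ℓ q good) {c d : Finset (Subgroup G)} (hc : GC ℓ q good c)
    (hd : GC ℓ q good d) (e : imC q c = imC q d) : ∃ n ∈ q.ker, cnjC n c = d := by
  have h1 : (top c).map q = (top d).map q := by rw [← top_imC hc, e, top_imC hd]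
  obtain ⟨n, hn, hP⟩ := S.uniq _ _ hc.gd hd.gd h1
  refine ⟨n, hn, ?_⟩
  have key : ∀ D ∈ c, ∀ E ∈ d, E.map q = D.map q → conjS n D = E := by
    intro D hD E hE he
    refine map_inj (S.dis _ hd.gd) ?_ (hd.le_top hE) ?_
    · rw [← hP]
      exact conjS_mono.2 (hc.le_top hD)
    · rw [map_conjS, MonoidHom.mem_ker.1 hn, conjS_one, he]
  ext E
  rw [mem_cnjC]
  constructor
  · rintro ⟨D, hD, rfl⟩
    have h2 : D.map q ∈ imC q d := by rw [← e]; exact mem_imC.2 ⟨D, hD, rfl⟩
    obtain ⟨E, hE, he⟩ := mem_imC.1 h2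
    rw [key D hD E hE he]
    exact hE
  · intro hE
    have h2 : E.map q ∈ imC q c := by rw [e]; exact mem_imC.2 ⟨E, hE, rfl⟩
    obtain ⟨D, hD, he⟩ := mem_imC.1 h2
    exact ⟨D, hD, key D hD E hE he.symm⟩

variable [Finite G]

theorem fix_iff {n : G} {c : Finset (Subgroup G)} (hc : IsChain (· ≤ ·) (c : Set (Subgroup G))) :
    cnjC n c = c ↔ n ∈ stab c := by
  rw [mem_stab]
  constructor
  · intro h D hD
    have h1 : conjS n D ∈ c := by
      rw [← h]
      exact mem_cnjC.2 ⟨D, hD, rfl⟩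
    rcases chain_total hc h1 hD with h2 | h2
    · exact Subgroup.eq_of_le_of_card_ge h2 (card_conjS n D).ge
    · exact (Subgroup.eq_of_le_of_card_ge h2 (card_conjS n D).le).symm
  · intro h
    ext D
    rw [mem_cnjC]
    constructor
    · rintro ⟨E, hE, rfl⟩
      rw [h E hE]
      exact hE
    · intro hD
      exact ⟨D, hD, h D hD⟩

/-- the orbit count -/
theorem card_fibre (S : GoodSys ℓ q good) {c : Finset (Subgroup G)} (hc : GC ℓ q good c)
    (s : Finset (Finset (Subgroup G)))
    (hs : ∀ d, d ∈ s ↔ GC ℓ q good d ∧ imC q d = imC q c) :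
    ∑ d ∈ s, Nat.card (Subgroup.centralizer (top d : Set G) ⊓ q.ker : Subgroup G) =
      Nat.card q.ker := by
  classical
  have := Fintype.ofFinite G
  have h1 : ∀ n ∈ (Finset.univ : Finset G).filter (fun n => n ∈ q.ker), cnjC n c ∈ s := by
    intro n hn
    rw [hs]
    have hn' := (Finset.mem_filter.1 hn).2
    exact ⟨hc.cnjC S, imC_cnjC hn' c⟩
  have h2 := Finset.card_eq_sum_card_fiberwise h1
  have h3 : ((Finset.univ : Finset G).filter (fun n => n ∈ q.ker)).card = Nat.card q.ker := by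
    rw [Nat.card_eq_fintype_card, Fintype.card_subtype]
  rw [← h3, h2]
  refine Finset.sum_congr rfl ?_
  intro d hd
  obtain ⟨hdg, hde⟩ := (hs d).1 hd
  obtain ⟨t, ht, htd⟩ := exists_cnj S hc hdg hde.symm
  rw [← stab_inf_ker S hdg]
  have h4 : Nat.card (stab d ⊓ q.ker : Subgroup G) =
      ((Finset.univ : Finset G).filter (fun n => n ∈ stab d ⊓ q.ker)).card := by
    rw [Nat.card_eq_fintype_card, Fintype.card_subtype]
  rw [h4]
  refine Finset.card_bij (fun n _ => n * t) ?_ ?_ ?_
  · intro n hn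
    have hn' := (Finset.mem_filter.1 hn).2
    rw [Finset.mem_filter, Finset.mem_filter]
    refine ⟨⟨Finset.mem_univ _, mul_mem hn'.2 ht⟩, ?_⟩
    rw [← cnjC_mul, htd]
    exact (fix_iff hdg.chain).2 hn'.1
  · intro a _ b _ h
    exact mul_right_cancel h
  · intro m hm
    rw [Finset.mem_filter, Finset.mem_filter] at hm
    refine ⟨m * t⁻¹, ?_, by group⟩
    rw [Finset.mem_filter]
    refine ⟨Finset.mem_univ _, Subgroup.mem_inf.2 ⟨?_, mul_mem hm.1.2 (inv_mem ht)⟩⟩
    change m * t⁻¹ ∈ stab d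
    rw [← fix_iff hdg.chain]
    conv_lhs => rw [← htd]
    rw [cnjC_mul]
    have e : m * t⁻¹ * t = m := by group
    rw [e]
    exact hm.2

variable [Finite G']

/-- every normal chain of `ℓ`-subgroups of the quotient is an image -/
theorem exists_lift (S : GoodSys ℓ q good) {M : Subgroup G} (hM : q.ker ≤ M)
    {c' : Finset (Subgroup G')} (hc' : c' ∈ chainsOn (psubIn ℓ (M.map q)) ⊥) :
    ∃ c, c ∈ chainsOn (psubIn ℓ M) ⊥ ∧ GC ℓ q good c ∧ imC q c = c' := by
  classical
  obtain ⟨hsub, hbot, hch⟩ := mem_chainsOn.1 hc'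
  obtain ⟨htm, hle⟩ := H94.top_mem hch ⟨_, hbot⟩
  obtain ⟨hTM, hTp⟩ := mem_psubIn.1 (hsub htm)
  obtain ⟨P, hP, hPT⟩ := S.ex _ hTp
  have hPM : P ≤ M := by
    have h1 : P ≤ (M.map q).comap q := by
      rw [← Subgroup.map_le_iff_le_comap, hPT]
      exact hTM
    rwa [Subgroup.comap_map_eq, sup_eq_left.2 hM] at h1
  set f : Subgroup G' → Subgroup G := fun D' => P ⊓ D'.comap q with hf
  have hfm : ∀ D' ∈ c', (f D').map q = D' := by
    intro D' hD'
    apply le_antisymm
    · rintro _ ⟨x, hx, rfl⟩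
      exact hx.2
    · intro y hy
      have h2 : y ∈ P.map q := by rw [hPT]; exact hle D' hD' hy
      obtain ⟨x, hx, rfl⟩ := h2
      exact ⟨x, ⟨hx, hy⟩, rfl⟩
  have hmem : ∀ {E : Subgroup G}, E ∈ c'.image f ↔ ∃ D' ∈ c', f D' = E := by
    intro E
    simp
  have hfb : f ⊥ = ⊥ := by
    rw [hf]
    change P ⊓ (⊥ : Subgroup G').comap q = ⊥
    rw [MonoidHom.comap_bot]
    exact S.dis P hP
  have hft : f (top c') = P := by
    apply le_antisymm inf_le_left
    intro x hx
    refine ⟨hx, ?_⟩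
    change q x ∈ top c'
    rw [← hPT]
    exact ⟨x, hx, rfl⟩
  have hchain : IsChain (· ≤ ·) (c'.image f : Set (Subgroup G)) := by
    intro A hA B hB _
    obtain ⟨D, hD, rfl⟩ := hmem.1 (Finset.mem_coe.1 hA)
    obtain ⟨E, hE, rfl⟩ := hmem.1 (Finset.mem_coe.1 hB)
    rcases chain_total hch hD hE with h | h
    · exact Or.inl (inf_le_inf_left _ (Subgroup.comap_mono h))
    · exact Or.inr (inf_le_inf_left _ (Subgroup.comap_mono h))
  have htop : top (c'.image f) = P := by
    apply le_antisymm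
    · refine sSup_le ?_
      intro D hD
      obtain ⟨D', _, rfl⟩ := hmem.1 (Finset.mem_coe.1 hD)
      exact inf_le_left
    · exact le_sSup (Finset.mem_coe.2 (hmem.2 ⟨_, htm, hft⟩))
  refine ⟨c'.image f, ?_, ⟨⟨_, hmem.2 ⟨_, htm, hft⟩⟩, hchain, ?_⟩, ?_⟩
  · rw [mem_chainsOn]
    refine ⟨?_, hmem.2 ⟨⊥, hbot, hfb⟩, hchain⟩
    intro D hD
    obtain ⟨D', _, rfl⟩ := hmem.1 hD
    rw [mem_psubIn]
    exact ⟨inf_le_left.trans hPM, (S.pg P hP).to_le inf_le_left⟩
  · rw [htop]
    exact hP
  · ext D'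
    rw [mem_imC]
    constructor
    · rintro ⟨E, hE, rfl⟩
      obtain ⟨D, hD, rfl⟩ := hmem.1 hE
      rw [hfm D hD]
      exact hD
    · intro hD'
      exact ⟨f D', hmem.2 ⟨D', hD', rfl⟩, hfm D' hD'⟩

open Classical in
/-- NCO: alternating sums over the normal chains with good top. -/
theorem nco (S : GoodSys ℓ q good) {M : Subgroup G} (hM : q.ker ≤ M)
    (w : Finset (Subgroup G) → ℤ) (w' : Finset (Subgroup G') → ℤ)
    (hw : ∀ c ∈ chainsOn (psubIn ℓ M) ⊥, NormalChain c → good (top c) → w c = w' (imC q c)) :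
    ∑ c ∈ (chainsOn (psubIn ℓ M) ⊥).filter (fun c => NormalChain c ∧ good (top c)),
        (-1) ^ (c.card + 1) * ((Nat.card (stab c) : ℤ) * w c) =
      (Nat.card q.ker : ℤ) * ∑ c' ∈ (chainsOn (psubIn ℓ (M.map q)) ⊥).filter NormalChain,
        (-1) ^ (c'.card + 1) * ((Nat.card (stab c') : ℤ) * w' c') := by
  have hGC : ∀ c ∈ (chainsOn (psubIn ℓ M) ⊥).filter (fun c => NormalChain c ∧ good (top c)),
      GC ℓ q good c := by
    intro c hc
    obtain ⟨h1, h2, h3⟩ := Finset.mem_filter.1 hc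
    obtain ⟨_, h5, h6⟩ := mem_chainsOn.1 h1
    exact ⟨⟨_, h5⟩, h6, h3⟩
  have hmaps : ∀ c ∈ (chainsOn (psubIn ℓ M) ⊥).filter
      (fun c => NormalChain c ∧ good (top c)), imC q c ∈
      (chainsOn (psubIn ℓ (M.map q)) ⊥).filter NormalChain := by
    intro c hc
    have hg := hGC c hc
    obtain ⟨h1, h2, h3⟩ := Finset.mem_filter.1 hc
    obtain ⟨h4, h5, h6⟩ := mem_chainsOn.1 h1
    rw [Finset.mem_filter, mem_chainsOn]
    refine ⟨⟨?_, ?_, chain_imC h6⟩, (normal_imC S hg).2 h2⟩
    · intro D' hD'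
      obtain ⟨D, hD, rfl⟩ := mem_imC.1 hD'
      obtain ⟨h7, h8⟩ := mem_psubIn.1 (h4 hD)
      rw [mem_psubIn]
      exact ⟨Subgroup.map_mono h7, h8.map q⟩
    · exact mem_imC.2 ⟨⊥, h5, Subgroup.map_bot q⟩
  rw [← Finset.sum_fiberwise_of_maps_to hmaps, Finset.mul_sum]
  refine Finset.sum_congr rfl ?_
  intro c' hc'
  have hc'' := (Finset.mem_filter.1 hc').1
  obtain ⟨c₀, hc₀, hg₀, he₀⟩ := exists_lift S hM hc''
  have hfib := card_fibre S hg₀
    (((chainsOn (psubIn ℓ M) ⊥).filter (fun c => NormalChain c ∧ good (top c))).filter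
      (fun c => imC q c = c')) (by
    intro d
    constructor
    · intro hd
      obtain ⟨h1, h2⟩ := Finset.mem_filter.1 hd
      exact ⟨hGC d h1, by rw [h2, he₀]⟩
    · rintro ⟨h1, h2⟩
      rw [he₀] at h2
      obtain ⟨h3, h4, h5⟩ := mem_chainsOn.1 hc''
      have hle : ∀ D ∈ d, D ≤ M := by
        intro D hD
        have h6 : D.map q ∈ c' := by rw [← h2]; exact mem_imC.2 ⟨D, hD, rfl⟩
        have h7 := (mem_psubIn.1 (h3 h6)).1
        rw [Subgroup.map_le_iff_le_comap, Subgroup.comap_map_eq, sup_eq_left.2 hM] at h7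
        exact h7
      rw [Finset.mem_filter, Finset.mem_filter, mem_chainsOn]
      refine ⟨⟨⟨?_, ?_, h1.chain⟩, ?_, h1.gd⟩, h2⟩
      · intro D hD
        rw [mem_psubIn]
        exact ⟨hle D hD, (S.pg _ h1.gd).to_le (h1.le_top hD)⟩
      · have h8 : (⊥ : Subgroup G') ∈ imC q d := by rw [h2]; exact h4
        obtain ⟨D, hD, hDb⟩ := mem_imC.1 h8
        have h9 : D = ⊥ := map_inj (S.dis _ h1.gd) (h1.le_top hD) bot_le
          (by rw [hDb, Subgroup.map_bot])
        rw [← h9]
        exact hD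
      · rw [← normal_imC S h1, h2]
        exact (Finset.mem_filter.1 hc').2)
  rw [← hfib]
  push_cast
  rw [Finset.sum_mul]
  refine Finset.sum_congr rfl ?_
  intro c hc
  obtain ⟨h1, h2⟩ := Finset.mem_filter.1 hc
  have hg := hGC c h1
  obtain ⟨h3, h4, h5⟩ := Finset.mem_filter.1 h1
  rw [hw c h3 h4 h5, card_stab S hg, ← card_imC S hg, h2]
  push_cast
  ring

end Pool.Agent.PP.H6
end
end -- Pool.Agent.Helper6_PP.Nco

section -- Pool.Agent.Helper6_PP.NcoF

/-!
# Squad PP, module NCO: the statement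
-/

open scoped BigOperators

set_option linter.unusedSectionVars false

noncomputable section

namespace Pool.Agent.PP.H6

open Pool.Agent.Helper51_AWC Pool.Agent.Helper79_WRA Pool.Agent.PP

variable {F G : Type} [Field F] [Group G]

theorem Good.conj {ℓ : ℕ} {N : Subgroup G} [hN : N.Normal] {b : G → F} (hb : IsCl b)
    {P : Subgroup G} (h : Good ℓ N b P) (g : G) : Good ℓ N b (conjS g P) := by
  obtain ⟨h1, h2, x, hxN, hxP, hx⟩ := h
  refine ⟨h1.map _, ?_, g * x * g⁻¹, hN.conj_mem x hxN g, ?_, ?_⟩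
  · rw [eq_bot_iff]
    intro y hy
    obtain ⟨hy1, hy2⟩ := Subgroup.mem_inf.1 hy
    rw [mem_conjS] at hy1
    have h3 : g⁻¹ * y * g ∈ P ⊓ N := by
      refine Subgroup.mem_inf.2 ⟨hy1, ?_⟩
      have := hN.conj_mem y hy2 g⁻¹
      rwa [inv_inv] at this
    rw [h2, Subgroup.mem_bot] at h3
    rw [Subgroup.mem_bot]
    have e : y = g * (g⁻¹ * y * g) * g⁻¹ := by group
    rw [e, h3]
    group
  · rw [Subgroup.mem_centralizer_iff] at hxP ⊢
    intro y hy
    have h3 := hxP _ (mem_conjS.1 hy)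
    have e1 : y * (g * x * g⁻¹) = g * (g⁻¹ * y * g * x) * g⁻¹ := by group
    have e2 : g * x * g⁻¹ * y = g * (x * (g⁻¹ * y * g)) * g⁻¹ := by group
    rw [e1, e2, h3]
  · rw [hb]
    exact hx

theorem goodSys (hcmp : CmpStmt) {ℓ : ℕ} (hF : GoodF ℓ F) [Finite G] {N : Subgroup G} [N.Normal]
    {b : G → F} (hNB : NB ℓ N b) : GoodSys ℓ (QuotientGroup.mk' N) (Good ℓ N b) := by
  have hℓ : Fact ℓ.Prime := ⟨hF.prime⟩
  have hker : (QuotientGroup.mk' N).ker = N := QuotientGroup.ker_mk' N
  have hrel : ∀ T : Subgroup G, N ≤ T → IsPGroup ℓ (T.map (QuotientGroup.mk' N)) →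
      ∃ k, N.relIndex T = ℓ ^ k := by
    intro T hT hp
    obtain ⟨k, hk⟩ := IsPGroup.iff_card.1 hp
    refine ⟨k, ?_⟩
    have h1 := card_map (QuotientGroup.mk' N) T
    rw [hker, inf_eq_right.2 hT, card_of_relIndex hT] at h1
    rw [← hk]
    exact Nat.eq_of_mul_eq_mul_right Nat.card_pos h1
  have hsup : ∀ P : Subgroup G, (P ⊔ N).map (QuotientGroup.mk' N) =
      P.map (QuotientGroup.mk' N) := by
    intro P
    rw [Subgroup.map_sup, (Subgroup.map_eq_bot_iff N).2 (by rw [hker]), sup_bot_eq]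
  refine ⟨QuotientGroup.mk'_surjective N, fun P h => h.1, fun P h => by rw [hker]; exact h.2.1,
    ?_, fun g P h => Good.conj hNB.2.1 h g, ?_, ?_⟩
  · rintro P R ⟨h1, h2, x, hxN, hxP, hx⟩ hR
    refine ⟨h1.to_le hR, ?_, x, hxN, Subgroup.centralizer_le hR hxP, hx⟩
    rw [eq_bot_iff, ← h2]
    exact inf_le_inf_right N hR
  · intro T' hT'
    have hNT : N ≤ T'.comap (QuotientGroup.mk' N) := by
      intro x hx
      rw [Subgroup.mem_comap]
      have h1 : QuotientGroup.mk' N x = 1 := by
        rw [← MonoidHom.mem_ker, hker]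
        exact hx
      rw [h1]
      exact one_mem _
    have hmap : (T'.comap (QuotientGroup.mk' N)).map (QuotientGroup.mk' N) = T' :=
      Subgroup.map_comap_eq_self_of_surjective (QuotientGroup.mk'_surjective N) T'
    obtain ⟨P, hP, hPT⟩ := (hcmp ℓ F hF G N (T'.comap (QuotientGroup.mk' N)) b hNB hNT
      (hrel _ hNT (by rw [hmap]; exact hT'))).1
    refine ⟨P, hP, ?_⟩
    rw [← hsup P, hPT, hmap]
  · intro P P' hP hP' he
    have h1 : P ⊔ N = P' ⊔ N := by
      have h2 := congrArg (Subgroup.comap (QuotientGroup.mk' N)) he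
      rw [Subgroup.comap_map_eq, Subgroup.comap_map_eq, hker] at h2
      exact h2
    obtain ⟨n, hn, hc⟩ := (hcmp ℓ F hF G N (P ⊔ N) b hNB le_sup_right
      (hrel _ le_sup_right (by rw [hsup]; exact hP.1.map _))).2 P P' hP hP' rfl h1.symm
    exact ⟨n, by rw [hker]; exact hn, hc.symm⟩

theorem nco_stmt (hcmp : CmpStmt) : NcoStmt := by
  intro ℓ F _ hF G _ _ N M _ b hNB hM hNM
  have S := goodSys (ℓ := ℓ) (F := F) hcmp hF hNB
  have hker : (QuotientGroup.mk' N).ker = N := QuotientGroup.ker_mk' N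
  refine ⟨?_, ?_⟩
  · intro c hc hn hg
    obtain ⟨h4, h5, h6⟩ := mem_chainsOn.1 hc
    have hG : GC ℓ (QuotientGroup.mk' N) (Good ℓ N b) c := ⟨⟨_, h5⟩, h6, hg⟩
    refine ⟨?_, (normal_imC S hG).2 hn, top_imC hG, card_imC S hG, stab_imC S hG,
      (map_centralizer S hg).symm⟩
    rw [mem_chainsOn]
    refine ⟨?_, mem_imC.2 ⟨⊥, h5, Subgroup.map_bot _⟩, chain_imC h6⟩
    intro D' hD'
    obtain ⟨D, hD, rfl⟩ := mem_imC.1 hD'
    obtain ⟨h7, h8⟩ := mem_psubIn.1 (h4 hD)
    rw [mem_psubIn]
    exact ⟨Subgroup.map_mono h7, h8.map _⟩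
  · intro w w' hw
    have h1 := nco S (M := M) (by rw [hker]; exact hNM) w w' hw
    rw [hker] at h1
    exact h1

end Pool.Agent.PP.H6
end
end -- Pool.Agent.Helper6_PP.NcoF

section -- Pool.Agent.Helper91_AWR.Pow

/-!
# Squad PP, module POW
-/

open scoped BigOperators

set_option linter.unusedSectionVars false

noncomputable section

namespace Pool.Agent.PP.H91R

open Pool.Agent.Helper51_AWC Pool.Agent.Helper79_WRA Pool.Agent.PP

section basic

variable {F D : Type} [Field F] [Group D] [Finite D]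

theorem charP_MA (ℓ : ℕ) [CharP F ℓ] : CharP (MonoidAlgebra F D) ℓ :=
  charP_of_injective_algebraMap
    (FaithfulSMul.algebraMap_injective F (MonoidAlgebra F D)) ℓ

/-- the power `s ^ (k + 1)` -/
def pw (s : D → F) (k : ℕ) : D → F := (mulF s)^[k] s

theorem ma_pw (s : D → F) (k : ℕ) : ma (pw s k) = ma s ^ (k + 1) := by
  unfold pw
  rw [ma_iterate, pow_succ]

theorem pw_cl {s : D → F} (hs : IsCl s) (k : ℕ) : IsCl (pw s k) := by
  rw [isCl_iff, ma_pw]
  exact Subalgebra.pow_mem _ ((isCl_iff s).1 hs) _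

theorem ev_pw {n : ℕ} (ρ : D →* Matrix (Fin n) (Fin n) F) (s : D → F) (k : ℕ) :
    ev ρ (pw s k) = ev ρ s ^ (k + 1) := by
  unfold pw
  rw [ev_iterate, pow_succ]

theorem pw_trans {s : D → F} {z : D} {c : F} (h : ∀ x, s (z * x) = c * s x) (k : ℕ) :
    ∀ x, pw s k (z * x) = c * pw s k x := by
  have key : ∀ b : D → F, ∀ x, mulF s b (z * x) = c * mulF s b x := by
    intro b x
    have := Fintype.ofFinite D
    unfold mulF
    rw [finsum_eq_sum_of_fintype, finsum_eq_sum_of_fintype, Finset.mul_sum,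
      ← Equiv.sum_comp (Equiv.mulLeft z)]
    refine Finset.sum_congr rfl fun t _ => ?_
    rw [Equiv.coe_mulLeft, h]
    have e : (z * t)⁻¹ * (z * x) = t⁻¹ * x := by group
    rw [e]
    ring
  induction k with
  | zero => exact h
  | succ k _ =>
    intro x
    unfold pw
    rw [Function.iterate_succ_apply']
    exact key _ x

end basic

/-- the Brauer map of the powers, restricted to a local subgroup -/
theorem br_pw {ℓ : ℕ} {F : Type} [Field F] (hF : GoodF ℓ F) (hbrm : BrmStmt) {G : Type} [Group G]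
    [Finite G] {P X : Subgroup G} (hP : IsPGroup ℓ P)
    (hC : Subgroup.centralizer (P : Set G) ≤ X) (hX : X ≤ Subgroup.normalizer (P : Set G))
    {s : G → F} (hs : IsCl s) (k : ℕ) :
    (fun t : X => br P (pw s k) t) = pw (fun t : X => br P s t) k := by
  obtain ⟨b1, b2, -⟩ := hbrm ℓ F hF G P X hP hC hX
  induction k with
  | zero => rfl
  | succ k ih =>
    unfold pw at ih ⊢
    rw [Function.iterate_succ_apply', Function.iterate_succ_apply', ← ih]
    have hcl : IsCl ((mulF s)^[k] s) := pw_cl hs k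
    rw [b1 s _ hs hcl, ← b2]

/-- the Brauer map of a class function is a class function of the local subgroup -/
theorem br_cl {F : Type} [Field F] {G : Type} [Group G] {P X : Subgroup G}
    (hX : X ≤ Subgroup.normalizer (P : Set G)) {s : G → F} (hs : IsCl s) :
    IsCl (fun t : X => br P s t) := by
  intro x y
  have h1 : ((y * x * y⁻¹ : X) : G) ∈ Subgroup.centralizer (P : Set G) ↔
      (x : G) ∈ Subgroup.centralizer (P : Set G) := by
    show (y : G) * x * (y : G)⁻¹ ∈ _ ↔ _
    exact H20.cent_conj_iff (hX y.2)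
  show br P s ((y * x * y⁻¹ : X) : G) = br P s x
  unfold br
  by_cases hx : (x : G) ∈ Subgroup.centralizer (P : Set G)
  · rw [if_pos hx, if_pos (h1.2 hx)]
    exact hs _ _
  · rw [if_neg hx, if_neg (fun h => hx (h1.1 h))]

/-- POW. -/
theorem pow_ : H67.PowStmt := by
  intro ℓ F _ hF D _ _ s hs h01
  have := hF.char
  have : Fact ℓ.Prime := ⟨hF.prime⟩
  have hcp : CharP (MonoidAlgebra F D) ℓ := charP_MA ℓ
  have hcl : IsCl (mulF s s - s) := by
    rw [isCl_iff, ma_sub, ma_mul]
    have h1 := (isCl_iff s).1 hs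
    exact Subalgebra.sub_mem _ (Subalgebra.mul_mem _ h1 h1) h1
  -- `s ^ 2 - s` is nilpotent
  have hev : ∀ (n : ℕ) (ρ : D →* Matrix (Fin n) (Fin n) F), IsIrr ρ →
      ∃ w : F, ev ρ s = Matrix.scalar (Fin n) w ∧ (w = 0 ∨ w = 1) := by
    intro n ρ hρ
    obtain ⟨w, h1, -, -⟩ := H20.eig F D n ρ hρ s hs
    exact ⟨w, h1, h01 n ρ w hρ h1⟩
  obtain ⟨k, hk⟩ := H20.ibn ℓ F hF D (mulF s s - s) (by
    intro n ρ hρ
    obtain ⟨w, h1, h2⟩ := hev n ρ hρ
    rw [sub_eq_add_neg, ← neg_one_smul F s, ev_add, ev_smul, ev_mulF, h1, ← map_mul]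
    rcases h2 with h2 | h2
    · rw [h2]; simp
    · rw [h2]; simp)
  have hnil : (ma s * ma s - ma s) ^ (k + 1) = 0 := by
    have h1 := congrArg ma hk
    rw [ma_iterate, ma_zero, ← pow_succ, ma_sub, ma_mul] at h1
    exact h1
  -- the exponent
  obtain ⟨r, hr⟩ : ∃ r, k + 1 ≤ ℓ ^ r := ⟨k + 1, (Nat.lt_pow_self hF.prime.one_lt).le⟩
  obtain ⟨m, hm⟩ : ∃ m, m + 1 = ℓ ^ r := ⟨ℓ ^ r - 1, Nat.sub_add_cancel (by omega)⟩
  have hid : IsIdem (pw s m) := by
    rw [isIdem_iff]
    refine ⟨(isCl_iff _).1 (pw_cl hs m), ?_⟩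
    have h1 : (ma s * ma s - ma s) ^ ℓ ^ r = 0 := pow_eq_zero_of_le hr hnil
    have hcomm : Commute (ma s * ma s) (ma s) := (Commute.refl (ma s)).mul_left (Commute.refl _)
    rw [sub_pow_char_pow_of_commute _ _ hcomm, (Commute.refl (ma s)).mul_pow, ← hm] at h1
    show ma (pw s m) * ma (pw s m) = ma (pw s m)
    rw [ma_pw]
    exact sub_eq_zero.1 h1
  refine ⟨pw s m, hid, ?_, ?_, fun z c h => pw_trans h m⟩
  · intro n ρ hρ
    obtain ⟨w, h1, h2⟩ := hev n ρ hρ
    rw [ev_pw, h1, ← map_pow]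
    rcases h2 with h2 | h2
    · rw [h2, zero_pow (by omega)]
    · rw [h2, one_pow]
  · intro Q _
    classical
    have key : ∀ a : D → F, YY ℓ Q a = ∑ d ∈ (chainsOn (psubIn ℓ Q) ⊥).filter NormalChain,
        (-1) ^ (d.card + 1) * ((Nat.card (stab d) : ℤ) * (lnum (stab d) a : ℤ)) := by
      intro a
      exact H94.nch ℓ D Q (fun X _ => (Nat.card X : ℤ) * (lnum X a : ℤ))
    rw [key, key]
    refine Finset.sum_congr rfl fun d hd => ?_
    rw [Finset.mem_filter] at hd
    obtain ⟨hd1, hd2⟩ := hd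
    obtain ⟨c1, c2, c3⟩ := mem_chainsOn.1 hd1
    obtain ⟨t1, t2⟩ := H94.top_mem c3 ⟨_, c2⟩
    have htp : IsPGroup ℓ (top d) := (mem_psubIn.1 (c1 t1)).2
    have hPX : top d ≤ stab d := by
      intro x hx
      rw [H94.mem_stab']
      intro D' hD
      exact hd2 D' hD hx
    have hXP : stab d ≤ Subgroup.normalizer (top d : Set D) := by
      intro x hx
      exact (H94.mem_stab'.1 hx) _ t1
    have hCX : Subgroup.centralizer (top d : Set D) ≤ stab d := by
      intro x hx
      rw [H94.mem_stab']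
      intro D' hD
      have hle : D' ≤ top d := t2 D' hD
      rw [Subgroup.mem_normalizer_iff]
      intro y
      rw [Subgroup.mem_centralizer_iff] at hx
      constructor
      · intro hy
        rw [← hx y (hle hy), mul_inv_cancel_right]
        exact hy
      · intro hy
        have h1 := hx _ (hle hy)
        have h2 : x * y * x⁻¹ = y := by
          have h3 : x * y = x * (x * y * x⁻¹) := by
            rw [← h1]; group
          exact (mul_left_cancel h3).symm
        rwa [h2] at hy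
    have hl : lnum (stab d) (pw s m) = lnum (stab d) s := by
      rw [H96.lnum_br hF H20.nls htp hPX hXP (pw_cl hs m), H96.lnum_br hF H20.nls htp hPX hXP hs]
      have e1 := br_pw hF H20.brm htp hCX hXP hs m
      have hcl0 : IsCl (fun t : stab d => br (top d) s t) := br_cl hXP hs
      have hnil0 : ∀ (n : ℕ) (ρ : stab d →* Matrix (Fin n) (Fin n) F) (w : F), IsIrr ρ →
          ev ρ (fun t : stab d => br (top d) s t) = Matrix.scalar (Fin n) w → w = 0 ∨ w = 1 := by
        intro n ρ w hρ hw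
        have e2 := br_pw hF H20.brm htp hCX hXP hcl k
        have e3 : pw (mulF s s - s) k = 0 := hk
        rw [e3] at e2
        have e4 : (fun t : stab d => br (top d) (0 : D → F) t) = 0 := by
          funext t
          simp [br]
        have e5 : (fun t : stab d => br (top d) (mulF s s - s) t) =
            pw (fun t : stab d => br (top d) s t) 1 - (fun t : stab d => br (top d) s t) := by
          have e6 := br_pw hF H20.brm htp hCX hXP hs 1
          rw [← e6]
          funext t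
          show br (top d) (mulF s s - s) t = br (top d) (mulF s s) t - br (top d) s t
          unfold br
          by_cases ht : (t : D) ∈ Subgroup.centralizer (top d : Set D)
          · simp only [if_pos ht]; rfl
          · simp only [if_neg ht, sub_zero]
        rw [e4, e5] at e2
        have e7 := congrArg (ev ρ) e2
        have e8 : ev ρ (0 : stab d → F) = 0 := by
          have := ev_smul ρ (0 : F) (0 : stab d → F)
          rw [zero_smul, zero_smul] at this
          exact this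
        rw [ev_pw, e8, sub_eq_add_neg, ← neg_one_smul F (fun t : stab d => br (top d) s t), ev_add,
          ev_smul, ev_pw, hw, ← map_pow, neg_one_smul, ← map_neg, ← map_add, ← map_pow] at e7
        have e9 : (0 : F) = (w ^ (1 + 1) + -w) ^ (k + 1) := by
          have := congrFun (congrFun e7 ⟨0, hρ.1⟩) ⟨0, hρ.1⟩
          simpa using this
        have e10 : w ^ (1 + 1) + -w = 0 := pow_eq_zero_iff (by omega) |>.1 e9.symm
        have e11 : w * (w - 1) = 0 := by
          rw [← e10]; ring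
        rcases mul_eq_zero.1 e11 with h | h
        · exact Or.inl h
        · exact Or.inr (sub_eq_zero.1 h)
      unfold lnum
      congr 1
      ext φ
      refine and_congr_right fun hφ => ?_
      obtain ⟨n, ρ, hρ, rfl⟩ := hφ
      obtain ⟨w, g1, g2, -⟩ := H20.eig F (stab d) n ρ hρ _ hcl0
      have hw := hnil0 n ρ w hρ g1
      have hcl1 : IsCl (pw (fun t : stab d => br (top d) s t) m) := pw_cl hcl0 m
      obtain ⟨w', g3, g4, -⟩ := H20.eig F (stab d) n ρ hρ _ hcl1
      rw [ev_pw, g1, ← map_pow] at g3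
      have g5 : w ^ (m + 1) = w' := by
        have := congrFun (congrFun g3 ⟨0, hρ.1⟩) ⟨0, hρ.1⟩
        simpa using this
      have g6 : w' = w := by
        rw [← g5]
        rcases hw with hw | hw
        · rw [hw, zero_pow (by omega)]
        · rw [hw, one_pow]
      rw [g6] at g4
      rw [e1, g4, g2]
    rw [hl]

end Pool.Agent.PP.H91R
end
end -- Pool.Agent.Helper91_AWR.Pow
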