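import Pool.Agent.Helper12_AWB.B069
import Pool.Agent.Helper75_PP.Corner

/-!
# Merged copies (generated) of the modules

* `Pool.Agent.Helper67_PP.Clf`
* `Pool.Agent.Helper67_PP.Crn`
* `Pool.Agent.Helper67_PP.Cls`
* `Pool.Agent.Helper67_PP.ClsFin`
-/

set_option autoImplicit false

section -- Pool.Agent.Helper67_PP.Clf

/-!
SI1, module CLS: the Clifford correspondence.  The radical of `F C` acts as zero.
-/

open scoped BigOperators

set_option linter.unusedSectionVars false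

noncomputable section

namespace Pool.Agent.PP.H67

open Pool.Agent.Helper51_AWC Pool.Agent.Helper79_WRA Pool.Agent.PP

variable {F G : Type} [Field F] [Group G] [Finite G]

/-- the radical of `F C` -/
def Rd (C : Subgroup G) (a : G → F) : Prop :=
  Sp C a ∧ ∀ (k : ℕ) (ρ : C →* Matrix (Fin k) (Fin k) F), IsIrr ρ → ex ρ a = 0

section rad

variable {C X : Subgroup G} {n : ℕ}

theorem Rd.cja (hC : C.Normal) {a : G → F} (ha : Rd C a) (g : G) : Rd C (cja g a) := by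
  refine ⟨cja_sp hC g ha.1, fun k ρ hρ => ?_⟩
  rw [← ex_crep ρ hC]
  exact ha.2 k _ (irr_comp hρ _ (crep_surj hC g))

theorem Rd.mul_right {a b : G → F} (ha : Rd C a) (hb : Sp C b) : Rd C (mulF a b) := by
  refine ⟨sp_mulF ha.1 hb, fun k ρ hρ => ?_⟩
  rw [ex_mulF_left ρ ha.1, ha.2 k ρ hρ, zero_mul]

theorem Rd.mul_left {a b : G → F} (ha : Rd C a) (hb : Sp C b) : Rd C (mulF b a) := by
  refine ⟨sp_mulF hb ha.1, fun k ρ hρ => ?_⟩
  rw [ex_mulF_left ρ hb, ha.2 k ρ hρ, mul_zero]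

/-- the elements of the radical are nilpotent in every representation -/
theorem Rd.nil {ℓ : ℕ} (hF : GoodF ℓ F) (hX : C ≤ X) (σ : X →* Matrix (Fin n) (Fin n) F)
    {a : G → F} (ha : Rd C a) : IsNilpotent (ex σ a) := by
  obtain ⟨k, hk⟩ := H20.ibn ℓ F hF C (fun x : C => a x) (fun k ρ hρ => ha.2 k ρ hρ)
  have h1 : (mulF a)^[k] a = 0 := by
    funext g
    by_cases hg : g ∈ C
    · have := iterate_sub (b := a) ha.1 k ⟨g, hg⟩
      rw [hk] at this
      exact this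
    · exact sp_iterate ha.1 ha.1 k g hg
  have h2 := ex_iterate σ (ha.1.mono hX) k (b := a)
  rw [h1, ex_zero] at h2
  exact ⟨k + 1, by rw [pow_succ]; exact h2.symm⟩

theorem Rd.pow {hC : C.Normal} (hX : C ≤ X) (σ : X →* Matrix (Fin n) (Fin n) F)
    {a : G → F} (ha : Rd C a) (g : X) (j : ℕ) : ∃ w : G → F, Rd C w ∧
      (σ g * ex σ a) ^ (j + 1) = σ (g ^ (j + 1)) * ex σ w := by
  induction j with
  | zero => exact ⟨a, ha, by rw [zero_add, pow_one, pow_one]⟩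
  | succ j ih =>
    obtain ⟨w, hw, h⟩ := ih
    refine ⟨mulF (H67.cja ((g : G)⁻¹) w) a, (hw.cja hC _).mul_right ha.1, ?_⟩
    rw [pow_succ, h, ex_mulF_right σ (ha.1.mono hX)]
    have h1 : ex σ (H67.cja ((g : G)⁻¹) w) = σ g⁻¹ * ex σ w * σ g := by
      have := ex_cja σ g⁻¹ w
      rw [inv_inv] at this
      exact this
    rw [h1]
    have h2 : σ (g ^ (j + 1 + 1)) * σ g⁻¹ = σ (g ^ (j + 1)) := by
      rw [← map_mul]
      congr 1
      rw [pow_succ g (j + 1)]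
      group
    calc σ (g ^ (j + 1)) * ex σ w * (σ g * ex σ a)
        = (σ (g ^ (j + 1 + 1)) * σ g⁻¹) * ex σ w * (σ g * ex σ a) := by rw [h2]
      _ = σ (g ^ (j + 1 + 1)) * (σ g⁻¹ * ex σ w * σ g * ex σ a) := by
          simp only [mul_assoc]

/-- Clifford: the radical of `F C` acts as zero in the irreducible representations of `X`. -/
theorem Rd.zero {ℓ : ℕ} (hF : GoodF ℓ F) (hC : C.Normal) (hX : C ≤ X)
    {σ : X →* Matrix (Fin n) (Fin n) F} (hσ : IsIrr σ) {a : G → F} (ha : Rd C a) :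
    ex σ a = 0 := by
  rw [Matrix.ext_iff_trace_mul_left]
  intro B
  rw [mul_zero, Matrix.trace_zero]
  have hB : B ∈ Submodule.span F (Set.range σ) := by rw [hσ.2]; trivial
  induction hB using Submodule.span_induction with
  | mem x hx =>
    obtain ⟨g, rfl⟩ := hx
    obtain ⟨w, hw, h⟩ := Rd.pow (hC := hC) hX σ ha g (orderOf g - 1)
    rw [Nat.sub_add_cancel (orderOf_pos g), pow_orderOf_eq_one, map_one, one_mul] at h
    have h1 : IsNilpotent (σ g * ex σ a) := by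
      obtain ⟨k, hk⟩ := hw.nil hF hX σ
      refine ⟨orderOf g * k, ?_⟩
      rw [pow_mul, h, hk]
    exact (Matrix.isNilpotent_trace_of_isNilpotent h1).eq_zero
  | zero => rw [zero_mul, Matrix.trace_zero]
  | add x y _ _ hx hy => rw [add_mul, Matrix.trace_add, hx, hy, add_zero]
  | smul c x _ hx => rw [Matrix.smul_mul, Matrix.trace_smul, hx, smul_zero]

theorem Rd.eq {ℓ : ℕ} (hF : GoodF ℓ F) (hC : C.Normal) (hX : C ≤ X)
    {σ : X →* Matrix (Fin n) (Fin n) F} (hσ : IsIrr σ) {a b : G → F} (ha : Sp C a) (hb : Sp C b)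
    (h : ∀ (k : ℕ) (ρ : C →* Matrix (Fin k) (Fin k) F), IsIrr ρ → ex ρ a = ex ρ b) :
    ex σ a = ex σ b := by
  have h1 : Rd C (a - b) := by
    refine ⟨fun g hg => ?_, fun k ρ hρ => ?_⟩
    · rw [Pi.sub_apply, ha g hg, hb g hg, sub_zero]
    · rw [ex_sub, h k ρ hρ, sub_self]
  have h2 := h1.zero hF hC hX hσ
  rw [ex_sub] at h2
  exact sub_eq_zero.1 h2

end rad

section eps

variable (F) (C : Subgroup G)

/-- the elements of `F C` with the values `1` at `θ` and `0` at the other characters -/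
def IsEps (ε : (C → F) → G → F) : Prop :=
  ∀ θ ∈ IBr F C, Sp C (ε θ) ∧ ∀ (k : ℕ) (ρ : C →* Matrix (Fin k) (Fin k) F), IsIrr ρ →
    (tr ρ = θ → ex ρ (ε θ) = 1) ∧ (tr ρ ≠ θ → ex ρ (ε θ) = 0)

theorem exists_eps {ℓ : ℕ} (hF : GoodF ℓ F) : ∃ ε : (C → F) → G → F, IsEps F C ε := by
  classical
  have hfin : (IBr F C).Finite := (H20.ibf ℓ F hF C).1
  have : Finite (IBr F C) := hfin
  have hch : ∀ θ : IBr F C, ∃ (k : ℕ) (ρ : C →* Matrix (Fin k) (Fin k) F), IsIrr ρ ∧ θ.1 = tr ρ :=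
    fun θ => θ.2
  choose k ρ hρ htr using hch
  have hinj : Function.Injective (fun θ => tr (ρ θ)) := by
    intro θ θ' h
    apply Subtype.ext
    rw [htr, htr]
    exact h
  have hJ : ∀ θ : IBr F C, ∃ a : C → F, ∀ θ' : IBr F C,
      ev (ρ θ') a = if θ' = θ then 1 else 0 := fun θ =>
    H20.ibj ℓ F hF C (IBr F C) k ρ hρ hinj (fun θ' => if θ' = θ then 1 else 0)
  choose a ha using hJ
  refine ⟨fun θ g => if h : θ ∈ IBr F C then (if h' : g ∈ C then a ⟨θ, h⟩ ⟨g, h'⟩ else 0) else 0,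
    ?_⟩
  intro θ hθ
  have e : (fun g => if h : θ ∈ IBr F C then (if h' : g ∈ C then a ⟨θ, h⟩ ⟨g, h'⟩ else 0) else 0) =
      (fun g => if h' : g ∈ C then a ⟨θ, hθ⟩ ⟨g, h'⟩ else 0) := by
    funext g
    rw [dif_pos hθ]
  beta_reduce
  rw [e]
  refine ⟨fun g hg => dif_neg hg, fun m τ hτ => ?_⟩
  have h1 : ex τ (fun g => if h' : g ∈ C then a ⟨θ, hθ⟩ ⟨g, h'⟩ else 0) = ev τ (a ⟨θ, hθ⟩) :=
    ex_ext0 τ _
  rw [h1]
  have hmem : tr τ ∈ IBr F C := ⟨m, τ, hτ, rfl⟩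
  have h2 : tr (ρ ⟨tr τ, hmem⟩) = tr τ := (htr ⟨tr τ, hmem⟩).symm
  constructor
  · intro h
    have h3 := ha ⟨θ, hθ⟩ ⟨tr τ, hmem⟩
    rw [if_pos (Subtype.ext h)] at h3
    have h4 : ev (ρ ⟨tr τ, hmem⟩) (a ⟨θ, hθ⟩) = Matrix.scalar _ 1 := by rw [h3, map_one]
    have h5 := ev_eq_of_tr hF (hρ _) hτ h2 _ _ h4
    rw [h5, map_one]
  · intro h
    have h3 := ha ⟨θ, hθ⟩ ⟨tr τ, hmem⟩
    rw [if_neg (fun h' => h (congrArg Subtype.val h'))] at h3
    have h4 : ev (ρ ⟨tr τ, hmem⟩) (a ⟨θ, hθ⟩) = Matrix.scalar _ 0 := by rw [h3, map_zero]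
    have h5 := ev_eq_of_tr hF (hρ _) hτ h2 _ _ h4
    rw [h5, map_zero]

end eps

end Pool.Agent.PP.H67
end
end -- Pool.Agent.Helper67_PP.Clf

section -- Pool.Agent.Helper67_PP.Crn

/-!
SI1, module CLS: the corner of an irreducible representation at the `θ`-isotypic part.
-/

open scoped BigOperators

set_option linter.unusedSectionVars false

noncomputable section

namespace Pool.Agent.PP.H67

open Pool.Agent.Helper51_AWC Pool.Agent.Helper79_WRA Pool.Agent.PP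

variable {F G : Type} [Field F] [Group G] [Finite G]

section action

variable {C X : Subgroup G} (hC : C.Normal)

/-- the conjugate character `g θ` -/
def ac (g : G) (θ : C → F) : C → F := fun c => θ (crep hC g⁻¹ c)

theorem ac_mem (g : G) {θ : C → F} (h : θ ∈ IBr F C) : ac hC g θ ∈ IBr F C := by
  obtain ⟨n, ρ, hρ, rfl⟩ := h
  exact ⟨n, ρ.comp (crep hC g⁻¹), irr_comp hρ _ (crep_surj hC _), rfl⟩

theorem ac_one (θ : C → F) : ac hC 1 θ = θ := by
  funext c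
  rw [ac]
  congr 1
  apply Subtype.ext
  show (1 : G)⁻¹ * c * (1 : G)⁻¹⁻¹ = c
  group

theorem ac_mul (g h : G) (θ : C → F) : ac hC g (ac hC h θ) = ac hC (g * h) θ := by
  funext c
  rw [ac, ac, ac]
  congr 1
  apply Subtype.ext
  show h⁻¹ * (g⁻¹ * c * g⁻¹⁻¹) * h⁻¹⁻¹ = (g * h)⁻¹ * c * (g * h)⁻¹⁻¹
  group

theorem ac_tr {n : ℕ} (g : G) (ρ : C →* Matrix (Fin n) (Fin n) F) (θ : C → F) :
    tr (ρ.comp (crep hC g)) = θ ↔ tr ρ = ac hC g θ := by
  constructor
  · rintro rfl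
    funext c
    rw [ac]
    show tr ρ c = tr ρ (crep hC g (crep hC g⁻¹ c))
    congr 1
    apply Subtype.ext
    show (c : G) = g * (g⁻¹ * c * g⁻¹⁻¹) * g⁻¹
    group
  · intro h
    funext c
    show tr ρ (crep hC g c) = θ c
    rw [h, ac]
    congr 1
    apply Subtype.ext
    show g⁻¹ * (g * (c : G) * g⁻¹) * g⁻¹⁻¹ = c
    group

theorem mem_stC {g : G} {θ : C → F} : g ∈ stC hC θ ↔ ac hC g θ = θ := by
  constructor
  · intro h
    funext c
    rw [ac]
    have h1 := h (crep hC g⁻¹ c)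
    rw [← h1]
    congr 1
    apply Subtype.ext
    show g * (g⁻¹ * (c : G) * g⁻¹⁻¹) * g⁻¹ = c
    group
  · intro h c
    have h1 := congrFun h ⟨g * c * g⁻¹, hC.conj_mem c c.2 g⟩
    rw [← h1, ac]
    congr 1
    apply Subtype.ext
    show g⁻¹ * (g * (c : G) * g⁻¹) * g⁻¹⁻¹ = c
    group

end action

theorem ex_dl_one {X : Subgroup G} {n : ℕ} (σ : X →* Matrix (Fin n) (Fin n) F) :
    ex σ (dl F (1 : G)) = 1 := by
  have e : (fun x : X => dl F (1 : G) x) = dl F (1 : X) := by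
    funext x
    rw [dl, dl]
    by_cases h : x = 1
    · rw [if_pos h, if_pos (by rw [h]; rfl)]
    · rw [if_neg h, if_neg]
      intro h'
      exact h (Subtype.ext h')
  rw [ex, e, ev_dl, map_one]

section corner

variable {C X : Subgroup G} {n : ℕ} {ε : (C → F) → G → F} {σ : X →* Matrix (Fin n) (Fin n) F}

/-- everything needed from the environment -/
structure Env (ℓ : ℕ) (C X : Subgroup G) (ε : (C → F) → G → F) : Prop where
  good : GoodF ℓ F
  nC : C.Normal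
  le : C ≤ X
  eps : IsEps F C ε

variable {ℓ : ℕ} (E : Env ℓ C X ε)

include E

theorem Env.idem (hσ : IsIrr σ) {θ : C → F} (hθ : θ ∈ IBr F C) :
    ex σ (ε θ) * ex σ (ε θ) = ex σ (ε θ) := by
  obtain ⟨h1, h2⟩ := E.eps θ hθ
  rw [← ex_mulF_left σ (h1.mono E.le)]
  apply Rd.eq E.good E.nC E.le hσ (sp_mulF h1 h1) h1
  intro k ρ hρ
  rw [ex_mulF_left ρ h1]
  by_cases h : tr ρ = θ
  · rw [(h2 k ρ hρ).1 h, one_mul]
  · rw [(h2 k ρ hρ).2 h, zero_mul]

theorem Env.orth (hσ : IsIrr σ) {θ θ' : C → F} (hθ : θ ∈ IBr F C) (hθ' : θ' ∈ IBr F C)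
    (hne : θ ≠ θ') : ex σ (ε θ) * ex σ (ε θ') = 0 := by
  obtain ⟨h1, h2⟩ := E.eps θ hθ
  obtain ⟨h3, h4⟩ := E.eps θ' hθ'
  rw [← ex_mulF_left σ (h1.mono E.le)]
  have h5 : Rd C (mulF (ε θ) (ε θ')) := by
    refine ⟨sp_mulF h1 h3, fun k ρ hρ => ?_⟩
    rw [ex_mulF_left ρ h1]
    by_cases h : tr ρ = θ
    · rw [(h4 k ρ hρ).2 (fun h' => hne (h.symm.trans h')), mul_zero]
    · rw [(h2 k ρ hρ).2 h, zero_mul]
  exact h5.zero E.good E.nC E.le hσ

theorem Env.move (hσ : IsIrr σ) {θ : C → F} (hθ : θ ∈ IBr F C) (g : X) :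
    σ g * ex σ (ε θ) = ex σ (ε (ac E.nC g θ)) * σ g := by
  obtain ⟨h1, h2⟩ := E.eps θ hθ
  obtain ⟨h3, h4⟩ := E.eps _ (ac_mem E.nC g hθ)
  rw [← ex_comm]
  congr 1
  apply Rd.eq E.good E.nC E.le hσ (cja_sp E.nC _ h1) h3
  intro k ρ hρ
  rw [← ex_crep ρ E.nC]
  have hi := irr_comp hρ _ (crep_surj E.nC (g : G))
  by_cases h : tr ρ = ac E.nC g θ
  · rw [(h4 k ρ hρ).1 h, (h2 k _ hi).1 ((ac_tr E.nC g ρ θ).2 h)]
  · rw [(h4 k ρ hρ).2 h, (h2 k _ hi).2 (fun h' => h ((ac_tr E.nC g ρ θ).1 h'))]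

theorem Env.sum (hσ : IsIrr σ) (s : Finset (C → F)) (hs : ∀ θ, θ ∈ s ↔ θ ∈ IBr F C) :
    ∑ θ ∈ s, ex σ (ε θ) = 1 := by
  have h0 : ex σ (dl F (1 : G)) = 1 := ex_dl_one σ
  have hd : Sp C (dl F (1 : G)) := by
    intro g hg
    rw [dl, if_neg]
    rintro rfl
    exact hg C.one_mem
  rw [← ex_sum, ← h0]
  apply Rd.eq E.good E.nC E.le hσ _ hd
  · intro k ρ hρ
    have e : ex ρ (dl F (1 : G)) = 1 := ex_dl_one ρ
    rw [e, ex_sum, Finset.sum_eq_single (tr ρ)]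
    · exact ((E.eps _ ⟨k, ρ, hρ, rfl⟩).2 k ρ hρ).1 rfl
    · intro θ hθ hne
      exact ((E.eps θ ((hs θ).1 hθ)).2 k ρ hρ).2 (Ne.symm hne)
    · intro h
      exact absurd ((hs _).2 ⟨k, ρ, hρ, rfl⟩) h
  · intro g hg
    rw [Finset.sum_apply]
    exact Finset.sum_eq_zero fun θ hθ => (E.eps θ ((hs θ).1 hθ)).1 g hg

/-- the corner: a representation of the stabiliser -/
theorem Env.corner (hσ : IsIrr σ) {θ : C → F} (hθ : θ ∈ IBr F C) (h0 : ex σ (ε θ) ≠ 0) :
    ∃ (r : ℕ) (Q : Matrix (Fin n) (Fin r) F) (P : Matrix (Fin r) (Fin n) F)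
      (τ : (X ⊓ stC E.nC θ : Subgroup G) →* Matrix (Fin r) (Fin r) F), IsIrr τ ∧ P * Q = 1 ∧
      Q * P = ex σ (ε θ) ∧ (∀ (y : (X ⊓ stC E.nC θ : Subgroup G)) (hy : (y : G) ∈ X),
        τ y = P * σ ⟨y, hy⟩ * Q ∧ σ ⟨y, hy⟩ * (Q * P) = Q * P * σ ⟨y, hy⟩) ∧
      (∀ a : G → F, ex τ a = P * ex σ a * Q) ∧
      ∀ (k : ℕ) (ρ : C →* Matrix (Fin k) (Fin k) F), IsIrr ρ → tr ρ = θ → Ov ρ τ := by
  obtain ⟨r, Q, P, hr, hPQ, hQP⟩ := H75.idem_factor (ex σ (ε θ)) (E.idem hσ hθ) h0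
  have hst : ∀ (y : X), (y : G) ∈ stC E.nC θ → σ y * (Q * P) = Q * P * σ y := by
    intro y hy
    rw [hQP, E.move hσ hθ y, (mem_stC E.nC).1 hy]
  have hoff : ∀ (y : X), (y : G) ∉ stC E.nC θ → P * σ y * Q = 0 := by
    intro y hy
    have h1 : Q * P * σ y * (Q * P) = 0 := by
      rw [hQP, mul_assoc, E.move hσ hθ y, ← mul_assoc,
        E.orth hσ hθ (ac_mem E.nC _ hθ), zero_mul]
      intro h
      exact hy ((mem_stC E.nC).2 h.symm)
    calc P * σ y * Q = (P * Q) * P * σ y * (Q * (P * Q)) := by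
          rw [hPQ, Matrix.one_mul, Matrix.mul_one]
      _ = P * (Q * P * σ y * (Q * P)) * Q := by simp only [Matrix.mul_assoc]
      _ = 0 := by rw [h1, Matrix.mul_zero, Matrix.zero_mul]
  have hle : (X ⊓ stC E.nC θ : Subgroup G) ≤ X := inf_le_left
  let τ : (X ⊓ stC E.nC θ : Subgroup G) →* Matrix (Fin r) (Fin r) F :=
    { toFun := fun y => P * σ ⟨y, hle y.2⟩ * Q
      map_one' := by
        have e : (⟨((1 : (X ⊓ stC E.nC θ : Subgroup G)) : G), hle (one_mem _)⟩ : X) = 1 := rfl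
        rw [e, map_one, Matrix.mul_one, hPQ]
      map_mul' := by
        intro y z
        have e : (⟨((y * z : (X ⊓ stC E.nC θ : Subgroup G)) : G), hle (y * z).2⟩ : X) =
          ⟨y, hle y.2⟩ * ⟨z, hle z.2⟩ := rfl
        rw [e, map_mul]
        have h1 := hst ⟨z, hle z.2⟩ z.2.2
        calc P * (σ ⟨y, hle y.2⟩ * σ ⟨z, hle z.2⟩) * Q
            = P * (σ ⟨y, hle y.2⟩ * σ ⟨z, hle z.2⟩) * (Q * (P * Q)) := by
              rw [hPQ, Matrix.mul_one]
          _ = P * σ ⟨y, hle y.2⟩ * (σ ⟨z, hle z.2⟩ * (Q * P)) * Q := by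
              simp only [Matrix.mul_assoc]
          _ = P * σ ⟨y, hle y.2⟩ * (Q * P * σ ⟨z, hle z.2⟩) * Q := by rw [h1]
          _ = P * σ ⟨y, hle y.2⟩ * Q * (P * σ ⟨z, hle z.2⟩ * Q) := by
              simp only [Matrix.mul_assoc] }
  have hval : ∀ a : G → F, ex τ a = P * ex σ a * Q := by
    intro a
    have := Fintype.ofFinite X
    have := Fintype.ofFinite (X ⊓ stC E.nC θ : Subgroup G)
    rw [ex_eq, ex_eq, Matrix.mul_sum, Matrix.sum_mul]
    apply Fintype.sum_of_injective (fun y : (X ⊓ stC E.nC θ : Subgroup G) => (⟨y, hle y.2⟩ : X))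
    · intro y z hyz
      exact Subtype.ext (congrArg (fun z : X => (z : G)) hyz)
    · intro x hx
      rw [Matrix.mul_smul, Matrix.smul_mul, hoff, smul_zero]
      intro h
      exact hx ⟨⟨x, x.2, h⟩, rfl⟩
    · intro y
      rw [Matrix.mul_smul, Matrix.smul_mul]
      rfl
  refine ⟨r, Q, P, τ, ⟨hr, ?_⟩, hPQ, hQP, fun y hy => ⟨rfl, hst ⟨y, hy⟩ y.2.2⟩, hval, ?_⟩
  · rw [eq_top_iff]
    rintro B -
    obtain ⟨z, hz⟩ := (H20.lift_surjective σ).2 hσ.2 (Q * B * P)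
    obtain ⟨a, rfl⟩ := H20.toMA_surjective z
    rw [H20.lift_toMA] at hz
    have h1 := hval (fun g => open Classical in if h : g ∈ X then a ⟨g, h⟩ else 0)
    rw [ex_ext0, hz] at h1
    have h2 : P * (Q * B * P) * Q = B := by
      calc P * (Q * B * P) * Q = (P * Q) * B * (P * Q) := by simp only [Matrix.mul_assoc]
        _ = B := by rw [hPQ, Matrix.one_mul, Matrix.mul_one]
    rw [h2] at h1
    rw [← h1]
    have := Fintype.ofFinite (X ⊓ stC E.nC θ : Subgroup G)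
    rw [ex_eq]
    exact Submodule.sum_mem _ fun t _ => Submodule.smul_mem _ _ (Submodule.subset_span ⟨t, rfl⟩)
  · intro k ρ hρ hρθ a ha hz
    rw [hval]
    obtain ⟨h1, h2⟩ := E.eps θ hθ
    have h3 : Rd C (mulF (ε θ) a) := by
      refine ⟨sp_mulF h1 ha, fun m ρ' hρ' => ?_⟩
      rw [ex_mulF_left ρ' h1]
      by_cases h : tr ρ' = θ
      · have h4 : ev ρ (fun x : C => a x) = Matrix.scalar (Fin k) 0 := by
          rw [map_zero]; exact hz
        have h5 := ev_eq_of_tr E.good hρ hρ' (hρθ.trans h.symm) _ _ h4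
        have h6 : ex ρ' a = 0 := by rw [ex, h5, map_zero]
        rw [h6, mul_zero]
      · rw [(h2 m ρ' hρ').2 h, zero_mul]
    have h4 := h3.zero E.good E.nC E.le hσ
    rw [ex_mulF_left σ (h1.mono E.le), ← hQP] at h4
    calc P * ex σ a * Q = (P * Q) * P * ex σ a * Q := by rw [hPQ, Matrix.one_mul]
      _ = P * (Q * P * ex σ a) * Q := by simp only [Matrix.mul_assoc]
      _ = 0 := by rw [h4, Matrix.mul_zero, Matrix.zero_mul]

end corner

end Pool.Agent.PP.H67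
end
end -- Pool.Agent.Helper67_PP.Crn

section -- Pool.Agent.Helper67_PP.Cls

/-!
SI1, module CLS: the Clifford correspondence and the formula for the `ℓ`-numbers.
-/

open scoped BigOperators

set_option linter.unusedSectionVars false

noncomputable section

namespace Pool.Agent.PP.H67

open Pool.Agent.Helper51_AWC Pool.Agent.Helper79_WRA Pool.Agent.PP

variable {F G : Type} [Field F] [Group G] [Finite G]

section

variable {ℓ : ℕ} {C X : Subgroup G} {n : ℕ} {ε : (C → F) → G → F} (E : Env ℓ C X ε)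

include E

/-- the constituents of one irreducible representation form one orbit -/
theorem Env.orbit {σ : X →* Matrix (Fin n) (Fin n) F} (hσ : IsIrr σ) {θ₀ θ : C → F}
    (hθ₀ : θ₀ ∈ IBr F C) (hθ : θ ∈ IBr F C) (h₀ : ex σ (ε θ₀) ≠ 0) (h : ex σ (ε θ) ≠ 0) :
    ∃ g : X, ac E.nC g θ₀ = θ := by
  classical
  have hfin : (IBr F C).Finite := (H20.ibf ℓ F E.good C).1
  by_contra hcon
  push Not at hcon
  set T : Finset (C → F) := hfin.toFinset.filter (fun θ' => ∃ g : X, ac E.nC g θ₀ = θ') with hT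
  have hTm : ∀ θ', θ' ∈ T ↔ θ' ∈ IBr F C ∧ ∃ g : X, ac E.nC g θ₀ = θ' := by
    intro θ'
    rw [hT, Finset.mem_filter, Set.Finite.mem_toFinset]
  have hTg : ∀ (g : X) θ', θ' ∈ T → ac E.nC g θ' ∈ T := by
    intro g θ' h1
    rw [hTm] at h1 ⊢
    obtain ⟨h2, g', rfl⟩ := h1
    exact ⟨ac_mem E.nC _ h2, g * g', by rw [ac_mul]; rfl⟩
  have hcomm : ∀ g : X, (∑ θ' ∈ T, ex σ (ε θ')) * σ g = σ g * ∑ θ' ∈ T, ex σ (ε θ') := by
    intro g
    rw [Finset.mul_sum, Finset.sum_mul]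
    symm
    apply Finset.sum_bij (fun θ' _ => ac E.nC (g : G) θ')
    · intro θ' h1
      exact hTg g θ' h1
    · intro θ' _ θ'' _ h1
      have h2 := congrArg (ac E.nC ((g : G)⁻¹)) h1
      rw [ac_mul, ac_mul, inv_mul_cancel, ac_one, ac_one] at h2
      exact h2
    · intro θ' h1
      refine ⟨ac E.nC ((g⁻¹ : X) : G) θ', hTg g⁻¹ θ' h1, ?_⟩
      rw [ac_mul]
      have : (g : G) * ((g⁻¹ : X) : G) = 1 := by simp
      rw [this, ac_one]
    · intro θ' h1
      exact E.move hσ ((hTm θ').1 h1).1 g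
  obtain ⟨w, hw⟩ := schur hσ _ hcomm
  have h1 : (∑ θ' ∈ T, ex σ (ε θ')) * ex σ (ε θ₀) = ex σ (ε θ₀) := by
    rw [Finset.sum_mul, Finset.sum_eq_single θ₀]
    · exact E.idem hσ hθ₀
    · intro θ' h1 hne
      exact E.orth hσ ((hTm θ').1 h1).1 hθ₀ hne
    · intro h1
      exact absurd ((hTm θ₀).2 ⟨hθ₀, 1, by
        have : ((1 : X) : G) = 1 := rfl
        rw [this, ac_one]⟩) h1
  have h2 : (∑ θ' ∈ T, ex σ (ε θ')) * ex σ (ε θ) = 0 := by
    rw [Finset.sum_mul]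
    apply Finset.sum_eq_zero
    intro θ' h1
    apply E.orth hσ ((hTm θ').1 h1).1 hθ
    rintro rfl
    obtain ⟨-, g, hg⟩ := (hTm θ').1 h1
    exact hcon g hg
  rw [hw, Matrix.scalar_apply, ← Matrix.smul_eq_diagonal_mul] at h1 h2
  have h3 : w ≠ 0 := by
    rintro rfl
    rw [zero_smul] at h1
    exact h₀ h1.symm
  exact h ((smul_eq_zero.1 h2).resolve_left h3)

theorem Env.exists_con {σ : X →* Matrix (Fin n) (Fin n) F} (hσ : IsIrr σ) :
    ∃ θ ∈ IBr F C, ex σ (ε θ) ≠ 0 := by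
  classical
  have hfin : (IBr F C).Finite := (H20.ibf ℓ F E.good C).1
  by_contra hcon
  push Not at hcon
  have h1 := E.sum hσ hfin.toFinset (fun θ => Set.Finite.mem_toFinset hfin)
  rw [Finset.sum_eq_zero (fun θ hθ => hcon θ ((Set.Finite.mem_toFinset hfin).1 hθ))] at h1
  have : Nonempty (Fin n) := ⟨⟨0, hσ.1⟩⟩
  exact zero_ne_one h1

open Classical in
/-- the orders of the stabilisers add up to the order of the group -/
theorem Env.card_sum {σ : X →* Matrix (Fin n) (Fin n) F} (hσ : IsIrr σ) (s : Finset (C → F))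
    (hs : ∀ θ, θ ∈ s ↔ θ ∈ IBr F C) :
    ∑ θ ∈ s.filter (fun θ => ex σ (ε θ) ≠ 0), Nat.card (X ⊓ stC E.nC θ : Subgroup G) =
      Nat.card X := by
  have hX := Fintype.ofFinite X
  obtain ⟨θ₀, hθ₀, h₀⟩ := E.exists_con hσ
  rw [Nat.card_eq_fintype_card (α := X), ← Finset.card_univ,
    Finset.card_eq_sum_card_fiberwise (f := fun g : X => ac E.nC (g : G) θ₀)
      (t := s.filter (fun θ => ex σ (ε θ) ≠ 0))]
  · apply Finset.sum_congr rfl
    intro θ hθ
    rw [Finset.mem_filter, hs] at hθ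
    obtain ⟨h, hh⟩ := E.orbit hσ hθ₀ hθ.1 h₀ hθ.2
    symm
    rw [← Fintype.card_coe, ← Nat.card_eq_fintype_card]
    apply Nat.card_congr
    have hmem : ∀ g : X, g ∈ (Finset.univ.filter (fun g : X => ac E.nC (g : G) θ₀ = θ)) ↔
        ac E.nC (g : G) θ₀ = θ := by
      intro g
      rw [Finset.mem_filter]
      exact ⟨fun h => h.2, fun h => ⟨Finset.mem_univ _, h⟩⟩
    exact
      { toFun := fun g => ⟨g.1 * (h : G)⁻¹, by
          refine ⟨X.mul_mem g.1.2 (X.inv_mem h.2), (mem_stC E.nC).2 ?_⟩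
          have h1 := (hmem g.1).1 g.2
          rw [← ac_mul]
          have h2 : ac E.nC ((h : G)⁻¹) θ = θ₀ := by
            rw [← hh, ac_mul, inv_mul_cancel, ac_one]
          rw [h2, h1]⟩
        invFun := fun k => ⟨⟨k.1 * h, X.mul_mem k.2.1 h.2⟩, by
          rw [hmem]
          show ac E.nC ((k : G) * h) θ₀ = θ
          rw [← ac_mul, hh]
          exact (mem_stC E.nC).1 k.2.2⟩
        left_inv := by
          intro g
          apply Subtype.ext
          apply Subtype.ext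
          show (g.1 : G) * (h : G)⁻¹ * h = g.1
          group
        right_inv := by
          intro k
          apply Subtype.ext
          show (k : G) * h * (h : G)⁻¹ = k
          group }
  · intro g _
    show ac E.nC (g : G) θ₀ ∈ (s.filter (fun θ => ex σ (ε θ) ≠ 0) : Set (C → F))
    rw [Finset.mem_coe, Finset.mem_filter, hs]
    refine ⟨ac_mem E.nC _ hθ₀, fun h => h₀ ?_⟩
    have h1 := E.move hσ hθ₀ g
    rw [h, zero_mul] at h1
    calc ex σ (ε θ₀) = σ g⁻¹ * (σ g * ex σ (ε θ₀)) := by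
          rw [← mul_assoc, ← map_mul, inv_mul_cancel, map_one, one_mul]
      _ = 0 := by rw [h1, mul_zero]

/-- the trace of the corner -/
theorem Env.tr_corner {σ : X →* Matrix (Fin n) (Fin n) F} {θ : C → F} {r : ℕ}
    {Q : Matrix (Fin n) (Fin r) F} {P : Matrix (Fin r) (Fin n) F}
    {τ : (X ⊓ stC E.nC θ : Subgroup G) →* Matrix (Fin r) (Fin r) F}
    (hQP : Q * P = ex σ (ε θ))
    (hτ : ∀ (y : (X ⊓ stC E.nC θ : Subgroup G)) (hy : (y : G) ∈ X), τ y = P * σ ⟨y, hy⟩ * Q) :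
    tr τ = fun y : (X ⊓ stC E.nC θ : Subgroup G) =>
      actF (fun t : X => ε θ t) (tr σ) ⟨y, inf_le_left (b := stC E.nC θ) y.2⟩ := by
  funext y
  rw [H20.actF_tr, tr, hτ y (inf_le_left (b := stC E.nC θ) y.2), Matrix.trace_mul_comm,
    ← Matrix.mul_assoc, hQP]
  rfl

/-- every irreducible representation of the stabiliser over `ρ` is a corner -/
theorem Env.surj {θ : C → F} {k m : ℕ} {ρ : C →* Matrix (Fin k) (Fin k) F} (hρ : IsIrr ρ)
    (hρθ : tr ρ = θ) {τ₀ : (X ⊓ stC E.nC θ : Subgroup G) →* Matrix (Fin m) (Fin m) F}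
    (hτ₀ : IsIrr τ₀) (hov₀ : Ov ρ τ₀) :
    ∃ (n : ℕ) (σ : X →* Matrix (Fin n) (Fin n) F), IsIrr σ ∧ ex σ (ε θ) ≠ 0 ∧
      (fun y : (X ⊓ stC E.nC θ : Subgroup G) =>
        actF (fun t : X => ε θ t) (tr σ) ⟨y, inf_le_left (b := stC E.nC θ) y.2⟩) = tr τ₀ := by
  classical
  have hF := E.good
  have hθ : θ ∈ IBr F C := ⟨k, ρ, hρ, hρθ.symm⟩
  by_contra hcon
  push Not at hcon
  -- representatives of the irreducible characters over `θ`
  have hfin : (IBr F X).Finite := (H20.ibf ℓ F hF X).1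
  let I : Type := {ψ : X → F // ψ ∈ IBr F X ∧ actF (fun t : X => ε θ t) ψ ≠ 0}
  have hI : Finite I := Set.Finite.subset hfin (fun ψ h => h.1)
  have hch : ∀ i : I, ∃ (n : ℕ) (σ : X →* Matrix (Fin n) (Fin n) F), IsIrr σ ∧ i.1 = tr σ :=
    fun i => i.2.1
  choose n σ hσ htσ using hch
  have h0 : ∀ i : I, ex (σ i) (ε θ) ≠ 0 := by
    intro i h
    apply i.2.2
    rw [htσ i]
    exact (H75.ev_zero_iff (hσ i) _).1 h
  choose r Q P τ hτ hPQ hQP hτv hval hov using fun i => E.corner (hσ i) hθ (h0 i)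
  have htr := fun i => E.tr_corner (hQP i) (fun y hy => (hτv i y hy).1)
  -- the new representation is different from all of them
  have hnew : ∀ i : I, tr (τ i) ≠ tr τ₀ := by
    intro i heq
    apply hcon (n i) (σ i) (hσ i) (h0 i)
    rw [← heq, htr i]
  have hinj : ∀ i j : I, tr (τ i) = tr (τ j) → i = j := by
    intro i j heq
    by_contra hne
    have hne' : tr (σ i) ≠ tr (σ j) := by
      rw [← htσ i, ← htσ j]
      exact fun h => hne (Subtype.ext h)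
    obtain ⟨a, ha, ha'⟩ := H75.sep H20.ibj hF (hσ i) (hσ j) hne'
    have e1 : ex (τ i) (fun g => if h : g ∈ X then a ⟨g, h⟩ else 0) = 1 := by
      rw [hval, ex_ext0, ha, Matrix.mul_one, hPQ]
    have e2 : ex (τ j) (fun g => if h : g ∈ X then a ⟨g, h⟩ else 0) = 0 := by
      rw [hval, ex_ext0, ha', Matrix.mul_zero, Matrix.zero_mul]
    have e3 := ev_eq_of_tr hF (hτ i) (hτ j) heq _ 1 (by rw [map_one]; exact e1)
    have e4 : (1 : Matrix (Fin (r j)) (Fin (r j)) F) = 0 := by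
      rw [map_one] at e3
      rw [← e3]
      exact e2
    have : Nonempty (Fin (r j)) := ⟨⟨0, (hτ j).1⟩⟩
    exact one_ne_zero e4
  -- the separating element
  let N : Option I → ℕ := fun b => b.elim m r
  let S : ∀ b : Option I, (X ⊓ stC E.nC θ : Subgroup G) →* Matrix (Fin (N b)) (Fin (N b)) F :=
    fun b => match b with
      | none => τ₀
      | some i => τ i
  let B : ∀ b : Option I, Matrix (Fin (N b)) (Fin (N b)) F :=
    fun b => match b with
      | none => (1 : Matrix (Fin m) (Fin m) F)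
      | some i => (0 : Matrix (Fin (r i)) (Fin (r i)) F)
  have hSirr : ∀ b, IsIrr (S b) := by
    intro b
    cases b with
    | none => exact hτ₀
    | some i => exact hτ i
  have hSinj : Function.Injective (fun b => tr (S b)) := by
    intro b b' hbb
    cases b with
    | none =>
      cases b' with
      | none => rfl
      | some j => exact absurd hbb.symm (hnew j)
    | some i =>
      cases b' with
      | none => exact absurd hbb (hnew i)
      | some j => exact congrArg some (hinj i j hbb)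
  obtain ⟨a, ha⟩ := H20.ibj ℓ F hF (X ⊓ stC E.nC θ : Subgroup G) (Option I) N S hSirr hSinj B
  have ha0 : ev τ₀ a = 1 := ha none
  have hai : ∀ i, ev (τ i) a = 0 := fun i => ha (some i)
  -- `b = ε a ε`
  set a' : G → F := fun g => if h : g ∈ (X ⊓ stC E.nC θ : Subgroup G) then a ⟨g, h⟩ else 0
    with ha'
  have hspa : Sp (X ⊓ stC E.nC θ) a' := fun g hg => dif_neg hg
  obtain ⟨hε1, hε2⟩ := E.eps θ hθ
  have hCY : C ≤ X ⊓ stC E.nC θ := by
    refine le_inf E.le ?_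
    intro c hc
    rw [mem_stC]
    obtain ⟨k, ρ, hρ, rfl⟩ := hθ
    funext x
    rw [ac, tr, tr]
    have e : crep E.nC c⁻¹ x = (⟨c, hc⟩ : C)⁻¹ * x * ⟨c, hc⟩ := by
      apply Subtype.ext
      show c⁻¹ * (x : G) * c⁻¹⁻¹ = c⁻¹ * x * c
      rw [inv_inv]
    rw [e, map_mul, map_mul, Matrix.trace_mul_comm, ← Matrix.mul_assoc, ← map_mul,
      mul_inv_cancel, map_one, Matrix.one_mul]
  have hεY : Sp (X ⊓ stC E.nC θ) (ε θ) := hε1.mono hCY
  set b : G → F := mulF (ε θ) (mulF a' (ε θ)) with hb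
  have hspb : Sp (X ⊓ stC E.nC θ) b := sp_mulF hεY (sp_mulF hspa hεY)
  have hspbX : Sp X b := hspb.mono inf_le_left
  have hbσ : ∀ (k : ℕ) (σ' : X →* Matrix (Fin k) (Fin k) F), IsIrr σ' →
      ev σ' (fun x : X => b x) = 0 := by
    intro k σ' hσ'
    have e1 : ∀ {k : ℕ} (σ' : X →* Matrix (Fin k) (Fin k) F),
        ex σ' b = ex σ' (ε θ) * (ex σ' a' * ex σ' (ε θ)) := by
      intro k σ'
      rw [hb, ex_mulF_left σ' (hε1.mono E.le), ex_mulF_right σ' (hε1.mono E.le)]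
    show ex σ' b = 0
    by_cases h : ex σ' (ε θ) = 0
    · rw [e1, h, zero_mul]
    · have h1 : actF (fun t : X => ε θ t) (tr σ') ≠ 0 := fun h' =>
        h ((H75.ev_zero_iff hσ' _).2 h')
      let i : I := ⟨tr σ', ⟨k, σ', hσ', rfl⟩, h1⟩
      have h2 : tr σ' = tr (σ i) := htσ i
      have h3 : ex (σ i) b = Matrix.scalar (Fin (n i)) 0 := by
        rw [map_zero, e1, ← hQP i]
        have h4 : ex (τ i) a' = 0 := by
          rw [ha', ex_ext0]
          exact hai i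
        rw [hval] at h4
        calc Q i * P i * (ex (σ i) a' * (Q i * P i))
            = Q i * (P i * ex (σ i) a' * Q i) * P i := by simp only [Matrix.mul_assoc]
          _ = 0 := by rw [h4, Matrix.mul_zero, Matrix.zero_mul]
      have h4 := ev_eq_of_tr hF (hσ i) hσ' h2.symm _ 0 h3
      rw [map_zero] at h4
      exact h4
  obtain ⟨j, hj⟩ := H20.ibn ℓ F hF X (fun x : X => b x) hbσ
  have h1 : (mulF b)^[j] b = 0 := by
    funext g
    by_cases hg : g ∈ X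
    · have := iterate_sub (b := b) hspbX j ⟨g, hg⟩
      rw [hj] at this
      exact this
    · exact sp_iterate hspbX hspbX j g hg
  have h2 := ex_iterate τ₀ hspb j (b := b)
  rw [h1, ex_zero] at h2
  have h3 : ex τ₀ (ε θ) = 1 := by
    have h4 : ex τ₀ (ε θ - dl F (1 : G)) = 0 := by
      apply hov₀
      · intro g hg
        rw [Pi.sub_apply, hε1 g hg, dl, if_neg, sub_zero]
        rintro rfl
        exact hg C.one_mem
      · rw [ex_sub, (hε2 k ρ hρ).1 hρθ, ex_dl_one, sub_self]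
    rw [ex_sub, ex_dl_one] at h4
    exact sub_eq_zero.1 h4
  have h4 : ex τ₀ b = 1 := by
    rw [hb, ex_mulF_left τ₀ hεY, ex_mulF_left τ₀ hspa, h3, mul_one, one_mul, ha', ex_ext0]
    exact ha0
  rw [h4, one_pow, mul_one] at h2
  have : Nonempty (Fin m) := ⟨⟨0, hτ₀.1⟩⟩
  exact one_ne_zero h2.symm

/-- the Clifford correspondence -/
theorem Env.corr {θ : C → F} (hθ : θ ∈ IBr F C) {e : G → F} (he : IsCl e) :
    {ψ : X → F | ψ ∈ IBr F X ∧ actF (fun t : X => ε θ t) ψ ≠ 0 ∧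
      actF (fun t : X => e t) ψ = ψ}.ncard = (LT (X ⊓ stC E.nC θ) θ e).ncard := by
  classical
  have hF := E.good
  have heX : IsCl (fun t : X => e t) := fun x y => he x y
  have heY : IsCl (fun t : (X ⊓ stC E.nC θ : Subgroup G) => e t) := fun x y => he x y
  -- the scalar of `e`
  have hsc : ∀ {n : ℕ} {σ : X →* Matrix (Fin n) (Fin n) F}, IsIrr σ → ∀ {r : ℕ}
      {Q : Matrix (Fin n) (Fin r) F} {P : Matrix (Fin r) (Fin n) F}
      {τ : (X ⊓ stC E.nC θ : Subgroup G) →* Matrix (Fin r) (Fin r) F}, P * Q = 1 →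
      (∀ a : G → F, ex τ a = P * ex σ a * Q) → ∀ w : F, ex σ e = Matrix.scalar (Fin n) w →
      ex τ e = Matrix.scalar (Fin r) w := by
    intro n σ hσ r Q P τ hPQ hval w hw
    rw [hval, hw, Matrix.scalar_apply, ← Matrix.smul_one_eq_diagonal, Matrix.mul_smul,
      Matrix.mul_one, Matrix.smul_mul, hPQ, Matrix.scalar_apply, Matrix.smul_one_eq_diagonal]
  apply Set.ncard_congr (fun ψ _ => fun y : (X ⊓ stC E.nC θ : Subgroup G) =>
    actF (fun t : X => ε θ t) ψ ⟨y, inf_le_left (b := stC E.nC θ) y.2⟩)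
  · rintro ψ ⟨⟨n, σ, hσ, rfl⟩, h0, h1⟩
    have h0' : ex σ (ε θ) ≠ 0 := fun h => h0 ((H75.ev_zero_iff hσ _).1 h)
    obtain ⟨r, Q, P, τ, hτ, hPQ, hQP, hτv, hval, hov⟩ := E.corner hσ hθ h0'
    have htr := E.tr_corner hQP (fun y hy => (hτv y hy).1)
    rw [← htr]
    obtain ⟨k, ρ, hρ, hρθ⟩ := hθ
    refine ⟨⟨k, r, ρ, τ, hρ, hτ, hρθ.symm, rfl, hov k ρ hρ hρθ.symm⟩, ?_⟩
    obtain ⟨w, hw1, hw2, -⟩ := H20.eig F X n σ hσ _ heX
    have hw : w = 1 := by
      rw [h1] at hw2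
      have h3 := H75.tr_ne_zero hσ
      have h4 : (1 - w) • tr σ = 0 := by rw [sub_smul, one_smul, ← hw2, sub_self]
      rcases smul_eq_zero.1 h4 with h5 | h5
      · exact (sub_eq_zero.1 h5).symm
      · exact absurd h5 h3
    apply H75.actF_one
    have h5 := hsc hσ hPQ hval w hw1
    rw [hw, map_one] at h5
    exact h5
  · rintro ψ ψ' ⟨⟨n, σ, hσ, rfl⟩, h0, h1⟩ ⟨⟨n', σ', hσ', rfl⟩, h0', h1'⟩ heq
    by_contra hne
    have k0 : ex σ (ε θ) ≠ 0 := fun h => h0 ((H75.ev_zero_iff hσ _).1 h)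
    have k0' : ex σ' (ε θ) ≠ 0 := fun h => h0' ((H75.ev_zero_iff hσ' _).1 h)
    obtain ⟨r, Q, P, τ, hτ, hPQ, hQP, hτv, hval, hov⟩ := E.corner hσ hθ k0
    obtain ⟨r', Q', P', τ', hτ', hPQ', hQP', hτv', hval', hov'⟩ := E.corner hσ' hθ k0'
    have htr := E.tr_corner hQP (fun y hy => (hτv y hy).1)
    have htr' := E.tr_corner hQP' (fun y hy => (hτv' y hy).1)
    have hteq : tr τ = tr τ' := by rw [htr, htr']; exact heq
    obtain ⟨a, ha, ha'⟩ := H75.sep H20.ibj hF hσ hσ' hne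
    have e1 : ex τ (fun g => if h : g ∈ X then a ⟨g, h⟩ else 0) = 1 := by
      rw [hval, ex_ext0, ha, Matrix.mul_one, hPQ]
    have e2 : ex τ' (fun g => if h : g ∈ X then a ⟨g, h⟩ else 0) = 0 := by
      rw [hval', ex_ext0, ha', Matrix.mul_zero, Matrix.zero_mul]
    have e3 := ev_eq_of_tr hF hτ hτ' hteq _ 1 (by rw [map_one]; exact e1)
    have e4 : (1 : Matrix (Fin r') (Fin r') F) = 0 := by
      rw [map_one] at e3
      rw [← e3]
      exact e2
    have : Nonempty (Fin r') := ⟨⟨0, hτ'.1⟩⟩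
    exact one_ne_zero e4
  · rintro φ ⟨⟨k, m, ρ, τ₀, hρ, hτ₀, hρθ, rfl, hov₀⟩, he0⟩
    obtain ⟨n, σ, hσ, h0, heq⟩ := E.surj hρ hρθ hτ₀ hov₀
    refine ⟨tr σ, ⟨⟨n, σ, hσ, rfl⟩, fun h => h0 ((H75.ev_zero_iff hσ _).2 h), ?_⟩, heq⟩
    obtain ⟨r, Q, P, τ, hτ, hPQ, hQP, hτv, hval, hov⟩ := E.corner hσ hθ h0
    have htr := E.tr_corner hQP (fun y hy => (hτv y hy).1)
    obtain ⟨w, hw1, hw2, -⟩ := H20.eig F X n σ hσ _ heX
    have h5 := hsc hσ hPQ hval w hw1
    have h6 := ev_eq_of_tr hF hτ hτ₀ (htr.trans heq) _ w h5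
    have h7 : actF (fun t : (X ⊓ stC E.nC θ : Subgroup G) => e t) (tr τ₀) = w • tr τ₀ := by
      funext x
      rw [H20.actF_tr, h6, Matrix.scalar_apply, ← Matrix.smul_eq_diagonal_mul,
        Matrix.trace_smul]
      rfl
    have h8 : w = 1 := by
      rw [he0] at h7
      have h3 := H75.tr_ne_zero hτ₀
      have h4 : (1 - w) • tr τ₀ = 0 := by rw [sub_smul, one_smul, ← h7, sub_self]
      rcases smul_eq_zero.1 h4 with h5 | h5
      · exact (sub_eq_zero.1 h5).symm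
      · exact absurd h5 h3
    rw [hw2, h8, one_smul]

end

end Pool.Agent.PP.H67
end
end -- Pool.Agent.Helper67_PP.Cls

section -- Pool.Agent.Helper67_PP.ClsFin

/-!
SI1: `ClsStmt` and `ClrStmt`.
-/

open scoped BigOperators

set_option linter.unusedSectionVars false

noncomputable section

namespace Pool.Agent.PP.H67

open Pool.Agent.Helper51_AWC Pool.Agent.Helper79_WRA Pool.Agent.PP

theorem cls : ClsStmt := by
  classical
  intro ℓ F _ hF G _ _ C hC X hCX e he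
  obtain ⟨ε, hε⟩ := exists_eps F C hF
  have E : Env ℓ C X ε := ⟨hF, hC, hCX, hε⟩
  have hfin : (IBr F C).Finite := (H20.ibf ℓ F hF C).1
  have hfinX : (IBr F X).Finite := (H20.ibf ℓ F hF X).1
  rw [finsum_mem_eq_finite_toFinset_sum _ hfin]
  have hA : {f : X → F | f ∈ IBr F X ∧ actF (fun t : X => e t) f = f}.Finite :=
    hfinX.subset (fun f h => h.1)
  have h1 : ∀ θ ∈ hfin.toFinset,
      (Nat.card (X ⊓ stC hC θ : Subgroup G) : ℤ) * ((LT (X ⊓ stC hC θ) θ e).ncard : ℤ) =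
        ∑ ψ ∈ hA.toFinset, if actF (fun t : X => ε θ t) ψ ≠ 0 then
          (Nat.card (X ⊓ stC hC θ : Subgroup G) : ℤ) else 0 := by
    intro θ hθ
    rw [← E.corr ((Set.Finite.mem_toFinset hfin).1 hθ) he, ← Finset.sum_filter,
      Finset.sum_const, nsmul_eq_mul, mul_comm]
    congr 2
    have h2 : {ψ : X → F | ψ ∈ IBr F X ∧ actF (fun t : X => ε θ t) ψ ≠ 0 ∧
        actF (fun t : X => e t) ψ = ψ} =
        ((hA.toFinset.filter (fun ψ => actF (fun t : X => ε θ t) ψ ≠ 0) : Finset (X → F)) :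
          Set (X → F)) := by
      ext ψ
      rw [Finset.coe_filter]
      simp only [Set.mem_setOf_eq, Set.Finite.mem_toFinset]
      tauto
    rw [h2, Set.ncard_coe_finset]
  rw [Finset.sum_congr rfl h1, Finset.sum_comm]
  have h2 : ∀ ψ ∈ hA.toFinset, (∑ θ ∈ hfin.toFinset,
      if actF (fun t : X => ε θ t) ψ ≠ 0 then
        (Nat.card (X ⊓ stC hC θ : Subgroup G) : ℤ) else 0) = (Nat.card X : ℤ) := by
    intro ψ hψ
    rw [Set.Finite.mem_toFinset] at hψ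
    obtain ⟨⟨n, σ, hσ, rfl⟩, -⟩ := hψ
    have h3 := E.card_sum hσ hfin.toFinset (fun θ => Set.Finite.mem_toFinset hfin)
    rw [← h3, ← Finset.sum_filter]
    push_cast
    apply Finset.sum_congr _ (fun _ _ => rfl)
    ext θ
    rw [Finset.mem_filter, Finset.mem_filter]
    refine and_congr_right fun _ => not_congr ?_
    exact (H75.ev_zero_iff hσ _).symm
  rw [Finset.sum_congr rfl h2, Finset.sum_const, nsmul_eq_mul, mul_comm]
  congr 2
  rw [lnum, ← Set.ncard_coe_finset]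
  congr 1
  ext ψ
  rw [Set.Finite.coe_toFinset]

theorem clr : ClrStmt := by
  classical
  intro ℓ F _ hF G _ _ C hC n m ρ τ hρ hτ hov
  obtain ⟨ε, hε⟩ := exists_eps F C hF
  have E : Env ℓ C (⊤ : Subgroup G) ε := ⟨hF, hC, le_top, hε⟩
  have hle : ((⊤ : Subgroup G) ⊓ stC E.nC (tr ρ)) ≤ stC hC (tr ρ) := inf_le_right
  set τ₀ : ((⊤ : Subgroup G) ⊓ stC E.nC (tr ρ) : Subgroup G) →* Matrix (Fin m) (Fin m) F :=
    τ.comp (Subgroup.inclusion hle) with hτ₀
  have hsurj : Function.Surjective (Subgroup.inclusion hle) := by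
    rintro ⟨g, hg⟩
    exact ⟨⟨g, Subgroup.mem_inf.2 ⟨Subgroup.mem_top g, hg⟩⟩, rfl⟩
  have hτ₀i : IsIrr τ₀ := irr_comp hτ _ hsurj
  have hbij : ∀ a : G → F, ex τ₀ a = ex τ a := by
    intro a
    have := Fintype.ofFinite ((⊤ : Subgroup G) ⊓ stC E.nC (tr ρ) : Subgroup G)
    have := Fintype.ofFinite (stC hC (tr ρ))
    rw [ex_eq, ex_eq]
    apply Fintype.sum_bijective (Subgroup.inclusion hle)
    · exact ⟨Subgroup.inclusion_injective hle, hsurj⟩
    · intro x; rfl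
  have hov₀ : Ov ρ τ₀ := by
    intro a ha h0
    rw [hbij]
    exact hov a ha h0
  obtain ⟨k, σ, hσ, h0, heq⟩ := E.surj hρ rfl hτ₀i hov₀
  obtain ⟨r, Q, P, τ₁, hτ₁, hPQ, hQP, hτv, hval, -⟩ := E.corner hσ ⟨n, ρ, hρ, rfl⟩ h0
  have htr := E.tr_corner hQP (fun y hy => (hτv y hy).1)
  obtain ⟨A, B, -, hAB, hBA, hA⟩ := H20.ibc ℓ F hF _ r m τ₁ τ₀ hτ₁ hτ₀i (htr.trans heq)
  have hvalA : ∀ a : G → F, ex τ₀ a = A * P * ex σ a * (Q * B) := by
    intro a
    have h1 : A * ex τ₁ a = ex τ₀ a * A := ev_conj hA _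
    calc ex τ₀ a = ex τ₀ a * (A * B) := by rw [hAB, mul_one]
      _ = (ex τ₀ a * A) * B := by rw [Matrix.mul_assoc]
      _ = A * (P * ex σ a * Q) * B := by rw [← h1, hval]
      _ = A * P * ex σ a * (Q * B) := by simp only [Matrix.mul_assoc]
  have htop : Function.Surjective (Subgroup.topEquiv (G := G)).symm.toMonoidHom :=
    (Subgroup.topEquiv (G := G)).symm.surjective
  refine ⟨k, σ.comp (Subgroup.topEquiv (G := G)).symm.toMonoidHom, A * P, Q * B,
    irr_comp hσ _ htop, ?_, ?_, ?_, ?_⟩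
  · calc A * P * (Q * B) = A * (P * Q) * B := by simp only [Matrix.mul_assoc]
      _ = 1 := by rw [hPQ, Matrix.mul_one, hAB]
  · intro g
    have h1 : A * τ₁ ⟨g, Subgroup.mem_top _, g.2⟩ = τ₀ ⟨g, Subgroup.mem_top _, g.2⟩ * A := hA _
    have h2 := (hτv ⟨g, Subgroup.mem_top _, g.2⟩ (Subgroup.mem_top _)).1
    have h3 : τ₀ ⟨g, Subgroup.mem_top _, g.2⟩ = τ g := rfl
    rw [h2, h3] at h1
    show A * P * σ ⟨g, Subgroup.mem_top _⟩ * (Q * B) = τ g
    calc A * P * σ ⟨g, Subgroup.mem_top _⟩ * (Q * B)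
        = A * (P * σ ⟨g, Subgroup.mem_top _⟩ * Q) * B := by simp only [Matrix.mul_assoc]
      _ = τ g := by rw [h1, Matrix.mul_assoc, hAB, Matrix.mul_one]
  · intro g
    have h2 := (hτv ⟨g, Subgroup.mem_top _, g.2⟩ (Subgroup.mem_top _)).2
    show Q * B * (A * P) * σ ⟨g, Subgroup.mem_top _⟩ =
      σ ⟨g, Subgroup.mem_top _⟩ * (Q * B * (A * P))
    have h3 : Q * B * (A * P) = Q * P := by
      calc Q * B * (A * P) = Q * (B * A) * P := by simp only [Matrix.mul_assoc]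
        _ = Q * P := by rw [hBA, Matrix.mul_one]
    rw [h3]
    exact h2.symm
  · intro e w he hw
    have h1 : ex σ e = Matrix.scalar (Fin k) w := by
      rw [← hw]
      have := Fintype.ofFinite G
      have := Fintype.ofFinite (⊤ : Subgroup G)
      rw [ex_eq, ev, finsum_eq_sum_of_fintype]
      apply Fintype.sum_bijective (fun x : (⊤ : Subgroup G) => (x : G))
      · exact ⟨Subtype.val_injective, fun g => ⟨⟨g, Subgroup.mem_top g⟩, rfl⟩⟩
      · intro x; rfl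
    rw [← hbij, hvalA, h1, Matrix.scalar_apply, ← Matrix.smul_one_eq_diagonal, Matrix.mul_smul,
      Matrix.mul_one, Matrix.smul_mul]
    have h2 : A * P * (Q * B) = 1 := by
      calc A * P * (Q * B) = A * (P * Q) * B := by simp only [Matrix.mul_assoc]
        _ = 1 := by rw [hPQ, Matrix.mul_one, hAB]
    rw [h2, Matrix.scalar_apply, Matrix.smul_one_eq_diagonal]

end Pool.Agent.PP.H67
end
end -- Pool.Agent.Helper67_PP.ClsFin
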