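import Pool.Agent.Helper12_AWB.B048
import Pool.Agent.Helper66_PP.StmtsLQ
import Pool.Agent.Helper79_WRA.Basic
import Pool.Agent.Helper98_PP.StmtsR2

/-!
# Merged copies (generated) of the modules

* `Pool.Agent.Helper97_PP.Kri`
* `Pool.Agent.Helper26_PP.Gue`
* `Pool.Agent.Helper33_PP.Swa`
* `Pool.Agent.Helper43_PP.Can`
* `Pool.Agent.Helper47_PP.Fxu`
-/

set_option autoImplicit false

section -- Pool.Agent.Helper97_PP.Kri

/-!
# Squad PP, module KRI: the theorem of Knörr and Robinson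
-/

open scoped BigOperators

noncomputable section

namespace Pool.Agent.PP.H97

open Pool.Agent.Helper51_AWC Pool.Agent.Helper79_WRA Pool.Agent.PP

/-! ### transport along isomorphisms -/

section transport

variable {F H H' : Type} [Field F] [Group H] [Group H']

theorem actF_comp (φ : H ≃* H') (a f : H' → F) :
    actF (fun t => a (φ t)) (fun t => f (φ t)) = fun t => actF a f (φ t) := by
  funext x
  simp only [actF, map_mul]
  exact finsum_comp_equiv φ.toEquiv (f := fun t => a t * f (t * φ x))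

theorem mem_IBr_comp (φ : H ≃* H') {f : H' → F} (hf : f ∈ IBr F H') :
    (fun t => f (φ t)) ∈ IBr F H := by
  obtain ⟨n, ρ, hρ, rfl⟩ := hf
  refine ⟨n, ρ.comp φ.toMonoidHom, ⟨hρ.1, ?_⟩, rfl⟩
  have : Set.range (ρ.comp φ.toMonoidHom) = Set.range ρ := by
    ext x
    constructor
    · rintro ⟨h, rfl⟩
      exact ⟨φ h, rfl⟩
    · rintro ⟨h, rfl⟩
      exact ⟨φ.symm h, by simp⟩
  rw [this]
  exact hρ.2

theorem ncard_comp (φ : H ≃* H') (a : H' → F) :
    {f : H → F | f ∈ IBr F H ∧ actF (fun t => a (φ t)) f = f}.ncard =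
      {f : H' → F | f ∈ IBr F H' ∧ actF a f = f}.ncard := by
  have hinj : Function.Injective (fun (f : H' → F) => (fun t => f (φ t) : H → F)) := by
    intro f g hfg
    funext x
    have := congrFun hfg (φ.symm x)
    simpa using this
  rw [← Set.ncard_image_of_injective _ hinj]
  congr 1
  ext f
  constructor
  · rintro ⟨h1, h2⟩
    refine ⟨fun t => f (φ.symm t), ⟨mem_IBr_comp φ.symm h1, ?_⟩, ?_⟩
    · have h3 := actF_comp φ.symm (fun t => a (φ t)) f
      rw [h2] at h3
      simpa using h3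
    · funext t
      simp
  · rintro ⟨g, ⟨h1, h2⟩, rfl⟩
    refine ⟨mem_IBr_comp φ h1, ?_⟩
    rw [actF_comp, h2]

theorem lnum_map {G : Type} [Group G] (X : Subgroup G) (K : Subgroup X) (a : G → F) :
    lnum K (fun t : X => a t) = lnum (K.map X.subtype) a :=
  ncard_comp (K.equivMapOfInjective X.subtype X.subtype_injective)
    (fun t : K.map X.subtype => a t)

theorem card_map {G : Type} [Group G] (X : Subgroup G) (K : Subgroup X) :
    Nat.card K = Nat.card (K.map X.subtype) :=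
  Nat.card_congr (K.equivMapOfInjective X.subtype X.subtype_injective).toEquiv

theorem lnum_congr {G : Type} [Group G] (X : Subgroup G) {a b : G → F}
    (h : ∀ t ∈ X, a t = b t) : lnum X a = lnum X b := by
  have : (fun t : X => a t) = fun t : X => b t := funext fun t => h t t.2
  rw [lnum, this, lnum]

theorem centralizer_map {G : Type} [Group G] (X : Subgroup G) (u : X) :
    (Subgroup.centralizer ({u} : Set X)).map X.subtype =
      Subgroup.centralizer ({(u : G)} : Set G) ⊓ X := by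
  ext t
  rw [Subgroup.mem_map, Subgroup.mem_inf, Subgroup.mem_centralizer_singleton_iff]
  constructor
  · rintro ⟨s, hs, rfl⟩
    rw [Subgroup.mem_centralizer_singleton_iff] at hs
    exact ⟨congrArg Subtype.val hs, s.2⟩
  · rintro ⟨h1, h2⟩
    refine ⟨⟨t, h2⟩, ?_, rfl⟩
    rw [Subgroup.mem_centralizer_singleton_iff]
    exact Subtype.ext h1

end transport

/-! ### the second main theorem for a subgroup -/

open Classical in
theorem smt_sub (hS : SmtStmt) {ℓ : ℕ} {F : Type} [Field F] (hF : GoodF ℓ F) {G : Type} [Group G]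
    [Fintype G] (X : Subgroup G) (a : G → F) (ha : IsIdem (fun t : X => a t)) :
    Nat.card X * rk (fun t : X => a t) (cfs F X) =
      ∑ u ∈ Finset.univ.filter (fun u : G => ∃ n : ℕ, u ^ ℓ ^ n = 1),
        if u ∈ X then Nat.card (Subgroup.centralizer ({u} : Set G) ⊓ X : Subgroup G) *
          lnum (Subgroup.centralizer ({u} : Set G) ⊓ X) a else 0 := by
  have := Fintype.ofFinite X
  rw [hS ℓ F hF X _ ha, ← Finset.sum_filter]
  apply Finset.sum_bij (fun (u : X) _ => (u : G))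
  · intro u hu
    rw [Finset.mem_filter] at hu
    rw [Finset.mem_filter, Finset.mem_filter]
    obtain ⟨n, hn⟩ := hu.2
    exact ⟨⟨Finset.mem_univ _, n, by rw [← Subgroup.coe_pow, hn, Subgroup.coe_one]⟩, u.2⟩
  · intro u _ v _ h
    exact Subtype.ext h
  · intro u hu
    rw [Finset.mem_filter, Finset.mem_filter] at hu
    obtain ⟨⟨_, n, hn⟩, hu⟩ := hu
    exact ⟨⟨u, hu⟩, Finset.mem_filter.2 ⟨Finset.mem_univ _, n, Subtype.ext hn⟩, rfl⟩
  · intro u _
    rw [card_map, lnum_map, centralizer_map]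

/-! ### chains normalised by an `ℓ`-element -/

section chains

variable {G : Type} [Group G]

theorem mem_stab {d : Finset (Subgroup G)} {g : G} :
    g ∈ stab d ↔ ∀ D ∈ d, g ∈ Subgroup.normalizer (D : Set G) := by
  rw [stab]
  simp only [Subgroup.mem_iInf]

theorem le_tp {d : Finset (Subgroup G)} {D : Subgroup G} (h : D ∈ d) : D ≤ top d :=
  le_sSup h

theorem top_mem {d : Finset (Subgroup G)} (hd : IsChain (· ≤ ·) (d : Set (Subgroup G)))
    (hne : d.Nonempty) : top d ∈ d := by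
  obtain ⟨x, hx, h⟩ := exists_greatest hd hne
  have : top d = x := le_antisymm (sSup_le h) (le_tp hx)
  rw [this]
  exact hx

theorem top_insert [DecidableEq (Subgroup G)] (d : Finset (Subgroup G)) (P : Subgroup G) :
    top (insert P d) = P ⊔ top d := by
  rw [top, Finset.coe_insert, sSup_insert, top]

theorem norm_sup {g : G} {P Q : Subgroup G} (hP : g ∈ Subgroup.normalizer (P : Set G))
    (hQ : g ∈ Subgroup.normalizer (Q : Set G)) :
    g ∈ Subgroup.normalizer ((P ⊔ Q : Subgroup G) : Set G) := by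
  rw [Subgroup.mem_normalizer_iff_map_conj_eq] at hP hQ ⊢
  rw [Subgroup.map_sup, hP, hQ]

theorem cent_le_norm {g u : G} (hg : g ∈ Subgroup.centralizer ({u} : Set G)) :
    g ∈ Subgroup.normalizer ((Subgroup.zpowers u : Subgroup G) : Set G) := by
  rw [Subgroup.mem_centralizer_singleton_iff] at hg
  rw [Subgroup.mem_normalizer_iff_map_conj_eq, MonoidHom.map_zpowers]
  congr 1
  change g * u * g⁻¹ = u
  rw [hg, mul_inv_cancel_right]

theorem isPGroup_zp {ℓ : ℕ} {u : G} (hu : ∃ n : ℕ, u ^ ℓ ^ n = 1) :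
    IsPGroup ℓ (Subgroup.zpowers u) := by
  obtain ⟨n, hn⟩ := hu
  rintro ⟨g, k, rfl⟩
  refine ⟨n, Subtype.ext ?_⟩
  change (u ^ k) ^ ℓ ^ n = 1
  rw [← zpow_natCast, ← zpow_mul, mul_comm, zpow_mul, zpow_natCast, hn, one_zpow]

theorem mem_psubIn_top [Finite G] {ℓ : ℕ} {D : Subgroup G} :
    D ∈ psubIn ℓ (⊤ : Subgroup G) ↔ IsPGroup ℓ D := by
  rw [psubIn, Set.Finite.mem_toFinset, Set.mem_ofPred_eq]
  exact ⟨fun h => h.2, fun h => ⟨le_top, h⟩⟩

theorem stab_insert [DecidableEq (Subgroup G)] {u : G} {d : Finset (Subgroup G)}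
    {P : Subgroup G} (hP : P ∈ d) :
    Subgroup.centralizer ({u} : Set G) ⊓ stab (insert (P ⊔ Subgroup.zpowers u) d) =
      Subgroup.centralizer ({u} : Set G) ⊓ stab d := by
  ext g
  rw [Subgroup.mem_inf, Subgroup.mem_inf, mem_stab, mem_stab]
  refine and_congr_right fun hg => ?_
  constructor
  · intro h D hD
    exact h D (Finset.mem_insert_of_mem hD)
  · intro h D hD
    rcases Finset.mem_insert.1 hD with rfl | hD
    · exact norm_sup (h P hP) (cent_le_norm hg)
    · exact h D hD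

theorem top_insert' [DecidableEq (Subgroup G)] {u : G} {d : Finset (Subgroup G)}
    {P : Subgroup G} (hP : P ∈ d) :
    Subgroup.zpowers u ⊔ top (insert (P ⊔ Subgroup.zpowers u) d) =
      Subgroup.zpowers u ⊔ top d := by
  rw [top_insert]
  have h := le_tp hP
  apply le_antisymm
  · refine sup_le le_sup_left (sup_le (sup_le (h.trans le_sup_right) le_sup_left) le_sup_right)
  · exact sup_le le_sup_left (le_sup_right.trans le_sup_right)

open Classical in
/-- the chains normalised by an `ℓ`-element different from `1` cancel -/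
theorem cancel [Finite G] {ℓ : ℕ} (u : G) (hu : ∃ n : ℕ, u ^ ℓ ^ n = 1) (hu1 : u ≠ 1)
    (W : Subgroup G → Subgroup G → ℤ)
    (hW : ∀ X R : Subgroup G, X ≤ Subgroup.centralizer ({u} : Set G) →
      W X (Subgroup.zpowers u ⊔ R) = W X R) :
    ∑ d ∈ (chainsOn (psubIn ℓ (⊤ : Subgroup G)) ⊥).filter (fun d => u ∈ stab d),
      (-1) ^ (d.card + 1) * W (Subgroup.centralizer ({u} : Set G) ⊓ stab d) (top d) = 0 := by
  set S := (chainsOn (psubIn ℓ (⊤ : Subgroup G)) ⊥).filter (fun d => u ∈ stab d) with hS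
  let m : Finset (Subgroup G) → Subgroup G := fun d => greatest (d.filter (fun P => u ∉ P)) ⊥
  let e : Finset (Subgroup G) → Subgroup G := fun d => m d ⊔ Subgroup.zpowers u
  have hue : ∀ d, u ∈ e d := fun d =>
    (le_sup_right : Subgroup.zpowers u ≤ e d) (Subgroup.mem_zpowers u)
  have hm : ∀ d ∈ S, m d ∈ d ∧ u ∉ m d ∧ ∀ P ∈ d, u ∉ P → P ≤ m d := by
    intro d hd
    rw [hS, Finset.mem_filter, mem_chainsOn] at hd
    obtain ⟨⟨h1, h2, h3⟩, h4⟩ := hd
    have := greatest_spec (dflt := ⊥) (c := d.filter (fun P => u ∉ P))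
      (h3.mono (by intro y hy; exact Finset.mem_of_mem_filter y hy))
      ⟨⊥, Finset.mem_filter.2 ⟨h2, fun h => hu1 (Subgroup.mem_bot.1 h)⟩⟩
    have h5 := Finset.mem_filter.1 this.1
    exact ⟨h5.1, h5.2, fun P hP hP' => this.2 P (Finset.mem_filter.2 ⟨hP, hP'⟩)⟩
  have hne : ∀ d P, u ∉ P → P ≠ e d := by
    intro d P hP h
    exact hP (h ▸ hue d)
  -- members of the toggled chain
  have ht : ∀ (d : Finset (Subgroup G)) (P : Subgroup G), P ≠ e d →
      (P ∈ toggle d (e d) ↔ P ∈ d) := by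
    intro d P hP
    unfold toggle
    split_ifs with h
    · rw [Finset.mem_erase]
      exact ⟨fun h => h.2, fun h => ⟨hP, h⟩⟩
    · rw [Finset.mem_insert]
      exact ⟨fun h => h.resolve_left hP, fun h => Or.inr h⟩
  have hmt : ∀ d, m (toggle d (e d)) = m d := by
    intro d
    have : (toggle d (e d)).filter (fun P => u ∉ P) = d.filter (fun P => u ∉ P) := by
      ext P
      rw [Finset.mem_filter, Finset.mem_filter]
      constructor
      · rintro ⟨h1, h2⟩
        exact ⟨(ht d P (hne d P h2)).1 h1, h2⟩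
      · rintro ⟨h1, h2⟩
        exact ⟨(ht d P (hne d P h2)).2 h1, h2⟩
    change greatest _ ⊥ = greatest _ ⊥
    rw [this]
  have hcmp : ∀ d ∈ S, ∀ P ∈ d, P ≤ e d ∨ e d ≤ P := by
    intro d hd P hP
    obtain ⟨h1, h2, h3⟩ := hm d hd
    by_cases hup : u ∈ P
    · right
      rw [hS, Finset.mem_filter, mem_chainsOn] at hd
      rcases chain_total hd.1.2.2 hP h1 with h | h
      · exact absurd (h hup) h2
      · exact sup_le h ((Subgroup.zpowers_le).2 hup)
    · left
      exact (h3 P hP hup).trans le_sup_left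
  -- the toggled chain and the chain differ by the insertion of `e d`
  have hins : ∀ d ∈ S, ∃ d₀, m d ∈ d₀ ∧ e d ∉ d₀ ∧
      ((d = d₀ ∧ toggle d (e d) = insert (e d) d₀) ∨
        (d = insert (e d) d₀ ∧ toggle d (e d) = d₀)) := by
    intro d hd
    obtain ⟨h1, h2, h3⟩ := hm d hd
    by_cases h : e d ∈ d
    · refine ⟨d.erase (e d), Finset.mem_erase.2 ⟨hne d _ h2, h1⟩, Finset.notMem_erase _ _,
        Or.inr ⟨(Finset.insert_erase h).symm, ?_⟩⟩
      rw [toggle, if_pos h]
    · refine ⟨d, h1, h, Or.inl ⟨rfl, ?_⟩⟩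
      rw [toggle, if_neg h]
  have hstab : ∀ d ∈ S, Subgroup.centralizer ({u} : Set G) ⊓ stab (toggle d (e d)) =
      Subgroup.centralizer ({u} : Set G) ⊓ stab d := by
    intro d hd
    obtain ⟨d₀, h1, h2, ⟨h3, h4⟩ | ⟨h3, h4⟩⟩ := hins d hd
    · rw [h4, stab_insert h1, ← h3]
    · rw [h4]
      conv_rhs => rw [h3, stab_insert h1]
  apply sum_toggle S e
  · intro d hd
    have hd' := hd
    rw [hS, Finset.mem_filter, mem_chainsOn] at hd'
    obtain ⟨⟨h1, h2, h3⟩, h4⟩ := hd'
    have h5 : u ∈ Subgroup.centralizer ({u} : Set G) ⊓ stab (toggle d (e d)) := by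
      rw [hstab d hd]
      exact ⟨Subgroup.mem_centralizer_singleton_iff.2 rfl, h4⟩
    rw [hS, Finset.mem_filter, mem_chainsOn]
    refine ⟨⟨?_, ?_, ?_⟩, h5.2⟩
    · intro P hP
      by_cases hPe : P = e d
      · rw [hPe, mem_psubIn_top]
        obtain ⟨g1, g2, g3⟩ := hm d hd
        apply IsPGroup.to_sup_of_normal_left' (mem_psubIn_top.1 (h1 g1)) (isPGroup_zp hu)
        exact (Subgroup.zpowers_le).2 (mem_stab.1 h4 _ g1)
      · exact h1 ((ht d P hPe).1 hP)
    · exact (ht d _ (hne d ⊥ fun h => hu1 (Subgroup.mem_bot.1 h))).2 h2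
    · unfold toggle
      split_ifs with h
      · exact h3.mono (by intro y hy; exact Finset.mem_of_mem_erase hy)
      · rw [Finset.coe_insert]
        apply h3.insert
        intro P hP _
        exact (hcmp d hd P hP).symm
  · intro d hd
    change m (toggle d (e d)) ⊔ Subgroup.zpowers u = m d ⊔ Subgroup.zpowers u
    rw [hmt]
  · intro d hd
    rw [hstab d hd]
    have hX : Subgroup.centralizer ({u} : Set G) ⊓ stab d ≤
      Subgroup.centralizer ({u} : Set G) := inf_le_left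
    rw [← hW _ (top d) hX, ← hW _ (top (toggle d (e d))) hX]
    obtain ⟨d₀, h1, h2, ⟨h3, h4⟩ | ⟨h3, h4⟩⟩ := hins d hd
    · rw [h4, top_insert' h1, Finset.card_insert_of_notMem h2, ← h3]
      ring
    · have h5 : d.card = d₀.card + 1 := by
        rw [h3, Finset.card_insert_of_notMem h2]
      have h6 : Subgroup.zpowers u ⊔ top d = Subgroup.zpowers u ⊔ top d₀ := by
        rw [h3, top_insert' h1]
      rw [h4, h5, h6]
      ring

theorem mem_cent_iff {t : G} {R : Subgroup G} :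
    t ∈ Subgroup.centralizer (R : Set G) ↔ R ≤ Subgroup.centralizer ({t} : Set G) := by
  rw [Subgroup.mem_centralizer_iff]
  constructor
  · intro h x hx
    rw [Subgroup.mem_centralizer_singleton_iff]
    exact h x hx
  · intro h x hx
    exact Subgroup.mem_centralizer_singleton_iff.1 (h hx)

theorem cent_top_le {d : Finset (Subgroup G)} :
    Subgroup.centralizer ((top d : Subgroup G) : Set G) ≤ stab d := by
  intro g hg
  rw [mem_stab]
  intro D hD
  rw [Subgroup.mem_normalizer_iff_map_conj_eq]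
  have h : ∀ x ∈ D, g * x * g⁻¹ = x := by
    intro x hx
    rw [← Subgroup.mem_centralizer_iff.1 hg x (le_tp hD hx), mul_inv_cancel_right]
  ext x
  rw [Subgroup.mem_map]
  constructor
  · rintro ⟨y, hy, rfl⟩
    change g * y * g⁻¹ ∈ D
    rw [h y hy]
    exact hy
  · intro hx
    exact ⟨x, hx, h x hx⟩

theorem stab_le {d : Finset (Subgroup G)} {D : Subgroup G} (hD : D ∈ d) :
    stab d ≤ Subgroup.normalizer (D : Set G) := fun _ hg => mem_stab.1 hg D hD

theorem br_sup {F : Type} [Field F] {t u : G} (htu : t ∈ Subgroup.centralizer ({u} : Set G))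
    (R : Subgroup G) (a : G → F) : br (Subgroup.zpowers u ⊔ R) a t = br R a t := by
  classical
  have : t ∈ Subgroup.centralizer ((Subgroup.zpowers u ⊔ R : Subgroup G) : Set G) ↔
      t ∈ Subgroup.centralizer (R : Set G) := by
    rw [mem_cent_iff, mem_cent_iff, sup_le_iff]
    refine ⟨fun h => h.2, fun h => ⟨?_, h⟩⟩
    rw [Subgroup.zpowers_le, Subgroup.mem_centralizer_singleton_iff]
    exact (Subgroup.mem_centralizer_singleton_iff.1 htu).symm
  unfold br
  by_cases h : t ∈ Subgroup.centralizer (R : Set G)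
  · rw [if_pos h, if_pos (this.2 h)]
  · rw [if_neg h, if_neg (fun h' => h (this.1 h'))]

end chains

/-- the facts on a chain that are needed for the Brauer map -/
theorem isIdem_br (hB : BrmStmt) {ℓ : ℕ} {F : Type} [Field F] (hF : GoodF ℓ F) {G : Type}
    [Group G] [Finite G] {e : G → F} (he : IsIdem e) {d : Finset (Subgroup G)}
    (hd : d ∈ chainsOn (psubIn ℓ (⊤ : Subgroup G)) ⊥) :
    IsIdem (fun t : stab d => br (top d) e t) := by
  obtain ⟨h1, h2, h3⟩ := mem_chainsOn.1 hd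
  have h4 := top_mem h3 ⟨⊥, h2⟩
  exact (hB ℓ F hF G (top d) (stab d) (mem_psubIn_top.1 (h1 h4)) cent_top_le
    (stab_le h4)).2.2 e he

/-- **Knörr–Robinson for all chains, with Brauer maps** -/
theorem kna (hS : SmtStmt) (hB : BrmStmt) : KnaStmt := by
  intro ℓ F _ hF G _ _ e he
  classical
  have := Fintype.ofFinite G
  let W : Subgroup G → Subgroup G → ℤ := fun X R => (Nat.card X : ℤ) * (lnum X (br R e) : ℤ)
  have h1 : ∀ d ∈ chainsOn (psubIn ℓ (⊤ : Subgroup G)) ⊥, (-1) ^ (d.card + 1) *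
      ((Nat.card (stab d) : ℤ) * (rk (fun t : stab d => br (top d) e t) (cfs F (stab d)) : ℤ)) =
      ∑ u ∈ Finset.univ.filter (fun u : G => ∃ n : ℕ, u ^ ℓ ^ n = 1),
        if u ∈ stab d then (-1) ^ (d.card + 1) *
          W (Subgroup.centralizer ({u} : Set G) ⊓ stab d) (top d) else 0 := by
    intro d hd
    have h := smt_sub hS hF (stab d) (br (top d) e) (isIdem_br hB hF he hd)
    have h' : (Nat.card (stab d) : ℤ) * (rk (fun t : stab d => br (top d) e t)
        (cfs F (stab d)) : ℤ) = ∑ u ∈ Finset.univ.filter (fun u : G => ∃ n : ℕ, u ^ ℓ ^ n = 1),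
        if u ∈ stab d then W (Subgroup.centralizer ({u} : Set G) ⊓ stab d) (top d) else 0 := by
      rw [← Nat.cast_mul, h, Nat.cast_sum]
      refine Finset.sum_congr rfl fun u _ => ?_
      by_cases hu : u ∈ stab d
      · rw [if_pos hu, if_pos hu, Nat.cast_mul]
      · rw [if_neg hu, if_neg hu, Nat.cast_zero]
    rw [h', Finset.mul_sum]
    refine Finset.sum_congr rfl fun u _ => ?_
    rw [mul_ite, mul_zero]
  rw [Finset.sum_congr rfl h1, Finset.sum_comm, Finset.sum_eq_single 1]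
  · refine Finset.sum_congr rfl fun d _ => ?_
    have h2 : Subgroup.centralizer ({1} : Set G) ⊓ stab d = stab d := by
      rw [inf_eq_right]
      intro g _
      rw [Subgroup.mem_centralizer_singleton_iff, one_mul, mul_one]
    rw [if_pos (one_mem _), h2]
  · intro u hu hu1
    rw [← Finset.sum_filter]
    refine cancel u (Finset.mem_filter.1 hu).2 hu1 W ?_
    intro X R hX
    change (Nat.card X : ℤ) * _ = (Nat.card X : ℤ) * _
    rw [lnum_congr X (fun t ht => br_sup (hX ht) R e)]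
  · intro h
    exact absurd (Finset.mem_filter.2 ⟨Finset.mem_univ _, 0, one_pow _⟩) h

/-- For a normal chain the Brauer map may be omitted. -/
theorem lnum_br (hN : NlsStmt) {ℓ : ℕ} {F : Type} [Field F] (hF : GoodF ℓ F) {G : Type}
    [Group G] [Finite G] {e : G → F} (he : IsCl e) (X R : Subgroup G) (hR : IsPGroup ℓ R)
    (hRX : R ≤ X) (hXR : X ≤ Subgroup.normalizer (R : Set G)) :
    lnum X (br R e) = lnum X e := by
  classical
  have hn : (R.subgroupOf X).Normal := by
    rw [Subgroup.normal_subgroupOf_iff hRX]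
    intro g x hg hx
    exact (Subgroup.mem_normalizer_iff.1 (hXR hx) g).1 hg
  have hp : IsPGroup ℓ (R.subgroupOf X) := hR.of_equiv (Subgroup.subgroupOfEquivOfLe hRX).symm
  have hbr : br (R.subgroupOf X) (fun t : X => e t) = fun t : X => br R e t := by
    funext t
    have : t ∈ Subgroup.centralizer ((R.subgroupOf X : Subgroup X) : Set X) ↔
        (t : G) ∈ Subgroup.centralizer (R : Set G) := by
      rw [Subgroup.mem_centralizer_iff, Subgroup.mem_centralizer_iff]
      constructor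
      · intro h x hx
        exact congrArg Subtype.val (h ⟨x, hRX hx⟩ (Subgroup.mem_subgroupOf.2 hx))
      · intro h x hx
        exact Subtype.ext (h x (Subgroup.mem_subgroupOf.1 hx))
    unfold br
    by_cases h : (t : G) ∈ Subgroup.centralizer (R : Set G)
    · rw [if_pos h, if_pos (this.2 h)]
    · rw [if_neg h, if_neg (fun h' => h (this.1 h'))]
  have hcl : IsCl (fun t : X => e t) := fun x y => he x y
  unfold lnum
  congr 1
  ext f
  refine and_congr_right fun hf => ?_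
  obtain ⟨n, ρ, hρ, rfl⟩ := hf
  have h := ((hN ℓ F hF X (R.subgroupOf X) hn hp n ρ hρ).2 _ hcl).2
  rw [hbr] at h
  rw [h]

/-- **Knörr–Robinson** -/
theorem knr (hS : SmtStmt) (hB : BrmStmt) (hC : NchStmt) (hN : NlsStmt) : KnrStmt := by
  intro ℓ F _ hF G _ _ e he
  classical
  have := Fact.mk hF.prime
  rw [kna hS hB ℓ F hF G e he, YY,
    hC ℓ G ⊤ (fun X R => (Nat.card X : ℤ) * (lnum X (br R e) : ℤ)),
    hC ℓ G ⊤ (fun X _ => (Nat.card X : ℤ) * (lnum X e : ℤ))]
  refine Finset.sum_congr rfl fun d hd => ?_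
  rw [Finset.mem_filter, mem_chainsOn] at hd
  obtain ⟨⟨h1, h2, h3⟩, h4⟩ := hd
  have h5 := top_mem h3 ⟨⊥, h2⟩
  change (-1) ^ (d.card + 1) * ((Nat.card (stab d) : ℤ) * (lnum (stab d) (br (top d) e) : ℤ)) =
    (-1) ^ (d.card + 1) * ((Nat.card (stab d) : ℤ) * (lnum (stab d) e : ℤ))
  rw [lnum_br hN hF he.1 (stab d) (top d) (mem_psubIn_top.1 (h1 h5)) ?_ (stab_le h5)]
  intro g hg
  rw [mem_stab]
  intro D hD
  exact h4 D hD hg

end Pool.Agent.PP.H97
end
end -- Pool.Agent.Helper97_PP.Kri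

section -- Pool.Agent.Helper26_PP.Gue

/-!
LQ, module GUE: the relative form of the last step of the theorem of Knörr and Robinson.
-/

open scoped BigOperators

noncomputable section

namespace Pool.Agent.Helper26_PP

open Pool.Agent.PP Pool.Agent.Helper51_AWC Pool.Agent.Helper79_WRA

theorem gue (hC : NchStmt) (hN : NlsStmt) : GueStmt := by
  intro ℓ F _ hF X _ _ Y _ e he
  classical
  have := Fact.mk hF.prime
  rw [YY, hC ℓ X Y (fun X R => (Nat.card X : ℤ) * (lnum X (br R e) : ℤ)),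
    hC ℓ X Y (fun X _ => (Nat.card X : ℤ) * (lnum X e : ℤ))]
  refine Finset.sum_congr rfl fun d hd => ?_
  rw [Finset.mem_filter, mem_chainsOn] at hd
  obtain ⟨⟨h1, h2, h3⟩, h4⟩ := hd
  have h5 := H97.top_mem h3 ⟨⊥, h2⟩
  have h6 : IsPGroup ℓ (PP.top d) := (mem_psubIn.1 (h1 h5)).2
  change (-1) ^ (d.card + 1) * ((Nat.card (stab d) : ℤ) * (lnum (stab d) (br (PP.top d) e) : ℤ)) =
    (-1) ^ (d.card + 1) * ((Nat.card (stab d) : ℤ) * (lnum (stab d) e : ℤ))
  rw [H97.lnum_br hN hF he.1 (stab d) (PP.top d) h6 ?_ (H97.stab_le h5)]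
  intro g hg
  rw [H97.mem_stab]
  intro D hD
  exact h4 D hD hg

end Pool.Agent.Helper26_PP
end
end -- Pool.Agent.Helper26_PP.Gue

section -- Pool.Agent.Helper33_PP.Swa

/-!
# Squad PP, part R2, module SWA: exchange of the two automorphisms of a torus datum
-/

open scoped BigOperators

noncomputable section

namespace Pool.Agent.PP.H33S

open Pool.Agent.Helper51_AWC Pool.Agent.Helper79_WRA Pool.Agent.PP Pool.Agent.PP.H20

variable {F Y : Type} [Field F] [Group Y]

/-! ## Algebra of the automorphisms -/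

theorem tw_apply (α : MulAut Y) (n y : Y) : tw α n y = α (n * y * n⁻¹) := rfl

theorem kap_apply (α β : MulAut Y) (y : Y) : kap α β y = α (β (α⁻¹ (β⁻¹ y))) := rfl

theorem kap_swap (α β : MulAut Y) : kap β α = (kap α β)⁻¹ := by
  unfold kap
  group

theorem mul_conj (α : MulAut Y) (n : Y) : α * MulAut.conj n = MulAut.conj (α n) * α := by
  ext y
  simp [MulAut.mul_apply, MulAut.conj_apply, map_mul]

theorem kap_tw (α β : MulAut Y) (n m : Y) :
    kap (tw α n) (tw β m) = kap α β * MulAut.conj (cc α β n m) := by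
  have h1 : kap (tw α n) (tw β m) =
      MulAut.conj (α (n * β m * (β n)⁻¹)) * kap α β * MulAut.conj (β m)⁻¹ := by
    have e1 : β * MulAut.conj m = MulAut.conj (β m) * β := mul_conj β m
    have e2 : β * MulAut.conj n = MulAut.conj (β n) * β := mul_conj β n
    have e4 : β * (MulAut.conj n)⁻¹ = (MulAut.conj (β n))⁻¹ * β := by
      rw [← map_inv, mul_conj, map_inv, map_inv]
    have e5 : (MulAut.conj m)⁻¹ * β⁻¹ = β⁻¹ * MulAut.conj (β m)⁻¹ := by
      rw [← mul_inv_rev, e1, mul_inv_rev, map_inv]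
    have e6 : MulAut.conj (α (n * β m * (β n)⁻¹)) * α =
        α * MulAut.conj (n * β m * (β n)⁻¹) := (mul_conj _ _).symm
    unfold kap tw
    calc α * MulAut.conj n * (β * MulAut.conj m) * (α * MulAut.conj n)⁻¹ *
          (β * MulAut.conj m)⁻¹
        = α * MulAut.conj n * (β * MulAut.conj m) * (MulAut.conj n)⁻¹ * α⁻¹ *
            ((MulAut.conj m)⁻¹ * β⁻¹) := by rw [mul_inv_rev, mul_inv_rev]; group
      _ = α * MulAut.conj n * MulAut.conj (β m) * (β * (MulAut.conj n)⁻¹) * α⁻¹ *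
            (β⁻¹ * MulAut.conj (β m)⁻¹) := by rw [e1, e5]; group
      _ = α * MulAut.conj (n * β m * (β n)⁻¹) * β * α⁻¹ *
            (β⁻¹ * MulAut.conj (β m)⁻¹) := by
          rw [e4, map_mul MulAut.conj, map_mul MulAut.conj, map_inv MulAut.conj (β n)]; group
      _ = MulAut.conj (α (n * β m * (β n)⁻¹)) * α * β * α⁻¹ *
            (β⁻¹ * MulAut.conj (β m)⁻¹) := by rw [e6]
      _ = MulAut.conj (α (n * β m * (β n)⁻¹)) * (α * β * α⁻¹ * β⁻¹) *
            MulAut.conj (β m)⁻¹ := by group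
  have h2 : MulAut.conj (α (n * β m * (β n)⁻¹)) * kap α β =
      kap α β * MulAut.conj ((kap α β)⁻¹ (α (n * β m * (β n)⁻¹))) := by
    rw [mul_conj, MulAut.apply_inv_self]
  rw [h1, h2, cc, map_mul MulAut.conj, map_inv MulAut.conj, mul_assoc]

theorem kap_cc (α β : MulAut Y) (n m : Y) : cc β α m n = (kap α β (cc α β n m))⁻¹ := by
  have h1 : kap α β (cc α β n m) = α (n * β m * (β n)⁻¹) * (kap α β (β m))⁻¹ := by
    rw [cc, map_mul, MulAut.apply_inv_self, map_inv]
  have h2 : ∀ y, kap α β (β (α y)) = α (β y) := by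
    intro y
    rw [kap_apply, MulAut.inv_apply_self, MulAut.inv_apply_self]
  rw [h1, cc, kap_swap, inv_inv, map_mul, map_mul, map_mul, map_mul, map_inv, map_inv,
    h2, h2]
  simp only [map_mul, map_inv, mul_inv_rev, inv_inv, mul_assoc]

/-! ## Chains fixed by automorphisms -/

theorem fixC_mul {α β : MulAut Y} {d : Finset (Subgroup Y)} (ha : FixC α d) (hb : FixC β d) :
    FixC (α * β) d := by
  intro D hD
  have h : D.map (α * β).toMonoidHom = (D.map β.toMonoidHom).map α.toMonoidHom := by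
    rw [Subgroup.map_map]
    rfl
  rw [h, hb D hD, ha D hD]

theorem fixC_inv {α : MulAut Y} {d : Finset (Subgroup Y)} (ha : FixC α d) : FixC α⁻¹ d := by
  intro D hD
  have h1 := ha D hD
  have h2 : (D.map α.toMonoidHom).map (α⁻¹).toMonoidHom = D := by
    rw [Subgroup.map_map]
    have : (α⁻¹).toMonoidHom.comp α.toMonoidHom = MonoidHom.id Y := by
      ext y
      exact MulAut.inv_apply_self _ α y
    rw [this, Subgroup.map_id]
  rw [h1] at h2
  exact h2

theorem mem_stab {d : Finset (Subgroup Y)} {h : Y} :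
    h ∈ stab d ↔ ∀ D ∈ d, h ∈ Subgroup.normalizer (D : Set Y) := by
  simp [stab, Subgroup.mem_iInf]

theorem stab_map {α : MulAut Y} {d : Finset (Subgroup Y)} (ha : FixC α d) {h : Y}
    (hh : h ∈ stab d) : α h ∈ stab d := by
  rw [mem_stab] at *
  intro D hD
  have hmem : ∀ x, x ∈ D ↔ α x ∈ D := by
    intro x
    constructor
    · intro hx
      have := Subgroup.mem_map_of_mem α.toMonoidHom hx
      rw [ha D hD] at this
      exact this
    · intro hx
      have := Subgroup.mem_map_of_mem (α⁻¹).toMonoidHom hx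
      rw [fixC_inv ha D hD] at this
      have h2 : α⁻¹ (α x) ∈ D := this
      rwa [MulAut.inv_apply_self] at h2
  rw [Subgroup.mem_normalizer_iff]
  intro x
  have h1 := (Subgroup.mem_normalizer_iff.1 (hh D hD)) (α⁻¹ x)
  have e1 : x = α (α⁻¹ x) := (MulAut.apply_inv_self _ α x).symm
  have e2 : α h * x * (α h)⁻¹ = α (h * α⁻¹ x * h⁻¹) := by
    rw [map_mul, map_mul, map_inv, MulAut.apply_inv_self]
  rw [e2]
  constructor
  · intro hx
    rw [e1] at hx
    exact (hmem _).1 (h1.1 ((hmem _).2 hx))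
  · intro hx
    rw [e1]
    exact (hmem _).1 (h1.2 ((hmem _).2 hx))

/-! ## Implementing matrices -/

theorem impl_mul {d : Finset (Subgroup Y)} {n : ℕ} {ρ : stab d →* Matrix (Fin n) (Fin n) F}
    {α β : MulAut Y} {A B : (Matrix (Fin n) (Fin n) F)ˣ} (hb : FixC β d)
    (hA : Impl ρ α A) (hB : Impl ρ β B) : Impl ρ (α * β : MulAut Y) (A * B) := by
  intro h h' e
  have e1 : (h' : Y) = α (⟨β h, stab_map hb h.2⟩ : stab d) := e
  rw [Units.val_mul, mul_assoc, hB h ⟨β h, stab_map hb h.2⟩ rfl, ← mul_assoc, hA _ h' e1,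
    mul_assoc]

theorem impl_inv {d : Finset (Subgroup Y)} {n : ℕ} {ρ : stab d →* Matrix (Fin n) (Fin n) F}
    {α : MulAut Y} {A : (Matrix (Fin n) (Fin n) F)ˣ}
    (hA : Impl ρ α A) : Impl ρ (α⁻¹ : MulAut Y) A⁻¹ := by
  intro h h' e
  have e1 : (h : Y) = α h' := by
    rw [e]
    exact (MulAut.apply_inv_self _ α h).symm
  have h1 := hA h' h e1
  calc (((A⁻¹ : (Matrix (Fin n) (Fin n) F)ˣ)) : Matrix (Fin n) (Fin n) F) * ρ h
      = ((A⁻¹ : (Matrix (Fin n) (Fin n) F)ˣ) : Matrix (Fin n) (Fin n) F) * (ρ h * A) *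
          ((A⁻¹ : (Matrix (Fin n) (Fin n) F)ˣ) : Matrix (Fin n) (Fin n) F) := by
        rw [mul_assoc, mul_assoc, Units.mul_inv, mul_one]
    _ = ρ h' * ((A⁻¹ : (Matrix (Fin n) (Fin n) F)ˣ) : Matrix (Fin n) (Fin n) F) := by
        rw [← h1, ← mul_assoc, Units.inv_mul, one_mul]

/-! ## Units -/

section units

variable [Finite Y]

theorem comm_iff {γ : MulAut Y} {w : Y → F} :
    (∀ n y, w (γ⁻¹ n * y * n⁻¹) = w y) ↔ ∀ n, toMA w * MonoidAlgebra.single n (1 : F) =
      MonoidAlgebra.single (γ⁻¹ n) (1 : F) * toMA w := by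
  constructor
  · intro h n
    rw [toMA_mul_single, single_mul_toMA]
    congr 1
    funext y
    rw [← h n ((γ⁻¹ n)⁻¹ * y), mul_inv_cancel_left]
  · intro h n y
    have h1 := h n
    rw [toMA_mul_single, single_mul_toMA, toMA_inj] at h1
    have h2 := congrFun h1 (γ⁻¹ n * y)
    have h3 : w (γ⁻¹ n * y * n⁻¹) = w ((γ⁻¹ n)⁻¹ * (γ⁻¹ n * y)) := h2
    rw [h3, inv_mul_cancel_left]

theorem unt_inv {f : Y → F} {γ : MulAut Y} {w wi : Y → F} (hf : IsCl f) (h : Unt f γ w wi) :
    Unt f γ⁻¹ wi w := by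
  refine ⟨h.fwi, h.fw, h.unit', h.unit, ?_⟩
  rw [comm_iff]
  intro n
  rw [inv_inv]
  have h1 := comm_iff.1 h.comm (γ n)
  rw [MulAut.inv_apply_self] at h1
  have hw : toMA wi * toMA w = toMA f := by rw [← toMA_mulF, h.unit']
  have hw' : toMA w * toMA wi = toMA f := by rw [← toMA_mulF, h.unit]
  have hfi : toMA f * toMA wi = toMA wi := by rw [← toMA_mulF, h.fwi]
  have hcen := (isCl_iff f).1 hf
  have h2 : toMA wi * (toMA w * MonoidAlgebra.single (γ n) (1 : F)) * toMA wi =
      toMA wi * (MonoidAlgebra.single n (1 : F) * toMA w) * toMA wi := by rw [h1]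
  rw [← mul_assoc, hw, hcen, mul_assoc, hfi] at h2
  rw [h2, mul_assoc, mul_assoc, hw', ← hcen, ← mul_assoc, ← hcen, hfi]

omit [Finite Y] in
theorem cl_of_blk {f : Y → F} (h : IsBlk f) : IsCl f := h.1.1

theorem tor_swap {f : Y → F} {α β : MulAut Y} {w wi : Y → F} (h : Torus f α β w wi) :
    Torus f β α wi w := by
  refine ⟨h.blk, h.fb, h.fa, ?_⟩
  rw [kap_swap]
  exact unt_inv (cl_of_blk h.blk) h.unt

theorem tor_tw {f : Y → F} {α β : MulAut Y} {w wi : Y → F} (h : Torus f α β w wi) (n m : Y) :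
    Torus f (tw α n) (tw β m) (fun y => w (cc α β n m * y))
      (fun y => wi (y * (cc α β n m)⁻¹)) := by
  have hcl := cl_of_blk h.blk
  have hcen := (isCl_iff f).1 hcl
  set c := cc α β n m with hc
  have e1 : toMA (fun y => w (c * y)) = MonoidAlgebra.single c⁻¹ (1 : F) * toMA w := by
    rw [single_mul_toMA, inv_inv]
  have e2 : toMA (fun y => wi (y * c⁻¹)) = toMA wi * MonoidAlgebra.single c (1 : F) :=
    (toMA_mul_single c wi).symm
  have hw : toMA wi * toMA w = toMA f := by rw [← toMA_mulF, h.unt.unit']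
  have hw' : toMA w * toMA wi = toMA f := by rw [← toMA_mulF, h.unt.unit]
  have hfw : toMA f * toMA w = toMA w := by rw [← toMA_mulF, h.unt.fw]
  have hfi : toMA f * toMA wi = toMA wi := by rw [← toMA_mulF, h.unt.fwi]
  have hs1 : MonoidAlgebra.single c⁻¹ (1 : F) * MonoidAlgebra.single c (1 : F) = 1 := by
    rw [MonoidAlgebra.single_mul_single, inv_mul_cancel, mul_one, MonoidAlgebra.one_def]
  have hs2 : MonoidAlgebra.single c (1 : F) * MonoidAlgebra.single c⁻¹ (1 : F) = 1 := by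
    rw [MonoidAlgebra.single_mul_single, mul_inv_cancel, mul_one, MonoidAlgebra.one_def]
  refine ⟨h.blk, ?_, ?_, ?_, ?_, ?_, ?_, ?_⟩
  · intro y
    rw [tw_apply, h.fa, hcl]
  · intro y
    rw [tw_apply, h.fb, hcl]
  · apply toMA_injective
    rw [toMA_mulF, e1, ← mul_assoc, hcen, mul_assoc, hfw]
  · apply toMA_injective
    rw [toMA_mulF, e2, ← mul_assoc, hfi]
  · apply toMA_injective
    rw [toMA_mulF, e1, e2]
    calc MonoidAlgebra.single c⁻¹ (1 : F) * toMA w * (toMA wi * MonoidAlgebra.single c (1 : F))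
        = MonoidAlgebra.single c⁻¹ (1 : F) * ((toMA w * toMA wi) *
            MonoidAlgebra.single c (1 : F)) := by simp only [mul_assoc]
      _ = toMA f := by rw [hw', hcen, ← mul_assoc, hs1, one_mul]
  · apply toMA_injective
    rw [toMA_mulF, e1, e2]
    calc toMA wi * MonoidAlgebra.single c (1 : F) * (MonoidAlgebra.single c⁻¹ (1 : F) * toMA w)
        = toMA wi * (MonoidAlgebra.single c (1 : F) * MonoidAlgebra.single c⁻¹ (1 : F)) *
            toMA w := by simp only [mul_assoc]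
      _ = toMA f := by rw [hs2, mul_one, hw]
  · refine (comm_iff (w := fun y => w (c * y))).2 ?_
    intro x
    rw [e1, mul_assoc, comm_iff.1 h.unt.comm x, kap_tw, ← hc]
    have e3 : (kap α β * MulAut.conj c)⁻¹ x = c⁻¹ * (kap α β)⁻¹ x * c := by
      rw [mul_inv_rev, MulAut.mul_apply, MulAut.conj_inv_apply]
    rw [e3, ← mul_assoc, ← mul_assoc, MonoidAlgebra.single_mul_single,
      MonoidAlgebra.single_mul_single, mul_one]
    congr 2
    rw [mul_inv_cancel_right]

omit [Finite Y] in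
theorem mulF_comp (γ : MulAut Y) (a b : Y → F) :
    mulF (fun y => a (γ y)) (fun y => b (γ y)) = fun y => mulF a b (γ y) := by
  funext x
  unfold mulF
  have h1 := finsum_comp_equiv γ.toEquiv (f := fun t : Y => a t * b (t⁻¹ * γ x))
  rw [← h1]
  apply finsum_congr
  intro t
  have h2 : γ.toEquiv t = γ t := rfl
  change a (γ t) * b (γ (t⁻¹ * x)) = _
  rw [h2, map_mul, map_inv]

/-- the unit is invariant under `κ` -/
theorem unt_fix {f : Y → F} {γ : MulAut Y} {w wi : Y → F} (hf : IsCl f) (h : Unt f γ w wi)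
    (hg : ∀ y, f (γ y) = f y) : ∀ y, w (γ y) = w y := by
  have h1 : mulF (fun y => w (γ y)) w = mulF w w := by
    funext x
    unfold mulF
    have e1 := finsum_comp_equiv (γ⁻¹).toEquiv (f := fun t : Y => w (γ t) * w (t⁻¹ * x))
    rw [← e1]
    have e2 := finsum_comp_equiv ((Equiv.inv Y).trans (Equiv.mulRight x))
      (f := fun t : Y => w t * w (x * t⁻¹))
    have e3 : ∀ t : Y, w (γ ((γ⁻¹).toEquiv t)) * w (((γ⁻¹).toEquiv t)⁻¹ * x) =
        w t * w (x * t⁻¹) := by
      intro t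
      have h2 : (γ⁻¹).toEquiv t = γ⁻¹ t := rfl
      rw [h2, MulAut.apply_inv_self]
      have h3 := h.comm t ((γ⁻¹ t)⁻¹ * x)
      rw [mul_inv_cancel_left] at h3
      rw [h3]
    rw [finsum_congr e3, ← e2]
    apply finsum_congr
    intro t
    have h4 : ((Equiv.inv Y).trans (Equiv.mulRight x)) t = t⁻¹ * x := rfl
    rw [h4, mul_inv_rev, inv_inv, mul_inv_cancel_left, mul_comm]
  have h2 : mulF (fun y => w (γ y)) f = w := by
    rw [← h.unit, ← mulF_assoc, h1, mulF_assoc, h.unit, ← mulF_comm_of_cl hf, h.fw]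
  have h3 : mulF (fun y => w (γ y)) f = fun y => w (γ y) := by
    rw [← mulF_comm_of_cl hf]
    have e1 : (fun y => f (γ y)) = f := funext hg
    calc mulF f (fun y => w (γ y)) = mulF (fun y => f (γ y)) (fun y => w (γ y)) := by rw [e1]
      _ = fun y => mulF f w (γ y) := mulF_comp γ f w
      _ = fun y => w (γ y) := by rw [h.fw]
  intro y
  exact congrFun (h3.symm.trans h2) y

end units

/-! ## The scalars -/

section scalars

variable [Finite Y]

theorem ibr_ne_zero {ℓ : ℕ} (hF : GoodF ℓ F) {H : Type} [Group H] [Finite H] {φ : H → F}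
    (hφ : φ ∈ IBr F H) : φ ≠ 0 := by
  have h := (ibf ℓ F hF H).2.ne_zero ⟨φ, hφ⟩
  exact h

theorem ev_one_of_act {ℓ : ℕ} (hF : GoodF ℓ F) {H : Type} [Group H] [Finite H] {n : ℕ}
    {ρ : H →* Matrix (Fin n) (Fin n) F} (hρ : IsIrr ρ) {a : H → F} (ha : IsCl a)
    (h : actF a (tr ρ) = tr ρ) : ev ρ a = 1 := by
  obtain ⟨ω, h1, h2, _⟩ := eig F H n ρ hρ a ha
  have h3 : ω • tr ρ = tr ρ := by rw [← h2, h]
  have h4 : tr ρ ≠ 0 := ibr_ne_zero hF ⟨n, ρ, hρ, rfl⟩
  have h5 : (ω - 1) • tr ρ = 0 := by rw [sub_smul, h3, one_smul, sub_self]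
  rcases smul_eq_zero.1 h5 with h6 | h6
  · have h7 : ω = 1 := sub_eq_zero.1 h6
    rw [h1, h7, map_one]
  · exact absurd h6 h4

omit [Finite Y] in
theorem kap_fix {f : Y → F} {α β : MulAut Y} {w wi : Y → F} (h : Torus f α β w wi) (y : Y) :
    f (kap α β y) = f y := by
  have h1 : ∀ y, f (α⁻¹ y) = f y := by
    intro y
    rw [← h.fa, MulAut.apply_inv_self]
  have h2 : ∀ y, f (β⁻¹ y) = f y := by
    intro y
    rw [← h.fb, MulAut.apply_inv_self]
  rw [kap_apply, h.fa, h.fb, h1, h2]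

theorem ts_swap (htsb : TsbStmt) (hthe : TheStmt) {ℓ : ℕ} (hF : GoodF ℓ F)
    {f : Y → F} {α β : MulAut Y} {w wi : Y → F} (h : Torus f α β w wi)
    {d : Finset (Subgroup Y)} (hd : d ∈ chainsOn (psubIn ℓ (⊤ : Subgroup Y)) ⊥)
    (hn : NormalChain d) (ha : FixC α d) (hb : FixC β d) {φ : stab d → F}
    (hφ : φ ∈ tset (stab d) f α β) :
    ts (stab d) φ β α wi = (ts (stab d) φ α β w)⁻¹ := by
  obtain ⟨h1, _, h3⟩ := htsb ℓ F hF Y f α β w wi h d hd ha hb φ hφ
  have h4 := h3 hn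
  set s := ts (stab d) φ α β w with hs
  obtain ⟨n, ρ, A, B, hirr, htr, hA, hB, hABs⟩ := h1
  have hφ' : φ ∈ tset (stab d) f β α := ⟨hφ.1, hφ.2.1, hφ.2.2.2, hφ.2.2.1⟩
  have hcl := cl_of_blk h.blk
  set M : (Matrix (Fin n) (Fin n) F)ˣ := A * B * A⁻¹ * B⁻¹ with hM
  have hMi : Impl ρ ((kap α β)⁻¹ : MulAut Y) M⁻¹ := by
    apply impl_inv
    rw [hM]
    have hai := fixC_inv ha
    have hbi := fixC_inv hb
    exact impl_mul hbi (impl_mul hai (impl_mul hb hA hB) (impl_inv hA)) (impl_inv hB)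
  have hkf : FixC (kap α β) d := fixC_mul (fixC_mul (fixC_mul ha hb) (fixC_inv ha)) (fixC_inv hb)
  have hunt' := unt_inv hcl h.unt
  have hthe' := hthe ℓ F hF Y d hd hn n ρ hirr (kap α β) (kap α β)⁻¹ hkf (fixC_inv hkf) w wi
    h.unt.comm hunt'.comm M⁻¹ hMi
  have hwk : (fun y => w ((kap α β)⁻¹ y)) = w := by
    funext y
    have := unt_fix hcl h.unt (kap_fix h) ((kap α β)⁻¹ y)
    rw [MulAut.apply_inv_self] at this
    exact this.symm
  rw [hwk, h.unt.unit] at hthe'
  have hev1 : ev ρ (fun t : stab d => f t) = 1 := by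
    apply ev_one_of_act hF hirr
    · intro x y
      exact hcl x y
    · rw [htr]
      exact hφ.2.1
  rw [hev1, mul_one] at hthe'
  -- the scalar for the exchanged datum
  set P := ev ρ (fun t : stab d => w t) with hP
  set Q := ev ρ (fun t : stab d => wi t) with hQ
  have hP1 : P = s • ((M⁻¹ : (Matrix (Fin n) (Fin n) F)ˣ) : Matrix (Fin n) (Fin n) F) := by
    have e1 : ((M⁻¹ : (Matrix (Fin n) (Fin n) F)ˣ) : Matrix (Fin n) (Fin n) F) *
        ((M : Matrix (Fin n) (Fin n) F) * P) = P := by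
      rw [← mul_assoc, Units.inv_mul, one_mul]
    rw [← e1, hABs]
    rw [Matrix.scalar_apply, ← Matrix.smul_one_eq_diagonal, mul_smul_comm, mul_one]
  have hQ1 : ((M⁻¹ : (Matrix (Fin n) (Fin n) F)ˣ) : Matrix (Fin n) (Fin n) F) * Q =
      Matrix.scalar (Fin n) s⁻¹ := by
    rw [hP1] at hthe'
    have e2 : ((M : Matrix (Fin n) (Fin n) F)) *
        (s • ((M⁻¹ : (Matrix (Fin n) (Fin n) F)ˣ) : Matrix (Fin n) (Fin n) F) *
          ((M⁻¹ : (Matrix (Fin n) (Fin n) F)ˣ) : Matrix (Fin n) (Fin n) F) * Q) = 1 := by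
      rw [hthe', Units.mul_inv]
    rw [smul_mul_assoc, smul_mul_assoc, mul_smul_comm, mul_assoc,
      Units.mul_inv_cancel_left] at e2
    have e3 : ((M⁻¹ : (Matrix (Fin n) (Fin n) F)ˣ) : Matrix (Fin n) (Fin n) F) * Q =
        s⁻¹ • (s • (((M⁻¹ : (Matrix (Fin n) (Fin n) F)ˣ) : Matrix (Fin n) (Fin n) F) * Q)) := by
      rw [smul_smul, inv_mul_cancel₀ h4, one_smul]
    rw [e3, e2, Matrix.scalar_apply, ← Matrix.smul_one_eq_diagonal]
  have hIS : IsTS (stab d) φ β α wi s⁻¹ := by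
    refine ⟨n, ρ, B, A, hirr, htr, hB, hA, ?_⟩
    have e4 : B * A * B⁻¹ * A⁻¹ = M⁻¹ := by
      rw [hM]
      group
    rw [e4]
    exact hQ1
  obtain ⟨_, h6, _⟩ := htsb ℓ F hF Y f β α wi w (tor_swap h) d hd hb ha φ hφ'
  exact (h6 _ hIS).symm

end scalars

theorem lift_inv {τ : F → ℂ} (h : IsLift τ) : IsLift (fun s => τ s⁻¹) := by
  refine ⟨?_, ?_, ?_⟩
  · rw [inv_one, h.one]
  · intro a b ha hb
    rw [mul_inv, h.mul _ _ (inv_ne_zero ha) (inv_ne_zero hb)]
  · intro a ha h1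
    have h2 := h.inj a⁻¹ (inv_ne_zero ha) h1
    exact inv_eq_one.1 h2

/-- SWA -/
theorem swa (htsb : TsbStmt) (hthe : TheStmt) : SwaStmt := by
  classical
  intro ℓ F _ hF Y _ _ f α β hV τ hτ w wi hT
  have h0 : DD (fun s => τ s⁻¹) ℓ f β α wi = 0 := hV _ (lift_inv hτ) wi w (tor_swap hT)
  rw [← h0]
  unfold DD
  have := Fintype.ofFinite Y
  simp only [finsum_eq_sum_of_fintype]
  rw [Finset.sum_comm]
  apply Finset.sum_congr rfl
  intro m _
  apply Finset.sum_congr rfl
  intro n _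
  refine Finset.sum_congr ?_ ?_
  · ext d
    simp only [Finset.mem_filter]
    constructor
    · rintro ⟨a0, a1, a2, a3⟩
      exact ⟨a0, a1, a3, a2⟩
    · rintro ⟨a0, a1, a2, a3⟩
      exact ⟨a0, a1, a3, a2⟩
  intro d hd
  obtain ⟨hd, hn, hb, ha⟩ := Finset.mem_filter.1 hd
  have hset : tset (stab d) f (tw β m) (tw α n) = tset (stab d) f (tw α n) (tw β m) := by
    ext φ
    constructor
    · rintro ⟨a1, a2, a3, a4⟩
      exact ⟨a1, a2, a4, a3⟩
    · rintro ⟨a1, a2, a3, a4⟩
      exact ⟨a1, a2, a4, a3⟩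
  have hwi : (fun y => wi (cc β α m n * y)) = fun y => wi (y * (cc α β n m)⁻¹) := by
    funext y
    rw [kap_cc]
    have h1 := (unt_inv (cl_of_blk hT.blk) hT.unt).comm (cc α β n m)
      ((kap α β (cc α β n m))⁻¹ * y)
    rw [inv_inv, mul_inv_cancel_left] at h1
    exact h1.symm
  congr 1
  unfold tcon
  rw [hset, hwi]
  congr 1
  apply finsum_mem_congr rfl
  intro φ hφ
  have h2 := ts_swap htsb hthe hF (tor_tw hT n m) hd hn ha hb hφ
  rw [h2]
  change _ = τ (_⁻¹)⁻¹
  rw [inv_inv]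

end Pool.Agent.PP.H33S
end
end -- Pool.Agent.Helper33_PP.Swa

section -- Pool.Agent.Helper43_PP.Can

/-!
# Squad PP, module CAN: chains normalised by an `ℓ`-element `u` with `⟨u⟩ ∩ Y ≠ 1` cancel
-/

open scoped BigOperators

noncomputable section

namespace Pool.Agent.PP.H43

open Pool.Agent.PP Pool.Agent.PP.H97 Pool.Agent.Helper51_AWC Pool.Agent.Helper79_WRA

section can

variable {G : Type} [Group G]

theorem cent_le_norm' {g u : G} {U : Subgroup G} (hU : U ≤ Subgroup.zpowers u)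
    (hg : g ∈ Subgroup.centralizer ({u} : Set G)) :
    g ∈ Subgroup.normalizer (U : Set G) := by
  rw [Subgroup.mem_centralizer_singleton_iff] at hg
  have h : ∀ x ∈ U, g * x * g⁻¹ = x := by
    intro x hx
    obtain ⟨k, rfl⟩ := hU hx
    have h1 : Commute g u := hg
    change g * u ^ k * g⁻¹ = u ^ k
    rw [(h1.zpow_right k).eq, mul_inv_cancel_right]
  rw [Subgroup.mem_normalizer_iff_map_conj_eq]
  ext x
  rw [Subgroup.mem_map]
  constructor
  · rintro ⟨y, hy, rfl⟩
    change g * y * g⁻¹ ∈ U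
    rw [h y hy]
    exact hy
  · intro hx
    exact ⟨x, hx, h x hx⟩

theorem stab_insertU [DecidableEq (Subgroup G)] {u : G} {d : Finset (Subgroup G)}
    {P U : Subgroup G} (hU : U ≤ Subgroup.zpowers u) (hP : P ∈ d) :
    Subgroup.centralizer ({u} : Set G) ⊓ stab (insert (P ⊔ U) d) =
      Subgroup.centralizer ({u} : Set G) ⊓ stab d := by
  ext g
  rw [Subgroup.mem_inf, Subgroup.mem_inf, H97.mem_stab, H97.mem_stab]
  refine and_congr_right fun hg => ?_
  constructor
  · intro h D hD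
    exact h D (Finset.mem_insert_of_mem hD)
  · intro h D hD
    rcases Finset.mem_insert.1 hD with rfl | hD
    · exact norm_sup (h P hP) (cent_le_norm' hU hg)
    · exact h D hD

theorem top_insertU [DecidableEq (Subgroup G)] {d : Finset (Subgroup G)}
    {P U : Subgroup G} (hP : P ∈ d) :
    U ⊔ top (insert (P ⊔ U) d) = U ⊔ top d := by
  rw [H97.top_insert]
  have h := H97.le_tp hP
  apply le_antisymm
  · refine sup_le le_sup_left (sup_le (sup_le (h.trans le_sup_right) le_sup_left) le_sup_right)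
  · exact sup_le le_sup_left (le_sup_right.trans le_sup_right)

theorem mem_psubIn' [Finite G] {ℓ : ℕ} {Y D : Subgroup G} :
    D ∈ psubIn ℓ Y ↔ D ≤ Y ∧ IsPGroup ℓ D := by
  rw [psubIn, Set.Finite.mem_toFinset, Set.mem_ofPred_eq]

open Classical in
theorem canU [Finite G] {ℓ : ℕ} (Y : Subgroup G) (u : G) (hu : ∃ n : ℕ, u ^ ℓ ^ n = 1)
    (U : Subgroup G) (hU : U ≤ Subgroup.zpowers u) (hUY : U ≤ Y) (hU1 : U ≠ ⊥)
    (W : Subgroup G → Subgroup G → ℤ)
    (hW : ∀ X R : Subgroup G, X ≤ Subgroup.centralizer ({u} : Set G) → W X (U ⊔ R) = W X R) :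
    ∑ d ∈ (chainsOn (psubIn ℓ Y) ⊥).filter (fun d => u ∈ stab d),
      (-1) ^ (d.card + 1) * W (Subgroup.centralizer ({u} : Set G) ⊓ stab d) (top d) = 0 := by
  have hUp : IsPGroup ℓ U := by
    have h := (H97.isPGroup_zp hu).to_le hU
    exact h
  set S := (chainsOn (psubIn ℓ Y) ⊥).filter (fun d => u ∈ stab d) with hS
  let m : Finset (Subgroup G) → Subgroup G := fun d => greatest (d.filter (fun P => ¬ U ≤ P)) ⊥
  let e : Finset (Subgroup G) → Subgroup G := fun d => m d ⊔ U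
  have hue : ∀ d, U ≤ e d := fun d => (le_sup_right : U ≤ e d)
  have hm : ∀ d ∈ S, m d ∈ d ∧ ¬ U ≤ m d ∧ ∀ P ∈ d, ¬ U ≤ P → P ≤ m d := by
    intro d hd
    rw [hS, Finset.mem_filter, mem_chainsOn] at hd
    obtain ⟨⟨h1, h2, h3⟩, h4⟩ := hd
    have := greatest_spec (dflt := ⊥) (c := d.filter (fun P => ¬ U ≤ P))
      (h3.mono (by intro y hy; exact Finset.mem_of_mem_filter y hy))
      ⟨⊥, Finset.mem_filter.2 ⟨h2, fun h => hU1 (le_bot_iff.1 h)⟩⟩
    have h5 := Finset.mem_filter.1 this.1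
    exact ⟨h5.1, h5.2, fun P hP hP' => this.2 P (Finset.mem_filter.2 ⟨hP, hP'⟩)⟩
  have hne : ∀ d P, ¬ U ≤ P → P ≠ e d := by
    intro d P hP h
    exact hP (h ▸ hue d)
  have ht : ∀ (d : Finset (Subgroup G)) (P : Subgroup G), P ≠ e d →
      (P ∈ toggle d (e d) ↔ P ∈ d) := by
    intro d P hP
    unfold toggle
    split_ifs with h
    · rw [Finset.mem_erase]
      exact ⟨fun h => h.2, fun h => ⟨hP, h⟩⟩
    · rw [Finset.mem_insert]
      exact ⟨fun h => h.resolve_left hP, fun h => Or.inr h⟩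
  have hmt : ∀ d, m (toggle d (e d)) = m d := by
    intro d
    have : (toggle d (e d)).filter (fun P => ¬ U ≤ P) = d.filter (fun P => ¬ U ≤ P) := by
      ext P
      rw [Finset.mem_filter, Finset.mem_filter]
      constructor
      · rintro ⟨h1, h2⟩
        exact ⟨(ht d P (hne d P h2)).1 h1, h2⟩
      · rintro ⟨h1, h2⟩
        exact ⟨(ht d P (hne d P h2)).2 h1, h2⟩
    change greatest _ ⊥ = greatest _ ⊥
    rw [this]
  have hcmp : ∀ d ∈ S, ∀ P ∈ d, P ≤ e d ∨ e d ≤ P := by
    intro d hd P hP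
    obtain ⟨h1, h2, h3⟩ := hm d hd
    by_cases hup : U ≤ P
    · right
      rw [hS, Finset.mem_filter, mem_chainsOn] at hd
      rcases chain_total hd.1.2.2 hP h1 with h | h
      · exact absurd (hup.trans h) h2
      · exact sup_le h hup
    · left
      exact (h3 P hP hup).trans le_sup_left
  have hins : ∀ d ∈ S, ∃ d₀, m d ∈ d₀ ∧ e d ∉ d₀ ∧
      ((d = d₀ ∧ toggle d (e d) = insert (e d) d₀) ∨
        (d = insert (e d) d₀ ∧ toggle d (e d) = d₀)) := by
    intro d hd
    obtain ⟨h1, h2, h3⟩ := hm d hd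
    by_cases h : e d ∈ d
    · refine ⟨d.erase (e d), Finset.mem_erase.2 ⟨hne d _ h2, h1⟩, Finset.notMem_erase _ _,
        Or.inr ⟨(Finset.insert_erase h).symm, ?_⟩⟩
      rw [toggle, if_pos h]
    · refine ⟨d, h1, h, Or.inl ⟨rfl, ?_⟩⟩
      rw [toggle, if_neg h]
  have hstab : ∀ d ∈ S, Subgroup.centralizer ({u} : Set G) ⊓ stab (toggle d (e d)) =
      Subgroup.centralizer ({u} : Set G) ⊓ stab d := by
    intro d hd
    obtain ⟨d₀, h1, h2, ⟨h3, h4⟩ | ⟨h3, h4⟩⟩ := hins d hd
    · rw [h4, stab_insertU hU h1, ← h3]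
    · rw [h4]
      conv_rhs => rw [h3, stab_insertU hU h1]
  apply sum_toggle S e
  · intro d hd
    have hd' := hd
    rw [hS, Finset.mem_filter, mem_chainsOn] at hd'
    obtain ⟨⟨h1, h2, h3⟩, h4⟩ := hd'
    have h5 : u ∈ Subgroup.centralizer ({u} : Set G) ⊓ stab (toggle d (e d)) := by
      rw [hstab d hd]
      exact ⟨Subgroup.mem_centralizer_singleton_iff.2 rfl, h4⟩
    rw [hS, Finset.mem_filter, mem_chainsOn]
    refine ⟨⟨?_, ?_, ?_⟩, h5.2⟩
    · intro P hP
      by_cases hPe : P = e d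
      · rw [hPe, mem_psubIn']
        obtain ⟨g1, g2, g3⟩ := hm d hd
        have g4 := mem_psubIn'.1 (h1 g1)
        refine ⟨sup_le g4.1 hUY, ?_⟩
        apply IsPGroup.to_sup_of_normal_left' g4.2 hUp
        exact hU.trans ((Subgroup.zpowers_le).2 (H97.mem_stab.1 h4 _ g1))
      · exact h1 ((ht d P hPe).1 hP)
    · exact (ht d _ (hne d ⊥ fun h => hU1 (le_bot_iff.1 h))).2 h2
    · unfold toggle
      split_ifs with h
      · exact h3.mono (by intro y hy; exact Finset.mem_of_mem_erase hy)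
      · rw [Finset.coe_insert]
        apply h3.insert
        intro P hP _
        exact (hcmp d hd P hP).symm
  · intro d hd
    change m (toggle d (e d)) ⊔ U = m d ⊔ U
    rw [hmt]
  · intro d hd
    rw [hstab d hd]
    have hX : Subgroup.centralizer ({u} : Set G) ⊓ stab d ≤
      Subgroup.centralizer ({u} : Set G) := inf_le_left
    rw [← hW _ (top d) hX, ← hW _ (top (toggle d (e d))) hX]
    obtain ⟨d₀, h1, h2, ⟨h3, h4⟩ | ⟨h3, h4⟩⟩ := hins d hd
    · rw [h4, top_insertU h1, Finset.card_insert_of_notMem h2, ← h3]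
      ring
    · have h5 : d.card = d₀.card + 1 := by
        rw [h3, Finset.card_insert_of_notMem h2]
      have h6 : U ⊔ top d = U ⊔ top d₀ := by
        rw [h3, top_insertU h1]
      rw [h4, h5, h6]
      ring

end can

/-- CAN: the chains of `Y` normalised by an `ℓ`-element `u` with `⟨u⟩ ∩ Y ≠ 1` cancel. -/
theorem can : CanStmt := by
  classical
  intro ℓ _ X _ _ Y _ u hu hne W hW
  have h := canU Y u hu (Subgroup.zpowers u ⊓ Y) inf_le_left inf_le_right hne W
    (fun K R hK => hW K R hK)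
  exact h

end Pool.Agent.PP.H43
end
end -- Pool.Agent.Helper43_PP.Can

section -- Pool.Agent.Helper47_PP.Fxu

/-!
# Squad PP, part LQ, module FXU: chains normalised by an `ℓ`-element `u`, chains of `C_Y(u)`
-/

open scoped BigOperators

noncomputable section

namespace Pool.Agent.PP.H47F

open Pool.Agent.PP Pool.Agent.PP.H97 Pool.Agent.Helper51_AWC Pool.Agent.Helper79_WRA

section fxu

variable {G : Type} [Group G]

/-- an `ℓ`-element normalising a nontrivial `ℓ`-subgroup centralises a nontrivial element -/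
theorem fix_ne [Finite G] {ℓ : ℕ} [Fact ℓ.Prime] {u : G} (hu : ∃ n : ℕ, u ^ ℓ ^ n = 1)
    {D : Subgroup G} (hD : IsPGroup ℓ D) (hn : u ∈ Subgroup.normalizer (D : Set G))
    (h1 : D ≠ ⊥) : D ⊓ Subgroup.centralizer ({u} : Set G) ≠ ⊥ := by
  have hz : Subgroup.zpowers u ≤ Subgroup.normalizer (D : Set G) := Subgroup.zpowers_le.2 hn
  let act : MulAction (Subgroup.zpowers u) D :=
    { smul := fun g x => ⟨(g : G) * x * (g : G)⁻¹,
        (Subgroup.mem_normalizer_iff.1 (hz g.2) x).1 x.2⟩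
      one_smul := fun x => Subtype.ext (by
        change ((1 : Subgroup.zpowers u) : G) * (x : G) * ((1 : Subgroup.zpowers u) : G)⁻¹ = x
        rw [Subgroup.coe_one, one_mul, inv_one, mul_one])
      mul_smul := fun g h x => Subtype.ext (by
        change ((g * h : Subgroup.zpowers u) : G) * (x : G) * ((g * h : Subgroup.zpowers u) : G)⁻¹ =
          (g : G) * ((h : G) * x * (h : G)⁻¹) * (g : G)⁻¹
        rw [Subgroup.coe_mul]
        group) }
  have hdvd : ℓ ∣ Nat.card D := by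
    obtain ⟨n, hn⟩ := IsPGroup.iff_card.1 hD
    have hn0 : n ≠ 0 := by
      rintro rfl
      rw [pow_zero] at hn
      exact h1 (Subgroup.card_eq_one.1 hn)
    rw [hn]
    exact dvd_pow_self _ hn0
  have h1m : (1 : D) ∈ @MulAction.fixedPoints (Subgroup.zpowers u) D _ act := by
    intro g
    refine Subtype.ext ?_
    change (g : G) * ((1 : D) : G) * (g : G)⁻¹ = ((1 : D) : G)
    rw [Subgroup.coe_one, mul_one, mul_inv_cancel]
  obtain ⟨b, hb, hb1⟩ := @IsPGroup.exists_fixed_point_of_prime_dvd_card_of_fixed_point ℓ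
    (Subgroup.zpowers u) _ (isPGroup_zp hu) _ D act _ hdvd 1 h1m
  intro h
  apply hb1
  have h2 : (b : G) ∈ D ⊓ Subgroup.centralizer ({u} : Set G) := by
    refine ⟨b.2, Subgroup.mem_centralizer_singleton_iff.2 ?_⟩
    have h3 := congrArg (fun x : D => (x : G)) (hb ⟨u, Subgroup.mem_zpowers u⟩)
    change u * (b : G) * u⁻¹ = b at h3
    rw [mul_inv_eq_iff_eq_mul] at h3
    exact h3.symm
  rw [h, Subgroup.mem_bot] at h2
  exact Subtype.ext h2.symm

theorem norm_cent {g u : G} (hg : g ∈ Subgroup.centralizer ({u} : Set G)) :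
    g ∈ Subgroup.normalizer ((Subgroup.centralizer ({u} : Set G) : Subgroup G) : Set G) :=
  Subgroup.le_normalizer hg

theorem norm_inf {g : G} {P Q : Subgroup G} (hP : g ∈ Subgroup.normalizer (P : Set G))
    (hQ : g ∈ Subgroup.normalizer (Q : Set G)) :
    g ∈ Subgroup.normalizer ((P ⊓ Q : Subgroup G) : Set G) := by
  rw [Subgroup.mem_normalizer_iff] at hP hQ ⊢
  intro h
  constructor
  · rintro ⟨h1, h2⟩
    exact ⟨(hP h).1 h1, (hQ h).1 h2⟩
  · rintro ⟨h1, h2⟩
    exact ⟨(hP h).2 h1, (hQ h).2 h2⟩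

theorem stab_insertF [DecidableEq (Subgroup G)] {u : G} {d : Finset (Subgroup G)}
    {P : Subgroup G} (hP : P ∈ d) :
    Subgroup.centralizer ({u} : Set G) ⊓
        stab (insert (P ⊓ Subgroup.centralizer ({u} : Set G)) d) =
      Subgroup.centralizer ({u} : Set G) ⊓ stab d := by
  ext g
  rw [Subgroup.mem_inf, Subgroup.mem_inf, H97.mem_stab, H97.mem_stab]
  refine and_congr_right fun hg => ?_
  constructor
  · intro h D hD
    exact h D (Finset.mem_insert_of_mem hD)
  · intro h D hD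
    rcases Finset.mem_insert.1 hD with rfl | hD
    · exact norm_inf (h P hP) (norm_cent hg)
    · exact h D hD

theorem top_insertF [DecidableEq (Subgroup G)] {d : Finset (Subgroup G)}
    {P Q : Subgroup G} (hP : P ∈ d) (hQ : Q ≤ P) :
    top (insert Q d) = top d := by
  rw [H97.top_insert]
  exact sup_eq_right.2 (hQ.trans (H97.le_tp hP))

theorem mem_psubIn' [Finite G] {ℓ : ℕ} {Y D : Subgroup G} :
    D ∈ psubIn ℓ Y ↔ D ≤ Y ∧ IsPGroup ℓ D := by
  rw [psubIn, Set.Finite.mem_toFinset, Set.mem_ofPred_eq]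

open Classical in
theorem fxu_zero [Finite G] {ℓ : ℕ} [Fact ℓ.Prime] (Y : Subgroup G) (u : G)
    (hu : ∃ n : ℕ, u ^ ℓ ^ n = 1) (W : Subgroup G → Subgroup G → ℤ) :
    ∑ d ∈ ((chainsOn (psubIn ℓ Y) ⊥).filter (fun d => u ∈ stab d)).filter
        (fun d => ¬ ∀ P ∈ d, P ≤ Subgroup.centralizer ({u} : Set G)),
      (-1) ^ (d.card + 1) * W (Subgroup.centralizer ({u} : Set G) ⊓ stab d) (top d) = 0 := by
  set C : Subgroup G := Subgroup.centralizer ({u} : Set G) with hC
  set S := ((chainsOn (psubIn ℓ Y) ⊥).filter (fun d => u ∈ stab d)).filter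
        (fun d => ¬ ∀ P ∈ d, P ≤ C) with hS
  have hmS : ∀ d, d ∈ S ↔ ((d ⊆ psubIn ℓ Y ∧ ⊥ ∈ d ∧ IsChain (· ≤ ·) (d : Set (Subgroup G))) ∧
      u ∈ stab d) ∧ ¬ ∀ P ∈ d, P ≤ C := by
    intro d
    rw [hS, Finset.mem_filter, Finset.mem_filter, mem_chainsOn]
  have hex : ∀ d : Finset (Subgroup G), ∃ m : Subgroup G, d ∈ S →
      m ∈ d ∧ ¬ m ≤ C ∧ ∀ P ∈ d, ¬ P ≤ C → m ≤ P := by
    intro d
    by_cases hd : d ∈ S
    · have hd' := (hmS d).1 hd
      obtain ⟨⟨⟨_, _, hch⟩, _⟩, hne⟩ := hd'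
      push Not at hne
      obtain ⟨x, hx, hxc⟩ := hne
      obtain ⟨m, hm, hmin⟩ := exists_least (d := d.filter (fun P => ¬ P ≤ C))
        (hch.mono (by intro y hy; exact Finset.mem_of_mem_filter y hy))
        ⟨x, Finset.mem_filter.2 ⟨hx, hxc⟩⟩
      rw [Finset.mem_filter] at hm
      exact ⟨m, fun _ => ⟨hm.1, hm.2, fun y hy hyc => hmin y (Finset.mem_filter.2 ⟨hy, hyc⟩)⟩⟩
    · exact ⟨⊥, fun h => absurd h hd⟩
  choose m hm using hex
  let e : Finset (Subgroup G) → Subgroup G := fun d => m d ⊓ C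
  have heC : ∀ d, e d ≤ C := fun d => (inf_le_right : m d ⊓ C ≤ C)
  have heM : ∀ d, e d ≤ m d := fun d => (inf_le_left : m d ⊓ C ≤ m d)
  have hne : ∀ d P, ¬ P ≤ C → P ≠ e d := by
    intro d P hP h
    exact hP (h ▸ heC d)
  have ht : ∀ (d : Finset (Subgroup G)) (P : Subgroup G), P ≠ e d →
      (P ∈ toggle d (e d) ↔ P ∈ d) := by
    intro d P hP
    unfold toggle
    split_ifs with h
    · rw [Finset.mem_erase]
      exact ⟨fun h => h.2, fun h => ⟨hP, h⟩⟩
    · rw [Finset.mem_insert]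
      exact ⟨fun h => h.resolve_left hP, fun h => Or.inr h⟩
  have hins : ∀ d ∈ S, ∃ d₀, m d ∈ d₀ ∧ e d ∉ d₀ ∧
      ((d = d₀ ∧ toggle d (e d) = insert (e d) d₀) ∨
        (d = insert (e d) d₀ ∧ toggle d (e d) = d₀)) := by
    intro d hd
    obtain ⟨h1, h2, h3⟩ := hm d hd
    by_cases h : e d ∈ d
    · refine ⟨d.erase (e d), Finset.mem_erase.2 ⟨hne d _ h2, h1⟩, Finset.notMem_erase _ _,
        Or.inr ⟨(Finset.insert_erase h).symm, ?_⟩⟩
      rw [toggle, if_pos h]
    · refine ⟨d, h1, h, Or.inl ⟨rfl, ?_⟩⟩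
      rw [toggle, if_neg h]
  have hstab : ∀ d ∈ S, C ⊓ stab (toggle d (e d)) = C ⊓ stab d := by
    intro d hd
    obtain ⟨d₀, h1, h2, ⟨h3, h4⟩ | ⟨h3, h4⟩⟩ := hins d hd
    · rw [h4, stab_insertF h1, ← h3]
    · rw [h4]
      conv_rhs => rw [h3, stab_insertF h1]
  have hebot : ∀ d ∈ S, e d ≠ ⊥ := by
    intro d hd
    obtain ⟨h1, h2, h3⟩ := hm d hd
    obtain ⟨⟨⟨g1, _, _⟩, g4⟩, _⟩ := (hmS d).1 hd
    have g5 := mem_psubIn'.1 (g1 h1)
    apply fix_ne hu g5.2 (H97.mem_stab.1 g4 _ h1)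
    intro h
    exact h2 (h ▸ bot_le)
  have hmem : ∀ d ∈ S, toggle d (e d) ∈ S := by
    intro d hd
    obtain ⟨h1, h2, h3⟩ := hm d hd
    obtain ⟨⟨⟨g1, g2, g3⟩, g4⟩, _⟩ := (hmS d).1 hd
    have h5 : u ∈ C ⊓ stab (toggle d (e d)) := by
      rw [hstab d hd]
      exact ⟨Subgroup.mem_centralizer_singleton_iff.2 rfl, g4⟩
    rw [hmS]
    refine ⟨⟨⟨?_, ?_, ?_⟩, h5.2⟩, ?_⟩
    · intro P hP
      by_cases hPe : P = e d
      · rw [hPe, mem_psubIn']
        have g5 := mem_psubIn'.1 (g1 h1)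
        exact ⟨(heM d).trans g5.1, g5.2.to_le (heM d)⟩
      · exact g1 ((ht d P hPe).1 hP)
    · exact (ht d _ (fun h => hebot d hd h.symm)).2 g2
    · unfold toggle
      split_ifs with h
      · exact g3.mono (by intro y hy; exact Finset.mem_of_mem_erase hy)
      · rw [Finset.coe_insert]
        apply g3.insert
        intro P hP _
        by_cases hPC : P ≤ C
        · rcases chain_total g3 hP h1 with h' | h'
          · right
            exact le_inf h' hPC
          · exact absurd (h'.trans hPC) h2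
        · left
          exact (heM d).trans (h3 P hP hPC)
    · intro h
      exact h2 (h _ ((ht d _ (hne d _ h2)).2 h1))
  have hmt : ∀ d ∈ S, m (toggle d (e d)) = m d := by
    intro d hd
    obtain ⟨h1, h2, h3⟩ := hm d hd
    obtain ⟨g1, g2, g3⟩ := hm _ (hmem d hd)
    apply le_antisymm
    · exact g3 _ ((ht d _ (hne d _ h2)).2 h1) h2
    · exact h3 _ ((ht d _ (hne d _ g2)).1 g1) g2
  apply sum_toggle S e
  · exact hmem
  · intro d hd
    change m (toggle d (e d)) ⊓ C = m d ⊓ C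
    rw [hmt d hd]
  · intro d hd
    rw [hstab d hd]
    obtain ⟨d₀, h1, h2, ⟨h3, h4⟩ | ⟨h3, h4⟩⟩ := hins d hd
    · rw [h4, top_insertF h1 (heM d), Finset.card_insert_of_notMem h2, ← h3]
      ring
    · have h5 : d.card = d₀.card + 1 := by
        rw [h3, Finset.card_insert_of_notMem h2]
      have h6 : top d = top d₀ := by
        rw [h3, top_insertF h1 (heM d)]
      rw [h4, h5, h6]
      ring

end fxu

open Classical in
/-- FXU: the chains of `Y` normalised by an `ℓ`-element `u` can be replaced by the chains of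
`C_Y(u)`. -/
theorem fxu : FxuStmt := by
  intro ℓ _ X _ _ Y _ u hu W
  rw [← Finset.sum_filter_add_sum_filter_not
    ((chainsOn (psubIn ℓ Y) ⊥).filter (fun d => u ∈ stab d))
    (fun d => ∀ P ∈ d, P ≤ Subgroup.centralizer ({u} : Set X)), fxu_zero Y u hu W, add_zero]
  refine Finset.sum_congr ?_ fun _ _ => rfl
  ext d
  rw [Finset.mem_filter, Finset.mem_filter, mem_chainsOn, mem_chainsOn]
  constructor
  · rintro ⟨⟨⟨h1, h2, h3⟩, h4⟩, h5⟩
    refine ⟨fun P hP => ?_, h2, h3⟩
    have h6 := mem_psubIn'.1 (h1 hP)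
    exact mem_psubIn'.2 ⟨le_inf (h5 P hP) h6.1, h6.2⟩
  · rintro ⟨h1, h2, h3⟩
    have h5 : ∀ P ∈ d, P ≤ Subgroup.centralizer ({u} : Set X) := fun P hP =>
      (mem_psubIn'.1 (h1 hP)).1.trans inf_le_left
    refine ⟨⟨⟨fun P hP => ?_, h2, h3⟩, ?_⟩, h5⟩
    · have h6 := mem_psubIn'.1 (h1 hP)
      exact mem_psubIn'.2 ⟨h6.1.trans inf_le_right, h6.2⟩
    · rw [H97.mem_stab]
      intro P hP
      rw [Subgroup.mem_normalizer_iff]
      intro h
      constructor
      · intro hh
        have := Subgroup.mem_centralizer_singleton_iff.1 (h5 P hP hh)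
        rw [← this, mul_inv_cancel_right]
        exact hh
      · intro hh
        have := Subgroup.mem_centralizer_singleton_iff.1 (h5 P hP hh)
        have h7 : u * h * u⁻¹ = h := by
          have h8 : u * h = u * (u * h * u⁻¹) := by
            rw [← this]
            group
          exact (mul_left_cancel h8).symm
        rw [h7] at hh
        exact hh

end Pool.Agent.PP.H47F
end
end -- Pool.Agent.Helper47_PP.Fxu
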