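import Pool.Agent.Helper12_AWB.B067
import Pool.Agent.Helper12_AWB.B068
import Pool.Agent.Helper12_AWB.B073
import Pool.Agent.Helper46_PP.Alg
import Pool.Agent.Helper75_PP.Quo
import Pool.Agent.Helper83_WRA.LabSum

/-!
# Merged copies (generated) of the modules

* `Pool.Agent.Helper75_PP.Cen`
* `Pool.Agent.Helper75_PP.AltC`
* `Pool.Agent.Helper75_PP.PosC`
* `Pool.Agent.Helper75_PP.Fin0`
* `Pool.Agent.Helper75_PP.Fin`
-/

set_option autoImplicit false

section -- Pool.Agent.Helper75_PP.Cen

/-!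
# Squad PP: the theorem of Knörr and Robinson for chains starting at a central `ℓ`-subgroup
-/

open scoped BigOperators

set_option linter.unusedSectionVars false

noncomputable section

namespace Pool.Agent.PP.H75

open Pool.Agent.Helper51_AWC Pool.Agent.Helper79_WRA Pool.Agent.PP

section cen

variable {F A B : Type} [Field F] [Group A] [Group B] [Finite A] [Finite B]

theorem normalizer_comap {p : A →* B} (hp : Function.Surjective p) (D : Subgroup B) (x : A) :
    x ∈ Subgroup.normalizer ((D.comap p : Subgroup A) : Set A) ↔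
      p x ∈ Subgroup.normalizer (D : Set B) := by
  rw [mem_normalizer_iff_conjS, mem_normalizer_iff_conjS, conjS_comap]
  exact ⟨fun h => Subgroup.comap_injective hp h, fun h => by rw [h]⟩

/-- the facts on the preimages of a chain -/
theorem comap_facts {ℓ : ℕ} {p : A →* B} (hp : Function.Surjective p) (hk : IsPGroup ℓ p.ker)
    {d : Finset (Subgroup B)} (hd : d ∈ chainsOn (psubIn ℓ (⊤ : Subgroup B)) ⊥) :
    IsPGroup ℓ ((top d).comap p) ∧
      Subgroup.centralizer (((top d).comap p : Subgroup A) : Set A) ≤ (stab d).comap p ∧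
      (stab d).comap p ≤ Subgroup.normalizer (((top d).comap p : Subgroup A) : Set A) ∧
      (NormalChain d → (top d).comap p ≤ (stab d).comap p) := by
  obtain ⟨h1, h2, h3⟩ := mem_chainsOn.1 hd
  have ht := H97.top_mem h3 ⟨_, h2⟩
  refine ⟨(isPGroup_comap_iff hp hk _).2 (mem_psubIn'.1 (h1 ht)).2, ?_, ?_, ?_⟩
  · intro g hg
    rw [Subgroup.mem_comap]
    apply H97.cent_top_le
    rw [Subgroup.mem_centralizer_iff] at hg ⊢
    intro y hy
    obtain ⟨x, rfl⟩ := hp y
    have := hg x hy
    rw [← map_mul, ← map_mul, this]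
  · intro x hx
    rw [normalizer_comap hp]
    exact H97.stab_le ht hx
  · intro hn
    apply Subgroup.comap_mono
    intro x hx
    rw [H97.mem_stab]
    intro D hD
    exact hn D hD hx

open Classical in
/-- the theorem of Knörr and Robinson for the chains starting at the kernel of `p` -/
theorem kr_central (nls : NlsStmt) (brm : BrmStmt) (smt : SmtStmt) (nch : NchStmt) {ℓ : ℕ}
    (hF : GoodF ℓ F) {p : A →* B} (hp : Function.Surjective p) (hk : IsPGroup ℓ p.ker)
    (hc : p.ker ≤ Subgroup.center A) {e : A → F} (he : IsIdem e) :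
    ∑ d ∈ chainsOn (psubIn ℓ (⊤ : Subgroup B)) ⊥, (-1) ^ (d.card + 1) *
      ((Nat.card ((stab d).comap p) : ℤ) *
        (rk (fun t : (stab d).comap p => br ((top d).comap p) e t)
          (cfs F ((stab d).comap p)) : ℤ)) =
      (Nat.card p.ker : ℤ) ^ 2 * YY ℓ (⊤ : Subgroup B) (push p e) := by
  have := Fact.mk hF.prime
  have := Fintype.ofFinite A
  let W : Subgroup A → Subgroup A → ℤ := fun X R => (Nat.card X : ℤ) * (lnum X (br R e) : ℤ)
  have h1 : ∀ d ∈ chainsOn (psubIn ℓ (⊤ : Subgroup B)) ⊥, (-1) ^ (d.card + 1) *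
      ((Nat.card ((stab d).comap p) : ℤ) *
        (rk (fun t : (stab d).comap p => br ((top d).comap p) e t)
          (cfs F ((stab d).comap p)) : ℤ)) =
      ∑ u ∈ Finset.univ.filter (fun u : A => ∃ n : ℕ, u ^ ℓ ^ n = 1),
        if u ∈ (stab d).comap p then (-1) ^ (d.card + 1) *
          W (Subgroup.centralizer ({u} : Set A) ⊓ (stab d).comap p) ((top d).comap p) else 0 := by
    intro d hd
    obtain ⟨g1, g2, g3, _⟩ := comap_facts hp hk hd
    have hid := (brm ℓ F hF A ((top d).comap p) ((stab d).comap p) g1 g2 g3).2.2 e he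
    have h := H97.smt_sub smt hF ((stab d).comap p) (br ((top d).comap p) e) hid
    rw [← Nat.cast_mul, h, Nat.cast_sum, Finset.mul_sum]
    refine Finset.sum_congr rfl fun u _ => ?_
    by_cases hu : u ∈ (stab d).comap p
    · rw [if_pos hu, if_pos hu, Nat.cast_mul]
    · rw [if_neg hu, if_neg hu, Nat.cast_zero, mul_zero]
  rw [Finset.sum_congr rfl h1, Finset.sum_comm]
  -- the elements outside the kernel
  have h2 : ∀ u ∈ Finset.univ.filter (fun u : A => ∃ n : ℕ, u ^ ℓ ^ n = 1),
      (∑ d ∈ chainsOn (psubIn ℓ (⊤ : Subgroup B)) ⊥,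
        if u ∈ (stab d).comap p then (-1) ^ (d.card + 1) *
          W (Subgroup.centralizer ({u} : Set A) ⊓ (stab d).comap p) ((top d).comap p) else 0) =
      if u ∈ p.ker then ∑ d ∈ chainsOn (psubIn ℓ (⊤ : Subgroup B)) ⊥, (-1) ^ (d.card + 1) *
        W ((stab d).comap p) ((top d).comap p) else 0 := by
    intro u hu
    by_cases huk : u ∈ p.ker
    · rw [if_pos huk]
      refine Finset.sum_congr rfl fun d _ => ?_
      have e1 : u ∈ (stab d).comap p := by
        rw [Subgroup.mem_comap, MonoidHom.mem_ker.1 huk]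
        exact one_mem _
      have e2 : Subgroup.centralizer ({u} : Set A) = ⊤ := by
        rw [eq_top_iff]
        intro g _
        rw [Subgroup.mem_centralizer_singleton_iff]
        exact (Subgroup.mem_center_iff.1 (hc huk) g)
      rw [if_pos e1, e2, top_inf_eq]
    · rw [if_neg huk]
      have hpu : p u ≠ 1 := fun h => huk (MonoidHom.mem_ker.2 h)
      have hpl : ∃ n : ℕ, p u ^ ℓ ^ n = 1 := by
        obtain ⟨n, hn⟩ := (Finset.mem_filter.1 hu).2
        exact ⟨n, by rw [← map_pow, hn, map_one]⟩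
      let W' : Subgroup B → Subgroup B → ℤ := fun X R =>
        W (Subgroup.centralizer ({u} : Set A) ⊓ X.comap p) (R.comap p)
      have hsup : ∀ R : Subgroup B, (Subgroup.zpowers (p u) ⊔ R).comap p =
          Subgroup.zpowers u ⊔ R.comap p := by
        intro R
        have e1 : Subgroup.zpowers (p u) ⊔ R = (Subgroup.zpowers u ⊔ R.comap p).map p := by
          rw [Subgroup.map_sup, MonoidHom.map_zpowers, Subgroup.map_comap_eq_self_of_surjective hp]
        rw [e1]
        apply Subgroup.comap_map_eq_self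
        refine le_trans ?_ le_sup_right
        rw [← MonoidHom.comap_bot]
        exact Subgroup.comap_mono bot_le
      have hW : ∀ X R : Subgroup B, X ≤ Subgroup.centralizer ({p u} : Set B) →
          W' X (Subgroup.zpowers (p u) ⊔ R) = W' X R := by
        intro X R _
        change (Nat.card _ : ℤ) * (lnum _ (br ((Subgroup.zpowers (p u) ⊔ R).comap p) e) : ℤ) =
          (Nat.card _ : ℤ) * (lnum _ (br (R.comap p) e) : ℤ)
        rw [hsup, H97.lnum_congr (Subgroup.centralizer ({u} : Set A) ⊓ X.comap p)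
          (fun t ht => H97.br_sup ht.1 (R.comap p) e)]
      have h3 := H97.cancel (p u) hpl hpu W' hW
      refine Eq.trans ?_ h3
      rw [Finset.sum_filter]
      refine Finset.sum_congr rfl fun d _ => ?_
      have e3 : Subgroup.centralizer ({u} : Set A) ⊓
          (Subgroup.centralizer ({p u} : Set B) ⊓ stab d).comap p =
          Subgroup.centralizer ({u} : Set A) ⊓ (stab d).comap p := by
        ext g
        rw [Subgroup.mem_inf, Subgroup.mem_inf, Subgroup.mem_comap, Subgroup.mem_inf,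
          Subgroup.mem_comap]
        constructor
        · rintro ⟨k1, k2, k3⟩
          exact ⟨k1, k3⟩
        · rintro ⟨k1, k3⟩
          refine ⟨k1, ?_, k3⟩
          rw [Subgroup.mem_centralizer_singleton_iff] at k1 ⊢
          rw [← map_mul, k1, map_mul]
      change _ = if p u ∈ stab d then (-1) ^ (d.card + 1) * W (Subgroup.centralizer ({u} : Set A) ⊓
        (Subgroup.centralizer ({p u} : Set B) ⊓ stab d).comap p) ((top d).comap p) else 0
      rw [e3]
      rfl
  rw [Finset.sum_congr rfl h2, ← Finset.sum_filter, Finset.sum_const]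
  have h4 : ((Finset.univ.filter (fun u : A => ∃ n : ℕ, u ^ ℓ ^ n = 1)).filter
      (fun u => u ∈ p.ker)).card = Nat.card p.ker := by
    rw [← Set.ncard_coe_finset, ← Nat.card_coe_set_eq]
    congr 1
    have : ((((Finset.univ.filter (fun u : A => ∃ n : ℕ, u ^ ℓ ^ n = 1)).filter
      (fun u => u ∈ p.ker) : Finset A)) : Set A) = (p.ker : Set A) := by
      ext u
      rw [Finset.mem_coe, Finset.mem_filter, Finset.mem_filter]
      constructor
      · rintro ⟨_, h⟩
        exact h
      · intro h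
        obtain ⟨n, hn⟩ := hk ⟨u, h⟩
        exact ⟨⟨Finset.mem_univ _, n, congrArg Subtype.val hn⟩, h⟩
    rw [this]
    rfl
  rw [h4, nsmul_eq_mul, pow_two, mul_assoc]
  congr 1
  -- the remaining sum
  have h5 := nch ℓ B ⊤ (fun X R => W (X.comap p) (R.comap p))
  have h6 := nch ℓ B ⊤ (fun X _ => (Nat.card X : ℤ) * (lnum X (push p e) : ℤ))
  rw [h5, YY, h6, Finset.mul_sum]
  refine Finset.sum_congr rfl fun d hd => ?_
  rw [Finset.mem_filter] at hd
  obtain ⟨g1, g2, g3, g4⟩ := comap_facts hp hk hd.1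
  change (-1) ^ (d.card + 1) * ((Nat.card ((stab d).comap p) : ℤ) *
    (lnum ((stab d).comap p) (br ((top d).comap p) e) : ℤ)) = _
  rw [H97.lnum_br nls hF he.1 _ _ g1 (g4 hd.2) g3, lnum_comap nls hF hp hk, card_comap hp,
    Nat.cast_mul]
  ring

end cen

end Pool.Agent.PP.H75
end
end -- Pool.Agent.Helper75_PP.Cen

section -- Pool.Agent.Helper75_PP.AltC

/-!
# Squad PP: the alternating sum of the problem for a central `O_ℓ(G)`
-/

open scoped BigOperators

set_option linter.unusedSectionVars false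

noncomputable section

namespace Pool.Agent.PP.H75

open Pool.Agent.Helper51_AWC Pool.Agent.Helper79_WRA Pool.Agent.PP

section alt

variable {A B : Type} [Group A] [Group B] [Finite A] [Finite B]

theorem bot_normalizer : Subgroup.normalizer ((⊥ : Subgroup A) : Set A) = ⊤ := by
  rw [eq_top_iff]
  intro g _
  rw [mem_normalizer_iff_conjS]
  ext x
  rw [mem_conjS, Subgroup.mem_bot, Subgroup.mem_bot]
  constructor
  · intro h
    have e1 : x = g * (g⁻¹ * x * g) * g⁻¹ := by group
    rw [e1, h]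
    group
  · rintro rfl
    group

open Classical in
/-- adding the trivial subgroup to the preimage of a chain -/
theorem insert_bot_facts {ℓ : ℕ} {p : A →* B} (hp : Function.Surjective p)
    (hk : IsPGroup ℓ p.ker) {d : Finset (Subgroup B)}
    (hd : d ∈ chainsOn (psubIn ℓ (⊤ : Subgroup B)) ⊥) (hn : NormalChain d) :
    insert ⊥ (comapC p hp d) ∈ chainsOn (psubIn ℓ (⊤ : Subgroup A)) ⊥ ∧
      NormalChain (insert ⊥ (comapC p hp d)) ∧
      stab (insert ⊥ (comapC p hp d)) = (stab d).comap p ∧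
      top (insert ⊥ (comapC p hp d)) = (top d).comap p := by
  obtain ⟨h1, h2, h3⟩ := mem_chainsOn.1 hd
  have hch : IsChain (· ≤ ·) ((comapC p hp d : Finset (Subgroup A)) : Set (Subgroup A)) := by
    intro D hD E hE _
    obtain ⟨D', hD', rfl⟩ := mem_comapC.1 (Finset.mem_coe.1 hD)
    obtain ⟨E', hE', rfl⟩ := mem_comapC.1 (Finset.mem_coe.1 hE)
    rcases chain_total h3 hD' hE' with h | h
    · exact Or.inl (Subgroup.comap_mono h)
    · exact Or.inr (Subgroup.comap_mono h)
  have ht := H97.top_mem h3 ⟨_, h2⟩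
  have htop : top (insert ⊥ (comapC p hp d)) = (top d).comap p := by
    rw [H97.top_insert, bot_sup_eq]
    apply le_antisymm
    · apply sSup_le
      intro D hD
      obtain ⟨E, hE, rfl⟩ := mem_comapC.1 (Finset.mem_coe.1 hD)
      exact Subgroup.comap_mono (H97.le_tp hE)
    · exact le_sSup (Finset.mem_coe.2 (mem_comapC.2 ⟨_, ht, rfl⟩))
  have hstab : stab (insert ⊥ (comapC p hp d)) = (stab d).comap p := by
    rw [← stab_comapC p hp d]
    ext g
    rw [H97.mem_stab, H97.mem_stab]
    constructor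
    · intro h D hD
      exact h D (Finset.mem_insert_of_mem hD)
    · intro h D hD
      rcases Finset.mem_insert.1 hD with rfl | hD
      · rw [bot_normalizer]
        trivial
      · exact h D hD
  refine ⟨?_, ?_, hstab, htop⟩
  · rw [mem_chainsOn]
    refine ⟨?_, Finset.mem_insert_self _ _, ?_⟩
    · intro D hD
      rcases Finset.mem_insert.1 hD with rfl | hD
      · exact mem_psubIn'.2 ⟨bot_le, IsPGroup.of_bot⟩
      · obtain ⟨E, hE, rfl⟩ := mem_comapC.1 hD
        exact mem_psubIn'.2 ⟨le_top, (isPGroup_comap_iff hp hk E).2 (mem_psubIn'.1 (h1 hE)).2⟩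
    · rw [Finset.coe_insert]
      apply hch.insert
      intro D _ _
      exact Or.inl bot_le
  · intro D hD
    rw [htop]
    rcases Finset.mem_insert.1 hD with rfl | hD
    · rw [bot_normalizer]
      exact le_top
    · obtain ⟨E, hE, rfl⟩ := mem_comapC.1 hD
      intro x hx
      rw [normalizer_comap hp]
      exact hn E hE hx

theorem rk_congr {F : Type} [Field F] (e : A → F) {X X' R R' : Subgroup A} (hX : X = X')
    (hR : R = R') : rk (fun t : X => br R e t) (cfs F X) =
      rk (fun t : X' => br R' e t) (cfs F X') := by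
  subst hX
  subst hR
  rfl

/-- the alternating sum of the problem, for a central `O_ℓ(G)` -/
theorem altSum_central (nls : NlsStmt) (brm : BrmStmt) (smt : SmtStmt) (nch : NchStmt)
    (dic : DicStmt) {ℓ : ℕ} (hℓ : ℓ.Prime) (M : Ideal (integralClosure ℤ ℂ)) [M.IsMaximal]
    (hM : (ℓ : integralClosure ℤ ℂ) ∈ M) :
    letI := Ideal.Quotient.field M
    GoodF ℓ (FF M) → ∀ {p : A →* B}, Function.Surjective p → p.ker = opCore ℓ A →
      IsPGroup ℓ p.ker → p.ker ≤ Subgroup.center A → ∀ χ ∈ Irr A, ∀ e : A → FF M, IsBlk e →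
      res M e χ = 1 → (∀ ψ ∈ Irr A, labF M ψ ≠ labF M χ → res M e ψ = 0) →
      (Nat.card A : ℤ) * altSum ℓ M χ =
        (Nat.card p.ker : ℤ) ^ 2 * YY ℓ (⊤ : Subgroup B) (push p e) := by
  classical
  let _ := Ideal.Quotient.field M
  intro hF p hp hk hkp hc χ hχ e he h1 h2
  have := Fact.mk hℓ
  rw [← kr_central nls brm smt nch hF hp hkp hc he.1, card_mul_altSum,
    sum_comapC p hp hk hkp]
  let c : Subgroup A → ℤ := fun X =>
    (Nat.card X : ℤ) * ({a | a ∈ IrrS X ∧ labF M a = labF M χ}.ncard : ℤ)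
  have h3 : ∀ d ∈ chainsOn (psubIn ℓ (⊤ : Subgroup B)) ⊥,
      (-1) ^ ((comapC p hp d).card + 1) * (weight M χ (comapC p hp d) : ℤ) =
        (-1) ^ (d.card + 1) * c ((stab d).comap p) := by
    intro d _
    rw [card_comapC, weight, ← H83.ncard_label (stab (comapC p hp d)) hχ, stab_comapC,
      Nat.cast_mul]
  rw [Finset.sum_congr rfl h3, nch ℓ B ⊤ (fun X _ => c (X.comap p)),
    nch ℓ B ⊤ (fun X R => (Nat.card (X.comap p) : ℤ) *
      (rk (fun t : X.comap p => br (R.comap p) e t) (cfs (FF M) (X.comap p)) : ℤ))]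
  refine Finset.sum_congr rfl fun d hd => ?_
  rw [Finset.mem_filter] at hd
  obtain ⟨g1, g2, g3, g4⟩ := insert_bot_facts hp hkp hd.1 hd.2
  have h5 := dic ℓ hℓ M hM A χ hχ e he h1 h2 _ g1 g2
  rw [rk_congr e g3 g4, g3] at h5
  change (-1) ^ (d.card + 1) * ((Nat.card ((stab d).comap p) : ℤ) *
    ({a | a ∈ IrrS ((stab d).comap p) ∧ labF M a = labF M χ}.ncard : ℤ)) = _
  rw [h5]

end alt

end Pool.Agent.PP.H75
end
end -- Pool.Agent.Helper75_PP.AltC

section -- Pool.Agent.Helper75_PP.PosC

/-!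
# Squad PP: positivity of the image of a block idempotent modulo a central `O_ℓ(G)`
-/

open scoped BigOperators

set_option linter.unusedSectionVars false

noncomputable section

namespace Pool.Agent.PP.H75

open Pool.Agent.Helper51_AWC Pool.Agent.Helper79_WRA Pool.Agent.PP

section posc

variable {A B : Type} [Group A] [Group B] [Finite A] [Finite B]

/-- the order of the centraliser of a lift -/
theorem card_cent_lift {p : A →* B} (hp : Function.Surjective p)
    (hc : p.ker ≤ Subgroup.center A) (x : A) :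
    ∃ m, Nat.card (Subgroup.centralizer ({x} : Set A)) = Nat.card p.ker * m ∧
      m ∣ Nat.card (Subgroup.centralizer ({p x} : Set B)) := by
  set C := Subgroup.centralizer ({x} : Set A) with hC
  refine ⟨Nat.card (C.map p), ?_, ?_⟩
  · have h1 : (C.map p).comap p = C := by
      apply Subgroup.comap_map_eq_self
      intro u hu
      rw [hC, Subgroup.mem_centralizer_singleton_iff]
      exact ((Subgroup.mem_center_iff.1 (hc hu)) x).symm
    rw [← card_comap hp, h1]
  · apply Subgroup.card_dvd_of_le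
    rintro _ ⟨y, hy, rfl⟩
    have hy' : y ∈ Subgroup.centralizer ({x} : Set A) := hy
    rw [Subgroup.mem_centralizer_singleton_iff] at hy' ⊢
    rw [← map_mul, hy', map_mul]

/-- two conjugates of `x` with the same image are equal -/
theorem lift_unique {ℓ : ℕ} (hℓ : ℓ.Prime) {p : A →* B} (hk : IsPGroup ℓ p.ker)
    (hc : p.ker ≤ Subgroup.center A) {x : A}
    (hx : ¬ ℓ ∣ Nat.card (Subgroup.centralizer ({p x} : Set B))) {y z : A}
    (h : p (y * x * y⁻¹) = p (z * x * z⁻¹)) : y * x * y⁻¹ = z * x * z⁻¹ := by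
  set w := z⁻¹ * y with hw
  -- `w x w⁻¹ = x u` with `u` in the kernel
  set u := x⁻¹ * (w * x * w⁻¹) with hu
  have hwx : w * x * w⁻¹ = x * u := by rw [hu, mul_inv_cancel_left]
  have hpw : p w * p x * (p w)⁻¹ = p x := by
    have h1 : p w * p x * (p w)⁻¹ = (p z)⁻¹ * p (y * x * y⁻¹) * p z := by
      rw [hw]
      simp only [map_mul, map_inv]
      group
    rw [h1, h]
    simp only [map_mul, map_inv]
    group
  have huk : u ∈ p.ker := by
    rw [MonoidHom.mem_ker, hu]
    simp only [map_mul, map_inv]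
    rw [hpw, inv_mul_cancel]
  have huc : ∀ g, g * u = u * g := fun g => Subgroup.mem_center_iff.1 (hc huk) g
  -- powers of `w`
  have hpow : ∀ n : ℕ, w ^ n * x * (w ^ n)⁻¹ = x * u ^ n := by
    intro n
    induction n with
    | zero => rw [pow_zero, pow_zero, one_mul, inv_one]
    | succ n ih =>
      have e1 : w ^ (n + 1) * x * (w ^ (n + 1))⁻¹ = w * (w ^ n * x * (w ^ n)⁻¹) * w⁻¹ := by
        rw [pow_succ']
        group
      rw [e1, ih]
      have hcn : Commute w (u ^ n) := Commute.pow_right (huc w) n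
      calc w * (x * u ^ n) * w⁻¹ = w * x * (u ^ n * w⁻¹) := by group
        _ = w * x * (w⁻¹ * u ^ n) := by rw [(hcn.inv_left).eq]
        _ = (w * x * w⁻¹) * u ^ n := by group
        _ = x * u ^ (n + 1) := by rw [hwx, pow_succ', mul_assoc]
  set m := Nat.card (Subgroup.centralizer ({p x} : Set B)) with hm
  have hwm : w ^ m ∈ p.ker := by
    have hmem : p w ∈ Subgroup.centralizer ({p x} : Set B) := by
      rw [Subgroup.mem_centralizer_singleton_iff]
      exact mul_inv_eq_iff_eq_mul.1 hpw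
    have h1 : (⟨p w, hmem⟩ : Subgroup.centralizer ({p x} : Set B)) ^ m = 1 := pow_card_eq_one'
    rw [MonoidHom.mem_ker, map_pow]
    exact congrArg Subtype.val h1
  have hum : u ^ m = 1 := by
    have h1 := hpow m
    have h2 : w ^ m * x * (w ^ m)⁻¹ = x := by
      have h3 := Subgroup.mem_center_iff.1 (hc hwm) x
      rw [← h3, mul_inv_cancel_right]
    rw [h2] at h1
    exact (mul_eq_left.1 h1.symm)
  obtain ⟨k, hk⟩ := hk ⟨u, huk⟩
  have huk' : u ^ ℓ ^ k = 1 := congrArg Subtype.val hk
  have hcop : Nat.Coprime m (ℓ ^ k) :=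
    Nat.Coprime.pow_right _ ((Nat.Prime.coprime_iff_not_dvd hℓ).2 hx).symm
  have hu1 : u = 1 := by
    rw [← orderOf_eq_one_iff, ← Nat.dvd_one, ← hcop.gcd_eq_one]
    exact Nat.dvd_gcd (orderOf_dvd_of_pow_eq_one hum) (orderOf_dvd_of_pow_eq_one huk')
  rw [hu1, mul_one] at hwx
  calc y * x * y⁻¹ = z * (w * x * w⁻¹) * z⁻¹ := by rw [hw]; group
    _ = z * x * z⁻¹ := by rw [hwx]

/-- the image of a class sum -/
theorem push_clsum {F : Type} [Field F] {ℓ : ℕ} (hℓ : ℓ.Prime) {p : A →* B}
    (hp : Function.Surjective p) (hk : IsPGroup ℓ p.ker) (hc : p.ker ≤ Subgroup.center A) {x : A}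
    (hx : ¬ ℓ ∣ Nat.card (Subgroup.centralizer ({p x} : Set B))) :
    push p (clsum F ⊤ x) = clsum F ⊤ (p x) := by
  classical
  have := Fintype.ofFinite A
  funext y
  rw [push_eq]
  by_cases h : ∃ q ∈ (⊤ : Subgroup B), y = q * p x * q⁻¹
  · obtain ⟨q, _, rfl⟩ := h
    obtain ⟨g, rfl⟩ := hp q
    rw [Finset.sum_eq_single (g * x * g⁻¹)]
    · rw [if_pos (by rw [map_mul, map_mul, map_inv]), clsum, clsum, if_pos, if_pos]
      · exact ⟨p g, Subgroup.mem_top _, rfl⟩
      · exact ⟨g, Subgroup.mem_top _, rfl⟩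
    · intro z _ hz
      by_cases h1 : p z = p g * p x * (p g)⁻¹
      · rw [if_pos h1, clsum, if_neg]
        rintro ⟨r, _, rfl⟩
        apply hz
        apply lift_unique hℓ hk hc hx
        rw [h1, map_mul, map_mul, map_inv]
      · rw [if_neg h1]
    · intro h'
      exact absurd (Finset.mem_univ _) h'
  · rw [clsum, if_neg h]
    apply Finset.sum_eq_zero
    intro z _
    by_cases h1 : p z = y
    · rw [if_pos h1, clsum, if_neg]
      rintro ⟨r, _, rfl⟩
      apply h
      refine ⟨p r, Subgroup.mem_top _, ?_⟩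
      rw [← h1, map_mul, map_mul, map_inv]
    · rw [if_neg h1]

/-- the label of a block of large defect vanishes at the lifts of the elements of defect zero -/
theorem label_zero {ℓ : ℕ} (hℓ : ℓ.Prime) (M : Ideal (integralClosure ℤ ℂ)) [M.IsMaximal]
    (hM : (ℓ : integralClosure ℤ ℂ) ∈ M) {p : A →* B} (hp : Function.Surjective p)
    (hkO : p.ker = opCore ℓ A) (hc : p.ker ≤ Subgroup.center A) {χ : A → ℂ} (hχ : χ ∈ Irr A)
    (hL : LargeDefect ℓ M χ) {x : A}
    (hx : ¬ ℓ ∣ Nat.card (Subgroup.centralizer ({p x} : Set B))) : labF M χ x = 0 := by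
  have := Fintype.ofFinite A
  have hMp : M.IsPrime := (inferInstance : M.IsMaximal).isPrime
  obtain ⟨ψ, hψ, hψχ, n, hn, hdvd⟩ := hL
  have h1 : labF M χ x = red M (omega (MonoidHom.id A) ψ x) := by
    symm
    exact (red_eq_iff (omega_integral _ hψ x) (omega_integral _ hχ x)).2 (hψχ x)
  rw [h1]
  apply H83.red_zero_of_cong
  obtain ⟨k, hk⟩ := hdvd
  obtain ⟨m, hm1, hm2⟩ := card_cent_lift hp hc x
  have hcod := H83.codeg_mul hψ x
  have hn0 : (n : ℂ) ≠ 0 := by rw [← hn]; exact irr_one_ne hψ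
  have hU0 : (Nat.card p.ker : ℂ) ≠ 0 := by
    exact_mod_cast (Nat.card_pos (α := p.ker)).ne'
  have e1 : ((m : ℕ) : ℂ) * omega (MonoidHom.id A) ψ x = ((ℓ * k : ℕ) : ℂ) * ψ x := by
    have e2 : (Fintype.card A : ℂ) / ψ 1 = (ℓ : ℂ) * (Nat.card p.ker : ℂ) * k := by
      rw [hn, ← Nat.card_eq_fintype_card, hk, ← hkO]
      push_cast
      field_simp
    have e3 : (Nat.card (Subgroup.centralizer {x} : Subgroup A) : ℂ) =
        (Nat.card p.ker : ℂ) * m := by
      rw [hm1]
      push_cast
      rfl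
    rw [e2, e3] at hcod
    apply mul_left_cancel₀ hU0
    push_cast
    linear_combination -hcod
  have h2 : Cong M (((m : ℕ) : ℂ) * omega (MonoidHom.id A) ψ x) 0 := by
    rw [e1]
    exact (cong_nat_of_dvd hM (dvd_mul_right _ _)).mul_zero_right (irr_integral hψ x)
  rcases cong_mul_zero (AI.natCast _) (omega_integral _ hψ x) h2 with h3 | h3
  · exact absurd ((dvd_of_cong_nat hℓ hM h3).trans hm2) hx
  · exact h3

end posc

end Pool.Agent.PP.H75
end
end -- Pool.Agent.Helper75_PP.PosC

section -- Pool.Agent.Helper75_PP.Fin0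

/-!
# Squad PP, module FIN: from ordinary characters to `ℓ`-numbers
-/

open scoped BigOperators

set_option linter.unusedSectionVars false

noncomputable section

namespace Pool.Agent.PP.H75

open Pool.Agent.Helper51_AWC Pool.Agent.Helper79_WRA Pool.Agent.PP

section fin0

variable {M : Ideal (integralClosure ℤ ℂ)} {A B : Type} [Group A] [Finite A] [Group B] [Finite B]

/-- positivity of the image of a block of large defect -/
theorem pos_push {ℓ : ℕ} (hℓ : ℓ.Prime) [M.IsMaximal] (hM : (ℓ : integralClosure ℤ ℂ) ∈ M)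
    {p : A →* B} (hp : Function.Surjective p) (hkO : p.ker = opCore ℓ A)
    (hk : IsPGroup ℓ p.ker) (hc : p.ker ≤ Subgroup.center A) :
    letI := Ideal.Quotient.field M
    ∀ {χ : A → ℂ}, χ ∈ Irr A → ∀ {e : A → FF M}, IsBlk e → res M e χ = 1 →
      LargeDefect ℓ M χ → Pos ℓ (push p e) (⊤ : Subgroup B) := by
  let _ := Ideal.Quotient.field M
  intro χ hχ e he he1 hL y _ hy
  obtain ⟨x, rfl⟩ := hp y
  rw [inf_top_eq] at hy
  have h1 : res M (clsum (FF M) ⊤ x) χ = 0 := by
    rw [res_clsum x]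
    exact label_zero hℓ M hM hp hkO hc hχ hL hy
  have hcl : IsCl (clsum (FF M) ⊤ x) := by
    intro z g
    have := congrFun (clsum_inv (F := FF M) (Q := (⊤ : Subgroup A)) x g⁻¹ (Subgroup.mem_top _)) z
    rw [cj, inv_inv] at this
    exact this
  obtain ⟨n, hn⟩ := nilp hχ he he1 hcl h1
  refine ⟨n, ?_⟩
  rw [← push_clsum hℓ hp hk hc hy, ← push_iterate, hn, push_zero]

theorem push_id {F : Type} [Field F] (a : A → F) : push (MonoidHom.id A) a = a := by
  classical
  have := Fintype.ofFinite A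
  funext y
  rw [push_eq, Finset.sum_eq_single y]
  · rw [if_pos (MonoidHom.id_apply A y)]
  · intro x _ hx
    rw [if_neg]
    exact hx
  · intro h
    exact absurd (Finset.mem_univ _) h

theorem opCore_normal (ℓ : ℕ) : (opCore ℓ A).Normal := by
  constructor
  intro n hn g
  have h := opCore_conj ℓ g
  rw [← h, mem_conjS]
  have e : g⁻¹ * (g * n * g⁻¹) * g = n := by group
  rw [e]
  exact hn

theorem opCore_isPGroup {ℓ : ℕ} (hℓ : ℓ.Prime) : IsPGroup ℓ (opCore ℓ A) := by
  have := Fact.mk hℓ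
  exact (opCore_spec ℓ A).2.1

/-- For a block of large defect of a group with central `O_ℓ` : the alternating sum is a multiple
of the alternating sum of a positive idempotent of the quotient. -/
theorem central_case (nls : NlsStmt) (brm : BrmStmt) (smt : SmtStmt) (nch : NchStmt)
    (dic : DicStmt) (bid : BidStmt) (fld : FldStmt) {ℓ : ℕ} (hℓ : ℓ.Prime) [M.IsMaximal]
    (hM : (ℓ : integralClosure ℤ ℂ) ∈ M) (hc : opCore ℓ A ≤ Subgroup.center A) :
    letI := Ideal.Quotient.field M
    ∀ {χ : A → ℂ}, χ ∈ Irr A → LargeDefect ℓ M χ →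
      ∃ (B : Type) (_ : Group B) (_ : Finite B) (p : A →* B) (e : B → FF M),
        Function.Surjective p ∧ IsIdem e ∧ Pos ℓ e ⊤ ∧
          (Nat.card A : ℤ) * altSum ℓ M χ = (Nat.card p.ker : ℤ) ^ 2 * YY ℓ (⊤ : Subgroup B) e := by
  let _ := Ideal.Quotient.field M
  intro χ hχ hL
  have hF : GoodF ℓ (FF M) := fld ℓ hℓ M hM
  have hn := opCore_normal (A := A) ℓ
  obtain ⟨e, he, h1, h2⟩ := bid ℓ hℓ M hM A χ hχ
  have hker : (QuotientGroup.mk' (opCore ℓ A)).ker = opCore ℓ A := QuotientGroup.ker_mk' _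
  have hsurj := QuotientGroup.mk'_surjective (opCore ℓ A)
  have hkp : IsPGroup ℓ (QuotientGroup.mk' (opCore ℓ A)).ker := by
    rw [hker]
    exact opCore_isPGroup hℓ
  have hkc : (QuotientGroup.mk' (opCore ℓ A)).ker ≤ Subgroup.center A := by
    rw [hker]
    exact hc
  exact ⟨A ⧸ opCore ℓ A, inferInstance, inferInstance, QuotientGroup.mk' (opCore ℓ A),
    push (QuotientGroup.mk' (opCore ℓ A)) e, hsurj, push_isIdem hsurj he.1,
    pos_push hℓ hM hsurj hker hkp hkc hχ he h1 hL,
    altSum_central nls brm smt nch dic hℓ M hM hF hsurj hker hkp hkc χ hχ e he h1 h2⟩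

/-- The characters of a block idempotent of positive defect. -/
theorem block_case (nls : NlsStmt) (brm : BrmStmt) (smt : SmtStmt) (nch : NchStmt)
    (dic : DicStmt) (bid : BidStmt) (chp : ChpStmt) (ldp : LdpStmt) (fld : FldStmt) {ℓ : ℕ}
    (hℓ : ℓ.Prime) [M.IsMaximal] (hM : (ℓ : integralClosure ℤ ℂ) ∈ M) (hO : opCore ℓ A = ⊥) :
    letI := Ideal.Quotient.field M
    ∀ {f : A → FF M}, IsBlk f → Pos ℓ f ⊤ → ∃ χ ∈ Irr A, res M f χ = 1 ∧ LargeDefect ℓ M χ ∧
      (Nat.card A : ℤ) * altSum ℓ M χ = YY ℓ ⊤ f := by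
  let _ := Ideal.Quotient.field M
  intro f hf hpos
  have hF : GoodF ℓ (FF M) := fld ℓ hℓ M hM
  obtain ⟨χ, hχ, h1, h2⟩ := blk_char chp bid hℓ hM hf
  have hker : (MonoidHom.id A).ker = opCore ℓ A := by
    rw [hO, MonoidHom.ker_id]
  have hkp : IsPGroup ℓ (MonoidHom.id A).ker := by
    rw [MonoidHom.ker_id]
    exact IsPGroup.of_bot
  have hkc : (MonoidHom.id A).ker ≤ Subgroup.center A := by
    rw [MonoidHom.ker_id]
    exact bot_le
  have h3 := altSum_central nls brm smt nch dic hℓ M hM hF (p := MonoidHom.id A)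
    Function.surjective_id hker hkp hkc χ hχ f hf h1 h2
  rw [MonoidHom.ker_id, Subgroup.card_bot, push_id, Nat.cast_one, one_pow, one_mul] at h3
  exact ⟨χ, hχ, h1, (ldp ℓ hℓ M hM A hO χ hχ f hf h1).2 hpos, h3⟩

theorem res_smul [M.IsMaximal] {χ : A → ℂ} :
    letI := Ideal.Quotient.field M
    ∀ (c : FF M) (a : A → FF M), res M (fun x => c * a x) χ = c * res M a χ := by
  let _ := Ideal.Quotient.field M
  intro c a
  unfold res
  rw [mul_finsum]
  apply finsum_congr
  intro K
  rw [mul_assoc]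

/-- `res` at a central element -/
theorem res_dl [M.IsMaximal] {χ : A → ℂ} (hχ : χ ∈ Irr A) {z : A} (hz : z ∈ Subgroup.center A)
    (h1 : χ z = χ 1) : letI := Ideal.Quotient.field M
    IsCl (dl (FF M) z) ∧ res M (dl (FF M) z) χ = 1 := by
  classical
  let _ := Ideal.Quotient.field M
  have := Fintype.ofFinite A
  have hconj : ∀ g h : A, h * g * h⁻¹ = z ↔ g = z := by
    intro g h
    have hzc := Subgroup.mem_center_iff.1 hz
    constructor
    · intro h'
      have h2 : g = h⁻¹ * z * h := by rw [← h']; group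
      rw [h2, hzc h⁻¹, inv_mul_cancel_right]
    · rintro rfl
      rw [hzc h, mul_inv_cancel_right]
  have hcl : IsCl (dl (FF M) z) := by
    intro x y
    unfold dl
    by_cases h : x = z
    · rw [if_pos h, if_pos ((hconj x y).2 h)]
    · rw [if_neg h, if_neg (fun h' => h ((hconj x y).1 h'))]
  refine ⟨hcl, ?_⟩
  obtain ⟨_, h2⟩ := res_eq_red (M := M) hχ (A := fun g => if g = z then (1 : ℂ) else 0) (by
      intro g h
      by_cases h' : g = z
      · rw [if_pos h', if_pos ((hconj g h).2 h')]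
      · rw [if_neg h', if_neg (fun h'' => h' ((hconj g h).1 h''))])
    (by
      intro g
      split_ifs
      · exact isIntegral_one
      · exact isIntegral_zero) (dl (FF M) z) (by
      intro g
      unfold dl
      split_ifs
      · exact red_one
      · exact red_zero)
  rw [h2]
  have h3 : wC (fun g => if g = z then (1 : ℂ) else 0) χ = 1 := by
    rw [wC, Finset.sum_eq_single z]
    · rw [if_pos rfl, one_mul, h1, div_self (irr_one_ne hχ)]
    · intro b _ hb
      rw [if_neg hb, zero_mul]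
    · intro h
      exact absurd (Finset.mem_univ _) h
  rw [h3, red_one]

/-- characters below an idempotent lying over a faithful character of the centre are faithful on
the centre -/
theorem faithful_char [M.IsMaximal] : letI := Ideal.Quotient.field M
    ∀ {e f : A → FF M}, IsBlk f → mulF e f = f →
      (∀ z ∈ Subgroup.center A, z ≠ 1 → ∃ c : FF M, c ≠ 1 ∧ ∀ x, e (z * x) = c * e x) →
      ∀ {χ : A → ℂ}, χ ∈ Irr A → res M f χ = 1 → ∀ z ∈ Subgroup.center A, χ z = χ 1 → z = 1 := by
  let _ := Ideal.Quotient.field M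
  intro e f hf hef hcl χ hχ hres z hz hχz
  by_contra hz1
  obtain ⟨c, hc1, hc⟩ := hcl z⁻¹ (Subgroup.inv_mem _ hz) (fun h => hz1 (inv_eq_one.1 h))
  obtain ⟨hdl, hdl1⟩ := res_dl (M := M) hχ hz hχz
  have h1 : mulF (dl (FF M) z) f = fun x => c * f x := by
    funext x
    rw [mulF_dl_left]
    have h2 : ∀ x, mulF e f (z⁻¹ * x) = c * mulF e f x := by
      intro x
      unfold mulF
      rw [mul_finsum, ← finsum_comp_equiv (Equiv.mulLeft z⁻¹)]
      apply finsum_congr
      intro t
      change e (z⁻¹ * t) * f ((z⁻¹ * t)⁻¹ * (z⁻¹ * x)) = _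
      rw [hc, mul_assoc]
      congr 2
      have hzc := Subgroup.mem_center_iff.1 hz
      rw [mul_inv_rev, inv_inv, mul_assoc, mul_inv_cancel_left]
    have h3 := h2 x
    rw [hef] at h3
    exact h3
  have h2 := res_mulF hχ hdl hf.1.1
  rw [h1, res_smul, hdl1, hres, mul_one, mul_one] at h2
  exact hc1 h2

end fin0

end Pool.Agent.PP.H75
end
end -- Pool.Agent.Helper75_PP.Fin0

section -- Pool.Agent.Helper75_PP.Fin

/-!
# Squad PP, module FIN: the final theorem in terms of ordinary characters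
-/

open scoped BigOperators

set_option linter.unusedSectionVars false

noncomputable section

namespace Pool.Agent.PP

open Pool.Agent.Helper51_AWC Pool.Agent.Helper79_WRA

/-- The conjecture holds at `ℓ` for the blocks of positive defect, faithful on the centre, of all
finite groups `D` with `O_ℓ(D) = 1` such that `D / Z(D)` is almost simple with socle of order
divisible by `ℓ`, the outer part is a nilpotent group of order prime to `ℓ`, and `D / Z(D)` is
involved in `G`. -/
def GoodC (ℓ : ℕ) (M : Ideal (integralClosure ℤ ℂ)) (G : Type) [Group G] : Prop :=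
  ∀ (S : Type) [Group S] [Finite S], NonabSimple S → ℓ ∣ Nat.card S →
    ∀ (D : Type) [Group D] [Finite D], opCore ℓ D = ⊥ → NearlySimpleL ℓ D S →
      Involves G (D ⧸ Subgroup.center D) →
      ∀ χ ∈ Irr D, (∀ z ∈ Subgroup.center D, χ z = χ 1 → z = 1) → LargeDefect ℓ M χ →
        altSum ℓ M χ = 0

/-- FIN: the final theorem. -/
def FinStmt : Prop := ∀ (ℓ : ℕ), ℓ.Prime → ∀ (M : Ideal (integralClosure ℤ ℂ)) [M.IsMaximal],
  (ℓ : integralClosure ℤ ℂ) ∈ M → ∀ (G : Type) [Group G] [Finite G],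
  opCore ℓ G ≤ Subgroup.center G → GoodC ℓ M G → ∀ χ ∈ Irr G, LargeDefect ℓ M χ →
    altSum ℓ M χ = 0

namespace H75

/-- FIN -/
theorem fin (main : MainStmt) (add : AddStmt) (nls : NlsStmt) (brm : BrmStmt) (smt : SmtStmt)
    (nch : NchStmt) (dic : DicStmt) (bid : BidStmt) (chp : ChpStmt) (ldp : LdpStmt)
    (fld : FldStmt) : FinStmt := by
  intro ℓ hℓ M _ hM G _ _ hc hgood χ hχ hL
  let _ := Ideal.Quotient.field M
  have hfact := Fact.mk hℓ
  have hF : GoodF ℓ (FF M) := fld ℓ hℓ M hM
  obtain ⟨B, _, _, p, e, hp, he, hpos, heq⟩ :=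
    central_case nls brm smt nch dic bid fld hℓ hM hc hχ hL
  have hgoodP : GoodP ℓ (FF M) (⊤ : Subgroup B) := by
    intro S _ _ hS hlS _ D _ _ hO hD hinv e' he' hcl hpos'
    apply add ℓ (FF M) hF D ⊤ inferInstance e' he'
    intro f hf hef
    have hfe : mulF f e' = f := by
      rw [mulF_comm_cl hf.1.1]
      exact hef
    have hposf : Pos ℓ f ⊤ := H46.pos_mono hf.1 hfe hpos'
    obtain ⟨ψ, hψ, h1, h2, h3⟩ := block_case nls brm smt nch dic bid chp ldp fld hℓ hM hO hf hposf
    rw [← h3, hgood S hS hlS D hO hD (hinv.of_surjective p hp) ψ hψ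
      (faithful_char hf hef hcl hψ h1) h2, mul_zero]
  have h0 : YY ℓ (⊤ : Subgroup B) e = 0 :=
    main ℓ (FF M) hF B ⊤ inferInstance hgoodP e he hpos
  rw [h0, mul_zero] at heq
  rcases mul_eq_zero.1 heq with h | h
  · exact absurd h (by exact_mod_cast (Nat.card_pos (α := G)).ne')
  · exact h

end H75

end Pool.Agent.PP
end
end -- Pool.Agent.Helper75_PP.Fin
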