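import Pool.Agent.Helper12_AWB.B047
import Pool.Agent.Helper12_AWB.B058
import Pool.Agent.Helper12_AWB.B073

/-!
# Merged copies (generated) of the modules

* `Pool.Agent.Helper63_PP.Smt`
* `Pool.Agent.Helper43_PP.Smo`
* `Pool.Agent.Helper47_PP.Osi`
* `Pool.Agent.Helper60_PP.Lqr`
* `Pool.Agent.Helper65_PP.Fis`
-/

set_option autoImplicit false

section -- Pool.Agent.Helper63_PP.Smt

/-!
# Squad PP, module SMT: the second main theorem as a formula for ranks
-/

open scoped BigOperators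

set_option linter.unusedSectionVars false

noncomputable section

namespace Pool.Agent.PP.H63

open Pool.Agent.PP Pool.Agent.Helper51_AWC Pool.Agent.Helper79_WRA

variable {F H : Type} [Field F] [Group H]

theorem cent_zp {u t : H} (ht : t ∈ Subgroup.centralizer (Subgroup.zpowers u : Set H)) :
    t ∈ Subgroup.centralizer ({u} : Set H) := by
  rw [Subgroup.mem_centralizer_singleton_iff]
  rw [Subgroup.mem_centralizer_iff] at ht
  exact (ht u (Subgroup.mem_zpowers u)).symm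

theorem zp_cent {u t : H} (ht : t ∈ Subgroup.centralizer ({u} : Set H)) :
    t ∈ Subgroup.centralizer (Subgroup.zpowers u : Set H) := by
  rw [Subgroup.mem_centralizer_singleton_iff] at ht
  rw [Subgroup.mem_centralizer_iff]
  rintro _ ⟨k, rfl⟩
  have h : Commute u t := ht.symm
  exact (h.zpow_left k).eq

theorem cent_iff {u t : H} : t ∈ Subgroup.centralizer (Subgroup.zpowers u : Set H) ↔
    t ∈ Subgroup.centralizer ({u} : Set H) := ⟨cent_zp, zp_cent⟩

/-- SMA: the action on the coset of an `ℓ`-element. -/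
theorem sma : SmaStmt := by
  classical
  intro ℓ F _ hF H _ _ a f ha hf u hu x
  have hch := hF.char
  have := Fintype.ofFinite H
  have hV : ∀ v : F, ℓ • v = 0 := by
    intro v
    rw [nsmul_eq_mul, CharP.cast_eq_zero, zero_mul]
  have hx : (x : H) * u = u * x := Subgroup.mem_centralizer_singleton_iff.1 x.2
  have hR := Pool.Agent.PP.H97.isPGroup_zp hu
  unfold actF
  rw [finsum_eq_sum_of_fintype, finsum_eq_sum_of_fintype]
  rw [Pool.Agent.PP.H20.conj_sum hF.prime hV (Subgroup.zpowers u) hR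
    (fun t => a t * f (t * (u * x))) (fun r hr t => by
      obtain ⟨k, rfl⟩ := hr
      change a (u ^ k * t * (u ^ k)⁻¹) * f (u ^ k * t * (u ^ k)⁻¹ * (u * x)) =
        a t * f (t * (u * x))
      have h1 : Commute (u ^ k) (u * x) := by
        have h2 : Commute u (u * x) := (Commute.refl u).mul_right (show Commute u x from hx.symm)
        exact h2.zpow_left k
      have h3 : u ^ k * t * (u ^ k)⁻¹ * (u * x) = u ^ k * (t * (u * x)) * (u ^ k)⁻¹ := by
        have h4 : (u ^ k)⁻¹ * (u * x) = (u * x) * (u ^ k)⁻¹ := (h1.inv_left).eq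
        rw [mul_assoc (u ^ k * t), h4]
        group
      rw [ha, h3, hf])]
  symm
  apply Fintype.sum_of_injective (fun t : Subgroup.centralizer ({u} : Set H) => (t : H))
    Subtype.val_injective
  · intro t ht
    rw [if_neg]
    intro hc
    exact ht ⟨⟨t, cent_iff.1 hc⟩, rfl⟩
  · intro t
    rw [if_pos (cent_iff.2 t.2)]
    have ht : (t : H) * u = u * t := Subgroup.mem_centralizer_singleton_iff.1 t.2
    change a t * f (u * (t * x)) = a t * f (t * (u * x))
    rw [← mul_assoc, ← mul_assoc, ht]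

/-- A central idempotent preserves the space of Brauer characters. -/
theorem act_TT {ℓ : ℕ} (hF : GoodF ℓ F) [Finite H] {a : H → F} (ha : IsCl a) {f : H → F}
    (hf : f ∈ TT F H ℓ) : actF a f ∈ TT F H ℓ := by
  have hb := Pool.Agent.PP.H74.brt Pool.Agent.PP.H20.ibf Pool.Agent.PP.H20.ibc
    Pool.Agent.PP.H20.ibj Pool.Agent.PP.H20.ibn ℓ F hF H
  rw [← hb] at hf ⊢
  induction hf using Submodule.span_induction with
  | mem x hx =>
    obtain ⟨n, ρ, hρ, rfl⟩ := hx
    obtain ⟨w, -, hw, -⟩ := Pool.Agent.PP.H20.eig F H n ρ hρ a ha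
    rw [hw]
    exact Submodule.smul_mem _ _ (Submodule.subset_span ⟨n, ρ, hρ, rfl⟩)
  | zero =>
    have : actF a (0 : H → F) = 0 := (actL a).map_zero
    rw [this]
    exact Submodule.zero_mem _
  | add x y _ _ hx hy =>
    have : actF a (x + y) = actF a x + actF a y := (actL a).map_add x y
    rw [this]
    exact Submodule.add_mem _ hx hy
  | smul c x _ hx =>
    have : actF a (c • x) = c • actF a x := (actL a).map_smul c x
    rw [this]
    exact Submodule.smul_mem _ _ hx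

theorem act_cl [Finite H] {a f : H → F} (ha : IsCl a) (hf : IsCl f) : IsCl (actF a f) := by
  have := Fintype.ofFinite H
  intro x y
  unfold actF
  rw [finsum_eq_sum_of_fintype, finsum_eq_sum_of_fintype,
    ← Equiv.sum_comp (MulAut.conj y).toEquiv (fun t => a t * f (t * (y * x * y⁻¹)))]
  apply Finset.sum_congr rfl
  intro t _
  change a (y * t * y⁻¹) * f (y * t * y⁻¹ * (y * x * y⁻¹)) = a t * f (t * x)
  have h1 : y * t * y⁻¹ * (y * x * y⁻¹) = y * (t * x) * y⁻¹ := by group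
  rw [ha, h1, hf]

/-- A central idempotent restricted to the centraliser of an `ℓ`-element. -/
theorem idem_cent {ℓ : ℕ} (hF : GoodF ℓ F) [Finite H] {e : H → F} (he : IsIdem e) {u : H}
    (hu : ∃ n : ℕ, u ^ ℓ ^ n = 1) :
    IsIdem (fun t : Subgroup.centralizer ({u} : Set H) => e t) := by
  have h := (Pool.Agent.PP.H20.brm ℓ F hF H (Subgroup.zpowers u)
    (Subgroup.centralizer ({u} : Set H)) (Pool.Agent.PP.H97.isPGroup_zp hu)
    (fun t ht => cent_zp ht) (fun t ht => Subgroup.centralizer_le_normalizer _ (zp_cent ht))).2.2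
    e he
  have h1 : (fun t : Subgroup.centralizer ({u} : Set H) => br (Subgroup.zpowers u) e t) =
      fun t : Subgroup.centralizer ({u} : Set H) => e t := by
    classical
    funext t
    simp only [br, if_pos (zp_cent t.2)]
  rwa [h1] at h

/-- `q` is a power of `ℓ` which projects onto the `ℓ'`-parts. -/
def Proj (ℓ q : ℕ) (H : Type) [Group H] : Prop := ∀ t : H,
  Reg ℓ (t ^ q) ∧ (Reg ℓ t → t ^ q = t) ∧
    ∃ u : H, Commute (t ^ q) u ∧ (∃ n : ℕ, u ^ ℓ ^ n = 1) ∧ t = t ^ q * u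

theorem Proj.one {ℓ q : ℕ} (hq : Proj ℓ q H) {u : H} (hu : ∃ n : ℕ, u ^ ℓ ^ n = 1) :
    u ^ q = 1 := by
  obtain ⟨n, hn⟩ := hu
  have h1 : (orderOf (u ^ q)).Coprime ℓ := (hq u).1
  have h2 : (u ^ q) ^ ℓ ^ n = 1 := by
    rw [← pow_mul, mul_comm, pow_mul, hn, one_pow]
  have h3 : orderOf (u ^ q) ∣ ℓ ^ n := orderOf_dvd_of_pow_eq_one h2
  have h4 : orderOf (u ^ q) = 1 := Nat.Coprime.eq_one_of_dvd (h1.pow_right n) h3
  exact orderOf_eq_one_iff.1 h4

theorem Proj.pow_pow {ℓ q : ℕ} (hq : Proj ℓ q H) (t : H) : (t ^ q) ^ q = t ^ q :=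
  (hq (t ^ q)).2.1 (hq t).1

theorem Proj.sub {ℓ q : ℕ} (hq : Proj ℓ q H) (X : Subgroup H) : Proj ℓ q X := by
  intro t
  have h := hq t
  refine ⟨?_, ?_, ?_⟩
  · have h1 : orderOf (t ^ q) = orderOf ((t : H) ^ q) := by
      rw [← Subgroup.coe_pow, Subgroup.orderOf_coe]
    unfold Reg
    rw [h1]
    exact h.1
  · intro ht
    apply Subtype.ext
    rw [Subgroup.coe_pow]
    apply h.2.1
    unfold Reg
    rw [Subgroup.orderOf_coe]
    exact ht
  · obtain ⟨u, h1, ⟨n, h2⟩, h3⟩ := h.2.2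
    have h4 : u = ((t : H) ^ q)⁻¹ * t := by
      conv_rhs => rw [h3]
      have h5 : ((t : H) ^ q * u) ^ q = (t : H) ^ q := by rw [← h3]
      rw [h5, inv_mul_cancel_left]
    have h6 : u ∈ X := by
      rw [h4]
      exact X.mul_mem (X.inv_mem (X.pow_mem t.2 q)) t.2
    exact ⟨⟨u, h6⟩, Subtype.ext h1, ⟨n, Subtype.ext h2⟩, Subtype.ext h3⟩

/-- Functions in `TT` only depend on the `ℓ'`-part. -/
theorem Proj.tt {ℓ q : ℕ} (hq : Proj ℓ q H) {f : H → F} (hf : f ∈ TT F H ℓ) (x : H) :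
    f (x ^ q) = f x := by
  obtain ⟨u, h1, h2, h3⟩ := (hq x).2.2
  conv_rhs => rw [h3]
  exact (hf.2 _ _ h1 h2).symm

/-- The function `w ↦ f (u w')` on the centraliser of `u`. -/
def phi (q : ℕ) (u : H) (f : H → F) : Subgroup.centralizer ({u} : Set H) → F :=
  fun w => f (u * (w : H) ^ q)

theorem phi_TT {ℓ q : ℕ} (hq : Proj ℓ q H) {f : H → F} (hf : IsCl f) (u : H) :
    phi q u f ∈ TT F (Subgroup.centralizer ({u} : Set H)) ℓ := by
  refine ⟨fun x y => ?_, ?_⟩
  · have hy : (y : H) * u = u * y := Subgroup.mem_centralizer_singleton_iff.1 y.2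
    change f (u * ((y : H) * x * (y : H)⁻¹) ^ q) = f (u * (x : H) ^ q)
    rw [conj_pow]
    have h1 : u * ((y : H) * (x : H) ^ q * (y : H)⁻¹) = y * (u * (x : H) ^ q) * (y : H)⁻¹ := by
      rw [← mul_assoc, ← mul_assoc, ← mul_assoc, hy]
    rw [h1, hf]
  · rintro x y hxy ⟨n, hn⟩
    change f (u * ((x : H) * (y : H)) ^ q) = f (u * (x : H) ^ q)
    have h1 : Commute (x : H) (y : H) := congrArg Subtype.val hxy
    have h2 : (y : H) ^ q = 1 := hq.one ⟨n, congrArg Subtype.val hn⟩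
    rw [h1.mul_pow, h2, mul_one]

theorem phi_act {ℓ q : ℕ} (hF : GoodF ℓ F) [Finite H] (hq : Proj ℓ q H) {e f : H → F}
    (he : IsIdem e) (hf : IsCl f) {u : H} (hu : ∃ n : ℕ, u ^ ℓ ^ n = 1) :
    phi q u (actF e f) =
      actF (fun t : Subgroup.centralizer ({u} : Set H) => e t) (phi q u f) := by
  set C := Subgroup.centralizer ({u} : Set H) with hC
  funext w
  have hqC := hq.sub C
  have h1 := sma ℓ F hF H e f he.1 hf u hu (w ^ q)
  change actF e f (u * ((w ^ q : C) : H)) = _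
  rw [h1]
  have h2 : actF (fun t : C => e t) (phi q u f) ∈ TT F C ℓ :=
    act_TT hF (idem_cent hF he hu).1 (phi_TT hq hf u)
  rw [← hqC.tt h2 w]
  have h3 : IsCl (fun w : C => f (u * w) - phi q u f w) := by
    intro x y
    have h4 := (phi_TT hq hf u).1 x y
    have hy : (y : H) * u = u * y := Subgroup.mem_centralizer_singleton_iff.1 y.2
    change f (u * ((y : H) * x * (y : H)⁻¹)) - phi q u f (y * x * y⁻¹) = _
    have h5 : u * ((y : H) * (x : H) * (y : H)⁻¹) = y * (u * (x : H)) * (y : H)⁻¹ := by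
      rw [← mul_assoc, ← mul_assoc, ← mul_assoc, hy]
    rw [h4, h5, hf]
  have h4 := Pool.Agent.PP.H74.rgl ℓ F hF C (fun t : C => e t)
    (fun w : C => f (u * w) - phi q u f w) (idem_cent hF he hu) h3 (fun x hx => by
      have h5 : x ^ q = x := (hqC x).2.1 hx
      have h6 : (x : H) ^ q = x := by rw [← Subgroup.coe_pow, h5]
      change f (u * x) - f (u * (x : H) ^ q) = 0
      rw [h6, sub_self]) (w ^ q) (hqC w).1
  have h5 : actF (fun t : C => e t) (fun w : C => f (u * w) - phi q u f w) =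
      actF (fun t : C => e t) (fun w : C => f (u * w)) -
        actF (fun t : C => e t) (phi q u f) :=
    (actL (fun t : C => e t)).map_sub (fun w : C => f (u * w)) (phi q u f)
  rw [h5, Pi.sub_apply, sub_eq_zero] at h4
  exact h4

/-- The classes of `ℓ`-elements. -/
def JJ (ℓ : ℕ) (H : Type) [Group H] : Type :=
  {c : ConjClasses H // ∃ n : ℕ, (Quotient.out c : H) ^ ℓ ^ n = 1}

/-- A representative. -/
def rp {ℓ : ℕ} (j : JJ ℓ H) : H := Quotient.out j.1

theorem rp_pow {ℓ : ℕ} (j : JJ ℓ H) : ∃ n : ℕ, (rp j) ^ ℓ ^ n = 1 := j.2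

theorem mk_rp {ℓ : ℕ} (j : JJ ℓ H) : ConjClasses.mk (rp j) = j.1 := Quotient.out_eq j.1

theorem rp_inj {ℓ : ℕ} {j j' : JJ ℓ H} (h : IsConj (rp j) (rp j')) : j = j' := by
  apply Subtype.ext
  rw [← mk_rp, ← mk_rp]
  exact ConjClasses.mk_eq_mk_iff_isConj.2 h

theorem exists_rp {ℓ : ℕ} {u : H} (hu : ∃ n : ℕ, u ^ ℓ ^ n = 1) :
    ∃ (j : JJ ℓ H) (y : H), y * rp j * y⁻¹ = u := by
  obtain ⟨n, hn⟩ := hu
  have h1 : IsConj (Quotient.out (ConjClasses.mk u) : H) u :=
    ConjClasses.mk_eq_mk_iff_isConj.1 (Quotient.out_eq (ConjClasses.mk u))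
  obtain ⟨y, hy⟩ := isConj_iff.1 h1
  refine ⟨⟨ConjClasses.mk u, n, ?_⟩, y, hy⟩
  have h2' : ∀ v : H, y * v * y⁻¹ = u → v = y⁻¹ * u * y := by
    rintro v rfl
    group
  have h2 := h2' _ hy
  have h3 : y⁻¹ * u * y = y⁻¹ * u * (y⁻¹)⁻¹ := by rw [inv_inv]
  rw [h2, h3, conj_pow, hn]
  group

theorem phi_inj {ℓ q : ℕ} (hq : Proj ℓ q H) {f : H → F} (hf : IsCl f)
    (h0 : ∀ j : JJ ℓ H, phi q (rp j) f = 0) : f = 0 := by
  funext x
  obtain ⟨u, h1, h2, h3⟩ := (hq x).2.2
  obtain ⟨j, y, hy⟩ := exists_rp h2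
  have h4 : y⁻¹ * x ^ q * y ∈ Subgroup.centralizer ({rp j} : Set H) := by
    rw [Subgroup.mem_centralizer_singleton_iff]
    have h5 : rp j = y⁻¹ * u * y := by rw [← hy]; group
    rw [h5]
    calc y⁻¹ * x ^ q * y * (y⁻¹ * u * y) = y⁻¹ * (x ^ q * u) * y := by group
      _ = y⁻¹ * (u * x ^ q) * y := by rw [h1.eq]
      _ = y⁻¹ * u * y * (y⁻¹ * x ^ q * y) := by group
  have h6 := congrFun (h0 j) ⟨_, h4⟩
  change f (rp j * (y⁻¹ * x ^ q * y) ^ q) = 0 at h6
  have h7 : (y⁻¹ * x ^ q * y) ^ q = y⁻¹ * x ^ q * y := by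
    have h8 : y⁻¹ * x ^ q * y = y⁻¹ * x ^ q * (y⁻¹)⁻¹ := by rw [inv_inv]
    rw [h8, conj_pow, hq.pow_pow]
  rw [h7] at h6
  have h9 : x = y * (rp j * (y⁻¹ * x ^ q * y)) * y⁻¹ := by
    have h10 : y * (rp j * (y⁻¹ * x ^ q * y)) * y⁻¹ = (y * rp j * y⁻¹) * x ^ q := by group
    rw [h10, hy, ← h1.eq]
    exact h3
  rw [h9, hf, h6]
  rfl

/-- The relation that defines the function with given images. -/
def Rel {ℓ : ℕ} (q : ℕ) (φ : ∀ j : JJ ℓ H, Subgroup.centralizer ({rp j} : Set H) → F) (x : H)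
    (v : F) : Prop :=
  ∃ (j : JJ ℓ H) (y : H) (hw : y⁻¹ * x ^ q * y ∈ Subgroup.centralizer ({rp j} : Set H)),
    y * rp j * y⁻¹ = x * (x ^ q)⁻¹ ∧ v = φ j ⟨_, hw⟩

theorem rel_exists {ℓ q : ℕ} (hq : Proj ℓ q H)
    (φ : ∀ j : JJ ℓ H, Subgroup.centralizer ({rp j} : Set H) → F) (x : H) :
    ∃ v, Rel q φ x v := by
  obtain ⟨u, h1, h2, h3⟩ := (hq x).2.2
  have h3' : x * (x ^ q)⁻¹ = u := by
    have h4 : x = u * x ^ q := by rw [← h1.eq]; exact h3
    calc x * (x ^ q)⁻¹ = (u * x ^ q) * (x ^ q)⁻¹ := by rw [← h4]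
      _ = u := mul_inv_cancel_right u (x ^ q)
  obtain ⟨j, y, hy⟩ := exists_rp h2
  have h4 : y⁻¹ * x ^ q * y ∈ Subgroup.centralizer ({rp j} : Set H) := by
    rw [Subgroup.mem_centralizer_singleton_iff]
    have h5 : rp j = y⁻¹ * u * y := by rw [← hy]; group
    rw [h5]
    calc y⁻¹ * x ^ q * y * (y⁻¹ * u * y) = y⁻¹ * (x ^ q * u) * y := by group
      _ = y⁻¹ * (u * x ^ q) * y := by rw [h1.eq]
      _ = y⁻¹ * u * y * (y⁻¹ * x ^ q * y) := by group
  exact ⟨_, j, y, h4, by rw [hy, h3'], rfl⟩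

theorem rel_unique {ℓ q : ℕ} {φ : ∀ j : JJ ℓ H, Subgroup.centralizer ({rp j} : Set H) → F}
    (hφ : ∀ j, IsCl (φ j)) {x : H} {v v' : F} (h : Rel q φ x v) (h' : Rel q φ x v') : v = v' := by
  obtain ⟨j, y, hw, hy, rfl⟩ := h
  obtain ⟨j', y', hw', hy', rfl⟩ := h'
  obtain rfl : j = j' := by
    apply rp_inj
    rw [isConj_iff]
    refine ⟨y'⁻¹ * y, ?_⟩
    calc y'⁻¹ * y * rp j * (y'⁻¹ * y)⁻¹ = y'⁻¹ * (y * rp j * y⁻¹) * y' := by group
      _ = y'⁻¹ * (y' * rp j' * y'⁻¹) * y' := by rw [hy, hy']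
      _ = rp j' := by group
  have h1 : y'⁻¹ * y ∈ Subgroup.centralizer ({rp j} : Set H) := by
    rw [Subgroup.mem_centralizer_singleton_iff]
    calc y'⁻¹ * y * rp j = y'⁻¹ * (y * rp j * y⁻¹) * y := by group
      _ = y'⁻¹ * (y' * rp j * y'⁻¹) * y := by rw [hy, hy']
      _ = rp j * (y'⁻¹ * y) := by group
  have h2 := hφ j ⟨_, hw⟩ ⟨_, h1⟩
  rw [← h2]
  congr 1
  apply Subtype.ext
  change y'⁻¹ * y * (y⁻¹ * x ^ q * y) * (y'⁻¹ * y)⁻¹ = y'⁻¹ * x ^ q * y'
  group

theorem phi_surj {ℓ q : ℕ} (hq : Proj ℓ q H)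
    (φ : ∀ j : JJ ℓ H, Subgroup.centralizer ({rp j} : Set H) → F)
    (hφ : ∀ j, φ j ∈ TT F (Subgroup.centralizer ({rp j} : Set H)) ℓ) :
    ∃ f : H → F, IsCl f ∧ ∀ j, phi q (rp j) f = φ j := by
  choose f hf using rel_exists hq φ
  refine ⟨f, fun x z => ?_, fun j => ?_⟩
  · refine rel_unique (fun j => (hφ j).1) (hf (z * x * z⁻¹)) ?_
    obtain ⟨j, y, hw, hy, hv⟩ := hf x
    have h1 : (z * y)⁻¹ * (z * x * z⁻¹) ^ q * (z * y) = y⁻¹ * x ^ q * y := by
      rw [conj_pow]
      group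
    refine ⟨j, z * y, by rw [h1]; exact hw, ?_, ?_⟩
    · rw [conj_pow]
      calc z * y * rp j * (z * y)⁻¹ = z * (y * rp j * y⁻¹) * z⁻¹ := by group
        _ = z * (x * (x ^ q)⁻¹) * z⁻¹ := by rw [hy]
        _ = z * x * z⁻¹ * (z * x ^ q * z⁻¹)⁻¹ := by group
    · rw [hv]
      congr 1
      exact Subtype.ext h1.symm
  · funext w
    change f (rp j * (w : H) ^ q) = φ j w
    refine rel_unique (fun j => (hφ j).1) (hf _) ?_
    have hw : Commute (w : H) (rp j) := Subgroup.mem_centralizer_singleton_iff.1 w.2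
    have h1 : (rp j * (w : H) ^ q) ^ q = (w : H) ^ q := by
      rw [(hw.symm.pow_right q).mul_pow, hq.one (rp_pow j), one_mul, hq.pow_pow]
    have h2 : (1 : H)⁻¹ * (rp j * (w : H) ^ q) ^ q * 1 = (w ^ q : Subgroup.centralizer
        ({rp j} : Set H)) := by
      rw [h1, inv_one, one_mul, mul_one, Subgroup.coe_pow]
    refine ⟨j, 1, by rw [h2]; exact (w ^ q).2, ?_, ?_⟩
    · rw [h1, one_mul, inv_one, mul_one, mul_inv_cancel_right]
    · rw [← (hq.sub _).tt (hφ j) w]
      congr 1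
      exact Subtype.ext h2.symm

/-- `phi` as a linear map -/
def phiL (F : Type) [Field F] {H : Type} [Group H] (q : ℕ) (u : H) :
    (H → F) →ₗ[F] (Subgroup.centralizer ({u} : Set H) → F) where
  toFun f := phi q u f
  map_add' _ _ := rfl
  map_smul' _ _ := rfl

instance {ℓ : ℕ} [Finite H] : Finite (JJ ℓ H) := by
  unfold JJ
  infer_instance

theorem rank_sum {ℓ q : ℕ} (hF : GoodF ℓ F) [Finite H] [Fintype (JJ ℓ H)] (hq : Proj ℓ q H)
    {e : H → F} (he : IsIdem e) :
    rk e (cfs F H) = ∑ j : JJ ℓ H, rk (fun t : Subgroup.centralizer ({rp j} : Set H) => e t)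
      (TT F (Subgroup.centralizer ({rp j} : Set H)) ℓ) := by
  have := Fintype.ofFinite H
  unfold rk
  have hmem : ∀ j : JJ ℓ H, ∀ g ∈ (cfs F H).map (actL e), phiL F q (rp j) g ∈
      (TT F (Subgroup.centralizer ({rp j} : Set H)) ℓ).map
        (actL (fun t : Subgroup.centralizer ({rp j} : Set H) => e t)) := by
    rintro j _ ⟨f, hf, rfl⟩
    refine ⟨phi q (rp j) f, phi_TT hq hf _, ?_⟩
    exact (phi_act hF hq he hf (rp_pow j)).symm
  let Ψ : ((cfs F H).map (actL e)) →ₗ[F]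
      (∀ j : JJ ℓ H, ((TT F (Subgroup.centralizer ({rp j} : Set H)) ℓ).map
        (actL (fun t : Subgroup.centralizer ({rp j} : Set H) => e t)))) :=
    LinearMap.pi fun j => (phiL F q (rp j)).restrict (hmem j)
  have hinj : Function.Injective Ψ := by
    rw [← LinearMap.ker_eq_bot, LinearMap.ker_eq_bot']
    rintro ⟨_, f, hf, rfl⟩ h
    apply Subtype.ext
    refine phi_inj hq (act_cl he.1 hf) (fun j => ?_)
    exact congrArg Subtype.val (congrFun h j)
  have hsurj : Function.Surjective Ψ := by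
    intro φ
    choose ψ hψ1 hψ2 using fun j => (φ j).2
    obtain ⟨f, hf, hf2⟩ := phi_surj hq ψ hψ1
    refine ⟨⟨actL e f, f, hf, rfl⟩, ?_⟩
    funext j
    apply Subtype.ext
    change phi q (rp j) (actF e f) = _
    rw [phi_act hF hq he hf (rp_pow j), hf2]
    exact hψ2 j
  rw [(LinearEquiv.ofBijective Ψ ⟨hinj, hsurj⟩).finrank_eq, Module.finrank_pi_fintype]

/-- The `ℓ`-numbers of centralisers of conjugate elements agree. -/
theorem lnum_conj [Finite H] {e : H → F} (he : IsCl e) (u y : H) :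
    lnum (Subgroup.centralizer ({y * u * y⁻¹} : Set H)) e =
      lnum (Subgroup.centralizer ({u} : Set H)) e := by
  have h1 : (Subgroup.centralizer ({u} : Set H)).map (MulAut.conj y).toMonoidHom =
      Subgroup.centralizer ({y * u * y⁻¹} : Set H) := by
    ext t
    rw [Subgroup.mem_map, Subgroup.mem_centralizer_singleton_iff]
    constructor
    · rintro ⟨x, hx, rfl⟩
      rw [Subgroup.mem_centralizer_singleton_iff] at hx
      change y * x * y⁻¹ * (y * u * y⁻¹) = y * u * y⁻¹ * (y * x * y⁻¹)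
      calc y * x * y⁻¹ * (y * u * y⁻¹) = y * (x * u) * y⁻¹ := by group
        _ = y * (u * x) * y⁻¹ := by rw [hx]
        _ = y * u * y⁻¹ * (y * x * y⁻¹) := by group
    · intro h
      refine ⟨y⁻¹ * t * y, ?_, ?_⟩
      · rw [Subgroup.mem_centralizer_singleton_iff]
        calc y⁻¹ * t * y * u = y⁻¹ * (t * (y * u * y⁻¹)) * y := by group
          _ = y⁻¹ * (y * u * y⁻¹ * t) * y := by rw [h]
          _ = u * (y⁻¹ * t * y) := by group
      · change y * (y⁻¹ * t * y) * y⁻¹ = t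
        group
  have h2 := Pool.Agent.PP.H97.ncard_comp (F := F)
    (MulEquiv.subgroupMap (MulAut.conj y) (Subgroup.centralizer ({u} : Set H)))
    (fun t : (Subgroup.centralizer ({u} : Set H)).map (MulAut.conj y).toMonoidHom => e t)
  have h3 : (fun t : Subgroup.centralizer ({u} : Set H) =>
      e ((MulEquiv.subgroupMap (MulAut.conj y) (Subgroup.centralizer ({u} : Set H)) t :
        (Subgroup.centralizer ({u} : Set H)).map (MulAut.conj y).toMonoidHom) : H)) =
      fun t : Subgroup.centralizer ({u} : Set H) => e t := by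
    funext t
    exact he t y
  rw [h3] at h2
  calc lnum (Subgroup.centralizer ({y * u * y⁻¹} : Set H)) e =
      lnum ((Subgroup.centralizer ({u} : Set H)).map (MulAut.conj y).toMonoidHom) e := by rw [h1]
    _ = lnum (Subgroup.centralizer ({u} : Set H)) e := h2.symm

open Classical in
/-- The sum of the orders of the centralisers over a class. -/
theorem class_sum [Fintype H] (u0 : H) :
    ∑ u ∈ Finset.univ.filter (fun u : H => ConjClasses.mk u = ConjClasses.mk u0),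
      Nat.card (Subgroup.centralizer ({u} : Set H)) = Nat.card H := by
  have h1 : ∀ u ∈ Finset.univ.filter (fun u : H => ConjClasses.mk u = ConjClasses.mk u0),
      Nat.card (Subgroup.centralizer ({u} : Set H)) =
        (Finset.univ.filter (fun y : H => y * u0 * y⁻¹ = u)).card := by
    intro u hu
    rw [Finset.mem_filter] at hu
    obtain ⟨y, hy⟩ := isConj_iff.1 (ConjClasses.mk_eq_mk_iff_isConj.1 hu.2.symm)
    rw [Nat.card_eq_fintype_card, ← Finset.card_univ]
    refine Finset.card_bij (fun (t : Subgroup.centralizer ({u} : Set H)) _ => (t : H) * y) ?_ ?_ ?_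
    · intro t _
      rw [Finset.mem_filter]
      refine ⟨Finset.mem_univ _, ?_⟩
      have ht : (t : H) * u = u * t := Subgroup.mem_centralizer_singleton_iff.1 t.2
      calc (t : H) * y * u0 * ((t : H) * y)⁻¹ = t * (y * u0 * y⁻¹) * (t : H)⁻¹ := by group
        _ = t * u * (t : H)⁻¹ := by rw [hy]
        _ = u := by rw [ht]; group
    · intro s _ t _ h
      exact Subtype.ext (mul_right_cancel h)
    · intro z hz
      rw [Finset.mem_filter] at hz
      refine ⟨⟨z * y⁻¹, ?_⟩, Finset.mem_univ _, inv_mul_cancel_right z y⟩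
      rw [Subgroup.mem_centralizer_singleton_iff]
      calc z * y⁻¹ * u = z * y⁻¹ * (y * u0 * y⁻¹) := by rw [hy]
        _ = (z * u0 * z⁻¹) * (z * y⁻¹) := by group
        _ = u * (z * y⁻¹) := by rw [hz.2]
  rw [Finset.sum_congr rfl h1, Nat.card_eq_fintype_card, ← Finset.card_univ]
  symm
  apply Finset.card_eq_sum_card_fiberwise
  intro y _
  rw [Finset.coe_filter]
  refine ⟨Finset.mem_univ _, ?_⟩
  rw [eq_comm, ConjClasses.mk_eq_mk_iff_isConj]
  exact isConj_iff.2 ⟨y, rfl⟩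

/-- SMT: the second main theorem as a formula for ranks. -/
theorem smt : SmtStmt := by
  classical
  intro ℓ F _ hF H _ _ e he
  obtain ⟨M, -, hq⟩ := Pool.Agent.PP.H74.exists_power H hF.prime 0
  have hq' : Proj ℓ (ℓ ^ M) H := hq
  have hJ : Fintype (JJ ℓ H) := Fintype.ofFinite _
  have hrnk := Pool.Agent.PP.H74.rnk Pool.Agent.PP.H20.ibf Pool.Agent.PP.H20.eig
    (Pool.Agent.PP.H74.brt Pool.Agent.PP.H20.ibf Pool.Agent.PP.H20.ibc
    Pool.Agent.PP.H20.ibj Pool.Agent.PP.H20.ibn)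
  rw [rank_sum hF hq' he, Finset.mul_sum]
  have h1 : ∀ j : JJ ℓ H, Nat.card H * rk
      (fun t : Subgroup.centralizer ({rp j} : Set H) => e t)
        (TT F (Subgroup.centralizer ({rp j} : Set H)) ℓ) =
      ∑ u ∈ Finset.univ.filter (fun u : H => ConjClasses.mk u = j.1),
        Nat.card (Subgroup.centralizer ({u} : Set H)) *
          lnum (Subgroup.centralizer ({u} : Set H)) e := by
    intro j
    have h2 : rk (fun t : Subgroup.centralizer ({rp j} : Set H) => e t)
        (TT F (Subgroup.centralizer ({rp j} : Set H)) ℓ) =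
        lnum (Subgroup.centralizer ({rp j} : Set H)) e :=
      hrnk ℓ F hF _ _ (idem_cent hF he (rp_pow j))
    rw [h2, ← class_sum (rp j), Finset.sum_mul, mk_rp]
    apply Finset.sum_congr rfl
    intro u hu
    rw [Finset.mem_filter, ← mk_rp] at hu
    obtain ⟨y, hy⟩ := isConj_iff.1 (ConjClasses.mk_eq_mk_iff_isConj.1 hu.2.symm)
    rw [← hy, lnum_conj he.1]
  rw [Finset.sum_congr rfl (fun j _ => h1 j)]
  rw [← Finset.sum_fiberwise_of_maps_to (s := Finset.univ.filter
    (fun u : H => ∃ n : ℕ, u ^ ℓ ^ n = 1))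
    (t := (Finset.univ : Finset (JJ ℓ H)).image (fun j => j.1)) (g := fun u => ConjClasses.mk u)]
  · rw [Finset.sum_image (g := fun j : JJ ℓ H => j.1) (fun a _ b _ h => Subtype.ext h)]
    apply Finset.sum_congr rfl
    intro j _
    apply Finset.sum_congr _ (fun _ _ => rfl)
    ext u
    rw [Finset.mem_filter, Finset.mem_filter, Finset.mem_filter]
    constructor
    · rintro ⟨_, hu⟩
      refine ⟨⟨Finset.mem_univ _, ?_⟩, hu⟩
      rw [← mk_rp] at hu
      obtain ⟨y, hy⟩ := isConj_iff.1 (ConjClasses.mk_eq_mk_iff_isConj.1 hu.symm)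
      obtain ⟨n, hn⟩ := rp_pow j
      refine ⟨n, ?_⟩
      rw [← hy, conj_pow, hn]
      group
    · rintro ⟨_, hu⟩
      exact ⟨Finset.mem_univ _, hu⟩
  · intro u hu
    rw [Finset.mem_filter] at hu
    obtain ⟨j, y, hy⟩ := exists_rp hu.2
    rw [Finset.mem_image]
    refine ⟨j, Finset.mem_univ _, ?_⟩
    rw [← mk_rp, ConjClasses.mk_eq_mk_iff_isConj]
    exact isConj_iff.2 ⟨y, hy⟩

end Pool.Agent.PP.H63
end
end -- Pool.Agent.Helper63_PP.Smt

section -- Pool.Agent.Helper43_PP.Smo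

/-!
# Squad PP, module SMO: the second main theorem for class functions vanishing on a normal subgroup
-/

open scoped BigOperators

set_option linter.unusedSectionVars false

noncomputable section

namespace Pool.Agent.PP.H43

open Pool.Agent.PP Pool.Agent.PP.H63 Pool.Agent.Helper51_AWC Pool.Agent.Helper79_WRA

section smo

variable {F H : Type} [Field F] [Group H]

/-- `ℓ`-regular elements lie in the normal subgroups of `ℓ`-power index. -/
theorem reg_mem {ℓ : ℕ} {L : Subgroup H} [L.Normal] (hL : ∃ n : ℕ, L.index = ℓ ^ n) {x : H}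
    (hx : Reg ℓ x) : x ∈ L := by
  obtain ⟨n, hn⟩ := hL
  have h1 : x ^ (ℓ ^ n) ∈ L := hn ▸ L.pow_index_mem x
  have h2 : (orderOf x).Coprime (ℓ ^ n) := Nat.Coprime.pow_right n hx
  obtain ⟨m, hm⟩ := exists_pow_eq_self_of_coprime (x := x) (n := ℓ ^ n) h2.symm
  rw [← hm]
  exact L.pow_mem h1 m

theorem phi_eval {ℓ q : ℕ} (hq : Proj ℓ q H) {f : H → F} (hf : IsCl f) (x : H) :
    ∃ (j : JJ ℓ H) (y : H) (w : Subgroup.centralizer ({rp j} : Set H)),
      y * rp j * y⁻¹ = x * (x ^ q)⁻¹ ∧ f x = phi q (rp j) f w := by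
  obtain ⟨u, h1, h2, h3⟩ := (hq x).2.2
  have h3' : x * (x ^ q)⁻¹ = u := by
    have h4 : x = u * x ^ q := by rw [← h1.eq]; exact h3
    calc x * (x ^ q)⁻¹ = (u * x ^ q) * (x ^ q)⁻¹ := by rw [← h4]
      _ = u := mul_inv_cancel_right u (x ^ q)
  obtain ⟨j, y, hy⟩ := exists_rp h2
  have h4 : y⁻¹ * x ^ q * y ∈ Subgroup.centralizer ({rp j} : Set H) := by
    rw [Subgroup.mem_centralizer_singleton_iff]
    have h5 : rp j = y⁻¹ * u * y := by rw [← hy]; group
    rw [h5]
    calc y⁻¹ * x ^ q * y * (y⁻¹ * u * y) = y⁻¹ * (x ^ q * u) * y := by group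
      _ = y⁻¹ * (u * x ^ q) * y := by rw [h1.eq]
      _ = y⁻¹ * u * y * (y⁻¹ * x ^ q * y) := by group
  refine ⟨j, y, ⟨_, h4⟩, by rw [hy, h3'], ?_⟩
  change f x = f (rp j * (y⁻¹ * x ^ q * y) ^ q)
  have h7 : (y⁻¹ * x ^ q * y) ^ q = y⁻¹ * x ^ q * y := by
    have h8 : y⁻¹ * x ^ q * y = y⁻¹ * x ^ q * (y⁻¹)⁻¹ := by rw [inv_inv]
    rw [h8, conj_pow, hq.pow_pow]
  rw [h7]
  have h9 : x = y * (rp j * (y⁻¹ * x ^ q * y)) * y⁻¹ := by
    have h10 : y * (rp j * (y⁻¹ * x ^ q * y)) * y⁻¹ = (y * rp j * y⁻¹) * x ^ q := by group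
    rw [h10, hy, ← h1.eq]
    exact h3
  conv_lhs => rw [h9]
  exact hf _ _

/-- The classes of `ℓ`-elements outside `L`. -/
def JO (ℓ : ℕ) {H : Type} [Group H] (L : Subgroup H) : Type := {j : JJ ℓ H // rp j ∉ L}

instance {ℓ : ℕ} [Finite H] {L : Subgroup H} : Finite (JO ℓ L) := by
  unfold JO
  infer_instance

theorem phi_zero {ℓ q : ℕ} (hq : Proj ℓ q H) {L : Subgroup H} [L.Normal]
    (hL : ∃ n : ℕ, L.index = ℓ ^ n) {f : H → F} (hf : f ∈ cfsO F L) {u : H} (hu : u ∈ L) :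
    phi q u f = 0 := by
  funext w
  exact hf.2 _ (L.mul_mem hu (reg_mem hL (hq (w : H)).1))

theorem rank_sumO {ℓ q : ℕ} (hF : GoodF ℓ F) [Finite H] (hq : Proj ℓ q H)
    {L : Subgroup H} [L.Normal] (hL : ∃ n : ℕ, L.index = ℓ ^ n) [Fintype (JO ℓ L)]
    {e : H → F} (he : IsIdem e) :
    rk e (cfsO F L) = ∑ j : JO ℓ L, rk (fun t : Subgroup.centralizer ({rp j.1} : Set H) => e t)
      (TT F (Subgroup.centralizer ({rp j.1} : Set H)) ℓ) := by
  classical
  have := Fintype.ofFinite H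
  unfold rk
  have hmem : ∀ j : JO ℓ L, ∀ g ∈ (cfsO F L).map (actL e), phiL F q (rp j.1) g ∈
      (TT F (Subgroup.centralizer ({rp j.1} : Set H)) ℓ).map
        (actL (fun t : Subgroup.centralizer ({rp j.1} : Set H) => e t)) := by
    rintro j _ ⟨f, hf, rfl⟩
    refine ⟨phi q (rp j.1) f, phi_TT hq hf.1 _, ?_⟩
    exact (phi_act hF hq he hf.1 (rp_pow j.1)).symm
  let Ψ : ((cfsO F L).map (actL e)) →ₗ[F]
      (∀ j : JO ℓ L, ((TT F (Subgroup.centralizer ({rp j.1} : Set H)) ℓ).map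
        (actL (fun t : Subgroup.centralizer ({rp j.1} : Set H) => e t)))) :=
    LinearMap.pi fun j => (phiL F q (rp j.1)).restrict (hmem j)
  have hinj : Function.Injective Ψ := by
    rw [← LinearMap.ker_eq_bot, LinearMap.ker_eq_bot']
    rintro ⟨_, f, hf, rfl⟩ h
    apply Subtype.ext
    refine phi_inj hq (act_cl he.1 hf.1) (fun j => ?_)
    by_cases hj : rp j ∈ L
    · change phi q (rp j) (actF e f) = 0
      rw [phi_act hF hq he hf.1 (rp_pow j), phi_zero hq hL hf hj]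
      exact (actL (fun t : Subgroup.centralizer ({rp j} : Set H) => e t)).map_zero
    · exact congrArg Subtype.val (congrFun h ⟨j, hj⟩)
  have hsurj : Function.Surjective Ψ := by
    intro φ
    choose ψ hψ1 hψ2 using fun j => (φ j).2
    have h0 : ∀ j : JJ ℓ H, (if hj : rp j ∈ L then 0 else ψ ⟨j, hj⟩ :
        Subgroup.centralizer ({rp j} : Set H) → F) ∈
        TT F (Subgroup.centralizer ({rp j} : Set H)) ℓ := by
      intro j
      split_ifs with hj
      · exact Submodule.zero_mem _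
      · exact hψ1 ⟨j, hj⟩
    obtain ⟨f, hf, hf2⟩ := phi_surj hq _ h0
    have hfO : f ∈ cfsO F L := by
      refine ⟨hf, fun x hx => ?_⟩
      obtain ⟨j, y, w, h1, h2⟩ := phi_eval hq hf x
      have h3 : y * rp j * y⁻¹ ∈ L := by
        rw [h1]
        exact L.mul_mem hx (L.inv_mem (L.pow_mem hx q))
      have h4 : rp j ∈ L := by
        have h5 := (inferInstance : L.Normal).conj_mem _ h3 y⁻¹
        have h6 : y⁻¹ * (y * rp j * y⁻¹) * y⁻¹⁻¹ = rp j := by group
        rwa [h6] at h5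
      rw [h2, hf2 j, dif_pos h4]
      rfl
    refine ⟨⟨actL e f, f, hfO, rfl⟩, ?_⟩
    funext j
    apply Subtype.ext
    change phi q (rp j.1) (actF e f) = _
    rw [phi_act hF hq he hf (rp_pow j.1), hf2, dif_neg j.2]
    exact hψ2 j
  rw [(LinearEquiv.ofBijective Ψ ⟨hinj, hsurj⟩).finrank_eq, Module.finrank_pi_fintype]

end smo

/-- SMO: the second main theorem for the class functions vanishing on `L`. -/
theorem smo : SmoStmt := by
  classical
  intro ℓ F _ hF H _ _ L hLn hL e he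
  obtain ⟨M, -, hq⟩ := Pool.Agent.PP.H74.exists_power H hF.prime 0
  have hq' : Proj ℓ (ℓ ^ M) H := hq
  have hJ : Fintype (JO ℓ L) := Fintype.ofFinite _
  have hrnk := Pool.Agent.PP.H74.rnk Pool.Agent.PP.H20.ibf Pool.Agent.PP.H20.eig
    (Pool.Agent.PP.H74.brt Pool.Agent.PP.H20.ibf Pool.Agent.PP.H20.ibc
    Pool.Agent.PP.H20.ibj Pool.Agent.PP.H20.ibn)
  rw [rank_sumO hF hq' hL he, Finset.mul_sum]
  have h1 : ∀ j : JO ℓ L, Nat.card H * rk
      (fun t : Subgroup.centralizer ({rp j.1} : Set H) => e t)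
        (TT F (Subgroup.centralizer ({rp j.1} : Set H)) ℓ) =
      ∑ u ∈ Finset.univ.filter (fun u : H => ConjClasses.mk u = j.1.1),
        Nat.card (Subgroup.centralizer ({u} : Set H)) *
          lnum (Subgroup.centralizer ({u} : Set H)) e := by
    intro j
    have h2 : rk (fun t : Subgroup.centralizer ({rp j.1} : Set H) => e t)
        (TT F (Subgroup.centralizer ({rp j.1} : Set H)) ℓ) =
        lnum (Subgroup.centralizer ({rp j.1} : Set H)) e :=
      hrnk ℓ F hF _ _ (idem_cent hF he (rp_pow j.1))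
    rw [h2, ← class_sum (rp j.1), Finset.sum_mul, mk_rp]
    apply Finset.sum_congr rfl
    intro u hu
    rw [Finset.mem_filter, ← mk_rp] at hu
    obtain ⟨y, hy⟩ := isConj_iff.1 (ConjClasses.mk_eq_mk_iff_isConj.1 hu.2.symm)
    rw [← hy, lnum_conj he.1]
  rw [Finset.sum_congr rfl (fun j _ => h1 j)]
  have hconj : ∀ (v y : H), v ∈ L ↔ y * v * y⁻¹ ∈ L := by
    intro v y
    constructor
    · intro h
      exact hLn.conj_mem v h y
    · intro h
      have h5 := hLn.conj_mem _ h y⁻¹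
      have h6 : y⁻¹ * (y * v * y⁻¹) * y⁻¹⁻¹ = v := by group
      rwa [h6] at h5
  rw [← Finset.sum_fiberwise_of_maps_to (s := Finset.univ.filter
    (fun u : H => (∃ n : ℕ, u ^ ℓ ^ n = 1) ∧ u ∉ L))
    (t := (Finset.univ : Finset (JO ℓ L)).image (fun j => j.1.1))
    (g := fun u => ConjClasses.mk u)]
  · rw [Finset.sum_image (g := fun j : JO ℓ L => j.1.1)
      (fun a _ b _ h => Subtype.ext (Subtype.ext h))]
    apply Finset.sum_congr rfl
    intro j _
    apply Finset.sum_congr _ (fun _ _ => rfl)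
    ext u
    rw [Finset.mem_filter, Finset.mem_filter, Finset.mem_filter]
    constructor
    · rintro ⟨_, hu⟩
      refine ⟨⟨Finset.mem_univ _, ?_⟩, hu⟩
      rw [← mk_rp] at hu
      obtain ⟨y, hy⟩ := isConj_iff.1 (ConjClasses.mk_eq_mk_iff_isConj.1 hu.symm)
      obtain ⟨n, hn⟩ := rp_pow j.1
      refine ⟨⟨n, ?_⟩, ?_⟩
      · rw [← hy, conj_pow, hn]
        group
      · rw [← hy, ← hconj]
        exact j.2
    · rintro ⟨_, hu⟩
      exact ⟨Finset.mem_univ _, hu⟩
  · intro u hu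
    rw [Finset.mem_filter] at hu
    obtain ⟨j, y, hy⟩ := exists_rp hu.2.1
    have hj : rp j ∉ L := by
      rw [hconj _ y, hy]
      exact hu.2.2
    rw [Finset.mem_image]
    refine ⟨⟨j, hj⟩, Finset.mem_univ _, ?_⟩
    change j.1 = _
    rw [← mk_rp, ConjClasses.mk_eq_mk_iff_isConj]
    exact isConj_iff.2 ⟨y, hy⟩

end Pool.Agent.PP.H43
end
end -- Pool.Agent.Helper43_PP.Smo

section -- Pool.Agent.Helper47_PP.Osi

/-!
# Squad PP, part LQ, module OSI: central idempotents are supported on the `ℓ`-regular elements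
-/

open scoped BigOperators

noncomputable section

namespace Pool.Agent.PP.H47O

open Pool.Agent.PP

/-- the `ℓ`-part and the `ℓ'`-part of an element -/
theorem decomp {H : Type} [Group H] [Finite H] {ℓ : ℕ} (hℓ : ℓ.Prime) (x : H) :
    ∃ v w : H, v * w = x ∧ Commute v w ∧ (∃ n : ℕ, v ^ ℓ ^ n = 1) ∧ Reg ℓ w := by
  have hpos : 0 < orderOf x := orderOf_pos x
  obtain ⟨a, m, hm, hx⟩ := Nat.exists_eq_pow_mul_and_not_dvd hpos.ne' ℓ hℓ.ne_one
  have hco : Nat.Coprime (ℓ ^ a) m := Nat.Coprime.pow_left _ ((Nat.Prime.coprime_iff_not_dvd hℓ).2 hm)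
  have hbz : (1 : ℤ) = ((ℓ ^ a : ℕ) : ℤ) * Nat.gcdA (ℓ ^ a) m + (m : ℤ) * Nat.gcdB (ℓ ^ a) m := by
    have h := Nat.gcd_eq_gcd_ab (ℓ ^ a) m
    rw [hco.gcd_eq_one] at h
    exact_mod_cast h
  set s := Nat.gcdA (ℓ ^ a) m
  set t := Nat.gcdB (ℓ ^ a) m
  have hord : x ^ (ℓ ^ a * m) = 1 := by
    rw [← hx]
    exact pow_orderOf_eq_one x
  have hordz : x ^ (((ℓ ^ a : ℕ) : ℤ) * (m : ℤ)) = 1 := by
    rw [← Nat.cast_mul, zpow_natCast]
    exact hord
  refine ⟨x ^ ((m : ℤ) * t), x ^ (((ℓ ^ a : ℕ) : ℤ) * s), ?_, ?_, ⟨a, ?_⟩, ?_⟩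
  · rw [← zpow_add, add_comm, ← hbz, zpow_one]
  · exact (Commute.refl x).zpow_zpow _ _
  · rw [← zpow_natCast, ← zpow_mul]
    have : (m : ℤ) * t * ((ℓ ^ a : ℕ) : ℤ) = ((ℓ ^ a : ℕ) : ℤ) * (m : ℤ) * t := by ring
    rw [this, zpow_mul, hordz, one_zpow]
  · have h1 : (x ^ (((ℓ ^ a : ℕ) : ℤ) * s)) ^ m = 1 := by
      rw [← zpow_natCast, ← zpow_mul]
      have : ((ℓ ^ a : ℕ) : ℤ) * s * (m : ℤ) = ((ℓ ^ a : ℕ) : ℤ) * (m : ℤ) * s := by ring
      rw [this, zpow_mul, hordz, one_zpow]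
    have h2 : orderOf (x ^ (((ℓ ^ a : ℕ) : ℤ) * s)) ∣ m := orderOf_dvd_of_pow_eq_one h1
    have h3 : Nat.Coprime m ℓ := ((Nat.Prime.coprime_iff_not_dvd hℓ).2 hm).symm
    exact Nat.Coprime.coprime_dvd_left h2 h3

theorem not_reg {H : Type} [Group H] [Finite H] {ℓ : ℕ} {v : H} (hv : ∃ n : ℕ, v ^ ℓ ^ n = 1)
    (hr : Reg ℓ v) : v = 1 := by
  obtain ⟨n, hn⟩ := hv
  have h1 : orderOf v ∣ ℓ ^ n := orderOf_dvd_of_pow_eq_one hn
  have h2 : Nat.Coprime (orderOf v) (ℓ ^ n) := Nat.Coprime.pow_right n hr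
  rw [← orderOf_eq_one_iff]
  exact Nat.Coprime.eq_one_of_dvd h2 h1

theorem mulF_eq {F H : Type} [Field F] [Group H] [Finite H] (a b : H → F) (hb : IsCl b) (x : H) :
    mulF a b x = actF a (fun y => b y⁻¹) x⁻¹ := by
  unfold mulF actF
  refine finsum_congr fun t => ?_
  have h : (t * x⁻¹)⁻¹ = x * t⁻¹ := by group
  change a t * b (t⁻¹ * x) = a t * b (t * x⁻¹)⁻¹
  rw [h]
  have h2 : b (x * t⁻¹) = b (t⁻¹ * x) := by
    have := hb (t⁻¹ * x) x
    rw [← this]
    congr 1
    group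
  rw [h2]

theorem act_cent (hS : SmaStmt) {ℓ : ℕ} {F : Type} [Field F] (hF : GoodF ℓ F) {H : Type} [Group H]
    [Finite H] {a f : H → F} (ha : IsCl a) (hf : IsCl f) {u : H} (hu : ∃ n : ℕ, u ^ ℓ ^ n = 1)
    (y : Subgroup.centralizer ({u} : Set H)) :
    actF a f y = actF (fun t : Subgroup.centralizer ({u} : Set H) => a t)
      (fun w : Subgroup.centralizer ({u} : Set H) => f w) y := by
  have hum : u ∈ Subgroup.centralizer ({u} : Set H) := Subgroup.mem_centralizer_singleton_iff.2 rfl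
  have h := hS ℓ F hF H a f ha hf u hu (⟨u, hum⟩⁻¹ * y)
  have e1 : u * ((⟨u, hum⟩⁻¹ * y : Subgroup.centralizer ({u} : Set H)) : H) = y := by
    change u * (u⁻¹ * (y : H)) = y
    rw [mul_inv_cancel_left]
  rw [e1] at h
  rw [h]
  unfold actF
  refine finsum_congr fun t => ?_
  change a t * f (u * ((t : H) * (u⁻¹ * (y : H)))) = a t * f ((t : H) * y)
  have ht : (t : H) * u = u * t := Subgroup.mem_centralizer_singleton_iff.1 t.2
  rw [← mul_assoc, ← ht, mul_assoc, mul_inv_cancel_left]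

theorem idem_cent (hS : SmaStmt) {ℓ : ℕ} {F : Type} [Field F] (hF : GoodF ℓ F) {H : Type} [Group H]
    [Finite H] {e : H → F} (he : IsIdem e) {u : H} (hu : ∃ n : ℕ, u ^ ℓ ^ n = 1) :
    IsIdem (fun t : Subgroup.centralizer ({u} : Set H) => e t) := by
  refine ⟨fun x y => he.1 x y, ?_⟩
  funext x
  have hcl : IsCl (fun y : H => e y⁻¹) := by
    intro x y
    have := he.1 x⁻¹ y
    change e (y * x * y⁻¹)⁻¹ = e x⁻¹
    rw [← this]
    congr 1
    group
  change mulF (fun t : Subgroup.centralizer ({u} : Set H) => e t)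
    (fun t : Subgroup.centralizer ({u} : Set H) => e t) x = e x
  rw [mulF_eq (fun t : Subgroup.centralizer ({u} : Set H) => e t)
    (fun t : Subgroup.centralizer ({u} : Set H) => e t) (fun x y => he.1 x y) x]
  have h := act_cent hS hF he.1 hcl hu x⁻¹
  have h2 := mulF_eq e e he.1 x
  rw [he.2] at h2
  refine Eq.trans ?_ (h.symm.trans ?_ )
  · rfl
  · exact h2.symm

/-- OSI (Osima): central idempotents are supported on the `ℓ`-regular elements. -/
theorem osi (hS : SmaStmt) (hR : RglStmt) : OsiStmt := by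
  classical
  intro ℓ F _ hF H _ _ e he x hx
  obtain ⟨v, w, hvw, hc, hv, hw⟩ := decomp hF.prime x⁻¹
  have hv1 : v ≠ 1 := by
    rintro rfl
    apply hx
    rw [one_mul] at hvw
    unfold Reg
    rw [← orderOf_inv, ← hvw]
    exact hw
  let δ : H → F := fun t => if t = 1 then 1 else 0
  have hδ : IsCl δ := by
    intro x y
    change (if y * x * y⁻¹ = 1 then (1 : F) else 0) = if x = 1 then 1 else 0
    rw [conj_eq_one_iff]
  have h1 : actF e δ x⁻¹ = e x := by
    unfold actF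
    rw [finsum_eq_single _ x]
    · change e x * (if x * x⁻¹ = 1 then (1 : F) else 0) = e x
      rw [if_pos (mul_inv_cancel x), mul_one]
    · intro t ht
      change e t * (if t * x⁻¹ = 1 then (1 : F) else 0) = 0
      rw [if_neg (fun h => ht (mul_inv_eq_one.1 h)), mul_zero]
  have hwm : w ∈ Subgroup.centralizer ({v} : Set H) :=
    Subgroup.mem_centralizer_singleton_iff.2 hc.symm.eq
  have hS' := hS ℓ F hF H e δ he.1 hδ v hv ⟨w, hwm⟩
  have hg : IsCl (fun w : Subgroup.centralizer ({v} : Set H) => δ (v * w)) := by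
    intro x y
    have h := hδ (v * x) y
    change δ (v * ((y : H) * x * (y : H)⁻¹)) = δ (v * x)
    rw [← h]
    congr 1
    have hy : (y : H) * v = v * y := Subgroup.mem_centralizer_singleton_iff.1 y.2
    rw [← mul_assoc, ← mul_assoc, ← hy]
    group
  have hz : ∀ w : Subgroup.centralizer ({v} : Set H), Reg ℓ w →
      (fun w : Subgroup.centralizer ({v} : Set H) => δ (v * w)) w = 0 := by
    intro y hy
    change (if v * (y : H) = 1 then (1 : F) else 0) = 0
    rw [if_neg]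
    intro h
    apply hv1
    apply not_reg hv
    have h2 : v = (y : H)⁻¹ := eq_inv_of_mul_eq_one_left h
    unfold Reg at hy ⊢
    rw [h2, orderOf_inv, Subgroup.orderOf_coe]
    exact hy
  have hwr : Reg ℓ (⟨w, hwm⟩ : Subgroup.centralizer ({v} : Set H)) := by
    unfold Reg at hw ⊢
    rw [← Subgroup.orderOf_coe]
    exact hw
  have hfin := hR ℓ F hF _ (fun t : Subgroup.centralizer ({v} : Set H) => e t) _
    (idem_cent hS hF he hv) hg hz ⟨w, hwm⟩ hwr
  rw [hfin] at hS'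
  rw [← h1, ← hvw]
  exact hS'

end Pool.Agent.PP.H47O
end
end -- Pool.Agent.Helper47_PP.Osi

section -- Pool.Agent.Helper60_PP.Lqr

/-!
# Squad PP, part LQ: module LQR (transport of ranks along an isomorphism of fields)
-/

set_option autoImplicit false

open scoped BigOperators

noncomputable section

namespace Pool.Agent.PP.H60L

open Pool.Agent.Helper51_AWC Pool.Agent.Helper79_WRA

variable {F E : Type} [Field F] [Field E] {H : Type} [Group H]

theorem actF_comp [Finite H] (e : F ≃+* E) (a f : H → F) (x : H) :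
    actF (fun t => e (a t)) (fun t => e (f t)) x = e (actF a f x) := by
  have := Fintype.ofFinite H
  unfold actF
  rw [finsum_eq_sum_of_fintype, finsum_eq_sum_of_fintype, map_sum]
  exact Finset.sum_congr rfl fun t _ => (map_mul e _ _).symm

theorem mulF_comp [Finite H] (e : F ≃+* E) (a f : H → F) (x : H) :
    mulF (fun t => e (a t)) (fun t => e (f t)) x = e (mulF a f x) := by
  have := Fintype.ofFinite H
  unfold mulF
  rw [finsum_eq_sum_of_fintype, finsum_eq_sum_of_fintype, map_sum]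
  exact Finset.sum_congr rfl fun t _ => (map_mul e _ _).symm

theorem isIdem_comp [Finite H] (e : F ≃+* E) {a : H → F} (ha : IsIdem a) :
    IsIdem (fun t => e (a t)) := by
  refine ⟨fun x y => congrArg e (ha.1 x y), ?_⟩
  funext x
  rw [mulF_comp, ha.2]

theorem rk_comp [Finite H] (e : F ≃+* E) (a : H → F) (V : Submodule F (H → F))
    (V' : Submodule E (H → E)) (hV : ∀ f : H → F, f ∈ V ↔ (fun t => e (f t)) ∈ V') :
    rk (fun t => e (a t)) V' = rk a V := by
  let j : V.map (actL a) ≃+ V'.map (actL (fun t => e (a t))) :=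
    { toFun := fun f => ⟨fun t => e (f.1 t), by
        obtain ⟨g, hg, hgf⟩ := f.2
        refine ⟨fun t => e (g t), (hV g).1 hg, ?_⟩
        rw [← hgf]
        funext x
        exact actF_comp e a g x⟩
      invFun := fun f => ⟨fun t => e.symm (f.1 t), by
        obtain ⟨g, hg, hgf⟩ := f.2
        refine ⟨fun t => e.symm (g t), (hV _).2 ?_, ?_⟩
        · have : (fun t => e (e.symm (g t))) = g := by
            funext t; exact e.apply_symm_apply _
          rw [this]
          exact hg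
        · rw [← hgf]
          funext x
          apply e.injective
          rw [e.apply_symm_apply]
          have h1 : e (actF a (fun t => e.symm (g t)) x) =
            actF (fun t => e (a t)) (fun t => e (e.symm (g t))) x := (actF_comp e a _ x).symm
          have h2 : (fun t => e (e.symm (g t))) = g := by
            funext t; exact e.apply_symm_apply _
          rw [h2] at h1
          exact h1⟩
      left_inv := fun f => Subtype.ext (funext fun t => e.symm_apply_apply _)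
      right_inv := fun f => Subtype.ext (funext fun t => e.apply_symm_apply _)
      map_add' := fun f g => Subtype.ext (funext fun t => map_add e _ _) }
  unfold rk
  have h := rank_eq_of_equiv_equiv e j e.bijective (fun r m =>
    Subtype.ext (funext fun t => map_mul e _ _))
  unfold Module.finrank
  rw [h]

theorem mem_cfs_comp (e : F ≃+* E) (f : H → F) :
    f ∈ cfs F H ↔ (fun t => e (f t)) ∈ cfs E H := by
  constructor
  · intro hf x y
    exact congrArg e (hf x y)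
  · intro hf x y
    exact e.injective (hf x y)

theorem mem_cfsO_comp (e : F ≃+* E) (L : Subgroup H) (f : H → F) :
    f ∈ cfsO F L ↔ (fun t => e (f t)) ∈ cfsO E L := by
  constructor
  · rintro ⟨hf, h2⟩
    refine ⟨fun x y => congrArg e (hf x y), fun x hx => ?_⟩
    change e (f x) = 0
    rw [h2 x hx, map_zero]
  · rintro ⟨hf, h2⟩
    refine ⟨fun x y => e.injective (hf x y), fun x hx => ?_⟩
    apply e.injective
    rw [map_zero]
    exact h2 x hx

/-- LQR. -/
theorem lqr (hlqm : LqmStmt) (hfis : FisStmt) : LqrStmt := by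
  intro ℓ F _ hF G _ _ L hL hind a ha hsupp
  obtain ⟨M, hM, hℓ, ⟨e⟩⟩ := hfis ℓ F hF
  letI := Ideal.Quotient.field M
  have h := hlqm ℓ hF.prime M hℓ G L hL hind (fun t => e (a t)) (isIdem_comp e ha)
    (fun x hx => by rw [hsupp x hx, map_zero])
  rw [rk_comp e a (cfs F G) _ (mem_cfs_comp e), rk_comp e a (cfsO F L) _ (mem_cfsO_comp e L)] at h
  have h2 := rk_comp e (fun t : L => a t) (cfs F L) (cfs (FF M) L) (mem_cfs_comp e)
  rw [h2] at h
  exact h

end Pool.Agent.PP.H60L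
end
end -- Pool.Agent.Helper60_PP.Lqr

section -- Pool.Agent.Helper65_PP.Fis

/-!
# Squad PP, part LQ, module FIS: the good fields are the residue fields
-/

noncomputable section

namespace Pool.Agent.PP.H65

open Pool.Agent.PP Pool.Agent.Helper51_AWC Pool.Agent.Helper79_WRA

theorem good_alg (ℓ : ℕ) (F : Type) [Field F] [Fact ℓ.Prime] [CharP F ℓ] (hF : GoodF ℓ F) :
    letI : Algebra (ZMod ℓ) F := ZMod.algebra F ℓ
    IsAlgClosure (ZMod ℓ) F := by
  letI : Algebra (ZMod ℓ) F := ZMod.algebra F ℓ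
  refine ⟨hF.closed, ⟨fun x => ?_⟩⟩
  by_cases hx : x = 0
  · rw [hx]
    exact isAlgebraic_zero
  · obtain ⟨n, hn, hxn⟩ := hF.tors x hx
    have h : IsIntegral (ZMod ℓ) (x ^ n) := by
      rw [hxn]
      exact isIntegral_one
    exact (h.of_pow hn).isAlgebraic

theorem good_equiv (ℓ : ℕ) (F K : Type) [Field F] [Field K] (hF : GoodF ℓ F) (hK : GoodF ℓ K) :
    Nonempty (F ≃+* K) := by
  haveI : Fact ℓ.Prime := ⟨hF.prime⟩
  haveI := hF.char
  haveI := hK.char
  letI : Algebra (ZMod ℓ) F := ZMod.algebra F ℓ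
  letI : Algebra (ZMod ℓ) K := ZMod.algebra K ℓ
  haveI := good_alg ℓ F hF
  haveI := good_alg ℓ K hK
  exact ⟨(IsAlgClosure.equiv (ZMod ℓ) F K).toRingEquiv⟩

theorem not_unit (ℓ : ℕ) (hl : ℓ.Prime) : ¬ IsUnit (ℓ : integralClosure ℤ ℂ) := by
  intro h
  obtain ⟨a, ha⟩ := h.exists_right_inv
  have h1 : (ℓ : ℂ) * (a : ℂ) = 1 := by
    have h2 := congrArg (fun z : integralClosure ℤ ℂ => (z : ℂ)) ha
    simpa using h2
  have hl0 : (ℓ : ℂ) ≠ 0 := Nat.cast_ne_zero.2 hl.ne_zero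
  have h3 : (a : ℂ) = algebraMap ℚ ℂ ((ℓ : ℚ)⁻¹) := by
    rw [map_inv₀, map_natCast]
    exact eq_inv_of_mul_eq_one_right h1
  have h4 : IsIntegral ℤ (a : ℂ) := a.2
  rw [h3] at h4
  have h5 : IsIntegral ℤ ((ℓ : ℚ)⁻¹) :=
    (isIntegral_algebraMap_iff (algebraMap ℚ ℂ).injective).1 h4
  obtain ⟨m, hm⟩ := IsIntegrallyClosed.isIntegral_iff.1 h5
  have h6 : (ℓ : ℚ) * (m : ℚ) = 1 := by
    have h7 : ((m : ℤ) : ℚ) = (ℓ : ℚ)⁻¹ := by
      rw [← hm]
      simp
    rw [h7]
    exact mul_inv_cancel₀ (Nat.cast_ne_zero.2 hl.ne_zero)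
  have h8 : (ℓ : ℤ) * m = 1 := by exact_mod_cast h6
  have h9 : (ℓ : ℤ) ∣ 1 := ⟨m, h8.symm⟩
  have h10 : ℓ ∣ 1 := by exact_mod_cast h9
  exact hl.one_lt.ne' (Nat.dvd_one.1 h10)

theorem fis (hfld : FldStmt) : FisStmt := by
  intro ℓ F _ hF
  have hl := hF.prime
  have hne : Ideal.span {(ℓ : integralClosure ℤ ℂ)} ≠ ⊤ := by
    intro h
    exact not_unit ℓ hl (Ideal.span_singleton_eq_top.1 h)
  obtain ⟨M, hM, hle⟩ := Ideal.exists_le_maximal _ hne
  have hmem : (ℓ : integralClosure ℤ ℂ) ∈ M := hle (Ideal.subset_span rfl)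
  refine ⟨M, hM, hmem, ?_⟩
  have hG := hfld ℓ hl M hmem
  exact @good_equiv ℓ F (FF M) _ (Ideal.Quotient.field M) hF hG

end Pool.Agent.PP.H65
end
end -- Pool.Agent.Helper65_PP.Fis
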