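import Pool.Agent.Helper50_PP.Res
import Pool.Agent.Helper66_PP.StmtsLQ

/-!
# Merged copies (generated) of the modules

* `Pool.Agent.Helper75_PP.LqA`
* `Pool.Agent.Helper75_PP.LqB`
* `Pool.Agent.Helper75_PP.Lqm`
-/

set_option autoImplicit false

section -- Pool.Agent.Helper75_PP.LqA

/-!
# Squad PP, module LQM: the matrix of a class function on a part of the conjugacy classes
-/

open scoped BigOperators
open Polynomial

set_option linter.unusedSectionVars false

noncomputable section

namespace Pool.Agent.PP.H75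

open Pool.Agent.PP Pool.Agent.Helper51_AWC Pool.Agent.Helper79_WRA
open Pool.Agent.PP.H50 (NN NN_mulVec NN_map exists_out sum_mk actF_mk NN_idem om eigen decomp Cl)

section mat

variable {H : Type} [Group H] [Fintype H] [Fintype (ConjClasses H)] [DecidableEq (ConjClasses H)]
variable (P : ConjClasses H → Prop) [DecidablePred P]

/-- translation by the support of `a` preserves `P` -/
def Stb {R : Type} [Zero R] (a : H → R) : Prop :=
  ∀ t, a t ≠ 0 → ∀ x, (P (ConjClasses.mk (t * x)) ↔ P (ConjClasses.mk x))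

/-- the matrix of the action of `a` on class functions living on `P` -/
def NP {R : Type} [CommRing R] (a : H → R) : Matrix {c // P c} {c // P c} R :=
  fun c c' => NN a c.1 c'.1

variable {P}

theorem NN_zero {R : Type} [CommRing R] {a : H → R} (hs : Stb P a) {c c' : ConjClasses H}
    (h : ¬ (P c ↔ P c')) : NN a c c' = 0 := by
  rw [NN]
  apply Finset.sum_eq_zero
  intro t _
  by_cases h1 : a t = 0
  · rw [h1, zero_mul]
  · rw [if_neg, mul_zero]
    intro h2
    apply h
    have h3 := hs t h1 (Quotient.out c)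
    rw [h2] at h3
    have h4 : ConjClasses.mk (Quotient.out c) = c := Quotient.out_eq c
    rw [h4] at h3
    exact h3.symm

/-- extension by zero -/
def E0 {R : Type} [Zero R] (P : ConjClasses H → Prop) [DecidablePred P] (g : {c // P c} → R) :
    ConjClasses H → R :=
  fun c => if h : P c then g ⟨c, h⟩ else 0

theorem sum_subL {R : Type} [AddCommMonoid R] (f : ConjClasses H → R) (h : ∀ c, ¬ P c → f c = 0) :
    ∑ c, f c = ∑ c : {c // P c}, f c.1 := by
  rw [← Finset.sum_subtype (Finset.univ.filter P) (by simp) f, Finset.sum_filter_of_ne]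
  intro c _ hc
  by_contra h1
  exact hc (h c h1)

theorem NP_mulVec {R : Type} [CommRing R] {a : H → R} (hs : Stb P a) (g : ConjClasses H → R)
    (c : {c // P c}) : (NP P a).mulVec (fun d => g d.1) c = (NN a).mulVec g c.1 := by
  rw [Matrix.mulVec, Matrix.mulVec, dotProduct, dotProduct, sum_subL (P := P)]
  · rfl
  · intro d hd
    rw [NN_zero hs, zero_mul]
    exact fun h => hd (h.1 c.2)

theorem NN_E0 {R : Type} [CommRing R] {a : H → R} (hs : Stb P a) (g : {c // P c} → R) :
    (NN a).mulVec (E0 P g) = E0 P ((NP P a).mulVec g) := by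
  funext c
  by_cases hc : P c
  · have h1 := NP_mulVec hs (E0 P g) ⟨c, hc⟩
    have h2 : (fun d : {c // P c} => E0 P g d.1) = g := by
      funext d
      rw [E0, dif_pos d.2]
    rw [h2] at h1
    rw [E0, dif_pos hc, h1]
  · rw [E0, dif_neg hc, Matrix.mulVec, dotProduct]
    apply Finset.sum_eq_zero
    intro d _
    by_cases hd : P d
    · rw [NN_zero hs, zero_mul]
      exact fun h => hc (h.2 hd)
    · rw [E0, dif_neg hd, mul_zero]

theorem NP_map {R S : Type} [CommRing R] [CommRing S] (f : R →+* S) (a : H → R) :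
    (NP P a).map f = NP P (fun t => f (a t)) := by
  ext c c'
  have := congrFun (congrFun (NN_map f a) c.1) c'.1
  exact this

theorem NP_idem {F : Type} [Field F] {e : H → F} (he : IsIdem e) (hs : Stb P e) :
    NP P e * NP P e = NP P e := by
  ext c c'
  have h1 := congrFun (congrFun (NN_idem he) c.1) c'.1
  rw [Matrix.mul_apply] at h1 ⊢
  rw [sum_subL (P := P)] at h1
  · exact h1
  · intro d hd
    rw [NN_zero hs, zero_mul]
    exact fun h => hd (h.1 c.2)

/-- the class functions living on `P` -/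
def JP (F : Type) [Field F] (P : ConjClasses H → Prop) [DecidablePred P] :
    ({c // P c} → F) →ₗ[F] (H → F) where
  toFun g := fun x => E0 P g (ConjClasses.mk x)
  map_add' g h := by
    funext x
    simp only [Pi.add_apply, E0]
    split_ifs
    · rfl
    · rw [add_zero]
  map_smul' r g := by
    funext x
    simp only [Pi.smul_apply, E0, RingHom.id_apply]
    split_ifs
    · rfl
    · rw [smul_zero]

theorem JP_inj (F : Type) [Field F] : Function.Injective (JP (H := H) F P) := by
  intro g h hgh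
  funext c
  have h1 := congrFun hgh (Quotient.out c.1)
  have h4 : ConjClasses.mk (Quotient.out c.1) = c.1 := Quotient.out_eq c.1
  change E0 P g (ConjClasses.mk (Quotient.out c.1)) = E0 P h (ConjClasses.mk (Quotient.out c.1))
    at h1
  rw [h4, E0, E0, dif_pos c.2, dif_pos c.2] at h1
  exact h1

theorem cfsO_eq {F : Type} [Field F] {L : Subgroup H} [DecidablePred (· ∈ L)]
    (hP : ∀ x, P (ConjClasses.mk x) ↔ x ∉ L) :
    cfsO F L = LinearMap.range (JP (H := H) F P) := by
  ext f
  constructor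
  · rintro ⟨hf, hf0⟩
    refine ⟨fun c => f (Quotient.out c.1), ?_⟩
    funext x
    change E0 P (fun c => f (Quotient.out c.1)) (ConjClasses.mk x) = f x
    rw [E0]
    split_ifs with h
    · obtain ⟨y, hy⟩ := exists_out x
      change f (Quotient.out (ConjClasses.mk x)) = f x
      rw [← hy]
      exact hf x y
    · rw [hP, not_not] at h
      exact (hf0 x h).symm
  · rintro ⟨g, rfl⟩
    constructor
    · intro x y
      change E0 P g (ConjClasses.mk (y * x * y⁻¹)) = E0 P g (ConjClasses.mk x)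
      congr 1
      rw [ConjClasses.mk_eq_mk_iff_isConj]
      exact (isConj_iff.2 ⟨y, rfl⟩ : IsConj x _).symm
    · intro x hx
      change E0 P g (ConjClasses.mk x) = 0
      rw [E0, dif_neg]
      rw [hP, not_not]
      exact hx

theorem rk_cfsO {F : Type} [Field F] {L : Subgroup H} [DecidablePred (· ∈ L)]
    (hP : ∀ x, P (ConjClasses.mk x) ↔ x ∉ L) {a : H → F} (ha : IsCl a) (hs : Stb P a) :
    rk a (cfsO F L) = (NP P a).rank := by
  rw [rk, cfsO_eq hP, ← LinearMap.range_comp]
  have h1 : (actL a).comp (JP (H := H) F P) = (JP (H := H) F P).comp (NP P a).mulVecLin := by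
    apply LinearMap.ext
    intro g
    have h2 := actF_mk ha (E0 P g)
    rw [NN_E0 hs] at h2
    exact h2
  rw [h1, LinearMap.range_comp, Matrix.rank]
  exact (Submodule.equivMapOfInjective _ (JP_inj F) _).finrank_eq.symm

end mat

section chi

variable {H : Type} [Group H] [Fintype H] [Fintype (ConjClasses H)] [DecidableEq (ConjClasses H)]
variable (P : ConjClasses H → Prop) [DecidablePred P]

/-- the restrictions of some irreducible characters to `P` are a basis -/
theorem exists_BB [Fintype (Irr H)] : ∃ B : Finset (Irr H), ∀ z : H → ℂ,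
    (∀ x y, z (y * x * y⁻¹) = z x) → Stb P z →
      (NP P z).charpoly = ∏ χ ∈ B, (X - C (om z χ)) := by
  classical
  let v : Irr H → ({c // P c} → ℂ) := fun χ c => (χ : H → ℂ) (Quotient.out c.1)
  obtain ⟨b, -, -, hb, hli⟩ := exists_linearIndepOn_extension (K := ℂ) (v := v)
    (s := ∅) (t := Set.univ) (linearIndepOn_empty ℂ v) (Set.empty_subset _)
  let B : Finset (Irr H) := b.toFinset
  have hli' : LinearIndependent ℂ (fun χ : B => v χ) := by
    have h1 : LinearIndependent ℂ (fun χ : b => v χ) := hli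
    refine h1.comp (fun χ : B => (⟨χ.1, Set.mem_toFinset.1 χ.2⟩ : b)) ?_
    intro x y h
    have h2 := congrArg Subtype.val h
    exact Subtype.ext h2
  have hsp : ⊤ ≤ Submodule.span ℂ (Set.range (fun χ : B => v χ)) := by
    intro g _
    obtain ⟨m, h1⟩ := decomp (fun x => E0 P g (ConjClasses.mk x)) (by
      intro x y
      congr 1
      rw [ConjClasses.mk_eq_mk_iff_isConj]
      exact (isConj_iff.2 ⟨y, rfl⟩ : IsConj x _).symm)
    have h2 : g = ∑ χ : Irr H, m χ • v χ := by
      funext c
      have h3 := congrFun h1 (Quotient.out c.1)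
      have h4 : ConjClasses.mk (Quotient.out c.1) = c.1 := Quotient.out_eq c.1
      change E0 P g (ConjClasses.mk (Quotient.out c.1)) = _ at h3
      rw [h4, E0, dif_pos c.2] at h3
      rw [h3, Finset.sum_apply, Finset.sum_apply]
      rfl
    rw [h2]
    apply Submodule.sum_mem
    intro χ _
    apply Submodule.smul_mem
    have h5 : v χ ∈ Submodule.span ℂ (v '' b) := hb ⟨χ, Set.mem_univ _, rfl⟩
    have h6 : v '' b = Set.range (fun χ : B => v χ) := by
      ext w
      constructor
      · rintro ⟨χ, hχ, rfl⟩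
        exact ⟨⟨χ, Set.mem_toFinset.2 hχ⟩, rfl⟩
      · rintro ⟨χ, rfl⟩
        exact ⟨χ.1, Set.mem_toFinset.1 χ.2, rfl⟩
    rw [← h6]
    exact h5
  let bs := Module.Basis.mk hli' hsp
  have hbs : ∀ χ : B, bs χ = v χ := fun χ => by rw [Module.Basis.mk_apply]
  refine ⟨B, fun a ha hs => ?_⟩
  have h1 : (Matrix.toLin' (NP P a)).charpoly = (NP P a).charpoly := by
    rw [← LinearMap.charpoly_toMatrix (Matrix.toLin' (NP P a)) (Pi.basisFun ℂ {c // P c})]
    congr 1
    exact LinearMap.toMatrix'_toLin' (NP P a)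
  rw [← h1, ← LinearMap.charpoly_toMatrix (Matrix.toLin' (NP P a)) bs]
  have h2 : LinearMap.toMatrix bs bs (Matrix.toLin' (NP P a)) =
      Matrix.diagonal (fun χ : B => om a (χ : Irr H)) := by
    ext χ ψ
    rw [LinearMap.toMatrix_apply]
    have h3 : Matrix.toLin' (NP P a) (bs ψ) = om a (ψ : Irr H) • bs ψ := by
      rw [hbs]
      funext c
      rw [Matrix.toLin'_apply]
      have h5 := NP_mulVec hs (fun d => ((ψ : Irr H) : H → ℂ) (Quotient.out d)) c
      have h6 : (NP P a).mulVec (v ψ) c = (NN a).mulVec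
        (fun d => ((ψ : Irr H) : H → ℂ) (Quotient.out d)) c.1 := h5
      rw [h6, NN_mulVec, Pi.smul_apply, smul_eq_mul]
      have h7 : ∀ x : H, ((ψ : Irr H) : H → ℂ) (Quotient.out (ConjClasses.mk x)) =
          ((ψ : Irr H) : H → ℂ) x := by
        intro x
        obtain ⟨h, hh⟩ := exists_out x
        rw [← hh, irr_conj (ψ : Irr H).2]
      simp_rw [h7]
      exact eigen ha (ψ : Irr H).2 (Quotient.out c.1)
    rw [h3, map_smul, Module.Basis.repr_self, Finsupp.smul_apply, Matrix.diagonal_apply,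
      Finsupp.single_apply, smul_eq_mul]
    by_cases h4 : ψ = χ
    · subst h4
      rw [if_pos rfl, if_pos rfl, mul_one]
    · rw [if_neg h4, if_neg (Ne.symm h4), mul_zero]
  rw [h2, Matrix.charpoly_diagonal]
  exact Finset.prod_coe_sort B (fun χ => X - C (om a (χ : H → ℂ)))

end chi

end Pool.Agent.PP.H75
end
end -- Pool.Agent.Helper75_PP.LqA

section -- Pool.Agent.Helper75_PP.LqB

/-!
# Squad PP, module LQM: ranks and traces
-/

open scoped BigOperators
open Polynomial

set_option linter.unusedSectionVars false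

noncomputable section

namespace Pool.Agent.PP.H75

open Pool.Agent.PP Pool.Agent.Helper51_AWC Pool.Agent.Helper79_WRA
open Pool.Agent.PP.H50 (NN NN_mulVec NN_map exists_out sum_mk actF_mk NN_idem om eigen decomp Cl
  exists_lift res_irr rank_eq_rootMult charpoly_NN)

attribute [local instance] Ideal.Quotient.field

section rank

variable {H : Type} [Group H] [Fintype H] [Fintype (ConjClasses H)] [DecidableEq (ConjClasses H)]
variable {P : ConjClasses H → Prop} [DecidablePred P]
variable {M : Ideal (integralClosure ℤ ℂ)} [hM : M.IsMaximal]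

open Classical in
/-- the rank on the part `P` -/
theorem chp_P [Fintype (Irr H)] {B : Finset (Irr H)}
    (hB : ∀ z : H → ℂ, (∀ x y, z (y * x * y⁻¹) = z x) → Stb P z →
      (NP P z).charpoly = ∏ χ ∈ B, (X - C (om z χ)))
    {e : H → FF M} (he : IsIdem e) (hs : Stb P e) (a : H → integralClosure ℤ ℂ) (ha : Cl a)
    (ea : ∀ t, Ideal.Quotient.mk M (a t) = e t) (hsa : Stb P a) :
    (NP P e).rank = (B.filter (fun χ : Irr H => res M e χ = 1)).card := by
  classical
  rw [rank_eq_rootMult (NP_idem he hs)]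
  have hr : ∀ χ : Irr H, IsIntegral ℤ (om (fun t => (a t : ℂ)) (χ : H → ℂ)) :=
    fun χ => (res_irr (M := M) a ha χ.2).2
  have hsa' : Stb P (fun t => (a t : ℂ)) := by
    intro t ht x
    apply hsa t
    intro h0
    apply ht
    change ((a t : integralClosure ℤ ℂ) : ℂ) = 0
    rw [h0]
    rfl
  have h1 : (NP P a).charpoly = ∏ χ ∈ B, (X - C (⟨_, hr χ⟩ : integralClosure ℤ ℂ)) := by
    have hinj : Function.Injective (algebraMap (integralClosure ℤ ℂ) ℂ) :=
      Subtype.val_injective
    apply Polynomial.map_injective _ hinj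
    rw [← Matrix.charpoly_map, NP_map, Polynomial.map_prod]
    have h2 := hB (fun t => (a t : ℂ)) (fun x y => by rw [ha]) hsa'
    refine Eq.trans h2 ?_
    refine Finset.prod_congr rfl fun χ _ => ?_
    rw [Polynomial.map_sub, Polynomial.map_X, Polynomial.map_C]
    rfl
  have h2 : (NP P e).charpoly = ∏ χ ∈ B, (X - C (res M e χ)) := by
    have h3 : NP P e = (NP P a).map (Ideal.Quotient.mk M) := by
      rw [NP_map]
      congr 1
      exact (funext ea).symm
    have h4 : (fun t => Ideal.Quotient.mk M (a t)) = e := funext ea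
    rw [h3, Matrix.charpoly_map, h1, Polynomial.map_prod]
    refine Finset.prod_congr rfl fun χ _ => ?_
    rw [Polynomial.map_sub, Polynomial.map_X, Polynomial.map_C, ← h4,
      (res_irr (M := M) a ha χ.2).1, red_of (hr χ)]
  have h5 : (∏ χ ∈ B, (X - C (res M e χ))).roots =
      B.val.map (fun χ : Irr H => res M e χ) := by
    rw [Finset.prod_eq_multiset_prod]
    have h6 : Multiset.map (fun χ : Irr H => X - C (res M e χ)) B.val =
        Multiset.map (fun w : FF M => X - C w)
          (Multiset.map (fun χ : Irr H => res M e χ) B.val) := by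
      rw [Multiset.map_map]
      rfl
    rw [h6, Polynomial.roots_multiset_prod_X_sub_C]
  rw [h2, ← Polynomial.count_roots, h5, Multiset.count_map, Finset.card_def, Finset.filter_val]
  congr 1
  apply Multiset.filter_congr
  intro χ _
  exact eq_comm

end rank

section trace

variable {H : Type} [Group H] [Fintype H] [Fintype (ConjClasses H)] [DecidableEq (ConjClasses H)]
variable {P : ConjClasses H → Prop} [DecidablePred P]

/-- the sum over a class -/
theorem class_sum [DecidableEq H] {z : H → ℂ} (hz : ∀ x y, z (y * x * y⁻¹) = z x)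
    (c : ConjClasses H) :
    (Fintype.card H : ℂ) * NN z c c =
      ∑ x : H with ConjClasses.mk x = c, ∑ y, z (y * x * y⁻¹ * x⁻¹) := by
  set o := Quotient.out c with ho
  have hoc : ConjClasses.mk o = c := Quotient.out_eq c
  -- all inner sums are equal
  have h1 : ∀ x : H, ConjClasses.mk x = c →
      ∑ y, z (y * x * y⁻¹ * x⁻¹) = ∑ y, z (y * o * y⁻¹ * o⁻¹) := by
    intro x hx
    obtain ⟨h, hh⟩ := exists_out x
    rw [hx] at hh
    rw [← Equiv.sum_comp (MulAut.conj h).toEquiv (fun y => z (y * o * y⁻¹ * o⁻¹))]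
    refine Finset.sum_congr rfl fun y _ => ?_
    change z (y * x * y⁻¹ * x⁻¹) = z (h * y * h⁻¹ * o * (h * y * h⁻¹)⁻¹ * o⁻¹)
    rw [ho, ← hh]
    have h2 : h * y * h⁻¹ * (h * x * h⁻¹) * (h * y * h⁻¹)⁻¹ * (h * x * h⁻¹)⁻¹ =
        h * (y * x * y⁻¹ * x⁻¹) * h⁻¹ := by group
    rw [h2, hz]
  -- the number of `y` with `y o y⁻¹ = x`
  let n : H → ℕ := fun x => (Finset.univ.filter (fun y => y * o * y⁻¹ = x)).card
  have hn : ∀ x : H, ConjClasses.mk x = c → n x = n o := by
    intro x hx
    obtain ⟨h, hh⟩ := exists_out x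
    rw [hx] at hh
    change (Finset.univ.filter (fun y => y * o * y⁻¹ = x)).card =
      (Finset.univ.filter (fun y => y * o * y⁻¹ = o)).card
    apply Finset.card_bij' (fun y _ => h * y) (fun y _ => h⁻¹ * y)
    · intro y hy
      rw [Finset.mem_filter] at hy ⊢
      refine ⟨Finset.mem_univ _, ?_⟩
      have h2 : h * y * o * (h * y)⁻¹ = h * (y * o * y⁻¹) * h⁻¹ := by group
      rw [h2, hy.2, hh]
    · intro y hy
      rw [Finset.mem_filter] at hy ⊢
      refine ⟨Finset.mem_univ _, ?_⟩
      have h2 : h⁻¹ * y * o * (h⁻¹ * y)⁻¹ = h⁻¹ * (y * o * y⁻¹) * h := by group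
      rw [h2, hy.2, ho, ← hh]
      group
    · intro y _
      group
    · intro y _
      group
  have hmk : ∀ y : H, ConjClasses.mk (y * o * y⁻¹) = c := by
    intro y
    rw [← hoc, ConjClasses.mk_eq_mk_iff_isConj]
    exact (isConj_iff.2 ⟨y, rfl⟩ : IsConj o _).symm
  have hcard : (Finset.univ.filter (fun x : H => ConjClasses.mk x = c)).card * n o =
      Fintype.card H := by
    have h2 : (Finset.univ : Finset H).card =
        ∑ x ∈ Finset.univ.filter (fun x : H => ConjClasses.mk x = c), n x :=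
      Finset.card_eq_sum_card_fiberwise
        (f := fun y => y * o * y⁻¹) (t := Finset.univ.filter (fun x : H => ConjClasses.mk x = c))
        (fun y _ => Finset.mem_coe.2 (Finset.mem_filter.2 ⟨Finset.mem_univ _, hmk y⟩))
    rw [← Finset.card_univ (α := H), h2,
      Finset.sum_congr rfl (fun x hx => hn x (Finset.mem_filter.1 hx).2), Finset.sum_const,
      smul_eq_mul]
  have h3 : ∑ y, z (y * o * y⁻¹ * o⁻¹) = (n o : ℂ) * NN z c c := by
    have h4 : ∑ y, z (y * o * y⁻¹ * o⁻¹) =
        ∑ x : H with ConjClasses.mk x = c, (n x : ℂ) * z (x * o⁻¹) := by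
      rw [← Finset.sum_fiberwise_of_maps_to (s := Finset.univ) (g := fun y => y * o * y⁻¹)
        (t := Finset.univ.filter (fun x : H => ConjClasses.mk x = c))
        (fun y _ => Finset.mem_filter.2 ⟨Finset.mem_univ _, hmk y⟩)]
      refine Finset.sum_congr rfl fun x _ => ?_
      rw [Finset.sum_congr rfl (fun y hy => by rw [(Finset.mem_filter.1 hy).2]),
        Finset.sum_const, nsmul_eq_mul]
    rw [h4, NN, Finset.sum_congr rfl (fun x hx => by rw [hn x (Finset.mem_filter.1 hx).2]),
      ← Finset.mul_sum, Finset.sum_filter]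
    congr 1
    rw [← Equiv.sum_comp (Equiv.mulRight o)]
    refine Finset.sum_congr rfl fun t _ => ?_
    rw [Equiv.coe_mulRight, mul_inv_cancel_right, mul_ite, mul_one, mul_zero]
  rw [Finset.sum_congr rfl (fun x hx => h1 x (Finset.mem_filter.1 hx).2), Finset.sum_const,
    nsmul_eq_mul, h3, ← mul_assoc]
  congr 1
  rw [← hcard]
  push_cast
  rfl

theorem trace_NP [DecidableEq H] {z : H → ℂ} (hz : ∀ x y, z (y * x * y⁻¹) = z x) :
    (Fintype.card H : ℂ) * (NP P z).trace =
      ∑ x : H with P (ConjClasses.mk x), ∑ y, z (y * x * y⁻¹ * x⁻¹) := by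
  have h1 : (NP P z).trace = ∑ c with P c, NN z c c := by
    rw [Matrix.trace, Finset.sum_subtype (p := P) (Finset.univ.filter P) (by simp)
      (fun c => NN z c c)]
    rfl
  rw [h1, Finset.mul_sum, ← Finset.sum_fiberwise_of_maps_to
    (s := Finset.univ.filter (fun x : H => P (ConjClasses.mk x)))
    (g := fun x => ConjClasses.mk x) (t := Finset.univ.filter P)
    (fun x hx => Finset.mem_filter.2 ⟨Finset.mem_univ _, (Finset.mem_filter.1 hx).2⟩)]
  refine Finset.sum_congr rfl fun c hc => ?_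
  rw [class_sum hz c, Finset.filter_filter]
  apply Finset.sum_congr _ fun _ _ => rfl
  ext x
  simp only [Finset.mem_filter, Finset.mem_univ, true_and]
  constructor
  · intro h
    exact ⟨by rw [h]; exact (Finset.mem_filter.1 hc).2, h⟩
  · exact fun h => h.2

theorem trace_eq [DecidableEq H] [Fintype (Irr H)] {B : Finset (Irr H)} {z : H → ℂ}
    (hz : ∀ x y, z (y * x * y⁻¹) = z x)
    (hB : (NP P z).charpoly = ∏ χ ∈ B, (X - C (om z χ))) :
    (Fintype.card H : ℂ) * ∑ χ ∈ B, om z χ =
      ∑ x : H with P (ConjClasses.mk x), ∑ y, z (y * x * y⁻¹ * x⁻¹) := by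
  rw [← trace_NP hz, Matrix.trace_eq_sum_roots_charpoly, hB]
  congr 1
  have h6 : (∏ χ ∈ B, (X - C (om z χ))).roots = B.val.map (fun χ : Irr H => om z χ) := by
    rw [Finset.prod_eq_multiset_prod]
    have h6 : Multiset.map (fun χ : Irr H => X - C (om z χ)) B.val =
        Multiset.map (fun w : ℂ => X - C w)
          (Multiset.map (fun χ : Irr H => om z χ) B.val) := by
      rw [Multiset.map_map]
      rfl
    rw [h6, Polynomial.roots_multiset_prod_X_sub_C]
  rw [h6]
  rfl

theorem trace_full [DecidableEq H] [Fintype (Irr H)] {z : H → ℂ}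
    (hz : ∀ x y, z (y * x * y⁻¹) = z x) :
    (Fintype.card H : ℂ) * ∑ χ : Irr H, om z χ = ∑ x : H, ∑ y, z (y * x * y⁻¹ * x⁻¹) := by
  have h1 : (Fintype.card H : ℂ) * (NN z).trace = ∑ x : H, ∑ y, z (y * x * y⁻¹ * x⁻¹) := by
    rw [Matrix.trace, Finset.mul_sum, ← Finset.sum_fiberwise Finset.univ
      (fun x : H => ConjClasses.mk x)]
    exact Finset.sum_congr rfl fun c _ => class_sum hz c
  rw [← h1, Matrix.trace_eq_sum_roots_charpoly, charpoly_NN hz]
  congr 1
  have h6 : (∏ χ : Irr H, (X - C (om z χ))).roots =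
      Finset.univ.val.map (fun χ : Irr H => om z χ) := by
    rw [Finset.prod_eq_multiset_prod]
    have h6 : Multiset.map (fun χ : Irr H => X - C (om z χ)) Finset.univ.val =
        Multiset.map (fun w : ℂ => X - C w)
          (Multiset.map (fun χ : Irr H => om z χ) Finset.univ.val) := by
      rw [Multiset.map_map]
      rfl
    rw [h6, Polynomial.roots_multiset_prod_X_sub_C]
  rw [h6]
  rfl

end trace

end Pool.Agent.PP.H75
end
end -- Pool.Agent.Helper75_PP.LqB

section -- Pool.Agent.Helper75_PP.Lqm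

/-!
# Squad PP, module LQM: normal subgroups of index `ℓ`
-/

open scoped BigOperators
open Polynomial

set_option linter.unusedSectionVars false

noncomputable section

namespace Pool.Agent.PP.H75

open Pool.Agent.PP Pool.Agent.Helper51_AWC Pool.Agent.Helper79_WRA
open Pool.Agent.PP.H50 (NN NN_mulVec NN_map exists_out sum_mk actF_mk NN_idem om eigen decomp Cl
  exists_lift res_irr rank_eq_rootMult charpoly_NN om_mul chp_main)

attribute [local instance] Ideal.Quotient.field

section comm

variable {G : Type} [Group G] [Fintype G] {L : Subgroup G} [L.Normal] [DecidablePred (· ∈ L)]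

theorem sum_coset {ℓ : ℕ} (hl : ℓ.Prime) (hi : L.index = ℓ) {x : G} (hx : x ∉ L) {g : G → ℂ}
    (hg : ∀ y, g (x * y) = g y) : ∑ y, g y = ℓ * ∑ y with y ∈ L, g y := by
  classical
  have : Fact ℓ.Prime := ⟨hl⟩
  have : Fintype (G ⧸ L) := Fintype.ofFinite _
  let S : G ⧸ L → ℂ := fun q => ∑ y with QuotientGroup.mk' L y = q, g y
  have hS : ∀ q, S (QuotientGroup.mk' L x * q) = S q := by
    intro q
    change ∑ y with QuotientGroup.mk' L y = QuotientGroup.mk' L x * q, g y =
      ∑ y with QuotientGroup.mk' L y = q, g y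
    rw [Finset.sum_filter, Finset.sum_filter, ← Equiv.sum_comp (Equiv.mulLeft x)]
    refine Finset.sum_congr rfl fun y _ => ?_
    rw [Equiv.coe_mulLeft, map_mul, hg]
    simp only [mul_right_inj]
  let K : Subgroup (G ⧸ L) :=
    { carrier := {r | ∀ q, S (r * q) = S q}
      one_mem' := fun q => by rw [one_mul]
      mul_mem' := by
        intro r s hr hs q
        rw [mul_assoc, hr, hs]
      inv_mem' := by
        intro r hr q
        rw [← hr (r⁻¹ * q), mul_inv_cancel_left] }
  have hc : Nat.card (G ⧸ L) = ℓ := hi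
  have hK : K = ⊤ := by
    have h1 : Fact (Nat.card (G ⧸ L)).Prime := ⟨by rw [hc]; exact hl⟩
    rcases Subgroup.eq_bot_or_eq_top_of_prime_card K with h | h
    · exfalso
      have h2 : QuotientGroup.mk' L x ∈ K := hS
      rw [h, Subgroup.mem_bot] at h2
      exact hx ((QuotientGroup.eq_one_iff x).1 h2)
    · exact h
  have hS1 : ∀ q, S q = S 1 := by
    intro q
    have h1 : q ∈ K := by rw [hK]; exact Subgroup.mem_top q
    have h2 := h1 1
    rw [mul_one] at h2
    exact h2
  rw [← Finset.sum_fiberwise Finset.univ (fun y => QuotientGroup.mk' L y)]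
  change ∑ q, S q = _
  rw [Finset.sum_congr rfl (fun q _ => hS1 q), Finset.sum_const, nsmul_eq_mul, Finset.card_univ,
    ← Nat.card_eq_fintype_card, hc]
  congr 1
  change ∑ y with QuotientGroup.mk' L y = 1, g y = _
  apply Finset.sum_congr _ fun _ _ => rfl
  ext y
  simp only [Finset.mem_filter, Finset.mem_univ, true_and]
  exact QuotientGroup.eq_one_iff y

theorem comm_out {ℓ : ℕ} (hl : ℓ.Prime) (hi : L.index = ℓ) {z : G → ℂ}
    (hz : ∀ x y, z (y * x * y⁻¹) = z x) :
    ∑ x with x ∉ L, ∑ y, z (y * x * y⁻¹ * x⁻¹) =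
      ℓ * ∑ x with x ∈ L, ∑ y with y ∉ L, z (y * x * y⁻¹ * x⁻¹) := by
  have h1 : ∑ x with x ∉ L, ∑ y, z (y * x * y⁻¹ * x⁻¹) =
      ∑ x with x ∉ L, (ℓ : ℂ) * ∑ y with y ∈ L, z (y * x * y⁻¹ * x⁻¹) := by
    refine Finset.sum_congr rfl fun x hx => ?_
    apply sum_coset hl hi (Finset.mem_filter.1 hx).2
    intro y
    have h2 : x * y * x * (x * y)⁻¹ * x⁻¹ = x * (y * x * y⁻¹ * x⁻¹) * x⁻¹ := by group
    rw [h2, hz]
  rw [h1, ← Finset.mul_sum]
  congr 1
  rw [Finset.sum_comm]
  refine Finset.sum_congr rfl fun x hx => ?_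
  rw [Finset.sum_filter, Finset.sum_filter, ← Equiv.sum_comp (Equiv.inv G)]
  refine Finset.sum_congr rfl fun y _ => ?_
  have h3 : y⁻¹ ∉ L ↔ y ∉ L := by rw [inv_mem_iff]
  have h4 : z (x * y⁻¹ * x⁻¹ * y⁻¹⁻¹) = z (y * x * y⁻¹ * x⁻¹) := by
    rw [← hz (x * y⁻¹ * x⁻¹ * y⁻¹⁻¹) y]
    congr 1
    group
  simp only [Equiv.inv_apply, h3, h4]

theorem comm_all {ℓ : ℕ} (hl : ℓ.Prime) (hi : L.index = ℓ) {z : G → ℂ}
    (hz : ∀ x y, z (y * x * y⁻¹) = z x) :
    (ℓ : ℂ) * ∑ x, ∑ y, z (y * x * y⁻¹ * x⁻¹) =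
      ℓ * ∑ x with x ∈ L, ∑ y with y ∈ L, z (y * x * y⁻¹ * x⁻¹) +
        (ℓ + 1) * ∑ x with x ∉ L, ∑ y, z (y * x * y⁻¹ * x⁻¹) := by
  have h1 := comm_out hl hi hz
  have h2 : ∑ x, ∑ y, z (y * x * y⁻¹ * x⁻¹) =
      ∑ x with x ∈ L, ∑ y with y ∈ L, z (y * x * y⁻¹ * x⁻¹) +
      ∑ x with x ∈ L, ∑ y with y ∉ L, z (y * x * y⁻¹ * x⁻¹) +
      ∑ x with x ∉ L, ∑ y, z (y * x * y⁻¹ * x⁻¹) := by
    rw [← Finset.sum_add_distrib, ← Finset.sum_filter_add_sum_filter_not Finset.univ (· ∈ L)]
    congr 1
    refine Finset.sum_congr rfl fun x _ => ?_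
    rw [Finset.sum_filter_add_sum_filter_not]
  rw [h2]
  linear_combination -h1

end comm

section omega

variable {G : Type} [Group G] [Fintype G]

theorem om_add (a b χ : G → ℂ) : om (a + b) χ = om a χ + om b χ := by
  rw [om, om, om, ← add_div, ← Finset.sum_add_distrib]
  congr 1
  refine Finset.sum_congr rfl fun t _ => ?_
  rw [Pi.add_apply, add_mul]

theorem om_one [DecidableEq G] (c : ℂ) {χ : G → ℂ} (h1 : χ 1 ≠ 0) :
    om (fun t : G => if t = 1 then c else 0) χ = c := by
  rw [om, Finset.sum_eq_single_of_mem 1 (Finset.mem_univ _)]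
  · rw [if_pos rfl, mul_div_assoc, div_self h1, mul_one]
  · intro b _ hb
    rw [if_neg hb, zero_mul]

/-- the product in the group ring -/
def cv {R : Type} [CommRing R] (a b : G → R) : G → R := fun y => ∑ h, a h * b (h⁻¹ * y)

theorem cl_cv {R : Type} [CommRing R] {a b : G → R} (ha : ∀ x y, a (y * x * y⁻¹) = a x)
    (hb : ∀ x y, b (y * x * y⁻¹) = b x) : ∀ x y, cv a b (y * x * y⁻¹) = cv a b x := by
  intro x y
  change ∑ h, a h * b (h⁻¹ * (y * x * y⁻¹)) = ∑ h, a h * b (h⁻¹ * x)
  rw [← Equiv.sum_comp (MulAut.conj y).toEquiv (fun h => a h * b (h⁻¹ * (y * x * y⁻¹)))]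
  refine Finset.sum_congr rfl fun h _ => ?_
  change a (y * h * y⁻¹) * b ((y * h * y⁻¹)⁻¹ * (y * x * y⁻¹)) = _
  have h2 : (y * h * y⁻¹)⁻¹ * (y * x * y⁻¹) = y * (h⁻¹ * x) * y⁻¹ := by group
  rw [h2, ha, hb]

theorem cv_supp {R : Type} [CommRing R] {L : Subgroup G} {a b : G → R} (ha : ∀ x, x ∉ L → a x = 0)
    (hb : ∀ x, x ∉ L → b x = 0) : ∀ x, x ∉ L → cv a b x = 0 := by
  intro x hx
  apply Finset.sum_eq_zero
  intro h _
  by_cases hh : h ∈ L
  · rw [hb, mul_zero]
    intro h1
    apply hx
    have := mul_mem hh h1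
    rwa [mul_inv_cancel_left] at this
  · rw [ha h hh, zero_mul]

theorem cv_res {R : Type} [CommRing R] {L : Subgroup G} [Fintype L] {a b : G → R}
    (ha : ∀ x, x ∉ L → a x = 0) :
    (fun t : L => cv a b t) = cv (fun t : L => a t) (fun t : L => b t) := by
  classical
  funext t
  change ∑ h, a h * b (h⁻¹ * t) = ∑ h : L, a h * b (((h⁻¹ * t : L) : G))
  have h1 : ∑ h : L, a h * b (((h⁻¹ * t : L) : G)) =
      ∑ h with h ∈ L, a h * b (h⁻¹ * t) := by
    rw [Finset.sum_subtype (p := (· ∈ L)) (Finset.univ.filter (· ∈ L)) (by simp)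
      (fun h => a h * b (h⁻¹ * t))]
    rfl
  rw [h1, Finset.sum_filter_of_ne]
  intro h _ hne
  by_contra hh
  apply hne
  rw [ha h hh, zero_mul]

theorem poly_step {L : Subgroup G} [Fintype L] {a : G → ℂ} (ha : ∀ x y, a (y * x * y⁻¹) = a x)
    (hs : ∀ x, x ∉ L → a x = 0) (p : ℂ[X]) :
    ∃ z : G → ℂ, (∀ x y, z (y * x * y⁻¹) = z x) ∧ (∀ x, x ∉ L → z x = 0) ∧
      (∀ χ ∈ Irr G, om z χ = p.eval (om a χ)) ∧
      (∀ ψ ∈ Irr L, om (fun t : L => z t) ψ = p.eval (om (fun t : L => a t) ψ)) := by
  classical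
  induction p using Polynomial.induction_on with
  | C c =>
    refine ⟨fun t => if t = 1 then c else 0, ?_, ?_, ?_, ?_⟩
    · intro x y
      have : y * x * y⁻¹ = 1 ↔ x = 1 := by
        constructor
        · intro h
          have : x = y⁻¹ * (y * x * y⁻¹) * y := by group
          rw [this, h]; group
        · rintro rfl; group
      simp only [this]
    · intro x hx
      change (if x = 1 then c else 0) = 0
      rw [if_neg]
      rintro rfl
      exact hx L.one_mem
    · intro χ hχ
      rw [om_one c (irr_one_ne hχ), Polynomial.eval_C]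
    · intro ψ hψ
      have h1 : (fun t : L => if (t : G) = 1 then c else 0) = fun t : L => if t = 1 then c else 0 := by
        funext t
        have h2 : (t : G) = 1 ↔ t = 1 := OneMemClass.coe_eq_one
        simp only [h2]
      rw [h1, om_one c (irr_one_ne hψ), Polynomial.eval_C]
  | add p q hp hq =>
    obtain ⟨z, z1, z2, z3, z4⟩ := hp
    obtain ⟨w, w1, w2, w3, w4⟩ := hq
    refine ⟨z + w, ?_, ?_, ?_, ?_⟩
    · intro x y
      rw [Pi.add_apply, Pi.add_apply, z1, w1]
    · intro x hx
      rw [Pi.add_apply, z2 x hx, w2 x hx, add_zero]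
    · intro χ hχ
      rw [om_add, z3 χ hχ, w3 χ hχ, Polynomial.eval_add]
    · intro ψ hψ
      have h1 : (fun t : L => (z + w) t) = (fun t : L => z t) + (fun t : L => w t) := rfl
      rw [h1, om_add, z4 ψ hψ, w4 ψ hψ, Polynomial.eval_add]
  | monomial n c ih =>
    obtain ⟨z, z1, z2, z3, z4⟩ := ih
    refine ⟨cv a z, cl_cv ha z1, cv_supp hs z2, ?_, ?_⟩
    · intro χ hχ
      have h1 : om (cv a z) χ = om a χ * om z χ := om_mul z1 hχ
      rw [h1, z3 χ hχ]
      simp only [Polynomial.eval_mul, Polynomial.eval_C, Polynomial.eval_pow, Polynomial.eval_X]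
      ring
    · intro ψ hψ
      have h0 : ∀ x y : L, (fun t : L => z t) (y * x * y⁻¹) = (fun t : L => z t) x :=
        fun x y => z1 x y
      have h1 : om (cv (fun t : L => a t) (fun t : L => z t)) ψ =
          om (fun t : L => a t) ψ * om (fun t : L => z t) ψ :=
        om_mul (a := fun t : L => a t) (b := fun t : L => z t) h0 hψ
      rw [cv_res hs, h1, z4 ψ hψ]
      simp only [Polynomial.eval_mul, Polynomial.eval_C, Polynomial.eval_pow, Polynomial.eval_X]
      ring

end omega

section main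

variable {M : Ideal (integralClosure ℤ ℂ)}

theorem ncard_eq {H : Type} [Group H] [Fintype (Irr H)] (e : H → FF M) [DecidableEq (FF M)] :
    {ϑ : H → ℂ | ϑ ∈ Irr H ∧ res M e ϑ = 1}.ncard =
      (Finset.univ.filter (fun χ : Irr H => res M e χ = 1)).card := by
  have h6 : {ϑ : H → ℂ | ϑ ∈ Irr H ∧ res M e ϑ = 1} =
      (fun χ : Irr H => (χ : H → ℂ)) '' {χ : Irr H | res M e χ = 1} := by
    ext ϑ
    constructor
    · rintro ⟨h7, h8⟩
      exact ⟨⟨ϑ, h7⟩, h8, rfl⟩
    · rintro ⟨χ, h7, rfl⟩
      exact ⟨χ.2, h7⟩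
  rw [h6, Set.ncard_image_of_injective _ Subtype.val_injective]
  have h7 : {χ : Irr H | res M e χ = 1} =
      (Finset.univ.filter (fun χ : Irr H => res M e χ = 1) : Finset (Irr H)) := by
    ext χ
    simp only [Set.mem_ofPred_eq, Finset.coe_filter, Finset.mem_univ, true_and]
  rw [h7, Set.ncard_coe_finset]

variable [hM : M.IsMaximal]

theorem isIdem_res {F : Type} [Field F] {G : Type} [Group G] [Finite G] {L : Subgroup G}
    {a : G → F} (ha : IsIdem a) (hs : ∀ x, x ∉ L → a x = 0) : IsIdem (fun t : L => a t) := by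
  classical
  have := Fintype.ofFinite G
  have := Fintype.ofFinite L
  refine ⟨fun x y => ha.1 x y, ?_⟩
  have h1 := cv_res (a := a) (b := a) hs
  have h2 : cv a a = a := by
    funext x
    have h := congrFun ha.2 x
    rw [mulF, finsum_eq_sum_of_fintype] at h
    exact h
  have h3 : mulF (fun t : L => a t) (fun t : L => a t) =
      cv (fun t : L => a t) (fun t : L => a t) := by
    funext x
    rw [mulF, finsum_eq_sum_of_fintype]
    rfl
  rw [h3, ← h1, h2]

/-- LQM -/
theorem lqm : LqmStmt := by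
  intro ℓ hl M hM hlM G _ _ L hL hi a ha hs
  classical
  have := Fintype.ofFinite G
  have := Fintype.ofFinite L
  have := Fintype.ofFinite (ConjClasses G)
  have := Fintype.ofFinite (ConjClasses L)
  have := Fintype.ofFinite (Irr G)
  have := Fintype.ofFinite (Irr L)
  let P : ConjClasses G → Prop := fun c => Quotient.out c ∉ L
  have hP : ∀ x, P (ConjClasses.mk x) ↔ x ∉ L := by
    intro x
    obtain ⟨h, hh⟩ := exists_out x
    change Quotient.out (ConjClasses.mk x) ∉ L ↔ _
    rw [← hh, hL.mem_comm_iff, inv_mul_cancel_left]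
  have hstb : ∀ {R : Type} [Zero R] (z : G → R), (∀ x, x ∉ L → z x = 0) → Stb P z := by
    intro R _ z hz t ht x
    have h1 : t ∈ L := by
      by_contra h
      exact ht (hz t h)
    rw [hP, hP, Subgroup.mul_mem_cancel_left L h1]
  obtain ⟨B, hB⟩ := exists_BB P
  -- the lift
  obtain ⟨b0, hb0, eb0⟩ := exists_lift (M := M) (b := a) ha.1
  let b : G → integralClosure ℤ ℂ := fun t => if t ∈ L then b0 t else 0
  have hbs : ∀ x, x ∉ L → b x = 0 := fun x hx => if_neg hx
  have hb : Cl b := by
    intro x y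
    have h1 : y * x * y⁻¹ ∈ L ↔ x ∈ L := by
      rw [hL.mem_comm_iff, inv_mul_cancel_left]
    change (if y * x * y⁻¹ ∈ L then b0 (y * x * y⁻¹) else 0) = if x ∈ L then b0 x else 0
    rw [hb0]
    simp only [h1]
  have eb : ∀ t, Ideal.Quotient.mk M (b t) = a t := by
    intro t
    by_cases h : t ∈ L
    · change Ideal.Quotient.mk M (if t ∈ L then b0 t else 0) = a t
      rw [if_pos h, eb0]
    · change Ideal.Quotient.mk M (if t ∈ L then b0 t else 0) = a t
      rw [if_neg h, map_zero, hs t h]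
  -- the three ranks
  have e1 := chp_main ha
  have e2 := chp_main (isIdem_res ha hs)
  have e3 : rk a (cfsO (FF M) L) = _ :=
    (rk_cfsO hP ha.1 (hstb a hs)).trans (chp_P hB ha (hstb a hs) b hb eb (hstb b hbs))
  rw [ncard_eq] at e1 e2
  -- the central characters
  let w : G → ℂ := fun t => (b t : ℂ)
  have hw : ∀ x y, w (y * x * y⁻¹) = w x := fun x y => by
    change ((b (y * x * y⁻¹) : integralClosure ℤ ℂ) : ℂ) = _
    rw [hb]
  have hws : ∀ x, x ∉ L → w x = 0 := by
    intro x hx
    change ((b x : integralClosure ℤ ℂ) : ℂ) = 0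
    rw [hbs x hx]
    rfl
  have r1 : ∀ χ : Irr G, res M a χ = red M (om w χ) := by
    intro χ
    have h1 := (res_irr (M := M) b hb χ.2).1
    have h2 : (fun t => Ideal.Quotient.mk M (b t)) = a := funext eb
    rw [h2] at h1
    exact h1
  have r2 : ∀ ψ : Irr L, res M (fun t : L => a t) ψ = red M (om (fun t : L => w t) ψ) := by
    intro ψ
    have h1 := (res_irr (M := M) (fun t : L => b t) (fun x y => hb x y) ψ.2).1
    have h2 : (fun t : L => Ideal.Quotient.mk M (b t)) = fun t : L => a t := by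
      funext t
      exact eb t
    rw [h2] at h1
    exact h1
  -- interpolation
  let T : Finset ℂ := Finset.univ.image (fun χ : Irr G => om w χ) ∪
    Finset.univ.image (fun ψ : Irr L => om (fun t : L => w t) ψ)
  let p : ℂ[X] := Lagrange.interpolate T id (fun x => if red M x = 1 then 1 else 0)
  have hp : ∀ x ∈ T, p.eval x = if red M x = 1 then 1 else 0 := fun x hx =>
    Lagrange.eval_interpolate_at_node (s := T) (v := id) _ Function.injective_id.injOn hx
  obtain ⟨z, z1, z2, z3, z4⟩ := poly_step (L := L) hw hws p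
  have t1 := trace_full z1
  have t2 := trace_full (H := L) (z := fun t : L => z t) (fun x y => z1 x y)
  have t3 := trace_eq z1 (hB z z1 (hstb z z2))
  have s1 : ∑ χ : Irr G, om z χ =
      ((Finset.univ.filter (fun χ : Irr G => res M a χ = 1)).card : ℂ) := by
    rw [Finset.card_filter, Nat.cast_sum]
    refine Finset.sum_congr rfl fun χ _ => ?_
    rw [z3 χ χ.2, hp _ (Finset.mem_union_left _ (Finset.mem_image_of_mem _ (Finset.mem_univ χ))),
      r1]
    push_cast
    rfl
  have s2 : ∑ ψ : Irr L, om (fun t : L => z t) ψ =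
      ((Finset.univ.filter (fun ψ : Irr L => res M (fun t : L => a t) ψ = 1)).card : ℂ) := by
    rw [Finset.card_filter, Nat.cast_sum]
    refine Finset.sum_congr rfl fun ψ _ => ?_
    rw [z4 ψ ψ.2, hp _ (Finset.mem_union_right _ (Finset.mem_image_of_mem _ (Finset.mem_univ ψ))),
      r2]
    push_cast
    rfl
  have s3 : ∑ χ ∈ B, om z χ =
      ((B.filter (fun χ : Irr G => res M a χ = 1)).card : ℂ) := by
    rw [Finset.card_filter, Nat.cast_sum]
    refine Finset.sum_congr rfl fun χ _ => ?_
    rw [z3 χ χ.2, hp _ (Finset.mem_union_left _ (Finset.mem_image_of_mem _ (Finset.mem_univ χ))),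
      r1]
    push_cast
    rfl
  have hca := comm_all (L := L) hl hi z1
  have f1 : ∑ x : G with P (ConjClasses.mk x), ∑ y, z (y * x * y⁻¹ * x⁻¹) =
      ∑ x with x ∉ L, ∑ y, z (y * x * y⁻¹ * x⁻¹) := by
    apply Finset.sum_congr _ fun _ _ => rfl
    ext x
    simp only [Finset.mem_filter, Finset.mem_univ, true_and]
    exact hP x
  have f2 : ∑ x : L, ∑ y : L, (fun t : L => z t) (y * x * y⁻¹ * x⁻¹) =
      ∑ x with x ∈ L, ∑ y with y ∈ L, z (y * x * y⁻¹ * x⁻¹) := by
    rw [Finset.sum_subtype (p := (· ∈ L)) (Finset.univ.filter (· ∈ L)) (by simp)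
      (fun x => ∑ y with y ∈ L, z (y * x * y⁻¹ * x⁻¹))]
    refine Finset.sum_congr rfl fun x _ => ?_
    rw [Finset.sum_subtype (p := (· ∈ L)) (Finset.univ.filter (· ∈ L)) (by simp)
      (fun y => z (y * x * y⁻¹ * (x : G)⁻¹))]
    rfl
  have hcard : (Fintype.card G : ℂ) = ℓ * Fintype.card L := by
    have h1 := L.card_mul_index
    rw [hi, Nat.card_eq_fintype_card, Nat.card_eq_fintype_card] at h1
    rw [← h1]
    push_cast
    ring
  rw [← t1, ← f2, ← t2, ← f1, ← t3, s1, s2, s3] at hca
  have hne : (Fintype.card G : ℂ) ≠ 0 := by exact_mod_cast Fintype.card_ne_zero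
  rw [e1, e2, e3]
  have key : (Fintype.card G : ℂ) *
      ((ℓ * (Finset.univ.filter (fun χ : Irr G => res M a χ = 1)).card : ℕ) : ℂ) =
      Fintype.card G * (((Finset.univ.filter
        (fun ψ : Irr L => res M (fun t : L => a t) ψ = 1)).card +
        (ℓ + 1) * (B.filter (fun χ : Irr G => res M a χ = 1)).card : ℕ) : ℂ) := by
    push_cast
    rw [hcard] at hca ⊢
    linear_combination hca
  have key2 := mul_left_cancel₀ hne key
  exact_mod_cast key2

end main

end Pool.Agent.PP.H75
end
end -- Pool.Agent.Helper75_PP.Lqm
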