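import Pool.Agent.Helper12_AWB.B051
import Pool.Agent.Helper12_AWB.B053
import Pool.Agent.Helper66_PP.Pos1
import Pool.Agent.Helper98_PP.StmtsR2b

/-!
# Merged copies (generated) of the modules

* `Pool.Agent.Helper39_AWR.Grp`
* `Pool.Agent.Helper39_AWR.GrpA`
* `Pool.Agent.Helper6_PP.Slice`
* `Pool.Agent.Helper6_PP.Fcu`
* `Pool.Agent.Helper6_PP.ComA`
* `Pool.Agent.Helper6_PP.ComB`
* `Pool.Agent.Helper87_PP.Cma`
* `Pool.Agent.Helper87_PP.Cmc`
* `Pool.Agent.Helper6_PP.ComC`
* `Pool.Agent.Helper6_PP.Com`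
-/

set_option autoImplicit false

section -- Pool.Agent.Helper39_AWR.Grp

/-!
# AWR squad, module GRP: chief factors over a central subgroup

`Z ≤ N` normal subgroups of `H`, `Z` central, `N/Z` a minimal normal subgroup of `H/Z`.
If `N/Z` is not abelian, `N/Z` is the direct product of simple nonabelian groups `A/Z`,
`A` in the set `MinAdm Z N`, permuted transitively by `H`; `K = ⁅A,A⁆` is perfect, `A = K Z`.
-/

namespace Pool.Agent.AWR.H39

open scoped Pointwise commutatorElement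

variable {H : Type*} [Group H]

/-- `N/Z` is a chief factor of `H`, with `Z` central. -/
structure IsChief (Z N : Subgroup H) : Prop where
  le : Z ≤ N
  ne : Z ≠ N
  central : Z ≤ Subgroup.center H
  normal : N.Normal
  min : ∀ T : Subgroup H, T.Normal → Z ≤ T → T ≤ N → T = Z ∨ T = N

/-- `T` lies between `Z` and `N` and is normalised by `N`. -/
structure Adm (Z N T : Subgroup H) : Prop where
  le : Z ≤ T
  sub : T ≤ N
  conj : ∀ n ∈ N, ∀ t ∈ T, n * t * n⁻¹ ∈ T

/-- `T/Z` is a minimal normal subgroup of `N/Z`. -/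
structure MinAdm (Z N T : Subgroup H) : Prop extends Adm Z N T where
  ne : T ≠ Z
  min : ∀ T', Adm Z N T' → T' ≤ T → T' = Z ∨ T' = T

/-! ### Generalities -/

lemma normal_of_central {Z : Subgroup H} (hZ : Z ≤ Subgroup.center H) : Z.Normal := by
  constructor
  intro z hz g
  have := Subgroup.mem_center_iff.1 (hZ hz) g
  rw [this, mul_inv_cancel_right]; exact hz

lemma mem_sup_central {Z A : Subgroup H} (hZ : Z ≤ Subgroup.center H) {x : H} :
    x ∈ A ⊔ Z ↔ ∃ a ∈ A, ∃ z ∈ Z, x = a * z := by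
  have : Z.Normal := normal_of_central hZ
  rw [← SetLike.mem_coe, Subgroup.mul_normal]
  constructor
  · rintro ⟨a, ha, z, hz, rfl⟩; exact ⟨a, ha, z, hz, rfl⟩
  · rintro ⟨a, ha, z, hz, rfl⟩; exact ⟨a, ha, z, hz, rfl⟩

lemma comm_central {Z : Subgroup H} (hZ : Z ≤ Subgroup.center H) {z : H} (hz : z ∈ Z) (g : H) :
    g * z = z * g := Subgroup.mem_center_iff.1 (hZ hz) g

lemma commutator_mul_central {Z : Subgroup H} (hZ : Z ≤ Subgroup.center H) {z w : H}
    (hz : z ∈ Z) (hw : w ∈ Z) (a b : H) : ⁅a * z, b * w⁆ = ⁅a, b⁆ := by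
  have h1 := comm_central hZ hz
  have h2 := comm_central hZ hw
  have h3 := comm_central hZ (Z.inv_mem hz)
  have h4 := comm_central hZ (Z.inv_mem hw)
  calc ⁅a * z, b * w⁆ = a * z * (b * w) * (z⁻¹ * a⁻¹) * (w⁻¹ * b⁻¹) := by
        simp only [commutatorElement_def, mul_inv_rev]
    _ = a * (z * (b * w)) * z⁻¹ * a⁻¹ * (w⁻¹ * b⁻¹) := by group
    _ = a * ((b * w) * z) * z⁻¹ * a⁻¹ * (w⁻¹ * b⁻¹) := by rw [h1 (b * w)]
    _ = a * b * (w * (a⁻¹ * w⁻¹)) * b⁻¹ := by group
    _ = a * b * (w * (w⁻¹ * a⁻¹)) * b⁻¹ := by rw [h4 a⁻¹]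
    _ = ⁅a, b⁆ := by simp only [commutatorElement_def]; group

lemma commutator_sup_central {Z : Subgroup H} (hZ : Z ≤ Subgroup.center H) (A B : Subgroup H) :
    ⁅A ⊔ Z, B ⊔ Z⁆ = ⁅A, B⁆ := by
  apply le_antisymm
  · rw [Subgroup.commutator_le]
    intro x hx y hy
    obtain ⟨a, ha, z, hz, rfl⟩ := (mem_sup_central hZ).1 hx
    obtain ⟨b, hb, w, hw, rfl⟩ := (mem_sup_central hZ).1 hy
    rw [commutator_mul_central hZ hz hw]
    exact Subgroup.commutator_mem_commutator ha hb
  · exact Subgroup.commutator_mono le_sup_left le_sup_left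

/-- If `b` centralises `A` modulo the central subgroup `Z` then `b` centralises `⁅A,A⁆`. -/
lemma comm_of_comm_mod {Z : Subgroup H} (hZ : Z ≤ Subgroup.center H) {A : Subgroup H} {b : H}
    (h : ∀ a ∈ A, ⁅b, a⁆ ∈ Z) {k : H} (hk : k ∈ ⁅A, A⁆) : b * k = k * b := by
  have h1 : ⁅A, A⁆ ≤ Subgroup.centralizer {b} := by
    rw [Subgroup.commutator_le]
    intro x hx y hy
    rw [Subgroup.mem_centralizer_singleton_iff]
    have e1 : b * x * b⁻¹ = x * ⁅b, x⁆ := by
      rw [comm_central hZ (h x hx) x, commutatorElement_def]; group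
    have e2 : b * y * b⁻¹ = y * ⁅b, y⁆ := by
      rw [comm_central hZ (h y hy) y, commutatorElement_def]; group
    have e3 : b * ⁅x, y⁆ * b⁻¹ = ⁅x, y⁆ := by
      calc b * ⁅x, y⁆ * b⁻¹ = ⁅b * x * b⁻¹, b * y * b⁻¹⁆ := by
            simp only [commutatorElement_def]; group
        _ = ⁅x, y⁆ := by rw [e1, e2, commutator_mul_central hZ (h x hx) (h y hy)]
    calc ⁅x, y⁆ * b = b * ⁅x, y⁆ * b⁻¹ * b := by rw [e3]
      _ = b * ⁅x, y⁆ := by group
  have := h1 hk
  rw [Subgroup.mem_centralizer_singleton_iff] at this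
  exact this.symm

/-- The elements commuting with `B` modulo `Z`. -/
def relC (Z B : Subgroup H) [Z.Normal] : Subgroup H :=
  (Subgroup.centralizer ((B.map (QuotientGroup.mk' Z) : Subgroup (H ⧸ Z)) : Set (H ⧸ Z))).comap
    (QuotientGroup.mk' Z)

lemma mem_relC {Z B : Subgroup H} [Z.Normal] {x : H} : x ∈ relC Z B ↔ ∀ b ∈ B, ⁅x, b⁆ ∈ Z := by
  unfold relC
  rw [Subgroup.mem_comap, Subgroup.mem_centralizer_iff_commutator_eq_one]
  constructor
  · intro h b hb
    have := h (QuotientGroup.mk' Z b) ⟨b, hb, rfl⟩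
    have h2 : (QuotientGroup.mk' Z) ⁅b, x⁆ = 1 := by
      rw [map_commutatorElement]; simpa [commutatorElement_def] using this
    rw [← MonoidHom.mem_ker, QuotientGroup.ker_mk'] at h2
    have h3 := Z.inv_mem h2
    rwa [commutatorElement_inv] at h3
  · rintro h _ ⟨b, hb, rfl⟩
    have h1 := Z.inv_mem (h b hb)
    rw [commutatorElement_inv, ← QuotientGroup.ker_mk' Z, MonoidHom.mem_ker,
      map_commutatorElement] at h1
    simpa [commutatorElement_def] using h1

lemma relC_symm {Z A B : Subgroup H} [Z.Normal] (h : A ≤ relC Z B) : B ≤ relC Z A := by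
  intro b hb
  rw [mem_relC]
  intro a ha
  have := Z.inv_mem (mem_relC.1 (h ha) b hb)
  rwa [commutatorElement_inv] at this

lemma relC_anti {Z A B : Subgroup H} [Z.Normal] (h : A ≤ B) : relC Z B ≤ relC Z A := by
  intro x hx
  rw [mem_relC] at hx ⊢
  exact fun b hb => hx b (h hb)

lemma relC_normal {Z N : Subgroup H} [hZn : Z.Normal] (hN : N.Normal) : (relC Z N).Normal := by
  constructor
  intro x hx g
  rw [mem_relC] at hx ⊢
  intro b hb
  have h1 := hx (g⁻¹ * b * g) (by simpa using hN.conj_mem b hb g⁻¹)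
  have h2 := hZn.conj_mem _ h1 g
  have e : g * ⁅x, g⁻¹ * b * g⁆ * g⁻¹ = ⁅g * x * g⁻¹, b⁆ := by
    simp only [commutatorElement_def]; group
  rwa [e] at h2

/-- The conjugate `g T g⁻¹`. -/
def cj (g : H) (T : Subgroup H) : Subgroup H := T.map (MulAut.conj g).toMonoidHom

lemma mem_cj {g : H} {T : Subgroup H} {x : H} : x ∈ cj g T ↔ g⁻¹ * x * g ∈ T := by
  unfold cj
  rw [Subgroup.mem_map]
  constructor
  · rintro ⟨t, ht, rfl⟩
    simpa [mul_assoc] using ht
  · intro h
    exact ⟨_, h, by simp [mul_assoc]⟩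

lemma conj_mem_cj {g : H} {T : Subgroup H} {t : H} (ht : t ∈ T) : g * t * g⁻¹ ∈ cj g T := by
  rw [mem_cj]; simpa [mul_assoc] using ht

lemma cj_mul (g k : H) (T : Subgroup H) : cj g (cj k T) = cj (g * k) T := by
  ext x; simp only [mem_cj]; simp [mul_assoc]

lemma cj_one (T : Subgroup H) : cj 1 T = T := by
  ext x; simp [mem_cj]

lemma cj_le {g : H} {T N : Subgroup H} (hN : N.Normal) (h : T ≤ N) : cj g T ≤ N := by
  intro x hx
  rw [mem_cj] at hx
  have := hN.conj_mem _ (h hx) g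
  simpa [mul_assoc] using this

lemma cj_normal {g : H} {N : Subgroup H} (hN : N.Normal) : cj g N = N := by
  apply le_antisymm (cj_le hN le_rfl)
  intro x hx
  rw [mem_cj]
  simpa using hN.conj_mem x hx g⁻¹

lemma cj_mono {g : H} {S T : Subgroup H} (h : S ≤ T) : cj g S ≤ cj g T := Subgroup.map_mono h

lemma cj_commutator (g : H) (S T : Subgroup H) : cj g ⁅S, T⁆ = ⁅cj g S, cj g T⁆ :=
  Subgroup.map_commutator S T _

/-- If a subgroup contains all the conjugates of `A` it contains the normal closure. -/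
lemma normalClosure_le_of_cj {A T : Subgroup H} (h : ∀ g, cj g A ≤ T) :
    Subgroup.normalClosure (A : Set H) ≤ T := by
  rw [Subgroup.normalClosure, Subgroup.closure_le]
  intro x hx
  rw [Group.mem_conjugatesOfSet_iff] at hx
  obtain ⟨a, ha, hax⟩ := hx
  obtain ⟨g, rfl⟩ := isConj_iff.1 hax
  exact h g (conj_mem_cj ha)

/-! ### Part (a): the abelian case -/

/-- A finite normal subgroup `N` of `H` with `⁅N,N⁆` central and without nontrivial
`H`-normal `l`-subgroups has order prime to `l`. -/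
theorem grp_abelian [Finite H] {N : Subgroup H} (hN : N.Normal)
    (hc : ⁅N, N⁆ ≤ Subgroup.center H) {l : ℕ} [Fact l.Prime]
    (hO : ∀ P : Subgroup H, P.Normal → P ≤ N → IsPGroup l P → P = ⊥) :
    ¬ l ∣ Nat.card N := by
  classical
  have := hN
  have hnil : Group.IsNilpotent N := by
    apply Subgroup.isNilpotent_of_lowerCentralSeries_eq_bot (n := 2)
    rw [Subgroup.lowerCentralSeries_succ, Subgroup.lowerCentralSeries_succ,
      Subgroup.lowerCentralSeries_zero, eq_bot_iff, Subgroup.commutator_le]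
    intro x hx y _
    rw [Subgroup.mem_bot, commutatorElement_eq_one_iff_mul_comm]
    exact (Subgroup.mem_center_iff.1 (hc hx) y).symm
  intro hl
  have P : Sylow l N := default
  have hP : (P : Subgroup N).Normal := inferInstance
  have hPc : (P : Subgroup N).Characteristic := Sylow.characteristic_of_normal P hP
  have h1 : ((P : Subgroup N).map N.subtype).Normal := inferInstance
  have h2 := hO _ h1 (Subgroup.map_subtype_le _) (P.isPGroup'.map _)
  have h3 : (P : Subgroup N) = ⊥ := (Subgroup.map_eq_bot_iff_of_injective _ N.subtype_injective).1 h2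
  have h4 := Sylow.ne_bot_of_dvd_card P hl
  exact h4 h3

/-! ### Part (b) -/

namespace IsChief

variable {Z N : Subgroup H}

lemma zn (h : IsChief Z N) : Z.Normal := normal_of_central h.central

lemma sup_comm (h : IsChief Z N) (hna : ¬ ⁅N, N⁆ ≤ Z) : ⁅N, N⁆ ⊔ Z = N := by
  have := h.normal
  have := h.zn
  rcases h.min (⁅N, N⁆ ⊔ Z) inferInstance le_sup_right
    (sup_le (Subgroup.commutator_le_left N N) h.le) with h1 | h1
  · exact absurd (le_sup_left.trans h1.le) hna
  · exact h1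

lemma perfect (h : IsChief Z N) (hna : ¬ ⁅N, N⁆ ≤ Z) : ⁅⁅N, N⁆, ⁅N, N⁆⁆ = ⁅N, N⁆ := by
  rw [← commutator_sup_central h.central ⁅N, N⁆ ⁅N, N⁆, h.sup_comm hna]

lemma le_relC (h : IsChief Z N) (B : Subgroup H) [Z.Normal] : Z ≤ relC Z B := by
  intro z hz
  rw [mem_relC]
  intro b _
  have : ⁅z, b⁆ = 1 := by
    rw [commutatorElement_eq_one_iff_mul_comm]; exact (comm_central h.central hz b).symm
  rw [this]; exact Z.one_mem

lemma relC_inf (h : IsChief Z N) (hna : ¬ ⁅N, N⁆ ≤ Z) [Z.Normal] : relC Z N ⊓ N = Z := by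
  have := h.normal
  have h0 := relC_normal (Z := Z) h.normal
  rcases h.min (relC Z N ⊓ N) inferInstance (le_inf (h.le_relC N) h.le) inf_le_right with h1 | h1
  · exact h1
  · exfalso
    apply hna
    rw [Subgroup.commutator_le]
    intro x hx y hy
    have : x ∈ relC Z N ⊓ N := by rw [h1]; exact hx
    exact mem_relC.1 this.1 y hy

lemma centralizer_le_relC [Z.Normal] : Subgroup.centralizer (N : Set H) ≤ relC Z N := by
  intro x hx
  rw [mem_relC]
  intro b hb
  rw [Subgroup.mem_centralizer_iff] at hx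
  have : ⁅x, b⁆ = 1 := by
    rw [commutatorElement_eq_one_iff_mul_comm]; exact (hx b hb).symm
  rw [this]; exact Z.one_mem

lemma centralizer_inf (h : IsChief Z N) (hna : ¬ ⁅N, N⁆ ≤ Z) :
    Subgroup.centralizer (N : Set H) ⊓ N = Z := by
  have := h.zn
  apply le_antisymm
  · exact (inf_le_inf_right N centralizer_le_relC).trans (h.relC_inf hna).le
  · refine le_inf ?_ h.le
    intro z hz
    rw [Subgroup.mem_centralizer_iff]
    intro g _
    exact comm_central h.central hz g

/-- `C_H(⁅N,N⁆) = C_H(N)`. -/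
lemma centralizer_commutator (h : IsChief Z N) (hna : ¬ ⁅N, N⁆ ≤ Z) :
    Subgroup.centralizer ((⁅N, N⁆ : Subgroup H) : Set H) = Subgroup.centralizer (N : Set H) := by
  apply le_antisymm
  · intro x hx
    rw [Subgroup.mem_centralizer_iff] at hx ⊢
    intro n hn
    have hn' : n ∈ ⁅N, N⁆ ⊔ Z := by rw [h.sup_comm hna]; exact hn
    obtain ⟨a, ha, z, hz, rfl⟩ := (mem_sup_central h.central).1 hn'
    rw [mul_assoc, ← comm_central h.central hz x, ← mul_assoc, ← mul_assoc, hx a ha]
  · apply Subgroup.centralizer_le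
    have := h.normal
    exact Subgroup.commutator_le_left N N

/-- `C_{H/C}(NC/C) = 1`, `C = C_H(N)`: if `⁅g,n⁆` centralises `N` for all `n ∈ N` then `g`
centralises `N`. -/
lemma mem_centralizer (h : IsChief Z N) (hna : ¬ ⁅N, N⁆ ≤ Z) {g : H}
    (hg : ∀ n ∈ N, ⁅g, n⁆ ∈ Subgroup.centralizer (N : Set H)) :
    g ∈ Subgroup.centralizer (N : Set H) := by
  have h1 : ∀ n ∈ N, ⁅g, n⁆ ∈ Z := by
    intro n hn
    rw [← h.centralizer_inf hna]
    refine ⟨hg n hn, ?_⟩
    rw [commutatorElement_def]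
    exact N.mul_mem (h.normal.conj_mem n hn g) (N.inv_mem hn)
  rw [← h.centralizer_commutator hna, Subgroup.mem_centralizer_iff]
  intro k hk
  exact (comm_of_comm_mod h.central h1 hk).symm

end IsChief

/-! ### Part (c): the minimal normal subgroups of `N/Z` -/

lemma Adm.commutator_le {Z N A B : Subgroup H} (hA : Adm Z N A) (hB : Adm Z N B) :
    ⁅A, B⁆ ≤ A ⊓ B := by
  rw [Subgroup.commutator_le]
  intro a ha b hb
  constructor
  · have h1 := hA.conj b (hB.sub hb) _ (A.inv_mem ha)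
    have e : ⁅a, b⁆ = a * (b * a⁻¹ * b⁻¹) := by rw [commutatorElement_def]; group
    rw [e]; exact A.mul_mem ha h1
  · have h1 := hB.conj a (hA.sub ha) _ hb
    rw [commutatorElement_def]
    exact B.mul_mem h1 (B.inv_mem hb)

lemma Adm.inf {Z N A B : Subgroup H} (hA : Adm Z N A) (hB : Adm Z N B) : Adm Z N (A ⊓ B) :=
  ⟨le_inf hA.le hB.le, inf_le_left.trans hA.sub,
    fun n hn t ht => ⟨hA.conj n hn t ht.1, hB.conj n hn t ht.2⟩⟩

lemma Adm.cj {Z N A : Subgroup H} (h : IsChief Z N) (hA : Adm Z N A) (g : H) :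
    Adm Z N (cj g A) := by
  refine ⟨?_, cj_le h.normal hA.sub, ?_⟩
  · have := cj_mono (g := g) hA.le
    rwa [cj_normal h.zn] at this
  · intro n hn t ht
    rw [mem_cj] at ht ⊢
    have h1 := hA.conj (g⁻¹ * n * g) (by simpa using h.normal.conj_mem n hn g⁻¹) _ ht
    have e : g⁻¹ * n * g * (g⁻¹ * t * g) * (g⁻¹ * n * g)⁻¹ = g⁻¹ * (n * t * n⁻¹) * g := by group
    rwa [e] at h1

lemma MinAdm.cj {Z N A : Subgroup H} (h : IsChief Z N) (hA : MinAdm Z N A) (g : H) :
    MinAdm Z N (cj g A) := by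
  refine ⟨hA.toAdm.cj h g, ?_, ?_⟩
  · intro h1
    apply hA.ne
    have : H39.cj g⁻¹ (H39.cj g A) = H39.cj g⁻¹ Z := by rw [h1]
    rwa [cj_mul, inv_mul_cancel, cj_one, cj_normal h.zn] at this
  · intro T' hT' hle
    have h1 : H39.cj g⁻¹ T' ≤ A := by
      have := cj_mono (g := g⁻¹) hle
      rwa [cj_mul, inv_mul_cancel, cj_one] at this
    rcases hA.min _ (hT'.cj h g⁻¹) h1 with h2 | h2
    · left
      have : H39.cj g (H39.cj g⁻¹ T') = H39.cj g Z := by rw [h2]
      rwa [cj_mul, mul_inv_cancel, cj_one, cj_normal h.zn] at this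
    · right
      have : H39.cj g (H39.cj g⁻¹ T') = H39.cj g A := by rw [h2]
      rwa [cj_mul, mul_inv_cancel, cj_one] at this

lemma MinAdm.inf_eq {Z N A B : Subgroup H} (hA : MinAdm Z N A) (hB : MinAdm Z N B) (hne : A ≠ B) :
    A ⊓ B = Z := by
  rcases hA.min _ (hA.toAdm.inf hB.toAdm) inf_le_left with h1 | h1
  · exact h1
  · exfalso
    rcases hB.min A hA.toAdm (inf_eq_left.1 h1) with h2 | h2
    · exact hA.ne h2
    · exact hne h2

lemma MinAdm.commutator_le {Z N A B : Subgroup H} (hA : MinAdm Z N A) (hB : MinAdm Z N B)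
    (hne : A ≠ B) : ⁅A, B⁆ ≤ Z :=
  (hA.toAdm.commutator_le hB.toAdm).trans (hA.inf_eq hB hne).le

lemma exists_minAdm [Finite H] {Z N : Subgroup H} (h : IsChief Z N) {T : Subgroup H}
    (hT : Adm Z N T) (hne : T ≠ Z) : ∃ A, MinAdm Z N A ∧ A ≤ T := by
  classical
  have hfin : (Set.univ : Set (Subgroup H)).Finite := Set.toFinite _
  obtain ⟨A, hA⟩ := (hfin.subset (Set.subset_univ {A | Adm Z N A ∧ A ≠ Z ∧ A ≤ T})).exists_minimal
    ⟨T, hT, hne, le_rfl⟩
  refine ⟨A, ⟨hA.prop.1, hA.prop.2.1, ?_⟩, hA.prop.2.2⟩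
  intro T' hT' hle
  by_cases h1 : T' = Z
  · exact Or.inl h1
  · right
    exact le_antisymm hle (hA.le_of_le ⟨hT', h1, hle.trans hA.prop.2.2⟩ hle)

lemma normalClosure_eq {Z N A : Subgroup H} (h : IsChief Z N) (hA : MinAdm Z N A) :
    Subgroup.normalClosure (A : Set H) = N := by
  rcases h.min _ Subgroup.normalClosure_normal
    (hA.le.trans Subgroup.le_normalClosure)
    (by have := h.normal; exact Subgroup.normalClosure_le_normal hA.sub) with h1 | h1
  · exfalso
    exact hA.ne (le_antisymm (Subgroup.le_normalClosure.trans h1.le) hA.le)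
  · exact h1

/-- `N` is contained in every subgroup containing the conjugates of `A`. -/
lemma le_of_cj {Z N A T : Subgroup H} (h : IsChief Z N) (hA : MinAdm Z N A)
    (hT : ∀ g, cj g A ≤ T) : N ≤ T := by
  rw [← normalClosure_eq h hA]; exact normalClosure_le_of_cj hT

/-- `N` is generated by the minimal admissible subgroups. -/
lemma le_of_minAdm [Finite H] {Z N T : Subgroup H} (h : IsChief Z N)
    (hT : ∀ A, MinAdm Z N A → A ≤ T) : N ≤ T := by
  have hN : Adm Z N N := ⟨h.le, le_rfl, fun n _ t ht => h.normal.conj_mem t ht n⟩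
  obtain ⟨A, hA, _⟩ := exists_minAdm h hN h.ne.symm
  exact le_of_cj h hA fun g => hT _ (hA.cj h g)

/-- `H` permutes the minimal admissible subgroups transitively. -/
theorem minAdm_transitive {Z N A B : Subgroup H} (h : IsChief Z N) (hna : ¬ ⁅N, N⁆ ≤ Z)
    (hA : MinAdm Z N A) (hB : MinAdm Z N B) : ∃ g, B = cj g A := by
  have := h.zn
  by_contra hcon
  push Not at hcon
  have h1 : N ≤ relC Z B := by
    apply le_of_cj h hA
    intro g x hx
    rw [mem_relC]
    intro b hb
    exact (hA.cj h g).commutator_le hB (hcon g).symm (Subgroup.commutator_mem_commutator hx hb)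
  have h2 : B ≤ relC Z N ⊓ N := le_inf (relC_symm h1) hB.sub
  rw [h.relC_inf hna] at h2
  exact hB.ne (le_antisymm h2 hB.le)

/-- `A/Z` is not abelian. -/
lemma MinAdm.not_abelian {Z N A : Subgroup H} (h : IsChief Z N) (hna : ¬ ⁅N, N⁆ ≤ Z)
    (hA : MinAdm Z N A) : ¬ ⁅A, A⁆ ≤ Z := by
  have := h.zn
  intro hab
  have h1 : N ≤ relC Z A := by
    apply le_of_cj h hA
    intro g x hx
    rw [mem_relC]
    intro b hb
    by_cases hg : H39.cj g A = A
    · rw [hg] at hx
      exact hab (Subgroup.commutator_mem_commutator hx hb)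
    · exact (hA.cj h g).commutator_le hA hg (Subgroup.commutator_mem_commutator hx hb)
  have h2 : A ≤ relC Z N ⊓ N := le_inf (relC_symm h1) hA.sub
  rw [h.relC_inf hna] at h2
  exact hA.ne (le_antisymm h2 hA.le)

/-- `A = ⁅A,A⁆ Z`. -/
lemma MinAdm.sup_comm {Z N A : Subgroup H} (h : IsChief Z N) (hna : ¬ ⁅N, N⁆ ≤ Z)
    (hA : MinAdm Z N A) : ⁅A, A⁆ ⊔ Z = A := by
  have hle : ⁅A, A⁆ ≤ A := (hA.toAdm.commutator_le hA.toAdm).trans inf_le_left
  have hadm : Adm Z N (⁅A, A⁆ ⊔ Z) := by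
    refine ⟨le_sup_right, (sup_le hle hA.le).trans hA.sub, ?_⟩
    intro n hn t ht
    have h1 : H39.cj n A = A := by
      apply le_antisymm
      · intro x hx
        rw [mem_cj] at hx
        have := hA.conj n hn _ hx
        simpa [mul_assoc] using this
      · intro x hx
        rw [mem_cj]
        simpa using hA.conj n⁻¹ (N.inv_mem hn) _ hx
    have h2 : H39.cj n (⁅A, A⁆ ⊔ Z) = ⁅A, A⁆ ⊔ Z := by
      have : H39.cj n (⁅A, A⁆ ⊔ Z) = H39.cj n ⁅A, A⁆ ⊔ H39.cj n Z := Subgroup.map_sup _ _ _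
      rw [this, cj_commutator, h1, cj_normal h.zn]
    rw [← h2]
    exact conj_mem_cj ht
  rcases hA.min _ hadm (sup_le hle hA.le) with h1 | h1
  · exact absurd (le_sup_left.trans h1.le) (hA.not_abelian h hna)
  · exact h1

/-- `K = ⁅A,A⁆` is perfect. -/
lemma MinAdm.perfect {Z N A : Subgroup H} (h : IsChief Z N) (hna : ¬ ⁅N, N⁆ ≤ Z)
    (hA : MinAdm Z N A) : ⁅⁅A, A⁆, ⁅A, A⁆⁆ = ⁅A, A⁆ := by
  rw [← commutator_sup_central h.central ⁅A, A⁆ ⁅A, A⁆, hA.sup_comm h hna]

/-- `⁅K_A, B⁆ = 1` for `A ≠ B`. -/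
lemma MinAdm.comm {Z N A B : Subgroup H} (h : IsChief Z N)
    (hA : MinAdm Z N A) (hB : MinAdm Z N B) (hne : A ≠ B) {k b : H} (hk : k ∈ ⁅A, A⁆)
    (hb : b ∈ B) : b * k = k * b :=
  comm_of_comm_mod h.central
    (fun a ha => hB.commutator_le hA hne.symm (Subgroup.commutator_mem_commutator hb ha)) hk

/-- `A/Z` is simple: a subgroup `T` with `Z ≤ T ≤ A` normalised by `A` is `Z` or `A`. -/
lemma MinAdm.simple {Z N A T : Subgroup H} (h : IsChief Z N)
    (hA : MinAdm Z N A) (h1 : Z ≤ T) (h2 : T ≤ A) (h3 : ∀ a ∈ A, ∀ t ∈ T, a * t * a⁻¹ ∈ T) :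
    T = Z ∨ T = A := by
  refine hA.min T ⟨h1, h2.trans hA.sub, ?_⟩ h2
  have h4 : N ≤ Subgroup.normalizer (T : Set H) := by
    apply le_of_cj h hA
    intro g
    rw [Subgroup.le_normalizer_iff]
    intro b hb t ht
    by_cases hg : H39.cj g A = A
    · rw [hg] at hb
      exact h3 b hb t ht
    · have h5 := h1 ((hA.cj h g).commutator_le hA hg
        (Subgroup.commutator_mem_commutator hb (h2 ht)))
      have e : b * t * b⁻¹ = ⁅b, t⁆ * t := by rw [commutatorElement_def]; group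
      rw [e]; exact T.mul_mem h5 ht
  intro n hn t ht
  exact (Subgroup.mem_normalizer_iff.1 (h4 hn) t).1 ht

/-- Every `T` with `Z ≤ T ≤ N` normalised by `N` is contained in every subgroup `S ≥ Z`
containing the minimal admissible subgroups of `T`. -/
lemma Adm.le_of_minAdm [Finite H] {Z N T S : Subgroup H} (h : IsChief Z N) (hna : ¬ ⁅N, N⁆ ≤ Z)
    (hT : Adm Z N T) (hZS : Z ≤ S) (hS : ∀ A, MinAdm Z N A → A ≤ T → A ≤ S) : T ≤ S := by
  classical
  have hZn := h.zn
  set T1 : Subgroup H := ⨆ A : {A // MinAdm Z N A ∧ A ≤ T}, A.1 with hT1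
  set T2 : Subgroup H := ⨆ A : {A // MinAdm Z N A ∧ ¬ A ≤ T}, A.1 with hT2
  have hle1 : T1 ≤ T := iSup_le fun A => A.2.2
  have h12 : T2 ≤ relC Z T1 := by
    apply iSup_le
    rintro ⟨B, hB, hBT⟩
    apply relC_symm
    apply iSup_le
    rintro ⟨A, hA, hAT⟩
    intro x hx
    rw [mem_relC]
    intro b hb
    have hne : A ≠ B := by rintro rfl; exact hBT hAT
    exact hA.commutator_le hB hne (Subgroup.commutator_mem_commutator hx hb)
  have h2T : T2 ≤ relC Z T := by
    apply iSup_le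
    rintro ⟨B, hB, hBT⟩
    intro x hx
    rw [mem_relC]
    intro t ht
    have h3 := hB.toAdm.commutator_le hT (Subgroup.commutator_mem_commutator hx ht)
    rcases hB.min _ (hB.toAdm.inf hT) inf_le_left with h4 | h4
    · rwa [h4] at h3
    · exact absurd (inf_eq_left.1 h4) hBT
  -- every element of `N` is a product
  have hprod : ∀ n ∈ N, ∃ a ∈ T1 ⊔ Z, ∃ b ∈ T2, n = a * b := by
    -- `T1 ⊔ Z` is normalised by `N`
    have hnorm : N ≤ Subgroup.normalizer ((T1 ⊔ Z : Subgroup H) : Set H) := by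
      apply H39.le_of_minAdm h
      intro A hA
      by_cases hAT : A ≤ T
      · have h5 : A ≤ T1 ⊔ Z := le_trans (le_iSup (fun A : {A // MinAdm Z N A ∧ A ≤ T} => A.1)
          ⟨A, hA, hAT⟩) le_sup_left
        exact h5.trans Subgroup.le_normalizer
      · have h6 : A ≤ relC Z T1 := le_trans (le_iSup (fun A : {A // MinAdm Z N A ∧ ¬ A ≤ T} => A.1)
          ⟨A, hA, hAT⟩) h12
        have h7 : ∀ a ∈ A, ∀ t ∈ T1 ⊔ Z, a * t * a⁻¹ ∈ T1 ⊔ Z := by
          intro a ha t ht
          obtain ⟨s, hs, z, hz, rfl⟩ := (mem_sup_central h.central).1 ht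
          have h8 := mem_relC.1 (h6 ha) s hs
          have e : a * (s * z) * a⁻¹ = ⁅a, s⁆ * (s * z) := by
            have h9 := comm_central h.central hz a⁻¹
            calc a * (s * z) * a⁻¹ = a * s * (z * a⁻¹) := by group
              _ = a * s * (a⁻¹ * z) := by rw [h9]
              _ = ⁅a, s⁆ * (s * z) := by rw [commutatorElement_def]; group
          rw [e]
          exact (T1 ⊔ Z).mul_mem (Subgroup.mem_sup_right h8) ht
        exact Subgroup.le_normalizer_iff.2 h7
    have hgen : N ≤ (T1 ⊔ Z) ⊔ T2 := by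
      apply H39.le_of_minAdm h
      intro A hA
      by_cases hAT : A ≤ T
      · exact (le_iSup (fun A : {A // MinAdm Z N A ∧ A ≤ T} => A.1) ⟨A, hA, hAT⟩).trans
          (le_sup_left.trans le_sup_left)
      · exact (le_iSup (fun A : {A // MinAdm Z N A ∧ ¬ A ≤ T} => A.1) ⟨A, hA, hAT⟩).trans
          le_sup_right
    have h2N : T2 ≤ N := iSup_le fun A => A.2.1.sub
    intro n hn
    have h10 : n ∈ (((T1 ⊔ Z) ⊔ T2 : Subgroup H) : Set H) := hgen hn
    rw [Subgroup.coe_mul_of_right_le_normalizer_left _ _ (h2N.trans hnorm)] at h10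
    obtain ⟨a, ha, b, hb, rfl⟩ := h10
    exact ⟨a, ha, b, hb, rfl⟩
  intro t ht
  obtain ⟨a, ha, b, hb, rfl⟩ := hprod t (hT.sub ht)
  have haT : a ∈ T := (sup_le hle1 hT.le) ha
  have hbT : b ∈ T := by
    have := T.mul_mem (T.inv_mem haT) ht
    simpa using this
  -- `b` commutes with everything modulo `Z`
  have hbZ : b ∈ relC Z N ⊓ N := by
    refine ⟨?_, hT.sub hbT⟩
    have h11 : N ≤ relC Z (Subgroup.zpowers b) := by
      apply H39.le_of_minAdm h
      intro A hA
      by_cases hAT : A ≤ T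
      · have h13 : Subgroup.zpowers b ≤ relC Z T := by
          rw [Subgroup.zpowers_le]; exact h2T hb
        exact hAT.trans (relC_symm h13)
      · have h14 : A ≤ relC Z T := (le_iSup (fun A : {A // MinAdm Z N A ∧ ¬ A ≤ T} => A.1)
          ⟨A, hA, hAT⟩).trans h2T
        exact h14.trans (relC_anti (by rw [Subgroup.zpowers_le]; exact hbT))
    exact (relC_symm h11) (Subgroup.mem_zpowers b)
  rw [h.relC_inf hna] at hbZ
  have hS1 : T1 ⊔ Z ≤ S := sup_le (iSup_le fun A => hS _ A.2.1 A.2.2) hZS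
  exact S.mul_mem (hS1 ha) (hZS hbZ)

/-- An element of `A` commuting with `A` modulo `Z` lies in `Z`. -/
lemma MinAdm.mem_of_relC [Finite H] {Z N A : Subgroup H} [Z.Normal] (h : IsChief Z N)
    (hna : ¬ ⁅N, N⁆ ≤ Z) (hA : MinAdm Z N A) {x : H} (hx : x ∈ A) (hxA : x ∈ relC Z A) :
    x ∈ Z := by
  have hbZ : x ∈ relC Z N ⊓ N := by
    refine ⟨?_, hA.sub hx⟩
    have h11 : N ≤ relC Z (Subgroup.zpowers x) := by
      apply H39.le_of_minAdm h
      intro B hB
      by_cases hAB : B = A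
      · rw [hAB]
        apply relC_symm
        rw [Subgroup.zpowers_le]; exact hxA
      · intro b hb
        rw [mem_relC]
        intro y hy
        have hy' : y ∈ A := (Subgroup.zpowers_le.2 hx) hy
        exact hB.commutator_le hA hAB (Subgroup.commutator_mem_commutator hb hy')
    exact (relC_symm h11) (Subgroup.mem_zpowers x)
  rwa [h.relC_inf hna] at hbZ

/-- The centre of `A` is `Z`. -/
lemma MinAdm.centralizer_inf [Finite H] {Z N A : Subgroup H} (h : IsChief Z N)
    (hna : ¬ ⁅N, N⁆ ≤ Z) (hA : MinAdm Z N A) : Subgroup.centralizer (A : Set H) ⊓ A = Z := by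
  have := h.zn
  apply le_antisymm
  · rintro x ⟨hx, hxA⟩
    exact hA.mem_of_relC h hna hxA (IsChief.centralizer_le_relC hx)
  · refine le_inf ?_ hA.le
    intro z hz
    rw [Subgroup.mem_centralizer_iff]
    intro g _
    exact comm_central h.central hz g

/-- The centre of `K = ⁅A,A⁆` is `K ∩ Z`. -/
lemma MinAdm.center_comm [Finite H] {Z N A : Subgroup H} (h : IsChief Z N)
    (hna : ¬ ⁅N, N⁆ ≤ Z) (hA : MinAdm Z N A) :
    Subgroup.centralizer ((⁅A, A⁆ : Subgroup H) : Set H) ⊓ ⁅A, A⁆ = ⁅A, A⁆ ⊓ Z := by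
  have hle : ⁅A, A⁆ ≤ A := (hA.toAdm.commutator_le hA.toAdm).trans inf_le_left
  apply le_antisymm
  · rintro x ⟨hx, hxA⟩
    refine ⟨hxA, ?_⟩
    have hx' : x ∈ Subgroup.centralizer (A : Set H) ⊓ A := by
      refine Subgroup.mem_inf.2 ⟨?_, hle hxA⟩
      replace hx := Subgroup.mem_centralizer_iff.1 hx
      rw [Subgroup.mem_centralizer_iff]
      intro a ha
      have ha' : a ∈ ⁅A, A⁆ ⊔ Z := by rw [hA.sup_comm h hna]; exact ha
      obtain ⟨k, hk, z, hz, rfl⟩ := (mem_sup_central h.central).1 ha'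
      rw [mul_assoc, ← comm_central h.central hz x, ← mul_assoc, ← mul_assoc, hx k hk]
    rwa [hA.centralizer_inf h hna] at hx'
  · rintro x ⟨hx, hxZ⟩
    refine Subgroup.mem_inf.2 ⟨?_, hx⟩
    rw [Subgroup.mem_centralizer_iff]
    intro g _
    exact comm_central h.central hxZ g

/-- `A` meets the product of the others in `Z`. -/
lemma MinAdm.inf_iSup [Finite H] {Z N A : Subgroup H} (h : IsChief Z N)
    (hna : ¬ ⁅N, N⁆ ≤ Z) (hA : MinAdm Z N A) :
    A ⊓ ((⨆ B : {B // MinAdm Z N B ∧ B ≠ A}, B.1) ⊔ Z) = Z := by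
  have := h.zn
  apply le_antisymm
  · rintro x ⟨hx, hx2⟩
    apply hA.mem_of_relC h hna hx
    have h1 : (⨆ B : {B // MinAdm Z N B ∧ B ≠ A}, B.1) ⊔ Z ≤ relC Z A := by
      refine sup_le (iSup_le ?_) (h.le_relC A)
      rintro ⟨B, hB, hBA⟩ b hb
      rw [mem_relC]
      intro a ha
      exact hB.commutator_le hA hBA (Subgroup.commutator_mem_commutator hb ha)
    exact h1 hx2
  · exact le_inf hA.le le_sup_right

/-- `⁅N,N⁆` is the product of the perfect groups `⁅A,A⁆`. -/
lemma commutator_eq_iSup [Finite H] {Z N : Subgroup H} (h : IsChief Z N) (hna : ¬ ⁅N, N⁆ ≤ Z) :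
    ⁅N, N⁆ = ⨆ A : {A // MinAdm Z N A}, ⁅A.1, A.1⁆ := by
  apply le_antisymm
  · set L : Subgroup H := ⨆ A : {A // MinAdm Z N A}, ⁅A.1, A.1⁆ with hL
    have h1 : N ≤ L ⊔ Z := by
      apply H39.le_of_minAdm h
      intro A hA
      rw [← hA.sup_comm h hna]
      exact sup_le_sup_right (le_iSup (fun A : {A // MinAdm Z N A} => ⁅A.1, A.1⁆) ⟨A, hA⟩) Z
    calc ⁅N, N⁆ ≤ ⁅L ⊔ Z, L ⊔ Z⁆ := Subgroup.commutator_mono h1 h1
      _ = ⁅L, L⁆ := commutator_sup_central h.central L L
      _ ≤ L := Subgroup.commutator_le_self L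
  · exact iSup_le fun A => Subgroup.commutator_mono A.2.sub A.2.sub

/-- `N` itself is admissible. -/
lemma IsChief.adm {Z N : Subgroup H} (h : IsChief Z N) : Adm Z N N :=
  ⟨h.le, le_rfl, fun n _ t ht => h.normal.conj_mem t ht n⟩

/-- If `A ≠ N` is minimal, then `|A/Z| < |N/Z|`. -/
lemma MinAdm.relIndex_lt [Finite H] {Z N A : Subgroup H} (hA : MinAdm Z N A) (hne : A ≠ N) :
    Z.relIndex A < Z.relIndex N := by
  rw [← Subgroup.relIndex_mul_relIndex Z A N hA.le hA.sub]
  have h1 : 0 < Z.relIndex A := Nat.pos_of_ne_zero Subgroup.index_ne_zero_of_finite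
  have h2 : 1 < A.relIndex N := by
    have h3 : A.relIndex N ≠ 0 := Subgroup.index_ne_zero_of_finite
    have h4 : A.relIndex N ≠ 1 := by
      intro h5
      rw [Subgroup.relIndex_eq_one] at h5
      exact hne (le_antisymm hA.sub h5)
    omega
  nlinarith

/-- The map `A ↦ ⁅A,A⁆` is injective. -/
lemma MinAdm.comm_injective {Z N A B : Subgroup H} (h : IsChief Z N) (hna : ¬ ⁅N, N⁆ ≤ Z)
    (hA : MinAdm Z N A) (hB : MinAdm Z N B) (he : ⁅A, A⁆ = ⁅B, B⁆) : A = B := by
  rw [← hA.sup_comm h hna, he, hB.sup_comm h hna]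

end Pool.Agent.AWR.H39
end -- Pool.Agent.Helper39_AWR.Grp

section -- Pool.Agent.Helper39_AWR.GrpA

/-!
# AWR squad: `Gr1Stmt`, `Gr2Stmt`, `MusStmt`
-/

namespace Pool.Agent.AWR.H39

open Pool.Agent.PP Pool.Agent.Helper51_AWC
open scoped commutatorElement

theorem gr1 : Gr1Stmt := by
  intro ℓ _ G _ _ N hN hO hc
  classical
  have := hN
  have hcomm : ⁅N, N⁆ ≤ Subgroup.center G := by
    rw [Subgroup.commutator_le]
    intro x hx y hy
    rw [commutatorElement_def]; exact hc x hx y hy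
  have hnil : Group.IsNilpotent N := by
    apply Subgroup.isNilpotent_of_lowerCentralSeries_eq_bot (n := 2)
    rw [Subgroup.lowerCentralSeries_succ, Subgroup.lowerCentralSeries_succ,
      Subgroup.lowerCentralSeries_zero, eq_bot_iff, Subgroup.commutator_le]
    intro x hx y _
    rw [Subgroup.mem_bot, commutatorElement_eq_one_iff_mul_comm]
    exact (Subgroup.mem_center_iff.1 (hcomm hx) y).symm
  intro hl
  have P : Sylow ℓ N := default
  have hP : (P : Subgroup N).Normal := inferInstance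
  have h3 : (P : Subgroup N) ≤ opCore ℓ N := le_sSup ⟨hP, P.isPGroup'⟩
  rw [hO, le_bot_iff] at h3
  exact Sylow.ne_bot_of_dvd_card P hl h3

theorem gr2 : Gr2Stmt := by
  intro G _ _ N hN hNZ
  classical
  obtain ⟨A, hA⟩ := (Set.toFinite {T : Subgroup G | T.Normal ∧ N ⊓ Subgroup.center G ≤ T ∧ T ≤ N ∧
    ¬ T ≤ Subgroup.center G}).exists_minimal ⟨N, hN, inf_le_left, le_rfl, hNZ⟩
  obtain ⟨h1, h2, h3, h4⟩ := hA.prop
  refine ⟨A, h3, h2, h1, h4, ?_⟩
  intro T hT hle hTA
  by_cases h5 : T ≤ Subgroup.center G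
  · left
    exact le_antisymm (le_inf hTA h5) hle
  · right
    refine le_antisymm hTA (hA.le_of_le ⟨hT, ?_, hTA.trans h3, h5⟩ hTA)
    exact (le_inf h2 inf_le_right).trans hle

lemma relIndex_pos' {G : Type} [Group G] [Finite G] (A B : Subgroup G) : A.relIndex B ≠ 0 :=
  Subgroup.index_ne_zero_of_finite

/-- The measure is monotone. -/
theorem mu_le {G : Type} [Group G] [Finite G] {T N' N : Subgroup G}
    (hT : Subgroup.center G ≤ T) (hN : N' ≤ N) : mu (N'.subgroupOf T) ≤ mu N := by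
  unfold mu
  have h1 : (Subgroup.center G).subgroupOf T ≤ Subgroup.center T := by
    intro x hx
    rw [Subgroup.mem_center_iff]
    intro g
    apply Subtype.ext
    exact Subgroup.mem_center_iff.1 (Subgroup.mem_subgroupOf.1 hx) (g : G)
  calc (Subgroup.center T).relIndex (N'.subgroupOf T)
      ≤ ((Subgroup.center G).subgroupOf T).relIndex (N'.subgroupOf T) :=
        Subgroup.relIndex_le_of_le_left h1 (relIndex_pos' _ _)
    _ = ((Subgroup.center G).subgroupOf T).relIndex ((N' ⊓ T).subgroupOf T) := by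
        rw [Subgroup.inf_subgroupOf_right]
    _ = (Subgroup.center G).relIndex (N' ⊓ T) := Subgroup.relIndex_subgroupOf inf_le_right
    _ ≤ (Subgroup.center G).relIndex N :=
        Subgroup.relIndex_le_of_le_right (inf_le_left.trans hN) (relIndex_pos' _ _)

theorem mus : MusStmt := by
  intro G _ _ N N₂ hN hN₂ hle hZ hc
  have e : mu N = N₂.relIndex N * mu N₂ := by
    unfold mu
    rw [← Subgroup.inf_relIndex_left, ← Subgroup.inf_relIndex_left N₂]
    have h1 : N₂ ⊓ Subgroup.center G = N ⊓ Subgroup.center G :=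
      le_antisymm (inf_le_inf_right _ hle) (le_inf hZ inf_le_right)
    rw [h1, mul_comm]
    exact (Subgroup.relIndex_mul_relIndex _ _ _ hZ hle).symm
  have h2 : 0 < mu N₂ := Nat.pos_of_ne_zero (relIndex_pos' _ _)
  have h3 : 0 < N₂.relIndex N := Nat.pos_of_ne_zero (relIndex_pos' _ _)
  refine ⟨?_, ?_, ?_, ?_⟩
  · intro hne
    have h4 : N₂.relIndex N ≠ 1 := by
      intro h5
      rw [Subgroup.relIndex_eq_one] at h5
      exact hne (le_antisymm hle h5)
    rw [e]
    have : 1 < N₂.relIndex N := by omega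
    nlinarith
  · intro _
    have h4 : mu N₂ ≠ 1 := by
      intro h5
      unfold mu at h5
      rw [Subgroup.relIndex_eq_one] at h5
      exact hc h5
    rw [e]
    have : 1 < mu N₂ := by omega
    nlinarith
  · intro T hT
    exact mu_le hT le_rfl
  · intro T N' hT hN'
    exact mu_le hT hN'

/-- The chief factors of the statement file are those of `Grp.lean`. -/
theorem isChief_of_chief {G : Type} [Group G] {N : Subgroup G} (h : Chief N) :
    IsChief (N ⊓ Subgroup.center G) N :=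
  ⟨inf_le_left, fun h1 => h.2.1 (inf_eq_left.1 h1), inf_le_right, h.1, h.2.2⟩

end Pool.Agent.AWR.H39
end -- Pool.Agent.Helper39_AWR.GrpA

section -- Pool.Agent.Helper6_PP.Slice

/-!
# Squad PP, modules FBK and FCU: slices of group ring elements of a central product
-/

open scoped BigOperators

set_option linter.unusedSectionVars false

noncomputable section

namespace Pool.Agent.PP.H6

open Pool.Agent.Helper51_AWC Pool.Agent.Helper79_WRA Pool.Agent.PP Pool.Agent.PP.H46

section nil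

variable {F H : Type} [Field F] [Group H] [Finite H]

/-- nilpotent elements of the group ring, as functions -/
def NilF (a : H → F) : Prop := IsNilpotent (ma a)

theorem nilF_iff {a : H → F} : NilF a ↔ ∃ k : ℕ, (mulF a)^[k] a = 0 := by
  constructor
  · rintro ⟨k, hk⟩
    refine ⟨k, ?_⟩
    apply ma_injective
    rw [ma_iterate, hk, zero_mul, ma_zero]
  · rintro ⟨k, hk⟩
    refine ⟨k + 1, ?_⟩
    have := congrArg ma hk
    rw [ma_iterate, ma_zero] at this
    rw [pow_succ, this]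

/-- a nilpotent class function acts as zero in irreducible representations -/
theorem ev_nil {n : ℕ} {ρ : H →* Matrix (Fin n) (Fin n) F} (hρ : IsIrr ρ) {a : H → F}
    (ha : IsCl a) (hn : NilF a) : ev ρ a = 0 := by
  have hpos := hρ.1
  obtain ⟨w, hw⟩ := schur hρ (ev ρ a) (by
    intro h
    rw [← ev_dl ρ h, ← ev_mulF, ← ev_mulF, H46.mulF_comm ha])
  obtain ⟨k, hk⟩ := hn
  have h1 : ev ρ a ^ k = 0 := by
    rw [ev_eq, ← map_pow, hk, map_zero]
  rw [hw, ← map_pow] at h1
  have h2 : w ^ k = 0 := by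
    have h3 := congrFun (congrFun h1 ⟨0, hpos⟩) ⟨0, hpos⟩
    simpa [Matrix.scalar_apply] using h3
  have h4 : w = 0 := IsNilpotent.eq_zero ⟨k, h2⟩
  rw [hw, h4, map_zero]

theorem cl_ma {a : H → F} (ha : IsCl a) (x : MonoidAlgebra F H) : ma a * x = x * ma a :=
  comm_ma ha x

/-- an irreducible representation of a block -/
theorem exists_rep (hibn : IbnStmt) (heig : EigStmt) {ℓ : ℕ} (hF : GoodF ℓ F) {b : H → F}
    (hb : IsIdem b) (h0 : b ≠ 0) :
    ∃ (n : ℕ) (ρ : H →* Matrix (Fin n) (Fin n) F), IsIrr ρ ∧ ev ρ b = 1 := by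
  by_contra hcon
  push Not at hcon
  obtain ⟨k, hk⟩ := hibn ℓ F hF H b (by
    intro n ρ hρ
    obtain ⟨w, hw, _, h01⟩ := heig F H n ρ hρ b hb.1
    rcases h01 hb with rfl | rfl
    · rw [hw, map_zero]
    · exfalso
      apply hcon n ρ hρ
      rw [hw, map_one])
  have h1 : ∀ k : ℕ, (mulF b)^[k] b = b := by
    intro k
    induction k with
    | zero => rfl
    | succ k ih => rw [Function.iterate_succ', Function.comp, ih, hb.2]
  rw [h1] at hk
  exact h0 hk

/-- the centre of a block is local -/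
theorem loc (hibn : IbnStmt) (heig : EigStmt) {ℓ : ℕ} (hF : GoodF ℓ F) {b z : H → F}
    (hb : IsBlk b) (hz : IsCl z) : ∃ c : F, NilF (mulF z b - c • b) := by
  obtain ⟨⟨hbc, hbb⟩, hb0, hprim⟩ := hb
  obtain ⟨n, ρ, hρ, hρb⟩ := exists_rep hibn heig hF ⟨hbc, hbb⟩ hb0
  obtain ⟨c, hc, _, _⟩ := heig F H n ρ hρ z hz
  refine ⟨c, ?_⟩
  have hbm : ma b * ma b = ma b := by rw [← ma_mul, hbb]
  set w : H → F := mulF z b - c • b with hw
  have hwm : ma w = ma z * ma b - c • ma b := by rw [hw, ma_sub, ma_mul, ma_smul]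
  have hwb : ma w * ma b = ma w := by
    rw [hwm, sub_mul, mul_assoc, smul_mul_assoc, hbm]
  have hwc : ma w ∈ Subalgebra.center F (MonoidAlgebra F H) := by
    rw [hwm]
    have h1 := (isCl_iff z).1 hz
    have h2 := (isCl_iff b).1 hbc
    exact Subalgebra.sub_mem _ (Subalgebra.mul_mem _ h1 h2) (Subalgebra.smul_mem _ h2 c)
  have hρw : repA ρ (ma w) = 0 := by
    rw [hwm, map_sub, map_mul, map_smul, ← ev_eq, ← ev_eq, hρb, hc, mul_one]
    rw [sub_eq_zero]
    ext i j
    simp [Matrix.scalar_apply, Matrix.diagonal_apply, Matrix.one_apply]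
  have hart : IsArtinianRing (Subalgebra.center F (MonoidAlgebra F H)) :=
    IsArtinianRing.of_finite F _
  obtain ⟨m, y, hy⟩ := IsArtinian.exists_pow_succ_smul_dvd
    (⟨ma w, hwc⟩ : Subalgebra.center F (MonoidAlgebra F H))
    (1 : Subalgebra.center F (MonoidAlgebra F H))
  set x : Subalgebra.center F (MonoidAlgebra F H) := ⟨ma w, hwc⟩ with hx
  rw [smul_eq_mul, smul_eq_mul, mul_one] at hy
  have h1 : ∀ k : ℕ, x ^ (m + 1) = x ^ (m + 1) * (x * y) ^ k := by
    intro k
    induction k with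
    | zero => rw [pow_zero, mul_one]
    | succ k ih =>
      have h2 : x ^ (m + 1) * (x * y) = x ^ (m + 1) := by
        calc x ^ (m + 1) * (x * y) = x * (x ^ (m + 1) * y) := by ring
          _ = x * x ^ m := by rw [hy]
          _ = x ^ (m + 1) := by ring
      calc x ^ (m + 1) = x ^ (m + 1) * (x * y) := h2.symm
        _ = (x ^ (m + 1) * (x * y) ^ k) * (x * y) := by rw [← ih]
        _ = x ^ (m + 1) * (x * y) ^ (k + 1) := by ring
  have h2 := h1 (m + 1)
  set e : Subalgebra.center F (MonoidAlgebra F H) := (x * y) ^ (m + 1) with he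
  have hee : e * e = e := by
    rw [he]
    calc (x * y) ^ (m + 1) * (x * y) ^ (m + 1) =
        (x ^ (m + 1) * (x * y) ^ (m + 1)) * y ^ (m + 1) := by ring
      _ = x ^ (m + 1) * y ^ (m + 1) := by rw [← h2]
      _ = (x * y) ^ (m + 1) := by ring
  obtain ⟨g, hg⟩ := ma_surjective (e : MonoidAlgebra F H)
  have hgi : IsIdem g := by
    rw [isIdem_iff, hg]
    refine ⟨e.2, ?_⟩
    change (e : MonoidAlgebra F H) * e = e
    exact congrArg Subtype.val hee
  have hxv : (x : MonoidAlgebra F H) = ma w := rfl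
  have hev : (e : MonoidAlgebra F H) = ma w * ((x ^ m * y ^ (m + 1) :
      Subalgebra.center F (MonoidAlgebra F H)) : MonoidAlgebra F H) := by
    rw [← hxv, ← Subalgebra.coe_mul, he]
    congr 1
    ring
  have heb : ma b * (e : MonoidAlgebra F H) = e := by
    have h3 : ma b * ma w = ma w := by rw [cl_ma hbc, hwb]
    rw [hev, ← mul_assoc, h3]
  rcases hprim g hgi with h | h
  · exfalso
    have h3 : (e : MonoidAlgebra F H) = ma b := by
      rw [← heb, ← hg, ← ma_mul, h]
    have h4 : repA ρ (e : MonoidAlgebra F H) = 0 := by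
      rw [hev, map_mul, hρw, zero_mul]
    rw [h3, ← ev_eq, hρb] at h4
    have hpos := hρ.1
    have h5 := congrFun (congrFun h4 ⟨0, hpos⟩) ⟨0, hpos⟩
    rw [Matrix.one_apply_eq, Matrix.zero_apply] at h5
    exact one_ne_zero h5
  · have h3 : (e : MonoidAlgebra F H) = 0 := by
      rw [← heb, ← hg, ← ma_mul, h, ma_zero]
    have h4 : e = 0 := Subtype.ext h3
    refine ⟨m + 1, ?_⟩
    have h5 : x ^ (m + 1) = 0 := by rw [h2, h4, mul_zero]
    have h6 := congrArg (Subtype.val) h5
    rw [← hxv]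
    exact h6

end nil

section slice

variable {F Y : Type} [Field F] [Group Y] [Finite Y]

/-- the slice of `a` at the coset `K p` -/
def sl (K : Subgroup Y) (a : Y → F) (p : Y) : K → F := fun k => a (k * p)

theorem mulF_dl (a : Y → F) (p y : Y) : mulF a (dl F p) y = a (y * p⁻¹) := by
  classical
  have := Fintype.ofFinite Y
  rw [mulF, finsum_eq_sum_of_fintype, Finset.sum_eq_single (y * p⁻¹)]
  · have e : (y * p⁻¹)⁻¹ * y = p := by group
    rw [e]
    unfold dl
    rw [if_pos rfl, mul_one]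
  · intro t _ ht
    unfold dl
    rw [if_neg, mul_zero]
    intro h
    apply ht
    rw [← h]
    group
  · intro h
    exact absurd (Finset.mem_univ _) h

theorem sum_apply' {ι : Type*} (s : Finset ι) (f : ι → Y → F) (y : Y) :
    (∑ i ∈ s, f i) y = ∑ i ∈ s, f i y := Finset.sum_apply y s f

/-- the decomposition into slices -/
theorem slice_decomp {K K' : Subgroup Y} (hc : ∀ x ∈ K, ∀ y ∈ K', x * y = y * x)
    (hs : K ⊔ K' = ⊤) [Fintype K'] (a : Y → F) :
    (Nat.card (K ⊓ K' : Subgroup Y) : F) • a =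
      ∑ p : K', mulF (ext0 K (sl K a p)) (dl F (p : Y)) := by
  classical
  funext y
  rw [sum_apply', Pi.smul_apply, smul_eq_mul]
  have hy : y ∈ K ⊔ K' := by rw [hs]; exact Subgroup.mem_top y
  have hn : ∀ y ∈ K ⊔ K', ∃ k ∈ K, ∃ q ∈ K', k * q = y := by
    intro y hy
    have : K.Normal := by
      refine ⟨fun n hn g => ?_⟩
      have hg : g ∈ K ⊔ K' := by rw [hs]; exact Subgroup.mem_top g
      have : ∀ g ∈ K ⊔ K', g * n * g⁻¹ ∈ K := by
        intro g hg
        have hle : K ⊔ K' ≤ Subgroup.normalizer (K : Set Y) := by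
          apply sup_le Subgroup.le_normalizer
          intro q hq
          rw [Subgroup.mem_normalizer_iff]
          intro k
          constructor
          · intro hk
            have e : q * k * q⁻¹ = k := by rw [← hc k hk q hq]; group
            rw [e]; exact hk
          · intro hk
            have e := hc _ hk q hq
            have e2 : q * k * q⁻¹ = k := by
              have e3 : q * k = q * (q * k * q⁻¹) := by
                rw [← e]; group
              exact (mul_left_cancel e3).symm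
            rwa [e2] at hk
        exact (Subgroup.mem_normalizer_iff.1 (hle hg) n).1 hn
      exact this g hg
    obtain ⟨k, hk, q, hq, h⟩ := Subgroup.mem_sup_of_normal_left.1 hy
    exact ⟨k, hk, q, hq, h⟩
  obtain ⟨k, hk, q, hq, rfl⟩ := hn y hy
  have h1 : ∀ p : K', mulF (ext0 K (sl K a p)) (dl F (p : Y)) (k * q) =
      if (k * q * (p : Y)⁻¹) ∈ K then a (k * q) else 0 := by
    intro p
    rw [mulF_dl]
    split_ifs with h
    · rw [ext0_of_mem _ h]
      change a (k * q * (p : Y)⁻¹ * p) = _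
      congr 1
      group
    · rw [ext0_of_not_mem _ h]
  rw [Finset.sum_congr rfl fun p _ => h1 p, ← Finset.sum_filter, Finset.sum_const, nsmul_eq_mul]
  congr 2
  have := Fintype.ofFinite ↥(K ⊓ K')
  rw [Nat.card_eq_fintype_card, ← Finset.card_univ]
  refine Finset.card_bij (fun z _ => (⟨(z : Y)⁻¹ * q, K'.mul_mem (K'.inv_mem z.2.2) hq⟩ : K'))
    ?_ ?_ ?_
  · intro z _
    rw [Finset.mem_filter]
    refine ⟨Finset.mem_univ _, ?_⟩
    change k * q * ((z : Y)⁻¹ * q)⁻¹ ∈ K
    have e : k * q * ((z : Y)⁻¹ * q)⁻¹ = k * z := by group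
    rw [e]
    exact K.mul_mem hk z.2.1
  · intro z _ z' _ h
    have h2 := congrArg Subtype.val h
    change (z : Y)⁻¹ * q = (z' : Y)⁻¹ * q at h2
    apply Subtype.ext
    exact inv_injective (mul_right_cancel h2)
  · intro p hp
    rw [Finset.mem_filter] at hp
    have h3 : q * (p : Y)⁻¹ ∈ K := by
      have := K.mul_mem (K.inv_mem hk) hp.2
      have e : k⁻¹ * (k * q * (p : Y)⁻¹) = q * (p : Y)⁻¹ := by group
      rwa [e] at this
    refine ⟨⟨q * (p : Y)⁻¹, Subgroup.mem_inf.2 ⟨h3, K'.mul_mem hq (K'.inv_mem p.2)⟩⟩,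
      Finset.mem_univ _, ?_⟩
    apply Subtype.ext
    change (q * (p : Y)⁻¹)⁻¹ * q = p
    group

theorem ev_sum {n : ℕ} (ρ : Y →* Matrix (Fin n) (Fin n) F) {ι : Type*} (s : Finset ι)
    (f : ι → Y → F) : ev ρ (∑ i ∈ s, f i) = ∑ i ∈ s, ev ρ (f i) := by
  rw [ev_eq, ma_sum, map_sum]
  exact Finset.sum_congr rfl fun i _ => (ev_eq ρ (f i)).symm

theorem ev_slice {K K' : Subgroup Y} (hc : ∀ x ∈ K, ∀ y ∈ K', x * y = y * x)
    (hs : K ⊔ K' = ⊤) [Fintype K'] {n : ℕ} (ρ : Y →* Matrix (Fin n) (Fin n) F) (a : Y → F) :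
    (Nat.card (K ⊓ K' : Subgroup Y) : F) • ev ρ a =
      ∑ p : K', ev ρ (ext0 K (sl K a p)) * ρ p := by
  rw [← ev_smul, slice_decomp hc hs, ev_sum]
  refine Finset.sum_congr rfl fun p _ => ?_
  rw [ev_mulF, ev_dl]

theorem ext0_smul' {K : Subgroup Y} (c : F) (g : K → F) : ext0 K (c • g) = c • ext0 K g := by
  funext x
  by_cases h : x ∈ K
  · rw [ext0_of_mem _ h, Pi.smul_apply, Pi.smul_apply, ext0_of_mem _ h]
  · rw [ext0_of_not_mem _ h, Pi.smul_apply, ext0_of_not_mem _ h, smul_zero]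

theorem ext0_sub' {K : Subgroup Y} (g h : K → F) : ext0 K (g - h) = ext0 K g - ext0 K h := by
  funext x
  by_cases hx : x ∈ K
  · rw [ext0_of_mem _ hx, Pi.sub_apply, Pi.sub_apply, ext0_of_mem _ hx, ext0_of_mem _ hx]
  · rw [ext0_of_not_mem _ hx, Pi.sub_apply, ext0_of_not_mem _ hx, ext0_of_not_mem _ hx, sub_zero]

theorem ext0_zero' {K : Subgroup Y} : ext0 K (0 : K → F) = 0 := by
  funext x
  by_cases hx : x ∈ K
  · rw [ext0_of_mem _ hx]; rfl
  · rw [ext0_of_not_mem _ hx]; rfl

theorem ext0_iter {K : Subgroup Y} (g h : K → F) (k : ℕ) :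
    ext0 K ((mulF g)^[k] h) = (mulF (ext0 K g))^[k] (ext0 K h) := by
  induction k with
  | zero => rfl
  | succ k ih =>
    rw [Function.iterate_succ', Function.comp, ext0_mul, ih, Function.iterate_succ', Function.comp]

theorem ext0_nil {K : Subgroup Y} {g : K → F} (h : NilF g) : NilF (ext0 K g) := by
  rw [nilF_iff] at h ⊢
  obtain ⟨k, hk⟩ := h
  exact ⟨k, by rw [← ext0_iter, hk, ext0_zero']⟩

theorem ext0_inj {K : Subgroup Y} {g h : K → F} (e : ext0 K g = ext0 K h) : g = h := by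
  rw [← restr_ext0 g, e, restr_ext0]

/-- class functions of a factor are class functions -/
theorem ext0_cl {K K' : Subgroup Y} (hc : ∀ x ∈ K, ∀ y ∈ K', x * y = y * x)
    (hs : K ⊔ K' = ⊤) {g : K → F} (hg : IsCl g) : IsCl (ext0 K g) := by
  have h1 : stabF (ext0 K g) = ⊤ := by
    rw [eq_top_iff, ← hs]
    apply sup_le
    · intro k hk x
      by_cases hx : x ∈ K
      · have h2 : k * x * k⁻¹ ∈ K := K.mul_mem (K.mul_mem hk hx) (K.inv_mem hk)
        rw [ext0_of_mem _ hx, ext0_of_mem _ h2]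
        exact hg ⟨x, hx⟩ ⟨k, hk⟩
      · have h2 : k * x * k⁻¹ ∉ K := by
          intro h
          apply hx
          have := K.mul_mem (K.mul_mem (K.inv_mem hk) h) hk
          have e : k⁻¹ * (k * x * k⁻¹) * k = x := by group
          rwa [e] at this
        rw [ext0_of_not_mem _ hx, ext0_of_not_mem _ h2]
    · intro q hq x
      by_cases hx : x ∈ K
      · have e : q * x * q⁻¹ = x := by rw [← hc x hx q hq]; group
        rw [e]
      · have h2 : q * x * q⁻¹ ∉ K := by
          intro h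
          apply hx
          have e := hc _ h q hq
          have e2 : q * x * q⁻¹ = x := by
            have e3 : q * x = q * (q * x * q⁻¹) := by
              rw [← e]; group
            exact (mul_left_cancel e3).symm
          rwa [e2] at h
        rw [ext0_of_not_mem _ hx, ext0_of_not_mem _ h2]
  intro x y
  have : y ∈ stabF (ext0 K g) := by rw [h1]; exact Subgroup.mem_top y
  exact this x

theorem inter_le_center {K K' : Subgroup Y} (hc : ∀ x ∈ K, ∀ y ∈ K', x * y = y * x)
    (hs : K ⊔ K' = ⊤) : K ⊓ K' ≤ Subgroup.center Y := by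
  intro z hz
  rw [Subgroup.mem_center_iff]
  have h1 : K ⊔ K' ≤ Subgroup.centralizer ({z} : Set Y) := by
    apply sup_le
    · intro k hk
      rw [Subgroup.mem_centralizer_singleton_iff]
      exact hc k hk z hz.2
    · intro q hq
      rw [Subgroup.mem_centralizer_singleton_iff]
      exact (hc z hz.1 q hq).symm
  intro g
  have h2 : g ∈ Subgroup.centralizer ({z} : Set Y) := h1 (by rw [hs]; exact Subgroup.mem_top g)
  rw [Subgroup.mem_centralizer_singleton_iff] at h2
  exact h2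

theorem card_inter_ne {ℓ : ℕ} (hF : GoodF ℓ F) {K K' : Subgroup Y}
    (hc : ∀ x ∈ K, ∀ y ∈ K', x * y = y * x) (hs : K ⊔ K' = ⊤)
    (hz : ¬ ℓ ∣ Nat.card (Subgroup.center Y)) : (Nat.card (K ⊓ K' : Subgroup Y) : F) ≠ 0 := by
  have hch := hF.char
  rw [Ne, CharP.cast_eq_zero_iff F ℓ]
  intro h
  exact hz (h.trans (Subgroup.card_dvd_of_le (inter_le_center hc hs)))

/-- The scalar by which a class function acts in all representations over a block. -/
theorem scal {ℓ : ℕ} (hF : GoodF ℓ F) (hibn : IbnStmt) (heig : EigStmt) {K K' : Subgroup Y}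
    (hc : ∀ x ∈ K, ∀ y ∈ K', x * y = y * x) (hs : K ⊔ K' = ⊤) {b z : K → F} (hb : IsBlk b)
    (hz : IsCl z) : ∃ c : F, ∀ (n : ℕ) (ρ : Y →* Matrix (Fin n) (Fin n) F), IsIrr ρ →
      ev ρ (ext0 K b) = 1 → ev ρ (ext0 K z) = c • 1 := by
  obtain ⟨c, hcn⟩ := loc hibn heig hF hb hz
  refine ⟨c, fun n ρ hρ h1 => ?_⟩
  have hcl : IsCl (mulF z b - c • b) := by
    have h2 : IsCl (mulF z b) := by
      rw [isCl_iff, ma_mul]
      exact Subalgebra.mul_mem _ ((isCl_iff z).1 hz) ((isCl_iff b).1 hb.1.1)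
    exact (cfs F K).sub_mem h2 ((cfs F K).smul_mem c hb.1.1)
  have h2 := ev_nil hρ (ext0_cl hc hs hcl) (ext0_nil hcn)
  rw [ext0_sub', ext0_mul, ext0_smul'] at h2
  have h3 : ev ρ (mulF (ext0 K z) (ext0 K b) - c • ext0 K b) =
      ev ρ (ext0 K z) * ev ρ (ext0 K b) - c • ev ρ (ext0 K b) := by
    rw [ev_eq, ma_sub, map_sub, ← ev_eq, ← ev_eq, ev_mulF, ev_smul]
  rw [h3, h1, mul_one, sub_eq_zero] at h2
  exact h2

theorem sl_cl {K K' : Subgroup Y} (hc : ∀ x ∈ K, ∀ y ∈ K', x * y = y * x) {a : Y → F}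
    (ha : IsCl a) {p : Y} (hp : p ∈ K') : IsCl (sl K a p) := by
  intro x y
  change a ((y * x * y⁻¹ : K) * p) = a (x * p)
  rw [← ha ((x : Y) * p) y]
  congr 1
  rw [Subgroup.coe_mul, Subgroup.coe_mul, Subgroup.coe_inv]
  have h1 := hc _ (K.inv_mem y.2) p hp
  calc (y : Y) * x * (y : Y)⁻¹ * p = y * x * ((y : Y)⁻¹ * p) := by group
    _ = y * x * (p * (y : Y)⁻¹) := by rw [h1]
    _ = y * (x * p) * (y : Y)⁻¹ := by group

/-- FBK -/
theorem fbk (hibn : IbnStmt) (heig : EigStmt) : FbkStmt := by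
  intro ℓ F _ hF Y _ _ K K' hc hs hz f hf
  have := Fintype.ofFinite K'
  have hc' : ∀ x ∈ K', ∀ y ∈ K, x * y = y * x := fun x hx y hy => (hc y hy x hx).symm
  have hs' : K' ⊔ K = ⊤ := by rw [sup_comm]; exact hs
  refine ⟨?_, ?_, ?_⟩
  · obtain ⟨b, hb1, hb2, hb3⟩ := exists_blk hf.2.1 K
    refine ⟨fun t : K => b t, hb2, ?_⟩
    have hcl : IsCl b := by
      have h1 := ext0_cl hc hs hb2.1.1
      rwa [ext0_restr hb1] at h1
    rw [ext0_restr hb1, H46.mulF_comm hcl]
    exact mul_stable hb1 hb2 hcl hf hb3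
  · rintro f₁ f₂ ⟨h1, h1'⟩ ⟨h2, h2'⟩
    have h3 : mulF f₁ f₂ ≠ 0 := by
      intro h0
      have h4 : mulF (ext0 K f₁) (mulF (ext0 K f₂) f) = f := by rw [h2', h1']
      apply hf.2.1
      rw [← h4, ← mulF_assoc, ← ext0_mul, h0, ext0_zero']
      apply ma_injective
      rw [ma_mul, ma_zero, zero_mul]
    have h4 := (h1.2.2 f₂ h2.1).resolve_right h3
    have h5 : mulF f₂ f₁ ≠ 0 := by rw [← H46.mulF_comm h1.1.1]; exact h3
    have h6 := (h2.2.2 f₁ h1.1).resolve_right h5
    rw [← h4, H46.mulF_comm h1.1.1, h6]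
  · rintro b₁ b₂ ⟨h1, h1'⟩ ⟨h2, h2'⟩
    have i1 : IsIdem (ext0 K b₁) := by
      refine ⟨ext0_cl hc hs h1.1.1, ?_⟩
      rw [← ext0_mul, h1.1.2]
    have i2 : IsIdem (ext0 K' b₂) := by
      refine ⟨ext0_cl hc' hs' h2.1.1, ?_⟩
      rw [← ext0_mul, h2.1.2]
    set g := mulF (ext0 K b₁) (ext0 K' b₂) with hg
    have ig : IsIdem g := isIdem_mul i1 i2
    have hgf : mulF g f = f := by rw [hg, mulF_assoc, h2', h1']
    have hcard := card_inter_ne hF hc hs hz
    -- the scalars
    choose c hcs using fun z : {z : K → F // IsCl z} => scal hF hibn heig hc hs h1 z.2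
    set h' : K' → F := fun p => c ⟨sl K f p, sl_cl hc hf.1.1 p.2⟩ with hh'
    have hh'c : IsCl h' := by
      intro x y
      rw [hh']
      change c ⟨sl K f ((y * x * y⁻¹ : K') : Y), _⟩ = c ⟨sl K f (x : Y), _⟩
      congr 1
      apply Subtype.ext
      funext k
      change f (k * ((y * x * y⁻¹ : K') : Y)) = f (k * x)
      rw [← hf.1.1 (k * (x : Y)) y]
      congr 1
      rw [Subgroup.coe_mul, Subgroup.coe_mul, Subgroup.coe_inv]
      have h3 := hc k k.2 y y.2
      calc (k : Y) * ((y : Y) * x * (y : Y)⁻¹) = (k * y) * x * (y : Y)⁻¹ := by group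
        _ = (y * k) * x * (y : Y)⁻¹ := by rw [h3]
        _ = y * (k * x) * (y : Y)⁻¹ := by group
    obtain ⟨d, hd⟩ := scal hF hibn heig hc' hs' h2 hh'c
    -- the two factors act as the identity
    have hgsplit : ∀ (n : ℕ) (ρ : Y →* Matrix (Fin n) (Fin n) F), IsIrr ρ → ev ρ g = 1 →
        ev ρ (ext0 K b₁) = 1 ∧ ev ρ (ext0 K' b₂) = 1 := by
      intro n ρ hρ hρg
      obtain ⟨w, hw, _, hw'⟩ := heig F Y n ρ hρ _ i1.1
      obtain ⟨v, hv, _, hv'⟩ := heig F Y n ρ hρ _ i2.1
      rw [hg, ev_mulF] at hρg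
      have hne : (1 : Matrix (Fin n) (Fin n) F) ≠ 0 := by
        intro h0
        have := congrFun (congrFun h0 ⟨0, hρ.1⟩) ⟨0, hρ.1⟩
        rw [Matrix.one_apply_eq, Matrix.zero_apply] at this
        exact one_ne_zero this
      constructor
      · rcases hw' i1 with rfl | rfl
        · rw [hw, map_zero, zero_mul] at hρg
          exact absurd hρg.symm hne
        · rw [hw, map_one]
      · rcases hv' i2 with rfl | rfl
        · rw [hv, map_zero, mul_zero] at hρg
          exact absurd hρg.symm hne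
        · rw [hv, map_one]
    have hconst : ∀ (n : ℕ) (ρ : Y →* Matrix (Fin n) (Fin n) F), IsIrr ρ → ev ρ g = 1 →
        (Nat.card (K ⊓ K' : Subgroup Y) : F) • ev ρ f = d • 1 := by
      intro n ρ hρ hρg
      obtain ⟨e1, e2⟩ := hgsplit n ρ hρ hρg
      rw [ev_slice hc hs, ← hd n ρ hρ e2]
      have h3 : ∀ p : K', ev ρ (ext0 K (sl K f p)) = h' p • 1 := by
        intro p
        exact hcs ⟨sl K f p, sl_cl hc hf.1.1 p.2⟩ n ρ hρ e1
      rw [Finset.sum_congr rfl fun p _ => by rw [h3 p]]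
      have h4 : ev ρ (ext0 K' h') = ∑ p : K', h' p • ρ p := by
        classical
        have := Fintype.ofFinite Y
        rw [ev, finsum_eq_sum_of_fintype]
        have e0 : ∑ t : Y, ext0 K' h' t • ρ t =
            ∑ t ∈ Finset.univ.filter (fun t : Y => t ∈ K'), ext0 K' h' t • ρ t := by
          symm
          apply Finset.sum_subset (Finset.filter_subset _ _)
          intro t _ ht
          rw [Finset.mem_filter, not_and] at ht
          rw [ext0_of_not_mem _ (ht (Finset.mem_univ _)), zero_smul]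
        have e1 : ∑ t ∈ Finset.univ.filter (fun t : Y => t ∈ K'), ext0 K' h' t • ρ t =
            ∑ t : K', ext0 K' h' t • ρ t := by
          apply Finset.sum_subtype
          intro t
          rw [Finset.mem_filter]
          exact ⟨fun h => h.2, fun h => ⟨Finset.mem_univ _, h⟩⟩
        rw [e0, e1]
        refine Finset.sum_congr rfl fun t _ => ?_
        rw [ext0_of_mem _ t.2]
      rw [h4]
      refine Finset.sum_congr rfl fun p _ => ?_
      rw [smul_mul_assoc, one_mul]
    -- the representation of `f`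
    obtain ⟨n₀, ρ₀, hρ₀, hρ₀f⟩ := exists_rep hibn heig hF hf.1 hf.2.1
    have hρ₀g : ev ρ₀ g = 1 := by
      have h3 := congrArg (ev ρ₀) hgf
      rw [ev_mulF, hρ₀f, mul_one] at h3
      exact h3
    have hd0 : d = (Nat.card (K ⊓ K' : Subgroup Y) : F) := by
      have h3 := hconst n₀ ρ₀ hρ₀ hρ₀g
      rw [hρ₀f] at h3
      have h4 := congrFun (congrFun h3 ⟨0, hρ₀.1⟩) ⟨0, hρ₀.1⟩
      rw [Matrix.smul_apply, Matrix.smul_apply, Matrix.one_apply_eq, smul_eq_mul, smul_eq_mul,
        mul_one, mul_one] at h4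
      exact h4.symm
    have hsub := isIdem_sub ig hf.1 hgf
    have hzero : ∀ (n : ℕ) (ρ : Y →* Matrix (Fin n) (Fin n) F), IsIrr ρ → ev ρ (g - f) = 0 := by
      intro n ρ hρ
      have h3 : ev ρ (g - f) = ev ρ g - ev ρ f := by
        rw [ev_eq, ma_sub, map_sub, ← ev_eq, ← ev_eq]
      rw [h3, sub_eq_zero]
      obtain ⟨w, hw, _, hw'⟩ := heig F Y n ρ hρ _ ig.1
      rcases hw' ig with rfl | rfl
      · have h4 := congrArg (ev ρ) hgf
        rw [ev_mulF, hw, map_zero, zero_mul] at h4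
        rw [hw, map_zero, ← h4]
      · rw [map_one] at hw
        have h4 := hconst n ρ hρ hw
        rw [hd0] at h4
        rw [hw]
        exact (smul_right_injective _ hcard h4).symm
    obtain ⟨k, hk⟩ := hibn ℓ F hF Y (g - f) hzero
    have h3 : ∀ k : ℕ, (mulF (g - f))^[k] (g - f) = g - f := by
      intro k
      induction k with
      | zero => rfl
      | succ k ih => rw [Function.iterate_succ', Function.comp, ih, hsub.1.2]
    rw [h3] at hk
    exact sub_eq_zero.1 hk

end slice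

end Pool.Agent.PP.H6
end
end -- Pool.Agent.Helper6_PP.Slice

section -- Pool.Agent.Helper6_PP.Fcu

/-!
# Squad PP, module FCU: units of a central product give units of the factors
-/

open scoped BigOperators

set_option linter.unusedSectionVars false

noncomputable section

namespace Pool.Agent.PP.H6

open Pool.Agent.Helper51_AWC Pool.Agent.Helper79_WRA Pool.Agent.PP Pool.Agent.PP.H46

section fcu

variable {F Y : Type} [Field F] [Group Y] [Finite Y]

theorem dl_mulF (a : Y → F) (p y : Y) : mulF (dl F p) a y = a (p⁻¹ * y) := by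
  classical
  have := Fintype.ofFinite Y
  rw [mulF, finsum_eq_sum_of_fintype, Finset.sum_eq_single p]
  · unfold dl
    rw [if_pos rfl, one_mul]
  · intro t _ ht
    unfold dl
    rw [if_neg ht, zero_mul]
  · intro h
    exact absurd (Finset.mem_univ _) h

/-- the commutation rule in terms of elements -/
theorem comm_iff (w : Y → F) (m n : Y) : (∀ y, w (m * y * n⁻¹) = w y) ↔
    ma w * ma (dl F n) = ma (dl F m) * ma w := by
  rw [← ma_mul, ← ma_mul, ma_injective.eq_iff]
  constructor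
  · intro h
    funext y
    rw [mulF_dl, dl_mulF]
    have := h (m⁻¹ * y)
    rw [← this]
    congr 1
    group
  · intro h y
    have := congrFun h (m * y)
    rw [mulF_dl, dl_mulF] at this
    rw [this]
    congr 1
    group

theorem isCl_of_comm {a : Y → F} (h : ∀ n : Y, ma a * ma (dl F n) = ma (dl F n) * ma a) :
    IsCl a := fun x y => (comm_iff a y y).2 (h y) x

theorem comm_of_isCl {a : Y → F} (h : IsCl a) (x : MonoidAlgebra F Y) : ma a * x = x * ma a :=
  comm_ma h x

theorem sl_mulF {K : Subgroup Y} (g : K → F) (a : Y → F) (p : Y) :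
    sl K (mulF (ext0 K g) a) p = mulF g (sl K a p) := by
  classical
  have := Fintype.ofFinite Y
  have := Fintype.ofFinite K
  funext k
  unfold sl mulF
  rw [finsum_eq_sum_of_fintype, finsum_eq_sum_of_fintype]
  have e0 : ∑ t : Y, ext0 K g t * a (t⁻¹ * (k * p)) =
      ∑ t ∈ Finset.univ.filter (fun t : Y => t ∈ K), ext0 K g t * a (t⁻¹ * (k * p)) := by
    symm
    apply Finset.sum_subset (Finset.filter_subset _ _)
    intro t _ ht
    rw [Finset.mem_filter, not_and] at ht
    rw [ext0_of_not_mem _ (ht (Finset.mem_univ _)), zero_mul]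
  have e1 : ∑ t ∈ Finset.univ.filter (fun t : Y => t ∈ K), ext0 K g t * a (t⁻¹ * (k * p)) =
      ∑ t : K, ext0 K g t * a ((t : Y)⁻¹ * (k * p)) := by
    apply Finset.sum_subtype
    intro t
    rw [Finset.mem_filter]
    exact ⟨fun h => h.2, fun h => ⟨Finset.mem_univ _, h⟩⟩
  rw [e0, e1]
  refine Finset.sum_congr rfl fun t _ => ?_
  rw [ext0_of_mem _ t.2]
  congr 2
  rw [Subgroup.coe_mul, Subgroup.coe_inv]
  group

/-- elements of the complement commute with the slices -/
theorem rho_comm {K K' : Subgroup Y} (hc : ∀ x ∈ K, ∀ y ∈ K', x * y = y * x) {n : ℕ}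
    (ρ : Y →* Matrix (Fin n) (Fin n) F) (g : K → F) (p : K') :
    ρ p * ev ρ (ext0 K g) = ev ρ (ext0 K g) * ρ p := by
  rw [← ev_dl ρ (p : Y), ← ev_mulF, ← ev_mulF]
  congr 1
  funext y
  rw [dl_mulF, mulF_dl]
  by_cases hy : (p : Y)⁻¹ * y ∈ K
  · have h1 := hc _ hy p p.2
    have e : (p : Y)⁻¹ * y = y * (p : Y)⁻¹ := by
      have h2 : y = (p : Y) * ((p : Y)⁻¹ * y) := by group
      rw [← h1] at h2
      conv_rhs => rw [h2]
      group
    rw [e]
  · have hy' : y * (p : Y)⁻¹ ∉ K := by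
      intro h
      apply hy
      have h1 := hc _ h p p.2
      have e : (p : Y)⁻¹ * y = y * (p : Y)⁻¹ := by
        have h2 : y = y * (p : Y)⁻¹ * p := by group
        rw [h1] at h2
        conv_lhs => rw [h2]
        group
      rw [e]
      exact h
    rw [ext0_of_not_mem _ hy, ext0_of_not_mem _ hy']

/-- FCU -/
theorem fcu (hibn : IbnStmt) (heig : EigStmt) : FcuStmt := by
  intro ℓ F _ hF Y _ _ K K' hc hs hz f hf f₁ hB γ γ₁ hγ hK' w wi hU
  have := Fintype.ofFinite K'
  obtain ⟨hf₁, hf₁f⟩ := hB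
  obtain ⟨hfw, hfwi, hun, hun', hcm⟩ := hU
  have hcard := card_inter_ne hF hc hs hz
  -- the commutation rules in `Y`
  have cW : ∀ n : Y, ma w * ma (dl F n) = ma (dl F (γ⁻¹ n)) * ma w := fun n =>
    (comm_iff w (γ⁻¹ n) n).1 (fun y => hcm n y)
  have mW : ma w * ma wi = ma f := by rw [← ma_mul, hun]
  have mW' : ma wi * ma w = ma f := by rw [← ma_mul, hun']
  have fW : ma f * ma w = ma w := by rw [← ma_mul, hfw]
  have fV : ma f * ma wi = ma wi := by rw [← ma_mul, hfwi]
  have Vf : ma wi * ma f = ma wi := by rw [← cl_ma hf.1.1, fV]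
  have cV : ∀ n : Y, ma wi * ma (dl F (γ⁻¹ n)) = ma (dl F n) * ma wi := by
    intro n
    calc ma wi * ma (dl F (γ⁻¹ n)) = ma wi * ma f * ma (dl F (γ⁻¹ n)) := by rw [Vf]
      _ = ma wi * ma (dl F (γ⁻¹ n)) * ma f := by
          rw [mul_assoc, cl_ma hf.1.1, ← mul_assoc]
      _ = ma wi * (ma (dl F (γ⁻¹ n)) * ma w) * ma wi := by
          rw [← mW]; simp only [mul_assoc]
      _ = (ma wi * ma w) * ma (dl F n) * ma wi := by
          rw [← cW]; simp only [mul_assoc]
      _ = ma (dl F n) * (ma f * ma wi) := by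
          rw [mW', cl_ma hf.1.1, mul_assoc]
      _ = ma (dl F n) * ma wi := by rw [fV]
  have pV : ∀ n y : Y, wi (n * y * (γ⁻¹ n)⁻¹) = wi y := fun n y =>
    (comm_iff wi n (γ⁻¹ n)).2 (cV n) y
  -- the restriction of the automorphism
  have hγ' : ∀ n : K, ((γ₁⁻¹ n : K) : Y) = γ⁻¹ (n : Y) := by
    intro n
    have h1 := hγ (γ₁⁻¹ n)
    rw [MulAut.apply_inv_self] at h1
    rw [h1, MulAut.inv_apply_self]
  -- slices
  have eW : mulF (ext0 K f₁) w = w := by
    have h1 : mulF (ext0 K f₁) (mulF f w) = mulF f w := by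
      rw [← mulF_assoc, hf₁f]
    rwa [hfw] at h1
  have eV : mulF (ext0 K f₁) wi = wi := by
    have h1 : mulF (ext0 K f₁) (mulF f wi) = mulF f wi := by
      rw [← mulF_assoc, hf₁f]
    rwa [hfwi] at h1
  have sW : ∀ p : K', mulF f₁ (sl K w p) = sl K w p := by
    intro p
    rw [← sl_mulF, eW]
  have sV : ∀ p : K', mulF f₁ (sl K wi p) = sl K wi p := by
    intro p
    rw [← sl_mulF, eV]
  have kW : ∀ (p : K') (n y : K), sl K w p (γ₁⁻¹ n * y * n⁻¹) = sl K w p y := by
    intro p n y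
    change w (((γ₁⁻¹ n * y * n⁻¹ : K) : Y) * p) = w (y * p)
    rw [← hcm n ((y : Y) * p)]
    congr 1
    rw [Subgroup.coe_mul, Subgroup.coe_mul, Subgroup.coe_inv, hγ']
    have h1 := hc _ (K.inv_mem n.2) p p.2
    calc γ⁻¹ (n : Y) * y * (n : Y)⁻¹ * p = γ⁻¹ (n : Y) * y * ((n : Y)⁻¹ * p) := by group
      _ = γ⁻¹ (n : Y) * (y * p) * (n : Y)⁻¹ := by rw [h1]; group
  have kV : ∀ (p : K') (n y : K), sl K wi p (n * y * (γ₁⁻¹ n)⁻¹) = sl K wi p y := by
    intro p n y
    change wi (((n * y * (γ₁⁻¹ n)⁻¹ : K) : Y) * p) = wi (y * p)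
    rw [← pV n ((y : Y) * p)]
    congr 1
    rw [Subgroup.coe_mul, Subgroup.coe_mul, Subgroup.coe_inv, ← hγ']
    have h1 := hc _ (K.inv_mem (γ₁⁻¹ n).2) p p.2
    calc (n : Y) * y * ((γ₁⁻¹ n : K) : Y)⁻¹ * p = (n : Y) * y * (((γ₁⁻¹ n : K) : Y)⁻¹ * p) := by
          group
      _ = (n : Y) * (y * p) * ((γ₁⁻¹ n : K) : Y)⁻¹ := by rw [h1]; group
  have mkW : ∀ (p : K') (n : K), ma (sl K w p) * ma (dl F n) =
      ma (dl F (γ₁⁻¹ n)) * ma (sl K w p) := fun p n =>
    (comm_iff (sl K w p) (γ₁⁻¹ n) n).1 (kW p n)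
  have mkV : ∀ (p : K') (n : K), ma (sl K wi p) * ma (dl F (γ₁⁻¹ n)) =
      ma (dl F n) * ma (sl K wi p) := fun p n =>
    (comm_iff (sl K wi p) n (γ₁⁻¹ n)).1 (kV p n)
  have zcl : ∀ p q : K', IsCl (mulF (sl K w p) (sl K wi q)) := by
    intro p q
    apply isCl_of_comm
    intro m
    obtain ⟨n, rfl⟩ : ∃ n, m = γ₁⁻¹ n := ⟨γ₁ m, by rw [MulAut.inv_apply_self]⟩
    rw [ma_mul, mul_assoc, mkV, ← mul_assoc, mkW, mul_assoc]
  -- not all products are nilpotent
  obtain ⟨p, q, hpq⟩ : ∃ p q : K', ¬ NilF (mulF (sl K w p) (sl K wi q)) := by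
    by_contra hcon
    push Not at hcon
    obtain ⟨n, ρ, hρ, hρf⟩ := exists_rep hibn heig hF hf.1 hf.2.1
    have h1 : ((Nat.card (K ⊓ K' : Subgroup Y) : F) • ev ρ w) *
        ((Nat.card (K ⊓ K' : Subgroup Y) : F) • ev ρ wi) = 0 := by
      rw [ev_slice hc hs, ev_slice hc hs, Finset.sum_mul]
      refine Finset.sum_eq_zero fun p _ => ?_
      rw [Finset.mul_sum]
      refine Finset.sum_eq_zero fun q _ => ?_
      have h2 : ev ρ (ext0 K (sl K w p)) * ρ p * (ev ρ (ext0 K (sl K wi q)) * ρ q) =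
          ev ρ (ext0 K (mulF (sl K w p) (sl K wi q))) * (ρ p * ρ q) := by
        rw [ext0_mul, ev_mulF]
        calc ev ρ (ext0 K (sl K w p)) * ρ p * (ev ρ (ext0 K (sl K wi q)) * ρ q) =
            ev ρ (ext0 K (sl K w p)) * (ρ p * ev ρ (ext0 K (sl K wi q))) * ρ q := by
              simp only [mul_assoc]
          _ = ev ρ (ext0 K (sl K w p)) * (ev ρ (ext0 K (sl K wi q)) * ρ p) * ρ q := by
              rw [rho_comm hc]
          _ = _ := by simp only [mul_assoc]
      rw [h2, ev_nil hρ (ext0_cl hc hs (zcl p q)) (ext0_nil (hcon p q)), zero_mul]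
    rw [smul_mul_smul_comm, ← ev_mulF, hun, hρf] at h1
    have h3 := congrFun (congrFun h1 ⟨0, hρ.1⟩) ⟨0, hρ.1⟩
    rw [Matrix.smul_apply, Matrix.one_apply_eq, Matrix.zero_apply, smul_eq_mul, mul_one] at h3
    exact mul_ne_zero hcard hcard h3
  -- the product is invertible in the centre of the block
  set A := sl K w p with hA
  set B := sl K wi q with hBd
  set z := mulF A B with hzd
  have hzc : IsCl z := zcl p q
  have f₁i : ma f₁ * ma f₁ = ma f₁ := by rw [← ma_mul, hf₁.1.2]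
  have f₁c := fun x : MonoidAlgebra F K => cl_ma hf₁.1.1 x
  have f₁A : ma f₁ * ma A = ma A := by rw [← ma_mul, sW]
  have f₁B : ma f₁ * ma B = ma B := by rw [← ma_mul, sV]
  have f₁z : ma f₁ * ma z = ma z := by rw [hzd, ma_mul, ← mul_assoc, f₁A]
  obtain ⟨c, hcn⟩ := loc hibn heig hF hf₁ hzc
  have hzf : mulF z f₁ = z := by
    apply ma_injective
    rw [ma_mul, ← f₁c, f₁z]
  rw [hzf] at hcn
  have hc0 : c ≠ 0 := by
    rintro rfl
    rw [zero_smul, sub_zero] at hcn
    exact hpq hcn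
  obtain ⟨v, hvc, hv⟩ : ∃ v : K → F, IsCl v ∧ mulF z v = f₁ := by
    have hcen : ma z ∈ Subalgebra.center F (MonoidAlgebra F K) := (isCl_iff z).1 hzc
    have hcen₁ : ma f₁ ∈ Subalgebra.center F (MonoidAlgebra F K) := (isCl_iff f₁).1 hf₁.1.1
    set Z : Subalgebra.center F (MonoidAlgebra F K) := ⟨ma z, hcen⟩ with hZ
    set E : Subalgebra.center F (MonoidAlgebra F K) := ⟨ma f₁, hcen₁⟩ with hE
    have hZE : Z * E = Z := by
      apply Subtype.ext
      change ma z * ma f₁ = ma z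
      rw [← f₁c, f₁z]
    have hEE : E * E = E := Subtype.ext f₁i
    have hnil : IsNilpotent (Z - c • E) := by
      obtain ⟨k, hk⟩ := hcn
      refine ⟨k, Subtype.ext ?_⟩
      rw [ma_sub, ma_smul] at hk
      exact hk
    have hunit : IsUnit (c • (1 : Subalgebra.center F (MonoidAlgebra F K)) + (Z - c • E)) := by
      apply IsNilpotent.isUnit_add_left_of_commute hnil
      · have : c • (1 : Subalgebra.center F (MonoidAlgebra F K)) =
          algebraMap F (Subalgebra.center F (MonoidAlgebra F K)) c := by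
          rw [Algebra.algebraMap_eq_smul_one]
        rw [this]
        exact (IsUnit.mk0 c hc0).map _
      · exact Commute.all _ _
    obtain ⟨u, hu⟩ := hunit
    obtain ⟨v, hv⟩ := ma_surjective (((((u⁻¹ : (Subalgebra.center F (MonoidAlgebra F K))ˣ) :
      Subalgebra.center F (MonoidAlgebra F K)) * E : Subalgebra.center F (MonoidAlgebra F K)) :
        MonoidAlgebra F K))
    refine ⟨v, ?_, ?_⟩
    · rw [isCl_iff, hv]
      exact Subtype.property _
    · apply ma_injective
      rw [ma_mul, hv]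
      have h1 : (u : Subalgebra.center F (MonoidAlgebra F K)) * E = Z := by
        have e1 : (Z - c • E) * E = Z - c • E := by
          have e2 : (Z - c • E) * E = Z * E - (c • E) * E := sub_mul _ _ _
          have e3 : (c • E) * E = c • E := by
            have : (c • E) * E = c • (E * E) := smul_mul_assoc _ _ _
            rw [this, hEE]
          rw [e2, hZE, e3]
        rw [hu, add_mul, e1, smul_mul_assoc, one_mul]
        abel
      have h2 : Z * (((u⁻¹ : (Subalgebra.center F (MonoidAlgebra F K))ˣ) :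
          Subalgebra.center F (MonoidAlgebra F K)) * E) = E := by
        rw [← h1]
        calc (u : Subalgebra.center F (MonoidAlgebra F K)) * E *
            (((u⁻¹ : (Subalgebra.center F (MonoidAlgebra F K))ˣ) :
              Subalgebra.center F (MonoidAlgebra F K)) * E) =
            ((u : Subalgebra.center F (MonoidAlgebra F K)) *
              ((u⁻¹ : (Subalgebra.center F (MonoidAlgebra F K))ˣ) :
                Subalgebra.center F (MonoidAlgebra F K))) * (E * E) := by ring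
          _ = E := by rw [Units.mul_inv, one_mul, hEE]
      exact congrArg Subtype.val h2
  have vc := fun x : MonoidAlgebra F K => cl_ma hvc x
  have hABv : ma A * ma B * ma v = ma f₁ := by
    rw [← ma_mul, ← ma_mul, ← hzd, hv]
  refine ⟨A, mulF B v, ⟨sW p, ?_, ?_, ?_, fun n y => kW p n y⟩⟩
  · rw [← mulF_assoc]
    change mulF (mulF f₁ (sl K wi q)) v = _
    rw [sV]
  · rw [← mulF_assoc, ← hzd, hv]
  · -- `(B v) A = f₁`
    have hg : ma (mulF (mulF B v) A) = ma B * ma A * ma v := by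
      rw [ma_mul, ma_mul, mul_assoc, vc, ← mul_assoc]
    have hgc : IsCl (mulF (mulF B v) A) := by
      apply isCl_of_comm
      intro n
      rw [hg]
      calc ma B * ma A * ma v * ma (dl F n) = ma B * (ma A * ma (dl F n)) * ma v := by
            rw [mul_assoc, vc]; simp only [mul_assoc]
        _ = ma B * ma (dl F (γ₁⁻¹ n)) * ma A * ma v := by
            rw [hA, mkW]; simp only [mul_assoc]
        _ = ma (dl F n) * (ma B * ma A * ma v) := by
            rw [hBd, mkV]; simp only [mul_assoc]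
    have hgg : mulF (mulF (mulF B v) A) (mulF (mulF B v) A) = mulF (mulF B v) A := by
      apply ma_injective
      rw [ma_mul]
      have e1 : ma (mulF (mulF B v) A) = ma B * ma v * ma A := by rw [ma_mul, ma_mul]
      rw [e1]
      calc ma B * ma v * ma A * (ma B * ma v * ma A) =
          ma B * ma v * (ma A * ma B * ma v) * ma A := by simp only [mul_assoc]
        _ = ma B * ma v * (ma f₁ * ma A) := by rw [hABv]; simp only [mul_assoc]
        _ = ma B * ma v * ma A := by rw [f₁A]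
    have hf₁g : mulF f₁ (mulF (mulF B v) A) = mulF (mulF B v) A := by
      apply ma_injective
      rw [ma_mul, hg, ← mul_assoc, ← mul_assoc, f₁B]
    rcases hf₁.2.2 _ ⟨hgc, hgg⟩ with h | h
    · rw [hf₁g] at h
      exact h
    · exfalso
      rw [hf₁g] at h
      apply hf₁.2.1
      apply ma_injective
      rw [ma_zero, ← f₁i, ← hABv]
      have e1 : ma (mulF (mulF B v) A) = ma B * ma v * ma A := by rw [ma_mul, ma_mul]
      rw [h, ma_zero] at e1
      calc ma A * ma B * ma v * (ma A * ma B * ma v) =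
          ma A * (ma B * ma v * ma A) * ma B * ma v := by simp only [mul_assoc]
        _ = 0 := by rw [← e1]; simp

end fcu

end Pool.Agent.PP.H6
end
end -- Pool.Agent.Helper6_PP.Fcu

section -- Pool.Agent.Helper6_PP.ComA

/-!
# Squad PP, module COM: the components, group theory
-/

open scoped BigOperators commutatorElement

set_option linter.unusedSectionVars false

noncomputable section

namespace Pool.Agent.PP.H6

open Pool.Agent.Helper51_AWC Pool.Agent.Helper79_WRA Pool.Agent.PP Pool.Agent.PP.H46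
open Pool.Agent.AWR.H39

variable {G : Type} [Group G] [Finite G]

/-- the index set of the components -/
def CI (N : Subgroup G) : Type := {A : Subgroup G // MinAdm (N ⊓ Subgroup.center G) N A}

instance (N : Subgroup G) : Finite (CI N) := by
  unfold CI
  infer_instance

/-- the components -/
def CK (N : Subgroup G) (i : CI N) : Subgroup G := i.1

variable {N : Subgroup G}

theorem ck_le (i : CI N) : CK N i ≤ N := i.2.sub

theorem ck_comm (h : IsChief (N ⊓ Subgroup.center G) N)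
    (hna : ¬ ⁅N, N⁆ ≤ N ⊓ Subgroup.center G) (i j : CI N) (hij : i ≠ j) :
    ∀ x ∈ CK N i, ∀ y ∈ CK N j, x * y = y * x := by
  intro x hx y hy
  have hne : i.1 ≠ j.1 := fun h => hij (Subtype.ext h)
  have hx' : x ∈ ⁅i.1, i.1⁆ ⊔ (N ⊓ Subgroup.center G) := by
    rw [i.2.sup_comm h hna]; exact hx
  obtain ⟨k, hk, z, hz, rfl⟩ := (mem_sup_central h.central).1 hx'
  have h1 := MinAdm.comm h i.2 j.2 hne hk hy
  have h2 := comm_central h.central hz y
  rw [mul_assoc, ← h2, ← mul_assoc, ← h1, mul_assoc]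

theorem ck_sup (h : IsChief (N ⊓ Subgroup.center G) N) : (⨆ i, CK N i) = N := by
  apply le_antisymm
  · exact iSup_le fun i => ck_le i
  · exact Pool.Agent.AWR.H39.le_of_minAdm h fun A hA => le_iSup (CK N) (⟨A, hA⟩ : CI N)

theorem ci_nonempty (h : IsChief (N ⊓ Subgroup.center G) N) : Nonempty (CI N) := by
  obtain ⟨A, hA, _⟩ := exists_minAdm h h.adm h.ne.symm
  exact ⟨⟨A, hA⟩⟩

/-- the action on the components -/
def cact (h : IsChief (N ⊓ Subgroup.center G) N) (g : G) : Equiv.Perm (CI N) where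
  toFun i := ⟨cj g i.1, i.2.cj h g⟩
  invFun i := ⟨cj g⁻¹ i.1, i.2.cj h g⁻¹⟩
  left_inv i := by
    apply Subtype.ext
    change cj g⁻¹ (cj g i.1) = i.1
    rw [cj_mul, inv_mul_cancel, cj_one]
  right_inv i := by
    apply Subtype.ext
    change cj g (cj g⁻¹ i.1) = i.1
    rw [cj_mul, mul_inv_cancel, cj_one]

theorem cact_map (h : IsChief (N ⊓ Subgroup.center G) N) (g : G) (i : CI N) :
    (CK N i).map (MulAut.conj g).toMonoidHom = CK N (cact h g i) := rfl

theorem cact_mul (h : IsChief (N ⊓ Subgroup.center G) N) (g k : G) :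
    cact h (g * k) = cact h g * cact h k := by
  apply Equiv.ext
  intro i
  apply Subtype.ext
  change cj (g * k) i.1 = cj g (cj k i.1)
  rw [cj_mul]

theorem cact_norm (h : IsChief (N ⊓ Subgroup.center G) N) (g : G) (i : CI N) :
    g ∈ Subgroup.normalizer (CK N i : Set G) ↔ cact h g i = i := by
  rw [mem_normalizer_iff_conjS]
  constructor
  · intro h1
    exact Subtype.ext h1
  · intro h1
    exact congrArg Subtype.val h1

/-- the centre of `N` is an `ℓ'`-group -/
theorem center_card {ℓ : ℕ} [Fact ℓ.Prime] (hO : opCore ℓ N = ⊥) :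
    ¬ ℓ ∣ Nat.card (Subgroup.center N) := by
  intro hd
  have P : Sylow ℓ (Subgroup.center N) := default
  have hne := Sylow.ne_bot_of_dvd_card P hd
  set Q : Subgroup N := (P : Subgroup (Subgroup.center N)).map (Subgroup.center N).subtype with hQ
  have hQn : Q.Normal := by
    constructor
    rintro _ ⟨x, hx, rfl⟩ g
    refine ⟨x, hx, ?_⟩
    have := Subgroup.mem_center_iff.1 x.2 g
    change (x : N) = g * (x : N) * g⁻¹
    rw [this]
    group
  have hQp : IsPGroup ℓ Q := P.isPGroup'.map _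
  have h3 : Q ≤ opCore ℓ N := le_sSup ⟨hQn, hQp⟩
  rw [hO, le_bot_iff, hQ, Subgroup.map_eq_bot_iff_of_injective _
    (Subgroup.center N).subtype_injective] at h3
  exact hne h3

/-- `N` is not a component -/
theorem ck_ne (h : IsChief (N ⊓ Subgroup.center G) N)
    (hna : ¬ ⁅N, N⁆ ≤ N ⊓ Subgroup.center G)
    (hs : ¬ IsSimpleGroup (N ⧸ (Subgroup.center G).subgroupOf N)) (i : CI N) : i.1 ≠ N := by
  intro hi
  apply hs
  have hA : MinAdm (N ⊓ Subgroup.center G) N N := by
    have := i.2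
    rwa [hi] at this
  have hker : (QuotientGroup.mk' ((Subgroup.center G).subgroupOf N)).ker =
      (Subgroup.center G).subgroupOf N := QuotientGroup.ker_mk' _
  have hZ : ((Subgroup.center G).subgroupOf N).map N.subtype = N ⊓ Subgroup.center G := by
    rw [Subgroup.subgroupOf_map_subtype, inf_comm]
  refine { exists_pair_ne := ?_, eq_bot_or_eq_top_of_normal := ?_ }
  · by_contra hcon
    push Not at hcon
    apply h.ne
    apply le_antisymm h.le
    intro x hx
    have h1 := hcon (QuotientGroup.mk' ((Subgroup.center G).subgroupOf N) ⟨x, hx⟩)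
      (QuotientGroup.mk' ((Subgroup.center G).subgroupOf N) 1)
    rw [map_one, ← MonoidHom.mem_ker, hker, Subgroup.mem_subgroupOf] at h1
    exact Subgroup.mem_inf.2 ⟨hx, h1⟩
  · intro H hH
    set T : Subgroup G := (H.comap (QuotientGroup.mk' ((Subgroup.center G).subgroupOf N))).map
      N.subtype with hT
    have hmem : ∀ {x : G} (hx : x ∈ N), x ∈ T ↔
        QuotientGroup.mk' ((Subgroup.center G).subgroupOf N) ⟨x, hx⟩ ∈ H := by
      intro x hx
      constructor
      · rintro ⟨y, hy, hyx⟩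
        have : y = ⟨x, hx⟩ := Subtype.ext hyx
        rw [← this]
        exact hy
      · intro hh
        exact ⟨⟨x, hx⟩, hh, rfl⟩
    have hTN : T ≤ N := by
      rintro _ ⟨y, _, rfl⟩
      exact y.2
    have hZT : N ⊓ Subgroup.center G ≤ T := by
      intro z hz
      obtain ⟨hz1, hz2⟩ := Subgroup.mem_inf.1 hz
      rw [hmem hz1]
      have : QuotientGroup.mk' ((Subgroup.center G).subgroupOf N) ⟨z, hz1⟩ = 1 := by
        rw [← MonoidHom.mem_ker, hker, Subgroup.mem_subgroupOf]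
        exact hz2
      rw [this]
      exact H.one_mem
    have hconj : ∀ a ∈ N, ∀ t ∈ T, a * t * a⁻¹ ∈ T := by
      intro a ha t ht
      have htN := hTN ht
      have h2 : a * t * a⁻¹ ∈ N := N.mul_mem (N.mul_mem ha htN) (N.inv_mem ha)
      rw [hmem h2]
      rw [hmem htN] at ht
      have := hH.conj_mem _ ht (QuotientGroup.mk' ((Subgroup.center G).subgroupOf N) ⟨a, ha⟩)
      rw [← map_mul, ← map_inv, ← map_mul] at this
      exact this
    rcases MinAdm.simple h hA hZT hTN hconj with h1 | h1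
    · left
      rw [eq_bot_iff]
      intro y hy
      obtain ⟨x, rfl⟩ := QuotientGroup.mk'_surjective _ y
      have h2 : (x : G) ∈ T := (hmem x.2).2 hy
      rw [h1] at h2
      rw [Subgroup.mem_bot, ← MonoidHom.mem_ker, hker, Subgroup.mem_subgroupOf]
      exact (Subgroup.mem_inf.1 h2).2
    · right
      rw [eq_top_iff]
      intro y _
      obtain ⟨x, rfl⟩ := QuotientGroup.mk'_surjective _ y
      have h2 : (x : G) ∈ T := by rw [h1]; exact x.2
      exact (hmem x.2).1 h2

/-- the measure of a component -/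
theorem ck_mu (h : IsChief (N ⊓ Subgroup.center G) N)
    (hna : ¬ ⁅N, N⁆ ≤ N ⊓ Subgroup.center G)
    (hs : ¬ IsSimpleGroup (N ⧸ (Subgroup.center G).subgroupOf N)) (i : CI N) :
    mu ((CK N i).subgroupOf (Subgroup.normalizer (CK N i : Set G))) < mu N := by
  have hT : Subgroup.center G ≤ Subgroup.normalizer (CK N i : Set G) := by
    intro z hz
    rw [Subgroup.mem_normalizer_iff]
    intro x
    have e : z * x * z⁻¹ = x := by
      rw [← Subgroup.mem_center_iff.1 hz x]; group
    rw [e]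
  have h1 := mu_le hT (le_refl (CK N i))
  have h2 : mu (CK N i) < mu N := by
    unfold mu
    rw [← Subgroup.inf_relIndex_left, ← Subgroup.inf_relIndex_left N]
    have h3 : CK N i ⊓ Subgroup.center G = N ⊓ Subgroup.center G :=
      le_antisymm (inf_le_inf_right _ (ck_le i)) (le_inf i.2.le inf_le_right)
    rw [h3]
    exact i.2.relIndex_lt (ck_ne h hna hs i)
  exact lt_of_le_of_lt h1 h2

/-- the product of the other components -/
def CO (N : Subgroup G) (i : CI N) : Subgroup G := ⨆ j : {j : CI N // j ≠ i}, CK N j.1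

theorem co_le (i : CI N) : CO N i ≤ N := iSup_le fun j => ck_le j.1

theorem co_comm (h : IsChief (N ⊓ Subgroup.center G) N)
    (hna : ¬ ⁅N, N⁆ ≤ N ⊓ Subgroup.center G) (i : CI N) :
    ∀ x ∈ CK N i, ∀ y ∈ CO N i, x * y = y * x := by
  intro x hx
  have h1 : CO N i ≤ Subgroup.centralizer ({x} : Set G) := by
    apply iSup_le
    rintro ⟨j, hj⟩ y hy
    rw [Subgroup.mem_centralizer_singleton_iff]
    exact (ck_comm h hna i j hj.symm x hx y hy).symm
  intro y hy
  exact (Subgroup.mem_centralizer_singleton_iff.1 (h1 hy)).symm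

theorem co_sup (h : IsChief (N ⊓ Subgroup.center G) N) (i : CI N) : CK N i ⊔ CO N i = N := by
  apply le_antisymm (sup_le (ck_le i) (co_le i))
  conv_lhs => rw [← ck_sup h]
  apply iSup_le
  intro j
  by_cases hj : j = i
  · rw [hj]; exact le_sup_left
  · exact (le_iSup (fun j : {j : CI N // j ≠ i} => CK N j.1) ⟨j, hj⟩).trans le_sup_right

theorem sub_sup {A B N : Subgroup G} (hA : A ≤ N) (hB : B ≤ N) (h : A ⊔ B = N) :
    A.subgroupOf N ⊔ B.subgroupOf N = ⊤ := by
  rw [← Subgroup.subgroupOf_sup hA hB, h, Subgroup.subgroupOf_self]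

theorem sub_comm {A B N : Subgroup G} (h : ∀ x ∈ A, ∀ y ∈ B, x * y = y * x) :
    ∀ x ∈ A.subgroupOf N, ∀ y ∈ B.subgroupOf N, x * y = y * x := by
  intro x hx y hy
  exact Subtype.ext (h x (Subgroup.mem_subgroupOf.1 hx) y (Subgroup.mem_subgroupOf.1 hy))

end Pool.Agent.PP.H6
end
end -- Pool.Agent.Helper6_PP.ComA

section -- Pool.Agent.Helper6_PP.ComB

/-!
# Squad PP, module COM: the blocks of the components
-/

open scoped BigOperators commutatorElement

set_option linter.unusedSectionVars false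

noncomputable section

namespace Pool.Agent.PP.H6

open Pool.Agent.Helper51_AWC Pool.Agent.Helper79_WRA Pool.Agent.PP Pool.Agent.PP.H46
open Pool.Agent.AWR.H39

section equiv

variable {F H H' : Type} [Field F] [Group H] [Finite H] [Group H'] [Finite H'] (e : H ≃* H')

theorem card_cent_eq (x : H) : Nat.card (Subgroup.centralizer ({e x} : Set H')) =
    Nat.card (Subgroup.centralizer ({x} : Set H)) := by
  have h : (Subgroup.centralizer ({x} : Set H)).map e.toMonoidHom =
      Subgroup.centralizer ({e x} : Set H') := by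
    ext y
    rw [Subgroup.mem_centralizer_singleton_iff]
    constructor
    · rintro ⟨z, hz, rfl⟩
      have := Subgroup.mem_centralizer_singleton_iff.1 hz
      change e z * e x = e x * e z
      rw [← map_mul, this, map_mul]
    · intro hy
      refine ⟨e.symm y, ?_, e.apply_symm_apply y⟩
      change e.symm y ∈ Subgroup.centralizer ({x} : Set H)
      rw [Subgroup.mem_centralizer_singleton_iff]
      apply e.injective
      rw [map_mul, map_mul, e.apply_symm_apply, hy]
  rw [← h, Subgroup.card_map_of_injective e.injective]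

theorem dz_equiv {ℓ : ℕ} {a : H' → F} (h : DZ ℓ a) : DZ ℓ (fun x => a (e x)) := by
  unfold DZ at h ⊢
  induction h using Submodule.span_induction with
  | mem a ha =>
    obtain ⟨x, hx, rfl⟩ := ha
    apply Submodule.subset_span
    refine ⟨e.symm x, ?_, ?_⟩
    · rw [← card_cent_eq e, e.apply_symm_apply]
      exact hx
    · funext y
      classical
      unfold clsum
      have hiff : (∃ q ∈ (⊤ : Subgroup H'), e y = q * x * q⁻¹) ↔
          ∃ q ∈ (⊤ : Subgroup H), y = q * e.symm x * q⁻¹ := by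
        constructor
        · rintro ⟨q, _, hq⟩
          refine ⟨e.symm q, Subgroup.mem_top _, ?_⟩
          apply e.injective
          rw [map_mul, map_mul, map_inv, e.apply_symm_apply, e.apply_symm_apply, hq]
        · rintro ⟨q, _, hq⟩
          refine ⟨e q, Subgroup.mem_top _, ?_⟩
          rw [hq, map_mul, map_mul, map_inv, e.apply_symm_apply]
      by_cases hc : ∃ q ∈ (⊤ : Subgroup H'), e y = q * x * q⁻¹
      · rw [if_pos hc, if_pos (hiff.1 hc)]
      · rw [if_neg hc, if_neg (fun h => hc (hiff.2 h))]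
  | zero => exact Submodule.zero_mem _
  | add a b _ _ ha hb => exact Submodule.add_mem _ ha hb
  | smul c a _ ha => exact Submodule.smul_mem _ c ha

theorem dz_iff {ℓ : ℕ} {a : H' → F} : DZ ℓ (fun x => a (e x)) ↔ DZ ℓ a := by
  constructor
  · intro h
    have := dz_equiv e.symm h
    have e1 : (fun x : H' => (fun x : H => a (e x)) (e.symm x)) = a := by
      funext x
      change a (e (e.symm x)) = a x
      rw [e.apply_symm_apply]
    rwa [e1] at this
  · exact dz_equiv e

end equiv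

variable {F G : Type} [Field F] [Group G] [Finite G] {N : Subgroup G}

/-- conjugation on a subgroup normalised by `g` inside `N` -/
def conjE [hN : N.Normal] {A : Subgroup G} {g : G} (hg : g ∈ Subgroup.normalizer (A : Set G)) :
    A.subgroupOf N ≃* A.subgroupOf N where
  toFun t := ⟨MulAut.conjNormal g (t : N), by
    rw [Subgroup.mem_subgroupOf, MulAut.conjNormal_apply]
    exact (Subgroup.mem_normalizer_iff.1 hg _).1 (Subgroup.mem_subgroupOf.1 t.2)⟩
  invFun t := ⟨MulAut.conjNormal g⁻¹ (t : N), by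
    rw [Subgroup.mem_subgroupOf, MulAut.conjNormal_apply]
    exact (Subgroup.mem_normalizer_iff.1 (inv_mem hg) _).1 (Subgroup.mem_subgroupOf.1 t.2)⟩
  left_inv t := by
    apply Subtype.ext
    change MulAut.conjNormal g⁻¹ (MulAut.conjNormal g (t : N)) = t
    rw [map_inv, MulAut.inv_apply_self]
  right_inv t := by
    apply Subtype.ext
    change MulAut.conjNormal g (MulAut.conjNormal g⁻¹ (t : N)) = t
    rw [map_inv, MulAut.apply_inv_self]
  map_mul' s t := by
    apply Subtype.ext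
    change MulAut.conjNormal g ((s : N) * (t : N)) =
      MulAut.conjNormal g (s : N) * MulAut.conjNormal g (t : N)
    rw [map_mul]

theorem conjE_coe [hN : N.Normal] {A : Subgroup G} {g : G}
    (hg : g ∈ Subgroup.normalizer (A : Set G)) (t : A.subgroupOf N) :
    ((conjE hg t : A.subgroupOf N) : N) = MulAut.conjNormal g (t : N) := rfl

/-- the block extended to the whole group -/
def bx (N A : Subgroup G) (f₁ : A.subgroupOf N → F) : G → F := ext0 N (ext0 (A.subgroupOf N) f₁)

theorem bx_mem {A : Subgroup G} (hA : A ≤ N) (f₁ : A.subgroupOf N → F) {x : G} (hx : x ∈ A) :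
    bx N A f₁ x = f₁ ⟨⟨x, hA hx⟩, Subgroup.mem_subgroupOf.2 hx⟩ := by
  unfold bx
  rw [ext0_of_mem _ (hA hx)]
  exact ext0_of_mem _ (Subgroup.mem_subgroupOf.2 hx)

theorem bx_not {A : Subgroup G} (f₁ : A.subgroupOf N → F) {x : G} (hx : x ∉ A) :
    bx N A f₁ x = 0 := by
  unfold bx
  by_cases h : x ∈ N
  · rw [ext0_of_mem _ h]
    exact ext0_of_not_mem _ (fun h' => hx (Subgroup.mem_subgroupOf.1 h'))
  · exact ext0_of_not_mem _ h

theorem bx_coe {A : Subgroup G} (f₁ : A.subgroupOf N → F) (t : A.subgroupOf N) :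
    bx N A f₁ ((t : N) : G) = f₁ t := by
  unfold bx
  rw [ext0_of_mem _ (t : N).2]
  exact ext0_of_mem _ t.2

theorem bx_coe' {A : Subgroup G} (f₁ : A.subgroupOf N → F) (t : N) :
    bx N A f₁ (t : G) = ext0 (A.subgroupOf N) f₁ t := by
  unfold bx
  exact ext0_of_mem _ t.2

/-- stability of the blocks under the normaliser -/
theorem bx_cl (hN : N.Normal) {A : Subgroup G} (hA : A ≤ N)
    (huniq : ∀ f₁ f₂ : A.subgroupOf N → F, ∀ b : N → F, IsBlk b → BlkU (A.subgroupOf N) b f₁ →
      BlkU (A.subgroupOf N) b f₂ → f₁ = f₂) {b : N → F} (hb : IsBlk b)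
    (hst : stabF (ext0 N b) = ⊤) {f₁ : A.subgroupOf N → F} (hf₁ : BlkU (A.subgroupOf N) b f₁)
    {g : G} (hg : g ∈ Subgroup.normalizer (A : Set G)) (x : G) :
    bx N A f₁ (g * x * g⁻¹) = bx N A f₁ x := by
  have hbg : ∀ y : N, b (MulAut.conjNormal g y) = b y := by
    intro y
    have h1 : g ∈ stabF (ext0 N b) := by rw [hst]; exact Subgroup.mem_top g
    have h2 := h1 (y : G)
    rw [ext0_of_mem _ y.2, ext0_of_mem _ (hN.conj_mem _ y.2 g)] at h2
    rw [← h2]
    congr 1
  have h1 : BlkU (A.subgroupOf N) b (fun t => f₁ (conjE hg t)) := by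
    refine ⟨H18.blk_equiv (conjE hg) hf₁.1, ?_⟩
    have e1 : ext0 (A.subgroupOf N) (fun t => f₁ (conjE hg t)) =
        fun y => ext0 (A.subgroupOf N) f₁ ((MulAut.conjNormal g : MulAut N) y) := by
      funext y
      by_cases hy : y ∈ A.subgroupOf N
      · have hy' : (MulAut.conjNormal g : MulAut N) y ∈ A.subgroupOf N :=
          (conjE hg ⟨y, hy⟩).2
        rw [ext0_of_mem _ hy, ext0_of_mem _ hy']
        rfl
      · have hy' : (MulAut.conjNormal g : MulAut N) y ∉ A.subgroupOf N := by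
          intro h
          apply hy
          rw [Subgroup.mem_subgroupOf, MulAut.conjNormal_apply] at h
          rw [Subgroup.mem_subgroupOf]
          exact (Subgroup.mem_normalizer_iff.1 hg _).2 h
        rw [ext0_of_not_mem _ hy, ext0_of_not_mem _ hy']
    have e2 : b = fun y => b ((MulAut.conjNormal g : MulAut N) y) := funext fun y => (hbg y).symm
    rw [e1]
    conv_lhs => rw [e2]
    rw [H18.mulF_equiv (MulAut.conjNormal g : MulAut N), hf₁.2]
    exact e2.symm
  have h2 := huniq _ _ b hb h1 hf₁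
  by_cases hx : x ∈ A
  · have hgx := (Subgroup.mem_normalizer_iff.1 hg x).1 hx
    rw [bx_mem hA _ hx, bx_mem hA _ hgx]
    have h3 := congrFun h2 ⟨⟨x, hA hx⟩, Subgroup.mem_subgroupOf.2 hx⟩
    rw [← h3]
    rfl
  · have hgx : g * x * g⁻¹ ∉ A := fun h => hx ((Subgroup.mem_normalizer_iff.1 hg x).2 h)
    rw [bx_not _ hx, bx_not _ hgx]

/-- `A` as a subgroup of `N` and of its normaliser -/
def eqv (A N T : Subgroup G) (hN : A ≤ N) (hT : A ≤ T) : A.subgroupOf T ≃* A.subgroupOf N :=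
  (Subgroup.subgroupOfEquivOfLe hT).trans (Subgroup.subgroupOfEquivOfLe hN).symm

theorem eqv_coe {A N T : Subgroup G} (hN : A ≤ N) (hT : A ≤ T) (t : A.subgroupOf T) :
    (((eqv A N T hN hT t : A.subgroupOf N) : N) : G) = ((t : T) : G) := rfl

end Pool.Agent.PP.H6
end
end -- Pool.Agent.Helper6_PP.ComB

section -- Pool.Agent.Helper87_PP.Cma

/-!
# Squad PP, module CM1 (AWC_J, 8.2), part A: if all components have defect zero then so has `f`
-/

open scoped BigOperators

noncomputable section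

namespace Pool.Agent.PP.H87

open Pool.Agent.Helper51_AWC Pool.Agent.Helper79_WRA Pool.Agent.PP Pool.Agent.AWR.H39

section grp

variable {Y : Type} [Group Y]

/-- elements of the join of two commuting subgroups are products -/
theorem mem_sup_comm {K K' : Subgroup Y} (hc : ∀ x ∈ K, ∀ y ∈ K', x * y = y * x) {t : Y}
    (ht : t ∈ K ⊔ K') : ∃ g ∈ K, ∃ g' ∈ K', t = g * g' := by
  let S : Subgroup Y :=
    { carrier := {t | ∃ g ∈ K, ∃ g' ∈ K', t = g * g'}
      one_mem' := ⟨1, K.one_mem, 1, K'.one_mem, (one_mul 1).symm⟩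
      mul_mem' := by
        rintro a b ⟨g, hg, g', hg', rfl⟩ ⟨h, hh, h', hh', rfl⟩
        refine ⟨g * h, K.mul_mem hg hh, g' * h', K'.mul_mem hg' hh', ?_⟩
        calc g * g' * (h * h') = g * (g' * h) * h' := by simp only [mul_assoc]
          _ = g * (h * g') * h' := by rw [hc h hh g' hg']
          _ = g * h * (g' * h') := by simp only [mul_assoc]
      inv_mem' := by
        rintro a ⟨g, hg, g', hg', rfl⟩
        refine ⟨g⁻¹, K.inv_mem hg, g'⁻¹, K'.inv_mem hg', ?_⟩
        rw [mul_inv_rev, hc g⁻¹ (K.inv_mem hg) g'⁻¹ (K'.inv_mem hg')] }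
  have h1 : K ⊔ K' ≤ S := by
    apply sup_le
    · intro g hg; exact ⟨g, hg, 1, K'.one_mem, (mul_one g).symm⟩
    · intro g hg; exact ⟨1, K.one_mem, g, hg, (one_mul g).symm⟩
  exact h1 ht

/-- conjugation by `g` and powers of a central element -/
theorem conj_pow_central {h x z : Y} (hz : h * z = z * h) (e : h * x * h⁻¹ = x * z)
    (j : ℕ) : h ^ j * x * (h ^ j)⁻¹ = x * z ^ j := by
  induction j with
  | zero => simp
  | succ j ih =>
    have e2 : h * z ^ j * h⁻¹ = z ^ j := by
      have : Commute h (z ^ j) := Commute.pow_right hz j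
      rw [this.eq]; group
    calc h ^ (j + 1) * x * (h ^ (j + 1))⁻¹ = h * (h ^ j * x * (h ^ j)⁻¹) * h⁻¹ := by
          rw [pow_succ']; group
      _ = h * (x * z ^ j) * h⁻¹ := by rw [ih]
      _ = (h * x * h⁻¹) * (h * z ^ j * h⁻¹) := by group
      _ = x * z * z ^ j := by rw [e, e2]
      _ = x * z ^ (j + 1) := by rw [mul_assoc, ← pow_succ']

variable [Finite Y]

/-- an element of order `ℓ` gives divisibility -/
theorem dvd_of_pow {ℓ : ℕ} (hℓ : ℓ.Prime) {T : Subgroup Y} {h : Y} (hT : h ∈ T)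
    (h1 : h ^ ℓ = 1) (h2 : h ≠ 1) : ℓ ∣ Nat.card T := by
  have ho : orderOf h = ℓ := by
    have := Fact.mk hℓ
    exact orderOf_eq_prime h1 h2
  rw [← ho]
  exact Subgroup.orderOf_dvd_natCard T hT

/-- centralisers in a product of commuting subgroups -/
theorem card_cent_sup {ℓ : ℕ} (hℓ : ℓ.Prime) {K K' : Subgroup Y}
    (hc : ∀ x ∈ K, ∀ y ∈ K', x * y = y * x) (hZ : ¬ ℓ ∣ Nat.card (K ⊓ K' : Subgroup Y)) {x x' : Y}
    (hx : x ∈ K) (hx' : x' ∈ K')
    (hd : ¬ ℓ ∣ Nat.card (Subgroup.centralizer ({x} : Set Y) ⊓ K : Subgroup Y))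
    (hd' : ¬ ℓ ∣ Nat.card (Subgroup.centralizer ({x'} : Set Y) ⊓ K' : Subgroup Y)) :
    ¬ ℓ ∣ Nat.card (Subgroup.centralizer ({x * x'} : Set Y) ⊓ (K ⊔ K') : Subgroup Y) := by
  intro hdvd
  have := Fact.mk hℓ
  obtain ⟨t, ht⟩ := exists_prime_orderOf_dvd_card' ℓ hdvd
  obtain ⟨ht1, ht2⟩ := t.2
  obtain ⟨g, hg, g', hg', htg⟩ := mem_sup_comm hc ht2
  have hgg : Commute g g' := hc g hg g' hg'
  have hto : orderOf (t : Y) = ℓ := by rw [Subgroup.orderOf_coe]; exact ht
  have htl : (t : Y) ^ ℓ = 1 := by rw [← hto]; exact pow_orderOf_eq_one _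
  obtain ⟨m, hm⟩ : ∃ m, m = Nat.card (K ⊓ K' : Subgroup Y) := ⟨_, rfl⟩
  have hgl : g ^ ℓ ∈ (K ⊓ K' : Subgroup Y) := by
    refine ⟨K.pow_mem hg ℓ, ?_⟩
    have e : g ^ ℓ = (g' ^ ℓ)⁻¹ := by
      rw [htg, hgg.mul_pow] at htl
      exact eq_inv_of_mul_eq_one_left htl
    rw [e]
    exact K'.inv_mem (K'.pow_mem hg' ℓ)
  have hgl' : g' ^ ℓ ∈ (K ⊓ K' : Subgroup Y) := by
    refine ⟨?_, K'.pow_mem hg' ℓ⟩
    have e : g' ^ ℓ = (g ^ ℓ)⁻¹ := by
      rw [htg, hgg.mul_pow] at htl
      exact eq_inv_of_mul_eq_one_right htl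
    rw [e]
    exact K.inv_mem (K.pow_mem hg ℓ)
  have pow_m : ∀ z ∈ (K ⊓ K' : Subgroup Y), z ^ m = 1 := by
    intro z hz
    have := pow_card_eq_one' (G := (K ⊓ K' : Subgroup Y)) (x := ⟨z, hz⟩)
    rw [hm]
    exact congrArg Subtype.val this
  have hh : (g ^ m) ^ ℓ = 1 := by rw [← pow_mul, mul_comm, pow_mul, pow_m _ hgl]
  have hh' : (g' ^ m) ^ ℓ = 1 := by rw [← pow_mul, mul_comm, pow_mul, pow_m _ hgl']
  have htm : (t : Y) ^ m = g ^ m * g' ^ m := by rw [htg, hgg.mul_pow]
  have hne : (t : Y) ^ m ≠ 1 := by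
    intro h
    apply hZ
    rw [← hm, ← hto]
    exact orderOf_dvd_of_pow_eq_one h
  have hKm : g ^ m ∈ K := K.pow_mem hg m
  have hKm' : g' ^ m ∈ K' := K'.pow_mem hg' m
  have hcen : (t : Y) ^ m * (x * x') = (x * x') * (t : Y) ^ m := by
    have h1 := Subgroup.mem_centralizer_singleton_iff.1 ht1
    have h2 : Commute (t : Y) (x * x') := h1
    exact (h2.pow_left m).eq
  obtain ⟨h, hhe⟩ : ∃ h, h = g ^ m := ⟨_, rfl⟩
  obtain ⟨h', hhe'⟩ : ∃ h', h' = g' ^ m := ⟨_, rfl⟩
  rw [← hhe] at hh hKm htm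
  rw [← hhe'] at hh' hKm' htm
  rw [htm] at hne hcen
  -- the commutator
  have e1 : x⁻¹ * (h * x * h⁻¹) = x' * (h' * x' * h'⁻¹)⁻¹ := by
    have a1 : h * h' * (x * x') = (h * x) * (h' * x') := by
      calc h * h' * (x * x') = h * (h' * x) * x' := by simp only [mul_assoc]
        _ = h * (x * h') * x' := by rw [hc x hx h' hKm']
        _ = _ := by simp only [mul_assoc]
    have a2 : (x * x') * (h * h') = (x * h) * (x' * h') := by
      calc (x * x') * (h * h') = x * (x' * h) * h' := by simp only [mul_assoc]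
        _ = x * (h * x') * h' := by rw [hc h hKm x' hx']
        _ = _ := by simp only [mul_assoc]
    rw [a1, a2] at hcen
    -- (x h)⁻¹ (h x) = (x' h') (h' x')⁻¹
    have a3 : (x * h)⁻¹ * (h * x) = (x' * h') * (h' * x')⁻¹ := by
      have : (x * h)⁻¹ * ((h * x) * (h' * x')) * (h' * x')⁻¹ =
          (x * h)⁻¹ * ((x * h) * (x' * h')) * (h' * x')⁻¹ := by rw [hcen]
      simpa [mul_assoc] using this
    have a4 : x⁻¹ * (h * x * h⁻¹) = h * ((x * h)⁻¹ * (h * x)) * h⁻¹ := by group
    have a5 : x' * (h' * x' * h'⁻¹)⁻¹ = (x' * h') * (h' * x')⁻¹ := by group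
    rw [a4, a5, a3]
    have a6 : (x' * h') * (h' * x')⁻¹ ∈ K' :=
      K'.mul_mem (K'.mul_mem hx' hKm') (K'.inv_mem (K'.mul_mem hKm' hx'))
    rw [hc h hKm _ a6]
    group
  have hz1 : x⁻¹ * (h * x * h⁻¹) ∈ K :=
    K.mul_mem (K.inv_mem hx) (K.mul_mem (K.mul_mem hKm hx) (K.inv_mem hKm))
  have hz2 : x⁻¹ * (h * x * h⁻¹) ∈ K' := by
    rw [e1]
    exact K'.mul_mem hx' (K'.inv_mem (K'.mul_mem (K'.mul_mem hKm' hx') (K'.inv_mem hKm')))
  have hcase : ∀ {A : Subgroup Y} {a k : Y}, a ∈ A → k ∈ A → k ^ ℓ = 1 →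
      (∃ z ∈ (K ⊓ K' : Subgroup Y), k * z = z * k ∧ k * a * k⁻¹ = a * z) →
      k * a * k⁻¹ = a := by
    rintro A a k _ _ hk ⟨z, hz, hkz, e⟩
    have h1 := conj_pow_central hkz e ℓ
    rw [hk, one_mul, inv_one, mul_one] at h1
    have h2 : z ^ ℓ = 1 := by
      have : a * 1 = a * z ^ ℓ := by rw [mul_one]; exact h1
      exact (mul_left_cancel this).symm
    have h3 : z ^ m = 1 := pow_m z hz
    have h4 : z = 1 := by
      have h5 : orderOf z ∣ ℓ := orderOf_dvd_of_pow_eq_one h2
      have h6 : orderOf z ∣ m := orderOf_dvd_of_pow_eq_one h3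
      rcases (Nat.dvd_prime hℓ).1 h5 with h7 | h7
      · exact orderOf_eq_one_iff.1 h7
      · exfalso; apply hZ; rw [← hm, ← h7]; exact h6
    rw [e, h4, mul_one]
  have c1 : h * x * h⁻¹ = x := by
    refine hcase hx hKm hh ⟨x⁻¹ * (h * x * h⁻¹), ⟨hz1, hz2⟩, (hc h hKm _ hz2), by group⟩
  have c2 : h' * x' * h'⁻¹ = x' := by
    have : x⁻¹ * (h * x * h⁻¹) = 1 := by rw [c1]; group
    rw [this] at e1
    have e2 := mul_eq_one_iff_eq_inv.1 e1.symm
    rw [inv_inv] at e2
    exact e2.symm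
  have d1 : h ∈ (Subgroup.centralizer ({x} : Set Y) ⊓ K : Subgroup Y) := by
    refine ⟨Subgroup.mem_centralizer_singleton_iff.2 ?_, hKm⟩
    calc h * x = (h * x * h⁻¹) * h := by group
      _ = x * h := by rw [c1]
  have d2 : h' ∈ (Subgroup.centralizer ({x'} : Set Y) ⊓ K' : Subgroup Y) := by
    refine ⟨Subgroup.mem_centralizer_singleton_iff.2 ?_, hKm'⟩
    calc h' * x' = (h' * x' * h'⁻¹) * h' := by group
      _ = x' * h' := by rw [c2]
  by_cases hh1 : h = 1
  · have hh2 : h' ≠ 1 := by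
      intro h2
      apply hne
      rw [hh1, h2, one_mul]
    exact hd' (dvd_of_pow hℓ d2 hh' hh2)
  · exact hd (dvd_of_pow hℓ d1 hh hh1)

end grp

section alg

variable {F Y : Type} [Field F] [Group Y] [Finite Y]

/-- the span of the class sums of defect zero of a subgroup -/
def PCK (F : Type) [Field F] (ℓ : ℕ) (K : Subgroup Y) : Submodule F (Y → F) :=
  Submodule.span F {f : Y → F | ∃ x ∈ K,
    ¬ ℓ ∣ Nat.card (Subgroup.centralizer ({x} : Set Y) ⊓ K : Subgroup Y) ∧ f = clsum F K x}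

theorem mulF_zero_left (b : Y → F) : mulF 0 b = 0 := by
  apply ma_injective; rw [ma_mul, ma_zero, zero_mul]

theorem mulF_add_left (a b c : Y → F) : mulF (a + b) c = mulF a c + mulF b c := by
  apply ma_injective; rw [ma_mul, ma_add, ma_add, ma_mul, ma_mul, add_mul]

theorem mulF_smul_left (c : F) (a b : Y → F) : mulF (c • a) b = c • mulF a b := by
  apply ma_injective; rw [ma_mul, ma_smul, ma_smul, ma_mul, smul_mul_assoc]

theorem mulF_zero_right (b : Y → F) : mulF b 0 = 0 := by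
  apply ma_injective; rw [ma_mul, ma_zero, mul_zero]

theorem mulF_add_right (a b c : Y → F) : mulF a (b + c) = mulF a b + mulF a c := by
  apply ma_injective; rw [ma_mul, ma_add, ma_add, ma_mul, ma_mul, mul_add]

theorem mulF_smul_right (c : F) (a b : Y → F) : mulF a (c • b) = c • mulF a b := by
  apply ma_injective; rw [ma_mul, ma_smul, ma_smul, ma_mul, mul_smul_comm]

omit [Finite Y] in
/-- invariance of class sums of a factor under the join -/
theorem clsum_conj {K K' : Subgroup Y} (hc : ∀ x ∈ K, ∀ y ∈ K', x * y = y * x) {x : Y}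
    (hx : x ∈ K) {q : Y} (hq : q ∈ K ⊔ K') (t : Y) :
    clsum F K x (q * t * q⁻¹) = clsum F K x t := by
  classical
  obtain ⟨g, hg, g', hg', rfl⟩ := mem_sup_comm hc hq
  have key : ∀ a : Y, (∃ k ∈ K, a = k * x * k⁻¹) → ∀ g ∈ K, ∀ g' ∈ K',
      ∃ k ∈ K, (g * g') * a * (g * g')⁻¹ = k * x * k⁻¹ := by
    rintro a ⟨k, hk, rfl⟩ g hg g' hg'
    refine ⟨g * k, K.mul_mem hg hk, ?_⟩
    have h1 : k * x * k⁻¹ ∈ K := K.mul_mem (K.mul_mem hk hx) (K.inv_mem hk)
    have h2 : g' * (k * x * k⁻¹) * g'⁻¹ = k * x * k⁻¹ := by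
      rw [← hc _ h1 g' hg']; group
    calc (g * g') * (k * x * k⁻¹) * (g * g')⁻¹ = g * (g' * (k * x * k⁻¹) * g'⁻¹) * g⁻¹ := by
          group
      _ = g * (k * x * k⁻¹) * g⁻¹ := by rw [h2]
      _ = _ := by group
  unfold clsum
  have e : (∃ k ∈ K, (g * g') * t * (g * g')⁻¹ = k * x * k⁻¹) ↔ ∃ k ∈ K, t = k * x * k⁻¹ := by
    constructor
    · intro h
      have h1 := key _ h g⁻¹ (K.inv_mem hg) g'⁻¹ (K'.inv_mem hg')
      have h2 : (g⁻¹ * g'⁻¹) * ((g * g') * t * (g * g')⁻¹) * (g⁻¹ * g'⁻¹)⁻¹ = t := by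
        have : g⁻¹ * g'⁻¹ = (g * g')⁻¹ := by
          rw [mul_inv_rev, hc g⁻¹ (K.inv_mem hg) g'⁻¹ (K'.inv_mem hg')]
        rw [this]; group
      rw [h2] at h1
      exact h1
    · intro h
      exact key _ h g hg g' hg'
  by_cases h : ∃ k ∈ K, t = k * x * k⁻¹
  · rw [if_pos h, if_pos (e.2 h)]
  · rw [if_neg h, if_neg (fun hh => h (e.1 hh))]

/-- products of class sums of commuting subgroups -/
theorem clsum_mul_clsum {K K' : Subgroup Y} (hc : ∀ x ∈ K, ∀ y ∈ K', x * y = y * x) {x x' : Y}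
    (hx : x ∈ K) (hx' : x' ∈ K') :
    ∃ c : F, mulF (clsum F K x) (clsum F K' x') = c • clsum F (K ⊔ K') (x * x') := by
  classical
  have := Fintype.ofFinite Y
  have hc' : ∀ y ∈ K', ∀ x ∈ K, y * x = x * y := fun y hy x hx => (hc x hx y hy).symm
  refine ⟨mulF (clsum F K x) (clsum F K' x') (x * x'), ?_⟩
  have hinv : ∀ q ∈ K ⊔ K', ∀ y, mulF (clsum F K x) (clsum F K' x') (q * y * q⁻¹) =
      mulF (clsum F K x) (clsum F K' x') y := by
    intro q hq y
    unfold mulF
    rw [finsum_eq_sum_of_fintype, finsum_eq_sum_of_fintype,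
      ← Equiv.sum_comp (MulAut.conj q).toEquiv]
    refine Finset.sum_congr rfl fun t _ => ?_
    have e1 : (MulAut.conj q).toEquiv t = q * t * q⁻¹ := rfl
    rw [e1, clsum_conj hc hx hq]
    congr 1
    have e2 : (q * t * q⁻¹)⁻¹ * (q * y * q⁻¹) = q * (t⁻¹ * y) * q⁻¹ := by group
    rw [e2, clsum_conj hc' hx' (by rw [sup_comm]; exact hq)]
  funext y
  rw [Pi.smul_apply, smul_eq_mul]
  by_cases h : ∃ q ∈ K ⊔ K', y = q * (x * x') * q⁻¹
  · obtain ⟨q, hq, rfl⟩ := h
    rw [hinv q hq]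
    have : clsum F (K ⊔ K') (x * x') (q * (x * x') * q⁻¹) = 1 := by
      unfold clsum; rw [if_pos ⟨q, hq, rfl⟩]
    rw [this, mul_one]
  · have h0 : clsum F (K ⊔ K') (x * x') y = 0 := by
      unfold clsum; rw [if_neg h]
    rw [h0, mul_zero]
    unfold mulF
    rw [finsum_eq_sum_of_fintype]
    refine Finset.sum_eq_zero fun t _ => ?_
    by_cases h1 : ∃ k ∈ K, t = k * x * k⁻¹
    · by_cases h2 : ∃ k ∈ K', t⁻¹ * y = k * x' * k⁻¹
      · exfalso
        obtain ⟨k, hk, rfl⟩ := h1
        obtain ⟨k', hk', h3⟩ := h2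
        apply h
        refine ⟨k * k', Subgroup.mul_mem_sup hk hk', ?_⟩
        have h4 : y = (k * x * k⁻¹) * (k' * x' * k'⁻¹) := by rw [← h3]; group
        rw [h4]
        have a1 : k⁻¹ * k' = k' * k⁻¹ := hc _ (K.inv_mem hk) _ hk'
        have a2 : x * k' = k' * x := hc _ hx _ hk'
        have a3 : k⁻¹ * x' = x' * k⁻¹ := hc _ (K.inv_mem hk) _ hx'
        have a4 : k⁻¹ * k'⁻¹ = k'⁻¹ * k⁻¹ := hc _ (K.inv_mem hk) _ (K'.inv_mem hk')
        calc (k * x * k⁻¹) * (k' * x' * k'⁻¹) = k * x * (k⁻¹ * k') * x' * k'⁻¹ := by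
              simp only [mul_assoc]
          _ = k * (x * k') * (k⁻¹ * x') * k'⁻¹ := by rw [a1]; simp only [mul_assoc]
          _ = k * (k' * x) * (x' * k⁻¹) * k'⁻¹ := by rw [a2, a3]
          _ = k * k' * (x * x') * (k⁻¹ * k'⁻¹) := by simp only [mul_assoc]
          _ = k * k' * (x * x') * (k'⁻¹ * k⁻¹) := by rw [a4]
          _ = k * k' * (x * x') * (k * k')⁻¹ := by rw [mul_inv_rev]
      · have : clsum F K' x' (t⁻¹ * y) = 0 := by unfold clsum; rw [if_neg h2]
        rw [this, mul_zero]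
    · have : clsum F K x t = 0 := by unfold clsum; rw [if_neg h1]
      rw [this, zero_mul]

theorem pck_mul {ℓ : ℕ} (hℓ : ℓ.Prime) {K K' : Subgroup Y}
    (hc : ∀ x ∈ K, ∀ y ∈ K', x * y = y * x) (hZ : ¬ ℓ ∣ Nat.card (K ⊓ K' : Subgroup Y))
    {a b : Y → F} (ha : a ∈ PCK F ℓ K) (hb : b ∈ PCK F ℓ K') : mulF a b ∈ PCK F ℓ (K ⊔ K') := by
  unfold PCK at ha
  induction ha using Submodule.span_induction with
  | zero => rw [mulF_zero_left]; exact Submodule.zero_mem _
  | add f g _ _ hf hg => rw [mulF_add_left]; exact Submodule.add_mem _ hf hg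
  | smul c f _ hf => rw [mulF_smul_left]; exact Submodule.smul_mem _ c hf
  | mem f hf =>
    obtain ⟨x, hx, hd, rfl⟩ := hf
    unfold PCK at hb
    induction hb using Submodule.span_induction with
    | zero => rw [mulF_zero_right]; exact Submodule.zero_mem _
    | add f g _ _ hf hg => rw [mulF_add_right]; exact Submodule.add_mem _ hf hg
    | smul c f _ hf => rw [mulF_smul_right]; exact Submodule.smul_mem _ c hf
    | mem f hf =>
      obtain ⟨x', hx', hd', rfl⟩ := hf
      obtain ⟨c, hc'⟩ := clsum_mul_clsum (F := F) hc hx hx'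
      rw [hc']
      refine Submodule.smul_mem _ c (Submodule.subset_span ⟨x * x', Subgroup.mul_mem_sup hx hx',
        card_cent_sup hℓ hc hZ hx hx' hd hd', rfl⟩)

theorem ext0_mem_pck {ℓ : ℕ} {K : Subgroup Y} {b : K → F} (hb : DZ ℓ b) :
    ext0 K b ∈ PCK F ℓ K := by
  unfold DZ at hb
  induction hb using Submodule.span_induction with
  | zero => rw [AWR.H39.ext0_zero]; exact Submodule.zero_mem _
  | add f g _ _ hf hg => rw [H46.ext0_add]; exact Submodule.add_mem _ hf hg
  | smul c f _ hf =>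
    have : ext0 K (c • f) = c • ext0 K f := by
      funext x
      change _ = c • (ext0 K f x)
      unfold ext0
      by_cases h : x ∈ K
      · rw [dif_pos h, dif_pos h]; rfl
      · rw [dif_neg h, dif_neg h, smul_zero]
    rw [this]; exact Submodule.smul_mem _ c hf
  | mem f hf =>
    obtain ⟨x, hx, rfl⟩ := hf
    rw [ext0_clsum]
    refine Submodule.subset_span ⟨x, x.2, ?_, rfl⟩
    rw [← H94.card_cent]
    exact hx

/-- CMA (8.2, first half): if all the components have defect zero then `f` has defect zero. -/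
theorem cma {ℓ : ℕ} (hF : GoodF ℓ F) {I : Type} [Finite I] (K : I → Subgroup Y)
    (hc : ∀ i j, i ≠ j → ∀ x ∈ K i, ∀ y ∈ K j, x * y = y * x) (hsup : (⨆ i, K i) = ⊤)
    (hZ : ¬ ℓ ∣ Nat.card (Subgroup.center Y)) (f : Y → F) (hf : IsCl f) (f₁ : ∀ i, K i → F)
    (hff : ∀ i, mulF (ext0 (K i) (f₁ i)) f = f) (hDZ : ∀ i, DZ ℓ (f₁ i)) : DZ ℓ f := by
  classical
  have := Fintype.ofFinite I
  have hcs : ∀ (s : Finset I) (i : I), i ∉ s → ∀ x ∈ K i, ∀ y ∈ (⨆ j ∈ s, K j), x * y = y * x := by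
    intro s i hi x hx y hy
    have h1 : (⨆ j ∈ s, K j) ≤ Subgroup.centralizer ({x} : Set Y) := by
      refine iSup₂_le fun j hj z hz => ?_
      rw [Subgroup.mem_centralizer_singleton_iff]
      have hij : i ≠ j := fun h => hi (h ▸ hj)
      exact (hc i j hij x hx z hz).symm
    exact (Subgroup.mem_centralizer_singleton_iff.1 (h1 hy)).symm
  have key : ∀ s : Finset I, ∃ P ∈ PCK F ℓ (⨆ j ∈ s, K j), mulF P f = f := by
    intro s
    induction s using Finset.induction_on with
    | empty =>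
      refine ⟨dl F 1, ?_, H46.one_mulF f⟩
      rw [← H46.clsum_one (⨆ j ∈ (∅ : Finset I), K j)]
      refine Submodule.subset_span ⟨1, Subgroup.one_mem _, ?_, rfl⟩
      have : (⨆ j ∈ (∅ : Finset I), K j) = ⊥ := by simp
      rw [this, inf_bot_eq, Subgroup.card_bot]
      exact fun h => hF.prime.one_lt.ne' (Nat.dvd_one.1 h)
    | insert i s hi ih =>
      obtain ⟨P, hP, hPf⟩ := ih
      refine ⟨mulF (ext0 (K i) (f₁ i)) P, ?_, ?_⟩
      · rw [Finset.iSup_insert]
        refine pck_mul hF.prime (hcs s i hi) ?_ (ext0_mem_pck (hDZ i)) hP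
        intro hdvd
        apply hZ
        refine hdvd.trans (Subgroup.card_dvd_of_le ?_)
        rintro z ⟨hz1, hz2⟩
        rw [Subgroup.mem_center_iff]
        intro y
        have h1 : (⊤ : Subgroup Y) ≤ Subgroup.centralizer ({z} : Set Y) := by
          rw [← hsup]
          refine iSup_le fun j w hw => ?_
          rw [Subgroup.mem_centralizer_singleton_iff]
          by_cases hij : j = i
          · subst hij
            exact hcs s j hi w hw z hz2
          · exact hc j i hij w hw z hz1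
        exact Subgroup.mem_centralizer_singleton_iff.1 (h1 (Subgroup.mem_top y))
      · rw [mulF_assoc, hPf, hff]
  obtain ⟨P, hP, hPf⟩ := key Finset.univ
  have h1 : (⨆ j ∈ (Finset.univ : Finset I), K j) = ⊤ := by
    rw [← hsup]; simp
  rw [h1] at hP
  have h2 : PCK F ℓ (⊤ : Subgroup Y) = PC F ℓ Y := by
    unfold PCK PC
    congr 1
    ext g
    constructor
    · rintro ⟨x, _, hx, rfl⟩
      rw [inf_top_eq] at hx
      exact ⟨x, hx, rfl⟩
    · rintro ⟨x, hx, rfl⟩
      exact ⟨x, Subgroup.mem_top x, by rwa [inf_top_eq], rfl⟩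
  rw [h2] at hP
  have h3 := pc_mul hF.char hP hf
  rw [hPf] at h3
  exact h3

end alg

end Pool.Agent.PP.H87
end
end -- Pool.Agent.Helper87_PP.Cma

section -- Pool.Agent.Helper87_PP.Cmc

/-!
# Squad PP, modules CM1 and CM2 (AWC_J, 8.2 and 8.3)
-/

open scoped BigOperators

noncomputable section

namespace Pool.Agent.PP.H87

open Pool.Agent.Helper51_AWC Pool.Agent.Helper79_WRA Pool.Agent.PP Pool.Agent.AWR.H39

section transport

variable {F : Type} [Field F]

/-- defect zero is preserved by isomorphisms -/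
theorem dz_equiv {ℓ : ℕ} {N N' : Type} [Group N] [Group N'] (θ : N ≃* N') {b : N → F}
    (hb : DZ ℓ b) : DZ ℓ (fun t : N' => b (θ.symm t)) := by
  have key : ∀ x : N, (fun t : N' => clsum F ⊤ x (θ.symm t)) = clsum F ⊤ (θ x) := by
    intro x
    classical
    funext t
    unfold clsum
    have e : (∃ q ∈ (⊤ : Subgroup N), θ.symm t = q * x * q⁻¹) ↔
        ∃ q ∈ (⊤ : Subgroup N'), t = q * θ x * q⁻¹ := by
      constructor
      · rintro ⟨q, _, h⟩
        refine ⟨θ q, Subgroup.mem_top _, ?_⟩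
        rw [← map_inv, ← map_mul, ← map_mul, ← h, θ.apply_symm_apply]
      · rintro ⟨q, _, h⟩
        refine ⟨θ.symm q, Subgroup.mem_top _, ?_⟩
        rw [h, map_mul, map_mul, map_inv, θ.symm_apply_apply]
    by_cases h : ∃ q ∈ (⊤ : Subgroup N), θ.symm t = q * x * q⁻¹
    · rw [if_pos h, if_pos (e.1 h)]
    · rw [if_neg h, if_neg (fun hh => h (e.2 hh))]
  unfold DZ at hb ⊢
  induction hb using Submodule.span_induction with
  | zero => exact Submodule.zero_mem _
  | add f g _ _ hf hg => exact Submodule.add_mem _ hf hg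
  | smul c f _ hf => exact Submodule.smul_mem _ c hf
  | mem f hf =>
    obtain ⟨x, hx, rfl⟩ := hf
    rw [key]
    refine Submodule.subset_span ⟨θ x, ?_, rfl⟩
    have : Nat.card (Subgroup.centralizer ({θ x} : Set N')) =
        Nat.card (Subgroup.centralizer ({x} : Set N)) := by
      refine Nat.card_congr
        { toFun := fun c => ⟨θ.symm c, ?_⟩
          invFun := fun c => ⟨θ c, ?_⟩
          left_inv := fun c => Subtype.ext (θ.apply_symm_apply _)
          right_inv := fun c => Subtype.ext (θ.symm_apply_apply _) }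
      · have := Subgroup.mem_centralizer_singleton_iff.1 c.2
        refine Subgroup.mem_centralizer_singleton_iff.2 ?_
        have h := congrArg θ.symm this
        rwa [map_mul, map_mul, θ.symm_apply_apply] at h
      · have := Subgroup.mem_centralizer_singleton_iff.1 c.2
        refine Subgroup.mem_centralizer_singleton_iff.2 ?_
        rw [← map_mul, ← map_mul, this]
    rwa [this]

variable {Y : Type} [Group Y] [Finite Y]

/-- products and automorphisms -/
theorem mulF_comp (φ : MulAut Y) (a b : Y → F) :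
    mulF (fun y => a (φ y)) (fun y => b (φ y)) = fun y => mulF a b (φ y) := by
  funext y
  have := Fintype.ofFinite Y
  unfold mulF
  rw [finsum_eq_sum_of_fintype, finsum_eq_sum_of_fintype]
  refine Eq.trans ?_ (Equiv.sum_comp φ.toEquiv (fun t => a t * b (t⁻¹ * φ y)))
  refine Finset.sum_congr rfl fun t _ => ?_
  change a (φ t) * b (φ (t⁻¹ * y)) = a (φ t) * b ((φ t)⁻¹ * φ y)
  rw [map_mul, map_inv]

/-- transport of a block of a subgroup along an automorphism -/
theorem transport_blk {ℓ : ℕ} (φ : MulAut Y) {f : Y → F} (hf : ∀ y, f (φ y) = f y)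
    {K K' : Subgroup Y} (h : K.map φ.toMonoidHom = K') {b : K → F}
    (hb : mulF (ext0 K b) f = f) (hDZ : DZ ℓ b) :
    ∃ b' : K' → F, mulF (ext0 K' b') f = f ∧ DZ ℓ b' := by
  classical
  subst h
  refine ⟨fun t => b ((φ.subgroupMap K).symm t), ?_, dz_equiv (φ.subgroupMap K) hDZ⟩
  have e1 : ext0 (K.map φ.toMonoidHom) (fun t => b ((φ.subgroupMap K).symm t)) =
      fun y => ext0 K b (φ⁻¹ y) := by
    funext y
    unfold ext0
    by_cases hy : φ⁻¹ y ∈ K
    · have hy' : y ∈ K.map φ.toMonoidHom := ⟨φ⁻¹ y, hy, MulAut.apply_inv_self (M := Y) φ y⟩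
      rw [dif_pos hy, dif_pos hy']
      congr 1
    · have hy' : y ∉ K.map φ.toMonoidHom := by
        rintro ⟨k, hk, rfl⟩
        apply hy
        have : φ⁻¹ (φ.toMonoidHom k) = k := MulAut.inv_apply_self (M := Y) φ k
        rw [this]; exact hk
      rw [dif_neg hy, dif_neg hy']
  have e2 : f = fun y => f (φ⁻¹ y) := by
    funext y
    have := hf (φ⁻¹ y)
    rw [MulAut.apply_inv_self] at this
    exact this
  rw [e1]
  conv_lhs => rw [e2]
  rw [mulF_comp, hb]
  exact e2.symm

/-- CMB (8.2, first half): if the components are permuted transitively by automorphisms fixing `f`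
and `f` does not have defect zero then no component has defect zero. -/
theorem cmb {ℓ : ℕ} (hF : GoodF ℓ F) {I : Type} [Finite I] (K : I → Subgroup Y)
    (hc : ∀ i j, i ≠ j → ∀ x ∈ K i, ∀ y ∈ K j, x * y = y * x) (hsup : (⨆ i, K i) = ⊤)
    (hZ : ¬ ℓ ∣ Nat.card (Subgroup.center Y)) (f : Y → F) (hf : IsCl f) (hDZ : ¬ DZ ℓ f)
    (htr : ∀ i j, ∃ φ : MulAut Y, (∀ y, f (φ y) = f y) ∧ (K i).map φ.toMonoidHom = K j)
    (i : I) (f₁ : K i → F) (hff : mulF (ext0 (K i) f₁) f = f) : ¬ DZ ℓ f₁ := by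
  intro h1
  apply hDZ
  have key : ∀ j, ∃ b' : K j → F, mulF (ext0 (K j) b') f = f ∧ DZ ℓ b' := by
    intro j
    obtain ⟨φ, hφ, hm⟩ := htr i j
    exact transport_blk φ hφ hm hff h1
  choose g hg hgDZ using key
  exact cma hF K hc hsup hZ f hf g hg hgDZ

end transport

section coeff

variable {F : Type} [Field F]

open Classical in
/-- a class function is a combination of class sums -/
theorem cl_expand {K : Type} [Group K] [Finite K] [Fintype (ConjClasses K)] {b : K → F}
    (hb : IsCl b) : b = ∑ C : ConjClasses K, b (Quotient.out C) • clsum F ⊤ (Quotient.out C) := by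
  funext x
  rw [Finset.sum_apply]
  have h1 : IsConj x (Quotient.out (ConjClasses.mk x)) :=
    ConjClasses.mk_eq_mk_iff_isConj.1 (Quotient.out_eq (ConjClasses.mk x)).symm
  have h2 : ∀ C : ConjClasses K, (b (Quotient.out C) • clsum F ⊤ (Quotient.out C)) x =
      if C = ConjClasses.mk x then b x else 0 := by
    intro C
    rw [Pi.smul_apply, smul_eq_mul]
    by_cases hC : C = ConjClasses.mk x
    · subst hC
      obtain ⟨y, hy⟩ := isConj_iff.1 h1
      have e1 : clsum F ⊤ (Quotient.out (ConjClasses.mk x)) x = 1 := by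
        unfold clsum
        rw [if_pos]
        exact ⟨y⁻¹, Subgroup.mem_top _, by rw [← hy]; group⟩
      rw [if_pos rfl, e1, mul_one, ← hy, hb]
    · have e1 : clsum F ⊤ (Quotient.out C) x = 0 := by
        unfold clsum
        rw [if_neg]
        rintro ⟨q, _, hq⟩
        apply hC
        rw [← Quotient.out_eq C]
        exact ConjClasses.mk_eq_mk_iff_isConj.2 (isConj_iff.2 ⟨q, hq.symm⟩)
      rw [if_neg hC, e1, mul_zero]
  rw [Finset.sum_congr rfl fun C _ => h2 C, Finset.sum_ite_eq']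
  simp

/-- a class function not of defect zero has a coefficient at a class of positive defect -/
theorem exists_coeff {ℓ : ℕ} {K : Type} [Group K] [Finite K] {b : K → F} (hb : IsCl b)
    (h : ¬ DZ ℓ b) :
    ∃ x : K, b x ≠ 0 ∧ ℓ ∣ Nat.card (Subgroup.centralizer ({x} : Set K)) := by
  by_contra hcon
  push Not at hcon
  apply h
  have := Fintype.ofFinite (ConjClasses K)
  unfold DZ
  rw [cl_expand hb]
  refine Submodule.sum_mem _ fun C _ => ?_
  by_cases hC : b (Quotient.out C) = 0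
  · rw [hC, zero_smul]; exact Submodule.zero_mem _
  · exact Submodule.smul_mem _ _ (Submodule.subset_span ⟨_, hcon _ hC, rfl⟩)

/-- central elements of order prime to `ℓ` act on blocks by scalars -/
theorem central_scalar {ℓ : ℕ} (hF : GoodF ℓ F) {K : Type} [Group K] [Finite K] {b : K → F}
    (hb : IsBlk b) {z : K} (hz : ∀ g, z * g = g * z) {m : ℕ} (hm : z ^ m = 1)
    (hml : ¬ ℓ ∣ m) : ∃ c : F, ∀ h, b (z⁻¹ * h) = c * b h := by
  classical
  have hchar := hF.char
  have hm0 : (m : F) ≠ 0 := by rwa [Ne, CharP.cast_eq_zero_iff F ℓ]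
  -- an irreducible representation on which `b` does not vanish
  obtain ⟨n, ρ, hρ, hρb⟩ : ∃ (n : ℕ) (ρ : K →* Matrix (Fin n) (Fin n) F), IsIrr ρ ∧
      ev ρ b ≠ 0 := by
    by_contra hcon
    push Not at hcon
    obtain ⟨k, hk⟩ := H20.ibn ℓ F hF K b (fun n ρ hρ => hcon n ρ hρ)
    have h1 : ∀ k, (mulF b)^[k] b = b := by
      intro k
      induction k with
      | zero => rfl
      | succ k ih => rw [Function.iterate_succ_apply', ih, hb.1.2]
    rw [h1] at hk
    exact hb.2.1 hk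
  have hev : ∀ a : K → F, ev ρ a = repA ρ (ma a) := fun a => ev_eq ρ a
  -- the scalar
  have hcl : IsCl (dl F z) := by
    intro x y
    unfold dl
    have : y * x * y⁻¹ = z ↔ x = z := by
      constructor
      · intro h
        have : x = y⁻¹ * (y * x * y⁻¹) * y := by group
        rw [this, h, mul_assoc, hz y]; group
      · rintro rfl
        rw [← hz y]; group
    by_cases h : x = z
    · rw [if_pos h, if_pos (this.2 h)]
    · rw [if_neg h, if_neg (fun hh => h (this.1 hh))]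
  obtain ⟨c, hc, -, -⟩ := H20.eig F K n ρ hρ (dl F z) hcl
  have hρz : ρ z = Matrix.scalar (Fin n) c := by
    rw [← hc, hev, ma_dl, repA_single, one_smul]
  have hcm : c ^ m = 1 := by
    have h1 : ρ (z ^ m) = 1 := by rw [hm, map_one]
    rw [map_pow, hρz, ← map_pow] at h1
    have hn := hρ.1
    have h2 := congrFun (congrFun h1 ⟨0, hn⟩) ⟨0, hn⟩
    rw [Matrix.scalar_apply, Matrix.diagonal_apply_eq, Matrix.one_apply_eq] at h2
    exact h2
  have hc0 : c ≠ 0 := by
    rintro rfl
    have : m ≠ 0 := by rintro rfl; exact hml (dvd_zero _)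
    rw [zero_pow this] at hcm
    exact zero_ne_one hcm
  -- the idempotent
  set w : MonoidAlgebra F K := c⁻¹ • MonoidAlgebra.single z 1 with hw
  have hwc : w ∈ Subalgebra.center F (MonoidAlgebra F K) := by
    rw [hw, ← ma_dl]
    exact Subalgebra.smul_mem _ ((isCl_iff _).1 hcl) _
  have hsm : ∀ j : ℕ, (MonoidAlgebra.single z (1 : F) : MonoidAlgebra F K) ^ j =
      MonoidAlgebra.single (z ^ j) 1 := by
    intro j
    rw [MonoidAlgebra.single_pow, one_pow]
  have hwm : w ^ m = 1 := by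
    rw [hw, smul_pow, hsm, hm, inv_pow, hcm, inv_one, one_smul]
    rfl
  set E : MonoidAlgebra F K := (m : F)⁻¹ • ∑ j ∈ Finset.range m, w ^ j with hE
  have hwE : w * E = E := by
    rw [hE, mul_smul_comm, Finset.mul_sum]
    congr 1
    have h1 : ∑ j ∈ Finset.range m, w * w ^ j = ∑ j ∈ Finset.range m, w ^ (j + 1) :=
      Finset.sum_congr rfl fun j _ => (pow_succ' w j).symm
    rw [h1]
    have h2 := Finset.sum_range_succ' (fun j => w ^ j) m
    rw [Finset.sum_range_succ, hwm, pow_zero] at h2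
    exact (add_right_cancel h2).symm
  have hwjE : ∀ j : ℕ, w ^ j * E = E := by
    intro j
    induction j with
    | zero => rw [pow_zero, one_mul]
    | succ j ih => rw [pow_succ, mul_assoc, hwE, ih]
  have hEE : E * E = E := by
    conv_lhs => rw [hE]
    rw [smul_mul_assoc, Finset.sum_mul, Finset.sum_congr rfl fun j _ => hwjE j,
      Finset.sum_const, Finset.card_range, ← Nat.cast_smul_eq_nsmul F, smul_smul,
      inv_mul_cancel₀ hm0, one_smul]
  have hEc : E ∈ Subalgebra.center F (MonoidAlgebra F K) := by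
    rw [hE]
    exact Subalgebra.smul_mem _ (Subalgebra.sum_mem _ fun j _ => Subalgebra.pow_mem _ hwc j) _
  obtain ⟨e, he⟩ := ma_surjective (F := F) (H := K) E
  have heI : IsIdem e := by
    rw [isIdem_iff, he]; exact ⟨hEc, hEE⟩
  have hne : mulF b e ≠ 0 := by
    intro h0
    apply hρb
    have h1 : repA ρ w = 1 := by
      rw [hw, map_smul, repA_single, one_smul, hρz, ← map_one (Matrix.scalar (Fin n) : F →+* _)]
      have : c⁻¹ • Matrix.scalar (Fin n) c = Matrix.scalar (Fin n) (c⁻¹ * c) := by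
        rw [Matrix.scalar_apply, Matrix.scalar_apply]
        ext i j
        by_cases hij : i = j
        · subst hij; simp
        · simp [hij]
      rw [this, inv_mul_cancel₀ hc0]
    have h2 : repA ρ E = 1 := by
      rw [hE, map_smul, map_sum, Finset.sum_congr rfl fun j _ => by rw [map_pow, h1, one_pow],
        Finset.sum_const, Finset.card_range, ← Nat.cast_smul_eq_nsmul F, smul_smul,
        inv_mul_cancel₀ hm0, one_smul]
    have h3 : repA ρ (ma (mulF b e)) = repA ρ (ma b) := by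
      rw [ma_mul, he, map_mul, h2, mul_one]
    rw [hev, ← h3, h0, ma_zero, map_zero]
  have hbe : mulF b e = b := by
    rcases hb.2.2 e heI with h | h
    · exact h
    · exact absurd h hne
  refine ⟨c, fun h => ?_⟩
  have h1 : MonoidAlgebra.single z 1 * ma b = c • ma b := by
    have h2 : ma b = E * ma b := by
      conv_lhs => rw [← hbe, ma_mul, he]
      exact (Subalgebra.mem_center_iff.1 hEc (ma b))
    have h3 : MonoidAlgebra.single z 1 = c • w := by
      rw [hw, smul_smul, mul_inv_cancel₀ hc0, one_smul]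
    rw [h2, ← mul_assoc, h3, smul_mul_assoc, hwE, smul_mul_assoc]
  have h2 : mulF (dl F z) b = c • b := by
    apply ma_injective
    rw [ma_mul, ma_dl, ma_smul, h1]
  have h3 : mulF (dl F z) b h = b (z⁻¹ * h) := by
    have := Fintype.ofFinite K
    unfold mulF
    rw [finsum_eq_sum_of_fintype, Finset.sum_eq_single z]
    · unfold dl; rw [if_pos rfl, one_mul]
    · intro t _ ht
      unfold dl; rw [if_neg ht, zero_mul]
    · intro hh; exact absurd (Finset.mem_univ _) hh
  rw [← h3, h2]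
  rfl

variable {Y : Type} [Group Y] [Finite Y]

open Classical in
/-- coefficients of a product of functions on commuting subgroups -/
theorem coeff_prod {K K' : Subgroup Y} {a a' c : Y → F} (ha : ∀ t, t ∉ K → a t = 0)
    (ha' : ∀ t, t ∉ K' → a' t = 0)
    (hs : ∀ z ∈ K ⊓ K', ∀ h ∈ K, ∀ h' ∈ K', a (h * z⁻¹) * a' (z * h') = c z * (a h * a' h'))
    [Fintype Y] {h h' : Y} (hh : h ∈ K) (hh' : h' ∈ K') :
    mulF a a' (h * h') = (∑ z : Y, if z ∈ K ⊓ K' then c z else 0) * (a h * a' h') := by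
  unfold mulF
  rw [finsum_eq_sum_of_fintype, Finset.sum_mul,
    ← Equiv.sum_comp ((Equiv.inv Y).trans (Equiv.mulLeft h))]
  refine Finset.sum_congr rfl fun z _ => ?_
  have e1 : ((Equiv.inv Y).trans (Equiv.mulLeft h)) z = h * z⁻¹ := rfl
  have e2 : (h * z⁻¹)⁻¹ * (h * h') = z * h' := by group
  rw [e1, e2]
  by_cases hz : z ∈ K
  · by_cases hz' : z ∈ K'
    · rw [if_pos ⟨hz, hz'⟩]
      exact hs z ⟨hz, hz'⟩ h hh h' hh'
    · rw [if_neg (fun hcon => hz' hcon.2), zero_mul, ha' (z * h'), mul_zero]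
      intro hcon
      exact hz' ((Subgroup.mul_mem_cancel_right K' hh').1 hcon)
  · rw [if_neg (fun hcon => hz hcon.1), zero_mul, ha (h * z⁻¹), zero_mul]
    intro hcon
    have := (Subgroup.mul_mem_cancel_left K hh).1 hcon
    exact hz ((Subgroup.inv_mem_iff K).1 this)

/-- nonvanishing coefficients of a block of a central product -/
theorem coeff_ne {ℓ : ℕ} (hF : GoodF ℓ F) {K K' : Subgroup Y}
    (hc : ∀ x ∈ K, ∀ y ∈ K', x * y = y * x) (hsup : K ⊔ K' = ⊤)
    (hZ : ¬ ℓ ∣ Nat.card (Subgroup.center Y)) {f : Y → F} (hf : f ≠ 0) {f₁ : K → F}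
    {f₂ : K' → F} (h₁ : IsBlk f₁) (h₂ : IsBlk f₂)
    (hm : mulF (ext0 K f₁) (ext0 K' f₂) = f) :
    ∃ h' : K', ∀ h : K, f₁ h ≠ 0 → f (h * h') ≠ 0 := by
  classical
  have := Fintype.ofFinite Y
  obtain ⟨m, hmdef⟩ : ∃ m, m = Nat.card (Subgroup.center Y) := ⟨_, rfl⟩
  rw [← hmdef] at hZ
  have hcen : ∀ z ∈ K ⊓ K', z ∈ Subgroup.center Y := by
    rintro z ⟨hz1, hz2⟩
    rw [Subgroup.mem_center_iff]
    intro y
    obtain ⟨g, hg, g', hg', rfl⟩ := mem_sup_comm hc (hsup ▸ Subgroup.mem_top y)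
    calc g * g' * z = g * (g' * z) := by rw [mul_assoc]
      _ = g * (z * g') := by rw [hc z hz1 g' hg']
      _ = (g * z) * g' := by rw [mul_assoc]
      _ = (z * g) * g' := by rw [hc g hg z hz2]
      _ = z * (g * g') := by rw [mul_assoc]
  have hzm : ∀ z ∈ Subgroup.center Y, z ^ m = 1 := by
    intro z hz
    have := pow_card_eq_one' (G := Subgroup.center Y) (x := ⟨z, hz⟩)
    rw [hmdef]
    exact congrArg Subtype.val this
  -- scalars of the two factors
  have s1 : ∀ z : Y, ∃ c : F, z ∈ K ⊓ K' → ∀ h ∈ K, ext0 K f₁ (h * z⁻¹) = c * ext0 K f₁ h := by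
    intro z
    by_cases hz : z ∈ K ⊓ K'
    · have hzc := hcen z hz
      obtain ⟨c, hc'⟩ := central_scalar hF h₁ (z := (⟨z, hz.1⟩ : K)) (m := m)
        (fun g => Subtype.ext ((Subgroup.mem_center_iff.1 hzc g).symm))
        (Subtype.ext (hzm z hzc)) hZ
      refine ⟨c, fun _ h hh => ?_⟩
      have e1 : h * z⁻¹ = z⁻¹ * h := by
        have := Subgroup.mem_center_iff.1 (Subgroup.inv_mem _ hzc) h
        exact this
      have e2 : ext0 K f₁ (z⁻¹ * h) = f₁ ((⟨z, hz.1⟩ : K)⁻¹ * ⟨h, hh⟩) := by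
        unfold ext0
        rw [dif_pos (K.mul_mem (K.inv_mem hz.1) hh)]
        rfl
      have e3 : ext0 K f₁ h = f₁ ⟨h, hh⟩ := by unfold ext0; rw [dif_pos hh]
      rw [e1, e2, e3, hc']
    · exact ⟨0, fun h => absurd h hz⟩
  have s2 : ∀ z : Y, ∃ c : F, z ∈ K ⊓ K' → ∀ h ∈ K', ext0 K' f₂ (z * h) = c * ext0 K' f₂ h := by
    intro z
    by_cases hz : z ∈ K ⊓ K'
    · have hzc := Subgroup.inv_mem _ (hcen z hz)
      obtain ⟨c, hc'⟩ := central_scalar hF h₂ (z := (⟨z⁻¹, K'.inv_mem hz.2⟩ : K')) (m := m)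
        (fun g => Subtype.ext ((Subgroup.mem_center_iff.1 hzc g).symm))
        (Subtype.ext (hzm z⁻¹ hzc)) hZ
      refine ⟨c, fun _ h hh => ?_⟩
      have e2 : ext0 K' f₂ (z * h) = f₂ ((⟨z⁻¹, K'.inv_mem hz.2⟩ : K')⁻¹ * ⟨h, hh⟩) := by
        unfold ext0
        rw [dif_pos (K'.mul_mem hz.2 hh)]
        congr 1
        apply Subtype.ext
        change z * h = (z⁻¹)⁻¹ * h
        rw [inv_inv]
      have e3 : ext0 K' f₂ h = f₂ ⟨h, hh⟩ := by unfold ext0; rw [dif_pos hh]
      rw [e2, e3, hc']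
    · exact ⟨0, fun h => absurd h hz⟩
  choose c₁ hc₁ using s1
  choose c₂ hc₂ using s2
  have hprod : ∀ h ∈ K, ∀ h' ∈ K', f (h * h') =
      (∑ z : Y, if z ∈ K ⊓ K' then c₁ z * c₂ z else 0) * (ext0 K f₁ h * ext0 K' f₂ h') := by
    intro h hh h' hh'
    rw [← hm]
    refine coeff_prod (c := fun z => c₁ z * c₂ z) (fun t ht => H46.ext0_of_not_mem f₁ ht)
      (fun t ht => H46.ext0_of_not_mem f₂ ht) ?_ hh hh'
    intro z hz h hh h' hh'
    rw [hc₁ z hz h hh, hc₂ z hz h' hh']
    ring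
  have hS : (∑ z : Y, if z ∈ K ⊓ K' then c₁ z * c₂ z else 0) ≠ 0 := by
    intro h0
    apply hf
    funext y
    obtain ⟨g, hg, g', hg', rfl⟩ := mem_sup_comm hc (hsup ▸ Subgroup.mem_top y)
    rw [hprod g hg g' hg', h0, zero_mul]
    rfl
  obtain ⟨h', hh'⟩ : ∃ h' : K', f₂ h' ≠ 0 := by
    by_contra hcon
    push Not at hcon
    exact h₂.2.1 (funext hcon)
  refine ⟨h', fun h hh => ?_⟩
  rw [hprod h h.2 h' h'.2]
  have e1 : ext0 K f₁ (h : Y) = f₁ h := by
    unfold ext0; rw [dif_pos h.2]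
  have e2 : ext0 K' f₂ (h' : Y) = f₂ h' := by
    unfold ext0; rw [dif_pos h'.2]
  rw [e1, e2]
  exact mul_ne_zero hS (mul_ne_zero hh hh')

end coeff

/-- CMC (8.3): the group `X[f]` normalises the components which do not have defect zero. -/
def CmcStmt : Prop := ∀ (ℓ : ℕ) (F : Type) [Field F], GoodF ℓ F →
  ∀ (X : Type) [Group X] [Finite X] (Y : Subgroup X), Y.Normal → ∀ f : X → F, SBlk Y f →
  ∀ (I : Type) [Finite I] (K : I → Subgroup Y),
  (∀ i j, i ≠ j → ∀ x ∈ K i, ∀ y ∈ K j, x * y = y * x) → (⨆ i, K i) = ⊤ →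
  ¬ ℓ ∣ Nat.card (Subgroup.center Y) →
  (∀ (g : X) (i : I), ∃ j, ∀ k ∈ K i, ∃ t ∈ K j, (t : X) = g * k * g⁻¹) →
  ∀ (i : I) (f₁ : K i → F), BlkU (K i) (fun t : Y => f t) f₁ → ¬ DZ ℓ f₁ →
  ∀ g ∈ XF f Y, ∀ k ∈ K i, ∃ t ∈ K i, (t : X) = g * k * g⁻¹

theorem cmc (hfbk : FbkStmt) (hinn : InnStmt) : CmcStmt := by
  intro ℓ F _ hF X _ _ Y hY f hf I _ K hc hsup hZ hperm i f₁ hf₁ hDZ g hg
  classical
  obtain ⟨K', hK'⟩ : ∃ K', K' = ⨆ j, ⨆ (_ : j ≠ i), K j := ⟨_, rfl⟩
  have hcK : ∀ x ∈ K i, ∀ y ∈ K', x * y = y * x := by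
    intro x hx y hy
    have h1 : K' ≤ Subgroup.centralizer ({x} : Set Y) := by
      rw [hK']
      refine iSup₂_le fun j hj z hz => ?_
      rw [Subgroup.mem_centralizer_singleton_iff]
      exact hc j i hj z hz x hx
    exact (Subgroup.mem_centralizer_singleton_iff.1 (h1 hy)).symm
  have hsupK : K i ⊔ K' = ⊤ := by
    rw [eq_top_iff, ← hsup]
    refine iSup_le fun j => ?_
    by_cases hj : j = i
    · subst hj; exact le_sup_left
    · refine le_trans ?_ le_sup_right
      rw [hK']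
      exact le_iSup₂_of_le j hj le_rfl
  have hcK' : ∀ y ∈ K', ∀ x ∈ K i, y * x = x * y := fun y hy x hx => (hcK x hx y hy).symm
  have hfblk := hf.blk
  obtain ⟨-, -, h3⟩ := hfbk ℓ F hF Y (K i) K' hcK hsupK hZ _ hfblk
  obtain ⟨⟨f₂, hf₂⟩, -, -⟩ := hfbk ℓ F hF Y K' (K i) hcK' (by rw [sup_comm]; exact hsupK) hZ _ hfblk
  have hm := h3 f₁ f₂ hf₁ hf₂
  obtain ⟨h', hh'⟩ := coeff_ne hF hcK hsupK hZ hfblk.2.1 hf₁.1 hf₂.1 hm
  obtain ⟨h, hh, hdvd⟩ := exists_coeff hf₁.1.1.1 hDZ
  have hfact := Fact.mk hF.prime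
  obtain ⟨r, hr⟩ := exists_prime_orderOf_dvd_card' ℓ hdvd
  have hrh : (r : K i) * h = h * r := Subgroup.mem_centralizer_singleton_iff.1 r.2
  obtain ⟨s, hs⟩ : ∃ s : X, s = (((r : K i) : Y) : X) := ⟨_, rfl⟩
  have hso : orderOf s = ℓ := by
    rw [hs, Subgroup.orderOf_coe, Subgroup.orderOf_coe, Subgroup.orderOf_coe]
    exact hr
  have hsY : s ∈ Y := by rw [hs]; exact ((r : K i) : Y).2
  -- the local datum
  have hloc : Loc ℓ Y (Subgroup.zpowers s) (Subgroup.normalizer (Subgroup.zpowers s : Set X)) := by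
    refine ⟨?_, ?_, Subgroup.le_normalizer, ?_, le_rfl⟩
    · have : Nat.card (Subgroup.zpowers s) = ℓ ^ 1 := by
        rw [Nat.card_zpowers, hso, pow_one]
      exact IsPGroup.of_card this
    · rw [Subgroup.zpowers_le]; exact hsY
    · intro x hx
      rw [Subgroup.mem_normalizer_iff]
      intro y
      rw [Subgroup.mem_centralizer_iff] at hx
      constructor
      · intro hy
        have e1 := hx y hy
        have : x * y * x⁻¹ = y := by rw [← e1]; group
        rw [this]; exact hy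
      · intro hy
        have e1 := hx _ hy
        have : y = x * y * x⁻¹ := by
          have e2 : x⁻¹ * ((x * y * x⁻¹) * x) = x⁻¹ * (x * (x * y * x⁻¹)) := by rw [e1]
          have e3 : x⁻¹ * ((x * y * x⁻¹) * x) = y := by group
          have e4 : x⁻¹ * (x * (x * y * x⁻¹)) = x * y * x⁻¹ := by group
          rw [e3, e4] at e2
          exact e2
        rw [this]; exact hy
  have hbr : br (Subgroup.zpowers s) f ≠ 0 := by
    intro h0
    have h1 := hh' h hh
    apply h1
    have h2 := congrFun h0 (((h : Y) * (h' : Y) : Y) : X)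
    unfold br at h2
    rw [if_pos] at h2
    · exact h2
    · rw [Subgroup.mem_centralizer_iff]
      intro y hy
      obtain ⟨n, rfl⟩ := Subgroup.mem_zpowers_iff.1 hy
      have c1 : Commute s (((h : Y) * (h' : Y) : Y) : X) := by
        change s * _ = _ * s
        rw [hs]
        have e1 : ((r : K i) : Y) * ((h : Y) * (h' : Y)) = ((h : Y) * (h' : Y)) * ((r : K i) : Y) := by
          have e2 : ((r : K i) : Y) * (h : Y) = (h : Y) * ((r : K i) : Y) :=
            congrArg Subtype.val hrh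
          have e3 : ((r : K i) : Y) * (h' : Y) = (h' : Y) * ((r : K i) : Y) :=
            hcK _ (r : K i).2 _ h'.2
          rw [← mul_assoc, e2, mul_assoc, e3, mul_assoc]
        exact congrArg Subtype.val e1
      exact (c1.zpow_left n).eq
  obtain ⟨n, hn, hgn⟩ := (hinn ℓ F hF X Y hY f hf _ _ hloc hbr).1 g hg
  obtain ⟨j, hj⟩ := hperm g i
  -- the conjugate of `s`
  have hsn : ∃ t ∈ K i, (t : X) = n * s * n⁻¹ := by
    obtain ⟨a, ha, a', ha', hna⟩ := mem_sup_comm hcK (hsupK ▸ Subgroup.mem_top (⟨n, hn⟩ : Y))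
    refine ⟨a * (r : K i) * a⁻¹, (K i).mul_mem ((K i).mul_mem ha (r : K i).2) ((K i).inv_mem ha),
      ?_⟩
    have e1 : (⟨n, hn⟩ : Y) * ((r : K i) : Y) * (⟨n, hn⟩ : Y)⁻¹ = a * (r : K i) * a⁻¹ := by
      rw [hna]
      have e2 : ((r : K i) : Y) * a' = a' * ((r : K i) : Y) := hcK _ (r : K i).2 _ ha'
      calc a * a' * ((r : K i) : Y) * (a * a')⁻¹ = a * (a' * ((r : K i) : Y)) * (a * a')⁻¹ := by
            simp only [mul_assoc]
        _ = a * (((r : K i) : Y) * a') * (a * a')⁻¹ := by rw [e2]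
        _ = _ := by group
    rw [hs]
    exact (congrArg Subtype.val e1).symm
  obtain ⟨t, ht, hts⟩ := hsn
  obtain ⟨t', ht', hts'⟩ := hj t ht
  have hfix : (t' : X) = s := by
    rw [hts', hts]
    have h1 := (Subgroup.mem_centralizer_iff.1 hgn) s (Subgroup.mem_zpowers s)
    calc g * (n * s * n⁻¹) * g⁻¹ = (g * n * s) * (g * n)⁻¹ := by group
      _ = (s * (g * n)) * (g * n)⁻¹ := by rw [h1]
      _ = s := by group
  have ht'r : t' = ((r : K i) : Y) := Subtype.ext (by rw [hfix, hs])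
  have hij : j = i := by
    by_contra hne
    apply hZ
    have hrj : ((r : K i) : Y) ∈ K j := by rw [← ht'r]; exact ht'
    have hcen : ((r : K i) : Y) ∈ Subgroup.center Y := by
      rw [Subgroup.mem_center_iff]
      intro y
      have h1 : (⊤ : Subgroup Y) ≤ Subgroup.centralizer ({((r : K i) : Y)} : Set Y) := by
        rw [← hsup]
        refine iSup_le fun k w hw => ?_
        rw [Subgroup.mem_centralizer_singleton_iff]
        by_cases hk : k = i
        · subst hk
          exact hc k j (fun h => hne h.symm) w hw _ hrj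
        · exact hc k i hk w hw _ (r : K i).2
      exact Subgroup.mem_centralizer_singleton_iff.1 (h1 (Subgroup.mem_top y))
    have h2 : orderOf ((r : K i) : Y) = ℓ := by
      rw [Subgroup.orderOf_coe, Subgroup.orderOf_coe]; exact hr
    rw [← h2]
    exact Subgroup.orderOf_dvd_natCard _ hcen
  subst hij
  exact hj

end Pool.Agent.PP.H87
end
end -- Pool.Agent.Helper87_PP.Cmc

section -- Pool.Agent.Helper6_PP.ComC

/-!
# Squad PP, module COM: units and the final statement
-/

open scoped BigOperators commutatorElement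

set_option linter.unusedSectionVars false

noncomputable section

namespace Pool.Agent.PP.H6

open Pool.Agent.Helper51_AWC Pool.Agent.Helper79_WRA Pool.Agent.PP Pool.Agent.PP.H46
open Pool.Agent.AWR.H39

section unt

variable {F Y : Type} [Field F] [Group Y] [Finite Y]

theorem ma_dl_mul (g h : Y) : ma (dl F g) * ma (dl F h) = ma (dl F (g * h)) := by
  rw [ma_dl, ma_dl, ma_dl, MonoidAlgebra.single_mul_single, one_mul]

theorem ma_dl_one : ma (dl F (1 : Y)) = 1 := by
  rw [ma_dl]; rfl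

/-- the commutation rule of the inverse unit -/
theorem unt_comm {f : Y → F} (hf : IsCl f) {γ : MulAut Y} {w wi : Y → F} (hU : Unt f γ w wi) :
    ∀ n y : Y, wi (n * y * (γ⁻¹ n)⁻¹) = wi y := by
  obtain ⟨hfw, hfwi, hun, hun', hcm⟩ := hU
  have cW : ∀ n : Y, ma w * ma (dl F n) = ma (dl F (γ⁻¹ n)) * ma w := fun n =>
    (comm_iff w (γ⁻¹ n) n).1 (fun y => hcm n y)
  have mW : ma w * ma wi = ma f := by rw [← ma_mul, hun]
  have mW' : ma wi * ma w = ma f := by rw [← ma_mul, hun']
  have fV : ma f * ma wi = ma wi := by rw [← ma_mul, hfwi]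
  have Vf : ma wi * ma f = ma wi := by rw [← cl_ma hf, fV]
  intro n y
  refine (comm_iff wi n (γ⁻¹ n)).2 ?_ y
  calc ma wi * ma (dl F (γ⁻¹ n)) = ma wi * ma f * ma (dl F (γ⁻¹ n)) := by rw [Vf]
    _ = ma wi * ma (dl F (γ⁻¹ n)) * ma f := by
        rw [mul_assoc, cl_ma hf, ← mul_assoc]
    _ = ma wi * (ma (dl F (γ⁻¹ n)) * ma w) * ma wi := by
        rw [← mW]; simp only [mul_assoc]
    _ = (ma wi * ma w) * ma (dl F n) * ma wi := by
        rw [← cW]; simp only [mul_assoc]
    _ = ma (dl F n) * (ma f * ma wi) := by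
        rw [mW', cl_ma hf, mul_assoc]
    _ = ma (dl F n) * ma wi := by rw [fV]

end unt

section unit

variable {F G : Type} [Field F] [Group G] [Finite G] {N : Subgroup G}

/-- a unit over `g` gives a unit of the block algebra -/
theorem unit_unt [hN : N.Normal] {b : N → F} (hcl : IsCl (ext0 N b)) {g : G} {u u' : G → F}
    (hu : IsUnitOver (ext0 N b) N g u u') (hu' : mulF u' u = ext0 N b) :
    Unt b (MulAut.conjNormal g) (fun t : N => u (g * t)) (fun t : N => u' (t * g⁻¹)) := by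
  obtain ⟨hL, hR, hm⟩ := hu
  set f := ext0 N b with hf
  set w : N → F := fun t => u (g * t) with hw
  set v : N → F := fun t => u' (t * g⁻¹) with hv
  have D1 : ma (dl F g) * ma (dl F g⁻¹) = 1 := by rw [ma_dl_mul, mul_inv_cancel, ma_dl_one]
  have D2 : ma (dl F g⁻¹) * ma (dl F g) = 1 := by rw [ma_dl_mul, inv_mul_cancel, ma_dl_one]
  have hW : ma (dl F g) * ma (ext0 N w) = ma u := by
    rw [← ma_mul]
    congr 1
    funext x
    rw [dl_mulF]
    by_cases hx : g⁻¹ * x ∈ N
    · rw [ext0_of_mem _ hx]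
      change u (g * (g⁻¹ * x)) = u x
      congr 1
      group
    · rw [ext0_of_not_mem _ hx, hL.supp x hx]
  have hV : ma (ext0 N v) * ma (dl F g⁻¹) = ma u' := by
    rw [← ma_mul]
    congr 1
    funext x
    rw [mulF_dl, inv_inv]
    by_cases hx : x * g ∈ N
    · rw [ext0_of_mem _ hx]
      change u' (x * g * g⁻¹) = u' x
      congr 1
      group
    · rw [ext0_of_not_mem _ hx, hR.supp x]
      intro h
      apply hx
      have := hN.conj_mem _ h g⁻¹
      have e : g⁻¹ * (g⁻¹⁻¹ * x) * g⁻¹⁻¹ = x * g := by group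
      rwa [e] at this
  have hW' : ma (ext0 N w) = ma (dl F g⁻¹) * ma u := by
    rw [← hW, ← mul_assoc, D2, one_mul]
  have hV' : ma (ext0 N v) = ma u' * ma (dl F g) := by
    rw [← hV, mul_assoc, D2, mul_one]
  have fU : ma f * ma u = ma u := by rw [← ma_mul, hL.abs]
  have fU' : ma f * ma u' = ma u' := by rw [← ma_mul, hR.abs]
  have UU : ma u * ma u' = ma f := by rw [← ma_mul, hm]
  have UU' : ma u' * ma u = ma f := by rw [← ma_mul, hu']
  have fc := fun x : MonoidAlgebra F G => cl_ma hcl x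
  refine ⟨?_, ?_, ?_, ?_, ?_⟩
  · apply ext0_inj
    apply ma_injective
    rw [ext0_mul, ma_mul, ← hf, hW', ← mul_assoc, fc, mul_assoc, fU]
  · apply ext0_inj
    apply ma_injective
    rw [ext0_mul, ma_mul, ← hf, hV', ← mul_assoc, fU']
  · apply ext0_inj
    apply ma_injective
    rw [ext0_mul, ma_mul, ← hf, hV', hW']
    calc ma (dl F g⁻¹) * ma u * (ma u' * ma (dl F g)) =
        ma (dl F g⁻¹) * (ma u * ma u') * ma (dl F g) := by simp only [mul_assoc]
      _ = ma f * (ma (dl F g⁻¹) * ma (dl F g)) := by rw [UU, ← fc, mul_assoc]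
      _ = ma f := by rw [D2, mul_one]
  · apply ext0_inj
    apply ma_injective
    rw [ext0_mul, ma_mul, ← hf, hV', hW']
    calc ma u' * ma (dl F g) * (ma (dl F g⁻¹) * ma u) =
        ma u' * (ma (dl F g) * ma (dl F g⁻¹)) * ma u := by simp only [mul_assoc]
      _ = ma f := by rw [D1, mul_one, UU']
  · intro n y
    change u (g * (((MulAut.conjNormal g)⁻¹ n * y * n⁻¹ : N) : G)) = u (g * y)
    have h1 := hL.inv n n.2 (g * y)
    rw [← h1]
    congr 1
    rw [← map_inv, Subgroup.coe_mul, Subgroup.coe_mul, MulAut.conjNormal_apply, Subgroup.coe_inv]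
    group

theorem bx_mul {A : Subgroup G} (a c : A.subgroupOf N → F) :
    bx N A (mulF a c) = mulF (bx N A a) (bx N A c) := by
  unfold bx
  rw [ext0_mul, ext0_mul]

/-- a unit of the block algebra gives a unit over `g` in the normaliser -/
theorem unt_unit [hN : N.Normal] {A : Subgroup G} (hA : A ≤ N) {f₁ : A.subgroupOf N → F}
    (hf₁ : IsCl f₁)
    (hcl : ∀ g ∈ Subgroup.normalizer (A : Set G), ∀ x, bx N A f₁ (g * x * g⁻¹) = bx N A f₁ x)
    {g : G} (hg : g ∈ Subgroup.normalizer (A : Set G)) {w v : A.subgroupOf N → F}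
    (hU : Unt f₁ (conjE hg) w v) :
    IsUnitOver (fun t : Subgroup.normalizer (A : Set G) => bx N A f₁ t)
      (A.subgroupOf (Subgroup.normalizer (A : Set G))) ⟨g, hg⟩
      (fun t : Subgroup.normalizer (A : Set G) => mulF (dl F g) (bx N A w) t)
      (fun t : Subgroup.normalizer (A : Set G) => mulF (bx N A v) (dl F g⁻¹) t) := by
  set T := Subgroup.normalizer (A : Set G) with hT
  have hAT : A ≤ T := Subgroup.le_normalizer
  have hv' := unt_comm hf₁ hU
  obtain ⟨hfw, hfv, hun, hun', hcm⟩ := hU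
  have hgc : ∀ {x : G}, x ∈ A → g⁻¹ * x * g ∈ A := by
    intro x hx
    have := (Subgroup.mem_normalizer_iff.1 (inv_mem hg) x).1 hx
    rwa [inv_inv] at this
  have hgc' : ∀ {x : G}, g⁻¹ * x * g ∈ A → x ∈ A := by
    intro x hx
    have := (Subgroup.mem_normalizer_iff.1 hg _).1 hx
    have e : g * (g⁻¹ * x * g) * g⁻¹ = x := by group
    rwa [e] at this
  have hcoe : ∀ n : A.subgroupOf N, ((((conjE hg)⁻¹ n : A.subgroupOf N) : N) : G) =
      g⁻¹ * ((n : N) : G) * g := by
    intro n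
    change ((MulAut.conjNormal g⁻¹ (n : N) : N) : G) = _
    rw [MulAut.conjNormal_apply, inv_inv]
  -- the rules in `G`
  have kW : ∀ n ∈ A, ∀ y : G, bx N A w (g⁻¹ * n * g * y * n⁻¹) = bx N A w y := by
    intro n hn y
    by_cases hy : y ∈ A
    · have h1 : g⁻¹ * n * g * y * n⁻¹ ∈ A := A.mul_mem (A.mul_mem (hgc hn) hy) (A.inv_mem hn)
      rw [bx_mem hA _ hy, bx_mem hA _ h1]
      have h2 := hcm ⟨⟨n, hA hn⟩, Subgroup.mem_subgroupOf.2 hn⟩
        ⟨⟨y, hA hy⟩, Subgroup.mem_subgroupOf.2 hy⟩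
      rw [← h2]
      congr 1
      apply Subtype.ext
      apply Subtype.ext
      change g⁻¹ * n * g * y * n⁻¹ = ((((conjE hg)⁻¹
        (⟨⟨n, hA hn⟩, Subgroup.mem_subgroupOf.2 hn⟩ : A.subgroupOf N) : A.subgroupOf N) : N) : G) *
          y * n⁻¹
      rw [hcoe]
    · have h1 : g⁻¹ * n * g * y * n⁻¹ ∉ A := by
        intro h
        apply hy
        have h3 := A.mul_mem (A.mul_mem (A.inv_mem (hgc hn)) h) hn
        have e : (g⁻¹ * n * g)⁻¹ * (g⁻¹ * n * g * y * n⁻¹) * n = y := by group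
        rwa [e] at h3
      rw [bx_not _ hy, bx_not _ h1]
  have kV : ∀ n ∈ A, ∀ y : G, bx N A v (n * y * (g⁻¹ * n * g)⁻¹) = bx N A v y := by
    intro n hn y
    by_cases hy : y ∈ A
    · have h1 : n * y * (g⁻¹ * n * g)⁻¹ ∈ A := A.mul_mem (A.mul_mem hn hy) (A.inv_mem (hgc hn))
      rw [bx_mem hA _ hy, bx_mem hA _ h1]
      have h2 := hv' ⟨⟨n, hA hn⟩, Subgroup.mem_subgroupOf.2 hn⟩
        ⟨⟨y, hA hy⟩, Subgroup.mem_subgroupOf.2 hy⟩
      rw [← h2]
      congr 1
      apply Subtype.ext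
      apply Subtype.ext
      change n * y * (g⁻¹ * n * g)⁻¹ = n * y * ((((conjE hg)⁻¹
        (⟨⟨n, hA hn⟩, Subgroup.mem_subgroupOf.2 hn⟩ : A.subgroupOf N) : A.subgroupOf N) : N) : G)⁻¹
      rw [hcoe]
    · have h1 : n * y * (g⁻¹ * n * g)⁻¹ ∉ A := by
        intro h
        apply hy
        have h3 := A.mul_mem (A.mul_mem (A.inv_mem hn) h) (hgc hn)
        have e : n⁻¹ * (n * y * (g⁻¹ * n * g)⁻¹) * (g⁻¹ * n * g) = y := by group
        rwa [e] at h3
      rw [bx_not _ hy, bx_not _ h1]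
  set B := bx N A f₁ with hB
  set W := bx N A w with hW
  set V := bx N A v with hV
  have D1 : ma (dl F g) * ma (dl F g⁻¹) = 1 := by rw [ma_dl_mul, mul_inv_cancel, ma_dl_one]
  have BW : ma B * ma W = ma W := by rw [← ma_mul, hB, hW, ← bx_mul, hfw]
  have BV : ma B * ma V = ma V := by rw [← ma_mul, hB, hV, ← bx_mul, hfv]
  have WV : ma W * ma V = ma B := by rw [← ma_mul, hW, hV, ← bx_mul, hun]
  have BD : ma B * ma (dl F g) = ma (dl F g) * ma B := (comm_iff B g g).1 (hcl g hg)
  have hBs : ∀ t, t ∉ T → B t = 0 := fun t ht => bx_not _ (fun h => ht (hAT h))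
  have hUs : ∀ t, t ∉ T → mulF (dl F g) W t = 0 := by
    intro t ht
    rw [dl_mulF]
    apply bx_not
    intro h
    apply ht
    have := T.mul_mem hg (hAT h)
    rwa [mul_inv_cancel_left] at this
  refine ⟨⟨?_, ?_, ?_⟩, ⟨?_, ?_, ?_⟩, ?_⟩
  · intro h hh
    rw [dl_mulF]
    apply bx_not
    intro h1
    exact hh (Subgroup.mem_subgroupOf.2 h1)
  · intro n hn h
    change mulF (dl F g) W ((n : G) * h * (n : G)⁻¹) = mulF (dl F g) W (h : G)
    rw [dl_mulF, dl_mulF]
    have h1 := kW n (Subgroup.mem_subgroupOf.1 hn) (g⁻¹ * h)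
    rw [← h1]
    congr 1
    group
  · rw [← H66.mulF_sub hBs]
    have e : mulF B (mulF (dl F g) W) = mulF (dl F g) W := by
      apply ma_injective
      rw [ma_mul, ma_mul, ← mul_assoc, BD, mul_assoc, BW]
    rw [e]
  · intro h hh
    rw [mulF_dl, inv_inv]
    apply bx_not
    intro h1
    apply hh
    rw [Subgroup.mem_subgroupOf]
    change ((g : G)⁻¹)⁻¹ * h ∈ A
    rw [inv_inv]
    apply hgc'
    have e : g⁻¹ * (g * (h : G)) * g = h * g := by group
    rw [e]
    exact h1
  · intro n hn h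
    change mulF V (dl F g⁻¹) ((n : G) * h * (n : G)⁻¹) = mulF V (dl F g⁻¹) (h : G)
    rw [mulF_dl, mulF_dl, inv_inv]
    have h1 := kV n (Subgroup.mem_subgroupOf.1 hn) (h * g)
    rw [← h1]
    congr 1
    group
  · rw [← H66.mulF_sub hBs]
    have e : mulF B (mulF V (dl F g⁻¹)) = mulF V (dl F g⁻¹) := by
      apply ma_injective
      rw [ma_mul, ma_mul, ← mul_assoc, BV]
    rw [e]
  · rw [← H66.mulF_sub hUs]
    have e : mulF (mulF (dl F g) W) (mulF V (dl F g⁻¹)) = B := by
      apply ma_injective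
      rw [ma_mul, ma_mul, ma_mul]
      calc ma (dl F g) * ma W * (ma V * ma (dl F g⁻¹)) =
          ma (dl F g) * (ma W * ma V) * ma (dl F g⁻¹) := by simp only [mul_assoc]
        _ = ma B * (ma (dl F g) * ma (dl F g⁻¹)) := by rw [WV, ← BD, mul_assoc]
        _ = ma B := by rw [D1, mul_one]
    rw [e]

end unit

end Pool.Agent.PP.H6
end
end -- Pool.Agent.Helper6_PP.ComC

section -- Pool.Agent.Helper6_PP.Com

/-!
# Squad PP, module COM: the final statement
-/

open scoped BigOperators commutatorElement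

set_option linter.unusedSectionVars false

noncomputable section

namespace Pool.Agent.PP.H6

open Pool.Agent.Helper51_AWC Pool.Agent.Helper79_WRA Pool.Agent.PP Pool.Agent.PP.H46
open Pool.Agent.AWR.H39

/-- COM: existence of the components. -/
theorem com (hibn : IbnStmt) (heig : EigStmt) (hinn : InnStmt) (hxfs : XfsStmt) : ComStmt := by
  intro ℓ hℓ F _ hF G _ _ N hch hO hnc hns b hb hst hDZ
  have h : IsChief (N ⊓ Subgroup.center G) N := isChief_of_chief hch
  have hN : N.Normal := hch.1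
  have hna : ¬ ⁅N, N⁆ ≤ N ⊓ Subgroup.center G := by
    intro hh
    obtain ⟨x, hx, y, hy, hxy⟩ := hnc
    apply hxy
    have h1 := hh (Subgroup.commutator_mem_commutator hx hy)
    rw [commutatorElement_def] at h1
    exact (Subgroup.mem_inf.1 h1).2
  have hfbk : FbkStmt := fbk hibn heig
  have hfcu : FcuStmt := fcu hibn heig
  have hcmc : H87.CmcStmt := H87.cmc hfbk hinn
  have hZ : ¬ ℓ ∣ Nat.card (Subgroup.center N) := center_card hO
  have hcl : IsCl (ext0 N b) := by
    intro x y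
    have h1 : y ∈ stabF (ext0 N b) := by rw [hst]; exact Subgroup.mem_top y
    exact h1 x
  have hbcl : IsCl b := hb.1.1
  have hco : (fun t : N => ext0 N b t) = b := by
    funext t
    exact ext0_of_mem _ t.2
  have hS : SBlk N (ext0 N b) := by
    refine ⟨fun x hx => ext0_of_not_mem _ hx, hcl, ?_⟩
    rw [hco]
    exact hb
  have hcomm : ∀ i j : CI N, i ≠ j → ∀ x ∈ (CK N i).subgroupOf N, ∀ y ∈ (CK N j).subgroupOf N,
      x * y = y * x := fun i j hij => sub_comm (ck_comm h hna i j hij)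
  have hsup : (⨆ i, (CK N i).subgroupOf N) = ⊤ := by
    rw [eq_top_iff]
    intro x _
    have h1 : N ≤ (⨆ i, (CK N i).subgroupOf N).map N.subtype := by
      conv_lhs => rw [← ck_sup h]
      apply iSup_le
      intro i y hy
      exact ⟨⟨y, ck_le i hy⟩,
        (le_iSup (fun i => (CK N i).subgroupOf N) i) (Subgroup.mem_subgroupOf.2 hy), rfl⟩
    obtain ⟨y, hy, hyx⟩ := h1 x.2
    have : y = x := Subtype.ext hyx
    rw [← this]
    exact hy
  have hbk : ∀ i : CI N, ∃ f₁ : (CK N i).subgroupOf N → F, BlkU ((CK N i).subgroupOf N) b f₁ :=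
    fun i => (hfbk ℓ F hF N ((CK N i).subgroupOf N) ((CO N i).subgroupOf N)
      (sub_comm (co_comm h hna i)) (sub_sup (ck_le i) (co_le i) (co_sup h i)) hZ b hb).1
  choose fK hfK using hbk
  have hstab : ∀ (i : CI N) {g : G}, g ∈ Subgroup.normalizer (CK N i : Set G) → ∀ x : G,
      bx N (CK N i) (fK i) (g * x * g⁻¹) = bx N (CK N i) (fK i) x := by
    intro i g hg x
    refine bx_cl hN (ck_le i) ?_ hb hst (hfK i) hg x
    intro f₁ f₂ b' hb'
    exact (hfbk ℓ F hF N ((CK N i).subgroupOf N) ((CO N i).subgroupOf N)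
      (sub_comm (co_comm h hna i)) (sub_sup (ck_le i) (co_le i) (co_sup h i)) hZ b' hb').2.1 f₁ f₂
  have hT : ∀ i : CI N, CK N i ≤ Subgroup.normalizer (CK N i : Set G) :=
    fun i => Subgroup.le_normalizer
  have hrew : ∀ i : CI N, (fun t : (CK N i).subgroupOf (Subgroup.normalizer (CK N i : Set G)) =>
      bx N (CK N i) (fK i) ((t : Subgroup.normalizer (CK N i : Set G)) : G)) =
      fun t => fK i (eqv (CK N i) N (Subgroup.normalizer (CK N i : Set G)) (ck_le i) (hT i) t) := by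
    intro i
    funext t
    rw [← eqv_coe (ck_le i) (hT i) t, bx_coe]
  have hposK : ∀ i : CI N, ¬ DZ ℓ (fK i) := by
    intro i
    refine H87.cmb hF (fun i => (CK N i).subgroupOf N) hcomm hsup hZ b hbcl hDZ ?_ i (fK i)
      (hfK i).2
    intro i j
    obtain ⟨g, hg⟩ := minAdm_transitive h hna i.2 j.2
    refine ⟨MulAut.conjNormal g, ?_, ?_⟩
    · intro y
      have h2 := hcl (y : G) g
      rw [ext0_of_mem _ y.2, ext0_of_mem _ (hN.conj_mem _ y.2 g)] at h2
      rw [← h2]
      congr 1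
    · ext y
      constructor
      · rintro ⟨x, hx, rfl⟩
        rw [Subgroup.mem_subgroupOf]
        change ((MulAut.conjNormal g x : N) : G) ∈ j.1
        rw [MulAut.conjNormal_apply, hg]
        exact ⟨(x : G), Subgroup.mem_subgroupOf.1 hx, rfl⟩
      · intro hy
        have hy' : (y : G) ∈ j.1 := Subgroup.mem_subgroupOf.1 hy
        rw [hg] at hy'
        obtain ⟨x, hx, hxy⟩ := hy'
        refine ⟨⟨x, ck_le i hx⟩, Subgroup.mem_subgroupOf.2 hx, ?_⟩
        apply Subtype.ext
        change ((MulAut.conjNormal g (⟨x, ck_le i hx⟩ : N) : N) : G) = y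
        rw [MulAut.conjNormal_apply]
        exact hxy
  have hperm : ∀ (g : G) (i : CI N), ∃ j, ∀ k ∈ (CK N i).subgroupOf N,
      ∃ t ∈ (CK N j).subgroupOf N, (t : G) = g * k * g⁻¹ := by
    intro g i
    refine ⟨cact h g i, ?_⟩
    intro k hk
    have h1 : g * (k : G) * g⁻¹ ∈ CK N (cact h g i) := by
      rw [← cact_map]
      exact ⟨(k : G), Subgroup.mem_subgroupOf.1 hk, rfl⟩
    exact ⟨⟨g * (k : G) * g⁻¹, ck_le _ h1⟩, Subgroup.mem_subgroupOf.2 h1, rfl⟩
  have hfix : ∀ g ∈ XF (ext0 N b) N, ∀ i, cact h g i = i := by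
    intro g hg i
    have h1 : BlkU ((CK N i).subgroupOf N) (fun t : N => ext0 N b t) (fK i) := by
      rw [hco]
      exact hfK i
    have h2 := hcmc ℓ F hF G N hN (ext0 N b) hS (CI N) (fun i => (CK N i).subgroupOf N) hcomm hsup
      hZ hperm i (fK i) h1 (hposK i) g hg
    apply Subtype.ext
    change cj g i.1 = i.1
    apply Subgroup.eq_of_le_of_card_ge
    · rintro _ ⟨x, hx, rfl⟩
      obtain ⟨t, ht, hte⟩ := h2 ⟨x, ck_le i hx⟩ (Subgroup.mem_subgroupOf.2 hx)
      change g * x * g⁻¹ ∈ i.1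
      have hte' : (t : G) = g * x * g⁻¹ := hte
      rw [← hte']
      exact Subgroup.mem_subgroupOf.1 ht
    · exact (Subgroup.card_map_of_injective (MulAut.conj g).injective).ge
  refine ⟨CI N, inferInstance, ci_nonempty h, CK N, fun i => bx N (CK N i) (fK i), cact h, ?_⟩
  refine { le := ck_le, comm := ck_comm h hna, sup := ck_sup h, center := hZ, map := cact_map h
           mul := cact_mul h, norm := cact_norm h, blk := ?_, sblk := ?_, pos := ?_
           mu := ck_mu h hna hns, xf := ?_ }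
  · intro i
    have e : (fun t : (CK N i).subgroupOf N => bx N (CK N i) (fK i) ((t : N) : G)) = fK i := by
      funext t
      exact bx_coe _ _
    rw [e]
    exact hfK i
  · intro i
    refine ⟨?_, ?_, ?_⟩
    · intro x hx
      exact bx_not _ (fun h1 => hx (Subgroup.mem_subgroupOf.2 h1))
    · intro x y
      exact hstab i y.2 x
    · rw [hrew]
      exact H18.blk_equiv _ (hfK i).1
  · intro i
    rw [hrew, dz_iff (eqv (CK N i) N (Subgroup.normalizer (CK N i : Set G)) (ck_le i) (hT i))]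
    exact hposK i
  · intro g hg i
    refine ⟨hfix g hg i, ?_⟩
    intro hgn
    have hx := hxfs ℓ F hF G N hN (ext0 N b) hS
    obtain ⟨u, u', hu⟩ := (hx.1 g).1 hg
    have hu' := (hx.2.2.2.1 g u u' hu).1
    have hU := unit_unt hcl hu hu'
    have hK' : ((CO N i).subgroupOf N).map (MulAut.conjNormal g : MulAut N).toMonoidHom =
        (CO N i).subgroupOf N := by
      have hCO : (CO N i).map (MulAut.conj g).toMonoidHom = CO N i := by
        unfold CO
        rw [Subgroup.map_iSup]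
        congr 1
        funext j
        rw [cact_map h, hfix g hg]
      ext y
      constructor
      · rintro ⟨x, hx, rfl⟩
        rw [Subgroup.mem_subgroupOf]
        change ((MulAut.conjNormal g x : N) : G) ∈ CO N i
        rw [MulAut.conjNormal_apply, ← hCO]
        exact ⟨(x : G), Subgroup.mem_subgroupOf.1 hx, rfl⟩
      · intro hy
        have hy' : (y : G) ∈ CO N i := Subgroup.mem_subgroupOf.1 hy
        rw [← hCO] at hy'
        obtain ⟨x, hx, hxy⟩ := hy'
        refine ⟨⟨x, co_le i hx⟩, Subgroup.mem_subgroupOf.2 hx, ?_⟩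
        apply Subtype.ext
        change ((MulAut.conjNormal g (⟨x, co_le i hx⟩ : N) : N) : G) = y
        rw [MulAut.conjNormal_apply]
        exact hxy
    obtain ⟨w₁, wi₁, hU₁⟩ := hfcu ℓ F hF N ((CK N i).subgroupOf N) ((CO N i).subgroupOf N)
      (sub_comm (co_comm h hna i)) (sub_sup (ck_le i) (co_le i) (co_sup h i)) hZ b hb (fK i)
      (hfK i) (MulAut.conjNormal g) (conjE hgn) (fun k => rfl) hK' _ _ hU
    have h3 := unt_unit (ck_le i) (hfK i).1.1.1 (fun g' hg' x => hstab i hg' x) hgn hU₁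
    exact Subgroup.subset_closure ⟨_, _, h3⟩

end Pool.Agent.PP.H6
end
end -- Pool.Agent.Helper6_PP.Com
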