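import Pool.Agent.Helper12_AWB.B046
import Pool.Agent.Helper12_AWB.B055
import Pool.Agent.Helper98_PP.StmtsR2b

/-!
# Merged copies (generated) of the modules

* `Pool.Agent.Helper65_PP.Shf`
* `Pool.Agent.Helper31_PP.Ncg`
* `Pool.Agent.Helper43_PP.Box`
* `Pool.Agent.Helper31_PP.PrdStmts`
* `Pool.Agent.Helper9_PP.Prc`
* `Pool.Agent.Helper43_PP.Scl`
* `Pool.Agent.Helper47_PP.Nie`
-/

set_option autoImplicit false

section -- Pool.Agent.Helper65_PP.Shf

/-!
# Squad PP, part R2, module SHF: shifting the automorphisms of a torus datum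
-/

open scoped BigOperators

set_option linter.unusedSectionVars false

noncomputable section

namespace Pool.Agent.PP.H65

open Pool.Agent.Helper51_AWC Pool.Agent.Helper79_WRA

section lem

variable {Y : Type} [Group Y]

theorem mul_conj' (γ : MulAut Y) (n : Y) : γ * MulAut.conj n = MulAut.conj (γ n) * γ := by
  ext y
  simp only [MulAut.mul_apply, MulAut.conj_apply, map_mul, map_inv]

theorem tw_apply (γ : MulAut Y) (n y : Y) : tw γ n y = γ (n * y * n⁻¹) := rfl

theorem tw_tw (α : MulAut Y) (a n : Y) : tw (tw α a) n = tw α (a * n) := by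
  unfold tw
  rw [mul_assoc, ← map_mul]

/-- `[α ∘ inn(n), β ∘ inn(m)] = κ ∘ inn(c(n,m))` -/
theorem kap_tw (α β : MulAut Y) (n m : Y) :
    kap (tw α n) (tw β m) = tw (kap α β) (cc α β n m) := by
  have h1 : kap (tw α n) (tw β m) = MulAut.conj (α (n * β m * (β n)⁻¹)) *
      (α * β * α⁻¹ * (MulAut.conj m)⁻¹ * β⁻¹) := by
    have e1 : α * MulAut.conj n * (β * MulAut.conj m) * (MulAut.conj n)⁻¹ =
        MulAut.conj (α (n * β m * (β n)⁻¹)) * (α * β) := by
      have e2 : MulAut.conj n * (β * MulAut.conj m) * (MulAut.conj n)⁻¹ =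
          MulAut.conj (n * β m * (β n)⁻¹) * β := by
        have e3 : β * (MulAut.conj n)⁻¹ = (MulAut.conj (β n))⁻¹ * β := by
          rw [← map_inv, mul_conj', map_inv, map_inv]
        rw [mul_conj' β m, map_mul, map_mul, map_inv]
        calc MulAut.conj n * (MulAut.conj (β m) * β) * (MulAut.conj n)⁻¹ =
            MulAut.conj n * MulAut.conj (β m) * (β * (MulAut.conj n)⁻¹) := by group
          _ = MulAut.conj n * MulAut.conj (β m) * (MulAut.conj (β n))⁻¹ * β := by
            rw [e3]; group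
      calc α * MulAut.conj n * (β * MulAut.conj m) * (MulAut.conj n)⁻¹ =
          α * (MulAut.conj n * (β * MulAut.conj m) * (MulAut.conj n)⁻¹) := by group
        _ = α * MulAut.conj (n * β m * (β n)⁻¹) * β := by rw [e2]; group
        _ = MulAut.conj (α (n * β m * (β n)⁻¹)) * (α * β) := by rw [mul_conj']; group
    unfold kap tw
    calc α * MulAut.conj n * (β * MulAut.conj m) * (α * MulAut.conj n)⁻¹ *
        (β * MulAut.conj m)⁻¹ =
        (α * MulAut.conj n * (β * MulAut.conj m) * (MulAut.conj n)⁻¹) *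
          (α⁻¹ * (MulAut.conj m)⁻¹ * β⁻¹) := by group
      _ = _ := by rw [e1]; group
  have h2 : tw (kap α β) (cc α β n m) = MulAut.conj (α (n * β m * (β n)⁻¹)) *
      (kap α β * (MulAut.conj (β m))⁻¹) := by
    have h3 : kap α β * MulAut.conj ((kap α β)⁻¹ (α (n * β m * (β n)⁻¹))) =
        MulAut.conj (α (n * β m * (β n)⁻¹)) * kap α β := by
      rw [mul_conj', MulAut.apply_inv_self]
    unfold tw cc
    rw [map_mul MulAut.conj, ← mul_assoc, h3, map_inv, mul_assoc]
  rw [h1, h2]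
  congr 1
  have h3 : (MulAut.conj m)⁻¹ * β⁻¹ = β⁻¹ * (MulAut.conj (β m))⁻¹ := by
    have := congrArg (fun x => x⁻¹) (mul_conj' β m)
    simpa only [mul_inv_rev] using this
  unfold kap
  rw [mul_assoc, h3]
  group

/-- The cocycle identity. -/
theorem cc_coc (α β : MulAut Y) (a b n m : Y) :
    cc α β (a * n) (b * m) = cc α β a b * cc (tw α a) (tw β b) n m := by
  have h1 : ∀ z, (kap (tw α a) (tw β b))⁻¹ z =
      (cc α β a b)⁻¹ * (kap α β)⁻¹ z * cc α β a b := by
    intro z
    rw [kap_tw]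
    unfold tw
    rw [mul_inv_rev, MulAut.mul_apply, ← map_inv, MulAut.conj_apply, inv_inv]
  have h2 : cc (tw α a) (tw β b) n m = (kap (tw α a) (tw β b))⁻¹
      (tw α a (n * tw β b m * (tw β b n)⁻¹)) * (tw β b m)⁻¹ := rfl
  rw [h2, h1]
  simp only [tw_apply, cc, map_mul, map_inv]
  group

variable {F : Type} [Field F] [Finite Y]

theorem mulF_eq' [Fintype Y] (a b : Y → F) (x : Y) : mulF a b x = ∑ t, a t * b (t⁻¹ * x) := by
  unfold mulF
  rw [finsum_eq_sum_of_fintype]

end lem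

theorem shf : ShfStmt := by
  intro ℓ F _ hF Y _ _ f α β w wi hT a b
  have hfin := Fintype.ofFinite Y
  obtain ⟨c, hc⟩ : ∃ c, c = cc α β a b := ⟨_, rfl⟩
  rw [← hc]
  have hcl : ∀ x y, f (y * x * y⁻¹) = f x := hT.blk.1.1
  refine ⟨⟨fun y => wi (y * c⁻¹), hT.blk, ?_, ?_, ?_⟩, ?_⟩
  · intro y
    rw [tw_apply, hT.fa, hcl]
  · intro y
    rw [tw_apply, hT.fb, hcl]
  · have hu := hT.unt
    refine ⟨?_, ?_, ?_, ?_, ?_⟩
    · funext x
      rw [mulF_eq']
      have h1 := congrFun hu.fw (c * x)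
      rw [mulF_eq'] at h1
      rw [← h1]
      refine Fintype.sum_equiv (MulAut.conj c).toEquiv _ _ fun t => ?_
      show f t * w (c * (t⁻¹ * x)) = f (c * t * c⁻¹) * w ((c * t * c⁻¹)⁻¹ * (c * x))
      rw [hcl]
      congr 2
      group
    · funext x
      rw [mulF_eq']
      have h1 := congrFun hu.fwi (x * c⁻¹)
      rw [mulF_eq'] at h1
      rw [← h1]
      refine Finset.sum_congr rfl fun t _ => ?_
      rw [mul_assoc]
    · funext x
      rw [mulF_eq']
      have h1 := congrFun hu.unit (c * x * c⁻¹)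
      rw [mulF_eq', hcl] at h1
      rw [← h1]
      refine Fintype.sum_equiv (Equiv.mulLeft c) _ _ fun t => ?_
      show w (c * t) * wi (t⁻¹ * x * c⁻¹) = w (c * t) * wi ((c * t)⁻¹ * (c * x * c⁻¹))
      congr 2
      group
    · funext x
      rw [mulF_eq']
      have h1 := congrFun hu.unit' x
      rw [mulF_eq'] at h1
      rw [← h1]
      refine Fintype.sum_equiv (Equiv.mulRight c⁻¹) _ _ fun t => ?_
      show wi (t * c⁻¹) * w (c * (t⁻¹ * x)) = wi (t * c⁻¹) * w ((t * c⁻¹)⁻¹ * x)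
      congr 2
      group
    · intro n y
      rw [kap_tw, ← hc]
      have h1 := hu.comm n (c * y)
      rw [← h1]
      congr 1
      unfold tw
      rw [mul_inv_rev, MulAut.mul_apply, ← map_inv, MulAut.conj_apply, inv_inv]
      group
  · intro τ
    classical
    unfold DD
    symm
    rw [← finsum_comp_equiv (Equiv.mulLeft a)]
    refine finsum_congr fun n => ?_
    rw [← finsum_comp_equiv (Equiv.mulLeft b)]
    refine finsum_congr fun m => ?_
    show ∑ d ∈ (chainsOn (psubIn ℓ (⊤ : Subgroup Y)) ⊥).filter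
      (fun d => NormalChain d ∧ FixC (tw α (a * n)) d ∧ FixC (tw β (b * m)) d),
        (-1) ^ (d.card + 1) *
        tcon τ f (tw α (a * n)) (tw β (b * m)) (fun y => w (cc α β (a * n) (b * m) * y)) d = _
    rw [tw_tw, tw_tw]
    refine Finset.sum_congr rfl fun d _ => ?_
    congr 2
    funext y
    rw [cc_coc, ← hc, mul_assoc]

end Pool.Agent.PP.H65
end
end -- Pool.Agent.Helper65_PP.Shf

section -- Pool.Agent.Helper31_PP.Ncg

/-!
# Squad PP, module NCG: only the normal chains matter, for a weight on chains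
-/

open scoped BigOperators

noncomputable section

namespace Pool.Agent.PP.H31

open Pool.Agent.Helper51_AWC Pool.Agent.Helper79_WRA Pool.Agent.PP Pool.Agent.PP.H94

variable {G : Type} [Group G]

open Classical in
theorem loc_eq (d : Finset (Subgroup G)) (B : Subgroup G) :
    loc d B = B ⊓ ⨅ E ∈ d.filter (fun D => D < B), Subgroup.normalizer (E : Set G) := by
  ext x
  rw [mem_loc]
  simp only [Subgroup.mem_inf, Subgroup.mem_iInf, Finset.mem_filter]
  exact and_congr_right fun _ => ⟨fun h D h1 => h D h1.1 h1.2, fun h D h1 h2 => h D ⟨h1, h2⟩⟩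

theorem sum_toggleC {α : Type*} [PartialOrder α] [DecidableEq α] (S : Finset (Finset α))
    (e : Finset α → α)
    (f : Finset α → ℂ) (h1 : ∀ d ∈ S, toggle d (e d) ∈ S)
    (h2 : ∀ d ∈ S, e (toggle d (e d)) = e d)
    (h3 : ∀ d ∈ S, f (toggle d (e d)) = - f d) : ∑ d ∈ S, f d = 0 := by
  apply Finset.sum_involution (fun d _ => toggle d (e d))
  · intro d hd; rw [h3 d hd]; ring
  · intro d _ _; exact toggle_ne _ _
  · intro d hd; exact h1 d hd
  · intro d hd
    rw [h2 d hd, toggle_toggle]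

/-- NCG -/
theorem ncg : NcgStmt := by
  classical
  intro ℓ _ G _ _ P W hPp hbot hP hW
  have hPl : ∀ c : Finset (Subgroup G), c ⊆ P → IsChain (· ≤ ·) (c : Set (Subgroup G)) →
      ∀ D ∈ c, loc c D ∈ P := by
    intro c hc _ D hD
    rw [loc_eq]
    exact hP _ ((Finset.filter_subset _ _).trans hc) D (hc hD)
      (fun E hE => (Finset.mem_filter.1 hE).2.le)
  have hins : ∀ d ∈ chainsOn P ⊥, ∀ B ∈ d, W (insert (loc d B) d) = W d := by
    intro d hd B hB
    have := hW d hd (d.filter (fun D => D < B)) (Finset.filter_subset _ _) B hB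
      (fun E hE => (Finset.mem_filter.1 hE).2.le)
    rw [loc_eq]
    exact this
  set S := (chainsOn P ⊥).filter (fun d => ¬ NormalChain d) with hS
  have key : ∑ d ∈ S, (-1) ^ (d.card + 1) * W d = 0 := by
    have hex : ∀ d : Finset (Subgroup G), ∃ B, d ∈ S → IsB d B := by
      intro d
      by_cases hd : d ∈ S
      · rw [hS, Finset.mem_filter, mem_chainsOn] at hd
        obtain ⟨B, hB⟩ := exists_isB hd.1.2.2 hd.2
        exact ⟨B, fun _ => hB⟩
      · exact ⟨⊥, fun h => absurd h hd⟩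
    choose B hB using hex
    have hmem : ∀ d ∈ S, toggle d (loc d (B d)) ∈ S := by
      intro d hd
      have h1 := hB d hd
      rw [hS, Finset.mem_filter] at hd ⊢
      obtain ⟨a1, a2, a3, a4, a5⟩ := toggle_props hPp hPl hd.1 h1
      refine ⟨a1, fun hn => ?_⟩
      obtain ⟨D, hD, b1, b2⟩ := a2.2.1
      have := hn D hD
      exact b2 (((top_mem (mem_chainsOn.1 a1).2.2 ⟨D, hD⟩).2 _ a2.1).trans this)
    apply sum_toggleC S (fun d => loc d (B d))
    · exact hmem
    · intro d hd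
      have h1 := hB d hd
      obtain ⟨a1, a2, a3, a4, a5⟩ := toggle_props hPp hPl (Finset.mem_filter.1 hd).1 h1
      have h2 := hB _ (hmem d hd)
      have h3 : B (toggle d (loc d (B d))) = B d := h2.unique a2
      change loc (toggle d (loc d (B d))) (B (toggle d (loc d (B d)))) = _
      rw [h3, a3]
    · intro d hd
      have hdc := (Finset.mem_filter.1 hd).1
      obtain ⟨a1, a2, a3, a4, a5⟩ := toggle_props hPp hPl hdc (hB d hd)
      have hc : (-1 : ℂ) ^ ((toggle d (loc d (B d))).card + 1) = - (-1) ^ (d.card + 1) ∧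
          W (toggle d (loc d (B d))) = W d := by
        by_cases hm : loc d (B d) ∈ d
        · have et : toggle d (loc d (B d)) = d.erase (loc d (B d)) := by rw [toggle, if_pos hm]
          have hw := hins _ a1 (B d) a2.1
          rw [a3] at hw
          rw [et] at hw ⊢
          rw [Finset.insert_erase hm] at hw
          refine ⟨?_, hw.symm⟩
          rw [Finset.card_erase_of_mem hm]
          have : 0 < d.card := Finset.card_pos.2 ⟨_, hm⟩
          obtain ⟨k, hk⟩ : ∃ k, d.card = k + 1 := ⟨d.card - 1, by omega⟩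
          rw [hk, Nat.add_sub_cancel]
          ring
        · have et : toggle d (loc d (B d)) = insert (loc d (B d)) d := by rw [toggle, if_neg hm]
          rw [et]
          refine ⟨?_, hins d hdc (B d) (hB d hd).1⟩
          rw [Finset.card_insert_of_notMem hm]
          ring
      rw [hc.1, hc.2]
      ring
  rw [← Finset.sum_filter_add_sum_filter_not (chainsOn P ⊥) NormalChain, key, add_zero]

end Pool.Agent.PP.H31
end
end -- Pool.Agent.Helper31_PP.Ncg

section -- Pool.Agent.Helper43_PP.Box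

/-!
# Squad PP, part R2, module BOX: reduction to closed chains
-/

open scoped BigOperators

set_option autoImplicit false
set_option linter.unusedSectionVars false

noncomputable section

namespace Pool.Agent.PP.H43

open Pool.Agent.Helper51_AWC Pool.Agent.Helper79_WRA Pool.Agent.PP

section comb

variable {A : Type*} [PartialOrder A]

/-- cancellation by toggling, complex values -/
theorem sum_toggleC [DecidableEq A] (S : Finset (Finset A)) (e : Finset A → A)
    (f : Finset A → ℂ) (h1 : ∀ d ∈ S, toggle d (e d) ∈ S)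
    (h2 : ∀ d ∈ S, e (toggle d (e d)) = e d)
    (h3 : ∀ d ∈ S, f (toggle d (e d)) = - f d) : ∑ d ∈ S, f d = 0 := by
  apply Finset.sum_involution (fun d _ => toggle d (e d))
  · intro d hd; rw [h3 d hd]; ring
  · intro d _ _; exact toggle_ne _ _
  · intro d hd; exact h1 d hd
  · intro d hd
    rw [h2 d hd, toggle_toggle]

/-- cancellation by a closure operator `c` : only the chains of closed elements remain -/
theorem sum_closureC [DecidableEq A] (s : Finset A) (b : A)
    (c : A → A)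
    (hs : ∀ x ∈ s, c x ∈ s) (hle : ∀ x ∈ s, x ≤ c x)
    (hmono : ∀ x ∈ s, ∀ y ∈ s, x ≤ y → c x ≤ c y) (hidem : ∀ x ∈ s, c (c x) = c x)
    (hb : c b = b) (hbl : ∀ x ∈ s, b ≤ x) (f : Finset A → ℂ)
    (hf : ∀ d ∈ chainsOn s b, ∀ x ∈ d, c x ∉ d → f (insert (c x) d) = - f d) :
    ∑ d ∈ chainsOn s b, f d = ∑ d ∈ (chainsOn s b).filter (fun d => ∀ x ∈ d, c x = x), f d := by
  classical
  rw [← Finset.sum_filter_add_sum_filter_not (chainsOn s b) (fun d => ∀ x ∈ d, c x = x)]
  rw [add_eq_left]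
  -- the greatest non-closed element
  have hex : ∀ d : Finset A, ∃ m : A, d ∈ (chainsOn s b).filter (fun d => ¬ ∀ x ∈ d, c x = x) →
      m ∈ d ∧ c m ≠ m ∧ ∀ y ∈ d, c y ≠ y → y ≤ m := by
    intro d
    by_cases hd : d ∈ (chainsOn s b).filter (fun d => ¬ ∀ x ∈ d, c x = x)
    · have hd' := hd
      rw [Finset.mem_filter, mem_chainsOn] at hd'
      obtain ⟨⟨_, _, hch⟩, hne⟩ := hd'
      push Not at hne
      obtain ⟨x, hx, hxc⟩ := hne
      obtain ⟨m, hm, hmax⟩ := exists_greatest (d := d.filter (fun x => c x ≠ x))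
        (hch.mono (by intro y hy; exact Finset.mem_of_mem_filter y hy))
        ⟨x, Finset.mem_filter.2 ⟨hx, hxc⟩⟩
      rw [Finset.mem_filter] at hm
      exact ⟨m, fun _ => ⟨hm.1, hm.2, fun y hy hyc => hmax y (Finset.mem_filter.2 ⟨hy, hyc⟩)⟩⟩
    · exact ⟨b, fun h => absurd h hd⟩
  choose m hm using hex
  have hkey : ∀ d ∈ (chainsOn s b).filter (fun d => ¬ ∀ x ∈ d, c x = x),
      toggle d (c (m d)) ∈ (chainsOn s b).filter (fun d => ¬ ∀ x ∈ d, c x = x) ∧
      m (toggle d (c (m d))) = m d := by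
    intro d hd
    obtain ⟨hmd, hmc, hmax⟩ := hm d hd
    have hd' := hd
    rw [Finset.mem_filter, mem_chainsOn] at hd'
    obtain ⟨⟨hsub, hbd, hch⟩, -⟩ := hd'
    have hms := hsub hmd
    have hmem : toggle d (c (m d)) ∈ (chainsOn s b).filter (fun d => ¬ ∀ x ∈ d, c x = x) := by
      rw [Finset.mem_filter, mem_chainsOn]
      unfold toggle
      split_ifs with h
      · refine ⟨⟨(Finset.erase_subset _ _).trans hsub, ?_, ?_⟩, ?_⟩
        · rw [Finset.mem_erase]
          refine ⟨?_, hbd⟩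
          intro hbe
          -- `b = c (m d)`, then `m d ≤ b`
          apply hmc
          have h1 : m d ≤ b := hbe ▸ hle _ hms
          have : m d = b := le_antisymm h1 (hbl _ hms)
          rw [this, hb]
        · exact hch.mono (by intro y hy; exact Finset.mem_of_mem_erase hy)
        · push Not
          exact ⟨m d, Finset.mem_erase.2 ⟨fun h' => hmc h'.symm, hmd⟩, hmc⟩
      · refine ⟨⟨?_, Finset.mem_insert_of_mem hbd, ?_⟩, ?_⟩
        · intro y hy
          rcases Finset.mem_insert.1 hy with rfl | hy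
          · exact hs _ hms
          · exact hsub hy
        · rw [Finset.coe_insert]
          apply hch.insert
          intro y hy hne
          rcases chain_total hch hy hmd with h1 | h1
          · right; exact h1.trans (hle _ hms)
          · by_cases hyc : c y = y
            · left
              rw [← hyc]; exact hmono _ hms _ (hsub hy) h1
            · have := hmax y hy hyc
              have : y = m d := le_antisymm this h1
              right; rw [this]; exact hle _ hms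
        · push Not
          exact ⟨m d, Finset.mem_insert_of_mem hmd, hmc⟩
    refine ⟨hmem, ?_⟩
    obtain ⟨h1, h2, h3⟩ := hm _ hmem
    have hmt : m d ∈ toggle d (c (m d)) := by
      unfold toggle
      split_ifs with h
      · exact Finset.mem_erase.2 ⟨fun h' => hmc h'.symm, hmd⟩
      · exact Finset.mem_insert_of_mem hmd
    apply le_antisymm
    · have h4 : m (toggle d (c (m d))) ∈ d := by
        generalize m (toggle d (c (m d))) = t at h1 h2
        unfold toggle at h1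
        split_ifs at h1 with h
        · exact Finset.mem_of_mem_erase h1
        · rcases Finset.mem_insert.1 h1 with h' | h'
          · exfalso; apply h2; rw [h', hidem _ hms]
          · exact h'
      exact hmax _ h4 h2
    · exact h3 _ hmt hmc
  apply sum_toggleC _ (fun d => c (m d))
  · intro d hd; exact (hkey d hd).1
  · intro d hd; rw [(hkey d hd).2]
  · intro d hd
    obtain ⟨hmd, hmc, hmax⟩ := hm d hd
    have hd' := Finset.mem_filter.1 hd
    simp only [toggle]
    split_ifs with h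
    · have h1 : d.erase (c (m d)) ∈ chainsOn s b := by
        have := (hkey d hd).1
        unfold toggle at this
        rw [if_pos h] at this
        exact (Finset.mem_filter.1 this).1
      have h2 := hf _ h1 (m d) (Finset.mem_erase.2 ⟨fun h' => hmc h'.symm, hmd⟩)
        (Finset.notMem_erase _ _)
      rw [Finset.insert_erase h] at h2
      rw [h2]; ring
    · exact hf d hd'.1 (m d) hmd h

end comb

section auto

variable {Y : Type} [Group Y]

theorem map_eq_iff {γ : MulAut Y} {D : Subgroup Y} :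
    D.map γ.toMonoidHom = D ↔ ∀ x, γ x ∈ D ↔ x ∈ D := by
  constructor
  · intro h x
    constructor
    · intro hx
      rw [← h] at hx
      obtain ⟨y, hy, hyx⟩ := Subgroup.mem_map.1 hx
      have : y = x := γ.injective hyx
      rwa [← this]
    · intro hx
      rw [← h]
      exact Subgroup.mem_map.2 ⟨x, hx, rfl⟩
  · intro h
    ext x
    rw [Subgroup.mem_map]
    constructor
    · rintro ⟨y, hy, rfl⟩
      exact (h y).2 hy
    · intro hx
      refine ⟨γ⁻¹ x, ?_, ?_⟩
      · apply (h _).1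
        have : γ (γ⁻¹ x) = x := γ.apply_symm_apply x
        rwa [this]
      · exact γ.apply_symm_apply x

theorem norm_iff {γ : MulAut Y} {E : Subgroup Y} (h : E.map γ.toMonoidHom = E) (x : Y) :
    γ x ∈ Subgroup.normalizer (E : Set Y) ↔ x ∈ Subgroup.normalizer (E : Set Y) := by
  rw [map_eq_iff] at h
  rw [Subgroup.mem_normalizer_iff, Subgroup.mem_normalizer_iff]
  constructor
  · intro h1 y
    rw [← h y, h1 (γ y), ← map_mul, ← map_inv, ← map_mul, h]
  · intro h1 y
    obtain ⟨z, rfl⟩ := γ.surjective y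
    rw [← map_mul, ← map_inv, ← map_mul, h, h]
    exact h1 z

/-- the subgroups `D ∩ ⋂ N(E)` are fixed by the automorphisms fixing `D` and the `E` -/
theorem map_loc {γ : MulAut Y} {D : Subgroup Y} {s : Finset (Subgroup Y)}
    (hD : D.map γ.toMonoidHom = D) (hs : ∀ E ∈ s, E.map γ.toMonoidHom = E) :
    (D ⊓ ⨅ E ∈ s, Subgroup.normalizer (E : Set Y) : Subgroup Y).map γ.toMonoidHom =
      D ⊓ ⨅ E ∈ s, Subgroup.normalizer (E : Set Y) := by
  rw [map_eq_iff]
  intro x
  simp only [Subgroup.mem_inf, Subgroup.mem_iInf]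
  rw [map_eq_iff.1 hD x]
  refine and_congr_right fun _ => forall_congr' fun E => forall_congr' fun hE => ?_
  exact norm_iff (hs E hE) x

theorem fixC_insert [DecidableEq (Subgroup Y)] {γ : MulAut Y} {d : Finset (Subgroup Y)}
    {R : Subgroup Y} (h : FixC γ d → R.map γ.toMonoidHom = R) :
    FixC γ (insert R d) ↔ FixC γ d := by
  constructor
  · intro h1 D hD
    exact h1 D (Finset.mem_insert_of_mem hD)
  · intro h1 D hD
    rcases Finset.mem_insert.1 hD with rfl | hD
    · exact h h1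
    · exact h1 D hD

theorem mem_stab_fixC {d : Finset (Subgroup Y)} {g : Y} :
    g ∈ stab d ↔ FixC (MulAut.conj g) d := mem_stab

theorem stab_insert' [DecidableEq (Subgroup Y)] {d : Finset (Subgroup Y)} {R : Subgroup Y}
    (h : ∀ g, FixC (MulAut.conj g) d → R.map (MulAut.conj g).toMonoidHom = R) :
    stab (insert R d) = stab d := by
  ext g
  rw [mem_stab_fixC, mem_stab_fixC]
  exact fixC_insert (h g)

open Classical in
/-- the weight -/
def Wt {F : Type} [Field F] (τ : F → ℂ) (f : Y → F) (γ δ : MulAut Y) (v : Y → F)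
    (d : Finset (Subgroup Y)) : ℂ :=
  if FixC γ d ∧ FixC δ d then tcon τ f γ δ v d else 0

theorem wt_insert [DecidableEq (Subgroup Y)] {F : Type} [Field F] {τ : F → ℂ} {f : Y → F}
    {γ δ : MulAut Y} {v : Y → F} {d : Finset (Subgroup Y)} {R : Subgroup Y}
    (h1 : FixC γ d → R.map γ.toMonoidHom = R) (h2 : FixC δ d → R.map δ.toMonoidHom = R)
    (h3 : ∀ g, FixC (MulAut.conj g) d → R.map (MulAut.conj g).toMonoidHom = R) :
    Wt τ f γ δ v (insert R d) = Wt τ f γ δ v d := by
  unfold Wt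
  have e1 : (FixC γ (insert R d) ∧ FixC δ (insert R d)) ↔ (FixC γ d ∧ FixC δ d) :=
    and_congr (fixC_insert h1) (fixC_insert h2)
  have e2 : tcon τ f γ δ v (insert R d) = tcon τ f γ δ v d := by
    unfold tcon
    rw [stab_insert' h3]
  by_cases h : FixC γ d ∧ FixC δ d
  · rw [if_pos h, if_pos (e1.2 h), e2]
  · rw [if_neg h, if_neg (fun h' => h (e1.1 h'))]

end auto

open Classical in
/-- **BOX** -/
theorem box (hN : NcgStmt) : BoxStmt := by
  intro ℓ _ F _ _ Y _ _ f α β w τ c hcp hcl hcm hci hcb hcn hca hcβ hcs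
  have key : ∀ n m : Y,
      ∑ d ∈ (chainsOn (psubIn ℓ (⊤ : Subgroup Y)) ⊥).filter
        (fun d => NormalChain d ∧ FixC (tw α n) d ∧ FixC (tw β m) d), (-1) ^ (d.card + 1) *
          tcon τ f (tw α n) (tw β m) (fun y => w (cc α β n m * y)) d =
      ∑ d ∈ (chainsOn (psubIn ℓ (⊤ : Subgroup Y)) ⊥).filter
        (fun d => NormalChain d ∧ (FixC (tw α n) d ∧ FixC (tw β m) d) ∧ ∀ D ∈ d, c D = D),
          (-1) ^ (d.card + 1) * tcon τ f (tw α n) (tw β m) (fun y => w (cc α β n m * y)) d := by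
    intro n m
    set γ := tw α n with hγ
    set δ := tw β m with hδ
    set v : Y → F := fun y => w (cc α β n m * y) with hv
    set P := psubIn ℓ (⊤ : Subgroup Y) with hP
    have hPm : ∀ D : Subgroup Y, D ∈ P ↔ IsPGroup ℓ D := by
      intro D
      rw [hP, mem_psubIn]
      exact ⟨fun h => h.2, fun h => ⟨le_top, h⟩⟩
    have hcγ : ∀ D : Subgroup Y, c (D.map γ.toMonoidHom) = (c D).map γ.toMonoidHom := by
      intro D
      have e : ∀ D : Subgroup Y, D.map γ.toMonoidHom =
          (D.map (MulAut.conj n).toMonoidHom).map α.toMonoidHom := by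
        intro D
        rw [Subgroup.map_map]
        rfl
      rw [e, e, hca, hcn]
    have hcδ : ∀ D : Subgroup Y, c (D.map δ.toMonoidHom) = (c D).map δ.toMonoidHom := by
      intro D
      have e : ∀ D : Subgroup Y, D.map δ.toMonoidHom =
          (D.map (MulAut.conj m).toMonoidHom).map β.toMonoidHom := by
        intro D
        rw [Subgroup.map_map]
        rfl
      rw [e, e, hcβ, hcn]
    -- step 0
    have s0 : ∑ d ∈ (chainsOn P ⊥).filter (fun d => NormalChain d ∧ FixC γ d ∧ FixC δ d),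
        (-1) ^ (d.card + 1) * tcon τ f γ δ v d =
        ∑ d ∈ (chainsOn P ⊥).filter NormalChain, (-1) ^ (d.card + 1) * Wt τ f γ δ v d := by
      rw [Finset.sum_filter, Finset.sum_filter]
      refine Finset.sum_congr rfl fun d _ => ?_
      unfold Wt
      by_cases h1 : NormalChain d
      · by_cases h2 : FixC γ d ∧ FixC δ d
        · rw [if_pos ⟨h1, h2⟩, if_pos h1, if_pos h2]
        · rw [if_neg (fun h => h2 h.2), if_pos h1, if_neg h2, mul_zero]
      · rw [if_neg (fun h => h1 h.1), if_neg h1]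
    have hloc : ∀ (s : Finset (Subgroup Y)) (D : Subgroup Y) (d : Finset (Subgroup Y)), s ⊆ d →
        D ∈ d → Wt τ f γ δ v (insert (D ⊓ ⨅ E ∈ s, Subgroup.normalizer (E : Set Y)) d) =
          Wt τ f γ δ v d := by
      intro s D d hs hD
      exact wt_insert (fun h => map_loc (h D hD) fun E hE => h E (hs hE))
        (fun h => map_loc (h D hD) fun E hE => h E (hs hE))
        (fun g h => map_loc (h D hD) fun E hE => h E (hs hE))
    have hbot : (⊥ : Subgroup Y) ∈ P := (hPm _).2 IsPGroup.of_bot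
    have hsub : ∀ D ∈ P, ∀ E : Subgroup Y, E ≤ D → E ∈ P := by
      intro D hD E hE
      rw [hPm] at hD ⊢
      exact hD.to_le hE
    -- step 1
    have s1 : ∑ d ∈ chainsOn P ⊥, (-1) ^ (d.card + 1) * Wt τ f γ δ v d =
        ∑ d ∈ (chainsOn P ⊥).filter NormalChain, (-1) ^ (d.card + 1) * Wt τ f γ δ v d :=
      hN ℓ Y P (Wt τ f γ δ v) (fun D hD => (hPm D).1 hD) hbot
        (fun s _ D hD _ => hsub D hD _ inf_le_left)
        (fun d _ s hs D hD _ => hloc s D d hs hD)
    -- step 2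
    have s2 : ∑ d ∈ chainsOn P ⊥, (-1) ^ (d.card + 1) * Wt τ f γ δ v d =
        ∑ d ∈ (chainsOn P ⊥).filter (fun d => ∀ x ∈ d, c x = x),
          (-1) ^ (d.card + 1) * Wt τ f γ δ v d := by
      apply sum_closureC P ⊥ c (fun x hx => (hPm _).2 (hcp x ((hPm _).1 hx))) (fun x _ => hcl x)
        (fun x _ y _ h => hcm x y h) (fun x _ => hci x) hcb (fun x _ => bot_le)
      intro d _ x hx hcx
      have e1 : Wt τ f γ δ v (insert (c x) d) = Wt τ f γ δ v d := by
        apply wt_insert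
        · intro h
          rw [← hcγ, h x hx]
        · intro h
          rw [← hcδ, h x hx]
        · intro g h
          rw [← hcn, h x hx]
      rw [e1, Finset.card_insert_of_notMem hcx]
      ring
    -- step 3
    have hch : (chainsOn P ⊥).filter (fun d => ∀ x ∈ d, c x = x) =
        chainsOn (P.filter fun D => c D = D) ⊥ := by
      ext d
      rw [Finset.mem_filter, mem_chainsOn, mem_chainsOn]
      constructor
      · rintro ⟨⟨h1, h2, h3⟩, h4⟩
        exact ⟨fun D hD => Finset.mem_filter.2 ⟨h1 hD, h4 D hD⟩, h2, h3⟩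
      · rintro ⟨h1, h2, h3⟩
        exact ⟨⟨fun D hD => (Finset.mem_filter.1 (h1 hD)).1, h2, h3⟩,
          fun D hD => (Finset.mem_filter.1 (h1 hD)).2⟩
    have s3 : ∑ d ∈ chainsOn (P.filter fun D => c D = D) ⊥,
          (-1) ^ (d.card + 1) * Wt τ f γ δ v d =
        ∑ d ∈ (chainsOn (P.filter fun D => c D = D) ⊥).filter NormalChain,
          (-1) ^ (d.card + 1) * Wt τ f γ δ v d :=
      hN ℓ Y (P.filter fun D => c D = D) (Wt τ f γ δ v)
        (fun D hD => (hPm D).1 (Finset.mem_filter.1 hD).1)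
        (Finset.mem_filter.2 ⟨hbot, hcb⟩)
        (fun s hs D hD hle => Finset.mem_filter.2
          ⟨hsub D (Finset.mem_filter.1 hD).1 _ inf_le_left,
            hcs s (fun E hE => (Finset.mem_filter.1 (hs hE)).2) D (Finset.mem_filter.1 hD).2 hle⟩)
        (fun d _ s hs D hD _ => hloc s D d hs hD)
    rw [s0, ← s1, s2, hch, s3, ← hch]
    rw [Finset.filter_filter, Finset.sum_filter, Finset.sum_filter]
    refine Finset.sum_congr rfl fun d _ => ?_
    unfold Wt
    by_cases h1 : NormalChain d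
    · by_cases h3 : ∀ x ∈ d, c x = x
      · by_cases h2 : FixC γ d ∧ FixC δ d
        · rw [if_pos ⟨h3, h1⟩, if_pos h2, if_pos ⟨h1, h2, h3⟩]
        · rw [if_pos ⟨h3, h1⟩, if_neg h2, if_neg (fun h => h2 h.2.1), mul_zero]
      · rw [if_neg (fun h => h3 h.1), if_neg (fun h => h3 h.2.2)]
    · rw [if_neg (fun h => h1 h.2), if_neg (fun h => h1 h.1)]
  unfold DD
  exact finsum_congr fun n => finsum_congr fun m => key n m

end Pool.Agent.PP.H43
end
end -- Pool.Agent.Helper43_PP.Box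

section -- Pool.Agent.Helper31_PP.PrdStmts

/-!
# Squad PP, part R2: the two halves of PRD (pair sums of a direct product of two torus data)
-/

open scoped BigOperators

noncomputable section

namespace Pool.Agent.PP

open Pool.Agent.Helper51_AWC Pool.Agent.Helper79_WRA

open Classical in
/-- PRC (chains): if the contribution of every normal fixed chain `d` of a direct product whose
stabiliser is the product of the stabilisers of `d₁` and `d₂` is `T₁ n₁ m₁ d₁ * T₂ n₂ m₂ d₂`, then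
the pair sum is the product of the two sums. -/
def PrcStmt : Prop := ∀ (ℓ : ℕ) [Fact ℓ.Prime] (F : Type) [Field F], GoodF ℓ F →
  ∀ (Y₁ Y₂ : Type) [Group Y₁] [Finite Y₁] [Group Y₂] [Finite Y₂] (f w : Y₁ × Y₂ → F)
  (α₁ β₁ : MulAut Y₁) (α₂ β₂ : MulAut Y₂) (τ : F → ℂ)
  (T₁ : Y₁ → Y₁ → Finset (Subgroup Y₁) → ℂ) (T₂ : Y₂ → Y₂ → Finset (Subgroup Y₂) → ℂ),
  (∀ (n m : Y₁ × Y₂), ∀ d₁ ∈ chainsOn (psubIn ℓ (⊤ : Subgroup Y₁)) ⊥, NormalChain d₁ →
    FixC (tw α₁ n.1) d₁ → FixC (tw β₁ m.1) d₁ →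
    ∀ d₂ ∈ chainsOn (psubIn ℓ (⊤ : Subgroup Y₂)) ⊥, NormalChain d₂ →
    FixC (tw α₂ n.2) d₂ → FixC (tw β₂ m.2) d₂ →
    ∀ d ∈ chainsOn (psubIn ℓ (⊤ : Subgroup (Y₁ × Y₂))) ⊥, NormalChain d →
    FixC (tw (MulEquiv.prodCongr α₁ α₂) n) d → FixC (tw (MulEquiv.prodCongr β₁ β₂) m) d →
    stab d = (stab d₁).prod (stab d₂) →
    tcon τ f (tw (MulEquiv.prodCongr α₁ α₂) n) (tw (MulEquiv.prodCongr β₁ β₂) m)
      (fun y => w (cc (MulEquiv.prodCongr α₁ α₂) (MulEquiv.prodCongr β₁ β₂) n m * y)) d =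
      T₁ n.1 m.1 d₁ * T₂ n.2 m.2 d₂) →
  DD τ ℓ f (MulEquiv.prodCongr α₁ α₂) (MulEquiv.prodCongr β₁ β₂) w =
    (∑ᶠ (n : Y₁) (m : Y₁), ∑ d ∈ (chainsOn (psubIn ℓ (⊤ : Subgroup Y₁)) ⊥).filter
      (fun d => NormalChain d ∧ FixC (tw α₁ n) d ∧ FixC (tw β₁ m) d),
        (-1) ^ (d.card + 1) * T₁ n m d) *
    (∑ᶠ (n : Y₂) (m : Y₂), ∑ d ∈ (chainsOn (psubIn ℓ (⊤ : Subgroup Y₂)) ⊥).filter
      (fun d => NormalChain d ∧ FixC (tw α₂ n) d ∧ FixC (tw β₂ m) d),
        (-1) ^ (d.card + 1) * T₂ n m d)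

end Pool.Agent.PP
end
end -- Pool.Agent.Helper31_PP.PrdStmts

section -- Pool.Agent.Helper9_PP.Prc

/-!
# Squad PP, part R2, module PRC: the chains of a direct product
-/

open scoped BigOperators

set_option linter.unusedSectionVars false

noncomputable section

namespace Pool.Agent.PP.H9

open Pool.Agent.PP Pool.Agent.Helper51_AWC Pool.Agent.Helper79_WRA

section spc

variable {A B : Type} [PartialOrder A] [PartialOrder B]

open Classical in
theorem img_fst {s : Finset A} {t : Finset B} {a : A} {b : B} {d : Finset (A × B)}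
    (hd : d ∈ chainsOn (s ×ˢ t) (a, b)) : d.image Prod.fst ∈ chainsOn s a := by
  obtain ⟨h1, h2, h3⟩ := mem_chainsOn.1 hd
  rw [mem_chainsOn]
  refine ⟨?_, Finset.mem_image.2 ⟨_, h2, rfl⟩, ?_⟩
  · intro x hx
    obtain ⟨p, hp, rfl⟩ := Finset.mem_image.1 hx
    exact (Finset.mem_product.1 (h1 hp)).1
  · intro x hx y hy _
    rw [Finset.mem_coe] at hx hy
    obtain ⟨p, hp, rfl⟩ := Finset.mem_image.1 hx
    obtain ⟨q, hq, rfl⟩ := Finset.mem_image.1 hy
    rcases chain_total h3 hp hq with h | h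
    · left; exact h.1
    · right; exact h.1

open Classical in
theorem img_snd {s : Finset A} {t : Finset B} {a : A} {b : B} {d : Finset (A × B)}
    (hd : d ∈ chainsOn (s ×ˢ t) (a, b)) : d.image Prod.snd ∈ chainsOn t b := by
  obtain ⟨h1, h2, h3⟩ := mem_chainsOn.1 hd
  rw [mem_chainsOn]
  refine ⟨?_, Finset.mem_image.2 ⟨_, h2, rfl⟩, ?_⟩
  · intro x hx
    obtain ⟨p, hp, rfl⟩ := Finset.mem_image.1 hx
    exact (Finset.mem_product.1 (h1 hp)).2
  · intro x hx y hy _
    rw [Finset.mem_coe] at hx hy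
    obtain ⟨p, hp, rfl⟩ := Finset.mem_image.1 hx
    obtain ⟨q, hq, rfl⟩ := Finset.mem_image.1 hy
    rcases chain_total h3 hp hq with h | h
    · left; exact h.2
    · right; exact h.2

open Classical in
/-- the complex version of `sum_prod_chains` -/
theorem spc (s : Finset A) (a : A) (t : Finset B) (b : B)
    (has : ∀ x ∈ s, a ≤ x) (hbt : ∀ y ∈ t, b ≤ y) (F : Finset A → Finset B → ℂ) :
    ∑ d ∈ chainsOn (s ×ˢ t) (a, b), (-1) ^ (d.card + 1) *
        F (d.image Prod.fst) (d.image Prod.snd) =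
      ∑ c ∈ chainsOn s a, ∑ c' ∈ chainsOn t b, (-1) ^ (c.card + 1) * (-1) ^ (c'.card + 1) *
        F c c' := by
  have h1 : ∀ d ∈ chainsOn (s ×ˢ t) (a, b), (-1) ^ (d.card + 1) *
      F (d.image Prod.fst) (d.image Prod.snd) =
      ∑ c ∈ chainsOn s a, ∑ c' ∈ chainsOn t b, (((-1) ^ (d.card + 1) *
        (if d.image Prod.fst = c ∧ d.image Prod.snd = c' then 1 else 0) : ℤ) : ℂ) * F c c' := by
    intro d hd
    rw [Finset.sum_eq_single (d.image Prod.fst), Finset.sum_eq_single (d.image Prod.snd)]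
    · rw [if_pos ⟨rfl, rfl⟩]
      push_cast
      ring
    · intro c' _ h
      rw [if_neg (fun h' => h h'.2.symm)]
      simp
    · intro h
      exact absurd (img_snd hd) h
    · intro c _ h
      apply Finset.sum_eq_zero
      intro c' _
      rw [if_neg (fun h' => h h'.1.symm)]
      simp
    · intro h
      exact absurd (img_fst hd) h
  rw [Finset.sum_congr rfl h1, Finset.sum_comm]
  refine Finset.sum_congr rfl fun c hc => ?_
  rw [Finset.sum_comm]
  refine Finset.sum_congr rfl fun c' hc' => ?_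
  rw [← Finset.sum_mul, ← Int.cast_sum, sum_prod_chains s a t b has hbt
    (fun x x' => if x = c ∧ x' = c' then 1 else 0)]
  congr 1
  rw [Finset.sum_eq_single c, Finset.sum_eq_single c']
  · rw [if_pos ⟨rfl, rfl⟩]
    push_cast
    ring
  · intro x _ h
    rw [if_neg (fun h' => h h'.2), mul_zero]
  · intro h
    exact absurd hc' h
  · intro x _ h
    apply Finset.sum_eq_zero
    intro y _
    rw [if_neg (fun h' => h h'.1), mul_zero]
  · intro h
    exact absurd hc h

end spc

section grp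

variable {Y₁ Y₂ : Type} [Group Y₁] [Group Y₂]

theorem tw_prod (α₁ : MulAut Y₁) (α₂ : MulAut Y₂) (n : Y₁ × Y₂) :
    tw (MulEquiv.prodCongr α₁ α₂ : MulAut (Y₁ × Y₂)) n =
      (MulEquiv.prodCongr (tw α₁ n.1) (tw α₂ n.2) : MulAut (Y₁ × Y₂)) := by
  ext x <;> rfl

theorem map_prodCongr (γ₁ : MulAut Y₁) (γ₂ : MulAut Y₂) (P : Subgroup Y₁) (Q : Subgroup Y₂) :
    (P.prod Q).map (MulEquiv.prodCongr γ₁ γ₂ : MulAut (Y₁ × Y₂)).toMonoidHom =
      (P.map γ₁.toMonoidHom).prod (Q.map γ₂.toMonoidHom) := by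
  ext x
  constructor
  · rintro ⟨y, hy, rfl⟩
    have hy' := Subgroup.mem_prod.1 hy
    exact Subgroup.mem_prod.2 ⟨⟨y.1, hy'.1, rfl⟩, ⟨y.2, hy'.2, rfl⟩⟩
  · intro hx
    obtain ⟨⟨y, hy, h1⟩, ⟨z, hz, h2⟩⟩ := Subgroup.mem_prod.1 hx
    exact ⟨(y, z), Subgroup.mem_prod.2 ⟨hy, hz⟩, Prod.ext h1 h2⟩

theorem clos_map (γ₁ : MulAut Y₁) (γ₂ : MulAut Y₂) (D : Subgroup (Y₁ × Y₂)) :
    clos (D.map (MulEquiv.prodCongr γ₁ γ₂ : MulAut (Y₁ × Y₂)).toMonoidHom) =
      (clos D).map (MulEquiv.prodCongr γ₁ γ₂ : MulAut (Y₁ × Y₂)).toMonoidHom := by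
  rw [clos, clos, map_prodCongr]
  congr 1
  · rw [Subgroup.map_map, Subgroup.map_map]
    rfl
  · rw [Subgroup.map_map, Subgroup.map_map]
    rfl

theorem norm_prod (P : Subgroup Y₁) (Q : Subgroup Y₂) :
    Subgroup.normalizer ((P.prod Q : Subgroup (Y₁ × Y₂)) : Set (Y₁ × Y₂)) =
      (Subgroup.normalizer (P : Set Y₁)).prod (Subgroup.normalizer (Q : Set Y₂)) := by
  ext x
  rw [Subgroup.mem_prod, mem_normalizer_iff_conjS, mem_normalizer_iff_conjS,
    mem_normalizer_iff_conjS, conjS_prod, prod_inj]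

theorem prod_le_prod {P P' : Subgroup Y₁} {Q Q' : Subgroup Y₂} :
    P.prod Q ≤ P'.prod Q' ↔ P ≤ P' ∧ Q ≤ Q' := by
  constructor
  · intro h
    have h1 := Subgroup.map_mono (f := MonoidHom.fst Y₁ Y₂) h
    have h2 := Subgroup.map_mono (f := MonoidHom.snd Y₁ Y₂) h
    rw [map_fst_prod, map_fst_prod] at h1
    rw [map_snd_prod, map_snd_prod] at h2
    exact ⟨h1, h2⟩
  · rintro ⟨h1, h2⟩
    exact Subgroup.prod_mono h1 h2

theorem clos_norm {E : Subgroup (Y₁ × Y₂)} (hE : clos E = E) :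
    clos (Subgroup.normalizer (E : Set (Y₁ × Y₂))) = Subgroup.normalizer (E : Set (Y₁ × Y₂)) := by
  rw [← hE]
  unfold clos
  rw [norm_prod]
  rw [map_fst_prod, map_snd_prod]

open Classical in
theorem fixC_map (γ₁ : MulAut Y₁) (γ₂ : MulAut Y₂) (d : Finset (Subgroup Y₁ × Subgroup Y₂)) :
    FixC (MulEquiv.prodCongr γ₁ γ₂ : MulAut (Y₁ × Y₂)) (d.map (prodEmb Y₁ Y₂)) ↔
      FixC γ₁ (d.image Prod.fst) ∧ FixC γ₂ (d.image Prod.snd) := by
  constructor
  · intro h
    constructor
    · intro P hP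
      obtain ⟨p, hp, rfl⟩ := Finset.mem_image.1 hP
      have h1 : (p.1.prod p.2).map
          (MulEquiv.prodCongr γ₁ γ₂ : MulAut (Y₁ × Y₂)).toMonoidHom = p.1.prod p.2 :=
        h (prodEmb Y₁ Y₂ p) (Finset.mem_map_of_mem _ hp)
      rw [map_prodCongr, prod_inj] at h1
      exact h1.1
    · intro P hP
      obtain ⟨p, hp, rfl⟩ := Finset.mem_image.1 hP
      have h1 : (p.1.prod p.2).map
          (MulEquiv.prodCongr γ₁ γ₂ : MulAut (Y₁ × Y₂)).toMonoidHom = p.1.prod p.2 :=
        h (prodEmb Y₁ Y₂ p) (Finset.mem_map_of_mem _ hp)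
      rw [map_prodCongr, prod_inj] at h1
      exact h1.2
  · rintro ⟨h1, h2⟩ D hD
    obtain ⟨p, hp, rfl⟩ := Finset.mem_map.1 hD
    change (p.1.prod p.2).map
      (MulEquiv.prodCongr γ₁ γ₂ : MulAut (Y₁ × Y₂)).toMonoidHom = p.1.prod p.2
    rw [map_prodCongr, prod_inj]
    exact ⟨h1 _ (Finset.mem_image_of_mem _ hp), h2 _ (Finset.mem_image_of_mem _ hp)⟩

theorem top_eq {G : Type} [Group G] {d : Finset (Subgroup G)} {P : Subgroup G} (hP : P ∈ d)
    (h : ∀ Q ∈ d, Q ≤ P) : top d = P :=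
  le_antisymm (sSup_le fun Q hQ => h Q hQ) (le_sSup hP)

open Classical in
theorem normal_map {s : Finset (Subgroup Y₁ × Subgroup Y₂)}
    {b : Subgroup Y₁ × Subgroup Y₂} {d : Finset (Subgroup Y₁ × Subgroup Y₂)}
    (hd : d ∈ chainsOn s b) :
    NormalChain (d.map (prodEmb Y₁ Y₂)) ↔
      NormalChain (d.image Prod.fst) ∧ NormalChain (d.image Prod.snd) := by
  obtain ⟨_, h2, h3⟩ := mem_chainsOn.1 hd
  obtain ⟨p, hp, hmax⟩ := exists_greatest h3 ⟨b, h2⟩
  have t1 : top (d.image Prod.fst) = p.1 := by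
    apply top_eq (Finset.mem_image_of_mem _ hp)
    intro Q hQ
    obtain ⟨q, hq, rfl⟩ := Finset.mem_image.1 hQ
    exact (hmax q hq).1
  have t2 : top (d.image Prod.snd) = p.2 := by
    apply top_eq (Finset.mem_image_of_mem _ hp)
    intro Q hQ
    obtain ⟨q, hq, rfl⟩ := Finset.mem_image.1 hQ
    exact (hmax q hq).2
  have t3 : top (d.map (prodEmb Y₁ Y₂)) = p.1.prod p.2 := by
    apply top_eq (Finset.mem_map.2 ⟨p, hp, rfl⟩)
    intro Q hQ
    obtain ⟨q, hq, rfl⟩ := Finset.mem_map.1 hQ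
    exact Subgroup.prod_mono (hmax q hq).1 (hmax q hq).2
  unfold NormalChain
  rw [t1, t2, t3]
  constructor
  · intro h
    constructor
    · intro P hP
      obtain ⟨q, hq, rfl⟩ := Finset.mem_image.1 hP
      have h1 : p.1.prod p.2 ≤
          Subgroup.normalizer ((q.1.prod q.2 : Subgroup (Y₁ × Y₂)) : Set (Y₁ × Y₂)) :=
        h (prodEmb Y₁ Y₂ q) (Finset.mem_map_of_mem _ hq)
      rw [norm_prod, prod_le_prod] at h1
      exact h1.1
    · intro P hP
      obtain ⟨q, hq, rfl⟩ := Finset.mem_image.1 hP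
      have h1 : p.1.prod p.2 ≤
          Subgroup.normalizer ((q.1.prod q.2 : Subgroup (Y₁ × Y₂)) : Set (Y₁ × Y₂)) :=
        h (prodEmb Y₁ Y₂ q) (Finset.mem_map_of_mem _ hq)
      rw [norm_prod, prod_le_prod] at h1
      exact h1.2
  · rintro ⟨h1, h2⟩ D hD
    obtain ⟨q, hq, rfl⟩ := Finset.mem_map.1 hD
    change p.1.prod p.2 ≤
      Subgroup.normalizer ((q.1.prod q.2 : Subgroup (Y₁ × Y₂)) : Set (Y₁ × Y₂))
    rw [norm_prod, prod_le_prod]
    exact ⟨h1 _ (Finset.mem_image_of_mem _ hq), h2 _ (Finset.mem_image_of_mem _ hq)⟩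

end grp

section chains

variable {Y₁ Y₂ : Type} [Group Y₁] [Group Y₂] [Finite Y₁] [Finite Y₂]

open Classical in
/-- the closed chains of `Y₁ × Y₂` are the chains of pairs -/
theorem sum_closed (ℓ : ℕ) (g : Finset (Subgroup (Y₁ × Y₂)) → ℂ) :
    ∑ d ∈ (chainsOn (psubIn ℓ (⊤ : Subgroup (Y₁ × Y₂))) ⊥).filter
        (fun d => ∀ D ∈ d, clos D = D), g d =
      ∑ d ∈ chainsOn (psubIn ℓ (⊤ : Subgroup Y₁) ×ˢ psubIn ℓ (⊤ : Subgroup Y₂)) (⊥, ⊥),
        g (d.map (prodEmb Y₁ Y₂)) := by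
  have hbot : (⊥ : Subgroup (Y₁ × Y₂)) = (⊥ : Subgroup Y₁).prod (⊥ : Subgroup Y₂) :=
    (Subgroup.bot_prod_bot).symm
  symm
  apply Finset.sum_bij (fun d _ => d.map (prodEmb Y₁ Y₂))
  · intro d hd
    obtain ⟨l1, l2, l3⟩ := mem_chainsOn.1 hd
    rw [Finset.mem_filter, mem_chainsOn]
    refine ⟨⟨?_, ?_, ?_⟩, ?_⟩
    · intro D hD
      obtain ⟨p, hp, rfl⟩ := Finset.mem_map.1 hD
      have h2 := Finset.mem_product.1 (l1 hp)
      rw [mem_psubIn, mem_psubIn] at h2
      rw [mem_psubIn]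
      exact ⟨le_top, isPGroup_prod h2.1.2 h2.2.2⟩
    · rw [hbot]
      exact Finset.mem_map.2 ⟨_, l2, rfl⟩
    · intro D hD E hE hne
      rw [Finset.mem_coe] at hD hE
      obtain ⟨p, hp, rfl⟩ := Finset.mem_map.1 hD
      obtain ⟨q, hq, rfl⟩ := Finset.mem_map.1 hE
      rcases chain_total l3 hp hq with h | h
      · left; exact Subgroup.prod_mono h.1 h.2
      · right; exact Subgroup.prod_mono h.1 h.2
    · intro D hD
      obtain ⟨p, hp, rfl⟩ := Finset.mem_map.1 hD
      exact clos_prod _ _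
  · intro d _ e _ h
    exact Finset.map_injective _ h
  · intro D hD
    rw [Finset.mem_filter, mem_chainsOn] at hD
    obtain ⟨⟨l1, l2, l3⟩, l4⟩ := hD
    have hform : ∀ E ∈ D, E = (E.map (MonoidHom.fst Y₁ Y₂)).prod
        (E.map (MonoidHom.snd Y₁ Y₂)) := fun E hE => (l4 E hE).symm
    refine ⟨D.image (fun E => (E.map (MonoidHom.fst Y₁ Y₂), E.map (MonoidHom.snd Y₁ Y₂))),
      ?_, ?_⟩
    · rw [mem_chainsOn]
      refine ⟨?_, ?_, ?_⟩
      · intro p hp
        obtain ⟨E, hE, rfl⟩ := Finset.mem_image.1 hp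
        rw [Finset.mem_product, mem_psubIn, mem_psubIn]
        exact ⟨⟨le_top, (mem_psubIn.1 (l1 hE)).2.map _⟩, ⟨le_top, (mem_psubIn.1 (l1 hE)).2.map _⟩⟩
      · refine Finset.mem_image.2 ⟨_, l2, ?_⟩
        rw [Subgroup.map_bot, Subgroup.map_bot]
      · intro p hp q hq hne
        rw [Finset.mem_coe] at hp hq
        obtain ⟨E, hE, rfl⟩ := Finset.mem_image.1 hp
        obtain ⟨F, hF, rfl⟩ := Finset.mem_image.1 hq
        rcases chain_total l3 hE hF with h | h
        · left; exact ⟨Subgroup.map_mono h, Subgroup.map_mono h⟩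
        · right; exact ⟨Subgroup.map_mono h, Subgroup.map_mono h⟩
    · ext E
      rw [Finset.mem_map]
      constructor
      · rintro ⟨p, hp, rfl⟩
        obtain ⟨F, hF, rfl⟩ := Finset.mem_image.1 hp
        change (F.map (MonoidHom.fst Y₁ Y₂)).prod (F.map (MonoidHom.snd Y₁ Y₂)) ∈ D
        rw [← hform F hF]; exact hF
      · intro hE
        exact ⟨_, Finset.mem_image_of_mem _ hE, (hform E hE).symm⟩
  · intro d _
    rfl

theorem fsum_prod (A : Y₁ → Y₁ → ℂ) (B : Y₂ → Y₂ → ℂ) :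
    ∑ᶠ (n : Y₁ × Y₂) (m : Y₁ × Y₂), A n.1 m.1 * B n.2 m.2 =
      (∑ᶠ (n : Y₁) (m : Y₁), A n m) * (∑ᶠ (n : Y₂) (m : Y₂), B n m) := by
  have := Fintype.ofFinite Y₁
  have := Fintype.ofFinite Y₂
  simp only [finsum_eq_sum_of_fintype]
  rw [Fintype.sum_prod_type, Finset.sum_mul_sum]
  refine Finset.sum_congr rfl fun n₁ _ => Finset.sum_congr rfl fun n₂ _ => ?_
  rw [Fintype.sum_prod_type, Finset.sum_mul_sum]

end chains

open Classical in
/-- PRC from BOX. -/
theorem prc (hbox : BoxStmt) : PrcStmt := by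
  intro ℓ _ F _ hF Y₁ Y₂ _ _ _ _ f w α₁ β₁ α₂ β₂ τ T₁ T₂ hT
  have hconj : ∀ n : Y₁ × Y₂, (MulAut.conj n : MulAut (Y₁ × Y₂)) =
      (MulEquiv.prodCongr (MulAut.conj n.1) (MulAut.conj n.2) : MulAut (Y₁ × Y₂)) := by
    intro n
    ext x <;> rfl
  rw [hbox ℓ F hF (Y₁ × Y₂) f (MulEquiv.prodCongr α₁ α₂) (MulEquiv.prodCongr β₁ β₂) w τ clos
    (fun D hD => isPGroup_prod (hD.map _) (hD.map _)) (fun D => le_clos D)
    (fun D E h => clos_mono h) (fun D => clos_clos D)
    (by rw [← Subgroup.bot_prod_bot]; exact clos_prod _ _)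
    (fun n D => by rw [hconj]; exact clos_map _ _ _)
    (fun D => clos_map _ _ _) (fun D => clos_map _ _ _)
    (fun s hs D hD _ => le_antisymm (le_inf ((clos_mono inf_le_left).trans hD.le)
      (le_iInf₂ fun E hE => (clos_mono (inf_le_right.trans (iInf₂_le E hE))).trans
        (clos_norm (hs E hE)).le)) (le_clos _))]
  rw [← fsum_prod]
  refine finsum_congr fun n => finsum_congr fun m => ?_
  have e0 : ∑ d ∈ (chainsOn (psubIn ℓ (⊤ : Subgroup (Y₁ × Y₂))) ⊥).filter
      (fun d => NormalChain d ∧ (FixC (tw (MulEquiv.prodCongr α₁ α₂) n) d ∧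
        FixC (tw (MulEquiv.prodCongr β₁ β₂) m) d) ∧ ∀ D ∈ d, clos D = D),
      (-1) ^ (d.card + 1) * tcon τ f (tw (MulEquiv.prodCongr α₁ α₂) n)
        (tw (MulEquiv.prodCongr β₁ β₂) m)
        (fun y => w (cc (MulEquiv.prodCongr α₁ α₂) (MulEquiv.prodCongr β₁ β₂) n m * y)) d =
      ∑ d ∈ (chainsOn (psubIn ℓ (⊤ : Subgroup (Y₁ × Y₂))) ⊥).filter
        (fun d => ∀ D ∈ d, clos D = D),
        if NormalChain d ∧ FixC (tw (MulEquiv.prodCongr α₁ α₂) n) d ∧
          FixC (tw (MulEquiv.prodCongr β₁ β₂) m) d then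
        (-1) ^ (d.card + 1) * tcon τ f (tw (MulEquiv.prodCongr α₁ α₂) n)
          (tw (MulEquiv.prodCongr β₁ β₂) m)
          (fun y => w (cc (MulEquiv.prodCongr α₁ α₂) (MulEquiv.prodCongr β₁ β₂) n m * y)) d
        else 0 := by
    rw [← Finset.sum_filter, Finset.filter_filter]
    refine Finset.sum_congr ?_ fun _ _ => rfl
    ext d
    rw [Finset.mem_filter, Finset.mem_filter]
    tauto
  rw [e0, sum_closed]
  have e1 : ∀ d ∈ chainsOn (psubIn ℓ (⊤ : Subgroup Y₁) ×ˢ psubIn ℓ (⊤ : Subgroup Y₂)) (⊥, ⊥),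
      (if NormalChain (d.map (prodEmb Y₁ Y₂)) ∧
          FixC (tw (MulEquiv.prodCongr α₁ α₂) n) (d.map (prodEmb Y₁ Y₂)) ∧
          FixC (tw (MulEquiv.prodCongr β₁ β₂) m) (d.map (prodEmb Y₁ Y₂)) then
        (-1) ^ ((d.map (prodEmb Y₁ Y₂)).card + 1) * tcon τ f (tw (MulEquiv.prodCongr α₁ α₂) n)
          (tw (MulEquiv.prodCongr β₁ β₂) m)
          (fun y => w (cc (MulEquiv.prodCongr α₁ α₂) (MulEquiv.prodCongr β₁ β₂) n m * y))
          (d.map (prodEmb Y₁ Y₂))
        else 0) = (-1) ^ (d.card + 1) *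
        ((if NormalChain (d.image Prod.fst) ∧ FixC (tw α₁ n.1) (d.image Prod.fst) ∧
            FixC (tw β₁ m.1) (d.image Prod.fst) then T₁ n.1 m.1 (d.image Prod.fst) else 0) *
          (if NormalChain (d.image Prod.snd) ∧ FixC (tw α₂ n.2) (d.image Prod.snd) ∧
            FixC (tw β₂ m.2) (d.image Prod.snd) then T₂ n.2 m.2 (d.image Prod.snd) else 0)) := by
    intro d hd
    have hn := normal_map hd
    have hf1 := fixC_map (tw α₁ n.1) (tw α₂ n.2) d
    have hf2 := fixC_map (tw β₁ m.1) (tw β₂ m.2) d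
    rw [← tw_prod] at hf1 hf2
    by_cases h : NormalChain (d.map (prodEmb Y₁ Y₂)) ∧
          FixC (tw (MulEquiv.prodCongr α₁ α₂) n) (d.map (prodEmb Y₁ Y₂)) ∧
          FixC (tw (MulEquiv.prodCongr β₁ β₂) m) (d.map (prodEmb Y₁ Y₂))
    · have a1 := hn.1 h.1
      have a2 := hf1.1 h.2.1
      have a3 := hf2.1 h.2.2
      have hmem : d.map (prodEmb Y₁ Y₂) ∈ chainsOn (psubIn ℓ (⊤ : Subgroup (Y₁ × Y₂))) ⊥ := by
        obtain ⟨l1, l2, l3⟩ := mem_chainsOn.1 hd
        rw [mem_chainsOn]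
        refine ⟨?_, ?_, ?_⟩
        · intro D hD
          obtain ⟨p, hp, rfl⟩ := Finset.mem_map.1 hD
          have h2 := Finset.mem_product.1 (l1 hp)
          rw [mem_psubIn, mem_psubIn] at h2
          rw [mem_psubIn]
          exact ⟨le_top, isPGroup_prod h2.1.2 h2.2.2⟩
        · rw [← Subgroup.bot_prod_bot]
          exact Finset.mem_map.2 ⟨_, l2, rfl⟩
        · intro D hD E hE hne
          rw [Finset.mem_coe] at hD hE
          obtain ⟨p, hp, rfl⟩ := Finset.mem_map.1 hD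
          obtain ⟨q, hq, rfl⟩ := Finset.mem_map.1 hE
          rcases chain_total l3 hp hq with h | h
          · left; exact Subgroup.prod_mono h.1 h.2
          · right; exact Subgroup.prod_mono h.1 h.2
      rw [if_pos h, if_pos ⟨a1.1, a2.1, a3.1⟩, if_pos ⟨a1.2, a2.2, a3.2⟩, Finset.card_map]
      rw [hT n m (d.image Prod.fst) (img_fst hd) a1.1 a2.1 a3.1 (d.image Prod.snd) (img_snd hd)
        a1.2 a2.2 a3.2 (d.map (prodEmb Y₁ Y₂)) hmem h.1 h.2.1 h.2.2 (stab_prod d)]
    · rw [if_neg h]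
      by_cases h1 : NormalChain (d.image Prod.fst) ∧ FixC (tw α₁ n.1) (d.image Prod.fst) ∧
            FixC (tw β₁ m.1) (d.image Prod.fst)
      · by_cases h2 : NormalChain (d.image Prod.snd) ∧ FixC (tw α₂ n.2) (d.image Prod.snd) ∧
            FixC (tw β₂ m.2) (d.image Prod.snd)
        · exact absurd ⟨hn.2 ⟨h1.1, h2.1⟩, hf1.2 ⟨h1.2.1, h2.2.1⟩, hf2.2 ⟨h1.2.2, h2.2.2⟩⟩ h
        · rw [if_neg h2, mul_zero, mul_zero]
      · rw [if_neg h1, zero_mul, mul_zero]
  rw [Finset.sum_congr rfl e1, spc _ _ _ _ (fun _ _ => bot_le) (fun _ _ => bot_le)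
    (fun c c' => (if NormalChain c ∧ FixC (tw α₁ n.1) c ∧ FixC (tw β₁ m.1) c then
        T₁ n.1 m.1 c else 0) *
      (if NormalChain c' ∧ FixC (tw α₂ n.2) c' ∧ FixC (tw β₂ m.2) c' then
        T₂ n.2 m.2 c' else 0)), Finset.sum_filter, Finset.sum_filter, Finset.sum_mul_sum]
  refine Finset.sum_congr rfl fun c _ => Finset.sum_congr rfl fun c' _ => ?_
  by_cases h1 : NormalChain c ∧ FixC (tw α₁ n.1) c ∧ FixC (tw β₁ m.1) c
  · by_cases h2 : NormalChain c' ∧ FixC (tw α₂ n.2) c' ∧ FixC (tw β₂ m.2) c'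
    · rw [if_pos h1, if_pos h2, if_pos h1, if_pos h2]
      ring
    · rw [if_neg h2, if_neg h2, mul_zero, mul_zero, mul_zero]
  · rw [if_neg h1, if_neg h1, zero_mul, mul_zero, zero_mul]

end Pool.Agent.PP.H9
end
end -- Pool.Agent.Helper9_PP.Prc

section -- Pool.Agent.Helper43_PP.Scl

/-!
# Squad PP, part R2, module SCL: the vanishing of the pair sum does not depend on the unit
-/

open scoped BigOperators

set_option autoImplicit false
set_option linter.unusedSectionVars false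

noncomputable section

namespace Pool.Agent.PP.H43

open Pool.Agent.Helper51_AWC Pool.Agent.Helper79_WRA Pool.Agent.PP

section alg

variable {F H : Type} [Field F] [Group H] [Finite H]

theorem tr_ne_zero' {n : ℕ} {ρ : H →* Matrix (Fin n) (Fin n) F} (hρ : IsIrr ρ) : tr ρ ≠ 0 := by
  intro h0
  have h1 : ∀ B : Matrix (Fin n) (Fin n) F, B.trace = 0 := by
    intro B
    have hB : B ∈ Submodule.span F (Set.range ρ) := by
      rw [hρ.2]; trivial
    induction hB using Submodule.span_induction with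
    | mem x hx =>
      obtain ⟨h, rfl⟩ := hx
      exact congrFun h0 h
    | zero => exact Matrix.trace_zero _ _
    | add x y _ _ hx hy => rw [Matrix.trace_add, hx, hy, add_zero]
    | smul c x _ hx => rw [Matrix.trace_smul, hx, smul_zero]
  have h2 := h1 (Matrix.single ⟨0, hρ.1⟩ ⟨0, hρ.1⟩ 1)
  rw [Matrix.trace_single_eq_same] at h2
  exact one_ne_zero h2

/-- In a commutative artinian ring the powers of an element become stable. -/
theorem exists_stable {x : MonoidAlgebra F H} (hx : x ∈ Subalgebra.center F (MonoidAlgebra F H)) :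
    ∃ (n : ℕ) (c : MonoidAlgebra F H), c ∈ Subalgebra.center F (MonoidAlgebra F H) ∧
      x ^ (n + 1) * c = x ^ n := by
  have hfin : Module.Finite F (MonoidAlgebra F H) :=
    Module.Finite.equiv (maL (F := F) (H := H))
  have hfin2 : Module.Finite F (Subalgebra.center F (MonoidAlgebra F H)) :=
    inferInstanceAs (Module.Finite F (Subalgebra.center F (MonoidAlgebra F H)).toSubmodule)
  have hart : IsArtinianRing (Subalgebra.center F (MonoidAlgebra F H)) :=
    IsArtinianRing.of_finite F _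
  obtain ⟨n, y, hy⟩ := IsArtinian.exists_pow_succ_smul_dvd
    (⟨x, hx⟩ : Subalgebra.center F (MonoidAlgebra F H))
    (1 : Subalgebra.center F (MonoidAlgebra F H))
  refine ⟨n, y, y.2, ?_⟩
  have h := congrArg Subtype.val hy
  simpa using h

/-- The idempotent of Fitting. -/
theorem exists_fitting {x : MonoidAlgebra F H}
    (hx : x ∈ Subalgebra.center F (MonoidAlgebra F H)) :
    ∃ (k : ℕ) (G y : MonoidAlgebra F H), G ∈ Subalgebra.center F (MonoidAlgebra F H) ∧
      G * G = G ∧ G * x ^ (k + 1) = x ^ (k + 1) ∧ G = x ^ (k + 1) * y := by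
  obtain ⟨n, c, hc, h⟩ := exists_stable hx
  have hcx : ∀ w : MonoidAlgebra F H, c * w = w * c := fun w =>
    ((Subalgebra.mem_center_iff.1 hc) w).symm
  have key : ∀ j : ℕ, x ^ (n + 1 + j) * c ^ j = x ^ (n + 1) := by
    intro j
    induction j with
    | zero => rw [add_zero, pow_zero, mul_one]
    | succ j ih =>
      calc x ^ (n + 1 + (j + 1)) * c ^ (j + 1) = x ^ (j + 1) * (x ^ (n + 1) * c) * c ^ j := by
            rw [pow_succ' c j, ← mul_assoc, ← mul_assoc, ← pow_add]
            congr 3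
            omega
        _ = x ^ (n + 1 + j) * c ^ j := by
            rw [h, ← pow_add]
            congr 2
            omega
        _ = _ := ih
  have hcc : ∀ (j : ℕ) (w : MonoidAlgebra F H), c ^ j * w = w * c ^ j := by
    intro j w
    exact (Commute.pow_left (show Commute c w from hcx w) j)
  refine ⟨n, x ^ (n + 1) * c ^ (n + 1), c ^ (n + 1), ?_, ?_, ?_, rfl⟩
  · exact mul_mem (pow_mem hx _) (pow_mem hc _)
  · calc x ^ (n + 1) * c ^ (n + 1) * (x ^ (n + 1) * c ^ (n + 1)) =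
          x ^ (n + 1) * (c ^ (n + 1) * x ^ (n + 1)) * c ^ (n + 1) := by
            simp only [mul_assoc]
      _ = (x ^ (n + 1 + (n + 1)) * c ^ (n + 1)) * c ^ (n + 1) := by
            rw [hcc, pow_add x (n + 1) (n + 1)]
            simp only [mul_assoc]
      _ = _ := by rw [key]
  · rw [mul_assoc, hcc, ← mul_assoc, ← pow_add, key]

/-- a block acts as the identity in some irreducible representation -/
theorem exists_rep {ℓ : ℕ} (hF : GoodF ℓ F) {f : H → F} (hf : IsIdem f) (hf0 : f ≠ 0) :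
    ∃ (n : ℕ) (ρ : H →* Matrix (Fin n) (Fin n) F), IsIrr ρ ∧ ev ρ f = 1 := by
  by_contra hcon
  push Not at hcon
  obtain ⟨k, hk⟩ := H20.ibn ℓ F hF H f (by
    intro n ρ hρ
    obtain ⟨w, hw, -, hw2⟩ := H20.eig F H n ρ hρ f hf.1
    rcases hw2 hf with rfl | rfl
    · rw [hw, map_zero]
    · exact absurd (by rw [hw, map_one]) (hcon n ρ hρ))
  apply hf0
  apply ma_injective
  rw [← hk, ma_iterate]
  have he : ma f * ma f = ma f := by rw [← ma_mul, hf.2]
  have : ∀ j : ℕ, ma f ^ j * ma f = ma f := by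
    intro j
    induction j with
    | zero => rw [pow_zero, one_mul]
    | succ j ih => rw [pow_succ, mul_assoc, he, ih]
  exact (this k).symm

/-- The residue of a central element under a block. -/
theorem residue {ℓ : ℕ} (hF : GoodF ℓ F) {f z : H → F} (hf : IsBlk f) (hz : IsCl z)
    (hfz : mulF f z = z) :
    ∃ (c : F) (k : ℕ), (mulF (z - c • f))^[k] (z - c • f) = 0 := by
  obtain ⟨n, ρ, hρ, hρf⟩ := exists_rep hF hf.1 hf.2.1
  obtain ⟨c, hc, -, -⟩ := H20.eig F H n ρ hρ z hz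
  refine ⟨c, ?_⟩
  have hn : n ≠ 0 := hρ.1.ne'
  have hfc : ma f ∈ Subalgebra.center F (MonoidAlgebra F H) := (isCl_iff f).1 hf.1.1
  have hzc : ma z ∈ Subalgebra.center F (MonoidAlgebra F H) := (isCl_iff z).1 hz
  have hff : ma f * ma f = ma f := by rw [← ma_mul, hf.1.2]
  have hfz' : ma f * ma z = ma z := by rw [← ma_mul, hfz]
  set x : MonoidAlgebra F H := ma (z - c • f) with hx
  have hx' : x = ma z - c • ma f := by rw [hx, ma_sub, ma_smul]
  have hxc : x ∈ Subalgebra.center F (MonoidAlgebra F H) := by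
    rw [hx']
    exact sub_mem hzc (Subalgebra.smul_mem _ hfc c)
  have hfx : ma f * x = x := by rw [hx', mul_sub, hfz', mul_smul_comm, hff]
  have hρx : repA ρ x = 0 := by
    rw [hx', map_sub, map_smul, ← ev_eq, ← ev_eq, hc, hρf, Matrix.smul_one_eq_diagonal]
    exact sub_self _
  obtain ⟨k, G, y, hGc, hGG, hGx, hGy⟩ := exists_fitting hxc
  obtain ⟨g, hg⟩ := ma_surjective G
  have hgI : IsIdem g := by
    rw [isIdem_iff, hg]
    exact ⟨hGc, hGG⟩
  have hfg : mulF f g = g := by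
    apply ma_injective
    rw [ma_mul, hg, hGy, pow_succ', ← mul_assoc, ← mul_assoc, hfx]
  refine ⟨k, ?_⟩
  apply ma_injective
  rw [ma_iterate, ma_zero, ← pow_succ, ← hx]
  rcases hf.2.2 g hgI with h | h
  · exfalso
    rw [hfg] at h
    have h1 : ev ρ f = 0 := by
      rw [ev_eq, ← h, hg, hGy, map_mul, map_pow, hρx, zero_pow (Nat.succ_ne_zero k), zero_mul]
    rw [hρf] at h1
    have : Nonempty (Fin n) := ⟨⟨0, hρ.1⟩⟩
    exact one_ne_zero h1
  · rw [hfg] at h
    rw [← hGx, ← hg, h, ma_zero, zero_mul]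

end alg

section fix

variable {Y : Type} [Group Y]

theorem fixC_one (d : Finset (Subgroup Y)) : FixC (1 : MulAut Y) d := by
  intro D _
  rw [map_eq_iff]
  intro x
  exact Iff.rfl

theorem fixC_mul {γ δ : MulAut Y} {d : Finset (Subgroup Y)} (h1 : FixC γ d) (h2 : FixC δ d) :
    FixC (γ * δ) d := by
  intro D hD
  rw [map_eq_iff]
  intro x
  rw [MulAut.mul_apply, map_eq_iff.1 (h1 D hD), map_eq_iff.1 (h2 D hD)]

theorem fixC_inv {γ : MulAut Y} {d : Finset (Subgroup Y)} (h1 : FixC γ d) : FixC γ⁻¹ d := by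
  intro D hD
  rw [map_eq_iff]
  intro x
  rw [← map_eq_iff.1 (h1 D hD) (γ⁻¹ x)]
  have : γ (γ⁻¹ x) = x := γ.apply_symm_apply x
  rw [this]

theorem fixC_kap {γ δ : MulAut Y} {d : Finset (Subgroup Y)} (h1 : FixC γ d) (h2 : FixC δ d) :
    FixC (kap γ δ) d :=
  fixC_mul (fixC_mul (fixC_mul h1 h2) (fixC_inv h1)) (fixC_inv h2)

end fix

section chain

variable {F Y : Type} [Field F] [Group Y] [Finite Y]

theorem impl_one {X : Subgroup Y} {n : ℕ} (ρ : X →* Matrix (Fin n) (Fin n) F) :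
    Impl ρ (1 : MulAut Y) 1 := by
  intro h h' e
  have : h' = h := Subtype.ext e
  rw [this, Units.val_one, one_mul, mul_one]

theorem isCl_restr {a : Y → F} (ha : IsCl a) (X : Subgroup Y) : IsCl (fun t : X => a t) := by
  intro x y
  exact ha x y

/-- multiplicativity on class functions -/
theorem ev_cl_mul (hThe : TheStmt) {ℓ : ℕ} (hF : GoodF ℓ F) {d : Finset (Subgroup Y)}
    (hd : d ∈ chainsOn (psubIn ℓ (⊤ : Subgroup Y)) ⊥) (hn : NormalChain d) {n : ℕ}
    {ρ : stab d →* Matrix (Fin n) (Fin n) F} (hρ : IsIrr ρ) {a b : Y → F} (ha : IsCl a)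
    (hb : IsCl b) :
    ev ρ (fun t : stab d => a t) * ev ρ (fun t : stab d => b t) =
      ev ρ (fun t : stab d => mulF a b t) := by
  have h := hThe ℓ F hF Y d hd hn n ρ hρ 1 1 (fixC_one d) (fixC_one d) a b
    (fun m y => by rw [inv_one, MulAut.one_apply]; exact ha y m)
    (fun m y => by rw [inv_one, MulAut.one_apply]; exact hb y m) 1 (impl_one ρ)
  rw [Units.val_one, mul_one, one_mul] at h
  exact h

theorem isCl_mulF' {a b : Y → F} (ha : IsCl a) (hb : IsCl b) : IsCl (mulF a b) := by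
  rw [isCl_iff] at ha hb ⊢
  rw [ma_mul]
  exact mul_mem ha hb

theorem isCl_iter {a : Y → F} (ha : IsCl a) (k : ℕ) : IsCl ((mulF a)^[k] a) := by
  induction k with
  | zero => exact ha
  | succ k ih =>
    rw [Function.iterate_succ_apply']
    exact isCl_mulF' ha ih

theorem ev_iter (hThe : TheStmt) {ℓ : ℕ} (hF : GoodF ℓ F) {d : Finset (Subgroup Y)}
    (hd : d ∈ chainsOn (psubIn ℓ (⊤ : Subgroup Y)) ⊥) (hn : NormalChain d) {n : ℕ}
    {ρ : stab d →* Matrix (Fin n) (Fin n) F} (hρ : IsIrr ρ) {b : Y → F} (hb : IsCl b) (k : ℕ) :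
    ev ρ (fun t : stab d => (mulF b)^[k] b t) = ev ρ (fun t : stab d => b t) ^ (k + 1) := by
  induction k with
  | zero => rw [zero_add, pow_one]; rfl
  | succ k ih =>
    rw [pow_succ' _ (k + 1), ← ih, ev_cl_mul hThe hF hd hn hρ hb (isCl_iter hb k),
      Function.iterate_succ_apply']

theorem ev_residue (hThe : TheStmt) {ℓ : ℕ} (hF : GoodF ℓ F) {d : Finset (Subgroup Y)}
    (hd : d ∈ chainsOn (psubIn ℓ (⊤ : Subgroup Y)) ⊥) (hn : NormalChain d) {n : ℕ}
    {ρ : stab d →* Matrix (Fin n) (Fin n) F} (hρ : IsIrr ρ) {f z : Y → F} (hf : IsCl f)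
    (hz : IsCl z) {c : F} {k : ℕ} (hk : (mulF (z - c • f))^[k] (z - c • f) = 0)
    (hf1 : ev ρ (fun t : stab d => f t) = 1) :
    ev ρ (fun t : stab d => z t) = c • (1 : Matrix (Fin n) (Fin n) F) := by
  have hb : IsCl (z - c • f) := by
    intro x y
    change z _ - c * f _ = z x - c * f x
    rw [hz, hf]
  have h1 := ev_iter hThe hF hd hn hρ hb k
  rw [hk] at h1
  have h0 : ev ρ (fun t : stab d => (0 : Y → F) t) = 0 := by
    have : (fun t : stab d => (0 : Y → F) t) = (0 : stab d → F) := rfl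
    rw [this, ev_eq, ma_zero, map_zero]
  rw [h0] at h1
  obtain ⟨μ, hμ, -, -⟩ := H20.eig F (stab d) n ρ hρ _ (isCl_restr hb (stab d))
  rw [hμ, ← map_pow] at h1
  have : Nonempty (Fin n) := ⟨⟨0, hρ.1⟩⟩
  have h2 : μ ^ (k + 1) = 0 := by
    have h3 := congrFun (congrFun h1 ⟨0, hρ.1⟩) ⟨0, hρ.1⟩
    rw [Matrix.scalar_apply, Matrix.diagonal_apply_eq] at h3
    exact h3.symm
  have h4 : μ = 0 := pow_eq_zero_iff (Nat.succ_ne_zero k) |>.1 h2
  rw [h4, map_zero] at hμ
  have e : (fun t : stab d => z t) = (fun t : stab d => (z - c • f) t) +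
      c • (fun t : stab d => f t) := by
    funext t
    change z t = (z t - c * f t) + c * f t
    ring
  rw [e, ev_add, ev_smul, hμ, hf1, zero_add]

/-- `(c⁻¹ w) z = c⁻¹ (w z)` -/
theorem mulF_shift (c : Y) (w z : Y → F) :
    mulF (fun y => w (c * y)) z = fun y => mulF w z (c * y) := by
  funext x
  unfold mulF
  have h := finsum_comp_equiv (Equiv.mulLeft c)
    (f := fun t => w t * z (t⁻¹ * (c * x)))
  rw [← h]
  refine finsum_congr fun t => ?_
  simp only [Equiv.coe_mulLeft, mul_inv_rev, mul_assoc, inv_mul_cancel_left]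

end chain

/-- The algebra of units. -/
theorem unit_alg {F Y : Type} [Field F] [Group Y] [Finite Y] {f : Y → F} {γ : MulAut Y}
    {w wi w' wi' : Y → F} (hf : IsIdem f) (h : Unt f γ w wi) (h' : Unt f γ w' wi') :
    IsCl (mulF wi w') ∧ mulF f (mulF wi w') = mulF wi w' ∧ mulF w (mulF wi w') = w' ∧
      mulF (mulF wi w') (mulF wi' w) = f := by
  have hfc : ∀ x, ma f * x = x * ma f := fun x =>
    ((Subalgebra.mem_center_iff.1 ((isCl_iff f).1 hf.1)) x).symm
  have hE : ma f * ma f = ma f := by rw [← ma_mul, hf.2]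
  have e1 : ma f * ma w = ma w := by rw [← ma_mul, h.fw]
  have e2 : ma f * ma wi = ma wi := by rw [← ma_mul, h.fwi]
  have e3 : ma w * ma wi = ma f := by rw [← ma_mul, h.unit]
  have e4 : ma wi * ma w = ma f := by rw [← ma_mul, h.unit']
  have e1' : ma f * ma w' = ma w' := by rw [← ma_mul, h'.fw]
  have e3' : ma w' * ma wi' = ma f := by rw [← ma_mul, h'.unit]
  have comm : ∀ {v : Y → F}, (∀ n y, v (γ⁻¹ n * y * n⁻¹) = v y) → ∀ n : Y,
      ma v * MonoidAlgebra.single n 1 = MonoidAlgebra.single (γ⁻¹ n) 1 * ma v := by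
    intro v hv n
    apply ma_ext
    intro t
    have a1 : (ma v * MonoidAlgebra.single n (1 : F)).coeff t = v (t * n⁻¹) := by
      rw [MonoidAlgebra.coeff_mul_single_apply, mul_one]
      rfl
    have a2 : (MonoidAlgebra.single (γ⁻¹ n) (1 : F) * ma v).coeff t = v ((γ⁻¹ n)⁻¹ * t) := by
      rw [MonoidAlgebra.coeff_single_mul_apply, one_mul]
      rfl
    rw [a1, a2, ← hv n ((γ⁻¹ n)⁻¹ * t), mul_inv_cancel_left]
  have hIE : ma wi * ma f = ma wi := by rw [← hfc, e2]
  have hI : ∀ n : Y, MonoidAlgebra.single n 1 * ma wi =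
      ma wi * MonoidAlgebra.single (γ⁻¹ n) 1 := by
    intro n
    calc MonoidAlgebra.single n 1 * ma wi = MonoidAlgebra.single n 1 * (ma f * ma wi) := by
          rw [e2]
      _ = ma wi * (ma w * MonoidAlgebra.single n 1) * ma wi := by
          rw [← mul_assoc, ← hfc, ← e4]
          simp only [mul_assoc]
      _ = ma wi * MonoidAlgebra.single (γ⁻¹ n) 1 * (ma w * ma wi) := by
          rw [comm h.comm]
          simp only [mul_assoc]
      _ = _ := by
          rw [e3, mul_assoc, ← hfc, ← mul_assoc, hIE]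
  have hZ : ∀ n : Y, ma wi * ma w' * MonoidAlgebra.single n 1 =
      MonoidAlgebra.single n 1 * (ma wi * ma w') := by
    intro n
    rw [mul_assoc, comm h'.comm, ← mul_assoc, ← hI, mul_assoc]
  refine ⟨?_, ?_, ?_, ?_⟩
  · intro x y
    have h1 := congrArg (fun z => MonoidAlgebra.coeff z (y * x)) (hZ y)
    simp only [← ma_mul] at h1
    rw [MonoidAlgebra.coeff_mul_single_apply, MonoidAlgebra.coeff_single_mul_apply, mul_one,
      one_mul, inv_mul_cancel_left] at h1
    exact h1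
  · apply ma_injective
    rw [ma_mul, ma_mul, ← mul_assoc, e2]
  · apply ma_injective
    rw [ma_mul, ma_mul, ← mul_assoc, e3, e1']
  · apply ma_injective
    rw [ma_mul, ma_mul, ma_mul, mul_assoc, ← mul_assoc (ma w'), e3', ← mul_assoc, hIE, e4]

/-- **SCL** -/
theorem scl (hTsb : TsbStmt) (hThe : TheStmt) : SclStmt := by
  intro ℓ F _ hF Y _ _ f α β w wi w' wi' hT hT' τ hτ h0
  obtain ⟨hz, hfz, hwz, hz3⟩ := unit_alg hT.blk.1 hT.unt hT'.unt
  obtain ⟨-, -, -, hz3'⟩ := unit_alg hT.blk.1 hT'.unt hT.unt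
  set z := mulF wi w' with hzdef
  obtain ⟨c, k, hk⟩ := residue hF hT.blk hz hfz
  -- `c ≠ 0`
  have hc : c ≠ 0 := by
    rintro rfl
    rw [zero_smul, sub_zero] at hk
    have h1 : ma z ^ (k + 1) = 0 := by
      have h2 := congrArg ma hk
      rw [ma_iterate, ma_zero, ← pow_succ] at h2
      exact h2
    have h3 : ma z * ma (mulF wi' w) = ma f := by rw [← ma_mul, hz3]
    have hcm : Commute (ma z) (ma (mulF wi' w)) :=
      ((Subalgebra.mem_center_iff.1 ((isCl_iff z).1 hz)) _).symm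
    have h4 : ma f ^ (k + 1) = 0 := by rw [← h3, hcm.mul_pow, h1, zero_mul]
    have hE : IsIdempotentElem (ma f) := ((isIdem_iff f).1 hT.blk.1).2
    rw [hE.pow_succ_eq k] at h4
    apply hT.blk.2.1
    apply ma_injective
    rw [h4, ma_zero]
  -- the scalars
  have key : ∀ (n m : Y) (d : Finset (Subgroup Y)),
      d ∈ chainsOn (psubIn ℓ (⊤ : Subgroup Y)) ⊥ → NormalChain d → FixC (tw α n) d →
      FixC (tw β m) d →
      tcon τ f (tw α n) (tw β m) (fun y => w' (cc α β n m * y)) d =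
        τ c * tcon τ f (tw α n) (tw β m) (fun y => w (cc α β n m * y)) d := by
    intro n m d hd hn hfa hfb
    obtain ⟨⟨wi1, hS⟩, -⟩ := H65.shf ℓ F hF Y f α β w wi hT n m
    obtain ⟨⟨wi1', hS'⟩, -⟩ := H65.shf ℓ F hF Y f α β w' wi' hT' n m
    have hts : ∀ φ ∈ tset (stab d) f (tw α n) (tw β m),
        τ (ts (stab d) φ (tw α n) (tw β m) (fun y => w' (cc α β n m * y))) =
        τ c * τ (ts (stab d) φ (tw α n) (tw β m) (fun y => w (cc α β n m * y))) := by
      intro φ hφ
      obtain ⟨h1, -, h3⟩ := hTsb ℓ F hF Y f _ _ _ wi1 hS d hd hfa hfb φ hφ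
      obtain ⟨-, h2', -⟩ := hTsb ℓ F hF Y f _ _ _ wi1' hS' d hd hfa hfb φ hφ
      have h3 := h3 hn
      set s := ts (stab d) φ (tw α n) (tw β m) (fun y => w (cc α β n m * y)) with hs
      obtain ⟨N, ρ, A, B, hρ, hρφ, hA, hB, hAB⟩ := h1
      have hf1 : ev ρ (fun t : stab d => f t) = 1 := by
        obtain ⟨c0, hc0, hc0', -⟩ := H20.eig F (stab d) N ρ hρ _
          (isCl_restr hT.blk.1.1 (stab d))
        have h4 := hφ.2.1
        rw [← hρφ, hc0'] at h4
        have h5 : c0 = 1 := by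
          by_contra hne
          apply tr_ne_zero' hρ
          have h6 : (c0 - 1) • tr ρ = 0 := by rw [sub_smul, one_smul, h4, sub_self]
          exact (smul_eq_zero.1 h6).resolve_left (sub_ne_zero.2 hne)
        rw [hc0, h5, map_one]
      have hzc : ev ρ (fun t : stab d => z t) = c • (1 : Matrix (Fin N) (Fin N) F) :=
        ev_residue hThe hF hd hn hρ hT.blk.1.1 hz hk hf1
      have h7 := hThe ℓ F hF Y d hd hn N ρ hρ (kap (tw α n) (tw β m)) 1 (fixC_kap hfa hfb)
        (fixC_one d) (fun y => w (cc α β n m * y)) z hS.unt.comm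
        (fun m y => by rw [inv_one, MulAut.one_apply]; exact hz y m) 1 (impl_one ρ)
      rw [Units.val_one, mul_one, one_mul, hzc] at h7
      have h8 : mulF (fun y => w (cc α β n m * (1 : MulAut Y) y)) z =
          fun y => w' (cc α β n m * y) := by
        have h9 := mulF_shift (cc α β n m) w z
        rw [hwz] at h9
        exact h9
      have h10 : ev ρ (fun t : stab d => w' (cc α β n m * t)) =
          c • ev ρ (fun t : stab d => w (cc α β n m * t)) := by
        rw [mul_smul_comm, mul_one] at h7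
        rw [h7]
        congr 1
        funext t
        exact (congrFun h8 t).symm
      have h11 : IsTS (stab d) φ (tw α n) (tw β m) (fun y => w' (cc α β n m * y)) (c * s) := by
        refine ⟨N, ρ, A, B, hρ, hρφ, hA, hB, ?_⟩
        rw [h10, mul_smul_comm, hAB, ← smul_eq_mul, Matrix.smul_eq_diagonal_mul]
        rw [Matrix.scalar_apply, Matrix.scalar_apply, Matrix.diagonal_mul_diagonal]
        rfl
      rw [← h2' _ h11, hτ.mul c s hc h3]
    unfold tcon
    rw [finsum_mem_congr rfl hts, ← mul_finsum_mem]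
    ring
  have hDD : DD τ ℓ f α β w' = τ c * DD τ ℓ f α β w := by
    classical
    unfold DD
    rw [mul_finsum]
    refine finsum_congr fun n => ?_
    rw [mul_finsum]
    refine finsum_congr fun m => ?_
    rw [Finset.mul_sum]
    refine Finset.sum_congr rfl fun d hd => ?_
    have hd := Finset.mem_filter.1 hd
    rw [key n m d hd.1 hd.2.1 hd.2.2.1 hd.2.2.2]
    ring
  rw [hDD, h0, mul_zero]

end Pool.Agent.PP.H43
end
end -- Pool.Agent.Helper43_PP.Scl

section -- Pool.Agent.Helper47_PP.Nie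

/-!
# Squad PP, part R2, module NIE: shears of a torus datum
-/

open scoped BigOperators

set_option linter.unusedSectionVars false

noncomputable section

namespace Pool.Agent.PP.H47

open Pool.Agent.Helper51_AWC Pool.Agent.Helper79_WRA

section lem

variable {F Y : Type} [Field F] [Group Y]

theorem kap_shear (α β : MulAut Y) : kap α (β * α) = kap α β := by
  unfold kap
  group

theorem tw_shear (α β : MulAut Y) (n m : Y) :
    tw (β * α) (α⁻¹ m * n) = tw β m * tw α n := by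
  unfold tw
  have h : α * MulAut.conj (α⁻¹ m) = MulAut.conj m * α := by
    rw [H65.mul_conj', MulAut.apply_inv_self]
  calc β * α * MulAut.conj (α⁻¹ m * n) = β * (α * MulAut.conj (α⁻¹ m)) * MulAut.conj n := by
        rw [map_mul]; group
    _ = β * MulAut.conj m * (α * MulAut.conj n) := by
        rw [h]; group

theorem cc_shear (α β : MulAut Y) (n m : Y) :
    cc α (β * α) n (α⁻¹ m * n) = cc α β n m := by
  unfold cc
  rw [kap_shear]
  have h1 : (kap α β)⁻¹ (α (β n)) = β (α n) := by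
    have h2 : (kap α β)⁻¹ * (α * β) = β * α := by
      unfold kap
      group
    exact congrArg (fun g : MulAut Y => g n) h2
  have h3 : (β * α) (α⁻¹ m * n) = β m * β (α n) := by
    rw [MulAut.mul_apply, map_mul, map_mul, MulAut.apply_inv_self]
  have h4 : (β * α) n = β (α n) := rfl
  rw [h3, h4]
  have h5 : n * (β m * β (α n)) * (β (α n))⁻¹ = n * β m := by group
  rw [h5]
  have h6 : (kap α β)⁻¹ (α (n * β m * (β n)⁻¹)) =
      (kap α β)⁻¹ (α (n * β m)) * (β (α n))⁻¹ := by
    rw [map_mul α, map_mul, map_inv α, map_inv, h1]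
  rw [h6]
  group

theorem mem_fix {a : MulAut Y} {d : Finset (Subgroup Y)} (h : FixC a d) {D : Subgroup Y}
    (hD : D ∈ d) (k : Y) : a k ∈ D ↔ k ∈ D := by
  constructor
  · intro hk
    rw [← h D hD] at hk
    obtain ⟨j, hj, hjk⟩ := hk
    have : j = k := a.injective hjk
    rw [← this]
    exact hj
  · intro hk
    rw [← h D hD]
    exact ⟨k, hk, rfl⟩

theorem mem_stab {d : Finset (Subgroup Y)} {x : Y} :
    x ∈ stab d ↔ ∀ D ∈ d, x ∈ Subgroup.normalizer (D : Set Y) := by
  unfold stab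
  simp only [Subgroup.mem_iInf]

theorem stab_fix {a : MulAut Y} {d : Finset (Subgroup Y)} (h : FixC a d) (x : Y) :
    a x ∈ stab d ↔ x ∈ stab d := by
  rw [mem_stab, mem_stab]
  refine forall₂_congr fun D hD => ?_
  rw [Subgroup.mem_normalizer_iff, Subgroup.mem_normalizer_iff]
  constructor
  · intro hx k
    have h1 := hx (a k)
    rw [mem_fix h hD, ← map_inv, ← map_mul, ← map_mul, mem_fix h hD] at h1
    exact h1
  · intro hx k
    obtain ⟨j, rfl⟩ := a.surjective k
    rw [mem_fix h hD, ← map_inv, ← map_mul, ← map_mul, mem_fix h hD]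
    exact hx j

theorem fixC_shear {a b : MulAut Y} {d : Finset (Subgroup Y)} (h : FixC a d) :
    FixC (b * a) d ↔ FixC b d := by
  unfold FixC
  refine forall₂_congr fun D hD => ?_
  have h1 : D.map (b * a).toMonoidHom = (D.map a.toMonoidHom).map b.toMonoidHom := by
    rw [Subgroup.map_map]
    rfl
  rw [h1, h D hD]

variable {X : Subgroup Y}

theorem tset_shear {a : MulAut Y} (hX : ∀ x, a x ∈ X ↔ x ∈ X) (b : MulAut Y) (f : Y → F) :
    tset X f a (b * a) = tset X f a b := by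
  ext φ
  unfold tset
  constructor
  · rintro ⟨h1, h2, h3, h4⟩
    refine ⟨h1, h2, h3, ?_⟩
    intro h h' hh
    obtain ⟨g, hg⟩ : ∃ g : X, a (g : Y) = h := by
      refine ⟨⟨a⁻¹ h, ?_⟩, ?_⟩
      · rw [← hX, MulAut.apply_inv_self]
        exact h.2
      · exact MulAut.apply_inv_self _ _ _
    rw [h3 g h hg.symm]
    refine h4 g h' ?_
    rw [hh, ← hg]
    rfl
  · rintro ⟨h1, h2, h3, h4⟩
    refine ⟨h1, h2, h3, ?_⟩
    intro h h' hh
    have hm : a (h : Y) ∈ X := (hX _).2 h.2
    rw [← h3 h ⟨a h, hm⟩ rfl]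
    exact h4 ⟨a h, hm⟩ h' hh

theorem isTS_shear {a : MulAut Y} (hX : ∀ x, a x ∈ X ↔ x ∈ X) (b : MulAut Y) (φ : X → F)
    (v : Y → F) (s : F) : IsTS X φ a (b * a) v s ↔ IsTS X φ a b v s := by
  constructor
  · rintro ⟨n, ρ, A, B, h1, h2, h3, h4, h5⟩
    refine ⟨n, ρ, A, B * A⁻¹, h1, h2, h3, ?_, ?_⟩
    · intro h h' hh
      obtain ⟨g, hg⟩ : ∃ g : X, a (g : Y) = h := by
        refine ⟨⟨a⁻¹ h, ?_⟩, ?_⟩
        · rw [← hX, MulAut.apply_inv_self]
          exact h.2
        · exact MulAut.apply_inv_self _ _ _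
      have e1 := h3 g h hg.symm
      have e2 : (B : Matrix (Fin n) (Fin n) F) * ρ g = ρ h' * B := by
        refine h4 g h' ?_
        rw [hh, ← hg]
        rfl
      have e3 : ((A⁻¹ : (Matrix (Fin n) (Fin n) F)ˣ) : Matrix (Fin n) (Fin n) F) * ρ h =
          ρ g * ((A⁻¹ : (Matrix (Fin n) (Fin n) F)ˣ) : Matrix (Fin n) (Fin n) F) := by
        calc ((A⁻¹ : (Matrix (Fin n) (Fin n) F)ˣ) : Matrix (Fin n) (Fin n) F) * ρ h =
            ((A⁻¹ : (Matrix (Fin n) (Fin n) F)ˣ) : Matrix (Fin n) (Fin n) F) *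
              (ρ h * A) * ((A⁻¹ : (Matrix (Fin n) (Fin n) F)ˣ) : Matrix (Fin n) (Fin n) F) := by
              rw [mul_assoc, mul_assoc, Units.mul_inv, mul_one]
          _ = _ := by
              rw [← e1, ← mul_assoc, Units.inv_mul, one_mul]
      rw [Units.val_mul, mul_assoc, e3, ← mul_assoc, e2, mul_assoc]
    · rw [← h5]
      have e : A * (B * A⁻¹) * A⁻¹ * (B * A⁻¹)⁻¹ = A * B * A⁻¹ * B⁻¹ := by group
      rw [e]
  · rintro ⟨n, ρ, A, B, h1, h2, h3, h4, h5⟩
    refine ⟨n, ρ, A, B * A, h1, h2, h3, ?_, ?_⟩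
    · intro h h' hh
      have hm : a (h : Y) ∈ X := (hX _).2 h.2
      have e1 := h3 h ⟨a h, hm⟩ rfl
      have e2 := h4 ⟨a h, hm⟩ h' hh
      rw [Units.val_mul, mul_assoc, e1, ← mul_assoc, e2, mul_assoc]
    · rw [← h5]
      have e : A * (B * A) * A⁻¹ * (B * A)⁻¹ = A * B * A⁻¹ * B⁻¹ := by group
      rw [e]

theorem dite_choose {P Q : F → Prop} (h : P = Q) :
    (open Classical in if h : ∃ s, P s then h.choose else 0) =
      (open Classical in if h : ∃ s, Q s then h.choose else 0) := by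
  subst h
  rfl

theorem ts_shear {a : MulAut Y} (hX : ∀ x, a x ∈ X ↔ x ∈ X) (b : MulAut Y) (φ : X → F)
    (v : Y → F) : ts X φ a (b * a) v = ts X φ a b v := by
  unfold ts
  exact dite_choose (funext fun s => propext (isTS_shear hX b φ v s))

theorem tcon_shear {a : MulAut Y} {d : Finset (Subgroup Y)} (ha : FixC a d) (b : MulAut Y)
    (τ : F → ℂ) (f v : Y → F) : tcon τ f a (b * a) v d = tcon τ f a b v d := by
  unfold tcon
  rw [tset_shear (stab_fix ha)]
  congr 1
  refine finsum_congr fun φ => ?_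
  rw [ts_shear (stab_fix ha)]

end lem

theorem dd_shear {F Y : Type} [Field F] [Group Y] [Finite Y] (τ : F → ℂ) (ℓ : ℕ) (f w : Y → F)
    (α β : MulAut Y) : DD τ ℓ f α (β * α) w = DD τ ℓ f α β w := by
  classical
  unfold DD
  refine finsum_congr fun n => ?_
  rw [← finsum_comp_equiv ((α⁻¹ : MulAut Y).toEquiv.trans (Equiv.mulRight n))]
  refine finsum_congr fun m => ?_
  show ∑ d ∈ (chainsOn (psubIn ℓ (⊤ : Subgroup Y)) ⊥).filter
    (fun d => NormalChain d ∧ FixC (tw α n) d ∧ FixC (tw (β * α) (α⁻¹ m * n)) d),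
      (-1) ^ (d.card + 1) * tcon τ f (tw α n) (tw (β * α) (α⁻¹ m * n))
        (fun y => w (cc α (β * α) n (α⁻¹ m * n) * y)) d = _
  rw [tw_shear, cc_shear]
  refine Finset.sum_congr (Finset.filter_congr fun d _ => ?_) fun d hd => ?_
  · refine and_congr_right fun _ => and_congr_right fun h => fixC_shear h
  · have h := (Finset.mem_filter.1 hd).2.2.1
    rw [tcon_shear h]

theorem nie : NieStmt := by
  intro ℓ F _ hF Y _ _ f α β hV τ hτ w wi hT
  rw [← dd_shear]
  refine hV τ hτ w wi ⟨hT.blk, hT.fa, ?_, ?_⟩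
  · intro y
    show f (β (α y)) = f y
    rw [hT.fb, hT.fa]
  · rw [kap_shear]
    exact hT.unt

end Pool.Agent.PP.H47
end
end -- Pool.Agent.Helper47_PP.Nie
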