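import Pool.Agent.Helper12_AWB.B047
import Pool.Agent.Helper12_AWB.B054
import Pool.Agent.Helper12_AWB.B073
import Pool.Agent.Helper12_AWB.B079
import Pool.Agent.Helper75_PP.Conj

/-!
# Merged copies (generated) of the modules

* `Pool.Agent.Helper21_PP.Tsb`
* `Pool.Agent.Helper21_PP.Inx`
* `Pool.Agent.Helper51_PP.Pip`
* `Pool.Agent.Helper63_PP.Bij`
* `Pool.Agent.Helper90_PP.Ccp`
* `Pool.Agent.Helper90_PP.Cnt`
-/

set_option autoImplicit false

section -- Pool.Agent.Helper21_PP.Tsb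

/-!
Squad PP (AWC), part R2, modules TSB and INX.
-/

open scoped BigOperators

noncomputable section

namespace Pool.Agent.PP.H21

open Pool.Agent.Helper51_AWC Pool.Agent.Helper79_WRA Pool.Agent.PP

section chain

variable {Y : Type} [Group Y]

theorem FixC.mul {α β : MulAut Y} {d : Finset (Subgroup Y)} (hα : FixC α d) (hβ : FixC β d) :
    FixC (α * β) d := by
  intro D hD
  have h1 : D.map (α * β : MulAut Y).toMonoidHom = (D.map β.toMonoidHom).map α.toMonoidHom := by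
    rw [Subgroup.map_map]
    rfl
  rw [h1, hβ D hD, hα D hD]

theorem FixC.inv {α : MulAut Y} {d : Finset (Subgroup Y)} (hα : FixC α d) : FixC α⁻¹ d := by
  intro D hD
  have h1 : (D.map α.toMonoidHom).map (α⁻¹ : MulAut Y).toMonoidHom = D := by
    rw [Subgroup.map_map]
    ext x
    rw [Subgroup.mem_map]
    constructor
    · rintro ⟨y, hy, rfl⟩
      show α⁻¹ (α y) ∈ D
      rwa [MulAut.inv_apply_self]
    · intro hx
      exact ⟨x, hx, MulAut.inv_apply_self Y α x⟩
  rw [hα D hD] at h1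
  exact h1

theorem FixC.kap {α β : MulAut Y} {d : Finset (Subgroup Y)} (hα : FixC α d) (hβ : FixC β d) :
    FixC (kap α β) d :=
  FixC.mul (FixC.mul (FixC.mul hα hβ) (FixC.inv hα)) (FixC.inv hβ)

theorem FixC.stab_aux {α : MulAut Y} {d : Finset (Subgroup Y)} (hα : FixC α d) {h : Y}
    (hh : h ∈ stab d) : α h ∈ stab d := by
  rw [H97.mem_stab] at hh ⊢
  intro D hD
  have h1 := hh D hD
  rw [Subgroup.mem_normalizer_iff_map_conj_eq] at h1 ⊢
  have h2 : (D.map α.toMonoidHom).map (MulAut.conj (α h)).toMonoidHom =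
      (D.map (MulAut.conj h).toMonoidHom).map α.toMonoidHom := by
    rw [Subgroup.map_map, Subgroup.map_map]
    congr 1
    ext x
    show α h * α x * (α h)⁻¹ = α (h * x * h⁻¹)
    rw [map_mul, map_mul, map_inv]
  have h3 : D.map (MulAut.conj h).toMonoidHom = D := h1
  rw [hα D hD, h3, hα D hD] at h2
  exact h2

theorem FixC.stab_iff {α : MulAut Y} {d : Finset (Subgroup Y)} (hα : FixC α d) (h : Y) :
    α h ∈ stab d ↔ h ∈ stab d := by
  constructor
  · intro hh
    have h1 := FixC.stab_aux (FixC.inv hα) hh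
    rwa [MulAut.inv_apply_self] at h1
  · exact FixC.stab_aux hα

end chain

section tsb

variable {F Y : Type} [Field F] [Group Y] [Finite Y]

theorem exists_impl_tr {ℓ : ℕ} (hF : GoodF ℓ F) {K : Subgroup Y} {n : ℕ}
    {ρ : K →* Matrix (Fin n) (Fin n) F} (hρ : IsIrr ρ) (φ : MulAut Y)
    (hK : ∀ h, φ h ∈ K ↔ h ∈ K)
    (htr : ∀ h h' : K, (h' : Y) = φ h → tr ρ h' = tr ρ h) :
    ∃ X : (Matrix (Fin n) (Fin n) F)ˣ, Impl ρ φ X := by
  let e : K ≃ K :=
    { toFun := fun x => ⟨φ x, (hK x).2 x.2⟩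
      invFun := fun x => ⟨φ⁻¹ (x : Y), (hK _).1 (by rw [MulAut.apply_inv_self]; exact x.2)⟩
      left_inv := fun x => Subtype.ext (MulAut.inv_apply_self Y φ x)
      right_inv := fun x => Subtype.ext (MulAut.apply_inv_self Y φ x) }
  let σ : K →* Matrix (Fin n) (Fin n) F :=
    { toFun := fun x => ρ (e x)
      map_one' := by
        have : e 1 = 1 := Subtype.ext (map_one φ)
        rw [this, map_one]
      map_mul' := fun x y => by
        have : e (x * y) = e x * e y := Subtype.ext (map_mul φ _ _)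
        rw [this, map_mul] }
  have hσv : ∀ x, σ x = ρ (e x) := fun _ => rfl
  have hσ : IsIrr σ := by
    refine ⟨hρ.1, ?_⟩
    have : Set.range σ = Set.range ρ := by
      ext M
      constructor
      · rintro ⟨x, rfl⟩; exact ⟨e x, rfl⟩
      · rintro ⟨x, rfl⟩; exact ⟨e.symm x, by rw [hσv, Equiv.apply_symm_apply]⟩
    rw [this, hρ.2]
  have hts : tr ρ = tr σ := by
    funext x
    exact (htr x (e x) rfl).symm
  obtain ⟨X, Z, _, h1, h2, h3⟩ := H20.ibc ℓ F hF K n n ρ σ hρ hσ hts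
  refine ⟨⟨X, Z, h1, h2⟩, fun h h' hh => ?_⟩
  have : h' = e h := Subtype.ext hh
  rw [this]
  exact h3 h

/-- the evaluation of an element of type `γ` -/
theorem ev_typ {K : Subgroup Y} {n : ℕ} (ρ : K →* Matrix (Fin n) (Fin n) F) (γ : MulAut Y)
    {v : Y → F} (hv : ∀ n y, v (γ⁻¹ n * y * n⁻¹) = v y) (k k' : K) (hk : (k' : Y) = γ k) :
    ev ρ (fun t : K => v t) * ρ k' = ρ k * ev ρ (fun t : K => v t) := by
  have := Fintype.ofFinite K
  unfold ev
  rw [finsum_eq_sum_of_fintype, Finset.mul_sum, Finset.sum_mul]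
  symm
  apply Fintype.sum_equiv ((Equiv.mulLeft k).trans (Equiv.mulRight k'⁻¹))
  intro s
  show ρ k * (v s • ρ s) = (v ((k * s * k'⁻¹ : K) : Y) • ρ (k * s * k'⁻¹)) * ρ k'
  have h1 : v ((k * s * k'⁻¹ : K) : Y) = v s := by
    rw [← hv k' s, hk, MulAut.inv_apply_self, Subgroup.coe_mul, Subgroup.coe_mul,
      Subgroup.coe_inv, hk]
  rw [h1, Matrix.mul_smul, Matrix.smul_mul, ← map_mul, ← map_mul, inv_mul_cancel_right]

/-- evaluation and conjugation of the representation -/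
theorem ev_conj_rep {K : Type} [Group K] [Finite K] {n : ℕ} {ρ σ : K →* Matrix (Fin n) (Fin n) F}
    {T : Matrix (Fin n) (Fin n) F} (hT : ∀ h, T * ρ h = σ h * T) (v : K → F) :
    T * ev ρ v = ev σ v * T := by
  have := Fintype.ofFinite K
  unfold ev
  rw [finsum_eq_sum_of_fintype, finsum_eq_sum_of_fintype, Finset.mul_sum, Finset.sum_mul]
  apply Finset.sum_congr rfl
  intro s _
  rw [Matrix.mul_smul, Matrix.smul_mul, hT]

theorem impl_kap {K : Subgroup Y} {n : ℕ} {ρ : K →* Matrix (Fin n) (Fin n) F} {α β : MulAut Y}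
    (hα : ∀ h, α h ∈ K ↔ h ∈ K) (hβ : ∀ h, β h ∈ K ↔ h ∈ K) {A B : (Matrix (Fin n) (Fin n) F)ˣ}
    (hA : Impl ρ α A) (hB : Impl ρ β B) : Impl ρ (kap α β) (A * B * A⁻¹ * B⁻¹) := by
  have hα' : ∀ h, α⁻¹ h ∈ K ↔ h ∈ K := fun h => by
    rw [← hα, MulAut.apply_inv_self]
  have hβ' : ∀ h, β⁻¹ h ∈ K ↔ h ∈ K := fun h => by
    rw [← hβ, MulAut.apply_inv_self]
  exact H18.impl_mul hβ' (H18.impl_mul hα' (H18.impl_mul hβ hA hB) (H18.impl_inv hA))
    (H18.impl_inv hB)

theorem scal_exists {K : Subgroup Y} {n : ℕ} {ρ : K →* Matrix (Fin n) (Fin n) F} (hρ : IsIrr ρ)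
    {γ : MulAut Y} (hγ : ∀ h, γ h ∈ K ↔ h ∈ K) {C : (Matrix (Fin n) (Fin n) F)ˣ}
    (hC : Impl ρ γ C) {v : Y → F} (hv : ∀ n y, v (γ⁻¹ n * y * n⁻¹) = v y) :
    ∃ s : F, (C : Matrix (Fin n) (Fin n) F) * ev ρ (fun t : K => v t) =
      Matrix.scalar (Fin n) s := by
  apply schur hρ
  intro k'
  let k : K := ⟨γ⁻¹ k', (hγ _).1 (by rw [MulAut.apply_inv_self]; exact k'.2)⟩
  have hk : (k' : Y) = γ k := (MulAut.apply_inv_self Y γ k').symm
  rw [mul_assoc, ev_typ ρ γ hv k k' hk, ← mul_assoc, hC k k' hk, mul_assoc]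

theorem isTS_exists {ℓ : ℕ} (hF : GoodF ℓ F) {d : Finset (Subgroup Y)} {f : Y → F}
    {α β : MulAut Y} {w wi : Y → F} (hT : Torus f α β w wi) (hα : FixC α d) (hβ : FixC β d)
    {φ : stab d → F} (hφ : φ ∈ tset (stab d) f α β) : ∃ s, IsTS (stab d) φ α β w s := by
  obtain ⟨⟨n, ρ, hρ, rfl⟩, _, h1, h2⟩ := hφ
  obtain ⟨A, hA⟩ := exists_impl_tr hF hρ α (FixC.stab_iff hα) h1
  obtain ⟨B, hB⟩ := exists_impl_tr hF hρ β (FixC.stab_iff hβ) h2
  obtain ⟨s, hs⟩ := scal_exists hρ (FixC.stab_iff (FixC.kap hα hβ))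
    (impl_kap (FixC.stab_iff hα) (FixC.stab_iff hβ) hA hB) hT.unt.comm
  exact ⟨s, n, ρ, A, B, hρ, rfl, hA, hB, hs⟩

theorem comm_scal2 {U : Type} [Group U] (x x' y : U)
    (h : ∀ z : U, (x⁻¹ * x') * z = z * (x⁻¹ * x')) :
    x' * y * x'⁻¹ * y⁻¹ = x * y * x⁻¹ * y⁻¹ := by
  have e : x' = x * (x⁻¹ * x') := by group
  have h1 := h y
  generalize x⁻¹ * x' = s at e h1 h
  subst e
  rw [mul_inv_rev]
  calc x * s * y * (s⁻¹ * x⁻¹) * y⁻¹ = x * (s * y) * s⁻¹ * x⁻¹ * y⁻¹ := by group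
    _ = x * y * x⁻¹ * y⁻¹ := by rw [h1]; group

theorem mon_aux {R : Type} [Monoid R] {u u' c r r' s s' : R} (h5 : u' * s = r * u')
    (h4 : c * r = r' * c) (hU : u * r' = s' * u) : u * c * u' * s = s' * (u * c * u') := by
  calc u * c * u' * s = u * c * (u' * s) := by rw [mul_assoc]
    _ = u * (c * r) * u' := by rw [h5]; simp only [mul_assoc]
    _ = (u * r') * c * u' := by rw [h4]; simp only [mul_assoc]
    _ = s' * (u * c * u') := by rw [hU]; simp only [mul_assoc]

theorem isTS_unique {ℓ : ℕ} (hF : GoodF ℓ F) {K : Subgroup Y} {α β : MulAut Y}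
    (hα : ∀ h, α h ∈ K ↔ h ∈ K) (hβ : ∀ h, β h ∈ K ↔ h ∈ K) {φ : K → F} {v : Y → F} {s s' : F}
    (h : IsTS K φ α β v s) (h' : IsTS K φ α β v s') : s = s' := by
  obtain ⟨n, ρ, A, B, hρ, hφ, hA, hB, hs⟩ := h
  obtain ⟨n', σ, A', B', hσ, hφ', hA', hB', hs'⟩ := h'
  obtain ⟨T, Z, rfl, h1, h2, h3⟩ := H20.ibc ℓ F hF K n n' ρ σ hρ hσ (hφ.trans hφ'.symm)
  let U : (Matrix (Fin n) (Fin n) F)ˣ := ⟨T, Z, h1, h2⟩
  have hU : ∀ h, (U : Matrix (Fin n) (Fin n) F) * ρ h = σ h * U := h3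
  have key : ∀ (γ : MulAut Y) (C : (Matrix (Fin n) (Fin n) F)ˣ), Impl ρ γ C →
      Impl σ γ (U * C * U⁻¹) := by
    intro γ C hC k k' hk
    have h4 := hC k k' hk
    have h5 : ((U⁻¹ : (Matrix (Fin n) (Fin n) F)ˣ) : Matrix (Fin n) (Fin n) F) * σ k =
        ρ k * ((U⁻¹ : (Matrix (Fin n) (Fin n) F)ˣ) : Matrix (Fin n) (Fin n) F) := by
      apply H18.cancel_unit U
      rw [mul_assoc, ← hU, ← mul_assoc, Units.inv_mul, one_mul, mul_assoc, Units.inv_mul, mul_one]
    rw [Units.val_mul, Units.val_mul]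
    exact mon_aux h5 h4 (hU k')
  have hA2 := H18.impl_central hσ hα (key α A hA) hA'
  have hB2 := H18.impl_central hσ hβ (key β B hB) hB'
  have h6 : A' * B' * A'⁻¹ * B'⁻¹ = U * (A * B * A⁻¹ * B⁻¹) * U⁻¹ := by
    rw [comm_scal2 _ _ B' hA2, H18.comm_scal _ _ _ hB2]
    group
  have h7 := ev_conj_rep hU (fun t : K => v t)
  rw [h6] at hs'
  have h8 : ((U * (A * B * A⁻¹ * B⁻¹) * U⁻¹ : (Matrix (Fin n) (Fin n) F)ˣ) :
      Matrix (Fin n) (Fin n) F) * ev σ (fun t : K => v t) * U =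
      U * (((A * B * A⁻¹ * B⁻¹ : (Matrix (Fin n) (Fin n) F)ˣ) : Matrix (Fin n) (Fin n) F) *
        ev ρ (fun t : K => v t)) := by
    rw [mul_assoc, ← h7, Units.val_mul, Units.val_mul U, mul_assoc, mul_assoc,
      ← mul_assoc ((U⁻¹ : (Matrix (Fin n) (Fin n) F)ˣ) : Matrix (Fin n) (Fin n) F),
      Units.inv_mul, one_mul]
  rw [hs', hs] at h8
  have h9 := congrArg (fun M => M * ((U⁻¹ : (Matrix (Fin n) (Fin n) F)ˣ) :
    Matrix (Fin n) (Fin n) F)) h8
  simp only [mul_assoc, Units.mul_inv, mul_one] at h9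
  rw [Matrix.scalar_apply, ← Matrix.smul_one_eq_diagonal, Matrix.scalar_apply,
    ← Matrix.smul_one_eq_diagonal, smul_mul_assoc, one_mul, mul_smul_comm, Units.mul_inv] at h9
  have h10 := congrFun (congrFun h9 ⟨0, hρ.1⟩) ⟨0, hρ.1⟩
  rw [Matrix.smul_apply, Matrix.smul_apply, Matrix.one_apply_eq, smul_eq_mul, mul_one,
    smul_eq_mul, mul_one] at h10
  exact h10.symm

theorem unt_wi {f : Y → F} {γ : MulAut Y} {w wi : Y → F} (hf : IsCl f) (h : Unt f γ w wi) :
    ∀ n y, wi (n * y * (γ⁻¹ n)⁻¹) = wi y := by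
  have h1 : ∀ n, mulF w (dl F n) = mulF (dl F (γ⁻¹ n)) w := by
    intro n
    funext y
    rw [H75.mulF_dl_left, H75.mulF_dl_right, ← h.comm n ((γ⁻¹ n)⁻¹ * y)]
    congr 1
    group
  have hfc : ∀ a, mulF f a = mulF a f := fun a => H75.mulF_comm_cl hf a
  have h2 : ∀ n, mulF (dl F n) wi = mulF wi (dl F (γ⁻¹ n)) := by
    intro n
    calc mulF (dl F n) wi = mulF (mulF f (dl F n)) wi := by
          rw [hfc, mulF_assoc, h.fwi]
      _ = mulF (mulF wi (mulF w (dl F n))) wi := by rw [← h.unit', mulF_assoc wi w]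
      _ = mulF wi (mulF (dl F (γ⁻¹ n)) (mulF w wi)) := by
          rw [h1, mulF_assoc, mulF_assoc]
      _ = mulF (mulF wi f) (dl F (γ⁻¹ n)) := by rw [h.unit, ← hfc, mulF_assoc]
      _ = mulF wi (dl F (γ⁻¹ n)) := by rw [← hfc, h.fwi]
  intro n y
  have h3 := congrFun (h2 n) (n * y)
  rw [H75.mulF_dl_left, H75.mulF_dl_right, inv_mul_cancel_left] at h3
  exact h3.symm

theorem ev_f_one {ℓ : ℕ} (_hF : GoodF ℓ F) {K : Subgroup Y} {n : ℕ}
    {ρ : K →* Matrix (Fin n) (Fin n) F} (hρ : IsIrr ρ) {f : Y → F} (hf : IsCl f)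
    (h : actF (fun t : K => f t) (tr ρ) = tr ρ) : ev ρ (fun t : K => f t) = 1 := by
  have hcl : IsCl (fun t : K => f t) := fun x y => hf x y
  obtain ⟨c, hc, hc2, _⟩ := H20.eig F K n ρ hρ _ hcl
  rw [hc2] at h
  have hc1 : c = 1 := by
    by_contra hne
    apply H75.tr_ne_zero hρ
    have h1 : (c - 1) • tr ρ = 0 := by rw [sub_smul, h, one_smul, sub_self]
    rcases smul_eq_zero.mp h1 with h2 | h2
    · exact absurd (sub_eq_zero.mp h2) hne
    · exact h2
  rw [hc, hc1, map_one]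

theorem tsb (hthe : TheStmt) : TsbStmt := by
  intro ℓ F _ hF Y _ _ f α β w wi hT d hd hα hβ φ hφ
  have hex := isTS_exists hF hT hα hβ hφ
  have hts : IsTS (stab d) φ α β w (ts (stab d) φ α β w) := by
    rw [ts, dif_pos hex]
    exact hex.choose_spec
  refine ⟨hts, fun s hs => isTS_unique hF (FixC.stab_iff hα) (FixC.stab_iff hβ) hs hts, ?_⟩
  intro hnd h0
  obtain ⟨n, ρ, A, B, hρ, hφρ, hA, hB, hs⟩ := hts
  rw [h0, map_zero] at hs
  have hkap := FixC.kap hα hβ
  have hC := impl_kap (FixC.stab_iff hα) (FixC.stab_iff hβ) hA hB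
  have hwi := unt_wi hT.blk.1.1 hT.unt
  have h1 := hthe ℓ F hF Y d hd hnd n ρ hρ (kap α β)⁻¹ (kap α β) (FixC.inv hkap) hkap
    (fun y => wi ((kap α β)⁻¹ y)) w (by
      intro m y
      show wi ((kap α β)⁻¹ ((kap α β)⁻¹⁻¹ m * y * m⁻¹)) = wi ((kap α β)⁻¹ y)
      rw [map_mul, map_mul, inv_inv, MulAut.inv_apply_self, map_inv]
      exact hwi m _) hT.unt.comm _ hC
  rw [mul_assoc, hs, mul_zero] at h1
  have h2 : (fun t : stab d => mulF (fun y => (fun y => wi ((kap α β)⁻¹ y)) (kap α β y)) w t) =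
      fun t : stab d => f t := by
    have h3 : (fun y => (fun y => wi ((kap α β)⁻¹ y)) (kap α β y)) = wi := by
      funext y
      show wi ((kap α β)⁻¹ (kap α β y)) = wi y
      rw [MulAut.inv_apply_self]
    rw [h3, hT.unt.unit']
  rw [h2, ev_f_one hF hρ hT.blk.1.1 (by rw [hφρ]; exact hφ.2.1), mul_one] at h1
  have h3 := Units.mul_inv (A * B * A⁻¹ * B⁻¹)
  rw [← h1, zero_mul] at h3
  have : Nonempty (Fin n) := ⟨⟨0, hρ.1⟩⟩
  exact zero_ne_one h3

end tsb

end Pool.Agent.PP.H21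
end
end -- Pool.Agent.Helper21_PP.Tsb

section -- Pool.Agent.Helper21_PP.Inx

/-!
Squad PP (AWC), part R2, module INX: local innerness.
-/

open scoped BigOperators

noncomputable section

namespace Pool.Agent.PP.H21

open Pool.Agent.Helper51_AWC Pool.Agent.Helper79_WRA Pool.Agent.PP

section inx

variable {F Y : Type} [Field F] [Group Y] [Finite Y]

theorem dl_dl (a : Y) (w : Y → F) : mulF (dl F a) (mulF (dl F a⁻¹) w) = w := by
  funext y
  rw [H75.mulF_dl_left, H75.mulF_dl_left, inv_inv, mul_inv_cancel_left]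

theorem Unt.shift {f : Y → F} {γ : MulAut Y} {w wi : Y → F} (hf : IsCl f) (h : Unt f γ w wi)
    (a : Y) : Unt f (tw γ a) (fun y => w (a * y)) (fun y => wi (y * a⁻¹)) := by
  have h1 : (fun y => w (a * y)) = mulF (dl F a⁻¹) w := by
    funext y
    rw [H75.mulF_dl_left, inv_inv]
  have h2 : (fun y => wi (y * a⁻¹)) = mulF wi (dl F a) := by
    funext y
    rw [H75.mulF_dl_right]
  have hfc : ∀ c, mulF f c = mulF c f := fun c => H75.mulF_comm_cl hf c
  refine ⟨?_, ?_, ?_, ?_, ?_⟩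
  · rw [h1, ← mulF_assoc, hfc, mulF_assoc, h.fw]
  · rw [h2, ← mulF_assoc, h.fwi]
  · rw [h1, h2, mulF_assoc, ← mulF_assoc w, h.unit, hfc]
    have h3 := dl_dl a⁻¹ f
    rwa [inv_inv] at h3
  · rw [h1, h2, mulF_assoc, dl_dl, h.unit']
  · intro n y
    show w (a * ((tw γ a)⁻¹ n * y * n⁻¹)) = w (a * y)
    have h4 : (tw γ a)⁻¹ n = a⁻¹ * γ⁻¹ n * a := by
      show (γ * MulAut.conj a)⁻¹ n = _
      rw [mul_inv_rev, MulAut.mul_apply, ← map_inv, MulAut.conj_apply, inv_inv]
    rw [h4, ← h.comm n (a * y)]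
    congr 1
    group

theorem killF {ℓ : ℕ} (hF : CharP F ℓ) (v : F) : ℓ • v = 0 := by
  rw [nsmul_eq_mul, CharP.cast_eq_zero, zero_mul]

/-- the Brauer map is multiplicative on invariant functions -/
theorem br_mul {ℓ : ℕ} (hF : GoodF ℓ F) {R : Subgroup Y} (hR : IsPGroup ℓ R) {a b : Y → F}
    (ha : ∀ r ∈ R, ∀ x, a (r * x * r⁻¹) = a x) (hb : ∀ r ∈ R, ∀ x, b (r * x * r⁻¹) = b x) :
    br R (mulF a b) = mulF (br R a) (br R b) := by
  have hch := hF.char
  have hfin := Fintype.ofFinite Y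
  classical
  funext g
  unfold mulF
  by_cases hg : g ∈ Subgroup.centralizer (R : Set Y)
  · have h2 : br R (fun x => ∑ᶠ t, a t * b (t⁻¹ * x)) g = ∑ᶠ t, a t * b (t⁻¹ * g) := by
      simp only [br, if_pos hg]
    rw [h2, finsum_eq_sum_of_fintype, finsum_eq_sum_of_fintype]
    rw [H20.conj_sum hF.prime (killF hch) R hR (fun t => a t * b (t⁻¹ * g)) (fun r hr t => by
      show a (r * t * r⁻¹) * b ((r * t * r⁻¹)⁻¹ * g) = a t * b (t⁻¹ * g)
      have h3 : r * g = g * r := Subgroup.mem_centralizer_iff.1 hg r hr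
      have h4 : (r * t * r⁻¹)⁻¹ * g = r * (t⁻¹ * g) * r⁻¹ := by
        have h5 : r⁻¹ * g = g * r⁻¹ := by
          calc r⁻¹ * g = r⁻¹ * (g * r) * r⁻¹ := by group
            _ = r⁻¹ * (r * g) * r⁻¹ := by rw [h3]
            _ = g * r⁻¹ := by group
        calc (r * t * r⁻¹)⁻¹ * g = r * t⁻¹ * (r⁻¹ * g) := by group
          _ = r * t⁻¹ * (g * r⁻¹) := by rw [h5]
          _ = r * (t⁻¹ * g) * r⁻¹ := by group
      rw [ha r hr, h4, hb r hr])]
    apply Finset.sum_congr rfl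
    intro t _
    by_cases ht : t ∈ Subgroup.centralizer (R : Set Y)
    · have h6 : t⁻¹ * g ∈ Subgroup.centralizer (R : Set Y) := mul_mem (inv_mem ht) hg
      simp only [br, if_pos ht, if_pos h6]
    · simp only [br, if_neg ht, zero_mul]
  · have h2 : br R (fun x => ∑ᶠ t, a t * b (t⁻¹ * x)) g = 0 := by
      simp only [br, if_neg hg]
    rw [h2, finsum_eq_sum_of_fintype, eq_comm]
    apply Finset.sum_eq_zero
    intro t _
    by_cases ht : t ∈ Subgroup.centralizer (R : Set Y)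
    · have h6 : ¬ t⁻¹ * g ∈ Subgroup.centralizer (R : Set Y) := by
        intro hc
        apply hg
        have h7 := mul_mem ht hc
        rwa [mul_inv_cancel_left] at h7
      simp only [br, if_neg h6, mul_zero]
    · simp only [br, if_neg ht, zero_mul]

/-- evaluation of invariant functions through the Brauer map -/
theorem ev_br {ℓ : ℕ} (hF : GoodF ℓ F) {R X : Subgroup Y} (hR : IsPGroup ℓ R) (hRX : R ≤ X)
    (hXN : X ≤ Subgroup.normalizer (R : Set Y)) {n : ℕ} {ρ : X →* Matrix (Fin n) (Fin n) F}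
    (hρ : IsIrr ρ) {a : Y → F} (ha : ∀ r ∈ R, ∀ x, a (r * x * r⁻¹) = a x) :
    ev ρ (fun t : X => a t) = ev ρ (fun t : X => br R a t) := by
  have hch := hF.char
  have hfin := Fintype.ofFinite X
  classical
  have hN : (R.subgroupOf X).Normal := by
    refine ⟨fun r hr x => ?_⟩
    rw [Subgroup.mem_subgroupOf] at hr ⊢
    exact (Subgroup.mem_normalizer_iff.1 (hXN x.2) r).1 hr
  have hR' : IsPGroup ℓ (R.subgroupOf X) := hR.comap_subtype
  have htr := (H20.nls ℓ F hF X (R.subgroupOf X) hN hR' n ρ hρ).1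
  unfold ev
  rw [finsum_eq_sum_of_fintype, finsum_eq_sum_of_fintype]
  have hV : ∀ v : Matrix (Fin n) (Fin n) F, ℓ • v = 0 := by
    intro v
    ext i j
    rw [Matrix.smul_apply, killF hch, Matrix.zero_apply]
  rw [H20.conj_sum hF.prime hV (R.subgroupOf X) hR' (fun t : X => a t • ρ t) (fun r hr t => by
    show a ((r * t * r⁻¹ : X) : Y) • ρ (r * t * r⁻¹) = a t • ρ t
    have h1 : a ((r * t * r⁻¹ : X) : Y) = a t := ha r hr t
    rw [h1, map_mul, map_mul, htr r hr, htr r⁻¹ (Subgroup.inv_mem _ hr), one_mul, mul_one])]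
  apply Finset.sum_congr rfl
  intro t _
  have hiff : t ∈ Subgroup.centralizer ((R.subgroupOf X : Subgroup X) : Set X) ↔
      (t : Y) ∈ Subgroup.centralizer (R : Set Y) := by
    rw [Subgroup.mem_centralizer_iff, Subgroup.mem_centralizer_iff]
    constructor
    · intro h r hr
      exact congrArg Subtype.val (h ⟨r, hRX hr⟩ hr)
    · intro h r hr
      exact Subtype.ext (h r hr)
  by_cases ht : (t : Y) ∈ Subgroup.centralizer (R : Set Y)
  · rw [if_pos (hiff.2 ht)]
    simp only [br, if_pos ht]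
  · rw [if_neg (fun hc => ht (hiff.1 hc))]
    simp only [br, if_neg ht, zero_smul]

/-- if `f` does not vanish somewhere on `C(R)`, some translate of `γ` centralises `R` -/
theorem exists_tw {ℓ : ℕ} (hF : GoodF ℓ F) {R : Subgroup Y} (hR : IsPGroup ℓ R) {f : Y → F}
    (hf : IsCl f) {γ : MulAut Y} {w wi : Y → F} (h : Unt f γ w wi) {x : Y}
    (hx : x ∈ Subgroup.centralizer (R : Set Y)) (hfx : f x ≠ 0) :
    ∃ a : Y, ∀ r ∈ R, tw γ a r = r := by
  have hch := hF.char
  have hfin := Fintype.ofFinite Y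
  have : Fact ℓ.Prime := ⟨hF.prime⟩
  classical
  let _ : MulAction R Y :=
    { smul := fun r t => r * t * (γ⁻¹ (r : Y))⁻¹
      one_smul := fun t => by
        show (1 : Y) * t * (γ⁻¹ (1 : Y))⁻¹ = t
        rw [one_mul, map_one, inv_one, mul_one]
      mul_smul := fun r s t => by
        show ((r : Y) * s) * t * (γ⁻¹ ((r : Y) * s))⁻¹ =
          r * (s * t * (γ⁻¹ (s : Y))⁻¹) * (γ⁻¹ (r : Y))⁻¹
        rw [map_mul]
        group }
  have hsm : ∀ (r : R) (t : Y), r • t = r * t * (γ⁻¹ (r : Y))⁻¹ := fun _ _ => rfl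
  have hwi := unt_wi hf h
  have h1 : f x = ∑ t, wi t * w (t⁻¹ * x) := by
    rw [← h.unit']
    exact finsum_eq_sum_of_fintype _
  have h2 : ∀ (r : R) (t : Y), wi (r • t) * w ((r • t)⁻¹ * x) = wi t * w (t⁻¹ * x) := by
    intro r t
    rw [hsm, hwi]
    congr 1
    have h3 : (r : Y)⁻¹ * x = x * (r : Y)⁻¹ :=
      Subgroup.mem_centralizer_iff.1 hx _ (R.inv_mem r.2)
    have h4 : ((r : Y) * t * (γ⁻¹ (r : Y))⁻¹)⁻¹ * x = γ⁻¹ (r : Y) * (t⁻¹ * x) * (r : Y)⁻¹ := by
      calc ((r : Y) * t * (γ⁻¹ (r : Y))⁻¹)⁻¹ * x = γ⁻¹ (r : Y) * t⁻¹ * ((r : Y)⁻¹ * x) := by group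
        _ = γ⁻¹ (r : Y) * (t⁻¹ * x) * (r : Y)⁻¹ := by rw [h3]; group
    rw [h4, h.comm]
  rw [Pool.Agent.PP.H74.orbit_sum hR (killF hch) (fun t => wi t * w (t⁻¹ * x)) h2] at h1
  have h5 : ∃ t ∈ Finset.univ.filter (fun t : Y => ∀ r : R, r • t = t),
      wi t * w (t⁻¹ * x) ≠ 0 := by
    by_contra hcon
    push Not at hcon
    apply hfx
    rw [h1]
    exact Finset.sum_eq_zero hcon
  obtain ⟨t, ht, _⟩ := h5
  rw [Finset.mem_filter] at ht
  refine ⟨t⁻¹, fun r hr => ?_⟩
  have h6 := ht.2 ⟨r, hr⟩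
  rw [hsm] at h6
  have h7 : r * t = t * γ⁻¹ r := by
    rw [← mul_inv_eq_iff_eq_mul]
    exact h6
  show γ (t⁻¹ * r * t⁻¹⁻¹) = r
  rw [inv_inv, mul_assoc, h7, inv_mul_cancel_left, MulAut.apply_inv_self]

theorem inx : InxStmt := by
  intro ℓ F _ hF Y _ _ d hd hnd f γ w wi hfb hunt φ hφ hfφ
  have hfin := Fintype.ofFinite Y
  obtain ⟨n, ρ, hρ, rfl⟩ := hφ
  obtain ⟨hdp, hbot, hchain⟩ := mem_chainsOn.1 hd
  have htop : top d ∈ d := H97.top_mem hchain ⟨⊥, hbot⟩
  have hR : IsPGroup ℓ (top d) := H97.mem_psubIn_top.1 (hdp htop)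
  have hRX : top d ≤ stab d := by
    intro x hx
    rw [H97.mem_stab]
    intro D hD
    exact hnd D hD hx
  have hXN : stab d ≤ Subgroup.normalizer ((top d : Subgroup Y) : Set Y) :=
    fun x hx => (H97.mem_stab.1 hx) _ htop
  have hfcl : IsCl f := hfb.1.1
  have hev : ev ρ (fun t : stab d => f t) = 1 := ev_f_one hF hρ hfcl hfφ
  have hn : Nonempty (Fin n) := ⟨⟨0, hρ.1⟩⟩
  -- a point of the centraliser where `f` is not zero
  have hx : ∃ x ∈ Subgroup.centralizer ((top d : Subgroup Y) : Set Y), f x ≠ 0 := by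
    by_contra hcon
    push Not at hcon
    rw [ev_br hF hR hRX hXN hρ (fun r _ x => hfcl x r)] at hev
    have h1 : (fun t : stab d => br (top d) f t) = 0 := by
      funext t
      show br (top d) f t = 0
      unfold br
      split_ifs with ht
      · exact hcon _ ht
      · rfl
    rw [h1, ev, finsum_eq_zero_of_forall_eq_zero (fun t => by
      show (0 : F) • ρ t = 0
      rw [zero_smul])] at hev
    exact zero_ne_one hev
  obtain ⟨x, hxc, hfx⟩ := hx
  obtain ⟨a, ha⟩ := exists_tw hF hR hfcl hunt hxc hfx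
  refine ⟨⟨a, ha⟩, ?_⟩
  -- the unit of type `tw γ a`
  obtain ⟨v, vi, hv⟩ : ∃ v vi, Unt f (tw γ a) v vi := ⟨_, _, Unt.shift hfcl hunt a⟩
  set δ := tw γ a with hδ
  have hδR : ∀ r ∈ top d, δ⁻¹ r = r := by
    intro r hr
    have h1 : δ r = r := ha r hr
    calc δ⁻¹ r = δ⁻¹ (δ r) := by rw [h1]
      _ = r := MulAut.inv_apply_self Y δ r
  have hδfix : FixC δ d := by
    intro D hD
    ext y
    rw [Subgroup.mem_map]
    constructor
    · rintro ⟨z, hz, rfl⟩
      show δ z ∈ D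
      have h1 : δ z = z := ha z (H97.le_tp hD hz)
      rwa [h1]
    · intro hy
      exact ⟨y, hy, ha y (H97.le_tp hD hy)⟩
  have hvinv : ∀ r ∈ top d, ∀ y, v (r * y * r⁻¹) = v y := by
    intro r hr y
    have h1 := hv.comm r y
    rwa [hδR r hr] at h1
  have hviinv : ∀ r ∈ top d, ∀ y, vi (r * y * r⁻¹) = vi y := by
    intro r hr y
    have h1 := unt_wi hfcl hv r y
    rwa [hδR r hr] at h1
  have hCX : Subgroup.centralizer ((top d : Subgroup Y) : Set Y) ≤ stab d := H97.cent_top_le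
  have hunit : ev ρ (fun t : stab d => v t) *
      ev ρ (fun t : stab d => vi t) = 1 := by
    rw [ev_br hF hR hRX hXN hρ hvinv, ev_br hF hR hRX hXN hρ hviinv, ← ev_mulF,
      ← (H20.brm ℓ F hF Y (top d) (stab d) hR hCX hXN).2.1, ← br_mul hF hR hvinv hviinv, hv.unit,
      ← ev_br hF hR hRX hXN hρ (fun r _ x => hfcl x r), hev]
  have hunit' := mul_eq_one_comm.1 hunit
  have hkey : ∀ t t' : stab d, (t' : Y) = δ t → tr ρ t' = tr ρ t := by
    intro t t' htt
    have h1 := ev_typ ρ δ hv.comm t t' htt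
    show (ρ t').trace = (ρ t).trace
    calc (ρ t').trace = ((ev ρ (fun t : stab d => vi t) *
          ev ρ (fun t : stab d => v t)) * ρ t').trace := by
          rw [hunit', one_mul]
      _ = (ev ρ (fun t : stab d => vi t) *
          (ρ t * ev ρ (fun t : stab d => v t))).trace := by
          rw [mul_assoc, h1]
      _ = ((ρ t * ev ρ (fun t : stab d => v t)) *
          ev ρ (fun t : stab d => vi t)).trace := by
          rw [Matrix.trace_mul_comm]
      _ = (ρ t).trace := by rw [mul_assoc, hunit, mul_one]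
  intro b hb t t' htt
  have h1 : tw γ b = δ * MulAut.conj (a⁻¹ * b) := by
    rw [hδ]
    unfold tw
    rw [mul_assoc, ← map_mul, mul_inv_cancel_left]
  have h2 : FixC (MulAut.conj (a⁻¹ * b)) d := by
    have h3 := FixC.mul (FixC.inv hδfix) hb
    rwa [h1, inv_mul_cancel_left] at h3
  have hm : a⁻¹ * b ∈ stab d := by
    rw [H97.mem_stab]
    intro D hD
    rw [Subgroup.mem_normalizer_iff_map_conj_eq]
    exact h2 D hD
  let m : stab d := ⟨a⁻¹ * b, hm⟩
  have h4 : (t' : Y) = δ ((m * t * m⁻¹ : stab d) : Y) := by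
    rw [htt, h1]
    rfl
  rw [hkey (m * t * m⁻¹) t' h4]
  show (ρ (m * t * m⁻¹)).trace = (ρ t).trace
  rw [map_mul, Matrix.trace_mul_comm, ← map_mul]
  congr 2
  group

end inx

end Pool.Agent.PP.H21
end
end -- Pool.Agent.Helper21_PP.Inx

section -- Pool.Agent.Helper51_PP.Pip

/-!
Squad PP, module PIP: the irreducible modular characters of a direct power.
-/

open scoped BigOperators

noncomputable section

namespace Pool.Agent.PP.H51

open Pool.Agent.Helper51_AWC Pool.Agent.Helper79_WRA Pool.Agent.PP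

theorem isIrr_comp {F G H : Type} [Field F] [Group G] [Group H] (e : G ≃* H) {n : ℕ}
    {ρ : H →* Matrix (Fin n) (Fin n) F} (h : IsIrr ρ) : IsIrr (ρ.comp e.toMonoidHom) := by
  refine ⟨h.1, ?_⟩
  have : Set.range (ρ.comp e.toMonoidHom) = Set.range ρ := by
    ext A
    constructor
    · rintro ⟨g, rfl⟩
      exact ⟨e g, rfl⟩
    · rintro ⟨y, rfl⟩
      refine ⟨e.symm y, ?_⟩
      show ρ (e (e.symm y)) = ρ y
      rw [e.apply_symm_apply]
  rw [this]
  exact h.2

theorem ibr_equiv {F G H : Type} [Field F] [Group G] [Group H] (e : G ≃* H) {φ : H → F}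
    (h : φ ∈ IBr F H) : (fun g => φ (e g)) ∈ IBr F G := by
  obtain ⟨n, ρ, hρ, rfl⟩ := h
  exact ⟨n, ρ.comp e.toMonoidHom, isIrr_comp e hρ, rfl⟩

theorem ibr_one {F G : Type} [Field F] [Group G] : (fun _ : G => (1 : F)) ∈ IBr F G := by
  refine ⟨1, 1, ⟨one_pos, ?_⟩, ?_⟩
  · rw [eq_top_iff]
    intro A _
    have hA : A = A 0 0 • (1 : G →* Matrix (Fin 1) (Fin 1) F) 1 := by
      ext i j
      rw [Subsingleton.elim i 0, Subsingleton.elim j 0]
      simp
    rw [hA]
    exact Submodule.smul_mem _ _ (Submodule.subset_span ⟨1, rfl⟩)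
  · funext x
    show (1 : F) = Matrix.trace (1 : Matrix (Fin 1) (Fin 1) F)
    simp

theorem ibr_trivial {F G : Type} [Field F] [Group G] [Subsingleton G] {φ : G → F}
    (h : φ ∈ IBr F G) : φ = fun _ => 1 := by
  obtain ⟨n, ρ, ⟨hn, hs⟩, rfl⟩ := h
  have h1 : Set.range ρ = {1} := by
    ext A
    rw [Set.mem_singleton_iff]
    constructor
    · rintro ⟨g, rfl⟩
      rw [Subsingleton.elim g 1, map_one]
    · rintro rfl
      exact ⟨1, map_one ρ⟩
  have h2 : Module.finrank F (Matrix (Fin n) (Fin n) F) ≤ 1 := by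
    rw [← finrank_top F, ← hs, h1]
    have h5 := finrank_span_finset_le_card (R := F) ({1} : Finset (Matrix (Fin n) (Fin n) F))
    rw [Finset.coe_singleton, Finset.card_singleton] at h5
    exact h5
  rw [Module.finrank_matrix, Fintype.card_fin, Module.finrank_self, mul_one] at h2
  have h3 : n = 1 := by
    have := Nat.le_of_mul_le_mul_left (h2.trans (by omega : 1 ≤ n * 1)) hn
    omega
  subst h3
  funext x
  show Matrix.trace (ρ x) = 1
  rw [Subsingleton.elim x 1, map_one]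
  simp

/-- `L^(q+1) = L × L^q` -/
def powE (L : Type) [Group L] (q : ℕ) : (Fin (q + 1) → L) ≃* L × (Fin q → L) where
  toFun x := (x 0, fun i => x i.succ)
  invFun p := Fin.cons p.1 p.2
  left_inv x := by
    funext i
    refine Fin.cases ?_ (fun j => ?_) i
    · rfl
    · rfl
  right_inv p := rfl
  map_mul' x y := rfl

theorem pip (hPib : PibStmt) : PipStmt := by
  intro ℓ F _ hF L _ _ q
  induction q with
  | zero =>
    refine ⟨fun φ _ => ?_, fun φ hφ => ?_, fun φ ψ _ _ _ => Subsingleton.elim _ _⟩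
    · have : (fun x : Fin 0 → L => ∏ j, φ j (x j)) = fun _ => 1 := by
        funext x
        exact Finset.prod_empty
      rw [this]
      exact ibr_one
    · refine ⟨fun _ _ => 1, fun j => j.elim0, ?_⟩
      rw [ibr_trivial hφ]
      funext x
      exact Finset.prod_empty.symm
  | succ q ih =>
    obtain ⟨i1, i2, i3⟩ := ih
    obtain ⟨-, p1, p2, p3⟩ := hPib ℓ F hF L (Fin q → L)
    refine ⟨fun φ hφ => ?_, fun φ hφ => ?_, fun φ ψ hφ hψ h => ?_⟩
    · have h1 := p1 (φ 0) (hφ 0) _ (i1 (fun j => φ j.succ) fun j => hφ _)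
      have h2 := ibr_equiv (powE L q) h1
      have h3 : (fun x : Fin (q + 1) → L => ∏ j, φ j (x j)) = fun x => φ 0 ((powE L q) x).1 *
          ∏ j, φ (Fin.succ j) (((powE L q) x).2 j) := by
        funext x
        exact Fin.prod_univ_succ fun j => φ j (x j)
      rw [h3]
      exact h2
    · have h1 := ibr_equiv (powE L q).symm hφ
      obtain ⟨φ₁, h2, φ₂, h3, h4⟩ := p2 _ h1
      obtain ⟨φs, h5, h6⟩ := i2 φ₂ h3
      refine ⟨Fin.cons φ₁ φs, ?_, ?_⟩
      · intro j
        refine Fin.cases ?_ (fun i => ?_) j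
        · exact h2
        · exact h5 i
      · funext x
        have h7 := congrFun h4 ((powE L q) x)
        simp only [MulEquiv.symm_apply_apply] at h7
        rw [h7, h6, Fin.prod_univ_succ]
        rfl
    · have h1 : ∀ (a : L) (y : Fin q → L), φ 0 a * ∏ j, φ (Fin.succ j) (y j) =
          ψ 0 a * ∏ j, ψ (Fin.succ j) (y j) := by
        intro a y
        have := h (Fin.cons a y)
        rw [Fin.prod_univ_succ, Fin.prod_univ_succ] at this
        exact this
      obtain ⟨h2, h3⟩ := p3 (φ 0) (hφ 0) _ (i1 (fun j => φ j.succ) fun j => hφ _) (ψ 0) (hψ 0) _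
        (i1 (fun j => ψ j.succ) fun j => hψ _) h1
      have h4 := i3 (fun j => φ j.succ) (fun j => ψ j.succ) (fun j => hφ _) (fun j => hψ _)
        fun x => congrFun h3 x
      funext j
      refine Fin.cases ?_ (fun i => ?_) j
      · exact h2
      · exact congrFun h4 i

end Pool.Agent.PP.H51
end
end -- Pool.Agent.Helper51_PP.Pip

section -- Pool.Agent.Helper63_PP.Bij

/-!
# Squad PP, part CYD, module BIJ: the closed chains fixed by the shift are the powers of the chains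
of `K`
-/

open scoped BigOperators

noncomputable section

namespace Pool.Agent.PP.H63

open Pool.Agent.Helper51_AWC Pool.Agent.Helper79_WRA

section basic

variable {K : Type} [Group K] {p : ℕ}

theorem mem_pwS {E : Subgroup K} {x : Fin (p + 1) → K} : x ∈ pwS p E ↔ ∀ j, x j ∈ E := by
  simp [pwS, Subgroup.mem_pi]

theorem mem_boxS {D : Subgroup (Fin (p + 1) → K)} {x : Fin (p + 1) → K} :
    x ∈ boxS D ↔ ∀ j, ∃ y ∈ D, y j = x j := by
  simp [boxS, Subgroup.mem_pi, Subgroup.mem_map]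

theorem pwS_le {E E' : Subgroup K} : pwS p E ≤ pwS p E' ↔ E ≤ E' := by
  constructor
  · intro h x hx
    have := h (x := fun _ => x) (mem_pwS.2 fun _ => hx)
    exact mem_pwS.1 this 0
  · intro h x hx
    exact mem_pwS.2 fun j => h (mem_pwS.1 hx j)

theorem pwS_inj : Function.Injective (pwS (K := K) p) := by
  intro E E' h
  exact le_antisymm (pwS_le.1 h.le) (pwS_le.1 h.ge)

theorem pwS_bot : pwS p (⊥ : Subgroup K) = ⊥ := by
  ext x
  rw [mem_pwS, Subgroup.mem_bot]
  constructor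
  · intro h; funext j; exact Subgroup.mem_bot.1 (h j)
  · rintro rfl j; exact Subgroup.one_mem _

theorem boxS_pwS (E : Subgroup K) : boxS (pwS p E) = pwS p E := by
  ext x
  rw [mem_boxS, mem_pwS]
  constructor
  · intro h j
    obtain ⟨y, hy, hyj⟩ := h j
    rw [← hyj]; exact mem_pwS.1 hy j
  · intro h j
    exact ⟨x, mem_pwS.2 h, rfl⟩

theorem isP_pwS {ℓ : ℕ} {E : Subgroup K} (hE : IsPGroup ℓ E) : IsPGroup ℓ (pwS p E) := by
  rintro ⟨x, hx⟩
  have hx' := mem_pwS.1 hx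
  have h : ∀ j, ∃ k : ℕ, x j ^ ℓ ^ k = 1 := by
    intro j
    obtain ⟨k, hk⟩ := hE ⟨x j, hx' j⟩
    exact ⟨k, by simpa using congrArg Subtype.val hk⟩
  choose k hk using h
  refine ⟨∑ j, k j, ?_⟩
  apply Subtype.ext
  simp only [Subgroup.coe_pow, Subgroup.coe_one]
  funext j
  obtain ⟨m, hm⟩ := Nat.exists_eq_add_of_le (Finset.single_le_sum (f := k) (fun i _ => Nat.zero_le _)
    (Finset.mem_univ j))
  rw [Pi.pow_apply, hm, pow_add, pow_mul, hk j, one_pow, Pi.one_apply]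

/-- the image of a subgroup under an automorphism -/
theorem map_eq_iff {Y : Type} [Group Y] (γ : MulAut Y) (D : Subgroup Y) :
    D.map γ.toMonoidHom = D ↔ ∀ x, γ x ∈ D ↔ x ∈ D := by
  constructor
  · intro h x
    constructor
    · intro hx
      rw [← h, Subgroup.mem_map] at hx
      obtain ⟨y, hy, hyx⟩ := hx
      have : y = x := γ.injective (by simpa using hyx)
      rwa [← this]
    · intro hx
      rw [← h]
      exact Subgroup.mem_map.2 ⟨x, hx, rfl⟩
  · intro h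
    ext y
    rw [Subgroup.mem_map]
    constructor
    · rintro ⟨x, hx, rfl⟩
      exact (h x).2 hx
    · intro hy
      refine ⟨γ.symm y, (h _).1 ?_, ?_⟩
      · simpa using hy
      · simp

theorem single_mem {E : Subgroup K} (j : Fin (p + 1)) (y : K) :
    (Pi.mulSingle j y : Fin (p + 1) → K) ∈ pwS p E ↔ y ∈ E := by
  rw [mem_pwS]
  constructor
  · intro h; simpa using h j
  · intro h i
    rcases eq_or_ne i j with rfl | hij
    · simpa using h
    · simp [Pi.mulSingle_eq_of_ne hij, Subgroup.one_mem]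

/-- automorphisms acting componentwise -/
theorem comp_iff (g : (Fin (p + 1) → K) → Fin (p + 1) → K) (γ : Fin (p + 1) → K → K)
    (hg : ∀ x j, g x j = γ j (x j)) (h1 : ∀ j, γ j 1 = 1) (E : Subgroup K) :
    (∀ x, g x ∈ pwS p E ↔ x ∈ pwS p E) ↔ ∀ j y, γ j y ∈ E ↔ y ∈ E := by
  constructor
  · intro h j y
    have h2 := h (Pi.mulSingle j y)
    have h3 : g (Pi.mulSingle j y) = Pi.mulSingle j (γ j y) := by
      funext i
      rw [hg]
      rcases eq_or_ne i j with rfl | hij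
      · simp
      · simp [Pi.mulSingle_eq_of_ne hij, h1]
    rwa [h3, single_mem, single_mem] at h2
  · intro h x
    rw [mem_pwS, mem_pwS]
    exact forall_congr' fun j => by rw [hg]; exact h j _

theorem norm_pwS (E : Subgroup K) :
    Subgroup.normalizer (pwS p E : Set (Fin (p + 1) → K)) =
      pwS p (Subgroup.normalizer (E : Set K)) := by
  ext x
  have h1 : x ∈ Subgroup.normalizer (pwS p E : Set (Fin (p + 1) → K)) ↔
      ∀ y, x * y * x⁻¹ ∈ pwS p E ↔ y ∈ pwS p E := by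
    rw [Subgroup.mem_normalizer_iff]
    exact forall_congr' fun y => Iff.comm
  have h2 : x ∈ pwS p (Subgroup.normalizer (E : Set K)) ↔
      ∀ j y, x j * y * (x j)⁻¹ ∈ E ↔ y ∈ E := by
    rw [mem_pwS]
    refine forall_congr' fun j => ?_
    rw [Subgroup.mem_normalizer_iff]
    exact forall_congr' fun y => Iff.comm
  rw [h1, h2]
  exact comp_iff (fun y => x * y * x⁻¹) (fun j y => x j * y * (x j)⁻¹) (fun _ _ => rfl)
    (fun j => by simp) E

end basic

section chains

variable {K : Type} [Group K] {p : ℕ}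

theorem mem_pwC {e : Finset (Subgroup K)} {D : Subgroup (Fin (p + 1) → K)} :
    D ∈ pwC p e ↔ ∃ E ∈ e, pwS p E = D := by
  classical
  simp [pwC]

theorem mem_psubIn_top {ℓ : ℕ} {Γ : Type} [Group Γ] [Finite Γ] {D : Subgroup Γ} :
    D ∈ psubIn ℓ (⊤ : Subgroup Γ) ↔ IsPGroup ℓ D := by
  simp [psubIn]

theorem stab_pwC (e : Finset (Subgroup K)) : stab (pwC p e) = pwS p (stab e) := by
  ext x
  have h1 : x ∈ stab (pwC p e) ↔ ∀ E ∈ e, ∀ j, x j ∈ Subgroup.normalizer (E : Set K) := by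
    unfold stab
    rw [Subgroup.mem_iInf]
    constructor
    · intro h E hE
      have h2 := Subgroup.mem_iInf.1 (h (pwS p E)) (mem_pwC.2 ⟨E, hE, rfl⟩)
      rw [norm_pwS] at h2
      exact mem_pwS.1 h2
    · intro h D
      rw [Subgroup.mem_iInf]
      intro hD
      obtain ⟨E, hE, rfl⟩ := mem_pwC.1 hD
      rw [norm_pwS]
      exact mem_pwS.2 (h E hE)
  rw [h1, mem_pwS]
  unfold stab
  simp only [Subgroup.mem_iInf]
  exact ⟨fun h j E hE => h E hE j, fun h E hE j => h j E hE⟩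

theorem top_eq {G : Type} [Group G] {d : Finset (Subgroup G)} {M : Subgroup G} (hM : M ∈ d)
    (h : ∀ D ∈ d, D ≤ M) : top d = M := by
  unfold top
  exact le_antisymm (sSup_le fun D hD => h D (by exact_mod_cast hD)) (le_sSup (by exact_mod_cast hM))

theorem normal_pwC {e : Finset (Subgroup K)} (hch : IsChain (· ≤ ·) (e : Set (Subgroup K)))
    (hne : e.Nonempty) : NormalChain (pwC p e) ↔ NormalChain e := by
  obtain ⟨M, hM, hmax⟩ := exists_greatest hch hne
  have h1 : top e = M := top_eq hM hmax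
  have h2 : top (pwC p e) = pwS p M := by
    refine top_eq (mem_pwC.2 ⟨M, hM, rfl⟩) fun D hD => ?_
    obtain ⟨E, hE, rfl⟩ := mem_pwC.1 hD
    exact pwS_le.2 (hmax E hE)
  unfold NormalChain
  rw [h1, h2]
  constructor
  · intro h E hE
    have h3 := h _ (mem_pwC.2 ⟨E, hE, rfl⟩)
    rw [norm_pwS] at h3
    exact pwS_le.1 h3
  · intro h D hD
    obtain ⟨E, hE, rfl⟩ := mem_pwC.1 hD
    rw [norm_pwS]
    exact pwS_le.2 (h E hE)

end chains

section shift

variable {K : Type} [Group K] {p : ℕ}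

theorem tw_apply {Y : Type} [Group Y] (α : MulAut Y) (n x : Y) : tw α n x = α (n * x * n⁻¹) := by
  simp [tw, MulAut.mul_apply]

theorem shift_zero {β₀ : MulAut K} {β : MulAut (Fin (p + 1) → K)} (hβ : IsShift p β β₀) (μ : K)
    (x : Fin (p + 1) → K) :
    (tw β (Pi.mulSingle (Fin.last p) μ) x) 0 = tw β₀ μ (x (Fin.last p)) := by
  rw [tw_apply, (hβ _).1, tw_apply]
  simp

theorem shift_succ {β₀ : MulAut K} {β : MulAut (Fin (p + 1) → K)} (hβ : IsShift p β β₀) (μ : K)
    (x : Fin (p + 1) → K) (j : Fin p) :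
    (tw β (Pi.mulSingle (Fin.last p) μ) x) j.succ = x j.castSucc := by
  rw [tw_apply, (hβ _).2]
  have h : j.castSucc ≠ Fin.last p := (Fin.castSucc_lt_last j).ne
  simp [Pi.mulSingle_eq_of_ne h]

theorem shift_mem {β₀ : MulAut K} {β : MulAut (Fin (p + 1) → K)} (hβ : IsShift p β β₀) (μ : K)
    (E : Subgroup K) (hE : ∀ y, tw β₀ μ y ∈ E ↔ y ∈ E) (x : Fin (p + 1) → K) :
    tw β (Pi.mulSingle (Fin.last p) μ) x ∈ pwS p E ↔ x ∈ pwS p E := by
  rw [mem_pwS, mem_pwS, Fin.forall_fin_succ, Fin.forall_fin_succ', shift_zero hβ, hE]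
  simp only [shift_succ hβ]
  exact And.comm

/-- a closed subgroup fixed by the shift is a power -/
theorem closed_eq {β₀ : MulAut K} {β : MulAut (Fin (p + 1) → K)} (hβ : IsShift p β β₀) (μ : K)
    (D : Subgroup (Fin (p + 1) → K)) (hD : boxS D = D)
    (hf : ∀ x, tw β (Pi.mulSingle (Fin.last p) μ) x ∈ D ↔ x ∈ D) :
    pwS p (D.map (Pi.evalMonoidHom (fun _ => K) 0)) = D ∧
      ∀ y, tw β₀ μ y ∈ D.map (Pi.evalMonoidHom (fun _ => K) 0) ↔
        y ∈ D.map (Pi.evalMonoidHom (fun _ => K) 0) := by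
  have hmem : ∀ (j : Fin (p + 1)) (y : K), y ∈ D.map (Pi.evalMonoidHom (fun _ => K) j) ↔
      ∃ x ∈ D, x j = y := by
    intro j y; simp [Subgroup.mem_map]
  set γ := tw β (Pi.mulSingle (Fin.last p) μ) with hγ
  have hinv : ∀ x, x ∈ D → ∃ x' ∈ D, γ x' = x := by
    intro x hx
    refine ⟨γ.symm x, (hf _).1 ?_, ?_⟩
    · simpa using hx
    · simp
  have hs : ∀ (j : Fin p) (y : K), y ∈ D.map (Pi.evalMonoidHom (fun _ => K) j.succ) ↔
      y ∈ D.map (Pi.evalMonoidHom (fun _ => K) j.castSucc) := by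
    intro j y
    rw [hmem, hmem]
    constructor
    · rintro ⟨x, hx, rfl⟩
      obtain ⟨x', hx', rfl⟩ := hinv x hx
      exact ⟨x', hx', (shift_succ hβ μ x' j).symm⟩
    · rintro ⟨x, hx, rfl⟩
      exact ⟨γ x, (hf x).2 hx, shift_succ hβ μ x j⟩
  have h0 : ∀ y : K, tw β₀ μ y ∈ D.map (Pi.evalMonoidHom (fun _ => K) 0) ↔
      y ∈ D.map (Pi.evalMonoidHom (fun _ => K) (Fin.last p)) := by
    intro y
    rw [hmem, hmem]
    constructor
    · rintro ⟨x, hx, hxy⟩
      obtain ⟨x', hx', rfl⟩ := hinv x hx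
      rw [hγ, shift_zero hβ] at hxy
      exact ⟨x', hx', (tw β₀ μ).injective hxy⟩
    · rintro ⟨x, hx, rfl⟩
      exact ⟨γ x, (hf x).2 hx, shift_zero hβ μ x⟩
  have hall : ∀ j : Fin (p + 1), D.map (Pi.evalMonoidHom (fun _ => K) j) =
      D.map (Pi.evalMonoidHom (fun _ => K) 0) := by
    intro j
    induction j using Fin.induction with
    | zero => rfl
    | succ j ih => rw [← ih]; ext y; exact hs j y
  refine ⟨?_, fun y => ?_⟩
  · ext x
    rw [mem_pwS]
    conv_rhs => rw [← hD, mem_boxS]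
    refine forall_congr' fun j => ?_
    rw [← hall j, hmem]
  · rw [h0, hall]

end shift

theorem bij : BijStmt := by
  intro ℓ K _ _ p αs β₀ α β hα hβ
  classical
  refine ⟨?_, ?_, ?_, ?_⟩
  · intro μ e he hfix
    obtain ⟨hsub, hbot, hch⟩ := mem_chainsOn.1 he
    refine ⟨mem_chainsOn.2 ⟨?_, ?_, ?_⟩, ?_, ?_⟩
    · intro D hD
      obtain ⟨E, hE, rfl⟩ := mem_pwC.1 hD
      exact mem_psubIn_top.2 (isP_pwS (mem_psubIn_top.1 (hsub hE)))
    · exact mem_pwC.2 ⟨⊥, hbot, pwS_bot⟩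
    · intro D hD D' hD' _
      obtain ⟨E, hE, rfl⟩ := mem_pwC.1 (Finset.mem_coe.1 hD)
      obtain ⟨E', hE', rfl⟩ := mem_pwC.1 (Finset.mem_coe.1 hD')
      rcases chain_total hch hE hE' with h | h
      · exact Or.inl (pwS_le.2 h)
      · exact Or.inr (pwS_le.2 h)
    · intro D hD
      obtain ⟨E, hE, rfl⟩ := mem_pwC.1 hD
      exact boxS_pwS E
    · intro D hD
      obtain ⟨E, hE, rfl⟩ := mem_pwC.1 hD
      exact (map_eq_iff _ _).2 (shift_mem hβ μ E ((map_eq_iff _ _).1 (hfix E hE)))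
  · intro μ d hd hcl hfix
    obtain ⟨hsub, hbot, hch⟩ := mem_chainsOn.1 hd
    have key : ∀ D ∈ d, pwS p (D.map (Pi.evalMonoidHom (fun _ => K) 0)) = D ∧
        ∀ y, tw β₀ μ y ∈ D.map (Pi.evalMonoidHom (fun _ => K) 0) ↔
        y ∈ D.map (Pi.evalMonoidHom (fun _ => K) 0) := fun D hD =>
      closed_eq hβ μ D (hcl D hD) ((map_eq_iff _ _).1 (hfix D hD))
    refine ⟨d.image fun D => D.map (Pi.evalMonoidHom (fun _ => K) 0), mem_chainsOn.2 ⟨?_, ?_, ?_⟩,
      ?_, ?_⟩
    · intro E hE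
      obtain ⟨D, hD, rfl⟩ := Finset.mem_image.1 hE
      exact mem_psubIn_top.2 (IsPGroup.map (mem_psubIn_top.1 (hsub hD)) _)
    · exact Finset.mem_image.2 ⟨⊥, hbot, Subgroup.map_bot _⟩
    · intro E hE E' hE' _
      obtain ⟨D, hD, rfl⟩ := Finset.mem_image.1 (Finset.mem_coe.1 hE)
      obtain ⟨D', hD', rfl⟩ := Finset.mem_image.1 (Finset.mem_coe.1 hE')
      rcases chain_total hch hD hD' with h | h
      · exact Or.inl (Subgroup.map_mono h)
      · exact Or.inr (Subgroup.map_mono h)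
    · intro E hE
      obtain ⟨D, hD, rfl⟩ := Finset.mem_image.1 hE
      exact (map_eq_iff _ _).2 (key D hD).2
    · ext D
      rw [mem_pwC]
      constructor
      · rintro ⟨E, hE, rfl⟩
        obtain ⟨D, hD, rfl⟩ := Finset.mem_image.1 hE
        rwa [(key D hD).1]
      · intro hD
        exact ⟨_, Finset.mem_image.2 ⟨D, hD, rfl⟩, (key D hD).1⟩
  · intro e e' h
    exact Finset.image_injective pwS_inj h
  · intro e he
    obtain ⟨hsub, hbot, hch⟩ := mem_chainsOn.1 he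
    refine ⟨Finset.card_image_of_injective _ pwS_inj, normal_pwC hch ⟨⊥, hbot⟩, stab_pwC e, ?_⟩
    intro n
    have h1 : ∀ E : Subgroup K, (pwS p E).map (tw α n).toMonoidHom = pwS p E ↔
        ∀ j, E.map (tw (αs j) (n j)).toMonoidHom = E := by
      intro E
      rw [map_eq_iff, comp_iff (fun x => tw α n x) (fun j y => tw (αs j) (n j) y)
        (fun x j => by rw [tw_apply, tw_apply, hα]; rfl) (fun j => map_one _) E]
      exact forall_congr' fun j => (map_eq_iff _ _).symm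
    constructor
    · intro h j E hE
      exact (h1 E).1 (h _ (mem_pwC.2 ⟨E, hE, rfl⟩)) j
    · intro h D hD
      obtain ⟨E, hE, rfl⟩ := mem_pwC.1 hD
      exact (h1 E).2 fun j => h j E hE

end Pool.Agent.PP.H63
end
end -- Pool.Agent.Helper63_PP.Bij

section -- Pool.Agent.Helper90_PP.Ccp

/-!
# Squad PP, part CYD, module CCP: the characters of a direct power
-/

open scoped BigOperators

noncomputable section

namespace Pool.Agent.PP.H90.C

open Pool.Agent.Helper51_AWC Pool.Agent.Helper79_WRA Pool.Agent.PP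

variable {F K : Type} [Field F] [Group K] {p : ℕ}

/-- the power of a subgroup as a group of functions -/
def e0 (X : Subgroup K) : pwS p X ≃* (Fin (p + 1) → X) where
  toFun x j := ⟨(x : Fin (p + 1) → K) j, H63.mem_pwS.1 x.2 j⟩
  invFun y := ⟨fun j => (y j : K), H63.mem_pwS.2 fun j => (y j).2⟩
  left_inv _ := rfl
  right_inv _ := rfl
  map_mul' _ _ := rfl

theorem pwF_apply (X : Subgroup K) (ψ : X → F) (x : pwS p X) :
    pwF ψ (pwS p X) x = ∏ j, ψ (e0 X x j) := by
  unfold pwF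
  refine Finset.prod_congr rfl fun j _ => ?_
  have h : (x : Fin (p + 1) → K) j ∈ X := H63.mem_pwS.1 x.2 j
  rw [ext0, dif_pos h]
  rfl

/-- the restriction of an automorphism -/
def resE {X : Subgroup K} (γ : MulAut K) (h : ∀ t, γ t ∈ X ↔ t ∈ X) : X ≃* X where
  toFun t := ⟨γ t, (h t).2 t.2⟩
  invFun t := ⟨γ⁻¹ t, (h _).1 (by rw [MulAut.apply_inv_self]; exact t.2)⟩
  left_inv t := Subtype.ext (MulAut.inv_apply_self K γ t)
  right_inv t := Subtype.ext (MulAut.apply_inv_self K γ t)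
  map_mul' s t := Subtype.ext (map_mul γ (s : K) (t : K))

theorem actF_prod [Finite K] (X : Subgroup K) (f₀ : K → F) (φ : Fin (p + 1) → X → F) :
    actF (fun t : pwS p X => ∏ j, f₀ ((t : Fin (p + 1) → K) j)) (fun x => ∏ j, φ j (e0 X x j)) =
      fun x => ∏ j, actF (fun t : X => f₀ t) (φ j) (e0 X x j) := by
  classical
  have := Fintype.ofFinite X
  funext x
  unfold actF
  have h1 : ∀ t : pwS p X, (∏ j, f₀ ((t : Fin (p + 1) → K) j)) * ∏ j, φ j (e0 X (t * x) j) =
      (fun y : Fin (p + 1) → X => ∏ j, (f₀ (y j) * φ j (y j * e0 X x j))) ((e0 X).toEquiv t) := by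
    intro t
    show _ = ∏ j, (f₀ (e0 X t j) * φ j (e0 X t j * e0 X x j))
    rw [Finset.prod_mul_distrib]
    rfl
  refine (finsum_congr h1).trans ((finsum_comp_equiv (e0 (p := p) X).toEquiv
    (f := fun y : Fin (p + 1) → X => ∏ j, (f₀ (y j) * φ j (y j * e0 X x j)))).trans ?_)
  simp only [finsum_eq_sum_of_fintype]
  rw [Finset.prod_univ_sum, Fintype.piFinset_univ]

theorem fixC_one {d : Finset (Subgroup K)} : FixC (1 : MulAut K) d := by
  intro D _
  ext x
  constructor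
  · rintro ⟨y, hy, rfl⟩
    exact hy
  · intro hx
    exact ⟨x, hx, rfl⟩

/-- a block acts on the characters of the stabiliser of a normal chain by `0` or `1` -/
theorem act_scal (the : TheStmt) {ℓ : ℕ} (hF : GoodF ℓ F) [Finite K] {e : Finset (Subgroup K)}
    (he : e ∈ chainsOn (psubIn ℓ (⊤ : Subgroup K)) ⊥) (hne : NormalChain e) {f₀ : K → F}
    (hf : IsBlk f₀) {ψ : stab e → F} (hψ : ψ ∈ IBr F (stab e)) :
    ∃ c : F, c * c = c ∧ actF (fun t : stab e => f₀ t) ψ = c • ψ := by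
  obtain ⟨n, ρ, hρ, rfl⟩ := hψ
  have hcl : IsCl (fun t : stab e => f₀ t) := fun x y => hf.1.1 x y
  obtain ⟨c, hc, hc2, _⟩ := H20.eig F (stab e) n ρ hρ _ hcl
  refine ⟨c, ?_, hc2⟩
  have hcf : ∀ n y, f₀ ((1 : MulAut K)⁻¹ n * y * n⁻¹) = f₀ y := fun n y => hf.1.1 y n
  have h1 := the ℓ F hF K e he hne n ρ hρ 1 1 fixC_one fixC_one f₀ f₀ hcf hcf 1 (by
    intro h h' hh
    have h2 : h' = h := Subtype.ext hh
    rw [h2, Units.val_one, one_mul, mul_one])
  have h3 : mulF (fun y => f₀ ((1 : MulAut K) y)) f₀ = f₀ := hf.1.2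
  rw [h3, Units.val_one, mul_one, one_mul, hc, ← map_mul] at h1
  have hn : NeZero n := ⟨hρ.1.ne'⟩
  have h4 := congrFun (congrFun h1 0) 0
  simpa [Matrix.scalar_apply] using h4

theorem exists_ne {X : Type} [Group X] [Finite X] {ψ : X → F} (hψ : ψ ∈ IBr F X) :
    ∃ y, ψ y ≠ 0 := by
  obtain ⟨n, ρ, hρ, rfl⟩ := hψ
  by_contra h
  push Not at h
  exact H75.tr_ne_zero hρ (funext h)

/-- **CCP.** -/
theorem ccp (the : TheStmt) (pip : PipStmt) : CcpStmt := by
  intro ℓ _ F _ hF K _ _ p f₀ αs β₀ α β κ w wi hP e he hne n μ hα hβ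
  rw [H63.stab_pwC]
  obtain ⟨P1, P2, P3⟩ := pip ℓ F hF (stab e) (p + 1)
  have hγ : ∀ j t, tw (αs j) (n j) t ∈ stab e ↔ t ∈ stab e := fun j => H21.FixC.stab_iff (hα j)
  have hδ : ∀ t, tw β₀ μ t ∈ stab e ↔ t ∈ stab e := H21.FixC.stab_iff hβ
  have hfun : ∀ ψ : stab e → F, pwF ψ (pwS p (stab e)) = fun x => ∏ j, ψ (e0 (stab e) x j) :=
    fun ψ => funext (pwF_apply _ ψ)
  -- coordinates of the twisted automorphisms
  have hca : ∀ (x : Fin (p + 1) → K) (j : Fin (p + 1)),
      tw α n x j = tw (αs j) (n j) (x j) := by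
    intro x j
    rw [H63.tw_apply, hP.al, H63.tw_apply]
    rfl
  refine ⟨?_, ?_, ?_⟩
  · rintro ψ ⟨⟨h1, h2, _, h4⟩, h5⟩
    show pwF ψ (pwS p (stab e)) ∈ _
    refine ⟨?_, ?_, ?_, ?_⟩
    · rw [hfun]
      exact H51.ibr_equiv (e0 (stab e)) (P1 (fun _ => ψ) fun _ => h1)
    · rw [hfun]
      have h6 := actF_prod (p := p) (stab e) f₀ (fun _ => ψ)
      rw [h2] at h6
      exact h6
    · intro h h' hh
      rw [pwF_apply, pwF_apply]
      refine Finset.prod_congr rfl fun j _ => ?_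
      apply h5 j
      show (h' : Fin (p + 1) → K) j = _
      rw [hh, hca]
      rfl
    · intro h h' hh
      rw [pwF_apply, pwF_apply, Fin.prod_univ_succ, Fin.prod_univ_castSucc, mul_comm]
      congr 1
      · refine Finset.prod_congr rfl fun j _ => ?_
        congr 1
        apply Subtype.ext
        show (h' : Fin (p + 1) → K) j.succ = (h : Fin (p + 1) → K) j.castSucc
        rw [hh, H63.shift_succ hP.sh]
      · apply h4
        show (h' : Fin (p + 1) → K) 0 = tw β₀ μ ((h : Fin (p + 1) → K) (Fin.last p))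
        rw [hh, H63.shift_zero hP.sh]
  · intro ψ hψ ψ' hψ' h
    have h1 := P3 (fun _ => ψ) (fun _ => ψ') (fun _ => hψ.1.1) (fun _ => hψ'.1.1) (by
      intro x
      have h2 := congrFun h ((e0 (stab e)).symm x)
      simp only [pwF_apply, MulEquiv.apply_symm_apply] at h2
      exact h2)
    exact congrFun h1 0
  · rintro φ ⟨h1, h2, h3, h4⟩
    obtain ⟨φs, hφs, hφ⟩ := P2 _ (H51.ibr_equiv (e0 (stab e)).symm h1)
    have hφ' : ∀ y : Fin (p + 1) → stab e, φ ((e0 (stab e)).symm y) = ∏ j, φs j (y j) :=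
      fun y => congrFun hφ y
    -- the shift
    have hsh : (Fin.snoc (α := fun _ => stab e → F) (fun j : Fin p => φs j.succ)
        (fun t => φs 0 (resE (tw β₀ μ) hδ t)) : Fin (p + 1) → stab e → F) = φs := by
      apply P3
      · intro j
        refine Fin.lastCases ?_ (fun i => ?_) j
        · rw [Fin.snoc_last]
          exact H51.ibr_equiv (resE (tw β₀ μ) hδ) (hφs 0)
        · rw [Fin.snoc_castSucc]
          exact hφs _
      · exact hφs
      · intro y
        let y' : Fin (p + 1) → stab e := Fin.cons (α := fun _ => stab e)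
          (resE (tw β₀ μ) hδ (y (Fin.last p))) (fun j => y j.castSucc)
        have h5 : φ ((e0 (stab e)).symm y') = φ ((e0 (stab e)).symm y) := by
          apply h4
          funext j
          refine Fin.cases ?_ (fun i => ?_) j
          · rw [H63.shift_zero hP.sh]
            rfl
          · rw [H63.shift_succ hP.sh]
            rfl
        rw [hφ', hφ'] at h5
        rw [← h5, Fin.prod_univ_castSucc, Fin.prod_univ_succ, mul_comm]
        simp only [Fin.snoc_last, Fin.snoc_castSucc]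
        rfl
    have hs1 : ∀ j : Fin p, φs j.succ = φs j.castSucc := by
      intro j
      have h5 := congrFun hsh j.castSucc
      rw [Fin.snoc_castSucc] at h5
      exact h5
    have hs2 : (fun t => φs 0 (resE (tw β₀ μ) hδ t)) = φs (Fin.last p) := by
      have h5 := congrFun hsh (Fin.last p)
      rw [Fin.snoc_last] at h5
      exact h5
    have hall : ∀ j, φs j = φs 0 := by
      intro j
      induction j using Fin.induction with
      | zero => rfl
      | succ j ih => rw [hs1, ih]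
    set ψ := φs 0 with hψ
    have hφ2 : ∀ y : Fin (p + 1) → stab e, φ ((e0 (stab e)).symm y) = ∏ j, ψ (y j) := by
      intro y
      rw [hφ']
      exact Finset.prod_congr rfl fun j _ => by rw [hall j]
    have hβψ : ∀ t : stab e, ψ (resE (tw β₀ μ) hδ t) = ψ t := by
      intro t
      have h5 := congrFun hs2 t
      rw [hall] at h5
      exact h5
    have hαψ : ∀ j, ∀ t : stab e, ψ (resE (tw (αs j) (n j)) (hγ j) t) = ψ t := by
      intro j t
      have h5 := P3 (fun j t => ψ (resE (tw (αs j) (n j)) (hγ j) t)) (fun _ => ψ)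
        (fun j => H51.ibr_equiv (resE (tw (αs j) (n j)) (hγ j)) (hφs 0)) (fun _ => hφs 0) (by
          intro y
          have h6 : φ ((e0 (stab e)).symm fun j => resE (tw (αs j) (n j)) (hγ j) (y j)) =
              φ ((e0 (stab e)).symm y) := by
            apply h3
            funext j
            rw [hca]
            rfl
          rw [hφ2, hφ2] at h6
          exact h6)
      exact congrFun (congrFun h5 j) t
    have hφ3 : φ = fun x => ∏ j, ψ (e0 (stab e) x j) := by
      funext x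
      have h5 := hφ2 (e0 (stab e) x)
      rw [MulEquiv.symm_apply_apply] at h5
      exact h5
    obtain ⟨c, hcc, hc⟩ := act_scal the hF he hne hP.blk (hφs 0)
    have hact : actF (fun t : stab e => f₀ t) ψ = ψ := by
      have h6 := actF_prod (p := p) (stab e) f₀ (fun _ => ψ)
      rw [← hφ3, h2, hc, hφ3] at h6
      obtain ⟨y, hy⟩ := exists_ne (hφs 0)
      have h7 := congrFun h6 ((e0 (stab e)).symm fun _ => y)
      simp only [MulEquiv.apply_symm_apply, Pi.smul_apply, smul_eq_mul, Finset.prod_const,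
        Finset.card_univ, Fintype.card_fin] at h7
      have hc0 : c ≠ 0 := by
        rintro rfl
        rw [zero_mul, zero_pow (Nat.succ_ne_zero p)] at h7
        exact pow_ne_zero _ hy h7
      have hc1 : c = 1 := mul_right_cancel₀ hc0 (by rw [hcc, one_mul])
      rw [hc, hc1, one_smul]
    refine ⟨ψ, ⟨⟨hφs 0, hact, ?_, ?_⟩, ?_⟩, ?_⟩
    · intro h h' hh
      have h5 : h' = resE (tw (αs 0) (n 0)) (hγ 0) h := Subtype.ext hh
      rw [h5, hαψ]
    · intro h h' hh
      have h5 : h' = resE (tw β₀ μ) hδ h := Subtype.ext hh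
      rw [h5, hβψ]
    · intro j h h' hh
      have h5 : h' = resE (tw (αs j) (n j)) (hγ j) h := Subtype.ext hh
      rw [h5, hαψ]
    · show pwF ψ (pwS p (stab e)) = φ
      rw [hfun, hφ3]

end Pool.Agent.PP.H90.C
end
end -- Pool.Agent.Helper90_PP.Ccp

section -- Pool.Agent.Helper90_PP.Cnt

/-!
# Squad PP, part CYD, module CNT: the number of the `n_j`
-/

open scoped BigOperators

noncomputable section

namespace Pool.Agent.PP.H90

open Pool.Agent.Helper51_AWC Pool.Agent.Helper79_WRA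

variable {F K : Type} [Field F] [Group K]

/-- the elements `n` such that `α ∘ inn(n)` fixes the chain and the character -/
def SS (e : Finset (Subgroup K)) (ψ : stab e → F) (α : MulAut K) : Set K :=
  {n | FixC (tw α n) e ∧ ∀ h h' : stab e, (h' : K) = tw α n h → ψ h' = ψ h}

theorem fixC_conj {e : Finset (Subgroup K)} {t : K} :
    FixC (MulAut.conj t) e ↔ t ∈ stab e := by
  rw [H97.mem_stab]
  constructor
  · intro h D hD
    rw [Subgroup.mem_normalizer_iff_map_conj_eq]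
    exact h D hD
  · intro h D hD
    have h1 := h D hD
    rw [Subgroup.mem_normalizer_iff_map_conj_eq] at h1
    exact h1

theorem tw_mul' (α : MulAut K) (n t : K) : tw α (n * t) = tw α n * MulAut.conj t := by
  rw [tw, tw, map_mul, mul_assoc]

theorem cl_of_ibr {ψ : K → F} (hψ : ψ ∈ IBr F K) (t h : K) : ψ (t * h * t⁻¹) = ψ h := by
  obtain ⟨n, ρ, _, rfl⟩ := hψ
  rw [tr, tr, map_mul, Matrix.trace_mul_comm, ← map_mul]
  congr 2
  group

theorem card_SS {e : Finset (Subgroup K)} {ψ : stab e → F} (hψ : ψ ∈ IBr F (stab e))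
    {α : MulAut K} {n : K} (hn : n ∈ SS e ψ α) : Nat.card (SS e ψ α) = Nat.card (stab e) := by
  have key : ∀ t : K, n * t ∈ SS e ψ α ↔ t ∈ stab e := by
    intro t
    constructor
    · intro h
      have h1 := H21.FixC.mul (H21.FixC.inv hn.1) h.1
      rw [tw_mul', inv_mul_cancel_left] at h1
      exact fixC_conj.1 h1
    · intro ht
      refine ⟨?_, ?_⟩
      · rw [tw_mul']
        exact H21.FixC.mul hn.1 (fixC_conj.2 ht)
      · intro h h' hh
        have h1 : (h' : K) = tw α n ((⟨t, ht⟩ * h * (⟨t, ht⟩ : stab e)⁻¹ : stab e) : K) := by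
          rw [hh, tw_mul']
          rfl
        rw [hn.2 _ _ h1]
        exact cl_of_ibr hψ _ _
  symm
  refine Nat.card_congr (Equiv.ofBijective (fun t : stab e => (⟨n * t, (key t).2 t.2⟩ :
    SS e ψ α)) ⟨?_, ?_⟩)
  · intro a b hab
    have h1 := congrArg Subtype.val hab
    exact Subtype.ext (mul_left_cancel h1)
  · rintro ⟨m, hm⟩
    have h1 : n * (n⁻¹ * m) ∈ SS e ψ α := by rwa [mul_inv_cancel_left]
    exact ⟨⟨n⁻¹ * m, (key _).1 h1⟩, Subtype.ext (mul_inv_cancel_left n m)⟩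

theorem tw_step (κ α : MulAut K) (h n : K) :
    tw (κ * α) (α⁻¹ h * n) = tw κ h * tw α n := by
  ext x
  simp only [tw, MulAut.mul_apply, MulAut.conj_apply, map_mul, map_inv, MulAut.apply_inv_self,
    mul_inv_rev, mul_assoc]

theorem fixC_of_top {e : Finset (Subgroup K)} {γ : MulAut K} (h : ∀ r ∈ top e, γ r = r) :
    FixC γ e := by
  intro D hD
  have hle : D ≤ top e := le_sSup (by exact_mod_cast hD)
  ext x
  constructor
  · rintro ⟨y, hy, rfl⟩
    have h1 : γ.toMonoidHom y = y := h y (hle hy)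
    rw [h1]
    exact hy
  · intro hx
    exact ⟨x, hx, h x (hle hx)⟩

/-- CNT from INX. -/
theorem cnt_of (inx : InxStmt) : CntStmt := by
  intro ℓ _ F _ hF K _ _ p f₀ αs β₀ α β κ w wi hP e he hne n₀ hfix ψ hψ hact hinv j
  have hκ : ∀ j : Fin p, αs j.succ = κ j.succ * αs j.castSucc := by
    intro j
    ext x
    have h1 := hP.kap (β (α fun _ => x)) j.succ
    have h2 : kap α β (β (α fun _ => x)) = α (β fun _ => x) := by
      simp only [kap, MulAut.mul_apply, MulAut.inv_apply_self]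
    rw [h2, hP.al, (hP.sh _).2, (hP.sh _).2, hP.al] at h1
    exact h1
  have hex : ∀ j : Fin (p + 1), ∃ n, n ∈ SS e ψ (αs j) := by
    intro j
    induction j using Fin.induction with
    | zero => exact ⟨n₀, hfix, hinv⟩
    | succ j ih =>
      obtain ⟨n, hn⟩ := ih
      obtain ⟨⟨h, hh⟩, h2⟩ := inx ℓ F hF K e he hne f₀ (κ j.succ) (w j.succ) (wi j.succ) hP.blk
        (hP.unt j.succ) ψ hψ hact
      have hfc : FixC (tw (κ j.succ) h) e := fixC_of_top hh
      refine ⟨(αs j.castSucc)⁻¹ h * n, ?_, ?_⟩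
      · rw [hκ, tw_step]
        exact H21.FixC.mul hfc hn.1
      · intro t t' ht
        rw [hκ, tw_step] at ht
        have hm : tw (αs j.castSucc) n t ∈ stab e := H21.FixC.stab_aux hn.1 t.2
        rw [h2 h hfc ⟨_, hm⟩ t' ht]
        exact hn.2 t ⟨_, hm⟩ rfl
  obtain ⟨n, hn⟩ := hex j
  exact card_SS hψ hn

/-- **CNT.** -/
theorem cnt : CntStmt := cnt_of H21.inx

end Pool.Agent.PP.H90
end
end -- Pool.Agent.Helper90_PP.Cnt
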