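import Pool.Agent.Helper12_AWB.B078
import Pool.Agent.Helper12_AWB.B081

/-!
# Merged copies (generated) of the modules

* `Pool.Agent.Helper17_PP.Tns`
* `Pool.Agent.Helper17_PP.Ops`
-/

set_option autoImplicit false

section -- Pool.Agent.Helper17_PP.Tns

/-!
Squad PP (AWC), part R2, module CYD: tensor powers of a representation and the cyclic permutation
of the factors.
-/

open scoped BigOperators

set_option linter.unusedSectionVars false

noncomputable section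

namespace Pool.Agent.PP.H17

open Pool.Agent.Helper51_AWC Pool.Agent.Helper79_WRA Pool.Agent.PP

section mat

variable {F : Type} [Field F]

/-- the tensor product of matrices -/
def tp {q n : ℕ} (M : Fin q → Matrix (Fin n) (Fin n) F) :
    Matrix (Fin q → Fin n) (Fin q → Fin n) F := fun a b => ∏ j, M j (a j) (b j)

theorem tp_mul {q n : ℕ} (M N : Fin q → Matrix (Fin n) (Fin n) F) :
    tp M * tp N = tp (fun j => M j * N j) := by
  ext a b
  rw [Matrix.mul_apply]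
  unfold tp
  simp only [Matrix.mul_apply, Finset.prod_univ_sum, Fintype.piFinset_univ,
    Finset.prod_mul_distrib]

theorem tp_one {q n : ℕ} : tp (fun _ : Fin q => (1 : Matrix (Fin n) (Fin n) F)) = 1 := by
  ext a b
  unfold tp
  rw [Matrix.one_apply]
  split_ifs with h
  · subst h
    exact Finset.prod_eq_one fun j _ => Matrix.one_apply_eq _
  · obtain ⟨j, hj⟩ := Function.ne_iff.mp h
    exact Finset.prod_eq_zero (Finset.mem_univ j) (Matrix.one_apply_ne hj)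

theorem tp_smul {q n : ℕ} (c : Fin q → F) (M : Fin q → Matrix (Fin n) (Fin n) F) :
    tp (fun j => c j • M j) = (∏ j, c j) • tp M := by
  ext a b
  unfold tp
  rw [Matrix.smul_apply, smul_eq_mul, ← Finset.prod_mul_distrib]
  rfl

theorem tp_scalar {q n : ℕ} (c : Fin q → F) :
    tp (fun j => Matrix.scalar (Fin n) (c j)) = Matrix.scalar (Fin q → Fin n) (∏ j, c j) := by
  have h1 : (fun j => Matrix.scalar (Fin n) (c j)) = fun j => c j • (1 : Matrix (Fin n) (Fin n) F) := by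
    funext j
    rw [Matrix.scalar_apply, ← Matrix.smul_one_eq_diagonal]
  rw [h1, tp_smul c (fun _ => 1), tp_one, Matrix.scalar_apply, ← Matrix.smul_one_eq_diagonal]

theorem tp_sum {q n : ℕ} {T : Type} [Fintype T] (g : Fin q → T → Matrix (Fin n) (Fin n) F) :
    tp (fun j => ∑ t, g j t) = ∑ t : Fin q → T, tp (fun j => g j (t j)) := by
  ext a b
  unfold tp
  simp only [Matrix.sum_apply, Finset.prod_univ_sum, Fintype.piFinset_univ]

theorem tp_trace {q n : ℕ} (M : Fin q → Matrix (Fin n) (Fin n) F) :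
    (tp M).trace = ∏ j, (M j).trace := by
  unfold Matrix.trace tp
  simp only [Matrix.diag_apply, Finset.prod_univ_sum, Fintype.piFinset_univ]

/-- the reindexing -/
def rx (q n : ℕ) : Matrix (Fin q → Fin n) (Fin q → Fin n) F ≃ₐ[F]
    Matrix (Fin (n ^ q)) (Fin (n ^ q)) F :=
  Matrix.reindexAlgEquiv F F finFunctionFinEquiv

theorem rx_scalar (q n : ℕ) (c : F) :
    rx q n (Matrix.scalar (Fin q → Fin n) c) = Matrix.scalar (Fin (n ^ q)) c := by
  rw [Matrix.scalar_apply, ← Matrix.smul_one_eq_diagonal, map_smul, map_one, Matrix.scalar_apply,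
    ← Matrix.smul_one_eq_diagonal]

theorem rx_trace (q n : ℕ) (M : Matrix (Fin q → Fin n) (Fin q → Fin n) F) :
    (rx q n M).trace = M.trace := by
  unfold rx Matrix.trace
  simp only [Matrix.reindexAlgEquiv_apply, Matrix.diag_apply, Matrix.reindex_apply,
    Matrix.submatrix_apply]
  exact Equiv.sum_comp finFunctionFinEquiv.symm (fun a => M a a)

/-- the cyclic permutation of the entries of a function -/
def rot {p : ℕ} {T : Type} (a : Fin (p + 1) → T) : Fin (p + 1) → T :=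
  Fin.cons (a (Fin.last p)) (fun j => a j.castSucc)

/-- the inverse -/
def rot' {p : ℕ} {T : Type} (a : Fin (p + 1) → T) : Fin (p + 1) → T :=
  Fin.snoc (fun j => a j.succ) (a 0)

theorem rot_zero {p : ℕ} {T : Type} (a : Fin (p + 1) → T) : rot a 0 = a (Fin.last p) := by
  unfold rot
  rw [Fin.cons_zero]

theorem rot_succ {p : ℕ} {T : Type} (a : Fin (p + 1) → T) (j : Fin p) :
    rot a j.succ = a j.castSucc := by
  unfold rot
  rw [Fin.cons_succ]

theorem rot'_rot {p : ℕ} {T : Type} (a : Fin (p + 1) → T) : rot' (rot a) = a := by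
  funext j
  refine Fin.lastCases ?_ (fun i => ?_) j
  · unfold rot'
    rw [Fin.snoc_last, rot_zero]
  · unfold rot'
    rw [Fin.snoc_castSucc, rot_succ]

theorem rot_rot' {p : ℕ} {T : Type} (a : Fin (p + 1) → T) : rot (rot' a) = a := by
  funext j
  refine Fin.cases ?_ (fun i => ?_) j
  · rw [rot_zero]
    unfold rot'
    rw [Fin.snoc_last]
  · rw [rot_succ]
    unfold rot'
    rw [Fin.snoc_castSucc]

/-- the cyclic permutation as an equivalence -/
def rotE (p : ℕ) (T : Type) : (Fin (p + 1) → T) ≃ (Fin (p + 1) → T) where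
  toFun := rot
  invFun := rot'
  left_inv := rot'_rot
  right_inv := rot_rot'

open Classical in
/-- the permutation matrix -/
def pm (F : Type) [Field F] (p n : ℕ) : Matrix (Fin (p + 1) → Fin n) (Fin (p + 1) → Fin n) F :=
  fun a b => if a = rotE p (Fin n) b then 1 else 0

open Classical in
/-- the inverse permutation matrix -/
def pm' (F : Type) [Field F] (p n : ℕ) : Matrix (Fin (p + 1) → Fin n) (Fin (p + 1) → Fin n) F :=
  fun a b => if rotE p (Fin n) a = b then 1 else 0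

theorem pm_mul {p n : ℕ} (M : Matrix (Fin (p + 1) → Fin n) (Fin (p + 1) → Fin n) F)
    (a b : Fin (p + 1) → Fin n) : (pm F p n * M) (rotE p (Fin n) a) b = M a b := by
  rw [Matrix.mul_apply, Finset.sum_eq_single a]
  · unfold pm
    rw [if_pos rfl, one_mul]
  · intro c _ hc
    unfold pm
    rw [if_neg fun h => hc ((rotE p (Fin n)).injective h).symm, zero_mul]
  · intro h; exact absurd (Finset.mem_univ _) h

theorem mul_pm {p n : ℕ} (M : Matrix (Fin (p + 1) → Fin n) (Fin (p + 1) → Fin n) F)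
    (a b : Fin (p + 1) → Fin n) : (M * pm F p n) a b = M a (rotE p (Fin n) b) := by
  rw [Matrix.mul_apply, Finset.sum_eq_single (rotE p (Fin n) b)]
  · unfold pm
    rw [if_pos rfl, mul_one]
  · intro c _ hc
    unfold pm
    rw [if_neg hc, mul_zero]
  · intro h; exact absurd (Finset.mem_univ _) h

theorem tp_rot {p n : ℕ} (M : Fin (p + 1) → Matrix (Fin n) (Fin n) F)
    (a b : Fin (p + 1) → Fin n) : tp (rot M) (rotE p (Fin n) a) (rotE p (Fin n) b) = tp M a b := by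
  show ∏ j, rot M j (rot a j) (rot b j) = ∏ j, M j (a j) (b j)
  rw [Fin.prod_univ_succ, Fin.prod_univ_castSucc, mul_comm, rot_zero, rot_zero, rot_zero]
  refine congrArg (fun z => z * _) (Finset.prod_congr rfl fun j _ => ?_)
  rw [rot_succ, rot_succ, rot_succ]

theorem pm_tp {p n : ℕ} (M : Fin (p + 1) → Matrix (Fin n) (Fin n) F) :
    pm F p n * tp M = tp (rot M) * pm F p n := by
  ext a b
  obtain ⟨a', rfl⟩ := (rotE p (Fin n)).surjective a
  rw [pm_mul, mul_pm, tp_rot]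

/-- the permutation matrix as a unit -/
def pmU (F : Type) [Field F] (p n : ℕ) :
    (Matrix (Fin (p + 1) → Fin n) (Fin (p + 1) → Fin n) F)ˣ where
  val := pm F p n
  inv := pm' F p n
  val_inv := by
    ext a b
    obtain ⟨a', rfl⟩ := (rotE p (Fin n)).surjective a
    rw [pm_mul, Matrix.one_apply]
    unfold pm'
    split_ifs <;> rfl
  inv_val := by
    ext a b
    rw [mul_pm, Matrix.one_apply]
    unfold pm'
    by_cases h : a = b
    · rw [if_pos h, if_pos (by rw [h])]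
    · rw [if_neg h, if_neg fun h' => h ((rotE p (Fin n)).injective h')]

/-- the tensor product of units -/
def tpU {q n : ℕ} (M : Fin q → (Matrix (Fin n) (Fin n) F)ˣ) :
    (Matrix (Fin q → Fin n) (Fin q → Fin n) F)ˣ where
  val := tp (fun j => (M j : Matrix (Fin n) (Fin n) F))
  inv := tp (fun j => ((M j)⁻¹ : (Matrix (Fin n) (Fin n) F)ˣ))
  val_inv := by
    rw [tp_mul]
    simp only [Units.mul_inv]
    exact tp_one
  inv_val := by
    rw [tp_mul]
    simp only [Units.inv_mul]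
    exact tp_one

theorem span_tp {q n : ℕ} (S : Set (Matrix (Fin n) (Fin n) F))
    (hS : Submodule.span F S = ⊤) :
    Submodule.span F {M | ∃ N : Fin q → Matrix (Fin n) (Fin n) F, (∀ j, N j ∈ S) ∧ M = tp N} = ⊤ := by
  have key : ∀ k : ℕ, k ≤ q → ∀ N : Fin q → Matrix (Fin n) (Fin n) F,
      (∀ j : Fin q, k ≤ j.val → N j ∈ S) →
      tp N ∈ Submodule.span F
        {M | ∃ N : Fin q → Matrix (Fin n) (Fin n) F, (∀ j, N j ∈ S) ∧ M = tp N} := by
    intro k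
    induction k with
    | zero => exact fun _ N hN => Submodule.subset_span ⟨N, fun j => hN j (Nat.zero_le _), rfl⟩
    | succ k ih =>
      intro hk N hN
      have hup : ∀ X : Matrix (Fin n) (Fin n) F, tp (Function.update N ⟨k, hk⟩ X) =
          fun a b => X (a ⟨k, hk⟩) (b ⟨k, hk⟩) *
            ∏ j ∈ Finset.univ.erase ⟨k, hk⟩, N j (a j) (b j) := by
        intro X
        funext a b
        unfold tp
        rw [← Finset.mul_prod_erase Finset.univ _ (Finset.mem_univ ⟨k, hk⟩), Function.update_self]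
        congr 1
        apply Finset.prod_congr rfl
        intro j hj
        rw [Function.update_of_ne (Finset.ne_of_mem_erase hj)]
      have hall : ∀ X ∈ Submodule.span F S, tp (Function.update N ⟨k, hk⟩ X) ∈ Submodule.span F
          {M | ∃ N : Fin q → Matrix (Fin n) (Fin n) F, (∀ j, N j ∈ S) ∧ M = tp N} := by
        intro X hX
        induction hX using Submodule.span_induction with
        | mem X hX =>
          apply ih (by omega)
          intro j hj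
          by_cases h : j = ⟨k, hk⟩
          · subst h
            rw [Function.update_self]
            exact hX
          · rw [Function.update_of_ne h]
            apply hN
            rcases Nat.lt_or_ge k j.val with h1 | h1
            · exact h1
            · exact absurd (Fin.ext (le_antisymm h1 hj)) h
        | zero =>
          have : tp (Function.update N ⟨k, hk⟩ (0 : Matrix (Fin n) (Fin n) F)) = 0 := by
            rw [hup]
            funext a b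
            simp
          rw [this]
          exact Submodule.zero_mem _
        | add X Y _ _ hX hY =>
          have : tp (Function.update N ⟨k, hk⟩ (X + Y)) = tp (Function.update N ⟨k, hk⟩ X) +
              tp (Function.update N ⟨k, hk⟩ Y) := by
            rw [hup, hup, hup]
            funext a b
            simp [add_mul]
          rw [this]
          exact Submodule.add_mem _ hX hY
        | smul c X _ hX =>
          have : tp (Function.update N ⟨k, hk⟩ (c • X)) =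
              c • tp (Function.update N ⟨k, hk⟩ X) := by
            rw [hup, hup]
            funext a b
            simp [mul_assoc]
          rw [this]
          exact Submodule.smul_mem _ _ hX
      have := hall (N ⟨k, hk⟩) (by rw [hS]; exact Submodule.mem_top)
      rwa [Function.update_eq_self] at this
  rw [eq_top_iff]
  intro M _
  rw [Matrix.matrix_eq_sum_single M]
  refine Submodule.sum_mem _ fun a _ => Submodule.sum_mem _ fun b _ => ?_
  have h1 : Matrix.single a b (M a b) = M a b • tp (fun j => Matrix.single (a j) (b j) (1 : F)) := by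
    ext c d
    rw [Matrix.smul_apply, smul_eq_mul]
    unfold tp
    simp only [Matrix.single_apply]
    by_cases h : a = c ∧ b = d
    · obtain ⟨rfl, rfl⟩ := h
      simp
    · rw [if_neg h]
      have : ∃ j, ¬ (a j = c j ∧ b j = d j) := by
        by_contra hcon
        push Not at hcon
        exact h ⟨funext fun j => (hcon j).1, funext fun j => (hcon j).2⟩
      obtain ⟨j, hj⟩ := this
      rw [Finset.prod_eq_zero (Finset.mem_univ j), mul_zero]
      rw [if_neg hj]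
  rw [h1]
  exact Submodule.smul_mem _ _ (key q le_rfl _ fun j hj => absurd hj (not_le.2 j.2))

end mat

section rep

variable {F K : Type} [Field F] [Group K] {X : Subgroup K}

/-- the power of a subgroup -/
abbrev PW (q : ℕ) (X : Subgroup K) : Subgroup (Fin q → K) :=
  Subgroup.pi Set.univ (fun _ : Fin q => X)

theorem mem_PW {q : ℕ} {X : Subgroup K} {x : Fin q → K} : x ∈ PW q X ↔ ∀ j, x j ∈ X := by
  rw [Subgroup.mem_pi]
  exact ⟨fun h j => h j (Set.mem_univ _), fun h j _ => h j⟩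

/-- the components -/
def cmp {q : ℕ} (x : PW q X) (j : Fin q) : X := ⟨x.1 j, mem_PW.1 x.2 j⟩

/-- the power as a product -/
def cmpE (q : ℕ) (X : Subgroup K) : PW q X ≃ (Fin q → X) where
  toFun := cmp
  invFun x := ⟨fun j => x j, mem_PW.2 fun j => (x j).2⟩
  left_inv _ := rfl
  right_inv _ := rfl

/-- the tensor power of a representation -/
def rp (q : ℕ) {n : ℕ} (σ : X →* Matrix (Fin n) (Fin n) F) :
    PW q X →* Matrix (Fin (n ^ q)) (Fin (n ^ q)) F where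
  toFun x := rx q n (tp fun j => σ (cmp x j))
  map_one' := by
    have : (fun j => σ (cmp (1 : PW q X) j)) = fun _ => 1 := by
      funext j
      exact map_one σ
    rw [this, tp_one, map_one]
  map_mul' x y := by
    rw [← map_mul, tp_mul]
    congr 2
    funext j
    exact map_mul σ (cmp x j) (cmp y j)

theorem rp_apply (q : ℕ) {n : ℕ} (σ : X →* Matrix (Fin n) (Fin n) F) (x : PW q X) :
    rp q σ x = rx q n (tp fun j => σ (cmp x j)) := rfl

theorem rp_irr (q : ℕ) {n : ℕ} {σ : X →* Matrix (Fin n) (Fin n) F} (hσ : IsIrr σ) :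
    IsIrr (rp q σ) := by
  refine ⟨pow_pos hσ.1 q, ?_⟩
  have h1 := span_tp (q := q) (Set.range σ) hσ.2
  have h2 : Set.range (rp q σ) = (rx q n).toLinearMap '' {M | ∃ N : Fin q → Matrix (Fin n) (Fin n) F,
      (∀ j, N j ∈ Set.range σ) ∧ M = tp N} := by
    ext M
    constructor
    · rintro ⟨x, rfl⟩
      exact ⟨_, ⟨_, fun j => ⟨cmp x j, rfl⟩, rfl⟩, rfl⟩
    · rintro ⟨_, ⟨N, hN, rfl⟩, rfl⟩
      choose x hx using hN
      refine ⟨(cmpE q X).symm x, ?_⟩
      rw [rp_apply]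
      show rx q n _ = rx q n _
      congr 2
      funext j
      exact hx j
  rw [h2, ← Submodule.map_span, h1, Submodule.map_top]
  exact LinearMap.range_eq_top.2 (rx q n).surjective

theorem rp_tr (q : ℕ) {n : ℕ} (σ : X →* Matrix (Fin n) (Fin n) F) :
    tr (rp q σ) = fun x : PW q X => ∏ j, tr σ (cmp x j) := by
  funext x
  unfold tr
  rw [rp_apply, rx_trace, tp_trace]

theorem rp_ev [Finite K] (q : ℕ) {n : ℕ} (σ : X →* Matrix (Fin n) (Fin n) F) (v : Fin q → K → F) :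
    ev (rp q σ) (fun x : PW q X => ∏ j, v j (x.1 j)) =
      rx q n (tp fun j => ev σ (fun t : X => v j t)) := by
  have := Fintype.ofFinite X
  have := Fintype.ofFinite (PW q X)
  unfold ev
  simp only [finsum_eq_sum_of_fintype]
  rw [tp_sum, map_sum, ← Equiv.sum_comp (cmpE q X)]
  apply Finset.sum_congr rfl
  intro x _
  rw [rp_apply, ← map_smul]
  congr 1
  exact (tp_smul (fun j => v j (x.1 j)) (fun j => σ (cmp x j))).symm

/-- reindexed units -/
def rxU (q n : ℕ) : (Matrix (Fin q → Fin n) (Fin q → Fin n) F)ˣ →*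
    (Matrix (Fin (n ^ q)) (Fin (n ^ q)) F)ˣ :=
  Units.map (MonoidHomClass.toMonoidHom (rx (F := F) q n))

theorem rxU_val (q n : ℕ) (A : (Matrix (Fin q → Fin n) (Fin q → Fin n) F)ˣ) :
    ((rxU q n A : (Matrix (Fin (n ^ q)) (Fin (n ^ q)) F)ˣ) : Matrix _ _ F) = rx q n A := rfl

theorem impl_diag (q : ℕ) {n : ℕ} {σ : X →* Matrix (Fin n) (Fin n) F} {αs : Fin q → MulAut K}
    {α : MulAut (Fin q → K)} (hα : ∀ k j, (α k) j = αs j (k j))
    {T : Fin q → (Matrix (Fin n) (Fin n) F)ˣ} (hT : ∀ j, Impl σ (αs j) (T j)) :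
    Impl (rp q σ) α (rxU q n (tpU T)) := by
  intro h h' hh
  rw [rxU_val, rp_apply, rp_apply, ← map_mul, ← map_mul]
  congr 1
  show tp _ * tp _ = tp _ * tp _
  rw [tp_mul, tp_mul]
  congr 1
  funext j
  apply hT j
  show h'.1 j = αs j (h.1 j)
  rw [hh, hα]

/-- the implementer of the shift: the first slot -/
def fst (p : ℕ) {n : ℕ} (T : (Matrix (Fin n) (Fin n) F)ˣ) : Fin (p + 1) → (Matrix (Fin n) (Fin n) F)ˣ :=
  Fin.cons T (fun _ => 1)

theorem fst_zero (p : ℕ) {n : ℕ} (T : (Matrix (Fin n) (Fin n) F)ˣ) : fst p T 0 = T := by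
  unfold fst
  rw [Fin.cons_zero]

theorem fst_succ (p : ℕ) {n : ℕ} (T : (Matrix (Fin n) (Fin n) F)ˣ) (j : Fin p) :
    fst p T j.succ = 1 := by
  unfold fst
  rw [Fin.cons_succ]

theorem impl_shift (p : ℕ) {n : ℕ} {σ : X →* Matrix (Fin n) (Fin n) F} {β₀ : MulAut K}
    {β : MulAut (Fin (p + 1) → K)} (hβ : IsShift p β β₀)
    {T : (Matrix (Fin n) (Fin n) F)ˣ} (hT : Impl σ β₀ T) :
    Impl (rp (p + 1) σ) β (rxU (p + 1) n (tpU (fst p T) * pmU F p n)) := by
  intro h h' hh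
  rw [rxU_val, rp_apply, rp_apply, ← map_mul, ← map_mul]
  congr 1
  show tp _ * pm F p n * tp _ = tp _ * (tp _ * pm F p n)
  rw [mul_assoc, pm_tp, ← mul_assoc, tp_mul, ← mul_assoc, tp_mul]
  congr 2
  funext j
  refine Fin.cases ?_ (fun i => ?_) j
  · rw [rot_zero, fst_zero]
    apply hT
    show h'.1 0 = β₀ (h.1 (Fin.last p))
    rw [hh, (hβ _).1]
  · rw [rot_succ, fst_succ, Units.val_one, one_mul, mul_one]
    congr 1
    apply Subtype.ext
    show h.1 i.castSucc = h'.1 i.succ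
    rw [hh, (hβ _).2]

/-- the slots of the commutator -/
def slots {p n : ℕ} (Ts : Fin (p + 1) → (Matrix (Fin n) (Fin n) F)ˣ)
    (T : (Matrix (Fin n) (Fin n) F)ˣ) : Fin (p + 1) → (Matrix (Fin n) (Fin n) F)ˣ :=
  Fin.cons (Ts 0 * T * (Ts (Fin.last p))⁻¹ * T⁻¹) (fun j => Ts j.succ * (Ts j.castSucc)⁻¹)

theorem comm_slots {p n : ℕ} (Ts : Fin (p + 1) → (Matrix (Fin n) (Fin n) F)ˣ)
    (T : (Matrix (Fin n) (Fin n) F)ˣ) :
    tpU Ts * (tpU (fst p T) * pmU F p n) * (tpU Ts)⁻¹ * (tpU (fst p T) * pmU F p n)⁻¹ =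
      tpU (slots Ts T) := by
  rw [mul_inv_eq_iff_eq_mul, mul_inv_eq_iff_eq_mul]
  apply Units.ext
  show tp _ * (tp _ * pm F p n) = tp _ * (tp _ * pm F p n) * tp _
  rw [← mul_assoc, tp_mul, mul_assoc, mul_assoc (tp _) (pm F p n), pm_tp, ← mul_assoc (tp _) (tp _)
    (pm F p n), tp_mul, ← mul_assoc, tp_mul]
  congr 2
  funext j
  refine Fin.cases ?_ (fun i => ?_) j
  · unfold slots
    rw [Fin.cons_zero, fst_zero, rot_zero, ← Units.val_mul, ← Units.val_mul, ← Units.val_mul]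
    congr 1
    group
  · unfold slots
    rw [Fin.cons_succ, fst_succ, rot_succ, ← Units.val_mul, ← Units.val_mul, ← Units.val_mul]
    congr 1
    group

/-- **The scalar of the tensor power.** -/
theorem isTS_power [Finite K] (p : ℕ) {n : ℕ} {σ : X →* Matrix (Fin n) (Fin n) F} (hσ : IsIrr σ)
    {αs : Fin (p + 1) → MulAut K} {β₀ : MulAut K} {α β : MulAut (Fin (p + 1) → K)}
    (hα : ∀ k j, (α k) j = αs j (k j)) (hβ : IsShift p β β₀)
    {Ts : Fin (p + 1) → (Matrix (Fin n) (Fin n) F)ˣ} (hTs : ∀ j, Impl σ (αs j) (Ts j))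
    {T : (Matrix (Fin n) (Fin n) F)ˣ} (hT : Impl σ β₀ T) (v : Fin (p + 1) → K → F)
    (θ : Fin (p + 1) → F) (hθ : ∀ j, ((slots Ts T j : (Matrix (Fin n) (Fin n) F)ˣ) :
      Matrix (Fin n) (Fin n) F) * ev σ (fun t : X => v j t) = Matrix.scalar (Fin n) (θ j)) :
    IsTS (PW (p + 1) X) (fun x : PW (p + 1) X => ∏ j, tr σ (cmp x j)) α β
      (fun k => ∏ j, v j (k j)) (∏ j, θ j) := by
  refine ⟨n ^ (p + 1), rp (p + 1) σ, rxU _ _ (tpU Ts), rxU _ _ (tpU (fst p T) * pmU F p n),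
    rp_irr _ hσ, rp_tr _ σ, impl_diag _ hα hTs, impl_shift p hβ hT, ?_⟩
  rw [← map_inv, ← map_inv, ← map_mul, ← map_mul, ← map_mul, comm_slots, rxU_val]
  have h1 := rp_ev (p + 1) σ v
  rw [h1, ← map_mul, ← rx_scalar]
  congr 1
  show tp _ * tp _ = _
  rw [tp_mul, ← tp_scalar]
  congr 1
  funext j
  exact hθ j

end rep

end Pool.Agent.PP.H17
end
end -- Pool.Agent.Helper17_PP.Tns

section -- Pool.Agent.Helper17_PP.Ops

/-!
Squad PP (AWC), part CYD, module OPS: the scalars of the direct power with a cyclic shift.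
-/

open scoped BigOperators

set_option linter.unusedSectionVars false

noncomputable section

namespace Pool.Agent.PP.H17

open Pool.Agent.Helper51_AWC Pool.Agent.Helper79_WRA Pool.Agent.PP

section aut

variable {K : Type} [Group K]

theorem tw_mul (γ δ : MulAut K) (c d : K) : tw γ c * tw δ d = tw (γ * δ) (δ⁻¹ c * d) := by
  apply MulEquiv.ext
  intro y
  show γ (c * δ (d * y * d⁻¹) * c⁻¹) = γ (δ (δ⁻¹ c * d * y * (δ⁻¹ c * d)⁻¹))
  congr 1
  have h : δ (δ⁻¹ c) = c := MulAut.apply_inv_self K δ c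
  rw [map_mul, map_mul, map_mul, map_mul, map_mul, map_inv, map_inv, map_mul, h]
  group

theorem tw_inv (γ : MulAut K) (c : K) : (tw γ c)⁻¹ = tw γ⁻¹ (γ c⁻¹) := by
  rw [inv_eq_iff_mul_eq_one, tw_mul, mul_inv_cancel]
  have h : (γ⁻¹)⁻¹ c * γ c⁻¹ = 1 := by
    rw [inv_inv, ← map_mul, mul_inv_cancel, map_one]
  rw [h]
  unfold tw
  rw [map_one, mul_one]

theorem tw_inv_apply (γ : MulAut K) (c y : K) : (tw γ c)⁻¹ y = c⁻¹ * γ⁻¹ y * c := by
  rw [tw_inv]
  show γ⁻¹ (γ c⁻¹ * y * (γ c⁻¹)⁻¹) = _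
  rw [map_mul, map_mul, map_inv γ⁻¹, MulAut.inv_apply_self, inv_inv]

/-- the type of a translate -/
theorem comm_tr {F : Type} {γ : MulAut K} {w : K → F} (hw : ∀ n y, w (γ⁻¹ n * y * n⁻¹) = w y)
    (c : K) : ∀ n y, (fun y => w (c * y)) ((tw γ c)⁻¹ n * y * n⁻¹) = (fun y => w (c * y)) y := by
  intro n y
  show w (c * ((tw γ c)⁻¹ n * y * n⁻¹)) = w (c * y)
  rw [tw_inv_apply, ← hw n (c * y)]
  congr 1
  group

end aut

section mul

variable {F K : Type} [Field F] [Group K] [Finite K]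

theorem mulF_comp (γ : MulAut K) (a b : K → F) :
    mulF (fun y => a (γ y)) (fun y => b (γ y)) = fun y => mulF a b (γ y) := by
  have := Fintype.ofFinite K
  funext x
  unfold mulF
  rw [finsum_eq_sum_of_fintype, finsum_eq_sum_of_fintype,
    ← Equiv.sum_comp γ.toEquiv (fun t => a t * b (t⁻¹ * γ x))]
  apply Finset.sum_congr rfl
  intro t _
  show a (γ t) * b (γ (t⁻¹ * x)) = a (γ t) * b ((γ t)⁻¹ * γ x)
  rw [map_mul, map_inv]

/-- the type of a product -/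
theorem comm_prod {γ₁ γ₂ : MulAut K} {w₁ w₂ : K → F} (h₁ : ∀ n y, w₁ (γ₁⁻¹ n * y * n⁻¹) = w₁ y)
    (h₂ : ∀ n y, w₂ (γ₂⁻¹ n * y * n⁻¹) = w₂ y) :
    ∀ n y, mulF (fun y => w₁ (γ₂ y)) w₂ ((γ₁ * γ₂)⁻¹ n * y * n⁻¹) =
      mulF (fun y => w₁ (γ₂ y)) w₂ y := by
  have := Fintype.ofFinite K
  intro n y
  unfold mulF
  rw [finsum_eq_sum_of_fintype, finsum_eq_sum_of_fintype]
  symm
  refine Fintype.sum_equiv ((Equiv.mulLeft ((γ₁ * γ₂)⁻¹ n)).trans (Equiv.mulRight (γ₂⁻¹ n)⁻¹))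
    _ _ fun s => ?_
  show w₁ (γ₂ s) * w₂ (s⁻¹ * y) = w₁ (γ₂ ((γ₁ * γ₂)⁻¹ n * s * (γ₂⁻¹ n)⁻¹)) *
    w₂ (((γ₁ * γ₂)⁻¹ n * s * (γ₂⁻¹ n)⁻¹)⁻¹ * ((γ₁ * γ₂)⁻¹ n * y * n⁻¹))
  have e1 : γ₂ ((γ₁ * γ₂)⁻¹ n * s * (γ₂⁻¹ n)⁻¹) = γ₁⁻¹ n * γ₂ s * n⁻¹ := by
    rw [map_mul, map_mul, map_inv, MulAut.apply_inv_self, mul_inv_rev, MulAut.mul_apply,
      MulAut.apply_inv_self]
  have e2 : ((γ₁ * γ₂)⁻¹ n * s * (γ₂⁻¹ n)⁻¹)⁻¹ * ((γ₁ * γ₂)⁻¹ n * y * n⁻¹) =
      γ₂⁻¹ n * (s⁻¹ * y) * n⁻¹ := by group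
  rw [e1, e2, h₁, h₂]

/-- products of translates -/
theorem prod_tr (γ₂ : MulAut K) (w₁ w₂ : K → F) (c₁ c₂ : K) :
    mulF (fun y => (fun y => w₁ (c₁ * y)) (tw γ₂ c₂ y)) (fun y => w₂ (c₂ * y)) =
      fun y => mulF (fun y => w₁ (γ₂ y)) w₂ (γ₂⁻¹ c₁ * c₂ * y) := by
  have := Fintype.ofFinite K
  funext x
  unfold mulF
  rw [finsum_eq_sum_of_fintype, finsum_eq_sum_of_fintype]
  refine Fintype.sum_equiv (((Equiv.mulLeft c₂).trans (Equiv.mulLeft (γ₂⁻¹ c₁))).trans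
    (Equiv.mulRight c₂⁻¹)) _ _ fun t => ?_
  show w₁ (c₁ * γ₂ (c₂ * t * c₂⁻¹)) * w₂ (c₂ * (t⁻¹ * x)) =
    w₁ (γ₂ (γ₂⁻¹ c₁ * (c₂ * t) * c₂⁻¹)) * w₂ ((γ₂⁻¹ c₁ * (c₂ * t) * c₂⁻¹)⁻¹ * (γ₂⁻¹ c₁ * c₂ * x))
  have e1 : γ₂ (γ₂⁻¹ c₁ * (c₂ * t) * c₂⁻¹) = c₁ * γ₂ (c₂ * t * c₂⁻¹) := by
    rw [mul_assoc, map_mul, MulAut.apply_inv_self]
  have e2 : (γ₂⁻¹ c₁ * (c₂ * t) * c₂⁻¹)⁻¹ * (γ₂⁻¹ c₁ * c₂ * x) = c₂ * (t⁻¹ * x) := by group
  rw [e1, e2]

/-- products of units -/
theorem unt_prod {f : K → F} (hf : mulF f f = f) (hfc : IsCl f) {γ₁ γ₂ : MulAut K}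
    (hf2 : ∀ y, f (γ₂ y) = f y) {w₁ wi₁ w₂ wi₂ : K → F} (h₁ : Unt f γ₁ w₁ wi₁)
    (h₂ : Unt f γ₂ w₂ wi₂) : Unt f (γ₁ * γ₂) (mulF (fun y => w₁ (γ₂ y)) w₂)
      (mulF wi₂ (fun y => wi₁ (γ₂ y))) := by
  have hc : ∀ a, mulF f a = mulF a f := fun a => H75.mulF_comm_cl hfc a
  have hf3 : (fun y => f (γ₂ y)) = f := funext hf2
  have h1 : ∀ a, mulF f (fun y => a (γ₂ y)) = fun y => mulF f a (γ₂ y) := by
    intro a
    have := mulF_comp γ₂ f a
    rwa [hf3] at this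
  refine ⟨?_, ?_, ?_, ?_, comm_prod h₁.comm h₂.comm⟩
  · rw [← mulF_assoc, h1, h₁.fw]
  · rw [← mulF_assoc, h₂.fwi]
  · calc mulF (mulF (fun y => w₁ (γ₂ y)) w₂) (mulF wi₂ (fun y => wi₁ (γ₂ y)))
        = mulF (fun y => w₁ (γ₂ y)) (mulF (mulF w₂ wi₂) (fun y => wi₁ (γ₂ y))) := by
          rw [mulF_assoc, ← mulF_assoc w₂]
      _ = f := by
          rw [h₂.unit, h1, h₁.fwi, mulF_comp, h₁.unit]
          exact hf3
  · calc mulF (mulF wi₂ (fun y => wi₁ (γ₂ y))) (mulF (fun y => w₁ (γ₂ y)) w₂)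
        = mulF wi₂ (mulF (mulF (fun y => wi₁ (γ₂ y)) (fun y => w₁ (γ₂ y))) w₂) := by
          rw [mulF_assoc, ← mulF_assoc (fun y => wi₁ (γ₂ y))]
      _ = f := by
          rw [mulF_comp, h₁.unit', hf3, h₂.fw, h₂.unit']

/-- conjugates of units -/
theorem unt_conj {f : K → F} {γ β : MulAut K} (hfb : ∀ y, f (β y) = f y) {w wi : K → F}
    (h : Unt f γ w wi) : Unt f (β * γ * β⁻¹) (fun y => w (β⁻¹ y)) (fun y => wi (β⁻¹ y)) := by
  have hf3 : (fun y => f (β⁻¹ y)) = f := by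
    funext y
    rw [← hfb, MulAut.apply_inv_self]
  have h1 : ∀ a b : K → F, mulF (fun y => a (β⁻¹ y)) (fun y => b (β⁻¹ y)) =
      fun y => mulF a b (β⁻¹ y) := fun a b => mulF_comp β⁻¹ a b
  refine ⟨?_, ?_, ?_, ?_, ?_⟩
  · have := h1 f w
    rw [hf3, h.fw] at this
    exact this
  · have := h1 f wi
    rw [hf3, h.fwi] at this
    exact this
  · rw [h1, h.unit]
    exact hf3
  · rw [h1, h.unit']
    exact hf3
  · intro n y
    rw [map_mul, map_mul, map_inv β⁻¹, ← h.comm (β⁻¹ n) (β⁻¹ y)]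
    congr 3
    rw [mul_inv_rev, mul_inv_rev, inv_inv, MulAut.mul_apply, MulAut.mul_apply,
      MulAut.inv_apply_self]

/-- conjugates of translates -/
theorem conj_tr {γ : MulAut K} {w : K → F} (hw : ∀ n y, w (γ⁻¹ n * y * n⁻¹) = w y)
    (β : MulAut K) (μ c : K) : (fun y => (fun y => w (c * y)) ((tw β μ)⁻¹ y)) =
      fun y => (fun y => w (β⁻¹ y)) (β (γ⁻¹ μ * c * μ⁻¹) * y) := by
  funext x
  show w (c * (tw β μ)⁻¹ x) = w (β⁻¹ (β (γ⁻¹ μ * c * μ⁻¹) * x))
  rw [tw_inv_apply, map_mul, MulAut.inv_apply_self, ← hw μ (c * (μ⁻¹ * β⁻¹ x * μ))]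
  congr 1
  group

end mul

section ops

variable {F K : Type} [Field F] [Group K] [Finite K]

theorem scal_mul {n : ℕ} (s t : F) : Matrix.scalar (Fin n) s * Matrix.scalar (Fin n) t =
    Matrix.scalar (Fin n) (s * t) := (map_mul _ _ _).symm

/-- **The product rule.** -/
theorem rule (hThe : TheStmt) {ℓ : ℕ} (hF : GoodF ℓ F) {e : Finset (Subgroup K)}
    (he : e ∈ chainsOn (psubIn ℓ (⊤ : Subgroup K)) ⊥) (hn : NormalChain e) {n : ℕ}
    {σ : stab e →* Matrix (Fin n) (Fin n) F} (hσ : IsIrr σ) {γ₁ γ₂ : MulAut K} {c₁ c₂ : K}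
    (h₁ : FixC (tw γ₁ c₁) e) (h₂ : FixC (tw γ₂ c₂) e) {w₁ w₂ : K → F}
    (hw₁ : ∀ n y, w₁ (γ₁⁻¹ n * y * n⁻¹) = w₁ y) (hw₂ : ∀ n y, w₂ (γ₂⁻¹ n * y * n⁻¹) = w₂ y)
    {A₁ A₂ : (Matrix (Fin n) (Fin n) F)ˣ} (hA₂ : Impl σ (tw γ₂ c₂) A₂) {s₁ s₂ : F}
    (hs₁ : (A₁ : Matrix (Fin n) (Fin n) F) * ev σ (fun t : stab e => w₁ (c₁ * t)) =
      Matrix.scalar (Fin n) s₁)
    (hs₂ : (A₂ : Matrix (Fin n) (Fin n) F) * ev σ (fun t : stab e => w₂ (c₂ * t)) =
      Matrix.scalar (Fin n) s₂) :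
    ((A₁ * A₂ : (Matrix (Fin n) (Fin n) F)ˣ) : Matrix (Fin n) (Fin n) F) *
      ev σ (fun t : stab e => mulF (fun y => w₁ (γ₂ y)) w₂ (γ₂⁻¹ c₁ * c₂ * t)) =
      Matrix.scalar (Fin n) (s₁ * s₂) := by
  have h := hThe ℓ F hF K e he hn n σ hσ (tw γ₁ c₁) (tw γ₂ c₂) h₁ h₂ (fun y => w₁ (c₁ * y))
    (fun y => w₂ (c₂ * y)) (comm_tr hw₁ c₁) (comm_tr hw₂ c₂) A₂ hA₂
  rw [prod_tr] at h
  rw [Units.val_mul, mul_assoc, ← h, ← scal_mul, ← hs₁, ← hs₂]
  simp only [mul_assoc]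

/-- **The conjugation rule.** -/
theorem rule_conj {e : Finset (Subgroup K)} {n : ℕ} {σ : stab e →* Matrix (Fin n) (Fin n) F}
    {γ β : MulAut K} {μ c : K} (hβ : FixC (tw β μ) e) {w : K → F}
    (hw : ∀ n y, w (γ⁻¹ n * y * n⁻¹) = w y) {A T : (Matrix (Fin n) (Fin n) F)ˣ}
    (hT : Impl σ (tw β μ) T) {s : F}
    (hs : (A : Matrix (Fin n) (Fin n) F) * ev σ (fun t : stab e => w (c * t)) =
      Matrix.scalar (Fin n) s) :
    ((T * A * T⁻¹ : (Matrix (Fin n) (Fin n) F)ˣ) : Matrix (Fin n) (Fin n) F) *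
      ev σ (fun t : stab e => (fun y => w (β⁻¹ y)) (β (γ⁻¹ μ * c * μ⁻¹) * t)) =
      Matrix.scalar (Fin n) s := by
  have h := H18.ev_aut σ (tw β μ) (H21.FixC.stab_iff hβ) T hT (fun y => w (c * y))
  have h1 := conj_tr hw β μ c
  have h2 : (fun t : stab e => (fun y => w (c * y)) ((tw β μ)⁻¹ (t : K))) =
      fun t : stab e => (fun y => w (β⁻¹ y)) (β (γ⁻¹ μ * c * μ⁻¹) * t) := by
    funext t
    exact congrFun h1 t
  rw [h2] at h
  apply H18.cancel_unit T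
  rw [mul_assoc, ← h, Units.val_mul, Units.val_mul]
  calc (T : Matrix (Fin n) (Fin n) F) * A * ((T⁻¹ : (Matrix (Fin n) (Fin n) F)ˣ) :
        Matrix (Fin n) (Fin n) F) * (T * ev σ (fun t : stab e => w (c * t)))
      = T * A * (((T⁻¹ : (Matrix (Fin n) (Fin n) F)ˣ) : Matrix (Fin n) (Fin n) F) * T) *
        ev σ (fun t : stab e => w (c * t)) := by simp only [mul_assoc]
    _ = T * (A * ev σ (fun t : stab e => w (c * t))) := by
        rw [Units.inv_mul, mul_one, mul_assoc]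
    _ = _ := by
        rw [hs, Matrix.scalar_apply, ← Matrix.smul_one_eq_diagonal, mul_smul_comm, mul_one,
          smul_mul_assoc, one_mul]

end ops

section data

variable {F K : Type} [Field F] [Group K] [Finite K]

theorem kap_succ {p : ℕ} {αs : Fin (p + 1) → MulAut K} {β₀ : MulAut K}
    {α β : MulAut (Fin (p + 1) → K)} {κ : Fin (p + 1) → MulAut K}
    (hα : ∀ k j, (α k) j = αs j (k j)) (hβ : IsShift p β β₀)
    (hκ : ∀ k j, (kap α β k) j = κ j (k j)) (j : Fin p) (y : K) :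
    κ j.succ (αs j.castSucc y) = αs j.succ y := by
  have h1 : kap α β (β (α fun _ => y)) = α (β fun _ => y) := by
    unfold kap
    rw [MulAut.mul_apply, MulAut.inv_apply_self, MulAut.mul_apply, MulAut.inv_apply_self,
      MulAut.mul_apply]
  have h2 := congrFun h1 j.succ
  rw [hκ, hα, (hβ _).2, (hβ _).2, hα] at h2
  exact h2

theorem kap_zero {p : ℕ} {αs : Fin (p + 1) → MulAut K} {β₀ : MulAut K}
    {α β : MulAut (Fin (p + 1) → K)} {κ : Fin (p + 1) → MulAut K}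
    (hα : ∀ k j, (α k) j = αs j (k j)) (hβ : IsShift p β β₀)
    (hκ : ∀ k j, (kap α β k) j = κ j (k j)) (y : K) :
    κ 0 (β₀ (αs (Fin.last p) y)) = αs 0 (β₀ y) := by
  have h1 : kap α β (β (α fun _ => y)) = α (β fun _ => y) := by
    unfold kap
    rw [MulAut.mul_apply, MulAut.inv_apply_self, MulAut.mul_apply, MulAut.inv_apply_self,
      MulAut.mul_apply]
  have h2 := congrFun h1 0
  rw [hκ, hα, (hβ _).1, (hβ _).1, hα] at h2
  exact h2

theorem ms_last (p : ℕ) (μ : K) :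
    (Pi.mulSingle (Fin.last p) μ : Fin (p + 1) → K) (Fin.last p) = μ := Pi.mulSingle_eq_same _ _

theorem ms_cast (p : ℕ) (μ : K) (j : Fin p) :
    (Pi.mulSingle (Fin.last p) μ : Fin (p + 1) → K) j.castSucc = 1 :=
  Pi.mulSingle_eq_of_ne (Fin.castSucc_lt_last j).ne _

theorem cc_eq {Y : Type} [Group Y] (α β : MulAut Y) (n m : Y) :
    kap α β (cc α β n m * β m) = α (n * β m * (β n)⁻¹) := by
  unfold cc
  rw [inv_mul_cancel_right, MulAut.apply_inv_self]

theorem cc_succ {p : ℕ} {αs : Fin (p + 1) → MulAut K} {β₀ : MulAut K}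
    {α β : MulAut (Fin (p + 1) → K)} {κ : Fin (p + 1) → MulAut K}
    (hα : ∀ k j, (α k) j = αs j (k j)) (hβ : IsShift p β β₀)
    (hκ : ∀ k j, (kap α β k) j = κ j (k j)) (n : Fin (p + 1) → K) (μ : K) (j : Fin p) :
    (cc α β n (Pi.mulSingle (Fin.last p) μ)) j.succ =
      αs j.castSucc (n j.succ * (n j.castSucc)⁻¹) := by
  have h1 := congrFun (cc_eq α β n (Pi.mulSingle (Fin.last p) μ)) j.succ
  rw [hκ, hα] at h1
  have h2 : ∀ x y : Fin (p + 1) → K, (x * y) j.succ = x j.succ * y j.succ := fun _ _ => rfl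
  have h3 : ∀ x : Fin (p + 1) → K, (x⁻¹) j.succ = (x j.succ)⁻¹ := fun _ => rfl
  rw [h2, h2, h2, h3, (hβ _).2, (hβ _).2, ms_cast, mul_one, mul_one,
    ← kap_succ hα hβ hκ j] at h1
  exact (κ j.succ).injective h1

theorem cc_zero {p : ℕ} {αs : Fin (p + 1) → MulAut K} {β₀ : MulAut K}
    {α β : MulAut (Fin (p + 1) → K)} {κ : Fin (p + 1) → MulAut K}
    (hα : ∀ k j, (α k) j = αs j (k j)) (hβ : IsShift p β β₀)
    (hκ : ∀ k j, (kap α β k) j = κ j (k j)) (n : Fin (p + 1) → K) (μ : K) :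
    (cc α β n (Pi.mulSingle (Fin.last p) μ)) 0 =
      β₀ (αs (Fin.last p) (β₀⁻¹ (n 0) * μ * (n (Fin.last p))⁻¹)) * (β₀ μ)⁻¹ := by
  have h1 := congrFun (cc_eq α β n (Pi.mulSingle (Fin.last p) μ)) 0
  rw [hκ, hα] at h1
  have h2 : ∀ x y : Fin (p + 1) → K, (x * y) 0 = x 0 * y 0 := fun _ _ => rfl
  have h3 : ∀ x : Fin (p + 1) → K, (x⁻¹) 0 = (x 0)⁻¹ := fun _ => rfl
  rw [h2, h2, h2, h3, (hβ _).1, (hβ _).1, ms_last] at h1
  have h4 : n 0 * β₀ μ * (β₀ (n (Fin.last p)))⁻¹ =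
      β₀ (β₀⁻¹ (n 0) * μ * (n (Fin.last p))⁻¹) := by
    rw [map_mul, map_mul, map_inv, MulAut.apply_inv_self]
  rw [h4, ← kap_zero hα hβ hκ] at h1
  rw [← (κ 0).injective h1, mul_inv_cancel_right]

theorem unt_self {f₀ : K → F} (hb : IsBlk f₀) : Unt f₀ (1 : MulAut K) f₀ f₀ := by
  refine ⟨hb.1.2, hb.1.2, hb.1.2, hb.1.2, fun n y => ?_⟩
  rw [inv_one]
  exact hb.1.1 y n

/-- the equality of the exponents in the product rule -/
theorem FixC.of_eq {γ δ : MulAut K} {e : Finset (Subgroup K)} (h : γ = δ) (hγ : FixC γ e) :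
    FixC δ e := h ▸ hγ

/-- **The tail.** -/
theorem tail (hThe : TheStmt) {ℓ : ℕ} (hF : GoodF ℓ F) {p : ℕ} {f₀ : K → F}
    {αs : Fin (p + 1) → MulAut K} {β₀ : MulAut K} {α β : MulAut (Fin (p + 1) → K)}
    {κ : Fin (p + 1) → MulAut K} {w wi : Fin (p + 1) → K → F}
    (D : PowD p f₀ αs β₀ α β κ w wi) (j : Fin (p + 1)) :
    ∃ V Vi : K → F, Unt f₀ (αs j * (αs 0)⁻¹) V Vi ∧
    ∀ e ∈ chainsOn (psubIn ℓ (⊤ : Subgroup K)) ⊥, NormalChain e → ∀ (n : Fin (p + 1) → K),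
    (∀ i, FixC (tw (αs i) (n i)) e) → ∀ (N : ℕ) (σ : stab e →* Matrix (Fin N) (Fin N) F),
    IsIrr σ → ev σ (fun t : stab e => f₀ t) = 1 →
    ∀ Ts : Fin (p + 1) → (Matrix (Fin N) (Fin N) F)ˣ,
    (∀ i, Impl σ (tw (αs i) (n i)) (Ts i)) → ∀ θ : Fin (p + 1) → F,
    (∀ i : Fin p, ((Ts i.succ * (Ts i.castSucc)⁻¹ : (Matrix (Fin N) (Fin N) F)ˣ) :
      Matrix (Fin N) (Fin N) F) * ev σ (fun t : stab e =>
        w i.succ (αs i.castSucc (n i.succ * (n i.castSucc)⁻¹) * t)) =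
      Matrix.scalar (Fin N) (θ i.succ)) →
    ((Ts j * (Ts 0)⁻¹ : (Matrix (Fin N) (Fin N) F)ˣ) : Matrix (Fin N) (Fin N) F) *
      ev σ (fun t : stab e => V (αs 0 (n j * (n 0)⁻¹) * t)) =
      Matrix.scalar (Fin N) (∏ i ∈ Finset.univ.filter (fun i : Fin (p + 1) => 0 < i ∧ i ≤ j), θ i) := by
  induction j using Fin.induction with
  | zero =>
    refine ⟨f₀, f₀, ?_, ?_⟩
    · rw [mul_inv_cancel]
      exact unt_self D.blk
    · intro e _ _ n _ N σ _ hσf Ts _ θ _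
      have h1 : Finset.univ.filter (fun i : Fin (p + 1) => 0 < i ∧ i ≤ 0) = ∅ := by
        apply Finset.filter_eq_empty_iff.2
        rintro i _ ⟨h1, h2⟩
        exact absurd h1 (not_lt.2 h2)
      rw [h1, Finset.prod_empty, mul_inv_cancel, mul_inv_cancel, map_one, map_one, Units.val_one,
        one_mul]
      simp only [one_mul]
      exact hσf
  | succ i ih =>
    obtain ⟨V, Vi, hV, hop⟩ := ih
    have hty : κ i.succ * (αs i.castSucc * (αs 0)⁻¹) = αs i.succ * (αs 0)⁻¹ := by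
      apply MulEquiv.ext
      intro y
      exact kap_succ D.al D.sh D.kap i _
    have hfi : ∀ j y, f₀ ((αs j)⁻¹ y) = f₀ y := fun j y => by
      rw [← D.fa j, MulAut.apply_inv_self]
    refine ⟨_, _, hty ▸ unt_prod D.blk.1.2 D.blk.1.1 (γ₂ := αs i.castSucc * (αs 0)⁻¹)
      (fun y => by rw [MulAut.mul_apply, D.fa, hfi]) (D.unt i.succ) hV, ?_⟩
    intro e he hn n hfix N σ hσ hσf Ts hTs θ hθ
    have h1 := hop e he hn n hfix N σ hσ hσf Ts hTs θ hθ
    have ht2 : tw (αs i.castSucc * (αs 0)⁻¹) (αs 0 (n i.castSucc * (n 0)⁻¹)) =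
        tw (αs i.castSucc) (n i.castSucc) * (tw (αs 0) (n 0))⁻¹ := by
      rw [tw_inv, tw_mul, inv_inv, ← map_mul]
    have ht1 : tw (κ i.succ) (αs i.castSucc (n i.succ * (n i.castSucc)⁻¹)) =
        tw (αs i.succ) (n i.succ) * (tw (αs i.castSucc) (n i.castSucc))⁻¹ := by
      rw [tw_inv, tw_mul, inv_inv, ← map_mul]
      congr 1
      apply MulEquiv.ext
      intro y
      rw [MulAut.mul_apply, ← kap_succ D.al D.sh D.kap i, MulAut.apply_inv_self]
    have h2 := rule hThe hF he hn hσ (γ₁ := κ i.succ)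
      (c₁ := αs i.castSucc (n i.succ * (n i.castSucc)⁻¹))
      (γ₂ := αs i.castSucc * (αs 0)⁻¹) (c₂ := αs 0 (n i.castSucc * (n 0)⁻¹))
      (ht1 ▸ H21.FixC.mul (hfix _) (H21.FixC.inv (hfix _)))
      (ht2 ▸ H21.FixC.mul (hfix _) (H21.FixC.inv (hfix _))) (D.unt i.succ).comm hV.comm
      (A₁ := Ts i.succ * (Ts i.castSucc)⁻¹) (A₂ := Ts i.castSucc * (Ts 0)⁻¹)
      (ht2 ▸ H18.impl_mul (H21.FixC.stab_iff (H21.FixC.inv (hfix _))) (hTs _)
        (H18.impl_inv (hTs _))) (hθ i) h1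
    have h3 : (αs i.castSucc * (αs 0)⁻¹)⁻¹ (αs i.castSucc (n i.succ * (n i.castSucc)⁻¹)) *
        αs 0 (n i.castSucc * (n 0)⁻¹) = αs 0 (n i.succ * (n 0)⁻¹) := by
      rw [mul_inv_rev, inv_inv, MulAut.mul_apply, MulAut.inv_apply_self, ← map_mul]
      congr 1
      group
    have h4 : (Ts i.succ * (Ts i.castSucc)⁻¹) * (Ts i.castSucc * (Ts 0)⁻¹) =
        Ts i.succ * (Ts 0)⁻¹ := by group
    have h5 : Finset.univ.filter (fun k : Fin (p + 1) => 0 < k ∧ k ≤ i.succ) =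
        insert i.succ (Finset.univ.filter (fun k : Fin (p + 1) => 0 < k ∧ k ≤ i.castSucc)) := by
      ext k
      rw [Finset.mem_insert, Finset.mem_filter, Finset.mem_filter]
      simp only [Finset.mem_univ, true_and, Fin.lt_def, Fin.le_def, Fin.ext_iff, Fin.val_succ,
        Fin.val_castSucc, Fin.val_zero]
      omega
    rw [h3, h4] at h2
    rw [h5, Finset.prod_insert, h2]
    rw [Finset.mem_filter]
    rintro ⟨_, _, h6⟩
    exact absurd h6 (not_le.2 (Fin.castSucc_lt_succ))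

end data

section fin

variable {F K : Type} [Field F] [Group K] [Finite K]

theorem ts_eq {ℓ : ℕ} (hF : GoodF ℓ F) {X : Subgroup K} {α β : MulAut K}
    (hα : ∀ h, α h ∈ X ↔ h ∈ X) (hβ : ∀ h, β h ∈ X ↔ h ∈ X) {φ : X → F} {v : K → F} {s : F}
    (h : IsTS X φ α β v s) : ts X φ α β v = s := by
  unfold ts
  have hex : ∃ s, IsTS X φ α β v s := ⟨s, h⟩
  rw [dif_pos hex]
  exact H21.isTS_unique hF hα hβ hex.choose_spec h

/-- the automorphism of the first slot -/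
theorem slot_zero {p : ℕ} {αs : Fin (p + 1) → MulAut K} {β₀ : MulAut K}
    {α β : MulAut (Fin (p + 1) → K)} {κ : Fin (p + 1) → MulAut K}
    (hα : ∀ k j, (α k) j = αs j (k j)) (hβ : IsShift p β β₀)
    (hκ : ∀ k j, (kap α β k) j = κ j (k j)) (n : Fin (p + 1) → K) (μ : K) :
    tw (κ 0) ((cc α β n (Pi.mulSingle (Fin.last p) μ)) 0) =
      tw (αs 0) (n 0) * tw β₀ μ * (tw (αs (Fin.last p)) (n (Fin.last p)))⁻¹ * (tw β₀ μ)⁻¹ := by
  have h0 : κ 0 = αs 0 * β₀ * (αs (Fin.last p))⁻¹ * β₀⁻¹ := by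
    apply MulEquiv.ext
    intro y
    have := kap_zero hα hβ hκ ((αs (Fin.last p))⁻¹ (β₀⁻¹ y))
    rw [MulAut.apply_inv_self, MulAut.apply_inv_self] at this
    exact this
  rw [cc_zero hα hβ hκ, tw_inv, tw_inv, tw_mul, tw_mul, tw_mul, ← h0, inv_inv, inv_inv,
    ← map_mul (αs (Fin.last p)), ← map_inv β₀]

/-- the automorphism of the other slots -/
theorem slot_succ {p : ℕ} {αs : Fin (p + 1) → MulAut K} {β₀ : MulAut K}
    {α β : MulAut (Fin (p + 1) → K)} {κ : Fin (p + 1) → MulAut K}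
    (hα : ∀ k j, (α k) j = αs j (k j)) (hβ : IsShift p β β₀)
    (hκ : ∀ k j, (kap α β k) j = κ j (k j)) (n : Fin (p + 1) → K) (μ : K) (i : Fin p) :
    tw (κ i.succ) ((cc α β n (Pi.mulSingle (Fin.last p) μ)) i.succ) =
      tw (αs i.succ) (n i.succ) * (tw (αs i.castSucc) (n i.castSucc))⁻¹ := by
  rw [cc_succ hα hβ hκ, tw_inv, tw_mul, inv_inv, ← map_mul]
  congr 1
  apply MulEquiv.ext
  intro y
  rw [MulAut.mul_apply, ← kap_succ hα hβ hκ i, MulAut.apply_inv_self]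

/-- the translation element of the merged unit -/
theorem elt_eq (a₀ ap β₀ : MulAut K) (n₀ np μ : K) :
    (β₀ * (ap * a₀⁻¹) * β₀⁻¹)⁻¹ (β₀ (ap (β₀⁻¹ n₀ * μ * np⁻¹)) * (β₀ μ)⁻¹) *
      β₀ ((ap * a₀⁻¹)⁻¹ μ * a₀ (np * n₀⁻¹) * μ⁻¹) = cc a₀ β₀ n₀ μ := by
  unfold cc kap
  simp only [mul_inv_rev, inv_inv, MulAut.mul_apply, map_mul, map_inv, MulAut.inv_apply_self,
    MulAut.apply_inv_self]
  group

theorem ops (hThe : TheStmt) (hBij : BijStmt) : OpsStmt := by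
  intro ℓ _ F _ hF K _ _ p f₀ αs β₀ α β κ w wi D
  obtain ⟨V, Vi, hV, hop⟩ := tail hThe (ℓ := ℓ) hF D (Fin.last p)
  have hU := unt_conj (β := β₀) D.fb hV
  have hfi : ∀ j y, f₀ ((αs j)⁻¹ y) = f₀ y := fun j y => by
    rw [← D.fa j, MulAut.apply_inv_self]
  have hfbi : ∀ y, f₀ (β₀⁻¹ y) = f₀ y := fun y => by
    rw [← D.fb, MulAut.apply_inv_self]
  have hty : κ 0 * (β₀ * (αs (Fin.last p) * (αs 0)⁻¹) * β₀⁻¹) = kap (αs 0) β₀ := by
    apply MulEquiv.ext
    intro y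
    exact kap_zero D.al D.sh D.kap _
  have hW := unt_prod D.blk.1.2 D.blk.1.1 (γ₂ := β₀ * (αs (Fin.last p) * (αs 0)⁻¹) * β₀⁻¹)
      (fun y => by
        rw [MulAut.mul_apply, MulAut.mul_apply, MulAut.mul_apply, D.fb, D.fa, hfi, hfbi])
      (D.unt 0) hU
  rw [hty] at hW
  refine ⟨_, _, ⟨D.blk, D.fa 0, D.fb, hW⟩, ?_⟩
  intro e he hn n μ hfix hβ ψ hψ hψn
  obtain ⟨⟨N, σ, hσ, rfl⟩, hact, _, hψβ⟩ := hψ
  have hTs' : ∀ j, ∃ X, Impl σ (tw (αs j) (n j)) X := fun j =>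
    H21.exists_impl_tr hF hσ _ (H21.FixC.stab_iff (hfix j)) (hψn j)
  choose Ts hTs using hTs'
  obtain ⟨T, hT⟩ := H21.exists_impl_tr hF hσ (tw β₀ μ) (H21.FixC.stab_iff hβ) hψβ
  have hσf := H21.ev_f_one hF hσ D.blk.1.1 hact
  have hβs := H21.FixC.stab_iff hβ
  have hβs' := H21.FixC.stab_iff (H21.FixC.inv hβ)
  have hfs : ∀ j, ∀ h, (tw (αs j) (n j))⁻¹ h ∈ stab e ↔ h ∈ stab e := fun j =>
    H21.FixC.stab_iff (H21.FixC.inv (hfix j))
  -- the slots
  have hsl : ∀ j, FixC (tw (κ j) ((cc α β n (Pi.mulSingle (Fin.last p) μ)) j)) e ∧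
      Impl σ (tw (κ j) ((cc α β n (Pi.mulSingle (Fin.last p) μ)) j)) (slots Ts T j) := by
    intro j
    refine Fin.cases ?_ (fun i => ?_) j
    · rw [slot_zero D.al D.sh D.kap]
      refine ⟨H21.FixC.mul (H21.FixC.mul (H21.FixC.mul (hfix 0) hβ) (H21.FixC.inv (hfix _)))
        (H21.FixC.inv hβ), ?_⟩
      unfold slots
      rw [Fin.cons_zero]
      exact H18.impl_mul hβs' (H18.impl_mul (hfs _) (H18.impl_mul hβs (hTs 0) hT)
        (H18.impl_inv (hTs _))) (H18.impl_inv hT)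
    · rw [slot_succ D.al D.sh D.kap]
      refine ⟨H21.FixC.mul (hfix _) (H21.FixC.inv (hfix _)), ?_⟩
      unfold slots
      rw [Fin.cons_succ]
      exact H18.impl_mul (hfs _) (hTs _) (H18.impl_inv (hTs _))
  have hθ' : ∀ j, ∃ s : F, ((slots Ts T j : (Matrix (Fin N) (Fin N) F)ˣ) :
      Matrix (Fin N) (Fin N) F) * ev σ (fun t : stab e =>
        (fun y => w j ((cc α β n (Pi.mulSingle (Fin.last p) μ)) j * y)) t) =
      Matrix.scalar (Fin N) s := fun j =>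
    H21.scal_exists hσ (H21.FixC.stab_iff (hsl j).1) (hsl j).2
      (v := fun y => w j ((cc α β n (Pi.mulSingle (Fin.last p) μ)) j * y))
      (comm_tr (D.unt j).comm ((cc α β n (Pi.mulSingle (Fin.last p) μ)) j))
  choose θ hθ using hθ'
  -- the power
  have hP := isTS_power p hσ (αs := fun j => tw (αs j) (n j)) (β₀ := tw β₀ μ) (α := tw α n)
    (β := tw β (Pi.mulSingle (Fin.last p) μ)) (fun k j => by
      show (α (n * k * n⁻¹)) j = _
      rw [D.al]
      rfl) (by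
      intro k
      refine ⟨?_, fun j => ?_⟩
      · show (β (Pi.mulSingle (Fin.last p) μ * k * (Pi.mulSingle (Fin.last p) μ)⁻¹)) 0 = _
        rw [(D.sh _).1]
        show β₀ ((Pi.mulSingle (Fin.last p) μ : Fin (p + 1) → K) (Fin.last p) * k (Fin.last p) *
          ((Pi.mulSingle (Fin.last p) μ : Fin (p + 1) → K) (Fin.last p))⁻¹) = _
        rw [ms_last]
        rfl
      · show (β (Pi.mulSingle (Fin.last p) μ * k * (Pi.mulSingle (Fin.last p) μ)⁻¹)) j.succ = _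
        rw [(D.sh _).2]
        show (Pi.mulSingle (Fin.last p) μ : Fin (p + 1) → K) j.castSucc * k j.castSucc *
          ((Pi.mulSingle (Fin.last p) μ : Fin (p + 1) → K) j.castSucc)⁻¹ = _
        rw [ms_cast, one_mul, inv_one, mul_one]) hTs hT
    (fun j y => w j ((cc α β n (Pi.mulSingle (Fin.last p) μ)) j * y)) θ hθ
  obtain ⟨hB1, _, _, hB4⟩ := hBij ℓ K p αs β₀ α β D.al D.sh
  obtain ⟨_, _, hst, hB5⟩ := hB4 e he
  have hfα := (hB5 n).2 hfix
  have hfβ := (hB1 μ e he hβ).2.2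
  have key : ∀ X' : Subgroup (Fin (p + 1) → K), X' = PW (p + 1) (stab e) →
      IsTS X' (pwF (tr σ) X') (tw α n) (tw β (Pi.mulSingle (Fin.last p) μ))
        (fun y => ∏ j, w j ((cc α β n (Pi.mulSingle (Fin.last p) μ) * y) j)) (∏ j, θ j) := by
    rintro _ rfl
    have h1 : pwF (tr σ) (PW (p + 1) (stab e)) =
        fun x : PW (p + 1) (stab e) => ∏ j, tr σ (cmp x j) := by
      funext x
      unfold pwF
      apply Finset.prod_congr rfl
      intro j _
      unfold ext0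
      rw [dif_pos (mem_PW.1 x.2 j)]
      rfl
    rw [h1]
    exact hP
  rw [ts_eq hF (H21.FixC.stab_iff hfα) (H21.FixC.stab_iff hfβ) (key _ hst)]
  symm
  apply ts_eq hF (H21.FixC.stab_iff (hfix 0)) (H21.FixC.stab_iff hβ)
  refine ⟨N, σ, Ts 0, T, hσ, rfl, hTs 0, hT, ?_⟩
  have h1 := hop e he hn n hfix N σ hσ hσf Ts hTs θ (fun i => by
    have := hθ i.succ
    rw [cc_succ D.al D.sh D.kap] at this
    unfold slots at this
    rw [Fin.cons_succ] at this
    exact this)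
  have h2 := rule_conj hβ hV.comm hT h1
  have ht2 : tw (αs (Fin.last p) * (αs 0)⁻¹) (αs 0 (n (Fin.last p) * (n 0)⁻¹)) =
      tw (αs (Fin.last p)) (n (Fin.last p)) * (tw (αs 0) (n 0))⁻¹ := by
    rw [tw_inv, tw_mul, inv_inv, ← map_mul]
  have ht3 : tw (β₀ * (αs (Fin.last p) * (αs 0)⁻¹) * β₀⁻¹)
      (β₀ ((αs (Fin.last p) * (αs 0)⁻¹)⁻¹ μ * αs 0 (n (Fin.last p) * (n 0)⁻¹) * μ⁻¹)) =
      tw β₀ μ * (tw (αs (Fin.last p)) (n (Fin.last p)) * (tw (αs 0) (n 0))⁻¹) *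
        (tw β₀ μ)⁻¹ := by
    rw [← ht2, tw_inv, tw_mul, tw_mul, inv_inv, ← map_mul]
  have h3 := rule hThe hF he hn hσ (γ₁ := κ 0)
      (c₁ := (cc α β n (Pi.mulSingle (Fin.last p) μ)) 0)
      (γ₂ := β₀ * (αs (Fin.last p) * (αs 0)⁻¹) * β₀⁻¹)
      (c₂ := β₀ ((αs (Fin.last p) * (αs 0)⁻¹)⁻¹ μ * αs 0 (n (Fin.last p) * (n 0)⁻¹) * μ⁻¹))
      (w₁ := w 0) (w₂ := fun y => V (β₀⁻¹ y)) (hsl 0).1 (by
        rw [ht3]
        exact H21.FixC.mul (H21.FixC.mul hβ (H21.FixC.mul (hfix _) (H21.FixC.inv (hfix _))))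
          (H21.FixC.inv hβ)) (D.unt 0).comm hU.comm (A₁ := slots Ts T 0)
      (A₂ := T * (Ts (Fin.last p) * (Ts 0)⁻¹) * T⁻¹) (by
        rw [ht3]
        exact H18.impl_mul hβs' (H18.impl_mul
          (H21.FixC.stab_iff (H21.FixC.mul (hfix _) (H21.FixC.inv (hfix _)))) hT
          (H18.impl_mul (hfs _) (hTs _) (H18.impl_inv (hTs _)))) (H18.impl_inv hT)) (hθ 0) h2
  have h4 : slots Ts T 0 * (T * (Ts (Fin.last p) * (Ts 0)⁻¹) * T⁻¹) =
      Ts 0 * T * (Ts 0)⁻¹ * T⁻¹ := by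
    unfold slots
    rw [Fin.cons_zero]
    group
  have h5 : Finset.univ.filter (fun k : Fin (p + 1) => 0 < k ∧ k ≤ Fin.last p) =
      Finset.univ.erase 0 := by
    ext k
    rw [Finset.mem_filter, Finset.mem_erase]
    simp only [Finset.mem_univ, true_and, and_true]
    exact ⟨fun h => (Fin.pos_iff_ne_zero.1 h.1), fun h => ⟨Fin.pos_iff_ne_zero.2 h, Fin.le_last k⟩⟩
  rw [cc_zero D.al D.sh D.kap, elt_eq, h4, h5, Finset.mul_prod_erase _ _ (Finset.mem_univ 0)] at h3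
  exact h3

end fin

end Pool.Agent.PP.H17
end
end -- Pool.Agent.Helper17_PP.Ops
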