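import Pool.Agent.Helper12_AWB.B048
import Pool.Agent.Helper12_AWB.B079

/-!
# Merged copies (generated) of the modules

* `Pool.Agent.Helper17_PP.Prv`
* `Pool.Agent.Helper18_PP.Cyv`
* `Pool.Agent.Helper18_PP.Cyd`
-/

set_option autoImplicit false

section -- Pool.Agent.Helper17_PP.Prv

/-!
# Squad PP, module PRV: central products of two stable factors
-/

open scoped BigOperators

noncomputable section

namespace Pool.Agent.PP.H17

open Pool.Agent.Helper51_AWC Pool.Agent.Helper79_WRA Pool.Agent.PP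

section fin

variable {F A B : Type} [Field F] [Group A] [Group B]

theorem mulF_eq [Fintype A] (a b : A → F) (x : A) : mulF a b x = ∑ t, a t * b (t⁻¹ * x) :=
  finsum_eq_sum_of_fintype _

theorem mulF_comm [Finite A] {a : A → F} (ha : IsCl a) (b : A → F) : mulF a b = mulF b a := by
  have := Fintype.ofFinite A
  funext x
  rw [mulF_eq, mulF_eq, ← Equiv.sum_comp ((Equiv.inv A).trans (Equiv.mulLeft x))
    (fun t => a t * b (t⁻¹ * x))]
  refine Finset.sum_congr rfl fun s _ => ?_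
  show a (x * s⁻¹) * b ((x * s⁻¹)⁻¹ * x) = b s * a (s⁻¹ * x)
  have h1 : (x * s⁻¹)⁻¹ * x = s := by group
  have h2 : a (s⁻¹ * x) = a (x * s⁻¹) := by
    have := ha (s⁻¹ * x) s
    have h3 : s * (s⁻¹ * x) * s⁻¹ = x * s⁻¹ := by group
    rw [h3] at this
    exact this.symm
  rw [h1, h2, mul_comm]

theorem blk_eq [Finite A] {a b : A → F} (ha : IsBlk a) (hb : IsBlk b) (h : mulF a b ≠ 0) :
    a = b := by
  have h1 : mulF a b = a := (ha.2.2 b hb.1).resolve_right h
  have h2 : mulF b a = b := by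
    refine (hb.2.2 a ha.1).resolve_right ?_
    rw [← mulF_comm ha.1.1]
    exact h
  rw [← h1, mulF_comm ha.1.1, h2]

theorem mulF_zero_right [Finite A] (a : A → F) : mulF a 0 = 0 := by
  have := Fintype.ofFinite A
  funext x
  rw [mulF_eq]
  simp

/-- pushforward -/
def psh [Fintype A] [DecidableEq B] (p : A →* B) (a : A → F) : B → F :=
  fun y => ∑ x, if p x = y then a x else 0

theorem psh_mul [Fintype A] [Fintype B] [DecidableEq B] (p : A →* B) (a b : A → F) :
    psh p (mulF a b) = mulF (psh p a) (psh p b) := by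
  funext y
  rw [mulF_eq]
  unfold psh
  have h1 : ∀ u : A, (if p u = y then mulF a b u else 0) =
      ∑ x, (if p u = y then a x * b (x⁻¹ * u) else 0) := by
    intro u
    rw [mulF_eq]
    split_ifs
    · rfl
    · rw [Finset.sum_const_zero]
  simp_rw [h1]
  rw [Finset.sum_comm]
  have h2 : ∀ x : A, ∑ u, (if p u = y then a x * b (x⁻¹ * u) else 0) =
      ∑ z, (if p x * p z = y then a x * b z else 0) := by
    intro x
    rw [← Equiv.sum_comp (Equiv.mulLeft x) (fun u => if p u = y then a x * b (x⁻¹ * u) else 0)]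
    refine Finset.sum_congr rfl fun z _ => ?_
    show (if p (x * z) = y then a x * b (x⁻¹ * (x * z)) else 0) = _
    rw [map_mul, inv_mul_cancel_left]
  simp_rw [h2]
  have h3 : ∀ t : B, (∑ x, if p x = t then a x else 0) *
      (∑ z, if p z = t⁻¹ * y then b z else 0) =
      ∑ x, ∑ z, (if p x = t then (if p x * p z = y then a x * b z else 0) else 0) := by
    intro t
    rw [Finset.sum_mul_sum]
    refine Finset.sum_congr rfl fun x _ => Finset.sum_congr rfl fun z _ => ?_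
    by_cases hx : p x = t
    · subst hx
      rw [if_pos rfl, if_pos rfl]
      by_cases hz : p x * p z = y
      · rw [if_pos hz, if_pos (by rw [← hz, inv_mul_cancel_left])]
      · rw [if_neg hz, if_neg (by
          intro h
          apply hz
          rw [h, mul_inv_cancel_left]), mul_zero]
    · rw [if_neg hx, if_neg hx, zero_mul]
  simp_rw [h3]
  symm
  rw [Finset.sum_comm]
  refine Finset.sum_congr rfl fun x _ => ?_
  rw [Finset.sum_comm]
  refine Finset.sum_congr rfl fun z _ => ?_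
  rw [Finset.sum_ite_eq]
  simp

theorem psh_fib [Fintype A] [DecidableEq B] (p : A →* B) (hp : Function.Surjective p)
    (c : F) (hc : c * (Nat.card p.ker : F) = 1) (f : B → F) :
    psh p (fun x => c * f (p x)) = f := by
  classical
  funext y
  unfold psh
  obtain ⟨x0, rfl⟩ := hp y
  have h1 : ∀ x : A, (if p x = p x0 then c * f (p x) else 0) =
      (if p x = p x0 then c * f (p x0) else 0) := by
    intro x
    split_ifs with h
    · rw [h]
    · rfl
  simp_rw [h1]
  rw [← Finset.sum_filter, Finset.sum_const]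
  have h2 : (Finset.univ.filter fun x => p x = p x0).card = Nat.card p.ker := by
    rw [Nat.card_eq_fintype_card, ← Fintype.card_subtype]
    refine Fintype.card_congr
      { toFun := fun x => ⟨x.1 * x0⁻¹, ?_⟩
        invFun := fun k => ⟨k.1 * x0, ?_⟩
        left_inv := ?_
        right_inv := ?_ }
    · rw [MonoidHom.mem_ker, map_mul, map_inv, x.2, mul_inv_cancel]
    · rw [map_mul, MonoidHom.mem_ker.1 k.2, one_mul]
    · intro x
      exact Subtype.ext (inv_mul_cancel_right _ _)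
    · intro k
      exact Subtype.ext (mul_inv_cancel_right _ _)
  rw [h2, nsmul_eq_mul, ← mul_assoc, mul_comm (Nat.card p.ker : F) c, hc, one_mul]

/-- products of functions on a direct product -/
theorem mulF_prod [Finite A] [Finite B] (a a' : A → F) (b b' : B → F) :
    mulF (fun y : A × B => a y.1 * b y.2) (fun y : A × B => a' y.1 * b' y.2) =
      fun y => mulF a a' y.1 * mulF b b' y.2 := by
  have := Fintype.ofFinite A
  have := Fintype.ofFinite B
  funext y
  rw [mulF_eq, mulF_eq, mulF_eq, Fintype.sum_prod_type, Finset.sum_mul_sum]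
  refine Finset.sum_congr rfl fun s _ => Finset.sum_congr rfl fun t _ => ?_
  show a s * b t * (a' (s⁻¹ * y.1) * b' (t⁻¹ * y.2)) = _
  ring

theorem mulF_equiv [Finite A] (e : A ≃* A) (a a' : A → F) :
    mulF (fun x => a (e x)) (fun x => a' (e x)) = fun x => mulF a a' (e x) := by
  funext x
  have := Fintype.ofFinite A
  rw [mulF_eq, mulF_eq, ← Equiv.sum_comp e.toEquiv (fun t => a t * a' (t⁻¹ * e x))]
  refine Finset.sum_congr rfl fun t _ => ?_
  have e1 : e.toEquiv t = e t := rfl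
  rw [e1, ← map_inv, ← map_mul]

theorem blk_equiv [Finite A] (e : A ≃* A) {a : A → F} (h : IsBlk a) : IsBlk (fun x => a (e x)) := by
  have hid : ∀ (e : A ≃* A) (a : A → F), IsIdem a → IsIdem (fun x => a (e x)) := by
    intro e a h
    refine ⟨?_, by rw [mulF_equiv, h.2]⟩
    intro x y
    change a (e (y * x * y⁻¹)) = a (e x)
    rw [map_mul, map_mul, map_inv, h.1]
  refine ⟨hid e a h.1, fun h0 => h.2.1 ?_, fun g hg => ?_⟩
  · funext y
    have := congrFun h0 (e.symm y)
    change a (e (e.symm y)) = 0 at this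
    rw [MulEquiv.apply_symm_apply] at this
    exact this
  · have h1 : g = fun x => (fun y => g (e.symm y)) (e x) := by
      funext x
      change g x = g (e.symm (e x))
      rw [MulEquiv.symm_apply_apply]
    rw [h1, mulF_equiv e a (fun y => g (e.symm y))]
    rcases h.2.2 _ (hid e.symm g hg) with h2 | h2
    · left; rw [h2]
    · right; rw [h2]; rfl

end fin

section sub

variable {F Y : Type} [Field F] [Group Y] [Finite Y]

theorem ext0_mem {K : Subgroup Y} (b : K → F) {x : Y} (hx : x ∈ K) : ext0 K b x = b ⟨x, hx⟩ := by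
  unfold ext0
  rw [dif_pos hx]

theorem ext0_not {K : Subgroup Y} (b : K → F) {x : Y} (hx : x ∉ K) : ext0 K b x = 0 := by
  unfold ext0
  rw [dif_neg hx]

/-- the restriction of an automorphism to a stable subgroup -/
def rst (K : Subgroup Y) (α : MulAut Y) (h : K.map α.toMonoidHom = K) : MulAut K :=
  (α.subgroupMap K).trans (MulEquiv.subgroupCongr h)

omit [Finite Y] in
theorem rst_spec (K : Subgroup Y) (α : MulAut Y) (h : K.map α.toMonoidHom = K) :
    ResA K α (rst K α h) := fun _ => rfl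

omit [Finite Y] in
theorem map_of_res {K : Subgroup Y} {α : MulAut Y} {α₁ : MulAut K} (h : ResA K α α₁) :
    K.map α.toMonoidHom = K := by
  ext y
  constructor
  · rintro ⟨x, hx, rfl⟩
    have := h ⟨x, hx⟩
    show α x ∈ K
    rw [← this]
    exact (α₁ ⟨x, hx⟩).2
  · intro hy
    refine ⟨(α₁⁻¹ ⟨y, hy⟩ : K), (α₁⁻¹ ⟨y, hy⟩ : K).2, ?_⟩
    show α (α₁⁻¹ ⟨y, hy⟩ : K) = y
    rw [← h, MulAut.apply_inv_self]

omit [Finite Y] in
theorem res_mul {K : Subgroup Y} {α β : MulAut Y} {α₁ β₁ : MulAut K} (h : ResA K α α₁)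
    (h' : ResA K β β₁) : ResA K (α * β) (α₁ * β₁) := by
  intro k
  rw [MulAut.mul_apply, MulAut.mul_apply, h, h']

omit [Finite Y] in
theorem res_inv {K : Subgroup Y} {α : MulAut Y} {α₁ : MulAut K} (h : ResA K α α₁) :
    ResA K α⁻¹ α₁⁻¹ := by
  intro k
  apply α.injective
  rw [MulAut.apply_inv_self, ← h, MulAut.apply_inv_self]

omit [Finite Y] in
theorem res_kap {K : Subgroup Y} {α β : MulAut Y} {α₁ β₁ : MulAut K} (h : ResA K α α₁)
    (h' : ResA K β β₁) : ResA K (kap α β) (kap α₁ β₁) :=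
  res_mul (res_mul (res_mul h h') (res_inv h)) (res_inv h')

omit [Finite Y] in
theorem mem_iff_of_res {K : Subgroup Y} {α : MulAut Y} {α₁ : MulAut K} (h : ResA K α α₁) (x : Y) :
    α x ∈ K ↔ x ∈ K := by
  constructor
  · intro hx
    have h1 := (α₁⁻¹ ⟨α x, hx⟩ : K).2
    rw [res_inv h] at h1
    rw [MulAut.inv_apply_self] at h1
    exact h1
  · intro hx
    have := h ⟨x, hx⟩
    rw [← this]
    exact (α₁ ⟨x, hx⟩).2

/-- the block of the subgroup is stable -/
theorem blkU_stable {K : Subgroup Y} {f : Y → F} {f₁ : K → F} {α : MulAut Y} {α₁ : MulAut K}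
    (h : ResA K α α₁) (hfa : ∀ y, f (α y) = f y) (hf : BlkU K f f₁) :
    BlkU K f (fun k => f₁ (α₁ k)) := by
  refine ⟨blk_equiv α₁ hf.1, ?_⟩
  have h1 : ext0 K (fun k => f₁ (α₁ k)) = fun x => ext0 K f₁ (α x) := by
    funext x
    by_cases hx : x ∈ K
    · have hx' : α x ∈ K := (mem_iff_of_res h x).2 hx
      rw [ext0_mem _ hx, ext0_mem _ hx']
      congr 1
      exact Subtype.ext (h ⟨x, hx⟩)
    · have hx' : α x ∉ K := fun hc => hx ((mem_iff_of_res h x).1 hc)
      rw [ext0_not _ hx, ext0_not _ hx']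
  have h2 : f = fun x => f (α x) := by
    funext x
    rw [hfa]
  rw [h1]
  conv_lhs => rw [h2]
  rw [mulF_equiv α (ext0 K f₁) f, hf.2]
  exact h2.symm

end sub

/-- PRV. -/
theorem prv (hlz : LzStmt) (hprd : PrdStmt) (hfbk : FbkStmt) (hfcu : FcuStmt) (hscl : SclStmt) :
    PrvStmt := by
  classical
  intro ℓ _ F _ hF Y _ _ K K' hKK hsup hcen f α β α₁ β₁ hα hβ hαK' hβK' f₁ hf₁ hvan
  intro τ hτ w wi hT
  have := Fintype.ofFinite Y
  have hsup' : K' ⊔ K = ⊤ := by rw [sup_comm]; exact hsup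
  have hKK' : ∀ x ∈ K', ∀ y ∈ K, x * y = y * x := fun x hx y hy => (hKK y hy x hx).symm
  set α₂ : MulAut K' := rst K' α hαK' with hα₂
  set β₂ : MulAut K' := rst K' β hβK' with hβ₂
  have hα2 : ResA K' α α₂ := rst_spec K' α hαK'
  have hβ2 : ResA K' β β₂ := rst_spec K' β hβK'
  -- the block of the second factor
  obtain ⟨⟨f₂, hf₂⟩, huniq₂, -⟩ := hfbk ℓ F hF Y K' K hKK' hsup' hcen f hT.blk
  obtain ⟨-, huniq₁, hff⟩ := hfbk ℓ F hF Y K K' hKK hsup hcen f hT.blk
  have hmul : mulF (ext0 K f₁) (ext0 K' f₂) = f := hff f₁ f₂ hf₁ hf₂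
  have fa1 : ∀ k, f₁ (α₁ k) = f₁ k := fun k =>
    congrFun (huniq₁ _ _ (blkU_stable hα hT.fa hf₁) hf₁) k
  have fb1 : ∀ k, f₁ (β₁ k) = f₁ k := fun k =>
    congrFun (huniq₁ _ _ (blkU_stable hβ hT.fb hf₁) hf₁) k
  have fa2 : ∀ k, f₂ (α₂ k) = f₂ k := fun k =>
    congrFun (huniq₂ _ _ (blkU_stable hα2 hT.fa hf₂) hf₂) k
  have fb2 : ∀ k, f₂ (β₂ k) = f₂ k := fun k =>
    congrFun (huniq₂ _ _ (blkU_stable hβ2 hT.fb hf₂) hf₂) k
  -- the units of the factors
  obtain ⟨w₁, wi₁, hU₁⟩ := hfcu ℓ F hF Y K K' hKK hsup hcen f hT.blk f₁ hf₁ (kap α β)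
    (kap α₁ β₁) (res_kap hα hβ) (map_of_res (res_kap hα2 hβ2)) w wi hT.unt
  obtain ⟨w₂, wi₂, hU₂⟩ := hfcu ℓ F hF Y K' K hKK' hsup' hcen f hT.blk f₂ hf₂ (kap α β)
    (kap α₂ β₂) (res_kap hα2 hβ2) (map_of_res (res_kap hα hβ)) w wi hT.unt
  have hT₁ : Torus f₁ α₁ β₁ w₁ wi₁ := ⟨hf₁.1, fa1, fb1, hU₁⟩
  have hT₂ : Torus f₂ α₂ β₂ w₂ wi₂ := ⟨hf₂.1, fa2, fb2, hU₂⟩
  obtain ⟨hblk, hDD⟩ := hprd ℓ F hF K K' f₁ f₂ α₁ β₁ α₂ β₂ w₁ wi₁ w₂ wi₂ hT₁ hT₂
  -- the covering
  let p : K × K' →* Y := MonoidHom.noncommCoprod K.subtype K'.subtype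
    (fun x y => hKK x x.2 y y.2)
  have hp : ∀ x : K × K', p x = (x.1 : Y) * x.2 := fun x => rfl
  have hpsurj : Function.Surjective p := by
    rw [← MonoidHom.range_eq_top, MonoidHom.noncommCoprod_range, Subgroup.range_subtype,
      Subgroup.range_subtype, hsup]
  have hcentral : ∀ x : K × K', p x = 1 → (x.1 : Y) ∈ Subgroup.center Y := by
    intro x hx
    have h1 : (x.1 : Y) = (x.2 : Y)⁻¹ := by
      rw [hp] at hx
      exact eq_inv_of_mul_eq_one_left hx
    have h2 : (x.1 : Y) ∈ K' := by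
      rw [h1]
      exact K'.inv_mem x.2.2
    have h3 : K ⊔ K' ≤ Subgroup.centralizer {(x.1 : Y)} := by
      rw [sup_le_iff]
      constructor
      · intro y hy
        rw [Subgroup.mem_centralizer_singleton_iff]
        exact hKK y hy _ h2
      · intro y hy
        rw [Subgroup.mem_centralizer_singleton_iff]
        exact hKK' y hy _ x.1.2
    rw [Subgroup.mem_center_iff]
    intro y
    have h4 : y ∈ Subgroup.centralizer {(x.1 : Y)} := h3 (by rw [hsup]; trivial)
    exact Subgroup.mem_centralizer_singleton_iff.1 h4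
  have hker : p.ker ≤ Subgroup.center (K × K') := by
    intro x hx
    have h1 := hcentral x hx
    have h2 : (x.2 : Y) = (x.1 : Y)⁻¹ := by
      have h3 : (x.1 : Y) * x.2 = 1 := hx
      exact eq_inv_of_mul_eq_one_right h3
    rw [Subgroup.mem_center_iff] at h1 ⊢
    intro y
    apply Prod.ext
    · apply Subtype.ext
      exact h1 y.1
    · apply Subtype.ext
      show (y.2 : Y) * x.2 = x.2 * y.2
      rw [h2]
      have h3 := h1 y.2
      have h4 : (y.2 : Y) = (x.1 : Y) * y.2 * (x.1 : Y)⁻¹ := by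
        rw [← h3, mul_inv_cancel_right]
      conv_rhs => rw [h4]
      group
  have hcard : ¬ ℓ ∣ Nat.card p.ker := by
    intro hdvd
    apply hcen
    let q : p.ker →* Subgroup.center Y :=
      { toFun := fun x => ⟨(x.1.1 : Y), hcentral x.1 x.2⟩
        map_one' := rfl
        map_mul' := fun _ _ => rfl }
    have hq : Function.Injective q := by
      intro x y hxy
      have h1 : ((x.1.1 : K) : Y) = ((y.1.1 : K) : Y) := congrArg (fun z : Subgroup.center Y => (z : Y)) hxy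
      have h2 : (x.1.1 : Y) * x.1.2 = 1 := x.2
      have h3 : (y.1.1 : Y) * y.1.2 = 1 := y.2
      apply Subtype.ext
      apply Prod.ext
      · exact Subtype.ext h1
      · apply Subtype.ext
        rw [eq_inv_of_mul_eq_one_right h2, eq_inv_of_mul_eq_one_right h3, h1]
    exact hdvd.trans (Subgroup.card_dvd_of_injective q hq)
  have hpα : ∀ y, p ((MulEquiv.prodCongr α₁ α₂) y) = α (p y) := by
    intro y
    rw [hp, hp, map_mul]
    show ((α₁ y.1 : K) : Y) * (α₂ y.2 : K') = _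
    rw [hα, hα2]
  have hpβ : ∀ y, p ((MulEquiv.prodCongr β₁ β₂) y) = β (p y) := by
    intro y
    rw [hp, hp, map_mul]
    show ((β₁ y.1 : K) : Y) * (β₂ y.2 : K') = _
    rw [hβ, hβ2]
  obtain ⟨hblk', hlz'⟩ := hlz ℓ F hF (K × K') Y p hpsurj hker hcard f α β
    (MulEquiv.prodCongr α₁ α₂) (MulEquiv.prodCongr β₁ β₂) hT.blk hpα hpβ
  -- the two blocks of the direct product agree
  have hc0 : (Nat.card p.ker : F) ≠ 0 := by
    have := hF.char
    intro h0
    exact hcard ((CharP.cast_eq_zero_iff F ℓ _).1 h0)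
  have := Fintype.ofFinite (K × K')
  have hpush1 : psh p (fun y => (Nat.card p.ker : F)⁻¹ * f (p y)) = f :=
    psh_fib p hpsurj _ (inv_mul_cancel₀ hc0) f
  have hpush2 : psh p (fun y : K × K' => f₁ y.1 * f₂ y.2) = f := by
    rw [← hmul]
    funext y
    have := Fintype.ofFinite K
    have := Fintype.ofFinite K'
    rw [mulF_eq]
    unfold psh
    have e1 : ∑ x : K × K', (if p x = y then f₁ x.1 * f₂ x.2 else 0) =
        ∑ k : K, ∑ k' : K', (if (k : Y) * k' = y then f₁ k * f₂ k' else 0) := by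
      rw [← Fintype.sum_prod_type']
      refine Finset.sum_congr ?_ fun x _ => rfl
      ext x
      simp
    rw [e1]
    have e2 : ∑ t : Y, ext0 K f₁ t * ext0 K' f₂ (t⁻¹ * y) =
        ∑ k : K, f₁ k * ext0 K' f₂ ((k : Y)⁻¹ * y) := by
      symm
      apply Fintype.sum_of_injective (fun k : K => (k : Y)) Subtype.val_injective
      · intro x hx
        have hx' : x ∉ K := fun h => hx ⟨⟨x, h⟩, rfl⟩
        rw [ext0_not _ hx', zero_mul]
      · intro k
        rw [ext0_mem _ k.2]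
    rw [e2]
    refine Finset.sum_congr rfl fun k _ => ?_
    by_cases hk : (k : Y)⁻¹ * y ∈ K'
    · rw [ext0_mem _ hk, Finset.sum_eq_single (⟨(k : Y)⁻¹ * y, hk⟩ : K')]
      · rw [if_pos (mul_inv_cancel_left _ _)]
      · intro k' _ hne
        rw [if_neg]
        intro hc
        apply hne
        apply Subtype.ext
        show (k' : Y) = (k : Y)⁻¹ * y
        rw [← hc, inv_mul_cancel_left]
      · intro h
        exact absurd (Finset.mem_univ _) h
    · rw [ext0_not _ hk, mul_zero]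
      apply Finset.sum_eq_zero
      intro k' _
      rw [if_neg]
      intro hc
      apply hk
      rw [← hc, inv_mul_cancel_left]
      exact k'.2
  have hne : mulF (fun y : K × K' => (Nat.card p.ker : F)⁻¹ * f (p y))
      (fun y : K × K' => f₁ y.1 * f₂ y.2) ≠ 0 := by
    intro h0
    have h1 := psh_mul p (fun y : K × K' => (Nat.card p.ker : F)⁻¹ * f (p y))
      (fun y : K × K' => f₁ y.1 * f₂ y.2)
    rw [h0, hpush1, hpush2, hT.blk.1.2] at h1
    apply hT.blk.2.1
    rw [← h1]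
    funext y
    unfold psh
    simp
  have hfeq := blk_eq hblk' hblk hne
  -- the product of the torus data
  have hkap : kap (MulEquiv.prodCongr α₁ α₂ : MulAut (K × K')) (MulEquiv.prodCongr β₁ β₂) =
      MulEquiv.prodCongr (kap α₁ β₁) (kap α₂ β₂) := rfl
  have hTp : Torus (fun y : K × K' => f₁ y.1 * f₂ y.2) (MulEquiv.prodCongr α₁ α₂)
      (MulEquiv.prodCongr β₁ β₂) (fun y => w₁ y.1 * w₂ y.2) (fun y => wi₁ y.1 * wi₂ y.2) := by
    refine ⟨hblk, ?_, ?_, ?_⟩
    · intro y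
      show f₁ (α₁ y.1) * f₂ (α₂ y.2) = _
      rw [fa1, fa2]
    · intro y
      show f₁ (β₁ y.1) * f₂ (β₂ y.2) = _
      rw [fb1, fb2]
    · rw [hkap]
      refine ⟨?_, ?_, ?_, ?_, ?_⟩
      · rw [mulF_prod, hU₁.fw, hU₂.fw]
      · rw [mulF_prod, hU₁.fwi, hU₂.fwi]
      · rw [mulF_prod, hU₁.unit, hU₂.unit]
      · rw [mulF_prod, hU₁.unit', hU₂.unit']
      · intro n y
        show w₁ ((kap α₁ β₁)⁻¹ n.1 * y.1 * n.1⁻¹) * w₂ ((kap α₂ β₂)⁻¹ n.2 * y.2 * n.2⁻¹) = _
        rw [hU₁.comm, hU₂.comm]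
  have hV : Van ℓ (fun y : K × K' => f₁ y.1 * f₂ y.2) (MulEquiv.prodCongr α₁ α₂)
      (MulEquiv.prodCongr β₁ β₂) := by
    intro τ' hτ' w' wi' hT'
    refine hscl ℓ F hF (K × K') _ _ _ _ _ w' wi' hTp hT' τ' hτ' ?_
    rw [hDD τ' hτ', hvan τ' hτ' w₁ wi₁ hT₁, zero_mul]
  rw [hfeq] at hlz'
  exact hlz' hV τ hτ w wi hT

end Pool.Agent.PP.H17
end
end -- Pool.Agent.Helper17_PP.Prv

section -- Pool.Agent.Helper18_PP.Cyv

/-!
# Squad PP, module CYV: central products of factors permuted cyclically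
-/

open scoped BigOperators

set_option linter.unusedSectionVars false

noncomputable section

namespace Pool.Agent.PP.H18

open Pool.Agent.Helper51_AWC Pool.Agent.Helper79_WRA Pool.Agent.PP

section pi

variable {F K : Type} [Field F] [Group K] [Finite K] {ι : Type} [Fintype ι] [DecidableEq ι]

/-- products of functions on a direct power -/
theorem mulF_pi (a b : ι → K → F) :
    mulF (fun k : ι → K => ∏ j, a j (k j)) (fun k : ι → K => ∏ j, b j (k j)) =
      fun k => ∏ j, mulF (a j) (b j) (k j) := by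
  have := Fintype.ofFinite K
  funext k
  rw [H17.mulF_eq]
  have h1 : ∀ j, mulF (a j) (b j) (k j) = ∑ t, a j t * b j (t⁻¹ * k j) := fun j =>
    H17.mulF_eq _ _ _
  simp_rw [h1]
  rw [Finset.prod_univ_sum, Fintype.piFinset_univ]
  refine Finset.sum_congr rfl fun t _ => ?_
  rw [← Finset.prod_mul_distrib]
  rfl

open Classical in
/-- the unit element of the group algebra -/
def dlt (x : K) : F := if x = 1 then 1 else 0

theorem mulF_dlt (a : K → F) : mulF a dlt = a := by
  have := Fintype.ofFinite K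
  funext x
  rw [H17.mulF_eq, Finset.sum_eq_single x]
  · unfold dlt
    rw [if_pos (inv_mul_cancel x), mul_one]
  · intro y _ hy
    unfold dlt
    rw [if_neg, mul_zero]
    intro h
    exact hy (inv_mul_eq_one.1 h)
  · intro h
    exact absurd (Finset.mem_univ _) h

theorem dlt_mulF (a : K → F) : mulF dlt a = a := by
  have := Fintype.ofFinite K
  funext x
  rw [H17.mulF_eq, Finset.sum_eq_single 1]
  · unfold dlt
    rw [if_pos rfl, one_mul, inv_one, one_mul]
  · intro y _ hy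
    unfold dlt
    rw [if_neg hy, zero_mul]
  · intro h
    exact absurd (Finset.mem_univ _) h

/-- the product of the units -/
theorem prod_dlt : (fun k : ι → K => ∏ j, (dlt (k j) : F)) = dlt := by
  classical
  funext k
  by_cases hk : k = 1
  · subst hk
    unfold dlt
    rw [if_pos rfl]
    exact Finset.prod_eq_one fun j _ => if_pos rfl
  · have : ∃ j, k j ≠ 1 := by
      by_contra h
      push Not at h
      exact hk (funext h)
    obtain ⟨j, hj⟩ := this
    have h1 : (dlt k : F) = 0 := if_neg hk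
    rw [h1]
    exact Finset.prod_eq_zero (Finset.mem_univ j) (if_neg hj)

/-- If all coordinate idempotents act trivially on `g`, then their product does. -/
theorem prod_act (f₁ : K → F) (g : (ι → K) → F)
    (h : ∀ j, mulF (fun k : ι → K => ∏ i, (if i = j then f₁ else dlt) (k i)) g = g) :
    mulF (fun k : ι → K => ∏ i, f₁ (k i)) g = g := by
  have key : ∀ J : Finset ι,
      mulF (fun k : ι → K => ∏ i, (if i ∈ J then f₁ else dlt) (k i)) g = g := by
    intro J
    induction J using Finset.induction_on with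
    | empty =>
      have : (fun k : ι → K => ∏ i, (if i ∈ (∅ : Finset ι) then f₁ else dlt) (k i)) = dlt := by
        rw [← prod_dlt]
        rfl
      rw [this, dlt_mulF]
    | insert j J hj ih =>
      have h1 : (fun k : ι → K => ∏ i, (if i ∈ insert j J then f₁ else dlt) (k i)) =
          mulF (fun k : ι → K => ∏ i, (if i ∈ J then f₁ else dlt) (k i))
            (fun k : ι → K => ∏ i, (if i = j then f₁ else dlt) (k i)) := by
        rw [mulF_pi]
        funext k
        refine Finset.prod_congr rfl fun i _ => ?_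
        by_cases hi : i = j
        · subst hi
          rw [if_pos (Finset.mem_insert_self _ _), if_neg hj, if_pos rfl, dlt_mulF]
        · rw [if_neg hi, mulF_dlt]
          by_cases hi' : i ∈ J
          · rw [if_pos (Finset.mem_insert_of_mem hi'), if_pos hi']
          · rw [if_neg hi', if_neg]
            intro h
            rcases Finset.mem_insert.1 h with h | h
            · exact hi h
            · exact hi' h
      rw [h1, H20.mulF_assoc, h j, ih]
  have := key Finset.univ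
  simpa using this

end pi

section aut

variable {Y : Type} [Group Y]

/-- the image of a subgroup -/
def mv (γ : MulAut Y) (K : Subgroup Y) : Subgroup Y := K.map γ.toMonoidHom

theorem mv_mul (γ δ : MulAut Y) (K : Subgroup Y) : mv (γ * δ) K = mv γ (mv δ K) := by
  unfold mv
  rw [Subgroup.map_map]
  rfl

theorem mv_one (K : Subgroup Y) : mv 1 K = K := Subgroup.map_id K

theorem mv_inv {γ : MulAut Y} {K L : Subgroup Y} (h : mv γ K = L) : mv γ⁻¹ L = K := by
  rw [← h, ← mv_mul, inv_mul_cancel, mv_one]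

variable {K : Subgroup Y} {α β : MulAut Y} {p : ℕ}

theorem mv_per (hβ : mv (β ^ (p + 1)) K = K) (n m : ℕ) :
    mv (β ^ (n + (p + 1) * m)) K = mv (β ^ n) K := by
  induction m with
  | zero => rw [mul_zero, add_zero]
  | succ m ih =>
    rw [mul_add, mul_one, ← add_assoc, pow_add β (n + (p + 1) * m), mv_mul, hβ, ih]

theorem mv_alpha (hβ : mv (β ^ (p + 1)) K = K)
    (hα : ∀ i, i ≤ p → mv α (mv (β ^ i) K) = mv (β ^ i) K) (n : ℕ) :
    mv α (mv (β ^ n) K) = mv (β ^ n) K := by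
  have h1 : mv (β ^ n) K = mv (β ^ (n % (p + 1))) K := by
    conv_lhs => rw [← Nat.mod_add_div n (p + 1)]
    exact mv_per hβ _ _
  rw [h1]
  exact hα _ (Nat.lt_succ_iff.1 (Nat.mod_lt _ (Nat.succ_pos p)))

theorem mv_kap (hβ : mv (β ^ (p + 1)) K = K)
    (hα : ∀ i, i ≤ p → mv α (mv (β ^ i) K) = mv (β ^ i) K) (n : ℕ) :
    mv (kap α β) (mv (β ^ n) K) = mv (β ^ n) K := by
  have hA := mv_alpha hβ hα
  have h1 : mv (β ^ n) K = mv β (mv (β ^ (n + p)) K) := by
    rw [← mv_mul, ← pow_succ', add_assoc]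
    have := mv_per hβ n 1
    rw [mul_one] at this
    exact this.symm
  rw [h1]
  unfold kap
  rw [mv_mul, mv_mul, mv_mul, mv_inv (L := mv β (mv (β ^ (n + p)) K)) rfl, mv_inv (hA _)]
  rw [← h1, hA]

theorem mv_gam (hβ : mv (β ^ (p + 1)) K = K)
    (hα : ∀ i, i ≤ p → mv α (mv (β ^ i) K) = mv (β ^ i) K) (j n : ℕ) :
    mv ((β ^ j)⁻¹ * kap α β * β ^ j) (mv (β ^ n) K) = mv (β ^ n) K := by
  rw [mv_mul, mv_mul, ← mv_mul (β ^ j) (β ^ n), ← pow_add, mv_kap hβ hα, pow_add, mv_mul]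
  exact mv_inv rfl

theorem mv_als (hβ : mv (β ^ (p + 1)) K = K)
    (hα : ∀ i, i ≤ p → mv α (mv (β ^ i) K) = mv (β ^ i) K) (j : ℕ) :
    mv ((β ^ j)⁻¹ * α * β ^ j) K = K := by
  rw [mv_mul, mv_mul, mv_alpha hβ hα]
  exact mv_inv rfl

end aut

section shift

variable {K : Type} [Group K]

/-- the cyclic shift -/
def shf (p : ℕ) (β₀ : MulAut K) : MulAut (Fin (p + 1) → K) where
  toFun k := Fin.cons (α := fun _ => K) (β₀ (k (Fin.last p))) (fun j => k j.castSucc)
  invFun k := Fin.snoc (α := fun _ => K) (fun j : Fin p => k j.succ) (β₀⁻¹ (k 0))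
  left_inv k := by
    funext i
    refine Fin.lastCases ?_ (fun j => ?_) i
    · simp
    · simp
  right_inv k := by
    funext i
    refine Fin.cases ?_ (fun j => ?_) i
    · simp
    · simp
  map_mul' k l := by
    funext i
    refine Fin.cases ?_ (fun j => ?_) i
    · simp
    · simp

theorem shf_zero (p : ℕ) (β₀ : MulAut K) (k : Fin (p + 1) → K) :
    shf p β₀ k 0 = β₀ (k (Fin.last p)) := rfl

theorem shf_succ (p : ℕ) (β₀ : MulAut K) (k : Fin (p + 1) → K) (j : Fin p) :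
    shf p β₀ k j.succ = k j.castSucc := rfl

theorem shf_isShift (p : ℕ) (β₀ : MulAut K) : IsShift p (shf p β₀) β₀ := fun _ => ⟨rfl, fun _ => rfl⟩

end shift

section cover

variable {Y : Type} [Group Y] {K : Subgroup Y} {β : MulAut Y} {p : ℕ}

/-- the embedding of the `j`-th factor -/
def emb (K : Subgroup Y) (β : MulAut Y) (j : ℕ) : K →* Y := (β ^ j).toMonoidHom.comp K.subtype

theorem emb_apply (j : ℕ) (x : K) : emb K β j x = (β ^ j) (x : Y) := rfl

theorem emb_inj (j : ℕ) {x y : K} (h : emb K β j x = emb K β j y) : x = y :=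
  Subtype.ext ((β ^ j).injective h)

theorem emb_comm (hc : ∀ i, 0 < i → i ≤ p → ∀ x ∈ K, ∀ y ∈ K, x * (β ^ i) y = (β ^ i) y * x) :
    Pairwise fun i j : Fin (p + 1) => ∀ x y, Commute (emb K β i x) (emb K β j y) := by
  have key : ∀ i j : ℕ, i < j → j ≤ p → ∀ x y : K, Commute (emb K β i x) (emb K β j y) := by
    intro i j hij hj x y
    have h1 := hc (j - i) (by omega) (by omega) x x.2 y y.2
    have h2 : (β ^ j) (y : Y) = (β ^ i) ((β ^ (j - i)) (y : Y)) := by
      rw [← MulAut.mul_apply, ← pow_add, Nat.add_sub_cancel' hij.le]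
    rw [Commute, SemiconjBy, emb_apply, emb_apply, h2, ← map_mul, ← map_mul, h1]
  intro i j hij x y
  rcases lt_trichotomy (i : ℕ) (j : ℕ) with h | h | h
  · exact key _ _ h (Nat.lt_succ_iff.1 j.2) x y
  · exact absurd (Fin.ext h) hij
  · exact (key _ _ h (Nat.lt_succ_iff.1 i.2) y x).symm

/-- the covering `K ^ (p + 1) → Y` -/
def cv (hc : ∀ i, 0 < i → i ≤ p → ∀ x ∈ K, ∀ y ∈ K, x * (β ^ i) y = (β ^ i) y * x) :
    (Fin (p + 1) → K) →* Y :=
  MonoidHom.noncommPiCoprod (fun j : Fin (p + 1) => emb K β j) (emb_comm hc)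

variable (hc : ∀ i, 0 < i → i ≤ p → ∀ x ∈ K, ∀ y ∈ K, x * (β ^ i) y = (β ^ i) y * x)

theorem cv_single (j : Fin (p + 1)) (x : K) : cv hc (Pi.mulSingle j x) = emb K β j x :=
  MonoidHom.noncommPiCoprod_mulSingle _ _ _

theorem sup_eq (hg : (⨆ i ∈ Finset.range (p + 1), K.map (β ^ i).toMonoidHom) = ⊤) {L : Subgroup Y}
    (hL : ∀ i, i ≤ p → mv (β ^ i) K ≤ L) : L = ⊤ := by
  rw [eq_top_iff, ← hg]
  refine iSup_le fun i => iSup_le fun hi => hL i ?_
  exact Nat.lt_succ_iff.1 (Finset.mem_range.1 hi)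

theorem cv_surj (hg : (⨆ i ∈ Finset.range (p + 1), K.map (β ^ i).toMonoidHom) = ⊤) :
    Function.Surjective (cv hc) := by
  rw [← MonoidHom.range_eq_top]
  apply sup_eq hg
  rintro i hi _ ⟨x, hx, rfl⟩
  exact ⟨Pi.mulSingle ⟨i, Nat.lt_succ_iff.2 hi⟩ ⟨x, hx⟩, cv_single hc _ _⟩

theorem cv_ker (hg : (⨆ i ∈ Finset.range (p + 1), K.map (β ^ i).toMonoidHom) = ⊤)
    {x : Fin (p + 1) → K} (hx : cv hc x = 1) (j : Fin (p + 1)) :
    emb K β j (x j) ∈ Subgroup.center Y := by
  have key : Subgroup.centralizer {emb K β j (x j)} = ⊤ := by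
    apply sup_eq hg
    rintro i hi _ ⟨y, hy, rfl⟩
    change emb K β i ⟨y, hy⟩ ∈ _
    rw [Subgroup.mem_centralizer_singleton_iff]
    by_cases hij : (⟨i, Nat.lt_succ_iff.2 hi⟩ : Fin (p + 1)) = j
    · subst hij
      -- the other factors
      set x' : Fin (p + 1) → K := Function.update x ⟨i, Nat.lt_succ_iff.2 hi⟩ 1 with hx'
      have h1 : x = Pi.mulSingle ⟨i, Nat.lt_succ_iff.2 hi⟩ (x ⟨i, Nat.lt_succ_iff.2 hi⟩) * x' := by
        funext k
        rw [Pi.mul_apply]
        by_cases hk : k = ⟨i, Nat.lt_succ_iff.2 hi⟩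
        · subst hk
          rw [Pi.mulSingle_eq_same, hx', Function.update_self, mul_one]
        · rw [Pi.mulSingle_eq_of_ne hk, hx', Function.update_of_ne hk, one_mul]
      have h2 : cv hc x' = (emb K β i (x ⟨i, Nat.lt_succ_iff.2 hi⟩))⁻¹ := by
        have h3 := hx
        rw [h1, map_mul, cv_single] at h3
        exact eq_inv_of_mul_eq_one_right h3
      have h4 : Pi.mulSingle ⟨i, Nat.lt_succ_iff.2 hi⟩ (⟨y, hy⟩ : K) * x' =
          x' * Pi.mulSingle ⟨i, Nat.lt_succ_iff.2 hi⟩ (⟨y, hy⟩ : K) := by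
        funext k
        rw [Pi.mul_apply, Pi.mul_apply]
        by_cases hk : k = ⟨i, Nat.lt_succ_iff.2 hi⟩
        · subst hk
          rw [hx', Function.update_self, mul_one, one_mul]
        · rw [Pi.mulSingle_eq_of_ne hk, one_mul, mul_one]
      have h5 := congrArg (cv hc) h4
      rw [map_mul, map_mul, cv_single, h2] at h5
      change emb K β i ⟨y, hy⟩ * (emb K β i (x ⟨i, Nat.lt_succ_iff.2 hi⟩))⁻¹ =
        (emb K β i (x ⟨i, Nat.lt_succ_iff.2 hi⟩))⁻¹ * emb K β i ⟨y, hy⟩ at h5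
      exact (Commute.inv_right_iff.1 h5).eq
    · exact (emb_comm hc hij ⟨y, hy⟩ (x j)).eq
  rw [Subgroup.mem_center_iff]
  intro g
  have : g ∈ Subgroup.centralizer {emb K β j (x j)} := by rw [key]; trivial
  exact Subgroup.mem_centralizer_singleton_iff.1 this

theorem cv_ker_le (hg : (⨆ i ∈ Finset.range (p + 1), K.map (β ^ i).toMonoidHom) = ⊤) :
    (cv hc).ker ≤ Subgroup.center (Fin (p + 1) → K) := by
  intro x hx
  rw [Subgroup.mem_center_iff]
  intro y
  funext j
  have h1 := Subgroup.mem_center_iff.1 (cv_ker hc hg hx j) (emb K β j (y j))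
  rw [← map_mul, ← map_mul] at h1
  exact emb_inj j h1

theorem cv_ker_card [Finite Y] {ℓ : ℕ} (hℓ : ℓ.Prime)
    (hg : (⨆ i ∈ Finset.range (p + 1), K.map (β ^ i).toMonoidHom) = ⊤)
    (hz : ¬ ℓ ∣ Nat.card (Subgroup.center Y)) : ¬ ℓ ∣ Nat.card (cv hc).ker := by
  intro hdvd
  apply hz
  let q : (cv hc).ker →* (Fin (p + 1) → Subgroup.center Y) :=
    { toFun := fun x j => ⟨emb K β j (x.1 j), cv_ker hc hg x.2 j⟩
      map_one' := by
        funext j
        exact Subtype.ext (map_one _)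
      map_mul' := fun x y => by
        funext j
        exact Subtype.ext (map_mul _ _ _) }
  have hq : Function.Injective q := by
    intro x y hxy
    apply Subtype.ext
    funext j
    exact emb_inj j (congrArg (fun z : Fin (p + 1) → Subgroup.center Y => ((z j : _) : Y)) hxy)
  have h1 := hdvd.trans (Subgroup.card_dvd_of_injective q hq)
  rw [Nat.card_fun, Nat.card_eq_fintype_card (α := Fin (p + 1)), Fintype.card_fin] at h1
  exact hℓ.dvd_of_dvd_pow h1

end cover

section units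

variable {F Y : Type} [Field F] [Group Y] [Finite Y]

theorem unt_conj {f : Y → F} {κ : MulAut Y} {w wi : Y → F} (h : Unt f κ w wi) (δ : MulAut Y)
    (hf : ∀ y, f (δ y) = f y) :
    Unt f (δ⁻¹ * κ * δ) (fun y => w (δ y)) (fun y => wi (δ y)) := by
  have hf' : (fun y => f (δ y)) = f := funext hf
  refine ⟨?_, ?_, ?_, ?_, ?_⟩
  · have := H17.mulF_equiv δ f w
    rw [hf', h.fw] at this
    exact this
  · have := H17.mulF_equiv δ f wi
    rw [hf', h.fwi] at this
    exact this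
  · have := H17.mulF_equiv δ w wi
    rw [h.unit, hf'] at this
    exact this
  · have := H17.mulF_equiv δ wi w
    rw [h.unit', hf'] at this
    exact this
  · intro n y
    rw [← h.comm (δ n) (δ y)]
    congr 1
    rw [map_mul, map_mul, map_inv, mul_inv_rev, mul_inv_rev, inv_inv, MulAut.mul_apply,
      MulAut.mul_apply, MulAut.apply_inv_self]

theorem pow_inv {f : Y → F} {β : MulAut Y} (hf : ∀ y, f (β y) = f y) (n : ℕ) (y : Y) :
    f ((β ^ n) y) = f y := by
  induction n with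
  | zero => rw [pow_zero, MulAut.one_apply]
  | succ n ih => rw [pow_succ', MulAut.mul_apply, hf, ih]

theorem cv_act {K : Subgroup Y} {β : MulAut Y} {p : ℕ}
    (hc : ∀ i, 0 < i → i ≤ p → ∀ x ∈ K, ∀ y ∈ K, x * (β ^ i) y = (β ^ i) y * x)
    {f₁ : K → F} {f : Y → F} (hf : mulF (ext0 K f₁) f = f) (hfb : ∀ y, f (β y) = f y) (c : F)
    (j : Fin (p + 1)) :
    mulF (fun k : Fin (p + 1) → K => ∏ i, (if i = j then f₁ else dlt) (k i))
      (fun k => c * f (cv hc k)) = fun k => c * f (cv hc k) := by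
  classical
  have := Fintype.ofFinite Y
  have := Fintype.ofFinite K
  funext k
  rw [H17.mulF_eq]
  set z : Y := (β ^ (j : ℕ))⁻¹ (cv hc k) with hz
  have hz' : (β ^ (j : ℕ)) z = cv hc k := by rw [hz, MulAut.apply_inv_self]
  have h1 : ∑ s : K, f₁ s * (c * f ((s : Y)⁻¹ * z)) =
      ∑ t : Fin (p + 1) → K, (∏ i, (if i = j then f₁ else dlt) (t i)) *
        (c * f (cv hc (t⁻¹ * k))) := by
    apply Fintype.sum_of_injective (fun s : K => (Pi.mulSingle j s : Fin (p + 1) → K))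
      (fun a b h => by
        have h' := congrFun h j
        change (Pi.mulSingle j a : Fin (p + 1) → K) j = (Pi.mulSingle j b : Fin (p + 1) → K) j at h'
        rwa [Pi.mulSingle_eq_same, Pi.mulSingle_eq_same] at h')
    · intro t ht
      have h2 : ∃ i, i ≠ j ∧ t i ≠ 1 := by
        by_contra h
        push Not at h
        apply ht
        refine ⟨t j, ?_⟩
        funext i
        by_cases hi : i = j
        · subst hi
          exact Pi.mulSingle_eq_same _ _
        · rw [h i hi]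
          exact Pi.mulSingle_eq_of_ne hi _
      obtain ⟨i, hi, hti⟩ := h2
      rw [Finset.prod_eq_zero (Finset.mem_univ i), zero_mul]
      rw [if_neg hi]
      exact if_neg hti
    · intro s
      have h2 : ∏ i, (if i = j then f₁ else dlt) ((Pi.mulSingle j s : Fin (p + 1) → K) i) =
          f₁ s := by
        rw [Finset.prod_eq_single j]
        · rw [if_pos rfl, Pi.mulSingle_eq_same]
        · intro i _ hi
          rw [if_neg hi, Pi.mulSingle_eq_of_ne hi]
          exact if_pos rfl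
        · intro h
          exact absurd (Finset.mem_univ _) h
      rw [h2, map_mul, map_inv, cv_single, ← hz', emb_apply, ← map_inv, ← map_mul, pow_inv hfb]
  rw [← h1]
  have h3 : ∑ s : K, f₁ s * f ((s : Y)⁻¹ * z) = f z := by
    have h4 := congrFun hf z
    rw [H17.mulF_eq] at h4
    rw [← h4]
    apply Fintype.sum_of_injective (fun s : K => (s : Y)) Subtype.val_injective
    · intro x hx
      have hx' : x ∉ K := fun h => hx ⟨⟨x, h⟩, rfl⟩
      rw [H17.ext0_not _ hx', zero_mul]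
    · intro s
      rw [H17.ext0_mem _ s.2]
  have h5 : f z = f (cv hc k) := by rw [← hz', pow_inv hfb]
  rw [← h5, ← h3, Finset.mul_sum]
  refine Finset.sum_congr rfl fun s _ => ?_
  ring

end units

/-- CYV. -/
theorem cyv (hlz : LzStmt) (hcyd : CydStmt) (hfbk : FbkStmt) (hfcu : FcuStmt) (hscl : SclStmt) :
    CyvStmt := by
  classical
  intro ℓ _ F _ hF Y _ _ K f α β p α₁ β₁ hc hg hz hα hres hresβ f₁ hf₁ hvan τ hτ w wi hT
  have := Fintype.ofFinite Y
  have hβ1 : mv (β ^ (p + 1)) K = K := H17.map_of_res hresβ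
  have hα' : ∀ i, i ≤ p → mv α (mv (β ^ i) K) = mv (β ^ i) K := hα
  -- the other factors
  set K' : Subgroup Y := ⨆ i : Fin p, mv (β ^ ((i : ℕ) + 1)) K with hK'
  have hKK : ∀ x ∈ K, ∀ y ∈ K', x * y = y * x := by
    intro x hx y hy
    have h1 : K' ≤ Subgroup.centralizer {x} := by
      refine iSup_le fun i => ?_
      rintro _ ⟨y, hy, rfl⟩
      rw [Subgroup.mem_centralizer_singleton_iff]
      exact (hc ((i : ℕ) + 1) (Nat.succ_pos _) i.2 x hx y hy).symm
    exact (Subgroup.mem_centralizer_singleton_iff.1 (h1 hy)).symm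
  have hsup : K ⊔ K' = ⊤ := by
    apply sup_eq hg
    intro i hi
    rcases Nat.eq_zero_or_pos i with h | h
    · subst h
      rw [pow_zero, mv_one]
      exact le_sup_left
    · refine le_trans ?_ le_sup_right
      have h2 : i - 1 + 1 = i := Nat.sub_add_cancel h
      have h3 := le_iSup (fun i : Fin p => mv (β ^ ((i : ℕ) + 1)) K) ⟨i - 1, by omega⟩
      change mv (β ^ (i - 1 + 1)) K ≤ _ at h3
      rw [h2] at h3
      exact h3
  obtain ⟨-, huniq, -⟩ := hfbk ℓ F hF Y K K' hKK hsup hz f hT.blk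
  have hst : ∀ (γ : MulAut Y) (γ₁ : MulAut K), ResA K γ γ₁ → (∀ y, f (γ y) = f y) →
      ∀ k, f₁ (γ₁ k) = f₁ k := fun γ γ₁ h hf k =>
    congrFun (huniq _ _ (H17.blkU_stable h hf hf₁) hf₁) k
  have hfi : ∀ (γ : MulAut Y), (∀ y, f (γ y) = f y) → ∀ y, f (γ⁻¹ y) = f y := by
    intro γ h y
    rw [← h (γ⁻¹ y), MulAut.apply_inv_self]
  have hfp : ∀ n : ℕ, ∀ y, f ((β ^ n) y) = f y := fun n y => pow_inv hT.fb n y
  -- the automorphisms of the factors
  let αs : Fin (p + 1) → MulAut K := fun j =>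
    H17.rst K ((β ^ (j : ℕ))⁻¹ * α * β ^ (j : ℕ)) (mv_als hβ1 hα' j)
  have hαs : ∀ j : Fin (p + 1), ResA K ((β ^ (j : ℕ))⁻¹ * α * β ^ (j : ℕ)) (αs j) := fun j =>
    H17.rst_spec K _ _
  have hαs' : ∀ (j : Fin (p + 1)) (x : K), (β ^ (j : ℕ)) ((αs j x : K) : Y) =
      α ((β ^ (j : ℕ)) x) := by
    intro j x
    rw [hαs j x, MulAut.mul_apply, MulAut.mul_apply, MulAut.apply_inv_self]
  have hgam : ∀ j : ℕ, mv ((β ^ j)⁻¹ * kap α β * β ^ j) K = K := by
    intro j
    have := mv_gam hβ1 hα' j 0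
    rw [pow_zero, mv_one] at this
    exact this
  let κ : Fin (p + 1) → MulAut K := fun j =>
    H17.rst K ((β ^ (j : ℕ))⁻¹ * kap α β * β ^ (j : ℕ)) (hgam j)
  have hκ : ∀ j : Fin (p + 1), ResA K ((β ^ (j : ℕ))⁻¹ * kap α β * β ^ (j : ℕ)) (κ j) := fun j =>
    H17.rst_spec K _ _
  have hκ' : ∀ (j : Fin (p + 1)) (x : K), (β ^ (j : ℕ)) ((κ j x : K) : Y) =
      kap α β ((β ^ (j : ℕ)) x) := by
    intro j x
    rw [hκ j x, MulAut.mul_apply, MulAut.mul_apply, MulAut.apply_inv_self]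
  have hα0 : αs 0 = α₁ := by
    ext x
    have h1 := hαs' 0 x
    have h2 := hres x
    rw [Fin.val_zero, pow_zero, MulAut.one_apply, MulAut.one_apply] at h1
    rw [h1, h2]
  let αt : MulAut (Fin (p + 1) → K) := MulEquiv.piCongrRight αs
  have hαt : ∀ k j, (αt k) j = αs j (k j) := fun _ _ => rfl
  let βt : MulAut (Fin (p + 1) → K) := shf p β₁
  have hβt : IsShift p βt β₁ := shf_isShift p β₁
  have hkapab : ∀ z : Y, kap α β (β (α z)) = α (β z) := by
    intro z
    unfold kap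
    rw [MulAut.mul_apply, MulAut.mul_apply, MulAut.mul_apply, MulAut.inv_apply_self,
      MulAut.inv_apply_self]
  have hkapt : ∀ k j, (kap αt βt k) j = κ j (k j) := by
    intro k j
    obtain ⟨m, rfl⟩ : ∃ m, βt (αt m) = k := ⟨αt⁻¹ (βt⁻¹ k), by
      rw [MulAut.apply_inv_self, MulAut.apply_inv_self]⟩
    have h1 : kap αt βt (βt (αt m)) = αt (βt m) := by
      unfold kap
      rw [MulAut.mul_apply, MulAut.mul_apply, MulAut.mul_apply, MulAut.inv_apply_self,
        MulAut.inv_apply_self]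
    rw [h1]
    refine Fin.cases ?_ (fun i => ?_) j
    · apply emb_inj (β := β) 0
      have e1 := hκ' 0 (βt (αt m) 0)
      have e2 := hαs' 0 (βt m 0)
      rw [Fin.val_zero] at e1 e2
      rw [emb_apply, emb_apply, hαt, e2, e1, pow_zero, MulAut.one_apply, MulAut.one_apply]
      change α ((β₁ (m (Fin.last p)) : K) : Y) = kap α β ((β₁ (αs (Fin.last p) (m (Fin.last p))) : K) : Y)
      have e3 := hαs' (Fin.last p) (m (Fin.last p))
      rw [Fin.val_last] at e3
      rw [hresβ, hresβ, pow_succ', MulAut.mul_apply, MulAut.mul_apply, e3, hkapab]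
    · apply emb_inj (β := β) ((i : ℕ) + 1)
      have e1 := hκ' i.succ (βt (αt m) i.succ)
      have e2 := hαs' i.succ (βt m i.succ)
      rw [Fin.val_succ] at e1 e2
      rw [emb_apply, emb_apply, hαt, e2, e1]
      change α ((β ^ ((i : ℕ) + 1)) ((m i.castSucc : K) : Y)) =
        kap α β ((β ^ ((i : ℕ) + 1)) ((αs i.castSucc (m i.castSucc) : K) : Y))
      have e3 := hαs' i.castSucc (m i.castSucc)
      rw [Fin.val_castSucc] at e3
      rw [pow_succ', MulAut.mul_apply, MulAut.mul_apply, e3, hkapab]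
  -- the units
  have hU : ∀ j : Fin (p + 1), ∃ w₁ wi₁ : K → F, Unt f₁ (κ j) w₁ wi₁ := by
    intro j
    refine hfcu ℓ F hF Y K K' hKK hsup hz f hT.blk f₁ hf₁ _ (κ j) (hκ j) ?_ _ _
      (unt_conj hT.unt (β ^ (j : ℕ)) (hfp j))
    rw [hK', Subgroup.map_iSup]
    exact iSup_congr fun i => mv_gam hβ1 hα' j _
  choose ws wis hws using hU
  obtain ⟨hblk, hDD⟩ := hcyd ℓ F hF K p f₁ αs β₁ αt βt hf₁.1
    (fun j y => hst _ _ (hαs j) (fun z => by
      rw [MulAut.mul_apply, MulAut.mul_apply, hfi _ (hfp j), hT.fa, hfp]) y)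
    (hst _ _ hresβ (hfp _)) hαt hβt κ hkapt ws wis hws
  -- the covering
  have hpα : ∀ y, cv hc (αt y) = α (cv hc y) := by
    have h1 : (cv hc).comp αt.toMonoidHom = α.toMonoidHom.comp (cv hc) := by
      apply MonoidHom.pi_ext
      intro j x
      change cv hc (αt (Pi.mulSingle j x)) = α (cv hc (Pi.mulSingle j x))
      have h2 : αt (Pi.mulSingle j x) = Pi.mulSingle j (αs j x) := by
        funext i
        rw [hαt]
        by_cases hi : i = j
        · subst hi
          rw [Pi.mulSingle_eq_same, Pi.mulSingle_eq_same]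
        · rw [Pi.mulSingle_eq_of_ne hi, Pi.mulSingle_eq_of_ne hi, map_one]
      rw [h2, cv_single, cv_single, emb_apply, emb_apply, hαs']
    exact fun y => congrArg (fun g : (Fin (p + 1) → K) →* Y => g y) h1
  have hpβ : ∀ y, cv hc (βt y) = β (cv hc y) := by
    have h1 : (cv hc).comp βt.toMonoidHom = β.toMonoidHom.comp (cv hc) := by
      apply MonoidHom.pi_ext
      intro j x
      change cv hc (βt (Pi.mulSingle j x)) = β (cv hc (Pi.mulSingle j x))
      refine Fin.lastCases ?_ (fun i => ?_) j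
      · have h2 : βt (Pi.mulSingle (Fin.last p) x) = Pi.mulSingle 0 (β₁ x) := by
          funext i
          refine Fin.cases ?_ (fun i => ?_) i
          · change β₁ ((Pi.mulSingle (Fin.last p) x : Fin (p + 1) → K) (Fin.last p)) = _
            rw [Pi.mulSingle_eq_same, Pi.mulSingle_eq_same]
          · change (Pi.mulSingle (Fin.last p) x : Fin (p + 1) → K) i.castSucc = _
            rw [Pi.mulSingle_eq_of_ne (Fin.castSucc_lt_last i).ne,
              Pi.mulSingle_eq_of_ne (Fin.succ_ne_zero i)]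
        rw [h2, cv_single, cv_single, emb_apply, emb_apply, Fin.val_zero, Fin.val_last, pow_zero,
          MulAut.one_apply, hresβ, pow_succ', MulAut.mul_apply]
      · have h2 : βt (Pi.mulSingle i.castSucc x) = Pi.mulSingle i.succ x := by
          funext k
          refine Fin.cases ?_ (fun k => ?_) k
          · change β₁ ((Pi.mulSingle i.castSucc x : Fin (p + 1) → K) (Fin.last p)) = _
            rw [Pi.mulSingle_eq_of_ne (Fin.castSucc_lt_last i).ne',
              Pi.mulSingle_eq_of_ne (Fin.succ_ne_zero i).symm, map_one]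
          · change (Pi.mulSingle i.castSucc x : Fin (p + 1) → K) k.castSucc = _
            by_cases hk : k = i
            · subst hk
              rw [Pi.mulSingle_eq_same, Pi.mulSingle_eq_same]
            · rw [Pi.mulSingle_eq_of_ne (fun h => hk (Fin.castSucc_injective _ h)),
                Pi.mulSingle_eq_of_ne (fun h => hk (Fin.succ_injective _ h))]
        rw [h2, cv_single, cv_single, emb_apply, emb_apply, Fin.val_succ, Fin.val_castSucc,
          pow_succ', MulAut.mul_apply]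
    exact fun y => congrArg (fun g : (Fin (p + 1) → K) →* Y => g y) h1
  have hprime : ℓ.Prime := Fact.out
  have hcard := cv_ker_card hc hprime hg hz
  obtain ⟨hblk', hlz'⟩ := hlz ℓ F hF (Fin (p + 1) → K) Y (cv hc) (cv_surj hc hg)
    (cv_ker_le hc hg) hcard f α β αt βt hT.blk hpα hpβ
  -- the blocks agree
  have hact := prod_act f₁ (fun k => (Nat.card (cv hc).ker : F)⁻¹ * f (cv hc k)) fun j =>
    cv_act hc hf₁.2 hT.fb _ j
  have hne : mulF (fun k : Fin (p + 1) → K => ∏ j, f₁ (k j))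
      (fun k => (Nat.card (cv hc).ker : F)⁻¹ * f (cv hc k)) ≠ 0 := by
    rw [hact]
    exact hblk'.2.1
  have hfeq := H17.blk_eq hblk hblk' hne
  have hTp : Torus (fun k : Fin (p + 1) → K => ∏ j, f₁ (k j)) αt βt
      (fun k => ∏ j, ws j (k j)) (fun k => ∏ j, wis j (k j)) := by
    refine ⟨hblk, ?_, ?_, ⟨?_, ?_, ?_, ?_, ?_⟩⟩
    · intro y
      refine (congrFun hfeq (αt y)).trans (Eq.trans ?_ (congrFun hfeq y).symm)
      change (Nat.card (cv hc).ker : F)⁻¹ * f (cv hc (αt y)) = _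
      rw [hpα, hT.fa]
    · intro y
      refine (congrFun hfeq (βt y)).trans (Eq.trans ?_ (congrFun hfeq y).symm)
      change (Nat.card (cv hc).ker : F)⁻¹ * f (cv hc (βt y)) = _
      rw [hpβ, hT.fb]
    · rw [mulF_pi (fun _ => f₁) ws]
      funext k
      exact Finset.prod_congr rfl fun j _ => by rw [(hws j).fw]
    · rw [mulF_pi (fun _ => f₁) wis]
      funext k
      exact Finset.prod_congr rfl fun j _ => by rw [(hws j).fwi]
    · rw [mulF_pi ws wis]
      funext k
      exact Finset.prod_congr rfl fun j _ => by rw [(hws j).unit]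
    · rw [mulF_pi wis ws]
      funext k
      exact Finset.prod_congr rfl fun j _ => by rw [(hws j).unit']
    · intro n y
      refine Finset.prod_congr rfl fun j _ => ?_
      have h1 : ((kap αt βt)⁻¹ n) j = (κ j)⁻¹ (n j) := by
        apply (κ j).injective
        rw [← hkapt, MulAut.apply_inv_self, MulAut.apply_inv_self]
      change ws j (((kap αt βt)⁻¹ n) j * y j * (n j)⁻¹) = ws j (y j)
      rw [h1, (hws j).comm]
  rw [← hfeq] at hlz'
  refine hlz' ?_ τ hτ w wi hT
  intro τ' hτ' w' wi' hT'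
  refine hscl ℓ F hF (Fin (p + 1) → K) _ _ _ _ _ w' wi' hTp hT' τ' hτ' ?_
  exact hDD (by rw [hα0]; exact hvan) τ' hτ'

end Pool.Agent.PP.H18
end
end -- Pool.Agent.Helper18_PP.Cyv

section -- Pool.Agent.Helper18_PP.Cyd

/-!
# Squad PP, module CYA: assembly of CYD
-/

open scoped BigOperators

set_option linter.unusedSectionVars false

noncomputable section

namespace Pool.Agent.PP.H18

open Pool.Agent.PP Pool.Agent.Helper51_AWC Pool.Agent.Helper79_WRA

section pure

open Classical in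
theorem fs {X : Type} (IB : Finset X) (T : Set X) (hT : ∀ ψ ∈ T, ψ ∈ IB) (θ : X → ℂ) :
    ∑ᶠ ψ ∈ T, θ ψ = ∑ ψ ∈ IB, if ψ ∈ T then θ ψ else 0 := by
  rw [← Finset.sum_filter, ← finsum_mem_coe_finset]
  have h : T = ((IB.filter fun ψ => ψ ∈ T : Finset X) : Set X) := by
    ext ψ
    simp only [Finset.coe_filter, Set.mem_ofPred_eq]
    exact ⟨fun h => ⟨hT ψ h, h⟩, fun h => h.2⟩
  rw [← h]

open Classical in
/-- summation over the coordinates `1, …, p` -/
theorem sum_cons {K : Type} [Fintype K] {p : ℕ} (u : K → ℂ) (g : Fin p → K → Prop) :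
    ∑ n : Fin (p + 1) → K, (if ∀ j : Fin p, g j (n j.succ) then u (n 0) else 0) =
      (∏ j : Fin p, (Nat.card {k // g j k} : ℂ)) * ∑ k, u k := by
  rw [← Equiv.sum_comp (Fin.consEquiv (fun _ : Fin (p + 1) => K)), Fintype.sum_prod_type]
  have h1 : ∀ j : Fin p, (Nat.card {k // g j k} : ℂ) = ∑ k : K, if g j k then (1 : ℂ) else 0 := by
    intro j
    rw [Finset.sum_boole, Nat.card_eq_fintype_card, Fintype.card_subtype]
  have h2 : (∏ j : Fin p, (Nat.card {k // g j k} : ℂ)) =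
      ∑ n : Fin p → K, if ∀ j, g j (n j) then (1 : ℂ) else 0 := by
    simp_rw [h1]
    rw [Finset.prod_univ_sum, Fintype.piFinset_univ]
    refine Finset.sum_congr rfl fun n _ => ?_
    by_cases h : ∀ j, g j (n j)
    · rw [if_pos h]
      exact Finset.prod_eq_one fun j _ => if_pos (h j)
    · rw [if_neg h]
      push Not at h
      obtain ⟨j, hj⟩ := h
      exact Finset.prod_eq_zero (Finset.mem_univ j) (if_neg hj)
  rw [h2, Finset.mul_sum]
  refine Finset.sum_congr rfl fun k _ => ?_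
  rw [Finset.sum_mul]
  refine Finset.sum_congr rfl fun n _ => ?_
  change (if ∀ j : Fin p, g j ((Fin.cons k n : Fin (p + 1) → K) j.succ) then
    u ((Fin.cons k n : Fin (p + 1) → K) 0) else 0) = _
  simp only [Fin.cons_succ, Fin.cons_zero]
  split_ifs
  · rw [one_mul]
  · rw [zero_mul]

theorem card_pwS {K : Type} [Group K] [Finite K] (p : ℕ) (E : Subgroup K) :
    Nat.card (pwS p E) = Nat.card E ^ (p + 1) := by
  have e : pwS p E ≃ (Fin (p + 1) → E) :=
    { toFun := fun x j => ⟨x.1 j, x.2 j (Set.mem_univ j)⟩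
      invFun := fun x => ⟨fun j => x j, fun j _ => (x j).2⟩
      left_inv := fun x => rfl
      right_inv := fun x => rfl }
  rw [Nat.card_congr e, Nat.card_fun, Nat.card_eq_fintype_card (α := Fin (p + 1)),
    Fintype.card_fin]

end pure

/-- the torus data of the power -/
theorem pow_torus {F K : Type} [Field F] [Group K] [Finite K] {p : ℕ} {f₀ : K → F}
    {αs : Fin (p + 1) → MulAut K} {β₀ : MulAut K} {α β : MulAut (Fin (p + 1) → K)}
    {κ : Fin (p + 1) → MulAut K} {w wi : Fin (p + 1) → K → F}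
    (h : PowD p f₀ αs β₀ α β κ w wi) (hblk : IsBlk (fun k : Fin (p + 1) → K => ∏ j, f₀ (k j))) :
    Torus (fun k : Fin (p + 1) → K => ∏ j, f₀ (k j)) α β (fun k => ∏ j, w j (k j))
      (fun k => ∏ j, wi j (k j)) := by
  refine ⟨hblk, ?_, ?_, ⟨?_, ?_, ?_, ?_, ?_⟩⟩
  · intro y
    refine Finset.prod_congr rfl fun j _ => ?_
    rw [h.al, h.fa]
  · intro y
    change ∏ j, f₀ ((β y) j) = ∏ j, f₀ (y j)
    rw [Fin.prod_univ_succ, Fin.prod_univ_castSucc, (h.sh y).1, h.fb, mul_comm]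
    congr 1
    exact Finset.prod_congr rfl fun j _ => by rw [(h.sh y).2]
  · rw [mulF_pi (fun _ => f₀) w]
    funext k
    exact Finset.prod_congr rfl fun j _ => by rw [(h.unt j).fw]
  · rw [mulF_pi (fun _ => f₀) wi]
    funext k
    exact Finset.prod_congr rfl fun j _ => by rw [(h.unt j).fwi]
  · rw [mulF_pi w wi]
    funext k
    exact Finset.prod_congr rfl fun j _ => by rw [(h.unt j).unit]
  · rw [mulF_pi wi w]
    funext k
    exact Finset.prod_congr rfl fun j _ => by rw [(h.unt j).unit']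
  · intro n y
    refine Finset.prod_congr rfl fun j _ => ?_
    have h1 : ((kap α β)⁻¹ n) j = (κ j)⁻¹ (n j) := by
      apply (κ j).injective
      rw [← h.kap, MulAut.apply_inv_self, MulAut.apply_inv_self]
    change w j (((kap α β)⁻¹ n) j * y j * (n j)⁻¹) = w j (y j)
    rw [h1, (h.unt j).comm]

open Classical in
/-- the inner sum for `m = (1, …, 1, μ)` -/
theorem gg_eq (hbij : BijStmt) (hccp : CcpStmt) {ℓ : ℕ} [Fact ℓ.Prime] {F : Type} [Field F]
    (hF : GoodF ℓ F) {K : Type} [Group K] [Finite K] {p : ℕ} {f₀ : K → F}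
    {αs : Fin (p + 1) → MulAut K} {β₀ : MulAut K} {α β : MulAut (Fin (p + 1) → K)}
    {κ : Fin (p + 1) → MulAut K} {w wi : Fin (p + 1) → K → F}
    (h : PowD p f₀ αs β₀ α β κ w wi) (τ : F → ℂ) {W₀ : K → F}
    (hts : ∀ e ∈ chainsOn (psubIn ℓ (⊤ : Subgroup K)) ⊥, NormalChain e →
      ∀ (n : Fin (p + 1) → K) (μ : K),
      (∀ j, FixC (tw (αs j) (n j)) e) → FixC (tw β₀ μ) e →
      ∀ ψ ∈ tset (stab e) f₀ (tw (αs 0) (n 0)) (tw β₀ μ),
      (∀ j, ∀ h h' : stab e, (h' : K) = tw (αs j) (n j) h → ψ h' = ψ h) →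
        ts (stab (pwC p e)) (pwF ψ (stab (pwC p e))) (tw α n)
          (tw β (Pi.mulSingle (Fin.last p) μ))
          (fun y => ∏ j, w j ((cc α β n (Pi.mulSingle (Fin.last p) μ) * y) j)) =
        ts (stab e) ψ (tw (αs 0) (n 0)) (tw β₀ μ) (fun y => W₀ (cc (αs 0) β₀ (n 0) μ * y)))
    (n : Fin (p + 1) → K) (μ : K) :
    GG τ ℓ boxS (fun k : Fin (p + 1) → K => ∏ j, f₀ (k j)) α β (fun k => ∏ j, w j (k j)) n
      (Pi.mulSingle (Fin.last p) μ) =
    ∑ e ∈ (chainsOn (psubIn ℓ (⊤ : Subgroup K)) ⊥).filter (fun e => NormalChain e ∧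
      (∀ j, FixC (tw (αs j) (n j)) e) ∧ FixC (tw β₀ μ) e), (-1 : ℂ) ^ (e.card + 1) *
      (((Nat.card (stab e) : ℂ) ^ (p + 1))⁻¹ *
      ∑ᶠ ψ ∈ {ψ | ψ ∈ tset (stab e) f₀ (tw (αs 0) (n 0)) (tw β₀ μ) ∧
        ∀ j, ∀ h h' : stab e, (h' : K) = tw (αs j) (n j) h → ψ h' = ψ h},
        τ (ts (stab e) ψ (tw (αs 0) (n 0)) (tw β₀ μ)
          (fun y => W₀ (cc (αs 0) β₀ (n 0) μ * y)))) := by
  obtain ⟨b1, b2, b3, b4⟩ := hbij ℓ K p αs β₀ α β h.al h.sh
  unfold GG
  symm
  refine Finset.sum_bij (fun e _ => pwC p e) ?_ ?_ ?_ ?_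
  · intro e he
    rw [Finset.mem_filter] at he ⊢
    obtain ⟨he1, he2, he3, he4⟩ := he
    obtain ⟨c1, c2, c3⟩ := b1 μ e he1 he4
    obtain ⟨d1, d2, d3, d4⟩ := b4 e he1
    exact ⟨c1, d2.2 he2, ⟨(d4 n).2 he3, c3⟩, c2⟩
  · intro e _ e' _ hee
    exact b3 e e' hee
  · intro d hd
    rw [Finset.mem_filter] at hd
    obtain ⟨hd1, hd2, ⟨hd3, hd4⟩, hd5⟩ := hd
    obtain ⟨e, he1, he2, rfl⟩ := b2 μ d hd1 hd5 hd4
    obtain ⟨d1, d2, d3, d4⟩ := b4 e he1
    refine ⟨e, ?_, rfl⟩
    rw [Finset.mem_filter]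
    exact ⟨he1, d2.1 hd2, (d4 n).1 hd3, he2⟩
  · intro e he
    rw [Finset.mem_filter] at he
    obtain ⟨he1, he2, he3, he4⟩ := he
    obtain ⟨d1, d2, d3, d4⟩ := b4 e he1
    rw [d1]
    refine congrArg (fun c => (-1 : ℂ) ^ (e.card + 1) * c) ?_
    unfold tcon
    have hcard : (Nat.card (stab (pwC p e)) : ℂ) = (Nat.card (stab e) : ℂ) ^ (p + 1) := by
      rw [d3, card_pwS]
      push_cast
      rfl
    rw [hcard]
    refine congrArg (fun c => ((Nat.card (stab e) : ℂ) ^ (p + 1))⁻¹ * c) ?_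
    refine finsum_mem_eq_of_bijOn (fun ψ : stab e → F => pwF ψ (stab (pwC p e)))
      (hccp ℓ F hF K p f₀ αs β₀ α β κ w wi h e he1 he2 n μ he3 he4) ?_
    rintro ψ ⟨hψ1, hψ2⟩
    exact congrArg τ (hts e he1 he2 n μ he3 he4 ψ hψ1 hψ2).symm

open Classical in
/-- the summation over `n₁, …, n_p` for fixed `e` and `μ` -/
theorem sum_n (hcnt : CntStmt) {ℓ : ℕ} [Fact ℓ.Prime] {F : Type} [Field F]
    (hF : GoodF ℓ F) {K : Type} [Group K] [Fintype K] {p : ℕ} {f₀ : K → F}
    {αs : Fin (p + 1) → MulAut K} {β₀ : MulAut K} {α β : MulAut (Fin (p + 1) → K)}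
    {κ : Fin (p + 1) → MulAut K} {w wi : Fin (p + 1) → K → F}
    (h : PowD p f₀ αs β₀ α β κ w wi) (μ : K) {e : Finset (Subgroup K)}
    (he : e ∈ chainsOn (psubIn ℓ (⊤ : Subgroup K)) ⊥) (hn : NormalChain e)
    (θ : K → (stab e → F) → ℂ) :
    ∑ n : Fin (p + 1) → K, (if ∀ j, FixC (tw (αs j) (n j)) e then
      (((Nat.card (stab e) : ℂ) ^ (p + 1))⁻¹ *
      ∑ᶠ ψ ∈ {ψ | ψ ∈ tset (stab e) f₀ (tw (αs 0) (n 0)) (tw β₀ μ) ∧
        ∀ j, ∀ h h' : stab e, (h' : K) = tw (αs j) (n j) h → ψ h' = ψ h}, θ (n 0) ψ) else 0) =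
    ∑ n₀ : K, (if FixC (tw (αs 0) n₀) e then ((Nat.card (stab e) : ℂ)⁻¹ *
      ∑ᶠ ψ ∈ tset (stab e) f₀ (tw (αs 0) n₀) (tw β₀ μ), θ n₀ ψ) else 0) := by
  have hib := (H20.ibf ℓ F hF (stab e)).1
  set IB := hib.toFinset with hIB
  have hmem : ∀ ψ, ψ ∈ IB ↔ ψ ∈ IBr F (stab e) := fun ψ => hib.mem_toFinset
  set c : ℂ := (Nat.card (stab e) : ℂ) with hc
  have hc0 : c ≠ 0 := by
    rw [hc]
    exact_mod_cast Nat.card_pos.ne'
  have hL : ∀ n : Fin (p + 1) → K, (if ∀ j, FixC (tw (αs j) (n j)) e then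
      ((c ^ (p + 1))⁻¹ * ∑ᶠ ψ ∈ {ψ | ψ ∈ tset (stab e) f₀ (tw (αs 0) (n 0)) (tw β₀ μ) ∧
        ∀ j, ∀ h h' : stab e, (h' : K) = tw (αs j) (n j) h → ψ h' = ψ h}, θ (n 0) ψ) else 0) =
      ∑ ψ ∈ IB, (c ^ (p + 1))⁻¹ * (if ∀ j : Fin p, FixC (tw (αs j.succ) (n j.succ)) e ∧
        ∀ h h' : stab e, (h' : K) = tw (αs j.succ) (n j.succ) h → ψ h' = ψ h then
        (if FixC (tw (αs 0) (n 0)) e ∧ ψ ∈ tset (stab e) f₀ (tw (αs 0) (n 0)) (tw β₀ μ) then
          θ (n 0) ψ else 0) else 0) := by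
    intro n
    rw [fs IB _ (fun ψ hψ => (hmem ψ).2 hψ.1.1) (θ (n 0)), Finset.mul_sum]
    by_cases hA : ∀ j, FixC (tw (αs j) (n j)) e
    · rw [if_pos hA]
      refine Finset.sum_congr rfl fun ψ _ => ?_
      congr 1
      by_cases hT : ψ ∈ tset (stab e) f₀ (tw (αs 0) (n 0)) (tw β₀ μ)
      · by_cases hS : ∀ j, ∀ h h' : stab e, (h' : K) = tw (αs j) (n j) h → ψ h' = ψ h
        · rw [if_pos ⟨hT, hS⟩, if_pos fun j => ⟨hA j.succ, hS j.succ⟩, if_pos ⟨hA 0, hT⟩]
        · rw [if_neg fun hc => hS hc.2, if_neg]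
          intro hc
          apply hS
          intro j
          refine Fin.cases ?_ (fun i => (hc i).2) j
          exact hT.2.2.1
      · rw [if_neg fun hc => hT hc.1, if_neg (c := _ ∧ _) fun hc => hT hc.2]
        split_ifs <;> rfl
    · rw [if_neg hA]
      symm
      apply Finset.sum_eq_zero
      intro ψ _
      by_cases h0 : FixC (tw (αs 0) (n 0)) e
      · rw [if_neg, mul_zero]
        intro hc
        apply hA
        intro j
        exact Fin.cases h0 (fun i => (hc i).1) j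
      · rw [if_neg (c := _ ∧ _) fun hc => h0 hc.1]
        split_ifs <;> rw [mul_zero]
  have hR : ∀ n₀ : K, (if FixC (tw (αs 0) n₀) e then (c⁻¹ *
      ∑ᶠ ψ ∈ tset (stab e) f₀ (tw (αs 0) n₀) (tw β₀ μ), θ n₀ ψ) else 0) =
      ∑ ψ ∈ IB, c⁻¹ * (if FixC (tw (αs 0) n₀) e ∧
        ψ ∈ tset (stab e) f₀ (tw (αs 0) n₀) (tw β₀ μ) then θ n₀ ψ else 0) := by
    intro n₀
    rw [fs IB _ (fun ψ hψ => (hmem ψ).2 hψ.1) (θ n₀), Finset.mul_sum]
    by_cases hA : FixC (tw (αs 0) n₀) e
    · rw [if_pos hA]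
      refine Finset.sum_congr rfl fun ψ _ => ?_
      congr 1
      by_cases hT : ψ ∈ tset (stab e) f₀ (tw (αs 0) n₀) (tw β₀ μ)
      · rw [if_pos hT, if_pos ⟨hA, hT⟩]
      · rw [if_neg hT, if_neg fun hc => hT hc.2]
    · rw [if_neg hA]
      symm
      apply Finset.sum_eq_zero
      intro ψ _
      rw [if_neg fun hc => hA hc.1, mul_zero]
  rw [Finset.sum_congr rfl fun n _ => hL n, Finset.sum_congr rfl fun n₀ _ => hR n₀,
    Finset.sum_comm, Finset.sum_comm (s := (Finset.univ : Finset K))]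
  refine Finset.sum_congr rfl fun ψ hψ => ?_
  have key := sum_cons (fun k => if FixC (tw (αs 0) k) e ∧
    ψ ∈ tset (stab e) f₀ (tw (αs 0) k) (tw β₀ μ) then θ k ψ else 0)
    (fun j k => FixC (tw (αs (Fin.succ j)) k) e ∧
      ∀ h h' : stab e, (h' : K) = tw (αs (Fin.succ j)) k h → ψ h' = ψ h)
  rw [← Finset.mul_sum, ← Finset.mul_sum]
  refine Eq.trans (congrArg (fun c' => (c ^ (p + 1))⁻¹ * c') (Eq.trans
    (Finset.sum_congr rfl fun n _ => ?h1) key)) ?h2
  case h1 => split_ifs <;> rfl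
  by_cases hex : ∃ k, FixC (tw (αs 0) k) e ∧ ψ ∈ tset (stab e) f₀ (tw (αs 0) k) (tw β₀ μ)
  · obtain ⟨k, hk1, hk2⟩ := hex
    have h1 : ∀ j : Fin p, (Nat.card {k // FixC (tw (αs j.succ) k) e ∧
        ∀ h h' : stab e, (h' : K) = tw (αs j.succ) k h → ψ h' = ψ h} : ℂ) = c := by
      intro j
      rw [hcnt ℓ F hF K p f₀ αs β₀ α β κ w wi h e he hn k hk1 ψ hk2.1 hk2.2.1 hk2.2.2.1 j.succ]
    rw [Finset.prod_congr rfl fun j _ => h1 j, Finset.prod_const, Finset.card_univ,
      Fintype.card_fin, ← mul_assoc]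
    congr 1
    rw [pow_succ]
    field_simp
  · have h0 : ∑ k : K, (if FixC (tw (αs 0) k) e ∧
        ψ ∈ tset (stab e) f₀ (tw (αs 0) k) (tw β₀ μ) then θ k ψ else 0) = 0 := by
      apply Finset.sum_eq_zero
      intro k _
      rw [if_neg fun hc => hex ⟨k, hc⟩]
    rw [h0, mul_zero, mul_zero, mul_zero]

open Classical in
/-- CYD. -/
theorem cyd (hbox : BoxStmt) (hbxh : BxhStmt) (hbij : BijStmt) (hcon : ConStmt) (hshs : ShsStmt)
    (hccp : CcpStmt) (hops : OpsStmt) (hcnt : CntStmt) (hpbk : PbkStmt) : CydStmt := by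
  intro ℓ _ F _ hF K _ _ p f₀ αs β₀ α β hblk hfa hfb hal hsh κ hkap w wi hunt
  have hP : PowD p f₀ αs β₀ α β κ w wi := ⟨hblk, hfa, hfb, hal, hsh, hkap, hunt⟩
  refine ⟨hpbk ℓ F hF K p f₀ hblk, fun hvan τ hτ => ?_⟩
  obtain ⟨W₀, Wi₀, hT₀, hts⟩ := hops ℓ F hF K p f₀ αs β₀ α β κ w wi hP
  have hT := pow_torus hP (hpbk ℓ F hF K p f₀ hblk)
  have := Fintype.ofFinite K
  obtain ⟨x1, x2, x3, x4, x5, x6, x7, x8, x9⟩ := hbxh ℓ K p αs β₀ α β hal hsh
  have h1 : DD τ ℓ (fun k : Fin (p + 1) → K => ∏ j, f₀ (k j)) α β (fun k => ∏ j, w j (k j)) =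
      ∑ᶠ (n : Fin (p + 1) → K) (m : Fin (p + 1) → K), GG τ ℓ boxS
        (fun k : Fin (p + 1) → K => ∏ j, f₀ (k j)) α β (fun k => ∏ j, w j (k j)) n m :=
    hbox ℓ F hF _ _ α β _ τ boxS x1 x2 x3 x4 x5 x6 x7 x8 x9
  rw [h1, hshs K p β₀ α β hsh _ fun h n m => hcon ℓ F hF _ boxS x6 _ α β _ _ hT τ h n m]
  have h2 : ∑ᶠ (n : Fin (p + 1) → K) (μ : K), GG τ ℓ boxS
      (fun k : Fin (p + 1) → K => ∏ j, f₀ (k j)) α β (fun k => ∏ j, w j (k j)) n
        (Pi.mulSingle (Fin.last p) μ) = DD τ ℓ f₀ (αs 0) β₀ W₀ := by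
    rw [finsum_eq_sum_of_fintype]
    simp_rw [finsum_eq_sum_of_fintype, gg_eq hbij hccp hF hP τ hts]
    unfold DD tcon
    rw [finsum_eq_sum_of_fintype]
    simp_rw [finsum_eq_sum_of_fintype]
    conv_lhs => rw [Finset.sum_comm]
    conv_rhs => rw [Finset.sum_comm]
    refine Finset.sum_congr rfl fun μ _ => ?_
    simp_rw [Finset.sum_filter]
    conv_lhs => rw [Finset.sum_comm]
    conv_rhs => rw [Finset.sum_comm]
    refine Finset.sum_congr rfl fun e he => ?_
    by_cases hn : NormalChain e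
    · by_cases hb : FixC (tw β₀ μ) e
      · have h3 := sum_n hcnt hF hP μ he hn (fun n₀ ψ => τ (ts (stab e) ψ (tw (αs 0) n₀)
          (tw β₀ μ) (fun y => W₀ (cc (αs 0) β₀ n₀ μ * y))))
        have h4 := congrArg (fun c => (-1 : ℂ) ^ (e.card + 1) * c) h3
        simp only [Finset.mul_sum, mul_ite, mul_zero] at h4
        simp only [hn, hb, true_and, and_true]
        exact h4
      · simp only [hb, and_false, if_false, Finset.sum_const_zero]
    · simp only [hn, false_and, if_false, Finset.sum_const_zero]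
  rw [h2, hvan τ hτ W₀ Wi₀ hT₀, mul_zero]

end Pool.Agent.PP.H18
end
end -- Pool.Agent.Helper18_PP.Cyd
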