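import Pool.Agent.Helper12_AWB.B047
import Pool.Agent.Helper66_PP.Pos1
import Pool.Agent.Helper66_PP.StmtsJ

/-!
# Merged copies (generated) of the modules

* `Pool.Agent.Helper74_PP.JBase`
* `Pool.Agent.Helper74_PP.Loc`
-/

set_option autoImplicit false

section -- Pool.Agent.Helper74_PP.JBase

/-!
Part J: calculus of the elements of `C`, the commutative algebra `Z(F Y)` inside `F X`, and its
local structure at a primitive idempotent.
-/

open scoped BigOperators

set_option linter.unusedSectionVars false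

noncomputable section

namespace Pool.Agent.PP.J74

open Pool.Agent.PP

/-! ### commutative algebra -/

section comm

theorem fitting {R : Type} [CommRing R] [IsArtinianRing R] (w : R) :
    ∃ n y, 0 < n ∧ w ^ n = w ^ n * (w ^ n * y ^ n) := by
  obtain ⟨n, y, hy⟩ := IsArtinian.exists_pow_succ_smul_dvd w (1 : R)
  simp only [smul_eq_mul, mul_one, Nat.succ_eq_add_one] at hy
  have h1 : w ^ (n + 1 + 1) * y = w ^ (n + 1) := by
    rw [pow_succ' w (n + 1), mul_assoc, hy, ← pow_succ']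
  have h2 : ∀ k, w ^ (n + 1 + k) * y ^ k = w ^ (n + 1) := by
    intro k
    induction k with
    | zero => simp
    | succ k ih =>
      calc w ^ (n + 1 + (k + 1)) * y ^ (k + 1) = w ^ k * (w ^ (n + 1 + 1) * y) * y ^ k := by ring
        _ = w ^ k * w ^ (n + 1) * y ^ k := by rw [h1]
        _ = w ^ (n + 1 + k) * y ^ k := by ring
        _ = w ^ (n + 1) := ih
  refine ⟨n + 1, y, Nat.succ_pos n, ?_⟩
  have := h2 (n + 1)
  conv_lhs => rw [← this]
  ring

theorem nil_or_unit {R : Type} [CommRing R] [IsArtinianRing R] {φ : R} (hφ : φ * φ = φ)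
    (hprim : ∀ g : R, g * g = g → φ * g = φ ∨ φ * g = 0) (w : R) (hw : φ * w = w) :
    (∃ n, w ^ n = 0) ∨ ∃ y, φ * y = y ∧ w * y = φ := by
  obtain ⟨n, y, hn, h⟩ := fitting w
  have hφn : φ * w ^ n = w ^ n := by
    obtain ⟨k, rfl⟩ := Nat.exists_eq_succ_of_ne_zero hn.ne'
    rw [Nat.succ_eq_add_one, pow_succ', ← mul_assoc, hw]
  have he : (w ^ n * y ^ n) * (w ^ n * y ^ n) = w ^ n * y ^ n := by
    calc (w ^ n * y ^ n) * (w ^ n * y ^ n) = (w ^ n * (w ^ n * y ^ n)) * y ^ n := by ring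
      _ = w ^ n * y ^ n := by rw [← h]
  have hφe : φ * (w ^ n * y ^ n) = w ^ n * y ^ n := by rw [← mul_assoc, hφn]
  rcases hprim _ he with h1 | h1
  · right
    obtain ⟨k, rfl⟩ := Nat.exists_eq_succ_of_ne_zero hn.ne'
    refine ⟨φ * (w ^ k * y ^ (k + 1)), ?_, ?_⟩
    · rw [← mul_assoc, hφ]
    · calc w * (φ * (w ^ k * y ^ (k + 1))) = φ * (w ^ (k + 1) * y ^ (k + 1)) := by ring
        _ = φ := h1
  · left
    refine ⟨n, ?_⟩
    rw [hφe] at h1
    rw [h, h1, mul_zero]

theorem loc_comm {F R : Type} [Field F] [IsAlgClosed F] [CommRing R] [Algebra F R]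
    [FiniteDimensional F R] {φ : R} (hφ : φ * φ = φ) (hne : φ ≠ 0)
    (hprim : ∀ g : R, g * g = g → φ * g = φ ∨ φ * g = 0) (z : R) (hz : φ * z = z) :
    ∃ c : F, ∃ n : ℕ, (z - c • φ) ^ n = 0 := by
  have : IsArtinianRing R := IsArtinianRing.of_finite F R
  let V : Submodule F R :=
    { carrier := {v | φ * v = v}
      add_mem' := by
        intro a b ha hb
        change φ * (a + b) = a + b
        rw [mul_add, show φ * a = a from ha, show φ * b = b from hb]
      zero_mem' := mul_zero _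
      smul_mem' := by
        intro c a ha
        change φ * (c • a) = c • a
        rw [mul_smul_comm, show φ * a = a from ha] }
  have hV : ∀ v, v ∈ V ↔ φ * v = v := fun v => Iff.rfl
  have hnt : Nontrivial V := by
    refine ⟨⟨⟨φ, hφ⟩, 0, ?_⟩⟩
    intro h
    exact hne (congrArg Subtype.val h)
  let m : Module.End F V := (LinearMap.mulLeft F z).restrict (p := V) (q := V) (by
    intro v hv
    rw [hV] at hv ⊢
    rw [LinearMap.mulLeft_apply, ← mul_assoc, hz])
  obtain ⟨c, hc⟩ := Module.End.exists_eigenvalue m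
  obtain ⟨v, hv⟩ := hc.exists_hasEigenvector
  have hv1 : z * (v : R) = c • (v : R) := congrArg Subtype.val hv.apply_eq_smul
  have hv2 : (v : R) ≠ 0 := fun h => hv.2 (Subtype.ext h)
  have hv3 : φ * (v : R) = v := v.2
  refine ⟨c, ?_⟩
  rcases nil_or_unit hφ hprim (z - c • φ) (by rw [mul_sub, hz, mul_smul_comm, hφ]) with h | h
  · exact h
  · exfalso
    obtain ⟨y, -, hy⟩ := h
    apply hv2
    rw [← hv3, ← hy]
    have : (z - c • φ) * (v : R) = 0 := by
      rw [sub_mul, hv1, smul_mul_assoc, hv3, sub_self]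
    calc (z - c • φ) * y * (v : R) = y * ((z - c • φ) * (v : R)) := by ring
      _ = 0 := by rw [this, mul_zero]

end comm

/-! ### functions and the group algebra -/

section fn

variable {F X : Type} [Field F] [Group X] [Finite X]

theorem single_mul_ma (g : X) (a : X → F) :
    MonoidAlgebra.single g (1 : F) * ma a = ma (fun h => a (g⁻¹ * h)) := by
  apply ma_ext
  intro t
  rw [ma_coeff, coeff_mul']
  have := Fintype.ofFinite X
  rw [finsum_eq_sum_of_fintype, Finset.sum_eq_single g]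
  · change (Finsupp.single g (1 : F)) g * _ = _
    rw [Finsupp.single_eq_same, one_mul, ma_coeff]
  · intro b _ hb
    change (Finsupp.single g (1 : F)) b * _ = _
    rw [Finsupp.single_eq_of_ne hb, zero_mul]
  · intro h
    exact absurd (Finset.mem_univ _) h

theorem ma_mul_single (g : X) (a : X → F) :
    ma a * MonoidAlgebra.single g (1 : F) = ma (fun h => a (h * g⁻¹)) := by
  apply ma_ext
  intro t
  rw [ma_coeff, coeff_mul']
  have := Fintype.ofFinite X
  rw [finsum_eq_sum_of_fintype, Finset.sum_eq_single (t * g⁻¹)]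
  · change _ * (Finsupp.single g (1 : F)) _ = _
    rw [mul_inv_rev, inv_inv, inv_mul_cancel_right, Finsupp.single_eq_same, mul_one, ma_coeff]
  · intro b _ hb
    change _ * (Finsupp.single g (1 : F)) _ = _
    rw [Finsupp.single_eq_of_ne, mul_zero]
    intro h
    apply hb
    rw [← h]
    group
  · intro h
    exact absurd (Finset.mem_univ _) h

theorem ma_cjF (x : X) (u : X → F) : ma (cjF x u) =
    MonoidAlgebra.single x 1 * ma u * MonoidAlgebra.single x⁻¹ 1 := by
  rw [single_mul_ma, ma_mul_single]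
  congr 1
  funext h
  simp [cjF, mul_assoc]

theorem single_inv (x : X) : MonoidAlgebra.single x (1 : F) * MonoidAlgebra.single x⁻¹ 1 = 1 := by
  rw [MonoidAlgebra.single_mul_single, mul_inv_cancel, one_mul]; rfl

theorem single_inv' (x : X) : MonoidAlgebra.single x⁻¹ (1 : F) * MonoidAlgebra.single x 1 = 1 := by
  rw [MonoidAlgebra.single_mul_single, inv_mul_cancel, one_mul]; rfl

/-- invariance under conjugation by `n` means commuting with `n` -/
theorem comm_iff (n : X) (u : X → F) : (∀ h, u (n * h * n⁻¹) = u h) ↔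
    MonoidAlgebra.single n (1 : F) * ma u = ma u * MonoidAlgebra.single n 1 := by
  rw [single_mul_ma, ma_mul_single]
  constructor
  · intro h
    congr 1
    funext t
    rw [← h (n⁻¹ * t)]
    congr 1
    group
  · intro h t
    have h1 := congrFun (ma_injective h) (n * t)
    simp only [inv_mul_cancel_left] at h1
    exact h1.symm

/-- the restriction of a function to a set, as a function on the whole group -/
def cut (S : Set X) (u : X → F) : X → F := open Classical in fun h => if h ∈ S then u h else 0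

theorem mulF_supp {S T : Set X} {a b : X → F} (ha : ∀ h, h ∉ S → a h = 0)
    (hb : ∀ h, h ∉ T → b h = 0) {x : X} (hx : ∀ s ∈ S, ∀ t ∈ T, x ≠ s * t) : mulF a b x = 0 := by
  unfold mulF
  have := Fintype.ofFinite X
  rw [finsum_eq_sum_of_fintype]
  apply Finset.sum_eq_zero
  intro t _
  by_cases h1 : t ∈ S
  · by_cases h2 : t⁻¹ * x ∈ T
    · exact absurd (by group) (hx t h1 _ h2)
    · rw [hb _ h2, mul_zero]
  · rw [ha _ h1, zero_mul]

theorem mulF_sub' (a b c : X → F) : mulF a (b - c) = mulF a b - mulF a c := by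
  apply ma_injective
  rw [ma_mul, ma_sub, ma_sub, ma_mul, ma_mul, mul_sub]

theorem mulF_add' (a b c : X → F) : mulF a (b + c) = mulF a b + mulF a c := by
  apply ma_injective
  rw [ma_mul, ma_add, ma_add, ma_mul, ma_mul, mul_add]

theorem add_mulF' (a b c : X → F) : mulF (a + b) c = mulF a c + mulF b c := by
  apply ma_injective
  rw [ma_mul, ma_add, ma_add, ma_mul, ma_mul, add_mul]

theorem mulF_smul' (c : F) (a b : X → F) : mulF a (c • b) = c • mulF a b := by
  apply ma_injective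
  rw [ma_mul, ma_smul, ma_smul, ma_mul, mul_smul_comm]

theorem smul_mulF' (c : F) (a b : X → F) : mulF (c • a) b = c • mulF a b := by
  apply ma_injective
  rw [ma_mul, ma_smul, ma_smul, ma_mul, smul_mul_assoc]

/-- nilpotency in terms of functions -/
theorem nil_iff (w : X → F) : (∃ n : ℕ, (mulF w)^[n] w = 0) ↔ ∃ n : ℕ, ma w ^ n = 0 := by
  constructor
  · rintro ⟨n, hn⟩
    refine ⟨n + 1, ?_⟩
    have := ma_iterate w w n
    rw [hn, ma_zero] at this
    rw [pow_succ, ← this]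
  · rintro ⟨n, hn⟩
    refine ⟨n, ?_⟩
    apply ma_injective
    rw [ma_iterate, hn, zero_mul, ma_zero]

theorem isRes_iff (f z : X → F) (c : F) : IsRes f z c ↔ ∃ n : ℕ, (ma z - c • ma f) ^ n = 0 := by
  unfold IsRes
  rw [nil_iff, ma_sub, ma_smul]

end fn

/-! ### the calculus of `C` -/

section calc_

variable {F X : Type} [Field F] [Group X] [Finite X] {Y : Subgroup X} (hY : Y.Normal) {f : X → F}
  (hf : SBlk Y f)

include hf in
theorem f_idem : mulF f f = f := by
  funext x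
  by_cases hx : x ∈ Y
  · have h1 := congrFun (Pool.Agent.PP.H66.mulF_sub (X := Y) (a := f) (b := f) hf.supp) ⟨x, hx⟩
    have h2 := congrFun hf.blk.1.2 ⟨x, hx⟩
    exact h1.trans h2
  · rw [hf.supp x hx]
    apply mulF_supp (S := (Y : Set X)) (T := (Y : Set X)) hf.supp hf.supp
    rintro s hs t ht rfl
    exact hx (Y.mul_mem hs ht)

include hf in
theorem f_comm (a : X → F) : mulF f a = mulF a f := by
  apply ma_injective
  rw [ma_mul, ma_mul]
  have := (isCl_iff f).1 hf.cl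
  rw [Subalgebra.mem_center_iff] at this
  exact (this (ma a)).symm

include hf in
theorem f_ne : f ≠ 0 := by
  intro h
  apply hf.blk.2.1
  rw [h]
  rfl

include hf in
theorem f_isIdem : IsIdem f := ⟨hf.cl, f_idem hf⟩

theorem inv_mulF {u v : X → F} (hu : ∀ n ∈ Y, ∀ h, u (n * h * n⁻¹) = u h)
    (hv : ∀ n ∈ Y, ∀ h, v (n * h * n⁻¹) = v h) : ∀ n ∈ Y, ∀ h, mulF u v (n * h * n⁻¹) = mulF u v h := by
  intro n hn
  have h1 := (comm_iff n u).1 (hu n hn)
  have h2 := (comm_iff n v).1 (hv n hn)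
  rw [comm_iff, ma_mul, ← mul_assoc, h1, mul_assoc, h2, mul_assoc]

theorem _root_.Pool.Agent.PP.CC.mul {u v : X → F} (hu : CC f Y u) (hv : CC f Y v) : CC f Y (mulF u v) :=
  ⟨inv_mulF hu.inv hv.inv, by rw [← mulF_assoc, hu.abs]⟩

theorem _root_.Pool.Agent.PP.CE.cc {g : X} {u : X → F} (hu : CE f Y g u) : CC f Y u := ⟨hu.inv, hu.abs⟩

include hY in
theorem _root_.Pool.Agent.PP.CE.mul {g h : X} {u v : X → F} (hu : CE f Y g u) (hv : CE f Y h v) :
    CE f Y (g * h) (mulF u v) := by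
  refine ⟨?_, inv_mulF hu.inv hv.inv, by rw [← mulF_assoc, hu.abs]⟩
  intro x hx
  apply mulF_supp (S := {t | g⁻¹ * t ∈ Y}) (T := {t | h⁻¹ * t ∈ Y}) (fun t ht => hu.supp t ht)
    (fun t ht => hv.supp t ht)
  rintro s hs t ht rfl
  apply hx
  have h1 : h⁻¹ * (g⁻¹ * s) * h⁻¹⁻¹ ∈ Y := hY.conj_mem _ hs h⁻¹
  have h2 := Y.mul_mem h1 ht
  have e : h⁻¹ * (g⁻¹ * s) * h⁻¹⁻¹ * (h⁻¹ * t) = (g * h)⁻¹ * (s * t) := by group
  rwa [e] at h2

theorem _root_.Pool.Agent.PP.CE.congr_mem {g n : X} (hn : n ∈ Y) {u : X → F} (hu : CE f Y g u) :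
    CE f Y (g * n) u := by
  refine ⟨fun h hh => hu.supp h fun h' => hh ?_, hu.inv, hu.abs⟩
  have := Y.mul_mem (Y.inv_mem hn) h'
  have e : n⁻¹ * (g⁻¹ * h) = (g * n)⁻¹ * h := by group
  rwa [e] at this

theorem _root_.Pool.Agent.PP.CE.add {g : X} {u v : X → F} (hu : CE f Y g u) (hv : CE f Y g v) : CE f Y g (u + v) := by
  refine ⟨fun h hh => ?_, fun n hn h => ?_, ?_⟩
  · rw [Pi.add_apply, hu.supp h hh, hv.supp h hh, add_zero]
  · rw [Pi.add_apply, Pi.add_apply, hu.inv n hn, hv.inv n hn]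
  · rw [mulF_add', hu.abs, hv.abs]

theorem _root_.Pool.Agent.PP.CE.smul {g : X} (c : F) {u : X → F} (hu : CE f Y g u) : CE f Y g (c • u) := by
  refine ⟨fun h hh => ?_, fun n hn h => ?_, ?_⟩
  · rw [Pi.smul_apply, hu.supp h hh, smul_zero]
  · rw [Pi.smul_apply, Pi.smul_apply, hu.inv n hn]
  · rw [mulF_smul', hu.abs]

theorem _root_.Pool.Agent.PP.CE.sub {g : X} {u v : X → F} (hu : CE f Y g u) (hv : CE f Y g v) : CE f Y g (u - v) := by
  refine ⟨fun h hh => ?_, fun n hn h => ?_, ?_⟩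
  · rw [Pi.sub_apply, hu.supp h hh, hv.supp h hh, sub_zero]
  · rw [Pi.sub_apply, Pi.sub_apply, hu.inv n hn, hv.inv n hn]
  · rw [mulF_sub', hu.abs, hv.abs]

include hf in
theorem f_CE : CE f Y 1 f := by
  refine ⟨fun h hh => hf.supp h (by simpa using hh), fun n _ h => hf.cl h n, f_idem hf⟩

include hY hf in
theorem _root_.Pool.Agent.PP.CE.cjF {g : X} {u : X → F} (hu : CE f Y g u) (x : X) :
    CE f Y (x * g * x⁻¹) (Pool.Agent.PP.cjF x u) := by
  refine ⟨?_, ?_, ?_⟩
  · intro h hh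
    apply hu.supp
    intro h'
    apply hh
    have := hY.conj_mem _ h' x
    have e : x * (g⁻¹ * (x⁻¹ * h * x)) * x⁻¹ = (x * g * x⁻¹)⁻¹ * h := by group
    rwa [e] at this
  · intro n hn h
    have h1 : x⁻¹ * n * x⁻¹⁻¹ ∈ Y := hY.conj_mem _ hn x⁻¹
    rw [inv_inv] at h1
    have h2 := hu.inv _ h1 (x⁻¹ * h * x)
    change u (x⁻¹ * (n * h * n⁻¹) * x) = u (x⁻¹ * h * x)
    rw [← h2]
    congr 1
    group
  · apply ma_injective
    rw [ma_mul, ma_cjF]
    have h1 : ma f * MonoidAlgebra.single x (1 : F) = MonoidAlgebra.single x 1 * ma f := by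
      have := (isCl_iff f).1 hf.cl
      rw [Subalgebra.mem_center_iff] at this
      exact (this _).symm
    rw [← mul_assoc, ← mul_assoc, h1, mul_assoc (MonoidAlgebra.single x 1), ← ma_mul, hu.abs]

/-- functions supported on `Y` commute with the elements of `C` -/
theorem comm_of_supp {z c : X → F} (hz : ∀ h, h ∉ Y → z h = 0)
    (hc : ∀ n ∈ Y, ∀ h, c (n * h * n⁻¹) = c h) : mulF z c = mulF c z := by
  apply ma_injective
  rw [ma_mul, ma_mul, ma_eq_sum z]
  have := Fintype.ofFinite X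
  rw [finsum_eq_sum_of_fintype, Finset.sum_mul, Finset.mul_sum]
  apply Finset.sum_congr rfl
  intro t _
  by_cases ht : t ∈ Y
  · have h1 := (comm_iff t c).1 (hc t ht)
    have e : MonoidAlgebra.single t (z t) = z t • (MonoidAlgebra.single t 1 : MonoidAlgebra F X) := by
      rw [MonoidAlgebra.smul_single, smul_eq_mul, mul_one]
    rw [e, smul_mul_assoc, mul_smul_comm, h1]
  · rw [hz t ht]
    simp

theorem _root_.Pool.Agent.PP.CE.supp1 {z : X → F} (hz : CE f Y 1 z) : ∀ h, h ∉ Y → z h = 0 := by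
  intro h hh
  apply hz.supp
  simpa using hh

theorem C1_comm {z c : X → F} (hz : CE f Y 1 z) (hc : CC f Y c) : mulF z c = mulF c z :=
  comm_of_supp hz.supp1 hc.inv

/-- the commutative algebra of the elements supported on `Y` and commuting with `Y` -/
def ZY (F : Type) [Field F] (Y : Subgroup X) : Subalgebra F (MonoidAlgebra F X) where
  carrier := {z | (∀ h, h ∉ Y → z.coeff h = 0) ∧ ∀ n ∈ Y,
    MonoidAlgebra.single n (1 : F) * z = z * MonoidAlgebra.single n 1}
  mul_mem' := by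
    rintro a b ⟨ha, ha'⟩ ⟨hb, hb'⟩
    refine ⟨?_, ?_⟩
    · intro h hh
      rw [coeff_mul']
      have := Fintype.ofFinite X
      rw [finsum_eq_sum_of_fintype]
      apply Finset.sum_eq_zero
      intro t _
      by_cases ht : t ∈ Y
      · rw [hb, mul_zero]
        intro h'
        apply hh
        have := Y.mul_mem ht h'
        rwa [mul_inv_cancel_left] at this
      · rw [ha t ht, zero_mul]
    · intro n hn
      rw [← mul_assoc, ha' n hn, mul_assoc, hb' n hn, mul_assoc]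
  add_mem' := by
    rintro a b ⟨ha, ha'⟩ ⟨hb, hb'⟩
    refine ⟨?_, ?_⟩
    · intro h hh
      rw [MonoidAlgebra.coeff_add, Finsupp.add_apply, ha h hh, hb h hh, add_zero]
    · intro n hn
      rw [mul_add, add_mul, ha' n hn, hb' n hn]
  algebraMap_mem' := by
    intro r
    refine ⟨?_, ?_⟩
    · intro h hh
      rw [Algebra.algebraMap_eq_smul_one, MonoidAlgebra.coeff_smul, Finsupp.smul_apply]
      have : (1 : MonoidAlgebra F X).coeff h = 0 := by
        change (Finsupp.single (1 : X) (1 : F)) h = 0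
        rw [Finsupp.single_eq_of_ne]
        rintro rfl
        exact hh Y.one_mem
      rw [this, smul_zero]
    · intro n _
      exact (Algebra.commutes r _).symm

theorem mem_ZY (z : X → F) : ma z ∈ ZY F Y ↔ (∀ h, h ∉ Y → z h = 0) ∧
    ∀ n ∈ Y, ∀ h, z (n * h * n⁻¹) = z h := by
  constructor
  · rintro ⟨h1, h2⟩
    exact ⟨h1, fun n hn => (comm_iff n z).2 (h2 n hn)⟩
  · rintro ⟨h1, h2⟩
    exact ⟨h1, fun n hn => (comm_iff n z).1 (h2 n hn)⟩

theorem _root_.Pool.Agent.PP.CE.mem {z : X → F} (hz : CE f Y 1 z) : ma z ∈ ZY F Y := (mem_ZY z).2 ⟨hz.supp1, hz.inv⟩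

instance : CommRing (ZY F Y) :=
  { (inferInstance : Ring (ZY F Y)) with
    mul_comm := by
      rintro ⟨a, ha⟩ ⟨b, hb⟩
      apply Subtype.ext
      change a * b = b * a
      obtain ⟨u, rfl⟩ := ma_surjective a
      obtain ⟨v, rfl⟩ := ma_surjective b
      rw [mem_ZY] at ha hb
      rw [← ma_mul, ← ma_mul, comm_of_supp ha.1 hb.2] }

end calc_

end Pool.Agent.PP.J74
end
end -- Pool.Agent.Helper74_PP.JBase

section -- Pool.Agent.Helper74_PP.Loc

/-!
# Squad PP, part J: LOC, the algebra `C₁ = Z(FY) f` is local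
-/

open scoped BigOperators

set_option linter.unusedSectionVars false

noncomputable section

namespace Pool.Agent.PP.J74

open Pool.Agent.PP

/-! ### residues in a commutative algebra -/

section res

variable {F R : Type} [Field F] [CommRing R] [Algebra F R] {φ : R}

theorem res_uniq (hφ : φ * φ = φ) (hne : φ ≠ 0) {z : R} {c d : F}
    (h1 : IsNilpotent (z - c • φ)) (h2 : IsNilpotent (z - d • φ)) : c = d := by
  have h3 : IsNilpotent ((z - c • φ) - (z - d • φ)) := (Commute.all _ _).isNilpotent_sub h1 h2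
  have e : (z - c • φ) - (z - d • φ) = (d - c) • φ := by rw [sub_smul]; abel
  rw [e] at h3
  obtain ⟨n, hn⟩ := h3
  by_contra hcd
  have hdc : d - c ≠ 0 := fun h => hcd (sub_eq_zero.1 h).symm
  have hp : ∀ n : ℕ, φ ^ (n + 1) = φ := by
    intro n
    induction n with
    | zero => simp
    | succ n ih => rw [pow_succ, ih, hφ]
  apply hne
  have h4 : ((d - c) • φ) ^ (n + 1) = 0 := by rw [pow_succ, hn, zero_mul]
  rw [smul_pow, hp] at h4
  rcases smul_eq_zero.1 h4 with h5 | h5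
  · exact absurd (pow_eq_zero_iff (Nat.succ_ne_zero n) |>.1 h5) hdc
  · exact h5

theorem res_mul (hφ : φ * φ = φ) {z z' : R} (hz' : φ * z' = z') {c d : F}
    (h1 : IsNilpotent (z - c • φ)) (h2 : IsNilpotent (z' - d • φ)) :
    IsNilpotent (z * z' - (c * d) • φ) := by
  have e : z * z' - (c * d) • φ = (z - c • φ) * z' + c • (z' - d • φ) := by
    rw [sub_mul, smul_mul_assoc, hz', smul_sub, smul_smul]
    abel
  rw [e]
  exact (Commute.all _ _).isNilpotent_add ((Commute.all _ _).isNilpotent_mul_right h1)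
    (IsNilpotent.smul h2 c)

theorem res_add {z z' : R} {c d : F}
    (h1 : IsNilpotent (z - c • φ)) (h2 : IsNilpotent (z' - d • φ)) :
    IsNilpotent (z + z' - (c + d) • φ) := by
  have e : z + z' - (c + d) • φ = (z - c • φ) + (z' - d • φ) := by
    rw [add_smul]
    abel
  rw [e]
  exact (Commute.all _ _).isNilpotent_add h1 h2

theorem res_smul {z : R} {c : F} (d : F) (h1 : IsNilpotent (z - c • φ)) :
    IsNilpotent (d • z - (d * c) • φ) := by
  have e : d • z - (d * c) • φ = d • (z - c • φ) := by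
    rw [smul_sub, smul_smul]
  rw [e]
  exact IsNilpotent.smul h1 d

end res

section loc

variable {F X : Type} [Field F] [Group X] [Finite X] {Y : Subgroup X} {f : X → F}

/-- an element of `C₁` as an element of the commutative algebra -/
def zy {z : X → F} (hz : CE f Y 1 z) : ZY F Y := ⟨ma z, hz.mem⟩

theorem nil_zy (w : ZY F Y) : IsNilpotent w ↔ IsNilpotent (w : MonoidAlgebra F X) := by
  constructor
  · rintro ⟨n, hn⟩
    exact ⟨n, by rw [← SubmonoidClass.coe_pow, hn]; rfl⟩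
  · rintro ⟨n, hn⟩
    refine ⟨n, Subtype.ext ?_⟩
    rw [SubmonoidClass.coe_pow, hn]
    rfl

theorem isRes_zy (hf : SBlk Y f) {z : X → F} (hz : CE f Y 1 z) (c : F) :
    IsRes f z c ↔ IsNilpotent (zy hz - c • zy (f_CE hf)) := by
  rw [isRes_iff, nil_zy]
  rfl

theorem zy_abs (hf : SBlk Y f) {z : X → F} (hz : CE f Y 1 z) : zy (f_CE hf) * zy hz = zy hz := by
  apply Subtype.ext
  change ma f * ma z = ma z
  rw [← ma_mul, hz.abs]

theorem zy_ne (hf : SBlk Y f) : zy (f_CE hf) ≠ 0 := by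
  intro h
  apply f_ne hf
  apply ma_injective
  rw [ma_zero]
  exact congrArg Subtype.val h

/-- functions supported on `Y` which agree on `Y` -/
theorem ext_supp {u v : X → F} (hu : ∀ h, h ∉ Y → u h = 0) (hv : ∀ h, h ∉ Y → v h = 0)
    (h : (fun t : Y => u t) = fun t : Y => v t) : u = v := by
  funext x
  by_cases hx : x ∈ Y
  · exact congrFun h ⟨x, hx⟩
  · rw [hu x hx, hv x hx]

theorem mulF_suppY {u v : X → F} (hu : ∀ h, h ∉ Y → u h = 0) (hv : ∀ h, h ∉ Y → v h = 0) :
    ∀ h, h ∉ Y → mulF u v h = 0 := by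
  intro h hh
  apply mulF_supp (S := (Y : Set X)) (T := (Y : Set X)) hu hv
  rintro s hs t ht rfl
  exact hh (Y.mul_mem hs ht)

theorem prim_zy (hf : SBlk Y f) (g : ZY F Y) (hg : g * g = g) :
    zy (f_CE hf) * g = zy (f_CE hf) ∨ zy (f_CE hf) * g = 0 := by
  obtain ⟨g, hgm⟩ := g
  obtain ⟨u, rfl⟩ := ma_surjective g
  have hu := (mem_ZY u).1 hgm
  have h1 : mulF u u = u := by
    apply ma_injective
    rw [ma_mul]
    exact congrArg Subtype.val hg
  have h2 : IsIdem (fun t : Y => u t) := by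
    refine ⟨fun x y => ?_, ?_⟩
    · exact hu.2 y y.2 x
    · rw [← Pool.Agent.PP.H66.mulF_sub hu.1, h1]
  have hz : ∀ h, h ∉ Y → (0 : X → F) h = 0 := fun _ _ => rfl
  rcases hf.blk.2.2 _ h2 with h3 | h3
  · left
    rw [← Pool.Agent.PP.H66.mulF_sub hf.supp] at h3
    apply Subtype.ext
    change ma f * ma u = ma f
    rw [← ma_mul, ext_supp (mulF_suppY hf.supp hu.1) hf.supp h3]
  · right
    rw [← Pool.Agent.PP.H66.mulF_sub hf.supp] at h3
    apply Subtype.ext
    change ma f * ma u = 0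
    rw [← ma_mul, ext_supp (mulF_suppY hf.supp hu.1) hz h3, ma_zero]

theorem res_exists (hF : IsAlgClosed F) (hf : SBlk Y f) {z : X → F} (hz : CE f Y 1 z) :
    ∃ c, IsRes f z c := by
  have : FiniteDimensional F (MonoidAlgebra F X) := Module.Finite.equiv maL
  have : FiniteDimensional F (ZY F Y) := FiniteDimensional.finiteDimensional_subalgebra _
  obtain ⟨c, n, hn⟩ := loc_comm (F := F) (zy_abs hf (f_CE hf)) (zy_ne hf) (prim_zy hf) (zy hz)
    (zy_abs hf hz)
  exact ⟨c, (isRes_zy hf hz c).2 ⟨n, hn⟩⟩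

theorem isRes_uniq (hf : SBlk Y f) {z : X → F} (hz : CE f Y 1 z) {c d : F} (h1 : IsRes f z c)
    (h2 : IsRes f z d) : c = d :=
  res_uniq (zy_abs hf (f_CE hf)) (zy_ne hf) ((isRes_zy hf hz c).1 h1) ((isRes_zy hf hz d).1 h2)

theorem isRes_lam (hF : IsAlgClosed F) (hf : SBlk Y f) {z : X → F} (hz : CE f Y 1 z) :
    IsRes f z (lamJ f z) := by
  unfold lamJ
  rw [dif_pos (res_exists hF hf hz)]
  exact (res_exists hF hf hz).choose_spec

theorem lam_eq (hF : IsAlgClosed F) (hf : SBlk Y f) {z : X → F} (hz : CE f Y 1 z) {c : F}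
    (h : IsRes f z c) : lamJ f z = c := isRes_uniq hf hz (isRes_lam hF hf hz) h

/-- an element of the commutative algebra absorbed by `f` is an element of `C₁` -/
theorem CE_of_zy (hf : SBlk Y f) {u : X → F} (hu : ma u ∈ ZY F Y) (h : mulF f u = u) :
    CE f Y 1 u := by
  have := (mem_ZY u).1 hu
  refine ⟨fun t ht => this.1 t ?_, this.2, h⟩
  simpa using ht

theorem unit_of_lam (hF : IsAlgClosed F) (hf : SBlk Y f) {z : X → F} (hz : CE f Y 1 z)
    (h : lamJ f z ≠ 0) : ∃ z', CE f Y 1 z' ∧ mulF z z' = f := by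
  have : FiniteDimensional F (MonoidAlgebra F X) := Module.Finite.equiv maL
  have : FiniteDimensional F (ZY F Y) := FiniteDimensional.finiteDimensional_subalgebra _
  have : IsArtinianRing (ZY F Y) := IsArtinianRing.of_finite F _
  rcases nil_or_unit (zy_abs hf (f_CE hf)) (prim_zy hf) (zy hz) (zy_abs hf hz) with h1 | h1
  · exfalso
    apply h
    apply lam_eq hF hf hz
    rw [isRes_zy hf hz, zero_smul, sub_zero]
    exact h1
  · obtain ⟨⟨y, hy⟩, hy1, hy2⟩ := h1
    obtain ⟨u, rfl⟩ := ma_surjective y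
    have e1 : mulF f u = u := by
      apply ma_injective
      rw [ma_mul]
      exact congrArg Subtype.val hy1
    refine ⟨u, CE_of_zy hf hy e1, ?_⟩
    apply ma_injective
    rw [ma_mul]
    exact congrArg Subtype.val hy2

theorem lam_f (hF : IsAlgClosed F) (hf : SBlk Y f) : lamJ f f = 1 := by
  apply lam_eq hF hf (f_CE hf)
  rw [isRes_zy hf (f_CE hf), one_smul, sub_self]
  exact IsNilpotent.zero

theorem CE.mul1 (hY : Y.Normal) {z z' : X → F} (hz : CE f Y 1 z) (hz' : CE f Y 1 z') :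
    CE f Y 1 (mulF z z') := by
  have := Pool.Agent.PP.CE.mul hY hz hz'
  rwa [mul_one] at this

theorem lam_mul (hF : IsAlgClosed F) (hY : Y.Normal) (hf : SBlk Y f) {z z' : X → F}
    (hz : CE f Y 1 z) (hz' : CE f Y 1 z') : lamJ f (mulF z z') = lamJ f z * lamJ f z' := by
  apply lam_eq hF hf (CE.mul1 hY hz hz')
  rw [isRes_zy hf (CE.mul1 hY hz hz')]
  have h := res_mul (zy_abs hf (f_CE hf)) (zy_abs hf hz') ((isRes_zy hf hz _).1 (isRes_lam hF hf hz))
    ((isRes_zy hf hz' _).1 (isRes_lam hF hf hz'))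
  have e : zy (CE.mul1 hY hz hz') = zy hz * zy hz' := Subtype.ext (ma_mul z z')
  rw [e]
  exact h

theorem lam_add (hF : IsAlgClosed F) (hf : SBlk Y f) {z z' : X → F}
    (hz : CE f Y 1 z) (hz' : CE f Y 1 z') : lamJ f (z + z') = lamJ f z + lamJ f z' := by
  apply lam_eq hF hf (hz.add hz')
  rw [isRes_zy hf (hz.add hz')]
  have h := res_add ((isRes_zy hf hz _).1 (isRes_lam hF hf hz))
    ((isRes_zy hf hz' _).1 (isRes_lam hF hf hz'))
  have e : zy (hz.add hz') = zy hz + zy hz' := Subtype.ext (ma_add z z')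
  rw [e]
  exact h

theorem lam_smul (hF : IsAlgClosed F) (hf : SBlk Y f) (d : F) {z : X → F}
    (hz : CE f Y 1 z) : lamJ f (d • z) = d * lamJ f z := by
  apply lam_eq hF hf (hz.smul d)
  rw [isRes_zy hf (hz.smul d)]
  have h := res_smul d ((isRes_zy hf hz _).1 (isRes_lam hF hf hz))
  have e : zy (hz.smul d) = d • zy hz := Subtype.ext (ma_smul d z)
  rw [e]
  exact h

end loc

/-! ### the action on the modular characters of `Y ∩ S` -/

section act

variable {ℓ : ℕ} {F X : Type} [Field F] [Group X] [Finite X] {Y R S : Subgroup X} {f : X → F}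

theorem br_sub (hl : Loc ℓ Y R S) (a : X → F) :
    (fun t : ↥(Y ⊓ S) => br R a t) = br (R.subgroupOf (Y ⊓ S)) (fun t : ↥(Y ⊓ S) => a t) := by
  classical
  funext t
  have h : (t : X) ∈ Subgroup.centralizer (R : Set X) ↔
      t ∈ Subgroup.centralizer (R.subgroupOf (Y ⊓ S) : Set ↥(Y ⊓ S)) := by
    rw [Subgroup.mem_centralizer_iff, Subgroup.mem_centralizer_iff]
    constructor
    · intro h r hr
      exact Subtype.ext (h r hr)
    · intro h r hr
      exact congrArg Subtype.val (h ⟨r, hl.le hr, hl.leS hr⟩ hr)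
  unfold br
  by_cases h1 : (t : X) ∈ Subgroup.centralizer (R : Set X)
  · rw [if_pos h1, if_pos (h.1 h1)]
  · rw [if_neg h1, if_neg (fun h2 => h1 (h.2 h2))]

theorem normal_sub (hl : Loc ℓ Y R S) : (R.subgroupOf (Y ⊓ S)).Normal := by
  constructor
  rintro ⟨r, hr1⟩ hr ⟨g, hg⟩
  have h1 := hl.norm hg.2
  rw [Subgroup.mem_normalizer_iff] at h1
  exact (h1 r).1 hr

theorem pgroup_sub (hl : Loc ℓ Y R S) : IsPGroup ℓ (R.subgroupOf (Y ⊓ S)) :=
  hl.pgrp.comap_of_injective (Y ⊓ S).subtype (Subgroup.subtype_injective _)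

/-- nilpotent elements of `Z(F Y)` act as zero -/
theorem act_nil (hF : GoodF ℓ F) (hl : Loc ℓ Y R S) {w : X → F} (hw : ∀ h, h ∉ Y → w h = 0)
    (hwi : ∀ n ∈ Y, ∀ h, w (n * h * n⁻¹) = w h) (hn : ∃ n : ℕ, (mulF w)^[n] w = 0)
    {m : ℕ} (ρ : ↥(Y ⊓ S) →* Matrix (Fin m) (Fin m) F) (hρ : IsIrr ρ) :
    ev ρ (fun t : ↥(Y ⊓ S) => br R w t) = 0 := by
  obtain ⟨n, hn⟩ := hn
  have hinv : Pool.Agent.PP.H66.Inv R w := fun p hp t => hwi p (hl.le hp) t
  have h1 := Pool.Agent.PP.H66.br_iter hF hl.pgrp hinv hinv n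
  rw [hn, Pool.Agent.PP.H66.br_zero] at h1
  have hs : ∀ t, t ∉ Y ⊓ S → br R w t = 0 := by
    intro t ht
    by_cases hc : t ∈ Subgroup.centralizer (R : Set X)
    · rw [Pool.Agent.PP.H66.br_of_mem hc]
      apply hw
      intro hy
      exact ht ⟨hy, hl.cent hc⟩
    · exact Pool.Agent.PP.H66.br_of_not_mem hc
  have h2 := Pool.Agent.PP.H66.iter_sub (X := Y ⊓ S) (a := br R w) (b := br R w) hs n
  have h3 : (mulF (fun t : ↥(Y ⊓ S) => br R w t))^[n] (fun t : ↥(Y ⊓ S) => br R w t) = 0 := by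
    rw [← h2, ← h1]
    rfl
  have hcl : IsCl (fun t : ↥(Y ⊓ S) => br R w t) := by
    intro x y
    change br R w ((y : X) * (x : X) * (y : X)⁻¹) = br R w x
    have hy1 : (y : X) ∈ Subgroup.normalizer (R : Set X) := hl.norm y.2.2
    by_cases hc : (x : X) ∈ Subgroup.centralizer (R : Set X)
    · rw [Pool.Agent.PP.H66.br_of_mem hc,
        Pool.Agent.PP.H66.br_of_mem ((Pool.Agent.PP.H20.cent_conj_iff hy1).2 hc)]
      exact hwi _ y.2.1 _
    · rw [Pool.Agent.PP.H66.br_of_not_mem hc,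
        Pool.Agent.PP.H66.br_of_not_mem (fun h => hc ((Pool.Agent.PP.H20.cent_conj_iff hy1).1 h))]
  obtain ⟨c, hc, -, -⟩ := Pool.Agent.PP.H20.eig F ↥(Y ⊓ S) m ρ hρ _ hcl
  have h4 : ev ρ (fun t : ↥(Y ⊓ S) => br R w t) ^ (n + 1) = 0 := by
    rw [pow_succ, ← ev_iterate, h3]
    unfold ev
    simp
  have : Nonempty (Fin m) := ⟨⟨0, hρ.1⟩⟩
  rw [hc] at h4 ⊢
  rw [← map_pow] at h4
  have h5 : c ^ (n + 1) = 0 := by
    have h6 := congrFun (congrFun h4 ⟨0, hρ.1⟩) ⟨0, hρ.1⟩
    simpa using h6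
  rw [pow_eq_zero_iff (Nat.succ_ne_zero n)] at h5
  rw [h5, map_zero]

theorem act_f (hF : GoodF ℓ F) (hf : SBlk Y f) (hl : Loc ℓ Y R S) {m : ℕ}
    (ρ : ↥(Y ⊓ S) →* Matrix (Fin m) (Fin m) F) (hρ : IsIrr ρ) :
    ev ρ (fun t : ↥(Y ⊓ S) => br R f t) = ev ρ (fun t : ↥(Y ⊓ S) => f t) := by
  have hcl : IsCl (fun t : ↥(Y ⊓ S) => f t) := fun x y => hf.cl x y
  rw [br_sub hl, ← ((Pool.Agent.PP.H20.nls ℓ F hF ↥(Y ⊓ S) _ (normal_sub hl) (pgroup_sub hl) m ρ
    hρ).2 _ hcl).1]

theorem ev_f (hf : SBlk Y f) {m : ℕ}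
    (ρ : ↥(Y ⊓ S) →* Matrix (Fin m) (Fin m) F) (hρ : IsIrr ρ)
    (h : actF (fun t : ↥(Y ⊓ S) => f t) (tr ρ) = tr ρ) :
    ev ρ (fun t : ↥(Y ⊓ S) => f t) = 1 := by
  have hcl : IsCl (fun t : ↥(Y ⊓ S) => f t) := fun x y => hf.cl x y
  obtain ⟨c, hc, hc2, -⟩ := Pool.Agent.PP.H20.eig F ↥(Y ⊓ S) m ρ hρ _ hcl
  rw [h] at hc2
  have hne : tr ρ ≠ 0 := by
    intro h0
    have h1 : ∀ x, (Matrix.traceLinearMap (Fin m) F F) x = 0 := by
      intro x
      have hx : x ∈ Submodule.span F (Set.range ρ) := by rw [hρ.2]; trivial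
      induction hx using Submodule.span_induction with
      | mem x hx =>
        obtain ⟨g, rfl⟩ := hx
        exact congrFun h0 g
      | zero => simp
      | add x y _ _ hx hy => rw [map_add, hx, hy, add_zero]
      | smul a x _ hx => rw [map_smul, hx, smul_zero]
    have h2 := h1 (Matrix.single ⟨0, hρ.1⟩ ⟨0, hρ.1⟩ 1)
    rw [Matrix.traceLinearMap_apply, Matrix.trace_single_eq_same] at h2
    exact one_ne_zero h2
  obtain ⟨t, ht⟩ := Function.ne_iff.1 hne
  have h3 := congrFun hc2 t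
  rw [Pi.smul_apply, smul_eq_mul] at h3
  have h4 : c = 1 := by
    have : (1 - c) * tr ρ t = 0 := by rw [sub_mul, one_mul, ← h3, sub_self]
    rcases mul_eq_zero.1 this with h5 | h5
    · exact (sub_eq_zero.1 h5).symm
    · exact absurd h5 ht
  rw [hc, h4, map_one]

theorem ev_z (hF : GoodF ℓ F) (hf : SBlk Y f) (hl : Loc ℓ Y R S) {z : X → F}
    (hz : CE f Y 1 z) {m : ℕ}
    (ρ : ↥(Y ⊓ S) →* Matrix (Fin m) (Fin m) F) (hρ : IsIrr ρ)
    (h : actF (fun t : ↥(Y ⊓ S) => f t) (tr ρ) = tr ρ) :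
    ev ρ (fun t : ↥(Y ⊓ S) => br R z t) = Matrix.scalar (Fin m) (lamJ f z) := by
  have hw : CE f Y 1 (z - lamJ f z • f) := hz.sub ((f_CE hf).smul _)
  have h1 := act_nil hF hl hw.supp1 hw.inv (isRes_lam hF.closed hf hz) ρ hρ
  have e : (fun t : ↥(Y ⊓ S) => br R z t) = (fun t : ↥(Y ⊓ S) => br R (z - lamJ f z • f) t) +
      lamJ f z • (fun t : ↥(Y ⊓ S) => br R f t) := by
    classical
    funext t
    rw [Pi.add_apply, Pi.smul_apply]
    unfold br
    split_ifs with hc
    · simp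
    · simp
  rw [e, ev_add, ev_smul, h1, zero_add, act_f hF hf hl ρ hρ, ev_f hf ρ hρ h]
  ext i j
  simp [Matrix.scalar_apply, Matrix.one_apply, Matrix.diagonal_apply]

end act

/-- LOC -/
theorem loc : LocStmt := by
  intro ℓ F _ hF X _ _ Y hY f hf
  refine ⟨fun z hz => ⟨isRes_lam hF.closed hf hz, fun c hc => (lam_eq hF.closed hf hz hc).symm,
    unit_of_lam hF.closed hf hz⟩, f_CE hf, lam_f hF.closed hf, fun z z' hz hz' =>
    ⟨lam_mul hF.closed hY hf hz hz', lam_add hF.closed hf hz hz'⟩,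
    fun c z hz => lam_smul hF.closed hf c hz, ?_⟩
  rintro R S hl z hz φ ⟨m, ρ, hρ, rfl⟩ hφ
  funext x
  rw [actF_tr, ev_z hF hf hl hz ρ hρ hφ, Pi.smul_apply, smul_eq_mul]
  rw [Matrix.scalar_apply, ← Matrix.smul_one_eq_diagonal, smul_mul_assoc, one_mul,
    Matrix.trace_smul, smul_eq_mul]
  rfl

end Pool.Agent.PP.J74
end
end -- Pool.Agent.Helper74_PP.Loc
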