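import Pool.Agent.Helper12_AWB.B049
import Pool.Agent.Helper12_AWB.B084

/-!
# Merged copies (generated) of the modules

* `Pool.Agent.Helper74_PP.Xfs`
* `Pool.Agent.Helper74_PP.SupJ`
* `Pool.Agent.Helper62_PP.Inn`
-/

set_option autoImplicit false

section -- Pool.Agent.Helper74_PP.Xfs

/-!
# Squad PP, part J: XFS, the group `X[f]` and its units
-/

open scoped BigOperators

set_option linter.unusedSectionVars false

noncomputable section

namespace Pool.Agent.PP.J74

open Pool.Agent.PP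

section xfs

variable {F X : Type} [Field F] [Group X] [Finite X] {Y : Subgroup X} (hY : Y.Normal) {f : X → F}
  (hf : SBlk Y f)

include hf in
theorem single_f (x : X) : MonoidAlgebra.single x (1 : F) * ma f =
    ma f * MonoidAlgebra.single x 1 := by
  have := (isCl_iff f).1 hf.cl
  rw [Subalgebra.mem_center_iff] at this
  exact this _

include hf in
theorem cjF_f (x : X) : cjF x f = f := by
  apply ma_injective
  rw [ma_cjF, single_f hf, mul_assoc, single_inv, mul_one]

theorem cjF_mul (x : X) (u v : X → F) : cjF x (mulF u v) = mulF (cjF x u) (cjF x v) := by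
  apply ma_injective
  rw [ma_mul, ma_cjF, ma_cjF, ma_cjF, ma_mul]
  have h := single_inv' (F := F) x
  calc MonoidAlgebra.single x (1 : F) * (ma u * ma v) * MonoidAlgebra.single x⁻¹ 1
      = MonoidAlgebra.single x 1 * ma u * 1 * ma v * MonoidAlgebra.single x⁻¹ 1 := by
        simp only [mul_assoc, mul_one]
    _ = _ := by
        rw [← h]
        simp only [mul_assoc]

include hf in
theorem abs_right {u : X → F} (hu : mulF f u = u) : mulF u f = u := by
  rw [← f_comm hf, hu]

include hY hf in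
theorem unit_symm {g : X} {u u' : X → F} (h : IsUnitOver f Y g u u') : mulF u' u = f := by
  have h1 : CE f Y 1 (mulF u' u) := by
    have := h.right.mul hY h.left
    rwa [inv_mul_cancel] at this
  have h2 : mulF (mulF u' u) (mulF u' u) = mulF u' u := by
    rw [mulF_assoc, ← mulF_assoc u, h.mul, h.left.abs]
  have h3 : zy h1 * zy h1 = zy h1 := Subtype.ext (by
    change ma _ * ma _ = ma _
    rw [← ma_mul, h2])
  rcases prim_zy hf (zy h1) h3 with h4 | h4
  · rw [zy_abs hf h1] at h4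
    exact ma_injective (congrArg Subtype.val h4)
  · exfalso
    rw [zy_abs hf h1] at h4
    have h5 : mulF u' u = 0 := by
      apply ma_injective
      rw [ma_zero]
      exact congrArg Subtype.val h4
    apply f_ne hf
    have h6 : mulF (mulF u (mulF u' u)) u' = f := by
      rw [mulF_assoc, mulF_assoc u', h.mul, abs_right hf h.right.abs, h.mul]
    rw [← h6, h5]
    apply ma_injective
    rw [ma_mul, ma_mul, ma_zero, mul_zero, zero_mul]

include hY hf in
theorem unit_inv {g : X} {u u' : X → F} (h : IsUnitOver f Y g u u') :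
    IsUnitOver f Y g⁻¹ u' u :=
  ⟨h.right, by rw [inv_inv]; exact h.left, unit_symm hY hf h⟩

include hf in
theorem unit_one : IsUnitOver f Y 1 f f :=
  ⟨f_CE hf, by rw [inv_one]; exact f_CE hf, f_idem hf⟩

include hY hf in
theorem unit_mul {g h : X} {u u' v v' : X → F} (hu : IsUnitOver f Y g u u')
    (hv : IsUnitOver f Y h v v') : IsUnitOver f Y (g * h) (mulF u v) (mulF v' u') := by
  refine ⟨hu.left.mul hY hv.left, ?_, ?_⟩
  · rw [mul_inv_rev]
    exact hv.right.mul hY hu.right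
  · rw [mulF_assoc, ← mulF_assoc v, hv.mul, hu.right.abs, hu.mul]

include hY in
theorem unit_congr {g n : X} (hn : n ∈ Y) {u u' : X → F} (hu : IsUnitOver f Y g u u') :
    IsUnitOver f Y (g * n) u u' := by
  refine ⟨hu.left.congr_mem hn, ?_, hu.mul⟩
  have h1 : g * n⁻¹ * g⁻¹ ∈ Y := hY.conj_mem _ (Y.inv_mem hn) g
  have h2 := hu.right.congr_mem h1
  have e : g⁻¹ * (g * n⁻¹ * g⁻¹) = (g * n)⁻¹ := by group
  rwa [e] at h2

include hY hf in
theorem unit_conj {g : X} {u u' : X → F} (hu : IsUnitOver f Y g u u') (x : X) :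
    IsUnitOver f Y (x * g * x⁻¹) (cjF x u) (cjF x u') := by
  refine ⟨hu.left.cjF hY hf x, ?_, ?_⟩
  · have := hu.right.cjF hY hf x
    have e : x * g⁻¹ * x⁻¹ = (x * g * x⁻¹)⁻¹ := by group
    rwa [e] at this
  · rw [← cjF_mul, hu.mul, cjF_f hf]

include hY hf in
theorem mem_XF (g : X) : g ∈ XF f Y ↔ ∃ u u', IsUnitOver f Y g u u' := by
  constructor
  · intro hg
    unfold XF at hg
    induction hg using Subgroup.closure_induction with
    | mem x hx => exact hx
    | one => exact ⟨f, f, unit_one hf⟩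
    | mul x y _ _ hx hy =>
      obtain ⟨u, u', hu⟩ := hx
      obtain ⟨v, v', hv⟩ := hy
      exact ⟨_, _, unit_mul hY hf hu hv⟩
    | inv x _ hx =>
      obtain ⟨u, u', hu⟩ := hx
      exact ⟨_, _, unit_inv hY hf hu⟩
  · intro h
    exact Subgroup.subset_closure h

include hY hf in
theorem XF_normal : (XF f Y).Normal := by
  constructor
  intro g hg x
  rw [mem_XF hY hf] at hg ⊢
  obtain ⟨u, u', hu⟩ := hg
  exact ⟨_, _, unit_conj hY hf hu x⟩

include hY hf in
theorem le_XF : Y ≤ XF f Y := by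
  intro n hn
  rw [mem_XF hY hf]
  have := unit_congr hY hn (unit_one hf)
  rw [one_mul] at this
  exact ⟨_, _, this⟩

include hY hf in
theorem unit_span {g : X} {u u' : X → F} (h : IsUnitOver f Y g u u') {v : X → F}
    (hv : CE f Y g v) : ∃ z, CE f Y 1 z ∧ v = mulF z u := by
  refine ⟨mulF v u', ?_, ?_⟩
  · have := hv.mul hY h.right
    rwa [mul_inv_cancel] at this
  · rw [mulF_assoc, unit_symm hY hf h, abs_right hf hv.abs]

/-- an element of `C_g` moves past the elements of `C` like `g` -/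
theorem mul_cjF {g : X} {u : X → F} (hu : ∀ h, g⁻¹ * h ∉ Y → u h = 0) {c : X → F}
    (hc : ∀ n ∈ Y, ∀ h, c (n * h * n⁻¹) = c h) : mulF u c = mulF (cjF g c) u := by
  apply ma_injective
  rw [ma_mul, ma_mul, ma_eq_sum u]
  have := Fintype.ofFinite X
  rw [finsum_eq_sum_of_fintype, Finset.sum_mul, Finset.mul_sum]
  apply Finset.sum_congr rfl
  intro t _
  by_cases ht : g⁻¹ * t ∈ Y
  · have h1 := (comm_iff (g⁻¹ * t) c).1 (hc _ ht)
    have e : MonoidAlgebra.single t (u t) = u t • (MonoidAlgebra.single t 1 : MonoidAlgebra F X) := by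
      rw [MonoidAlgebra.smul_single, smul_eq_mul, mul_one]
    have e2 : (MonoidAlgebra.single t 1 : MonoidAlgebra F X) =
        MonoidAlgebra.single g 1 * MonoidAlgebra.single (g⁻¹ * t) 1 := by
      rw [MonoidAlgebra.single_mul_single, mul_inv_cancel_left, mul_one]
    rw [e, smul_mul_assoc, mul_smul_comm, ma_cjF, e2, mul_assoc, h1]
    congr 1
    simp only [mul_assoc]
    rw [← mul_assoc (MonoidAlgebra.single g⁻¹ (1 : F)) (MonoidAlgebra.single g 1), single_inv',
      one_mul]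
  · rw [hu t ht]
    simp

include hf in
theorem cjF_abs {c : X → F} (hc : mulF f c = c) (x : X) : mulF (cjF x c) f = cjF x c := by
  rw [← f_comm hf]
  conv_lhs => rw [← cjF_f hf x]
  rw [← cjF_mul, hc]

include hf in
theorem unit_cj {g : X} {u u' : X → F} (h : IsUnitOver f Y g u u') {c : X → F} (hc : CC f Y c) :
    cjF g c = mulF (mulF u c) u' := by
  rw [mul_cjF h.left.supp hc.inv, mulF_assoc, h.mul, cjF_abs hf hc.abs]

include hY hf in
theorem lam_zero (hF : IsAlgClosed F) {g : X} (hg : g ∉ XF f Y) {a a' : X → F} (ha : CE f Y g a)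
    (ha' : CE f Y g⁻¹ a') : CE f Y 1 (mulF a a') ∧ lamJ f (mulF a a') = 0 := by
  have h1 : CE f Y 1 (mulF a a') := by
    have := ha.mul hY ha'
    rwa [mul_inv_cancel] at this
  refine ⟨h1, ?_⟩
  by_contra hne
  obtain ⟨z, hz, hz2⟩ := unit_of_lam hF hf h1 hne
  apply hg
  rw [mem_XF hY hf]
  refine ⟨a, mulF a' z, ha, ?_, ?_⟩
  · have := ha'.mul hY hz
    rwa [mul_one] at this
  · rw [← mulF_assoc, hz2]

theorem cjF_memY {n : X} (hn : n ∈ Y) {c : X → F} (hc : CC f Y c) : cjF n c = c := by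
  funext h
  have := hc.inv _ (Y.inv_mem hn) h
  rw [inv_inv] at this
  exact this

end xfs

/-- XFS -/
theorem xfs : XfsStmt := by
  intro ℓ F _ hF X _ _ Y hY f hf
  refine ⟨mem_XF hY hf, XF_normal hY hf, le_XF hY hf, ?_, ?_, ?_, ?_⟩
  · intro g u u' h
    refine ⟨unit_symm hY hf h, unit_inv hY hf h, fun n hn => unit_congr hY hn h,
      fun x => unit_conj hY hf h x, fun v hv => unit_span hY hf h hv,
      fun c hc => unit_cj hf h hc, fun t v v' hv => unit_mul hY hf h hv⟩
  · intro g hg a a' ha ha'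
    exact lam_zero hY hf hF.closed hg ha ha'
  · intro n hn c hc
    exact cjF_memY hn hc
  · intro z c hz hc
    exact C1_comm hz hc

end Pool.Agent.PP.J74
end
end -- Pool.Agent.Helper74_PP.Xfs

section -- Pool.Agent.Helper74_PP.SupJ

/-!
# Squad PP, part J: SUPJ, central idempotents over `f` are supported on `X[f]`
-/

open scoped BigOperators Pointwise

set_option linter.unusedSectionVars false

noncomputable section

namespace Pool.Agent.PP.J74

open Pool.Agent.PP

/-! ### pigeonhole for products -/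

theorem pigeon {α G : Type} [Group G] [Finite G] (φ : α → G) (L : List α)
    (hL : Nat.card G ≤ L.length) : ∃ L1 L2 L3 : List α, L = L1 ++ (L2 ++ L3) ∧ L2 ≠ [] ∧
      (L2.map φ).prod = 1 := by
  have := Fintype.ofFinite G
  rw [Nat.card_eq_fintype_card] at hL
  obtain ⟨i, j, hij, h⟩ : ∃ i j : Fin (Fintype.card G + 1), i < j ∧
      ((L.take i).map φ).prod = ((L.take j).map φ).prod := by
    obtain ⟨i, j, hne, h⟩ := Fintype.exists_ne_map_eq_of_card_lt
      (fun i : Fin (Fintype.card G + 1) => ((L.take i).map φ).prod) (by simp)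
    rcases lt_or_gt_of_ne hne with h1 | h1
    · exact ⟨i, j, h1, h⟩
    · exact ⟨j, i, h1, h.symm⟩
  have hj : (j : ℕ) ≤ L.length := by omega
  have hij' : (i : ℕ) < j := hij
  refine ⟨L.take i, (L.drop i).take (j - i), L.drop j, ?_, ?_, ?_⟩
  · have h1 : (L.drop i).take (j - i) ++ L.drop j = L.drop i := by
      have h2 : L.drop j = (L.drop i).drop (j - i) := by
        rw [List.drop_drop]
        congr 1
        omega
      rw [h2, List.take_append_drop]
    rw [h1, List.take_append_drop]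
  · intro h0
    have := congrArg List.length h0
    rw [List.length_take, List.length_drop, List.length_nil] at this
    omega
  · have h1 : L.take j = L.take i ++ (L.drop i).take (j - i) := by
      have : (j : ℕ) = i + (j - i) := by omega
      conv_lhs => rw [this]
      rw [List.take_add]
    rw [h1, List.map_append, List.prod_append] at h
    exact (mul_eq_left.1 h.symm)

section sup

variable {F X : Type} [Field F] [Group X] [Finite X] {Y : Subgroup X} (hY : Y.Normal) {f : X → F}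
  (hf : SBlk Y f)

/-! ### the radical `J₁ C` is nil -/

theorem nil_add {A : Type} [Ring A] {z c b : A} {S : Subring A} (hz : ∀ d ∈ S, z * d = d * z)
    (hzS : z ∈ S) (hc : c ∈ S) (hb : b ∈ S) (hzn : IsNilpotent z) (hbn : IsNilpotent b) :
    IsNilpotent (z * c + b) := by
  have key : ∀ m : ℕ, ∃ d ∈ S, (z * c + b) ^ m = b ^ m + z * d := by
    intro m
    induction m with
    | zero => exact ⟨0, S.zero_mem, by simp⟩
    | succ m ih =>
      obtain ⟨d, hd, h⟩ := ih
      refine ⟨c * (b ^ m + z * d) + b * d, ?_, ?_⟩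
      · exact S.add_mem (S.mul_mem hc (S.add_mem (S.pow_mem hb m) (S.mul_mem hzS hd)))
          (S.mul_mem hb hd)
      · rw [pow_succ', h, pow_succ']
        have h1 : b * (z * d) = z * (b * d) := by rw [← mul_assoc, ← hz b hb, mul_assoc]
        rw [add_mul, mul_add b, h1, mul_add z]
        rw [mul_assoc z c]
        abel
  obtain ⟨m, hm⟩ := hbn
  obtain ⟨k, hk⟩ := hzn
  obtain ⟨d, hd, h⟩ := key m
  rw [hm, zero_add] at h
  refine ⟨m * k, ?_⟩
  have h2 : Commute z d := hz d hd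
  rw [pow_mul, h, h2.mul_pow, hk, zero_mul]

/-- the functions commuting with `Y` -/
def CY (F : Type) [Field F] (Y : Subgroup X) : Subalgebra F (MonoidAlgebra F X) :=
  Subalgebra.centralizer F (Set.range fun n : Y => MonoidAlgebra.single (n : X) (1 : F))

theorem mem_CY (u : X → F) : ma u ∈ CY F Y ↔ ∀ n ∈ Y, ∀ h, u (n * h * n⁻¹) = u h := by
  unfold CY
  rw [Subalgebra.mem_centralizer_iff]
  constructor
  · intro h n hn
    rw [comm_iff]
    exact h _ ⟨⟨n, hn⟩, rfl⟩
  · rintro h _ ⟨n, rfl⟩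
    exact (comm_iff _ u).1 (h n n.2)

theorem _root_.Pool.Agent.PP.CC.add {u v : X → F} (hu : CC f Y u) (hv : CC f Y v) :
    CC f Y (u + v) := by
  refine ⟨fun n hn h => ?_, ?_⟩
  · rw [Pi.add_apply, Pi.add_apply, hu.inv n hn, hv.inv n hn]
  · rw [mulF_add', hu.abs, hv.abs]

theorem _root_.Pool.Agent.PP.CC.smul (c : F) {u : X → F} (hu : CC f Y u) :
    CC f Y (c • u) := by
  refine ⟨fun n hn h => ?_, ?_⟩
  · rw [Pi.smul_apply, Pi.smul_apply, hu.inv n hn]
  · rw [mulF_smul', hu.abs]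

theorem CC_zero : CC f Y (0 : X → F) := by
  refine ⟨fun n _ h => rfl, ?_⟩
  apply ma_injective
  rw [ma_mul, ma_zero, mul_zero]

/-- the elements of `J₁ C` are nilpotent -/
theorem J1C_nil {w : X → F} (hw : w ∈ J1C f Y) : CC f Y w ∧ IsNilpotent (ma w) := by
  have key : CC f Y w ∧ ∀ b, CC f Y b → IsNilpotent (ma b) → IsNilpotent (ma (w + b)) := by
    unfold J1C at hw
    induction hw using Submodule.span_induction with
    | mem w h =>
      obtain ⟨z, c, hz, hn, hc, rfl⟩ := h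
      refine ⟨hz.cc.mul hc, fun b hb hbn => ?_⟩
      rw [ma_add, ma_mul]
      have hzn : IsNilpotent (ma z) := (nil_iff z).1 hn
      refine nil_add (S := (CY F Y).toSubring) ?_ ((mem_CY z).2 hz.inv) ((mem_CY c).2 hc.inv)
        ((mem_CY b).2 hb.inv) hzn hbn
      intro d hd
      obtain ⟨v, rfl⟩ := ma_surjective d
      rw [← ma_mul, ← ma_mul, comm_of_supp hz.supp1 ((mem_CY v).1 hd)]
    | zero => exact ⟨CC_zero, fun b _ hbn => by rwa [zero_add]⟩
    | add x y _ _ hx hy =>
      refine ⟨hx.1.add hy.1, fun b hb hbn => ?_⟩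
      rw [add_assoc]
      exact hx.2 _ (hy.1.add hb) (hy.2 b hb hbn)
    | smul a x _ hx =>
      refine ⟨hx.1.smul a, fun b hb hbn => ?_⟩
      by_cases ha : a = 0
      · rw [ha, zero_smul, zero_add]
        exact hbn
      · have e : a • x + b = a • (x + a⁻¹ • b) := by
          rw [smul_add, smul_smul, mul_inv_cancel₀ ha, one_smul]
        rw [e, ma_smul]
        refine IsNilpotent.smul (hx.2 _ (hb.smul a⁻¹) ?_) a
        rw [ma_smul]
        exact IsNilpotent.smul hbn _
  refine ⟨key.1, ?_⟩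
  have := key.2 0 CC_zero (by rw [ma_zero]; exact IsNilpotent.zero)
  rwa [add_zero] at this

/-! ### products over lists -/

/-- the product of a list of homogeneous elements -/
def lp (L : List (X × (X → F))) : MonoidAlgebra F X := (L.map fun p => ma p.2).prod

include hY hf in
theorem lp_CE (L : List (X × (X → F))) (hL : ∀ p ∈ L, CE f Y p.1 p.2) :
    ∃ u, CE f Y (L.map Prod.fst).prod u ∧ ma u = lp L * ma f := by
  induction L with
  | nil => exact ⟨f, f_CE hf, by rw [lp, List.map_nil, List.prod_nil, one_mul]⟩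
  | cons p L ih =>
    obtain ⟨u, hu, h⟩ := ih fun q hq => hL q (List.mem_cons_of_mem _ hq)
    refine ⟨mulF p.2 u, ?_, ?_⟩
    · rw [List.map_cons, List.prod_cons]
      exact (hL p List.mem_cons_self).mul hY hu
    · rw [ma_mul, h, lp, lp, List.map_cons, List.prod_cons, mul_assoc]

include hY hf in
/-- a long product of elements over cosets outside of `X[f]` is in `J₁ C` -/
theorem long_J1C (hF : IsAlgClosed F) (L : List (X × (X → F)))
    (hL : ∀ p ∈ L, p.1 ∉ XF f Y ∧ CE f Y p.1 p.2) (hlen : Nat.card (X ⧸ Y) ≤ L.length) :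
    ∃ w ∈ J1C f Y, lp L = ma w := by
  obtain ⟨L1, L2, L3, rfl, hne, hprod⟩ := pigeon (fun p : X × (X → F) => (p.1 : X ⧸ Y)) L hlen
  obtain ⟨p, L2', rfl⟩ := List.exists_cons_of_ne_nil hne
  have hp := hL p (by simp)
  obtain ⟨a', ha', e'⟩ := lp_CE hY hf L2' fun q hq => (hL q (by simp [hq])).2
  obtain ⟨uA, hA, eA⟩ := lp_CE hY hf L1 fun q hq => (hL q (by simp [hq])).2
  obtain ⟨uB, hB, eB⟩ := lp_CE hY hf L3 fun q hq => (hL q (by simp [hq])).2
  -- `a'` is over `p.1⁻¹`
  have h1 : p.1 * (L2'.map Prod.fst).prod ∈ Y := by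
    have h2 : ((p.1 * (L2'.map Prod.fst).prod : X) : X ⧸ Y) = 1 := by
      rw [List.map_cons, List.prod_cons] at hprod
      rw [QuotientGroup.mk_mul, ← hprod]
      congr 1
      change (QuotientGroup.mk' Y) _ = _
      rw [map_list_prod, List.map_map]
      rfl
    rwa [QuotientGroup.eq_one_iff] at h2
  have ha1 : CE f Y p.1⁻¹ a' := by
    have h3 : p.1⁻¹ * (p.1 * (L2'.map Prod.fst).prod)⁻¹ * p.1⁻¹⁻¹ ∈ Y :=
      hY.conj_mem _ (Y.inv_mem h1) _
    have h4 : (L2'.map Prod.fst).prod⁻¹ * p.1⁻¹ ∈ Y := by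
      have e : (p.1 * (L2'.map Prod.fst).prod)⁻¹ = (L2'.map Prod.fst).prod⁻¹ * p.1⁻¹ := by group
      rw [← e]
      exact Y.inv_mem h1
    have h5 := ha'.congr_mem h4
    rwa [mul_inv_cancel_left] at h5
  obtain ⟨hz, hlam⟩ := lam_zero hY hf hF hp.1 hp.2 ha1
  have hzn : ∃ n : ℕ, (mulF (mulF p.2 a'))^[n] (mulF p.2 a') = 0 := by
    have := isRes_lam hF hf hz
    rw [hlam] at this
    unfold IsRes at this
    rwa [zero_smul, sub_zero] at this
  refine ⟨mulF (mulF p.2 a') (mulF uA uB), Submodule.subset_span ⟨_, _, hz, hzn, hA.cc.mul hB.cc,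
    rfl⟩, ?_⟩
  have hc : mulF (mulF p.2 a') uA = mulF uA (mulF p.2 a') := C1_comm hz hA.cc
  have hfc : ∀ x : MonoidAlgebra F X, x * ma f = ma f * x := by
    intro x
    obtain ⟨v, rfl⟩ := ma_surjective x
    rw [← ma_mul, ← ma_mul, f_comm hf]
  have hff : ma f * ma f = ma f := by rw [← ma_mul, f_idem hf]
  have hpf : ma p.2 * ma f = ma p.2 := by rw [← ma_mul, abs_right hf hp.2.abs]
  rw [← mulF_assoc, hc, mulF_assoc, ma_mul, ma_mul, ma_mul, e', eA, eB]
  have e0 : lp (L1 ++ (p :: L2' ++ L3)) = lp L1 * (ma p.2 * lp L2' * lp L3) := by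
    simp [lp, mul_assoc]
  rw [e0]
  calc lp L1 * (ma p.2 * lp L2' * lp L3)
      = lp L1 * (ma p.2 * ma f * lp L2' * lp L3) := by rw [hpf]
    _ = lp L1 * (ma p.2 * (ma f * lp L2') * lp L3) := by simp only [mul_assoc]
    _ = lp L1 * (ma p.2 * (lp L2' * ma f) * lp L3) := by rw [hfc]
    _ = lp L1 * (ma p.2 * (lp L2' * (ma f * (ma f * ma f))) * lp L3) := by rw [hff, hff]
    _ = lp L1 * (ma p.2 * ((lp L2' * ma f) * ma f) * (ma f * lp L3)) := by simp only [mul_assoc]
    _ = lp L1 * (ma p.2 * (ma f * (lp L2' * ma f)) * (lp L3 * ma f)) := by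
        rw [hfc (lp L2' * ma f), hfc (lp L3)]
    _ = lp L1 * ((ma p.2 * ma f) * (lp L2' * ma f) * (lp L3 * ma f)) := by
        simp only [mul_assoc]
    _ = lp L1 * ((ma f * ma p.2) * (lp L2' * ma f) * (lp L3 * ma f)) := by rw [hfc]
    _ = lp L1 * ma f * (ma p.2 * (lp L2' * ma f) * (lp L3 * ma f)) := by simp only [mul_assoc]

/-! ### cutting -/

theorem cut_of_mem {S : Set X} (u : X → F) {h : X} (hh : h ∈ S) : cut S u h = u h := by
  unfold cut
  rw [if_pos hh]

theorem cut_of_not_mem {S : Set X} (u : X → F) {h : X} (hh : h ∉ S) : cut S u h = 0 := by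
  unfold cut
  rw [if_neg hh]

theorem mulF_cut {S : Set X} (hf : ∀ h, h ∉ Y → f h = 0)
    (hS : ∀ t ∈ Y, ∀ x, t⁻¹ * x ∈ S ↔ x ∈ S) (u : X → F) :
    mulF f (cut S u) = cut S (mulF f u) := by
  classical
  funext x
  have := Fintype.ofFinite X
  by_cases hx : x ∈ S
  · rw [cut_of_mem (mulF f u) hx]
    unfold mulF
    rw [finsum_eq_sum_of_fintype, finsum_eq_sum_of_fintype]
    apply Finset.sum_congr rfl
    intro t _
    by_cases ht : t ∈ Y
    · rw [cut_of_mem u ((hS t ht x).2 hx)]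
    · rw [hf t ht, zero_mul, zero_mul]
  · rw [cut_of_not_mem (mulF f u) hx]
    unfold mulF
    rw [finsum_eq_sum_of_fintype]
    apply Finset.sum_eq_zero
    intro t _
    by_cases ht : t ∈ Y
    · rw [cut_of_not_mem u (fun h => hx ((hS t ht x).1 h)), mul_zero]
    · rw [hf t ht, zero_mul]

theorem cut_add_compl (S : Set X) (u : X → F) : cut S u + cut Sᶜ u = u := by
  funext h
  rw [Pi.add_apply]
  by_cases hh : h ∈ S
  · rw [cut_of_mem u hh, cut_of_not_mem (S := Sᶜ) u (fun h' => h' hh), add_zero]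
  · rw [cut_of_not_mem u hh, cut_of_mem (S := Sᶜ) u hh, zero_add]

theorem cut_cl {S : Set X} (hS : ∀ x y, y * x * y⁻¹ ∈ S ↔ x ∈ S) {u : X → F} (hu : IsCl u) :
    IsCl (cut S u) := by
  intro x y
  by_cases hx : x ∈ S
  · rw [cut_of_mem u hx, cut_of_mem u ((hS x y).2 hx), hu]
  · rw [cut_of_not_mem u hx, cut_of_not_mem u (fun h => hx ((hS x y).1 h))]

/-- the set of the elements over the cosets outside of `X[f]` -/
def GS (f : X → F) (Y : Subgroup X) : Set (MonoidAlgebra F X) :=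
  {x | ∃ g u, g ∉ XF f Y ∧ CE f Y g u ∧ x = ma u}

include hY hf in
theorem nil_outside (hF : IsAlgClosed F) {t : X → F} (ht : ma t ∈ Submodule.span F (GS f Y)) :
    IsNilpotent (ma t) := by
  have h1 : ma t ^ Nat.card (X ⧸ Y) ∈ Submodule.span F (GS f Y ^ Nat.card (X ⧸ Y)) := by
    rw [← Submodule.span_pow]
    exact Submodule.pow_mem_pow _ ht _
  have h2 : ∃ w ∈ J1C f Y, ma t ^ Nat.card (X ⧸ Y) = ma w := by
    generalize ma t ^ Nat.card (X ⧸ Y) = y at h1
    induction h1 using Submodule.span_induction with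
    | mem x hx =>
      rw [Set.mem_pow] at hx
      obtain ⟨g, rfl⟩ := hx
      have hg : ∀ i, ∃ p : X × (X → F), p.1 ∉ XF f Y ∧ CE f Y p.1 p.2 ∧
          (g i : MonoidAlgebra F X) = ma p.2 := by
        intro i
        obtain ⟨x, u, h1, h2, h3⟩ := (g i).2
        exact ⟨(x, u), h1, h2, h3⟩
      choose p hp1 hp2 hp3 using hg
      obtain ⟨w, hw, e⟩ := long_J1C hY hf hF (List.ofFn p) (by
        intro q hq
        rw [List.mem_ofFn] at hq
        obtain ⟨i, rfl⟩ := hq
        exact ⟨hp1 i, hp2 i⟩) (by rw [List.length_ofFn])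
      refine ⟨w, hw, ?_⟩
      rw [← e, lp, List.map_ofFn]
      congr 2
      funext i
      exact hp3 i
    | zero => exact ⟨0, (J1C f Y).zero_mem, ma_zero.symm⟩
    | add x y _ _ hx hy =>
      obtain ⟨u, hu, rfl⟩ := hx
      obtain ⟨v, hv, rfl⟩ := hy
      exact ⟨u + v, (J1C f Y).add_mem hu hv, (ma_add u v).symm⟩
    | smul c x _ hx =>
      obtain ⟨u, hu, rfl⟩ := hx
      exact ⟨c • u, (J1C f Y).smul_mem c hu, (ma_smul c u).symm⟩
  obtain ⟨w, hw, e⟩ := h2
  obtain ⟨n, hn⟩ := (J1C_nil hw).2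
  refine ⟨Nat.card (X ⧸ Y) * n, ?_⟩
  rw [pow_mul, e, hn]

include hY hf in
theorem outside_mem {t : X → F} (ht : CC f Y t) (hK : ∀ h ∈ XF f Y, t h = 0) :
    ma t ∈ Submodule.span F (GS f Y) := by
  classical
  have := Fintype.ofFinite (X ⧸ Y)
  have e : t = ∑ q : X ⧸ Y, cut {h : X | (h : X ⧸ Y) = q} t := by
    funext h
    rw [Finset.sum_apply, Finset.sum_eq_single (h : X ⧸ Y)]
    · rw [cut_of_mem (S := {h' : X | (h' : X ⧸ Y) = (h : X ⧸ Y)}) t rfl]
    · intro b _ hb
      exact cut_of_not_mem t fun h' => hb h'.symm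
    · intro h'
      exact absurd (Finset.mem_univ _) h'
  rw [e, ma_sum]
  refine Submodule.sum_mem _ fun q _ => ?_
  obtain ⟨g, rfl⟩ := QuotientGroup.mk_surjective q
  have hmem : ∀ h : X, (h : X ⧸ Y) = (g : X ⧸ Y) ↔ g⁻¹ * h ∈ Y := by
    intro h
    rw [eq_comm, QuotientGroup.eq]
  by_cases hg : g ∈ XF f Y
  · have h0 : cut {h : X | (h : X ⧸ Y) = (g : X ⧸ Y)} t = 0 := by
      funext h
      by_cases hh : (h : X ⧸ Y) = (g : X ⧸ Y)
      · rw [cut_of_mem (S := {h' : X | (h' : X ⧸ Y) = (g : X ⧸ Y)}) t hh]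
        apply hK
        have h1 := (XF f Y).mul_mem hg (le_XF hY hf ((hmem h).1 hh))
        rwa [mul_inv_cancel_left] at h1
      · exact cut_of_not_mem t hh
    rw [h0, ma_zero]
    exact Submodule.zero_mem _
  · refine Submodule.subset_span ⟨g, _, hg, ⟨?_, ?_, ?_⟩, rfl⟩
    · intro h hh
      exact cut_of_not_mem t fun h' => hh ((hmem h).1 h')
    · intro n hn h
      have h1 : ((n * h * n⁻¹ : X) : X ⧸ Y) = (h : X ⧸ Y) := by
        have hn1 : ((n : X) : X ⧸ Y) = 1 := (QuotientGroup.eq_one_iff n).2 hn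
        rw [QuotientGroup.mk_mul, QuotientGroup.mk_mul, QuotientGroup.mk_inv, hn1]
        simp
      by_cases hh : (h : X ⧸ Y) = (g : X ⧸ Y)
      · rw [cut_of_mem (S := {h' : X | (h' : X ⧸ Y) = (g : X ⧸ Y)}) t hh,
          cut_of_mem (S := {h' : X | (h' : X ⧸ Y) = (g : X ⧸ Y)}) t (h1.trans hh), ht.inv n hn]
      · rw [cut_of_not_mem (S := {h' : X | (h' : X ⧸ Y) = (g : X ⧸ Y)}) (h := h) t hh,
          cut_of_not_mem (S := {h' : X | (h' : X ⧸ Y) = (g : X ⧸ Y)}) t
            (fun h' => hh (h1.symm.trans h'))]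
    · rw [mulF_cut hf.supp _ t, ht.abs]
      intro n hn x
      have hn1 : ((n : X) : X ⧸ Y) = 1 := (QuotientGroup.eq_one_iff n).2 hn
      change ((n⁻¹ * x : X) : X ⧸ Y) = _ ↔ _
      rw [QuotientGroup.mk_mul, QuotientGroup.mk_inv, hn1]
      simp

end sup

/-- powers of elements supported on a subgroup -/
theorem pow_supp {F X : Type} [Field F] [Group X] [Finite X] {K : Subgroup X} {s : X → F}
    (hs : ∀ h, h ∉ K → s h = 0) (n : ℕ) : ∃ v : X → F, (∀ h, h ∉ K → v h = 0) ∧
      ma s ^ (n + 1) = ma v := by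
  induction n with
  | zero => exact ⟨s, hs, by simp⟩
  | succ n ih =>
    obtain ⟨v, hv, e⟩ := ih
    exact ⟨mulF v s, mulF_suppY hv hs, by rw [pow_succ, e, ma_mul]⟩

/-- SUPJ -/
theorem supJ : SupJStmt := by
  intro ℓ F _ hF X _ _ Y hY f hf e he hef h hh
  have hKn := XF_normal hY hf
  have hYK := le_XF hY hf
  have hfe : mulF f e = e := by rw [f_comm hf, hef]
  have hKc : ∀ x y : X, y * x * y⁻¹ ∈ (XF f Y : Set X) ↔ x ∈ (XF f Y : Set X) := by
    intro x y
    constructor
    · intro h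
      have := hKn.conj_mem _ h y⁻¹
      have e : y⁻¹ * (y * x * y⁻¹) * y⁻¹⁻¹ = x := by group
      rwa [e] at this
    · intro h
      exact hKn.conj_mem _ h y
  have hKS : ∀ t ∈ Y, ∀ x, t⁻¹ * x ∈ (XF f Y : Set X) ↔ x ∈ (XF f Y : Set X) := by
    intro t ht x
    exact (XF f Y).mul_mem_cancel_left ((XF f Y).inv_mem (hYK ht))
  set s := cut (XF f Y : Set X) e with hs
  set t := cut (XF f Y : Set X)ᶜ e with ht
  have hst : s + t = e := cut_add_compl _ e
  have hscl : IsCl s := cut_cl hKc he.1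
  have htcl : IsCl t := cut_cl (fun x y => not_congr (hKc x y)) he.1
  have htC : CC f Y t := by
    refine ⟨fun n _ h => htcl h n, ?_⟩
    rw [ht, mulF_cut hf.supp (fun n hn x => not_congr (hKS n hn x)), hfe]
  have htn : IsNilpotent (ma t) := by
    refine nil_outside hY hf hF.closed (outside_mem hY hf htC ?_)
    intro x hx
    exact cut_of_not_mem e fun h' => h' hx
  have hchF := hF.char
  have hpr : Fact ℓ.Prime := ⟨hF.prime⟩
  have hcm : Commute (ma s) (ma t) := by
    have := (isCl_iff t).1 htcl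
    rw [Subalgebra.mem_center_iff] at this
    exact this (ma s)
  have hch : CharP (MonoidAlgebra F X) ℓ :=
    charP_of_injective_algebraMap (algebraMap F (MonoidAlgebra F X)).injective ℓ
  obtain ⟨n, hn⟩ := htn
  have hpow : ∀ k : ℕ, ma e ^ (k + 1) = ma e := by
    intro k
    induction k with
    | zero => simp
    | succ k ih => rw [pow_succ, ih, ← ma_mul, he.2]
  have h1 : ma e = ma s ^ ℓ ^ n := by
    have h2 : ma e ^ ℓ ^ n = ma e := by
      obtain ⟨k, hk⟩ := Nat.exists_eq_succ_of_ne_zero (pow_pos hF.prime.pos n).ne'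
      rw [hk]
      exact hpow k
    rw [← h2, ← hst, ma_add, add_pow_char_pow_of_commute _ _ hcm]
    have h3 : ma t ^ ℓ ^ n = 0 := by
      have h4 : n ≤ ℓ ^ n := (Nat.lt_pow_self hF.prime.one_lt).le
      obtain ⟨k, hk⟩ := Nat.exists_eq_add_of_le h4
      rw [hk, pow_add, hn, zero_mul]
    rw [h3, add_zero]
  obtain ⟨k, hk⟩ := Nat.exists_eq_succ_of_ne_zero (pow_pos hF.prime.pos n).ne'
  rw [hk] at h1
  obtain ⟨v, hv, e2⟩ := pow_supp (K := XF f Y) (s := s) (fun x hx => cut_of_not_mem e hx) k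
  rw [e2] at h1
  rw [ma_injective h1]
  exact hv h hh

end Pool.Agent.PP.J74
end
end -- Pool.Agent.Helper74_PP.SupJ

section -- Pool.Agent.Helper62_PP.Inn

/-!
# Squad PP, part J: INN (J4.1), units are local
-/

open scoped BigOperators

set_option linter.unusedSectionVars false

noncomputable section

namespace Pool.Agent.PP.H62

open Pool.Agent.PP Pool.Agent.PP.H20

section inn

variable {ℓ : ℕ} {F X : Type} [Field F] [Group X] [Finite X] {Y R S : Subgroup X} {f : X → F}

/-- the coset of a unit meets the centraliser of `R` -/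
theorem meets (hF : GoodF ℓ F) (hL : Loc ℓ Y R S) (hne : br R f ≠ 0) {g : X}
    {u u' : X → F} (hu : IsUnitOver f Y g u u') :
    ∃ n ∈ Y, g * n ∈ Subgroup.centralizer (R : Set X) := by
  classical
  have h1 : mulF (br R u) (br R u') = br R f := by
    rw [← br_mulF_Y hF hL hu.left.inv hu.right.inv, hu.mul]
  have h2 : br R u ≠ 0 := by
    intro h
    apply hne
    rw [← h1, h]
    apply toMA_injective
    rw [toMA_mulF, toMA_zero, zero_mul]
  obtain ⟨h, hh⟩ := Function.ne_iff.1 h2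
  have h3 : h ∈ Subgroup.centralizer (R : Set X) := by
    by_contra hc
    apply hh
    simp only [br, if_neg hc]
    rfl
  have h4 : g⁻¹ * h ∈ Y := by
    by_contra hc
    apply hh
    simp only [br, if_pos h3]
    exact hu.left.supp h hc
  exact ⟨g⁻¹ * h, h4, by rwa [mul_inv_cancel_left]⟩

/-- the characters of `Y ∩ S` in the block are invariant -/
theorem inv_IBr (hF : GoodF ℓ F) (hf : SBlk Y f) (hY : Y.Normal) (hL : Loc ℓ Y R S) {j : X}
    (hj : j ∈ Subgroup.centralizer (R : Set X)) {v v' : X → F} (hv : IsUnitOver f Y j v v')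
    {φ : ↥(Y ⊓ S) → F} (hφ : φ ∈ IBr F ↥(Y ⊓ S))
    (hact : actF (fun t : ↥(Y ⊓ S) => f t) φ = φ) (n n' : ↥(Y ⊓ S))
    (hn : (n' : X) = j * n * j⁻¹) : φ n' = φ n := by
  obtain ⟨k, ρ, hρ, rfl⟩ := hφ
  have hone : ev ρ (fun t : ↥(Y ⊓ S) => br R f t) = 1 := ev_br_one hF hf hL hρ hact
  have hUD := unit_UD hF hf hY hL hj hv
  have hU := UD_unit hUD hone
  have hc := UD_cj hUD ρ n n' hn
  obtain ⟨r, hr⟩ := hU
  rw [← hr] at hc
  have h1 : ρ n' = (r : Matrix (Fin k) (Fin k) F) * ρ n * ((r⁻¹ : (Matrix (Fin k) (Fin k) F)ˣ) :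
      Matrix (Fin k) (Fin k) F) := by
    rw [hc, mul_assoc, Units.mul_inv, mul_one]
  change (ρ n').trace = (ρ n).trace
  rw [h1, Matrix.trace_mul_comm, ← mul_assoc, Units.inv_mul, one_mul]

end inn

/-- INN -/
theorem inn : InnStmt := by
  intro ℓ F _ hF X _ _ Y hY f hf R S hL hne
  have hmeet : ∀ g ∈ XF f Y, ∃ n ∈ Y, g * n ∈ Subgroup.centralizer (R : Set X) := by
    intro g hg
    obtain ⟨u, u', hu⟩ := (J74.mem_XF hY hf g).1 hg
    exact meets hF hL hne hu
  refine ⟨hmeet, ?_, ?_⟩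
  · intro M hYM hM
    have h1 : M ⊓ S ⊔ Y = M := by
      apply le_antisymm
      · exact sup_le inf_le_left hYM
      · intro g hg
        obtain ⟨n, hn, hgn⟩ := hmeet g (hM hg)
        have h2 : g * n ∈ M ⊓ S := ⟨M.mul_mem hg (hYM hn), hL.cent hgn⟩
        have h3 := Subgroup.mul_mem_sup h2 (Y.inv_mem hn)
        rwa [mul_inv_cancel_right] at h3
    have h2 : Y.relIndex M = Y.relIndex (M ⊓ S) := by
      conv_lhs => rw [← h1]
      exact Subgroup.relIndex_sup_right _ _
    have h3 : Nat.card ↥(M ⊓ S) = Y.relIndex (M ⊓ S) * Nat.card ↥(Y ⊓ (M ⊓ S)) := by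
      rw [← Subgroup.inf_relIndex_right Y (M ⊓ S)]
      have h4 := Subgroup.card_mul_index ((Y ⊓ (M ⊓ S)).subgroupOf (M ⊓ S))
      rw [mul_comm] at h4
      rw [← h4]
      congr 1
      exact Nat.card_congr (Subgroup.subgroupOfEquivOfLe inf_le_right).toEquiv
    have h4 : Y ⊓ (M ⊓ S) = Y ⊓ S := by
      rw [← inf_assoc, inf_eq_left.2 hYM]
    rw [h3, h4, h2]
  · intro φ hφ hact g hg hgS n n' hn
    obtain ⟨m, hm, hgm⟩ := hmeet g hg
    have hmS : m ∈ S := by
      have := S.mul_mem (S.inv_mem hgS) (hL.cent hgm)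
      rwa [inv_mul_cancel_left] at this
    have hgmX : g * m ∈ XF f Y := (XF f Y).mul_mem hg (J74.le_XF hY hf hm)
    obtain ⟨v, v', hv⟩ := (J74.mem_XF hY hf (g * m)).1 hgmX
    obtain ⟨m0, hm0⟩ : ∃ m0 : ↥(Y ⊓ S), (m0 : X) = m := ⟨⟨m, hm, hmS⟩, rfl⟩
    have h1 := inv_IBr hF hf hY hL hgm hv hφ hact (m0⁻¹ * n * m0) n' (by
      rw [hn]
      push_cast
      rw [hm0]
      group)
    rw [h1]
    obtain ⟨k, ρ, -, rfl⟩ := hφ
    change (ρ (m0⁻¹ * n * m0)).trace = (ρ n).trace
    rw [map_mul, map_mul, Matrix.trace_mul_comm, ← mul_assoc, ← map_mul, mul_inv_cancel, map_one,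
      one_mul]

end Pool.Agent.PP.H62
end
end -- Pool.Agent.Helper62_PP.Inn
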