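import Pool.Agent.Helper12_AWB.B050
import Pool.Agent.Helper12_AWB.B087

/-!
# Merged copies (generated) of the modules

* `Pool.Agent.Helper58_PP.Kap`
* `Pool.Agent.Helper58_PP.Exh`
* `Pool.Agent.Helper58_PP.Chr`
-/

set_option autoImplicit false

section -- Pool.Agent.Helper58_PP.Kap

/-!
TFA (AWC_J, J5), part 1: the irreducible representations `ρ * W` of `M ∩ S`.
-/

open scoped BigOperators

set_option linter.unusedSectionVars false

noncomputable section

namespace Pool.Agent.PP.H58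

open Pool.Agent.PP Pool.Agent.PP.H20

/-! ### restriction along an injective homomorphism -/

section comp

variable {F X L : Type} [Field F] [Group X] [Finite X] [Group L] [Finite L] (ι : L →* X)

theorem comp_mul (hι : Function.Injective ι) {a : X → F} (ha : ∀ t, t ∉ ι.range → a t = 0)
    (b : X → F) :
    (fun t => mulF a b (ι t)) = mulF (fun t => a (ι t)) (fun t => b (ι t)) := by
  have hfin := Fintype.ofFinite X
  have hfinL := Fintype.ofFinite L
  funext x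
  unfold mulF
  rw [finsum_eq_sum_of_fintype, finsum_eq_sum_of_fintype]
  symm
  apply Fintype.sum_of_injective (fun t : L => ι t) hι
  · intro t ht
    have h3 : t ∉ ι.range := fun ⟨s, hs⟩ => ht ⟨s, hs⟩
    rw [ha t h3, zero_mul]
  · intro t
    show a (ι t) * b (ι (t⁻¹ * x)) = a (ι t) * b ((ι t)⁻¹ * ι x)
    rw [map_mul, map_inv]

theorem comp_ev_mul (hι : Function.Injective ι) {n : ℕ} (ψ : L →* Matrix (Fin n) (Fin n) F)
    {a : X → F} (ha : ∀ t, t ∉ ι.range → a t = 0) (b : X → F) :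
    ev ψ (fun t => mulF a b (ι t)) = ev ψ (fun t => a (ι t)) * ev ψ (fun t => b (ι t)) := by
  rw [comp_mul ι hι ha, Pool.Agent.PP.ev_mulF]

/-- class functions act like their restrictions to the centraliser -/
theorem comp_br {ℓ : ℕ} (hF : GoodF ℓ F) (hι : Function.Injective ι) {R : Subgroup X}
    (hp : IsPGroup ℓ R) (hR : R ≤ ι.range) (hN : ∀ t, ι t ∈ Subgroup.normalizer (R : Set X)) {n : ℕ}
    {ψ : L →* Matrix (Fin n) (Fin n) F} (hψ : IsIrr ψ) {a : X → F}
    (ha : ∀ s t : L, a (ι s * ι t * (ι s)⁻¹) = a (ι t)) :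
    ev ψ (fun t => a (ι t)) = ev ψ (fun t => br R a (ι t)) := by
  classical
  have hnorm : (R.comap ι).Normal := by
    refine ⟨fun r hr g => ?_⟩
    rw [Subgroup.mem_comap] at hr ⊢
    rw [map_mul, map_mul, map_inv]
    exact (Subgroup.mem_normalizer_iff.1 (hN g) _).1 hr
  have hcl : IsCl (fun t => a (ι t)) := by
    intro s t
    show a (ι (t * s * t⁻¹)) = a (ι s)
    rw [map_mul, map_mul, map_inv, ha]
  have h2 := ((nls ℓ F hF L (R.comap ι) hnorm (hp.comap_of_injective ι hι) n ψ hψ).2 _ hcl).1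
  rw [h2]
  congr 1
  funext t
  have hiff : t ∈ Subgroup.centralizer ((R.comap ι : Subgroup L) : Set L) ↔
      ι t ∈ Subgroup.centralizer (R : Set X) := by
    rw [Subgroup.mem_centralizer_iff, Subgroup.mem_centralizer_iff]
    constructor
    · intro h r hr
      obtain ⟨s, rfl⟩ := hR hr
      rw [← map_mul, ← map_mul, h s hr]
    · intro h r hr
      apply hι
      rw [map_mul, map_mul]
      exact h _ hr
  by_cases ht : ι t ∈ Subgroup.centralizer (R : Set X)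
  · simp only [br, if_pos ht, if_pos (hiff.2 ht)]
  · simp only [br, if_neg ht, if_neg (fun hc => ht (hiff.1 hc))]

theorem ev_lt {n : ℕ} (ψ : L →* Matrix (Fin n) (Fin n) F) (a : X → F) (g : L) :
    ev ψ (fun t => lt (ι g) a (ι t)) = ψ g * ev ψ (fun t => a (ι t)) := by
  have hfinL := Fintype.ofFinite L
  rw [ev, ev, finsum_eq_sum_of_fintype, finsum_eq_sum_of_fintype, Finset.mul_sum]
  symm
  apply Fintype.sum_equiv (Equiv.mulLeft g)
  intro t
  show ψ g * (a (ι t) • ψ t) = a ((ι g)⁻¹ * ι (g * t)) • ψ (g * t)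
  rw [map_mul, map_mul, inv_mul_cancel_left, Matrix.mul_smul]

theorem ev_rt {n : ℕ} (ψ : L →* Matrix (Fin n) (Fin n) F) (a : X → F) (g : L) :
    ev ψ (fun t => rt (ι g) a (ι t)) = ev ψ (fun t => a (ι t)) * ψ g := by
  have hfinL := Fintype.ofFinite L
  rw [ev, ev, finsum_eq_sum_of_fintype, finsum_eq_sum_of_fintype, Finset.sum_mul]
  symm
  apply Fintype.sum_equiv (Equiv.mulRight g)
  intro t
  show (a (ι t) • ψ t) * ψ g = a (ι (t * g) * (ι g)⁻¹) • ψ (t * g)
  rw [map_mul, map_mul, mul_inv_cancel_right, Matrix.smul_mul]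

end comp

/-! ### the units and the group elements -/

section unit

variable {F X : Type} [Field F] [Group X] [Finite X] {ℓ : ℕ} {Y R S : Subgroup X} {f : X → F}

theorem sg_inv_mul (g : X) : (sg g⁻¹ * sg g : MonoidAlgebra F X) = 1 := by
  rw [sg_mul, inv_mul_cancel, sg_one]

theorem sg_mul_inv (g : X) : (sg g * sg g⁻¹ : MonoidAlgebra F X) = 1 := by
  rw [sg_mul, mul_inv_cancel, sg_one]

theorem rt_supp (hY : Y.Normal) (hL : Loc ℓ Y R S) {g : X} (hg : g ∈ S) {u' : X → F}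
    (hu : CE f Y g⁻¹ u') : ∀ t, t ∉ Y ⊓ S → rt g (br R u') t = 0 := by
  intro t ht
  classical
  show br R u' (t * g⁻¹) = 0
  by_cases h1 : t * g⁻¹ ∈ Subgroup.centralizer (R : Set X)
  · have h2 : t ∈ S := by
      have := S.mul_mem (hL.cent h1) hg
      rwa [inv_mul_cancel_right] at this
    have h3 : t ∉ Y := fun hc => ht ⟨hc, h2⟩
    simp only [br, if_pos h1]
    apply hu.supp
    intro hc
    apply h3
    have := hY.conj_mem _ hc g⁻¹
    have e : g⁻¹ * (g⁻¹⁻¹ * (t * g⁻¹)) * g⁻¹⁻¹ = t := by group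
    rwa [e] at this
  · simp only [br, if_neg h1]

/-- `g u' = u' g` -/
theorem lt_eq_rt {g : X} {a : X → F} (h : cjF g a = a) : lt g a = rt g a := by
  funext t
  show a (g⁻¹ * t) = a (t * g⁻¹)
  have h1 := congrFun h (t * g⁻¹)
  have h2 : a (g⁻¹ * (t * g⁻¹) * g) = a (t * g⁻¹) := h1
  rw [← h2]
  congr 1
  group

theorem br_cj_unit (hf : SBlk Y f) (hY : Y.Normal) (hL : Loc ℓ Y R S) {g : X} (hg : g ∈ S)
    {u u' : X → F} (hu : IsUnitOver f Y g u u') : cjF g (br R u) = br R u ∧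
      cjF g (br R u') = br R u' := by
  have h1 := unit_cj hf hY hu
  constructor
  · rw [← br_cj (hL.norm hg), h1.1]
  · rw [← br_cj (hL.norm hg), h1.2]

theorem rt_mul (hF : GoodF ℓ F) (hY : Y.Normal) (hL : Loc ℓ Y R S)
    {g h : X} (hg : g ∈ S) {u u' v v' : X → F} (hu : IsUnitOver f Y g u u')
    (hv : IsUnitOver f Y h v v') :
    rt (g * h) (br R (mulF v' u')) = mulF (rt g (br R u')) (rt h (br R v')) := by
  have hc : mulF (rt g (br R u')) (br R v') = mulF (br R v') (rt g (br R u')) :=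
    comm_of_inv (Y ⊓ S) (rt_supp hY hL hg hu.right) (br_inv hL hv.right.inv)
  have hc' := congrArg toMA hc
  rw [toMA_mulF, toMA_mulF, toMA_rt] at hc'
  rw [br_mulF_Y hF hL hv.right.inv hu.right.inv]
  apply toMA_injective
  rw [toMA_rt, toMA_mulF, toMA_mulF, toMA_rt, toMA_rt, ← sg_mul]
  calc toMA (br R v') * toMA (br R u') * (sg g * sg h) =
      toMA (br R v') * (toMA (br R u') * sg g) * sg h := by simp only [mul_assoc]
    _ = _ := by rw [← hc']; simp only [mul_assoc]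

/-- conjugation by `g` on `C` is conjugation by the unit over `g` -/
theorem cj_unit (hf : SBlk Y f) (hY : Y.Normal) {g : X} {u u' : X → F}
    (hu : IsUnitOver f Y g u u') {c : X → F} (hc : CC f Y c) :
    mulF u c = mulF (cjF g c) u := by
  have hs : ∀ t, t ∉ Y → rt g u' t = 0 := by
    intro t ht
    apply hu.right.supp
    intro hc
    apply ht
    have := hY.conj_mem _ hc g⁻¹
    have e : g⁻¹ * (g⁻¹⁻¹ * (t * g⁻¹)) * g⁻¹⁻¹ = t := by group
    rwa [e] at this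
  have h1 : mulF (rt g u') c = mulF c (rt g u') := comm_of_inv Y hs hc.inv
  have h1' := congrArg toMA h1
  rw [toMA_mulF, toMA_mulF, toMA_rt] at h1'
  have hfc : ∀ z : MonoidAlgebra F X, toMA f * z = z * toMA f := (H20.isCl_iff f).1 hf.cl
  have h2 : toMA f = toMA u * toMA u' := by rw [← toMA_mulF, hu.mul]
  have h2' : toMA f = toMA u' * toMA u := by rw [← toMA_mulF, unit_symm hf hY hu]
  have hfu : toMA f * toMA u = toMA u := by rw [← toMA_mulF, hu.left.abs]
  have hfcc : toMA f * toMA c = toMA c := by rw [← toMA_mulF, hc.abs]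
  -- `u c u' g = g c`
  have h3 : toMA u * toMA c * (toMA u' * sg g) = sg g * toMA c := by
    calc toMA u * toMA c * (toMA u' * sg g) = toMA u * (toMA c * (toMA u' * sg g)) := by
          simp only [mul_assoc]
      _ = toMA u * toMA u' * sg g * toMA c := by rw [← h1']; simp only [mul_assoc]
      _ = toMA f * (sg g * toMA c) := by rw [← h2]; simp only [mul_assoc]
      _ = sg g * toMA c := by rw [hfc, mul_assoc, ← hfc, hfcc]
  have h4 : toMA u * toMA c * toMA u' = sg g * toMA c * sg g⁻¹ := by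
    rw [← h3]
    calc toMA u * toMA c * toMA u' = toMA u * toMA c * toMA u' * (sg g * sg g⁻¹) := by
          rw [sg_mul_inv, mul_one]
      _ = _ := by simp only [mul_assoc]
  apply toMA_injective
  rw [toMA_mulF, toMA_mulF, toMA_cjF, ← h4]
  calc toMA u * toMA c = toMA u * (toMA f * toMA c) := by rw [hfcc]
    _ = toMA u * (toMA c * toMA f) := by rw [hfc]
    _ = _ := by rw [h2']; simp only [mul_assoc]

/-- the value `ρ(Br(u') g)` -/
def EM (Y S R : Subgroup X) {n : ℕ} (ρ : ↥(Y ⊓ S) →* Matrix (Fin n) (Fin n) F) (g : X)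
    (u' : X → F) : Matrix (Fin n) (Fin n) F := ev ρ (fun t : ↥(Y ⊓ S) => rt g (br R u') t)

variable {n : ℕ} {ρ : ↥(Y ⊓ S) →* Matrix (Fin n) (Fin n) F}

theorem EM_mul (hF : GoodF ℓ F) (hY : Y.Normal) (hL : Loc ℓ Y R S)
    {g h : X} (hg : g ∈ S) {u u' v v' : X → F} (hu : IsUnitOver f Y g u u')
    (hv : IsUnitOver f Y h v v') :
    EM Y S R ρ (g * h) (mulF v' u') = EM Y S R ρ g u' * EM Y S R ρ h v' := by
  unfold EM
  rw [rt_mul hF hY hL hg hu hv, ev_res_mul ρ (rt_supp hY hL hg hu.right)]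

theorem EM_z (hF : GoodF ℓ F) (hf : SBlk Y f) (hL : Loc ℓ Y R S) (hρ : IsIrr ρ)
    (hφ : actF (fun t : ↥(Y ⊓ S) => f t) (tr ρ) = tr ρ) {g : X} {z u' : X → F}
    (hz : CE f Y 1 z) (hu : ∀ n ∈ Y, ∀ h, u' (n * h * n⁻¹) = u' h) :
    EM Y S R ρ g (mulF z u') = lamJ f z • EM Y S R ρ g u' := by
  unfold EM
  have h1 : rt g (br R (mulF z u')) = mulF (br R z) (rt g (br R u')) := by
    rw [br_mulF_Y hF hL hz.inv hu]
    apply toMA_injective
    rw [toMA_rt, toMA_mulF, toMA_mulF, toMA_rt, mul_assoc]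
  have hs : ∀ t, t ∉ Y ⊓ S → br R z t = 0 := by
    intro t ht
    classical
    by_cases h1 : t ∈ Subgroup.centralizer (R : Set X)
    · simp only [br, if_pos h1]
      exact hz.supp1 t fun hc => ht ⟨hc, hL.cent h1⟩
    · simp only [br, if_neg h1]
  rw [h1, ev_res_mul ρ hs, Pool.Agent.PP.J74.ev_z hF hf hL hz ρ hρ hφ, Matrix.scalar_apply,
    ← Matrix.smul_one_eq_diagonal, Matrix.smul_mul, Matrix.one_mul]

theorem EM_f (hF : GoodF ℓ F) (hf : SBlk Y f) (hL : Loc ℓ Y R S) (hρ : IsIrr ρ)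
    (hφ : actF (fun t : ↥(Y ⊓ S) => f t) (tr ρ) = tr ρ) (t : ↥(Y ⊓ S)) :
    EM Y S R ρ t f = ρ t := by
  unfold EM
  have h1 := ev_rt (Y ⊓ S).subtype ρ (br R f) t
  have h2 : (fun s : ↥(Y ⊓ S) => rt ((Y ⊓ S).subtype t) (br R f) ((Y ⊓ S).subtype s)) =
      fun s : ↥(Y ⊓ S) => rt (t : X) (br R f) s := rfl
  rw [h2] at h1
  rw [h1]
  have h3 := ev_br_one hF hf hL hρ hφ
  have h4 : (fun s : ↥(Y ⊓ S) => br R f ((Y ⊓ S).subtype s)) = fun s : ↥(Y ⊓ S) => br R f s := rfl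
  rw [h4, h3, one_mul]

end unit

/-! ### the representation `ρ * W` -/

section kap

variable {F X : Type} [Field F] [Group X] [Finite X] {ℓ : ℕ} {Y R S M : Subgroup X} {f : X → F}
  {n m : ℕ} {ρ : ↥(Y ⊓ S) →* Matrix (Fin n) (Fin n) F}
  {W : (X → F) →ₗ[F] Matrix (Fin m) (Fin m) F}

theorem kr_unit (hF : GoodF ℓ F) (hf : SBlk Y f) (hY : Y.Normal) (hL : Loc ℓ Y R S) (hρ : IsIrr ρ)
    (hφ : actF (fun t : ↥(Y ⊓ S) => f t) (tr ρ) = tr ρ) (hYM : Y ≤ M) (hW : IrrD f Y M W)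
    {g : X} (hg : g ∈ M) {u u' v v' : X → F} (hu : IsUnitOver f Y g u u')
    (hv : IsUnitOver f Y g v v') :
    kr (EM Y S R ρ g v') (W v) = kr (EM Y S R ρ g u') (W u) := by
  have hff := Pool.Agent.PP.J74.f_comm hf
  have hz : CE f Y 1 (mulF v u') := by
    have := CE_mul hf hY hv.left hu.right
    rwa [mul_inv_cancel] at this
  have hz' : CE f Y 1 (mulF u v') := by
    have := CE_mul hf hY hu.left hv.right
    rwa [mul_inv_cancel] at this
  have h1 : mulF (mulF v u') u = v := by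
    rw [mulF_assoc, unit_symm hf hY hu, ← hff, hv.left.abs]
  have h2 : mulF (mulF u v') u' = v' := by
    rw [Pool.Agent.PP.J74.C1_comm hz' hu.right.cc, ← mulF_assoc, unit_symm hf hY hu, hv.right.abs]
  have h3 : lamJ f (mulF v u') * lamJ f (mulF u v') = 1 := by
    rw [← Pool.Agent.PP.J74.lam_mul hF.closed hY hf hz hz', ← Pool.Agent.PP.J74.lam_f hF.closed hf]
    congr 1
    rw [← mulF_assoc, h1, hv.mul]
  have h4 : W v = lamJ f (mulF v u') • W u := by
    conv_lhs => rw [← h1]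
    rw [hW.mul _ _ (CE_DE hYM M.one_mem hz) (CE_DE hYM hg hu.left),
      W_lam hF.closed hf hY hYM hW hz, Matrix.scalar_apply, ← Matrix.smul_one_eq_diagonal,
      Matrix.smul_mul, Matrix.one_mul]
  have h5 : EM Y S R ρ g v' = lamJ f (mulF u v') • EM Y S R ρ g u' := by
    conv_lhs => rw [← h2]
    exact EM_z hF hf hL hρ hφ hz' hu.right.inv
  rw [h4, h5, H74.kr_smul_left, H74.kr_smul_right, smul_smul,
    mul_comm (lamJ f (mulF u v')), h3, one_smul]

/-- the property of the representation `ρ * W` -/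
def IsK (f : X → F) (Y R S M : Subgroup X) (ρ : ↥(Y ⊓ S) →* Matrix (Fin n) (Fin n) F)
    (W : (X → F) →ₗ[F] Matrix (Fin m) (Fin m) F)
    (ψ : ↥(M.subgroupOf S) →* Matrix (Fin (n * m)) (Fin (n * m)) F) : Prop :=
  ∀ (g : ↥(M.subgroupOf S)) (u u' : X → F), IsUnitOver f Y ((g : S) : X) u u' →
    ψ g = kr (EM Y S R ρ ((g : S) : X) u') (W u)

theorem exists_psi (hF : GoodF ℓ F) (hf : SBlk Y f) (hY : Y.Normal) (hL : Loc ℓ Y R S)
    (hρ : IsIrr ρ) (hφ : actF (fun t : ↥(Y ⊓ S) => f t) (tr ρ) = tr ρ) (hYM : Y ≤ M)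
    (hMX : M ≤ XF f Y) (hW : IrrD f Y M W) :
    ∃ ψ : ↥(M.subgroupOf S) →* Matrix (Fin (n * m)) (Fin (n * m)) F, IsK f Y R S M ρ W ψ := by
  have hmem : ∀ g : ↥(M.subgroupOf S), ((g : S) : X) ∈ M := fun g => Subgroup.mem_subgroupOf.1 g.2
  have hex : ∀ g : ↥(M.subgroupOf S), ∃ u u', IsUnitOver f Y ((g : S) : X) u u' :=
    fun g => (mem_XF hf hY).1 (hMX (hmem g))
  choose U U' hU using hex
  have hkey : ∀ (g : ↥(M.subgroupOf S)) (u u' : X → F), IsUnitOver f Y ((g : S) : X) u u' →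
      kr (EM Y S R ρ ((g : S) : X) (U' g)) (W (U g)) = kr (EM Y S R ρ ((g : S) : X) u') (W u) :=
    fun g u u' hu => kr_unit hF hf hY hL hρ hφ hYM hW (hmem g) hu (hU g)
  refine ⟨{ toFun := fun g => kr (EM Y S R ρ ((g : S) : X) (U' g)) (W (U g))
            map_one' := ?_
            map_mul' := ?_ }, ?_⟩
  · have h1 := hkey 1 f f (unit_one hf)
    rw [h1]
    have h2 := EM_f hF hf hL hρ hφ 1
    rw [map_one] at h2
    show kr (EM Y S R ρ ((1 : ↥(Y ⊓ S)) : X) f) (W f) = 1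
    rw [h2, hW.one, H74.kr_one]
  · intro g h
    have h1 := hkey (g * h) _ _ (unit_mul hf hY (hU g) (hU h))
    rw [h1]
    show kr (EM Y S R ρ (((g : S) : X) * ((h : S) : X)) (mulF (U' h) (U' g))) (W (mulF (U g) (U h))) = _
    rw [EM_mul hF hY hL (g : S).2 (hU g) (hU h), hW.mul _ _ (CE_DE hYM (hmem g) (hU g).left)
      (CE_DE hYM (hmem h) (hU h).left), H74.kr_mul]
  · exact hkey

/-- the inclusion of `Y ∩ S` into `M ∩ S` -/
def jj (hYM : Y ≤ M) : ↥(Y ⊓ S) →* ↥(M.subgroupOf S) where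
  toFun t := ⟨⟨t, t.2.2⟩, Subgroup.mem_subgroupOf.2 (hYM t.2.1)⟩
  map_one' := rfl
  map_mul' _ _ := rfl

/-- the embedding of `M ∩ S` -/
def io (M S : Subgroup X) : ↥(M.subgroupOf S) →* X := S.subtype.comp (M.subgroupOf S).subtype

theorem io_inj (M S : Subgroup X) : Function.Injective (io M S) := by
  intro a b h
  apply Subtype.ext
  apply Subtype.ext
  exact h

theorem io_range {t : X} : t ∈ (io M S).range ↔ t ∈ M ∧ t ∈ S := by
  constructor
  · rintro ⟨s, rfl⟩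
    exact ⟨Subgroup.mem_subgroupOf.1 s.2, (s : S).2⟩
  · rintro ⟨h1, h2⟩
    exact ⟨⟨⟨t, h2⟩, Subgroup.mem_subgroupOf.2 h1⟩, rfl⟩

theorem br_supp (hL : Loc ℓ Y R S) {d : X → F} (hd : ∀ h, h ∉ M → d h = 0) :
    ∀ t, t ∉ (io M S).range → br R d t = 0 := by
  intro t ht
  classical
  by_cases h1 : t ∈ Subgroup.centralizer (R : Set X)
  · simp only [br, if_pos h1]
    exact hd t fun hc => ht (io_range.2 ⟨hc, hL.cent h1⟩)
  · simp only [br, if_neg h1]

/-- the evaluation of functions supported on `Y ∩ S` -/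
theorem ev_jj (hYM : Y ≤ M) {N : ℕ} (ψ : ↥(M.subgroupOf S) →* Matrix (Fin N) (Fin N) F)
    {a : X → F} (ha : ∀ t, t ∉ Y ⊓ S → a t = 0) :
    ev ψ (fun t => a (io M S t)) = ev (ψ.comp (jj hYM)) (fun t : ↥(Y ⊓ S) => a t) := by
  have hfin := Fintype.ofFinite ↥(M.subgroupOf S)
  have hfinL := Fintype.ofFinite ↥(Y ⊓ S)
  rw [ev, ev, finsum_eq_sum_of_fintype, finsum_eq_sum_of_fintype]
  symm
  apply Fintype.sum_of_injective (fun t : ↥(Y ⊓ S) => jj (M := M) hYM t)
  · intro a b h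
    have h1 := congrArg (io M S) h
    exact Subtype.ext h1
  · intro t ht
    rw [ha, zero_smul]
    intro hc
    exact ht ⟨⟨io M S t, hc⟩, Subtype.ext (Subtype.ext rfl)⟩
  · intro t
    rfl

theorem ev_kr {L : Type} [Group L] [Finite L] (ρ : L →* Matrix (Fin n) (Fin n) F) {n' : ℕ}
    (ψ : L →* Matrix (Fin n') (Fin n') F) (T : Matrix (Fin n') (Fin (n * m)) F)
    (T' : Matrix (Fin (n * m)) (Fin n') F)
    (h : ∀ t, ψ t = T * kr (ρ t) (1 : Matrix (Fin m) (Fin m) F) * T') (a : L → F) :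
    ev ψ a = T * kr (ev ρ a) (1 : Matrix (Fin m) (Fin m) F) * T' := by
  have hfinL := Fintype.ofFinite L
  rw [ev, ev, finsum_eq_sum_of_fintype, finsum_eq_sum_of_fintype]
  let k : Matrix (Fin n) (Fin n) F →ₗ[F] Matrix (Fin (n * m)) (Fin (n * m)) F :=
    { toFun := fun A => kr A 1
      map_add' := fun A B => H74.kr_add_left A B 1
      map_smul' := fun c A => H74.kr_smul_left c A 1 }
  show _ = T * k (∑ t, a t • ρ t) * T'
  rw [map_sum, Matrix.mul_sum, Matrix.sum_mul]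
  apply Finset.sum_congr rfl
  intro t _
  rw [map_smul, h, Matrix.mul_smul, Matrix.smul_mul]
  rfl

section props

variable {ψ : ↥(M.subgroupOf S) →* Matrix (Fin (n * m)) (Fin (n * m)) F}

theorem psi_Y (hF : GoodF ℓ F) (hf : SBlk Y f) (hY : Y.Normal) (hL : Loc ℓ Y R S)
    (hρ : IsIrr ρ) (hφ : actF (fun t : ↥(Y ⊓ S) => f t) (tr ρ) = tr ρ) (hYM : Y ≤ M)
    (hW : IrrD f Y M W) (hψ : IsK f Y R S M ρ W ψ) (t : ↥(Y ⊓ S)) :
    ψ (jj hYM t) = kr (ρ t) 1 := by
  have h1 : IsUnitOver f Y (t : X) f f := unit_congr hY (by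
    rw [inv_one, one_mul]; exact t.2.1) (unit_one hf)
  rw [hψ (jj hYM t) f f h1, hW.one]
  congr 1
  exact EM_f hF hf hL hρ hφ t

theorem psi_evY (hF : GoodF ℓ F) (hf : SBlk Y f) (hY : Y.Normal) (hL : Loc ℓ Y R S)
    (hρ : IsIrr ρ) (hφ : actF (fun t : ↥(Y ⊓ S) => f t) (tr ρ) = tr ρ) (hYM : Y ≤ M)
    (hW : IrrD f Y M W) (hψ : IsK f Y R S M ρ W ψ) {a : X → F} (ha : ∀ t, t ∉ Y ⊓ S → a t = 0) :
    ev ψ (fun t => a (io M S t)) = kr (ev ρ (fun t : ↥(Y ⊓ S) => a t)) 1 := by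
  rw [ev_jj hYM ψ ha]
  have h1 := ev_kr ρ (ψ.comp (jj hYM)) (1 : Matrix (Fin (n * m)) (Fin (n * m)) F) 1 (by
    intro t
    rw [one_mul, mul_one]
    exact psi_Y hF hf hY hL hρ hφ hYM hW hψ t) (fun t : ↥(Y ⊓ S) => a t)
  rw [one_mul, mul_one] at h1
  exact h1

/-- evaluation of the units -/
theorem psi_unit (hF : GoodF ℓ F) (hf : SBlk Y f) (hY : Y.Normal) (hL : Loc ℓ Y R S)
    (hρ : IsIrr ρ) (hφ : actF (fun t : ↥(Y ⊓ S) => f t) (tr ρ) = tr ρ) (hYM : Y ≤ M)
    (hW : IrrD f Y M W) (hψ : IsK f Y R S M ρ W ψ) {g : ↥(M.subgroupOf S)} {u u' : X → F}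
    (hu : IsUnitOver f Y (io M S g) u u') :
    ev ψ (fun t => br R u (io M S t)) = kr 1 (W u) := by
  have hgS : io M S g ∈ S := (g : S).2
  have hinv := unit_inv hf hY hu
  have hs : ∀ t, t ∉ Y ⊓ S → rt (io M S g)⁻¹ (br R u) t = 0 :=
    rt_supp hY hL (S.inv_mem hgS) hinv.right
  have h1 := ev_rt (io M S) ψ (rt (io M S g)⁻¹ (br R u)) g
  have h2 : rt (io M S g) (rt (io M S g)⁻¹ (br R u)) = br R u := by
    funext t
    show br R u (t * (io M S g)⁻¹ * (io M S g)⁻¹⁻¹) = br R u t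
    congr 1
    group
  rw [h2, psi_evY hF hf hY hL hρ hφ hYM hW hψ hs, hψ g u u' hu, H74.kr_mul, one_mul] at h1
  rw [h1]
  congr 1
  unfold EM
  have h3 := ev_res_mul ρ hs (rt (io M S g) (br R u'))
  rw [← ev_br_one hF hf hL hρ hφ]
  refine Eq.trans h3.symm ?_
  have key : mulF (rt (io M S g)⁻¹ (br R u)) (rt (io M S g) (br R u')) = br R f := ?_
  · rw [key]
  apply toMA_injective
  have hcj := congrArg toMA (br_cj_unit hf hY hL hgS hu).2
  rw [toMA_cjF] at hcj
  have hcj' : toMA (br R u') * sg (io M S g) = sg (io M S g) * toMA (br R u') := by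
    have h4 := congrArg (fun w => w * sg (io M S g)) hcj
    simp only [mul_assoc, sg_mul, inv_mul_cancel] at h4
    rw [sg_one, mul_one] at h4
    exact h4.symm
  rw [toMA_mulF, toMA_rt, toMA_rt, hcj']
  calc toMA (br R u) * sg (io M S g)⁻¹ * (sg (io M S g) * toMA (br R u')) =
      toMA (br R u) * (sg (io M S g)⁻¹ * sg (io M S g)) * toMA (br R u') := by
        simp only [mul_assoc]
    _ = toMA (br R f) := by
        rw [sg_inv_mul, mul_one, ← toMA_mulF, ← br_mulF_Y hF hL hu.left.inv hu.right.inv, hu.mul]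

theorem ev_br_lin {N : ℕ} (ψ : ↥(M.subgroupOf S) →* Matrix (Fin N) (Fin N) F) (R : Subgroup X) :
    ∃ E : (X → F) →ₗ[F] Matrix (Fin N) (Fin N) F, ∀ d,
      E d = ev ψ (fun t => br R d (io M S t)) := by
  classical
  refine ⟨{ toFun := fun d => ev ψ (fun t => br R d (io M S t))
            map_add' := fun a b => ?_
            map_smul' := fun c a => ?_ }, fun d => rfl⟩
  · rw [← ev_add]
    congr 1
    funext t
    by_cases ht : io M S t ∈ Subgroup.centralizer (R : Set X)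
    · simp [br, if_pos ht]
    · simp [br, if_neg ht]
  · rw [RingHom.id_apply, ← ev_smul]
    congr 1
    funext t
    by_cases ht : io M S t ∈ Subgroup.centralizer (R : Set X)
    · simp [br, if_pos ht]
    · simp [br, if_neg ht]

/-- evaluation of the elements of `D` -/
theorem psi_DE (hF : GoodF ℓ F) (hf : SBlk Y f) (hY : Y.Normal) (hL : Loc ℓ Y R S)
    (hρ : IsIrr ρ) (hφ : actF (fun t : ↥(Y ⊓ S) => f t) (tr ρ) = tr ρ) (hYM : Y ≤ M)
    (hMX : M ≤ XF f Y) (hW : IrrD f Y M W) (hψ : IsK f Y R S M ρ W ψ) {d : X → F}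
    (hd : DE f Y M d) :
    ev ψ (fun t => br R d (io M S t)) = kr 1 (W d) := by
  obtain ⟨E, hE⟩ := ev_br_lin ψ R
  have hspan := DE_span hf hY hYM hd
  rw [← hE]
  have hne : br R f ≠ 0 := by
    intro h0
    have h1 := ev_br_one hF hf hL hρ hφ
    have hN : NeZero n := ⟨hρ.1.ne'⟩
    have h2 : (fun t : ↥(Y ⊓ S) => br R f t) = 0 := by rw [h0]; rfl
    rw [h2] at h1
    have h3 : ev ρ (0 : ↥(Y ⊓ S) → F) = 0 := by
      have := ev_smul ρ (0 : F) (0 : ↥(Y ⊓ S) → F)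
      rw [zero_smul, zero_smul] at this
      exact this
    rw [h3] at h1
    exact zero_ne_one h1
  clear hd
  induction hspan using Submodule.span_induction with
  | mem c hc =>
    obtain ⟨g, hg, hc⟩ := hc
    obtain ⟨u, u', hu⟩ := (mem_XF hf hY).1 (hMX hg)
    obtain ⟨n0, hn0, hj⟩ := exists_cent hF hf hL hne hu
    have hu' : IsUnitOver f Y (g * n0) u u' :=
      unit_congr hY (by rw [inv_mul_cancel_left]; exact hn0) hu
    have hc' : CE f Y (g * n0) c := CE_congr (by rw [inv_mul_cancel_left]; exact hn0) hc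
    have hz : CE f Y 1 (mulF c u') := by
      have := CE_mul hf hY hc' hu'.right
      rwa [mul_inv_cancel] at this
    have h1 : c = mulF (mulF c u') u := by
      rw [mulF_assoc, unit_symm hf hY hu, ← Pool.Agent.PP.J74.f_comm hf, hc.abs]
    have h2 : E c = ev ψ (fun t => br R (mulF c u') (io M S t)) *
        ev ψ (fun t => br R u (io M S t)) := by
      rw [hE]
      conv_lhs => rw [h1]
      rw [br_mulF_Y hF hL hz.inv hu.left.inv]
      exact comp_ev_mul (io M S) (io_inj M S) ψ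
        (br_supp hL (CE_DE hYM M.one_mem hz).supp) (br R u)
    have hzs : ∀ t, t ∉ Y ⊓ S → br R (mulF c u') t = 0 := by
      intro t ht
      classical
      by_cases h1 : t ∈ Subgroup.centralizer (R : Set X)
      · simp only [br, if_pos h1]
        exact hz.supp1 t fun hc => ht ⟨hc, hL.cent h1⟩
      · simp only [br, if_neg h1]
    obtain ⟨g', hg'⟩ : ∃ g' : ↥(M.subgroupOf S), io M S g' = g * n0 :=
      io_range.2 ⟨M.mul_mem hg (hYM hn0), hL.cent hj⟩
    rw [← hg'] at hu'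
    rw [h2, psi_evY hF hf hY hL hρ hφ hYM hW hψ hzs, psi_unit hF hf hY hL hρ hφ hYM hW hψ hu',
      Pool.Agent.PP.J74.ev_z hF hf hL hz ρ hρ hφ, H74.kr_mul, one_mul, mul_one]
    conv_rhs => rw [h1]
    rw [hW.mul _ _ (CE_DE hYM M.one_mem hz) (CE_DE hYM hg hu.left),
      W_lam hF.closed hf hY hYM hW hz, Matrix.scalar_apply, Matrix.scalar_apply,
      ← Matrix.smul_one_eq_diagonal, ← Matrix.smul_one_eq_diagonal,
      Matrix.smul_mul, Matrix.one_mul, H74.kr_smul_left, H74.kr_smul_right]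
  | zero =>
    rw [map_zero, map_zero]
    apply H74.kr_ext
    intro i j k l
    rw [H74.kr_apply]
    simp
  | add x y _ _ hx hy => rw [map_add, map_add, hx, hy, H74.kr_add_right]
  | smul c x _ hx => rw [map_smul, map_smul, hx, H74.kr_smul_right]

end props

end kap

end Pool.Agent.PP.H58
end
end -- Pool.Agent.Helper58_PP.Kap

section -- Pool.Agent.Helper58_PP.Exh

/-!
TFA (AWC_J, J5), part 2: `ρ * W` is irreducible, and every irreducible representation of `M ∩ S`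
over `f` is of this form.
-/

open scoped BigOperators

set_option linter.unusedSectionVars false

noncomputable section

namespace Pool.Agent.PP.H58

open Pool.Agent.PP Pool.Agent.PP.H20

section exh

variable {F X : Type} [Field F] [Group X] [Finite X] {ℓ : ℕ} {Y R S M : Subgroup X} {f : X → F}
  {n m : ℕ} {ρ : ↥(Y ⊓ S) →* Matrix (Fin n) (Fin n) F}
  {W : (X → F) →ₗ[F] Matrix (Fin m) (Fin m) F}

theorem psi_irr (hF : GoodF ℓ F) (hf : SBlk Y f) (hY : Y.Normal) (hL : Loc ℓ Y R S)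
    (hρ : IsIrr ρ) (hφ : actF (fun t : ↥(Y ⊓ S) => f t) (tr ρ) = tr ρ) (hYM : Y ≤ M)
    (hMX : M ≤ XF f Y) (hW : IrrD f Y M W)
    {ψ : ↥(M.subgroupOf S) →* Matrix (Fin (n * m)) (Fin (n * m)) F}
    (hψ : IsK f Y R S M ρ W ψ) : IsIrr ψ := by
  refine ⟨Nat.mul_pos hρ.1 hW.pos, ?_⟩
  apply H33.top_of_kr
  intro A B
  have hB : B ∈ Submodule.span F (W '' {d | DE f Y M d}) := by rw [hW.irr]; trivial
  have hA : A ∈ Submodule.span F (Set.range ρ) := by rw [hρ.2]; trivial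
  induction hB using Submodule.span_induction with
  | mem x hx =>
    obtain ⟨d, hd, rfl⟩ := hx
    induction hA using Submodule.span_induction with
    | mem y hy =>
      obtain ⟨t, rfl⟩ := hy
      have h1 : kr (ρ t) (W d) = ψ (jj hYM t) * ev ψ (fun t => br R d (io M S t)) := by
        rw [psi_Y hF hf hY hL hρ hφ hYM hW hψ, psi_DE hF hf hY hL hρ hφ hYM hMX hW hψ hd,
          H74.kr_mul, mul_one, one_mul]
      rw [h1, ← ev_dl ψ (jj hYM t), ← Pool.Agent.PP.ev_mulF]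
      exact H33.ev_mem_span ψ _
    | zero =>
      rw [H33.kr_zero_left]
      exact Submodule.zero_mem _
    | add x y _ _ hx hy => rw [H74.kr_add_left]; exact Submodule.add_mem _ hx hy
    | smul c x _ hx => rw [H74.kr_smul_left]; exact Submodule.smul_mem _ _ hx
  | zero =>
    rw [H33.kr_zero_right]
    exact Submodule.zero_mem _
  | add x y _ _ hx hy => rw [H74.kr_add_right]; exact Submodule.add_mem _ hx hy
  | smul c x _ hx => rw [H74.kr_smul_right]; exact Submodule.smul_mem _ _ hx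

/-- the value of a representation over `f` at a group element, by the units -/
theorem psi_formula (hF : GoodF ℓ F) (hf : SBlk Y f) (hY : Y.Normal) (hL : Loc ℓ Y R S)
    (hYM : Y ≤ M) {N : ℕ} {ψ : ↥(M.subgroupOf S) →* Matrix (Fin N) (Fin N) F}
    (h1 : ev ψ (fun t => br R f (io M S t)) = 1) {g : ↥(M.subgroupOf S)} {u u' : X → F}
    (hu : IsUnitOver f Y (io M S g) u u') :
    ψ g = EM Y S R (ψ.comp (jj hYM)) (io M S g) u' * ev ψ (fun t => br R u (io M S t)) := by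
  have hgS : io M S g ∈ S := (g : S).2
  have hgM : io M S g ∈ M := Subgroup.mem_subgroupOf.1 g.2
  have h2 : ψ g * ev ψ (fun t => br R u' (io M S t)) = EM Y S R (ψ.comp (jj hYM)) (io M S g) u' := by
    rw [← ev_lt (io M S) ψ (br R u') g, lt_eq_rt (br_cj_unit hf hY hL hgS hu).2]
    exact ev_jj hYM ψ (rt_supp hY hL hgS hu.right)
  rw [← h2, mul_assoc]
  have h3 := comp_ev_mul (io M S) (io_inj M S) ψ (a := br R u')
    (br_supp hL (CE_DE hYM (M.inv_mem hgM) hu.right).supp) (br R u)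
  rw [← br_mulF_Y hF hL hu.right.inv hu.left.inv, unit_symm hf hY hu, h1] at h3
  rw [← h3, mul_one]

/-- exhaustion -/
theorem exhaust (hF : GoodF ℓ F) (hf : SBlk Y f) (hY : Y.Normal) (hL : Loc ℓ Y R S)
    (hYM : Y ≤ M) (hMX : M ≤ XF f Y) {N : ℕ}
    {ψ : ↥(M.subgroupOf S) →* Matrix (Fin N) (Fin N) F} (hψ : IsIrr ψ)
    (h0 : ev ψ (fun t => f (io M S t)) = 1) :
    ∃ (n m : ℕ) (ρ : ↥(Y ⊓ S) →* Matrix (Fin n) (Fin n) F)
      (W : (X → F) →ₗ[F] Matrix (Fin m) (Fin m) F) (T : Matrix (Fin N) (Fin (n * m)) F)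
      (T' : Matrix (Fin (n * m)) (Fin N) F), IsIrr ρ ∧
      actF (fun t : ↥(Y ⊓ S) => f t) (tr ρ) = tr ρ ∧ IrrD f Y M W ∧ T * T' = 1 ∧ T' * T = 1 ∧
      (∀ (g : ↥(M.subgroupOf S)) (u u' : X → F), IsUnitOver f Y (io M S g) u u' →
        ψ g = T * kr (EM Y S R ρ (io M S g) u') (W u) * T') ∧
      ∀ d, DE f Y M d →
        ev ψ (fun t => br R d (io M S t)) = T * kr (1 : Matrix (Fin n) (Fin n) F) (W d) * T' := by
  have hcl := hF.closed
  have hRr : R ≤ (io M S).range := fun r hr => io_range.2 ⟨hYM (hL.le hr), hL.leS hr⟩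
  have hNr : ∀ t, io M S t ∈ Subgroup.normalizer (R : Set X) := fun t => hL.norm (t : S).2
  have h1 : ev ψ (fun t => br R f (io M S t)) = 1 := by
    rw [← comp_br (io M S) hF (io_inj M S) hL.pgrp hRr hNr hψ (fun s t => hf.cl _ _), h0]
  obtain ⟨S₁, hS₁⟩ : ∃ S₁, S₁ = Set.range (fun t : ↥(Y ⊓ S) => ψ (jj hYM t)) := ⟨_, rfl⟩
  obtain ⟨S₂, hS₂⟩ : ∃ S₂, S₂ = {z | ∃ d, DE f Y M d ∧ z = ev ψ (fun t => br R d (io M S t))} :=
    ⟨_, rfl⟩
  obtain ⟨n, m, T, T', A, B, hn, hm, hNm, hTT, hTT', hA, hB, hAs, hBs⟩ := H74.tens hψ.1 S₁ S₂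
    (by rw [hS₁]; exact ⟨1, by simp only [map_one]⟩)
    (by
      rw [hS₁]
      rintro _ ⟨a, rfl⟩ _ ⟨b, rfl⟩
      exact ⟨a * b, by simp only [map_mul]⟩)
    (by
      rw [hS₁, hS₂]
      rintro _ ⟨t, rfl⟩ _ ⟨d, hd, rfl⟩
      show ψ (jj hYM t) * _ = _ * ψ (jj hYM t)
      rw [← ev_lt, ← ev_rt, lt_eq_rt]
      have h2 := br_inv hL hd.cc.inv
      exact cjF_of_inv h2 t.2)
    (by
      intro Z
      have hZ : Z ∈ Submodule.span F (Set.range ψ) := by rw [hψ.2]; trivial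
      induction hZ using Submodule.span_induction with
      | mem x hx =>
        obtain ⟨g, rfl⟩ := hx
        obtain ⟨u, u', hu⟩ := (mem_XF hf hY).1 (hMX (Subgroup.mem_subgroupOf.1 g.2))
        have hgM : io M S g ∈ M := Subgroup.mem_subgroupOf.1 g.2
        rw [psi_formula hF hf hY hL hYM h1 hu]
        have h2 : EM Y S R (ψ.comp (jj hYM)) (io M S g) u' ∈ Submodule.span F S₁ := by
          rw [hS₁]
          exact H33.ev_mem_span (ψ.comp (jj hYM)) _
        have h3 : ev ψ (fun t => br R u (io M S t)) ∈ S₂ := by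
          rw [hS₂]
          exact ⟨u, CE_DE hYM hgM hu.left, rfl⟩
        obtain ⟨E, hE⟩ : ∃ E, E = EM Y S R (ψ.comp (jj hYM)) (io M S g) u' := ⟨_, rfl⟩
        rw [← hE] at h2 ⊢
        clear hE
        induction h2 using Submodule.span_induction with
        | mem y hy => exact Submodule.subset_span ⟨y, hy, _, h3, rfl⟩
        | zero => rw [zero_mul]; exact Submodule.zero_mem _
        | add y z _ _ hy hz => rw [add_mul]; exact Submodule.add_mem _ hy hz
        | smul c y _ hy => rw [Matrix.smul_mul]; exact Submodule.smul_mem _ _ hy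
      | zero => exact Submodule.zero_mem _
      | add x y _ _ hx hy => exact Submodule.add_mem _ hx hy
      | smul c x _ hx => exact Submodule.smul_mem _ _ hx)
  -- conjugation by `T`
  have hcan : ∀ Z : Matrix (Fin (n * m)) (Fin (n * m)) F, T' * (T * Z * T') * T = Z := by
    intro Z
    calc T' * (T * Z * T') * T = (T' * T) * Z * (T' * T) := by simp only [Matrix.mul_assoc]
      _ = Z := by rw [hTT', Matrix.one_mul, Matrix.mul_one]
  have hcan1 : T' * (1 : Matrix (Fin N) (Fin N) F) * T = 1 := by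
    rw [Matrix.mul_one, hTT']
  have hmulT : ∀ Z Z' : Matrix (Fin (n * m)) (Fin (n * m)) F,
      (T * Z * T') * (T * Z' * T') = T * (Z * Z') * T' := by
    intro Z Z'
    calc (T * Z * T') * (T * Z' * T') = T * Z * (T' * T) * Z' * T' := by
          simp only [Matrix.mul_assoc]
      _ = _ := by rw [hTT', Matrix.mul_one]; simp only [Matrix.mul_assoc]
  have hinjT : ∀ Z Z' : Matrix (Fin (n * m)) (Fin (n * m)) F, T * Z * T' = T * Z' * T' → Z = Z' := by
    intro Z Z' h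
    rw [← hcan Z, h, hcan]
  have hmS₁ : ∀ t, ψ (jj hYM t) ∈ S₁ := fun t => by rw [hS₁]; exact ⟨t, rfl⟩
  have hAt : ∀ t, ψ (jj hYM t) =
      T * kr (A (ψ (jj hYM t))) (1 : Matrix (Fin m) (Fin m) F) * T' := fun t => hA _ (hmS₁ t)
  -- the representation `ρ`
  obtain ⟨ρ, hρA⟩ : ∃ ρ : ↥(Y ⊓ S) →* Matrix (Fin n) (Fin n) F, ∀ t, ρ t = A (ψ (jj hYM t)) := by
    refine ⟨{ toFun := fun t => A (ψ (jj hYM t))
              map_one' := ?_
              map_mul' := ?_ }, fun t => rfl⟩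
    · apply H74.kr_one_inj_left hm
      rw [H74.kr_one]
      have h2 := hAt 1
      rw [map_one, map_one] at h2
      rw [map_one, map_one]
      have h3 := hcan (kr (A 1) (1 : Matrix (Fin m) (Fin m) F))
      rw [← h2, hcan1] at h3
      exact h3.symm
    · intro a b
      apply H74.kr_one_inj_left hm
      apply hinjT
      rw [← hAt (a * b), ← mul_one (1 : Matrix (Fin m) (Fin m) F), ← H74.kr_mul, ← hmulT,
        ← hAt a, ← hAt b, map_mul, map_mul]
  have hρT : ∀ t, (ψ.comp (jj hYM)) t = T * kr (ρ t) (1 : Matrix (Fin m) (Fin m) F) * T' := by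
    intro t
    rw [hρA]
    exact hAt t
  have hρev := fun a => ev_kr ρ (ψ.comp (jj hYM)) T T' hρT a
  have hρirr : IsIrr ρ := by
    refine ⟨hn, ?_⟩
    rw [← hAs]
    congr 1
    rw [hS₁]
    ext Z
    constructor
    · rintro ⟨t, rfl⟩
      exact ⟨_, ⟨t, rfl⟩, (hρA t).symm⟩
    · rintro ⟨_, ⟨t, rfl⟩, rfl⟩
      exact ⟨t, hρA t⟩
  have hbs : ∀ t, t ∉ Y ⊓ S → br R f t = 0 := by
    intro t ht
    classical
    by_cases h1 : t ∈ Subgroup.centralizer (R : Set X)
    · simp only [br, if_pos h1]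
      exact hf.supp t fun hc => ht ⟨hc, hL.cent h1⟩
    · simp only [br, if_neg h1]
  have hone : ∀ Z : Matrix (Fin (n * m)) (Fin (n * m)) F, T * Z * T' = 1 → Z = 1 := by
    intro Z h
    rw [← hcan Z, h, hcan1]
  have hφ1 : ev ρ (fun t : ↥(Y ⊓ S) => f t) = 1 := by
    rw [← Pool.Agent.PP.J74.act_f hF hf hL ρ hρirr]
    apply H74.kr_one_inj_left hm
    rw [H74.kr_one]
    apply hone
    rw [← hρev, ← ev_jj hYM ψ hbs, h1]
  have hφ : actF (fun t : ↥(Y ⊓ S) => f t) (tr ρ) = tr ρ := by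
    funext x
    rw [Pool.Agent.PP.actF_tr, hφ1, one_mul]
    rfl
  -- the linear map `W`
  obtain ⟨E, hE⟩ := ev_br_lin ψ R
  let sl : Matrix (Fin (n * m)) (Fin (n * m)) F →ₗ[F] Matrix (Fin m) (Fin m) F :=
    { toFun := fun Z => Matrix.of fun k l =>
        Z (finProdFinEquiv ((⟨0, hn⟩ : Fin n), k)) (finProdFinEquiv ((⟨0, hn⟩ : Fin n), l))
      map_add' := fun Z Z' => by ext k l; rfl
      map_smul' := fun c Z => by ext k l; rfl }
  have hsl : ∀ Z : Matrix (Fin m) (Fin m) F, sl (kr (1 : Matrix (Fin n) (Fin n) F) Z) = Z := by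
    intro Z
    ext k l
    show kr (1 : Matrix (Fin n) (Fin n) F) Z (finProdFinEquiv ((⟨0, hn⟩ : Fin n), k))
      (finProdFinEquiv ((⟨0, hn⟩ : Fin n), l)) = _
    rw [H74.kr_apply, Matrix.one_apply_eq, one_mul]
  let W : (X → F) →ₗ[F] Matrix (Fin m) (Fin m) F :=
    { toFun := fun d => sl (T' * E d * T)
      map_add' := fun a b => by rw [map_add, Matrix.mul_add, Matrix.add_mul, map_add]
      map_smul' := fun c a => by
        rw [map_smul, Matrix.mul_smul, Matrix.smul_mul, map_smul]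
        rfl }
  have hWd : ∀ d, W d = sl (T' * E d * T) := fun d => rfl
  have hE2 : ∀ d, DE f Y M d → E d ∈ S₂ := fun d hd => by rw [hS₂, hE]; exact ⟨d, hd, rfl⟩
  have hWB : ∀ d, DE f Y M d → W d = B (E d) := by
    intro d hd
    rw [hWd]
    conv_lhs => rw [hB _ (hE2 d hd), hcan, hsl]
  have hWE : ∀ d, DE f Y M d → E d = T * kr (1 : Matrix (Fin n) (Fin n) F) (W d) * T' := by
    intro d hd
    rw [hWB d hd]
    exact hB _ (hE2 d hd)
  have hfD : DE f Y M f := CE_DE hYM M.one_mem (Pool.Agent.PP.J74.f_CE hf)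
  have hW : IrrD f Y M W := by
    refine ⟨hm, ?_, ?_, ?_⟩
    · apply H74.kr_one_inj_right hn
      rw [H74.kr_one]
      apply hone
      rw [← hWE f hfD, hE, h1]
    · intro a b ha hb
      have hab : DE f Y M (mulF a b) := by
        refine ⟨ha.cc.mul hb.cc, ?_⟩
        intro h hh
        apply Pool.Agent.PP.J74.mulF_supp (S := (M : Set X)) (T := (M : Set X)) ha.supp hb.supp
        rintro s hs t ht rfl
        exact hh (M.mul_mem hs ht)
      apply H74.kr_one_inj_right hn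
      apply hinjT
      rw [← hWE _ hab, ← mul_one (1 : Matrix (Fin n) (Fin n) F), ← H74.kr_mul, ← hmulT,
        ← hWE a ha, ← hWE b hb, hE, hE, hE, br_mulF_Y hF hL ha.cc.inv hb.cc.inv]
      exact comp_ev_mul (io M S) (io_inj M S) ψ (br_supp hL ha.supp) (br R b)
    · rw [← hBs]
      congr 1
      ext Z
      constructor
      · rintro ⟨d, hd, rfl⟩
        exact ⟨E d, hE2 d hd, (hWB d hd).symm⟩
      · rintro ⟨b, hb, rfl⟩
        rw [hS₂] at hb
        obtain ⟨d, hd, rfl⟩ := hb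
        refine ⟨d, hd, ?_⟩
        rw [hWB d hd, hE]
  refine ⟨n, m, ρ, W, T, T', hρirr, hφ, hW, hTT, hTT', ?_, ?_⟩
  · intro g u u' hu
    have hgM : io M S g ∈ M := Subgroup.mem_subgroupOf.1 g.2
    have h2 : EM Y S R (ψ.comp (jj hYM)) (io M S g) u' =
        T * kr (EM Y S R ρ (io M S g) u') (1 : Matrix (Fin m) (Fin m) F) * T' := hρev _
    rw [psi_formula hF hf hY hL hYM h1 hu, h2, ← hE, hWE u (CE_DE hYM hgM hu.left), hmulT,
      H74.kr_mul, mul_one, one_mul]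
  · intro d hd
    rw [← hE]
    exact hWE d hd

end exh

end Pool.Agent.PP.H58
end
end -- Pool.Agent.Helper58_PP.Exh

section -- Pool.Agent.Helper58_PP.Chr

/-!
TFA (AWC_J, J5), part 3: characters, conjugation and the scalars of `ρ * W`.
-/

open scoped BigOperators

set_option linter.unusedSectionVars false

noncomputable section

namespace Pool.Agent.PP.H58

open Pool.Agent.PP Pool.Agent.PP.H20

section chr

variable {F X : Type} [Field F] [Group X] [Finite X] {ℓ : ℕ} {Y R S M : Subgroup X} {f : X → F}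
  {n m : ℕ} {ρ : ↥(Y ⊓ S) →* Matrix (Fin n) (Fin n) F}
  {W : (X → F) →ₗ[F] Matrix (Fin m) (Fin m) F}

open Classical in
/-- the character of an irreducible representation of `D` -/
def omW (f : X → F) (Y M : Subgroup X) (W : (X → F) →ₗ[F] Matrix (Fin m) (Fin m) F) :
    (X → F) → F := fun d => if DE f Y M d then (W d).trace else 0

theorem omW_of {d : X → F} (hd : DE f Y M d) : omW f Y M W d = (W d).trace := by
  classical
  unfold omW
  rw [if_pos hd]

theorem omW_not {d : X → F} (hd : ¬ DE f Y M d) : omW f Y M W d = 0 := by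
  classical
  unfold omW
  rw [if_neg hd]

/-- the character of `ρ * W` -/
def PPc (Y R S M : Subgroup X) (U U' : ↥(M.subgroupOf S) → X → F) (φ : ↥(Y ⊓ S) → F)
    (ω : (X → F) → F) : ↥(M.subgroupOf S) → F :=
  fun g => (∑ᶠ t : ↥(Y ⊓ S), rt (io M S g) (br R (U' g)) t * φ t) * ω (U g)

theorem tr_psi (hYM : Y ≤ M) {U U' : ↥(M.subgroupOf S) → X → F}
    (hU : ∀ g, IsUnitOver f Y (io M S g) (U g) (U' g))
    {ψ : ↥(M.subgroupOf S) →* Matrix (Fin (n * m)) (Fin (n * m)) F}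
    (hψ : IsK f Y R S M ρ W ψ) : tr ψ = PPc Y R S M U U' (tr ρ) (omW f Y M W) := by
  funext g
  have hgM : io M S g ∈ M := Subgroup.mem_subgroupOf.1 g.2
  unfold tr PPc
  rw [hψ g (U g) (U' g) (hU g), H74.kr_trace, omW_of (CE_DE hYM hgM (hU g).left)]
  congr 1
  unfold EM
  rw [H33.trace_ev]
  rfl

/-- the function on `X` which extends a function on `Y ∩ S` by zero -/
def extz (L : Subgroup X) (a : L → F) : X → F :=
  open Classical in fun t => if h : t ∈ L then a ⟨t, h⟩ else 0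

theorem extz_not {L : Subgroup X} {a : L → F} : ∀ t, t ∉ L → extz L a t = 0 := by
  intro t ht
  unfold extz
  rw [dif_neg ht]

theorem extz_coe {L : Subgroup X} {a : L → F} : (fun t : L => extz L a t) = a := by
  funext t
  unfold extz
  rw [dif_pos t.2]

theorem trace_prod (hF : GoodF ℓ F) (hf : SBlk Y f) (hY : Y.Normal) (hL : Loc ℓ Y R S)
    (hρ : IsIrr ρ) (hφ : actF (fun t : ↥(Y ⊓ S) => f t) (tr ρ) = tr ρ) (hYM : Y ≤ M)
    (hMX : M ≤ XF f Y) (hW : IrrD f Y M W)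
    {ψ : ↥(M.subgroupOf S) →* Matrix (Fin (n * m)) (Fin (n * m)) F}
    (hψ : IsK f Y R S M ρ W ψ) (a : ↥(Y ⊓ S) → F) {d : X → F} (hd : DE f Y M d) :
    ∑ᶠ t, mulF (extz (Y ⊓ S) a) (br R d) (io M S t) * tr ψ t = (ev ρ a).trace * (W d).trace := by
  have hs : ∀ t, t ∉ (io M S).range → extz (Y ⊓ S) a t = 0 := by
    intro t ht
    apply extz_not
    intro hc
    exact ht (io_range.2 ⟨hYM hc.1, hc.2⟩)
  rw [← H33.trace_ev ψ (fun t => mulF (extz (Y ⊓ S) a) (br R d) (io M S t)),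
    comp_ev_mul (io M S) (io_inj M S) ψ hs,
    psi_evY hF hf hY hL hρ hφ hYM hW hψ extz_not, extz_coe,
    psi_DE hF hf hY hL hρ hφ hYM hMX hW hψ hd, H74.kr_mul, mul_one, one_mul, H74.kr_trace]

theorem W_tr_ne (hW : IrrD f Y M W) : ∃ d, DE f Y M d ∧ (W d).trace ≠ 0 := by
  by_contra hcon
  push Not at hcon
  have h1 : ∀ Z : Matrix (Fin m) (Fin m) F, Z.trace = 0 := by
    intro Z
    have hZ : Z ∈ Submodule.span F (W '' {d | DE f Y M d}) := by rw [hW.irr]; trivial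
    induction hZ using Submodule.span_induction with
    | mem x hx =>
      obtain ⟨d, hd, rfl⟩ := hx
      exact hcon d hd
    | zero => exact Matrix.trace_zero _ _
    | add x y _ _ hx hy => rw [Matrix.trace_add, hx, hy, add_zero]
    | smul c x _ hx => rw [Matrix.trace_smul, hx, smul_zero]
  have h2 := h1 (Matrix.single (⟨0, hW.pos⟩ : Fin m) ⟨0, hW.pos⟩ (1 : F))
  rw [Matrix.trace_single_eq_same] at h2
  exact one_ne_zero h2

theorem eq_of_smul (hF : GoodF ℓ F) {L : Type} [Group L] [Finite L] {φ φ' : L → F}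
    (h : φ ∈ IBr F L) (h' : φ' ∈ IBr F L) {c : F} (hc : φ = c • φ') : φ = φ' := by
  by_contra hne
  have hli := (ibf ℓ F hF L).2
  have hinj : Function.Injective (![⟨φ, h⟩, ⟨φ', h'⟩] : Fin 2 → IBr F L) := by
    intro i j hij
    fin_cases i <;> fin_cases j
    · rfl
    · exact absurd (congrArg Subtype.val hij) hne
    · exact absurd (congrArg Subtype.val hij).symm hne
    · rfl
  have h2 := hli.comp _ hinj
  have e : (![φ, φ'] : Fin 2 → L → F) = (fun f : IBr F L => (f : L → F)) ∘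
      (![⟨φ, h⟩, ⟨φ', h'⟩] : Fin 2 → IBr F L) := by
    funext i
    fin_cases i <;> rfl
  have h3 : LinearIndependent F ![φ, φ'] := by
    rw [e]
    exact h2
  rw [LinearIndependent.pair_iff] at h3
  have h4 := h3 1 (-c) (by rw [one_smul, hc, neg_smul, add_neg_cancel])
  exact one_ne_zero h4.1

/-- the character of `ρ * W` determines the characters of `ρ` and `W` -/
theorem sep (hF : GoodF ℓ F) (hf : SBlk Y f) (hY : Y.Normal) (hL : Loc ℓ Y R S)
    (hYM : Y ≤ M) (hMX : M ≤ XF f Y) {n' m' : ℕ}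
    {ρ' : ↥(Y ⊓ S) →* Matrix (Fin n') (Fin n') F} {W' : (X → F) →ₗ[F] Matrix (Fin m') (Fin m') F}
    (hρ : IsIrr ρ) (hφ : actF (fun t : ↥(Y ⊓ S) => f t) (tr ρ) = tr ρ) (hW : IrrD f Y M W)
    (hρ' : IsIrr ρ') (hφ' : actF (fun t : ↥(Y ⊓ S) => f t) (tr ρ') = tr ρ') (hW' : IrrD f Y M W')
    {ψ : ↥(M.subgroupOf S) →* Matrix (Fin (n * m)) (Fin (n * m)) F}
    (hψ : IsK f Y R S M ρ W ψ)
    {ψ' : ↥(M.subgroupOf S) →* Matrix (Fin (n' * m')) (Fin (n' * m')) F}
    (hψ' : IsK f Y R S M ρ' W' ψ') (h : tr ψ = tr ψ') :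
    tr ρ = tr ρ' ∧ omW f Y M W = omW f Y M W' := by
  have h1 : ∀ (a : ↥(Y ⊓ S) → F) (d : X → F), DE f Y M d →
      (ev ρ a).trace * (W d).trace = (ev ρ' a).trace * (W' d).trace := by
    intro a d hd
    rw [← trace_prod hF hf hY hL hρ hφ hYM hMX hW hψ a hd,
      ← trace_prod hF hf hY hL hρ' hφ' hYM hMX hW' hψ' a hd, h]
  have h2 : ∀ (t : ↥(Y ⊓ S)) (d : X → F), DE f Y M d →
      tr ρ t * (W d).trace = tr ρ' t * (W' d).trace := by
    intro t d hd
    have := h1 (dl F t) d hd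
    rwa [ev_dl, ev_dl] at this
  obtain ⟨d0, hd0, hne⟩ := W_tr_ne hW
  have h3 : tr ρ = ((W' d0).trace / (W d0).trace) • tr ρ' := by
    funext t
    rw [Pi.smul_apply, smul_eq_mul, div_mul_eq_mul_div, eq_div_iff hne, h2 t d0 hd0, mul_comm]
  have h4 : tr ρ = tr ρ' := eq_of_smul hF ⟨n, ρ, hρ, rfl⟩ ⟨n', ρ', hρ', rfl⟩ h3
  refine ⟨h4, ?_⟩
  obtain ⟨t0, ht0⟩ := H33.tr_ne_zero hρ
  funext d
  by_cases hd : DE f Y M d
  · rw [omW_of hd, omW_of hd]
    have h5 := h2 t0 d hd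
    rw [← h4] at h5
    exact mul_left_cancel₀ ht0 h5
  · rw [omW_not hd, omW_not hd]

/-! ### conjugation -/

/-- conjugation by `x` on `Y ∩ S` -/
def cjH (hY : Y.Normal) {x : X} (hx : x ∈ S) : ↥(Y ⊓ S) →* ↥(Y ⊓ S) where
  toFun t := ⟨x * t * x⁻¹, loc_norm hY hx t t.2⟩
  map_one' := Subtype.ext (by simp)
  map_mul' a b := Subtype.ext (by
    show x * ((a : X) * b) * x⁻¹ = x * a * x⁻¹ * (x * b * x⁻¹)
    group)

theorem cjH_bij (hY : Y.Normal) {x : X} (hx : x ∈ S) :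
    Function.Bijective (cjH (S := S) hY hx) := by
  apply Finite.injective_iff_bijective.1
  intro g g' h
  have h1 : x * (g : X) * x⁻¹ = x * (g' : X) * x⁻¹ := congrArg Subtype.val h
  exact Subtype.ext (mul_left_cancel (mul_right_cancel h1))

theorem ev_cjH (hY : Y.Normal) {x : X} (hx : x ∈ S) (a : X → F) :
    ev (ρ.comp (cjH hY hx)) (fun t : ↥(Y ⊓ S) => a t) = ev ρ (fun t : ↥(Y ⊓ S) => cjF x a t) := by
  have hfinL := Fintype.ofFinite ↥(Y ⊓ S)
  rw [ev, ev, finsum_eq_sum_of_fintype, finsum_eq_sum_of_fintype]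
  apply Fintype.sum_bijective _ (cjH_bij (S := S) hY hx)
  intro g
  show a g • ρ (cjH hY hx g) = cjF x a (x * g * x⁻¹) • ρ (cjH hY hx g)
  congr 1
  show a g = a (x⁻¹ * (x * g * x⁻¹) * x)
  congr 1
  group

theorem irr_cjH (hY : Y.Normal) {x : X} (hx : x ∈ S) (hρ : IsIrr ρ) :
    IsIrr (ρ.comp (cjH hY hx)) := by
  refine ⟨hρ.1, ?_⟩
  rw [← hρ.2]
  congr 1
  ext Z
  constructor
  · rintro ⟨t, rfl⟩
    exact ⟨_, rfl⟩
  · rintro ⟨t, rfl⟩
    obtain ⟨s, rfl⟩ := (cjH_bij hY hx).2 t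
    exact ⟨s, rfl⟩

theorem act_of_ev {L : Type} [Group L] [Finite L] {ρ : L →* Matrix (Fin n) (Fin n) F} {a : L → F}
    (h : ev ρ a = 1) : actF a (tr ρ) = tr ρ := by
  funext x
  rw [Pool.Agent.PP.actF_tr, h, one_mul]
  rfl

theorem act_cjH (hf : SBlk Y f) (hY : Y.Normal) {x : X} (hx : x ∈ S) (hρ : IsIrr ρ)
    (hφ : actF (fun t : ↥(Y ⊓ S) => f t) (tr ρ) = tr ρ) :
    actF (fun t : ↥(Y ⊓ S) => f t) (tr (ρ.comp (cjH hY hx))) = tr (ρ.comp (cjH hY hx)) := by
  apply act_of_ev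
  rw [ev_cjH, cjF_of_cl hf.cl]
  exact Pool.Agent.PP.J74.ev_f hf ρ hρ hφ

theorem DE_cj (hf : SBlk Y f) (hY : Y.Normal) (hM : M.Normal) {d : X → F} (hd : DE f Y M d)
    (x : X) : DE f Y M (cjF x d) := by
  refine ⟨⟨?_, ?_⟩, ?_⟩
  · intro n hn h
    show d (x⁻¹ * (n * h * n⁻¹) * x) = d (x⁻¹ * h * x)
    have h1 : x⁻¹ * n * x ∈ Y := by
      have := hY.conj_mem n hn x⁻¹
      rwa [inv_inv] at this
    rw [← hd.cc.inv _ h1 (x⁻¹ * h * x)]
    congr 1
    group
  · have h1 : mulF f (cjF x d) = mulF (cjF x f) (cjF x d) := by rw [cjF_of_cl hf.cl]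
    rw [h1, ← cjF_mulF, hd.cc.abs]
  · intro h hh
    apply hd.supp
    intro hc
    apply hh
    have := hM.conj_mem _ hc x
    have e : x * (x⁻¹ * h * x) * x⁻¹ = h := by group
    rwa [e] at this

/-- conjugation by `x` on functions, as a linear map -/
def cjL (F : Type) [Field F] {X : Type} [Group X] (x : X) : (X → F) →ₗ[F] (X → F) where
  toFun u := cjF x u
  map_add' _ _ := rfl
  map_smul' _ _ := rfl

theorem IrrD_cj (hf : SBlk Y f) (hY : Y.Normal) (hM : M.Normal) (hW : IrrD f Y M W) (x : X) :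
    IrrD f Y M (W ∘ₗ cjL F x) := by
  refine ⟨hW.pos, ?_, ?_, ?_⟩
  · show W (cjF x f) = 1
    rw [cjF_of_cl hf.cl, hW.one]
  · intro a b ha hb
    show W (cjF x (mulF a b)) = W (cjF x a) * W (cjF x b)
    rw [cjF_mulF, hW.mul _ _ (DE_cj hf hY hM ha x) (DE_cj hf hY hM hb x)]
  · rw [← hW.irr]
    congr 1
    ext Z
    constructor
    · rintro ⟨d, hd, rfl⟩
      exact ⟨cjF x d, DE_cj hf hY hM hd x, rfl⟩
    · rintro ⟨d, hd, rfl⟩
      refine ⟨cjF x⁻¹ d, DE_cj hf hY hM hd x⁻¹, ?_⟩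
      show W (cjF x (cjF x⁻¹ d)) = W d
      rw [cjF_cjF, mul_inv_cancel, cjF_one]

theorem io_conj [(M.subgroupOf S).Normal] (x : S) (g : ↥(M.subgroupOf S)) :
    io M S (MulAut.conjNormal x g) = (x : X) * io M S g * (x : X)⁻¹ := by
  show (((MulAut.conjNormal x g : ↥(M.subgroupOf S)) : S) : X) = _
  rw [MulAut.conjNormal_apply]
  rfl

theorem IsK_cj (hf : SBlk Y f) (hY : Y.Normal) (hL : Loc ℓ Y R S) [(M.subgroupOf S).Normal]
    {ψ : ↥(M.subgroupOf S) →* Matrix (Fin (n * m)) (Fin (n * m)) F}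
    (hψ : IsK f Y R S M ρ W ψ) (x : S) :
    IsK f Y R S M (ρ.comp (cjH hY x.2)) (W ∘ₗ cjL F (x : X))
      (ψ.comp (MulAut.conjNormal x : MulAut ↥(M.subgroupOf S)).toMonoidHom) := by
  intro g u u' hu
  have h1 := unit_conj hf hY hu (x : X)
  have h2 := hψ (MulAut.conjNormal x g) (cjF x u) (cjF x u') (by
    have := io_conj (M := M) x g
    show IsUnitOver f Y (io M S (MulAut.conjNormal x g)) _ _
    rw [this]
    exact h1)
  show ψ (MulAut.conjNormal x g) = _
  rw [h2]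
  show kr (EM Y S R ρ (io M S (MulAut.conjNormal x g)) (cjF x u')) (W (cjF x u)) =
    kr (EM Y S R (ρ.comp (cjH hY x.2)) (io M S g) u') (W (cjF x u))
  congr 1
  unfold EM
  rw [ev_cjH, io_conj, br_cj (hL.norm x.2)]
  congr 1
  funext t
  show br R u' ((x : X)⁻¹ * (t * ((x : X) * io M S g * (x : X)⁻¹)⁻¹) * x) =
    br R u' ((x : X)⁻¹ * t * x * (io M S g)⁻¹)
  congr 1
  group

end chr

end Pool.Agent.PP.H58
end
end -- Pool.Agent.Helper58_PP.Chr
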