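import Pool.Agent.Helper12_AWB.B045
import Pool.Agent.Helper12_AWB.B085
import Pool.Agent.Helper12_AWB.B088

/-!
# Merged copies (generated) of the modules

* `Pool.Agent.Helper58_PP.Tfa`
* `Pool.Agent.Helper62_PP.Scu`
-/

set_option autoImplicit false

section -- Pool.Agent.Helper58_PP.Tfa

/-!
TFA (AWC_J, J5), part 4: the factorisation of the sums of the counting lemma.
-/

open scoped BigOperators

set_option linter.unusedSectionVars false

noncomputable section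

namespace Pool.Agent.PP.H58

open Pool.Agent.PP Pool.Agent.PP.H20

section scal

variable {F X : Type} [Field F] [Group X] [Finite X] {ℓ : ℕ} {Y R S M : Subgroup X} {f : X → F}
  {n m : ℕ} {ρ : ↥(Y ⊓ S) →* Matrix (Fin n) (Fin n) F}
  {W : (X → F) →ₗ[F] Matrix (Fin m) (Fin m) F}

theorem comm_kr (hρ : IsIrr ρ) {P : Matrix (Fin (n * m)) (Fin (n * m)) F}
    (h : ∀ t, P * kr (ρ t) (1 : Matrix (Fin m) (Fin m) F) = kr (ρ t) 1 * P) :
    ∃ q : Matrix (Fin m) (Fin m) F, P = kr 1 q := by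
  apply H74.kr_commutant hρ.1
  intro A
  have hA : A ∈ Submodule.span F (Set.range ρ) := by rw [hρ.2]; trivial
  induction hA using Submodule.span_induction with
  | mem x hx =>
    obtain ⟨t, rfl⟩ := hx
    exact (h t).symm
  | zero => rw [H33.kr_zero_left, zero_mul, mul_zero]
  | add x y _ _ hx hy => rw [H74.kr_add_left, add_mul, mul_add, hx, hy]
  | smul c x _ hx => rw [H74.kr_smul_left, Matrix.smul_mul, Matrix.mul_smul, hx]

theorem inter_ev {L : Type} [Group L] [Finite L] {N N' : ℕ} {ψ : L →* Matrix (Fin N) (Fin N) F}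
    {ψ' : L →* Matrix (Fin N') (Fin N') F} {P : Matrix (Fin N') (Fin N) F}
    (h : ∀ t, P * ψ t = ψ' t * P) (a : L → F) : P * ev ψ a = ev ψ' a * P := by
  have hfin := Fintype.ofFinite L
  rw [ev, ev, finsum_eq_sum_of_fintype, finsum_eq_sum_of_fintype, Matrix.mul_sum, Matrix.sum_mul]
  apply Finset.sum_congr rfl
  intro t _
  rw [Matrix.mul_smul, h, Matrix.smul_mul]

/-- irreducible representations of `D` with equal characters are conjugate -/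
theorem W_conj (hF : GoodF ℓ F) (hf : SBlk Y f) (hY : Y.Normal) (hL : Loc ℓ Y R S)
    (hρ : IsIrr ρ) (hφ : actF (fun t : ↥(Y ⊓ S) => f t) (tr ρ) = tr ρ) (hYM : Y ≤ M)
    (hMX : M ≤ XF f Y) (hW : IrrD f Y M W) {W' : (X → F) →ₗ[F] Matrix (Fin m) (Fin m) F}
    (hW' : IrrD f Y M W') (h : omW f Y M W = omW f Y M W') :
    ∃ A : Matrix (Fin m) (Fin m) F, IsUnit A ∧ ∀ d, DE f Y M d → A * W d = W' d * A := by
  obtain ⟨ψ, hψ⟩ := exists_psi hF hf hY hL hρ hφ hYM hMX hW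
  obtain ⟨ψ', hψ'⟩ := exists_psi hF hf hY hL hρ hφ hYM hMX hW'
  have hmem : ∀ g : ↥(M.subgroupOf S), io M S g ∈ M := fun g => Subgroup.mem_subgroupOf.1 g.2
  have hex : ∀ g : ↥(M.subgroupOf S), ∃ u u', IsUnitOver f Y (io M S g) u u' :=
    fun g => (mem_XF hf hY).1 (hMX (hmem g))
  choose U U' hU using hex
  have htr : tr ψ = tr ψ' := by
    rw [tr_psi hYM hU hψ, tr_psi hYM hU hψ', h]
  obtain ⟨P, Q, -, hPQ, hQP, hP⟩ := ibc ℓ F hF ↥(M.subgroupOf S) _ _ ψ ψ'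
    (psi_irr hF hf hY hL hρ hφ hYM hMX hW hψ) (psi_irr hF hf hY hL hρ hφ hYM hMX hW' hψ') htr
  have hQ : ∀ t, Q * ψ' t = ψ t * Q := by
    intro t
    calc Q * ψ' t = Q * (ψ' t * P) * Q := by rw [mul_assoc, mul_assoc, hPQ, mul_one]
      _ = (Q * P) * ψ t * Q := by rw [← hP]; simp only [mul_assoc]
      _ = ψ t * Q := by rw [hQP, one_mul]
  obtain ⟨q, hq⟩ := comm_kr (m := m) hρ (P := P) (by
    intro t
    rw [← psi_Y hF hf hY hL hρ hφ hYM hW hψ, hP, psi_Y hF hf hY hL hρ hφ hYM hW' hψ',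
      psi_Y hF hf hY hL hρ hφ hYM hW hψ])
  obtain ⟨q', hq'⟩ := comm_kr (m := m) hρ (P := Q) (by
    intro t
    rw [← psi_Y hF hf hY hL hρ hφ hYM hW' hψ', hQ, psi_Y hF hf hY hL hρ hφ hYM hW hψ,
      psi_Y hF hf hY hL hρ hφ hYM hW' hψ'])
  refine ⟨q, ?_, ?_⟩
  · have h1 : q * q' = 1 := by
      apply H74.kr_one_inj_right hρ.1
      rw [H74.kr_one, ← hPQ, hq, hq', H74.kr_mul, mul_one]
    exact IsUnit.of_mul_eq_one q' h1
  · intro d hd
    apply H74.kr_one_inj_right hρ.1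
    have h1 := inter_ev hP (fun t => br R d (io M S t))
    rw [psi_DE hF hf hY hL hρ hφ hYM hMX hW hψ hd, psi_DE hF hf hY hL hρ hφ hYM hMX hW' hψ' hd, hq,
      H74.kr_mul, H74.kr_mul, mul_one] at h1
    exact h1

/-- existence of the scalar `c_W` -/
theorem exists_sW (hf : SBlk Y f) (hY : Y.Normal) (hM : M.Normal) (hYM : Y ≤ M)
    (hW : IrrD f Y M W) {x y : X} (hk : x * y * x⁻¹ * y⁻¹ ∈ M) {u u' : X → F}
    (hu : IsUnitOver f Y (x * y * x⁻¹ * y⁻¹) u u') {A B : Matrix (Fin m) (Fin m) F}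
    (hA : ImpW f Y M W x A) (hB : ImpW f Y M W y B) : ∃ c : F, A * B = c • (W u * (B * A)) := by
  have huD := CE_DE hYM hk hu.left
  have huD' := CE_DE hYM (M.inv_mem hk) hu.right
  have hWuu : W u * W u' = 1 := by rw [← hW.mul _ _ huD huD', hu.mul, hW.one]
  obtain ⟨A1, hA1⟩ := hA.1
  obtain ⟨B1, hB1⟩ := hB.1
  -- the inverse
  obtain ⟨Ni, hNi⟩ : ∃ Ni : Matrix (Fin m) (Fin m) F, Ni =
    (A1⁻¹ : (Matrix (Fin m) (Fin m) F)ˣ) * (B1⁻¹ : (Matrix (Fin m) (Fin m) F)ˣ) * W u' := ⟨_, rfl⟩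
  have hWuu' : W u' * W u = 1 := mul_eq_one_comm.1 hWuu
  have hN1 : Ni * (W u * (B * A)) = 1 := by
    rw [hNi, ← hA1, ← hB1]
    calc _ = (↑A1⁻¹ : Matrix (Fin m) (Fin m) F) * ((↑B1⁻¹ : Matrix (Fin m) (Fin m) F) *
          (W u' * W u) * (B1 : Matrix (Fin m) (Fin m) F)) * (A1 : Matrix (Fin m) (Fin m) F) := by
          simp only [mul_assoc]
      _ = 1 := by
        rw [hWuu', mul_one, Units.inv_mul, mul_one, Units.inv_mul]
  have hN2 : W u * (B * A) * Ni = 1 := mul_eq_one_comm.1 hN1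
  have h1 : ∀ d, DE f Y M d → A * B * W d = W (cjF (x * y) d) * (A * B) := by
    intro d hd
    rw [mul_assoc, hB.2 d hd, ← mul_assoc, hA.2 _ (DE_cj hf hY hM hd y), cjF_cjF, mul_assoc]
  have h2 : ∀ d, DE f Y M d → W u * (B * A) * W d = W (cjF (x * y) d) * (W u * (B * A)) := by
    intro d hd
    have h3 : W u * W (cjF (y * x) d) = W (cjF (x * y) d) * W u := by
      have hd' := DE_cj hf hY hM hd (y * x)
      rw [← hW.mul _ _ huD hd', cj_unit hf hY hu hd'.cc,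
        hW.mul _ _ (DE_cj hf hY hM hd' _) huD, cjF_cjF]
      congr 3
      group
    calc W u * (B * A) * W d = W u * (B * (A * W d)) := by simp only [mul_assoc]
      _ = W u * (W (cjF y (cjF x d)) * B * A) := by
        rw [hA.2 d hd, ← mul_assoc B, hB.2 _ (DE_cj hf hY hM hd x)]
      _ = W u * W (cjF (y * x) d) * (B * A) := by rw [cjF_cjF]; simp only [mul_assoc]
      _ = _ := by rw [h3]; simp only [mul_assoc]
  have h3 : ∀ d, DE f Y M d → Ni * W (cjF (x * y) d) = W d * Ni := by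
    intro d hd
    calc Ni * W (cjF (x * y) d) = Ni * (W (cjF (x * y) d) * (W u * (B * A))) * Ni := by
          rw [mul_assoc, mul_assoc, hN2, mul_one]
      _ = (Ni * (W u * (B * A))) * W d * Ni := by rw [← h2 d hd]; simp only [mul_assoc]
      _ = W d * Ni := by rw [hN1, one_mul]
  obtain ⟨c, hc⟩ := scalar_of_comm hW (A := Ni * (A * B)) (by
    intro d hd
    rw [mul_assoc, h1 d hd, ← mul_assoc, h3 d hd, mul_assoc])
  refine ⟨c, ?_⟩
  calc A * B = W u * (B * A) * Ni * (A * B) := by rw [hN2, one_mul]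
    _ = W u * (B * A) * (Ni * (A * B)) := by simp only [mul_assoc]
    _ = c • (W u * (B * A)) := by
      rw [hc, Matrix.scalar_apply, ← Matrix.smul_one_eq_diagonal, Matrix.mul_smul, mul_one]

/-- the scalar of `ρ * W` -/
theorem isTC (hF : GoodF ℓ F) (hf : SBlk Y f) (hY : Y.Normal) (hL : Loc ℓ Y R S)
    [(M.subgroupOf S).Normal]
    (hρ : IsIrr ρ) (hφ : actF (fun t : ↥(Y ⊓ S) => f t) (tr ρ) = tr ρ) (hYM : Y ≤ M)
    (hMX : M ≤ XF f Y) (hW : IrrD f Y M W)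
    {ψ : ↥(M.subgroupOf S) →* Matrix (Fin (n * m)) (Fin (n * m)) F}
    (hψ : IsK f Y R S M ρ W ψ) {x y : S} (hk : (x * y * x⁻¹ * y⁻¹ : X) ∈ M) {u u' : X → F}
    (hu : IsUnitOver f Y (x * y * x⁻¹ * y⁻¹ : X) u u') {A B : Matrix (Fin n) (Fin n) F}
    (hA : ImpJ ρ (x : X) A) (hB : ImpJ ρ (y : X) B) {A' B' : Matrix (Fin m) (Fin m) F}
    (hA' : ImpW f Y M W (x : X) A') (hB' : ImpW f Y M W (y : X) B') {c c' : F}
    (hc : ev ρ (fun t : ↥(Y ⊓ S) => br R u (x * y * x⁻¹ * y⁻¹ * t : X)) * (A * B) = c • (B * A))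
    (hc' : A' * B' = c' • (W u * (B' * A'))) :
    IsTC (M.subgroupOf S) (tr ψ) x y (c * c') := by
  have hkS : x * y * x⁻¹ * y⁻¹ ∈ M.subgroupOf S := Subgroup.mem_subgroupOf.2 hk
  have hkr : ∀ {C : Matrix (Fin n) (Fin n) F} {C' : Matrix (Fin m) (Fin m) F}, IsUnit C →
      IsUnit C' → IsUnit (kr C C') := by
    intro C C' h h'
    obtain ⟨C, rfl⟩ := h
    obtain ⟨C', rfl⟩ := h'
    apply IsUnit.of_mul_eq_one (kr (C⁻¹ : (Matrix (Fin n) (Fin n) F)ˣ)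
      (C'⁻¹ : (Matrix (Fin m) (Fin m) F)ˣ) : Matrix (Fin (n * m)) (Fin (n * m)) F)
    rw [H74.kr_mul, Units.mul_inv, Units.mul_inv, H74.kr_one]
  have hint : ∀ (z : S) (C : Matrix (Fin n) (Fin n) F) (C' : Matrix (Fin m) (Fin m) F),
      ImpJ ρ (z : X) C → ImpW f Y M W (z : X) C' → ∀ g : ↥(M.subgroupOf S),
      kr C C' * ψ g = ψ (MulAut.conjNormal z g) * kr C C' := by
    intro z C C' hC hC' g
    have hgM : io M S g ∈ M := Subgroup.mem_subgroupOf.1 g.2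
    obtain ⟨v, v', hv⟩ := (mem_XF hf hY).1 (hMX hgM)
    have h1 := IsK_cj hf hY hL hψ z g v v' hv
    have h2 : ψ (MulAut.conjNormal z g) = kr (EM Y S R (ρ.comp (cjH hY z.2)) (io M S g) v')
      ((W ∘ₗ cjL F (z : X)) v) := h1
    rw [h2, hψ g v v' hv, H74.kr_mul, H74.kr_mul]
    have h3 : C' * W v = (W ∘ₗ cjL F (z : X)) v * C' := hC'.2 v (CE_DE hYM hgM hv.left)
    have h4 : C * EM Y S R ρ (io M S g) v' = EM Y S R (ρ.comp (cjH hY z.2)) (io M S g) v' * C := by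
      unfold EM
      rw [ev_cjH]
      exact (ev_res_cj (loc_norm hY z.2) hC _).symm
    rw [h3]
    congr 1
  refine ⟨n * m, ψ, kr A A', kr B B', hkS, psi_irr hF hf hY hL hρ hφ hYM hMX hW hψ, rfl,
    hkr hA.1 hA'.1, hkr hB.1 hB'.1, hint x A A' hA hA', hint y B B' hB hB', ?_⟩
  -- the scalar
  have hkS' : (x * y * x⁻¹ * y⁻¹ : X) ∈ S := (x * y * x⁻¹ * y⁻¹ : S).2
  have h1 : ψ ⟨x * y * x⁻¹ * y⁻¹, hkS⟩ = kr (EM Y S R ρ (x * y * x⁻¹ * y⁻¹ : X) u') (W u) :=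
    hψ ⟨x * y * x⁻¹ * y⁻¹, hkS⟩ u u' hu
  have h2 : A * B = c • (EM Y S R ρ (x * y * x⁻¹ * y⁻¹ : X) u' * (B * A)) := by
    rw [← Matrix.mul_smul, ← hc, ← mul_assoc]
    have h3 := ev_res_mul ρ (rt_supp hY hL hkS' hu.right) (lt (x * y * x⁻¹ * y⁻¹ : X)⁻¹ (br R u))
    have h4 : mulF (rt (x * y * x⁻¹ * y⁻¹ : X) (br R u'))
        (lt (x * y * x⁻¹ * y⁻¹ : X)⁻¹ (br R u)) = br R f := by
      apply toMA_injective
      rw [toMA_mulF, toMA_rt, toMA_lt]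
      calc toMA (br R u') * sg (x * y * x⁻¹ * y⁻¹ : X) *
            (sg (x * y * x⁻¹ * y⁻¹ : X)⁻¹ * toMA (br R u)) =
          toMA (br R u') * (sg (x * y * x⁻¹ * y⁻¹ : X) * sg (x * y * x⁻¹ * y⁻¹ : X)⁻¹) *
            toMA (br R u) := by simp only [mul_assoc]
        _ = toMA (br R f) := by
          rw [sg_mul_inv, mul_one, ← toMA_mulF, ← br_mulF_Y hF hL hu.right.inv hu.left.inv,
            unit_symm hf hY hu]
    rw [h4, ev_br_one hF hf hL hρ hφ] at h3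
    have h5 : (fun t : ↥(Y ⊓ S) => lt (x * y * x⁻¹ * y⁻¹ : X)⁻¹ (br R u) t) =
        fun t : ↥(Y ⊓ S) => br R u (x * y * x⁻¹ * y⁻¹ * t : X) := by
      funext t
      show br R u ((x * y * x⁻¹ * y⁻¹ : X)⁻¹⁻¹ * t) = _
      rw [inv_inv]
    rw [h5] at h3
    show A * B = EM Y S R ρ (x * y * x⁻¹ * y⁻¹ : X) u' *
      ev ρ (fun t : ↥(Y ⊓ S) => br R u (x * y * x⁻¹ * y⁻¹ * t : X)) * (A * B)
    unfold EM
    rw [← h3, one_mul]
  rw [h1, H74.kr_mul, H74.kr_mul, H74.kr_mul, hc', h2, H74.kr_smul_left, H74.kr_smul_right,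
    smul_smul, Matrix.mul_assoc, Matrix.mul_assoc]

end scal

/-! ### the factorisation -/

theorem finsum_prod {α β : Type} {s : Set α} {t : Set β} (hs : s.Finite) (ht : t.Finite)
    (g : α → ℂ) (h : β → ℂ) :
    ∑ᶠ p ∈ s ×ˢ t, h p.2 * g p.1 = (∑ᶠ b ∈ t, h b) * ∑ᶠ a ∈ s, g a := by
  classical
  obtain ⟨s', rfl⟩ := hs.exists_finset_coe
  obtain ⟨t', rfl⟩ := ht.exists_finset_coe
  rw [← Finset.coe_product, finsum_mem_coe_finset, finsum_mem_coe_finset, finsum_mem_coe_finset,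
    Finset.sum_mul_sum, Finset.sum_product, Finset.sum_comm]

theorem tfa (hscu : ScuStmt) : TfaStmt := by
  intro ℓ F _ hF τ hτ X _ _ Y hY f hf R S hL M _ hM hYM hMX e he hef hes x y hk u u' hu
  classical
  have hmem : ∀ g : ↥(M.subgroupOf S), io M S g ∈ M := fun g => Subgroup.mem_subgroupOf.1 g.2
  have hex : ∀ g : ↥(M.subgroupOf S), ∃ u u', IsUnitOver f Y (io M S g) u u' :=
    fun g => (mem_XF hf hY).1 (hMX (hmem g))
  choose U U' hU using hex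
  have hRr : R ≤ (io M S).range := fun r hr => io_range.2 ⟨hYM (hL.le hr), hL.leS hr⟩
  have hNr : ∀ t, io M S t ∈ Subgroup.normalizer (R : Set X) := fun t => hL.norm (t : S).2
  have heD : DE f Y M e := by
    refine ⟨⟨fun n _ h => he.1 h n, ?_⟩, hes⟩
    rw [H20.mulF_comm_of_cl hf.cl, hef]
  -- fixed characters
  have hfix : ∀ (n m : ℕ) (ρ : ↥(Y ⊓ S) →* Matrix (Fin n) (Fin n) F)
      (W : (X → F) →ₗ[F] Matrix (Fin m) (Fin m) F), IsIrr ρ →
      actF (fun t : ↥(Y ⊓ S) => f t) (tr ρ) = tr ρ → IrrD f Y M W → ∀ z : S,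
      ((∀ l, PPc Y R S M U U' (tr ρ) (omW f Y M W) (MulAut.conjNormal z l) =
        PPc Y R S M U U' (tr ρ) (omW f Y M W) l) ↔
      (∀ a a' : ↥(Y ⊓ S), (a' : X) = z * a * (z : X)⁻¹ → tr ρ a' = tr ρ a) ∧
        ∀ d, DE f Y M d → omW f Y M W (cjF (z : X) d) = omW f Y M W d) := by
    intro n m ρ W hρ hφ hW z
    obtain ⟨ψ, hψ⟩ := exists_psi hF hf hY hL hρ hφ hYM hMX hW
    have hψz := IsK_cj hf hY hL hψ z
    have hρz := irr_cjH (S := S) hY z.2 hρ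
    have hφz := act_cjH (S := S) hf hY z.2 hρ hφ
    have hWz := IrrD_cj hf hY hM hW (z : X)
    have h1 := tr_psi hYM hU hψ
    have h2 := tr_psi hYM hU hψz
    have h3 : ∀ l, tr ψ (MulAut.conjNormal z l) =
      tr (ψ.comp (MulAut.conjNormal z : MulAut ↥(M.subgroupOf S)).toMonoidHom) l := fun l => rfl
    constructor
    · intro h
      rw [← h1] at h
      have h4 : tr (ψ.comp (MulAut.conjNormal z : MulAut ↥(M.subgroupOf S)).toMonoidHom) = tr ψ := by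
        funext l
        rw [← h3, h l]
      obtain ⟨h5, h6⟩ := sep hF hf hY hL hYM hMX hρz hφz hWz hρ hφ hW hψz hψ h4
      refine ⟨?_, ?_⟩
      · intro a a' ha
        have h7 := congrFun h5 a
        have h8 : a' = cjH hY z.2 a := Subtype.ext ha
        rw [h8]
        exact h7
      · intro d hd
        have h7 := congrFun h6 d
        rw [omW_of hd] at h7
        rw [omW_of (DE_cj hf hY hM hd z)]
        exact h7
    · rintro ⟨h5, h6⟩ l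
      rw [← h1, h3, h2, h1]
      have h7 : tr (ρ.comp (cjH hY z.2)) = tr ρ := by
        funext a
        exact h5 a _ rfl
      have h8 : omW f Y M (W ∘ₗ cjL F (z : X)) = omW f Y M W := by
        funext d
        by_cases hd : DE f Y M d
        · rw [← h6 d hd, omW_of hd, omW_of (DE_cj hf hY hM hd z)]
          rfl
        · rw [omW_not hd, omW_not hd]
      rw [h7, h8]
  -- the idempotent `e`
  have hee : ∀ (m : ℕ) (W : (X → F) →ₗ[F] Matrix (Fin m) (Fin m) F), IrrD f Y M W →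
      ((∀ d, DE f Y M d → omW f Y M W (mulF e d) = omW f Y M W d) ↔ W e = 1) := by
    intro m W hW
    obtain ⟨w, hw⟩ := scalar_of_comm hW (A := W e) (by
      intro d hd
      rw [← hW.mul _ _ heD hd, ← hW.mul _ _ hd heD, H20.mulF_comm_of_cl he.1])
    have hed : ∀ d, DE f Y M d → DE f Y M (mulF e d) := by
      intro d hd
      refine ⟨heD.cc.mul hd.cc, ?_⟩
      intro h hh
      apply Pool.Agent.PP.J74.mulF_supp (S := (M : Set X)) (T := (M : Set X)) heD.supp hd.supp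
      rintro s hs t ht rfl
      exact hh (M.mul_mem hs ht)
    have h1 : ∀ d, DE f Y M d → omW f Y M W (mulF e d) = w * omW f Y M W d := by
      intro d hd
      rw [omW_of (hed d hd), omW_of hd, hW.mul _ _ heD hd, hw, Matrix.scalar_apply,
        ← Matrix.smul_one_eq_diagonal, Matrix.smul_mul, Matrix.one_mul, Matrix.trace_smul,
        smul_eq_mul]
    constructor
    · intro h
      obtain ⟨d0, hd0, hne⟩ := W_tr_ne hW
      have h2 := h1 d0 hd0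
      rw [h d0 hd0, omW_of hd0] at h2
      have h3 : w = 1 := by
        have h4 : (1 - w) * (W d0).trace = 0 := by rw [sub_mul, one_mul, ← h2, sub_self]
        rcases mul_eq_zero.1 h4 with h5 | h5
        · exact (sub_eq_zero.1 h5).symm
        · exact absurd h5 hne
      rw [hw, h3, map_one]
    · intro h d hd
      rw [omW_of (hed d hd), omW_of hd, hW.mul _ _ heD hd, h, one_mul]
  -- the bijection
  have hbij : Set.BijOn (fun p : (↥(Y ⊓ S) → F) × ((X → F) → F) => PPc Y R S M U U' p.1 p.2)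
      (phiS Y S f x y ×ˢ omS f Y M e x y)
      (phiSet (M.subgroupOf S) (fun t : S => e t) x y) := by
    refine ⟨?_, ?_, ?_⟩
    · rintro ⟨φ, ω⟩ ⟨⟨⟨n, ρ, hρ, rfl⟩, hφ, hφx, hφy⟩, ⟨⟨m, W, hW, rfl⟩, hωe, hωx, hωy⟩⟩
      obtain ⟨ψ, hψ⟩ := exists_psi hF hf hY hL hρ hφ hYM hMX hW
      have h1 := tr_psi hYM hU hψ
      have hirr := psi_irr hF hf hY hL hρ hφ hYM hMX hW hψ
      refine ⟨⟨_, ψ, hirr, h1.symm⟩, ?_,
        (hfix n m ρ W hρ hφ hW x).2 ⟨hφx, hωx⟩, (hfix n m ρ W hρ hφ hW y).2 ⟨hφy, hωy⟩⟩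
      show actF (fun t : ↥(M.subgroupOf S) => e (io M S t)) (PPc Y R S M U U' (tr ρ) (omW f Y M W)) =
        PPc Y R S M U U' (tr ρ) (omW f Y M W)
      rw [← h1]
      apply act_of_ev
      rw [comp_br (io M S) hF (io_inj M S) hL.pgrp hRr hNr hirr (fun s t => he.1 _ _),
        psi_DE hF hf hY hL hρ hφ hYM hMX hW hψ heD, (hee m W hW).1 hωe, H74.kr_one]
    · rintro ⟨φ, ω⟩ ⟨⟨⟨n, ρ, hρ, rfl⟩, hφ, -, -⟩, ⟨⟨m, W, hW, rfl⟩, -, -, -⟩⟩ ⟨φ', ω'⟩
        ⟨⟨⟨n', ρ', hρ', rfl⟩, hφ', -, -⟩, ⟨⟨m', W', hW', rfl⟩, -, -, -⟩⟩ h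
      obtain ⟨ψ, hψ⟩ := exists_psi hF hf hY hL hρ hφ hYM hMX hW
      obtain ⟨ψ', hψ'⟩ := exists_psi hF hf hY hL hρ' hφ' hYM hMX hW'
      have h1 := tr_psi hYM hU hψ
      have h2 := tr_psi hYM hU hψ'
      obtain ⟨h3, h4⟩ := sep hF hf hY hL hYM hMX hρ hφ hW hρ' hφ' hW' hψ hψ' (by
        rw [h1, h2]
        exact h)
      exact Prod.ext h3 h4
    · rintro _ ⟨⟨N, ψ, hψ, rfl⟩, hψe, hψx, hψy⟩
      have hcl : IsCl (fun t : ↥(M.subgroupOf S) => e (io M S t)) := by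
        intro s t
        show e (io M S (t * s * t⁻¹)) = e (io M S s)
        rw [map_mul, map_mul, map_inv, he.1]
      have hev : ev ψ (fun t => e (io M S t)) = 1 := by
        obtain ⟨c, hc, hc2, -⟩ := eig F ↥(M.subgroupOf S) N ψ hψ _ hcl
        have h5 : actF (fun t : ↥(M.subgroupOf S) => e (io M S t)) (tr ψ) = tr ψ := hψe
        rw [h5] at hc2
        obtain ⟨t, ht⟩ := H33.tr_ne_zero hψ
        have h3 := congrFun hc2 t
        rw [Pi.smul_apply, smul_eq_mul] at h3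
        have h4 : c = 1 := by
          have : (1 - c) * tr ψ t = 0 := by rw [sub_mul, one_mul, ← h3, sub_self]
          rcases mul_eq_zero.1 this with h5 | h5
          · exact (sub_eq_zero.1 h5).symm
          · exact absurd h5 ht
        rw [hc, h4, map_one]
      have hes' : ∀ t, t ∉ (io M S).range → br R e t = 0 := br_supp hL hes
      have hevb : ev ψ (fun t => br R e (io M S t)) = 1 := by
        rw [← comp_br (io M S) hF (io_inj M S) hL.pgrp hRr hNr hψ (fun s t => he.1 _ _), hev]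
      have hfb : ev ψ (fun t => br R f (io M S t)) = 1 := by
        have h1 := comp_ev_mul (io M S) (io_inj M S) ψ hes' (br R f)
        rw [← br_mulF_Y hF hL heD.cc.inv (fun n _ h => hf.cl h n), hef, hevb, one_mul] at h1
        exact h1.symm
      have hf1 : ev ψ (fun t => f (io M S t)) = 1 := by
        rw [comp_br (io M S) hF (io_inj M S) hL.pgrp hRr hNr hψ (fun s t => hf.cl _ _), hfb]
      obtain ⟨n, m, ρ, W, T, T', hρ, hφ, hW, hTT, hTT', hψT, hdT⟩ :=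
        exhaust hF hf hY hL hYM hMX hψ hf1
      have htr : tr ψ = PPc Y R S M U U' (tr ρ) (omW f Y M W) := by
        obtain ⟨ψ', hψ'⟩ := exists_psi hF hf hY hL hρ hφ hYM hMX hW
        rw [← tr_psi hYM hU hψ']
        funext g
        show (ψ g).trace = (ψ' g).trace
        rw [hψT g _ _ (hU g), hψ' g _ _ (hU g), Matrix.trace_mul_comm, ← Matrix.mul_assoc, hTT',
          Matrix.one_mul]
        rfl
      have hWe : W e = 1 := by
        have h1 := hdT e heD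
        rw [hevb] at h1
        apply H74.kr_one_inj_right hρ.1
        rw [H74.kr_one]
        calc kr (1 : Matrix (Fin n) (Fin n) F) (W e) =
              (T' * T) * kr (1 : Matrix (Fin n) (Fin n) F) (W e) * (T' * T) := by
              rw [hTT', one_mul, mul_one]
          _ = T' * (T * kr (1 : Matrix (Fin n) (Fin n) F) (W e) * T') * T := by
              simp only [Matrix.mul_assoc]
          _ = 1 := by rw [← h1, Matrix.mul_one, hTT']
      rw [htr] at hψx hψy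
      have h5 := (hfix n m ρ W hρ hφ hW x).1 hψx
      have h6 := (hfix n m ρ W hρ hφ hW y).1 hψy
      refine ⟨(tr ρ, omW f Y M W), ⟨⟨⟨n, ρ, hρ, rfl⟩, hφ, h5.1, h6.1⟩,
        ⟨⟨m, W, hW, rfl⟩, (hee m W hW).2 hWe, h5.2, h6.2⟩⟩, htr.symm⟩
  -- the values
  have hval : ∀ p ∈ phiS Y S f x y ×ˢ omS f Y M e x y,
      τ (sW f Y M p.2 x y u) * τ (sc Y S R p.1 x y u) =
        τ (tc (M.subgroupOf S) (PPc Y R S M U U' p.1 p.2) x y) := by
    rintro ⟨φ, ω⟩ hp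
    have hPm := hbij.mapsTo hp
    obtain ⟨hφS, hωS⟩ := hp
    have hφS0 := hφS
    have hωS0 := hωS
    obtain ⟨⟨n, ρ, hρ, rfl⟩, hφ, hφx, hφy⟩ := hφS
    obtain ⟨⟨m, W, hW, rfl⟩, hωe, hωx, hωy⟩ := hωS
    obtain ⟨h1, h2, -⟩ := hscu ℓ F hF X Y hY f hf R S hL x x.2 y y.2 u u' hu (tr ρ) hφS0
    have hx8 : ∀ z : S, (∀ d, DE f Y M d → omW f Y M W (cjF (z : X) d) = omW f Y M W d) →
        ∃ A, ImpW f Y M W (z : X) A := by
      intro z hz
      have h8 : omW f Y M W = omW f Y M (W ∘ₗ cjL F (z : X)) := by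
        funext d
        by_cases hd : DE f Y M d
        · rw [← hz d hd, omW_of hd, omW_of (DE_cj hf hY hM hd z)]
          rfl
        · rw [omW_not hd, omW_not hd]
      obtain ⟨A, hA, hA'⟩ := W_conj hF hf hY hL hρ hφ hYM hMX hW
        (IrrD_cj hf hY hM hW (z : X)) h8
      exact ⟨A, hA, hA'⟩
    obtain ⟨A', hA'⟩ := hx8 x hωx
    obtain ⟨B', hB'⟩ := hx8 y hωy
    obtain ⟨c', hc'⟩ := exists_sW hf hY hM hYM hW hk hu hA' hB'
    have h3 : ∃ c, IsSW f Y M (omW f Y M W) (x : X) (y : X) u c :=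
      ⟨c', m, W, A', B', hW, rfl, hA', hB', hc'⟩
    have h4 : sW f Y M (omW f Y M W) (x : X) (y : X) u = h3.choose := by rw [sW, dif_pos h3]
    have h5 : IsSW f Y M (omW f Y M W) (x : X) (y : X) u
        (sW f Y M (omW f Y M W) (x : X) (y : X) u) := by
      rw [h4]
      exact h3.choose_spec
    obtain ⟨n1, ρ1, A1, B1, hρ1, hφ1, hA1, hB1, hc1⟩ := h2
    obtain ⟨m2, W2, A2, B2, hW2, hω2, hA2, hB2, hc2⟩ := h5
    have hφ1' : actF (fun t : ↥(Y ⊓ S) => f t) (tr ρ1) = tr ρ1 := by rw [hφ1]; exact hφ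
    obtain ⟨ψ, hψ⟩ := exists_psi hF hf hY hL hρ1 hφ1' hYM hMX hW2
    have h6 := isTC hF hf hY hL hρ1 hφ1' hYM hMX hW2 hψ hk hu hA1 hB1 hA2 hB2 hc1 hc2
    have h7 : tr ψ = PPc Y R S M U U' (tr ρ) (omW f Y M W) := by
      rw [tr_psi hYM hU hψ, hφ1]
      congr 1
      exact hω2.symm
    rw [h7] at h6
    have hkS : x * y * x⁻¹ * y⁻¹ ∈ M.subgroupOf S := Subgroup.mem_subgroupOf.2 hk
    obtain ⟨h8, -, h9⟩ := Pool.Agent.Helper58_CL.clu ibc ℓ F hF S (M.subgroupOf S)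
      (PPc Y R S M U U' (tr ρ) (omW f Y M W)) hPm.1 x y hkS hPm.2.2.1 hPm.2.2.2
    have h10 := h9 _ h6
    show τ (sW f Y M (omW f Y M W) (x : X) (y : X) u) * τ (sc Y S R (tr ρ) (x : X) (y : X) u) =
      τ (tc (M.subgroupOf S) (PPc Y R S M U U' (tr ρ) (omW f Y M W)) x y)
    rw [← h10]
    have h11 : sW f Y M (omW f Y M W) (x : X) (y : X) u ≠ 0 := by
      intro h0
      apply h8
      rw [← h10, h0, mul_zero]
    rw [hτ.mul _ _ h1 h11, mul_comm]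
  -- the sum
  unfold csum BB SS
  rw [← finsum_mem_eq_of_bijOn _ hbij hval]
  have hfinS : (phiS Y S f (x : X) (y : X)).Finite :=
    (ibf ℓ F hF ↥(Y ⊓ S)).1.subset fun φ hφ => hφ.1
  by_cases hne : (phiS Y S f (x : X) (y : X)).Nonempty
  · obtain ⟨φ0, hφ0⟩ := hne
    have hfinT : (omS f Y M e (x : X) (y : X)).Finite := by
      have h1 : (phiSet (M.subgroupOf S) (fun t : S => e t) x y).Finite :=
        (ibf ℓ F hF ↥(M.subgroupOf S)).1.subset fun φ hφ => hφ.1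
      apply Set.Finite.of_injOn (f := fun ω => PPc Y R S M U U' φ0 ω) _ _ h1
      · intro ω hω
        exact hbij.mapsTo (show (φ0, ω) ∈ _ from ⟨hφ0, hω⟩)
      · intro ω hω ω' hω' h
        have h2 := hbij.injOn (show (φ0, ω) ∈ phiS Y S f (x : X) (y : X) ×ˢ omS f Y M e x y from
          ⟨hφ0, hω⟩) (show (φ0, ω') ∈ phiS Y S f (x : X) (y : X) ×ˢ omS f Y M e x y from
          ⟨hφ0, hω'⟩) h
        exact (Prod.mk.injEq _ _ _ _ ▸ h2).2
    exact finsum_prod hfinS hfinT (fun φ => τ (sc Y S R φ (x : X) (y : X) u))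
      (fun ω => τ (sW f Y M ω (x : X) (y : X) u))
  · rw [Set.not_nonempty_iff_eq_empty] at hne
    rw [hne, Set.empty_prod, finsum_mem_empty, finsum_mem_empty, mul_zero]

end Pool.Agent.PP.H58
end
end -- Pool.Agent.Helper58_PP.Tfa

section -- Pool.Agent.Helper62_PP.Scu

/-!
# Squad PP, part J: SCU and STA (J4.4, J4.5), the scalars of the pair sums
-/

open scoped BigOperators

set_option linter.unusedSectionVars false

noncomputable section

namespace Pool.Agent.PP.H62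

open Pool.Agent.PP Pool.Agent.PP.H20

section imp

variable {ℓ : ℕ} {F X : Type} [Field F] [Group X] [Finite X] {L : Subgroup X} {n : ℕ}
  {ρ : L →* Matrix (Fin n) (Fin n) F}

/-- existence of the implementing matrix -/
theorem imp_exists (hF : GoodF ℓ F) (hρ : IsIrr ρ) {x : X}
    (hx : ∀ g, g ∈ L → x * g * x⁻¹ ∈ L)
    (htr : ∀ g g' : L, (g' : X) = x * g * x⁻¹ → tr ρ g' = tr ρ g) : ∃ A, ImpJ ρ x A := by
  let e : L → L := fun g => ⟨x * g * x⁻¹, hx g g.2⟩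
  have he : Function.Injective e := by
    intro g g' h
    have h1 : x * (g : X) * x⁻¹ = x * (g' : X) * x⁻¹ := congrArg Subtype.val h
    exact Subtype.ext (mul_left_cancel (mul_right_cancel h1))
  have hes : Function.Surjective e := Finite.surjective_of_injective he
  let σ : L →* Matrix (Fin n) (Fin n) F :=
    { toFun := fun g => ρ (e g)
      map_one' := by
        have : e 1 = 1 := Subtype.ext (by show x * 1 * x⁻¹ = 1; group)
        rw [this, map_one]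
      map_mul' := fun g h => by
        have : e (g * h) = e g * e h := Subtype.ext (by
          show x * ((g : X) * h) * x⁻¹ = x * g * x⁻¹ * (x * h * x⁻¹)
          group)
        rw [this, map_mul] }
  have hσv : ∀ g, σ g = ρ (e g) := fun _ => rfl
  have hσ : IsIrr σ := by
    refine ⟨hρ.1, ?_⟩
    have : Set.range σ = Set.range ρ := by
      ext M
      constructor
      · rintro ⟨g, rfl⟩; exact ⟨e g, rfl⟩
      · rintro ⟨g, rfl⟩
        obtain ⟨g0, rfl⟩ := hes g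
        exact ⟨g0, rfl⟩
    rw [this, hρ.2]
  have hts : tr ρ = tr σ := by
    funext g
    exact (htr g (e g) rfl).symm
  obtain ⟨A, Z, _, h1, h2, h3⟩ := ibc ℓ F hF L n n ρ σ hρ hσ hts
  refine ⟨A, ⟨⟨A, Z, h1, h2⟩, rfl⟩, fun g g' hg => ?_⟩
  have : g' = e g := Subtype.ext hg
  rw [this]
  exact h3 g

theorem impJ_mul {x y : X} (hy : ∀ g, g ∈ L → y * g * y⁻¹ ∈ L)
    {A B : Matrix (Fin n) (Fin n) F} (hA : ImpJ ρ x A) (hB : ImpJ ρ y B) :
    ImpJ ρ (x * y) (A * B) := by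
  refine ⟨hA.1.mul hB.1, fun g g' hg => ?_⟩
  obtain ⟨g1, hg1⟩ : ∃ g1 : L, (g1 : X) = y * g * y⁻¹ := ⟨⟨_, hy g g.2⟩, rfl⟩
  have hg' : (g' : X) = x * g1 * x⁻¹ := by rw [hg, hg1]; group
  rw [mul_assoc, hB.2 g g1 hg1, ← mul_assoc, hA.2 g1 g' hg', mul_assoc]

/-- the implementing matrix is unique up to scalars -/
theorem impJ_scal (hρ : IsIrr ρ) {x : X} (hx : ∀ g, g ∈ L → x * g * x⁻¹ ∈ L)
    {A A' : Matrix (Fin n) (Fin n) F} (hA : ImpJ ρ x A) (hA' : ImpJ ρ x A') :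
    ∃ c : F, c ≠ 0 ∧ A' = c • A := by
  have hN : NeZero n := ⟨hρ.1.ne'⟩
  obtain ⟨a, rfl⟩ := hA.1
  have h1 : ∀ g, ((a⁻¹ : (Matrix (Fin n) (Fin n) F)ˣ) : Matrix (Fin n) (Fin n) F) * A' * ρ g =
      ρ g * (((a⁻¹ : (Matrix (Fin n) (Fin n) F)ˣ) : Matrix (Fin n) (Fin n) F) * A') := by
    intro g
    obtain ⟨g', hg'⟩ : ∃ g' : L, (g' : X) = x * g * x⁻¹ := ⟨⟨_, hx g g.2⟩, rfl⟩
    have h2 := hA.2 g g' hg'
    have h3 := hA'.2 g g' hg'
    have h4 : ((a⁻¹ : (Matrix (Fin n) (Fin n) F)ˣ) : Matrix (Fin n) (Fin n) F) * ρ g' =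
        ρ g * ((a⁻¹ : (Matrix (Fin n) (Fin n) F)ˣ) : Matrix (Fin n) (Fin n) F) := by
      rw [Units.inv_mul_eq_iff_eq_mul, ← mul_assoc, h2, Units.mul_inv_cancel_right]
    rw [mul_assoc, h3, ← mul_assoc, h4, mul_assoc]
  obtain ⟨c, hc⟩ := schur hρ _ h1
  have h5 : A' = c • (a : Matrix (Fin n) (Fin n) F) := by
    rw [Units.inv_mul_eq_iff_eq_mul] at hc
    rw [hc, Matrix.scalar_apply, ← Matrix.smul_one_eq_diagonal, Matrix.mul_smul, mul_one]
  refine ⟨c, ?_, h5⟩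
  rintro rfl
  rw [zero_smul] at h5
  rw [h5] at hA'
  exact not_isUnit_zero hA'.1

/-- evaluation and conjugation of the representation -/
theorem ev_tran {m : ℕ} {σ : L →* Matrix (Fin m) (Fin m) F} {T : Matrix (Fin m) (Fin n) F}
    (hT : ∀ h, T * ρ h = σ h * T) (v : L → F) : T * ev ρ v = ev σ v * T := by
  have := Fintype.ofFinite L
  unfold ev
  rw [finsum_eq_sum_of_fintype, finsum_eq_sum_of_fintype, Matrix.mul_sum, Matrix.sum_mul]
  apply Finset.sum_congr rfl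
  intro s _
  rw [Matrix.mul_smul, Matrix.smul_mul, hT]

/-- transport of the implementing matrix to a conjugate representation -/
theorem impJ_tran {σ : L →* Matrix (Fin n) (Fin n) F} (T : (Matrix (Fin n) (Fin n) F)ˣ)
    (hT : ∀ h, (T : Matrix (Fin n) (Fin n) F) * ρ h = σ h * T) {x : X}
    {A : Matrix (Fin n) (Fin n) F} (hA : ImpJ ρ x A) :
    ImpJ σ x (T * A * ((T⁻¹ : (Matrix (Fin n) (Fin n) F)ˣ) : Matrix (Fin n) (Fin n) F)) := by
  refine ⟨(T.isUnit.mul hA.1).mul (T⁻¹).isUnit, fun g g' hg => ?_⟩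
  have h1 : ((T⁻¹ : (Matrix (Fin n) (Fin n) F)ˣ) : Matrix (Fin n) (Fin n) F) * σ g =
      ρ g * ((T⁻¹ : (Matrix (Fin n) (Fin n) F)ˣ) : Matrix (Fin n) (Fin n) F) := by
    rw [Units.inv_mul_eq_iff_eq_mul, ← mul_assoc, hT, Units.mul_inv_cancel_right]
  rw [mul_assoc, h1, ← mul_assoc, mul_assoc (T : Matrix (Fin n) (Fin n) F), hA.2 g g' hg,
    ← mul_assoc, hT]
  simp only [mul_assoc]

end imp

section scu

variable {ℓ : ℕ} {F X : Type} [Field F] [Group X] [Finite X] {Y R S : Subgroup X} {f : X → F}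

/-- the matrix `ρ(k⁻¹ Br_R(u))` -/
def Vm (R : Subgroup X) {L : Subgroup X} {n : ℕ} (ρ : L →* Matrix (Fin n) (Fin n) F) (k : X)
    (u : X → F) : Matrix (Fin n) (Fin n) F := ev ρ (fun t : L => br R u (k * t))

theorem vm_lt {L : Subgroup X} {n : ℕ} (ρ : L →* Matrix (Fin n) (Fin n) F) (k : X)
    (u : X → F) : Vm R ρ k u = ev ρ (fun t : L => lt k⁻¹ (br R u) t) := by
  unfold Vm
  congr 1
  funext t
  show br R u (k * t) = br R u (k⁻¹⁻¹ * t)
  rw [inv_inv]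

theorem vm_supp (hL : Loc ℓ Y R S) {k : X} (hk : k ∈ S) {u : X → F} (hu : CE f Y k u) :
    ∀ t, t ∉ Y ⊓ S → lt k⁻¹ (br R u) t = 0 := by
  intro t ht
  classical
  show br R u (k⁻¹⁻¹ * t) = 0
  rw [inv_inv]
  by_cases h2 : k * t ∈ Subgroup.centralizer (R : Set X)
  · have h3 : t ∈ S := by
      have h4 := S.mul_mem (S.inv_mem hk) (hL.cent h2)
      rwa [inv_mul_cancel_left] at h4
    have h5 : t ∉ Y := fun hc => ht ⟨hc, h3⟩
    simp only [br, if_pos h2]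
    apply hu.supp
    rwa [inv_mul_cancel_left]
  · simp only [br, if_neg h2]

theorem vm_comm (hL : Loc ℓ Y R S) {k : X} {u : X → F}
    (hu : ∀ n ∈ Y, ∀ h, u (n * h * n⁻¹) = u h) {n : ℕ}
    (ρ : ↥(Y ⊓ S) →* Matrix (Fin n) (Fin n) F) (g g' : ↥(Y ⊓ S))
    (hg : (g' : X) = k⁻¹ * g * k⁻¹⁻¹) : Vm R ρ k u * ρ g = ρ g' * Vm R ρ k u := by
  have hfin := Fintype.ofFinite X
  have hfinL := Fintype.ofFinite ↥(Y ⊓ S)
  unfold Vm
  rw [ev, finsum_eq_sum_of_fintype, Finset.sum_mul, Finset.mul_sum]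
  apply Fintype.sum_equiv
    (⟨fun t => g'⁻¹ * t * g, fun t => g' * t * g⁻¹, fun t => by group, fun t => by group⟩ :
      ↥(Y ⊓ S) ≃ ↥(Y ⊓ S))
  intro t
  show br R u (k * t) • ρ t * ρ g = ρ g' * (br R u (k * ((g'⁻¹ * t * g : ↥(Y ⊓ S)) : X)) •
    ρ (g'⁻¹ * t * g))
  have h1 : ρ g' * ρ (g'⁻¹ * t * g) = ρ t * ρ g := by
    rw [← map_mul, ← map_mul]
    congr 1
    group
  rw [Matrix.mul_smul, h1, Matrix.smul_mul]
  congr 1
  show br R u (k * t) = br R u (k * ((g' : X)⁻¹ * t * g))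
  have h2 : (k * ((g' : X)⁻¹ * t * g)) = (g : X)⁻¹ * (k * t) * (g : X)⁻¹⁻¹ := by
    rw [hg]
    group
  rw [h2, br_inv hL hu _ ((Y ⊓ S).inv_mem g.2)]

theorem vm_inv (hF : GoodF ℓ F) (hf : SBlk Y f) (hY : Y.Normal) (hL : Loc ℓ Y R S) {k : X}
    (hk : k ∈ S) {u u' : X → F} (hu : IsUnitOver f Y k u u') {n : ℕ}
    {ρ : ↥(Y ⊓ S) →* Matrix (Fin n) (Fin n) F}
    (h1 : ev ρ (fun t : ↥(Y ⊓ S) => br R f t) = 1) : Vm R ρ k u * Vm R ρ k⁻¹ u' = 1 := by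
  have hkN := hL.norm hk
  have hcj : cjF k (br R u') = br R u' := by rw [← br_cj hkN, (unit_cj hf hY hu).2]
  have hff : cjF k⁻¹ (br R f) = br R f := by
    rw [← br_cj (inv_mem hkN), cjF_of_cl hf.cl]
  have h2 : mulF (lt k⁻¹ (br R u)) (lt k (br R u')) = br R f := by
    rw [← hff]
    apply toMA_injective
    rw [← br_mulF_Y hF hL hu.left.inv hu.right.inv |>.symm.trans (congrArg (br R) hu.mul)]
    rw [toMA_mulF, toMA_lt, toMA_lt, toMA_cjF, toMA_mulF]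
    have h3 : toMA (br R u') = sg k * toMA (br R u') * sg k⁻¹ := by
      rw [← toMA_cjF, hcj]
    have h4 : sg k * toMA (br R u') = toMA (br R u') * sg k := by
      have h5 := congrArg (fun w => w * sg k) h3
      simp only [mul_assoc, sg_mul, inv_mul_cancel, sg_one, mul_one] at h5
      exact h5.symm
    rw [h4, inv_inv]
    simp only [mul_assoc]
  rw [vm_lt, vm_lt, inv_inv, ← ev_res_mul ρ (vm_supp hL hk hu.left), h2, h1]

theorem comm_inv (x y : X) : (x * y * x⁻¹ * y⁻¹)⁻¹ = y * x * y⁻¹ * x⁻¹ := by group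

theorem comm_memS {x y : X} (hx : x ∈ S) (hy : y ∈ S) : x * y * x⁻¹ * y⁻¹ ∈ S :=
  S.mul_mem (S.mul_mem (S.mul_mem hx hy) (S.inv_mem hx)) (S.inv_mem hy)

/-- the scalars exist -/
theorem sc_exists (hF : GoodF ℓ F) (hf : SBlk Y f) (hY : Y.Normal) (hL : Loc ℓ Y R S) {x y : X}
    (hx : x ∈ S) (hy : y ∈ S) {u u' : X → F} (hu : IsUnitOver f Y (x * y * x⁻¹ * y⁻¹) u u')
    {φ : ↥(Y ⊓ S) → F} (hφ : φ ∈ phiS Y S f x y) : ∃ c, c ≠ 0 ∧ IsSC Y S R φ x y u c := by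
  obtain ⟨⟨n, ρ, hρ, rfl⟩, hact, htx, hty⟩ := hφ
  have hone := ev_br_one hF hf hL hρ hact
  have hk : x * y * x⁻¹ * y⁻¹ ∈ S := comm_memS hx hy
  obtain ⟨A, hA⟩ := imp_exists hF hρ (loc_norm hY hx) htx
  obtain ⟨B, hB⟩ := imp_exists hF hρ (loc_norm hY hy) hty
  have hV1 := vm_inv hF hf hY hL hk hu hone
  have hVU : IsUnit (Vm R ρ (x * y * x⁻¹ * y⁻¹) u) :=
    (Matrix.isUnit_iff_isUnit_det _).2 (by
      have h4 := congrArg Matrix.det hV1
      rw [Matrix.det_one, Matrix.det_mul] at h4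
      exact IsUnit.of_mul_eq_one _ h4)
  have hV : ImpJ ρ (x * y * x⁻¹ * y⁻¹)⁻¹ (Vm R ρ (x * y * x⁻¹ * y⁻¹) u) :=
    ⟨hVU, fun g g' hg => vm_comm hL hu.left.inv ρ g g' hg⟩
  have hM := impJ_mul (loc_norm hY (S.mul_mem hx hy)) hV (impJ_mul (loc_norm hY hy) hA hB)
  have hN := impJ_mul (loc_norm hY hx) hB hA
  have e : (x * y * x⁻¹ * y⁻¹)⁻¹ * (x * y) = y * x := by group
  rw [e] at hM
  obtain ⟨c, hc0, hc⟩ := impJ_scal hρ (loc_norm hY (S.mul_mem hy hx)) hN hM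
  exact ⟨c, hc0, n, ρ, A, B, hρ, rfl, hA, hB, hc⟩

/-- the scalars are unique -/
theorem sc_unique (hF : GoodF ℓ F) (hY : Y.Normal) {x y : X} (hx : x ∈ S) (hy : y ∈ S)
    {u : X → F} {φ : ↥(Y ⊓ S) → F} {c c' : F} (h : IsSC Y S R φ x y u c)
    (h' : IsSC Y S R φ x y u c') : c = c' := by
  obtain ⟨n, ρ, A, B, hρ, htr, hA, hB, hc⟩ := h
  obtain ⟨n', σ, A', B', hσ, htr', hA', hB', hc'⟩ := h'
  obtain ⟨T, Z, rfl, h1, h2, h3⟩ := ibc ℓ F hF ↥(Y ⊓ S) n n' ρ σ hρ hσ (htr.trans htr'.symm)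
  have hN : NeZero n := ⟨hρ.1.ne'⟩
  obtain ⟨U, hU⟩ : ∃ U : (Matrix (Fin n) (Fin n) F)ˣ, (U : Matrix (Fin n) (Fin n) F) = T :=
    ⟨⟨T, Z, h1, h2⟩, rfl⟩
  subst hU
  have hA1 := impJ_tran U h3 hA
  have hB1 := impJ_tran U h3 hB
  obtain ⟨a, ha0, ha⟩ := impJ_scal hσ (loc_norm hY hx) hA1 hA'
  obtain ⟨b, hb0, hb⟩ := impJ_scal hσ (loc_norm hY hy) hB1 hB'
  have hev := ev_tran h3 (fun t : ↥(Y ⊓ S) => br R u (x * y * x⁻¹ * y⁻¹ * t))
  obtain ⟨V, hV⟩ : ∃ V, V = ev ρ (fun t : ↥(Y ⊓ S) => br R u (x * y * x⁻¹ * y⁻¹ * t)) := ⟨_, rfl⟩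
  obtain ⟨W, hW⟩ : ∃ W, W = ev σ (fun t : ↥(Y ⊓ S) => br R u (x * y * x⁻¹ * y⁻¹ * t)) := ⟨_, rfl⟩
  rw [← hV] at hc hev
  rw [← hW] at hc' hev
  obtain ⟨Ui, hUi⟩ : ∃ Ui, Ui = ((U⁻¹ : (Matrix (Fin n) (Fin n) F)ˣ) : Matrix (Fin n) (Fin n) F) :=
    ⟨_, rfl⟩
  have hUU : Ui * (U : Matrix (Fin n) (Fin n) F) = 1 := by rw [hUi, Units.inv_mul]
  rw [← hUi] at ha hb
  have h4 : W * (A' * B') = c • (B' * A') := by
    rw [ha, hb]
    simp only [Matrix.smul_mul, Matrix.mul_smul]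
    have e1 : W * (U * A * Ui * (U * B * Ui)) = c • (U * B * Ui * (U * A * Ui)) := by
      calc W * (U * A * Ui * (U * B * Ui)) = (W * U) * A * (Ui * U) * B * Ui := by
            simp only [mul_assoc]
        _ = U * (V * (A * B)) * Ui := by rw [← hev, hUU, mul_one]; simp only [mul_assoc]
        _ = c • (U * (B * A) * Ui) := by rw [hc, Matrix.mul_smul, Matrix.smul_mul]
        _ = c • (U * B * (Ui * U) * (A * Ui)) := by rw [hUU, mul_one]; simp only [mul_assoc]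
        _ = c • (U * B * Ui * (U * A * Ui)) := by simp only [mul_assoc]
    rw [e1, smul_comm c a, smul_comm c b, smul_comm a b]
  have h5 : (c - c') • (B' * A') = 0 := by rw [sub_smul, ← h4, ← hc', sub_self]
  rcases smul_eq_zero.1 h5 with h6 | h6
  · exact sub_eq_zero.1 h6
  · exfalso
    have h7 := hB'.1.mul hA'.1
    rw [h6] at h7
    exact not_isUnit_zero h7

theorem sc_eq (hF : GoodF ℓ F) (hY : Y.Normal) {x y : X} (hx : x ∈ S) (hy : y ∈ S)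
    {u : X → F} {φ : ↥(Y ⊓ S) → F} {c : F} (h : IsSC Y S R φ x y u c) : sc Y S R φ x y u = c := by
  have he : ∃ c, IsSC Y S R φ x y u c := ⟨c, h⟩
  unfold sc
  rw [dif_pos he]
  exact sc_unique hF hY hx hy he.choose_spec h

/-- multiplication of the unit by an element of `C₁` -/
theorem sc_z (hF : GoodF ℓ F) (hf : SBlk Y f) (hL : Loc ℓ Y R S) {x y : X}
    (hx : x ∈ S) (hy : y ∈ S) {u : X → F} (hu : CE f Y (x * y * x⁻¹ * y⁻¹) u)
    {φ : ↥(Y ⊓ S) → F} (hact : actF (fun t : ↥(Y ⊓ S) => f t) φ = φ) {z : X → F}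
    (hz : CE f Y 1 z) {c : F} (h : IsSC Y S R φ x y u c) :
    IsSC Y S R φ x y (mulF z u) (lamJ f z * c) := by
  obtain ⟨n, ρ, A, B, hρ, rfl, hA, hB, hc⟩ := h
  refine ⟨n, ρ, A, B, hρ, rfl, hA, hB, ?_⟩
  have hk : x * y * x⁻¹ * y⁻¹ ∈ S := comm_memS hx hy
  have h1 : mulF z u = mulF u z := J74.C1_comm hz hu.cc
  have h2 : Vm R ρ (x * y * x⁻¹ * y⁻¹) (mulF z u) =
      Vm R ρ (x * y * x⁻¹ * y⁻¹) u * Matrix.scalar (Fin n) (lamJ f z) := by
    rw [← J74.ev_z hF hf hL hz ρ hρ hact, vm_lt, vm_lt, ← ev_res_mul ρ (vm_supp hL hk hu), h1,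
      br_mulF_Y hF hL hu.inv hz.inv]
    have h4 : lt (x * y * x⁻¹ * y⁻¹)⁻¹ (mulF (br R u) (br R z)) =
        mulF (lt (x * y * x⁻¹ * y⁻¹)⁻¹ (br R u)) (br R z) := by
      apply toMA_injective
      rw [toMA_lt, toMA_mulF, toMA_mulF, toMA_lt]
      exact (mul_assoc _ _ _).symm
    rw [h4]
  have h3 : Vm R ρ (x * y * x⁻¹ * y⁻¹) u * (A * B) = c • (B * A) := hc
  show Vm R ρ (x * y * x⁻¹ * y⁻¹) (mulF z u) * (A * B) = (lamJ f z * c) • (B * A)
  rw [h2, Matrix.scalar_apply, ← Matrix.smul_one_eq_diagonal, Matrix.mul_smul, mul_one,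
    Matrix.smul_mul, h3, smul_smul]

/-- exchange of the variables -/
theorem sc_symm (hF : GoodF ℓ F) (hf : SBlk Y f) (hY : Y.Normal) (hL : Loc ℓ Y R S) {x y : X}
    (hx : x ∈ S) (hy : y ∈ S) {u u' : X → F} (hu : IsUnitOver f Y (x * y * x⁻¹ * y⁻¹) u u')
    {φ : ↥(Y ⊓ S) → F} (hact : actF (fun t : ↥(Y ⊓ S) => f t) φ = φ) {c : F} (hc0 : c ≠ 0)
    (h : IsSC Y S R φ x y u c) : IsSC Y S R φ y x u' c⁻¹ := by
  obtain ⟨n, ρ, A, B, hρ, rfl, hA, hB, hc⟩ := h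
  refine ⟨n, ρ, B, A, hρ, rfl, hB, hA, ?_⟩
  have hk : x * y * x⁻¹ * y⁻¹ ∈ S := comm_memS hx hy
  have hone := ev_br_one hF hf hL hρ hact
  have hV1 := vm_inv hF hf hY hL hk hu hone
  have hV2 := mul_eq_one_comm.1 hV1
  rw [comm_inv] at hV2
  have h3 : Vm R ρ (x * y * x⁻¹ * y⁻¹) u * (A * B) = c • (B * A) := hc
  show Vm R ρ (y * x * y⁻¹ * x⁻¹) u' * (B * A) = c⁻¹ • (A * B)
  have h4 : B * A = c⁻¹ • (Vm R ρ (x * y * x⁻¹ * y⁻¹) u * (A * B)) := by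
    rw [h3, smul_smul, inv_mul_cancel₀ hc0, one_smul]
  rw [h4, Matrix.mul_smul, ← mul_assoc, hV2, one_mul]

/-- SCU (4.4) -/
theorem scu : ScuStmt := by
  intro ℓ F _ hF X _ _ Y hY f hf R S hL x hx y hy u u' hu φ hφ
  obtain ⟨c, hc0, hc⟩ := sc_exists hF hf hY hL hx hy hu hφ
  have e := sc_eq hF hY hx hy hc
  rw [e]
  refine ⟨hc0, hc, fun c' hc' => sc_unique hF hY hx hy hc' hc, fun z z' hz _ _ => ?_, ?_⟩
  · exact sc_eq hF hY hx hy (sc_z hF hf hL hx hy hu.left hφ.2.1 hz hc)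
  · exact sc_eq hF hY hy hx (sc_symm hF hf hY hL hx hy hu hφ.2.1 hc0 hc)

/-- the sets of characters agree -/
theorem phiS_mul {x y n m : X} (hn : n ∈ Y ⊓ S) (hm : m ∈ Y ⊓ S) :
    phiS Y S f x y ⊆ phiS Y S f (x * n) (y * m) := by
  rintro φ ⟨hφ, hact, h1, h2⟩
  have hcl : ∀ a b : ↥(Y ⊓ S), φ (a * b * a⁻¹) = φ b := by
    obtain ⟨k, ρ, hρ, rfl⟩ := hφ
    intro a b
    show (ρ (a * b * a⁻¹)).trace = (ρ b).trace
    rw [map_mul, Matrix.trace_mul_comm, ← map_mul]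
    congr 2
    group
  refine ⟨hφ, hact, fun t t' ht => ?_, fun t t' ht => ?_⟩
  · rw [← hcl ⟨n, hn⟩ t]
    apply h1
    rw [ht]
    show x * n * t * (x * n)⁻¹ = x * (n * t * n⁻¹) * x⁻¹
    group
  · rw [← hcl ⟨m, hm⟩ t]
    apply h2
    rw [ht]
    show y * m * t * (y * m)⁻¹ = y * (m * t * m⁻¹) * y⁻¹
    group

/-- the scalars depend only on the cosets modulo `Y ∩ S` -/
theorem sc_mul (hY : Y.Normal) {x y n m : X} (hx : x ∈ S) (hy : y ∈ S) (hn : n ∈ Y ⊓ S)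
    (hm : m ∈ Y ⊓ S) {u : X → F} {φ : ↥(Y ⊓ S) → F} {c : F} (h : IsSC Y S R φ x y u c) :
    IsSC Y S R φ (x * n) (y * m) u c := by
  obtain ⟨d, ρ, A, B, hρ, htr, hA, hB, hc⟩ := h
  have hfin := Fintype.ofFinite ↥(Y ⊓ S)
  obtain ⟨n0, hn0⟩ : ∃ n0 : ↥(Y ⊓ S), (n0 : X) = n := ⟨⟨n, hn⟩, rfl⟩
  obtain ⟨m0, hm0⟩ : ∃ m0 : ↥(Y ⊓ S), (m0 : X) = m := ⟨⟨m, hm⟩, rfl⟩
  have hU : ∀ g : ↥(Y ⊓ S), IsUnit (ρ g) := by
    intro g
    refine ⟨⟨ρ g, ρ g⁻¹, ?_, ?_⟩, rfl⟩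
    · rw [← map_mul, mul_inv_cancel, map_one]
    · rw [← map_mul, inv_mul_cancel, map_one]
  have hImp : ∀ g : ↥(Y ⊓ S), ImpJ ρ (g : X) (ρ g) := by
    intro g
    refine ⟨hU g, fun t t' ht => ?_⟩
    have : t' = g * t * g⁻¹ := Subtype.ext ht
    rw [this, ← map_mul, ← map_mul]
    congr 1
    group
  have hA' : ImpJ ρ (x * n) (A * ρ n0) := by
    rw [← hn0]
    exact impJ_mul (loc_norm hY n0.2.2) hA (hImp n0)
  have hB' : ImpJ ρ (y * m) (B * ρ m0) := by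
    rw [← hm0]
    exact impJ_mul (loc_norm hY m0.2.2) hB (hImp m0)
  refine ⟨d, ρ, A * ρ n0, B * ρ m0, hρ, htr, hA', hB', ?_⟩
  -- the element `q = k⁻¹ k'`
  obtain ⟨q, hq⟩ : ∃ q : ↥(Y ⊓ S), (q : X) = (x * y * x⁻¹ * y⁻¹)⁻¹ *
      (x * n * (y * m) * (x * n)⁻¹ * (y * m)⁻¹) := by
    refine ⟨⟨_, ?_, ?_⟩, rfl⟩
    · have e : (x * y * x⁻¹ * y⁻¹)⁻¹ * (x * n * (y * m) * (x * n)⁻¹ * (y * m)⁻¹) =
          (y * x * y⁻¹ * n * (y * x * y⁻¹)⁻¹) * (y * x * m * n⁻¹ * (y * x)⁻¹) *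
            (y * m⁻¹ * y⁻¹) := by group
      rw [e]
      exact Y.mul_mem (Y.mul_mem (hY.conj_mem n hn.1 _)
        (by
          have := hY.conj_mem (m * n⁻¹) (Y.mul_mem hm.1 (Y.inv_mem hn.1)) (y * x)
          have e2 : y * x * (m * n⁻¹) * (y * x)⁻¹ = y * x * m * n⁻¹ * (y * x)⁻¹ := by group
          rwa [e2] at this)) (hY.conj_mem m⁻¹ (Y.inv_mem hm.1) y)
    · exact S.mul_mem (S.inv_mem (comm_memS hx hy))
        (comm_memS (S.mul_mem hx hn.2) (S.mul_mem hy hm.2))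
  have h1 : ev ρ (fun t : ↥(Y ⊓ S) => br R u (x * n * (y * m) * (x * n)⁻¹ * (y * m)⁻¹ * t)) =
      ρ q⁻¹ * ev ρ (fun t : ↥(Y ⊓ S) => br R u (x * y * x⁻¹ * y⁻¹ * t)) := by
    unfold ev
    rw [finsum_eq_sum_of_fintype, finsum_eq_sum_of_fintype, Finset.mul_sum]
    apply Fintype.sum_equiv (Equiv.mulLeft q)
    intro t
    show br R u (x * n * (y * m) * (x * n)⁻¹ * (y * m)⁻¹ * t) • ρ t =
      ρ q⁻¹ * (br R u (x * y * x⁻¹ * y⁻¹ * ((q * t : ↥(Y ⊓ S)) : X)) • ρ (q * t))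
    rw [Matrix.mul_smul, ← map_mul, inv_mul_cancel_left]
    congr 2
    rw [Subgroup.coe_mul, hq]
    group
  obtain ⟨V, hV⟩ : ∃ V, V = ev ρ (fun t : ↥(Y ⊓ S) => br R u (x * y * x⁻¹ * y⁻¹ * t)) := ⟨_, rfl⟩
  rw [← hV] at hc h1
  rw [h1]
  -- `y⁻¹ n y` and `x⁻¹ m x`
  have hyi := loc_norm hY (S.inv_mem hy) n hn
  have hxi := loc_norm hY (S.inv_mem hx) m hm
  obtain ⟨n1, hn1⟩ : ∃ n1 : ↥(Y ⊓ S), (n1 : X) = y⁻¹ * n * y := by
    rw [inv_inv] at hyi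
    exact ⟨⟨_, hyi⟩, rfl⟩
  obtain ⟨m1, hm1⟩ : ∃ m1 : ↥(Y ⊓ S), (m1 : X) = x⁻¹ * m * x := by
    rw [inv_inv] at hxi
    exact ⟨⟨_, hxi⟩, rfl⟩
  have h2 : ρ n0 * B = B * ρ n1 := by
    symm
    apply hB.2
    rw [hn0, hn1]
    group
  have h3 : ρ m0 * A = A * ρ m1 := by
    symm
    apply hA.2
    rw [hm0, hm1]
    group
  have hBA := impJ_mul (loc_norm hY hx) hB hA
  obtain ⟨r, hr⟩ : ∃ r : ↥(Y ⊓ S), (r : X) = (y * x)⁻¹ * (q : X)⁻¹ * (y * x) := by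
    have := loc_norm hY (S.inv_mem (S.mul_mem hy hx)) _ ((Y ⊓ S).inv_mem q.2)
    rw [inv_inv] at this
    exact ⟨⟨_, this⟩, rfl⟩
  have h4 : ρ q⁻¹ * (B * A) = B * A * ρ r := by
    symm
    apply hBA.2
    rw [hr]
    show (q : X)⁻¹ = _
    group
  have h5 : r * n1 * m0 = m1 * n0 := by
    apply Subtype.ext
    show (r : X) * n1 * m0 = m1 * n0
    rw [hr, hn1, hm0, hm1, hn0, hq]
    group
  calc ρ q⁻¹ * V * (A * ρ n0 * (B * ρ m0)) = ρ q⁻¹ * V * (A * (ρ n0 * B) * ρ m0) := by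
        simp only [mul_assoc]
    _ = ρ q⁻¹ * (V * (A * B)) * (ρ n1 * ρ m0) := by rw [h2]; simp only [mul_assoc]
    _ = c • (ρ q⁻¹ * (B * A) * (ρ n1 * ρ m0)) := by
        rw [hc, Matrix.mul_smul, Matrix.smul_mul]
    _ = c • (B * A * (ρ (r * n1 * m0))) := by
        rw [h4, map_mul, map_mul]; simp only [mul_assoc]
    _ = c • (B * (A * ρ m1) * ρ n0) := by rw [h5, map_mul]; simp only [mul_assoc]
    _ = c • (B * ρ m0 * (A * ρ n0)) := by rw [← h3]; simp only [mul_assoc]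

/-- STA (4.5) -/
theorem sta : StaStmt := by
  intro ℓ F _ hF τ _ X _ _ Y hY f hf R S hL x hx y hy u u' hu n hn m hm
  have hset : phiS Y S f (x * n) (y * m) = phiS Y S f x y := by
    apply Set.Subset.antisymm
    · have h1 := phiS_mul (f := f) (F := F) (x := x * n) (y := y * m)
        ((Y ⊓ S).inv_mem hn) ((Y ⊓ S).inv_mem hm)
      rwa [mul_inv_cancel_right, mul_inv_cancel_right] at h1
    · exact phiS_mul hn hm
  unfold SS
  rw [hset]
  apply finsum_mem_congr rfl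
  intro φ hφ
  obtain ⟨c, -, hc⟩ := sc_exists hF hf hY hL hx hy hu hφ
  rw [sc_eq hF hY hx hy hc, sc_eq hF hY (S.mul_mem hx hn.2) (S.mul_mem hy hm.2)
    (sc_mul hY hx hy hn hm hc)]

end scu

end Pool.Agent.PP.H62
end
end -- Pool.Agent.Helper62_PP.Scu
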