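import Pool.Agent.Helper12_AWB.B055
import Pool.Agent.Helper12_AWB.B079
import Pool.Agent.Helper12_AWB.B087
import Pool.Agent.Helper46_PP.Alg

/-!
# Merged copies (generated) of the modules

* `Pool.Agent.Helper20_PP.Rst`
* `Pool.Agent.Helper46_PP.BlkProd`
* `Pool.Agent.Helper9_PP.Pbk`
* `Pool.Agent.Helper76_PP.Abs`
* `Pool.Agent.Helper76_PP.Lft`
-/

set_option autoImplicit false

section -- Pool.Agent.Helper20_PP.Rst

/-!
RST (J7.3): restriction to a subgroup containing `Y`.
-/

open scoped BigOperators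

noncomputable section

namespace Pool.Agent.PP.H20

open Pool.Agent.Helper51_AWC Pool.Agent.Helper79_WRA Pool.Agent.PP.H94

/-! ### transport along isomorphisms -/

section iso

variable {F H K : Type} [Field F] [Group H] [Group K]

theorem mulF_equiv (e : H ≃* K) (a b : K → F) :
    mulF (fun h => a (e h)) (fun h => b (e h)) = fun h => mulF a b (e h) := by
  funext h
  unfold mulF
  rw [← finsum_comp_equiv e.toEquiv (f := fun t => a t * b (t⁻¹ * e h))]
  apply finsum_congr
  intro t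
  show a (e t) * b (e (t⁻¹ * h)) = a (e t) * b ((e t)⁻¹ * e h)
  rw [map_mul, map_inv]

theorem actF_equiv (e : H ≃* K) (a b : K → F) :
    actF (fun h => a (e h)) (fun h => b (e h)) = fun h => actF a b (e h) := by
  funext h
  unfold actF
  rw [← finsum_comp_equiv e.toEquiv (f := fun t => a t * b (t * e h))]
  apply finsum_congr
  intro t
  show a (e t) * b (e (t * h)) = a (e t) * b (e t * e h)
  rw [map_mul]

theorem ev_equiv (e : H ≃* K) {n : ℕ} (ρ : K →* Matrix (Fin n) (Fin n) F) (a : K → F) :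
    ev (ρ.comp e.toMonoidHom) (fun h => a (e h)) = ev ρ a := by
  unfold ev
  rw [← finsum_comp_equiv e.toEquiv (f := fun t => a t • ρ t)]
  rfl

theorem irr_equiv (e : H ≃* K) {n : ℕ} {ρ : K →* Matrix (Fin n) (Fin n) F} (hρ : IsIrr ρ) :
    IsIrr (ρ.comp e.toMonoidHom) := by
  refine ⟨hρ.1, ?_⟩
  have h1 : Set.range (ρ.comp e.toMonoidHom) = Set.range ρ := by
    ext M
    constructor
    · rintro ⟨h, rfl⟩
      exact ⟨e h, rfl⟩
    · rintro ⟨k, rfl⟩
      exact ⟨e.symm k, by
        show ρ (e (e.symm k)) = ρ k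
        rw [MulEquiv.apply_symm_apply]⟩
  rw [h1]
  exact hρ.2

theorem IBr_equiv (e : H ≃* K) {φ : K → F} : (fun h => φ (e h)) ∈ IBr F H ↔ φ ∈ IBr F K := by
  constructor
  · rintro ⟨n, ρ, hρ, h⟩
    refine ⟨n, ρ.comp e.symm.toMonoidHom, irr_equiv e.symm hρ, ?_⟩
    funext k
    have h1 := congrFun h (e.symm k)
    have h2 : φ (e (e.symm k)) = tr ρ (e.symm k) := h1
    rw [MulEquiv.apply_symm_apply] at h2
    exact h2
  · rintro ⟨n, ρ, hρ, rfl⟩
    exact ⟨n, ρ.comp e.toMonoidHom, irr_equiv e hρ, rfl⟩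

theorem IsCl_equiv (e : H ≃* K) {a : K → F} : IsCl (fun h => a (e h)) ↔ IsCl a := by
  constructor
  · intro h x y
    have h1 := h (e.symm x) (e.symm y)
    simp only [map_mul, map_inv, MulEquiv.apply_symm_apply] at h1
    exact h1
  · intro h x y
    show a (e (y * x * y⁻¹)) = a (e x)
    rw [map_mul, map_mul, map_inv]
    exact h _ _

theorem IsIdem_equiv (e : H ≃* K) {a : K → F} : IsIdem (fun h => a (e h)) ↔ IsIdem a := by
  unfold IsIdem
  rw [IsCl_equiv, mulF_equiv]
  apply and_congr_right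
  intro _
  constructor
  · intro h
    funext k
    have := congrFun h (e.symm k)
    simp only [MulEquiv.apply_symm_apply] at this
    exact this
  · intro h
    rw [h]

theorem IsBlk_equiv (e : H ≃* K) {b : K → F} (hb : IsBlk b) : IsBlk (fun h => b (e h)) := by
  refine ⟨(IsIdem_equiv e).2 hb.1, ?_, ?_⟩
  · intro h
    apply hb.2.1
    funext k
    have := congrFun h (e.symm k)
    simp only [MulEquiv.apply_symm_apply] at this
    exact this
  · intro g hg
    have h1 : g = fun h => (fun k => g (e.symm k)) (e h) := by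
      funext h
      show g h = g (e.symm (e h))
      rw [MulEquiv.symm_apply_apply]
    rw [h1] at hg
    have h2 := hb.2.2 _ ((IsIdem_equiv e (a := fun k => g (e.symm k))).1 hg)
    have h3 := mulF_equiv e b (fun k => g (e.symm k))
    rw [h1]
    rcases h2 with h2 | h2
    · left
      exact h3.trans (by rw [h2])
    · right
      exact h3.trans (by rw [h2]; rfl)

end iso

/-! ### restriction -/

section res

variable {F X : Type} [Field F] [Group X]

/-- the isomorphism -/
def eYS {Y L : Subgroup X} (hYL : Y ≤ L) {S : Subgroup X} {S' : Subgroup L}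
    (hS : ∀ g : L, g ∈ S' ↔ (g : X) ∈ S) : ↥(Y.subgroupOf L ⊓ S') ≃* ↥(Y ⊓ S) where
  toFun g := ⟨((g : L) : X), Subgroup.mem_subgroupOf.1 g.2.1, (hS g).1 g.2.2⟩
  invFun g := ⟨⟨(g : X), hYL g.2.1⟩, Subgroup.mem_subgroupOf.2 g.2.1,
    (hS ⟨(g : X), hYL g.2.1⟩).2 g.2.2⟩
  left_inv _ := rfl
  right_inv _ := rfl
  map_mul' _ _ := rfl

theorem eYS_coe {Y L : Subgroup X} (hYL : Y ≤ L) {S : Subgroup X} {S' : Subgroup L}
    (hS : ∀ g : L, g ∈ S' ↔ (g : X) ∈ S) (g : ↥(Y.subgroupOf L ⊓ S')) :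
    ((eYS hYL hS g : ↥(Y ⊓ S)) : X) = ((g : L) : X) := rfl

theorem br_res {L R : Subgroup X} {R' : Subgroup L} (hR : ∀ r, r ∈ R ↔ ∃ r' ∈ R', (r' : X) = r)
    (u : X → F) (t : L) : br R' (fun g : L => u g) t = br R u t := by
  classical
  have hiff : t ∈ Subgroup.centralizer (R' : Set L) ↔
      (t : X) ∈ Subgroup.centralizer (R : Set X) := by
    rw [Subgroup.mem_centralizer_iff, Subgroup.mem_centralizer_iff]
    constructor
    · intro h r hr
      obtain ⟨r', hr', rfl⟩ := (hR r).1 hr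
      exact congrArg Subtype.val (h r' hr')
    · intro h r hr
      exact Subtype.ext (h r ((hR r).2 ⟨r, hr, rfl⟩))
  by_cases ht : t ∈ Subgroup.centralizer (R' : Set L)
  · simp only [br, if_pos ht, if_pos (hiff.1 ht)]
  · simp only [br, if_neg ht, if_neg (fun hc => ht (hiff.2 hc))]

theorem IsSC_res {Y L : Subgroup X} (hYL : Y ≤ L) {S R : Subgroup X} {S' R' : Subgroup L}
    (hS : ∀ g : L, g ∈ S' ↔ (g : X) ∈ S) (hR : ∀ r, r ∈ R ↔ ∃ r' ∈ R', (r' : X) = r)
    (φ : ↥(Y ⊓ S) → F) (x y : L) (u : X → F) (c : F) :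
    IsSC (Y.subgroupOf L) S' R' (fun g => φ (eYS hYL hS g)) x y (fun g : L => u g) c ↔
      IsSC Y S R φ x y u c := by
  obtain ⟨e, he⟩ : ∃ e, e = eYS hYL hS := ⟨_, rfl⟩
  have hcoe : ∀ g, ((e g : ↥(Y ⊓ S)) : X) = ((g : L) : X) := by
    intro g
    rw [he]
    rfl
  have hcoe' : ∀ g, (((e.symm g : ↥(Y.subgroupOf L ⊓ S')) : L) : X) = (g : X) := by
    intro g
    rw [← hcoe, MulEquiv.apply_symm_apply]
  rw [← he]
  have hfun : (fun t : ↥(Y.subgroupOf L ⊓ S') => br R' (fun g : L => u g)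
      (x * y * x⁻¹ * y⁻¹ * t)) =
      fun t => (fun s : ↥(Y ⊓ S) => br R u ((x : X) * y * (x : X)⁻¹ * (y : X)⁻¹ * s)) (e t) := by
    funext t
    rw [br_res hR]
    show br R u ((x : X) * y * (x : X)⁻¹ * (y : X)⁻¹ * (t : L)) = _
    rw [← hcoe]
  constructor
  · rintro ⟨n, ρ, A, B, hρ, htr, hA, hB, hc⟩
    refine ⟨n, ρ.comp e.symm.toMonoidHom, A, B, irr_equiv e.symm hρ, ?_, ⟨hA.1, ?_⟩, ⟨hB.1, ?_⟩, ?_⟩
    · funext k
      have h1 := congrFun htr (e.symm k)
      have h2 : tr ρ (e.symm k) = φ (e (e.symm k)) := h1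
      rw [MulEquiv.apply_symm_apply] at h2
      exact h2
    · intro g g' hg
      apply hA.2 (e.symm g) (e.symm g')
      apply Subtype.ext
      show (((e.symm g' : ↥(Y.subgroupOf L ⊓ S')) : L) : X) =
        x * ((e.symm g : ↥(Y.subgroupOf L ⊓ S')) : L) * (x : X)⁻¹
      rw [hcoe', hcoe', hg]
    · intro g g' hg
      apply hB.2 (e.symm g) (e.symm g')
      apply Subtype.ext
      show (((e.symm g' : ↥(Y.subgroupOf L ⊓ S')) : L) : X) =
        y * ((e.symm g : ↥(Y.subgroupOf L ⊓ S')) : L) * (y : X)⁻¹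
      rw [hcoe', hcoe', hg]
    · rw [hfun] at hc
      have h1 := ev_equiv e (ρ.comp e.symm.toMonoidHom)
        (fun s : ↥(Y ⊓ S) => br R u ((x : X) * y * (x : X)⁻¹ * (y : X)⁻¹ * s))
      have h2 : (ρ.comp e.symm.toMonoidHom).comp e.toMonoidHom = ρ := by
        ext g : 1
        show ρ (e.symm (e g)) = ρ g
        rw [MulEquiv.symm_apply_apply]
      rw [h2] at h1
      rw [← h1]
      exact hc
  · rintro ⟨n, ρ, A, B, hρ, htr, hA, hB, hc⟩
    refine ⟨n, ρ.comp e.toMonoidHom, A, B, irr_equiv e hρ, ?_, ⟨hA.1, ?_⟩, ⟨hB.1, ?_⟩, ?_⟩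
    · funext k
      exact congrFun htr (e k)
    · intro g g' hg
      apply hA.2 (e g) (e g')
      rw [hcoe, hcoe, hg]
      rfl
    · intro g g' hg
      apply hB.2 (e g) (e g')
      rw [hcoe, hcoe, hg]
      rfl
    · rw [hfun]
      have h1 := ev_equiv e ρ
        (fun s : ↥(Y ⊓ S) => br R u ((x : X) * y * (x : X)⁻¹ * (y : X)⁻¹ * s))
      have h2 := congrArg (fun M => M * (A * B)) h1
      exact h2.trans hc

theorem sc_res {Y L : Subgroup X} (hYL : Y ≤ L) {S R : Subgroup X} {S' R' : Subgroup L}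
    (hS : ∀ g : L, g ∈ S' ↔ (g : X) ∈ S) (hR : ∀ r, r ∈ R ↔ ∃ r' ∈ R', (r' : X) = r)
    (φ : ↥(Y ⊓ S) → F) (x y : L) (u : X → F) :
    sc (Y.subgroupOf L) S' R' (fun g => φ (eYS hYL hS g)) x y (fun g : L => u g) =
      sc Y S R φ x y u := by
  have h : (fun c => IsSC (Y.subgroupOf L) S' R' (fun g => φ (eYS hYL hS g)) x y
      (fun g : L => u g) c) = fun c => IsSC Y S R φ x y u c :=
    funext fun c => propext (IsSC_res hYL hS hR φ x y u c)
  classical
  have h1 : ∀ P Q : F → Prop, P = Q → (if h : ∃ c, P c then h.choose else 0) =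
      (if h : ∃ c, Q c then h.choose else 0) := by
    rintro P Q rfl
    rfl
  exact h1 _ _ h

theorem phiS_res {Y L : Subgroup X} (hYL : Y ≤ L) {S : Subgroup X} {S' : Subgroup L}
    (hS : ∀ g : L, g ∈ S' ↔ (g : X) ∈ S) (f : X → F) (φ : ↥(Y ⊓ S) → F) (x y : L) :
    (fun g => φ (eYS hYL hS g)) ∈ phiS (Y.subgroupOf L) S' (fun g : L => f g) x y ↔
      φ ∈ phiS Y S f x y := by
  obtain ⟨e, he⟩ : ∃ e, e = eYS hYL hS := ⟨_, rfl⟩
  have hcoe : ∀ g, ((e g : ↥(Y ⊓ S)) : X) = ((g : L) : X) := by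
    intro g
    rw [he]
    rfl
  have hcoe' : ∀ g, (((e.symm g : ↥(Y.subgroupOf L ⊓ S')) : L) : X) = (g : X) := by
    intro g
    rw [← hcoe, MulEquiv.apply_symm_apply]
  rw [← he]
  have hfun : (fun t : ↥(Y.subgroupOf L ⊓ S') => f ((t : L) : X)) =
      fun t => (fun s : ↥(Y ⊓ S) => f s) (e t) := by
    funext t
    show f ((t : L) : X) = f ((e t : ↥(Y ⊓ S)) : X)
    rw [hcoe]
  constructor
  · rintro ⟨h1, h2, h3, h4⟩
    refine ⟨(IBr_equiv e).1 h1, ?_, ?_, ?_⟩
    · rw [hfun] at h2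
      have h5 := (actF_equiv e (fun s : ↥(Y ⊓ S) => f s) φ).symm.trans h2
      funext k
      have := congrFun h5 (e.symm k)
      simp only [MulEquiv.apply_symm_apply] at this
      exact this
    · intro n n' hn
      have := h3 (e.symm n) (e.symm n') (by
        apply Subtype.ext
        show (((e.symm n' : ↥(Y.subgroupOf L ⊓ S')) : L) : X) =
          x * ((e.symm n : ↥(Y.subgroupOf L ⊓ S')) : L) * (x : X)⁻¹
        rw [hcoe', hcoe', hn])
      simp only [MulEquiv.apply_symm_apply] at this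
      exact this
    · intro n n' hn
      have := h4 (e.symm n) (e.symm n') (by
        apply Subtype.ext
        show (((e.symm n' : ↥(Y.subgroupOf L ⊓ S')) : L) : X) =
          y * ((e.symm n : ↥(Y.subgroupOf L ⊓ S')) : L) * (y : X)⁻¹
        rw [hcoe', hcoe', hn])
      simp only [MulEquiv.apply_symm_apply] at this
      exact this
  · rintro ⟨h1, h2, h3, h4⟩
    refine ⟨(IBr_equiv e).2 h1, ?_, ?_, ?_⟩
    · rw [hfun]
      have h5 := actF_equiv e (fun s : ↥(Y ⊓ S) => f s) φ
      rw [h2] at h5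
      exact h5
    · intro n n' hn
      apply h3
      rw [hcoe, hcoe, hn]
      rfl
    · intro n n' hn
      apply h4
      rw [hcoe, hcoe, hn]
      rfl

theorem SS_res {Y L : Subgroup X} (hYL : Y ≤ L) {S R : Subgroup X} {S' R' : Subgroup L}
    (hS : ∀ g : L, g ∈ S' ↔ (g : X) ∈ S) (hR : ∀ r, r ∈ R ↔ ∃ r' ∈ R', (r' : X) = r)
    (τ : F → ℂ) (f : X → F) (x y : L) (u : X → F) :
    SS τ (Y.subgroupOf L) S' R' (fun g : L => f g) x y (fun g : L => u g) =
      SS τ Y S R f x y u := by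
  unfold SS
  symm
  apply finsum_mem_eq_of_bijOn (fun φ : ↥(Y ⊓ S) → F => fun g => φ (eYS hYL hS g))
  · refine ⟨fun φ hφ => (phiS_res hYL hS f φ x y).2 hφ, ?_, ?_⟩
    · intro φ _ ψ _ h
      funext k
      have := congrFun h ((eYS hYL hS).symm k)
      simp only [MulEquiv.apply_symm_apply] at this
      exact this
    · intro ψ hψ
      have h1 : ψ = fun g => (fun k => ψ ((eYS hYL hS).symm k)) (eYS hYL hS g) := by
        funext g
        show ψ g = ψ ((eYS hYL hS).symm (eYS hYL hS g))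
        rw [MulEquiv.symm_apply_apply]
      rw [h1] at hψ
      exact ⟨fun k => ψ ((eYS hYL hS).symm k),
        (phiS_res hYL hS f (fun k => ψ ((eYS hYL hS).symm k)) x y).1 hψ, h1.symm⟩
  · intro φ _
    rw [sc_res hYL hS hR φ x y u]

end res

/-! ### chains -/

section chains

variable {X : Type} [Group X] {L : Subgroup X}

theorem norm_res (D : Subgroup L) (g : L) :
    (g : X) ∈ Subgroup.normalizer ((D.map L.subtype : Subgroup X) : Set X) ↔
      g ∈ Subgroup.normalizer (D : Set L) := by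
  rw [Subgroup.mem_normalizer_iff, Subgroup.mem_normalizer_iff]
  have hinj : Function.Injective L.subtype := Subtype.val_injective
  constructor
  · intro h x
    have h1 := h (x : X)
    have h2 : (x : X) ∈ D.map L.subtype ↔ x ∈ D := Subgroup.mem_map_iff_mem hinj (x := x)
    have h3 : ((g * x * g⁻¹ : L) : X) ∈ D.map L.subtype ↔ g * x * g⁻¹ ∈ D :=
      Subgroup.mem_map_iff_mem hinj (x := g * x * g⁻¹)
    rw [← h2, h1, ← h3]
    rfl
  · intro h x
    constructor
    · rintro ⟨y, hy, rfl⟩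
      exact ⟨g * y * g⁻¹, (h y).1 hy, rfl⟩
    · rintro ⟨y, hy, hxy⟩
      refine ⟨g⁻¹ * y * g, ?_, ?_⟩
      · have h1 := (h (g⁻¹ * y * g)).2 (by
          have : g * (g⁻¹ * y * g) * g⁻¹ = y := by group
          rw [this]
          exact hy)
        exact h1
      · show (g : X)⁻¹ * y * g = x
        have h1 : (y : X) = g * x * (g : X)⁻¹ := hxy
        rw [h1]
        group

open Classical in
/-- the image of a chain -/
def upC (t : Finset (Subgroup L)) : Finset (Subgroup X) := t.image (Subgroup.map L.subtype)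

open Classical in
/-- the restriction of a chain -/
def dnC (L : Subgroup X) (t : Finset (Subgroup X)) : Finset (Subgroup L) :=
  t.image (fun D => D.subgroupOf L)

theorem stab_res (t : Finset (Subgroup L)) (g : L) : g ∈ stab t ↔ (g : X) ∈ stab (upC t) := by
  classical
  rw [mem_stab', mem_stab']
  unfold upC
  constructor
  · intro h D hD
    obtain ⟨D', hD', rfl⟩ := Finset.mem_image.1 hD
    exact (norm_res D' g).2 (h D' hD')
  · intro h D hD
    exact (norm_res D g).1 (h _ (Finset.mem_image_of_mem _ hD))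

theorem top_res (t : Finset (Subgroup L)) : top (upC t) = (top t).map L.subtype := by
  classical
  unfold top upC
  rw [Finset.coe_image, (Subgroup.gc_map_comap L.subtype).l_sSup, sSup_image]

theorem normal_res (t : Finset (Subgroup L)) : NormalChain (upC t) ↔ NormalChain t := by
  classical
  unfold NormalChain
  rw [top_res]
  unfold upC
  constructor
  · intro h D hD g hg
    have h1 := h _ (Finset.mem_image_of_mem _ hD) (Subgroup.mem_map_of_mem L.subtype hg)
    exact (norm_res D g).1 h1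
  · intro h D hD g hg
    obtain ⟨D', hD', rfl⟩ := Finset.mem_image.1 hD
    obtain ⟨g', hg', rfl⟩ := hg
    exact (norm_res D' g').2 (h D' hD' hg')

theorem upC_inj : Function.Injective (Subgroup.map L.subtype : Subgroup L → Subgroup X) :=
  Subgroup.map_injective Subtype.val_injective

theorem upC_card (t : Finset (Subgroup L)) : (upC t).card = t.card := by
  classical
  exact Finset.card_image_of_injective _ upC_inj

theorem dn_up (t : Finset (Subgroup L)) : dnC L (upC t) = t := by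
  classical
  unfold dnC upC
  rw [Finset.image_image]
  have h1 : ((fun D : Subgroup X => D.subgroupOf L) ∘ Subgroup.map L.subtype) = id := by
    funext D
    show (D.map L.subtype).comap L.subtype = D
    exact Subgroup.comap_map_eq_self_of_injective Subtype.val_injective D
  rw [h1, Finset.image_id]

theorem up_dn {t : Finset (Subgroup X)} (ht : ∀ D ∈ t, D ≤ L) : upC (dnC L t) = t := by
  classical
  unfold dnC upC
  rw [Finset.image_image]
  ext D
  rw [Finset.mem_image]
  constructor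
  · rintro ⟨E, hE, rfl⟩
    show (E.subgroupOf L).map L.subtype ∈ t
    rw [Subgroup.subgroupOf_map_subtype, inf_eq_left.2 (ht E hE)]
    exact hE
  · intro hD
    refine ⟨D, hD, ?_⟩
    show (D.subgroupOf L).map L.subtype = D
    rw [Subgroup.subgroupOf_map_subtype, inf_eq_left.2 (ht D hD)]

theorem upC_mem {ℓ : ℕ} [Finite X] {Y : Subgroup X} (hYL : Y ≤ L) {t : Finset (Subgroup L)}
    (ht : t ∈ chainsOn (psubIn ℓ (Y.subgroupOf L)) ⊥) : upC t ∈ chainsOn (psubIn ℓ Y) ⊥ := by
  classical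
  rw [mem_chainsOn] at ht ⊢
  refine ⟨?_, ?_, ?_⟩
  · intro D hD
    obtain ⟨D', hD', rfl⟩ := Finset.mem_image.1 hD
    have h1 := ht.1 hD'
    rw [mem_psubIn] at h1 ⊢
    refine ⟨?_, h1.2.map _⟩
    rintro _ ⟨g, hg, rfl⟩
    exact Subgroup.mem_subgroupOf.1 (h1.1 hg)
  · refine Finset.mem_image.2 ⟨⊥, ht.2.1, ?_⟩
    exact Subgroup.map_bot _
  · intro D hD E hE _
    obtain ⟨D', hD', rfl⟩ := Finset.mem_image.1 (Finset.mem_coe.1 hD)
    obtain ⟨E', hE', rfl⟩ := Finset.mem_image.1 (Finset.mem_coe.1 hE)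
    rcases chain_total ht.2.2 hD' hE' with h | h
    · left; exact Subgroup.map_mono h
    · right; exact Subgroup.map_mono h

theorem dnC_mem {ℓ : ℕ} [Finite X] {Y : Subgroup X} {t : Finset (Subgroup X)}
    (ht : t ∈ chainsOn (psubIn ℓ Y) ⊥) : dnC L t ∈ chainsOn (psubIn ℓ (Y.subgroupOf L)) ⊥ := by
  classical
  rw [mem_chainsOn] at ht ⊢
  refine ⟨?_, ?_, ?_⟩
  · intro D hD
    obtain ⟨D', hD', rfl⟩ := Finset.mem_image.1 hD
    have h1 := ht.1 hD'
    rw [mem_psubIn] at h1 ⊢
    exact ⟨fun g hg => Subgroup.mem_subgroupOf.2 (h1.1 (Subgroup.mem_subgroupOf.1 hg)),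
      h1.2.comap_subtype⟩
  · refine Finset.mem_image.2 ⟨⊥, ht.2.1, ?_⟩
    exact Subgroup.bot_subgroupOf L
  · intro D hD E hE _
    obtain ⟨D', hD', rfl⟩ := Finset.mem_image.1 (Finset.mem_coe.1 hD)
    obtain ⟨E', hE', rfl⟩ := Finset.mem_image.1 (Finset.mem_coe.1 hE)
    rcases chain_total ht.2.2 hD' hE' with h | h
    · left; exact Subgroup.comap_mono h
    · right; exact Subgroup.comap_mono h

end chains

/-! ### the statement -/

section final

variable {F X : Type} [Field F] [Group X] [Finite X] {ℓ : ℕ} {Y L : Subgroup X}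

theorem TT1_res [Fintype X] [Fintype L] (hYL : Y ≤ L) (τ : F → ℂ) (f : X → F) (x y : L)
    (u : X → F) (t : Finset (Subgroup L)) :
    TT1 τ (Y.subgroupOf L) (fun g : L => f g) x y (fun g : L => u g) t =
      TT1 τ Y f (x : X) (y : X) u (upC t) := by
  classical
  have hS : ∀ g : L, g ∈ stab t ↔ (g : X) ∈ stab (upC t) := stab_res t
  have hR : ∀ r, r ∈ top (upC t) ↔ ∃ r' ∈ top t, (r' : X) = r := by
    intro r
    rw [top_res]
    rfl
  unfold TT1
  apply Fintype.sum_equiv (Subgroup.subgroupOfEquivOfLe hYL).toEquiv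
  intro n
  apply Fintype.sum_equiv (Subgroup.subgroupOfEquivOfLe hYL).toEquiv
  intro m
  have hn : (((Subgroup.subgroupOfEquivOfLe hYL).toEquiv n : Y) : X) = ((n : L) : X) := rfl
  have hm : (((Subgroup.subgroupOfEquivOfLe hYL).toEquiv m : Y) : X) = ((m : L) : X) := rfl
  rw [hn, hm]
  have h1 : x * (n : L) ∈ stab t ↔ (x : X) * ((n : L) : X) ∈ stab (upC t) := hS (x * n)
  have h2 : y * (m : L) ∈ stab t ↔ (y : X) * ((m : L) : X) ∈ stab (upC t) := hS (y * m)
  by_cases hc : x * (n : L) ∈ stab t ∧ y * (m : L) ∈ stab t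
  · rw [if_pos hc, if_pos ⟨h1.1 hc.1, h2.1 hc.2⟩, upC_card]
    have h3 : Nat.card ↥(Y.subgroupOf L ⊓ stab t) = Nat.card ↥(Y ⊓ stab (upC t)) :=
      Nat.card_congr (eYS hYL hS).toEquiv
    have h4 := SS_res hYL hS hR τ f (x * (n : L)) (y * (m : L)) u
    rw [h3, h4]
    rfl
  · rw [if_neg hc, if_neg (fun h => hc ⟨h1.2 h.1, h2.2 h.2⟩)]

theorem DJ_res (hYL : Y ≤ L) (τ : F → ℂ) (f : X → F) (x y : L) (u : X → F) :
    DJ τ ℓ (Y.subgroupOf L) (fun g : L => f g) x y (fun g : L => u g) =
      DJ τ ℓ Y f (x : X) (y : X) u := by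
  have h1 := Fintype.ofFinite X
  have h2 := Fintype.ofFinite L
  classical
  rw [DJ_eq, DJ_eq]
  refine Finset.sum_bij' (fun t _ => upC t) (fun t _ => dnC L t) ?_ ?_ ?_ ?_ ?_
  · intro t ht
    rw [Finset.mem_filter] at ht ⊢
    exact ⟨upC_mem hYL ht.1, (normal_res t).2 ht.2⟩
  · intro t ht
    rw [Finset.mem_filter] at ht ⊢
    have h3 : upC (dnC L t) = t := by
      apply up_dn
      intro D hD
      exact ((mem_psubIn.1 ((mem_chainsOn.1 ht.1).1 hD)).1).trans hYL
    refine ⟨dnC_mem ht.1, ?_⟩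
    rw [← normal_res, h3]
    exact ht.2
  · intro t _
    exact dn_up t
  · intro t ht
    rw [Finset.mem_filter] at ht
    apply up_dn
    intro D hD
    exact ((mem_psubIn.1 ((mem_chainsOn.1 ht.1).1 hD)).1).trans hYL
  · intro t _
    exact TT1_res hYL τ f x y u t

/-- extension by zero -/
def exL (L : Subgroup X) (u : L → F) : X → F :=
  open Classical in fun g => if h : g ∈ L then u ⟨g, h⟩ else 0

omit [Finite X] in
theorem exL_res (u : L → F) (g : L) : exL L u (g : X) = u g := by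
  classical
  simp only [exL, dif_pos g.2]

omit [Finite X] in
theorem exL_out (u : L → F) {g : X} (hg : g ∉ L) : exL L u g = 0 := by
  classical
  simp only [exL, dif_neg hg]

omit [Finite X] in
theorem res_ext {a b : X → F} (ha : ∀ t, t ∉ L → a t = 0) (hb : ∀ t, t ∉ L → b t = 0)
    (h : (fun t : L => a t) = fun t : L => b t) : a = b := by
  funext t
  by_cases ht : t ∈ L
  · exact congrFun h ⟨t, ht⟩
  · rw [ha t ht, hb t ht]

theorem mulF_out {a b : X → F} (ha : ∀ t, t ∉ L → a t = 0) (hb : ∀ t, t ∉ L → b t = 0) {t : X}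
    (ht : t ∉ L) : mulF a b t = 0 := by
  have hfin := Fintype.ofFinite X
  rw [mulF, finsum_eq_sum_of_fintype]
  apply Finset.sum_eq_zero
  intro s _
  by_cases hs : s ∈ L
  · have h5 : s⁻¹ * t ∉ L := by
      intro hc
      apply ht
      have := L.mul_mem hs hc
      rwa [mul_inv_cancel_left] at this
    rw [hb _ h5, mul_zero]
  · rw [ha _ hs, zero_mul]

omit [Finite X] in
theorem CE_out {f : X → F} (hYL : Y ≤ L) {g : L} {u : X → F} (hu : CE f Y (g : X) u) :
    ∀ t, t ∉ L → u t = 0 := by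
  intro t ht
  apply hu.supp
  intro hc
  apply ht
  have := L.mul_mem g.2 (hYL hc)
  rwa [mul_inv_cancel_left] at this

theorem CE_res {f : X → F} (hf : SBlk Y f) (hYL : Y ≤ L) {g : L} {u : X → F}
    (hu : CE f Y (g : X) u) : CE (fun t : L => f t) (Y.subgroupOf L) g (fun t : L => u t) := by
  refine ⟨?_, ?_, ?_⟩
  · intro h hh
    apply hu.supp
    intro hc
    exact hh (Subgroup.mem_subgroupOf.2 hc)
  · intro n hn h
    exact hu.inv _ (Subgroup.mem_subgroupOf.1 hn) _
  · rw [← restr_mul L (fun t ht => hf.supp t (fun hc => ht (hYL hc))), hu.abs]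

theorem unit_res {f : X → F} (hf : SBlk Y f) (hYL : Y ≤ L) {g : L} {u u' : X → F}
    (hu : IsUnitOver f Y (g : X) u u') :
    IsUnitOver (fun t : L => f t) (Y.subgroupOf L) g (fun t : L => u t) (fun t : L => u' t) := by
  refine ⟨CE_res hf hYL hu.left, CE_res hf hYL hu.right, ?_⟩
  rw [← restr_mul L (CE_out hYL hu.left), hu.mul]

theorem CE_exL {f : X → F} (hf : SBlk Y f) (hYL : Y ≤ L) {g : L} {u : L → F}
    (hu : CE (fun t : L => f t) (Y.subgroupOf L) g u) : CE f Y (g : X) (exL L u) := by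
  have hfL : ∀ t, t ∉ L → f t = 0 := fun t ht => hf.supp t (fun hc => ht (hYL hc))
  refine ⟨?_, ?_, ?_⟩
  · intro h hh
    by_cases hL : h ∈ L
    · have h1 := exL_res u ⟨h, hL⟩
      have h2 : exL L u h = u ⟨h, hL⟩ := h1
      rw [h2]
      apply hu.supp
      intro hc
      exact hh (Subgroup.mem_subgroupOf.1 hc)
    · exact exL_out u hL
  · intro n hn h
    by_cases hL : h ∈ L
    · have h2 : exL L u h = u ⟨h, hL⟩ := exL_res u ⟨h, hL⟩
      have h3 : exL L u (n * h * n⁻¹) = u (⟨n, hYL hn⟩ * ⟨h, hL⟩ * ⟨n, hYL hn⟩⁻¹) :=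
        exL_res u (⟨n, hYL hn⟩ * ⟨h, hL⟩ * ⟨n, hYL hn⟩⁻¹)
      rw [h2, h3]
      exact hu.inv _ (Subgroup.mem_subgroupOf.2 hn) _
    · have h4 : n * h * n⁻¹ ∉ L := by
        intro hc
        apply hL
        have h5 := L.mul_mem (L.mul_mem (L.inv_mem (hYL hn)) hc) (hYL hn)
        have h6 : n⁻¹ * (n * h * n⁻¹) * n = h := by group
        rwa [h6] at h5
      rw [exL_out u hL, exL_out u h4]
  · apply res_ext (L := L) (fun t ht => mulF_out hfL (fun s hs => exL_out u hs) ht)
      (fun s hs => exL_out u hs)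
    rw [restr_mul L hfL]
    have h1 : (fun t : L => exL L u t) = u := funext fun t => exL_res u t
    rw [h1, hu.abs]

theorem rst : RstStmt := by
  intro ℓ F _ hF τ X _ _ Y hY f hf L hYL
  have hfL : ∀ t, t ∉ L → f t = 0 := fun t ht => hf.supp t (fun hc => ht (hYL hc))
  have hf' : SBlk (Y.subgroupOf L) (fun t : L => f t) := by
    refine ⟨?_, ?_, ?_⟩
    · intro x hx
      exact hf.supp x (fun hc => hx (Subgroup.mem_subgroupOf.2 hc))
    · intro x y
      exact hf.cl x y
    · exact IsBlk_equiv (Subgroup.subgroupOfEquivOfLe hYL) hf.blk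
  have hY' : (Y.subgroupOf L).Normal := hY.subgroupOf L
  refine ⟨hf', ?_, ?_⟩
  · intro g
    rw [mem_XF hf' hY', mem_XF hf hY]
    constructor
    · rintro ⟨u, u', hu⟩
      refine ⟨exL L u, exL L u', CE_exL hf hYL hu.left, CE_exL hf hYL hu.right, ?_⟩
      apply res_ext (L := L) (fun t ht => mulF_out (fun s hs => exL_out u hs)
        (fun s hs => exL_out u' hs) ht) hfL
      rw [restr_mul L (fun s hs => exL_out u hs)]
      have h1 : ∀ u : L → F, (fun t : L => exL L u t) = u := fun u => funext fun t => exL_res u t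
      rw [h1, h1, hu.mul]
    · rintro ⟨u, u', hu⟩
      exact ⟨_, _, unit_res hf hYL hu⟩
  · intro x y hD u u' hu
    have h1 := hD _ _ (unit_res (g := x * y * x⁻¹ * y⁻¹) hf hYL hu)
    rw [DJ_res hYL] at h1
    exact h1

end final

end Pool.Agent.PP.H20
end
end -- Pool.Agent.Helper20_PP.Rst

section -- Pool.Agent.Helper46_PP.BlkProd

/-!
# Squad PP: the antipode of a block idempotent and the product of two block idempotents
-/

open scoped BigOperators

set_option linter.unusedSectionVars false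

noncomputable section

namespace Pool.Agent.PP.H46

open Pool.Agent.PP

section dual

variable {F H : Type} [Field F] [Group H] [Finite H]

/-- the antipode -/
def dlv (a : H → F) : H → F := fun h => a h⁻¹

theorem dlv_dlv (a : H → F) : dlv (dlv a) = a := by
  funext h
  simp [dlv]

theorem mulF_dlv (a b : H → F) : mulF (dlv a) (dlv b) = dlv (mulF b a) := by
  have := Fintype.ofFinite H
  funext x
  change ∑ᶠ t, a t⁻¹ * b (t⁻¹ * x)⁻¹ = ∑ᶠ t, b t * a (t⁻¹ * x⁻¹)
  rw [finsum_eq_sum_of_fintype, finsum_eq_sum_of_fintype]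
  refine Fintype.sum_equiv (Equiv.mulLeft x⁻¹) _ _ ?_
  intro t
  rw [Equiv.coe_mulLeft, mul_comm]
  congr 2 <;> group

theorem dlv_cl {a : H → F} (ha : IsCl a) : IsCl (dlv a) := by
  intro x y
  unfold dlv
  rw [← ha x⁻¹ y]
  congr 1
  group

theorem dlv_idem {a : H → F} (ha : IsIdem a) : IsIdem (dlv a) :=
  ⟨dlv_cl ha.1, by rw [mulF_dlv, ha.2]⟩

theorem isBlk_dlv {f : H → F} (hf : IsBlk f) : IsBlk (dlv f) := by
  refine ⟨dlv_idem hf.1, ?_, ?_⟩
  · intro h
    apply hf.2.1
    rw [← dlv_dlv f, h]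
    rfl
  · intro g hg
    have h1 : mulF (dlv f) g = dlv (mulF f (dlv g)) := by
      rw [← mulF_dlv, dlv_dlv, mulF_comm hg.1]
    rw [h1]
    rcases hf.2.2 _ (dlv_idem hg) with h2 | h2
    · left
      rw [h2]
    · right
      rw [h2]
      rfl

end dual

/-! ### residues in a commutative algebra -/

section comm

variable {F R : Type} [Field F] [CommRing R] [Algebra F R] {φ : R}

/-- `z` has a residue -/
def Pr (F : Type) [Field F] {R : Type} [CommRing R] [Algebra F R] (φ z : R) : Prop :=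
  ∃ c : F, IsNilpotent (z - c • φ)

theorem Pr.mul (hφ : φ * φ = φ) {z z' : R} (hz' : φ * z' = z') (h1 : Pr F φ z)
    (h2 : Pr F φ z') : Pr F φ (z * z') := by
  obtain ⟨c, hc⟩ := h1
  obtain ⟨d, hd⟩ := h2
  exact ⟨c * d, J74.res_mul hφ hz' hc hd⟩

theorem Pr.add {z z' : R} (h1 : Pr F φ z) (h2 : Pr F φ z') : Pr F φ (z + z') := by
  obtain ⟨c, hc⟩ := h1
  obtain ⟨d, hd⟩ := h2
  exact ⟨c + d, J74.res_add hc hd⟩

theorem Pr.sum {ι : Type} (s : Finset ι) (z : ι → R) (h : ∀ i ∈ s, Pr F φ (z i)) :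
    Pr F φ (∑ i ∈ s, z i) := by
  classical
  induction s using Finset.induction_on with
  | empty => exact ⟨0, by rw [Finset.sum_empty, zero_smul, sub_zero]; exact IsNilpotent.zero⟩
  | insert a s ha ih =>
    rw [Finset.sum_insert ha]
    exact (h a (Finset.mem_insert_self a s)).add
      (ih fun i hi => h i (Finset.mem_insert_of_mem hi))

theorem idem_nil {e : R} (he : e * e = e) (h : IsNilpotent e) : e = 0 := by
  obtain ⟨n, hn⟩ := h
  have h1 : ∀ n : ℕ, e ^ (n + 1) = e := by
    intro n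
    induction n with
    | zero => simp
    | succ n ih => rw [pow_succ, ih, he]
  rw [← h1 n, pow_succ, hn, zero_mul]

theorem idem_cases (hφ : φ * φ = φ) {e : R} (he : e * e = e) (h : φ * e = e) (hp : Pr F φ e) :
    e = φ ∨ e = 0 := by
  obtain ⟨c, hc⟩ := hp
  by_cases h1 : c = 1
  · left
    rw [h1, one_smul] at hc
    have h2 : IsNilpotent (φ - e) := by
      have h3 := hc.neg
      rwa [neg_sub] at h3
    have h3 : (φ - e) * (φ - e) = φ - e := by
      have h4 : e * φ = e := by rw [mul_comm, h]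
      rw [sub_mul, mul_sub, mul_sub, hφ, h, he, h4, sub_self, sub_zero]
    exact (sub_eq_zero.1 (idem_nil h3 h2)).symm
  · right
    have h2 : IsNilpotent (e * (e - c • φ)) := (Commute.all _ _).isNilpotent_mul_left hc
    have h3 : e * (e - c • φ) = (1 - c) • e := by
      rw [mul_sub, he, mul_smul_comm, mul_comm e φ, h, sub_smul, one_smul]
    rw [h3] at h2
    have h4 : (1 - c) ≠ 0 := fun h' => h1 (sub_eq_zero.1 h').symm
    have h5 := h2.smul (1 - c)⁻¹
    rw [smul_smul, inv_mul_cancel₀ h4, one_smul] at h5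
    exact idem_nil he h5

end comm

/-! ### products -/

section prod

variable {F H K : Type} [Field F] [Group H] [Group K] [Finite H] [Finite K]

/-- the product of two functions -/
def box (a : H → F) (b : K → F) : H × K → F := fun p => a p.1 * b p.2

theorem mulF_box (a a' : H → F) (b b' : K → F) :
    mulF (box a b) (box a' b') = box (mulF a a') (mulF b b') := by
  have := Fintype.ofFinite H
  have := Fintype.ofFinite K
  funext x
  change ∑ᶠ p : H × K, a p.1 * b p.2 * (a' (p.1⁻¹ * x.1) * b' (p.2⁻¹ * x.2)) =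
    (∑ᶠ s, a s * a' (s⁻¹ * x.1)) * ∑ᶠ t, b t * b' (t⁻¹ * x.2)
  rw [finsum_eq_sum_of_fintype, finsum_eq_sum_of_fintype, finsum_eq_sum_of_fintype,
    Fintype.sum_prod_type, Finset.sum_mul_sum]
  apply Finset.sum_congr rfl
  intro s _
  apply Finset.sum_congr rfl
  intro t _
  ring

theorem box_cl {a : H → F} {b : K → F} (ha : IsCl a) (hb : IsCl b) : IsCl (box a b) := by
  intro x y
  change a (y.1 * x.1 * y.1⁻¹) * b (y.2 * x.2 * y.2⁻¹) = a x.1 * b x.2
  rw [ha, hb]

theorem box_iter (a : H → F) (b : K → F) (n : ℕ) : (mulF (box a b))^[n] (box a b) =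
    box ((mulF a)^[n] a) ((mulF b)^[n] b) := by
  induction n with
  | zero => rfl
  | succ n ih => rw [Function.iterate_succ_apply', ih, mulF_box, Function.iterate_succ_apply',
      Function.iterate_succ_apply']

theorem box_nil_left {a : H → F} (b : K → F) (h : ∃ n : ℕ, ma a ^ n = 0) :
    ∃ n : ℕ, ma (box a b) ^ n = 0 := by
  obtain ⟨n, hn⟩ := (J74.nil_iff a).2 h
  rw [← J74.nil_iff]
  refine ⟨n, ?_⟩
  rw [box_iter, hn]
  funext x
  change (0 : F) * _ = 0
  rw [zero_mul]

theorem box_nil_right (a : H → F) {b : K → F} (h : ∃ n : ℕ, ma b ^ n = 0) :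
    ∃ n : ℕ, ma (box a b) ^ n = 0 := by
  obtain ⟨n, hn⟩ := (J74.nil_iff b).2 h
  rw [← J74.nil_iff]
  refine ⟨n, ?_⟩
  rw [box_iter, hn]
  funext x
  change _ * (0 : F) = 0
  rw [mul_zero]

/-- a class function as an element of the commutative algebra -/
def zz {G : Type} [Group G] [Finite G] (u : G → F) (hu : IsCl u) : J74.ZY F (⊤ : Subgroup G) :=
  ⟨ma u, (J74.mem_ZY u).2 ⟨fun _ hh => absurd trivial hh, fun n _ h => hu h n⟩⟩

theorem sblk_top {f : H → F} (hf : IsBlk f) : SBlk (⊤ : Subgroup H) f :=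
  ⟨fun _ hx => absurd trivial hx, hf.1.1, H20.IsBlk_equiv Subgroup.topEquiv hf⟩

theorem mulF_cl {G : Type} [Group G] [Finite G] {a b : G → F} (ha : IsCl a) (hb : IsCl b) :
    IsCl (mulF a b) := by
  have h := J74.inv_mulF (Y := (⊤ : Subgroup G)) (u := a) (v := b) (fun n _ h => ha h n)
    (fun n _ h => hb h n)
  exact fun x y => h y trivial x

/-- the residue of `f a` at the block `f` -/
theorem blk_res (hF : IsAlgClosed F) {f : H → F} (hf : IsBlk f) {a : H → F} (ha : IsCl a) :
    ∃ c : F, ∃ n : ℕ, ma (mulF f a - c • f) ^ n = 0 := by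
  have hz : CE f (⊤ : Subgroup H) 1 (mulF f a) := by
    refine ⟨fun h hh => absurd trivial hh, fun n _ h => mulF_cl hf.1.1 ha h n, ?_⟩
    rw [← mulF_assoc, hf.1.2]
  obtain ⟨c, hc⟩ := J74.res_exists hF (sblk_top hf) hz
  rw [J74.isRes_iff] at hc
  refine ⟨c, ?_⟩
  rwa [ma_sub, ma_smul]

theorem smul_box (c : F) (a : H → F) (b : K → F) : box (c • a) b = c • box a b := by
  funext x
  change c * a x.1 * b x.2 = c * (a x.1 * b x.2)
  ring

theorem box_smul (c : F) (a : H → F) (b : K → F) : box a (c • b) = c • box a b := by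
  funext x
  change a x.1 * (c * b x.2) = c * (a x.1 * b x.2)
  ring

theorem box_sub (a : H → F) (b b' : K → F) : box a (b - b') = box a b - box a b' := by
  funext x
  change a x.1 * (b x.2 - b' x.2) = a x.1 * b x.2 - a x.1 * b' x.2
  ring

theorem sub_box (a a' : H → F) (b : K → F) : box (a - a') b = box a b - box a' b := by
  funext x
  change (a x.1 - a' x.1) * b x.2 = a x.1 * b x.2 - a' x.1 * b x.2
  ring

theorem Pr_of {G : Type} [Group G] [Finite G] {u φ : G → F} (hu : IsCl u) (hφ : IsCl φ) {c : F}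
    (h : ∃ n : ℕ, ma (u - c • φ) ^ n = 0) : Pr F (zz φ hφ) (zz u hu) := by
  refine ⟨c, ?_⟩
  rw [J74.nil_zy]
  change IsNilpotent (ma u - c • ma φ)
  rw [← ma_smul, ← ma_sub]
  exact h

/-- PROD: the product of two block idempotents is a block idempotent. -/
theorem isBlk_box (hF : IsAlgClosed F) {f : H → F} {g : K → F} (hf : IsBlk f) (hg : IsBlk g) :
    IsBlk (box f g) := by
  classical
  have hid : IsIdem (box f g) := ⟨box_cl hf.1.1 hg.1.1, by rw [mulF_box, hf.1.2, hg.1.2]⟩
  refine ⟨hid, ?_, ?_⟩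
  · intro h
    obtain ⟨x, hx⟩ := Function.ne_iff.1 hf.2.1
    obtain ⟨y, hy⟩ := Function.ne_iff.1 hg.2.1
    have := congrFun h (x, y)
    rcases mul_eq_zero.1 this with h1 | h1
    · exact hx h1
    · exact hy h1
  · intro e he
    have := Fintype.ofFinite (ConjClasses K)
    -- the pieces
    let A : ConjClasses K → H → F := fun c x => e (x, Quotient.out c)
    let B : ConjClasses K → K → F := fun c y => if ConjClasses.mk y = c then 1 else 0
    have hA : ∀ c, IsCl (A c) := by
      intro c x y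
      have := he.1 (x, Quotient.out c) (y, 1)
      simpa [A] using this
    have hB : ∀ c, IsCl (B c) := by
      intro c x y
      have : ConjClasses.mk (y * x * y⁻¹) = ConjClasses.mk x := by
        rw [ConjClasses.mk_eq_mk_iff_isConj]
        exact (isConj_iff.2 ⟨y, rfl⟩).symm
      change (if ConjClasses.mk (y * x * y⁻¹) = c then (1 : F) else 0) = if _ then _ else _
      rw [this]
    have hdec : e = ∑ c : ConjClasses K, box (A c) (B c) := by
      funext p
      obtain ⟨x, y⟩ := p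
      rw [Finset.sum_apply, Finset.sum_eq_single (ConjClasses.mk y)]
      · change e (x, y) = e (x, Quotient.out (ConjClasses.mk y)) *
          (if ConjClasses.mk y = ConjClasses.mk y then 1 else 0)
        rw [if_pos rfl, mul_one]
        have h1 : ConjClasses.mk (Quotient.out (ConjClasses.mk y)) = ConjClasses.mk y :=
          Quotient.out_eq _
        rw [ConjClasses.mk_eq_mk_iff_isConj] at h1
        obtain ⟨k, hk⟩ := isConj_iff.1 h1
        have h2 := he.1 (x, Quotient.out (ConjClasses.mk y)) (1, k)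
        rw [← h2]
        congr 1
        exact Prod.ext (by simp) hk.symm
      · intro c _ hc
        change e (x, Quotient.out c) * (if ConjClasses.mk y = c then 1 else 0) = 0
        rw [if_neg hc.symm, mul_zero]
      · intro h
        exact absurd (Finset.mem_univ _) h
    have hmul : ∀ c, mulF (box f g) (box (A c) (B c)) =
        mulF (box (mulF f (A c)) g) (box f (mulF g (B c))) := by
      intro c
      rw [mulF_box, mulF_box, mulF_comm hf.1.1 (A c), mulF_assoc, hf.1.2, ← mulF_assoc g g,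
        hg.1.2]
    let φ := zz (box f g) hid.1
    have hφ : φ * φ = φ := by
      apply Subtype.ext
      change ma (box f g) * ma (box f g) = ma (box f g)
      rw [← ma_mul, hid.2]
    have hcl1 : ∀ c, IsCl (box (mulF f (A c)) g) := fun c =>
      box_cl (mulF_cl hf.1.1 (hA c)) hg.1.1
    have hcl2 : ∀ c, IsCl (box f (mulF g (B c))) := fun c =>
      box_cl hf.1.1 (mulF_cl hg.1.1 (hB c))
    have hP1 : ∀ c, Pr F φ (zz _ (hcl1 c)) := by
      intro c
      obtain ⟨d, hd⟩ := blk_res hF hf (hA c)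
      apply Pr_of (c := d)
      rw [← smul_box, ← sub_box]
      exact box_nil_left g hd
    have hP2 : ∀ c, Pr F φ (zz _ (hcl2 c)) := by
      intro c
      obtain ⟨d, hd⟩ := blk_res hF hg (hB c)
      apply Pr_of (c := d)
      rw [← box_smul, ← box_sub]
      exact box_nil_right f hd
    have habs : ∀ c, φ * zz _ (hcl2 c) = zz _ (hcl2 c) := by
      intro c
      apply Subtype.ext
      change ma (box f g) * ma (box f (mulF g (B c))) = ma (box f (mulF g (B c)))
      rw [← ma_mul, mulF_box, hf.1.2, ← mulF_assoc, hg.1.2]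
    have hcle : IsCl (mulF (box f g) e) := mulF_cl hid.1 he.1
    have hsum : zz _ hcle = ∑ c : ConjClasses K, zz _ (hcl1 c) * zz _ (hcl2 c) := by
      apply Subtype.ext
      rw [AddSubmonoidClass.coe_finsetSum]
      change ma (mulF (box f g) e) = ∑ c : ConjClasses K,
        ma (box (mulF f (A c)) g) * ma (box f (mulF g (B c)))
      conv_lhs => rw [hdec, ma_mul]
      have h1 : ma (∑ c : ConjClasses K, box (A c) (B c)) =
          ∑ c : ConjClasses K, ma (box (A c) (B c)) := map_sum maL _ _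
      rw [h1, Finset.mul_sum]
      apply Finset.sum_congr rfl
      intro c _
      rw [← ma_mul, ← ma_mul, hmul]
    have hPe : Pr F φ (zz _ hcle) := by
      rw [hsum]
      apply Pr.sum
      intro c _
      exact (hP1 c).mul hφ (habs c) (hP2 c)
    have hee : zz _ hcle * zz _ hcle = zz _ hcle := by
      apply Subtype.ext
      change ma (mulF (box f g) e) * ma (mulF (box f g) e) = ma (mulF (box f g) e)
      rw [← ma_mul, (isIdem_mul hid he).2]
    have hpe : φ * zz _ hcle = zz _ hcle := by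
      apply Subtype.ext
      change ma (box f g) * ma (mulF (box f g) e) = ma (mulF (box f g) e)
      rw [← ma_mul, ← mulF_assoc, hid.2]
    rcases idem_cases hφ hee hpe hPe with h | h
    · left
      exact ma_injective (congrArg Subtype.val h)
    · right
      apply ma_injective
      rw [ma_zero]
      exact congrArg Subtype.val h

end prod

end Pool.Agent.PP.H46
end
end -- Pool.Agent.Helper46_PP.BlkProd

section -- Pool.Agent.Helper9_PP.Pbk

/-!
# Squad PP, part CYD, module PBK: the block of a direct power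
-/

open scoped BigOperators

noncomputable section

namespace Pool.Agent.PP.H9

open Pool.Agent.PP

variable {F H H' : Type} [Field F] [Group H] [Group H']

theorem mulF_tr (e : H ≃* H') (a a' : H' → F) :
    mulF (fun x => a (e x)) (fun x => a' (e x)) = fun x => mulF a a' (e x) := by
  funext x
  unfold mulF
  rw [← finsum_comp_equiv e.toEquiv]
  refine finsum_congr fun t => ?_
  show a (e t) * a' (e (t⁻¹ * x)) = a (e t) * a' ((e t)⁻¹ * e x)
  rw [map_mul, map_inv]

theorem idem_tr (e : H ≃* H') {a : H' → F} (h : IsIdem a) : IsIdem (fun x => a (e x)) := by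
  refine ⟨fun x y => ?_, by rw [mulF_tr, h.2]⟩
  show a (e (y * x * y⁻¹)) = a (e x)
  rw [map_mul, map_mul, map_inv]
  exact h.1 _ _

theorem blk_tr (e : H ≃* H') {a : H' → F} (h : IsBlk a) : IsBlk (fun x => a (e x)) := by
  refine ⟨idem_tr e h.1, fun h0 => h.2.1 ?_, fun g hg => ?_⟩
  · funext y
    have := congrFun h0 (e.symm y)
    simpa using this
  · have h1 : (fun x => (fun y => g (e.symm y)) (e x)) = g := by
      funext x
      simp
    rcases h.2.2 _ (idem_tr e.symm hg) with h2 | h2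
    · left
      have := mulF_tr e a (fun y => g (e.symm y))
      rw [h1, h2] at this
      exact this
    · right
      have := mulF_tr e a (fun y => g (e.symm y))
      rw [h1, h2] at this
      exact this

/-- the first coordinate -/
def pw1 (K : Type) [Group K] : (Fin 1 → K) ≃* K where
  toFun k := k 0
  invFun x := fun _ => x
  left_inv k := by
    funext j
    rw [Subsingleton.elim j 0]
  right_inv _ := rfl
  map_mul' _ _ := rfl

/-- the first coordinate and the others -/
def pwS' (K : Type) [Group K] (p : ℕ) : (Fin (p + 1) → K) ≃* K × (Fin p → K) where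
  toFun k := (k 0, fun j => k j.succ)
  invFun x := Fin.cons (α := fun _ => K) x.1 x.2
  left_inv k := by
    funext j
    refine Fin.cases ?_ (fun i => ?_) j
    · rfl
    · rfl
  right_inv _ := rfl
  map_mul' _ _ := rfl

/-- PBK: the block of a direct power. -/
theorem pbk : PbkStmt := by
  intro ℓ _ F _ hF K _ _ p f₀ hf
  induction p with
  | zero =>
    have h := blk_tr (pw1 K) hf
    have e1 : (fun k : Fin (0 + 1) → K => ∏ j, f₀ (k j)) = fun x => f₀ (pw1 K x) := by
      funext k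
      exact Fin.prod_univ_one _
    rw [e1]
    exact h
  | succ p ih =>
    have h := blk_tr (pwS' K (p + 1)) (H46.isBlk_box hF.closed hf ih)
    have e1 : (fun k : Fin (p + 1 + 1) → K => ∏ j, f₀ (k j)) =
        fun x => H46.box f₀ (fun k : Fin (p + 1) → K => ∏ j, f₀ (k j)) (pwS' K (p + 1) x) := by
      funext k
      exact Fin.prod_univ_succ _
    rw [e1]
    exact h

end Pool.Agent.PP.H9
end
end -- Pool.Agent.Helper9_PP.Pbk

section -- Pool.Agent.Helper76_PP.Abs

/-!
# Squad PP, part J: lifting of idempotents in an algebra which is central modulo a nilpotent ideal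
-/

set_option autoImplicit false

namespace Pool.Agent.PP.H76

section abs

variable {F A R : Type} [Field F] [Ring A] [Algebra F A] [CommRing R] (ι : R →+* A)
  (C : Submodule F A) (N : Ideal R)

/-- the span of the products `r c` with `r` in the `k`-th power of `N` -/
def Jk (k : ℕ) : Submodule F A := Submodule.span F {a | ∃ r ∈ N ^ k, ∃ c ∈ C, a = ι r * c}

variable {ι C N}

theorem mem_Jk {k : ℕ} {r : R} (hr : r ∈ N ^ k) {c : A} (hc : c ∈ C) : ι r * c ∈ Jk ι C N k :=
  Submodule.subset_span ⟨r, hr, c, hc, rfl⟩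

theorem Jk_bot {k : ℕ} (hN : N ^ k = ⊥) : Jk ι C N k = ⊥ := by
  rw [eq_bot_iff, Jk, Submodule.span_le]
  rintro a ⟨r, hr, c, -, rfl⟩
  rw [hN, Ideal.mem_bot] at hr
  rw [hr, map_zero, zero_mul]
  exact Submodule.zero_mem _

theorem Jk_anti {k l : ℕ} (h : k ≤ l) : Jk ι C N l ≤ Jk ι C N k := by
  rw [Jk, Submodule.span_le]
  rintro a ⟨r, hr, c, hc, rfl⟩
  exact mem_Jk (Ideal.pow_le_pow_right h hr) hc

theorem le_Jk0 : C ≤ Jk ι C N 0 := by
  intro c hc
  have := mem_Jk (ι := ι) (N := N) (k := 0) (r := 1) (by simp) hc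
  rwa [map_one, one_mul] at this

variable (hC : ∀ a ∈ C, ∀ b ∈ C, a * b ∈ C) (hcomm : ∀ r, ∀ c ∈ C, ι r * c = c * ι r)

include hC hcomm in
theorem Jk_mul {j k : ℕ} {a b : A} (ha : a ∈ Jk ι C N j) (hb : b ∈ Jk ι C N k) :
    a * b ∈ Jk ι C N (j + k) := by
  induction ha using Submodule.span_induction with
  | mem a ha =>
    obtain ⟨r, hr, c, hc, rfl⟩ := ha
    induction hb using Submodule.span_induction with
    | mem b hb =>
      obtain ⟨r', hr', c', hc', rfl⟩ := hb
      have e : ι r * c * (ι r' * c') = ι (r * r') * (c * c') := by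
        rw [map_mul, mul_assoc, ← mul_assoc c, ← hcomm r' c hc, mul_assoc (ι r'), ← mul_assoc]
      rw [e]
      refine mem_Jk ?_ (hC _ hc _ hc')
      rw [pow_add]
      exact Ideal.mul_mem_mul hr hr'
    | zero => rw [mul_zero]; exact Submodule.zero_mem _
    | add x y _ _ hx hy => rw [mul_add]; exact Submodule.add_mem _ hx hy
    | smul t x _ hx => rw [mul_smul_comm]; exact Submodule.smul_mem _ _ hx
  | zero => rw [zero_mul]; exact Submodule.zero_mem _
  | add x y _ _ hx hy => rw [add_mul]; exact Submodule.add_mem _ hx hy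
  | smul t x _ hx => rw [smul_mul_assoc]; exact Submodule.smul_mem _ _ hx

include hC hcomm in
theorem Jk_pow {a : A} (ha : a ∈ Jk ι C N 1) (k : ℕ) : a ^ (k + 1) ∈ Jk ι C N (k + 1) := by
  induction k with
  | zero => rw [zero_add, pow_one]; exact ha
  | succ k ih =>
    rw [pow_succ]
    exact Jk_mul hC hcomm ih ha

include hC hcomm in
theorem C_mul_Jk {k : ℕ} {c a : A} (hc : c ∈ C) (ha : a ∈ Jk ι C N k) : c * a ∈ Jk ι C N k := by
  have := Jk_mul hC hcomm (le_Jk0 hc) ha
  rwa [zero_add] at this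

include hC hcomm in
theorem Jk_mul_C {k : ℕ} {c a : A} (hc : c ∈ C) (ha : a ∈ Jk ι C N k) : a * c ∈ Jk ι C N k := by
  have := Jk_mul hC hcomm ha (le_Jk0 hc)
  rwa [add_zero] at this

include hC hcomm in
theorem Jk_mul_pow {k : ℕ} {s a : A} (hs : s ∈ C) (ha : a ∈ Jk ι C N k) (j : ℕ) :
    a * s ^ j ∈ Jk ι C N k := by
  induction j with
  | zero => rwa [pow_zero, mul_one]
  | succ j ih =>
    rw [pow_succ, ← mul_assoc]
    exact Jk_mul_C hC hcomm hs ih

include hC hcomm in
theorem comm_pow {s d : A} (hs : s ∈ C) (h : s * d - d * s ∈ Jk ι C N 1) (j : ℕ) :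
    s ^ j * d - d * s ^ j ∈ Jk ι C N 1 := by
  induction j with
  | zero => rw [pow_zero, one_mul, mul_one, sub_self]; exact Submodule.zero_mem _
  | succ j ih =>
    have e : s ^ (j + 1) * d - d * s ^ (j + 1) =
        s * (s ^ j * d - d * s ^ j) + (s * d - d * s) * s ^ j := by
      rw [pow_succ']
      noncomm_ring
    rw [e]
    exact Submodule.add_mem _ (C_mul_Jk hC hcomm hs ih) (Jk_mul_pow hC hcomm hs h j)

include hC hcomm in
theorem pow_sub {s : A} (hs : s ∈ C) (h : s * s - s ∈ Jk ι C N 1) (j : ℕ) :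
    s ^ (j + 1) - s ∈ Jk ι C N 1 := by
  induction j with
  | zero => rw [zero_add, pow_one, sub_self]; exact Submodule.zero_mem _
  | succ j ih =>
    have e : s ^ (j + 1 + 1) - s = (s ^ (j + 1) - s) * s + (s * s - s) := by
      rw [pow_succ _ (j + 1)]
      noncomm_ring
    rw [e]
    exact Submodule.add_mem _ (Jk_mul_C hC hcomm hs ih) h

theorem pow_mem {D : Submodule F A} (hD : ∀ a ∈ D, ∀ b ∈ D, a * b ∈ D) {s : A} (hs : s ∈ D)
    (j : ℕ) : s ^ (j + 1) ∈ D := by
  induction j with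
  | zero => rwa [zero_add, pow_one]
  | succ j ih => rw [pow_succ]; exact hD _ ih _ hs

include hC hcomm in
/-- one half of the centrality -/
theorem cent_half {D : Submodule F A} (hDC : D ≤ C) (hD : ∀ a ∈ D, ∀ b ∈ D, a * b ∈ D)
    (P : A →ₗ[F] A) (hP : ∀ r, ∀ c ∈ C, P (ι r * c) = ι r * P c) (hPC : ∀ c ∈ C, P c ∈ D)
    (hPD : ∀ d ∈ D, P d = d) {E : A} (hE : E ∈ D) (hEE : E * E = E)
    (hc : ∀ d ∈ D, E * d - d * E ∈ Jk ι C N 1) (k : ℕ) :
    (∀ d ∈ D, E * d - E * d * E ∈ Jk ι C N k) ∧ ∀ d ∈ D, d * E - E * d * E ∈ Jk ι C N k := by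
  have hEC : E ∈ C := hDC hE
  have key : ∀ (k : ℕ) (T : A →ₗ[F] A), (∀ r, ∀ c ∈ C, T (ι r * c) = ι r * T c) →
      (∀ d ∈ D, T d ∈ Jk ι C N k) → ∀ w ∈ Jk ι C N 1, T (P w) ∈ Jk ι C N (k + 1) := by
    intro k T hT1 hT2 w hw
    induction hw using Submodule.span_induction with
    | mem w hw =>
      obtain ⟨r, hr, c, hc, rfl⟩ := hw
      rw [hP r c hc, hT1 r _ (hDC (hPC c hc))]
      have h1 := hT2 _ (hPC c hc)
      rw [pow_one] at hr
      have : ∀ x ∈ Jk ι C N k, ι r * x ∈ Jk ι C N (k + 1) := by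
        intro x hx
        induction hx using Submodule.span_induction with
        | mem x hx =>
          obtain ⟨r', hr', c', hc', rfl⟩ := hx
          rw [← mul_assoc, ← map_mul]
          refine mem_Jk ?_ hc'
          rw [pow_succ']
          exact Ideal.mul_mem_mul hr hr'
        | zero => rw [mul_zero]; exact Submodule.zero_mem _
        | add x y _ _ hx hy => rw [mul_add]; exact Submodule.add_mem _ hx hy
        | smul t x _ hx => rw [mul_smul_comm]; exact Submodule.smul_mem _ _ hx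
      exact this _ h1
    | zero => rw [map_zero, map_zero]; exact Submodule.zero_mem _
    | add x y _ _ hx hy => rw [map_add, map_add]; exact Submodule.add_mem _ hx hy
    | smul t x _ hx => rw [map_smul, map_smul]; exact Submodule.smul_mem _ _ hx
  induction k with
  | zero =>
    refine ⟨fun d hd => le_Jk0 ?_, fun d hd => le_Jk0 ?_⟩
    · exact C.sub_mem (hDC (hD _ hE _ hd)) (hDC (hD _ (hD _ hE _ hd) _ hE))
    · exact C.sub_mem (hDC (hD _ hd _ hE)) (hDC (hD _ (hD _ hE _ hd) _ hE))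
  | succ k ih =>
    constructor
    · intro d hd
      have hu : E * d - E * d * E ∈ D := D.sub_mem (hD _ hE _ hd) (hD _ (hD _ hE _ hd) _ hE)
      have hu1 : E * d - E * d * E ∈ Jk ι C N 1 := by
        have e : E * d - E * d * E = E * (E * d - d * E) := by
          rw [mul_sub, ← mul_assoc, hEE, mul_assoc]
        rw [e]
        exact C_mul_Jk hC hcomm hEC (hc d hd)
      let T : A →ₗ[F] A := LinearMap.mulLeft F E -
        (LinearMap.mulLeft F E).comp (LinearMap.mulRight F E)
      have hT : ∀ x, T x = E * x - E * x * E := by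
        intro x
        simp only [T, LinearMap.sub_apply, LinearMap.comp_apply, LinearMap.mulLeft_apply,
          LinearMap.mulRight_apply, mul_assoc]
      have h1 := key k T (by
        intro r c hc'
        rw [hT, hT, mul_sub, ← mul_assoc, ← hcomm r E hEC, mul_assoc, mul_assoc, mul_assoc])
        (by
          intro x hx
          rw [hT]
          exact ih.1 x hx) _ hu1
      rw [hPD _ hu, hT] at h1
      have e : E * (E * d - E * d * E) - E * (E * d - E * d * E) * E = E * d - E * d * E := by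
        have e1 : E * (E * d - E * d * E) = E * d - E * d * E := by
          rw [mul_sub, ← mul_assoc, ← mul_assoc, ← mul_assoc, hEE]
        rw [e1, sub_mul, mul_assoc (E * d) E E, hEE, sub_self, sub_zero]
      rwa [e] at h1
    · intro d hd
      have hu : d * E - E * d * E ∈ D := D.sub_mem (hD _ hd _ hE) (hD _ (hD _ hE _ hd) _ hE)
      have hu1 : d * E - E * d * E ∈ Jk ι C N 1 := by
        have e : d * E - E * d * E = -((E * d - d * E) * E) := by
          rw [sub_mul, mul_assoc d E E, hEE]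
          abel
        rw [e]
        exact Submodule.neg_mem _ (Jk_mul_C hC hcomm hEC (hc d hd))
      let T : A →ₗ[F] A := LinearMap.mulRight F E -
        (LinearMap.mulLeft F E).comp (LinearMap.mulRight F E)
      have hT : ∀ x, T x = x * E - E * x * E := by
        intro x
        simp only [T, LinearMap.sub_apply, LinearMap.comp_apply, LinearMap.mulLeft_apply,
          LinearMap.mulRight_apply, mul_assoc]
      have h1 := key k T (by
        intro r c hc'
        rw [hT, hT, mul_sub, ← mul_assoc, ← mul_assoc, ← hcomm r E hEC, mul_assoc (ι r), mul_assoc,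
          mul_assoc, mul_assoc])
        (by
          intro x hx
          rw [hT]
          exact ih.2 x hx) _ hu1
      rw [hPD _ hu, hT] at h1
      have e : (d * E - E * d * E) * E - E * (d * E - E * d * E) * E = d * E - E * d * E := by
        have e1 : (d * E - E * d * E) * E = d * E - E * d * E := by
          rw [sub_mul, mul_assoc d E E, mul_assoc (E * d) E E, hEE]
        have e2 : E * (d * E - E * d * E) * E = 0 := by
          rw [mul_assoc, e1, mul_sub, ← mul_assoc, ← mul_assoc, ← mul_assoc, hEE, sub_self]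
        rw [e1, e2, sub_zero]
      rwa [e] at h1

include hC hcomm in
/-- Commuting idempotents which are congruent modulo the nilpotent ideal are equal. -/
theorem idem_eq {ℓ : ℕ} [Fact ℓ.Prime] [CharP A ℓ] {k : ℕ} (hN : N ^ k = ⊥) {a b : A}
    (hab : Commute a b) (ha : a * a = a) (hb : b * b = b) (h : a - b ∈ Jk ι C N 1) : a = b := by
  have hpos : 0 < ℓ ^ k := pow_pos (Nat.Prime.pos Fact.out) k
  obtain ⟨n, hn⟩ : ∃ n, ℓ ^ k = n + 1 := ⟨ℓ ^ k - 1, by omega⟩
  have hkn : k ≤ n + 1 := by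
    rw [← hn]
    exact (Nat.lt_pow_self (Nat.Prime.one_lt Fact.out)).le
  have hNn : N ^ (n + 1) = ⊥ := by
    rw [eq_bot_iff, ← hN]
    exact Ideal.pow_le_pow_right hkn
  have h3 := Jk_pow hC hcomm h n
  rw [Jk_bot hNn, Submodule.mem_bot, ← hn, sub_pow_char_pow_of_commute (p := ℓ) k hab, sub_eq_zero,
    hn, IsIdempotentElem.pow_succ_eq n ha, IsIdempotentElem.pow_succ_eq n hb] at h3
  exact h3

include hC hcomm in
/-- The lifting. -/
theorem lift_abs {ℓ : ℕ} [Fact ℓ.Prime] [CharP A ℓ] {k : ℕ} (hN : N ^ k = ⊥)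
    {D : Submodule F A} (hDC : D ≤ C) (hD : ∀ a ∈ D, ∀ b ∈ D, a * b ∈ D)
    (P : A →ₗ[F] A) (hP : ∀ r, ∀ c ∈ C, P (ι r * c) = ι r * P c) (hPC : ∀ c ∈ C, P c ∈ D)
    (hPD : ∀ d ∈ D, P d = d) {s : A} (hs : s ∈ D) (h1 : s * s - s ∈ Jk ι C N 1)
    (h2 : ∀ d ∈ D, s * d - d * s ∈ Jk ι C N 1) :
    ∃ n : ℕ, s ^ (n + 1) * s ^ (n + 1) = s ^ (n + 1) ∧ s ^ (n + 1) ∈ D ∧
      s ^ (n + 1) - s ∈ Jk ι C N 1 ∧ ∀ d ∈ D, s ^ (n + 1) * d = d * s ^ (n + 1) := by
  have hpos : 0 < ℓ ^ k := pow_pos (Nat.Prime.pos Fact.out) k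
  obtain ⟨n, hn⟩ : ∃ n, ℓ ^ k = n + 1 := ⟨ℓ ^ k - 1, by omega⟩
  have hkn : k ≤ n + 1 := by
    rw [← hn]
    exact (Nat.lt_pow_self (Nat.Prime.one_lt Fact.out)).le
  have hNn : N ^ (n + 1) = ⊥ := by
    rw [eq_bot_iff, ← hN]
    exact Ideal.pow_le_pow_right hkn
  have hEE : s ^ (n + 1) * s ^ (n + 1) = s ^ (n + 1) := by
    have h3 := Jk_pow hC hcomm h1 n
    rw [Jk_bot hNn, Submodule.mem_bot, ← hn,
      sub_pow_char_pow_of_commute (p := ℓ) k ((Commute.refl s).mul_left (Commute.refl s)), sub_eq_zero,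
      (Commute.refl s).mul_pow, hn] at h3
    exact h3
  have hE := pow_mem hD hs n
  refine ⟨n, hEE, hE, pow_sub hC hcomm (hDC hs) h1 n, ?_⟩
  have h4 := cent_half hC hcomm hDC hD P hP hPC hPD hE hEE
    (fun d hd => comm_pow hC hcomm (hDC hs) (h2 d hd) (n + 1)) k
  intro d hd
  have h5 := h4.1 d hd
  have h6 := h4.2 d hd
  rw [Jk_bot hN, Submodule.mem_bot, sub_eq_zero] at h5 h6
  rw [h5, h6]

end abs

end Pool.Agent.PP.H76
end -- Pool.Agent.Helper76_PP.Abs

section -- Pool.Agent.Helper76_PP.Lft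

/-!
# Squad PP, part J: LFT, lifting of idempotents modulo `J₁ C`
-/

set_option linter.unusedSectionVars false

noncomputable section

namespace Pool.Agent.PP.H76

open Pool.Agent.PP Pool.Agent.PP.J74

variable {F X : Type} [Field F] [Group X] [Finite X] {Y : Subgroup X} {f : X → F}

/-- the cut to a subgroup -/
def cutL (F : Type) [Field F] (M : Subgroup X) : (X → F) →ₗ[F] (X → F) where
  toFun u := open Classical in fun h => if h ∈ M then u h else 0
  map_add' u v := by
    funext h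
    by_cases hh : h ∈ M <;> simp [hh]
  map_smul' c u := by
    funext h
    by_cases hh : h ∈ M <;> simp [hh]

theorem cutL_mem {M : Subgroup X} {h : X} (hh : h ∈ M) (u : X → F) : cutL F M u h = u h := by
  simp [cutL, hh]

theorem cutL_not {M : Subgroup X} {h : X} (hh : h ∉ M) (u : X → F) : cutL F M u h = 0 := by
  simp [cutL, hh]

theorem cutL_mul {M : Subgroup X} (hYM : Y ≤ M) {z : X → F} (hz : ∀ h, h ∉ Y → z h = 0)
    (c : X → F) : cutL F M (mulF z c) = mulF z (cutL F M c) := by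
  have := Fintype.ofFinite X
  funext x
  unfold mulF
  by_cases hx : x ∈ M
  · rw [cutL_mem hx, finsum_eq_sum_of_fintype, finsum_eq_sum_of_fintype]
    apply Finset.sum_congr rfl
    intro t _
    by_cases ht : t ∈ Y
    · rw [cutL_mem (M.mul_mem (M.inv_mem (hYM ht)) hx)]
    · rw [hz t ht, zero_mul, zero_mul]
  · rw [cutL_not hx, finsum_eq_sum_of_fintype]
    symm
    apply Finset.sum_eq_zero
    intro t _
    by_cases ht : t ∈ Y
    · rw [cutL_not (fun h => hx ?_), mul_zero]
      have := M.mul_mem (hYM ht) h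
      rwa [mul_inv_cancel_left] at this
    · rw [hz t ht, zero_mul]

theorem cutL_cc {M : Subgroup X} (hM : M.Normal) (hYM : Y ≤ M) (hf : SBlk Y f) {c : X → F}
    (hc : CC f Y c) : DE f Y M (cutL F M c) := by
  refine ⟨⟨?_, ?_⟩, fun h hh => cutL_not hh c⟩
  · intro n hn h
    by_cases hh : h ∈ M
    · rw [cutL_mem hh, cutL_mem (hM.conj_mem h hh n), hc.inv n hn]
    · rw [cutL_not hh, cutL_not]
      intro h'
      apply hh
      have := hM.conj_mem _ h' n⁻¹
      have e : n⁻¹ * (n * h * n⁻¹) * n⁻¹⁻¹ = h := by group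
      rwa [e] at this
  · rw [← cutL_mul hYM hf.supp, hc.abs]

theorem cutL_de {M : Subgroup X} {d : X → F} (hd : DE f Y M d) : cutL F M d = d := by
  funext h
  by_cases hh : h ∈ M
  · rw [cutL_mem hh]
  · rw [cutL_not hh, hd.supp h hh]

theorem DE.mul {M : Subgroup X} {a b : X → F} (ha : DE f Y M a) (hb : DE f Y M b) :
    DE f Y M (mulF a b) := by
  refine ⟨ha.cc.mul hb.cc, ?_⟩
  intro h hh
  apply mulF_supp (S := (M : Set X)) (T := (M : Set X)) ha.supp hb.supp
  rintro s hs t ht rfl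
  exact hh (M.mul_mem hs ht)

/-- `C` as a subspace of the group algebra -/
def CA (f : X → F) (Y : Subgroup X) : Submodule F (MonoidAlgebra F X) where
  carrier := {a | ∃ u, CC f Y u ∧ a = ma u}
  zero_mem' := ⟨0, ⟨fun _ _ _ => rfl, by
    apply ma_injective
    rw [ma_mul, ma_zero, mul_zero]⟩, ma_zero.symm⟩
  add_mem' := by
    rintro _ _ ⟨u, hu, rfl⟩ ⟨v, hv, rfl⟩
    refine ⟨u + v, ⟨fun n hn h => ?_, ?_⟩, (ma_add u v).symm⟩
    · rw [Pi.add_apply, Pi.add_apply, hu.inv n hn, hv.inv n hn]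
    · rw [mulF_add', hu.abs, hv.abs]
  smul_mem' := by
    rintro c _ ⟨u, hu, rfl⟩
    refine ⟨c • u, ⟨fun n hn h => ?_, ?_⟩, (ma_smul c u).symm⟩
    · rw [Pi.smul_apply, Pi.smul_apply, hu.inv n hn]
    · rw [mulF_smul', hu.abs]

theorem mem_CA {u : X → F} : ma u ∈ CA f Y ↔ CC f Y u := by
  constructor
  · rintro ⟨v, hv, h⟩
    rw [ma_injective h]
    exact hv
  · intro h
    exact ⟨u, h, rfl⟩

/-- `D` as a subspace of the group algebra -/
def DA (f : X → F) (Y M : Subgroup X) : Submodule F (MonoidAlgebra F X) where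
  carrier := {a | ∃ u, DE f Y M u ∧ a = ma u}
  zero_mem' := ⟨0, ⟨⟨fun _ _ _ => rfl, by
    apply ma_injective
    rw [ma_mul, ma_zero, mul_zero]⟩, fun _ _ => rfl⟩, ma_zero.symm⟩
  add_mem' := by
    rintro _ _ ⟨u, hu, rfl⟩ ⟨v, hv, rfl⟩
    refine ⟨u + v, ⟨mem_CA.1 ?_, fun h hh => ?_⟩, (ma_add u v).symm⟩
    · rw [ma_add]
      exact (CA f Y).add_mem (mem_CA.2 hu.cc) (mem_CA.2 hv.cc)
    · rw [Pi.add_apply, hu.supp h hh, hv.supp h hh, add_zero]
  smul_mem' := by
    rintro c _ ⟨u, hu, rfl⟩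
    refine ⟨c • u, ⟨mem_CA.1 ?_, fun h hh => ?_⟩, (ma_smul c u).symm⟩
    · rw [ma_smul]
      exact (CA f Y).smul_mem _ (mem_CA.2 hu.cc)
    · rw [Pi.smul_apply, hu.supp h hh, smul_zero]

theorem mem_DA {M : Subgroup X} {u : X → F} : ma u ∈ DA f Y M ↔ DE f Y M u := by
  constructor
  · rintro ⟨v, hv, h⟩
    rw [ma_injective h]
    exact hv
  · intro h
    exact ⟨u, h, rfl⟩

/-- the inclusion of `Z` in the group algebra -/
def iz (F : Type) [Field F] (Y : Subgroup X) : ZY F Y →+* MonoidAlgebra F X :=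
  (ZY F Y).subtype

theorem iz_apply (r : ZY F Y) : iz F Y r = (r : MonoidAlgebra F X) := rfl

/-- `J₁ C` in the group algebra -/
theorem mem_J1 (hf : SBlk Y f) {w : X → F} :
    w ∈ J1C f Y ↔ ma w ∈ Jk (iz F Y) (CA f Y) (nilradical (ZY F Y)) 1 := by
  constructor
  · intro h
    induction h using Submodule.span_induction with
    | mem w hw =>
      obtain ⟨z, c, hz, hn, hc, rfl⟩ := hw
      rw [ma_mul]
      have := mem_Jk (ι := iz F Y) (C := CA f Y) (N := nilradical (ZY F Y)) (k := 1)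
        (r := zy hz) (c := ma c) (by
          rw [pow_one, mem_nilradical, nil_zy]
          exact (nil_iff z).1 hn) (mem_CA.2 hc)
      exact this
    | zero => rw [ma_zero]; exact Submodule.zero_mem _
    | add x y _ _ hx hy => rw [ma_add]; exact Submodule.add_mem _ hx hy
    | smul t x _ hx => rw [ma_smul]; exact Submodule.smul_mem _ _ hx
  · intro h
    have key : ∀ a ∈ Jk (iz F Y) (CA f Y) (nilradical (ZY F Y)) 1,
        ∃ w ∈ J1C f Y, ma w = a := by
      intro a ha
      induction ha using Submodule.span_induction with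
      | mem a ha =>
        obtain ⟨⟨r, hr⟩, hrn, c, ⟨v, hv, rfl⟩, rfl⟩ := ha
        obtain ⟨u, rfl⟩ := ma_surjective r
        rw [pow_one, mem_nilradical, nil_zy] at hrn
        change IsNilpotent (ma u) at hrn
        have hu := (mem_ZY u).1 hr
        have hcomm : mulF u f = mulF f u := (f_comm hf u).symm
        have hz : CE f Y 1 (mulF u f) := by
          refine ⟨?_, inv_mulF hu.2 (f_CE hf).inv, ?_⟩
          · intro h hh
            apply mulF_suppY hu.1 hf.supp
            simpa using hh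
          · rw [← mulF_assoc, f_comm hf u, mulF_assoc, f_idem hf]
        refine ⟨mulF (mulF u f) v, Submodule.subset_span ⟨mulF u f, v, hz, ?_, hv, rfl⟩, ?_⟩
        · rw [nil_iff, ma_mul]
          have h1 : Commute (ma u) (ma f) := by
            change ma u * ma f = ma f * ma u
            rw [← ma_mul, ← ma_mul, hcomm]
          exact h1.isNilpotent_mul_right hrn
        · rw [mulF_assoc, hv.abs, ma_mul]
          rfl
      | zero => exact ⟨0, Submodule.zero_mem _, ma_zero⟩
      | add x y _ _ hx hy =>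
        obtain ⟨u, hu, rfl⟩ := hx
        obtain ⟨v, hv, rfl⟩ := hy
        exact ⟨u + v, Submodule.add_mem _ hu hv, ma_add u v⟩
      | smul t x _ hx =>
        obtain ⟨u, hu, rfl⟩ := hx
        exact ⟨t • u, Submodule.smul_mem _ _ hu, ma_smul t u⟩
    obtain ⟨w', hw', e⟩ := key _ h
    rw [← ma_injective e]
    exact hw'

theorem cjF_mul (x : X) (a b : X → F) : cjF x (mulF a b) = mulF (cjF x a) (cjF x b) := by
  apply ma_injective
  rw [ma_cjF, ma_mul, ma_mul, ma_cjF, ma_cjF]
  have := single_inv' (F := F) x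
  calc MonoidAlgebra.single x (1 : F) * (ma a * ma b) * MonoidAlgebra.single x⁻¹ 1
      = MonoidAlgebra.single x (1 : F) * ma a *
        (MonoidAlgebra.single x⁻¹ (1 : F) * MonoidAlgebra.single x 1) * ma b *
          MonoidAlgebra.single x⁻¹ 1 := by
        rw [this, mul_one]
        simp only [mul_assoc]
    _ = _ := by simp only [mul_assoc]

theorem cjF_add (x : X) (a b : X → F) : cjF x (a + b) = cjF x a + cjF x b := rfl

theorem cjF_sub (x : X) (a b : X → F) : cjF x (a - b) = cjF x a - cjF x b := rfl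

theorem cjF_smul (x : X) (c : F) (a : X → F) : cjF x (c • a) = c • cjF x a := rfl

theorem cjF_f (hf : SBlk Y f) (x : X) : cjF x f = f := by
  funext h
  change f (x⁻¹ * h * x) = f h
  have := hf.cl h x⁻¹
  rwa [inv_inv] at this

theorem cjF_cc (hY : Y.Normal) (hf : SBlk Y f) (x : X) {c : X → F} (hc : CC f Y c) :
    CC f Y (cjF x c) := by
  refine ⟨?_, ?_⟩
  · intro n hn h
    have h1 : x⁻¹ * n * x⁻¹⁻¹ ∈ Y := hY.conj_mem _ hn x⁻¹
    rw [inv_inv] at h1
    have h2 := hc.inv _ h1 (x⁻¹ * h * x)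
    change c (x⁻¹ * (n * h * n⁻¹) * x) = c (x⁻¹ * h * x)
    rw [← h2]
    congr 1
    group
  · have := cjF_mul x f c
    rw [hc.abs, cjF_f hf] at this
    exact this.symm

theorem cjF_J1 (hY : Y.Normal) (hf : SBlk Y f) (x : X) {w : X → F} (hw : w ∈ J1C f Y) :
    cjF x w ∈ J1C f Y := by
  induction hw using Submodule.span_induction with
  | mem w hw =>
    obtain ⟨z, c, hz, hn, hc, rfl⟩ := hw
    rw [cjF_mul]
    refine Submodule.subset_span ⟨cjF x z, cjF x c, ?_, ?_, cjF_cc hY hf x hc, rfl⟩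
    · have := CE.cjF hY hf hz x
      rwa [mul_one, mul_inv_cancel] at this
    · obtain ⟨n, hn⟩ := hn
      refine ⟨n, ?_⟩
      have h1 : ∀ n, (mulF (cjF x z))^[n] (cjF x z) = cjF x ((mulF z)^[n] z) := by
        intro n
        induction n with
        | zero => rfl
        | succ n ih => rw [Function.iterate_succ_apply', Function.iterate_succ_apply', ih, cjF_mul]
      rw [h1, hn]
      rfl
  | zero => exact Submodule.zero_mem _
  | add x y _ _ hx hy => rw [cjF_add]; exact Submodule.add_mem _ hx hy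
  | smul t x _ hx => rw [cjF_smul]; exact Submodule.smul_mem _ _ hx

/-- `LFT`. -/
theorem lft : LftStmt := by
  intro ℓ F _ hF X _ _ Y hY f hf M hM hYM _ s hs h1 h2 h3
  have hp : Fact ℓ.Prime := ⟨hF.prime⟩
  have hch : CharP F ℓ := hF.char
  have hchA : CharP (MonoidAlgebra F X) ℓ :=
    charP_of_injective_algebraMap (algebraMap F (MonoidAlgebra F X)).injective ℓ
  have : FiniteDimensional F (MonoidAlgebra F X) := Module.Finite.equiv maL
  have : FiniteDimensional F (ZY F Y) := FiniteDimensional.finiteDimensional_subalgebra _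
  have : IsArtinianRing (ZY F Y) := IsArtinianRing.of_finite F _
  obtain ⟨k, hk⟩ := IsArtinianRing.isNilpotent_nilradical (R := ZY F Y)
  rw [Ideal.zero_eq_bot] at hk
  have hC : ∀ a ∈ CA f Y, ∀ b ∈ CA f Y, a * b ∈ CA f Y := by
    rintro _ ⟨u, hu, rfl⟩ _ ⟨v, hv, rfl⟩
    exact ⟨mulF u v, hu.mul hv, (ma_mul u v).symm⟩
  have hcomm : ∀ r, ∀ c ∈ CA f Y, iz F Y r * c = c * iz F Y r := by
    rintro ⟨r, hr⟩ _ ⟨v, hv, rfl⟩
    obtain ⟨u, rfl⟩ := ma_surjective r
    have hu := (mem_ZY u).1 hr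
    change ma u * ma v = ma v * ma u
    rw [← ma_mul, ← ma_mul, comm_of_supp hu.1 hv.inv]
  have hDC : DA f Y M ≤ CA f Y := by
    rintro _ ⟨u, hu, rfl⟩
    exact ⟨u, hu.cc, rfl⟩
  have hD : ∀ a ∈ DA f Y M, ∀ b ∈ DA f Y M, a * b ∈ DA f Y M := by
    rintro _ ⟨u, hu, rfl⟩ _ ⟨v, hv, rfl⟩
    exact ⟨mulF u v, DE.mul hu hv, (ma_mul u v).symm⟩
  let P : MonoidAlgebra F X →ₗ[F] MonoidAlgebra F X :=
    (maL.toLinearMap.comp (cutL F M)).comp maL.symm.toLinearMap
  have hPma : ∀ u : X → F, P (ma u) = ma (cutL F M u) := fun u => rfl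
  obtain ⟨n, e1, e2, e3, e4⟩ := lift_abs (ℓ := ℓ) hC hcomm hk hDC hD P (by
      rintro ⟨r, hr⟩ _ ⟨v, hv, rfl⟩
      obtain ⟨u, rfl⟩ := ma_surjective r
      have hu := (mem_ZY u).1 hr
      change P (ma u * ma v) = ma u * P (ma v)
      rw [← ma_mul, hPma, hPma, cutL_mul hYM hu.1, ma_mul]) (by
      rintro _ ⟨v, hv, rfl⟩
      rw [hPma]
      exact ⟨_, cutL_cc hM hYM hf hv, rfl⟩) (by
      rintro _ ⟨v, hv, rfl⟩
      rw [hPma, cutL_de hv]) (s := ma s) (mem_DA.2 hs) (by
      rw [← ma_mul, ← ma_sub]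
      exact (mem_J1 hf).1 h1) (by
      rintro _ ⟨v, hv, rfl⟩
      rw [← ma_mul, ← ma_mul, ← ma_sub]
      exact (mem_J1 hf).1 (h2 v hv))
  obtain ⟨E, hE, hEe⟩ := e2
  rw [hEe] at e1 e3 e4
  have hEE : mulF E E = E := by
    apply ma_injective
    rw [ma_mul, e1]
  have hEJ : E - s ∈ J1C f Y := by
    rw [mem_J1 hf, ma_sub]
    exact e3
  have hcj : ∀ x, cjF x E = E := by
    intro x
    apply ma_injective
    have hE' : DE f Y M (cjF x E) := by
      refine ⟨cjF_cc hY hf x hE.cc, fun h hh => hE.supp _ fun h' => hh ?_⟩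
      have := hM.conj_mem _ h' x
      have e : x * (x⁻¹ * h * x) * x⁻¹ = h := by group
      rwa [e] at this
    refine idem_eq (ℓ := ℓ) hC hcomm hk ?_ ?_ e1 ?_
    · exact (e4 _ (mem_DA.2 hE')).symm
    · rw [← ma_mul, ← cjF_mul, hEE]
    · rw [← ma_sub, ← mem_J1 hf]
      have e : cjF x E - E = cjF x (E - s) + (cjF x s - s) - (E - s) := by
        rw [cjF_sub]
        abel
      rw [e]
      exact Submodule.sub_mem _ (Submodule.add_mem _ (cjF_J1 hY hf x hEJ) (h3 x)) hEJ
  refine ⟨E, ⟨?_, hEE⟩, hE.supp, ?_, hEJ⟩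
  · intro h x
    have := congrFun (hcj x⁻¹) h
    change E (x⁻¹⁻¹ * h * x⁻¹) = E h at this
    rwa [inv_inv] at this
  · rw [← f_comm hf, hE.cc.abs]

end Pool.Agent.PP.H76
end
end -- Pool.Agent.Helper76_PP.Lft
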