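import Pool.Agent.Helper12_AWB.B080
import Pool.Agent.Helper12_AWB.B082
import Pool.Agent.Helper12_AWB.B083
import Pool.Agent.Helper12_AWB.B086
import Pool.Agent.Helper12_AWB.B090

/-!
# Merged copies (generated) of the modules

* `Pool.Agent.Helper31_PP.Shs`
* `Pool.Agent.Helper83_PP.Bxh`
* `Pool.Agent.Helper90_PP.The`
* `Pool.Agent.Helper18_PP.CydF`
* `Pool.Agent.Helper31_PP.Prd`
-/

set_option autoImplicit false

section -- Pool.Agent.Helper31_PP.Shs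

/-!
# Squad PP, module SHS: summation over the second variable
-/

open scoped BigOperators

noncomputable section

namespace Pool.Agent.PP.H31

open Pool.Agent.Helper51_AWC Pool.Agent.Helper79_WRA Pool.Agent.PP

/-- SHS -/
theorem shs : ShsStmt := by
  classical
  intro K _ _ p β₀ α β hβ G hG
  have := Fintype.ofFinite K
  simp only [finsum_eq_sum_of_fintype]
  rw [Finset.sum_comm]
  conv_rhs => rw [Finset.sum_comm]
  have hS : ∀ h m : Fin (p + 1) → K,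
      ∑ n, G n (β⁻¹ h * m * h⁻¹) = ∑ n, G n m := by
    intro h m
    rw [← Equiv.sum_comp ((Equiv.mulLeft (α⁻¹ h)).trans (Equiv.mulRight h⁻¹))]
    exact Finset.sum_congr rfl fun n _ => hG h n m
  have hsh : ∀ (h : Fin (p + 1) → K) (j : Fin p), (β⁻¹ h) j.castSucc = h j.succ := by
    intro h j
    rw [← (hβ (β⁻¹ h)).2 j]
    rw [MulAut.apply_inv_self]
  let Φ : (Fin p → K) × K → (Fin (p + 1) → K) := fun q =>
    β⁻¹ (Fin.cons 1 q.1 : Fin (p + 1) → K) * Pi.mulSingle (Fin.last p) q.2 *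
      (Fin.cons 1 q.1 : Fin (p + 1) → K)⁻¹
  have hinj : Function.Injective Φ := by
    rintro ⟨g, μ⟩ ⟨g', μ'⟩ h
    have key : ∀ j : Fin (p + 1), (Fin.cons 1 g : Fin (p + 1) → K) j =
        (Fin.cons 1 g' : Fin (p + 1) → K) j := by
      intro j
      induction j using Fin.induction with
      | zero => rfl
      | succ j ih =>
        have h1 := congrFun h j.castSucc
        simp only [Φ, Pi.mul_apply, Pi.inv_apply] at h1
        rw [hsh, hsh, Pi.mulSingle_eq_of_ne (Fin.castSucc_lt_last j).ne,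
          Pi.mulSingle_eq_of_ne (Fin.castSucc_lt_last j).ne, ih] at h1
        simpa using h1
    have hc : (Fin.cons 1 g : Fin (p + 1) → K) = Fin.cons 1 g' := funext key
    have hg : g = g' := by
      have := congrArg Fin.tail hc
      simpa using this
    subst hg
    have h1 := congrFun h (Fin.last p)
    simp only [Φ, Pi.mul_apply, Pi.inv_apply, Pi.mulSingle_eq_same] at h1
    have h2 : μ = μ' := by
      have h3 := mul_right_cancel h1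
      exact mul_left_cancel h3
    rw [h2]
  have hbij : Function.Bijective Φ := by
    rw [Fintype.bijective_iff_injective_and_card]
    refine ⟨hinj, ?_⟩
    simp [pow_succ]
  rw [← (Equiv.ofBijective Φ hbij).sum_comp]
  have h1 : ∀ q : (Fin p → K) × K, ∑ n, G n ((Equiv.ofBijective Φ hbij) q) =
      ∑ n, G n (Pi.mulSingle (Fin.last p) q.2) := fun q => hS _ _
  rw [Finset.sum_congr rfl fun q _ => h1 q, Fintype.sum_prod_type]
  simp only [Finset.sum_const, Finset.card_univ, nsmul_eq_mul]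
  congr 1
  simp

end Pool.Agent.PP.H31
end
end -- Pool.Agent.Helper31_PP.Shs

section -- Pool.Agent.Helper83_PP.Bxh

/-!
# Squad PP: module BXH, the box closure
-/

noncomputable section

namespace Pool.Agent.PP

namespace H83

variable {K : Type} [Group K] {p : ℕ}

theorem mem_boxS {D : Subgroup (Fin (p + 1) → K)} {k : Fin (p + 1) → K} :
    k ∈ boxS D ↔ ∀ j, ∃ d ∈ D, d j = k j := by
  unfold boxS
  rw [Subgroup.mem_pi]
  constructor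
  · intro h j
    obtain ⟨d, hd, hdk⟩ := h j (Set.mem_univ j)
    exact ⟨d, hd, hdk⟩
  · intro h j _
    obtain ⟨d, hd, hdk⟩ := h j
    exact ⟨d, hd, hdk⟩

theorem le_boxS (D : Subgroup (Fin (p + 1) → K)) : D ≤ boxS D :=
  fun k hk => mem_boxS.2 fun _ => ⟨k, hk, rfl⟩

theorem boxS_map (σ : Fin (p + 1) → Fin (p + 1)) (hσ : Function.Surjective σ)
    (ψ : Fin (p + 1) → MulAut K) (φ : MulAut (Fin (p + 1) → K))
    (hφ : ∀ k j, (φ k) j = ψ j (k (σ j))) (D : Subgroup (Fin (p + 1) → K)) :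
    boxS (D.map φ.toMonoidHom) = (boxS D).map φ.toMonoidHom := by
  ext k
  obtain ⟨k', rfl⟩ := φ.surjective k
  have h1 : φ k' ∈ (boxS D).map φ.toMonoidHom ↔ k' ∈ boxS D := by
    constructor
    · rintro ⟨x, hx, hxk⟩
      have : x = k' := φ.injective hxk
      exact this ▸ hx
    · intro h
      exact ⟨k', h, rfl⟩
  rw [h1, mem_boxS, mem_boxS]
  constructor
  · intro h i
    obtain ⟨j, rfl⟩ := hσ i
    obtain ⟨d, ⟨d', hd', rfl⟩, hdk⟩ := h j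
    refine ⟨d', hd', ?_⟩
    have h2 : (φ d') j = (φ k') j := hdk
    rw [hφ, hφ] at h2
    exact (ψ j).injective h2
  · intro h j
    obtain ⟨d, hd, hdk⟩ := h (σ j)
    refine ⟨φ d, ⟨d, hd, rfl⟩, ?_⟩
    rw [hφ, hφ, hdk]

end H83

open H83

theorem bxh : BxhStmt := by
  intro ℓ K _ _ p αs β₀ α β hα hβ
  refine ⟨?_, le_boxS, ?_, ?_, ?_, ?_, ?_, ?_, ?_⟩
  · intro D hD
    rintro ⟨k, hk⟩
    have h1 := mem_boxS.1 hk
    have h2 : ∀ j, ∃ n : ℕ, (k j) ^ ℓ ^ n = 1 := by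
      intro j
      obtain ⟨d, hd, hdk⟩ := h1 j
      obtain ⟨n, hn⟩ := hD ⟨d, hd⟩
      have h3 : d ^ ℓ ^ n = 1 := congrArg Subtype.val hn
      exact ⟨n, by rw [← hdk, ← Pi.pow_apply, h3]; rfl⟩
    choose n hn using h2
    refine ⟨Finset.univ.sup n, Subtype.ext ?_⟩
    change k ^ ℓ ^ (Finset.univ.sup n) = 1
    funext j
    have h4 : n j ≤ Finset.univ.sup n := Finset.le_sup (Finset.mem_univ j)
    obtain ⟨m, hm⟩ := Nat.exists_eq_add_of_le h4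
    rw [Pi.pow_apply, hm, pow_add, pow_mul, hn, one_pow]
    rfl
  · intro D E h k hk
    rw [mem_boxS] at hk ⊢
    intro j
    obtain ⟨d, hd, hdk⟩ := hk j
    exact ⟨d, h hd, hdk⟩
  · intro D
    apply le_antisymm _ (le_boxS _)
    intro k hk
    rw [mem_boxS] at hk ⊢
    intro j
    obtain ⟨d, hd, hdk⟩ := hk j
    obtain ⟨d', hd', hdk'⟩ := mem_boxS.1 hd j
    exact ⟨d', hd', hdk'.trans hdk⟩
  · ext k
    rw [mem_boxS, Subgroup.mem_bot]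
    constructor
    · intro h
      funext j
      obtain ⟨d, hd, hdk⟩ := h j
      rw [Subgroup.mem_bot] at hd
      rw [← hdk, hd]
    · intro h j
      exact ⟨1, Subgroup.one_mem _, by rw [h]⟩
  · intro n D
    exact boxS_map id Function.surjective_id (fun j => MulAut.conj (n j)) (MulAut.conj n)
      (fun k j => rfl) D
  · intro D
    exact boxS_map id Function.surjective_id αs α hα D
  · intro D
    refine boxS_map (Fin.cons (Fin.last p) fun j : Fin p => j.castSucc) ?_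
      (Fin.cons β₀ fun _ : Fin p => 1) β ?_ D
    · intro i
      induction i using Fin.lastCases with
      | last => exact ⟨0, rfl⟩
      | cast j => exact ⟨j.succ, by simp⟩
    · intro k j
      induction j using Fin.cases with
      | zero => simpa using (hβ k).1
      | succ j => simpa using (hβ k).2 j
  · intro s hs D hD hsD
    apply le_antisymm _ (le_boxS _)
    intro k hk
    have h1 := mem_boxS.1 hk
    refine Subgroup.mem_inf.2 ⟨?_, ?_⟩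
    · rw [← hD, mem_boxS]
      intro j
      obtain ⟨d, hd, hdk⟩ := h1 j
      exact ⟨d, (Subgroup.mem_inf.1 hd).1, hdk⟩
    · simp only [Subgroup.mem_iInf]
      intro E hE
      have h2 : ∀ j, ∃ x ∈ Subgroup.normalizer (E : Set (Fin (p + 1) → K)), x j = k j := by
        intro j
        obtain ⟨d, hd, hdk⟩ := h1 j
        have h3 := (Subgroup.mem_inf.1 hd).2
        simp only [Subgroup.mem_iInf] at h3
        exact ⟨d, h3 E hE, hdk⟩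
      rw [Subgroup.mem_normalizer_iff]
      intro h
      constructor
      · intro hh
        change k * h * k⁻¹ ∈ E
        rw [← hs E hE, mem_boxS]
        intro j
        obtain ⟨x, hx, hxk⟩ := h2 j
        rw [Subgroup.mem_normalizer_iff] at hx
        exact ⟨x * h * x⁻¹, (hx h).1 hh, by
          simp only [Pi.mul_apply, Pi.inv_apply, hxk]⟩
      · intro hh
        rw [← hs E hE, mem_boxS]
        intro j
        obtain ⟨x, hx, hxk⟩ := h2 j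
        rw [Subgroup.mem_normalizer_iff] at hx
        refine ⟨x⁻¹ * (k * h * k⁻¹) * x, (hx _).2 ?_, ?_⟩
        · have h3 : x * (x⁻¹ * (k * h * k⁻¹) * x) * x⁻¹ = k * h * k⁻¹ := by group
          rw [h3]
          exact hh
        · simp only [Pi.mul_apply, Pi.inv_apply, hxk]
          group

end Pool.Agent.PP
end
end -- Pool.Agent.Helper83_PP.Bxh

section -- Pool.Agent.Helper90_PP.The

/-!
# Squad PP, module THE: multiplicativity of the evaluation for normal chains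
-/

open scoped BigOperators

noncomputable section

namespace Pool.Agent.PP.H90

open Pool.Agent.Helper51_AWC Pool.Agent.Helper79_WRA

variable {F Y : Type} [Field F] [Group Y]

/-- a representation of the subgroup `T` extended by zero -/
def ext {T : Subgroup Y} {n : ℕ} (ρ : T →* Matrix (Fin n) (Fin n) F) (y : Y) :
    Matrix (Fin n) (Fin n) F :=
  open Classical in if h : y ∈ T then ρ ⟨y, h⟩ else 0

theorem ext_coe {T : Subgroup Y} {n : ℕ} (ρ : T →* Matrix (Fin n) (Fin n) F) (t : T) :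
    ext ρ (t : Y) = ρ t := by
  classical
  simp [ext, t.2]

theorem ext_not {T : Subgroup Y} {n : ℕ} (ρ : T →* Matrix (Fin n) (Fin n) F) (y : Y)
    (h : y ∉ T) : ext ρ y = 0 := by
  classical
  simp [ext, h]

theorem ext_mul {T : Subgroup Y} {n : ℕ} (ρ : T →* Matrix (Fin n) (Fin n) F) (a b : Y)
    (ha : a ∈ T) (hb : b ∈ T) (hρa : ρ ⟨a, ha⟩ = 1) (hρb : ρ ⟨b, hb⟩ = 1) (y : Y) :
    ext ρ (a * y * b) = ext ρ y := by
  by_cases hy : y ∈ T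
  · have h1 : a * y * b = ((⟨a, ha⟩ * ⟨y, hy⟩ * ⟨b, hb⟩ : T) : Y) := rfl
    have h2 : ext ρ y = ρ ⟨y, hy⟩ := ext_coe ρ ⟨y, hy⟩
    rw [h1, ext_coe, h2, map_mul, map_mul, hρa, hρb, one_mul, mul_one]
  · have h1 : a * y * b ∉ T := by
      intro h
      apply hy
      have h2 := T.mul_mem (T.mul_mem (T.inv_mem ha) h) (T.inv_mem hb)
      have h3 : a⁻¹ * (a * y * b) * b⁻¹ = y := by group
      rwa [h3] at h2
    rw [ext_not ρ _ h1, ext_not ρ _ hy]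

theorem sum_coe {T : Subgroup Y} [Fintype Y] [Fintype T] {V : Type} [AddCommMonoid V]
    (f : Y → V) (hf : ∀ y, y ∉ T → f y = 0) : ∑ t : T, f t = ∑ y, f y := by
  classical
  have h1 := Finset.sum_subtype (Finset.univ.filter (fun y => y ∈ T)) (p := fun y => y ∈ T)
    (F := (inferInstance : Fintype T)) (by simp) f
  have h2 : ∑ y ∈ Finset.univ.filter (fun y => y ∈ T), f y = ∑ y, f y := by
    apply Finset.sum_subset (Finset.filter_subset _ _)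
    intro y _ hy
    apply hf
    intro hy'
    exact hy (by simp [hy'])
  rw [← h2, h1]

/-- Pairs of elements. -/
structure PY (Y : Type) where
  /-- first member -/
  a : Y
  /-- second member -/
  b : Y

/-- Pairs of elements. -/
def PY.equiv (Y : Type) : PY Y ≃ Y × Y where
  toFun p := (p.a, p.b)
  invFun p := ⟨p.1, p.2⟩
  left_inv _ := rfl
  right_inv _ := rfl

instance [Finite Y] : Finite (PY Y) := Finite.of_equiv _ (PY.equiv Y).symm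

/-- The action of `R` on pairs. -/
@[instance_reducible] def act (R : Subgroup Y) (α β : MulAut Y) : MulAction R (PY Y) where
  smul r p := ⟨α (β r) * p.a * (β r)⁻¹, β r * p.b * (r : Y)⁻¹⟩
  one_smul := by
    rintro ⟨g, h⟩
    change PY.mk (α (β ((1 : R) : Y)) * g * (β ((1 : R) : Y))⁻¹)
      (β ((1 : R) : Y) * h * ((1 : R) : Y)⁻¹) = _
    simp
  mul_smul := by
    rintro r s ⟨g, h⟩
    change PY.mk (α (β ((r * s : R) : Y)) * g * (β ((r * s : R) : Y))⁻¹)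
      (β ((r * s : R) : Y) * h * ((r * s : R) : Y)⁻¹) =
      PY.mk (α (β r) * (α (β s) * g * (β s)⁻¹) * (β r)⁻¹) (β r * (β s * h * (s : Y)⁻¹) * (r : Y)⁻¹)
    simp only [Subgroup.coe_mul, map_mul, mul_inv_rev, mul_assoc]

omit [Group Y] in
theorem finsum_py [Finite Y] {V : Type} [AddCommMonoid V] (f : Y → Y → V) :
    ∑ᶠ p : PY Y, f p.a p.b = ∑ᶠ p : Y × Y, f p.1 p.2 :=
  finsum_eq_of_bijective (PY.equiv Y) (PY.equiv Y).bijective fun _ => rfl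

theorem key (nls : NlsStmt) (orb : OrbStmt) (ℓ : ℕ) (hF : GoodF ℓ F) [Finite Y]
    (T R : Subgroup Y) (hRT : R ≤ T) (hTR : T ≤ Subgroup.normalizer (R : Set Y))
    (hR : IsPGroup ℓ R) (α β : MulAut Y) (hαR : ∀ r ∈ R, α r ∈ R) (hβR : ∀ r ∈ R, β r ∈ R)
    (hβR' : ∀ r ∈ R, ∃ s ∈ R, β s = r)
    (hα : ∀ h, (∀ r ∈ R, h * r * h⁻¹ = α r) → h ∈ T)
    (hβ : ∀ h, (∀ r ∈ R, h * r * h⁻¹ = β r) → h ∈ T)
    (u v : Y → F) (hu : ∀ n y, u (α n * y * n⁻¹) = u y) (hv : ∀ n y, v (β n * y * n⁻¹) = v y)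
    (n : ℕ) (ρ : T →* Matrix (Fin n) (Fin n) F) (hρ : IsIrr ρ) :
    ev ρ (fun t : T => u t) * ev ρ (fun t : T => v t) = ev ρ (fun t : T => mulF u v t) := by
  classical
  have := Fintype.ofFinite Y
  have : Fintype T := Fintype.ofFinite T
  -- `R` acts trivially
  have hN : (R.subgroupOf T).Normal := by
    refine ⟨fun a ha g => ?_⟩
    rw [Subgroup.mem_subgroupOf] at ha ⊢
    have h1 := hTR g.2
    rw [Subgroup.mem_normalizer_iff] at h1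
    exact (h1 a).1 ha
  have hPg : IsPGroup ℓ (R.subgroupOf T) := hR.comap_of_injective T.subtype T.subtype_injective
  have htriv : ∀ a (ha : a ∈ R), ρ ⟨a, hRT ha⟩ = 1 := fun a ha =>
    (nls ℓ F hF T (R.subgroupOf T) hN hPg n ρ hρ).1 ⟨a, hRT ha⟩ ha
  -- the two functions on pairs
  let Φ : Y → Y → Matrix (Fin n) (Fin n) F := fun g h => (u g * v h) • ext ρ (g * h)
  let Φ₂ : Y → Y → Matrix (Fin n) (Fin n) F := fun g h => if g ∈ T ∧ h ∈ T then Φ g h else 0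
  have e1 : ev ρ (fun t : T => mulF u v t) = ∑ᶠ p : PY Y, Φ p.a p.b := by
    rw [finsum_py Φ, finsum_eq_sum_of_fintype, Fintype.sum_prod_type]
    unfold ev
    rw [finsum_eq_sum_of_fintype]
    have h1 : ∑ t : T, mulF u v t • ρ t = ∑ y, mulF u v y • ext ρ y := by
      rw [← sum_coe (T := T) (fun y => mulF u v y • ext ρ y)
        (fun y hy => by rw [ext_not ρ y hy, smul_zero])]
      exact Finset.sum_congr rfl fun t _ => by rw [ext_coe]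
    rw [h1]
    have h2 : ∀ y, mulF u v y • ext ρ y = ∑ g, (u g * v (g⁻¹ * y)) • ext ρ y := by
      intro y
      unfold mulF
      rw [finsum_eq_sum_of_fintype, Finset.sum_smul]
    rw [Finset.sum_congr rfl fun y _ => h2 y, Finset.sum_comm]
    refine Finset.sum_congr rfl fun g _ => ?_
    refine Fintype.sum_equiv (Equiv.mulLeft g⁻¹) _ _ fun y => ?_
    simp only [Φ, Equiv.coe_mulLeft, mul_inv_cancel_left]
  have e2 : ev ρ (fun t : T => u t) * ev ρ (fun t : T => v t) = ∑ᶠ p : PY Y, Φ₂ p.a p.b := by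
    rw [finsum_py Φ₂, finsum_eq_sum_of_fintype, Fintype.sum_prod_type]
    unfold ev
    rw [finsum_eq_sum_of_fintype, finsum_eq_sum_of_fintype, Finset.sum_mul]
    rw [← sum_coe (T := T) (fun g => ∑ h, Φ₂ g h) (fun g hg => by simp [Φ₂, hg])]
    refine Finset.sum_congr rfl fun g _ => ?_
    rw [Finset.mul_sum]
    rw [← sum_coe (T := T) (fun h => Φ₂ g h) (fun h hh => by simp [Φ₂, hh])]
    refine Finset.sum_congr rfl fun h _ => ?_
    have h3 : ext ρ ((g : Y) * h) = ρ (g * h) := ext_coe ρ (g * h)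
    simp only [Φ₂, Φ, g.2, h.2, and_self, if_true, h3, map_mul, smul_mul_smul_comm]
  let := act R α β
  have i1 : ∀ (r : R) (p : PY Y), Φ (r • p).a (r • p).b = Φ p.a p.b := by
    rintro r ⟨g, h⟩
    change (u (α (β r) * g * (β r)⁻¹) * v (β r * h * (r : Y)⁻¹)) •
      ext ρ (α (β r) * g * (β r)⁻¹ * (β r * h * (r : Y)⁻¹)) = (u g * v h) • ext ρ (g * h)
    rw [hu, hv]
    have h4 : α (β r) * g * (β r)⁻¹ * (β r * h * (r : Y)⁻¹) = α (β r) * (g * h) * (r : Y)⁻¹ := by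
      group
    have m1 : α (β r) ∈ R := hαR _ (hβR _ r.2)
    have m2 : (r : Y)⁻¹ ∈ R := R.inv_mem r.2
    rw [h4, ext_mul ρ _ _ (hRT m1) (hRT m2) (htriv _ m1) (htriv _ m2)]
  have i2 : ∀ (r : R) (p : PY Y), Φ₂ (r • p).a (r • p).b = Φ₂ p.a p.b := by
    rintro r ⟨g, h⟩
    have m1 : α (β r) ∈ T := hRT (hαR _ (hβR _ r.2))
    have m2 : (r : Y) ∈ T := hRT r.2
    have m3 : β r ∈ T := hRT (hβR _ r.2)
    have hh : (r • PY.mk g h).a ∈ T ∧ (r • PY.mk g h).b ∈ T ↔ g ∈ T ∧ h ∈ T := by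
      change α (β r) * g * (β r)⁻¹ ∈ T ∧ β r * h * (r : Y)⁻¹ ∈ T ↔ _
      rw [Subgroup.mul_mem_cancel_right T (T.inv_mem m3), Subgroup.mul_mem_cancel_left T m1,
        Subgroup.mul_mem_cancel_right T (T.inv_mem m2), Subgroup.mul_mem_cancel_left T m3]
    simp only [Φ₂]
    rw [i1]
    simp only [hh]
  rw [e1, e2, orb ℓ F _ R (PY Y) hF.prime hF.char hR (fun p => Φ p.a p.b) i1,
    orb ℓ F _ R (PY Y) hF.prime hF.char hR (fun p => Φ₂ p.a p.b) i2]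
  refine finsum_congr fun p => finsum_congr fun hp => ?_
  obtain ⟨g, h⟩ := p
  rw [MulAction.mem_fixedPoints] at hp
  have hp1 : ∀ r : R, α (β r) * g * (β r)⁻¹ = g := fun r => congrArg PY.a (hp r)
  have hp2 : ∀ r : R, β r * h * (r : Y)⁻¹ = h := fun r => congrArg PY.b (hp r)
  have mh : h ∈ T := by
    apply hβ
    intro r hr
    have h5 := hp2 ⟨r, hr⟩
    simp only at h5
    calc h * r * h⁻¹ = (β r * h * r⁻¹) * r * h⁻¹ := by rw [h5]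
      _ = β r := by group
  have mg : g ∈ T := by
    apply hα
    intro s hs
    obtain ⟨r, hr, rfl⟩ := hβR' s hs
    have h5 := hp1 ⟨r, hr⟩
    simp only at h5
    calc g * β r * g⁻¹ = (α (β r) * g * (β r)⁻¹) * β r * g⁻¹ := by rw [h5]
      _ = α (β r) := by group
  simp only [Φ₂, mg, mh, and_self, if_true]

theorem the (nls : NlsStmt) (orb : OrbStmt) : TheStmt := by
  intro ℓ F _ hF Y _ _ d hd hnc n ρ hρ γ₁ γ₂ hγ₁ hγ₂ w₁ w₂ hw₁ hw₂ A₂ hA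
  classical
  have := Fintype.ofFinite Y
  have : Fintype (stab d) := Fintype.ofFinite (stab d)
  obtain ⟨hsub, hbot, hch⟩ := mem_chainsOn.1 hd
  obtain ⟨R, hRd, hRmax⟩ := exists_greatest hch ⟨_, hbot⟩
  have htop : top d = R := le_antisymm (sSup_le fun D hD => hRmax D hD) (le_sSup hRd)
  have hRp : IsPGroup ℓ R := by
    have := hsub hRd
    simp only [psubIn, Set.Finite.mem_toFinset] at this
    exact this.2
  have hRT : R ≤ stab d := by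
    unfold stab
    refine le_iInf fun D => le_iInf fun hD => ?_
    rw [← htop]
    exact hnc D hD
  have hTn : ∀ D ∈ d, stab d ≤ Subgroup.normalizer (D : Set Y) := fun D hD =>
    iInf_le_of_le D (iInf_le _ hD)
  -- automorphisms fixing the chain
  have hinv : ∀ γ : MulAut Y, FixC γ d → FixC γ⁻¹ d := by
    intro γ hγ D hD
    conv_lhs => rw [← hγ D hD]
    rw [Subgroup.map_map]
    ext y
    simp
  have hmulc : ∀ γ δ : MulAut Y, FixC γ d → FixC δ d → FixC (γ * δ) d := by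
    intro γ δ hγ hδ D hD
    have h1 : (γ * δ).toMonoidHom = γ.toMonoidHom.comp δ.toMonoidHom := rfl
    rw [h1, ← Subgroup.map_map, hδ D hD, hγ D hD]
  have hmem : ∀ γ : MulAut Y, FixC γ d → ∀ D ∈ d, ∀ r ∈ D, γ r ∈ D := by
    intro γ hγ D hD r hr
    have := Subgroup.mem_map_of_mem γ.toMonoidHom hr
    rw [hγ D hD] at this
    exact this
  have hcen : ∀ γ : MulAut Y, FixC γ d → ∀ h, (∀ r ∈ R, h * r * h⁻¹ = γ r) → h ∈ stab d := by
    intro γ hγ h hh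
    unfold stab
    simp only [Subgroup.mem_iInf]
    intro D hD
    rw [Subgroup.mem_normalizer_iff]
    have hDR := hRmax D hD
    intro x
    constructor
    · intro hx
      rw [hh x (hDR hx)]
      exact hmem γ hγ D hD x hx
    · intro hx
      -- `y := h x h⁻¹ ∈ D`, `γ⁻¹ y ∈ D` and `h (γ⁻¹ y) h⁻¹ = y`
      have h1 : γ⁻¹ (h * x * h⁻¹) ∈ D := hmem γ⁻¹ (hinv γ hγ) D hD _ hx
      have h2 := hh _ (hDR h1)
      rw [MulAut.apply_inv_self] at h2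
      have h3 : γ⁻¹ (h * x * h⁻¹) = x := by
        have h4 := congrArg (fun z => h⁻¹ * z * h) h2
        simpa [mul_assoc] using h4
      rwa [h3] at h1
  -- first step
  have hst : ∀ s ∈ stab d, γ₂ s ∈ stab d := by
    intro s hs
    unfold stab at hs ⊢
    simp only [Subgroup.mem_iInf] at hs ⊢
    intro D hD
    have h1 := hs D hD
    rw [Subgroup.mem_normalizer_iff] at h1 ⊢
    intro x
    have h2 : x ∈ D ↔ γ₂⁻¹ x ∈ D := by
      constructor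
      · exact hmem γ₂⁻¹ (hinv γ₂ hγ₂) D hD x
      · intro h
        have := hmem γ₂ hγ₂ D hD _ h
        rwa [MulAut.apply_inv_self] at this
    have h3 : γ₂ s * x * (γ₂ s)⁻¹ ∈ D ↔ s * γ₂⁻¹ x * s⁻¹ ∈ D := by
      constructor
      · intro h
        have := hmem γ₂⁻¹ (hinv γ₂ hγ₂) D hD _ h
        rwa [map_mul, map_mul, map_inv, MulAut.inv_apply_self] at this
      · intro h
        have := hmem γ₂ hγ₂ D hD _ h
        rwa [map_mul, map_mul, map_inv, MulAut.apply_inv_self] at this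
    exact (h2.trans (h1 _)).trans h3.symm
  have hstep : ev ρ (fun t : stab d => w₁ t) * A₂ =
      A₂ * ev ρ (fun t : stab d => w₁ (γ₂ t)) := by
    unfold ev
    rw [finsum_eq_sum_of_fintype, finsum_eq_sum_of_fintype, Finset.sum_mul, Finset.mul_sum]
    let e : stab d → stab d := fun s => ⟨γ₂ s, hst s s.2⟩
    have he : Function.Bijective e := by
      refine (Finite.injective_iff_bijective).1 fun a b hab => ?_
      exact Subtype.ext (γ₂.injective (congrArg Subtype.val hab))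
    rw [← he.sum_comp]
    refine Finset.sum_congr rfl fun s _ => ?_
    rw [smul_mul_assoc, mul_smul_comm, hA s (e s) rfl]
  have hu : ∀ n y, (fun y => w₁ (γ₂ y)) ((γ₂⁻¹ * γ₁⁻¹ * γ₂) n * y * n⁻¹) =
      (fun y => w₁ (γ₂ y)) y := by
    intro n y
    simp only [map_mul, map_inv, MulAut.mul_apply, MulAut.apply_inv_self]
    exact hw₁ (γ₂ n) (γ₂ y)
  have hα : FixC (γ₂⁻¹ * γ₁⁻¹ * γ₂) d :=
    hmulc _ _ (hmulc _ _ (hinv _ hγ₂) (hinv _ hγ₁)) hγ₂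
  rw [hstep, mul_assoc]
  congr 1
  refine key nls orb ℓ hF (stab d) R hRT (hTn R hRd) hRp (γ₂⁻¹ * γ₁⁻¹ * γ₂) γ₂⁻¹
    (hmem _ hα R hRd) (hmem _ (hinv _ hγ₂) R hRd) ?_ (hcen _ hα) (hcen _ (hinv _ hγ₂))
    (fun y => w₁ (γ₂ y)) w₂ hu hw₂ n ρ hρ
  intro r hr
  exact ⟨γ₂ r, hmem _ hγ₂ R hRd r hr, by rw [MulAut.inv_apply_self]⟩

end Pool.Agent.PP.H90
end
end -- Pool.Agent.Helper90_PP.The

section -- Pool.Agent.Helper18_PP.CydF

/-!
# Squad PP: CYD without hypotheses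
-/

noncomputable section

namespace Pool.Agent.PP.H18

open Pool.Agent.PP

theorem theStmt : TheStmt := H90.the H20.nls H74.orb

theorem cydStmt : CydStmt :=
  cyd (H43.box H31.ncg) bxh H63.bij H75.con H31.shs (H90.C.ccp theStmt (H51.pip H5.pib))
    (H17.ops theStmt H63.bij) H90.cnt H9.pbk

end Pool.Agent.PP.H18
end
end -- Pool.Agent.Helper18_PP.CydF

section -- Pool.Agent.Helper31_PP.Prd

/-!
# Squad PP, part R2, module PRD: the pair sum of a direct product of two torus data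
-/

open scoped BigOperators

set_option linter.unusedSectionVars false

noncomputable section

namespace Pool.Agent.PP.H31

open Pool.Agent.PP Pool.Agent.Helper51_AWC Pool.Agent.Helper79_WRA

variable {F Y₁ Y₂ : Type} [Field F] [Group Y₁] [Group Y₂]

/-- the first component of an element of a product of subgroups -/
def c1 {X₁ : Subgroup Y₁} {X₂ : Subgroup Y₂} (x : X₁.prod X₂) : X₁ :=
  ⟨(x : Y₁ × Y₂).1, (Subgroup.mem_prod.1 x.2).1⟩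

/-- the second component -/
def c2 {X₁ : Subgroup Y₁} {X₂ : Subgroup Y₂} (x : X₁.prod X₂) : X₂ :=
  ⟨(x : Y₁ × Y₂).2, (Subgroup.mem_prod.1 x.2).2⟩

/-- the outer product of two functions on subgroups -/
def pf {X₁ : Subgroup Y₁} {X₂ : Subgroup Y₂} (φ₁ : X₁ → F) (φ₂ : X₂ → F) : X₁.prod X₂ → F :=
  fun x => φ₁ (c1 x) * φ₂ (c2 x)

theorem pf_eq {X₁ : Subgroup Y₁} {X₂ : Subgroup Y₂} (φ₁ : X₁ → F) (φ₂ : X₂ → F) :
    pf φ₁ φ₂ = fun x => (fun y : X₁ × X₂ => φ₁ y.1 * φ₂ y.2) (X₁.prodEquiv X₂ x) := rfl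

theorem kr_sum {n m : ℕ} {S T : Type} [Fintype S] [Fintype T] (f : S → Matrix (Fin n) (Fin n) F)
    (g : T → Matrix (Fin m) (Fin m) F) :
    kr (∑ s, f s) (∑ t, g t) = ∑ p : S × T, kr (f p.1) (g p.2) := by
  have hl : ∀ (s : Finset S) (B : Matrix (Fin m) (Fin m) F),
      kr (∑ i ∈ s, f i) B = ∑ i ∈ s, kr (f i) B := by
    classical
    intro s B
    induction s using Finset.induction_on with
    | empty => rw [Finset.sum_empty, Finset.sum_empty, H33.kr_zero_left]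
    | insert a s ha ih => rw [Finset.sum_insert ha, Finset.sum_insert ha, H33.kr_add_left, ih]
  have hr : ∀ (s : Finset T) (A : Matrix (Fin n) (Fin n) F),
      kr A (∑ i ∈ s, g i) = ∑ i ∈ s, kr A (g i) := by
    classical
    intro s A
    induction s using Finset.induction_on with
    | empty => rw [Finset.sum_empty, Finset.sum_empty, H33.kr_zero_right]
    | insert a s ha ih => rw [Finset.sum_insert ha, Finset.sum_insert ha, H33.kr_add_right, ih]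
  rw [hl, Fintype.sum_prod_type]
  refine Finset.sum_congr rfl fun s _ => ?_
  rw [hr]

theorem kr_scalar {n m : ℕ} (s t : F) :
    kr (Matrix.scalar (Fin n) s) (Matrix.scalar (Fin m) t) = Matrix.scalar (Fin (n * m)) (s * t) := by
  have h : ∀ (k : ℕ) (c : F), Matrix.scalar (Fin k) c = c • (1 : Matrix (Fin k) (Fin k) F) := by
    intro k c
    rw [Matrix.scalar_apply, ← Matrix.smul_one_eq_diagonal]
  rw [h, h, h, H33.kr_smul_left, H33.kr_smul_right, H33.kr_one, smul_smul]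

/-- the Kronecker product of two units -/
def krU {n m : ℕ} (A : (Matrix (Fin n) (Fin n) F)ˣ) (B : (Matrix (Fin m) (Fin m) F)ˣ) :
    (Matrix (Fin (n * m)) (Fin (n * m)) F)ˣ where
  val := kr (A : Matrix (Fin n) (Fin n) F) (B : Matrix (Fin m) (Fin m) F)
  inv := kr ((A⁻¹ : (Matrix (Fin n) (Fin n) F)ˣ) : Matrix (Fin n) (Fin n) F)
    ((B⁻¹ : (Matrix (Fin m) (Fin m) F)ˣ) : Matrix (Fin m) (Fin m) F)
  val_inv := by rw [← H33.kr_mul, Units.mul_inv, Units.mul_inv, H33.kr_one]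
  inv_val := by rw [← H33.kr_mul, Units.inv_mul, Units.inv_mul, H33.kr_one]

theorem krU_mul {n m : ℕ} (A A' : (Matrix (Fin n) (Fin n) F)ˣ) (B B' : (Matrix (Fin m) (Fin m) F)ˣ) :
    krU A B * krU A' B' = krU (A * A') (B * B') := by
  apply Units.ext
  exact (H33.kr_mul _ _ _ _).symm

theorem krU_inv {n m : ℕ} (A : (Matrix (Fin n) (Fin n) F)ˣ) (B : (Matrix (Fin m) (Fin m) F)ˣ) :
    (krU A B)⁻¹ = krU A⁻¹ B⁻¹ := by
  apply Units.ext
  rfl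

/-- the outer tensor product on a product of subgroups -/
def prR {X₁ : Subgroup Y₁} {X₂ : Subgroup Y₂} {n m : ℕ} (ρ₁ : X₁ →* Matrix (Fin n) (Fin n) F)
    (ρ₂ : X₂ →* Matrix (Fin m) (Fin m) F) : X₁.prod X₂ →* Matrix (Fin (n * m)) (Fin (n * m)) F :=
  (H5.prodRep ρ₁ ρ₂).comp (X₁.prodEquiv X₂).toMonoidHom

theorem prR_apply {X₁ : Subgroup Y₁} {X₂ : Subgroup Y₂} {n m : ℕ}
    (ρ₁ : X₁ →* Matrix (Fin n) (Fin n) F) (ρ₂ : X₂ →* Matrix (Fin m) (Fin m) F) (x : X₁.prod X₂) :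
    prR ρ₁ ρ₂ x = kr (ρ₁ (c1 x)) (ρ₂ (c2 x)) := rfl

theorem ev_prR [Finite Y₁] [Finite Y₂] {X₁ : Subgroup Y₁} {X₂ : Subgroup Y₂} {n m : ℕ}
    (ρ₁ : X₁ →* Matrix (Fin n) (Fin n) F) (ρ₂ : X₂ →* Matrix (Fin m) (Fin m) F)
    (v₁ : Y₁ → F) (v₂ : Y₂ → F) :
    ev (prR ρ₁ ρ₂) (fun t : X₁.prod X₂ => v₁ (t : Y₁ × Y₂).1 * v₂ (t : Y₁ × Y₂).2) =
      kr (ev ρ₁ (fun t : X₁ => v₁ t)) (ev ρ₂ (fun t : X₂ => v₂ t)) := by
  have := Fintype.ofFinite X₁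
  have := Fintype.ofFinite X₂
  unfold ev
  have h1 : ∀ t : X₁.prod X₂, (v₁ (t : Y₁ × Y₂).1 * v₂ (t : Y₁ × Y₂).2) • prR ρ₁ ρ₂ t =
      (fun y : X₁ × X₂ => kr (v₁ y.1 • ρ₁ y.1) (v₂ y.2 • ρ₂ y.2)) ((X₁.prodEquiv X₂).toEquiv t) := by
    intro t
    show _ = kr (v₁ (c1 t) • ρ₁ (c1 t)) (v₂ (c2 t) • ρ₂ (c2 t))
    rw [H33.kr_smul_left, H33.kr_smul_right, smul_smul]
    rfl
  refine (finsum_congr h1).trans ((finsum_comp_equiv (X₁.prodEquiv X₂).toEquiv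
    (f := fun y : X₁ × X₂ => kr (v₁ y.1 • ρ₁ y.1) (v₂ y.2 • ρ₂ y.2))).trans ?_)
  simp only [finsum_eq_sum_of_fintype]
  rw [kr_sum]

theorem isTS_prod [Finite Y₁] [Finite Y₂] {X₁ : Subgroup Y₁} {X₂ : Subgroup Y₂}
    {φ₁ : X₁ → F} {φ₂ : X₂ → F} {γ₁ δ₁ : MulAut Y₁} {γ₂ δ₂ : MulAut Y₂} {v₁ : Y₁ → F} {v₂ : Y₂ → F}
    {s₁ s₂ : F} (h₁ : IsTS X₁ φ₁ γ₁ δ₁ v₁ s₁) (h₂ : IsTS X₂ φ₂ γ₂ δ₂ v₂ s₂) :
    IsTS (X₁.prod X₂) (pf φ₁ φ₂) (MulEquiv.prodCongr γ₁ γ₂) (MulEquiv.prodCongr δ₁ δ₂)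
      (fun y => v₁ y.1 * v₂ y.2) (s₁ * s₂) := by
  obtain ⟨n, ρ₁, A₁, B₁, hρ₁, rfl, hA₁, hB₁, hs₁⟩ := h₁
  obtain ⟨m, ρ₂, A₂, B₂, hρ₂, rfl, hA₂, hB₂, hs₂⟩ := h₂
  have himp : ∀ {γ₁ : MulAut Y₁} {γ₂ : MulAut Y₂} {A₁ : (Matrix (Fin n) (Fin n) F)ˣ}
      {A₂ : (Matrix (Fin m) (Fin m) F)ˣ}, Impl ρ₁ γ₁ A₁ → Impl ρ₂ γ₂ A₂ →
      Impl (prR ρ₁ ρ₂) (MulEquiv.prodCongr γ₁ γ₂ : MulAut (Y₁ × Y₂)) (krU A₁ A₂) := by
    intro γ₁ γ₂ A₁ A₂ h1 h2 h h' hh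
    show kr (A₁ : Matrix (Fin n) (Fin n) F) (A₂ : Matrix (Fin m) (Fin m) F) *
      kr (ρ₁ (c1 h)) (ρ₂ (c2 h)) = kr (ρ₁ (c1 h')) (ρ₂ (c2 h')) *
      kr (A₁ : Matrix (Fin n) (Fin n) F) (A₂ : Matrix (Fin m) (Fin m) F)
    rw [← H33.kr_mul, ← H33.kr_mul, h1 (c1 h) (c1 h') (congrArg Prod.fst hh),
      h2 (c2 h) (c2 h') (congrArg Prod.snd hh)]
  refine ⟨n * m, prR ρ₁ ρ₂, krU A₁ A₂, krU B₁ B₂,
    H51.isIrr_comp _ (H5.prodRep_irr hρ₁ hρ₂), ?_, himp hA₁ hA₂, himp hB₁ hB₂, ?_⟩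
  · funext x
    show (kr (ρ₁ (c1 x)) (ρ₂ (c2 x))).trace = _
    rw [H33.kr_trace]
    rfl
  · rw [krU_inv, krU_inv, krU_mul, krU_mul, krU_mul, ev_prR]
    show kr _ _ * _ = _
    rw [← H33.kr_mul, hs₁, hs₂, kr_scalar]

theorem actF_pf [Finite Y₁] [Finite Y₂] {X₁ : Subgroup Y₁} {X₂ : Subgroup Y₂} (f₁ : Y₁ → F)
    (f₂ : Y₂ → F) (φ₁ : X₁ → F) (φ₂ : X₂ → F) :
    actF (fun t : X₁.prod X₂ => f₁ (t : Y₁ × Y₂).1 * f₂ (t : Y₁ × Y₂).2) (pf φ₁ φ₂) =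
      pf (actF (fun t : X₁ => f₁ t) φ₁) (actF (fun t : X₂ => f₂ t) φ₂) := by
  classical
  have := Fintype.ofFinite X₁
  have := Fintype.ofFinite X₂
  funext x
  unfold actF pf
  have h1 : ∀ t : X₁.prod X₂, f₁ (t : Y₁ × Y₂).1 * f₂ (t : Y₁ × Y₂).2 *
      (φ₁ (c1 (t * x)) * φ₂ (c2 (t * x))) =
      (fun y : X₁ × X₂ => (f₁ y.1 * φ₁ (y.1 * c1 x)) * (f₂ y.2 * φ₂ (y.2 * c2 x)))
        ((X₁.prodEquiv X₂).toEquiv t) := by
    intro t
    show _ = (f₁ (c1 t) * φ₁ (c1 t * c1 x)) * (f₂ (c2 t) * φ₂ (c2 t * c2 x))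
    have e1 : c1 (t * x) = c1 t * c1 x := rfl
    have e2 : c2 (t * x) = c2 t * c2 x := rfl
    rw [e1, e2]
    show f₁ (t : Y₁ × Y₂).1 * f₂ (t : Y₁ × Y₂).2 * _ = (f₁ (t : Y₁ × Y₂).1 * _) *
      (f₂ (t : Y₁ × Y₂).2 * _)
    ring
  refine (finsum_congr h1).trans ((finsum_comp_equiv (X₁.prodEquiv X₂).toEquiv
    (f := fun y : X₁ × X₂ =>
      (f₁ y.1 * φ₁ (y.1 * c1 x)) * (f₂ y.2 * φ₂ (y.2 * c2 x)))).trans ?_)
  simp only [finsum_eq_sum_of_fintype]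
  rw [Fintype.sum_prod_type, Finset.sum_mul_sum]

section chars

variable [Finite Y₁] [Finite Y₂] {d₁ : Finset (Subgroup Y₁)} {d₂ : Finset (Subgroup Y₂)}
  {f₁ : Y₁ → F} {f₂ : Y₂ → F} {γ₁ δ₁ : MulAut Y₁} {γ₂ δ₂ : MulAut Y₂}

/-- the element of the product -/
def mk {X₁ : Subgroup Y₁} {X₂ : Subgroup Y₂} (x : X₁) (y : X₂) : X₁.prod X₂ :=
  ⟨((x : Y₁), (y : Y₂)), Subgroup.mem_prod.2 ⟨x.2, y.2⟩⟩

theorem pf_mk {X₁ : Subgroup Y₁} {X₂ : Subgroup Y₂} (φ₁ : X₁ → F) (φ₂ : X₂ → F) (x : X₁) (y : X₂) :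
    pf φ₁ φ₂ (mk x y) = φ₁ x * φ₂ y := rfl

theorem tset_prod (the : TheStmt) {ℓ : ℕ} (hF : GoodF ℓ F)
    (hd₁ : d₁ ∈ chainsOn (psubIn ℓ (⊤ : Subgroup Y₁)) ⊥) (hn₁ : NormalChain d₁)
    (hd₂ : d₂ ∈ chainsOn (psubIn ℓ (⊤ : Subgroup Y₂)) ⊥) (hn₂ : NormalChain d₂)
    (hf₁ : IsBlk f₁) (hf₂ : IsBlk f₂) (hγ₁ : FixC γ₁ d₁) (hδ₁ : FixC δ₁ d₁) (hγ₂ : FixC γ₂ d₂)
    (hδ₂ : FixC δ₂ d₂) :
    Set.BijOn (fun p : (stab d₁ → F) × (stab d₂ → F) => pf p.1 p.2)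
      (tset (stab d₁) f₁ γ₁ δ₁ ×ˢ tset (stab d₂) f₂ γ₂ δ₂)
      (tset ((stab d₁).prod (stab d₂)) (fun y => f₁ y.1 * f₂ y.2) (MulEquiv.prodCongr γ₁ γ₂)
        (MulEquiv.prodCongr δ₁ δ₂)) := by
  obtain ⟨_, P2, P3, P4⟩ := H5.pib ℓ F hF (stab d₁) (stab d₂)
  refine ⟨?_, ?_, ?_⟩
  · rintro ⟨φ₁, φ₂⟩ ⟨⟨a1, a2, a3, a4⟩, ⟨b1, b2, b3, b4⟩⟩
    refine ⟨?_, ?_, ?_, ?_⟩
    · exact H51.ibr_equiv ((stab d₁).prodEquiv (stab d₂)) (P2 φ₁ a1 φ₂ b1)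
    · refine (actF_pf f₁ f₂ φ₁ φ₂).trans ?_
      rw [a2, b2]
    · intro h h' hh
      show φ₁ (c1 h') * φ₂ (c2 h') = φ₁ (c1 h) * φ₂ (c2 h)
      exact congrArg₂ (· * ·) (a3 (c1 h) (c1 h') (congrArg Prod.fst hh))
        (b3 (c2 h) (c2 h') (congrArg Prod.snd hh))
    · intro h h' hh
      show φ₁ (c1 h') * φ₂ (c2 h') = φ₁ (c1 h) * φ₂ (c2 h)
      exact congrArg₂ (· * ·) (a4 (c1 h) (c1 h') (congrArg Prod.fst hh))
        (b4 (c2 h) (c2 h') (congrArg Prod.snd hh))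
  · rintro ⟨φ₁, φ₂⟩ ⟨⟨a1, _⟩, ⟨b1, _⟩⟩ ⟨ψ₁, ψ₂⟩ ⟨⟨a1', _⟩, ⟨b1', _⟩⟩ h
    have := P4 φ₁ a1 φ₂ b1 ψ₁ a1' ψ₂ b1' (fun x y => congrFun h (mk x y))
    exact Prod.ext this.1 this.2
  · rintro φ ⟨h1, h2, h3, h4⟩
    obtain ⟨φ₁, a1, φ₂, b1, hφ⟩ := P3 _ (H51.ibr_equiv ((stab d₁).prodEquiv (stab d₂)).symm h1)
    have hφ' : φ = pf φ₁ φ₂ := by
      funext x
      exact congrFun hφ ((stab d₁).prodEquiv (stab d₂) x)
    subst hφ'
    have key : ∀ {γ₁ : MulAut Y₁} {γ₂ : MulAut Y₂} (hγ₁ : FixC γ₁ d₁) (hγ₂ : FixC γ₂ d₂),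
        (∀ h h' : (stab d₁).prod (stab d₂), (h' : Y₁ × Y₂) =
          (MulEquiv.prodCongr γ₁ γ₂ : MulAut (Y₁ × Y₂)) h → pf φ₁ φ₂ h' = pf φ₁ φ₂ h) →
        (∀ h h' : stab d₁, (h' : Y₁) = γ₁ h → φ₁ h' = φ₁ h) ∧
        ∀ h h' : stab d₂, (h' : Y₂) = γ₂ h → φ₂ h' = φ₂ h := by
      intro γ₁ γ₂ hγ₁ hγ₂ h5
      have e1 := H21.FixC.stab_iff hγ₁
      have e2 := H21.FixC.stab_iff hγ₂
      have h6 := P4 (fun t => φ₁ (H90.C.resE γ₁ e1 t)) (H51.ibr_equiv (H90.C.resE γ₁ e1) a1)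
        (fun t => φ₂ (H90.C.resE γ₂ e2 t)) (H51.ibr_equiv (H90.C.resE γ₂ e2) b1) φ₁ a1 φ₂ b1 (by
          intro x y
          exact h5 (mk x y) (mk (H90.C.resE γ₁ e1 x) (H90.C.resE γ₂ e2 y)) rfl)
      refine ⟨fun h h' hh => ?_, fun h h' hh => ?_⟩
      · have h7 : h' = H90.C.resE γ₁ e1 h := Subtype.ext hh
        rw [h7]
        exact congrFun h6.1 h
      · have h7 : h' = H90.C.resE γ₂ e2 h := Subtype.ext hh
        rw [h7]
        exact congrFun h6.2 h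
    obtain ⟨c, hcc, hc⟩ := H90.C.act_scal the hF hd₁ hn₁ hf₁ a1
    obtain ⟨e, hee, he⟩ := H90.C.act_scal the hF hd₂ hn₂ hf₂ b1
    obtain ⟨x, hx⟩ := H90.C.exists_ne a1
    obtain ⟨y, hy⟩ := H90.C.exists_ne b1
    have h5 := congrFun ((actF_pf f₁ f₂ φ₁ φ₂).symm.trans h2) (mk x y)
    rw [pf_mk, pf_mk, hc, he, Pi.smul_apply, Pi.smul_apply, smul_eq_mul, smul_eq_mul] at h5
    have h6 : c * e = 1 := by
      have h7 : (c * e) * (φ₁ x * φ₂ y) = 1 * (φ₁ x * φ₂ y) := by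
        linear_combination h5
      exact mul_right_cancel₀ (mul_ne_zero hx hy) h7
    have hc1 : c = 1 := by
      have hc0 : c ≠ 0 := by
        rintro rfl
        rw [zero_mul] at h6
        exact zero_ne_one h6
      exact mul_right_cancel₀ hc0 (by rw [hcc, one_mul])
    have he1 : e = 1 := by
      rw [hc1, one_mul] at h6
      exact h6
    rw [hc1, one_smul] at hc
    rw [he1, one_smul] at he
    have k1 := key hγ₁ hγ₂ h3
    have k2 := key hδ₁ hδ₂ h4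
    exact ⟨(φ₁, φ₂), ⟨⟨a1, hc, k1.1, k2.1⟩, ⟨b1, he, k1.2, k2.2⟩⟩, rfl⟩

end chars

/-- a finite sum over a product -/
theorem fs_prod {A B : Type} {S : Set A} {T : Set B} (hS : S.Finite) (hT : T.Finite) (g : A → ℂ)
    (h : B → ℂ) : ∑ᶠ p ∈ S ×ˢ T, g p.1 * h p.2 = (∑ᶠ a ∈ S, g a) * ∑ᶠ b ∈ T, h b := by
  classical
  rw [finsum_mem_eq_finite_toFinset_sum _ hS, finsum_mem_eq_finite_toFinset_sum _ hT,
    finsum_mem_eq_finite_toFinset_sum _ (hS.prod hT), Finset.sum_mul_sum, ← Finset.sum_product']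
  refine Finset.sum_congr ?_ fun _ _ => rfl
  ext p
  simp

section con

variable [Finite Y₁] [Finite Y₂]

theorem cc_prod (α₁ β₁ : MulAut Y₁) (α₂ β₂ : MulAut Y₂) (n m : Y₁ × Y₂) :
    cc (MulEquiv.prodCongr α₁ α₂ : MulAut (Y₁ × Y₂)) (MulEquiv.prodCongr β₁ β₂) n m =
      (cc α₁ β₁ n.1 m.1, cc α₂ β₂ n.2 m.2) := rfl

theorem tcon_prod {ℓ : ℕ} (hF : GoodF ℓ F) {d₁ : Finset (Subgroup Y₁)}
    {d₂ : Finset (Subgroup Y₂)} {d : Finset (Subgroup (Y₁ × Y₂))} {f₁ : Y₁ → F} {f₂ : Y₂ → F}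
    {γ₁ δ₁ : MulAut Y₁} {γ₂ δ₂ : MulAut Y₂}
    (hd₁ : d₁ ∈ chainsOn (psubIn ℓ (⊤ : Subgroup Y₁)) ⊥) (hn₁ : NormalChain d₁)
    (hd₂ : d₂ ∈ chainsOn (psubIn ℓ (⊤ : Subgroup Y₂)) ⊥) (hn₂ : NormalChain d₂)
    (hγ₁ : FixC γ₁ d₁) (hδ₁ : FixC δ₁ d₁) (hγ₂ : FixC γ₂ d₂)
    (hδ₂ : FixC δ₂ d₂) (hst : stab d = (stab d₁).prod (stab d₂)) {w₁ wi₁ : Y₁ → F}
    {w₂ wi₂ : Y₂ → F} (hT₁ : Torus f₁ γ₁ δ₁ w₁ wi₁) (hT₂ : Torus f₂ γ₂ δ₂ w₂ wi₂) {τ : F → ℂ}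
    (hτ : IsLift τ) :
    tcon τ (fun y : Y₁ × Y₂ => f₁ y.1 * f₂ y.2) (MulEquiv.prodCongr γ₁ γ₂)
      (MulEquiv.prodCongr δ₁ δ₂) (fun y => w₁ y.1 * w₂ y.2) d =
      tcon τ f₁ γ₁ δ₁ w₁ d₁ * tcon τ f₂ γ₂ δ₂ w₂ d₂ := by
  have the := H18.theStmt
  unfold tcon
  rw [hst]
  have hb := tset_prod the hF hd₁ hn₁ hd₂ hn₂ hT₁.blk hT₂.blk hγ₁ hδ₁ hγ₂ hδ₂
  have hfin₁ : (tset (stab d₁) f₁ γ₁ δ₁).Finite :=
    (H20.ibf ℓ F hF (stab d₁)).1.subset fun φ hφ => hφ.1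
  have hfin₂ : (tset (stab d₂) f₂ γ₂ δ₂).Finite :=
    (H20.ibf ℓ F hF (stab d₂)).1.subset fun φ hφ => hφ.1
  have t₁ := H21.tsb the ℓ F hF Y₁ f₁ γ₁ δ₁ w₁ wi₁ hT₁ d₁ hd₁ hγ₁ hδ₁
  have t₂ := H21.tsb the ℓ F hF Y₂ f₂ γ₂ δ₂ w₂ wi₂ hT₂ d₂ hd₂ hγ₂ hδ₂
  have e1 := H21.FixC.stab_iff hγ₁
  have e2 := H21.FixC.stab_iff hγ₂
  have e3 := H21.FixC.stab_iff hδ₁
  have e4 := H21.FixC.stab_iff hδ₂
  have hs : ∑ᶠ φ ∈ tset ((stab d₁).prod (stab d₂)) (fun y : Y₁ × Y₂ => f₁ y.1 * f₂ y.2)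
        (MulEquiv.prodCongr γ₁ γ₂) (MulEquiv.prodCongr δ₁ δ₂),
        τ (ts ((stab d₁).prod (stab d₂)) φ (MulEquiv.prodCongr γ₁ γ₂)
          (MulEquiv.prodCongr δ₁ δ₂) (fun y => w₁ y.1 * w₂ y.2)) =
      ∑ᶠ p ∈ tset (stab d₁) f₁ γ₁ δ₁ ×ˢ tset (stab d₂) f₂ γ₂ δ₂,
        τ (ts (stab d₁) p.1 γ₁ δ₁ w₁) * τ (ts (stab d₂) p.2 γ₂ δ₂ w₂) := by
    symm
    refine finsum_mem_eq_of_bijOn _ hb ?_
    rintro ⟨φ₁, φ₂⟩ ⟨h₁, h₂⟩
    have g₁ := t₁ φ₁ h₁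
    have g₂ := t₂ φ₂ h₂
    have h3 := H17.ts_eq hF (X := (stab d₁).prod (stab d₂))
      (α := (MulEquiv.prodCongr γ₁ γ₂ : MulAut (Y₁ × Y₂)))
      (β := (MulEquiv.prodCongr δ₁ δ₂ : MulAut (Y₁ × Y₂)))
      (fun h => by
        rw [Subgroup.mem_prod, Subgroup.mem_prod]
        exact and_congr (e1 h.1) (e2 h.2)) (fun h => by
        rw [Subgroup.mem_prod, Subgroup.mem_prod]
        exact and_congr (e3 h.1) (e4 h.2)) (isTS_prod g₁.1 g₂.1)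
    show τ (ts (stab d₁) φ₁ γ₁ δ₁ w₁) * τ (ts (stab d₂) φ₂ γ₂ δ₂ w₂) = τ (ts _ (pf φ₁ φ₂) _ _ _)
    rw [h3, hτ.mul _ _ (g₁.2.2 hn₁) (g₂.2.2 hn₂)]
  rw [hs, fs_prod hfin₁ hfin₂ (fun φ => τ (ts (stab d₁) φ γ₁ δ₁ w₁))
    (fun φ => τ (ts (stab d₂) φ γ₂ δ₂ w₂)),
    Nat.card_congr ((stab d₁).prodEquiv (stab d₂)).toEquiv, Nat.card_prod]
  push_cast
  rw [mul_inv]
  ring

end con

/-- **PRD.** -/
theorem prd : PrdStmt := by
  intro ℓ _ F _ hF Y₁ Y₂ _ _ _ _ f₁ f₂ α₁ β₁ α₂ β₂ w₁ wi₁ w₂ wi₂ hT₁ hT₂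
  refine ⟨H46.isBlk_box hF.closed hT₁.blk hT₂.blk, fun τ hτ => ?_⟩
  refine H9.prc (H43.box ncg) ℓ F hF Y₁ Y₂ _ _ α₁ β₁ α₂ β₂ τ
    (fun n m d => tcon τ f₁ (tw α₁ n) (tw β₁ m) (fun y => w₁ (cc α₁ β₁ n m * y)) d)
    (fun n m d => tcon τ f₂ (tw α₂ n) (tw β₂ m) (fun y => w₂ (cc α₂ β₂ n m * y)) d) ?_
  intro n m d₁ hd₁ hn₁ hγ₁ hδ₁ d₂ hd₂ hn₂ hγ₂ hδ₂ d _ _ _ _ hst
  obtain ⟨v₁, hv₁⟩ := (H65.shf ℓ F hF Y₁ f₁ α₁ β₁ w₁ wi₁ hT₁ n.1 m.1).1
  obtain ⟨v₂, hv₂⟩ := (H65.shf ℓ F hF Y₂ f₂ α₂ β₂ w₂ wi₂ hT₂ n.2 m.2).1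
  rw [H9.tw_prod, H9.tw_prod, cc_prod]
  exact tcon_prod hF hd₁ hn₁ hd₂ hn₂ hγ₁ hδ₁ hγ₂ hδ₂ hst hv₁ hv₂ hτ

end Pool.Agent.PP.H31
end
end -- Pool.Agent.Helper31_PP.Prd
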