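import Pool.Agent.Helper12_AWB.B085
import Pool.Agent.Helper12_AWB.B088
import Pool.Agent.Helper12_AWB.B090

/-!
# Merged copies (generated) of the modules

* `Pool.Agent.Helper46_PP.Db1a`
* `Pool.Agent.Helper46_PP.Db1b`
* `Pool.Agent.Helper46_PP.Db1g`
* `Pool.Agent.Helper46_PP.Db1c`
* `Pool.Agent.Helper46_PP.Db1d`
* `Pool.Agent.Helper46_PP.Db1e`
-/

set_option autoImplicit false

section -- Pool.Agent.Helper46_PP.Db1a

/-!
# Squad PP, module DB1 (AWC_J 7.4): the double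
-/

open scoped BigOperators

set_option linter.unusedSectionVars false

noncomputable section

namespace Pool.Agent.PP.H46

open Pool.Agent.PP

variable {F X : Type} [Field F] [Group X] [Finite X] {Y : Subgroup X} [hY : Y.Normal]

theorem sum_Lam [Fintype X] [Fintype (Lam Y)] (φ : X × X → F)
    (h : ∀ p : X × X, p ∉ Lam Y → φ p = 0) : ∑ q : Lam Y, φ q.1 = ∑ p : X × X, φ p := by
  refine Fintype.sum_of_injective (fun q : Lam Y => q.1) Subtype.val_injective _ _ ?_ ?_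
  · intro p hp
    apply h
    intro hp'
    exact hp ⟨⟨p, hp'⟩, rfl⟩
  · intro q
    rfl

/-- the product of two elements `v ⊗ S(v')` -/
theorem sig_mul {a : X} {u u' : X → F} (w w' : X → F) (hu : ∀ h, a⁻¹ * h ∉ Y → u h = 0)
    (hu' : ∀ h, a * h ∉ Y → u' h = 0) :
    mulF (sig Y u u') (sig Y w w') = sig Y (mulF u w) (mulF w' u') := by
  have := Fintype.ofFinite X
  have := Fintype.ofFinite (Lam Y)
  funext g
  change ∑ᶠ q : Lam Y, u q.1.1 * u' (q.1.2)⁻¹ * (w (q.1.1⁻¹ * g.1.1) * w' (q.1.2⁻¹ * g.1.2)⁻¹) =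
    (∑ᶠ s, u s * w (s⁻¹ * g.1.1)) * ∑ᶠ t, w' t * u' (t⁻¹ * (g.1.2)⁻¹)
  rw [finsum_eq_sum_of_fintype, finsum_eq_sum_of_fintype, finsum_eq_sum_of_fintype]
  have h1 := sum_Lam (Y := Y) (fun p : X × X =>
    u p.1 * u' (p.2)⁻¹ * (w (p.1⁻¹ * g.1.1) * w' (p.2⁻¹ * g.1.2)⁻¹)) (by
      intro p hp
      by_cases h1 : a⁻¹ * p.1 ∈ Y
      · by_cases h2 : a * p.2⁻¹ ∈ Y
        · exfalso
          apply hp
          change p.1⁻¹ * p.2 ∈ Y
          have h3 := hY.conj_mem _ (Y.inv_mem h2) a⁻¹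
          have h4 := Y.mul_mem (Y.inv_mem h1) h3
          have e : (a⁻¹ * p.1)⁻¹ * (a⁻¹ * (a * p.2⁻¹)⁻¹ * a⁻¹⁻¹) = p.1⁻¹ * p.2 := by group
          rwa [e] at h4
        · simp only [hu' _ h2, mul_zero, zero_mul]
      · simp only [hu _ h1, zero_mul])
  rw [h1, Fintype.sum_prod_type, Finset.sum_mul_sum]
  apply Finset.sum_congr rfl
  intro s _
  refine Fintype.sum_equiv (Equiv.mulLeft (g.1.2)⁻¹) _ _ ?_
  intro t
  rw [Equiv.coe_mulLeft]
  have e1 : ((g.1.2)⁻¹ * t)⁻¹ * (g.1.2)⁻¹ = t⁻¹ := by group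
  have e2 : (t⁻¹ * g.1.2)⁻¹ = (g.1.2)⁻¹ * t := by group
  change u s * u' t⁻¹ * (w (s⁻¹ * g.1.1) * w' (t⁻¹ * g.1.2)⁻¹) = _
  rw [e1, e2]
  ring

theorem sig_supp {a : X} {u u' : X → F} (hu : ∀ h, a⁻¹ * h ∉ Y → u h = 0)
    (hu' : ∀ h, a * h ∉ Y → u' h = 0) (g : Lam Y) (h : sig Y u u' g ≠ 0) :
    a⁻¹ * g.1.1 ∈ Y ∧ a⁻¹ * g.1.2 ∈ Y := by
  have h1 : u g.1.1 ≠ 0 := left_ne_zero_of_mul h
  have h2 : u' (g.1.2)⁻¹ ≠ 0 := right_ne_zero_of_mul h
  refine ⟨by_contra fun h' => h1 (hu _ h'), ?_⟩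
  have h3 : a * (g.1.2)⁻¹ ∈ Y := by_contra fun h' => h2 (hu' _ h')
  have h4 := hY.conj_mem _ (Y.inv_mem h3) a⁻¹
  have e : a⁻¹ * (a * (g.1.2)⁻¹)⁻¹ * a⁻¹⁻¹ = a⁻¹ * g.1.2 := by group
  rwa [e] at h4

/-- the isomorphism of `Y × Y` inside the double with the direct product -/
def eYY (Y : Subgroup X) [Y.Normal] : ↥(YY2 Y) ≃* (Y × Y) where
  toFun p := (⟨p.1.1.1, p.2.1⟩, ⟨p.1.1.2, p.2.2⟩)
  invFun q := ⟨⟨(q.1, q.2), Y.mul_mem (Y.inv_mem q.1.2) q.2.2⟩, ⟨q.1.2, q.2.2⟩⟩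
  left_inv _ := rfl
  right_inv _ := rfl
  map_mul' _ _ := rfl

/-- the block idempotent of the double -/
theorem sblk_sig (hF : IsAlgClosed F) {f : X → F} (hf : SBlk Y f) :
    SBlk (YY2 Y) (sig Y f f) := by
  refine ⟨?_, ?_, ?_⟩
  · intro p hp
    by_contra h
    have h1 := sig_supp (Y := Y) (a := 1) (u := f) (u' := f)
      (fun h hh => hf.supp h (by simpa using hh)) (fun h hh => hf.supp h (by simpa using hh)) p h
    rw [inv_one, one_mul, one_mul] at h1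
    exact hp h1
  · intro x y
    change f (y.1.1 * x.1.1 * y.1.1⁻¹) * f (y.1.2 * x.1.2 * y.1.2⁻¹)⁻¹ = f x.1.1 * f (x.1.2)⁻¹
    have e : (y.1.2 * x.1.2 * y.1.2⁻¹)⁻¹ = y.1.2 * x.1.2⁻¹ * y.1.2⁻¹ := by group
    rw [e, hf.cl, hf.cl]
  · have h1 := isBlk_box hF hf.blk (isBlk_dlv hf.blk)
    exact H20.IsBlk_equiv (eYY Y) h1

theorem normal_YY2 : (YY2 Y).Normal := by
  refine ⟨fun n hn g => ?_⟩
  exact ⟨hY.conj_mem _ hn.1 _, hY.conj_mem _ hn.2 _⟩

theorem CE_sig {f : X → F} (hf : SBlk Y f) {p : Lam Y} {v v' : X → F}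
    (hv : CE f Y p.1.1 v) (hv' : CE f Y p.1.1⁻¹ v') :
    CE (sig Y f f) (YY2 Y) p (sig Y v v') := by
  refine ⟨?_, ?_, ?_⟩
  · intro h hh
    by_contra hne
    apply hh
    have h1 := sig_supp (Y := Y) (a := p.1.1) hv.supp (fun h hh => hv'.supp h (by
      rwa [inv_inv])) h hne
    refine ⟨h1.1, ?_⟩
    change p.1.2⁻¹ * h.1.2 ∈ Y
    have h2 : p.1.1⁻¹ * p.1.2 ∈ Y := p.2
    have h3 := Y.mul_mem (Y.inv_mem h2) h1.2
    have e : (p.1.1⁻¹ * p.1.2)⁻¹ * (p.1.1⁻¹ * h.1.2) = p.1.2⁻¹ * h.1.2 := by group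
    rwa [e] at h3
  · intro n hn h
    change v (n.1.1 * h.1.1 * n.1.1⁻¹) * v' (n.1.2 * h.1.2 * n.1.2⁻¹)⁻¹ = v h.1.1 * v' (h.1.2)⁻¹
    have e : (n.1.2 * h.1.2 * n.1.2⁻¹)⁻¹ = n.1.2 * h.1.2⁻¹ * n.1.2⁻¹ := by group
    rw [e, hv.inv n.1.1 hn.1, hv'.inv n.1.2 hn.2]
  · rw [sig_mul (a := 1) v v' (fun h hh => hf.supp h (by simpa using hh))
      (fun h hh => hf.supp h (by simpa using hh)), hv.abs, J74.abs_right hf hv'.abs]

/-- the units of the double -/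
theorem unit_sig {f : X → F} (hf : SBlk Y f) {p : Lam Y} {v v' : X → F}
    (h : IsUnitOver f Y p.1.1 v v') :
    IsUnitOver (sig Y f f) (YY2 Y) p (sig Y v v') (sig Y v' v) := by
  refine ⟨CE_sig hf h.left h.right, ?_, ?_⟩
  · apply CE_sig (p := p⁻¹) hf
    · exact h.right
    · change CE f Y p.1.1⁻¹⁻¹ v
      rw [inv_inv]
      exact h.left
  · rw [sig_mul (a := p.1.1) v' v h.left.supp (fun h' hh => h.right.supp h' (by
      rwa [inv_inv])), h.mul]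

end Pool.Agent.PP.H46
end
end -- Pool.Agent.Helper46_PP.Db1a

section -- Pool.Agent.Helper46_PP.Db1b

/-!
# Squad PP, module DB1 (AWC_J 7.4, 7.5): the units of the double modulo `J₁ C` and the element `s`
-/

open scoped BigOperators

set_option linter.unusedSectionVars false

noncomputable section

namespace Pool.Agent.PP.H46

open Pool.Agent.PP

/-! ### calculus of `J₁ C` -/

section J1

variable {F X : Type} [Field F] [Group X] [Finite X] {Y : Subgroup X} {f : X → F}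

/-- left multiplication -/
def mL (c : X → F) : (X → F) →ₗ[F] (X → F) where
  toFun u := mulF c u
  map_add' u v := J74.mulF_add' c u v
  map_smul' a u := J74.mulF_smul' a c u

/-- right multiplication -/
def mR (c : X → F) : (X → F) →ₗ[F] (X → F) where
  toFun u := mulF u c
  map_add' u v := J74.add_mulF' u v c
  map_smul' a u := J74.smul_mulF' a u c

/-- conjugation -/
def cL (x : X) : (X → F) →ₗ[F] (X → F) where
  toFun u := cjF x u
  map_add' _ _ := rfl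
  map_smul' _ _ := rfl

theorem J1_left {c : X → F} (hc : CC f Y c) {w : X → F} (hw : w ∈ J1C f Y) :
    mulF c w ∈ J1C f Y := by
  induction hw using Submodule.span_induction with
  | mem x hx =>
    obtain ⟨z, c', hz, hn, hc', rfl⟩ := hx
    apply Submodule.subset_span
    refine ⟨z, mulF c c', hz, hn, hc.mul hc', ?_⟩
    rw [← mulF_assoc, ← J74.C1_comm hz hc, mulF_assoc]
  | zero =>
    have := (mL c).map_zero
    change mulF c 0 = 0 at this
    rw [this]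
    exact Submodule.zero_mem _
  | add x y _ _ hx hy =>
    rw [J74.mulF_add']
    exact Submodule.add_mem _ hx hy
  | smul a x _ hx =>
    rw [J74.mulF_smul']
    exact Submodule.smul_mem _ _ hx

theorem J1_right {c : X → F} (hc : CC f Y c) {w : X → F} (hw : w ∈ J1C f Y) :
    mulF w c ∈ J1C f Y := by
  induction hw using Submodule.span_induction with
  | mem x hx =>
    obtain ⟨z, c', hz, hn, hc', rfl⟩ := hx
    apply Submodule.subset_span
    exact ⟨z, mulF c' c, hz, hn, hc'.mul hc, by rw [mulF_assoc]⟩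
  | zero =>
    have := (mR c).map_zero
    change mulF 0 c = 0 at this
    rw [this]
    exact Submodule.zero_mem _
  | add x y _ _ hx hy =>
    rw [J74.add_mulF']
    exact Submodule.add_mem _ hx hy
  | smul a x _ hx =>
    rw [J74.smul_mulF']
    exact Submodule.smul_mem _ _ hx

end J1

variable {F X : Type} [Field F] [Group X] [Finite X] {Y : Subgroup X} [hY : Y.Normal]
  {f : X → F}

/-! ### the units of the double modulo `J₁ C` -/

theorem CE_sig1 (hf : SBlk Y f) {v v' : X → F} (hv : CE f Y 1 v) (hv' : CE f Y 1 v') :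
    CE (sig Y f f) (YY2 Y) 1 (sig Y v v') := by
  apply CE_sig (p := (1 : Lam Y)) hf
  · exact hv
  · change CE f Y (1 : X)⁻¹ v'
    rw [inv_one]
    exact hv'

theorem sig_nil_left {n b : X → F} (hn : ∀ h, h ∉ Y → n h = 0) (hb : ∀ h, h ∉ Y → b h = 0)
    (h : ∃ k : ℕ, ma n ^ k = 0) : ∃ k : ℕ, ma (sig Y n b) ^ k = 0 := by
  obtain ⟨k, hk⟩ := (J74.nil_iff n).2 h
  rw [← J74.nil_iff]
  have h1 : ∀ j : ℕ, ∃ c, (mulF (sig Y n b))^[j] (sig Y n b) = sig Y ((mulF n)^[j] n) c := by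
    intro j
    induction j with
    | zero => exact ⟨b, rfl⟩
    | succ j ih =>
      obtain ⟨c, hc⟩ := ih
      refine ⟨mulF c b, ?_⟩
      rw [Function.iterate_succ_apply', hc, sig_mul (a := 1) _ _
        (fun h hh => hn h (by simpa using hh)) (fun h hh => hb h (by simpa using hh)),
        Function.iterate_succ_apply']
  obtain ⟨c, hc⟩ := h1 k
  refine ⟨k, ?_⟩
  rw [hc, hk]
  funext p
  change (0 : F) * _ = 0
  rw [zero_mul]

theorem sig_nil_right {b n : X → F} (hb : ∀ h, h ∉ Y → b h = 0) (hn : ∀ h, h ∉ Y → n h = 0)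
    (h : ∃ k : ℕ, ma n ^ k = 0) : ∃ k : ℕ, ma (sig Y b n) ^ k = 0 := by
  obtain ⟨k, hk⟩ := (J74.nil_iff n).2 h
  rw [← J74.nil_iff]
  have h1 : ∀ j : ℕ, ∃ c, (mulF (sig Y b n))^[j] (sig Y b n) = sig Y c ((mulF n)^[j] n) := by
    intro j
    induction j with
    | zero => exact ⟨b, rfl⟩
    | succ j ih =>
      obtain ⟨c, hc⟩ := ih
      refine ⟨mulF b c, ?_⟩
      have h2 : mulF ((mulF n)^[j] n) n = mulF n ((mulF n)^[j] n) := by
        apply ma_injective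
        rw [ma_mul, ma_mul, ma_iterate, ← mul_assoc, ← pow_succ', ← pow_succ]
      rw [Function.iterate_succ_apply', hc, sig_mul (a := 1) _ _
        (fun h hh => hb h (by simpa using hh)) (fun h hh => hn h (by simpa using hh)),
        Function.iterate_succ_apply', h2]
  obtain ⟨c, hc⟩ := h1 k
  refine ⟨k, ?_⟩
  rw [hc, hk]
  funext p
  change _ * (0 : F) = 0
  rw [mul_zero]

/-- the element `z ⊗ S(z⁻¹)` has residue one -/
theorem sig_res (hF : IsAlgClosed F) (hf : SBlk Y f) {z z' : X → F} (hz : CE f Y 1 z)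
    (hz' : CE f Y 1 z') (h : mulF z z' = f) :
    ∃ k : ℕ, (mulF (sig Y z z' - sig Y f f))^[k] (sig Y z z' - sig Y f f) = 0 := by
  have hg := sblk_sig (Y := Y) hF hf
  have hff := J74.f_CE hf
  have h1 : lamJ f z * lamJ f z' = 1 := by
    rw [← J74.lam_mul hF hY hf hz hz', h, J74.lam_f hF hf]
  have hA : CE (sig Y f f) (YY2 Y) 1 (sig Y (z - lamJ f z • f) z') :=
    CE_sig1 hf (hz.sub (hff.smul _)) hz'
  have hB : CE (sig Y f f) (YY2 Y) 1 (sig Y (lamJ f z • f) (z' - lamJ f z' • f)) :=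
    CE_sig1 hf (hff.smul _) (hz'.sub (hff.smul _))
  have e : sig Y z z' - sig Y f f =
      sig Y (z - lamJ f z • f) z' + sig Y (lamJ f z • f) (z' - lamJ f z' • f) := by
    funext p
    change z p.1.1 * z' (p.1.2)⁻¹ - f p.1.1 * f (p.1.2)⁻¹ =
      (z p.1.1 - lamJ f z * f p.1.1) * z' (p.1.2)⁻¹ +
      (lamJ f z * f p.1.1) * (z' (p.1.2)⁻¹ - lamJ f z' * f (p.1.2)⁻¹)
    linear_combination (f p.1.1 * f (p.1.2)⁻¹) * h1
  have nA : IsNilpotent (J74.zy hA) := by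
    rw [J74.nil_zy]
    apply sig_nil_left (hz.sub (hff.smul _)).supp1 hz'.supp1
    have := J74.isRes_lam hF hf hz
    rw [J74.isRes_iff] at this
    rwa [ma_sub, ma_smul]
  have nB : IsNilpotent (J74.zy hB) := by
    rw [J74.nil_zy]
    apply sig_nil_right (hff.smul _).supp1 (hz'.sub (hff.smul _)).supp1
    have := J74.isRes_lam hF hf hz'
    rw [J74.isRes_iff] at this
    rwa [ma_sub, ma_smul]
  have nAB : IsNilpotent (J74.zy (hA.add hB)) := by
    have h2 : J74.zy (hA.add hB) = J74.zy hA + J74.zy hB := Subtype.ext (ma_add _ _)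
    rw [h2]
    exact (Commute.all _ _).isNilpotent_add nA nB
  rw [e, J74.nil_iff]
  rw [J74.nil_zy] at nAB
  exact nAB

/-- CAN: the unit `v ⊗ S(v')` is canonical modulo `J₁ C`. -/
theorem can (hF : IsAlgClosed F) (hf : SBlk Y f) {p : Lam Y} {v v' w w' : X → F}
    (hv : IsUnitOver f Y p.1.1 v v') (hw : IsUnitOver f Y p.1.1 w w') :
    sig Y v v' - sig Y w w' ∈ J1C (sig Y f f) (YY2 Y) := by
  have hz : CE f Y 1 (mulF v w') := by
    have := hv.left.mul hY hw.right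
    rwa [mul_inv_cancel] at this
  have hz' : CE f Y 1 (mulF w v') := by
    have := hw.left.mul hY hv.right
    rwa [mul_inv_cancel] at this
  have hww := J74.unit_symm hY hf hw
  have hzz : mulF (mulF v w') (mulF w v') = f := by
    rw [mulF_assoc, ← mulF_assoc w' w, hww, hv.right.abs, hv.mul]
  have e1 : mulF (mulF v w') w = v := by
    rw [mulF_assoc, hww, J74.abs_right hf hv.left.abs]
  have e2 : mulF w' (mulF w v') = v' := by
    rw [← mulF_assoc, hww, hv.right.abs]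
  have e3 : sig Y v v' = mulF (sig Y (mulF v w') (mulF w v')) (sig Y w w') := by
    rw [sig_mul (a := 1) _ _ (fun h hh => hz.supp1 h (by simpa using hh))
      (fun h hh => hz'.supp1 h (by simpa using hh)), e1, e2]
  have e4 : mulF (sig Y f f) (sig Y w w') = sig Y w w' := (CE_sig hf hw.left hw.right).abs
  have e5 : sig Y v v' - sig Y w w' =
      mulF (sig Y (mulF v w') (mulF w v') - sig Y f f) (sig Y w w') := by
    have := (mR (sig Y w w')).map_sub (sig Y (mulF v w') (mulF w v')) (sig Y f f)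
    change mulF (sig Y (mulF v w') (mulF w v') - sig Y f f) (sig Y w w') =
      mulF (sig Y (mulF v w') (mulF w v')) (sig Y w w') - mulF (sig Y f f) (sig Y w w') at this
    rw [this, ← e3, e4]
  rw [e5]
  apply Submodule.subset_span
  refine ⟨_, _, ?_, sig_res hF hf hz hz' hzz, (CE_sig hf hw.left hw.right).cc, rfl⟩
  exact (CE_sig1 hf hz hz').sub (J74.f_CE (sblk_sig hF hf))

/-- the element `σ_q` of the double, `q ∈ X / Y` -/
def sg (f : X → F) (Y : Subgroup X) [Y.Normal] (q : X ⧸ Y) : Lam Y → F :=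
  open Classical in if h : ∃ v v', IsUnitOver f Y q.out v v' then
    sig Y h.choose h.choose_spec.choose else 0

/-- the inverse -/
def sgi (f : X → F) (Y : Subgroup X) [Y.Normal] (q : X ⧸ Y) : Lam Y → F :=
  open Classical in if h : ∃ v v', IsUnitOver f Y q.out v v' then
    sig Y h.choose_spec.choose h.choose else 0

theorem sg_spec (hf : SBlk Y f) {g : X} (hg : g ∈ XF f Y) : ∃ v v', IsUnitOver f Y g v v' ∧
    sg f Y (g : X ⧸ Y) = sig Y v v' ∧ sgi f Y (g : X ⧸ Y) = sig Y v' v := by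
  have h1 : ((g : X ⧸ Y).out)⁻¹ * g ∈ Y := QuotientGroup.eq.1 (QuotientGroup.out_eq' (g : X ⧸ Y))
  have h2 : (g : X ⧸ Y).out ∈ XF f Y := by
    have h3 := (XF f Y).mul_mem hg (J74.le_XF hY hf (Y.inv_mem h1))
    have e : g * ((((g : X ⧸ Y).out)⁻¹ * g))⁻¹ = (g : X ⧸ Y).out := by group
    rwa [e] at h3
  have h : ∃ v v', IsUnitOver f Y (g : X ⧸ Y).out v v' := (J74.mem_XF hY hf _).1 h2
  refine ⟨h.choose, h.choose_spec.choose, ?_, ?_, ?_⟩
  · have h3 := J74.unit_congr hY h1 h.choose_spec.choose_spec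
    rwa [mul_inv_cancel_left] at h3
  · unfold sg
    rw [dif_pos h]
  · unfold sgi
    rw [dif_pos h]

/-- the element `(g, g)` of the double -/
def dg (Y : Subgroup X) [Y.Normal] (g : X) : Lam Y := ⟨(g, g), by
  change g⁻¹ * g ∈ Y
  rw [inv_mul_cancel]
  exact Y.one_mem⟩

theorem sg_can (hF : IsAlgClosed F) (hf : SBlk Y f) {g : X} {v v' : X → F}
    (h : IsUnitOver f Y g v v') :
    sig Y v v' - sg f Y (g : X ⧸ Y) ∈ J1C (sig Y f f) (YY2 Y) := by
  obtain ⟨w, w', hw, h1, -⟩ := sg_spec hf ((J74.mem_XF hY hf g).2 ⟨v, v', h⟩)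
  rw [h1]
  exact can (p := dg Y g) hF hf h hw

theorem sg_one (hF : IsAlgClosed F) (hf : SBlk Y f) :
    sig Y f f - sg f Y (1 : X ⧸ Y) ∈ J1C (sig Y f f) (YY2 Y) :=
  sg_can hF hf (J74.unit_one hf)

theorem sg_mul (hF : IsAlgClosed F) (hf : SBlk Y f) {a b : X} (ha : a ∈ XF f Y)
    (hb : b ∈ XF f Y) : mulF (sg f Y (a : X ⧸ Y)) (sg f Y (b : X ⧸ Y)) -
      sg f Y ((a * b : X) : X ⧸ Y) ∈ J1C (sig Y f f) (YY2 Y) := by
  obtain ⟨v, v', hv, h1, -⟩ := sg_spec hf ha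
  obtain ⟨w, w', hw, h2, -⟩ := sg_spec hf hb
  rw [h1, h2, sig_mul (a := a) _ _ hv.left.supp (fun h hh => hv.right.supp h (by rwa [inv_inv]))]
  exact sg_can hF hf (J74.unit_mul hY hf hv hw)

theorem cjF_sig (x : Lam Y) (v v' : X → F) :
    cjF x (sig Y v v') = sig Y (cjF x.1.1 v) (cjF x.1.2 v') := by
  funext h
  change v (x.1.1⁻¹ * h.1.1 * x.1.1) * v' (x.1.2⁻¹ * h.1.2 * x.1.2)⁻¹ =
    v (x.1.1⁻¹ * h.1.1 * x.1.1) * v' (x.1.2⁻¹ * (h.1.2)⁻¹ * x.1.2)
  congr 2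
  group

theorem cjF_snd (x : Lam Y) {c : X → F} (hc : CC f Y c) : cjF x.1.2 c = cjF x.1.1 c := by
  have h : x.1.1⁻¹ * x.1.2 ∈ Y := x.2
  have h1 := H20.cjF_cjF x.1.1 (x.1.1⁻¹ * x.1.2) c
  rw [J74.cjF_memY h hc, mul_inv_cancel_left] at h1
  exact h1.symm

theorem sg_conj (hF : IsAlgClosed F) (hf : SBlk Y f) (x : Lam Y) {a : X} (ha : a ∈ XF f Y) :
    cjF x (sg f Y (a : X ⧸ Y)) - sg f Y ((x.1.1 * a * x.1.1⁻¹ : X) : X ⧸ Y) ∈
      J1C (sig Y f f) (YY2 Y) := by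
  obtain ⟨v, v', hv, h1, -⟩ := sg_spec hf ha
  rw [h1, cjF_sig, cjF_snd x hv.right.cc]
  exact sg_can hF hf (J74.unit_conj hY hf hv x.1.1)

theorem sg_unit (hf : SBlk Y f) {p : Lam Y} (hp : p.1.1 ∈ XF f Y) :
    IsUnitOver (sig Y f f) (YY2 Y) p (sg f Y (p.1.1 : X ⧸ Y)) (sgi f Y (p.1.1 : X ⧸ Y)) := by
  obtain ⟨v, v', hv, h1, h2⟩ := sg_spec hf hp
  rw [h1, h2]
  exact unit_sig hf hv

end Pool.Agent.PP.H46
end
end -- Pool.Agent.Helper46_PP.Db1b

section -- Pool.Agent.Helper46_PP.Db1g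

/-!
# Squad PP, module DB1: group theory (the `ℓ'`-part of a nilpotent normal subgroup)
-/

noncomputable section

namespace Pool.Agent.PP.H46

/-- A finite nilpotent group has a normal subgroup of order prime to `ℓ` and index a power of
`ℓ`. -/
theorem nil_compl' {V : Type} [Group V] [Finite V] (hV : Group.IsNilpotent V) (ℓ : ℕ)
    [hl : Fact ℓ.Prime] : ∃ V₀ : Subgroup V, V₀.Normal ∧ ¬ ℓ ∣ Nat.card V₀ ∧
    ∃ n : ℕ, V₀.index = ℓ ^ n := by
  classical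
  by_cases hd : ℓ ∣ Nat.card V
  · obtain ⟨e⟩ := ((Group.isNilpotent_of_finite_tfae (G := V)).out 0 4).1 hV
    have hmem : ℓ ∈ (Nat.card V).primeFactors :=
      Nat.mem_primeFactors.2 ⟨hl.out, hd, Nat.card_pos.ne'⟩
    obtain ⟨P⟩ := (inferInstance : Nonempty (Sylow ℓ V))
    let π₁ : (∀ p : (Nat.card V).primeFactors, ∀ P : Sylow p V, (P : Subgroup V)) →*
        (∀ P : Sylow ℓ V, (P : Subgroup V)) :=
      Pi.evalMonoidHom (fun p : (Nat.card V).primeFactors => ∀ P : Sylow p V, (P : Subgroup V))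
        ⟨ℓ, hmem⟩
    let π₂ : (∀ P : Sylow ℓ V, (P : Subgroup V)) →* (P : Subgroup V) :=
      Pi.evalMonoidHom (fun P : Sylow ℓ V => (P : Subgroup V)) P
    have hs₁ : Function.Surjective π₁ := Function.surjective_eval _
    have hs₂ : Function.Surjective π₂ := Function.surjective_eval _
    let π : V →* (P : Subgroup V) := (π₂.comp π₁).comp e.symm.toMonoidHom
    have hπ : Function.Surjective π := (hs₂.comp hs₁).comp e.symm.surjective
    have hidx : π.ker.index = ℓ ^ (Nat.card V).factorization ℓ := by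
      rw [Subgroup.index_ker, MonoidHom.range_eq_top.2 hπ, Subgroup.card_top]
      exact P.card_eq_multiplicity
    refine ⟨π.ker, inferInstance, ?_, _, hidx⟩
    intro h
    have h1 := π.ker.card_mul_index
    rw [hidx] at h1
    have h2 : ℓ * ℓ ^ (Nat.card V).factorization ℓ ∣ Nat.card V :=
      (Nat.mul_dvd_mul h (dvd_refl _)).trans (dvd_of_eq h1)
    rw [mul_comm, ← pow_succ] at h2
    exact Nat.pow_succ_factorization_not_dvd (Nat.card_pos (α := V)).ne' hl.out h2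
  · exact ⟨⊤, inferInstance, by rwa [Subgroup.card_top], 0, by rw [Subgroup.index_top, pow_zero]⟩

/-- the `ℓ'`-part of a nilpotent normal subgroup -/
theorem nil_part {G : Type} [Group G] [Finite G] {J : Subgroup G} (hJ : J.Normal) {m : ℕ}
    (hm : Subgroup.lowerCentralSeries J m = ⊥) (ℓ : ℕ) [hl : Fact ℓ.Prime] :
    ∃ H : Subgroup G, H.Normal ∧ H ≤ J ∧ ¬ ℓ ∣ Nat.card H ∧ ∃ n : ℕ, ∀ q ∈ J, q ^ (ℓ ^ n) ∈ H := by
  have hV : Group.IsNilpotent J := by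
    rw [Subgroup.nilpotent_iff_lowerCentralSeries]
    refine ⟨m, ?_⟩
    have h1 := Subgroup.map_lowerCentralSeries (⊤ : Subgroup J) J.subtype m
    rw [← MonoidHom.range_eq_map, Subgroup.range_subtype, hm] at h1
    exact (Subgroup.map_eq_bot_iff_of_injective _ J.subtype_injective).1 h1
  obtain ⟨V₀, h1, h2, n, h3⟩ := nil_compl' hV ℓ
  have key : ∀ q : J, (orderOf q).Coprime ℓ → q ∈ V₀ := by
    intro q hq
    rw [← QuotientGroup.eq_one_iff, ← orderOf_eq_one_iff]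
    have h4 : orderOf (q : J ⧸ V₀) ∣ orderOf q := orderOf_map_dvd (QuotientGroup.mk' V₀) q
    have h5 : orderOf (q : J ⧸ V₀) ∣ ℓ ^ n := by
      rw [← h3]
      exact orderOf_dvd_natCard _
    exact Nat.eq_one_of_dvd_coprimes (Nat.Coprime.pow_right n hq) h4 h5
  have key2 : ∀ q : J, q ∈ V₀ → (orderOf q).Coprime ℓ := by
    intro q hq
    have h4 : orderOf q ∣ Nat.card V₀ := by
      have h5 := orderOf_dvd_natCard (⟨q, hq⟩ : V₀)
      rwa [Subgroup.orderOf_mk] at h5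
    rw [Nat.coprime_comm, Nat.Prime.coprime_iff_not_dvd hl.out]
    exact fun h => h2 (h.trans h4)
  refine ⟨V₀.map J.subtype, ⟨?_⟩, ?_, ?_, n, ?_⟩
  · rintro _ ⟨v, hv, rfl⟩ g
    have h4 : g * (v : G) * g⁻¹ ∈ J := hJ.conj_mem _ v.2 g
    refine ⟨⟨_, h4⟩, ?_, rfl⟩
    apply key
    have h5 : orderOf (⟨g * (v : G) * g⁻¹, h4⟩ : J) = orderOf v := by
      rw [Subgroup.orderOf_mk, ← Subgroup.orderOf_coe v]
      exact orderOf_injective (MulAut.conj g).toMonoidHom (MulAut.conj g).injective (v : G)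
    rw [h5]
    exact key2 v hv
  · rintro _ ⟨v, _, rfl⟩
    exact v.2
  · rw [Nat.card_congr (Subgroup.equivMapOfInjective V₀ J.subtype J.subtype_injective).symm.toEquiv]
    exact h2
  · intro q hq
    refine ⟨(⟨q, hq⟩ : J) ^ (ℓ ^ n), ?_, rfl⟩
    have h4 := V₀.pow_index_mem (⟨q, hq⟩ : J)
    rwa [h3] at h4

end Pool.Agent.PP.H46
end
end -- Pool.Agent.Helper46_PP.Db1g

section -- Pool.Agent.Helper46_PP.Db1c

/-!
# Squad PP, module DB1 (AWC_J 7.4, 7.5): the element `s` and the idempotent `E`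
-/

open scoped BigOperators

set_option linter.unusedSectionVars false

noncomputable section

namespace Pool.Agent.PP.H46

open Pool.Agent.PP

section de

variable {F X : Type} [Field F] [Group X] [Finite X] {Y M : Subgroup X} {f : X → F}

/-- the elements of `D` as a subspace -/
def DEs (f : X → F) (Y M : Subgroup X) : Submodule F (X → F) where
  carrier := {d | DE f Y M d}
  zero_mem' := ⟨⟨fun _ _ _ => rfl, (mL f).map_zero⟩, fun _ _ => rfl⟩
  add_mem' := by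
    intro u v hu hv
    refine ⟨⟨fun n hn h => ?_, ?_⟩, fun h hh => ?_⟩
    · rw [Pi.add_apply, Pi.add_apply, hu.cc.inv n hn, hv.cc.inv n hn]
    · rw [J74.mulF_add', hu.cc.abs, hv.cc.abs]
    · rw [Pi.add_apply, hu.supp h hh, hv.supp h hh, add_zero]
  smul_mem' := by
    intro c u hu
    refine ⟨⟨fun n hn h => ?_, ?_⟩, fun h hh => ?_⟩
    · rw [Pi.smul_apply, Pi.smul_apply, hu.cc.inv n hn]
    · rw [J74.mulF_smul', hu.cc.abs]
    · rw [Pi.smul_apply, hu.supp h hh, smul_zero]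

theorem mem_DEs {d : X → F} : d ∈ DEs f Y M ↔ DE f Y M d := Iff.rfl

end de

variable {F X : Type} [Field F] [Group X] [Finite X] {Y : Subgroup X} [hY : Y.Normal]
  {f : X → F}

/-- the image of `X[f]` in `X / Y` -/
def Jb (f : X → F) (Y : Subgroup X) [Y.Normal] : Subgroup (X ⧸ Y) :=
  (XF f Y).map (QuotientGroup.mk' Y)

theorem mem_Jb {q : X ⧸ Y} : q ∈ Jb f Y ↔ ∃ a ∈ XF f Y, (a : X ⧸ Y) = q := Iff.rfl

theorem Jb_normal (hf : SBlk Y f) : (Jb f Y).Normal :=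
  (J74.XF_normal hY hf).map _ (QuotientGroup.mk'_surjective Y)

theorem M_normal (hf : SBlk Y f) : (fstP Y (XF f Y)).Normal :=
  (J74.XF_normal hY hf).comap _

theorem N_le_M (hf : SBlk Y f) : YY2 Y ≤ fstP Y (XF f Y) := fun _ hp =>
  J74.le_XF hY hf hp.1

theorem M_le_XF (hF : IsAlgClosed F) (hf : SBlk Y f) :
    fstP Y (XF f Y) ≤ XF (sig Y f f) (YY2 Y) := fun p hp =>
  (J74.mem_XF normal_YY2 (sblk_sig hF hf) p).2 ⟨_, _, sg_unit hf hp⟩

theorem sg_DE (hf : SBlk Y f) {q : X ⧸ Y} (hq : q ∈ Jb f Y) :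
    DE (sig Y f f) (YY2 Y) (fstP Y (XF f Y)) (sg f Y q) := by
  obtain ⟨a, ha, rfl⟩ := mem_Jb.1 hq
  exact H58.CE_DE (N_le_M hf) (g := dg Y a) ha (sg_unit (p := dg Y a) hf ha).left

/-- reduction modulo `J₁ C` -/
abbrev pj (f : X → F) (Y : Subgroup X) [Y.Normal] :
    (Lam Y → F) →ₗ[F] ((Lam Y → F) ⧸ J1C (sig Y f f) (YY2 Y)) :=
  (J1C (sig Y f f) (YY2 Y)).mkQ

theorem pj_iff {u v : Lam Y → F} :
    pj f Y u = pj f Y v ↔ u - v ∈ J1C (sig Y f f) (YY2 Y) := by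
  rw [Submodule.mkQ_apply, Submodule.mkQ_apply]
  exact Submodule.Quotient.eq _

theorem sg_mul' (hF : IsAlgClosed F) (hf : SBlk Y f) {q r : X ⧸ Y} (hq : q ∈ Jb f Y)
    (hr : r ∈ Jb f Y) : pj f Y (mulF (sg f Y q) (sg f Y r)) = pj f Y (sg f Y (q * r)) := by
  obtain ⟨a, ha, rfl⟩ := mem_Jb.1 hq
  obtain ⟨b, hb, rfl⟩ := mem_Jb.1 hr
  exact pj_iff.2 (sg_mul hF hf ha hb)

theorem sg_conj' (hF : IsAlgClosed F) (hf : SBlk Y f) (x : Lam Y) {q : X ⧸ Y}
    (hq : q ∈ Jb f Y) : pj f Y (cjF x (sg f Y q)) =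
      pj f Y (sg f Y ((x.1.1 : X ⧸ Y) * q * (x.1.1 : X ⧸ Y)⁻¹)) := by
  obtain ⟨a, ha, rfl⟩ := mem_Jb.1 hq
  exact pj_iff.2 (sg_conj hF hf x ha)

/-- the element `s` -/
def sel (f : X → F) (Y : Subgroup X) [Y.Normal] (H : Subgroup (X ⧸ Y)) [Fintype H] : Lam Y → F :=
  (Fintype.card H : F)⁻¹ • ∑ q : H, sg f Y (q : X ⧸ Y)

variable {H : Subgroup (X ⧸ Y)} [Fintype H]

theorem sel_DE (hf : SBlk Y f) (hH : H ≤ Jb f Y) :
    DE (sig Y f f) (YY2 Y) (fstP Y (XF f Y)) (sel f Y H) := by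
  rw [← mem_DEs]
  exact Submodule.smul_mem _ _ (Submodule.sum_mem _ fun q _ => sg_DE hf (hH q.2))

theorem pj_sel : pj f Y (sel f Y H) = (Fintype.card H : F)⁻¹ • ∑ q : H, pj f Y (sg f Y q) := by
  unfold sel
  rw [map_smul, map_sum]

theorem pj_mul_sel_left {c : Lam Y → F} : pj f Y (mulF c (sel f Y H)) =
    (Fintype.card H : F)⁻¹ • ∑ q : H, pj f Y (mulF c (sg f Y q)) := by
  have h := (pj f Y ∘ₗ mL c).map_smul ((Fintype.card H : F)⁻¹) (∑ q : H, sg f Y (q : X ⧸ Y))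
  rw [map_sum] at h
  exact h

theorem pj_mul_sel_right {c : Lam Y → F} : pj f Y (mulF (sel f Y H) c) =
    (Fintype.card H : F)⁻¹ • ∑ q : H, pj f Y (mulF (sg f Y q) c) := by
  have h := (pj f Y ∘ₗ mR c).map_smul ((Fintype.card H : F)⁻¹) (∑ q : H, sg f Y (q : X ⧸ Y))
  rw [map_sum] at h
  exact h

theorem pj_cj_sel {x : Lam Y} : pj f Y (cjF x (sel f Y H)) =
    (Fintype.card H : F)⁻¹ • ∑ q : H, pj f Y (cjF x (sg f Y q)) := by
  have h := (pj f Y ∘ₗ cL x).map_smul ((Fintype.card H : F)⁻¹) (∑ q : H, sg f Y (q : X ⧸ Y))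
  rw [map_sum] at h
  exact h

/-- `s` is fixed by the multiplication with `σ_q`, `q ∈ H`, modulo `J₁ C` -/
theorem sg_sel (hF : IsAlgClosed F) (hf : SBlk Y f) (hH : H ≤ Jb f Y) (q : H) :
    pj f Y (mulF (sg f Y (q : X ⧸ Y)) (sel f Y H)) = pj f Y (sel f Y H) := by
  rw [pj_mul_sel_left, pj_sel]
  congr 1
  refine Fintype.sum_equiv (Equiv.mulLeft q) _ _ fun r => ?_
  exact sg_mul' hF hf (hH q.2) (hH r.2)

/-- `s` is an idempotent modulo `J₁ C` -/
theorem sel_idem (hF : IsAlgClosed F) (hf : SBlk Y f) (hH : H ≤ Jb f Y)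
    (hc : (Fintype.card H : F) ≠ 0) :
    mulF (sel f Y H) (sel f Y H) - sel f Y H ∈ J1C (sig Y f f) (YY2 Y) := by
  rw [← pj_iff, pj_mul_sel_right]
  simp_rw [sg_sel hF hf hH]
  rw [Finset.sum_const, Finset.card_univ, ← Nat.cast_smul_eq_nsmul F, smul_smul,
    inv_mul_cancel₀ hc, one_smul]

/-- `s` commutes with the units modulo `J₁ C` -/
theorem sel_comm_sg (hF : IsAlgClosed F) (hf : SBlk Y f) (hH : H ≤ Jb f Y) (hn : H.Normal)
    {r : X ⧸ Y} (hr : r ∈ Jb f Y) : pj f Y (mulF (sel f Y H) (sg f Y r)) =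
      pj f Y (mulF (sg f Y r) (sel f Y H)) := by
  rw [pj_mul_sel_left, pj_mul_sel_right]
  congr 1
  refine Fintype.sum_equiv (MulAut.conjNormal r⁻¹ : MulAut H).toEquiv _ _ fun q => ?_
  rw [sg_mul' hF hf (hH q.2) hr, sg_mul' hF hf hr (hH (SetLike.coe_mem _))]
  congr 2
  change (q : X ⧸ Y) * r = r * (((MulAut.conjNormal r⁻¹ : MulAut H) q : H) : X ⧸ Y)
  rw [MulAut.conjNormal_apply]
  group

theorem sel_comm (hF : IsAlgClosed F) (hf : SBlk Y f) (hH : H ≤ Jb f Y) (hn : H.Normal)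
    {d : Lam Y → F} (hd : DE (sig Y f f) (YY2 Y) (fstP Y (XF f Y)) d) :
    mulF (sel f Y H) d - mulF d (sel f Y H) ∈ J1C (sig Y f f) (YY2 Y) := by
  have hg := sblk_sig (Y := Y) hF hf
  have hd' := H58.DE_span hg normal_YY2 (N_le_M hf) hd
  have hs := sel_DE hf hH
  clear hd
  induction hd' using Submodule.span_induction with
  | mem x hx =>
    obtain ⟨p, hp, hx⟩ := hx
    obtain ⟨z, hz, rfl⟩ := J74.unit_span normal_YY2 hg (sg_unit hf hp) hx
    have hp' : (p.1.1 : X ⧸ Y) ∈ Jb f Y := mem_Jb.2 ⟨_, hp, rfl⟩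
    have e1 : mulF (sel f Y H) (mulF z (sg f Y (p.1.1 : X ⧸ Y))) =
        mulF z (mulF (sel f Y H) (sg f Y (p.1.1 : X ⧸ Y))) := by
      rw [← mulF_assoc, ← J74.C1_comm hz hs.cc, mulF_assoc]
    rw [e1, mulF_assoc, ← J74.mulF_sub']
    exact J1_left hz.cc (pj_iff.1 (sel_comm_sg hF hf hH hn hp'))
  | zero =>
    have h1 := (mL (sel f Y H)).map_zero
    have h2 := (mR (sel f Y H)).map_zero
    change mulF _ 0 = 0 at h1
    change mulF 0 _ = 0 at h2
    rw [h1, h2, sub_zero]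
    exact Submodule.zero_mem _
  | add x y _ _ hx hy =>
    rw [J74.mulF_add', J74.add_mulF', add_sub_add_comm]
    exact Submodule.add_mem _ hx hy
  | smul a x _ hx =>
    rw [J74.mulF_smul', J74.smul_mulF', ← smul_sub]
    exact Submodule.smul_mem _ _ hx

theorem sel_conj (hF : IsAlgClosed F) (hf : SBlk Y f) (hH : H ≤ Jb f Y) (hn : H.Normal)
    (x : Lam Y) : cjF x (sel f Y H) - sel f Y H ∈ J1C (sig Y f f) (YY2 Y) := by
  rw [← pj_iff, pj_cj_sel, pj_sel]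
  congr 1
  refine Fintype.sum_equiv (MulAut.conjNormal (x.1.1 : X ⧸ Y) : MulAut H).toEquiv _ _ fun q => ?_
  rw [sg_conj' hF hf x (hH q.2)]
  rfl

/-- the idempotent `E` -/
theorem exists_E {ℓ : ℕ} (hF : GoodF ℓ F) (hf : SBlk Y f) (hH : H ≤ Jb f Y) (hn : H.Normal)
    (hc : (Fintype.card H : F) ≠ 0) : ∃ E : Lam Y → F, IsIdem E ∧
      (∀ h, h ∉ fstP Y (XF f Y) → E h = 0) ∧ mulF E (sig Y f f) = E ∧
      E - sel f Y H ∈ J1C (sig Y f f) (YY2 Y) :=
  H76.lft ℓ F hF (Lam Y) (YY2 Y) normal_YY2 _ (sblk_sig hF.closed hf) _ (M_normal hf)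
    (N_le_M hf) (M_le_XF hF.closed hf) _ (sel_DE hf hH) (sel_idem hF.closed hf hH hc)
    (fun _ hd => sel_comm hF.closed hf hH hn hd) (sel_conj hF.closed hf hH hn)

end Pool.Agent.PP.H46
end
end -- Pool.Agent.Helper46_PP.Db1c

section -- Pool.Agent.Helper46_PP.Db1d

/-!
# Squad PP, module DB1 (AWC_J 7.5): the one dimensional representation of `D E`
-/

open scoped BigOperators

set_option linter.unusedSectionVars false

noncomputable section

namespace Pool.Agent.PP.H46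

open Pool.Agent.PP

section lam

variable {F X : Type} [Field F] [Group X] [Finite X] {Y : Subgroup X} {f : X → F}

theorem lam_J1 (hF : IsAlgClosed F) (hf : SBlk Y f) {w : X → F} (hw : CE f Y 1 w)
    (h : w ∈ J1C f Y) : lamJ f w = 0 := by
  apply J74.lam_eq hF hf hw
  unfold IsRes
  rw [zero_smul, sub_zero, J74.nil_iff]
  exact (J74.J1C_nil h).2

theorem mulF_zero' (u : X → F) : mulF u 0 = 0 := (mL u).map_zero

theorem zero_mulF' (u : X → F) : mulF 0 u = 0 := (mR u).map_zero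

theorem CE_zero (g : X) : CE f Y g (0 : X → F) :=
  ⟨fun _ _ => rfl, fun _ _ _ => rfl, mulF_zero' f⟩

theorem lam_zero0 (hF : IsAlgClosed F) (hf : SBlk Y f) : lamJ f (0 : X → F) = 0 := by
  have h := J74.lam_smul hF hf 0 (J74.f_CE hf)
  rwa [zero_smul, zero_mul] at h

theorem cj_iter (x : X) (z : X → F) (n : ℕ) :
    (mulF (cjF x z))^[n] (cjF x z) = cjF x ((mulF z)^[n] z) := by
  induction n with
  | zero => rfl
  | succ n ih =>
    rw [Function.iterate_succ_apply', Function.iterate_succ_apply', ih, J74.cjF_mul]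

theorem lam_cj (hF : IsAlgClosed F) (hY : Y.Normal) (hf : SBlk Y f) {z : X → F}
    (hz : CE f Y 1 z) (x : X) : CE f Y 1 (cjF x z) ∧ lamJ f (cjF x z) = lamJ f z := by
  have h1 : CE f Y 1 (cjF x z) := by
    have := CE.cjF hY hf hz x
    rwa [mul_one, mul_inv_cancel] at this
  refine ⟨h1, J74.lam_eq hF hf h1 ?_⟩
  obtain ⟨n, hn⟩ := J74.isRes_lam hF hf hz
  refine ⟨n, ?_⟩
  have e : cjF x z - lamJ f z • f = cjF x (z - lamJ f z • f) := by
    have h2 := (cL x).map_sub z (lamJ f z • f)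
    rw [(cL x).map_smul] at h2
    change cjF x (z - lamJ f z • f) = cjF x z - lamJ f z • cjF x f at h2
    rw [h2, J74.cjF_f hf]
  rw [e, cj_iter, hn]
  rfl

end lam

variable {F X : Type} [Field F] [Group X] [Finite X] {Y : Subgroup X} [hY : Y.Normal]
  {f : X → F}

/-- a coset in the double -/
def cs (Y : Subgroup X) [Y.Normal] (q : X ⧸ Y) : Set (Lam Y) := {p | (p.1.1 : X ⧸ Y) = q}

theorem cs_1 (q : X ⧸ Y) : ∀ t ∈ YY2 Y, ∀ h, t⁻¹ * h ∈ cs Y q ↔ h ∈ cs Y q := fun t ht h =>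
  H58.cst_1 hY q t.1.1 ht.1 h.1.1

theorem cs_2 (q : X ⧸ Y) : ∀ t ∈ YY2 Y, ∀ h, t * h * t⁻¹ ∈ cs Y q ↔ h ∈ cs Y q := fun t ht h =>
  H58.cst_2 hY q t.1.1 ht.1 h.1.1

theorem mem_YY2_of {p h : Lam Y} (hh : (h.1.1 : X ⧸ Y) = (p.1.1 : X ⧸ Y)) :
    p⁻¹ * h ∈ YY2 Y := by
  have h1 : p.1.1⁻¹ * h.1.1 ∈ Y := QuotientGroup.eq.1 hh.symm
  have h2 : p.1.1⁻¹ * p.1.2 ∈ Y := p.2
  have h3 : h.1.1⁻¹ * h.1.2 ∈ Y := h.2
  refine ⟨h1, ?_⟩
  change p.1.2⁻¹ * h.1.2 ∈ Y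
  have h4 := Y.mul_mem (Y.mul_mem (Y.inv_mem h2) h1) h3
  have e : (p.1.1⁻¹ * p.1.2)⁻¹ * (p.1.1⁻¹ * h.1.1) * (h.1.1⁻¹ * h.1.2) = p.1.2⁻¹ * h.1.2 := by
    group
  rwa [e] at h4

theorem pr_CE (hF : IsAlgClosed F) (hf : SBlk Y f) {d : Lam Y → F}
    (hd : CC (sig Y f f) (YY2 Y) d) (p : Lam Y) :
    CE (sig Y f f) (YY2 Y) p (H58.prM F (cs Y (p.1.1 : X ⧸ Y)) d) := by
  have h1 := H58.prM_CC (sblk_sig hF hf) (cs_1 (p.1.1 : X ⧸ Y)) (cs_2 (p.1.1 : X ⧸ Y)) hd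
  exact ⟨fun h hh => H58.prM_not fun hc => hh (mem_YY2_of hc), h1.inv, h1.abs⟩

theorem pr_self {p : Lam Y} {u : Lam Y → F} (hu : CE (sig Y f f) (YY2 Y) p u) :
    H58.prM F (cs Y (p.1.1 : X ⧸ Y)) u = u := by
  apply H58.prM_of_supp
  intro h hh
  apply hu.supp
  intro hc
  apply hh
  have h1 : p.1.1⁻¹ * h.1.1 ∈ Y := hc.1
  exact (QuotientGroup.eq.2 h1).symm

theorem pr_ne {p : Lam Y} {u : Lam Y → F} (hu : CE (sig Y f f) (YY2 Y) p u) {q : X ⧸ Y}
    (hq : q ≠ (p.1.1 : X ⧸ Y)) : H58.prM F (cs Y q) u = 0 := by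
  funext h
  by_cases hh : h ∈ cs Y q
  · rw [H58.prM_mem hh]
    apply hu.supp
    intro hc
    apply hq
    have h1 : p.1.1⁻¹ * h.1.1 ∈ Y := hc.1
    have h2 : (h.1.1 : X ⧸ Y) = q := hh
    rw [← h2]
    exact (QuotientGroup.eq.2 h1).symm
  · exact H58.prM_not hh

theorem pr_out {d : Lam Y → F}
    (hd : DE (sig Y f f) (YY2 Y) (fstP Y (XF f Y)) d) {q : X ⧸ Y} (hq : q ∉ Jb f Y) :
    H58.prM F (cs Y q) d = 0 := by
  funext h
  by_cases hh : h ∈ cs Y q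
  · rw [H58.prM_mem hh]
    apply hd.supp
    intro hc
    exact hq ⟨h.1.1, hc, hh⟩
  · exact H58.prM_not hh

theorem CE_w (hF : IsAlgClosed F) (hf : SBlk Y f) {d : Lam Y → F}
    (hd : DE (sig Y f f) (YY2 Y) (fstP Y (XF f Y)) d) (q : X ⧸ Y) :
    CE (sig Y f f) (YY2 Y) 1 (mulF (H58.prM F (cs Y q) d) (sgi f Y q)) := by
  by_cases hq : q ∈ Jb f Y
  · obtain ⟨a, ha, rfl⟩ := hq
    have h1 := pr_CE hF hf hd.cc (dg Y a)
    have h2 := (sg_unit (p := dg Y a) hf ha).right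
    have h3 := h1.mul normal_YY2 h2
    rw [mul_inv_cancel] at h3
    exact h3
  · rw [pr_out hd hq, zero_mulF']
    exact CE_zero _

theorem exists_w (hF : IsAlgClosed F) (hf : SBlk Y f) : ∃ w : (Lam Y → F) →ₗ[F] F,
    ∀ p ∈ fstP Y (XF f Y), ∀ u, CE (sig Y f f) (YY2 Y) p u →
      w u = lamJ (sig Y f f) (mulF u (sgi f Y (p.1.1 : X ⧸ Y))) := by
  classical
  have := Fintype.ofFinite (X ⧸ Y)
  have hg := sblk_sig (Y := Y) hF hf
  let w1 : DEs (sig Y f f) (YY2 Y) (fstP Y (XF f Y)) →ₗ[F] F :=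
    { toFun := fun d => ∑ q : X ⧸ Y, lamJ (sig Y f f)
        (mulF (H58.prM F (cs Y q) (d : Lam Y → F)) (sgi f Y q))
      map_add' := by
        intro a b
        rw [← Finset.sum_add_distrib]
        apply Finset.sum_congr rfl
        intro q _
        have h1 := (H58.prM F (cs Y q)).map_add (a : Lam Y → F) b
        change lamJ (sig Y f f) (mulF (H58.prM F (cs Y q) ((a : Lam Y → F) + b)) (sgi f Y q)) = _
        rw [h1, J74.add_mulF']
        exact J74.lam_add hF hg (CE_w hF hf a.2 q) (CE_w hF hf b.2 q)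
      map_smul' := by
        intro c a
        rw [RingHom.id_apply, smul_eq_mul, Finset.mul_sum]
        apply Finset.sum_congr rfl
        intro q _
        have h1 := (H58.prM F (cs Y q)).map_smul c (a : Lam Y → F)
        change lamJ (sig Y f f) (mulF (H58.prM F (cs Y q) (c • (a : Lam Y → F))) (sgi f Y q)) = _
        rw [h1, J74.smul_mulF']
        exact J74.lam_smul hF hg c (CE_w hF hf a.2 q) }
  obtain ⟨w, hw⟩ := LinearMap.exists_extend w1
  refine ⟨w, fun p hp u hu => ?_⟩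
  have hd := H58.CE_DE (N_le_M hf) hp hu
  have h1 : w u = w1 ⟨u, hd⟩ := by
    rw [← hw]
    rfl
  rw [h1]
  change ∑ q : X ⧸ Y, lamJ (sig Y f f) (mulF (H58.prM F (cs Y q) u) (sgi f Y q)) = _
  rw [Finset.sum_eq_single (p.1.1 : X ⧸ Y)]
  · rw [pr_self hu]
  · intro q _ hq
    rw [pr_ne hu hq, zero_mulF']
    exact lam_zero0 hF hg
  · intro h
    exact absurd (Finset.mem_univ _) h

section w

variable {w : (Lam Y → F) →ₗ[F] F}

/-- the property of the functional `w` -/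
def IsW (f : X → F) (Y : Subgroup X) [Y.Normal] (w : (Lam Y → F) →ₗ[F] F) : Prop :=
  ∀ p ∈ fstP Y (XF f Y), ∀ u, CE (sig Y f f) (YY2 Y) p u →
      w u = lamJ (sig Y f f) (mulF u (sgi f Y (p.1.1 : X ⧸ Y)))

theorem CE_w1 (hf : SBlk Y f) {p : Lam Y} (hp : p ∈ fstP Y (XF f Y)) {u : Lam Y → F}
    (hu : CE (sig Y f f) (YY2 Y) p u) :
    CE (sig Y f f) (YY2 Y) 1 (mulF u (sgi f Y (p.1.1 : X ⧸ Y))) := by
  have h := hu.mul normal_YY2 (sg_unit hf hp).right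
  rwa [mul_inv_cancel] at h

theorem w_J1 (hF : IsAlgClosed F) (hf : SBlk Y f) (hw : IsW f Y w) {p : Lam Y}
    (hp : p ∈ fstP Y (XF f Y)) {u : Lam Y → F} (hu : CE (sig Y f f) (YY2 Y) p u)
    (h : u ∈ J1C (sig Y f f) (YY2 Y)) : w u = 0 := by
  rw [hw p hp u hu]
  exact lam_J1 hF (sblk_sig hF hf) (CE_w1 hf hp hu) (J1_right (sg_unit hf hp).right.cc h)

theorem w_sg (hF : IsAlgClosed F) (hf : SBlk Y f) (hw : IsW f Y w) {q : X ⧸ Y}
    (hq : q ∈ Jb f Y) : w (sg f Y q) = 1 := by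
  obtain ⟨a, ha, rfl⟩ := hq
  have h := sg_unit (p := dg Y a) hf ha
  rw [show (QuotientGroup.mk' Y) a = ((dg Y a).1.1 : X ⧸ Y) from rfl, hw (dg Y a) ha _ h.left,
    h.mul, J74.lam_f hF (sblk_sig hF hf)]

theorem w_z (hF : IsAlgClosed F) (hf : SBlk Y f) (hw : IsW f Y w) {p : Lam Y}
    (hp : p ∈ fstP Y (XF f Y)) {z u : Lam Y → F} (hz : CE (sig Y f f) (YY2 Y) 1 z)
    (hu : CE (sig Y f f) (YY2 Y) p u) : w (mulF z u) = lamJ (sig Y f f) z * w u := by
  have h1 : CE (sig Y f f) (YY2 Y) p (mulF z u) := by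
    have := hz.mul normal_YY2 hu
    rwa [one_mul] at this
  rw [hw p hp _ h1, hw p hp _ hu, mulF_assoc,
    J74.lam_mul hF normal_YY2 (sblk_sig hF hf) hz (CE_w1 hf hp hu)]

theorem w_mul1 (hF : IsAlgClosed F) (hf : SBlk Y f) (hw : IsW f Y w) {p p' : Lam Y}
    (hp : p ∈ fstP Y (XF f Y)) (hp' : p' ∈ fstP Y (XF f Y)) {u u' : Lam Y → F}
    (hu : CE (sig Y f f) (YY2 Y) p u) (hu' : CE (sig Y f f) (YY2 Y) p' u') :
    w (mulF u u') = w u * w u' := by
  have hg := sblk_sig (Y := Y) hF hf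
  have hN := normal_YY2 (Y := Y)
  obtain ⟨z, hz, rfl⟩ := J74.unit_span hN hg (sg_unit hf hp) hu
  obtain ⟨z', hz', rfl⟩ := J74.unit_span hN hg (sg_unit hf hp') hu'
  have hs := (sg_unit hf hp).left
  have hs' := (sg_unit hf hp').left
  have hj : (p.1.1 : X ⧸ Y) ∈ Jb f Y := ⟨_, hp, rfl⟩
  have hj' : (p'.1.1 : X ⧸ Y) ∈ Jb f Y := ⟨_, hp', rfl⟩
  have hpp := (fstP Y (XF f Y)).mul_mem hp hp'
  have hss := hs.mul hN hs'
  have e : mulF (mulF z (sg f Y (p.1.1 : X ⧸ Y))) (mulF z' (sg f Y (p'.1.1 : X ⧸ Y))) =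
      mulF (mulF z z') (mulF (sg f Y (p.1.1 : X ⧸ Y)) (sg f Y (p'.1.1 : X ⧸ Y))) := by
    rw [mulF_assoc, ← mulF_assoc _ z', ← J74.C1_comm hz' hs.cc, mulF_assoc, mulF_assoc]
  have hs3 := (sg_unit (p := p * p') hf hpp).left
  have h1 : w (mulF (sg f Y (p.1.1 : X ⧸ Y)) (sg f Y (p'.1.1 : X ⧸ Y))) = 1 := by
    have h2 := w_J1 hF hf hw hpp (hss.sub hs3) (sg_mul hF hf hp hp')
    have hjj : ((p * p').1.1 : X ⧸ Y) ∈ Jb f Y := ⟨_, hpp, rfl⟩
    rw [map_sub, w_sg hF hf hw hjj, sub_eq_zero] at h2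
    exact h2
  rw [e, w_z hF hf hw hpp (J74.CE.mul1 hN hz hz') hss, h1, mul_one, w_z hF hf hw hp hz hs,
    w_z hF hf hw hp' hz' hs', w_sg hF hf hw hj, w_sg hF hf hw hj', mul_one, mul_one,
    J74.lam_mul hF hN hg hz hz']

theorem w_mul (hF : IsAlgClosed F) (hf : SBlk Y f) (hw : IsW f Y w) {a b : Lam Y → F}
    (ha : DE (sig Y f f) (YY2 Y) (fstP Y (XF f Y)) a)
    (hb : DE (sig Y f f) (YY2 Y) (fstP Y (XF f Y)) b) : w (mulF a b) = w a * w b := by
  have hg := sblk_sig (Y := Y) hF hf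
  have ha' := H58.DE_span hg normal_YY2 (N_le_M hf) ha
  have hb' := H58.DE_span hg normal_YY2 (N_le_M hf) hb
  clear ha hb
  induction ha' using Submodule.span_induction with
  | mem a ha =>
    obtain ⟨p, hp, ha⟩ := ha
    induction hb' using Submodule.span_induction with
    | mem b hb =>
      obtain ⟨p', hp', hb⟩ := hb
      exact w_mul1 hF hf hw hp hp' ha hb
    | zero => rw [mulF_zero', map_zero, mul_zero]
    | add x y _ _ hx hy => rw [J74.mulF_add', map_add, map_add, hx, hy, mul_add]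
    | smul c x _ hx =>
      rw [J74.mulF_smul', map_smul, map_smul, hx, smul_eq_mul, smul_eq_mul]
      ring
  | zero => rw [zero_mulF', map_zero, zero_mul]
  | add x y _ _ hx hy => rw [J74.add_mulF', map_add, map_add, hx, hy, add_mul]
  | smul c x _ hx =>
    rw [J74.smul_mulF', map_smul, map_smul, hx, smul_eq_mul, smul_eq_mul]
    ring

theorem w_one (hF : IsAlgClosed F) (hf : SBlk Y f) (hw : IsW f Y w) : w (sig Y f f) = 1 := by
  have hg := sblk_sig (Y := Y) hF hf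
  have h1 : (1 : X) ∈ XF f Y := (XF f Y).one_mem
  have h2 : (1 : Lam Y) ∈ fstP Y (XF f Y) := (fstP Y (XF f Y)).one_mem
  have h3 := w_J1 hF hf hw h2 ((J74.f_CE hg).sub (sg_unit (p := (1 : Lam Y)) hf h1).left)
    (sg_one hF hf)
  rw [map_sub, sub_eq_zero] at h3
  rw [h3]
  exact w_sg hF hf hw ⟨1, h1, rfl⟩

theorem w_cj (hF : IsAlgClosed F) (hf : SBlk Y f) (hw : IsW f Y w) (x : Lam Y) {a : Lam Y → F}
    (ha : DE (sig Y f f) (YY2 Y) (fstP Y (XF f Y)) a) : w (cjF x a) = w a := by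
  have hg := sblk_sig (Y := Y) hF hf
  have hN := normal_YY2 (Y := Y)
  have ha' := H58.DE_span hg normal_YY2 (N_le_M hf) ha
  clear ha
  induction ha' using Submodule.span_induction with
  | mem a ha =>
    obtain ⟨p, hp, ha⟩ := ha
    obtain ⟨z, hz, rfl⟩ := J74.unit_span hN hg (sg_unit hf hp) ha
    have hpx := (M_normal hf).conj_mem p hp x
    have hs := (sg_unit hf hp).left
    have hsx := hs.cjF hN hg x
    have hs3 := (sg_unit (p := x * p * x⁻¹) hf hpx).left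
    have hj : (p.1.1 : X ⧸ Y) ∈ Jb f Y := ⟨_, hp, rfl⟩
    have h1 : w (cjF x (sg f Y (p.1.1 : X ⧸ Y))) = 1 := by
      have h2 := w_J1 hF hf hw hpx (hsx.sub hs3) (sg_conj hF hf x hp)
      have hjj : ((x * p * x⁻¹).1.1 : X ⧸ Y) ∈ Jb f Y := ⟨_, hpx, rfl⟩
      rw [map_sub, w_sg hF hf hw hjj, sub_eq_zero] at h2
      exact h2
    obtain ⟨h3, h4⟩ := lam_cj hF hN hg hz x
    rw [J74.cjF_mul, w_z hF hf hw hpx h3 hsx, w_z hF hf hw hp hz hs, h1, h4,
      w_sg hF hf hw hj]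
  | zero => rfl
  | add x' y _ _ hx hy =>
    have h := (cL x).map_add x' y
    change cjF x (x' + y) = cjF x x' + cjF x y at h
    rw [h, map_add, map_add, hx, hy]
  | smul c x' _ hx =>
    have h := (cL x).map_smul c x'
    change cjF x (c • x') = c • cjF x x' at h
    rw [h, map_smul, map_smul, hx]

/-- the one dimensional representation -/
def W0 (w : (Lam Y → F) →ₗ[F] F) : (Lam Y → F) →ₗ[F] Matrix (Fin 1) (Fin 1) F :=
  (LinearMap.toSpanSingleton F _ (1 : Matrix (Fin 1) (Fin 1) F)) ∘ₗ w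

theorem W0_apply (d : Lam Y → F) : W0 w d = w d • (1 : Matrix (Fin 1) (Fin 1) F) := rfl

theorem W0_irr (hF : IsAlgClosed F) (hf : SBlk Y f) (hw : IsW f Y w) :
    IrrD (sig Y f f) (YY2 Y) (fstP Y (XF f Y)) (W0 w) := by
  have hg := sblk_sig (Y := Y) hF hf
  refine ⟨one_pos, ?_, ?_, ?_⟩
  · rw [W0_apply, w_one hF hf hw, one_smul]
  · intro a b ha hb
    rw [W0_apply, W0_apply, W0_apply, w_mul hF hf hw ha hb, smul_mul_smul_comm, one_mul]
  · rw [eq_top_iff]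
    intro A _
    have e : A = A 0 0 • W0 w (sig Y f f) := by
      rw [W0_apply, w_one hF hf hw, one_smul]
      ext i j
      fin_cases i
      fin_cases j
      simp
    rw [e]
    apply Submodule.smul_mem
    apply Submodule.subset_span
    exact ⟨_, H58.CE_DE (N_le_M hf) (Subgroup.one_mem _) (J74.f_CE hg), rfl⟩

end w

end Pool.Agent.PP.H46
end
end -- Pool.Agent.Helper46_PP.Db1d

section -- Pool.Agent.Helper46_PP.Db1e

/-!
# Squad PP, module DB1 (AWC_J 7.5): `B_E = 1`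
-/

open scoped BigOperators

set_option linter.unusedSectionVars false

noncomputable section

namespace Pool.Agent.PP.H46

open Pool.Agent.PP

variable {F X : Type} [Field F] [Group X] [Finite X] {Y : Subgroup X} [hY : Y.Normal]
  {f : X → F} {H : Subgroup (X ⧸ Y)} [Fintype H] {E : Lam Y → F} {ℓ : ℕ}

/-- the properties of the idempotent `E` -/
structure IsE (f : X → F) (Y : Subgroup X) [Y.Normal] (H : Subgroup (X ⧸ Y)) [Fintype H]
    (E : Lam Y → F) : Prop where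
  le : H ≤ Jb f Y
  idem : IsIdem E
  supp : ∀ h, h ∉ fstP Y (XF f Y) → E h = 0
  abs : mulF E (sig Y f f) = E
  sub : E - sel f Y H ∈ J1C (sig Y f f) (YY2 Y)

theorem E_comm (hE : IsE f Y H E) (d : Lam Y → F) : mulF d E = mulF E d :=
  J74.comm_of_supp (Y := (⊤ : Subgroup (Lam Y))) (fun h hh => absurd (Subgroup.mem_top h) hh)
    (fun n _ h => hE.idem.1 h n)

theorem E_DE (hE : IsE f Y H E) : DE (sig Y f f) (YY2 Y) (fstP Y (XF f Y)) E := by
  refine ⟨⟨fun n _ h => hE.idem.1 h n, ?_⟩, hE.supp⟩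
  rw [E_comm hE, hE.abs]

section W

variable {m : ℕ} {W : (Lam Y → F) →ₗ[F] Matrix (Fin m) (Fin m) F}

theorem W_J1 (hF : GoodF ℓ F) (hf : SBlk Y f)
    (hW : IrrD (sig Y f f) (YY2 Y) (fstP Y (XF f Y)) W) {u v : Lam Y → F}
    (hu : DE (sig Y f f) (YY2 Y) (fstP Y (XF f Y)) u)
    (hv : DE (sig Y f f) (YY2 Y) (fstP Y (XF f Y)) v)
    (h : u - v ∈ J1C (sig Y f f) (YY2 Y)) : W u = W v := by
  have h1 := (H58.wjc ℓ F hF (Lam Y) (YY2 Y) normal_YY2 _ (sblk_sig hF.closed hf) _ (M_normal hf)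
    (N_le_M hf) m W hW).1 _ h ((DEs (sig Y f f) (YY2 Y) (fstP Y (XF f Y))).sub_mem hu hv)
  rwa [map_sub, sub_eq_zero] at h1

theorem W_E (hW : IrrD (sig Y f f) (YY2 Y) (fstP Y (XF f Y)) W) (hE : IsE f Y H E)
    (hω : ∀ d, DE (sig Y f f) (YY2 Y) (fstP Y (XF f Y)) d →
      (W (mulF E d)).trace = (W d).trace) : W E = 1 := by
  have hd := E_DE hE
  obtain ⟨w, hw⟩ := H58.scalar_of_comm hW (A := W E) (fun d hd' => by
    rw [← hW.mul _ _ hd hd', ← hW.mul _ _ hd' hd, E_comm hE])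
  have h1 : W E * W E = W E := by
    rw [← hW.mul _ _ hd hd, hE.idem.2]
  have h2 : w * w = w := by
    rw [hw, ← map_mul] at h1
    have h3 := congrFun (congrFun h1 ⟨0, hW.pos⟩) ⟨0, hW.pos⟩
    simpa using h3
  have h3 : w ≠ 0 := by
    rintro rfl
    rw [map_zero] at hw
    obtain ⟨d, hd', hne⟩ := H58.W_tr_ne hW
    apply hne
    rw [← hω d hd', hW.mul _ _ hd hd', hw, zero_mul, Matrix.trace_zero]
  have h4 : w = 1 := by
    have := mul_right_cancel₀ h3 (h2.trans (one_mul w).symm)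
    exact this
  rw [hw, h4, map_one]

theorem W_sel (hF : GoodF ℓ F) (hf : SBlk Y f)
    (hW : IrrD (sig Y f f) (YY2 Y) (fstP Y (XF f Y)) W) (hE : IsE f Y H E)
    (h1 : W E = 1) : W (sel f Y H) = 1 := by
  rw [← W_J1 hF hf hW (E_DE hE) (sel_DE hf hE.le) hE.sub, h1]

theorem W_sgH (hF : GoodF ℓ F) (hf : SBlk Y f)
    (hW : IrrD (sig Y f f) (YY2 Y) (fstP Y (XF f Y)) W) (hE : IsE f Y H E)
    (h1 : W E = 1) (q : H) : W (sg f Y (q : X ⧸ Y)) = 1 := by
  have hs := W_sel hF hf hW hE h1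
  have hq := sg_DE hf (hE.le q.2)
  have hd := sel_DE hf hE.le
  have h2 := W_J1 hF hf hW (H76.DE.mul hq hd) hd (pj_iff.1 (sg_sel hF.closed hf hE.le q))
  rwa [hW.mul _ _ hq hd, hs, mul_one] at h2

/-- the representation of `X[f] / Y` -/
def rep (hF : GoodF ℓ F) (hf : SBlk Y f)
    (hW : IrrD (sig Y f f) (YY2 Y) (fstP Y (XF f Y)) W) :
    Jb f Y →* Matrix (Fin m) (Fin m) F where
  toFun q := W (sg f Y (q : X ⧸ Y))
  map_one' := by
    have hg := sblk_sig (Y := Y) hF.closed hf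
    have h1 := W_J1 hF hf hW (H58.CE_DE (N_le_M hf) (Subgroup.one_mem _) (J74.f_CE hg))
      (sg_DE hf (Jb f Y).one_mem) (sg_one hF.closed hf)
    rw [hW.one] at h1
    exact h1.symm
  map_mul' q r := by
    have hq := sg_DE hf q.2
    have hr := sg_DE hf r.2
    rw [← hW.mul _ _ hq hr]
    exact (W_J1 hF hf hW (H76.DE.mul hq hr) (sg_DE hf (q * r).2)
      (pj_iff.1 (sg_mul' hF.closed hf q.2 r.2))).symm

theorem rep_apply (hF : GoodF ℓ F) (hf : SBlk Y f)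
    (hW : IrrD (sig Y f f) (YY2 Y) (fstP Y (XF f Y)) W) (q : Jb f Y) :
    rep hF hf hW q = W (sg f Y (q : X ⧸ Y)) := rfl

theorem W_zsg (hF : GoodF ℓ F) (hf : SBlk Y f)
    (hW : IrrD (sig Y f f) (YY2 Y) (fstP Y (XF f Y)) W) {z : Lam Y → F}
    (hz : CE (sig Y f f) (YY2 Y) 1 z) {q : X ⧸ Y} (hq : q ∈ Jb f Y) :
    W (mulF z (sg f Y q)) = lamJ (sig Y f f) z • W (sg f Y q) := by
  have hg := sblk_sig (Y := Y) hF.closed hf
  rw [hW.mul _ _ (H58.CE_DE (N_le_M hf) (Subgroup.one_mem _) hz) (sg_DE hf hq),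
    H58.W_lam hF.closed hg normal_YY2 (N_le_M hf) hW hz, Matrix.scalar_apply,
    ← Matrix.smul_eq_diagonal_mul]

theorem rep_irr (hF : GoodF ℓ F) (hf : SBlk Y f)
    (hW : IrrD (sig Y f f) (YY2 Y) (fstP Y (XF f Y)) W) : IsIrr (rep hF hf hW) := by
  have hg := sblk_sig (Y := Y) hF.closed hf
  refine ⟨hW.pos, ?_⟩
  rw [eq_top_iff, ← hW.irr]
  apply Submodule.span_le.2
  rintro _ ⟨d, hd, rfl⟩
  have hd' := H58.DE_span hg normal_YY2 (N_le_M hf) hd
  clear hd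
  induction hd' using Submodule.span_induction with
  | mem x hx =>
    obtain ⟨p, hp, hx⟩ := hx
    obtain ⟨z, hz, rfl⟩ := J74.unit_span normal_YY2 hg (sg_unit hf hp) hx
    have hj : (p.1.1 : X ⧸ Y) ∈ Jb f Y := ⟨_, hp, rfl⟩
    rw [W_zsg hF hf hW hz hj]
    exact Submodule.smul_mem _ _ (Submodule.subset_span ⟨⟨_, hj⟩, rfl⟩)
  | zero =>
    rw [map_zero]
    exact Submodule.zero_mem _
  | add x y _ _ hx hy =>
    rw [map_add]
    exact Submodule.add_mem _ hx hy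
  | smul a x _ hx =>
    rw [map_smul]
    exact Submodule.smul_mem _ _ hx

theorem rep_one (hF : GoodF ℓ F) (hf : SBlk Y f)
    (hW : IrrD (sig Y f f) (YY2 Y) (fstP Y (XF f Y)) W) (hE : IsE f Y H E)
    (h1 : W E = 1) (hn : H.Normal) {n : ℕ} (hp : ∀ q ∈ Jb f Y, q ^ (ℓ ^ n) ∈ H) (q : Jb f Y) :
    rep hF hf hW q = 1 := by
  have hn' : (H.subgroupOf (Jb f Y)).Normal := hn.subgroupOf _
  have hker : H.subgroupOf (Jb f Y) ≤ (rep hF hf hW).ker := by
    intro r hr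
    exact W_sgH hF hf hW hE h1 ⟨r, hr⟩
  let ρ : (Jb f Y ⧸ H.subgroupOf (Jb f Y)) →* Matrix (Fin m) (Fin m) F :=
    QuotientGroup.lift _ (rep hF hf hW) hker
  have hρ : IsIrr ρ := by
    refine ⟨hW.pos, ?_⟩
    rw [← (rep_irr hF hf hW).2]
    congr 1
    ext Z
    constructor
    · rintro ⟨t, rfl⟩
      obtain ⟨t, rfl⟩ := QuotientGroup.mk_surjective t
      exact ⟨t, rfl⟩
    · rintro ⟨t, rfl⟩
      exact ⟨(t : Jb f Y ⧸ H.subgroupOf (Jb f Y)), rfl⟩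
  have hpg : IsPGroup ℓ (⊤ : Subgroup (Jb f Y ⧸ H.subgroupOf (Jb f Y))) := by
    rintro ⟨t, -⟩
    obtain ⟨t, rfl⟩ := QuotientGroup.mk_surjective t
    refine ⟨n, ?_⟩
    apply Subtype.ext
    change ((t ^ (ℓ ^ n) : Jb f Y) : Jb f Y ⧸ H.subgroupOf (Jb f Y)) = 1
    rw [QuotientGroup.eq_one_iff]
    exact hp t t.2
  exact H20.nls_triv hF.prime hF.char ⊤ inferInstance hpg ρ hρ (q : Jb f Y ⧸ H.subgroupOf (Jb f Y))
    (Subgroup.mem_top _)

theorem W_eq (hF : GoodF ℓ F) (hf : SBlk Y f)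
    (hW : IrrD (sig Y f f) (YY2 Y) (fstP Y (XF f Y)) W) (hE : IsE f Y H E)
    (h1 : W E = 1) (hn : H.Normal) {n : ℕ} (hp : ∀ q ∈ Jb f Y, q ^ (ℓ ^ n) ∈ H)
    {w : (Lam Y → F) →ₗ[F] F} (hw : IsW f Y w) {d : Lam Y → F}
    (hd : DE (sig Y f f) (YY2 Y) (fstP Y (XF f Y)) d) :
    W d = w d • (1 : Matrix (Fin m) (Fin m) F) := by
  have hg := sblk_sig (Y := Y) hF.closed hf
  have hd' := H58.DE_span hg normal_YY2 (N_le_M hf) hd
  clear hd
  induction hd' using Submodule.span_induction with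
  | mem x hx =>
    obtain ⟨p, hp', hx⟩ := hx
    have hu := sg_unit hf hp'
    obtain ⟨z, hz, rfl⟩ := J74.unit_span normal_YY2 hg hu hx
    have hj : (p.1.1 : X ⧸ Y) ∈ Jb f Y := ⟨_, hp', rfl⟩
    have h2 := rep_one hF hf hW hE h1 hn hp ⟨_, hj⟩
    rw [rep_apply] at h2
    rw [W_zsg hF hf hW hz hj, h2, w_z hF.closed hf hw hp' hz hu.left, w_sg hF.closed hf hw hj,
      mul_one]
  | zero => rw [map_zero, map_zero, zero_smul]
  | add x y _ _ hx hy => rw [map_add, map_add, hx, hy, add_smul]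
  | smul a x _ hx => rw [map_smul, map_smul, hx, smul_smul, smul_eq_mul]

theorem m_one (hF : GoodF ℓ F) (hf : SBlk Y f)
    (hW : IrrD (sig Y f f) (YY2 Y) (fstP Y (XF f Y)) W) (hE : IsE f Y H E)
    (h1 : W E = 1) (hn : H.Normal) {n : ℕ} (hp : ∀ q ∈ Jb f Y, q ^ (ℓ ^ n) ∈ H)
    {w : (Lam Y → F) →ₗ[F] F} (hw : IsW f Y w) : m = 1 := by
  have key : ∀ A : Matrix (Fin m) (Fin m) F, ∃ c : F, A = c • 1 := by
    intro A
    have hA : A ∈ Submodule.span F (W '' {d | DE (sig Y f f) (YY2 Y) (fstP Y (XF f Y)) d}) := by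
      rw [hW.irr]
      trivial
    induction hA using Submodule.span_induction with
    | mem x hx =>
      obtain ⟨d, hd, rfl⟩ := hx
      exact ⟨w d, W_eq hF hf hW hE h1 hn hp hw hd⟩
    | zero => exact ⟨0, (zero_smul _ _).symm⟩
    | add x y _ _ hx hy =>
      obtain ⟨a, rfl⟩ := hx
      obtain ⟨b, rfl⟩ := hy
      exact ⟨a + b, (add_smul _ _ _).symm⟩
    | smul c x _ hx =>
      obtain ⟨a, rfl⟩ := hx
      exact ⟨c * a, by rw [smul_smul]⟩
  by_contra hm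
  have hm2 : 1 < m := lt_of_le_of_ne hW.pos (Ne.symm hm)
  obtain ⟨c, hc⟩ := key (Matrix.single (⟨0, hW.pos⟩ : Fin m) ⟨1, hm2⟩ (1 : F))
  have h2 := congrFun (congrFun hc ⟨0, hW.pos⟩) ⟨1, hm2⟩
  rw [Matrix.single_apply_same, Matrix.smul_apply, Matrix.one_apply_ne, smul_zero] at h2
  · exact one_ne_zero h2
  · intro h
    have := congrArg Fin.val h
    simp at this

end W

end Pool.Agent.PP.H46
end
end -- Pool.Agent.Helper46_PP.Db1e
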