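import Pool.Agent.Helper12_AWB.B050
import Pool.Agent.Helper12_AWB.B053
import Pool.Agent.Helper12_AWB.B058
import Pool.Agent.Helper12_AWB.B069
import Pool.Agent.Helper12_AWB.B090

/-!
# Merged copies (generated) of the modules

* `Pool.Agent.Helper19_PP.Cvr`
* `Pool.Agent.Helper19_PP.Lma`
-/

set_option autoImplicit false

section -- Pool.Agent.Helper19_PP.Cvr

/-!
# Squad AWC, module CVR: existence of the cover
-/

open scoped BigOperators

noncomputable section

namespace Pool.Agent.PP.H19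

open Pool.Agent.PP Pool.Agent.PP.H67

theorem le_stC {F G : Type} [Field F] [Group G] {C : Subgroup G} (hC : C.Normal) {n : ℕ}
    (ρ : C →* Matrix (Fin n) (Fin n) F) : C ≤ stC hC (tr ρ) := by
  intro g hg c
  have e : (⟨g * c * g⁻¹, hC.conj_mem c c.2 g⟩ : C) = ⟨g, hg⟩ * c * (⟨g, hg⟩ : C)⁻¹ := rfl
  rw [e, tr, tr, map_mul, map_mul, Matrix.trace_mul_comm, ← mul_assoc, ← map_mul, inv_mul_cancel,
    map_one, one_mul]

theorem cvr : CvrStmt := by
  intro ℓ F _ hF G _ _ C hC n ρ hρ
  have hle : C ≤ stC hC (tr ρ) := le_stC hC ρ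
  let q : C.subgroupOf (stC hC (tr ρ)) ≃* C := Subgroup.subgroupOfEquivOfLe hle
  obtain ⟨E, hE, hfin, π, α, h1, h2, h3, h4, h5, h6, h7⟩ := H74.covStmt H20.ibc ℓ F hF
    (stC hC (tr ρ)) (C.subgroupOf (stC hC (tr ρ))) n (ρ.comp q.toMonoidHom)
    (Subgroup.Normal.subgroupOf hC _) (irr_comp hρ q.toMonoidHom q.surjective) (by
      intro g c c' hcc
      have h := g.2 (q c)
      have e : q c' = ⟨(g : G) * (q c : C) * (g : G)⁻¹, hC.conj_mem _ (q c).2 g⟩ :=
        Subtype.ext (congrArg (fun x : stC hC (tr ρ) => (x : G)) hcc)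
      show tr ρ (q c') = tr ρ (q c)
      rw [e]
      exact h)
  let p : E →* G := (stC hC (tr ρ)).subtype.comp π
  have hp : ∀ x, p x = 1 → π x = 1 := fun x hx => Subtype.ext hx
  let K : Subgroup E :=
    { carrier := {x | ∃ c : C, p x = c ∧ α x = ρ c}
      one_mem' := ⟨1, by rw [map_one]; rfl, by rw [map_one, map_one]⟩
      mul_mem' := by
        rintro x y ⟨c, hc, hc'⟩ ⟨d, hd, hd'⟩
        exact ⟨c * d, by rw [map_mul, hc, hd]; rfl, by rw [map_mul, map_mul, hc', hd']⟩
      inv_mem' := by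
        rintro x ⟨c, hc, hc'⟩
        refine ⟨c⁻¹, by rw [map_inv, hc]; rfl, ?_⟩
        calc α x⁻¹ = α x⁻¹ * (ρ c * ρ c⁻¹) := by
              rw [← map_mul, mul_inv_cancel, map_one, mul_one]
          _ = ρ c⁻¹ := by
              rw [← hc', ← mul_assoc, ← map_mul, inv_mul_cancel, map_one, one_mul] }
  refine ⟨E, hE, hfin, p, α, K, ⟨?_⟩, ?_⟩
  · rintro x ⟨c, hc, hc'⟩ y
    have hcm : p y * c * (p y)⁻¹ ∈ C := hC.conj_mem c c.2 (p y)
    refine ⟨⟨p y * c * (p y)⁻¹, hcm⟩, by rw [map_mul, map_mul, map_inv, hc], ?_⟩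
    have h := h6 y (q.symm c) (q.symm ⟨p y * c * (p y)⁻¹, hcm⟩) (Subtype.ext rfl)
    have e1 : (ρ.comp q.toMonoidHom) (q.symm c) = ρ c := by
      show ρ (q (q.symm c)) = ρ c
      rw [MulEquiv.apply_symm_apply]
    have e2 : (ρ.comp q.toMonoidHom) (q.symm ⟨p y * c * (p y)⁻¹, hcm⟩) =
        ρ ⟨p y * c * (p y)⁻¹, hcm⟩ := by
      show ρ (q (q.symm _)) = ρ _
      rw [MulEquiv.apply_symm_apply]
    rw [e1, e2] at h
    rw [map_mul, map_mul, hc', h, mul_assoc, ← map_mul, mul_inv_cancel, map_one, mul_one]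
  · refine ⟨hρ, hle, ?_, fun x hx => h2 x (hp x hx), ?_, fun x hx => h4 x (hp x hx),
      fun x hx => h5 x (hp x hx), ?_, ?_, fun x => Iff.rfl⟩
    · ext g
      constructor
      · rintro ⟨x, rfl⟩
        exact (π x).2
      · intro hg
        obtain ⟨x, hx⟩ := h1 ⟨g, hg⟩
        exact ⟨x, congrArg (fun y : stC hC (tr ρ) => (y : G)) hx⟩
    · have e : p.ker = π.ker := by
        ext x
        exact ⟨fun hx => hp x hx, fun hx => by
          show ((π x : stC hC (tr ρ)) : G) = 1
          rw [MonoidHom.mem_ker.1 hx]; rfl⟩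
      rw [e]
      exact h3
    · intro x c c' hcc
      have h := h6 x (q.symm c) (q.symm c') (Subtype.ext hcc)
      have e1 : (ρ.comp q.toMonoidHom) (q.symm c) = ρ c := by
        show ρ (q (q.symm c)) = ρ c
        rw [MulEquiv.apply_symm_apply]
      have e2 : (ρ.comp q.toMonoidHom) (q.symm c') = ρ c' := by
        show ρ (q (q.symm c')) = ρ c'
        rw [MulEquiv.apply_symm_apply]
      rw [e1, e2] at h
      exact h
    · intro c
      obtain ⟨x, hx, hx'⟩ := h7 (q.symm c)
      refine ⟨x, congrArg (fun y : stC hC (tr ρ) => (y : G)) hx, ?_⟩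
      rw [hx']
      show ρ (q (q.symm c)) = ρ c
      rw [MulEquiv.apply_symm_apply]

end Pool.Agent.PP.H19
end
end -- Pool.Agent.Helper19_PP.Cvr

section -- Pool.Agent.Helper19_PP.Lma

/-!
# Squad AWC, module LMA: the `ℓ`-numbers over `θ` are the `ℓ`-numbers of the class function `s`
-/

open scoped BigOperators

set_option linter.unusedSectionVars false

noncomputable section

namespace Pool.Agent.PP.H19

open Pool.Agent.PP Pool.Agent.PP.H67

section kr

variable {F : Type} [Field F]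

/-- `kr` as a linear map of the left factor -/
def krL {m : ℕ} (n : ℕ) (B : Matrix (Fin m) (Fin m) F) :
    Matrix (Fin n) (Fin n) F →ₗ[F] Matrix (Fin (n * m)) (Fin (n * m)) F where
  toFun A := kr A B
  map_add' A A' := H33.kr_add_left A A' B
  map_smul' c A := H33.kr_smul_left c A B

/-- `kr` as a linear map of the right factor -/
def krR {n : ℕ} (m : ℕ) (A : Matrix (Fin n) (Fin n) F) :
    Matrix (Fin m) (Fin m) F →ₗ[F] Matrix (Fin (n * m)) (Fin (n * m)) F where
  toFun B := kr A B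
  map_add' B B' := H33.kr_add_right A B B'
  map_smul' c B := H33.kr_smul_right c A B

theorem scalar_eq {n : ℕ} (w : F) : Matrix.scalar (Fin n) w = w • (1 : Matrix (Fin n) (Fin n) F) := by
  rw [Matrix.scalar_apply, Matrix.smul_one_eq_diagonal]

theorem scalar_inj {n : ℕ} (hn : 0 < n) {w w' : F}
    (h : Matrix.scalar (Fin n) w = Matrix.scalar (Fin n) w') : w = w' := by
  have := congrFun (congrFun h ⟨0, hn⟩) ⟨0, hn⟩
  simpa using this

end kr

section descent

variable {ℓ : ℕ} {F : Type} [Field F] {Z Y : Type} [Group Z] [Finite Z] [Group Y] [Finite Y]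

/-- a representation on which the kernel of a surjection acts trivially is inflated -/
theorem descend {N : ℕ} (T : Z →* Matrix (Fin N) (Fin N) F) (π : Z →* Y)
    (hπ : Function.Surjective π) (h : ∀ z, π z = 1 → T z = 1) :
    ∃ τ : Y →* Matrix (Fin N) (Fin N) F, ∀ z, τ (π z) = T z := by
  have key : ∀ z z', π z = π z' → T z = T z' := by
    intro z z' hz
    have h1 : T (z'⁻¹ * z) = 1 := h _ (by rw [map_mul, map_inv, hz, inv_mul_cancel])
    calc T z = T (z' * (z'⁻¹ * z)) := by rw [mul_inv_cancel_left]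
      _ = T z' := by rw [map_mul, h1, mul_one]
  choose g hg using hπ
  refine ⟨{ toFun := fun y => T (g y), map_one' := ?_, map_mul' := ?_ }, fun z => ?_⟩
  · rw [key (g 1) 1 (by rw [hg, map_one]), map_one]
  · intro x y
    rw [← map_mul]
    exact key _ _ (by rw [hg, map_mul, hg, hg])
  · exact key _ _ (hg _)

/-- the sum over the fibres -/
theorem ev_infl (hF : GoodF ℓ F) {N : ℕ} (τ : Y →* Matrix (Fin N) (Fin N) F) (π : Z →* Y)
    (hπ : Function.Surjective π) (hk : ¬ ℓ ∣ Nat.card π.ker) (e : Y → F) :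
    ev (τ.comp π) (fun z => (Nat.card π.ker : F)⁻¹ * e (π z)) = ev τ e := by
  have := Fintype.ofFinite Z
  have := Fintype.ofFinite Y
  have hne : (Nat.card π.ker : F) ≠ 0 := H74.natCast_ne hF
    ((Nat.Prime.coprime_iff_not_dvd hF.prime).2 hk).symm
  rw [ev, ev, finsum_eq_sum_of_fintype, finsum_eq_sum_of_fintype]
  have h := H74.sum_comp_hom π hπ (fun y => ((Nat.card π.ker : F)⁻¹ * e y) • τ y)
  have e1 : ∀ z, ((Nat.card π.ker : F)⁻¹ * e (π z)) • (τ.comp π) z =
      (fun y => ((Nat.card π.ker : F)⁻¹ * e y) • τ y) (π z) := fun z => rfl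
  rw [Finset.sum_congr rfl fun z _ => e1 z, h, Finset.smul_sum]
  refine Finset.sum_congr rfl fun y _ => ?_
  rw [← Nat.cast_smul_eq_nsmul F, smul_smul, ← mul_assoc, mul_inv_cancel₀ hne, one_mul]

/-- descent of a representation on which the group ring element acts as a nonzero scalar -/
theorem descent (hF : GoodF ℓ F) {N : ℕ} (T : Z →* Matrix (Fin N) (Fin N) F) (hT : IsIrr T)
    (π : Z →* Y) (hπ : Function.Surjective π) (hk : ¬ ℓ ∣ Nat.card π.ker) (e : Y → F) (w : F)
    (hw : w ≠ 0)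
    (h : ev T (fun z => (Nat.card π.ker : F)⁻¹ * e (π z)) = Matrix.scalar (Fin N) w) :
    ∃ τ : Y →* Matrix (Fin N) (Fin N) F, IsIrr τ ∧ (∀ z, τ (π z) = T z) ∧
      ev τ e = Matrix.scalar (Fin N) w := by
  have hker : ∀ z, π z = 1 → T z = 1 := by
    intro z hz
    have h1 : T z * ev T (fun z => (Nat.card π.ker : F)⁻¹ * e (π z)) =
        ev T (fun z => (Nat.card π.ker : F)⁻¹ * e (π z)) := by
      have := Fintype.ofFinite Z
      rw [ev, finsum_eq_sum_of_fintype, Finset.mul_sum, ← Equiv.sum_comp (Equiv.mulLeft z)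
        (fun t => ((Nat.card π.ker : F)⁻¹ * e (π t)) • T t)]
      refine Finset.sum_congr rfl fun t _ => ?_
      rw [Equiv.coe_mulLeft, map_mul, hz, one_mul, map_mul, mul_smul_comm]
    rw [h, scalar_eq, mul_smul_comm, mul_one] at h1
    have h2 := congrArg (fun M => w⁻¹ • M) h1
    simpa only [smul_smul, inv_mul_cancel₀ hw, one_smul] using h2
  obtain ⟨τ, hτ⟩ := descend T π hπ hker
  have hcomp : τ.comp π = T := MonoidHom.ext hτ
  refine ⟨τ, irr_of_comp π (by rw [hcomp]; exact hT), hτ, ?_⟩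
  rw [← ev_infl hF τ π hπ hk, hcomp, h]

end descent

section cover

variable {ℓ : ℕ} {F : Type} [Field F] {G E : Type} [Group G] [Finite G] [Group E] [Finite E]
  {C L : Subgroup G} {n : ℕ} {ρ : C →* Matrix (Fin n) (Fin n) F} {p : E →* G}
  {α : E →* Matrix (Fin n) (Fin n) F} {K : Subgroup E} (hc : Cover ℓ C L ρ p α K)

include hc

theorem lift' (c : C) : ∃ k : K, p k = c ∧ α k = ρ c := by
  obtain ⟨x, h1, h2⟩ := hc.lift c
  exact ⟨⟨x, (hc.mem x).2 ⟨c, h1, h2⟩⟩, h1, h2⟩

theorem irrK : IsIrr (α.comp K.subtype) := by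
  refine ⟨hc.irr.1, ?_⟩
  rw [← hc.irr.2]
  congr 1
  ext M
  constructor
  · rintro ⟨k, rfl⟩
    obtain ⟨c, h1, h2⟩ := (hc.mem k).1 k.2
    exact ⟨c, h2.symm⟩
  · rintro ⟨c, rfl⟩
    obtain ⟨k, h1, h2⟩ := lift' hc c
    exact ⟨k, h2⟩

theorem eq_of {x y : E} (h1 : p x = p y) (h2 : α x = α y) : x = y := by
  have h3 : p (x⁻¹ * y) = 1 := by rw [map_mul, map_inv, h1, inv_mul_cancel]
  have h4 : α (x⁻¹ * y) = 1 := by rw [map_mul, ← h2, ← map_mul, inv_mul_cancel, map_one]
  have h5 := hc.faithful _ h3 h4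
  rw [inv_mul_eq_one] at h5
  exact h5

/-- the bijection of `K` and `C` -/
theorem exists_kc : ∃ f : K → C, Function.Bijective f ∧ ∀ k : K, p k = f k ∧ α k = ρ (f k) := by
  choose f hf hf' using fun k : K => (hc.mem k).1 k.2
  refine ⟨f, ⟨?_, ?_⟩, fun k => ⟨hf k, hf' k⟩⟩
  · intro k k' h
    apply Subtype.ext
    apply eq_of hc
    · rw [hf, hf, h]
    · rw [hf', hf', h]
  · intro c
    obtain ⟨k, h1, h2⟩ := lift' hc c
    exact ⟨k, Subtype.ext (by rw [← hf, h1])⟩

omit hc in
/-- the sum over a coset of `K` -/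
def MM (α : E →* Matrix (Fin n) (Fin n) F) (K : Subgroup E) (a : E → F) (x : E) :
    Matrix (Fin n) (Fin n) F := ∑ᶠ k : K, a (x * k) • α (x * k)

omit hc in
theorem MM_conj [K.Normal] {a : E → F} (ha : IsCl a) (x y : E) :
    α y * MM α K a x = MM α K a (y * x * y⁻¹) * α y := by
  have := Fintype.ofFinite K
  have hK : K.Normal := inferInstance
  rw [MM, MM, finsum_eq_sum_of_fintype, finsum_eq_sum_of_fintype, Finset.mul_sum, Finset.sum_mul]
  apply Fintype.sum_bijective (fun k : K => (⟨y * k * y⁻¹, hK.conj_mem k k.2 y⟩ : K))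
  · constructor
    · intro k k' h
      have h1 := congrArg (fun z : K => (z : E)) h
      have h2 : y * (k : E) * y⁻¹ = y * k' * y⁻¹ := h1
      exact Subtype.ext (mul_left_cancel (mul_right_cancel h2))
    · intro k
      have h1 := hK.conj_mem k k.2 y⁻¹
      rw [inv_inv] at h1
      exact ⟨⟨y⁻¹ * k * y, h1⟩, Subtype.ext (by
        show y * (y⁻¹ * k * y) * y⁻¹ = k
        group)⟩
  · intro k
    show α y * (a (x * k) • α (x * k)) =
      a (y * x * y⁻¹ * (y * k * y⁻¹)) • α (y * x * y⁻¹ * (y * k * y⁻¹)) * α y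
    have e : y * x * y⁻¹ * (y * k * y⁻¹) = y * (x * k) * y⁻¹ := by group
    rw [e, ha, mul_smul_comm, smul_mul_assoc, ← map_mul, ← map_mul, inv_mul_cancel_right]

omit hc in
theorem MM_mul (a : E → F) (x : E) (k : K) : MM α K a (x * k) = MM α K a x := by
  have := Fintype.ofFinite K
  rw [MM, MM, finsum_eq_sum_of_fintype, finsum_eq_sum_of_fintype,
    ← Equiv.sum_comp (Equiv.mulLeft k) (fun t : K => a (x * t) • α (x * t))]
  refine Finset.sum_congr rfl fun t _ => ?_
  rw [Equiv.coe_mulLeft, Subgroup.coe_mul, mul_assoc]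

theorem MM_scalar [K.Normal] {a : E → F} (ha : IsCl a) (x : E) :
    ∃ w, MM α K a x = Matrix.scalar (Fin n) w := by
  apply schur (irrK hc)
  intro k
  have hK : K.Normal := inferInstance
  show MM α K a x * α k = α k * MM α K a x
  have e : (k : E) * x * (k : E)⁻¹ = x * ((⟨x⁻¹ * k * x, by
      have := hK.conj_mem k k.2 x⁻¹
      rwa [inv_inv] at this⟩ * k⁻¹ : K) : E) := by
    rw [Subgroup.coe_mul, Subgroup.coe_inv]
    show (k : E) * x * (k : E)⁻¹ = x * (x⁻¹ * k * x * (k : E)⁻¹)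
    group
  rw [MM_conj ha, e, MM_mul]

/-- existence of the class function `s` -/
theorem exists_s [K.Normal] {a : E → F} (ha : IsCl a) : ∃ s : E ⧸ K → F, IsCl s ∧
    ∀ x : E, MM α K a x = Matrix.scalar (Fin n) (s x) := by
  choose f hf using fun y : E ⧸ K => MM_scalar hc ha y.out
  have hs : ∀ x : E, MM α K a x = Matrix.scalar (Fin n) (f x) := by
    intro x
    obtain ⟨k, hk⟩ := QuotientGroup.mk_out_eq_mul K x
    rw [← hf x, hk, MM_mul]
  refine ⟨f, ?_, hs⟩
  intro x y
  induction x using QuotientGroup.induction_on with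
  | H x =>
    induction y using QuotientGroup.induction_on with
    | H y =>
      apply scalar_inj hc.irr.1
      have h := MM_conj (α := α) (K := K) ha x y
      rw [hs, hs, scalar_eq, scalar_eq, mul_smul_comm, smul_mul_assoc, mul_one, one_mul] at h
      have h2 := congrArg (fun M => M * α y⁻¹) h
      simp only [smul_mul_assoc, ← map_mul, mul_inv_cancel, map_one] at h2
      rw [scalar_eq, scalar_eq]
      exact h2.symm

/-- a representation of `Y ≥ C` which is `ρ ⊗ 1` on `C` lies over `ρ` -/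
theorem over_of {Y : Subgroup G} (hY : C ≤ Y) {m : ℕ}
    (τ : Y →* Matrix (Fin (n * m)) (Fin (n * m)) F)
    (h : ∀ (k : K) (y : Y), (y : G) = p k → τ y = kr (α k) 1) : Ov ρ τ := by
  intro b hb h0
  have := Fintype.ofFinite C
  rw [← ex_sub_group τ hY hb, ex_eq]
  have e : ∀ c : C, b c • (τ.comp (Subgroup.inclusion hY)) c = krL n 1 (b c • ρ c) := by
    intro c
    obtain ⟨k, h1, h2⟩ := lift' hc c
    rw [map_smul]
    congr 1
    show τ (Subgroup.inclusion hY c) = kr (ρ c) 1
    rw [h k (Subgroup.inclusion hY c) h1.symm, h2]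
  rw [Finset.sum_congr rfl fun c _ => e c, ← map_sum, ← ex_eq, h0, map_zero]

omit hc in
theorem card_ker {Z : Type} [Group Z] {Y : Subgroup G} (j : Z →* E) (hj : Function.Injective j)
    (hker : p.ker ≤ j.range) (π : Z →* Y) (h : ∀ z, (π z : G) = p (j z)) :
    Nat.card π.ker = Nat.card p.ker := by
  apply Nat.card_congr
  have hm : ∀ z : π.ker, j z ∈ p.ker := by
    intro z
    rw [MonoidHom.mem_ker, ← h, MonoidHom.mem_ker.1 z.2]; rfl
  refine Equiv.ofBijective (fun z : π.ker => (⟨j z, hm z⟩ : p.ker)) ⟨?_, ?_⟩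
  · intro z z' hzz
    exact Subtype.ext (hj (congrArg (fun x : p.ker => (x : E)) hzz))
  · rintro ⟨x, hx⟩
    obtain ⟨z, rfl⟩ := hker hx
    refine ⟨⟨z, ?_⟩, rfl⟩
    rw [MonoidHom.mem_ker]
    exact Subtype.ext (by rw [h]; exact hx)

end cover

section main

variable {ℓ : ℕ} {F : Type} [Field F] {G E : Type} [Group G] [Finite G] [Group E] [Finite E]
  {C : Subgroup G} {n : ℕ} {ρ : C →* Matrix (Fin n) (Fin n) F} {p : E →* G}
  {α : E →* Matrix (Fin n) (Fin n) F} {K : Subgroup E}

theorem count (hF : GoodF ℓ F) (hC : C.Normal) (hc : Cover ℓ C (stC hC (tr ρ)) ρ p α K)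
    [K.Normal] {e : G → F} (he : IsCl e) {s : E ⧸ K → F} (hs : IsCl s)
    (hss : ∀ x : E, MM α K (fun x => (Nat.card p.ker : F)⁻¹ * e (p x)) x =
      Matrix.scalar (Fin n) (s x)) (X : Subgroup G) (hX : C ≤ X) :
    (LT (X ⊓ stC hC (tr ρ)) (tr ρ) e).ncard =
      lnum ((X.comap p).map (QuotientGroup.mk' K)) s := by
  classical
  set L := stC hC (tr ρ) with hL
  have hCY : C ≤ X ⊓ L := le_inf hX hc.le
  -- the surjection on `Y = X ⊓ L`
  let π : X.comap p →* (X ⊓ L : Subgroup G) :=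
    (p.comp (X.comap p).subtype).codRestrict (X ⊓ L)
      (fun z => ⟨z.2, hc.range ▸ ⟨(z : E), rfl⟩⟩)
  have hπc : ∀ z, (π z : G) = p z := fun z => rfl
  have hπ : Function.Surjective π := by
    intro y
    have h1 : (y : G) ∈ p.range := by rw [hc.range]; exact y.2.2
    obtain ⟨x, hx⟩ := h1
    have h2 : x ∈ X.comap p := by
      show p x ∈ X
      rw [hx]; exact y.2.1
    exact ⟨⟨x, h2⟩, Subtype.ext hx⟩
  have hcard : Nat.card π.ker = Nat.card p.ker := by
    apply card_ker (X.comap p).subtype Subtype.val_injective ?_ π hπc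
    intro x hx
    refine ⟨⟨x, ?_⟩, rfl⟩
    show p x ∈ X
    rw [MonoidHom.mem_ker.1 hx]; exact X.one_mem
  have hk : ¬ ℓ ∣ Nat.card π.ker := by rw [hcard]; exact hc.prime
  -- the surjection on the image of `X.comap p` in `E ⧸ K`
  let φ : X.comap p →* (X.comap p).map (QuotientGroup.mk' K) :=
    (QuotientGroup.mk' K).subgroupMap (X.comap p)
  have hφ : Function.Surjective φ := MonoidHom.subgroupMap_surjective _ _
  have hφc : ∀ z, (φ z : E ⧸ K) = ((z : E) : E ⧸ K) := fun z => rfl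
  have hker : ∀ z, z ∈ φ.ker ↔ (z : E) ∈ K := by
    intro z
    rw [MonoidHom.mem_ker, ← QuotientGroup.eq_one_iff (z : E), ← hφc]
    exact ⟨fun h => by rw [h]; rfl, fun h => Subtype.ext h⟩
  have hKX : ∀ k ∈ K, k ∈ X.comap p := by
    intro k hk
    obtain ⟨c, h1, -⟩ := (hc.mem k).1 hk
    show p k ∈ X
    rw [h1]; exact hX c.2
  let κ0 : φ.ker →* K := ((X.comap p).subtype.comp φ.ker.subtype).codRestrict K
    (fun z => (hker z).1 z.2)
  have hκ0 : Function.Bijective κ0 := by
    constructor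
    · intro z z' h
      exact Subtype.ext (Subtype.ext (congrArg (fun k : K => (k : E)) h))
    · intro k
      exact ⟨⟨⟨k, hKX k k.2⟩, (hker _).2 k.2⟩, rfl⟩
  let αZ : X.comap p →* Matrix (Fin n) (Fin n) F := α.comp (X.comap p).subtype
  have hαZ : IsIrr (αZ.comp φ.ker.subtype) := by
    have h1 := irr_comp (irrK hc) κ0 hκ0.2
    exact h1
  obtain ⟨g1, g2, g3, g4⟩ := H33.gal ℓ F hF (X.comap p) φ.ker n αZ hαZ
  let q : X.comap p ⧸ φ.ker ≃* (X.comap p).map (QuotientGroup.mk' K) :=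
    QuotientGroup.quotientKerEquivOfSurjective φ hφ
  have hq : ∀ z : X.comap p, q (z : X.comap p ⧸ φ.ker) = φ z := fun z => rfl
  set a : E → F := fun x => (Nat.card p.ker : F)⁻¹ * e (p x) with hadef
  let aZ : X.comap p → F := fun z => (Nat.card π.ker : F)⁻¹ * e (π z)
  have haZ : IsCl aZ := by
    intro x y
    show _ * e (π (y * x * y⁻¹) : G) = _ * e (π x : G)
    rw [hπc, hπc, Subgroup.coe_mul, Subgroup.coe_mul, Subgroup.coe_inv, map_mul, map_mul, map_inv,
      he]
  let sZ : X.comap p ⧸ φ.ker → F := fun y => s (q y)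
  have hsZ : IsCl sZ := by
    intro x y
    show s (q (y * x * y⁻¹)) = s (q x)
    rw [map_mul, map_mul, map_inv, Subgroup.coe_mul, Subgroup.coe_mul, Subgroup.coe_inv, hs]
  have hsum : ∀ g : X.comap p, ∑ᶠ c : φ.ker, aZ (g * c) • αZ (g * c) =
      Matrix.scalar (Fin n) (sZ g) := by
    intro g
    have := Fintype.ofFinite φ.ker
    have := Fintype.ofFinite K
    have h1 : sZ g = s ((g : E) : E ⧸ K) := rfl
    rw [h1, ← hss, MM, finsum_eq_sum_of_fintype, finsum_eq_sum_of_fintype]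
    apply Fintype.sum_bijective κ0 hκ0
    intro c
    show ((Nat.card π.ker : F)⁻¹ * e (p ((g : E) * c))) • α ((g : E) * c) =
      ((Nat.card p.ker : F)⁻¹ * e (p ((g : E) * c))) • α ((g : E) * c)
    rw [hcard]
  have i1 : Set.InjOn (fun (ψ : (X ⊓ L : Subgroup G) → F) (z : X.comap p) => ψ (π z))
      (LT (X ⊓ L) (tr ρ) e) := by
    intro ψ _ ψ' _ h
    funext y
    obtain ⟨z, rfl⟩ := hπ y
    exact congrFun h z
  have i2 : Set.InjOn (fun (f : (X.comap p).map (QuotientGroup.mk' K) → F) (z : X.comap p) =>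
      tr αZ z * f (φ z)) {f | f ∈ IBr F ((X.comap p).map (QuotientGroup.mk' K)) ∧
        actF (fun t : (X.comap p).map (QuotientGroup.mk' K) => s t) f = f} := by
    rintro f ⟨hf, -⟩ f' ⟨hf', -⟩ h
    have h1 := g3 (fun y => f (q y)) ((H20.IBr_equiv q).2 hf) (fun y => f' (q y))
      ((H20.IBr_equiv q).2 hf') (fun z => congrFun h z)
    funext t
    obtain ⟨y, rfl⟩ := q.surjective t
    exact congrFun h1 y
  have key : (fun (ψ : (X ⊓ L : Subgroup G) → F) (z : X.comap p) => ψ (π z)) ''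
      (LT (X ⊓ L) (tr ρ) e) =
      (fun (f : (X.comap p).map (QuotientGroup.mk' K) → F) (z : X.comap p) =>
      tr αZ z * f (φ z)) '' {f | f ∈ IBr F ((X.comap p).map (QuotientGroup.mk' K)) ∧
        actF (fun t : (X.comap p).map (QuotientGroup.mk' K) => s t) f = f} := by
    apply Set.Subset.antisymm
    · rintro _ ⟨ψ, ⟨⟨n', m, ρ', τ, hρ', hτ, hθ, rfl, hov⟩, hact⟩, rfl⟩
      have hV : IsIrr (τ.comp π) := irr_comp hτ π hπ
      obtain ⟨f0, hf0, hf1⟩ := exists_kc hc
      let β : φ.ker ≃ C := Equiv.ofBijective (fun z => f0 (κ0 z)) (hf0.comp hκ0)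
      have hβ1 : ∀ z : φ.ker, p ((z : X.comap p) : E) = β z := fun z => (hf1 (κ0 z)).1
      have hβ2 : ∀ z : φ.ker, α ((z : X.comap p) : E) = ρ (β z) := fun z => (hf1 (κ0 z)).2
      obtain ⟨m', Kr, hKr, hKr2⟩ := g2 m (τ.comp π) hV (by
        intro b hb
        have := Fintype.ofFinite φ.ker
        have := Fintype.ofFinite C
        let b' : G → F := fun g => if h : g ∈ C then b (β.symm ⟨g, h⟩) else 0
        have hb' : Sp C b' := fun g hg => dif_neg hg
        have hbc : ∀ c : C, b' c = b (β.symm c) := fun c => dif_pos c.2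
        have e1 : ex ρ b' = 0 := by
          rw [← hb, ex_eq, ev, finsum_eq_sum_of_fintype, ← Equiv.sum_comp β]
          refine Finset.sum_congr rfl fun z _ => ?_
          rw [hbc, Equiv.symm_apply_apply]
          show b z • ρ (β z) = b z • α ((z : X.comap p) : E)
          rw [hβ2]
        have e2 : ex ρ' b' = 0 := by
          have h1 := ev_eq_of_tr hF hc.irr hρ' hθ.symm (fun c : C => b' c) 0 (by
            rw [scalar_eq, zero_smul]; exact e1)
          rw [scalar_eq, zero_smul] at h1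
          exact h1
        have e3 := hov b' hb' e2
        rw [← ex_sub_group τ hCY hb', ex_eq, ← Equiv.sum_comp β] at e3
        rw [← e3, ev, finsum_eq_sum_of_fintype]
        refine Finset.sum_congr rfl fun z _ => ?_
        rw [hbc, Equiv.symm_apply_apply]
        show b z • τ (π z) = b z • τ (Subgroup.inclusion hCY (β z))
        congr 2
        exact Subtype.ext (hβ1 z))
      have hVe : tr (τ.comp π) = fun x => tr αZ x * tr Kr x := funext hKr2
      have hVact : actF aZ (tr (τ.comp π)) = tr (τ.comp π) := by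
        funext z
        rw [H20.actF_tr]
        have h1 : ev (τ.comp π) aZ = ev τ (fun y => e y) :=
          ev_infl hF τ π hπ hk (fun y : (X ⊓ L : Subgroup G) => e y)
        rw [h1]
        have h2 := congrFun hact (π z)
        rw [H20.actF_tr] at h2
        exact h2
      have h4 := (g4 aZ sZ hsZ hsum (tr Kr) ⟨m', Kr, hKr, rfl⟩).1 (by rw [← hVe]; exact hVact)
      refine ⟨fun t => tr Kr (q.symm t), ⟨?_, ?_⟩, ?_⟩
      · rw [← H20.IBr_equiv q]
        refine ⟨m', Kr, hKr, ?_⟩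
        funext y
        rw [MulEquiv.symm_apply_apply]
      · have h5 := H20.actF_equiv q
          (fun t : (X.comap p).map (QuotientGroup.mk' K) => s t) (fun t => tr Kr (q.symm t))
        have h6 : (fun h => (fun t => tr Kr (q.symm t)) (q h)) = tr Kr := by
          funext y
          show tr Kr (q.symm (q y)) = tr Kr y
          rw [MulEquiv.symm_apply_apply]
        rw [h6] at h5
        have h7 : actF (fun h => (fun t : (X.comap p).map (QuotientGroup.mk' K) => s t) (q h))
            (tr Kr) = tr Kr := h4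
        rw [h7] at h5
        funext t
        obtain ⟨y, rfl⟩ := q.surjective t
        rw [← congrFun h5 y, MulEquiv.symm_apply_apply]
      · funext z
        show tr αZ z * tr Kr (q.symm (φ z)) = tr (τ.comp π) z
        rw [hVe, ← hq, MulEquiv.symm_apply_apply]
    · rintro _ ⟨f, ⟨⟨m, κm, hκm, rfl⟩, hact⟩, rfl⟩
      obtain ⟨T, hT, hT1, hT2⟩ := g1 m (κm.comp q.toMonoidHom) (H20.irr_equiv q hκm)
      have hTe : tr T = fun x => tr αZ x * tr (κm.comp q.toMonoidHom) x := funext hT2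
      have h4 := (g4 aZ sZ hsZ hsum (tr (κm.comp q.toMonoidHom))
        ⟨m, _, H20.irr_equiv q hκm, rfl⟩).2 (by
          have h5 := H20.actF_equiv q
            (fun t : (X.comap p).map (QuotientGroup.mk' K) => s t) (tr κm)
          rw [hact] at h5
          exact h5)
      rw [← hTe] at h4
      obtain ⟨w, hw1, hw2, -⟩ := H20.eig F (X.comap p) (n * m) T hT aZ haZ
      have hw : w = 1 := by
        rw [h4] at hw2
        obtain ⟨x, hx⟩ := H33.tr_ne_zero hT
        have h6 := congrFun hw2 x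
        rw [Pi.smul_apply, smul_eq_mul] at h6
        exact (mul_right_cancel₀ hx (by rw [one_mul]; exact h6)).symm
      rw [hw] at hw1
      obtain ⟨τ, hτ, hτ1, hτ2⟩ := descent hF T hT π hπ hk
        (fun y : (X ⊓ L : Subgroup G) => e y) 1 one_ne_zero hw1
      refine ⟨tr τ, ⟨⟨n, n * m, ρ, τ, hc.irr, hτ, rfl, rfl, over_of hc hCY τ ?_⟩, ?_⟩, ?_⟩
      · intro k y hy
        have h6 : y = π ⟨k, hKX k k.2⟩ := Subtype.ext hy
        rw [h6, hτ1, hT1]
        show kr (α k) (κm (φ ⟨k, hKX k k.2⟩)) = kr (α k) 1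
        have h7 : φ ⟨k, hKX k k.2⟩ = 1 := by
          rw [← MonoidHom.mem_ker, hker]; exact k.2
        rw [h7, map_one]
      · funext y
        rw [H20.actF_tr, hτ2, scalar_eq, one_smul, one_mul]
        rfl
      · funext z
        show tr τ (π z) = tr αZ z * tr κm (φ z)
        have h6 : tr τ (π z) = tr T z := by
          show (τ (π z)).trace = (T z).trace
          rw [hτ1]
        rw [h6, hTe]
        rfl
  rw [lnum, ← i1.ncard_image, key, i2.ncard_image]

theorem last (hF : GoodF ℓ F) {L : Subgroup G} (hc : Cover ℓ C L ρ p α K)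
    [K.Normal] {e : G → F} {s : E ⧸ K → F}
    (hss : ∀ x : E, MM α K (fun x => (Nat.card p.ker : F)⁻¹ * e (p x)) x =
      Matrix.scalar (Fin n) (s x)) (m : ℕ) (κ : E ⧸ K →* Matrix (Fin m) (Fin m) F) (w : F)
    (hκ : IsIrr κ) (hev : ev κ s = Matrix.scalar (Fin m) w) (hw : w ≠ 0) :
    ∃ σ : L →* Matrix (Fin (n * m)) (Fin (n * m)) F, IsIrr σ ∧ Ov ρ σ ∧
      (∀ (x : E) (hx : p x ∈ L), σ ⟨p x, hx⟩ = kr (α x) (κ x)) ∧
      ex σ e = Matrix.scalar (Fin (n * m)) w := by
  classical
  have hT : IsIrr (H33.tens α κ) := H33.tens_irr (irrK hc) κ hκ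
  let π : E →* L := p.codRestrict L (fun x => hc.range ▸ ⟨x, rfl⟩)
  have hπc : ∀ x, (π x : G) = p x := fun x => rfl
  have hπ : Function.Surjective π := by
    intro y
    have h1 : (y : G) ∈ p.range := by rw [hc.range]; exact y.2
    obtain ⟨x, hx⟩ := h1
    exact ⟨x, Subtype.ext hx⟩
  have hcard : Nat.card π.ker = Nat.card p.ker :=
    card_ker (MonoidHom.id E) (fun x y h => h) (fun x _ => ⟨x, rfl⟩) π hπc
  have hk : ¬ ℓ ∣ Nat.card π.ker := by rw [hcard]; exact hc.prime
  have hTev : ev (H33.tens α κ) (fun x => (Nat.card π.ker : F)⁻¹ * e (π x)) =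
      Matrix.scalar (Fin (n * m)) w := by
    have := Fintype.ofFinite K
    have := Fintype.ofFinite (E ⧸ K)
    rw [ev, H33.sum_cosets (C := K), finsum_eq_sum_of_fintype]
    have e1 : ∀ y : E ⧸ K, ∑ᶠ k : K, ((Nat.card π.ker : F)⁻¹ * e (π (y.out * k))) •
        H33.tens α κ (y.out * k) = krR m (1 : Matrix (Fin n) (Fin n) F) (s y • κ y) := by
      intro y
      have e2 : ∀ k : K, ((Nat.card π.ker : F)⁻¹ * e (π (y.out * k))) •
          H33.tens α κ (y.out * k) = krL n (κ y)
            (((Nat.card p.ker : F)⁻¹ * e (p (y.out * k))) • α (y.out * k)) := by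
        intro k
        rw [map_smul, hcard]
        congr 1
        show kr (α (y.out * k)) (κ ((y.out * (k : E) : E) : E ⧸ K)) = kr (α (y.out * k)) (κ y)
        rw [QuotientGroup.mk_mul_of_mem _ k.2, QuotientGroup.out_eq']
      rw [finsum_eq_sum_of_fintype, Finset.sum_congr rfl fun k _ => e2 k, ← map_sum]
      have e3 : ∑ k : K, ((Nat.card p.ker : F)⁻¹ * e (p (y.out * k))) • α (y.out * k) =
          Matrix.scalar (Fin n) (s y) := by
        have h1 := hss y.out
        rw [QuotientGroup.out_eq', MM, finsum_eq_sum_of_fintype] at h1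
        exact h1
      rw [e3, scalar_eq, map_smul, map_smul]
      rfl
    rw [Finset.sum_congr rfl fun y _ => e1 y, ← map_sum]
    have e4 : ∑ y : E ⧸ K, s y • κ y = Matrix.scalar (Fin m) w := by
      rw [← hev, ev, finsum_eq_sum_of_fintype]
    rw [e4, scalar_eq, scalar_eq, map_smul]
    congr 1
    exact H33.kr_one
  obtain ⟨σ, hσ, hσ1, hσ2⟩ := descent hF (H33.tens α κ) hT π hπ hk (fun y : L => e y) w hw hTev
  refine ⟨σ, hσ, over_of hc hc.le σ ?_, ?_, hσ2⟩
  · intro k y hy
    have h6 : y = π k := Subtype.ext hy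
    rw [h6, hσ1]
    show kr (α k) (κ ((k : E) : E ⧸ K)) = kr (α k) 1
    rw [(QuotientGroup.eq_one_iff (k : E)).2 k.2, map_one]
  · intro x hx
    exact hσ1 x

theorem lma : LmaStmt := by
  intro ℓ F _ hF G E _ _ _ _ C hC n ρ p α K _ hc e he
  have ha : IsCl (fun x : E => (Nat.card p.ker : F)⁻¹ * e (p x)) := by
    intro x y
    show _ * e (p (y * x * y⁻¹)) = _ * e (p x)
    rw [map_mul, map_mul, map_inv, he.1]
  obtain ⟨s, hs, hss⟩ := exists_s hc ha
  exact ⟨s, hs, hss, fun X hX => count hF hC hc he.1 hs hss X hX,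
    fun m κ w hκ hev hw => last hF hc hss m κ w hκ hev hw⟩

end main

end Pool.Agent.PP.H19
end
end -- Pool.Agent.Helper19_PP.Lma
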