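import Pool.Agent.Helper12_AWB.B053
import Pool.Agent.Helper12_AWB.B090

/-!
# Merged copies (generated) of the modules

* `Pool.Agent.Helper18_PP.Brg`
* `Pool.Agent.Helper18_PP.Brg2`
-/

set_option autoImplicit false

section -- Pool.Agent.Helper18_PP.Brg

/-!
# Squad PP, module BRG: the pair sums of part J are the pair sums of the torus data
-/

open scoped BigOperators

set_option linter.unusedSectionVars false

noncomputable section

namespace Pool.Agent.PP.H18

open Pool.Agent.PP Pool.Agent.Helper51_AWC Pool.Agent.Helper79_WRA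

section sums

variable {X V : Type} [Group X] [Finite X] [AddCommMonoid V]

open Classical in
theorem sum_left (Y : Subgroup X) (k : X) (g : X → V) (hg : ∀ h, k⁻¹ * h ∉ Y → g h = 0) :
    ∑ᶠ h, g h = ∑ᶠ s : Y, g (k * s) := by
  have := Fintype.ofFinite X
  have := Fintype.ofFinite Y
  rw [finsum_eq_sum_of_fintype, finsum_eq_sum_of_fintype,
    ← Equiv.sum_comp (Equiv.mulLeft k) g]
  have h2 : ∑ t : X, g (Equiv.mulLeft k t) =
      ∑ t ∈ Finset.univ.filter (fun t => t ∈ Y), g (k * t) := by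
    rw [Finset.sum_filter]
    refine Finset.sum_congr rfl fun t _ => ?_
    by_cases ht : t ∈ Y
    · rw [if_pos ht]; rfl
    · rw [if_neg ht]
      apply hg
      change k⁻¹ * (k * t) ∉ Y
      rwa [inv_mul_cancel_left]
  rw [h2]
  exact Finset.sum_subtype _ (fun t => by rw [Finset.mem_filter]; exact ⟨fun h => h.2, fun h =>
    ⟨Finset.mem_univ _, h⟩⟩) _

open Classical in
theorem sum_right (Y : Subgroup X) (k : X) (g : X → V) (hg : ∀ h, h * k⁻¹ ∉ Y → g h = 0) :
    ∑ᶠ h, g h = ∑ᶠ s : Y, g (s * k) := by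
  have := Fintype.ofFinite X
  have := Fintype.ofFinite Y
  rw [finsum_eq_sum_of_fintype, finsum_eq_sum_of_fintype,
    ← Equiv.sum_comp (Equiv.mulRight k) g]
  have h2 : ∑ t : X, g (Equiv.mulRight k t) =
      ∑ t ∈ Finset.univ.filter (fun t => t ∈ Y), g (t * k) := by
    rw [Finset.sum_filter]
    refine Finset.sum_congr rfl fun t _ => ?_
    by_cases ht : t ∈ Y
    · rw [if_pos ht]; rfl
    · rw [if_neg ht]
      apply hg
      change t * k * k⁻¹ ∉ Y
      rwa [mul_inv_cancel_right]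
  rw [h2]
  exact Finset.sum_subtype _ (fun t => by rw [Finset.mem_filter]; exact ⟨fun h => h.2, fun h =>
    ⟨Finset.mem_univ _, h⟩⟩) _

end sums

section units

variable {F X : Type} [Field F] [Group X] [Finite X] {Y : Subgroup X} [Y.Normal] {f : X → F}

theorem cj_val (k : X) (t : Y) : ((MulAut.conjNormal k t : Y) : X) = k * t * k⁻¹ :=
  MulAut.conjNormal_apply k t

theorem cj_inv_val (k : X) (t : Y) : (((MulAut.conjNormal k)⁻¹ t : Y) : X) = k⁻¹ * t * k := by
  rw [← map_inv, cj_val, inv_inv]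

/-- the sum over `Y` reindexed by a conjugation -/
theorem sum_cj {V : Type} [AddCommMonoid V] (k : X) (g : Y → V) :
    ∑ᶠ s : Y, g (MulAut.conjNormal k s) = ∑ᶠ s : Y, g s :=
  finsum_comp_equiv (MulAut.conjNormal k : MulAut Y).toEquiv

theorem mulF_Y (a b : X → F) (t : Y) :
    mulF (fun s : Y => a s) (fun s : Y => b s) t = ∑ᶠ s : Y, a s * b ((s : X)⁻¹ * t) := rfl

theorem unt_of_unit (hf : SBlk Y f) {k : X} {u u' : X → F} (hu : IsUnitOver f Y k u u')
    (hr : mulF u' u = f) : Unt (fun t : Y => f t) (MulAut.conjNormal k)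
      (fun t : Y => u (k * t)) (fun t : Y => u' (t * k⁻¹)) := by
  have hs' : ∀ h, h * k ∉ Y → u' h = 0 := by
    intro h hh
    apply hu.right.supp
    rw [inv_inv]
    intro h2
    apply hh
    have h3 := Subgroup.Normal.conj_mem ‹Y.Normal› _ h2 k⁻¹
    have e : k⁻¹ * (k * h) * k⁻¹⁻¹ = h * k := by group
    rwa [e] at h3
  refine ⟨?_, ?_, ?_, ?_, ?_⟩
  · funext t
    have h1 : u (k * t) = ∑ᶠ h : X, f h * u (h⁻¹ * (k * t)) :=
      (congrFun hu.left.abs (k * t)).symm
    change _ = u (k * t)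
    rw [h1, sum_left Y 1 _ (fun h hh => by
      rw [hf.supp h (by rwa [inv_one, one_mul] at hh), zero_mul]),
      ← sum_cj k (fun s : Y => f (1 * (s : X)) * u ((1 * (s : X))⁻¹ * (k * t)))]
    refine finsum_congr fun s => ?_
    rw [cj_val, one_mul, hf.cl]
    have e : (k * (s : X) * k⁻¹)⁻¹ * (k * t) = k * ((s : X)⁻¹ * t) := by group
    rw [e]
    rfl
  · funext t
    have h1 : u' (t * k⁻¹) = ∑ᶠ h : X, f h * u' (h⁻¹ * (t * k⁻¹)) :=
      (congrFun hu.right.abs (t * k⁻¹)).symm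
    change _ = u' (t * k⁻¹)
    rw [h1, sum_left Y 1 _ (fun h hh => by
      rw [hf.supp h (by rwa [inv_one, one_mul] at hh), zero_mul])]
    refine finsum_congr fun s => ?_
    rw [one_mul]
    have e : (s : X)⁻¹ * (t * k⁻¹) = (s : X)⁻¹ * t * k⁻¹ := by group
    rw [e]
    rfl
  · funext t
    have h1 : f (k * t * k⁻¹) = ∑ᶠ h : X, u h * u' (h⁻¹ * (k * t * k⁻¹)) :=
      (congrFun hu.mul (k * t * k⁻¹)).symm
    change _ = f t
    rw [← hf.cl t k, h1, sum_left Y k _ (fun h hh => by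
      rw [hu.left.supp h hh, zero_mul])]
    refine finsum_congr fun s => ?_
    have e : (k * (s : X))⁻¹ * (k * t * k⁻¹) = (s : X)⁻¹ * t * k⁻¹ := by group
    rw [e]
    rfl
  · funext t
    have h1 : f t = ∑ᶠ h : X, u' h * u (h⁻¹ * t) := (congrFun hr t).symm
    change _ = f t
    rw [h1, sum_right Y k⁻¹ _ (fun h hh => by
      rw [inv_inv] at hh
      rw [hs' h hh, zero_mul])]
    refine finsum_congr fun s => ?_
    have e : ((s : X) * k⁻¹)⁻¹ * t = k * ((s : X)⁻¹ * t) := by group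
    rw [e]
    rfl
  · intro n t
    change u (k * (((MulAut.conjNormal k)⁻¹ n : Y) * t * (n : X)⁻¹)) = u (k * t)
    rw [cj_inv_val, ← hu.left.inv n n.2 (k * t)]
    congr 1
    group

open Classical in
theorem unit_of_unt (hf : SBlk Y f) {k : X} {w wi : Y → F}
    (hw : Unt (fun t : Y => f t) (MulAut.conjNormal k) w wi) :
    ∃ u u', IsUnitOver f Y k u u' ∧ ∀ t : Y, w t = u (k * t) := by
  let u : X → F := fun h => if hh : k⁻¹ * h ∈ Y then w ⟨k⁻¹ * h, hh⟩ else 0
  let u' : X → F := fun h => if hh : h * k ∈ Y then wi ⟨h * k, hh⟩ else 0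
  have hu1 : ∀ t : Y, u (k * t) = w t := by
    intro t
    have e : k⁻¹ * (k * (t : X)) = t := inv_mul_cancel_left k _
    have h1 : k⁻¹ * (k * (t : X)) ∈ Y := by rw [e]; exact t.2
    change (if hh : k⁻¹ * (k * (t : X)) ∈ Y then w ⟨k⁻¹ * (k * t), hh⟩ else 0) = w t
    rw [dif_pos h1]
    congr 1
    exact Subtype.ext e
  have hu2 : ∀ t : Y, u' (t * k⁻¹) = wi t := by
    intro t
    have e : (t : X) * k⁻¹ * k = t := inv_mul_cancel_right _ k
    have h1 : (t : X) * k⁻¹ * k ∈ Y := by rw [e]; exact t.2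
    change (if hh : (t : X) * k⁻¹ * k ∈ Y then wi ⟨(t : X) * k⁻¹ * k, hh⟩ else 0) = wi t
    rw [dif_pos h1]
    congr 1
    exact Subtype.ext e
  have hs : ∀ h, k⁻¹ * h ∉ Y → u h = 0 := fun h hh => dif_neg hh
  have hs0 : ∀ h, h * k ∉ Y → u' h = 0 := fun h hh => dif_neg hh
  have hs' : ∀ h, k⁻¹⁻¹ * h ∉ Y → u' h = 0 := by
    intro h hh
    apply hs0
    intro h2
    apply hh
    have h3 := Subgroup.Normal.conj_mem ‹Y.Normal› _ h2 k
    have e : k * (h * k) * k⁻¹ = k⁻¹⁻¹ * h := by group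
    rwa [e] at h3
  have hfs : ∀ h, (1 : X)⁻¹ * h ∉ Y → f h = 0 := fun h hh =>
    hf.supp h (by rwa [inv_one, one_mul] at hh)
  -- `w n = γ⁻¹(n) w` for `wi`
  have hcomm : ∀ (n t : Y), wi (n⁻¹ * t) = wi (t * ((MulAut.conjNormal k)⁻¹ n)⁻¹) := by
    intro n t
    have e1 : ma w * MonoidAlgebra.single n 1 =
        MonoidAlgebra.single ((MulAut.conjNormal k)⁻¹ n) 1 * ma w := by
      rw [← ma_dl, ← ma_dl, ← ma_mul, ← ma_mul]
      congr 1
      funext s
      have hL : mulF w (dl F n) s = w (s * n⁻¹) := by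
        unfold mulF
        rw [finsum_eq_single _ (s * n⁻¹)]
        · unfold dl
          rw [if_pos (by group), mul_one]
        · intro r hr
          unfold dl
          rw [if_neg, mul_zero]
          intro h
          apply hr
          rw [← h]; group
      have hR : mulF (dl F ((MulAut.conjNormal k)⁻¹ n)) w s =
          w (((MulAut.conjNormal k)⁻¹ n)⁻¹ * s) := by
        unfold mulF
        rw [finsum_eq_single _ ((MulAut.conjNormal k)⁻¹ n)]
        · unfold dl
          rw [if_pos rfl, one_mul]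
        · intro r hr
          unfold dl
          rw [if_neg hr, zero_mul]
      rw [hL, hR]
      have h2 := hw.comm n (((MulAut.conjNormal k)⁻¹ n)⁻¹ * s)
      rw [← h2]
      congr 1
      group
    have e2 : ma wi * MonoidAlgebra.single ((MulAut.conjNormal k)⁻¹ n) 1 =
        MonoidAlgebra.single n 1 * ma wi := by
      have g1 : ma wi * ma w = ma (fun t : Y => f t) := by rw [← ma_mul, hw.unit']
      have g2 : ma w * ma wi = ma (fun t : Y => f t) := by rw [← ma_mul, hw.unit]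
      have g3 : ma (fun t : Y => f t) * ma wi = ma wi := by rw [← ma_mul, hw.fwi]
      have hcen := (isCl_iff (fun t : Y => f t)).1 hf.blk.1.1
      rw [Subalgebra.mem_center_iff] at hcen
      have g4 : ma wi * ma (fun t : Y => f t) = ma wi := by rw [hcen, g3]
      calc ma wi * MonoidAlgebra.single ((MulAut.conjNormal k)⁻¹ n) 1
          = ma wi * ma (fun t : Y => f t) * MonoidAlgebra.single ((MulAut.conjNormal k)⁻¹ n) 1 := by
            rw [g4]
        _ = ma wi * (MonoidAlgebra.single ((MulAut.conjNormal k)⁻¹ n) 1 * ma w) * ma wi := by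
            rw [mul_assoc (ma wi), ← hcen, ← g2]
            simp only [mul_assoc]
        _ = ma wi * ma w * MonoidAlgebra.single n 1 * ma wi := by
            rw [← e1]
            simp only [mul_assoc]
        _ = MonoidAlgebra.single n 1 * ma wi := by
            rw [g1, ← hcen, mul_assoc, g3]
    have e3 := congrArg (fun z => z.coeff t) e2
    rw [← ma_dl, ← ma_dl, ← ma_mul, ← ma_mul] at e3
    change mulF wi (dl F ((MulAut.conjNormal k)⁻¹ n)) t = mulF (dl F n) wi t at e3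
    have hL : mulF wi (dl F ((MulAut.conjNormal k)⁻¹ n)) t =
        wi (t * ((MulAut.conjNormal k)⁻¹ n)⁻¹) := by
      unfold mulF
      rw [finsum_eq_single _ (t * ((MulAut.conjNormal k)⁻¹ n)⁻¹)]
      · unfold dl
        rw [if_pos (by group), mul_one]
      · intro r hr
        unfold dl
        rw [if_neg, mul_zero]
        intro h
        apply hr
        rw [← h]; group
    have hR : mulF (dl F n) wi t = wi (n⁻¹ * t) := by
      unfold mulF
      rw [finsum_eq_single _ n]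
      · unfold dl
        rw [if_pos rfl, one_mul]
      · intro r hr
        unfold dl
        rw [if_neg hr, zero_mul]
    rw [hL, hR] at e3
    exact e3.symm
  refine ⟨u, u', ⟨⟨hs, ?_, ?_⟩, ⟨hs', ?_, ?_⟩, ?_⟩, fun t => (hu1 t).symm⟩
  · -- `u` commutes with `Y`
    intro n hn h
    by_cases hh : k⁻¹ * h ∈ Y
    · obtain ⟨t, ht⟩ : ∃ t : Y, h = k * t := ⟨⟨_, hh⟩, (mul_inv_cancel_left k h).symm⟩
      subst ht
      have e : n * (k * (t : X)) * n⁻¹ =
          k * (((MulAut.conjNormal k)⁻¹ ⟨n, hn⟩ * t * (⟨n, hn⟩ : Y)⁻¹ : Y) : X) := by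
        change _ = k * ((((MulAut.conjNormal k)⁻¹ ⟨n, hn⟩ : Y) : X) * t * n⁻¹)
        rw [cj_inv_val]
        group
      rw [e, hu1, hu1]
      exact hw.comm ⟨n, hn⟩ t
    · rw [hs h hh, hs]
      intro h2
      apply hh
      have h3 : k⁻¹ * (n * h * n⁻¹) * n ∈ Y := Y.mul_mem h2 hn
      have h4 : k⁻¹ * n⁻¹ * k ∈ Y := by
        have := Subgroup.Normal.conj_mem ‹Y.Normal› _ (Y.inv_mem hn) k⁻¹
        rwa [inv_inv] at this
      have h5 := Y.mul_mem h4 h3
      have e : k⁻¹ * n⁻¹ * k * (k⁻¹ * (n * h * n⁻¹) * n) = k⁻¹ * h := by group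
      rwa [e] at h5
  · funext h
    change ∑ᶠ s : X, f s * u (s⁻¹ * h) = u h
    rw [sum_left Y 1 _ (fun h hh => by rw [hfs h hh, zero_mul])]
    by_cases hh : k⁻¹ * h ∈ Y
    · obtain ⟨t, ht⟩ : ∃ t : Y, h = k * t := ⟨⟨_, hh⟩, (mul_inv_cancel_left k h).symm⟩
      subst ht
      rw [hu1, ← congrFun hw.fw t,
        ← sum_cj k (fun s : Y => f (1 * (s : X)) * u ((1 * (s : X))⁻¹ * (k * t)))]
      refine finsum_congr fun s => ?_
      rw [cj_val, one_mul, hf.cl]
      have e : (k * (s : X) * k⁻¹)⁻¹ * (k * t) = k * ((s⁻¹ * t : Y) : X) := by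
        change _ = k * ((s : X)⁻¹ * t)
        group
      rw [e, hu1]
    · rw [hs h hh]
      have : ∀ s : Y, f (1 * (s : X)) * u ((1 * (s : X))⁻¹ * h) = 0 := by
        intro s
        rw [hs, mul_zero]
        intro h2
        apply hh
        have h4 : k⁻¹ * s * k ∈ Y := by
          have := Subgroup.Normal.conj_mem ‹Y.Normal› _ s.2 k⁻¹
          rwa [inv_inv] at this
        have h5 := Y.mul_mem h4 h2
        have e : k⁻¹ * s * k * (k⁻¹ * ((1 * (s : X))⁻¹ * h)) = k⁻¹ * h := by group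
        rwa [e] at h5
      rw [finsum_congr this, finsum_zero]
  · intro n hn h
    by_cases hh : h * k ∈ Y
    · obtain ⟨t, ht⟩ : ∃ t : Y, h = t * k⁻¹ := ⟨⟨_, hh⟩, (mul_inv_cancel_right h k).symm⟩
      subst ht
      have e : n * ((t : X) * k⁻¹) * n⁻¹ =
          ((⟨n, hn⟩ * t * ((MulAut.conjNormal k)⁻¹ ⟨n, hn⟩)⁻¹ : Y) : X) * k⁻¹ := by
        change _ = n * t * (((MulAut.conjNormal k)⁻¹ ⟨n, hn⟩ : Y) : X)⁻¹ * k⁻¹
        rw [cj_inv_val]
        group
      rw [e, hu2, hu2, ← hcomm ⟨n, hn⟩, inv_mul_cancel_left]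
    · rw [hs0 h hh, hs0]
      intro h2
      apply hh
      have h3 : n⁻¹ * (n * h * n⁻¹ * k) ∈ Y := Y.mul_mem (Y.inv_mem hn) h2
      have h4 : k⁻¹ * n * k ∈ Y := by
        have := Subgroup.Normal.conj_mem ‹Y.Normal› _ hn k⁻¹
        rwa [inv_inv] at this
      have h5 := Y.mul_mem h3 h4
      have e : n⁻¹ * (n * h * n⁻¹ * k) * (k⁻¹ * n * k) = h * k := by group
      rwa [e] at h5
  · funext h
    change ∑ᶠ s : X, f s * u' (s⁻¹ * h) = u' h
    rw [sum_left Y 1 _ (fun h hh => by rw [hfs h hh, zero_mul])]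
    by_cases hh : h * k ∈ Y
    · obtain ⟨t, ht⟩ : ∃ t : Y, h = t * k⁻¹ := ⟨⟨_, hh⟩, (mul_inv_cancel_right h k).symm⟩
      subst ht
      rw [hu2, ← congrFun hw.fwi t]
      refine finsum_congr fun s => ?_
      rw [one_mul]
      have e : (s : X)⁻¹ * ((t : X) * k⁻¹) = ((s⁻¹ * t : Y) : X) * k⁻¹ := by
        change _ = ((s : X)⁻¹ * t) * k⁻¹
        group
      rw [e, hu2]
    · rw [hs0 h hh]
      have : ∀ s : Y, f (1 * (s : X)) * u' ((1 * (s : X))⁻¹ * h) = 0 := by
        intro s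
        rw [hs0, mul_zero]
        intro h2
        apply hh
        have h5 := Y.mul_mem s.2 h2
        have e : (s : X) * ((1 * (s : X))⁻¹ * h * k) = h * k := by group
        rwa [e] at h5
      rw [finsum_congr this, finsum_zero]
  · funext h
    change ∑ᶠ s : X, u s * u' (s⁻¹ * h) = f h
    rw [sum_left Y k _ (fun h hh => by rw [hs h hh, zero_mul])]
    by_cases hh : h ∈ Y
    · obtain ⟨t, ht⟩ : ∃ t : Y, h = k * t * k⁻¹ := by
        refine ⟨⟨k⁻¹ * h * k, ?_⟩, ?_⟩
        · have := Subgroup.Normal.conj_mem ‹Y.Normal› _ hh k⁻¹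
          rwa [inv_inv] at this
        · change h = k * (k⁻¹ * h * k) * k⁻¹
          group
      subst ht
      have e1 : f (k * t * k⁻¹) = f t := hf.cl t k
      rw [e1]
      refine Eq.trans ?_ (congrFun hw.unit t)
      refine finsum_congr fun s => ?_
      have e : (k * (s : X))⁻¹ * (k * (t : X) * k⁻¹) = ((s⁻¹ * t : Y) : X) * k⁻¹ := by
        change _ = ((s : X)⁻¹ * t) * k⁻¹
        group
      rw [hu1, e, hu2]
    · rw [hf.supp h hh]
      have : ∀ s : Y, u (k * (s : X)) * u' ((k * (s : X))⁻¹ * h) = 0 := by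
        intro s
        rw [hs0, mul_zero]
        intro h2
        apply hh
        have h3 := Y.mul_mem s.2 h2
        have h5 := Subgroup.Normal.conj_mem ‹Y.Normal› _ h3 k
        have e : k * ((s : X) * ((k * (s : X))⁻¹ * h * k)) * k⁻¹ = h := by group
        rwa [e] at h5
      rw [finsum_congr this, finsum_zero]

end units

section chains

variable {X : Type} [Group X] [Finite X] {Y : Subgroup X} [Y.Normal]

theorem kap_cj (x y : X) : kap (MulAut.conjNormal x : MulAut Y) (MulAut.conjNormal y) =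
    MulAut.conjNormal (x * y * x⁻¹ * y⁻¹) := by
  unfold kap
  rw [map_mul, map_mul, map_mul, map_inv, map_inv]

theorem tw_cj (x : X) (n : Y) : tw (MulAut.conjNormal x : MulAut Y) n =
    MulAut.conjNormal (x * n) := by
  unfold tw
  rw [map_mul]
  congr 1
  ext t
  rw [cj_val]
  rfl

theorem cc_cj (x y : X) (n m : Y) : ((cc (MulAut.conjNormal x : MulAut Y) (MulAut.conjNormal y)
    n m : Y) : X) = (x * y * x⁻¹ * y⁻¹)⁻¹ * (x * n * (y * m) * (x * n)⁻¹ * (y * m)⁻¹) := by
  unfold cc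
  rw [kap_cj, Subgroup.coe_mul, cj_inv_val, cj_val, Subgroup.coe_mul, Subgroup.coe_mul,
    Subgroup.coe_inv, Subgroup.coe_inv, cj_val, cj_val]
  group

open Classical in
/-- the chain of subgroups of `X` -/
def up (d : Finset (Subgroup Y)) : Finset (Subgroup X) := d.image (Subgroup.map Y.subtype)

theorem mem_up {d : Finset (Subgroup Y)} {D : Subgroup X} :
    D ∈ up d ↔ ∃ E ∈ d, E.map Y.subtype = D := by
  classical
  unfold up
  rw [Finset.mem_image]

theorem map_sub_inj : Function.Injective (Subgroup.map Y.subtype) :=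
  Subgroup.map_injective Y.subtype_injective

theorem up_inj : Function.Injective (up (Y := Y)) := by
  classical
  exact Finset.image_injective map_sub_inj

theorem up_card (d : Finset (Subgroup Y)) : (up d).card = d.card := by
  classical
  exact Finset.card_image_of_injective d map_sub_inj

theorem pgroup_map {ℓ : ℕ} (D : Subgroup Y) : IsPGroup ℓ (D.map Y.subtype) ↔ IsPGroup ℓ D := by
  constructor
  · intro h
    exact h.of_equiv (D.equivMapOfInjective Y.subtype Y.subtype_injective).symm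
  · intro h
    exact h.map _

theorem up_chain {ℓ : ℕ} (d : Finset (Subgroup Y)) :
    up d ∈ chainsOn (psubIn ℓ Y) ⊥ ↔ d ∈ chainsOn (psubIn ℓ (⊤ : Subgroup Y)) ⊥ := by
  classical
  rw [mem_chainsOn, mem_chainsOn]
  constructor
  · rintro ⟨h1, h2, h3⟩
    refine ⟨fun D hD => ?_, ?_, fun D hD D' hD' hne => ?_⟩
    · have := mem_psubIn.1 (h1 (mem_up.2 ⟨D, hD, rfl⟩))
      exact mem_psubIn.2 ⟨le_top, (pgroup_map D).1 this.2⟩
    · obtain ⟨E, hE, hE'⟩ := mem_up.1 h2
      have : E = ⊥ := (Subgroup.map_eq_bot_iff_of_injective E Y.subtype_injective).1 hE'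
      rw [← this]; exact hE
    · rcases h3 (mem_up.2 ⟨D, hD, rfl⟩) (mem_up.2 ⟨D', hD', rfl⟩)
        (fun h => hne (map_sub_inj h)) with h | h
      · left; exact (Subgroup.map_le_map_iff_of_injective Y.subtype_injective).1 h
      · right; exact (Subgroup.map_le_map_iff_of_injective Y.subtype_injective).1 h
  · rintro ⟨h1, h2, h3⟩
    refine ⟨fun D hD => ?_, mem_up.2 ⟨⊥, h2, Subgroup.map_bot _⟩, ?_⟩
    · obtain ⟨E, hE, rfl⟩ := mem_up.1 hD
      have := mem_psubIn.1 (h1 hE)
      exact mem_psubIn.2 ⟨Subgroup.map_subtype_le E, (pgroup_map E).2 this.2⟩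
    · intro D hD D' hD' hne
      obtain ⟨E, hE, rfl⟩ := mem_up.1 hD
      obtain ⟨E', hE', rfl⟩ := mem_up.1 hD'
      rcases h3 hE hE' (fun h => hne (by rw [h])) with h | h
      · left; exact Subgroup.map_mono h
      · right; exact Subgroup.map_mono h

theorem up_surj {ℓ : ℕ} {t : Finset (Subgroup X)} (ht : t ∈ chainsOn (psubIn ℓ Y) ⊥) :
    ∃ d : Finset (Subgroup Y), up d = t := by
  classical
  refine ⟨t.image (fun D => D.subgroupOf Y), ?_⟩
  rw [mem_chainsOn] at ht
  unfold up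
  rw [Finset.image_image]
  have : ∀ D ∈ t, (Subgroup.map Y.subtype ∘ fun D => D.subgroupOf Y) D = D := by
    intro D hD
    change (D.subgroupOf Y).map Y.subtype = D
    rw [Subgroup.subgroupOf_map_subtype]
    exact inf_eq_left.2 (mem_psubIn.1 (ht.1 hD)).1
  rw [Finset.image_congr (g := id) this, Finset.image_id]

theorem up_top (d : Finset (Subgroup Y)) : top (up d) = (top d).map Y.subtype := by
  classical
  unfold top up
  rw [sSup_eq_iSup, sSup_eq_iSup, Subgroup.map_iSup]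
  apply le_antisymm
  · refine iSup₂_le fun D hD => ?_
    obtain ⟨E, hE, rfl⟩ := Finset.mem_image.1 (Finset.mem_coe.1 hD)
    refine le_trans ?_ (le_iSup _ E)
    rw [Subgroup.map_iSup]
    exact le_iSup (fun _ : E ∈ (d : Set (Subgroup Y)) => E.map Y.subtype) (Finset.mem_coe.2 hE)
  · refine iSup_le fun E => ?_
    rw [Subgroup.map_iSup]
    refine iSup_le fun hE => ?_
    exact le_iSup₂_of_le (E.map Y.subtype)
      (Finset.mem_coe.2 (Finset.mem_image_of_mem _ (Finset.mem_coe.1 hE))) le_rfl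

theorem conjS_map (g : X) (D : Subgroup Y) : conjS g (D.map Y.subtype) =
    (D.map (MulAut.conjNormal g : MulAut Y).toMonoidHom).map Y.subtype := by
  unfold conjS
  rw [Subgroup.map_map, Subgroup.map_map]
  congr 1

theorem mem_stab_up (g : X) (d : Finset (Subgroup Y)) :
    g ∈ stab (up d) ↔ FixC (MulAut.conjNormal g) d := by
  rw [mem_stab]
  constructor
  · intro h D hD
    have := h _ (mem_up.2 ⟨D, hD, rfl⟩)
    rw [conjS_map] at this
    exact map_sub_inj this
  · intro h D hD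
    obtain ⟨E, hE, rfl⟩ := mem_up.1 hD
    rw [conjS_map, h E hE]

theorem mem_stab_up' (n : Y) (d : Finset (Subgroup Y)) : (n : X) ∈ stab (up d) ↔ n ∈ stab d := by
  rw [mem_stab_up, mem_stab]
  have h1 : (MulAut.conjNormal (n : X) : MulAut Y) = MulAut.conj n := by
    refine MulEquiv.ext fun t => Subtype.ext ?_
    rw [cj_val]
    rfl
  rw [h1]
  exact Iff.rfl

theorem up_normal (d : Finset (Subgroup Y)) : NormalChain (up d) ↔ NormalChain d := by
  unfold NormalChain
  rw [up_top]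
  constructor
  · intro h D hD x hx
    have h1 := h _ (mem_up.2 ⟨D, hD, rfl⟩) ⟨x, hx, rfl⟩
    rw [Subgroup.mem_normalizer_iff] at h1 ⊢
    intro y
    have h2 := h1 (y : X)
    constructor
    · intro hy
      obtain ⟨z, hz, he⟩ := h2.1 ⟨y, hy, rfl⟩
      have : z = x * y * x⁻¹ := Subtype.ext he
      rw [← this]; exact hz
    · intro hy
      obtain ⟨z, hz, he⟩ := h2.2 ⟨_, hy, rfl⟩
      have : z = y := Subtype.ext he
      rw [← this]; exact hz
  · intro h D hD x hx
    obtain ⟨E, hE, rfl⟩ := mem_up.1 hD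
    obtain ⟨x, hx, rfl⟩ := hx
    have h1 := h E hE hx
    rw [Subgroup.mem_normalizer_iff] at h1 ⊢
    intro y
    constructor
    · rintro ⟨z, hz, rfl⟩
      exact ⟨x * z * x⁻¹, (h1 z).1 hz, rfl⟩
    · rintro ⟨z, hz, he⟩
      refine ⟨x⁻¹ * z * x, (h1 _).2 ?_, ?_⟩
      · have : x * (x⁻¹ * z * x) * x⁻¹ = z := by group
        rw [this]; exact hz
      · change (x : X)⁻¹ * (z : X) * x = y
        have he' : (z : X) = x * y * (x : X)⁻¹ := he
        rw [he']; group

/-- the isomorphism of the stabilisers -/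
def stE (d : Finset (Subgroup Y)) : stab d ≃* ↥(Y ⊓ stab (up d)) where
  toFun s := ⟨((s : Y) : X), ⟨(s : Y).2, (mem_stab_up' _ d).2 s.2⟩⟩
  invFun s := ⟨⟨s, s.2.1⟩, (mem_stab_up' ⟨(s : X), s.2.1⟩ d).1 s.2.2⟩
  left_inv _ := rfl
  right_inv _ := rfl
  map_mul' _ _ := rfl

theorem stE_val (d : Finset (Subgroup Y)) (s : stab d) : ((stE d s : ↥(Y ⊓ stab (up d))) : X) =
    ((s : Y) : X) := rfl

end chains

end Pool.Agent.PP.H18
end
end -- Pool.Agent.Helper18_PP.Brg

section -- Pool.Agent.Helper18_PP.Brg2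

/-!
# Squad PP, module BRG, second part: scalars and the comparison of the pair sums
-/

open scoped BigOperators

set_option linter.unusedSectionVars false

noncomputable section

namespace Pool.Agent.PP.H18

open Pool.Agent.PP Pool.Agent.Helper51_AWC Pool.Agent.Helper79_WRA

section scal

variable {F X : Type} [Field F] [Group X] [Finite X] {Y : Subgroup X} [Y.Normal]

/-- matrices: the two forms of the scalar equation -/
theorem scal_iff {n : ℕ} (A B : (Matrix (Fin n) (Fin n) F)ˣ) (W : Matrix (Fin n) (Fin n) F)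
    (s : F) : ((A * B * A⁻¹ * B⁻¹ : (Matrix (Fin n) (Fin n) F)ˣ) : Matrix (Fin n) (Fin n) F) * W =
      Matrix.scalar (Fin n) s ↔
    W * ((A : Matrix (Fin n) (Fin n) F) * B) = s • ((B : Matrix (Fin n) (Fin n) F) * A) := by
  have hsc : Matrix.scalar (Fin n) s = s • (1 : Matrix (Fin n) (Fin n) F) := by
    rw [Matrix.scalar_apply, ← Matrix.smul_one_eq_diagonal]
  constructor
  · intro h
    have h2 : W = s • ((B * A * B⁻¹ * A⁻¹ : (Matrix (Fin n) (Fin n) F)ˣ) :
        Matrix (Fin n) (Fin n) F) := by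
      have h3 := congrArg (fun Z => ((B * A * B⁻¹ * A⁻¹ : (Matrix (Fin n) (Fin n) F)ˣ) :
        Matrix (Fin n) (Fin n) F) * Z) h
      simp only [← mul_assoc, ← Units.val_mul] at h3
      have e : B * A * B⁻¹ * A⁻¹ * A * B * A⁻¹ * B⁻¹ = 1 := by group
      rw [e, Units.val_one, one_mul, hsc, Matrix.mul_smul, mul_one] at h3
      exact h3
    rw [h2, smul_mul_assoc, ← Units.val_mul, ← Units.val_mul]
    have e : B * A * B⁻¹ * A⁻¹ * (A * B) = B * A := by group
    rw [e, Units.val_mul]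
  · intro h
    have h2 : W = s • ((B * A * B⁻¹ * A⁻¹ : (Matrix (Fin n) (Fin n) F)ˣ) :
        Matrix (Fin n) (Fin n) F) := by
      have h3 := congrArg (fun Z => Z * (((A * B)⁻¹ : (Matrix (Fin n) (Fin n) F)ˣ) :
        Matrix (Fin n) (Fin n) F)) h
      simp only [smul_mul_assoc, ← Units.val_mul, mul_assoc, mul_inv_cancel, Units.val_one,
        mul_one] at h3
      rw [h3]
      have e : B * (A * (A * B)⁻¹) = B * A * B⁻¹ * A⁻¹ := by group
      rw [e]
    rw [h2, Matrix.mul_smul, ← Units.val_mul, hsc]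
    have e : A * B * A⁻¹ * B⁻¹ * (B * A * B⁻¹ * A⁻¹) = 1 := by group
    rw [e, Units.val_one]

/-- the Brauer map does not matter in an irreducible representation -/
theorem ev_br_left {ℓ : ℕ} (hF : GoodF ℓ F) (hnls : NlsStmt) {S R : Subgroup X}
    (hloc : Loc ℓ Y R S) {n : ℕ} (ρ : ↥(Y ⊓ S) →* Matrix (Fin n) (Fin n) F) (hρ : IsIrr ρ)
    {k : X} (hk : k ∈ S) {u : X → F} (hu : ∀ m ∈ Y, ∀ h, u (m * h * m⁻¹) = u h) :
    ev ρ (fun t : ↥(Y ⊓ S) => br R u (k * t)) = ev ρ (fun t : ↥(Y ⊓ S) => u (k * t)) := by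
  classical
  have : Fact ℓ.Prime := ⟨hF.prime⟩
  have := hF.char
  -- `R` as a subgroup of `Y ⊓ S`
  let R' : Subgroup ↥(Y ⊓ S) := R.subgroupOf (Y ⊓ S)
  have hRn : ∀ g ∈ S, ∀ r ∈ R, g * r * g⁻¹ ∈ R := fun g hg r hr =>
    (Subgroup.mem_normalizer_iff.1 (hloc.norm hg) r).1 hr
  have hR'n : R'.Normal := by
    refine ⟨fun r hr g => ?_⟩
    rw [Subgroup.mem_subgroupOf] at hr ⊢
    exact hRn g g.2.2 r hr
  have hR'p : IsPGroup ℓ R' := by
    have h1 : IsPGroup ℓ (R ⊓ (Y ⊓ S) : Subgroup X) := hloc.pgrp.to_le inf_le_left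
    rw [← Subgroup.subgroupOf_map_subtype] at h1
    exact h1.of_equiv ((R.subgroupOf (Y ⊓ S)).equivMapOfInjective _
      (Y ⊓ S).subtype_injective).symm
  have htriv := (hnls ℓ F hF _ R' hR'n hR'p n ρ hρ).1
  have htriv' : ∀ r ∈ R, ∀ h : r ∈ Y ⊓ S, ρ ⟨r, h⟩ = 1 := fun r hr h =>
    htriv ⟨r, h⟩ (Subgroup.mem_subgroupOf.2 hr)
  have := Fintype.ofFinite ↥(Y ⊓ S)
  have hRYS : ∀ r ∈ R, r ∈ Y ⊓ S := fun r hr => ⟨hloc.le hr, hloc.leS hr⟩
  -- the action of `R` on `Y ⊓ S`
  have hkr : ∀ r ∈ R, k⁻¹ * r * k ∈ R := by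
    intro r hr
    have := hRn k⁻¹ (S.inv_mem hk) r hr
    rwa [inv_inv] at this
  let _ : MulAction R ↥(Y ⊓ S) :=
    { smul := fun r t => ⟨k⁻¹ * r * k, hRYS _ (hkr r r.2)⟩ * t * ⟨(r : X)⁻¹, hRYS _ (R.inv_mem r.2)⟩
      one_smul := fun t => Subtype.ext (by
        change k⁻¹ * ((1 : R) : X) * k * (t : X) * ((1 : R) : X)⁻¹ = t
        rw [Subgroup.coe_one, mul_one, inv_mul_cancel, inv_one, mul_one, one_mul])
      mul_smul := fun r s t => Subtype.ext (by
        change k⁻¹ * ((r * s : R) : X) * k * (t : X) * ((r * s : R) : X)⁻¹ =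
          k⁻¹ * (r : X) * k * (k⁻¹ * (s : X) * k * (t : X) * (s : X)⁻¹) * (r : X)⁻¹
        rw [Subgroup.coe_mul]
        group) }
  have hsm : ∀ (r : R) (t : ↥(Y ⊓ S)), r • t =
    ⟨k⁻¹ * r * k, hRYS _ (hkr r r.2)⟩ * t * ⟨(r : X)⁻¹, hRYS _ (R.inv_mem r.2)⟩ := fun _ _ => rfl
  have hsmX : ∀ (r : R) (t : ↥(Y ⊓ S)), k * ((r • t : ↥(Y ⊓ S)) : X) = r * (k * t) * (r : X)⁻¹ := by
    intro r t
    rw [hsm]
    change k * (k⁻¹ * (r : X) * k * (t : X) * (r : X)⁻¹) = r * (k * t) * (r : X)⁻¹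
    group
  have hρsm : ∀ (r : R) (t : ↥(Y ⊓ S)), ρ (r • t) = ρ t := by
    intro r t
    rw [hsm, map_mul, map_mul, htriv' _ (hkr r r.2), htriv' _ (R.inv_mem r.2), one_mul, mul_one]
  unfold ev
  rw [finsum_eq_sum_of_fintype, finsum_eq_sum_of_fintype]
  have hV : ∀ v : Matrix (Fin n) (Fin n) F, ℓ • v = 0 := by
    intro v
    ext i j
    rw [Matrix.smul_apply, nsmul_eq_mul, CharP.cast_eq_zero, zero_mul, Matrix.zero_apply]
  have key := H74.orbit_sum (R := R) (T := ↥(Y ⊓ S)) hloc.pgrp hV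
    (fun t : ↥(Y ⊓ S) => u (k * t) • ρ t) (by
      intro r t
      rw [hsmX, hu r (hloc.le r.2), hρsm])
  have hfix : ∀ t : ↥(Y ⊓ S), (∀ r : R, r • t = t) ↔
      k * (t : X) ∈ Subgroup.centralizer (R : Set X) := by
    intro t
    rw [Subgroup.mem_centralizer_iff]
    constructor
    · intro h r hr
      have h1 := hsmX ⟨r, hr⟩ t
      rw [h ⟨r, hr⟩] at h1
      change k * (t : X) = r * (k * t) * r⁻¹ at h1
      calc r * (k * (t : X)) = r * (k * t) * r⁻¹ * r := by group
        _ = k * t * r := by rw [← h1]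
    · intro h r
      apply Subtype.ext
      have h1 := hsmX r t
      have h2 := h r r.2
      have h3 : (r : X) * (k * (t : X)) * (r : X)⁻¹ = k * t := by
        rw [h2, mul_inv_cancel_right]
      rw [h3] at h1
      exact mul_left_cancel h1
  have hR0 : ∑ t : ↥(Y ⊓ S), br R u (k * t) • ρ t = ∑ t ∈ Finset.univ.filter
      (fun t : ↥(Y ⊓ S) => ∀ r : R, r • t = t), u (k * t) • ρ t := by
    rw [Finset.sum_filter]
    refine Finset.sum_congr rfl fun t _ => ?_
    unfold br
    by_cases ht : k * (t : X) ∈ Subgroup.centralizer (R : Set X)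
    · rw [if_pos ht, if_pos ((hfix t).2 ht)]
    · rw [if_neg ht, if_neg (fun h => ht ((hfix t).1 h)), zero_smul]
  rw [hR0]
  exact key.symm

theorem choose_eq {P Q : F → Prop} (h : P = Q) :
    (open Classical in if h : ∃ s, P s then h.choose else (0 : F)) =
      (open Classical in if h : ∃ s, Q s then h.choose else (0 : F)) := by
  subst h
  rfl

end scal

section compare

variable {F X : Type} [Field F] [Group X] [Finite X] {Y : Subgroup X} [Y.Normal]

/-- IsTS and IsSC -/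
theorem ts_iff {ℓ : ℕ} (hF : GoodF ℓ F) (hnls : NlsStmt) (d : Finset (Subgroup Y))
    (hloc : Loc ℓ Y (top (up d)) (stab (up d))) {x y : X} (hx : x ∈ stab (up d))
    (hy : y ∈ stab (up d)) {u : X → F} (hu : ∀ m ∈ Y, ∀ h, u (m * h * m⁻¹) = u h)
    (φ : ↥(Y ⊓ stab (up d)) → F) (v : Y → F)
    (hv : ∀ t : Y, v t = u (x * y * x⁻¹ * y⁻¹ * t)) (s : F) :
    IsTS (stab d) (fun t => φ (stE d t)) (MulAut.conjNormal x : MulAut Y) (MulAut.conjNormal y) v s ↔
      IsSC Y (stab (up d)) (top (up d)) φ x y u s := by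
  have hk : x * y * x⁻¹ * y⁻¹ ∈ stab (up d) := (stab (up d)).mul_mem ((stab (up d)).mul_mem
    ((stab (up d)).mul_mem hx hy) ((stab (up d)).inv_mem hx)) ((stab (up d)).inv_mem hy)
  constructor
  · rintro ⟨n, ρ, A, B, hρ, htr, hA, hB, hs⟩
    refine ⟨n, ρ.comp (stE d).symm.toMonoidHom, A, B, H20.irr_equiv _ hρ, ?_, ?_, ?_, ?_⟩
    · funext t
      have := congrFun htr ((stE d).symm t)
      change tr ρ ((stE d).symm t) = φ (stE d ((stE d).symm t)) at this
      rw [MulEquiv.apply_symm_apply] at this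
      exact this
    · exact ⟨A.isUnit, fun g g' h => hA _ _ (Subtype.ext (by
        rw [cj_val]
        exact h))⟩
    · exact ⟨B.isUnit, fun g g' h => hB _ _ (Subtype.ext (by
        rw [cj_val]
        exact h))⟩
    · rw [ev_br_left hF hnls hloc _ (H20.irr_equiv _ hρ) hk hu]
      have h1 := H20.ev_equiv (stE d).symm ρ (fun t : stab d => v t)
      have h2 : (fun t : ↥(Y ⊓ stab (up d)) => (fun t : stab d => v t) ((stE d).symm t)) =
          fun t : ↥(Y ⊓ stab (up d)) => u (x * y * x⁻¹ * y⁻¹ * (t : X)) := by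
        funext t
        exact hv _
      rw [h2] at h1
      rw [h1]
      exact (scal_iff A B _ s).1 hs
  · rintro ⟨n, ρ, A, B, hρ, htr, ⟨hA1, hA⟩, ⟨hB1, hB⟩, hs⟩
    obtain ⟨A, rfl⟩ := hA1
    obtain ⟨B, rfl⟩ := hB1
    refine ⟨n, ρ.comp (stE d).toMonoidHom, A, B, H20.irr_equiv _ hρ, ?_, ?_, ?_, ?_⟩
    · funext t
      exact congrFun htr (stE d t)
    · intro g g' h
      refine hA _ _ ?_
      have h1 := congrArg (fun z : Y => (z : X)) h
      change ((g' : Y) : X) = x * ((g : Y) : X) * x⁻¹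
      exact h1.trans (cj_val x _)
    · intro g g' h
      refine hB _ _ ?_
      have h1 := congrArg (fun z : Y => (z : X)) h
      change ((g' : Y) : X) = y * ((g : Y) : X) * y⁻¹
      exact h1.trans (cj_val y _)
    · rw [ev_br_left hF hnls hloc _ hρ hk hu] at hs
      rw [scal_iff]
      have h1 := H20.ev_equiv (stE d) ρ
        (fun t : ↥(Y ⊓ stab (up d)) => u (x * y * x⁻¹ * y⁻¹ * t))
      have h2 : (fun t : stab d => (fun t : ↥(Y ⊓ stab (up d)) => u (x * y * x⁻¹ * y⁻¹ * t))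
          (stE d t)) = fun t : stab d => v t := by
        funext t
        exact (hv _).symm
      rw [h2] at h1
      rw [h1]
      exact hs

theorem ts_eq {ℓ : ℕ} (hF : GoodF ℓ F) (hnls : NlsStmt) (d : Finset (Subgroup Y))
    (hloc : Loc ℓ Y (top (up d)) (stab (up d))) {x y : X} (hx : x ∈ stab (up d))
    (hy : y ∈ stab (up d)) {u : X → F} (hu : ∀ m ∈ Y, ∀ h, u (m * h * m⁻¹) = u h)
    (φ : ↥(Y ⊓ stab (up d)) → F) (v : Y → F)
    (hv : ∀ t : Y, v t = u (x * y * x⁻¹ * y⁻¹ * t)) :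
    ts (stab d) (fun t => φ (stE d t)) (MulAut.conjNormal x : MulAut Y) (MulAut.conjNormal y) v =
      sc Y (stab (up d)) (top (up d)) φ x y u :=
  choose_eq (funext fun s => propext (ts_iff hF hnls d hloc hx hy hu φ v hv s))

theorem tset_iff (d : Finset (Subgroup Y)) (f : X → F) (x y : X)
    (φ : ↥(Y ⊓ stab (up d)) → F) :
    (fun t => φ (stE d t)) ∈ tset (stab d) (fun t : Y => f t) (MulAut.conjNormal x : MulAut Y)
      (MulAut.conjNormal y) ↔ φ ∈ phiS Y (stab (up d)) f x y := by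
  unfold tset phiS
  rw [Set.mem_ofPred_eq, Set.mem_ofPred_eq, H20.IBr_equiv]
  have h1 := H20.actF_equiv (stE d) (fun t : ↥(Y ⊓ stab (up d)) => f t) φ
  have h2 : (actF (fun t : stab d => (fun t : Y => f t) t) (fun t => φ (stE d t)) =
      fun t => φ (stE d t)) ↔ actF (fun t : ↥(Y ⊓ stab (up d)) => f t) φ = φ := by
    constructor
    · intro h
      funext t
      have h3 := congrFun (h1.symm.trans h) ((stE d).symm t)
      simp only [MulEquiv.apply_symm_apply] at h3
      exact h3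
    · intro h
      refine h1.trans ?_
      rw [h]
  have h3 : ∀ z : X, (∀ h h' : stab d, ((h' : Y) : Y) = (MulAut.conjNormal z : MulAut Y) h →
      φ (stE d h') = φ (stE d h)) ↔
      ∀ n n' : ↥(Y ⊓ stab (up d)), (n' : X) = z * n * z⁻¹ → φ n' = φ n := by
    intro z
    constructor
    · intro h n n' hn
      have h4 := h ((stE d).symm n) ((stE d).symm n') (Subtype.ext (by
        rw [cj_val]
        exact hn))
      rw [MulEquiv.apply_symm_apply, MulEquiv.apply_symm_apply] at h4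
      exact h4
    · intro h n n' hn
      refine h _ _ ?_
      have h4 := congrArg (fun z : Y => (z : X)) hn
      rw [stE_val, stE_val]
      exact h4.trans (cj_val z _)
  constructor
  · rintro ⟨g1, g2, g3, g4⟩
    exact ⟨g1, h2.1 g2, (h3 x).1 g3, (h3 y).1 g4⟩
  · rintro ⟨g1, g2, g3, g4⟩
    exact ⟨g1, h2.2 g2, (h3 x).2 g3, (h3 y).2 g4⟩

/-- the contributions of a chain -/
theorem tcon_eq {ℓ : ℕ} (hF : GoodF ℓ F) (hnls : NlsStmt) (τ : F → ℂ) (d : Finset (Subgroup Y))
    (hloc : Loc ℓ Y (top (up d)) (stab (up d))) {x y : X} (hx : x ∈ stab (up d))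
    (hy : y ∈ stab (up d)) (f : X → F) {u : X → F} (hu : ∀ m ∈ Y, ∀ h, u (m * h * m⁻¹) = u h)
    (v : Y → F) (hv : ∀ t : Y, v t = u (x * y * x⁻¹ * y⁻¹ * t)) :
    tcon τ (fun t : Y => f t) (MulAut.conjNormal x : MulAut Y) (MulAut.conjNormal y) v d =
      (Nat.card ↥(Y ⊓ stab (up d)) : ℂ)⁻¹ *
        SS τ Y (stab (up d)) (top (up d)) f x y u := by
  unfold tcon SS
  rw [Nat.card_congr (stE d).toEquiv]
  congr 1
  symm
  apply finsum_mem_eq_of_bijOn (fun φ : ↥(Y ⊓ stab (up d)) → F => fun t => φ (stE d t))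
  · refine ⟨fun φ hφ => (tset_iff d f x y φ).2 hφ, ?_, ?_⟩
    · intro φ _ ψ _ h
      funext k
      have := congrFun h ((stE d).symm k)
      simp only [MulEquiv.apply_symm_apply] at this
      exact this
    · intro ψ hψ
      have h1 : ψ = fun t => (fun k => ψ ((stE d).symm k)) (stE d t) := by
        funext t
        change ψ t = ψ ((stE d).symm (stE d t))
        rw [MulEquiv.symm_apply_apply]
      rw [h1] at hψ
      exact ⟨fun k => ψ ((stE d).symm k),
        (tset_iff d f x y (fun k => ψ ((stE d).symm k))).1 hψ, h1.symm⟩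
  · intro φ _
    rw [ts_eq hF hnls d hloc hx hy hu φ v hv]

open Classical in
theorem brg (hnls : NlsStmt) (hlct : LctStmt) (hxfs : XfsStmt) : BrgStmt := by
  intro ℓ F _ hF τ _ X _ _ Y _ f hf x y
  refine ⟨fun u u' hu => ⟨⟨hf.blk, ?_, ?_, ?_⟩, ?_⟩, fun w wi hw => ?_⟩
  · intro t
    change f ((MulAut.conjNormal x t : Y) : X) = f t
    rw [cj_val, hf.cl]
  · intro t
    change f ((MulAut.conjNormal y t : Y) : X) = f t
    rw [cj_val, hf.cl]
  · rw [kap_cj]
    exact unt_of_unit hf hu ((hxfs ℓ F hF X Y inferInstance f hf).2.2.2.1 _ _ _ hu).1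
  · unfold DJ DD
    refine finsum_congr fun n => finsum_congr fun m => ?_
    symm
    refine Finset.sum_bij (fun d _ => up d) ?_ ?_ ?_ ?_
    · intro d hd
      rw [Finset.mem_filter] at hd ⊢
      rw [up_chain, up_normal, mem_stab_up, mem_stab_up, ← tw_cj, ← tw_cj]
      exact hd
    · intro d _ d' _ h
      exact up_inj h
    · intro t ht
      rw [Finset.mem_filter] at ht
      obtain ⟨d, rfl⟩ := up_surj ht.1
      refine ⟨d, ?_, rfl⟩
      rw [Finset.mem_filter]
      rw [up_chain, up_normal, mem_stab_up, mem_stab_up, ← tw_cj, ← tw_cj] at ht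
      exact ht
    · intro d hd
      rw [Finset.mem_filter] at hd
      obtain ⟨hd1, hd2, hd3, hd4⟩ := hd
      rw [tw_cj, ← mem_stab_up] at hd3 hd4
      have hloc := hlct ℓ X Y hF.prime (up d) ((up_chain d).2 hd1) ((up_normal d).2 hd2)
      have e1 := tcon_eq hF hnls τ d hloc hd3 hd4 f hu.left.inv
        (fun t : Y => (fun t : Y => u (x * y * x⁻¹ * y⁻¹ * t)) (cc (MulAut.conjNormal x : MulAut Y)
          (MulAut.conjNormal y) n m * t)) (by
          intro t
          change u (x * y * x⁻¹ * y⁻¹ * ((cc (MulAut.conjNormal x : MulAut Y)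
            (MulAut.conjNormal y) n m * t : Y) : X)) = _
          rw [Subgroup.coe_mul, cc_cj]
          congr 1
          group)
      rw [up_card, tw_cj, tw_cj]
      refine Eq.trans (congrArg (fun c => (-1 : ℂ) ^ (d.card + 1) * c) e1) ?_
      ring
  · have hw' := hw.unt
    rw [kap_cj] at hw'
    exact unit_of_unt hf hw'

end compare

end Pool.Agent.PP.H18
end
end -- Pool.Agent.Helper18_PP.Brg2
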