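import Pool.Agent.Helper12_AWB.B051
import Pool.Agent.Helper12_AWB.B055
import Pool.Agent.Helper12_AWB.B058
import Pool.Agent.Helper12_AWB.B069
import Pool.Agent.Helper66_PP.Pos1
import Pool.Agent.Helper66_PP.StmtsJ
import Pool.Agent.Helper75_PP.Corner

/-!
# Merged copies (generated) of the modules

* `Pool.Agent.Helper66_PP.Lct`
* `Pool.Agent.Helper74_PP.Chf`
* `Pool.Agent.Helper94_PP.Sum`
* `Pool.Agent.Helper94_PP.Db2a`
* `Pool.Agent.Helper74_PP.ChfS`
-/

set_option autoImplicit false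

section -- Pool.Agent.Helper66_PP.Lct

/-!
# Squad PP, part J: LCT and BBY
-/

open scoped BigOperators

noncomputable section

namespace Pool.Agent.PP.H66

open Pool.Agent.PP Pool.Agent.Helper51_AWC Pool.Agent.Helper79_WRA

/-- LCT -/
theorem lct : LctStmt := by
  intro ℓ X _ _ Y _ t ht hn
  rw [mem_chainsOn] at ht
  obtain ⟨h1, h2, h3⟩ := ht
  obtain ⟨htop, hle⟩ := Pool.Agent.PP.H94.top_mem h3 ⟨_, h2⟩
  have hY := mem_psubIn.1 (h1 htop)
  refine ⟨hY.2, hY.1, ?_, ?_, ?_⟩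
  · exact le_iInf₂ fun D hD => hn D hD
  · refine le_iInf₂ fun D hD => ?_
    refine le_trans ?_ (Subgroup.centralizer_le_normalizer _)
    exact Subgroup.centralizer_le (hle D hD)
  · exact iInf₂_le (top t) htop

section bby

variable {F X : Type} [Field F] [Group X] {f : X → F} {Y M : Subgroup X}

omit [Field F] in
theorem cjF_mul (x y : X) (u : X → F) : cjF (x * y) u = cjF x (cjF y u) := by
  funext h
  unfold cjF
  congr 1
  group

omit [Field F] in
theorem cjF_of_mem {n : X} (hn : n ∈ Y) {c : X → F} (hc : ∀ n ∈ Y, ∀ h, c (n * h * n⁻¹) = c h) :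
    cjF n c = c := by
  funext h
  have := hc n⁻¹ (Y.inv_mem hn) h
  rw [inv_inv] at this
  exact this

omit [Field F] in
theorem cjF_mul_of_mem {x n : X} (hn : n ∈ Y) {c : X → F}
    (hc : ∀ n ∈ Y, ∀ h, c (n * h * n⁻¹) = c h) : cjF (x * n) c = cjF x c := by
  rw [cjF_mul, cjF_of_mem hn hc]

theorem omS_mul {e : X → F} {x y n m : X} (hn : n ∈ Y) (hm : m ∈ Y) :
    omS f Y M e (x * n) (y * m) = omS f Y M e x y := by
  ext ω
  constructor
  · rintro ⟨h1, h2, h3, h4⟩
    refine ⟨h1, h2, fun d hd => ?_, fun d hd => ?_⟩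
    · rw [← h3 d hd, cjF_mul_of_mem hn hd.cc.inv]
    · rw [← h4 d hd, cjF_mul_of_mem hm hd.cc.inv]
  · rintro ⟨h1, h2, h3, h4⟩
    refine ⟨h1, h2, fun d hd => ?_, fun d hd => ?_⟩
    · rw [cjF_mul_of_mem hn hd.cc.inv, h3 d hd]
    · rw [cjF_mul_of_mem hm hd.cc.inv, h4 d hd]

theorem impW_mul {m : ℕ} {W : (X → F) →ₗ[F] Matrix (Fin m) (Fin m) F} {x n : X} (hn : n ∈ Y)
    (A : Matrix (Fin m) (Fin m) F) : ImpW f Y M W (x * n) A ↔ ImpW f Y M W x A := by
  constructor
  · rintro ⟨h1, h2⟩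
    refine ⟨h1, fun d hd => ?_⟩
    rw [h2 d hd, cjF_mul_of_mem hn hd.cc.inv]
  · rintro ⟨h1, h2⟩
    refine ⟨h1, fun d hd => ?_⟩
    rw [h2 d hd, cjF_mul_of_mem hn hd.cc.inv]

theorem isSW_mul {ω : (X → F) → F} {x y n m : X} {u : X → F} (hn : n ∈ Y) (hm : m ∈ Y) (c : F) :
    IsSW f Y M ω (x * n) (y * m) u c ↔ IsSW f Y M ω x y u c := by
  unfold IsSW
  simp only [impW_mul hn, impW_mul hm]

theorem sW_mul {ω : (X → F) → F} {x y n m : X} {u : X → F} (hn : n ∈ Y) (hm : m ∈ Y) :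
    sW f Y M ω (x * n) (y * m) u = sW f Y M ω x y u := by
  have h : IsSW f Y M ω (x * n) (y * m) u = IsSW f Y M ω x y u :=
    funext fun c => propext (isSW_mul hn hm c)
  unfold sW
  rw [h]

end bby

/-- BBY -/
theorem bby : BbyStmt := by
  intro ℓ F _ _ τ X _ _ Y _ f _ M e _ _ x y u n hn m hm
  unfold BB
  rw [omS_mul hn hm]
  simp only [sW_mul hn hm]

end Pool.Agent.PP.H66
end
end -- Pool.Agent.Helper66_PP.Lct

section -- Pool.Agent.Helper74_PP.Chf

/-!
CHF: chains of `ℓ`-subgroups of a normal subgroup under a homomorphism whose kernel centralises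
the subgroup and meets it in an `ℓ'`-group.
-/

open scoped BigOperators

set_option linter.unusedSectionVars false

noncomputable section

namespace Pool.Agent.PP.H74

open Pool.Agent.PP Pool.Agent.Helper51_AWC Pool.Agent.Helper79_WRA

section chf

variable {E G : Type} [Group E] [Group G] [Finite E] [Finite G] {ℓ : ℕ} (hℓ : ℓ.Prime)
  (f : E →* G) (M : Subgroup E) (hM : M.Normal) (hc : ∀ k, f k = 1 → ∀ m ∈ M, k * m = m * k)
  (hk : ¬ ℓ ∣ Nat.card (f.ker ⊓ M : Subgroup E))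

include hℓ hk in
theorem chf_ker_eq_one {z : E} (hz : f z = 1) (hzM : z ∈ M) {k : ℕ} (h : z ^ ℓ ^ k = 1) :
    z = 1 := by
  have h1 : orderOf z ∣ ℓ ^ k := orderOf_dvd_of_pow_eq_one h
  have h2 : orderOf z ∣ Nat.card (f.ker ⊓ M : Subgroup E) := by
    have := orderOf_dvd_natCard (⟨z, Subgroup.mem_inf.2 ⟨hz, hzM⟩⟩ : (f.ker ⊓ M : Subgroup E))
    rwa [Subgroup.orderOf_mk] at this
  have h3 : orderOf z ∣ 1 := by
    have h4 : (Nat.card (f.ker ⊓ M : Subgroup E)).Coprime (ℓ ^ k) :=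
      Nat.Coprime.pow_right k ((Nat.Prime.coprime_iff_not_dvd hℓ).2 hk).symm
    have := Nat.dvd_gcd h2 h1
    rwa [h4] at this
  exact orderOf_eq_one_iff.1 (Nat.dvd_one.1 h3)

include hℓ hc hk in
theorem chf_map_le {D D' : Subgroup E} (hD : IsPGroup ℓ D) (hD' : IsPGroup ℓ D') (hDM : D ≤ M)
    (hDM' : D' ≤ M) (h : D.map f ≤ D'.map f) : D ≤ D' := by
  intro x hx
  obtain ⟨y, hy, hxy⟩ := h ⟨x, hx, rfl⟩
  obtain ⟨k, hk1⟩ := pgroup_pow hD hx
  obtain ⟨k', hk2⟩ := pgroup_pow hD' hy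
  have hz : f (y⁻¹ * x) = 1 := by rw [map_mul, map_inv, hxy, inv_mul_cancel]
  have hzM : y⁻¹ * x ∈ M := M.mul_mem (M.inv_mem (hDM' hy)) (hDM hx)
  have hz1 : y⁻¹ * x = 1 := by
    apply chf_ker_eq_one hℓ f M hk hz hzM (k := k + k')
    have hcomm : Commute y x := by
      have h1 : x = y * (y⁻¹ * x) := by group
      have h2 : Commute y (y⁻¹ * x) := (hc _ hz y (hDM' hy)).symm
      rw [h1]
      exact (Commute.refl y).mul_right h2
    rw [hcomm.inv_left.mul_pow, inv_pow, pow_add, pow_mul x, hk1, one_pow, mul_comm (ℓ ^ k),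
      pow_mul y, hk2, one_pow, inv_one, one_mul]
  have h1 : x = y := by
    rw [inv_mul_eq_one] at hz1
    exact hz1.symm
  rw [h1]
  exact hy

include hℓ hk in
theorem chf_lift {R : Subgroup G} (hR : IsPGroup ℓ R) (hRM : R ≤ M.map f) :
    ∃ D : Subgroup E, D ≤ M ∧ IsPGroup ℓ D ∧ D.map f = R := by
  have : Fact ℓ.Prime := ⟨hℓ⟩
  let P0 : Subgroup E := R.comap f ⊓ M
  obtain ⟨P⟩ : Nonempty (Sylow ℓ P0) := inferInstance
  let D : Subgroup E := (P : Subgroup P0).map P0.subtype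
  have hD : IsPGroup ℓ D := P.isPGroup'.map _
  have hDM : D ≤ M := by
    rintro _ ⟨y, _, rfl⟩
    exact (Subgroup.mem_inf.1 y.2).2
  have hDR : D.map f ≤ R := by
    rintro _ ⟨x, ⟨y, _, rfl⟩, rfl⟩
    exact (Subgroup.mem_inf.1 y.2).1
  refine ⟨D, hDM, hD, ?_⟩
  obtain ⟨n, hn⟩ := hR.exists_card_eq
  have hcard : Nat.card P0 = Nat.card R * Nat.card (f.ker ⊓ M : Subgroup E) := by
    let p : P0 →* R :=
      { toFun := fun x => ⟨f x.1, (Subgroup.mem_inf.1 x.2).1⟩
        map_one' := Subtype.ext (map_one f)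
        map_mul' := fun x y => Subtype.ext (map_mul f x.1 y.1) }
    have hp : Function.Surjective p := by
      rintro ⟨g, hg⟩
      obtain ⟨x, hx, rfl⟩ := hRM hg
      exact ⟨⟨x, Subgroup.mem_inf.2 ⟨hg, hx⟩⟩, rfl⟩
    have h1 : Nat.card p.ker = Nat.card (f.ker ⊓ M : Subgroup E) := by
      apply Nat.card_congr
      exact
        { toFun := fun x => ⟨x.1.1, Subgroup.mem_inf.2 ⟨congrArg Subtype.val x.2,
            (Subgroup.mem_inf.1 x.1.2).2⟩⟩
          invFun := fun x => ⟨⟨x.1, Subgroup.mem_inf.2 ⟨by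
            change f x.1 ∈ R
            rw [show f x.1 = 1 from (Subgroup.mem_inf.1 x.2).1]
            exact R.one_mem, (Subgroup.mem_inf.1 x.2).2⟩⟩,
            Subtype.ext (Subgroup.mem_inf.1 x.2).1⟩
          left_inv := fun x => rfl
          right_inv := fun x => rfl }
    have h2 := Subgroup.card_eq_card_quotient_mul_card_subgroup p.ker
    rw [h2, h1, Nat.card_congr (QuotientGroup.quotientKerEquivOfSurjective p hp).toEquiv]
  have hPc : Nat.card P = ℓ ^ n := by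
    rw [P.card_eq_multiplicity, hcard, hn]
    congr 1
    have hk0 : Nat.card (f.ker ⊓ M : Subgroup E) ≠ 0 := Nat.card_pos.ne'
    rw [Nat.factorization_mul (pow_ne_zero _ hℓ.ne_zero) hk0, Finsupp.add_apply,
      hℓ.factorization_pow, Finsupp.single_eq_same,
      Nat.factorization_eq_zero_of_not_dvd hk]
    simp
  have hDc : Nat.card D = ℓ ^ n := by
    rw [← hPc]
    exact Nat.card_congr ((P : Subgroup P0).equivMapOfInjective _
      (Subgroup.subtype_injective _)).toEquiv.symm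
  have hinj : Function.Injective (f.subgroupMap D) := by
    rw [injective_iff_map_eq_one]
    intro x hx
    have hx1 : f x = 1 := congrArg Subtype.val hx
    obtain ⟨k, hk1⟩ := pgroup_pow hD x.2
    exact Subtype.ext (chf_ker_eq_one hℓ f M hk hx1 (hDM x.2) hk1)
  have hDm : Nat.card (D.map f) = ℓ ^ n := by
    rw [← hDc]
    exact (Nat.card_congr (Equiv.ofBijective _ ⟨hinj, f.subgroupMap_surjective D⟩)).symm
  exact Subgroup.eq_of_le_of_card_ge hDR (by rw [hDm, hn])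

theorem conjS_le_normal {M : Subgroup E} (hM : M.Normal) {D : Subgroup E} (h : D ≤ M) (x : E) :
    conjS x D ≤ M := by
  intro y hy
  rw [mem_conjS] at hy
  have := hM.conj_mem _ (h hy) x
  have e : x * (x⁻¹ * y * x) * x⁻¹ = y := by group
  rwa [e] at this

include hℓ hM hc hk in
theorem chf_stab {d : Finset (Subgroup E)} (hd : ∀ D ∈ d, D ≤ M ∧ IsPGroup ℓ D)
    [DecidableEq (Subgroup G)] :
    stab d = (stab (d.image (Subgroup.map f))).comap f := by
  ext x
  rw [Subgroup.mem_comap, mem_stab, mem_stab]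
  constructor
  · intro h D' hD'
    obtain ⟨D, hD, rfl⟩ := Finset.mem_image.1 hD'
    rw [← map_conjS, h D hD]
  · intro h D hD
    obtain ⟨h1, h2⟩ := hd D hD
    have h3 := conjS_pgroup (g := x) h2
    have h4 := conjS_le_normal hM h1 x
    have h5 : (conjS x D).map f = D.map f := by
      rw [map_conjS]
      exact h _ (Finset.mem_image_of_mem _ hD)
    exact le_antisymm (chf_map_le hℓ f M hc hk h3 h2 h4 h1 h5.le)
      (chf_map_le hℓ f M hc hk h2 h3 h1 h4 h5.ge)

include hℓ hM hc hk in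
/-- CHF -/
theorem chf (w : Subgroup E → ℤ) :
    ∑ d ∈ chainsOn (psubIn ℓ M) ⊥, (-1) ^ (d.card + 1) * w (stab d) =
      ∑ d ∈ chainsOn (psubIn ℓ (M.map f)) ⊥, (-1) ^ (d.card + 1) * w ((stab d).comap f) := by
  classical
  have hps : ∀ d ∈ chainsOn (psubIn ℓ M) ⊥, ∀ D ∈ d, D ≤ M ∧ IsPGroup ℓ D := by
    intro d hd D hD
    exact mem_psubIn.1 ((mem_chainsOn.1 hd).1 hD)
  have hinj : ∀ D D' : Subgroup E, D ≤ M → IsPGroup ℓ D → D' ≤ M → IsPGroup ℓ D' →
      D.map f = D'.map f → D = D' := by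
    intro D D' h1 h2 h3 h4 h5
    exact le_antisymm (chf_map_le hℓ f M hc hk h2 h4 h1 h3 h5.le)
      (chf_map_le hℓ f M hc hk h4 h2 h3 h1 h5.ge)
  apply Finset.sum_bij (fun d _ => d.image (Subgroup.map f))
  · intro d hd
    rw [mem_chainsOn]
    refine ⟨?_, ?_, ?_⟩
    · intro D' hD'
      obtain ⟨D, hD, rfl⟩ := Finset.mem_image.1 hD'
      obtain ⟨h1, h2⟩ := hps d hd D hD
      exact mem_psubIn.2 ⟨Subgroup.map_mono h1, h2.map f⟩
    · rw [Finset.mem_image]
      exact ⟨⊥, (mem_chainsOn.1 hd).2.1, Subgroup.map_bot f⟩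
    · intro D1 hD1 D2 hD2 _
      obtain ⟨A, hA, rfl⟩ := Finset.mem_image.1 hD1
      obtain ⟨B, hB, rfl⟩ := Finset.mem_image.1 hD2
      rcases chain_total (mem_chainsOn.1 hd).2.2 hA hB with h | h
      · left; exact Subgroup.map_mono h
      · right; exact Subgroup.map_mono h
  · intro d1 hd1 d2 hd2 h
    have key : ∀ d1 ∈ chainsOn (psubIn ℓ M) ⊥, ∀ d2 ∈ chainsOn (psubIn ℓ M) ⊥,
        d1.image (Subgroup.map f) = d2.image (Subgroup.map f) → d1 ⊆ d2 := by
      intro d1 hd1 d2 hd2 h D hD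
      have h1 : D.map f ∈ d2.image (Subgroup.map f) := by
        rw [← h]; exact Finset.mem_image_of_mem _ hD
      obtain ⟨D', hD', hDD'⟩ := Finset.mem_image.1 h1
      have : D' = D := hinj _ _ (hps d2 hd2 D' hD').1 (hps d2 hd2 D' hD').2
        (hps d1 hd1 D hD).1 (hps d1 hd1 D hD).2 hDD'
      rwa [← this]
    exact Finset.Subset.antisymm (key d1 hd1 d2 hd2 h) (key d2 hd2 d1 hd1 h.symm)
  · intro d' hd'
    obtain ⟨h1, h2, h3⟩ := mem_chainsOn.1 hd'
    refine ⟨(psubIn ℓ M).filter (fun D => D.map f ∈ d'), ?_, ?_⟩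
    · rw [mem_chainsOn]
      refine ⟨Finset.filter_subset _ _, ?_, ?_⟩
      · rw [Finset.mem_filter]
        refine ⟨mem_psubIn.2 ⟨bot_le, IsPGroup.of_bot⟩, ?_⟩
        rw [Subgroup.map_bot]; exact h2
      · intro D1 hD1 D2 hD2 _
        rw [Finset.mem_coe, Finset.mem_filter] at hD1 hD2
        have hp1 := mem_psubIn.1 hD1.1
        have hp2 := mem_psubIn.1 hD2.1
        rcases chain_total h3 hD1.2 hD2.2 with h | h
        · left; exact chf_map_le hℓ f M hc hk hp1.2 hp2.2 hp1.1 hp2.1 h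
        · right; exact chf_map_le hℓ f M hc hk hp2.2 hp1.2 hp2.1 hp1.1 h
    · ext R
      rw [Finset.mem_image]
      constructor
      · rintro ⟨D, hD, rfl⟩
        exact (Finset.mem_filter.1 hD).2
      · intro hR
        obtain ⟨hRM, hRp⟩ := mem_psubIn.1 (h1 hR)
        obtain ⟨D, hDM, hD, rfl⟩ := chf_lift hℓ f M hk hRp hRM
        refine ⟨D, ?_, rfl⟩
        rw [Finset.mem_filter]
        exact ⟨mem_psubIn.2 ⟨hDM, hD⟩, hR⟩
  · intro d hd
    have hcard : (d.image (Subgroup.map f)).card = d.card := by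
      apply Finset.card_image_of_injOn
      intro A hA B hB hAB
      exact hinj _ _ (hps d hd A hA).1 (hps d hd A hA).2 (hps d hd B hB).1 (hps d hd B hB).2 hAB
    rw [hcard, chf_stab hℓ f M hM hc hk (hps d hd)]

end chf

end Pool.Agent.PP.H74
end
end -- Pool.Agent.Helper74_PP.Chf

section -- Pool.Agent.Helper94_PP.Sum

/-!
# Squad PP, part J, module SUM (AWC_J, J6)
-/

open scoped BigOperators

set_option linter.unusedSectionVars false

noncomputable section

namespace Pool.Agent.PP.H94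

open Pool.Agent.Helper51_AWC Pool.Agent.Helper79_WRA Pool.Agent.PP

/-- regularity modulo a subgroup -/
theorem regM_iff {ℓ : ℕ} {X : Type} [Group X] (M S : Subgroup X) [(M.subgroupOf S).Normal] (x : S) :
    Reg ℓ (x : S ⧸ M.subgroupOf S) ↔ RegM ℓ M (x : X) := by
  unfold Reg RegM
  constructor
  · intro h
    refine ⟨_, h, ?_⟩
    have h1 : ((x : S) : S ⧸ M.subgroupOf S) ^ orderOf ((x : S) : S ⧸ M.subgroupOf S) = 1 :=
      pow_orderOf_eq_one _
    rw [← QuotientGroup.mk_pow, QuotientGroup.eq_one_iff, Subgroup.mem_subgroupOf] at h1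
    exact h1
  · rintro ⟨s, hs, h⟩
    have h1 : ((x : S) : S ⧸ M.subgroupOf S) ^ s = 1 := by
      rw [← QuotientGroup.mk_pow, QuotientGroup.eq_one_iff, Subgroup.mem_subgroupOf]
      exact h
    exact Nat.Coprime.coprime_dvd_left (orderOf_dvd_of_pow_eq_one h1) hs

theorem regM_mul {ℓ : ℕ} {X : Type} [Group X] {M : Subgroup X} (hM : M.Normal) (x n : X)
    (hn : n ∈ M) : RegM ℓ M (x * n) ↔ RegM ℓ M x := by
  unfold RegM
  have h : ∀ s : ℕ, (x * n) ^ s ∈ M ↔ x ^ s ∈ M := by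
    intro s
    rw [← QuotientGroup.eq_one_iff, ← QuotientGroup.eq_one_iff (N := M) (x ^ s),
      QuotientGroup.mk_pow, QuotientGroup.mk_pow, QuotientGroup.mk_mul_of_mem x hn]
  simp only [h]

theorem comm_mul {X : Type} [Group X] {M : Subgroup X} (hM : M.Normal) (x y n m : X)
    (hn : n ∈ M) (hm : m ∈ M) :
    (x * y * x⁻¹ * y⁻¹)⁻¹ * ((x * n) * (y * m) * (x * n)⁻¹ * (y * m)⁻¹) ∈ M := by
  rw [← QuotientGroup.eq_one_iff]
  have h1 : QuotientGroup.mk' M n = 1 := (QuotientGroup.eq_one_iff _).2 hn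
  have h2 : QuotientGroup.mk' M m = 1 := (QuotientGroup.eq_one_iff _).2 hm
  change QuotientGroup.mk' M _ = 1
  simp only [map_mul, map_inv, h1, h2, mul_one]
  group

theorem comm_mul_mem {X : Type} [Group X] {M : Subgroup X} (hM : M.Normal) (x y n m : X)
    (hn : n ∈ M) (hm : m ∈ M) :
    (x * n) * (y * m) * (x * n)⁻¹ * (y * m)⁻¹ ∈ M ↔ x * y * x⁻¹ * y⁻¹ ∈ M := by
  have h := comm_mul hM x y n m hn hm
  constructor
  · intro h1
    have h2 := M.mul_mem h1 (M.inv_mem h)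
    have e : (x * n) * (y * m) * (x * n)⁻¹ * (y * m)⁻¹ *
        ((x * y * x⁻¹ * y⁻¹)⁻¹ * ((x * n) * (y * m) * (x * n)⁻¹ * (y * m)⁻¹))⁻¹ =
        x * y * x⁻¹ * y⁻¹ := by group
    rwa [e] at h2
  · intro h1
    have h2 := M.mul_mem h1 h
    rwa [mul_inv_cancel_left] at h2

section local_sum

variable {ℓ : ℕ} {F : Type} [Field F] {τ : F → ℂ} {X : Type} [Group X] [Fintype X]

/-- the sums `S_S` vanish if `Br_R(f) = 0` -/
theorem SS_zero (hloc : LocStmt) (hF : GoodF ℓ F) (Y : Subgroup X) (hY : Y.Normal) {f : X → F}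
    (hf : SBlk Y f) {R S : Subgroup X} (hRS : Loc ℓ Y R S) (h0 : br R f = 0) (x y : X)
    (u : X → F) : SS τ Y S R f x y u = 0 := by
  obtain ⟨-, hff, h1, -, -, hall⟩ := hloc ℓ F hF X Y hY f hf
  unfold SS
  have he : phiS Y S f x y = ∅ := by
    rw [Set.eq_empty_iff_forall_notMem]
    rintro φ ⟨hφ, hφf, -, -⟩
    have h2 := hall R S hRS f hff φ hφ hφf
    rw [h1, one_smul, h0] at h2
    have h3 : actF (fun t : ↥(Y ⊓ S) => (0 : X → F) t) φ = 0 := by
      funext z
      change ∑ᶠ t : ↥(Y ⊓ S), (0 : F) * φ (t * z) = 0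
      simp
    rw [h3] at h2
    obtain ⟨n, ρ, hρ, rfl⟩ := hφ
    exact H75.tr_ne_zero hρ h2.symm
  rw [he]
  simp

open Classical in
/-- The `ℓ`-number at a normal chain as a sum over pairs. -/
theorem loc_sum (hcl : ClStmt) (htfa : TfaStmt) (hinn : InnStmt) (hloc : LocStmt)
    (hF : GoodF ℓ F) (hτ : IsLift τ) (Y : Subgroup X) (hY : Y.Normal) {f : X → F} (hf : SBlk Y f)
    {R S : Subgroup X} (hRS : Loc ℓ Y R S) (M : Subgroup X) (hM : M.Normal) (hYM : Y ≤ M)
    (hMX : M ≤ XF f Y) {e : X → F} (he : IsIdem e) (hef : mulF e f = e)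
    (hsupp : ∀ h, h ∉ M → e h = 0) (u u' : X → X → X → F)
    (hu : ∀ x y, x * y * x⁻¹ * y⁻¹ ∈ M →
      IsUnitOver f Y (x * y * x⁻¹ * y⁻¹) (u x y) (u' x y)) :
    (Y.relIndex M : ℂ) * ((Nat.card S : ℂ) * (lnum S e : ℂ)) =
      ∑ x : X, ∑ y : X, if (x ∈ S ∧ y ∈ S) ∧ RegM ℓ M x ∧ x * y * x⁻¹ * y⁻¹ ∈ M then
        (Nat.card ↥(Y ⊓ S) : ℂ)⁻¹ * (BB τ f Y M e x y (u x y) * SS τ Y S R f x y (u x y))
        else 0 := by
  have hfS := Fintype.ofFinite S
  have hn : (M.subgroupOf S).Normal := inferInstance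
  set T : ℂ := ∑ x : X, ∑ y : X, if (x ∈ S ∧ y ∈ S) ∧ RegM ℓ M x ∧ x * y * x⁻¹ * y⁻¹ ∈ M then
        (BB τ f Y M e x y (u x y) * SS τ Y S R f x y (u x y)) else 0 with hT
  have hcard0 : (Nat.card ↥(Y ⊓ S) : ℂ) ≠ 0 := by
    rw [Nat.cast_ne_zero]
    exact Nat.card_pos.ne'
  have hTr : (∑ x : X, ∑ y : X, if (x ∈ S ∧ y ∈ S) ∧ RegM ℓ M x ∧ x * y * x⁻¹ * y⁻¹ ∈ M then
        (Nat.card ↥(Y ⊓ S) : ℂ)⁻¹ * (BB τ f Y M e x y (u x y) * SS τ Y S R f x y (u x y))
        else 0) = (Nat.card ↥(Y ⊓ S) : ℂ)⁻¹ * T := by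
    rw [hT, Finset.mul_sum]
    refine Finset.sum_congr rfl fun x _ => ?_
    rw [Finset.mul_sum]
    refine Finset.sum_congr rfl fun y _ => ?_
    rw [mul_ite, mul_zero]
  rw [hTr]
  -- the counting lemma
  have h1 := hcl ℓ F hF τ hτ S (M.subgroupOf S) (fun t : S => e t)
    (fun x y => by
      change e ((y : X) * x * (y : X)⁻¹) = e x
      exact he.1 x y)
    (fun h hh => hsupp h (fun h' => hh (Subgroup.mem_subgroupOf.2 h')))
  have h2 : (Nat.card S : ℂ) * Nat.card (M.subgroupOf S) * (lnum S e : ℂ) = T := by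
    have e1 : (lnum S e : ℂ) = ({θ : S → F | θ ∈ IBr F S ∧
        actF (fun t : S => e t) θ = θ}.ncard : ℂ) := rfl
    rw [e1, h1]
    have e2 : (∑ᶠ (x : S) (y : S) (_ : Reg ℓ (x : S ⧸ M.subgroupOf S) ∧
        x * y * x⁻¹ * y⁻¹ ∈ M.subgroupOf S), csum τ (M.subgroupOf S) (fun t : S => e t) x y) =
        ∑ x : S, ∑ y : S, if ((x : X) ∈ S ∧ (y : X) ∈ S) ∧ RegM ℓ M (x : X) ∧
          (x * y * x⁻¹ * y⁻¹ : X) ∈ M then
          (BB τ f Y M e x y (u x y) * SS τ Y S R f x y (u x y)) else 0 := by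
      rw [finsum_eq_sum_of_fintype]
      refine Finset.sum_congr rfl fun x _ => ?_
      rw [finsum_eq_sum_of_fintype]
      refine Finset.sum_congr rfl fun y _ => ?_
      by_cases hc : Reg ℓ (x : S ⧸ M.subgroupOf S) ∧ x * y * x⁻¹ * y⁻¹ ∈ M.subgroupOf S
      · have hc' : RegM ℓ M (x : X) ∧ (x * y * x⁻¹ * y⁻¹ : X) ∈ M :=
          ⟨(regM_iff M S x).1 hc.1, hc.2⟩
        rw [if_pos ⟨⟨x.2, y.2⟩, hc'⟩, finsum_eq_if, if_pos hc]
        exact htfa ℓ F hF τ hτ X Y hY f hf R S hRS M hM hYM hMX e he hef hsupp x y hc'.2 _ _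
          (hu _ _ hc'.2)
      · rw [if_neg, finsum_eq_if, if_neg hc]
        rintro ⟨-, h, h'⟩
        exact hc ⟨(regM_iff M S x).2 h, h'⟩
    rw [e2, hT, H67.sum_sub (X := S) (fun x => ∑ y : X, if (x ∈ S ∧ y ∈ S) ∧ RegM ℓ M x ∧
      x * y * x⁻¹ * y⁻¹ ∈ M then
        (BB τ f Y M e x y (u x y) * SS τ Y S R f x y (u x y)) else 0)]
    · refine Finset.sum_congr rfl fun x _ => ?_
      symm
      apply H67.sum_sub (X := S) (fun y => if ((x : X) ∈ S ∧ y ∈ S) ∧ RegM ℓ M (x : X) ∧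
        x * y * (x : X)⁻¹ * y⁻¹ ∈ M then
        (BB τ f Y M e x y (u x y) * SS τ Y S R f x y (u x y)) else 0)
      intro y hy
      rw [if_neg]
      rintro ⟨⟨-, h⟩, -⟩
      exact hy h
    · intro x hx
      refine Finset.sum_eq_zero fun y _ => ?_
      rw [if_neg]
      rintro ⟨⟨h, -⟩, -⟩
      exact hx h
  have h3 : Nat.card (M.subgroupOf S) = Nat.card ↥(M ⊓ S) := by
    refine Nat.card_congr
      { toFun := fun c => ⟨(c : S), ⟨Subgroup.mem_subgroupOf.1 c.2, (c : S).2⟩⟩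
        invFun := fun c => ⟨⟨c, c.2.2⟩, Subgroup.mem_subgroupOf.2 c.2.1⟩
        left_inv := fun c => rfl
        right_inv := fun c => rfl }
  by_cases hbr : br R f = 0
  · have hT0 : T = 0 := by
      rw [hT]
      refine Finset.sum_eq_zero fun x _ => Finset.sum_eq_zero fun y _ => ?_
      rw [SS_zero hloc hF Y hY hf hRS hbr, mul_zero, ite_self]
    rw [hT0] at h2 ⊢
    have h4 : (lnum S e : ℂ) = 0 := by
      rcases mul_eq_zero.1 h2 with h | h
      · rcases mul_eq_zero.1 h with h | h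
        · exact absurd h (by rw [Nat.cast_eq_zero]; exact Nat.card_pos.ne')
        · exact absurd h (by rw [Nat.cast_eq_zero]; exact Nat.card_pos.ne')
      · exact h
    rw [h4]
    ring
  · obtain ⟨-, h4, -⟩ := hinn ℓ F hF X Y hY f hf R S hRS hbr
    rw [h3, h4 M hYM hMX] at h2
    rw [← h2]
    push_cast
    field_simp

end local_sum

/-- a choice of units over the commutators which depends only on the cosets modulo `Y` -/
theorem exists_units (hxf : XfsStmt) {ℓ : ℕ} {F : Type} [Field F] (hF : GoodF ℓ F) {X : Type}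
    [Group X] [Finite X] (Y : Subgroup X) (hY : Y.Normal) {f : X → F} (hf : SBlk Y f) :
    ∃ u u' : X → X → X → F, (∀ x y, x * y * x⁻¹ * y⁻¹ ∈ XF f Y →
      IsUnitOver f Y (x * y * x⁻¹ * y⁻¹) (u x y) (u' x y)) ∧
      ∀ x y n m, n ∈ Y → m ∈ Y → u (x * n) (y * m) = u x y := by
  classical
  obtain ⟨hxu, hXn, hYX, hun, -⟩ := hxf ℓ F hF X Y hY f hf
  have hex : ∀ a b : X ⧸ Y, ∃ p : (X → F) × (X → F),
      (a.out * b.out * a.out⁻¹ * b.out⁻¹ ∈ XF f Y →
        IsUnitOver f Y (a.out * b.out * a.out⁻¹ * b.out⁻¹) p.1 p.2) := by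
    intro a b
    by_cases h : a.out * b.out * a.out⁻¹ * b.out⁻¹ ∈ XF f Y
    · obtain ⟨u, u', hu⟩ := (hxu _).1 h
      exact ⟨(u, u'), fun _ => hu⟩
    · exact ⟨(0, 0), fun h' => absurd h' h⟩
  choose P hP using hex
  refine ⟨fun x y => (P x y).1, fun x y => (P x y).2, ?_, ?_⟩
  · intro x y hxy
    have hn : ∀ z : X, ((z : X ⧸ Y).out)⁻¹ * z ∈ Y := by
      intro z
      rw [← QuotientGroup.eq]
      exact Quotient.out_eq' _
    have e : ∀ z : X, (z : X ⧸ Y).out * (((z : X ⧸ Y).out)⁻¹ * z) = z := fun z =>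
      mul_inv_cancel_left _ _
    set a := (x : X ⧸ Y).out with ha
    set b := (y : X ⧸ Y).out with hb
    have h1 := comm_mul hY a b _ _ (hn x) (hn y)
    have h2 := (comm_mul_mem hXn a b _ _ (hYX (hn x)) (hYX (hn y))).1 (by rwa [e, e])
    rw [e, e] at h1
    have h3 := (hun _ _ _ (hP x y h2)).2.2.1 _ h1
    rwa [mul_inv_cancel_left] at h3
  · intro x y n m hn hm
    have h1 : ((x * n : X) : X ⧸ Y) = (x : X ⧸ Y) := QuotientGroup.mk_mul_of_mem x hn
    have h2 : ((y * m : X) : X ⧸ Y) = (y : X ⧸ Y) := QuotientGroup.mk_mul_of_mem y hm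
    change (P ((x * n : X) : X ⧸ Y) ((y * m : X) : X ⧸ Y)).1 = _
    rw [h1, h2]

/-- SUM -/
theorem sum (hnch : NchStmt) (hcl : ClStmt) (hloc : LocStmt) (hxf : XfsStmt) (hsup : SupJStmt)
    (hlct : LctStmt) (hinn : InnStmt) (htfa : TfaStmt) (hbby : BbyStmt) : SumStmt := by
  classical
  intro ℓ F _ hF τ hτ X _ _ Y hY f hf hD e he hef
  have : Fact ℓ.Prime := ⟨hF.prime⟩
  have hfX := Fintype.ofFinite X
  have hfY := Fintype.ofFinite Y
  obtain ⟨hxu, hXn, hYX, hun, -⟩ := hxf ℓ F hF X Y hY f hf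
  obtain ⟨u, u', hu, hucos⟩ := exists_units hxf hF Y hY hf
  set M := XF f Y with hM
  have hsupp : ∀ h, h ∉ M → e h = 0 := hsup ℓ F hF X Y hY f hf e he hef
  let cond : X → X → Prop := fun x y => RegM ℓ M x ∧ x * y * x⁻¹ * y⁻¹ ∈ M
  let A : X → X → Finset (Subgroup X) → ℂ := fun x y d => (-1 : ℂ) ^ (d.card + 1) *
    ((Nat.card ↥(Y ⊓ stab d) : ℂ)⁻¹ *
      (BB τ f Y M e x y (u x y) * SS τ Y (stab d) (top d) f x y (u x y)))
  let G : X → X → ℂ := fun x y => if cond x y then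
    ∑ d ∈ (chainsOn (psubIn ℓ Y) ⊥).filter (fun d => NormalChain d ∧ x ∈ stab d ∧ y ∈ stab d),
      A x y d else 0
  -- the sum over all pairs
  have h1 : ∑ x : X, ∑ y : X, G x y = (Y.relIndex M : ℂ) * ((YY ℓ Y e : ℤ) : ℂ) := by
    have e1 : ((YY ℓ Y e : ℤ) : ℂ) = ∑ d ∈ (chainsOn (psubIn ℓ Y) ⊥).filter NormalChain,
        (-1 : ℂ) ^ (d.card + 1) * ((Nat.card (stab d) : ℂ) * (lnum (stab d) e : ℂ)) := by
      have := hnch ℓ X Y (fun S _ => (Nat.card S : ℤ) * (lnum S e : ℤ))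
      unfold YY
      rw [this]
      push_cast
      rfl
    rw [e1, Finset.mul_sum]
    have e2 : ∀ d ∈ (chainsOn (psubIn ℓ Y) ⊥).filter NormalChain,
        (Y.relIndex M : ℂ) * ((-1 : ℂ) ^ (d.card + 1) *
          ((Nat.card (stab d) : ℂ) * (lnum (stab d) e : ℂ))) =
        ∑ x : X, ∑ y : X, if (x ∈ stab d ∧ y ∈ stab d) ∧ cond x y then A x y d else 0 := by
      intro d hd
      rw [Finset.mem_filter] at hd
      have h2 := loc_sum hcl htfa hinn hloc hF hτ Y hY hf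
        (hlct ℓ X Y hF.prime d hd.1 hd.2) M hXn hYX le_rfl he hef hsupp u u' hu
      rw [mul_left_comm, h2, Finset.mul_sum]
      refine Finset.sum_congr rfl fun x _ => ?_
      rw [Finset.mul_sum]
      refine Finset.sum_congr rfl fun y _ => ?_
      rw [mul_ite, mul_zero]
    rw [Finset.sum_congr rfl e2]
    symm
    rw [Finset.sum_comm]
    refine Finset.sum_congr rfl fun x _ => ?_
    rw [Finset.sum_comm]
    refine Finset.sum_congr rfl fun y _ => ?_
    symm
    by_cases hc : cond x y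
    · change (if cond x y then ∑ d ∈ (chainsOn (psubIn ℓ Y) ⊥).filter
        (fun d => NormalChain d ∧ x ∈ stab d ∧ y ∈ stab d), A x y d else 0) = _
      rw [if_pos hc, Finset.sum_filter, Finset.sum_filter]
      refine Finset.sum_congr rfl fun d _ => ?_
      by_cases hN : NormalChain d
      · by_cases hs : x ∈ stab d ∧ y ∈ stab d
        · rw [if_pos ⟨hN, hs⟩, if_pos hN, if_pos ⟨hs, hc⟩]
        · rw [if_neg (fun h => hs h.2), if_pos hN, if_neg (fun h => hs h.1)]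
      · rw [if_neg (fun h => hN h.1), if_neg hN]
    · change (if cond x y then ∑ d ∈ (chainsOn (psubIn ℓ Y) ⊥).filter
        (fun d => NormalChain d ∧ x ∈ stab d ∧ y ∈ stab d), A x y d else 0) = _
      rw [if_neg hc]
      symm
      refine Finset.sum_eq_zero fun d _ => ?_
      rw [if_neg (fun h => hc h.2)]
  -- it vanishes
  have h2 : ∑ x : X, ∑ y : X, G x y = 0 := by
    apply sum_cosets Y (fun x => ∑ y : X, G x y)
    intro r
    rw [finsum_eq_sum_of_fintype, Finset.sum_comm]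
    apply sum_cosets Y (fun y => ∑ n : Y, G (r * n) y)
    intro s
    rw [finsum_eq_sum_of_fintype, Finset.sum_comm]
    have hcond : ∀ n m : Y, cond (r * n) (s * m) ↔ cond r s := by
      intro n m
      exact and_congr (regM_mul hXn r n (hYX n.2))
        (comm_mul_mem hXn r s n m (hYX n.2) (hYX m.2))
    by_cases hc : cond r s
    · have e3 : ∀ n m : Y, G (r * n) (s * m) = BB τ f Y M e r s (u r s) *
          ∑ t ∈ (chainsOn (psubIn ℓ Y) ⊥).filter
            (fun t => NormalChain t ∧ r * n ∈ stab t ∧ s * m ∈ stab t),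
            (-1 : ℂ) ^ (t.card + 1) * (Nat.card ↥(Y ⊓ stab t) : ℂ)⁻¹ *
              SS τ Y (stab t) (top t) f (r * n) (s * m) (u r s) := by
        intro n m
        change (if cond (r * n) (s * m) then _ else _) = _
        rw [if_pos ((hcond n m).2 hc), Finset.mul_sum]
        refine Finset.sum_congr rfl fun t _ => ?_
        change (-1 : ℂ) ^ (t.card + 1) * ((Nat.card ↥(Y ⊓ stab t) : ℂ)⁻¹ *
          (BB τ f Y M e (r * n) (s * m) (u (r * n) (s * m)) *
            SS τ Y (stab t) (top t) f (r * n) (s * m) (u (r * n) (s * m)))) = _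
        rw [hucos r s n m n.2 m.2, hbby ℓ F hF τ X Y hY f hf M e hXn hYX r s (u r s) n n.2 m m.2]
        ring
      simp only [e3]
      have h4 := hD r s hc.1 hc.2 (u r s) (u' r s) (hu r s hc.2)
      unfold DJ at h4
      rw [finsum_eq_sum_of_fintype] at h4
      simp only [finsum_eq_sum_of_fintype] at h4
      simp only [← Finset.mul_sum]
      rw [h4, mul_zero]
    · refine Finset.sum_eq_zero fun n _ => Finset.sum_eq_zero fun m _ => ?_
      change (if cond (r * n) (s * m) then _ else _) = _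
      rw [if_neg (fun h => hc ((hcond n m).1 h))]
  rw [h2] at h1
  rcases mul_eq_zero.1 h1.symm with h | h
  · exfalso
    rw [Nat.cast_eq_zero] at h
    exact Subgroup.FiniteIndex.index_ne_zero h
  · exact_mod_cast h

end Pool.Agent.PP.H94
end
end -- Pool.Agent.Helper94_PP.Sum

section -- Pool.Agent.Helper94_PP.Db2a

/-!
# Squad PP, part J, module DB2 (AWC_J, J7.6, 7.7): the double
-/

open scoped BigOperators

set_option linter.unusedSectionVars false

noncomputable section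

namespace Pool.Agent.PP.H94

open Pool.Agent.Helper51_AWC Pool.Agent.Helper79_WRA Pool.Agent.PP

section dz

variable {F A B : Type} [Field F] [Group A] [Group B]

theorem card_cent_equiv' (e : A ≃* B) (x : A) :
    Nat.card (Subgroup.centralizer ({x} : Set A)) =
    Nat.card (Subgroup.centralizer ({e x} : Set B)) := by
  refine Nat.card_congr (Equiv.subtypeEquiv e.toEquiv fun y => ?_)
  rw [Subgroup.mem_centralizer_singleton_iff, Subgroup.mem_centralizer_singleton_iff]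
  constructor
  · intro h
    change e y * e x = e x * e y
    rw [← map_mul, h, map_mul]
  · intro h
    apply e.injective
    rw [map_mul, map_mul]
    exact h

theorem clsum_equiv (e : A ≃* B) (x : A) :
    (fun y : B => clsum F (⊤ : Subgroup A) x (e.symm y)) = clsum F ⊤ (e x) := by
  classical
  funext y
  unfold clsum
  congr 1
  apply propext
  constructor
  · rintro ⟨q, -, h⟩
    refine ⟨e q, trivial, ?_⟩
    rw [← map_mul, ← map_inv, ← map_mul, ← h, e.apply_symm_apply]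
  · rintro ⟨q, -, h⟩
    refine ⟨e.symm q, trivial, ?_⟩
    rw [h, map_mul, map_mul, map_inv, e.symm_apply_apply]

/-- the projective centre and isomorphisms -/
theorem dz_equiv {ℓ : ℕ} (e : A ≃* B) {b : B → F} (h : DZ ℓ (fun x => b (e x))) : DZ ℓ b := by
  let L : (A → F) →ₗ[F] (B → F) := LinearMap.funLeft F F e.symm
  have h1 : L (fun x => b (e x)) = b := by
    funext y
    change b (e (e.symm y)) = b y
    rw [e.apply_symm_apply]
  rw [← h1]
  unfold DZ at h ⊢
  have h2 := Submodule.mem_map_of_mem (f := L) h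
  rw [Submodule.map_span] at h2
  refine Submodule.span_mono ?_ h2
  rintro _ ⟨_, ⟨x, hx, rfl⟩, rfl⟩
  refine ⟨e x, ?_, clsum_equiv e x⟩
  rwa [← card_cent_equiv' e x]

end dz

/-- two functions with the same Brauer map have the same `ℓ`-numbers -/
theorem lnum_congr_br {ℓ : ℕ} {F : Type} [Field F] (hF : GoodF ℓ F) (hnls : NlsStmt) {G : Type}
    [Group G] [Finite G] {P X : Subgroup G} (hP : IsPGroup ℓ P) (hPX : P ≤ X)
    (hXP : X ≤ Subgroup.normalizer (P : Set G)) {a b : G → F} (ha : IsCl (fun t : X => a t))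
    (hb : IsCl (fun t : X => b t)) (hab : br P a = br P b) : lnum X a = lnum X b := by
  have hn : (P.subgroupOf X).Normal := (Subgroup.normal_subgroupOf_iff_le_normalizer hPX).2 hXP
  have hp : IsPGroup ℓ (P.subgroupOf X) := hP.comap_of_injective X.subtype X.subtype_injective
  have hbr : ∀ c : G → F, br (P.subgroupOf X) (fun t : X => c t) = fun t : X => br P c t := by
    intro c
    funext t
    unfold br
    have hiff : t ∈ Subgroup.centralizer ((P.subgroupOf X : Subgroup X) : Set X) ↔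
        (t : G) ∈ Subgroup.centralizer (P : Set G) := by
      rw [Subgroup.mem_centralizer_iff, Subgroup.mem_centralizer_iff]
      constructor
      · intro h y hy
        exact congrArg Subtype.val (h ⟨y, hPX hy⟩ hy)
      · intro h y hy
        exact Subtype.ext (h y hy)
    by_cases h : (t : G) ∈ Subgroup.centralizer (P : Set G)
    · rw [if_pos h, if_pos (hiff.2 h)]
    · rw [if_neg h, if_neg (fun h2 => h (hiff.1 h2))]
  have key : ∀ f ∈ IBr F X, actF (fun t : X => a t) f = actF (fun t : X => b t) f := by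
    rintro f ⟨n, ρ, hρ, rfl⟩
    have h3 := ((hnls ℓ F hF X (P.subgroupOf X) hn hp n ρ hρ).2 _ ha).2
    have h4 := ((hnls ℓ F hF X (P.subgroupOf X) hn hp n ρ hρ).2 _ hb).2
    rw [h3, h4, hbr, hbr, hab]
  unfold lnum
  congr 1
  ext f
  constructor
  · rintro ⟨hf, h2⟩
    exact ⟨hf, by rw [← key f hf]; exact h2⟩
  · rintro ⟨hf, h2⟩
    exact ⟨hf, by rw [key f hf]; exact h2⟩

section lam

variable {X : Type} [Group X] (Y : Subgroup X) [hY : Y.Normal]

/-- the first projection -/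
def pr1 : Lam Y →* X := (MonoidHom.fst X X).comp (Lam Y).subtype

/-- the second projection -/
def pr2 : Lam Y →* X := (MonoidHom.snd X X).comp (Lam Y).subtype

theorem pr1_apply (p : Lam Y) : pr1 Y p = p.1.1 := rfl

theorem pr2_apply (p : Lam Y) : pr2 Y p = p.1.2 := rfl

variable {Y}

theorem lam_ext {p q : Lam Y} (h1 : p.1.1 = q.1.1) (h2 : p.1.2 = q.1.2) : p = q :=
  Subtype.ext (Prod.ext h1 h2)

theorem mem_lam (p : Lam Y) : p.1.1⁻¹ * p.1.2 ∈ Y := p.2

theorem fst_mem_iff (p : Lam Y) : p.1.1 ∈ Y ↔ p.1.2 ∈ Y := by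
  have h := mem_lam p
  constructor
  · intro h1
    have := Y.mul_mem h1 h
    rwa [mul_inv_cancel_left] at this
  · intro h1
    have := Y.mul_mem h1 (Y.inv_mem h)
    rw [mul_inv_rev, inv_inv, mul_inv_cancel_left] at this
    exact this

/-- elements of the double -/
def mkL (a : X) (n : Y) : Lam Y := ⟨(a, a * n), by
  change a⁻¹ * (a * n) ∈ Y
  rw [inv_mul_cancel_left]
  exact n.2⟩

/-- the equivalence of the double with `X × Y` -/
def lamEquiv : X × Y ≃ Lam Y where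
  toFun := fun p => mkL p.1 p.2
  invFun := fun p => (p.1.1, ⟨p.1.1⁻¹ * p.1.2, mem_lam p⟩)
  left_inv := fun _ => Prod.ext rfl (Subtype.ext (inv_mul_cancel_left _ _))
  right_inv := fun _ => lam_ext rfl (mul_inv_cancel_left _ _)

theorem sum_lam {V : Type*} [AddCommMonoid V] [Fintype X] [Fintype Y] [Fintype (Lam Y)]
    (g : Lam Y → V) : ∑ p, g p = ∑ a : X, ∑ n : Y, g (mkL a n) := by
  rw [← Equiv.sum_comp lamEquiv g, Fintype.sum_prod_type]
  rfl

/-- `(1, y)` and `(y, 1)` -/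
def inL (y : Y) : Lam Y := ⟨(y, 1), by
  change (y : X)⁻¹ * 1 ∈ Y
  rw [mul_one]
  exact Y.inv_mem y.2⟩

def inR (y : Y) : Lam Y := ⟨(1, y), by
  change (1 : X)⁻¹ * y ∈ Y
  rw [inv_one, one_mul]
  exact y.2⟩

theorem mem_prod_lam {S S' : Subgroup X} {p : Lam Y} :
    p ∈ (S.prod S').subgroupOf (Lam Y) ↔ p.1.1 ∈ S ∧ p.1.2 ∈ S' := Iff.rfl

theorem mem_YY2 {p : Lam Y} : p ∈ YY2 Y ↔ p.1.1 ∈ Y ∧ p.1.2 ∈ Y := Iff.rfl

theorem mem_fstP {L : Subgroup X} {p : Lam Y} : p ∈ fstP Y L ↔ p.1.1 ∈ L := Iff.rfl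

instance YY2_normal : (YY2 Y).Normal := by
  constructor
  rintro p ⟨h1, h2⟩ g
  exact ⟨hY.conj_mem _ h1 _, hY.conj_mem _ h2 _⟩

/-- products of local subgroups are local -/
theorem loc_prod {ℓ : ℕ} {R S R' S' : Subgroup X} (h : Loc ℓ Y R S) (h' : Loc ℓ Y R' S') :
    Loc ℓ (YY2 Y) ((R.prod R').subgroupOf (Lam Y)) ((S.prod S').subgroupOf (Lam Y)) where
  pgrp := by
    rintro ⟨p, hp1, hp2⟩
    obtain ⟨k, hk⟩ := h.pgrp ⟨_, hp1⟩
    obtain ⟨k', hk'⟩ := h'.pgrp ⟨_, hp2⟩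
    refine ⟨k + k', Subtype.ext (lam_ext ?_ ?_)⟩
    · change p.1.1 ^ ℓ ^ (k + k') = 1
      have := congrArg Subtype.val hk
      change p.1.1 ^ ℓ ^ k = 1 at this
      rw [pow_add, pow_mul, this, one_pow]
    · change p.1.2 ^ ℓ ^ (k + k') = 1
      have := congrArg Subtype.val hk'
      change p.1.2 ^ ℓ ^ k' = 1 at this
      rw [add_comm, pow_add, pow_mul, this, one_pow]
  le := by
    rintro p ⟨h1, h2⟩
    exact ⟨h.le h1, h'.le h2⟩
  leS := by
    rintro p ⟨h1, h2⟩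
    exact ⟨h.leS h1, h'.leS h2⟩
  cent := by
    intro p hp
    rw [Subgroup.mem_centralizer_iff] at hp
    refine ⟨h.cent ?_, h'.cent ?_⟩
    · rw [Subgroup.mem_centralizer_iff]
      intro r hr
      have := hp (inL ⟨r, h.le hr⟩) ⟨hr, R'.one_mem⟩
      exact congrArg (fun q : Lam Y => q.1.1) this
    · rw [Subgroup.mem_centralizer_iff]
      intro r hr
      have := hp (inR ⟨r, h'.le hr⟩) ⟨R.one_mem, hr⟩
      exact congrArg (fun q : Lam Y => q.1.2) this
  norm := by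
    rintro p ⟨hp1, hp2⟩
    rw [Subgroup.mem_normalizer_iff]
    intro q
    have e1 := (Subgroup.mem_normalizer_iff.1 (h.norm hp1)) q.1.1
    have e2 := (Subgroup.mem_normalizer_iff.1 (h'.norm hp2)) q.1.2
    exact and_congr e1 e2

end lam

end Pool.Agent.PP.H94
end
end -- Pool.Agent.Helper94_PP.Db2a

section -- Pool.Agent.Helper74_PP.ChfS

/-!
CHF in the form of the statement file of helper67.
-/

noncomputable section

namespace Pool.Agent.PP.H74

open Pool.Agent.PP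

theorem chfStmt : H67.ChfStmt := by
  intro ℓ hℓ E G _ _ _ _ f M hM hc hk w
  exact chf hℓ.out f M hM hc hk w

end Pool.Agent.PP.H74
end
end -- Pool.Agent.Helper74_PP.ChfS
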