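import Pool.Agent.Helper12_AWB.B053
import Pool.Agent.Helper12_AWB.B087
import Pool.Agent.Helper12_AWB.B095

/-!
# Merged copies (generated) of the modules

* `Pool.Agent.Helper94_PP.Db2b`
* `Pool.Agent.Helper94_PP.Db2c`
-/

set_option autoImplicit false

section -- Pool.Agent.Helper94_PP.Db2b

/-!
# Squad PP, part J, module DB2 (AWC_J, J7.6): positivity and the hypothesis
-/

open scoped BigOperators

set_option linter.unusedSectionVars false

noncomputable section

namespace Pool.Agent.PP.H94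

open Pool.Agent.Helper51_AWC Pool.Agent.Helper79_WRA Pool.Agent.PP

section ft

variable {F : Type} [Field F] {X : Type} [Group X] [Finite X] {Y : Subgroup X} [hY : Y.Normal]

/-- `f ⊗ 1` -/
def ft (Y : Subgroup X) [Y.Normal] (f : X → F) : Lam Y → F :=
  open Classical in fun p => if p.1.2 = 1 then f p.1.1 else 0

/-- `(f ⊗ S(f)) (f ⊗ 1) = f ⊗ S(f)` -/
theorem sig_ft {f : X → F} (hf : SBlk Y f) : mulF (sig Y f f) (ft Y f) = sig Y f f := by
  classical
  have hfX := Fintype.ofFinite X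
  have hfY := Fintype.ofFinite Y
  have hfL := Fintype.ofFinite (Lam Y)
  funext p
  have hff := congrFun (H20.f_mul_f hf) p.1.1
  unfold mulF at hff ⊢
  rw [finsum_eq_sum_of_fintype] at hff ⊢
  have hmem : ∀ n : Y, (p.1.2 * (n : X))⁻¹ * p.1.2 ∈ Y := by
    intro n
    have e : (p.1.2 * (n : X))⁻¹ * p.1.2 = (n : X)⁻¹ := by group
    rw [e]
    exact Y.inv_mem n.2
  let i : Y → Lam Y := fun n => ⟨(p.1.2 * n, p.1.2), hmem n⟩
  have hi : Function.Injective i := by
    intro n m h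
    have h1 : p.1.2 * (n : X) = p.1.2 * (m : X) := congrArg (fun q : Lam Y => q.1.1) h
    exact Subtype.ext (mul_left_cancel h1)
  have h1 : ∑ q : Lam Y, sig Y f f q * ft Y f (q⁻¹ * p) =
      ∑ n : Y, sig Y f f (i n) * ft Y f ((i n)⁻¹ * p) := by
    symm
    apply Fintype.sum_of_injective i hi
    · intro q hq
      have h2 : ft Y f (q⁻¹ * p) = 0 := by
        unfold ft
        rw [if_neg]
        intro h3
        apply hq
        have h4 : q.1.2 = p.1.2 := by
          have h5 : (q.1.2)⁻¹ * p.1.2 = 1 := h3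
          exact inv_mul_eq_one.1 h5
        refine ⟨⟨(q.1.2)⁻¹ * q.1.1, ?_⟩, ?_⟩
        · have := Y.inv_mem (mem_lam q)
          rwa [mul_inv_rev, inv_inv] at this
        · apply lam_ext
          · change p.1.2 * ((q.1.2)⁻¹ * q.1.1) = q.1.1
            rw [← h4, mul_inv_cancel_left]
          · exact h4.symm
      rw [h2, mul_zero]
    · intro n
      rfl
  rw [h1]
  have h2 : ∀ n : Y, sig Y f f (i n) * ft Y f ((i n)⁻¹ * p) =
      (f (p.1.2 * n) * f ((p.1.2 * n)⁻¹ * p.1.1)) * f (p.1.2)⁻¹ := by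
    intro n
    have h3 : ft Y f ((i n)⁻¹ * p) = f ((p.1.2 * n)⁻¹ * p.1.1) := by
      unfold ft
      rw [if_pos]
      · rfl
      · exact inv_mul_cancel p.1.2
    rw [h3]
    change f (p.1.2 * n) * f (p.1.2)⁻¹ * _ = _
    ring
  simp only [h2]
  rw [← Finset.sum_mul]
  change _ = f p.1.1 * f (p.1.2)⁻¹
  by_cases hp : p.1.2 ∈ Y
  · congr 1
    rw [← hff, H67.sum_sub (X := Y) (fun t => f t * f (t⁻¹ * p.1.1))
      (fun t ht => by rw [hf.supp t ht, zero_mul])]
    exact Fintype.sum_equiv (Equiv.mulLeft (⟨p.1.2, hp⟩ : Y)) _ _ fun n => rfl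
  · rw [hf.supp (p.1.2)⁻¹ (fun h => hp (by have := Y.inv_mem h; rwa [inv_inv] at this)), mul_zero,
      mul_zero]

theorem br_mul_right {G : Type} [Group G] [Finite G] {P : Subgroup G} {a b : G → F}
    (hb : ∀ t, t ∉ Subgroup.centralizer (P : Set G) → b t = 0) :
    br P (mulF a b) = mulF (br P a) b := by
  classical
  have hfG := Fintype.ofFinite G
  funext x
  unfold mulF
  by_cases hx : x ∈ Subgroup.centralizer (P : Set G)
  · rw [H66.br_of_mem hx]
    rw [finsum_eq_sum_of_fintype, finsum_eq_sum_of_fintype]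
    refine Finset.sum_congr rfl fun t _ => ?_
    by_cases ht : t ∈ Subgroup.centralizer (P : Set G)
    · rw [H66.br_of_mem ht]
    · rw [hb (t⁻¹ * x), mul_zero, mul_zero]
      intro h
      apply ht
      have := mul_mem hx (inv_mem h)
      rwa [mul_inv_rev, inv_inv, mul_inv_cancel_left] at this
  · rw [H66.br_of_not_mem hx, finsum_eq_sum_of_fintype]
    symm
    refine Finset.sum_eq_zero fun t _ => ?_
    by_cases ht : t ∈ Subgroup.centralizer (P : Set G)
    · rw [hb (t⁻¹ * x), mul_zero]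
      intro h
      apply hx
      have := mul_mem ht h
      rwa [mul_inv_cancel_left] at this
    · rw [H66.br_of_not_mem ht, zero_mul]

end ft

section inner

variable {ℓ : ℕ} {F : Type} [Field F] {X : Type} [Group X] [Finite X] {Y : Subgroup X}
  [hY : Y.Normal]

/-- the hypothesis on the groups `H₁` with a normal subgroup `Q₁ ≅ Y` -/
def HypY (ℓ : ℕ) (F : Type) [Field F] {X : Type} [Group X] (Y : Subgroup X) : Prop :=
  ∀ (H₁ : Type) [Group H₁] [Finite H₁] (Q₁ : Subgroup H₁), Q₁.Normal → Nonempty (Q₁ ≃* Y) →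
    mu Q₁ ≤ mu Y → (∃ n : ℕ, Subgroup.lowerCentralSeries (⊤ : Subgroup H₁) n ≤
      Q₁ ⊔ Subgroup.centralizer (Q₁ : Set H₁)) → (∃ i : H₁ →* X × X, Function.Injective i) →
      YH ℓ F Q₁

open Classical in
/-- The inner sum at a normal chain `u` of the second factor vanishes. -/
theorem inner (hnls : NlsStmt) (hbrm : BrmStmt) (hnch : NchStmt) (hps3 : Ps3Stmt)
    (hlct : LctStmt) (hF : GoodF ℓ F) {f : X → F} (hf : SBlk Y f)
    (hdz : ¬ DZ ℓ (fun t : Y => f t)) (hnil : NilMod (⊤ : Subgroup X) Y) (hH : HypY ℓ F Y)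
    {E : Lam Y → F} (hE : IsIdem E) (hEf : mulF E (sig Y f f) = E) {u : Finset (Subgroup X)}
    (hu : u ∈ chainsOn (psubIn ℓ Y) ⊥) (hun : NormalChain u) :
    ∑ t ∈ (chainsOn (psubIn ℓ Y) ⊥).filter NormalChain, (-1 : ℤ) ^ (t.card + 1) *
      ((Nat.card (((stab t).prod (stab u)).subgroupOf (Lam Y)) : ℤ) *
        (lnum (((stab t).prod (stab u)).subgroupOf (Lam Y)) E : ℤ)) = 0 := by
  have hfact : Fact ℓ.Prime := ⟨hF.prime⟩
  have hlu := hlct ℓ X Y hF.prime u hu hun
  set Λu : Subgroup (Lam Y) := (stab u).comap (pr2 Y) with hΛu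
  set R1 : Subgroup (Lam Y) := ((⊥ : Subgroup X).prod (top u)).subgroupOf (Lam Y) with hR1
  set φ : Λu →* X := (pr1 Y).comp Λu.subtype with hφ
  set Q₁ : Subgroup Λu := ((pr2 Y).comp Λu.subtype).ker with hQ₁
  set eu : Λu → F := fun t => br R1 E t with heu
  have hmemQ : ∀ q : Λu, q ∈ Q₁ ↔ q.1.1.2 = 1 := fun q => Iff.rfl
  have hQY : ∀ q : Λu, q ∈ Q₁ → q.1.1.1 ∈ Y := by
    intro q hq
    rw [fst_mem_iff, (hmemQ q).1 hq]
    exact Y.one_mem
  have hR1p : IsPGroup ℓ R1 := by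
    have := (loc_prod (⟨IsPGroup.of_bot, bot_le, bot_le, le_top, ?_⟩ : Loc ℓ Y ⊥ ⊤) hlu).pgrp
    · exact this
    · intro x _
      rw [Subgroup.mem_normalizer_iff]
      intro y
      rw [Subgroup.mem_bot, Subgroup.mem_bot]
      constructor
      · rintro rfl
        group
      · intro h
        have h1 := congrArg (fun z => x⁻¹ * z * x) h
        have e : x⁻¹ * (x * y * x⁻¹) * x = y := by group
        change x⁻¹ * (x * y * x⁻¹) * x = x⁻¹ * 1 * x at h1
        rw [e] at h1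
        rw [h1]
        group
  have hcR1 : ∀ p : Lam Y, p ∈ Subgroup.centralizer (R1 : Set (Lam Y)) ↔
      p.1.2 ∈ Subgroup.centralizer ((top u : Subgroup X) : Set X) := by
    intro p
    rw [Subgroup.mem_centralizer_iff, Subgroup.mem_centralizer_iff]
    constructor
    · intro h r hr
      have := h (inR ⟨r, hlu.le hr⟩) ⟨(⊥ : Subgroup X).one_mem, hr⟩
      exact congrArg (fun q : Lam Y => q.1.2) this
    · rintro h r ⟨hr1, hr2⟩
      apply lam_ext
      · have h1 : r.1.1 = 1 := (Subgroup.mem_bot).1 hr1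
        change r.1.1 * p.1.1 = p.1.1 * r.1.1
        rw [h1, one_mul, mul_one]
      · exact h _ hr2
  have hc1 : Subgroup.centralizer (R1 : Set (Lam Y)) ≤ Λu := by
    intro p hp
    exact hlu.cent ((hcR1 p).1 hp)
  have hn1 : Λu ≤ Subgroup.normalizer (R1 : Set (Lam Y)) := by
    intro p hp
    rw [Subgroup.mem_normalizer_iff]
    intro q
    have e2 := (Subgroup.mem_normalizer_iff.1 (hlu.norm hp)) q.1.2
    refine and_congr ?_ e2
    change q.1.1 ∈ (⊥ : Subgroup X) ↔ p.1.1 * q.1.1 * (p.1.1)⁻¹ ∈ (⊥ : Subgroup X)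
    rw [Subgroup.mem_bot, Subgroup.mem_bot]
    constructor
    · intro h
      rw [h]
      group
    · intro h
      have h1 := congrArg (fun z => (p.1.1)⁻¹ * z * p.1.1) h
      have e : (p.1.1)⁻¹ * (p.1.1 * q.1.1 * (p.1.1)⁻¹) * p.1.1 = q.1.1 := by group
      change (p.1.1)⁻¹ * (p.1.1 * q.1.1 * (p.1.1)⁻¹) * p.1.1 = (p.1.1)⁻¹ * 1 * p.1.1 at h1
      rw [e] at h1
      rw [h1]
      group
  have hidem : IsIdem eu := (hbrm ℓ F hF (Lam Y) R1 Λu hR1p hc1 hn1).2.2 E hE
  -- the isomorphism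
  let e : Q₁ ≃* Y :=
    { toFun := fun q => ⟨q.1.1.1.1, hQY q.1 q.2⟩
      invFun := fun y => ⟨⟨inL y, by
        change (1 : X) ∈ stab u
        exact (stab u).one_mem⟩, (hmemQ _).2 rfl⟩
      left_inv := fun q => Subtype.ext (Subtype.ext (lam_ext rfl ((hmemQ _).1 q.2).symm))
      right_inv := fun y => rfl
      map_mul' := fun q q' => rfl }
  have hmapQ : Q₁.map φ = Y := by
    ext y
    constructor
    · rintro ⟨q, hq, rfl⟩
      exact hQY q hq
    · intro hy
      exact ⟨(e.symm ⟨y, hy⟩ : Q₁), (e.symm ⟨y, hy⟩).2, rfl⟩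
  have hcommQ : ∀ k : Λu, φ k = 1 → ∀ m ∈ Q₁, k * m = m * k := by
    intro k hk m hm
    apply Subtype.ext
    apply lam_ext
    · change k.1.1.1 * m.1.1.1 = m.1.1.1 * k.1.1.1
      have h1 : k.1.1.1 = 1 := hk
      rw [h1, one_mul, mul_one]
    · change k.1.1.2 * m.1.1.2 = m.1.1.2 * k.1.1.2
      rw [(hmemQ m).1 hm, one_mul, mul_one]
  have hkerQ : ¬ ℓ ∣ Nat.card (φ.ker ⊓ Q₁ : Subgroup Λu) := by
    have h1 : (φ.ker ⊓ Q₁ : Subgroup Λu) = ⊥ := by
      rw [eq_bot_iff]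
      rintro q ⟨h1, h2⟩
      rw [Subgroup.mem_bot]
      exact Subtype.ext (lam_ext h1 ((hmemQ q).1 h2))
    rw [h1, Subgroup.card_bot]
    exact fun h => hF.prime.one_lt.ne' (Nat.dvd_one.1 h)
  have hmu : mu Q₁ ≤ mu Y := by
    have h0 : mu Y = ((Subgroup.center X).comap φ).relIndex Q₁ := by
      rw [Subgroup.relIndex_comap, hmapQ]
      rfl
    rw [h0, ← Subgroup.inf_relIndex_right _ Q₁]
    refine Subgroup.relIndex_le_of_le_left ?_ ?_
    · rintro q ⟨h1, h2⟩
      rw [Subgroup.mem_center_iff]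
      intro k
      apply Subtype.ext
      apply lam_ext
      · have h3 := Subgroup.mem_center_iff.1 h1 k.1.1.1
        exact h3
      · change k.1.1.2 * q.1.1.2 = q.1.1.2 * k.1.1.2
        rw [(hmemQ q).1 h2, one_mul, mul_one]
    · exact Subgroup.FiniteIndex.index_ne_zero
  have hout : ∃ n : ℕ, Subgroup.lowerCentralSeries (⊤ : Subgroup Λu) n ≤
      Q₁ ⊔ Subgroup.centralizer (Q₁ : Set Λu) := by
    obtain ⟨n, hn⟩ := hnil
    refine ⟨n, fun q hq => ?_⟩
    have h1 : q.1.1.1 ∈ Y := hn (lcs_mem φ hq)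
    set a : Q₁ := e.symm ⟨q.1.1.1, h1⟩ with ha
    have h2 : (a : Λu)⁻¹ * q ∈ Subgroup.centralizer (Q₁ : Set Λu) := by
      rw [Subgroup.mem_centralizer_iff]
      intro m hm
      refine (hcommQ _ ?_ m hm).symm
      change (q.1.1.1)⁻¹ * q.1.1.1 = 1
      exact inv_mul_cancel _
    have h3 := Subgroup.mul_mem_sup a.2 h2
    rwa [mul_inv_cancel_left] at h3
  -- positivity
  have hext : ext0 Q₁ (fun q : Q₁ => f q.1.1.1.1) = fun t : Λu => ft Y f t := by
    funext t
    unfold ext0 ft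
    by_cases h : t ∈ Q₁
    · rw [dif_pos h, if_pos ((hmemQ t).1 h)]
    · rw [dif_neg h, if_neg (fun h' => h ((hmemQ t).2 h'))]
  have hpos : Pos ℓ eu Q₁ := by
    refine (hps3 ℓ F hF Λu Q₁ inferInstance (fun q : Q₁ => f q.1.1.1.1) ?_ ?_ eu hidem ?_).1 ?_
    · exact H18.blk_equiv e hf.blk
    · rw [hext, eq_top_iff]
      intro g _ x
      change ft Y f ((g : Lam Y) * x * (g : Lam Y)⁻¹) = ft Y f x
      unfold ft
      have h1 : ((g : Lam Y) * x * (g : Lam Y)⁻¹).1.2 = 1 ↔ (x : Lam Y).1.2 = 1 := by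
        change g.1.1.2 * x.1.1.2 * (g.1.1.2)⁻¹ = 1 ↔ x.1.1.2 = 1
        rw [mul_inv_eq_one]
        constructor
        · intro h
          exact mul_left_cancel (a := g.1.1.2) (by rw [h, mul_one])
        · intro h
          rw [h, mul_one]
      by_cases h : (x : Lam Y).1.2 = 1
      · rw [if_pos h, if_pos (h1.2 h)]
        exact hf.cl x.1.1.1 g.1.1.1
      · rw [if_neg h, if_neg (fun h' => h (h1.1 h'))]
    · rw [hext, heu, ← H75.mulF_res Λu (ft Y f)
        (fun x hx => H66.br_of_not_mem (fun h => hx (hc1 h)))]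
      have hsup : ∀ t, t ∉ Subgroup.centralizer (R1 : Set (Lam Y)) → ft Y f t = 0 := by
        intro t ht
        unfold ft
        rw [if_neg]
        intro h
        apply ht
        rw [hcR1, h]
        exact one_mem _
      rw [← br_mul_right hsup]
      have h3 : mulF E (ft Y f) = E := by
        rw [← hEf, mulF_assoc, sig_ft hf]
      rw [h3]
    · intro h
      exact hdz (dz_equiv e h)
  -- the hypothesis
  have h1 : YY ℓ Q₁ eu = 0 := hH Λu Q₁ inferInstance ⟨e⟩ hmu hout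
    ⟨(Lam Y).subtype.comp Λu.subtype, (Lam Y).subtype_injective.comp Λu.subtype_injective⟩
    eu hidem hpos
  unfold YY at h1
  have h2 := H74.chf hF.prime φ Q₁ inferInstance hcommQ hkerQ
    (fun S => (Nat.card S : ℤ) * (lnum S eu : ℤ))
  rw [h2, hmapQ, hnch ℓ X Y (fun S _ => (Nat.card (S.comap φ) : ℤ) *
    (lnum (S.comap φ) eu : ℤ))] at h1
  rw [← h1]
  refine Finset.sum_congr rfl fun t ht => ?_
  rw [Finset.mem_filter] at ht
  have hlt := hlct ℓ X Y hF.prime t ht.1 ht.2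
  have hloc := loc_prod hlt hlu
  set S2 : Subgroup (Lam Y) := ((stab t).prod (stab u)).subgroupOf (Lam Y) with hS2
  have hmapS : ((stab t).comap φ).map Λu.subtype = S2 := by
    ext p
    constructor
    · rintro ⟨q, hq, rfl⟩
      exact ⟨hq, q.2⟩
    · rintro ⟨h3, h4⟩
      exact ⟨⟨p, h4⟩, h3, rfl⟩
  have e1 : lnum ((stab t).comap φ) eu = lnum S2 (br R1 E) := by
    rw [← hmapS, H75.lnum_map Λu.subtype Λu.subtype_injective]
    rfl
  have e2 : Nat.card ((stab t).comap φ) = Nat.card S2 := by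
    rw [← hmapS, Subgroup.card_map_of_injective Λu.subtype_injective]
  have e3 : lnum S2 (br R1 E) = lnum S2 E := by
    refine lnum_congr_br hF hnls hloc.pgrp hloc.leS hloc.norm ?_ ?_ ?_
    · intro x y
      exact hidem.1 ⟨x, x.2.2⟩ ⟨y, y.2.2⟩
    · intro x y
      exact hE.1 _ _
    · funext p
      by_cases hp : p ∈ Subgroup.centralizer
          ((((top t).prod (top u)).subgroupOf (Lam Y) : Subgroup (Lam Y)) : Set (Lam Y))
      · rw [H66.br_of_mem hp, H66.br_of_mem hp, H66.br_of_mem]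
        refine Subgroup.centralizer_le ?_ hp
        rintro r ⟨hr1, hr2⟩
        refine ⟨?_, hr2⟩
        have h5 : r.1.1 = 1 := (Subgroup.mem_bot).1 hr1
        change r.1.1 ∈ top t
        rw [h5]
        exact (top t).one_mem
      · rw [H66.br_of_not_mem hp, H66.br_of_not_mem hp]
  rw [e1, e2, e3]

end inner

end Pool.Agent.PP.H94
end
end -- Pool.Agent.Helper94_PP.Db2b

section -- Pool.Agent.Helper94_PP.Db2c

/-!
# Squad PP, part J, module DB2 (AWC_J, J7.7): the pair sums vanish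
-/

open scoped BigOperators

set_option linter.unusedSectionVars false

noncomputable section

namespace Pool.Agent.PP.H94

open Pool.Agent.Helper51_AWC Pool.Agent.Helper79_WRA Pool.Agent.PP

section lcs

theorem lcs_mono {G : Type} [Group G] {A B : Subgroup G} (h : A ≤ B) (n : ℕ) :
    Subgroup.lowerCentralSeries A n ≤ Subgroup.lowerCentralSeries B n := by
  induction n with
  | zero => exact h
  | succ n ih =>
    rw [Subgroup.lowerCentralSeries_succ, Subgroup.lowerCentralSeries_succ]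
    exact Subgroup.commutator_mono ih h

end lcs

section final

variable {ℓ : ℕ} {F : Type} [Field F] {τ : F → ℂ} {X : Type} [Group X] [Finite X]
  {Y : Subgroup X} [hY : Y.Normal]

theorem card_YY2 (S S' : Subgroup X) :
    Nat.card ↥(YY2 Y ⊓ ((S.prod S').subgroupOf (Lam Y))) =
      Nat.card ↥(Y ⊓ S) * Nat.card ↥(Y ⊓ S') := by
  rw [← Nat.card_prod]
  refine Nat.card_congr
    { toFun := fun p => (⟨p.1.1.1, p.2.1.1, p.2.2.1⟩, ⟨p.1.1.2, p.2.1.2, p.2.2.2⟩)
      invFun := fun p => ⟨⟨(p.1, p.2), Y.mul_mem (Y.inv_mem p.1.2.1) p.2.2.1⟩,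
        ⟨p.1.2.1, p.2.2.1⟩, ⟨p.1.2.2, p.2.2.2⟩⟩
      left_inv := fun p => rfl
      right_inv := fun p => rfl }

open Classical in
/-- one term of the pair sum -/
def tm (τ : F → ℂ) (Y : Subgroup X) (f : X → F) (t : Finset (Subgroup X)) (x y : X)
    (v : X → F) : ℂ :=
  if x ∈ stab t ∧ y ∈ stab t then (-1 : ℂ) ^ (t.card + 1) * (Nat.card ↥(Y ⊓ stab t) : ℂ)⁻¹ *
    SS τ Y (stab t) (top t) f x y v else 0

open Classical in
/-- the sum over the chains fixed by `x` and `y` -/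
def D1 (τ : F → ℂ) (ℓ : ℕ) (Y : Subgroup X) (f : X → F) (x y : X) (v : X → F) : ℂ :=
  ∑ t ∈ (chainsOn (psubIn ℓ Y) ⊥).filter NormalChain, tm τ Y f t x y v

theorem DJ_eq [Fintype Y] (f : X → F) (x y : X) (v : X → F) :
    DJ τ ℓ Y f x y v = ∑ n : Y, ∑ m : Y, D1 τ ℓ Y f (x * n) (y * m) v := by
  classical
  unfold DJ
  rw [finsum_eq_sum_of_fintype]
  refine Finset.sum_congr rfl fun n _ => ?_
  rw [finsum_eq_sum_of_fintype]
  refine Finset.sum_congr rfl fun m _ => ?_
  unfold D1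
  rw [Finset.sum_filter, Finset.sum_filter]
  refine Finset.sum_congr rfl fun t _ => ?_
  unfold tm
  by_cases h1 : NormalChain t
  · by_cases h2 : x * (n : X) ∈ stab t ∧ y * (m : X) ∈ stab t
    · rw [if_pos ⟨h1, h2⟩, if_pos h1, if_pos h2]
    · rw [if_neg (fun h => h2 h.2), if_pos h1, if_neg h2]
  · rw [if_neg (fun h => h1 h.1), if_neg h1]

theorem DJ_mul [Fintype Y] (f : X → F) (x y : X) (v : X → F) (n m : Y) :
    DJ τ ℓ Y f (x * n) (y * m) v = DJ τ ℓ Y f x y v := by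
  rw [DJ_eq, DJ_eq]
  refine Fintype.sum_equiv (Equiv.mulLeft n) _ _ fun n' => ?_
  refine Fintype.sum_equiv (Equiv.mulLeft m) _ _ fun m' => ?_
  change D1 τ ℓ Y f (x * n * n') (y * m * m') v = D1 τ ℓ Y f (x * (n * n' : X)) (y * (m * m' : X)) v
  rw [mul_assoc x, mul_assoc y]

open Classical in
/-- averaging over the cosets -/
theorem avg [Fintype X] [Fintype Y] (g : X → X → ℂ) (h : ∑ a, ∑ b, g a b = 0) :
    ∑ a : X, ∑ b : X, ∑ n : Y, ∑ m : Y, g (a * n) (b * m) = 0 := by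
  have h1 : ∀ n m : Y, ∑ a : X, ∑ b : X, g (a * n) (b * m) = 0 := by
    intro n m
    rw [← h]
    refine Fintype.sum_equiv (Equiv.mulRight (n : X)) _ _ fun a => ?_
    exact Fintype.sum_equiv (Equiv.mulRight (m : X)) _ _ fun b => rfl
  calc ∑ a : X, ∑ b : X, ∑ n : Y, ∑ m : Y, g (a * n) (b * m)
      = ∑ a : X, ∑ n : Y, ∑ b : X, ∑ m : Y, g (a * n) (b * m) :=
        Finset.sum_congr rfl fun a _ => Finset.sum_comm
    _ = ∑ n : Y, ∑ a : X, ∑ b : X, ∑ m : Y, g (a * n) (b * m) := Finset.sum_comm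
    _ = ∑ n : Y, ∑ a : X, ∑ m : Y, ∑ b : X, g (a * n) (b * m) :=
        Finset.sum_congr rfl fun n _ => Finset.sum_congr rfl fun a _ => Finset.sum_comm
    _ = ∑ n : Y, ∑ m : Y, ∑ a : X, ∑ b : X, g (a * n) (b * m) :=
        Finset.sum_congr rfl fun n _ => Finset.sum_comm
    _ = 0 := Finset.sum_eq_zero fun n _ => Finset.sum_eq_zero fun m _ => h1 n m

theorem fstP_normal {L : Subgroup X} (hL : L.Normal) : (fstP Y L).Normal := hL.comap _

open Classical in
/-- DBL for groups which are nilpotent modulo `Y` -/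
theorem dbl_core (hnls : NlsStmt) (hbrm : BrmStmt) (hnch : NchStmt) (hps3 : Ps3Stmt)
    (hlct : LctStmt) (hcl : ClStmt) (hloc : LocStmt) (hxf : XfsStmt) (hinn : InnStmt)
    (htfa : TfaStmt) (huni : UniStmt) (hdb1 : Db1Stmt) (hssp : SspStmt)
    (hF : GoodF ℓ F) (hτ : IsLift τ) {f : X → F} (hf : SBlk Y f)
    (hdz : ¬ DZ ℓ (fun t : Y => f t)) (hnil : NilMod (⊤ : Subgroup X) Y) (hH : HypY ℓ F Y) :
    DAll τ ℓ Y f := by
  have hfact : Fact ℓ.Prime := ⟨hF.prime⟩
  have hfX := Fintype.ofFinite X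
  have hfY := Fintype.ofFinite Y
  have hfL := Fintype.ofFinite (Lam Y)
  obtain ⟨hxu, hXn, hYX, hun, -⟩ := hxf ℓ F hF X Y hY f hf
  obtain ⟨u, u', hu, hucos⟩ := exists_units hxf hF Y hY hf
  set J := XF f Y with hJ
  have hnilJ : NilMod J Y := by
    obtain ⟨n, hn⟩ := hnil
    exact ⟨n, (lcs_mono le_top n).trans hn⟩
  obtain ⟨hS, hunit, E, hE, hEf, hsupp, hBB⟩ := hdb1 ℓ F hF τ hτ X Y f hf hnilJ
  set M := fstP Y J with hM
  have hMn : M.Normal := fstP_normal hXn
  have hYM : YY2 Y ≤ M := by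
    rintro p ⟨h1, -⟩
    exact hYX h1
  have hMX : M ≤ XF (sig Y f f) (YY2 Y) := by
    intro p hp
    obtain ⟨v, v', hv⟩ := (hxu _).1 hp
    exact Subgroup.subset_closure ⟨_, _, hunit v v' p hv⟩
  let cond : X → X → Prop := fun x y => RegM ℓ J x ∧ x * y * x⁻¹ * y⁻¹ ∈ J
  set N := (chainsOn (psubIn ℓ Y) (⊥ : Subgroup X)).filter NormalChain with hN
  -- one pair of chains
  have h1 : ∀ t ∈ N, ∀ s ∈ N, ∑ p : Lam Y, ∑ q : Lam Y, (if cond p.1.1 q.1.1 then
      tm τ Y f t p.1.1 q.1.1 (u p.1.1 q.1.1) *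
        (starRingEnd ℂ) (tm τ Y f s p.1.2 q.1.2 (u p.1.1 q.1.1)) else 0) =
      (-1 : ℂ) ^ (s.card + 1) * ((YY2 Y).relIndex M : ℂ) * ((-1 : ℂ) ^ (t.card + 1) *
        ((Nat.card (((stab t).prod (stab s)).subgroupOf (Lam Y)) : ℂ) *
          (lnum (((stab t).prod (stab s)).subgroupOf (Lam Y)) E : ℂ))) := by
    intro t ht s hs
    rw [hN, Finset.mem_filter] at ht hs
    have hlt := hlct ℓ X Y hF.prime t ht.1 ht.2
    have hls := hlct ℓ X Y hF.prime s hs.1 hs.2
    have h2 := loc_sum hcl htfa hinn hloc hF hτ (YY2 Y) YY2_normal hS (loc_prod hlt hls) M hMn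
      hYM hMX hE hEf hsupp (fun p q => sig Y (u p.1.1 q.1.1) (u' p.1.1 q.1.1))
      (fun p q => sig Y (u' p.1.1 q.1.1) (u p.1.1 q.1.1))
      (fun p q hpq => hunit _ _ (p * q * p⁻¹ * q⁻¹) (hu p.1.1 q.1.1 hpq))
    have h3 : (-1 : ℂ) ^ (s.card + 1) * ((YY2 Y).relIndex M : ℂ) * ((-1 : ℂ) ^ (t.card + 1) *
        ((Nat.card (((stab t).prod (stab s)).subgroupOf (Lam Y)) : ℂ) *
          (lnum (((stab t).prod (stab s)).subgroupOf (Lam Y)) E : ℂ))) =
        ((-1 : ℂ) ^ (t.card + 1) * (-1 : ℂ) ^ (s.card + 1)) * (((YY2 Y).relIndex M : ℂ) *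
        ((Nat.card (((stab t).prod (stab s)).subgroupOf (Lam Y)) : ℂ) *
          (lnum (((stab t).prod (stab s)).subgroupOf (Lam Y)) E : ℂ))) := by ring
    rw [h3, h2, Finset.mul_sum]
    refine Finset.sum_congr rfl fun p _ => ?_
    rw [Finset.mul_sum]
    refine Finset.sum_congr rfl fun q _ => ?_
    have hcond : (RegM ℓ M p ∧ p * q * p⁻¹ * q⁻¹ ∈ M) ↔ cond p.1.1 q.1.1 := Iff.rfl
    by_cases hc : cond p.1.1 q.1.1
    · rw [if_pos hc]
      unfold tm
      by_cases hpt : p.1.1 ∈ stab t ∧ q.1.1 ∈ stab t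
      · by_cases hps : p.1.2 ∈ stab s ∧ q.1.2 ∈ stab s
        · rw [if_pos hpt, if_pos hps, if_pos ⟨⟨⟨hpt.1, hps.1⟩, ⟨hpt.2, hps.2⟩⟩, hcond.2 hc⟩]
          rw [hBB p q _ _ (hu p.1.1 q.1.1 hc.2),
            hssp ℓ F hF τ hτ X Y f hf _ _ _ _ hlt hls p q hpt.1 hpt.2 hps.1 hps.2 _ _
              (hu p.1.1 q.1.1 hc.2), card_YY2]
          rw [map_mul, map_mul, map_pow, map_neg, map_one, map_inv₀, map_natCast]
          push_cast
          rw [mul_inv]
          ring
        · rw [if_neg hps, map_zero, mul_zero, if_neg, mul_zero]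
          rintro ⟨⟨h4, h5⟩, -⟩
          exact hps ⟨h4.2, h5.2⟩
      · rw [if_neg hpt, zero_mul, if_neg, mul_zero]
        rintro ⟨⟨h4, h5⟩, -⟩
        exact hpt ⟨h4.1, h5.1⟩
    · rw [if_neg hc, if_neg, mul_zero]
      rintro ⟨-, h4⟩
      exact hc (hcond.1 h4)
  -- the sum over all pairs of chains
  have key : ∑ p : Lam Y, ∑ q : Lam Y, (if cond p.1.1 q.1.1 then
      D1 τ ℓ Y f p.1.1 q.1.1 (u p.1.1 q.1.1) *
        (starRingEnd ℂ) (D1 τ ℓ Y f p.1.2 q.1.2 (u p.1.1 q.1.1)) else 0) = 0 := by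
    have h2 : ∀ p q : Lam Y, (if cond p.1.1 q.1.1 then
        D1 τ ℓ Y f p.1.1 q.1.1 (u p.1.1 q.1.1) *
          (starRingEnd ℂ) (D1 τ ℓ Y f p.1.2 q.1.2 (u p.1.1 q.1.1)) else 0) =
        ∑ t ∈ N, ∑ s ∈ N, (if cond p.1.1 q.1.1 then
          tm τ Y f t p.1.1 q.1.1 (u p.1.1 q.1.1) *
          (starRingEnd ℂ) (tm τ Y f s p.1.2 q.1.2 (u p.1.1 q.1.1)) else 0) := by
      intro p q
      by_cases hc : cond p.1.1 q.1.1
      · simp only [if_pos hc]
        unfold D1
        rw [map_sum, Finset.sum_mul_sum]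
      · simp only [if_neg hc]
        rw [Finset.sum_const_zero, Finset.sum_const_zero]
    simp only [h2]
    have h3 : ∑ p : Lam Y, ∑ q : Lam Y, ∑ t ∈ N, ∑ s ∈ N, (if cond p.1.1 q.1.1 then
          tm τ Y f t p.1.1 q.1.1 (u p.1.1 q.1.1) *
          (starRingEnd ℂ) (tm τ Y f s p.1.2 q.1.2 (u p.1.1 q.1.1)) else 0) =
        ∑ s ∈ N, ∑ t ∈ N, ∑ p : Lam Y, ∑ q : Lam Y, (if cond p.1.1 q.1.1 then
          tm τ Y f t p.1.1 q.1.1 (u p.1.1 q.1.1) *
          (starRingEnd ℂ) (tm τ Y f s p.1.2 q.1.2 (u p.1.1 q.1.1)) else 0) := by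
      calc _ = ∑ p : Lam Y, ∑ t ∈ N, ∑ q : Lam Y, ∑ s ∈ N, _ :=
            Finset.sum_congr rfl fun p _ => Finset.sum_comm
        _ = ∑ t ∈ N, ∑ p : Lam Y, ∑ q : Lam Y, ∑ s ∈ N, _ := Finset.sum_comm
        _ = ∑ t ∈ N, ∑ p : Lam Y, ∑ s ∈ N, ∑ q : Lam Y, _ :=
            Finset.sum_congr rfl fun t _ => Finset.sum_congr rfl fun p _ => Finset.sum_comm
        _ = ∑ t ∈ N, ∑ s ∈ N, ∑ p : Lam Y, ∑ q : Lam Y, _ :=
            Finset.sum_congr rfl fun t _ => Finset.sum_comm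
        _ = _ := Finset.sum_comm
    rw [h3]
    refine Finset.sum_eq_zero fun s hs => ?_
    rw [Finset.sum_congr rfl fun t ht => h1 t ht s hs, ← Finset.mul_sum]
    have hs' := hs
    rw [hN, Finset.mem_filter] at hs'
    have h4 := inner hnls hbrm hnch hps3 hlct hF hf hdz hnil hH hE hEf hs'.1 hs'.2
    have h5 : ((∑ t ∈ (chainsOn (psubIn ℓ Y) (⊥ : Subgroup X)).filter NormalChain,
      (-1 : ℤ) ^ (t.card + 1) *
      ((Nat.card (((stab t).prod (stab s)).subgroupOf (Lam Y)) : ℤ) *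
        (lnum (((stab t).prod (stab s)).subgroupOf (Lam Y)) E : ℤ)) : ℤ) : ℂ) = 0 := by
      rw [h4, Int.cast_zero]
    push_cast at h5
    rw [h5, mul_zero]
  -- sums over `X`
  let Δ : X → X → ℂ := fun a b => DJ τ ℓ Y f a b (u a b)
  let g : X → X → ℂ := fun a b => if cond a b then
    D1 τ ℓ Y f a b (u a b) * (starRingEnd ℂ) (Δ a b) else 0
  have hg : ∑ a : X, ∑ b : X, g a b = 0 := by
    rw [← key, sum_lam]
    refine Finset.sum_congr rfl fun a _ => ?_
    have h2 : ∀ n : Y, ∑ q : Lam Y, (if cond (mkL a n).1.1 q.1.1 then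
        D1 τ ℓ Y f (mkL a n).1.1 q.1.1 (u (mkL a n).1.1 q.1.1) *
        (starRingEnd ℂ) (D1 τ ℓ Y f (mkL a n).1.2 q.1.2 (u (mkL a n).1.1 q.1.1)) else 0) =
        ∑ b : X, ∑ m : Y, (if cond a b then D1 τ ℓ Y f a b (u a b) *
        (starRingEnd ℂ) (D1 τ ℓ Y f (a * n) (b * m) (u a b)) else 0) := by
      intro n
      rw [sum_lam]
      rfl
    simp only [h2]
    rw [Finset.sum_comm]
    refine Finset.sum_congr rfl fun b _ => ?_
    change (if cond a b then D1 τ ℓ Y f a b (u a b) * (starRingEnd ℂ) (Δ a b) else 0) = _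
    by_cases hc : cond a b
    · simp only [if_pos hc]
      change _ * (starRingEnd ℂ) (DJ τ ℓ Y f a b (u a b)) = _
      rw [DJ_eq, map_sum, Finset.mul_sum]
      refine Finset.sum_congr rfl fun n _ => ?_
      rw [map_sum, Finset.mul_sum]
    · simp only [if_neg hc]
      rw [Finset.sum_const_zero, Finset.sum_const_zero]
  have h2 := avg (Y := Y) g hg
  have hcondm : ∀ (a b : X) (n m : Y), cond (a * n) (b * m) ↔ cond a b := by
    intro a b n m
    exact and_congr (regM_mul hXn a n (hYX n.2))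
      (comm_mul_mem hXn a b n m (hYX n.2) (hYX m.2))
  have h3 : ∀ a b : X, ∑ n : Y, ∑ m : Y, g (a * n) (b * m) =
      if cond a b then ((Complex.normSq (Δ a b) : ℝ) : ℂ) else 0 := by
    intro a b
    by_cases hc : cond a b
    · rw [if_pos hc, ← Complex.mul_conj]
      have h4 : ∀ n m : Y, g (a * n) (b * m) = D1 τ ℓ Y f (a * n) (b * m) (u a b) *
          (starRingEnd ℂ) (Δ a b) := by
        intro n m
        change (if cond (a * n) (b * m) then D1 τ ℓ Y f (a * n) (b * m) (u (a * n) (b * m)) *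
          (starRingEnd ℂ) (DJ τ ℓ Y f (a * n) (b * m) (u (a * n) (b * m))) else 0) = _
        rw [if_pos ((hcondm a b n m).2 hc), hucos a b n m n.2 m.2, DJ_mul]
      simp only [h4]
      simp only [← Finset.sum_mul]
      congr 1
      exact (DJ_eq f a b (u a b)).symm
    · rw [if_neg hc]
      refine Finset.sum_eq_zero fun n _ => Finset.sum_eq_zero fun m _ => ?_
      change (if cond (a * n) (b * m) then _ else _) = _
      rw [if_neg (fun h => hc ((hcondm a b n m).1 h))]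
  simp only [h3] at h2
  have h4 : ∑ a : X, ∑ b : X, (if cond a b then Complex.normSq (Δ a b) else 0) = 0 := by
    have h5 : ((∑ a : X, ∑ b : X, (if cond a b then Complex.normSq (Δ a b) else 0) : ℝ) : ℂ) =
        0 := by
      rw [← h2]
      push_cast
      refine Finset.sum_congr rfl fun a _ => Finset.sum_congr rfl fun b _ => ?_
      by_cases hc : cond a b
      · rw [if_pos hc, if_pos hc]
      · rw [if_neg hc, if_neg hc, Complex.ofReal_zero]
    exact_mod_cast h5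
  intro x y hx hxy
  have h5 := (Finset.sum_eq_zero_iff_of_nonneg (fun a _ => Finset.sum_nonneg fun b _ => by
    by_cases hc : cond a b
    · rw [if_pos hc]; exact Complex.normSq_nonneg _
    · rw [if_neg hc])).1 h4 x (Finset.mem_univ _)
  have h6 := (Finset.sum_eq_zero_iff_of_nonneg (fun b _ => by
    by_cases hc : cond x b
    · rw [if_pos hc]; exact Complex.normSq_nonneg _
    · rw [if_neg hc])).1 h5 y (Finset.mem_univ _)
  rw [if_pos (⟨hx, hxy⟩ : cond x y)] at h6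
  exact huni ℓ F hF τ hτ X Y hY f hf x y _ _ (hu x y hxy) (Complex.normSq_eq_zero.1 h6)

end final

/-- DBL (J-III) -/
theorem dbln (hnls : NlsStmt) (hbrm : BrmStmt) (hnch : NchStmt) (hps3 : Ps3Stmt)
    (hlct : LctStmt) (hcl : ClStmt) (hloc : LocStmt) (hxf : XfsStmt) (hinn : InnStmt)
    (htfa : TfaStmt) (huni : UniStmt) (hdb1 : Db1Stmt) (hssp : SspStmt) (hmov : MovStmt)
    (hfra : FraStmt) (hrst : RstStmt) : DblnStmt := by
  intro ℓ _ F _ hF τ hτ X _ _ Y hY f hf hdz hH x y hx hxy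
  obtain ⟨hxu, hXn, hYX, -⟩ := hxf ℓ F hF X Y hY f hf
  obtain ⟨L, hYL, ⟨j, hj, hxj⟩, ⟨j', hj', hyj⟩, n, hn⟩ := hfra X Y (XF f Y) hY hXn hYX x y hxy
  obtain ⟨hfL, hXL, hback⟩ := hrst ℓ F hF τ X Y hY f hf L hYL
  have hYn : (Y.subgroupOf L).Normal := inferInstance
  -- the statement for `L`
  have hnil : NilMod (⊤ : Subgroup L) (Y.subgroupOf L) := by
    refine ⟨n, fun q hq => ?_⟩
    have h1 : ∀ (k : ℕ) (q : L), q ∈ Subgroup.lowerCentralSeries (⊤ : Subgroup L) k →
        (q : X) ∈ Subgroup.lowerCentralSeries L k := by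
      intro k
      have h2 : (Subgroup.lowerCentralSeries (⊤ : Subgroup L) k).map L.subtype ≤
          Subgroup.lowerCentralSeries L k := by
        induction k with
        | zero =>
          rintro _ ⟨q, -, rfl⟩
          exact q.2
        | succ k ih =>
          rw [Subgroup.lowerCentralSeries_succ, Subgroup.lowerCentralSeries_succ,
            Subgroup.map_commutator]
          refine Subgroup.commutator_mono ih ?_
          rintro _ ⟨q, -, rfl⟩
          exact q.2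
      intro q hq
      exact h2 ⟨q, hq, rfl⟩
    exact hn (h1 n q hq)
  let e : Y.subgroupOf L ≃* Y := Subgroup.subgroupOfEquivOfLe hYL
  have hdzL : ¬ DZ ℓ (fun t : Y.subgroupOf L => (fun t : L => f t) t) := by
    intro h
    exact hdz (dz_equiv e h)
  have hHL : HypY ℓ F (Y.subgroupOf L) := by
    intro H₁ _ _ Q₁ hQ₁ hiso hmu hout hi
    obtain ⟨e₁⟩ := hiso
    obtain ⟨i, hi⟩ := hi
    refine hH H₁ Q₁ hQ₁ ⟨e₁.trans e⟩ (hmu.trans ?_) hout
      ⟨(MonoidHom.prodMap L.subtype L.subtype).comp i, ?_⟩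
    rotate_left
    · exact (Function.Injective.prodMap L.subtype_injective L.subtype_injective).comp hi
    unfold mu
    have h0 : (Subgroup.center X).relIndex Y =
        ((Subgroup.center X).comap L.subtype).relIndex (Y.subgroupOf L) := by
      rw [Subgroup.relIndex_comap, Subgroup.map_subgroupOf_eq_of_le hYL]
    rw [h0]
    refine Subgroup.relIndex_le_of_le_left ?_ Subgroup.FiniteIndex.index_ne_zero
    intro q hq
    rw [Subgroup.mem_center_iff]
    intro k
    exact Subtype.ext (Subgroup.mem_center_iff.1 hq k)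
  have hall := dbl_core hnls hbrm hnch hps3 hlct hcl hloc hxf hinn htfa huni hdb1 hssp hF hτ hfL
    hdzL hnil hHL
  -- in `L`
  have h1 : DZero τ ℓ Y f (x * j) (y * j') := by
    refine hback ⟨x * j, hxj⟩ ⟨y * j', hyj⟩ (hall _ _ ?_ ?_)
    · have h2 := (regM_mul hXn x j hj (ℓ := ℓ)).2 hx
      obtain ⟨s, hs, h3⟩ := h2
      exact ⟨s, hs, (hXL _).2 h3⟩
    · rw [hXL]
      exact (comm_mul_mem hXn x y j j' hj hj').2 hxy
  have h2 := (hmov ℓ F hF τ hτ X Y hY f hf (x * j) (y * j')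
    ((comm_mul_mem hXn x y j j' hj hj').2 hxy) j⁻¹ ((XF f Y).inv_mem hj)).1 h1
  rw [mul_inv_cancel_right] at h2
  have h3 := (hmov ℓ F hF τ hτ X Y hY f hf x (y * j') ?_ j'⁻¹ ((XF f Y).inv_mem hj')).2 h2
  · rw [mul_inv_cancel_right] at h3
    exact h3
  · have := (comm_mul_mem hXn x y 1 j' (XF f Y).one_mem hj').2 hxy
    rwa [mul_one] at this

end Pool.Agent.PP.H94
end
end -- Pool.Agent.Helper94_PP.Db2c
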