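import Pool.Agent.Helper12_AWB.B050
import Pool.Agent.Helper12_AWB.B056
import Pool.Agent.Helper12_AWB.B071
import Pool.Agent.Helper12_AWB.B072
import Pool.Agent.Helper12_AWB.B095
import Pool.Agent.Helper18_PP.Good
import Pool.Agent.Helper66_PP.StmtsF
import Pool.Agent.Helper67_PP.StmtsU

/-!
# Merged copies (generated) of the modules

* `Pool.Agent.Helper67_PP.Asm`
* `Pool.Agent.Helper94_PP.Pse`
* `Pool.Agent.Helper67_PP.S1n`
* `Pool.Agent.Helper18_PP.Twl`
* `Pool.Agent.Helper18_PP.Stm`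
* `Pool.Agent.Helper96_PP.Stm2`
-/

set_option autoImplicit false

section -- Pool.Agent.Helper67_PP.Asm

/-!
SI1: assembly.
-/

open scoped BigOperators

set_option linter.unusedSectionVars false

noncomputable section

namespace Pool.Agent.PP.H67

open Pool.Agent.Helper51_AWC Pool.Agent.Helper79_WRA Pool.Agent.PP

theorem card_ker_mul {E G : Type} [Group E] [Group G] (f : E →* G) (H : Subgroup E)
    (h : f.ker ≤ H) : Nat.card f.ker * Nat.card (H.map f) = Nat.card H := by
  have h1 := Subgroup.relIndex_mul_relIndex ⊥ f.ker H bot_le h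
  rw [Subgroup.relIndex_bot_left, Subgroup.relIndex_bot_left, Subgroup.relIndex_ker] at h1
  exact h1

theorem scalar_inj {F : Type} [Field F] {n : ℕ} (hn : 0 < n) {w w' : F}
    (h : Matrix.scalar (Fin n) w = Matrix.scalar (Fin n) w') : w = w' := by
  have := congrFun (congrFun h ⟨0, hn⟩) ⟨0, hn⟩
  simpa using this

section cover

variable {ℓ : ℕ} {F G E : Type} [Field F] [Group G] [Finite G] [Group E] [Finite E] {n : ℕ}
  {C L : Subgroup G} {ρ : C →* Matrix (Fin n) (Fin n) F} {p : E →* G}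
  {α : E →* Matrix (Fin n) (Fin n) F} {K : Subgroup E}

theorem Cover.map_K (h : Cover ℓ C L ρ p α K) : K.map p = C := by
  ext g
  constructor
  · rintro ⟨x, hx, rfl⟩
    obtain ⟨c, hc, -⟩ := (h.mem x).1 hx
    rw [hc]
    exact c.2
  · intro hg
    obtain ⟨x, hx, hx'⟩ := h.lift ⟨g, hg⟩
    exact ⟨x, (h.mem x).2 ⟨⟨g, hg⟩, hx, hx'⟩, hx⟩

theorem Cover.inf_ker (h : Cover ℓ C L ρ p α K) : K ⊓ p.ker = ⊥ := by
  rw [eq_bot_iff]
  rintro x ⟨hx, hx'⟩
  obtain ⟨c, hc, hc'⟩ := (h.mem x).1 hx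
  have h1 : p x = 1 := hx'
  have h2 : c = 1 := by
    apply Subtype.ext
    rw [← hc, h1]
    rfl
  rw [h2, map_one] at hc'
  exact Subgroup.mem_bot.2 (h.faithful x h1 hc')

theorem Cover.cyclic (h : Cover ℓ C L ρ p α K) : IsCyclic p.ker := by
  have hn := h.irr.1
  have hval : ∀ x : p.ker, α x = Matrix.scalar (Fin n) (α x ⟨0, hn⟩ ⟨0, hn⟩) := by
    intro x
    obtain ⟨z, hz⟩ := h.scalar x x.2
    have h1 : α x ⟨0, hn⟩ ⟨0, hn⟩ = z := by rw [hz]; simp
    rw [h1, hz]
  let f : p.ker →* F :=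
    { toFun := fun x => α x ⟨0, hn⟩ ⟨0, hn⟩
      map_one' := by
        show α ((1 : p.ker) : E) ⟨0, hn⟩ ⟨0, hn⟩ = 1
        have : ((1 : p.ker) : E) = 1 := rfl
        rw [this, map_one]
        simp
      map_mul' := by
        intro x y
        show α ((x * y : p.ker) : E) ⟨0, hn⟩ ⟨0, hn⟩ =
          α x ⟨0, hn⟩ ⟨0, hn⟩ * α y ⟨0, hn⟩ ⟨0, hn⟩
        have e : ((x * y : p.ker) : E) = x * y := rfl
        rw [e, map_mul, hval x, hval y]
        simp }
  have hf : Function.Injective f := by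
    rw [injective_iff_map_eq_one]
    intro x hx
    have h1 : α x ⟨0, hn⟩ ⟨0, hn⟩ = 1 := hx
    apply Subtype.ext
    apply h.faithful x x.2
    rw [hval x, h1, map_one]
  exact isCyclic_of_injective_ringHom f hf

end cover

section s1

variable {ℓ : ℕ} [Fact ℓ.Prime] {F : Type} [Field F] {G : Type} [Group G]
  [Finite G]

/-- the centraliser of `N` stabilises the chains of `N` -/
theorem cent_le_stab {N : Subgroup G} {d : Finset (Subgroup G)}
    (hd : d ∈ chainsOn (psubIn ℓ N) ⊥) : Subgroup.centralizer (N : Set G) ≤ stab d := by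
  rw [mem_chainsOn] at hd
  intro c hc
  rw [H94.mem_stab']
  intro D hD
  have hDN : D ≤ N := (mem_psubIn.1 (hd.1 hD)).1
  rw [Subgroup.mem_normalizer_iff]
  intro x
  have hcx : ∀ y ∈ N, c * y * c⁻¹ = y := by
    intro y hy
    rw [← Subgroup.mem_centralizer_iff.1 hc y hy]
    group
  constructor
  · intro hx
    rw [hcx x (hDN hx)]
    exact hx
  · intro hx
    have h3 := hcx _ (hDN hx)
    have h5 : c⁻¹ * (c * (c * x * c⁻¹) * c⁻¹) * c = c⁻¹ * (c * x * c⁻¹) * c := by rw [h3]
    have e1 : c⁻¹ * (c * (c * x * c⁻¹) * c⁻¹) * c = c * x * c⁻¹ := by group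
    have e2 : c⁻¹ * (c * x * c⁻¹) * c = x := by group
    rw [e1, e2] at h5
    rw [h5] at hx
    exact hx

/-- The reduction to the nearly simple group for one `θ`. -/
theorem s1_theta (hchf : ChfStmt) (hpow : PowStmt) (hpse : PseStmt) (hstr : StrStmt)
    (hlqu : LquStmt) (hlma : LmaStmt) (hF : GoodF ℓ F)
    {N : Subgroup G} (hN : N.Normal) (hO : opCore ℓ N = ⊥)
    (hS : NASimple (N ⧸ (Subgroup.center G).subgroupOf N)) (hnil : NilOut N)
    (hY : Ylt ℓ F (mu N))
    (hyp : ∀ (D : Type) [Group D] [Finite D], opCore ℓ D = ⊥ →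
      NearlySimpleL ℓ D (N ⧸ (Subgroup.center G).subgroupOf N) →
      Involves G (D ⧸ Subgroup.center D) → ∀ f : D → F, IsIdem f →
      (∀ z ∈ Subgroup.center D, z ≠ 1 → ∃ c : F, c ≠ 1 ∧ ∀ x, f (z * x) = c * f x) →
      Pos ℓ f ⊤ → YY ℓ ⊤ f = 0)
    (hgood : ∀ (E : Type) [Group E] [Finite E] (p : E →* G) (K : Subgroup E) [K.Normal],
      (∀ x, p x = 1 → x ∈ Subgroup.center E) →
      GoodP ℓ F ((N.comap p).map (QuotientGroup.mk' K)))
    {e : G → F} (he : IsIdem e) (hPos : Pos ℓ e N) (hC : (Subgroup.centralizer (N : Set G)).Normal)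
    {n : ℕ} {ρ : Subgroup.centralizer (N : Set G) →* Matrix (Fin n) (Fin n) F} {E : Type}
    [Group E] [Finite E] {p : E →* G} {α : E →* Matrix (Fin n) (Fin n) F} {K : Subgroup E}
    [K.Normal] (hcov : Cover ℓ (Subgroup.centralizer (N : Set G)) (stC hC (tr ρ)) ρ p α K) :
    ∑ d ∈ chainsOn (psubIn ℓ N) ⊥, (-1) ^ (d.card + 1) *
      ((Nat.card (stab d ⊓ stC hC (tr ρ) : Subgroup G) : ℤ) *
        ((LT (stab d ⊓ stC hC (tr ρ)) (tr ρ) e).ncard : ℤ)) = 0 := by
  classical
  have hF' := hF.char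
  obtain ⟨s, hs1, hs2, hs3, hs4⟩ := hlma ℓ F hF G E _ hC n ρ p α K hcov e he
  -- the irreducible representations of `D`
  have hkey : ∀ (m : ℕ) (κ : E ⧸ K →* Matrix (Fin m) (Fin m) F) (w : F), IsIrr κ →
      ev κ s = Matrix.scalar (Fin m) w → w ≠ 0 → w = 1 ∧
      ∃ (k : ℕ) (σ : G →* Matrix (Fin k) (Fin k) F) (P : Matrix (Fin (n * m)) (Fin k) F)
        (Q : Matrix (Fin k) (Fin (n * m)) F), IsIrr σ ∧ ev σ e = 1 ∧ P * Q = 1 ∧
        ∀ x : E, Q * P * σ (p x) = σ (p x) * (Q * P) ∧ P * σ (p x) * Q = kr (α x) (κ x) := by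
    intro m κ w hκ hw hw0
    obtain ⟨σ', h1, h2, h3, h4⟩ := hs4 m κ w hκ hw hw0
    obtain ⟨k, σ, P, Q, k1, k2, k3, k4, k5⟩ := clr ℓ F hF G _ hC n (n * m) ρ σ' hcov.irr h1 h2
    obtain ⟨w', l1, -, l3⟩ := H20.eig F G k σ k1 e he.1
    have hnm : 0 < n * m := Nat.mul_pos hcov.irr.1 hκ.1
    have h5 : w = w' := scalar_inj hnm (h4.symm.trans (k5 e w' he.1 l1))
    have h6 : w = 1 := by
      rcases l3 he with h | h
      · exact absurd (h5.trans h) hw0
      · exact h5.trans h
    refine ⟨h6, k, σ, P, Q, k1, ?_, k2, ?_⟩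
    · rw [l1, ← h5, h6, map_one]
    · intro x
      have hx : p x ∈ stC hC (tr ρ) := by
        rw [← hcov.range]
        exact ⟨x, rfl⟩
      refine ⟨k4 ⟨p x, hx⟩, ?_⟩
      rw [← h3 x hx]
      exact k3 ⟨p x, hx⟩
  obtain ⟨f, hf1, hf2, hf3, hf4⟩ := hpow ℓ F hF (E ⧸ K) s hs1 (by
    intro m κ w hκ hw
    by_cases h0 : w = 0
    · exact Or.inl h0
    · exact Or.inr (hkey m κ w hκ hw h0).1)
  -- the structure of `D`
  have hNC : ∀ x ∈ N, ∀ c ∈ Subgroup.centralizer (N : Set G), x * c = c * x :=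
    fun x hx c hc => Subgroup.mem_centralizer_iff.1 hc x hx
  have hNL : N ≤ stC hC (tr ρ) := by
    intro g hg c
    congr 1
    apply Subtype.ext
    show g * (c : G) * g⁻¹ = c
    rw [hNC g hg c c.2]
    group
  have hNr : N ≤ p.range := by rw [hcov.range]; exact hNL
  obtain ⟨t1, t2, t3, t5, t4, t6, t7, t8, t9, t10⟩ := hstr ℓ G E N hN hO hS hnil p K hNr
    (by rw [hcov.range]; exact hcov.le) hcov.central hcov.prime hcov.map_K hcov.inf_ker
  have hmapN : (N.comap p).map p = N := by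
    rw [Subgroup.map_comap_eq]
    exact inf_eq_right.2 hNr
  have hCN : ¬ ℓ ∣ Nat.card (Subgroup.centralizer (N : Set G) ⊓ N : Subgroup G) := by
    intro h
    apply t2
    have h1 : (K ⊓ N.comap p).map p = Subgroup.centralizer (N : Set G) ⊓ N := by
      ext g
      constructor
      · rintro ⟨x, ⟨hx, hx'⟩, rfl⟩
        refine ⟨?_, hx'⟩
        rw [← hcov.map_K]
        exact ⟨x, hx, rfl⟩
      · rintro ⟨hg, hg'⟩
        have h2 : g ∈ K.map p := by rw [hcov.map_K]; exact hg
        obtain ⟨x, hx, rfl⟩ := h2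
        exact ⟨x, ⟨hx, hg'⟩, rfl⟩
    rw [← h1] at h
    exact h.trans (Subgroup.card_map_dvd _ p)
  -- positivity
  have hPosf : Pos ℓ f ((N.comap p).map (QuotientGroup.mk' K)) := by
    refine hpse ℓ F hF G E _ _ n ρ p α K hC hcov N hN hNL hNC hCN e he hPos f hf1 ?_
    intro m κ hκ h0
    obtain ⟨w, hw, -, -⟩ := H20.eig F (E ⧸ K) m κ hκ s hs1
    have hw0 : w ≠ 0 := by
      rintro rfl
      apply h0
      rw [hf2 m κ hκ, hw, map_zero]
    exact (hkey m κ w hκ hw hw0).2
  -- faithfulness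
  have hfaith : ∀ z ∈ Subgroup.center (E ⧸ K), z ≠ 1 →
      ∃ c : F, c ≠ 1 ∧ ∀ x, f (z * x) = c * f x := by
    intro z hz hz1
    rw [t4] at hz
    obtain ⟨y, hy, rfl⟩ := hz
    have hy1 : p y = 1 := hy
    obtain ⟨c, hc⟩ := hcov.scalar y hy1
    refine ⟨c, ?_, hf4 _ c ?_⟩
    · rintro rfl
      apply hz1
      have h1 : y = 1 := hcov.faithful y hy1 (by rw [hc, map_one])
      rw [h1, map_one]
    · intro x
      obtain ⟨x, rfl⟩ := QuotientGroup.mk'_surjective K x
      have h1 := hs2 x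
      have h2 := hs2 (y * x)
      have hK := Fintype.ofFinite K
      rw [finsum_eq_sum_of_fintype] at h1 h2
      have h3 : ∀ k : K, ((Nat.card p.ker : F)⁻¹ * e (p (y * x * k))) • α (y * x * k) =
          c • (((Nat.card p.ker : F)⁻¹ * e (p (x * k))) • α (x * k)) := by
        intro k
        rw [mul_assoc y, map_mul p, hy1, one_mul, map_mul α, hc, Matrix.scalar_apply,
          ← Matrix.smul_eq_diagonal_mul, smul_comm]
      rw [Finset.sum_congr rfl (fun k _ => h3 k), ← Finset.smul_sum, h1] at h2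
      apply scalar_inj hcov.irr.1
      have h4 : Matrix.scalar (Fin n) (c * s (QuotientGroup.mk' K x)) =
          c • Matrix.scalar (Fin n) (s (QuotientGroup.mk' K x)) := by
        rw [Matrix.scalar_apply, Matrix.scalar_apply, ← Matrix.smul_one_eq_diagonal,
          ← Matrix.smul_one_eq_diagonal, smul_smul]
      rw [h4]
      exact h2.symm
  have hfin : YY ℓ ((N.comap p).map (QuotientGroup.mk' K)) f = 0 := by
    refine hlqu ℓ F hF (N ⧸ (Subgroup.center G).subgroupOf N) hS (E ⧸ K) _ t6 t3 t5 t7 t8 t9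
      (t10.trans (Subgroup.index_eq_card _)) (hgood E p K hcov.central) ?_ ?_ f hf1 hfaith hPosf
    · rw [t10]
      exact hY
    · intro D₀ _ _ i hi h1 h2
      refine hyp D₀ h1 h2 ?_
      obtain ⟨T, hT⟩ := h2.nearlySimple.socle hS
      refine hT.involves_central p hcov.central ?_
      exact Involves.of_surjective (QuotientGroup.mk' K) (QuotientGroup.mk'_surjective K)
        (Involves.of_injective i hi (Involves.of_surjective (QuotientGroup.mk' _)
          (QuotientGroup.mk'_surjective _) (Involves.refl _)))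
  -- the chains
  have hM : (N.comap p).Normal := hN.comap p
  have hCst : ∀ d ∈ chainsOn (psubIn ℓ N) ⊥, Subgroup.centralizer (N : Set G) ≤ stab d :=
    fun d hd => cent_le_stab hd
  have hkerp : ∀ X : Subgroup G, p.ker ≤ X.comap p := by
    intro X x hx
    have h1 : p x = 1 := hx
    rw [Subgroup.mem_comap, h1]
    exact X.one_mem
  have hcount : ∀ X : Subgroup G, Subgroup.centralizer (N : Set G) ≤ X →
      Nat.card p.ker * Nat.card (X ⊓ stC hC (tr ρ) : Subgroup G) =
        Nat.card K * Nat.card ((X.comap p).map (QuotientGroup.mk' K)) := by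
    intro X hX
    have h1 := card_ker_mul p (X.comap p) (hkerp X)
    have h2 := card_ker_mul (QuotientGroup.mk' K) (X.comap p) (by
      rw [QuotientGroup.ker_mk']
      intro x hx
      obtain ⟨c, hc, -⟩ := (hcov.mem x).1 hx
      rw [Subgroup.mem_comap, hc]
      exact hX c.2)
    rw [Subgroup.map_comap_eq, hcov.range] at h1
    rw [QuotientGroup.ker_mk'] at h2
    rw [h2, ← h1, inf_comm]
  have hcl : Nat.card p.ker ≠ 0 := Nat.card_pos.ne'
  have hcl' : (Nat.card p.ker : ℤ) ≠ 0 := by exact_mod_cast hcl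
  apply (mul_eq_zero.1 ?_).resolve_left hcl'
  rw [Finset.mul_sum]
  have hw := hchf ℓ E G p (N.comap p) hM (fun k hk m _ => by
      have := Subgroup.mem_center_iff.1 (hcov.central k hk) m
      exact this.symm) (fun h => hcov.prime (h.trans (Subgroup.card_dvd_of_le inf_le_left)))
    (fun Y => (Nat.card (Y.map (QuotientGroup.mk' K)) : ℤ) *
      (lnum (Y.map (QuotientGroup.mk' K)) s : ℤ))
  have hw' := hchf ℓ E (E ⧸ K) (QuotientGroup.mk' K) (N.comap p) hM (fun k hk m hm => by
      apply t1 k _ m hm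
      rw [← QuotientGroup.ker_mk' K]
      exact hk) (by rw [QuotientGroup.ker_mk']; exact t2)
    (fun Y => (Nat.card (Y.map (QuotientGroup.mk' K)) : ℤ) *
      (lnum (Y.map (QuotientGroup.mk' K)) s : ℤ))
  rw [hmapN] at hw
  have hmc : ∀ Y : Subgroup (E ⧸ K), (Y.comap (QuotientGroup.mk' K)).map (QuotientGroup.mk' K) =
      Y := by
    intro Y
    rw [Subgroup.map_comap_eq, MonoidHom.range_eq_top.2 (QuotientGroup.mk'_surjective K), top_inf_eq]
  simp only [hmc] at hw'
  have hYY : YY ℓ ((N.comap p).map (QuotientGroup.mk' K)) s = 0 := by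
    rw [← hf3 _ t6, hfin]
  rw [hw'] at hw
  change YY ℓ ((N.comap p).map (QuotientGroup.mk' K)) s = _ at hw
  rw [hYY] at hw
  have hfinal : ∀ d ∈ chainsOn (psubIn ℓ N) ⊥, (Nat.card p.ker : ℤ) * ((-1) ^ (d.card + 1) *
      ((Nat.card (stab d ⊓ stC hC (tr ρ) : Subgroup G) : ℤ) *
        ((LT (stab d ⊓ stC hC (tr ρ)) (tr ρ) e).ncard : ℤ))) = (Nat.card K : ℤ) *
      ((-1) ^ (d.card + 1) * ((Nat.card (((stab d).comap p).map (QuotientGroup.mk' K)) : ℤ) *
      (lnum (((stab d).comap p).map (QuotientGroup.mk' K)) s : ℤ))) := by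
    intro d hd
    have h1 := hcount (stab d) (hCst d hd)
    rw [hs3 (stab d) (hCst d hd)]
    have h2 : (Nat.card p.ker : ℤ) * (Nat.card (stab d ⊓ stC hC (tr ρ) : Subgroup G) : ℤ) =
        (Nat.card K : ℤ) * (Nat.card (((stab d).comap p).map (QuotientGroup.mk' K)) : ℤ) := by
      exact_mod_cast h1
    linear_combination ((-1) ^ (d.card + 1) *
      (lnum (((stab d).comap p).map (QuotientGroup.mk' K)) s : ℤ)) * h2
  rw [Finset.sum_congr rfl hfinal, ← Finset.mul_sum, ← hw, mul_zero]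

/-- S1, the case of a simple chief factor, with the hypotheses on nearly simple groups and on the
induction in a general form. -/
theorem s1_core (hcvr : CvrStmt) (hchf : ChfStmt) (hpow : PowStmt) (hpse : PseStmt)
    (hstr : StrStmt) (hlqu : LquStmt) (hlma : LmaStmt) (hF : GoodF ℓ F)
    {N : Subgroup G} (hN : N.Normal) (hO : opCore ℓ N = ⊥)
    (hS : NASimple (N ⧸ (Subgroup.center G).subgroupOf N)) (hnil : NilOut N)
    (hY : Ylt ℓ F (mu N))
    (hyp : ∀ (D : Type) [Group D] [Finite D], opCore ℓ D = ⊥ →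
      NearlySimpleL ℓ D (N ⧸ (Subgroup.center G).subgroupOf N) →
      Involves G (D ⧸ Subgroup.center D) → ∀ f : D → F, IsIdem f →
      (∀ z ∈ Subgroup.center D, z ≠ 1 → ∃ c : F, c ≠ 1 ∧ ∀ x, f (z * x) = c * f x) →
      Pos ℓ f ⊤ → YY ℓ ⊤ f = 0)
    (hgood : ∀ (E : Type) [Group E] [Finite E] (p : E →* G) (K : Subgroup E) [K.Normal],
      (∀ x, p x = 1 → x ∈ Subgroup.center E) →
      GoodP ℓ F ((N.comap p).map (QuotientGroup.mk' K)))
    {e : G → F} (he : IsIdem e) (hPos : Pos ℓ e N) : YY ℓ N e = 0 := by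
  classical
  have hC : (Subgroup.centralizer (N : Set G)).Normal := inferInstance
  have hfin : (IBr F (Subgroup.centralizer (N : Set G))).Finite := (H20.ibf ℓ F hF _).1
  have h1 : ∀ d ∈ chainsOn (psubIn ℓ N) ⊥, (-1 : ℤ) ^ (d.card + 1) *
      ((Nat.card (stab d) : ℤ) * (lnum (stab d) e : ℤ)) = ∑ θ ∈ hfin.toFinset,
        (-1) ^ (d.card + 1) * ((Nat.card (stab d ⊓ stC hC θ : Subgroup G) : ℤ) *
          ((LT (stab d ⊓ stC hC θ) θ e).ncard : ℤ)) := by
    intro d hd
    rw [cls ℓ F hF G _ hC (stab d) (cent_le_stab hd) e he.1,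
      finsum_mem_eq_finite_toFinset_sum _ hfin, Finset.mul_sum]
  rw [YY, Finset.sum_congr rfl h1, Finset.sum_comm]
  apply Finset.sum_eq_zero
  intro θ hθ
  obtain ⟨n, ρ, hρ, rfl⟩ := (Set.Finite.mem_toFinset hfin).1 hθ
  obtain ⟨E, _, _, p, α, K, hK, hcov⟩ := hcvr ℓ F hF G _ hC n ρ hρ
  exact s1_theta hchf hpow hpse hstr hlqu hlma hF hN hO hS hnil hY hyp hgood he hPos hC hcov

end s1

end Pool.Agent.PP.H67
end
end -- Pool.Agent.Helper67_PP.Asm

section -- Pool.Agent.Helper94_PP.Pse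

/-!
# Squad PP, module PSE: positivity of the idempotent of the group of Clifford theory
-/

open scoped BigOperators

set_option linter.unusedSectionVars false

noncomputable section

namespace Pool.Agent.PP.H94

open Pool.Agent.Helper51_AWC Pool.Agent.Helper79_WRA Pool.Agent.PP

variable {F : Type} [Field F] {H : Type} [Group H]

/-- an element of the group ring which is nilpotent in all irreducible representations is
nilpotent -/
theorem nil_of_irr [Finite H] [IsAlgClosed F] {x : MonoidAlgebra F H}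
    (h : ∀ (n : ℕ) (ρ : H →* Matrix (Fin n) (Fin n) F), IsIrr ρ → IsNilpotent (repA ρ x)) :
    IsNilpotent x := by
  obtain ⟨n, d, π, hd, hπ, hJ, hall⟩ := H20.sim_struct (F := F) (MonoidAlgebra F H)
  have h1 : ∀ i, IsNilpotent (π x i) := by
    intro i
    let Φ : MonoidAlgebra F H →ₐ[F] Matrix (Fin (d i)) (Fin (d i)) F :=
      (Pi.evalAlgHom F _ i).comp π
    have hΦ : Function.Surjective Φ := (Function.surjective_eval i).comp hπ
    have h1 := h (d i) (H20.ofAlg Φ) (H20.ofAlg_irr (hd i) Φ hΦ)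
    have e : repA (H20.ofAlg Φ) = Φ := by
      change MonoidAlgebra.lift F _ H ((MonoidAlgebra.lift F _ H).symm Φ) = Φ
      exact Equiv.apply_symm_apply _ _
    rw [e] at h1
    exact h1
  choose k hk using h1
  have h2 : π x ^ (∑ i, k i) = 0 := by
    funext i
    rw [Pi.pow_apply, Pi.zero_apply]
    exact pow_eq_zero_of_le (Finset.single_le_sum (fun _ _ => Nat.zero_le _) (Finset.mem_univ i))
      (hk i)
  have h3 : x ^ (∑ i, k i) ∈ Ring.jacobson (MonoidAlgebra F H) := by
    rw [← hJ, map_pow, h2]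
  have hart : IsArtinianRing (MonoidAlgebra F H) := IsArtinianRing.of_finite F _
  obtain ⟨m, hm⟩ : IsNilpotent (Ring.jacobson (MonoidAlgebra F H)) :=
    IsSemiprimaryRing.isNilpotent
  refine ⟨(∑ i, k i) * (m + 1), ?_⟩
  have h4 : ∀ j : ℕ, (x ^ (∑ i, k i)) ^ (j + 1) ∈
      Ring.jacobson (MonoidAlgebra F H) ^ (j + 1) := by
    intro j
    induction j with
    | zero => rw [zero_add, pow_one, Submodule.pow_one]; exact h3
    | succ j ih =>
      rw [pow_succ, Submodule.pow_succ (n := j + 1)]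
      exact Ideal.mul_mem_mul ih h3
  rw [pow_mul]
  have h7 := Ideal.pow_le_pow_right (Nat.le_succ m) (h4 m)
  rw [hm] at h7
  exact h7

open Classical in
/-- sums along a surjective homomorphism -/
theorem sum_hom {A B V : Type} [Group A] [Group B] [Fintype A] [Fintype B] [AddCommGroup V]
    (g : A →* B) (hg : Function.Surjective g) (φ : B → V) :
    ∑ a, φ (g a) = Nat.card g.ker • ∑ b, φ b := by
  have h1 : ∑ a : A, φ (g a) =
      ∑ b : B, ∑ a ∈ Finset.univ.filter (fun a : A => g a = b), φ (g a) :=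
    (Finset.sum_fiberwise _ _ _).symm
  rw [h1, Finset.smul_sum]
  refine Finset.sum_congr rfl fun b _ => ?_
  obtain ⟨a₀, ha₀⟩ := hg b
  have h2 : ∑ a ∈ Finset.univ.filter (fun a : A => g a = b), φ (g a) =
      ∑ a ∈ Finset.univ.filter (fun a : A => g a = b), φ b := by
    refine Finset.sum_congr rfl fun a ha => ?_
    rw [(Finset.mem_filter.1 ha).2]
  rw [h2, Finset.sum_const]
  congr 1
  rw [Nat.card_eq_fintype_card, ← Finset.card_univ]
  symm
  refine Finset.card_bij (fun c _ => a₀ * (c : A)) ?_ ?_ ?_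
  · intro c _
    rw [Finset.mem_filter]
    refine ⟨Finset.mem_univ _, ?_⟩
    rw [map_mul, (MonoidHom.mem_ker).1 c.2, mul_one, ha₀]
  · intro c _ c' _ h
    exact Subtype.ext (mul_left_cancel h)
  · intro a ha
    have ha' := (Finset.mem_filter.1 ha).2
    refine ⟨⟨a₀⁻¹ * a, ?_⟩, Finset.mem_univ _, by rw [mul_inv_cancel_left]⟩
    rw [MonoidHom.mem_ker, map_mul, map_inv, ha₀, ha', inv_mul_cancel]

open Classical in
/-- the sum over the conjugates under a subgroup -/
theorem sum_conj' {V : Type} [AddCommGroup V] [Fintype H] (Q : Subgroup H) [Fintype Q] (x : H)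
    (f : H → V) :
    ∑ g : Q, f (g * x * (g : H)⁻¹) =
      Nat.card (Subgroup.centralizer ({x} : Set H) ⊓ Q : Subgroup H) •
      ∑ y : H, if ∃ g ∈ Q, y = g * x * g⁻¹ then f y else 0 := by
  have h1 : ∑ g : Q, f (g * x * (g : H)⁻¹) =
      ∑ y : H, ∑ g ∈ Finset.univ.filter (fun g : Q => g * x * (g : H)⁻¹ = y),
        f (g * x * (g : H)⁻¹) :=
    (Finset.sum_fiberwise _ _ _).symm
  rw [h1, Finset.smul_sum]
  refine Finset.sum_congr rfl fun y _ => ?_
  by_cases hy : ∃ g ∈ Q, y = g * x * g⁻¹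
  · rw [if_pos hy]
    obtain ⟨g₀, hg₀Q, hg₀⟩ := hy
    have h2 : ∑ g ∈ Finset.univ.filter (fun g : Q => g * x * (g : H)⁻¹ = y),
        f (g * x * (g : H)⁻¹) =
        ∑ g ∈ Finset.univ.filter (fun g : Q => g * x * (g : H)⁻¹ = y), f y := by
      refine Finset.sum_congr rfl fun g hg => ?_
      rw [(Finset.mem_filter.1 hg).2]
    rw [h2, Finset.sum_const]
    congr 1
    rw [Nat.card_eq_fintype_card, ← Finset.card_univ]
    symm
    refine Finset.card_bij (fun c _ => ⟨g₀ * (c : H), Q.mul_mem hg₀Q c.2.2⟩) ?_ ?_ ?_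
    · intro c _
      rw [Finset.mem_filter]
      refine ⟨Finset.mem_univ _, ?_⟩
      have hc := Subgroup.mem_centralizer_singleton_iff.1 c.2.1
      rw [hg₀]
      have : g₀ * (c : H) * x * (g₀ * (c : H))⁻¹ = g₀ * ((c : H) * x) * (c : H)⁻¹ * g₀⁻¹ := by
        group
      change g₀ * (c : H) * x * (g₀ * (c : H))⁻¹ = _
      rw [this, hc]
      group
    · intro c _ c' _ h
      exact Subtype.ext (mul_left_cancel (congrArg Subtype.val h))
    · intro g hg
      have hg' := (Finset.mem_filter.1 hg).2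
      refine ⟨⟨g₀⁻¹ * g, ?_, Q.mul_mem (Q.inv_mem hg₀Q) g.2⟩, Finset.mem_univ _,
        Subtype.ext (mul_inv_cancel_left g₀ (g : H))⟩
      apply Subgroup.mem_centralizer_singleton_iff.2
      rw [hg₀] at hg'
      have h3 : (g : H) * x = g₀ * x * g₀⁻¹ * g := by
        rw [← hg', inv_mul_cancel_right]
      rw [mul_assoc, h3]
      group
  · rw [if_neg hy, smul_zero]
    refine Finset.sum_eq_zero fun g hg => ?_
    exact absurd ⟨g, g.2, (Finset.mem_filter.1 hg).2.symm⟩ hy

/-- the value of a class sum -/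
theorem ev_clsum' [Fintype H] {n : ℕ} (ρ : H →* Matrix (Fin n) (Fin n) F) (Q : Subgroup H)
    [Fintype Q] (x : H) :
    ∑ g : Q, ρ (g * x * (g : H)⁻¹) =
      (Nat.card (Subgroup.centralizer ({x} : Set H) ⊓ Q : Subgroup H) : F) •
        ev ρ (clsum F Q x) := by
  classical
  have h1 := sum_conj' Q x (fun y => ρ y)
  have h2 : ∑ g : Q, ρ (g * x * (g : H)⁻¹) =
      Nat.card (Subgroup.centralizer ({x} : Set H) ⊓ Q : Subgroup H) •
      ∑ y : H, if ∃ g ∈ Q, y = g * x * g⁻¹ then ρ y else 0 := by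
    rw [← h1]
  rw [h2, ← Nat.cast_smul_eq_nsmul F, ev, finsum_eq_sum_of_fintype]
  congr 1
  refine Finset.sum_congr rfl fun y _ => ?_
  unfold clsum
  by_cases hy : ∃ g ∈ Q, y = g * x * g⁻¹
  · rw [if_pos hy, if_pos hy, one_smul]
  · rw [if_neg hy, if_neg hy, zero_smul]

theorem eq_zero_of_pow_zero {w : F} {j : ℕ} (h : w ^ j = 0) : w = 0 := by
  by_contra hw
  exact pow_ne_zero j hw h

/-- PSE -/
theorem pse : H67.PseStmt := by
  classical
  intro ℓ F _ hF G E _ _ _ _ C L n ρ p α K hKn hC hcov N hN hNL hcomm hprime e he hpos f hf hex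
  have := hF.closed
  have := hF.char
  have hfG := Fintype.ofFinite G
  have hfE := Fintype.ofFinite E
  rintro xh hxh hxc
  obtain ⟨m, hm, rfl⟩ := hxh
  have hmN : p m ∈ N := hm
  set M := N.comap p with hM
  set π := QuotientGroup.mk' K with hπ
  have hfD := Fintype.ofFinite (E ⧸ K)
  have hfM := Fintype.ofFinite M
  have hfN := Fintype.ofFinite N
  have hfMh := Fintype.ofFinite (M.map π)
  set κs := clsum F (M.map π) (π m) with hκs
  -- `α` is a scalar on `M`
  have hsc : ∀ x ∈ M, ∃ w : F, α x = Matrix.scalar (Fin n) w := by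
    intro x hx
    apply schur hcov.irr
    intro c
    refine hcov.impl x c c ?_
    have := hcomm (p x) hx c c.2
    rw [this, mul_inv_cancel_right]
  obtain ⟨w, hw⟩ := hsc m hm
  have hconj : ∀ y : M, α (y * m * (y : E)⁻¹) = Matrix.scalar (Fin n) w := by
    intro y
    obtain ⟨v, hv⟩ := hsc y y.2
    rw [map_mul, map_mul, hv, hw]
    have h1 : Matrix.scalar (Fin n) v * α (y : E)⁻¹ = 1 := by
      rw [← hv, ← map_mul, mul_inv_cancel, map_one]
    rw [← map_mul, mul_comm v w, map_mul, mul_assoc, h1, mul_one]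
  -- the representations
  have key : ∀ (d : ℕ) (κ : E ⧸ K →* Matrix (Fin d) (Fin d) F), IsIrr κ →
      IsNilpotent (repA κ (ma κs * ma f)) := by
    intro d κ hκ
    rw [map_mul, ← ev_eq, ← ev_eq]
    by_cases hz : ev κ f = 0
    · rw [hz, mul_zero]
      exact IsNilpotent.zero
    obtain ⟨v, hv, -, hv01⟩ := H20.eig F (E ⧸ K) d κ hκ f hf.1
    have hv1 : v = 1 := by
      rcases hv01 hf with h | h
      · subst h
        exact absurd (by rw [hv, map_zero]) hz
      · exact h
    subst hv1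
    rw [hv, map_one, mul_one]
    obtain ⟨k, σ, P, Q, hσ, hσe, hPQ, hσκ⟩ := hex d κ hκ hz
    -- the sum over `N`
    set T := ∑ q : N, σ (q * p m * (q : G)⁻¹) with hT
    have hTnil : IsNilpotent T := by
      rw [hT, ev_clsum' σ N (p m)]
      by_cases hl : ℓ ∣ Nat.card (Subgroup.centralizer ({p m} : Set G) ⊓ N : Subgroup G)
      · rw [(CharP.cast_eq_zero_iff F ℓ _).2 hl, zero_smul]
        exact IsNilpotent.zero
      · obtain ⟨j, hj⟩ := hpos (p m) hmN hl
        have h1 := congrArg (ev σ) hj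
        have h2 : ev σ (0 : G → F) = 0 := by rw [ev_eq, ma_zero, map_zero]
        rw [ev_iterate, hσe, mul_one, h2] at h1
        exact IsNilpotent.smul ⟨j, h1⟩ _
    -- the sum over `M`
    let g : M →* N := (p.comp M.subtype).codRestrict N (fun x => x.2)
    have hg : Function.Surjective g := by
      rintro ⟨q, hq⟩
      have h1 : q ∈ p.range := by rw [hcov.range]; exact hNL hq
      obtain ⟨x, hx⟩ := h1
      exact ⟨⟨x, by rw [hM, Subgroup.mem_comap, hx]; exact hq⟩, Subtype.ext hx⟩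
    set S := ∑ y : M, σ (p (y * m * (y : E)⁻¹)) with hS
    have hST : S = Nat.card g.ker • T := by
      rw [hT, ← sum_hom g hg (fun q : N => σ (q * p m * (q : G)⁻¹)), hS]
      refine Finset.sum_congr rfl fun y _ => ?_
      change σ (p (y * m * (y : E)⁻¹)) = σ (p (y : E) * p m * (p (y : E))⁻¹)
      rw [map_mul p, map_mul p, map_inv p]
    have hSnil : IsNilpotent S := by
      rw [hST]
      exact IsNilpotent.smul hTnil _
    have hcommS : Q * P * S = S * (Q * P) := by
      rw [hS, Matrix.mul_sum, Matrix.sum_mul]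
      exact Finset.sum_congr rfl fun y _ => (hσκ _).1
    have hPSQ : ∀ j : ℕ, (P * S * Q) ^ j = P * S ^ j * Q := by
      intro j
      induction j with
      | zero => rw [pow_zero, pow_zero, Matrix.mul_one, hPQ]
      | succ j ih =>
        have hcj : Q * P * S ^ 1 = S ^ 1 * (Q * P) := by rw [pow_one, hcommS]
        calc (P * S * Q) ^ (j + 1) = (P * S ^ j * Q) * (P * S * Q) := by rw [pow_succ, ih]
          _ = P * S ^ j * (Q * P * S) * Q := by simp only [Matrix.mul_assoc]
          _ = P * S ^ j * (S * (Q * P)) * Q := by rw [hcommS]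
          _ = P * (S ^ j * S) * Q * (P * Q) := by simp only [Matrix.mul_assoc]
          _ = P * S ^ (j + 1) * Q := by rw [hPQ, Matrix.mul_one, pow_succ]
    have hPnil : IsNilpotent (P * S * Q) := by
      obtain ⟨j, hj⟩ := hSnil
      exact ⟨j, by rw [hPSQ, hj, Matrix.mul_zero, Matrix.zero_mul]⟩
    -- the sum over the image
    let g' : M →* M.map π := (π.comp M.subtype).codRestrict (M.map π)
      (fun x => Subgroup.mem_map_of_mem π x.2)
    have hg' : Function.Surjective g' := by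
      rintro ⟨q, x, hx, rfl⟩
      exact ⟨⟨x, hx⟩, rfl⟩
    have h3 : P * S * Q = ((w * Nat.card g'.ker) * (Nat.card (Subgroup.centralizer
        ({π m} : Set (E ⧸ K)) ⊓ M.map π : Subgroup (E ⧸ K)) : F)) • kr 1 (ev κ κs) := by
      have e1 : P * S * Q = ∑ y : M, kr (α (y * m * (y : E)⁻¹)) (κ (π (y * m * (y : E)⁻¹))) := by
        rw [hS, Matrix.mul_sum, Matrix.sum_mul]
        exact Finset.sum_congr rfl fun y _ => (hσκ _).2
      have e2 : ∀ y : M, kr (α (y * m * (y : E)⁻¹)) (κ (π (y * m * (y : E)⁻¹))) =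
          w • kr (1 : Matrix (Fin n) (Fin n) F) (κ ((g' y : E ⧸ K) * π m * (g' y : E ⧸ K)⁻¹)) := by
        intro y
        rw [hconj y, ← H74.kr_smul_left]
        have e3 : Matrix.scalar (Fin n) w = w • (1 : Matrix (Fin n) (Fin n) F) := by
          rw [Matrix.scalar_apply, Matrix.smul_one_eq_diagonal]
        rw [e3]
        rfl
      rw [e1]
      simp only [e2]
      rw [← Finset.smul_sum,
        sum_hom g' hg' (fun q : M.map π => kr (1 : Matrix (Fin n) (Fin n) F)
          (κ ((q : E ⧸ K) * π m * (q : E ⧸ K)⁻¹)))]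
      have e4 : ∑ q : M.map π, kr (1 : Matrix (Fin n) (Fin n) F)
          (κ ((q : E ⧸ K) * π m * (q : E ⧸ K)⁻¹)) =
          kr 1 (∑ q : M.map π, κ ((q : E ⧸ K) * π m * (q : E ⧸ K)⁻¹)) := by
        have e5 : ∀ s : Finset (M.map π), ∑ q ∈ s, kr (1 : Matrix (Fin n) (Fin n) F)
            (κ ((q : E ⧸ K) * π m * (q : E ⧸ K)⁻¹)) =
            kr 1 (∑ q ∈ s, κ ((q : E ⧸ K) * π m * (q : E ⧸ K)⁻¹)) := by
          intro s
          induction s using Finset.induction_on with
          | empty =>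
            rw [Finset.sum_empty, Finset.sum_empty]
            have := H74.kr_smul_right (n := n) (0 : F) (1 : Matrix (Fin n) (Fin n) F)
              (0 : Matrix (Fin d) (Fin d) F)
            rw [zero_smul, zero_smul] at this
            exact this.symm
          | insert a s ha ih => rw [Finset.sum_insert ha, Finset.sum_insert ha, ih,
              H74.kr_add_right]
        exact e5 _
      rw [e4, ev_clsum' κ (M.map π) (π m), H74.kr_smul_right, ← Nat.cast_smul_eq_nsmul F,
        smul_smul, smul_smul]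
    have hw0 : w ≠ 0 := by
      rintro rfl
      have h1 : α m * α m⁻¹ = 1 := by rw [← map_mul, mul_inv_cancel, map_one]
      rw [hw, map_zero, zero_mul] at h1
      have : NeZero n := ⟨hcov.irr.1.ne'⟩
      exact zero_ne_one h1
    have hker : (Nat.card g'.ker : F) ≠ 0 := by
      rw [Ne, CharP.cast_eq_zero_iff F ℓ]
      intro hdiv
      apply hprime
      refine hdiv.trans ?_
      -- the kernel embeds into `C ⊓ N`
      let i : g'.ker →* (C ⊓ N : Subgroup G) :=
        ((p.comp M.subtype).comp g'.ker.subtype).codRestrict (C ⊓ N) (by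
          rintro ⟨y, hy⟩
          have h1 : π (y : E) = 1 := congrArg Subtype.val ((MonoidHom.mem_ker).1 hy)
          have h2 : (y : E) ∈ K := (QuotientGroup.eq_one_iff _).1 h1
          obtain ⟨c, hc, -⟩ := (hcov.mem _).1 h2
          refine ⟨?_, y.2⟩
          change p (y : E) ∈ C
          rw [hc]
          exact c.2)
      have hi : Function.Injective i := by
        rw [injective_iff_map_eq_one]
        rintro ⟨y, hy⟩ h
        have h1 : π (y : E) = 1 := congrArg Subtype.val ((MonoidHom.mem_ker).1 hy)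
        have h2 : (y : E) ∈ K := (QuotientGroup.eq_one_iff _).1 h1
        obtain ⟨c, hc, hc'⟩ := (hcov.mem _).1 h2
        have h3 : p (y : E) = 1 := congrArg Subtype.val h
        have h4 : c = 1 := Subtype.ext (by rw [← hc, h3]; rfl)
        rw [h4, map_one] at hc'
        exact Subtype.ext (Subtype.ext (hcov.faithful _ h3 hc'))
      exact Subgroup.card_dvd_of_injective i hi
    have hcent : (Nat.card (Subgroup.centralizer ({π m} : Set (E ⧸ K)) ⊓ M.map π :
        Subgroup (E ⧸ K)) : F) ≠ 0 := by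
      rw [Ne, CharP.cast_eq_zero_iff F ℓ]
      exact hxc
    -- conclusion
    obtain ⟨j, hj⟩ := hPnil
    rw [h3, smul_pow] at hj
    have h4 : ∀ j : ℕ, kr (1 : Matrix (Fin n) (Fin n) F) (ev κ κs) ^ j =
        kr 1 (ev κ κs ^ j) := by
      intro j
      induction j with
      | zero => rw [pow_zero, pow_zero, H74.kr_one]
      | succ j ih => rw [pow_succ, ih, H74.kr_mul, Matrix.mul_one, pow_succ]
    rw [h4] at hj
    rcases smul_eq_zero.1 hj with h | h
    · exact absurd (eq_zero_of_pow_zero h) (mul_ne_zero (mul_ne_zero hw0 hker) hcent)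
    · refine ⟨j, H74.kr_one_inj_right hcov.irr.1 ?_⟩
      rw [h]
      have := H74.kr_smul_right (n := n) (0 : F) (1 : Matrix (Fin n) (Fin n) F)
        (0 : Matrix (Fin d) (Fin d) F)
      rw [zero_smul, zero_smul] at this
      exact this.symm
  obtain ⟨k, hk⟩ := nil_of_irr key
  have hcommf : Commute (ma κs) (ma f) :=
    (Subalgebra.mem_center_iff.1 ((isCl_iff f).1 hf.1) (ma κs))
  refine ⟨k, ?_⟩
  apply ma_injective
  rw [ma_iterate, ma_zero]
  rw [hcommf.mul_pow] at hk
  have h5 := ((isIdem_iff f).1 hf).2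
  have h6 : ma κs ^ k * ma f ^ k * ma f = 0 := by rw [hk, zero_mul]
  rw [mul_assoc, ← pow_succ, h5.pow_succ_eq] at h6
  exact h6

end Pool.Agent.PP.H94
end
end -- Pool.Agent.Helper94_PP.Pse

section -- Pool.Agent.Helper67_PP.S1n

/-!
# SI1: the case of a simple chief factor (`S1nStmt`)
-/

open scoped BigOperators

set_option linter.unusedSectionVars false

noncomputable section

namespace Pool.Agent.PP.H67

open Pool.Agent.Helper51_AWC Pool.Agent.Helper79_WRA Pool.Agent.PP

section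

variable {ℓ : ℕ} [Fact ℓ.Prime] {F : Type} [Field F] {G : Type} [Group G] [Finite G]

/-- if `O_ℓ(N) = 1` then the central elements of `N` of order a power of `ℓ` are trivial -/
theorem not_dvd_central {N : Subgroup G} (hO : opCore ℓ N = ⊥) :
    ¬ ℓ ∣ Nat.card ((Subgroup.center G).subgroupOf N) := by
  have hℓ := (inferInstance : Fact ℓ.Prime)
  intro hdvd
  obtain ⟨x, hx⟩ := exists_prime_orderOf_dvd_card' ℓ hdvd
  have hxc : ((x : N) : G) ∈ Subgroup.center G := x.2
  have hx1 : (x : N) ^ ℓ = 1 := by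
    rw [← hx]
    exact congrArg Subtype.val (pow_orderOf_eq_one x)
  have h1 : Subgroup.zpowers (x : N) ≤ opCore ℓ N := by
    apply le_sSup
    refine ⟨⟨?_⟩, ?_⟩
    · rintro _ ⟨k, rfl⟩ g
      have h2 : g * (x : N) ^ k * g⁻¹ = (x : N) ^ k := by
        have h3 : Commute g (x : N) :=
          Subtype.ext (Subgroup.mem_center_iff.1 hxc g)
        rw [(h3.zpow_right k).eq, mul_inv_cancel_right]
      change g * (x : N) ^ k * g⁻¹ ∈ _
      rw [h2]
      exact ⟨k, rfl⟩
    · rintro ⟨_, k, rfl⟩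
      refine ⟨1, Subtype.ext ?_⟩
      change ((x : N) ^ k) ^ ℓ ^ 1 = 1
      rw [pow_one, ← zpow_natCast, ← zpow_mul, mul_comm, zpow_mul, zpow_natCast, hx1, one_zpow]
  rw [hO] at h1
  have h2 := h1 (Subgroup.mem_zpowers _)
  rw [Subgroup.mem_bot] at h2
  have h3 : x = 1 := Subtype.ext h2
  rw [h3, orderOf_one] at hx
  exact hℓ.out.one_lt.ne hx

/-- positivity over an `ℓ'`-group -/
theorem eq_zero_of_pos {N : Subgroup G} (hN : ¬ ℓ ∣ Nat.card N) {e : G → F} (hPos : Pos ℓ e N) :
    e = 0 := by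
  have hfin := Fintype.ofFinite G
  obtain ⟨n, hn⟩ := hPos 1 N.one_mem (fun h => hN (h.trans (Subgroup.card_dvd_of_le inf_le_right)))
  have h1 : mulF (clsum F N 1) = id := by
    funext a g
    unfold mulF
    rw [finsum_eq_single _ (1 : G)]
    · rw [inv_one, one_mul, id]
      unfold clsum
      rw [if_pos ⟨1, N.one_mem, by simp⟩, one_mul]
    · intro t ht
      unfold clsum
      rw [if_neg, zero_mul]
      rintro ⟨q, _, hq⟩
      apply ht
      rw [hq]
      group
  rw [h1, Function.iterate_id] at hn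
  exact hn

theorem lnum_zero (hF : GoodF ℓ F) (X : Subgroup G) : lnum X (0 : G → F) = 0 := by
  unfold lnum
  rw [Set.ncard_eq_zero (Set.Finite.subset (H20.ibf ℓ F hF X).1 (fun f hf => hf.1))]
  rw [Set.eq_empty_iff_forall_notMem]
  rintro f ⟨hf, hfe⟩
  apply H65.ibr_ne_zero hF hf
  rw [← hfe]
  funext x
  unfold actF
  simp

theorem YY_zero (hF : GoodF ℓ F) (N : Subgroup G) : YY ℓ N (0 : G → F) = 0 := by
  unfold YY
  apply Finset.sum_eq_zero
  intro d _
  rw [lnum_zero hF]
  simp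

end

/-- SI1 -/
theorem s1n (hcvr : CvrStmt) (hpow : PowStmt) (hlma : LmaStmt) (hlqu : LquStmt) : S1nStmt := by
  intro ℓ hℓ F _ hF G _ _ N hN hO hS hnil hG hY e he hPos
  by_cases hdvd : ℓ ∣ Nat.card (N ⧸ (Subgroup.center G).subgroupOf N)
  · refine s1_core hcvr H74.chfStmt hpow H94.pse H63.str hlqu hlma hF hN hO hS hnil hY ?_ ?_ he hPos
    · intro D _ _ h1 h2 h3 f hf hz hp
      have hI : Involves N (N ⧸ (Subgroup.center G).subgroupOf N) :=
        Involves.of_surjective (QuotientGroup.mk' _) (QuotientGroup.mk'_surjective _)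
          (Involves.refl _)
      refine hG _ hS hdvd hI D h1 ?_ h3 f hf hz hp
      first
        | exact h2.nearlySimple
        | exact h2
    · intro E _ _ p K _ hp
      exact hG.cover p hp K
  · have h1 : ¬ ℓ ∣ Nat.card N := by
      rw [Subgroup.card_eq_card_quotient_mul_card_subgroup ((Subgroup.center G).subgroupOf N),
        hℓ.out.dvd_mul, not_or]
      exact ⟨hdvd, not_dvd_central hO⟩
    rw [eq_zero_of_pos h1 hPos]
    exact YY_zero hF N

end Pool.Agent.PP.H67
end
end -- Pool.Agent.Helper67_PP.S1n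

section -- Pool.Agent.Helper18_PP.Twl

/-!
# Squad PP, module STM, first part: twists by linear characters; the converse of the inflation of
the defect condition
-/

open scoped BigOperators

set_option linter.unusedSectionVars false

noncomputable section

namespace Pool.Agent.PP.H18

open Pool.Agent.PP Pool.Agent.Helper51_AWC Pool.Agent.Helper79_WRA

section twist

variable {F G : Type} [Field F] [Group G]

/-- the twist of a function by a linear character -/
def twl (χ : G →* Fˣ) (a : G → F) : G → F := fun x => a x * (χ x : F)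

theorem twl_inv (χ : G →* Fˣ) (a : G → F) : twl χ⁻¹ (twl χ a) = a := by
  funext x
  unfold twl
  rw [MonoidHom.inv_apply, Units.val_inv_eq_inv_val, mul_assoc, mul_inv_cancel₀ (χ x).ne_zero,
    mul_one]

theorem twl_inv' (χ : G →* Fˣ) (a : G → F) : twl χ (twl χ⁻¹ a) = a := by
  funext x
  unfold twl
  rw [MonoidHom.inv_apply, Units.val_inv_eq_inv_val, mul_assoc, inv_mul_cancel₀ (χ x).ne_zero,
    mul_one]

theorem twl_zero (χ : G →* Fˣ) : twl χ (0 : G → F) = 0 := by
  funext x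
  exact zero_mul _

theorem twl_smul (χ : G →* Fˣ) (c : F) (a : G → F) : twl χ (c • a) = c • twl χ a := by
  funext x
  exact mul_assoc _ _ _

theorem chi_conj (χ : G →* Fˣ) (x y : G) : χ (y * x * y⁻¹) = χ x := by
  rw [map_mul, map_mul, map_inv, mul_comm (χ y), mul_inv_cancel_right]

theorem twl_cl (χ : G →* Fˣ) {a : G → F} (ha : IsCl a) : IsCl (twl χ a) := by
  intro x y
  unfold twl
  rw [ha, chi_conj]

variable [Finite G]

theorem twl_mulF (χ : G →* Fˣ) (a b : G → F) :
    mulF (twl χ a) (twl χ b) = twl χ (mulF a b) := by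
  have := Fintype.ofFinite G
  funext x
  unfold twl mulF
  rw [finsum_eq_sum_of_fintype, finsum_eq_sum_of_fintype, Finset.sum_mul]
  refine Finset.sum_congr rfl fun t _ => ?_
  have h : (χ t : F) * (χ (t⁻¹ * x) : F) = (χ x : F) := by
    rw [← Units.val_mul, ← map_mul, mul_inv_cancel_left]
  rw [← h]
  ring

theorem twl_idem (χ : G →* Fˣ) {a : G → F} (ha : IsIdem a) : IsIdem (twl χ a) :=
  ⟨twl_cl χ ha.1, by rw [twl_mulF, ha.2]⟩

theorem twl_actF (χ : G →* Fˣ) (a f : G → F) :
    actF (twl χ a) (twl χ⁻¹ f) = twl χ⁻¹ (actF a f) := by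
  have := Fintype.ofFinite G
  funext x
  unfold twl actF
  rw [finsum_eq_sum_of_fintype, finsum_eq_sum_of_fintype, Finset.sum_mul]
  refine Finset.sum_congr rfl fun t _ => ?_
  have h : (χ t : F) * ((χ⁻¹ (t * x) : Fˣ) : F) = ((χ⁻¹ x : Fˣ) : F) := by
    rw [← Units.val_mul]
    congr 1
    rw [MonoidHom.inv_apply, MonoidHom.inv_apply, map_mul, mul_inv_rev, mul_left_comm,
      mul_inv_cancel, mul_one]
  rw [← h]
  ring

/-- the twist of a representation -/
def twR {n : ℕ} (χ : G →* Fˣ) (ρ : G →* Matrix (Fin n) (Fin n) F) :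
    G →* Matrix (Fin n) (Fin n) F where
  toFun x := (χ x : F) • ρ x
  map_one' := by rw [map_one, map_one, Units.val_one, one_smul]
  map_mul' x y := by
    rw [map_mul, map_mul, Units.val_mul, smul_mul_assoc, Matrix.mul_smul, smul_smul]

theorem twR_irr {n : ℕ} (χ : G →* Fˣ) {ρ : G →* Matrix (Fin n) (Fin n) F} (hρ : IsIrr ρ) :
    IsIrr (twR χ ρ) := by
  refine ⟨hρ.1, ?_⟩
  rw [eq_top_iff, ← hρ.2, Submodule.span_le]
  rintro _ ⟨x, rfl⟩
  have h1 : ρ x = ((χ x)⁻¹ : Fˣ) • (twR χ ρ x) := by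
    change ρ x = (((χ x)⁻¹ : Fˣ) : F) • ((χ x : F) • ρ x)
    rw [smul_smul, Units.val_inv_eq_inv_val, inv_mul_cancel₀ (χ x).ne_zero, one_smul]
  rw [SetLike.mem_coe, h1]
  exact Submodule.smul_mem _ (((χ x)⁻¹ : Fˣ) : F) (Submodule.subset_span ⟨x, rfl⟩)

theorem twl_tr {n : ℕ} (χ : G →* Fˣ) (ρ : G →* Matrix (Fin n) (Fin n) F) :
    tr (twR χ ρ) = twl χ (tr ρ) := by
  funext x
  change ((χ x : F) • ρ x).trace = (ρ x).trace * (χ x : F)
  rw [Matrix.trace_smul, smul_eq_mul, mul_comm]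

theorem twl_IBr (χ : G →* Fˣ) {f : G → F} (hf : f ∈ IBr F G) : twl χ f ∈ IBr F G := by
  obtain ⟨n, ρ, hρ, rfl⟩ := hf
  exact ⟨n, twR χ ρ, twR_irr χ hρ, (twl_tr χ ρ).symm⟩

end twist

section lnum

variable {F G : Type} [Field F] [Group G] [Finite G]

theorem twl_lnum (χ : G →* Fˣ) (X : Subgroup G) (a : G → F) : lnum X (twl χ a) = lnum X a := by
  unfold lnum
  set χ' : X →* Fˣ := χ.comp X.subtype with hχ'
  have h1 : (fun t : X => twl χ a t) = twl χ' (fun t : X => a t) := rfl
  rw [h1]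
  apply Set.ncard_congr (fun f _ => twl χ' f)
  · rintro f ⟨hf1, hf2⟩
    refine ⟨twl_IBr χ' hf1, ?_⟩
    have h2 := twl_actF χ' (fun t : X => a t) (twl χ' f)
    rw [twl_inv, hf2] at h2
    have h3 := congrArg (twl χ') h2
    rw [twl_inv'] at h3
    exact h3.symm
  · intro f g _ _ h
    have := congrArg (twl χ'⁻¹) h
    rwa [twl_inv, twl_inv] at this
  · rintro f ⟨hf1, hf2⟩
    refine ⟨twl χ'⁻¹ f, ⟨twl_IBr χ'⁻¹ hf1, ?_⟩, twl_inv' χ' f⟩
    rw [twl_actF, hf2]

theorem twl_YY {ℓ : ℕ} (χ : G →* Fˣ) (Q : Subgroup G) (a : G → F) :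
    YY ℓ Q (twl χ a) = YY ℓ Q a := by
  unfold YY
  exact Finset.sum_congr rfl fun d _ => by rw [twl_lnum]

theorem twl_clsum (χ : G →* Fˣ) (Q : Subgroup G) (x : G) :
    twl χ (clsum F Q x) = (χ x : F) • clsum F Q x := by
  funext y
  unfold twl clsum
  rw [Pi.smul_apply, smul_eq_mul]
  split_ifs with h
  · obtain ⟨q, _, rfl⟩ := h
    rw [chi_conj, one_mul, mul_one]
  · rw [zero_mul, mul_zero]

theorem smul_mulF' (c : F) (a b : G → F) : mulF (c • a) b = c • mulF a b := by
  have := Fintype.ofFinite G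
  funext x
  unfold mulF
  rw [finsum_eq_sum_of_fintype, Pi.smul_apply, finsum_eq_sum_of_fintype, smul_eq_mul,
    Finset.mul_sum]
  refine Finset.sum_congr rfl fun t _ => ?_
  rw [Pi.smul_apply, smul_eq_mul, mul_assoc]

theorem twl_Pos {ℓ : ℕ} (χ : G →* Fˣ) (Q : Subgroup G) {a : G → F} (h : Pos ℓ a Q) :
    Pos ℓ (twl χ a) Q := by
  intro x hx hdz
  obtain ⟨n, hn⟩ := h x hx hdz
  refine ⟨n, ?_⟩
  have h1 : ∀ b : G → F, mulF (clsum F Q x) (twl χ b) =
      ((χ x)⁻¹ : Fˣ) • twl χ (mulF (clsum F Q x) b) := by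
    intro b
    rw [← twl_mulF, twl_clsum, smul_mulF']
    change _ = (((χ x)⁻¹ : Fˣ) : F) • ((χ x : F) • mulF (clsum F Q x) (twl χ b))
    rw [smul_smul, Units.val_inv_eq_inv_val, inv_mul_cancel₀ (χ x).ne_zero, one_smul]
  have key : ∀ n : ℕ, (mulF (clsum F Q x))^[n] (twl χ a) =
      (((χ x)⁻¹ : Fˣ) : F) ^ n • twl χ ((mulF (clsum F Q x))^[n] a) := by
    intro n
    induction n with
    | zero => rw [Function.iterate_zero, pow_zero, one_smul]; rfl
    | succ n ih =>
      rw [Function.iterate_succ_apply', ih, H74.mulF_smul, h1, Function.iterate_succ_apply',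
        pow_succ, Units.smul_def, smul_smul]
  rw [key, hn, twl_zero, smul_zero]

end lnum

section inflation

variable {F E G : Type} [Field F] [Group E] [Group G] [Finite E] [Finite G] {ℓ : ℕ}
  (hF : GoodF ℓ F) (π : E →* G) (hπ : Function.Surjective π)
  (hk : (Nat.card π.ker).Coprime ℓ)

theorem card_cent (M : Subgroup G) (x : E) :
    Nat.card (Subgroup.centralizer ({x} : Set E) ⊓ M.comap π : Subgroup E) ∣
      Nat.card π.ker * Nat.card (Subgroup.centralizer ({π x} : Set G) ⊓ M : Subgroup G) := by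
  set A : Subgroup E := Subgroup.centralizer ({x} : Set E) ⊓ M.comap π
  have h1 : A ≤ (Subgroup.centralizer ({π x} : Set G) ⊓ M : Subgroup G).comap π := by
    intro y hy
    obtain ⟨h1, h2⟩ := Subgroup.mem_inf.1 hy
    refine Subgroup.mem_inf.2 ⟨?_, h2⟩
    rw [Subgroup.mem_centralizer_singleton_iff] at h1 ⊢
    rw [← map_mul, ← map_mul, h1]
  refine (Subgroup.card_dvd_of_le h1).trans ?_
  have h2 : Nat.card ((Subgroup.centralizer ({π x} : Set G) ⊓ M : Subgroup G).comap π) =
      Nat.card π.ker * Nat.card (((Subgroup.centralizer ({π x} : Set G) ⊓ M : Subgroup G).comap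
        π).map π) := by
    set B := (Subgroup.centralizer ({π x} : Set G) ⊓ M : Subgroup G).comap π with hB
    have h3 : π.ker ≤ B := by
      intro z hz
      have hz' : π z = 1 := hz
      rw [hB, Subgroup.mem_comap, hz']
      exact Subgroup.one_mem _
    have h4 := Subgroup.relIndex_ker (K := B) π
    have h5 : π.ker.relIndex B * Nat.card π.ker = Nat.card B := by
      rw [mul_comm]
      have := Subgroup.card_mul_index (π.ker.subgroupOf B)
      rw [← this, Subgroup.relIndex]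
      congr 1
      exact Nat.card_congr (Subgroup.subgroupOfEquivOfLe h3).symm.toEquiv
    rw [← h5, h4, mul_comm]
  rw [h2]
  exact Nat.mul_dvd_mul_left _ (Subgroup.card_dvd_of_le (Subgroup.map_comap_le _ _))

include hF hπ hk in
/-- the class sums and the inflation, with the factor -/
theorem infl_clsum' (M : Subgroup G) {x : E} (hx : x ∈ M.comap π)
    (h : ¬ ℓ ∣ Nat.card (Subgroup.centralizer ({π x} : Set G) ⊓ M : Subgroup G)) :
    ∃ w : F, w ≠ 0 ∧ ∀ b : G → F, mulF (clsum F (M.comap π) x) (H74.infl π b) =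
      w • H74.infl π (mulF (clsum F M (π x)) b) := by
  have hne := H74.natCast_ne hF hk
  have hkd : ¬ ℓ ∣ Nat.card π.ker := (Nat.Prime.coprime_iff_not_dvd hF.prime).1 hk.symm
  have hE : ¬ ℓ ∣ Nat.card (Subgroup.centralizer ({x} : Set E) ⊓ M.comap π : Subgroup E) := by
    intro hd
    rcases hF.prime.dvd_mul.1 (hd.trans (card_cent π M x)) with h1 | h1
    · exact hkd h1
    · exact h h1
  have hcE : (Nat.card (Subgroup.centralizer ({x} : Set E) ⊓ M.comap π : Subgroup E) : F) ≠ 0 :=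
    H74.natCast_ne hF ((Nat.Prime.coprime_iff_not_dvd hF.prime).2 hE).symm
  have hcG : (Nat.card (Subgroup.centralizer ({π x} : Set G) ⊓ M : Subgroup G) : F) ≠ 0 :=
    H74.natCast_ne hF ((Nat.Prime.coprime_iff_not_dvd hF.prime).2 h).symm
  set cE := Nat.card (Subgroup.centralizer ({x} : Set E) ⊓ M.comap π : Subgroup E)
  set cG := Nat.card (Subgroup.centralizer ({π x} : Set G) ⊓ M : Subgroup G) with hcG'
  refine ⟨(cE : F)⁻¹ * (cG * Nat.card π.ker),
    mul_ne_zero (inv_ne_zero hcE) (mul_ne_zero hcG hne), fun b => ?_⟩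
  funext y
  have h1 := H74.clsum_avg (M.comap π) hx (H74.infl π b) y
  have h2 := H74.clsum_avg M (x := π x) hx b (π y)
  have h3 : ∑ᶠ q : M.comap π, H74.infl π b ((q * x * (q : E)⁻¹)⁻¹ * y) =
      ∑ᶠ q : M, b ((q * π x * (q : G)⁻¹)⁻¹ * π y) := by
    have := Fintype.ofFinite (M.comap π)
    have := Fintype.ofFinite M
    rw [finsum_eq_sum_of_fintype, finsum_eq_sum_of_fintype]
    let p : M.comap π →* M := π.subgroupComap M
    have hp : Function.Surjective p := by
      rintro ⟨g, hg⟩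
      obtain ⟨x, rfl⟩ := hπ g
      exact ⟨⟨x, hg⟩, rfl⟩
    have hcard : Nat.card p.ker = Nat.card π.ker := by
      apply Nat.card_congr
      exact
        { toFun := fun x => ⟨x.1.1, congrArg Subtype.val x.2⟩
          invFun := fun x => ⟨⟨x.1, by
            change π x.1 ∈ M
            rw [show π x.1 = 1 from x.2]
            exact M.one_mem⟩, Subtype.ext x.2⟩
          left_inv := fun x => rfl
          right_inv := fun x => rfl }
    have h4 : ∀ q : M.comap π, H74.infl π b ((q * x * (q : E)⁻¹)⁻¹ * y) =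
        (fun q' : M => (Nat.card π.ker : F)⁻¹ * b ((q' * π x * (q' : G)⁻¹)⁻¹ * π y)) (p q) := by
      intro q
      change (Nat.card π.ker : F)⁻¹ * b (π ((q * x * (q : E)⁻¹)⁻¹ * y)) =
        (Nat.card π.ker : F)⁻¹ * b ((π q * π x * (π q)⁻¹)⁻¹ * π y)
      simp only [map_mul, map_inv]
    rw [Finset.sum_congr rfl (fun q _ => h4 q), H74.sum_comp_hom p hp (fun q' : M =>
      (Nat.card π.ker : F)⁻¹ * b ((q' * π x * (q' : G)⁻¹)⁻¹ * π y)), ← Finset.mul_sum,
      nsmul_eq_mul, hcard, ← mul_assoc, mul_inv_cancel₀ hne, one_mul]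
  rw [h3, ← h2] at h1
  rw [Pi.smul_apply, smul_eq_mul, H74.infl]
  rw [← hcG'] at h1
  have h5 : mulF (clsum F (M.comap π) x) (H74.infl π b) y = (cE : F)⁻¹ * (cG *
      mulF (clsum F M (π x)) b (π y)) := by
    rw [← h1, ← mul_assoc, inv_mul_cancel₀ hcE, one_mul]
  rw [h5]
  calc (cE : F)⁻¹ * (cG * mulF (clsum F M (π x)) b (π y)) =
      (cE : F)⁻¹ * (cG * (Nat.card π.ker * (Nat.card π.ker : F)⁻¹) *
        mulF (clsum F M (π x)) b (π y)) := by rw [mul_inv_cancel₀ hne, mul_one]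
    _ = _ := by ring

include hF hπ hk in
/-- the converse of `H74.infl_Pos` -/
theorem Pos_of_infl (e : G → F) (M : Subgroup G) (hpos : Pos ℓ (H74.infl π e) (M.comap π)) :
    Pos ℓ e M := by
  intro x0 hx0 h
  obtain ⟨x, rfl⟩ := hπ x0
  have hne := H74.natCast_ne hF hk
  have hkd : ¬ ℓ ∣ Nat.card π.ker := (Nat.Prime.coprime_iff_not_dvd hF.prime).1 hk.symm
  have hE : ¬ ℓ ∣ Nat.card (Subgroup.centralizer ({x} : Set E) ⊓ M.comap π : Subgroup E) := by
    intro hd
    rcases hF.prime.dvd_mul.1 (hd.trans (card_cent π M x)) with h1 | h1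
    · exact hkd h1
    · exact h h1
  obtain ⟨n, hn⟩ := hpos x hx0 hE
  obtain ⟨w, hw0, hw⟩ := infl_clsum' hF π hπ hk M hx0 h
  refine ⟨n, ?_⟩
  have key : ∀ n : ℕ, (mulF (clsum F (M.comap π) x))^[n] (H74.infl π e) =
      w ^ n • H74.infl π ((mulF (clsum F M (π x)))^[n] e) := by
    intro n
    induction n with
    | zero => simp
    | succ n ih =>
      rw [Function.iterate_succ_apply', ih, H74.mulF_smul, hw, Function.iterate_succ_apply',
        smul_smul, pow_succ]
  rw [key] at hn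
  funext y
  obtain ⟨z, rfl⟩ := hπ y
  have h1 := congrFun hn z
  rw [Pi.smul_apply, smul_eq_mul, Pi.zero_apply] at h1
  have h2 := (mul_eq_zero.1 h1).resolve_left (pow_ne_zero n hw0)
  exact (mul_eq_zero.1 h2).resolve_left (inv_ne_zero hne)

include hF hπ hk in
/-- the converse for idempotents -/
theorem idem_of_infl {e : G → F} (he : IsIdem (H74.infl π e)) : IsIdem e := by
  have hne := H74.natCast_ne hF hk
  have inj : ∀ a b : G → F, H74.infl π a = H74.infl π b → a = b := by
    intro a b h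
    funext y
    obtain ⟨z, rfl⟩ := hπ y
    exact mul_left_cancel₀ (inv_ne_zero hne) (congrFun h z)
  constructor
  · intro x y
    obtain ⟨x, rfl⟩ := hπ x
    obtain ⟨y, rfl⟩ := hπ y
    have := he.1 x y
    unfold H74.infl at this
    rw [map_mul, map_mul, map_inv] at this
    exact mul_left_cancel₀ (inv_ne_zero hne) this
  · apply inj
    rw [← H74.infl_mulF hF π hπ hk, he.2]

end inflation

end Pool.Agent.PP.H18
end
end -- Pool.Agent.Helper18_PP.Twl

section -- Pool.Agent.Helper18_PP.Stm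

/-!
# Squad PP, module STM: reduction to stem groups

`D` a finite group, `e` an idempotent over the faithful character `ζ` of `Z(D)`.  With
`n₀ = |Z(D) ∩ D'|` the character `ζ ^ n₀` extends to a linear character `λ` of `D`;
`D̂ = {(d, c) : c ^ n₀ = λ(d)}`, `Ẑ = {(z, ζ(z))}` and `D₀ = D̂ / Ẑ`.
-/

open scoped BigOperators

set_option linter.unusedSectionVars false

noncomputable section

namespace Pool.Agent.PP.H18

open Pool.Agent.PP Pool.Agent.Helper51_AWC Pool.Agent.Helper79_WRA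

section extension

variable {F : Type} [Field F]

theorem exists_root [IsAlgClosed F] (u : Fˣ) {n : ℕ} (hn : 0 < n) : ∃ v : Fˣ, v ^ n = u := by
  obtain ⟨z, hz⟩ := IsAlgClosed.exists_pow_nat_eq (u : F) hn
  have hz0 : z ≠ 0 := by
    rintro rfl
    rw [zero_pow hn.ne'] at hz
    exact u.ne_zero hz.symm
  exact ⟨Units.mk0 z hz0, Units.ext hz⟩

/-- extension of characters -/
theorem exists_lin [IsAlgClosed F] {D : Type} [Group D] (Z : Subgroup D) (ξ : Z →* Fˣ)
    (h : ∀ z : Z, (z : D) ∈ commutator D → ξ z = 1) : ∃ lam : D →* Fˣ, ∀ z : Z, lam z = ξ z := by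
  classical
  let ι : Z →* Abelianization D := Abelianization.of.comp Z.subtype
  have hker : ι.rangeRestrict.ker ≤ ξ.ker := by
    intro z hz
    rw [MonoidHom.ker_rangeRestrict] at hz
    have h1 : Abelianization.of (z : D) = 1 := hz
    apply h
    rw [← Abelianization.ker_of]
    exact h1
  let ξ' : ι.range →* Fˣ :=
    ι.rangeRestrict.liftOfSurjective ι.rangeRestrict_surjective ⟨ξ, hker⟩
  have hξ' : ∀ z : Z, ξ' (ι.rangeRestrict z) = ξ z := fun z =>
    MonoidHom.liftOfRightInverse_comp_apply ι.rangeRestrict _ _ ⟨ξ, hker⟩ z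
  let _ : DivisibleBy (Additive Fˣ) ℕ :=
    { div := fun a n => if hn : 0 < n then Additive.ofMul (exists_root a.toMul hn).choose else 0
      div_zero := fun a => dif_neg (lt_irrefl 0)
      div_cancel := fun {n} a hn => by
        have hn' : 0 < n := Nat.pos_of_ne_zero hn
        rw [dif_pos hn']
        exact (exists_root a.toMul hn').choose_spec }
  let _ : DivisibleBy (Additive Fˣ) ℤ := AddGroup.divisibleByIntOfDivisibleByNat _
  obtain ⟨g, hg⟩ := (Module.Baer.of_divisible (Additive Fˣ)).extension_property_addMonoidHom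
    (MonoidHom.toAdditive ι.range.subtype) (fun a b hab => ι.range.subtype_injective hab)
    (MonoidHom.toAdditive ξ')
  refine ⟨(AddMonoidHom.toMultiplicative g).comp Abelianization.of, fun z => ?_⟩
  rw [← hξ' z]
  exact congrArg (fun k : Additive ι.range →+ Additive Fˣ => (k (Additive.ofMul
    (ι.rangeRestrict z))).toMul) hg

end extension

section hat

variable {F : Type} [Field F] {D : Type} [Group D]

/-- the group `D̂` -/
def hat (lam : D →* Fˣ) (n₀ : ℕ) : Subgroup (D × Fˣ) :=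
  ((powMonoidHom n₀).comp (MonoidHom.snd D Fˣ)).eqLocus (lam.comp (MonoidHom.fst D Fˣ))

theorem mem_hat {lam : D →* Fˣ} {n₀ : ℕ} {x : D × Fˣ} :
    x ∈ hat lam n₀ ↔ x.2 ^ n₀ = lam x.1 := Iff.rfl

theorem hat_finite [Finite D] (lam : D →* Fˣ) {n₀ : ℕ} (hn : 0 < n₀) : Finite (hat lam n₀) := by
  have hN : NeZero (n₀ * Nat.card D) := ⟨(Nat.mul_pos hn Nat.card_pos).ne'⟩
  have h0 : Finite (rootsOfUnity (n₀ * Nat.card D) F) := inferInstance
  have h1 : (Set.univ ×ˢ (rootsOfUnity (n₀ * Nat.card D) F : Set Fˣ) : Set (D × Fˣ)).Finite :=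
    Set.finite_univ.prod (Set.finite_coe_iff.1 h0)
  refine (h1.subset ?_).to_subtype
  intro x hx
  refine ⟨Set.mem_univ _, ?_⟩
  rw [SetLike.mem_coe, mem_rootsOfUnity, pow_mul]
  have h2 : x.2 ^ n₀ = lam x.1 := hx
  rw [h2, ← map_pow, pow_card_eq_one', map_one]

/-- the projection to `D` -/
def p1 (lam : D →* Fˣ) (n₀ : ℕ) : hat lam n₀ →* D := (MonoidHom.fst D Fˣ).comp (hat lam n₀).subtype

/-- the second component -/
def chi (lam : D →* Fˣ) (n₀ : ℕ) : hat lam n₀ →* Fˣ :=
  (MonoidHom.snd D Fˣ).comp (hat lam n₀).subtype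

theorem hat_ext {lam : D →* Fˣ} {n₀ : ℕ} {x y : hat lam n₀} (h1 : p1 lam n₀ x = p1 lam n₀ y)
    (h2 : chi lam n₀ x = chi lam n₀ y) : x = y := Subtype.ext (Prod.ext h1 h2)

theorem hat_rel {lam : D →* Fˣ} {n₀ : ℕ} (x : hat lam n₀) :
    chi lam n₀ x ^ n₀ = lam (p1 lam n₀ x) := x.2

theorem hat_mk {lam : D →* Fˣ} {n₀ : ℕ} {d : D} {c : Fˣ} (h : c ^ n₀ = lam d) :
    ∃ x : hat lam n₀, p1 lam n₀ x = d ∧ chi lam n₀ x = c := ⟨⟨(d, c), h⟩, rfl, rfl⟩

theorem p1_surj [IsAlgClosed F] (lam : D →* Fˣ) {n₀ : ℕ} (hn : 0 < n₀) :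
    Function.Surjective (p1 lam n₀) := by
  intro d
  obtain ⟨c, hc⟩ := exists_root (lam d) hn
  obtain ⟨x, hx, -⟩ := hat_mk hc
  exact ⟨x, hx⟩

theorem chi_comm {lam : D →* Fˣ} {n₀ : ℕ} (x y : hat lam n₀) : chi lam n₀ (x * y) =
    chi lam n₀ (y * x) := by rw [map_mul, map_mul, mul_comm]

theorem central_of {lam : D →* Fˣ} {n₀ : ℕ} {x : hat lam n₀}
    (hx : p1 lam n₀ x ∈ Subgroup.center D) : x ∈ Subgroup.center (hat lam n₀) := by
  rw [Subgroup.mem_center_iff]
  intro y
  refine hat_ext ?_ (chi_comm _ _)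
  rw [map_mul, map_mul]
  exact Subgroup.mem_center_iff.1 hx _

variable {ζ : Subgroup.center D →* Fˣ} {lam : D →* Fˣ} {n₀ : ℕ}

/-- the embedding `z ↦ (z, ζ(z))` -/
def zh (h : ∀ z, ζ z ^ n₀ = lam z) : Subgroup.center D →* hat lam n₀ where
  toFun z := ⟨((z : D), ζ z), h z⟩
  map_one' := hat_ext (map_one (Subgroup.center D).subtype) (map_one ζ)
  map_mul' x y := hat_ext rfl (map_mul ζ x y)

variable (h : ∀ z, ζ z ^ n₀ = lam z)

theorem p1_zh (z : Subgroup.center D) : p1 lam n₀ (zh h z) = z := rfl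

theorem chi_zh (z : Subgroup.center D) : chi lam n₀ (zh h z) = ζ z := rfl

theorem zh_central : (zh h).range ≤ Subgroup.center (hat lam n₀) := by
  rintro _ ⟨z, rfl⟩
  exact central_of z.2

theorem zh_normal : (zh h).range.Normal := by
  constructor
  rintro _ ⟨z, rfl⟩ g
  have h1 := Subgroup.mem_center_iff.1 (zh_central h ⟨z, rfl⟩) g
  rw [h1, mul_inv_cancel_right]
  exact ⟨z, rfl⟩

theorem mem_zh {x : hat lam n₀} : x ∈ (zh h).range ↔
    ∃ hz : p1 lam n₀ x ∈ Subgroup.center D, ζ ⟨p1 lam n₀ x, hz⟩ = chi lam n₀ x := by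
  constructor
  · rintro ⟨z, rfl⟩
    exact ⟨z.2, rfl⟩
  · rintro ⟨hz, hx⟩
    exact ⟨⟨p1 lam n₀ x, hz⟩, hat_ext rfl hx⟩

/-- the elements that are central modulo `Ẑ` -/
theorem central_mod (hinj : Function.Injective ζ) {x : hat lam n₀}
    (hx : ∀ y : hat lam n₀, x * y * x⁻¹ * y⁻¹ ∈ (zh h).range)
    (hs : Function.Surjective (p1 lam n₀)) : p1 lam n₀ x ∈ Subgroup.center D := by
  rw [Subgroup.mem_center_iff]
  intro d
  obtain ⟨y, rfl⟩ := hs d
  obtain ⟨hz, h1⟩ := (mem_zh h).1 (hx y)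
  have h2 : chi lam n₀ (x * y * x⁻¹ * y⁻¹) = 1 := by
    rw [map_mul, map_mul, map_mul, map_inv, map_inv, mul_right_comm (chi lam n₀ x),
      mul_inv_cancel, one_mul, mul_inv_cancel]
  rw [h2, ← map_one ζ] at h1
  have h3 := congrArg Subtype.val (hinj h1)
  change p1 lam n₀ (x * y * x⁻¹ * y⁻¹) = 1 at h3
  rw [map_mul, map_mul, map_mul, map_inv, map_inv] at h3
  have h4 := mul_inv_eq_one.1 h3
  have h5 : p1 lam n₀ x * p1 lam n₀ y = p1 lam n₀ y * p1 lam n₀ x := by
    rw [← h4, inv_mul_cancel_right]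
    rw [h4]
  exact h5.symm

end hat

end Pool.Agent.PP.H18
end
end -- Pool.Agent.Helper18_PP.Stm

section -- Pool.Agent.Helper96_PP.Stm2

/-!
# Squad PP, module STM: reduction to stem groups, second part
-/

open scoped BigOperators

set_option linter.unusedSectionVars false

noncomputable section

namespace Pool.Agent.PP.H96

open Pool.Agent.Helper51_AWC Pool.Agent.Helper79_WRA Pool.Agent.PP Pool.Agent.PP.H18

/-- transport of the conditions on the group `D / Z(D)` -/
theorem nf_equiv {ℓ : ℕ} {A B S : Type} [Group A] [Group B] [Group S] (φ : A ≃* B)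
    (h : ∃ T : Subgroup A, T.Normal ∧ Subgroup.centralizer (T : Set A) = ⊥ ∧ Nonempty (T ≃* S) ∧
      (∃ n : ℕ, (⊤ : Subgroup A).lowerCentralSeries n ≤ T) ∧
      ¬ ℓ ∣ T.index ∧ ∃ a b : A, T ⊔ Subgroup.closure {a, b} = ⊤) :
    ∃ T : Subgroup B, T.Normal ∧ Subgroup.centralizer (T : Set B) = ⊥ ∧ Nonempty (T ≃* S) ∧
      (∃ n : ℕ, (⊤ : Subgroup B).lowerCentralSeries n ≤ T) ∧
      ¬ ℓ ∣ T.index ∧ ∃ a b : B, T ⊔ Subgroup.closure {a, b} = ⊤ := by
  obtain ⟨T, h1, h2, ⟨e⟩, ⟨n, hn⟩, h5, a, b, hab⟩ := h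
  refine ⟨T.map φ.toMonoidHom, h1.map _ φ.surjective, ?_, ⟨(φ.subgroupMap T).symm.trans e⟩,
    ⟨n, fun y hy => ?_⟩, ?_, φ a, φ b, ?_⟩
  · rw [eq_bot_iff]
    intro y hy
    have h3 : φ.symm y ∈ Subgroup.centralizer (T : Set A) := by
      rw [Subgroup.mem_centralizer_iff]
      intro t ht
      have h4 := Subgroup.mem_centralizer_iff.1 hy (φ t) ⟨t, ht, rfl⟩
      apply φ.injective
      rw [map_mul, map_mul, φ.apply_symm_apply]
      exact h4
    rw [h2, Subgroup.mem_bot] at h3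
    rw [Subgroup.mem_bot, ← φ.apply_symm_apply y, h3, map_one]
  · have h3 := hn (lcs_mem φ.symm.toMonoidHom hy)
    exact ⟨_, h3, φ.apply_symm_apply y⟩
  · rw [Subgroup.index_map_of_bijective (f := φ.toMonoidHom) φ.bijective]
    exact h5
  · have h3 : Subgroup.closure {φ a, φ b} = (Subgroup.closure {a, b}).map φ.toMonoidHom := by
      rw [MonoidHom.map_closure]
      congr 1
      rw [Set.image_pair]
      rfl
    rw [h3, ← Subgroup.map_sup, hab]
    exact Subgroup.map_top_of_surjective _ φ.surjective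

/-- groups without elements of order `ℓ` -/
theorem not_dvd_of {ℓ : ℕ} [Fact ℓ.Prime] {E : Type} [Group E] [Finite E] (K : Subgroup E)
    (h : ∀ x ∈ K, x ^ ℓ = 1 → x = 1) : ¬ ℓ ∣ Nat.card K := by
  intro hd
  obtain ⟨x, hx⟩ := exists_prime_orderOf_dvd_card' ℓ hd
  have h1 : x ^ ℓ = 1 := by rw [← hx]; exact pow_orderOf_eq_one x
  have h2 : (x : E) = 1 := h x x.2 (congrArg Subtype.val h1)
  have h3 : x = 1 := Subtype.ext h2
  rw [h3, orderOf_one] at hx
  exact (Fact.out : ℓ.Prime).one_lt.ne hx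

theorem units_pow {ℓ : ℕ} {F : Type} [Field F] (hF : GoodF ℓ F) (c : Fˣ) (h : c ^ ℓ = 1) :
    c = 1 := by
  have := hF.char
  have : Fact ℓ.Prime := ⟨hF.prime⟩
  have h1 : (c : F) ^ ℓ = 1 := by rw [← Units.val_pow_eq_pow_val, h, Units.val_one]
  have h2 : ((c : F) - 1) ^ ℓ = 0 := by rw [sub_pow_char, h1, one_pow, sub_self]
  have h3 := pow_eq_zero_iff (hF.prime.ne_zero) |>.1 h2
  exact Units.ext (sub_eq_zero.1 h3)

/-- `O_ℓ = 1` from the quotient by the centre -/
theorem opCore_bot {ℓ : ℕ} [Fact ℓ.Prime] {E S : Type} [Group E] [Finite E] [Group S] [Finite S]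
    (hS : NonabSimple S) (T : Subgroup (E ⧸ Subgroup.center E)) (hT : IsSocle T S)
    (hZ : ¬ ℓ ∣ Nat.card (Subgroup.center E)) : opCore ℓ E = ⊥ := by
  obtain ⟨o1, o2, -⟩ := opCore_spec ℓ E
  have h1 : opCore ℓ E ≤ Subgroup.center E := by
    by_contra hne
    have hK : ((opCore ℓ E).map (QuotientGroup.mk' (Subgroup.center E))).Normal :=
      o1.map _ (QuotientGroup.mk'_surjective _)
    have hKne : (opCore ℓ E).map (QuotientGroup.mk' (Subgroup.center E)) ≠ ⊥ := by
      intro hb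
      apply hne
      rw [Subgroup.map_eq_bot_iff, QuotientGroup.ker_mk'] at hb
      exact hb
    have hle := hT.le hK hKne
    have hp : IsPGroup ℓ T := (o2.map _).to_le hle
    obtain ⟨e⟩ := hT.iso
    have hpS : IsPGroup ℓ S := hp.of_equiv e
    obtain ⟨hsimp, a, b, hab⟩ := hS
    have hnt : Nontrivial S := hsimp.toNontrivial
    have hc := hpS.center_nontrivial
    rcases hsimp.eq_bot_or_eq_top_of_normal (Subgroup.center S) inferInstance with h2 | h2
    · rw [h2] at hc
      exact absurd hc (by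
        rw [Subgroup.nontrivial_iff_ne_bot]
        exact fun h => h rfl)
    · apply hab
      have h3 : b ∈ Subgroup.center S := by rw [h2]; exact Subgroup.mem_top b
      exact Subgroup.mem_center_iff.1 h3 a
  rw [eq_bot_iff]
  intro x hx
  obtain ⟨k, hk⟩ := o2 ⟨x, hx⟩
  have hk' : x ^ ℓ ^ k = 1 := congrArg Subtype.val hk
  have h2 : orderOf x ∣ ℓ ^ k := orderOf_dvd_of_pow_eq_one hk'
  have h3 : orderOf x ∣ Nat.card (Subgroup.center E) := by
    have := orderOf_dvd_natCard (⟨x, h1 hx⟩ : Subgroup.center E)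
    rwa [Subgroup.orderOf_mk] at this
  have h4 : Nat.Coprime (ℓ ^ k) (Nat.card (Subgroup.center E)) :=
    Nat.Coprime.pow_left k (((Fact.out : ℓ.Prime).coprime_iff_not_dvd).2 hZ)
  have h5 := Nat.eq_one_of_dvd_coprimes h4 h2 h3
  rw [Subgroup.mem_bot]
  exact orderOf_eq_one_iff.1 h5

section stem

variable {F : Type} [Field F] {D : Type} [Group D] {ζ : Subgroup.center D →* Fˣ} {lam : D →* Fˣ}
  {n₀ : ℕ}

/-- the isomorphism of the quotients by the centres -/
theorem quot_equiv [IsAlgClosed F] (h : ∀ z, ζ z ^ n₀ = lam z) (hn : 0 < n₀)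
    (hinj : Function.Injective ζ) [(zh h).range.Normal] :
    (∀ x : hat lam n₀, QuotientGroup.mk' (zh h).range x ∈
        Subgroup.center (hat lam n₀ ⧸ (zh h).range) ↔ p1 lam n₀ x ∈ Subgroup.center D) ∧
    Nonempty ((D ⧸ Subgroup.center D) ≃* ((hat lam n₀ ⧸ (zh h).range) ⧸
      Subgroup.center (hat lam n₀ ⧸ (zh h).range))) := by
  have hs := p1_surj lam hn
  have key : ∀ x : hat lam n₀, QuotientGroup.mk' (zh h).range x ∈
      Subgroup.center (hat lam n₀ ⧸ (zh h).range) ↔ p1 lam n₀ x ∈ Subgroup.center D := by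
    intro x
    constructor
    · intro hx
      apply central_mod h hinj _ hs
      intro y
      have h1 := Subgroup.mem_center_iff.1 hx (QuotientGroup.mk' (zh h).range y)
      rw [← QuotientGroup.ker_mk' (zh h).range, MonoidHom.mem_ker, map_mul, map_mul, map_mul,
        map_inv, map_inv, ← h1, mul_inv_cancel_right, mul_inv_cancel]
    · intro hx
      have h1 := central_of hx
      rw [Subgroup.mem_center_iff]
      intro y
      obtain ⟨y, rfl⟩ := QuotientGroup.mk'_surjective (zh h).range y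
      rw [← map_mul, ← map_mul, Subgroup.mem_center_iff.1 h1 y]
  refine ⟨key, H63.equiv_of_ker ((QuotientGroup.mk' (Subgroup.center D)).comp (p1 lam n₀))
    ((QuotientGroup.mk' (Subgroup.center (hat lam n₀ ⧸ (zh h).range))).comp
      (QuotientGroup.mk' (zh h).range))
    ((QuotientGroup.mk'_surjective _).comp hs)
    ((QuotientGroup.mk'_surjective _).comp (QuotientGroup.mk'_surjective _)) ?_⟩
  ext x
  rw [MonoidHom.mem_ker, MonoidHom.mem_ker, MonoidHom.comp_apply, MonoidHom.comp_apply,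
    ← MonoidHom.mem_ker, ← MonoidHom.mem_ker, QuotientGroup.ker_mk', QuotientGroup.ker_mk']
  exact (key x).symm

/-- modulo `Ẑ` the elements over the centre are the elements `(1, c)` -/
theorem exists_one (h : ∀ z, ζ z ^ n₀ = lam z) [(zh h).range.Normal] {x : hat lam n₀}
    (hx : p1 lam n₀ x ∈ Subgroup.center D) : ∃ y : hat lam n₀, p1 lam n₀ y = 1 ∧
      QuotientGroup.mk' (zh h).range x = QuotientGroup.mk' (zh h).range y := by
  refine ⟨x * (zh h ⟨_, hx⟩)⁻¹, ?_, ?_⟩
  · rw [map_mul, map_inv, p1_zh, mul_inv_cancel]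
  · have h1 : QuotientGroup.mk' (zh h).range (zh h ⟨_, hx⟩) = 1 := by
      rw [← MonoidHom.mem_ker, QuotientGroup.ker_mk']
      exact ⟨_, rfl⟩
    rw [map_mul, map_inv, h1, inv_one, mul_one]

/-- two elements over `1` which agree modulo `Ẑ` are equal -/
theorem one_inj (h : ∀ z, ζ z ^ n₀ = lam z) {x : hat lam n₀} (hx : p1 lam n₀ x = 1)
    (hx1 : x ∈ (zh h).range) : x = 1 := by
  obtain ⟨hz, h1⟩ := (mem_zh h).1 hx1
  apply hat_ext
  · rw [hx, map_one]
  · rw [← h1, map_one, ← map_one ζ]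
    congr 1
    exact Subtype.ext hx

end stem

/-- STM -/
theorem stm : StmStmt := by
  intro ℓ hℓ F _ hF H _ _ N _ hQ S _ _ hS hdvd hI D _ _ hO hns hinv e he hcl hpos
  by_cases he0 : e = 0
  · rw [he0]
    exact H67.YY_zero hF ⊤
  have := hF.closed
  have := hF.char
  obtain ⟨a0, ha0⟩ : ∃ a, e a ≠ 0 := Function.ne_iff.1 he0
  -- the character `ζ`
  have hex : ∀ z : Subgroup.center D, ∃ c : F, ∀ x, e (z * x) = c * e x := by
    intro z
    by_cases hz : (z : D) = 1
    · exact ⟨1, fun x => by rw [hz, one_mul, one_mul]⟩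
    · obtain ⟨c, -, hc⟩ := hcl z z.2 hz
      exact ⟨c, hc⟩
  choose c hc using hex
  have huniq : ∀ (z : Subgroup.center D) (w : F), (∀ x, e (z * x) = w * e x) → w = c z := by
    intro z w hw
    exact mul_right_cancel₀ ha0 ((hw a0).symm.trans (hc z a0))
  have hc1 : c 1 = 1 := (huniq 1 1 (fun x => by rw [Subgroup.coe_one, one_mul, one_mul])).symm
  have hcm : ∀ z w, c (z * w) = c z * c w := fun z w =>
    (huniq (z * w) _ (fun x => by rw [Subgroup.coe_mul, mul_assoc, hc z, hc w, mul_assoc])).symm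
  have hcu : ∀ z, c z ≠ 0 := by
    intro z hz
    have h1 := hcm z z⁻¹
    rw [mul_inv_cancel, hc1, hz, zero_mul] at h1
    exact one_ne_zero h1
  obtain ⟨ζ, hζ⟩ : ∃ ζ : Subgroup.center D →* Fˣ, ∀ (z : Subgroup.center D) (x : D),
      e (z * x) = (ζ z : F) * e x :=
    ⟨{ toFun := fun z => Units.mk0 (c z) (hcu z)
       map_one' := Units.ext hc1
       map_mul' := fun z w => Units.ext (hcm z w) }, fun z x => hc z x⟩
  have hinj : Function.Injective ζ := by
    rw [injective_iff_map_eq_one]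
    intro z hz
    by_contra hne
    obtain ⟨w, hw1, hw⟩ := hcl z z.2 (fun h => hne (Subtype.ext h))
    have h1 := huniq z w hw
    have h2 := huniq z (ζ z : F) (hζ z)
    rw [hz, Units.val_one] at h2
    exact hw1 (h1.trans h2.symm)
  -- the extension of `ζ ^ n₀`
  obtain ⟨n₀, hn₀⟩ : ∃ n, n = Nat.card (Subgroup.center D ⊓ commutator D : Subgroup D) := ⟨_, rfl⟩
  have hn0 : 0 < n₀ := hn₀ ▸ Nat.card_pos
  have hpow : ∀ z : Subgroup.center D, (z : D) ∈ commutator D → ζ z ^ n₀ = 1 := by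
    intro z hz
    have h1 : (⟨z, z.2, hz⟩ : (Subgroup.center D ⊓ commutator D : Subgroup D)) ^ n₀ = 1 := by
      rw [hn₀]
      exact pow_card_eq_one'
    have h1' : (z : D) ^ n₀ = 1 := congrArg Subtype.val h1
    have h2 : z ^ n₀ = 1 := Subtype.ext h1'
    rw [← map_pow, h2, map_one]
  obtain ⟨lam, hlam⟩ := exists_lin (Subgroup.center D) ((powMonoidHom n₀).comp ζ) hpow
  have h : ∀ z, ζ z ^ n₀ = lam z := fun z => (hlam z).symm
  have hfin := hat_finite lam hn0
  have hZn : (zh h).range.Normal := zh_normal h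
  have hs := p1_surj lam hn0
  obtain ⟨hcen, ⟨φ⟩⟩ := quot_equiv h hn0 hinj
  obtain ⟨q, hq⟩ : ∃ q, q = QuotientGroup.mk' (zh h).range := ⟨_, rfl⟩
  have hqs : Function.Surjective q := by rw [hq]; exact QuotientGroup.mk'_surjective _
  have hqk : q.ker = (zh h).range := by rw [hq]; exact QuotientGroup.ker_mk' _
  -- the kernels have order prime to `ℓ`
  have hk1 : ¬ ℓ ∣ Nat.card (p1 lam n₀).ker := by
    apply not_dvd_of
    intro x hx hxl
    apply hat_ext
    · rw [map_one]
      exact hx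
    · rw [map_one]
      apply units_pow hF
      rw [← map_pow, hxl, map_one]
  have hk2 : ¬ ℓ ∣ Nat.card q.ker := by
    apply not_dvd_of
    intro x hx hxl
    rw [hqk] at hx
    obtain ⟨z, rfl⟩ := hx
    have h1 : ζ z = 1 := by
      apply units_pow hF
      rw [← chi_zh h z, ← map_pow, hxl, map_one]
    rw [← map_one ζ] at h1
    rw [hinj h1, map_one]
  -- the centre of `D₀`
  have hone : ∀ w : hat lam n₀ ⧸ (zh h).range, w ∈ Subgroup.center (hat lam n₀ ⧸ (zh h).range) →
      ∃ y : hat lam n₀, p1 lam n₀ y = 1 ∧ w = q y := by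
    intro w hw
    obtain ⟨x, rfl⟩ := QuotientGroup.mk'_surjective (zh h).range w
    rw [hq]
    exact exists_one h ((hcen x).1 hw)
  have hcard : ¬ ℓ ∣ Nat.card (Subgroup.center (hat lam n₀ ⧸ (zh h).range)) := by
    apply not_dvd_of
    intro w hw hwl
    obtain ⟨y, hy1, rfl⟩ := hone w hw
    have h1 : y ^ ℓ ∈ (zh h).range := by rw [← hqk, MonoidHom.mem_ker, map_pow, hwl]
    have h2 : y ^ ℓ = 1 := one_inj h (by rw [map_pow, hy1, one_pow]) h1
    have h3 : y = 1 := by
      apply hat_ext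
      · rw [hy1, map_one]
      · rw [map_one]
        apply units_pow hF
        rw [← map_pow, h2, map_one]
    rw [h3, map_one]
  have hnsF : NearlySimpleF ℓ (hat lam n₀ ⧸ (zh h).range) S := nf_equiv φ hns
  obtain ⟨T, t1, t2, t3, -⟩ := hnsF
  have hO' : opCore ℓ (hat lam n₀ ⧸ (zh h).range) = ⊥ := opCore_bot hS T ⟨hS, t1, t2, t3⟩ hcard
  -- the centre of `D₀` lies in the commutator subgroup
  have hstem : Subgroup.center (hat lam n₀ ⧸ (zh h).range) ≤
      commutator (hat lam n₀ ⧸ (zh h).range) := by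
    intro w hw
    obtain ⟨y, hy1, rfl⟩ := hone w hw
    have hyr : (chi lam n₀ y)⁻¹ ^ n₀ = 1 := by
      rw [inv_pow, hat_rel, hy1, map_one, inv_one]
    -- a preimage under `ζ`
    obtain ⟨z, hz1, hz2⟩ : ∃ z : Subgroup.center D, (z : D) ∈ commutator D ∧
        ζ z = (chi lam n₀ y)⁻¹ := by
      have : NeZero n₀ := ⟨hn0.ne'⟩
      let θ : (Subgroup.center D ⊓ commutator D : Subgroup D) → rootsOfUnity n₀ F := fun z =>
        ⟨ζ ⟨z, z.2.1⟩, by
          rw [mem_rootsOfUnity]
          exact hpow ⟨z, z.2.1⟩ z.2.2⟩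
      have hθ : Function.Injective θ := by
        intro a b hab
        have h1 := congrArg Subtype.val hab
        have h2 := hinj h1
        rw [Subtype.mk.injEq] at h2
        exact Subtype.ext h2
      have hle : Nat.card (rootsOfUnity n₀ F) ≤
          Nat.card (Subgroup.center D ⊓ commutator D : Subgroup D) := by
        rw [← hn₀]
        exact card_rootsOfUnity F n₀
      have hθb := (Function.Injective.bijective_of_nat_card_le hθ hle).2
      obtain ⟨z, hz⟩ := hθb ⟨(chi lam n₀ y)⁻¹, by rw [mem_rootsOfUnity]; exact hyr⟩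
      exact ⟨⟨z, z.2.1⟩, z.2.2, congrArg Subtype.val hz⟩
    -- `(1, c) ζ̂(z) = (z, 1)` lies in the commutator subgroup
    have hmap : (commutator (hat lam n₀)).map (p1 lam n₀) = commutator D := by
      rw [commutator_def, Subgroup.map_commutator, Subgroup.map_top_of_surjective _ hs,
        commutator_def]
    obtain ⟨v, hv, hv1⟩ : (z : D) ∈ (commutator (hat lam n₀)).map (p1 lam n₀) := by
      rw [hmap]
      exact hz1
    have hv2 : chi lam n₀ v = 1 := by
      have h1 : commutator (hat lam n₀) ≤ (chi lam n₀).ker :=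
        Abelianization.commutator_subset_ker _
      exact h1 hv
    have h1 : v = y * zh h z := by
      apply hat_ext
      · rw [hv1, map_mul, hy1, one_mul, p1_zh]
      · rw [hv2, map_mul, chi_zh, hz2, mul_inv_cancel]
    have h2 : q y = q v := by
      have h3 : q (zh h z) = 1 := by
        rw [← MonoidHom.mem_ker, hqk]
        exact ⟨_, rfl⟩
      rw [h1, map_mul, h3, mul_one]
    rw [h2]
    have h3 : (commutator (hat lam n₀)).map q = commutator (hat lam n₀ ⧸ (zh h).range) := by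
      rw [commutator_def, Subgroup.map_commutator, Subgroup.map_top_of_surjective _ hqs,
        commutator_def]
    rw [← h3]
    exact ⟨v, hv, rfl⟩
  have hinv' : Involves H ((hat lam n₀ ⧸ (zh h).range) ⧸
      Subgroup.center (hat lam n₀ ⧸ (zh h).range)) := hinv.trans_equiv φ
  -- the idempotents
  have hp1c : ∀ x, p1 lam n₀ x = 1 → x ∈ Subgroup.center (hat lam n₀) := by
    intro x hx
    apply central_of
    rw [hx]
    exact Subgroup.one_mem _
  have hqc : ∀ x, q x = 1 → x ∈ Subgroup.center (hat lam n₀) := by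
    intro x hx
    rw [← MonoidHom.mem_ker, hqk] at hx
    exact zh_central h hx
  obtain ⟨i1, -, i2⟩ := H74.cen ℓ F hF (hat lam n₀) D (p1 lam n₀) hs hp1c hk1 e he
  have hcop1 : (Nat.card (p1 lam n₀).ker).Coprime ℓ :=
    ((hF.prime.coprime_iff_not_dvd).2 hk1).symm
  have hcop2 : (Nat.card q.ker).Coprime ℓ := ((hF.prime.coprime_iff_not_dvd).2 hk2).symm
  have hne1 := H74.natCast_ne hF hcop1
  have hne2 := H74.natCast_ne hF hcop2
  obtain ⟨ê, hê⟩ : ∃ ê, ê = twl (chi lam n₀)⁻¹ (H74.infl (p1 lam n₀) e) := ⟨_, rfl⟩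
  have hêv : ∀ x, ê x = (Nat.card (p1 lam n₀).ker : F)⁻¹ * e (p1 lam n₀ x) *
      (((chi lam n₀ x)⁻¹ : Fˣ) : F) := by
    intro x
    rw [hê]
    rfl
  have hinvar : ∀ z x, ê (zh h z * x) = ê x := by
    intro z x
    rw [hêv, hêv, map_mul, map_mul, p1_zh, chi_zh, hζ, mul_inv, Units.val_mul,
      Units.val_inv_eq_inv_val, Units.val_inv_eq_inv_val]
    have h1 : (ζ z : F) ≠ 0 := (ζ z).ne_zero
    field_simp
  have hinvar' : ∀ x y, q x = q y → ê x = ê y := by
    intro x y hxy
    have h1 : x * y⁻¹ ∈ (zh h).range := by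
      rw [← hqk, MonoidHom.mem_ker, map_mul, map_inv, hxy, mul_inv_cancel]
    obtain ⟨z, hz⟩ := h1
    have h2 : x = zh h z * y := by rw [hz, inv_mul_cancel_right]
    rw [h2, hinvar]
  choose r hr using hqs
  obtain ⟨e₀, he₀⟩ : ∃ e₀ : hat lam n₀ ⧸ (zh h).range → F, e₀ = fun w =>
      (Nat.card q.ker : F) * ê (r w) := ⟨_, rfl⟩
  have he₀v : ∀ x, e₀ (q x) = (Nat.card q.ker : F) * ê x := by
    intro x
    rw [he₀]
    change (Nat.card q.ker : F) * ê (r (q x)) = _
    rw [hinvar' (r (q x)) x (hr _)]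
  have hinfl : H74.infl q e₀ = ê := by
    funext x
    unfold H74.infl
    rw [he₀v, ← mul_assoc, inv_mul_cancel₀ hne2, one_mul]
  have hêi : IsIdem ê := by
    rw [hê]
    exact twl_idem _ i1
  have hqs' : Function.Surjective q := fun w => ⟨r w, hr w⟩
  have he₀i : IsIdem e₀ := idem_of_infl hF q hqs' hcop2 (by rw [hinfl]; exact hêi)
  have hpos1 : Pos ℓ (H74.infl (p1 lam n₀) e) ⊤ := by
    have := (i2 ⊤ inferInstance).2 hpos
    rwa [Subgroup.comap_top] at this
  have hposê : Pos ℓ ê ⊤ := by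
    rw [hê]
    exact twl_Pos _ _ hpos1
  have hpos0 : Pos ℓ e₀ ⊤ := by
    apply Pos_of_infl hF q hqs' hcop2
    rw [hinfl, Subgroup.comap_top]
    exact hposê
  have hclause : ∀ w ∈ Subgroup.center (hat lam n₀ ⧸ (zh h).range), w ≠ 1 →
      ∃ c : F, c ≠ 1 ∧ ∀ x, e₀ (w * x) = c * e₀ x := by
    intro w hw hw1
    obtain ⟨y, hy1, rfl⟩ := hone w hw
    refine ⟨(((chi lam n₀ y)⁻¹ : Fˣ) : F), ?_, ?_⟩
    · intro hcon
      apply hw1
      have h1 : (chi lam n₀ y)⁻¹ = 1 := Units.ext hcon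
      have h2 : y = 1 := by
        apply hat_ext
        · rw [hy1, map_one]
        · rw [map_one]
          exact inv_eq_one.1 h1
      rw [h2, map_one]
    · intro x
      obtain ⟨x, rfl⟩ := hqs' x
      rw [← map_mul, he₀v, he₀v, hêv, hêv, map_mul, map_mul, hy1, one_mul, mul_inv,
        Units.val_mul]
      ring
  have hzero := hQ S hS hdvd hI (hat lam n₀ ⧸ (zh h).range) hO' (nf_equiv φ hns) hinv' hstem e₀
    he₀i hclause hpos0
  -- the sums
  obtain ⟨-, -, i3⟩ := H74.cen ℓ F hF (hat lam n₀) _ q hqs' hqc hk2 e₀ he₀i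
  have j1 : YY ℓ ⊤ ê = 0 := by
    have h1 := (i3 ⊤ inferInstance).1
    rw [hzero, mul_zero, Subgroup.comap_top] at h1
    rw [← hinfl]
    exact h1
  have j2 : YY ℓ ⊤ (H74.infl (p1 lam n₀) e) = 0 := by
    rw [hê, twl_YY] at j1
    exact j1
  have j3 := (i2 ⊤ inferInstance).1
  rw [Subgroup.comap_top] at j3
  have j4 : (Nat.card (p1 lam n₀).ker : ℤ) * YY ℓ ⊤ e = 0 := j3.symm.trans j2
  rcases mul_eq_zero.1 j4 with h1 | h1
  · exact absurd h1 (by exact_mod_cast (Nat.card_pos (α := (p1 lam n₀).ker)).ne')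
  · exact h1

end Pool.Agent.PP.H96
end
end -- Pool.Agent.Helper96_PP.Stm2
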