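import Pool.Agent.Helper12_AWB.B047
import Pool.Agent.Helper12_AWB.B051
import Pool.Agent.Helper12_AWB.B067
import Pool.Agent.Helper12_AWB.B068
import Pool.Agent.Helper12_AWB.B069
import Pool.Agent.Helper18_PP.Good
import Pool.Agent.Helper66_PP.Pos1
import Pool.Agent.Helper66_PP.StmtsF

/-!
# Merged copies (generated) of the modules

* `Pool.Agent.Helper46_PP.Top`
* `Pool.Agent.Helper96_PP.Fnl`
* `Pool.Agent.Helper94_PP.Rel`
* `Pool.Agent.Helper94_PP.LemP`
* `Pool.Agent.Helper94_PP.LemQ`
-/

set_option autoImplicit false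

section -- Pool.Agent.Helper46_PP.Top

/-!
# Squad PP, module TOP (AWC_A, A4): the master induction
-/

open scoped BigOperators

noncomputable section

namespace Pool.Agent.PP.H46

open Pool.Agent.Helper51_AWC Pool.Agent.Helper79_WRA Pool.Agent.PP

section aux

variable {F H : Type} [Field F] [Group H]

theorem card_cent (N : Subgroup H) (x : N) :
    Nat.card (Subgroup.centralizer ({x} : Set N)) =
      Nat.card (Subgroup.centralizer ({(x : H)} : Set H) ⊓ N : Subgroup H) := by
  have h1 : (Subgroup.centralizer ({x} : Set N)).map N.subtype =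
      Subgroup.centralizer ({(x : H)} : Set H) ⊓ N := by
    ext g
    rw [Subgroup.mem_map, Subgroup.mem_inf, Subgroup.mem_centralizer_singleton_iff]
    constructor
    · rintro ⟨y, hy, rfl⟩
      rw [Subgroup.mem_centralizer_singleton_iff] at hy
      exact ⟨congrArg Subtype.val hy, y.2⟩
    · rintro ⟨h1, h2⟩
      refine ⟨⟨g, h2⟩, ?_, rfl⟩
      rw [Subgroup.mem_centralizer_singleton_iff]
      exact Subtype.ext h1
  rw [← h1]
  exact Nat.card_congr
    ((Subgroup.centralizer ({x} : Set N)).equivMapOfInjective N.subtype N.subtype_injective).toEquiv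

/-- A combination of class sums of defect zero vanishes at all other elements. -/
theorem prC_of_DZ {ℓ : ℕ} {N : Type} [Group N] {b : N → F} (h : DZ ℓ b) (hc : IsCl b) :
    PrC ℓ b := by
  refine ⟨hc, ?_⟩
  have h1 : ∀ a ∈ Submodule.span F {f : N → F | ∃ x : N,
      ¬ ℓ ∣ Nat.card (Subgroup.centralizer ({x} : Set N)) ∧ f = clsum F ⊤ x},
      ∀ x, ℓ ∣ Nat.card (Subgroup.centralizer ({x} : Set N)) → a x = 0 := by
    intro a ha
    induction ha using Submodule.span_induction with
    | mem a ha =>
      obtain ⟨y, hy, rfl⟩ := ha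
      intro x hx
      classical
      unfold clsum
      rw [if_neg]
      rintro ⟨q, -, hq⟩
      apply hy
      have h2 : (Subgroup.centralizer ({y} : Set N)).map (MulAut.conj q).toMonoidHom =
          Subgroup.centralizer ({x} : Set N) := by
        ext g
        rw [Subgroup.mem_map, Subgroup.mem_centralizer_singleton_iff]
        constructor
        · rintro ⟨z, hz, rfl⟩
          rw [Subgroup.mem_centralizer_singleton_iff] at hz
          have : (MulAut.conj q).toMonoidHom z = q * z * q⁻¹ := rfl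
          rw [this, hq]
          calc q * z * q⁻¹ * (q * y * q⁻¹) = q * (z * y) * q⁻¹ := by group
            _ = q * (y * z) * q⁻¹ := by rw [hz]
            _ = q * y * q⁻¹ * (q * z * q⁻¹) := by group
        · intro hg
          refine ⟨q⁻¹ * g * q, ?_, ?_⟩
          · rw [Subgroup.mem_centralizer_singleton_iff]
            rw [hq] at hg
            calc q⁻¹ * g * q * y = q⁻¹ * (g * (q * y * q⁻¹)) * q := by group
              _ = q⁻¹ * (q * y * q⁻¹ * g) * q := by rw [hg]
              _ = y * (q⁻¹ * g * q) := by group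
          · change q * (q⁻¹ * g * q) * q⁻¹ = g
            group
      rw [← h2] at hx
      have h3 := Nat.card_congr ((Subgroup.centralizer ({y} : Set N)).equivMapOfInjective
        (MulAut.conj q).toMonoidHom (MulAut.conj q).injective).toEquiv
      rwa [← h3] at hx
    | zero => intro x _; rfl
    | add a c _ _ h1 h2 =>
      intro x hx
      change a x + c x = 0
      rw [h1 x hx, h2 x hx, add_zero]
    | smul k a _ h1 =>
      intro x hx
      change k * a x = 0
      rw [h1 x hx, mul_zero]
  exact h1 b h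

theorem top_mem {c : Finset (Subgroup H)} {s : Finset (Subgroup H)}
    (hc : c ∈ chainsOn s ⊥) : top c ∈ c ∧ ∀ D ∈ c, D ≤ top c := by
  obtain ⟨-, h2, h3⟩ := mem_chainsOn.1 hc
  obtain ⟨x, hx, hx'⟩ := exists_greatest h3 ⟨_, h2⟩
  have h4 : top c = x := by
    apply le_antisymm
    · exact sSup_le fun y hy => hx' y hy
    · exact le_sSup (show x ∈ (c : Set (Subgroup H)) from hx)
  rw [h4]
  exact ⟨hx, hx'⟩

theorem cent_eq {c : Finset (Subgroup H)} {s : Finset (Subgroup H)}
    (hc : c ∈ chainsOn s ⊥) (N : Subgroup H) :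
    cent N c = Subgroup.centralizer ((top c : Subgroup H) : Set H) ⊓ N := by
  obtain ⟨h1, h2⟩ := top_mem hc
  unfold cent
  rw [inf_comm]
  congr 1
  apply le_antisymm
  · exact iInf₂_le (top c) h1
  · apply le_iInf₂
    intro D hD
    exact Subgroup.centralizer_le (h2 D hD)

end aux

theorem topTheorem (hFr : FrStmt) (hDz : DzStmt) (hRcn : RcnStmt) (hTrn : TrnStmt)
    (hYzr : YzrStmt) (hPs1 : Ps1Stmt) (hPs3 : Ps3Stmt) (hGr1 : Gr1Stmt) (hGr2 : Gr2Stmt)
    (hMus : MusStmt) (hAdd : AddStmt) (hBrm : BrmStmt) (hS1 : S1Stmt) (hR2 : R2Stmt) :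
    MainStmt := by
  intro ℓ _ F _ hF
  classical
  -- strong induction on `mu N`
  have key : ∀ m : ℕ, ∀ (H : Type) [Group H] [Finite H] (N : Subgroup H), N.Normal → mu N = m →
      GoodP ℓ F N → YH ℓ F N := by
    intro m
    induction m using Nat.strong_induction_on with
    | _ m ihm =>
    have hlt : Ylt ℓ F m := fun H _ _ N hN hm hg => ihm (mu N) hm H N hN rfl hg
    intro H gH fH N hN hm hg
    -- strong induction on `|H|`
    induction hn : Nat.card H using Nat.strong_induction_on generalizing H with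
    | _ n ihn =>
    have hltN : Ylt ℓ F (mu N) := by rw [hm]; exact hlt
    intro e0 he0 hp0
    apply hAdd ℓ F hF H N hN e0 he0
    intro e he hee
    have hp : Pos ℓ e N := pos_mono he.1 (by rw [mulF_comm he.1.1, hee]) hp0
    have hez : e ≠ 0 := he.2.1
    -- normal `ℓ`-subgroups
    by_cases hO : opCore ℓ N ≠ ⊥
    · exact hYzr ℓ F hF.prime H N hN hO e
    rw [not_not] at hO
    -- the abelian case
    by_cases hab : ∀ x ∈ N, ∀ y ∈ N, x * y * x⁻¹ * y⁻¹ ∈ Subgroup.center H
    · exact absurd (pos_card hp (hGr1 ℓ H N hN hO hab)) hez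
    have hNc : ¬ N ≤ Subgroup.center H := by
      intro h
      apply hab
      intro x hx y hy
      have := Subgroup.mem_center_iff.1 (h hx) y
      have h2 : x * y * x⁻¹ * y⁻¹ = 1 := by rw [← this]; group
      rw [h2]
      exact Subgroup.one_mem _
    obtain ⟨N2, hN2N, hZN2, hCh⟩ := hGr2 H N hN hNc
    have hN2 : N2.Normal := hCh.1
    have hN2c : ¬ N2 ≤ Subgroup.center H := hCh.2.1
    obtain ⟨mus1, mus2, mus3, mus4⟩ := hMus H N N2 hN hN2 hN2N hZN2 hN2c
    obtain ⟨b, hb0, hb, hbe⟩ := exists_blk hez N2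
    -- Fong-Reynolds
    by_cases hT : stabF b = ⊤
    swap
    · have hZT : Subgroup.center H ≤ stabF b := by
        intro g hgz x
        have h1 : g * x * g⁻¹ = x := by
          have := Subgroup.mem_center_iff.1 hgz x
          rw [← this]
          group
        rw [h1]
      obtain ⟨-, h2, h3, h4⟩ := hFr ℓ F hF H N2 N hN2 hN hN2N e he hp b hb0 hb hbe (stabF b)
        (fun g => Iff.rfl)
      rw [h4]
      have hnorm : (N.subgroupOf (stabF b)).Normal := hN.subgroupOf _
      have hmu := mus3 (stabF b) hZT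
      have hgood : GoodP ℓ F (N.subgroupOf (stabF b)) := hg.subgroupOf (stabF b) le_rfl
      have h5 : YH ℓ F (N.subgroupOf (stabF b)) := by
        rcases lt_or_eq_of_le hmu with h | h
        · exact hltN _ _ hnorm h hgood
        · refine ihn (Nat.card (stabF b)) ?_ (stabF b) (N.subgroupOf (stabF b)) hnorm
            (by rw [h, hm]) hgood rfl
          rw [← hn]
          have h6 := Subgroup.card_le_card_group (stabF b)
          exact lt_of_le_of_ne h6 fun h7 => hT (Subgroup.eq_top_of_card_eq _ h7)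
      rw [h5 _ h2 h3, mul_zero]
    -- the stable case
    have hbc : IsCl b := by
      intro x y
      have : y ∈ stabF b := by rw [hT]; exact Subgroup.mem_top y
      exact this x
    have hebe : mulF e b = e := mul_stable hb0 hb hbc he hbe
    by_cases hd : PrC ℓ (fun t : N2 => b t)
    · by_cases h2 : N2 = N
      · exfalso
        apply hez
        subst h2
        refine pos_dzb he.1 hp hebe hb0 (fun q _ x => hbc x q) ?_
        intro x hx hdiv
        have := hd.2 ⟨x, hx⟩ (by rw [card_cent]; exact hdiv)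
        exact this
      · obtain ⟨D, _, _, W, M', φ, ψ, f, p1, p2, d1, d2, d3, d4, d5, d6, d7, d8, d9, d10⟩ :=
          hDz ℓ F hF H N2 N b e ⟨hN2, hbc, hb0, hb, hd⟩ hN hN2N he.1 hebe hp
        have hmu : mu M' < mu N := by
          have h3 : mu M' ≤ W.relIndex M' := by
            unfold mu
            apply Nat.le_of_dvd
            · apply Nat.pos_of_ne_zero
              exact Subgroup.index_ne_zero_of_finite
            · exact Subgroup.relIndex_dvd_of_le_left M' d1
          rw [d7] at h3
          exact lt_of_le_of_lt h3 (mus2 h2)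
        have hgood : GoodP ℓ F M' := by
          refine hg.trans (fun S _ hS hI => ?_) (fun A S _ _ T hT hI => ?_)
          swap
          · have h3 : Involves (H ⧸ N2) A :=
              hT.involves_central ψ (by rw [p2]; exact d1) hI
            exact h3.of_surjective (QuotientGroup.mk' N2) (QuotientGroup.mk'_surjective _)
          have h4 : Involves (N ⧸ N2.subgroupOf N) S := by
            refine hI.of_central hS φ ?_
            rw [d6]
            intro x hx
            rw [Subgroup.mem_center_iff]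
            intro y
            have hx' : (x : D) ∈ Subgroup.center D := d1 hx
            exact Subtype.ext (Subgroup.mem_center_iff.1 hx' y)
          exact h4.of_surjective (QuotientGroup.mk' (N2.subgroupOf N))
            (QuotientGroup.mk'_surjective _)
        have h5 := hltN D M' d3 hmu hgood f d8 d9
        rw [h5, mul_zero] at d10
        rcases mul_eq_zero.1 d10 with h6 | h6
        · exfalso
          have : Nat.card W ≠ 0 := Nat.card_pos.ne'
          exact this (by exact_mod_cast h6)
        · exact h6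
    -- positive over `N2`
    have hpos2 : Pos ℓ e N2 := by
      refine (hPs3 ℓ F hF H N2 hN2 (fun t : N2 => b t) hb ?_ e he.1 ?_).1 ?_
      · rw [ext0_restr hb0]; exact hT
      · rw [ext0_restr hb0]; exact hebe
      · intro h
        exact hd (prC_of_DZ h hb.1.1)
    by_cases h2 : N2 = N
    · subst h2
      by_cases hs : IsSimpleGroup (N2 ⧸ (Subgroup.center H).subgroupOf N2)
      · refine hS1 ℓ F hF H N2 hN hO ⟨hs, ?_⟩ hg hltN e he.1 hp
        push Not at hab
        obtain ⟨x, hx, y, hy, hxy⟩ := hab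
        refine ⟨QuotientGroup.mk ⟨x, hx⟩, QuotientGroup.mk ⟨y, hy⟩, ?_⟩
        intro h
        apply hxy
        have h3 : (QuotientGroup.mk ((⟨x, hx⟩ : N2) * ⟨y, hy⟩ * (⟨x, hx⟩ : N2)⁻¹ *
            (⟨y, hy⟩ : N2)⁻¹) : N2 ⧸ (Subgroup.center H).subgroupOf N2) = 1 := by
          rw [QuotientGroup.mk_mul, QuotientGroup.mk_mul, QuotientGroup.mk_mul, h,
            QuotientGroup.mk_inv, QuotientGroup.mk_inv]
          group
        exact Subgroup.mem_subgroupOf.1 ((QuotientGroup.eq_one_iff
          (N := (Subgroup.center H).subgroupOf N2) _).1 h3)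
      · refine hR2 ℓ F hF H N2 hCh hO ?_ hs hg hltN e he hp (fun t : N2 => b t) hb ?_ ?_
        · push Not at hab
          exact hab
        · rw [ext0_restr hb0]; exact hT
        · rw [ext0_restr hb0]; exact hebe
    · -- relative chain reduction
      have h3 := hRcn ℓ H N N2 hN hN2 hN2N
        (fun X => (Nat.card X : ℤ) * (lnum X e : ℤ))
      have h4 : YY ℓ N e = ∑ d ∈ chainsOn (psubIn ℓ N) ⊥, (-1) ^ (d.card + 1) *
          (fun X : Subgroup H => (Nat.card X : ℤ) * (lnum X e : ℤ)) (stab d) := rfl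
      rw [h4, h3]
      refine Finset.sum_eq_zero fun c hc => ?_
      rw [Finset.mem_filter] at hc
      obtain ⟨hc1, hc2, hc3⟩ := hc
      have hcm := mem_chainsOn.1 hc1
      have hctop : c ∈ chainsOn (psubIn ℓ (⊤ : Subgroup H)) ⊥ := by
        rw [mem_chainsOn]
        refine ⟨fun D hD => ?_, hcm.2⟩
        rw [mem_psubIn]
        exact ⟨le_top, (mem_psubIn.1 (hcm.1 hD)).2⟩
      rw [hTrn ℓ F hF H N2 hN2 e he.1 c hctop hc2]
      obtain ⟨t1, t2⟩ := top_mem hc1
      have htp : IsPGroup ℓ (top c) := (mem_psubIn.1 (hcm.1 t1)).2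
      have hX1 : Subgroup.centralizer ((top c : Subgroup H) : Set H) ≤ stab c := by
        intro g hgc
        rw [mem_stab]
        intro D hD
        have h5 : g ∈ Subgroup.centralizer ((D : Subgroup H) : Set H) :=
          Subgroup.centralizer_le (t2 D hD) hgc
        rw [← mem_normalizer_iff_conjS]
        · rw [Subgroup.mem_normalizer_iff]
          intro x
          constructor
          · intro hx
            have := Subgroup.mem_centralizer_iff.1 h5 x hx
            rw [← this, mul_inv_cancel_right]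
            exact hx
          · intro hx
            have := Subgroup.mem_centralizer_iff.1 h5 _ hx
            have h7 : x = g * x * g⁻¹ := by
              have h8 : g * x * g⁻¹ * g = g * (g * x * g⁻¹) := this
              rw [inv_mul_cancel_right] at h8
              exact mul_left_cancel h8
            rw [h7]
            exact hx
      have hX2 : stab c ≤ Subgroup.normalizer ((top c : Subgroup H) : Set H) := by
        unfold stab
        exact iInf₂_le (top c) t1
      have hidem : IsIdem (fun t : stab c => br (top c) e t) :=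
        (hBrm ℓ F hF H (top c) (stab c) htp hX1 hX2).2.2 e he.1
      have hposc : Pos ℓ (fun t : stab c => br (top c) e t)
          ((cent N2 c).subgroupOf (stab c)) := by
        rw [cent_eq hc1]
        exact hPs1 ℓ F hF H (top c) N2 htp hN2 (hc3 _ t1) e he.1 hpos2 (stab c) hX1 hX2
      have hnorm : ((cent N2 c).subgroupOf (stab c)).Normal := by
        constructor
        intro x hx g
        rw [Subgroup.mem_subgroupOf] at hx ⊢
        exact Pool.Agent.Helper79_WRA.H46.conj_mem_cent hN2 g.2 hx
      have hcle : cent N2 c ≤ N2 := inf_le_left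
      have hZX : Subgroup.center H ≤ stab c :=
        (Subgroup.center_le_centralizer _).trans hX1
      have hmu : mu ((cent N2 c).subgroupOf (stab c)) < mu N :=
        lt_of_le_of_lt (mus4 (stab c) (cent N2 c) hZX hcle) (mus1 h2)
      have h7 := hltN _ _ hnorm hmu (hg.subgroupOf (stab c) (hcle.trans hN2N)) _ hidem hposc
      rw [h7, mul_zero]
  intro H _ _ N hN hg
  exact key (mu N) H N hN rfl hg

end Pool.Agent.PP.H46
end
end -- Pool.Agent.Helper46_PP.Top

section -- Pool.Agent.Helper96_PP.Fnl

/-!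
# Squad PP, module FNL: the end of the proof of S1, in the group `D`
-/

open scoped BigOperators

noncomputable section

namespace Pool.Agent.PP.H96

open Pool.Agent.Helper51_AWC Pool.Agent.Helper79_WRA Pool.Agent.Helper79_WRA.H91 Pool.Agent.PP

/-- the centraliser of a chain stabilises it -/
theorem centralizer_top_le {G : Type} [Group G] {c : Finset (Subgroup G)}
    (hc : ∀ D ∈ c, D ≤ top c) : Subgroup.centralizer ((top c : Subgroup G) : Set G) ≤ stab c := by
  intro g hgc
  rw [H94.mem_stab']
  intro D hD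
  have h5 : g ∈ Subgroup.centralizer ((D : Subgroup G) : Set G) :=
    Subgroup.centralizer_le (hc D hD) hgc
  rw [Subgroup.mem_normalizer_iff]
  intro x
  constructor
  · intro hx
    have := Subgroup.mem_centralizer_iff.1 h5 x hx
    rw [← this, mul_inv_cancel_right]
    exact hx
  · intro hx
    have := Subgroup.mem_centralizer_iff.1 h5 _ hx
    have h7 : x = g * x * g⁻¹ := by
      have h8 : g * x * g⁻¹ * g = g * (g * x * g⁻¹) := this
      rw [inv_mul_cancel_right] at h8
      exact mul_left_cancel h8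
    rw [h7]
    exact hx

/-- The relative sum is the full sum when the groups `C_M(P)`, `P ≠ 1`, do not contribute. -/
theorem rel_eq_top {ℓ : ℕ} [Fact ℓ.Prime] {F : Type} [Field F] (hF : GoodF ℓ F) {D : Type}
    [Group D] [Finite D] (M : Subgroup D) (hM : M.Normal) (f : D → F) (hf : IsIdem f)
    (h : ∀ c ∈ chainsOn (psubIn ℓ (⊤ : Subgroup D)) ⊥, NormalChain c → top c ⊓ M = ⊥ →
      top c ≠ ⊥ → YY ℓ ((cent M c).subgroupOf (stab c)) (fun t : stab c => br (top c) f t) = 0) :
    YY ℓ ⊤ f = YY ℓ M f := by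
  classical
  have h3 := rcn ℓ D ⊤ M inferInstance hM le_top (fun X => (Nat.card X : ℤ) * (lnum X f : ℤ))
  have h4 : YY ℓ ⊤ f = ∑ d ∈ chainsOn (psubIn ℓ (⊤ : Subgroup D)) ⊥, (-1) ^ (d.card + 1) *
      (fun X : Subgroup D => (Nat.card X : ℤ) * (lnum X f : ℤ)) (stab d) := rfl
  rw [h4, h3]
  have hb : ({⊥} : Finset (Subgroup D)) ∈ (chainsOn (psubIn ℓ (⊤ : Subgroup D)) ⊥).filter
      (fun c => NormalChain c ∧ ∀ E ∈ c, E ⊓ M = ⊥) := by
    rw [Finset.mem_filter, mem_chainsOn]
    refine ⟨⟨?_, Finset.mem_singleton_self _, ?_⟩, ?_, ?_⟩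
    · intro E hE
      rw [Finset.mem_singleton] at hE
      rw [hE, mem_psubIn]
      exact ⟨bot_le, IsPGroup.of_bot⟩
    · rw [Finset.coe_singleton]
      exact Set.Subsingleton.isChain Set.subsingleton_singleton
    · intro E hE
      rw [Finset.mem_singleton] at hE
      rw [hE]
      intro x _
      rw [Subgroup.mem_normalizer_iff]
      intro y
      rw [Subgroup.mem_bot, Subgroup.mem_bot, mul_inv_eq_one, mul_eq_left]
    · intro E hE
      rw [Finset.mem_singleton] at hE
      rw [hE, bot_inf_eq]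
  rw [Finset.sum_eq_single_of_mem _ hb]
  · have hcent : cent M ({⊥} : Finset (Subgroup D)) = M := by
      have hbz : Subgroup.centralizer ((⊥ : Subgroup D) : Set D) = ⊤ := by
        ext x
        simp [Subgroup.mem_centralizer_iff]
      apply le_antisymm inf_le_left
      apply le_inf le_rfl
      refine le_iInf₂ fun E hE => ?_
      rw [Finset.mem_singleton] at hE
      rw [hE, hbz]
      exact le_top
    have hs : stab ({⊥} : Finset (Subgroup D)) = ⊤ := by
      ext g
      rw [mem_stab]
      simp only [Finset.mem_singleton, forall_eq, Subgroup.mem_top, iff_true]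
      unfold conjS
      exact Subgroup.map_bot _
    unfold Helper79_WRA.tsum
    rw [hcent, hs, Finset.card_singleton]
    simp only [top_inf_eq]
    rw [YY]
    norm_num
  · intro c hc hcb
    rw [Finset.mem_filter] at hc
    obtain ⟨hc1, hc2, hc3⟩ := hc
    have hcm := mem_chainsOn.1 hc1
    obtain ⟨t1, t2⟩ := H94.top_mem hcm.2.2 ⟨_, hcm.2.1⟩
    have htop : top c ≠ ⊥ := by
      intro ht
      apply hcb
      ext E
      rw [Finset.mem_singleton]
      constructor
      · intro hE
        rw [← le_bot_iff, ← ht]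
        exact t2 E hE
      · intro hE
        rw [hE]
        exact hcm.2.1
    rw [trn H20.nls ℓ F hF D M hM f hf c hc1 hc2, h c hc1 hc2 (hc3 _ t1) htop, mul_zero]

/-- FNL -/
theorem fnl : H67.FnlStmt := by
  intro ℓ _ F _ hF D _ _ M hM hCM hZ hZM hg hlt f hf hp htop
  have h0 : YY ℓ ⊤ f = 0 := htop (H94.pos2 ℓ F hF D M hM f hf hp)
  rw [← rel_eq_top hF M hM f hf, h0]
  intro c hc1 hc2 hc3 hc4
  have hcm := mem_chainsOn.1 hc1
  obtain ⟨t1, t2⟩ := H94.top_mem hcm.2.2 ⟨_, hcm.2.1⟩
  have htp : IsPGroup ℓ (top c) := (mem_psubIn.1 (hcm.1 t1)).2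
  have hX1 := centralizer_top_le t2
  have hX2 : stab c ≤ Subgroup.normalizer ((top c : Subgroup D) : Set D) := by
    intro x hx
    exact (H94.mem_stab'.1 hx) _ t1
  have hidem : IsIdem (fun t : stab c => br (top c) f t) :=
    (H20.brm ℓ F hF D (top c) (stab c) htp hX1 hX2).2.2 f hf
  have hcent : cent M c = Subgroup.centralizer ((top c : Subgroup D) : Set D) ⊓ M :=
    H46.cent_eq hc1 M
  have hposc : Pos ℓ (fun t : stab c => br (top c) f t) ((cent M c).subgroupOf (stab c)) := by
    rw [hcent]
    exact H66.ps1 ℓ F hF D (top c) M htp hM hc3 f hf hp (stab c) hX1 hX2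
  have hnorm : ((cent M c).subgroupOf (stab c)).Normal := by
    constructor
    intro x hx g
    rw [Subgroup.mem_subgroupOf] at hx ⊢
    exact Pool.Agent.Helper79_WRA.H46.conj_mem_cent hM g.2 hx
  have hcle : cent M c ≤ M := inf_le_left
  have hZX : Subgroup.center D ≤ stab c :=
    (Subgroup.center_le_centralizer _).trans hX1
  have hZc : Subgroup.center D ≤ cent M c := by
    rw [hcent]
    exact le_inf (Subgroup.center_le_centralizer _) hZM
  have hlt' : cent M c < M := by
    refine lt_of_le_of_ne hcle ?_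
    intro h
    apply hc4
    -- `P` centralises `M`, so `P ≤ Z(D)` is an `ℓ'`-group
    have h1 : top c ≤ Subgroup.center D := by
      rw [← hCM]
      intro x hx
      rw [Subgroup.mem_centralizer_iff]
      intro y hy
      have h2 : y ∈ cent M c := by rw [h]; exact hy
      exact ((H91.mem_cent.1 h2).2 _ t1 x hx).symm
    have h2 : Nat.card (top c) ∣ Nat.card (Subgroup.center D) := Subgroup.card_dvd_of_le h1
    by_contra hne
    have h3 : Nontrivial (top c) := (Subgroup.nontrivial_iff_ne_bot _).2 hne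
    obtain ⟨n, hn, hn'⟩ := htp.nontrivial_iff_card.1 h3
    apply hZ
    refine dvd_trans ?_ h2
    rw [hn']
    exact dvd_pow_self _ hn.ne'
  have hmu : mu ((cent M c).subgroupOf (stab c)) < mu M := by
    have h1 : mu ((cent M c).subgroupOf (stab c)) ≤ (Subgroup.center D).relIndex (cent M c) := by
      have h2 : ((Subgroup.center D).subgroupOf (stab c)) ≤ Subgroup.center (stab c) := by
        intro x hx
        rw [Subgroup.mem_center_iff]
        intro y
        exact Subtype.ext (Subgroup.mem_center_iff.1 hx y)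
      have h3 : ((Subgroup.center D).subgroupOf (stab c)).relIndex
          ((cent M c).subgroupOf (stab c)) = (Subgroup.center D).relIndex (cent M c) :=
        Subgroup.relIndex_subgroupOf (hcent ▸ (inf_le_left.trans hX1))
      unfold mu
      rw [← h3]
      apply Nat.le_of_dvd
      · exact Nat.pos_of_ne_zero Subgroup.index_ne_zero_of_finite
      · exact Subgroup.relIndex_dvd_of_le_left _ h2
    refine lt_of_le_of_lt h1 ?_
    unfold mu
    have h4 := Subgroup.relIndex_mul_relIndex _ _ _ hZc hcle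
    have h5 : (cent M c).relIndex M ≠ 1 := by
      intro h6
      rw [Subgroup.relIndex_eq_one] at h6
      exact absurd h6 (not_le_of_gt hlt')
    have h6 : (cent M c).relIndex M ≠ 0 := Subgroup.index_ne_zero_of_finite
    have h7 : (Subgroup.center D).relIndex (cent M c) ≠ 0 := Subgroup.index_ne_zero_of_finite
    rw [← h4]
    have h8 : 2 ≤ (cent M c).relIndex M := by omega
    nlinarith [Nat.pos_of_ne_zero h7]
  exact hlt _ _ hnorm hmu (hg.subgroupOf _ hcle) _ hidem hposc

end Pool.Agent.PP.H96
end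
end -- Pool.Agent.Helper96_PP.Fnl

section -- Pool.Agent.Helper94_PP.Rel

/-!
# Squad PP, module REL: the relative form of the final theorem, step (R1)

If `GoodP` holds for `N ≤ G` and `e` is a central idempotent of `F G` with `Pos(e, N)`, then the
alternating sum over all chains of `ℓ`-subgroups of `G` vanishes (not only the one over the chains
of `N`).
-/

open scoped BigOperators

noncomputable section

namespace Pool.Agent.PP

open Pool.Agent.Helper51_AWC Pool.Agent.Helper79_WRA

/-- REL: the alternating sum over all chains of `G` vanishes if `e` is positive over a normal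
subgroup `N` for which `GoodP` holds. -/
def RelStmt : Prop := ∀ (ℓ : ℕ) [Fact ℓ.Prime] (F : Type) [Field F], GoodF ℓ F →
  ∀ (G : Type) [Group G] [Finite G] (N : Subgroup G), N.Normal → GoodP ℓ F N →
  ∀ e : G → F, IsIdem e → Pos ℓ e N → YY ℓ ⊤ e = 0

/-- REL with the hypothesis on the groups `D` with `Z(D) ≤ [D, D]` and outer part generated by two
elements. -/
def RelQStmt : Prop := ∀ (ℓ : ℕ) [Fact ℓ.Prime] (F : Type) [Field F], GoodF ℓ F →
  ∀ (G : Type) [Group G] [Finite G] (N : Subgroup G), N.Normal → GoodQ ℓ F N →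
  ∀ e : G → F, IsIdem e → Pos ℓ e N → YY ℓ ⊤ e = 0

namespace H94

open Pool.Agent.Helper79_WRA.H91

/-- REL from the main theorem. -/
theorem rel (hmain : MainStmt) : RelStmt := by
  intro ℓ _ F _ hF G _ _ N hN hg e he hp
  rw [H96.rel_eq_top hF N hN e he, hmain ℓ F hF G N hN hg e he hp]
  intro c hc1 hc2 hc3 _
  have hcm := mem_chainsOn.1 hc1
  obtain ⟨t1, t2⟩ := H94.top_mem hcm.2.2 ⟨_, hcm.2.1⟩
  have htp : IsPGroup ℓ (top c) := (mem_psubIn.1 (hcm.1 t1)).2
  have hX1 := H96.centralizer_top_le t2
  have hX2 : stab c ≤ Subgroup.normalizer ((top c : Subgroup G) : Set G) := by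
    intro x hx
    exact (H94.mem_stab'.1 hx) _ t1
  have hidem : IsIdem (fun t : stab c => br (top c) e t) :=
    (H20.brm ℓ F hF G (top c) (stab c) htp hX1 hX2).2.2 e he
  have hcent : cent N c = Subgroup.centralizer ((top c : Subgroup G) : Set G) ⊓ N :=
    H46.cent_eq hc1 N
  have hposc : Pos ℓ (fun t : stab c => br (top c) e t) ((cent N c).subgroupOf (stab c)) := by
    rw [hcent]
    exact H66.ps1 ℓ F hF G (top c) N htp hN hc3 e he hp (stab c) hX1 hX2
  have hnorm : ((cent N c).subgroupOf (stab c)).Normal := by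
    constructor
    intro x hx g
    rw [Subgroup.mem_subgroupOf] at hx ⊢
    exact Pool.Agent.Helper79_WRA.H46.conj_mem_cent hN g.2 hx
  exact hmain ℓ F hF _ _ hnorm (hg.subgroupOf _ inf_le_left) _ hidem hposc

/-- REL for `GoodQ`. -/
theorem relQ (hmain : MainStmt) (hv : VStmt) (hstm : StmStmt) : RelQStmt := by
  intro ℓ _ F _ hF G _ _ N hN hg e he hp
  exact rel hmain ℓ F hF G N hN (hv ℓ F hF G N hN (hstm ℓ F hF G N hN hg)) e he hp

end H94

end Pool.Agent.PP
end
end -- Pool.Agent.Helper94_PP.Rel

section -- Pool.Agent.Helper94_PP.LemP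

/-!
# Squad PP, the relative form of the final theorem, step (R2)

If all blocks `b` of the subgroup `N` with `e b ≠ 0` are positive, then `Pos(e, N)` holds.
-/

open scoped BigOperators

noncomputable section

namespace Pool.Agent.PP.H94

open Pool.Agent.Helper51_AWC Pool.Agent.Helper79_WRA Pool.Agent.PP

section lemp

variable {F G : Type} [Field F] [Group G]

/-- the order of the centraliser of an element of `N` in `N` -/
theorem card_cent_sub {N : Subgroup G} {x : G} (hx : x ∈ N) :
    Nat.card (Subgroup.centralizer ({(⟨x, hx⟩ : N)} : Set N) ⊓ ⊤ : Subgroup N) =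
      Nat.card (Subgroup.centralizer ({x} : Set G) ⊓ N : Subgroup G) := by
  refine Nat.card_congr
    { toFun := fun y => ⟨y.1.1, ?_⟩
      invFun := fun y => ⟨⟨y.1, y.2.2⟩, ?_⟩
      left_inv := fun y => rfl
      right_inv := fun y => rfl }
  · have h := Subgroup.mem_inf.1 y.2
    rw [Subgroup.mem_centralizer_singleton_iff] at h
    rw [Subgroup.mem_inf, Subgroup.mem_centralizer_singleton_iff]
    exact ⟨congrArg Subtype.val h.1, y.1.2⟩
  · have h := Subgroup.mem_inf.1 y.2
    rw [Subgroup.mem_centralizer_singleton_iff] at h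
    rw [Subgroup.mem_inf, Subgroup.mem_centralizer_singleton_iff]
    exact ⟨Subtype.ext h.1, Subgroup.mem_top _⟩

/-- the class sum of an element of `N` is the extension of the class sum in the group `N` -/
theorem ext0_clsum {N : Subgroup G} {x : G} (hx : x ∈ N) :
    ext0 N (clsum F (⊤ : Subgroup N) ⟨x, hx⟩) = clsum F N x := by
  classical
  funext y
  by_cases hy : y ∈ N
  · rw [H46.ext0_of_mem _ hy]
    unfold clsum
    have hiff : (∃ q ∈ (⊤ : Subgroup N), (⟨y, hy⟩ : N) = q * ⟨x, hx⟩ * q⁻¹) ↔
        ∃ q ∈ N, y = q * x * q⁻¹ := by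
      constructor
      · rintro ⟨q, _, h⟩
        exact ⟨q, q.2, congrArg Subtype.val h⟩
      · rintro ⟨q, hq, h⟩
        exact ⟨⟨q, hq⟩, Subgroup.mem_top _, Subtype.ext h⟩
    by_cases h : ∃ q ∈ N, y = q * x * q⁻¹
    · rw [if_pos h, if_pos (hiff.2 h)]
    · rw [if_neg h, if_neg (fun h' => h (hiff.1 h'))]
  · rw [H46.ext0_of_not_mem _ hy]
    unfold clsum
    rw [if_neg]
    rintro ⟨q, hq, rfl⟩
    exact hy (mul_mem (mul_mem hq hx) (inv_mem hq))

theorem ext0_zero' (N : Subgroup G) : ext0 N (0 : N → F) = 0 := by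
  funext x
  by_cases hx : x ∈ N
  · rw [H46.ext0_of_mem _ hx]; rfl
  · rw [H46.ext0_of_not_mem _ hx]; rfl

variable [Finite G]

/-- iterates of the multiplication by an extended element -/
theorem ext0_iter {N : Subgroup G} (a b : N → F) (n : ℕ) :
    ext0 N ((mulF a)^[n] b) = (mulF (ext0 N a))^[n] (ext0 N b) := by
  induction n with
  | zero => rfl
  | succ n ih =>
    rw [Function.iterate_succ_apply', Function.iterate_succ_apply', H46.ext0_mul, ih]

/-- iterates of the multiplication commute with the multiplication by a central element -/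
theorem mul_iter {e : G → F} (he : IsCl e) (a b : G → F) (n : ℕ) :
    (mulF a)^[n] (mulF e b) = mulF e ((mulF a)^[n] b) := by
  induction n with
  | zero => rfl
  | succ n ih =>
    rw [Function.iterate_succ_apply', Function.iterate_succ_apply', ih, ← mulF_assoc, ← mulF_assoc,
      H46.mulF_comm he a]

theorem iter_zero' (a : G → F) (n : ℕ) : (mulF a)^[n] (0 : G → F) = 0 := by
  induction n with
  | zero => rfl
  | succ n ih => rw [Function.iterate_succ_apply', ih, H46.mulF_zero]

theorem iter_add' (a b c : G → F) (n : ℕ) :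
    (mulF a)^[n] (b + c) = (mulF a)^[n] b + (mulF a)^[n] c := by
  induction n with
  | zero => rfl
  | succ n ih =>
    rw [Function.iterate_succ_apply', Function.iterate_succ_apply', Function.iterate_succ_apply',
      ih, H46.mulF_add]

theorem iter_mono {a b : G → F} {n m : ℕ} (h : (mulF a)^[n] b = 0) (hm : n ≤ m) :
    (mulF a)^[m] b = 0 := by
  obtain ⟨k, rfl⟩ := Nat.exists_eq_add_of_le hm
  rw [add_comm, Function.iterate_add_apply, h, iter_zero']

/-- (R2): if all blocks of `N` under `e` are positive, then `e` is positive over `N`. -/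
theorem pos_of_blocks (ℓ : ℕ) (N : Subgroup G) (e : G → F) (he : IsCl e)
    (h : ∀ b : N → F, IsBlk b → mulF e (ext0 N b) ≠ 0 → Pos ℓ b ⊤) : Pos ℓ e N := by
  intro x hx hd
  have key : ∀ g : N → F, IsIdem g →
      ∃ n : ℕ, (mulF (clsum F N x))^[n] (mulF e (ext0 N g)) = 0 := by
    apply H46.idem_induction
    · refine ⟨0, ?_⟩
      rw [ext0_zero', H46.mulF_zero]
      rfl
    · intro b hb
      by_cases h0 : mulF e (ext0 N b) = 0
      · exact ⟨0, h0⟩
      · obtain ⟨n, hn⟩ := h b hb h0 ⟨x, hx⟩ (Subgroup.mem_top _)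
          (by rw [card_cent_sub hx]; exact hd)
        refine ⟨n, ?_⟩
        rw [mul_iter he, ← ext0_clsum hx, ← ext0_iter, hn, ext0_zero', H46.mulF_zero]
    · rintro e₁ e₂ _ _ _ ⟨n, hn⟩ ⟨m, hm⟩
      refine ⟨max n m, ?_⟩
      rw [H46.ext0_add, H46.mulF_add, iter_add', iter_mono hn (le_max_left _ _),
        iter_mono hm (le_max_right _ _), add_zero]
  obtain ⟨n, hn⟩ := key _ H46.isIdem_one
  refine ⟨n, ?_⟩
  rwa [H46.ext0_dl, H46.mulF_one] at hn

end lemp

end Pool.Agent.PP.H94
end
end -- Pool.Agent.Helper94_PP.LemP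

section -- Pool.Agent.Helper94_PP.LemQ

/-!
# Squad PP, the relative form of the final theorem, step (R3)

Let `N` be normal in `G`, let `χ` be an irreducible character of `G` over `ψ ∈ Irr(N)`, let `e` be
the block of `χ` and `b` the block of `ψ`.  Then all blocks `c` of `N` with `e c ≠ 0` are conjugate
to `b`; if `b` is positive, then `Pos(e, N)` holds.
-/

open scoped BigOperators

set_option linter.unusedSectionVars false

noncomputable section

namespace Pool.Agent.PP.H94

open Pool.Agent.Helper51_AWC Pool.Agent.Helper79_WRA Pool.Agent.PP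
open Pool.Agent.PP.H75 (wC act_eq_wC res_eq_red res_mulF res_zero lf lf_integral red_lf Om Bd)

section restr

/-- irreducible characters are eigenfunctions of the convolution with a class function -/
theorem eig_conv {H : Type} [Group H] [Fintype H] {χ : H → ℂ} (hχ : χ ∈ Irr H) {A : H → ℂ}
    (hA : ∀ g h, A (h * g * h⁻¹) = A g) (x : H) :
    ∑ t, A t * χ (t * x) = wC A χ * χ x := by
  have h1 := irr_one_ne hχ
  obtain ⟨n, ρ, hρ, hch⟩ := hχ
  have h2 := act_eq_wC hρ hch h1 hA
  have h3 : LinearMap.trace ℂ (Fin n → ℂ) (act ρ A * ρ x) = ∑ t, A t * χ (t * x) := by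
    unfold act
    rw [Finset.sum_mul, map_sum]
    apply Finset.sum_congr rfl
    intro t _
    rw [smul_mul_assoc, ← map_mul, map_smul, smul_eq_mul, ← hch]
    rfl
  rw [← h3, h2, ← hch]
  have h4 : (wC A (ρ.character) • (LinearMap.id : (Fin n → ℂ) →ₗ[ℂ] (Fin n → ℂ))) * ρ x =
      wC A (ρ.character) • ρ x := by
    apply LinearMap.ext
    intro v
    rfl
  rw [h4, map_smul, smul_eq_mul]
  rfl

open scoped ComplexOrder in
/-- the complex conjugate of a character -/
theorem irr_star {H : Type} [Group H] [Finite H] {χ : H → ℂ} (hχ : χ ∈ Irr H) (g : H) :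
    starRingEnd ℂ (χ g) = χ g⁻¹ := by
  have := Fintype.ofFinite H
  obtain ⟨n, R, hR⟩ := irr_matrix hχ
  set P : Matrix (Fin n) (Fin n) ℂ := ∑ h, (R h).conjTranspose * R h with hP
  have hpos : P.PosDef := by
    apply Matrix.posDef_sum Finset.univ_nonempty
    intro h _
    apply Matrix.PosDef.conjTranspose_mul_self
    intro v w hvw
    have h1 := congrArg (fun u => (R h⁻¹).mulVec u) hvw
    simp only [Matrix.mulVec_mulVec, ← map_mul, inv_mul_cancel, map_one, Matrix.one_mulVec] at h1
    exact h1
  obtain ⟨U, hU⟩ := hpos.isUnit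
  have h1 : (R g).conjTranspose * P * R g = P := by
    rw [hP, Finset.mul_sum, Finset.sum_mul, ← Equiv.sum_comp (Equiv.mulRight g)
      (fun h => (R h).conjTranspose * R h)]
    apply Finset.sum_congr rfl
    intro h _
    rw [Equiv.coe_mulRight, map_mul, Matrix.conjTranspose_mul]
    simp only [Matrix.mul_assoc]
  have h2 : (R g).conjTranspose * P = P * R g⁻¹ := by
    calc (R g).conjTranspose * P = (R g).conjTranspose * P * (R g * R g⁻¹) := by
          rw [← map_mul, mul_inv_cancel, map_one, Matrix.mul_one]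
      _ = ((R g).conjTranspose * P * R g) * R g⁻¹ := (Matrix.mul_assoc _ _ _).symm
      _ = P * R g⁻¹ := by rw [h1]
  have h3 : (R g).conjTranspose = P * R g⁻¹ * (U⁻¹ : (Matrix (Fin n) (Fin n) ℂ)ˣ) := by
    rw [← h2, ← hU, Matrix.mul_assoc, Units.mul_inv, Matrix.mul_one]
  have h4 : ((R g).conjTranspose).trace = (R g⁻¹).trace := by
    rw [h3, ← hU, Matrix.trace_mul_comm, ← Matrix.mul_assoc, Units.inv_mul, Matrix.one_mul]
  rw [Matrix.trace_conjTranspose, hR, hR] at h4
  exact h4

variable {G : Type} [Group G]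

/-- the central characters of `χ` and of a constituent `ψ` of the restriction of `χ` to a normal
subgroup agree on the class functions supported on the subgroup -/
theorem wC_over [Fintype G] (N : Subgroup G) [Fintype N] {χ : G → ℂ} (hχ : χ ∈ Irr G) {ψ : N → ℂ}
    (hψ : ψ ∈ Irr N) (hover : (∑ n : N, χ n * ψ n⁻¹) ≠ 0) {A : G → ℂ}
    (hA : ∀ g h, A (h * g * h⁻¹) = A g) (hs : ∀ x, x ∉ N → A x = 0) :
    wC A χ = wC (fun t : N => A t) ψ := by
  classical
  have hA' : ∀ g h : N, (fun t : N => A t) (h * g * h⁻¹) = (fun t : N => A t) g :=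
    fun g h => hA g h
  apply mul_right_cancel₀ hover
  have e1 : ∀ x : G, ∑ t : N, A t * χ (t * x) = wC A χ * χ x := by
    intro x
    rw [← eig_conv hχ hA x]
    have e2 : ∑ t : G, A t * χ (t * x) =
        ∑ t ∈ Finset.univ.filter (fun t : G => t ∈ N), A t * χ (t * x) := by
      symm
      apply Finset.sum_subset (Finset.filter_subset _ _)
      intro t _ ht
      rw [Finset.mem_filter, not_and] at ht
      rw [hs t (ht (Finset.mem_univ _)), zero_mul]
    rw [e2]
    symm
    apply Finset.sum_subtype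
    intro t
    rw [Finset.mem_filter]
    exact ⟨fun h => h.2, fun h => ⟨Finset.mem_univ _, h⟩⟩
  have e3 : ∀ y : N, ∑ t : N, A t * ψ (y⁻¹ * t) = wC (fun t : N => A t) ψ * ψ y⁻¹ := by
    intro y
    rw [← eig_conv hψ hA' y⁻¹]
    apply Finset.sum_congr rfl
    intro t _
    rw [irr_mul_comm hψ]
  calc wC A χ * ∑ n : N, χ n * ψ n⁻¹ = ∑ n : N, (wC A χ * χ n) * ψ n⁻¹ := by
        rw [Finset.mul_sum]
        exact Finset.sum_congr rfl fun n _ => (mul_assoc _ _ _).symm
    _ = ∑ n : N, ∑ t : N, A t * χ ((t * n : N) : G) * ψ n⁻¹ := by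
        apply Finset.sum_congr rfl
        intro n _
        rw [← e1, Finset.sum_mul]
        rfl
    _ = ∑ t : N, ∑ n : N, A t * χ ((t * n : N) : G) * ψ n⁻¹ := Finset.sum_comm
    _ = ∑ t : N, ∑ y : N, A t * χ (y : G) * ψ (y⁻¹ * t) := by
        apply Finset.sum_congr rfl
        intro t _
        rw [← Equiv.sum_comp (Equiv.mulLeft t) (fun y : N => A t * χ (y : G) * ψ (y⁻¹ * t))]
        apply Finset.sum_congr rfl
        intro n _
        rw [Equiv.coe_mulLeft, mul_inv_rev, inv_mul_cancel_right]
    _ = ∑ y : N, ∑ t : N, A t * χ (y : G) * ψ (y⁻¹ * t) := Finset.sum_comm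
    _ = ∑ y : N, wC (fun t : N => A t) ψ * (χ y * ψ y⁻¹) := by
        apply Finset.sum_congr rfl
        intro y _
        have e4 := e3 y
        calc ∑ t : N, A t * χ (y : G) * ψ (y⁻¹ * t) = χ (y : G) * ∑ t : N, A t * ψ (y⁻¹ * t) := by
              rw [Finset.mul_sum]
              exact Finset.sum_congr rfl fun t _ => by ring
          _ = _ := by rw [e4]; ring
    _ = wC (fun t : N => A t) ψ * ∑ n : N, χ n * ψ n⁻¹ := by rw [Finset.mul_sum]

variable {M : Ideal (integralClosure ℤ ℂ)} [Finite G]

/-- the residues of the central characters of `χ` and `ψ` agree on the class functions supported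
on `N` -/
theorem res_over [M.IsMaximal] (N : Subgroup G) (hN : N.Normal) {χ : G → ℂ} (hχ : χ ∈ Irr G)
    {ψ : N → ℂ} (hψ : ψ ∈ Irr N) (hover : (∑ᶠ n : N, χ n * ψ n⁻¹) ≠ 0) :
    letI := Ideal.Quotient.field M
    ∀ {a : G → FF M}, IsCl a → (∀ x, x ∉ N → a x = 0) →
      res M a χ = res M (fun t : N => a t) ψ := by
  classical
  let _ := Ideal.Quotient.field M
  intro a ha hs
  have := Fintype.ofFinite G
  have := Fintype.ofFinite N
  set A : G → ℂ := fun g => if g ∈ N then lf M (a g) else 0 with hA
  have hA1 : ∀ g h, A (h * g * h⁻¹) = A g := by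
    intro g h
    change (if h * g * h⁻¹ ∈ N then lf M (a (h * g * h⁻¹)) else 0) = if g ∈ N then lf M (a g) else 0
    by_cases hg : g ∈ N
    · rw [if_pos hg, if_pos (hN.conj_mem g hg h), ha]
    · rw [if_neg hg, if_neg]
      intro h'
      apply hg
      have := hN.conj_mem _ h' h⁻¹
      have e : h⁻¹ * (h * g * h⁻¹) * h⁻¹⁻¹ = g := by group
      rwa [e] at this
  have hA2 : ∀ g, IsIntegral ℤ (A g) := by
    intro g
    change IsIntegral ℤ (if g ∈ N then lf M (a g) else 0)
    split_ifs
    · exact lf_integral _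
    · exact isIntegral_zero
  have hA3 : ∀ g, red M (A g) = a g := by
    intro g
    change red M (if g ∈ N then lf M (a g) else 0) = a g
    by_cases hg : g ∈ N
    · rw [if_pos hg, red_lf]
    · rw [if_neg hg, hs g hg, red_zero]
  obtain ⟨_, r1⟩ := res_eq_red hχ hA1 hA2 a hA3
  obtain ⟨_, r2⟩ := res_eq_red hψ (A := fun t : N => A t) (fun g h => hA1 g h) (fun g => hA2 g)
    (fun t : N => a t) (fun g => hA3 g)
  rw [finsum_eq_sum_of_fintype] at hover
  rw [r1, r2, wC_over N hχ hψ hover hA1 (fun x hx => if_neg hx)]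

end restr

section conj

variable {F G : Type} [Field F] [Group G] [Finite G]

/-- conjugation as an automorphism of a normal subgroup -/
theorem card_cent_conj {H : Type} [Group H] (θ : MulAut H) (x : H) :
    Nat.card (Subgroup.centralizer ({θ x} : Set H) ⊓ ⊤ : Subgroup H) =
      Nat.card (Subgroup.centralizer ({x} : Set H) ⊓ ⊤ : Subgroup H) := by
  refine Nat.card_congr
    { toFun := fun y => ⟨θ.symm y.1, ?_⟩
      invFun := fun y => ⟨θ y.1, ?_⟩
      left_inv := fun y => Subtype.ext (θ.apply_symm_apply _)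
      right_inv := fun y => Subtype.ext (θ.symm_apply_apply _) }
  · have h := (Subgroup.mem_inf.1 y.2).1
    rw [Subgroup.mem_centralizer_singleton_iff] at h
    rw [Subgroup.mem_inf, Subgroup.mem_centralizer_singleton_iff]
    refine ⟨?_, Subgroup.mem_top _⟩
    apply θ.injective
    rw [map_mul, map_mul, θ.apply_symm_apply, h]
  · have h := (Subgroup.mem_inf.1 y.2).1
    rw [Subgroup.mem_centralizer_singleton_iff] at h
    rw [Subgroup.mem_inf, Subgroup.mem_centralizer_singleton_iff]
    exact ⟨by rw [← map_mul, h, map_mul], Subgroup.mem_top _⟩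

theorem clsum_aut {H : Type} [Group H] (θ : MulAut H) (x y : H) :
    clsum F ⊤ (θ x) (θ y) = clsum F ⊤ x y := by
  classical
  unfold clsum
  have hiff : (∃ q ∈ (⊤ : Subgroup H), θ y = q * θ x * q⁻¹) ↔
      ∃ q ∈ (⊤ : Subgroup H), y = q * x * q⁻¹ := by
    constructor
    · rintro ⟨q, _, h⟩
      refine ⟨θ.symm q, Subgroup.mem_top _, ?_⟩
      apply θ.injective
      rw [h, map_mul, map_mul, map_inv, θ.apply_symm_apply]
    · rintro ⟨q, _, rfl⟩
      exact ⟨θ q, Subgroup.mem_top _, by rw [map_mul, map_mul, map_inv]⟩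
  by_cases h : ∃ q ∈ (⊤ : Subgroup H), y = q * x * q⁻¹
  · rw [if_pos h, if_pos (hiff.2 h)]
  · rw [if_neg h, if_neg (fun h' => h (hiff.1 h'))]

theorem mulF_aut {H : Type} [Group H] (θ : MulAut H) (a b : H → F) (x : H) :
    mulF a b (θ x) = mulF (fun y => a (θ y)) (fun y => b (θ y)) x := by
  unfold mulF
  rw [← finsum_comp_equiv θ.toEquiv]
  apply finsum_congr
  intro t
  change a (θ t) * b ((θ t)⁻¹ * θ x) = a (θ t) * b (θ (t⁻¹ * x))
  rw [map_mul, map_inv]

/-- positivity is invariant under automorphisms -/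
theorem pos_aut {H : Type} [Group H] {ℓ : ℕ} (θ : MulAut H) {b : H → F} (h : Pos ℓ b ⊤) :
    Pos ℓ (fun y => b (θ y)) ⊤ := by
  intro x _ hd
  rw [← card_cent_conj θ x] at hd
  obtain ⟨n, hn⟩ := h (θ x) (Subgroup.mem_top _) hd
  refine ⟨n, ?_⟩
  have key : ∀ (n : ℕ) (y : H), (mulF (clsum F ⊤ x))^[n] (fun y => b (θ y)) y =
      (mulF (clsum F ⊤ (θ x)))^[n] b (θ y) := by
    intro n
    induction n with
    | zero => intro y; rfl
    | succ n ih =>
      intro y
      rw [Function.iterate_succ_apply', Function.iterate_succ_apply', mulF_aut]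
      have e1 : (fun y => clsum F ⊤ (θ x) (θ y)) = clsum F ⊤ x := funext fun y => clsum_aut θ x y
      have e2 : (fun y => (mulF (clsum F ⊤ (θ x)))^[n] b (θ y)) =
          (mulF (clsum F ⊤ x))^[n] (fun y => b (θ y)) := funext fun y => (ih y).symm
      rw [e1, e2]
  funext y
  rw [key, hn]
  rfl

/-- conjugation by an element of the group on a normal subgroup -/
def cjN (N : Subgroup G) (hN : N.Normal) (g : G) : MulAut N where
  toFun t := ⟨g * t * g⁻¹, hN.conj_mem _ t.2 g⟩
  invFun t := ⟨g⁻¹ * t * g, by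
    have := hN.conj_mem _ t.2 g⁻¹
    rwa [inv_inv] at this⟩
  left_inv t := Subtype.ext (by
    change g⁻¹ * (g * t * g⁻¹) * g = t
    group)
  right_inv t := Subtype.ext (by
    change g * (g⁻¹ * t * g) * g⁻¹ = t
    group)
  map_mul' s t := Subtype.ext (by
    change g * (s * t) * g⁻¹ = g * s * g⁻¹ * (g * t * g⁻¹)
    group)

/-- blocks are mapped to blocks by automorphisms -/
theorem isBlk_aut {H : Type} [Group H] (θ : MulAut H) {b : H → F} (hb : IsBlk b) :
    IsBlk (fun y => b (θ y)) := by
  have hid : ∀ (θ : MulAut H) (g : H → F), IsIdem g → IsIdem (fun y => g (θ y)) := by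
    intro θ g hg
    constructor
    · intro x y
      change g (θ (y * x * y⁻¹)) = g (θ x)
      rw [map_mul, map_mul, map_inv, hg.1]
    · funext x
      rw [← mulF_aut, hg.2]
  have hback : ∀ g : H → F, (fun y => (fun z => g (θ⁻¹ z)) (θ y)) = g := by
    intro g
    funext y
    change g (θ⁻¹ (θ y)) = g y
    rw [MulAut.inv_apply_self]
  refine ⟨hid θ b hb.1, ?_, ?_⟩
  · intro h0
    apply hb.2.1
    funext y
    have := congrFun h0 (θ⁻¹ y)
    change b (θ (θ⁻¹ y)) = 0 at this
    rwa [MulAut.apply_inv_self] at this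
  · intro g hg
    have h1 : ∀ x, mulF (fun y => b (θ y)) g x = mulF b (fun z => g (θ⁻¹ z)) (θ x) := by
      intro x
      rw [mulF_aut, hback]
    rcases hb.2.2 _ (hid θ⁻¹ g hg) with h2 | h2
    · left
      funext x
      rw [h1, h2]
    · right
      funext x
      rw [h1, h2]
      rfl

end conj

section lemq

variable {M : Ideal (integralClosure ℤ ℂ)} {G : Type} [Group G] [Finite G]

/-- (R3): the blocks of `N` under the block of `χ` are conjugate to the block of `ψ`. -/
theorem blk_over [M.IsMaximal] (N : Subgroup G) (hN : N.Normal) {χ : G → ℂ}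
    (hχ : χ ∈ Irr G) {ψ : N → ℂ} (hψ : ψ ∈ Irr N) (hover : (∑ᶠ n : N, χ n * ψ n⁻¹) ≠ 0) :
    letI := Ideal.Quotient.field M
    ∀ {e : G → FF M}, IsBlk e → res M e χ = 1 → ∀ {b : N → FF M}, IsBlk b → res M b ψ = 1 →
      ∀ c : N → FF M, IsBlk c → mulF e (ext0 N c) ≠ 0 → ∃ g : G, c = fun t => b (cjN N hN g t) := by
  classical
  let _ := Ideal.Quotient.field M
  intro e he he1 b hb hb1 c hc hec
  -- the block `b` as a function on `G`
  have hB : Bd N (ext0 N b) := ⟨hN, fun x hx => H46.ext0_of_not_mem _ hx, by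
    rw [H46.restr_ext0]; exact hb⟩
  have := Fintype.ofFinite (Om (ext0 N b))
  set h : G → FF M := fun x => ∑ f : Om (ext0 N b), f.1 x with hh
  have hidem : IsIdem h := hB.fam.isIdem
  have hsupp : ∀ x, x ∉ N → h x = 0 := by
    intro x hx
    exact Finset.sum_eq_zero fun f _ => hB.supp2 f x hx
  -- `h b = b`
  have hhb : mulF h (ext0 N b) = ext0 N b := by
    have := hB.fam.mul_sum Finset.univ (Finset.mem_univ (H75.omk (ext0 N b) 1))
    rw [H75.omk_one] at this
    exact this
  -- the residue of `h` at `χ` is one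
  have hN1 : IsIdem (fun t : N => h t) := by
    refine ⟨fun x y => hidem.1 _ _, ?_⟩
    rw [← H75.mulF_res N h hsupp, hidem.2]
  have h1 : mulF (fun t : N => h t) b = b := by
    have e1 := H75.mulF_res N (ext0 N b) hsupp
    rw [H46.restr_ext0, hhb, H46.restr_ext0] at e1
    exact e1.symm
  have h2 : res M (fun t : N => h t) ψ = 1 := by
    have e1 := res_mulF hψ hN1.1 hb.1.1
    rw [h1, hb1, mul_one] at e1
    exact e1.symm
  have h3 : res M h χ = 1 := by
    rw [res_over N hN hχ hψ hover hidem.1 hsupp, h2]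
  have h4 : mulF e h ≠ 0 := by
    intro h0
    have e1 := res_mulF hχ he.1.1 hidem.1
    rw [h0, res_zero, he1, h3, mul_one] at e1
    exact zero_ne_one e1
  have h5 : mulF e h = e := (he.2.2 h hidem).resolve_right h4
  -- `c` is not orthogonal to `h`
  have h6 : mulF h (ext0 N c) ≠ 0 := by
    intro h0
    apply hec
    rw [← h5, mulF_assoc, h0, H46.mulF_zero]
  have h7 : ∃ f : Om (ext0 N b), mulF f.1 (ext0 N c) ≠ 0 := by
    by_contra hcon
    push Not at hcon
    apply h6
    apply ma_injective
    rw [ma_mul, hh, H75.ma_finsum, Finset.sum_mul, ma_zero]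
    apply Finset.sum_eq_zero
    intro f _
    rw [← ma_mul, hcon, ma_zero]
  obtain ⟨f, hf⟩ := h7
  obtain ⟨g, rfl⟩ := H75.omk_surj f
  change mulF (H75.cj g (ext0 N b)) (ext0 N c) ≠ 0 at hf
  -- the conjugate of `b`
  have h8 : H75.cj g (ext0 N b) = ext0 N (fun t : N => b (cjN N hN g⁻¹ t)) := by
    funext x
    by_cases hx : x ∈ N
    · rw [H46.ext0_of_mem _ hx, H75.cj]
      have h9 : g⁻¹ * x * g ∈ N := by
        have := hN.conj_mem x hx g⁻¹
        rwa [inv_inv] at this
      rw [H46.ext0_of_mem _ h9]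
      congr 1
      apply Subtype.ext
      change g⁻¹ * x * g = g⁻¹ * x * g⁻¹⁻¹
      rw [inv_inv]
    · rw [H46.ext0_of_not_mem _ hx]
      exact hB.cj_supp g x hx
  rw [h8, ← H46.ext0_mul] at hf
  have h9 : mulF (fun t : N => b (cjN N hN g⁻¹ t)) c ≠ 0 := by
    intro h0
    apply hf
    rw [h0, ext0_zero']
  have h10 : IsBlk (fun t : N => b (cjN N hN g⁻¹ t)) := isBlk_aut _ hb
  refine ⟨g⁻¹, ?_⟩
  have h11 := (h10.2.2 c hc.1).resolve_right h9
  have h12 : mulF c (fun t : N => b (cjN N hN g⁻¹ t)) ≠ 0 := by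
    rw [H46.mulF_comm hc.1.1]
    exact h9
  have h13 := (hc.2.2 _ h10.1).resolve_right h12
  rw [← h13, H46.mulF_comm hc.1.1, h11]

/-- (R2) and (R3): positivity of the block of `χ` over `N` from positivity of the block of `ψ`. -/
theorem pos_over (ℓ : ℕ) [M.IsMaximal] (N : Subgroup G) (hN : N.Normal) {χ : G → ℂ}
    (hχ : χ ∈ Irr G) {ψ : N → ℂ} (hψ : ψ ∈ Irr N) (hover : (∑ᶠ n : N, χ n * ψ n⁻¹) ≠ 0) :
    letI := Ideal.Quotient.field M
    ∀ {e : G → FF M}, IsBlk e → res M e χ = 1 → ∀ {b : N → FF M}, IsBlk b → res M b ψ = 1 →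
      Pos ℓ b ⊤ → Pos ℓ e N := by
  let _ := Ideal.Quotient.field M
  intro e he he1 b hb hb1 hp
  apply pos_of_blocks ℓ N e he.1.1
  intro c hc hec
  obtain ⟨g, rfl⟩ := blk_over N hN hχ hψ hover he he1 hb hb1 c hc hec
  exact pos_aut _ hp

/-- LemQ in the form used for the final theorem -/
theorem lemQ [M.IsMaximal] (N : Subgroup G) (hN : N.Normal) {χ : G → ℂ} (hχ : χ ∈ Irr G)
    {ψ : N → ℂ} (hψ : ψ ∈ Irr N) (hover : (∑ᶠ n : N, χ n * starRingEnd ℂ (ψ n)) ≠ 0) :
    letI := Ideal.Quotient.field M
    ∀ {e : G → FF M}, IsBlk e → res M e χ = 1 → ∀ {b b' : N → FF M}, IsBlk b → res M b ψ = 1 →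
      IsBlk b' → mulF e (ext0 N b') ≠ 0 → ∃ g : G, ∀ n : N, b' n = ext0 N b (g * n * g⁻¹) := by
  let _ := Ideal.Quotient.field M
  intro e he he1 b b' hb hb1 hb' hne
  have hover' : (∑ᶠ n : N, χ n * ψ n⁻¹) ≠ 0 := by
    have e1 : (fun n : N => χ n * starRingEnd ℂ (ψ n)) = fun n : N => χ n * ψ n⁻¹ :=
      funext fun n => by rw [irr_star hψ n]
    rw [e1] at hover
    exact hover
  obtain ⟨g, rfl⟩ := blk_over N hN hχ hψ hover' he he1 hb hb1 b' hb' hne
  refine ⟨g, fun n => ?_⟩
  rw [H46.ext0_of_mem _ (hN.conj_mem _ n.2 g)]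
  rfl

end lemq

end Pool.Agent.PP.H94
end
end -- Pool.Agent.Helper94_PP.LemQ
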