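import Pool.Agent.Helper18_PP.Good
import Pool.Agent.Helper98_PP.StmtsR2b

/-!
# Merged copies (generated) of the modules

* `Pool.Agent.Helper20_PP.Fra`
* `Pool.Agent.Helper59_PP.Lift`
* `Pool.Agent.Helper63_PP.Jii`
* `Pool.Agent.Helper66_PP.Dbc`
* `Pool.Agent.Helper98_PP.Rr2`
-/

set_option autoImplicit false

section -- Pool.Agent.Helper20_PP.Fra

/-!
FRA (J7.2): two elements which commute modulo `J` can be moved into a subgroup which is nilpotent
modulo `Y`.
-/

noncomputable section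

namespace Pool.Agent.PP.H20

/-- a minimal supplement of a normal subgroup -/
theorem min_supp (Q : Type) [Group Q] [Finite Q] (T : Subgroup Q) :
    ∃ V : Subgroup Q, V ⊔ T = ⊤ ∧ Group.IsNilpotent ↥(V ⊓ T) := by
  have hfin : Finite (Subgroup Q) := inferInstance
  obtain ⟨V, hV, hmin⟩ := Set.Finite.exists_minimal (s := {V : Subgroup Q | V ⊔ T = ⊤})
    (Set.toFinite _) ⟨⊤, top_sup_eq _⟩
  have hV' : V ⊔ T = ⊤ := hV
  refine ⟨V, hV', ?_⟩
  have hle : T.subgroupOf V ≤ frattini V := by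
    unfold frattini Order.radical
    refine le_iInf₂ fun K hK => ?_
    by_contra hc
    have hKc : IsCoatom K := hK
    have h1 : K ⊔ T.subgroupOf V = ⊤ := by
      apply hKc.2
      exact left_lt_sup.2 hc
    have h2 : (K.map V.subtype) ⊔ T = ⊤ := by
      rw [eq_top_iff, ← hV']
      apply sup_le _ le_sup_right
      have h3 : V ≤ (K ⊔ T.subgroupOf V).map V.subtype := by
        rw [h1, ← MonoidHom.range_eq_map, Subgroup.range_subtype]
      refine h3.trans ?_
      rw [Subgroup.map_sup]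
      refine sup_le le_sup_left (le_trans ?_ le_sup_right)
      rintro _ ⟨t, ht, rfl⟩
      exact Subgroup.mem_subgroupOf.1 ht
    have h4 : K.map V.subtype ≤ V := by
      rintro _ ⟨k, -, rfl⟩
      exact k.2
    have h5 := hmin h2 h4
    apply hKc.1
    rw [eq_top_iff]
    intro v _
    obtain ⟨k, hk, hkv⟩ := h5 v.2
    have : k = v := Subtype.ext hkv
    rwa [← this]
  have hfr : Group.IsNilpotent (frattini V) := frattini_nilpotent
  have h6 : Group.IsNilpotent ↥(T.subgroupOf V) :=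
    Group.nilpotent_of_mulEquiv (Subgroup.subgroupOfEquivOfLe hle)
  have e1 : ↥((T ⊓ V).subgroupOf V) ≃* ↥(T ⊓ V) := Subgroup.subgroupOfEquivOfLe inf_le_right
  rw [Subgroup.inf_subgroupOf_right] at e1
  rw [inf_comm]
  exact Group.nilpotent_of_mulEquiv e1

/-- commutators in a group generated by two elements which commute modulo `T` -/
theorem comm_closure {Q : Type} [Group Q] (T : Subgroup Q) [T.Normal] {a b : Q}
    (hab : a * b * a⁻¹ * b⁻¹ ∈ T) :
    ∀ g ∈ Subgroup.closure {a, b}, ∀ h ∈ Subgroup.closure {a, b}, g * h * g⁻¹ * h⁻¹ ∈ T := by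
  have hAB : (QuotientGroup.mk' T) a * (QuotientGroup.mk' T) b =
      (QuotientGroup.mk' T) b * (QuotientGroup.mk' T) a := by
    have h1 : (QuotientGroup.mk' T) (a * b * a⁻¹ * b⁻¹) = 1 := (QuotientGroup.eq_one_iff _).2 hab
    rw [map_mul, map_mul, map_mul, map_inv, map_inv] at h1
    rw [mul_inv_eq_one, mul_inv_eq_iff_eq_mul] at h1
    exact h1
  have key : ∀ c : Q, (QuotientGroup.mk' T) c * (QuotientGroup.mk' T) a =
      (QuotientGroup.mk' T) a * (QuotientGroup.mk' T) c →
      (QuotientGroup.mk' T) c * (QuotientGroup.mk' T) b =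
      (QuotientGroup.mk' T) b * (QuotientGroup.mk' T) c →
      ∀ g ∈ Subgroup.closure {a, b}, (QuotientGroup.mk' T) c * (QuotientGroup.mk' T) g =
        (QuotientGroup.mk' T) g * (QuotientGroup.mk' T) c := by
    intro c hca hcb g hg
    have h1 : Subgroup.closure {a, b} ≤
        (Subgroup.centralizer {(QuotientGroup.mk' T) c}).comap (QuotientGroup.mk' T) := by
      rw [Subgroup.closure_le]
      intro x hx
      rcases hx with rfl | rfl
      · exact Subgroup.mem_centralizer_singleton_iff.2 hca.symm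
      · exact Subgroup.mem_centralizer_singleton_iff.2 hcb.symm
    exact (Subgroup.mem_centralizer_singleton_iff.1 (h1 hg)).symm
  intro g hg h hh
  have h1 := key g (key a rfl hAB g hg).symm (key b hAB.symm rfl g hg).symm h hh
  have h2 : (QuotientGroup.mk' T) (g * h * g⁻¹ * h⁻¹) = 1 := by
    rw [map_mul, map_mul, map_mul, map_inv, map_inv, h1]
    group
  exact (QuotientGroup.eq_one_iff _).1 h2

/-- two elements which commute modulo `T` can be moved modulo `T` into a nilpotent subgroup -/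
theorem min_pair (Q : Type) [Group Q] [Finite Q] (T : Subgroup Q) (hT : T.Normal) (a b : Q)
    (hab : a * b * a⁻¹ * b⁻¹ ∈ T) :
    ∃ V : Subgroup Q, (∃ t ∈ T, a * t ∈ V) ∧ (∃ t ∈ T, b * t ∈ V) ∧ Group.IsNilpotent V := by
  have hfin : Finite (Subgroup Q) := inferInstance
  obtain ⟨V, hV, hmin⟩ := Set.Finite.exists_minimal
    (s := {V : Subgroup Q | (∃ t ∈ T, a * t ∈ V) ∧ ∃ t ∈ T, b * t ∈ V})
    (Set.toFinite _) ⟨⊤, ⟨1, T.one_mem, trivial⟩, ⟨1, T.one_mem, trivial⟩⟩
  obtain ⟨⟨t1, ht1, ha⟩, ⟨t2, ht2, hb⟩⟩ := hV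
  refine ⟨V, ⟨t1, ht1, ha⟩, ⟨t2, ht2, hb⟩, ?_⟩
  have hVc : V = Subgroup.closure {a * t1, b * t2} := by
    apply le_antisymm
    · apply hmin
      · exact ⟨⟨t1, ht1, Subgroup.subset_closure (Or.inl rfl)⟩,
          ⟨t2, ht2, Subgroup.subset_closure (Or.inr rfl)⟩⟩
      · rw [Subgroup.closure_le]
        rintro x (rfl | rfl)
        · exact ha
        · exact hb
    · rw [Subgroup.closure_le]
      rintro x (rfl | rfl)
      · exact ha
      · exact hb
  have hab' : (a * t1) * (b * t2) * (a * t1)⁻¹ * (b * t2)⁻¹ ∈ T := by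
    have h1 : ((t1 : Q) : Q ⧸ T) = 1 := (QuotientGroup.eq_one_iff t1).2 ht1
    have h2 : ((t2 : Q) : Q ⧸ T) = 1 := (QuotientGroup.eq_one_iff t2).2 ht2
    have h3 : ((a * b * a⁻¹ * b⁻¹ : Q) : Q ⧸ T) = 1 := (QuotientGroup.eq_one_iff _).2 hab
    apply (QuotientGroup.eq_one_iff _).1
    simp only [QuotientGroup.mk_mul, QuotientGroup.mk_inv, h1, h2, mul_one] at h3 ⊢
    exact h3
  have hcomm : ∀ g ∈ V, ∀ h ∈ V, g * h * g⁻¹ * h⁻¹ ∈ T := by
    intro g hg h hh
    rw [hVc] at hg hh
    exact comm_closure T hab' g hg h hh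
  -- the maximal subgroups contain `T`
  have hmax : ∀ K : Subgroup V, IsCoatom K → T.subgroupOf V ≤ K := by
    intro K hK
    by_contra hc
    have h1 : K ⊔ T.subgroupOf V = ⊤ := hK.2 _ (left_lt_sup.2 hc)
    have hTn : (T.subgroupOf V).Normal := hT.subgroupOf V
    have hmov : ∀ c : Q, (∃ t ∈ T, c * t ∈ V) → ∃ t ∈ T, c * t ∈ K.map V.subtype := by
      rintro c ⟨t, ht, hct⟩
      have h2 : (⟨c * t, hct⟩ : V) ∈ K ⊔ T.subgroupOf V := by rw [h1]; trivial
      obtain ⟨k, hk, s, hs, hks⟩ := Subgroup.mem_sup_of_normal_right.1 h2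
      have hs' : (s : Q) ∈ T := Subgroup.mem_subgroupOf.1 hs
      have h3 : (k : Q) * (s : Q) = c * t := congrArg Subtype.val hks
      refine ⟨t * (s : Q)⁻¹, T.mul_mem ht (T.inv_mem hs'), ⟨k, hk, ?_⟩⟩
      show (k : Q) = c * (t * (s : Q)⁻¹)
      rw [← mul_assoc, ← h3]
      group
    have h4 : K.map V.subtype ≤ V := by
      rintro _ ⟨k, -, rfl⟩
      exact k.2
    have h5 := hmin (y := K.map V.subtype) ⟨hmov a ⟨t1, ht1, ha⟩, hmov b ⟨t2, ht2, hb⟩⟩ h4
    apply hK.1
    rw [eq_top_iff]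
    intro v _
    obtain ⟨k, hk, hkv⟩ := h5 v.2
    have : k = v := Subtype.ext hkv
    rwa [← this]
  have htfae := Group.isNilpotent_of_finite_tfae (G := V)
  refine (htfae.out 0 2).2 ?_
  intro K hK
  refine ⟨fun k hk g => ?_⟩
  have h6 : g * k * g⁻¹ * k⁻¹ ∈ K := hmax K hK (Subgroup.mem_subgroupOf.2
    (hcomm g g.2 k k.2))
  have h7 := K.mul_mem h6 hk
  rwa [inv_mul_cancel_right] at h7

theorem fra : FraStmt := by
  intro X _ _ Y J hY hJ hYJ x y hxy
  have hJn : (J.map (QuotientGroup.mk' Y)).Normal := hJ.map _ (QuotientGroup.mk'_surjective Y)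
  obtain ⟨V, ⟨s, hs, hxs⟩, ⟨t, ht, hyt⟩, hnil⟩ := min_pair (X ⧸ Y) (J.map (QuotientGroup.mk' Y)) hJn
    (QuotientGroup.mk' Y x) (QuotientGroup.mk' Y y) (by
      rw [← map_mul, ← map_inv, ← map_mul, ← map_inv, ← map_mul]
      exact Subgroup.mem_map_of_mem _ hxy)
  obtain ⟨j, hj, rfl⟩ := hs
  obtain ⟨j', hj', rfl⟩ := ht
  have hmapL : (V.comap (QuotientGroup.mk' Y)).map (QuotientGroup.mk' Y) = V :=
    Subgroup.map_comap_eq_self_of_surjective (QuotientGroup.mk'_surjective Y) V
  refine ⟨V.comap (QuotientGroup.mk' Y), ?_, ⟨j, hj, ?_⟩, ⟨j', hj', ?_⟩, ?_⟩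
  · intro g hg
    rw [Subgroup.mem_comap]
    have h1 : (QuotientGroup.mk' Y) g = 1 := (QuotientGroup.eq_one_iff g).2 hg
    rw [h1]
    exact V.one_mem
  · rw [Subgroup.mem_comap, map_mul]
    exact hxs
  · rw [Subgroup.mem_comap, map_mul]
    exact hyt
  · obtain ⟨n, hn⟩ := (Subgroup.isNilpotent_iff_lowerCentralSeries V).1 hnil
    refine ⟨n, ?_⟩
    intro g hg
    have h1 : (QuotientGroup.mk' Y) g ∈
        ((V.comap (QuotientGroup.mk' Y)).lowerCentralSeries n).map (QuotientGroup.mk' Y) :=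
      Subgroup.mem_map_of_mem _ hg
    rw [Subgroup.map_lowerCentralSeries, hmapL, hn, Subgroup.mem_bot] at h1
    exact (QuotientGroup.eq_one_iff g).1 h1

end Pool.Agent.PP.H20
end
end -- Pool.Agent.Helper20_PP.Fra

section -- Pool.Agent.Helper59_PP.Lift

/-!
# Squad PP: existence of a lift of the nonzero scalars to complex numbers

The Teichmueller representatives in the ring of Witt vectors of `F` are roots of unity, so the
field they generate is algebraic over the rational numbers and embeds in the complex numbers.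
-/

noncomputable section

namespace Pool.Agent.PP.H59

open Pool.Agent.PP

theorem exists_lift (ℓ : ℕ) (F : Type) [Field F] (hF : GoodF ℓ F) : ∃ τ : F → ℂ, IsLift τ := by
  have : Fact ℓ.Prime := ⟨hF.prime⟩
  have := hF.char
  let W := WittVector ℓ F
  have : IsDomain W := inferInstanceAs (IsDomain (WittVector ℓ F))
  let K := FractionRing W
  -- characteristic zero
  have hchar : ∀ q : ℕ, q.Prime → (q : K) ≠ 0 := by
    intro q hq h0
    have h2 : (q : W) = 0 := by
      apply IsFractionRing.injective W K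
      rw [map_zero, map_natCast]
      exact h0
    have h3 : (q : F) = 0 := by
      have := congrArg (WittVector.constantCoeff (p := ℓ) (R := F)) h2
      rwa [map_natCast, map_zero] at this
    have h4 : ℓ ∣ q := (CharP.cast_eq_zero_iff F ℓ q).1 h3
    have h5 : ℓ = q := (Nat.prime_dvd_prime_iff_eq hF.prime hq).1 h4
    subst h5
    exact WittVector.p_nonzero ℓ F h2
  have : CharZero K := by
    obtain ⟨q, hq⟩ := CharP.exists K
    rcases CharP.char_is_prime_or_zero K q with h | h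
    · exact absurd (CharP.cast_eq_zero K q) (hchar q h)
    · subst h
      exact CharP.charP_to_charZero K
  let t : F → K := fun x => algebraMap W K (WittVector.teichmuller ℓ x)
  have ht1 : t 1 = 1 := by
    show algebraMap W K (WittVector.teichmuller ℓ 1) = 1
    rw [map_one, map_one]
  have htm : ∀ a b, t (a * b) = t a * t b := by
    intro a b
    show algebraMap W K (WittVector.teichmuller ℓ (a * b)) = _
    rw [map_mul, map_mul]
  have htp : ∀ a (n : ℕ), t (a ^ n) = t a ^ n := by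
    intro a n
    show algebraMap W K (WittVector.teichmuller ℓ (a ^ n)) = _
    rw [map_pow, map_pow]
  have hti : ∀ a, t a = 1 → a = 1 := by
    intro a ha
    have h1 : algebraMap W K (WittVector.teichmuller ℓ a) = algebraMap W K 1 := by
      rw [map_one]
      exact ha
    have h2 : WittVector.teichmuller ℓ a = 1 := IsFractionRing.injective W K h1
    have h3 := congrArg (fun w : WittVector ℓ F => w.coeff 0) h2
    simpa using h3
  have hint : ∀ x : F, x ≠ 0 → IsIntegral ℚ (t x) := by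
    intro x hx
    obtain ⟨n, hn, hxn⟩ := hF.tors x hx
    refine IsIntegral.of_pow hn ?_
    rw [← htp, hxn, ht1]
    exact isIntegral_one
  let L : IntermediateField ℚ K := IntermediateField.adjoin ℚ (t '' {x | x ≠ 0})
  have : Algebra.IsAlgebraic ℚ L := by
    apply IntermediateField.isAlgebraic_adjoin
    rintro _ ⟨x, hx, rfl⟩
    exact hint x hx
  let φ : L →ₐ[ℚ] ℂ := IsAlgClosed.lift
  have hmem : ∀ x : F, x ≠ 0 → t x ∈ L := fun x hx =>
    IntermediateField.subset_adjoin ℚ _ ⟨x, hx, rfl⟩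
  classical
  let τ : F → ℂ := fun x => if h : x ≠ 0 then φ ⟨t x, hmem x h⟩ else 0
  have hτ : ∀ x (h : x ≠ 0), τ x = φ ⟨t x, hmem x h⟩ := fun x h => dif_pos h
  refine ⟨τ, ?_, ?_, ?_⟩
  · rw [hτ 1 one_ne_zero]
    have h1 : (⟨t 1, hmem 1 one_ne_zero⟩ : L) = 1 := Subtype.ext ht1
    rw [h1, map_one]
  · intro a b ha hb
    rw [hτ a ha, hτ b hb, hτ _ (mul_ne_zero ha hb), ← map_mul]
    have h1 : (⟨t (a * b), hmem _ (mul_ne_zero ha hb)⟩ : L) =
        ⟨t a, hmem a ha⟩ * ⟨t b, hmem b hb⟩ := Subtype.ext (htm a b)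
    rw [h1]
  · intro a ha h
    rw [hτ a ha] at h
    have h1 : (⟨t a, hmem a ha⟩ : L) = 1 := by
      have h2 : φ ⟨t a, hmem a ha⟩ = φ 1 := by rw [h, map_one]
      exact φ.toRingHom.injective h2
    exact hti a (congrArg Subtype.val h1)

end Pool.Agent.PP.H59
end
end -- Pool.Agent.Helper59_PP.Lift

section -- Pool.Agent.Helper63_PP.Jii

/-!
# Squad PP, module JII: the pair sums of `N` vanish if the pair sums of the components vanish
-/

open scoped BigOperators

set_option linter.unusedSectionVars false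

noncomputable section

namespace Pool.Agent.PP.H63

open Pool.Agent.PP Pool.Agent.Helper51_AWC Pool.Agent.Helper79_WRA

section aux

variable {G : Type} [Group G] {N : Subgroup G}

/-- The identification of the same subgroup inside two groups. -/
def thE (K L N : Subgroup G) (hL : K ≤ L) (hN : K ≤ N) : K.subgroupOf L ≃* K.subgroupOf N :=
  (Subgroup.subgroupOfEquivOfLe hL).trans (Subgroup.subgroupOfEquivOfLe hN).symm

theorem thE_coe (K L N : Subgroup G) (hL : K ≤ L) (hN : K ≤ N) (y : K.subgroupOf L) :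
    (((thE K L N hL hN y : K.subgroupOf N) : N) : G) = ((y : L) : G) := rfl

theorem iSup_sub {I : Type} {K : I → Subgroup G} (hle : ∀ i, K i ≤ N) (hs : (⨆ i, K i) = N) :
    (⨆ i, (K i).subgroupOf N) = ⊤ := by
  apply Subgroup.map_injective N.subtype_injective
  rw [Subgroup.map_iSup]
  have h1 : ∀ i, ((K i).subgroupOf N).map N.subtype = K i := fun i =>
    Subgroup.map_subgroupOf_eq_of_le (hle i)
  simp_rw [h1]
  rw [hs, ← MonoidHom.range_eq_map, Subgroup.range_subtype]

theorem map_sub [N.Normal] (K K' : Subgroup G) (x : G)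
    (h : K.map (MulAut.conj x).toMonoidHom = K') :
    (K.subgroupOf N).map (MulAut.conjNormal x : MulAut N).toMonoidHom = K'.subgroupOf N := by
  ext t
  rw [Subgroup.mem_map, Subgroup.mem_subgroupOf, ← h, Subgroup.mem_map]
  constructor
  · rintro ⟨s, hs, rfl⟩
    exact ⟨(s : G), Subgroup.mem_subgroupOf.1 hs, rfl⟩
  · rintro ⟨s, hs, hst⟩
    have hs1 : x * s * x⁻¹ = t := hst
    have hsN : s ∈ N := by
      have h1 : s = x⁻¹ * t * x⁻¹⁻¹ := by
        rw [← hs1]
        group
      rw [h1]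
      exact Subgroup.Normal.conj_mem ‹_› _ t.2 _
    refine ⟨⟨s, hsN⟩, Subgroup.mem_subgroupOf.2 hs, Subtype.ext ?_⟩
    exact hs1

end aux

/-- JII: vanishing of all the pair sums of `N` from the vanishing of the pair sums of the
components. -/
theorem jii (hB : BrgStmt) (hO : OrvStmt) (hI : IsoStmt) : JiiStmt := by
  intro ℓ _ F _ hF G _ _ N _ b hb I _ _ K bK act hC hD τ hτ x y hreg hxy u u' hu
  have hb0 : (fun t : N => ext0 N b t) = b := by
    funext t
    simp [ext0]
  obtain ⟨hB1, -⟩ := hB ℓ F hF τ hτ G N (ext0 N b) hb x y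
  obtain ⟨hT, hDJ⟩ := hB1 u u' hu
  rw [hDJ]
  rw [hb0] at hT ⊢
  have hact : ∀ g ∈ XF (ext0 N b) N, act g = 1 := fun g hg =>
    Equiv.ext fun i => (hC.xf g hg i).1
  have hcomm : act x * act y = act y * act x := by
    have h1 : x * y = x * y * x⁻¹ * y⁻¹ * (y * x) := by group
    rw [← hC.mul, ← hC.mul, h1, hC.mul (x * y * x⁻¹ * y⁻¹), hact _ hxy, one_mul]
  let actH : G →* Equiv.Perm I := MonoidHom.mk' act hC.mul
  obtain ⟨i⟩ := (inferInstance : Nonempty I)
  refine hO ℓ F hF N I (fun i => (K i).subgroupOf N) b (MulAut.conjNormal x)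
    (MulAut.conjNormal y) (act x) (act y) ?_ ?_ hC.center ?_ ?_ hcomm i
    (fun t : (K i).subgroupOf N => bK i t) (hC.blk i) ?_ τ hτ _ _ hT
  · intro i j hij s hs t ht
    exact Subtype.ext (hC.comm i j hij _ (Subgroup.mem_subgroupOf.1 hs) _
      (Subgroup.mem_subgroupOf.1 ht))
  · exact iSup_sub hC.le hC.sup
  · exact fun i => map_sub _ _ x (hC.map x i)
  · exact fun i => map_sub _ _ y (hC.map y i)
  · intro p q k hp hq hpi hqi α₁ β₁ hα hβ
    set L := Subgroup.normalizer (K i : Set G) with hL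
    have hx' : x ^ p ∈ L := by
      rw [hL, hC.norm]
      have h1 : act (x ^ p) = act x ^ p := map_pow actH x p
      rw [h1]
      exact hpi
    have hy' : y ^ q * x ^ k ∈ L := by
      rw [hL, hC.norm]
      have h1 : act (y ^ q * x ^ k) = act y ^ q * act x ^ k := by
        have h2 : act (y ^ q) = act y ^ q := map_pow actH y q
        have h3 : act (x ^ k) = act x ^ k := map_pow actH x k
        rw [hC.mul, h2, h3]
      rw [h1]
      exact hqi
    have hKL : K i ≤ L := Subgroup.le_normalizer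
    have hnorm : ((K i).subgroupOf L).Normal := Subgroup.normal_in_normalizer
    have hVan : Van ℓ (fun t : (K i).subgroupOf L => bK i t)
        (MulAut.conjNormal (⟨x ^ p, hx'⟩ : L)) (MulAut.conjNormal (⟨y ^ q * x ^ k, hy'⟩ : L)) := by
      intro τ' hτ' w wi hw
      obtain ⟨hB2, hB3⟩ := hB ℓ F hF τ' hτ' L ((K i).subgroupOf L) (fun t : L => bK i t)
        (hC.sblk i) ⟨x ^ p, hx'⟩ ⟨y ^ q * x ^ k, hy'⟩
      obtain ⟨v, v', hv, hv2⟩ := hB3 w wi hw
      have h1 := (hB2 v v' hv).2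
      have h2 : w = fun t : (K i).subgroupOf L => v ((⟨x ^ p, hx'⟩ : L) *
          (⟨y ^ q * x ^ k, hy'⟩ : L) * (⟨x ^ p, hx'⟩ : L)⁻¹ * (⟨y ^ q * x ^ k, hy'⟩ : L)⁻¹ * t) :=
        funext hv2
      rw [h2, ← h1]
      refine hD i τ' hτ' _ _ ?_ ?_ v v' hv
      · obtain ⟨s, hs, hxs⟩ := hreg
        refine ⟨s, hs, ?_⟩
        have h3 : (x ^ p) ^ s ∈ XF (ext0 N b) N := by
          rw [← pow_mul, mul_comm, pow_mul]
          exact Subgroup.pow_mem _ hxs p
        exact (hC.xf _ h3 i).2 (Subgroup.pow_mem _ hx' s)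
      · exact Subgroup.subset_closure ⟨v, v', hv⟩
    refine hI ℓ F _ _ (thE (K i) L N hKL (hC.le i)) _ _ _ _ _ _ ?_ ?_ ?_ hVan
    · intro t
      rfl
    · intro t
      apply Subtype.ext
      apply Subtype.ext
      rw [hα, ← map_pow]
      rfl
    · intro t
      apply Subtype.ext
      apply Subtype.ext
      rw [hβ, ← map_pow, ← map_pow, ← map_mul]
      rfl

end Pool.Agent.PP.H63
end
end -- Pool.Agent.Helper63_PP.Jii

section -- Pool.Agent.Helper66_PP.Dbc

/-!
# Squad PP, part J: the form of the doubling theorem used by the master induction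
-/

noncomputable section

namespace Pool.Agent.PP.H66

open Pool.Agent.PP

/-- DBC -/
theorem dbc (h : DblnStmt) : DblStmt := by
  intro ℓ _ F _ hF τ hτ X _ _ Y hY f hf hd m hm hy hg
  refine h ℓ F hF τ hτ X Y hY f hf hd ?_
  rintro H₁ _ _ Q₁ hQ ⟨e⟩ hmu _ ⟨i, hi⟩
  exact hy H₁ Q₁ hQ (lt_of_le_of_lt hmu hm) (hg.of_prod i hi e.toMonoidHom e.injective)

end Pool.Agent.PP.H66
end
end -- Pool.Agent.Helper66_PP.Dbc

section -- Pool.Agent.Helper98_PP.Rr2

/-!
# Squad PP: R2 from DBL, SUM, the components and J-II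
-/

open scoped BigOperators

noncomputable section

namespace Pool.Agent.PP.H98

open Pool.Agent.Helper51_AWC Pool.Agent.Helper79_WRA Pool.Agent.PP

theorem rr2 (hps3 : Ps3Stmt) (hdbl : DblStmt) (hsum : SumStmt) (hcom : ComStmt)
    (hjii : JiiStmt) : R2Stmt := by
  intro ℓ hℓ F hFi hF G hG hfin N hCh hO hna hns hgood hY e he hpos b hb hst heb
  have hN : N.Normal := hCh.1
  have hdz : ¬ DZ ℓ b := fun h => he.2.1 ((hps3 ℓ F hF G N hN b hb hst e he.1 heb).2 h hpos)
  obtain ⟨τ, hτ⟩ := H59.exists_lift ℓ F hF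
  have hcl : IsCl (ext0 N b) := by
    intro x y
    have hy : y ∈ stabF (ext0 N b) := by rw [hst]; exact Subgroup.mem_top y
    exact hy x
  have hS : SBlk N (ext0 N b) := by
    refine ⟨fun x hx => ?_, hcl, ?_⟩
    · unfold ext0
      rw [dif_neg hx]
    · have : (fun t : N => ext0 N b t) = b := by
        funext t
        unfold ext0
        rw [dif_pos t.2]
      rw [this]
      exact hb
  obtain ⟨I, hI, hI', K, bK, act, hK⟩ := hcom ℓ F hF G N hCh hO hna hns b hb hst hdz
  refine hsum ℓ F hF τ hτ G N hN (ext0 N b) hS ?_ e he.1 heb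
  refine hjii ℓ F hF G N b hS I K bK act hK ?_ τ hτ
  intro i τ' hτ'
  refine hdbl ℓ F hF τ' hτ' _ _ ?_ _ (hK.sblk i) (hK.pos i) (mu N) (hK.mu i) hY ?_
  · infer_instance
  · exact hgood.subgroupOf _ (hK.le i)

end Pool.Agent.PP.H98
end
end -- Pool.Agent.Helper98_PP.Rr2
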