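import Pool.Agent.Helper12_AWB.B069
import Pool.Agent.Helper18_PP.Good
import Pool.Agent.Helper66_BN.Stmts
import Pool.Agent.Helper66_PP.StmtsLQ
import Pool.Agent.Helper67_PP.StmtsU
import Pool.Agent.Helper98_PP.StmtsR2b

/-!
# Merged copies (generated) of the modules

* `Pool.Agent.Helper66_RK2.Grp`
* `Pool.Agent.Helper18_X2.Defs`
* `Pool.Agent.Helper18_X2.Stmts`
* `Pool.Agent.Helper18_X2.StmtsF`
* `Pool.Agent.Helper18_X2.DefsR`
* `Pool.Agent.Helper36_X1.Defs`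
* `Pool.Agent.Helper36_X1.Basic`
* `Pool.Agent.Helper36_X1.Stmts1`
* `Pool.Agent.Helper36_X1.Defs2`
* `Pool.Agent.Helper36_X1.Stmts2`
* `Pool.Agent.Helper36_X1.Stmts3`
* `Pool.Agent.Helper18_X3.Defs`
* `Pool.Agent.Helper18_X3.Cyc`
* `Pool.Agent.Helper66_X4.Defs`
* `Pool.Agent.Helper66_X4.Rks`
-/

set_option autoImplicit false

section -- Pool.Agent.Helper66_RK2.Grp

/-!
# Abelian groups with two generators
-/

set_option autoImplicit false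

open scoped BigOperators

noncomputable section

namespace Pool.Agent.PP.RK2

/-- commutative groups with two generators -/
def Rk2 : (Q : Type) → [Group Q] → Prop := fun Q _ =>
  (∀ x y : Q, x * y = y * x) ∧ ∃ x y : Q, Subgroup.closure {x, y} = ⊤

/-- subgroups of commutative groups with two generators -/
theorem rk2_sub {Q R : Type} [Group Q] [Group R] (j : Q →* R) (hj : Function.Injective j)
    (h : Rk2 R) : Rk2 Q := by
  obtain ⟨hc, x, y, hxy⟩ := h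
  have hcQ : ∀ a b : Q, a * b = b * a := by
    intro a b
    apply hj
    rw [map_mul, map_mul, hc]
  refine ⟨hcQ, ?_⟩
  have hX : (Subgroup.zpowers x).Normal := by
    refine ⟨fun n hn g => ?_⟩
    rw [hc g n, mul_assoc, mul_inv_cancel, mul_one]
    exact hn
  obtain ⟨π, hπ⟩ : ∃ π : R →* R ⧸ Subgroup.zpowers x, π = QuotientGroup.mk' _ := ⟨_, rfl⟩
  have hk : ∀ r, π r = 1 ↔ r ∈ Subgroup.zpowers x := by
    intro r
    rw [hπ, QuotientGroup.mk'_apply, QuotientGroup.eq_one_iff]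
  -- the quotient is cyclic
  have hcyc : IsCyclic (R ⧸ Subgroup.zpowers x) := by
    refine ⟨⟨π y, fun z => ?_⟩⟩
    obtain ⟨r, rfl⟩ := QuotientGroup.mk'_surjective (Subgroup.zpowers x) z
    rw [← hπ]
    have hr : r ∈ Subgroup.closure ({x, y} : Set R) := by
      rw [hxy]
      exact Subgroup.mem_top r
    refine Subgroup.closure_induction (p := fun r _ => π r ∈ Subgroup.zpowers (π y))
      (fun a ha => ?_) ?_ (fun a b _ _ h1 h2 => ?_) (fun a _ h1 => ?_) hr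
    · rcases ha with rfl | ha
      · rw [(hk a).2 (Subgroup.mem_zpowers a)]
        exact Subgroup.one_mem _
      · have : a = y := ha
        rw [this]
        exact Subgroup.mem_zpowers _
    · rw [map_one]
      exact Subgroup.one_mem _
    · rw [map_mul]
      exact Subgroup.mul_mem _ h1 h2
    · rw [map_inv]
      exact Subgroup.inv_mem _ h1
  obtain ⟨f, hf⟩ : ∃ f : Q →* R ⧸ Subgroup.zpowers x, ∀ q, f q = π (j q) :=
    ⟨π.comp j, fun _ => rfl⟩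
  have hker : IsCyclic f.ker := by
    have h1 : ∀ q : f.ker, j q ∈ Subgroup.zpowers x := by
      intro q
      have h2 : f q = 1 := q.2
      exact (hk _).1 ((hf _).symm.trans h2)
    obtain ⟨g, hg⟩ : ∃ g : f.ker →* Subgroup.zpowers x, ∀ q, (g q : R) = j q :=
      ⟨(j.comp f.ker.subtype).codRestrict _ h1, fun _ => rfl⟩
    refine isCyclic_of_injective g fun a b hab => ?_
    apply Subtype.ext
    apply hj
    rw [← hg, ← hg, hab]
  have hran : IsCyclic f.range := inferInstance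
  obtain ⟨k, hkg⟩ := hker.exists_generator
  obtain ⟨⟨_, q, rfl⟩, hqg⟩ := hran.exists_generator
  refine ⟨(k : Q), q, ?_⟩
  rw [eq_top_iff]
  intro z _
  obtain ⟨n, hn⟩ := Subgroup.mem_zpowers_iff.1 (hqg ⟨f z, z, rfl⟩)
  have hn' : f q ^ n = f z := congrArg Subtype.val hn
  have h3 : z * (q ^ n)⁻¹ ∈ f.ker := by
    rw [MonoidHom.mem_ker, map_mul, map_inv, map_zpow, hn', mul_inv_cancel]
  obtain ⟨m, hm⟩ := Subgroup.mem_zpowers_iff.1 (hkg ⟨z * (q ^ n)⁻¹, h3⟩)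
  have hm' : (k : Q) ^ m = z * (q ^ n)⁻¹ := congrArg Subtype.val hm
  have h4 : z = (k : Q) ^ m * q ^ n := by
    rw [hm', inv_mul_cancel_right]
  rw [h4]
  have hk1 : (k : Q) ∈ Subgroup.closure ({(k : Q), q} : Set Q) :=
    Subgroup.subset_closure (Set.mem_insert _ _)
  have hq1 : q ∈ Subgroup.closure ({(k : Q), q} : Set Q) :=
    Subgroup.subset_closure (Set.mem_insert_of_mem _ rfl)
  exact Subgroup.mul_mem _ (Subgroup.zpow_mem _ hk1 m) (Subgroup.zpow_mem _ hq1 n)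

/-- an elementary abelian group with two generators which is not cyclic -/
theorem card_of {ℓ : ℕ} [Fact ℓ.Prime] {Q : Type} [Group Q] [Finite Q] (hp : IsPGroup ℓ Q)
    (h : Rk2 Q) (hexp : ∀ q : Q, q ^ ℓ = 1) (hcyc : ¬ IsCyclic Q) : Nat.card Q = ℓ ^ 2 := by
  classical
  have hℓ : ℓ.Prime := Fact.out
  obtain ⟨hc, x, y, hxy⟩ := h
  obtain ⟨n, hn⟩ := IsPGroup.iff_card.1 hp
  have hsurj : Function.Surjective (fun w : Fin ℓ × Fin ℓ => x ^ (w.1 : ℕ) * y ^ (w.2 : ℕ)) := by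
    intro z
    have hz : z ∈ Subgroup.closure ({x, y} : Set Q) := by
      rw [hxy]
      exact Subgroup.mem_top z
    have hpw : ∀ (a : Q) (i : ℕ), a ^ i = a ^ (i % ℓ) := by
      intro a i
      conv_lhs => rw [← Nat.mod_add_div i ℓ]
      rw [pow_add, pow_mul, hexp, one_pow, mul_one]
    have key : ∃ i j : ℕ, z = x ^ i * y ^ j := by
      refine Subgroup.closure_induction (p := fun z _ => ∃ i j : ℕ, z = x ^ i * y ^ j)
        (fun a ha => ?_) ?_ (fun a b _ _ h1 h2 => ?_) (fun a _ h1 => ?_) hz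
      · rcases ha with rfl | ha
        · exact ⟨1, 0, by rw [pow_one, pow_zero, mul_one]⟩
        · have : a = y := ha
          exact ⟨0, 1, by rw [pow_one, pow_zero, one_mul, this]⟩
      · exact ⟨0, 0, by rw [pow_zero, pow_zero, mul_one]⟩
      · obtain ⟨i, j, rfl⟩ := h1
        obtain ⟨i', j', rfl⟩ := h2
        refine ⟨i + i', j + j', ?_⟩
        rw [pow_add, pow_add]
        calc x ^ i * y ^ j * (x ^ i' * y ^ j') = x ^ i * (y ^ j * x ^ i') * y ^ j' := by group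
          _ = x ^ i * (x ^ i' * y ^ j) * y ^ j' := by rw [hc (y ^ j)]
          _ = _ := by group
      · obtain ⟨i, j, rfl⟩ := h1
        refine ⟨i * (ℓ - 1), j * (ℓ - 1), ?_⟩
        rw [inv_eq_iff_mul_eq_one]
        have e1 : x ^ i * x ^ (i * (ℓ - 1)) = 1 := by
          rw [← pow_add]
          have : i + i * (ℓ - 1) = ℓ * i := by
            have := hℓ.pos
            obtain ⟨k, rfl⟩ : ∃ k, ℓ = k + 1 := ⟨ℓ - 1, by omega⟩
            rw [Nat.add_sub_cancel]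
            ring
          rw [this, pow_mul, hexp, one_pow]
        have e2 : y ^ j * y ^ (j * (ℓ - 1)) = 1 := by
          rw [← pow_add]
          have : j + j * (ℓ - 1) = ℓ * j := by
            have := hℓ.pos
            obtain ⟨k, rfl⟩ : ∃ k, ℓ = k + 1 := ⟨ℓ - 1, by omega⟩
            rw [Nat.add_sub_cancel]
            ring
          rw [this, pow_mul, hexp, one_pow]
        calc x ^ i * y ^ j * (x ^ (i * (ℓ - 1)) * y ^ (j * (ℓ - 1))) =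
            x ^ i * (y ^ j * x ^ (i * (ℓ - 1))) * y ^ (j * (ℓ - 1)) := by group
          _ = x ^ i * (x ^ (i * (ℓ - 1)) * y ^ j) * y ^ (j * (ℓ - 1)) := by rw [hc (y ^ j)]
          _ = (x ^ i * x ^ (i * (ℓ - 1))) * (y ^ j * y ^ (j * (ℓ - 1))) := by group
          _ = 1 := by rw [e1, e2, one_mul]
    obtain ⟨i, j, hij⟩ := key
    refine ⟨(⟨i % ℓ, Nat.mod_lt _ hℓ.pos⟩, ⟨j % ℓ, Nat.mod_lt _ hℓ.pos⟩), ?_⟩
    show x ^ (i % ℓ) * y ^ (j % ℓ) = z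
    rw [← hpw, ← hpw, hij]
  have hle : Nat.card Q ≤ ℓ ^ 2 := by
    have h1 := Nat.card_le_card_of_surjective _ hsurj
    rwa [Nat.card_prod, Nat.card_fin, ← pow_two] at h1
  rw [hn] at hle
  have hn2 : n ≤ 2 := (Nat.pow_le_pow_iff_right hℓ.one_lt).1 hle
  have h0 : n ≠ 0 := by
    rintro rfl
    rw [pow_zero] at hn
    have := (Nat.card_eq_one_iff_unique.1 hn).1
    exact hcyc isCyclic_of_subsingleton
  have h1 : n ≠ 1 := by
    rintro rfl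
    rw [pow_one] at hn
    exact hcyc (isCyclic_of_prime_card hn)
  have : n = 2 := by omega
  rw [hn, this]

end Pool.Agent.PP.RK2
end
end -- Pool.Agent.Helper66_RK2.Grp

section -- Pool.Agent.Helper18_X2.Defs

/-!
# AWC, part X2: components instead of involved simple groups

Text: `AWC_X2.md`.  A family `𝒜` of simple groups is closed if the fixed points of outer
`ℓ`-groups of automorphisms of its members are built from members of `𝒜` again.  The class `Cls`: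
`N` has a subgroup `E`, normal in `H`, which is generated by commuting quasisimple groups over
members of `𝒜`, and the simple groups involved in `N / E` lie in `𝒜`.
-/

open scoped BigOperators

noncomputable section

namespace Pool.Agent.PP.X2

open Pool.Agent.Helper51_AWC Pool.Agent.Helper79_WRA Pool.Agent.PP

/-- a family of finite groups -/
abbrev Fam : Type 1 := (S : Type) → [Group S] → [Finite S] → Prop

/-- `K` is perfect and a central extension of `S` -/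
def CovS (K S : Type) [Group K] [Group S] : Prop :=
  commutator K = ⊤ ∧ ∃ f : K →* S, Function.Surjective f ∧ f.ker ≤ Subgroup.center K

/-- `E` is generated by the pairwise commuting subgroups `K i`; every `K i` is a perfect central
extension of a nonabelian simple group of order divisible by `ℓ` in the family `𝒜`. -/
structure LayD (ℓ : ℕ) (𝒜 : Fam) {H : Type} [Group H] (E : Subgroup H) (I : Type)
    (K : I → Subgroup H) : Prop where
  comm : ∀ i j, i ≠ j → ∀ x ∈ K i, ∀ y ∈ K j, x * y = y * x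
  sup : (⨆ i, K i) = E
  cov : ∀ i, ∃ (S : Type) (_ : Group S) (_ : Finite S), NonabSimple S ∧ ℓ ∣ Nat.card S ∧ 𝒜 S ∧
    CovS (K i) S

/-- `E` is a product of finitely many commuting quasisimple groups over members of `𝒜` of order
divisible by `ℓ` (possibly `E = 1`). -/
def Lay (ℓ : ℕ) (𝒜 : Fam) {H : Type} [Group H] (E : Subgroup H) : Prop :=
  ∃ (I : Type) (_ : Finite I) (K : I → Subgroup H), LayD ℓ 𝒜 E I K

/-- the subgroup generated by the elements of order a power of `ℓ` -/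
def Oup (ℓ : ℕ) (A : Type) [Group A] : Subgroup A :=
  Subgroup.closure {x | ∃ n : ℕ, x ^ ℓ ^ n = 1}

/-- all nonabelian simple groups of order divisible by `ℓ` involved in `A` lie in `𝒜` -/
def InvA (ℓ : ℕ) (𝒜 : Fam) (A : Type) [Group A] : Prop :=
  ∀ (S : Type) [Group S] [Finite S], NonabSimple S → ℓ ∣ Nat.card S → Involves A S → 𝒜 S

/-- all nonabelian simple groups of order divisible by `ℓ` involved in `N / E` lie in `𝒜` -/
def ModA (ℓ : ℕ) (𝒜 : Fam) {H : Type} [Group H] (N E : Subgroup H) : Prop :=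
  ∀ (S : Type) [Group S] [Finite S], NonabSimple S → ℓ ∣ Nat.card S → ∀ K : Subgroup H, K ≤ N →
    ∀ f : K →* S, Function.Surjective f → (∀ x : K, (x : H) ∈ E → f x = 1) → 𝒜 S

/-- The class: `E` is normal in `H`, `E ≤ N` is a product of commuting quasisimple groups over
members of `𝒜`, the simple groups involved in `N / E` lie in `𝒜`. -/
def Cls (ℓ : ℕ) (𝒜 : Fam) {H : Type} [Group H] (N : Subgroup H) : Prop :=
  ∃ E : Subgroup H, E.Normal ∧ E ≤ N ∧ Lay ℓ 𝒜 E ∧ ModA ℓ 𝒜 N E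

/-- Closed families: for every `S` in `𝒜` and every nontrivial `ℓ`-group `Q` of automorphisms of
`S` containing no inner automorphism `≠ 1`, the group `C` of the fixed points satisfies
`O_ℓ(C) ≠ 1`, or its subgroup generated by the `ℓ`-elements is a product of commuting quasisimple
groups over members of `𝒜`, or all simple groups of order divisible by `ℓ` involved in `C` lie in
`𝒜`. -/
def ClosedF (ℓ : ℕ) (𝒜 : Fam) : Prop :=
  ∀ (S : Type) [Group S] [Finite S], NonabSimple S → ℓ ∣ Nat.card S → 𝒜 S →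
  ∀ Q : Subgroup (MulAut S), Q ≠ ⊥ → IsPGroup ℓ Q → Q ⊓ (MulAut.conj (G := S)).range = ⊥ →
    opCore ℓ (fixN Q) ≠ ⊥ ∨ Lay ℓ 𝒜 (Oup ℓ (fixN Q)) ∨ InvA ℓ 𝒜 (fixN Q)

/-- The hypothesis on the nearly simple groups with socle in `𝒜` involved in `H`. -/
def Hyp (ℓ : ℕ) (F : Type) [Field F] (𝒜 : Fam) (H : Type) [Group H] : Prop :=
  ∀ (S : Type) [Group S] [Finite S], NonabSimple S → ℓ ∣ Nat.card S → 𝒜 S →
  ∀ (D : Type) [Group D] [Finite D], opCore ℓ D = ⊥ → NearlySimpleL ℓ D S →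
  Involves H (D ⧸ Subgroup.center D) → ∀ e : D → F, IsIdem e →
  (∀ z ∈ Subgroup.center D, z ≠ 1 → ∃ c : F, c ≠ 1 ∧ ∀ x, e (z * x) = c * e x) →
  Pos ℓ e ⊤ → YY ℓ ⊤ e = 0

/-- the same for outer parts generated by two elements -/
def HypV (ℓ : ℕ) (F : Type) [Field F] (𝒜 : Fam) (H : Type) [Group H] : Prop :=
  ∀ (S : Type) [Group S] [Finite S], NonabSimple S → ℓ ∣ Nat.card S → 𝒜 S →
  ∀ (D : Type) [Group D] [Finite D], opCore ℓ D = ⊥ → NearlySimpleF ℓ D S →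
  Involves H (D ⧸ Subgroup.center D) → ∀ e : D → F, IsIdem e →
  (∀ z ∈ Subgroup.center D, z ≠ 1 → ∃ c : F, c ≠ 1 ∧ ∀ x, e (z * x) = c * e x) →
  Pos ℓ e ⊤ → YY ℓ ⊤ e = 0

/-- the same with `Z(D) ≤ [D, D]` -/
def HypQ (ℓ : ℕ) (F : Type) [Field F] (𝒜 : Fam) (H : Type) [Group H] : Prop :=
  ∀ (S : Type) [Group S] [Finite S], NonabSimple S → ℓ ∣ Nat.card S → 𝒜 S →
  ∀ (D : Type) [Group D] [Finite D], opCore ℓ D = ⊥ → NearlySimpleF ℓ D S →
  Involves H (D ⧸ Subgroup.center D) → Subgroup.center D ≤ commutator D →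
  ∀ e : D → F, IsIdem e →
  (∀ z ∈ Subgroup.center D, z ≠ 1 → ∃ c : F, c ≠ 1 ∧ ∀ x, e (z * x) = c * e x) →
  Pos ℓ e ⊤ → YY ℓ ⊤ e = 0

/-- the induction hypothesis -/
def YltC (ℓ : ℕ) (F : Type) [Field F] (𝒜 : Fam) (m : ℕ) : Prop :=
  ∀ (H : Type) [Group H] [Finite H] (N : Subgroup H), N.Normal → mu N < m → Cls ℓ 𝒜 N →
    Hyp ℓ F 𝒜 H → YH ℓ F N

end Pool.Agent.PP.X2
end
end -- Pool.Agent.Helper18_X2.Defs

section -- Pool.Agent.Helper18_X2.Stmts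

/-!
# AWC, part X2: the statements of the modules

Text: `AWC_X2.md`.
-/

open scoped BigOperators

noncomputable section

namespace Pool.Agent.PP.X2

open Pool.Agent.Helper51_AWC Pool.Agent.Helper79_WRA Pool.Agent.PP

/-! ## 1. Quasisimple groups -/

/-- QUA: normal subgroups, quotients, central extensions and automorphisms of perfect central
extensions of nonabelian simple groups. -/
def QuaStmt : Prop := ∀ (K S : Type) [Group K] [Group S], NonabSimple S → CovS K S →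
  (∀ M : Subgroup K, M.Normal → M ≤ Subgroup.center K ∨ M = ⊤) ∧
  (¬ ∀ x y : K, x * y = y * x) ∧
  (∀ f : K →* S, Function.Surjective f → f.ker = Subgroup.center K) ∧
  (∀ (S' : Type) [Group S'], NonabSimple S' → ∀ f : K →* S', Function.Surjective f →
    Nonempty (S ≃* S')) ∧
  (∀ (L : Type) [Group L] (g : K →* L), Function.Surjective g → (∀ x, g x = 1) ∨ CovS L S) ∧
  (∀ (A : Type) [Group A] (g : A →* K), Function.Surjective g → g.ker ≤ Subgroup.center A →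
    CovS (commutator A) S ∧ (commutator A).map g = ⊤) ∧
  ∀ α : MulAut K, (∀ x, x⁻¹ * α x ∈ Subgroup.center K) → α = 1

/-- QMC: central extensions of `S` (not necessarily perfect). -/
def QmcStmt : Prop := ∀ (A S : Type) [Group A] [Group S], NonabSimple S →
  ∀ f : A →* S, Function.Surjective f → f.ker ≤ Subgroup.center A →
  CovS (commutator A) S ∧ (commutator A).map f = ⊤ ∧ f.ker = Subgroup.center A ∧
  ∀ x : A, ∃ y ∈ commutator A, ∃ z ∈ Subgroup.center A, x = y * z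

/-! ## 2. Products of commuting quasisimple groups -/

/-- LYB: first properties of `Lay`. -/
def LybStmt : Prop := ∀ (ℓ : ℕ) [Fact ℓ.Prime] (𝒜 : Fam) (H : Type) [Group H] [Finite H]
  (E : Subgroup H), Lay ℓ 𝒜 E →
  ⁅E, E⁆ = E ∧ ((∀ x ∈ E, ∀ y ∈ E, x * y = y * x) → E = ⊥) ∧
  E ≤ Subgroup.closure {x | x ∈ E ∧ ∃ n : ℕ, x ^ ℓ ^ n = 1}

/-- LYM: `Lay` under homomorphisms, subgroups. -/
def LymStmt : Prop := ∀ (ℓ : ℕ) (𝒜 : Fam) (H : Type) [Group H] (E : Subgroup H), Lay ℓ 𝒜 E →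
  (∀ (H' : Type) [Group H'] (φ : H →* H'), Lay ℓ 𝒜 (E.map φ)) ∧
  (∀ T : Subgroup H, E ≤ T → Lay ℓ 𝒜 (E.subgroupOf T)) ∧
  ∀ (D : Type) [Group D] (ψ : D →* H), E ≤ ψ.range → ψ.ker ≤ Subgroup.center D →
    Lay ℓ 𝒜 ⁅E.comap ψ, E.comap ψ⁆ ∧ (⁅E.comap ψ, E.comap ψ⁆).map ψ = E ∧
    ∀ x, ψ x ∈ E → ∃ y ∈ ⁅E.comap ψ, E.comap ψ⁆, ∃ z ∈ ψ.ker, x = y * z

/-- LYU: unions. -/
def LyuStmt : Prop := ∀ (ℓ : ℕ) (𝒜 : Fam) (H : Type) [Group H] (J : Type) [Finite J]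
  (E : J → Subgroup H), (∀ j, Lay ℓ 𝒜 (E j)) →
  (∀ i j, i ≠ j → ∀ x ∈ E i, ∀ y ∈ E j, x * y = y * x) → Lay ℓ 𝒜 (⨆ j, E j)

/-- PRM: automorphisms permute the factors; `E` acts on every factor by inner automorphisms. -/
def PrmStmt : Prop := ∀ (ℓ : ℕ) (𝒜 : Fam) (H : Type) [Group H] (E : Subgroup H) (I : Type)
  [Finite I] (K : I → Subgroup H), LayD ℓ 𝒜 E I K →
  (∀ i j, K i = K j → i = j) ∧
  (∀ g ∈ Subgroup.normalizer (E : Set H), ∀ i, ∃ j,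
    (K i).map (MulAut.conj g).toMonoidHom = K j) ∧
  (∀ x ∈ E, ∀ i, ∃ k ∈ K i, ∃ c ∈ E, x = k * c ∧ ∀ y ∈ K i, c * y = y * c) ∧
  ∀ x ∈ E, (∀ i, ∀ y ∈ K i, x * y = y * x) → ∀ y ∈ E, x * y = y * x

/-- NRM: `M` and `E` normalise each other: every factor of `E` is contained in `M` or
centralises `M`. -/
def NrmStmt : Prop := ∀ (ℓ : ℕ) (𝒜 : Fam) (H : Type) [Group H] [Finite H] (E M : Subgroup H)
  (I : Type) [Finite I] (K : I → Subgroup H), LayD ℓ 𝒜 E I K →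
  E ≤ Subgroup.normalizer (M : Set H) → M ≤ Subgroup.normalizer (E : Set H) →
  ∀ i, K i ≤ M ∨ ∀ x ∈ K i, ∀ m ∈ M, x * m = m * x

/-- NRE: the part of `E` in a normal subgroup `M`. -/
def NreStmt : Prop := ∀ (ℓ : ℕ) (𝒜 : Fam) (H : Type) [Group H] [Finite H] (E M : Subgroup H),
  E.Normal → M.Normal → Lay ℓ 𝒜 E → ∃ E₂ : Subgroup H, E₂.Normal ∧ E₂ ≤ E ∧ E₂ ≤ M ∧ Lay ℓ 𝒜 E₂ ∧
    ∀ x ∈ E, x ∈ M → ∀ y ∈ E, y ∈ M → x * y * x⁻¹ * y⁻¹ ∈ E₂

/-- NRB: `E` stabilises the functions on normal subgroups `M` which are invariant under `M`. -/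
def NrbStmt : Prop := ∀ (ℓ : ℕ) (𝒜 : Fam) (F H : Type) [Field F] [Group H] [Finite H]
  (E M : Subgroup H), E.Normal → M.Normal → Lay ℓ 𝒜 E → ∀ b : H → F, (∀ x, x ∉ M → b x = 0) →
  (∀ x ∈ M, ∀ y ∈ M, b (y * x * y⁻¹) = b x) → E ≤ stabF b

/-- MDA: simple quotients: abelian normal parts do not matter. -/
def MdaStmt : Prop := ∀ (H S : Type) [Group H] [Group S], NonabSimple S → ∀ (K B : Subgroup H)
  (f : K →* S), Function.Surjective f → K ≤ Subgroup.normalizer (B : Set H) →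
  (∀ x y : K, (x : H) ∈ B → (y : H) ∈ B → f x * f y = f y * f x) → ∀ x : K, (x : H) ∈ B → f x = 1

/-! ## 3. The class -/

/-- CLR: passage to a subgroup `T`. -/
def ClrStmt : Prop := ∀ (ℓ : ℕ) (𝒜 : Fam) (H : Type) [Group H] [Finite H] (N E T : Subgroup H),
  E.Normal → E ≤ N → Lay ℓ 𝒜 E → ModA ℓ 𝒜 N E → E ≤ T → Cls ℓ 𝒜 (N.subgroupOf T)

/-- CLS: passage to a normal subgroup. -/
def ClsStmt : Prop := ∀ (ℓ : ℕ) (𝒜 : Fam) (H : Type) [Group H] [Finite H] (N N₂ : Subgroup H),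
  N₂.Normal → N₂ ≤ N → Cls ℓ 𝒜 N → Cls ℓ 𝒜 N₂

/-- CLB: passage to the stabiliser of a function on a normal subgroup `M`. -/
def ClbStmt : Prop := ∀ (ℓ : ℕ) (𝒜 : Fam) (F H : Type) [Field F] [Group H] [Finite H]
  (N M : Subgroup H), M.Normal → Cls ℓ 𝒜 N → ∀ b : H → F, (∀ x, x ∉ M → b x = 0) →
  (∀ x ∈ M, ∀ y ∈ M, b (y * x * y⁻¹) = b x) → Cls ℓ 𝒜 (N.subgroupOf (stabF b))

/-- CLQ: quotients. -/
def ClqStmt : Prop := ∀ (ℓ : ℕ) (𝒜 : Fam) (H H' : Type) [Group H] [Finite H] [Group H']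
  [Finite H'] (p : H →* H') (N : Subgroup H), Function.Surjective p → Cls ℓ 𝒜 N →
  Cls ℓ 𝒜 (N.map p)

/-- CLP: central extensions. -/
def ClpStmt : Prop := ∀ (ℓ : ℕ) (𝒜 : Fam) (H D : Type) [Group H] [Finite H] [Group D] [Finite D]
  (ψ : D →* H) (N : Subgroup H), Function.Surjective ψ → ψ.ker ≤ Subgroup.center D →
  Cls ℓ 𝒜 N → Cls ℓ 𝒜 (N.comap ψ)

/-- CLM: groups which are central extensions of a member of the family. -/
def ClmStmt : Prop := ∀ (ℓ : ℕ) [Fact ℓ.Prime] (𝒜 : Fam) (S : Type) [Group S] [Finite S],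
  NonabSimple S → ℓ ∣ Nat.card S → 𝒜 S → ∀ (H : Type) [Group H] [Finite H] (N : Subgroup H),
  N.Normal → (∃ f : N →* S, Function.Surjective f ∧ f.ker ≤ Subgroup.center N) → Cls ℓ 𝒜 N

/-- CLE: normal subgroups `K` of `N = E (N ∩ Z(G))`, and groups isomorphic to them. -/
def CleStmt : Prop := ∀ (ℓ : ℕ) [Fact ℓ.Prime] (𝒜 : Fam) (G : Type) [Group G] [Finite G]
  (N E K : Subgroup G), E.Normal → E ≤ N → Lay ℓ 𝒜 E → N ≤ E ⊔ Subgroup.center G → K ≤ N →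
  N ≤ Subgroup.normalizer (K : Set G) → ∀ (H₁ : Type) [Group H₁] [Finite H₁] (Q₁ : Subgroup H₁),
  Q₁.Normal → Nonempty (Q₁ ≃* K) → Cls ℓ 𝒜 Q₁

/-- CLN: chief factors in the class. -/
def ClnStmt : Prop := ∀ (ℓ : ℕ) [Fact ℓ.Prime] (𝒜 : Fam) (G : Type) [Group G] [Finite G]
  (N : Subgroup G), Chief N → Cls ℓ 𝒜 N →
  InvA ℓ 𝒜 N ∨ ∃ E : Subgroup G, E.Normal ∧ E ≤ N ∧ Lay ℓ 𝒜 E ∧ N ≤ E ⊔ Subgroup.center G ∧
    (IsSimpleGroup (N ⧸ (Subgroup.center G).subgroupOf N) →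
      ∃ (S : Type) (_ : Group S) (_ : Finite S), NonabSimple S ∧ ℓ ∣ Nat.card S ∧ 𝒜 S ∧
        Nonempty ((N ⧸ (Subgroup.center G).subgroupOf N) ≃* S))

/-! ## 4. Fixed points of `ℓ`-groups -/

/-- FIX: `ℓ`-groups have fixed points on the cosets of normalised `ℓ'`-groups. -/
def FixStmt : Prop := ∀ (ℓ : ℕ) [Fact ℓ.Prime] (G : Type) [Group G] [Finite G] (P Z : Subgroup G),
  IsPGroup ℓ P → ¬ ℓ ∣ Nat.card Z → P ≤ Subgroup.normalizer (Z : Set G) → ∀ x : G,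
  (∀ p ∈ P, x⁻¹ * (p * x * p⁻¹) ∈ Z) → ∃ z ∈ Z, x * z ∈ Subgroup.centralizer (P : Set G)

/-- FXP: fixed points in a product of commuting groups. -/
def FxpStmt : Prop := ∀ (ℓ : ℕ) [Fact ℓ.Prime] (G : Type) [Group G] [Finite G] (P : Subgroup G),
  IsPGroup ℓ P → ∀ (J : Type) [Finite J] (E : J → Subgroup G),
  (∀ i j, i ≠ j → ∀ x ∈ E i, ∀ y ∈ E j, x * y = y * x) →
  (∀ j, P ≤ Subgroup.normalizer (E j : Set G)) →
  ¬ ℓ ∣ Nat.card (Subgroup.centralizer ((⨆ j, E j : Subgroup G) : Set G) ⊓ (⨆ j, E j) :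
    Subgroup G) →
  Subgroup.centralizer (P : Set G) ⊓ (⨆ j, E j) =
    ⨆ j, (Subgroup.centralizer (P : Set G) ⊓ E j)

/-- ORB: fixed points in the product of the factors of one orbit: a central extension of the fixed
points of an `ℓ`-group of automorphisms of `S`. -/
def OrbfStmt : Prop := ∀ (ℓ : ℕ) [Fact ℓ.Prime] (G : Type) [Group G] [Finite G] (P : Subgroup G),
  IsPGroup ℓ P → ∀ (I : Type) [Finite I] (K : I → Subgroup G),
  (∀ i j, i ≠ j → ∀ x ∈ K i, ∀ y ∈ K j, x * y = y * x) → (∀ i j, K i = K j → i = j) →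
  (∀ p ∈ P, ∀ i, ∃ j, (K i).map (MulAut.conj p).toMonoidHom = K j) →
  (∀ i j, ∃ p ∈ P, (K i).map (MulAut.conj p).toMonoidHom = K j) →
  ¬ ℓ ∣ Nat.card (Subgroup.centralizer ((⨆ i, K i : Subgroup G) : Set G) ⊓ (⨆ i, K i) :
    Subgroup G) →
  ∀ (i : I) (S : Type) [Group S] [Finite S], NonabSimple S → CovS (K i) S →
  ∃ Q : Subgroup (MulAut S), IsPGroup ℓ Q ∧
    ∃ π : (Subgroup.centralizer (P : Set G) ⊓ (⨆ i, K i) : Subgroup G) →* fixN Q,
      Function.Surjective π ∧ π.ker ≤ Subgroup.center _ ∧ ¬ ℓ ∣ Nat.card π.ker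

/-- FXI: inner automorphisms in an `ℓ`-group of automorphisms. -/
def FxiStmt : Prop := ∀ (ℓ : ℕ) [Fact ℓ.Prime] (S : Type) [Group S] [Finite S], NonabSimple S →
  ∀ Q : Subgroup (MulAut S), IsPGroup ℓ Q → Q ⊓ (MulAut.conj (G := S)).range ≠ ⊥ →
  opCore ℓ (fixN Q) ≠ ⊥

/-- LFC: lifting the three alternatives through a central `ℓ'`-extension. -/
def LfcStmt : Prop := ∀ (ℓ : ℕ) [Fact ℓ.Prime] (𝒜 : Fam) (A B : Type) [Group A] [Finite A]
  [Group B] [Finite B] (f : A →* B), Function.Surjective f → f.ker ≤ Subgroup.center A →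
  ¬ ℓ ∣ Nat.card f.ker →
  (opCore ℓ B ≠ ⊥ → opCore ℓ A ≠ ⊥) ∧ (Lay ℓ 𝒜 (Oup ℓ B) → Lay ℓ 𝒜 (Oup ℓ A)) ∧
    (InvA ℓ 𝒜 B → InvA ℓ 𝒜 A)

/-- ALT: the three alternatives for the fixed points in the factors of one orbit. -/
def AltStmt : Prop := ∀ (ℓ : ℕ) [Fact ℓ.Prime] (𝒜 : Fam), ClosedF ℓ 𝒜 →
  ∀ (S : Type) [Group S] [Finite S], NonabSimple S → ℓ ∣ Nat.card S → 𝒜 S →
  ∀ Q : Subgroup (MulAut S), IsPGroup ℓ Q → ∀ (C : Type) [Group C] [Finite C] (π : C →* fixN Q),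
  Function.Surjective π → π.ker ≤ Subgroup.center C → ¬ ℓ ∣ Nat.card π.ker →
  opCore ℓ C ≠ ⊥ ∨ Lay ℓ 𝒜 (Oup ℓ C) ∨ InvA ℓ 𝒜 C

/-- SQF: simple quotients of subgroups of a product of commuting subgroups. -/
def SqfStmt : Prop := ∀ (G : Type) [Group G] [Finite G] (J : Type) [Finite J]
  (C : J → Subgroup G) (E' : Subgroup G),
  (∀ i j, i ≠ j → ∀ x ∈ C i, ∀ y ∈ C j, x * y = y * x) →
  (⨆ j, C j) ≤ Subgroup.normalizer (E' : Set G) → E' ≤ (⨆ j, C j) →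
  ∀ (S : Type) [Group S] [Finite S], NonabSimple S → ∀ (L : Subgroup G) (f : L →* S),
  L ≤ (⨆ j, C j) → Function.Surjective f → (∀ x : L, (x : G) ∈ E' → f x = 1) →
  ∃ (j : J) (L₂ : Subgroup G) (f₂ : L₂ →* S), L₂ ≤ C j ∧ Function.Surjective f₂ ∧
    ∀ x : L₂, (x : G) ∈ E' → f₂ x = 1

/-- FXC: centralisers of `ℓ`-groups. -/
def FxcStmt : Prop := ∀ (ℓ : ℕ) [Fact ℓ.Prime] (𝒜 : Fam), ClosedF ℓ 𝒜 →
  ∀ (G : Type) [Group G] [Finite G] (N : Subgroup G), N.Normal → opCore ℓ N = ⊥ → Cls ℓ 𝒜 N →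
  ∀ P : Subgroup G, IsPGroup ℓ P → ∀ X : Subgroup G, Subgroup.centralizer (P : Set G) ≤ X →
  X ≤ Subgroup.normalizer (P : Set G) →
  opCore ℓ ((Subgroup.centralizer (P : Set G) ⊓ N).subgroupOf X) ≠ ⊥ ∨
    Cls ℓ 𝒜 ((Subgroup.centralizer (P : Set G) ⊓ N).subgroupOf X)

/-! ## 5. The hypothesis -/

/-- HYT: the hypothesis passes to subgroups, quotients, central extensions and subgroups of
`H × H`. -/
def HytStmt : Prop := ∀ (ℓ : ℕ) (F : Type) [Field F] (𝒜 : Fam) (H : Type) [Group H],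
  Hyp ℓ F 𝒜 H →
  (∀ (H' : Type) [Group H'] (p : H' →* H), p.ker ≤ Subgroup.center H' → Hyp ℓ F 𝒜 H') ∧
  (∀ (H' : Type) [Group H'] (p : H →* H'), Function.Surjective p → Hyp ℓ F 𝒜 H') ∧
  ∀ (H' : Type) [Group H'] (i : H' →* H × H), Function.Injective i → Hyp ℓ F 𝒜 H'

/-! ## 6. The character theoretic part (variants of the modules of PP) -/

/-- DZ2: DZ with the additional information `M' = ψ⁻¹(M / N)`. -/
def Dz2Stmt : Prop := ∀ (ℓ : ℕ) (F : Type) [Field F], GoodF ℓ F → ∀ (G : Type) [Group G] [Finite G]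
  (N M : Subgroup G) [N.Normal] (b e : G → F), NB ℓ N b → M.Normal → N ≤ M → IsIdem e →
  mulF e b = e → Pos ℓ e M → ∃ (D : Type) (_ : Group D) (_ : Finite D) (W M' : Subgroup D)
    (ψ : D →* G ⧸ N) (f : D → F),
    Function.Surjective ψ ∧ ψ.ker = W ∧ M' = (M.map (QuotientGroup.mk' N)).comap ψ ∧
    W ≤ Subgroup.center D ∧ ¬ ℓ ∣ Nat.card W ∧ M'.Normal ∧ W ≤ M' ∧
    W.relIndex M' = N.relIndex M ∧ IsIdem f ∧ Pos ℓ f M' ∧
    (Nat.card W : ℤ) * YY ℓ M e = (Nat.card N : ℤ) * YY ℓ M' f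

/-- LQC: LQN with the induction hypothesis only for the centralisers of `ℓ`-elements. -/
def LqcStmt : Prop := ∀ (ℓ : ℕ) [Fact ℓ.Prime] (F : Type) [Field F], GoodF ℓ F →
  ∀ (X : Type) [Group X] [Finite X] (Y X₀ : Subgroup X), Y.Normal → X₀.Normal → Y ≤ X₀ →
  (∃ n : ℕ, X₀.index = ℓ ^ n) → ¬ ℓ ∣ Nat.card (Subgroup.centralizer (Y : Set X)) →
  (∀ (G : Type) [Group G] [Finite G] (j : G →* X) (Z : Subgroup G) (u : G),
    Function.Injective j → Z.Normal → Z.map j = Y → u ≠ 1 → (∃ n : ℕ, u ^ ℓ ^ n = 1) →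
    Subgroup.zpowers u ⊓ Z = ⊥ →
    mu ((Subgroup.centralizer ({u} : Set G) ⊓ Z).subgroupOf
      (Subgroup.centralizer ({u} : Set G))) < mu Y →
    YH ℓ F ((Subgroup.centralizer ({u} : Set G) ⊓ Z).subgroupOf
      (Subgroup.centralizer ({u} : Set G)))) →
  ∀ e : X → F, IsIdem e → Pos ℓ e Y →
    YY ℓ (Y.subgroupOf X₀) (fun t : X₀ => e t) = 0 → YY ℓ Y e = 0

/-- FNC: FNL with the induction hypothesis only for the groups `C_M(P)`. -/
def FncStmt : Prop := ∀ (ℓ : ℕ) [Fact ℓ.Prime] (F : Type) [Field F], GoodF ℓ F →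
  ∀ (D : Type) [Group D] [Finite D] (M : Subgroup D), M.Normal →
  Subgroup.centralizer (M : Set D) = Subgroup.center D → ¬ ℓ ∣ Nat.card (Subgroup.center D) →
  Subgroup.center D ≤ M →
  (∀ P : Subgroup D, IsPGroup ℓ P → P ≠ ⊥ → ∀ X : Subgroup D,
    Subgroup.centralizer (P : Set D) ≤ X → X ≤ Subgroup.normalizer (P : Set D) →
    ((Subgroup.centralizer (P : Set D) ⊓ M).subgroupOf X).Normal →
    mu ((Subgroup.centralizer (P : Set D) ⊓ M).subgroupOf X) < mu M →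
    YH ℓ F ((Subgroup.centralizer (P : Set D) ⊓ M).subgroupOf X)) →
  ∀ f : D → F, IsIdem f → Pos ℓ f M → (Pos ℓ f ⊤ → YY ℓ ⊤ f = 0) → YY ℓ M f = 0

/-- ENC: the end of the proof of S1 in the group `D` (LQU for the class). -/
def EncStmt : Prop := ∀ (ℓ : ℕ) [Fact ℓ.Prime] (F : Type) [Field F], GoodF ℓ F →
  ∀ 𝒜 : Fam, ClosedF ℓ 𝒜 → ∀ (S : Type) [Group S] [Finite S], NonabSimple S → ℓ ∣ Nat.card S →
  𝒜 S → ∀ (D : Type) [Group D] [Finite D] (M : Subgroup D), M.Normal → opCore ℓ D = ⊥ →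
  NearlySimple D S → Subgroup.centralizer (M : Set D) = Subgroup.center D →
  ¬ ℓ ∣ Nat.card (Subgroup.center D) → Subgroup.center D ≤ M → mu M = Nat.card S →
  Hyp ℓ F 𝒜 D → YltC ℓ F 𝒜 (mu M) → ∀ f : D → F, IsIdem f →
  (∀ z ∈ Subgroup.center D, z ≠ 1 → ∃ c : F, c ≠ 1 ∧ ∀ x, f (z * x) = c * f x) →
  Pos ℓ f M → YY ℓ M f = 0

/-- S1N: the reduction to the nearly simple groups (the theorem `H67.s1_core` with a general last
step). -/
def S1nxStmt : Prop := ∀ (ℓ : ℕ) [Fact ℓ.Prime] (F : Type) [Field F], GoodF ℓ F →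
  ∀ (G : Type) [Group G] [Finite G] (N : Subgroup G), N.Normal → opCore ℓ N = ⊥ →
  NASimple (N ⧸ (Subgroup.center G).subgroupOf N) → NilOut N →
  (∀ (E : Type) [Group E] [Finite E] (p : E →* G) (K : Subgroup E) [K.Normal],
    (∀ x, p x = 1 → x ∈ Subgroup.center E) → ∀ M : Subgroup (E ⧸ K), M.Normal →
    opCore ℓ (E ⧸ K) = ⊥ → NearlySimple (E ⧸ K) (N ⧸ (Subgroup.center G).subgroupOf N) →
    Subgroup.centralizer (M : Set (E ⧸ K)) = Subgroup.center (E ⧸ K) →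
    ¬ ℓ ∣ Nat.card (Subgroup.center (E ⧸ K)) → Subgroup.center (E ⧸ K) ≤ M → mu M = mu N →
    ∀ f : E ⧸ K → F, IsIdem f →
    (∀ z ∈ Subgroup.center (E ⧸ K), z ≠ 1 → ∃ c : F, c ≠ 1 ∧ ∀ x, f (z * x) = c * f x) →
    Pos ℓ f M → YY ℓ M f = 0) →
  YH ℓ F N

/-- S1M: nilpotent outer part. -/
def S1mStmt : Prop := ∀ (ℓ : ℕ) [Fact ℓ.Prime] (F : Type) [Field F], GoodF ℓ F →
  ∀ 𝒜 : Fam, ClosedF ℓ 𝒜 → ∀ (S : Type) [Group S] [Finite S], NonabSimple S → ℓ ∣ Nat.card S →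
  𝒜 S → ∀ (G : Type) [Group G] [Finite G] (N : Subgroup G), N.Normal → opCore ℓ N = ⊥ →
  Nonempty ((N ⧸ (Subgroup.center G).subgroupOf N) ≃* S) → NilOut N → Hyp ℓ F 𝒜 G →
  YltC ℓ F 𝒜 (mu N) → YH ℓ F N

/-- S1C: the case of a simple chief factor. -/
def S1cStmt : Prop := ∀ (ℓ : ℕ) [Fact ℓ.Prime] (F : Type) [Field F], GoodF ℓ F →
  ∀ 𝒜 : Fam, ClosedF ℓ 𝒜 → ∀ (S : Type) [Group S] [Finite S], NonabSimple S → ℓ ∣ Nat.card S →
  𝒜 S → ∀ (G : Type) [Group G] [Finite G] (N : Subgroup G), N.Normal → opCore ℓ N = ⊥ →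
  Nonempty ((N ⧸ (Subgroup.center G).subgroupOf N) ≃* S) → Hyp ℓ F 𝒜 G →
  YltC ℓ F 𝒜 (mu N) → YH ℓ F N

/-- R2C: the case of a nonabelian chief factor that is not simple. -/
def R2cStmt : Prop := ∀ (ℓ : ℕ) [Fact ℓ.Prime] (F : Type) [Field F], GoodF ℓ F →
  ∀ 𝒜 : Fam, ∀ (G : Type) [Group G] [Finite G] (N : Subgroup G), Chief N → opCore ℓ N = ⊥ →
  (∃ x ∈ N, ∃ y ∈ N, x * y * x⁻¹ * y⁻¹ ∉ Subgroup.center G) →
  ¬ IsSimpleGroup (N ⧸ (Subgroup.center G).subgroupOf N) →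
  (∃ E : Subgroup G, E.Normal ∧ E ≤ N ∧ Lay ℓ 𝒜 E ∧ N ≤ E ⊔ Subgroup.center G) →
  Hyp ℓ F 𝒜 G → YltC ℓ F 𝒜 (mu N) →
  ∀ e : G → F, IsBlk e → Pos ℓ e N → ∀ b : N → F, IsBlk b → stabF (ext0 N b) = ⊤ →
    mulF e (ext0 N b) = e → YY ℓ N e = 0

/-- TOPC: the master theorem. -/
def MainCStmt : Prop := ∀ (ℓ : ℕ) [Fact ℓ.Prime] (F : Type) [Field F], GoodF ℓ F →
  ∀ 𝒜 : Fam, ClosedF ℓ 𝒜 → ∀ (H : Type) [Group H] [Finite H] (N : Subgroup H), N.Normal →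
  Cls ℓ 𝒜 N → Hyp ℓ F 𝒜 H → YH ℓ F N

/-- VC: two generators of the outer part suffice. -/
def VcStmt : Prop := ∀ (ℓ : ℕ) [Fact ℓ.Prime] (F : Type) [Field F], GoodF ℓ F →
  ∀ 𝒜 : Fam, ClosedF ℓ 𝒜 → ∀ (H : Type) [Group H] [Finite H], HypV ℓ F 𝒜 H → Hyp ℓ F 𝒜 H

/-- STC: the groups `D` with `Z(D) ≤ [D, D]` suffice. -/
def StcStmt : Prop := ∀ (ℓ : ℕ) [Fact ℓ.Prime] (F : Type) [Field F], GoodF ℓ F →
  ∀ (𝒜 : Fam) (H : Type) [Group H] [Finite H], HypQ ℓ F 𝒜 H → HypV ℓ F 𝒜 H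

/-- RELC: the relative form. -/
def RelCStmt : Prop := ∀ (ℓ : ℕ) [Fact ℓ.Prime] (F : Type) [Field F], GoodF ℓ F →
  ∀ 𝒜 : Fam, ClosedF ℓ 𝒜 → ∀ (G : Type) [Group G] [Finite G] (N : Subgroup G), N.Normal →
  opCore ℓ N = ⊥ → Cls ℓ 𝒜 N → Hyp ℓ F 𝒜 G → ∀ e : G → F, IsIdem e → Pos ℓ e N → YY ℓ ⊤ e = 0

/-! ## 7. The final theorem -/

/-- The hypothesis in terms of ordinary characters: the alternating sums vanish for the characters
`χ` of large defect, faithful on the centre, of the groups `D` with `O_ℓ(D) = 1`,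
`Z(D) ≤ [D, D]`, `D / Z(D)` almost simple with socle in `𝒜` of order divisible by `ℓ` and involved
in `G`, with outer part a nilpotent group of order prime to `ℓ` generated by two elements. -/
def HypC (ℓ : ℕ) (M : Ideal (integralClosure ℤ ℂ)) (𝒜 : Fam) (G : Type) [Group G] : Prop :=
  ∀ (S : Type) [Group S] [Finite S], NonabSimple S → ℓ ∣ Nat.card S → 𝒜 S →
  ∀ (D : Type) [Group D] [Finite D], opCore ℓ D = ⊥ → Subgroup.center D ≤ commutator D →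
  NearlySimpleF ℓ D S → Involves G (D ⧸ Subgroup.center D) →
  ∀ χ ∈ Irr D, (∀ z ∈ Subgroup.center D, χ z = χ 1 → z = 1) → LargeDefect ℓ M χ →
    altSum ℓ M χ = 0

/-- The subgroup `E` is generated by pairwise commuting quasisimple subgroups whose simple
quotients are in `𝒜` or have order prime to `ℓ`. -/
def LayG (ℓ : ℕ) (𝒜 : Fam) {H : Type} [Group H] (E : Subgroup H) : Prop :=
  ∃ (I : Type) (_ : Finite I) (K : I → Subgroup H),
    (∀ i j, i ≠ j → ∀ x ∈ K i, ∀ y ∈ K j, x * y = y * x) ∧ (⨆ i, K i) = E ∧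
    ∀ i, ∃ (S : Type) (_ : Group S) (_ : Finite S), NonabSimple S ∧ (ℓ ∣ Nat.card S → 𝒜 S) ∧
      CovS (K i) S

/-- CLG: `LayG` gives the class. -/
def ClgStmt : Prop := ∀ (ℓ : ℕ) [Fact ℓ.Prime] (𝒜 : Fam) (G : Type) [Group G] [Finite G]
  (N E : Subgroup G), E.Normal → E ≤ N → LayG ℓ 𝒜 E → ModA ℓ 𝒜 N E → Cls ℓ 𝒜 N

/-- FINC: the final theorem. -/
def FinCStmt : Prop := ∀ (ℓ : ℕ), ℓ.Prime → ∀ (M : Ideal (integralClosure ℤ ℂ)) [M.IsMaximal],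
  (ℓ : integralClosure ℤ ℂ) ∈ M → ∀ 𝒜 : Fam, ClosedF ℓ 𝒜 → ∀ (G : Type) [Group G] [Finite G],
  opCore ℓ G ≤ Subgroup.center G → ∀ N E : Subgroup G, N.Normal → E.Normal → E ≤ N →
  LayG ℓ 𝒜 E → ModA ℓ 𝒜 N E → HypC ℓ M 𝒜 G →
  ∀ χ ∈ Irr G, ∀ ψ ∈ Irr N, (∑ᶠ n : N, χ n * starRingEnd ℂ (ψ n)) ≠ 0 → LargeDefect ℓ M ψ →
    altSum ℓ M χ = 0

/-- CLA: the simple groups involved in a fixed group are a closed family. -/
def ClaStmt : Prop := ∀ (ℓ : ℕ) [Fact ℓ.Prime] (G : Type) [Group G] [Finite G],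
  ClosedF ℓ (fun S _ _ => Involves G S)

/-- CLO: families with the three alternatives for every member: members `S` without outer
automorphisms of order `ℓ`, or all simple groups of order divisible by `ℓ` involved in `S` are
members. -/
def CloStmt : Prop := ∀ (ℓ : ℕ) [Fact ℓ.Prime] (𝒜 : Fam),
  (∀ (S : Type) [Group S] [Finite S], NonabSimple S → ℓ ∣ Nat.card S → 𝒜 S →
    (∀ α : MulAut S, (∃ n : ℕ, α ^ ℓ ^ n = 1) → ∃ s : S, α = MulAut.conj s) ∨ InvA ℓ 𝒜 S) →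
  ClosedF ℓ 𝒜

end Pool.Agent.PP.X2
end
end -- Pool.Agent.Helper18_X2.Stmts

section -- Pool.Agent.Helper18_X2.StmtsF

/-!
# AWC, part X2, second part: a closed family without hypotheses

Text: `AWC_X2F.md`.
-/

open scoped BigOperators

noncomputable section

namespace Pool.Agent.PP.X2

open Pool.Agent.Helper51_AWC Pool.Agent.Helper79_WRA Pool.Agent.PP

/-! ## Notation -/

/-- `PSL_2(K)` -/
abbrev PS (K : Type) [Field K] : Type := Matrix.ProjectiveSpecialLinearGroup (Fin 2) K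

/-- the matrix with rows `(1, x)`, `(0, 1)` -/
def uS {K : Type} [Field K] (x : K) : Matrix.SpecialLinearGroup (Fin 2) K :=
  ⟨!![1, x; 0, 1], by simp [Matrix.det_fin_two]⟩

/-- the matrix with rows `(1, 0)`, `(x, 1)` -/
def vS {K : Type} [Field K] (x : K) : Matrix.SpecialLinearGroup (Fin 2) K :=
  ⟨!![1, 0; x, 1], by simp [Matrix.det_fin_two]⟩

/-- the class of `uS x` -/
def uP {K : Type} [Field K] (x : K) : PS K :=
  QuotientGroup.mk' (Subgroup.center (Matrix.SpecialLinearGroup (Fin 2) K)) (uS x)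

/-- the class of `vS x` -/
def vP {K : Type} [Field K] (x : K) : PS K :=
  QuotientGroup.mk' (Subgroup.center (Matrix.SpecialLinearGroup (Fin 2) K)) (vS x)

/-- the Sylow `ℓ`-subgroups intersect trivially, and every one is transitive on the others -/
def TrS (ℓ : ℕ) (S : Type) [Group S] : Prop :=
  (∀ P P' : Sylow ℓ S, P ≠ P' → ∀ x ∈ P, x ∈ P' → x = 1) ∧
  ∀ P P₁ P₂ : Sylow ℓ S, P₁ ≠ P → P₂ ≠ P → ∃ u ∈ P, ∀ x, x ∈ P₂ ↔ u⁻¹ * x * u ∈ P₁

/-! ## The modules -/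

/-- CYS: the simple groups of order divisible by `ℓ` involved in a group with a cyclic trivial
intersection Sylow `ℓ`-subgroup have such Sylow subgroups. -/
def CysStmt : Prop := ∀ (ℓ : ℕ) [Fact ℓ.Prime] (G : Type) [Group G] [Finite G], CyTI ℓ G →
  ∀ (S : Type) [Group S] [Finite S], NonabSimple S → ℓ ∣ Nat.card S → Involves G S → CyTI ℓ S

/-- RKF: fixed points of an `ℓ`-group of automorphisms of a group with the property `TrS`. -/
def RkfStmt : Prop := ∀ (ℓ : ℕ) [Fact ℓ.Prime] (S : Type) [Group S] [Finite S],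
  ℓ ∣ Nat.card S → TrS ℓ S → ∀ Q : Subgroup (MulAut S), IsPGroup ℓ Q →
  opCore ℓ (fixN Q) ≠ ⊥ ∨ ∃ P₁ P₂ : Sylow ℓ S, P₁ ≠ P₂ ∧ (∀ α ∈ Q, ∀ x ∈ P₁, α x ∈ P₁) ∧
    (∀ α ∈ Q, ∀ x ∈ P₂, α x ∈ P₂) ∧
    (Oup ℓ (fixN Q)).map (fixN Q).subtype =
      (fixN Q ⊓ (P₁ : Subgroup S)) ⊔ (fixN Q ⊓ (P₂ : Subgroup S)) ∧
    ∀ n : ℕ, ℓ ^ n ∣ Nat.card (fixN Q) → ℓ ^ n ∣ Nat.card (fixN Q ⊓ (P₁ : Subgroup S) : Subgroup S) ∨
      ℓ ^ n ∣ Nat.card (fixN Q ⊓ (P₂ : Subgroup S) : Subgroup S)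

/-- PSB: the Sylow `ℓ`-subgroups of `PSL_2(K)`. -/
def PsbStmt : Prop := ∀ (ℓ : ℕ) [Fact ℓ.Prime] (K : Type) [Field K] [Finite K] [CharP K ℓ],
  ℓ ∣ Nat.card (PS K) ∧ TrS ℓ (PS K) ∧ ∀ P₁ P₂ : Sylow ℓ (PS K), P₁ ≠ P₂ → ∃ g : PS K,
    (∀ x, x ∈ P₁ ↔ ∃ t : K, x = g * uP t * g⁻¹) ∧ ∀ x, x ∈ P₂ ↔ ∃ t : K, x = g * vP t * g⁻¹

/-- PSC: automorphisms of `PSL_2(K)` which stabilise both unipotent subgroups. -/
def PscStmt : Prop := ∀ (K : Type) [Field K] [Finite K], ∀ Q : Subgroup (MulAut (PS K)),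
  (∀ α ∈ Q, ∀ x : K, ∃ y : K, α (uP x) = uP y) → (∀ α ∈ Q, ∀ x : K, ∃ y : K, α (vP x) = vP y) →
  ∀ d : K, d ≠ 0 → (∀ α ∈ Q, α (uP d) = uP d) → ∃ K₀ : Subfield K,
    (∀ x : K, (∀ α ∈ Q, α (uP (d * x)) = uP (d * x)) ↔ x ∈ K₀) ∧
    ∀ x : K, (∀ α ∈ Q, α (vP (d⁻¹ * x)) = vP (d⁻¹ * x)) ↔ x ∈ K₀

/-- PSD: the subgroup generated by the unipotent elements over a subfield. -/
def PsdStmt : Prop := ∀ (K : Type) [Field K] (K₀ : Subfield K) (d : K), d ≠ 0 →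
  Nonempty ((Subgroup.closure {z : PS K | ∃ x ∈ K₀, z = uP (d * x) ∨ z = vP (d⁻¹ * x)} :
    Subgroup (PS K)) ≃* PS K₀)

/-- PSQ: fixed points of `ℓ`-groups of automorphisms of `PSL_2(K)`. -/
def PsqStmt : Prop := ∀ (ℓ : ℕ) [Fact ℓ.Prime] (K : Type) [Field K] [Finite K] [CharP K ℓ]
  (Q : Subgroup (MulAut (PS K))), IsPGroup ℓ Q →
  opCore ℓ (fixN Q) ≠ ⊥ ∨ ¬ ℓ ^ 2 ∣ Nat.card (fixN Q) ∨
    ∃ (K₀ : Type) (_ : Field K₀) (_ : Finite K₀), CharP K₀ ℓ ∧ 4 ≤ Nat.card K₀ ∧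
      Nonempty (Oup ℓ (fixN Q) ≃* PS K₀)

/-! ## The family -/

/-- The simple groups `S` with a cyclic trivial intersection Sylow `ℓ`-subgroup, the groups
`PSL_2(K)` over finite fields of characteristic `ℓ`, and the simple groups of rank one in
characteristic `ℓ` such that all automorphisms of order a power of `ℓ` are inner or all simple
groups of order divisible by `ℓ` involved in `S` are of rank one or have a cyclic trivial
intersection Sylow `ℓ`-subgroup. -/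
def GoodS (ℓ : ℕ) : Fam := fun S _ _ => CyTI ℓ S ∨
  (∃ (K : Type) (_ : Field K) (_ : Finite K), CharP K ℓ ∧ Nonempty (S ≃* PS K)) ∨
  (RankOne ℓ S ∧ ((∀ α : MulAut S, (∃ n : ℕ, α ^ ℓ ^ n = 1) → ∃ s : S, α = MulAut.conj s) ∨
    ∀ (S' : Type) [Group S'] [Finite S'], NonabSimple S' → ℓ ∣ Nat.card S' → Involves S S' →
      RankOne ℓ S' ∨ CyTI ℓ S'))

/-- CLF: the family is closed. -/
def ClfStmt : Prop := ∀ (ℓ : ℕ) [Fact ℓ.Prime], ClosedF ℓ (GoodS ℓ)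

end Pool.Agent.PP.X2
end
end -- Pool.Agent.Helper18_X2.StmtsF

section -- Pool.Agent.Helper18_X2.DefsR

/-!
# AWC, part X2: definitions for the final theorem
-/

open scoped BigOperators

noncomputable section

namespace Pool.Agent.PP.X2

open Pool.Agent.Helper51_AWC Pool.Agent.Helper79_WRA Pool.Agent.PP

/-- The simple groups of order prime to `ℓ`, the simple groups in `GoodS ℓ` and those in `𝒜`. -/
def Adm (ℓ : ℕ) (𝒜 : Fam) : Fam := fun S _ _ => ¬ ℓ ∣ Nat.card S ∨ GoodS ℓ S ∨ 𝒜 S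

/-- The subgroup `E` is generated by finitely many pairwise commuting subgroups `K i` which are
perfect central extensions of nonabelian simple groups in `𝒞` (possibly `E = 1`). -/
def QProd (𝒞 : Fam) {H : Type} [Group H] (E : Subgroup H) : Prop :=
  ∃ (I : Type) (_ : Finite I) (K : I → Subgroup H),
    (∀ i j, i ≠ j → ∀ x ∈ K i, ∀ y ∈ K j, x * y = y * x) ∧ (⨆ i, K i) = E ∧
    ∀ i, ∃ (S : Type) (_ : Group S) (_ : Finite S), NonabSimple S ∧ 𝒞 S ∧ CovS (K i) S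

/-- All nonabelian simple groups involved in `A` are in `𝒞`. -/
def AllIn (𝒞 : Fam) (A : Type) [Group A] : Prop :=
  ∀ (S : Type) [Group S] [Finite S], NonabSimple S → Involves A S → 𝒞 S

/-- For every nontrivial `ℓ`-group `Q` of automorphisms of `S` without inner automorphisms `≠ 1`, the
group `C` of the fixed points of `Q` has a nontrivial normal `ℓ`-subgroup, or the subgroup generated
by its `ℓ`-elements is a product of commuting quasisimple groups over simple groups in `𝒞`, or all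
nonabelian simple groups involved in `C` are in `𝒞`. -/
def FixIn (ℓ : ℕ) (𝒞 : Fam) (S : Type) [Group S] [Finite S] : Prop :=
  ∀ Q : Subgroup (MulAut S), Q ≠ ⊥ → IsPGroup ℓ Q → Q ⊓ (MulAut.conj (G := S)).range = ⊥ →
    opCore ℓ (fixN Q) ≠ ⊥ ∨ QProd 𝒞 (Oup ℓ (fixN Q)) ∨ AllIn 𝒞 (fixN Q)

end Pool.Agent.PP.X2
end
end -- Pool.Agent.Helper18_X2.DefsR

section -- Pool.Agent.Helper36_X1.Defs

/-!
# Root group data of characteristic `ℓ`

The finite groups of Lie type of characteristic `ℓ`, of any rank, have such a datum.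
-/

open scoped BigOperators

noncomputable section

namespace Pool.Agent.PP.X1

/-- The reflection in the hyperplane orthogonal to `a`. -/
def rf {m : ℕ} (a v : EuclideanSpace ℝ (Fin m)) : EuclideanSpace ℝ (Fin m) :=
  v - (2 * inner ℝ a v / inner ℝ a a) • a

/-- `v` is a linear combination of the vectors `a i` with nonnegative coefficients. -/
def Nn {m r : ℕ} (a : Fin r → EuclideanSpace ℝ (Fin m)) (v : EuclideanSpace ℝ (Fin m)) : Prop :=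
  ∃ k : Fin r → ℝ, (∀ i, 0 ≤ k i) ∧ v = ∑ i, k i • a i

/-- A root group datum of characteristic `ℓ` of the group `G`: a finite set `Φ` of roots with simple
roots `a i` in a Euclidean space, root groups `X b` (`b ∈ Φ`) which are `ℓ`-groups, a group `T` of
order prime to `ℓ` normalising them, and elements `n i` which induce on the root groups the
reflections in the simple roots. -/
structure RGD (ℓ : ℕ) (G : Type) [Group G] where
  /-- the dimension of the Euclidean space -/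
  m : ℕ
  /-- the number of simple roots -/
  r : ℕ
  /-- the simple roots -/
  a : Fin r → EuclideanSpace ℝ (Fin m)
  /-- the roots -/
  Φ : Set (EuclideanSpace ℝ (Fin m))
  /-- the root groups -/
  X : EuclideanSpace ℝ (Fin m) → Subgroup G
  /-- the torus -/
  T : Subgroup G
  /-- representatives of the simple reflections -/
  n : Fin r → G
  /-- there are finitely many roots -/
  fin : Φ.Finite
  /-- the simple roots are linearly independent -/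
  base : LinearIndependent ℝ a
  /-- the simple roots are roots -/
  mem : ∀ i, a i ∈ Φ
  /-- the roots are nonzero -/
  ne0 : ∀ b ∈ Φ, b ≠ 0
  /-- every root or its negative is a nonnegative combination of simple roots -/
  sgn : ∀ b ∈ Φ, Nn a b ∨ Nn a (-b)
  /-- the roots are permuted by the simple reflections -/
  refl : ∀ i, ∀ b ∈ Φ, rf (a i) b ∈ Φ
  /-- a simple root is the shortest root on its ray -/
  short : ∀ i (c : ℝ), 0 < c → c • a i ∈ Φ → 1 ≤ c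
  /-- the root groups are `ℓ`-groups -/
  pgrp : ∀ b ∈ Φ, IsPGroup ℓ (X b)
  /-- the root groups of the simple roots are not trivial -/
  nt : ∀ i, X (a i) ≠ ⊥
  /-- the root groups of a ray are nested -/
  nest : ∀ b ∈ Φ, ∀ c : ℝ, 1 ≤ c → c • b ∈ Φ → X (c • b) ≤ X b
  /-- the order of the torus is prime to `ℓ` -/
  cop : ¬ ℓ ∣ Nat.card T
  /-- the torus normalises the root groups -/
  tX : ∀ t ∈ T, ∀ b ∈ Φ, ∀ x ∈ X b, t * x * t⁻¹ ∈ X b
  /-- `n i` induces the reflection in the simple root `a i` on the root groups -/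
  nX : ∀ i, ∀ b ∈ Φ, ∀ x ∈ X b, n i * x * (n i)⁻¹ ∈ X (rf (a i) b)
  /-- `n i` normalises the torus -/
  nT : ∀ i, ∀ t ∈ T, n i * t * (n i)⁻¹ ∈ T
  /-- the square of `n i` is in the torus -/
  nn : ∀ i, n i * n i ∈ T
  /-- `n i` is in the group generated by the root groups of `a i` and its negative -/
  nmem : ∀ i, n i ∈ X (a i) ⊔ X (-a i)
  /-- the commutator relations -/
  comm : ∀ b ∈ Φ, ∀ c ∈ Φ, (∀ s : ℝ, 0 < s → c ≠ -(s • b)) → ∀ x ∈ X b, ∀ y ∈ X c,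
    x * y * x⁻¹ * y⁻¹ ∈ ⨆ d ∈ {d ∈ Φ | ∃ p q : ℝ, 1 ≤ p ∧ 1 ≤ q ∧ d = p • b + q • c}, X d
  /-- the groups of rank one -/
  cell : ∀ i, ∀ x ∈ X (a i), x ≠ 1 →
    ∃ y ∈ X (a i), ∃ z ∈ X (a i), ∃ t ∈ T, n i * x * (n i)⁻¹ = y * (n i * t) * z
  /-- the group generated by the positive root groups meets the group generated by the torus and the
  negative root groups trivially -/
  opp : (⨆ b ∈ {b ∈ Φ | Nn a b}, X b) ⊓ (T ⊔ ⨆ b ∈ {b ∈ Φ | Nn a (-b)}, X b) = ⊥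
  /-- `G` is generated by the torus and the root groups -/
  gen : T ⊔ ⨆ b ∈ Φ, X b = ⊤

/-- `S` has a root group datum of characteristic `ℓ`. -/
def LieType (ℓ : ℕ) (S : Type) [Group S] : Prop := Nonempty (RGD ℓ S)

namespace RGD

variable {ℓ : ℕ} {G : Type} [Group G] (R : RGD ℓ G)

/-- the Euclidean space -/
abbrev E : Type := EuclideanSpace ℝ (Fin R.m)

/-- the simple reflection -/
def s (i : Fin R.r) (v : R.E) : R.E := rf (R.a i) v

/-- the positive roots -/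
def pos : Set R.E := {b | b ∈ R.Φ ∧ Nn R.a b}

/-- the negative roots -/
def neg : Set R.E := {b | b ∈ R.Φ ∧ Nn R.a (-b)}

/-- the roots in the span of the simple roots in `J` -/
def lev (J : Finset (Fin R.r)) : Set R.E :=
  {b | b ∈ R.Φ ∧ b ∈ Submodule.span ℝ (R.a '' (J : Set (Fin R.r)))}

/-- the positive multiples of the simple root `a i` -/
def ray (i : Fin R.r) : Set R.E := {b | b ∈ R.Φ ∧ ∃ c : ℝ, 0 < c ∧ b = c • R.a i}

/-- the group generated by the root groups of the set `A` of roots -/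
def gp (A : Set R.E) : Subgroup G := ⨆ b ∈ A, R.X b

/-- the Sylow subgroup `U` -/
def U : Subgroup G := R.gp R.pos

/-- the opposite Sylow subgroup -/
def V : Subgroup G := R.gp R.neg

/-- the Borel subgroup -/
def B : Subgroup G := R.T ⊔ R.U

/-- the unipotent radical of the parabolic subgroup of type `J` -/
def UJ (J : Finset (Fin R.r)) : Subgroup G := R.gp (R.pos \ R.lev J)

/-- the parabolic subgroup of type `J` -/
def PJ (J : Finset (Fin R.r)) : Subgroup G := R.T ⊔ R.gp (R.pos ∪ R.lev J)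

/-- the action of a word on the Euclidean space -/
def sw (w : List (Fin R.r)) (v : R.E) : R.E := w.foldr (fun i u => R.s i u) v

/-- the element of a word -/
def nw (w : List (Fin R.r)) : G := (w.map R.n).prod

/-- the torus of the group of rank one of the simple root `a i` -/
def Ti (i : Fin R.r) : Subgroup G := R.T ⊓ (R.X (R.a i) ⊔ R.X (-R.a i))

/-- the subgroup generated by the `Ti i`, `i ∈ K` -/
def TK (K : Finset (Fin R.r)) : Subgroup G := ⨆ i ∈ K, R.Ti i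

/-- closed sets of roots -/
structure Clo (A : Set R.E) : Prop where
  sub : A ⊆ R.Φ
  up : ∀ b ∈ A, ∀ c : ℝ, 1 ≤ c → c • b ∈ R.Φ → c • b ∈ A
  add : ∀ b ∈ A, ∀ c ∈ A, ∀ p q : ℝ, 1 ≤ p → 1 ≤ q → p • b + q • c ∈ R.Φ → p • b + q • c ∈ A

end RGD

end Pool.Agent.PP.X1
end
end -- Pool.Agent.Helper36_X1.Defs

section -- Pool.Agent.Helper36_X1.Basic

/-!
# Root group data: first properties
-/

open scoped BigOperators

set_option linter.unusedSectionVars false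

noncomputable section

namespace Pool.Agent.PP.X1

section refl

variable {m : ℕ} (a v w : EuclideanSpace ℝ (Fin m))

theorem rf_add : rf a (v + w) = rf a v + rf a w := by
  unfold rf
  rw [inner_add_right, mul_add, add_div, add_smul]
  abel

theorem rf_smul (c : ℝ) : rf a (c • v) = c • rf a v := by
  unfold rf
  rw [real_inner_smul_right, smul_sub, smul_smul]
  congr 2
  ring

theorem rf_neg : rf a (-v) = -rf a v := by
  have := rf_smul a v (-1)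
  rwa [neg_one_smul, neg_one_smul] at this

theorem inner_self_ne {a : EuclideanSpace ℝ (Fin m)} (h : a ≠ 0) : inner ℝ a a ≠ (0 : ℝ) :=
  inner_self_ne_zero.mpr h

theorem rf_self (h : a ≠ 0) : rf a a = -a := by
  unfold rf
  rw [mul_div_assoc, div_self (inner_self_ne h), mul_one, two_smul]
  abel

theorem rf_rf (h : a ≠ 0) : rf a (rf a v) = v := by
  have h1 : rf a (rf a v) = rf a v - (2 * inner ℝ a v / inner ℝ a a) • rf a a := by
    conv_lhs => rw [show rf a v = v + -((2 * inner ℝ a v / inner ℝ a a) • a) from sub_eq_add_neg _ _]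
    rw [rf_add, rf_neg, rf_smul]
    abel
  rw [h1, rf_self a h]
  unfold rf
  rw [smul_neg]
  abel

theorem rf_inner (h : a ≠ 0) : inner ℝ (rf a v) (rf a w) = (inner ℝ v w : ℝ) := by
  have hn := inner_self_ne h
  unfold rf
  rw [inner_sub_left, inner_sub_right, inner_sub_right, real_inner_smul_left, real_inner_smul_right,
    real_inner_smul_left, real_inner_smul_right, real_inner_comm a v]
  field_simp
  ring

/-- `rf a v = v` if `v` is orthogonal to `a` -/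
theorem rf_of_orth (h : inner ℝ a v = (0 : ℝ)) : rf a v = v := by
  unfold rf
  rw [h]
  simp

end refl

namespace RGD

variable {ℓ : ℕ} {G : Type} [Group G] (R : RGD ℓ G)

theorem a_ne (i : Fin R.r) : R.a i ≠ 0 := R.ne0 _ (R.mem i)

theorem s_add (i : Fin R.r) (v w : R.E) : R.s i (v + w) = R.s i v + R.s i w := rf_add _ _ _

theorem s_smul (i : Fin R.r) (c : ℝ) (v : R.E) : R.s i (c • v) = c • R.s i v := rf_smul _ _ _

theorem s_neg (i : Fin R.r) (v : R.E) : R.s i (-v) = -R.s i v := rf_neg _ _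

theorem s_s (i : Fin R.r) (v : R.E) : R.s i (R.s i v) = v := rf_rf _ _ (R.a_ne i)

theorem s_self (i : Fin R.r) : R.s i (R.a i) = -R.a i := rf_self _ (R.a_ne i)

theorem s_inner (i : Fin R.r) (v w : R.E) : inner ℝ (R.s i v) (R.s i w) = (inner ℝ v w : ℝ) :=
  rf_inner _ _ _ (R.a_ne i)

theorem s_mem {i : Fin R.r} {b : R.E} (hb : b ∈ R.Φ) : R.s i b ∈ R.Φ := R.refl i b hb

theorem s_mem_iff {i : Fin R.r} {b : R.E} : R.s i b ∈ R.Φ ↔ b ∈ R.Φ := by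
  refine ⟨fun h => ?_, R.s_mem⟩
  have := R.s_mem (i := i) h
  rwa [s_s] at this

theorem s_eq (i : Fin R.r) (v : R.E) :
    R.s i v = v - (2 * inner ℝ (R.a i) v / inner ℝ (R.a i) (R.a i)) • R.a i := rfl

/-! ### Words -/

@[simp] theorem sw_nil (v : R.E) : R.sw [] v = v := rfl

@[simp] theorem sw_cons (i : Fin R.r) (w : List (Fin R.r)) (v : R.E) :
    R.sw (i :: w) v = R.s i (R.sw w v) := rfl

theorem sw_append (u w : List (Fin R.r)) (v : R.E) : R.sw (u ++ w) v = R.sw u (R.sw w v) := by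
  induction u with
  | nil => rfl
  | cons i u ih => rw [List.cons_append, sw_cons, sw_cons, ih]

theorem sw_add (w : List (Fin R.r)) (u v : R.E) : R.sw w (u + v) = R.sw w u + R.sw w v := by
  induction w with
  | nil => rfl
  | cons i w ih => rw [sw_cons, sw_cons, sw_cons, ih, s_add]

theorem sw_smul (w : List (Fin R.r)) (c : ℝ) (v : R.E) : R.sw w (c • v) = c • R.sw w v := by
  induction w with
  | nil => rfl
  | cons i w ih => rw [sw_cons, sw_cons, ih, s_smul]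

theorem sw_neg (w : List (Fin R.r)) (v : R.E) : R.sw w (-v) = -R.sw w v := by
  have := R.sw_smul w (-1) v
  rwa [neg_one_smul, neg_one_smul] at this

theorem sw_inner (w : List (Fin R.r)) (u v : R.E) :
    inner ℝ (R.sw w u) (R.sw w v) = (inner ℝ u v : ℝ) := by
  induction w with
  | nil => rfl
  | cons i w ih => rw [sw_cons, sw_cons, s_inner, ih]

theorem sw_mem {w : List (Fin R.r)} {b : R.E} (hb : b ∈ R.Φ) : R.sw w b ∈ R.Φ := by
  induction w with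
  | nil => exact hb
  | cons i w ih => exact R.s_mem ih

theorem sw_reverse_sw (w : List (Fin R.r)) (v : R.E) : R.sw w.reverse (R.sw w v) = v := by
  induction w generalizing v with
  | nil => rfl
  | cons i w ih =>
    rw [List.reverse_cons, sw_append, sw_cons, sw_cons, sw_nil, s_s, ih]

theorem sw_sw_reverse (w : List (Fin R.r)) (v : R.E) : R.sw w (R.sw w.reverse v) = v := by
  have := R.sw_reverse_sw w.reverse v
  rwa [List.reverse_reverse] at this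

theorem sw_mem_iff {w : List (Fin R.r)} {b : R.E} : R.sw w b ∈ R.Φ ↔ b ∈ R.Φ := by
  refine ⟨fun h => ?_, R.sw_mem⟩
  have := R.sw_mem (w := w.reverse) h
  rwa [sw_reverse_sw] at this

theorem sw_injective (w : List (Fin R.r)) : Function.Injective (R.sw w) :=
  Function.LeftInverse.injective (R.sw_reverse_sw w)

@[simp] theorem nw_nil : R.nw [] = 1 := rfl

@[simp] theorem nw_cons (i : Fin R.r) (w : List (Fin R.r)) : R.nw (i :: w) = R.n i * R.nw w := by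
  unfold nw
  rw [List.map_cons, List.prod_cons]

theorem nw_append (u w : List (Fin R.r)) : R.nw (u ++ w) = R.nw u * R.nw w := by
  unfold nw
  rw [List.map_append, List.prod_append]

/-! ### Signs -/

theorem not_nn_neg {b : R.E} (hb : b ∈ R.Φ) (h1 : Nn R.a b) (h2 : Nn R.a (-b)) : False := by
  obtain ⟨k, hk, h3⟩ := h1
  obtain ⟨l, hl, h4⟩ := h2
  have h5 : ∑ i, (k i + l i) • R.a i = 0 := by
    simp only [add_smul, Finset.sum_add_distrib]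
    rw [← h3, ← h4]
    abel
  have h6 := Fintype.linearIndependent_iff.mp R.base _ h5
  apply R.ne0 b hb
  rw [h3]
  apply Finset.sum_eq_zero
  intro i _
  have := h6 i
  have h7 : k i = 0 := by linarith [hk i, hl i]
  rw [h7, zero_smul]

theorem pos_or_neg {b : R.E} (hb : b ∈ R.Φ) : b ∈ R.pos ∨ b ∈ R.neg := by
  rcases R.sgn b hb with h | h
  · exact Or.inl ⟨hb, h⟩
  · exact Or.inr ⟨hb, h⟩

theorem not_pos_neg {b : R.E} (h1 : b ∈ R.pos) (h2 : b ∈ R.neg) : False :=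
  R.not_nn_neg h1.1 h1.2 h2.2

theorem neg_a_mem (i : Fin R.r) : -R.a i ∈ R.Φ := by
  rw [← R.s_self]
  exact R.s_mem (R.mem i)

theorem nn_a (i : Fin R.r) : Nn R.a (R.a i) := by
  classical
  refine ⟨fun j => if j = i then 1 else 0, fun j => ?_, ?_⟩
  · dsimp only
    split_ifs <;> norm_num
  · simp

theorem a_pos (i : Fin R.r) : R.a i ∈ R.pos := ⟨R.mem i, R.nn_a i⟩

theorem nn_add {u v : R.E} (hu : Nn R.a u) (hv : Nn R.a v) : Nn R.a (u + v) := by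
  obtain ⟨k, hk, rfl⟩ := hu
  obtain ⟨l, hl, rfl⟩ := hv
  exact ⟨fun i => k i + l i, fun i => add_nonneg (hk i) (hl i), by
    simp only [add_smul, Finset.sum_add_distrib]⟩

theorem nn_smul {v : R.E} {c : ℝ} (hc : 0 ≤ c) (hv : Nn R.a v) : Nn R.a (c • v) := by
  obtain ⟨k, hk, rfl⟩ := hv
  exact ⟨fun i => c * k i, fun i => mul_nonneg hc (hk i), by
    rw [Finset.smul_sum]
    simp only [smul_smul]⟩

/-- a simple reflection permutes the positive roots outside the ray of the simple root -/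
theorem s_pos {i : Fin R.r} {b : R.E} (hb : b ∈ R.pos) (hr : b ∉ R.ray i) : R.s i b ∈ R.pos := by
  classical
  refine ⟨R.s_mem hb.1, ?_⟩
  obtain ⟨k, hk, hbk⟩ := hb.2
  rcases R.sgn _ (R.s_mem (i := i) hb.1) with h | h
  · exact h
  exfalso
  obtain ⟨l, hl, hbl⟩ := h
  have h1 : R.s i b = b - (2 * inner ℝ (R.a i) b / inner ℝ (R.a i) (R.a i)) • R.a i := rfl
  set c : ℝ := 2 * inner ℝ (R.a i) b / inner ℝ (R.a i) (R.a i) with hc
  have h2 : ∑ j, (k j + l j - if j = i then c else 0) • R.a j = 0 := by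
    simp only [sub_smul, add_smul, Finset.sum_sub_distrib, Finset.sum_add_distrib, ite_smul,
      zero_smul, Finset.sum_ite_eq', Finset.mem_univ, if_true]
    rw [← hbk, ← hbl, h1]
    abel
  have h3 := Fintype.linearIndependent_iff.mp R.base _ h2
  apply hr
  refine ⟨hb.1, k i, ?_, ?_⟩
  · rcases (hk i).lt_or_eq with h4 | h4
    · exact h4
    · exfalso
      apply R.ne0 b hb.1
      rw [hbk]
      apply Finset.sum_eq_zero
      intro j _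
      by_cases hj : j = i
      · rw [hj, ← h4, zero_smul]
      · have := h3 j
        rw [if_neg hj] at this
        have h5 : k j = 0 := by linarith [hk j, hl j]
        rw [h5, zero_smul]
  · rw [hbk]
    rw [Finset.sum_eq_single i]
    · intro j _ hj
      have := h3 j
      rw [if_neg hj] at this
      have h5 : k j = 0 := by linarith [hk j, hl j]
      rw [h5, zero_smul]
    · intro h
      exact absurd (Finset.mem_univ i) h

theorem s_ray {i : Fin R.r} {b : R.E} (hb : b ∈ R.ray i) : R.s i b = -b := by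
  obtain ⟨-, c, -, rfl⟩ := hb
  rw [s_smul, s_self, smul_neg]

theorem ray_pos {i : Fin R.r} {b : R.E} (hb : b ∈ R.ray i) : b ∈ R.pos := by
  obtain ⟨h1, c, hc, rfl⟩ := hb
  exact ⟨h1, R.nn_smul hc.le (R.nn_a i)⟩

theorem neg_of_ray {i : Fin R.r} {b : R.E} (hb : b ∈ R.ray i) : -b ∈ R.neg := by
  refine ⟨?_, ?_⟩
  · rw [← R.s_ray hb]
    exact R.s_mem hb.1
  · rw [neg_neg]
    exact (R.ray_pos hb).2

/-- a simple reflection does not map a positive root outside the ray into the ray -/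
theorem s_not_ray {i : Fin R.r} {b : R.E} (hb : b ∈ R.pos) : R.s i b ∉ R.ray i := by
  intro h
  have h1 := R.s_ray h
  rw [s_s] at h1
  have h2 := R.neg_of_ray h
  rw [← h1] at h2
  exact R.not_pos_neg hb h2

/-- all roots of the ray of a simple root have root groups contained in the one of the simple root -/
theorem X_ray {i : Fin R.r} {b : R.E} (hb : b ∈ R.ray i) : R.X b ≤ R.X (R.a i) := by
  obtain ⟨h1, c, hc, rfl⟩ := hb
  exact R.nest _ (R.mem i) c (R.short i c hc h1) h1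

/-! ### Conjugation -/

theorem nX' {i : Fin R.r} {b : R.E} (hb : b ∈ R.Φ) {x : G} :
    R.n i * x * (R.n i)⁻¹ ∈ R.X (R.s i b) ↔ x ∈ R.X b := by
  refine ⟨fun h => ?_, R.nX i b hb x⟩
  have h1 := R.nX i _ (R.s_mem hb) _ h
  have h2 : rf (R.a i) (R.s i b) = b := R.s_s i b
  rw [h2] at h1
  have h3 := R.tX _ (R.T.inv_mem (R.nn i)) b hb _ h1
  have h4 : (R.n i * R.n i)⁻¹ * (R.n i * (R.n i * x * (R.n i)⁻¹) * (R.n i)⁻¹) *
      ((R.n i * R.n i)⁻¹)⁻¹ = x := by group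
  rwa [h4] at h3

theorem nT' {i : Fin R.r} {t : G} : R.n i * t * (R.n i)⁻¹ ∈ R.T ↔ t ∈ R.T := by
  refine ⟨fun h => ?_, R.nT i t⟩
  have h1 := R.nT i _ h
  have h2 := R.T.mul_mem (R.T.mul_mem (R.T.inv_mem (R.nn i)) h1) (R.nn i)
  have h4 : (R.n i * R.n i)⁻¹ * (R.n i * (R.n i * t * (R.n i)⁻¹) * (R.n i)⁻¹) *
      (R.n i * R.n i) = t := by group
  rwa [h4] at h2

theorem X_nw {w : List (Fin R.r)} {b : R.E} (hb : b ∈ R.Φ) {x : G} :
    R.nw w * x * (R.nw w)⁻¹ ∈ R.X (R.sw w b) ↔ x ∈ R.X b := by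
  induction w with
  | nil => simp
  | cons i w ih =>
    rw [nw_cons, sw_cons, ← ih, ← R.nX' (i := i) (R.sw_mem (w := w) hb)]
    have : R.n i * R.nw w * x * (R.n i * R.nw w)⁻¹ =
        R.n i * (R.nw w * x * (R.nw w)⁻¹) * (R.n i)⁻¹ := by group
    rw [this]

theorem T_nw {w : List (Fin R.r)} {t : G} : R.nw w * t * (R.nw w)⁻¹ ∈ R.T ↔ t ∈ R.T := by
  induction w with
  | nil => simp
  | cons i w ih =>
    have : R.n i * R.nw w * t * (R.n i * R.nw w)⁻¹ =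
        R.n i * (R.nw w * t * (R.nw w)⁻¹) * (R.n i)⁻¹ := by group
    rw [nw_cons, this, R.nT', ih]

theorem gp_mono {A A' : Set R.E} (h : A ⊆ A') : R.gp A ≤ R.gp A' :=
  biSup_mono fun _ hb => h hb

theorem X_le_gp {A : Set R.E} {b : R.E} (hb : b ∈ A) : R.X b ≤ R.gp A :=
  le_biSup (f := fun b => R.X b) hb

theorem gp_le {A : Set R.E} {H : Subgroup G} (h : ∀ b ∈ A, R.X b ≤ H) : R.gp A ≤ H :=
  iSup₂_le h

theorem gp_union (A A' : Set R.E) : R.gp (A ∪ A') = R.gp A ⊔ R.gp A' := by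
  apply le_antisymm
  · apply R.gp_le
    rintro b (hb | hb)
    · exact (R.X_le_gp hb).trans le_sup_left
    · exact (R.X_le_gp hb).trans le_sup_right
  · exact sup_le (R.gp_mono Set.subset_union_left) (R.gp_mono Set.subset_union_right)

@[simp] theorem gp_empty : R.gp ∅ = ⊥ := by
  unfold gp
  simp

/-- the subgroups generated by root groups are permuted by the words -/
theorem gp_nw {w : List (Fin R.r)} {A : Set R.E} (hA : A ⊆ R.Φ) {x : G} :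
    R.nw w * x * (R.nw w)⁻¹ ∈ R.gp (R.sw w '' A) ↔ x ∈ R.gp A := by
  have h1 : ∀ (w : List (Fin R.r)) (A : Set R.E), A ⊆ R.Φ → ∀ x ∈ R.gp A,
      R.nw w * x * (R.nw w)⁻¹ ∈ R.gp (R.sw w '' A) := by
    intro w A hA x hx
    have h2 : R.gp A ≤ (R.gp (R.sw w '' A)).comap (MulAut.conj (R.nw w)).toMonoidHom := by
      apply R.gp_le
      intro b hb y hy
      rw [Subgroup.mem_comap]
      show R.nw w * y * (R.nw w)⁻¹ ∈ _
      exact R.X_le_gp (Set.mem_image_of_mem _ hb) ((R.X_nw (hA hb)).mpr hy)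
    exact h2 hx
  refine ⟨fun h => ?_, h1 w A hA x⟩
  have h3 : R.gp (R.sw w '' A) ≤ (R.gp A).comap (MulAut.conj (R.nw w)⁻¹).toMonoidHom := by
    apply R.gp_le
    rintro _ ⟨b, hb, rfl⟩ y hy
    rw [Subgroup.mem_comap]
    show (R.nw w)⁻¹ * y * ((R.nw w)⁻¹)⁻¹ ∈ _
    apply R.X_le_gp hb
    rw [← R.X_nw (w := w) (hA hb)]
    have : R.nw w * ((R.nw w)⁻¹ * y * ((R.nw w)⁻¹)⁻¹) * (R.nw w)⁻¹ = y := by group
    rwa [this]
  have h4 := h3 h
  rw [Subgroup.mem_comap] at h4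
  have h5 : (R.nw w)⁻¹ * (R.nw w * x * (R.nw w)⁻¹) * ((R.nw w)⁻¹)⁻¹ ∈ R.gp A := h4
  have : (R.nw w)⁻¹ * (R.nw w * x * (R.nw w)⁻¹) * ((R.nw w)⁻¹)⁻¹ = x := by group
  rwa [this] at h5

theorem T_gp {A : Set R.E} (hA : A ⊆ R.Φ) {t x : G} (ht : t ∈ R.T) (hx : x ∈ R.gp A) :
    t * x * t⁻¹ ∈ R.gp A := by
  have h2 : R.gp A ≤ (R.gp A).comap (MulAut.conj t).toMonoidHom := by
    apply R.gp_le
    intro b hb y hy
    rw [Subgroup.mem_comap]
    exact R.X_le_gp hb (R.tX t ht b (hA hb) y hy)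
  exact h2 hx

theorem pos_sub : R.pos ⊆ R.Φ := fun _ h => h.1

theorem neg_sub : R.neg ⊆ R.Φ := fun _ h => h.1

theorem lev_sub (J : Finset (Fin R.r)) : R.lev J ⊆ R.Φ := fun _ h => h.1

/-- the commutator relation in terms of sets of roots -/
theorem comm_gp {b c : R.E} (hb : b ∈ R.Φ) (hc : c ∈ R.Φ) (hbc : ∀ s : ℝ, 0 < s → c ≠ -(s • b))
    {A : Set R.E} (hA : ∀ p q : ℝ, 1 ≤ p → 1 ≤ q → p • b + q • c ∈ R.Φ → p • b + q • c ∈ A)
    {x y : G} (hx : x ∈ R.X b) (hy : y ∈ R.X c) : x * y * x⁻¹ * y⁻¹ ∈ R.gp A := by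
  have h1 := R.comm b hb c hc hbc x hx y hy
  have h2 : (⨆ d ∈ {d ∈ R.Φ | ∃ p q : ℝ, 1 ≤ p ∧ 1 ≤ q ∧ d = p • b + q • c}, R.X d) ≤ R.gp A := by
    apply iSup₂_le
    rintro d ⟨hd, p, q, hp, hq, rfl⟩
    exact R.X_le_gp (hA p q hp hq hd)
  exact h2 h1

theorem UV : R.U ⊓ (R.T ⊔ R.V) = ⊥ := R.opp

theorem U_inf_V : R.U ⊓ R.V = ⊥ := by
  rw [eq_bot_iff, ← R.UV]
  exact inf_le_inf_left _ le_sup_right

theorem T_le_B : R.T ≤ R.B := le_sup_left

theorem U_le_B : R.U ≤ R.B := le_sup_right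

theorem X_le_U {b : R.E} (hb : b ∈ R.pos) : R.X b ≤ R.U := R.X_le_gp hb

theorem X_le_V {b : R.E} (hb : b ∈ R.neg) : R.X b ≤ R.V := R.X_le_gp hb

theorem mem_B {g : G} : g ∈ R.B ↔ ∃ u ∈ R.U, ∃ t ∈ R.T, g = u * t := by
  constructor
  · intro h
    have hn : R.T ≤ Subgroup.normalizer (R.U : Set G) := by
      intro t ht
      rw [Subgroup.mem_normalizer_iff]
      intro x
      constructor
      · exact fun hx => R.T_gp R.pos_sub ht hx
      · intro hx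
        have := R.T_gp R.pos_sub (R.T.inv_mem ht) hx
        have h1 : t⁻¹ * (t * x * t⁻¹) * t⁻¹⁻¹ = x := by group
        rwa [h1] at this
    have h1 : g ∈ R.U ⊔ R.T := by
      rw [sup_comm]
      exact h
    rw [← SetLike.mem_coe, Subgroup.coe_mul_of_right_le_normalizer_left _ _ hn] at h1
    obtain ⟨u, hu, t, ht, rfl⟩ := h1
    exact ⟨u, hu, t, ht, rfl⟩
  · rintro ⟨u, hu, t, ht, rfl⟩
    exact R.B.mul_mem (R.U_le_B hu) (R.T_le_B ht)

theorem B_U {g x : G} (hg : g ∈ R.B) (hx : x ∈ R.U) : g * x * g⁻¹ ∈ R.U := by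
  obtain ⟨u, hu, t, ht, rfl⟩ := R.mem_B.mp hg
  have h1 := R.T_gp R.pos_sub ht hx
  have h2 : u * t * x * (u * t)⁻¹ = u * (t * x * t⁻¹) * u⁻¹ := by group
  rw [h2]
  exact R.U.mul_mem (R.U.mul_mem hu h1) (R.U.inv_mem hu)

end RGD

end Pool.Agent.PP.X1
end
end -- Pool.Agent.Helper36_X1.Basic

section -- Pool.Agent.Helper36_X1.Stmts1

/-!
# Squad X1: statements on roots and on groups with a root group datum

Text: `AWC_X1.md`, sections A, B, C, D.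
-/

open scoped BigOperators

noncomputable section

namespace Pool.Agent.PP.X1

/-! ## A. Roots -/

/-- DOM: every vector can be moved into the closed chamber. -/
def DomStmt : Prop := ∀ (ℓ : ℕ) (G : Type) [Group G] (R : RGD ℓ G) (η : R.E),
  ∃ w : List (Fin R.r), ∀ i, (0 : ℝ) ≤ inner ℝ (R.sw w η) (R.a i)

/-- LNG: the longest words; words in `J` and the roots in the span of `J`. -/
def LngStmt : Prop := ∀ (ℓ : ℕ) (G : Type) [Group G] (R : RGD ℓ G) (J : Finset (Fin R.r)),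
  (∀ w : List (Fin R.r), (∀ i ∈ w, i ∈ J) → (∀ b, R.sw w b ∈ R.lev J ↔ b ∈ R.lev J) ∧
    ∀ b, R.sw w b ∈ R.pos \ R.lev J ↔ b ∈ R.pos \ R.lev J) ∧
  ∃ w : List (Fin R.r), (∀ i ∈ w, i ∈ J) ∧ ∀ b ∈ R.pos ∩ R.lev J, R.sw w b ∈ R.neg

/-- ORB: every root is conjugate to a multiple of a simple root. -/
def OrbStmt : Prop := ∀ (ℓ : ℕ) (G : Type) [Group G] (R : RGD ℓ G), ∀ b ∈ R.Φ,
  ∃ (w : List (Fin R.r)) (i : Fin R.r) (c : ℝ), 1 ≤ c ∧ b = c • R.sw w (R.a i) ∧ c • R.a i ∈ R.Φ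

/-- DSC: a word which moves some vector has a descent. -/
def DscStmt : Prop := ∀ (ℓ : ℕ) (G : Type) [Group G] (R : RGD ℓ G) (w : List (Fin R.r)),
  (∃ x : R.E, R.sw w x ≠ x) → (∃ i, R.sw w (R.a i) ∈ R.neg) ∧ ∃ i, R.sw w.reverse (R.a i) ∈ R.neg

/-- RK1: the group of rank one of a simple root. -/
def Rk1Stmt : Prop := ∀ (ℓ : ℕ) (G : Type) [Group G] (R : RGD ℓ G) (i : Fin R.r),
  (∀ g ∈ R.T ⊔ (R.X (R.a i) ⊔ R.X (-R.a i)), (∃ x ∈ R.X (R.a i), ∃ t ∈ R.T, g = x * t) ∨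
    ∃ x ∈ R.X (R.a i), ∃ t ∈ R.T, ∃ y ∈ R.X (R.a i), g = x * (R.n i * t) * y) ∧
  (∀ g ∈ R.T ⊔ (R.X (R.a i) ⊔ R.X (-R.a i)), (∀ x ∈ R.X (R.a i), g * x * g⁻¹ ∈ R.X (R.a i)) →
    (∀ x ∈ R.X (-R.a i), g * x * g⁻¹ ∈ R.X (-R.a i)) → g ∈ R.T) ∧
  ∀ v ∈ R.X (-R.a i), v ≠ 1 → ∃ y ∈ R.X (R.a i), ∃ t ∈ R.T, ∃ z ∈ R.X (R.a i),
    v = y * (R.n i * t) * z ∧ (t ∈ R.Ti i)

/-- WRD: words with the same action. -/
def WrdStmt : Prop := ∀ (ℓ : ℕ) (G : Type) [Group G] (R : RGD ℓ G),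
  (∀ (K : Finset (Fin R.r)) (w : List (Fin R.r)), (∀ i ∈ w, i ∈ K) →
    (∀ i ∈ K, R.sw w (R.a i) = R.a i) → R.nw w ∈ R.TK K) ∧
  (∀ v w : List (Fin R.r), (∀ x, R.sw v x = R.sw w x) → (R.nw w)⁻¹ * R.nw v ∈ R.T) ∧
  (∀ (K : Finset (Fin R.r)), (∀ t ∈ R.T, ∀ x ∈ R.TK K, t * x * t⁻¹ ∈ R.TK K) ∧
    (∀ i ∈ K, ∀ x ∈ R.TK K, R.n i * x * (R.n i)⁻¹ ∈ R.TK K)) ∧
  (∀ i, ∀ t ∈ R.T, R.n i * t * (R.n i)⁻¹ * t⁻¹ ∈ R.Ti i) ∧
  ∀ (w : List (Fin R.r)) (i j : Fin R.r), R.sw w (R.a i) = R.a j →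
    R.nw w * R.n i * (R.nw w)⁻¹ * (R.n j)⁻¹ ∈ R.Ti j

/-! ## B. Products -/

/-- UPG: the groups of closed sets of positive roots are `ℓ`-groups. -/
def UpgStmt : Prop := ∀ (ℓ : ℕ) [Fact ℓ.Prime] (G : Type) [Group G] [Finite G] (R : RGD ℓ G)
  (A : Set R.E), R.Clo A → A ⊆ R.pos → IsPGroup ℓ (R.gp A)

/-- CLO: examples of closed sets. -/
def CloStmt : Prop := ∀ (ℓ : ℕ) (G : Type) [Group G] (R : RGD ℓ G),
  R.Clo R.pos ∧ R.Clo R.neg ∧ (∀ J, R.Clo (R.pos \ R.lev J)) ∧ (∀ J, R.Clo (R.pos ∩ R.lev J)) ∧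
  (∀ A A', R.Clo A → R.Clo A' → R.Clo (A ∩ A')) ∧
  (∀ (w : List (Fin R.r)) A, R.Clo A → R.Clo (R.sw w '' A)) ∧
  (∀ A i, R.Clo A → A ⊆ R.pos → R.Clo (A \ R.ray i) ∧ R.Clo (A ∩ R.ray i)) ∧
  ∀ (ξ : R.E) (t : ℝ), 0 < t → R.Clo {b | b ∈ R.Φ ∧ t ≤ inner ℝ ξ b}

/-- PEL: peeling off the ray of a simple root. -/
def PelStmt : Prop := ∀ (ℓ : ℕ) (G : Type) [Group G] (R : RGD ℓ G) (i : Fin R.r),
  (∀ x ∈ R.X (R.a i), x ∈ R.gp (R.pos \ R.ray i) → x = 1) ∧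
  (∀ A, R.Clo A → A ⊆ R.pos → ∀ g ∈ R.gp A, ∃ x ∈ R.gp (A ∩ R.ray i),
    ∃ y ∈ R.gp (A \ R.ray i), g = x * y) ∧
  (∀ A, R.Clo A → A ⊆ R.pos → ∀ x ∈ R.gp (A ∩ R.ray i), ∀ y ∈ R.gp (A \ R.ray i),
    x * y * x⁻¹ ∈ R.gp (A \ R.ray i)) ∧
  (∀ x ∈ R.X (R.a i), ∀ y ∈ R.gp (R.pos \ R.ray i), x * y * x⁻¹ ∈ R.gp (R.pos \ R.ray i)) ∧
  (∀ y, R.n i * y * (R.n i)⁻¹ ∈ R.gp (R.pos \ R.ray i) ↔ y ∈ R.gp (R.pos \ R.ray i)) ∧
  (∀ A, R.gp (A ∩ R.ray i) ≤ R.X (R.a i)) ∧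
  ∀ A A', R.Clo A → R.Clo A' → R.gp (A ∩ R.ray i) ⊓ R.gp (A' ∩ R.ray i) ≤
    R.gp (A ∩ A' ∩ R.ray i)

/-- PD1: intersections. -/
def Pd1Stmt : Prop := ∀ (ℓ : ℕ) (G : Type) [Group G] (R : RGD ℓ G) (A A' : Set R.E), R.Clo A →
  R.Clo A' → A ⊆ R.pos → A' ⊆ R.pos → R.gp A ⊓ R.gp A' = R.gp (A ∩ A')

/-- PD2: factorisation into a positive and a negative part. -/
def Pd2Stmt : Prop := ∀ (ℓ : ℕ) (G : Type) [Group G] (R : RGD ℓ G) (v : List (Fin R.r))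
  (A : Set R.E), R.Clo A → (∀ b ∈ A, R.sw v b ∈ R.pos) →
  ∀ g ∈ R.gp A, ∃ x ∈ R.gp (A ∩ R.pos), ∃ y ∈ R.gp (A ∩ R.neg), g = x * y

/-- FAC: the groups `U ∩ w V w⁻¹` and `U ∩ w U w⁻¹`. -/
def FacStmt : Prop := ∀ (ℓ : ℕ) (G : Type) [Group G] (R : RGD ℓ G) (w : List (Fin R.r)),
  (∀ x, (x ∈ R.U ∧ (R.nw w)⁻¹ * x * R.nw w ∈ R.V) ↔
    x ∈ R.gp {b | b ∈ R.pos ∧ R.sw w.reverse b ∈ R.neg}) ∧
  (∀ x, (x ∈ R.U ∧ (R.nw w)⁻¹ * x * R.nw w ∈ R.U) ↔
    x ∈ R.gp {b | b ∈ R.pos ∧ R.sw w.reverse b ∈ R.pos}) ∧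
  (∀ u ∈ R.U, ∃ x ∈ R.gp {b | b ∈ R.pos ∧ R.sw w.reverse b ∈ R.neg},
    ∃ y ∈ R.gp {b | b ∈ R.pos ∧ R.sw w.reverse b ∈ R.pos}, u = x * y) ∧
  (R.gp {b | b ∈ R.pos ∧ R.sw w.reverse b ∈ R.neg} ⊓
    R.gp {b | b ∈ R.pos ∧ R.sw w.reverse b ∈ R.pos} = ⊥) ∧
  ∀ i, R.sw w.reverse (R.a i) ∈ R.pos →
    (∀ x ∈ R.gp {b | b ∈ R.pos ∧ R.sw w.reverse b ∈ R.neg},
      R.n i * x * (R.n i)⁻¹ ∈ R.gp {b | b ∈ R.pos ∧ R.sw (i :: w).reverse b ∈ R.neg}) ∧
    (R.X (R.a i) ≤ R.gp {b | b ∈ R.pos ∧ R.sw (i :: w).reverse b ∈ R.neg}) ∧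
    ∀ x ∈ R.gp {b | b ∈ R.pos ∧ R.sw (i :: w).reverse b ∈ R.neg}, ∃ y ∈ R.X (R.a i),
      ∃ z ∈ R.gp {b | b ∈ R.pos ∧ R.sw w.reverse b ∈ R.neg},
        x = y * (R.n i * z * (R.n i)⁻¹) ∧
        ∀ y' ∈ R.X (R.a i), ∀ z' ∈ R.gp {b | b ∈ R.pos ∧ R.sw w.reverse b ∈ R.neg},
          x = y' * (R.n i * z' * (R.n i)⁻¹) → y' = y ∧ z' = z

/-! ## C. The Bruhat decomposition and the parabolic subgroups -/

/-- BRU: the cells. -/
def BruhStmt : Prop := ∀ (ℓ : ℕ) (G : Type) [Group G] (R : RGD ℓ G),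
  (∀ (J : Finset (Fin R.r)) (w : List (Fin R.r)), (∀ i ∈ w, i ∈ J) → R.nw w ∈ R.PJ J) ∧
  (∀ (J : Finset (Fin R.r)) (g : G), g ∈ R.PJ J → ∃ w : List (Fin R.r), (∀ i ∈ w, i ∈ J) ∧
    ∃ b ∈ R.B, ∃ b' ∈ R.B, g = b * R.nw w * b') ∧
  R.PJ Finset.univ = ⊤ ∧ R.PJ ∅ = R.B ∧
  (∀ (i : Fin R.r) (w : List (Fin R.r)), ∀ b ∈ R.B, ∃ c ∈ R.B, ∃ d ∈ R.B,
    R.n i * b * R.nw w = c * R.nw (i :: w) * d ∨
      (R.sw w.reverse (R.a i) ∈ R.neg ∧ R.n i * b * R.nw w = c * R.nw w * d)) ∧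
  ∀ v w : List (Fin R.r), (∃ b ∈ R.B, ∃ b' ∈ R.B, R.nw v = b * R.nw w * b') →
    ∀ x, R.sw v x = R.sw w x

/-- PAR: the parabolic subgroups. -/
def ParStmt : Prop := ∀ (ℓ : ℕ) [Fact ℓ.Prime] (G : Type) [Group G] [Finite G] (R : RGD ℓ G)
  (J : Finset (Fin R.r)),
  (∀ g, g ∈ R.PJ J ↔ ∀ x ∈ R.UJ J, g * x * g⁻¹ ∈ R.UJ J) ∧
  (∀ g, (∀ x ∈ R.UJ J, g * x * g⁻¹ ∈ R.U) → g ∈ R.PJ J) ∧
  (∀ Q : Subgroup G, Q ≤ R.PJ J → IsPGroup ℓ Q → (∀ g ∈ R.PJ J, ∀ x ∈ Q, g * x * g⁻¹ ∈ Q) →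
    Q ≤ R.UJ J) ∧
  (∀ J', R.PJ J ≤ R.PJ J' ↔ J ⊆ J') ∧ (∀ J', R.UJ J ≤ R.UJ J' ↔ J' ⊆ J) ∧
  ∀ H : Subgroup G, R.B ≤ H → ∃ J', H = R.PJ J'

/-- SYL: `U` is a Sylow subgroup with normaliser `B`. -/
def SylStmt : Prop := ∀ (ℓ : ℕ) [Fact ℓ.Prime] (G : Type) [Group G] [Finite G] (R : RGD ℓ G),
  IsPGroup ℓ R.U ∧ ¬ ℓ ∣ R.U.index ∧ (∀ g, (∀ x ∈ R.U, g * x * g⁻¹ ∈ R.U) → g ∈ R.B) ∧
  R.B ⊓ R.V = ⊥ ∧ ∀ Q : Subgroup G, IsPGroup ℓ Q → ∃ g, ∀ x ∈ Q, g * x * g⁻¹ ∈ R.U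

/-- TRV: an automorphism that fixes a simple root group elementwise and normalises the torus and the
opposite root group fixes the opposite root group elementwise. -/
def TrvStmt : Prop := ∀ (ℓ : ℕ) [Fact ℓ.Prime] (G : Type) [Group G] [Finite G] (R : RGD ℓ G)
  (i : Fin R.r) (φ : MulAut G), (∀ x ∈ R.X (R.a i), φ x = x) → (∀ t, φ t ∈ R.T ↔ t ∈ R.T) →
  (∀ x, φ x ∈ R.X (-R.a i) ↔ x ∈ R.X (-R.a i)) → ∀ x ∈ R.X (-R.a i), φ x = x

/-! ## D. The theorem of Borel and Tits -/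

/-- LEV: the groups of a level are normal in the parabolic subgroup. -/
def LevStmt : Prop := ∀ (ℓ : ℕ) (G : Type) [Group G] (R : RGD ℓ G) (ξ : R.E),
  (∀ i, (0 : ℝ) ≤ inner ℝ ξ (R.a i)) → ∀ t : ℝ, 0 < t → ∀ J : Finset (Fin R.r),
  (∀ i, i ∈ J ↔ inner ℝ ξ (R.a i) = (0 : ℝ)) →
  (∀ g ∈ R.PJ J, ∀ x ∈ R.gp {b | b ∈ R.Φ ∧ t ≤ inner ℝ ξ b},
    g * x * g⁻¹ ∈ R.gp {b | b ∈ R.Φ ∧ t ≤ inner ℝ ξ b}) ∧
  R.gp {b | b ∈ R.Φ ∧ t ≤ inner ℝ ξ b} ≤ R.UJ J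

/-- INT: intersections of the groups of levels. -/
def IntStmt : Prop := ∀ (ℓ : ℕ) (G : Type) [Group G] (R : RGD ℓ G) (ξ η : R.E),
  (∀ i, (0 : ℝ) ≤ inner ℝ ξ (R.a i)) → ∀ s t : ℝ, 0 < s → 0 < t →
  R.gp {b | b ∈ R.Φ ∧ s ≤ inner ℝ ξ b} ⊓ R.gp {b | b ∈ R.Φ ∧ t ≤ inner ℝ η b} ≤
    R.gp {b | b ∈ R.Φ ∧ s + t ≤ inner ℝ (ξ + η) b}

/-- OPT: an optimal point. -/
def OptStmt : Prop := ∀ (ℓ : ℕ) [Fact ℓ.Prime] (G : Type) [Group G] [Finite G] (R : RGD ℓ G)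
  (Q : Subgroup G), Q ≠ ⊥ → (∃ g, ∀ x ∈ Q, g⁻¹ * x * g ∈ R.U) →
  ∃ (g : G) (ξ : R.E) (t : ℝ), ‖ξ‖ = 1 ∧ (∀ i, (0 : ℝ) ≤ inner ℝ ξ (R.a i)) ∧ 0 < t ∧
    (∀ x ∈ Q, g⁻¹ * x * g ∈ R.gp {b | b ∈ R.Φ ∧ t ≤ inner ℝ ξ b}) ∧
    ∀ (h : G) (η : R.E) (u : ℝ), ‖η‖ = 1 → (∀ i, (0 : ℝ) ≤ inner ℝ η (R.a i)) →
      (∀ x ∈ Q, h⁻¹ * x * h ∈ R.gp {b | b ∈ R.Φ ∧ u ≤ inner ℝ η b}) → u ≤ t

/-- BTS: the theorem of Borel and Tits. -/
def BtsStmt : Prop := ∀ (ℓ : ℕ) [Fact ℓ.Prime] (G : Type) [Group G] [Finite G] (R : RGD ℓ G)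
  (Q : Subgroup G), IsPGroup ℓ Q → Q ≠ ⊥ → ∃ (g : G) (J : Finset (Fin R.r)), J ≠ Finset.univ ∧
    (∀ x ∈ Q, g⁻¹ * x * g ∈ R.UJ J) ∧ ∀ x, (∀ y ∈ Q, x * y * x⁻¹ ∈ Q) → g⁻¹ * x * g ∈ R.PJ J

end Pool.Agent.PP.X1
end
end -- Pool.Agent.Helper36_X1.Stmts1

section -- Pool.Agent.Helper36_X1.Defs2

/-!
# Squad X1: definitions for representations and for the groups `D`

Text: `AWC_X1.md`, sections E ff.
-/

open scoped BigOperators

noncomputable section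

namespace Pool.Agent.PP.X1

open Pool.Agent.Helper51_AWC Pool.Agent.Helper79_WRA Pool.Agent.PP

/-! ## Representations of the parabolic subgroups -/

section reps

variable {F G : Type} [Field F] [Group G]

/-- a representation of a subgroup as a function on the group, zero outside the subgroup -/
def ro {P : Subgroup G} {k : ℕ} (ρ : P →* Matrix (Fin k) (Fin k) F) (g : G) :
    Matrix (Fin k) (Fin k) F :=
  open Classical in if h : g ∈ P then ρ ⟨g, h⟩ else 0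

theorem ro_mem {P : Subgroup G} {k : ℕ} (ρ : P →* Matrix (Fin k) (Fin k) F) {g : G} (h : g ∈ P) :
    ro ρ g = ρ ⟨g, h⟩ := by
  rw [ro, dif_pos h]

theorem ro_coe {P : Subgroup G} {k : ℕ} (ρ : P →* Matrix (Fin k) (Fin k) F) (g : P) :
    ro ρ g = ρ g := by
  rw [ro_mem ρ g.2]

theorem ro_one {P : Subgroup G} {k : ℕ} (ρ : P →* Matrix (Fin k) (Fin k) F) : ro ρ 1 = 1 := by
  rw [ro_mem ρ P.one_mem]
  exact map_one ρ

theorem ro_mul {P : Subgroup G} {k : ℕ} (ρ : P →* Matrix (Fin k) (Fin k) F) {g h : G}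
    (hg : g ∈ P) (hh : h ∈ P) : ro ρ (g * h) = ro ρ g * ro ρ h := by
  rw [ro_mem ρ hg, ro_mem ρ hh, ro_mem ρ (P.mul_mem hg hh), ← map_mul]
  rfl

/-- the vectors fixed by `U` -/
def fx {P : Subgroup G} {k : ℕ} (U : Subgroup G) (ρ : P →* Matrix (Fin k) (Fin k) F) :
    Submodule F (Fin k → F) where
  carrier := {v | ∀ u ∈ U, (ro ρ u).mulVec v = v}
  add_mem' := by
    intro v w hv hw u hu
    rw [Matrix.mulVec_add, hv u hu, hw u hu]
  zero_mem' := by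
    intro u _
    rw [Matrix.mulVec_zero]
  smul_mem' := by
    intro c v hv u hu
    rw [Matrix.mulVec_smul, hv u hu]

theorem mem_fx {P : Subgroup G} {k : ℕ} {U : Subgroup G} {ρ : P →* Matrix (Fin k) (Fin k) F}
    {v : Fin k → F} : v ∈ fx U ρ ↔ ∀ u ∈ U, (ro ρ u).mulVec v = v := Iff.rfl

/-- `φ` is fixed by `α` (an automorphism of `G` which stabilises `P`) -/
def Fxd (P : Subgroup G) (φ : P → F) (α : MulAut G) : Prop :=
  ∀ g g' : P, (g' : G) = α g → φ g' = φ g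

/-- For a representation `ρ` of `P` with trace `φ` and matrices `X`, `Y` which implement the
automorphisms `α`, `β` one has `X Y = z ρ(c) Y X`. -/
def IsTCa (P : Subgroup G) (φ : P → F) (α β : MulAut G) (c : G) (z : F) : Prop :=
  ∃ (n : ℕ) (ρ : P →* Matrix (Fin n) (Fin n) F) (X Y : Matrix (Fin n) (Fin n) F),
    IsIrr ρ ∧ tr ρ = φ ∧ IsUnit X ∧ IsUnit Y ∧
      (∀ g ∈ P, X * ro ρ g = ro ρ (α g) * X) ∧ (∀ g ∈ P, Y * ro ρ g = ro ρ (β g) * Y) ∧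
      X * Y = z • (ro ρ c * Y * X)

/-- the scalar of `φ`, `α`, `β`, `c` -/
def tca (P : Subgroup G) (φ : P → F) (α β : MulAut G) (c : G) : F :=
  open Classical in if h : ∃ z, IsTCa P φ α β c z then h.choose else 0

/-- the scalars by which the subgroup `Z` acts are given by `ζ` -/
def Ovr (P Z : Subgroup G) (ζ : G → F) (φ : P → F) : Prop :=
  ∀ z ∈ Z, ∀ g g' : P, (g' : G) = z * g → φ g' = ζ z * φ g

variable {ℓ : ℕ}

/-- the root groups made negative by `w⁻¹` -/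
def RGD.Uw (R : RGD ℓ G) (w : List (Fin R.r)) : Subgroup G :=
  R.gp {b | b ∈ R.pos ∧ R.sw w.reverse b ∈ R.neg}

/-- the operator of the simple root `a i` -/
def Ai (R : RGD ℓ G) {P : Subgroup G} {k : ℕ} (ρ : P →* Matrix (Fin k) (Fin k) F)
    (i : Fin R.r) : Matrix (Fin k) (Fin k) F :=
  ∑ᶠ x : R.X (R.a i), ro ρ ((x : G) * R.n i)

/-- the operator of the word `w` -/
def Aw (R : RGD ℓ G) {P : Subgroup G} {k : ℕ} (ρ : P →* Matrix (Fin k) (Fin k) F)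
    (w : List (Fin R.r)) : Matrix (Fin k) (Fin k) F :=
  ∑ᶠ x : R.Uw w, ro ρ ((x : G) * R.nw w)

/-- an element `t` of the torus with `n i * x * (n i)⁻¹ ∈ X (n i) t X` -/
def RGD.th (R : RGD ℓ G) (i : Fin R.r) (x : G) : G :=
  open Classical in
  if h : ∃ t ∈ R.T, ∃ y ∈ R.X (R.a i), ∃ z ∈ R.X (R.a i),
    R.n i * x * (R.n i)⁻¹ = y * (R.n i * t) * z then h.choose else 1

/-- the operator `∑ t(x) n²`, `x ≠ 1` -/
def tauM (R : RGD ℓ G) {P : Subgroup G} {k : ℕ} (ρ : P →* Matrix (Fin k) (Fin k) F)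
    (i : Fin R.r) : Matrix (Fin k) (Fin k) F :=
  open Classical in
  ∑ᶠ x : R.X (R.a i), if (x : G) = 1 then 0 else ro ρ (R.th i x * (R.n i * R.n i))

/-- `L` is stable under the torus -/
def TS (R : RGD ℓ G) {P : Subgroup G} {k : ℕ} (ρ : P →* Matrix (Fin k) (Fin k) F)
    (L : Submodule F (Fin k → F)) : Prop :=
  ∀ t ∈ R.T, ∀ v ∈ L, (ro ρ t).mulVec v ∈ L

/-- `L` is stable under the operators of the simple roots in `J` -/
def AS (R : RGD ℓ G) (J : Finset (Fin R.r)) {P : Subgroup G} {k : ℕ}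
    (ρ : P →* Matrix (Fin k) (Fin k) F) (L : Submodule F (Fin k → F)) : Prop :=
  ∀ i ∈ J, ∀ v ∈ L, (Ai R ρ i).mulVec v ∈ L

/-- The irreducible representation `ρ` of the parabolic subgroup of type `J` has the label
`(σ, K)`: `σ` is the representation of `B` on the fixed points of `U`, and `K` is the set of the
`i` in `J` whose operator does not vanish on the fixed points. -/
def Lab (R : RGD ℓ G) (J : Finset (Fin R.r)) {k m : ℕ}
    (ρ : R.PJ J →* Matrix (Fin k) (Fin k) F) (σ : R.B →* Matrix (Fin m) (Fin m) F)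
    (K : Finset (Fin R.r)) : Prop :=
  IsIrr ρ ∧ IsIrr σ ∧ K ⊆ J ∧
    ∃ (X : Matrix (Fin k) (Fin m) F) (Y : Matrix (Fin m) (Fin k) F), Y * X = 1 ∧
      (∀ b ∈ R.B, ro ρ b * X = X * ro σ b) ∧ (∀ v ∈ fx R.U ρ, ∃ c, v = X.mulVec c) ∧
      ∀ i ∈ J, (i ∈ K ↔ Ai R ρ i * X ≠ 0)

/-- the sum of the elements of `U` acts as zero -/
def SZJ (R : RGD ℓ G) {P : Subgroup G} (φ : P → F) : Prop :=
  ∃ (k : ℕ) (ρ : P →* Matrix (Fin k) (Fin k) F), IsIrr ρ ∧ tr ρ = φ ∧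
    ∑ᶠ u : R.U, ro ρ (u : G) = 0

/-- the simple roots `a i` such that `T i` acts trivially -/
def Ms (R : RGD ℓ G) (lam : R.B → F) : Finset (Fin R.r) :=
  open Classical in
  Finset.univ.filter fun i => ∀ t ∈ R.Ti i, ∀ b b' : R.B, (b' : G) = t * b → lam b' = lam b

/-- `π` is the permutation of the simple roots induced by the automorphism `α` -/
def IsPi (R : RGD ℓ G) (α : MulAut G) (π : Equiv.Perm (Fin R.r)) : Prop :=
  ∀ (K : Finset (Fin R.r)) (g : G), (α g ∈ R.PJ (K.map π.toEmbedding) ↔ g ∈ R.PJ K) ∧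
    (α g ∈ R.UJ (K.map π.toEmbedding) ↔ g ∈ R.UJ K)

/-- the permutation of the simple roots induced by `α` -/
def piA (R : RGD ℓ G) (α : MulAut G) : Equiv.Perm (Fin R.r) :=
  open Classical in if h : ∃ π, IsPi R α π then h.choose else 1

end reps

/-- the sets `K` in the counting formula -/
def KS {r : ℕ} (J M : Finset (Fin r)) (π π' : Equiv.Perm (Fin r)) (q : Prop) :
    Finset (Finset (Fin r)) :=
  open Classical in
  Finset.univ.filter fun K => K ⊆ J ∧ K ⊆ M ∧ K.map π.toEmbedding = K ∧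
    K.map π'.toEmbedding = K ∧ (q → K ≠ Finset.univ)

/-- the flags: chains of proper subsets -/
def Flag {r : ℕ} (f : Finset (Finset (Fin r))) : Prop :=
  (∀ J ∈ f, J ≠ Finset.univ) ∧ IsChain (· ⊆ ·) (f : Set (Finset (Fin r)))

/-! ## The groups `D` -/

/-- `M` is a normal subgroup of `D` with a root group datum, `M / Z(D)` is simple. -/
structure RgD (ℓ : ℕ) {D : Type} [Group D] (M : Subgroup D) (R : RGD ℓ M) : Prop where
  normal : M.Normal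
  index : ¬ ℓ ∣ M.index
  zM : Subgroup.center D ≤ M
  zT : ∀ z : M, (z : D) ∈ Subgroup.center D → z ∈ R.T
  ne : R.U ≠ ⊥
  cent : Subgroup.centralizer (M : Set D) ≤ Subgroup.center D
  simp : ∀ K : Subgroup M, K.Normal → (∀ x ∈ K, (x : D) ∈ Subgroup.center D) ∨
    ∀ x : M, ∃ y ∈ K, ∃ z ∈ Subgroup.center D, (x : D) = y * z
  nonab : ∃ x y : M, x * y ≠ y * x

section groups

variable {ℓ : ℕ} {D : Type} [Group D] {M : Subgroup D}

/-- the image in `D` of a subgroup of `M` -/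
def up (A : Subgroup M) : Subgroup D := A.map M.subtype

/-- the normaliser of `U` in `D` -/
def AD (R : RGD ℓ M) : Subgroup D := Subgroup.normalizer ((up R.U : Subgroup D) : Set D)

/-- the stabiliser of a flag -/
def Df (R : RGD ℓ M) (f : Finset (Finset (Fin R.r))) : Subgroup D :=
  ⨅ J ∈ f, Subgroup.normalizer ((up (R.UJ J) : Subgroup D) : Set D)

/-- the commutator as an element of `M` -/
def cM (M : Subgroup D) (x y : D) : M :=
  open Classical in if h : x * y * x⁻¹ * y⁻¹ ∈ M then ⟨x * y * x⁻¹ * y⁻¹, h⟩ else 1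

/-- the conjugates of the unipotent radicals of the proper parabolic subgroups -/
def Rad (R : RGD ℓ M) (Q : Subgroup D) : Prop :=
  ∃ g ∈ M, ∃ J : Finset (Fin R.r), J ≠ Finset.univ ∧ Q = conjS g (up (R.UJ J))

end groups

end Pool.Agent.PP.X1
end
end -- Pool.Agent.Helper36_X1.Defs2

section -- Pool.Agent.Helper36_X1.Stmts2

/-!
# Squad X1: statements on the representations of the parabolic subgroups

Text: `AWC_X1.md`, section E.
-/

open scoped BigOperators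

noncomputable section

namespace Pool.Agent.PP.X1

open Pool.Agent.Helper51_AWC Pool.Agent.Helper79_WRA Pool.Agent.PP

/-- LN2: a word which makes negative exactly the roots of `J` outside the span of `K`; it carries
the simple roots of `K` to simple roots. -/
def Ln2Stmt : Prop := ∀ (ℓ : ℕ) (G : Type) [Group G] (R : RGD ℓ G) (J K : Finset (Fin R.r)),
  K ⊆ J → ∃ w : List (Fin R.r), (∀ i ∈ w, i ∈ J) ∧
    (∀ b ∈ R.pos ∩ R.lev J, R.sw w b ∈ R.pos ↔ b ∈ R.lev K) ∧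
    ∀ i ∈ K, ∃ j ∈ J, R.sw w (R.a i) = R.a j

/-- OPV: the opposite Sylow subgroup and the parabolic subgroups. -/
def OpvStmt : Prop := ∀ (ℓ : ℕ) (G : Type) [Group G] (R : RGD ℓ G),
  (∀ w : List (Fin R.r), ∀ v ∈ R.V, ∀ b ∈ R.B, R.nw w = v * b → ∀ x, R.sw w x = x) ∧
  (∀ K : Finset (Fin R.r), R.gp (R.neg \ R.lev K) ⊓ R.PJ K = ⊥) ∧
  (∀ (i : Fin R.r), ∀ g ∈ R.V, g ∈ R.PJ {i} → g ∈ R.X (-R.a i)) ∧
  R.B ⊓ (R.T ⊔ R.V) = R.T ∧
  (∀ g, (∀ v ∈ R.V, g * v * g⁻¹ ∈ R.V) → g ∈ R.U → g = 1)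

/-- EXT: the subgroup of the parabolic subgroup generated by `U` and the root groups. -/
def ExtStmt : Prop := ∀ (ℓ : ℕ) (G : Type) [Group G] (R : RGD ℓ G) (K : Finset (Fin R.r)),
  ∃ Q : Subgroup G, Q ≤ R.PJ K ∧ (∀ g ∈ R.PJ K, ∀ x ∈ Q, g * x * g⁻¹ ∈ Q) ∧ R.U ≤ Q ∧
    (∀ b ∈ R.lev K, R.X b ≤ Q) ∧ R.T ⊔ Q = R.PJ K ∧ R.T ⊓ Q = R.TK K

/-- ACA: the calculus of the operators. -/
def AcaStmt : Prop := ∀ (ℓ : ℕ) [Fact ℓ.Prime] (F : Type) [Field F], GoodF ℓ F →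
  ∀ (G : Type) [Group G] [Finite G] (R : RGD ℓ G) (J : Finset (Fin R.r)) (k : ℕ)
    (ρ : R.PJ J →* Matrix (Fin k) (Fin k) F),
  (∀ w : List (Fin R.r), (∀ j ∈ w, j ∈ J) → ∀ v ∈ fx R.U ρ,
    (Aw R ρ w).mulVec v ∈ fx R.U ρ ∧
    ∀ i ∈ J, (R.sw w.reverse (R.a i) ∈ R.pos →
        (Aw R ρ (i :: w)).mulVec v = (Ai R ρ i).mulVec ((Aw R ρ w).mulVec v)) ∧
      (R.sw w.reverse (R.a i) ∈ R.neg → (Ai R ρ i).mulVec ((Aw R ρ (i :: w)).mulVec v) =
        (Aw R ρ w).mulVec ((ro ρ ((R.nw w)⁻¹ * (R.n i * R.n i) * R.nw w)).mulVec v))) ∧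
  (∀ w : List (Fin R.r), (∀ j ∈ w, j ∈ J) → ∀ t ∈ R.T, ∀ v,
    (Aw R ρ w).mulVec ((ro ρ t).mulVec v) =
      (ro ρ (R.nw w * t * (R.nw w)⁻¹)).mulVec ((Aw R ρ w).mulVec v)) ∧
  (∀ i ∈ J, ∀ v ∈ fx R.U ρ, (Ai R ρ i).mulVec v ∈ fx R.U ρ) ∧
  (∀ i ∈ J, ∀ t ∈ R.T, ∀ v, (Ai R ρ i).mulVec ((ro ρ t).mulVec v) =
    (ro ρ (R.n i * t * (R.n i)⁻¹)).mulVec ((Ai R ρ i).mulVec v)) ∧
  (∀ t ∈ R.T, ∀ v ∈ fx R.U ρ, (ro ρ t).mulVec v ∈ fx R.U ρ) ∧
  ∀ v, (Aw R ρ []).mulVec v = v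

/-- ACB: the square of the operator of a simple root. -/
def AcbStmt : Prop := ∀ (ℓ : ℕ) [Fact ℓ.Prime] (F : Type) [Field F], GoodF ℓ F →
  ∀ (G : Type) [Group G] [Finite G] (R : RGD ℓ G) (J : Finset (Fin R.r)) (k : ℕ)
    (ρ : R.PJ J →* Matrix (Fin k) (Fin k) F), ∀ i ∈ J,
  (∀ v ∈ fx R.U ρ, (Ai R ρ i).mulVec ((Ai R ρ i).mulVec v) =
    (Ai R ρ i).mulVec ((tauM R ρ i).mulVec v)) ∧
  (∀ x ∈ R.X (R.a i), x ≠ 1 → R.th i x ∈ R.Ti i ∧ ∃ y ∈ R.X (R.a i), ∃ z ∈ R.X (R.a i),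
    y ≠ 1 ∧ R.n i * x * (R.n i)⁻¹ = y * (R.n i * R.th i x) * z) ∧
  ∀ L : Submodule F (Fin k → F), TS R ρ L → (∀ v ∈ L, (tauM R ρ i).mulVec v ∈ L) ∧
    ((∀ t ∈ R.Ti i, ∀ v ∈ L, (ro ρ t).mulVec v = v) → ∀ v ∈ L, (tauM R ρ i).mulVec v = -v)

/-- TRI: where the operator of a simple root is injective it is `-1`, and the torus of the group of
rank one acts trivially. -/
def TriStmt : Prop := ∀ (ℓ : ℕ) [Fact ℓ.Prime] (F : Type) [Field F], GoodF ℓ F →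
  ∀ (G : Type) [Group G] [Finite G] (R : RGD ℓ G) (J : Finset (Fin R.r)) (k : ℕ)
    (ρ : R.PJ J →* Matrix (Fin k) (Fin k) F), ∀ i ∈ J, ∀ L : Submodule F (Fin k → F),
  L ≤ fx R.U ρ → TS R ρ L → (∀ v ∈ L, (Ai R ρ i).mulVec v ∈ L) →
  (∀ v ∈ L, (Ai R ρ i).mulVec v = 0 → v = 0) →
  (∀ t ∈ R.Ti i, ∀ v ∈ L, (ro ρ t).mulVec v = v) ∧ ∀ v ∈ L, (Ai R ρ i).mulVec v = -v

/-- IND: an induced representation, in terms of matrices. -/
def IndStmt : Prop := ∀ (ℓ : ℕ) [Fact ℓ.Prime] (F : Type) [Field F], GoodF ℓ F →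
  ∀ (G : Type) [Group G] [Finite G] (R : RGD ℓ G) (J K : Finset (Fin R.r)), K ⊆ J → ∀ (m : ℕ)
    (σ : R.T →* Matrix (Fin m) (Fin m) F), (∀ t ∈ R.TK K, ro σ t = 1) →
  ∃ (k : ℕ) (ρ : R.PJ J →* Matrix (Fin k) (Fin k) F) (E : Matrix (Fin k) (Fin m) F)
    (E' : Matrix (Fin m) (Fin k) F), (∀ u ∈ R.U, ro ρ u * E = E) ∧
    (∀ i ∈ K, ∀ x ∈ R.X (R.a i) ⊔ R.X (-R.a i), ro ρ x * E = E) ∧
    (∀ t ∈ R.T, ro ρ t * E = E * ro σ t) ∧ E' * E = 1 ∧
    ∀ g ∈ R.PJ J, g ∉ R.PJ K → E' * ro ρ g * E = 0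

/-- TAU: on an irreducible representation of the torus on which `T i` does not act trivially the
operator `∑ t(x) n²` vanishes. -/
def TauStmt : Prop := ∀ (ℓ : ℕ) [Fact ℓ.Prime] (F : Type) [Field F], GoodF ℓ F →
  ∀ (G : Type) [Group G] [Finite G] (R : RGD ℓ G) (J : Finset (Fin R.r)) (k : ℕ)
    (ρ : R.PJ J →* Matrix (Fin k) (Fin k) F), ∀ i ∈ J, ∀ L : Submodule F (Fin k → F),
  TS R ρ L → (∀ L' : Submodule F (Fin k → F), L' ≤ L → TS R ρ L' → L' = ⊥ ∨ L' = L) →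
  (∀ t ∈ R.Ti i, ∀ v ∈ L, (ro ρ t).mulVec v = v) ∨ ∀ v ∈ L, (tauM R ρ i).mulVec v = 0

/-- CYC: cyclicity over `U`. -/
def CycxStmt : Prop := ∀ (ℓ : ℕ) [Fact ℓ.Prime] (F : Type) [Field F], GoodF ℓ F →
  ∀ (G : Type) [Group G] [Finite G] (R : RGD ℓ G) (J : Finset (Fin R.r)) (k : ℕ)
    (ρ : R.PJ J →* Matrix (Fin k) (Fin k) F) (L : Submodule F (Fin k → F)),
  L ≤ fx R.U ρ → TS R ρ L → AS R J ρ L → ∀ w : List (Fin R.r), (∀ j ∈ w, j ∈ J) →
  (∀ b ∈ R.pos ∩ R.lev J, R.sw w b ∈ R.neg) → ∀ g ∈ R.PJ J, ∀ v ∈ L,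
    (ro ρ g).mulVec v ∈ Submodule.span F
      {x | ∃ u ∈ R.U, ∃ v' ∈ L, x = (ro ρ (u * R.nw w)).mulVec v'}

/-- MIN: every nonzero torus stable subspace of the fixed points leads to an irreducible torus
submodule of the fixed points which is stable under the operators. -/
def MinStmt : Prop := ∀ (ℓ : ℕ) [Fact ℓ.Prime] (F : Type) [Field F], GoodF ℓ F →
  ∀ (G : Type) [Group G] [Finite G] (R : RGD ℓ G) (J : Finset (Fin R.r)) (k : ℕ)
    (ρ : R.PJ J →* Matrix (Fin k) (Fin k) F), fx R.U ρ ≠ ⊥ →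
  ∃ L : Submodule F (Fin k → F), L ≠ ⊥ ∧ L ≤ fx R.U ρ ∧ TS R ρ L ∧ AS R J ρ L ∧
    ∀ L' : Submodule F (Fin k → F), L' ≤ L → TS R ρ L' → L' = ⊥ ∨ L' = L

/-- DUA: if the translates of the subspace `L` under `U` generate the whole space, for `L` the image
`n L` of every nonzero subspace of the fixed points stable under the torus and the operators, then
there is only one such subspace. -/
def VuiStmt : Prop := ∀ (ℓ : ℕ) [Fact ℓ.Prime] (F : Type) [Field F], GoodF ℓ F →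
  ∀ (G : Type) [Group G] [Finite G] (R : RGD ℓ G) (J : Finset (Fin R.r)) (k : ℕ)
    (ρ : R.PJ J →* Matrix (Fin k) (Fin k) F), IsIrr ρ →
  fx R.U ρ ≠ ⊥ ∧ (∀ L : Submodule F (Fin k → F), L ≠ ⊥ → L ≤ fx R.U ρ → TS R ρ L → AS R J ρ L →
    L = fx R.U ρ) ∧
  (∀ L : Submodule F (Fin k → F), L ≤ fx R.U ρ → TS R ρ L → L = ⊥ ∨ L = fx R.U ρ) ∧
  (∀ i ∈ J, (∀ v ∈ fx R.U ρ, (Ai R ρ i).mulVec v = 0) ∨
    ((∀ t ∈ R.Ti i, ∀ v ∈ fx R.U ρ, (ro ρ t).mulVec v = v) ∧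
      ∀ v ∈ fx R.U ρ, (Ai R ρ i).mulVec v = -v)) ∧
  -- the dimension of the coinvariants
  ∀ φ : (Fin k → F) →ₗ[F] F, (∀ u ∈ R.U, ∀ v, φ ((ro ρ u).mulVec v) = φ v) →
    ∀ w : List (Fin R.r), (∀ j ∈ w, j ∈ J) → (∀ b ∈ R.pos ∩ R.lev J, R.sw w b ∈ R.neg) →
    (∀ v ∈ fx R.U ρ, φ ((ro ρ (R.nw w)).mulVec v) = 0) → φ = 0

/-- LB1: every irreducible representation has a label, and the label satisfies the condition on the
torus. -/
def Lb1Stmt : Prop := ∀ (ℓ : ℕ) [Fact ℓ.Prime] (F : Type) [Field F], GoodF ℓ F →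
  ∀ (G : Type) [Group G] [Finite G] (R : RGD ℓ G) (J : Finset (Fin R.r)),
  (∀ (k : ℕ) (ρ : R.PJ J →* Matrix (Fin k) (Fin k) F), IsIrr ρ →
    ∃ (m : ℕ) (σ : R.B →* Matrix (Fin m) (Fin m) F) (K : Finset (Fin R.r)), Lab R J ρ σ K) ∧
  ∀ (k m : ℕ) (ρ : R.PJ J →* Matrix (Fin k) (Fin k) F) (σ : R.B →* Matrix (Fin m) (Fin m) F)
    (K : Finset (Fin R.r)), Lab R J ρ σ K → (∀ i ∈ K, ∀ t ∈ R.Ti i, ro σ t = 1) ∧
      ∀ X : Matrix (Fin k) (Fin m) F, (∀ b ∈ R.B, ro ρ b * X = X * ro σ b) → ∀ i ∈ J,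
        Ai R ρ i * X = if i ∈ K then -X else 0

/-- LB3: the label determines the representation. -/
def Lb3Stmt : Prop := ∀ (ℓ : ℕ) [Fact ℓ.Prime] (F : Type) [Field F], GoodF ℓ F →
  ∀ (G : Type) [Group G] [Finite G] (R : RGD ℓ G) (J : Finset (Fin R.r)) (k k' m m' : ℕ)
    (ρ : R.PJ J →* Matrix (Fin k) (Fin k) F) (ρ' : R.PJ J →* Matrix (Fin k') (Fin k') F)
    (σ : R.B →* Matrix (Fin m) (Fin m) F) (σ' : R.B →* Matrix (Fin m') (Fin m') F)
    (K : Finset (Fin R.r)), Lab R J ρ σ K → Lab R J ρ' σ' K → tr σ = tr σ' → tr ρ = tr ρ'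

/-- LB4: the label is determined by the representation. -/
def Lb4Stmt : Prop := ∀ (ℓ : ℕ) [Fact ℓ.Prime] (F : Type) [Field F], GoodF ℓ F →
  ∀ (G : Type) [Group G] [Finite G] (R : RGD ℓ G) (J : Finset (Fin R.r)) (k k' m m' : ℕ)
    (ρ : R.PJ J →* Matrix (Fin k) (Fin k) F) (ρ' : R.PJ J →* Matrix (Fin k') (Fin k') F)
    (σ : R.B →* Matrix (Fin m) (Fin m) F) (σ' : R.B →* Matrix (Fin m') (Fin m') F)
    (K K' : Finset (Fin R.r)), Lab R J ρ σ K → Lab R J ρ' σ' K' → tr ρ = tr ρ' →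
    tr σ = tr σ' ∧ K = K'

/-- LB5: every label occurs. -/
def Lb5Stmt : Prop := ∀ (ℓ : ℕ) [Fact ℓ.Prime] (F : Type) [Field F], GoodF ℓ F →
  ∀ (G : Type) [Group G] [Finite G] (R : RGD ℓ G) (J K : Finset (Fin R.r)), K ⊆ J → ∀ (m : ℕ)
    (σ : R.B →* Matrix (Fin m) (Fin m) F), IsIrr σ → (∀ i ∈ K, ∀ t ∈ R.Ti i, ro σ t = 1) →
  ∃ (k : ℕ) (ρ : R.PJ J →* Matrix (Fin k) (Fin k) F), Lab R J ρ σ K

/-- SUB: a representation with a subspace of the fixed points which is irreducible for the torus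
and stable under the operators has an irreducible quotient with the corresponding label. -/
def SubStmt : Prop := ∀ (ℓ : ℕ) [Fact ℓ.Prime] (F : Type) [Field F], GoodF ℓ F →
  ∀ (G : Type) [Group G] [Finite G] (R : RGD ℓ G) (J K : Finset (Fin R.r)), K ⊆ J →
  ∀ (k m : ℕ) (ρ : R.PJ J →* Matrix (Fin k) (Fin k) F) (σ : R.B →* Matrix (Fin m) (Fin m) F),
  IsIrr σ → ∀ X : Matrix (Fin k) (Fin m) F, X ≠ 0 → (∀ b ∈ R.B, ro ρ b * X = X * ro σ b) →
  (∀ i ∈ J, Ai R ρ i * X = if i ∈ K then -X else 0) →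
  ∃ (l : ℕ) (ρ' : R.PJ J →* Matrix (Fin l) (Fin l) F), Lab R J ρ' σ K

/-- LB6: the sum of the elements of `U` for `J` the set of all simple roots. -/
def Lb6Stmt : Prop := ∀ (ℓ : ℕ) [Fact ℓ.Prime] (F : Type) [Field F], GoodF ℓ F →
  ∀ (G : Type) [Group G] [Finite G] (R : RGD ℓ G) (k : ℕ)
    (ρ : R.PJ Finset.univ →* Matrix (Fin k) (Fin k) F), IsIrr ρ →
  ((∑ᶠ u : R.U, ro ρ (u : G) = 0) ∨ ∃ φ : Matrix (Fin k) (Fin k) F,
    ∑ᶠ u : R.U, ro ρ (u : G) * φ * ro ρ (u : G)⁻¹ = 1) ∧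
  ∀ (m : ℕ) (σ : R.B →* Matrix (Fin m) (Fin m) F) (K : Finset (Fin R.r)),
    Lab R Finset.univ ρ σ K → ((∑ᶠ u : R.U, ro ρ (u : G) = 0) ↔ K ≠ Finset.univ)

/-- FRX: the same for representations of the whole group. -/
def FrxStmt : Prop := ∀ (ℓ : ℕ) [Fact ℓ.Prime] (F : Type) [Field F], GoodF ℓ F →
  ∀ (G : Type) [Group G] [Finite G] (R : RGD ℓ G) (k : ℕ) (ρ : G →* Matrix (Fin k) (Fin k) F),
  IsIrr ρ → ¬ SZ R.U ρ → ∃ φ : Matrix (Fin k) (Fin k) F, ∑ᶠ u : R.U, ρ u * φ * ρ (u⁻¹ : G) = 1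

/-- PRM: an automorphism which stabilises `U` permutes the simple roots. -/
def PrmxStmt : Prop := ∀ (ℓ : ℕ) [Fact ℓ.Prime] (G : Type) [Group G] [Finite G] (R : RGD ℓ G)
  (α : MulAut G), (∀ u, α u ∈ R.U ↔ u ∈ R.U) → IsPi R α (piA R α) ∧
  (∀ b, α b ∈ R.B ↔ b ∈ R.B) ∧ ∀ π, IsPi R α π → π = piA R α

/-- LB7: the labels and the automorphisms. -/
def Lb7Stmt : Prop := ∀ (ℓ : ℕ) [Fact ℓ.Prime] (F : Type) [Field F], GoodF ℓ F →
  ∀ (G : Type) [Group G] [Finite G] (R : RGD ℓ G) (J : Finset (Fin R.r)) (α : MulAut G),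
  (∀ u, α u ∈ R.U ↔ u ∈ R.U) → J.map (piA R α).toEmbedding = J → ∀ (k m : ℕ)
    (ρ ρ' : R.PJ J →* Matrix (Fin k) (Fin k) F) (σ σ' : R.B →* Matrix (Fin m) (Fin m) F)
    (K : Finset (Fin R.r)), Lab R J ρ σ K → (∀ g g' : R.PJ J, (g' : G) = α g → ρ' g = ρ g') →
    (∀ g g' : R.B, (g' : G) = α g → σ' g = σ g') →
    Lab R J ρ' σ' (K.map (piA R α).symm.toEmbedding)

/-- TCU: existence and uniqueness of the scalar. -/
def TcuStmt : Prop := ∀ (ℓ : ℕ) (F : Type) [Field F], GoodF ℓ F →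
  ∀ (G : Type) [Group G] [Finite G] (P : Subgroup G) (φ : P → F), φ ∈ IBr F P →
  ∀ (α β : MulAut G) (c : G), c ∈ P → (∀ g, α g ∈ P ↔ g ∈ P) → (∀ g, β g ∈ P ↔ g ∈ P) →
  (∀ g, α (β (α⁻¹ (β⁻¹ g))) = c * g * c⁻¹) → Fxd P φ α → Fxd P φ β →
  tca P φ α β c ≠ 0 ∧ IsTCa P φ α β c (tca P φ α β c) ∧
    ∀ z, IsTCa P φ α β c z → z = tca P φ α β c

/-- TCE: the scalars of `ρ` and of its label agree. -/
def TceStmt : Prop := ∀ (ℓ : ℕ) [Fact ℓ.Prime] (F : Type) [Field F], GoodF ℓ F →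
  ∀ (G : Type) [Group G] [Finite G] (R : RGD ℓ G) (J : Finset (Fin R.r)) (α β : MulAut G) (c : G),
  (∀ u, α u ∈ R.U ↔ u ∈ R.U) → (∀ u, β u ∈ R.U ↔ u ∈ R.U) → c ∈ R.B →
  (∀ g, α g ∈ R.PJ J ↔ g ∈ R.PJ J) → (∀ g, β g ∈ R.PJ J ↔ g ∈ R.PJ J) →
  (∀ g, α (β (α⁻¹ (β⁻¹ g))) = c * g * c⁻¹) → ∀ (k m : ℕ)
    (ρ : R.PJ J →* Matrix (Fin k) (Fin k) F) (σ : R.B →* Matrix (Fin m) (Fin m) F)
    (K : Finset (Fin R.r)), Lab R J ρ σ K → Fxd (R.PJ J) (tr ρ) α → Fxd (R.PJ J) (tr ρ) β →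
    tca (R.PJ J) (tr ρ) α β c = tca R.B (tr σ) α β c

open Classical in
/-- CSF: the sum of the scalars over the irreducible characters of a parabolic subgroup. -/
def CsfStmt : Prop := ∀ (ℓ : ℕ) [Fact ℓ.Prime] (F : Type) [Field F], GoodF ℓ F →
  ∀ (G : Type) [Group G] [Finite G] (R : RGD ℓ G) (J : Finset (Fin R.r)) (q : Prop),
  (q → J = Finset.univ) → ∀ (Z : Subgroup G), Z ≤ R.T → Z ≤ Subgroup.center G →
  ∀ (ζ : G → F) (α β : MulAut G) (c : G), (∀ z ∈ Z, ζ z ≠ 0) →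
  (∀ u, α u ∈ R.U ↔ u ∈ R.U) → (∀ u, β u ∈ R.U ↔ u ∈ R.U) → c ∈ R.B →
  J.map (piA R α).toEmbedding = J → J.map (piA R β).toEmbedding = J →
  (∀ g, α (β (α⁻¹ (β⁻¹ g))) = c * g * c⁻¹) → ∀ τ : F → ℂ,
  ∑ᶠ φ ∈ {φ : R.PJ J → F | φ ∈ IBr F (R.PJ J) ∧ Ovr (R.PJ J) Z ζ φ ∧ Fxd (R.PJ J) φ α ∧
      Fxd (R.PJ J) φ β ∧ (q → SZJ R φ)}, τ (tca (R.PJ J) φ α β c) =
    ∑ᶠ lam ∈ {lam : R.B → F | lam ∈ IBr F R.B ∧ Ovr R.B Z ζ lam ∧ Fxd R.B lam α ∧
      Fxd R.B lam β}, ((KS J (Ms R lam) (piA R α) (piA R β) q).card : ℂ) *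
        τ (tca R.B lam α β c)

end Pool.Agent.PP.X1
end
end -- Pool.Agent.Helper36_X1.Stmts2

section -- Pool.Agent.Helper36_X1.Stmts3

/-!
# Squad X1: statements on the groups `D`

Text: `AWC_X1.md`, sections F, G, H.
-/

open scoped BigOperators

noncomputable section

namespace Pool.Agent.PP.X1

open Pool.Agent.Helper51_AWC Pool.Agent.Helper79_WRA Pool.Agent.PP

/-! ## F. Group theory -/

/-- CON: the diagram is connected. -/
def ConStmt : Prop := ∀ (ℓ : ℕ) [Fact ℓ.Prime] (D : Type) [Group D] [Finite D] (M : Subgroup D)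
  (R : RGD ℓ M), RgD ℓ M R → ∀ J : Finset (Fin R.r), J.Nonempty → J ≠ Finset.univ →
  ∃ i ∈ J, ∃ k, k ∉ J ∧ R.s i (R.a k) ≠ R.a k

/-- CED: the centraliser of `U`. -/
def CedStmt : Prop := ∀ (ℓ : ℕ) [Fact ℓ.Prime] (D : Type) [Group D] [Finite D] (M : Subgroup D)
  (R : RGD ℓ M), RgD ℓ M R →
  Subgroup.centralizer ((up R.U : Subgroup D) : Set D) ≤ up R.U ⊔ Subgroup.center D

/-- CEM: the centralisers of the unipotent radicals. -/
def CemStmt : Prop := ∀ (ℓ : ℕ) [Fact ℓ.Prime] (D : Type) [Group D] [Finite D] (M : Subgroup D)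
  (R : RGD ℓ M), RgD ℓ M R → ∀ J : Finset (Fin R.r), J ≠ Finset.univ →
  Subgroup.centralizer ((up (R.UJ J) : Subgroup D) : Set D) ≤ up (R.UJ J) ⊔ Subgroup.center D

/-- BAS: first properties. -/
def BasStmt : Prop := ∀ (ℓ : ℕ) [Fact ℓ.Prime] (D : Type) [Group D] [Finite D] (M : Subgroup D)
  [M.Normal] (R : RGD ℓ M), RgD ℓ M R →
  (∀ P : Subgroup D, IsPGroup ℓ P → P ≤ M ∧ ∃ g ∈ M, ∀ x ∈ P, g * x * g⁻¹ ∈ up R.U) ∧
  ¬ ℓ ∣ Nat.card (Subgroup.center D) ∧ M ⊔ AD R = ⊤ ∧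
  (∀ x ∈ AD R, ∀ u : M, (MulAut.conjNormal x : MulAut M) u ∈ R.U ↔ u ∈ R.U) ∧
  (∀ J : Finset (Fin R.r), Subgroup.normalizer ((up (R.UJ J) : Subgroup D) : Set D) ⊓ M =
    up (R.PJ J)) ∧
  M ⊓ AD R = up R.B ∧ IsPGroup ℓ (up R.U) ∧ ¬ ℓ ∣ (up R.U).index ∧
  ∀ J : Finset (Fin R.r), J ≠ Finset.univ → up (R.UJ J) ≠ ⊥

open Classical in
/-- XCH: reduction to the chains of the subgroups of a class `𝒞`, normalised by the top. -/
def XchStmt : Prop := ∀ (ℓ : ℕ) [Fact ℓ.Prime] (D : Type) [Group D] [Finite D]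
  (𝒞 : Subgroup D → Prop), (∀ Q : Subgroup D, IsPGroup ℓ Q → Q ≠ ⊥ → ¬ 𝒞 Q →
    ∃ K : Subgroup D, IsPGroup ℓ K ∧ Q < K ∧ K ≤ Subgroup.normalizer (Q : Set D) ∧
      Subgroup.normalizer (Q : Set D) ≤ Subgroup.normalizer (K : Set D) ∧
      ∀ Q' : Subgroup D, IsPGroup ℓ Q' → 𝒞 Q' → Q' < Q → Q ≤ Subgroup.normalizer (Q' : Set D) →
        K ≤ Subgroup.normalizer (Q' : Set D)) → ∀ w : Subgroup D → ℤ,
  ∑ d ∈ chainsOn (psubIn ℓ (⊤ : Subgroup D)) ⊥, (-1) ^ (d.card + 1) * w (stab d) =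
    ∑ d ∈ (chainsOn (psubIn ℓ (⊤ : Subgroup D)) ⊥).filter (fun d => ∀ Q ∈ d,
      (Q ≠ ⊥ → 𝒞 Q) ∧ ∀ Q' ∈ d, Q' ≤ Subgroup.normalizer (Q : Set D)),
      (-1) ^ (d.card + 1) * w (stab d)

/-- RAD: the radical subgroups. -/
def RadStmt : Prop := ∀ (ℓ : ℕ) [Fact ℓ.Prime] (D : Type) [Group D] [Finite D] (M : Subgroup D)
  (R : RGD ℓ M), RgD ℓ M R →
  (∀ Q : Subgroup D, IsPGroup ℓ Q → Q ≠ ⊥ → ¬ Rad R Q → ∃ K : Subgroup D, IsPGroup ℓ K ∧ Q < K ∧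
    K ≤ Subgroup.normalizer (Q : Set D) ∧
    Subgroup.normalizer (Q : Set D) ≤ Subgroup.normalizer (K : Set D) ∧
    ∀ Q' : Subgroup D, IsPGroup ℓ Q' → Rad R Q' → Q' < Q → Q ≤ Subgroup.normalizer (Q' : Set D) →
      K ≤ Subgroup.normalizer (Q' : Set D)) ∧
  ∀ (g : D) (J : Finset (Fin R.r)), J ≠ Finset.univ → Rad R (conjS g (up (R.UJ J)))

open Classical in
/-- XFL: the alternating sum as a sum over the flags. -/
def XflStmt : Prop := ∀ (ℓ : ℕ) [Fact ℓ.Prime] (F : Type) [Field F] (D : Type) [Group D]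
  [Finite D] (M : Subgroup D) (R : RGD ℓ M), RgD ℓ M R → ∀ e : D → F, IsCl e →
  (Nat.card (AD R) : ℤ) * YY ℓ ⊤ e = (Nat.card D : ℤ) *
    ∑ f ∈ (Finset.univ : Finset (Finset (Finset (Fin R.r)))).filter (fun f => Flag f),
      (-1) ^ f.card * ((Nat.card (Df R f ⊓ AD R : Subgroup D) : ℤ) * (lnum (Df R f) e : ℤ))

/-- STF: the stabilisers of flags. -/
def StfStmt : Prop := ∀ (ℓ : ℕ) [Fact ℓ.Prime] (D : Type) [Group D] [Finite D] (M : Subgroup D)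
  [M.Normal] (R : RGD ℓ M), RgD ℓ M R → ∀ f : Finset (Finset (Fin R.r)), Flag f →
  Df R f ⊓ M = up (R.PJ (f.inf id)) ∧ (∀ x ∈ Df R f, ∃ y ∈ up (R.PJ (f.inf id)),
    ∃ z ∈ Df R f ⊓ AD R, x = y * z) ∧ up R.B ≤ Df R f ∧
  (f.Nonempty → f.inf id ≠ Finset.univ ∧ up (R.UJ (f.inf id)) ≤ Df R f ∧
    Df R f ≤ Subgroup.normalizer ((up (R.UJ (f.inf id)) : Subgroup D) : Set D)) ∧
  ∀ x ∈ AD R, (x ∈ Df R f ↔ ∀ J ∈ f,
    J.map (piA R (MulAut.conjNormal x : MulAut M)).toEmbedding = J)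

/-! ## G. Idempotents -/

/-- NLQ: on a group with a normal `ℓ`-subgroup the class function acts like its Brauer image. -/
def NlqStmt : Prop := ∀ (ℓ : ℕ) [Fact ℓ.Prime] (F : Type) [Field F], GoodF ℓ F →
  ∀ (D : Type) [Group D] [Finite D] (Q X : Subgroup D), IsPGroup ℓ Q → Q ≤ X →
  X ≤ Subgroup.normalizer (Q : Set D) → ∀ e : D → F, IsCl e → lnum X e = lnum X (br Q e)

/-- DZX: a central idempotent with vanishing Brauer map at `U` is supported on elements of defect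
zero. -/
def DzxStmt : Prop := ∀ (ℓ : ℕ) [Fact ℓ.Prime] (F : Type) [Field F], GoodF ℓ F →
  ∀ (D : Type) [Group D] [Finite D] (M : Subgroup D) (R : RGD ℓ M), RgD ℓ M R →
  ∀ e : D → F, IsIdem e → br (up R.U) e = 0 →
  ∀ x, e x ≠ 0 → ¬ ℓ ∣ Nat.card (Subgroup.centralizer ({x} : Set D))

/-- BRX: the Brauer images of an idempotent of positive defect. -/
def BrxStmt : Prop := ∀ (ℓ : ℕ) [Fact ℓ.Prime] (F : Type) [Field F], GoodF ℓ F →
  ∀ (D : Type) [Group D] [Finite D] (M : Subgroup D) (R : RGD ℓ M), RgD ℓ M R →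
  ∀ ζ : Subgroup.center D →* F, IsIdem (ez ζ) ∧ br (up R.U) (ez ζ) = ez ζ ∧
    ∀ e : D → F, IsIdem e → OverZ ζ e → e ≠ 0 → Pos ℓ e ⊤ →
      (∀ J : Finset (Fin R.r), J ≠ Finset.univ → br (up (R.UJ J)) e = ez ζ) ∧
        br (up R.U) e = ez ζ ∧ mulF (ez ζ) e = e ∧ IsIdem (fun x => ez ζ x - e x) ∧
        br (up R.U) (fun x => ez ζ x - e x) = 0

/-- PCX: the class function which separates the projective representations. -/
def PcxStmt : Prop := ∀ (ℓ : ℕ) [Fact ℓ.Prime] (F : Type) [Field F], GoodF ℓ F →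
  ∀ (D : Type) [Group D] [Finite D] (M : Subgroup D) (R : RGD ℓ M), RgD ℓ M R →
  ∃ a : D → F, IsCl a ∧ (∀ x, x ∉ M → a x = 0) ∧
    (∀ x, a x ≠ 0 → ¬ ℓ ∣ Nat.card (Subgroup.centralizer ({x} : Set D))) ∧
    ∀ (k : ℕ) (σ : M →* Matrix (Fin k) (Fin k) F), IsIrr σ →
      (SZ R.U σ → ev σ (fun t : M => a t) = 0) ∧ (¬ SZ R.U σ → ev σ (fun t : M => a t) = 1)

/-- ALX: a class function supported on `M` which acts like `e`. -/
def AlxStmt : Prop := ∀ (ℓ : ℕ) [Fact ℓ.Prime] (F : Type) [Field F], GoodF ℓ F →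
  ∀ (D : Type) [Group D] [Finite D] (M : Subgroup D) (R : RGD ℓ M), RgD ℓ M R →
  ∀ (ζ : Subgroup.center D →* F) (e : D → F), IsIdem e → OverZ ζ e → e ≠ 0 → Pos ℓ e ⊤ →
  ∃ α : D → F, IsCl α ∧ (∀ x, x ∉ M → α x = 0) ∧
    (∀ (m : ℕ) (ρ : D →* Matrix (Fin m) (Fin m) F), IsIrr ρ → ev ρ α = ev ρ e) ∧
    ∀ (k : ℕ) (σ : M →* Matrix (Fin k) (Fin k) F), IsIrr σ →
      (SZ R.U σ → ev σ (fun t : M => α t) = ev σ (fun t : M => ez ζ t)) ∧
      (¬ SZ R.U σ → ev σ (fun t : M => α t) = 0)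

/-! ## H. The count -/

open Classical in
/-- CNV: the counting lemma for `H` and the normal subgroup `M ∩ H`, as a sum over `H ∩ A`. -/
def CnvStmt : Prop := ∀ (ℓ : ℕ) [Fact ℓ.Prime] (F : Type) [Field F], GoodF ℓ F →
  ∀ (D : Type) [Group D] [Finite D] (M : Subgroup D) [M.Normal], ¬ ℓ ∣ M.index →
  ∀ (H A : Subgroup D) (P B : Subgroup M), up P = H ⊓ M → up B = M ⊓ A → up B ≤ H →
  (∀ x ∈ H, ∃ y ∈ up P, ∃ z ∈ H ⊓ A, x = y * z) → ∀ a : D → F, IsCl a → (∀ x, x ∉ M → a x = 0) →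
  ∀ τ : F → ℂ, IsLift τ →
  (Nat.card (H ⊓ A : Subgroup D) : ℂ) * Nat.card B * (lnum H a : ℂ) =
    ∑ᶠ (x : D) (y : D), if x ∈ H ⊓ A ∧ y ∈ H ⊓ A ∧ x * y * x⁻¹ * y⁻¹ ∈ up B then
      ∑ᶠ φ ∈ {φ : P → F | φ ∈ IBr F P ∧ actF (fun t : P => a t) φ = φ ∧
        Fxd P φ (MulAut.conjNormal x) ∧ Fxd P φ (MulAut.conjNormal y)},
        τ (tca P φ (MulAut.conjNormal x) (MulAut.conjNormal y) (cM M x y))
    else 0

open Classical in
/-- NUM: the number of irreducible modular characters of the stabiliser of a flag. -/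
def NumStmt : Prop := ∀ (ℓ : ℕ) [Fact ℓ.Prime] (F : Type) [Field F], GoodF ℓ F →
  ∀ (D : Type) [Group D] [Finite D] (M : Subgroup D) [M.Normal] (R : RGD ℓ M), RgD ℓ M R →
  ∀ (ζ : Subgroup.center D →* F) (e : D → F), IsIdem e → OverZ ζ e → e ≠ 0 → Pos ℓ e ⊤ →
  ∀ f : Finset (Finset (Fin R.r)), Flag f → ∀ τ : F → ℂ, IsLift τ →
  (Nat.card (Df R f ⊓ AD R : Subgroup D) : ℂ) * Nat.card R.B * (lnum (Df R f) e : ℂ) =
    ∑ᶠ (x : D) (y : D), if x ∈ Df R f ⊓ AD R ∧ y ∈ Df R f ⊓ AD R ∧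
        x * y * x⁻¹ * y⁻¹ ∈ up R.B then
      ∑ᶠ lam ∈ {lam : R.B → F | lam ∈ IBr F R.B ∧
          (∀ (z : Subgroup.center D) (g g' : R.B), ((g' : M) : D) = z * ((g : M) : D) →
            ζ z * lam g' = lam g) ∧
          Fxd R.B lam (MulAut.conjNormal x) ∧ Fxd R.B lam (MulAut.conjNormal y)},
        ((KS (f.inf id) (Ms R lam) (piA R (MulAut.conjNormal x)) (piA R (MulAut.conjNormal y))
          (f = ∅)).card : ℂ) *
          τ (tca R.B lam (MulAut.conjNormal x) (MulAut.conjNormal y) (cM M x y))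
    else 0

open Classical in
/-- TOG: the combinatorial cancellation. -/
def TogStmt : Prop := ∀ (r : ℕ) (π π' : Equiv.Perm (Fin r)) (M : Finset (Fin r)),
  ∑ f ∈ (Finset.univ : Finset (Finset (Finset (Fin r)))).filter (fun f => Flag f ∧
      ∀ J ∈ f, J.map π.toEmbedding = J ∧ J.map π'.toEmbedding = J),
    (-1 : ℤ) ^ f.card * ((KS (f.inf id) M π π' (f = ∅)).card : ℤ) = 0

/-- YYX: the alternating sum vanishes for `D`. -/
def YyxStmt : Prop := ∀ (ℓ : ℕ) [Fact ℓ.Prime] (F : Type) [Field F], GoodF ℓ F →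
  ∀ (D : Type) [Group D] [Finite D] (M : Subgroup D) (R : RGD ℓ M), RgD ℓ M R →
  ∀ e : D → F, IsIdem e → (∀ z ∈ Subgroup.center D, z ≠ 1 → ∃ c : F, ∀ x, e (z * x) = c * e x) →
  Pos ℓ e ⊤ → YY ℓ ⊤ e = 0

/-! ## I. Nearly simple groups -/

/-- LFT: lifting the root group datum of `S` to `M`. -/
def LftStmt : Prop := ∀ (ℓ : ℕ) [Fact ℓ.Prime] (S M : Type) [Group S] [Finite S] [Group M]
  [Finite M], LieType ℓ S → ∀ (π : M →* S), Function.Surjective π →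
  π.ker ≤ Subgroup.center M → ¬ ℓ ∣ Nat.card π.ker →
  ∃ R : RGD ℓ M, (∀ z, π z = 1 → z ∈ R.T) ∧ (ℓ ∣ Nat.card S → R.U ≠ ⊥)

/-- NSX: the alternating sum vanishes for the nearly simple groups over groups of Lie type. -/
def NsxStmt : Prop := ∀ (ℓ : ℕ) (F : Type) [Field F], GoodF ℓ F →
  ∀ (S : Type) [Group S] [Finite S], NonabSimple S → ℓ ∣ Nat.card S → LieType ℓ S →
  ∀ (D : Type) [Group D] [Finite D], opCore ℓ D = ⊥ → NearlySimpleL ℓ D S → ∀ e : D → F,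
  IsIdem e → (∀ z ∈ Subgroup.center D, z ≠ 1 → ∃ c : F, ∀ x, e (z * x) = c * e x) →
  Pos ℓ e ⊤ → YY ℓ ⊤ e = 0

/-- QUO: the root group datum of a quotient. -/
def QuoStmt : Prop := ∀ (ℓ : ℕ) (G G' : Type) [Group G] [Group G'] (R : RGD ℓ G) (π : G →* G'),
  Function.Surjective π → π.ker ≤ R.T → LieType ℓ G'

/-- SLN: the special linear groups in characteristic `ℓ`. -/
def SlnStmt : Prop := ∀ (ℓ : ℕ) [Fact ℓ.Prime] (K : Type) [Field K] [Finite K] [CharP K ℓ]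
  (n : ℕ), ∃ R : RGD ℓ (Matrix.SpecialLinearGroup (Fin (n + 1)) K),
    Subgroup.center (Matrix.SpecialLinearGroup (Fin (n + 1)) K) ≤ R.T

end Pool.Agent.PP.X1
end
end -- Pool.Agent.Helper36_X1.Stmts3

section -- Pool.Agent.Helper18_X3.Defs

/-!
# AWC, part X3: the closed family with cyclic Sylow subgroups and the groups of Lie type
-/

open scoped BigOperators

noncomputable section

namespace Pool.Agent.PP.X3

open Pool.Agent.Helper51_AWC Pool.Agent.Helper79_WRA Pool.Agent.PP Pool.Agent.PP.X2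

/-- The Sylow `ℓ`-subgroups of `S` are cyclic. -/
def CySyl (ℓ : ℕ) (S : Type) [Group S] : Prop := ∃ P : Sylow ℓ S, IsCyclic P

/-- The simple groups `S` with cyclic Sylow `ℓ`-subgroups, the groups `PSL_2(K)` over finite fields
of characteristic `ℓ`, and the simple groups of Lie type in characteristic `ℓ` such that all
automorphisms of order a power of `ℓ` are inner or all simple groups of order divisible by `ℓ`
involved in `S` are of Lie type in characteristic `ℓ` or have cyclic Sylow `ℓ`-subgroups. -/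
def GoodC (ℓ : ℕ) : Fam := fun S _ _ => CySyl ℓ S ∨
  (∃ (K : Type) (_ : Field K) (_ : Finite K), CharP K ℓ ∧
    Nonempty (S ≃* Matrix.ProjectiveSpecialLinearGroup (Fin 2) K)) ∨
  (X1.LieType ℓ S ∧ ((∀ α : MulAut S, (∃ n : ℕ, α ^ ℓ ^ n = 1) → ∃ s : S, α = MulAut.conj s) ∨
    ∀ (S' : Type) [Group S'] [Finite S'], NonabSimple S' → ℓ ∣ Nat.card S' → Involves S S' →
      X1.LieType ℓ S' ∨ CySyl ℓ S'))

/-- The simple groups of order prime to `ℓ`, the simple groups in `GoodC ℓ` and those in `𝒜`. -/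
def AdmC (ℓ : ℕ) (𝒜 : Fam) : Fam := fun S _ _ => ¬ ℓ ∣ Nat.card S ∨ GoodC ℓ S ∨ 𝒜 S

end Pool.Agent.PP.X3
end
end -- Pool.Agent.Helper18_X3.Defs

section -- Pool.Agent.Helper18_X3.Cyc

/-!
# AWC, part X3: groups with cyclic Sylow subgroups
-/

noncomputable section

namespace Pool.Agent.PP.X3

open Pool.Agent.PP

theorem cySyl_of_inj {ℓ : ℕ} [hℓ : Fact ℓ.Prime] {K G : Type} [Group K] [Group G] [Finite G]
    (f : K →* G) (hf : Function.Injective f) (h : CySyl ℓ G) (Q : Sylow ℓ K) : IsCyclic Q := by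
  obtain ⟨P, hP⟩ := h
  have hQp : IsPGroup ℓ ((Q : Subgroup K).map f) := Q.isPGroup'.map _
  obtain ⟨P₁, hP₁⟩ := hQp.exists_le_sylow
  have e : P ≃* P₁ := Sylow.equiv P P₁
  have hc : IsCyclic P₁ := isCyclic_of_surjective e e.surjective
  let φ : Q →* P₁ := ((f.comp (Q : Subgroup K).subtype).codRestrict (P₁ : Subgroup G)
    (fun x => hP₁ ⟨x, x.2, rfl⟩))
  refine isCyclic_of_injective φ ?_
  intro a b hab
  have h1 : f a = f b := congrArg Subtype.val hab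
  exact Subtype.ext (hf h1)

theorem cySyl_sub {ℓ : ℕ} [hℓ : Fact ℓ.Prime] {G : Type} [Group G] [Finite G] (h : CySyl ℓ G)
    (K : Subgroup G) (Q : Sylow ℓ K) : IsCyclic Q :=
  cySyl_of_inj K.subtype K.subtype_injective h Q

theorem cySyl_surj {ℓ : ℕ} [hℓ : Fact ℓ.Prime] {K S : Type} [Group K] [Finite K] [Group S]
    (f : K →* S) (hf : Function.Surjective f) (h : CySyl ℓ K) : CySyl ℓ S := by
  obtain ⟨Q, hQ⟩ := h
  refine ⟨Q.mapSurjective hf, ?_⟩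
  exact isCyclic_of_surjective (f.subgroupMap (Q : Subgroup K))
    (f.subgroupMap_surjective (Q : Subgroup K))

theorem cySyl_involves {ℓ : ℕ} [hℓ : Fact ℓ.Prime] {G S : Type} [Group G] [Finite G] [Group S]
    (h : CySyl ℓ G) (hi : Involves G S) : CySyl ℓ S := by
  obtain ⟨K, f, hf⟩ := hi
  obtain ⟨Q⟩ : Nonempty (Sylow ℓ K) := inferInstance
  exact cySyl_surj f hf ⟨Q, cySyl_sub h K Q⟩

theorem cySyl_equiv {ℓ : ℕ} [hℓ : Fact ℓ.Prime] {S T : Type} [Group S] [Group T] [Finite T]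
    (e : S ≃* T) (h : CySyl ℓ T) : CySyl ℓ S := by
  obtain ⟨Q⟩ : Nonempty (Sylow ℓ S) := inferInstance
  exact ⟨Q, cySyl_of_inj e.toMonoidHom e.injective h Q⟩

theorem cySyl_of_not_sq (ℓ : ℕ) [hℓ : Fact ℓ.Prime] (S : Type) [Group S] [Finite S]
    (h2 : ¬ ℓ ^ 2 ∣ Nat.card S) : CySyl ℓ S := by
  obtain ⟨P⟩ : Nonempty (Sylow ℓ S) := inferInstance
  refine ⟨P, ?_⟩
  obtain ⟨k, hk⟩ := IsPGroup.iff_card.mp P.isPGroup'
  have h3 : Nat.card P ∣ Nat.card S := Subgroup.card_subgroup_dvd_card _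
  rcases k with _ | _ | k
  · have : Subsingleton P := (Nat.card_eq_one_iff_unique.mp (by rw [hk, pow_zero])).1
    exact isCyclic_of_subsingleton
  · exact isCyclic_of_prime_card (p := ℓ) (by rw [hk, zero_add, pow_one])
  · exfalso
    apply h2
    refine Dvd.dvd.trans ?_ h3
    rw [hk]
    exact pow_dvd_pow ℓ (by omega)

theorem cySyl_of_cyTI {ℓ : ℕ} [hℓ : Fact ℓ.Prime] {S : Type} [Group S] [Finite S]
    (h : CyTI ℓ S) : CySyl ℓ S := by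
  obtain ⟨P, hP, hc⟩ := h
  exact ⟨hP.pgrp.toSylow hP.sylow, hc⟩

/-- subgroups of index prime to `ℓ` -/
theorem cySyl_of_index {ℓ : ℕ} [hℓ : Fact ℓ.Prime] {G : Type} [Group G] [Finite G]
    (T : Subgroup G) (hT : ¬ ℓ ∣ T.index) (h : CySyl ℓ T) : CySyl ℓ G := by
  obtain ⟨P, hP⟩ := h
  let P₁ : Subgroup G := (P : Subgroup T).map T.subtype
  have h1 : IsPGroup ℓ P₁ := P.isPGroup'.map _
  have h2 : ¬ ℓ ∣ P₁.index := by
    have h3 : P₁.index = (P : Subgroup T).index * T.index := by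
      have h4 := Subgroup.index_map (P : Subgroup T) T.subtype
      rw [Subgroup.ker_subtype, sup_bot_eq, Subgroup.range_subtype] at h4
      exact h4
    rw [h3, hℓ.out.dvd_mul]
    rintro (h5 | h5)
    · exact P.not_dvd_index h5
    · exact hT h5
  refine ⟨h1.toSylow h2, ?_⟩
  exact isCyclic_of_surjective (T.subtype.subgroupMap (P : Subgroup T))
    (T.subtype.subgroupMap_surjective (P : Subgroup T))

/-- central extensions with a kernel of order prime to `ℓ` -/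
theorem cySyl_of_ker {ℓ : ℕ} [hℓ : Fact ℓ.Prime] {G H : Type} [Group G] [Finite G] [Group H]
    [Finite H] (f : G →* H) (hk : ¬ ℓ ∣ Nat.card f.ker) (h : CySyl ℓ H) : CySyl ℓ G := by
  obtain ⟨Q⟩ : Nonempty (Sylow ℓ G) := inferInstance
  refine ⟨Q, ?_⟩
  obtain ⟨P, hP⟩ := h
  have hQp : IsPGroup ℓ ((Q : Subgroup G).map f) := Q.isPGroup'.map _
  obtain ⟨P₁, hP₁⟩ := hQp.exists_le_sylow
  have e : P ≃* P₁ := Sylow.equiv P P₁
  have hc : IsCyclic P₁ := isCyclic_of_surjective e e.surjective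
  let φ : Q →* P₁ := ((f.comp (Q : Subgroup G).subtype).codRestrict (P₁ : Subgroup H)
    (fun x => hP₁ ⟨x, x.2, rfl⟩))
  refine isCyclic_of_injective φ ?_
  rw [← MonoidHom.ker_eq_bot_iff, eq_bot_iff]
  intro a ha
  have h1 : f a = 1 := congrArg Subtype.val ha
  obtain ⟨n, hn⟩ := Q.isPGroup' a
  have hn' : ((a : Q) : G) ^ ℓ ^ n = 1 := congrArg Subtype.val hn
  have h2 : orderOf (a : G) ∣ Nat.card f.ker := by
    have h3 := orderOf_dvd_natCard (⟨(a : G), h1⟩ : f.ker)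
    rwa [← Subgroup.orderOf_coe] at h3
  obtain ⟨m, -, hm⟩ := (Nat.dvd_prime_pow hℓ.out).mp (orderOf_dvd_of_pow_eq_one hn')
  rcases m with _ | m
  · rw [pow_zero, orderOf_eq_one_iff] at hm
    rw [Subgroup.mem_bot]
    exact Subtype.ext hm
  · exfalso
    apply hk
    refine Dvd.dvd.trans ?_ h2
    rw [hm]
    exact dvd_pow_self ℓ (Nat.succ_ne_zero m)

end Pool.Agent.PP.X3
end
end -- Pool.Agent.Helper18_X3.Cyc

section -- Pool.Agent.Helper66_X4.Defs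

/-!
# AWC, part X4: the closed family with abelian Sylow subgroups of rank at most two
-/

open scoped BigOperators

noncomputable section

namespace Pool.Agent.PP.X4

open Pool.Agent.Helper51_AWC Pool.Agent.Helper79_WRA Pool.Agent.PP Pool.Agent.PP.X2

/-- The Sylow `ℓ`-subgroups of `S` are abelian and generated by two elements. -/
def RkSyl (ℓ : ℕ) (S : Type) [Group S] : Prop := ∃ P : Sylow ℓ S,
  (∀ x y : P, x * y = y * x) ∧ ∃ x y : P, Subgroup.closure ({x, y} : Set P) = ⊤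

/-- The simple groups `S` with abelian Sylow `ℓ`-subgroups generated by two elements, the groups
`PSL_2(K)` over finite fields of characteristic `ℓ`, and the simple groups of Lie type in
characteristic `ℓ` such that all automorphisms of order a power of `ℓ` are inner or all simple
groups of order divisible by `ℓ` involved in `S` are of Lie type in characteristic `ℓ` or have
abelian Sylow `ℓ`-subgroups generated by two elements. -/
def GoodR (ℓ : ℕ) : Fam := fun S _ _ => RkSyl ℓ S ∨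
  (∃ (K : Type) (_ : Field K) (_ : Finite K), CharP K ℓ ∧
    Nonempty (S ≃* Matrix.ProjectiveSpecialLinearGroup (Fin 2) K)) ∨
  (X1.LieType ℓ S ∧ ((∀ α : MulAut S, (∃ n : ℕ, α ^ ℓ ^ n = 1) → ∃ s : S, α = MulAut.conj s) ∨
    ∀ (S' : Type) [Group S'] [Finite S'], NonabSimple S' → ℓ ∣ Nat.card S' → Involves S S' →
      X1.LieType ℓ S' ∨ RkSyl ℓ S'))

/-- The simple groups of order prime to `ℓ`, the simple groups in `GoodR ℓ` and those in `𝒜`. -/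
def AdmR (ℓ : ℕ) (𝒜 : Fam) : Fam := fun S _ _ => ¬ ℓ ∣ Nat.card S ∨ GoodR ℓ S ∨ 𝒜 S

end Pool.Agent.PP.X4
end
end -- Pool.Agent.Helper66_X4.Defs

section -- Pool.Agent.Helper66_X4.Rks

/-!
# AWC, part X4: groups with abelian Sylow subgroups of rank at most two
-/

noncomputable section

namespace Pool.Agent.PP.X4

open Pool.Agent.PP Pool.Agent.PP.X3 Pool.Agent.PP.RK2

theorem rk2_surj {Q R : Type} [Group Q] [Group R] (f : Q →* R) (hf : Function.Surjective f)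
    (h : Rk2 Q) : Rk2 R := by
  obtain ⟨hc, x, y, hxy⟩ := h
  refine ⟨fun a b => ?_, f x, f y, ?_⟩
  · obtain ⟨a, rfl⟩ := hf a
    obtain ⟨b, rfl⟩ := hf b
    rw [← map_mul, ← map_mul, hc]
  · have h1 := congrArg (Subgroup.map f) hxy
    rw [MonoidHom.map_closure, Set.image_pair, Subgroup.map_top_of_surjective f hf] at h1
    exact h1

theorem rk2_of_cyc {Q : Type} [Group Q] (h : IsCyclic Q) : Rk2 Q := by
  obtain ⟨g, hg⟩ := h.exists_generator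
  refine ⟨fun a b => ?_, g, g, ?_⟩
  · obtain ⟨m, rfl⟩ := Subgroup.mem_zpowers_iff.1 (hg a)
    obtain ⟨n, rfl⟩ := Subgroup.mem_zpowers_iff.1 (hg b)
    rw [← zpow_add, ← zpow_add, add_comm]
  · rw [Set.pair_eq_singleton, ← Subgroup.zpowers_eq_closure, Subgroup.eq_top_iff']
    exact hg

theorem rkSyl_iff {ℓ : ℕ} {S : Type} [Group S] : RkSyl ℓ S ↔ ∃ P : Sylow ℓ S, Rk2 P := Iff.rfl

theorem rkSyl_of_cySyl {ℓ : ℕ} {S : Type} [Group S] (h : CySyl ℓ S) : RkSyl ℓ S := by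
  obtain ⟨P, hP⟩ := h
  exact ⟨P, rk2_of_cyc hP⟩

theorem rkSyl_of_inj {ℓ : ℕ} [hℓ : Fact ℓ.Prime] {K G : Type} [Group K] [Group G] [Finite G]
    (f : K →* G) (hf : Function.Injective f) (h : RkSyl ℓ G) (Q : Sylow ℓ K) : Rk2 Q := by
  obtain ⟨P, hP⟩ := h
  have hQp : IsPGroup ℓ ((Q : Subgroup K).map f) := Q.isPGroup'.map _
  obtain ⟨P₁, hP₁⟩ := hQp.exists_le_sylow
  have e : P ≃* P₁ := Sylow.equiv P P₁
  have hc : Rk2 P₁ := rk2_surj e.toMonoidHom e.surjective hP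
  let φ : Q →* P₁ := ((f.comp (Q : Subgroup K).subtype).codRestrict (P₁ : Subgroup G)
    (fun x => hP₁ ⟨x, x.2, rfl⟩))
  refine rk2_sub φ ?_ hc
  intro a b hab
  have h1 : f a = f b := congrArg Subtype.val hab
  exact Subtype.ext (hf h1)

theorem rkSyl_sub {ℓ : ℕ} [hℓ : Fact ℓ.Prime] {G : Type} [Group G] [Finite G] (h : RkSyl ℓ G)
    (K : Subgroup G) (Q : Sylow ℓ K) : Rk2 Q :=
  rkSyl_of_inj K.subtype K.subtype_injective h Q

theorem rkSyl_surj {ℓ : ℕ} [hℓ : Fact ℓ.Prime] {K S : Type} [Group K] [Finite K] [Group S]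
    (f : K →* S) (hf : Function.Surjective f) (h : RkSyl ℓ K) : RkSyl ℓ S := by
  obtain ⟨Q, hQ⟩ := h
  refine ⟨Q.mapSurjective hf, ?_⟩
  exact rk2_surj (f.subgroupMap (Q : Subgroup K)) (f.subgroupMap_surjective (Q : Subgroup K)) hQ

theorem rkSyl_involves {ℓ : ℕ} [hℓ : Fact ℓ.Prime] {G S : Type} [Group G] [Finite G] [Group S]
    (h : RkSyl ℓ G) (hi : Involves G S) : RkSyl ℓ S := by
  obtain ⟨K, f, hf⟩ := hi
  obtain ⟨Q⟩ : Nonempty (Sylow ℓ K) := inferInstance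
  exact rkSyl_surj f hf ⟨Q, rkSyl_sub h K Q⟩

theorem rkSyl_equiv {ℓ : ℕ} [hℓ : Fact ℓ.Prime] {S T : Type} [Group S] [Group T] [Finite T]
    (e : S ≃* T) (h : RkSyl ℓ T) : RkSyl ℓ S := by
  obtain ⟨Q⟩ : Nonempty (Sylow ℓ S) := inferInstance
  exact ⟨Q, rkSyl_of_inj e.toMonoidHom e.injective h Q⟩

/-- subgroups of index prime to `ℓ` -/
theorem rkSyl_of_index {ℓ : ℕ} [hℓ : Fact ℓ.Prime] {G : Type} [Group G] [Finite G]
    (T : Subgroup G) (hT : ¬ ℓ ∣ T.index) (h : RkSyl ℓ T) : RkSyl ℓ G := by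
  obtain ⟨P, hP⟩ := h
  let P₁ : Subgroup G := (P : Subgroup T).map T.subtype
  have h1 : IsPGroup ℓ P₁ := P.isPGroup'.map _
  have h2 : ¬ ℓ ∣ P₁.index := by
    have h3 : P₁.index = (P : Subgroup T).index * T.index := by
      have h4 := Subgroup.index_map (P : Subgroup T) T.subtype
      rw [Subgroup.ker_subtype, sup_bot_eq, Subgroup.range_subtype] at h4
      exact h4
    rw [h3, hℓ.out.dvd_mul]
    rintro (h5 | h5)
    · exact P.not_dvd_index h5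
    · exact hT h5
  refine ⟨h1.toSylow h2, ?_⟩
  exact rk2_surj (T.subtype.subgroupMap (P : Subgroup T))
    (T.subtype.subgroupMap_surjective (P : Subgroup T)) hP

/-- central extensions with a kernel of order prime to `ℓ` -/
theorem rkSyl_of_ker {ℓ : ℕ} [hℓ : Fact ℓ.Prime] {G H : Type} [Group G] [Finite G] [Group H]
    [Finite H] (f : G →* H) (hk : ¬ ℓ ∣ Nat.card f.ker) (h : RkSyl ℓ H) : RkSyl ℓ G := by
  obtain ⟨Q⟩ : Nonempty (Sylow ℓ G) := inferInstance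
  refine ⟨Q, ?_⟩
  obtain ⟨P, hP⟩ := h
  have hQp : IsPGroup ℓ ((Q : Subgroup G).map f) := Q.isPGroup'.map _
  obtain ⟨P₁, hP₁⟩ := hQp.exists_le_sylow
  have e : P ≃* P₁ := Sylow.equiv P P₁
  have hc : Rk2 P₁ := rk2_surj e.toMonoidHom e.surjective hP
  let φ : Q →* P₁ := ((f.comp (Q : Subgroup G).subtype).codRestrict (P₁ : Subgroup H)
    (fun x => hP₁ ⟨x, x.2, rfl⟩))
  refine rk2_sub φ ?_ hc
  rw [← MonoidHom.ker_eq_bot_iff, eq_bot_iff]
  intro a ha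
  have h1 : f a = 1 := congrArg Subtype.val ha
  obtain ⟨n, hn⟩ := Q.isPGroup' a
  have hn' : ((a : Q) : G) ^ ℓ ^ n = 1 := congrArg Subtype.val hn
  have h2 : orderOf (a : G) ∣ Nat.card f.ker := by
    have h3 := orderOf_dvd_natCard (⟨(a : G), h1⟩ : f.ker)
    rwa [← Subgroup.orderOf_coe] at h3
  obtain ⟨m, -, hm⟩ := (Nat.dvd_prime_pow hℓ.out).mp (orderOf_dvd_of_pow_eq_one hn')
  rcases m with _ | m
  · rw [pow_zero, orderOf_eq_one_iff] at hm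
    rw [Subgroup.mem_bot]
    exact Subtype.ext hm
  · exfalso
    apply hk
    refine Dvd.dvd.trans ?_ h2
    rw [hm]
    exact dvd_pow_self ℓ (Nat.succ_ne_zero m)

end Pool.Agent.PP.X4
end
end -- Pool.Agent.Helper66_X4.Rks
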