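import Pool.Agent.Helper12_AWB.B061
import Pool.Agent.Helper50_PP.Res
import Pool.Agent.Helper66_ML.Stmts2

/-!
# Merged copies (generated) of the modules

* `Pool.Agent.Helper13_CC.Frob`
* `Pool.Agent.Helper97_CC.Lab`
* `Pool.Agent.Helper10_ML.Lls`
* `Pool.Agent.Helper43_ML.Tei`
* `Pool.Agent.Helper48_ML.WDVS`
* `Pool.Agent.Helper51_ML.SEL`
* `Pool.Agent.Helper92_ML.DVR`
-/

set_option autoImplicit false

section -- Pool.Agent.Helper13_CC.Frob

/-!
CC, module FRB: the Frobenius formula for the number of pairs with given commutator.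
-/

open scoped BigOperators

noncomputable section

namespace Pool.Agent.Helper13_CC

open Pool.Agent.Helper51_AWC Pool.Agent.Helper98_CC

variable {H : Type} [Group H]

theorem sum_conj [Fintype H] {χ : H → ℂ} (hχ : χ ∈ Irr H) (x z : H) :
    ∑ y : H, χ (y * x * y⁻¹ * z) = (Fintype.card H : ℂ) * χ x * χ z / χ 1 := by
  have h1 := irr_one_ne hχ
  obtain ⟨n, ρ, hρ, rfl⟩ := hχ
  set T : (Fin n → ℂ) →ₗ[ℂ] (Fin n → ℂ) := ∑ y : H, ρ (y * x * y⁻¹) with hT
  have hcomm : ∀ g, T ∘ₗ ρ g = ρ g ∘ₗ T := by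
    intro g
    change T * ρ g = ρ g * T
    rw [hT, Finset.sum_mul, Finset.mul_sum, ← Equiv.sum_comp (Equiv.mulLeft g)]
    apply Finset.sum_congr rfl
    intro y _
    rw [← map_mul, ← map_mul]
    congr 1
    simp only [Equiv.coe_mulLeft]
    group
  obtain ⟨c, hc⟩ := schur_scalar ρ T hcomm
  have ht1 : LinearMap.trace ℂ (Fin n → ℂ) T = (Fintype.card H : ℂ) * ρ.character x := by
    rw [hT, map_sum]
    have h2 : ∀ y : H, LinearMap.trace ℂ (Fin n → ℂ) (ρ (y * x * y⁻¹)) = ρ.character x :=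
      fun y => Representation.char_conj ρ x y
    rw [Finset.sum_congr rfl fun y _ => h2 y, Finset.sum_const, Finset.card_univ, nsmul_eq_mul]
  have ht2 : LinearMap.trace ℂ (Fin n → ℂ) T = c * ρ.character 1 := by
    rw [hc, map_smul, smul_eq_mul]
    congr 1
    rw [Representation.character, map_one]
    rfl
  have hc2 : c = (Fintype.card H : ℂ) * ρ.character x / ρ.character 1 := by
    rw [eq_div_iff h1, ← ht2, ht1]
  have ht3 : ∑ y : H, ρ.character (y * x * y⁻¹ * z) = LinearMap.trace ℂ (Fin n → ℂ) (T * ρ z) := by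
    rw [hT, Finset.sum_mul, map_sum]
    apply Finset.sum_congr rfl
    intro y _
    rw [← map_mul]
    rfl
  rw [ht3, hc]
  have h4 : (c • (LinearMap.id : (Fin n → ℂ) →ₗ[ℂ] (Fin n → ℂ))) * ρ z = c • ρ z := by
    rw [smul_mul_assoc]
    rfl
  rw [h4, map_smul, smul_eq_mul, hc2]
  change _ * ρ.character z = _
  ring

open Classical in
/-- The number of pairs, as a double sum. -/
theorem card_eq [Fintype H] (h : H) :
    ((Nat.card {p : H × H // p.1 * p.2 * p.1⁻¹ * p.2⁻¹ = h} : ℕ) : ℂ) =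
      ∑ p : H × H, if p.1 * p.2 * p.1⁻¹ * p.2⁻¹ = h then 1 else 0 := by
  rw [Nat.card_eq_fintype_card, Fintype.card_subtype, Finset.card_eq_sum_ones, Nat.cast_sum,
    Finset.sum_filter]
  simp

theorem card_conj (h k : H) :
    Nat.card {p : H × H // p.1 * p.2 * p.1⁻¹ * p.2⁻¹ = k * h * k⁻¹} =
      Nat.card {p : H × H // p.1 * p.2 * p.1⁻¹ * p.2⁻¹ = h} := by
  symm
  refine Nat.card_congr (Equiv.subtypeEquiv
    ((MulAut.conj k).toEquiv.prodCongr (MulAut.conj k).toEquiv) ?_)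
  rintro ⟨a, b⟩
  simp only [Equiv.prodCongr_apply, Prod.map_apply]
  change _ ↔ (k * a * k⁻¹) * (k * b * k⁻¹) * (k * a * k⁻¹)⁻¹ * (k * b * k⁻¹)⁻¹ = k * h * k⁻¹
  have e : (k * a * k⁻¹) * (k * b * k⁻¹) * (k * a * k⁻¹)⁻¹ * (k * b * k⁻¹)⁻¹ =
      k * (a * b * a⁻¹ * b⁻¹) * k⁻¹ := by group
  rw [e]
  constructor
  · intro h1
    rw [h1]
  · intro h1
    exact mul_left_cancel (mul_right_cancel h1)

theorem pair_sum [Fintype H] {ψ : H → ℂ} (hψ : ψ ∈ Irr H) :
    ∑ h : H, ((Nat.card {p : H × H // p.1 * p.2 * p.1⁻¹ * p.2⁻¹ = h} : ℕ) : ℂ) * ψ h⁻¹ =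
      (Fintype.card H : ℂ) ^ 2 / ψ 1 := by
  classical
  have h1 : ∀ h : H, ((Nat.card {p : H × H // p.1 * p.2 * p.1⁻¹ * p.2⁻¹ = h} : ℕ) : ℂ) * ψ h⁻¹ =
      ∑ p : H × H, if p.1 * p.2 * p.1⁻¹ * p.2⁻¹ = h then ψ h⁻¹ else 0 := by
    intro h
    rw [card_eq, Finset.sum_mul]
    apply Finset.sum_congr rfl
    intro p _
    split_ifs <;> simp
  rw [Finset.sum_congr rfl fun h _ => h1 h, Finset.sum_comm]
  have h2 : ∀ p : H × H, (∑ h : H, if p.1 * p.2 * p.1⁻¹ * p.2⁻¹ = h then ψ h⁻¹ else 0) =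
      ψ (p.2 * p.1 * p.2⁻¹ * p.1⁻¹) := by
    intro p
    rw [Finset.sum_ite_eq, if_pos (Finset.mem_univ _)]
    congr 1
    group
  rw [Finset.sum_congr rfl fun p _ => h2 p, Fintype.sum_prod_type]
  have h3 : ∀ x : H, ∑ y : H, ψ (y * x * y⁻¹ * x⁻¹) =
      (Fintype.card H : ℂ) / ψ 1 * (ψ x * ψ x⁻¹) := by
    intro x
    rw [sum_conj hψ]
    ring
  rw [Finset.sum_congr rfl fun x _ => h3 x, ← Finset.mul_sum, irr_orth_self hψ]
  ring

/-- FROB -/
theorem frob : FrobStmt := by
  intro H _ _ h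
  classical
  have := Fintype.ofFinite H
  have := Fintype.ofFinite (Irr H)
  have hfs : ∀ h : H, (∑ᶠ (θ : H → ℂ) (_ : θ ∈ Irr H), θ h / θ 1) =
      ∑ θ : Irr H, (θ : H → ℂ) h / (θ : H → ℂ) 1 := by
    intro h
    have e := finsum_set_coe_eq_finsum_mem (f := fun θ : H → ℂ => θ h / θ 1) (Irr H)
    rw [← e]
    exact finsum_eq_sum_of_fintype _
  have key : (fun h : H => ((Nat.card {p : H × H // p.1 * p.2 * p.1⁻¹ * p.2⁻¹ = h} : ℕ) : ℂ) -
      (Nat.card H : ℂ) * ∑ θ : Irr H, (θ : H → ℂ) h / (θ : H → ℂ) 1) = 0 := by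
    apply irr_complete'
    · intro g k
      rw [card_conj]
      congr 2
      apply Finset.sum_congr rfl
      intro θ _
      rw [irr_conj θ.2]
    · intro ψ hψ
      have h1 : ∀ g : H, (((Nat.card {p : H × H // p.1 * p.2 * p.1⁻¹ * p.2⁻¹ = g} : ℕ) : ℂ) -
          (Nat.card H : ℂ) * ∑ θ : Irr H, (θ : H → ℂ) g / (θ : H → ℂ) 1) * ψ g⁻¹ =
          ((Nat.card {p : H × H // p.1 * p.2 * p.1⁻¹ * p.2⁻¹ = g} : ℕ) : ℂ) * ψ g⁻¹ -
          ∑ θ : Irr H, (Nat.card H : ℂ) / (θ : H → ℂ) 1 * ((θ : H → ℂ) g * ψ g⁻¹) := by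
        intro g
        rw [sub_mul, Finset.mul_sum, Finset.sum_mul]
        congr 1
        apply Finset.sum_congr rfl
        intro θ _
        ring
      rw [Finset.sum_congr rfl fun g _ => h1 g, Finset.sum_sub_distrib, pair_sum hψ,
        Finset.sum_comm]
      simp_rw [← Finset.mul_sum]
      rw [Finset.sum_eq_single_of_mem ⟨ψ, hψ⟩ (Finset.mem_univ _)]
      · rw [irr_orth_self hψ, Nat.card_eq_fintype_card]
        ring
      · intro θ _ hne
        rw [irr_orth_ne θ.2 hψ (fun h => hne (Subtype.ext h)), mul_zero]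
  have h2 := congrFun key h
  rw [hfs]
  exact sub_eq_zero.1 h2

end Pool.Agent.Helper13_CC
end
end -- Pool.Agent.Helper13_CC.Frob

section -- Pool.Agent.Helper97_CC.Lab

/-!
CC, module LAB: the sum of the commutator counts as a sum over the blocks.
-/

open scoped BigOperators

noncomputable section

namespace Pool.Agent.Helper97_CC

open Pool.Agent.Helper51_AWC Pool.Agent.Helper79_WRA Pool.Agent.Helper98_CC

section basic

variable {G : Type} [Group G] [Finite G]

/-- the irreducible characters of `H`, extended by zero, as a finite set -/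
def IR (H : Subgroup G) : Finset (G → ℂ) := (IrrS_finite H).toFinset

theorem mem_IR {H : Subgroup G} {a : G → ℂ} : a ∈ IR H ↔ a ∈ IrrS H := by
  rw [IR, Set.Finite.mem_toFinset]

/-- the sum of the values of the central characters of `H` at the class of `c` -/
def NN (H : Subgroup G) (c : G) : ℂ := ∑ a ∈ IR H, omega (MonoidHom.id G) a c

theorem comm2_eq (hf : FrobStmt) (H : Subgroup G) (c : G) :
    (comm2 H c : ℂ) = (Nat.card H : ℂ) * ∑ a ∈ IR H, a c / a 1 := by
  classical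
  by_cases hc : c ∈ H
  · have := Fintype.ofFinite H
    have h1 : comm2 H c =
        Nat.card {p : H × H // p.1 * p.2 * p.1⁻¹ * p.2⁻¹ = (⟨c, hc⟩ : H)} := by
      apply Nat.card_congr
      exact
        { toFun := fun p => ⟨(⟨p.1.1, p.2.1⟩, ⟨p.1.2, p.2.2.1⟩), Subtype.ext p.2.2.2⟩
          invFun := fun p => ⟨((p.1.1 : G), (p.1.2 : G)), p.1.1.2, p.1.2.2,
            congrArg Subtype.val p.2⟩
          left_inv := fun _ => rfl
          right_inv := fun _ => rfl }
    rw [h1, hf H ⟨c, hc⟩]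
    congr 1
    rw [finsum_mem_eq_finite_toFinset_sum _ (irr_finite' (G := H))]
    symm
    apply Finset.sum_bij (fun (a : G → ℂ) _ => (fun x : H => a x))
    · intro a ha
      rw [Set.Finite.mem_toFinset]
      exact (mem_IR.1 ha).2
    · intro a ha b hb h
      exact IrrS_ext (mem_IR.1 ha) (mem_IR.1 hb) (fun x => congrFun h x)
    · intro ϑ hϑ
      rw [Set.Finite.mem_toFinset] at hϑ
      obtain ⟨a, ha, hax⟩ := exists_IrrS H hϑ
      exact ⟨a, mem_IR.2 ha, funext hax⟩
    · intro a _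
      rfl
  · have h1 : comm2 H c = 0 := by
      unfold comm2
      rw [Nat.card_eq_zero]
      left
      constructor
      rintro ⟨p, h1, h2, h3⟩
      exact hc (h3 ▸ H.mul_mem (H.mul_mem (H.mul_mem h1 h2) (H.inv_mem h1)) (H.inv_mem h2))
    rw [h1, Nat.cast_zero, Finset.sum_eq_zero, mul_zero]
    intro a ha
    rw [(mem_IR.1 ha).1 c hc, zero_div]

open Classical in
/-- the conjugacy class -/
def KK (c : G) : Finset G := (Set.toFinite {x : G | IsConj c x}).toFinset

theorem mem_KK {c x : G} : x ∈ KK c ↔ IsConj c x := by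
  rw [KK, Set.Finite.mem_toFinset]
  rfl

theorem sum_comm2 (hf : FrobStmt) (H : Subgroup G) (c : G) :
    ((∑ x ∈ KK c, (comm2 H x : ℤ) : ℤ) : ℂ) = (Nat.card H : ℂ) * NN H c := by
  classical
  have := Fintype.ofFinite G
  push_cast
  rw [Finset.sum_congr rfl (fun x _ => comm2_eq hf H x), ← Finset.mul_sum, Finset.sum_comm]
  congr 1
  unfold NN
  refine Finset.sum_congr rfl fun a _ => ?_
  rw [omega_eq, ← Finset.sum_div]
  congr 1
  rw [← Finset.sum_filter]
  apply Finset.sum_congr _ fun _ _ => rfl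
  ext x
  rw [mem_KK, Finset.mem_filter]
  exact ⟨fun h => ⟨Finset.mem_univ _, h⟩, fun h => h.2⟩

theorem NN_integral (H : Subgroup G) (c : G) : IsIntegral ℤ (NN H c) :=
  IsIntegral.sum _ fun _ ha => omega_IrrS_integral (mem_IR.1 ha) c

theorem NN_int (hf : FrobStmt) (H : Subgroup G) (c : G) : ∃ z : ℤ, NN H c = z := by
  have hH : (Nat.card H : ℂ) ≠ 0 := by exact_mod_cast Nat.card_pos.ne'
  have h1 := sum_comm2 hf H c
  set m : ℤ := ∑ x ∈ KK c, (comm2 H x : ℤ) with hm
  have h2 : NN H c = algebraMap ℚ ℂ ((m : ℚ) / (Nat.card H : ℚ)) := by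
    rw [map_div₀, map_intCast, map_natCast, h1, mul_div_cancel_left₀ _ hH]
  have h3 := NN_integral H c
  rw [h2, isIntegral_algebraMap_iff (algebraMap ℚ ℂ).injective] at h3
  obtain ⟨z, hz⟩ := IsIntegrallyClosed.isIntegral_iff.1 h3
  refine ⟨z, ?_⟩
  rw [h2, ← hz]
  simp

open Classical in
/-- the integer `NN H c` -/
def NZ (H : Subgroup G) (c : G) : ℤ := if h : ∃ z : ℤ, NN H c = z then h.choose else 0

theorem NZ_spec (hf : FrobStmt) (H : Subgroup G) (c : G) : (NZ H c : ℂ) = NN H c := by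
  unfold NZ
  rw [dif_pos (NN_int hf H c)]
  exact (NN_int hf H c).choose_spec.symm

theorem sum_comm2' (hf : FrobStmt) (H : Subgroup G) (c : G) :
    ∑ x ∈ KK c, (comm2 H x : ℤ) = (Nat.card H : ℤ) * NZ H c := by
  have h := sum_comm2 hf H c
  rw [← NZ_spec hf] at h
  exact_mod_cast h

omit [Finite G] in
theorem cc1 (g x y : G) : (g * x * g⁻¹) * (g * y * g⁻¹) * (g * x * g⁻¹)⁻¹ * (g * y * g⁻¹)⁻¹ =
    g * (x * y * x⁻¹ * y⁻¹) * g⁻¹ := by group

omit [Finite G] in
theorem cc2 (g x y : G) : (g⁻¹ * x * g) * (g⁻¹ * y * g) * (g⁻¹ * x * g)⁻¹ * (g⁻¹ * y * g)⁻¹ =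
    g⁻¹ * (x * y * x⁻¹ * y⁻¹) * g := by group

omit [Finite G] in
theorem comm2_conj (g : G) (H : Subgroup G) (c : G) :
    comm2 (conjS g H) (g * c * g⁻¹) = comm2 H c := by
  symm
  apply Nat.card_congr
  exact
    { toFun := fun p => ⟨(g * p.1.1 * g⁻¹, g * p.1.2 * g⁻¹), by
        rw [mem_conjS]
        have : g⁻¹ * (g * p.1.1 * g⁻¹) * g = p.1.1 := by group
        rw [this]; exact p.2.1, by
        rw [mem_conjS]
        have : g⁻¹ * (g * p.1.2 * g⁻¹) * g = p.1.2 := by group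
        rw [this]; exact p.2.2.1, (cc1 g p.1.1 p.1.2).trans (by rw [p.2.2.2])⟩
      invFun := fun p => ⟨(g⁻¹ * p.1.1 * g, g⁻¹ * p.1.2 * g), mem_conjS.1 p.2.1,
        mem_conjS.1 p.2.2.1, (cc2 g p.1.1 p.1.2).trans (by rw [p.2.2.2]; group)⟩
      left_inv := fun p => by
        apply Subtype.ext
        apply Prod.ext
        · change g⁻¹ * (g * p.1.1 * g⁻¹) * g = p.1.1
          group
        · change g⁻¹ * (g * p.1.2 * g⁻¹) * g = p.1.2
          group
      right_inv := fun p => by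
        apply Subtype.ext
        apply Prod.ext
        · change g * (g⁻¹ * p.1.1 * g) * g⁻¹ = p.1.1
          group
        · change g * (g⁻¹ * p.1.2 * g) * g⁻¹ = p.1.2
          group }

theorem KK_conj (g c : G) (f : G → ℤ) :
    ∑ x ∈ KK c, f (g * x * g⁻¹) = ∑ x ∈ KK c, f x := by
  apply Finset.sum_bij (fun x _ => g * x * g⁻¹)
  · intro x hx
    rw [mem_KK] at hx ⊢
    exact hx.trans (isConj_iff.2 ⟨g, rfl⟩)
  · intro x _ y _ h
    simpa using h
  · intro x hx
    refine ⟨g⁻¹ * x * g, ?_, by group⟩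
    rw [mem_KK] at hx ⊢
    exact hx.trans (isConj_iff.2 ⟨g⁻¹, by group⟩)
  · intro x _
    rfl

theorem NZ_conj (hf : FrobStmt) (g : G) (H : Subgroup G) (c : G) :
    NZ (conjS g H) c = NZ H c := by
  have h1 := sum_comm2' hf (conjS g H) c
  rw [← KK_conj g c (fun x => (comm2 (conjS g H) x : ℤ))] at h1
  simp only [comm2_conj] at h1
  rw [sum_comm2' hf, card_conjS] at h1
  have hH : (Nat.card H : ℤ) ≠ 0 := by exact_mod_cast Nat.card_pos.ne'
  exact (mul_left_cancel₀ hH h1).symm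

/-! ### sums over chains -/

/-- orbit counting for sums over chains -/
theorem card_mul_sum (ℓ : ℕ) (W : Subgroup G → ℤ)
    (hW : ∀ (g : G) (H : Subgroup G), W (conjS g H) = W H) :
    (Nat.card G : ℤ) * ∑ᶠ q : Quotient (chainSetoid ℓ G), (-1) ^ q.out.length *
        W (stab q.out.mem) =
      ∑ᶠ d : PChain ℓ G, (-1) ^ d.length * ((Nat.card (stab d.mem) : ℤ) * W (stab d.mem)) := by
  classical
  have := Fintype.ofFinite G
  have := Fintype.ofFinite (PChain ℓ G)
  have := Fintype.ofFinite (Quotient (chainSetoid ℓ G))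
  rw [finsum_eq_sum_of_fintype, finsum_eq_sum_of_fintype, Finset.mul_sum]
  rw [← Finset.sum_fiberwise (Finset.univ) (fun d : PChain ℓ G => (Quotient.mk (chainSetoid ℓ G) d))]
  apply Finset.sum_congr rfl
  intro q _
  have h2 : ∀ d ∈ Finset.univ.filter (fun d : PChain ℓ G => Quotient.mk (chainSetoid ℓ G) d = q),
      (-1) ^ d.length * ((Nat.card (stab d.mem) : ℤ) * W (stab d.mem)) =
        (-1) ^ q.out.length * ((Nat.card (stab q.out.mem) : ℤ) * W (stab q.out.mem)) := by
    intro d hd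
    rw [Finset.mem_filter] at hd
    have h3 : (chainSetoid ℓ G).r d q.out := by
      apply Quotient.exact (s := chainSetoid ℓ G)
      rw [hd.2, Quotient.out_eq]
    obtain ⟨g, hg⟩ := (chainSetoid_iff d q.out).1 h3
    rw [← hg, stab_smul, hW, card_conjS]
    congr 2
    unfold PChain.length
    rw [smul_mem_def, Finset.card_map]
  rw [Finset.sum_congr rfl h2, Finset.sum_const, nsmul_eq_mul]
  have h3 : (Finset.univ.filter (fun d : PChain ℓ G => Quotient.mk (chainSetoid ℓ G) d = q)).card *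
      Nat.card (stab q.out.mem) = Nat.card G := by
    have h4 := MulAction.card_orbit_mul_card_stabilizer_eq_card_group G q.out
    rw [← Nat.card_eq_fintype_card, ← Nat.card_eq_fintype_card, ← Nat.card_eq_fintype_card,
      stabilizer_chain] at h4
    rw [← h4]
    congr 1
    rw [← Set.ncard_coe_finset]
    show _ = (MulAction.orbit G q.out).ncard
    congr 1
    ext d
    simp only [Finset.coe_filter, Finset.mem_univ, true_and, Set.mem_ofPred_eq]
    rw [MulAction.mem_orbit_iff, ← chainSetoid_iff]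
    constructor
    · rintro rfl
      exact Quotient.exact (s := chainSetoid ℓ G) (Quotient.out_eq _)
    · intro h
      rw [← Quotient.out_eq q]
      exact Quotient.sound (s := chainSetoid ℓ G) ((chainSetoid ℓ G).iseqv.symm h)
  rw [← h3]
  push_cast
  ring

/-- `torusSum` as a sum over the chains starting with the trivial group -/
theorem torusSum_eq {ℓ : ℕ} (hop : opCore ℓ G = ⊥) (c : G) :
    torusSum ℓ c = ∑ᶠ d : PChain ℓ G, (-1) ^ d.length * (comm2 (stab d.mem) c : ℤ) := by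
  classical
  have := Fintype.ofFinite G
  have := Fintype.ofFinite (PChain ℓ G)
  have hfin : (pChains ℓ G).Finite := Set.toFinite _
  unfold torusSum
  rw [finsum_mem_eq_finite_toFinset_sum _ hfin, finsum_eq_sum_of_fintype]
  have hbot : ∀ d : PChain ℓ G, (⊥ : Subgroup G) ∈ d.mem := fun d => hop ▸ d.core_mem
  symm
  apply Finset.sum_bij (fun d _ => d.mem.erase ⊥)
  · intro d _
    rw [Set.Finite.mem_toFinset]
    exact ⟨fun D hD => ⟨Finset.ne_of_mem_erase hD, d.pgroup D (Finset.mem_of_mem_erase hD)⟩,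
      d.chain.mono (fun D hD => Finset.mem_of_mem_erase hD)⟩
  · intro d _ e _ h
    apply PChain.ext'
    rw [← Finset.insert_erase (hbot d), h, Finset.insert_erase (hbot e)]
  · intro d hd
    rw [Set.Finite.mem_toFinset] at hd
    refine ⟨⟨insert ⊥ d, ?_, ?_, ?_, ?_⟩, Finset.mem_univ _, ?_⟩
    · rw [hop]
      exact Finset.mem_insert_self _ _
    · intro D _
      rw [hop]
      exact bot_le
    · intro D hD
      rcases Finset.mem_insert.1 hD with rfl | hD
      · exact IsPGroup.of_bot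
      · exact (hd.1 D hD).2
    · rw [Finset.coe_insert]
      exact hd.2.insert (fun D _ _ => Or.inl bot_le)
    · exact Finset.erase_insert (fun h => (hd.1 ⊥ h).1 rfl)
  · intro d _
    have h1 : d.length = (d.mem.erase ⊥).card := by
      rw [Finset.card_erase_of_mem (hbot d)]
      rfl
    have h2 : stab (d.mem.erase ⊥) = stab d.mem := by
      ext g
      rw [mem_stab, mem_stab]
      constructor
      · intro h D hD
        by_cases hD' : D = ⊥
        · rw [hD']
          ext x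
          rw [mem_conjS, Subgroup.mem_bot, Subgroup.mem_bot]
          constructor
          · intro hx
            have : x = g * (g⁻¹ * x * g) * g⁻¹ := by group
            rw [this, hx]; group
          · rintro rfl; group
        · exact h D (Finset.mem_erase.2 ⟨hD', hD⟩)
      · intro h D hD
        exact h D (Finset.mem_of_mem_erase hD)
    rw [h1, h2]

theorem torusSum_conj {ℓ : ℕ} (hop : opCore ℓ G = ⊥) (c : G) {x : G} (h : IsConj c x) :
    torusSum ℓ x = torusSum ℓ c := by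
  obtain ⟨g, rfl⟩ := isConj_iff.1 h
  have := Fintype.ofFinite (PChain ℓ G)
  rw [torusSum_eq hop, torusSum_eq hop, finsum_eq_sum_of_fintype, finsum_eq_sum_of_fintype]
  symm
  apply Fintype.sum_equiv (MulAction.toPerm g)
  intro d
  rw [MulAction.toPerm_apply, stab_smul, comm2_conj]
  congr 2
  unfold PChain.length
  rw [smul_mem_def, Finset.card_map]

theorem card_KK (c : G) : (cz c : ℤ) * ((KK c).card : ℤ) = Nat.card G := by
  classical
  have := Fintype.ofFinite G
  have := Fintype.ofFinite (ConjAct G)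
  have h1 := MulAction.card_orbit_mul_card_stabilizer_eq_card_group (ConjAct G) c
  rw [← Nat.card_eq_fintype_card, ← Nat.card_eq_fintype_card, ← Nat.card_eq_fintype_card,
    ← Subgroup.nat_card_centralizer_nat_card_stabilizer] at h1
  have h2 : Nat.card (MulAction.orbit (ConjAct G) c) = (KK c).card := by
    rw [← Set.ncard_coe_finset]
    change (MulAction.orbit (ConjAct G) c).ncard = _
    congr 1
    ext x
    rw [ConjAct.mem_orbit_conjAct, Finset.mem_coe, mem_KK]
    exact ⟨fun h => h.symm, fun h => h.symm⟩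
  have h3 : Nat.card (ConjAct G) = Nat.card G := rfl
  rw [h2, h3] at h1
  rw [← h1]
  unfold cz
  push_cast
  ring

/-- the integer `n` of the statement -/
def nn (ℓ : ℕ) (c : G) : ℤ :=
  ∑ᶠ q : Quotient (chainSetoid ℓ G), (-1) ^ q.out.length * NZ (stab q.out.mem) c

theorem torusSum_nn (hf : FrobStmt) {ℓ : ℕ} (hop : opCore ℓ G = ⊥) (c : G) :
    torusSum ℓ c = (cz c : ℤ) * nn ℓ c := by
  have hG : (Nat.card G : ℤ) ≠ 0 := by exact_mod_cast Nat.card_pos.ne'
  have := Fintype.ofFinite (PChain ℓ G)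
  apply mul_left_cancel₀ hG
  have h1 : (Nat.card G : ℤ) * nn ℓ c = ∑ x ∈ KK c, torusSum ℓ x := by
    unfold nn
    rw [card_mul_sum ℓ (fun H => NZ H c) (fun g H => NZ_conj hf g H c)]
    simp only [torusSum_eq hop, finsum_eq_sum_of_fintype]
    rw [Finset.sum_comm]
    refine Finset.sum_congr rfl fun d _ => ?_
    rw [← Finset.mul_sum, sum_comm2' hf]
  have h2 : ∑ x ∈ KK c, torusSum ℓ x = ((KK c).card : ℤ) * torusSum ℓ c := by
    rw [Finset.sum_congr rfl (fun x hx => torusSum_conj hop c (mem_KK.1 hx)), Finset.sum_const,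
      nsmul_eq_mul]
  calc (Nat.card G : ℤ) * torusSum ℓ c = (cz c : ℤ) * (((KK c).card : ℤ) * torusSum ℓ c) := by
        rw [← card_KK c]; ring
    _ = (Nat.card G : ℤ) * ((cz c : ℤ) * nn ℓ c) := by
        rw [← h2, ← h1]; ring

/-! ### residues -/

theorem red_intCast (M : Ideal (integralClosure ℤ ℂ)) (z : ℤ) :
    red M (z : ℂ) = (z : FF M) := by
  have h : IsIntegral ℤ (z : ℂ) := isIntegral_algebraMap (R := ℤ) (A := ℂ) (x := z)
  rw [red_of h]
  have e : (⟨(z : ℂ), h⟩ : integralClosure ℤ ℂ) = (z : integralClosure ℤ ℂ) := by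
    apply Subtype.ext
    simp
  rw [e, map_intCast]

theorem NZ_red (hf : FrobStmt) (M : Ideal (integralClosure ℤ ℂ)) (H : Subgroup G) (c : G) :
    (NZ H c : FF M) = ∑ a ∈ IR H, labF M a c := by
  rw [← red_intCast, NZ_spec hf, NN, red_sum]
  · rfl
  · intro a ha
    exact omega_IrrS_integral (mem_IR.1 ha) c

theorem NZ_labels (hf : FrobStmt) (M : Ideal (integralClosure ℤ ℂ)) (H : Subgroup G) (c : G)
    (L : Finset (G → FF M)) (hL : ∀ a ∈ IrrS H, labF M a ∈ L) :
    (NZ H c : FF M) = ∑ β ∈ L, ((({a | a ∈ IrrS H ∧ labF M a = β}.ncard : ℕ) : FF M)) * β c := by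
  classical
  rw [NZ_red hf, ← Finset.sum_fiberwise_of_maps_to (g := labF M) (t := L)
    (fun a ha => hL a (mem_IR.1 ha))]
  refine Finset.sum_congr rfl fun β _ => ?_
  have h1 : {a | a ∈ IrrS H ∧ labF M a = β}.ncard = ((IR H).filter (fun a => labF M a = β)).card := by
    rw [← Set.ncard_coe_finset]
    congr 1
    ext a
    rw [Finset.mem_coe, Finset.mem_filter, mem_IR]
    rfl
  rw [h1, ← nsmul_eq_mul, ← Finset.sum_const]
  refine Finset.sum_congr rfl fun a ha => ?_
  rw [(Finset.mem_filter.1 ha).2]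

end basic

/-- **LAB** -/
theorem lab (hf : FrobStmt) (hl : LabelStmt) : LabIdStmt := by
  classical
  intro ℓ _ M _ hM G _ _ hop S hS c
  refine ⟨nn ℓ c, torusSum_nn hf hop c, ?_⟩
  have := Fintype.ofFinite (Quotient (chainSetoid ℓ G))
  have hLfin : (Labs M G).Finite := by
    have := Fintype.ofFinite G
    apply ((irr_finite' (G := G)).image (labF M)).subset
    rintro β ⟨χ, hχ, rfl⟩
    exact ⟨χ, hχ, rfl⟩
  rw [finsum_mem_eq_finite_toFinset_sum _ hLfin]
  set L := hLfin.toFinset with hL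
  have h1 : ∀ q : Quotient (chainSetoid ℓ G), (NZ (stab q.out.mem) c : FF M) = ∑ β ∈ L,
      ((({a | a ∈ IrrS (stab q.out.mem) ∧ labF M a = β}.ncard : ℕ) : FF M)) * β c := by
    intro q
    apply NZ_labels hf
    intro a ha
    rw [hL, Set.Finite.mem_toFinset]
    obtain ⟨χ, hχ, h⟩ := hl ℓ M hM G q.out.mem q.out.pgroup q.out.chain a ha
    exact ⟨χ, hχ, h⟩
  have h2 : ∀ β ∈ L, (S β : FF M) = ∑ q : Quotient (chainSetoid ℓ G), (-1) ^ q.out.length *
      ((({a | a ∈ IrrS (stab q.out.mem) ∧ labF M a = β}.ncard : ℕ) : FF M)) := by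
    intro β hβ
    rw [hL, Set.Finite.mem_toFinset] at hβ
    obtain ⟨χ, hχ, rfl⟩ := hβ
    rw [hS χ hχ, altSum, finsum_eq_sum_of_fintype, Int.cast_sum]
    refine Finset.sum_congr rfl fun q _ => ?_
    rw [H83.ncard_label _ hχ]
    push_cast
    rfl
  unfold nn
  rw [finsum_eq_sum_of_fintype, Int.cast_sum]
  have h3 : ∀ q : Quotient (chainSetoid ℓ G),
      (((-1) ^ q.out.length * NZ (stab q.out.mem) c : ℤ) : FF M) =
      ∑ β ∈ L, ((-1) ^ q.out.length *
        ((({a | a ∈ IrrS (stab q.out.mem) ∧ labF M a = β}.ncard : ℕ) : FF M))) * β c := by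
    intro q
    rw [Int.cast_mul, h1, Finset.mul_sum]
    push_cast
    refine Finset.sum_congr rfl fun β _ => ?_
    ring
  rw [Finset.sum_congr rfl (fun q _ => h3 q), Finset.sum_comm]
  refine Finset.sum_congr rfl fun β hβ => ?_
  rw [h2 β hβ, Finset.sum_mul]

end Pool.Agent.Helper97_CC
end
end -- Pool.Agent.Helper97_CC.Lab

section -- Pool.Agent.Helper10_ML.Lls

/-!
# Squad ML, stage 2, row LLS: the counts with several punctures in terms of characters
-/

open scoped BigOperators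

noncomputable section

namespace Pool.Agent.PP.ML.H10

open Pool.Agent.Helper51_AWC Pool.Agent.Helper79_WRA Pool.Agent.PP Pool.Agent.Helper98_CC
open Pool.Agent.Helper97_CC

section lls

variable {G : Type} [Group G]

/-- the tuples counted by `commL` -/
abbrev Tup (H : Subgroup G) (Cs : List (Set G)) (g : G) : Type :=
  {p : G × G × List G // p.1 ∈ H ∧ p.2.1 ∈ H ∧ (∀ z ∈ p.2.2, z ∈ H) ∧
    List.Forall₂ (fun z K => z ∈ K) p.2.2 Cs ∧
    p.1 * p.2.1 * p.1⁻¹ * p.2.1⁻¹ = g * p.2.2.prod}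

/-- the map from the tuples with one more puncture -/
def consF (H : Subgroup G) (C : Set G) (Cs : List (Set G)) (g : G)
    (p : Σ z : {z : G // z ∈ H ∧ z ∈ C}, Tup H Cs (g * z)) : Tup H (C :: Cs) g :=
  ⟨(p.2.1.1, p.2.1.2.1, (p.1 : G) :: p.2.1.2.2), p.2.2.1, p.2.2.2.1, by
      intro z hz
      rcases List.mem_cons.1 hz with h | h
      · rw [h]
        exact p.1.2.1
      · exact p.2.2.2.2.1 z h,
    List.Forall₂.cons p.1.2.2 p.2.2.2.2.2.1, by
      rw [List.prod_cons, ← mul_assoc]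
      exact p.2.2.2.2.2.2⟩

theorem consF_bij (H : Subgroup G) (C : Set G) (Cs : List (Set G)) (g : G) :
    Function.Bijective (consF H C Cs g) := by
  constructor
  · rintro ⟨⟨z, hz⟩, ⟨⟨x, y, l⟩, hl⟩⟩ ⟨⟨z', hz'⟩, ⟨⟨x', y', l'⟩, hl'⟩⟩ h
    have h1 := congrArg Subtype.val h
    have h2 : x = x' := congrArg (fun q : G × G × List G => q.1) h1
    have h3 : y = y' := congrArg (fun q : G × G × List G => q.2.1) h1
    have h4 : z :: l = z' :: l' := congrArg (fun q : G × G × List G => q.2.2) h1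
    obtain ⟨h5, h6⟩ := List.cons.inj h4
    subst h2 h3 h5 h6
    rfl
  · rintro ⟨⟨x, y, l⟩, hx, hy, hH, hl, hc⟩
    obtain ⟨z, l', hz, hl', h⟩ := List.forall₂_cons_right_iff.1 hl
    have h' : l = z :: l' := h
    subst h'
    refine ⟨⟨⟨z, hH z (List.mem_cons_self), hz⟩, ⟨(x, y, l'), hx, hy,
      fun w hw => hH w (List.mem_cons_of_mem _ hw), hl', ?_⟩⟩, rfl⟩
    have hc' : x * y * x⁻¹ * y⁻¹ = g * (z :: l').prod := hc
    rw [List.prod_cons, ← mul_assoc] at hc'
    exact hc'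

theorem commL_nil (H : Subgroup G) (g : G) : commL H [] g = comm2 H g := by
  symm
  apply Nat.card_congr
  refine Equiv.ofBijective (fun p => ⟨(p.1.1, p.1.2, []), p.2.1, p.2.2.1, by simp,
    List.Forall₂.nil, by rw [List.prod_nil, mul_one]; exact p.2.2.2⟩) ⟨?_, ?_⟩
  · rintro ⟨⟨x, y⟩, h1⟩ ⟨⟨x', y'⟩, h2⟩ h
    have h1 := congrArg Subtype.val h
    have h2 : x = x' := congrArg (fun q : G × G × List G => q.1) h1
    have h3 : y = y' := congrArg (fun q : G × G × List G => q.2.1) h1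
    subst h2 h3
    rfl
  · rintro ⟨⟨x, y, l⟩, hx, hy, hH, hl, hc⟩
    have h' : l = [] := List.forall₂_nil_right_iff.1 hl
    subst h'
    refine ⟨⟨(x, y), hx, hy, ?_⟩, rfl⟩
    have hc' : x * y * x⁻¹ * y⁻¹ = g * ([] : List G).prod := hc
    rw [List.prod_nil, mul_one] at hc'
    exact hc'

variable [Finite G]

theorem tup_finite (H : Subgroup G) (Cs : List (Set G)) : ∀ g : G, Finite (Tup H Cs g) := by
  induction Cs with
  | nil =>
    intro g
    apply Finite.of_injective (fun p : Tup H [] g => ((p.1.1, p.1.2.1) : G × G))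
    rintro ⟨⟨x, y, l⟩, hx, hy, hH, hl, hc⟩ ⟨⟨x', y', l'⟩, hx', hy', hH', hl', hc'⟩ h
    have h1 : l = [] := List.forall₂_nil_right_iff.1 hl
    have h2 : l' = [] := List.forall₂_nil_right_iff.1 hl'
    have h3 : x = x' := congrArg (fun q : G × G => q.1) h
    have h4 : y = y' := congrArg (fun q : G × G => q.2) h
    subst h1 h2 h3 h4
    rfl
  | cons C Cs ih =>
    intro g
    have h1 : ∀ z : {z : G // z ∈ H ∧ z ∈ C}, Finite (Tup H Cs (g * z)) := fun z => ih _
    exact Finite.of_surjective _ (consF_bij H C Cs g).2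

/-- the members of `H` in the set `C` -/
def HC (H : Subgroup G) (C : Set G) : Finset G := (Set.toFinite {z : G | z ∈ H ∧ z ∈ C}).toFinset

theorem mem_HC {H : Subgroup G} {C : Set G} {z : G} : z ∈ HC H C ↔ z ∈ H ∧ z ∈ C := by
  rw [HC, Set.Finite.mem_toFinset]
  rfl

theorem commL_cons (H : Subgroup G) (C : Set G) (Cs : List (Set G)) (g : G) :
    commL H (C :: Cs) g = ∑ z ∈ HC H C, commL H Cs (g * z) := by
  classical
  have := Fintype.ofFinite {z : G // z ∈ H ∧ z ∈ C}
  have h1 : ∀ z : {z : G // z ∈ H ∧ z ∈ C}, Finite (Tup H Cs (g * z)) :=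
    fun z => tup_finite H Cs _
  have h2 : commL H (C :: Cs) g =
      Nat.card (Σ z : {z : G // z ∈ H ∧ z ∈ C}, Tup H Cs (g * z)) :=
    (Nat.card_congr (Equiv.ofBijective _ (consF_bij H C Cs g))).symm
  rw [h2, Nat.card_sigma, Finset.sum_subtype (HC H C) (fun x => mem_HC)
    (fun z => commL H Cs (g * z))]
  rfl

theorem sum_class {H : Subgroup G} {a : G → ℂ} (ha : a ∈ IrrS H) (b x : G) :
    ∑ z ∈ HC H {y | IsConj b y}, a (x * z) = omega (MonoidHom.id G) a b * a x := by
  classical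
  have := Fintype.ofFinite H
  by_cases hx : x ∈ H
  · have hcl : ∀ u v : H, (if IsConj b ((v * u * v⁻¹ : H) : G) then (1 : ℂ) else 0) =
        if IsConj b (u : G) then 1 else 0 := by
      intro u v
      have h1 : IsConj b ((v * u * v⁻¹ : H) : G) ↔ IsConj b (u : G) := by
        have h2 : IsConj (u : G) ((v * u * v⁻¹ : H) : G) := isConj_iff.2 ⟨(v : G), rfl⟩
        exact ⟨fun h => h.trans h2.symm, fun h => h.trans h2⟩
      by_cases h3 : IsConj b (u : G)
      · rw [if_pos h3, if_pos (h1.2 h3)]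
      · rw [if_neg h3, if_neg (fun h => h3 (h1.1 h))]
    have h1 := H50.eigen (a := fun t : H => if IsConj b (t : G) then (1 : ℂ) else 0) hcl ha.2
      ⟨x, hx⟩
    have h2 : H50.om (fun t : H => if IsConj b (t : G) then (1 : ℂ) else 0)
        (fun h : H => a h) = omega (MonoidHom.id G) a b := by
      rw [omega_IrrS ha, omega_eq, H50.om]
      congr 1
      apply Finset.sum_congr rfl
      intro t _
      by_cases h3 : IsConj b (t : G)
      · have h3' : IsConj b (H.subtype t) := h3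
        rw [if_pos h3, if_pos h3', one_mul]
      · have h3' : ¬ IsConj b (H.subtype t) := h3
        rw [if_neg h3, if_neg h3', zero_mul]
    rw [h2] at h1
    rw [← h1]
    have h4 : ∀ t : H, (if IsConj b (t : G) then (1 : ℂ) else 0) * a ((t * (⟨x, hx⟩ : H) : H) : G) =
        if IsConj b (t : G) then a (x * t) else 0 := by
      intro t
      have h5 : a ((t * (⟨x, hx⟩ : H) : H) : G) = a (x * t) :=
        irr_mul_comm ha.2 ⟨x, hx⟩ t
      rw [h5]
      split_ifs
      · rw [one_mul]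
      · rw [zero_mul]
    rw [Finset.sum_congr rfl (fun t _ => h4 t), ← Finset.sum_filter]
    symm
    apply Finset.sum_bij (fun (t : H) _ => (t : G))
    · intro t ht
      rw [mem_HC]
      exact ⟨t.2, (Finset.mem_filter.1 ht).2⟩
    · intro t _ t' _ h
      exact Subtype.ext h
    · intro z hz
      rw [mem_HC] at hz
      exact ⟨⟨z, hz.1⟩, Finset.mem_filter.2 ⟨Finset.mem_univ _, hz.2⟩, rfl⟩
    · intro t _
      rfl
  · rw [ha.1 x hx, mul_zero]
    apply Finset.sum_eq_zero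
    intro z hz
    rw [mem_HC] at hz
    apply ha.1
    intro h
    apply hx
    have h1 := H.mul_mem h (H.inv_mem hz.1)
    rwa [mul_inv_cancel_right] at h1

/-- the product of the values of the central characters -/
abbrev prd (bs : List G) (a : G → ℂ) : ℂ := (bs.map fun b => omega (MonoidHom.id G) a b).prod

/-- the list of the classes -/
abbrev cls' (bs : List G) : List (Set G) := bs.map fun b => {x | IsConj b x}

theorem commL_char (H : Subgroup G) (bs : List G) : ∀ x : G,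
    (commL H (cls' bs) x : ℂ) = (Nat.card H : ℂ) * ∑ a ∈ IR H, a x / a 1 * prd bs a := by
  induction bs with
  | nil =>
    intro x
    have h1 : cls' ([] : List G) = [] := rfl
    rw [h1, commL_nil, comm2_eq Helper13_CC.frob]
    congr 1
    apply Finset.sum_congr rfl
    intro a _
    simp [prd]
  | cons b bs ih =>
    intro x
    have h1 : cls' (b :: bs) = {x | IsConj b x} :: cls' bs := rfl
    rw [h1, commL_cons, Nat.cast_sum, Finset.sum_congr rfl (fun z _ => ih (x * z)),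
      ← Finset.mul_sum, Finset.sum_comm]
    congr 1
    apply Finset.sum_congr rfl
    intro a ha
    rw [← Finset.sum_mul, ← Finset.sum_div, sum_class (mem_IR.1 ha)]
    have h2 : prd (b :: bs) a = omega (MonoidHom.id G) a b * prd bs a := by
      simp [prd]
    rw [h2]
    ring

/-- the sum over the characters -/
def PN (H : Subgroup G) (g : G) (bs : List G) : ℂ :=
  ∑ a ∈ IR H, omega (MonoidHom.id G) a g * prd bs a

theorem sum_commL (H : Subgroup G) (g : G) (bs : List G) :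
    ((∑ x ∈ KK g, (commL H (cls' bs) x : ℤ) : ℤ) : ℂ) = (Nat.card H : ℂ) * PN H g bs := by
  classical
  have := Fintype.ofFinite G
  push_cast
  rw [Finset.sum_congr rfl (fun x _ => commL_char H bs x), ← Finset.mul_sum, Finset.sum_comm]
  congr 1
  unfold PN
  refine Finset.sum_congr rfl fun a _ => ?_
  rw [← Finset.sum_mul]
  congr 1
  rw [omega_eq, ← Finset.sum_div]
  congr 1
  rw [← Finset.sum_filter]
  apply Finset.sum_congr _ fun _ _ => rfl
  ext x
  rw [mem_KK, Finset.mem_filter]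
  exact ⟨fun h => ⟨Finset.mem_univ _, h⟩, fun h => h.2⟩

theorem prd_integral (bs : List G) {H : Subgroup G} {a : G → ℂ} (ha : a ∈ IrrS H) :
    IsIntegral ℤ (prd bs a) := by
  induction bs with
  | nil => exact isIntegral_one
  | cons b bs ih =>
    have h2 : prd (b :: bs) a = omega (MonoidHom.id G) a b * prd bs a := by
      simp [prd]
    rw [h2]
    exact (omega_IrrS_integral ha b).mul ih

theorem PN_integral (H : Subgroup G) (g : G) (bs : List G) : IsIntegral ℤ (PN H g bs) :=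
  IsIntegral.sum _ fun _ ha => (omega_IrrS_integral (mem_IR.1 ha) g).mul
    (prd_integral bs (mem_IR.1 ha))

theorem PN_int (H : Subgroup G) (g : G) (bs : List G) : ∃ z : ℤ, PN H g bs = z := by
  have hH : (Nat.card H : ℂ) ≠ 0 := by exact_mod_cast Nat.card_pos.ne'
  have h1 := sum_commL H g bs
  set m : ℤ := ∑ x ∈ KK g, (commL H (cls' bs) x : ℤ) with hm
  have h2 : PN H g bs = algebraMap ℚ ℂ ((m : ℚ) / (Nat.card H : ℚ)) := by
    rw [map_div₀, map_intCast, map_natCast, h1, mul_div_cancel_left₀ _ hH]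
  have h3 := PN_integral H g bs
  rw [h2, isIntegral_algebraMap_iff (algebraMap ℚ ℂ).injective] at h3
  obtain ⟨z, hz⟩ := IsIntegrallyClosed.isIntegral_iff.1 h3
  refine ⟨z, ?_⟩
  rw [h2, ← hz]
  simp

/-- the integer `PN H g bs` -/
def PZ (H : Subgroup G) (g : G) (bs : List G) : ℤ := (PN_int H g bs).choose

theorem PZ_spec (H : Subgroup G) (g : G) (bs : List G) : (PZ H g bs : ℂ) = PN H g bs :=
  (PN_int H g bs).choose_spec.symm

theorem sum_commL' (H : Subgroup G) (g : G) (bs : List G) :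
    ∑ x ∈ KK g, (commL H (cls' bs) x : ℤ) = (Nat.card H : ℤ) * PZ H g bs := by
  have h := sum_commL H g bs
  rw [← PZ_spec] at h
  exact_mod_cast h

theorem commL_conj (u : G) (H : Subgroup G) (bs : List G) : ∀ x : G,
    commL (conjS u H) (cls' bs) (u * x * u⁻¹) = commL H (cls' bs) x := by
  induction bs with
  | nil =>
    intro x
    have h1 : cls' ([] : List G) = [] := rfl
    rw [h1, commL_nil, commL_nil, comm2_conj]
  | cons b bs ih =>
    intro x
    have h1 : cls' (b :: bs) = {x | IsConj b x} :: cls' bs := rfl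
    rw [h1, commL_cons, commL_cons]
    symm
    apply Finset.sum_bij (fun z _ => u * z * u⁻¹)
    · intro z hz
      rw [mem_HC] at hz ⊢
      refine ⟨?_, ?_⟩
      · rw [mem_conjS]
        have : u⁻¹ * (u * z * u⁻¹) * u = z := by group
        rw [this]
        exact hz.1
      · exact (show IsConj b z from hz.2).trans (isConj_iff.2 ⟨u, rfl⟩)
    · intro z _ z' _ h
      simpa using h
    · intro z hz
      rw [mem_HC] at hz
      refine ⟨u⁻¹ * z * u, ?_, by group⟩
      rw [mem_HC]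
      refine ⟨mem_conjS.1 hz.1, ?_⟩
      exact (show IsConj b z from hz.2).trans (isConj_iff.2 ⟨u⁻¹, by group⟩)
    · intro z _
      rw [← ih (x * z)]
      congr 1
      group

theorem PZ_conj (u : G) (H : Subgroup G) (g : G) (bs : List G) :
    PZ (conjS u H) g bs = PZ H g bs := by
  have h1 := sum_commL' (conjS u H) g bs
  rw [← KK_conj u g (fun x => (commL (conjS u H) (cls' bs) x : ℤ))] at h1
  simp only [commL_conj] at h1
  rw [sum_commL', card_conjS] at h1
  have hH : (Nat.card H : ℤ) ≠ 0 := by exact_mod_cast Nat.card_pos.ne'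
  exact (mul_left_cancel₀ hH h1).symm

/-- sums over the chains of nontrivial subgroups as sums over the chains starting with the
trivial group -/
theorem pChains_sum {ℓ : ℕ} (hop : opCore ℓ G = ⊥) (W : Subgroup G → ℤ) :
    ∑ᶠ (d : Finset (Subgroup G)) (_ : d ∈ pChains ℓ G), (-1) ^ d.card * W (stab d) =
      ∑ᶠ d : PChain ℓ G, (-1) ^ d.length * W (stab d.mem) := by
  classical
  have := Fintype.ofFinite G
  have := Fintype.ofFinite (PChain ℓ G)
  have hfin : (pChains ℓ G).Finite := Set.toFinite _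
  rw [finsum_mem_eq_finite_toFinset_sum _ hfin, finsum_eq_sum_of_fintype]
  have hbot : ∀ d : PChain ℓ G, (⊥ : Subgroup G) ∈ d.mem := fun d => hop ▸ d.core_mem
  symm
  apply Finset.sum_bij (fun d _ => d.mem.erase ⊥)
  · intro d _
    rw [Set.Finite.mem_toFinset]
    exact ⟨fun D hD => ⟨Finset.ne_of_mem_erase hD, d.pgroup D (Finset.mem_of_mem_erase hD)⟩,
      d.chain.mono (fun D hD => Finset.mem_of_mem_erase hD)⟩
  · intro d _ e _ h
    apply PChain.ext'
    rw [← Finset.insert_erase (hbot d), h, Finset.insert_erase (hbot e)]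
  · intro d hd
    rw [Set.Finite.mem_toFinset] at hd
    refine ⟨⟨insert ⊥ d, ?_, ?_, ?_, ?_⟩, Finset.mem_univ _, ?_⟩
    · rw [hop]
      exact Finset.mem_insert_self _ _
    · intro D _
      rw [hop]
      exact bot_le
    · intro D hD
      rcases Finset.mem_insert.1 hD with rfl | hD
      · exact IsPGroup.of_bot
      · exact (hd.1 D hD).2
    · rw [Finset.coe_insert]
      exact hd.2.insert (fun D _ _ => Or.inl bot_le)
    · exact Finset.erase_insert (fun h => (hd.1 ⊥ h).1 rfl)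
  · intro d _
    have h1 : d.length = (d.mem.erase ⊥).card := by
      rw [Finset.card_erase_of_mem (hbot d)]
      rfl
    have h2 : stab (d.mem.erase ⊥) = stab d.mem := by
      ext g
      rw [mem_stab, mem_stab]
      constructor
      · intro h D hD
        by_cases hD' : D = ⊥
        · rw [hD']
          ext x
          rw [mem_conjS, Subgroup.mem_bot, Subgroup.mem_bot]
          constructor
          · intro hx
            have : x = g * (g⁻¹ * x * g) * g⁻¹ := by group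
            rw [this, hx]; group
          · rintro rfl; group
        · exact h D (Finset.mem_erase.2 ⟨hD', hD⟩)
      · intro h D hD
        exact h D (Finset.mem_of_mem_erase hD)
    rw [h1, h2]

theorem torusL_eq {ℓ : ℕ} (hop : opCore ℓ G = ⊥) (bs : List G) (c : G) :
    torusL ℓ (cls' bs) c =
      ∑ᶠ d : PChain ℓ G, (-1) ^ d.length * (commL (stab d.mem) (cls' bs) c : ℤ) :=
  pChains_sum hop (fun H => (commL H (cls' bs) c : ℤ))

theorem torusL_conj {ℓ : ℕ} (hop : opCore ℓ G = ⊥) (bs : List G) (c : G) {x : G}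
    (h : IsConj c x) : torusL ℓ (cls' bs) x = torusL ℓ (cls' bs) c := by
  obtain ⟨g, rfl⟩ := isConj_iff.1 h
  have := Fintype.ofFinite (PChain ℓ G)
  rw [torusL_eq hop, torusL_eq hop, finsum_eq_sum_of_fintype, finsum_eq_sum_of_fintype]
  symm
  apply Fintype.sum_equiv (MulAction.toPerm g)
  intro d
  rw [MulAction.toPerm_apply, stab_smul, commL_conj]
  congr 2
  unfold PChain.length
  rw [smul_mem_def, Finset.card_map]

/-- the integer `n` with `torusL = cz * n` -/
def nnL (ℓ : ℕ) (bs : List G) (c : G) : ℤ :=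
  ∑ᶠ q : Quotient (chainSetoid ℓ G), (-1) ^ q.out.length * PZ (stab q.out.mem) c bs

theorem torusL_nn {ℓ : ℕ} (hop : opCore ℓ G = ⊥) (bs : List G) (c : G) :
    torusL ℓ (cls' bs) c = (cz c : ℤ) * nnL ℓ bs c := by
  have hG : (Nat.card G : ℤ) ≠ 0 := by exact_mod_cast Nat.card_pos.ne'
  have := Fintype.ofFinite (PChain ℓ G)
  apply mul_left_cancel₀ hG
  have h1 : (Nat.card G : ℤ) * nnL ℓ bs c = ∑ x ∈ KK c, torusL ℓ (cls' bs) x := by
    unfold nnL
    rw [card_mul_sum ℓ (fun H => PZ H c bs) (fun g H => PZ_conj g H c bs)]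
    simp only [torusL_eq hop, finsum_eq_sum_of_fintype]
    rw [Finset.sum_comm]
    refine Finset.sum_congr rfl fun d _ => ?_
    rw [← Finset.mul_sum, sum_commL']
  have h2 : ∑ x ∈ KK c, torusL ℓ (cls' bs) x = ((KK c).card : ℤ) * torusL ℓ (cls' bs) c := by
    rw [Finset.sum_congr rfl (fun x hx => torusL_conj hop bs c (mem_KK.1 hx)),
      Finset.sum_const, nsmul_eq_mul]
  calc (Nat.card G : ℤ) * torusL ℓ (cls' bs) c =
      (cz c : ℤ) * (((KK c).card : ℤ) * torusL ℓ (cls' bs) c) := by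
        rw [← card_KK c]; ring
    _ = (Nat.card G : ℤ) * ((cz c : ℤ) * nnL ℓ bs c) := by
        rw [← h2, ← h1]; ring

end lls

/-- **LLS** -/
theorem lls : LlsStmt := by
  classical
  intro ℓ _ G _ _ hop g bs
  have := Fintype.ofFinite (Quotient (chainSetoid ℓ G))
  have h1 : torusL ℓ (bs.map fun b => {x | IsConj b x}) g = (cz g : ℤ) * nnL ℓ bs g :=
    torusL_nn hop bs g
  rw [h1, Int.cast_mul, Int.cast_natCast]
  congr 1
  unfold nnL altF
  rw [finsum_eq_sum_of_fintype, finsum_eq_sum_of_fintype, Int.cast_sum]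
  apply Finset.sum_congr rfl
  intro q _
  rw [Int.cast_mul, PZ_spec, PN, finsum_mem_eq_finite_toFinset_sum _ (IrrS_finite _)]
  push_cast
  rfl

end Pool.Agent.PP.ML.H10
end
end -- Pool.Agent.Helper10_ML.Lls

section -- Pool.Agent.Helper43_ML.Tei

/-!
# Squad ML, stage 2, rows ORD and TEI (helper43)
-/

open scoped BigOperators

noncomputable section

namespace Pool.Agent.PP.ML.H43

open Pool.Agent.Helper51_AWC Pool.Agent.Helper79_WRA Pool.Agent.PP Pool.Agent.Helper98_CC

variable {M : Ideal (integralClosure ℤ ℂ)}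

theorem isInt_FF (w : FF M) : IsIntegral ℤ w := by
  obtain ⟨a, rfl⟩ := Ideal.Quotient.mk_surjective w
  have h1 : IsIntegral ℤ a := integralClosure.isIntegral a
  exact h1.map (Ideal.Quotient.mkₐ ℤ M)

/-- Row ORD. -/
theorem ord : OrdStmt := by
  intro ℓ _ M _ hℓ w hw
  have hch : CharP (FF M) ℓ := Pool.Agent.Helper79_WRA.H47.charP_FF (M := M) hℓ
  let _ : Algebra (ZMod ℓ) (FF M) := ZMod.algebra _ ℓ
  have htower : IsScalarTower ℤ (ZMod ℓ) (FF M) :=
    IsScalarTower.of_algebraMap_eq' (RingHom.ext_int _ _)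
  have hint2 : IsIntegral (ZMod ℓ) w := (isInt_FF w).tower_top
  have hfin : Module.Finite (ZMod ℓ) (Algebra.adjoin (ZMod ℓ) ({w} : Set (FF M))) :=
    Algebra.finite_adjoin_simple_of_isIntegral hint2
  have hfin2 : Finite (Algebra.adjoin (ZMod ℓ) ({w} : Set (FF M))) :=
    Module.finite_of_finite (ZMod ℓ)
  obtain ⟨i, j, hij, he⟩ := Finite.exists_ne_map_eq_of_infinite
    (fun n : ℕ => (⟨w ^ n, pow_mem (Algebra.subset_adjoin (Set.mem_singleton w)) n⟩ :
      Algebra.adjoin (ZMod ℓ) ({w} : Set (FF M))))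
  have he' : w ^ i = w ^ j := congrArg Subtype.val he
  have key : ∀ i j : ℕ, i < j → w ^ i = w ^ j → ∃ E : ℕ, 0 < E ∧ w ^ E = 1 := by
    intro i j h e
    refine ⟨j - i, by omega, ?_⟩
    have e2 : w ^ i * w ^ (j - i) = w ^ i * 1 := by
      rw [← pow_add, mul_one, e]
      congr 1
      omega
    exact mul_left_cancel₀ (pow_ne_zero i hw) e2
  rcases lt_or_gt_of_ne hij with h | h
  · exact key i j h he'
  · exact key j i h he'.symm

/-- the order is prime to `ℓ` -/
theorem ord' (ℓ : ℕ) [hp : Fact ℓ.Prime] (M : Ideal (integralClosure ℤ ℂ)) [M.IsMaximal]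
    (hℓ : (ℓ : integralClosure ℤ ℂ) ∈ M) (w : FF M) (hw : w ≠ 0) :
    ∃ n : ℕ, ¬ ℓ ∣ n ∧ w ^ n = 1 := by
  have hch : CharP (FF M) ℓ := Pool.Agent.Helper79_WRA.H47.charP_FF (M := M) hℓ
  obtain ⟨E, hE, h1⟩ := ord ℓ M hℓ w hw
  obtain ⟨a, n, hn, rfl⟩ := Nat.exists_eq_pow_mul_and_not_dvd hE.ne' ℓ hp.out.ne_one
  refine ⟨n, hn, ?_⟩
  have h2 : (w ^ n - 1) ^ ℓ ^ a = 0 := by
    rw [sub_pow_char_pow, one_pow, ← pow_mul, mul_comm n, h1, sub_self]
  exact sub_eq_zero.1 (pow_eq_zero_iff (pow_ne_zero _ hp.out.ne_zero) |>.1 h2)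

theorem isInt_root {ζ : ℂ} {n : ℕ} (hn : n ≠ 0) (h : ζ ^ n = 1) : IsIntegral ℤ ζ := by
  refine IsIntegral.of_pow (Nat.pos_of_ne_zero hn) ?_
  rw [h]
  exact isIntegral_one

theorem exists_lift (ℓ : ℕ) [hp : Fact ℓ.Prime] (M : Ideal (integralClosure ℤ ℂ)) [M.IsMaximal]
    (hℓ : (ℓ : integralClosure ℤ ℂ) ∈ M) (w : FF M) (hw : w ≠ 0) :
    ∃ ζ : ℂ, ∃ n : ℕ, ¬ ℓ ∣ n ∧ ζ ^ n = 1 ∧ red M ζ = w := by
  obtain ⟨n, hn, h1⟩ := ord' ℓ M hℓ w hw
  have hn0 : n ≠ 0 := by
    rintro rfl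
    exact hn (dvd_zero _)
  obtain ⟨a, rfl⟩ := Ideal.Quotient.mk_surjective w
  have ha : IsIntegral ℤ (a : ℂ) := a.2
  have hra : red M (a : ℂ) = Ideal.Quotient.mk M a := red_of ha
  have hprod := congrArg (Polynomial.eval (a : ℂ))
    (Polynomial.X_pow_sub_one_eq_prod (Nat.pos_of_ne_zero hn0) (Complex.isPrimitiveRoot_exp n hn0))
  rw [Polynomial.eval_sub, Polynomial.eval_pow, Polynomial.eval_X, Polynomial.eval_one,
    Polynomial.eval_prod] at hprod
  have hroot : ∀ ζ ∈ Polynomial.nthRootsFinset n (1 : ℂ), ζ ^ n = 1 := fun ζ hζ =>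
    (Polynomial.mem_nthRootsFinset (Nat.pos_of_ne_zero hn0) 1).1 hζ
  have hred := congrArg (red M) hprod
  have hI : ∀ ζ ∈ Polynomial.nthRootsFinset n (1 : ℂ),
      IsIntegral ℤ (Polynomial.eval (a : ℂ) (Polynomial.X - Polynomial.C ζ)) := by
    intro ζ hζ
    rw [Polynomial.eval_sub, Polynomial.eval_X, Polynomial.eval_C]
    exact ha.sub (isInt_root hn0 (hroot ζ hζ))
  rw [red_prod _ _ hI] at hred
  have hl : red M ((a : ℂ) ^ n - 1) = 0 := by
    have e : red M ((a : ℂ) ^ n - 1 + 1) = red M ((a : ℂ) ^ n - 1) + red M 1 :=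
      red_add ((ha.pow n).sub isIntegral_one) isIntegral_one
    rw [sub_add_cancel, red_pow ha, hra, h1, red_one] at e
    exact right_eq_add.1 e
  rw [hl] at hred
  obtain ⟨ζ, hζ, hz⟩ := Finset.prod_eq_zero_iff.1 hred.symm
  refine ⟨ζ, n, hn, hroot ζ hζ, ?_⟩
  rw [Polynomial.eval_sub, Polynomial.eval_X, Polynomial.eval_C] at hz
  have e : red M ((a : ℂ) - ζ + ζ) = red M ((a : ℂ) - ζ) + red M ζ :=
    red_add (ha.sub (isInt_root hn0 (hroot ζ hζ))) (isInt_root hn0 (hroot ζ hζ))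
  rw [sub_add_cancel, hz, zero_add, hra] at e
  exact e.symm

/-- fixed by a power of the Frobenius map modulo `ℓ` -/
def Fx (ℓ : ℕ) (x : integralClosure ℤ ℂ) : Prop :=
  ∃ h : ℕ, 0 < h ∧ ∃ y : integralClosure ℤ ℂ, x ^ ℓ ^ h = x + ℓ * y

theorem fx_iff (ℓ h : ℕ) (x : integralClosure ℤ ℂ) :
    (∃ y : integralClosure ℤ ℂ, x ^ ℓ ^ h = x + ℓ * y) ↔
      (Ideal.Quotient.mk (Ideal.span {(ℓ : integralClosure ℤ ℂ)}) x) ^ ℓ ^ h =
        Ideal.Quotient.mk (Ideal.span {(ℓ : integralClosure ℤ ℂ)}) x := by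
  rw [← map_pow, Ideal.Quotient.eq, Ideal.mem_span_singleton']
  constructor
  · rintro ⟨y, hy⟩
    exact ⟨y, by rw [hy]; ring⟩
  · rintro ⟨y, hy⟩
    exact ⟨y, by linear_combination -hy⟩

theorem iter {R : Type} [Monoid R] {x : R} {q : ℕ} (h : x ^ q = x) (k : ℕ) : x ^ q ^ k = x := by
  induction k with
  | zero => rw [pow_zero, pow_one]
  | succ k ih => rw [pow_succ, pow_mul, ih, h]

theorem w0_fix (ℓ : ℕ) [hp : Fact ℓ.Prime] (M : Ideal (integralClosure ℤ ℂ)) [M.IsMaximal]
    (hℓ : (ℓ : integralClosure ℤ ℂ) ∈ M) : ∀ z ∈ W0 ℓ, ∃ hz : IsIntegral ℤ z,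
      Fx ℓ (⟨z, hz⟩ : integralClosure ℤ ℂ) := by
  have hch : CharP (integralClosure ℤ ℂ ⧸ Ideal.span {(ℓ : integralClosure ℤ ℂ)}) ℓ := by
    apply CharP.quotient
    intro hu
    exact Ideal.IsMaximal.ne_top ‹_› (Ideal.eq_top_of_isUnit_mem M hℓ hu)
  intro z hz
  refine Subring.closure_induction ?_ ?_ ?_ ?_ ?_ ?_ hz
  · rintro ζ ⟨n, hn, h1⟩
    have hn0 : n ≠ 0 := by
      rintro rfl
      exact hn (dvd_zero _)
    refine ⟨isInt_root hn0 h1, Nat.totient n, Nat.totient_pos.2 (Nat.pos_of_ne_zero hn0), 0, ?_⟩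
    rw [mul_zero, add_zero]
    apply Subtype.ext
    show ζ ^ ℓ ^ Nat.totient n = ζ
    have hc : Nat.Coprime ℓ n := (Nat.Prime.coprime_iff_not_dvd hp.out).2 hn
    have hm := Nat.ModEq.pow_totient hc
    have e := pow_eq_pow_of_modEq hm h1
    rw [e, pow_one]
  · exact ⟨isIntegral_zero, 1, one_pos, 0, by
      rw [mul_zero, add_zero, pow_one]
      exact zero_pow hp.out.ne_zero⟩
  · exact ⟨isIntegral_one, 1, one_pos, 0, by
      rw [mul_zero, add_zero]
      exact one_pow _⟩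
  · rintro x y hx hy ⟨ix, h1, p1, q1⟩ ⟨iy, h2, p2, q2⟩
    refine ⟨ix.add iy, h1 * h2, Nat.mul_pos p1 p2, ?_⟩
    rw [fx_iff] at q1 q2 ⊢
    have q1' := iter q1 h2
    have q2' := iter q2 h1
    rw [← pow_mul] at q1' q2'
    rw [mul_comm h2 h1] at q2'
    have e : (⟨x + y, ix.add iy⟩ : integralClosure ℤ ℂ) = ⟨x, ix⟩ + ⟨y, iy⟩ := rfl
    rw [e, map_add, add_pow_char_pow, q1', q2']
  · rintro x hx ⟨ix, h1, p1, q1⟩
    refine ⟨ix.neg, h1, p1, ?_⟩
    rw [fx_iff] at q1 ⊢
    have e : (⟨-x, ix.neg⟩ : integralClosure ℤ ℂ) = -⟨x, ix⟩ := rfl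
    have e0 : ((0 : integralClosure ℤ ℂ ⧸ Ideal.span {(ℓ : integralClosure ℤ ℂ)}) -
      Ideal.Quotient.mk (Ideal.span {(ℓ : integralClosure ℤ ℂ)}) ⟨x, ix⟩) ^ ℓ ^ h1 =
      0 - Ideal.Quotient.mk (Ideal.span {(ℓ : integralClosure ℤ ℂ)}) ⟨x, ix⟩ := by
      rw [sub_pow_char_pow, q1, zero_pow (pow_ne_zero _ hp.out.ne_zero)]
    rw [zero_sub] at e0
    rw [e, map_neg, e0]
  · rintro x y hx hy ⟨ix, h1, p1, q1⟩ ⟨iy, h2, p2, q2⟩
    refine ⟨ix.mul iy, h1 * h2, Nat.mul_pos p1 p2, ?_⟩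
    rw [fx_iff] at q1 q2 ⊢
    have q1' := iter q1 h2
    have q2' := iter q2 h1
    rw [← pow_mul] at q1' q2'
    rw [mul_comm h2 h1] at q2'
    have e : (⟨x * y, ix.mul iy⟩ : integralClosure ℤ ℂ) = ⟨x, ix⟩ * ⟨y, iy⟩ := rfl
    rw [e, map_mul, mul_pow, q1', q2']

/-- Row TEI. -/
theorem tei : TeiStmt := by
  intro ℓ _ M _ hℓ
  have hp : ℓ.Prime := Fact.out
  refine ⟨?_, ?_, ?_⟩
  · intro w
    by_cases hw : w = 0
    · exact ⟨0, Subring.zero_mem _, isIntegral_zero, by rw [red_zero, hw], fun _ => rfl⟩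
    · obtain ⟨ζ, n, hn, h1, h2⟩ := exists_lift ℓ M hℓ w hw
      have hn0 : n ≠ 0 := by
        rintro rfl
        exact hn (dvd_zero _)
      exact ⟨ζ, Subring.subset_closure ⟨n, hn, h1⟩, isInt_root hn0 h1, h2, fun h => absurd h hw⟩
  · intro z hz
    exact (w0_fix ℓ M hℓ z hz).1
  · intro z hz h0
    obtain ⟨iz, h, p, y, hy⟩ := w0_fix ℓ M hℓ z hz
    have hy' : z ^ ℓ ^ h = z + ℓ * (y : ℂ) := congrArg Subtype.val hy
    have hq : 1 < ℓ ^ h := Nat.one_lt_pow p.ne' hp.one_lt
    refine ⟨1 - z ^ (ℓ ^ h - 1), -(y : ℂ), isIntegral_one.sub (iz.pow _), ?_, y.2.neg, ?_⟩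
    · have e : red M (1 - z ^ (ℓ ^ h - 1) + z ^ (ℓ ^ h - 1)) =
          red M (1 - z ^ (ℓ ^ h - 1)) + red M (z ^ (ℓ ^ h - 1)) :=
        red_add (isIntegral_one.sub (iz.pow _)) (iz.pow _)
      rw [sub_add_cancel, red_one, red_pow iz, h0, zero_pow (by omega), add_zero] at e
      rw [← e]
      have hnt : Nontrivial (FF M) := Ideal.Quotient.nontrivial_iff.2 (Ideal.IsMaximal.ne_top ‹_›)
      exact one_ne_zero
    · have e : z ^ (ℓ ^ h - 1) * z = z ^ ℓ ^ h := by
        rw [← pow_succ]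
        congr 1
        omega
      rw [sub_mul, one_mul, e, hy']
      ring

end Pool.Agent.PP.ML.H43
end
end -- Pool.Agent.Helper43_ML.Tei

section -- Pool.Agent.Helper48_ML.WDVS

/-!
# Squad ML, stage 2, row WDVS: from the sets of tuples to the alternating sums over the chains
-/

set_option autoImplicit false

noncomputable section

namespace Pool.Agent.PP.ML.H48

open Pool.Agent.Helper51_AWC Pool.Agent.Helper79_WRA Pool.Agent.PP Pool.Agent.Helper98_CC

theorem wdvL (wda : WdaStmt) (tl1 : TL1Stmt) : WdvLStmt := by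
  intro ℓ _ G A _ _ _ R g ρ hR hc Cs hCs k hk
  exact wda ℓ G R g hR Cs _ fun X _ _ => tl1 G X A R g ρ hc Cs hCs k hk

theorem wdv3 (wda : WdaStmt) (tl3 : TL3Stmt) : Wdv3Stmt := by
  intro ℓ _ G A _ _ _ R g ρ hR hc K K' hK hK' k hk h3
  exact wda ℓ G R g hR [K, K'] _ fun X _ _ => tl3 G X A R g ρ hc K K' hK hK' k hk h3

theorem wdv2 (wda : WdaStmt) (tl2 : TL2Stmt) : Wdv2Stmt := by
  intro ℓ _ G A _ _ _ R g ρ hR hc K hK k hk h2
  exact wda ℓ G R g hR [K] _ fun X _ _ => tl2 G X A R g ρ hc K hK k hk h2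

end Pool.Agent.PP.ML.H48
end
end -- Pool.Agent.Helper48_ML.WDVS

section -- Pool.Agent.Helper51_ML.SEL

/-!
Squad ML, row SEL: a class function which selects a block.
-/

open scoped BigOperators

noncomputable section

namespace Pool.Agent.PP.ML.H51

open Pool.Agent.Helper51_AWC Pool.Agent.Helper79_WRA Pool.Agent.PP Pool.Agent.Helper98_CC

attribute [local instance] Ideal.Quotient.field

/-- SEL. -/
theorem sel (hbid : BidStmt) (hlabel : LabelStmt) : SelStmt := by
  intro ℓ hℓ M hM hl G _ _ χ hχ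
  classical
  obtain ⟨e, he, h1, h2⟩ := hbid ℓ hℓ.out M hl G χ hχ
  have hcl : H50.Cl e := he.1.1
  obtain ⟨c, hc, ec⟩ := H50.exists_lift (M := M) hcl
  have hce : (fun t => Ideal.Quotient.mk M (c t)) = e := funext ec
  refine ⟨fun t => (c t : ℂ), fun x y => congrArg Subtype.val (hc x y), fun x => (c x).2, ?_⟩
  intro d hd hch a ha
  have := Fintype.ofFinite G
  have hlift := H50.res_lift (M := M) c hc a (fun g => omega_IrrS_integral ha g)
  rw [hce] at hlift
  have hom : omF (fun t => (c t : ℂ)) a = H50.om (fun t => (c t : ℂ)) a := by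
    unfold omF H50.om
    rw [finsum_eq_sum_of_fintype]
  obtain ⟨ψ, hψ, hlab⟩ := hlabel ℓ M hl G d hd hch a ha
  have hres : ∀ b b' : G → ℂ, labF M b = labF M b' → res M e b = res M e b' := by
    intro b b' hbb
    unfold res
    refine finsum_congr fun K => ?_
    have := congrFun hbb (Quotient.out K)
    unfold labF at this
    rw [this]
  rw [hom]
  refine ⟨hlift.2, ?_, ?_⟩
  · intro hac
    rw [← hlift.1, hres a χ hac, h1]
  · intro hac
    rw [← hlift.1, hres a ψ hlab]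
    exact h2 ψ hψ fun h => hac (hlab.trans h)

end Pool.Agent.PP.ML.H51
end
end -- Pool.Agent.Helper51_ML.SEL

section -- Pool.Agent.Helper92_ML.DVR

/-!
# Squad ML, stage 2, row DVR
-/

noncomputable section

namespace Pool.Agent.PP.ML.H92

open Pool.Agent.Helper51_AWC Pool.Agent.Helper79_WRA Pool.Agent.PP Pool.Agent.Helper98_CC

theorem cj_conj {G : Type} [Group G] (b : G) : Cj {x : G | IsConj b x} := by
  intro g k hk
  have hk' : IsConj b k := hk
  exact hk'.trans (isConj_iff.2 ⟨g, rfl⟩)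

theorem card_split {G : Type} [Group G] [Finite G] (R : Subgroup G) (g : G)
    (hR : R ≤ Subgroup.centralizer ({g} : Set G)) :
    Nat.card R * R.relIndex (Subgroup.centralizer ({g} : Set G)) = cz g := by
  have h := Subgroup.card_mul_index (R.subgroupOf (Subgroup.centralizer ({g} : Set G)))
  rw [Nat.card_congr (Subgroup.subgroupOfEquivOfLe hR).toEquiv] at h
  exact h

theorem dvr (wdvL : WdvLStmt) (wdv3 : Wdv3Stmt) (wdv2 : Wdv2Stmt) : DvrStmt := by
  intro ℓ _ G A _ _ _ R g ρ hp hR hl k hk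
  have hcomm : ∀ r ∈ R, r * g = g * r := by
    intro r hr
    exact (Subgroup.mem_centralizer_singleton_iff.1 (hR hr))
  refine ⟨?_, ?_, ?_⟩
  · intro m bs _
    refine ⟨Nat.card R, _, card_split R g hR, hl, ?_⟩
    refine wdvL ℓ G A R g ρ hp hcomm _ ?_ k hk
    intro K hK
    obtain ⟨b, _, rfl⟩ := List.mem_map.1 hK
    exact cj_conj b
  · intro h3 bs hbs
    obtain ⟨b, b', rfl⟩ := List.length_eq_two.1 hbs
    refine ⟨Nat.card R, _, card_split R g hR, hl, ?_⟩
    exact wdv3 ℓ G A R g ρ hp hcomm _ _ (cj_conj b) (cj_conj b') k hk h3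
  · intro h2 bs hbs
    obtain ⟨b, rfl⟩ := List.length_eq_one_iff.1 hbs
    refine ⟨Nat.card R, _, card_split R g hR, hl, ?_⟩
    exact wdv2 ℓ G A R g ρ hp hcomm _ (cj_conj b) k hk h2

end Pool.Agent.PP.ML.H92
end
end -- Pool.Agent.Helper92_ML.DVR
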