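import Pool.Agent.Helper12_AWB.B044
import Pool.Agent.Helper66_ML.Stmts2

/-!
# Merged copies (generated) of the modules

* `Pool.Agent.Helper71_ML.Transfer`
* `Pool.Agent.Helper71_ML.Tau`
* `Pool.Agent.Helper71_ML.Star`
* `Pool.Agent.Helper24_ML.Moves`
* `Pool.Agent.Helper24_ML.TL2`
* `Pool.Agent.Helper71_ML.Pur`
* `Pool.Agent.Helper98_BT.Loc`
* `Pool.Agent.Helper24_ML.Core`
* `Pool.Agent.Helper71_ML.TL3`
-/

set_option autoImplicit false

section -- Pool.Agent.Helper71_ML.Transfer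

/-!
Transfer of permutations commuting with a group action into a commutative group.

`R` acts on the finite set `Ω`, `φ : R →* A` is a homomorphism into a commutative group and
`k : Ω → A` satisfies `k (r • ω) = φ r * k ω`. For a permutation `f` of `Ω` that commutes with `R`
the function `k (f ω) / k ω` is constant on the `R`-orbits; `tau` is its product over the orbits.
-/

open scoped BigOperators

noncomputable section

namespace Pool.Agent.Helper71_ML

section

variable {R Ω A : Type*} [Group R] [MulAction R Ω] [CommGroup A] {φ : R →* A} {k : Ω → A}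

/-- `f` commutes with the action of `R` -/
def Comm (R : Type*) {Ω : Type*} [Group R] [MulAction R Ω] (f : Equiv.Perm Ω) : Prop :=
  ∀ (r : R) (ω : Ω), f (r • ω) = r • f ω

/-- `k` is equivariant -/
def Equiva (φ : R →* A) (k : Ω → A) : Prop := ∀ (r : R) (ω : Ω), k (r • ω) = φ r * k ω

theorem Comm.one : Comm R (1 : Equiv.Perm Ω) := fun _ _ => rfl

theorem Comm.mul {f g : Equiv.Perm Ω} (hf : Comm R f) (hg : Comm R g) : Comm R (f * g) := by
  intro r ω
  rw [Equiv.Perm.mul_apply, Equiv.Perm.mul_apply, hg r ω, hf r (g ω)]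

theorem Comm.pow {f : Equiv.Perm Ω} (hf : Comm R f) (n : ℕ) : Comm R (f ^ n) := by
  induction n with
  | zero => exact Comm.one
  | succ n ih => rw [pow_succ]; exact ih.mul hf

/-- the quotient `k (f ω) / k ω` as a function of the orbit (junk value `1` if not invariant) -/
def gau (R : Type*) {Ω A : Type*} [Group R] [MulAction R Ω] [CommGroup A] (k : Ω → A)
    (f : Equiv.Perm Ω) (q : MulAction.orbitRel.Quotient R Ω) : A :=
  k (f q.out) / k q.out

theorem gau_mk (hk : Equiva φ k) {f : Equiv.Perm Ω} (hf : Comm R f) (ω : Ω) :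
    gau R k f (Quotient.mk'' ω) = k (f ω) / k ω := by
  have h : (MulAction.orbitRel R Ω) (Quotient.mk'' ω : MulAction.orbitRel.Quotient R Ω).out ω :=
    Quotient.exact' (Quotient.out_eq' _)
  rw [MulAction.orbitRel_apply] at h
  obtain ⟨r, hr⟩ := h
  have hr' : (Quotient.mk'' ω : MulAction.orbitRel.Quotient R Ω).out = r • ω := hr.symm
  unfold gau
  rw [hr', hf r ω, hk r, hk r, mul_div_mul_left_eq_div]

/-- the permutation of the orbits induced by `f` -/
def bar {f : Equiv.Perm Ω} (hf : Comm R f) : MulAction.orbitRel.Quotient R Ω ≃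
    MulAction.orbitRel.Quotient R Ω where
  toFun := Quotient.map' f (by
    intro a b hab
    rw [MulAction.orbitRel_apply] at hab ⊢
    obtain ⟨r, hr⟩ := hab
    exact ⟨r, by rw [← hr]; exact (hf r b).symm⟩)
  invFun := Quotient.map' f.symm (by
    intro a b hab
    rw [MulAction.orbitRel_apply] at hab ⊢
    obtain ⟨r, hr⟩ := hab
    refine ⟨r, ?_⟩
    show r • f.symm b = f.symm a
    rw [← hr, Equiv.eq_symm_apply, hf r, Equiv.apply_symm_apply])
  left_inv := by
    intro q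
    induction q using Quotient.inductionOn' with
    | h a => simp [Quotient.map'_mk'']
  right_inv := by
    intro q
    induction q using Quotient.inductionOn' with
    | h a => simp [Quotient.map'_mk'']

theorem bar_mk {f : Equiv.Perm Ω} (hf : Comm R f) (ω : Ω) :
    bar hf (Quotient.mk'' ω : MulAction.orbitRel.Quotient R Ω) = Quotient.mk'' (f ω) := rfl

/-- the transfer -/
def tau (R : Type*) {Ω A : Type*} [Group R] [MulAction R Ω] [Finite Ω] [CommGroup A] (k : Ω → A)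
    (f : Equiv.Perm Ω) : A :=
  ∏ᶠ q : MulAction.orbitRel.Quotient R Ω, gau R k f q

variable [Finite Ω]

theorem tau_mul (hk : Equiva φ k) {f g : Equiv.Perm Ω} (hf : Comm R f) (hg : Comm R g) :
    tau R k (f * g) = tau R k f * tau R k g := by
  classical
  have : Finite (MulAction.orbitRel.Quotient R Ω) := Quotient.finite _
  have h1 : ∀ q : MulAction.orbitRel.Quotient R Ω,
      gau R k (f * g) q = gau R k f (bar hg q) * gau R k g q := by
    intro q
    induction q using Quotient.inductionOn' with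
    | h a =>
      rw [bar_mk, gau_mk hk (hf.mul hg), gau_mk hk hf, gau_mk hk hg, Equiv.Perm.mul_apply,
        div_mul_div_cancel]
  unfold tau
  rw [finprod_congr h1, finprod_mul_distrib (Set.toFinite _) (Set.toFinite _)]
  congr 1
  exact finprod_comp_equiv (bar hg)

theorem tau_one : tau R k (1 : Equiv.Perm Ω) = 1 := by
  unfold tau gau
  simp

theorem tau_pow (hk : Equiva φ k) {f : Equiv.Perm Ω} (hf : Comm R f) (n : ℕ) :
    tau R k (f ^ n) = tau R k f ^ n := by
  induction n with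
  | zero => rw [pow_zero, pow_zero, tau_one]
  | succ n ih => rw [pow_succ, pow_succ, tau_mul hk (hf.pow n) hf, ih]

/-- if `f` acts as the element `r` of `R` then its transfer is a power of `φ r` -/
theorem tau_smul (hk : Equiva φ k) {f : Equiv.Perm Ω} (hf : Comm R f) {r : R}
    (hr : ∀ ω, f ω = r • ω) :
    tau R k f = φ r ^ Nat.card (MulAction.orbitRel.Quotient R Ω) := by
  classical
  have : Finite (MulAction.orbitRel.Quotient R Ω) := Quotient.finite _
  have := Fintype.ofFinite (MulAction.orbitRel.Quotient R Ω)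
  have h1 : ∀ q : MulAction.orbitRel.Quotient R Ω, gau R k f q = φ r := by
    intro q
    induction q using Quotient.inductionOn' with
    | h a => rw [gau_mk hk hf, hr, hk, mul_div_cancel_right]
  unfold tau
  rw [finprod_congr h1, finprod_eq_prod_of_fintype, Finset.prod_const, Finset.card_univ,
    Nat.card_eq_fintype_card]

/-- conjugate permutations have the same transfer; the braid relation gives `tau a = tau b` -/
theorem tau_braid (hk : Equiva φ k) {a b : Equiv.Perm Ω} (ha : Comm R a) (hb : Comm R b)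
    (h : a * b * a = b * a * b) : tau R k a = tau R k b := by
  have h1 := congrArg (tau R k) h
  rw [tau_mul hk (ha.mul hb) ha, tau_mul hk ha hb, tau_mul hk (hb.mul ha) hb,
    tau_mul hk hb ha] at h1
  have h2 : tau R k a * tau R k b * tau R k a = tau R k b * (tau R k a * tau R k b) := by
    rw [h1, mul_assoc]
  rw [mul_comm (tau R k a * tau R k b) (tau R k a)] at h2
  exact mul_right_cancel h2

omit [Finite Ω] in
/-- an equivariant function exists as soon as the stabilisers lie in the kernel of `φ` -/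
theorem exists_equiva (φ : R →* A) (hfree : ∀ (r : R) (ω : Ω), r • ω = ω → φ r = 1) :
    ∃ k : Ω → A, Equiva φ k := by
  classical
  have hex : ∀ ω : Ω, ∃ r : R,
      r • (Quotient.mk'' ω : MulAction.orbitRel.Quotient R Ω).out = ω := by
    intro ω
    have h : (MulAction.orbitRel R Ω) (Quotient.mk'' ω : MulAction.orbitRel.Quotient R Ω).out ω :=
      Quotient.exact' (Quotient.out_eq' _)
    rw [MulAction.orbitRel_apply] at h
    obtain ⟨r, hr⟩ := h
    exact ⟨r⁻¹, by rw [← hr, inv_smul_smul]⟩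
  choose t ht using hex
  refine ⟨fun ω => φ (t ω), ?_⟩
  intro r ω
  have hq : (Quotient.mk'' (r • ω) : MulAction.orbitRel.Quotient R Ω) = Quotient.mk'' ω :=
    Quotient.sound' (by rw [MulAction.orbitRel_apply]; exact ⟨r, rfl⟩)
  have h1 := ht (r • ω)
  rw [hq] at h1
  have h2 := ht ω
  have h3 : ((r * t ω)⁻¹ * t (r • ω)) •
      (Quotient.mk'' ω : MulAction.orbitRel.Quotient R Ω).out =
      (Quotient.mk'' ω : MulAction.orbitRel.Quotient R Ω).out := by
    rw [mul_smul, h1, inv_smul_eq_iff, mul_smul, h2]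
  have h4 := hfree _ _ h3
  rw [map_mul, map_inv, map_mul, inv_mul_eq_one] at h4
  exact h4.symm

/-- The consequence of the braid relation: if `a b a = b a b`, the transfer of `a` is trivial and
`(a b) ^ (6 m)` acts as an element `r` of `R`, then `φ r ^ #orbits = 1`. -/
theorem braid_pow (hk : Equiva φ k) {a b : Equiv.Perm Ω} (ha : Comm R a) (hb : Comm R b)
    (h : a * b * a = b * a * b) (ht : tau R k a = 1) {m : ℕ} {r : R}
    (hr : ∀ ω, ((a * b) ^ (6 * m)) ω = r • ω) :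
    φ r ^ Nat.card (MulAction.orbitRel.Quotient R Ω) = 1 := by
  rw [← tau_smul hk ((ha.mul hb).pow (6 * m)) hr, tau_pow hk (ha.mul hb), tau_mul hk ha hb,
    ← tau_braid hk ha hb h, ht, one_mul, one_pow]

end

/-! ## Pieces -/

section piece

variable {M A : Type*} [CommGroup M] [Finite M] [CommGroup A]

/-- the transfer of a commutative group to a subgroup is the power map -/
theorem piece_prod (D : Subgroup M) (ϕ : D →* A) (κ : M → A)
    (hκ : ∀ (m : M) (d : D), κ (m * d) = ϕ d * κ m) (x : M) (hx : x ^ D.index ∈ D) :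
    ∏ᶠ t : M ⧸ D, κ (t.out * x) / κ t.out = ϕ ⟨x ^ D.index, hx⟩ := by
  classical
  have : Finite (M ⧸ D) := Quotient.finite _
  have := Fintype.ofFinite (M ⧸ D)
  -- `t.out * x = (t * x).out * d t`
  have hd : ∀ t : M ⧸ D, ∃ d : D, t.out * x = ((t * (x : M ⧸ D)) : M ⧸ D).out * (d : M) := by
    intro t
    have h1 : ((((t * (x : M ⧸ D)) : M ⧸ D).out : M) : M ⧸ D) = ((t.out * x : M) : M ⧸ D) := by
      rw [QuotientGroup.mk_mul, QuotientGroup.out_eq', QuotientGroup.out_eq']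
    rw [QuotientGroup.eq] at h1
    exact ⟨⟨_, h1⟩, by simp⟩
  choose d hd using hd
  have h1 : ∀ t : M ⧸ D, κ (t.out * x) / κ t.out =
      ϕ (d t) * (κ ((t * (x : M ⧸ D)) : M ⧸ D).out / κ t.out) := by
    intro t
    rw [hd t, hκ, mul_div_assoc]
  rw [finprod_congr h1, finprod_mul_distrib (Set.toFinite _) (Set.toFinite _),
    finprod_div_distrib (Set.toFinite _) (Set.toFinite _)]
  have h2 : ∏ᶠ t : M ⧸ D, κ ((t * (x : M ⧸ D)) : M ⧸ D).out = ∏ᶠ t : M ⧸ D, κ t.out :=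
    finprod_comp_equiv (Equiv.mulRight (x : M ⧸ D)) (f := fun t : M ⧸ D => κ t.out)
  rw [h2, div_self', mul_one, finprod_eq_prod_of_fintype, ← map_prod]
  congr 1
  apply Subtype.ext
  have h3 : (((∏ t : M ⧸ D, d t : D)) : M) = ∏ t : M ⧸ D, (d t : M) := by
    rw [SubmonoidClass.coe_finsetProd]
  rw [h3]
  have h4 : ∏ t : M ⧸ D, (t.out * x) = ∏ t : M ⧸ D, (((t * (x : M ⧸ D)) : M ⧸ D).out * (d t : M)) :=
    Finset.prod_congr rfl fun t _ => hd t
  rw [Finset.prod_mul_distrib, Finset.prod_mul_distrib, Finset.prod_const, Finset.card_univ] at h4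
  have h5 : ∏ t : M ⧸ D, ((t * (x : M ⧸ D)) : M ⧸ D).out = ∏ t : M ⧸ D, (t.out : M) :=
    Fintype.prod_equiv (Equiv.mulRight (x : M ⧸ D)) _ _ fun t => rfl
  rw [h5] at h4
  have h6 := mul_left_cancel h4
  rw [← h6]
  congr 1
  show Fintype.card (M ⧸ D) = D.index
  rw [Subgroup.index, Nat.card_eq_fintype_card]

end piece

/-! ## The lemma on finite commutative groups -/

/-- in a finite cyclic group an element whose order divides the order of a subgroup lies in the
subgroup -/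
theorem mem_of_pow_card {C : Type*} [Group C] [Finite C] [IsCyclic C] (H : Subgroup C) (w : C)
    (hw : w ^ Nat.card H = 1) : w ∈ H := by
  classical
  have := Fintype.ofFinite C
  have h1 : (Finset.univ.filter fun a : C => a ^ Nat.card H = 1).card ≤ Nat.card H :=
    IsCyclic.card_pow_eq_one_le Nat.card_pos
  have h2 : (Finset.univ.filter fun a : C => a ∈ H) ⊆
      Finset.univ.filter fun a : C => a ^ Nat.card H = 1 := by
    intro a ha
    rw [Finset.mem_filter] at ha ⊢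
    refine ⟨ha.1, ?_⟩
    have h3 := pow_card_eq_one' (x := (⟨a, ha.2⟩ : H))
    exact congrArg Subtype.val h3
  have h3 : (Finset.univ.filter fun a : C => a ∈ H).card = Nat.card H := by
    rw [Nat.card_eq_fintype_card, Fintype.card_subtype]
  have h4 := Finset.eq_of_subset_of_card_le h2 (by rw [h3]; exact h1)
  have h5 : w ∈ Finset.univ.filter fun a : C => a ^ Nat.card H = 1 := by
    rw [Finset.mem_filter]
    exact ⟨Finset.mem_univ _, hw⟩
  rw [← h4, Finset.mem_filter] at h5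
  exact h5.2

theorem exp_dvd_index_aux (n : ℕ) : ∀ {M : Type*} [CommGroup M] [Finite M] (Q : Subgroup M)
    (_ : IsCyclic (M ⧸ Q)) (ψ : Q →* M) (_ : Function.Injective ψ)
    (_ : ∀ S : Subgroup M, S ≤ Q → (∀ s (hs : s ∈ Q), s ∈ S → ψ ⟨s, hs⟩ ∈ S) → S = ⊥)
    (_ : Nat.card M ≤ n) (m : M), m ^ Q.index = 1 := by
  induction n with
  | zero =>
    intro M _ _ Q _ ψ _ _ hn m
    have : 0 < Nat.card M := Nat.card_pos
    omega
  | succ n ih =>
    intro M _ _ Q hcyc ψ hinj hinv hn m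
    by_cases hQ : Q = ⊤
    · have h1 := hinv ⊤ (by rw [hQ]) fun s hs _ => Subgroup.mem_top _
      have h2 : m ∈ (⊤ : Subgroup M) := Subgroup.mem_top m
      rw [h1, Subgroup.mem_bot] at h2
      rw [h2, one_pow]
    · -- the smaller triple
      have hcard : Nat.card Q ≤ n := by
        have h1 : Nat.card Q ≠ Nat.card M := by
          intro h
          exact hQ ((Subgroup.card_eq_iff_eq_top Q).1 h)
        have h2 : Nat.card Q ≤ Nat.card M := Subgroup.card_le_card_group Q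
        omega
      let Q' : Subgroup Q := Q.comap ψ
      let ψ' : Q' →* Q := (ψ.comp Q'.subtype).codRestrict Q fun q => q.2
      let θ : Q →* M ⧸ Q := (QuotientGroup.mk' Q).comp ψ
      have hker : θ.ker = Q' := by
        ext q
        rw [MonoidHom.mem_ker]
        show (QuotientGroup.mk' Q) (ψ q) = 1 ↔ ψ q ∈ Q
        rw [QuotientGroup.mk'_apply, QuotientGroup.eq_one_iff]
      have hidx : Q'.index = Nat.card θ.range := by
        rw [← hker, Subgroup.index_ker]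
      have hcyc' : IsCyclic (Q ⧸ Q') := by
        have h1 : IsCyclic θ.range := inferInstance
        have e : (Q ⧸ θ.ker) ≃* θ.range := QuotientGroup.quotientKerEquivRange θ
        have e2 : (Q ⧸ Q') ≃* θ.range := (QuotientGroup.quotientMulEquivOfEq hker.symm).trans e
        exact isCyclic_of_injective e2.toMonoidHom e2.injective
      have hinj' : Function.Injective ψ' := by
        intro a b hab
        have h1 : ψ (a : Q) = ψ (b : Q) := congrArg Subtype.val hab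
        exact Subtype.ext (hinj h1)
      have hinv' : ∀ S : Subgroup Q, S ≤ Q' →
          (∀ s (hs : s ∈ Q'), s ∈ S → ψ' ⟨s, hs⟩ ∈ S) → S = ⊥ := by
        intro S hS hS2
        have h1 : S.map Q.subtype = ⊥ := by
          apply hinv
          · rintro _ ⟨s, _, rfl⟩
            exact s.2
          · rintro s hs ⟨t, ht, rfl⟩
            refine ⟨ψ' ⟨t, hS ht⟩, hS2 t (hS ht) ht, ?_⟩
            rfl
        rw [Subgroup.map_eq_bot_iff_of_injective _ Q.subtype_injective] at h1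
        exact h1
      have hIH : ∀ q : Q, q ^ Q'.index = 1 := ih Q' hcyc' ψ' hinj' hinv' hcard
      have hdvd : Q'.index ∣ Q.index := by
        rw [hidx]
        exact Subgroup.card_subgroup_dvd_card θ.range
      obtain ⟨e, he⟩ := hdvd
      have h1 : ((m : M ⧸ Q) ^ e) ∈ θ.range := by
        apply mem_of_pow_card
        rw [← hidx, ← pow_mul, mul_comm, ← he]
        exact pow_card_eq_one'
      obtain ⟨q, hq⟩ := h1
      have h2 : ((ψ q : M) : M ⧸ Q) = ((m ^ e : M) : M ⧸ Q) := hq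
      rw [QuotientGroup.eq] at h2
      have h3 : m ^ e = ψ q * ((⟨_, h2⟩ : Q) : M) := by simp
      rw [he, mul_comm, pow_mul, h3, mul_pow, ← map_pow, hIH q, map_one, one_mul,
        ← Subgroup.coe_pow, hIH, Subgroup.coe_one]

/-- `M` a finite commutative group, `Q ≤ M` with `M / Q` cyclic, `ψ : Q → M` an injective
homomorphism without nontrivial subgroup `S ≤ Q`, `ψ S ≤ S`. Then the exponent of `M` divides
the index of `Q`. -/
theorem exp_dvd_index {M : Type*} [CommGroup M] [Finite M] (Q : Subgroup M)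
    (hcyc : IsCyclic (M ⧸ Q)) (ψ : Q →* M) (hinj : Function.Injective ψ)
    (hinv : ∀ S : Subgroup M, S ≤ Q → (∀ s (hs : s ∈ Q), s ∈ S → ψ ⟨s, hs⟩ ∈ S) → S = ⊥) (m : M) :
    m ^ Q.index = 1 :=
  exp_dvd_index_aux (Nat.card M) Q hcyc ψ hinj hinv le_rfl m

end Pool.Agent.Helper71_ML
end
end -- Pool.Agent.Helper71_ML.Transfer

section -- Pool.Agent.Helper71_ML.Tau

/-!
TAU: the transfer of a permutation over classes on which it acts as an element of a commutative
group.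
-/

open scoped BigOperators

noncomputable section

namespace Pool.Agent.PP.ML.H71

open Pool.Agent.Helper71_ML

section

variable {R Ω A : Type*} [Group R] [MulAction R Ω] [CommGroup A] {ρ : R →* A} {k : Ω → A}

/-- the stabiliser in `M` of the orbit of `φ 1` -/
def stb {M : Type*} [CommGroup M] (φ : M → Ω)
    (hφr : ∀ (m m' m'' : M) (r : R), φ m' = r • φ m → φ (m' * m'') = r • φ (m * m'')) :
    Subgroup M where
  carrier := {m | ∃ r : R, φ m = r • φ 1}
  mul_mem' := by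
    rintro a b ⟨r, hr⟩ ⟨t, ht⟩
    refine ⟨r * t, ?_⟩
    rw [hφr 1 a b r hr, one_mul, ht, mul_smul]
  one_mem' := ⟨1, (one_smul _ _).symm⟩
  inv_mem' := by
    rintro a ⟨r, hr⟩
    refine ⟨r⁻¹, ?_⟩
    have h1 := hφr 1 a a⁻¹ r hr
    rw [mul_inv_cancel, one_mul] at h1
    rw [h1, inv_smul_smul]

/-- the product over the orbits of one class -/
theorem fibre0 [Finite Ω] (hfree : ∀ (r : R) (w : Ω), r • w = w → r = 1)
    (hk : Equiva ρ k) {f : Equiv.Perm Ω} (hf : Comm R f) {C : Ω → Set Ω}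
    (hC1 : ∀ w, w ∈ C w) (hC2 : ∀ w w', w' ∈ C w → C w' = C w) (w : Ω)
    {M : Type*} [CommGroup M] [Finite M] (m₀ : M) (φ : M → Ω) (hφ1 : φ 1 = w)
    (hφf : ∀ m, f (φ m) = φ (m * m₀))
    (hφr : ∀ (m m' m'' : M) (r : R), φ m' = r • φ m → φ (m' * m'') = r • φ (m * m''))
    (hC : ∀ w', w' ∈ C w ↔ ∃ (r : R) (m : M), w' = r • φ m) :
    (∀ θ : R, φ (m₀ ^ (stb φ hφr).index) = θ • w →
      ∏ᶠ (q : MulAction.orbitRel.Quotient R Ω) (_ : C q.out = C w), gau R k f q = ρ θ) ∧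
    Nat.card {q : MulAction.orbitRel.Quotient R Ω // C q.out = C w} = (stb φ hφr).index ∧
    (C w).ncard = Nat.card R * (stb φ hφr).index := by
  classical
  have huniq : ∀ {r r' : R} {v : Ω}, r • v = r' • v → r = r' := by
    intro r r' v h
    have h1 := hfree (r'⁻¹ * r) v (by rw [mul_smul, h, inv_smul_smul])
    rw [inv_mul_eq_one] at h1
    exact h1.symm
  have hmk : ∀ v v' : Ω, (Quotient.mk'' v : MulAction.orbitRel.Quotient R Ω) = Quotient.mk'' v' ↔
      ∃ r : R, v = r • v' := by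
    intro v v'
    constructor
    · intro h
      have h1 : (MulAction.orbitRel R Ω) v v' := Quotient.exact' h
      rw [MulAction.orbitRel_apply] at h1
      obtain ⟨r, hr⟩ := h1
      exact ⟨r, hr.symm⟩
    · rintro ⟨r, hr⟩
      apply Quotient.sound'
      show (MulAction.orbitRel R Ω) v v'
      rw [MulAction.orbitRel_apply]
      exact ⟨r, hr.symm⟩
  obtain ⟨S, hSdef⟩ : ∃ S : Subgroup M, S = stb φ hφr := ⟨_, rfl⟩
  rw [← hSdef]
  have hS : ∀ m, m ∈ S ↔ ∃ r : R, φ m = r • φ 1 := by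
    intro m
    rw [hSdef]
    exact Iff.rfl
  -- two elements of `M` give the same orbit iff they differ by an element of `S`
  have hdiff : ∀ (m m' : M) (r : R), φ m' = r • φ m → m' * m⁻¹ ∈ S := by
    intro m m' r h
    rw [hS]
    exact ⟨r, by rw [hφr m m' m⁻¹ r h, mul_inv_cancel]⟩
  have hmul : ∀ (s : M) (m : M) (r : R), φ s = r • φ 1 → φ (m * s) = r • φ m := by
    intro s m r h
    rw [mul_comm, hφr 1 s m r h, one_mul]
  have hout : ∀ m : M, ∃ r : R, φ ((m : M ⧸ S).out) = r • φ m := by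
    intro m
    have h1 : (((m : M ⧸ S).out : M) : M ⧸ S) = (m : M ⧸ S) := QuotientGroup.out_eq' _
    rw [eq_comm, QuotientGroup.eq, hS] at h1
    obtain ⟨r, hr⟩ := h1
    refine ⟨r, ?_⟩
    have h2 := hmul (m⁻¹ * (m : M ⧸ S).out) m r hr
    rw [← h2]
    simp
  let j : M ⧸ S → MulAction.orbitRel.Quotient R Ω := fun t => Quotient.mk'' (φ t.out)
  have houtinj : ∀ (t t' : M ⧸ S) (r : R), φ t.out = r • φ t'.out → t = t' := by
    intro t t' r h
    have h1 := hdiff _ _ r h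
    rw [← QuotientGroup.out_eq' t, ← QuotientGroup.out_eq' t', eq_comm, QuotientGroup.eq, mul_comm]
    exact h1
  have hj : Function.Injective j := by
    intro t t' h
    obtain ⟨r, hr⟩ := (hmk _ _).1 h
    exact houtinj t t' r hr
  have hrange : ∀ q : MulAction.orbitRel.Quotient R Ω, C q.out = C w ↔ q ∈ Set.range j := by
    intro q
    constructor
    · intro h
      have h1 : q.out ∈ C w := by rw [← h]; exact hC1 _
      obtain ⟨r, m, hm⟩ := (hC _).1 h1
      refine ⟨(m : M ⧸ S), ?_⟩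
      obtain ⟨t, ht⟩ := hout m
      show Quotient.mk'' (φ ((m : M ⧸ S).out)) = q
      rw [← Quotient.out_eq' q, hmk]
      exact ⟨t * r⁻¹, by rw [ht, mul_smul, hm, inv_smul_smul]⟩
    · rintro ⟨t, rfl⟩
      apply hC2
      rw [hC]
      have h1 : (Quotient.mk'' (j t).out : MulAction.orbitRel.Quotient R Ω) =
          Quotient.mk'' (φ t.out) := Quotient.out_eq' (j t)
      obtain ⟨r, hr⟩ := (hmk _ _).1 h1
      exact ⟨r, _, hr⟩
  -- the index of `S`
  have hcnt : (C w).ncard = Nat.card R * S.index := by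
    let e : R × (M ⧸ S) → Ω := fun p => p.1 • φ p.2.out
    have he : Function.Injective e := by
      rintro ⟨r, t⟩ ⟨r', t'⟩ h
      have h0 : r • φ t.out = r' • φ t'.out := h
      have h1 : φ t.out = (r⁻¹ * r') • φ t'.out := by
        rw [mul_smul, ← h0, inv_smul_smul]
      have h2 := houtinj _ _ _ h1
      subst h2
      have h3 : r = r' := huniq h0
      rw [h3]
    have he2 : Set.range e = C w := by
      ext v
      rw [hC]
      constructor
      · rintro ⟨⟨r, t⟩, rfl⟩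
        exact ⟨r, _, rfl⟩
      · rintro ⟨r, m, rfl⟩
        obtain ⟨t, ht⟩ := hout m
        refine ⟨(r * t⁻¹, (m : M ⧸ S)), ?_⟩
        show (r * t⁻¹) • φ ((m : M ⧸ S).out) = r • φ m
        rw [ht, mul_smul, inv_smul_smul]
    rw [← he2, ← Nat.card_coe_set_eq, Nat.card_range_of_injective he, Nat.card_prod]
    rfl
  refine ⟨?_, ?_, hcnt⟩
  swap
  · have h5 : Nat.card {q : MulAction.orbitRel.Quotient R Ω // C q.out = C w} =
        Nat.card (Set.range j) := Nat.card_congr (Equiv.subtypeEquivRight hrange)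
    rw [h5, Nat.card_range_of_injective hj]
    rfl
  intro θ hθ
  -- the homomorphism on `S`
  have hθS : ∀ s : S, ∃ r : R, φ s = r • φ 1 := fun s => (hS s).1 s.2
  choose θS hθS using hθS
  let ϕ : S →* A :=
    { toFun := fun s => ρ (θS s)
      map_one' := by
        have h1 : θS 1 = 1 := huniq (v := φ 1) (by rw [← hθS 1, one_smul]; rfl)
        rw [h1, map_one]
      map_mul' := by
        intro s t
        have h1 : θS (s * t) = θS s * θS t := by
          apply huniq (v := φ 1)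
          rw [← hθS (s * t), mul_smul, ← hθS t]
          show φ ((s : M) * t) = _
          rw [hφr 1 s t (θS s) (hθS s), one_mul]
        rw [h1, map_mul] }
  have hx : m₀ ^ S.index ∈ S := by
    rw [hS]
    exact ⟨θ, by rw [hθ, hφ1]⟩
  have hκ : ∀ (m : M) (d : S), k (φ (m * d)) = ϕ d * k (φ m) := by
    intro m d
    rw [hmul d m (θS d) (hθS d), hk]
    rfl
  have h1 := piece_prod S ϕ (fun m => k (φ m)) hκ m₀ hx
  have h2 : ϕ ⟨m₀ ^ S.index, hx⟩ = ρ θ := by
    show ρ (θS ⟨m₀ ^ S.index, hx⟩) = ρ θ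
    congr 1
    apply huniq (v := φ 1)
    rw [← hθS ⟨m₀ ^ S.index, hx⟩, hφ1, ← hθ]
  rw [← h2, ← h1]
  have h3 : ∏ᶠ (q : MulAction.orbitRel.Quotient R Ω) (_ : C q.out = C w), gau R k f q =
      ∏ᶠ (q : MulAction.orbitRel.Quotient R Ω) (_ : q ∈ Set.range j), gau R k f q := by
    apply finprod_congr
    intro q
    exact finprod_congr_Prop (propext (hrange q)) fun _ => rfl
  rw [h3, finprod_mem_range hj]
  apply finprod_congr
  intro t
  show gau R k f (Quotient.mk'' (φ t.out)) = _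
  rw [gau_mk hk hf, hφf]

/-- the product over the orbits of one class with `N` orbits -/
theorem fibre [Finite Ω] [Finite R] (hfree : ∀ (r : R) (w : Ω), r • w = w → r = 1)
    (hk : Equiva ρ k) {f : Equiv.Perm Ω} (hf : Comm R f) {C : Ω → Set Ω}
    (hC1 : ∀ w, w ∈ C w) (hC2 : ∀ w w', w' ∈ C w → C w' = C w) (w : Ω)
    {M : Type*} [CommGroup M] [Finite M] (m₀ : M) (φ : M → Ω) (hφ1 : φ 1 = w)
    (hφf : ∀ m, f (φ m) = φ (m * m₀))
    (hφr : ∀ (m m' m'' : M) (r : R), φ m' = r • φ m → φ (m' * m'') = r • φ (m * m''))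
    (hC : ∀ w', w' ∈ C w ↔ ∃ (r : R) (m : M), w' = r • φ m) {N : ℕ}
    (hN : (C w).ncard = N * Nat.card R) {θ : R} (hθ : φ (m₀ ^ N) = θ • w) :
    ∏ᶠ (q : MulAction.orbitRel.Quotient R Ω) (_ : C q.out = C w), gau R k f q = ρ θ ∧
    Nat.card {q : MulAction.orbitRel.Quotient R Ω // C q.out = C w} = N := by
  obtain ⟨h1, h2, h3⟩ := fibre0 hfree hk hf hC1 hC2 w m₀ φ hφ1 hφf hφr hC
  have h4 : N = (stb φ hφr).index := by
    rw [hN, mul_comm] at h3
    exact Nat.eq_of_mul_eq_mul_left Nat.card_pos h3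
  rw [h4] at hθ ⊢
  exact ⟨h1 θ hθ, h2⟩

/-- the transfer as a product over the classes -/
theorem tau_classes [Finite Ω] {f : Equiv.Perm Ω} {C : Ω → Set Ω} {a : A}
    (h : ∀ w : Ω, ∏ᶠ (q : MulAction.orbitRel.Quotient R Ω) (_ : C q.out = C w), gau R k f q = a) :
    ∃ n : ℕ, tau R k f = a ^ n ∧ ∀ N : ℕ,
      (∀ w : Ω, Nat.card {q : MulAction.orbitRel.Quotient R Ω // C q.out = C w} = N) →
      Nat.card (MulAction.orbitRel.Quotient R Ω) = N * n := by
  classical
  have hX : Finite (MulAction.orbitRel.Quotient R Ω) := Quotient.finite _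
  have := Fintype.ofFinite (MulAction.orbitRel.Quotient R Ω)
  let c : MulAction.orbitRel.Quotient R Ω → Set Ω := fun q => C q.out
  refine ⟨(Finset.univ.image c).card, ?_, ?_⟩
  · unfold tau
    rw [finprod_eq_prod_of_fintype, ← Finset.prod_fiberwise_of_maps_to
      (s := Finset.univ) (t := Finset.univ.image c) (g := c)
      (fun q _ => Finset.mem_image_of_mem _ (Finset.mem_univ _)), ← Finset.prod_const]
    apply Finset.prod_congr rfl
    intro d hd
    obtain ⟨q, _, rfl⟩ := Finset.mem_image.1 hd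
    rw [← h q.out]
    symm
    apply finprod_cond_eq_prod_of_cond_iff
    intro x _
    rw [Finset.mem_filter]
    exact ⟨fun h => ⟨Finset.mem_univ _, h⟩, fun h => h.2⟩
  · intro N hN
    have h1 := Finset.card_eq_sum_card_image c (Finset.univ : Finset
      (MulAction.orbitRel.Quotient R Ω))
    rw [Nat.card_eq_fintype_card, ← Finset.card_univ, h1, mul_comm, ← smul_eq_mul,
      ← Finset.sum_const]
    apply Finset.sum_congr rfl
    intro d hd
    obtain ⟨q, _, rfl⟩ := Finset.mem_image.1 hd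
    rw [← hN q.out, Nat.card_eq_fintype_card, Fintype.card_subtype]

/-- the number of points of a free action -/
theorem card_free (hfree : ∀ (r : R) (w : Ω), r • w = w → r = 1) :
    Nat.card Ω = Nat.card R * Nat.card (MulAction.orbitRel.Quotient R Ω) := by
  rw [← Nat.card_prod]
  symm
  apply Nat.card_eq_of_bijective
    (fun p : R × MulAction.orbitRel.Quotient R Ω => p.1 • (p.2.out : Ω))
  constructor
  · rintro ⟨r, q⟩ ⟨r', q'⟩ h
    have h0 : r • q.out = r' • q'.out := h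
    have h1 : q = q' := by
      rw [← Quotient.out_eq' q, ← Quotient.out_eq' q']
      apply Quotient.sound'
      show (MulAction.orbitRel R Ω) _ _
      rw [MulAction.orbitRel_apply]
      exact ⟨r⁻¹ * r', by
        show (r⁻¹ * r') • q'.out = q.out
        rw [mul_smul, ← h0, inv_smul_smul]⟩
    subst h1
    have h2 := hfree (r'⁻¹ * r) q.out (by rw [mul_smul, h0, inv_smul_smul])
    rw [inv_mul_eq_one] at h2
    rw [h2]
  · intro w
    have h1 : (MulAction.orbitRel R Ω) w (Quotient.mk'' w : MulAction.orbitRel.Quotient R Ω).out :=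
      Quotient.exact' (Quotient.out_eq' _).symm
    rw [MulAction.orbitRel_apply] at h1
    obtain ⟨r, hr⟩ := h1
    exact ⟨(r, Quotient.mk'' w), hr⟩

/-- TAU: the transfer. -/
theorem tauS : Pool.Agent.PP.ML.TauStmt := by
  classical
  intro Ω R A _ _ _ _ ρ _ hfree
  obtain ⟨k, hk⟩ := exists_equiva (Ω := Ω) ρ fun r ω h => by rw [hfree r ω h, map_one]
  refine ⟨fun f => if h : Function.Bijective f then
    Pool.Agent.Helper71_ML.tau R k (Equiv.ofBijective f h) else 1, ?_, ?_, ?_⟩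
  · intro f h hfb hhb hf hh
    beta_reduce
    rw [dif_pos hfb, dif_pos hhb, dif_pos (hfb.comp hhb)]
    rw [← tau_mul hk (f := Equiv.ofBijective f hfb) (g := Equiv.ofBijective h hhb) hf hh]
    rfl
  · intro r hr
    have hb : Function.Bijective fun w : Ω => r • w := MulAction.bijective r
    beta_reduce
    rw [dif_pos hb]
    have h1 : Comm R (Equiv.ofBijective _ hb) := by
      intro t w
      show r • t • w = t • r • w
      rw [← mul_smul, hr, mul_smul]
    rw [tau_smul hk h1 (r := r) fun w => rfl]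
    congr 1
    rw [card_free hfree, Nat.mul_div_cancel_left _ Nat.card_pos]
  · intro f hfb hf C hC1 hC2 hdat
    beta_reduce
    rw [dif_pos hfb]
    have hf' : Comm R (Equiv.ofBijective f hfb) := hf
    obtain ⟨n, hn, _⟩ := tau_classes (R := R) (k := k) (f := Equiv.ofBijective f hfb) (C := C)
      (a := 1) (by
        intro w
        obtain ⟨M, _, _, m₀, φ, N, h1, h2, h3, h4, h5, h6⟩ := hdat w
        rw [(fibre hfree hk hf' hC1 hC2 w m₀ φ h1 h2 h3 h4 h5 (θ := 1)
          (by rw [h6, one_smul, h1])).1, map_one])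
    rw [hn, one_pow]

end

end Pool.Agent.PP.ML.H71
end
end -- Pool.Agent.Helper71_ML.Tau

section -- Pool.Agent.Helper71_ML.Star

/-!
The transfer of a permutation `θ` such that `θ ^ N` acts as an element `r₀` of `R` and all cycles of
`θ` on the orbits have length exactly `N`.
-/

open scoped BigOperators

noncomputable section

namespace Pool.Agent.PP.ML.H71

open Pool.Agent.Helper71_ML

section

variable {R Ω A : Type*} [Group R] [MulAction R Ω] [CommGroup A] {ρ : R →* A} {k : Ω → A}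

theorem Comm.inv {f : Equiv.Perm Ω} (hf : Comm R f) : Comm R f⁻¹ := by
  intro r w
  apply f.injective
  rw [hf, ← Equiv.Perm.mul_apply, ← Equiv.Perm.mul_apply, mul_inv_cancel, Equiv.Perm.one_apply,
    Equiv.Perm.one_apply]

theorem Comm.zpow {f : Equiv.Perm Ω} (hf : Comm R f) (n : ℤ) : Comm R (f ^ n) := by
  cases n with
  | ofNat n => rw [Int.ofNat_eq_natCast, zpow_natCast]; exact hf.pow n
  | negSucc n => rw [zpow_negSucc]; exact Comm.inv (hf.pow _)

/-- `θ ^ N` acts as `r₀` and no proper divisor `d` of `N` has an `r` with `r ^ (N / d) = r₀`: then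
all cycles of `θ` on the orbits have length `N`. -/
theorem star [Finite Ω] (hfree : ∀ (r : R) (w : Ω), r • w = w → r = 1)
    (hk : Equiva ρ k) {θ : Equiv.Perm Ω} (hθ : Comm R θ) {N : ℕ} {r₀ : R}
    (h : ∀ w, (θ ^ N) w = r₀ • w) (hN : ∀ d, d ∣ N → d ≠ N → ∀ r : R, r ^ (N / d) ≠ r₀) :
    ∃ n : ℕ, Nat.card (MulAction.orbitRel.Quotient R Ω) = N * n ∧ tau R k θ = ρ r₀ ^ n := by
  classical
  have hM : ∀ m : Subgroup.zpowers θ, Comm R (m : Equiv.Perm Ω) := by
    rintro ⟨_, i, rfl⟩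
    exact Comm.zpow hθ i
  let C : Ω → Set Ω := fun w => {w' | ∃ (r : R) (m : Subgroup.zpowers θ),
    w' = r • (m : Equiv.Perm Ω) w}
  have hC1 : ∀ w, w ∈ C w := fun w => ⟨1, 1, by simp⟩
  have hC2' : ∀ w w', w' ∈ C w → C w' ⊆ C w := by
    rintro w w' ⟨r, m, rfl⟩ v ⟨t, m', rfl⟩
    refine ⟨t * r, m' * m, ?_⟩
    rw [hM m', mul_smul]
    rfl
  have hC3 : ∀ w w', w' ∈ C w → w ∈ C w' := by
    rintro w w' ⟨r, m, rfl⟩
    refine ⟨r⁻¹, m⁻¹, ?_⟩
    rw [hM m⁻¹, inv_smul_smul, ← Equiv.Perm.mul_apply, Subgroup.coe_inv, inv_mul_cancel,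
      Equiv.Perm.one_apply]
  have hC2 : ∀ w w', w' ∈ C w → C w' = C w := fun w w' h =>
    Set.Subset.antisymm (hC2' w w' h) (hC2' w' w (hC3 w w' h))
  let m₀ : Subgroup.zpowers θ := ⟨θ, Subgroup.mem_zpowers θ⟩
  letI : CommGroup (Subgroup.zpowers θ) :=
    { (inferInstance : Group (Subgroup.zpowers θ)) with
      mul_comm := by
        rintro ⟨_, i, rfl⟩ ⟨_, j, rfl⟩
        apply Subtype.ext
        show θ ^ i * θ ^ j = θ ^ j * θ ^ i
        rw [← zpow_add, ← zpow_add, add_comm] }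
  have key : ∀ w : Ω,
      ∏ᶠ (q : MulAction.orbitRel.Quotient R Ω) (_ : C q.out = C w), gau R k θ q = ρ r₀ ∧
      Nat.card {q : MulAction.orbitRel.Quotient R Ω // C q.out = C w} = N := by
    intro w
    let φ : Subgroup.zpowers θ → Ω := fun m => (m : Equiv.Perm Ω) w
    have hφr : ∀ (m m' m'' : Subgroup.zpowers θ) (r : R), φ m' = r • φ m →
        φ (m' * m'') = r • φ (m * m'') := by
      intro m m' m'' r h1
      show (m' * m'' : Equiv.Perm Ω) w = r • (m * m'' : Equiv.Perm Ω) w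
      have h2 : (m' * m'' : Equiv.Perm Ω) = (m'' : Equiv.Perm Ω) * m' :=
        congrArg Subtype.val (mul_comm m' m'')
      have h3 : (m * m'' : Equiv.Perm Ω) = (m'' : Equiv.Perm Ω) * m :=
        congrArg Subtype.val (mul_comm m m'')
      rw [h2, h3, Equiv.Perm.mul_apply, Equiv.Perm.mul_apply, ← hM m'']
      exact congrArg (m'' : Equiv.Perm Ω) h1
    have hφf : ∀ m, θ (φ m) = φ (m * m₀) := by
      intro m
      rw [mul_comm]
      rfl
    obtain ⟨h1, h2, h3⟩ := fibre0 hfree hk hθ hC1 hC2 w m₀ φ (by simp [φ]) hφf hφr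
      (fun w' => Iff.rfl)
    -- the index is `N`
    obtain ⟨S, hS⟩ : ∃ S : Subgroup (Subgroup.zpowers θ), S = stb φ hφr := ⟨_, rfl⟩
    rw [← hS] at h1 h2
    have hmem : ∀ m, m ∈ S ↔ ∃ r : R, φ m = r • w := by
      intro m
      rw [hS]
      show (∃ r : R, φ m = r • φ 1) ↔ _
      simp [φ]
    have hpow : ∀ n : ℕ, φ (m₀ ^ n) = (θ ^ n) w := fun n => rfl
    have hgen : orderOf (m₀ : Subgroup.zpowers θ ⧸ S) = S.index := by
      apply orderOf_eq_card_of_forall_mem_zpowers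
      intro x
      obtain ⟨y, rfl⟩ := QuotientGroup.mk_surjective x
      obtain ⟨_, i, rfl⟩ := y
      exact ⟨i, rfl⟩
    have hdvd : S.index ∣ N := by
      rw [← hgen]
      apply orderOf_dvd_of_pow_eq_one
      rw [← QuotientGroup.mk_pow, QuotientGroup.eq_one_iff, hmem]
      exact ⟨r₀, by rw [hpow, h]⟩
    obtain ⟨r, hr⟩ := (hmem _).1 (Subgroup.pow_index_mem S m₀)
    have hrn : ∀ j : ℕ, (θ ^ (S.index * j)) w = r ^ j • w := by
      intro j
      induction j with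
      | zero => simp
      | succ j ih =>
        rw [mul_add, mul_one, pow_add, Equiv.Perm.mul_apply, ← hpow S.index, hr,
          (hθ.pow (S.index * j)), ih, ← mul_smul, pow_succ']
    have hidx : S.index = N := by
      by_contra hne
      apply hN _ hdvd hne r
      have h4 := hrn (N / S.index)
      rw [Nat.mul_div_cancel' hdvd, h] at h4
      have h5 := hfree ((r ^ (N / S.index))⁻¹ * r₀) w (by rw [mul_smul, h4, inv_smul_smul])
      rw [inv_mul_eq_one] at h5
      exact h5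
    rw [hidx] at h1 h2
    exact ⟨h1 r₀ (by rw [hpow, h]), h2⟩
  obtain ⟨n, hn1, hn2⟩ := tau_classes (R := R) (k := k) (f := θ) (C := C) (a := ρ r₀)
    fun w => (key w).1
  exact ⟨n, hn2 N fun w => (key w).2, hn1⟩

/-- The consequence: `N |R|` times the order of `ρ r₀` divides the number of points. -/
theorem star_dvd [Finite Ω] (hfree : ∀ (r : R) (w : Ω), r • w = w → r = 1)
    (hk : Equiva ρ k) {θ : Equiv.Perm Ω} (hθ : Comm R θ) {N : ℕ} {r₀ : R}
    (h : ∀ w, (θ ^ N) w = r₀ • w) (hN : ∀ d, d ∣ N → d ≠ N → ∀ r : R, r ^ (N / d) ≠ r₀)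
    (ht : tau R k θ = 1) : orderOf (ρ r₀) * (N * Nat.card R) ∣ Nat.card Ω := by
  obtain ⟨n, h1, h2⟩ := star hfree hk hθ h hN
  rw [ht] at h2
  have h3 : orderOf (ρ r₀) ∣ n := orderOf_dvd_of_pow_eq_one h2.symm
  rw [card_free hfree, h1]
  obtain ⟨e, rfl⟩ := h3
  exact ⟨e, by ring⟩

/-- The case of a prime `N`. -/
theorem star_prime [Finite Ω] (hfree : ∀ (r : R) (w : Ω), r • w = w → r = 1)
    (hk : Equiva ρ k) {θ : Equiv.Perm Ω} (hθ : Comm R θ) {ℓ : ℕ} (hℓ : ℓ.Prime) {r₀ : R}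
    (h : ∀ w, (θ ^ ℓ) w = r₀ • w) (hN : ∀ r : R, r ^ ℓ ≠ r₀)
    (ht : tau R k θ = 1) : orderOf (ρ r₀) * (ℓ * Nat.card R) ∣ Nat.card Ω := by
  apply star_dvd hfree hk hθ h _ ht
  intro d hd hdn r
  rcases (Nat.dvd_prime hℓ).1 hd with rfl | rfl
  · rw [Nat.div_one]
    exact hN r
  · exact absurd rfl hdn

end

end Pool.Agent.PP.ML.H71
end
end -- Pool.Agent.Helper71_ML.Star

section -- Pool.Agent.Helper24_ML.Moves

/-!
# Squad ML, stage 2 (helper24): the moves `a₁`, `b`, `a₂` on the tuples with punctures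
-/

open scoped BigOperators

set_option linter.unusedSectionVars false

noncomputable section

namespace Pool.Agent.PP.ML.H24

open Pool.Agent.PP.ML Pool.Agent.Helper71_ML Pool.Agent.PP.ML.H71

section moves

variable {G X : Type} [Group G] [MulAction G X]

/-- conjugation of a list -/
def cl (e : G) (l : List G) : List G := l.map fun z => e * z * e⁻¹

theorem cl_cl (e f : G) (l : List G) : cl e (cl f l) = cl (e * f) l := by
  unfold cl
  rw [List.map_map]
  apply List.map_congr_left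
  intro z _
  simp only [Function.comp]
  group

theorem cl_one (l : List G) : cl 1 l = l := by
  unfold cl
  conv_rhs => rw [← List.map_id l]
  apply List.map_congr_left
  intro z _
  simp

theorem cl_prod (e : G) (l : List G) : (cl e l).prod = e * l.prod * e⁻¹ := by
  induction l with
  | nil => simp [cl]
  | cons a l ih =>
    change (e * a * e⁻¹) * (cl e l).prod = _
    rw [ih, List.prod_cons]
    group

theorem cl_mem {e : G} {l : List G} {z : G} : z ∈ cl e l ↔ ∃ z' ∈ l, e * z' * e⁻¹ = z := by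
  unfold cl
  rw [List.mem_map]

theorem cl_forall {Cs : List (Set G)} (hCs : ∀ K ∈ Cs, Cj K) (e : G) {l : List G}
    (h : List.Forall₂ (fun z K => z ∈ K) l Cs) :
    List.Forall₂ (fun z K => z ∈ K) (cl e l) Cs := by
  induction h with
  | nil => exact List.Forall₂.nil
  | cons h1 h2 ih =>
    exact List.Forall₂.cons (hCs _ List.mem_cons_self e _ h1)
      (ih fun K hK => hCs K (List.mem_cons_of_mem _ hK))

/-- conjugation of a tuple -/
def cjl (r : G) (w : X × G × G × List G) : X × G × G × List G :=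
  (r • w.1, r * w.2.1 * r⁻¹, r * w.2.2.1 * r⁻¹, cl r w.2.2.2)

theorem cjl_one (w : X × G × G × List G) : cjl (1 : G) w = w := by
  simp [cjl, cl_one]

theorem cjl_mul (r r' : G) (w : X × G × G × List G) : cjl (r * r') w = cjl r (cjl r' w) := by
  simp only [cjl, mul_smul, mul_inv_rev, mul_assoc, cl_cl]

/-- `x` is kept, `y` is multiplied by `x` -/
def m1 (w : X × G × G × List G) : X × G × G × List G := (w.1, w.2.1, w.2.2.1 * w.2.1, w.2.2.2)

/-- `y` is kept, `x` is multiplied by `y⁻¹` -/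
def mb (w : X × G × G × List G) : X × G × G × List G := (w.1, w.2.1 * w.2.2.1⁻¹, w.2.2.1, w.2.2.2)

/-- the twist around the handle and all punctures -/
def m2 (g : G) (w : X × G × G × List G) : X × G × G × List G :=
  (w.1, w.2.1, g⁻¹ * w.2.1 * w.2.2.1, cl (g⁻¹ * w.2.1) w.2.2.2)

theorem m1_inj : Function.Injective (m1 : X × G × G × List G → X × G × G × List G) := by
  rintro ⟨s, x, y, l⟩ ⟨s', x', y', l'⟩ e
  simp only [m1, Prod.mk.injEq] at e
  obtain ⟨rfl, rfl, e3, rfl⟩ := e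
  have := mul_right_cancel e3
  subst this
  rfl

theorem mb_inj : Function.Injective (mb : X × G × G × List G → X × G × G × List G) := by
  rintro ⟨s, x, y, l⟩ ⟨s', x', y', l'⟩ e
  simp only [mb, Prod.mk.injEq] at e
  obtain ⟨rfl, e2, rfl, rfl⟩ := e
  have := mul_right_cancel e2
  subst this
  rfl

theorem m2_inj (g : G) :
    Function.Injective (m2 g : X × G × G × List G → X × G × G × List G) := by
  rintro ⟨s, x, y, l⟩ ⟨s', x', y', l'⟩ e
  simp only [m2, Prod.mk.injEq] at e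
  obtain ⟨rfl, rfl, e3, e4⟩ := e
  have h1 := mul_left_cancel e3
  subst h1
  have h2 := congrArg (cl (g⁻¹ * x)⁻¹) e4
  rw [cl_cl, cl_cl, inv_mul_cancel, cl_one, cl_one] at h2
  subst h2
  rfl

theorem m1_cjl (r : G) (w : X × G × G × List G) : m1 (cjl r w) = cjl r (m1 w) := by
  obtain ⟨s, x, y, l⟩ := w
  simp only [m1, cjl, Prod.mk.injEq, true_and, and_true]
  group

theorem mb_cjl (r : G) (w : X × G × G × List G) : mb (cjl r w) = cjl r (mb w) := by
  obtain ⟨s, x, y, l⟩ := w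
  simp only [mb, cjl, Prod.mk.injEq, true_and, and_true]
  group

theorem m2_cjl {r g : G} (h : r * g = g * r) (w : X × G × G × List G) :
    m2 g (cjl r w) = cjl r (m2 g w) := by
  obtain ⟨s, x, y, l⟩ := w
  have h1 : g⁻¹ * r = r * g⁻¹ := by
    rw [inv_mul_eq_iff_eq_mul, ← mul_assoc, ← h, mul_inv_cancel_right]
  simp only [m2, cjl, Prod.mk.injEq, true_and, cl_cl]
  constructor
  · calc g⁻¹ * (r * x * r⁻¹) * (r * y * r⁻¹) = (g⁻¹ * r) * (x * y * r⁻¹) := by group
      _ = r * (g⁻¹ * x * y) * r⁻¹ := by rw [h1]; group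
  · congr 1
    calc g⁻¹ * (r * x * r⁻¹) * r = (g⁻¹ * r) * x := by group
      _ = r * (g⁻¹ * x) := by rw [h1]; group

/-- `a₁ b a₁ = b a₁ b` -/
theorem braid_1b (w : X × G × G × List G) : m1 (mb (m1 w)) = mb (m1 (mb w)) := by
  obtain ⟨s, x, y, l⟩ := w
  simp only [m1, mb, Prod.mk.injEq, true_and, and_true]
  constructor <;> group

/-- `a₂ b a₂ = b a₂ b` -/
theorem braid_2b (g : G) (w : X × G × G × List G) : m2 g (mb (m2 g w)) = mb (m2 g (mb w)) := by
  obtain ⟨s, x, y, l⟩ := w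
  simp only [m2, mb, Prod.mk.injEq, true_and, cl_cl]
  refine ⟨?_, ?_, ?_⟩
  · group
  · group
  · congr 1
    group

end moves

section inom

variable {G X : Type} [Group G] [Finite G] [MulAction G X] {R : Subgroup G} {g : G}
  {Cs : List (Set G)}

theorem conj_inv_mem (U : Subgroup G) (x : G)
    (h : ∀ u ∈ U, x * u * x⁻¹ ∈ U) : ∀ u ∈ U, x⁻¹ * u * x ∈ U := by
  have hp : ∀ n : ℕ, ∀ u ∈ U, x ^ n * u * (x ^ n)⁻¹ ∈ U := by
    intro n
    induction n with
    | zero => intro u hu; simpa using hu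
    | succ n ih =>
      intro u hu
      have h1 := h _ (ih u hu)
      have e : x ^ (n + 1) * u * (x ^ (n + 1))⁻¹ = x * (x ^ n * u * (x ^ n)⁻¹) * x⁻¹ := by
        rw [pow_succ']; group
      rw [e]; exact h1
  intro u hu
  have h0 := hp (orderOf x - 1) u hu
  have e : x ^ (orderOf x - 1) = x⁻¹ := by
    have h1 : x ^ (orderOf x - 1) * x = 1 := by
      rw [← pow_succ, Nat.sub_add_cancel (orderOf_pos x), pow_orderOf_eq_one]
    exact eq_inv_of_mul_eq_one_left h1
  rw [e, inv_inv] at h0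
  exact h0

theorem inOmL_m1 {w : X × G × G × List G} (h : InOmL R g Cs w) : InOmL R g Cs (m1 w) := by
  obtain ⟨s, x, y, l⟩ := w
  obtain ⟨h1, h2, h3, h4, h5, h6⟩ := h
  simp only at h1 h2 h3 h4 h5 h6
  refine ⟨h1, ?_, h3, h4, ?_, ?_⟩
  · show (y * x) • s = s
    rw [mul_smul, h1, h2]
  · show x * (y * x) * x⁻¹ * (y * x)⁻¹ = g * l.prod
    rw [← h5]; group
  · intro U hU hf hx hy hl
    refine h6 U hU hf hx ?_ hl
    intro u hu
    have h7 : (y * x) * (x⁻¹ * u * x) * (y * x)⁻¹ ∈ U := hy _ (conj_inv_mem U x hx u hu)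
    have e : (y * x) * (x⁻¹ * u * x) * (y * x)⁻¹ = y * u * y⁻¹ := by group
    rw [e] at h7
    exact h7

theorem inOmL_mb {w : X × G × G × List G} (h : InOmL R g Cs w) : InOmL R g Cs (mb w) := by
  obtain ⟨s, x, y, l⟩ := w
  obtain ⟨h1, h2, h3, h4, h5, h6⟩ := h
  simp only at h1 h2 h3 h4 h5 h6
  refine ⟨?_, h2, h3, h4, ?_, ?_⟩
  · show (x * y⁻¹) • s = s
    rw [mul_smul, inv_smul_eq_iff.2 h2.symm, h1]
  · show (x * y⁻¹) * y * (x * y⁻¹)⁻¹ * y⁻¹ = g * l.prod
    rw [← h5]; group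
  · intro U hU hf hx hy hl
    refine h6 U hU hf ?_ hy hl
    intro u hu
    have h7 : (x * y⁻¹) * (y * u * y⁻¹) * (x * y⁻¹)⁻¹ ∈ U := hx _ (hy u hu)
    have e : (x * y⁻¹) * (y * u * y⁻¹) * (x * y⁻¹)⁻¹ = x * u * x⁻¹ := by group
    rw [e] at h7
    exact h7

theorem prod_smul {l : List G} {s : X} (h : ∀ z ∈ l, z • s = s) : l.prod • s = s := by
  induction l with
  | nil => exact one_smul _ _
  | cons a l ih =>
    rw [List.prod_cons, mul_smul, ih fun z hz => h z (List.mem_cons_of_mem _ hz),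
      h a List.mem_cons_self]

theorem g_smul {w : X × G × G × List G} (h : InOmL R g Cs w) : g • w.1 = w.1 := by
  obtain ⟨s, x, y, l⟩ := w
  obtain ⟨h1, h2, h3, h4, h5, h6⟩ := h
  simp only at h1 h2 h3 h4 h5 h6
  show g • s = s
  have hp : l.prod⁻¹ • s = s := inv_smul_eq_iff.2 (prod_smul h3).symm
  have e : g = x * y * x⁻¹ * y⁻¹ * l.prod⁻¹ := by rw [h5]; group
  rw [e, mul_smul, hp, mul_smul, mul_smul, mul_smul, inv_smul_eq_iff.2 h2.symm,
    inv_smul_eq_iff.2 h1.symm, h2, h1]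

theorem inOmL_m2 (hR : ∀ r ∈ R, r * g = g * r) (hCs : ∀ K ∈ Cs, Cj K)
    {w : X × G × G × List G} (h : InOmL R g Cs w) : InOmL R g Cs (m2 g w) := by
  have hg := g_smul h
  obtain ⟨s, x, y, l⟩ := w
  obtain ⟨h1, h2, h3, h4, h5, h6⟩ := h
  simp only at h1 h2 h3 h4 h5 h6 hg
  have hg' : g⁻¹ • s = s := inv_smul_eq_iff.2 hg.symm
  refine ⟨h1, ?_, ?_, cl_forall hCs _ h4, ?_, ?_⟩
  · show (g⁻¹ * x * y) • s = s
    rw [mul_smul, mul_smul, h2, h1, hg']
  · intro z hz
    obtain ⟨z', hz', rfl⟩ := cl_mem.1 hz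
    show ((g⁻¹ * x) * z' * (g⁻¹ * x)⁻¹) • s = s
    have he : (g⁻¹ * x) • s = s := by rw [mul_smul, h1, hg']
    rw [mul_smul, mul_smul, inv_smul_eq_iff.2 he.symm, h3 z' hz', he]
  · show x * (g⁻¹ * x * y) * x⁻¹ * (g⁻¹ * x * y)⁻¹ = g * (cl (g⁻¹ * x) l).prod
    rw [cl_prod]
    have e : l.prod = g⁻¹ * (x * y * x⁻¹ * y⁻¹) := by rw [h5]; group
    rw [e]
    group
  · intro U hU hf hx hy hl
    -- conjugation by `e = g⁻¹ x` is conjugation by `x` on `U`
    have hx' : ∀ u ∈ U, x * u * x⁻¹ ∈ U := hx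
    have hxi := conj_inv_mem U x hx'
    have hinv : ∀ u ∈ U, (g⁻¹ * x)⁻¹ * u * (g⁻¹ * x) ∈ U := by
      intro u hu
      have e : (g⁻¹ * x)⁻¹ * u * (g⁻¹ * x) = x⁻¹ * u * x := by
        have h7 : g * u * g⁻¹ = u := by
          rw [← hR u (hU hu), mul_inv_cancel_right]
        calc (g⁻¹ * x)⁻¹ * u * (g⁻¹ * x) = x⁻¹ * (g * u * g⁻¹) * x := by group
          _ = x⁻¹ * u * x := by rw [h7]
      rw [e]
      exact hxi u hu
    have hfw : ∀ u ∈ U, (g⁻¹ * x) * u * (g⁻¹ * x)⁻¹ ∈ U := by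
      intro u hu
      have h8 := conj_inv_mem U (g⁻¹ * x)⁻¹ (by
        intro v hv
        rw [inv_inv]
        exact hinv v hv) u hu
      rw [inv_inv] at h8
      exact h8
    refine h6 U hU hf hx' ?_ ?_
    · intro u hu
      have h9 : (g⁻¹ * x * y) * u * (g⁻¹ * x * y)⁻¹ ∈ U := hy u hu
      have h10 := hinv _ h9
      have e : (g⁻¹ * x)⁻¹ * ((g⁻¹ * x * y) * u * (g⁻¹ * x * y)⁻¹) * (g⁻¹ * x)
          = y * u * y⁻¹ := by group
      rw [e] at h10
      exact h10
    · intro z hz u hu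
      have h9 := hl ((g⁻¹ * x) * z * (g⁻¹ * x)⁻¹) (cl_mem.2 ⟨z, hz, rfl⟩) _ (hfw u hu)
      have h10 := hinv _ h9
      have e : (g⁻¹ * x)⁻¹ * (((g⁻¹ * x) * z * (g⁻¹ * x)⁻¹) * ((g⁻¹ * x) * u * (g⁻¹ * x)⁻¹) *
          ((g⁻¹ * x) * z * (g⁻¹ * x)⁻¹)⁻¹) * (g⁻¹ * x) = z * u * z⁻¹ := by group
      rw [e] at h10
      exact h10

theorem inOmL_cjl (hR : ∀ r ∈ R, r * g = g * r) (hCs : ∀ K ∈ Cs, Cj K)
    {w : X × G × G × List G} (h : InOmL R g Cs w) {r : G} (hr : r ∈ R) :
    InOmL R g Cs (cjl r w) := by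
  obtain ⟨s, x, y, l⟩ := w
  obtain ⟨h1, h2, h3, h4, h5, h6⟩ := h
  simp only at h1 h2 h3 h4 h5 h6
  refine ⟨?_, ?_, ?_, cl_forall hCs _ h4, ?_, ?_⟩
  · show (r * x * r⁻¹) • (r • s) = r • s
    rw [← mul_smul, show r * x * r⁻¹ * r = r * x by group, mul_smul, h1]
  · show (r * y * r⁻¹) • (r • s) = r • s
    rw [← mul_smul, show r * y * r⁻¹ * r = r * y by group, mul_smul, h2]
  · intro z hz
    obtain ⟨z', hz', rfl⟩ := cl_mem.1 hz
    show (r * z' * r⁻¹) • (r • s) = r • s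
    rw [← mul_smul, show r * z' * r⁻¹ * r = r * z' by group, mul_smul, h3 z' hz']
  · show (r * x * r⁻¹) * (r * y * r⁻¹) * (r * x * r⁻¹)⁻¹ * (r * y * r⁻¹)⁻¹ = g * (cl r l).prod
    have e : (r * x * r⁻¹) * (r * y * r⁻¹) * (r * x * r⁻¹)⁻¹ * (r * y * r⁻¹)⁻¹
        = r * (x * y * x⁻¹ * y⁻¹) * r⁻¹ := by group
    rw [e, h5, cl_prod, ← mul_assoc r g, hR r hr]; group
  · intro U hU hf hx hy hl
    have hf' : ∀ u ∈ U, u • (r • s) = r • s := hf
    have hx' : ∀ u ∈ U, (r * x * r⁻¹) * u * (r * x * r⁻¹)⁻¹ ∈ U := hx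
    have hy' : ∀ u ∈ U, (r * y * r⁻¹) * u * (r * y * r⁻¹)⁻¹ ∈ U := hy
    have hV : U.comap (MulAut.conj r).toMonoidHom = ⊥ := by
      refine h6 _ ?_ ?_ ?_ ?_ ?_
      · intro u hu
        have hu' : r * u * r⁻¹ ∈ U := hu
        have e : u = r⁻¹ * (r * u * r⁻¹) * r := by group
        rw [e]
        exact R.mul_mem (R.mul_mem (R.inv_mem hr) (hU hu')) hr
      · intro u hu
        have hu' : r * u * r⁻¹ ∈ U := hu
        have h7 := hf' _ hu'
        rw [← mul_smul, show r * u * r⁻¹ * r = r * u by group, mul_smul] at h7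
        exact (MulAction.injective r) h7
      · intro u hu
        have hu' : r * u * r⁻¹ ∈ U := hu
        have h7 := hx' _ hu'
        show r * (x * u * x⁻¹) * r⁻¹ ∈ U
        have e : (r * x * r⁻¹) * (r * u * r⁻¹) * (r * x * r⁻¹)⁻¹ = r * (x * u * x⁻¹) * r⁻¹ := by
          group
        rw [← e]; exact h7
      · intro u hu
        have hu' : r * u * r⁻¹ ∈ U := hu
        have h7 := hy' _ hu'
        show r * (y * u * y⁻¹) * r⁻¹ ∈ U
        have e : (r * y * r⁻¹) * (r * u * r⁻¹) * (r * y * r⁻¹)⁻¹ = r * (y * u * y⁻¹) * r⁻¹ := by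
          group
        rw [← e]; exact h7
      · intro z hz u hu
        have hu' : r * u * r⁻¹ ∈ U := hu
        have h7 := hl (r * z * r⁻¹) (cl_mem.2 ⟨z, hz, rfl⟩) _ hu'
        show r * (z * u * z⁻¹) * r⁻¹ ∈ U
        have e : (r * z * r⁻¹) * (r * u * r⁻¹) * (r * z * r⁻¹)⁻¹ = r * (z * u * z⁻¹) * r⁻¹ := by
          group
        rw [← e]; exact h7
    rw [eq_bot_iff]
    intro u hu
    have h8 : r⁻¹ * u * r ∈ U.comap (MulAut.conj r).toMonoidHom := by
      show r * (r⁻¹ * u * r) * r⁻¹ ∈ U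
      rw [show r * (r⁻¹ * u * r) * r⁻¹ = u by group]; exact hu
    rw [hV, Subgroup.mem_bot] at h8
    rw [Subgroup.mem_bot]
    have e : u = r * (r⁻¹ * u * r) * r⁻¹ := by group
    rw [e, h8]; group

theorem free_cjl {w : X × G × G × List G} (h : InOmL R g Cs w) {r : G} (hr : r ∈ R)
    (e : cjl r w = w) : r = 1 := by
  obtain ⟨s, x, y, l⟩ := w
  obtain ⟨h1, h2, h3, h4, h5, h6⟩ := h
  simp only at h1 h2 h3 h4 h5 h6
  simp only [cjl, Prod.mk.injEq] at e
  obtain ⟨e1, e2, e3, e4⟩ := e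
  have key : ∀ z : G, r * z * r⁻¹ = z → ∀ u ∈ Subgroup.zpowers r,
      z * u * z⁻¹ ∈ Subgroup.zpowers r := by
    rintro z hz u ⟨n, rfl⟩
    have cz : Commute r z := by
      show r * z = z * r
      exact mul_inv_eq_iff_eq_mul.1 hz
    have h7 : z * r ^ n * z⁻¹ = r ^ n := by
      rw [← (cz.zpow_left n).eq]; group
    show z * r ^ n * z⁻¹ ∈ Subgroup.zpowers r
    rw [h7]; exact ⟨n, rfl⟩
  have hl : ∀ z ∈ l, r * z * r⁻¹ = z := by
    intro z hz
    have h7 : ∀ z' ∈ l, (fun z => r * z * r⁻¹) z' = id z' := by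
      have h8 : l.map (fun z => r * z * r⁻¹) = l.map id := by rw [List.map_id]; exact e4
      exact List.map_inj_left.1 h8
    exact h7 z hz
  have hb := h6 (Subgroup.zpowers r) (by rw [Subgroup.zpowers_le]; exact hr) (by
    intro u hu
    have h7 : Subgroup.zpowers r ≤ MulAction.stabilizer G s := by
      rw [Subgroup.zpowers_le]; exact e1
    exact h7 hu) (key x e2) (key y e3) (fun z hz => key z (hl z hz))
  have : r ∈ Subgroup.zpowers r := Subgroup.mem_zpowers r
  rw [hb, Subgroup.mem_bot] at this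
  exact this

theorem finite_inOmL [Finite X] : Finite {w : X × G × G × List G // InOmL R g Cs w} := by
  have h1 : {w : X × G × G × List G | InOmL R g Cs w} ⊆
      (Set.univ : Set X) ×ˢ (Set.univ : Set G) ×ˢ (Set.univ : Set G) ×ˢ
        {l : List G | l.length = Cs.length} := by
    intro w hw
    exact ⟨trivial, trivial, trivial, hw.ml.length_eq⟩
  have h2 : ((Set.univ : Set X) ×ˢ (Set.univ : Set G) ×ˢ (Set.univ : Set G) ×ˢ
        {l : List G | l.length = Cs.length}).Finite :=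
    Set.finite_univ.prod (Set.finite_univ.prod (Set.finite_univ.prod
      (List.finite_length_eq G Cs.length)))
  exact (h2.subset h1).to_subtype

end inom

end Pool.Agent.PP.ML.H24
end
end -- Pool.Agent.Helper24_ML.Moves

section -- Pool.Agent.Helper24_ML.TL2

/-!
# Squad ML, stage 2, row TL2 (helper24): the chain relation
-/

open scoped BigOperators

set_option linter.unusedSectionVars false

noncomputable section

namespace Pool.Agent.PP.ML.H24

open Pool.Agent.PP.ML Pool.Agent.Helper71_ML Pool.Agent.PP.ML.H71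

/-- the set of the tuples as a type -/
def Om {G X : Type} [Group G] [MulAction G X] (R : Subgroup G) (g : G) (Cs : List (Set G)) : Type :=
  {w : X × G × G × List G // InOmL R g Cs w}

section

variable {G X : Type} [Group G] [Finite G] [Finite X] [MulAction G X] {R : Subgroup G} {g : G}
  {Cs : List (Set G)}

instance finOm : Finite (Om (X := X) R g Cs) := finite_inOmL

/-- the action of `R` by conjugation -/
@[reducible] def act (hR : ∀ r ∈ R, r * g = g * r) (hCs : ∀ K ∈ Cs, Cj K) :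
    MulAction R (Om (X := X) R g Cs) where
  smul := fun r w => ⟨cjl r.1 w.1, inOmL_cjl hR hCs w.2 r.2⟩
  one_smul := fun w => Subtype.ext (cjl_one w.1)
  mul_smul := fun r r' w => Subtype.ext (cjl_mul r.1 r'.1 w.1)

/-- the permutation of an injective move -/
def perm (m : X × G × G × List G → X × G × G × List G) (hm : Function.Injective m)
    (h : ∀ w, InOmL R g Cs w → InOmL R g Cs (m w)) : Equiv.Perm (Om (X := X) R g Cs) :=
  Equiv.ofBijective (fun w => ⟨m w.1, h w.1 w.2⟩) (Finite.injective_iff_bijective.1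
    (fun w w' e => Subtype.ext (hm (congrArg Subtype.val e))))

theorem perm_val (m : X × G × G × List G → X × G × G × List G) (hm : Function.Injective m)
    (h : ∀ w, InOmL R g Cs w → InOmL R g Cs (m w)) (w : Om (X := X) R g Cs) :
    (perm m hm h w).1 = m w.1 := rfl

/-- the move `a₁` -/
def p1 (R : Subgroup G) (g : G) (Cs : List (Set G)) : Equiv.Perm (Om (X := X) R g Cs) :=
  perm m1 m1_inj fun _ h => inOmL_m1 h

/-- the move `b` -/
def pb (R : Subgroup G) (g : G) (Cs : List (Set G)) : Equiv.Perm (Om (X := X) R g Cs) :=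
  perm mb mb_inj fun _ h => inOmL_mb h

/-- the move `a₂` -/
def p2 (hR : ∀ r ∈ R, r * g = g * r) (hCs : ∀ K ∈ Cs, Cj K) :
    Equiv.Perm (Om (X := X) R g Cs) :=
  perm (m2 g) (m2_inj g) fun _ h => inOmL_m2 hR hCs h

end

/-- The core: the transfer of the move `a₁` is trivial. -/
def CoreStmt : Prop := ∀ (G X A : Type) [Group G] [Finite G] [Finite X] [MulAction G X]
  [CommGroup A] (R : Subgroup G) (g : G) (ρ : R →* A) (hR : ∀ r ∈ R, r * g = g * r)
  (Cs : List (Set G)) (hCs : ∀ K ∈ Cs, Cj K) (k : Om (X := X) R g Cs → A),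
  letI := act (X := X) hR hCs
  Equiva ρ k → tau R k (p1 R g Cs) = 1

theorem tl2 (core : CoreStmt) : TL2Stmt := by
  intro G X A _ _ _ _ _ R g ρ hR K hK j hj hsq
  have hCs : ∀ K' ∈ [K], Cj K' := by
    intro K' hK'
    rw [List.mem_singleton.1 hK']
    exact hK
  let act : MulAction R (Om (X := X) R g [K]) := act hR hCs
  have hsm : ∀ (r : R) (w : Om (X := X) R g [K]), (r • w).1 = cjl r.1 w.1 := fun _ _ => rfl
  have hfree : ∀ (r : R) (w : Om (X := X) R g [K]), r • w = w → r = 1 := by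
    intro r w h
    exact Subtype.ext (free_cjl w.2 r.2 (congrArg Subtype.val h))
  obtain ⟨k, hk⟩ := exists_equiva (Ω := Om (X := X) R g [K]) ρ fun r w h => by
    rw [hfree r w h, map_one]
  have c1 : Comm R (p1 (X := X) R g [K]) := fun r w => Subtype.ext (m1_cjl r.1 w.1)
  have cb : Comm R (pb (X := X) R g [K]) := fun r w => Subtype.ext (mb_cjl r.1 w.1)
  have c2 : Comm R (p2 (X := X) hR hCs) := fun r w =>
    Subtype.ext (m2_cjl (hR r.1 r.2) w.1)
  have t1 : tau R k (p1 (X := X) R g [K]) = 1 := core G X A R g ρ hR [K] hCs k hk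
  have b1 : p1 (X := X) R g [K] * pb R g [K] * p1 R g [K] = pb R g [K] * p1 R g [K] * pb R g [K] :=
    Equiv.ext fun w => Subtype.ext (braid_1b w.1)
  have b2 : p2 (X := X) hR hCs * pb R g [K] * p2 hR hCs = pb R g [K] * p2 hR hCs * pb R g [K] :=
    Equiv.ext fun w => Subtype.ext (braid_2b g w.1)
  have tb : tau R k (pb (X := X) R g [K]) = 1 := by
    rw [← tau_braid hk c1 cb b1]
    exact t1
  have t2 : tau R k (p2 (X := X) hR hCs) = 1 := by
    rw [tau_braid hk c2 cb b2]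
    exact tb
  -- the permutation `κ = a₁ b a₂`
  obtain ⟨κ, hκ⟩ : ∃ κ : Equiv.Perm (Om (X := X) R g [K]),
      κ = p1 R g [K] * pb R g [K] * p2 hR hCs := ⟨_, rfl⟩
  have cκ : Comm R κ := by
    rw [hκ]
    exact (c1.mul cb).mul c2
  have tκ : tau R k κ = 1 := by
    rw [hκ, tau_mul hk (c1.mul cb) c2, tau_mul hk c1 cb, t1, tb, t2, one_mul, one_mul]
  -- the chain relation
  have hchain : ∀ w : Om (X := X) R g [K], ((κ ^ 4) w).1 = cjl g⁻¹ w.1 := by
    intro w
    have hval : ∀ v : Om (X := X) R g [K], (κ v).1 = m1 (mb (m2 g v.1)) := by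
      intro v
      rw [hκ]
      rfl
    have h4 : ((κ ^ 4) w).1 = m1 (mb (m2 g (m1 (mb (m2 g (m1 (mb (m2 g (m1 (mb (m2 g w.1)))))))))))
        := by
      have e : (κ ^ 4) w = κ (κ (κ (κ w))) := rfl
      rw [e, hval, hval, hval, hval]
    rw [h4]
    have hg := g_smul w.2
    have hg' : g⁻¹ • w.1.1 = w.1.1 := inv_smul_eq_iff.2 hg.symm
    have hcm := w.2.cm
    have hml := w.2.ml
    obtain ⟨⟨s, x, y, l⟩, hw⟩ := w
    simp only at hcm hml hg'
    obtain ⟨z, rfl⟩ : ∃ z, l = [z] := by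
      cases hml with
      | cons h1 h2 =>
        cases h2
        exact ⟨_, rfl⟩
    have hrel : MRel g (x, y, z, (1 : G)) := by
      unfold MRel
      simp only
      rw [hcm, List.prod_singleton, mul_one]
    have hch := chain_rel hrel rfl
    have hstep : ∀ t : G × G × G × G, t.2.2.2 = 1 →
        m1 (mb (m2 g (s, t.1, t.2.1, [t.2.2.1])))
          = (s, (mKa g t).1, (mKa g t).2.1, [(mKa g t).2.2.1]) := by
      intro t _
      rfl
    have h1 : (mKa g (x, y, z, (1 : G))).2.2.2 = 1 := mKa_one rfl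
    have h2 := mKa_one (g := g) h1
    have h3 := mKa_one (g := g) h2
    have e1 := hstep (x, y, z, (1 : G)) rfl
    have e2 := hstep _ h1
    have e3 := hstep _ h2
    have e4 := hstep _ h3
    simp only at e1
    rw [e1, e2, e3, e4, hch]
    simp only [cjl, cl, List.map_cons, List.map_nil, inv_inv, hg']
  -- powers
  have hpow : ∀ (i : ℕ) (w : Om (X := X) R g [K]), (((κ ^ 4) ^ i) w).1 = cjl (g ^ i)⁻¹ w.1 := by
    intro i
    induction i with
    | zero =>
      intro w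
      rw [pow_zero, pow_zero, inv_one, cjl_one]
      rfl
    | succ i ih =>
      intro w
      rw [pow_succ', Equiv.Perm.mul_apply, hchain, ih, ← cjl_mul, pow_succ, mul_inv_rev]
  obtain ⟨r₀, hr₀⟩ : ∃ r₀ : R, r₀ = (⟨g ^ j, hj⟩ : R)⁻¹ := ⟨_, rfl⟩
  have hθ : ∀ w : Om (X := X) R g [K], ((κ ^ j) ^ 4) w = r₀ • w := by
    intro w
    apply Subtype.ext
    rw [← pow_mul, mul_comm j 4, pow_mul, hpow, hsm, hr₀]
    rfl
  have hN : ∀ d, d ∣ 4 → d ≠ 4 → ∀ r : R, r ^ (4 / d) ≠ r₀ := by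
    intro d hd hd4 r hr
    have h1 : ∃ v : R, v ^ 2 = r₀ := by
      have hle : d ≤ 4 := Nat.le_of_dvd (by norm_num) hd
      interval_cases d
      · simp at hd
      · exact ⟨r ^ 2, by rw [← pow_mul]; exact hr⟩
      · exact ⟨r, hr⟩
      · omega
      · exact absurd rfl hd4
    obtain ⟨v, hv⟩ := h1
    apply hsq (v⁻¹ : R).1 (v⁻¹ : R).2
    have h2 : (v⁻¹) ^ 2 = (⟨g ^ j, hj⟩ : R) := by
      rw [inv_pow, hv, hr₀, inv_inv]
    exact congrArg Subtype.val h2
  have hfin := star_dvd hfree hk (cκ.pow j) hθ hN (by rw [tau_pow hk cκ, tκ, one_pow])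
  have hord : orderOf (ρ r₀) = orderOf (ρ ⟨g ^ j, hj⟩) := by
    rw [hr₀, map_inv, orderOf_inv]
  rw [hord] at hfin
  have h9 : {w : X × G × G × List G | InOmL R g [K] w}.ncard = Nat.card (Om (X := X) R g [K]) :=
    rfl
  rw [h9]
  have h10 : 4 * orderOf (ρ ⟨g ^ j, hj⟩) * Nat.card R
      = orderOf (ρ ⟨g ^ j, hj⟩) * (4 * Nat.card R) := by ring
  rw [h10]
  exact hfin

end Pool.Agent.PP.ML.H24
end
end -- Pool.Agent.Helper24_ML.TL2

section -- Pool.Agent.Helper71_ML.Pur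

/-!
PUR: `M` a finite commutative group, `ψ : Q → M` injective without nontrivial invariant subgroup;
then the exponent of `M` divides `|M : Q|`.
-/

noncomputable section

namespace Pool.Agent.PP.ML.H71

theorem pur_aux (n : ℕ) : ∀ (M : Type) [CommGroup M] [Finite M] (Q : Subgroup M) (ψ : Q →* M),
    Function.Injective ψ →
    (∀ U : Subgroup M, U ≤ Q → (∀ q : Q, (q : M) ∈ U → ψ q ∈ U) → U = ⊥) →
    Nat.card M ≤ n → ∀ m : M, m ^ Q.index = 1 := by
  induction n with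
  | zero =>
    intro M _ _ Q ψ _ _ hn m
    have : 0 < Nat.card M := Nat.card_pos
    omega
  | succ n ih =>
    intro M _ _ Q ψ hinj hinv hn m
    by_cases hQ : Q = ⊤
    · have h1 := hinv ⊤ (by rw [hQ]) fun q _ => Subgroup.mem_top _
      have h2 : m ∈ (⊤ : Subgroup M) := Subgroup.mem_top m
      rw [h1, Subgroup.mem_bot] at h2
      rw [h2, one_pow]
    · have hcard : Nat.card Q ≤ n := by
        have h1 : Nat.card Q ≠ Nat.card M := by
          intro h
          exact hQ ((Subgroup.card_eq_iff_eq_top Q).1 h)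
        have h2 : Nat.card Q ≤ Nat.card M := Subgroup.card_le_card_group Q
        omega
      let Q' : Subgroup Q := Q.comap ψ
      let ψ' : Q' →* Q := (ψ.comp Q'.subtype).codRestrict Q fun q => q.2
      have hinj' : Function.Injective ψ' := by
        intro a b hab
        have h1 : ψ (a : Q) = ψ (b : Q) := congrArg Subtype.val hab
        exact Subtype.ext (hinj h1)
      have hinv' : ∀ U : Subgroup Q, U ≤ Q' →
          (∀ q : Q', (q : Q) ∈ U → ψ' q ∈ U) → U = ⊥ := by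
        intro U hU hU2
        have h1 : U.map Q.subtype = ⊥ := by
          apply hinv
          · rintro _ ⟨s, _, rfl⟩
            exact s.2
          · rintro q ⟨t, ht, hq⟩
            have h3 : t = q := Subtype.ext hq
            subst h3
            exact ⟨ψ' ⟨t, hU ht⟩, hU2 ⟨t, hU ht⟩ ht, rfl⟩
        rw [Subgroup.map_eq_bot_iff_of_injective _ Q.subtype_injective] at h1
        exact h1
      have hIH : ∀ q : Q, q ^ Q'.index = 1 := ih Q Q' ψ' hinj' hinv' hcard
      have hN : Q'.index = Q.relIndex (ψ.range ⊔ Q) := by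
        rw [Subgroup.relIndex_sup_right]
        exact Subgroup.index_comap Q ψ
      have h1 : Q.relIndex (ψ.range ⊔ Q) * (ψ.range ⊔ Q).index = Q.index :=
        Subgroup.relIndex_mul_index le_sup_right
      have h2 : m ^ (ψ.range ⊔ Q).index ∈ ψ.range ⊔ Q := Subgroup.pow_index_mem _ m
      obtain ⟨_, ⟨a, rfl⟩, b, hb, h3⟩ := Subgroup.mem_sup.1 h2
      have h4 : b ^ Q'.index = 1 := congrArg Subtype.val (hIH ⟨b, hb⟩)
      rw [← h1, mul_comm, pow_mul, ← h3, ← hN, mul_pow, ← map_pow, hIH a, map_one, one_mul, h4]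

theorem pur : Pool.Agent.PP.ML.PurStmt := by
  intro M _ _ Q ψ hinj hinv m
  exact pur_aux (Nat.card M) M Q ψ hinj hinv le_rfl m

end Pool.Agent.PP.ML.H71
end
end -- Pool.Agent.Helper71_ML.Pur

section -- Pool.Agent.Helper98_BT.Loc

/-! The local argument: for `x, y` in a finite group, the chain of the subgroups `Q_i`. -/

set_option autoImplicit false

namespace Pool.Agent.H98BT

open Subgroup

variable {G : Type*} [Group G]

/-- the elements `x ^ j * p`, `p ∈ W` -/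
def AA (x : G) (W : Set G) : Set G := {z | ∃ (j : ℤ) (p : G), p ∈ W ∧ z = x ^ j * p}

theorem AA_mono {x : G} {W W' : Set G} (h : W ⊆ W') : AA x W ⊆ AA x W' := by
  rintro z ⟨j, p, hp, rfl⟩
  exact ⟨j, p, h hp, rfl⟩

/-- the chain `Q_i` -/
def Qs (x : G) (B : Set G) (y : G) : ℕ → Set G
  | 0 => {1}
  | i + 1 => {q | q ∈ B ∧ y⁻¹ * q * y * q⁻¹ ∈ AA x (Qs x B y i)}

/-- the union of the chain -/
def Qf (x : G) (B : Set G) (y : G) : Set G := ⋃ i, Qs x B y i

/-- no nontrivial subgroup of `Rs` is normalised by `x`, `y`, `N` -/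
def Good (x : G) (Rs N : Subgroup G) (y : G) : Prop :=
  ∀ U : Subgroup G, U ≤ Rs → x ∈ normalizer (U : Set G) → y ∈ normalizer (U : Set G) →
    N ≤ normalizer (U : Set G) → U = ⊥

/-- an element which commutes with everything generates a normalised subgroup -/
theorem Good.eq_one {x y : G} {Rs N : Subgroup G} (h : Good x Rs N y) {t : G} (ht : t ∈ Rs)
    (hx : t * x = x * t) (hy : t * y = y * t) (hN : ∀ n ∈ N, t * n = n * t) : t = 1 := by
  have key : ∀ z : G, t * z = z * t → z ∈ normalizer ((zpowers t : Subgroup G) : Set G) := by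
    intro z hz
    have h1 : ∀ u ∈ zpowers t, z * u * z⁻¹ = u := by
      rintro u ⟨k, rfl⟩
      have h2 : Commute (t ^ k) z := Commute.zpow_left hz k
      change z * t ^ k * z⁻¹ = t ^ k
      rw [← h2.eq, mul_inv_cancel_right]
    rw [mem_normalizer_iff]
    intro u
    constructor
    · intro hu
      have := h1 u hu
      rw [this]; exact hu
    · intro hu
      have h3 := h1 _ hu
      have h4 : z * u * z⁻¹ = u := by
        have h5 : z * (z * u * z⁻¹) * z⁻¹ = z * u * z⁻¹ := h3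
        have h6 := congrArg (fun a => z⁻¹ * a * z) h5
        simpa [mul_assoc] using h6
      rw [← h4]; exact hu
  have h1 := h (zpowers t) (by rwa [zpowers_le]) (key x hx) (key y hy)
    (fun n hn => key n (hN n hn))
  have h2 : t ∈ (zpowers t : Subgroup G) := mem_zpowers t
  rw [h1] at h2
  exact mem_bot.1 h2

/-- the basic data -/
structure Dat (x : G) (B Rs N : Subgroup G) : Prop where
  BR : B ≤ Rs
  Bx : ∀ q ∈ B, q * x = x * q
  BN : ∀ q ∈ B, ∀ n ∈ N, q * n = n * q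

section
variable {x : G} {B Rs N : Subgroup G}

theorem Dat.comm_zpow (h : Dat x B Rs N) {q : G} (hq : q ∈ B) (j : ℤ) :
    q * x ^ j = x ^ j * q := Commute.zpow_right (h.Bx q hq) j

/-- an element of `B` which commutes with `W` commutes with `AA x W` -/
theorem Dat.comm_AA (h : Dat x B Rs N) {W : Set G} {q : G} (hq : q ∈ B)
    (hW : ∀ p ∈ W, q * p = p * q) {m : G} (hm : m ∈ AA x W) : q * m = m * q := by
  obtain ⟨j, p, hp, rfl⟩ := hm
  rw [← mul_assoc, h.comm_zpow hq, mul_assoc, hW p hp, mul_assoc]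

theorem Dat.AA_comm (h : Dat x B Rs N) {V : Subgroup G} (hV : V ≤ B)
    (hc : ∀ a ∈ V, ∀ b ∈ V, a * b = b * a) {m m' : G} (hm : m ∈ AA x V) (hm' : m' ∈ AA x V) :
    m * m' = m' * m := by
  obtain ⟨j, p, hp, rfl⟩ := hm
  have h1 : p * m' = m' * p := h.comm_AA (hV hp) (fun a ha => hc p hp a ha) hm'
  have h2 : x ^ j * m' = m' * x ^ j := by
    obtain ⟨k, r, hr, rfl⟩ := hm'
    rw [mul_assoc, h.comm_zpow (hV hr), ← mul_assoc, ← mul_assoc, ← zpow_add, ← zpow_add,
      add_comm]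
  rw [mul_assoc, h1, ← mul_assoc, h2, mul_assoc]

theorem Dat.AA_mul (h : Dat x B Rs N) {V : Subgroup G} (hV : V ≤ B) {m m' : G}
    (hm : m ∈ AA x V) (hm' : m' ∈ AA x V) : m * m' ∈ AA x V := by
  obtain ⟨j, p, hp, rfl⟩ := hm
  obtain ⟨k, r, hr, rfl⟩ := hm'
  refine ⟨j + k, p * r, V.mul_mem hp hr, ?_⟩
  rw [zpow_add, mul_assoc, ← mul_assoc p, h.comm_zpow (hV hp)]
  simp only [mul_assoc]

theorem Dat.AA_inv (h : Dat x B Rs N) {V : Subgroup G} (hV : V ≤ B) {m : G}
    (hm : m ∈ AA x V) : m⁻¹ ∈ AA x V := by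
  obtain ⟨j, p, hp, rfl⟩ := hm
  refine ⟨-j, p⁻¹, V.inv_mem hp, ?_⟩
  rw [mul_inv_rev, ← zpow_neg, h.comm_zpow (hV (V.inv_mem hp))]

theorem AA_of_mem {W : Set G} {p : G} (hp : p ∈ W) : p ∈ AA x W := ⟨0, p, hp, by simp⟩

theorem AA_zpow {W : Set G} (h1 : (1 : G) ∈ W) (j : ℤ) : x ^ j ∈ AA x W := ⟨j, 1, h1, by simp⟩

/-- **lemma C**: commutation with the chain -/
theorem Dat.C (h : Dat x B Rs N) {y : G} {V : Subgroup G} (hV : V ≤ B)
    (hc : ∀ a ∈ V, ∀ b ∈ V, a * b = b * a) (hg : ∀ p ∈ AA x (V : Set G), Good x Rs N (y * p))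
    (W : ℕ → Set G) (n : ℕ) (hW0 : ∀ p ∈ W 0, p = 1) (hWV : ∀ i ≤ n, ∀ p ∈ W i, p ∈ V)
    (hW : ∀ i < n, ∀ p ∈ W (i + 1), y⁻¹ * p * y * p⁻¹ ∈ AA x (W i)) {s : G} (hs : s ∈ B)
    (hsy : y⁻¹ * s * y * s⁻¹ ∈ AA x (V : Set G)) :
    ∀ i ≤ n, ∀ q ∈ W i, s * q = q * s := by
  intro i
  induction i with
  | zero =>
    intro _ q hq
    rw [hW0 q hq, mul_one, one_mul]
  | succ i ih =>
    intro hi q hq
    have ih' := ih (by omega)
    have hqV := hWV (i + 1) hi q hq
    have hqB := hV hqV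
    obtain ⟨m, hm⟩ : ∃ m, m = y⁻¹ * s * y * s⁻¹ := ⟨_, rfl⟩
    obtain ⟨m', hm'⟩ : ∃ m', m' = y⁻¹ * q * y * q⁻¹ := ⟨_, rfl⟩
    have hmA : m ∈ AA x (V : Set G) := by rw [hm]; exact hsy
    have hm'W : m' ∈ AA x (W i) := by rw [hm']; exact hW i (by omega) q hq
    have hm'A : m' ∈ AA x (V : Set G) := AA_mono (hWV i (by omega)) hm'W
    have hqA : q ∈ AA x (V : Set G) := AA_of_mem hqV
    have c1 : Commute s m' := h.comm_AA hs ih' hm'W
    have c2 : Commute m q := h.AA_comm hV hc hmA hqA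
    have c3 : Commute m m' := h.AA_comm hV hc hmA hm'A
    have e1 : y⁻¹ * s * y = m * s := by rw [hm]; group
    have e2 : y⁻¹ * q * y = m' * q := by rw [hm']; group
    obtain ⟨t, ht⟩ : ∃ t, t = s * q * s⁻¹ * q⁻¹ := ⟨_, rfl⟩
    have e3 : y⁻¹ * t * y = (m * m') * t * (m * m')⁻¹ := by
      have e4 : y⁻¹ * t * y = (y⁻¹ * s * y) * (y⁻¹ * q * y) * (y⁻¹ * s * y)⁻¹ *
          (y⁻¹ * q * y)⁻¹ := by rw [ht]; group
      rw [e4, e1, e2, ht]
      have c2' : Commute m⁻¹ q⁻¹ := c2.inv_inv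
      calc m * s * (m' * q) * (m * s)⁻¹ * (m' * q)⁻¹
          = m * (s * m') * q * s⁻¹ * (m⁻¹ * q⁻¹) * m'⁻¹ := by group
        _ = m * (m' * s) * q * s⁻¹ * (q⁻¹ * m⁻¹) * m'⁻¹ := by rw [c1.eq, c2'.eq]
        _ = (m * m') * (s * q * s⁻¹ * q⁻¹) * (m' * m)⁻¹ := by group
        _ = _ := by rw [c3.eq]
    have ht1 : t = 1 := by
      apply (hg (m * m') (h.AA_mul hV hmA hm'A)).eq_one
      · rw [ht]
        exact h.BR (B.mul_mem (B.mul_mem (B.mul_mem hs hqB) (B.inv_mem hs)) (B.inv_mem hqB))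
      · have a1 : Commute s x := h.Bx s hs
        have a2 : Commute q x := h.Bx q hqB
        rw [ht]
        exact (((a1.mul_left a2).mul_left a1.inv_left).mul_left a2.inv_left).eq
      · have e5 : t * (y * (m * m')) = y * ((m * m') * t * (m * m')⁻¹) * (m * m') := by
          rw [← e3]; group
        rw [e5]; group
      · intro k hk
        have a1 : Commute s k := h.BN s hs k hk
        have a2 : Commute q k := h.BN q hqB k hk
        rw [ht]
        exact (((a1.mul_left a2).mul_left a1.inv_left).mul_left a2.inv_left).eq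
    have e6 : s * q * s⁻¹ * q⁻¹ = 1 := by rw [← ht]; exact ht1
    calc s * q = (s * q * s⁻¹ * q⁻¹) * (q * s) := by group
      _ = q * s := by rw [e6, one_mul]

end

/-! ### The largest normalised subgroup -/

/-- `U` is a subgroup of `Rs` normalised by `x`, `y`, `N` -/
def Inv (x : G) (Rs N : Subgroup G) (y : G) (U : Subgroup G) : Prop :=
  U ≤ Rs ∧ x ∈ normalizer (U : Set G) ∧ y ∈ normalizer (U : Set G) ∧ N ≤ normalizer (U : Set G)

/-- the largest one -/
noncomputable def II (x : G) (Rs N : Subgroup G) (y : G) : Subgroup G :=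
  sSup {U | Inv x Rs N y U}

theorem mem_norm_iff {z : G} {U : Subgroup G} :
    z ∈ normalizer (U : Set G) ↔ U.map (MulAut.conj z).toMonoidHom = U :=
  mem_normalizer_iff_map_conj_eq

theorem norm_sSup {z : G} {S : Set (Subgroup G)} (h : ∀ U ∈ S, z ∈ normalizer (U : Set G)) :
    z ∈ normalizer ((sSup S : Subgroup G) : Set G) := by
  rw [mem_norm_iff, sSup_eq_iSup, Subgroup.map_iSup]
  apply iSup_congr
  intro U
  rw [Subgroup.map_iSup]
  apply iSup_congr
  intro hU
  exact mem_norm_iff.1 (h U hU)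

theorem II_Inv (x : G) (Rs N : Subgroup G) (y : G) : Inv x Rs N y (II x Rs N y) := by
  refine ⟨sSup_le fun U hU => hU.1, norm_sSup fun U hU => hU.2.1, norm_sSup fun U hU => hU.2.2.1,
    fun n hn => norm_sSup fun U hU => hU.2.2.2 hn⟩

theorem le_II {x : G} {Rs N : Subgroup G} {y : G} {U : Subgroup G} (h : Inv x Rs N y U) :
    U ≤ II x Rs N y := le_sSup h

theorem Good_iff {x : G} {Rs N : Subgroup G} {y : G} : Good x Rs N y ↔ II x Rs N y = ⊥ := by
  constructor
  · intro h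
    obtain ⟨h1, h2, h3, h4⟩ := II_Inv x Rs N y
    exact h _ h1 h2 h3 h4
  · intro h U h1 h2 h3 h4
    exact le_bot_iff.1 (h ▸ le_II ⟨h1, h2, h3, h4⟩)

theorem norm_map {z p : G} {U : Subgroup G} (h : z ∈ normalizer (U : Set G)) :
    p * z * p⁻¹ ∈ normalizer ((U.map (MulAut.conj p).toMonoidHom : Subgroup G) : Set G) := by
  rw [mem_norm_iff] at h ⊢
  rw [map_map]
  conv_rhs => rw [← h, map_map]
  congr 1
  ext a
  simp only [MonoidHom.comp_apply, MulEquiv.coe_toMonoidHom, MulAut.conj_apply]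
  group

theorem norm_of_le {p : G} {U : Subgroup G} (h : U.map (MulAut.conj p).toMonoidHom ≤ U)
    (h' : U.map (MulAut.conj p⁻¹).toMonoidHom ≤ U) : p ∈ normalizer (U : Set G) := by
  rw [mem_norm_iff]
  apply le_antisymm h
  intro a ha
  refine ⟨p⁻¹ * a * p⁻¹⁻¹, ?_, ?_⟩
  · exact h' ⟨a, ha, rfl⟩
  · change p * (p⁻¹ * a * p⁻¹⁻¹) * p⁻¹ = a
    group

section
variable {x : G} {B Rs N : Subgroup G}

/-- **lemma I** -/
theorem Dat.I (h : Dat x B Rs N) {y : G} {V : Subgroup G} (hV : V ≤ B)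
    (hc : ∀ a ∈ V, ∀ b ∈ V, a * b = b * a) (W : ℕ → Set G) (n : ℕ) (hW0 : ∀ p ∈ W 0, p = 1)
    (hWV : ∀ i ≤ n, ∀ p ∈ W i, p ∈ V) (hWi : ∀ i ≤ n, ∀ p ∈ W i, p⁻¹ ∈ W i)
    (hW : ∀ i < n, ∀ p ∈ W (i + 1), y⁻¹ * p * y * p⁻¹ ∈ AA x (W i)) :
    ∀ i ≤ n, ∀ z ∈ AA x (V : Set G), ∀ m ∈ AA x (W i),
      II x Rs N (y * z) ≤ II x Rs N (y * z * m) := by
  intro i
  induction i with
  | zero =>
    rintro _ z hz m ⟨k, p, hp, rfl⟩
    rw [hW0 p hp, mul_one]
    obtain ⟨h1, h2, h3, h4⟩ := II_Inv x Rs N (y * z)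
    exact le_II ⟨h1, h2, Subgroup.mul_mem _ h3 (Subgroup.zpow_mem _ h2 k), h4⟩
  | succ i ih =>
    rintro hi z hz m ⟨k, p, hp, rfl⟩
    have ih' := ih (by omega)
    -- one inclusion for all elements of `W (i + 1)`
    have key : ∀ p ∈ W (i + 1),
        (II x Rs N (y * z)).map (MulAut.conj p).toMonoidHom ≤ II x Rs N (y * z) := by
      intro p hp
      have hpV := hWV (i + 1) hi p hp
      have hpB := hV hpV
      obtain ⟨m', hm'⟩ : ∃ m', m' = y⁻¹ * p * y * p⁻¹ := ⟨_, rfl⟩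
      have hm'W : m' ∈ AA x (W i) := by rw [hm']; exact hW i (by omega) p hp
      have hm'A : m' ∈ AA x (V : Set G) := AA_mono (hWV i (by omega)) hm'W
      have hm'i : m'⁻¹ ∈ AA x (W i) := by
        obtain ⟨j, r, hr, hjr⟩ := hm'W
        refine ⟨-j, r⁻¹, hWi i (by omega) r hr, ?_⟩
        rw [hjr, mul_inv_rev, ← zpow_neg,
          h.comm_zpow (hV (V.inv_mem (hWV i (by omega) r hr)))]
      have hpA : p ∈ AA x (V : Set G) := AA_of_mem hpV
      have c1 : p * z = z * p := h.AA_comm hV hc hpA hz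
      have c2 : m' * z = z * m' := h.AA_comm hV hc hm'A hz
      have e1 : p * (y * z) * p⁻¹ = y * z * m' := by
        have e2 : p * y = y * m' * p := by rw [hm']; group
        calc p * (y * z) * p⁻¹ = (p * y) * z * p⁻¹ := by group
          _ = y * m' * (p * z) * p⁻¹ := by rw [e2]; group
          _ = y * (m' * z) := by rw [c1]; group
          _ = _ := by rw [c2]; group
      obtain ⟨h1, h2, h3, h4⟩ := II_Inv x Rs N (y * z)
      have h5 : (II x Rs N (y * z)).map (MulAut.conj p).toMonoidHom ≤ II x Rs N (y * z * m') := by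
        apply le_II
        refine ⟨?_, ?_, ?_, ?_⟩
        · rintro _ ⟨a, ha, rfl⟩
          exact Rs.mul_mem (Rs.mul_mem (h.BR hpB) (h1 ha)) (Rs.inv_mem (h.BR hpB))
        · have := norm_map (p := p) h2
          rwa [h.Bx p hpB, mul_inv_cancel_right] at this
        · have := norm_map (p := p) h3
          rwa [e1] at this
        · intro a ha
          have := norm_map (p := p) (h4 ha)
          rwa [h.BN p hpB a ha, mul_inv_cancel_right] at this
      have h6 := ih' (z * m') (h.AA_mul hV hz hm'A) m'⁻¹ hm'i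
      rw [← mul_assoc, mul_inv_cancel_right] at h6
      exact h5.trans h6
    have h7 : p ∈ normalizer ((II x Rs N (y * z) : Subgroup G) : Set G) :=
      norm_of_le (key p hp) (key p⁻¹ (hWi (i + 1) hi p hp))
    obtain ⟨h1, h2, h3, h4⟩ := II_Inv x Rs N (y * z)
    exact le_II ⟨h1, h2, Subgroup.mul_mem _ h3 (Subgroup.mul_mem _ (Subgroup.zpow_mem _ h2 k) h7),
      h4⟩


theorem Qs_mono_succ (x : G) (B : Subgroup G) (y : G) (i : ℕ) :
    Qs x (B : Set G) y i ⊆ Qs x (B : Set G) y (i + 1) := by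
  induction i with
  | zero =>
    intro q hq
    have hq1 : q = 1 := hq
    subst hq1
    refine ⟨B.one_mem, 0, 1, rfl, ?_⟩
    simp
  | succ i ih =>
    rintro q ⟨hq, hq'⟩
    exact ⟨hq, AA_mono ih hq'⟩

theorem Qs_mono (x : G) (B : Subgroup G) (y : G) {i j : ℕ} (hij : i ≤ j) :
    Qs x (B : Set G) y i ⊆ Qs x (B : Set G) y j := by
  induction j, hij using Nat.le_induction with
  | base => exact subset_rfl
  | succ j _ ih => exact ih.trans (Qs_mono_succ x B y j)

/-- the good subgroups -/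
structure Adm (x : G) (B Rs N : Subgroup G) (y : G) (V : Subgroup G) : Prop where
  le : V ≤ B
  comm : ∀ a ∈ V, ∀ b ∈ V, a * b = b * a
  good : ∀ p ∈ AA x (V : Set G), Good x Rs N (y * p)

theorem Good.mul_zpow {y : G} (hG : Good x Rs N y) (j : ℤ) : Good x Rs N (y * x ^ j) := by
  intro U h1 h2 h3 h4
  apply hG U h1 h2 _ h4
  have := Subgroup.mul_mem _ h3 (Subgroup.zpow_mem _ h2 (-j))
  rwa [mul_assoc, ← zpow_add, add_neg_cancel, zpow_zero, mul_one] at this

/-- the chain consists of good subgroups -/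
theorem Dat.chain (h : Dat x B Rs N) {y : G} (hG : Good x Rs N y) (n : ℕ) :
    ∀ i ≤ n, ∃ V : Subgroup G, (V : Set G) = Qs x (B : Set G) y i ∧ Adm x B Rs N y V := by
  induction n with
  | zero =>
    intro i hi
    have hi0 : i = 0 := by omega
    subst hi0
    refine ⟨⊥, rfl, bot_le, ?_, ?_⟩
    · intro a ha b hb
      rw [mem_bot.1 ha, mem_bot.1 hb]
    · rintro p ⟨j, q, hq, rfl⟩
      rw [mem_bot.1 hq, mul_one]
      exact hG.mul_zpow j
  | succ n ih =>
    intro i hi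
    rcases Nat.lt_or_ge i (n + 1) with hlt | hge
    · exact ih i (by omega)
    have hin : i = n + 1 := by omega
    subst hin
    obtain ⟨V, hVQ, hVB, hVc, hVg⟩ := ih n le_rfl
    -- the elements of the next step commute with `V`
    have hcom : ∀ s ∈ B, y⁻¹ * s * y * s⁻¹ ∈ AA x (V : Set G) → ∀ q ∈ V, s * q = q * s := by
      intro s hs hsy q hq
      refine h.C hVB hVc hVg (fun j => Qs x (B : Set G) y j) n (fun p hp => hp) ?_ ?_ hs hsy n
        le_rfl q ?_
      · intro j hj p hp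
        rw [← SetLike.mem_coe, hVQ]
        exact Qs_mono x B y hj hp
      · intro j _ p hp
        exact hp.2
      · rw [← SetLike.mem_coe, hVQ] at hq
        exact hq
    obtain ⟨V', hV'⟩ : ∃ V' : Subgroup G, (V' : Set G) = Qs x (B : Set G) y (n + 1) := by
      refine ⟨{
        carrier := Qs x (B : Set G) y (n + 1)
        mul_mem' := ?_
        one_mem' := ?_
        inv_mem' := ?_ }, rfl⟩
      · rintro a b ⟨ha, ha'⟩ ⟨hb, hb'⟩
        rw [← hVQ] at ha' hb'
        refine ⟨B.mul_mem ha hb, ?_⟩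
        rw [← hVQ]
        have e1 : y⁻¹ * (a * b) * y * (a * b)⁻¹ =
            (y⁻¹ * a * y * a⁻¹) * (a * (y⁻¹ * b * y * b⁻¹) * a⁻¹) := by group
        have e2 : a * (y⁻¹ * b * y * b⁻¹) = (y⁻¹ * b * y * b⁻¹) * a :=
          h.comm_AA ha (hcom a ha ha') hb'
        rw [e1, e2, mul_inv_cancel_right]
        exact h.AA_mul hVB ha' hb'
      · exact Qs_mono_succ x B y n (by rw [← hVQ]; exact V.one_mem)
      · rintro a ⟨ha, ha'⟩
        rw [← hVQ] at ha'
        refine ⟨B.inv_mem ha, ?_⟩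
        rw [← hVQ]
        have e1 : y⁻¹ * a⁻¹ * y * (a⁻¹)⁻¹ = a⁻¹ * (y⁻¹ * a * y * a⁻¹)⁻¹ * a := by group
        have e2 : a * (y⁻¹ * a * y * a⁻¹)⁻¹ = (y⁻¹ * a * y * a⁻¹)⁻¹ * a :=
          h.comm_AA ha (hcom a ha ha') (h.AA_inv hVB ha')
        have e3 : a⁻¹ * (y⁻¹ * a * y * a⁻¹)⁻¹ * a = (y⁻¹ * a * y * a⁻¹)⁻¹ := by
          rw [mul_assoc, ← e2, inv_mul_cancel_left]
        rw [e1, e3]
        exact h.AA_inv hVB ha'
    have hmem : ∀ q, q ∈ V' ↔ q ∈ B ∧ y⁻¹ * q * y * q⁻¹ ∈ AA x (V : Set G) := by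
      intro q
      rw [← SetLike.mem_coe, hV', hVQ]
      exact Iff.rfl
    have hV'B : V' ≤ B := fun q hq => ((hmem q).1 hq).1
    have hVV' : V ≤ V' := by
      intro q hq
      rw [← SetLike.mem_coe, hV']
      rw [← SetLike.mem_coe, hVQ] at hq
      exact Qs_mono_succ x B y n hq
    have hV'c : ∀ a ∈ V', ∀ b ∈ V', a * b = b * a := by
      intro s hs s' hs'
      obtain ⟨hsB, hsy⟩ := (hmem s).1 hs
      obtain ⟨hsB', hsy'⟩ := (hmem s').1 hs'
      obtain ⟨m, hm⟩ : ∃ m, m = y⁻¹ * s * y * s⁻¹ := ⟨_, rfl⟩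
      obtain ⟨m', hm'⟩ : ∃ m', m' = y⁻¹ * s' * y * s'⁻¹ := ⟨_, rfl⟩
      rw [← hm] at hsy
      rw [← hm'] at hsy'
      have c1 : Commute s m' := h.comm_AA hsB (hcom s hsB (by rw [← hm]; exact hsy)) hsy'
      have c2 : Commute s' m := h.comm_AA hsB' (hcom s' hsB' (by rw [← hm']; exact hsy')) hsy
      have c3 : Commute m m' := h.AA_comm hVB hVc hsy hsy'
      have e1 : y⁻¹ * s * y = m * s := by rw [hm]; group
      have e2 : y⁻¹ * s' * y = m' * s' := by rw [hm']; group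
      obtain ⟨t, ht⟩ : ∃ t, t = s * s' * s⁻¹ * s'⁻¹ := ⟨_, rfl⟩
      have e3 : y⁻¹ * t * y = t := by
        have e4 : y⁻¹ * t * y = (y⁻¹ * s * y) * (y⁻¹ * s' * y) * (y⁻¹ * s * y)⁻¹ *
            (y⁻¹ * s' * y)⁻¹ := by rw [ht]; group
        rw [e4, e1, e2, ht]
        calc m * s * (m' * s') * (m * s)⁻¹ * (m' * s')⁻¹
            = m * (s * m') * s' * s⁻¹ * (m⁻¹ * s'⁻¹) * m'⁻¹ := by group
          _ = m * (m' * s) * s' * s⁻¹ * (s'⁻¹ * m⁻¹) * m'⁻¹ := by
              rw [c1.eq, c2.inv_inv.symm.eq]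
          _ = (m * m') * (s * s' * s⁻¹ * s'⁻¹) * (m' * m)⁻¹ := by group
          _ = (m * m') * (s * s' * s⁻¹ * s'⁻¹) * (m * m')⁻¹ := by rw [c3.eq]
          _ = s * s' * s⁻¹ * s'⁻¹ := by
              have c4 : Commute (m * m') (s * s' * s⁻¹ * s'⁻¹) := by
                have d1 : Commute m s := (h.comm_AA hsB (hcom s hsB (by rw [← hm]; exact hsy))
                  hsy).symm
                have d2 : Commute m' s' := (h.comm_AA hsB'
                  (hcom s' hsB' (by rw [← hm']; exact hsy')) hsy').symm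
                have d3 : Commute m s' := c2.symm
                have d4 : Commute m' s := c1.symm
                exact ((((d1.mul_left d4).mul_right (d3.mul_left d2)).mul_right
                  (d1.mul_left d4).inv_right).mul_right (d3.mul_left d2).inv_right)
              rw [c4.eq, mul_inv_cancel_right]
      have ht1 : t = 1 := by
        apply hG.eq_one
        · rw [ht]
          exact h.BR (B.mul_mem (B.mul_mem (B.mul_mem hsB hsB') (B.inv_mem hsB)) (B.inv_mem hsB'))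
        · have a1 : Commute s x := h.Bx s hsB
          have a2 : Commute s' x := h.Bx s' hsB'
          rw [ht]
          exact (((a1.mul_left a2).mul_left a1.inv_left).mul_left a2.inv_left).eq
        · calc t * y = y * (y⁻¹ * t * y) := by group
            _ = y * t := by rw [e3]
        · intro k hk
          have a1 : Commute s k := h.BN s hsB k hk
          have a2 : Commute s' k := h.BN s' hsB' k hk
          rw [ht]
          exact (((a1.mul_left a2).mul_left a1.inv_left).mul_left a2.inv_left).eq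
      have e6 : s * s' * s⁻¹ * s'⁻¹ = 1 := by rw [← ht]; exact ht1
      calc s * s' = (s * s' * s⁻¹ * s'⁻¹) * (s' * s) := by group
        _ = s' * s := by rw [e6, one_mul]
    refine ⟨V', hV', hV'B, hV'c, ?_⟩
    -- good
    intro p hp
    rw [Good_iff, eq_bot_iff]
    have hI := h.I (y := y) hV'B hV'c (fun j => Qs x (B : Set G) y j) (n + 1) (fun p hp => hp)
      (fun j hj p hp => by
        rw [← SetLike.mem_coe, hV']
        exact Qs_mono x B y hj hp)
      (fun j hj p hp => by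
        rcases Nat.lt_or_ge j (n + 1) with hlt | hge
        · obtain ⟨W, hW, _⟩ := ih j (by omega)
          rw [← hW] at hp ⊢
          exact W.inv_mem hp
        · have hj1 : j = n + 1 := by omega
          subst hj1
          change p ∈ Qs x (B : Set G) y (n + 1) at hp
          change p⁻¹ ∈ Qs x (B : Set G) y (n + 1)
          rw [← hV'] at hp ⊢
          exact V'.inv_mem hp)
      (fun j _ p hp => hp.2) (n + 1) le_rfl p hp p⁻¹ (by
        have := h.AA_inv hV'B hp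
        rwa [hV'] at this)
    rw [mul_assoc, mul_inv_cancel, mul_one] at hI
    have h1 := Good_iff.1 hG
    rw [h1] at hI
    exact hI


/-- the union of the chain -/
theorem Dat.union (h : Dat x B Rs N) {y : G} (hG : Good x Rs N y) :
    ∃ Q : Subgroup G, (Q : Set G) = Qf x (B : Set G) y ∧ Adm x B Rs N y Q ∧
      (∀ i, Qs x (B : Set G) y i ⊆ Q) ∧
      (∀ q ∈ Q, y⁻¹ * q * y * q⁻¹ ∈ AA x (Q : Set G)) ∧
      ∀ q ∈ B, y⁻¹ * q * y * q⁻¹ ∈ AA x (Q : Set G) → q ∈ Q := by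
  have hex : ∀ i, ∃ V : Subgroup G, (V : Set G) = Qs x (B : Set G) y i ∧ Adm x B Rs N y V :=
    fun i => h.chain hG i i le_rfl
  obtain ⟨Q, hQ⟩ : ∃ Q : Subgroup G, (Q : Set G) = Qf x (B : Set G) y := by
    refine ⟨{
      carrier := Qf x (B : Set G) y
      mul_mem' := ?_
      one_mem' := ?_
      inv_mem' := ?_ }, rfl⟩
    · intro a b ha hb
      obtain ⟨i, hi⟩ := Set.mem_iUnion.1 ha
      obtain ⟨j, hj⟩ := Set.mem_iUnion.1 hb
      obtain ⟨V, hV, _⟩ := hex (max i j)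
      apply Set.mem_iUnion.2
      refine ⟨max i j, ?_⟩
      have h1 := Qs_mono x B y (le_max_left i j) hi
      have h2 := Qs_mono x B y (le_max_right i j) hj
      rw [← hV] at h1 h2 ⊢
      exact V.mul_mem h1 h2
    · exact Set.mem_iUnion.2 ⟨0, rfl⟩
    · intro a ha
      obtain ⟨i, hi⟩ := Set.mem_iUnion.1 ha
      obtain ⟨V, hV, _⟩ := hex i
      apply Set.mem_iUnion.2
      refine ⟨i, ?_⟩
      rw [← hV] at hi ⊢
      exact V.inv_mem hi
  have hmem : ∀ q, q ∈ Q ↔ ∃ i, q ∈ Qs x (B : Set G) y i := by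
    intro q
    rw [← SetLike.mem_coe, hQ]
    exact Set.mem_iUnion
  have hsub : ∀ i, Qs x (B : Set G) y i ⊆ Q := fun i q hq => (hmem q).2 ⟨i, hq⟩
  refine ⟨Q, hQ, ⟨?_, ?_, ?_⟩, hsub, ?_, ?_⟩
  · intro q hq
    obtain ⟨i, hi⟩ := (hmem q).1 hq
    obtain ⟨V, hV, hA⟩ := hex i
    rw [← hV] at hi
    exact hA.le hi
  · intro a ha b hb
    obtain ⟨i, hi⟩ := (hmem a).1 ha
    obtain ⟨j, hj⟩ := (hmem b).1 hb
    obtain ⟨V, hV, hA⟩ := hex (max i j)
    have h1 := Qs_mono x B y (le_max_left i j) hi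
    have h2 := Qs_mono x B y (le_max_right i j) hj
    rw [← hV] at h1 h2
    exact hA.comm a h1 b h2
  · rintro p ⟨j, q, hq, rfl⟩
    obtain ⟨i, hi⟩ := (hmem q).1 hq
    obtain ⟨V, hV, hA⟩ := hex i
    rw [← hV] at hi
    exact hA.good _ ⟨j, q, hi, rfl⟩
  · intro q hq
    obtain ⟨i, hi⟩ := (hmem q).1 hq
    have h1 := Qs_mono_succ x B y i hi
    exact AA_mono (hsub i) h1.2
  · rintro q hqB ⟨j, p, hp, hjp⟩
    obtain ⟨i, hi⟩ := (hmem p).1 hp
    exact (hmem q).2 ⟨i + 1, hqB, j, p, hi, hjp⟩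

theorem phi_eq {y q m : G} (h1 : q * m = m * q)
    (h2 : (y⁻¹ * q * y * q⁻¹) * m = m * (y⁻¹ * q * y * q⁻¹)) :
    (y * m)⁻¹ * q * (y * m) * q⁻¹ = y⁻¹ * q * y * q⁻¹ := by
  obtain ⟨n, hn⟩ : ∃ n, n = y⁻¹ * q * y * q⁻¹ := ⟨_, rfl⟩
  have e1 : y⁻¹ * q * y = n * q := by rw [hn]; group
  rw [← hn] at h2 ⊢
  calc (y * m)⁻¹ * q * (y * m) * q⁻¹ = m⁻¹ * (y⁻¹ * q * y) * m * q⁻¹ := by group
    _ = m⁻¹ * n * (q * m) * q⁻¹ := by rw [e1]; group
    _ = m⁻¹ * (n * m) := by rw [h1]; group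
    _ = n := by rw [h2]; group

theorem phi_eq' {y q m : G} (h1 : q * m = m * q)
    (h2 : ((y * m)⁻¹ * q * (y * m) * q⁻¹) * m = m * ((y * m)⁻¹ * q * (y * m) * q⁻¹)) :
    y⁻¹ * q * y * q⁻¹ = (y * m)⁻¹ * q * (y * m) * q⁻¹ := by
  have h3 : q * m⁻¹ = m⁻¹ * q := (Commute.inv_right (show Commute q m from h1)).eq
  have h4 : ((y * m)⁻¹ * q * (y * m) * q⁻¹) * m⁻¹ = m⁻¹ * ((y * m)⁻¹ * q * (y * m) * q⁻¹) :=
    (Commute.inv_right (show Commute _ m from h2)).eq
  have h5 := phi_eq (y := y * m) (q := q) (m := m⁻¹) h3 h4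
  rwa [mul_inv_cancel_right] at h5

/-- the elements which move `y m` inside `y ⟨x⟩ Q` -/
theorem Dat.key (h : Dat x B Rs N) {y : G} {Q : Subgroup G} (hA : Adm x B Rs N y Q)
    (hQ : (Q : Set G) = Qf x (B : Set G) y) (hsub : ∀ i, Qs x (B : Set G) y i ⊆ Q)
    (hcl : ∀ q ∈ B, y⁻¹ * q * y * q⁻¹ ∈ AA x (Q : Set G) → q ∈ Q) {m : G}
    (hm : m ∈ AA x (Q : Set G)) {r : G} (hr : r ∈ B)
    (hrm : (y * m)⁻¹ * r * (y * m) * r⁻¹ ∈ AA x (Q : Set G)) :
    (∀ p ∈ AA x (Q : Set G), r * p = p * r) ∧ r ∈ Q ∧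
      y⁻¹ * r * y * r⁻¹ = (y * m)⁻¹ * r * (y * m) * r⁻¹ := by
  have hrQ : ∀ q ∈ Q, r * q = q * r := by
    intro q hq
    have hq' : q ∈ Qf x (B : Set G) y := by rw [← hQ]; exact hq
    obtain ⟨i, hi⟩ := Set.mem_iUnion.1 hq'
    refine h.C hA.le hA.comm (y := y * m) ?_ (fun j => Qs x (B : Set G) y j) i (fun p hp => hp)
      (fun j _ p hp => hsub j hp) ?_ hr hrm i le_rfl q hi
    · intro p hp
      rw [mul_assoc]
      exact hA.good _ (h.AA_mul hA.le hm hp)
    · intro j _ p hp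
      have hpQ : p ∈ Q := hsub (j + 1) hp
      have h1 : y⁻¹ * p * y * p⁻¹ ∈ AA x (Qs x (B : Set G) y j) := hp.2
      rw [phi_eq (h.AA_comm hA.le hA.comm (AA_of_mem hpQ) hm)
        (h.AA_comm hA.le hA.comm (AA_mono (hsub j) h1) hm)]
      exact h1
  have hrA : ∀ p ∈ AA x (Q : Set G), r * p = p * r := fun p hp => h.comm_AA hr hrQ hp
  have e1 := phi_eq' (y := y) (hrA m hm) (h.AA_comm hA.le hA.comm hrm hm)
  refine ⟨hrA, hcl r hr ?_, e1⟩
  rw [e1]
  exact hrm

/-- the chain does not change -/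
theorem Dat.same (h : Dat x B Rs N) {y : G} {Q : Subgroup G} (hA : Adm x B Rs N y Q)
    (hQ : (Q : Set G) = Qf x (B : Set G) y) (hsub : ∀ i, Qs x (B : Set G) y i ⊆ Q)
    (hcl : ∀ q ∈ B, y⁻¹ * q * y * q⁻¹ ∈ AA x (Q : Set G) → q ∈ Q) {m : G}
    (hm : m ∈ AA x (Q : Set G)) (i : ℕ) :
    Qs x (B : Set G) (y * m) i = Qs x (B : Set G) y i := by
  induction i with
  | zero => rfl
  | succ i ih =>
    ext q
    constructor
    · rintro ⟨hq, hq'⟩
      rw [ih] at hq'
      obtain ⟨_, _, h3⟩ := h.key hA hQ hsub hcl hm hq (AA_mono (hsub i) hq')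
      refine ⟨hq, ?_⟩
      rw [h3]
      exact hq'
    · intro hq
      have hqQ : q ∈ Q := hsub (i + 1) hq
      refine ⟨hq.1, ?_⟩
      rw [ih, phi_eq (h.AA_comm hA.le hA.comm (AA_of_mem hqQ) hm)
        (h.AA_comm hA.le hA.comm (AA_mono (hsub i) hq.2) hm)]
      exact hq.2

theorem Dat.same' (h : Dat x B Rs N) {y : G} {Q : Subgroup G} (hA : Adm x B Rs N y Q)
    (hQ : (Q : Set G) = Qf x (B : Set G) y) (hsub : ∀ i, Qs x (B : Set G) y i ⊆ Q)
    (hcl : ∀ q ∈ B, y⁻¹ * q * y * q⁻¹ ∈ AA x (Q : Set G) → q ∈ Q) {m : G}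
    (hm : m ∈ AA x (Q : Set G)) : Qf x (B : Set G) (y * m) = Qf x (B : Set G) y := by
  unfold Qf
  apply Set.iUnion_congr
  intro i
  exact h.same hA hQ hsub hcl hm i

end

/-! ### Conjugation -/

section conj

theorem AA_conj (r x : G) (W : Set G) (z : G) :
    z ∈ AA (r * x * r⁻¹) {q | r⁻¹ * q * r ∈ W} ↔ r⁻¹ * z * r ∈ AA x W := by
  constructor
  · rintro ⟨j, p, hp, rfl⟩
    refine ⟨j, r⁻¹ * p * r, hp, ?_⟩
    rw [conj_zpow]
    group
  · rintro ⟨j, p, hp, hz⟩
    refine ⟨j, r * p * r⁻¹, ?_, ?_⟩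
    · change r⁻¹ * (r * p * r⁻¹) * r ∈ W
      have e : r⁻¹ * (r * p * r⁻¹) * r = p := by group
      rw [e]
      exact hp
    · rw [conj_zpow]
      calc z = r * (r⁻¹ * z * r) * r⁻¹ := by group
        _ = r * (x ^ j * p) * r⁻¹ := by rw [hz]
        _ = _ := by group

theorem Qs_conj (r x y : G) (B : Set G) (i : ℕ) :
    Qs (r * x * r⁻¹) {q | r⁻¹ * q * r ∈ B} (r * y * r⁻¹) i = {q | r⁻¹ * q * r ∈ Qs x B y i} := by
  induction i with
  | zero =>
    ext q
    constructor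
    · intro hq
      have hq1 : q = 1 := hq
      subst hq1
      change r⁻¹ * 1 * r = 1
      group
    · intro hq
      have hq1 : r⁻¹ * q * r = 1 := hq
      change q = 1
      calc q = r * (r⁻¹ * q * r) * r⁻¹ := by group
        _ = 1 := by rw [hq1]; group
  | succ i ih =>
    ext q
    change (r⁻¹ * q * r ∈ B ∧ (r * y * r⁻¹)⁻¹ * q * (r * y * r⁻¹) * q⁻¹ ∈
      AA (r * x * r⁻¹) (Qs (r * x * r⁻¹) {q | r⁻¹ * q * r ∈ B} (r * y * r⁻¹) i)) ↔
      (r⁻¹ * q * r ∈ B ∧ y⁻¹ * (r⁻¹ * q * r) * y * (r⁻¹ * q * r)⁻¹ ∈ AA x (Qs x B y i))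
    rw [ih, AA_conj]
    have e : r⁻¹ * ((r * y * r⁻¹)⁻¹ * q * (r * y * r⁻¹) * q⁻¹) * r =
        y⁻¹ * (r⁻¹ * q * r) * y * (r⁻¹ * q * r)⁻¹ := by group
    rw [e]

theorem Qf_conj (r x y : G) (B : Set G) :
    Qf (r * x * r⁻¹) {q | r⁻¹ * q * r ∈ B} (r * y * r⁻¹) = {q | r⁻¹ * q * r ∈ Qf x B y} := by
  ext q
  unfold Qf
  rw [Set.mem_iUnion]
  change _ ↔ r⁻¹ * q * r ∈ ⋃ i, Qs x B y i
  rw [Set.mem_iUnion]
  apply exists_congr
  intro i
  rw [Qs_conj]
  exact Iff.rfl

end conj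

end Pool.Agent.H98BT
end -- Pool.Agent.Helper98_BT.Loc

section -- Pool.Agent.Helper24_ML.Core

/-!
# Squad ML, stage 2 (helper24): the transfer of `a₁` is trivial (the core), with punctures
-/

open scoped BigOperators

set_option linter.unusedSectionVars false

noncomputable section

namespace Pool.Agent.Helper24Core

open Pool.Agent.PP.ML Pool.Agent.PP.ML.H24 Pool.Agent.Helper71_ML Pool.Agent.PP.ML.H71
open Pool.Agent.H98BT

section

variable {G X : Type} [Group G] [MulAction G X] (R : Subgroup G)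

/-- the elements of `R` which fix `s` -/
def RS (w : X × G × G × List G) : Subgroup G := R ⊓ MulAction.stabilizer G w.1

/-- the group generated by the list -/
def NN (w : X × G × G × List G) : Subgroup G := Subgroup.closure {z | z ∈ w.2.2.2}

/-- the elements of `R` which fix `s` and commute with `x` and with the members of `l` -/
def BB (w : X × G × G × List G) : Subgroup G :=
  RS R w ⊓ Subgroup.centralizer {z | z = w.2.1 ∨ z ∈ w.2.2.2}

/-- `y` is multiplied by `m` -/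
def rml (w : X × G × G × List G) (m : G) : X × G × G × List G :=
  (w.1, w.2.1, w.2.2.1 * m, w.2.2.2)

/-- the set `⟨x⟩ Q` -/
def MM (w : X × G × G × List G) : Set G :=
  AA w.2.1 (Qf w.2.1 (BB R w : Set G) w.2.2.1)

variable {R} {g : G} {Cs : List (Set G)} {w : X × G × G × List G}

theorem mem_RS {q : G} : q ∈ RS R w ↔ q ∈ R ∧ q • w.1 = w.1 := Iff.rfl

theorem mem_BB {q : G} : q ∈ BB R w ↔
    q ∈ R ∧ q • w.1 = w.1 ∧ q * w.2.1 = w.2.1 * q ∧ ∀ z ∈ w.2.2.2, q * z = z * q := by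
  unfold BB
  rw [Subgroup.mem_inf, mem_RS, Subgroup.mem_centralizer_iff]
  constructor
  · rintro ⟨⟨h1, h2⟩, h3⟩
    exact ⟨h1, h2, (h3 _ (Or.inl rfl)).symm, fun z hz => (h3 z (Or.inr hz)).symm⟩
  · rintro ⟨h1, h2, h3, h4⟩
    refine ⟨⟨h1, h2⟩, ?_⟩
    rintro z (rfl | hz)
    · exact h3.symm
    · exact (h4 z hz).symm

theorem datL : Dat w.2.1 (BB R w) (RS R w) (NN w) := by
  refine ⟨inf_le_left, fun q hq => (mem_BB.1 hq).2.2.1, fun q hq n hn => ?_⟩
  have h1 : NN w ≤ Subgroup.centralizer {q} := by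
    refine (Subgroup.closure_le _).2 fun z hz => ?_
    exact Subgroup.mem_centralizer_singleton_iff.2 ((mem_BB.1 hq).2.2.2 z hz).symm
  exact (Subgroup.mem_centralizer_singleton_iff.1 (h1 hn)).symm

theorem goodL (hw : InOmL R g Cs w) : Good w.2.1 (RS R w) (NN w) w.2.2.1 := by
  intro U hU hx hy hN
  refine hw.tr U (fun u hu => (hU hu).1) (fun u hu => (hU hu).2) ?_ ?_ ?_
  · intro u hu
    exact (Subgroup.mem_normalizer_iff.1 hx u).1 hu
  · intro u hu
    exact (Subgroup.mem_normalizer_iff.1 hy u).1 hu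
  · intro z hz u hu
    exact (Subgroup.mem_normalizer_iff.1 (hN (Subgroup.subset_closure hz)) u).1 hu

theorem cl_fix {r : G} {l : List G} (h : l = cl r l) : ∀ z ∈ l, r * z = z * r := by
  induction l with
  | nil => intro z hz; simp at hz
  | cons a l ih =>
    have h1 : a :: l = (r * a * r⁻¹) :: cl r l := h
    have h2 : a = r * a * r⁻¹ := (List.cons.inj h1).1
    have h3 : l = cl r l := (List.cons.inj h1).2
    intro z hz
    rcases List.mem_cons.1 hz with rfl | hz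
    · calc r * z = (r * z * r⁻¹) * r := by group
        _ = z * r := by rw [← h2]
    · exact ih h3 z hz

theorem cl_eq {r : G} {l : List G} (h : ∀ z ∈ l, r * z = z * r) : cl r l = l := by
  unfold cl
  conv_rhs => rw [← List.map_id l]
  apply List.map_congr_left
  intro z hz
  rw [h z hz, mul_inv_cancel_right]
  rfl

theorem rml_rml (a b : G) (w : X × G × G × List G) : rml (rml w a) b = rml w (a * b) := by
  unfold rml
  simp only [mul_assoc]

theorem rml_one (w : X × G × G × List G) : rml w (1 : G) = w := by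
  unfold rml
  rw [mul_one]

/-- from an equality of tuples -/
theorem eq_ofL {r m m' : G} (hr : r ∈ R) (h : rml w m' = cjl r (rml w m)) :
    r ∈ BB R w ∧ (w.2.2.1 * m)⁻¹ * r * (w.2.2.1 * m) * r⁻¹ = m⁻¹ * m' := by
  have h1 : w.1 = r • w.1 := congrArg Prod.fst h
  have h2 : w.2.1 = r * w.2.1 * r⁻¹ := congrArg (fun z => z.2.1) h
  have h3 : w.2.2.1 * m' = r * (w.2.2.1 * m) * r⁻¹ := congrArg (fun z => z.2.2.1) h
  have h4 : w.2.2.2 = cl r w.2.2.2 := congrArg (fun z => z.2.2.2) h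
  refine ⟨mem_BB.2 ⟨hr, h1.symm, ?_, cl_fix h4⟩, ?_⟩
  · calc r * w.2.1 = (r * w.2.1 * r⁻¹) * r := by group
      _ = w.2.1 * r := by rw [← h2]
  · calc (w.2.2.1 * m)⁻¹ * r * (w.2.2.1 * m) * r⁻¹ = m⁻¹ * w.2.2.1⁻¹ * (r * (w.2.2.1 * m) * r⁻¹) := by
          group
      _ = m⁻¹ * w.2.2.1⁻¹ * (w.2.2.1 * m') := by rw [h3]
      _ = _ := by group

end

section fin

variable {G X : Type} [Group G] [Finite G] [MulAction G X] {R : Subgroup G} {g : G}
  {Cs : List (Set G)} {w : X × G × G × List G}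

theorem mem_norm' {V : Subgroup G} {a : G} (h : ∀ u ∈ V, a * u * a⁻¹ ∈ V) :
    a ∈ Subgroup.normalizer (V : Set G) := by
  rw [Subgroup.mem_normalizer_iff]
  intro u
  refine ⟨h u, fun hu => ?_⟩
  have h1 := conj_inv_mem V a h _ hu
  have e : a⁻¹ * (a * u * a⁻¹) * a = u := by group
  rwa [e] at h1

/-- everything about the group `Q` of a tuple -/
theorem unionL (hw : InOmL R g Cs w) : ∃ Q : Subgroup G,
    (Q : Set G) = Qf w.2.1 (BB R w : Set G) w.2.2.1 ∧
    Adm w.2.1 (BB R w) (RS R w) (NN w) w.2.2.1 Q ∧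
    (∀ i, Qs w.2.1 (BB R w : Set G) w.2.2.1 i ⊆ Q) ∧
    (∀ q ∈ Q, w.2.2.1⁻¹ * q * w.2.2.1 * q⁻¹ ∈ AA w.2.1 (Q : Set G)) ∧
    ∀ q ∈ BB R w, w.2.2.1⁻¹ * q * w.2.2.1 * q⁻¹ ∈ AA w.2.1 (Q : Set G) → q ∈ Q :=
  datL.union (goodL hw)

theorem inOmL_rml (hw : InOmL R g Cs w) {Q : Subgroup G}
    (hA : Adm w.2.1 (BB R w) (RS R w) (NN w) w.2.2.1 Q) {m : G}
    (hm : m ∈ AA w.2.1 (Q : Set G)) : InOmL R g Cs (rml w m) := by
  have hms : m • w.1 = w.1 := by
    obtain ⟨j, p, hp, rfl⟩ := hm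
    have h1 : p • w.1 = w.1 := (mem_BB.1 (hA.le hp)).2.1
    have h2 : w.2.1 ∈ MulAction.stabilizer G w.1 := MulAction.mem_stabilizer_iff.2 hw.sx
    have h3 := MulAction.mem_stabilizer_iff.1 (Subgroup.zpow_mem _ h2 j)
    rw [mul_smul, h1, h3]
  have hmx : m * w.2.1 = w.2.1 * m :=
    datL.AA_comm hA.le hA.comm hm ⟨1, 1, Q.one_mem, by simp⟩
  refine ⟨hw.sx, ?_, hw.sl, hw.ml, ?_, ?_⟩
  · show (w.2.2.1 * m) • w.1 = w.1
    rw [mul_smul, hms, hw.sy]
  · show w.2.1 * (w.2.2.1 * m) * w.2.1⁻¹ * (w.2.2.1 * m)⁻¹ = g * w.2.2.2.prod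
    rw [← hw.cm]
    have h1 : m * w.2.1⁻¹ = w.2.1⁻¹ * m :=
      (Commute.inv_right (show Commute m w.2.1 from hmx)).eq
    calc w.2.1 * (w.2.2.1 * m) * w.2.1⁻¹ * (w.2.2.1 * m)⁻¹ =
        w.2.1 * w.2.2.1 * (m * w.2.1⁻¹) * m⁻¹ * w.2.2.1⁻¹ := by group
      _ = w.2.1 * w.2.2.1 * (w.2.1⁻¹ * m) * m⁻¹ * w.2.2.1⁻¹ := by rw [h1]
      _ = _ := by group
  · intro U hU hf hx hy hl
    exact hA.good m hm U (fun u hu => ⟨hU hu, hf u hu⟩) (mem_norm' hx) (mem_norm' hy)
      ((Subgroup.closure_le _).2 fun z hz => mem_norm' (hl z hz))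

/-- the group `⟨x⟩ Q` -/
theorem exists_MG (hw : InOmL R g Cs w) : ∃ (Q M : Subgroup G), (M : Set G) = MM R w ∧
    (∀ a ∈ M, ∀ b ∈ M, a * b = b * a) ∧ Q ≤ M ∧ Q ≤ BB R w ∧
    (∀ m ∈ M, InOmL R g Cs (rml w m)) ∧ (∀ m ∈ M, MM R (rml w m) = MM R w) ∧
    (∀ q ∈ Q, w.2.2.1⁻¹ * q * w.2.2.1 * q⁻¹ ∈ M) ∧
    ∀ m ∈ M, ∀ m' ∈ M, ∀ r ∈ R, rml w m' = cjl r (rml w m) →
      (∀ p ∈ M, r * p = p * r) ∧ r ∈ Q ∧ w.2.2.1⁻¹ * r * w.2.2.1 * r⁻¹ = m⁻¹ * m' := by
  obtain ⟨Q, hQ, hA, hsub, hcl1, hcl⟩ := unionL hw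
  have hMM : MM R w = AA w.2.1 (Q : Set G) := by
    unfold MM
    rw [hQ]
  have hdat : Dat w.2.1 (BB R w) (RS R w) (NN w) := datL
  obtain ⟨M, hM⟩ : ∃ M : Subgroup G, (M : Set G) = AA w.2.1 (Q : Set G) :=
    ⟨{ carrier := AA w.2.1 (Q : Set G)
       one_mem' := ⟨0, 1, Q.one_mem, by simp⟩
       mul_mem' := fun ha hb => hdat.AA_mul hA.le ha hb
       inv_mem' := fun ha => hdat.AA_inv hA.le ha }, rfl⟩
  have hmem : ∀ m, m ∈ M ↔ m ∈ AA w.2.1 (Q : Set G) := by
    intro m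
    rw [← SetLike.mem_coe, hM]
  refine ⟨Q, M, by rw [hM, hMM], ?_, ?_, hA.le, ?_, ?_, ?_, ?_⟩
  · intro a ha b hb
    exact hdat.AA_comm hA.le hA.comm ((hmem a).1 ha) ((hmem b).1 hb)
  · intro q hq
    exact (hmem q).2 (AA_of_mem hq)
  · intro m hm
    exact inOmL_rml hw hA ((hmem m).1 hm)
  · intro m hm
    have h1 := hdat.same' hA hQ hsub hcl ((hmem m).1 hm)
    show AA w.2.1 (Qf w.2.1 (BB R w : Set G) (w.2.2.1 * m)) = _
    rw [h1]
    rfl
  · intro q hq
    exact (hmem _).2 (hcl1 q hq)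
  · intro m hm m' hm' r hr h
    obtain ⟨h1, h2⟩ := eq_ofL hr h
    have h3 : (w.2.2.1 * m)⁻¹ * r * (w.2.2.1 * m) * r⁻¹ ∈ AA w.2.1 (Q : Set G) := by
      rw [h2]
      exact (hmem _).1 (M.mul_mem (M.inv_mem hm) hm')
    obtain ⟨h4, h5, h6⟩ := hdat.key hA hQ hsub hcl ((hmem m).1 hm) h1 h3
    exact ⟨fun p hp => h4 p ((hmem p).1 hp), h5, by rw [h6, h2]⟩

theorem BB_cjl {r : G} (hr : r ∈ R) :
    (BB R (cjl r w) : Set G) = {q | r⁻¹ * q * r ∈ (BB R w : Set G)} := by
  ext q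
  rw [Set.mem_ofPred_eq, SetLike.mem_coe, SetLike.mem_coe, mem_BB, mem_BB]
  have e1 : q ∈ R ↔ r⁻¹ * q * r ∈ R := by
    constructor
    · intro h
      exact R.mul_mem (R.mul_mem (R.inv_mem hr) h) hr
    · intro h
      have h1 := R.mul_mem (R.mul_mem hr h) (R.inv_mem hr)
      have e : r * (r⁻¹ * q * r) * r⁻¹ = q := by group
      rwa [e] at h1
  have e2 : q • (cjl r w).1 = (cjl r w).1 ↔ (r⁻¹ * q * r) • w.1 = w.1 := by
    show q • (r • w.1) = r • w.1 ↔ _
    rw [mul_smul, mul_smul, inv_smul_eq_iff]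
  have e3 : ∀ z z' : G, z' = r * z * r⁻¹ →
      (q * z' = z' * q ↔ (r⁻¹ * q * r) * z = z * (r⁻¹ * q * r)) := by
    rintro z z' rfl
    constructor
    · intro h
      calc (r⁻¹ * q * r) * z = r⁻¹ * (q * (r * z * r⁻¹)) * r := by group
        _ = r⁻¹ * ((r * z * r⁻¹) * q) * r := by rw [h]
        _ = _ := by group
    · intro h
      calc q * (r * z * r⁻¹) = r * ((r⁻¹ * q * r) * z) * r⁻¹ := by group
        _ = r * (z * (r⁻¹ * q * r)) * r⁻¹ := by rw [h]
        _ = _ := by group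
  have e4 : (∀ z ∈ (cjl r w).2.2.2, q * z = z * q) ↔
      ∀ z ∈ w.2.2.2, (r⁻¹ * q * r) * z = z * (r⁻¹ * q * r) := by
    constructor
    · intro h z hz
      exact (e3 z _ rfl).1 (h _ (cl_mem.2 ⟨z, hz, rfl⟩))
    · intro h z hz
      obtain ⟨z', hz', rfl⟩ := cl_mem.1 hz
      exact (e3 z' _ rfl).2 (h z' hz')
  rw [e1, e2, e3 w.2.1 (cjl r w).2.1 rfl, e4]

theorem MM_cjl {r : G} (hr : r ∈ R) (z : G) : z ∈ MM R (cjl r w) ↔ r⁻¹ * z * r ∈ MM R w := by
  unfold MM
  rw [BB_cjl hr]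
  show z ∈ AA (r * w.2.1 * r⁻¹) (Qf (r * w.2.1 * r⁻¹) {q | r⁻¹ * q * r ∈ (BB R w : Set G)}
    (r * w.2.2.1 * r⁻¹)) ↔ _
  rw [Qf_conj, AA_conj]

theorem cjl_rml (r m : G) (w : X × G × G × List G) :
    cjl r (rml w m) = rml (cjl r w) (r * m * r⁻¹) := by
  unfold cjl rml
  simp only [Prod.mk.injEq, true_and, and_true]
  group

end fin

/-- the core -/
theorem core : CoreStmt := by
  intro G X A _ _ _ _ _ R g ρ hR Cs hCs k hk
  classical
  let act : MulAction R (Om (X := X) R g Cs) := act hR hCs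
  have hsm : ∀ (r : R) (w : Om (X := X) R g Cs), (r • w).1 = cjl r.1 w.1 := fun _ _ => rfl
  have hfree : ∀ (r : R) (w : Om (X := X) R g Cs), r • w = w → r = 1 := by
    intro r w h
    exact Subtype.ext (free_cjl w.2 r.2 (congrArg Subtype.val h))
  have c1 : Comm R (p1 (X := X) R g Cs) := fun r w => Subtype.ext (m1_cjl r.1 w.1)
  -- the classes
  obtain ⟨C, hCdef⟩ : ∃ C : Om (X := X) R g Cs → Set (Om (X := X) R g Cs),
      C = fun w => {w' | ∃ r ∈ R, ∃ m ∈ MM R w.1, w'.1 = cjl r (rml w.1 m)} := ⟨_, rfl⟩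
  have hC : ∀ w w', w' ∈ C w ↔ ∃ r ∈ R, ∃ m ∈ MM R w.1, w'.1 = cjl r (rml w.1 m) := by
    intro w w'
    rw [hCdef]
    exact Iff.rfl
  have hC1 : ∀ w, w ∈ C w := by
    intro w
    obtain ⟨Q, M, hM, _⟩ := exists_MG w.2
    rw [hC]
    refine ⟨1, R.one_mem, 1, ?_, ?_⟩
    · rw [← hM]
      exact M.one_mem
    · rw [rml_one, cjl_one]
  have hC2 : ∀ w w', w' ∈ C w → C w' = C w := by
    have hsub1 : ∀ (w w' : Om (X := X) R g Cs) (r : G), r ∈ R → w'.1 = cjl r w.1 →
        C w' ⊆ C w := by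
      intro w w' r hr hw' v hv
      rw [hC] at hv ⊢
      obtain ⟨t, ht, m, hm, hv⟩ := hv
      rw [hw', MM_cjl hr] at hm
      refine ⟨t * r, R.mul_mem ht hr, _, hm, ?_⟩
      have e : r * (r⁻¹ * m * r) * r⁻¹ = m := by group
      rw [hv, hw', cjl_mul, cjl_rml r, e]
    have hsub2 : ∀ (w w' : Om (X := X) R g Cs) (m : G), m ∈ MM R w.1 → w'.1 = rml w.1 m →
        C w' ⊆ C w := by
      intro w w' m hm hw' v hv
      obtain ⟨Q, M, hM, _, _, _, _, hsame, _⟩ := exists_MG w.2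
      have hmM : m ∈ M := by
        rw [← SetLike.mem_coe, hM]
        exact hm
      rw [hC] at hv ⊢
      obtain ⟨t, ht, m', hm', hv⟩ := hv
      rw [hw', hsame m hmM, ← hM] at hm'
      refine ⟨t, ht, m * m', ?_, ?_⟩
      · rw [← hM]
        exact M.mul_mem hmM hm'
      · rw [hv, hw', rml_rml]
    intro w w' h
    rw [hC] at h
    obtain ⟨r, hr, m, hm, h⟩ := h
    obtain ⟨Q, M, hM, _, _, _, hom, hsame, _⟩ := exists_MG w.2
    have hmM : m ∈ M := by
      rw [← SetLike.mem_coe, hM]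
      exact hm
    obtain ⟨v, hv⟩ : ∃ v : Om (X := X) R g Cs, v.1 = rml w.1 m := ⟨⟨_, hom m hmM⟩, rfl⟩
    have h1 : C w' ⊆ C v := hsub1 v w' r hr (by rw [h, hv])
    have h2 : C v ⊆ C w' := hsub1 w' v r⁻¹ (R.inv_mem hr) (by
      rw [h, hv, ← cjl_mul, inv_mul_cancel, cjl_one])
    have h3 : C v ⊆ C w := hsub2 w v m hm hv
    have h4 : C w ⊆ C v := hsub2 v w m⁻¹ (by
      rw [hv, hsame m hmM, ← hM]
      exact M.inv_mem hmM) (by
      rw [hv, rml_rml, mul_inv_cancel, rml_one])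
    exact (Set.Subset.antisymm h1 h2).trans (Set.Subset.antisymm h3 h4)
  have key : ∀ w : Om (X := X) R g Cs,
      ∏ᶠ (q : MulAction.orbitRel.Quotient R (Om (X := X) R g Cs)) (_ : C q.out = C w),
        gau R k (p1 (X := X) R g Cs) q = 1 := by
    intro w
    obtain ⟨Q, M, hM, hcm, hQM, hQB, hom, hsame, hdel, hkey⟩ := exists_MG w.2
    let _ : CommGroup M := { (inferInstance : Group M) with
      mul_comm := fun a b => Subtype.ext (hcm a a.2 b b.2) }
    have hxM : w.1.2.1 ∈ M := by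
      rw [← SetLike.mem_coe, hM]
      obtain ⟨Q', hQ', _⟩ := unionL w.2
      refine ⟨1, 1, ?_, by simp⟩
      rw [← hQ']
      exact Q'.one_mem
    obtain ⟨φ, hφ⟩ : ∃ φ : M → Om (X := X) R g Cs, ∀ m, (φ m).1 = rml w.1 m.1 :=
      ⟨fun m => ⟨_, hom m.1 m.2⟩, fun m => rfl⟩
    have hφ1 : φ 1 = w := by
      apply Subtype.ext
      rw [hφ]
      exact rml_one w.1
    have hφf : ∀ m, p1 (X := X) R g Cs (φ m) = φ (m * ⟨w.1.2.1, hxM⟩) := by
      intro m
      apply Subtype.ext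
      rw [hφ]
      show m1 (φ m).1 = _
      rw [hφ]
      unfold m1 rml
      simp only [Subgroup.coe_mul, mul_assoc]
    have hφr : ∀ (m m' m'' : M) (r : R), φ m' = r • φ m → φ (m' * m'') = r • φ (m * m'') := by
      intro m m' m'' r h
      have h1 : rml w.1 m'.1 = cjl r.1 (rml w.1 m.1) := by
        have h2 := congrArg Subtype.val h
        rw [hsm, hφ, hφ] at h2
        exact h2
      obtain ⟨h3, _, _⟩ := hkey m.1 m.2 m'.1 m'.2 r.1 r.2 h1
      apply Subtype.ext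
      rw [hsm, hφ, hφ]
      have h4 : w.1.2.2.1 * m'.1 = r.1 * (w.1.2.2.1 * m.1) * r.1⁻¹ :=
        congrArg (fun z => z.2.2.1) h1
      have h5 := h3 m''.1 m''.2
      have e : w.1.2.2.1 * (m'.1 * m''.1) = r.1 * (w.1.2.2.1 * (m.1 * m''.1)) * r.1⁻¹ := by
        calc w.1.2.2.1 * (m'.1 * m''.1) = (w.1.2.2.1 * m'.1) * m''.1 := by group
          _ = (r.1 * (w.1.2.2.1 * m.1) * r.1⁻¹) * m''.1 := by rw [h4]
          _ = r.1 * (w.1.2.2.1 * m.1) * r.1⁻¹ * (m''.1 * r.1) * r.1⁻¹ := by group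
          _ = r.1 * (w.1.2.2.1 * m.1) * r.1⁻¹ * (r.1 * m''.1) * r.1⁻¹ := by rw [h5]
          _ = _ := by group
      have a1 := congrArg Prod.fst h1
      have a2 := congrArg (fun z => z.2.1) h1
      have a3 := congrArg (fun z => z.2.2.2) h1
      exact Prod.ext a1 (Prod.ext a2 (Prod.ext e a3))
    have hCφ : ∀ w', w' ∈ C w ↔ ∃ (r : R) (m : M), w' = r • φ m := by
      intro w'
      rw [hC]
      constructor
      · rintro ⟨r, hr, m, hm, h⟩
        have hm' : m ∈ M := by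
          rw [← SetLike.mem_coe, hM]
          exact hm
        refine ⟨⟨r, hr⟩, ⟨m, hm'⟩, Subtype.ext ?_⟩
        rw [hsm, hφ]
        exact h
      · rintro ⟨r, m, rfl⟩
        refine ⟨r.1, r.2, m.1, ?_, ?_⟩
        · rw [← hM]
          exact m.2
        · rw [hsm, hφ]
    obtain ⟨h1, _, _⟩ := fibre0 hfree hk c1 hC1 hC2 w (M := M) ⟨w.1.2.1, hxM⟩ φ hφ1 hφf hφr hCφ
    obtain ⟨S, hS⟩ : ∃ S : Subgroup M, S = stb φ hφr := ⟨_, rfl⟩
    rw [← hS] at h1
    have hmul : (⟨w.1.2.1, hxM⟩ : M) ^ S.index = 1 := by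
      obtain ⟨Q', hQ'⟩ : ∃ Q' : Subgroup M, Q' = Q.subgroupOf M := ⟨_, rfl⟩
      have hQ'mem : ∀ m : M, m ∈ Q' ↔ m.1 ∈ Q := by
        intro m
        rw [hQ']
        exact Subgroup.mem_subgroupOf
      have hψM : ∀ q ∈ Q, w.1.2.2.1⁻¹ * q * w.1.2.2.1 ∈ M := by
        intro q hq
        have h2 := M.mul_mem (hdel q hq) (hQM hq)
        rwa [inv_mul_cancel_right] at h2
      let ψ : Q' →* M :=
        { toFun := fun q => ⟨w.1.2.2.1⁻¹ * (q : M).1 * w.1.2.2.1, hψM _ ((hQ'mem q).1 q.2)⟩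
          map_one' := Subtype.ext (by
            show w.1.2.2.1⁻¹ * (1 : G) * w.1.2.2.1 = 1
            group)
          map_mul' := fun a b => Subtype.ext (by
            show w.1.2.2.1⁻¹ * ((a : M).1 * (b : M).1) * w.1.2.2.1 =
              (w.1.2.2.1⁻¹ * (a : M).1 * w.1.2.2.1) * (w.1.2.2.1⁻¹ * (b : M).1 * w.1.2.2.1)
            group) }
      have hψ : ∀ q : Q', (ψ q).1 = w.1.2.2.1⁻¹ * (q : M).1 * w.1.2.2.1 := fun _ => rfl
      have hpur := pur M Q' ψ ?_ ?_
      rotate_left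
      · intro a b hab
        have h2 := congrArg Subtype.val hab
        rw [hψ, hψ] at h2
        exact Subtype.ext (Subtype.ext (mul_left_cancel (mul_right_cancel h2)))
      · intro U hU hUψ
        have hg := goodL w.2
        have hUB : ∀ u ∈ U, u.1 ∈ BB R w.1 := fun u hu => hQB ((hQ'mem u).1 (hU hu))
        have h2 := hg (U.map M.subtype) ?_ ?_ ?_ ?_
        · exact (Subgroup.map_eq_bot_iff_of_injective _ M.subtype_injective).1 h2
        · rintro _ ⟨u, hu, rfl⟩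
          have h3 := mem_BB.1 (hUB u hu)
          exact ⟨h3.1, h3.2.1⟩
        · refine mem_norm' ?_
          rintro _ ⟨u, hu, rfl⟩
          have h3 := (mem_BB.1 (hUB u hu)).2.2.1
          refine ⟨u, hu, ?_⟩
          show u.1 = w.1.2.1 * u.1 * w.1.2.1⁻¹
          rw [← h3, mul_inv_cancel_right]
        · have h3 : w.1.2.2.1⁻¹ ∈ Subgroup.normalizer ((U.map M.subtype : Subgroup G) : Set G) := by
            refine mem_norm' ?_
            rintro _ ⟨u, hu, rfl⟩
            refine ⟨_, hUψ ⟨u, hU hu⟩ hu, ?_⟩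
            show w.1.2.2.1⁻¹ * u.1 * w.1.2.2.1 = w.1.2.2.1⁻¹ * u.1 * w.1.2.2.1⁻¹⁻¹
            rw [inv_inv]
          have h4 := Subgroup.inv_mem _ h3
          rwa [inv_inv] at h4
        · refine (Subgroup.closure_le _).2 fun z hz => mem_norm' ?_
          rintro _ ⟨u, hu, rfl⟩
          have h3 := (mem_BB.1 (hUB u hu)).2.2.2 z hz
          refine ⟨u, hu, ?_⟩
          show u.1 = z * u.1 * z⁻¹
          rw [← h3, mul_inv_cancel_right]
      -- the homomorphism `q ↦ y⁻¹ q y q⁻¹`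
      let δ : Q' →* M :=
        { toFun := fun q => ψ q * (q : M)⁻¹
          map_one' := by simp
          map_mul' := fun a b => by
            rw [map_mul, Subgroup.coe_mul, mul_inv_rev]
            rw [mul_comm (b : M)⁻¹ (a : M)⁻¹]
            exact mul_mul_mul_comm _ _ _ _ }
      have hle : S ≤ δ.range := by
        intro m hm
        rw [hS] at hm
        obtain ⟨r, hr⟩ : ∃ r : R, φ m = r • φ 1 := hm
        have h2 : rml w.1 m.1 = cjl r.1 (rml w.1 (1 : M).1) := by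
          have h3 := congrArg Subtype.val hr
          rw [hsm, hφ, hφ] at h3
          exact h3
        obtain ⟨_, h4, h5⟩ := hkey (1 : M).1 (1 : M).2 m.1 m.2 r.1 r.2 h2
        refine ⟨⟨⟨r.1, hQM h4⟩, (hQ'mem _).2 h4⟩, Subtype.ext ?_⟩
        show w.1.2.2.1⁻¹ * r.1 * w.1.2.2.1 * r.1⁻¹ = m.1
        rw [h5]
        show (1 : G)⁻¹ * m.1 = m.1
        rw [inv_one, one_mul]
      have hd : Nat.card S ∣ Nat.card Q' :=
        (Subgroup.card_dvd_of_le hle).trans (Subgroup.card_range_dvd δ)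
      obtain ⟨c, hc⟩ := hd
      have e1 := Subgroup.card_mul_index S
      have e2 := Subgroup.card_mul_index Q'
      have hpos : 0 < Nat.card S := Nat.card_pos
      have e3 : S.index = Q'.index * c := by
        refine Nat.eq_of_mul_eq_mul_left hpos ?_
        rw [e1, ← e2, hc]
        ring
      rw [e3, pow_mul, hpur, one_pow]
    have h2 := h1 1 (by rw [hmul, hφ1, one_smul])
    rw [h2, map_one]
  obtain ⟨n, hn, _⟩ := tau_classes (R := R) (k := k) (f := p1 (X := X) R g Cs) (C := C) (a := 1) key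
  rw [hn, one_pow]

end Pool.Agent.Helper24Core

/-- the core -/
theorem Pool.Agent.PP.ML.H24.core : Pool.Agent.PP.ML.H24.CoreStmt := Pool.Agent.Helper24Core.core

/-- TL2 -/
theorem Pool.Agent.PP.ML.H24.tl2' : Pool.Agent.PP.ML.TL2Stmt :=
  Pool.Agent.PP.ML.H24.tl2 Pool.Agent.PP.ML.H24.core
end
end -- Pool.Agent.Helper24_ML.Core

section -- Pool.Agent.Helper71_ML.TL3

/-!
# Squad ML, stage 2, row TL3 (helper71): the star relation
-/

open scoped BigOperators

set_option linter.unusedSectionVars false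

noncomputable section

namespace Pool.Agent.PP.ML.H71

open Pool.Agent.PP.ML Pool.Agent.Helper71_ML Pool.Agent.PP.ML.H24

section moves

variable {G X : Type} [Group G] [MulAction G X]

/-- the twist around the handle and all punctures but the first -/
def m3 (g : G) (w : X × G × G × List G) : X × G × G × List G :=
  match w with
  | (s, x, y, []) => (s, x, y, [])
  | (s, x, y, z :: l) => (s, x, z⁻¹ * g⁻¹ * x * y, z :: cl (z⁻¹ * g⁻¹ * x) l)

theorem m3_inj (g : G) :
    Function.Injective (m3 g : X × G × G × List G → X × G × G × List G) := by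
  rintro ⟨s, x, y, l⟩ ⟨s', x', y', l'⟩ e
  cases l with
  | nil =>
    cases l' with
    | nil => exact e
    | cons z' l' =>
      simp [m3] at e
  | cons z l =>
    cases l' with
    | nil => simp [m3] at e
    | cons z' l' =>
      simp only [m3, Prod.mk.injEq, List.cons.injEq] at e
      obtain ⟨rfl, rfl, e3, rfl, e4⟩ := e
      have h1 := mul_left_cancel e3
      subst h1
      have h2 := congrArg (cl (z⁻¹ * g⁻¹ * x)⁻¹) e4
      rw [cl_cl, cl_cl, inv_mul_cancel, cl_one, cl_one] at h2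
      subst h2
      rfl

theorem m3_cjl {r g : G} (h : r * g = g * r) (w : X × G × G × List G) :
    m3 g (cjl r w) = cjl r (m3 g w) := by
  obtain ⟨s, x, y, l⟩ := w
  cases l with
  | nil => rfl
  | cons z l =>
    have h1 : g⁻¹ * r = r * g⁻¹ := by
      rw [inv_mul_eq_iff_eq_mul, ← mul_assoc, ← h, mul_inv_cancel_right]
    have h2 : (r * z * r⁻¹)⁻¹ * g⁻¹ * (r * x * r⁻¹) = r * (z⁻¹ * g⁻¹ * x) * r⁻¹ := by
      calc (r * z * r⁻¹)⁻¹ * g⁻¹ * (r * x * r⁻¹) = r * z⁻¹ * r⁻¹ * (g⁻¹ * r) * (x * r⁻¹) := by group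
        _ = r * (z⁻¹ * g⁻¹ * x) * r⁻¹ := by rw [h1]; group
    show (r • s, r * x * r⁻¹, (r * z * r⁻¹)⁻¹ * g⁻¹ * (r * x * r⁻¹) * (r * y * r⁻¹),
      (r * z * r⁻¹) :: cl ((r * z * r⁻¹)⁻¹ * g⁻¹ * (r * x * r⁻¹)) (cl r l)) =
      (r • s, r * x * r⁻¹, r * (z⁻¹ * g⁻¹ * x * y) * r⁻¹,
        (r * z * r⁻¹) :: cl r (cl (z⁻¹ * g⁻¹ * x) l))
    rw [h2, cl_cl, cl_cl]
    have h3 : r * (z⁻¹ * g⁻¹ * x) * r⁻¹ * r = r * (z⁻¹ * g⁻¹ * x) := by group
    have h4 : r * (z⁻¹ * g⁻¹ * x) * r⁻¹ * (r * y * r⁻¹) = r * (z⁻¹ * g⁻¹ * x * y) * r⁻¹ := by group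
    rw [h3, h4]

/-- `a₃ b a₃ = b a₃ b` -/
theorem braid_3b (g : G) (w : X × G × G × List G) (hw : w.2.2.2 ≠ []) :
    m3 g (mb (m3 g w)) = mb (m3 g (mb w)) := by
  obtain ⟨s, x, y, l⟩ := w
  cases l with
  | nil => exact absurd rfl hw
  | cons z l =>
    simp only [m3, mb, Prod.mk.injEq, true_and, cl_cl, List.cons.injEq]
    refine ⟨?_, ?_, ?_⟩
    · group
    · group
    · congr 1
      group

end moves

section inom

variable {G X : Type} [Group G] [Finite G] [MulAction G X] {R : Subgroup G} {g : G}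
  {Cs : List (Set G)}

theorem mem_nrm {U : Subgroup G} {n : G} :
    n ∈ Subgroup.normalizer (U : Set G) ↔ ∀ u ∈ U, n * u * n⁻¹ ∈ U := by
  rw [Subgroup.mem_normalizer_iff]
  constructor
  · intro h u hu
    exact (h u).1 hu
  · intro h u
    refine ⟨h u, fun hu => ?_⟩
    have h1 := conj_inv_mem U n h _ hu
    have h2 : n⁻¹ * (n * u * n⁻¹) * n = u := by group
    rwa [h2] at h1

theorem inOmL_m3 (hR : ∀ r ∈ R, r * g = g * r) (hCs : ∀ K ∈ Cs, Cj K)
    {w : X × G × G × List G} (h : InOmL R g Cs w) : InOmL R g Cs (m3 g w) := by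
  have hg := g_smul h
  obtain ⟨s, x, y, l⟩ := w
  cases l with
  | nil => exact h
  | cons z l =>
    obtain ⟨h1, h2, h3, h4, h5, h6⟩ := h
    simp only at h1 h2 h3 h4 h5 h6 hg
    have hg' : g⁻¹ • s = s := inv_smul_eq_iff.2 hg.symm
    have hz : z • s = s := h3 z List.mem_cons_self
    have hz' : z⁻¹ • s = s := inv_smul_eq_iff.2 hz.symm
    have he : (z⁻¹ * g⁻¹ * x) • s = s := by rw [mul_smul, mul_smul, h1, hg', hz']
    refine ⟨h1, ?_, ?_, ?_, ?_, ?_⟩
    · show (z⁻¹ * g⁻¹ * x * y) • s = s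
      rw [mul_smul, h2, he]
    · intro z₁ hz₁
      have hz₂ : z₁ ∈ z :: cl (z⁻¹ * g⁻¹ * x) l := hz₁
      rcases List.mem_cons.1 hz₂ with rfl | hz₃
      · exact hz
      · obtain ⟨z', hz', rfl⟩ := cl_mem.1 hz₃
        show ((z⁻¹ * g⁻¹ * x) * z' * (z⁻¹ * g⁻¹ * x)⁻¹) • s = s
        rw [mul_smul, mul_smul, inv_smul_eq_iff.2 he.symm,
          h3 z' (List.mem_cons_of_mem _ hz'), he]
    · show List.Forall₂ (fun z K => z ∈ K) (z :: cl (z⁻¹ * g⁻¹ * x) l) Cs
      cases h4 with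
      | cons h7 h8 =>
        exact List.Forall₂.cons h7
          (cl_forall (fun K hK => hCs K (List.mem_cons_of_mem _ hK)) _ h8)
    · show x * (z⁻¹ * g⁻¹ * x * y) * x⁻¹ * (z⁻¹ * g⁻¹ * x * y)⁻¹ =
        g * (z :: cl (z⁻¹ * g⁻¹ * x) l).prod
      rw [List.prod_cons, cl_prod]
      rw [List.prod_cons] at h5
      have e : l.prod = z⁻¹ * g⁻¹ * (x * y * x⁻¹ * y⁻¹) := by rw [h5]; group
      rw [e]
      group
    · intro U hU hf hx hy hl
      have hx' : x ∈ Subgroup.normalizer (U : Set G) := mem_nrm.2 hx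
      have hy' : z⁻¹ * g⁻¹ * x * y ∈ Subgroup.normalizer (U : Set G) := mem_nrm.2 hy
      have hl' : ∀ z₁ ∈ z :: cl (z⁻¹ * g⁻¹ * x) l, z₁ ∈ Subgroup.normalizer (U : Set G) :=
        fun z₁ h => mem_nrm.2 (hl z₁ h)
      have hgn : g ∈ Subgroup.normalizer (U : Set G) := by
        rw [mem_nrm]
        intro u hu
        rw [← hR u (hU hu), mul_inv_cancel_right]
        exact hu
      have hzn : z ∈ Subgroup.normalizer (U : Set G) := hl' z List.mem_cons_self
      have hen : z⁻¹ * g⁻¹ * x ∈ Subgroup.normalizer (U : Set G) :=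
        Subgroup.mul_mem _ (Subgroup.mul_mem _ (Subgroup.inv_mem _ hzn)
          (Subgroup.inv_mem _ hgn)) hx'
      refine h6 U hU hf (mem_nrm.1 hx') (mem_nrm.1 ?_) fun z₁ hz₁ => mem_nrm.1 ?_
      · exact (Subgroup.mul_mem_cancel_left _ hen).1 hy'
      · rcases List.mem_cons.1 hz₁ with rfl | hz₂
        · exact hzn
        · have h7 := hl' ((z⁻¹ * g⁻¹ * x) * z₁ * (z⁻¹ * g⁻¹ * x)⁻¹)
            (List.mem_cons_of_mem _ (cl_mem.2 ⟨z₁, hz₂, rfl⟩))
          have h8 := (Subgroup.mul_mem_cancel_right _ (Subgroup.inv_mem _ hen)).1 h7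
          exact (Subgroup.mul_mem_cancel_left _ hen).1 h8

end inom

/-- the move `a₃` -/
def p3 {G X : Type} [Group G] [Finite G] [Finite X] [MulAction G X] {R : Subgroup G} {g : G}
    {Cs : List (Set G)} (hR : ∀ r ∈ R, r * g = g * r) (hCs : ∀ K ∈ Cs, Cj K) :
    Equiv.Perm (Om (X := X) R g Cs) :=
  perm (m3 g) (m3_inj g) fun _ h => inOmL_m3 hR hCs h

theorem tl3 (core : CoreStmt) : TL3Stmt := by
  intro G X A _ _ _ _ _ R g ρ hR K K' hK hK' j hj hcu
  have hCs : ∀ K₁ ∈ [K, K'], Cj K₁ := by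
    intro K₁ hK₁
    rcases List.mem_cons.1 hK₁ with rfl | h
    · exact hK
    · rw [List.mem_singleton.1 h]
      exact hK'
  let act : MulAction R (Om (X := X) R g [K, K']) := act hR hCs
  have hsm : ∀ (r : R) (w : Om (X := X) R g [K, K']), (r • w).1 = cjl r.1 w.1 := fun _ _ => rfl
  have hfree : ∀ (r : R) (w : Om (X := X) R g [K, K']), r • w = w → r = 1 := by
    intro r w h
    exact Subtype.ext (free_cjl w.2 r.2 (congrArg Subtype.val h))
  obtain ⟨k, hk⟩ := exists_equiva (Ω := Om (X := X) R g [K, K']) ρ fun r w h => by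
    rw [hfree r w h, map_one]
  obtain ⟨P1, hP1⟩ : ∃ P, P = p1 (X := X) R g [K, K'] := ⟨_, rfl⟩
  obtain ⟨PB, hPB⟩ : ∃ P, P = pb (X := X) R g [K, K'] := ⟨_, rfl⟩
  obtain ⟨P2, hP2⟩ : ∃ P, P = p2 (X := X) hR hCs := ⟨_, rfl⟩
  obtain ⟨P3, hP3⟩ : ∃ P, P = p3 (X := X) hR hCs := ⟨_, rfl⟩
  have v1 : ∀ w : Om (X := X) R g [K, K'], (P1 w).1 = m1 w.1 := by
    rw [hP1]; exact fun _ => rfl
  have vb : ∀ w : Om (X := X) R g [K, K'], (PB w).1 = mb w.1 := by
    rw [hPB]; exact fun _ => rfl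
  have v2 : ∀ w : Om (X := X) R g [K, K'], (P2 w).1 = m2 g w.1 := by
    rw [hP2]; exact fun _ => rfl
  have v3 : ∀ w : Om (X := X) R g [K, K'], (P3 w).1 = m3 g w.1 := by
    rw [hP3]; exact fun _ => rfl
  have c1 : Comm R P1 := fun r w => Subtype.ext (by
    rw [v1, hsm, hsm, v1]; exact m1_cjl r.1 w.1)
  have cb : Comm R PB := fun r w => Subtype.ext (by
    rw [vb, hsm, hsm, vb]; exact mb_cjl r.1 w.1)
  have c2 : Comm R P2 := fun r w => Subtype.ext (by
    rw [v2, hsm, hsm, v2]; exact m2_cjl (hR r.1 r.2) w.1)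
  have c3 : Comm R P3 := fun r w => Subtype.ext (by
    rw [v3, hsm, hsm, v3]; exact m3_cjl (hR r.1 r.2) w.1)
  have hne : ∀ w : Om (X := X) R g [K, K'], w.1.2.2.2 ≠ [] := by
    intro w h
    have h1 := w.2.ml
    rw [h] at h1
    cases h1
  have t1 : tau R k P1 = 1 := by rw [hP1]; exact core G X A R g ρ hR [K, K'] hCs k hk
  have b1 : P1 * PB * P1 = PB * P1 * PB := Equiv.ext fun w => Subtype.ext (by
    simp only [Equiv.Perm.mul_apply, v1, vb]; exact braid_1b w.1)
  have b2 : P2 * PB * P2 = PB * P2 * PB := Equiv.ext fun w => Subtype.ext (by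
    simp only [Equiv.Perm.mul_apply, v2, vb]; exact braid_2b g w.1)
  have b3 : P3 * PB * P3 = PB * P3 * PB := Equiv.ext fun w => Subtype.ext (by
    simp only [Equiv.Perm.mul_apply, v3, vb]; exact braid_3b g w.1 (hne w))
  have tb : tau R k PB = 1 := by
    rw [← tau_braid hk c1 cb b1]
    exact t1
  have t2 : tau R k P2 = 1 := by
    rw [tau_braid hk c2 cb b2]
    exact tb
  have t3 : tau R k P3 = 1 := by
    rw [tau_braid hk c3 cb b3]
    exact tb
  -- the permutation `θ = a₁ a₂ a₃ b`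
  obtain ⟨θ, hθ⟩ : ∃ θ : Equiv.Perm (Om (X := X) R g [K, K']), θ = P1 * P2 * P3 * PB := ⟨_, rfl⟩
  have cθ : Comm R θ := by
    rw [hθ]
    exact ((c1.mul c2).mul c3).mul cb
  have tθ : tau R k θ = 1 := by
    rw [hθ, tau_mul hk ((c1.mul c2).mul c3) cb, tau_mul hk (c1.mul c2) c3, tau_mul hk c1 c2,
      t1, t2, t3, tb, one_mul, one_mul, one_mul]
  have hstar : ∀ w : Om (X := X) R g [K, K'], ((θ ^ 3) w).1 = cjl g⁻¹ w.1 := by
    intro w
    have hval : ∀ v : Om (X := X) R g [K, K'], (θ v).1 = m1 (m2 g (m3 g (mb v.1))) := by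
      intro v
      rw [hθ]
      simp only [Equiv.Perm.mul_apply, v1, v2, v3, vb]
    have h4 : ((θ ^ 3) w).1 = m1 (m2 g (m3 g (mb (m1 (m2 g (m3 g (mb (m1 (m2 g (m3 g
        (mb w.1))))))))))) := by
      have e : (θ ^ 3) w = θ (θ (θ w)) := rfl
      rw [e, hval, hval, hval]
    rw [h4]
    have hg := g_smul w.2
    have hg' : g⁻¹ • w.1.1 = w.1.1 := inv_smul_eq_iff.2 hg.symm
    have hcm := w.2.cm
    have hml := w.2.ml
    obtain ⟨⟨s, x, y, l⟩, hw⟩ := w
    simp only at hcm hml hg'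
    obtain ⟨z, z', rfl⟩ : ∃ z z', l = [z, z'] := by
      cases hml with
      | cons h1 h2 =>
        cases h2 with
        | cons h3 h4 =>
          cases h4
          exact ⟨_, _, rfl⟩
    have hrel : MRel g (x, y, z, z') := by
      unfold MRel
      simp only
      rw [hcm, List.prod_cons, List.prod_singleton, mul_assoc]
    have hstep : ∀ t : G × G × G × G,
        m1 (m2 g (m3 g (mb (s, t.1, t.2.1, [t.2.2.1, t.2.2.2]))))
          = (s, (mTh g t).1, (mTh g t).2.1, [(mTh g t).2.2.1, (mTh g t).2.2.2]) := by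
      intro t
      rfl
    have e1 := hstep (x, y, z, z')
    simp only at e1
    rw [e1, hstep, hstep, star_rel hrel]
    simp only [cjl, cl, List.map_cons, List.map_nil, inv_inv, hg']
  -- powers
  have hpow : ∀ (i : ℕ) (w : Om (X := X) R g [K, K']), (((θ ^ 3) ^ i) w).1 = cjl (g ^ i)⁻¹ w.1 := by
    intro i
    induction i with
    | zero =>
      intro w
      rw [pow_zero, pow_zero, inv_one, cjl_one]
      rfl
    | succ i ih =>
      intro w
      rw [pow_succ', Equiv.Perm.mul_apply, hstar, ih, ← cjl_mul, pow_succ, mul_inv_rev]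
  obtain ⟨r₀, hr₀⟩ : ∃ r₀ : R, r₀ = (⟨g ^ j, hj⟩ : R)⁻¹ := ⟨_, rfl⟩
  have hθj : ∀ w : Om (X := X) R g [K, K'], ((θ ^ j) ^ 3) w = r₀ • w := by
    intro w
    apply Subtype.ext
    rw [← pow_mul, mul_comm j 3, pow_mul, hpow, hsm, hr₀]
    rfl
  have hN : ∀ r : R, r ^ 3 ≠ r₀ := by
    intro v hv
    apply hcu (v⁻¹ : R).1 (v⁻¹ : R).2
    have h2 : (v⁻¹) ^ 3 = (⟨g ^ j, hj⟩ : R) := by
      rw [inv_pow, hv, hr₀, inv_inv]
    exact congrArg Subtype.val h2
  have hfin := star_prime hfree hk (cθ.pow j) Nat.prime_three hθj hN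
    (by rw [tau_pow hk cθ, tθ, one_pow])
  have hord : orderOf (ρ r₀) = orderOf (ρ ⟨g ^ j, hj⟩) := by
    rw [hr₀, map_inv, orderOf_inv]
  rw [hord] at hfin
  have h9 : {w : X × G × G × List G | InOmL R g [K, K'] w}.ncard =
      Nat.card (Om (X := X) R g [K, K']) := rfl
  rw [h9]
  have h10 : 3 * orderOf (ρ ⟨g ^ j, hj⟩) * Nat.card R
      = orderOf (ρ ⟨g ^ j, hj⟩) * (3 * Nat.card R) := by ring
  rw [h10]
  exact hfin

end Pool.Agent.PP.ML.H71
end
end -- Pool.Agent.Helper71_ML.TL3
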