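import Pool.Agent.Helper12_AWB.B102

/-!
# Merged copies (generated) of the modules

* `Pool.Agent.Helper98_BT.Mov`
* `Pool.Agent.Helper98_ML.TL1`
-/

set_option autoImplicit false

section -- Pool.Agent.Helper98_BT.Mov

/-! Points `(s, x, y, l)` and the moves on them. -/

set_option autoImplicit false

namespace Pool.Agent.H98BT

open Subgroup

/-- the points `(s, x, y, l)` -/
abbrev Pt (X G : Type*) := X × G × G × List G

section
variable {X G : Type*} [Group G]

/-- conjugation of the entries of a list -/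
def cl (r : G) (l : List G) : List G := l.map fun z => r * z * r⁻¹

@[simp] theorem cl_nil (r : G) : cl r ([] : List G) = [] := rfl

@[simp] theorem cl_cons (r z : G) (l : List G) : cl r (z :: l) = (r * z * r⁻¹) :: cl r l := rfl

@[simp] theorem cl_append (r : G) (l l' : List G) : cl r (l ++ l') = cl r l ++ cl r l' := by
  unfold cl
  rw [List.map_append]

@[simp] theorem cl_one (l : List G) : cl (1 : G) l = l := by
  unfold cl
  simp

@[simp] theorem cl_length (r : G) (l : List G) : (cl r l).length = l.length := by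
  unfold cl
  simp

theorem cl_cl (r t : G) (l : List G) : cl r (cl t l) = cl (r * t) l := by
  unfold cl
  rw [List.map_map]
  apply List.map_congr_left
  intro z _
  simp only [Function.comp_apply]
  group

theorem cl_prod (r : G) (l : List G) : (cl r l).prod = r * l.prod * r⁻¹ := by
  induction l with
  | nil => simp
  | cons z l ih =>
    rw [cl_cons, List.prod_cons, List.prod_cons, ih]
    group

theorem mem_cl {r : G} {l : List G} {z : G} : z ∈ cl r l ↔ r⁻¹ * z * r ∈ l := by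
  unfold cl
  rw [List.mem_map]
  constructor
  · rintro ⟨a, ha, rfl⟩
    have e : r⁻¹ * (r * a * r⁻¹) * r = a := by group
    rw [e]
    exact ha
  · intro h
    exact ⟨_, h, by group⟩

theorem cl_inj {r : G} {l l' : List G} (h : cl r l = cl r l') : l = l' := by
  have h1 := congrArg (cl r⁻¹) h
  rwa [cl_cl, cl_cl, inv_mul_cancel, cl_one, cl_one] at h1

theorem cl_take (r : G) (l : List G) (i : ℕ) : (cl r l).take i = cl r (l.take i) := by
  unfold cl
  rw [List.map_take]

theorem cl_drop (r : G) (l : List G) (i : ℕ) : (cl r l).drop i = cl r (l.drop i) := by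
  unfold cl
  rw [List.map_drop]

/-- conjugation -/
def cj [MulAction G X] (r : G) (w : Pt X G) : Pt X G :=
  (r • w.1, r * w.2.1 * r⁻¹, r * w.2.2.1 * r⁻¹, cl r w.2.2.2)

theorem cj_one [MulAction G X] (w : Pt X G) : cj (1 : G) w = w := by
  unfold cj
  rw [one_smul, cl_one]
  simp

theorem cj_mul [MulAction G X] (r t : G) (w : Pt X G) : cj (r * t) w = cj r (cj t w) := by
  unfold cj
  simp only [mul_smul, cl_cl, Prod.mk.injEq, true_and, and_true]
  constructor <;> group

/-- the entries lie in `H` -/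
def Mem (H : Subgroup G) (w : Pt X G) : Prop := w.2.1 ∈ H ∧ w.2.2.1 ∈ H ∧ ∀ z ∈ w.2.2.2, z ∈ H

/-- the move `A_i` : `w = K x₁`, `y ↦ w y`, the entries from `i` on are conjugated by `w` -/
def mvA (i : ℕ) (w : Pt X G) : Pt X G :=
  (w.1, w.2.1, ((w.2.2.2.drop i).prod * (w.2.2.1 * w.2.1 * w.2.2.1⁻¹)) * w.2.2.1,
    w.2.2.2.take i ++
      cl ((w.2.2.2.drop i).prod * (w.2.2.1 * w.2.1 * w.2.2.1⁻¹)) (w.2.2.2.drop i))

/-- the move `b` -/
def mvB (w : Pt X G) : Pt X G := (w.1, w.2.1 * w.2.2.1⁻¹, w.2.2.1, w.2.2.2)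

/-- the move `T_i` : the entries from `i` on are conjugated by their product -/
def mvT (i : ℕ) (w : Pt X G) : Pt X G :=
  (w.1, w.2.1, w.2.2.1, w.2.2.2.take i ++ cl (w.2.2.2.drop i).prod (w.2.2.2.drop i))

/-- the move `A'_i` : only the entry `i` is conjugated -/
def mvC (i : ℕ) (w : Pt X G) : Pt X G :=
  let K := (w.2.2.2.drop (i + 1)).prod
  let c := K⁻¹ * ((w.2.2.2.drop i).take 1).prod * K
  let v := c * (w.2.2.1 * w.2.1 * w.2.2.1⁻¹)
  (w.1, w.2.1, v * w.2.2.1,
    w.2.2.2.take i ++ (cl (K * v * K⁻¹) ((w.2.2.2.drop i).take 1) ++ w.2.2.2.drop (i + 1)))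

/-! ### The moves on a split list -/

theorem mvA_split (s : X) (x y : G) (p q : List G) :
    mvA p.length (s, x, y, p ++ q) =
      (s, x, (q.prod * (y * x * y⁻¹)) * y, p ++ cl (q.prod * (y * x * y⁻¹)) q) := by
  unfold mvA
  simp

theorem mvT_split (s : X) (x y : G) (p q : List G) :
    mvT p.length (s, x, y, p ++ q) = (s, x, y, p ++ cl q.prod q) := by
  unfold mvT
  simp

theorem mvC_split (s : X) (x y z : G) (p q : List G) :
    mvC p.length (s, x, y, p ++ (z :: q)) =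
      (s, x, (q.prod⁻¹ * z * q.prod * (y * x * y⁻¹)) * y,
        p ++ ((q.prod * (q.prod⁻¹ * z * q.prod * (y * x * y⁻¹)) * q.prod⁻¹) * z *
          (q.prod * (q.prod⁻¹ * z * q.prod * (y * x * y⁻¹)) * q.prod⁻¹)⁻¹) :: q) := by
  unfold mvC
  have h1 : (p ++ z :: q).drop (p.length + 1) = q := by
    rw [List.drop_append]
    simp
  simp [h1]

omit [Group G] in
theorem exists_split (l : List G) {i : ℕ} (hi : i ≤ l.length) :
    ∃ p q : List G, l = p ++ q ∧ p.length = i :=
  ⟨l.take i, l.drop i, (List.take_append_drop i l).symm, by simp [hi]⟩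

omit [Group G] in
theorem exists_split' (l : List G) {i : ℕ} (hi : i < l.length) :
    ∃ (p : List G) (z : G) (q : List G), l = p ++ (z :: q) ∧ p.length = i := by
  obtain ⟨p, q, h, hp⟩ := exists_split l hi.le
  cases q with
  | nil =>
    exfalso
    rw [List.append_nil] at h
    rw [h] at hi
    omega
  | cons z q => exact ⟨p, z, q, h, hp⟩

/-! ### The braid relations -/

theorem mvA_braid {i : ℕ} {w : Pt X G} (hi : i ≤ w.2.2.2.length) :
    mvA i (mvB (mvA i w)) = mvB (mvA i (mvB w)) := by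
  obtain ⟨s, x, y, l⟩ := w
  obtain ⟨p, q, hl, hp⟩ := exists_split l hi
  subst hl
  subst hp
  change mvA p.length (mvB (mvA p.length (s, x, y, p ++ q))) =
    mvB (mvA p.length (s, x * y⁻¹, y, p ++ q))
  rw [mvA_split, mvA_split]
  change mvA p.length (s, x * ((q.prod * (y * x * y⁻¹)) * y)⁻¹, (q.prod * (y * x * y⁻¹)) * y,
    p ++ cl (q.prod * (y * x * y⁻¹)) q) = (s, x * y⁻¹ * ((q.prod * (y * (x * y⁻¹) * y⁻¹)) * y)⁻¹,
      (q.prod * (y * (x * y⁻¹) * y⁻¹)) * y, p ++ cl (q.prod * (y * (x * y⁻¹) * y⁻¹)) q)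
  rw [mvA_split, cl_prod, cl_cl]
  obtain ⟨K, hK⟩ : ∃ K, K = q.prod := ⟨_, rfl⟩
  rw [← hK]
  simp only [Prod.mk.injEq, true_and]
  refine ⟨by group, by group, ?_⟩
  congr 2
  group

theorem mvC_braid {i : ℕ} {w : Pt X G} (hi : i < w.2.2.2.length) :
    mvC i (mvB (mvC i w)) = mvB (mvC i (mvB w)) := by
  obtain ⟨s, x, y, l⟩ := w
  obtain ⟨p, z, q, hl, hp⟩ := exists_split' l hi
  subst hl
  subst hp
  obtain ⟨K, hK⟩ : ∃ K, K = q.prod := ⟨_, rfl⟩
  have e : ∀ x y z : G, mvC p.length (s, x, y, p ++ (z :: q)) =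
      (s, x, (K⁻¹ * z * K * (y * x * y⁻¹)) * y,
        p ++ ((K * (K⁻¹ * z * K * (y * x * y⁻¹)) * K⁻¹) * z *
          (K * (K⁻¹ * z * K * (y * x * y⁻¹)) * K⁻¹)⁻¹) :: q) := by
    intro x y z
    rw [mvC_split, hK]
  change mvC p.length (mvB (mvC p.length (s, x, y, p ++ (z :: q)))) =
    mvB (mvC p.length (s, x * y⁻¹, y, p ++ (z :: q)))
  rw [e, e]
  unfold mvB
  dsimp only
  rw [e]
  simp only [Prod.mk.injEq, true_and]
  refine ⟨by group, by group, ?_⟩
  congr 2
  rw [← mul_inv_eq_one]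
  group

/-! ### The chain relation -/

/-- the composition `a₁ A₀ b` -/
def mvF (w : Pt X G) : Pt X G := mvA w.2.2.2.length (mvA 0 (mvB w))

theorem mvA_zero (s : X) (x y : G) (l : List G) :
    mvA 0 (s, x, y, l) = (s, x, (l.prod * (y * x * y⁻¹)) * y, cl (l.prod * (y * x * y⁻¹)) l) := by
  have h := mvA_split s x y [] l
  simpa using h

theorem mvA_last (s : X) (x y : G) (l : List G) {i : ℕ} (hi : l.length = i) :
    mvA i (s, x, y, l) = (s, x, y * x, l) := by
  have h := mvA_split s x y l []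
  rw [List.append_nil, hi] at h
  rw [h]
  simp

/-- the commutator relation -/
def Rel (g : G) (w : Pt X G) : Prop :=
  w.2.1 * w.2.2.1 * w.2.1⁻¹ * w.2.2.1⁻¹ = g * w.2.2.2.prod

theorem rel_mvA {g : G} {i : ℕ} {w : Pt X G} (hi : i ≤ w.2.2.2.length) (h : Rel g w) :
    Rel g (mvA i w) := by
  obtain ⟨s, x, y, l⟩ := w
  obtain ⟨p, q, hl, hp⟩ := exists_split l hi
  subst hl
  subst hp
  rw [mvA_split]
  unfold Rel at h ⊢
  dsimp only at h ⊢
  rw [List.prod_append] at h ⊢
  rw [cl_prod]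
  obtain ⟨K, hK⟩ : ∃ K, K = q.prod := ⟨_, rfl⟩
  obtain ⟨P, hP⟩ : ∃ P, P = p.prod := ⟨_, rfl⟩
  rw [← hK, ← hP] at h ⊢
  have h1 : g = x * y * x⁻¹ * y⁻¹ * (P * K)⁻¹ := by rw [h]; group
  rw [h1]
  group

theorem rel_mvB {g : G} {w : Pt X G} (h : Rel g w) : Rel g (mvB w) := by
  unfold Rel at h ⊢
  unfold mvB
  dsimp only
  rw [← h]
  group

theorem rel_mvC {g : G} {i : ℕ} {w : Pt X G} (hi : i < w.2.2.2.length) (h : Rel g w) :
    Rel g (mvC i w) := by
  obtain ⟨s, x, y, l⟩ := w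
  obtain ⟨p, z, q, hl, hp⟩ := exists_split' l hi
  subst hl
  subst hp
  rw [mvC_split]
  unfold Rel at h ⊢
  dsimp only at h ⊢
  rw [List.prod_append, List.prod_cons] at h ⊢
  obtain ⟨K, hK⟩ : ∃ K, K = q.prod := ⟨_, rfl⟩
  obtain ⟨P, hP⟩ : ∃ P, P = p.prod := ⟨_, rfl⟩
  rw [← hK, ← hP] at h ⊢
  have h1 : g = x * y * x⁻¹ * y⁻¹ * (P * (z * K))⁻¹ := by rw [h]; group
  rw [h1]
  group

theorem rel_mvT {g : G} {i : ℕ} {w : Pt X G} (hi : i ≤ w.2.2.2.length) (h : Rel g w) :
    Rel g (mvT i w) := by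
  obtain ⟨s, x, y, l⟩ := w
  obtain ⟨p, q, hl, hp⟩ := exists_split l hi
  subst hl
  subst hp
  rw [mvT_split]
  unfold Rel at h ⊢
  dsimp only at h ⊢
  rw [List.prod_append] at h ⊢
  rw [cl_prod, h]
  group

theorem mvF_val {g : G} (s : X) (x y : G) (l : List G) (h : Rel g (s, x, y, l)) :
    mvF (s, x, y, l) = (s, x * y⁻¹, g⁻¹ * x * (x * y⁻¹), cl (g⁻¹ * (x * y⁻¹)) l) := by
  unfold Rel at h
  dsimp only at h
  have hK : l.prod = g⁻¹ * (x * y * x⁻¹ * y⁻¹) := by rw [h]; group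
  unfold mvF
  change mvA l.length (mvA 0 (s, x * y⁻¹, y, l)) = _
  rw [mvA_zero, mvA_last _ _ _ _ (cl_length _ _), hK]
  simp only [Prod.mk.injEq, true_and]
  constructor
  · group
  · congr 1
    group

theorem mvF_length (w : Pt X G) : (mvF w).2.2.2.length = w.2.2.2.length := by
  obtain ⟨s, x, y, l⟩ := w
  unfold mvF
  change (mvA l.length (mvA 0 (s, x * y⁻¹, y, l))).2.2.2.length = l.length
  rw [mvA_zero, mvA_last _ _ _ _ (cl_length _ _)]
  exact cl_length _ _

theorem rel_mvF {g : G} {w : Pt X G} (h : Rel g w) : Rel g (mvF w) := by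
  unfold mvF
  apply rel_mvA
  · obtain ⟨s, x, y, l⟩ := w
    change l.length ≤ (mvA 0 (s, x * y⁻¹, y, l)).2.2.2.length
    rw [mvA_zero]
    change l.length ≤ (cl _ l).length
    rw [cl_length]
  · exact rel_mvA (Nat.zero_le _) (rel_mvB h)

theorem mvF2_val {g : G} (s : X) (x y : G) (l : List G) (h : Rel g (s, x, y, l)) :
    mvF (mvF (s, x, y, l)) = (s, x⁻¹ * g, g⁻¹ * x * y⁻¹ * x⁻¹ * g, cl (g⁻¹ * y⁻¹) l) := by
  have h1 := rel_mvF h
  rw [mvF_val _ _ _ _ h] at h1 ⊢
  rw [mvF_val _ _ _ _ h1, cl_cl]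
  simp only [Prod.mk.injEq, true_and]
  refine ⟨by group, by group, ?_⟩
  congr 1
  group

/-- **the chain relation** -/
theorem mvF4 [MulAction G X] {g : G} {w : Pt X G} (h : Rel g w) (hg : g • w.1 = w.1) :
    mvF (mvF (mvF (mvF w))) = cj g⁻¹ (mvT 0 w) := by
  obtain ⟨s, x, y, l⟩ := w
  have h2 := rel_mvF (rel_mvF h)
  rw [mvF2_val _ _ _ _ h] at h2 ⊢
  rw [mvF2_val _ _ _ _ h2, cl_cl]
  unfold Rel at h
  dsimp only at h hg
  have hK : l.prod = g⁻¹ * (x * y * x⁻¹ * y⁻¹) := by rw [h]; group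
  have hg' : g⁻¹ • s = s := by rw [inv_smul_eq_iff, hg]
  unfold cj mvT
  simp only [List.take_zero, List.drop_zero, List.nil_append, cl_cl, hg', hK, Prod.mk.injEq,
    true_and]
  refine ⟨by group, by group, ?_⟩
  congr 1
  group

/-! ### The lantern relation -/

theorem lantern {i : ℕ} {w : Pt X G} (hi : i < w.2.2.2.length) :
    mvT i (mvA (i + 1) (mvC i w)) = mvA i (mvA w.2.2.2.length (mvT (i + 1) w)) := by
  obtain ⟨s, x, y, l⟩ := w
  obtain ⟨p, z, q, hl, hp⟩ := exists_split' l hi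
  subst hl
  subst hp
  change mvT p.length (mvA (p.length + 1) (mvC p.length (s, x, y, p ++ (z :: q)))) =
    mvA p.length (mvA (p ++ (z :: q)).length (mvT (p.length + 1) (s, x, y, p ++ (z :: q))))
  have e1 : ∀ (a : G) (q : List G), p ++ (a :: q) = (p ++ [a]) ++ q := by
    intro a q
    simp
  have e2 : ∀ a : G, (p ++ [a]).length = p.length + 1 := by
    intro a
    simp
  obtain ⟨K, hK⟩ : ∃ K, K = q.prod := ⟨_, rfl⟩
  have hA : ∀ x y a : G, mvA (p.length + 1) (s, x, y, p ++ (a :: q)) =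
      (s, x, (K * (y * x * y⁻¹)) * y, p ++ (a :: cl (K * (y * x * y⁻¹)) q)) := by
    intro x y a
    rw [e1, ← e2 a, mvA_split, ← hK, ← e1]
  have hT : ∀ x y a : G, mvT (p.length + 1) (s, x, y, p ++ (a :: q)) =
      (s, x, y, p ++ (a :: cl K q)) := by
    intro x y a
    rw [e1, ← e2 a, mvT_split, ← hK, ← e1]
  rw [mvC_split, ← hK, hA, hT, mvT_split,
    mvA_last s x y (p ++ (z :: cl K q)) (i := (p ++ (z :: q)).length) (by simp), mvA_split]
  simp only [List.prod_cons, cl_prod, cl_cons, cl_cl, ← hK, Prod.mk.injEq, true_and]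
  refine ⟨by group, ?_⟩
  congr 2
  · group
  · congr 1
    group

/-! ### The moves commute with conjugations -/

theorem cj_mvA [MulAction G X] (r : G) (i : ℕ) (w : Pt X G) : mvA i (cj r w) = cj r (mvA i w) := by
  unfold mvA cj
  dsimp only
  simp only [cl_drop, cl_take, cl_prod, cl_cl, cl_append, Prod.mk.injEq, true_and]
  constructor
  · group
  · congr 2
    group

theorem cj_mvB [MulAction G X] (r : G) (w : Pt X G) : mvB (cj r w) = cj r (mvB w) := by
  unfold mvB cj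
  simp only [Prod.mk.injEq, true_and, and_true]
  group

theorem cj_mvT [MulAction G X] (r : G) (i : ℕ) (w : Pt X G) : mvT i (cj r w) = cj r (mvT i w) := by
  unfold mvT cj
  dsimp only
  simp only [cl_drop, cl_take, cl_prod, cl_cl, cl_append, Prod.mk.injEq, true_and]
  congr 2
  group

theorem cj_mvC [MulAction G X] (r : G) (i : ℕ) (w : Pt X G) : mvC i (cj r w) = cj r (mvC i w) := by
  unfold mvC cj
  dsimp only
  simp only [cl_drop, cl_take, cl_prod, cl_cl, cl_append, Prod.mk.injEq, true_and]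
  constructor
  · group
  · congr 3
    group

/-! ### Injectivity -/

theorem mvB_inj {w w' : Pt X G} (h : mvB w = mvB w') : w = w' := by
  obtain ⟨s, x, y, l⟩ := w
  obtain ⟨s', x', y', l'⟩ := w'
  unfold mvB at h
  simp only [Prod.mk.injEq] at h
  obtain ⟨h1, h2, h3, h4⟩ := h
  subst h3
  rw [mul_left_inj] at h2
  rw [h1, h2, h4]

omit [Group G] in
theorem split_inj {p q p' q' : List G} (h : p ++ q = p' ++ q') (hp : p.length = p'.length) :
    p = p' ∧ q = q' := List.append_inj h hp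

theorem mvA_inj {i : ℕ} {w w' : Pt X G} (hi : i ≤ w.2.2.2.length) (hi' : i ≤ w'.2.2.2.length)
    (h : mvA i w = mvA i w') : w = w' := by
  obtain ⟨s, x, y, l⟩ := w
  obtain ⟨s', x', y', l'⟩ := w'
  obtain ⟨p, q, hl, hp⟩ := exists_split l hi
  obtain ⟨p', q', hl', hp'⟩ := exists_split l' hi'
  subst hl
  subst hl'
  have h1 := mvA_split s x y p q
  have h2 := mvA_split s' x' y' p' q'
  rw [hp] at h1
  rw [hp'] at h2
  rw [h1, h2] at h
  simp only [Prod.mk.injEq] at h
  obtain ⟨h3, h4, h5, h6⟩ := h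
  obtain ⟨h7, h8⟩ := split_inj h6 (by rw [hp, hp'])
  obtain ⟨v, hv⟩ : ∃ v, v = q.prod * (y * x * y⁻¹) := ⟨_, rfl⟩
  obtain ⟨v', hv'⟩ : ∃ v', v' = q'.prod * (y' * x' * y'⁻¹) := ⟨_, rfl⟩
  rw [← hv, ← hv'] at h5 h8
  have h9 := congrArg List.prod h8
  rw [cl_prod, cl_prod] at h9
  -- `v` can be recovered
  have h10 : v = v' := by
    have e1 : v = (v * q.prod * v⁻¹) * ((v * y) * x * (v * y)⁻¹) := by
      have : v * q.prod * v⁻¹ * (v * y * x * (v * y)⁻¹) = v * (q.prod * (y * x * y⁻¹)) * v⁻¹ := by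
        group
      rw [this, ← hv, mul_inv_cancel_right]
    have e2 : v' = (v' * q'.prod * v'⁻¹) * ((v' * y') * x' * (v' * y')⁻¹) := by
      have : v' * q'.prod * v'⁻¹ * (v' * y' * x' * (v' * y')⁻¹) =
          v' * (q'.prod * (y' * x' * y'⁻¹)) * v'⁻¹ := by group
      rw [this, ← hv', mul_inv_cancel_right]
    rw [e1, e2, h9, h5, h4]
  rw [h10] at h5 h8
  rw [h3, h4, mul_left_cancel h5, h7, cl_inj h8]

theorem mvT_inj {i : ℕ} {w w' : Pt X G} (hi : i ≤ w.2.2.2.length) (hi' : i ≤ w'.2.2.2.length)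
    (h : mvT i w = mvT i w') : w = w' := by
  obtain ⟨s, x, y, l⟩ := w
  obtain ⟨s', x', y', l'⟩ := w'
  obtain ⟨p, q, hl, hp⟩ := exists_split l hi
  obtain ⟨p', q', hl', hp'⟩ := exists_split l' hi'
  subst hl
  subst hl'
  have h1 := mvT_split s x y p q
  have h2 := mvT_split s' x' y' p' q'
  rw [hp] at h1
  rw [hp'] at h2
  rw [h1, h2] at h
  simp only [Prod.mk.injEq] at h
  obtain ⟨h3, h4, h5, h6⟩ := h
  obtain ⟨h7, h8⟩ := split_inj h6 (by rw [hp, hp'])
  have h9 := congrArg List.prod h8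
  rw [cl_prod, cl_prod, mul_inv_cancel_right, mul_inv_cancel_right] at h9
  rw [h9] at h8
  rw [h3, h4, h5, h7, cl_inj h8]

theorem mvC_inj {i : ℕ} {w w' : Pt X G} (hi : i < w.2.2.2.length) (hi' : i < w'.2.2.2.length)
    (h : mvC i w = mvC i w') : w = w' := by
  obtain ⟨s, x, y, l⟩ := w
  obtain ⟨s', x', y', l'⟩ := w'
  obtain ⟨p, z, q, hl, hp⟩ := exists_split' l hi
  obtain ⟨p', z', q', hl', hp'⟩ := exists_split' l' hi'
  subst hl
  subst hl'
  have h1 := mvC_split s x y z p q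
  have h2 := mvC_split s' x' y' z' p' q'
  rw [hp] at h1
  rw [hp'] at h2
  rw [h1, h2] at h
  simp only [Prod.mk.injEq] at h
  obtain ⟨h3, h4, h5, h6⟩ := h
  obtain ⟨h7, h8⟩ := split_inj h6 (by rw [hp, hp'])
  rw [List.cons.injEq] at h8
  obtain ⟨h8, h9⟩ := h8
  subst h9
  obtain ⟨K, hK⟩ : ∃ K, K = q.prod := ⟨_, rfl⟩
  rw [← hK] at h5 h8
  obtain ⟨v, hv⟩ : ∃ v, v = K⁻¹ * z * K * (y * x * y⁻¹) := ⟨_, rfl⟩
  obtain ⟨v', hv'⟩ : ∃ v', v' = K⁻¹ * z' * K * (y' * x' * y'⁻¹) := ⟨_, rfl⟩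
  rw [← hv, ← hv'] at h5 h8
  have h10 : v = v' := by
    have e1 : v = (K⁻¹ * (K * v * K⁻¹ * z * (K * v * K⁻¹)⁻¹) * K) * ((v * y) * x * (v * y)⁻¹) := by
      have : (K⁻¹ * (K * v * K⁻¹ * z * (K * v * K⁻¹)⁻¹) * K) * ((v * y) * x * (v * y)⁻¹) =
          v * (K⁻¹ * z * K * (y * x * y⁻¹)) * v⁻¹ := by group
      rw [this, ← hv, mul_inv_cancel_right]
    have e2 : v' = (K⁻¹ * (K * v' * K⁻¹ * z' * (K * v' * K⁻¹)⁻¹) * K) *
        ((v' * y') * x' * (v' * y')⁻¹) := by
      have : (K⁻¹ * (K * v' * K⁻¹ * z' * (K * v' * K⁻¹)⁻¹) * K) * ((v' * y') * x' * (v' * y')⁻¹) =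
          v' * (K⁻¹ * z' * K * (y' * x' * y'⁻¹)) * v'⁻¹ := by group
      rw [this, ← hv', mul_inv_cancel_right]
    rw [e1, e2, h8, h5, h4]
  rw [h10] at h5 h8
  have h11 : z = z' := by
    rw [mul_left_inj] at h8
    exact mul_left_cancel h8
  rw [h3, h4, mul_left_cancel h5, h7, h11]

/-! ### The subgroup generated by the entries -/

theorem prod_mem' {H : Subgroup G} {l : List G} (h : ∀ z ∈ l, z ∈ H) : l.prod ∈ H :=
  list_prod_mem h

theorem cl_mem {H : Subgroup G} {r : G} (hr : r ∈ H) {l : List G} :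
    (∀ z ∈ cl r l, z ∈ H) ↔ ∀ z ∈ l, z ∈ H := by
  constructor
  · intro h z hz
    have h1 := h (r * z * r⁻¹) (by rw [mem_cl]; simpa [mul_assoc] using hz)
    have h2 := H.mul_mem (H.mul_mem (H.inv_mem hr) h1) hr
    have e : r⁻¹ * (r * z * r⁻¹) * r = z := by group
    rwa [e] at h2
  · intro h z hz
    rw [mem_cl] at hz
    have h2 := H.mul_mem (H.mul_mem hr (h _ hz)) (H.inv_mem hr)
    have e : r * (r⁻¹ * z * r) * r⁻¹ = z := by group
    rwa [e] at h2

theorem Mem_mvB {H : Subgroup G} {w : Pt X G} : Mem H (mvB w) ↔ Mem H w := by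
  unfold Mem mvB
  dsimp only
  constructor
  · rintro ⟨h1, h2, h3⟩
    refine ⟨?_, h2, h3⟩
    have := H.mul_mem h1 h2
    rwa [inv_mul_cancel_right] at this
  · rintro ⟨h1, h2, h3⟩
    exact ⟨H.mul_mem h1 (H.inv_mem h2), h2, h3⟩

theorem Mem_mvA {H : Subgroup G} {i : ℕ} {w : Pt X G} (hi : i ≤ w.2.2.2.length) :
    Mem H (mvA i w) ↔ Mem H w := by
  obtain ⟨s, x, y, l⟩ := w
  obtain ⟨p, q, hl, hp⟩ := exists_split l hi
  subst hl
  subst hp
  rw [mvA_split]
  unfold Mem
  dsimp only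
  obtain ⟨v, hv⟩ : ∃ v, v = q.prod * (y * x * y⁻¹) := ⟨_, rfl⟩
  rw [← hv]
  constructor
  · rintro ⟨h1, h2, h3⟩
    have h4 : ∀ z ∈ cl v q, z ∈ H := fun z hz => h3 z (List.mem_append_right _ hz)
    have h5 := prod_mem' h4
    have h6 : v ∈ H := by
      have e1 : v = (cl v q).prod * ((v * y) * x * (v * y)⁻¹) := by
        rw [cl_prod]
        have : v * q.prod * v⁻¹ * (v * y * x * (v * y)⁻¹) = v * (q.prod * (y * x * y⁻¹)) * v⁻¹ := by
          group
        rw [this, ← hv, mul_inv_cancel_right]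
      rw [e1]
      exact H.mul_mem h5 (H.mul_mem (H.mul_mem h2 h1) (H.inv_mem h2))
    refine ⟨h1, ?_, ?_⟩
    · have := H.mul_mem (H.inv_mem h6) h2
      rwa [inv_mul_cancel_left] at this
    · intro z hz
      rcases List.mem_append.1 hz with hz | hz
      · exact h3 z (List.mem_append_left _ hz)
      · exact (cl_mem h6).1 h4 z hz
  · rintro ⟨h1, h2, h3⟩
    have h4 : ∀ z ∈ q, z ∈ H := fun z hz => h3 z (List.mem_append_right _ hz)
    have h6 : v ∈ H := by
      rw [hv]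
      exact H.mul_mem (prod_mem' h4) (H.mul_mem (H.mul_mem h2 h1) (H.inv_mem h2))
    refine ⟨h1, H.mul_mem h6 h2, ?_⟩
    intro z hz
    rcases List.mem_append.1 hz with hz | hz
    · exact h3 z (List.mem_append_left _ hz)
    · exact (cl_mem h6).2 h4 z hz

theorem Mem_mvT {H : Subgroup G} {i : ℕ} {w : Pt X G} (hi : i ≤ w.2.2.2.length) :
    Mem H (mvT i w) ↔ Mem H w := by
  obtain ⟨s, x, y, l⟩ := w
  obtain ⟨p, q, hl, hp⟩ := exists_split l hi
  subst hl
  subst hp
  rw [mvT_split]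
  unfold Mem
  dsimp only
  constructor
  · rintro ⟨h1, h2, h3⟩
    have h4 : ∀ z ∈ cl q.prod q, z ∈ H := fun z hz => h3 z (List.mem_append_right _ hz)
    have h5 : q.prod ∈ H := by
      have := prod_mem' h4
      rwa [cl_prod, mul_inv_cancel_right] at this
    refine ⟨h1, h2, ?_⟩
    intro z hz
    rcases List.mem_append.1 hz with hz | hz
    · exact h3 z (List.mem_append_left _ hz)
    · exact (cl_mem h5).1 h4 z hz
  · rintro ⟨h1, h2, h3⟩
    have h4 : ∀ z ∈ q, z ∈ H := fun z hz => h3 z (List.mem_append_right _ hz)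
    refine ⟨h1, h2, ?_⟩
    intro z hz
    rcases List.mem_append.1 hz with hz | hz
    · exact h3 z (List.mem_append_left _ hz)
    · exact (cl_mem (prod_mem' h4)).2 h4 z hz

theorem Mem_mvC {H : Subgroup G} {i : ℕ} {w : Pt X G} (hi : i < w.2.2.2.length) :
    Mem H (mvC i w) ↔ Mem H w := by
  obtain ⟨s, x, y, l⟩ := w
  obtain ⟨p, z, q, hl, hp⟩ := exists_split' l hi
  subst hl
  subst hp
  rw [mvC_split]
  unfold Mem
  dsimp only
  obtain ⟨K, hK⟩ : ∃ K, K = q.prod := ⟨_, rfl⟩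
  rw [← hK]
  obtain ⟨v, hv⟩ : ∃ v, v = K⁻¹ * z * K * (y * x * y⁻¹) := ⟨_, rfl⟩
  rw [← hv]
  constructor
  · rintro ⟨h1, h2, h3⟩
    have h4 : ∀ a ∈ q, a ∈ H := fun a ha =>
      h3 a (List.mem_append_right _ (List.mem_cons_of_mem _ ha))
    have h5 : K ∈ H := by rw [hK]; exact prod_mem' h4
    have h6 := h3 _ (List.mem_append_right _ (List.mem_cons_self ..))
    have h7 : v ∈ H := by
      have e1 : v = (K⁻¹ * (K * v * K⁻¹ * z * (K * v * K⁻¹)⁻¹) * K) *
          ((v * y) * x * (v * y)⁻¹) := by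
        have : (K⁻¹ * (K * v * K⁻¹ * z * (K * v * K⁻¹)⁻¹) * K) * ((v * y) * x * (v * y)⁻¹) =
            v * (K⁻¹ * z * K * (y * x * y⁻¹)) * v⁻¹ := by group
        rw [this, ← hv, mul_inv_cancel_right]
      rw [e1]
      exact H.mul_mem (H.mul_mem (H.mul_mem (H.inv_mem h5) h6) h5)
        (H.mul_mem (H.mul_mem h2 h1) (H.inv_mem h2))
    refine ⟨h1, ?_, ?_⟩
    · have := H.mul_mem (H.inv_mem h7) h2
      rwa [inv_mul_cancel_left] at this
    · intro a ha
      rcases List.mem_append.1 ha with ha | ha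
      · exact h3 a (List.mem_append_left _ ha)
      · rcases List.mem_cons.1 ha with rfl | ha
        · have h8 : K * v * K⁻¹ ∈ H := H.mul_mem (H.mul_mem h5 h7) (H.inv_mem h5)
          have h9 := H.mul_mem (H.mul_mem (H.inv_mem h8) h6) h8
          have e : (K * v * K⁻¹)⁻¹ * (K * v * K⁻¹ * a * (K * v * K⁻¹)⁻¹) * (K * v * K⁻¹) = a := by
            group
          rwa [e] at h9
        · exact h4 a ha
  · rintro ⟨h1, h2, h3⟩
    have h4 : ∀ a ∈ q, a ∈ H := fun a ha =>
      h3 a (List.mem_append_right _ (List.mem_cons_of_mem _ ha))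
    have h5 : K ∈ H := by rw [hK]; exact prod_mem' h4
    have h6 : z ∈ H := h3 _ (List.mem_append_right _ (List.mem_cons_self ..))
    have h7 : v ∈ H := by
      rw [hv]
      exact H.mul_mem (H.mul_mem (H.mul_mem (H.inv_mem h5) h6) h5)
        (H.mul_mem (H.mul_mem h2 h1) (H.inv_mem h2))
    refine ⟨h1, H.mul_mem h7 h2, ?_⟩
    intro a ha
    rcases List.mem_append.1 ha with ha | ha
    · exact h3 a (List.mem_append_left _ ha)
    · rcases List.mem_cons.1 ha with rfl | ha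
      · have h8 : K * v * K⁻¹ ∈ H := H.mul_mem (H.mul_mem h5 h7) (H.inv_mem h5)
        exact H.mul_mem (H.mul_mem h8 h6) (H.inv_mem h8)
      · exact h4 a ha

end

end Pool.Agent.H98BT
end -- Pool.Agent.Helper98_BT.Mov

section -- Pool.Agent.Helper98_ML.TL1

/-!
# Squad ML, stage 2, row TL1: any number of punctures (lantern relation)
-/

open scoped BigOperators

set_option linter.unusedSectionVars false

noncomputable section

namespace Pool.Agent.PP.ML.H98

open Pool.Agent.PP.ML Pool.Agent.Helper71_ML Pool.Agent.PP.ML.H71 Pool.Agent.H98BT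
  Pool.Agent.PP.ML.H24

section

variable {G X : Type} [Group G] [Finite G] [MulAction G X] {R : Subgroup G} {g : G}
  {Cs : List (Set G)}

theorem mem_norm {U : Subgroup G} {x : G} :
    x ∈ Subgroup.normalizer (U : Set G) ↔ ∀ u ∈ U, x * u * x⁻¹ ∈ U := by
  constructor
  · intro h u hu
    exact (Subgroup.mem_normalizer_iff.1 h u).1 hu
  · intro h
    exact Subgroup.mem_normalizer_fintype h

theorem inOmL_iff {w : X × G × G × List G} :
    InOmL R g Cs w ↔ Mem (MulAction.stabilizer G w.1) w ∧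
      List.Forall₂ (fun z K => z ∈ K) w.2.2.2 Cs ∧ Rel g w ∧
      ∀ U : Subgroup G, U ≤ R → U ≤ MulAction.stabilizer G w.1 →
        Mem (Subgroup.normalizer (U : Set G)) w → U = ⊥ := by
  constructor
  · rintro ⟨h1, h2, h3, h4, h5, h6⟩
    refine ⟨⟨h1, h2, h3⟩, h4, h5, ?_⟩
    rintro U hU hf ⟨hx, hy, hl⟩
    exact h6 U hU (fun u hu => hf hu) (mem_norm.1 hx) (mem_norm.1 hy)
      (fun z hz => mem_norm.1 (hl z hz))
  · rintro ⟨⟨h1, h2, h3⟩, h4, h5, h6⟩
    refine ⟨h1, h2, h3, h4, h5, ?_⟩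
    intro U hU hf hx hy hl
    exact h6 U hU (fun u hu => hf u hu) ⟨mem_norm.2 hx, mem_norm.2 hy,
      fun z hz => mem_norm.2 (hl z hz)⟩

/-- a move -/
structure IsMove (n : ℕ) (F : X × G × G × List G → X × G × G × List G) : Prop where
  fst : ∀ w, (F w).1 = w.1
  mem : ∀ w : X × G × G × List G, w.2.2.2.length = n → ∀ H : Subgroup G, Mem H (F w) ↔ Mem H w
  rel : ∀ w : X × G × G × List G, w.2.2.2.length = n → ∀ g : G, Rel g w → Rel g (F w)
  fa : ∀ w : X × G × G × List G, w.2.2.2.length = n → ∀ Cs : List (Set G), (∀ K ∈ Cs, Cj K) →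
    List.Forall₂ (fun z K => z ∈ K) w.2.2.2 Cs →
      List.Forall₂ (fun z K => z ∈ K) (F w).2.2.2 Cs
  inj : ∀ w w' : X × G × G × List G, w.2.2.2.length = n → w'.2.2.2.length = n → F w = F w' →
    w = w'
  com : ∀ (r : G) w, F (cj r w) = cj r (F w)

theorem IsMove.inOm {F : X × G × G × List G → X × G × G × List G} (hF : IsMove Cs.length F)
    (hCs : ∀ K ∈ Cs, Cj K) {w : X × G × G × List G} (h : InOmL R g Cs w) :
    InOmL R g Cs (F w) := by
  have hl : w.2.2.2.length = Cs.length := h.ml.length_eq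
  rw [inOmL_iff] at h ⊢
  obtain ⟨h1, h2, h3, h4⟩ := h
  refine ⟨?_, hF.fa w hl Cs hCs h2, hF.rel w hl g h3, ?_⟩
  · rw [hF.fst, hF.mem w hl]
    exact h1
  · intro U hU hf hm
    rw [hF.fst] at hf
    rw [hF.mem w hl] at hm
    exact h4 U hU hf hm

variable [Finite X]

/-- the permutation of a move -/
def pm {F : X × G × G × List G → X × G × G × List G} (hF : IsMove Cs.length F)
    (hCs : ∀ K ∈ Cs, Cj K) : Equiv.Perm (Om (X := X) R g Cs) :=
  Equiv.ofBijective (fun w => ⟨F w.1, hF.inOm hCs w.2⟩) (Finite.injective_iff_bijective.1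
    (fun w w' e => Subtype.ext (hF.inj _ _ w.2.ml.length_eq w'.2.ml.length_eq
      (congrArg Subtype.val e))))

theorem pm_val {F : X × G × G × List G → X × G × G × List G} (hF : IsMove Cs.length F)
    (hCs : ∀ K ∈ Cs, Cj K) (w : Om (X := X) R g Cs) : (pm hF hCs w).1 = F w.1 := rfl

theorem fa_app {p q : List G} {Cs : List (Set G)}
    (h : List.Forall₂ (fun z K => z ∈ K) (p ++ q) Cs) :
    ∃ Cp Cq, Cs = Cp ++ Cq ∧ List.Forall₂ (fun z K => z ∈ K) p Cp ∧
      List.Forall₂ (fun z K => z ∈ K) q Cq := by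
  induction p generalizing Cs with
  | nil => exact ⟨[], Cs, rfl, List.Forall₂.nil, h⟩
  | cons a p ih =>
    cases h with
    | cons h1 h2 =>
      obtain ⟨Cp, Cq, rfl, h3, h4⟩ := ih h2
      exact ⟨_ :: Cp, Cq, rfl, List.Forall₂.cons h1 h3, h4⟩

theorem app_fa {p q : List G} {Cp Cq : List (Set G)}
    (h : List.Forall₂ (fun z K => z ∈ K) p Cp) (h' : List.Forall₂ (fun z K => z ∈ K) q Cq) :
    List.Forall₂ (fun z K => z ∈ K) (p ++ q) (Cp ++ Cq) := by
  induction h with
  | nil => exact h'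
  | cons h1 _ ih => exact List.Forall₂.cons h1 ih

theorem fa_cl {r : G} {q : List G} {Cs : List (Set G)} (hCs : ∀ K ∈ Cs, Cj K)
    (h : List.Forall₂ (fun z K => z ∈ K) q Cs) :
    List.Forall₂ (fun z K => z ∈ K) (H98BT.cl r q) Cs := H24.cl_forall hCs r h

theorem isMove_mvA {n i : ℕ} (hi : i ≤ n) : IsMove (X := X) (G := G) n (mvA i) := by
  refine ⟨fun w => rfl, ?_, ?_, ?_, ?_, ?_⟩
  · intro w hw H
    exact Mem_mvA (by rw [hw]; exact hi)
  · intro w hw g h
    exact rel_mvA (by rw [hw]; exact hi) h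
  · intro w hw Cs hCs h
    obtain ⟨s, x, y, l⟩ := w
    obtain ⟨p, q, hl, hp⟩ := exists_split l (i := i) (by rw [show l.length = n from hw]; exact hi)
    subst hl
    subst hp
    rw [mvA_split]
    obtain ⟨Cp, Cq, rfl, h3, h4⟩ := fa_app h
    exact app_fa h3 (fa_cl (fun K hK => hCs K (List.mem_append_right _ hK)) h4)
  · intro w w' hw hw' h
    exact mvA_inj (by rw [hw]; exact hi) (by rw [hw']; exact hi) h
  · intro r w
    exact cj_mvA r i w

theorem isMove_mvB {n : ℕ} : IsMove (X := X) (G := G) n mvB := by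
  refine ⟨fun w => rfl, ?_, ?_, ?_, ?_, ?_⟩
  · intro w hw H
    exact Mem_mvB
  · intro w hw g h
    exact rel_mvB h
  · intro w hw Cs hCs h
    exact h
  · intro w w' hw hw' h
    exact mvB_inj h
  · intro r w
    exact cj_mvB r w

theorem isMove_mvT {n i : ℕ} (hi : i ≤ n) : IsMove (X := X) (G := G) n (mvT i) := by
  refine ⟨fun w => rfl, ?_, ?_, ?_, ?_, ?_⟩
  · intro w hw H
    exact Mem_mvT (by rw [hw]; exact hi)
  · intro w hw g h
    exact rel_mvT (by rw [hw]; exact hi) h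
  · intro w hw Cs hCs h
    obtain ⟨s, x, y, l⟩ := w
    obtain ⟨p, q, hl, hp⟩ := exists_split l (i := i) (by rw [show l.length = n from hw]; exact hi)
    subst hl
    subst hp
    rw [mvT_split]
    obtain ⟨Cp, Cq, rfl, h3, h4⟩ := fa_app h
    exact app_fa h3 (fa_cl (fun K hK => hCs K (List.mem_append_right _ hK)) h4)
  · intro w w' hw hw' h
    exact mvT_inj (by rw [hw]; exact hi) (by rw [hw']; exact hi) h
  · intro r w
    exact cj_mvT r i w

theorem isMove_mvC {n i : ℕ} (hi : i < n) : IsMove (X := X) (G := G) n (mvC i) := by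
  refine ⟨fun w => rfl, ?_, ?_, ?_, ?_, ?_⟩
  · intro w hw H
    exact Mem_mvC (by rw [hw]; exact hi)
  · intro w hw g h
    exact rel_mvC (by rw [hw]; exact hi) h
  · intro w hw Cs hCs h
    obtain ⟨s, x, y, l⟩ := w
    obtain ⟨p, z, q, hl, hp⟩ := exists_split' l (i := i)
      (by rw [show l.length = n from hw]; exact hi)
    subst hl
    subst hp
    rw [mvC_split]
    obtain ⟨Cp, Cq, rfl, h3, h4⟩ := fa_app h
    apply app_fa h3
    cases h4 with
    | cons h5 h6 =>
      exact List.Forall₂.cons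
        (hCs _ (List.mem_append_right _ List.mem_cons_self) _ _ h5) h6
  · intro w w' hw hw' h
    exact mvC_inj (by rw [hw]; exact hi) (by rw [hw']; exact hi) h
  · intro r w
    exact cj_mvC r i w

end

theorem tl1 (core : CoreStmt) : TL1Stmt := by
  intro G X A _ _ _ _ _ R g ρ hR Cs hCs j hj
  let act : MulAction R (Om (X := X) R g Cs) := act hR hCs
  have hsm : ∀ (r : R) (w : Om (X := X) R g Cs), (r • w).1 = cjl r.1 w.1 := fun _ _ => rfl
  have hfree : ∀ (r : R) (w : Om (X := X) R g Cs), r • w = w → r = 1 := by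
    intro r w h
    exact Subtype.ext (free_cjl w.2 r.2 (congrArg Subtype.val h))
  obtain ⟨k, hk⟩ := exists_equiva (Ω := Om (X := X) R g Cs) ρ fun r w h => by
    rw [hfree r w h, map_one]
  have hlen : ∀ w : Om (X := X) R g Cs, w.1.2.2.2.length = Cs.length := fun w => w.2.ml.length_eq
  have hcom : ∀ {F : X × G × G × List G → X × G × G × List G} (hF : IsMove Cs.length F),
      Comm R (pm (R := R) (g := g) hF hCs) := fun hF r w => Subtype.ext (hF.com r.1 w.1)
  have t1 : tau R k (pm (R := R) (g := g) (isMove_mvA (X := X) (G := G) le_rfl) hCs) = 1 := by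
    rw [← core G X A R g ρ hR Cs hCs k hk]
    congr 1
    apply Equiv.ext
    intro w
    apply Subtype.ext
    rw [pm_val]
    obtain ⟨⟨s, x, y, l⟩, hw⟩ := w
    exact mvA_last s x y l hw.ml.length_eq
  -- all moves have trivial transfer
  have hbr : ∀ {F : X × G × G × List G → X × G × G × List G} (hF : IsMove Cs.length F),
      (∀ w : X × G × G × List G, w.2.2.2.length = Cs.length → F (mvB (F w)) = mvB (F (mvB w))) →
      tau R k (pm (R := R) (g := g) hF hCs) =
        tau R k (pm (R := R) (g := g) (isMove_mvB (X := X) (G := G)) hCs) := by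
    intro F hF h
    apply tau_braid hk (hcom hF) (hcom isMove_mvB)
    apply Equiv.ext
    intro w
    exact Subtype.ext (h w.1 (hlen w))
  have tb : tau R k (pm (R := R) (g := g) (isMove_mvB (X := X) (G := G)) hCs) = 1 := by
    rw [← hbr (isMove_mvA le_rfl) fun w hw => mvA_braid hw.ge]
    exact t1
  have tA : ∀ {i : ℕ} (hi : i ≤ Cs.length),
      tau R k (pm (R := R) (g := g) (isMove_mvA (X := X) (G := G) hi) hCs) = 1 := by
    intro i hi
    rw [hbr (isMove_mvA hi) fun w hw => mvA_braid (hi.trans hw.ge)]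
    exact tb
  have tC : ∀ {i : ℕ} (hi : i < Cs.length),
      tau R k (pm (R := R) (g := g) (isMove_mvC (X := X) (G := G) hi) hCs) = 1 := by
    intro i hi
    rw [hbr (isMove_mvC hi) fun w hw => mvC_braid (hi.trans_le hw.ge)]
    exact tb
  -- the lantern relation
  have tT : ∀ (m i : ℕ) (hi : i ≤ Cs.length), i + m = Cs.length →
      tau R k (pm (R := R) (g := g) (isMove_mvT (X := X) (G := G) hi) hCs) = 1 := by
    intro m
    induction m with
    | zero =>
      intro i hi him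
      have e : pm (R := R) (g := g) (isMove_mvT (X := X) (G := G) hi) hCs = 1 := by
        apply Equiv.ext
        intro w
        apply Subtype.ext
        rw [pm_val]
        have h1 := hlen w
        obtain ⟨⟨s, x, y, l⟩, hw⟩ := w
        change l.length = Cs.length at h1
        have h2 := mvT_split s x y l []
        rw [List.append_nil, cl_nil, List.append_nil, h1, ← him, add_zero] at h2
        exact h2
      rw [e, tau_one]
    | succ m ih =>
      intro i hi him
      have hi' : i < Cs.length := by omega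
      have hi1 : i + 1 ≤ Cs.length := by omega
      have e : pm (R := R) (g := g) (isMove_mvT (X := X) (G := G) hi) hCs *
          (pm (R := R) (g := g) (isMove_mvA (X := X) (G := G) hi1) hCs *
            pm (R := R) (g := g) (isMove_mvC (X := X) (G := G) hi') hCs) =
          pm (R := R) (g := g) (isMove_mvA (X := X) (G := G) hi) hCs *
            (pm (R := R) (g := g) (isMove_mvA (X := X) (G := G) le_rfl) hCs *
              pm (R := R) (g := g) (isMove_mvT (X := X) (G := G) hi1) hCs) := by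
        apply Equiv.ext
        intro w
        apply Subtype.ext
        have h1 := lantern (i := i) (w := w.1) (by rw [hlen w]; exact hi')
        rw [hlen w] at h1
        exact h1
      have h2 := congrArg (tau R k) e
      rw [tau_mul hk (hcom _) ((hcom _).mul (hcom _)), tau_mul hk (hcom _) (hcom _),
        tau_mul hk (hcom _) ((hcom _).mul (hcom _)), tau_mul hk (hcom _) (hcom _),
        tA hi1, tC hi', tA hi, t1, ih (i + 1) hi1 (by omega)] at h2
      simp only [mul_one] at h2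
      exact h2
  -- the permutation `κ = a₁ A₀ b`
  obtain ⟨κ, hκ⟩ : ∃ κ : Equiv.Perm (Om (X := X) R g Cs),
      κ = pm (R := R) (g := g) (isMove_mvA (X := X) (G := G) le_rfl) hCs *
        (pm (R := R) (g := g) (isMove_mvA (X := X) (G := G) (Nat.zero_le _)) hCs *
          pm (R := R) (g := g) (isMove_mvB (X := X) (G := G)) hCs) := ⟨_, rfl⟩
  have cκ : Comm R κ := by
    rw [hκ]
    exact (hcom _).mul ((hcom _).mul (hcom _))
  have tκ : tau R k κ = 1 := by
    rw [hκ, tau_mul hk (hcom _) ((hcom _).mul (hcom _)), tau_mul hk (hcom _) (hcom _), t1,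
      tA (Nat.zero_le _), tb, one_mul, one_mul]
  -- the central permutation `c` : conjugation by `g⁻¹`
  obtain ⟨T, hT⟩ : ∃ T : Equiv.Perm (Om (X := X) R g Cs),
      T = pm (R := R) (g := g) (isMove_mvT (X := X) (G := G) (Nat.zero_le _)) hCs := ⟨_, rfl⟩
  have cT : Comm R T := by
    rw [hT]
    exact hcom _
  have tT0 : tau R k T = 1 := by
    rw [hT]
    exact tT Cs.length 0 (Nat.zero_le _) (by omega)
  obtain ⟨c, hc⟩ : ∃ c : Equiv.Perm (Om (X := X) R g Cs), c = κ ^ 4 * T⁻¹ := ⟨_, rfl⟩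
  have cc : Comm R c := by
    rw [hc]
    exact (cκ.pow 4).mul (H71.Comm.inv cT)
  have hcT : c * T = κ ^ 4 := by rw [hc, inv_mul_cancel_right]
  have tc : tau R k c = 1 := by
    have h1 := congrArg (tau R k) hcT
    rw [tau_mul hk cc cT, tau_pow hk cκ, tκ, one_pow, tT0, mul_one] at h1
    exact h1
  -- the chain relation
  have hκv : ∀ w : Om (X := X) R g Cs, (κ w).1 = mvF w.1 := by
    intro w
    rw [hκ]
    have h1 := hlen w
    have e : mvF w.1 = mvA w.1.2.2.2.length (mvA 0 (mvB w.1)) := rfl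
    rw [e, h1]
    rfl
  have hcv : ∀ w : Om (X := X) R g Cs, (c w).1 = cjl g⁻¹ w.1 := by
    intro w
    obtain ⟨v, hv⟩ := T.surjective w
    have h1 : c w = (κ ^ 4) v := by
      rw [← hcT, ← hv]
      rfl
    have h2 : ((κ ^ 4) v).1 = mvF (mvF (mvF (mvF v.1))) := by
      have e : (κ ^ 4) v = κ (κ (κ (κ v))) := rfl
      rw [e, hκv, hκv, hκv, hκv]
    have h3 := mvF4 (g := g) (w := v.1) v.2.cm (g_smul v.2)
    have h4 : (T v).1 = mvT 0 v.1 := by
      rw [hT]
      rfl
    rw [h1, h2, h3, ← hv, h4]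
    rfl
  -- powers
  have hpow : ∀ (i : ℕ) (w : Om (X := X) R g Cs), ((c ^ i) w).1 = cjl (g ^ i)⁻¹ w.1 := by
    intro i
    induction i with
    | zero =>
      intro w
      rw [pow_zero, pow_zero, inv_one, cjl_one]
      rfl
    | succ i ih =>
      intro w
      rw [pow_succ', Equiv.Perm.mul_apply, hcv, ih, ← cjl_mul, pow_succ, mul_inv_rev]
  obtain ⟨r₀, hr₀⟩ : ∃ r₀ : R, r₀ = (⟨g ^ j, hj⟩ : R)⁻¹ := ⟨_, rfl⟩
  have hθ : ∀ w : Om (X := X) R g Cs, (c ^ j) w = r₀ • w := by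
    intro w
    apply Subtype.ext
    rw [hpow, hsm, hr₀]
    rfl
  have h5 := tau_smul hk (cc.pow j) hθ
  rw [tau_pow hk cc, tc, one_pow] at h5
  have h6 : orderOf (ρ r₀) ∣ Nat.card (MulAction.orbitRel.Quotient R (Om (X := X) R g Cs)) :=
    orderOf_dvd_of_pow_eq_one h5.symm
  have hord : orderOf (ρ r₀) = orderOf (ρ ⟨g ^ j, hj⟩) := by
    rw [hr₀, map_inv, orderOf_inv]
  have h9 : {w : X × G × G × List G | InOmL R g Cs w}.ncard = Nat.card (Om (X := X) R g Cs) :=
    rfl
  rw [h9, card_free hfree, mul_comm (Nat.card R), ← hord]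
  exact Nat.mul_dvd_mul_right h6 _

end Pool.Agent.PP.ML.H98
end
end -- Pool.Agent.Helper98_ML.TL1
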