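import Pool.Agent.Helper50_PP.Bid
import Pool.Agent.Helper50_PP.Ffa
import Pool.Agent.Helper66_ML.Stmts3
import Pool.Agent.Helper83_WRA.LabSum

/-!
# Merged copies (generated) of the modules

* `Pool.Agent.Helper90_CC.Main`
* `Pool.Agent.Helper10_ML.Glu`
* `Pool.Agent.Helper28_ML.LYO`
* `Pool.Agent.Helper6_ML.MN3`
-/

set_option autoImplicit false

section -- Pool.Agent.Helper90_CC.Main

/-!
CC, module MAIN: the equivalence of Q1 with the congruences.
-/

open scoped BigOperators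

noncomputable section

namespace Pool.Agent.Helper90_CC

open Pool.Agent.Helper51_AWC Pool.Agent.Helper79_WRA Pool.Agent.Helper98_CC

theorem intCast_FF {ℓ : ℕ} [hp : Fact ℓ.Prime] {M : Ideal (integralClosure ℤ ℂ)}
    [hM : M.IsMaximal] (hℓ : (ℓ : integralClosure ℤ ℂ) ∈ M) (n : ℤ) :
    (n : FF M) = 0 ↔ (ℓ : ℤ) ∣ n := by
  have hnt : Nontrivial (integralClosure ℤ ℂ ⧸ M) := Ideal.Quotient.nontrivial_iff.2 hM.ne_top
  have hchar : CharP (integralClosure ℤ ℂ ⧸ M) ℓ := by
    rw [CharP.charP_iff_prime_eq_zero hp.out]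
    have := Ideal.Quotient.eq_zero_iff_mem.2 hℓ
    simpa using this
  exact CharP.intCast_eq_zero_iff (FF M) ℓ n

/-- a function on labels that gives the alternating sums -/
def SS (ℓ : ℕ) (M : Ideal (integralClosure ℤ ℂ)) (G : Type) [Group G] [Finite G]
    (β : G → FF M) : ℤ := asum ℓ M β / Nat.card G

theorem asum_labF {ℓ : ℕ} [Fact ℓ.Prime] (M : Ideal (integralClosure ℤ ℂ)) {G : Type} [Group G]
    [Finite G] (hop : opCore ℓ G = ⊥) {χ : G → ℂ} (hχ : χ ∈ Irr G) :
    asum ℓ M (labF M χ) = (Nat.card G : ℤ) * altSum ℓ M χ :=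
  H83.labSum ℓ M G hop χ hχ

theorem SS_labF {ℓ : ℕ} [Fact ℓ.Prime] (M : Ideal (integralClosure ℤ ℂ)) {G : Type} [Group G]
    [Finite G] (hop : opCore ℓ G = ⊥) {χ : G → ℂ} (hχ : χ ∈ Irr G) :
    SS ℓ M G (labF M χ) = altSum ℓ M χ := by
  unfold SS
  rw [asum_labF M hop hχ]
  apply Int.mul_ediv_cancel_left
  exact_mod_cast Nat.card_pos.ne'

open Classical in
/-- the indicator function of the labels of defect zero -/
def ee (ℓ : ℕ) (M : Ideal (integralClosure ℤ ℂ)) (G : Type) [Group G] [Finite G]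
    (β : G → FF M) : ℤ := if ∃ ξ ∈ DZ ℓ M G, β = labF M ξ then 1 else 0

theorem Labs_eq (M : Ideal (integralClosure ℤ ℂ)) (G : Type) [Group G] :
    Labs M G = labF M '' Irr G := by
  ext β
  constructor
  · rintro ⟨χ, hχ, rfl⟩
    exact ⟨χ, hχ, rfl⟩
  · rintro ⟨χ, hχ, rfl⟩
    exact ⟨χ, hχ, rfl⟩

theorem Labs_finite (M : Ideal (integralClosure ℤ ℂ)) (G : Type) [Group G] [Finite G] :
    (Labs M G).Finite := by
  have := Fintype.ofFinite G
  rw [Labs_eq]
  exact irr_finite'.image _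

section

variable {ℓ : ℕ} [hp : Fact ℓ.Prime] {M : Ideal (integralClosure ℤ ℂ)} [hM : M.IsMaximal]
  (hℓ : (ℓ : integralClosure ℤ ℂ) ∈ M) {G : Type} [Group G] [Finite G] (hop : opCore ℓ G = ⊥)

include hℓ hop in
theorem sum_DZ (hdzu : DzuStmt) (c : G) :
    ∑ᶠ (χ : G → ℂ) (_ : χ ∈ DZ ℓ M G), labF M χ c =
      ∑ᶠ (β : G → FF M) (_ : β ∈ Labs M G), (ee ℓ M G β : FF M) * β c := by
  classical
  have hinj : Set.InjOn (labF M) (DZ ℓ M G) := by
    intro ξ hξ ξ' hξ' h
    exact hdzu ℓ M hℓ G hop ξ hξ ξ' hξ'.1 h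
  have h1 : ∑ᶠ (β : G → FF M) (_ : β ∈ labF M '' DZ ℓ M G), β c =
      ∑ᶠ (χ : G → ℂ) (_ : χ ∈ DZ ℓ M G), labF M χ c :=
    finsum_mem_image (f := fun β : G → FF M => β c) hinj
  rw [← h1]
  have h2 : ∑ᶠ (β : G → FF M) (_ : β ∈ labF M '' DZ ℓ M G), β c =
      ∑ᶠ (β : G → FF M) (_ : β ∈ labF M '' DZ ℓ M G), (ee ℓ M G β : FF M) * β c := by
    apply finsum_mem_congr rfl
    rintro β ⟨ξ, hξ, rfl⟩
    unfold ee
    rw [if_pos ⟨ξ, hξ, rfl⟩, Int.cast_one, one_mul]
  rw [h2]
  apply finsum_mem_inter_support_eq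
  ext β
  constructor
  · rintro ⟨⟨ξ, hξ, rfl⟩, h⟩
    exact ⟨⟨ξ, hξ.1, rfl⟩, h⟩
  · rintro ⟨_, h⟩
    refine ⟨?_, h⟩
    by_contra hβ
    apply h
    show (ee ℓ M G β : FF M) * β c = 0
    unfold ee
    rw [if_neg, Int.cast_zero, zero_mul]
    rintro ⟨ξ, hξ, rfl⟩
    exact hβ ⟨ξ, hξ, rfl⟩

include hℓ hop in
theorem ee_pos (hdzu : DzuStmt) {χ : G → ℂ} (hχ : χ ∈ Irr G) (hL : LargeDefect ℓ M χ) :
    ee ℓ M G (labF M χ) = 0 := by
  classical
  unfold ee
  rw [if_neg]
  rintro ⟨ξ, hξ, h⟩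
  have := hdzu ℓ M hℓ G hop ξ hξ χ hχ h.symm
  rw [this] at hξ
  exact hξ.2 hL

theorem ee_zero {χ : G → ℂ} (hχ : χ ∈ Irr G) (hL : ¬ LargeDefect ℓ M χ) :
    ee ℓ M G (labF M χ) = 1 := by
  classical
  unfold ee
  rw [if_pos]
  exact ⟨χ, ⟨hχ, hL⟩, rfl⟩

include hℓ hop in
/-- the difference of the two counts -/
theorem diff_eq (hgrd : GredStmt) (hlab : LabIdStmt) (hdzu : DzuStmt) {g : ℕ} (hg : 1 < g)
    (hdvd : ℓ - 1 ∣ 2 * g - 2) (c : G) :
    ∃ n : ℤ, torusSum ℓ c - (commg g c : ℤ) = (cz c : ℤ) * n ∧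
      (n : FF M) = ∑ᶠ (β : G → FF M) (_ : β ∈ Labs M G),
        ((SS ℓ M G β - ee ℓ M G β : ℤ) : FF M) * β c := by
  obtain ⟨n1, h1, h1'⟩ := hlab ℓ M hℓ G hop (SS ℓ M G) (fun χ hχ => SS_labF M hop hχ) c
  obtain ⟨n2, h2, h2'⟩ := hgrd ℓ M hℓ g hg hdvd G c
  rw [if_pos hop, sum_DZ hℓ hop hdzu] at h2'
  refine ⟨n1 - n2, by rw [h1, h2]; ring, ?_⟩
  rw [Int.cast_sub, h1', h2', ← finsum_mem_sub_distrib _ _ (Labs_finite M G)]
  apply finsum_mem_congr rfl
  intro β _
  push_cast
  ring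

end

theorem main_ (hgrd : GredStmt) (hind : IndStmt) (hlab : LabIdStmt) (hdz1 : Dz1Stmt)
    (hcon : ConStmt) (hwcl : WclStmt) (hstep : StepStmt) (hdzu : DzuStmt) :
    Helper98_CC.MainStmt := by
  intro ℓ hp M hM hℓ g hg hdvd
  have hprime : Prime (ℓ : ℤ) := Nat.prime_iff_prime_int.mp hp.out
  constructor
  · intro hQ G _ _ c
    by_cases hop : opCore ℓ G = ⊥
    · obtain ⟨n, hn, hn'⟩ := diff_eq hℓ hop hgrd hlab hdzu hg hdvd c
      have hzero : (n : FF M) = 0 := by
        rw [hn']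
        apply finsum_mem_eq_zero_of_forall_eq_zero
        rintro β ⟨χ, hχ, rfl⟩
        have : SS ℓ M G (labF M χ) - ee ℓ M G (labF M χ) = 0 := by
          rw [SS_labF M hop hχ]
          by_cases hL : LargeDefect ℓ M χ
          · rw [hQ G hop χ hχ hL, ee_pos hℓ hop hdzu hχ hL]
            ring
          · rw [ee_zero hχ hL, hdz1 ℓ M hℓ G hop χ ⟨hχ, hL⟩]
            ring
        rw [this, Int.cast_zero, zero_mul]
      obtain ⟨k, hk⟩ := (intCast_FF hℓ n).mp hzero
      rw [hn, hk]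
      refine ⟨k, ?_⟩
      push_cast
      ring
    · obtain ⟨n2, h2, h2'⟩ := hgrd ℓ M hℓ g hg hdvd G c
      rw [if_neg hop] at h2'
      obtain ⟨k, hk⟩ := (intCast_FF hℓ n2).mp h2'
      rw [hcon ℓ G hop c, h2, hk]
      refine ⟨-k, ?_⟩
      push_cast
      ring
  · intro hC
    -- the first step
    have h1 : ∀ (G : Type) [Group G] [Finite G], opCore ℓ G = ⊥ → ∀ χ ∈ Irr G,
        LargeDefect ℓ M χ → (ℓ : ℤ) ∣ altSum ℓ M χ := by
      intro G _ _ hop χ hχ hL
      have hz : ∀ c : G, ∑ᶠ (β : G → FF M) (_ : β ∈ Labs M G),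
          ((SS ℓ M G β - ee ℓ M G β : ℤ) : FF M) * β c = 0 := by
        intro c
        obtain ⟨n, hn, hn'⟩ := diff_eq hℓ hop hgrd hlab hdzu hg hdvd c
        rw [← hn', intCast_FF hℓ]
        obtain ⟨k, hk⟩ := hC G c
        have hcz : (cz c : ℤ) ≠ 0 := by
          unfold cz
          exact_mod_cast Nat.card_pos.ne'
        refine ⟨k, ?_⟩
        have h2 : (cz c : ℤ) * n = (cz c : ℤ) * ((ℓ : ℤ) * k) := by
          rw [← hn, hk]
          push_cast
          ring
        exact mul_left_cancel₀ hcz h2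
      have h3 := hind M G (fun β => ((SS ℓ M G β - ee ℓ M G β : ℤ) : FF M)) hz (labF M χ)
        ⟨χ, hχ, rfl⟩
      rw [intCast_FF hℓ, SS_labF M hop hχ, ee_pos hℓ hop hdzu hχ hL, sub_zero] at h3
      exact h3
    -- descent
    have h2 : ∀ v : ℕ, 1 ≤ v → ∀ (G : Type) [Group G] [Finite G], opCore ℓ G = ⊥ →
        ∀ χ ∈ Irr G, LargeDefect ℓ M χ → (ℓ : ℤ) ^ v ∣ altSum ℓ M χ := by
      intro v hv
      induction v, hv using Nat.le_induction with
      | base =>
        intro G _ _ hop χ hχ hL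
        rw [pow_one]
        exact h1 G hop χ hχ hL
      | succ v hv ih =>
        intro G _ _ hop χ hχ hL
        obtain ⟨⟨s', hs', hs'2⟩, χ', hO, hL', hop'⟩ := hstep ℓ M hℓ G hop χ hχ hL
        have hw := hwcl ℓ M hℓ G hop χ hχ hL χ' hO (altSum ℓ M χ) s' (asum_labF M hop hχ) hs'
        have hi := ih G hop χ hχ hL
        have hi' : (ℓ : ℤ) ^ v ∣ s' := by
          rcases hs'2 with h | ⟨χ₂, hχ₂, hL₂, h⟩
          · rw [h]
            exact dvd_zero _
          · rw [← h]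
            exact ih G hop χ₂ hχ₂ hL₂
        have hi'' : (ℓ : ℤ) ^ v ∣ altSum ℓ M χ' := ih (Gam ℓ G) hop' χ' hO.1 hL'
        have hd1 : (ℓ : ℤ) ^ (v + 1) ∣ (ℓ : ℤ) * altSum ℓ M χ' := by
          rw [pow_succ, mul_comm]
          exact mul_dvd_mul_left _ hi''
        have hd2 : (ℓ : ℤ) ^ (v + 1) ∣ (altSum ℓ M χ) ^ ℓ := by
          have h3 : ((ℓ : ℤ) ^ v) ^ ℓ ∣ (altSum ℓ M χ) ^ ℓ := pow_dvd_pow_of_dvd hi ℓ
          refine dvd_trans ?_ h3
          rw [← pow_mul]
          apply pow_dvd_pow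
          have := hp.out.two_le
          nlinarith
        have hd3 : (ℓ : ℤ) ^ (v + 1) ∣ (ℓ : ℤ) ^ 2 * s' := by
          have h3 : (ℓ : ℤ) ^ (v + 1) = (ℓ : ℤ) * (ℓ : ℤ) ^ v := by ring
          rw [h3, pow_two, mul_assoc]
          exact mul_dvd_mul_left _ (hi'.mul_left _)
        have hd4 : (ℓ : ℤ) ^ (v + 1) ∣ ((ℓ : ℤ) ^ 2 - 1) * altSum ℓ M χ := by
          have : ((ℓ : ℤ) ^ 2 - 1) * altSum ℓ M χ =
              (ℓ : ℤ) * altSum ℓ M χ' - (altSum ℓ M χ) ^ ℓ + (ℓ : ℤ) ^ 2 * s' := by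
            rw [hw]
            ring
          rw [this]
          exact dvd_add (dvd_sub hd1 hd2) hd3
        have hcop : IsCoprime ((ℓ : ℤ) ^ (v + 1)) ((ℓ : ℤ) ^ 2 - 1) := by
          apply IsCoprime.pow_left
          exact ⟨ℓ, -1, by ring⟩
        exact hcop.dvd_of_dvd_mul_left hd4
    intro G _ _ hop χ hχ hL
    by_contra hne
    have hlt := fun v : ℕ => h2 (v + 1) (by omega) G hop χ hχ hL
    obtain ⟨v, hv⟩ : ∃ v : ℕ, (altSum ℓ M χ).natAbs < ℓ ^ (v + 1) := by
      refine ⟨(altSum ℓ M χ).natAbs, ?_⟩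
      have h3 : (altSum ℓ M χ).natAbs + 1 < ℓ ^ ((altSum ℓ M χ).natAbs + 1) :=
        Nat.lt_pow_self hp.out.one_lt
      omega
    have h4 : ℓ ^ (v + 1) ∣ (altSum ℓ M χ).natAbs := by
      have := Int.natAbs_dvd_natAbs.mpr (hlt v)
      rwa [Int.natAbs_pow, Int.natAbs_natCast] at this
    have h5 := Nat.le_of_dvd (Int.natAbs_pos.mpr hne) h4
    omega

end Pool.Agent.Helper90_CC
end
end -- Pool.Agent.Helper90_CC.Main

section -- Pool.Agent.Helper10_ML.Glu

/-!
# Squad ML, row GLU: groups with `O_ℓ(G) = 1`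
-/

open scoped BigOperators

noncomputable section

namespace Pool.Agent.PP.ML.H10

open Pool.Agent.Helper51_AWC Pool.Agent.Helper79_WRA Pool.Agent.PP Pool.Agent.Helper98_CC
open Pool.Agent.Helper90_CC

/-! ## Sylow subgroups of centralisers -/

theorem exists_syl (ℓ : ℕ) [hp : Fact ℓ.Prime] {G : Type} [Group G] [Finite G] (g : G) :
    ∃ R : Subgroup G, IsPGroup ℓ R ∧ R ≤ Subgroup.centralizer ({g} : Set G) ∧
      (∃ m : ℕ, cz g = Nat.card R * m ∧ ¬ ℓ ∣ m) ∧
      ∀ k n : ℕ, (g ^ k) ^ ℓ ^ n = 1 → g ^ k ∈ R := by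
  obtain ⟨P⟩ := (inferInstance : Nonempty (Sylow ℓ (Subgroup.centralizer ({g} : Set G))))
  refine ⟨(P : Subgroup (Subgroup.centralizer ({g} : Set G))).map
    (Subgroup.centralizer ({g} : Set G)).subtype, P.isPGroup'.map _, ?_, ?_, ?_⟩
  · rintro _ ⟨x, -, rfl⟩
    exact x.2
  · refine ⟨(P : Subgroup (Subgroup.centralizer ({g} : Set G))).index, ?_, P.not_dvd_index⟩
    rw [Subgroup.card_map_of_injective (Subgroup.subtype_injective _)]
    exact (Subgroup.card_mul_index _).symm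
  · intro k n hk
    have hgC : g ^ k ∈ Subgroup.centralizer ({g} : Set G) := by
      rw [Subgroup.mem_centralizer_singleton_iff]
      exact (Commute.refl g).pow_left k
    let c : Subgroup.centralizer ({g} : Set G) := ⟨g ^ k, hgC⟩
    have hcent : ∀ x : Subgroup.centralizer ({g} : Set G), x * c = c * x := by
      intro x
      apply Subtype.ext
      have hx := x.2
      rw [Subgroup.mem_centralizer_singleton_iff] at hx
      have h1 : Commute (x : G) g := hx
      exact h1.pow_right k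
    have hN : (Subgroup.zpowers c).Normal := by
      constructor
      rintro _ ⟨j, rfl⟩ x
      have h1 : Commute x (c ^ j) := (show Commute x c from hcent x).zpow_right j
      have h2 : x * c ^ j * x⁻¹ = c ^ j := by
        rw [h1.eq, mul_inv_cancel_right]
      show x * c ^ j * x⁻¹ ∈ _
      rw [h2]
      exact ⟨j, rfl⟩
    have hcn : c ^ ℓ ^ n = 1 := by
      apply Subtype.ext
      exact hk
    have hpN : IsPGroup ℓ (Subgroup.zpowers c) := by
      rintro ⟨_, ⟨j, rfl⟩⟩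
      refine ⟨n, ?_⟩
      apply Subtype.ext
      show (c ^ j) ^ ℓ ^ n = 1
      rw [← zpow_natCast, ← zpow_mul, mul_comm, zpow_mul, zpow_natCast, hcn, one_zpow]
    have hsup : IsPGroup ℓ (Subgroup.zpowers c ⊔ (P : Subgroup _) : Subgroup _) :=
      hpN.to_sup_of_normal_left P.isPGroup'
    have heq := P.is_maximal' hsup le_sup_right
    refine ⟨c, ?_, rfl⟩
    have h1 : c ∈ (Subgroup.zpowers c ⊔ (P : Subgroup _) : Subgroup _) :=
      (le_sup_left : Subgroup.zpowers c ≤ _) (Subgroup.mem_zpowers c)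
    rw [heq] at h1
    exact h1

/-- the commutative group structure -/
abbrev mkComm {R : Type} (i : Group R) (h : ∀ a b : R, a * b = b * a) : CommGroup R :=
  { i with mul_comm := h }

theorem dvd_of_ab (hW : WdvStmt) (ℓ : ℕ) [hp : Fact ℓ.Prime] {G : Type} [Group G] [Finite G]
    (g : G) (hreg : ¬ Reg ℓ g)
    (hab : ∀ Q : Subgroup G, IsPGroup ℓ Q → Q ≤ Subgroup.centralizer ({g} : Set G) → Ab Q)
    (n : ℤ) (hn : torusSum ℓ g = (cz g : ℤ) * n) : (ℓ : ℤ) ∣ n := by
  obtain ⟨R, hR, hRC, ⟨m, hm, hm'⟩, hk⟩ := exists_syl ℓ g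
  have hRg : ∀ r ∈ R, r * g = g * r := by
    intro r hr
    have := hRC hr
    rwa [Subgroup.mem_centralizer_singleton_iff] at this
  have hdv : ℓ ∣ orderOf g := by
    by_contra h
    exact hreg ((hp.out.coprime_iff_not_dvd.2 h).symm)
  have hord : orderOf (g ^ (orderOf g / ℓ)) = ℓ :=
    orderOf_pow_orderOf_div (orderOf_pos g).ne' hdv
  have hpow : (g ^ (orderOf g / ℓ)) ^ ℓ ^ 1 = 1 := by
    rw [pow_one]
    conv_lhs => rw [← hord]
    rw [hord]
    have := pow_orderOf_eq_one (g ^ (orderOf g / ℓ))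
    rwa [hord] at this
  have hmem := hk _ 1 hpow
  have hRab : Ab R := hab R hR hRC
  have key := @hW ℓ hp G R _ _ (mkComm (inferInstance : Group R) hRab) R g
    { toFun := fun x => x, map_one' := rfl, map_mul' := fun _ _ => rfl } hR hRg
    (orderOf g / ℓ) hmem
  have h1 : @orderOf R (mkComm (inferInstance : Group R) hRab).toMonoid
      (⟨g ^ (orderOf g / ℓ), hmem⟩ : R) = ℓ := by
    have h2 : orderOf (⟨g ^ (orderOf g / ℓ), hmem⟩ : R) = ℓ := by
      rw [Subgroup.orderOf_mk]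
      exact hord
    exact h2
  have h3 : ((@orderOf R (mkComm (inferInstance : Group R) hRab).toMonoid
      (⟨g ^ (orderOf g / ℓ), hmem⟩ : R) * Nat.card R : ℕ) : ℤ) ∣ torusSum ℓ g := key
  rw [h1] at h3
  rw [hn, hm] at h3
  obtain ⟨j, hj⟩ := h3
  have hR0 : (Nat.card R : ℤ) ≠ 0 := by exact_mod_cast Nat.card_pos.ne'
  have h4 : (m : ℤ) * n = ℓ * j := by
    apply mul_left_cancel₀ hR0
    push_cast at hj
    linear_combination hj
  have h5 : (ℓ : ℤ) ∣ m * n := ⟨j, h4⟩
  rcases (Nat.prime_iff_prime_int.mp hp.out).dvd_or_dvd h5 with h | h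
  · exact absurd (Int.natCast_dvd_natCast.1 h) hm'
  · exact h

/-! ## The element `z` -/

theorem isCl_ellS (ℓ : ℕ) (F : Type) [Field F] {H : Type} [Group H] :
    IsCl (ellS ℓ F : H → F) := by
  classical
  intro x y
  unfold ellS
  have : (∃ n : ℕ, (y * x * y⁻¹) ^ ℓ ^ n = 1) ↔ ∃ n : ℕ, x ^ ℓ ^ n = 1 := by
    have h1 : ∀ n : ℕ, (y * x * y⁻¹) ^ ℓ ^ n = 1 ↔ x ^ ℓ ^ n = 1 := by
      intro n
      rw [conj_pow]
      exact conj_eq_one_iff
    exact ⟨fun ⟨n, hn⟩ => ⟨n, (h1 n).1 hn⟩, fun ⟨n, hn⟩ => ⟨n, (h1 n).2 hn⟩⟩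
  by_cases hc : ∃ n : ℕ, x ^ ℓ ^ n = 1
  · rw [if_pos hc, if_pos (this.2 hc)]
  · rw [if_neg hc, if_neg (fun h => hc (this.1 h))]

theorem mulF_sub_one {F H : Type} [Field F] [Group H] [Finite H] (a b : H → F) :
    mulF a (b - dl F (1 : H)) = mulF a b - a := by
  apply ma_injective
  rw [ma_mul, ma_sub, ma_sub, ma_mul, ma_dl, mul_sub]
  congr 1
  exact mul_one _

attribute [local instance] Ideal.Quotient.field

section main

variable {ℓ : ℕ} [hp : Fact ℓ.Prime] {M : Ideal (integralClosure ℤ ℂ)} [hM : M.IsMaximal]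

/-- the linear combination of the labels -/
theorem swap {G : Type} [Group G] [Finite G] (z : G → FF M) (S : (G → FF M) → ℤ)
    (h0 : ∀ g, z g * ∑ᶠ (β : G → FF M) (_ : β ∈ Labs M G), (S β : FF M) * β g = 0)
    {χ : G → ℂ} (hχ : χ ∈ Irr G) (hne : ∀ ψ ∈ Irr G, labF M ψ ≠ labF M χ → res M z ψ = 0)
    (h1 : res M z χ ≠ 0) : (S (labF M χ) : FF M) = 0 := by
  classical
  have hfin := Labs_finite M G
  have := Fintype.ofFinite (ConjClasses G)
  have h2 : ∑ c : ConjClasses G, z (Quotient.out c) *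
      ∑ β ∈ hfin.toFinset, (S β : FF M) * β (Quotient.out c) = 0 := by
    apply Finset.sum_eq_zero
    intro c _
    have h3 := h0 (Quotient.out c)
    rwa [finsum_mem_eq_finite_toFinset_sum _ hfin] at h3
  simp only [Finset.mul_sum] at h2
  rw [Finset.sum_comm] at h2
  have h4 : ∀ β ∈ hfin.toFinset, ∑ c : ConjClasses G,
      z (Quotient.out c) * ((S β : FF M) * β (Quotient.out c)) =
      (S β : FF M) * ∑ c : ConjClasses G, z (Quotient.out c) * β (Quotient.out c) := by
    intro β _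
    rw [Finset.mul_sum]
    apply Finset.sum_congr rfl
    intro c _
    ring
  rw [Finset.sum_congr rfl h4] at h2
  have hT : ∀ ψ : G → ℂ, ∑ c : ConjClasses G, z (Quotient.out c) * labF M ψ (Quotient.out c) =
      res M z ψ := by
    intro ψ
    rw [res, finsum_eq_sum_of_fintype]
    rfl
  rw [Finset.sum_eq_single (labF M χ)] at h2
  · rw [hT] at h2
    exact (mul_eq_zero.1 h2).resolve_right h1
  · intro β hβ hβ'
    rw [Set.Finite.mem_toFinset] at hβ
    obtain ⟨ψ, hψ, rfl⟩ := hβ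
    rw [hT, hne ψ hψ hβ', mul_zero]
  · intro h
    exfalso
    apply h
    rw [Set.Finite.mem_toFinset]
    exact ⟨χ, hχ, rfl⟩

end main

theorem glu (hlab : LabIdStmt) (hW : WdvStmt) (hL : LamStmt) (hR : RegStmt) : GluStmt := by
  intro ℓ hp M hM hℓ G _ _ hop f hf hpos hD χ hχ hχ1
  classical
  have hft := Fintype.ofFinite G
  have hF : GoodF ℓ (FF M) := H50.fld ℓ hp.out M hℓ
  have hLcl : IsCl (ellS ℓ (FF M) : G → FF M) := isCl_ellS ℓ (FF M)
  have hocl : IsCl (dl (FF M) (1 : G)) := H46.isIdem_one.1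
  have hbcl : IsCl (ellS ℓ (FF M) - dl (FF M) (1 : G)) := (cfs (FF M) G).sub_mem hLcl hocl
  have hz : ∀ g, mulF f (ellS ℓ (FF M) - dl (FF M) (1 : G)) g =
      mulF f (ellS ℓ (FF M)) g - f g := by
    intro g
    rw [mulF_sub_one]
    rfl
  have hDz : DF.DfE ℓ Ab (mulF f (ellS ℓ (FF M) - dl (FF M) (1 : G))) ⊤ :=
    DF.DfE.factor hF (fun n _ t => hf.1.1 t n) (fun n _ t => hbcl t n) hD
  have h0 : ∀ g, mulF f (ellS ℓ (FF M) - dl (FF M) (1 : G)) g *
      ∑ᶠ (β : G → FF M) (_ : β ∈ Labs M G), (Helper90_CC.SS ℓ M G β : FF M) * β g = 0 := by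
    intro g
    by_cases hg : mulF f (ellS ℓ (FF M) - dl (FF M) (1 : G)) g = 0
    · rw [hg, zero_mul]
    · obtain ⟨n, hn, hn'⟩ := hlab ℓ M hℓ G hop (Helper90_CC.SS ℓ M G) (fun ψ hψ => SS_labF M hop hψ) g
      have hreg : ¬ Reg ℓ g := by
        intro hreg
        apply hg
        rw [hz, hR ℓ (FF M) hF G f hf.1 g hreg, sub_self]
      have hdv : (ℓ : ℤ) ∣ n := by
        apply dvd_of_ab hW ℓ g hreg _ n hn
        intro Q hQ hQC
        apply hDz Q le_top hQ
        refine ⟨g, ?_, hg⟩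
        rw [Subgroup.mem_centralizer_iff]
        intro q hq
        have := hQC hq
        rwa [Subgroup.mem_centralizer_singleton_iff] at this
      rw [← hn', (intCast_FF hℓ n).2 hdv, mul_zero]
  have hres : ∀ ψ ∈ Irr G, res M (mulF f (ellS ℓ (FF M) - dl (FF M) (1 : G))) ψ =
      res M f ψ * (res M (ellS ℓ (FF M)) ψ - res M (dl (FF M) (1 : G)) ψ) := by
    intro ψ hψ
    rw [H50.res_mul hf.1.1 hbcl hψ, H50.res_sub]
  have hS := swap (mulF f (ellS ℓ (FF M) - dl (FF M) (1 : G))) (Helper90_CC.SS ℓ M G) h0 hχ ?_ ?_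
  · rw [SS_labF M hop hχ] at hS
    exact (intCast_FF hℓ _).1 hS
  · intro ψ hψ hne
    rw [hres ψ hψ]
    rcases H50.res_idem hf.1 hψ with h | h
    · rw [h, zero_mul]
    · exfalso
      apply hne
      funext g
      rw [← H50.res_clsum]
      exact H50.lab_of_res hf (H50.isChar_res hψ) h hχ hχ1 g
  · rw [hres χ hχ, hχ1, one_mul]
    have h1 : res M (dl (FF M) (1 : G)) χ = 1 := (H50.isChar_res hχ).one hf.1.1 hχ1
    obtain ⟨n, hn⟩ := hL ℓ (FF M) hF G f hf hpos
    have h2 : res M (ellS ℓ (FF M)) χ = 0 :=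
      H50.zero_of_nil hf.1.1 hLcl (H50.isChar_res hχ) hχ1 hn
    rw [h1, h2, zero_sub]
    exact neg_ne_zero.2 one_ne_zero

end Pool.Agent.PP.ML.H10
end
end -- Pool.Agent.Helper10_ML.Glu

section -- Pool.Agent.Helper28_ML.LYO

/-!
# Squad ML, stage 2, LYO: lying over for the central characters
-/

open scoped BigOperators

noncomputable section

namespace Pool.Agent.PP.ML.H28

open Pool.Agent.Helper51_AWC Pool.Agent.Helper79_WRA Pool.Agent.PP Pool.Agent.Helper98_CC

/-- lying over for finite-dimensional algebras over an algebraically closed field -/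
theorem lying {F A B : Type} [Field F] [IsAlgClosed F] [CommRing A] [CommRing B] [Algebra F A]
    [Algebra F B] [Module.Finite F B] (φ : A →ₐ[F] B) (lam : A →ₐ[F] F)
    (h : ∀ a, φ a = 0 → lam a = 0) : ∃ mu : B →ₐ[F] F, ∀ a, mu (φ a) = lam a := by
  let _ : Algebra A B := φ.toRingHom.toAlgebra
  have hAB : ∀ a : A, algebraMap A B a = φ a := fun a => rfl
  have : IsScalarTower F A B := IsScalarTower.of_algebraMap_eq (fun r => (φ.commutes r).symm)
  have hint : Algebra.IsIntegral A B := Algebra.IsIntegral.tower_top F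
  have hsurj : Function.Surjective lam.toRingHom := fun c => ⟨algebraMap F A c, lam.commutes c⟩
  have hP : (RingHom.ker lam.toRingHom).IsMaximal :=
    RingHom.ker_isMaximal_of_surjective lam.toRingHom hsurj
  obtain ⟨Q, hQ, hQP⟩ := Ideal.exists_ideal_over_maximal_of_isIntegral (S := B)
    (RingHom.ker lam.toRingHom) (fun a ha => h a ha)
  let _ : Field (B ⧸ Q) := Ideal.Quotient.field Q
  have hfin : Module.Finite F (B ⧸ Q) := inferInstance
  have hi : Algebra.IsIntegral F (B ⧸ Q) := Algebra.IsIntegral.of_finite F (B ⧸ Q)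
  have hb : Function.Bijective (algebraMap F (B ⧸ Q)) :=
    IsAlgClosed.algebraMap_bijective_of_isIntegral
  let e : F ≃ₐ[F] (B ⧸ Q) := AlgEquiv.ofBijective (Algebra.ofId F (B ⧸ Q)) hb
  refine ⟨(e.symm : (B ⧸ Q) →ₐ[F] F).comp (Ideal.Quotient.mkₐ F Q), fun a => ?_⟩
  change e.symm (Ideal.Quotient.mk Q (φ a)) = lam a
  rw [AlgEquiv.symm_apply_eq]
  change Ideal.Quotient.mk Q (φ a) = algebraMap F (B ⧸ Q) (lam a)
  have h1 : a - algebraMap F A (lam a) ∈ RingHom.ker lam.toRingHom := by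
    rw [RingHom.mem_ker]
    change lam (a - algebraMap F A (lam a)) = 0
    rw [map_sub, lam.commutes]
    exact sub_self _
  rw [← hQP, Ideal.mem_comap, hAB, map_sub, φ.commutes] at h1
  have h2 := Ideal.Quotient.eq.2 h1
  rw [h2]
  rfl

section ext

variable {ℓ : ℕ} {F G : Type} [Field F] [Group G] [Finite G]

theorem ma_co (x : MonoidAlgebra F G) : ma (fun t => x.coeff t) = x :=
  ma_ext fun _ => rfl

/-- restriction to the centraliser of `D` -/
def rs (D : Subgroup G) (a : G → F) : Subgroup.centralizer (D : Set G) → F := fun t => a t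

omit [Field F] [Finite G] in
theorem rs_cl {D : Subgroup G} {a : G → F} (ha : IsCl a) : IsCl (rs D a) := fun x y => ha x y

theorem rs_mul (hF : GoodF ℓ F) {D : Subgroup G} (hD : IsPGroup ℓ D) {a b : G → F} (ha : IsCl a)
    (hb : IsCl b) : rs D (mulF a b) = mulF (rs D a) (rs D b) := by
  have h1 := H66.mulF_sub (X := Subgroup.centralizer (D : Set G)) (a := br D a) (b := br D b)
    (fun t ht => H66.br_of_not_mem ht)
  rw [← H66.br_mulF hF hD (H66.IsCl.inv ha D) (H66.IsCl.inv hb D)] at h1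
  have h2 : ∀ c : G → F, (fun t : Subgroup.centralizer (D : Set G) => br D c t) = rs D c :=
    fun c => funext fun t => H66.br_of_mem t.2
  rw [h2, h2, h2] at h1
  exact h1

/-- the restriction as a map of the centres of the group rings -/
def phi (hF : GoodF ℓ F) {D : Subgroup G} (hD : IsPGroup ℓ D) :
    Subalgebra.center F (MonoidAlgebra F G) →ₐ[F]
      Subalgebra.center F (MonoidAlgebra F (Subgroup.centralizer (D : Set G))) :=
  AlgHom.ofLinearMap
    { toFun := fun z => ⟨ma (rs D (fun t => z.1.coeff t)),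
        (isCl_iff _).1 (rs_cl ((isCl_iff (fun t => z.1.coeff t)).2
          (by rw [ma_co]; exact z.2)))⟩
      map_add' := by
        intro x y
        apply Subtype.ext
        apply ma_ext
        intro t
        change (x.1 + y.1).coeff (t : G) = _
        rw [MonoidAlgebra.coeff_add]
        rfl
      map_smul' := by
        intro c x
        apply Subtype.ext
        apply ma_ext
        intro t
        change (c • x.1).coeff (t : G) = _
        rw [MonoidAlgebra.coeff_smul]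
        rfl }
    (by
      apply Subtype.ext
      change ma (rs D (fun t => (1 : MonoidAlgebra F G).coeff t)) = 1
      have h1 : (1 : MonoidAlgebra F G) = ma (dl F (1 : G)) := (ma_dl (F := F) (1 : G)).symm
      have h2 : (1 : MonoidAlgebra F (Subgroup.centralizer (D : Set G))) = ma (dl F 1) :=
        (ma_dl (F := F) _).symm
      rw [h1, h2]
      congr 1
      funext t
      change dl F (1 : G) (t : G) = dl F 1 t
      unfold dl
      by_cases ht : t = 1
      · rw [if_pos ht, if_pos (by rw [ht]; rfl)]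
      · have ht2 : (t : G) ≠ 1 := fun h => ht (Subtype.ext h)
        rw [if_neg ht, if_neg ht2])
    (by
      intro x y
      apply Subtype.ext
      obtain ⟨a, ha, hax⟩ := H50.exists_fn x.2
      obtain ⟨b, hb, hby⟩ := H50.exists_fn y.2
      change ma (rs D (fun t => (x.1 * y.1).coeff t)) =
        ma (rs D (fun t => x.1.coeff t)) * ma (rs D (fun t => y.1.coeff t))
      rw [← hax, ← hby, ← ma_mul, ← ma_mul]
      congr 1
      exact rs_mul hF hD ha hb)

theorem phi_ma (hF : GoodF ℓ F) {D : Subgroup G} (hD : IsPGroup ℓ D) {a : G → F} (ha : IsCl a) :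
    phi hF hD ⟨ma a, (isCl_iff a).1 ha⟩ = ⟨ma (rs D a), (isCl_iff _).1 (rs_cl ha)⟩ := rfl

open Classical in
/-- the class sum of `y` in the centraliser of `D` -/
def cs (F : Type) [Field F] (D : Subgroup G) (y : G) : Subgroup.centralizer (D : Set G) → F :=
  fun s => if ∃ q ∈ Subgroup.centralizer (D : Set G), (s : G) = q * y * q⁻¹ then 1 else 0

omit [Finite G] in
theorem cs_cl (D : Subgroup G) (y : G) : IsCl (cs F D y) := by
  intro s c
  unfold cs
  have : (∃ q ∈ Subgroup.centralizer (D : Set G), ((c * s * c⁻¹ : Subgroup.centralizer (D : Set G)) : G) =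
      q * y * q⁻¹) ↔ ∃ q ∈ Subgroup.centralizer (D : Set G), (s : G) = q * y * q⁻¹ := by
    constructor
    · rintro ⟨q, hq, h⟩
      refine ⟨(c : G)⁻¹ * q, mul_mem (inv_mem c.2) hq, ?_⟩
      have h1 : (s : G) = (c : G)⁻¹ * ((c * s * c⁻¹ : Subgroup.centralizer (D : Set G)) : G) * c := by
        push_cast
        group
      rw [h1, h]
      group
    · rintro ⟨q, hq, h⟩
      refine ⟨(c : G) * q, mul_mem c.2 hq, ?_⟩
      push_cast
      rw [h]
      group
  by_cases hc : ∃ q ∈ Subgroup.centralizer (D : Set G), (s : G) = q * y * q⁻¹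
  · rw [if_pos (this.2 hc), if_pos hc]
  · rw [if_neg (fun h => hc (this.1 h)), if_neg hc]

omit [Finite G] in
theorem cs_out {D : Subgroup G} {y : G} (hy : y ∉ Subgroup.centralizer (D : Set G)) :
    cs F D y = 0 := by
  funext s
  unfold cs
  rw [if_neg]
  · rfl
  · rintro ⟨q, hq, h⟩
    apply hy
    have h1 : y = q⁻¹ * (s : G) * q := by rw [h]; group
    rw [h1]
    exact mul_mem (mul_mem (inv_mem hq) s.2) hq

omit [Finite G] in
theorem cs_conj {D : Subgroup G} {c : G} (hc : c ∈ Subgroup.centralizer (D : Set G)) (y : G) :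
    cs F D (c * y * c⁻¹) = cs F D y := by
  funext s
  unfold cs
  have : (∃ q ∈ Subgroup.centralizer (D : Set G), (s : G) = q * (c * y * c⁻¹) * q⁻¹) ↔
      ∃ q ∈ Subgroup.centralizer (D : Set G), (s : G) = q * y * q⁻¹ := by
    constructor
    · rintro ⟨q, hq, h⟩
      refine ⟨q * c, mul_mem hq hc, ?_⟩
      rw [h]
      group
    · rintro ⟨q, hq, h⟩
      refine ⟨q * c⁻¹, mul_mem hq (inv_mem hc), ?_⟩
      rw [h]
      group
  by_cases hh : ∃ q ∈ Subgroup.centralizer (D : Set G), (s : G) = q * y * q⁻¹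
  · rw [if_pos (this.2 hh), if_pos hh]
  · rw [if_neg (fun h => hh (this.1 h)), if_neg hh]

theorem dl_mulF (z : G) (b : G → F) (t : G) : mulF (dl F z) b t = b (z⁻¹ * t) := by
  classical
  have := Fintype.ofFinite G
  unfold mulF
  rw [finsum_eq_sum_of_fintype, Finset.sum_eq_single z]
  · rw [dl, if_pos rfl, one_mul]
  · intro s _ hs
    rw [dl, if_neg hs, zero_mul]
  · intro h
    exact absurd (Finset.mem_univ _) h

theorem cs_smul {D : Subgroup G} {z : G} (hz : z ∈ D)
    (hzC : z ∈ Subgroup.centralizer (D : Set G)) (y : G) :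
    cs F D (z * y) = mulF (dl F ⟨z, hzC⟩) (cs F D y) := by
  funext s
  rw [dl_mulF]
  unfold cs
  have hcomm : ∀ q ∈ Subgroup.centralizer (D : Set G), q * z = z * q := by
    intro q hq
    exact (Subgroup.mem_centralizer_iff.1 hq z hz).symm
  have : (∃ q ∈ Subgroup.centralizer (D : Set G), (s : G) = q * (z * y) * q⁻¹) ↔
      ∃ q ∈ Subgroup.centralizer (D : Set G),
        (((⟨z, hzC⟩ : Subgroup.centralizer (D : Set G))⁻¹ * s :
          Subgroup.centralizer (D : Set G)) : G) = q * y * q⁻¹ := by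
    constructor
    · rintro ⟨q, hq, h⟩
      refine ⟨q, hq, ?_⟩
      push_cast
      rw [h, ← mul_assoc q z y, hcomm q hq]
      group
    · rintro ⟨q, hq, h⟩
      refine ⟨q, hq, ?_⟩
      push_cast at h
      rw [inv_mul_eq_iff_eq_mul] at h
      rw [h, ← mul_assoc q z y, hcomm q hq]
      group
  by_cases hh : ∃ q ∈ Subgroup.centralizer (D : Set G),
        (((⟨z, hzC⟩ : Subgroup.centralizer (D : Set G))⁻¹ * s :
          Subgroup.centralizer (D : Set G)) : G) = q * y * q⁻¹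
  · rw [if_pos (this.2 hh), if_pos hh]
  · rw [if_neg (fun h => hh (this.1 h)), if_neg hh]

omit [Finite G] in
theorem dl_cl {D : Subgroup G} {z : G} (hz : z ∈ D)
    (hzC : z ∈ Subgroup.centralizer (D : Set G)) :
    IsCl (dl F (⟨z, hzC⟩ : Subgroup.centralizer (D : Set G))) := by
  intro x c
  unfold dl
  have hcz : (z : G) * (c : G) = c * z := Subgroup.mem_centralizer_iff.1 c.2 z hz
  have : c * x * c⁻¹ = ⟨z, hzC⟩ ↔ x = ⟨z, hzC⟩ := by
    rw [Subtype.ext_iff, Subtype.ext_iff]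
    push_cast
    constructor
    · intro h
      rw [mul_inv_eq_iff_eq_mul, hcz] at h
      exact mul_left_cancel h
    · intro h
      rw [h, ← hcz]
      group
  by_cases hx : x = ⟨z, hzC⟩
  · rw [if_pos (this.2 hx), if_pos hx]
  · rw [if_neg (fun h => hx (this.1 h)), if_neg hx]

omit [Finite G] in
/-- the restriction of a class sum -/
theorem rs_clsum {D : Subgroup G} (g : G) (t : Finset G)
    (ht : ∀ y ∈ t, y ∈ Subgroup.centralizer (D : Set G) ∧ IsConj g y)
    (ht' : ∀ y ∈ Subgroup.centralizer (D : Set G), IsConj g y →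
      ∃! y₀, y₀ ∈ t ∧ ∃ c ∈ Subgroup.centralizer (D : Set G), y = c * y₀ * c⁻¹) :
    rs D (clsum F (⊤ : Subgroup G) g) = ∑ y ∈ t, cs F D y := by
  classical
  funext s
  rw [Finset.sum_apply]
  by_cases hs : IsConj g (s : G)
  · obtain ⟨y₀, ⟨hy₀, c, hc, hsc⟩, huniq⟩ := ht' s s.2 hs
    rw [Finset.sum_eq_single y₀]
    · obtain ⟨q, hq⟩ := isConj_iff.1 hs
      unfold rs clsum cs
      rw [if_pos ⟨q, Subgroup.mem_top _, hq.symm⟩, if_pos ⟨c, hc, hsc⟩]
    · intro y hy hne
      unfold cs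
      rw [if_neg]
      rintro ⟨q, hq, h⟩
      exact hne (huniq y ⟨hy, q, hq, h⟩)
    · intro h
      exact absurd hy₀ h
  · rw [Finset.sum_eq_zero]
    · unfold rs clsum
      rw [if_neg]
      rintro ⟨q, -, h⟩
      exact hs (isConj_iff.2 ⟨q, h.symm⟩)
    · intro y hy
      unfold cs
      rw [if_neg]
      rintro ⟨q, hq, h⟩
      exact hs ((ht y hy).2.trans (isConj_iff.2 ⟨q, h.symm⟩))

end ext

attribute [local instance] Ideal.Quotient.field

section main

variable {G : Type} [Group G] [Finite G] {M : Ideal (integralClosure ℤ ℂ)} [hM : M.IsMaximal]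

/-- the central character as a homomorphism of the centre of the group ring -/
def lamA {χ : G → ℂ} (hχ : χ ∈ Irr G) :
    Subalgebra.center (FF M) (MonoidAlgebra (FF M) G) →ₐ[FF M] FF M :=
  AlgHom.ofLinearMap
    { toFun := fun z => res M (fun t => z.1.coeff t) χ
      map_add' := by
        intro x y
        have := Fintype.ofFinite G
        rw [← H50.res_add]
        rfl
      map_smul' := by
        intro c x
        have := Fintype.ofFinite G
        rw [RingHom.id_apply, smul_eq_mul, ← H50.res_smul]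
        rfl }
    (by
      change res M (fun t => (1 : MonoidAlgebra (FF M) G).coeff t) χ = 1
      have h1 : (1 : MonoidAlgebra (FF M) G) = ma (dl (FF M) (1 : G)) :=
        (ma_dl (F := FF M) (1 : G)).symm
      rw [h1]
      have := Fintype.ofFinite G
      exact H50.res_one (irr_one_ne hχ) (fun g => omega_integral _ hχ g))
    (by
      intro x y
      obtain ⟨a, ha, hax⟩ := H50.exists_fn x.2
      obtain ⟨b, hb, hby⟩ := H50.exists_fn y.2
      change res M (fun t => (x.1 * y.1).coeff t) χ =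
        res M (fun t => x.1.coeff t) χ * res M (fun t => y.1.coeff t) χ
      rw [← hax, ← hby, ← ma_mul]
      exact (H50.isChar_res hχ).mul a b ha hb)

theorem lamA_ma {χ : G → ℂ} (hχ : χ ∈ Irr G) {a : G → FF M} (ha : IsCl a) :
    lamA hχ ⟨ma a, (isCl_iff a).1 ha⟩ = res M a χ := rfl

end main

/-- row LYO -/
theorem lyo : LyoStmt := by
  intro ℓ hℓ M hM hlM G _ _ χ hχ D hD
  have hF : GoodF ℓ (FF M) := H50.fld ℓ hℓ.out M hlM
  have := hF.closed
  have hchar := hF.char
  have hfin : Module.Finite (FF M)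
      (MonoidAlgebra (FF M) (Subgroup.centralizer (D : Set G))) :=
    Module.Finite.equiv (maL : (Subgroup.centralizer (D : Set G) → FF M) ≃ₗ[FF M] _)
  obtain ⟨mu, hmu⟩ := lying (phi hF hD.1) (lamA hχ) (by
    intro z hz
    obtain ⟨a, ha, haz⟩ := H50.exists_fn z.2
    have hz' : z = ⟨ma a, (isCl_iff a).1 ha⟩ := Subtype.ext haz.symm
    rw [hz', phi_ma hF hD.1 ha] at hz
    rw [hz', lamA_ma hχ ha]
    have h0 : rs D a = 0 := ma_injective ((congrArg Subtype.val hz).trans ma_zero.symm)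
    unfold res
    rw [← finsum_zero (α := ConjClasses G)]
    apply finsum_congr
    intro c
    by_cases hc : Cong M (omega (MonoidHom.id G) χ (Quotient.out c)) 0
    · rw [(red_eq_iff (omega_integral _ hχ _) isIntegral_zero).2 hc, red_zero, mul_zero]
    · obtain ⟨g, hg⟩ := hD.2.2 _ hc
      have hmem : g⁻¹ * Quotient.out c * g ∈ Subgroup.centralizer (D : Set G) := by
        rw [Subgroup.mem_centralizer_iff]
        intro d hd
        have h1 := hg d hd
        calc d * (g⁻¹ * Quotient.out c * g) = g⁻¹ * (g * d * g⁻¹ * Quotient.out c) * g := by group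
          _ = g⁻¹ * (Quotient.out c * (g * d * g⁻¹)) * g := by rw [h1]
          _ = _ := by group
      have h2 := ha (Quotient.out c) g⁻¹
      rw [inv_inv] at h2
      have h3 : a (g⁻¹ * Quotient.out c * g) = 0 := congrFun h0 ⟨_, hmem⟩
      rw [← h2, h3, zero_mul])
  let ν : (Subgroup.centralizer (D : Set G) → FF M) → FF M := fun b =>
    open Classical in if hb : IsCl b then mu ⟨ma b, (isCl_iff b).1 hb⟩ else 0
  have hν : ∀ {b : Subgroup.centralizer (D : Set G) → FF M} (hb : IsCl b),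
      ν b = mu ⟨ma b, (isCl_iff b).1 hb⟩ := fun hb => dif_pos hb
  have hν0 : ν 0 = 0 := by
    rw [hν (b := 0) (fun _ _ => rfl)]
    have : (⟨ma (0 : Subgroup.centralizer (D : Set G) → FF M),
        (isCl_iff _).1 (fun _ _ => rfl)⟩ :
        Subalgebra.center (FF M) (MonoidAlgebra (FF M) (Subgroup.centralizer (D : Set G)))) = 0 :=
      Subtype.ext ma_zero
    rw [this, map_zero]
  have hνadd : ∀ {a b : Subgroup.centralizer (D : Set G) → FF M}, IsCl a → IsCl b →
      ν (a + b) = ν a + ν b := by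
    intro a b ha hb
    have hab : IsCl (a + b) := (cfs (FF M) _).add_mem ha hb
    rw [hν ha, hν hb, hν hab, ← map_add]
    congr 1
    exact Subtype.ext (ma_add a b)
  have hνmul : ∀ {a b : Subgroup.centralizer (D : Set G) → FF M}, IsCl a → IsCl b →
      ν (mulF a b) = ν a * ν b := by
    intro a b ha hb
    rw [hν ha, hν hb, hν (H50.isCl_mulF ha hb), ← map_mul]
    congr 1
    exact Subtype.ext (ma_mul a b)
  have hν1 : ν (dl (FF M) 1) = 1 := by
    rw [hν H46.isIdem_one.1, ← map_one mu]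
    congr 1
    exact Subtype.ext (ma_dl 1)
  have hνsum : ∀ t : Finset G, ν (∑ y ∈ t, cs (FF M) D y) = ∑ y ∈ t, ν (cs (FF M) D y) := by
    classical
    intro t
    have hcl : ∀ s : Finset G, IsCl (∑ y ∈ s, cs (FF M) D y) := fun s =>
      (cfs (FF M) _).sum_mem (fun y _ => cs_cl D y)
    induction t using Finset.induction_on with
    | empty => rw [Finset.sum_empty, Finset.sum_empty, hν0]
    | insert y s hy ih =>
      rw [Finset.sum_insert hy, Finset.sum_insert hy, hνadd (cs_cl D y) (hcl s), ih]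
  refine ⟨fun y => ν (cs (FF M) D y), ?_, ?_, ?_, ?_⟩
  · intro y hy
    change ν (cs (FF M) D y) = 0
    rw [cs_out hy, hν0]
  · intro y c hc
    change ν (cs (FF M) D (c * y * c⁻¹)) = ν (cs (FF M) D y)
    rw [cs_conj hc]
  · intro y _ z hz hzC
    change ν (cs (FF M) D (z * y)) = ν (cs (FF M) D y)
    rw [cs_smul hz hzC, hνmul (dl_cl hz hzC) (cs_cl D y)]
    have hpow : ∀ n : ℕ, ν (dl (FF M) (⟨z, hzC⟩ : Subgroup.centralizer (D : Set G))) ^ n =
        ν (dl (FF M) (⟨z ^ n, pow_mem hzC n⟩ : Subgroup.centralizer (D : Set G))) := by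
      intro n
      induction n with
      | zero =>
        rw [pow_zero, ← hν1]
        congr 2
        exact Subtype.ext (pow_zero z).symm
      | succ n ih =>
        rw [pow_succ, ih, ← hνmul (dl_cl (pow_mem hz n) (pow_mem hzC n)) (dl_cl hz hzC)]
        congr 1
        apply ma_injective
        rw [ma_mul, ma_dl, ma_dl, ma_dl, MonoidAlgebra.single_mul_single, mul_one]
        congr 1
        exact Subtype.ext (pow_succ z n).symm
    obtain ⟨k, hk⟩ := hD.1 ⟨z, hz⟩
    have hk' : z ^ ℓ ^ k = 1 := congrArg Subtype.val hk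
    have h1 : ν (dl (FF M) (⟨z, hzC⟩ : Subgroup.centralizer (D : Set G))) ^ (ℓ ^ k) = 1 := by
      rw [hpow, ← hν1]
      congr 2
      exact Subtype.ext hk'
    have h2 : ν (dl (FF M) (⟨z, hzC⟩ : Subgroup.centralizer (D : Set G))) = 1 := by
      have hexp : ExpChar (FF M) ℓ := ExpChar.prime hℓ.out
      have := (ExpChar.pow_prime_pow_mul_eq_one_iff (R := FF M) ℓ k 1
        (ν (dl (FF M) (⟨z, hzC⟩ : Subgroup.centralizer (D : Set G))))).1 (by rwa [mul_one])
      rwa [pow_one] at this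
    rw [h2, one_mul]
  · intro g t ht ht'
    change red M (omega (MonoidHom.id G) χ g) = ∑ y ∈ t, ν (cs (FF M) D y)
    rw [← hνsum, ← rs_clsum g t ht ht', hν (rs_cl (H50.isCl_clsum g)),
      ← phi_ma hF hD.1 (H50.isCl_clsum g), hmu, lamA_ma hχ (H50.isCl_clsum g),
      H50.res_clsum]
    rfl

end Pool.Agent.PP.ML.H28
end
end -- Pool.Agent.Helper28_ML.LYO

section -- Pool.Agent.Helper6_ML.MN3

/-!
# MN3: the main theorem in terms of defect groups
-/

set_option autoImplicit false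

noncomputable section

namespace Pool.Agent.PP.ML.H6

open Pool.Agent.Helper51_AWC Pool.Agent.Helper79_WRA Pool.Agent.PP Pool.Agent.Helper98_CC
open Pool.Agent.PP.ML

/-- MN3 -/
theorem mn3 (hmn2 : Mn2Stmt) (hexg : ExgStmt) : Mn3Stmt := by
  intro ℓ _ M _ hℓM G _ _ hcore χ hχ D hD A _ ρ hρ z hz
  obtain ⟨g, k, hg, hDg, hidx, hgk⟩ := hexg ℓ M hℓM G χ hχ D hD (z : G) z.2 (by
    intro d hd
    exact congrArg Subtype.val (hz ⟨d, hd⟩))
  have hk : g ^ k ∈ D := by rw [hgk]; exact z.2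
  have h1 := hmn2 ℓ M hℓM G hcore χ hχ g hg D hD.1 hDg hidx A ρ hρ k hk
  have h2 : (⟨g ^ k, hk⟩ : D) = z := Subtype.ext hgk
  rwa [h2] at h1

end Pool.Agent.PP.ML.H6
end
end -- Pool.Agent.Helper6_ML.MN3
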