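import Pool.Agent.Helper12_AWB.B066
import Pool.Agent.Helper12_AWB.B101
import Pool.Agent.Helper12_AWB.B104

/-!
# Merged copies (generated) of the modules

* `Pool.Agent.Helper51_CC.Contr`
* `Pool.Agent.Helper3_ML.Cox`
* `Pool.Agent.Helper11_CC.GenA`
* `Pool.Agent.Helper11_CC.Gen`
* `Pool.Agent.Helper17_CC.Goodb`
* `Pool.Agent.Helper26_CC.Grd`
* `Pool.Agent.Helper51_CC.Boxp`
* `Pool.Agent.Helper51_AWC.WrSum`
* `Pool.Agent.Helper51_AWC.WrFinal`
* `Pool.Agent.Helper98_CC.Div`
* `Pool.Agent.Helper98_CC.Final`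
-/

set_option autoImplicit false

section -- Pool.Agent.Helper51_CC.Contr

/-!
CC, module CON: a nontrivial normal `ℓ`-subgroup makes the sum of the commutator counts vanish.
-/

open scoped BigOperators

noncomputable section

namespace Pool.Agent.Helper51_CC

open Pool.Agent.Helper51_AWC Pool.Agent.Helper79_WRA Pool.Agent.Helper98_CC

/-- the `ℓ`-subgroups of `G` -/
def pall (ℓ : ℕ) (G : Type) [Group G] [Finite G] : Finset (Subgroup G) :=
  (Set.toFinite {D : Subgroup G | IsPGroup ℓ D}).toFinset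

theorem mem_pall {ℓ : ℕ} {G : Type} [Group G] [Finite G] {D : Subgroup G} :
    D ∈ pall ℓ G ↔ IsPGroup ℓ D := by
  simp [pall]

open Classical in
theorem stab_insert_bot {G : Type} [Group G] (d : Finset (Subgroup G)) :
    stab (insert ⊥ d) = stab d := by
  ext g
  rw [mem_stab, mem_stab]
  constructor
  · exact fun h D hD => h D (Finset.mem_insert_of_mem hD)
  · intro h D hD
    rcases Finset.mem_insert.1 hD with rfl | hD
    · exact Subgroup.map_bot _
    · exact h D hD

open Classical in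
/-- the sum over the chains of nontrivial `ℓ`-subgroups as a sum over the chains with least
member `⊥` -/
theorem torusSum_eq (ℓ : ℕ) {G : Type} [Group G] [Finite G] (c : G) :
    torusSum ℓ c = ∑ v ∈ chainsOn (pall ℓ G) ⊥, (-1) ^ (v.card + 1) * (comm2 (stab v) c : ℤ) := by
  have hfin : (pChains ℓ G).Finite := Set.toFinite _
  unfold torusSum
  rw [finsum_mem_eq_finite_toFinset_sum _ hfin]
  refine Finset.sum_bij' (fun d _ => insert ⊥ d) (fun v _ => v.erase ⊥) ?_ ?_ ?_ ?_ ?_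
  · intro d hd
    have hd' : d ∈ pChains ℓ G := by simpa using hd
    rw [mem_chainsOn]
    refine ⟨?_, Finset.mem_insert_self _ _, ?_⟩
    · intro D hD
      rw [mem_pall]
      rcases Finset.mem_insert.1 hD with rfl | hD
      · exact IsPGroup.of_bot
      · exact (hd'.1 D hD).2
    · rw [Finset.coe_insert]
      exact hd'.2.insert fun D _ _ => Or.inl bot_le
  · intro v hv
    obtain ⟨h1, h2, h3⟩ := mem_chainsOn.1 hv
    rw [Set.Finite.mem_toFinset]
    refine ⟨fun D hD => ⟨Finset.ne_of_mem_erase hD,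
      mem_pall.1 (h1 (Finset.mem_of_mem_erase hD))⟩, ?_⟩
    exact h3.mono fun D hD => Finset.mem_of_mem_erase hD
  · intro d hd
    have hd' : d ∈ pChains ℓ G := by simpa using hd
    exact Finset.erase_insert fun h => (hd'.1 ⊥ h).1 rfl
  · intro v hv
    exact Finset.insert_erase (mem_chainsOn.1 hv).2.1
  · intro d hd
    have hd' : d ∈ pChains ℓ G := by simpa using hd
    rw [stab_insert_bot, Finset.card_insert_of_notMem fun h => (hd'.1 ⊥ h).1 rfl]
    ring

theorem con : ConStmt := by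
  classical
  intro ℓ _ G _ _ hO c
  obtain ⟨o1, o2, -⟩ := opCore_spec ℓ G
  rw [torusSum_eq]
  refine H91.cone (Subgroup G) (pall ℓ G) ⊥ (opCore ℓ G) (fun x => x ⊔ opCore ℓ G)
    (fun h => hO (le_bot_iff.1 h)) (fun _ _ => bot_le) ?_
    (fun _ _ => le_sup_left) (fun _ _ => le_sup_right) (fun x _ y _ h1 h2 => sup_le h1 h2)
    (fun v => (-1) ^ (v.card + 1) * (comm2 (stab v) c : ℤ)) ?_
  · intro x hx
    rw [mem_pall] at hx ⊢
    exact hx.to_sup_of_normal_right o2
  · intro d _ x hx hnot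
    have hs : stab (insert (x ⊔ opCore ℓ G) d) = stab d := by
      ext g
      rw [mem_stab, mem_stab]
      constructor
      · exact fun h D hD => h D (Finset.mem_insert_of_mem hD)
      · intro h D hD
        rcases Finset.mem_insert.1 hD with rfl | hD
        · have h3 : conjS g (x ⊔ opCore ℓ G) = conjS g x ⊔ conjS g (opCore ℓ G) :=
            Subgroup.map_sup _ _ _
          rw [h3, h x hx, opCore_conj]
        · exact h D hD
    rw [hs, Finset.card_insert_of_notMem hnot]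
    ring

end Pool.Agent.Helper51_CC
end
end -- Pool.Agent.Helper51_CC.Contr

section -- Pool.Agent.Helper3_ML.Cox

/-!
ML, module COX: the chains of nontrivial `ℓ`-subgroups fixed by a group with a nontrivial normal
`ℓ`-subgroup cancel.
-/

open scoped BigOperators

noncomputable section

namespace Pool.Agent.PP.ML.H3

open Pool.Agent.Helper51_AWC Pool.Agent.Helper79_WRA Pool.Agent.PP Pool.Agent.Helper98_CC

/-- the `ℓ`-subgroups of `G` normalised by `L` -/
def pfix (ℓ : ℕ) {G : Type} [Group G] [Finite G] (L : Subgroup G) : Finset (Subgroup G) :=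
  (Set.toFinite {D : Subgroup G | IsPGroup ℓ D ∧
    L ≤ Subgroup.normalizer (D : Set G)}).toFinset

theorem mem_pfix {ℓ : ℕ} {G : Type} [Group G] [Finite G] {L D : Subgroup G} :
    D ∈ pfix ℓ L ↔ IsPGroup ℓ D ∧ L ≤ Subgroup.normalizer (D : Set G) := by
  simp [pfix]

theorem le_stab {G : Type} [Group G] {L : Subgroup G} {d : Finset (Subgroup G)} :
    L ≤ stab d ↔ ∀ D ∈ d, L ≤ Subgroup.normalizer (D : Set G) := by
  unfold stab
  simp only [le_iInf_iff]

theorem cox : CoxStmt := by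
  classical
  intro ℓ _ G _ _ L U hU hp hUL hLU
  have hfin : ({d | d ∈ pChains ℓ G ∧ L ≤ stab d} : Set (Finset (Subgroup G))).Finite :=
    Set.toFinite _
  have e1 : ∑ᶠ (d : Finset (Subgroup G)) (_ : d ∈ pChains ℓ G ∧ L ≤ stab d), (-1 : ℤ) ^ d.card =
      ∑ v ∈ chainsOn (pfix ℓ L) ⊥, (-1 : ℤ) ^ (v.card + 1) := by
    have e0 : ∑ᶠ (d : Finset (Subgroup G)) (_ : d ∈ pChains ℓ G ∧ L ≤ stab d),
        (-1 : ℤ) ^ d.card =
        ∑ᶠ (d : Finset (Subgroup G)) (_ : d ∈ {d | d ∈ pChains ℓ G ∧ L ≤ stab d}),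
          (-1 : ℤ) ^ d.card := rfl
    rw [e0, finsum_mem_eq_finite_toFinset_sum _ hfin]
    refine Finset.sum_bij' (fun d _ => insert ⊥ d) (fun v _ => v.erase ⊥) ?_ ?_ ?_ ?_ ?_
    · intro d hd
      have hd' : d ∈ pChains ℓ G ∧ L ≤ stab d := by simpa using hd
      have hs := le_stab.1 hd'.2
      rw [mem_chainsOn]
      refine ⟨?_, Finset.mem_insert_self _ _, ?_⟩
      · intro D hD
        rw [mem_pfix]
        rcases Finset.mem_insert.1 hD with rfl | hD
        · exact ⟨IsPGroup.of_bot, by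
            intro g _
            rw [mem_normalizer_iff_conjS]
            exact Subgroup.map_bot _⟩
        · exact ⟨(hd'.1.1 D hD).2, hs D hD⟩
      · rw [Finset.coe_insert]
        exact hd'.1.2.insert fun D _ _ => Or.inl bot_le
    · intro v hv
      obtain ⟨h1, h2, h3⟩ := mem_chainsOn.1 hv
      rw [Set.Finite.mem_toFinset]
      refine ⟨⟨fun D hD => ⟨Finset.ne_of_mem_erase hD,
        (mem_pfix.1 (h1 (Finset.mem_of_mem_erase hD))).1⟩, ?_⟩, ?_⟩
      · exact h3.mono fun D hD => Finset.mem_of_mem_erase hD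
      · exact le_stab.2 fun D hD => (mem_pfix.1 (h1 (Finset.mem_of_mem_erase hD))).2
    · intro d hd
      have hd' : d ∈ pChains ℓ G ∧ L ≤ stab d := by simpa using hd
      exact Finset.erase_insert fun h => (hd'.1.1 ⊥ h).1 rfl
    · intro v hv
      exact Finset.insert_erase (mem_chainsOn.1 hv).2.1
    · intro d hd
      have hd' : d ∈ pChains ℓ G ∧ L ≤ stab d := by simpa using hd
      rw [Finset.card_insert_of_notMem fun h => (hd'.1.1 ⊥ h).1 rfl]
      ring
  rw [e1]
  refine H91.cone (Subgroup G) (pfix ℓ L) ⊥ U (fun x => x ⊔ U)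
    (fun h => hU (le_bot_iff.1 h)) (fun _ _ => bot_le) ?_
    (fun _ _ => le_sup_left) (fun _ _ => le_sup_right) (fun x _ y _ h1 h2 => sup_le h1 h2)
    (fun v => (-1 : ℤ) ^ (v.card + 1)) ?_
  · intro x hx
    rw [mem_pfix] at hx ⊢
    refine ⟨hx.1.to_sup_of_normal_left' hp (hUL.trans hx.2), ?_⟩
    intro g hg
    have h1 := hx.2 hg
    have h2 := hLU hg
    rw [mem_normalizer_iff_conjS] at h1 h2 ⊢
    have h3 : conjS g (x ⊔ U) = conjS g x ⊔ conjS g U := Subgroup.map_sup _ _ _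
    rw [h3, h1, h2]
  · intro d _ x hx hnot
    rw [Finset.card_insert_of_notMem hnot]
    ring

end Pool.Agent.PP.ML.H3
end
end -- Pool.Agent.Helper3_ML.Cox

section -- Pool.Agent.Helper11_CC.GenA

/-!
CC, module GEN: convolution of irreducible characters and counting of solutions of products of
commutators.
-/

open scoped BigOperators

noncomputable section

namespace Pool.Agent.Helper11_CC

open Pool.Agent.Helper51_AWC

section conv

variable {G : Type} [Group G] [Fintype G]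

theorem conv_irr {θ χ : G → ℂ} (hθ : θ ∈ Irr G) (hχ : χ ∈ Irr G) (c : G) :
    ∑ h : G, θ h * χ (h⁻¹ * c) = (∑ h : G, χ h * θ h⁻¹) / χ 1 * χ c := by
  obtain ⟨n, ρ, hρ, rfl⟩ := hχ
  have h1 := irr_one_ne (G := G) (χ := ρ.character) ⟨n, ρ, hρ, rfl⟩
  obtain ⟨s, hs⟩ := act_scalar ρ (fun g => θ g⁻¹) (fun g h => by
    have := irr_conj hθ g⁻¹ h
    rw [← this]
    congr 1
    group)
  have htr := act_trace ρ (fun g => θ g⁻¹)
  rw [hs] at htr
  have e1 : (LinearMap.trace ℂ (Fin n → ℂ)) (s • LinearMap.id) = s * ρ.character 1 := by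
    rw [map_smul, smul_eq_mul]
    congr 1
    rw [Representation.character, map_one]
    rfl
  rw [e1] at htr
  have e2 : s = (∑ h : G, ρ.character h * θ h⁻¹) / ρ.character 1 := by
    rw [eq_div_iff h1, htr]
    exact Finset.sum_congr rfl fun g _ => mul_comm _ _
  have e3 : (LinearMap.trace ℂ (Fin n → ℂ)) (act ρ (fun g => θ g⁻¹) * ρ c) =
      ∑ h : G, θ h * ρ.character (h⁻¹ * c) := by
    rw [act, Finset.sum_mul, map_sum]
    rw [← Equiv.sum_comp (Equiv.inv G)]
    refine Finset.sum_congr rfl fun h _ => ?_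
    rw [Equiv.inv_apply, inv_inv, smul_mul_assoc, ← map_mul, map_smul, smul_eq_mul]
    rfl
  rw [← e3, hs, ← e2]
  rw [smul_mul_assoc, map_smul, smul_eq_mul]
  rfl

theorem conv_self {χ : G → ℂ} (hχ : χ ∈ Irr G) (c : G) :
    ∑ h : G, χ h * χ (h⁻¹ * c) = Fintype.card G / χ 1 * χ c := by
  rw [conv_irr hχ hχ, irr_orth_self hχ]

theorem conv_ne {θ χ : G → ℂ} (hθ : θ ∈ Irr G) (hχ : χ ∈ Irr G) (h : θ ≠ χ) (c : G) :
    ∑ h : G, θ h * χ (h⁻¹ * c) = 0 := by
  rw [conv_irr hθ hχ, irr_orth_ne hχ hθ (Ne.symm h), zero_div, zero_mul]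

end conv

section count

variable {G : Type} [Group G] [Finite G]

theorem count_succ {A B : Type} [Finite A] [Finite B] (F : A → G) (P : B → G) (c : G) :
    ((Nat.card {x : A × B // F x.1 * P x.2 = c} : ℕ) : ℂ) =
      ∑ᶠ h : G, ((Nat.card {a : A // F a = h} : ℕ) : ℂ) *
        ((Nat.card {b : B // P b = h⁻¹ * c} : ℕ) : ℂ) := by
  have e : {x : A × B // F x.1 * P x.2 = c} ≃
      (Σ h : G, {a : A // F a = h} × {b : B // P b = h⁻¹ * c}) :=
    { toFun := fun x => ⟨F x.1.1, ⟨x.1.1, rfl⟩, ⟨x.1.2, eq_inv_mul_of_mul_eq x.2⟩⟩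
      invFun := fun y => ⟨(y.2.1.1, y.2.2.1), by
        rw [y.2.1.2, y.2.2.2]
        group⟩
      left_inv := fun x => rfl
      right_inv := by
        rintro ⟨h, ⟨a, rfl⟩, ⟨b, hb⟩⟩
        rfl }
  haveI := Fintype.ofFinite G
  rw [Nat.card_congr e, Nat.card_sigma, finsum_eq_sum_of_fintype, Nat.cast_sum]
  refine Finset.sum_congr rfl fun h _ => ?_
  rw [Nat.card_prod, Nat.cast_mul]

end count

end Pool.Agent.Helper11_CC
end
end -- Pool.Agent.Helper11_CC.GenA

section -- Pool.Agent.Helper11_CC.Gen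

/-!
CC, module GEN: the number of solutions of a product of commutators.
-/

open scoped BigOperators

noncomputable section

namespace Pool.Agent.Helper11_CC

open Pool.Agent.Helper51_AWC Pool.Agent.Helper98_CC

theorem commg_one {G : Type} [Group G] (c : G) :
    commg 1 c = Nat.card {p : G × G // p.1 * p.2 * p.1⁻¹ * p.2⁻¹ = c} := by
  unfold commg
  refine Nat.card_congr ((Equiv.funUnique (Fin 1) (G × G)).subtypeEquiv fun p => ?_)
  simp

theorem commg_succ {G : Type} [Group G] [Finite G] (g : ℕ) (c : G) :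
    ((commg (g + 1) c : ℕ) : ℂ) =
      ∑ᶠ h : G, ((Nat.card {p : G × G // p.1 * p.2 * p.1⁻¹ * p.2⁻¹ = h} : ℕ) : ℂ) *
        ((commg g (h⁻¹ * c) : ℕ) : ℂ) := by
  have h := count_succ (A := G × G) (B := Fin g → G × G)
    (fun p => p.1 * p.2 * p.1⁻¹ * p.2⁻¹)
    (fun q => (List.ofFn fun i => (q i).1 * (q i).2 * (q i).1⁻¹ * (q i).2⁻¹).prod) c
  refine Eq.trans (congrArg Nat.cast ?_) h
  unfold commg
  refine Nat.card_congr ((Fin.consEquiv (fun _ => G × G)).symm.subtypeEquiv fun p => ?_)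
  rw [List.ofFn_succ, List.prod_cons]
  rfl

theorem genus (frb : FrobStmt) : GenusStmt := by
  intro G _ _ g hg
  have hfin : (Irr G).Finite := by
    haveI := Fintype.ofFinite G
    exact irr_finite'
  haveI := Fintype.ofFinite G
  induction g, hg using Nat.le_induction with
  | base =>
    intro c
    rw [commg_one, frb]
    simp
  | succ g hg ih =>
    intro c
    obtain ⟨k, rfl⟩ : ∃ k, g = k + 1 := ⟨g - 1, by omega⟩
    rw [commg_succ, finsum_eq_sum_of_fintype]
    have e1 : 2 * (k + 1) - 1 = 2 * k + 1 := by omega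
    have e2 : 2 * (k + 1 + 1) - 1 = 2 * k + 3 := by omega
    rw [e2]
    rw [e1] at ih
    have s1 : ∀ F : (G → ℂ) → ℂ, ∑ᶠ (χ : G → ℂ) (_ : χ ∈ Irr G), F χ =
        ∑ χ ∈ hfin.toFinset, F χ := fun F => finsum_mem_eq_finite_toFinset_sum F hfin
    have s0 : ∀ h : G, ((Nat.card {p : G × G // p.1 * p.2 * p.1⁻¹ * p.2⁻¹ = h} : ℕ) : ℂ) =
        (Nat.card G : ℂ) * ∑ θ ∈ hfin.toFinset, θ h / θ 1 := fun h => by
      rw [frb G h, s1]
    simp only [s0, ih, s1]
    have s2 : ∀ h : G, ((Nat.card G : ℂ) * ∑ θ ∈ hfin.toFinset, θ h / θ 1) *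
        ((Nat.card G : ℂ) ^ (2 * k + 1) *
          ∑ χ ∈ hfin.toFinset, χ (h⁻¹ * c) / χ 1 ^ (2 * k + 1)) =
        (Nat.card G : ℂ) ^ (2 * k + 2) * ∑ θ ∈ hfin.toFinset, ∑ χ ∈ hfin.toFinset,
          (θ h * χ (h⁻¹ * c)) * (1 / (θ 1 * χ 1 ^ (2 * k + 1))) := by
      intro h
      rw [mul_mul_mul_comm, Finset.sum_mul_sum]
      congr 1
      · ring
      · refine Finset.sum_congr rfl fun θ _ => Finset.sum_congr rfl fun χ _ => ?_
        rw [div_mul_div_comm, mul_one_div]
    simp only [s2]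
    rw [← Finset.mul_sum, Finset.sum_comm]
    have s3 : ∀ θ ∈ hfin.toFinset, ∑ h : G, ∑ χ ∈ hfin.toFinset,
        (θ h * χ (h⁻¹ * c)) * (1 / (θ 1 * χ 1 ^ (2 * k + 1))) =
        (Nat.card G : ℂ) * (θ c / θ 1 ^ (2 * k + 3)) := by
      intro θ hθ
      have hθ' : θ ∈ Irr G := hfin.mem_toFinset.1 hθ
      have h1 := irr_one_ne hθ'
      rw [Finset.sum_comm, Finset.sum_eq_single θ]
      · rw [← Finset.sum_mul, conv_self hθ', Nat.card_eq_fintype_card]
        field_simp
        ring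
      · intro χ hχ hne
        rw [← Finset.sum_mul, conv_ne hθ' (hfin.mem_toFinset.1 hχ) (Ne.symm hne), zero_mul]
      · intro h
        exact absurd hθ h
    rw [Finset.sum_congr rfl s3, ← Finset.mul_sum, ← mul_assoc, ← pow_succ]

end Pool.Agent.Helper11_CC
end
end -- Pool.Agent.Helper11_CC.Gen

section -- Pool.Agent.Helper17_CC.Goodb

/-!
CC, module GOODB: the block condition for the chains containing the complement.
-/

open scoped BigOperators

noncomputable section

namespace Pool.Agent.Helper17_CC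

open Pool.Agent.Helper51_AWC Pool.Agent.Helper79_WRA Pool.Agent.Helper98_CC

variable {ℓ : ℕ} [hp : Fact ℓ.Prime] {G : Type} [Group G]

instance : NeZero ℓ := ⟨hp.out.ne_zero⟩

/-! ### the group theory -/

theorem dia_f (t : Wreath G Unit (Cl ℓ)) (i : ZMod ℓ) : (dia ℓ G t).f i = t.f () := rfl

theorem dia_s (t : Wreath G Unit (Cl ℓ)) : (dia ℓ G t).s = t.s := rfl

theorem dia_inj : Function.Injective (dia ℓ G) := by
  intro x y h
  apply Wreath.ext
  · funext u
    have := congrArg (fun z : Gam ℓ G => z.f 0) h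
    exact this
  · exact congrArg (fun z : Gam ℓ G => z.s) h

theorem mem_range_dia {z : Gam ℓ G} : z ∈ Set.range (dia ℓ G) ↔ ∀ i, z.f i = z.f 0 := by
  constructor
  · rintro ⟨t, rfl⟩ i
    rfl
  · intro h
    refine ⟨⟨fun _ => z.f 0, z.s⟩, ?_⟩
    apply Wreath.ext
    · funext i
      exact (h i).symm
    · rfl

/-- the coordinate of the base group -/
def p1 (ℓ : ℕ) (G : Type) [Group G] : Wreath G Unit (Cl ℓ) →* G where
  toFun t := t.f ()
  map_one' := rfl
  map_mul' _ _ := rfl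

/-- the subgroup `R × C_ℓ` of the wreath product -/
def dR (ℓ : ℕ) {G : Type} [Group G] (R : Subgroup G) : Subgroup (Gam ℓ G) :=
  (R.comap (p1 ℓ G)).map (dia ℓ G)

theorem mem_dR {R : Subgroup G} {z : Gam ℓ G} : z ∈ dR ℓ R ↔ ∃ r ∈ R, ∀ i, z.f i = r := by
  constructor
  · rintro ⟨t, ht, rfl⟩
    exact ⟨t.f (), ht, fun i => rfl⟩
  · rintro ⟨r, hr, h⟩
    refine ⟨⟨fun _ => r, z.s⟩, hr, ?_⟩
    apply Wreath.ext
    · funext i
      exact (h i).symm
    · rfl

theorem cl_pow (s : Cl ℓ) : s ^ ℓ = 1 := by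
  apply Multiplicative.toAdd.injective
  rw [toAdd_pow, toAdd_one, nsmul_eq_mul, ZMod.natCast_self, zero_mul]

theorem dR_pgroup {R : Subgroup G} (hR : IsPGroup ℓ R) : IsPGroup ℓ (dR ℓ R) := by
  apply IsPGroup.map
  apply IsPGroup.comap_of_ker_isPGroup hR
  rintro ⟨t, ht⟩
  refine ⟨1, ?_⟩
  apply Subtype.ext
  have h1 : t = Wreath.top t.s := by
    apply Wreath.ext
    · funext u
      exact ht
    · rfl
  show t ^ ℓ ^ 1 = 1
  rw [pow_one, h1, ← map_pow, cl_pow, map_one]

theorem dR_mono {R S : Subgroup G} (h : R ≤ S) : dR ℓ R ≤ dR ℓ S :=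
  Subgroup.map_mono (Subgroup.comap_mono h)

theorem conj_dR (t : Wreath G Unit (Cl ℓ)) (R : Subgroup G) :
    conjS (dia ℓ G t) (dR ℓ R) = dR ℓ (conjS (t.f ()) R) := by
  ext x
  rw [mem_conjS, mem_dR, mem_dR]
  constructor
  · rintro ⟨r, hr, h⟩
    refine ⟨t.f () * r * (t.f ())⁻¹, ?_, ?_⟩
    · rw [mem_conjS]
      have : (t.f ())⁻¹ * (t.f () * r * (t.f ())⁻¹) * t.f () = r := by group
      rw [this]; exact hr
    · intro i
      have h1 := h (t.s⁻¹ • i)
      simp only [Wreath.mul_f, Wreath.inv_f, dia_f, Wreath.inv_s, dia_s, inv_inv,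
        smul_inv_smul] at h1
      rw [← h1]; group
  · rintro ⟨r, hr, h⟩
    rw [mem_conjS] at hr
    refine ⟨_, hr, ?_⟩
    intro i
    simp only [Wreath.mul_f, Wreath.inv_f, dia_f, Wreath.inv_s, dia_s, inv_inv]
    rw [h]

theorem dR_inj {R S : Subgroup G} (h : dR ℓ R = dR ℓ S) : R = S := by
  ext r
  have h1 : ∀ T : Subgroup G, dia ℓ G ⟨fun _ => r, 1⟩ ∈ dR ℓ T ↔ r ∈ T := by
    intro T
    rw [mem_dR]
    constructor
    · rintro ⟨s, hs, h⟩
      have : r = s := h 0
      rw [this]; exact hs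
    · intro hr
      exact ⟨r, hr, fun i => rfl⟩
  rw [← h1 R, ← h1 S, h]

open Classical in
/-- the chain of the wreath product -/
def chn (ℓ : ℕ) {G : Type} [Group G] (v : Finset (Unit → Subgroup G)) :
    Finset (Subgroup (Gam ℓ G)) := v.image (fun R => dR ℓ (R ()))

theorem mem_stab_chn {v : Finset (Unit → Subgroup G)} (hv : (fun _ => ⊥) ∈ v) {z : Gam ℓ G} :
    z ∈ stab (chn ℓ v) ↔ (∀ i, z.f i = z.f 0) ∧ z.f 0 ∈ colStab v () := by
  classical
  rw [mem_stab, mem_colStab]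
  constructor
  · intro h
    have h0 : ∀ i, z.f i = z.f 0 := by
      intro i
      have h1 := h (dR ℓ (⊥ : Subgroup G)) (Finset.mem_image.2 ⟨_, hv, rfl⟩)
      -- the element of the complement moving 0 to i
      have h2 : z * Wreath.top (Multiplicative.ofAdd i) * z⁻¹ ∈ dR ℓ (⊥ : Subgroup G) := by
        rw [← h1, mem_conjS]
        have : z⁻¹ * (z * Wreath.top (Multiplicative.ofAdd i) * z⁻¹) * z =
            Wreath.top (Multiplicative.ofAdd i) := by group
        rw [this, mem_dR]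
        exact ⟨1, Subgroup.one_mem _, fun j => rfl⟩
      rw [mem_dR] at h2
      obtain ⟨r, hr, h3⟩ := h2
      rw [Subgroup.mem_bot] at hr
      have h4 := h3 i
      rw [hr, Wreath.conj_f, Wreath.top_f, mul_one, mul_inv_eq_one] at h4
      rw [h4]
      congr 1
      rw [Wreath.top_s, mul_inv_cancel_comm, cl_smul]
      simp
    refine ⟨h0, ?_⟩
    obtain ⟨t, rfl⟩ := mem_range_dia.2 h0
    intro R hR
    have h1 := h _ (Finset.mem_image_of_mem _ hR)
    rw [conj_dR] at h1
    exact dR_inj h1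
  · rintro ⟨h0, h1⟩ D hD
    obtain ⟨t, rfl⟩ := mem_range_dia.2 h0
    obtain ⟨R, hR, rfl⟩ := Finset.mem_image.1 hD
    show conjS (dia ℓ G t) (dR ℓ (R ())) = dR ℓ (R ())
    rw [conj_dR]
    congr 1
    exact h1 R hR

theorem chn_pgroup [Finite G] {v : Finset (Unit → Subgroup G)}
    (hv : v ∈ chainsOn (boxes ℓ G Unit) (fun _ => ⊥)) : ∀ D ∈ chn ℓ v, IsPGroup ℓ D := by
  classical
  intro D hD
  obtain ⟨R, hR, rfl⟩ := Finset.mem_image.1 hD
  apply dR_pgroup
  exact (mem_psub.1 (mem_boxes.1 ((mem_chainsOn.1 hv).1 hR) ())).2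

theorem chn_chain [Finite G] {v : Finset (Unit → Subgroup G)}
    (hv : v ∈ chainsOn (boxes ℓ G Unit) (fun _ => ⊥)) :
    IsChain (· ≤ ·) (chn ℓ v : Set (Subgroup (Gam ℓ G))) := by
  classical
  intro D hD E hE hne
  obtain ⟨R, hR, rfl⟩ := Finset.mem_image.1 hD
  obtain ⟨S, hS, rfl⟩ := Finset.mem_image.1 hE
  have h := (mem_chainsOn.1 hv).2.2
  rcases chain_total h hR hS with h1 | h1
  · left; exact dR_mono (h1 ())
  · right; exact dR_mono (h1 ())

/-! ### the characters -/

section chars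

variable [Finite G]

theorem cls_fun {H : Subgroup G} {a : G → ℂ} (ha : a ∈ IrrS H) {g : G} (hg : g ∈ H) (y : G) :
    a (g * y * g⁻¹) = a y := by
  by_cases hy : y ∈ H
  · exact irr_conj ha.2 ⟨y, hy⟩ ⟨g, hg⟩
  · rw [ha.1 y hy, ha.1]
    intro h
    apply hy
    have := H.mul_mem (H.mul_mem (H.inv_mem hg) h) hg
    have h1 : g⁻¹ * (g * y * g⁻¹) * g = y := by group
    rwa [h1] at this

theorem topSt_eq (v : Finset (Unit → Subgroup G)) (α : Unit → G → ℂ) :
    topSt (Cl ℓ) v α = ⊤ := by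
  rw [eq_top_iff]
  intro h _
  rw [mem_topSt]
  intro j
  refine ⟨1, ?_, ?_⟩
  · intro R _
    rw [conjS_one]
  · intro y
    rw [one_mul, inv_one, mul_one]

theorem eta_eq (hext : ExtStmt) {v : Finset (Unit → Subgroup G)} {α : Unit → G → ℂ}
    (hα : IsChars v α) (lam : Cl ℓ → ℂ) (t : Wreath G Unit (Cl ℓ)) :
    eta v α lam t = α () (t.f ()) * lam t.s := by
  classical
  have hE : IsExt (Cl ℓ) v α (ext (Cl ℓ) v α) := by
    have h := hext G Unit (Cl ℓ) v α hα
    unfold ext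
    rw [dif_pos h]
    exact h.choose_spec
  unfold eta
  congr 1
  by_cases ht : t ∈ stX (Cl ℓ) v α
  · have hB : IsBase t.s ({()} : Finset Unit) := by
      intro j
      refine ⟨(), ⟨Finset.mem_singleton.2 rfl, ?_⟩, ?_⟩
      · exact MulAction.mem_orbit_self _
      · intro b _
        rfl
    have := hE.value t ht {()} hB
    rw [this, Finset.prod_singleton, Function.minimalPeriod_eq_one_of_subsingleton, pow_one]
  · rw [hE.mem.1 t ht]
    symm
    apply (hα ()).1
    intro hg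
    apply ht
    rw [mem_stX]
    refine ⟨?_, ?_⟩
    · intro R hR j
      exact mem_colStab.1 hg R hR
    · intro j y
      exact cls_fun (hα ()) hg y

open Classical in
/-- the character of the stabiliser of the chain, extended by zero -/
def AA (a : G → ℂ) (lam : Cl ℓ → ℂ) : Gam ℓ G → ℂ := fun z =>
  if z ∈ Set.range (dia ℓ G) then a (z.f 0) * lam z.s else 0

theorem AA_dia (a : G → ℂ) (lam : Cl ℓ → ℂ) (t : Wreath G Unit (Cl ℓ)) :
    AA a lam (dia ℓ G t) = a (t.f ()) * lam t.s := by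
  unfold AA
  rw [if_pos ⟨t, rfl⟩]
  rfl

theorem AA_one (a : G → ℂ) (lam : Cl ℓ → ℂ) : AA (ℓ := ℓ) a lam 1 = a 1 * lam 1 := by
  rw [← map_one (dia ℓ G), AA_dia]
  rfl

/-- the stabiliser of the chain as a product -/
def eHom (v : Finset (Unit → Subgroup G)) (hv : (fun _ => ⊥) ∈ v) :
    (colStab v () : Subgroup G) × Cl ℓ →* stab (chn ℓ v) where
  toFun x := ⟨⟨fun _ => x.1, x.2⟩, (mem_stab_chn hv).2 ⟨fun _ => rfl, x.1.2⟩⟩
  map_one' := rfl
  map_mul' _ _ := rfl

theorem eHom_bij (v : Finset (Unit → Subgroup G)) (hv : (fun _ => ⊥) ∈ v) :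
    Function.Bijective (eHom (ℓ := ℓ) v hv) := by
  constructor
  · intro x y h
    have h1 : (eHom (ℓ := ℓ) v hv x : Gam ℓ G) = (eHom (ℓ := ℓ) v hv y : Gam ℓ G) :=
      congrArg Subtype.val h
    apply Prod.ext
    · apply Subtype.ext
      exact congrArg (fun z : Gam ℓ G => z.f 0) h1
    · exact congrArg (fun z : Gam ℓ G => z.s) h1
  · rintro ⟨z, hz⟩
    obtain ⟨h1, h2⟩ := (mem_stab_chn hv).1 hz
    refine ⟨(⟨z.f 0, h2⟩, z.s), ?_⟩
    apply Subtype.ext
    apply Wreath.ext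
    · funext i
      exact (h1 i).symm
    · rfl

theorem AA_mem {v : Finset (Unit → Subgroup G)} (hv : (fun _ => ⊥) ∈ v) {a : G → ℂ}
    {lam : Cl ℓ → ℂ} (ha : a ∈ IrrS (colStab v ())) (hl : lam ∈ Irr (Cl ℓ)) :
    AA a lam ∈ IrrS (stab (chn ℓ v)) := by
  classical
  constructor
  · intro z hz
    unfold AA
    split_ifs with h
    · rw [ha.1, zero_mul]
      intro h2
      exact hz ((mem_stab_chn hv).2 ⟨mem_range_dia.1 h, h2⟩)
    · rfl
  · let e : (colStab v () : Subgroup G) × Cl ℓ ≃* stab (chn ℓ v) :=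
      MulEquiv.ofBijective (eHom v hv) (eHom_bij v hv)
    have := Fintype.ofFinite (colStab v () : Subgroup G)
    have := Fintype.ofFinite (Cl ℓ)
    have := Fintype.ofFinite (stab (chn ℓ v) : Subgroup (Gam ℓ G))
    have h1 := prodChar_mem ha.2 hl
    have h2 := irr_comp_equiv e.symm h1
    have h3 : (fun h : stab (chn ℓ v) => AA a lam (h : Gam ℓ G)) =
        fun g => prodChar (fun h : (colStab v () : Subgroup G) => a h) lam (e.symm g) := by
      funext z
      obtain ⟨x, rfl⟩ := e.surjective z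
      rw [e.symm_apply_apply]
      have h4 : ((e x : stab (chn ℓ v)) : Gam ℓ G) = dia ℓ G ⟨fun _ => x.1, x.2⟩ := rfl
      rw [h4, AA_dia]
      rfl
    rw [h3]
    exact h2

theorem val_eta (hext : ExtStmt) {v : Finset (Unit → Subgroup G)} {α : Unit → G → ℂ}
    (hα : IsChars v α) (lam : Cl ℓ → ℂ) (z : Gam ℓ G) :
    val (clas (dia ℓ G) z) (eta v α lam) = omega (MonoidHom.id _) (AA (α ()) lam) z := by
  classical
  have := Fintype.ofFinite (Gam ℓ G)
  have := Fintype.ofFinite (Wreath G Unit (Cl ℓ))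
  rw [val_eq, omega_eq]
  congr 1
  · apply Fintype.sum_of_injective (dia ℓ G) dia_inj
    · intro x hx
      unfold AA
      rw [if_neg hx]
      simp
    · intro t
      rw [eta_eq hext hα, AA_dia]
      unfold clas
      by_cases h : IsConj z (dia ℓ G t)
      · rw [if_pos h, if_pos (by exact h), one_mul]
      · rw [if_neg h, if_neg (by exact h), zero_mul]
  · rw [eta_eq hext hα, AA_one]
    rfl

end chars

/-! ### conjugacy in the base group -/

section conj

theorem conj_base {y : ZMod ℓ → G} {z : Gam ℓ G} :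
    IsConj (Wreath.base y : Gam ℓ G) z ↔
      z.s = 1 ∧ ∃ t : Cl ℓ, ∀ i, IsConj (y (t⁻¹ • i)) (z.f i) := by
  rw [isConj_iff]
  constructor
  · rintro ⟨c, rfl⟩
    refine ⟨?_, c.s, ?_⟩
    · rw [Wreath.conj_s, Wreath.base_s, mul_one, mul_inv_cancel]
    · intro i
      rw [isConj_iff]
      refine ⟨c.f i, ?_⟩
      rw [Wreath.conj_f, Wreath.base_f, Wreath.base_s, inv_one, mul_one, mul_inv_cancel, one_smul]
  · rintro ⟨hs, t, h⟩
    simp_rw [isConj_iff] at h
    choose c hc using h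
    refine ⟨⟨c, t⟩, ?_⟩
    apply Wreath.ext
    · funext i
      rw [Wreath.conj_f, Wreath.base_f, Wreath.base_s]
      show c i * y (t⁻¹ • i) * (c ((t * 1⁻¹ * t⁻¹) • i))⁻¹ = z.f i
      rw [inv_one, mul_one, mul_inv_cancel, one_smul, hc]
    · rw [Wreath.conj_s, Wreath.base_s, mul_one, mul_inv_cancel, hs]

/-- a function on `ZMod ℓ` that is invariant under a nontrivial rotation is constant -/
theorem const_of_rot {y : ZMod ℓ → G} {t : Cl ℓ} (ht : t ≠ 1)
    (h : ∀ i, IsConj (y (t⁻¹ • i)) (y i)) (i : ZMod ℓ) : IsConj (y 0) (y i) := by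
  have h1 : ∀ n : ℕ, ∀ i, IsConj (y ((t ^ n)⁻¹ • i)) (y i) := by
    intro n
    induction n with
    | zero => intro i; rw [pow_zero, inv_one, one_smul]
    | succ n ih =>
      intro i
      have h2 := ih (t⁻¹ • i)
      have h3 : (t ^ n)⁻¹ • t⁻¹ • i = (t ^ (n + 1))⁻¹ • i := by
        rw [← mul_smul, pow_succ', mul_inv_rev]
      rw [h3] at h2
      exact h2.trans (h i)
  have h2 : ∃ n : ℕ, (t ^ n)⁻¹ • i = 0 := by
    have ht' : Multiplicative.toAdd t ≠ 0 := fun h => ht (by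
      apply Multiplicative.toAdd.injective
      exact h)
    refine ⟨(i / Multiplicative.toAdd t).val, ?_⟩
    rw [cl_smul, toAdd_inv, toAdd_pow, nsmul_eq_mul, ZMod.natCast_val, ZMod.cast_id',
      id_eq, div_mul_cancel₀ _ ht', neg_add_cancel]
  obtain ⟨n, hn⟩ := h2
  have h3 := h1 n i
  rwa [hn] at h3

end conj

/-! ### the values on the base group -/

section values

variable [Finite G]

theorem sum_prod_pi [Fintype G] (F : ZMod ℓ → G → ℂ) :
    ∑ w : ZMod ℓ → G, ∏ i, F i (w i) = ∏ i, ∑ x, F i x := by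
  classical
  rw [Finset.prod_univ_sum, Fintype.piFinset_univ]

open Classical in
theorem val_over [Fintype G] (hext : ExtStmt) {χ : G → ℂ} (hχ : χ ∈ Irr G)
    {χ' : Gam ℓ G → ℂ} (hO : Over ℓ χ χ') (y : ZMod ℓ → G) :
    omega (MonoidHom.id _) χ' (Wreath.base y : Gam ℓ G) =
      (∑ w : ZMod ℓ → G, if IsConj (Wreath.base y : Gam ℓ G) (Wreath.base w) then
        ∏ i, χ (w i) else 0) / χ 1 ^ ℓ := by
  have := Fintype.ofFinite (Gam ℓ G)
  have hE : IsExt (Cl ℓ) (triv G (ZMod ℓ)) (fun _ => χ)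
      (ext (Cl ℓ) (triv G (ZMod ℓ)) (fun _ => χ)) := by
    have h := hext G (ZMod ℓ) (Cl ℓ) (triv G (ZMod ℓ)) (fun _ => χ)
      (isChars_triv.2 fun _ => hχ)
    unfold ext
    rw [dif_pos h]
    exact h.choose_spec
  have hcl : ∀ x y' : Gam ℓ G, clas (MonoidHom.id (Gam ℓ G)) (Wreath.base y) (y' * x * y'⁻¹) =
      clas (MonoidHom.id (Gam ℓ G)) (Wreath.base y) x := by
    intro x y'
    have h1 : IsConj x (y' * x * y'⁻¹) := isConj_iff.2 ⟨y', rfl⟩
    have h2 : IsConj (Wreath.base y : Gam ℓ G) (MonoidHom.id (Gam ℓ G) (y' * x * y'⁻¹)) ↔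
        IsConj (Wreath.base y : Gam ℓ G) (MonoidHom.id (Gam ℓ G) x) :=
      ⟨fun h => h.trans h1.symm, fun h => h.trans h1⟩
    unfold clas
    by_cases h : IsConj (Wreath.base y : Gam ℓ G) (MonoidHom.id (Gam ℓ G) x)
    · rw [if_pos h, if_pos (h2.2 h)]
    · rw [if_neg h, if_neg (fun hc => h (h2.1 hc))]
  have h1 : omega (MonoidHom.id _) χ' (Wreath.base y : Gam ℓ G) =
      val (clas (MonoidHom.id (Gam ℓ G)) (Wreath.base y)) χ' := by
    rw [omega_eq, val_eq]
    congr 1
    apply Finset.sum_congr rfl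
    intro t _
    unfold clas
    by_cases h : IsConj (Wreath.base y : Gam ℓ G) (MonoidHom.id _ t)
    · rw [if_pos h, if_pos h, one_mul]
    · rw [if_neg h, if_neg h, zero_mul]
  have hX : ∀ w : ZMod ℓ → G, et (fun _ : ZMod ℓ => χ) (fun _ : Cl ℓ => (1 : ℂ))
      (Wreath.base w : Gam ℓ G) = ∏ i, χ (w i) := by
    intro w
    show ext (Cl ℓ) (triv G (ZMod ℓ)) (fun _ => χ) (Wreath.base w) * 1 = _
    rw [mul_one, hE.base]
  rw [h1, hO.2 _ hcl, val_eq]
  congr 1
  · symm
    apply Fintype.sum_of_injective (Wreath.base : (ZMod ℓ → G) →* Gam ℓ G)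
      Wreath.base_injective
    · intro x hx
      unfold clas
      rw [if_neg, zero_mul]
      intro h
      apply hx
      have h2 : IsConj (Wreath.base y : Gam ℓ G) x := h
      exact Wreath.mem_base_range.2 (conj_base.1 h2).1
    · intro w
      rw [hX]
      unfold clas
      by_cases h : IsConj (Wreath.base y : Gam ℓ G) (Wreath.base w)
      · rw [if_pos h, if_pos (by exact h), one_mul]
      · rw [if_neg h, if_neg (by exact h), zero_mul]
  · rw [← map_one (Wreath.base : (ZMod ℓ → G) →* Gam ℓ G), hX]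
    rw [Finset.prod_congr rfl (fun i _ => by rw [Pi.one_apply]), Finset.prod_const,
      Finset.card_univ, ZMod.card]

theorem over_const (hext : ExtStmt) {χ : G → ℂ} (hχ : χ ∈ Irr G)
    {χ' : Gam ℓ G → ℂ} (hO : Over ℓ χ χ') {y : ZMod ℓ → G} (hy : ∀ i, IsConj (y 0) (y i)) :
    omega (MonoidHom.id _) χ' (Wreath.base y : Gam ℓ G) =
      omega (MonoidHom.id _) χ (y 0) ^ ℓ := by
  classical
  have := Fintype.ofFinite G
  rw [val_over hext hχ hO, omega_eq, div_pow]
  congr 1
  have h1 : ∀ w : ZMod ℓ → G, (if IsConj (Wreath.base y : Gam ℓ G) (Wreath.base w) then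
      ∏ i, χ (w i) else 0) = ∏ i, (if IsConj (y 0) (w i) then χ (w i) else 0) := by
    intro w
    have h2 : IsConj (Wreath.base y : Gam ℓ G) (Wreath.base w) ↔
        ∀ i ∈ (Finset.univ : Finset (ZMod ℓ)), IsConj (y 0) (w i) := by
      rw [conj_base]
      constructor
      · rintro ⟨-, t, h⟩ i _
        exact (hy _).trans (h i)
      · intro h
        refine ⟨rfl, 1, ?_⟩
        intro i
        exact (hy _).symm.trans (h i (Finset.mem_univ _))
    rw [Finset.prod_ite_zero]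
    by_cases h : IsConj (Wreath.base y : Gam ℓ G) (Wreath.base w)
    · rw [if_pos h, if_pos (h2.1 h)]
    · rw [if_neg h, if_neg (fun hc => h (h2.2 hc))]
  simp_rw [h1]
  rw [sum_prod_pi (fun _ x => if IsConj (y 0) x then χ x else 0), Finset.prod_const,
    Finset.card_univ, ZMod.card]
  rfl

theorem over_nonconst (hext : ExtStmt) {χ : G → ℂ} (hχ : χ ∈ Irr G)
    {χ' : Gam ℓ G → ℂ} (hO : Over ℓ χ χ') {y : ZMod ℓ → G} (hy : ¬ ∀ i, IsConj (y 0) (y i)) :
    omega (MonoidHom.id _) χ' (Wreath.base y : Gam ℓ G) =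
      (ℓ : ℂ) * ∏ i, omega (MonoidHom.id _) χ (y i) := by
  classical
  have := Fintype.ofFinite G
  have := Fintype.ofFinite (Cl ℓ)
  have hcard : Fintype.card (Cl ℓ) = ℓ := by
    rw [← Nat.card_eq_fintype_card]
    have : Nat.card (Cl ℓ) = Nat.card (ZMod ℓ) := rfl
    rw [this, Nat.card_zmod]
  rw [val_over hext hχ hO]
  have h1 : ∀ w : ZMod ℓ → G, (if IsConj (Wreath.base y : Gam ℓ G) (Wreath.base w) then
      ∏ i, χ (w i) else 0) =
      ∑ t : Cl ℓ, ∏ i, (if IsConj (y (t⁻¹ • i)) (w i) then χ (w i) else 0) := by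
    intro w
    simp_rw [Finset.prod_ite_zero]
    by_cases h : IsConj (Wreath.base y : Gam ℓ G) (Wreath.base w)
    · rw [if_pos h]
      obtain ⟨-, t, ht⟩ := conj_base.1 h
      rw [Finset.sum_eq_single t]
      · rw [if_pos]
        intro i _
        exact ht i
      · intro u _ hu
        rw [if_neg]
        intro hc
        apply hy
        apply const_of_rot (t := u⁻¹ * t) (by
          intro h
          exact hu (inv_mul_eq_one.1 h))
        intro i
        have e1 := ht (u • i)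
        have e2 := hc (u • i) (Finset.mem_univ _)
        rw [inv_smul_smul] at e2
        have e3 : (u⁻¹ * t)⁻¹ • i = t⁻¹ • u • i := by
          rw [mul_inv_rev, inv_inv, mul_smul]
        rw [e3]
        exact e1.trans e2.symm
      · intro h
        exact absurd (Finset.mem_univ _) h
    · rw [if_neg h]
      symm
      apply Finset.sum_eq_zero
      intro t _
      rw [if_neg]
      intro hc
      exact h (conj_base.2 ⟨rfl, t, fun i => hc i (Finset.mem_univ _)⟩)
  simp_rw [h1]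
  rw [Finset.sum_comm]
  have h2 : ∀ t : Cl ℓ, ∑ w : ZMod ℓ → G, ∏ i, (if IsConj (y (t⁻¹ • i)) (w i) then
      χ (w i) else 0) = ∏ i, ∑ x, (if IsConj (y i) x then χ x else 0) := by
    intro t
    rw [sum_prod_pi (fun i x => if IsConj (y (t⁻¹ • i)) x then χ x else 0)]
    exact Equiv.prod_comp (MulAction.toPerm t⁻¹)
      (fun i => ∑ x, (if IsConj (y i) x then χ x else 0))
  simp_rw [h2]
  rw [Finset.sum_const, Finset.card_univ, hcard, nsmul_eq_mul, mul_div_assoc]
  congr 1
  have h3 : ∀ i, omega (MonoidHom.id _) χ (y i) =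
      (∑ x, (if IsConj (y i) x then χ x else 0)) / χ 1 := by
    intro i
    rw [omega_eq]
    rfl
  simp_rw [h3]
  rw [Finset.prod_div_distrib, Finset.prod_const, Finset.card_univ, ZMod.card]

theorem omega_AA [Fintype G] (a : G → ℂ) {lam : Cl ℓ → ℂ} (hl : lam 1 ≠ 0)
    (y : ZMod ℓ → G) [DecidablePred fun g => ∀ i, IsConj (y i) g] :
    omega (MonoidHom.id _) (AA a lam) (Wreath.base y : Gam ℓ G) =
      (∑ g : G, if ∀ i, IsConj (y i) g then a g else 0) / a 1 := by
  classical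
  have := Fintype.ofFinite (Gam ℓ G)
  rw [omega_eq, AA_one]
  have h0 : ∑ x : Gam ℓ G, (if IsConj (Wreath.base y : Gam ℓ G) (MonoidHom.id _ x) then
      AA a lam x else 0) = ∑ g : G, (if ∀ i, IsConj (y i) g then a g else 0) * lam 1 := by
    symm
    apply Fintype.sum_of_injective (fun g : G => (Wreath.base (fun _ => g) : Gam ℓ G))
    · intro g h hgh
      exact congrFun (Wreath.base_injective hgh) 0
    · intro x hx
      by_cases h : IsConj (Wreath.base y : Gam ℓ G) (MonoidHom.id _ x)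
      · rw [if_pos h]
        unfold AA
        rw [if_neg]
        intro hr
        apply hx
        have h1 := (conj_base.1 h).1
        refine ⟨x.f 0, ?_⟩
        apply Wreath.ext
        · funext i
          exact (mem_range_dia.1 hr i).symm
        · exact h1.symm
      · rw [if_neg h]
    · intro g
      have h1 : IsConj (Wreath.base y : Gam ℓ G) (MonoidHom.id _ (Wreath.base (fun _ => g))) ↔
          ∀ i, IsConj (y i) g := by
        show IsConj (Wreath.base y : Gam ℓ G) (Wreath.base (fun _ => g)) ↔ _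
        rw [conj_base]
        constructor
        · rintro ⟨-, t, h⟩ i
          have h2 := h (t • i)
          rwa [inv_smul_smul] at h2
        · intro h
          exact ⟨rfl, 1, fun i => h _⟩
      have h2 : AA a lam (Wreath.base (fun _ => g) : Gam ℓ G) = a g * lam 1 :=
        AA_dia a lam ⟨fun _ => g, 1⟩
      by_cases h : ∀ i, IsConj (y i) g
      · rw [if_pos h, if_pos (h1.2 h), h2]
      · rw [if_neg h, if_neg (fun hc => h (h1.1 hc)), zero_mul]
  rw [h0, ← Finset.sum_mul, mul_div_mul_right _ _ hl]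

theorem AA_const (a : G → ℂ) {lam : Cl ℓ → ℂ} (hl : lam 1 ≠ 0)
    {y : ZMod ℓ → G} (hy : ∀ i, IsConj (y 0) (y i)) :
    omega (MonoidHom.id _) (AA a lam) (Wreath.base y : Gam ℓ G) =
      omega (MonoidHom.id _) a (y 0) := by
  classical
  have := Fintype.ofFinite G
  rw [omega_AA a hl, omega_eq]
  congr 1
  apply Finset.sum_congr rfl
  intro g _
  have h1 : (∀ i, IsConj (y i) g) ↔ IsConj (y 0) (MonoidHom.id G g) :=
    ⟨fun h => h 0, fun h i => (hy i).symm.trans h⟩
  by_cases h : ∀ i, IsConj (y i) g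
  · rw [if_pos h, if_pos (h1.1 h)]
  · rw [if_neg h, if_neg (fun hc => h (h1.2 hc))]

theorem AA_nonconst (a : G → ℂ) {lam : Cl ℓ → ℂ} (hl : lam 1 ≠ 0)
    {y : ZMod ℓ → G} (hy : ¬ ∀ i, IsConj (y 0) (y i)) :
    omega (MonoidHom.id _) (AA a lam) (Wreath.base y : Gam ℓ G) = 0 := by
  classical
  have := Fintype.ofFinite G
  rw [omega_AA a hl, Finset.sum_eq_zero, zero_div]
  intro g _
  rw [if_neg]
  intro h
  exact hy fun i => (h 0).trans (h i).symm

end values

/-- GOODB. -/
theorem goodb (hext : ExtStmt) (hlab : LabelStmt) (heq : EqbStmt) : GoodbStmt := by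
  intro ℓ _ M _ hℓ G _ _ hG χ hχ _ χ' hO v hv α hα lam hlam
  classical
  have hv0 : (fun _ => ⊥) ∈ v := (mem_chainsOn.1 hv).2.1
  rw [topSt_eq, mem_IrrS_top] at hlam
  have hl1 : lam 1 ≠ 0 := irr_one_ne hlam
  set A : Gam ℓ G → ℂ := AA (α ()) lam with hA
  have hAm : A ∈ IrrS (stab (chn ℓ v)) := AA_mem hv0 (hα ()) hlam
  obtain ⟨ψ, hψ, hAψ⟩ := hlab ℓ M hℓ (Gam ℓ G) (chn ℓ v) (chn_pgroup hv) (chn_chain hv) A hAm
  have hint : ∀ z, IsIntegral ℤ (omega (MonoidHom.id (Gam ℓ G)) χ' z) :=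
    fun z => omega_integral _ hO.1 z
  have h1 : Good M (clas (dia ℓ G)) (fun g => omega (MonoidHom.id _) χ' g) (eta v α lam) ↔
      ∀ z, labF M A z = labF M χ' z := by
    apply forall_congr'
    intro z
    rw [val_eta hext hα]
    exact (red_eq_iff (omega_IrrS_integral hAm z) (hint z)).symm
  have h2 : (∀ z, labF M A z = labF M χ' z) ↔
      ∀ y : ZMod ℓ → G, labF M A (Wreath.base y) = labF M χ' (Wreath.base y) := by
    constructor
    · intro h y
      exact h _
    · intro h z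
      rw [hAψ]
      rw [hAψ] at h
      exact congrFun (heq ℓ M hℓ G ψ hψ χ' hO.1 h) z
  have hω : ∀ g, IsIntegral ℤ (omega (MonoidHom.id G) χ g) := fun g => omega_integral _ hχ g
  have h3 : ∀ y : ZMod ℓ → G, (∀ i, IsConj (y 0) (y i)) →
      labF M A (Wreath.base y) = labF M (α ()) (y 0) ∧
      labF M χ' (Wreath.base y) = labF M χ (y 0) ^ ℓ := by
    intro y hy
    constructor
    · show red M _ = red M _
      rw [hA, AA_const _ hl1 hy]
    · show red M _ = red M _ ^ ℓ
      rw [over_const hext hχ hO hy, red_pow (hω _)]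
  have h4 : ∀ y : ZMod ℓ → G, (¬ ∀ i, IsConj (y 0) (y i)) →
      labF M A (Wreath.base y) = labF M χ' (Wreath.base y) := by
    intro y hy
    show red M _ = red M _
    rw [hA, AA_nonconst _ hl1 hy, over_nonconst hext hχ hO hy, red_zero,
      red_mul (AI.natCast ℓ) (IsIntegral.prod _ fun i _ => hω _)]
    have h5 : red M (ℓ : ℂ) = 0 := by
      rw [← red_zero, red_eq_iff (AI.natCast ℓ) isIntegral_zero]
      exact ⟨_, hℓ, by simp⟩
    rw [h5, zero_mul]
  rw [h1, h2]
  constructor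
  · intro h g
    obtain ⟨e1, e2⟩ := h3 (fun _ => g) (fun _ => IsConj.refl g)
    rw [← e1, ← e2]
    exact h _
  · intro h y
    by_cases hy : ∀ i, IsConj (y 0) (y i)
    · obtain ⟨e1, e2⟩ := h3 y hy
      rw [e1, e2, h]
    · exact h4 y hy

end Pool.Agent.Helper17_CC
end
end -- Pool.Agent.Helper17_CC.Goodb

section -- Pool.Agent.Helper26_CC.Grd

/-!
CC, module GRD: the genus `g` count modulo `M`.
-/

open scoped BigOperators

noncomputable section

namespace Pool.Agent.Helper26_CC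

open Pool.Agent.Helper51_AWC Pool.Agent.Helper79_WRA Pool.Agent.Helper98_CC

/-- a rational algebraic integer is an integer -/
theorem rat_int {a b : ℤ} (h : IsIntegral ℤ ((a : ℂ) / b)) :
    ∃ n : ℤ, (a : ℂ) / b = n := by
  have h1 : IsIntegral ℤ ((a : ℚ) / b) := by
    have h2 : algebraMap ℚ ℂ ((a : ℚ) / b) = (a : ℂ) / b := by
      simp
    rw [← h2] at h
    exact (isIntegral_algebraMap_iff (algebraMap ℚ ℂ).injective).1 h
  obtain ⟨n, hn⟩ := (IsIntegrallyClosed.isIntegral_iff (R := ℤ) (K := ℚ)).1 h1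
  refine ⟨n, ?_⟩
  have h3 : ((a : ℚ) / b) = n := by rw [← hn]; simp
  have h4 := congrArg (fun q : ℚ => (q : ℂ)) h3
  push_cast at h4
  exact h4

section
variable {G : Type} [Group G] [Fintype G]

theorem codeg_ai {χ : G → ℂ} (hχ : χ ∈ Irr G) : IsIntegral ℤ ((Fintype.card G : ℂ) / χ 1) := by
  classical
  have := Fintype.ofFinite (ConjClasses G)
  rw [codeg_eq hχ]
  apply IsIntegral.sum
  intro K _
  exact (omega_integral _ hχ _).mul (irr_integral hχ _)

/-- `|G| / χ(1)` is a natural number -/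
theorem codeg_nat {χ : G → ℂ} (hχ : χ ∈ Irr G) :
    ∃ m : ℕ, (Fintype.card G : ℂ) / χ 1 = m := by
  obtain ⟨d, hd, h⟩ := irr_one hχ
  have h1 := codeg_ai hχ
  rw [h] at h1
  have h2 : ((Fintype.card G : ℤ) : ℂ) / ((d : ℤ) : ℂ) = (Fintype.card G : ℂ) / d := by
    push_cast; rfl
  rw [← h2] at h1
  obtain ⟨n, hn⟩ := rat_int h1
  have hd0 : ((d : ℤ) : ℂ) ≠ 0 := by exact_mod_cast hd.ne'
  have h3 : (Fintype.card G : ℤ) = n * d := by
    have h4 := (div_eq_iff hd0).1 hn
    exact_mod_cast h4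
  have hn0 : 0 ≤ n := by
    by_contra hneg
    push Not at hneg
    have h4 : (0 : ℤ) ≤ Fintype.card G := by positivity
    have h5 : (0 : ℤ) < d := by exact_mod_cast hd
    have h6 : n * (d : ℤ) < 0 := mul_neg_of_neg_of_pos hneg h5
    linarith
  refine ⟨n.toNat, ?_⟩
  rw [h, ← h2, hn]
  have h5 : ((n.toNat : ℤ)) = n := Int.toNat_of_nonneg hn0
  rw [← h5]
  push_cast
  rfl

theorem cent_eq {χ : G → ℂ} (hχ : χ ∈ Irr G) (g : G) : (Fintype.card G : ℂ) / χ 1 * χ g =
      (Nat.card (Subgroup.centralizer {g} : Subgroup G) : ℂ) * omega (MonoidHom.id G) χ g := by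
  classical
  have h1 : omega (MonoidHom.id G) χ g =
      ((Finset.univ.filter fun h => IsConj g h).card : ℂ) * χ g / χ 1 := by
    rw [omega_eq]
    congr 1
    simp only [MonoidHom.id_apply]
    rw [← Finset.sum_filter]
    have : ∀ h ∈ Finset.univ.filter (fun h => IsConj g h), χ h = χ g := by
      intro h hh
      exact (irr_isConj hχ (Finset.mem_filter.1 hh).2).symm
    rw [Finset.sum_congr rfl this, Finset.sum_const, nsmul_eq_mul]
  have h2 := card_class g
  rw [h1, ← h2]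
  push_cast
  ring

end

/-- the residue of a natural number -/
theorem red_nat (M : Ideal (integralClosure ℤ ℂ)) (m : ℕ) : red M (m : ℂ) = (m : FF M) := by
  rw [red_of (AI.natCast m)]
  have : (⟨(m : ℂ), AI.natCast m⟩ : integralClosure ℤ ℂ) = (m : integralClosure ℤ ℂ) := by
    apply Subtype.ext; push_cast; rfl
  rw [this, map_natCast]

theorem red_int (M : Ideal (integralClosure ℤ ℂ)) (m : ℤ) : red M (m : ℂ) = (m : FF M) := by
  have hi : IsIntegral ℤ (m : ℂ) := by
    have := isIntegral_algebraMap (R := ℤ) (A := ℂ) (x := m); simpa using this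
  rw [red_of hi]
  have : (⟨(m : ℂ), hi⟩ : integralClosure ℤ ℂ) = (m : integralClosure ℤ ℂ) := by
    apply Subtype.ext; push_cast; rfl
  rw [this, map_intCast]

/-- powers of residues of natural numbers -/
theorem pow_red (ℓ : ℕ) [hp : Fact ℓ.Prime] (M : Ideal (integralClosure ℤ ℂ)) [M.IsMaximal]
    (hℓ : (ℓ : integralClosure ℤ ℂ) ∈ M) {k : ℕ} (hk : 0 < k) (hdk : ℓ - 1 ∣ k) (m : ℕ) :
    (m : FF M) ^ k = if ℓ ∣ m then 0 else 1 := by
  have hz : (ℓ : FF M) = 0 := by
    have h1 : Ideal.Quotient.mk M (ℓ : integralClosure ℤ ℂ) = 0 := Ideal.Quotient.eq_zero_iff_mem.2 hℓ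
    rw [map_natCast] at h1
    exact h1
  split_ifs with h
  · obtain ⟨j, rfl⟩ := h
    rw [Nat.cast_mul, hz, zero_mul, zero_pow hk.ne']
  · obtain ⟨j, rfl⟩ := hdk
    have h1 : m ^ ((ℓ - 1) * j) ≡ 1 [MOD ℓ] := by
      rw [pow_mul]
      have hcop : Nat.Coprime m ℓ := ((Nat.Prime.coprime_iff_not_dvd hp.out).2 h).symm
      have h2 := Nat.ModEq.pow_totient hcop
      rw [Nat.totient_prime hp.out] at h2
      calc (m ^ (ℓ - 1)) ^ j ≡ 1 ^ j [MOD ℓ] := h2.pow j
        _ = 1 := one_pow j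
    have h2 : (ℓ : ℤ) ∣ ((m ^ ((ℓ - 1) * j) : ℕ) : ℤ) - ((1 : ℕ) : ℤ) :=
      (Nat.modEq_iff_dvd.1 h1.symm)
    obtain ⟨c, hc⟩ := h2
    have h3 := congrArg (fun z : ℤ => (z : FF M)) hc
    push_cast at h3
    rw [hz, zero_mul, sub_eq_zero] at h3
    exact h3

/-- in a group with `O_ℓ(G) = 1` the characters of defect zero are those of degree with the full
`ℓ`-part -/
theorem dz_iff {ℓ : ℕ} [hp : Fact ℓ.Prime] {M : Ideal (integralClosure ℤ ℂ)} [hM : M.IsMaximal]
    (hℓ : (ℓ : integralClosure ℤ ℂ) ∈ M) {G : Type} [Group G] [Fintype G]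
    (hO : opCore ℓ G = ⊥) {χ : G → ℂ} (hχ : χ ∈ Irr G) {m : ℕ}
    (hm : (Fintype.card G : ℂ) / χ 1 = m) : LargeDefect ℓ M χ ↔ ℓ ∣ m := by
  have hP : M.IsPrime := hM.isPrime
  constructor
  · rintro ⟨ψ, hψ, hb, n, hn, hdvd⟩
    rw [hO, Subgroup.card_bot, mul_one] at hdvd
    have h1 : Cong M ((Fintype.card G : ℂ) / ψ 1) 0 := by
      obtain ⟨k, hk⟩ := hdvd
      rw [Nat.card_eq_fintype_card] at hk
      have hn0 : (n : ℂ) ≠ 0 := by rw [← hn]; exact irr_one_ne hψ
      have h2 : (Fintype.card G : ℂ) / ψ 1 = ((ℓ * k : ℕ) : ℂ) := by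
        rw [hn, hk, div_eq_iff hn0]
        push_cast
        ring
      rw [h2]
      exact cong_nat_of_dvd hℓ (dvd_mul_right ℓ k)
    have h2 := defect_block hχ hψ hb h1
    rw [hm] at h2
    exact dvd_of_cong_nat hp.out hℓ h2
  · intro h
    obtain ⟨d, hd, hd'⟩ := irr_one hχ
    refine ⟨χ, hχ, fun g => Cong.refl _, d, hd', ?_⟩
    rw [hO, Subgroup.card_bot, mul_one, Nat.card_eq_fintype_card]
    have hd0 : (d : ℂ) ≠ 0 := by exact_mod_cast hd.ne'
    rw [hd', div_eq_iff hd0] at hm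
    have h3 : Fintype.card G = m * d := by exact_mod_cast hm
    rw [h3]
    exact Nat.mul_dvd_mul_right h d

theorem exists_normal {ℓ : ℕ} {G : Type} [Group G] (h : opCore ℓ G ≠ ⊥) :
    ∃ N : Subgroup G, N.Normal ∧ IsPGroup ℓ N ∧ N ≠ ⊥ := by
  by_contra hcon
  push Not at hcon
  apply h
  rw [opCore, sSup_eq_bot]
  intro N hN
  exact hcon N hN.1 hN.2

theorem grd (hG : GenusStmt) : GredStmt := by
  classical
  intro ℓ hp M hM hℓ g hg hdvd G _ _ c
  have := Fintype.ofFinite G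
  have hfin : (Irr G).Finite := irr_finite'
  have hP : M.IsPrime := hM.isPrime
  -- the codegrees
  have hex : ∀ χ : G → ℂ, ∃ m : ℕ, χ ∈ Irr G → (Fintype.card G : ℂ) / χ 1 = m := by
    intro χ
    by_cases hχ : χ ∈ Irr G
    · obtain ⟨m, hm⟩ := codeg_nat hχ
      exact ⟨m, fun _ => hm⟩
    · exact ⟨0, fun h => absurd h hχ⟩
  choose q hq using hex
  have hk : 0 < 2 * g - 2 := by omega
  set Z : ℂ := ∑ χ ∈ hfin.toFinset, (q χ : ℂ) ^ (2 * g - 2) * omega (MonoidHom.id G) χ c with hZ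
  have hZi : IsIntegral ℤ Z := by
    apply IsIntegral.sum
    intro χ hχ
    exact ((AI.natCast _).pow _).mul (omega_integral _ (hfin.mem_toFinset.1 hχ) _)
  have h1 : ((commg g c : ℕ) : ℂ) = (cz c : ℂ) * Z := by
    rw [hG G g hg.le c, finsum_mem_eq_finite_toFinset_sum _ hfin, hZ, Finset.mul_sum,
      Finset.mul_sum]
    apply Finset.sum_congr rfl
    intro χ hχ
    have hχ' := hfin.mem_toFinset.1 hχ
    have h0 := irr_one_ne hχ'
    have h2 := cent_eq hχ' c
    have h3 : 2 * g - 1 = (2 * g - 2) + 1 := by omega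
    calc (Nat.card G : ℂ) ^ (2 * g - 1) * (χ c / χ 1 ^ (2 * g - 1))
        = ((Fintype.card G : ℂ) / χ 1) ^ (2 * g - 2) * ((Fintype.card G : ℂ) / χ 1 * χ c) := by
          rw [h3, Nat.card_eq_fintype_card, pow_succ, pow_succ, div_pow]
          field_simp
      _ = _ := by
          rw [h2, hq χ hχ', cz]
          ring
  have hcz : (0 : ℕ) < cz c := Nat.card_pos
  have hczC : (cz c : ℂ) ≠ 0 := by exact_mod_cast hcz.ne'
  have h2 : Z = (((commg g c : ℕ) : ℤ) : ℂ) / (((cz c : ℕ) : ℤ) : ℂ) := by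
    push_cast
    rw [h1]
    field_simp
  obtain ⟨n, hn⟩ := rat_int (a := ((commg g c : ℕ) : ℤ)) (b := ((cz c : ℕ) : ℤ)) (by
    rw [← h2]; exact hZi)
  rw [← h2] at hn
  refine ⟨n, ?_, ?_⟩
  · have h3 : ((commg g c : ℕ) : ℂ) = (cz c : ℂ) * n := by rw [h1, hn]
    exact_mod_cast h3
  have h4 : (n : FF M) = ∑ χ ∈ hfin.toFinset,
      (if ℓ ∣ q χ then 0 else labF M χ c) := by
    rw [← red_int, ← hn, hZ, red_sum]
    · apply Finset.sum_congr rfl
      intro χ hχ
      have hχ' := hfin.mem_toFinset.1 hχ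
      rw [red_mul ((AI.natCast _).pow _) (omega_integral _ hχ' _), red_pow (AI.natCast _),
        red_nat, pow_red ℓ M hℓ hk hdvd]
      split_ifs
      · rw [zero_mul]
      · rw [one_mul, labF]
    · intro χ hχ
      exact ((AI.natCast _).pow _).mul (omega_integral _ (hfin.mem_toFinset.1 hχ) _)
  rw [h4]
  split_ifs with hO
  · have hfin' : (DZ ℓ M G).Finite := hfin.subset (fun χ hχ => hχ.1)
    rw [finsum_mem_eq_finite_toFinset_sum _ hfin']
    have h5 : hfin'.toFinset = hfin.toFinset.filter (fun χ => ¬ ℓ ∣ q χ) := by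
      ext χ
      rw [Finset.mem_filter, hfin.mem_toFinset, hfin'.mem_toFinset]
      constructor
      · rintro ⟨ha, hb⟩
        exact ⟨ha, fun h' => hb ((dz_iff hℓ hO ha (hq χ ha)).2 h')⟩
      · rintro ⟨ha, hb⟩
        exact ⟨ha, fun h' => hb ((dz_iff hℓ hO ha (hq χ ha)).1 h')⟩
    rw [h5, Finset.sum_filter]
    apply Finset.sum_congr rfl
    intro χ _
    by_cases h : ℓ ∣ q χ
    · rw [if_pos h, if_neg (not_not.2 h)]
    · rw [if_neg h, if_pos h]
  · obtain ⟨N, hN, hNp, hNe⟩ := exists_normal hO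
    apply Finset.sum_eq_zero
    intro χ hχ
    have hχ' := hfin.mem_toFinset.1 hχ
    have h5 := defect_normal hℓ hN hNp hNe hχ'
    rw [hq χ hχ'] at h5
    rw [if_pos (dvd_of_cong_nat hp.out hℓ h5)]

end Pool.Agent.Helper26_CC
end
end -- Pool.Agent.Helper26_CC.Grd

section -- Pool.Agent.Helper51_CC.Boxp

/-!
CC, module BOXP: the sum over all families with given labels is a product.
-/

open scoped BigOperators

noncomputable section

namespace Pool.Agent.Helper51_CC

open Pool.Agent.Helper51_AWC Pool.Agent.Helper79_WRA Pool.Agent.Helper98_CC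

open Classical in
/-- the product formula for alternating sums over the chains of a power of a poset -/
def PiCh (ι : Type) : Prop :=
  ∀ [Fintype ι] (A : Type) [PartialOrder A] (s : Finset A) (b : A), (∀ x ∈ s, b ≤ x) → b ∈ s →
    ∀ S : Finset (ι → A), (∀ R, R ∈ S ↔ ∀ j, R j ∈ s) → ∀ F : ι → Finset A → ℤ,
    ∑ v ∈ chainsOn S (fun _ => b), (-1) ^ (v.card + 1) * ∏ j, F j (v.image fun R => R j) =
      ∏ j, ∑ c ∈ chainsOn s b, (-1) ^ (c.card + 1) * F j c

/-- reindexing -/
def reE {α β A : Type} [PartialOrder A] (e : α ≃ β) : (α → A) ↪o (β → A) where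
  toFun R j := R (e.symm j)
  inj' R R' h := by
    funext i
    have := congrFun h (e i)
    simpa using this
  map_rel_iff' {R R'} := by
    constructor
    · intro h i
      have h' : R (e.symm (e i)) ≤ R' (e.symm (e i)) := h (e i)
      rwa [e.symm_apply_apply] at h'
    · intro h j
      exact h (e.symm j)

/-- adding one coordinate -/
def opE {α A : Type} [PartialOrder A] : A × (α → A) ↪o (Option α → A) where
  toFun p o := o.elim p.1 p.2
  inj' p p' h := by
    refine Prod.ext ?_ ?_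
    · exact congrFun h none
    · funext i
      exact congrFun h (some i)
  map_rel_iff' {p p'} := by
    constructor
    · intro h
      exact ⟨h none, fun i => h (some i)⟩
    · rintro ⟨h1, h2⟩ o
      cases o with
      | none => exact h1
      | some i => exact h2 i

theorem pich_equiv {α β : Type} (e : α ≃ β) (h : PiCh α) : PiCh β := by
  classical
  intro _ A _ s b hb hbs S hS F
  let _ : Fintype α := Fintype.ofEquiv β e.symm
  let S' : Finset (α → A) := S.image fun R i => R (e i)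
  have hS' : ∀ R, R ∈ S' ↔ ∀ i, R i ∈ s := by
    intro R
    rw [Finset.mem_image]
    constructor
    · rintro ⟨Q, hQ, rfl⟩ i
      exact (hS Q).1 hQ (e i)
    · intro hR
      refine ⟨fun j => R (e.symm j), (hS _).2 fun j => hR _, ?_⟩
      funext i
      simp
  have hmap : S'.map (reE (A := A) e).toEmbedding = S := by
    ext R
    rw [Finset.mem_map]
    constructor
    · rintro ⟨Q, hQ, rfl⟩
      exact (hS _).2 fun j => (hS' Q).1 hQ _
    · intro hR
      refine ⟨fun i => R (e i), (hS' _).2 fun i => (hS R).1 hR _, ?_⟩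
      funext j
      show R (e (e.symm j)) = R j
      rw [e.apply_symm_apply]
  have hbot : (reE (A := A) e) (fun _ => b) = fun _ => b := rfl
  rw [← hmap, ← hbot, sum_chainsOn_map]
  have h1 := h A s b hb hbs S' hS' fun i => F (e i)
  have h2 : ∀ d ∈ chainsOn S' (fun _ => b),
      (-1) ^ ((d.map (reE (A := A) e).toEmbedding).card + 1) *
        ∏ j, F j ((d.map (reE (A := A) e).toEmbedding).image fun R => R j) =
      (-1) ^ (d.card + 1) * ∏ i, F (e i) (d.image fun R => R i) := by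
    intro d _
    rw [Finset.card_map]
    congr 1
    rw [← Equiv.prod_comp e]
    refine Finset.prod_congr rfl fun i _ => ?_
    congr 1
    ext x
    simp only [Finset.mem_image, Finset.mem_map]
    constructor
    · rintro ⟨R, ⟨Q, hQ, rfl⟩, rfl⟩
      refine ⟨Q, hQ, ?_⟩
      show Q i = Q (e.symm (e i))
      rw [e.symm_apply_apply]
    · rintro ⟨Q, hQ, rfl⟩
      refine ⟨_, ⟨Q, hQ, rfl⟩, ?_⟩
      show Q (e.symm (e i)) = Q i
      rw [e.symm_apply_apply]
  rw [Finset.sum_congr rfl h2, h1]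
  exact Equiv.prod_comp e fun j => ∑ c ∈ chainsOn s b, (-1) ^ (c.card + 1) * F j c

theorem pich_empty : PiCh PEmpty := by
  classical
  intro _ A _ s b hb hbs S hS F
  have h1 : chainsOn S (fun _ => b) = {{fun _ => b}} := by
    ext d
    rw [mem_chainsOn, Finset.mem_singleton]
    constructor
    · rintro ⟨_, hd, _⟩
      ext R
      rw [Finset.mem_singleton]
      have : R = fun _ => b := Subsingleton.elim _ _
      rw [this]
      simp [hd]
    · rintro rfl
      refine ⟨?_, Finset.mem_singleton_self _, ?_⟩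
      · intro R _
        exact (hS R).2 fun j => j.elim
      · rw [Finset.coe_singleton]
        exact Set.Subsingleton.isChain (Set.subsingleton_singleton)
  rw [h1, Finset.sum_singleton, Finset.card_singleton, Fintype.prod_empty, Fintype.prod_empty]
  norm_num

theorem op_summand {α A : Type} [Fintype α] [PartialOrder A] [DecidableEq A]
    [DecidableEq (α → A)] [DecidableEq (Option α → A)] (F : Option α → Finset A → ℤ)
    (d : Finset (A × (α → A))) :
    (-1 : ℤ) ^ ((d.map (opE (α := α) (A := A)).toEmbedding).card + 1) *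
        ∏ j, F j ((d.map (opE (α := α) (A := A)).toEmbedding).image fun R => R j) =
      (-1) ^ (d.card + 1) * (F none (d.image Prod.fst) *
        ∏ i, F (some i) ((d.image Prod.snd).image fun R => R i)) := by
  rw [Finset.card_map]
  congr 1
  rw [Fintype.prod_option]
  have e1 : ((d.map (opE (α := α) (A := A)).toEmbedding).image fun R => R none) =
      d.image Prod.fst := by
    ext x
    simp only [Finset.mem_image, Finset.mem_map]
    constructor
    · rintro ⟨R, ⟨Q, hQ, rfl⟩, rfl⟩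
      exact ⟨Q, hQ, rfl⟩
    · rintro ⟨Q, hQ, rfl⟩
      exact ⟨_, ⟨Q, hQ, rfl⟩, rfl⟩
  have e2 : ∀ i : α, ((d.map (opE (α := α) (A := A)).toEmbedding).image fun R => R (some i)) =
      (d.image Prod.snd).image fun R => R i := by
    intro i
    ext x
    simp only [Finset.mem_image, Finset.mem_map]
    constructor
    · rintro ⟨R, ⟨Q, hQ, rfl⟩, rfl⟩
      exact ⟨_, ⟨Q, hQ, rfl⟩, rfl⟩
    · rintro ⟨R, ⟨Q, hQ, rfl⟩, rfl⟩
      exact ⟨_, ⟨Q, hQ, rfl⟩, rfl⟩
  rw [e1]
  congr 1
  exact Finset.prod_congr rfl fun i _ => by rw [e2 i]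

theorem op_map {α A : Type} [Fintype α] [PartialOrder A] (s : Finset A) (S : Finset (Option α → A))
    (hS : ∀ R, R ∈ S ↔ ∀ j, R j ∈ s) (S' : Finset (α → A)) (hS' : ∀ R, R ∈ S' ↔ ∀ i, R i ∈ s) :
    (s ×ˢ S').map (opE (α := α) (A := A)).toEmbedding = S := by
  ext R
  rw [Finset.mem_map]
  constructor
  · rintro ⟨⟨a, Q⟩, hQ, rfl⟩
    rw [Finset.mem_product] at hQ
    rw [hS]
    intro o
    cases o with
    | none => exact hQ.1
    | some i => exact (hS' Q).1 hQ.2 i
  · intro hR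
    rw [hS] at hR
    refine ⟨(R none, fun i => R (some i)), ?_, ?_⟩
    · rw [Finset.mem_product]
      exact ⟨hR none, (hS' _).2 fun i => hR (some i)⟩
    · funext o
      cases o with
      | none => rfl
      | some i => rfl

theorem op_sum {A B : Type} [PartialOrder A] [PartialOrder B] (s : Finset A) (a : A)
    (t : Finset B) (b : B) (has : ∀ x ∈ s, a ≤ x) (hbt : ∀ y ∈ t, b ≤ y) (f : Finset A → ℤ)
    (g : Finset B → ℤ) (i1 : DecidableEq A) (i2 : DecidableEq B) :
    ∑ d ∈ chainsOn (s ×ˢ t) (a, b), (-1 : ℤ) ^ (d.card + 1) *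
        (f (d.image Prod.fst) * g (d.image Prod.snd)) =
      (∑ c ∈ chainsOn s a, (-1) ^ (c.card + 1) * f c) *
        ∑ c' ∈ chainsOn t b, (-1) ^ (c'.card + 1) * g c' := by
  have h1 : i1 = fun x y => Classical.propDecidable (x = y) := Subsingleton.elim _ _
  have h2 : i2 = fun x y => Classical.propDecidable (x = y) := Subsingleton.elim _ _
  subst h1 h2
  rw [Finset.sum_mul_sum]
  refine (sum_prod_chains s a t b has hbt fun c c' => f c * g c').trans ?_
  refine Finset.sum_congr rfl fun c _ => Finset.sum_congr rfl fun c' _ => ?_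
  ring

theorem pich_option {α : Type} [Fintype α] (h : PiCh α) : PiCh (Option α) := by
  classical
  intro inst A _ s b hb hbs S hS F
  have hinst : inst = instFintypeOption := Subsingleton.elim _ _
  subst hinst
  have hS' : ∀ R, R ∈ (Fintype.piFinset fun _ => s : Finset (α → A)) ↔ ∀ i, R i ∈ s :=
    fun R => Fintype.mem_piFinset
  generalize (Fintype.piFinset fun _ => s : Finset (α → A)) = S' at hS'
  have hbot : (opE (α := α) (A := A)) (b, fun _ => b) = fun _ => b := by
    funext o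
    cases o with
    | none => rfl
    | some i => rfl
  rw [← op_map s S hS S' hS', ← hbot, sum_chainsOn_map,
    Finset.sum_congr rfl fun d _ => op_summand F d]
  have e1 := h A s b hb hbs S' hS' fun i => F (some i)
  have e2 : ∀ R ∈ S', (fun _ => b) ≤ R := fun R hR j => hb _ ((hS' R).1 hR j)
  have e4 : ∏ o, (∑ c ∈ chainsOn s b, (-1 : ℤ) ^ (c.card + 1) * F o c) =
      (∑ c ∈ chainsOn s b, (-1 : ℤ) ^ (c.card + 1) * F none c) *
        ∏ i, (∑ c ∈ chainsOn s b, (-1 : ℤ) ^ (c.card + 1) * F (some i) c) :=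
    Fintype.prod_option _
  rw [e4, ← e1]
  have e3 := op_sum s b S' (fun _ => b) hb e2 (F none)
    (fun c' => ∏ i, F (some i) (c'.image fun R => R i))
    (fun x y => Classical.propDecidable (x = y)) (fun x y => Fintype.decidablePiFintype x y)
  exact e3

theorem pich (ι : Type) [Finite ι] : PiCh ι :=
  Finite.induction_empty_option (P := PiCh) (fun e h => pich_equiv e h) pich_empty
    (fun h => pich_option h) ι

open Classical in
/-- the number of families of characters with given labels -/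
theorem card_fam {G Δ : Type} [Group G] [Finite G] [Fintype Δ] (M : Ideal (integralClosure ℤ ℂ))
    (v : Finset (Δ → Subgroup G)) (β : Δ → G → FF M) :
    ((charsOf v).filter fun w => ∀ j, labF M (w j) = β j).card =
      ∏ j, {a | a ∈ IrrS (colStab v j) ∧ labF M a = β j}.ncard := by
  have h1 : ((charsOf v).filter fun w => ∀ j, labF M (w j) = β j) =
      Fintype.piFinset fun j => (IrrS_finite (colStab v j)).toFinset.filter
        fun a => labF M a = β j := by
    ext w
    rw [Finset.mem_filter, mem_charsOf, Fintype.mem_piFinset]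
    constructor
    · rintro ⟨h1, h2⟩ j
      rw [Finset.mem_filter, Set.Finite.mem_toFinset]
      exact ⟨h1 j, h2 j⟩
    · intro h
      constructor
      · intro j
        have := h j
        rw [Finset.mem_filter, Set.Finite.mem_toFinset] at this
        exact this.1
      · intro j
        exact (Finset.mem_filter.1 (h j)).2
  rw [h1, Fintype.card_piFinset]
  refine Finset.prod_congr rfl fun j _ => ?_
  rw [← Set.ncard_coe_finset]
  congr 1
  ext a
  simp

theorem boxp : BoxpStmt := by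
  classical
  intro ℓ _ M G Δ _ _ _ β hO
  have hb : ∀ x ∈ psub ℓ G, (⊥ : Subgroup G) ≤ x := fun x _ => bot_le
  have hbs : (⊥ : Subgroup G) ∈ psub ℓ G := by
    rw [mem_psub, hO]
    exact ⟨le_rfl, IsPGroup.of_bot⟩
  have hS : ∀ R, R ∈ boxes ℓ G Δ ↔ ∀ j, R j ∈ psub ℓ G := fun R => mem_boxes
  have key := pich Δ (Subgroup G) (psub ℓ G) ⊥ hb hbs (boxes ℓ G Δ) hS
    (fun j c => (Nat.card (stab c) : ℤ) *
      (({a | a ∈ IrrS (stab c) ∧ labF M a = β j}.ncard : ℕ) : ℤ))
  have h1 : ∀ v ∈ chainsOn (boxes ℓ G Δ) (fun _ => ⊥), (-1) ^ (v.card + 1) *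
      ∑ α ∈ (charsOf v).filter (fun w => ∀ j, labF M (w j) = β j),
        ∏ j, (Nat.card (colStab v j) : ℤ) =
      (-1) ^ (v.card + 1) * ∏ j, ((Nat.card (stab (v.image fun R => R j)) : ℤ) *
      (({a | a ∈ IrrS (stab (v.image fun R => R j)) ∧ labF M a = β j}.ncard : ℕ) : ℤ)) := by
    intro v _
    congr 1
    rw [Finset.sum_const, card_fam, nsmul_eq_mul, Finset.prod_mul_distrib, mul_comm]
    push_cast
    congr 1
    · exact Finset.prod_congr rfl fun j _ => by rw [colStab_eq]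
    · exact Finset.prod_congr rfl fun j _ => by rw [colStab_eq]
  rw [Finset.sum_congr rfl h1]
  exact key

end Pool.Agent.Helper51_CC
end
end -- Pool.Agent.Helper51_CC.Boxp

section -- Pool.Agent.Helper51_AWC.WrSum

/-!
The alternating sum of the wreath product `G wr C_m`.
-/

open scoped BigOperators

noncomputable section

namespace Pool.Agent.Helper51_AWC

variable {m : ℕ} [hm : Fact m.Prime] {G : Type} [Group G] [Fintype G] {ℓ : ℕ} [hp : Fact ℓ.Prime]

omit [Fintype G] in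
theorem Wr.pow_s (x : Wr m G) (n : ℕ) : (x ^ n).s = n * x.s := by
  induction n with
  | zero => simp [Wr.one_s]
  | succ n ih =>
    rw [pow_succ, Wr.mul_s, ih]
    push_cast; ring

omit [Fintype G] in
theorem iS_bot : iS m G ⊥ = ⊥ := Subgroup.map_bot _

omit [Fintype G] in
theorem pgroup_le_base (hne : m ≠ ℓ) {D : Subgroup (Wr m G)} (hD : IsPGroup ℓ D) :
    ∃ E : Subgroup (ZMod m → G), IsPGroup ℓ E ∧ iS m G E = D := by
  refine ⟨D.comap (Wr.base m G), hD.comap_of_injective _ Wr.base_injective, ?_⟩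
  have hs : ∀ x ∈ D, x.s = 0 := by
    intro x hx
    obtain ⟨k, hk⟩ := hD ⟨x, hx⟩
    have h1 : x ^ ℓ ^ k = 1 := congrArg Subtype.val hk
    have h2 := congrArg Wr.s h1
    rw [Wr.pow_s, Wr.one_s] at h2
    rcases mul_eq_zero.1 h2 with h3 | h3
    · exfalso
      rw [ZMod.natCast_eq_zero_iff] at h3
      exact hne ((Nat.prime_dvd_prime_iff_eq hm.out hp.out).1 (hm.out.dvd_of_dvd_pow h3))
    · exact h3
  ext x
  rw [mem_iS, Subgroup.mem_comap]
  constructor
  · rintro ⟨h1, h2⟩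
    have : x = Wr.base m G x.f := by
      apply Wr.ext
      · rfl
      · exact h1
    rw [this]; exact h2
  · intro hx
    refine ⟨hs x hx, ?_⟩
    have : Wr.base m G x.f = x := by
      apply Wr.ext
      · rfl
      · exact (hs x hx).symm
    rw [this]; exact hx

theorem opCore_base (h : opCore ℓ G = ⊥) : opCore ℓ (ZMod m → G) = ⊥ := by
  obtain ⟨a1, a2, a3⟩ := opCore_spec ℓ G
  obtain ⟨b1, b2, b3⟩ := opCore_spec ℓ (ZMod m → G)
  rw [eq_bot_iff]
  intro f hf
  rw [Subgroup.mem_bot]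
  funext i
  have h1 : pr i (opCore ℓ (ZMod m → G)) ≤ opCore ℓ G := by
    apply a3
    · exact b1.map _ (Function.surjective_eval i)
    · exact b2.map _
  rw [h] at h1
  have := h1 ⟨f, hf, rfl⟩
  exact Subgroup.mem_bot.1 this

theorem opCore_wr (hne : m ≠ ℓ) (h : opCore ℓ G = ⊥) : opCore ℓ (Wr m G) = ⊥ := by
  obtain ⟨b1, b2, b3⟩ := opCore_spec ℓ (ZMod m → G)
  obtain ⟨c1, c2, c3⟩ := opCore_spec ℓ (Wr m G)
  obtain ⟨E, hE, hE'⟩ := pgroup_le_base hne c2
  have hn : E.Normal := by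
    constructor
    intro f hf g
    have h1 : Wr.base m G f ∈ opCore ℓ (Wr m G) := by
      rw [← hE', mem_iS]; exact ⟨rfl, hf⟩
    have h2 := c1.conj_mem _ h1 (Wr.base m G g)
    rw [← map_mul, ← map_inv, ← map_mul, ← hE', mem_iS] at h2
    exact h2.2
  have h3 := b3 E hn hE
  rw [opCore_base h, le_bot_iff] at h3
  rw [← hE', h3, iS_bot]

theorem psub_wr (hne : m ≠ ℓ) (h : opCore ℓ G = ⊥) :
    psub ℓ (Wr m G) = (psub ℓ (ZMod m → G)).map (iS m G).toEmbedding := by
  ext D
  rw [mem_psub, Finset.mem_map, opCore_wr hne h]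
  constructor
  · rintro ⟨_, h2⟩
    obtain ⟨E, hE, hE'⟩ := pgroup_le_base hne h2
    exact ⟨E, mem_psub.2 ⟨by rw [opCore_base h]; exact bot_le, hE⟩, hE'⟩
  · rintro ⟨E, hE, rfl⟩
    exact ⟨bot_le, (mem_psub.1 hE).2.map _⟩

/-- the stabiliser in the wreath product of a chain of subgroups of the base group -/
def TT (d : Finset (Subgroup (ZMod m → G))) : Subgroup (Wr m G) :=
  stab (d.map (iS m G).toEmbedding)

omit [Fintype G] in
theorem mem_TT {d : Finset (Subgroup (ZMod m → G))} {t : Wr m G} :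
    t ∈ TT d ↔ ∀ D ∈ d, conjS t (iS m G D) = iS m G D := by
  unfold TT
  rw [mem_stab]
  constructor
  · intro h D hD
    exact h _ (Finset.mem_map_of_mem _ hD)
  · intro h D hD
    obtain ⟨E, hE, rfl⟩ := Finset.mem_map.1 hD
    exact h E hE

omit [Fintype G] in
theorem mem_TT_closed {d : Finset (Subgroup (ZMod m → G))} (hd : ∀ D ∈ d, closN D = D)
    {t : Wr m G} : t ∈ TT d ↔ ∀ D ∈ d, ∀ i, conjS (t.f i) (pr (i - t.s) D) = pr i D := by
  rw [mem_TT]
  constructor
  · intro h D hD i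
    exact pr_of_stable (h D hD) i
  · intro h D hD
    rw [← hd D hD]
    unfold closN
    rw [conjS_iS_box]
    exact h D hD

omit [Fintype G] in
theorem mem_stab_closed {d : Finset (Subgroup (ZMod m → G))} (hd : ∀ D ∈ d, closN D = D)
    {f : ZMod m → G} : f ∈ stab d ↔ ∀ D ∈ d, ∀ i, conjS (f i) (pr i D) = pr i D := by
  rw [mem_stab]
  constructor
  · intro h D hD i
    have h1 := h D hD
    rw [← hd D hD] at h1
    unfold closN at h1
    rw [conjS_box] at h1
    have h2 := congrFun (box_injective h1) i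
    have h3 : pr i D = pr i D := rfl
    exact h2
  · intro h D hD
    rw [← hd D hD]
    unfold closN
    rw [conjS_box]
    congr 1
    funext i
    exact h D hD i

variable {M : Ideal (integralClosure ℤ ℂ)} [hM : M.IsPrime]

open Classical in
/-- chains whose stabiliser lies in the base group -/
theorem weight_inner (hℓ : (ℓ : integralClosure ℤ ℂ) ∈ M) (hne : m ≠ ℓ)
    {χ : G → ℂ} (hχ : χ ∈ Irr G) (hX : Cong M ((Nat.card G : ℂ) / χ 1) 0)
    {d : Finset (Subgroup (ZMod m → G))} (hd : ∀ D ∈ d, closN D = D)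
    (hs : ∀ t ∈ TT d, t.s = 0) :
    weight M (extChar χ 1 : Wr m G → ℂ) (d.map (iS m G).toEmbedding) =
      weight M (piChar fun _ : ZMod m => χ) d := by
  let K : ZMod m → Subgroup G := fun i => stab (d.image (pr i))
  let p : ∀ i : ZMod m, K i →* G := fun i => (K i).subtype
  have hK : ∀ i x, x ∈ K i ↔ ∀ D ∈ d, conjS x (pr i D) = pr i D := by
    intro i x
    rw [mem_stab]
    constructor
    · intro h D hD
      exact h _ (Finset.mem_image_of_mem _ hD)
    · intro h E hE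
      obtain ⟨D, hD, rfl⟩ := Finset.mem_image.1 hE
      exact h D hD
  have hpi : Function.Injective (pimap p) := by
    intro x y h
    funext i
    exact Subtype.ext (congrFun h i)
  have hr1 : (pimap p).range = stab d := by
    ext f
    rw [mem_stab_closed hd]
    constructor
    · rintro ⟨x, rfl⟩ D hD i
      exact (hK i _).1 (x i).2 D hD
    · intro h
      exact ⟨fun i => ⟨f i, (hK i _).2 fun D hD => h D hD i⟩, rfl⟩
  have hr2 : ((Wr.base m G).comp (pimap p)).range = TT d := by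
    ext t
    constructor
    · rintro ⟨x, rfl⟩
      rw [mem_TT_closed hd]
      intro D hD i
      show conjS (x i : G) (pr (i - 0) D) = pr i D
      rw [sub_zero]
      exact (hK i _).1 (x i).2 D hD
    · intro ht
      have h0 := hs t ht
      rw [mem_TT_closed hd] at ht
      refine ⟨fun i => ⟨t.f i, (hK i _).2 fun D hD => ?_⟩, ?_⟩
      · have := ht D hD i
        rwa [h0, sub_zero] at this
      · apply Wr.ext
        · rfl
        · exact h0.symm
  obtain ⟨a1, a2⟩ := weight_range M (piChar fun _ : ZMod m => χ) (pimap p) hpi _ hr1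
  obtain ⟨b1, b2⟩ := weight_range M (extChar χ 1 : Wr m G → ℂ) ((Wr.base m G).comp (pimap p))
    (Wr.base_injective.comp hpi) _ hr2
  unfold weight
  rw [a1, a2]
  have e : stab (d.map (iS m G).toEmbedding) = TT d := rfl
  rw [e, b1, b2, base_block_eq hℓ hne (fun i => (K i).subtype_injective) hχ hX]

/-- the diagonal embedding of subgroups -/
def diag (m : ℕ) (G : Type) [Group G] : Subgroup G ↪ Subgroup (ZMod m → G) where
  toFun P := box fun _ => P
  inj' := by
    intro P Q h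
    exact congrFun (box_injective h) 0

omit [Fintype G] in
theorem diag_apply (P : Subgroup G) : diag m G P = box fun _ => P := rfl

omit hp hM in
theorem ncard_piChar {K : Type} [Group K] [Fintype K] {i : K →* G}
    (hi : Function.Injective i) {χ : G → ℂ} (hχ : χ ∈ Irr G) :
    (IrrBlock M (pimap fun _ : ZMod m => i) (piChar fun _ => χ)).ncard =
      (IrrBlock M i χ).ncard ^ m := by
  classical
  have hf : (IrrBlock M i χ).Finite := irr_finite'.subset fun α hα => hα.1
  have h1 : IrrBlock M (pimap fun _ : ZMod m => i) (piChar fun _ => χ) =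
      piChar '' ((Fintype.piFinset fun _ : ZMod m => hf.toFinset : Finset _) :
        Set (ZMod m → K → ℂ)) := by
    ext θ
    constructor
    · intro h
      obtain ⟨α, hα, rfl⟩ := exists_piChar h.1
      rw [mem_IrrBlock_pi (fun _ => hi) hα (fun _ => hχ)] at h
      exact ⟨α, Finset.mem_coe.2 (Fintype.mem_piFinset.2 fun j => hf.mem_toFinset.2 (h j)), rfl⟩
    · rintro ⟨α, hα, rfl⟩
      have hα' : ∀ j, α j ∈ IrrBlock M i χ := fun j =>
        hf.mem_toFinset.1 (Fintype.mem_piFinset.1 (Finset.mem_coe.1 hα) j)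
      rw [mem_IrrBlock_pi (fun _ => hi) (fun j => (hα' j).1) (fun _ => hχ)]
      exact hα'
  rw [h1, Set.InjOn.ncard_image, Set.ncard_coe_finset, Fintype.card_piFinset,
    Finset.prod_const, Finset.card_univ, ZMod.card, Set.ncard_eq_toFinset_card _ hf]
  intro α hα β hβ h
  have hα' : ∀ j, α j ∈ Irr K := fun j =>
    (hf.mem_toFinset.1 (Fintype.mem_piFinset.1 (Finset.mem_coe.1 hα) j)).1
  have hβ' : ∀ j, β j ∈ Irr K := fun j =>
    (hf.mem_toFinset.1 (Fintype.mem_piFinset.1 (Finset.mem_coe.1 hβ) j)).1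
  exact piChar_inj hα' hβ' h

/-- diagonal chains -/
theorem weight_diag (hℓ : (ℓ : integralClosure ℤ ℂ) ∈ M) (hne : m ≠ ℓ)
    {χ : G → ℂ} (hχ : χ ∈ Irr G) (hX : Cong M ((Nat.card G : ℂ) / χ 1) 0)
    {c : Finset (Subgroup G)} (hc1 : ∀ D ∈ c, IsPGroup ℓ D)
    (hc2 : IsChain (· ≤ ·) (c : Set (Subgroup G))) :
    weight M (extChar χ 1 : Wr m G → ℂ) ((c.map (diag m G)).map (iS m G).toEmbedding) +
      Nat.card (stab c) ^ m * (IrrBlock M (stab c).subtype χ).ncard =
      weight M (piChar fun _ : ZMod m => χ) (c.map (diag m G)) +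
      m ^ 2 * (Nat.card (stab c) ^ m * (IrrBlock M (stab c).subtype χ).ncard) := by
  classical
  have := Fintype.ofFinite (stab c)
  have hd : ∀ D ∈ c.map (diag m G), closN D = D := by
    intro D hD
    obtain ⟨P, hP, rfl⟩ := Finset.mem_map.1 hD
    exact closN_box _
  have hpr : ∀ (P : Subgroup G) (i : ZMod m), pr i (diag m G P) = P := fun P i => pr_box _ i
  have hr1 : (pimap fun _ : ZMod m => (stab c).subtype).range = stab (c.map (diag m G)) := by
    ext f
    rw [mem_stab_closed hd]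
    constructor
    · rintro ⟨x, rfl⟩ D hD i
      obtain ⟨P, hP, rfl⟩ := Finset.mem_map.1 hD
      rw [hpr]
      exact mem_stab.1 (x i).2 P hP
    · intro h
      refine ⟨fun i => ⟨f i, mem_stab.2 fun P hP => ?_⟩, rfl⟩
      have := h _ (Finset.mem_map_of_mem _ hP) i
      rwa [hpr] at this
  have hr2 : (Wr.map (m := m) (stab c).subtype).range = TT (c.map (diag m G)) := by
    ext t
    rw [mem_TT_closed hd]
    constructor
    · rintro ⟨x, rfl⟩ D hD i
      obtain ⟨P, hP, rfl⟩ := Finset.mem_map.1 hD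
      rw [hpr, hpr]
      exact mem_stab.1 (x.f i).2 P hP
    · intro h
      refine ⟨⟨fun i => ⟨t.f i, mem_stab.2 fun P hP => ?_⟩, t.s⟩, rfl⟩
      have := h _ (Finset.mem_map_of_mem _ hP) i
      rwa [hpr, hpr] at this
  have hpi : Function.Injective (pimap fun _ : ZMod m => (stab c).subtype) := by
    intro x y h
    funext i
    exact Subtype.ext (congrFun h i)
  obtain ⟨a1, a2⟩ := weight_range M (piChar fun _ : ZMod m => χ)
    (pimap fun _ : ZMod m => (stab c).subtype) hpi _ hr1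
  obtain ⟨b1, b2⟩ := weight_range M (extChar χ 1 : Wr m G → ℂ)
    (Wr.map (m := m) (stab c).subtype) (Wr.map_injective (stab c).subtype_injective) _ hr2
  have e : stab ((c.map (diag m G)).map (iS m G).toEmbedding) = TT (c.map (diag m G)) := rfl
  unfold weight
  rw [e, a1, a2, b1, b2, ncard_piChar (stab c).subtype_injective hχ, Wr.card_eq, Nat.card_fun,
    Nat.card_zmod]
  have hcount := wr_block_count (m := m) hℓ hne (stab c).subtype_injective hχ hX
    (fun α hα => defect_chain hℓ hχ hX hc1 hc2 hα)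
  set k := (IrrBlock M (stab c).subtype χ).ncard
  set h := Nat.card (stab c)
  calc h ^ m * m * (IrrBlock M (Wr.map (m := m) (stab c).subtype) (extChar χ 1)).ncard +
        h ^ m * k = h ^ m * (m * (IrrBlock M (Wr.map (m := m) (stab c).subtype)
          (extChar χ 1)).ncard + k) := by ring
    _ = _ := by rw [hcount]; ring

end Pool.Agent.Helper51_AWC
end
end -- Pool.Agent.Helper51_AWC.WrSum

section -- Pool.Agent.Helper51_AWC.WrFinal

/-!
The formula `m S(G wr C_m, X) = S(G, χ)^m + (m² - 1) S(G, χ)`.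
-/

open scoped BigOperators

noncomputable section

namespace Pool.Agent.Helper51_AWC

variable {m : ℕ} [hm : Fact m.Prime] {G : Type} [Group G] [Fintype G] {ℓ : ℕ} [hp : Fact ℓ.Prime]

/-- conjugates of diagonal chains -/
def Phi (p : Finset (Subgroup G) × ({i : ZMod m // i ≠ 0} → G)) :
    Finset (Subgroup (ZMod m → G)) :=
  (p.1.map (diag m G)).map (conjEmb (ext0 p.2))

omit [Fintype G] in
theorem conj_diag (w : ZMod m → G) (P : Subgroup G) :
    conjEmb w (diag m G P) = box fun i => conjS (w i) P := by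
  rw [conjEmb_apply, diag_apply, conjS_box]

omit [Fintype G] in
theorem mem_Phi {p : Finset (Subgroup G) × ({i : ZMod m // i ≠ 0} → G)}
    {D : Subgroup (ZMod m → G)} :
    D ∈ Phi p ↔ ∃ P ∈ p.1, (box fun i => conjS (ext0 p.2 i) P) = D := by
  unfold Phi
  rw [Finset.mem_map]
  constructor
  · rintro ⟨E, hE, rfl⟩
    obtain ⟨P, hP, rfl⟩ := Finset.mem_map.1 hE
    exact ⟨P, hP, (conj_diag _ _).symm⟩
  · rintro ⟨P, hP, rfl⟩
    exact ⟨_, Finset.mem_map_of_mem _ hP, conj_diag _ _⟩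

omit [Fintype G] in
theorem pr_zero_Phi (u : {i : ZMod m // i ≠ 0} → G) (P : Subgroup G) :
    pr 0 (box fun i => conjS (ext0 u i) P) = P := by
  rw [pr_box, ext0_zero, conjS_one]

omit [Fintype G] in
theorem image_Phi [DecidableEq (Subgroup G)]
    (p : Finset (Subgroup G) × ({i : ZMod m // i ≠ 0} → G)) :
    (Phi p).image (pr 0) = p.1 := by
  ext P
  rw [Finset.mem_image]
  constructor
  · rintro ⟨D, hD, rfl⟩
    obtain ⟨Q, hQ, rfl⟩ := mem_Phi.1 hD
    rw [pr_zero_Phi]; exact hQ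
  · intro hP
    exact ⟨_, mem_Phi.2 ⟨P, hP, rfl⟩, pr_zero_Phi _ _⟩

omit [Fintype G] in
theorem card_Phi (p : Finset (Subgroup G) × ({i : ZMod m // i ≠ 0} → G)) :
    (Phi p).card = p.1.card := by
  unfold Phi
  rw [Finset.card_map, Finset.card_map]

/-- the product chains -/
def PC (ℓ m : ℕ) [NeZero m] (G : Type) [Group G] [Finite G] :
    Finset (Finset (Subgroup (ZMod m → G))) :=
  @Finset.filter _ (fun d => ∀ D ∈ d, closN D = D) (Classical.decPred _)
    (chainsOn (psub ℓ (ZMod m → G)) ⊥)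

theorem mem_PC (h : opCore ℓ G = ⊥) {d : Finset (Subgroup (ZMod m → G))} :
    d ∈ PC ℓ m G ↔ ((∀ D ∈ d, IsPGroup ℓ D) ∧ ⊥ ∈ d ∧
      IsChain (· ≤ ·) (d : Set (Subgroup (ZMod m → G)))) ∧ ∀ D ∈ d, closN D = D := by
  classical
  unfold PC
  refine (@Finset.mem_filter _ _ (Classical.decPred _) _ _).trans ?_
  rw [mem_chainsOn]
  constructor
  · rintro ⟨⟨h1, h2, h3⟩, h4⟩
    exact ⟨⟨fun D hD => (mem_psub.1 (h1 hD)).2, h2, h3⟩, h4⟩
  · rintro ⟨⟨h1, h2, h3⟩, h4⟩
    refine ⟨⟨fun D hD => mem_psub.2 ⟨?_, h1 D hD⟩, h2, h3⟩, h4⟩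
    rw [opCore_base h]; exact bot_le

theorem mem_CC (h : opCore ℓ G = ⊥) {c : Finset (Subgroup G)} :
    c ∈ chainsOn (psub ℓ G) ⊥ ↔ (∀ D ∈ c, IsPGroup ℓ D) ∧ ⊥ ∈ c ∧
      IsChain (· ≤ ·) (c : Set (Subgroup G)) := by
  classical
  rw [mem_chainsOn]
  constructor
  · rintro ⟨h1, h2, h3⟩
    exact ⟨fun D hD => (mem_psub.1 (h1 hD)).2, h2, h3⟩
  · rintro ⟨h1, h2, h3⟩
    refine ⟨fun D hD => mem_psub.2 ⟨?_, h1 D hD⟩, h2, h3⟩
    rw [h]; exact bot_le

omit [Fintype G] in
theorem box_bot : (box fun _ : ZMod m => (⊥ : Subgroup G)) = ⊥ := by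
  rw [eq_bot_iff]
  intro f hf
  rw [Subgroup.mem_bot]
  funext i
  exact Subgroup.mem_bot.1 (mem_box.1 hf i)

theorem Phi_mem (h : opCore ℓ G = ⊥) {c : Finset (Subgroup G)}
    (hc : c ∈ chainsOn (psub ℓ G) ⊥) (u : {i : ZMod m // i ≠ 0} → G) :
    Phi (c, u) ∈ PC ℓ m G := by
  rw [mem_CC h] at hc
  obtain ⟨h1, h2, h3⟩ := hc
  rw [mem_PC h]
  refine ⟨⟨?_, ?_, ?_⟩, ?_⟩
  · intro D hD
    obtain ⟨P, hP, rfl⟩ := mem_Phi.1 hD
    exact box_pgroup fun i => conjS_pgroup (h1 P hP)
  · rw [mem_Phi]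
    refine ⟨⊥, h2, ?_⟩
    simp only [conjS_bot]
    exact box_bot
  · intro D hD E hE _
    obtain ⟨P, hP, rfl⟩ := mem_Phi.1 (Finset.mem_coe.1 hD)
    obtain ⟨Q, hQ, rfl⟩ := mem_Phi.1 (Finset.mem_coe.1 hE)
    rcases chain_total h3 hP hQ with h4 | h4
    · left; exact box_mono fun i => conjS_mono.2 h4
    · right; exact box_mono fun i => conjS_mono.2 h4
  · intro D hD
    obtain ⟨P, hP, rfl⟩ := mem_Phi.1 hD
    exact closN_box _

/-- chains with a larger stabiliser are conjugates of diagonal chains -/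
theorem exists_Phi (h : opCore ℓ G = ⊥) {d : Finset (Subgroup (ZMod m → G))}
    (hd : d ∈ PC ℓ m G) {t : Wr m G} (ht : t ∈ TT d) (hs : t.s ≠ 0) :
    ∃ c ∈ chainsOn (psub ℓ G) ⊥, ∃ u : {i : ZMod m // i ≠ 0} → G, Phi (c, u) = d := by
  classical
  rw [mem_PC h] at hd
  obtain ⟨⟨h1, h2, h3⟩, h4⟩ := hd
  rw [mem_TT_closed h4] at ht
  have step : ∀ k : ℕ, ∃ g : G, ∀ D ∈ d, conjS g (pr 0 D) = pr ((k : ZMod m) * t.s) D := by
    intro k
    induction k with
    | zero => exact ⟨1, fun D _ => by rw [conjS_one]; simp⟩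
    | succ k ih =>
      obtain ⟨g, hg⟩ := ih
      refine ⟨t.f (((k + 1 : ℕ) : ZMod m) * t.s) * g, fun D hD => ?_⟩
      rw [← conjS_conjS, hg D hD]
      have h5 := ht D hD (((k + 1 : ℕ) : ZMod m) * t.s)
      have h6 : ((k + 1 : ℕ) : ZMod m) * t.s - t.s = (k : ZMod m) * t.s := by push_cast; ring
      rw [h6] at h5
      exact h5
  have hall : ∀ i : ZMod m, ∃ g : G, ∀ D ∈ d, conjS g (pr 0 D) = pr i D := by
    intro i
    have h5 := step (i * t.s⁻¹).val
    rw [ZMod.natCast_zmod_val, mul_assoc, inv_mul_cancel₀ hs, mul_one] at h5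
    exact h5
  choose g hg using hall
  refine ⟨d.image (pr 0), ?_, fun j => g j, ?_⟩
  · rw [mem_CC h]
    refine ⟨?_, ?_, ?_⟩
    · intro P hP
      obtain ⟨D, hD, rfl⟩ := Finset.mem_image.1 hP
      exact (h1 D hD).map _
    · exact Finset.mem_image.2 ⟨⊥, h2, Subgroup.map_bot _⟩
    · intro P hP Q hQ _
      obtain ⟨D, hD, rfl⟩ := Finset.mem_image.1 (Finset.mem_coe.1 hP)
      obtain ⟨E, hE, rfl⟩ := Finset.mem_image.1 (Finset.mem_coe.1 hQ)
      rcases chain_total h3 hD hE with h5 | h5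
      · left; exact pr_mono h5
      · right; exact pr_mono h5
  · have key : ∀ D ∈ d, (box fun i => conjS (ext0 (fun j : {i : ZMod m // i ≠ 0} => g j) i)
        (pr 0 D)) = D := by
      intro D hD
      conv_rhs => rw [← h4 D hD]
      unfold closN
      congr 1
      funext i
      by_cases hi : i = 0
      · subst hi
        rw [ext0_zero, conjS_one]
      · rw [ext0_ne _ hi]
        exact hg i D hD
    ext D
    rw [mem_Phi]
    constructor
    · rintro ⟨P, hP, rfl⟩
      obtain ⟨E, hE, rfl⟩ := Finset.mem_image.1 hP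
      rw [key E hE]; exact hE
    · intro hD
      exact ⟨pr 0 D, Finset.mem_image_of_mem _ hD, key D hD⟩

omit [Fintype G] in
theorem ext0_mul (u v : {i : ZMod m // i ≠ 0} → G) (i : ZMod m) :
    ext0 (fun j => u j * v j) i = ext0 u i * ext0 v i := by
  by_cases hi : i = 0
  · subst hi; simp [ext0_zero]
  · simp [ext0_ne _ hi]

open Classical in
/-- the fibres of `Phi` -/
theorem card_fibre (c : Finset (Subgroup G)) (C : Finset (Finset (Subgroup G))) (hc : c ∈ C)
    (u : {i : ZMod m // i ≠ 0} → G) :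
    ((C ×ˢ (Finset.univ : Finset ({i : ZMod m // i ≠ 0} → G))).filter
      (fun p => Phi p = Phi (c, u))).card = Nat.card (stab c) ^ (m - 1) := by
  have hfin := Fintype.ofFinite (stab c)
  have h1 : Nat.card (stab c) ^ (m - 1) =
      (Finset.univ : Finset ({i : ZMod m // i ≠ 0} → stab c)).card := by
    rw [Finset.card_univ, Fintype.card_fun, card_ne_zero_sub, Nat.card_eq_fintype_card]
  rw [h1]
  symm
  apply Finset.card_bij (fun v _ => (c, fun j => u j * (v j : G)))
  · intro v _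
    rw [Finset.mem_filter]
    refine ⟨Finset.mem_product.2 ⟨hc, Finset.mem_univ _⟩, ?_⟩
    have key : ∀ P ∈ c, (box fun i => conjS (ext0 (fun j => u j * (v j : G)) i) P) =
        box fun i => conjS (ext0 u i) P := by
      intro P hP
      congr 1
      funext i
      rw [ext0_mul, ← conjS_conjS]
      congr 1
      by_cases hi : i = 0
      · subst hi; rw [ext0_zero, conjS_one]
      · rw [ext0_ne _ hi]
        exact mem_stab.1 (v ⟨i, hi⟩).2 P hP
    ext D
    rw [mem_Phi, mem_Phi]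
    constructor
    · rintro ⟨P, hP, rfl⟩; exact ⟨P, hP, (key P hP).symm⟩
    · rintro ⟨P, hP, rfl⟩; exact ⟨P, hP, key P hP⟩
  · intro v _ v' _ h
    funext j
    have := congrFun (congrArg Prod.snd h) j
    exact Subtype.ext (mul_left_cancel this)
  · rintro ⟨c', u'⟩ h
    rw [Finset.mem_filter] at h
    obtain ⟨_, h2⟩ := h
    have h3 : c' = c := by
      have := congrArg (Finset.image (pr 0)) h2
      rwa [image_Phi, image_Phi] at this
    subst h3
    have h4 : ∀ P ∈ c', ∀ j : {i : ZMod m // i ≠ 0}, conjS (u' j) P = conjS (u j) P := by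
      intro P hP j
      have h5 : (box fun i => conjS (ext0 u' i) P) ∈ Phi (c', u) := by
        rw [← h2]; exact mem_Phi.2 ⟨P, hP, rfl⟩
      obtain ⟨Q, hQ, h6⟩ := mem_Phi.1 h5
      have h7 := congrFun (box_injective h6)
      have h8 := h7 0
      simp only [ext0_zero, conjS_one] at h8
      have h9 := h7 j
      simp only [ext0_ne _ j.2] at h9
      rw [← h9, h8]
    refine ⟨fun j => ⟨(u j)⁻¹ * u' j, mem_stab.2 fun P hP => ?_⟩, Finset.mem_univ _, ?_⟩
    · rw [← conjS_conjS, h4 P hP j, conjS_conjS, inv_mul_cancel, conjS_one]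
    · simp

variable {M : Ideal (integralClosure ℤ ℂ)} [hM : M.IsPrime]

/-- the difference of the weights on conjugates of diagonal chains -/
theorem extra_Phi (hℓ : (ℓ : integralClosure ℤ ℂ) ∈ M) (hne : m ≠ ℓ) {χ : G → ℂ}
    (hχ : χ ∈ Irr G) (hX : Cong M ((Nat.card G : ℂ) / χ 1) 0) {c : Finset (Subgroup G)}
    (hc1 : ∀ D ∈ c, IsPGroup ℓ D) (hc2 : IsChain (· ≤ ·) (c : Set (Subgroup G)))
    (u : {i : ZMod m // i ≠ 0} → G) :
    (weight M (extChar χ 1 : Wr m G → ℂ) ((Phi (c, u)).map (iS m G).toEmbedding) : ℤ) -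
      weight M (piChar fun _ : ZMod m => χ) (Phi (c, u)) =
      Nat.card (stab c) ^ (m - 1) * (((m : ℤ) ^ 2 - 1) * weight M χ c) := by
  have h1 : (Phi (c, u)).map (iS m G).toEmbedding =
      ((c.map (diag m G)).map (iS m G).toEmbedding).map (conjEmb (Wr.base m G (ext0 u))) := by
    unfold Phi
    rw [Finset.map_map, Finset.map_map (iS m G).toEmbedding]
    apply congrArg (fun e => Finset.map e (c.map (diag m G)))
    apply DFunLike.ext
    intro D
    exact (conjS_base (ext0 u) D).symm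
  have h2 : weight M (extChar χ 1 : Wr m G → ℂ) ((Phi (c, u)).map (iS m G).toEmbedding) =
      weight M (extChar χ 1 : Wr m G → ℂ) ((c.map (diag m G)).map (iS m G).toEmbedding) := by
    rw [h1, weight_map_conj]
  have h3 : weight M (piChar fun _ : ZMod m => χ) (Phi (c, u)) =
      weight M (piChar fun _ : ZMod m => χ) (c.map (diag m G)) := by
    unfold Phi
    rw [weight_map_conj]
  rw [h2, h3]
  have h4 := weight_diag (m := m) hℓ hne hχ hX hc1 hc2
  have h5 : (weight M (extChar χ 1 : Wr m G → ℂ)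
      ((c.map (diag m G)).map (iS m G).toEmbedding) : ℤ) -
      weight M (piChar fun _ : ZMod m => χ) (c.map (diag m G)) =
      ((m : ℤ) ^ 2 - 1) * (Nat.card (stab c) ^ m * (IrrBlock M (stab c).subtype χ).ncard) := by
    have h6 : (weight M (extChar χ 1 : Wr m G → ℂ)
      ((c.map (diag m G)).map (iS m G).toEmbedding) : ℤ) +
      Nat.card (stab c) ^ m * (IrrBlock M (stab c).subtype χ).ncard =
      weight M (piChar fun _ : ZMod m => χ) (c.map (diag m G)) +
      m ^ 2 * (Nat.card (stab c) ^ m * (IrrBlock M (stab c).subtype χ).ncard) := by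
      exact_mod_cast h4
    linear_combination h6
  rw [h5]
  unfold weight
  obtain ⟨k, hk⟩ := Nat.exists_eq_add_of_le' hm.out.pos
  have h7 : (Nat.card (stab c) : ℤ) ^ m = Nat.card (stab c) ^ (m - 1) * Nat.card (stab c) := by
    rw [← pow_succ]
    congr 1
    have := hm.out.pos
    omega
  rw [h7]
  push_cast
  ring

theorem sum_extra (hℓ : (ℓ : integralClosure ℤ ℂ) ∈ M) (hne : m ≠ ℓ) (h : opCore ℓ G = ⊥)
    {χ : G → ℂ} (hχ : χ ∈ Irr G) (hX : Cong M ((Nat.card G : ℂ) / χ 1) 0) :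
    ∑ d ∈ PC ℓ m G, (-1) ^ (d.card + 1) *
      ((weight M (extChar χ 1 : Wr m G → ℂ) (d.map (iS m G).toEmbedding) : ℤ) -
        weight M (piChar fun _ : ZMod m => χ) d) =
      (Nat.card G : ℤ) ^ (m - 1) * (((m : ℤ) ^ 2 - 1) *
        ∑ c ∈ chainsOn (psub ℓ G) ⊥, (-1) ^ (c.card + 1) * (weight M χ c : ℤ)) := by
  classical
  set C := chainsOn (psub ℓ G) (⊥ : Subgroup G) with hC
  set U := (Finset.univ : Finset ({i : ZMod m // i ≠ 0} → G)) with hU
  let φ : Finset (Subgroup (ZMod m → G)) → ℤ := fun d =>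
    (-1) ^ (d.card + 1) * (((m : ℤ) ^ 2 - 1) * weight M χ (d.image (pr 0)))
  have h1 : ∑ p ∈ C ×ˢ U, φ (Phi p) =
      (Nat.card G : ℤ) ^ (m - 1) * (((m : ℤ) ^ 2 - 1) *
        ∑ c ∈ C, (-1) ^ (c.card + 1) * (weight M χ c : ℤ)) := by
    have h2 : ∀ p, φ (Phi p) = (-1) ^ (p.1.card + 1) * (((m : ℤ) ^ 2 - 1) * weight M χ p.1) := by
      intro p
      simp only [φ, card_Phi]
      rw [image_Phi]
    simp_rw [h2]
    rw [Finset.sum_product]
    simp only [Finset.sum_const, nsmul_eq_mul]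
    rw [hU, Finset.card_univ, Fintype.card_fun, card_ne_zero_sub, Nat.card_eq_fintype_card,
      Finset.mul_sum, Finset.mul_sum]
    apply Finset.sum_congr rfl
    intro c _
    push_cast
    ring
  rw [← h1, Finset.sum_comp φ Phi]
  -- the sum over product chains reduces to the image of `Phi`
  have hsub : (C ×ˢ U).image Phi ⊆ PC ℓ m G := by
    intro d hd
    obtain ⟨p, hp', rfl⟩ := Finset.mem_image.1 hd
    exact Phi_mem h (Finset.mem_product.1 hp').1 p.2
  rw [← Finset.sum_subset hsub]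
  · apply Finset.sum_congr rfl
    intro d hd
    obtain ⟨⟨c, u⟩, hp', rfl⟩ := Finset.mem_image.1 hd
    have hc := (Finset.mem_product.1 hp').1
    have hc' := (mem_CC h).1 hc
    rw [extra_Phi hℓ hne hχ hX hc'.1 hc'.2.2 u, card_fibre c C hc u]
    simp only [φ]
    rw [image_Phi, nsmul_eq_mul]
    push_cast
    ring
  · intro d hd hd'
    have hs : ∀ t ∈ TT d, t.s = 0 := by
      intro t ht
      by_contra hs
      apply hd'
      obtain ⟨c, hc, u, rfl⟩ := exists_Phi h hd ht hs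
      exact Finset.mem_image.2 ⟨(c, u), Finset.mem_product.2 ⟨hc, Finset.mem_univ _⟩, rfl⟩
    rw [weight_inner hℓ hne hχ hX ((mem_PC h).1 hd).2 hs, sub_self, mul_zero]

/-- The alternating sum of the wreath product. -/
theorem altSum_wr (hℓ : (ℓ : integralClosure ℤ ℂ) ∈ M) (hne : m ≠ ℓ) (h : opCore ℓ G = ⊥)
    {χ : G → ℂ} (hχ : χ ∈ Irr G) (hX : Cong M ((Nat.card G : ℂ) / χ 1) 0) :
    (m : ℤ) * altSum ℓ M (extChar χ 1 : Wr m G → ℂ) =
      altSum ℓ M χ ^ m + ((m : ℤ) ^ 2 - 1) * altSum ℓ M χ := by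
  classical
  have hG : ((Nat.card G : ℤ)) ≠ 0 := by exact_mod_cast Nat.card_pos.ne'
  -- the sum for the wreath product
  have e1 : (Nat.card (Wr m G) : ℤ) * altSum ℓ M (extChar χ 1 : Wr m G → ℂ) =
      ∑ d ∈ PC ℓ m G, (-1) ^ (d.card + 1) *
        (weight M (extChar χ 1 : Wr m G → ℂ) (d.map (iS m G).toEmbedding) : ℤ) := by
    rw [card_mul_altSum, psub_wr hne h, opCore_wr hne h, ← iS_bot (m := m) (G := G),
      sum_chainsOn_map]
    have h1 := sum_closure (psub ℓ (ZMod m → G)) ⊥ closN (f := fun d =>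
      (-1) ^ ((d.map (iS m G).toEmbedding).card + 1) *
        (weight M (extChar χ 1 : Wr m G → ℂ) (d.map (iS m G).toEmbedding) : ℤ))
      (by
        intro D hD
        rw [mem_psub] at hD ⊢
        exact ⟨hD.1.trans (le_closN D), box_pgroup fun i => hD.2.map _⟩)
      (fun D _ => le_closN D) (fun D _ E _ hDE => closN_mono hDE) (fun D _ => closN_closN D)
      (by
        rw [← box_bot, closN_box])
      (fun D _ => bot_le)
      (by
        intro d _ D hD hDn
        have h2 : stab ((insert (closN D) d).map (iS m G).toEmbedding) =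
            stab (d.map (iS m G).toEmbedding) := by
          rw [Finset.map_insert]
          exact stab_insert_of (Finset.mem_map_of_mem _ hD) (fun t ht => closN_stable ht)
        unfold weight
        rw [h2, Finset.card_map, Finset.card_map, Finset.card_insert_of_notMem hDn]
        ring)
    rw [h1]
    simp only [Finset.card_map]
    unfold PC
    apply Finset.sum_congr _ fun _ _ => rfl
    ext d
    simp only [Finset.mem_filter]
  -- the sum for the base group
  have e2 : (Nat.card (ZMod m → G) : ℤ) * altSum ℓ M (piChar fun _ : ZMod m => χ) =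
      ∑ d ∈ PC ℓ m G, (-1) ^ (d.card + 1) *
        (weight M (piChar fun _ : ZMod m => χ) d : ℤ) := by
    rw [card_mul_altSum, opCore_base h]
    have h1 := sum_closure (psub ℓ (ZMod m → G)) ⊥ closN (f := fun d =>
      (-1) ^ (d.card + 1) * (weight M (piChar fun _ : ZMod m => χ) d : ℤ))
      (by
        intro D hD
        rw [mem_psub] at hD ⊢
        exact ⟨hD.1.trans (le_closN D), box_pgroup fun i => hD.2.map _⟩)
      (fun D _ => le_closN D) (fun D _ E _ hDE => closN_mono hDE) (fun D _ => closN_closN D)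
      (by
        rw [← box_bot, closN_box])
      (fun D _ => bot_le)
      (by
        intro d _ D hD hDn
        have h2 : stab (insert (closN D) d) = stab d :=
          stab_insert_of hD (fun t ht => closN_stable_base ht)
        unfold weight
        rw [h2, Finset.card_insert_of_notMem hDn]
        ring)
    rw [h1]
    unfold PC
    apply Finset.sum_congr _ fun _ _ => rfl
    ext d
    simp only [Finset.mem_filter]
  have e3 := sum_extra (m := m) hℓ hne h hχ hX
  simp_rw [mul_sub] at e3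
  rw [Finset.sum_sub_distrib, ← e1, ← e2] at e3
  have e4 := card_mul_altSum ℓ M χ
  rw [h] at e4
  rw [← e4, altSum_zmod_pow ℓ M hχ m, Wr.card_eq, Nat.card_fun, Nat.card_zmod] at e3
  have h7 : (Nat.card G : ℤ) ^ m = Nat.card G ^ (m - 1) * Nat.card G := by
    rw [← pow_succ]
    congr 1
    have := hm.out.pos
    omega
  have h8 : ((Nat.card G : ℤ) ^ m) ≠ 0 := pow_ne_zero _ hG
  apply mul_left_cancel₀ h8
  push_cast at e3
  rw [h7] at e3 ⊢
  linear_combination e3

end Pool.Agent.Helper51_AWC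
end
end -- Pool.Agent.Helper51_AWC.WrFinal

section -- Pool.Agent.Helper98_CC.Div

/-!
Alperin's weight conjecture in alternating-sum form at a prime `ℓ`, for groups with `O_ℓ(G) = 1` :
vanishing of all sums, divisibility of the sums for large groups by one fixed number which is not
a power of `ℓ`, and subpolynomial growth of the sums are equivalent.
-/

open scoped BigOperators

noncomputable section

namespace Pool.Agent.Helper98_CC.Div

open Pool.Agent.Helper51_AWC

/-- `O_ℓ(G) = 1`, `χ` is an irreducible character of `G`, and the defect groups of its block are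
not trivial. -/
def CoreFree (ℓ : ℕ) (M : Ideal (integralClosure ℤ ℂ)) (G : Type) [Group G] (χ : G → ℂ) : Prop :=
  opCore ℓ G = ⊥ ∧ χ ∈ Irr G ∧ LargeDefect ℓ M χ

/-- a stronger form of `CoreFree` for representatives -/
def Strong (ℓ : ℕ) (G : Type) [Group G] (χ : G → ℂ) : Prop :=
  opCore ℓ G = ⊥ ∧ χ ∈ Irr G ∧ ∃ n : ℕ, χ 1 = n ∧ ℓ * n ∣ Nat.card G

theorem altSum_congr {ℓ : ℕ} {M : Ideal (integralClosure ℤ ℂ)} {G : Type} [Group G]
    {χ ψ : G → ℂ}
    (h : ∀ g : G, Cong M (omega (MonoidHom.id G) ψ g) (omega (MonoidHom.id G) χ g)) :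
    altSum ℓ M ψ = altSum ℓ M χ := by
  have : ∀ (H : Subgroup G), IrrBlock M H.subtype ψ = IrrBlock M H.subtype χ := by
    intro H
    ext ϑ
    constructor
    · rintro ⟨h1, h2⟩; exact ⟨h1, fun g => (h2 g).trans (h g)⟩
    · rintro ⟨h1, h2⟩; exact ⟨h1, fun g => (h2 g).trans (h g).symm⟩
  unfold altSum
  simp only [this]

theorem Strong.coreFree {ℓ : ℕ} {M : Ideal (integralClosure ℤ ℂ)} {G : Type} [Group G]
    {χ : G → ℂ} (h : Strong ℓ G χ) : CoreFree ℓ M G χ := by
  obtain ⟨h1, h2, n, hn, hd⟩ := h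
  refine ⟨h1, h2, χ, h2, fun g => Cong.refl _, n, hn, ?_⟩
  rw [h1, Subgroup.card_bot, mul_one]
  exact hd

theorem CoreFree.exists_strong {ℓ : ℕ} {M : Ideal (integralClosure ℤ ℂ)} {G : Type} [Group G]
    {χ : G → ℂ} (h : CoreFree ℓ M G χ) : ∃ ψ, Strong ℓ G ψ ∧ altSum ℓ M ψ = altSum ℓ M χ := by
  obtain ⟨h1, h2, ψ, hψ, hc, n, hn, hd⟩ := h
  refine ⟨ψ, ⟨h1, hψ, n, hn, ?_⟩, altSum_congr hc⟩
  rw [h1, Subgroup.card_bot, mul_one] at hd
  exact hd

theorem Strong.cong {ℓ : ℕ} {M : Ideal (integralClosure ℤ ℂ)}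
    (hℓ : (ℓ : integralClosure ℤ ℂ) ∈ M) {G : Type} [Group G] [Fintype G] {χ : G → ℂ}
    (h : Strong ℓ G χ) : Cong M ((Nat.card G : ℂ) / χ 1) 0 := by
  obtain ⟨_, h2, n, hn, k, hk⟩ := h
  have h0 := irr_one_ne h2
  have h3 : (Nat.card G : ℂ) / χ 1 = ((ℓ * k : ℕ) : ℂ) := by
    rw [div_eq_iff h0, hn, hk]
    push_cast; ring
  rw [h3]
  exact cong_nat_of_dvd hℓ ⟨k, rfl⟩

/-- `s` is the sum of a pair with a group of order `c` -/
def Val (ℓ : ℕ) (M : Ideal (integralClosure ℤ ℂ)) (s : ℤ) (c : ℕ) : Prop :=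
  ∃ (G : Type) (_ : Group G) (_ : Finite G) (χ : G → ℂ), Strong ℓ G χ ∧ altSum ℓ M χ = s ∧
    Nat.card G = c

section closure

variable {ℓ : ℕ} [hp : Fact ℓ.Prime] {M : Ideal (integralClosure ℤ ℂ)} [hM : M.IsPrime]

omit hM in
theorem Val.mul {s t : ℤ} {c d : ℕ} (hs : Val ℓ M s c) (ht : Val ℓ M t d) :
    Val ℓ M (s * t) (c * d) := by
  obtain ⟨G, _, _, χ, ⟨a1, a2, n, hn, a3⟩, rfl, rfl⟩ := hs
  obtain ⟨H, _, _, ψ, ⟨b1, b2, k, hk, b3⟩, rfl, rfl⟩ := ht
  have := Fintype.ofFinite G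
  have := Fintype.ofFinite H
  refine ⟨G × H, inferInstance, inferInstance, prodChar χ ψ,
    ⟨?_, prodChar_mem a2 b2, n * k, ?_, ?_⟩, altSum_prod ℓ M a2 b2, Nat.card_prod _ _⟩
  · rw [opCore_prod, a1, b1, Subgroup.bot_prod_bot]
  · simp [prodChar, hn, hk]
  · rw [Nat.card_prod]
    have h1 : ℓ * (n * k) ∣ (ℓ * n) * (ℓ * k) := ⟨ℓ, by ring⟩
    exact h1.trans (mul_dvd_mul a3 b3)

omit hM in
theorem Val.pow {s : ℤ} {c : ℕ} (hs : Val ℓ M s c) (n : ℕ) :
    Val ℓ M (s ^ (n + 1)) (c ^ (n + 1)) := by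
  induction n with
  | zero => simpa using hs
  | succ n ih =>
    have h1 := ih.mul hs
    rwa [← pow_succ, ← pow_succ] at h1

theorem Val.wr (hℓ : (ℓ : integralClosure ℤ ℂ) ∈ M) {s : ℤ} {c : ℕ} (hs : Val ℓ M s c) (m : ℕ)
    (hm : m.Prime) (hne : m ≠ ℓ) :
    ∃ t : ℤ, (m : ℤ) * t = s ^ m + ((m : ℤ) ^ 2 - 1) * s ∧ Val ℓ M t (c ^ m * m) := by
  have hmf : Fact m.Prime := ⟨hm⟩
  obtain ⟨G, _, _, χ, hS, rfl, rfl⟩ := hs
  have := Fintype.ofFinite G
  have hX := hS.cong hℓ
  obtain ⟨a1, a2, n, hn, a3⟩ := hS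
  refine ⟨altSum ℓ M (extChar χ 1 : Wr m G → ℂ), altSum_wr hℓ hne a1 a2 hX,
    Wr m G, inferInstance, inferInstance, extChar χ 1,
    ⟨opCore_wr hne a1, extChar_mem a2 1, n ^ m, ?_, ?_⟩, rfl, Wr.card_eq⟩
  · rw [extChar_one a2, hn]
    push_cast; rfl
  · rw [Wr.card_eq]
    have h1 : ℓ * n ^ m ∣ (ℓ * n) ^ m := by
      rw [mul_pow]
      exact mul_dvd_mul_right (dvd_pow_self _ hm.ne_zero) _
    exact h1.trans ((pow_dvd_pow_of_dvd a3 m).trans (Dvd.intro _ rfl))

omit hM in
theorem Val.pos {s : ℤ} {c : ℕ} (hs : Val ℓ M s c) (h0 : s ≠ 0) : 2 ≤ c := by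
  obtain ⟨G, _, _, χ, ⟨a1, a2, n, hn, a3⟩, rfl, rfl⟩ := hs
  have hn0 : n ≠ 0 := by
    rintro rfl
    have := irr_one_ne a2
    exact this (by simpa using hn)
  have h1 := Nat.le_of_dvd Nat.card_pos a3
  have h2 := hp.out.two_le
  have h3 : 1 ≤ n := Nat.one_le_iff_ne_zero.2 hn0
  calc 2 ≤ ℓ * 1 := by omega
    _ ≤ ℓ * n := Nat.mul_le_mul_left _ h3
    _ ≤ _ := h1

end closure

/-- For every prime `ℓ` and every `k` which has a prime divisor different from `ℓ` : all sums
`S(G, B)` with `O_ℓ(G) = 1` and `B` of positive defect vanish if and only if `k` divides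
`S(G, B)` for all such `(G, B)` with `|G|` large, and if and only if for every `ε > 0` one has
`S(G, B) ≤ |G|^ε` for all such `(G, B)` with `|G|` large. -/
theorem criterion :
    ∀ ℓ : ℕ, ℓ.Prime → ∀ M : Ideal (integralClosure ℤ ℂ), M.IsMaximal →
      (ℓ : integralClosure ℤ ℂ) ∈ M → ∀ k : ℕ, (∃ m : ℕ, m.Prime ∧ m ≠ ℓ ∧ m ∣ k) →
      List.TFAE [
        ∀ (G : Type) [Group G] [Finite G] (χ : G → ℂ), CoreFree ℓ M G χ → altSum ℓ M χ = 0,
        ∃ N : ℕ, ∀ (G : Type) [Group G] [Finite G] (χ : G → ℂ),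
          CoreFree ℓ M G χ → N ≤ Nat.card G → (k : ℤ) ∣ altSum ℓ M χ,
        ∀ ε : ℝ, 0 < ε → ∃ N : ℕ, ∀ (G : Type) [Group G] [Finite G] (χ : G → ℂ),
          CoreFree ℓ M G χ → N ≤ Nat.card G → (altSum ℓ M χ : ℝ) ≤ (Nat.card G : ℝ) ^ ε] := by
  intro ℓ hp M hM hℓ k hk
  obtain ⟨m, hm, hne, hmk⟩ := hk
  have hfact : Fact ℓ.Prime := ⟨hp⟩
  have hprime : M.IsPrime := hM.isPrime
  tfae_have 1 → 2 := by
    intro h
    refine ⟨0, fun G _ _ χ hχ _ => ?_⟩
    rw [h G χ hχ]
    exact dvd_zero _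
  tfae_have 1 → 3 := by
    intro h ε _
    refine ⟨0, fun G _ _ χ hχ _ => ?_⟩
    rw [h G χ hχ]
    simp only [Int.cast_zero]
    positivity
  tfae_have 2 → 1 := by
    rintro ⟨N, h⟩ G _ _ χ hχ
    by_contra hne0
    obtain ⟨ψ, hψ, hψχ⟩ := hχ.exists_strong
    rw [← hψχ] at hne0
    -- a large group
    have hv0 : Val ℓ M (altSum ℓ M ψ) (Nat.card G) := ⟨G, inferInstance, inferInstance, ψ, hψ,
      rfl, rfl⟩
    have hc2 := hv0.pos hne0
    have hv1 := hv0.pow N
    have hbig : N ≤ Nat.card G ^ (N + 1) :=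
      (Nat.lt_pow_self (by omega : 1 < Nat.card G)).le.trans
        (Nat.pow_le_pow_right (by omega) (Nat.le_succ N))
    have hne1 : altSum ℓ M ψ ^ (N + 1) ≠ 0 := pow_ne_zero _ hne0
    have hdiv : ∀ (s : ℤ) (c : ℕ), Val ℓ M s c → N ≤ c → (m : ℤ) ∣ s := by
      rintro s c ⟨H, _, _, ϑ, hϑ, rfl, rfl⟩ hc
      exact (Int.natCast_dvd_natCast.2 hmk).trans (h H ϑ hϑ.coreFree hc)
    have hpow : ∀ (n : ℕ) (s : ℤ) (c : ℕ), Val ℓ M s c → N ≤ c → s ≠ 0 → 0 < c →
        (m : ℤ) ^ n ∣ s := by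
      intro n
      induction n with
      | zero => intro s c _ _ _ _; simp
      | succ n ih =>
        intro s c hv hc hs hc0
        obtain ⟨t, ht, hvt⟩ := hv.wr hℓ m hm hne
        have hms := hdiv s c hv hc
        have hm1 : 1 ≤ m - 1 := by have := hm.two_le; omega
        have hfac : (m : ℤ) * t = s * (s ^ (m - 1) + ((m : ℤ) ^ 2 - 1)) := by
          rw [ht]
          have : s ^ m = s * s ^ (m - 1) := by
            rw [← pow_succ']
            congr 1
            have := hm.pos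
            omega
          rw [this]; ring
        have hcop : IsCoprime (m : ℤ) (s ^ (m - 1) + ((m : ℤ) ^ 2 - 1)) := by
          obtain ⟨a, ha⟩ := hms
          have h1 : s ^ (m - 1) = (m : ℤ) * (a * s ^ (m - 1 - 1)) := by
            have : s ^ (m - 1) = s * s ^ (m - 1 - 1) := by
              rw [← pow_succ']
              congr 1
              omega
            rw [this]
            nth_rewrite 1 [ha]
            ring
          refine ⟨a * s ^ (m - 1 - 1) + m, -1, ?_⟩
          rw [h1]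
          ring
        have hc' : c ≤ c ^ m * m := by
          calc c = c ^ 1 * 1 := by ring
            _ ≤ c ^ m * m := Nat.mul_le_mul (Nat.pow_le_pow_right hc0 hm.pos) hm.pos
        have ht0 : t ≠ 0 := by
          rintro rfl
          rw [mul_zero] at hfac
          rcases mul_eq_zero.1 hfac.symm with h1 | h1
          · exact hs h1
          · rw [h1] at hcop
            have h2 := isCoprime_zero_right.1 hcop
            have h3 : (m : ℤ).natAbs = 1 := Int.isUnit_iff_natAbs_eq.1 h2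
            simp only [Int.natAbs_natCast] at h3
            exact hm.one_lt.ne' h3
        have h1 := ih t _ hvt (hc.trans hc') ht0 (hc0.trans_le hc')
        have h2 : (m : ℤ) ^ (n + 1) ∣ s * (s ^ (m - 1) + ((m : ℤ) ^ 2 - 1)) := by
          rw [← hfac, pow_succ']
          exact mul_dvd_mul_left _ h1
        exact (hcop.pow_left).dvd_of_dvd_mul_right h2
    set s := altSum ℓ M ψ ^ (N + 1) with hs
    have h1 := hpow s.natAbs s _ hv1 hbig hne1 (by positivity)
    have h2 := Int.natAbs_dvd_natAbs.2 h1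
    rw [Int.natAbs_pow, Int.natAbs_natCast] at h2
    have h3 := Nat.le_of_dvd (Int.natAbs_pos.2 hne1) h2
    exact absurd (Nat.lt_pow_self hm.one_lt) (not_lt.2 h3)
  tfae_have 3 → 1 := by
    intro h G _ _ χ hχ
    by_contra hne0
    obtain ⟨ψ, hψ, hψχ⟩ := hχ.exists_strong
    rw [← hψχ] at hne0
    have hv0 : Val ℓ M (altSum ℓ M ψ) (Nat.card G) := ⟨G, inferInstance, inferInstance, ψ, hψ,
      rfl, rfl⟩
    -- a value at least two
    have hsq : Val ℓ M (altSum ℓ M ψ ^ 2) (Nat.card G ^ 2) := hv0.pow 1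
    have hsq1 : 1 ≤ altSum ℓ M ψ ^ 2 := by
      have : 0 < altSum ℓ M ψ ^ 2 := by positivity
      omega
    obtain ⟨t, ht, hvt⟩ := hsq.wr hℓ m hm hne
    have ht2 : 2 ≤ t := by
      have h1 : (1 : ℤ) ≤ (altSum ℓ M ψ ^ 2) ^ m := one_le_pow₀ hsq1
      have h2 : (4 : ℤ) ≤ (m : ℤ) ^ 2 := by
        have : (2 : ℤ) ≤ m := by exact_mod_cast hm.two_le
        nlinarith
      have h3 : (m : ℤ) ^ 2 ≤ (m : ℤ) * t := by
        rw [ht]
        nlinarith
      have h4 : (0 : ℤ) < m := by exact_mod_cast hm.pos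
      have h5 : (m : ℤ) ≤ t := by
        rw [sq] at h3
        exact le_of_mul_le_mul_left h3 h4
      have h6 : (2 : ℤ) ≤ m := by exact_mod_cast hm.two_le
      omega
    generalize (Nat.card G ^ 2) ^ m * m = c at hvt
    have hc2 := hvt.pos (by omega)
    -- choose the exponent
    have hcR : (1 : ℝ) < c := by exact_mod_cast hc2
    have hlogc : 0 < Real.log c := Real.log_pos hcR
    have hlog2 : 0 < Real.log 2 := Real.log_pos (by norm_num)
    obtain ⟨N, hN⟩ := h (Real.log 2 / (2 * Real.log c)) (by positivity)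
    have hvn := hvt.pow N
    obtain ⟨H, _, _, ϑ, hϑ, hϑs, hϑc⟩ := hvn
    have hbig : N ≤ Nat.card H := by
      rw [hϑc]
      exact (Nat.lt_pow_self (by omega : 1 < c)).le.trans
        (Nat.pow_le_pow_right (by omega) (Nat.le_succ N))
    have h1 := hN H ϑ hϑ.coreFree hbig
    rw [hϑs, hϑc] at h1
    have h2 : ((2 : ℝ)) ^ (N + 1) ≤ ((t ^ (N + 1) : ℤ) : ℝ) := by
      push_cast
      have : (2 : ℝ) ≤ t := by exact_mod_cast ht2
      exact pow_le_pow_left₀ (by norm_num) this _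
    have h3 : (((c ^ (N + 1) : ℕ) : ℝ)) ^ (Real.log 2 / (2 * Real.log c)) =
        Real.exp ((N + 1 : ℕ) * (Real.log 2 / 2)) := by
      push_cast
      rw [Real.rpow_def_of_pos (by positivity), Real.log_pow]
      congr 1
      push_cast
      field_simp
    have h4 : ((2 : ℝ)) ^ (N + 1) = Real.exp ((N + 1 : ℕ) * Real.log 2) := by
      rw [mul_comm, Real.exp_mul, Real.exp_log (by norm_num), Real.rpow_natCast]
    have h5 := h2.trans h1
    rw [h3, h4, Real.exp_le_exp] at h5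
    have h6 : (0 : ℝ) < ((N + 1 : ℕ) : ℝ) := by positivity
    nlinarith
  tfae_finish

end Pool.Agent.Helper98_CC.Div
end
end -- Pool.Agent.Helper98_CC.Div

section -- Pool.Agent.Helper98_CC.Final

/-!
CC: the assembly.
-/

open scoped BigOperators

noncomputable section

namespace Pool.Agent.Helper98_CC

open Pool.Agent.Helper51_AWC Pool.Agent.Helper79_WRA Pool.Agent.Helper90_CC

theorem grdAll : GredStmt := Helper26_CC.grd (Helper11_CC.genus Helper13_CC.frob)
theorem labAll : LabIdStmt := Helper97_CC.lab Helper13_CC.frob labelAll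
theorem wclAll : WclStmt :=
  H81.wcl Helper51_CC.boxp Helper29_CC.boxt (Helper33_CC.gooda H55.off)
    (Helper17_CC.goodb extAll labelAll H81.eqb)

theorem mainAll : MainStmt :=
  main_ grdAll Helper65_CC.ind labAll Helper87_CC.dz1 Helper51_CC.con wclAll H55.step dzuAll

section

variable {ℓ : ℕ} [hp : Fact ℓ.Prime] {M : Ideal (integralClosure ℤ ℂ)} [hM : M.IsMaximal]
  (hℓ : (ℓ : integralClosure ℤ ℂ) ∈ M)

include hℓ in
/-- the congruences for one group give the divisibility of the sums by `ℓ` -/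
theorem dvd_of_cong {G : Type} [Group G] [Finite G] (hop : opCore ℓ G = ⊥) {g : ℕ} (hg : 1 < g)
    (hdvd : ℓ - 1 ∣ 2 * g - 2)
    (hC : ∀ c : G, ((ℓ * cz c : ℕ) : ℤ) ∣ torusSum ℓ c - (commg g c : ℤ)) {χ : G → ℂ}
    (hχ : χ ∈ Irr G) (hL : LargeDefect ℓ M χ) : (ℓ : ℤ) ∣ altSum ℓ M χ := by
  have hgrd := grdAll
  have hlab := labAll
  have hdzu := dzuAll
  have hind := Helper65_CC.ind
  have hz : ∀ c : G, ∑ᶠ (β : G → FF M) (_ : β ∈ Labs M G),
      ((SS ℓ M G β - ee ℓ M G β : ℤ) : FF M) * β c = 0 := by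
    intro c
    obtain ⟨n, hn, hn'⟩ := diff_eq hℓ hop hgrd hlab hdzu hg hdvd c
    rw [← hn', intCast_FF hℓ]
    obtain ⟨k, hk⟩ := hC c
    have hcz : (cz c : ℤ) ≠ 0 := by
      unfold cz
      exact_mod_cast Nat.card_pos.ne'
    refine ⟨k, ?_⟩
    have h2 : (cz c : ℤ) * n = (cz c : ℤ) * ((ℓ : ℤ) * k) := by
      rw [← hn, hk]
      push_cast
      ring
    exact mul_left_cancel₀ hcz h2
  have h3 := hind M G (fun β => ((SS ℓ M G β - ee ℓ M G β : ℤ) : FF M)) hz (labF M χ)
    ⟨χ, hχ, rfl⟩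
  rw [intCast_FF hℓ, SS_labF M hop hχ, ee_pos hℓ hop hdzu hχ hL, sub_zero] at h3
  exact h3

include hℓ in
/-- the descent: if all the sums are divisible by `ℓ` then they vanish -/
theorem descent
    (h1 : ∀ (G : Type) [Group G] [Finite G], opCore ℓ G = ⊥ → ∀ χ ∈ Irr G,
        LargeDefect ℓ M χ → (ℓ : ℤ) ∣ altSum ℓ M χ) :
    ∀ (G : Type) [Group G] [Finite G], opCore ℓ G = ⊥ → ∀ χ ∈ Irr G,
        LargeDefect ℓ M χ → altSum ℓ M χ = 0 := by
  have hstep := H55.step
  have hwcl := wclAll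
  -- descent
  have h2 : ∀ v : ℕ, 1 ≤ v → ∀ (G : Type) [Group G] [Finite G], opCore ℓ G = ⊥ →
      ∀ χ ∈ Irr G, LargeDefect ℓ M χ → (ℓ : ℤ) ^ v ∣ altSum ℓ M χ := by
    intro v hv
    induction v, hv using Nat.le_induction with
    | base =>
      intro G _ _ hop χ hχ hL
      rw [pow_one]
      exact h1 G hop χ hχ hL
    | succ v hv ih =>
      intro G _ _ hop χ hχ hL
      obtain ⟨⟨s', hs', hs'2⟩, χ', hO, hL', hop'⟩ := hstep ℓ M hℓ G hop χ hχ hL
      have hw := hwcl ℓ M hℓ G hop χ hχ hL χ' hO (altSum ℓ M χ) s' (asum_labF M hop hχ) hs'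
      have hi := ih G hop χ hχ hL
      have hi' : (ℓ : ℤ) ^ v ∣ s' := by
        rcases hs'2 with h | ⟨χ₂, hχ₂, hL₂, h⟩
        · rw [h]
          exact dvd_zero _
        · rw [← h]
          exact ih G hop χ₂ hχ₂ hL₂
      have hi'' : (ℓ : ℤ) ^ v ∣ altSum ℓ M χ' := ih (Gam ℓ G) hop' χ' hO.1 hL'
      have hd1 : (ℓ : ℤ) ^ (v + 1) ∣ (ℓ : ℤ) * altSum ℓ M χ' := by
        rw [pow_succ, mul_comm]
        exact mul_dvd_mul_left _ hi''
      have hd2 : (ℓ : ℤ) ^ (v + 1) ∣ (altSum ℓ M χ) ^ ℓ := by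
        have h3 : ((ℓ : ℤ) ^ v) ^ ℓ ∣ (altSum ℓ M χ) ^ ℓ := pow_dvd_pow_of_dvd hi ℓ
        refine dvd_trans ?_ h3
        rw [← pow_mul]
        apply pow_dvd_pow
        have := hp.out.two_le
        nlinarith
      have hd3 : (ℓ : ℤ) ^ (v + 1) ∣ (ℓ : ℤ) ^ 2 * s' := by
        have h3 : (ℓ : ℤ) ^ (v + 1) = (ℓ : ℤ) * (ℓ : ℤ) ^ v := by ring
        rw [h3, pow_two, mul_assoc]
        exact mul_dvd_mul_left _ (hi'.mul_left _)
      have hd4 : (ℓ : ℤ) ^ (v + 1) ∣ ((ℓ : ℤ) ^ 2 - 1) * altSum ℓ M χ := by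
        have : ((ℓ : ℤ) ^ 2 - 1) * altSum ℓ M χ =
            (ℓ : ℤ) * altSum ℓ M χ' - (altSum ℓ M χ) ^ ℓ + (ℓ : ℤ) ^ 2 * s' := by
          rw [hw]
          ring
        rw [this]
        exact dvd_add (dvd_sub hd1 hd2) hd3
      have hcop : IsCoprime ((ℓ : ℤ) ^ (v + 1)) ((ℓ : ℤ) ^ 2 - 1) := by
        apply IsCoprime.pow_left
        exact ⟨ℓ, -1, by ring⟩
      exact hcop.dvd_of_dvd_mul_left hd4
  intro G _ _ hop χ hχ hL
  by_contra hne
  have hlt := fun v : ℕ => h2 (v + 1) (by omega) G hop χ hχ hL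
  obtain ⟨v, hv⟩ : ∃ v : ℕ, (altSum ℓ M χ).natAbs < ℓ ^ (v + 1) := by
    refine ⟨(altSum ℓ M χ).natAbs, ?_⟩
    have h3 : (altSum ℓ M χ).natAbs + 1 < ℓ ^ ((altSum ℓ M χ).natAbs + 1) :=
      Nat.lt_pow_self hp.out.one_lt
    omega
  have h4 : ℓ ^ (v + 1) ∣ (altSum ℓ M χ).natAbs := by
    have := Int.natAbs_dvd_natAbs.mpr (hlt v)
    rwa [Int.natAbs_pow, Int.natAbs_natCast] at this
  have h5 := Nat.le_of_dvd (Int.natAbs_pos.mpr hne) h4
  omega

include hℓ in
/-- divisibility by `ℓ` for large groups is enough -/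
theorem vanish_of_ell (h : ∃ N : ℕ, ∀ (G : Type) [Group G] [Finite G] (χ : G → ℂ),
    Div.CoreFree ℓ M G χ → N ≤ Nat.card G → (ℓ : ℤ) ∣ altSum ℓ M χ) :
    ∀ (G : Type) [Group G] [Finite G] (χ : G → ℂ), Div.CoreFree ℓ M G χ →
      altSum ℓ M χ = 0 := by
  obtain ⟨N, h⟩ := h
  have hprime : Prime (ℓ : ℤ) := Nat.prime_iff_prime_int.mp hp.out
  intro G _ _ χ hχ
  refine descent hℓ ?_ G hχ.1 χ hχ.2.1 hχ.2.2
  clear hχ
  clear χ
  intro H _ _ hop χ hirr hL
  have hχ : Div.CoreFree ℓ M H χ := ⟨hop, hirr, hL⟩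
  by_cases h0 : altSum ℓ M χ = 0
  · rw [h0]; exact dvd_zero _
  obtain ⟨ψ, hψ, hψχ⟩ := hχ.exists_strong
  have hv0 : Div.Val ℓ M (altSum ℓ M χ) (Nat.card H) :=
    ⟨H, inferInstance, inferInstance, ψ, hψ, hψχ, rfl⟩
  have hc2 := hv0.pos h0
  obtain ⟨K, _, _, ϑ, hϑ, hϑs, hϑc⟩ := hv0.pow N
  have hbig : N ≤ Nat.card K := by
    rw [hϑc]
    exact (Nat.lt_pow_self (by omega : 1 < Nat.card H)).le.trans
      (Nat.pow_le_pow_right (by omega) (Nat.le_succ N))
  have h3 := h K ϑ hϑ.coreFree hbig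
  rw [hϑs] at h3
  exact hprime.dvd_of_dvd_pow h3

end

end Pool.Agent.Helper98_CC
end
end -- Pool.Agent.Helper98_CC.Final
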