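import Pool.Agent.Helper12_AWB.B066
import Pool.Agent.Helper12_AWB.B101
import Pool.Agent.Helper12_AWB.B104

/-!
# Merged copies (generated) of the modules

* `Pool.Agent.Helper27_ML.Common`
* `Pool.Agent.Helper86_ML.Chp`
* `Pool.Agent.Helper27_ML.NN2`
* `Pool.Agent.Helper86_ML.Asm`
* `Pool.Agent.Helper86_ML.NN3`
-/

set_option autoImplicit false

section -- Pool.Agent.Helper27_ML.Common

/-!
# Squad ML, stage 2: the common part of the rows NN2 and NN3
-/

open scoped BigOperators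

noncomputable section

namespace Pool.Agent.PP.ML.H27

open Pool.Agent.Helper51_AWC Pool.Agent.Helper79_WRA Pool.Agent.PP Pool.Agent.Helper98_CC
open Pool.Agent.Helper90_CC

/-! ## Elements with elementary abelian Sylow subgroups of the centraliser -/

theorem exists_syl' (ℓ : ℕ) [hp : Fact ℓ.Prime] {G : Type} [Group G] [Finite G] (g : G) :
    ∃ R : Subgroup G, IsPGroup ℓ R ∧ R ≤ Subgroup.centralizer ({g} : Set G) ∧
      (¬ ℓ ∣ R.relIndex (Subgroup.centralizer ({g} : Set G))) ∧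
      ∀ k n : ℕ, (g ^ k) ^ ℓ ^ n = 1 → g ^ k ∈ R := by
  obtain ⟨R, hR, hRC, ⟨m, hm, hm'⟩, hk⟩ := H10.exists_syl ℓ g
  refine ⟨R, hR, hRC, ?_, hk⟩
  have h1 : Nat.card R * R.relIndex (Subgroup.centralizer ({g} : Set G)) =
      Nat.card (Subgroup.centralizer ({g} : Set G)) := by
    rw [← Subgroup.relIndex_bot_left R,
      ← Subgroup.relIndex_bot_left (Subgroup.centralizer ({g} : Set G))]
    exact Subgroup.relIndex_mul_relIndex _ _ _ bot_le hRC
  have h2 : Nat.card R * R.relIndex (Subgroup.centralizer ({g} : Set G)) = Nat.card R * m := by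
    rw [h1]
    exact hm
  have h3 := Nat.eq_of_mul_eq_mul_left Nat.card_pos h2
  rw [h3]
  exact hm'

/-- DV for an element with elementary abelian Sylow subgroups of the centraliser, which is not
`ℓ`-regular. -/
theorem dv (hD : DvrStmt) (ℓ : ℕ) [hp : Fact ℓ.Prime] {G : Type} [Group G] [Finite G]
    (g : G) (hreg : ¬ Reg ℓ g)
    (hab : ∀ Q : Subgroup G, IsPGroup ℓ Q → Q ≤ Subgroup.centralizer ({g} : Set G) → ElAb ℓ Q) :
    (ℓ = 3 → DV ℓ (3 * ℓ) 2 g) ∧ (ℓ = 2 → DV ℓ (4 * ℓ) 1 g) := by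
  obtain ⟨R, hR, hRC, hidx, hk⟩ := exists_syl' ℓ g
  have hdv : ℓ ∣ orderOf g := by
    by_contra h
    exact hreg ((hp.out.coprime_iff_not_dvd.2 h).symm)
  have hord : orderOf (g ^ (orderOf g / ℓ)) = ℓ :=
    orderOf_pow_orderOf_div (orderOf_pos g).ne' hdv
  have hpow : (g ^ (orderOf g / ℓ)) ^ ℓ ^ 1 = 1 := by
    rw [pow_one]
    conv_lhs => rw [← hord]
    rw [hord]
    have := pow_orderOf_eq_one (g ^ (orderOf g / ℓ))
    rwa [hord] at this
  have hmem := hk _ 1 hpow
  obtain ⟨hRab, hRe⟩ := hab R hR hRC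
  have key := @hD ℓ hp G R _ _ (H10.mkComm (inferInstance : Group R) hRab) R g
    { toFun := fun x => x, map_one' := rfl, map_mul' := fun _ _ => rfl } hR hRC hidx
    (orderOf g / ℓ) hmem
  have h1 : @orderOf R (H10.mkComm (inferInstance : Group R) hRab).toMonoid
      (⟨g ^ (orderOf g / ℓ), hmem⟩ : R) = ℓ := by
    have h2 : orderOf (⟨g ^ (orderOf g / ℓ), hmem⟩ : R) = ℓ := by
      rw [Subgroup.orderOf_mk]
      exact hord
    exact h2
  have hne : ∀ r ∈ R, r ^ ℓ ≠ g ^ (orderOf g / ℓ) := by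
    intro r hr h
    have h3 := congrArg Subtype.val (hRe ⟨r, hr⟩)
    have h4 : r ^ ℓ = 1 := h3
    rw [h4] at h
    rw [← h, orderOf_one] at hord
    exact hp.out.one_lt.ne hord
  obtain ⟨-, k3, k2⟩ := key
  constructor
  · intro hl
    have h5 := k3 (by rw [← hl]; exact hne)
    change DV ℓ (3 * @orderOf R (H10.mkComm (inferInstance : Group R) hRab).toMonoid
      (⟨g ^ (orderOf g / ℓ), hmem⟩ : R)) 2 g at h5
    rwa [h1] at h5
  · intro hl
    have h5 := k2 (by rw [← hl]; exact hne)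
    change DV ℓ (4 * @orderOf R (H10.mkComm (inferInstance : Group R) hRab).toMonoid
      (⟨g ^ (orderOf g / ℓ), hmem⟩ : R)) 1 g at h5
    rwa [h1] at h5

attribute [local instance] Ideal.Quotient.field

/-! ## The element `z` -/

section main

variable {ℓ : ℕ} [hp : Fact ℓ.Prime] {M : Ideal (integralClosure ℤ ℂ)} [hM : M.IsMaximal]

/-- the element `z = f (Λ - 1)` -/
def zz (ℓ : ℕ) {M : Ideal (integralClosure ℤ ℂ)} [hM : M.IsMaximal] {G : Type} [Group G]
    (f : G → FF M) : G → FF M :=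
  mulF f (ellS ℓ (FF M) - dl (FF M) (1 : G))

omit hp in
theorem bcl {G : Type} [Group G] [Finite G] :
    IsCl (ellS ℓ (FF M) - dl (FF M) (1 : G)) :=
  (cfs (FF M) G).sub_mem (H10.isCl_ellS ℓ (FF M)) H46.isIdem_one.1

omit hp in
theorem zz_cl {G : Type} [Group G] [Finite G] {f : G → FF M} (hf : IsCl f) : IsCl (zz ℓ f) :=
  H50.isCl_mulF hf bcl

/-- the elements with `z g ≠ 0` -/
theorem zz_ne (hD : DvrStmt) (hR : RegStmt) (hℓ : (ℓ : integralClosure ℤ ℂ) ∈ M) {G : Type}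
    [Group G] [Finite G] {f : G → FF M} (hf : IsBlk f) (hDf : DF.DfE ℓ (ElAb ℓ) f ⊤) (g : G)
    (hg : zz ℓ f g ≠ 0) : (ℓ = 3 → DV ℓ (3 * ℓ) 2 g) ∧ (ℓ = 2 → DV ℓ (4 * ℓ) 1 g) := by
  have hF : GoodF ℓ (FF M) := H50.fld ℓ hp.out M hℓ
  have hDz : DF.DfE ℓ (ElAb ℓ) (zz ℓ f) ⊤ :=
    DF.DfE.factor hF (fun n _ t => hf.1.1 t n) (fun n _ t => bcl t n) hDf
  apply dv hD ℓ g
  · intro hreg
    apply hg
    rw [zz, H10.mulF_sub_one, Pi.sub_apply, hR ℓ (FF M) hF G f hf.1 g hreg, sub_self]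
  · intro Q hQ hQC
    apply hDz Q le_top hQ
    refine ⟨g, ?_, hg⟩
    rw [Subgroup.mem_centralizer_iff]
    intro q hq
    have := hQC hq
    rwa [Subgroup.mem_centralizer_singleton_iff] at this

theorem res_zz {G : Type} [Group G] [Finite G] (hL : LamStmt)
    (hℓ : (ℓ : integralClosure ℤ ℂ) ∈ M) {f : G → FF M} (hf : IsBlk f) (hpos : Pos ℓ f ⊤)
    {χ : G → ℂ} (hχ : χ ∈ Irr G) (hχ1 : res M f χ = 1) {ψ : G → ℂ} (hψ : ψ ∈ Irr G) :
    (labF M ψ = labF M χ → res M (zz ℓ f) ψ = -1) ∧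
      (labF M ψ ≠ labF M χ → res M (zz ℓ f) ψ = 0) := by
  classical
  have hft := Fintype.ofFinite G
  have hF : GoodF ℓ (FF M) := H50.fld ℓ hp.out M hℓ
  have hres : res M (zz ℓ f) ψ =
      res M f ψ * (res M (ellS ℓ (FF M)) ψ - res M (dl (FF M) (1 : G)) ψ) := by
    rw [zz, H50.res_mul hf.1.1 bcl hψ, H50.res_sub]
  have hlab : ∀ (b : G → FF M) (ψ' : G → ℂ), labF M ψ = labF M ψ' → res M b ψ = res M b ψ' := by
    intro b ψ' h
    unfold res
    apply finsum_congr
    intro c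
    have := congrFun h (Quotient.out c)
    unfold labF at this
    rw [this]
  constructor
  · intro h
    have h1 : res M f ψ = 1 := by rw [hlab f χ h, hχ1]
    have h2 : res M (dl (FF M) (1 : G)) ψ = 1 := (H50.isChar_res hψ).one hf.1.1 h1
    obtain ⟨n, hn⟩ := hL ℓ (FF M) hF G f hf hpos
    have h3 : res M (ellS ℓ (FF M)) ψ = 0 :=
      H50.zero_of_nil hf.1.1 (H10.isCl_ellS ℓ (FF M)) (H50.isChar_res hψ) h1 hn
    rw [hres, h1, h2, h3, one_mul, zero_sub]
  · intro hne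
    rw [hres]
    rcases H50.res_idem hf.1 hψ with h | h
    · rw [h, zero_mul]
    · exfalso
      apply hne
      funext g
      rw [← H50.res_clsum]
      exact H50.lab_of_res hf (H50.isChar_res hψ) h hχ hχ1 g

/-- the lift of a class function -/
theorem lift (hT : TeiStmt) (hℓ : (ℓ : integralClosure ℤ ℂ) ∈ M) {G : Type} [Group G]
    {z : G → FF M} (hz : IsCl z) : ∃ F : G → ℂ, (∀ x y, F (y * x * y⁻¹) = F x) ∧
      (∀ x, F x ∈ W0 ℓ) ∧ (∀ x, IsIntegral ℤ (F x)) ∧ (∀ x, red M (F x) = z x) ∧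
      ∀ x, F x ≠ 0 → z x ≠ 0 := by
  obtain ⟨h1, -, -⟩ := hT ℓ M hℓ
  choose L hL using h1
  refine ⟨fun x => L (z x), ?_, ?_, ?_, ?_, ?_⟩
  · intro x y
    show L (z (y * x * y⁻¹)) = L (z x)
    rw [hz]
  · exact fun x => (hL (z x)).1
  · exact fun x => (hL (z x)).2.1
  · exact fun x => (hL (z x)).2.2.1
  · intro x hx h
    exact hx ((hL (z x)).2.2.2 h)

omit hM in
/-- the value of the central character of a character with integral central character -/
theorem red_om {G : Type} [Group G] [Finite G] {F : G → ℂ} {z : G → FF M}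
    (hc : ∀ x y, F (y * x * y⁻¹) = F x) (hi : ∀ x, IsIntegral ℤ (F x))
    (hr : ∀ x, red M (F x) = z x) {a : G → ℂ}
    (ha : ∀ g, IsIntegral ℤ (omega (MonoidHom.id G) a g)) :
    IsIntegral ℤ (omF F a) ∧ red M (omF F a) = res M z a := by
  have hft := Fintype.ofFinite G
  have h1 := H50.res_lift (M := M) (fun x => (⟨F x, hi x⟩ : integralClosure ℤ ℂ))
    (fun x y => by simp only [hc]) a ha
  have h2 : omF F a = H50.om F a := by
    rw [omF, H50.om, finsum_eq_sum_of_fintype]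
  have h3 : z = fun t => Ideal.Quotient.mk M (⟨F t, hi t⟩ : integralClosure ℤ ℂ) := by
    funext t
    rw [← hr t, red_of (hi t)]
  rw [h2, h3]
  exact ⟨h1.2, h1.1.symm⟩

/-- the residues of the central characters of the stabilisers of the chains -/
theorem red_omF {G : Type} [Group G] [Finite G] (hL : LamStmt)
    (hℓ : (ℓ : integralClosure ℤ ℂ) ∈ M) {f : G → FF M} (hf : IsBlk f) (hpos : Pos ℓ f ⊤)
    {χ : G → ℂ} (hχ : χ ∈ Irr G) (hχ1 : res M f χ = 1) {F : G → ℂ}
    (hc : ∀ x y, F (y * x * y⁻¹) = F x) (hi : ∀ x, IsIntegral ℤ (F x))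
    (hr : ∀ x, red M (F x) = zz ℓ f x) {d : Finset (Subgroup G)} (hd : ∀ D ∈ d, IsPGroup ℓ D)
    (hd' : IsChain (· ≤ ·) (d : Set (Subgroup G))) {a : G → ℂ} (ha : a ∈ IrrS (stab d)) :
    IsIntegral ℤ (omF F a) ∧ (labF M a = labF M χ → red M (omF F a) = -1) ∧
      (labF M a ≠ labF M χ → red M (omF F a) = 0) := by
  obtain ⟨h1, h2⟩ := red_om hc hi hr (fun g => omega_IrrS_integral ha g)
  obtain ⟨ψ, hψ, hab⟩ := labelAll ℓ M hℓ G d hd hd' a ha
  have h3 : res M (zz ℓ f) a = res M (zz ℓ f) ψ := by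
    unfold res
    apply finsum_congr
    intro c
    have := congrFun hab (Quotient.out c)
    unfold labF at this
    rw [this]
  obtain ⟨k1, k2⟩ := res_zz hL hℓ hf hpos hχ hχ1 hψ
  refine ⟨h1, ?_, ?_⟩
  · intro h
    rw [h2, h3]
    exact k1 (hab ▸ h)
  · intro h
    rw [h2, h3]
    exact k2 (fun h' => h (hab.trans h'))

end main

end Pool.Agent.PP.ML.H27
end
end -- Pool.Agent.Helper27_ML.Common

section -- Pool.Agent.Helper86_ML.Chp

/-!
# Squad ML, stage 2: the polynomial of the values `omF F a`, `a` in `IrrS H`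
-/

open scoped BigOperators

noncomputable section

namespace Pool.Agent.PP.ML.H86

open Pool.Agent.Helper51_AWC Pool.Agent.Helper79_WRA Pool.Agent.PP Pool.Agent.Helper98_CC

/-- `omF` for a character of a subgroup. -/
theorem omF_restrict {G : Type} [Group G] [Finite G] (H : Subgroup G) [Fintype H] (F a : G → ℂ)
    (ha : a ∈ IrrS H) : H50.om (fun x : H => F x) (fun x : H => a x) = omF F a := by
  have h1 := Pool.Agent.Helper79_WRA.H13.val_restrict (Λ := H) F a (fun t ht => ha.1 t ht)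
  have h2 : omF F a = val F a := rfl
  rw [h2, ← h1]
  unfold H50.om val
  rw [finsum_eq_sum_of_fintype]

/-- CHP for a subgroup. -/
theorem chpH (hchp : ChpStmt2) {ℓ : ℕ} [Fact ℓ.Prime] {G : Type} [Group G] [Finite G]
    (H : Subgroup G) (F : G → ℂ) (hF : ∀ x y, F (y * x * y⁻¹) = F x) (hW : ∀ x, F x ∈ W0 ℓ)
    (s : Finset (G → ℂ)) (hs : ∀ a, a ∈ s ↔ a ∈ IrrS H) (i : ℕ) :
    (∏ a ∈ s, (Polynomial.X - Polynomial.C (omF F a))).coeff i ∈ W0 ℓ := by
  classical
  have := Fintype.ofFinite H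
  have hinj : ∀ a ∈ s, ∀ b ∈ s, (fun x : H => a x) = (fun x : H => b x) → a = b := by
    intro a ha b hb h
    exact IrrS_ext ((hs a).1 ha) ((hs b).1 hb) (fun x => congrFun h x)
  have h1 := hchp ℓ H (fun x : H => F x) (fun x y => hF x y) (fun x => hW x)
    (s.image fun a => fun x : H => a x) (by
      intro χ
      constructor
      · intro h
        obtain ⟨a, ha, rfl⟩ := Finset.mem_image.1 h
        exact ((hs a).1 ha).2
      · intro h
        obtain ⟨a, ha, hax⟩ := exists_IrrS H h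
        exact Finset.mem_image.2 ⟨a, (hs a).2 ha, funext hax⟩) i
  rw [Finset.prod_image hinj] at h1
  have h2 : ∏ a ∈ s, (Polynomial.X - Polynomial.C (omF F a)) =
      ∏ a ∈ s, (Polynomial.X - Polynomial.C (H50.om (fun x : H => F x) (fun x : H => a x))) :=
    Finset.prod_congr rfl fun a ha => by rw [omF_restrict H F a ((hs a).1 ha)]
  rw [h2]
  exact h1

end Pool.Agent.PP.ML.H86
end
end -- Pool.Agent.Helper86_ML.Chp

section -- Pool.Agent.Helper27_ML.NN2

/-!
# Squad ML, stage 2, row NN2: four divides the alternating sum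
-/

open scoped BigOperators

noncomputable section

namespace Pool.Agent.PP.ML.H27

open Pool.Agent.Helper51_AWC Pool.Agent.Helper79_WRA Pool.Agent.PP Pool.Agent.Helper98_CC
open Pool.Agent.Helper90_CC Pool.Agent.Helper97_CC

section comb

variable {ℓ : ℕ} [hp : Fact ℓ.Prime] {M : Ideal (integralClosure ℤ ℂ)} [hM : M.IsMaximal]

theorem ld_zero (m : ℕ) : LD M m 0 := by
  refine ⟨1, 0, isIntegral_one, ?_, isIntegral_zero, by simp⟩
  rw [red_one]
  have hnt : Nontrivial (integralClosure ℤ ℂ ⧸ M) := Ideal.Quotient.nontrivial_iff.2 hM.ne_top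
  exact one_ne_zero

theorem ld_sum (hLd : LdaStmt) (hℓ : (ℓ : integralClosure ℤ ℂ) ∈ M) {m : ℕ} {ι : Type}
    (s : Finset ι) (f : ι → ℂ) (h : ∀ i ∈ s, LD M m (f i)) : LD M m (∑ i ∈ s, f i) := by
  classical
  induction s using Finset.induction_on with
  | empty =>
    rw [Finset.sum_empty]
    exact ld_zero m
  | insert a s ha ih =>
    rw [Finset.sum_insert ha]
    exact (hLd ℓ M hℓ).1 m _ _ (h a (Finset.mem_insert_self a s))
      (ih fun i hi => h i (Finset.mem_insert_of_mem hi))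

theorem ld_smul (hLd : LdaStmt) (hℓ : (ℓ : integralClosure ℤ ℂ) ∈ M) {m : ℕ} (s : ℤ) {z : ℂ}
    (h : LD M m z) : LD M m ((s : ℂ) * z) :=
  (hLd ℓ M hℓ).2.2.1 m z (s : ℂ) h (isIntegral_algebraMap (R := ℤ) (A := ℂ) (x := s))

open Classical in
/-- from the divisibility of the sum of the `F a` and of the local differences to the alternating
sum -/
theorem comb (hLd : LdaStmt) (hA : AlbStmt) (hℓ : (ℓ : integralClosure ℤ ℂ) ∈ M) {G : Type}
    [Group G] [Finite G] (hop : opCore ℓ G = ⊥) {χ : G → ℂ} (hχ : χ ∈ Irr G) {m : ℕ}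
    (F : (G → ℂ) → ℂ) (s : ℤ) (hs : s * s = 1) (h1 : LD M m (altF ℓ F))
    (h2 : ∀ d : PChain ℓ G, LD M m (∑ a ∈ IR (stab d.mem), F a +
      (s : ℂ) * (((IR (stab d.mem)).filter fun a => labF M a = labF M χ).card : ℂ))) :
    LD M m (altSum ℓ M χ : ℂ) := by
  have hft := Fintype.ofFinite (Quotient (chainSetoid ℓ G))
  have hb : ∀ F' : (G → ℂ) → ℂ, altF ℓ F' = ∑ q : Quotient (chainSetoid ℓ G),
      (-1) ^ q.out.length * ∑ a ∈ IR (stab q.out.mem), F' a := by
    intro F'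
    rw [altF, finsum_eq_sum_of_fintype]
    refine Finset.sum_congr rfl fun q _ => ?_
    rw [finsum_mem_eq_finite_toFinset_sum _ (IrrS_finite _)]
    rfl
  have h3 := hA ℓ M hℓ G hop χ hχ
  have h4 : altF ℓ F + (s : ℂ) * (altSum ℓ M χ : ℂ) = ∑ q : Quotient (chainSetoid ℓ G),
      (((-1) ^ q.out.length : ℤ) : ℂ) * (∑ a ∈ IR (stab q.out.mem), F a +
      (s : ℂ) * (((IR (stab q.out.mem)).filter fun a => labF M a = labF M χ).card : ℂ)) := by
    rw [h3, hb, hb, Finset.mul_sum, ← Finset.sum_add_distrib]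
    refine Finset.sum_congr rfl fun q _ => ?_
    rw [Finset.sum_boole]
    push_cast
    ring
  have h5 : LD M m (altF ℓ F + (s : ℂ) * (altSum ℓ M χ : ℂ)) := by
    rw [h4]
    apply ld_sum hLd hℓ
    intro q _
    exact ld_smul hLd hℓ _ (h2 _)
  have h6 : (altSum ℓ M χ : ℂ) = (s : ℂ) * (altF ℓ F + (s : ℂ) * (altSum ℓ M χ : ℂ)) +
      ((-s : ℤ) : ℂ) * altF ℓ F := by
    have h7 : (s : ℂ) * (s : ℂ) = 1 := by exact_mod_cast hs
    push_cast
    linear_combination (-(altSum ℓ M χ : ℂ)) * h7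
  rw [h6]
  exact (hLd ℓ M hℓ).1 m _ _ (ld_smul hLd hℓ _ h5) (ld_smul hLd hℓ _ h1)

end comb

theorem nn2 (hNum : NumStmt) (hA : AlbStmt) (hT : TeiStmt) (hLd : LdaStmt) (hD : DvrStmt)
    (hChp : ChpStmt2) (hSqr : SqrStmt) (hL : LamStmt) (hR : RegStmt) : Nn2Stmt := by
  intro M hM hℓ G _ _ hop f hf hpos hDf χ hχ hχ1
  classical
  have hp : Fact (Nat.Prime 2) := ⟨Nat.prime_two⟩
  obtain ⟨F, hc, hW, hi, hr, hne⟩ := lift (ℓ := 2) hT hℓ (zz_cl (ℓ := 2) (M := M) hf.1.1)
  have h1 := hNum 2 M hℓ G hop 8 F [F] hc hi (fun h hh => by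
    rw [List.mem_singleton] at hh
    rw [hh]
    exact ⟨hc, hi⟩) (fun g hg => (zz_ne hD hR hℓ hf hDf g (hne g hg)).2 rfl)
  have h2 : LD M 4 (altF 2 fun a => omF F a ^ 2) := by
    obtain ⟨u, v, hu, hu0, hv, huv⟩ := h1
    refine ⟨u, 2 * v, hu, hu0, ?_, ?_⟩
    · exact (isIntegral_algebraMap (R := ℤ) (A := ℂ) (x := 2)).mul hv
    · have h3 : (fun a : G → ℂ => omF F a * (List.map (fun h => omF h a) [F]).prod) =
          fun a => omF F a ^ 2 := by
        funext a
        rw [List.map_singleton, List.prod_singleton, pow_two]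
      rw [h3] at huv
      rw [huv]
      push_cast
      ring
  have h3 : ∀ d : PChain 2 G, LD M 4 (∑ a ∈ IR (stab d.mem), omF F a ^ 2 +
      ((-1 : ℤ) : ℂ) * (((IR (stab d.mem)).filter fun a => labF M a = labF M χ).card : ℂ)) := by
    intro d
    have hro : ∀ a ∈ IR (stab d.mem), IsIntegral ℤ (omF F a) ∧
        (labF M a = labF M χ → red M (omF F a) = -1) ∧
        (labF M a ≠ labF M χ → red M (omF F a) = 0) := fun a ha =>
      red_omF hL hℓ hf hpos hχ hχ1 hc hi hr d.pgroup d.chain (mem_IR.1 ha)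
    have hneg : (-1 : FF M) = 1 := by
      have h5 : ((2 : ℤ) : FF M) = 0 := (intCast_FF hℓ 2).2 (by norm_num)
      have h6 : (1 : FF M) + 1 = 0 := by
        have : ((2 : ℤ) : FF M) = 1 + 1 := by push_cast; norm_num
        rw [← this]; exact h5
      exact (eq_neg_of_add_eq_zero_left h6).symm
    have h0 : (0 : FF M) ≠ 1 := by
      have hnt : Nontrivial (integralClosure ℤ ℂ ⧸ M) := Ideal.Quotient.nontrivial_iff.2 hM.ne_top
      exact zero_ne_one
    have h4 := hSqr M hℓ (G → ℂ) (IR (stab d.mem)) (fun a => omF F a) (fun a ha => (hro a ha).1)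
      (fun a ha => by
        by_cases h : labF M a = labF M χ
        · right
          rw [(hro a ha).2.1 h, hneg]
        · left
          exact (hro a ha).2.2 h)
      (H86.chpH (ℓ := 2) hChp (stab d.mem) F hc hW (IR (stab d.mem)) (fun a => mem_IR))
    have h5 : ((IR (stab d.mem)).filter fun a => red M (omF F a) = 1) =
        (IR (stab d.mem)).filter fun a => labF M a = labF M χ := by
      apply Finset.filter_congr
      intro a ha
      constructor
      · intro h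
        by_contra h'
        rw [(hro a ha).2.2 h'] at h
        exact h0 h
      · intro h
        rw [(hro a ha).2.1 h, hneg]
    rw [h5] at h4
    have h6 : ∑ a ∈ IR (stab d.mem), omF F a ^ 2 +
      ((-1 : ℤ) : ℂ) * (((IR (stab d.mem)).filter fun a => labF M a = labF M χ).card : ℂ) =
      ∑ a ∈ IR (stab d.mem), omF F a ^ 2 -
        (((IR (stab d.mem)).filter fun a => labF M a = labF M χ).card : ℂ) := by
      push_cast
      ring
    rw [h6]
    exact h4
  have h4 := comb (ℓ := 2) hLd hA hℓ hop hχ _ (-1) (by norm_num) h2 h3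
  have h5 := (hLd 2 M hℓ).2.2.2.2 2 (altSum 2 M χ) (by norm_num; exact h4)
  norm_num at h5
  exact h5

end Pool.Agent.PP.ML.H27
end
end -- Pool.Agent.Helper27_ML.NN2

section -- Pool.Agent.Helper86_ML.Asm

/-!
# Squad ML, stage 2: the last step of NN3 and NN2
-/

open scoped BigOperators

noncomputable section

namespace Pool.Agent.PP.ML.H86

open Pool.Agent.Helper51_AWC Pool.Agent.Helper79_WRA Pool.Agent.PP Pool.Agent.Helper98_CC
open Pool.Agent.Helper97_CC (IR mem_IR)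

theorem LD_zero {M : Ideal (integralClosure ℤ ℂ)} [M.IsMaximal] (m : ℕ) : LD M m 0 := by
  refine ⟨1, 0, isIntegral_one, ?_, isIntegral_zero, by ring⟩
  rw [red_one]
  have hM : M ≠ ⊤ := Ideal.IsMaximal.ne_top inferInstance
  have : Nontrivial (FF M) := Ideal.Quotient.nontrivial_iff.2 hM
  exact one_ne_zero

theorem LD_sum (lda : LdaStmt) {ℓ : ℕ} [Fact ℓ.Prime] {M : Ideal (integralClosure ℤ ℂ)}
    [M.IsMaximal] (hM : (ℓ : integralClosure ℤ ℂ) ∈ M) {ι : Type*} (m : ℕ) (s : Finset ι)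
    (f : ι → ℂ) (h : ∀ i ∈ s, LD M m (f i)) : LD M m (∑ i ∈ s, f i) :=
  Finset.sum_induction f (LD M m) (fun a b ha hb => (lda ℓ M hM).1 m a b ha hb) (LD_zero m) h

theorem LD_mul (lda : LdaStmt) {ℓ : ℕ} [Fact ℓ.Prime] {M : Ideal (integralClosure ℤ ℂ)}
    [M.IsMaximal] (hM : (ℓ : integralClosure ℤ ℂ) ∈ M) {m : ℕ} {z w : ℂ} (hz : LD M m z)
    (hw : IsIntegral ℤ w) : LD M m (w * z) := (lda ℓ M hM).2.2.1 m z w hz hw

theorem int_negOnePow (k : ℕ) : IsIntegral ℤ ((-1 : ℂ) ^ k) :=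
  (isIntegral_one.neg).pow k

/-- From the local statements to the alternating sum. -/
theorem fin_general (lda : LdaStmt) (alb : AlbStmt) {ℓ : ℕ} [Fact ℓ.Prime]
    {M : Ideal (integralClosure ℤ ℂ)} [M.IsMaximal] (hM : (ℓ : integralClosure ℤ ℂ) ∈ M)
    {G : Type} [Group G] [Finite G] (hO : opCore ℓ G = ⊥) {χ : G → ℂ} (hχ : χ ∈ Irr G)
    (j k : ℕ) (ε : ℂ) (hε : ε * ε = 1) (hεi : IsIntegral ℤ ε) (F : G → ℂ)
    (hnum : LD M (ℓ ^ j) (altF ℓ fun a => omF F a ^ k))
    (hloc : ∀ d : Finset (Subgroup G), (∀ D ∈ d, IsPGroup ℓ D) →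
      IsChain (· ≤ ·) (d : Set (Subgroup G)) →
      open Classical in
      LD M (ℓ ^ j) (∑ a ∈ IR (stab d), omF F a ^ k -
        ε * ∑ a ∈ IR (stab d), (if labF M a = labF M χ then (1 : ℂ) else 0))) :
    ((ℓ ^ j : ℕ) : ℤ) ∣ altSum ℓ M χ := by
  classical
  have := Fintype.ofFinite (PChain ℓ G)
  have := Fintype.ofFinite (Quotient (chainSetoid ℓ G))
  apply (lda ℓ M hM).2.2.2.2 j
  rw [alb ℓ M hM G hO χ hχ]
  have hfin : ∀ (f : (G → ℂ) → ℂ), altF ℓ f = ∑ q : Quotient (chainSetoid ℓ G),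
      (-1) ^ q.out.length * ∑ a ∈ IR (stab q.out.mem), f a := by
    intro f
    unfold altF
    rw [finsum_eq_sum_of_fintype]
    refine Finset.sum_congr rfl fun q _ => ?_
    congr 1
    rw [finsum_mem_eq_finite_toFinset_sum _ (IrrS_finite (stab q.out.mem))]
    rfl
  have h1 : LD M (ℓ ^ j) (altF ℓ (fun a => omF F a ^ k) -
      ε * altF ℓ (fun a => if labF M a = labF M χ then (1 : ℂ) else 0)) := by
    rw [hfin, hfin, Finset.mul_sum, ← Finset.sum_sub_distrib]
    apply LD_sum lda hM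
    intro q _
    have h2 := LD_mul lda hM (hloc q.out.mem q.out.pgroup q.out.chain)
      (int_negOnePow q.out.length)
    have h3 : ((-1 : ℂ) ^ q.out.length * ∑ a ∈ IR (stab q.out.mem), omF F a ^ k -
        ε * ((-1) ^ q.out.length * ∑ a ∈ IR (stab q.out.mem),
          (if labF M a = labF M χ then (1 : ℂ) else 0))) =
        (-1) ^ q.out.length * (∑ a ∈ IR (stab q.out.mem), omF F a ^ k -
          ε * ∑ a ∈ IR (stab q.out.mem), (if labF M a = labF M χ then (1 : ℂ) else 0)) := by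
      ring
    rw [h3]
    exact h2
  have h4 : LD M (ℓ ^ j) (ε * altF ℓ (fun a => if labF M a = labF M χ then (1 : ℂ) else 0)) := by
    have h5 := (lda ℓ M hM).1 _ _ _ hnum (LD_mul lda hM h1 (isIntegral_one.neg))
    have h6 : altF ℓ (fun a => omF F a ^ k) + -1 * (altF ℓ (fun a => omF F a ^ k) -
        ε * altF ℓ (fun a => if labF M a = labF M χ then (1 : ℂ) else 0)) =
        ε * altF ℓ (fun a => if labF M a = labF M χ then (1 : ℂ) else 0) := by ring
    rwa [h6] at h5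
  have h7 := LD_mul lda hM h4 hεi
  rw [← mul_assoc, hε, one_mul] at h7
  exact h7

/-- The last step of NN3. -/
theorem asm3 (num : NumStmt) (alb : AlbStmt) (lda : LdaStmt) (chp : ChpStmt2) (cub : CubStmt)
    (M : Ideal (integralClosure ℤ ℂ)) [M.IsMaximal] (hM : ((3 : ℕ) : integralClosure ℤ ℂ) ∈ M)
    {G : Type} [Group G] [Finite G] (hO : opCore 3 G = ⊥) {χ : G → ℂ} (hχ : χ ∈ Irr G)
    (F : G → ℂ) (hF : ∀ x y, F (y * x * y⁻¹) = F x) (hW : ∀ x, F x ∈ W0 3)
    (hWi : ∀ x, IsIntegral ℤ (F x)) (hDV : ∀ g, F g ≠ 0 → DV 3 9 2 g)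
    (hom : ∀ d : Finset (Subgroup G), (∀ D ∈ d, IsPGroup 3 D) →
      IsChain (· ≤ ·) (d : Set (Subgroup G)) → ∀ a ∈ IrrS (stab d), IsIntegral ℤ (omF F a) ∧
        (labF M a = labF M χ → red M (omF F a) = -1) ∧
        (labF M a ≠ labF M χ → red M (omF F a) = 0)) : (9 : ℤ) ∣ altSum 3 M χ := by
  classical
  have : Fact (Nat.Prime 3) := ⟨Nat.prime_three⟩
  have hMt : M ≠ ⊤ := Ideal.IsMaximal.ne_top inferInstance
  have hnt : Nontrivial (FF M) := Ideal.Quotient.nontrivial_iff.2 hMt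
  have h1 := num 3 M hM G hO 9 F [F, F] hF hWi (by
    intro h hh
    have : h = F := by simpa using hh
    subst this
    exact ⟨hF, hWi⟩) hDV
  have h2 : (fun a : G → ℂ => omF F a * (([F, F] : List (G → ℂ)).map fun h => omF h a).prod) =
      fun a => omF F a ^ 3 := by
    funext a
    simp only [List.map_cons, List.map_nil, List.prod_cons, List.prod_nil]
    ring
  rw [h2] at h1
  have h3 : ((3 ^ 2 : ℕ) : ℤ) ∣ altSum 3 M χ := by
    refine fin_general lda alb hM hO hχ 2 3 (-1) (by ring) (isIntegral_one.neg) F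
      (by exact_mod_cast h1) ?_
    intro d hd hc
    have h4 := cub M hM (G → ℂ) (IR (stab d)) (fun a => omF F a)
      (fun a ha => (hom d hd hc a (mem_IR.1 ha)).1)
      (fun a ha => by
        by_cases h : labF M a = labF M χ
        · exact Or.inr ((hom d hd hc a (mem_IR.1 ha)).2.1 h)
        · exact Or.inl ((hom d hd hc a (mem_IR.1 ha)).2.2 h))
      (fun i => chpH chp (stab d) F hF hW (IR (stab d)) (fun a => mem_IR) i)
    have h5 : (((IR (stab d)).filter fun a => red M (omF F a) = -1).card : ℂ) =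
        ∑ a ∈ IR (stab d), (if labF M a = labF M χ then (1 : ℂ) else 0) := by
      rw [Finset.card_filter]
      push_cast
      refine Finset.sum_congr rfl fun a ha => ?_
      obtain ⟨_, q2, q3⟩ := hom d hd hc a (mem_IR.1 ha)
      by_cases h : labF M a = labF M χ
      · rw [if_pos h, if_pos (q2 h)]
      · rw [if_neg h, if_neg]
        rw [q3 h]
        intro h0
        exact (neg_ne_zero.2 (one_ne_zero (α := FF M))) h0.symm
    rw [h5] at h4
    have h6 : ∑ a ∈ IR (stab d), omF F a ^ 3 -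
        (-1 : ℂ) * ∑ a ∈ IR (stab d), (if labF M a = labF M χ then (1 : ℂ) else 0) =
        ∑ a ∈ IR (stab d), omF F a ^ 3 +
          ∑ a ∈ IR (stab d), (if labF M a = labF M χ then (1 : ℂ) else 0) := by ring
    rw [h6]
    exact_mod_cast h4
  exact_mod_cast h3

/-- The last step of NN2. -/
theorem asm2 (num : NumStmt) (alb : AlbStmt) (lda : LdaStmt) (chp : ChpStmt2) (sqr : SqrStmt)
    (M : Ideal (integralClosure ℤ ℂ)) [M.IsMaximal] (hM : ((2 : ℕ) : integralClosure ℤ ℂ) ∈ M)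
    {G : Type} [Group G] [Finite G] (hO : opCore 2 G = ⊥) {χ : G → ℂ} (hχ : χ ∈ Irr G)
    (F : G → ℂ) (hF : ∀ x y, F (y * x * y⁻¹) = F x) (hW : ∀ x, F x ∈ W0 2)
    (hWi : ∀ x, IsIntegral ℤ (F x)) (hDV : ∀ g, F g ≠ 0 → DV 2 4 1 g)
    (hom : ∀ d : Finset (Subgroup G), (∀ D ∈ d, IsPGroup 2 D) →
      IsChain (· ≤ ·) (d : Set (Subgroup G)) → ∀ a ∈ IrrS (stab d), IsIntegral ℤ (omF F a) ∧
        (labF M a = labF M χ → red M (omF F a) = 1) ∧
        (labF M a ≠ labF M χ → red M (omF F a) = 0)) : (4 : ℤ) ∣ altSum 2 M χ := by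
  classical
  have : Fact (Nat.Prime 2) := ⟨Nat.prime_two⟩
  have hMt : M ≠ ⊤ := Ideal.IsMaximal.ne_top inferInstance
  have hnt : Nontrivial (FF M) := Ideal.Quotient.nontrivial_iff.2 hMt
  have h1 := num 2 M hM G hO 4 F [F] hF hWi (by
    intro h hh
    have : h = F := by simpa using hh
    subst this
    exact ⟨hF, hWi⟩) hDV
  have h2 : (fun a : G → ℂ => omF F a * (([F] : List (G → ℂ)).map fun h => omF h a).prod) =
      fun a => omF F a ^ 2 := by
    funext a
    simp only [List.map_cons, List.map_nil, List.prod_cons, List.prod_nil]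
    ring
  rw [h2] at h1
  have h3 : ((2 ^ 2 : ℕ) : ℤ) ∣ altSum 2 M χ := by
    refine fin_general lda alb hM hO hχ 2 2 1 (by ring) isIntegral_one F
      (by exact_mod_cast h1) ?_
    intro d hd hc
    have h4 := sqr M hM (G → ℂ) (IR (stab d)) (fun a => omF F a)
      (fun a ha => (hom d hd hc a (mem_IR.1 ha)).1)
      (fun a ha => by
        by_cases h : labF M a = labF M χ
        · exact Or.inr ((hom d hd hc a (mem_IR.1 ha)).2.1 h)
        · exact Or.inl ((hom d hd hc a (mem_IR.1 ha)).2.2 h))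
      (fun i => chpH chp (stab d) F hF hW (IR (stab d)) (fun a => mem_IR) i)
    have h5 : (((IR (stab d)).filter fun a => red M (omF F a) = 1).card : ℂ) =
        ∑ a ∈ IR (stab d), (if labF M a = labF M χ then (1 : ℂ) else 0) := by
      rw [Finset.card_filter]
      push_cast
      refine Finset.sum_congr rfl fun a ha => ?_
      obtain ⟨_, q2, q3⟩ := hom d hd hc a (mem_IR.1 ha)
      by_cases h : labF M a = labF M χ
      · rw [if_pos h, if_pos (q2 h)]
      · rw [if_neg h, if_neg]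
        rw [q3 h]
        exact zero_ne_one
    rw [h5] at h4
    rw [one_mul]
    exact_mod_cast h4
  exact_mod_cast h3

end Pool.Agent.PP.ML.H86
end
end -- Pool.Agent.Helper86_ML.Asm

section -- Pool.Agent.Helper86_ML.NN3

/-!
# Squad ML, stage 2, row NN3: nine divides the alternating sum
-/

open scoped BigOperators

noncomputable section

namespace Pool.Agent.PP.ML.H86

open Pool.Agent.Helper51_AWC Pool.Agent.Helper79_WRA Pool.Agent.PP Pool.Agent.Helper98_CC

theorem nn3 (num : NumStmt) (alb : AlbStmt) (tei : TeiStmt) (lda : LdaStmt) (dvr : DvrStmt)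
    (chp : ChpStmt2) (cub : CubStmt) (lam : LamStmt) (reg : RegStmt) : Nn3Stmt := by
  intro M hMx h3 G _ _ hO f hf hpos hDf χ hχ hres
  have hp : Fact (Nat.Prime 3) := ⟨Nat.prime_three⟩
  obtain ⟨F, hFc, hFW, hFi, hFr, hF0⟩ := H27.lift (ℓ := 3) (M := M) tei h3
    (H27.zz_cl (ℓ := 3) (M := M) hf.1.1)
  refine asm3 num alb lda chp cub M h3 hO hχ F hFc hFW hFi (fun g hg => ?_)
    (fun d hd hc a ha => ?_)
  · exact (H27.zz_ne (ℓ := 3) (M := M) dvr reg h3 hf hDf g (hF0 g hg)).1 rfl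
  · exact H27.red_omF (ℓ := 3) (M := M) lam h3 hf hpos hχ hres hFc hFi hFr hd hc ha

end Pool.Agent.PP.ML.H86
end
end -- Pool.Agent.Helper86_ML.NN3
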