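import Pool.Agent.Helper66_ML.Stmts2

/-!
# Merged copies (generated) of the modules

* `Pool.Agent.Helper35_ML.Cub`
* `Pool.Agent.Helper51_ML.LIM`
* `Pool.Agent.Helper90_ML.Lda`
* `Pool.Agent.Helper90_ML.Num`
-/

set_option autoImplicit false

section -- Pool.Agent.Helper35_ML.Cub

/-!
# Squad ML, stage 2: `CubStmt` (cubes modulo `9`) and `SqrStmt` (squares modulo `4`)
-/

open scoped BigOperators

noncomputable section

namespace Pool.Agent.PP.ML.H35

open Pool.Agent.Helper51_AWC Pool.Agent.Helper79_WRA Pool.Agent.PP Pool.Agent.Helper98_CC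
open Polynomial

variable {ι : Type}

/-- the reversed product -/
def rv (s : Finset ι) (w : ι → ℂ) : ℂ[X] := ∏ j ∈ s, (1 - C (w j) * X)

theorem coeff_step (a : ℂ) (p : ℂ[X]) (k : ℕ) :
    ((1 - C a * X) * p).coeff (k + 1) = p.coeff (k + 1) - a * p.coeff k := by
  rw [sub_mul, one_mul, coeff_sub, mul_assoc, coeff_C_mul, coeff_X_mul]

theorem coeff_step0 (a : ℂ) (p : ℂ[X]) : ((1 - C a * X) * p).coeff 0 = p.coeff 0 := by
  rw [sub_mul, one_mul, coeff_sub, mul_assoc, coeff_C_mul, coeff_X_mul_zero, mul_zero, sub_zero]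

theorem rv_insert [DecidableEq ι] {a : ι} {s : Finset ι} (ha : a ∉ s) (w : ι → ℂ) :
    rv (insert a s) w = (1 - C (w a) * X) * rv s w := by
  rw [rv, Finset.prod_insert ha, rv]

theorem rv_zero (s : Finset ι) (w : ι → ℂ) : (rv s w).coeff 0 = 1 := by
  classical
  induction s using Finset.induction_on with
  | empty => rw [rv, Finset.prod_empty, coeff_one_zero]
  | insert a s ha ih => rw [rv_insert ha, coeff_step0, ih]

/-- Newton's formula for the squares -/
theorem newton2 (s : Finset ι) (w : ι → ℂ) :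
    ∑ j ∈ s, w j ^ 2 = (rv s w).coeff 1 ^ 2 - 2 * (rv s w).coeff 2 := by
  classical
  induction s using Finset.induction_on with
  | empty =>
    rw [rv, Finset.prod_empty, Finset.sum_empty, coeff_one, coeff_one]
    norm_num
  | insert a s ha ih =>
    rw [Finset.sum_insert ha, ih, rv_insert ha, coeff_step (w a) _ 0, coeff_step (w a) _ 1, rv_zero]
    ring

/-- Newton's formula for the cubes -/
theorem newton3 (s : Finset ι) (w : ι → ℂ) :
    ∑ j ∈ s, w j ^ 3 = -(rv s w).coeff 1 ^ 3 + 3 * ((rv s w).coeff 1 * (rv s w).coeff 2)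
      - 3 * (rv s w).coeff 3 := by
  classical
  induction s using Finset.induction_on with
  | empty =>
    rw [rv, Finset.prod_empty, Finset.sum_empty, coeff_one, coeff_one, coeff_one]
    norm_num
  | insert a s ha ih =>
    rw [Finset.sum_insert ha, ih, rv_insert ha, coeff_step (w a) _ 0, coeff_step (w a) _ 1,
      coeff_step (w a) _ 2, rv_zero]
    ring

theorem rv_rev (s : Finset ι) (w : ι → ℂ) :
    rv s w = (∏ j ∈ s, (X - C (w j))).reverse := by
  classical
  induction s using Finset.induction_on with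
  | empty =>
    rw [rv, Finset.prod_empty, Finset.prod_empty]
    rw [← C_1, reverse_C]
  | insert a s ha ih =>
    rw [rv_insert ha, Finset.prod_insert ha, reverse_mul_of_domain, ih]
    have h : (X - C (w a)).reverse = 1 - C (w a) * X := by
      have h1 : (X - C (w a) : ℂ[X]) = 1 * X + C (-w a) := by rw [C_neg, one_mul, sub_eq_add_neg]
      ext k
      rw [coeff_reverse, natDegree_X_sub_C]
      rcases k with _ | _ | k
      · rw [revAt_le (Nat.zero_le _)]
        simp [coeff_X, coeff_C]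
      · rw [revAt_le (le_refl _)]
        simp [coeff_X, coeff_C, coeff_one]
      · rw [revAt_eq_self_of_lt (by omega)]
        simp [coeff_X, coeff_C, coeff_one]
    rw [h]

theorem rv_mem {ℓ : ℕ} (s : Finset ι) (w : ι → ℂ)
    (h : ∀ i : ℕ, (∏ j ∈ s, (X - C (w j))).coeff i ∈ W0 ℓ) (k : ℕ) :
    (rv s w).coeff k ∈ W0 ℓ := by
  rw [rv_rev, coeff_reverse]
  exact h _

theorem rv_red (M : Ideal (integralClosure ℤ ℂ)) (s : Finset ι) (w c : ι → ℂ)
    (hw : ∀ i ∈ s, IsIntegral ℤ (w i)) (hc : ∀ i ∈ s, IsIntegral ℤ (c i))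
    (h : ∀ i ∈ s, red M (w i) = red M (c i)) (k : ℕ) :
    IsIntegral ℤ ((rv s w).coeff k) ∧ IsIntegral ℤ ((rv s c).coeff k) ∧
      red M ((rv s w).coeff k) = red M ((rv s c).coeff k) := by
  classical
  induction s using Finset.induction_on generalizing k with
  | empty =>
    rw [rv, rv, Finset.prod_empty, Finset.prod_empty, coeff_one]
    have : IsIntegral ℤ (if k = 0 then (1 : ℂ) else 0) := by
      split_ifs
      · exact isIntegral_one
      · exact isIntegral_zero
    exact ⟨this, this, rfl⟩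
  | insert a s ha ih =>
    have ih' := fun k => ih (fun i hi => hw i (Finset.mem_insert_of_mem hi))
      (fun i hi => hc i (Finset.mem_insert_of_mem hi))
      (fun i hi => h i (Finset.mem_insert_of_mem hi)) k
    have hwa := hw a (Finset.mem_insert_self _ _)
    have hca := hc a (Finset.mem_insert_self _ _)
    rw [rv_insert ha, rv_insert ha]
    rcases k with _ | k
    · rw [coeff_step0, coeff_step0]
      exact ih' 0
    · rw [coeff_step, coeff_step]
      obtain ⟨a1, a2, a3⟩ := ih' (k + 1)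
      obtain ⟨b1, b2, b3⟩ := ih' k
      refine ⟨a1.sub (hwa.mul b1), a2.sub (hca.mul b2), ?_⟩
      rw [sub_eq_add_neg, sub_eq_add_neg, ← neg_mul, ← neg_mul, red_add a1 (hwa.neg.mul b1),
        red_add a2 (hca.neg.mul b2), red_mul hwa.neg b1, red_mul hca.neg b2, a3, b3]
      have : red M (-w a) = red M (-c a) := by
        rw [← neg_one_mul, ← neg_one_mul (c a), red_mul isIntegral_one.neg hwa,
          red_mul isIntegral_one.neg hca, h a (Finset.mem_insert_self _ _)]
      rw [this]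

theorem W0_int {ℓ : ℕ} (z : ℤ) : (z : ℂ) ∈ W0 ℓ := intCast_mem _ _

theorem rv_int {ℓ : ℕ} (s : Finset ι) (c : ι → ℂ) (hc : ∀ i ∈ s, c i ∈ W0 ℓ) (k : ℕ) :
    (rv s c).coeff k ∈ W0 ℓ := by
  classical
  induction s using Finset.induction_on generalizing k with
  | empty =>
    rw [rv, Finset.prod_empty, coeff_one]
    split_ifs
    · exact one_mem _
    · exact zero_mem _
  | insert a s ha ih =>
    have ih' := fun k => ih (fun i hi => hc i (Finset.mem_insert_of_mem hi)) k
    rw [rv_insert ha]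
    rcases k with _ | k
    · rw [coeff_step0]
      exact ih' 0
    · rw [coeff_step]
      exact sub_mem (ih' _) (mul_mem (hc a (Finset.mem_insert_self _ _)) (ih' _))

theorem LD_self (ℓ : ℕ) (M : Ideal (integralClosure ℤ ℂ)) [M.IsMaximal] : LD M ℓ (ℓ : ℂ) := by
  refine ⟨1, 1, isIntegral_one, ?_, isIntegral_one, by ring⟩
  rw [red_one]
  have : Nontrivial (FF M) := Ideal.Quotient.nontrivial_iff.2 (Ideal.IsMaximal.ne_top inferInstance)
  exact one_ne_zero

/-- the difference of the coefficients is divisible by `ℓ` -/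
theorem LD_coeff (tei : TeiStmt) (ℓ : ℕ) [Fact ℓ.Prime] (M : Ideal (integralClosure ℤ ℂ))
    [M.IsMaximal] (hM : (ℓ : integralClosure ℤ ℂ) ∈ M) (s : Finset ι) (w c : ι → ℂ)
    (hw : ∀ i ∈ s, IsIntegral ℤ (w i)) (hc : ∀ i ∈ s, IsIntegral ℤ (c i))
    (hcW : ∀ i ∈ s, c i ∈ W0 ℓ)
    (h : ∀ i ∈ s, red M (w i) = red M (c i))
    (hP : ∀ i : ℕ, (∏ j ∈ s, (X - C (w j))).coeff i ∈ W0 ℓ) (k : ℕ) :
    LD M ℓ ((rv s w).coeff k - (rv s c).coeff k) := by
  obtain ⟨h1, h2, h3⟩ := rv_red M s w c hw hc h k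
  apply (tei ℓ M hM).2.2 _ (sub_mem (rv_mem s w hP k) (rv_int s c hcW k))
  rw [sub_eq_add_neg, red_add h1 h2.neg, h3, ← red_add h2 h2.neg, add_neg_cancel, red_zero]

/-- CUB: cubes modulo `9`. -/
theorem cub (tei : TeiStmt) (lda : LdaStmt) : CubStmt := by
  classical
  intro M _ hM ι s w hw hr hP
  have : Fact (Nat.Prime 3) := ⟨Nat.prime_three⟩
  let c : ι → ℂ := fun i => if red M (w i) = -1 then -1 else 0
  have hc : ∀ i ∈ s, IsIntegral ℤ (c i) := by
    intro i _
    by_cases h : red M (w i) = -1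
    · simp only [c, if_pos h]; exact isIntegral_one.neg
    · simp only [c, if_neg h]; exact isIntegral_zero
  have hcW : ∀ i ∈ s, c i ∈ W0 3 := by
    intro i _
    by_cases h : red M (w i) = -1
    · simp only [c, if_pos h]; exact neg_mem (one_mem _)
    · simp only [c, if_neg h]; exact zero_mem _
  have hred1 : red M (-1) = -1 := by
    have := red_add (M := M) isIntegral_one isIntegral_one.neg
    rw [add_neg_cancel, red_zero, red_one] at this
    exact (neg_eq_of_add_eq_zero_right this.symm).symm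
  have h : ∀ i ∈ s, red M (w i) = red M (c i) := by
    intro i hi
    by_cases h : red M (w i) = -1
    · simp only [c, if_pos h]; rw [h, hred1]
    · simp only [c, if_neg h]; rw [red_zero]
      rcases hr i hi with h' | h'
      · exact h'
      · exact absurd h' h
  obtain ⟨Ladd, Lmul, Lint, -, -⟩ := lda 3 M hM
  have L3 : LD M 3 (3 : ℂ) := by
    have := LD_self 3 M
    rwa [Nat.cast_ofNat] at this
  have D := fun k => LD_coeff tei 3 M hM s w c hw hc hcW h hP k
  obtain ⟨i1, j1, -⟩ := rv_red M s w c hw hc h 1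
  obtain ⟨i2, j2, -⟩ := rv_red M s w c hw hc h 2
  have hsum : ∑ i ∈ s, c i ^ 3 = -((s.filter fun i => red M (w i) = -1).card : ℂ) := by
    rw [Finset.card_filter, Nat.cast_sum, ← Finset.sum_neg_distrib]
    apply Finset.sum_congr rfl
    intro i _
    by_cases h : red M (w i) = -1
    · simp only [c, if_pos h]; norm_num
    · simp only [c, if_neg h]; norm_num
  have e : ∑ i ∈ s, w i ^ 3 + ((s.filter fun i => red M (w i) = -1).card : ℂ)
      = ∑ i ∈ s, w i ^ 3 - ∑ i ∈ s, c i ^ 3 := by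
    rw [hsum]; ring
  have d1 := D 1
  have d2 := D 2
  have d3 := D 3
  set a1 := (rv s w).coeff 1
  set a2 := (rv s w).coeff 2
  set a3 := (rv s w).coeff 3
  set b1 := (rv s c).coeff 1
  set b2 := (rv s c).coeff 2
  set b3 := (rv s c).coeff 3
  have key : LD M (3 * 3) (∑ i ∈ s, w i ^ 3 - ∑ i ∈ s, c i ^ 3) := by
    rw [newton3, newton3]
    have t1 : LD M (3 * 3) ((-(b1 ^ 2)) * (3 * (a1 - b1))) :=
      Lint _ _ _ (Lmul 3 3 _ _ L3 d1) (j1.pow 2).neg
    have t2 : LD M (3 * 3) ((-(a1 * b1)) * (3 * (a1 - b1))) :=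
      Lint _ _ _ (Lmul 3 3 _ _ L3 d1) (i1.mul j1).neg
    have t3 : LD M (3 * 3) ((-(a1 - b1)) * ((a1 - b1) * (a1 - b1))) :=
      Lint _ _ _ (Lmul 3 3 _ _ d1 d1) (i1.sub j1).neg
    have t4 : LD M (3 * 3) (a1 * (3 * (a2 - b2))) := Lint _ _ _ (Lmul 3 3 _ _ L3 d2) i1
    have t5 : LD M (3 * 3) (b2 * (3 * (a1 - b1))) := Lint _ _ _ (Lmul 3 3 _ _ L3 d1) j2
    have t6 : LD M (3 * 3) ((-1) * (3 * (a3 - b3))) :=
      Lint _ _ _ (Lmul 3 3 _ _ L3 d3) isIntegral_one.neg
    have t7 : LD M (3 * 3) (b1 ^ 2 * (3 * (a1 - b1))) :=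
      Lint _ _ _ (Lmul 3 3 _ _ L3 d1) (j1.pow 2)
    have t := Ladd _ _ _ (Ladd _ _ _ (Ladd _ _ _ (Ladd _ _ _ t2 t3) t4) t5) t6
    have e' : -a1 ^ 3 + 3 * (a1 * a2) - 3 * a3 - (-b1 ^ 3 + 3 * (b1 * b2) - 3 * b3)
        = (-(a1 * b1)) * (3 * (a1 - b1)) + (-(a1 - b1)) * ((a1 - b1) * (a1 - b1))
          + a1 * (3 * (a2 - b2)) + b2 * (3 * (a1 - b1)) + (-1) * (3 * (a3 - b3)) := by
      ring
    rw [e']
    exact t
  rw [e]
  exact key

/-- SQR: squares modulo `4`. -/
theorem sqr (tei : TeiStmt) (lda : LdaStmt) : SqrStmt := by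
  classical
  intro M _ hM ι s w hw hr hP
  have : Fact (Nat.Prime 2) := ⟨Nat.prime_two⟩
  let c : ι → ℂ := fun i => if red M (w i) = 1 then 1 else 0
  have hc : ∀ i ∈ s, IsIntegral ℤ (c i) := by
    intro i _
    by_cases h : red M (w i) = 1
    · simp only [c, if_pos h]; exact isIntegral_one
    · simp only [c, if_neg h]; exact isIntegral_zero
  have hcW : ∀ i ∈ s, c i ∈ W0 2 := by
    intro i _
    by_cases h : red M (w i) = 1
    · simp only [c, if_pos h]; exact one_mem _
    · simp only [c, if_neg h]; exact zero_mem _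
  have h : ∀ i ∈ s, red M (w i) = red M (c i) := by
    intro i hi
    by_cases h : red M (w i) = 1
    · simp only [c, if_pos h]; rw [h, red_one]
    · simp only [c, if_neg h]; rw [red_zero]
      rcases hr i hi with h' | h'
      · exact h'
      · exact absurd h' h
  obtain ⟨Ladd, Lmul, Lint, -, -⟩ := lda 2 M hM
  have L2 : LD M 2 (2 : ℂ) := by
    have := LD_self 2 M
    rwa [Nat.cast_ofNat] at this
  have D := fun k => LD_coeff tei 2 M hM s w c hw hc hcW h hP k
  obtain ⟨i1, j1, -⟩ := rv_red M s w c hw hc h 1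
  have hsum : ∑ i ∈ s, c i ^ 2 = ((s.filter fun i => red M (w i) = 1).card : ℂ) := by
    rw [Finset.card_filter, Nat.cast_sum]
    apply Finset.sum_congr rfl
    intro i _
    by_cases h : red M (w i) = 1
    · simp only [c, if_pos h]; norm_num
    · simp only [c, if_neg h]; norm_num
  rw [← hsum]
  have d1 := D 1
  have d2 := D 2
  set a1 := (rv s w).coeff 1
  set a2 := (rv s w).coeff 2
  set b1 := (rv s c).coeff 1
  set b2 := (rv s c).coeff 2
  have key : LD M (2 * 2) (∑ i ∈ s, w i ^ 2 - ∑ i ∈ s, c i ^ 2) := by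
    rw [newton2, newton2]
    have t1 : LD M (2 * 2) (b1 * (2 * (a1 - b1))) := Lint _ _ _ (Lmul 2 2 _ _ L2 d1) j1
    have t2 : LD M (2 * 2) ((a1 - b1) * (a1 - b1)) := Lmul 2 2 _ _ d1 d1
    have t3 : LD M (2 * 2) ((-1) * (2 * (a2 - b2))) :=
      Lint _ _ _ (Lmul 2 2 _ _ L2 d2) isIntegral_one.neg
    have t := Ladd _ _ _ (Ladd _ _ _ t1 t2) t3
    have e' : a1 ^ 2 - 2 * a2 - (b1 ^ 2 - 2 * b2)
        = b1 * (2 * (a1 - b1)) + (a1 - b1) * (a1 - b1) + (-1) * (2 * (a2 - b2)) := by
      ring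
    rw [e']
    exact t
  exact key

end Pool.Agent.PP.ML.H35
end
end -- Pool.Agent.Helper35_ML.Cub

section -- Pool.Agent.Helper51_ML.LIM

/-!
Squad ML, row LIM: the `ℓ`-power powers of algebraic integers.
-/

open scoped BigOperators

noncomputable section

namespace Pool.Agent.PP.ML.H51

open Pool.Agent.Helper51_AWC Pool.Agent.Helper79_WRA Pool.Agent.PP Pool.Agent.Helper98_CC

variable {ℓ : ℕ} [hℓ : Fact ℓ.Prime] {M : Ideal (integralClosure ℤ ℂ)} [hM : M.IsMaximal]

theorem int_isInt (a : ℤ) : IsIntegral ℤ (a : ℂ) := isIntegral_algebraMap (R := ℤ) (A := ℂ) (x := a)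

theorem red_int_ne (hl : (ℓ : integralClosure ℤ ℂ) ∈ M) {a : ℤ} (ha : ¬ (ℓ : ℤ) ∣ a) :
    red M (a : ℂ) ≠ 0 := by
  intro h0
  rw [red_of (int_isInt a), Ideal.Quotient.eq_zero_iff_mem] at h0
  have e : (⟨(a : ℂ), int_isInt a⟩ : integralClosure ℤ ℂ) = ((a : ℤ) : integralClosure ℤ ℂ) := by
    apply Subtype.ext; simp
  rw [e] at h0
  have hc : IsCoprime (ℓ : ℤ) a := by
    rw [Prime.coprime_iff_not_dvd (Nat.prime_iff_prime_int.mp hℓ.out)]
    exact ha
  obtain ⟨x, y, hxy⟩ := hc
  have : (1 : integralClosure ℤ ℂ) ∈ M := by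
    have h1 : (1 : integralClosure ℤ ℂ) =
        ((x : ℤ) : integralClosure ℤ ℂ) * (ℓ : integralClosure ℤ ℂ) +
          ((y : ℤ) : integralClosure ℤ ℂ) * ((a : ℤ) : integralClosure ℤ ℂ) := by
      have := congrArg (fun t : ℤ => (t : integralClosure ℤ ℂ)) hxy
      push_cast at this
      rw [this]
    rw [h1]
    exact M.add_mem (M.mul_mem_left _ hl) (M.mul_mem_left _ h0)
  exact hM.ne_top ((Ideal.eq_top_iff_one M).mpr this)

theorem aeval_int {z : ℂ} (hz : IsIntegral ℤ z) (p : Polynomial ℤ) :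
    IsIntegral ℤ (Polynomial.aeval z p) := by
  induction p using Polynomial.induction_on' with
  | add p q hp hq => rw [map_add]; exact hp.add hq
  | monomial n a =>
    rw [Polynomial.aeval_monomial]
    exact (int_isInt a).mul (hz.pow n)

theorem horner (hl : (ℓ : integralClosure ℤ ℂ) ∈ M) {z : ℂ} (hz : IsIntegral ℤ z)
    (h0 : red M z = 0) : ∀ (d : ℕ) (p : Polynomial ℤ), p.natDegree ≤ d →
    (∃ i, ¬ (ℓ : ℤ) ∣ p.coeff i) →
    ∃ (i : ℕ) (u v : ℂ), IsIntegral ℤ u ∧ red M u ≠ 0 ∧ IsIntegral ℤ v ∧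
      Polynomial.aeval z p = u * z ^ i + ℓ * v := by
  intro d
  induction d with
  | zero =>
    intro p hp ⟨i, hi⟩
    have hpc : p = Polynomial.C (p.coeff 0) := Polynomial.eq_C_of_natDegree_le_zero hp
    have hi0 : ¬ (ℓ : ℤ) ∣ p.coeff 0 := by
      rcases Nat.eq_zero_or_pos i with rfl | hpos
      · exact hi
      · exfalso
        apply hi
        rw [hpc, Polynomial.coeff_C, if_neg (by omega)]
        exact dvd_zero _
    refine ⟨0, ((p.coeff 0 : ℤ) : ℂ), 0, int_isInt _, red_int_ne hl hi0, isIntegral_zero, ?_⟩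
    rw [hpc, Polynomial.aeval_C]
    simp
  | succ d ih =>
    intro p hp ⟨i, hi⟩
    have hdec := Polynomial.divX_mul_X_add p
    have hev : Polynomial.aeval z p =
        Polynomial.aeval z p.divX * z + ((p.coeff 0 : ℤ) : ℂ) := by
      conv_lhs => rw [← hdec]
      rw [map_add, map_mul, Polynomial.aeval_X, Polynomial.aeval_C]
      simp
    by_cases hc : (ℓ : ℤ) ∣ p.coeff 0
    · obtain ⟨c, hc⟩ := hc
      have hi' : ∃ j, ¬ (ℓ : ℤ) ∣ p.divX.coeff j := by
        rcases Nat.eq_zero_or_pos i with rfl | hpos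
        · exact absurd ⟨c, hc⟩ hi
        · refine ⟨i - 1, ?_⟩
          rw [Polynomial.coeff_divX]
          have : i - 1 + 1 = i := by omega
          rw [this]; exact hi
      obtain ⟨j, u, v, hu, hu0, hv, h⟩ := ih p.divX
        (by rw [Polynomial.natDegree_divX_eq_natDegree_tsub_one]; omega) hi'
      refine ⟨j + 1, u, v * z + c, hu, hu0, (hv.mul hz).add (int_isInt c), ?_⟩
      rw [hev, h, hc]
      push_cast
      ring
    · refine ⟨0, Polynomial.aeval z p, 0, aeval_int hz p, ?_, isIntegral_zero, by simp⟩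
      rw [hev, red_add ((aeval_int hz _).mul hz) (int_isInt _), red_mul (aeval_int hz _) hz, h0,
        mul_zero, zero_add]
      exact red_int_ne hl hc

theorem ld_start (hl : (ℓ : integralClosure ℤ ℂ) ∈ M) {z : ℂ} (hz : IsIntegral ℤ z)
    (h0 : red M z = 0) : ∃ i : ℕ, LD M ℓ (z ^ i) := by
  obtain ⟨p, hp, he⟩ := hz
  have he' : Polynomial.aeval z p = 0 := he
  obtain ⟨i, u, v, hu, hu0, hv, h⟩ := horner (ℓ := ℓ) hl ⟨p, hp, he⟩ h0 p.natDegree p le_rfl
    ⟨p.natDegree, by
      have : p.coeff p.natDegree = 1 := hp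
      rw [this]
      intro hd
      have h1 := Int.eq_one_of_dvd_one (by positivity) hd
      have h2 : ℓ = 1 := by exact_mod_cast h1
      exact hℓ.out.one_lt.ne' h2⟩
  refine ⟨i, u, -v, hu, hu0, hv.neg, ?_⟩
  rw [he'] at h
  linear_combination -h

omit hℓ hM in
theorem ld_mono {a b : ℕ} (hab : a ≤ b) {z : ℂ} (h : LD M (ℓ ^ b) z) : LD M (ℓ ^ a) z := by
  obtain ⟨u, v, hu, hu0, hv, e⟩ := h
  refine ⟨u, ℓ ^ (b - a) * v, hu, hu0, ?_, ?_⟩
  · have : IsIntegral ℤ (((ℓ ^ (b - a) : ℤ) : ℂ) * v) := (int_isInt _).mul hv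
    push_cast at this
    exact this
  · rw [e]
    have : (ℓ : ℂ) ^ b = ℓ ^ a * ℓ ^ (b - a) := by rw [← pow_add]; congr 1; omega
    push_cast
    rw [this]; ring

theorem ld_self {v : ℂ} (hv : IsIntegral ℤ v) (m : ℕ) : LD M m (m * v) :=
  ⟨1, v, isIntegral_one, by rw [red_one]; exact one_ne_zero, hv, by ring⟩

/-- LIM. -/
theorem lim (hlda : LdaStmt) : LimStmt := by
  intro ℓ hℓ M hM hl n z hz
  obtain ⟨hadd, hmul, hsm, -, -⟩ := hlda ℓ M hl
  have hpow : ∀ (x : ℂ), LD M ℓ x → ∀ k : ℕ, LD M (ℓ ^ k) (x ^ k) := by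
    intro x hx k
    induction k with
    | zero =>
      rw [pow_zero, pow_zero]
      have := ld_self (M := M) isIntegral_one 1
      simpa using this
    | succ k ih =>
      rw [pow_succ, pow_succ]
      exact hmul _ _ _ _ ih hx
  have hsub : ∀ (m : ℕ) (x w : ℂ), LD M m x → IsIntegral ℤ w → LD M m (x * w) := by
    intro m x w h1 h2
    rw [mul_comm]; exact hsm _ _ _ h1 h2
  constructor
  · intro h0
    obtain ⟨i, hi⟩ := ld_start (ℓ := ℓ) hl hz h0
    refine ⟨i * n, fun N hN => ?_⟩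
    have h1 : i * n ≤ ℓ ^ N := hN.trans (Nat.lt_pow_self hℓ.out.one_lt).le
    have h2 := hpow _ hi n
    rw [← pow_mul] at h2
    have h3 : z ^ ℓ ^ N = z ^ (ℓ ^ N - i * n) * z ^ (i * n) := by
      rw [← pow_add]; congr 1; omega
    rw [h3]
    exact hsm _ _ _ h2 (hz.pow _)
  · intro h1
    have hm : IsIntegral ℤ (z - 1) := hz.sub isIntegral_one
    have hm0 : red M (z - 1) = 0 := by
      have h2 := red_add (M := M) hm isIntegral_one
      rw [sub_add_cancel, h1, red_one] at h2
      have : red M (z - 1) = red M (z - 1) + 1 - 1 := by ring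
      rw [this, ← h2, sub_self]
    obtain ⟨i, hi⟩ := ld_start (ℓ := ℓ) hl hm hm0
    have hst : LD M ℓ (z ^ ℓ ^ i - 1) := by
      obtain ⟨r, hr⟩ := exists_add_pow_prime_pow_eq hℓ.out
        (⟨z - 1, hm⟩ : integralClosure ℤ ℂ) 1 i
      have hr' := congrArg (fun t : integralClosure ℤ ℂ => (t : ℂ)) hr
      simp only [Subalgebra.coe_add, Subalgebra.coe_pow, Subalgebra.coe_mul, Subalgebra.coe_one,
        one_pow, sub_add_cancel] at hr'
      have h2 : z ^ ℓ ^ i - 1 = (z - 1) ^ (ℓ ^ i - i) * (z - 1) ^ i +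
          ℓ * ((z - 1) * (r : ℂ)) := by
        rw [← pow_add]
        have : ℓ ^ i - i + i = ℓ ^ i := by
          have := (Nat.lt_pow_self hℓ.out.one_lt : i < ℓ ^ i); omega
        rw [this, hr']
        push_cast
        ring
      rw [h2]
      exact hadd _ _ _ (hsm _ _ _ hi (hm.pow _)) (ld_self (hm.mul r.2) ℓ)
    have hstep : ∀ (a : ℕ) (y : ℂ), IsIntegral ℤ y → LD M (ℓ ^ (a + 1)) (y - 1) →
        LD M (ℓ ^ (a + 2)) (y ^ ℓ - 1) := by
      intro a y hy h
      have hone : LD M ℓ (y - 1) := by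
        have := ld_mono (ℓ := ℓ) (a := 1) (b := a + 1) (by omega) h
        rwa [pow_one] at this
      have hg : LD M ℓ (∑ j ∈ Finset.range ℓ, y ^ j) := by
        have e : (∑ j ∈ Finset.range ℓ, y ^ j) =
            (∑ j ∈ Finset.range ℓ, (∑ t ∈ Finset.range j, y ^ t)) * (y - 1) + ℓ * 1 := by
          rw [Finset.sum_mul, mul_one]
          have : ∀ j ∈ Finset.range ℓ, y ^ j = (∑ t ∈ Finset.range j, y ^ t) * (y - 1) + 1 := by
            intro j _
            rw [geom_sum_mul]; ring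
          rw [Finset.sum_congr rfl this, Finset.sum_add_distrib]
          simp
        rw [e]
        refine hadd _ _ _ (hsm _ _ _ hone ?_) (ld_self isIntegral_one ℓ)
        exact IsIntegral.sum _ fun j _ => IsIntegral.sum _ fun t _ => hy.pow t
      have e2 : y ^ ℓ - 1 = (y - 1) * ∑ j ∈ Finset.range ℓ, y ^ j := by
        rw [mul_comm, geom_sum_mul]
      rw [e2, show ℓ ^ (a + 2) = ℓ ^ (a + 1) * ℓ from pow_succ _ _]
      exact hmul _ _ _ _ h hg
    have hall : ∀ a : ℕ, LD M (ℓ ^ (a + 1)) (z ^ ℓ ^ (i + a) - 1) := by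
      intro a
      induction a with
      | zero => simpa using hst
      | succ a ih =>
        have := hstep a _ (hz.pow _) ih
        rw [← pow_mul, ← pow_succ] at this
        exact this
    refine ⟨i + n, fun N hN => ?_⟩
    have h3 := hall (N - i)
    have h4 : i + (N - i) = N := by omega
    rw [h4] at h3
    exact ld_mono (ℓ := ℓ) (by omega) h3

end Pool.Agent.PP.ML.H51
end
end -- Pool.Agent.Helper51_ML.LIM

section -- Pool.Agent.Helper90_ML.Lda

/-!
# ML stage 2, row LDA: elementary properties of the local divisibility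
-/

open scoped BigOperators

set_option linter.all false

noncomputable section

namespace Pool.Agent.PP.ML.H90

open Pool.Agent.Helper51_AWC Pool.Agent.Helper79_WRA Pool.Agent.PP Pool.Agent.Helper98_CC

section
variable {ℓ : ℕ} [Fact ℓ.Prime] {M : Ideal (integralClosure ℤ ℂ)} [M.IsMaximal]

theorem int_nat (t : ℕ) : IsIntegral ℤ (t : ℂ) := by
  have := isIntegral_algebraMap (R := ℤ) (A := ℂ) (x := (t : ℤ))
  simpa using this

theorem int_int (t : ℤ) : IsIntegral ℤ (t : ℂ) := by
  have := isIntegral_algebraMap (R := ℤ) (A := ℂ) (x := t)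
  simpa using this

theorem red_nat (t : ℕ) : red M (t : ℂ) = (t : FF M) := by
  rw [red_of (M := M) (int_nat t)]
  have : (⟨(t : ℂ), int_nat t⟩ : integralClosure ℤ ℂ) = (t : integralClosure ℤ ℂ) := by
    apply Subtype.ext
    simp
  rw [this, map_natCast]

theorem red_int (t : ℤ) : red M (t : ℂ) = (t : FF M) := by
  rw [red_of (M := M) (int_int t)]
  have : (⟨(t : ℂ), int_int t⟩ : integralClosure ℤ ℂ) = (t : integralClosure ℤ ℂ) := by
    apply Subtype.ext
    simp
  rw [this, map_intCast]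

theorem ell_zero (hl : (ℓ : integralClosure ℤ ℂ) ∈ M) : ((ℓ : ℕ) : FF M) = 0 := by
  have h := Ideal.Quotient.eq_zero_iff_mem.mpr hl
  rwa [map_natCast] at h

theorem int_ne (hl : (ℓ : integralClosure ℤ ℂ) ∈ M) (t : ℤ) (ht : ¬ (ℓ : ℤ) ∣ t) :
    ((t : ℤ) : FF M) ≠ 0 := by
  letI := Ideal.Quotient.field M
  intro h0
  have hc : IsCoprime (ℓ : ℤ) t := (Nat.prime_iff_prime_int.mp (Fact.out : ℓ.Prime)).coprime_iff_not_dvd.mpr ht
  obtain ⟨a, b, hab⟩ := hc
  have h1 := congrArg (fun n : ℤ => (n : FF M)) hab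
  simp only [Int.cast_add, Int.cast_mul, h0, mul_zero, add_zero, Int.cast_natCast, ell_zero hl,
    Int.cast_one] at h1
  exact zero_ne_one h1

theorem ld_add {m : ℕ} {z w : ℂ} (hz : LD M m z) (hw : LD M m w) : LD M m (z + w) := by
  letI := Ideal.Quotient.field M
  obtain ⟨u, v, hu, hur, hv, h⟩ := hz
  obtain ⟨u', v', hu', hur', hv', h'⟩ := hw
  refine ⟨u * u', u' * v + u * v', hu.mul hu', ?_, (hu'.mul hv).add (hu.mul hv'), ?_⟩
  · rw [red_mul (M := M) hu hu']
    exact mul_ne_zero hur hur'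
  · linear_combination u' * h + u * h'

theorem ld_mul {m n : ℕ} {z w : ℂ} (hz : LD M m z) (hw : LD M n w) : LD M (m * n) (z * w) := by
  letI := Ideal.Quotient.field M
  obtain ⟨u, v, hu, hur, hv, h⟩ := hz
  obtain ⟨u', v', hu', hur', hv', h'⟩ := hw
  refine ⟨u * u', v * v', hu.mul hu', ?_, hv.mul hv', ?_⟩
  · rw [red_mul (M := M) hu hu']
    exact mul_ne_zero hur hur'
  · push_cast
    linear_combination u' * w * h + (m : ℂ) * v * h'

theorem ld_int_mul {m : ℕ} {z w : ℂ} (hz : LD M m z) (hw : IsIntegral ℤ w) : LD M m (w * z) := by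
  obtain ⟨u, v, hu, hur, hv, h⟩ := hz
  refine ⟨u, w * v, hu, hur, hw.mul hv, ?_⟩
  linear_combination w * h

theorem ld_cancel (hl : (ℓ : integralClosure ℤ ℂ) ∈ M) {m : ℕ} {z : ℂ} {t : ℕ} (ht : ¬ ℓ ∣ t)
    (hz : LD M m (t * z)) : LD M m z := by
  letI := Ideal.Quotient.field M
  obtain ⟨u, v, hu, hur, hv, h⟩ := hz
  refine ⟨u * t, v, hu.mul (int_nat t), ?_, hv, by rw [← h]; ring⟩
  rw [red_mul (M := M) hu (int_nat t), red_nat]
  refine mul_ne_zero hur ?_
  have := int_ne hl (t : ℤ) (by exact_mod_cast ht)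
  simpa using this

theorem ld_int (hl : (ℓ : integralClosure ℤ ℂ) ∈ M) (n : ℕ) : ∀ (z : ℤ),
    LD M (ℓ ^ n) (z : ℂ) → ((ℓ ^ n : ℕ) : ℤ) ∣ z := by
  letI := Ideal.Quotient.field M
  have hp : (ℓ : ℕ).Prime := Fact.out
  induction n with
  | zero => intro z _; simp
  | succ n ih =>
    intro z hz
    obtain ⟨u, v, hu, hur, hv, h⟩ := hz
    have hdvd : (ℓ : ℤ) ∣ z := by
      by_contra hnd
      have h1 := congrArg (red M) h
      rw [red_mul (M := M) hu (int_int z), red_int,
        red_mul (M := M) (int_nat _) hv, red_nat] at h1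
      push_cast at h1
      rw [ell_zero hl, zero_pow (Nat.succ_ne_zero n), zero_mul] at h1
      exact mul_ne_zero hur (int_ne hl z hnd) h1
    obtain ⟨z', rfl⟩ := hdvd
    have hl0 : (ℓ : ℂ) ≠ 0 := by exact_mod_cast hp.ne_zero
    have h2 : LD M (ℓ ^ n) (z' : ℂ) := by
      refine ⟨u, v, hu, hur, hv, ?_⟩
      apply mul_left_cancel₀ hl0
      push_cast at h ⊢
      rw [pow_succ] at h
      linear_combination h
    have h3 := ih z' h2
    have h4 : ((ℓ ^ (n + 1) : ℕ) : ℤ) = (ℓ : ℤ) * ((ℓ ^ n : ℕ) : ℤ) := by push_cast; ring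
    rw [h4]
    exact mul_dvd_mul_left _ h3

end

/-- LDA. -/
theorem lda : LdaStmt := by
  intro ℓ _ M _ hl
  exact ⟨fun m z w hz hw => ld_add hz hw, fun m n z w hz hw => ld_mul hz hw,
    fun m z w hz hw => ld_int_mul hz hw, fun m z t ht hz => ld_cancel hl ht hz,
    fun n z hz => ld_int hl n z hz⟩

end Pool.Agent.PP.ML.H90
end
end -- Pool.Agent.Helper90_ML.Lda

section -- Pool.Agent.Helper90_ML.Num

/-!
# ML stage 2, row NUM: multilinear expansion
-/

open scoped BigOperators

set_option linter.all false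

noncomputable section

namespace Pool.Agent.PP.ML.H90

open Pool.Agent.Helper51_AWC Pool.Agent.Helper79_WRA Pool.Agent.PP Pool.Agent.Helper98_CC

section
variable {G : Type} [Group G] [Finite G]

theorem altF_eq (ℓ : ℕ) [Fintype (Quotient (chainSetoid ℓ G))] (F : (G → ℂ) → ℂ) :
    altF ℓ F = ∑ q : Quotient (chainSetoid ℓ G), (-1) ^ q.out.length *
      ∑ a ∈ (IrrS_finite (stab q.out.mem)).toFinset, F a := by
  unfold altF
  rw [finsum_eq_sum_of_fintype]
  refine Finset.sum_congr rfl (fun q _ => ?_)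
  congr 1
  rw [← finsum_mem_coe_finset]
  simp

theorem altF_lin (ℓ : ℕ) {ι : Type} (s : Finset ι) (w : ι → ℂ) (F : ι → (G → ℂ) → ℂ) :
    altF ℓ (fun a => ∑ c ∈ s, w c * F c a) = ∑ c ∈ s, w c * altF ℓ (F c) := by
  classical
  have := Fintype.ofFinite (Quotient (chainSetoid ℓ G))
  simp only [altF_eq]
  simp only [Finset.mul_sum]
  rw [Finset.sum_comm]
  have h1 : ∀ q : Quotient (chainSetoid ℓ G),
      ∑ a ∈ (IrrS_finite (stab q.out.mem)).toFinset, ∑ c ∈ s, (-1 : ℂ) ^ q.out.length * (w c * F c a) =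
      ∑ c ∈ s, ∑ a ∈ (IrrS_finite (stab q.out.mem)).toFinset, w c * ((-1 : ℂ) ^ q.out.length * F c a) := by
    intro q
    rw [Finset.sum_comm]
    refine Finset.sum_congr rfl (fun c _ => Finset.sum_congr rfl (fun a _ => ?_))
    ring
  rw [Finset.sum_comm]
  simp only [h1]
  rw [Finset.sum_comm]

open Classical in
theorem omF_eq [Fintype (ConjClasses G)] (f a : G → ℂ) (hf : ∀ x y, f (y * x * y⁻¹) = f x) :
    omF f a = ∑ c : ConjClasses G, f c.out * omega (MonoidHom.id G) a c.out := by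
  have := Fintype.ofFinite G
  unfold omF
  rw [finsum_eq_sum_of_fintype]
  simp only [omega_eq]
  simp only [← mul_div_assoc]
  rw [← Finset.sum_div]
  congr 1
  simp only [Finset.mul_sum]
  rw [Finset.sum_comm]
  refine Finset.sum_congr rfl (fun g _ => ?_)
  have hout : ∀ c : ConjClasses G, ConjClasses.mk c.out = c := fun c => Quotient.out_eq c
  rw [Finset.sum_eq_single (ConjClasses.mk g)]
  · have hc : IsConj (ConjClasses.mk g).out g := by
      rw [← ConjClasses.mk_eq_mk_iff_isConj]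
      exact hout _
    rw [if_pos (show IsConj (ConjClasses.mk g).out ((MonoidHom.id G) g) from hc)]
    obtain ⟨y, hy⟩ := isConj_iff.1 hc
    rw [← hf (ConjClasses.mk g).out y, hy]
  · intro c _ hne
    rw [if_neg, mul_zero]
    intro hc
    have hc' : IsConj c.out g := hc
    rw [← ConjClasses.mk_eq_mk_iff_isConj, hout] at hc'
    exact hne hc'
  · intro h; exact absurd (Finset.mem_univ _) h

end

section
variable {ℓ : ℕ} [Fact ℓ.Prime] {M : Ideal (integralClosure ℤ ℂ)} [M.IsMaximal]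

theorem red_one_ne : red M (1 : ℂ) ≠ 0 := by
  letI := Ideal.Quotient.field M
  rw [red_one]
  exact one_ne_zero

theorem ld_zero (m : ℕ) : LD M m 0 :=
  ⟨1, 0, isIntegral_one, red_one_ne, isIntegral_zero, by ring⟩

theorem ld_mulint (m : ℕ) (v : ℂ) (hv : IsIntegral ℤ v) : LD M m (m * v) :=
  ⟨1, v, isIntegral_one, red_one_ne, hv, by ring⟩

theorem ld_sum {ι : Type} (m : ℕ) (s : Finset ι) (f : ι → ℂ) (h : ∀ c ∈ s, LD M m (f c)) :
    LD M m (∑ c ∈ s, f c) := by
  classical
  induction s using Finset.induction_on with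
  | empty => simpa using ld_zero m
  | insert a s ha ih =>
    rw [Finset.sum_insert ha]
    exact ld_add (h a (Finset.mem_insert_self _ _)) (ih fun c hc => h c (Finset.mem_insert_of_mem hc))

theorem num_aux (hLLS : LlsStmt) (hl : (ℓ : integralClosure ℤ ℂ) ∈ M) {G : Type} [Group G] [Finite G]
    (hG : opCore ℓ G = ⊥) (n : ℕ) (g : G) : ∀ (fs : List (G → ℂ)) (bs : List G),
    (∀ h ∈ fs, (∀ x y, h (y * x * y⁻¹) = h x) ∧ ∀ x, IsIntegral ℤ (h x)) →
    DV ℓ n (bs.length + fs.length) g →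
    LD M n (altF ℓ fun a => omega (MonoidHom.id G) a g *
      (bs.map fun b => omega (MonoidHom.id G) a b).prod * (fs.map fun h => omF h a).prod) := by
  classical
  intro fs
  induction fs with
  | nil =>
    intro bs _ hDV
    obtain ⟨r, t, hrt, ht, k, hk⟩ := hDV bs (by simp)
    have h1 := hLLS ℓ G hG g bs
    rw [hk, ← hrt] at h1
    have hcz : cz g ≠ 0 := Nat.card_pos.ne'
    have hr : (r : ℂ) ≠ 0 := by
      intro h0
      apply hcz
      rw [← hrt]
      have : r = 0 := by exact_mod_cast h0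
      rw [this, zero_mul]
    simp only [List.map_nil, List.prod_nil, mul_one]
    apply ld_cancel hl ht
    have h2 : (t : ℂ) * altF ℓ (fun a => omega (MonoidHom.id G) a g *
        (bs.map fun b => omega (MonoidHom.id G) a b).prod) = (n : ℂ) * (k : ℂ) := by
      apply mul_left_cancel₀ hr
      push_cast at h1
      linear_combination -h1
    rw [h2]
    exact ld_mulint n _ (int_int k)
  | cons h fs ih =>
    intro bs hfs hDV
    have := Fintype.ofFinite (ConjClasses G)
    obtain ⟨hh1, hh2⟩ := hfs h List.mem_cons_self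
    have hfs' : ∀ h ∈ fs, (∀ x y, h (y * x * y⁻¹) = h x) ∧ ∀ x, IsIntegral ℤ (h x) :=
      fun h' hh' => hfs h' (List.mem_cons_of_mem _ hh')
    have e : (fun a => omega (MonoidHom.id G) a g *
        (bs.map fun b => omega (MonoidHom.id G) a b).prod * ((h :: fs).map fun h => omF h a).prod) =
        (fun a => ∑ c : ConjClasses G, h c.out * (omega (MonoidHom.id G) a g *
        ((c.out :: bs).map fun b => omega (MonoidHom.id G) a b).prod *
          (fs.map fun h => omF h a).prod)) := by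
      funext a
      rw [List.map_cons, List.prod_cons, omF_eq h a hh1, ← mul_assoc, Finset.mul_sum, Finset.sum_mul]
      refine Finset.sum_congr rfl (fun c _ => ?_)
      rw [List.map_cons, List.prod_cons]
      ring
    rw [e, altF_lin ℓ Finset.univ (fun c : ConjClasses G => h c.out)]
    refine ld_sum n _ _ (fun c _ => ?_)
    refine ld_int_mul ?_ (hh2 _)
    exact ih (c.out :: bs) hfs' (by
      rw [List.length_cons] at hDV ⊢
      rw [show bs.length + 1 + fs.length = bs.length + (fs.length + 1) from by ring]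
      exact hDV)

end

/-- NUM. -/
theorem num (hLLS : LlsStmt) : NumStmt := by
  classical
  intro ℓ _ M _ hl G _ _ hG n f fs hf1 hf2 hfs hDV
  have := Fintype.ofFinite (ConjClasses G)
  have e : (fun a => omF f a * (fs.map fun h => omF h a).prod) =
      (fun a => ∑ c : ConjClasses G, f c.out * (omega (MonoidHom.id G) a c.out *
      (([] : List G).map fun b => omega (MonoidHom.id G) a b).prod *
        (fs.map fun h => omF h a).prod)) := by
    funext a
    rw [omF_eq f a hf1, Finset.sum_mul]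
    refine Finset.sum_congr rfl (fun c _ => ?_)
    rw [List.map_nil, List.prod_nil]
    ring
  rw [e, altF_lin ℓ Finset.univ (fun c : ConjClasses G => f c.out)]
  refine ld_sum n _ _ (fun c _ => ?_)
  by_cases h0 : f c.out = 0
  · rw [h0, zero_mul]; exact ld_zero n
  · refine ld_int_mul ?_ (hf2 _)
    exact num_aux hLLS hl hG n c.out fs [] hfs (by
      rw [List.length_nil, zero_add]
      exact hDV _ h0)

end Pool.Agent.PP.ML.H90
end
end -- Pool.Agent.Helper90_ML.Num
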