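import Pool.Agent.Helper66_ML.Stmts

/-!
# Merged copies (generated) of the modules

* `Pool.Agent.Helper30_ML.CLO`
* `Pool.Agent.Helper84_ML.Brd`
-/

set_option autoImplicit false

section -- Pool.Agent.Helper30_ML.CLO

/-!
# Squad ML, row CLO: the classes
-/

noncomputable section

namespace Pool.Agent.PP.ML.H30

open Pool.Agent.PP.ML

variable {G X : Type} [Group G] [MulAction G X] {R : Subgroup G} {g : G} {w : X × G × G}

theorem sup_le' {x : G} {Q K : Subgroup G} (hx : x ∈ K) (hQ : Q ≤ K) :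
    Subgroup.zpowers x ⊔ Q ≤ K := sup_le (Subgroup.zpowers_le.2 hx) hQ

theorem sup_mono {x : G} {Q K : Subgroup G} (h : Q ≤ K) {a : G}
    (ha : a ∈ Subgroup.zpowers x ⊔ Q) : a ∈ Subgroup.zpowers x ⊔ K :=
  (sup_le_sup_left h (Subgroup.zpowers x)) ha

theorem mem_cst {r : G} : r ∈ cst R w ↔ r ∈ R ∧ r • w.1 = w.1 ∧ r * w.2.1 = w.2.1 * r := by
  unfold cst
  rw [Subgroup.mem_inf, Subgroup.mem_inf, MulAction.mem_stabilizer_iff,
    Subgroup.mem_centralizer_singleton_iff, and_assoc]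

/-- a cyclic group centralised by `x` and `y` -/
theorem cyc (hw : InOm R g w) {t : G} (hR : t ∈ R) (hs : t • w.1 = w.1)
    (hx : t * w.2.1 = w.2.1 * t) (hy : t * w.2.2 = w.2.2 * t) : t = 1 := by
  have h := hw.tr (Subgroup.zpowers t) (Subgroup.zpowers_le.2 hR)
    (fun u hu => by
      have : Subgroup.zpowers t ≤ MulAction.stabilizer G w.1 :=
        Subgroup.zpowers_le.2 (MulAction.mem_stabilizer_iff.2 hs)
      exact MulAction.mem_stabilizer_iff.1 (this hu))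
    (fun u hu => by
      have h1 : Subgroup.zpowers t ≤ Subgroup.centralizer {w.2.1} :=
        Subgroup.zpowers_le.2 (Subgroup.mem_centralizer_singleton_iff.2 hx)
      have h2 := Subgroup.mem_centralizer_singleton_iff.1 (h1 hu)
      rw [← h2, mul_inv_cancel_right]
      exact hu)
    (fun u hu => by
      have h1 : Subgroup.zpowers t ≤ Subgroup.centralizer {w.2.2} :=
        Subgroup.zpowers_le.2 (Subgroup.mem_centralizer_singleton_iff.2 hy)
      have h2 := Subgroup.mem_centralizer_singleton_iff.1 (h1 hu)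
      rw [← h2, mul_inv_cancel_right]
      exact hu)
  exact Subgroup.zpowers_eq_bot.1 h

/-- the good subgroups -/
structure Good (R : Subgroup G) (w : X × G × G) (Q : Subgroup G) : Prop where
  le : Q ≤ cst R w
  dq : ∀ q ∈ Q, w.2.2⁻¹ * q * w.2.2 * q⁻¹ ∈ Subgroup.zpowers w.2.1 ⊔ Q
  ab : ∀ a ∈ Q, ∀ b ∈ Q, a * b = b * a
  mn : ∀ C : Subgroup G, C ≤ Q → (∀ q ∈ Q, w.2.2⁻¹ * q * w.2.2 * q⁻¹ ∈
    Subgroup.zpowers w.2.1 ⊔ C → q ∈ C) → Q ≤ C

/-- `Q` is closed -/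
def Clsd (R : Subgroup G) (w : X × G × G) (Q : Subgroup G) : Prop :=
  ∀ r ∈ cst R w, w.2.2⁻¹ * r * w.2.2 * r⁻¹ ∈ Subgroup.zpowers w.2.1 ⊔ Q → r ∈ Q

theorem comm_of {Q : Subgroup G} {r : G} (hr : r * w.2.1 = w.2.1 * r)
    (h : ∀ q ∈ Q, r * q = q * r) : ∀ m ∈ Subgroup.zpowers w.2.1 ⊔ Q, r * m = m * r := by
  intro m hm
  have h1 : Subgroup.zpowers w.2.1 ⊔ Q ≤ Subgroup.centralizer {r} := by
    refine sup_le' (Subgroup.mem_centralizer_singleton_iff.2 hr.symm) fun q hq => ?_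
    exact Subgroup.mem_centralizer_singleton_iff.2 (h q hq).symm
  exact (Subgroup.mem_centralizer_singleton_iff.1 (h1 hm)).symm

theorem good_comm {Q : Subgroup G} (hQ : Good R w Q) : ∀ a ∈ Subgroup.zpowers w.2.1 ⊔ Q,
    ∀ b ∈ Subgroup.zpowers w.2.1 ⊔ Q, a * b = b * a := by
  intro a ha
  have hx : a * w.2.1 = w.2.1 * a := by
    have h1 : Subgroup.zpowers w.2.1 ⊔ Q ≤ Subgroup.centralizer {w.2.1} := by
      refine sup_le' (Subgroup.mem_centralizer_singleton_iff.2 rfl) fun q hq => ?_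
      exact Subgroup.mem_centralizer_singleton_iff.2 (mem_cst.1 (hQ.le hq)).2.2
    exact Subgroup.mem_centralizer_singleton_iff.1 (h1 ha)
  refine comm_of hx fun q hq => ?_
  have h1 : Subgroup.zpowers w.2.1 ⊔ Q ≤ Subgroup.centralizer {q} := by
    refine sup_le' (Subgroup.mem_centralizer_singleton_iff.2 (mem_cst.1 (hQ.le hq)).2.2.symm)
      fun q' hq' => ?_
    exact Subgroup.mem_centralizer_singleton_iff.2 (hQ.ab q' hq' q hq)
  exact Subgroup.mem_centralizer_singleton_iff.1 (h1 ha)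

theorem fix_mem {Q : Subgroup G} (hw : InOm R g w) (hQ : Good R w Q) {m : G}
    (hm : m ∈ Subgroup.zpowers w.2.1 ⊔ Q) : m • w.1 = w.1 := by
  have h1 : Subgroup.zpowers w.2.1 ⊔ Q ≤ MulAction.stabilizer G w.1 :=
    sup_le' (MulAction.mem_stabilizer_iff.2 hw.sx) fun q hq =>
      MulAction.mem_stabilizer_iff.2 (mem_cst.1 (hQ.le hq)).2.1
  exact MulAction.mem_stabilizer_iff.1 (h1 hm)

variable [Finite G]

theorem mem_norm {V : Subgroup G} {a : G} (h : ∀ u ∈ V, a * u * a⁻¹ ∈ V) :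
    a ∈ Subgroup.normalizer (V : Set G) := by
  rw [Subgroup.mem_normalizer_iff]
  intro u
  refine ⟨h u, fun hu => ?_⟩
  have hle : V.map (MulAut.conj a).toMonoidHom ≤ V := by
    rintro _ ⟨v, hv, rfl⟩
    exact h v hv
  have hc : Nat.card (V.map (MulAut.conj a).toMonoidHom) = Nat.card V :=
    Subgroup.card_map_of_injective (MulAut.conj a).injective
  have he : V.map (MulAut.conj a).toMonoidHom = V :=
    Subgroup.eq_of_le_of_card_ge hle hc.ge
  have h1 : a * u * a⁻¹ ∈ V.map (MulAut.conj a).toMonoidHom := by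
    rw [he]
    exact hu
  obtain ⟨v, hv, hv2⟩ := h1
  have h2 : a * v * a⁻¹ = a * u * a⁻¹ := hv2
  have h3 : v = u := mul_left_cancel (mul_right_cancel h2)
  exact h3 ▸ hv

omit [Finite G] in
theorem norm_conj {V : Subgroup G} {a : G} (h : a ∈ Subgroup.normalizer (V : Set G)) {u : G}
    (hu : u ∈ V) : a * u * a⁻¹ ∈ V := (Subgroup.mem_normalizer_iff.1 h u).1 hu

omit [Finite G] in
theorem norm_conj' {V : Subgroup G} {a : G} (h : a ∈ Subgroup.normalizer (V : Set G)) {u : G}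
    (hu : u ∈ V) : a⁻¹ * u * a ∈ V := by
  have h1 := norm_conj (Subgroup.inv_mem _ h) hu
  rwa [inv_inv] at h1

omit [Finite G] in
theorem calc1 {q z m : G} (hqz : q * z = z * m * q) (hmq : m * q = q * m) (u : G) :
    q * (z * (m⁻¹ * u * m) * z⁻¹) * q⁻¹ = z * (q * u * q⁻¹) * z⁻¹ := by
  have h : q * z * m⁻¹ = z * q := by
    rw [hqz, mul_assoc z m q, hmq, ← mul_assoc, mul_inv_cancel_right]
  calc q * (z * (m⁻¹ * u * m) * z⁻¹) * q⁻¹ = (q * z * m⁻¹) * u * (q * z * m⁻¹)⁻¹ := by group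
    _ = (z * q) * u * (z * q)⁻¹ := by rw [h]
    _ = _ := by group

/-- right multiplication by an element of `⟨x⟩ Q` keeps `Ω*` -/
theorem good_om {Q : Subgroup G} (hw : InOm R g w) (hQ : Good R w Q) {p : G}
    (hp : p ∈ Subgroup.zpowers w.2.1 ⊔ Q) : InOm R g (rm w p) := by
  have hpx : p * w.2.1 = w.2.1 * p := good_comm hQ p hp w.2.1
    (Subgroup.mem_sup_left (Subgroup.mem_zpowers _))
  refine ⟨hw.sx, ?_, ?_, ?_⟩
  · show (w.2.2 * p) • w.1 = w.1
    rw [mul_smul, fix_mem hw hQ hp, hw.sy]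
  · show w.2.1 * (w.2.2 * p) * w.2.1⁻¹ * (w.2.2 * p)⁻¹ = g
    have h1 : p * w.2.1⁻¹ = w.2.1⁻¹ * p := by
      have h2 : w.2.1⁻¹ * (p * w.2.1) * w.2.1⁻¹ = w.2.1⁻¹ * (w.2.1 * p) * w.2.1⁻¹ := by rw [hpx]
      rw [← mul_assoc, mul_inv_cancel_right, inv_mul_cancel_left] at h2
      exact h2.symm
    rw [mul_inv_rev, ← hw.cm]
    calc w.2.1 * (w.2.2 * p) * w.2.1⁻¹ * (p⁻¹ * w.2.2⁻¹) =
        w.2.1 * w.2.2 * (p * w.2.1⁻¹) * p⁻¹ * w.2.2⁻¹ := by simp only [mul_assoc]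
      _ = w.2.1 * w.2.2 * (w.2.1⁻¹ * p) * p⁻¹ * w.2.2⁻¹ := by rw [h1]
      _ = w.2.1 * w.2.2 * w.2.1⁻¹ * w.2.2⁻¹ := by
        simp only [mul_assoc, mul_inv_cancel_left]
  · intro W hWR hWs hWx hWy
    set z : G := w.2.2 * p with hz
    have hWy' : ∀ u ∈ W, z * u * z⁻¹ ∈ W := hWy
    set S : Set (Subgroup G) := {V | V ≤ R ∧ (∀ u ∈ V, u • w.1 = w.1) ∧
      (∀ u ∈ V, w.2.1 * u * w.2.1⁻¹ ∈ V) ∧ ∀ u ∈ V, z * u * z⁻¹ ∈ V} with hS
    set V : Subgroup G := sSup S with hV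
    have hWV : W ≤ V := le_sSup ⟨hWR, hWs, hWx, hWy'⟩
    have hVR : V ≤ R := sSup_le fun U hU => hU.1
    have hVs : ∀ u ∈ V, u • w.1 = w.1 := by
      have h1 : V ≤ MulAction.stabilizer G w.1 := sSup_le fun U hU u hu =>
        MulAction.mem_stabilizer_iff.2 (hU.2.1 u hu)
      exact fun u hu => MulAction.mem_stabilizer_iff.1 (h1 hu)
    have hVc : ∀ a : G, (∀ U ∈ S, ∀ u ∈ U, a * u * a⁻¹ ∈ U) → ∀ u ∈ V, a * u * a⁻¹ ∈ V := by
      intro a ha
      have h1 : V ≤ V.comap (MulAut.conj a).toMonoidHom := sSup_le fun U hU u hu => by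
        rw [Subgroup.mem_comap]
        exact (le_sSup hU : U ≤ V) (ha U hU u hu)
      exact fun u hu => h1 hu
    have hVx := hVc w.2.1 fun U hU => hU.2.2.1
    have hVz := hVc z fun U hU => hU.2.2.2
    have hVQ : Q ≤ Subgroup.normalizer (V : Set G) := by
      have h0 := hQ.mn (Q ⊓ Subgroup.normalizer (V : Set G)) inf_le_left ?_
      · exact h0.trans inf_le_right
      intro q hq hm
      refine Subgroup.mem_inf.2 ⟨hq, mem_norm ?_⟩
      set m : G := w.2.2⁻¹ * q * w.2.2 * q⁻¹ with hmdef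
      have hm1 : m ∈ Subgroup.zpowers w.2.1 ⊔ Q := hQ.dq q hq
      have hm2 : m ∈ Subgroup.normalizer (V : Set G) := by
        have h1 : Subgroup.zpowers w.2.1 ⊔ (Q ⊓ Subgroup.normalizer (V : Set G)) ≤
            Subgroup.normalizer (V : Set G) := sup_le' (mem_norm hVx) inf_le_right
        exact h1 hm
      have hqc := mem_cst.1 (hQ.le hq)
      have hq1 : q ∈ Subgroup.zpowers w.2.1 ⊔ Q := Subgroup.mem_sup_right hq
      have hmq : m * q = q * m := good_comm hQ m hm1 q hq1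
      have hmp : m * p = p * m := good_comm hQ m hm1 p hp
      have hqp : q * p = p * q := good_comm hQ q hq1 p hp
      -- q z = z m q
      have hqz : q * z = z * m * q := by
        have h1 : q * w.2.2 = w.2.2 * (m * q) := by
          rw [hmdef]
          simp only [mul_assoc, mul_inv_cancel_left, inv_mul_cancel, mul_one]
        rw [hz]
        calc q * (w.2.2 * p) = (q * w.2.2) * p := by rw [mul_assoc]
          _ = w.2.2 * (m * (q * p)) := by rw [h1]; simp only [mul_assoc]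
          _ = w.2.2 * (m * (p * q)) := by rw [hqp]
          _ = w.2.2 * ((m * p) * q) := by simp only [mul_assoc]
          _ = w.2.2 * ((p * m) * q) := by rw [hmp]
          _ = w.2.2 * p * m * q := by simp only [mul_assoc]
      have hK : V.map (MulAut.conj q).toMonoidHom ∈ S := by
        refine ⟨?_, ?_, ?_, ?_⟩
        · rintro _ ⟨u, hu, rfl⟩
          exact R.mul_mem (R.mul_mem hqc.1 (hVR hu)) (R.inv_mem hqc.1)
        · rintro _ ⟨u, hu, rfl⟩
          show (q * u * q⁻¹) • w.1 = w.1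
          have h2 : q⁻¹ • w.1 = w.1 := by
            rw [inv_smul_eq_iff]
            exact hqc.2.1.symm
          rw [mul_smul, mul_smul, h2, hVs u hu, hqc.2.1]
        · rintro _ ⟨u, hu, rfl⟩
          refine ⟨w.2.1 * u * w.2.1⁻¹, hVx u hu, ?_⟩
          show q * (w.2.1 * u * w.2.1⁻¹) * q⁻¹ = w.2.1 * (q * u * q⁻¹) * w.2.1⁻¹
          calc q * (w.2.1 * u * w.2.1⁻¹) * q⁻¹ = (q * w.2.1) * u * (q * w.2.1)⁻¹ := by
                rw [mul_inv_rev]; simp only [mul_assoc]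
            _ = (w.2.1 * q) * u * (w.2.1 * q)⁻¹ := by rw [hqc.2.2]
            _ = w.2.1 * (q * u * q⁻¹) * w.2.1⁻¹ := by rw [mul_inv_rev]; simp only [mul_assoc]
        · rintro _ ⟨u, hu, rfl⟩
          refine ⟨z * (m⁻¹ * u * m) * z⁻¹, hVz _ (norm_conj' hm2 hu), ?_⟩
          show q * (z * (m⁻¹ * u * m) * z⁻¹) * q⁻¹ = z * (q * u * q⁻¹) * z⁻¹
          exact calc1 hqz hmq u
      intro u hu
      exact (le_sSup hK : _ ≤ V) ⟨u, hu, rfl⟩
    have hVp : p ∈ Subgroup.normalizer (V : Set G) :=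
      (sup_le' (mem_norm hVx) hVQ : Subgroup.zpowers w.2.1 ⊔ Q ≤ _) hp
    have hVy : ∀ u ∈ V, w.2.2 * u * w.2.2⁻¹ ∈ V := by
      intro u hu
      have h1 := hVz _ (norm_conj' hVp hu)
      have h2 : z * (p⁻¹ * u * p) * z⁻¹ = w.2.2 * u * w.2.2⁻¹ := by
        rw [hz, mul_inv_rev]
        simp only [mul_assoc, mul_inv_cancel_left]
      rwa [h2] at h1
    have hVbot := hw.tr V hVR hVs hVx hVy
    rw [hVbot] at hWV
    exact le_bot_iff.1 hWV

/-- the key commutation -/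
theorem good_key {Q : Subgroup G} (hR : ∀ r ∈ R, r * g = g * r) (hw : InOm R g w)
    (hQ : Good R w Q) {r m m' : G} (hr : r ∈ cst R w) (hm : m ∈ Subgroup.zpowers w.2.1 ⊔ Q)
    (hm' : m' ∈ Subgroup.zpowers w.2.1 ⊔ Q)
    (h : w.2.2⁻¹ * r * w.2.2 = m' * r * m⁻¹) : ∀ a ∈ Subgroup.zpowers w.2.1 ⊔ Q,
    r * a = a * r := by
  have hrc := mem_cst.1 hr
  refine comm_of hrc.2.2 fun q hq => ?_
  have h0 := hQ.mn (Q ⊓ Subgroup.centralizer {r}) inf_le_left ?_
  · exact (Subgroup.mem_centralizer_singleton_iff.1 (Subgroup.mem_inf.1 (h0 hq)).2).symm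
  intro q hq hm1
  refine Subgroup.mem_inf.2 ⟨hq, Subgroup.mem_centralizer_singleton_iff.2 ?_⟩
  set n : G := w.2.2⁻¹ * q * w.2.2 * q⁻¹ with hn
  have hn1 : n ∈ Subgroup.zpowers w.2.1 ⊔ Q := hQ.dq q hq
  have hn2 : r * n = n * r := by
    have h1 : Subgroup.zpowers w.2.1 ⊔ (Q ⊓ Subgroup.centralizer {r}) ≤
        Subgroup.centralizer {r} :=
      sup_le' (Subgroup.mem_centralizer_singleton_iff.2 hrc.2.2.symm) inf_le_right
    exact (Subgroup.mem_centralizer_singleton_iff.1 (h1 hm1)).symm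
  have hq1 : q ∈ Subgroup.zpowers w.2.1 ⊔ Q := Subgroup.mem_sup_right hq
  have hqc := mem_cst.1 (hQ.le hq)
  have hom := good_om hw hQ (Subgroup.mul_mem _ hm' hn1)
  set t : G := r * q * r⁻¹ * q⁻¹ with ht
  have hcen : t ∈ cst R w := Subgroup.mul_mem _ (Subgroup.mul_mem _ (Subgroup.mul_mem _ hr
    (hQ.le hq)) (Subgroup.inv_mem _ hr)) (Subgroup.inv_mem _ (hQ.le hq))
  have htc := mem_cst.1 hcen
  -- y⁻¹ t y
  have h2 : w.2.2⁻¹ * q * w.2.2 = n * q := by rw [hn, inv_mul_cancel_right]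
  have hyt : w.2.2⁻¹ * t * w.2.2 = (m' * n) * t * (m' * n)⁻¹ := by
    calc w.2.2⁻¹ * t * w.2.2 = (w.2.2⁻¹ * r * w.2.2) * (w.2.2⁻¹ * q * w.2.2) *
          (w.2.2⁻¹ * r * w.2.2)⁻¹ * (w.2.2⁻¹ * q * w.2.2)⁻¹ := by rw [ht]; group
      _ = (m' * r * m⁻¹) * (n * q) * (m' * r * m⁻¹)⁻¹ * (n * q)⁻¹ := by rw [h, h2]
      _ = m' * r * (m⁻¹ * (n * q) * m) * r⁻¹ * m'⁻¹ * (n * q)⁻¹ := by group
      _ = m' * r * (n * q) * r⁻¹ * m'⁻¹ * (n * q)⁻¹ := by
          have h3 : n * q * m = m * (n * q) :=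
            good_comm hQ _ (Subgroup.mul_mem _ hn1 hq1) _ hm
          rw [mul_assoc m⁻¹, h3, inv_mul_cancel_left]
      _ = m' * (r * n) * q * r⁻¹ * (m'⁻¹ * (n * q)⁻¹) := by simp only [mul_assoc]
      _ = m' * (n * r) * q * r⁻¹ * ((n * q) * m')⁻¹ := by rw [hn2, mul_inv_rev (n * q) m']
      _ = m' * (n * r) * q * r⁻¹ * ((m' * n) * q)⁻¹ := by
          have h3 : n * q * m' = m' * n * q := by
            rw [mul_assoc m' n q]
            exact good_comm hQ _ (Subgroup.mul_mem _ hn1 hq1) _ hm'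
          rw [h3]
      _ = (m' * n) * t * (m' * n)⁻¹ := by rw [ht]; group
  have hcy : t * (w.2.2 * (m' * n)) = (w.2.2 * (m' * n)) * t := by
    calc t * (w.2.2 * (m' * n)) = w.2.2 * (w.2.2⁻¹ * t * w.2.2) * (m' * n) := by group
      _ = w.2.2 * ((m' * n) * t * (m' * n)⁻¹) * (m' * n) := by rw [hyt]
      _ = (w.2.2 * (m' * n)) * t := by group
  have ht1 : t = 1 := cyc hom htc.1 htc.2.1 htc.2.2 hcy
  have h4 : r * q = q * r := by
    have h5 : r * q * r⁻¹ * q⁻¹ = 1 := ht1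
    have h6 : r * q = 1 * q * r := by rw [← h5]; group
    rwa [one_mul] at h6
  exact h4.symm

/-- the next good subgroup -/
theorem next {Q : Subgroup G} (hR : ∀ r ∈ R, r * g = g * r) (hw : InOm R g w)
    (hQ : Good R w Q) : ∃ Q' : Subgroup G, Good R w Q' ∧ Q ≤ Q' ∧
      ∀ r ∈ cst R w, w.2.2⁻¹ * r * w.2.2 * r⁻¹ ∈ Subgroup.zpowers w.2.1 ⊔ Q → r ∈ Q' := by
  have hk : ∀ r ∈ cst R w, w.2.2⁻¹ * r * w.2.2 * r⁻¹ ∈ Subgroup.zpowers w.2.1 ⊔ Q →
      ∀ a ∈ Subgroup.zpowers w.2.1 ⊔ Q, r * a = a * r := by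
    intro r hr hd
    refine good_key hR hw hQ hr (Subgroup.one_mem _) hd ?_
    rw [inv_one, mul_one, inv_mul_cancel_right]
  set Q' : Subgroup G :=
    { carrier := {r | r ∈ cst R w ∧ w.2.2⁻¹ * r * w.2.2 * r⁻¹ ∈ Subgroup.zpowers w.2.1 ⊔ Q}
      one_mem' := by
        refine ⟨Subgroup.one_mem _, ?_⟩
        have h1 : w.2.2⁻¹ * 1 * w.2.2 * (1 : G)⁻¹ = 1 := by group
        rw [h1]
        exact Subgroup.one_mem _
      mul_mem' := by
        rintro a b ⟨ha, ha2⟩ ⟨hb, hb2⟩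
        refine ⟨Subgroup.mul_mem _ ha hb, ?_⟩
        have h1 : w.2.2⁻¹ * (a * b) * w.2.2 * (a * b)⁻¹ =
            (w.2.2⁻¹ * a * w.2.2 * a⁻¹) * (w.2.2⁻¹ * b * w.2.2 * b⁻¹) := by
          calc w.2.2⁻¹ * (a * b) * w.2.2 * (a * b)⁻¹ =
              (w.2.2⁻¹ * a * w.2.2 * a⁻¹) * (a * (w.2.2⁻¹ * b * w.2.2 * b⁻¹)) * a⁻¹ := by group
            _ = (w.2.2⁻¹ * a * w.2.2 * a⁻¹) * ((w.2.2⁻¹ * b * w.2.2 * b⁻¹) * a) * a⁻¹ := by
                rw [hk a ha ha2 _ hb2]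
            _ = _ := by group
        rw [h1]
        exact Subgroup.mul_mem _ ha2 hb2
      inv_mem' := by
        rintro a ⟨ha, ha2⟩
        refine ⟨Subgroup.inv_mem _ ha, ?_⟩
        have h1 : w.2.2⁻¹ * a⁻¹ * w.2.2 * a⁻¹⁻¹ = (w.2.2⁻¹ * a * w.2.2 * a⁻¹)⁻¹ := by
          have h3 := hk a ha ha2 _ (Subgroup.inv_mem _ ha2)
          calc w.2.2⁻¹ * a⁻¹ * w.2.2 * a⁻¹⁻¹ =
              a⁻¹ * ((w.2.2⁻¹ * a * w.2.2 * a⁻¹)⁻¹ * a) := by group
            _ = a⁻¹ * (a * (w.2.2⁻¹ * a * w.2.2 * a⁻¹)⁻¹) := by rw [h3]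
            _ = _ := by group
        rw [h1]
        exact Subgroup.inv_mem _ ha2 } with hQ'
  have hmem : ∀ r, r ∈ Q' ↔ r ∈ cst R w ∧
      w.2.2⁻¹ * r * w.2.2 * r⁻¹ ∈ Subgroup.zpowers w.2.1 ⊔ Q := fun r => Iff.rfl
  have hQQ : Q ≤ Q' := fun q hq => ⟨hQ.le hq, hQ.dq q hq⟩
  refine ⟨Q', ⟨fun r hr => hr.1, ?_, ?_, ?_⟩, hQQ, fun r hr hd => ⟨hr, hd⟩⟩
  · intro q hq
    exact sup_mono hQQ hq.2
  · intro a ha b hb
    set ma : G := w.2.2⁻¹ * a * w.2.2 * a⁻¹ with hma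
    set mb : G := w.2.2⁻¹ * b * w.2.2 * b⁻¹ with hmb
    have h1 : w.2.2⁻¹ * a * w.2.2 = ma * a := by rw [hma, inv_mul_cancel_right]
    have h2 : w.2.2⁻¹ * b * w.2.2 = mb * b := by rw [hmb, inv_mul_cancel_right]
    have hac := hk a ha.1 ha.2
    have hbc := hk b hb.1 hb.2
    set t : G := a * b * a⁻¹ * b⁻¹ with ht
    have htc := mem_cst.1 (Subgroup.mul_mem _ (Subgroup.mul_mem _ (Subgroup.mul_mem _ ha.1 hb.1)
      (Subgroup.inv_mem _ ha.1)) (Subgroup.inv_mem _ hb.1) : t ∈ cst R w)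
    have hma1 : ma ∈ Subgroup.zpowers w.2.1 ⊔ Q := ha.2
    have hmb1 : mb ∈ Subgroup.zpowers w.2.1 ⊔ Q := hb.2
    have hyt : w.2.2⁻¹ * t * w.2.2 = t := by
      calc w.2.2⁻¹ * t * w.2.2 = (w.2.2⁻¹ * a * w.2.2) * (w.2.2⁻¹ * b * w.2.2) *
            ((w.2.2⁻¹ * b * w.2.2) * (w.2.2⁻¹ * a * w.2.2))⁻¹ := by rw [ht]; group
        _ = (ma * a) * (mb * b) * ((mb * b) * (ma * a))⁻¹ := by rw [h1, h2]
        _ = (ma * mb) * (a * b) * ((ma * mb) * (b * a))⁻¹ := by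
            have h3 : (ma * a) * (mb * b) = (ma * mb) * (a * b) := by
              calc (ma * a) * (mb * b) = ma * (a * mb) * b := by simp only [mul_assoc]
                _ = ma * (mb * a) * b := by rw [hac mb hmb1]
                _ = _ := by simp only [mul_assoc]
            have h4 : (mb * b) * (ma * a) = (ma * mb) * (b * a) := by
              calc (mb * b) * (ma * a) = mb * (b * ma) * a := by simp only [mul_assoc]
                _ = (mb * ma) * (b * a) := by rw [hbc ma hma1]; simp only [mul_assoc]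
                _ = _ := by rw [good_comm hQ mb hmb1 ma hma1]
            rw [h3, h4]
        _ = (ma * mb) * t * (ma * mb)⁻¹ := by rw [ht]; group
        _ = t := by
            have h5 : t * (ma * mb) = (ma * mb) * t := by
              have hcen : ∀ c ∈ Subgroup.zpowers w.2.1 ⊔ Q, t * c = c * t := by
                intro c hc
                have h6 : t ∈ Subgroup.centralizer {c} := by
                  have ha3 : a ∈ Subgroup.centralizer {c} :=
                    Subgroup.mem_centralizer_singleton_iff.2 (hac c hc)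
                  have hb3 : b ∈ Subgroup.centralizer {c} :=
                    Subgroup.mem_centralizer_singleton_iff.2 (hbc c hc)
                  exact Subgroup.mul_mem _ (Subgroup.mul_mem _ (Subgroup.mul_mem _ ha3 hb3)
                    (Subgroup.inv_mem _ ha3)) (Subgroup.inv_mem _ hb3)
                exact Subgroup.mem_centralizer_singleton_iff.1 h6
              exact hcen _ (Subgroup.mul_mem _ hma1 hmb1)
            rw [← h5, mul_inv_cancel_right]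
    have hcy : t * w.2.2 = w.2.2 * t := by
      calc t * w.2.2 = w.2.2 * (w.2.2⁻¹ * t * w.2.2) := by group
        _ = _ := by rw [hyt]
    have ht1 : t = 1 := cyc hw htc.1 htc.2.1 htc.2.2 hcy
    have h5 : a * b * a⁻¹ * b⁻¹ = 1 := ht1
    have h6 : a * b = 1 * b * a := by rw [← h5]; group
    rwa [one_mul] at h6
  · intro C hC hcl
    have h1 : Q ≤ C := by
      have h2 := hQ.mn (Q ⊓ C) inf_le_left fun q hq hd => Subgroup.mem_inf.2 ⟨hq,
        hcl q (hQQ hq) (sup_mono inf_le_right hd)⟩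
      exact h2.trans inf_le_right
    intro q hq
    exact hcl q hq (sup_mono h1 hq.2)

omit [Finite G] in
theorem good_bot : Good R w ⊥ := by
  refine ⟨bot_le, ?_, ?_, ?_⟩
  · intro q hq
    rw [Subgroup.mem_bot.1 hq]
    have h1 : w.2.2⁻¹ * 1 * w.2.2 * (1 : G)⁻¹ = 1 := by group
    rw [h1]
    exact Subgroup.one_mem _
  · intro a ha b hb
    rw [Subgroup.mem_bot.1 ha, Subgroup.mem_bot.1 hb]
  · intro C _ _
    exact bot_le

theorem exists_max (hR : ∀ r ∈ R, r * g = g * r) (hw : InOm R g w) :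
    ∃ Q : Subgroup G, Good R w Q ∧ Clsd R w Q := by
  obtain ⟨Q, hQ⟩ := (Set.toFinite {Q : Subgroup G | Good R w Q}).exists_maximal ⟨⊥, good_bot⟩
  refine ⟨Q, hQ.1, ?_⟩
  obtain ⟨Q', h1, h2, h3⟩ := next hR hw hQ.1
  intro r hr hd
  exact hQ.2 h1 h2 (h3 r hr hd)

omit [Finite G] in
theorem clo_le {Q : Subgroup G} (h : Q ≤ cst R w) (hc : Clsd R w Q) : clo R w ≤ Q :=
  sInf_le ⟨h, hc⟩

omit [Finite G] in
theorem clo_closed : Clsd R w (clo R w) := by
  intro r hr hd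
  refine Subgroup.mem_sInf.2 fun Q hQ => ?_
  exact hQ.2 r hr (sup_mono (sInf_le hQ) hd)

omit [Finite G] in
theorem clo_cst : clo R w ≤ cst R w := sInf_le ⟨le_rfl, fun _ hr _ => hr⟩

theorem clo_good (hR : ∀ r ∈ R, r * g = g * r) (hw : InOm R g w) : Good R w (clo R w) := by
  obtain ⟨Q, h1, h2⟩ := exists_max hR hw
  have h3 : clo R w ≤ Q := clo_le h1.le h2
  have h4 : Q ≤ clo R w := h1.mn _ h3 fun q hq hd => clo_closed q (h1.le hq) hd
  rw [le_antisymm h3 h4]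
  exact h1

theorem key2 (hR : ∀ r ∈ R, r * g = g * r) (hw : InOm R g w) {r m m' : G}
    (hr : r ∈ cst R w) (hm : m ∈ mul R w) (hm' : m' ∈ mul R w)
    (h : w.2.2⁻¹ * r * w.2.2 = m' * r * m⁻¹) : r ∈ clo R w ∧ ∀ a ∈ mul R w, r * a = a * r := by
  have h1 := good_key hR hw (clo_good hR hw) hr hm hm' h
  refine ⟨clo_closed r hr ?_, h1⟩
  rw [h]
  have h2 : m' * r * m⁻¹ * r⁻¹ = m' * m⁻¹ := by
    rw [mul_assoc m' r, h1 _ (Subgroup.inv_mem _ hm)]
    group
  rw [h2]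
  exact Subgroup.mul_mem _ hm' (Subgroup.inv_mem _ hm)

theorem rm_clo (hR : ∀ r ∈ R, r * g = g * r) (hw : InOm R g w) {m : G} (hm : m ∈ mul R w) :
    clo R (rm w m) = clo R w := by
  have hg := clo_good hR hw
  have h1 : clo R (rm w m) ≤ clo R w := by
    refine clo_le (w := rm w m) hg.le ?_
    intro r hr hd
    have hr' : r ∈ cst R w := hr
    set n : G := (w.2.2 * m)⁻¹ * r * (w.2.2 * m) * r⁻¹ with hn
    have hn1 : n ∈ mul R w := hd
    refine (key2 hR hw hr' hm (Subgroup.mul_mem _ hm hn1) ?_).1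
    rw [hn]
    group
  refine le_antisymm h1 (hg.mn _ h1 fun q hq hd => ?_)
  refine clo_closed (w := rm w m) q (hg.le hq) ?_
  set n : G := w.2.2⁻¹ * q * w.2.2 * q⁻¹ with hn
  have hn1 : n ∈ mul R w := sup_mono h1 hd
  have hq1 : q ∈ mul R w := Subgroup.mem_sup_right hq
  have h2 : (w.2.2 * m)⁻¹ * q * (w.2.2 * m) * q⁻¹ = n := by
    have h3 : (n * q) * m = m * (n * q) := good_comm hg _ (Subgroup.mul_mem _ hn1 hq1) _ hm
    calc (w.2.2 * m)⁻¹ * q * (w.2.2 * m) * q⁻¹ = m⁻¹ * ((n * q) * m) * q⁻¹ := by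
          rw [hn]; group
      _ = m⁻¹ * (m * (n * q)) * q⁻¹ := by rw [h3]
      _ = n := by group
  show (w.2.2 * m)⁻¹ * q * (w.2.2 * m) * q⁻¹ ∈ _
  rw [h2]
  exact hd

theorem rm_mul (hR : ∀ r ∈ R, r * g = g * r) (hw : InOm R g w) {m : G} (hm : m ∈ mul R w) :
    mul R (rm w m) = mul R w := by
  unfold mul
  rw [rm_clo hR hw hm]
  rfl

omit [Finite G] in
theorem cjt_cjt (a b : G) (w : X × G × G) : cjt a (cjt b w) = cjt (a * b) w := by
  unfold cjt
  refine Prod.ext ?_ (Prod.ext ?_ ?_)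
  · exact (mul_smul a b w.1).symm
  · show a * (b * w.2.1 * b⁻¹) * a⁻¹ = a * b * w.2.1 * (a * b)⁻¹
    group
  · show a * (b * w.2.2 * b⁻¹) * a⁻¹ = a * b * w.2.2 * (a * b)⁻¹
    group

omit [Finite G] in
theorem cjt_one (w : X × G × G) : cjt 1 w = w := by
  unfold cjt
  refine Prod.ext ?_ (Prod.ext ?_ ?_)
  · exact one_smul G w.1
  · show 1 * w.2.1 * (1 : G)⁻¹ = w.2.1
    group
  · show 1 * w.2.2 * (1 : G)⁻¹ = w.2.2
    group

omit [Finite G] in
theorem cjt_inv (r : G) (w : X × G × G) : cjt r⁻¹ (cjt r w) = w := by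
  rw [cjt_cjt, inv_mul_cancel, cjt_one]

omit [Finite G] in
theorem cst_cjt {r : G} (hr : r ∈ R) {a : G} (ha : a ∈ cst R w) :
    r * a * r⁻¹ ∈ cst R (cjt r w) := by
  have h := mem_cst.1 ha
  refine mem_cst.2 ⟨R.mul_mem (R.mul_mem hr h.1) (R.inv_mem hr), ?_, ?_⟩
  · show (r * a * r⁻¹) • (r • w.1) = r • w.1
    rw [← mul_smul, inv_mul_cancel_right, mul_smul, h.2.1]
  · show (r * a * r⁻¹) * (r * w.2.1 * r⁻¹) = (r * w.2.1 * r⁻¹) * (r * a * r⁻¹)
    calc (r * a * r⁻¹) * (r * w.2.1 * r⁻¹) = r * (a * w.2.1) * r⁻¹ := by group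
      _ = r * (w.2.1 * a) * r⁻¹ := by rw [h.2.2]
      _ = _ := by group

omit [Finite G] in
theorem map_mul (r : G) : Subgroup.zpowers (cjt r w).2.1 ⊔
    (clo R w).map (MulAut.conj r).toMonoidHom = (mul R w).map (MulAut.conj r).toMonoidHom := by
  unfold mul
  rw [Subgroup.map_sup, MonoidHom.map_zpowers]
  rfl

omit [Finite G] in
theorem clo_cjt_le {r : G} (hr : r ∈ R) :
    clo R (cjt r w) ≤ (clo R w).map (MulAut.conj r).toMonoidHom := by
  refine clo_le ?_ ?_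
  · rintro _ ⟨a, ha, rfl⟩
    exact cst_cjt hr (clo_cst ha)
  · intro b hb hd
    rw [map_mul] at hd
    have ha := cst_cjt (R.inv_mem hr) hb
    rw [cjt_inv] at ha
    refine ⟨r⁻¹ * b * r⁻¹⁻¹, clo_closed _ ha ?_, ?_⟩
    · obtain ⟨m, hm, hm2⟩ := hd
      have h1 : r * m * r⁻¹ = (r * w.2.2 * r⁻¹)⁻¹ * b * (r * w.2.2 * r⁻¹) * b⁻¹ := hm2
      have h2 : w.2.2⁻¹ * (r⁻¹ * b * r⁻¹⁻¹) * w.2.2 * (r⁻¹ * b * r⁻¹⁻¹)⁻¹ = m := by
        calc w.2.2⁻¹ * (r⁻¹ * b * r⁻¹⁻¹) * w.2.2 * (r⁻¹ * b * r⁻¹⁻¹)⁻¹ =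
            r⁻¹ * ((r * w.2.2 * r⁻¹)⁻¹ * b * (r * w.2.2 * r⁻¹) * b⁻¹) * r := by group
          _ = m := by rw [← h1]; group
      rw [h2]
      exact hm
    · show r * (r⁻¹ * b * r⁻¹⁻¹) * r⁻¹ = b
      group

omit [Finite G] in
theorem mul_cjt_le {r : G} (hr : r ∈ R) :
    mul R (cjt r w) ≤ (mul R w).map (MulAut.conj r).toMonoidHom := by
  rw [← map_mul]
  exact sup_le_sup_left (clo_cjt_le hr) _

omit [Finite G] in
theorem cls_cjt_le {r : G} (hr : r ∈ R) : cls R (cjt r w) ⊆ cls R w := by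
  rintro w'' ⟨r', hr', m, hm, rfl⟩
  obtain ⟨m0, hm0, hm1⟩ := mul_cjt_le hr hm
  refine ⟨r' * r, R.mul_mem hr' hr, m0, hm0, ?_⟩
  have h1 : rm (cjt r w) m = cjt r (rm w m0) := by
    have h2 : m = r * m0 * r⁻¹ := hm1.symm
    unfold rm cjt
    refine Prod.ext rfl (Prod.ext rfl ?_)
    show r * w.2.2 * r⁻¹ * m = r * (w.2.2 * m0) * r⁻¹
    rw [h2]
    group
  rw [h1, cjt_cjt]

omit [Finite G] in
theorem cls_cjt {r : G} (hr : r ∈ R) : cls R (cjt r w) = cls R w := by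
  refine Set.Subset.antisymm (cls_cjt_le hr) ?_
  have h := cls_cjt_le (w := cjt r w) (R.inv_mem hr)
  rwa [cjt_inv] at h

omit [Finite G] in
theorem om_cjt (hR : ∀ r ∈ R, r * g = g * r) (hw : InOm R g w) {r : G} (hr : r ∈ R) :
    InOm R g (cjt r w) := by
  refine ⟨?_, ?_, ?_, ?_⟩
  · show (r * w.2.1 * r⁻¹) • (r • w.1) = r • w.1
    rw [← mul_smul, inv_mul_cancel_right, mul_smul, hw.sx]
  · show (r * w.2.2 * r⁻¹) • (r • w.1) = r • w.1
    rw [← mul_smul, inv_mul_cancel_right, mul_smul, hw.sy]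
  · show (r * w.2.1 * r⁻¹) * (r * w.2.2 * r⁻¹) * (r * w.2.1 * r⁻¹)⁻¹ * (r * w.2.2 * r⁻¹)⁻¹ = g
    calc (r * w.2.1 * r⁻¹) * (r * w.2.2 * r⁻¹) * (r * w.2.1 * r⁻¹)⁻¹ * (r * w.2.2 * r⁻¹)⁻¹ =
        r * (w.2.1 * w.2.2 * w.2.1⁻¹ * w.2.2⁻¹) * r⁻¹ := by group
      _ = r * g * r⁻¹ := by rw [hw.cm]
      _ = g := by rw [hR r hr, mul_inv_cancel_right]
  · intro U hUR hUs hUx hUy
    have hU := hw.tr (U.map (MulAut.conj r⁻¹).toMonoidHom) ?_ ?_ ?_ ?_
    · exact (Subgroup.map_eq_bot_iff_of_injective _ (MulAut.conj r⁻¹).injective).1 hU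
    · rintro _ ⟨u, hu, rfl⟩
      exact R.mul_mem (R.mul_mem (R.inv_mem hr) (hUR hu)) (R.inv_mem (R.inv_mem hr))
    · rintro _ ⟨u, hu, rfl⟩
      show (r⁻¹ * u * r⁻¹⁻¹) • w.1 = w.1
      have h1 : u • (r • w.1) = r • w.1 := hUs u hu
      rw [inv_inv, mul_smul, mul_smul, h1, inv_smul_smul]
    · rintro _ ⟨u, hu, rfl⟩
      refine ⟨(r * w.2.1 * r⁻¹) * u * (r * w.2.1 * r⁻¹)⁻¹, hUx u hu, ?_⟩
      show r⁻¹ * ((r * w.2.1 * r⁻¹) * u * (r * w.2.1 * r⁻¹)⁻¹) * r⁻¹⁻¹ =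
        w.2.1 * (r⁻¹ * u * r⁻¹⁻¹) * w.2.1⁻¹
      group
    · rintro _ ⟨u, hu, rfl⟩
      refine ⟨(r * w.2.2 * r⁻¹) * u * (r * w.2.2 * r⁻¹)⁻¹, hUy u hu, ?_⟩
      show r⁻¹ * ((r * w.2.2 * r⁻¹) * u * (r * w.2.2 * r⁻¹)⁻¹) * r⁻¹⁻¹ =
        w.2.2 * (r⁻¹ * u * r⁻¹⁻¹) * w.2.2⁻¹
      group

omit [Finite G] in
theorem cls_rm_le {m : G} (hm : m ∈ mul R w) (h : mul R (rm w m) = mul R w) :
    cls R (rm w m) = cls R w := by
  have hrm : ∀ a b : G, rm (rm w a) b = rm w (a * b) := by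
    intro a b
    unfold rm
    refine Prod.ext rfl (Prod.ext rfl ?_)
    show w.2.2 * a * b = w.2.2 * (a * b)
    rw [mul_assoc]
  refine Set.Subset.antisymm ?_ ?_
  · rintro w'' ⟨r, hr, m1, hm1, rfl⟩
    rw [h] at hm1
    exact ⟨r, hr, m * m1, Subgroup.mul_mem _ hm hm1, by rw [hrm]⟩
  · rintro w'' ⟨r, hr, m1, hm1, rfl⟩
    refine ⟨r, hr, m⁻¹ * m1, ?_, ?_⟩
    · rw [h]
      exact Subgroup.mul_mem _ (Subgroup.inv_mem _ hm) hm1
    · rw [hrm, mul_inv_cancel_left]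

omit [Finite G] in
theorem eq_of {r m m' : G} (hr : r ∈ R) (h : rm w m' = cjt r (rm w m)) :
    r ∈ cst R w ∧ w.2.2⁻¹ * r * w.2.2 = m' * r * m⁻¹ := by
  have h1 : w.1 = r • w.1 := congrArg Prod.fst h
  have h2 : w.2.1 = r * w.2.1 * r⁻¹ := congrArg (fun z => z.2.1) h
  have h3 : w.2.2 * m' = r * (w.2.2 * m) * r⁻¹ := congrArg (fun z => z.2.2) h
  refine ⟨mem_cst.2 ⟨hr, h1.symm, ?_⟩, ?_⟩
  · have h4 : w.2.1 * r = r * w.2.1 := by
      calc w.2.1 * r = (r * w.2.1 * r⁻¹) * r := by rw [← h2]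
        _ = r * w.2.1 := by group
    exact h4.symm
  · have h4 : m' = w.2.2⁻¹ * (w.2.2 * m') := by group
    rw [h4, h3]
    group

theorem clo (pur : PurStmt) : CloStmt := by
  intro G X _ _ _ _ R g hR w hw
  have hg := clo_good hR hw
  have hcm := good_comm hg
  have hcm' : ∀ m ∈ mul R w, ∀ m' ∈ mul R w, m * m' = m' * m := hcm
  refine ⟨?_, hcm', ?_, ?_⟩
  · rintro w' ⟨r, hr, m, hm, rfl⟩
    refine ⟨om_cjt hR (good_om hw hg hm) hr, ?_⟩
    rw [cls_cjt hr]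
    exact cls_rm_le hm (rm_mul hR hw hm)
  · intro m hm m' hm' m'' hm'' r hr h
    obtain ⟨h1, h2⟩ := eq_of hr h
    obtain ⟨h3, h4⟩ := key2 hR hw h1 hm hm' h2
    have h5 := mem_cst.1 h1
    unfold rm cjt
    refine Prod.ext h5.2.1.symm (Prod.ext ?_ ?_)
    · show w.2.1 = r * w.2.1 * r⁻¹
      rw [h5.2.2, mul_inv_cancel_right]
    · show w.2.2 * (m' * m'') = r * (w.2.2 * (m * m'')) * r⁻¹
      have h6 : w.2.2 * m' = r * (w.2.2 * m) * r⁻¹ := congrArg (fun z => z.2.2) h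
      have h7 : r⁻¹ * m'' = m'' * r⁻¹ := by
        calc r⁻¹ * m'' = r⁻¹ * (m'' * r) * r⁻¹ := by group
          _ = r⁻¹ * (r * m'') * r⁻¹ := by rw [h4 m'' hm'']
          _ = _ := by group
      calc w.2.2 * (m' * m'') = (w.2.2 * m') * m'' := by rw [mul_assoc]
        _ = r * (w.2.2 * m) * (r⁻¹ * m'') := by rw [h6, mul_assoc]
        _ = r * (w.2.2 * m) * (m'' * r⁻¹) := by rw [h7]
        _ = _ := by group
  · have hQM : Pool.Agent.PP.ML.clo R w ≤ mul R w := le_sup_right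
    refine ⟨((Pool.Agent.PP.ML.clo R w).subgroupOf (mul R w)).index, ?_, ?_⟩
    · -- counting
      have hch : ∀ c : cls R w, ∃ p : R × mul R w, (c : X × G × G) =
          cjt (p.1 : G) (rm w (p.2 : G)) := by
        rintro ⟨c, r, hr, m, hm, hc⟩
        exact ⟨(⟨r, hr⟩, ⟨m, hm⟩), hc⟩
      choose f hf using hch
      have hcR : ∀ q : Pool.Agent.PP.ML.clo R w, (q : G) ∈ R := fun q =>
        (mem_cst.1 (clo_cst q.2)).1
      set F : (cls R w) × (Pool.Agent.PP.ML.clo R w) → R × mul R w := fun p =>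
        ((f p.1).1 * ⟨(p.2 : G)⁻¹, R.inv_mem (hcR p.2)⟩,
          ⟨w.2.2⁻¹ * (p.2 : G) * w.2.2 * (p.2 : G)⁻¹, hg.dq _ p.2.2⟩ * (f p.1).2) with hF
      have hev : ∀ p, cjt (((F p).1 : R) : G) (rm w (((F p).2 : mul R w) : G)) =
          (p.1 : X × G × G) := by
        rintro ⟨c, q⟩
        rw [hf c]
        have hqc := mem_cst.1 (clo_cst q.2)
        show cjt (((f c).1 : G) * (q : G)⁻¹) (rm w (w.2.2⁻¹ * (q : G) * w.2.2 * (q : G)⁻¹ *
          ((f c).2 : G))) = _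
        rw [← cjt_cjt]
        congr 1
        unfold rm cjt
        refine Prod.ext ?_ (Prod.ext ?_ ?_)
        · show (q : G)⁻¹ • w.1 = w.1
          rw [inv_smul_eq_iff]
          exact hqc.2.1.symm
        · show (q : G)⁻¹ * w.2.1 * (q : G)⁻¹⁻¹ = w.2.1
          rw [inv_inv, mul_assoc, ← hqc.2.2, inv_mul_cancel_left]
        · show (q : G)⁻¹ * (w.2.2 * (w.2.2⁻¹ * (q : G) * w.2.2 * (q : G)⁻¹ *
            ((f c).2 : G))) * (q : G)⁻¹⁻¹ = w.2.2 * ((f c).2 : G)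
          have h1 := hcm' (q : G) (hQM q.2) ((f c).2 : G) (f c).2.2
          calc (q : G)⁻¹ * (w.2.2 * (w.2.2⁻¹ * (q : G) * w.2.2 * (q : G)⁻¹ *
              ((f c).2 : G))) * (q : G)⁻¹⁻¹ =
              w.2.2 * ((q : G)⁻¹ * (((f c).2 : G) * (q : G))) := by group
            _ = w.2.2 * ((q : G)⁻¹ * ((q : G) * ((f c).2 : G))) := by rw [h1]
            _ = _ := by group
      have hbij : Function.Bijective F := by
        constructor
        · intro p p' hpp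
          have h1 : p.1 = p'.1 := by
            apply Subtype.ext
            rw [← hev p, ← hev p', hpp]
          have h2 : ((F p).1 : G) = ((F p').1 : G) := by rw [hpp]
          have h3 : ((f p.1).1 : G) * (p.2 : G)⁻¹ = ((f p'.1).1 : G) * (p'.2 : G)⁻¹ := h2
          rw [h1] at h3
          have h4 := inv_injective (mul_left_cancel h3)
          exact Prod.ext h1 (Subtype.ext h4)
        · rintro ⟨r1, m1⟩
          have hc : cjt (r1 : G) (rm w (m1 : G)) ∈ cls R w := ⟨r1, r1.2, m1, m1.2, rfl⟩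
          set c : cls R w := ⟨_, hc⟩ with hcdef
          have h1 := hf c
          have h2 : rm w (m1 : G) = cjt ((r1 : G)⁻¹ * ((f c).1 : G)) (rm w ((f c).2 : G)) := by
            rw [← cjt_cjt, ← h1]
            exact (cjt_inv _ _).symm
          have hq : (r1 : G)⁻¹ * ((f c).1 : G) ∈ R := R.mul_mem (R.inv_mem r1.2) (f c).1.2
          obtain ⟨h3, h4⟩ := eq_of hq h2
          obtain ⟨h5, h6⟩ := key2 hR hw h3 (f c).2.2 m1.2 h4
          refine ⟨(c, ⟨_, h5⟩), Prod.ext (Subtype.ext ?_) (Subtype.ext ?_)⟩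
          · show ((f c).1 : G) * ((r1 : G)⁻¹ * ((f c).1 : G))⁻¹ = (r1 : G)
            group
          · show w.2.2⁻¹ * ((r1 : G)⁻¹ * ((f c).1 : G)) * w.2.2 *
              ((r1 : G)⁻¹ * ((f c).1 : G))⁻¹ * ((f c).2 : G) = (m1 : G)
            rw [h4]
            have h7 := h6 ((f c).2 : G) (f c).2.2
            generalize (r1 : G)⁻¹ * ((f c).1 : G) = q at h7 ⊢
            generalize ((f c).2 : G) = m at h7 ⊢
            calc (m1 : G) * q * m⁻¹ * q⁻¹ * m = (m1 : G) * q * (q * m)⁻¹ * m := by group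
              _ = (m1 : G) * q * (m * q)⁻¹ * m := by rw [h7]
              _ = m1 := by group
      have h1 := Nat.card_congr (Equiv.ofBijective F hbij)
      rw [Nat.card_prod, Nat.card_prod] at h1
      have h2 := Subgroup.card_mul_index ((Pool.Agent.PP.ML.clo R w).subgroupOf (mul R w))
      have h3 : Nat.card ((Pool.Agent.PP.ML.clo R w).subgroupOf (mul R w)) =
          Nat.card (Pool.Agent.PP.ML.clo R w) :=
        Nat.card_congr (Subgroup.subgroupOfEquivOfLe hQM).toEquiv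
      rw [h3] at h2
      have h4 : 0 < Nat.card (Pool.Agent.PP.ML.clo R w) := Nat.card_pos
      rw [← h2] at h1
      have h5 : (cls R w).ncard = Nat.card (cls R w) := (Nat.card_coe_set_eq _).symm
      rw [h5]
      refine Nat.eq_of_mul_eq_mul_right h4 ?_
      rw [h1]
      ring
    · -- PUR
      let _ : CommGroup (mul R w) := { (inferInstance : Group (mul R w)) with
        mul_comm := fun a b => Subtype.ext (hcm' a a.2 b b.2) }
      have hcl : ∀ q ∈ Pool.Agent.PP.ML.clo R w, w.2.2⁻¹ * q * w.2.2 ∈ mul R w := by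
        intro q hq
        have h1 := Subgroup.mul_mem _ (hg.dq q hq) (hQM hq)
        rwa [inv_mul_cancel_right] at h1
      set ψ : (Pool.Agent.PP.ML.clo R w).subgroupOf (mul R w) →* mul R w :=
        { toFun := fun q => ⟨w.2.2⁻¹ * ((q : mul R w) : G) * w.2.2,
            hcl _ (Subgroup.mem_subgroupOf.1 q.2)⟩
          map_one' := Subtype.ext (by
            show w.2.2⁻¹ * (1 : G) * w.2.2 = 1
            group)
          map_mul' := fun a b => Subtype.ext (by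
            show w.2.2⁻¹ * (((a : mul R w) : G) * ((b : mul R w) : G)) * w.2.2 =
              (w.2.2⁻¹ * ((a : mul R w) : G) * w.2.2) * (w.2.2⁻¹ * ((b : mul R w) : G) * w.2.2)
            group) } with hψ
      have h1 := pur (mul R w) ((Pool.Agent.PP.ML.clo R w).subgroupOf (mul R w)) ψ ?_ ?_
        ⟨w.2.1, Subgroup.mem_sup_left (Subgroup.mem_zpowers _)⟩
      · exact congrArg Subtype.val h1
      · intro a b hab
        have h2 : w.2.2⁻¹ * ((a : mul R w) : G) * w.2.2 =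
          w.2.2⁻¹ * ((b : mul R w) : G) * w.2.2 := congrArg Subtype.val hab
        exact Subtype.ext (Subtype.ext (mul_left_cancel (mul_right_cancel h2)))
      · intro U hU hUψ
        have hUc : ∀ u ∈ U, ((u : mul R w) : G) ∈ Pool.Agent.PP.ML.clo R w := fun u hu =>
          Subgroup.mem_subgroupOf.1 (hU hu)
        have h2 := hw.tr (U.map (mul R w).subtype) ?_ ?_ ?_ ?_
        · exact (Subgroup.map_eq_bot_iff_of_injective _ (mul R w).subtype_injective).1 h2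
        · rintro _ ⟨u, hu, rfl⟩
          exact (mem_cst.1 (clo_cst (hUc u hu))).1
        · rintro _ ⟨u, hu, rfl⟩
          exact (mem_cst.1 (clo_cst (hUc u hu))).2.1
        · rintro _ ⟨u, hu, rfl⟩
          have h3 := (mem_cst.1 (clo_cst (hUc u hu))).2.2
          refine ⟨u, hu, ?_⟩
          show (u : G) = w.2.1 * (u : G) * w.2.1⁻¹
          rw [← h3, mul_inv_cancel_right]
        · have h3 : w.2.2⁻¹ ∈ Subgroup.normalizer ((U.map (mul R w).subtype : Subgroup G) :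
              Set G) := by
            refine mem_norm ?_
            rintro _ ⟨u, hu, rfl⟩
            refine ⟨_, hUψ ⟨u, hU hu⟩ hu, ?_⟩
            show w.2.2⁻¹ * (u : G) * w.2.2 = w.2.2⁻¹ * (u : G) * w.2.2⁻¹⁻¹
            rw [inv_inv]
          intro v hv
          have h4 := norm_conj' h3 hv
          rwa [inv_inv] at h4

end Pool.Agent.PP.ML.H30
end
end -- Pool.Agent.Helper30_ML.CLO

section -- Pool.Agent.Helper84_ML.Brd

/-!
# Squad ML: module BRD (the braid relations)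
-/

noncomputable section

namespace Pool.Agent.PP.ML.H84

open Pool.Agent.PP.ML

private theorem conj_inv_mem {G : Type} [Group G] [Finite G] (U : Subgroup G) (x : G)
    (h : ∀ u ∈ U, x * u * x⁻¹ ∈ U) : ∀ u ∈ U, x⁻¹ * u * x ∈ U := by
  have hp : ∀ n : ℕ, ∀ u ∈ U, x ^ n * u * (x ^ n)⁻¹ ∈ U := by
    intro n
    induction n with
    | zero => intro u hu; simpa using hu
    | succ n ih =>
      intro u hu
      have h1 := h _ (ih u hu)
      have e : x ^ (n + 1) * u * (x ^ (n + 1))⁻¹ = x * (x ^ n * u * (x ^ n)⁻¹) * x⁻¹ := by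
        rw [pow_succ']; group
      rw [e]; exact h1
  intro u hu
  have h0 := hp (orderOf x - 1) u hu
  have e : x ^ (orderOf x - 1) = x⁻¹ := by
    have h1 : x ^ (orderOf x - 1) * x = 1 := by
      rw [← pow_succ, Nat.sub_add_cancel (orderOf_pos x), pow_orderOf_eq_one]
    exact eq_inv_of_mul_eq_one_left h1
  rw [e, inv_inv] at h0
  exact h0

private theorem in_aa {G X : Type} [Group G] [Finite G] [MulAction G X] (R : Subgroup G) (g : G)
    (w : X × G × G) (h : InOm R g w) : InOm R g (aa w) := by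
  obtain ⟨s, x, y⟩ := w
  obtain ⟨h1, h2, h3, h4⟩ := h
  simp only at h1 h2 h3 h4
  refine ⟨h1, ?_, ?_, ?_⟩
  · show (y * x) • s = s
    rw [mul_smul, h1, h2]
  · show x * (y * x) * x⁻¹ * (y * x)⁻¹ = g
    rw [← h3]; group
  · intro U hU hf hx hy
    refine h4 U hU hf hx ?_
    intro u hu
    have h5 := hy _ (conj_inv_mem U x hx u hu)
    have e : (aa (s, x, y)).2.2 * (x⁻¹ * u * x) * ((aa (s, x, y)).2.2)⁻¹ = y * u * y⁻¹ := by
      show (y * x) * (x⁻¹ * u * x) * (y * x)⁻¹ = y * u * y⁻¹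
      group
    have h6 : (aa (s, x, y)).2.2 * (x⁻¹ * u * x) * ((aa (s, x, y)).2.2)⁻¹ ∈ U := h5
    rw [e] at h6
    exact h6

private theorem in_bb {G X : Type} [Group G] [MulAction G X] (R : Subgroup G) (g : G)
    (w : X × G × G) (h : InOm R g w) : InOm R g (bb w) := by
  obtain ⟨s, x, y⟩ := w
  obtain ⟨h1, h2, h3, h4⟩ := h
  simp only at h1 h2 h3 h4
  refine ⟨?_, h2, ?_, ?_⟩
  · show (x * y⁻¹) • s = s
    rw [mul_smul, inv_smul_eq_iff.2 h2.symm, h1]
  · show (x * y⁻¹) * y * (x * y⁻¹)⁻¹ * y⁻¹ = g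
    rw [← h3]; group
  · intro U hU hf hx hy
    refine h4 U hU hf ?_ hy
    intro u hu
    have h5 : (x * y⁻¹) * (y * u * y⁻¹) * (x * y⁻¹)⁻¹ ∈ U := hx _ (hy u hu)
    have e : (x * y⁻¹) * (y * u * y⁻¹) * (x * y⁻¹)⁻¹ = x * u * x⁻¹ := by group
    rw [e] at h5
    exact h5

private theorem in_cjt {G X : Type} [Group G] [MulAction G X] (R : Subgroup G) (g : G)
    (hR : ∀ r ∈ R, r * g = g * r)
    (w : X × G × G) (h : InOm R g w) (r : G) (hr : r ∈ R) : InOm R g (cjt r w) := by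
  obtain ⟨s, x, y⟩ := w
  obtain ⟨h1, h2, h3, h4⟩ := h
  simp only at h1 h2 h3 h4
  refine ⟨?_, ?_, ?_, ?_⟩
  · show (r * x * r⁻¹) • (r • s) = r • s
    rw [← mul_smul, show r * x * r⁻¹ * r = r * x by group, mul_smul, h1]
  · show (r * y * r⁻¹) • (r • s) = r • s
    rw [← mul_smul, show r * y * r⁻¹ * r = r * y by group, mul_smul, h2]
  · show (r * x * r⁻¹) * (r * y * r⁻¹) * (r * x * r⁻¹)⁻¹ * (r * y * r⁻¹)⁻¹ = g
    have e : (r * x * r⁻¹) * (r * y * r⁻¹) * (r * x * r⁻¹)⁻¹ * (r * y * r⁻¹)⁻¹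
        = r * (x * y * x⁻¹ * y⁻¹) * r⁻¹ := by group
    rw [e, h3, hR r hr]; group
  · intro U hU hf hx hy
    have hf' : ∀ u ∈ U, u • (r • s) = r • s := hf
    have hx' : ∀ u ∈ U, (r * x * r⁻¹) * u * (r * x * r⁻¹)⁻¹ ∈ U := hx
    have hy' : ∀ u ∈ U, (r * y * r⁻¹) * u * (r * y * r⁻¹)⁻¹ ∈ U := hy
    have hV : U.comap (MulAut.conj r).toMonoidHom = ⊥ := by
      refine h4 _ ?_ ?_ ?_ ?_
      · intro u hu
        have hu' : r * u * r⁻¹ ∈ U := hu
        have e : u = r⁻¹ * (r * u * r⁻¹) * r := by group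
        rw [e]
        exact R.mul_mem (R.mul_mem (R.inv_mem hr) (hU hu')) hr
      · intro u hu
        have hu' : r * u * r⁻¹ ∈ U := hu
        have h5 := hf' _ hu'
        rw [← mul_smul, show r * u * r⁻¹ * r = r * u by group, mul_smul] at h5
        exact (MulAction.injective r) h5
      · intro u hu
        have hu' : r * u * r⁻¹ ∈ U := hu
        have h5 := hx' _ hu'
        show r * (x * u * x⁻¹) * r⁻¹ ∈ U
        have e : (r * x * r⁻¹) * (r * u * r⁻¹) * (r * x * r⁻¹)⁻¹ = r * (x * u * x⁻¹) * r⁻¹ := by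
          group
        rw [← e]; exact h5
      · intro u hu
        have hu' : r * u * r⁻¹ ∈ U := hu
        have h5 := hy' _ hu'
        show r * (y * u * y⁻¹) * r⁻¹ ∈ U
        have e : (r * y * r⁻¹) * (r * u * r⁻¹) * (r * y * r⁻¹)⁻¹ = r * (y * u * y⁻¹) * r⁻¹ := by
          group
        rw [← e]; exact h5
    rw [eq_bot_iff]
    intro u hu
    have h6 : r⁻¹ * u * r ∈ U.comap (MulAut.conj r).toMonoidHom := by
      show r * (r⁻¹ * u * r) * r⁻¹ ∈ U
      rw [show r * (r⁻¹ * u * r) * r⁻¹ = u by group]; exact hu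
    rw [hV, Subgroup.mem_bot] at h6
    rw [Subgroup.mem_bot]
    have e : u = r * (r⁻¹ * u * r) * r⁻¹ := by group
    rw [e, h6]; group

private theorem free {G X : Type} [Group G] [MulAction G X] (R : Subgroup G) (g : G)
    (w : X × G × G) (h : InOm R g w) (r : G) (hr : r ∈ R) (e : cjt r w = w) : r = 1 := by
  obtain ⟨s, x, y⟩ := w
  obtain ⟨h1, h2, h3, h4⟩ := h
  simp only at h1 h2 h3 h4
  simp only [cjt, Prod.mk.injEq] at e
  obtain ⟨e1, e2, e3⟩ := e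
  have cx : Commute r x := by
    show r * x = x * r
    exact mul_inv_eq_iff_eq_mul.1 e2
  have cy : Commute r y := by
    show r * y = y * r
    exact mul_inv_eq_iff_eq_mul.1 e3
  have hb := h4 (Subgroup.zpowers r) ?_ ?_ ?_ ?_
  · have : r ∈ Subgroup.zpowers r := Subgroup.mem_zpowers r
    rw [hb, Subgroup.mem_bot] at this
    exact this
  · rw [Subgroup.zpowers_le]; exact hr
  · intro u hu
    have h5 : Subgroup.zpowers r ≤ MulAction.stabilizer G s := by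
      rw [Subgroup.zpowers_le]; exact e1
    exact h5 hu
  · rintro u ⟨n, rfl⟩
    have h5 : x * r ^ n * x⁻¹ = r ^ n := by
      rw [← (cx.zpow_left n).eq]; group
    show x * r ^ n * x⁻¹ ∈ Subgroup.zpowers r
    rw [h5]; exact ⟨n, rfl⟩
  · rintro u ⟨n, rfl⟩
    have h5 : y * r ^ n * y⁻¹ = r ^ n := by
      rw [← (cy.zpow_left n).eq]; group
    show y * r ^ n * y⁻¹ ∈ Subgroup.zpowers r
    rw [h5]; exact ⟨n, rfl⟩

theorem brd : BrdStmt := by
  intro G X _ _ _ R g hR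
  refine ⟨?_, ?_, ?_, ?_⟩
  · intro w h
    have hg : g • w.1 = w.1 := by
      rw [← h.cm, mul_smul, mul_smul, mul_smul, inv_smul_eq_iff.2 h.sy.symm,
        inv_smul_eq_iff.2 h.sx.symm, h.sy, h.sx]
    refine ⟨in_aa R g w h, in_bb R g w h, fun r hr => in_cjt R g hR w h r hr,
      fun r hr e => free R g w h r hr e, ?_, ?_, hg⟩
    · obtain ⟨s, x, y⟩ := w
      simp only [aa, bb, Prod.mk.injEq, true_and]
      constructor <;> group
    · have hg' : g⁻¹ • w.1 = w.1 := inv_smul_eq_iff.2 hg.symm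
      have hc := h.cm
      obtain ⟨s, x, y⟩ := w
      simp only at hc hg'
      subst hc
      simp only [Function.iterate_succ, Function.iterate_zero, Function.comp, id, aa, bb, cjt,
        Prod.mk.injEq]
      refine ⟨hg'.symm, ?_, ?_⟩ <;> group
  · rintro ⟨s, x, y⟩ ⟨s', x', y'⟩ e
    simp only [aa, Prod.mk.injEq] at e
    obtain ⟨rfl, rfl, e3⟩ := e
    have := mul_right_cancel e3
    subst this
    rfl
  · rintro ⟨s, x, y⟩ ⟨s', x', y'⟩ e
    simp only [bb, Prod.mk.injEq] at e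
    obtain ⟨rfl, e2, rfl⟩ := e
    have := mul_right_cancel e2
    subst this
    rfl
  · rintro r ⟨s, x, y⟩
    simp only [aa, bb, cjt, Prod.mk.injEq, true_and, and_true]
    constructor <;> group

end Pool.Agent.PP.ML.H84
end
end -- Pool.Agent.Helper84_ML.Brd
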