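import Pool.Agent.Helper12_AWB.B073
import Pool.Agent.Helper12_AWB.B090
import Pool.Agent.Helper50_PP.Ffa
import Pool.Agent.Helper66_KF.Stmts

/-!
# Merged copies (generated) of the modules

* `Pool.Agent.Helper26_PP.Cux`
* `Pool.Agent.Helper67_PP.Rkr`
* `Pool.Agent.Helper9_PP.Lq`
* `Pool.Agent.Helper56_KF.Ct4`
* `Pool.Agent.Helper66_DF.LqE`
-/

set_option autoImplicit false

section -- Pool.Agent.Helper26_PP.Cux

/-!
LQ, module CUX: transport of chains to a subgroup.
-/

open scoped BigOperators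

set_option linter.unusedSectionVars false

noncomputable section

namespace Pool.Agent.Helper26_PP

open Pool.Agent.PP Pool.Agent.Helper51_AWC Pool.Agent.Helper79_WRA

section rk

variable {F H H' : Type} [Field F] [Group H] [Group H'] [Finite H] [Finite H']

/-- ranks and isomorphisms -/
theorem rk_iso (φ : H ≃* H') (a : H' → F) :
    rk (fun t => a (φ t)) (cfs F H) = rk a (cfs F H') := by
  let Φ : (H' → F) ≃ₗ[F] (H → F) := LinearEquiv.funCongrLeft F F φ.toEquiv
  have hΦ : ∀ f : H' → F, Φ f = fun t => f (φ t) := fun f => rfl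
  have h1 : (cfs F H) = (cfs F H').map (Φ : (H' → F) →ₗ[F] (H → F)) := by
    ext f
    rw [Submodule.mem_map]
    constructor
    · intro hf
      refine ⟨fun t => f (φ.symm t), ?_, ?_⟩
      · intro x y
        have h2 : φ.symm (y * x * y⁻¹) = φ.symm y * φ.symm x * (φ.symm y)⁻¹ := by
          rw [map_mul, map_mul, map_inv]
        change f (φ.symm (y * x * y⁻¹)) = f (φ.symm x)
        rw [h2]
        exact hf _ _
      · funext t
        change f (φ.symm (φ t)) = f t
        rw [MulEquiv.symm_apply_apply]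
    · rintro ⟨g, hg, rfl⟩
      intro x y
      change g (φ (y * x * y⁻¹)) = g (φ x)
      rw [map_mul, map_mul, map_inv]
      exact hg _ _
  have h2 : ∀ f : H' → F, actL (fun t => a (φ t)) (Φ f) = Φ (actL a f) :=
    fun f => H97.actF_comp φ a f
  have h3 : (cfs F H).map (actL (fun t => a (φ t))) =
      ((cfs F H').map (actL a)).map (Φ : (H' → F) →ₗ[F] (H → F)) := by
    rw [h1, ← Submodule.map_comp, ← Submodule.map_comp]
    congr 1
    apply LinearMap.ext
    intro f
    exact h2 f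
  unfold rk
  rw [h3]
  exact LinearEquiv.finrank_map_eq Φ _

end rk

section sub

variable {F X : Type} [Field F] [Group X] [Finite X] {C : Subgroup X}

theorem stab_map (t : Finset (Subgroup C)) :
    (stab t).map C.subtype = C ⊓ stab (H20.upC t) := by
  ext g
  rw [Subgroup.mem_map, Subgroup.mem_inf]
  constructor
  · rintro ⟨x, hx, rfl⟩
    exact ⟨x.2, (H20.stab_res t x).1 hx⟩
  · rintro ⟨h1, h2⟩
    exact ⟨⟨g, h1⟩, (H20.stab_res t ⟨g, h1⟩).2 h2, rfl⟩

/-- the isomorphism between the stabilisers -/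
def stabEq (t : Finset (Subgroup C)) : stab t ≃* ↥(C ⊓ stab (H20.upC t)) :=
  ((stab t).equivMapOfInjective C.subtype C.subtype_injective).trans
    (MulEquiv.subgroupCongr (stab_map t))

theorem stabEq_coe (t : Finset (Subgroup C)) (x : stab t) :
    ((stabEq t x : ↥(C ⊓ stab (H20.upC t))) : X) = ((x : C) : X) := rfl

theorem br_eq (t : Finset (Subgroup C)) (e : X → F) (g : C) :
    br (PP.top t) (fun x : C => e x) g = br (PP.top (H20.upC t)) e g := by
  apply H20.br_res
  intro r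
  rw [H20.top_res, Subgroup.mem_map]
  rfl

theorem sum_up {ℓ : ℕ} {Y : Subgroup X} (hY : Y ≤ C) (g : Finset (Subgroup X) → ℤ) :
    ∑ d ∈ chainsOn (psubIn ℓ Y) ⊥, g d =
      ∑ t ∈ chainsOn (psubIn ℓ (Y.subgroupOf C)) ⊥, g (H20.upC t) := by
  symm
  apply Finset.sum_bij' (fun t _ => H20.upC t) (fun d _ => H20.dnC C d)
  · intro t ht
    exact H20.upC_mem hY ht
  · intro d hd
    exact H20.dnC_mem hd
  · intro t _
    exact H20.dn_up t
  · intro d hd
    apply H20.up_dn
    intro D hD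
    exact (mem_psubIn.1 ((mem_chainsOn.1 hd).1 hD)).1.trans hY
  · intro t _
    rfl

end sub

theorem cux : CuxStmt := by
  intro ℓ F _ X _ _ C Y' hY e
  constructor
  · rw [sum_up hY]
    refine Finset.sum_congr rfl fun t _ => ?_
    rw [H20.upC_card, ← Nat.card_congr (stabEq t).toEquiv]
    congr 3
    have h1 := H97.ncard_comp (stabEq t)
      (fun u : ↥(C ⊓ stab (H20.upC t)) => br (PP.top (H20.upC t)) e u)
    unfold lnum
    rw [← h1]
    congr 1
    ext f
    have h2 : (fun u : stab t => br (PP.top t) (fun x : C => e x) u) =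
        fun u : stab t => br (PP.top (H20.upC t)) e ((stabEq t u : ↥(C ⊓ stab (H20.upC t))) : X) := by
      funext u
      rw [br_eq, stabEq_coe]
    rw [h2]
  · rw [sum_up hY]
    refine Finset.sum_congr rfl fun t _ => ?_
    rw [H20.upC_card, ← Nat.card_congr (stabEq t).toEquiv]
    congr 3
    have h1 := rk_iso (stabEq t)
      (fun u : ↥(C ⊓ stab (H20.upC t)) => br (PP.top (H20.upC t)) e u)
    rw [← h1]
    have h2 : (fun u : stab t => br (PP.top t) (fun x : C => e x) u) =
        fun u : stab t => br (PP.top (H20.upC t)) e ((stabEq t u : ↥(C ⊓ stab (H20.upC t))) : X) := by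
      funext u
      rw [br_eq, stabEq_coe]
    rw [h2]

end Pool.Agent.Helper26_PP
end
end -- Pool.Agent.Helper26_PP.Cux

section -- Pool.Agent.Helper67_PP.Rkr

/-!
# Squad PP, module RKR: the relative theorem of Knörr and Robinson
-/

open scoped BigOperators

noncomputable section

namespace Pool.Agent.PP.H67

open Pool.Agent.Helper51_AWC Pool.Agent.Helper79_WRA Pool.Agent.PP

open Classical in
theorem smo_sub (hS : SmoStmt) {ℓ : ℕ} {F : Type} [Field F] (hF : GoodF ℓ F) {G : Type} [Group G]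
    [Fintype G] (X L : Subgroup G) (hL : L.Normal) (hi : ∃ n : ℕ, L.index = ℓ ^ n) (a : G → F)
    (ha : IsIdem (fun t : X => a t)) :
    Nat.card X * rk (fun t : X => a t) (cfsO F (L.subgroupOf X)) =
      ∑ u ∈ Finset.univ.filter (fun u : G => (∃ n : ℕ, u ^ ℓ ^ n = 1) ∧ u ∉ L),
        if u ∈ X then Nat.card (Subgroup.centralizer ({u} : Set G) ⊓ X : Subgroup G) *
          lnum (Subgroup.centralizer ({u} : Set G) ⊓ X) a else 0 := by
  have := Fintype.ofFinite X
  have hi' : ∃ n : ℕ, (L.subgroupOf X).index = ℓ ^ n := by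
    obtain ⟨n, hn⟩ := hi
    have h1 : L.relIndex X ∣ L.index := Subgroup.relIndex_dvd_index_of_normal L X
    rw [hn] at h1
    obtain ⟨m, -, hm⟩ := (Nat.dvd_prime_pow hF.prime).1 h1
    exact ⟨m, hm⟩
  rw [hS ℓ F hF X (L.subgroupOf X) (hL.subgroupOf X) hi' _ ha, ← Finset.sum_filter]
  apply Finset.sum_bij (fun (u : X) _ => (u : G))
  · intro u hu
    rw [Finset.mem_filter] at hu
    rw [Finset.mem_filter, Finset.mem_filter]
    obtain ⟨⟨n, hn⟩, hu2⟩ := hu.2
    refine ⟨⟨Finset.mem_univ _, ⟨n, by rw [← Subgroup.coe_pow, hn, Subgroup.coe_one]⟩, ?_⟩, u.2⟩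
    intro h
    exact hu2 (Subgroup.mem_subgroupOf.2 h)
  · intro u _ v _ h
    exact Subtype.ext h
  · intro u hu
    rw [Finset.mem_filter, Finset.mem_filter] at hu
    obtain ⟨⟨_, ⟨n, hn⟩, hu2⟩, hu⟩ := hu
    exact ⟨⟨u, hu⟩, Finset.mem_filter.2 ⟨Finset.mem_univ _, ⟨n, Subtype.ext hn⟩,
      fun h => hu2 (Subgroup.mem_subgroupOf.1 h)⟩, rfl⟩
  · intro u _
    rw [H97.card_map, H97.lnum_map, H97.centralizer_map]

theorem chainsOn_top {ℓ : ℕ} {G : Type} [Group G] [Finite G] {Y : Subgroup G}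
    {d : Finset (Subgroup G)} (hd : d ∈ chainsOn (psubIn ℓ Y) ⊥) :
    d ∈ chainsOn (psubIn ℓ (⊤ : Subgroup G)) ⊥ := by
  rw [mem_chainsOn] at hd ⊢
  refine ⟨fun D hD => ?_, hd.2⟩
  exact mem_psubIn.2 ⟨le_top, (mem_psubIn.1 (hd.1 hD)).2⟩

section

variable {ℓ : ℕ} {F : Type} [Field F] {X : Type} [Group X] [Finite X]

omit [Finite X] in
theorem br_sup_inf {t u : X} (htu : t ∈ Subgroup.centralizer ({u} : Set X)) (Y R : Subgroup X)
    (a : X → F) : br ((Subgroup.zpowers u ⊓ Y) ⊔ R) a t = br R a t := by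
  classical
  have : t ∈ Subgroup.centralizer (((Subgroup.zpowers u ⊓ Y) ⊔ R : Subgroup X) : Set X) ↔
      t ∈ Subgroup.centralizer (R : Set X) := by
    rw [H97.mem_cent_iff, H97.mem_cent_iff, sup_le_iff]
    refine ⟨fun h => h.2, fun h => ⟨?_, h⟩⟩
    refine inf_le_left.trans ?_
    rw [Subgroup.zpowers_le, Subgroup.mem_centralizer_singleton_iff]
    exact (Subgroup.mem_centralizer_singleton_iff.1 htu).symm
  unfold br
  by_cases h : t ∈ Subgroup.centralizer (R : Set X)
  · rw [if_pos h, if_pos (this.2 h)]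
  · rw [if_neg h, if_neg (fun h' => h (this.1 h'))]

/-- a central idempotent restricted to the centraliser of an `ℓ`-element -/
theorem idem_cent (hB : BrmStmt) (hF : GoodF ℓ F) {e : X → F} (he : IsIdem e) {u : X}
    (hu : ∃ n : ℕ, u ^ ℓ ^ n = 1) :
    IsIdem (fun t : Subgroup.centralizer ({u} : Set X) => e t) := by
  classical
  have h1 : Subgroup.centralizer ((Subgroup.zpowers u : Subgroup X) : Set X) ≤
      Subgroup.centralizer ({u} : Set X) :=
    Subgroup.centralizer_le (Set.singleton_subset_iff.2 (Subgroup.mem_zpowers u))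
  have h2 := (hB ℓ F hF X (Subgroup.zpowers u) (Subgroup.centralizer ({u} : Set X))
    (H97.isPGroup_zp hu) h1 (fun g hg => H97.cent_le_norm hg)).2.2 e he
  have h3 : (fun t : Subgroup.centralizer ({u} : Set X) => br (Subgroup.zpowers u) e t) =
      fun t : Subgroup.centralizer ({u} : Set X) => e t := by
    funext t
    unfold br
    rw [if_pos]
    rw [H97.mem_cent_iff, Subgroup.zpowers_le, Subgroup.mem_centralizer_singleton_iff]
    exact (Subgroup.mem_centralizer_singleton_iff.1 t.2).symm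
  rw [h3] at h2
  exact h2

open Classical in
/-- the sum of one element -/
theorem gu_zero (hB : BrmStmt) (hCan : CanStmt) (hFxu : FxuStmt) (hCux : CuxStmt)
    (hGue : GueStmt) (hF : GoodF ℓ F) (Y : Subgroup X) (hY : Y.Normal) {e : X → F}
    (he : IsIdem e) (hyp : ∀ u : X, u ≠ 1 → (∃ n : ℕ, u ^ ℓ ^ n = 1) →
      Subgroup.zpowers u ⊓ Y = ⊥ →
      YY ℓ ((Subgroup.centralizer ({u} : Set X) ⊓ Y).subgroupOf
        (Subgroup.centralizer ({u} : Set X)))
        (fun t : Subgroup.centralizer ({u} : Set X) => e t) = 0) (u : X) (hu1 : u ≠ 1)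
    (hu : ∃ n : ℕ, u ^ ℓ ^ n = 1) :
    ∑ d ∈ (chainsOn (psubIn ℓ Y) ⊥).filter (fun d => u ∈ stab d), (-1) ^ (d.card + 1) *
      ((Nat.card (Subgroup.centralizer ({u} : Set X) ⊓ stab d : Subgroup X) : ℤ) *
        (lnum (Subgroup.centralizer ({u} : Set X) ⊓ stab d) (br (top d) e) : ℤ)) = 0 := by
  have := Fact.mk hF.prime
  by_cases h0 : Subgroup.zpowers u ⊓ Y = ⊥
  · rw [hFxu ℓ X Y hY u hu (fun K R => (Nat.card K : ℤ) * (lnum K (br R e) : ℤ)),
      (hCux ℓ F X (Subgroup.centralizer ({u} : Set X)) (Subgroup.centralizer ({u} : Set X) ⊓ Y)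
        inf_le_left e).1, hGue ℓ F hF _ _ ?_ _ (idem_cent hB hF he hu)]
    · exact hyp u hu1 hu h0
    · have h1 : (Subgroup.centralizer ({u} : Set X) ⊓ Y).subgroupOf
          (Subgroup.centralizer ({u} : Set X)) = Y.subgroupOf
          (Subgroup.centralizer ({u} : Set X)) := by
        ext t
        rw [Subgroup.mem_subgroupOf, Subgroup.mem_subgroupOf, Subgroup.mem_inf]
        exact ⟨fun h => h.2, fun h => ⟨t.2, h⟩⟩
      rw [h1]
      exact hY.subgroupOf _
  · refine hCan ℓ X Y hY u hu h0 (fun K R => (Nat.card K : ℤ) * (lnum K (br R e) : ℤ)) ?_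
    intro K R hK
    show (Nat.card K : ℤ) * _ = (Nat.card K : ℤ) * _
    rw [H97.lnum_congr K (fun t ht => br_sup_inf (hK ht) Y R e)]

end

theorem rkr (hS : SmtStmt) (hSO : SmoStmt) (hB : BrmStmt) (hCan : CanStmt) (hFxu : FxuStmt)
    (hCux : CuxStmt) (hGue : GueStmt) : RkrStmt := by
  intro ℓ F _ hF X _ _ Y hY e he hyp
  classical
  have := Fintype.ofFinite X
  have hG := gu_zero hB hCan hFxu hCux hGue hF Y hY he hyp
  let W : Subgroup X → Subgroup X → ℤ := fun K R => (Nat.card K : ℤ) * (lnum K (br R e) : ℤ)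
  constructor
  · have h1 : ∀ d ∈ chainsOn (psubIn ℓ Y) ⊥, (-1) ^ (d.card + 1) *
        ((Nat.card (stab d) : ℤ) * (rk (fun t : stab d => br (top d) e t) (cfs F (stab d)) : ℤ)) =
        ∑ u ∈ Finset.univ.filter (fun u : X => ∃ n : ℕ, u ^ ℓ ^ n = 1),
          if u ∈ stab d then (-1) ^ (d.card + 1) *
            W (Subgroup.centralizer ({u} : Set X) ⊓ stab d) (top d) else 0 := by
      intro d hd
      have h := H97.smt_sub hS hF (stab d) (br (top d) e) (H97.isIdem_br hB hF he (chainsOn_top hd))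
      have h' : (Nat.card (stab d) : ℤ) * (rk (fun t : stab d => br (top d) e t)
          (cfs F (stab d)) : ℤ) = ∑ u ∈ Finset.univ.filter (fun u : X => ∃ n : ℕ, u ^ ℓ ^ n = 1),
          if u ∈ stab d then W (Subgroup.centralizer ({u} : Set X) ⊓ stab d) (top d) else 0 := by
        rw [← Nat.cast_mul, h, Nat.cast_sum]
        refine Finset.sum_congr rfl fun u _ => ?_
        by_cases hu : u ∈ stab d
        · rw [if_pos hu, if_pos hu, Nat.cast_mul]
        · rw [if_neg hu, if_neg hu, Nat.cast_zero]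
      rw [h', Finset.mul_sum]
      refine Finset.sum_congr rfl fun u _ => ?_
      rw [mul_ite, mul_zero]
    rw [Finset.sum_congr rfl h1, Finset.sum_comm, Finset.sum_eq_single 1]
    · rw [← hGue ℓ F hF X Y hY e he]
      refine Finset.sum_congr rfl fun d _ => ?_
      have h2 : Subgroup.centralizer ({1} : Set X) ⊓ stab d = stab d := by
        rw [inf_eq_right]
        intro g _
        rw [Subgroup.mem_centralizer_singleton_iff, one_mul, mul_one]
      rw [if_pos (one_mem _), h2]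
    · intro u hu hu1
      rw [← Finset.sum_filter]
      exact hG u hu1 (Finset.mem_filter.1 hu).2
    · intro h
      exact absurd (Finset.mem_filter.2 ⟨Finset.mem_univ _, 0, one_pow _⟩) h
  · intro L hL hYL hi
    have h1 : ∀ d ∈ chainsOn (psubIn ℓ Y) ⊥, (-1) ^ (d.card + 1) *
        ((Nat.card (stab d) : ℤ) * (rk (fun t : stab d => br (top d) e t)
          (cfsO F (L.subgroupOf (stab d))) : ℤ)) =
        ∑ u ∈ Finset.univ.filter (fun u : X => (∃ n : ℕ, u ^ ℓ ^ n = 1) ∧ u ∉ L),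
          if u ∈ stab d then (-1) ^ (d.card + 1) *
            W (Subgroup.centralizer ({u} : Set X) ⊓ stab d) (top d) else 0 := by
      intro d hd
      have h := smo_sub hSO hF (stab d) L hL hi (br (top d) e)
        (H97.isIdem_br hB hF he (chainsOn_top hd))
      have h' : (Nat.card (stab d) : ℤ) * (rk (fun t : stab d => br (top d) e t)
          (cfsO F (L.subgroupOf (stab d))) : ℤ) =
          ∑ u ∈ Finset.univ.filter (fun u : X => (∃ n : ℕ, u ^ ℓ ^ n = 1) ∧ u ∉ L),
          if u ∈ stab d then W (Subgroup.centralizer ({u} : Set X) ⊓ stab d) (top d) else 0 := by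
        rw [← Nat.cast_mul, h, Nat.cast_sum]
        refine Finset.sum_congr rfl fun u _ => ?_
        by_cases hu : u ∈ stab d
        · rw [if_pos hu, if_pos hu, Nat.cast_mul]
        · rw [if_neg hu, if_neg hu, Nat.cast_zero]
      rw [h', Finset.mul_sum]
      refine Finset.sum_congr rfl fun u _ => ?_
      rw [mul_ite, mul_zero]
    rw [Finset.sum_congr rfl h1, Finset.sum_comm]
    apply Finset.sum_eq_zero
    intro u hu
    obtain ⟨-, hu2, hu3⟩ := Finset.mem_filter.1 hu
    rw [← Finset.sum_filter]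
    refine hG u ?_ hu2
    rintro rfl
    exact hu3 L.one_mem

end Pool.Agent.PP.H67
end
end -- Pool.Agent.Helper67_PP.Rkr

section -- Pool.Agent.Helper9_PP.Lq

/-!
# Squad PP, module LQ: normal subgroups of index `ℓ`

Text: `AWC_LQ.md`, theorem LQ, part (3).
-/

open scoped BigOperators

noncomputable section

namespace Pool.Agent.PP.H9

open Pool.Agent.Helper51_AWC Pool.Agent.Helper79_WRA Pool.Agent.PP

section supp

variable {ℓ : ℕ} {F : Type} [Field F] {X : Type} [Group X] [Finite X]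

omit [Finite X] in
/-- an `ℓ`-regular element lies in every normal subgroup of index `ℓ` -/
theorem reg_mem {X₀ : Subgroup X} (hn : X₀.Normal) (hi : X₀.index = ℓ) {x : X} (hx : Reg ℓ x) :
    x ∈ X₀ := by
  have h1 : x ^ ℓ ∈ X₀ := by
    rw [← hi]
    exact Subgroup.pow_index_mem X₀ x
  have h2 : x ^ orderOf x ∈ X₀ := by
    rw [pow_orderOf_eq_one]
    exact X₀.one_mem
  have h3 : (QuotientGroup.mk x : X ⧸ X₀) = 1 := by
    rw [← orderOf_eq_one_iff]
    have h4 : orderOf (QuotientGroup.mk x : X ⧸ X₀) ∣ ℓ := by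
      rw [orderOf_dvd_iff_pow_eq_one, ← QuotientGroup.mk_pow, QuotientGroup.eq_one_iff]
      exact h1
    have h5 : orderOf (QuotientGroup.mk x : X ⧸ X₀) ∣ orderOf x := by
      rw [orderOf_dvd_iff_pow_eq_one, ← QuotientGroup.mk_pow, QuotientGroup.eq_one_iff]
      exact h2
    exact Nat.dvd_one.1 (hx ▸ Nat.dvd_gcd h5 h4)
  exact (QuotientGroup.eq_one_iff x).1 h3

/-- a central idempotent is supported on a normal subgroup of index `ℓ` -/
theorem supp_idem (hosi : OsiStmt) (hF : GoodF ℓ F) {X₀ : Subgroup X} (hn : X₀.Normal)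
    (hi : X₀.index = ℓ) {e : X → F} (he : IsIdem e) {x : X} (hx : x ∉ X₀) : e x = 0 :=
  hosi ℓ F hF X e he x fun h => hx (reg_mem hn hi h)

/-- a central idempotent supported on a subgroup is a central idempotent of the subgroup -/
theorem idem_res {X₀ : Subgroup X} {e : X → F} (he : IsIdem e) (hs : ∀ x, x ∉ X₀ → e x = 0) :
    IsIdem (fun t : X₀ => e t) := by
  refine ⟨fun x y => he.1 _ _, ?_⟩
  rw [← H66.mulF_sub hs]
  funext t
  exact congrFun he.2 (t : X)

/-- positivity of the restriction to a subgroup containing `Y` -/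
theorem pos_res {X₀ Y : Subgroup X} (hY : Y ≤ X₀) {e : X → F} (he : Pos ℓ e Y) :
    Pos ℓ (fun t : X₀ => e t) (Y.subgroupOf X₀) := by
  classical
  intro x hx hd
  have hx' : (x : X) ∈ Y := hx
  have hcard : Nat.card (Subgroup.centralizer ({x} : Set X₀) ⊓ Y.subgroupOf X₀ : Subgroup X₀) =
      Nat.card (Subgroup.centralizer ({(x : X)} : Set X) ⊓ Y : Subgroup X) := by
    refine Nat.card_congr
      { toFun := fun y => ⟨y.1.1, ?_⟩
        invFun := fun y => ⟨⟨y.1, hY y.2.2⟩, ?_⟩
        left_inv := fun y => rfl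
        right_inv := fun y => rfl }
    · have h := Subgroup.mem_inf.1 y.2
      rw [Subgroup.mem_centralizer_singleton_iff] at h
      rw [Subgroup.mem_inf, Subgroup.mem_centralizer_singleton_iff]
      exact ⟨congrArg Subtype.val h.1, h.2⟩
    · have h := Subgroup.mem_inf.1 y.2
      rw [Subgroup.mem_centralizer_singleton_iff] at h
      rw [Subgroup.mem_inf, Subgroup.mem_centralizer_singleton_iff]
      exact ⟨Subtype.ext h.1, h.2⟩
  rw [hcard] at hd
  obtain ⟨n, hn⟩ := he (x : X) hx' hd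
  refine ⟨n, ?_⟩
  have hcl : clsum F (Y.subgroupOf X₀) x = fun t : X₀ => clsum F Y (x : X) t := by
    funext t
    unfold clsum
    have hiff : (∃ q ∈ Y.subgroupOf X₀, t = q * x * q⁻¹) ↔
        ∃ q ∈ Y, (t : X) = q * x * q⁻¹ := by
      constructor
      · rintro ⟨q, hq, rfl⟩
        exact ⟨q, hq, rfl⟩
      · rintro ⟨q, hq, h⟩
        exact ⟨⟨q, hY hq⟩, hq, Subtype.ext h⟩
    by_cases h : ∃ q ∈ Y, (t : X) = q * x * q⁻¹
    · rw [if_pos h, if_pos (hiff.2 h)]
    · rw [if_neg h, if_neg (fun h' => h (hiff.1 h'))]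
  have hsupp : ∀ t, t ∉ X₀ → clsum F Y (x : X) t = 0 := by
    intro t ht
    unfold clsum
    rw [if_neg]
    rintro ⟨q, hq, rfl⟩
    exact ht (mul_mem (mul_mem (hY hq) x.2) (inv_mem (hY hq)))
  rw [hcl, ← H66.iter_sub hsupp]
  funext t
  exact congrFun hn (t : X)

end supp

section cent

variable {ℓ : ℕ} {F : Type} [Field F] {X : Type} [Group X] [Finite X]

omit [Finite X] in
theorem cent_zp (u : X) : Subgroup.centralizer ((Subgroup.zpowers u : Subgroup X) : Set X) =
    Subgroup.centralizer ({u} : Set X) := by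
  ext t
  rw [H97.mem_cent_iff, Subgroup.zpowers_le, Subgroup.mem_centralizer_singleton_iff,
    Subgroup.mem_centralizer_singleton_iff]
  exact eq_comm

/-- the measure of the centraliser of an `ℓ`-element in `Y` -/
theorem mu_lt (Y : Subgroup X) {C : Type} [Group C] [Finite C] (i : C →* X)
    (hi : Function.Injective i) (u : X) (hu : ¬ Y ≤ Subgroup.centralizer ({u} : Set X))
    (Y' : Subgroup C)
    (hY' : Y'.map i = Subgroup.centralizer ({u} : Set X) ⊓ Y) : mu Y' < mu Y := by
  classical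
  have hz : ∀ t : C, i t ∈ Subgroup.center X → t ∈ Subgroup.center C := by
    intro t ht
    rw [Subgroup.mem_center_iff] at ht ⊢
    intro g
    apply hi
    rw [map_mul, map_mul]
    exact ht _
  have hle : (Subgroup.center X).comap i ≤ Subgroup.center C := fun t ht => hz t ht
  have h1 : mu Y' ≤ ((Subgroup.center X).comap i).relIndex Y' := by
    apply Nat.le_of_dvd
    · exact Nat.pos_of_ne_zero Subgroup.index_ne_zero_of_finite
    · exact Subgroup.relIndex_dvd_of_le_left Y' hle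
  have h2 : ((Subgroup.center X).comap i).relIndex Y' = (Subgroup.center X).relIndex (Y'.map i) :=
    Subgroup.relIndex_comap (Subgroup.center X) i Y'
  rw [h2, hY'] at h1
  refine lt_of_le_of_lt h1 ?_
  have h3 : (Subgroup.center X).relIndex (Subgroup.centralizer ({u} : Set X) ⊓ Y) *
      (Subgroup.centralizer ({u} : Set X) ⊓ Y).relIndex Y = mu Y := by
    have h4 : (Subgroup.center X ⊓ Y) ≤ Subgroup.centralizer ({u} : Set X) ⊓ Y := by
      intro t ht
      have ht' : t ∈ Subgroup.centralizer ({u} : Set X) := by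
        rw [Subgroup.mem_centralizer_singleton_iff]
        exact ((Subgroup.mem_center_iff.1 ht.1) u).symm
      exact ⟨ht', ht.2⟩
    have h5 := Subgroup.relIndex_mul_relIndex (Subgroup.center X ⊓ Y)
      (Subgroup.centralizer ({u} : Set X) ⊓ Y) Y h4 inf_le_right
    rw [Subgroup.inf_relIndex_right (Subgroup.center X)] at h5
    have h6 : (Subgroup.center X ⊓ Y).relIndex (Subgroup.centralizer ({u} : Set X) ⊓ Y) =
        (Subgroup.center X).relIndex (Subgroup.centralizer ({u} : Set X) ⊓ Y) := by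
      rw [← Subgroup.inf_relIndex_right (Subgroup.center X ⊓ Y),
        ← Subgroup.inf_relIndex_right (Subgroup.center X)]
      congr 1
      rw [inf_assoc]
      congr 1
      rw [inf_eq_right]
      exact inf_le_right
    rw [h6] at h5
    exact h5
  have h7 : 1 < (Subgroup.centralizer ({u} : Set X) ⊓ Y).relIndex Y := by
    have h8 : (Subgroup.centralizer ({u} : Set X) ⊓ Y).relIndex Y ≠ 0 :=
      Subgroup.index_ne_zero_of_finite
    have h9 : (Subgroup.centralizer ({u} : Set X) ⊓ Y).relIndex Y ≠ 1 := by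
      intro h
      rw [Subgroup.relIndex_eq_one] at h
      exact hu (h.trans inf_le_left)
    omega
  have h10 : (Subgroup.center X).relIndex (Subgroup.centralizer ({u} : Set X) ⊓ Y) ≠ 0 :=
    Subgroup.index_ne_zero_of_finite
  rw [← h3]
  exact lt_mul_of_one_lt_right (Nat.pos_of_ne_zero h10) h7

omit [Finite X] in
/-- an `ℓ`-element `u ≠ 1` does not centralise `Y` -/
theorem not_cent (hp : ℓ.Prime) {Y : Subgroup X}
    (hC : ¬ ℓ ∣ Nat.card (Subgroup.centralizer (Y : Set X))) {u : X} (hu1 : u ≠ 1)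
    (hu : ∃ n : ℕ, u ^ ℓ ^ n = 1) : ¬ Y ≤ Subgroup.centralizer ({u} : Set X) := by
  intro h
  apply hC
  have h1 : u ∈ Subgroup.centralizer (Y : Set X) := H97.mem_cent_iff.2 h
  obtain ⟨n, hn⟩ := hu
  obtain ⟨k, -, hk⟩ := (Nat.dvd_prime_pow hp).1 (orderOf_dvd_of_pow_eq_one hn)
  have h2 : orderOf u ∣ Nat.card (Subgroup.centralizer (Y : Set X)) := by
    have h3 := orderOf_dvd_natCard (⟨u, h1⟩ : Subgroup.centralizer (Y : Set X))
    rwa [Subgroup.orderOf_mk] at h3
  refine dvd_trans ?_ h2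
  rw [hk]
  apply dvd_pow_self
  rintro rfl
  rw [pow_zero, orderOf_eq_one_iff] at hk
  exact hu1 hk

/-- the hypothesis of the relative theorem of Knörr and Robinson, from the induction -/
theorem hyp_rkr (hps : Ps1Stmt) (hB : BrmStmt) (hF : GoodF ℓ F) (Y : Subgroup X)
    (hC : ¬ ℓ ∣ Nat.card (Subgroup.centralizer (Y : Set X)))
    (ih : ∀ (H : Type) [Group H] [Finite H] (i : H →* X) (Y' : Subgroup H), Function.Injective i →
      Y'.Normal → Y'.map i ≤ Y → mu Y' < mu Y → YH ℓ F Y')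
    {G : Type} [Group G] [Finite G] (j : G →* X) (hj : Function.Injective j) (Z : Subgroup G)
    (hZ : Z.Normal) (hZY : Z.map j = Y) (e : G → F) (he : IsIdem e) (hp : Pos ℓ e Z) (u : G)
    (hu1 : u ≠ 1) (hu : ∃ n : ℕ, u ^ ℓ ^ n = 1) (h0 : Subgroup.zpowers u ⊓ Z = ⊥) :
    YY ℓ ((Subgroup.centralizer ({u} : Set G) ⊓ Z).subgroupOf
      (Subgroup.centralizer ({u} : Set G)))
      (fun t : Subgroup.centralizer ({u} : Set G) => e t) = 0 := by
  set C : Subgroup G := Subgroup.centralizer ({u} : Set G) with hCdef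
  have hmap : ((C ⊓ Z).subgroupOf C).map (j.comp C.subtype) =
      Subgroup.centralizer ({j u} : Set X) ⊓ Y := by
    rw [← Subgroup.map_map, Subgroup.subgroupOf_map_subtype]
    ext t
    rw [Subgroup.mem_map, Subgroup.mem_inf, Subgroup.mem_centralizer_singleton_iff]
    constructor
    · rintro ⟨z, hz, rfl⟩
      have hz1 : z ∈ C := hz.2
      have hz2 : z ∈ Z := hz.1.2
      rw [hCdef, Subgroup.mem_centralizer_singleton_iff] at hz1
      refine ⟨?_, ?_⟩
      · rw [← map_mul, ← map_mul, hz1]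
      · rw [← hZY]
        exact ⟨z, hz2, rfl⟩
    · rintro ⟨h1, h2⟩
      rw [← hZY] at h2
      obtain ⟨z, hz, rfl⟩ := h2
      have hz1 : z ∈ C := by
        rw [hCdef, Subgroup.mem_centralizer_singleton_iff]
        apply hj
        rw [map_mul, map_mul]
        exact h1
      exact ⟨z, ⟨⟨hz1, hz⟩, hz1⟩, rfl⟩
  have hju : ∃ n : ℕ, (j u) ^ ℓ ^ n = 1 := by
    obtain ⟨n, hn⟩ := hu
    exact ⟨n, by rw [← map_pow, hn, map_one]⟩
  have hju1 : j u ≠ 1 := by
    intro h
    exact hu1 (hj (h.trans (map_one j).symm))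
  have hnorm : ((C ⊓ Z).subgroupOf C).Normal := by
    have h1 : (C ⊓ Z).subgroupOf C = Z.subgroupOf C := by
      ext t
      rw [Subgroup.mem_subgroupOf, Subgroup.mem_subgroupOf, Subgroup.mem_inf]
      exact ⟨fun h => h.2, fun h => ⟨t.2, h⟩⟩
    rw [h1]
    exact hZ.subgroupOf _
  have hinj : Function.Injective (j.comp C.subtype) :=
    hj.comp C.subtype_injective
  refine ih C (j.comp C.subtype) ((C ⊓ Z).subgroupOf C) hinj hnorm ?_ ?_ _
    (H67.idem_cent hB hF he hu) ?_
  · rw [hmap]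
    exact inf_le_right
  · exact mu_lt Y (j.comp C.subtype) hinj (j u) (not_cent hF.prime hC hju1 hju) _ hmap
  · have h1 := hps ℓ F hF G (Subgroup.zpowers u) Z (H97.isPGroup_zp hu) hZ h0 e he hp C
      (cent_zp u).le (fun g hg => H97.cent_le_norm hg)
    rw [cent_zp, ← hCdef] at h1
    have h3 : (fun t : C => br (Subgroup.zpowers u) e t) = fun t : C => e t := by
      funext t
      unfold br
      rw [if_pos]
      rw [cent_zp]
      exact t.2
    rw [h3] at h1
    exact h1

end cent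

section term

variable {ℓ : ℕ} {F : Type} [Field F] {X : Type} [Group X] [Finite X]

/-- the terms of one chain -/
theorem term_id (hlqr : LqrStmt) (hB : BrmStmt) (hosi : OsiStmt) (hF : GoodF ℓ F)
    {X₀ : Subgroup X} (hn : X₀.Normal) (hi : X₀.index = ℓ) {e : X → F} (he : IsIdem e)
    {d : Finset (Subgroup X)} (hd : d ∈ chainsOn (psubIn ℓ (⊤ : Subgroup X)) ⊥) :
    ℓ * (Nat.card (stab d) * rk (fun t : stab d => br (top d) e t) (cfs F (stab d))) =
      ℓ * (Nat.card ↥(X₀ ⊓ stab d) *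
        rk (fun t : ↥(X₀ ⊓ stab d) => br (top d) e t) (cfs F ↥(X₀ ⊓ stab d))) +
      (ℓ + 1) * (Nat.card (stab d) *
        rk (fun t : stab d => br (top d) e t) (cfsO F (X₀.subgroupOf (stab d)))) := by
  have hmap : (X₀.subgroupOf (stab d)).map (stab d).subtype = X₀ ⊓ stab d :=
    Subgroup.subgroupOf_map_subtype X₀ (stab d)
  let φ : X₀.subgroupOf (stab d) ≃* ↥(X₀ ⊓ stab d) :=
    ((X₀.subgroupOf (stab d)).equivMapOfInjective (stab d).subtype
      (stab d).subtype_injective).trans (MulEquiv.subgroupCongr hmap)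
  have hcard : Nat.card (X₀.subgroupOf (stab d)) = Nat.card ↥(X₀ ⊓ stab d) :=
    Nat.card_congr φ.toEquiv
  have hrk : rk (fun t : X₀.subgroupOf (stab d) => br (top d) e ((t : stab d) : X))
      (cfs F (X₀.subgroupOf (stab d))) =
      rk (fun t : ↥(X₀ ⊓ stab d) => br (top d) e t) (cfs F ↥(X₀ ⊓ stab d)) :=
    Pool.Agent.Helper26_PP.rk_iso φ (fun t : ↥(X₀ ⊓ stab d) => br (top d) e t)
  by_cases h : stab d ≤ X₀
  · have h1 : X₀.subgroupOf (stab d) = ⊤ := Subgroup.subgroupOf_eq_top.2 h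
    have h2 : cfsO F (X₀.subgroupOf (stab d)) = ⊥ := by
      rw [h1, eq_bot_iff]
      rintro f ⟨-, hf⟩
      rw [Submodule.mem_bot]
      funext x
      exact hf x (Subgroup.mem_top x)
    have h3 : rk (fun t : stab d => br (top d) e t) (cfsO F (X₀.subgroupOf (stab d))) = 0 := by
      unfold rk
      rw [h2, Submodule.map_bot, finrank_bot]
    have hmap' : stab d = X₀ ⊓ stab d := (inf_eq_right.2 h).symm
    let ψ : stab d ≃* ↥(X₀ ⊓ stab d) := MulEquiv.subgroupCongr hmap'
    have hrk' : rk (fun t : stab d => br (top d) e t) (cfs F (stab d)) =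
        rk (fun t : ↥(X₀ ⊓ stab d) => br (top d) e t) (cfs F ↥(X₀ ⊓ stab d)) :=
      Pool.Agent.Helper26_PP.rk_iso ψ (fun t : ↥(X₀ ⊓ stab d) => br (top d) e t)
    have hcard' : Nat.card (stab d) = Nat.card ↥(X₀ ⊓ stab d) := Nat.card_congr ψ.toEquiv
    rw [h3, hrk', hcard', mul_zero, mul_zero, add_zero]
  · have hidx : (X₀.subgroupOf (stab d)).index = ℓ := by
      have h1 : X₀.relIndex (stab d) ∣ X₀.index := Subgroup.relIndex_dvd_index_of_normal X₀ (stab d)
      rw [hi] at h1
      rcases (Nat.dvd_prime hF.prime).1 h1 with h2 | h2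
      · exact absurd (Subgroup.relIndex_eq_one.1 h2) h
      · exact h2
    have h1 := hlqr ℓ F hF (stab d) (X₀.subgroupOf (stab d)) (hn.subgroupOf _) hidx
      (fun t : stab d => br (top d) e t) (H97.isIdem_br hB hF he hd) (by
        intro x hx
        have hx' : (x : X) ∉ X₀ := fun h' => hx (Subgroup.mem_subgroupOf.2 h')
        have := supp_idem hosi hF hn hi he hx'
        change br (top d) e (x : X) = 0
        unfold br
        rw [this, ite_self])
    have h2 : Nat.card (stab d) = ℓ * Nat.card ↥(X₀ ⊓ stab d) := by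
      rw [← hcard, ← Subgroup.card_mul_index (X₀.subgroupOf (stab d)), hidx, mul_comm]
    rw [hrk] at h1
    generalize rk (fun t : stab d => br (top d) e t) (cfs F (stab d)) = A at h1 ⊢
    generalize rk (fun t : ↥(X₀ ⊓ stab d) => br (top d) e t) (cfs F ↥(X₀ ⊓ stab d)) = B at h1 ⊢
    generalize rk (fun t : stab d => br (top d) e t) (cfsO F (X₀.subgroupOf (stab d))) = D
      at h1 ⊢
    calc ℓ * (Nat.card (stab d) * A) = Nat.card (stab d) * (ℓ * A) := by ring
      _ = Nat.card (stab d) * B + (ℓ + 1) * (Nat.card (stab d) * D) := by rw [h1]; ring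
      _ = _ := by rw [h2]; ring

end term

/-- the alternating sums of `X` and of the normal subgroup `X₀` of index `ℓ` agree -/
theorem lq_eq (hrkr : RkrStmt) (hlqr : LqrStmt) (hps : Ps1Stmt) (hB : BrmStmt)
    (hcux : CuxStmt) (hosi : OsiStmt) (ℓ : ℕ) (F : Type) [Field F] (hF : GoodF ℓ F)
    (X : Type) [Group X] [Finite X] (Y X₀ : Subgroup X) (hY : Y.Normal) (hn : X₀.Normal)
    (hYX : Y ≤ X₀) (hi : X₀.index = ℓ)
    (hC : ¬ ℓ ∣ Nat.card (Subgroup.centralizer (Y : Set X)))
    (ih : ∀ (H : Type) [Group H] [Finite H] (i : H →* X) (Y' : Subgroup H), Function.Injective i →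
      Y'.Normal → Y'.map i ≤ Y → mu Y' < mu Y → YH ℓ F Y')
    (e : X → F) (he : IsIdem e) (hp : Pos ℓ e Y) :
    YY ℓ Y e = YY ℓ (Y.subgroupOf X₀) (fun t : X₀ => e t) := by
  have hsupp : ∀ x, x ∉ X₀ → e x = 0 := fun x hx => supp_idem hosi hF hn hi he hx
  have he₀ : IsIdem (fun t : X₀ => e t) := idem_res he hsupp
  have hp₀ : Pos ℓ (fun t : X₀ => e t) (Y.subgroupOf X₀) := pos_res hYX hp
  obtain ⟨h1, h2⟩ := hrkr ℓ F hF X Y hY e he (fun u hu1 hu h0 =>
    hyp_rkr hps hB hF Y hC ih (MonoidHom.id X) Function.injective_id Y hY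
      (Subgroup.map_id Y) e he hp u hu1 hu h0)
  have h3 := h2 X₀ hn hYX ⟨1, by rw [hi, pow_one]⟩
  have h4 := (hrkr ℓ F hF X₀ (Y.subgroupOf X₀) (hY.subgroupOf X₀) (fun t : X₀ => e t) he₀
    (fun u hu1 hu h0 => hyp_rkr hps hB hF Y hC ih X₀.subtype X₀.subtype_injective
      (Y.subgroupOf X₀) (hY.subgroupOf X₀)
      (by rw [Subgroup.subgroupOf_map_subtype, inf_eq_left.2 hYX]) (fun t : X₀ => e t) he₀ hp₀ u
      hu1 hu h0)).1
  have h5 := (hcux ℓ F X X₀ Y hYX e).2
  have hl : (ℓ : ℤ) ≠ 0 := Nat.cast_ne_zero.2 hF.prime.ne_zero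
  rw [← h1, ← h4, ← h5]
  apply mul_left_cancel₀ hl
  have h6 : (ℓ : ℤ) * ∑ d ∈ chainsOn (psubIn ℓ Y) ⊥, (-1) ^ (d.card + 1) *
      ((Nat.card (stab d) : ℤ) * (rk (fun t : stab d => br (top d) e t) (cfs F (stab d)) : ℤ)) =
      (ℓ : ℤ) * ∑ d ∈ chainsOn (psubIn ℓ Y) ⊥, (-1) ^ (d.card + 1) *
      ((Nat.card ↥(X₀ ⊓ stab d) : ℤ) *
      (rk (fun t : ↥(X₀ ⊓ stab d) => br (top d) e t) (cfs F ↥(X₀ ⊓ stab d)) : ℤ)) +
      ((ℓ : ℤ) + 1) * ∑ d ∈ chainsOn (psubIn ℓ Y) ⊥, (-1) ^ (d.card + 1) *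
      ((Nat.card (stab d) : ℤ) *
      (rk (fun t : stab d => br (top d) e t) (cfsO F (X₀.subgroupOf (stab d))) : ℤ)) := by
    rw [Finset.mul_sum, Finset.mul_sum, Finset.mul_sum, ← Finset.sum_add_distrib]
    refine Finset.sum_congr rfl fun d hd => ?_
    have h7 := congrArg (Nat.cast : ℕ → ℤ)
      (term_id hlqr hB hosi hF hn hi he (H67.chainsOn_top hd))
    push_cast at h7
    rw [mul_left_comm, h7]
    ring
  rw [h6, h3, mul_zero, add_zero]

/-- **LQ** -/
theorem lq (hrkr : RkrStmt) (hlqr : LqrStmt) (hps : Ps1Stmt) (hB : BrmStmt)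
    (hcux : CuxStmt) (hosi : OsiStmt) : LqStmt := by
  intro ℓ _ F _ hF X _ _ Y X₀ hY hn hYX hi hC ih e he hp h
  rw [lq_eq hrkr hlqr hps hB hcux hosi ℓ F hF X Y X₀ hY hn hYX hi hC ih e he hp]
  exact h

end Pool.Agent.PP.H9
end
end -- Pool.Agent.Helper9_PP.Lq

section -- Pool.Agent.Helper56_KF.Ct4

/-!
# Squad KF, module CT4: the alternating sum vanishes for Klein four defect groups
-/

open scoped BigOperators

set_option linter.unusedSectionVars false

noncomputable section

namespace Pool.Agent.PP.KF.H56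

open Pool.Agent.Helper51_AWC Pool.Agent.Helper79_WRA Pool.Agent.PP

attribute [local instance] Ideal.Quotient.field

section gen

variable {F : Type} [Field F] {G : Type} [Group G] [Finite G]

theorem rk_zero (V : Submodule F (G → F)) {a : G → F} (ha : ∀ t, a t = 0) : rk a V = 0 := by
  have h1 : actL a = 0 := by
    apply LinearMap.ext
    intro f
    funext x
    change actF a f x = 0
    unfold actF
    simp only [ha, zero_mul, finsum_zero]
  unfold rk
  rw [h1, Submodule.map_zero, finrank_bot]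

theorem v4_card {Q : Type} [Group Q] (h : V4 Q) : Nat.card Q ∣ 4 := by
  obtain ⟨j, hj⟩ := h
  have h1 := Subgroup.card_dvd_of_injective j hj
  have h2 : Nat.card (Multiplicative (ZMod 2) × Multiplicative (ZMod 2)) = 4 := by
    rw [Nat.card_prod, Nat.card_eq_fintype_card, Fintype.card_multiplicative, ZMod.card]
  rwa [h2] at h1

theorem v4_sub : DF.SubCl V4 := by
  intro Q R _ _ j hj hR
  obtain ⟨k, hk⟩ := hR
  exact ⟨k.comp j, hk.comp hj⟩

theorem vb_equiv {H K : Type} [Group H] [Group K] [Finite H] [Finite K] (φ : H ≃* K) {e : K → F}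
    (h : VB e) : VB (fun t => e (φ t)) := by
  refine ⟨H20.IsBlk_equiv φ h.blk, ?_, ?_⟩
  · exact DF.DfE.of_inj v4_sub φ.toMonoidHom φ.injective (fun t ht => ht) le_top h.df
  · obtain ⟨V, hV, g, hg, hg'⟩ := h.ex
    refine ⟨V.map φ.symm.toMonoidHom, ?_, φ.symm g, ?_, ?_⟩
    · rw [← hV]
      exact (Nat.card_congr (φ.symm.subgroupMap V).toEquiv).symm
    · rw [Subgroup.mem_centralizer_iff]
      rintro _ ⟨v, hv, rfl⟩
      change φ.symm v * φ.symm g = φ.symm g * φ.symm v
      rw [← map_mul, ← map_mul, Subgroup.mem_centralizer_iff.1 hg v hv]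
    · rwa [MulEquiv.apply_symm_apply]

/-- the terms -/
def RR (e : G → F) (X T : Subgroup G) : ℤ :=
  (Nat.card X : ℤ) * (rk (fun t : X => br T e t) (cfs F X) : ℤ)

theorem mem_norm_sub {X V : Subgroup G} (hV : V ≤ X) (x : X) :
    x ∈ Subgroup.normalizer ((V.subgroupOf X : Subgroup X) : Set X) ↔
      (x : G) ∈ Subgroup.normalizer (V : Set G) := by
  rw [Subgroup.mem_normalizer_iff, Subgroup.mem_normalizer_iff]
  constructor
  · intro h y
    constructor
    · intro hy
      have h1 := (h ⟨y, hV hy⟩).1 (Subgroup.mem_subgroupOf.2 hy)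
      exact Subgroup.mem_subgroupOf.1 h1
    · intro hy
      have h0 : y ∈ X := by
        have h2 := mul_mem (mul_mem (inv_mem x.2) (hV hy)) x.2
        have h3 : (x : G)⁻¹ * ((x : G) * y * (x : G)⁻¹) * (x : G) = y := by group
        rwa [h3] at h2
      have h1 := (h ⟨y, h0⟩).2 (Subgroup.mem_subgroupOf.2 hy)
      exact Subgroup.mem_subgroupOf.1 h1
  · intro h y
    rw [Subgroup.mem_subgroupOf, Subgroup.mem_subgroupOf]
    exact h (y : G)

theorem mem_cent_sub {X V : Subgroup G} (hV : V ≤ X) (x : X) :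
    x ∈ Subgroup.centralizer ((V.subgroupOf X : Subgroup X) : Set X) ↔
      (x : G) ∈ Subgroup.centralizer (V : Set G) := by
  rw [Subgroup.mem_centralizer_iff, Subgroup.mem_centralizer_iff]
  constructor
  · intro h y hy
    have h1 := h ⟨y, hV hy⟩ (Subgroup.mem_subgroupOf.2 hy)
    exact congrArg Subtype.val h1
  · intro h y hy
    exact Subtype.ext (h (y : G) (Subgroup.mem_subgroupOf.1 hy))

/-- the normaliser in a subgroup -/
def nequiv {X V : Subgroup G} (hV : V ≤ X) :
    Subgroup.normalizer ((V.subgroupOf X : Subgroup X) : Set X) ≃*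
      (X ⊓ Subgroup.normalizer (V : Set G) : Subgroup G) where
  toFun t := ⟨((t : X) : G), (t : X).2, (mem_norm_sub hV (t : X)).1 t.2⟩
  invFun t := ⟨⟨(t : G), t.2.1⟩, (mem_norm_sub hV ⟨(t : G), t.2.1⟩).2 t.2.2⟩
  left_inv _ := rfl
  right_inv _ := rfl
  map_mul' _ _ := rfl

theorem term_eq {e : G → F} {X V T : Subgroup G} (hV : V ≤ X) (hT : T ≤ V) :
    ((Nat.card (Subgroup.normalizer ((V.subgroupOf X : Subgroup X) : Set X)) *
      rk (fun t : Subgroup.normalizer ((V.subgroupOf X : Subgroup X) : Set X) =>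
        br (V.subgroupOf X) (fun t : X => br T e t) t)
        (cfs F (Subgroup.normalizer ((V.subgroupOf X : Subgroup X) : Set X))) : ℕ) : ℤ) =
      RR e (X ⊓ Subgroup.normalizer (V : Set G)) V := by
  have h1 : (fun t : Subgroup.normalizer ((V.subgroupOf X : Subgroup X) : Set X) =>
        br (V.subgroupOf X) (fun t : X => br T e t) t) =
      fun t => (fun s : (X ⊓ Subgroup.normalizer (V : Set G) : Subgroup G) => br V e s)
        (nequiv hV t) := by
    funext t
    change br (V.subgroupOf X) (fun t : X => br T e t) (t : X) = br V e ((t : X) : G)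
    by_cases ht : ((t : X) : G) ∈ Subgroup.centralizer (V : Set G)
    · rw [H66.br_of_mem ((mem_cent_sub hV (t : X)).2 ht), H66.br_of_mem ht, H66.br_of_mem]
      exact Subgroup.centralizer_le hT ht
    · rw [H66.br_of_not_mem (fun h => ht ((mem_cent_sub hV (t : X)).1 h)), H66.br_of_not_mem ht]
  rw [h1, Helper26_PP.rk_iso (nequiv hV)
    (fun s : (X ⊓ Subgroup.normalizer (V : Set G) : Subgroup G) => br V e s),
    Nat.card_congr (nequiv hV).toEquiv]
  unfold RR
  push_cast
  rfl

theorem term_zero {e : G → F} (hdf : DF.DfE 2 V4 e ⊤) {X T : Subgroup G}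
    (hX : X ≤ Subgroup.normalizer (T : Set G)) (hTp : IsPGroup 2 T) {V' : Subgroup X}
    (hV' : Nat.card V' = 4) (hT : ¬ T ≤ V'.map X.subtype) (t : X) :
    br V' (fun t : X => br T e t) t = 0 := by
  by_contra h0
  have h1 : t ∈ Subgroup.centralizer (V' : Set X) := by
    by_contra h2
    exact h0 (H66.br_of_not_mem h2)
  rw [H66.br_of_mem h1] at h0
  have h2 : (t : G) ∈ Subgroup.centralizer (T : Set G) := by
    by_contra h3
    exact h0 (H66.br_of_not_mem h3)
  rw [H66.br_of_mem h2] at h0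
  have hVc : Nat.card (V'.map X.subtype) = 4 := by
    rw [← hV']
    exact (Nat.card_congr (V'.equivMapOfInjective X.subtype X.subtype_injective).toEquiv).symm
  have hVp : IsPGroup 2 (V'.map X.subtype) := by
    refine IsPGroup.of_card (n := 2) ?_
    rw [hVc]
    norm_num
  have hVX : V'.map X.subtype ≤ X := by
    rintro _ ⟨v, _, rfl⟩
    exact v.2
  have hp : IsPGroup 2 (V'.map X.subtype ⊔ T : Subgroup G) :=
    IsPGroup.to_sup_of_normal_right' hVp hTp (hVX.trans hX)
  have hc : (t : G) ∈ Subgroup.centralizer ((V'.map X.subtype ⊔ T : Subgroup G) : Set G) := by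
    have h3 : V'.map X.subtype ⊔ T ≤ Subgroup.centralizer ({(t : G)} : Set G) := by
      refine sup_le ?_ ?_
      · rintro _ ⟨v, hv, rfl⟩
        rw [Subgroup.mem_centralizer_singleton_iff]
        exact congrArg Subtype.val (Subgroup.mem_centralizer_iff.1 h1 v hv)
      · intro x hx
        rw [Subgroup.mem_centralizer_singleton_iff]
        exact Subgroup.mem_centralizer_iff.1 h2 x hx
    rw [Subgroup.mem_centralizer_iff]
    intro x hx
    have h4 := h3 hx
    rw [Subgroup.mem_centralizer_singleton_iff] at h4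
    exact h4
  have h5 := v4_card (hdf _ le_top hp ⟨(t : G), hc, h0⟩)
  have h6 : V'.map X.subtype = (V'.map X.subtype ⊔ T : Subgroup G) := by
    refine Subgroup.eq_of_le_of_card_ge le_sup_left ?_
    rw [hVc]
    exact Nat.le_of_dvd (by norm_num) h5
  exact hT (le_sup_right.trans h6.ge)

open Classical in
/-- the identity on `X`, read in `G` -/
theorem cnt {e : G → F} (hdf : DF.DfE 2 V4 e ⊤) {X T : Subgroup G}
    (hX : X ≤ Subgroup.normalizer (T : Set G)) (hTp : IsPGroup 2 T) [Fintype (Subgroup G)]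
    (hI : ∑ᶠ (V : Subgroup X) (_ : Nat.card V = 4), Nat.card (Subgroup.normalizer (V : Set X)) *
      rk (fun t : Subgroup.normalizer (V : Set X) => br V (fun t : X => br T e t) t)
        (cfs F (Subgroup.normalizer (V : Set X))) =
    Nat.card X * rk (fun t : X => br T e t) (cfs F X)) :
    ∑ V ∈ Finset.univ.filter (fun V : Subgroup G => Nat.card V = 4 ∧ T ≤ V ∧ V ≤ X),
      RR e (X ⊓ Subgroup.normalizer (V : Set G)) V = RR e X T := by
  have hfin : Fintype (Subgroup X) := Fintype.ofFinite _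
  rw [finsum_eq_sum_of_fintype] at hI
  simp only [finsum_eq_if] at hI
  rw [← Finset.sum_filter] at hI
  have h1 : RR e X T = ((Nat.card X * rk (fun t : X => br T e t) (cfs F X) : ℕ) : ℤ) := by
    unfold RR
    push_cast
    rfl
  rw [h1, ← hI, Nat.cast_sum]
  rw [← Finset.sum_subset (s₁ := Finset.univ.filter (fun V : Subgroup X => Nat.card V = 4 ∧
    T ≤ V.map X.subtype))]
  · refine Finset.sum_nbij' (fun V => V.subgroupOf X) (fun V' => V'.map X.subtype) ?_ ?_ ?_ ?_ ?_
    · intro V hV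
      obtain ⟨_, h2, h3, h4⟩ := Finset.mem_filter.1 hV
      refine Finset.mem_filter.2 ⟨Finset.mem_univ _, ?_, ?_⟩
      · rw [← h2]
        exact Nat.card_congr (Subgroup.subgroupOfEquivOfLe h4).toEquiv
      · rw [Subgroup.subgroupOf_map_subtype]
        exact le_inf h3 (h3.trans h4)
    · intro V hV
      obtain ⟨_, h2, h3⟩ := Finset.mem_filter.1 hV
      refine Finset.mem_filter.2 ⟨Finset.mem_univ _, ?_, h3, ?_⟩
      · rw [← h2]
        exact (Nat.card_congr (V.equivMapOfInjective X.subtype X.subtype_injective).toEquiv).symm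
      · rintro _ ⟨v, _, rfl⟩
        exact v.2
    · intro V hV
      obtain ⟨_, _, _, h4⟩ := Finset.mem_filter.1 hV
      rw [Subgroup.subgroupOf_map_subtype, inf_eq_left.2 h4]
    · intro V _
      exact Subgroup.comap_map_eq_self_of_injective X.subtype_injective V
    · intro V hV
      obtain ⟨_, _, h3, h4⟩ := Finset.mem_filter.1 hV
      exact (term_eq h4 h3).symm
  · intro V hV
    obtain ⟨_, h2, _⟩ := Finset.mem_filter.1 hV
    exact Finset.mem_filter.2 ⟨Finset.mem_univ _, h2⟩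
  · intro V hV hV2
    obtain ⟨_, h2⟩ := Finset.mem_filter.1 hV
    have h3 : ¬ T ≤ V.map X.subtype := fun h => hV2 (Finset.mem_filter.2 ⟨Finset.mem_univ _, h2, h⟩)
    rw [rk_zero, mul_zero, Nat.cast_zero]
    intro t
    exact term_zero hdf hX hTp h2 h3 (t : X)

end gen

section chains

variable {F : Type} [Field F] {G : Type} [Group G] [Finite G]

/-- the properties of a normal chain of `2`-subgroups -/
structure CH (d : Finset (Subgroup G)) : Prop where
  pg : ∀ D ∈ d, IsPGroup 2 D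
  bot : ⊥ ∈ d
  ch : IsChain (· ≤ ·) (d : Set (Subgroup G))
  nc : NormalChain d

open Classical in
theorem mem_iff {d : Finset (Subgroup G)} :
    d ∈ (chainsOn (psubIn 2 (⊤ : Subgroup G)) ⊥).filter NormalChain ↔ CH d := by
  rw [Finset.mem_filter, mem_chainsOn]
  constructor
  · rintro ⟨⟨h1, h2, h3⟩, h4⟩
    exact ⟨fun D hD => (mem_psubIn.1 (h1 hD)).2, h2, h3, h4⟩
  · rintro ⟨h1, h2, h3, h4⟩
    exact ⟨⟨fun D hD => mem_psubIn.2 ⟨le_top, h1 D hD⟩, h2, h3⟩, h4⟩

theorem CH.top {d : Finset (Subgroup G)} (h : CH d) : top d ∈ d ∧ ∀ D ∈ d, D ≤ top d :=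
  H94.top_mem h.ch ⟨⊥, h.bot⟩

theorem CH.cent {d : Finset (Subgroup G)} (h : CH d) :
    Subgroup.centralizer (PP.top d : Set G) ≤ stab d := by
  intro x hx
  rw [H94.mem_stab']
  intro D hD
  have h1 : x ∈ Subgroup.centralizer (D : Set G) := Subgroup.centralizer_le (h.top.2 D hD) hx
  exact Subgroup.centralizer_le_normalizer _ h1

theorem CH.norm {d : Finset (Subgroup G)} (h : CH d) :
    stab d ≤ Subgroup.normalizer (PP.top d : Set G) := by
  intro x hx
  exact H94.mem_stab'.1 hx _ h.top.1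

open Classical in
/-- adding a larger member -/
theorem CH.ins {d : Finset (Subgroup G)} (h : CH d) {V : Subgroup G} (hV : Nat.card V = 4)
    (h1 : PP.top d ≤ V) (h2 : V ≤ stab d) : CH (insert V d) ∧ PP.top (insert V d) = V ∧
      stab (insert V d) = stab d ⊓ Subgroup.normalizer (V : Set G) := by
  have htop : PP.top (insert V d) = V := by
    refine le_antisymm (sSup_le ?_) (le_sSup (Finset.mem_coe.2 (Finset.mem_insert_self _ _)))
    intro D hD
    rcases Finset.mem_insert.1 (Finset.mem_coe.1 hD) with rfl | hD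
    · exact le_rfl
    · exact (h.top.2 D hD).trans h1
  refine ⟨⟨?_, ?_, ?_, ?_⟩, htop, ?_⟩
  · intro D hD
    rcases Finset.mem_insert.1 hD with rfl | hD
    · refine IsPGroup.of_card (n := 2) ?_
      rw [hV]
      norm_num
    · exact h.pg D hD
  · exact Finset.mem_insert_of_mem h.bot
  · rw [Finset.coe_insert]
    refine h.ch.insert ?_
    intro D hD _
    exact Or.inr ((h.top.2 D hD).trans h1)
  · intro D hD
    rw [htop]
    rcases Finset.mem_insert.1 hD with rfl | hD
    · exact Subgroup.le_normalizer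
    · intro x hx
      exact H94.mem_stab'.1 (h2 hx) D hD
  · ext x
    rw [Subgroup.mem_inf, H94.mem_stab', H94.mem_stab']
    constructor
    · intro h3
      exact ⟨fun D hD => h3 D (Finset.mem_insert_of_mem hD), h3 V (Finset.mem_insert_self _ _)⟩
    · rintro ⟨h3, h4⟩ D hD
      rcases Finset.mem_insert.1 hD with rfl | hD
      · exact h4
      · exact h3 D hD

theorem CH.not_mem {d : Finset (Subgroup G)} (h : CH d) (hc : Nat.card (PP.top d) ∣ 2)
    {V : Subgroup G} (hV : Nat.card V = 4) : V ∉ d := by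
  intro hVd
  have h1 := Subgroup.card_dvd_of_le (h.top.2 V hVd)
  have h2 := h1.trans hc
  rw [hV] at h2
  norm_num at h2

open Classical in
/-- removing the largest member -/
theorem CH.ers {d : Finset (Subgroup G)} (h : CH d) (hV : Nat.card (PP.top d) = 4) :
    CH (d.erase (PP.top d)) ∧ PP.top (d.erase (PP.top d)) ≤ PP.top d ∧
      PP.top d ≤ stab (d.erase (PP.top d)) ∧ Nat.card (PP.top (d.erase (PP.top d))) ∣ 2 := by
  have hb : (⊥ : Subgroup G) ≠ PP.top d := by
    intro h0
    rw [← h0, Subgroup.card_bot] at hV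
    norm_num at hV
  have hle : PP.top (d.erase (PP.top d)) ≤ PP.top d :=
    sSup_le fun D hD => h.top.2 D (Finset.mem_of_mem_erase (Finset.mem_coe.1 hD))
  have hc : CH (d.erase (PP.top d)) := by
    refine ⟨fun D hD => h.pg D (Finset.mem_of_mem_erase hD), Finset.mem_erase.2 ⟨hb, h.bot⟩,
      h.ch.mono (fun D hD => Finset.mem_of_mem_erase hD), ?_⟩
    intro D hD
    exact hle.trans (h.nc D (Finset.mem_of_mem_erase hD))
  refine ⟨hc, hle, ?_, ?_⟩
  · intro x hx
    rw [H94.mem_stab']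
    intro D hD
    exact h.nc D (Finset.mem_of_mem_erase hD) hx
  · have h1 := hc.top.1
    have h2 : PP.top (d.erase (PP.top d)) ≠ PP.top d := (Finset.mem_erase.1 h1).1
    have h3 : Nat.card (PP.top (d.erase (PP.top d))) ∣ 4 := hV ▸ Subgroup.card_dvd_of_le hle
    have h4 : Nat.card (PP.top (d.erase (PP.top d))) ≠ 4 := by
      intro h5
      exact h2 (Subgroup.eq_of_le_of_card_ge hle (by rw [hV, h5]))
    have h5 : Nat.card (PP.top (d.erase (PP.top d))) ∣ 2 ^ 2 := h3
    obtain ⟨k, hk, hk'⟩ := (Nat.dvd_prime_pow Nat.prime_two).1 h5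
    rw [hk'] at h4 ⊢
    have hk1 : k ≤ 1 := by
      by_contra h6
      have : k = 2 := by omega
      rw [this] at h4
      norm_num at h4
    exact pow_dvd_pow 2 hk1

open Classical in
/-- the chains with a given rest -/
theorem fib {e : G → F} {d : Finset (Subgroup G)} [Fintype (Subgroup G)] (h : CH d)
    (hc : Nat.card (top d) ∣ 2)
    (hcnt : ∑ V ∈ Finset.univ.filter
        (fun V : Subgroup G => Nat.card V = 4 ∧ top d ≤ V ∧ V ≤ stab d),
      RR e (stab d ⊓ Subgroup.normalizer (V : Set G)) V = RR e (stab d) (top d)) :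
    ∑ d' ∈ (((chainsOn (psubIn 2 (⊤ : Subgroup G)) ⊥).filter NormalChain).filter
        (fun d' => Nat.card (top d') = 4)).filter (fun d' => d'.erase (top d') = d),
      (-1 : ℤ) ^ (d'.card + 1) * RR e (stab d') (top d') =
      -((-1 : ℤ) ^ (d.card + 1) * RR e (stab d) (top d)) := by
  rw [← hcnt, Finset.mul_sum, ← Finset.sum_neg_distrib]
  refine Finset.sum_nbij' (fun d' => top d') (fun V => insert V d) ?_ ?_ ?_ ?_ ?_
  · intro d' hd'
    obtain ⟨h0, h3⟩ := Finset.mem_filter.1 hd'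
    obtain ⟨h1, h2⟩ := Finset.mem_filter.1 h0
    have hd2 := mem_iff.1 h1
    obtain ⟨_, k1, k2, _⟩ := hd2.ers h2
    rw [h3] at k1 k2
    exact Finset.mem_filter.2 ⟨Finset.mem_univ _, h2, k1, k2⟩
  · intro V hV
    obtain ⟨_, h1, h2, h3⟩ := Finset.mem_filter.1 hV
    obtain ⟨k1, k2, _⟩ := h.ins h1 h2 h3
    refine Finset.mem_filter.2 ⟨Finset.mem_filter.2 ⟨mem_iff.2 k1, ?_⟩, ?_⟩
    · rw [k2]
      exact h1
    · rw [k2, Finset.erase_insert (h.not_mem hc h1)]
  · intro d' hd'
    obtain ⟨h0, h3⟩ := Finset.mem_filter.1 hd'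
    obtain ⟨h1, _⟩ := Finset.mem_filter.1 h0
    have hd2 := mem_iff.1 h1
    change insert (top d') d = d'
    rw [← h3, Finset.insert_erase hd2.top.1]
  · intro V hV
    obtain ⟨_, h1, h2, h3⟩ := Finset.mem_filter.1 hV
    exact (h.ins h1 h2 h3).2.1
  · intro d' hd'
    obtain ⟨h0, h3⟩ := Finset.mem_filter.1 hd'
    obtain ⟨h1, h2⟩ := Finset.mem_filter.1 h0
    have hd2 := mem_iff.1 h1
    obtain ⟨_, k1, k2, _⟩ := hd2.ers h2
    rw [h3] at k1 k2
    have h4 : insert (top d') d = d' := by rw [← h3, Finset.insert_erase hd2.top.1]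
    have h5 := (h.ins h2 k1 k2).2.2
    rw [h4] at h5
    rw [← h5]
    have h6 : d'.card = d.card + 1 := by
      rw [← Finset.card_insert_of_notMem (h.not_mem hc h2), h4]
    rw [h6, pow_succ (-1 : ℤ) (d.card + 1)]
    ring

theorem blk_top {e : G → F} (h : VB e) {X T : Subgroup G} (hX : X = ⊤) (hT : T = ⊥) {c : X → F}
    (hc : IsBlk c) (hec : mulF (fun t : X => br T e t) c = c) : VB c := by
  subst hX hT
  have h1 : (fun t : (⊤ : Subgroup G) => br ⊥ e t) = fun t => e (Subgroup.topEquiv t) := by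
    funext t
    rw [H66.br_of_mem]
    · rfl
    · rw [Subgroup.mem_centralizer_iff]
      intro x hx
      rw [Subgroup.mem_bot.1 hx, one_mul, mul_one]
  rw [h1] at hec
  have h2 := vb_equiv Subgroup.topEquiv h
  rcases h2.blk.2.2 c hc.1 with h3 | h3
  · rw [h3] at hec
    rw [← hec]
    exact h2
  · rw [h3] at hec
    exact absurd hec.symm hc.2.1

theorem blk_two {e : G → F} {X T : Subgroup G} {u : G} (hX : X = Cu u)
    (hT : ∀ x ∈ T, x = 1 ∨ x = u)
    (du : ∀ c : Cu u → F, IsBlk c → mulF (fun t : Cu u => e t) c = c → VB c)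
    {c : X → F} (hc : IsBlk c) (hec : mulF (fun t : X => br T e t) c = c) : VB c := by
  subst hX
  have h1 : (fun t : Cu u => br T e t) = fun t : Cu u => e t := by
    funext t
    rw [H66.br_of_mem]
    rw [Subgroup.mem_centralizer_iff]
    intro x hx
    rcases hT x hx with rfl | rfl
    · rw [one_mul, mul_one]
    · exact Subgroup.mem_centralizer_iff.1 t.2 x (Set.mem_singleton x)
  rw [h1] at hec
  exact du c hc hec

/-- the groups of order two -/
theorem exists_inv {T : Subgroup G} (hT : Nat.card T = 2) : ∃ u, Inv2 u ∧ u ∈ T ∧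
    (∀ x ∈ T, x = 1 ∨ x = u) ∧ Subgroup.normalizer (T : Set G) = Cu u := by
  obtain ⟨u, hu, huniq⟩ := (Nat.card_eq_two_iff' (1 : T)).1 hT
  have h1 : ∀ x ∈ T, x = 1 ∨ x = (u : G) := by
    intro x hx
    by_cases h0 : (⟨x, hx⟩ : T) = 1
    · exact Or.inl (congrArg Subtype.val h0)
    · exact Or.inr (congrArg Subtype.val (huniq ⟨x, hx⟩ h0))
  have h2 : (u : G) ≠ 1 := fun h0 => hu (Subtype.ext h0)
  have h3 : (u : G) * u = 1 := by
    rcases h1 _ (inv_mem u.2) with h4 | h4
    · exact absurd (inv_eq_one.1 h4) h2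
    · nth_rewrite 1 [← h4]
      exact inv_mul_cancel _
  refine ⟨u, ⟨h3, h2⟩, u.2, h1, ?_⟩
  ext x
  rw [Subgroup.mem_normalizer_iff]
  constructor
  · intro h
    have h4 := (h (u : G)).1 u.2
    rcases h1 _ h4 with h5 | h5
    · exact absurd (by simpa using h5) h2
    · rw [Subgroup.mem_centralizer_singleton_iff]
      exact (mul_inv_eq_iff_eq_mul.1 h5)
  · intro h y
    rw [Subgroup.mem_centralizer_singleton_iff] at h
    have h5 : x * u * x⁻¹ = (u : G) := mul_inv_eq_iff_eq_mul.2 h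
    constructor
    · intro hy
      rcases h1 y hy with rfl | rfl
      · simp [T.one_mem]
      · rw [h5]
        exact hy
    · intro hy
      rcases h1 _ hy with h6 | h6
      · have h7 : y = 1 := by simpa using h6
        rw [h7]
        exact T.one_mem
      · have h7 : y = u := by
          have h8 := h6.trans h5.symm
          have h9 := mul_right_cancel h8
          exact mul_left_cancel h9
        rw [h7]
        exact u.2

theorem stab_two {d : Finset (Subgroup G)} (h : CH d) (hc : Nat.card (PP.top d) = 2) :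
    stab d = Subgroup.normalizer (PP.top d : Set G) := by
  refine le_antisymm h.norm ?_
  intro x hx
  rw [H94.mem_stab']
  intro D hD
  have h1 := h.top.2 D hD
  have h2 : Nat.card D ∣ 2 := hc ▸ Subgroup.card_dvd_of_le h1
  rcases (Nat.dvd_prime Nat.prime_two).1 h2 with h3 | h3
  · rw [Subgroup.card_eq_one.1 h3]
    rw [Subgroup.mem_normalizer_iff]
    intro y
    rw [Subgroup.mem_bot, Subgroup.mem_bot]
    constructor
    · rintro rfl
      simp
    · intro h4
      simpa using h4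
  · rw [Subgroup.eq_of_le_of_card_ge h1 (by rw [h3, hc])]
    exact hx

theorem stab_one {d : Finset (Subgroup G)} (h : CH d) (hc : Nat.card (PP.top d) = 1) :
    stab d = ⊤ := by
  rw [eq_top_iff]
  intro x _
  rw [H94.mem_stab']
  intro D hD
  have h1 := h.top.2 D hD
  rw [Subgroup.card_eq_one.1 hc, le_bot_iff] at h1
  rw [h1, Subgroup.mem_normalizer_iff]
  intro y
  rw [Subgroup.mem_bot, Subgroup.mem_bot]
  constructor
  · rintro rfl
    simp
  · intro h4
    simpa using h4

theorem zero_of {e : G → F} (hdf : DF.DfE 2 V4 e ⊤) {d : Finset (Subgroup G)} (h : CH d)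
    (hc : ¬ Nat.card (PP.top d) ∣ 4) : RR e (stab d) (PP.top d) = 0 := by
  unfold RR
  rw [rk_zero, Nat.cast_zero, mul_zero]
  intro t
  by_contra h0
  have h1 : (t : G) ∈ Subgroup.centralizer (PP.top d : Set G) := by
    by_contra h2
    exact h0 (H66.br_of_not_mem h2)
  rw [H66.br_of_mem h1] at h0
  exact hc (v4_card (hdf _ le_top (h.pg _ h.top.1) ⟨(t : G), h1, h0⟩))

end chains

/-- CT4 -/
theorem ct4 (idn : IdnStmt) (du4 : Du4Stmt) (knr : KnrStmt) : Ct4Stmt := by
  classical
  intro M _ h2M G _ _ e he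
  have hF : GoodF 2 (FF M) := H50.fld 2 Nat.prime_two M (by exact_mod_cast h2M)
  have : Fact (Nat.Prime 2) := ⟨Nat.prime_two⟩
  have hfin : Fintype (Subgroup G) := Fintype.ofFinite _
  rw [← knr 2 (FF M) hF G e he.blk.1]
  refine Eq.trans (H94.nch 2 G ⊤ (fun X T => RR e X T)) ?_
  obtain ⟨S, hS⟩ : ∃ S : Finset (Finset (Subgroup G)),
      S = (chainsOn (psubIn 2 (⊤ : Subgroup G)) ⊥).filter NormalChain := ⟨_, rfl⟩
  have hmem : ∀ d, d ∈ S ↔ CH d := fun d => by rw [hS]; exact mem_iff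
  rw [← hS]
  -- the identity for the chains with a small top
  have key : ∀ d, CH d → Nat.card (top d) ∣ 2 →
      ∑ d' ∈ (S.filter (fun d' => Nat.card (top d') = 4)).filter
          (fun d' => d'.erase (top d') = d),
        (-1 : ℤ) ^ (d'.card + 1) * RR e (stab d') (top d') =
        -((-1 : ℤ) ^ (d.card + 1) * RR e (stab d) (top d)) := by
    intro d hd hc
    rw [hS]
    refine fib hd hc (cnt he.df hd.norm (hd.pg _ hd.top.1) ?_)
    refine idn M h2M (stab d) (fun t : stab d => br (top d) e t) ?_ ?_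
    · exact (H20.brm 2 (FF M) hF G (top d) (stab d) (hd.pg _ hd.top.1) hd.cent hd.norm).2.2 e
        he.blk.1
    · intro c hcb hec
      rcases (Nat.dvd_prime Nat.prime_two).1 hc with h1 | h1
      · exact blk_top he (stab_one hd h1) (Subgroup.card_eq_one.1 h1) hcb hec
      · obtain ⟨u, hu, _, hu2, hu3⟩ := exists_inv h1
        exact blk_two ((stab_two hd h1).trans hu3) hu2 (fun c' h2 h3 => du4 M h2M G e he u hu c' h2 h3)
          hcb hec
  have e1 := Finset.sum_filter_add_sum_filter_not S (fun d => Nat.card (top d) = 4)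
    (fun d => (-1 : ℤ) ^ (d.card + 1) * RR e (stab d) (top d))
  rw [← e1]
  have e2 : ∑ d ∈ S.filter (fun d => Nat.card (top d) ∣ 2),
      (-1 : ℤ) ^ (d.card + 1) * RR e (stab d) (top d) =
      ∑ d ∈ S.filter (fun d => ¬ Nat.card (top d) = 4),
      (-1 : ℤ) ^ (d.card + 1) * RR e (stab d) (top d) := by
    refine Finset.sum_subset ?_ ?_
    · intro d hd
      obtain ⟨h1, h2⟩ := Finset.mem_filter.1 hd
      refine Finset.mem_filter.2 ⟨h1, fun h3 => ?_⟩
      rw [h3] at h2
      norm_num at h2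
    · intro d hd hd'
      obtain ⟨h1, h2⟩ := Finset.mem_filter.1 hd
      have h3 : ¬ Nat.card (top d) ∣ 2 := fun h => hd' (Finset.mem_filter.2 ⟨h1, h⟩)
      rw [zero_of he.df ((hmem d).1 h1), mul_zero]
      intro h4
      have h5 : Nat.card (top d) ∣ 2 ^ 2 := h4
      obtain ⟨k, hk, hk'⟩ := (Nat.dvd_prime_pow Nat.prime_two).1 h5
      rw [hk'] at h2 h3
      interval_cases k
      · exact h3 (by norm_num)
      · exact h3 (by norm_num)
      · exact h2 (by norm_num)
  have e3 : ∑ d ∈ S.filter (fun d => Nat.card (top d) ∣ 2),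
      ∑ d' ∈ (S.filter (fun d' => Nat.card (top d') = 4)).filter
          (fun d' => d'.erase (top d') = d),
        (-1 : ℤ) ^ (d'.card + 1) * RR e (stab d') (top d') =
      ∑ d' ∈ S.filter (fun d' => Nat.card (top d') = 4),
        (-1 : ℤ) ^ (d'.card + 1) * RR e (stab d') (top d') := by
    refine Finset.sum_fiberwise_of_maps_to ?_ _
    intro d' hd'
    obtain ⟨h1, h2⟩ := Finset.mem_filter.1 hd'
    obtain ⟨k1, _, _, k2⟩ := ((hmem d').1 h1).ers h2
    exact Finset.mem_filter.2 ⟨(hmem _).2 k1, k2⟩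
  rw [← e2, ← e3, Finset.sum_congr rfl (fun d hd => key d ((hmem d).1 (Finset.mem_filter.1 hd).1)
    (Finset.mem_filter.1 hd).2), Finset.sum_neg_distrib, neg_add_cancel]

end Pool.Agent.PP.KF.H56
end
end -- Pool.Agent.Helper56_KF.Ct4

section -- Pool.Agent.Helper66_DF.LqE

/-!
# Squad DF, module LQE: normal subgroups of index `ℓ`
-/

open scoped BigOperators

noncomputable section

namespace Pool.Agent.DF

open Pool.Agent.Helper51_AWC Pool.Agent.Helper79_WRA Pool.Agent.PP Pool.Agent.PP.H9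

section cent

variable {ℓ : ℕ} {𝒟 : (Q : Type) → [Group Q] → Prop} {F : Type} [Field F] {X : Type} [Group X]
  [Finite X]

/-- the hypothesis of the relative theorem of Knörr and Robinson, from the induction -/
theorem hyp_rkrE (h𝒟 : SubCl 𝒟) (hps : Ps1Stmt) (hB : BrmStmt) (hF : GoodF ℓ F) (Y : Subgroup X)
    (hC : ¬ ℓ ∣ Nat.card (Subgroup.centralizer (Y : Set X)))
    (ih : ∀ (H : Type) [Group H] [Finite H] (i : H →* X) (Y' : Subgroup H), Function.Injective i →
      Y'.Normal → Y'.map i ≤ Y → mu Y' < mu Y → YHE ℓ 𝒟 F Y')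
    {G : Type} [Group G] [Finite G] (j : G →* X) (hj : Function.Injective j) (Z : Subgroup G)
    (hZ : Z.Normal) (hZY : Z.map j = Y) (e : G → F) (he : IsIdem e) (hp : Pos ℓ e Z)
    (hdf : DfE ℓ 𝒟 e Z) (u : G)
    (hu1 : u ≠ 1) (hu : ∃ n : ℕ, u ^ ℓ ^ n = 1) (h0 : Subgroup.zpowers u ⊓ Z = ⊥) :
    YY ℓ ((Subgroup.centralizer ({u} : Set G) ⊓ Z).subgroupOf
      (Subgroup.centralizer ({u} : Set G)))
      (fun t : Subgroup.centralizer ({u} : Set G) => e t) = 0 := by
  set C : Subgroup G := Subgroup.centralizer ({u} : Set G) with hCdef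
  have hmap : ((C ⊓ Z).subgroupOf C).map (j.comp C.subtype) =
      Subgroup.centralizer ({j u} : Set X) ⊓ Y := by
    rw [← Subgroup.map_map, Subgroup.subgroupOf_map_subtype]
    ext t
    rw [Subgroup.mem_map, Subgroup.mem_inf, Subgroup.mem_centralizer_singleton_iff]
    constructor
    · rintro ⟨z, hz, rfl⟩
      have hz1 : z ∈ C := hz.2
      have hz2 : z ∈ Z := hz.1.2
      rw [hCdef, Subgroup.mem_centralizer_singleton_iff] at hz1
      refine ⟨?_, ?_⟩
      · rw [← map_mul, ← map_mul, hz1]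
      · rw [← hZY]
        exact ⟨z, hz2, rfl⟩
    · rintro ⟨h1, h2⟩
      rw [← hZY] at h2
      obtain ⟨z, hz, rfl⟩ := h2
      have hz1 : z ∈ C := by
        rw [hCdef, Subgroup.mem_centralizer_singleton_iff]
        apply hj
        rw [map_mul, map_mul]
        exact h1
      exact ⟨z, ⟨⟨hz1, hz⟩, hz1⟩, rfl⟩
  have hju : ∃ n : ℕ, (j u) ^ ℓ ^ n = 1 := by
    obtain ⟨n, hn⟩ := hu
    exact ⟨n, by rw [← map_pow, hn, map_one]⟩
  have hju1 : j u ≠ 1 := by
    intro h
    exact hu1 (hj (h.trans (map_one j).symm))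
  have hnorm : ((C ⊓ Z).subgroupOf C).Normal := by
    have h1 : (C ⊓ Z).subgroupOf C = Z.subgroupOf C := by
      ext t
      rw [Subgroup.mem_subgroupOf, Subgroup.mem_subgroupOf, Subgroup.mem_inf]
      exact ⟨fun h => h.2, fun h => ⟨t.2, h⟩⟩
    rw [h1]
    exact hZ.subgroupOf _
  have hinj : Function.Injective (j.comp C.subtype) :=
    hj.comp C.subtype_injective
  refine ih C (j.comp C.subtype) ((C ⊓ Z).subgroupOf C) hinj hnorm ?_ ?_ _
    (H67.idem_cent hB hF he hu) ?_ (hdf.sub h𝒟 ?_)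
  · rw [hmap]
    exact inf_le_right
  · exact mu_lt Y (j.comp C.subtype) hinj (j u) (not_cent hF.prime hC hju1 hju) _ hmap
  · have h1 := hps ℓ F hF G (Subgroup.zpowers u) Z (H97.isPGroup_zp hu) hZ h0 e he hp C
      (cent_zp u).le (fun g hg => H97.cent_le_norm hg)
    rw [cent_zp, ← hCdef] at h1
    have h3 : (fun t : C => br (Subgroup.zpowers u) e t) = fun t : C => e t := by
      funext t
      unfold br
      rw [if_pos]
      rw [cent_zp]
      exact t.2
    rw [h3] at h1
    exact h1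
  · rw [Subgroup.subgroupOf_map_subtype]
    exact inf_le_left.trans inf_le_right

end cent

section lq

variable {𝒟 : (Q : Type) → [Group Q] → Prop}

/-- the alternating sums of `X` and of the normal subgroup `X₀` of index `ℓ` agree -/
theorem lq_eqE (h𝒟 : SubCl 𝒟) (hrkr : RkrStmt) (hlqr : LqrStmt) (hps : Ps1Stmt) (hB : BrmStmt)
    (hcux : CuxStmt) (hosi : OsiStmt) (ℓ : ℕ) (F : Type) [Field F] (hF : GoodF ℓ F)
    (X : Type) [Group X] [Finite X] (Y X₀ : Subgroup X) (hY : Y.Normal) (hn : X₀.Normal)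
    (hYX : Y ≤ X₀) (hi : X₀.index = ℓ)
    (hC : ¬ ℓ ∣ Nat.card (Subgroup.centralizer (Y : Set X)))
    (ih : ∀ (H : Type) [Group H] [Finite H] (i : H →* X) (Y' : Subgroup H), Function.Injective i →
      Y'.Normal → Y'.map i ≤ Y → mu Y' < mu Y → YHE ℓ 𝒟 F Y')
    (e : X → F) (he : IsIdem e) (hp : Pos ℓ e Y) (hdf : DfE ℓ 𝒟 e Y) :
    YY ℓ Y e = YY ℓ (Y.subgroupOf X₀) (fun t : X₀ => e t) := by
  have hsupp : ∀ x, x ∉ X₀ → e x = 0 := fun x hx => supp_idem hosi hF hn hi he hx
  have he₀ : IsIdem (fun t : X₀ => e t) := idem_res he hsupp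
  have hp₀ : Pos ℓ (fun t : X₀ => e t) (Y.subgroupOf X₀) := pos_res hYX hp
  have hdf₀ : DfE ℓ 𝒟 (fun t : X₀ => e t) (Y.subgroupOf X₀) := hdf.sub h𝒟 (by
    rw [Subgroup.subgroupOf_map_subtype]
    exact inf_le_left)
  obtain ⟨h1, h2⟩ := hrkr ℓ F hF X Y hY e he (fun u hu1 hu h0 =>
    hyp_rkrE h𝒟 hps hB hF Y hC ih (MonoidHom.id X) Function.injective_id Y hY
      (Subgroup.map_id Y) e he hp hdf u hu1 hu h0)
  have h3 := h2 X₀ hn hYX ⟨1, by rw [hi, pow_one]⟩
  have h4 := (hrkr ℓ F hF X₀ (Y.subgroupOf X₀) (hY.subgroupOf X₀) (fun t : X₀ => e t) he₀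
    (fun u hu1 hu h0 => hyp_rkrE h𝒟 hps hB hF Y hC ih X₀.subtype X₀.subtype_injective
      (Y.subgroupOf X₀) (hY.subgroupOf X₀)
      (by rw [Subgroup.subgroupOf_map_subtype, inf_eq_left.2 hYX]) (fun t : X₀ => e t) he₀ hp₀
      hdf₀ u hu1 hu h0)).1
  have h5 := (hcux ℓ F X X₀ Y hYX e).2
  have hl : (ℓ : ℤ) ≠ 0 := Nat.cast_ne_zero.2 hF.prime.ne_zero
  rw [← h1, ← h4, ← h5]
  apply mul_left_cancel₀ hl
  have h6 : (ℓ : ℤ) * ∑ d ∈ chainsOn (psubIn ℓ Y) ⊥, (-1) ^ (d.card + 1) *
      ((Nat.card (stab d) : ℤ) * (rk (fun t : stab d => br (top d) e t) (cfs F (stab d)) : ℤ)) =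
      (ℓ : ℤ) * ∑ d ∈ chainsOn (psubIn ℓ Y) ⊥, (-1) ^ (d.card + 1) *
      ((Nat.card ↥(X₀ ⊓ stab d) : ℤ) *
      (rk (fun t : ↥(X₀ ⊓ stab d) => br (top d) e t) (cfs F ↥(X₀ ⊓ stab d)) : ℤ)) +
      ((ℓ : ℤ) + 1) * ∑ d ∈ chainsOn (psubIn ℓ Y) ⊥, (-1) ^ (d.card + 1) *
      ((Nat.card (stab d) : ℤ) *
      (rk (fun t : stab d => br (top d) e t) (cfsO F (X₀.subgroupOf (stab d))) : ℤ)) := by
    rw [Finset.mul_sum, Finset.mul_sum, Finset.mul_sum, ← Finset.sum_add_distrib]
    refine Finset.sum_congr rfl fun d hd => ?_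
    have h7 := congrArg (Nat.cast : ℕ → ℤ)
      (term_id hlqr hB hosi hF hn hi he (H67.chainsOn_top hd))
    push_cast at h7
    rw [mul_left_comm, h7]
    ring
  rw [h6, h3, mul_zero, add_zero]

/-- **LQ** -/
theorem lqE (hrkr : RkrStmt) (hlqr : LqrStmt) (hps : Ps1Stmt) (hB : BrmStmt)
    (hcux : CuxStmt) (hosi : OsiStmt) : LqEStmt := by
  intro ℓ _ 𝒟 h𝒟 F _ hF X _ _ Y X₀ hY hn hYX hi hC ih e he hp hdf h
  rw [lq_eqE h𝒟 hrkr hlqr hps hB hcux hosi ℓ F hF X Y X₀ hY hn hYX hi hC ih e he hp hdf]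
  exact h

end lq

end Pool.Agent.DF
end
end -- Pool.Agent.Helper66_DF.LqE
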