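import Pool.Agent.Helper12_AWB.B056
import Pool.Agent.Helper50_PP.Ffa
import Pool.Agent.Helper51_AWC.WrChain
import Pool.Agent.Helper57_K9.Stmts

/-!
# Merged copies (generated) of the modules

* `Pool.Agent.Helper9_BN.Ch`
* `Pool.Agent.Helper90_D1.Chd`
* `Pool.Agent.Helper35_K9.CHV`
-/

set_option autoImplicit false

section -- Pool.Agent.Helper9_BN.Ch

/-!
# Squad PP, part BN, module BCH: the alternating sum has two terms
-/

open scoped BigOperators

set_option linter.unusedSectionVars false

noncomputable section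

namespace Pool.Agent.PP.BN.H9

open Pool.Agent.Helper51_AWC Pool.Agent.Helper79_WRA Pool.Agent.PP

section group

variable {D : Type} [Group D]

/-- two conjugates of `U` with a nontrivial common subgroup are equal -/
theorem conj_unique {U P : Subgroup D}
    (ti : ∀ g x : D, x ∈ U → x ≠ 1 → g * x * g⁻¹ ∈ U → g ∈ Subgroup.normalizer (U : Set D))
    (hP : P ≠ ⊥) {g h : D} (hg : P ≤ conjS g U) (hh : P ≤ conjS h U) :
    conjS g U = conjS h U := by
  have h0 : ∃ x ∈ P, x ≠ 1 := by
    by_contra hc
    push Not at hc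
    exact hP ((Subgroup.eq_bot_iff_forall P).2 hc)
  obtain ⟨x, hx, hx1⟩ := h0
  have h1 := mem_conjS.1 (hg hx)
  have h2 := mem_conjS.1 (hh hx)
  have h3 : h⁻¹ * g ∈ Subgroup.normalizer (U : Set D) := by
    apply ti (h⁻¹ * g) (g⁻¹ * x * g) h1
    · intro h0
      apply hx1
      have : x = g * (g⁻¹ * x * g) * g⁻¹ := by group
      rw [this, h0]
      group
    · have : h⁻¹ * g * (g⁻¹ * x * g) * (h⁻¹ * g)⁻¹ = h⁻¹ * x * h := by group
      rw [this]
      exact h2
  rw [mem_normalizer_iff_conjS] at h3
  have h4 := congrArg (conjS h) h3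
  rw [conjS_conjS] at h4
  have : h * (h⁻¹ * g) = g := by group
  rwa [this] at h4

theorem conjS_ne_bot {U : Subgroup D} (hU : U ≠ ⊥) (g : D) : conjS g U ≠ ⊥ := by
  intro h
  apply hU
  apply conjS_injective g
  rw [h, conjS, Subgroup.map_bot]

theorem norm_conjS (g : D) (U : Subgroup D) :
    Subgroup.normalizer ((conjS g U : Subgroup D) : Set D) =
      conjS g (Subgroup.normalizer (U : Set D)) := by
  ext x
  rw [mem_normalizer_iff_conjS, mem_conjS, mem_normalizer_iff_conjS, conjS_conjS]
  constructor
  · intro h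
    apply conjS_injective g
    rw [conjS_conjS, ← h]
    congr 1
    group
  · intro h
    have := congrArg (conjS g) h
    rw [conjS_conjS] at this
    rw [← this]
    congr 1
    group

open Classical in
/-- the closure operator -/
def cl (U P : Subgroup D) : Subgroup D :=
  if P = ⊥ then ⊥ else if h : ∃ g : D, P ≤ conjS g U then conjS h.choose U else ⊥

theorem cl_bot (U : Subgroup D) : cl U ⊥ = ⊥ := if_pos rfl

theorem cl_eq {U P : Subgroup D}
    (ti : ∀ g x : D, x ∈ U → x ≠ 1 → g * x * g⁻¹ ∈ U → g ∈ Subgroup.normalizer (U : Set D))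
    (hP : P ≠ ⊥) {g : D} (hg : P ≤ conjS g U) : cl U P = conjS g U := by
  have h : ∃ g : D, P ≤ conjS g U := ⟨g, hg⟩
  unfold cl
  rw [if_neg hP, dif_pos h]
  exact conj_unique ti hP h.choose_spec hg

end group

section count

variable {D : Type} [Group D] [Finite D]

theorem card_fib (U : Subgroup D) (k : D) :
    Nat.card {g : D // conjS g U = conjS k U} = Nat.card (Subgroup.normalizer (U : Set D)) := by
  refine Nat.card_congr
    { toFun := fun g => ⟨k⁻¹ * g.1, ?_⟩
      invFun := fun n => ⟨k * n.1, ?_⟩
      left_inv := fun g => ?_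
      right_inv := fun n => ?_ }
  · rw [mem_normalizer_iff_conjS]
    apply conjS_injective k
    rw [conjS_conjS]
    have h : k * (k⁻¹ * g.1) = g.1 := by group
    rw [h]
    exact g.2
  · have := mem_normalizer_iff_conjS.1 n.2
    have h := congrArg (conjS k) this
    rwa [conjS_conjS] at h
  · apply Subtype.ext
    change k * (k⁻¹ * g.1) = g.1
    group
  · apply Subtype.ext
    change k⁻¹ * (k * n.1) = n.1
    group

end count

open Classical in
/-- general form: `U` is an `ℓ`-subgroup, every `ℓ`-subgroup is contained in a conjugate of `U`,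
different conjugates of `U` intersect trivially. -/
theorem tic {ℓ : ℕ} {F : Type} [Field F] {D : Type} [Group D] [Finite D] {U : Subgroup D}
    (pU : IsPGroup ℓ U) (hU : U ≠ ⊥) (syl : ∀ P : Subgroup D, IsPGroup ℓ P → ∃ g : D, P ≤ conjS g U)
    (ti : ∀ g x : D, x ∈ U → x ≠ 1 → g * x * g⁻¹ ∈ U → g ∈ Subgroup.normalizer (U : Set D))
    {e : D → F} (he : IsCl e) :
    YY ℓ ⊤ e = (Nat.card D : ℤ) * ({f : D → F | f ∈ IBr F D ∧ actF e f = f}.ncard : ℤ) -
      (Nat.card D : ℤ) * (lnum (Subgroup.normalizer (U : Set D)) e : ℤ) := by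
  have := Fintype.ofFinite D
  set NU := Subgroup.normalizer (U : Set D) with hNU
  unfold YY
  set f : Finset (Subgroup D) → ℤ := fun d => (-1) ^ (d.card + 1) *
    ((Nat.card (stab d) : ℤ) * (lnum (stab d) e : ℤ)) with hf
  change ∑ d ∈ chainsOn (psubIn ℓ ⊤) ⊥, f d = _
  have hcl : ∀ P : Subgroup D, IsPGroup ℓ P → P ≤ cl U P ∧ IsPGroup ℓ (cl U P) := by
    intro P hP
    by_cases h : P = ⊥
    · rw [h, cl_bot]
      exact ⟨le_rfl, IsPGroup.of_bot⟩
    · obtain ⟨g, hg⟩ := syl P hP
      rw [cl_eq ti h hg]
      exact ⟨hg, conjS_pgroup pU⟩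
  rw [sum_closure (psubIn ℓ (⊤ : Subgroup D)) ⊥ (cl U)]
  · -- the closed chains
    let C : Finset (Subgroup D) := Finset.univ.image fun g : D => conjS g U
    have hclosed : (chainsOn (psubIn ℓ (⊤ : Subgroup D)) ⊥).filter (fun d => ∀ x ∈ d, cl U x = x) =
        insert {⊥} (C.image fun V => {⊥, V}) := by
      ext d
      rw [Finset.mem_filter, Finset.mem_insert, Finset.mem_image, mem_chainsOn]
      constructor
      · rintro ⟨⟨h1, h2, h3⟩, h4⟩
        have hconj : ∀ V ∈ d, V ≠ ⊥ → ∃ g, conjS g U = V := by
          intro V hV hV1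
          obtain ⟨g, hg⟩ := syl V (H75.mem_psubIn'.1 (h1 hV)).2
          exact ⟨g, by rw [← cl_eq ti hV1 hg, h4 V hV]⟩
        by_cases hd : ∃ V ∈ d, V ≠ ⊥
        · obtain ⟨V, hV, hV1⟩ := hd
          right
          obtain ⟨g, hg⟩ := hconj V hV hV1
          refine ⟨V, Finset.mem_image.2 ⟨g, Finset.mem_univ _, hg⟩, ?_⟩
          ext W
          rw [Finset.mem_insert, Finset.mem_singleton]
          constructor
          · rintro (rfl | rfl)
            · exact h2
            · exact hV
          · intro hW
            by_cases hW1 : W = ⊥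
            · left; exact hW1
            · right
              obtain ⟨k, hk⟩ := hconj W hW hW1
              rcases chain_total h3 hW hV with h | h
              · rw [← hk, ← hg]
                exact conj_unique ti hW1 hk.ge (hg ▸ h)
              · rw [← hk, ← hg]
                exact conj_unique ti hV1 (hk ▸ h) hg.ge
        · left
          push Not at hd
          ext W
          rw [Finset.mem_singleton]
          constructor
          · intro hW; exact hd W hW
          · rintro rfl; exact h2
      · rintro (rfl | ⟨V, hV, rfl⟩)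
        · refine ⟨⟨?_, Finset.mem_singleton_self _, ?_⟩, ?_⟩
          · intro W hW
            rw [Finset.mem_singleton.1 hW, H75.mem_psubIn']
            exact ⟨le_top, IsPGroup.of_bot⟩
          · intro x hx y hy hxy
            rw [Finset.mem_coe, Finset.mem_singleton] at hx hy
            exact absurd (hx.trans hy.symm) hxy
          · intro W hW
            rw [Finset.mem_singleton.1 hW, cl_bot]
        · obtain ⟨g, -, rfl⟩ := Finset.mem_image.1 hV
          refine ⟨⟨?_, Finset.mem_insert_self _ _, ?_⟩, ?_⟩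
          · intro W hW
            rw [H75.mem_psubIn']
            rcases Finset.mem_insert.1 hW with rfl | h
            · exact ⟨le_top, IsPGroup.of_bot⟩
            · rw [Finset.mem_singleton.1 h]
              exact ⟨le_top, conjS_pgroup pU⟩
          · intro x hx y hy hxy
            rw [Finset.mem_coe, Finset.mem_insert, Finset.mem_singleton] at hx hy
            rcases hx with rfl | rfl
            · left; exact bot_le
            · rcases hy with rfl | rfl
              · right; exact bot_le
              · exact absurd rfl hxy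
          · intro W hW
            rcases Finset.mem_insert.1 hW with rfl | h
            · exact cl_bot U
            · rw [Finset.mem_singleton.1 h]
              exact cl_eq ti (conjS_ne_bot hU g) le_rfl
    have hstab0 : stab ({⊥} : Finset (Subgroup D)) = ⊤ := by
      rw [eq_top_iff]
      intro x _
      rw [mem_stab]
      intro W hW
      rw [Finset.mem_singleton.1 hW, conjS, Subgroup.map_bot]
    have hstab1 : ∀ V : Subgroup D, stab ({⊥, V} : Finset (Subgroup D)) =
        Subgroup.normalizer (V : Set D) := by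
      intro V
      ext x
      rw [mem_stab, mem_normalizer_iff_conjS]
      constructor
      · intro h
        exact h V (Finset.mem_insert_of_mem (Finset.mem_singleton_self _))
      · intro h W hW
        rcases Finset.mem_insert.1 hW with rfl | h'
        · rw [conjS, Subgroup.map_bot]
        · rw [Finset.mem_singleton.1 h']
          exact h
    have hf0 : f {⊥} = (Nat.card D : ℤ) *
        ({f : D → F | f ∈ IBr F D ∧ actF e f = f}.ncard : ℤ) := by
      have h1 : lnum (⊤ : Subgroup D) e = {f : D → F | f ∈ IBr F D ∧ actF e f = f}.ncard := by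
        rw [H75.lnum_eq]
        exact H75.cnt_equiv Subgroup.topEquiv e
      simp only [hf, hstab0, Finset.card_singleton]
      rw [h1, Subgroup.card_top]
      ring
    have hf1 : ∀ V ∈ C, f {⊥, V} = -((Nat.card NU : ℤ) * (lnum NU e : ℤ)) := by
      intro V hV
      obtain ⟨g, -, rfl⟩ := Finset.mem_image.1 hV
      have h1 : ({⊥, conjS g U} : Finset (Subgroup D)).card = 2 :=
        Finset.card_pair (conjS_ne_bot hU g).symm
      have h2 : Nat.card (conjS g NU : Subgroup D) = Nat.card NU :=
        (Nat.card_congr (conjSEquiv g NU).toEquiv).symm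
      have h3 : lnum (conjS g NU) e = lnum NU e := by
        rw [conjS, H75.lnum_map _ (MulAut.conj g).injective]
        have h4 : (fun x => e ((MulAut.conj g).toMonoidHom x)) = e := by
          funext x
          exact he x g
        rw [h4]
      simp only [hf]
      rw [h1, hstab1, norm_conjS, ← hNU, h2, h3]
      ring
    have hcard : (C.card : ℤ) * (Nat.card NU : ℤ) = (Nat.card D : ℤ) := by
      have h1 : Fintype.card D = ∑ V ∈ C, (Finset.univ.filter fun g : D => conjS g U = V).card := by
        rw [← Finset.card_univ]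
        exact Finset.card_eq_sum_card_fiberwise
          (fun g _ => Finset.mem_image_of_mem _ (Finset.mem_univ g))
      have h2 : ∀ V ∈ C, (Finset.univ.filter fun g : D => conjS g U = V).card = Nat.card NU := by
        intro V hV
        obtain ⟨k, -, rfl⟩ := Finset.mem_image.1 hV
        rw [← card_fib U k, Nat.card_eq_fintype_card, Fintype.card_subtype]
      rw [Finset.sum_congr rfl h2, Finset.sum_const, smul_eq_mul] at h1
      rw [Nat.card_eq_fintype_card (α := D), h1]
      push_cast
      ring
    refine (Finset.sum_congr (s₂ := insert {⊥} (C.image fun V => {⊥, V}))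
      (by rw [← hclosed]; ext d; simp only [Finset.mem_filter]) fun _ _ => rfl).trans ?_
    rw [Finset.sum_insert, hf0, Finset.sum_image, Finset.sum_congr rfl hf1,
      Finset.sum_const, nsmul_eq_mul, ← hcard]
    · ring
    · intro V hV W hW h
      have h1 : V ∈ ({⊥, W} : Finset (Subgroup D)) := by
        have h2 : V ∈ ({⊥, V} : Finset (Subgroup D)) :=
          Finset.mem_insert_of_mem (Finset.mem_singleton_self _)
        have h3 : ({⊥, V} : Finset (Subgroup D)) = {⊥, W} := h
        rwa [h3] at h2
      obtain ⟨g, -, hg⟩ := Finset.mem_image.1 (Finset.mem_coe.1 hV)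
      rcases Finset.mem_insert.1 h1 with h2 | h2
      · exact absurd (hg.trans h2) (conjS_ne_bot hU g)
      · exact Finset.mem_singleton.1 h2
    · intro h
      obtain ⟨V, hV, h1⟩ := Finset.mem_image.1 h
      obtain ⟨g, -, hg⟩ := Finset.mem_image.1 hV
      have h2 : V ∈ ({⊥} : Finset (Subgroup D)) := by
        rw [← h1]
        exact Finset.mem_insert_of_mem (Finset.mem_singleton_self _)
      exact absurd (hg.trans (Finset.mem_singleton.1 h2)) (conjS_ne_bot hU g)
  · intro P hP
    rw [H75.mem_psubIn'] at hP ⊢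
    exact ⟨le_top, (hcl P hP.2).2⟩
  · intro P hP
    exact (hcl P (H75.mem_psubIn'.1 hP).2).1
  · intro P hP Q hQ hPQ
    by_cases h : P = ⊥
    · rw [h, cl_bot]
      exact bot_le
    · have hQ1 : Q ≠ ⊥ := fun h' => h (le_bot_iff.1 (h' ▸ hPQ))
      obtain ⟨g, hg⟩ := syl Q (H75.mem_psubIn'.1 hQ).2
      rw [cl_eq ti hQ1 hg, cl_eq ti h (hPQ.trans hg)]
  · intro P hP
    by_cases h : P = ⊥
    · rw [h, cl_bot, cl_bot]
    · obtain ⟨g, hg⟩ := syl P (H75.mem_psubIn'.1 hP).2
      rw [cl_eq ti h hg, cl_eq ti (conjS_ne_bot hU g) le_rfl]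
  · exact cl_bot U
  · intro P _
    exact bot_le
  · intro d hd P hP hPn
    have hPp := (H75.mem_psubIn'.1 ((mem_chainsOn.1 hd).1 hP)).2
    have hst : stab (insert (cl U P) d) = stab d := by
      apply stab_insert_of hP
      intro g hg
      by_cases h : P = ⊥
      · rw [h, cl_bot, conjS, Subgroup.map_bot]
      · obtain ⟨k, hk⟩ := syl P hPp
        rw [cl_eq ti h hk, conjS_conjS]
        apply conj_unique ti h _ hk
        rw [← conjS_conjS]
        have := conjS_mono (g := g).2 hk
        rwa [hg] at this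
    simp only [hf]
    rw [hst, Finset.card_insert_of_notMem hPn]
    ring

/-- **BCH** -/
theorem ch : ChStmt := by
  intro ℓ _ F _ D _ _ M U T n hD e he
  exact tic (hD.bn.pU.of_equiv (Subgroup.subgroupOfEquivOfLe hD.UM)) hD.ne hD.syl hD.ti he

end Pool.Agent.PP.BN.H9
end
end -- Pool.Agent.Helper9_BN.Ch

section -- Pool.Agent.Helper90_D1.Chd

/-!
# Squad PP, part D1, module CHD: the alternating sum has two terms
-/

open scoped BigOperators

noncomputable section

namespace Pool.Agent.PP.D1.H90

open Pool.Agent.Helper51_AWC Pool.Agent.Helper79_WRA Pool.Agent.PP Pool.Agent.PP.BN.H9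

section group

variable {G : Type} [Group G] [Finite G]

theorem bot_or_eq {ℓ : ℕ} (hℓ : ℓ.Prime) {V : Subgroup G} (hV : Nat.card V = ℓ) {D : Subgroup G}
    (hD : D ≤ V) : D = ⊥ ∨ D = V := by
  have h1 : Nat.card D ∣ ℓ := hV ▸ Subgroup.card_dvd_of_le hD
  rcases (Nat.dvd_prime hℓ).1 h1 with h | h
  · left
    exact Subgroup.card_eq_one.1 h
  · right
    exact Subgroup.eq_of_le_of_card_ge hD (by rw [hV, h])

theorem card_conjS (g : G) (P : Subgroup G) : Nat.card (conjS g P) = Nat.card P :=
  (Nat.card_congr (conjSEquiv g P).toEquiv).symm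

theorem isPGroup_of_card {ℓ : ℕ} {V : Subgroup G} (hV : Nat.card V = ℓ) : IsPGroup ℓ V :=
  IsPGroup.of_card (n := 1) (by rw [hV, pow_one])

theorem stab_bot : stab ({⊥} : Finset (Subgroup G)) = ⊤ := by
  rw [eq_top_iff]
  intro x _
  rw [mem_stab]
  intro W hW
  rw [Finset.mem_singleton.1 hW, conjS, Subgroup.map_bot]

open Classical in
theorem stab_pair (V : Subgroup G) : stab ({⊥, V} : Finset (Subgroup G)) =
    Subgroup.normalizer (V : Set G) := by
  ext x
  rw [mem_stab, mem_normalizer_iff_conjS]
  constructor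
  · intro h
    exact h V (Finset.mem_insert_of_mem (Finset.mem_singleton_self _))
  · intro h W hW
    rcases Finset.mem_insert.1 hW with rfl | h'
    · rw [conjS, Subgroup.map_bot]
    · rw [Finset.mem_singleton.1 h']
      exact h

open Classical in
theorem top_pair (V : Subgroup G) : top ({⊥, V} : Finset (Subgroup G)) = V := by
  unfold top
  rw [Finset.coe_insert, Finset.coe_singleton, sSup_insert, sSup_singleton, bot_sup_eq]

open Classical in
theorem top_single : top ({⊥} : Finset (Subgroup G)) = ⊥ := by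
  unfold top
  rw [Finset.coe_singleton, sSup_singleton]

open Classical in
theorem pair_mem {ℓ : ℕ} {N V : Subgroup G} (hV : V ≤ N) (hp : IsPGroup ℓ V) :
    ({⊥, V} : Finset (Subgroup G)) ∈ (chainsOn (psubIn ℓ N) ⊥).filter NormalChain := by
  rw [Finset.mem_filter, mem_chainsOn]
  refine ⟨⟨?_, Finset.mem_insert_self _ _, ?_⟩, ?_⟩
  · intro W hW
    rw [H75.mem_psubIn']
    rcases Finset.mem_insert.1 hW with rfl | h
    · exact ⟨bot_le, IsPGroup.of_bot⟩
    · rw [Finset.mem_singleton.1 h]
      exact ⟨hV, hp⟩
  · intro x hx y hy hxy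
    rw [Finset.mem_coe, Finset.mem_insert, Finset.mem_singleton] at hx hy
    rcases hx with rfl | rfl
    · left; exact bot_le
    · rcases hy with rfl | rfl
      · right; exact bot_le
      · exact absurd rfl hxy
  · intro D hD
    rw [top_pair]
    rcases Finset.mem_insert.1 hD with rfl | h
    · intro x _
      rw [mem_normalizer_iff_conjS, conjS, Subgroup.map_bot]
    · rw [Finset.mem_singleton.1 h]
      exact Subgroup.le_normalizer

open Classical in
theorem single_mem {ℓ : ℕ} {N : Subgroup G} :
    ({⊥} : Finset (Subgroup G)) ∈ (chainsOn (psubIn ℓ N) ⊥).filter NormalChain := by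
  rw [Finset.mem_filter, mem_chainsOn]
  refine ⟨⟨?_, Finset.mem_singleton_self _, ?_⟩, ?_⟩
  · intro W hW
    rw [H75.mem_psubIn', Finset.mem_singleton.1 hW]
    exact ⟨bot_le, IsPGroup.of_bot⟩
  · intro x hx y hy hxy
    rw [Finset.mem_coe, Finset.mem_singleton] at hx hy
    exact absurd (hx.trans hy.symm) hxy
  · intro D _
    rw [top_single]
    exact bot_le

open Classical in
/-- a chain with top `V` of prime order -/
theorem eq_pair {ℓ : ℕ} (hℓ : ℓ.Prime) {d : Finset (Subgroup G)} {V : Subgroup G}
    (hV : Nat.card V = ℓ) (hb : ⊥ ∈ d) (ht : V ∈ d) (hle : ∀ D ∈ d, D ≤ V) : d = {⊥, V} := by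
  ext W
  rw [Finset.mem_insert, Finset.mem_singleton]
  constructor
  · intro hW
    exact bot_or_eq hℓ hV (hle W hW)
  · rintro (rfl | rfl)
    · exact hb
    · exact ht

end group

open Classical in
/-- CHD -/
theorem chd (hNch : NchStmt) (hNls : NlsStmt) (hBrm : BrmStmt) : ChdStmt := by
  intro ℓ _ F _ hF G _ _ N P b hD hU e he heb
  have := Fintype.ofFinite G
  have hℓ : ℓ.Prime := hF.prime
  have hPp : IsPGroup ℓ P := isPGroup_of_card hD.card
  have hP0 : P ≠ ⊥ := by
    intro h
    have h1 := hD.card
    rw [h, Subgroup.card_bot] at h1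
    exact hℓ.one_lt.ne h1
  have hcN : ∀ g : G, conjS g P ≤ N := by
    intro g x hx
    rw [mem_conjS] at hx
    have h1 := hD.normal.conj_mem _ (hD.le hx) g
    have h2 : g * (g⁻¹ * x * g) * g⁻¹ = x := by group
    rwa [h2] at h1
  have hcc : ∀ g : G, Nat.card (conjS g P) = ℓ := fun g => by rw [card_conjS, hD.card]
  -- normal chains
  have hYY : YY ℓ N e = ∑ d ∈ (chainsOn (psubIn ℓ N) ⊥).filter NormalChain,
      (-1) ^ (d.card + 1) * ((Nat.card (stab d) : ℤ) * (lnum (stab d) e : ℤ)) :=
    hNch ℓ G N (fun S _ => (Nat.card S : ℤ) * (lnum S e : ℤ))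
  -- the conjugates of `P`
  obtain ⟨C, hC⟩ : ∃ C : Finset (Subgroup G), C = Finset.univ.image fun g : G => conjS g P :=
    ⟨_, rfl⟩
  -- the other chains
  have hkill : ∀ d ∈ (chainsOn (psubIn ℓ N) ⊥).filter NormalChain,
      d ∉ insert ({⊥} : Finset (Subgroup G)) (C.image fun V => {⊥, V}) →
      (-1 : ℤ) ^ (d.card + 1) * ((Nat.card (stab d) : ℤ) * (lnum (stab d) e : ℤ)) = 0 := by
    intro d hd hdn
    rw [Finset.mem_filter, mem_chainsOn] at hd
    obtain ⟨⟨h1, h2, h3⟩, h4⟩ := hd
    obtain ⟨t1, t2⟩ := H94.top_mem h3 ⟨_, h2⟩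
    obtain ⟨tN, tp⟩ := H75.mem_psubIn'.1 (h1 t1)
    have hbr : br (top d) b = 0 := by
      by_contra hne
      rcases hU (top d) tN tp hne with h | ⟨g, hg⟩
      · apply hdn
        rw [Finset.mem_insert]
        left
        ext W
        rw [Finset.mem_singleton]
        constructor
        · intro hW
          have := t2 W hW
          rw [h, le_bot_iff] at this
          exact this
        · rintro rfl
          exact h2
      · apply hdn
        rw [Finset.mem_insert]
        right
        rw [Finset.mem_image]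
        refine ⟨top d, ?_, ?_⟩
        · rw [hC, Finset.mem_image]
          exact ⟨g, Finset.mem_univ _, hg.symm⟩
        · exact (eq_pair hℓ (by rw [hg, hcc]) h2 t1 t2).symm
    have hbe : br (top d) e = 0 := by
      have h5 := (hBrm ℓ F hF G (top d) (Subgroup.centralizer ((top d : Subgroup G) : Set G)) tp
        le_rfl (Subgroup.centralizer_le_normalizer _)).1 e b he.1 hD.idem.1
      rw [heb, hbr] at h5
      rw [h5]
      funext x
      unfold mulF
      simp
    have hX1 : top d ≤ stab d := by
      intro x hx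
      rw [mem_stab]
      intro D hDd
      exact mem_normalizer_iff_conjS.1 (h4 D hDd hx)
    have hX2 : stab d ≤ Subgroup.normalizer ((top d : Subgroup G) : Set G) := by
      intro x hx
      rw [mem_normalizer_iff_conjS]
      exact mem_stab.1 hx _ t1
    rw [H65.kill hNls hF he.1 hX1 hX2 tp]
    · simp
    · intro g _ hg
      have h6 := congrFun hbe g
      unfold br at h6
      rw [if_pos hg] at h6
      exact h6
  have hsub : insert ({⊥} : Finset (Subgroup G)) (C.image fun V => {⊥, V}) ⊆
      (chainsOn (psubIn ℓ N) ⊥).filter NormalChain := by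
    intro d hd
    rw [Finset.mem_insert, Finset.mem_image] at hd
    rcases hd with rfl | ⟨V, hV, rfl⟩
    · exact single_mem
    · rw [hC] at hV
      obtain ⟨g, -, rfl⟩ := Finset.mem_image.1 hV
      exact pair_mem (hcN g) (isPGroup_of_card (hcc g))
  rw [hYY, ← Finset.sum_subset hsub hkill]
  -- values
  have hf0 : (-1 : ℤ) ^ (({⊥} : Finset (Subgroup G)).card + 1) *
      ((Nat.card (stab ({⊥} : Finset (Subgroup G))) : ℤ) *
        (lnum (stab ({⊥} : Finset (Subgroup G))) e : ℤ)) = (Nat.card G : ℤ) *
      ({f : G → F | f ∈ IBr F G ∧ actF e f = f}.ncard : ℤ) := by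
    have h1 : lnum (⊤ : Subgroup G) e = {f : G → F | f ∈ IBr F G ∧ actF e f = f}.ncard := by
      rw [H75.lnum_eq]
      exact H75.cnt_equiv Subgroup.topEquiv e
    rw [stab_bot, Finset.card_singleton, h1, Subgroup.card_top]
    ring
  have hbr1 : lnum (Subgroup.normalizer (P : Set G)) e =
      lnum (Subgroup.normalizer (P : Set G)) (br P e) :=
    H96.lnum_br hF hNls hPp Subgroup.le_normalizer le_rfl he.1
  have hf1 : ∀ V ∈ C, (-1 : ℤ) ^ (({⊥, V} : Finset (Subgroup G)).card + 1) *
      ((Nat.card (stab ({⊥, V} : Finset (Subgroup G))) : ℤ) *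
        (lnum (stab ({⊥, V} : Finset (Subgroup G))) e : ℤ)) =
      -((Nat.card (Subgroup.normalizer (P : Set G)) : ℤ) *
        (lnum (Subgroup.normalizer (P : Set G)) (br P e) : ℤ)) := by
    intro V hV
    rw [hC] at hV
    obtain ⟨g, -, rfl⟩ := Finset.mem_image.1 hV
    have h1 : ({⊥, conjS g P} : Finset (Subgroup G)).card = 2 :=
      Finset.card_pair (conjS_ne_bot hP0 g).symm
    have h3 : lnum (conjS g (Subgroup.normalizer (P : Set G))) e =
        lnum (Subgroup.normalizer (P : Set G)) e := by
      rw [conjS, H75.lnum_map _ (MulAut.conj g).injective]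
      have h4 : (fun x => e ((MulAut.conj g).toMonoidHom x)) = e := by
        funext x
        exact he.1 x g
      rw [h4]
    rw [h1, stab_pair, norm_conjS, card_conjS, h3, hbr1]
    ring
  have hcard : (C.card : ℤ) * (Nat.card (Subgroup.normalizer (P : Set G)) : ℤ) =
      (Nat.card G : ℤ) := by
    have h1 : Fintype.card G = ∑ V ∈ C, (Finset.univ.filter fun g : G => conjS g P = V).card := by
      rw [← Finset.card_univ]
      exact Finset.card_eq_sum_card_fiberwise
        (fun g _ => by
          rw [hC]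
          exact Finset.mem_coe.2 (Finset.mem_image_of_mem _ (Finset.mem_univ g)))
    have h2 : ∀ V ∈ C, (Finset.univ.filter fun g : G => conjS g P = V).card =
        Nat.card (Subgroup.normalizer (P : Set G)) := by
      intro V hV
      rw [hC] at hV
      obtain ⟨k, -, rfl⟩ := Finset.mem_image.1 hV
      rw [← card_fib P k, Nat.card_eq_fintype_card, Fintype.card_subtype]
    rw [Finset.sum_congr rfl h2, Finset.sum_const, smul_eq_mul] at h1
    rw [Nat.card_eq_fintype_card (α := G), h1]
    push_cast
    ring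
  rw [Finset.sum_insert, hf0, Finset.sum_image, Finset.sum_congr rfl hf1,
    Finset.sum_const, nsmul_eq_mul]
  · have h5 : (lnum (Subgroup.normalizer (P : Set G)) (br P e) : ℤ) =
        ({θ : Subgroup.normalizer (P : Set G) → F |
          θ ∈ IBr F (Subgroup.normalizer (P : Set G)) ∧
          actF (fun t : Subgroup.normalizer (P : Set G) => br P e t) θ = θ}.ncard : ℤ) := rfl
    rw [← h5]
    linear_combination (-(lnum (Subgroup.normalizer (P : Set G)) (br P e) : ℤ)) * hcard
  · intro V hV W hW h
    have hV' : V ∈ C := hV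
    rw [hC] at hV'
    obtain ⟨g, -, hg⟩ := Finset.mem_image.1 hV'
    have h1 : V ∈ ({⊥, W} : Finset (Subgroup G)) := by
      have h2 : V ∈ ({⊥, V} : Finset (Subgroup G)) :=
        Finset.mem_insert_of_mem (Finset.mem_singleton_self _)
      have h3 : ({⊥, V} : Finset (Subgroup G)) = {⊥, W} := h
      rwa [h3] at h2
    rcases Finset.mem_insert.1 h1 with h2 | h2
    · exact absurd (hg.trans h2) (conjS_ne_bot hP0 g)
    · exact Finset.mem_singleton.1 h2
  · intro h
    obtain ⟨V, hV, h1⟩ := Finset.mem_image.1 h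
    rw [hC] at hV
    obtain ⟨g, -, hg⟩ := Finset.mem_image.1 hV
    have h2 : V ∈ ({⊥} : Finset (Subgroup G)) := by
      rw [← h1]
      exact Finset.mem_insert_of_mem (Finset.mem_singleton_self _)
    exact absurd (hg.trans (Finset.mem_singleton.1 h2)) (conjS_ne_bot hP0 g)

end Pool.Agent.PP.D1.H90
end
end -- Pool.Agent.Helper90_D1.Chd

section -- Pool.Agent.Helper35_K9.CHV

/-!
# Squad K9, row CHV: the alternating sum for a defect group of order `ℓ ^ 2`
-/

open scoped BigOperators

set_option linter.unusedSectionVars false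

noncomputable section

namespace Pool.Agent.PP.K9.H35

open Pool.Agent.Helper51_AWC Pool.Agent.Helper79_WRA Pool.Agent.PP Pool.Agent.PP.KF

attribute [local instance] Ideal.Quotient.field

section gen

variable {F : Type} [Field F] {G : Type} [Group G] [Finite G]

theorem lnum_conjS {e : G → F} (he : IsCl e) (g : G) (X : Subgroup G) :
    lnum (conjS g X) e = lnum X e := by
  rw [conjS, PP.H75.lnum_map _ (MulAut.conj g).injective]
  have h4 : (fun x => e ((MulAut.conj g).toMonoidHom x)) = e := by
    funext x
    exact he x g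
  rw [h4]

theorem lnum_top (e : G → F) :
    lnum (⊤ : Subgroup G) e = {f : G → F | f ∈ IBr F G ∧ actF e f = f}.ncard := by
  rw [PP.H75.lnum_eq]
  exact PP.H75.cnt_equiv Subgroup.topEquiv e

/-- `W` is a conjugate of `V` -/
def CJ (V W : Subgroup G) : Prop := ∃ g : G, W = conjS g V

open Classical in
/-- the number of conjugates of `V` -/
theorem card_conj [Fintype (Subgroup G)] (V : Subgroup G) :
    (Finset.univ.filter (fun W : Subgroup G => CJ V W)).card *
      Nat.card (Subgroup.normalizer (V : Set G)) = Nat.card G := by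
  obtain ⟨C, hC⟩ : ∃ C : Finset (Subgroup G),
      C = Finset.univ.filter (fun W : Subgroup G => CJ V W) := ⟨_, rfl⟩
  rw [← hC]
  have := Fintype.ofFinite G
  have h1 : Fintype.card G = ∑ W ∈ C, (Finset.univ.filter fun g : G => conjS g V = W).card := by
    rw [← Finset.card_univ]
    exact Finset.card_eq_sum_card_fiberwise
      (fun g _ => by
        rw [hC]
        exact Finset.mem_coe.2 (Finset.mem_filter.2 ⟨Finset.mem_univ _, g, rfl⟩))
  have h2 : ∀ W ∈ C, (Finset.univ.filter fun g : G => conjS g V = W).card =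
      Nat.card (Subgroup.normalizer (V : Set G)) := by
    intro W hW
    rw [hC] at hW
    obtain ⟨-, k, rfl⟩ := Finset.mem_filter.1 hW
    rw [← BN.H9.card_fib V k, Nat.card_eq_fintype_card, Fintype.card_subtype]
  rw [Finset.sum_congr rfl h2, Finset.sum_const, smul_eq_mul] at h1
  rw [Nat.card_eq_fintype_card (α := G), h1]

end gen

theorem chv (hexp : ExpStmt) (hchq : ChqStmt) (hlbr : LbrStmt) (hfmg : FmgStmt) : ChvStmt := by
  classical
  intro ℓ hℓ M _ hM G _ _ e he V hV hVc
  have hF : GoodF ℓ (FF M) := H50.fld ℓ hℓ.out M hM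
  have hfin : Fintype (Subgroup G) := Fintype.ofFinite _
  have hmx : ∀ Q : Subgroup G, IsPGroup ℓ Q → Gd e Q → Nat.card Q ≤ ℓ ^ 2 :=
    fun Q h1 h2 => hVc ▸ hV.mx Q h1 h2
  rw [hexp ℓ (FF M) hF G e he.1 hmx]
  -- the terms with a subgroup of order `ℓ`
  have hQ : ∑ᶠ (Q : Subgroup G) (_ : Nat.card Q = ℓ),
        (Nat.card (Subgroup.normalizer (Q : Set G)) : ℤ) *
          lnum (Subgroup.normalizer (Q : Set G)) e =
      ∑ᶠ (Q : Subgroup G) (_ : Nat.card Q = ℓ), ∑ᶠ (V : Subgroup G)
        (_ : Nat.card V = ℓ ^ 2 ∧ Q ≤ V),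
        (Nat.card (Subgroup.normalizer (Q : Set G) ⊓ Subgroup.normalizer (V : Set G) :
          Subgroup G) : ℤ) *
          lnum (Subgroup.normalizer (Q : Set G) ⊓ Subgroup.normalizer (V : Set G)) e := by
    refine finsum_congr fun Q => finsum_congr fun hQ => ?_
    exact hchq ℓ M hM G e he V hV hVc Q hQ
  rw [← hQ]
  -- the terms with a subgroup of order `ℓ ^ 2`
  have hW : ∑ᶠ (W : Subgroup G) (_ : Nat.card W = ℓ ^ 2),
        (Nat.card (Subgroup.normalizer (W : Set G)) : ℤ) *
          lnum (Subgroup.normalizer (W : Set G)) e =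
      (Nat.card G : ℤ) * (lnum (Subgroup.normalizer (V : Set G)) e : ℤ) := by
    rw [finsum_eq_sum_of_fintype]
    simp only [finsum_eq_if]
    rw [← Finset.sum_filter]
    have h1 : Finset.univ.filter (fun W : Subgroup G => CJ V W) ⊆
        Finset.univ.filter (fun W : Subgroup G => Nat.card W = ℓ ^ 2) := by
      intro W hW
      obtain ⟨-, g, rfl⟩ := Finset.mem_filter.1 hW
      exact Finset.mem_filter.2 ⟨Finset.mem_univ _, (card_conjS g V).trans hVc⟩
    rw [← Finset.sum_subset h1]
    · have h2 : ∀ W ∈ Finset.univ.filter (fun W : Subgroup G => CJ V W),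
          (Nat.card (Subgroup.normalizer (W : Set G)) : ℤ) *
            lnum (Subgroup.normalizer (W : Set G)) e =
          (Nat.card (Subgroup.normalizer (V : Set G)) : ℤ) *
            lnum (Subgroup.normalizer (V : Set G)) e := by
        intro W hW
        obtain ⟨-, g, rfl⟩ := Finset.mem_filter.1 hW
        rw [BN.H9.norm_conjS, card_conjS, lnum_conjS he.1.1]
      rw [Finset.sum_congr rfl h2, Finset.sum_const, nsmul_eq_mul, ← mul_assoc,
        ← card_conj V]
      push_cast
      ring
    · intro W hW hW2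
      obtain ⟨-, hWc⟩ := Finset.mem_filter.1 hW
      have hWp : IsPGroup ℓ W := IsPGroup.of_card (n := 2) hWc
      have h3 : ¬ Gd e W := by
        intro hg
        obtain ⟨g, hg2⟩ := (hfmg ℓ M hM G e he V hV).1 W hWp hg
        apply hW2
        refine Finset.mem_filter.2 ⟨Finset.mem_univ _, g, ?_⟩
        refine Subgroup.eq_of_le_of_card_ge hg2 ?_
        rw [card_conjS, hVc, hWc]
      rw [(hlbr ℓ (FF M) hF G e he.1 W (Subgroup.normalizer (W : Set G)) hWp
        Subgroup.le_normalizer le_rfl).2 h3, Nat.cast_zero, mul_zero]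
  rw [hW, lnum_top, (hlbr ℓ (FF M) hF G e he.1 V (Subgroup.normalizer (V : Set G)) hV.pg
    Subgroup.le_normalizer le_rfl).1]
  have h5 : lnum (Subgroup.normalizer (V : Set G)) (br V e) =
      {f : Subgroup.normalizer (V : Set G) → FF M |
      f ∈ IBr (FF M) (Subgroup.normalizer (V : Set G)) ∧
      actF (fun t : Subgroup.normalizer (V : Set G) => br V e t) f = f}.ncard := rfl
  rw [← h5]
  ring

end Pool.Agent.PP.K9.H35
end
end -- Pool.Agent.Helper35_K9.CHV
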