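import Pool.Agent.Helper12_AWB.B047
import Pool.Agent.Helper12_AWB.B058
import Pool.Agent.Helper50_PP.Bid
import Pool.Agent.Helper50_PP.Ffa
import Pool.Agent.Helper57_K9.Stmts
import Pool.Agent.Helper83_WRA.Pos

/-!
# Merged copies (generated) of the modules

* `Pool.Agent.Helper50_PP.Ldp`
* `Pool.Agent.Helper2_K9.PUG`
* `Pool.Agent.Helper3_K9.Lbd`
* `Pool.Agent.Helper3_K9.Psi`
* `Pool.Agent.Helper99_KF.Idn`
-/

set_option autoImplicit false

section -- Pool.Agent.Helper50_PP.Ldp

/-!
# Squad PP, module TRF: positive defect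
-/

open scoped BigOperators

noncomputable section

namespace Pool.Agent.PP.H50

open Pool.Agent.PP Pool.Agent.Helper51_AWC Pool.Agent.Helper79_WRA

attribute [local instance] Ideal.Quotient.field

theorem ldp : LdpStmt := by
  intro ℓ hl M hM hlM G _ _ hop χ hχ e he h1
  have : Fact ℓ.Prime := ⟨hl⟩
  obtain ⟨-, -, p3, p4⟩ := Pool.Agent.Helper79_WRA.H83.pos ℓ M hlM G hop
  constructor
  · intro hL x _ hx
    rw [inf_top_eq] at hx
    apply nil_of_zero he (isCl_clsum x) (isChar_res hχ) h1
    rw [res_clsum]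
    exact p3 χ hχ hL x hx
  · intro hP
    by_contra hL
    obtain ⟨g, hg, hne⟩ := p4 χ hχ hL
    obtain ⟨n, hn⟩ := hP g (Subgroup.mem_top g) (by rw [inf_top_eq]; exact hg)
    apply hne
    rw [← res_clsum]
    exact zero_of_nil he.1.1 (isCl_clsum g) (isChar_res hχ) h1 hn

end Pool.Agent.PP.H50
end
end -- Pool.Agent.Helper50_PP.Ldp

section -- Pool.Agent.Helper2_K9.PUG

/-!
# Squad K9, module PUG: good subgroups and quotients by a normal `ℓ`-subgroup
-/

open scoped BigOperators

noncomputable section

namespace Pool.Agent.PP.K9.H02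

open Pool.Agent.Helper51_AWC Pool.Agent.Helper79_WRA Pool.Agent.PP Pool.Agent.PP.KF

variable {F A B : Type} [Field F] [Group A] [Group B] [Finite A] [Finite B]

/-- the image of a class function on the centraliser of the image of `Q` -/
theorem push_br {ℓ : ℕ} (hF : GoodF ℓ F) {p : A →* B} {Q : Subgroup A} (hQ : IsPGroup ℓ Q)
    {e : A → F} (he : IsCl e) {y : B} (hy : y ∈ Subgroup.centralizer ((Q.map p : Subgroup B) : Set B)) :
    H75.push p e y = H75.push p (br Q e) y := by
  classical
  have := Fintype.ofFinite A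
  have h1 := H66.orb_conj (F := F) hF hQ (fun x : A => if p x = y then e x else 0) (by
    intro q hq t
    have h2 : p (q * t * q⁻¹) = y ↔ p t = y := by
      rw [map_mul, map_mul, map_inv]
      have h3 := Subgroup.mem_centralizer_iff.1 hy (p q) ⟨q, hq, rfl⟩
      constructor
      · intro h4
        have h5 : p t = (p q)⁻¹ * (p q * p t * (p q)⁻¹) * p q := by group
        rw [h5, h4, mul_assoc, ← h3, inv_mul_cancel_left]
      · intro h4
        rw [h4, h3, mul_inv_cancel_right]
    change (if p (q * t * q⁻¹) = y then e (q * t * q⁻¹) else 0) = if p t = y then e t else 0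
    by_cases h : p t = y
    · rw [if_pos h, if_pos (h2.2 h), he]
    · rw [if_neg h, if_neg (fun h' => h (h2.1 h'))])
  rw [finsum_eq_sum_of_fintype, finsum_eq_sum_of_fintype] at h1
  rw [H75.push_eq, H75.push_eq, h1]
  refine Finset.sum_congr rfl fun x _ => ?_
  by_cases hx : x ∈ Subgroup.centralizer (Q : Set A)
  · rw [H66.br_of_mem hx, H66.br_of_mem hx]
  · rw [H66.br_of_not_mem hx, H66.br_of_not_mem hx, ite_self]

/-- a non-zero central idempotent acts as the identity on some irreducible representation -/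
theorem cnt_pos {ℓ : ℕ} (hF : GoodF ℓ F) {e : A → F} (he : IsIdem e) (h0 : e ≠ 0) :
    0 < H75.cnt e := by
  by_contra hcon
  apply h0
  have hfin : {f : A → F | f ∈ IBr F A ∧ actF e f = f}.Finite :=
    (H20.ibf ℓ F hF A).1.subset fun f hf => hf.1
  have hemp : {f : A → F | f ∈ IBr F A ∧ actF e f = f} = ∅ := by
    have h1 : {f : A → F | f ∈ IBr F A ∧ actF e f = f}.ncard = 0 := by
      change H75.cnt e = 0
      omega
    exact (Set.ncard_eq_zero hfin).1 h1
  have h1 : ∀ (n : ℕ) (ρ : A →* Matrix (Fin n) (Fin n) F), IsIrr ρ → ev ρ e = 0 := by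
    intro n ρ hρ
    obtain ⟨w, hw, hw2, hw3⟩ := H20.eig F A n ρ hρ e he.1
    rcases hw3 he with h | h
    · rw [hw, h, map_zero]
    · exfalso
      have h2 : tr ρ ∈ {f : A → F | f ∈ IBr F A ∧ actF e f = f} :=
        ⟨⟨n, ρ, hρ, rfl⟩, by rw [hw2, h, one_smul]⟩
      rw [hemp] at h2
      exact h2
  obtain ⟨k, hk⟩ := H20.ibn ℓ F hF A e h1
  have h2 : ∀ m : ℕ, (mulF e)^[m] e = e := by
    intro m
    induction m with
    | zero => rfl
    | succ m ih => rw [Function.iterate_succ_apply', ih, he.2]
  rw [← h2 k, hk]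

theorem cnt_zero {ℓ : ℕ} (hF : GoodF ℓ F) : H75.cnt (0 : A → F) = 0 := by
  have h2 : {f : A → F | f ∈ IBr F A ∧ actF (0 : A → F) f = f} = ∅ := by
    ext f
    simp only [Set.mem_ofPred_eq, Set.mem_empty_iff_false, iff_false, not_and]
    intro hf h3
    refine (H20.ibf ℓ F hF A).2.ne_zero ⟨f, hf⟩ ?_
    change f = 0
    rw [← h3]
    funext x
    have := Fintype.ofFinite A
    unfold actF
    rw [finsum_eq_sum_of_fintype]
    exact Finset.sum_eq_zero fun t _ => zero_mul _
  unfold H75.cnt
  rw [h2, Set.ncard_empty]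

/-- the image of a non-zero central idempotent in the quotient by a normal `ℓ`-subgroup -/
theorem push_ne_zero {ℓ : ℕ} (hF : GoodF ℓ F) {p : A →* B} (hp : Function.Surjective p)
    (hk : IsPGroup ℓ p.ker) {e : A → F} (he : IsIdem e) (h0 : e ≠ 0) : H75.push p e ≠ 0 := by
  intro h
  have h1 := cnt_pos hF he h0
  rw [H75.cnt_push H20.nls hF hp hk e, h, cnt_zero hF] at h1
  exact lt_irrefl _ h1

theorem pug : PugStmt := by
  classical
  intro ℓ F _ hF A B _ _ _ _ p hp hk e he Q hkQ hQ
  have := Fintype.ofFinite A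
  constructor
  · rintro ⟨g, hg, hg0⟩
    set Y : Subgroup A := (Subgroup.centralizer ((Q.map p : Subgroup B) : Set B)).comap p with hY
    have hCY : Subgroup.centralizer (Q : Set A) ≤ Y := by
      intro x hx
      rw [hY, Subgroup.mem_comap, Subgroup.mem_centralizer_iff]
      rintro _ ⟨q, hq, rfl⟩
      rw [← map_mul, ← map_mul, Subgroup.mem_centralizer_iff.1 hx q hq]
    have hYQ : ∀ y ∈ Y, ∀ q ∈ Q, y * q * y⁻¹ ∈ Q := by
      intro y hy q hq
      rw [hY, Subgroup.mem_comap] at hy
      have h3 := Subgroup.mem_centralizer_iff.1 hy (p q) ⟨q, hq, rfl⟩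
      have h4 : y * q * y⁻¹ * q⁻¹ ∈ p.ker := by
        rw [MonoidHom.mem_ker, map_mul, map_mul, map_mul, map_inv, map_inv, ← h3,
          mul_inv_cancel_right, mul_inv_cancel]
      have h5 := mul_mem (hkQ h4) hq
      rwa [inv_mul_cancel_right] at h5
    have hYN : Y ≤ Subgroup.normalizer (Q : Set A) := by
      intro y hy
      rw [Subgroup.mem_normalizer_iff]
      intro v
      constructor
      · intro hv
        exact hYQ y hy v hv
      · intro hv
        have h1 := hYQ y⁻¹ (inv_mem hy) _ hv
        have h2 : y⁻¹ * (y * v * y⁻¹) * y⁻¹⁻¹ = v := by group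
        rwa [h2] at h1
    have hf := (H20.brm ℓ F hF A Q Y hQ hCY hYN).2.2 e he
    have hf0 : (fun t : Y => br Q e t) ≠ 0 := by
      intro h
      have h1 := congrFun h ⟨g, hCY hg⟩
      change br Q e g = 0 at h1
      rw [H66.br_of_mem hg] at h1
      exact hg0 h1
    let p' : Y →* Subgroup.centralizer ((Q.map p : Subgroup B) : Set B) :=
      p.subgroupComap _
    have hp' : Function.Surjective p' := by
      rintro ⟨z, hz⟩
      obtain ⟨a, rfl⟩ := hp z
      exact ⟨⟨a, hz⟩, rfl⟩
    have hk' : IsPGroup ℓ p'.ker := by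
      refine hk.of_injective ((Subgroup.subtype Y).comp p'.ker.subtype |>.codRestrict p.ker ?_) ?_
      · intro x
        rw [MonoidHom.mem_ker]
        exact congrArg Subtype.val (MonoidHom.mem_ker.1 x.2)
      · intro a b hab
        apply Subtype.ext
        apply Subtype.ext
        exact congrArg (fun t : p.ker => (t : A)) hab
    have h1 := push_ne_zero hF hp' hk' hf hf0
    obtain ⟨z, hz⟩ : ∃ z, H75.push p' (fun t : Y => br Q e t) z ≠ 0 := by
      by_contra hcon
      push Not at hcon
      exact h1 (funext hcon)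
    refine ⟨z, z.2, ?_⟩
    rw [push_br hF hQ he.1 z.2]
    have h2 : H75.push p (br Q e) (z : B) = H75.push p' (fun t : Y => br Q e t) z := by
      have := Fintype.ofFinite Y
      rw [H75.push_eq, H75.push_eq]
      have h3 : ∀ x : A, x ∉ Y → (if p x = z then br Q e x else 0) = 0 := by
        intro x hx
        rw [H66.br_of_not_mem (fun h => hx (hCY h)), ite_self]
      symm
      refine Fintype.sum_of_injective (fun x : Y => (x : A)) Subtype.val_injective _ _ ?_ ?_
      · intro x hx
        exact h3 x fun h => hx ⟨⟨x, h⟩, rfl⟩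
      · intro x
        have h4 : p' x = z ↔ p x = z := by
          constructor
          · intro h
            exact congrArg Subtype.val h
          · intro h
            exact Subtype.ext h
        by_cases h : p x = z
        · rw [if_pos h, if_pos (h4.2 h)]
        · rw [if_neg h, if_neg (fun h' => h (h4.1 h'))]
    rw [h2]
    exact hz
  · rintro ⟨y, hy, hy0⟩
    rw [push_br hF hQ he.1 hy, H75.push_eq] at hy0
    obtain ⟨x, -, hx⟩ := Finset.exists_ne_zero_of_sum_ne_zero hy0
    have hx1 : br Q e x ≠ 0 := by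
      intro h
      rw [h, ite_self] at hx
      exact hx rfl
    by_cases hxQ : x ∈ Subgroup.centralizer (Q : Set A)
    · rw [H66.br_of_mem hxQ] at hx1
      exact ⟨x, hxQ, hx1⟩
    · exact absurd (H66.br_of_not_mem hxQ) hx1

end Pool.Agent.PP.K9.H02
end
end -- Pool.Agent.Helper2_K9.PUG

section -- Pool.Agent.Helper3_K9.Lbd

/-!
# Squad K9, row LBD (helper3): the number of modular characters of an idempotent
-/

open scoped BigOperators

noncomputable section

namespace Pool.Agent.PP.K9.H3

open Pool.Agent.Helper51_AWC Pool.Agent.Helper79_WRA Pool.Agent.PP Pool.Agent.PP.KF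

attribute [local instance] Ideal.Quotient.field

theorem rnk_ : RnkStmt :=
  Pool.Agent.PP.H74.rnk Pool.Agent.PP.H20.ibf Pool.Agent.PP.H20.eig
    (Pool.Agent.PP.H74.brt Pool.Agent.PP.H20.ibf Pool.Agent.PP.H20.ibc
    Pool.Agent.PP.H20.ibj Pool.Agent.PP.H20.ibn)

/-- row LBD -/
theorem lbd : LbdStmt := by
  intro ℓ _ M _ hM G _ _ e he h0
  have hF : GoodF ℓ (FF M) := H50.fld ℓ Fact.out M hM
  constructor
  · have hfin : {f : G → FF M | f ∈ IBr (FF M) G ∧ actF e f = f}.Finite :=
      (Pool.Agent.PP.H20.ibf ℓ (FF M) hF G).1.subset fun f hf => hf.1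
    rw [Nat.one_le_iff_ne_zero, Ne, Set.ncard_eq_zero hfin]
    have hex : ∃ (n : ℕ) (ρ : G →* Matrix (Fin n) (Fin n) (FF M)), IsIrr ρ ∧ ev ρ e ≠ 0 := by
      by_contra hcon
      push Not at hcon
      obtain ⟨k, hk⟩ := Pool.Agent.PP.H20.ibn ℓ (FF M) hF G e (fun n ρ hρ => hcon n ρ hρ)
      rw [Function.iterate_fixed he.2 k] at hk
      exact h0 hk
    obtain ⟨n, ρ, hρ, hne⟩ := hex
    obtain ⟨w, hw1, hw2, hw3⟩ := Pool.Agent.PP.H20.eig (FF M) G n ρ hρ e he.1
    have hw : w = 1 := by
      rcases hw3 he with h | h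
      · exfalso
        apply hne
        rw [hw1, h, map_zero]
      · exact h
    intro hE
    have : tr ρ ∈ {f : G → FF M | f ∈ IBr (FF M) G ∧ actF e f = f} :=
      ⟨⟨n, ρ, hρ, rfl⟩, by rw [hw2, hw, one_smul]⟩
    rw [hE] at this
    exact this
  · have h1 := rnk_ ℓ (FF M) hF G e he
    have h2 : rk e (cfs (FF M) G) = (IrrE M e).ncard := H50.chp ℓ Fact.out M hM G e he
    have h3 : rk e (TT (FF M) G ℓ) ≤ rk e (cfs (FF M) G) := by
      unfold rk
      apply Submodule.finrank_mono
      apply Submodule.map_mono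
      intro f hf
      exact hf.1
    rw [← h1, ← h2]
    exact h3

end Pool.Agent.PP.K9.H3
end
end -- Pool.Agent.Helper3_K9.Lbd

section -- Pool.Agent.Helper3_K9.Psi

/-!
# Squad K9, row PSI (helper3): the characters of the image of an idempotent
-/

open scoped BigOperators

set_option linter.unusedSectionVars false

noncomputable section

namespace Pool.Agent.PP.K9.H3

open Pool.Agent.Helper51_AWC Pool.Agent.Helper79_WRA Pool.Agent.PP Pool.Agent.PP.KF

attribute [local instance] Ideal.Quotient.field

section psi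

variable {A B : Type} [Group A] [Group B]

/-- inflation along a surjective homomorphism -/
theorem irr_infl {p : A →* B} (hp : Function.Surjective p) {θ : B → ℂ} (hθ : θ ∈ Irr B) :
    (fun a => θ (p a)) ∈ Irr A := by
  obtain ⟨n, ρ, hρ, rfl⟩ := hθ
  refine ⟨n, ρ.comp p, ?_, rfl⟩
  have f : Subrepresentation ρ ≃o Subrepresentation (ρ.comp p) :=
    { toFun := fun S => ⟨S.toSubmodule, fun g v hv => S.apply_mem_toSubmodule (p g) hv⟩
      invFun := fun S => ⟨S.toSubmodule, fun h v hv => by
        obtain ⟨g, rfl⟩ := hp h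
        exact S.apply_mem_toSubmodule g hv⟩
      left_inv := fun S => rfl
      right_inv := fun S => rfl
      map_rel_iff' := Iff.rfl }
  exact (OrderIso.isSimpleOrder_iff f).1 hρ

variable [Finite A] [Finite B] {M : Ideal (integralClosure ℤ ℂ)} [M.IsMaximal]

/-- the residue of the image -/
theorem res_push {p : A →* B} (hp : Function.Surjective p) {b : A → FF M} (hb : IsCl b)
    {θ : B → ℂ} (hθ : θ ∈ Irr B) :
    res M (H75.push p b) θ = res M b (fun a => θ (p a)) := by
  classical
  have := Fintype.ofFinite A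
  have := Fintype.ofFinite B
  obtain ⟨a, ha, ea⟩ := H50.exists_lift (M := M) (b := b) hb
  have hc : H50.Cl (fun y : B => ∑ x : A, if p x = y then a x else 0) := by
    intro x y
    obtain ⟨g, rfl⟩ := hp y
    change (∑ t : A, if p t = p g * x * (p g)⁻¹ then a t else 0) =
      ∑ t : A, if p t = x then a t else 0
    rw [← Equiv.sum_comp (MulAut.conj g).toEquiv]
    apply Finset.sum_congr rfl
    intro t _
    change (if p (g * t * g⁻¹) = p g * x * (p g)⁻¹ then a (g * t * g⁻¹) else 0) = _
    rw [ha]
    have e1 : p (g * t * g⁻¹) = p g * p t * (p g)⁻¹ := by rw [map_mul, map_mul, map_inv]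
    by_cases h : p t = x
    · rw [if_pos h, if_pos]
      rw [e1, h]
    · rw [if_neg h, if_neg]
      intro h'
      apply h
      rw [e1] at h'
      exact mul_left_cancel (mul_right_cancel h')
  have e2 : H75.push p b = fun y => Ideal.Quotient.mk M (∑ x : A, if p x = y then a x else 0) := by
    funext y
    rw [H75.push_eq, map_sum]
    apply Finset.sum_congr rfl
    intro x _
    split_ifs
    · exact (ea x).symm
    · rw [map_zero]
  have e3 : (fun t => Ideal.Quotient.mk M (a t)) = b := funext ea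
  have hθ' := irr_infl hp hθ
  rw [e2, (H50.res_irr (M := M) _ hc hθ).1, ← e3, (H50.res_irr (M := M) a ha hθ').1]
  congr 1
  unfold H50.om
  congr 1
  · have h1 : ∀ y : B, (((∑ x : A, if p x = y then a x else 0 : integralClosure ℤ ℂ)) : ℂ) * θ y =
        ∑ x : A, if p x = y then (a x : ℂ) * θ (p x) else 0 := by
      intro y
      rw [AddSubmonoidClass.coe_finsetSum, Finset.sum_mul]
      apply Finset.sum_congr rfl
      intro x _
      split_ifs with h
      · rw [h]
      · rw [ZeroMemClass.coe_zero, zero_mul]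
    rw [Finset.sum_congr rfl (fun y _ => h1 y), Finset.sum_comm]
    apply Finset.sum_congr rfl
    intro x _
    rw [Finset.sum_ite_eq Finset.univ (p x), if_pos (Finset.mem_univ _)]
  · change θ 1 = θ (p 1)
    rw [map_one]

end psi

/-- row PSI -/
theorem psi : PsiStmt := by
  intro M _ A B _ _ _ _ p hp b hb
  refine ⟨?_, fun θ hθ => irr_infl hp hθ⟩
  ext θ
  constructor
  · rintro ⟨h1, h2⟩
    refine ⟨h1, irr_infl hp h1, ?_⟩
    rw [← res_push hp hb h1]
    exact h2
  · rintro ⟨h1, h2, h3⟩
    refine ⟨h1, ?_⟩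
    rw [res_push hp hb h1]
    exact h3

end Pool.Agent.PP.K9.H3
end
end -- Pool.Agent.Helper3_K9.Psi

section -- Pool.Agent.Helper99_KF.Idn

/-!
# Squad KF, row IDN: the counting identity for idempotents whose blocks have Klein four defect
groups
-/

open scoped BigOperators

noncomputable section

namespace Pool.Agent.PP.KF.H99

open Pool.Agent.Helper51_AWC Pool.Agent.Helper79_WRA Pool.Agent.PP

attribute [local instance] Ideal.Quotient.field

section add

variable {M : Ideal (integralClosure ℤ ℂ)} [M.IsMaximal] {H : Type} [Group H] [Finite H]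

theorem isIdem_add {F : Type} [Field F] {e₁ e₂ : H → F} (h1 : IsIdem e₁) (h2 : IsIdem e₂)
    (h12 : mulF e₁ e₂ = 0) : IsIdem (e₁ + e₂) := by
  have k3 : ma e₁ * ma e₂ = 0 := by rw [← ma_mul, h12, ma_zero]
  have k4 : ma e₂ * ma e₁ = 0 := by rw [← H46.comm_ma h1.1, k3]
  rw [isIdem_iff, ma_add]
  refine ⟨Subalgebra.add_mem _ ((isIdem_iff e₁).1 h1).1 ((isIdem_iff e₂).1 h2).1, ?_⟩
  change (ma e₁ + ma e₂) * (ma e₁ + ma e₂) = ma e₁ + ma e₂
  rw [mul_add, add_mul, add_mul, H46.ma_idem h1, H46.ma_idem h2, k3, k4, add_zero, zero_add]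

theorem rk_idem {e : H → FF M} (he : IsIdem e) : rk e (cfs (FF M) H) = (IrrE M e).ncard := by
  have := Fintype.ofFinite H
  exact H50.chp_main he

theorem rk_zero : rk (0 : H → FF M) (cfs (FF M) H) = 0 := by
  have := Fintype.ofFinite H
  rw [rk_idem H46.isIdem_zero]
  have h1 : IrrE M (0 : H → FF M) = ∅ := by
    ext χ
    simp only [IrrE, Set.mem_ofPred_eq, Set.mem_empty_iff_false, iff_false, not_and]
    intro _ h
    rw [H50.res_zero] at h
    exact zero_ne_one h
  rw [h1, Set.ncard_empty]

theorem rk_add {e₁ e₂ : H → FF M} (h1 : IsIdem e₁) (h2 : IsIdem e₂) (h12 : mulF e₁ e₂ = 0) :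
    rk (e₁ + e₂) (cfs (FF M) H) = rk e₁ (cfs (FF M) H) + rk e₂ (cfs (FF M) H) := by
  have := Fintype.ofFinite H
  rw [rk_idem (isIdem_add h1 h2 h12), rk_idem h1, rk_idem h2]
  have hprod : ∀ χ ∈ Irr H, res M e₁ χ * res M e₂ χ = 0 := by
    intro χ hχ
    rw [← H50.res_mul h1.1 h2.1 hχ, h12, H50.res_zero]
  have hfin : (Irr H).Finite := by
    have : Finite (Irr H) := inferInstance
    exact Set.toFinite _
  have hU : IrrE M (e₁ + e₂) = IrrE M e₁ ∪ IrrE M e₂ := by
    ext χ
    simp only [IrrE, Set.mem_ofPred_eq, Set.mem_union]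
    constructor
    · rintro ⟨hχ, h⟩
      rw [H50.res_add] at h
      rcases H50.res_idem h1 hχ with h3 | h3
      · right
        rw [h3, zero_add] at h
        exact ⟨hχ, h⟩
      · left
        exact ⟨hχ, h3⟩
    · rintro (⟨hχ, h⟩ | ⟨hχ, h⟩)
      · refine ⟨hχ, ?_⟩
        have := hprod χ hχ
        rw [h, one_mul] at this
        rw [H50.res_add, h, this, add_zero]
      · refine ⟨hχ, ?_⟩
        have := hprod χ hχ
        rw [h, mul_one] at this
        rw [H50.res_add, h, this, zero_add]
  rw [hU, Set.ncard_union_eq (hs := hfin.subset fun χ h => h.1)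
    (ht := hfin.subset fun χ h => h.1)]
  rw [Set.disjoint_left]
  rintro χ ⟨hχ, h⟩ ⟨_, h'⟩
  have := hprod χ hχ
  rw [h, h', one_mul] at this
  exact one_ne_zero this

end add

section orb

variable {X : Type} [Group X]

/-- The conjugacy class of a subgroup: `|N(V)|` times the number of conjugates is `|X|`. -/
theorem card_class (S : Set (Subgroup X)) (V : Subgroup X) (hV : V ∈ S)
    (hS : ∀ W ∈ S, ∀ g, conjS g W ∈ S) (hT : ∀ W ∈ S, ∃ g, W = conjS g V) :
    Nat.card (Subgroup.normalizer (V : Set X)) * S.ncard = Nat.card X := by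
  let A : MulAction X (Subgroup X) :=
    { smul := fun g D => conjS g D
      one_smul := fun D => conjS_one D
      mul_smul := fun g h D => (conjS_conjS h g D).symm }
  have h1 : MulAction.orbit X V = S := by
    ext W
    constructor
    · rintro ⟨g, rfl⟩
      exact hS V hV g
    · intro hW
      obtain ⟨g, hg⟩ := hT W hW
      exact ⟨g, hg.symm⟩
  have h2 : MulAction.stabilizer X V = Subgroup.normalizer (V : Set X) := by
    ext g
    rw [MulAction.mem_stabilizer_iff, mem_normalizer_iff_conjS]
    rfl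
  have h3 := MulAction.index_stabilizer X V
  rw [h1, h2] at h3
  rw [← h3, Subgroup.card_mul_index]

end orb

/-- IDN -/
theorem idn (hK : K4Stmt) (hFM : Fm4Stmt) : IdnStmt := by
  classical
  intro M _ h2M X _ _
  have hF : GoodF 2 (FF M) := H50.fld 2 Nat.prime_two M (by exact_mod_cast h2M)
  have hfinS := Fintype.ofFinite (Subgroup X)
  -- the sum as a finite sum
  have hsum : ∀ g : Subgroup X → ℕ, ∑ᶠ (V : Subgroup X) (_ : Nat.card V = 4), g V =
      ∑ V : Subgroup X, if Nat.card V = 4 then g V else 0 := by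
    intro g
    rw [finsum_eq_sum_of_fintype]
    refine Finset.sum_congr rfl fun V _ => ?_
    by_cases h : Nat.card V = 4
    · simp only [h, finsum_true, if_true]
    · simp only [h, finsum_false, if_false]
  have hpg : ∀ V : Subgroup X, Nat.card V = 4 → IsPGroup 2 V := by
    intro V hV
    exact IsPGroup.of_card (n := 2) (by rw [hV]; norm_num)
  -- the Brauer map of an idempotent
  have hbrm : ∀ V : Subgroup X, Nat.card V = 4 → _ := fun V hV =>
    H20.brm 2 (FF M) hF X V (Subgroup.normalizer (V : Set X)) (hpg V hV)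
      (Subgroup.centralizer_le_normalizer _) le_rfl
  apply H46.idem_induction
  · -- zero
    intro _
    rw [hsum, rk_zero, mul_zero]
    refine Finset.sum_eq_zero fun V _ => ?_
    split_ifs with h
    · have h1 : (fun t : Subgroup.normalizer (V : Set X) => br V (0 : X → FF M) t) = 0 := by
        funext t
        rw [H66.br_zero]
        rfl
      rw [h1, rk_zero, mul_zero]
    · rfl
  · -- a block
    intro b hb hyp
    have hVB : VB b := hyp b hb hb.1.2
    obtain ⟨hF1, hF2⟩ := hFM M h2M X b hVB
    set S : Set (Subgroup X) :=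
      {V | Nat.card V = 4 ∧ ∃ g ∈ Subgroup.centralizer (V : Set X), b g ≠ 0} with hS
    have hcl : ∀ W ∈ S, ∀ g, conjS g W ∈ S := by
      rintro W ⟨hW, x, hx, hbx⟩ g
      refine ⟨by rw [card_conjS, hW], g * x * g⁻¹, ?_, ?_⟩
      · rw [Subgroup.mem_centralizer_iff]
        intro y hy
        have h1 : g⁻¹ * y * g ∈ W := mem_conjS.1 hy
        have h2 := Subgroup.mem_centralizer_iff.1 hx _ h1
        calc y * (g * x * g⁻¹) = g * ((g⁻¹ * y * g) * x) * g⁻¹ := by group
          _ = g * (x * (g⁻¹ * y * g)) * g⁻¹ := by rw [h2]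
          _ = g * x * g⁻¹ * y := by group
      · rw [hb.1.1]
        exact hbx
    have hN : ∀ V ∈ S, Nat.card (Subgroup.normalizer (V : Set X)) * S.ncard = Nat.card X := by
      intro V hV
      exact card_class S V hV hcl fun W hW => hF1 V W hV.1 hW.1 hV.2 hW.2
    obtain ⟨V₀, hV₀c, hV₀⟩ := hVB.ex
    have hSpos : 0 < S.ncard := (Set.ncard_pos (Set.toFinite S)).2 ⟨V₀, hV₀c, hV₀⟩
    rw [hsum, rk_idem hb.1, hK M h2M X b hVB]
    have hterm : ∀ V : Subgroup X, (if Nat.card V = 4 then
        Nat.card (Subgroup.normalizer (V : Set X)) *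
          rk (fun t : Subgroup.normalizer (V : Set X) => br V b t)
            (cfs (FF M) (Subgroup.normalizer (V : Set X))) else 0) =
        if V ∈ S then Nat.card X / S.ncard * 4 else 0 := by
      intro V
      by_cases hV : Nat.card V = 4
      · rw [if_pos hV]
        by_cases hVS : V ∈ S
        · rw [if_pos hVS]
          have h1 := hF2 V hV hVS.2
          rw [rk_idem h1.blk.1, hK M h2M _ _ h1]
          congr 1
          rw [← hN V hVS, Nat.mul_div_cancel _ hSpos]
        · rw [if_neg hVS]
          have h1 : (fun t : Subgroup.normalizer (V : Set X) => br V b t) = 0 := by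
            funext t
            by_cases ht : (t : X) ∈ Subgroup.centralizer (V : Set X)
            · rw [H66.br_of_mem ht]
              by_contra hne
              exact hVS ⟨hV, t, ht, hne⟩
            · rw [H66.br_of_not_mem ht]
              rfl
          rw [h1, rk_zero, mul_zero]
      · rw [if_neg hV, if_neg fun h => hV h.1]
    rw [Finset.sum_congr rfl fun V _ => hterm V, ← Finset.sum_filter, Finset.sum_const,
      smul_eq_mul]
    have h3 : (Finset.univ.filter fun V => V ∈ S).card = S.ncard := by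
      rw [Set.ncard_eq_toFinset_card' S]
      congr 1
      ext V
      simp
    rw [h3, ← mul_assoc, Nat.mul_div_cancel']
    exact Dvd.intro_left _ (hN V₀ ⟨hV₀c, hV₀⟩)
  · -- a sum
    intro e₁ e₂ h1 h2 h12 ih1 ih2 hyp
    have h21 : mulF e₂ e₁ = 0 := by rw [← H46.mulF_comm h1.1, h12]
    have hz : ∀ a : X → FF M, mulF (0 : X → FF M) a = 0 := by
      intro a
      apply ma_injective
      rw [ma_mul, ma_zero, zero_mul]
    have hadd : ∀ a b c : X → FF M, mulF (a + b) c = mulF a c + mulF b c := by
      intro a b c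
      apply ma_injective
      rw [ma_mul, ma_add, ma_add, ma_mul, ma_mul, add_mul]
    have e1 := ih1 fun c hc hle => hyp c hc (by
      rw [hadd, hle]
      have : mulF e₂ c = 0 := by
        rw [← hle, ← mulF_assoc, h21, hz]
      rw [this, add_zero])
    have e2 := ih2 fun c hc hle => hyp c hc (by
      rw [hadd, hle]
      have : mulF e₁ c = 0 := by
        rw [← hle, ← mulF_assoc, h12, hz]
      rw [this, zero_add])
    rw [hsum] at e1 e2 ⊢
    rw [rk_add h1 h2 h12, mul_add, ← e1, ← e2, ← Finset.sum_add_distrib]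
    refine Finset.sum_congr rfl fun V _ => ?_
    by_cases hV : Nat.card V = 4
    · rw [if_pos hV, if_pos hV, if_pos hV, ← mul_add]
      congr 1
      obtain ⟨g1, g2, g3⟩ := hbrm V hV
      have h3 : (fun t : Subgroup.normalizer (V : Set X) => br V (e₁ + e₂) t) =
          (fun t : Subgroup.normalizer (V : Set X) => br V e₁ t) +
            (fun t : Subgroup.normalizer (V : Set X) => br V e₂ t) := by
        funext t
        by_cases ht : (t : X) ∈ Subgroup.centralizer (V : Set X)
        · rw [Pi.add_apply, H66.br_of_mem ht, H66.br_of_mem ht, H66.br_of_mem ht]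
          rfl
        · rw [Pi.add_apply, H66.br_of_not_mem ht, H66.br_of_not_mem ht, H66.br_of_not_mem ht,
            add_zero]
      rw [h3]
      refine rk_add (g3 e₁ h1) (g3 e₂ h2) ?_
      rw [← g2, ← g1 e₁ e₂ h1.1 h2.1, h12, H66.br_zero]
      rfl
    · rw [if_neg hV, if_neg hV, if_neg hV]

end Pool.Agent.PP.KF.H99
end
end -- Pool.Agent.Helper99_KF.Idn
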