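import Pool.Agent.Helper12_AWB.B114

/-!
# Merged copies (generated) of the modules

* `Pool.Agent.AT8.Defs`
* `Pool.Agent.AT8.Stmts1`
* `Pool.Agent.AT8.Stmts2`
* `Pool.Agent.AT8.Stmts3`
* `Pool.Agent.AT8.Stmts4`
* `Pool.Agent.Helper32_AT8.AV1`
* `Pool.Agent.Helper76_AT8.LB8`
-/

set_option autoImplicit false

section -- Pool.Agent.AT8.Defs

/-!
# Squad AT8: Alperin's weight conjecture for abelian defect groups of large exponent: definitions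

Text: `AWC_T8.md` (note 2689).  Everything on top of squads AT3 (`Pool.Agent.PP.T3`) and AT2
(`Pool.Agent.PP.T2`).
-/

open scoped BigOperators

noncomputable section

namespace Pool.Agent.PP.T8

open Pool.Agent.Helper51_AWC Pool.Agent.Helper79_WRA Pool.Agent.PP Pool.Agent.PP.KF
open Pool.Agent.PP.K9 Pool.Agent.PP.K9.H97 Pool.Agent.PP.H75 Pool.Agent.PP.T3 Pool.Agent.PP.T2

attribute [local instance] Ideal.Quotient.field

section defs

variable {G : Type} [Group G]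

open Classical in
/-- restriction to the subgroup `C`, extended by zero -/
def rs {F : Type} [Zero F] (C : Subgroup G) (a : G → F) : G → F := fun x => if x ∈ C then a x else 0

open Classical in
/-- the powers in the group ring -/
def pw {F : Type} [Field F] (x : G → F) : ℕ → G → F
  | 0 => fun g => if g = 1 then 1 else 0
  | n + 1 => mulF x (pw x n)

/-- `χ(z i)`, `i` in the group ring -/
def fv (i : G → ℂ) (z : G) (χ : G → ℂ) : ℂ := ∑ᶠ g, i g * χ (z * g)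

/-- the sum of the `χ(t z t⁻¹ i)` over the cosets `t C(V)` in `T` -/
def fs {F : Type} [Field F] (V : Subgroup G) (γ : G → F) (i : G → ℂ) (z : G) (χ : G → ℂ) : ℂ :=
  ∑ᶠ q : Tg V γ ⧸ (Subgroup.centralizer (V : Set G)).subgroupOf (Tg V γ),
    fv i ((q.out : G) * z * (q.out : G)⁻¹) χ

/-- the sum of `(F_χ, 1) F_χ(z)` over all `χ`, `F_χ(z) = fs V γ i z χ` -/
def cc {F : Type} [Field F] (V : Subgroup G) (γ : G → F) (i : G → ℂ) (z : G) : ℂ :=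
  ∑ᶠ χ ∈ Irr G, ((Nat.card V : ℂ)⁻¹ * ∑ᶠ v : V, fs V γ i v χ) * fs V γ i z χ

variable (M : Ideal (integralClosure ℤ ℂ)) [M.IsMaximal]

/-- the reduction of a function with values in the local ring -/
def rd (i : G → ℂ) : G → FF M := fun g => rr M (i g)

/-- `i` is an idempotent of the group ring over the local ring which commutes with `V`. -/
structure Ip (V : Subgroup G) (i : G → ℂ) : Prop where
  rm : ∀ g, i g ∈ RM M
  id : mulF i i = i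
  iv : ∀ v ∈ V, ∀ x, i (v * x * v⁻¹) = i x

/-- `i` is a coherent idempotent: its Brauer images at `V` and at the elements `z` of `V` are under
`γ` and under the local blocks, and the characters of `γ` do not vanish modulo `M` at the image. -/
structure Ci (e : G → FF M) (V : Subgroup G) (γ : G → FF M) (i : G → ℂ) : Prop where
  ip : Ip M V i
  gm : mulF (br V (rd M i)) γ = br V (rd M i)
  lb : ∀ z ∈ V, ∀ b, Lc e V γ z b → mulF (rs (Cu z) (rd M i)) b = rs (Cu z) (rd M i)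
  nz : ∀ κ ∈ IrrE M (fun t : Subgroup.centralizer (V : Set G) => γ t),
    rr M (∑ᶠ t : Subgroup.centralizer (V : Set G), i t * κ t) ≠ 0

/-- `f` is, on `V`, a combination of the linear characters of `V` with coefficients in the local
ring. -/
def Rv (V : Subgroup G) (f : G → ℂ) : Prop :=
  ∀ lam : V →* ℂ, (Nat.card V : ℂ)⁻¹ * ∑ᶠ v : V, f v * lam v⁻¹ ∈ RM M

/-- `χ(u b_u)/d_u` -/
def vv (b : G → G → FF M) (d : G → ℕ) (u : G) (χ : G → ℂ) : ℂ := gv M (Cu u) u (b u) χ / d u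

/-- The data of the regular elements: `b u` the local block of `u`, all its characters have degree
`d u`, all characters of `γ` have degree `c`, and `ε u` is the sign of `|C(u)| c / (|C(V)| d u)`. -/
structure Dat (ℓ : ℕ) (e : G → FF M) (V : Subgroup G) (γ : G → FF M) (b : G → G → FF M)
    (d : G → ℕ) (c : ℕ) (ε : G → ℤ) : Prop where
  ld : Ld ℓ e V γ
  dc : Dg M (fun t : Subgroup.centralizer (V : Set G) => γ t) c
  lc : ∀ u, Rg V γ u → Lc e V γ u (b u)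
  dg : ∀ u, Rg V γ u → Dg M (fun t : Cu u => b u t) (d u)
  sg : ∀ u, Rg V γ u → ε u = 1 ∨ ε u = -1
  cg : ∀ u, Rg V γ u → ((Nat.card (Cu u) * c : ℂ) /
      (Nat.card (Subgroup.centralizer (V : Set G)) * d u)) ∈ RM M ∧
    rr M ((Nat.card (Cu u) * c : ℂ) /
      (Nat.card (Subgroup.centralizer (V : Set G)) * d u)) = (ε u : FF M)

/-- the average of the numbers `ε(y w) χ(y w b)/d` over `w ∈ W` -/
def av (b : G → G → FF M) (d : G → ℕ) (ε : G → ℤ) (W : Subgroup G) (y : G) (χ : G → ℂ) : ℂ :=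
  (Nat.card W : ℂ)⁻¹ * ∑ᶠ w : W, (ε (y * w) : ℂ) * vv M b d (y * w) χ

/-- `y` is an element of `V` of order `ℓ ^ a`, and the coset of `y` modulo the `ℓ ^ k`-th powers is
fixed only by `C(V)`. -/
structure Rk {F : Type} (ℓ a k : ℕ) (V : Subgroup G) (γ : G → F) (y : G) : Prop where
  mem : y ∈ V
  ord : orderOf y = ℓ ^ a
  reg : ∀ t ∈ Tg V γ, ∀ v ∈ V, t * y * t⁻¹ = y * v ^ ℓ ^ k →
    t ∈ Subgroup.centralizer (V : Set G)

/-- `V'` is a quotient of `V`, and the elements of the inertial group of `(V', γ')` act on it as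
elements of the inertial group of `(V, γ)`. -/
def Fq {F F' A : Type} [Group A] (V : Subgroup G) (γ : G → F) (V' : Subgroup A) (γ' : A → F') :
    Prop :=
  ∃ π : V →* V', Function.Surjective π ∧ ∀ t' ∈ Tg V' γ', ∃ t ∈ Tg V γ, ∀ v w : V,
    (w : G) = t * v * t⁻¹ → (π w : A) = t' * π v * t'⁻¹

/-- The explicit form of `Fq` for the image `V'` of `V` in `N(Q)/Q`. -/
def Fe {F F' A : Type} [Group A] (V Q : Subgroup G) (γ : G → F)
    (p : Subgroup.normalizer (Q : Set G) →* A) (V' : Subgroup A) (γ' : A → F') : Prop :=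
  ∃ n ∈ Subgroup.normalizer (V : Set G), ∀ t' ∈ Tg V' γ', ∃ t ∈ Tg V γ, ∀ v ∈ V,
    ∀ x y : Subgroup.normalizer (Q : Set G), (x : G) = n * v * n⁻¹ →
      (y : G) = n * (t * v * t⁻¹) * n⁻¹ → p y = t' * p x * t'⁻¹

/-- The hypothesis of the induction: the alternating sum is zero for all the blocks of groups of
order less than `n` whose defect group has exponent `ℓ ^ a` and is a quotient of `V` in the sense
of `Fq`. -/
def Iq (ℓ a n : ℕ) (V : Subgroup G) (γ : G → FF M) : Prop :=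
  ∀ (A : Type) [Group A] [Finite A], Nat.card A < n → ∀ (f : A → FF M) (V' : Subgroup A)
    (γ' : A → FF M), Ld ℓ f V' γ' → Monoid.exponent V' = ℓ ^ a → Fq V γ V' γ' → YY ℓ ⊤ f = 0

/-- the inertial quotient acts freely on `V - 1` -/
def Fr {F : Type} (V : Subgroup G) (γ : G → F) : Prop :=
  ∀ t ∈ Tg V γ, ∀ v ∈ V, v ≠ 1 → t * v = v * t → t ∈ Subgroup.centralizer (V : Set G)

/-- the inertial quotient is abelian, or its order is less than `ℓ`, or it acts freely on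
`V - 1` -/
def Ei {F : Type} (ℓ : ℕ) (V : Subgroup G) (γ : G → F) : Prop :=
  (∀ s ∈ Tg V γ, ∀ t ∈ Tg V γ, s * t * s⁻¹ * t⁻¹ ∈ Subgroup.centralizer (V : Set G)) ∨
  ix V γ < ℓ ∨ Fr V γ

/-- A sufficient condition for the heights to be smaller than `k`. -/
def Hk {F : Type} (ℓ k : ℕ) (V : Subgroup G) (γ : G → F) : Prop :=
  Nat.card V ≤ ℓ ^ (2 * k) * Nat.card (Uw ℓ V) ∨ ix V γ < ℓ ∨ (ix V γ < ℓ ^ (2 * k) ∧ Fr V γ)

/-- The first type of defect groups: `V` has exponent `ℓ ^ a`, `V / V ^ (ℓ ^ k)` has order at most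
`ℓ ^ (a + k - 1)`, the heights are smaller than `k` by `Hk`. -/
structure Ta {F : Type} (ℓ a k : ℕ) (V : Subgroup G) (γ : G → F) : Prop where
  pos : 0 < k
  le : k ≤ a
  exp : Monoid.exponent V = ℓ ^ a
  hk : Hk ℓ k V γ
  sz : Nat.card V ≤ ℓ ^ (a + k - 1) * Nat.card (Uw (ℓ ^ k) V)
  ei : Ei ℓ V γ

/-- The second type of defect groups: two generators, exponent `ℓ ^ a`, `a ≥ 3`. -/
structure Tb (ℓ a : ℕ) (V : Subgroup G) : Prop where
  le : 3 ≤ a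
  exp : Monoid.exponent V = ℓ ^ a
  gen : ∃ x y : G, V = Subgroup.closure {x, y}

/-- The third type of defect groups: the inertial quotient acts freely and its order is at most
`ℓ ^ a`. -/
structure Tf {F : Type} (ℓ a : ℕ) (V : Subgroup G) (γ : G → F) : Prop where
  pos : 0 < a
  exp : Monoid.exponent V = ℓ ^ a
  fr : Fr V γ
  ix : ix V γ ≤ ℓ ^ a

/-- the types of defect groups -/
def Ty8 {F : Type} (ℓ a : ℕ) (V : Subgroup G) (γ : G → F) : Prop :=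
  (∃ k, Ta ℓ a k V γ) ∨ Tb ℓ a V ∨ Tf ℓ a V γ

end defs

end Pool.Agent.PP.T8
end
end -- Pool.Agent.AT8.Defs

section -- Pool.Agent.AT8.Stmts1

/-!
# Squad AT8, part 1: idempotents and traces

Text: `AWC_T8.md`.  Complete proofs in the docstrings.  `RM M` is the local ring, `rr M` its residue
map, `eh M b` the lift of a central idempotent `b` (`KF.IdmStmt`), `chv a χ` the value of `χ` at the
element `a` of the group ring, `TrcStmt`: `∑_χ chv a χ * chv b χ` is the trace of `x ↦ a x b`.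
-/

open scoped BigOperators

noncomputable section

namespace Pool.Agent.PP.T8

open Pool.Agent.Helper51_AWC Pool.Agent.Helper79_WRA Pool.Agent.PP Pool.Agent.PP.KF
open Pool.Agent.PP.K9 Pool.Agent.PP.K9.H97 Pool.Agent.PP.H75 Pool.Agent.PP.T3 Pool.Agent.PP.T2

attribute [local instance] Ideal.Quotient.field

/-! ## 1. Idempotents -/

/-- IDP: some power of an element of the group ring over `F` is an idempotent.

Proof.  The values of `x` are algebraic over the prime field (`GoodF.tors`: every nonzero element of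
`F` is a root of unity, so it generates a finite field), so they are contained in a finite subring
`K` of `F`.  All `pw x n` have values in `K`, and there are only finitely many functions `H → K`, so
`pw x n = pw x (n + p)` for some `n, p ≥ 1`, so `pw x m = pw x (m + k p)` for all `m ≥ n`, and
`pw x (n p) * pw x (n p) = pw x (n p + n p) = pw x (n p)` (`mulF` is the multiplication of the
monoid algebra). -/
def IdpStmt : Prop := ∀ (ℓ : ℕ) (F : Type) [Field F], GoodF ℓ F → ∀ (H : Type) [Group H] [Finite H]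
  (x : H → F), ∃ n : ℕ, 0 < n ∧ mulF (pw x n) (pw x n) = pw x n

/-- LFT: idempotents can be lifted.

Proof.  Choose `x' : G → ℂ` with values in `RM M` and residue `x`, of the form `s ∘ x` with a
function `s : F → RM M`, `s 0 = 0` (`rr_surj`): so `x'` vanishes outside `C` and is invariant under
conjugation with `V`.  Let `L` be the matrix of `y ↦ x' * y` on `ℂ ^ G`, `f` its characteristic
polynomial: it is monic with coefficients in `RM M`, its roots are in `RM M` (`RM M` is integrally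
closed in `ℂ`: a root `α` of a monic polynomial with coefficients `a_i`, `s a_i` algebraic integers,
`s ∉ M`, satisfies: `s α` is an algebraic integer).  The residues of the roots are the roots of the
characteristic polynomial of the idempotent matrix `L mod M`, so they are `0` or `1`.  So `f = P Q`,
`P = ∏ (T - α)` over the roots with residue `0`, `Q` over those with residue `1`.  The differences
`α - β` are units of `RM M`, so `T - α`, `T - β` are coprime in `RM M [T]`, so `P` and `Q` are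
(`IsCoprime.prod_left`, `prod_right`): `A P + B Q = 1`.  Let `i = (A P)(x')`.  `i (1 - i) =
(A B P Q)(x') = 0` (Cayley-Hamilton).  Since `x² = x`, every polynomial `h` over `F` satisfies
`h(x) = h(0) (1 - x) + h(1) x`.  So the residue of `i` is `A̅P̅(0) (1 - x) + A̅P̅(1) x`.
If `x ≠ 1` then `1 - x ≠ 0`, `0` is an eigenvalue of `L mod M`, `P̅(0) = 0`.  If `x ≠ 0` then `1` is
an eigenvalue, `Q̅(1) = 0`, `A̅P̅(1) = 1`.  So the residue of `i` is `x` in all cases.  A polynomial in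
`x'` vanishes outside `C` and is invariant under `V`. -/
def LftStmt : Prop := ∀ (M : Ideal (integralClosure ℤ ℂ)) [M.IsMaximal] (G : Type) [Group G]
  [Finite G] (V C : Subgroup G) (x : G → FF M), mulF x x = x → (∀ g, g ∉ C → x g = 0) →
  (∀ v ∈ V, ∀ g, x (v * g * v⁻¹) = x g) →
  ∃ i : G → ℂ, Ip M V i ∧ (∀ g, g ∉ C → i g = 0) ∧ rd M i = x

/-- RK1: an idempotent at which the character `κ` does not vanish modulo `M`.

Proof.  `φ(h) = rr M (κ h)`, `φ(a) = ∑ a(h) φ(h)` for `a : H → F`.  (1) `φ(h ^ ℓ) = φ(h) ^ ℓ`: `κ(h)` is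
a sum of roots of unity `ε_i`, `κ(h ^ ℓ) = ∑ ε_i ^ ℓ`, and `(∑ ε_i) ^ ℓ - ∑ ε_i ^ ℓ` is `ℓ` times an
algebraic integer.  (2) `φ(a ^ ℓ) = φ(a) ^ ℓ` (power in the group ring): `φ(a ^ ℓ)` is the sum of
`a(h_1) ... a(h_ℓ) φ(h_1 ... h_ℓ)` over all `(h_1, ..., h_ℓ)`, invariant under cyclic rotation since
`φ` is a class function; the orbits of the not constant tuples have `ℓ` elements and contribute
`0`, so the sum is `∑_h a(h) ^ ℓ φ(h ^ ℓ) = ∑_h (a(h) φ(h)) ^ ℓ = φ(a) ^ ℓ`.  (3) So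
`φ(x ^ (ℓ ^ k)) = φ(x) ^ (ℓ ^ k) ≠ 0` for all `k`.  The values of `x` are in a finite subring of `F`
(as in IDP), so `x ^ (ℓ ^ k) = x ^ (ℓ ^ (k + r))` for some `k ≥ 0`, `r ≥ 1`.  Let
`y = x ^ (ℓ ^ k)`, `q = ℓ ^ r`: `y ^ q = y`.  `T ^ q - T` is the product of the `T - α` over the `q`
roots `α` in `F` (algebraically closed, separable).  Let `L_α` be the Lagrange polynomials,
`j_α = L_α(y)`: idempotents, and `y = ∑ α j_α` (`T - ∑ α L_α(T)` has degree `< q` and vanishes at all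
the `α`, so it is `0`).  `∑ α φ(j_α) = φ(y) ≠ 0`, so `φ(j_α) ≠ 0` for some `α`. -/
def Rk1Stmt : Prop := ∀ (ℓ : ℕ) [Fact ℓ.Prime] (M : Ideal (integralClosure ℤ ℂ)) [M.IsMaximal],
  (ℓ : integralClosure ℤ ℂ) ∈ M → ∀ (H : Type) [Group H] [Finite H], ∀ κ ∈ Irr H,
  ∀ x : H → FF M, ∑ᶠ h, x h * rr M (κ h) ≠ 0 →
  ∃ j : H → FF M, mulF j j = j ∧ ∑ᶠ h, j h * rr M (κ h) ≠ 0

/-! ## 2. Traces -/

/-- TR2: comparison of two idempotents.

Proof.  Replace `X` by `m⁻¹ ∑_{k < m} V ^ k X V ^ (m - k)` (`m` is a unit of `RM M`): it commutes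
with `V` and with `U ^ ℓ`, and `∑ U ^ i X W ^ i` has the same reduction (`V` commutes with `U`,
`P₁`, `P₂`).  For an `ℓ`-th root of unity `w` put `φ_w = ∑_{i < ℓ} w ^ (-i) U ^ i X W ^ i`.  Then
`U φ_w = w φ_w U`, `V φ_w = φ_w V`, and the reduction of `φ_w` is `p - q`, `p`, `q` the reductions of
`P₁`, `P₂` (the residue of `w` is `1`).  Let `a = p q p`, `b = q p q`.  Choose `t ∈ RM M` such that the
residue `t'` of `t` is not `0` and is different from `- μ / (1 - μ) ²` for all eigenvalues `μ ≠ 1` of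
`a` and of `b` (`F` is infinite).  Then `A = a + t' (p - a)² + (1 - p)` is invertible: if `A v = 0`
then `(1 - p) v = 0`, `v = p v`, `a v + t' (1 - a)² v = 0`; `g(T) = T + t' (1 - T)²` splits over `F`,
so, if `v ≠ 0`, a root `μ` of `g` is an eigenvalue of `a`; `g(1) = 1`, so `μ ≠ 1` and
`t' = - μ / (1 - μ)²`, a contradiction.  In the same way `B = b + t' (q - b)² + (1 - q)` is
invertible.  Let `w ≠ 1` and take block matrices (of size `2 n`)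
`Φ = ((P₂ P₁, t P₂ φ_w P₂), (P₁ φ_{1/w} P₁, P₁ P₂))`,
`Ψ = ((P₁ P₂, t (P₁ - P₁ P₂ P₁)), (- (P₂ - P₂ P₁ P₂), P₂ P₁))`, `P = diag(P₁, P₂)`,
`Q = diag(P₂, P₁)`, `U' = diag(U, w U)`, `V' = diag(V, V)`.  `Q Φ P = Φ`, `P Ψ Q = Ψ`, `Φ U' = U' Φ`,
`Φ V' = V' Φ`, and the reduction of `Ψ Φ` is
`diag(a + t' (p - a)², b + t' (q - b)²)` (`a p = a`, `p q b = a p q`, `b q p = q p a`).  So the
determinant of `Z = Ψ Φ + 1 - P` has residue `det(A) det(B) ≠ 0`.  Let `S = Z⁻¹ Ψ`.  `Z P = P Z`,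
`Z (1 - P) = 1 - P`, so `S Φ = Z⁻¹ (Z - (1 - P)) = P`.  So `Φ S` is idempotent,
`Q Φ S = Φ S = Φ S Q` and its trace is the trace of `P`, which is the trace of `Q`; so the
idempotent `Q - Φ S` has trace `0`, so it is `0`.  So `tr(U' V' Q) = tr(U' V' Φ S) = tr(Φ U' V' S)
= tr(U' V' S Φ) = tr(U' V' P)`, that is
`tr(U V P₂) + w tr(U V P₁) = tr(U V P₁) + w tr(U V P₂)`, and `w ≠ 1`. -/
def Tr2Stmt : Prop := ∀ (ℓ : ℕ) [Fact ℓ.Prime] (M : Ideal (integralClosure ℤ ℂ)) [M.IsMaximal],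
  (ℓ : integralClosure ℤ ℂ) ∈ M → ∀ (n : Type) [Fintype n] [DecidableEq n]
  (P₁ P₂ U W V X : Matrix n n ℂ) (m : ℕ), 0 < m → ¬ ℓ ∣ m → (∀ i j, P₁ i j ∈ RM M) →
  (∀ i j, P₂ i j ∈ RM M) → (∀ i j, U i j ∈ RM M) → (∀ i j, W i j ∈ RM M) →
  (∀ i j, V i j ∈ RM M) → (∀ i j, X i j ∈ RM M) → P₁ * P₁ = P₁ → P₂ * P₂ = P₂ → U * W = 1 →
  V ^ m = 1 → U * P₁ = P₁ * U → U * P₂ = P₂ * U → V * P₁ = P₁ * V → V * P₂ = P₂ * V →
  U * V = V * U → X * U ^ ℓ = U ^ ℓ * X →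
  ∑ i ∈ Finset.range ℓ, U.map (rr M) ^ i * X.map (rr M) * W.map (rr M) ^ i =
    P₁.map (rr M) - P₂.map (rr M) → (U * V * P₁).trace = (U * V * P₂).trace

/-- PRJ: the values of class functions at an idempotent depend only on the values at the regular
elements.

Proof.  It is enough that the sum of `i` over the class of a singular element `g = y s`, `y ≠ 1` its
`ℓ`-part, is `0`.  It is `|C(g)|⁻¹ ∑_x i(x⁻¹ g x)`, and `∑_x i(x⁻¹ g x)` is the trace of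
`x ↦ g⁻¹ x i` on the complex group ring.  `T3.TrgStmt` with `P x = x i`, `U x = y⁻¹ x`,
`W x = y x`, `V x = s⁻¹ x`, `X` the diagonal matrix of the function `c` of `T3.CycStmt` for the
permutation `x ↦ y⁻¹ x` (no fixed points), `∑ U ^ i X W ^ i = 1`. -/
def PrjStmt : Prop := ∀ (ℓ : ℕ) [Fact ℓ.Prime] (M : Ideal (integralClosure ℤ ℂ)) [M.IsMaximal],
  (ℓ : integralClosure ℤ ℂ) ∈ M → ∀ (H : Type) [Group H] [Finite H] (i : H → ℂ),
  (∀ g, i g ∈ RM M) → mulF i i = i → ∀ th : H → ℂ, (∀ x y, th (y * x * y⁻¹) = th x) →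
  (∀ x, Reg ℓ x → th x = 0) → ∑ᶠ h, i h * th h = 0

/-- SMI: the second main theorem for idempotents.

Proof.  For `h ∈ G` let `h = h_ℓ h_r = h_r h_ℓ` (`ℓ`-part and regular part), and consider on the
complex group ring the operators `P₁ x = x i`, `P₂ x = x j`, `U x = h_ℓ⁻¹ x z`, `W x = h_ℓ x z⁻¹`,
`V x = h_r⁻¹ x`.  `i` and `j` commute with `z`.  Let `c` be the function of `T3.CycStmt` for the
permutation `x ↦ z x z⁻¹` of `G`, `i'(g) = c(g) i(g)` for `g ∉ C(z)`, `0` for `g ∈ C(z)`,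
`X x = x i'`.  `i'` commutes with `z ^ ℓ`, so `X` commutes with `U ^ ℓ`;
`U ^ k X W ^ k x = x (z ^ (-k) i' z ^ k)`, and the sum over `k < ℓ` is `x ↦ x (i - rs i)`, because
`∑_k c(z ^ k g z ^ (-k)) = 1` for `g ∉ C(z)`.  Its reduction is the reduction of `P₁ - P₂`.
`Tr2Stmt`: `x ↦ h⁻¹ x z i` and `x ↦ h⁻¹ x z j` have the same trace, that is
`∑_x i(z⁻¹ x⁻¹ h x) = ∑_x j(z⁻¹ x⁻¹ h x)` for all `h`.  Multiply with `th h` and sum over `h`:
`|G| ∑_g i(z⁻¹ g) th(g)` on the left side. -/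
def SmiStmt : Prop := ∀ (ℓ : ℕ) [Fact ℓ.Prime] (M : Ideal (integralClosure ℤ ℂ)) [M.IsMaximal],
  (ℓ : integralClosure ℤ ℂ) ∈ M → ∀ (G : Type) [Group G] [Finite G] (z : G), El ℓ z →
  ∀ i j : G → ℂ, (∀ g, i g ∈ RM M) → mulF i i = i → (∀ x, i (z * x * z⁻¹) = i x) →
  (∀ g, j g ∈ RM M) → mulF j j = j → (∀ g, g ∉ Cu z → j g = 0) →
  (∀ g ∈ Cu z, rr M (j g) = rr M (i g)) →
  ∀ th : G → ℂ, (∀ x y, th (y * x * y⁻¹) = th x) → fv i z th = fv j z th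

/-- FCH: `z ↦ χ(z i)` is a character of `V`.

Proof.  Let `ρ` afford `χ`.  `p = ∑ i(g) ρ(g)` and `q = |V|⁻¹ ∑ lam(v⁻¹) ρ(v)` are commuting
idempotent matrices, and the left side is the trace of `q p`, an idempotent, so a natural
number. -/
def FchStmt : Prop := ∀ (M : Ideal (integralClosure ℤ ℂ)) [M.IsMaximal] (G : Type) [Group G]
  [Finite G] (V : Subgroup G), (∀ a ∈ V, ∀ b ∈ V, a * b = b * a) → ∀ i : G → ℂ, Ip M V i →
  ∀ χ ∈ Irr G, ∀ lam : V →* ℂ, ∃ m : ℕ, (Nat.card V : ℂ)⁻¹ * ∑ᶠ v : V, fv i v χ * lam v⁻¹ = m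

/-- GEQ: compatibility with the power map.

Proof.  `C = C(z) = C(z ^ N)` (`N` is prime to `|G|`).  The restriction of the reduction of `i` to
`C` is an idempotent (restriction to `C(z)` is multiplicative on the elements of `F G` which commute
with `z`, because `F` has characteristic `ℓ`: `H75.br_mulF` for the group `⟨z⟩`).  LFT gives an
idempotent `j` supported on `C` over it.  SMI for `z` and for `z ^ N`:
`fv i (z ^ N) χ = ∑_{c ∈ C} j(c) χ(z ^ N c)` and `fv i z χ' = ∑_{c ∈ C} j(c) χ((z c) ^ N)`,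
`χ' = (g ↦ χ(g ^ N))`.  The class function `c ↦ χ(z ^ N c) - χ((z c) ^ N)` of `C` vanishes at the
regular elements (`(z c) ^ N = z ^ N c ^ N = z ^ N c`).  PRJ for `C`. -/
def GeqStmt : Prop := ∀ (ℓ : ℕ) [Fact ℓ.Prime] (M : Ideal (integralClosure ℤ ℂ)) [M.IsMaximal],
  (ℓ : integralClosure ℤ ℂ) ∈ M → ∀ (G : Type) [Group G] [Finite G] (N : ℕ), GS G ℓ N →
  ∀ V : Subgroup G, IsPGroup ℓ V → (∀ a ∈ V, ∀ b ∈ V, a * b = b * a) → ∀ i : G → ℂ, Ip M V i →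
  ∀ χ ∈ Irr G, ∀ z ∈ V, fv i (z ^ N) χ = fv i z (fun g => χ (g ^ N))

/-! ## 3. Central characters -/

/-- OMI: the central characters at the sum of the conjugates of `i`, in `G` and in `C(V)`.

Proof.  Let `z'(g)` be the sum of the `i(x⁻¹ g x)` over the cosets `x V` in `G`, a class function
with values in `RM M`, and `z''` the same in `C(V)`.  `chv z' χ = |G : V| chv i χ`, so the number
`|G| chv i χ / (|V| χ(1)) = chv z' χ / χ(1)` is in `RM M` with residue `res M (rd z') χ` (a sum of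
values of the central character; compare `K9.OmgStmt`).  In the same way the number for `κ` is in
`RM M` with residue `res M (rd z'') κ`.  By the argument of `T3.RsvStmt` (`H50.char_uniq`)
`res M a χ = res M (br_V a | C(V)) κ` for all class functions `a : G → F`.  `V` acts on the cosets
`x V` by left multiplication; for `g ∈ C(V)` the term `i(x⁻¹ g x)` is invariant, so modulo `M` only the
fixed points contribute (`H74.orb`, compare `K9.H97.tsm_br`): `br_V(rd z')` is the sum of the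
`cj x (br_V (rd i))` over the cosets `x V` in `N(V)`.  Multiply with `γ`: for `x ∈ N(V)`,
`cj x (br_V (rd i)) = cj x (br_V (rd i)) cj x γ` (hypothesis), and `cj x γ * γ = 0` for
`x ∉ stab γ`.  So `br_V(rd z') γ` is the sum of the `cj t (rd z'') γ` over the cosets
`t C(V)` in `Tg V γ` (the sum over the `x V` in `t C(V)` is `cj t (rd z'')`).  `res M · κ` is
multiplicative on the class functions of `C(V)`, `res M γ κ = 1`, and
`res M (cj t a) κ = res M a (κ ∘ conj t) = res M a κ`, because `κ ∘ conj t` is also in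
`cj t⁻¹ γ = γ`. -/
def OmiStmt : Prop := ∀ (ℓ : ℕ) [Fact ℓ.Prime] (M : Ideal (integralClosure ℤ ℂ)) [M.IsMaximal],
  (ℓ : integralClosure ℤ ℂ) ∈ M → ∀ (G : Type) [Group G] [Finite G] (e : G → FF M)
  (V : Subgroup G) (γ : G → FF M), Ld ℓ e V γ → ∀ i : G → ℂ, (∀ g, i g ∈ RM M) →
  (∀ v ∈ V, ∀ x, i (v * x * v⁻¹) = i x) → mulF (br V (rd M i)) γ = br V (rd M i) →
  ∀ χ ∈ IrrE M e, ∀ κ ∈ IrrE M (fun t : Subgroup.centralizer (V : Set G) => γ t),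
    (Nat.card G * chv i χ / (Nat.card V * χ 1)) ∈ RM M ∧
    (Nat.card (Subgroup.centralizer (V : Set G)) *
      (∑ᶠ t : Subgroup.centralizer (V : Set G), i t * κ t) / (Nat.card V * κ 1)) ∈ RM M ∧
    rr M (Nat.card G * chv i χ / (Nat.card V * χ 1)) =
      (ix V γ : FF M) * rr M (Nat.card (Subgroup.centralizer (V : Set G)) *
        (∑ᶠ t : Subgroup.centralizer (V : Set G), i t * κ t) / (Nat.card V * κ 1))

/-- RG1: the characters of a block of inertial index one agree at the regular elements.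

Proof.  The orthonormal vectors in the proof of `T3.NibStmt` (for `x ∈ V` not central:
`χ ↦ gv (C(x)) x (c x) χ / (d x √|V|)`, for `x ∈ V` central: `χ ↦ χ(x)/√σ` on `IrrE b`) are `|V|`
vectors, they vanish outside `IrrE b` (`T3.SmgStmt`) and `IrrE b` has `|V|` elements (`T3.NilStmt`),
so they are an orthonormal basis of the functions on `IrrE b`.  For `s` regular the vector
`(κ(s))_κ` is orthogonal to all of them except the one for `x = 1`: the inner products are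
combinations of `∑_{κ ∈ b} κ(s) κ(g)`, `g` singular, which are `0` (`K9.WboStmt`; `eh` vanishes at
the singular elements).  So it is a multiple of `(κ(1))_κ`, which is constant (NIL). -/
def Rg1Stmt : Prop := ∀ (ℓ : ℕ) [Fact ℓ.Prime] (M : Ideal (integralClosure ℤ ℂ)) [M.IsMaximal],
  (ℓ : integralClosure ℤ ℂ) ∈ M → ∀ (H : Type) [Group H] [Finite H] (b : H → FF M)
  (V : Subgroup H) (γ : H → FF M), Ld ℓ b V γ → ix V γ = 1 → ∀ κ ∈ IrrE M b, ∀ κ' ∈ IrrE M b,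
  ∀ s : H, Reg ℓ s → κ s = κ' s

/-- KNZ: the characters of `γ` modulo `M`.

Proof.  Let `C = C(V)`.  `γ | C` is a block of `C` with the central defect group `V` and inertial
index one, so by RG1 all its characters agree at the regular elements, it has `|V|` characters of
degree `c` (`T3.CenStmt`), and `γ^(s) = |V| c κ(s⁻¹)/|C|` for `s` regular, `κ ∈ γ`.  The number
`q = |V| c/|C|` is in `RM M`: let `p : C → C/V`; by `CD2.PsbStmt`/`T3.PsgStmt`, `K9.PugStmt`,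
`K9.DzoStmt` the block `push p γ` has exactly one character `κ₀`, of degree `c` (`K9.PsiStmt`: its
inflation is in `γ`), and `κ₀` vanishes at the singular elements; for a Sylow `ℓ`-subgroup `P` of
`C/V`, the multiplicity of the trivial character in `κ₀ | P` is `c/|P|`, an integer, so
`q = c/|C/V|` is an integer divided by a number prime to `ℓ`.  So `γ(s) = rr q · rr κ(s⁻¹)`, and
`γ ≠ 0` vanishes at the singular elements, so `rr κ(s⁻¹) ≠ 0` for some `s`.  Last claim: let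
`g ∈ C` have the `ℓ`-part `y` and the regular part `s`.  If `y ∉ V` then `γ` vanishes on `C(y)`
(otherwise `⟨y⟩ V` would be a good subgroup of `γ` of order larger than `|V|`), so `κ(y s) = 0` for
all `κ ∈ γ` (`T3.SmgStmt`, second part, for the idempotent `b = 1` of `C(y)`).  If `y ∈ V` then
`κ(y s) = lam(y) κ(s)` with a root of unity `lam(y)` whose order is a power of `ℓ`, so its residue
is `1`, and `κ(s) = κ'(s)`. -/
def KnzStmt : Prop := ∀ (ℓ : ℕ) [Fact ℓ.Prime] (M : Ideal (integralClosure ℤ ℂ)) [M.IsMaximal],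
  (ℓ : integralClosure ℤ ℂ) ∈ M → ∀ (G : Type) [Group G] [Finite G] (e : G → FF M)
  (V : Subgroup G) (γ : G → FF M), Ld ℓ e V γ → ∀ c : ℕ,
  Dg M (fun t : Subgroup.centralizer (V : Set G) => γ t) c →
  ((Nat.card V * c : ℂ) / Nat.card (Subgroup.centralizer (V : Set G))) ∈ RM M ∧
  ∀ κ ∈ IrrE M (fun t : Subgroup.centralizer (V : Set G) => γ t),
    (∃ s, rr M (κ s) ≠ 0) ∧
    ∀ κ' ∈ IrrE M (fun t : Subgroup.centralizer (V : Set G) => γ t),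
      ∀ g, rr M (κ' g) = rr M (κ g)

end Pool.Agent.PP.T8
end
end -- Pool.Agent.AT8.Stmts1

section -- Pool.Agent.AT8.Stmts2

/-!
# Squad AT8, part 2: the coherence theorem

Text: `AWC_T8.md`.  Complete proofs in the docstrings.  `Ld ℓ e V γ`: `e` is a block of `G`, `V` an
abelian defect group, `γ` a block of `C(V)` under `e`, `T = Tg V γ` the inertial group.  A regular
element `u` of `V` (`Rg V γ u`) is centralised only by `C(V)` in `T`.  `Dat`: the local blocks `b u`,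
their degrees `d u` and the signs `ε u`; `vv M b d u χ = χ(u b_u)/d_u`.  The theorem of this part
(COH) says that on the regular elements the function `u ↦ ε(u) χ(u b_u)/d_u` is the restriction of a
combination of linear characters of `V` with coefficients in the local ring.
-/

open scoped BigOperators

noncomputable section

namespace Pool.Agent.PP.T8

open Pool.Agent.Helper51_AWC Pool.Agent.Helper79_WRA Pool.Agent.PP Pool.Agent.PP.KF
open Pool.Agent.PP.K9 Pool.Agent.PP.K9.H97 Pool.Agent.PP.H75 Pool.Agent.PP.T3 Pool.Agent.PP.T2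

attribute [local instance] Ideal.Quotient.field

/-! ## 4. The coherent idempotent -/

/-- MIN: a minimal idempotent of the elements of `F G` which commute with `V`.

Proof.  Let `κ ∈ IrrE γ`, `φ(t) = rr (κ t)` on `C(V)`, `Φ(a) = ∑_{t ∈ C(V)} a(t) φ(t)` for
`a : G → F` (it does not depend on `κ`, KNZ).  For `a` supported on `C(V)`: `Φ(a γ) = Φ(a)` (lift `a`
and use `IdmStmt` for `γ | C(V)`).  By KNZ there is `s ∈ C(V)` with `φ(s) ≠ 0`, RK1 for `C(V)`,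
`x = δ_s` gives an idempotent `j₀` of `F C(V)` with `Φ(j₀) ≠ 0`; it commutes with `V`.  So the set `I`
of the idempotents `j` of `F G` which commute with `V` and have `Φ(j) ≠ 0` is not empty; let `j ∈ I`
be such that the rank of `a ↦ j a` on `F G` is minimal.  Claim: let `w` commute with `V`, let `br_V(w)`
be a class function of `C(V)` and `br_V(w) γ = γ`.  Then `(j w j) ^ n = j` for some `n ≥ 1`.  By IDP
`j' = (j w j) ^ n` is an idempotent for some `n ≥ 1`; it commutes with `V` and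
`j j' = j' = j' j`.  `br_V` is multiplicative on the elements which commute with `V`
(`H75.br_mulF`), so `br_V(j') γ = br_V(j) (br_V(w) ^ n γ) = br_V(j) γ` (`br_V(w)` is central in
`F C(V)`), so `Φ(j') = Φ(br_V(j') γ) = Φ(br_V(j) γ) = Φ(j) ≠ 0`, `j' ∈ I`.  The image of `a ↦ j' a` is
contained in that of `a ↦ j a`, so by minimality they are equal, `j = j' a`, `j' j = j`, `j' = j`.
(i) `w = γ`: `br_V(j) = (br_V(j) γ br_V(j)) ^ n = br_V(j) γ`.  (ii) `w = b`, the local block of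
`z ∈ V`: `b` is a class function of `C(z)`, so it commutes with `V ≤ C(z)`, `br_V(b) γ = γ`.  The map
`rs (Cu z)` is multiplicative on the elements which commute with `z` (`H75.br_mulF` for the group
generated by `z`), so `rs j = (rs(j) b rs(j)) ^ n = rs(j) b` (`b` is a central idempotent of
`F C(z)`, `rs (Cu z) b = b`). -/
def MinStmt : Prop := ∀ (ℓ : ℕ) [Fact ℓ.Prime] (M : Ideal (integralClosure ℤ ℂ)) [M.IsMaximal],
  (ℓ : integralClosure ℤ ℂ) ∈ M → ∀ (G : Type) [Group G] [Finite G] (e : G → FF M)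
  (V : Subgroup G) (γ : G → FF M), Ld ℓ e V γ → ∃ j : G → FF M, mulF j j = j ∧
  (∀ v ∈ V, ∀ x, j (v * x * v⁻¹) = j x) ∧ mulF (br V j) γ = br V j ∧
  (∀ z ∈ V, ∀ b, Lc e V γ z b → mulF (rs (Cu z) j) b = rs (Cu z) j) ∧
  ∀ κ ∈ IrrE M (fun t : Subgroup.centralizer (V : Set G) => γ t),
    ∑ᶠ t : Subgroup.centralizer (V : Set G), j t * rr M (κ t) ≠ 0

/-- CID: existence of a coherent idempotent.

Proof.  MIN and LFT (`C = ⊤`); `rr (∑ i(t) κ(t)) = ∑ j(t) rr κ(t)`. -/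
def CidStmt : Prop := ∀ (ℓ : ℕ) [Fact ℓ.Prime] (M : Ideal (integralClosure ℤ ℂ)) [M.IsMaximal],
  (ℓ : integralClosure ℤ ℂ) ∈ M → ∀ (G : Type) [Group G] [Finite G] (e : G → FF M)
  (V : Subgroup G) (γ : G → FF M), Ld ℓ e V γ → ∃ i : G → ℂ, Ci M e V γ i

/-- LCL: the local idempotents.

Proof.  `x = rs (Cu z) (rd M i)` is an idempotent (`rs (Cu z)` is multiplicative on the elements of
`F G` which commute with `z`, `H75.br_mulF`) supported on `C(z)` and commuting with `V`.  LFT for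
`C = C(z)`: `j`.  SMI: `fv i z th = fv j z th`.  Let `b^` be the extension of `eh M b` by zero, a
central idempotent of the group ring of `C(z)` over `RM M`.  `p = j - j b^` is an idempotent with
residue `x - x b = 0` (`Ci.lb`), so `p = 0`: `1 - L`, `L` the matrix of `y ↦ p y`, has a determinant
with residue `1`, so it is invertible, and `(1 - L) L = 0`. -/
def LclStmt : Prop := ∀ (ℓ : ℕ) [Fact ℓ.Prime] (M : Ideal (integralClosure ℤ ℂ)) [M.IsMaximal],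
  (ℓ : integralClosure ℤ ℂ) ∈ M → ∀ (G : Type) [Group G] [Finite G] (e : G → FF M)
  (V : Subgroup G) (γ : G → FF M), Ld ℓ e V γ → ∀ i : G → ℂ, Ci M e V γ i → ∀ z ∈ V, ∀ b,
  Lc e V γ z b → ∃ j : G → ℂ, Ip M V j ∧ (∀ g, g ∉ Cu z → j g = 0) ∧
    (∀ g ∈ Cu z, rr M (j g) = rr M (i g)) ∧
    mulF j (PP.ext0 (Cu z) (eh M (fun t : Cu z => b t))) = j ∧
    ∀ th : G → ℂ, (∀ x y, th (y * x * y⁻¹) = th x) → fv i z th = fv j z th

/-! ## 5. The data of the regular elements -/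

/-- DAT: existence of the data.

Proof.  RGL gives `b u`, `d u`, DGC gives `c`.  By LSB and RGL `C(u)`, `b u`, `V`, `γ` satisfy the
hypotheses of NIT (inertial index one), which gives `ε u`. -/
def DatStmt : Prop := ∀ (ℓ : ℕ) [Fact ℓ.Prime] (M : Ideal (integralClosure ℤ ℂ)) [M.IsMaximal],
  (ℓ : integralClosure ℤ ℂ) ∈ M → ∀ (G : Type) [Group G] [Finite G] (e : G → FF M)
  (V : Subgroup G) (γ : G → FF M), Ld ℓ e V γ → ∃ (b : G → G → FF M) (d : G → ℕ) (c : ℕ)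
  (ε : G → ℤ), Dat M ℓ e V γ b d c ε

/-- DPW: conjugation with the inertial group, and powers.

Proof.  Let `t ∈ T`, `u' = t u t⁻¹`.  `u'` is regular (`T ∩ C(u') = t (T ∩ C(u)) t⁻¹`).  `cj t (b u)` is
the local block of `u'`: a block of `C(u') = t C(u) t⁻¹` under `e`, and
`br_V(cj t (b u)) γ = cj t (br_V(b u) γ) = γ`; by uniqueness (LOC) it is `b u'`.  So `d u' = d u` (a
block has a character), `gv u' (b u') χ = gv u (b u) χ` (`χ` is a class function), and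
`|C(u')| = |C(u)|`, so `ε u'` and `ε u` are equal in `F`, so equal (`ℓ ≠ 2`).  Powers: `T3.LpwStmt` and
uniqueness, `C(u ^ j) = C(u)`; if `v ∈ V` and `v ^ j` is regular then `v` is regular, as `v` is a
power of `v ^ j`. -/
def DpwStmt : Prop := ∀ (ℓ : ℕ) [Fact ℓ.Prime] (M : Ideal (integralClosure ℤ ℂ)) [M.IsMaximal],
  (ℓ : integralClosure ℤ ℂ) ∈ M → ℓ ≠ 2 → ∀ (G : Type) [Group G] [Finite G] (e : G → FF M)
  (V : Subgroup G) (γ : G → FF M) (b : G → G → FF M) (d : G → ℕ) (c : ℕ) (ε : G → ℤ),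
  Dat M ℓ e V γ b d c ε →
  (∀ t ∈ Tg V γ, ∀ u, Rg V γ u → Rg V γ (t * u * t⁻¹) ∧ ε (t * u * t⁻¹) = ε u ∧
    ∀ χ ∈ Irr G, vv M b d (t * u * t⁻¹) χ = vv M b d u χ) ∧
  (∀ u, Rg V γ u → ∀ j : ℕ, ¬ ℓ ∣ j → Rg V γ (u ^ j) ∧ b (u ^ j) = b u ∧ d (u ^ j) = d u ∧
    ε (u ^ j) = ε u) ∧
  ∀ v ∈ V, ∀ j : ℕ, ¬ ℓ ∣ j → (Rg V γ (v ^ j) ↔ Rg V γ v)

/-- DOR: orthogonality.

Proof.  If `u = t u' t⁻¹` then `vv u = vv u'` (DPW; for this part `ℓ ≠ 2` is not needed), and the sum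
is `|V|` (CO1, and `b u` has `|V|` characters of degree `d u` by RGL and uniqueness).  Otherwise CO2:
if `x u' x⁻¹ = u` then `b u` and `cj x (b u')` are blocks of `C(u)`; if they were equal, FUS would
give `t ∈ T` with `t u' t⁻¹ = u`; so their product is zero (`Bx.dich`). -/
def DorStmt : Prop := ∀ (ℓ : ℕ) [Fact ℓ.Prime] (M : Ideal (integralClosure ℤ ℂ)) [M.IsMaximal],
  (ℓ : integralClosure ℤ ℂ) ∈ M → ∀ (G : Type) [Group G] [Finite G] (e : G → FF M)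
  (V : Subgroup G) (γ : G → FF M) (b : G → G → FF M) (d : G → ℕ) (c : ℕ) (ε : G → ℤ),
  Dat M ℓ e V γ b d c ε → ∀ u u', Rg V γ u → Rg V γ u' →
  ((∃ t ∈ Tg V γ, t * u' * t⁻¹ = u) →
    ∑ᶠ χ ∈ Irr G, vv M b d u χ * starRingEnd ℂ (vv M b d u' χ) = Nat.card V) ∧
  ((¬ ∃ t ∈ Tg V γ, t * u' * t⁻¹ = u) →
    ∑ᶠ χ ∈ Irr G, vv M b d u χ * starRingEnd ℂ (vv M b d u' χ) = 0)

/-- DCG: the congruence.

Proof.  By `K9.OmgStmt` and RSV, `|G| gv u b χ/(|C(u)| χ(1))` is in `RM M` with residue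
`|T : T ∩ C(u)| = |T : C(V)|` (`u` is regular).  Multiply with `Dat.cg`. -/
def DcgStmt : Prop := ∀ (ℓ : ℕ) [Fact ℓ.Prime] (M : Ideal (integralClosure ℤ ℂ)) [M.IsMaximal],
  (ℓ : integralClosure ℤ ℂ) ∈ M → ∀ (G : Type) [Group G] [Finite G] (e : G → FF M)
  (V : Subgroup G) (γ : G → FF M) (b : G → G → FF M) (d : G → ℕ) (c : ℕ) (ε : G → ℤ),
  Dat M ℓ e V γ b d c ε → ∀ u, Rg V γ u → ∀ χ ∈ IrrE M e,
    (vv M b d u χ * ((Nat.card G * c : ℂ) /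
      (Nat.card (Subgroup.centralizer (V : Set G)) * χ 1))) ∈ RM M ∧
    rr M (vv M b d u χ * ((Nat.card G * c : ℂ) /
      (Nat.card (Subgroup.centralizer (V : Set G)) * χ 1))) = ((ε u * ix V γ : ℤ) : FF M)

/-! ## 6. The values of the coherent idempotent -/

/-- FRY: the values at the regular elements.

Proof.  Let `C = C(u)`, `j` from LCL for `u`, `b u`.  On `C` write `χ = ∑ m_κ κ`.  `fv i u χ = fv j u χ =
∑_{s ∈ C} j(s) χ(u s) = ∑_κ m_κ (κ(u)/κ(1)) κ(j)` (`u` is central in `C`).  `κ(j) = κ(j b^)` is `0` if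
`κ ∉ b u` (`IdmStmt`).  The block `b u` of `C` has inertial index one (LSB, RGL), so its characters
agree at the regular elements (RG1), so `κ(j) = r` does not depend on `κ ∈ b u` (PRJ for
`th = κ - κ'`); `r` is the trace of the idempotent `ρ_κ(j)`, an integer.  So
`fv i u χ = r ∑_{κ ∈ b u} m_κ κ(u)/d u = r gv u (b u) χ / d u` (`κ(u b^) = κ(u)` for `κ ∈ b u`, `0`
otherwise).  Congruence: OMI for the group `C`, the block `b u`, `V`, `γ` (LSB), the function `j`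
(`br_V(rd j) = br_V(rd i)` because `C(V) ≤ C`): `|C| r/(|V| d u)` and
`|C(V)| (∑ j(t) κ(t))/(|V| c)` are in `RM M` with the same residue.  Multiply with
`|V| c/|C(V)| ∈ RM M` (KNZ): `r |C| c/(|C(V)| d u)` has residue `rr (∑ j(t) κ(t)) =
rr (∑ i(t) κ(t))`, and by `Dat.cg` the residue is `r ε(u)`. -/
def FryStmt : Prop := ∀ (ℓ : ℕ) [Fact ℓ.Prime] (M : Ideal (integralClosure ℤ ℂ)) [M.IsMaximal],
  (ℓ : integralClosure ℤ ℂ) ∈ M → ∀ (G : Type) [Group G] [Finite G] (e : G → FF M)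
  (V : Subgroup G) (γ : G → FF M) (b : G → G → FF M) (d : G → ℕ) (c : ℕ) (ε : G → ℤ),
  Dat M ℓ e V γ b d c ε → ∀ i : G → ℂ, Ci M e V γ i → ∀ u, Rg V γ u → ∃ r : ℤ,
  (∀ χ ∈ Irr G, fv i u χ = r * vv M b d u χ) ∧
  ∀ κ ∈ IrrE M (fun t : Subgroup.centralizer (V : Set G) => γ t),
    ((r * ε u : ℤ) : FF M) = rr M (∑ᶠ t : Subgroup.centralizer (V : Set G), i t * κ t)

/-- ORI: orthogonality for all elements `z` of `V`.

Proof.  Let `b_z` be the local block of `z` (LOC), `j` from LCL.  Let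
`J(s) = |C(z)|⁻¹ ∑_{x ∈ C(z)} j(x s x⁻¹)` for `s ∈ C(z)`: a class function of `C(z)` with
`J b_z^ = J`, `∑_s j(s) χ(z s) = ∑_s J(s) χ(z s)` (`s ↦ χ(z s)` is a class function of `C(z)`), and `J`
vanishes at the singular elements (PRJ for `C(z)`, `th` the indicator of a singular class).  So
`fv i z χ = chv (z J) χ`, and the complex conjugate of `χ(u b_u^)` is `χ(u⁻¹ b_u^)`.  By
`TrcStmt` the sum is, up to the factor `1/d_u`, the sum of `J(s) b_u^(s')` over the `x ∈ G`, `s`, `s'`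
with `x⁻¹ (z s)⁻¹ x = u⁻¹ s'`, `s ∈ C(z)`, `s' ∈ C(u)` regular.  Comparing the `ℓ`-parts,
`x u x⁻¹ = z`.  For such an `x` the sum over `s` is the value at `1` of the product of `J` and the
lift of `cj x (b u)`, a block of `C(z)`.  If `cj x (b u) = b_z` then FUS gives `t ∈ T` with
`t u t⁻¹ = z`, against the hypothesis.  Otherwise the product is `J b_z^ (cj x b_u)^ = 0`.  (Compare
`T3.Co2Stmt`.) -/
def OriStmt : Prop := ∀ (ℓ : ℕ) [Fact ℓ.Prime] (M : Ideal (integralClosure ℤ ℂ)) [M.IsMaximal],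
  (ℓ : integralClosure ℤ ℂ) ∈ M → ∀ (G : Type) [Group G] [Finite G] (e : G → FF M)
  (V : Subgroup G) (γ : G → FF M) (b : G → G → FF M) (d : G → ℕ) (c : ℕ) (ε : G → ℤ),
  Dat M ℓ e V γ b d c ε → ∀ i : G → ℂ, Ci M e V γ i → ∀ u, Rg V γ u → ∀ z ∈ V,
  (∀ t ∈ Tg V γ, t * u * t⁻¹ ≠ z) →
    ∑ᶠ χ ∈ Irr G, fv i z χ * starRingEnd ℂ (vv M b d u χ) = 0

/-- CSQ: the function `cc` at the regular elements.

Proof.  For `z ∈ V` the number `fv i (t z t⁻¹) χ`, `t ∈ T`, depends only on the coset `t C(V)`.  For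
`u` regular let `O(u)` be the set of the `t u t⁻¹`, `t ∈ T`, with `|T : C(V)|` elements, all regular
with `vv z = vv u`, `ε z = ε u` (DPW).  Let `r z` be the integer of FRY, `R u = ∑_{z ∈ O(u)} r z`.
Then `fs u χ = R u vv u χ`, and `r z ε u` has residue `ρ = rr (∑ i(t) κ(t))` for all `z ∈ O(u)`,
so `R u ε u` has residue `ix ρ`.  The number `(F_χ, 1) = |V|⁻¹ ∑_v fs v χ` is an integer (FCH for the
trivial character, and `v ↦ t v t⁻¹` is a bijection of `V`), so real, and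
`cc u = |V|⁻¹ ∑_v ∑_χ conj (fs v χ) R u vv u χ`.  `∑_v ∑_χ fs v χ conj (vv u χ) =
ix ∑_{z ∈ V} ∑_χ fv i z χ conj (vv u χ)`, by ORI only `z ∈ O(u)` contribute, each
`r z |V|` (FRY, DOR with `vv z = vv u`).  So the double sum is `ix |V| R u`, and
`cc u = ix (R u)²`. -/
def CsqStmt : Prop := ∀ (ℓ : ℕ) [Fact ℓ.Prime] (M : Ideal (integralClosure ℤ ℂ)) [M.IsMaximal],
  (ℓ : integralClosure ℤ ℂ) ∈ M → ℓ ≠ 2 → ∀ (G : Type) [Group G] [Finite G] (e : G → FF M)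
  (V : Subgroup G) (γ : G → FF M) (b : G → G → FF M) (d : G → ℕ) (c : ℕ) (ε : G → ℤ),
  Dat M ℓ e V γ b d c ε → ∀ i : G → ℂ, Ci M e V γ i → ∃ R : G → ℤ, ∀ u, Rg V γ u →
  (∀ χ ∈ Irr G, fs V γ i u χ = R u * vv M b d u χ) ∧
  (∀ κ ∈ IrrE M (fun t : Subgroup.centralizer (V : Set G) => γ t),
    ((R u * ε u : ℤ) : FF M) =
      ix V γ * rr M (∑ᶠ t : Subgroup.centralizer (V : Set G), i t * κ t)) ∧
  cc V γ i u = ix V γ * (R u : ℂ) ^ 2

/-! ## 7. The ring of functions -/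

/-- RVA: the functions in `Rv M V` form a ring.

Proof.  `a_lam(f) = |V|⁻¹ ∑_v f(v) lam(v⁻¹)`.  Fourier inversion: `f(v) = ∑_lam a_lam(f) lam(v)` for
`v ∈ V`, the sum over all homomorphisms `lam : V → ℂ` (`V` is abelian; there are `|V|` of them,
Mathlib: duality for finite abelian groups, orthogonality).  `a_lam(f g) = ∑_mu a_mu(f) a_(lam/mu)(g)`.
`a_lam(|V| f) = ∑_v f(v) lam(v⁻¹)`, the values of `lam` are roots of unity, in `RM M`.  Conjugation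
with `t ∈ N(V)` permutes the homomorphisms. -/
def RvaStmt : Prop := ∀ (M : Ideal (integralClosure ℤ ℂ)) [M.IsMaximal] (G : Type) [Group G]
  [Finite G] (V : Subgroup G), (∀ a ∈ V, ∀ b ∈ V, a * b = b * a) →
  (∀ a ∈ RM M, Rv M V (fun _ => a)) ∧
  (∀ f g : G → ℂ, Rv M V f → Rv M V g → Rv M V (fun x => f x + g x) ∧
    Rv M V (fun x => f x * g x)) ∧
  (∀ f : G → ℂ, (∀ v ∈ V, f v ∈ RM M) → Rv M V (fun x => Nat.card V * f x)) ∧
  (∀ f : G → ℂ, Rv M V f → ∀ v ∈ V, f v ∈ RM M) ∧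
  (∀ f : G → ℂ, Rv M V f → ∀ t ∈ Subgroup.normalizer (V : Set G),
    Rv M V (fun x => f (t * x * t⁻¹))) ∧
  ∀ f g : G → ℂ, (∀ v ∈ V, f v = g v) → Rv M V f → Rv M V g

/-- RVC: congruences between the values.

Proof.  Fourier inversion (RVA): `f(v) - f(1) = ∑ a_lam (lam(v) - 1)`, `lam(v) = ζ ^ k`, and
`1 - ζ ^ k` is `1 - ζ` times an algebraic integer.  For `j` prime to `ℓ` also `1 - ζ` is `1 - ζ ^ j`
times an algebraic integer (`ζ` is a power of `ζ ^ j`), and the product of the `1 - ζ ^ j` over the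
`j < ℓ ^ A` prime to `ℓ` is `ℓ` (value of the cyclotomic polynomial at `1`), so `(1 - ζ) ^ m`,
`m = φ(ℓ ^ A)`, is `ℓ` times an algebraic integer; `K = m A`. -/
def RvcStmt : Prop := ∀ (ℓ : ℕ) [Fact ℓ.Prime] (M : Ideal (integralClosure ℤ ℂ)) [M.IsMaximal],
  (ℓ : integralClosure ℤ ℂ) ∈ M → ∀ (A : ℕ), 0 < A → ∀ ζ : ℂ, IsPrimitiveRoot ζ (ℓ ^ A) →
  (1 - ζ) ∈ RM M ∧ rr M (1 - ζ) = 0 ∧
  (∃ (K : ℕ), ∃ r ∈ RM M, (1 - ζ) ^ K = (ℓ : ℂ) ^ A * r) ∧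
  ∀ (G : Type) [Group G] [Finite G] (V : Subgroup G), (∀ a ∈ V, ∀ b ∈ V, a * b = b * a) →
    Nat.card V = ℓ ^ A → ∀ f : G → ℂ, Rv M V f → ∀ v ∈ V, ∃ r ∈ RM M,
      f v - f 1 = (1 - ζ) * r

/-- SER: the square root.

Proof.  If `X` is empty take `s = 0`.  Let `|V| = ℓ ^ A`; if `A = 0` then `V = 1`, take the constant
`1/R(1)`.  Let `A > 0`, `ζ` as in RVC, `π = 1 - ζ`.  The function `h = g/n² - 1` is in `Rv` (RVA) and
`h(y₀) ∈ ℓ RM M ⊆ π RM M` for `y₀ ∈ X` (`π` divides `ℓ` in the algebraic integers), so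
`h(v) ∈ π RM M` for all `v ∈ V` (RVC).  For every `K` there are polynomials `P, Q` over `RM M` with
`P(0) = 1` and `P² (1 + T) = 1 + T ^ K Q` (induction: `P - (Q(0)/2) T ^ K` for `K + 1`; `2` is a unit of
`RM M`).  Take the `K` of RVC: `π ^ K ∈ |V| RM M`.  `s' = n⁻¹ P(h)` is in `Rv`.  For `y ∈ X`:
`(s'(y) R(y))² = n⁻² P(h)² g = P(h)² (1 + h) = 1 + h ^ K Q(h)` at `y`, in `1 + π ^ K RM M`, and
`s'(y) R(y) = n⁻¹ R(y) P(h(y))` has residue `1`, so `s'(y) R(y) + 1` has residue `2 ≠ 0` and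
`s'(y) R(y) - 1 ∈ π ^ K RM M ⊆ |V| RM M`.  Put `s(y) = 1/R(y)` for `y ∈ X` and `s(v) = s'(v)`
otherwise: `s - s'` is `|V|` times a function with values in `RM M` (`R(y)` is a unit of `RM M`), so
`s` is in `Rv` (RVA).  `N`: `s'` is a polynomial in `g`, so `s'(v ^ N) = s'(v)`.  For `y ∈ X` also
`y ^ N ∈ X`, `R(y ^ N)² = g(y ^ N) = g(y) = R(y)²`, and `R(y ^ N) = n = R(y)` modulo `ℓ`, so
`R(y ^ N) = R(y)` (otherwise `ℓ ∣ 2 n`). -/
def SerStmt : Prop := ∀ (ℓ : ℕ) [Fact ℓ.Prime] (M : Ideal (integralClosure ℤ ℂ)) [M.IsMaximal],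
  (ℓ : integralClosure ℤ ℂ) ∈ M → ℓ ≠ 2 → ∀ (G : Type) [Group G] [Finite G] (V : Subgroup G),
  IsPGroup ℓ V → (∀ a ∈ V, ∀ b ∈ V, a * b = b * a) → ∀ g : G → ℂ, Rv M V g →
  ∀ (X : Set G) (R : G → ℤ) (n : ℤ), ¬ (ℓ : ℤ) ∣ n →
  (∀ y ∈ X, y ∈ V ∧ g y = (R y : ℂ) ^ 2 ∧ (ℓ : ℤ) ∣ R y - n) →
  ∃ s : G → ℂ, Rv M V s ∧ (∀ y ∈ X, s y * R y = 1) ∧
    ∀ N : ℕ, (∀ v ∈ V, g (v ^ N) = g v) → (∀ v ∈ V, v ^ N ∈ X ↔ v ∈ X) →
      ∀ v ∈ V, s (v ^ N) = s v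

/-! ## 8. The coherence theorem -/

/-- COH: the coherence theorem.

Proof.  If there is no regular element take `f = 0`.  Let `i` be a coherent idempotent (CID), `ρ =
rr (∑ i(t) κ(t)) ≠ 0` (for one `κ ∈ γ`), `F_χ(z) = fs V γ i z χ`.  `F_χ` is in `Rv` (FCH, RVA for the
conjugation with `t ∈ T ≤ N(V)`, sums), `|V|⁻¹ ∑_v F_χ(v)` is an integer (FCH), so `cc V γ i` is in
`Rv`, and `g = cc/ix` is in `Rv` (`ix` is prime to `ℓ` by `K9.InxStmt`, a unit of `RM M`).  With `R` from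
CSQ and `R'(u) = ε u R u`: `g(u) = R'(u)²` at the regular elements, and `R'(u)` has residue `ix ρ ≠ 0`.
So with `n = R'(u₀)` for one regular `u₀`: `ℓ ∤ n`, `ℓ ∣ R'(u) - n` (`KF.dvd_of_rr`).  SER, `X` the set of
the regular elements: `s`.  `f(z) = F_χ(z) s(z)` is in `Rv` and
`f(u) = R u vv u χ/(ε u R u) = ε u vv u χ`.  Power map: by GEQ `F_χ(z ^ N) = F_{χ'}(z)`,
`χ' = (g ↦ χ(g ^ N))` (`t z ^ N t⁻¹ = (t z t⁻¹) ^ N`).  `χ ↦ χ'` is a permutation of `Irr G` (RTC in the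
form of `Helper23_AT3/RTC.lean`, `H23.irr_pow`; injective since `g ↦ g ^ N` is a bijection), and
`∑_v F_{χ'}(v) = ∑_v F_χ(v ^ N) = ∑_v F_χ(v)`, so `cc(z ^ N) = cc(z)`.  `z ^ N` is regular iff `z` is
(DPW, `N` is prime to `ℓ`; if `ℓ` does not divide `|G|` then there is no regular element).  So
`s(z ^ N) = s(z)` by SER, and if `χ' = χ` then `f(z ^ N) = f(z)`. -/
def CohStmt : Prop := ∀ (ℓ : ℕ) [Fact ℓ.Prime] (M : Ideal (integralClosure ℤ ℂ)) [M.IsMaximal],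
  (ℓ : integralClosure ℤ ℂ) ∈ M → ℓ ≠ 2 → ∀ (G : Type) [Group G] [Finite G] (N : ℕ), GS G ℓ N →
  ∀ (e : G → FF M) (V : Subgroup G) (γ : G → FF M) (b : G → G → FF M) (d : G → ℕ) (c : ℕ)
  (ε : G → ℤ), Dat M ℓ e V γ b d c ε → ∀ χ ∈ Irr G, ∃ f : G → ℂ, Rv M V f ∧
    (∀ u, Rg V γ u → f u = ε u * vv M b d u χ) ∧
    ((∀ g, χ (g ^ N) = χ g) → ∀ v ∈ V, f (v ^ N) = f v)

end Pool.Agent.PP.T8
end
end -- Pool.Agent.AT8.Stmts2

section -- Pool.Agent.AT8.Stmts3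

/-!
# Squad AT8, part 3: heights and the bound for the number of modular characters

Text: `AWC_T8.md`.  Complete proofs in the docstrings.  `vv M b d u χ = χ(u b_u)/d_u` for the regular
elements `u` of `V`; `Rk ℓ a k V γ y`: `y ∈ V` has order `ℓ ^ a` and the coset `y V ^ (ℓ ^ k)` is
fixed only by `C(V)`; `av M b d ε W y χ` is the average of the `ε(y w) vv(y w) χ` over `w ∈ W`.
-/

open scoped BigOperators

noncomputable section

namespace Pool.Agent.PP.T8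

open Pool.Agent.Helper51_AWC Pool.Agent.Helper79_WRA Pool.Agent.PP Pool.Agent.PP.KF
open Pool.Agent.PP.K9 Pool.Agent.PP.K9.H97 Pool.Agent.PP.H75 Pool.Agent.PP.T3 Pool.Agent.PP.T2

attribute [local instance] Ideal.Quotient.field

/-! ## 9. Arithmetic -/

/-- NRM: the conjugates of an element divisible by `ℓ ^ h`.

Proof.  Let `x_j = ℓ ^ (-s) ∑ m_i ζ ^ (i j)`, `m = ℓ ^ (a-1) (ℓ - 1)` the number of the `j < ℓ ^ a` prime
to `ℓ`.  `Π = ∏_j ∑_i m_i ζ ^ (i j)` (over these `j`) is a rational integer (the norm of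
`∑ m_i ζ ^ i` from the cyclotomic field; or the resultant with the cyclotomic polynomial), not `0`
(all factors are conjugates of `x_1`).  `Π/ℓ ^ ((s + h) m) = ∏ x_j/ℓ ^ h ∈ RM M`, so `ℓ ^ ((s + h) m)`
divides `Π` (otherwise `1/ℓ ∈ RM M`, but `ℓ ∈ M`).  So `∏ |x_j|² ≥ ℓ ^ (2 h m)`, and by the inequality
between the arithmetic and the geometric mean `∑ |x_j|² ≥ m ℓ ^ (2 h)`. -/
def NrmStmt : Prop := ∀ (ℓ : ℕ) [Fact ℓ.Prime] (M : Ideal (integralClosure ℤ ℂ)) [M.IsMaximal],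
  (ℓ : integralClosure ℤ ℂ) ∈ M → ∀ (a s h : ℕ), 0 < a → ∀ ζ : ℂ, IsPrimitiveRoot ζ (ℓ ^ a) →
  ∀ m : ℕ → ℤ,
  (∀ j : ℕ, ¬ ℓ ∣ j →
    (∑ i ∈ Finset.range (ℓ ^ a), (m i : ℂ) * ζ ^ (i * j)) / ℓ ^ s / ℓ ^ h ∈ RM M) →
  ∑ i ∈ Finset.range (ℓ ^ a), (m i : ℂ) * ζ ^ i ≠ 0 →
  ((ℓ ^ (a - 1) * (ℓ - 1) * ℓ ^ (2 * h) : ℕ) : ℝ) ≤
    ∑ j ∈ (Finset.range (ℓ ^ a)).filter (fun j => ¬ ℓ ∣ j),
      Complex.normSq ((∑ i ∈ Finset.range (ℓ ^ a), (m i : ℂ) * ζ ^ (i * j)) / ℓ ^ s)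

/-! ## 10. Heights -/

/-- SBS: Bessel's inequality with the vector of the degrees.

Proof.  Let `A = ∑_u |vv u χ|²`; if `A = 0` the claim is clear.  `w = ∑_u conj (vv u χ) v_u`,
`v_u = (vv u χ')_{χ'}`, a vector on `Irr G`.  `w(χ) = A` and, by DOR and DPW (the set of the
`t u t⁻¹` has `|T : C(V)|` elements, `vv` is constant on it; write the row sums without DPW:
`|vv u χ| = |vv u' χ|` there), `|w|² = ix |V| A`.  All `v_u` vanish outside `IrrE e` (SMG) and are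
orthogonal to `D = (χ'(1))_{χ' ∈ e}` (a combination of the sums `∑_{χ' ∈ e} χ'(1) χ'(g)`, `g`
singular, `K9.WboStmt`).  So `A = (w, δ_χ) = (w, δ_χ - p)`, `p` the projection of `δ_χ` on `D`, and
`|δ_χ - p|² = 1 - χ(1)²/∑ χ'(1)² < 1`.  Cauchy-Schwarz: `A² < ix |V| A`. -/
def SbsStmt : Prop := ∀ (ℓ : ℕ) [Fact ℓ.Prime] (M : Ideal (integralClosure ℤ ℂ)) [M.IsMaximal],
  (ℓ : integralClosure ℤ ℂ) ∈ M → ℓ ≠ 2 → ∀ (G : Type) [Group G] [Finite G] (e : G → FF M)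
  (V : Subgroup G) (γ : G → FF M) (b : G → G → FF M) (d : G → ℕ) (c : ℕ) (ε : G → ℤ),
  Dat M ℓ e V γ b d c ε → ∀ χ ∈ IrrE M e,
    ∑ᶠ (u : G) (_ : Rg V γ u), Complex.normSq (vv M b d u χ) < (ix V γ * Nat.card V : ℕ)

/-- RKX: elements which are regular modulo `V ^ (ℓ ^ k)`.

Proof.  `W = V ^ (ℓ ^ k)` is the set of the `v ^ (ℓ ^ k)` (PWU), normalised by `T`.  (i) `j` prime to
`ℓ`: `y` is a power of `y ^ j`; if `t y ^ j t⁻¹ = y ^ j w` then `t y t⁻¹ ∈ y W`.  (ii) If `t ∈ T` commutes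
with `y w` then `t y t⁻¹ = y w t w⁻¹ t⁻¹ ∈ y W`.  The order of `y w`: `w ^ (ℓ ^ (a-1)) = 1` as `k ≥ 1`, so
`(y w) ^ (ℓ ^ (a-1)) = y ^ (ℓ ^ (a-1)) ≠ 1`.  (iii) Let `t y ^ j w t⁻¹ = y ^ j' w'`.  Modulo `W` the
element `t` maps `y ^ j` to `y ^ j'`, so it maps `y` to `y ^ r` with `r j = j'` modulo the order of `y`
in `V/W` (`y` is a power of `y ^ j`), `r = 1` modulo `ℓ` (`ℓ` divides that order, as `k ≥ 1`: if
`y = v ^ ℓ` then `y ^ (ℓ ^ (a-1)) = 1`).  `m = |T : C(V)|` is prime to `ℓ` and `t ^ m ∈ C(V)`, so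
`y ^ (r ^ m) = y` modulo `W`; the multiplicative order of `r` modulo the order of `y` in `V/W` is a
power of `ℓ`, so `r = 1` modulo that order: `t y t⁻¹ ∈ y W`, `t ∈ C(V)`.  (iv) If
`y ^ (j - j') ∈ W` with `j - j' = ℓ ^ i n`, `i < k`, `ℓ ∤ n` (the difference as an integer), then
`y ^ (ℓ ^ i) = v ^ (ℓ ^ k)`, and `y ^ (ℓ ^ (i + a - k)) = v ^ (ℓ ^ a) = 1`, against `i + a - k < a`. -/
def RkxStmt : Prop := ∀ (ℓ : ℕ) [Fact ℓ.Prime] (F : Type) [Field F], GoodF ℓ F → ∀ (G : Type)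
  [Group G] [Finite G] (e : G → F) (V : Subgroup G) (γ : G → F), Ld ℓ e V γ → ¬ ℓ ∣ ix V γ →
  ∀ a k : ℕ, 0 < k → k ≤ a → Monoid.exponent V = ℓ ^ a → ∀ y, Rk ℓ a k V γ y →
  (∀ j : ℕ, ¬ ℓ ∣ j → Rk ℓ a k V γ (y ^ j)) ∧
  (∀ w ∈ Uw (ℓ ^ k) V, Rg V γ (y * w) ∧ orderOf (y * w) = ℓ ^ a) ∧
  (∀ j j' : ℕ, ¬ ℓ ∣ j → j ≡ j' [MOD ℓ] → ∀ w ∈ Uw (ℓ ^ k) V, ∀ w' ∈ Uw (ℓ ^ k) V,
    ∀ t ∈ Tg V γ, t * (y ^ j * w) * t⁻¹ = y ^ j' * w' →
      t ∈ Subgroup.centralizer (V : Set G)) ∧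
  ∀ j j' : ℕ, ∀ w ∈ Uw (ℓ ^ k) V, ∀ w' ∈ Uw (ℓ ^ k) V, y ^ j * w = y ^ j' * w' →
    j ≡ j' [MOD ℓ ^ k]

/-- XCT: the number of the regular elements.

Proof.  The elements `t y w t⁻¹`, `t ∈ T`, `w ∈ W = V ^ (ℓ ^ k)`, are regular (RKX (ii)), and if
`t y w t⁻¹ = t' y w' t'⁻¹` then `t'⁻¹ t ∈ C(V)` (RKX (iii), `j = j' = 1`), `w = w'`.  So there are
`|T : C(V)| |W|` of them. -/
def XctStmt : Prop := ∀ (ℓ : ℕ) [Fact ℓ.Prime] (F : Type) [Field F], GoodF ℓ F → ∀ (G : Type)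
  [Group G] [Finite G] (e : G → F) (V : Subgroup G) (γ : G → F), Ld ℓ e V γ → ¬ ℓ ∣ ix V γ →
  ∀ a k : ℕ, 0 < k → k ≤ a → Monoid.exponent V = ℓ ^ a → ∀ y, Rk ℓ a k V γ y →
  ix V γ * Nat.card (Uw (ℓ ^ k) V) ≤ {u | Rg V γ u}.ncard

/-- HKX: a sufficient condition for the heights to be smaller than `k`.

Proof.  Let `n` be the number of the regular elements, `V ≠ 1`.  (i) `|V| ≤ ℓ ^ (2 k) |V ^ ℓ|`: XCT with
`k = 1`.  (ii) `ix V γ < ℓ`: as in `T3.CntStmt` (`Helper49_AT3/CNT.lean`), `ℓ n ≥ |V| (ℓ - ix + 1) +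
ℓ (ix - 2)`, so for `ix ≥ 2`: `ℓ² n ≥ ℓ (ℓ - ix + 1) |V| ≥ ix |V|`, as `ℓ (ℓ + 1) ≥ (ℓ + 1) ix`; for
`ix = 1`: `n = |V| - 1`.  (iii) `T` acts freely: `n = |V| - 1`; the orbits of `T/C(V)` on `V - 1` are
regular, so `ix ≤ |V| - 1`.  If `|V| ≥ ℓ ^ (2 k)` then `ix |V| ≤ (ℓ ^ (2 k) - 1) |V| ≤
ℓ ^ (2 k) (|V| - 1)`, otherwise `ix |V| ≤ (|V| - 1) |V| ≤ ℓ ^ (2 k) (|V| - 1)`. -/
def HkxStmt : Prop := ∀ (ℓ : ℕ) [Fact ℓ.Prime] (F : Type) [Field F], GoodF ℓ F → ∀ (G : Type)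
  [Group G] [Finite G] (e : G → F) (V : Subgroup G) (γ : G → F), Ld ℓ e V γ → ¬ ℓ ∣ ix V γ →
  ∀ a k : ℕ, 0 < k → 0 < a → Monoid.exponent V = ℓ ^ a → (∃ y, Rk ℓ a 1 V γ y) → Hk ℓ k V γ →
  ix V γ * Nat.card V ≤ ℓ ^ (2 * k) * {u | Rg V γ u}.ncard

/-- HGT: the heights are smaller than `k`.

Proof.  Suppose `vv u χ/ℓ ^ k ∈ RM M` for one regular `u`.  By DCG (`ix` is not `0` in `F`,
`K9.InxStmt`), `vv u χ ρ` and `vv u' χ ρ` are units of `RM M` for all regular `u'`,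
`ρ = |G| c/(|C(V)| χ(1))`, so `vv u' χ/ℓ ^ k ∈ RM M` for all regular `u'`, and `vv u' χ ≠ 0`.  For a
regular `u'` and `ζ` of order `ℓ ^ a` INR gives integers `m_i` with
`vv (u' ^ j) χ = ∑ m_i ζ ^ (i j)` for all `j` prime to `ℓ` (DPW: the local block and the degree are
the same).  NRM (`s = 0`, `h = k`): `∑_j |vv (u' ^ j) χ|² ≥ φ(ℓ ^ a) ℓ ^ (2 k)`, `j < ℓ ^ a` prime to
`ℓ`.  Sum over all regular `u'` (`u' ↦ u' ^ j` is a permutation of them): `∑_u |vv u χ|² ≥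
ℓ ^ (2 k) n ≥ ix |V|`, `n` the number of the regular elements, against SBS. -/
def HgtStmt : Prop := ∀ (ℓ : ℕ) [Fact ℓ.Prime] (M : Ideal (integralClosure ℤ ℂ)) [M.IsMaximal],
  (ℓ : integralClosure ℤ ℂ) ∈ M → ℓ ≠ 2 → ∀ (G : Type) [Group G] [Finite G] (e : G → FF M)
  (V : Subgroup G) (γ : G → FF M) (b : G → G → FF M) (d : G → ℕ) (c : ℕ) (ε : G → ℤ),
  Dat M ℓ e V γ b d c ε → ∀ a k : ℕ, 0 < a → Monoid.exponent V = ℓ ^ a →
  ix V γ * Nat.card V ≤ ℓ ^ (2 * k) * {u | Rg V γ u}.ncard →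
  ∀ χ ∈ IrrE M e, ∀ u, Rg V γ u → vv M b d u χ / ℓ ^ k ∉ RM M

/-! ## 11. Averages -/

/-- AVB: the average over a coset of `V ^ (ℓ ^ k)`.

Proof.  `f(v) = ∑ a_lam lam(v)` with `a_lam ∈ RM M` (RVA, Fourier inversion).  `f(v ^ N) = f(v)` gives
`a_(lam ^ N) = a_lam` (uniqueness of the coefficients; `lam ^ N (v) = lam(v ^ N)`).  The average of
`lam(y w)` over `w ∈ W` is `lam(y)` if `lam` is trivial on `W`, that is if `lam ^ (ℓ ^ k) = 1`, and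
`0` otherwise.  So the average `A` of `f` is the sum of the `a_lam lam(y)` over these `lam`, in `RM M`,
and `f(y) - A` is the sum over the `lam` of order `ℓ ^ m`, `m > k`.  The powers of `N` act on the
elements `v` as all the `v ↦ v ^ j`, `j = 1` modulo `ℓ` (`GS.gen`), so `a_(lam ^ j) = a_lam` for these
`j`, and the sum over the `ℓ ^ (m-1)` characters `lam ^ j`, `j < ℓ ^ m`, `j = 1` modulo `ℓ`, is
`a_lam ∑_j η ^ j`, `η = lam(y)`, which is `a_lam η ℓ ^ (m-1)` if `η ^ ℓ = 1` and `0` otherwise.  It is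
divisible by `ℓ ^ k`. -/
def AvbStmt : Prop := ∀ (ℓ : ℕ) [Fact ℓ.Prime] (M : Ideal (integralClosure ℤ ℂ)) [M.IsMaximal],
  (ℓ : integralClosure ℤ ℂ) ∈ M → ∀ (G : Type) [Group G] [Finite G] (N : ℕ), GS G ℓ N →
  ∀ V : Subgroup G, IsPGroup ℓ V → (∀ a ∈ V, ∀ b ∈ V, a * b = b * a) → ∀ f : G → ℂ, Rv M V f →
  (∀ v ∈ V, f (v ^ N) = f v) → ∀ (k : ℕ) (W : Subgroup G), W = Uw (ℓ ^ k) V → ∀ y ∈ V,
  ((Nat.card W : ℂ)⁻¹ * ∑ᶠ w : W, f (y * w)) ∈ RM M ∧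
  (f y - (Nat.card W : ℂ)⁻¹ * ∑ᶠ w : W, f (y * w)) / ℓ ^ k ∈ RM M

/-- AV1: the averages for a fixed character.

Proof.  `f` from COH.  The elements `y ^ j w` are regular (RKX), so `av (y ^ j) χ` is the average of `f`
over `y ^ j W`.  (i) `GS.gen`: `k'` with `(v ^ j) ^ N ^ k' = v ^ j'` for all `ℓ`-elements `v`.
`w ↦ w ^ N ^ k'` is a bijection of `W` and `f(v ^ N ^ k') = f(v)`.  (ii) AVB.  (iii) If the average is
`0` then `f(y ^ j)/ℓ ^ k = ± vv (y ^ j) χ/ℓ ^ k ∈ RM M` by AVB, against the hypothesis. -/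
def Av1Stmt : Prop := ∀ (ℓ : ℕ) [Fact ℓ.Prime] (M : Ideal (integralClosure ℤ ℂ)) [M.IsMaximal],
  (ℓ : integralClosure ℤ ℂ) ∈ M → ℓ ≠ 2 → ∀ (G : Type) [Group G] [Finite G] (N : ℕ), GS G ℓ N →
  ∀ (e : G → FF M) (V : Subgroup G) (γ : G → FF M) (b : G → G → FF M) (d : G → ℕ) (c : ℕ)
  (ε : G → ℤ), Dat M ℓ e V γ b d c ε → ∀ a k : ℕ, 0 < k → k ≤ a → Monoid.exponent V = ℓ ^ a →
  ∀ y, Rk ℓ a k V γ y → ∀ χ ∈ IrrE M e, (∀ g, χ (g ^ N) = χ g) → ∀ j : ℕ, ¬ ℓ ∣ j →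
  (∀ j' : ℕ, j ≡ j' [MOD ℓ] →
    av M b d ε (Uw (ℓ ^ k) V) (y ^ j) χ = av M b d ε (Uw (ℓ ^ k) V) (y ^ j') χ) ∧
  av M b d ε (Uw (ℓ ^ k) V) (y ^ j) χ ∈ RM M ∧
  ((∀ u, Rg V γ u → vv M b d u χ / ℓ ^ k ∉ RM M) →
    av M b d ε (Uw (ℓ ^ k) V) (y ^ j) χ ≠ 0)

/-- AV2: the averages for a fixed character are in the field of the `ℓ`-th roots of unity.

Proof.  `w ↦ w ^ j` is a bijection of `W`, so `|W| av (y ^ j) χ = ∑_w ε((y w) ^ j) vv((y w) ^ j) χ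
= ∑_w ε(y w) vv((y w) ^ j) χ` (RKX, DPW).  For `u = y w`: INR with `q = ℓ ^ a` (`b (u ^ j) = b u`,
`d (u ^ j) = d u`, `C(u ^ j) = C(u)`): `vv(u ^ j) χ = ∑_{i < ℓ ^ a} m_{w,i} ζ ^ (i j)`, and by
`T2.VjcStmt` this depends only on `j` modulo `ℓ`.  Average over the `ℓ ^ (a-1)` numbers `j + ℓ j'`,
`j' < ℓ ^ (a-1)`: only the `i` divisible by `ℓ ^ (a-1)` remain,
`vv(u ^ j) χ = ∑_{i < ℓ} m_{w, i ℓ ^ (a-1)} ζ ^ (ℓ ^ (a-1) i j)`.  Put
`m_i = ∑_w ε(y w) m_{w, i ℓ ^ (a-1)}`. -/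
def Av2Stmt : Prop := ∀ (ℓ : ℕ) [Fact ℓ.Prime] (M : Ideal (integralClosure ℤ ℂ)) [M.IsMaximal],
  (ℓ : integralClosure ℤ ℂ) ∈ M → ℓ ≠ 2 → ∀ (G : Type) [Group G] [Finite G] (N : ℕ), GS G ℓ N →
  ∀ (e : G → FF M) (V : Subgroup G) (γ : G → FF M) (b : G → G → FF M) (d : G → ℕ) (c : ℕ)
  (ε : G → ℤ), Dat M ℓ e V γ b d c ε → ∀ a k : ℕ, 0 < k → k ≤ a → Monoid.exponent V = ℓ ^ a →
  ∀ y, Rk ℓ a k V γ y → ∀ χ ∈ IrrE M e, (∀ g, χ (g ^ N) = χ g) → ∀ ζ : ℂ,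
  IsPrimitiveRoot ζ (ℓ ^ a) → ∃ m : ℕ → ℤ, ∀ j : ℕ, ¬ ℓ ∣ j →
    Nat.card (Uw (ℓ ^ k) V) * av M b d ε (Uw (ℓ ^ k) V) (y ^ j) χ =
      ∑ i ∈ Finset.range ℓ, (m i : ℂ) * (ζ ^ ℓ ^ (a - 1)) ^ (i * j)

/-- AVO: Bessel's inequality for the averages.

Proof.  `W = V ^ (ℓ ^ k)`; for `i < ℓ ^ (k-1)` let `j_i = j + ℓ i` and `v_i = (av (y ^ (j_i)) χ)_χ` on
`Irr G`.  By DOR the inner product of `vv(y ^ (j_i) w)` and `vv(y ^ (j_i') w')` is `0` if the two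
elements are not conjugate under `T`; if they are, then they are equal and `i = i'`, `w = w'` by RKX
(iii), (iv) (the numbers `j_i` are different modulo `ℓ ^ k`).  So the `v_i` are orthogonal of norm
squared `|W|⁻² |W| |V| = |V|/|W|`.  BES with `c = |V|/|W|` and `s χ = conj (av (y ^ j) χ)` for the fixed
`χ ∈ e`, `0` otherwise: `v_i χ = av (y ^ j) χ` there (AV1), so with the sum `x` of the
`|av (y ^ j) χ|²` over the fixed `χ ∈ e`: `ℓ ^ (k-1) x² ≤ (|V|/|W|) x`. -/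
def AvoStmt : Prop := ∀ (ℓ : ℕ) [Fact ℓ.Prime] (M : Ideal (integralClosure ℤ ℂ)) [M.IsMaximal],
  (ℓ : integralClosure ℤ ℂ) ∈ M → ℓ ≠ 2 → ∀ (G : Type) [Group G] [Finite G] (N : ℕ), GS G ℓ N →
  ∀ (e : G → FF M) (V : Subgroup G) (γ : G → FF M) (b : G → G → FF M) (d : G → ℕ) (c : ℕ)
  (ε : G → ℤ), Dat M ℓ e V γ b d c ε → ∀ a k : ℕ, 0 < k → k ≤ a → Monoid.exponent V = ℓ ^ a →
  ∀ y, Rk ℓ a k V γ y → ∀ j : ℕ, ¬ ℓ ∣ j →
    (ℓ : ℝ) ^ (k - 1) * Nat.card (Uw (ℓ ^ k) V) *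
      ∑ᶠ χ ∈ {χ | χ ∈ IrrE M e ∧ ∀ g, χ (g ^ N) = χ g},
        Complex.normSq (av M b d ε (Uw (ℓ ^ k) V) (y ^ j) χ) ≤ Nat.card V

/-- BN8: the number of the fixed characters.

Proof.  Let `R` be the set of the fixed characters in `e`, `ζ` of order `ℓ ^ a`,
`ζ' = ζ ^ (ℓ ^ (a-1))` of order `ℓ`, `|W| = ℓ ^ s`.  For `χ ∈ R` AV2 and AV1 show that NRM (`a = 1`,
`ζ'`, `s`, `h = 0`) applies: `∑_{0 < j < ℓ} |av (y ^ j) χ|² ≥ ℓ - 1`.  Sum over `χ ∈ R` and use AVO for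
each `j`: `(ℓ - 1) |R| ≤ (ℓ - 1) |V|/(|W| ℓ ^ (k-1))`. -/
def Bn8Stmt : Prop := ∀ (ℓ : ℕ) [Fact ℓ.Prime] (M : Ideal (integralClosure ℤ ℂ)) [M.IsMaximal],
  (ℓ : integralClosure ℤ ℂ) ∈ M → ℓ ≠ 2 → ∀ (G : Type) [Group G] [Finite G] (N : ℕ), GS G ℓ N →
  ∀ (e : G → FF M) (V : Subgroup G) (γ : G → FF M) (b : G → G → FF M) (d : G → ℕ) (c : ℕ)
  (ε : G → ℤ), Dat M ℓ e V γ b d c ε → ∀ a k : ℕ, 0 < k → k ≤ a → Monoid.exponent V = ℓ ^ a →
  ∀ y, Rk ℓ a k V γ y → (∀ χ ∈ IrrE M e, ∀ u, Rg V γ u → vv M b d u χ / ℓ ^ k ∉ RM M) →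
    {χ | χ ∈ IrrE M e ∧ ∀ g, χ (g ^ N) = χ g}.ncard * ℓ ^ (k - 1) *
      Nat.card (Uw (ℓ ^ k) V) ≤ Nat.card V

/-- LB8: the bound for the number of modular characters.

Proof.  `N` from `T2.Pr2Stmt`, the data from DAT.  `T2.FxsStmt` with `T2.StgStmt`: `ln e ≤ |R|`, `R` the
set of the fixed characters in `e`.  HGT: the hypothesis of BN8.  So
`ln e ℓ ^ (k-1) |W| ≤ |V| ≤ ℓ ^ (a + k - 1) |W|`. -/
def Lb8Stmt : Prop := ∀ (ℓ : ℕ) [Fact ℓ.Prime] (M : Ideal (integralClosure ℤ ℂ)) [M.IsMaximal],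
  (ℓ : integralClosure ℤ ℂ) ∈ M → ℓ ≠ 2 → ∀ (G : Type) [Group G] [Finite G] (e : G → FF M)
  (V : Subgroup G) (γ : G → FF M), Ld ℓ e V γ → ∀ a k : ℕ, 0 < k → k ≤ a →
  Monoid.exponent V = ℓ ^ a → (∃ y, Rk ℓ a k V γ y) →
  ix V γ * Nat.card V ≤ ℓ ^ (2 * k) * {u | Rg V γ u}.ncard →
  Nat.card V ≤ ℓ ^ (a + k - 1) * Nat.card (Uw (ℓ ^ k) V) → ln e ≤ ℓ ^ a

end Pool.Agent.PP.T8
end
end -- Pool.Agent.AT8.Stmts3

section -- Pool.Agent.AT8.Stmts4

/-!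
# Squad AT8, part 4: regular vectors, the recursion, the theorem

Text: `AWC_T8.md`.  Complete proofs in the docstrings.
-/

open scoped BigOperators

noncomputable section

namespace Pool.Agent.PP.T8

open Pool.Agent.Helper51_AWC Pool.Agent.Helper79_WRA Pool.Agent.PP Pool.Agent.PP.KF
open Pool.Agent.PP.K9 Pool.Agent.PP.K9.H97 Pool.Agent.PP.H75 Pool.Agent.PP.T3 Pool.Agent.PP.T2

attribute [local instance] Ideal.Quotient.field

/-! ## 12. Regular vectors -/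

/-- CPR: coprime action on an abelian group.

Proof.  Let `m = |S|`, `m m' = 1` modulo `ℓ ^ a`, `π(v) = (∏_{s ∈ S} s v) ^ m'`.  `π` is a
homomorphism, `s π(v) = π(v) = π(s v)` for `s ∈ S`, and `π(v) = v ^ (m m') = v` if `v` is fixed by `S`.
If `g` normalises `S` then `g π(v) = π(g v)`.  If `s v ∈ v V ^ n` for all `s ∈ S` then
`π(v) ∈ v V ^ n`.  Last claim: let `S` act trivially on `V/V ^ ℓ`; so `π(v) ∈ v V ^ ℓ` for all `v`,
`V = π(V) V ^ ℓ`, and by iteration `V = π(V) V ^ (ℓ ^ i)` for all `i`, so `V = π(V)` and `S` acts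
trivially, `S = 1`. -/
def CprStmt : Prop := ∀ (ℓ : ℕ) [Fact ℓ.Prime] (V : Type) [CommGroup V] [Finite V] (a : ℕ),
  Monoid.exponent V = ℓ ^ a → ∀ S : Subgroup (MulAut V), ¬ ℓ ∣ Nat.card S →
  (∃ π : V →* V, (∀ v, ∀ s ∈ S, s (π v) = π v ∧ π (s v) = π v) ∧
    (∀ v, (∀ s ∈ S, s v = v) → π v = v) ∧
    (∀ g : MulAut V, (∀ s ∈ S, g * s * g⁻¹ ∈ S) → ∀ v, g (π v) = π (g v)) ∧
    ∀ (n : ℕ) (v : V), (∀ s ∈ S, ∃ w, s v = v * w ^ n) → ∃ w, π v = v * w ^ n) ∧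
  ((∀ s ∈ S, ∀ v : V, ∃ w, s v = v * w ^ ℓ) → S = ⊥)

/-- RGA: an abelian group `E` of automorphisms of order prime to `ℓ` has a regular vector on
`V/V ^ ℓ`, in addition of order `ℓ ^ a`.

Proof.  For `y : V` let `S(y) = {s ∈ E | s y ∈ y V ^ ℓ}`, a subgroup.  Choose `y` of order `ℓ ^ a` with
`|S(y)|` minimal, `S = S(y)`, and `π` from CPR for `S`; it commutes with all the elements of `E`
(`E` is abelian).  Suppose `S ≠ 1`.  `y₁ = π(y) ∈ y V ^ ℓ` is fixed by `S`, and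
`y₁ ^ (ℓ ^ (a-1)) = y ^ (ℓ ^ (a-1)) ≠ 1`.  By CPR (last claim) there are `v` and `s ∈ S` with
`s v ∉ v V ^ ℓ`; so `π(v) ∉ v V ^ ℓ` (otherwise `s v ∈ s π(v) V ^ ℓ = π(v) V ^ ℓ = v V ^ ℓ`).  Put
`w = v π(v)⁻¹ ∉ V ^ ℓ`, `π(w) = 1`, and `y' = y₁ w`.  `π(y' ^ (ℓ ^ (a-1))) = y₁ ^ (ℓ ^ (a-1)) ≠ 1`, so
`y'` has order `ℓ ^ a`.  Let `g ∈ S(y')`: `g y' ∈ y' V ^ ℓ`, apply `π`: `g y₁ ∈ y₁ V ^ ℓ` so
`g ∈ S`, and then `g w ∈ w V ^ ℓ`.  If all `g ∈ S` were in `S(y')` then `π(w) ∈ w V ^ ℓ` (CPR), but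
`π(w) = 1` and `w ∉ V ^ ℓ`.  So `|S(y')| < |S|`, a contradiction. -/
def RgaStmt : Prop := ∀ (ℓ : ℕ) [Fact ℓ.Prime] (V : Type) [CommGroup V] [Finite V] (a : ℕ),
  0 < a → Monoid.exponent V = ℓ ^ a → ∀ E : Subgroup (MulAut V), ¬ ℓ ∣ Nat.card E →
  (∀ s ∈ E, ∀ t ∈ E, s * t = t * s) →
  ∃ y : V, orderOf y = ℓ ^ a ∧ ∀ s ∈ E, ∀ v : V, s y = y * v ^ ℓ → s = 1

/-- RGS: the same if the order of `E` is smaller than `ℓ`.

Proof.  For `s ∈ E`, `s ≠ 1`, the `y` with `s y ∈ y V ^ ℓ` form a proper subgroup of `V` (CPR, last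
claim, for the group generated by `s`), with at most `|V|/ℓ` elements; the elements of order less
than `ℓ ^ a` also.  Together at most `|E| |V|/ℓ < |V|` elements. -/
def RgsStmt : Prop := ∀ (ℓ : ℕ) [Fact ℓ.Prime] (V : Type) [CommGroup V] [Finite V] (a : ℕ),
  0 < a → Monoid.exponent V = ℓ ^ a → ∀ E : Subgroup (MulAut V), Nat.card E < ℓ →
  ∃ y : V, orderOf y = ℓ ^ a ∧ ∀ s ∈ E, ∀ v : V, s y = y * v ^ ℓ → s = 1

/-- RGB: two generators, regular vectors modulo `V ^ (ℓ ^ 2)`.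

Proof.  Let `Φ = V ^ ℓ`, `|V/Φ| ≤ ℓ ^ 2`.  Choose `u` of order `ℓ ^ a`, `S = {s ∈ E | s u ∈ u Φ}`, `π`
from CPR for `S`, `u' = π(u) ∈ u Φ`, fixed by `S`, of order `ℓ ^ a`
(`u' ^ (ℓ ^ (a-1)) = u ^ (ℓ ^ (a-1))`).  If `S = 1` take `y = u'` (`v ^ (ℓ ^ 2) ∈ Φ`).  Let `S ≠ 1`,
`C` the image and `K` the kernel of `π`, `V = C × K`; `u' ∈ C`, `K ≠ 1` (`S` acts faithfully).  Since
`|V/Φ| ≤ ℓ ^ 2` and `C`, `K ≠ 1`: `C` and `K` are cyclic, `C = ⟨u'⟩`, `K = ⟨w⟩`.  `S` stabilises `K`.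
Case A: `w ^ ℓ ≠ 1`.  `y = u' w ^ ℓ`; `y ^ (ℓ ^ (a-1)) = u' ^ (ℓ ^ (a-1)) ≠ 1`.  Let `s ∈ E`,
`s y = y v ^ (ℓ ^ 2)`.  `s u ∈ s y Φ = y Φ = u Φ`, so `s ∈ S`, `s u' = u'`, `s w = w ^ μ`, and
`w ^ (ℓ (μ - 1)) = v ^ (ℓ ^ 2)`, which is the `ℓ ^ 2`-th power of an element of `K` (project to `K`).
As the order of `w` is divisible by `ℓ ^ 2`, `ℓ ∣ μ - 1`.  So `s` acts trivially on `V/Φ`, `s = 1`
(CPR, last claim, for the group generated by `s`).
Case B: `w ^ ℓ = 1`.  `y = u' w`, `y ^ (ℓ ^ (a-1)) = u' ^ (ℓ ^ (a-1)) ≠ 1` (`a ≥ 2`).  Let `s ∈ E`,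
`s y ∈ y Φ`.  `Ω = {v | v ^ (ℓ ^ (a-1)) = 1} = Φ ⟨w⟩` is stable under `E`, so all `g ∈ E` act on the
groups `Ω/Φ`, `V/Ω` of order `ℓ`, as powers.  Let `s₁ ∈ S`, `s₁ ≠ 1`: `s₁ u' = u'`, `s₁ w ∈ w ^ μ₁ Φ`,
`μ₁ ≠ 1` modulo `ℓ` (otherwise `s₁ = 1` by CPR).  The commutator `c` of `s` and `s₁` acts trivially
on `Ω/Φ` and on `V/Ω`, so `c ^ ℓ` acts trivially on `V/Φ`, so `c ^ ℓ = 1` and `c = 1` (its order
is prime to `ℓ`).  `s u' ∈ u' ^ α w ^ β Φ`, `s w ∈ w ^ μ Φ`.  `s₁ s u' = s s₁ u' = s u'` gives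
`β μ₁ = β`, `β = 0` modulo `ℓ`.  `s y ∈ y Φ` gives `α = 1`, `μ = 1`.  So `s` acts trivially on `V/Φ`,
`s = 1`. -/
def RgbStmt : Prop := ∀ (ℓ : ℕ) [Fact ℓ.Prime] (V : Type) [CommGroup V] [Finite V] (a : ℕ),
  2 ≤ a → Monoid.exponent V = ℓ ^ a → (∃ x y : V, (⊤ : Subgroup V) = Subgroup.closure {x, y}) →
  ∀ E : Subgroup (MulAut V), ¬ ℓ ∣ Nat.card E →
  ∃ y : V, orderOf y = ℓ ^ a ∧ ∀ s ∈ E, ∀ v : V, s y = y * v ^ ℓ ^ 2 → s = 1

/-- RTR: regular elements modulo `V ^ ℓ`, modulo `V ^ (ℓ ^ 2)`.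

Proof.  `V` is a commutative group, `E` the image of `T = Tg V γ` in its automorphism group
(`T ≤ N(V)`, conjugation), with kernel `C(V)`, so `|E| = ix V γ`.  (i) RGA, RGS.  If `T` acts freely:
let `y` be of order `ℓ ^ a` and `t y t⁻¹ = y v ^ ℓ`, `t ∈ T`.  `m = ix V γ` is prime to `ℓ` and
`t ^ m ∈ C(V)`.  `y' = ∏_{i < m} t ^ i y t ^ (-i)` commutes with `t` and is in `y ^ m V ^ ℓ`.  If
`y' = 1` then `y ∈ V ^ ℓ` and `y ^ (ℓ ^ (a-1)) = 1`, a contradiction.  So `t ∈ C(V)`.  (ii) RGB. -/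
def RtrStmt : Prop := ∀ (ℓ : ℕ) [Fact ℓ.Prime] (F : Type) [Field F], GoodF ℓ F → ∀ (G : Type)
  [Group G] [Finite G] (e : G → F) (V : Subgroup G) (γ : G → F), Ld ℓ e V γ → ¬ ℓ ∣ ix V γ →
  ∀ a : ℕ, Monoid.exponent V = ℓ ^ a →
  (0 < a → Ei ℓ V γ → ∃ y, Rk ℓ a 1 V γ y) ∧
  (2 ≤ a → (∃ x y : G, V = Subgroup.closure {x, y}) → ∃ y, Rk ℓ a 2 V γ y)

/-- LFR: the bound for free inertial quotients (block F, `StmtsF.lean`, written by helper57; to be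
used as a hypothesis). -/
def LfrStmt : Prop := ∀ (ℓ : ℕ) [Fact ℓ.Prime] (M : Ideal (integralClosure ℤ ℂ)) [M.IsMaximal],
  (ℓ : integralClosure ℤ ℂ) ∈ M → ℓ ≠ 2 → ∀ (G : Type) [Group G] [Finite G] (e : G → FF M)
  (V : Subgroup G) (γ : G → FF M), Ld ℓ e V γ → V ≠ ⊥ → Fr V γ → ln e ≤ ix V γ

/-- LT8: the bound for the types of defect groups.

Proof.  `K9.InxStmt`.  If `Ta ℓ a k`: RTR gives `y` with `Rk ℓ a 1`, so also `Rk ℓ a k`
(`v ^ (ℓ ^ k)` is an `ℓ`-th power of an element of `V`); HKX and LB8.  If `Tb ℓ a`: RTR gives `y`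
with `Rk ℓ a 2`; `|V/V ^ (ℓ ^ 2)| ≤ ℓ ^ 4` (two generators, exponent dividing `ℓ ^ 2`), so
`ix |V| ≤ ix ℓ ^ 4 |V ^ (ℓ ^ 2)| ≤ ℓ ^ 4 n` by XCT (`n` the number of the regular elements), and
`4 ≤ a + 1`; LB8 with `k = 2`.  If `Tf ℓ a`: LFR (`V ≠ ⊥` as `a > 0`). -/
def Lt8Stmt : Prop := ∀ (ℓ : ℕ) [Fact ℓ.Prime] (M : Ideal (integralClosure ℤ ℂ)) [M.IsMaximal],
  (ℓ : integralClosure ℤ ℂ) ∈ M → ℓ ≠ 2 → ∀ (G : Type) [Group G] [Finite G] (e : G → FF M)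
  (V : Subgroup G) (γ : G → FF M), Ld ℓ e V γ → ∀ a : ℕ, Ty8 ℓ a V γ → ln e ≤ ℓ ^ a

/-! ## 13. Quotients of defect groups -/

/-- FQT: properties of `Fq`.

Proof.  (i) Composition: `t''` is induced by `t' ∈ Tg V' γ'`, which is induced by `t ∈ Tg V γ`.
(ii) `π(v) = g v g⁻¹`, `Tg (conjS g V) (cj g γ) = g (Tg V γ) g⁻¹`.  (iii) `π` = identity;
`Tg V γ ≤ N(V) ≤ X` (`Fs.nle`) and the inertial group in `X = N(U)` is `(Tg V γ).subgroupOf X`.
(iv) `V ≤ N(Q)` (`V` is abelian, `Q ≤ V`), `π(v) = p(n v n⁻¹)`, surjective as `n V n⁻¹ = V`. -/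
def FqtStmt : Prop := ∀ (ℓ : ℕ) [Fact ℓ.Prime] (F : Type) [Field F], GoodF ℓ F → ∀ (G : Type)
  [Group G] [Finite G] (e : G → F) (V : Subgroup G) (γ : G → F), Ld ℓ e V γ →
  (∀ (A B : Type) [Group A] [Group B] (V' : Subgroup A) (γ' : A → F) (V'' : Subgroup B)
    (γ'' : B → F), Fq V γ V' γ' → Fq V' γ' V'' γ'' → Fq V γ V'' γ'') ∧
  (∀ g : G, Fq V γ (conjS g V) (cj g γ)) ∧
  (∀ (U : Subgroup G) (f : G → F), Fs ℓ e V U γ f →
    Fq V γ (V.subgroupOf (Subgroup.normalizer (U : Set G)))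
      (fun t : Subgroup.normalizer (U : Set G) => γ t)) ∧
  ∀ (Q : Subgroup G), Q ≤ V → ∀ (A : Type) [Group A] (p : Subgroup.normalizer (Q : Set G) →* A)
    (γ' : A → F),
    Fe V Q γ p ((V.subgroupOf (Subgroup.normalizer (Q : Set G))).map p) γ' →
    Fq V γ ((V.subgroupOf (Subgroup.normalizer (Q : Set G))).map p) γ'

/-- TC8: the types are closed under quotients.

Proof.  `π : V → V'` surjective.  `V/V ^ n → V'/V' ^ n` is surjective, which gives the inequality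
`sz` and the first case of `Hk`; two generators map to two generators.  `Ei`: (1) abelian: if `t'`, `s'` are induced by
`t`, `s`, then the commutator of `t'`, `s'` acts on `π(v)` as the commutator of `t`, `s` on `v`.
(2) `ix V' γ' ≤ ix V γ`: choose for every coset of `C(V')` in `T'` an element `t'` and `t ∈ T` which
induces it; if two of them have the same coset `t C(V)`, then they act in the same way on `V'`.
(3) Let `T` act freely, `t' ∈ T'`, `v' = π(v) ≠ 1` commuting with `t'`, `t ∈ T` inducing `t'`,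
`m = ix V γ`, `t ^ m ∈ C(V)`.  `v₁ = ∏_{i < m} t ^ i v t ^ (-i)` commutes with `t` and `π(v₁) = v' ^ m`
(as `π(t v t⁻¹) = π(v)`) is not `1` (`m` is prime to `ℓ`, `V'` is an `ℓ`-group), so `v₁ ≠ 1`,
`t ∈ C(V)`, so `t'` centralises `V' = π(V)`. -/
def Tc8Stmt : Prop := ∀ (ℓ : ℕ) [Fact ℓ.Prime] (F : Type) [Field F], GoodF ℓ F → ∀ (G A : Type)
  [Group G] [Finite G] [Group A] [Finite A] (e : G → F) (V : Subgroup G) (γ : G → F)
  (f : A → F) (V' : Subgroup A) (γ' : A → F), Ld ℓ e V γ → Ld ℓ f V' γ' → ¬ ℓ ∣ ix V γ →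
  ∀ a : ℕ, Ty8 ℓ a V γ → Monoid.exponent V' = ℓ ^ a → Fq V γ V' γ' → Ty8 ℓ a V' γ'

/-- QT3: the inertial group of the blocks of `N(Q)/Q`.

Proof.  See the proof of `T3.Qt2Stmt` (`Helper43_AT3/QT2.lean`).  With the notation there: every
`t' ∈ T' = Tg V' γ'` is `c' p(x)`, `c' ∈ C_A(V')`, `x ∈ N(Q) ∩ N(V) ∩ stab γ_i`, where `γ_i` is a
block of `C(V)` under `e`, so `γ_i = cj n γ` with `n ∈ N(V)` (`K9.OrbStmt`, as in GCH).
`t = n⁻¹ x n ∈ Tg V γ`, and for `v ∈ V`: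
`t' p(n v n⁻¹) t'⁻¹ = p(x n v n⁻¹ x⁻¹) = p(n t v t⁻¹ n⁻¹)`. -/
def Qt3Stmt : Prop := ∀ (ℓ : ℕ) [Fact ℓ.Prime] (M : Ideal (integralClosure ℤ ℂ)) [M.IsMaximal],
  (ℓ : integralClosure ℤ ℂ) ∈ M → ∀ (G : Type) [Group G] [Finite G] (e : G → FF M)
  (V : Subgroup G) (γ : G → FF M), Ld ℓ e V γ → ∀ Q : Subgroup G, Q ≤ V → ∀ (A : Type)
  [Group A] [Finite A] (p : Subgroup.normalizer (Q : Set G) →* A), Function.Surjective p →
  p.ker = Q.subgroupOf (Subgroup.normalizer (Q : Set G)) → ∀ f : A → FF M, IsBlk f →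
  mulF (push p (fun t : Subgroup.normalizer (Q : Set G) => br Q e t)) f = f →
  Tp ℓ f ((V.subgroupOf (Subgroup.normalizer (Q : Set G))).map p) →
  ∃ γ' : A → FF M, Ld ℓ f ((V.subgroupOf (Subgroup.normalizer (Q : Set G))).map p) γ' ∧
    Fe V Q γ p ((V.subgroupOf (Subgroup.normalizer (Q : Set G))).map p) γ'

/-! ## 14. The recursion -/

/-- TY8: the blocks of `N(Q)/Q` which are not over a conjugate of `(U, f)`.

Proof.  As `T2.TyaStmt` (`Helper65_AT2/TYA.lean`) with QT3 instead of QT2; `Fq` by FQT (ii), (iv),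
(i). -/
def Ty8aStmt : Prop := ∀ (ℓ : ℕ) [Fact ℓ.Prime] (M : Ideal (integralClosure ℤ ℂ)) [M.IsMaximal],
  (ℓ : integralClosure ℤ ℂ) ∈ M → ∀ (G : Type) [Group G] [Finite G] (e : G → FF M)
  (V : Subgroup G) (γ : G → FF M), Ld ℓ e V γ → ∀ a : ℕ, 0 < a → Monoid.exponent V = ℓ ^ a →
  ∀ f : G → FF M, Fs ℓ e V (Uw (ℓ ^ (a - 1)) V) γ f → ∀ Q : Subgroup G, IsPGroup ℓ Q →
  ∀ (A : Type) [Group A] [Finite A] (p : Subgroup.normalizer (Q : Set G) →* A),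
  Function.Surjective p → p.ker = Q.subgroupOf (Subgroup.normalizer (Q : Set G)) →
  ∀ f₁ : A → FF M, IsBlk f₁ →
  mulF (push p (fun t : Subgroup.normalizer (Q : Set G) => br Q e t)) f₁ = f₁ →
  (∀ g : G, conjS g (Uw (ℓ ^ (a - 1)) V) ≤ Q →
    mulF (push p (fun t : Subgroup.normalizer (Q : Set G) => br Q (cj g f) t)) f₁ = 0) →
  ∃ (V' : Subgroup A) (γ' : A → FF M), Ld ℓ f₁ V' γ' ∧ Monoid.exponent V' = ℓ ^ a ∧
    Fq V γ V' γ'

/-- TE8: as `T2.TeaStmt` (`Helper25_AT2/TEA.lean`), with TY8 and `Iq`. -/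
def Te8Stmt : Prop := ∀ (ℓ : ℕ) [Fact ℓ.Prime] (M : Ideal (integralClosure ℤ ℂ)) [M.IsMaximal],
  (ℓ : integralClosure ℤ ℂ) ∈ M → ∀ (G : Type) [Group G] [Finite G] (e : G → FF M)
  (V : Subgroup G) (γ : G → FF M), Ld ℓ e V γ → ∀ a : ℕ, 0 < a → Monoid.exponent V = ℓ ^ a →
  ∀ f : G → FF M, Fs ℓ e V (Uw (ℓ ^ (a - 1)) V) γ f →
  Iq M ℓ a (Nat.card G) V γ → ∀ Q : Subgroup G, IsPGroup ℓ Q → Q ≠ ⊥ →
  YQ ℓ e Q = YY ℓ ⊤ (push (QuotientGroup.mk' (Q.subgroupOf (Subgroup.normalizer (Q : Set G))))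
    (fun t : Subgroup.normalizer (Q : Set G) => brU (Uw (ℓ ^ (a - 1)) V) Q f t))

/-- TX8: as `T2.TexStmt` (`Helper86_AT2/TEX.lean`), with QT3, `Fq` by FQT (for `X`: (ii), (iv); from
`G` to `X`: (iii); (i)). -/
def Tx8Stmt : Prop := ∀ (ℓ : ℕ) [Fact ℓ.Prime] (M : Ideal (integralClosure ℤ ℂ)) [M.IsMaximal],
  (ℓ : integralClosure ℤ ℂ) ∈ M → ∀ (G : Type) [Group G] [Finite G] (e : G → FF M)
  (V : Subgroup G) (γ : G → FF M), Ld ℓ e V γ → ∀ a : ℕ, 0 < a → Monoid.exponent V = ℓ ^ a →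
  ∀ U : Subgroup G, U = Uw (ℓ ^ (a - 1)) V → ∀ f : G → FF M, Fs ℓ e V U γ f →
  Iq M ℓ a (Nat.card G) V γ → ∀ Q : Subgroup (Subgroup.normalizer (U : Set G)),
  IsPGroup ℓ Q → Q ≠ ⊥ →
  ¬ (U.subgroupOf (Subgroup.normalizer (U : Set G)) ≤ Q ∧
    Q ≤ (Subgroup.centralizer (U : Set G)).subgroupOf (Subgroup.normalizer (U : Set G))) →
  YQ ℓ (fun t : Subgroup.normalizer (U : Set G) => f t) Q = 0

/-- TS8: as `T2.TesStmt` (`Helper23_AT2/TES.lean`), with TE8, TX8 (and `T2.TebStmt`). -/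
def Ts8Stmt : Prop := ∀ (ℓ : ℕ) [Fact ℓ.Prime] (M : Ideal (integralClosure ℤ ℂ)) [M.IsMaximal],
  (ℓ : integralClosure ℤ ℂ) ∈ M → ∀ (G : Type) [Group G] [Finite G] (e : G → FF M)
  (V : Subgroup G) (γ : G → FF M), Ld ℓ e V γ → ∀ a : ℕ, 0 < a → Monoid.exponent V = ℓ ^ a →
  ∀ U : Subgroup G, U = Uw (ℓ ^ (a - 1)) V → ∀ f : G → FF M, Fs ℓ e V U γ f →
  Iq M ℓ a (Nat.card G) V γ →
  YY ℓ ⊤ e = (Nat.card G : ℤ) *
    ((ln e : ℤ) - (ln (fun t : Subgroup.normalizer (U : Set G) => f t) : ℤ))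

/-! ## 15. The theorem -/

/-- T8A: the main theorem for block idempotents.

Proof.  Induction on `|G|`.  If `opCore ℓ G ≠ ⊥`: `YzrStmt`.  Let `opCore ℓ G = ⊥`.  `Iq` holds by
induction and TC8 (`K9.InxStmt`).  `T2.FstStmt`: `f`; TS8: `YY ⊤ e = |G| (ln e - ln f_X)`.
`1 ≤ ln e, ln f_X ≤ ℓ ^ a` (`K9.LbdStmt`; LT8 for `G` and for `X = N(U)`, `f_X`, `V_X`: type by FQT
(iii), TC8, `V_X ≅ V`).  The rest is as in `T2.T2aStmt` (`Helper92_AT2/T2A.lean`): DVX gives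
`ℓ ^ a ∣ ln e - ln f_X`. -/
def T8aStmt : Prop := ∀ (ℓ : ℕ) [Fact ℓ.Prime] (M : Ideal (integralClosure ℤ ℂ)) [M.IsMaximal],
  (ℓ : integralClosure ℤ ℂ) ∈ M → ℓ ≠ 2 → ∀ (a : ℕ) (G : Type) [Group G] [Finite G]
  (e : G → FF M) (V : Subgroup G) (γ : G → FF M), Ld ℓ e V γ → Ty8 ℓ a V γ → YY ℓ ⊤ e = 0

/-- The inertial quotient acts freely on `D/O_ℓ(G)`: the elements of the inertial group which are
not in `C(D)` have their fixed points in `D` in `O_ℓ(G)`. -/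
def Fd (ℓ : ℕ) (M : Ideal (integralClosure ℤ ℂ)) {G : Type} [Group G] [Finite G] (D : Subgroup G)
    (th : Subgroup.centralizer (D : Set G) → ℂ) : Prop :=
  ∀ t ∈ Iner M D th, ∀ v ∈ D, v ∉ opCore ℓ G → t * v = v * t →
    t ∈ Subgroup.centralizer (D : Set G)

/-- the order of the inertial quotient is less than `n` -/
def In (M : Ideal (integralClosure ℤ ℂ)) {G : Type} [Group G] [Finite G] (D : Subgroup G)
    (th : Subgroup.centralizer (D : Set G) → ℂ) (n : ℕ) : Prop :=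
  (Iner M D th).ncard < n * Nat.card (Subgroup.centralizer (D : Set G))

/-- FN8: the final theorem.

Proof.  `Z = opCore ℓ G`, `e` the block of `χ` (`H50.bid`), `f = push p e`.
`H75.altSum_central`: `|G| altSum χ = |Z|² YY ℓ ⊤ f`.  FLT: `γ` with `Ld ℓ e D γ`,
`Tg D γ = Iner M D th`.  `T2.DzaStmt`: `f` is a block, `Z ≤ D`, `D.map p` is a defect group of `f`
(`Ld.tp`).  QT3 for `Q = Z` (`N(Z) = G`, `br_Z(e) = e`; see `Helper66_AT3/Fnt.lean` and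
`Helper69_AT2/Fn3.lean` for the identification): `γ'` with `Ld ℓ f (D.map p) γ'` and `Fe`.  In the
first case `Ta ℓ a k (D.map p) γ'`, in the second case `Tb ℓ a (D.map p)`, in the third case
`Tf ℓ a (D.map p) γ'`: as in TC8, `Tg (D.map p) γ'` is abelian modulo the centraliser if `Iner` is,
and `ix (D.map p) γ' ≤ ix D γ = |Iner| / |C(D)|`.  `Fr` from `Fd`: let `t' ∈ Tg (D.map p) γ'` commute
with `v' ≠ 1`, `v' = p(n v n⁻¹)`, `t ∈ Tg D γ` inducing `t'` (`Fe`), `m = ix D γ` (prime to `ℓ`),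
`t ^ m ∈ C(D)`, `v₁ = ∏_{i < m} t ^ i v t ^ (-i)`: `t` commutes with `v₁`, and
`p(n v₁ n⁻¹) = v' ^ m ≠ 1`, so `v₁ ∉ Z` and `t ∈ C(D)`, so `t'` centralises `D.map p`.  T8A. -/
def Fn8Stmt : Prop := ∀ (ℓ : ℕ) [Fact ℓ.Prime] (M : Ideal (integralClosure ℤ ℂ)) [M.IsMaximal],
  (ℓ : integralClosure ℤ ℂ) ∈ M → ℓ ≠ 2 → ∀ (G : Type) [Group G] [Finite G],
  opCore ℓ G ≤ Subgroup.center G → ∀ χ ∈ Irr G, ∀ D : Subgroup G, ML.IsDef ℓ M χ D →
  (∀ x ∈ D, ∀ y ∈ D, x * y = y * x) →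
  ∀ th ∈ IrrBlock M (Subgroup.centralizer (D : Set G)).subtype χ,
  ∀ (A : Type) [Group A] [Finite A] (p : G →* A), Function.Surjective p → p.ker = opCore ℓ G →
  ∀ a : ℕ, Monoid.exponent (D.map p) = ℓ ^ a →
  ((∃ k : ℕ, 0 < k ∧ k ≤ a ∧
      (Nat.card (D.map p) ≤ ℓ ^ (2 * k) * Nat.card (Uw ℓ (D.map p)) ∨ In M D th ℓ ∨
        (In M D th (ℓ ^ (2 * k)) ∧ Fd ℓ M D th)) ∧
      Nat.card (D.map p) ≤ ℓ ^ (a + k - 1) * Nat.card (Uw (ℓ ^ k) (D.map p)) ∧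
      ((∀ s ∈ Iner M D th, ∀ t ∈ Iner M D th,
        s * t * s⁻¹ * t⁻¹ ∈ Subgroup.centralizer (D : Set G)) ∨ In M D th ℓ ∨ Fd ℓ M D th)) ∨
    (3 ≤ a ∧ ∃ x y : A, D.map p = Subgroup.closure {x, y}) ∨
    (0 < a ∧ Fd ℓ M D th ∧ In M D th (ℓ ^ a + 1))) → altSum ℓ M χ = 0

end Pool.Agent.PP.T8
end
end -- Pool.Agent.AT8.Stmts4

section -- Pool.Agent.Helper32_AT8.AV1

/-!
# Squad AT8, row AV1: the averages for a fixed character
-/

open scoped BigOperators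

set_option linter.unusedSectionVars false

noncomputable section

namespace Pool.Agent.PP.T8.H32

open Pool.Agent.Helper51_AWC Pool.Agent.Helper79_WRA Pool.Agent.PP Pool.Agent.PP.KF
open Pool.Agent.PP.K9 Pool.Agent.PP.K9.H97 Pool.Agent.PP.H75 Pool.Agent.PP.T3 Pool.Agent.PP.T2

attribute [local instance] Ideal.Quotient.field

/-- AV1 -/
theorem av1 (hCOH : CohStmt) (hAVB : AvbStmt) (hRKX : RkxStmt) (hPWU : PwuStmt)
    (hINX : K9.InxStmt) : Av1Stmt := by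
  classical
  intro ℓ hℓ M hM1 hM h2 G _ _ N hN e V γ b d c ε hD a k hk hka hexp y hy χ hχ hχN j hj
  have hp : ℓ.Prime := Fact.out
  have hF : GoodF ℓ (FF M) := H50.fld ℓ Fact.out M hM
  have hL := hD.ld
  have hV : IsPGroup ℓ V := hL.tp.1
  have hab := hL.ab
  have hix : ¬ ℓ ∣ ix V γ :=
    hINX ℓ M hM G e hL.blk V hL.tp hab γ hL.gam.supp hL.gam.blk hL.und
  obtain ⟨f, hfR, hfu, hfN⟩ := hCOH ℓ M hM h2 G N hN e V γ b d c ε hD χ hχ.1
  have hfN := hfN hχN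
  obtain ⟨hR1, -⟩ := hRKX ℓ (FF M) hF G e V γ hL hix a k hk hka hexp y hy
  obtain ⟨hWV, -⟩ : Uw (ℓ ^ k) V ≤ V ∧ True := ⟨(hPWU G (ℓ ^ k) V hab).2.1, trivial⟩
  -- the elements `y ^ j w` are regular
  have hreg : ∀ j : ℕ, ¬ ℓ ∣ j → ∀ w ∈ Uw (ℓ ^ k) V, Rg V γ (y ^ j * w) := by
    intro j hj w hw
    exact ((hRKX ℓ (FF M) hF G e V γ hL hix a k hk hka hexp _ (hR1 j hj)).2.1 w hw).1
  have hav : ∀ j : ℕ, ¬ ℓ ∣ j → av M b d ε (Uw (ℓ ^ k) V) (y ^ j) χ =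
      (Nat.card (Uw (ℓ ^ k) V) : ℂ)⁻¹ * ∑ᶠ w : Uw (ℓ ^ k) V, f (y ^ j * w) := by
    intro j hj
    unfold av
    congr 1
    refine finsum_congr fun w => ?_
    rw [hfu _ (hreg j hj w w.2)]
  have hyj : ∀ j : ℕ, y ^ j ∈ V := fun j => V.pow_mem hy.mem j
  have hB := hAVB ℓ M hM G N hN V hV hab f hfR hfN k (Uw (ℓ ^ k) V) rfl (y ^ j) (hyj j)
  refine ⟨?_, ?_, ?_⟩
  · intro j' hjj
    have hj' : ¬ ℓ ∣ j' := fun h => hj ((hjj.dvd_iff (dvd_refl ℓ)).2 h)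
    rw [hav j hj, hav j' hj']
    congr 1
    obtain ⟨k', hk'⟩ := hN.gen j j' hj hjj
    have hEl : El ℓ y := by
      obtain ⟨n, hn⟩ := hV ⟨y, hy.mem⟩
      exact ⟨n, congrArg Subtype.val hn⟩
    have hyk := hk' y hEl
    -- iterate the power map
    have hfK : ∀ m : ℕ, ∀ v ∈ V, f (v ^ N ^ m) = f v := by
      intro m
      induction m with
      | zero => intro v _; simp
      | succ m ih =>
        intro v hv
        rw [pow_succ, pow_mul, hfN _ (V.pow_mem hv _), ih v hv]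
    have hcop : (Nat.card (Uw (ℓ ^ k) V)).Coprime (N ^ k') := by
      have h1 : N.Coprime (Nat.card (Uw (ℓ ^ k) V)) :=
        Nat.Coprime.coprime_dvd_right (Subgroup.card_subgroup_dvd_card _) hN.cop
      exact (Nat.Coprime.pow_left k' h1).symm
    rw [← finsum_comp_equiv (powCoprime hcop) (f := fun w : Uw (ℓ ^ k) V => f (y ^ j' * w))]
    refine finsum_congr fun w => ?_
    have hwV : (w : G) ∈ V := hWV w.2
    have e1 : ((powCoprime hcop w : Uw (ℓ ^ k) V) : G) = (w : G) ^ N ^ k' := rfl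
    rw [e1, ← hyk]
    have hc : Commute (y ^ j) (w : G) := hab _ (hyj j) _ hwV
    rw [← hc.mul_pow, hfK k' _ (V.mul_mem (hyj j) hwV)]
  · rw [hav j hj]
    exact hB.1
  · intro hno h0
    rw [hav j hj] at h0
    have h3 := hB.2
    rw [h0, sub_zero] at h3
    have hr : Rg V γ (y ^ j) := by
      have := hreg j hj 1 (Subgroup.one_mem _)
      rwa [mul_one] at this
    rw [hfu _ hr] at h3
    apply hno _ hr
    rcases hD.sg _ hr with h | h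
    · rw [h] at h3
      simpa using h3
    · rw [h] at h3
      have h4 := neg_mem h3
      have e2 : -(((-1 : ℤ) : ℂ) * vv M b d (y ^ j) χ / (ℓ : ℂ) ^ k) =
          vv M b d (y ^ j) χ / (ℓ : ℂ) ^ k := by
        push_cast
        ring
      rwa [e2] at h4

end Pool.Agent.PP.T8.H32
end
end -- Pool.Agent.Helper32_AT8.AV1

section -- Pool.Agent.Helper76_AT8.LB8

/-!
# Squad AT8, row LB8: the bound for the number of modular characters
-/

open scoped BigOperators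

noncomputable section

namespace Pool.Agent.PP.T8.H76

open Pool.Agent.Helper51_AWC Pool.Agent.Helper79_WRA Pool.Agent.PP Pool.Agent.PP.KF
open Pool.Agent.PP.K9 Pool.Agent.PP.K9.H97 Pool.Agent.PP.H75 Pool.Agent.PP.T3 Pool.Agent.PP.T2

attribute [local instance] Ideal.Quotient.field

theorem lb8 (hPR : Pr2Stmt) (hFX : FxsStmt) (hST : StgStmt) (hDA : DatStmt) (hHG : HgtStmt)
    (hBN : Bn8Stmt) : Lb8Stmt := by
  intro ℓ _ M _ hM h2 G _ _ e V γ hL a k hk hka hexp hy hix hsz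
  have hpr : ℓ.Prime := Fact.out
  have ha : 0 < a := lt_of_lt_of_le hk hka
  obtain ⟨N, hN⟩ := hPR ℓ h2 G
  obtain ⟨b, d, c, ε, hD⟩ := hDA ℓ M hM G e V γ hL
  have h3 := hFX ℓ M hM G N hN e hL.blk.1 (fun y hy hy2 b hb heb g hg =>
    hST ℓ M hM G N hN e V γ hL y hy hy2 b hb heb g hg)
  obtain ⟨y, hyk⟩ := hy
  have h4 := hHG ℓ M hM h2 G e V γ b d c ε hD a k ha hexp hix
  have h5 := hBN ℓ M hM h2 G N hN e V γ b d c ε hD a k hk hka hexp y hyk h4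
  obtain ⟨W, hW⟩ : ∃ W : ℕ, W = Nat.card (Uw (ℓ ^ k) V) := ⟨_, rfl⟩
  rw [← hW] at h5 hsz
  have hWpos : 0 < W := by
    rw [hW]
    exact Nat.card_pos
  have h6 : ln e * (ℓ ^ (k - 1) * W) ≤ ℓ ^ a * (ℓ ^ (k - 1) * W) := by
    calc ln e * (ℓ ^ (k - 1) * W) ≤ _ * (ℓ ^ (k - 1) * W) := Nat.mul_le_mul_right _ h3
      _ = _ := (mul_assoc _ _ _).symm
      _ ≤ Nat.card V := h5
      _ ≤ ℓ ^ (a + k - 1) * W := hsz
      _ = ℓ ^ a * (ℓ ^ (k - 1) * W) := by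
        rw [← mul_assoc, ← pow_add]
        congr 2
        omega
  exact Nat.le_of_mul_le_mul_right h6 (Nat.mul_pos (pow_pos hpr.pos _) hWpos)

end Pool.Agent.PP.T8.H76
end
end -- Pool.Agent.Helper76_AT8.LB8
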