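import Pool.Agent.Helper12_AWB.B056
import Pool.Agent.Helper12_AWB.B115

/-!
# Merged copies (generated) of the modules

* `Pool.Agent.Helper2_AT8.CSQ`
* `Pool.Agent.Helper62_AT3.LCJ`
* `Pool.Agent.Helper86_AT8.TX8`
* `Pool.Agent.Helper86_AT2.TEX`
* `Pool.Agent.Helper99_AT8.AVO`
-/

set_option autoImplicit false

section -- Pool.Agent.Helper2_AT8.CSQ

/-! # AT8, row CSQ -/

open scoped BigOperators

noncomputable section

namespace Pool.Agent.PP.T8.H2

open Pool.Agent.Helper51_AWC Pool.Agent.Helper79_WRA Pool.Agent.PP Pool.Agent.PP.KF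
open Pool.Agent.PP.K9 Pool.Agent.PP.K9.H97 Pool.Agent.PP.H75 Pool.Agent.PP.T3 Pool.Agent.PP.T2

attribute [local instance] Ideal.Quotient.field

theorem csq (hFry : FryStmt) (hOri : OriStmt) (hFch : FchStmt) (hDor : DorStmt)
    (hDpw : DpwStmt) : CsqStmt := by
  classical
  intro ℓ _ M _ hℓ hℓ2 G _ _ e V γ b d c ε hD i hi
  have hab := hD.ld.ab
  have hGf : Fintype G := Fintype.ofFinite _
  have hr : ∀ u, ∃ r : ℤ, Rg V γ u → (∀ χ ∈ Irr G, fv i u χ = r * vv M b d u χ) ∧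
      ∀ κ ∈ IrrE M (fun t : Subgroup.centralizer (V : Set G) => γ t),
        ((r * ε u : ℤ) : FF M) = rr M (∑ᶠ t : Subgroup.centralizer (V : Set G), i t * κ t) := by
    intro u
    by_cases h : Rg V γ u
    · obtain ⟨r, h1, h2⟩ := hFry ℓ M hℓ G e V γ b d c ε hD i hi u h
      exact ⟨r, fun _ => ⟨h1, h2⟩⟩
    · exact ⟨0, fun h' => absurd h' h⟩
  choose r hr using hr
  obtain ⟨hconj, -, -⟩ := hDpw ℓ M hℓ hℓ2 G e V γ b d c ε hD
  let Q := Tg V γ ⧸ (Subgroup.centralizer (V : Set G)).subgroupOf (Tg V γ)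
  have hQf : Fintype Q := Fintype.ofFinite _
  have hix : (ix V γ : ℕ) = Fintype.card Q := by
    rw [← Nat.card_eq_fintype_card]
    rfl
  let cq : Q → G → G := fun q z => ((q.out : Tg V γ) : G) * z * ((q.out : Tg V γ) : G)⁻¹
  have hcq : ∀ q u, Rg V γ u → Rg V γ (cq q u) ∧ ε (cq q u) = ε u ∧
      ∀ χ ∈ Irr G, vv M b d (cq q u) χ = vv M b d u χ := fun q u hu =>
    hconj _ (q.out : Tg V γ).2 u hu
  have hfs : ∀ z χ, fs V γ i z χ = ∑ q : Q, fv i (cq q z) χ := fun z χ =>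
    finsum_eq_sum_of_fintype _
  have hVf : Fintype V := Fintype.ofFinite _
  have hcV : ((Nat.card V : ℕ) : ℂ) ≠ 0 := Nat.cast_ne_zero.2 Nat.card_pos.ne'
  -- conjugation with an element of the inertial group permutes `V`
  have hperm : ∀ (q : Q) (F : G → ℂ), ∑ v : V, F (cq q v) = ∑ v : V, F v := by
    intro q F
    have hn : ((q.out : Tg V γ) : G) ∈ Subgroup.normalizer (V : Set G) := (q.out : Tg V γ).2.1
    let f : V → V := fun v => ⟨cq q v, (Subgroup.mem_normalizer_iff.1 hn v).1 v.2⟩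
    have hf : Function.Injective f := by
      intro v w h
      have h1 : cq q v = cq q w := congrArg Subtype.val h
      exact Subtype.ext (mul_left_cancel (mul_right_cancel h1))
    exact Fintype.sum_bijective f (Finite.injective_iff_bijective.1 hf) _ _ fun v => rfl
  -- the multiplicity of the trivial character
  have hA : ∀ χ ∈ Irr G, ∃ m : ℕ, ∑ v : V, fv i v χ = Nat.card V * (m : ℂ) := by
    intro χ hχ
    obtain ⟨m, hm⟩ := hFch M G V hab i hi.ip χ hχ 1
    refine ⟨m, ?_⟩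
    rw [← hm, mul_inv_cancel_left₀ hcV, finsum_eq_sum_of_fintype]
    exact Finset.sum_congr rfl fun v _ => by rw [MonoidHom.one_apply, mul_one]
  choose! m hm using hA
  have hF1 : ∀ χ ∈ Irr G, (Nat.card V : ℂ)⁻¹ * ∑ᶠ v : V, fs V γ i v χ = ix V γ * (m χ : ℂ) := by
    intro χ hχ
    rw [finsum_eq_sum_of_fintype]
    have h1 : ∑ v : V, fs V γ i v χ = ∑ q : Q, ∑ v : V, fv i (cq q v) χ := by
      rw [Finset.sum_comm]
      exact Finset.sum_congr rfl fun v _ => hfs _ _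
    rw [h1]
    have h2 : ∀ q : Q, ∑ v : V, fv i (cq q v) χ = Nat.card V * (m χ : ℂ) := fun q => by
      rw [hperm q (fun z => fv i z χ)]
      exact hm χ hχ
    rw [Finset.sum_congr rfl fun q _ => h2 q, Finset.sum_const, Finset.card_univ, ← hix,
      nsmul_eq_mul]
    field_simp
  refine ⟨fun u => ∑ q : Q, r (cq q u), fun u hu => ?_⟩
  have hR1 : ∀ χ ∈ Irr G, fs V γ i u χ = ((∑ q : Q, r (cq q u) : ℤ) : ℂ) * vv M b d u χ := by
    intro χ hχ
    rw [hfs, Int.cast_sum, Finset.sum_mul]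
    refine Finset.sum_congr rfl fun q _ => ?_
    obtain ⟨h1, -, h3⟩ := hcq q u hu
    rw [(hr _ h1).1 χ hχ, h3 χ hχ]
  refine ⟨hR1, fun κ hκ => ?_, ?_⟩
  · have h1 : (((∑ q : Q, r (cq q u)) * ε u : ℤ) : FF M) =
        ∑ q : Q, ((r (cq q u) * ε (cq q u) : ℤ) : FF M) := by
      rw [Finset.sum_mul, Int.cast_sum]
      refine Finset.sum_congr rfl fun q _ => ?_
      rw [(hcq q u hu).2.1]
    rw [h1, Finset.sum_congr rfl fun q _ => (hr _ (hcq q u hu).1).2 κ hκ, Finset.sum_const,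
      Finset.card_univ, ← hix, nsmul_eq_mul]
  -- the sum over `V`
  · let S : G → ℂ := fun z => ∑ χ ∈ irr_finite'.toFinset, fv i z χ * starRingEnd ℂ (vv M b d u χ)
    have hS : ∀ z, S z = ∑ᶠ χ ∈ Irr G, fv i z χ * starRingEnd ℂ (vv M b d u χ) := fun z =>
      (finsum_mem_eq_finite_toFinset_sum _ irr_finite').symm
    have hmem : ∀ χ, χ ∈ (irr_finite' (G := G)).toFinset ↔ χ ∈ Irr G := fun χ =>
      Set.Finite.mem_toFinset _
    have hcqV : ∀ q : Q, cq q u ∈ V := fun q => (hcq q u hu).1.1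
    have hinj : Function.Injective fun q : Q => cq q u := by
      intro q q' h
      have h1 : ((q'.out : Tg V γ) : G)⁻¹ * ((q.out : Tg V γ) : G) * u =
          u * (((q'.out : Tg V γ) : G)⁻¹ * ((q.out : Tg V γ) : G)) := by
        have h2 : ((q.out : Tg V γ) : G) * u * ((q.out : Tg V γ) : G)⁻¹ =
          ((q'.out : Tg V γ) : G) * u * ((q'.out : Tg V γ) : G)⁻¹ := h
        calc ((q'.out : Tg V γ) : G)⁻¹ * ((q.out : Tg V γ) : G) * u
            = ((q'.out : Tg V γ) : G)⁻¹ * (((q.out : Tg V γ) : G) * u *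
                ((q.out : Tg V γ) : G)⁻¹) * ((q.out : Tg V γ) : G) := by group
          _ = _ := by rw [h2]; group
      have h3 : ((q'.out : Tg V γ) : G)⁻¹ * ((q.out : Tg V γ) : G) ∈
          Subgroup.centralizer (V : Set G) := by
        refine hu.2.2 ⟨(Tg V γ).mul_mem ((Tg V γ).inv_mem (q'.out : Tg V γ).2)
          (q.out : Tg V γ).2, ?_⟩
        refine Subgroup.mem_centralizer_iff.2 ?_
        rintro x hx
        rw [Set.mem_singleton_iff.1 hx]
        exact h1.symm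
      have h4 : (QuotientGroup.mk (q'.out : Tg V γ) : Q) = QuotientGroup.mk (q.out : Tg V γ) :=
        QuotientGroup.eq.2 h3
      have h5 := q.out_eq'
      have h6 := q'.out_eq'
      exact h5.symm.trans (h4.symm.trans h6)
    -- only the conjugates of `u` contribute
    have hzero : ∀ z : V, (∀ q : Q, cq q u ≠ z) → S z = 0 := by
      intro z hz
      rw [hS]
      refine hOri ℓ M hℓ G e V γ b d c ε hD i hi u hu z z.2 fun t ht h => ?_
      let q : Q := QuotientGroup.mk ⟨t, ht⟩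
      refine hz q ?_
      have h1 : (QuotientGroup.mk (q.out : Tg V γ) : Q) = QuotientGroup.mk ⟨t, ht⟩ := q.out_eq'
      have h2 : ((q.out : Tg V γ) : G)⁻¹ * t ∈ Subgroup.centralizer (V : Set G) :=
        (QuotientGroup.eq (a := (q.out : Tg V γ)) (b := ⟨t, ht⟩)).1 h1
      have h3 := Subgroup.mem_centralizer_iff.1 h2 u hu.1
      change ((q.out : Tg V γ) : G) * u * ((q.out : Tg V γ) : G)⁻¹ = z
      rw [← h]
      calc ((q.out : Tg V γ) : G) * u * ((q.out : Tg V γ) : G)⁻¹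
          = ((q.out : Tg V γ) : G) * (u * (((q.out : Tg V γ) : G)⁻¹ * t)) * t⁻¹ := by group
        _ = _ := by rw [h3]; group
    have hval : ∀ q : Q, S (cq q u) = r (cq q u) * Nat.card V := by
      intro q
      obtain ⟨h1, -, h3⟩ := hcq q u hu
      have h4 := (hDor ℓ M hℓ G e V γ b d c ε hD u u hu hu).1
        ⟨1, (Tg V γ).one_mem, by rw [one_mul, inv_one, mul_one]⟩
      rw [finsum_mem_eq_finite_toFinset_sum _ irr_finite'] at h4
      rw [← h4, Finset.mul_sum]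
      refine Finset.sum_congr rfl fun χ hχ => ?_
      rw [(hr _ h1).1 χ ((hmem χ).1 hχ), h3 χ ((hmem χ).1 hχ)]
      ring
    have hsum : ∑ v : V, S v = ((∑ q : Q, r (cq q u) : ℤ) : ℂ) * Nat.card V := by
      have h1 : ∑ v : V, S v = ∑ v ∈ Finset.univ.image (fun q : Q => (⟨cq q u, hcqV q⟩ : V)),
          S v := by
        symm
        refine Finset.sum_subset (Finset.subset_univ _) fun v _ hv => hzero v fun q hq => hv ?_
        rw [Finset.mem_image]
        exact ⟨q, Finset.mem_univ _, Subtype.ext hq⟩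
      rw [h1, Finset.sum_image fun q _ q' _ h => hinj (congrArg Subtype.val h), Int.cast_sum,
        Finset.sum_mul]
      exact Finset.sum_congr rfl fun q _ => hval q
    have hsum2 : ∑ v : V, S v = ∑ χ ∈ irr_finite'.toFinset,
        Nat.card V * (m χ : ℂ) * starRingEnd ℂ (vv M b d u χ) := by
      change ∑ v : V, ∑ χ ∈ irr_finite'.toFinset, _ = _
      rw [Finset.sum_comm]
      refine Finset.sum_congr rfl fun χ hχ => ?_
      rw [← Finset.sum_mul, hm χ ((hmem χ).1 hχ)]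
    have hstar : ∑ χ ∈ irr_finite'.toFinset, (m χ : ℂ) * vv M b d u χ =
        ((∑ q : Q, r (cq q u) : ℤ) : ℂ) := by
      have h1 : (Nat.card V : ℂ) * ∑ χ ∈ irr_finite'.toFinset,
          (m χ : ℂ) * starRingEnd ℂ (vv M b d u χ) =
          (Nat.card V : ℂ) * ((∑ q : Q, r (cq q u) : ℤ) : ℂ) := by
        rw [Finset.mul_sum, mul_comm (Nat.card V : ℂ) (((∑ q : Q, r (cq q u) : ℤ) : ℂ)), ← hsum,
          hsum2]
        exact Finset.sum_congr rfl fun χ _ => (mul_assoc _ _ _).symm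
      have h2 := congrArg (starRingEnd ℂ) (mul_left_cancel₀ hcV h1)
      rw [map_sum, map_intCast] at h2
      rw [← h2]
      refine Finset.sum_congr rfl fun χ _ => ?_
      rw [map_mul, map_natCast, Complex.conj_conj]
    unfold cc
    rw [finsum_mem_eq_finite_toFinset_sum _ irr_finite']
    have h5 : ∀ χ ∈ (irr_finite' (G := G)).toFinset,
        ((Nat.card V : ℂ)⁻¹ * ∑ᶠ v : V, fs V γ i v χ) * fs V γ i u χ =
        ix V γ * ((∑ q : Q, r (cq q u) : ℤ) : ℂ) * ((m χ : ℂ) * vv M b d u χ) := by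
      intro χ hχ
      rw [hF1 χ ((hmem χ).1 hχ), hR1 χ ((hmem χ).1 hχ)]
      ring
    rw [Finset.sum_congr rfl h5, ← Finset.mul_sum, hstar]
    ring

end Pool.Agent.PP.T8.H2
end
end -- Pool.Agent.Helper2_AT8.CSQ

section -- Pool.Agent.Helper62_AT3.LCJ

/-!
# Squad AT3, row LCJ: conjugation of `(V, γ)`
-/

open scoped BigOperators

noncomputable section

namespace Pool.Agent.PP.T3.H62

open Pool.Agent.Helper51_AWC Pool.Agent.Helper79_WRA Pool.Agent.PP Pool.Agent.PP.KF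
open Pool.Agent.PP.K9 Pool.Agent.PP.K9.H97 Pool.Agent.PP.H75

attribute [local instance] Ideal.Quotient.field

section conj

variable {F G : Type} [Field F] [Group G] [Finite G]

omit [Finite G] in
theorem mem_conjS {g : G} {P : Subgroup G} {x : G} : x ∈ conjS g P ↔ g⁻¹ * x * g ∈ P := by
  rw [conjS, Subgroup.mem_map]
  constructor
  · rintro ⟨y, hy, rfl⟩
    have : g⁻¹ * ((MulAut.conj g).toMonoidHom y) * g = y := by
      simp [mul_assoc]
    rw [this]
    exact hy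
  · intro h
    exact ⟨_, h, by simp [mul_assoc]⟩

theorem ix_cj {X X' : Subgroup G} {b : G → F} {g : G} (hX : ∀ x, x ∈ X' ↔ g⁻¹ * x * g ∈ X)
    (h : Ix X b) : Ix X' (cj g b) := by
  have hs : ∀ x, x ∉ X' → H75.cj g b x = 0 := by
    intro x hx
    apply h.supp
    rwa [← hX]
  refine ⟨hs, ?_, ?_⟩
  · intro x y
    change b (g⁻¹ * ((y : G) * x * (y : G)⁻¹) * g) = b (g⁻¹ * x * g)
    have hy : g⁻¹ * (y : G) * g ∈ X := (hX _).1 y.2
    have h2 := (cj_eq_iff _ _).1 (h.inv hy) (g⁻¹ * x * g)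
    rw [← h2]
    congr 1
    group
  · rw [← mulF_res X' (H75.cj g b) hs, ← cj_mulF, h.mul]

theorem bx_cj {X X' : Subgroup G} {b : G → F} {g : G} (hX : ∀ x, x ∈ X' ↔ g⁻¹ * x * g ∈ X)
    (h : Bx X b) : Bx X' (cj g b) := by
  have hX' : ∀ x, x ∈ X ↔ g⁻¹⁻¹ * x * g⁻¹ ∈ X' := by
    intro x
    rw [hX]
    have e : g⁻¹ * (g⁻¹⁻¹ * x * g⁻¹) * g = x := by group
    rw [e]
  have h1 := ix_cj hX h.ix
  refine ⟨h1.supp, h1.idem, ?_, ?_⟩
  · intro h0
    apply h.ne
    have h2 : H75.cj g b = 0 := eq_of_res h1.supp (fun _ _ => rfl) h0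
    have h3 := congrArg (H75.cj g⁻¹) h2
    rw [cj_inv_cj, cj_zero] at h3
    exact h3
  · intro a ha
    have hax : Ix X' (H75.ext0 X' a) := by
      refine ⟨ext0_supp X' a, ?_⟩
      have : (fun t : X' => H75.ext0 X' a t) = a := funext (ext0_apply X' a)
      rw [this]
      exact ha
    have h2 := ix_cj hX' hax
    have h4 : mulF (fun t : X' => H75.cj g b t) a =
        fun t : X' => mulF (H75.cj g b) (H75.ext0 X' a) t := by
      rw [mulF_res X' _ h1.supp]
      congr 1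
      exact (funext (ext0_apply X' a)).symm
    rw [h4]
    have h5 : mulF (H75.cj g b) (H75.ext0 X' a) =
        H75.cj g (mulF b (H75.cj g⁻¹ (H75.ext0 X' a))) := by
      rw [cj_mulF, cj_cj_inv]
    rcases h.dich' h2 with h3 | h3
    · left
      rw [h5, h3]
    · right
      rw [h5, h3, cj_zero]
      rfl

omit [Finite G] in
theorem mem_cent_conjS {g : G} {V : Subgroup G} (x : G) :
    x ∈ Subgroup.centralizer (conjS g V : Set G) ↔
      g⁻¹ * x * g ∈ Subgroup.centralizer (V : Set G) := by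
  rw [Subgroup.mem_centralizer_iff, Subgroup.mem_centralizer_iff]
  constructor
  · intro h v hv
    have h1 : g * v * g⁻¹ ∈ conjS g V := by
      rw [mem_conjS]
      have e : g⁻¹ * (g * v * g⁻¹) * g = v := by group
      rw [e]
      exact hv
    have h2 := h _ h1
    have h3 : g⁻¹ * (g * v * g⁻¹ * x) * g = g⁻¹ * (x * (g * v * g⁻¹)) * g := by rw [h2]
    have e1 : g⁻¹ * (g * v * g⁻¹ * x) * g = v * (g⁻¹ * x * g) := by group
    have e2 : g⁻¹ * (x * (g * v * g⁻¹)) * g = g⁻¹ * x * g * v := by group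
    rw [e1, e2] at h3
    exact h3
  · intro h v hv
    have h1 : g⁻¹ * v * g ∈ V := mem_conjS.1 hv
    have h2 := h _ h1
    have h3 : g * (g⁻¹ * v * g * (g⁻¹ * x * g)) * g⁻¹ = g * (g⁻¹ * x * g * (g⁻¹ * v * g)) * g⁻¹ := by
      rw [h2]
    have e1 : g * (g⁻¹ * v * g * (g⁻¹ * x * g)) * g⁻¹ = v * x := by group
    have e2 : g * (g⁻¹ * x * g * (g⁻¹ * v * g)) * g⁻¹ = x * v := by group
    rw [e1, e2] at h3
    exact h3

omit [Finite G] in
theorem cent_conjS (g : G) (V : Subgroup G) :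
    Subgroup.centralizer (conjS g V : Set G) = conjS g (Subgroup.centralizer (V : Set G)) := by
  ext x
  rw [mem_cent_conjS, mem_conjS]

omit [Finite G] in
theorem conjS_mem_iff {g : G} {V : Subgroup G} (x : G) : g * x * g⁻¹ ∈ conjS g V ↔ x ∈ V := by
  rw [mem_conjS]
  have e : g⁻¹ * (g * x * g⁻¹) * g = x := by group
  rw [e]

omit [Finite G] in
theorem mem_norm_conjS {g : G} {V : Subgroup G} (x : G) :
    x ∈ Subgroup.normalizer (conjS g V : Set G) ↔
      g⁻¹ * x * g ∈ Subgroup.normalizer (V : Set G) := by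
  rw [Subgroup.mem_normalizer_iff, Subgroup.mem_normalizer_iff]
  constructor
  · intro h v
    have h1 := h (g * v * g⁻¹)
    rw [conjS_mem_iff, mem_conjS] at h1
    rw [h1]
    have e : g⁻¹ * (x * (g * v * g⁻¹) * x⁻¹) * g = g⁻¹ * x * g * v * (g⁻¹ * x * g)⁻¹ := by group
    rw [e]
  · intro h v
    have h1 := h (g⁻¹ * v * g)
    rw [mem_conjS, mem_conjS, h1]
    have e : g⁻¹ * (x * v * x⁻¹) * g = g⁻¹ * x * g * (g⁻¹ * v * g) * (g⁻¹ * x * g)⁻¹ := by group
    rw [e]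

omit [Finite G] in
theorem mem_stabF_cj {g : G} {γ : G → F} (x : G) :
    x ∈ stabF (cj g γ) ↔ g⁻¹ * x * g ∈ stabF γ := by
  constructor
  · intro h y
    have h1 := h (g * y * g⁻¹)
    change γ (g⁻¹ * (x * (g * y * g⁻¹) * x⁻¹) * g) = γ (g⁻¹ * (g * y * g⁻¹) * g) at h1
    have e1 : g⁻¹ * (x * (g * y * g⁻¹) * x⁻¹) * g = g⁻¹ * x * g * y * (g⁻¹ * x * g)⁻¹ := by group
    have e2 : g⁻¹ * (g * y * g⁻¹) * g = y := by group
    rw [e1, e2] at h1
    exact h1
  · intro h y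
    have h1 : γ (g⁻¹ * x * g * (g⁻¹ * y * g) * (g⁻¹ * x * g)⁻¹) = γ (g⁻¹ * y * g) :=
      h (g⁻¹ * y * g)
    change γ (g⁻¹ * (x * y * x⁻¹) * g) = γ (g⁻¹ * y * g)
    rw [← h1]
    congr 1
    group

omit [Finite G] in
theorem tg_conjS (g : G) (V : Subgroup G) (γ : G → F) :
    Tg (conjS g V) (cj g γ) = conjS g (Tg V γ) := by
  ext x
  rw [mem_conjS, Tg, Tg, Subgroup.mem_inf, Subgroup.mem_inf, mem_norm_conjS, mem_stabF_cj]

omit [Finite G] in
theorem card_conjS' (g : G) (P : Subgroup G) : Nat.card (conjS g P) = Nat.card P :=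
  (Nat.card_congr (conjSEquiv g P).toEquiv).symm

omit [Finite G] in
theorem br_cj (g : G) (V : Subgroup G) {e : G → F} (he : IsCl e) :
    br (conjS g V) e = cj g (br V e) := by
  classical
  funext x
  change _ = br V e (g⁻¹ * x * g)
  unfold br
  by_cases h : x ∈ Subgroup.centralizer (conjS g V : Set G)
  · rw [if_pos h, if_pos ((mem_cent_conjS x).1 h)]
    have := he x g⁻¹
    rw [inv_inv] at this
    exact this.symm
  · rw [if_neg h, if_neg (fun h' => h ((mem_cent_conjS x).2 h'))]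

end conj

/-- LCJ: conjugation of `(V, γ)`. -/
theorem lcj : LcjStmt := by
  intro ℓ _ F _ hF G _ _ e V γ h g
  refine ⟨⟨h.blk, ⟨?_, ?_, ?_⟩, ?_, ?_, ?_⟩, ?_⟩
  · exact h.tp.pg.map _
  · obtain ⟨x, hx, hex⟩ := h.tp.gd
    refine ⟨g * x * g⁻¹, ?_, ?_⟩
    · rw [mem_cent_conjS]
      have e1 : g⁻¹ * (g * x * g⁻¹) * g = x := by group
      rw [e1]
      exact hx
    · rw [h.blk.1.1 x g]
      exact hex
  · intro Q hQ hg
    rw [card_conjS']
    exact h.tp.mx Q hQ hg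
  · intro a ha b hb
    have h1 := h.ab _ (mem_conjS.1 ha) _ (mem_conjS.1 hb)
    have h2 : g * (g⁻¹ * a * g * (g⁻¹ * b * g)) * g⁻¹ = g * (g⁻¹ * b * g * (g⁻¹ * a * g)) * g⁻¹ := by
      rw [h1]
    have e1 : g * (g⁻¹ * a * g * (g⁻¹ * b * g)) * g⁻¹ = a * b := by group
    have e2 : g * (g⁻¹ * b * g * (g⁻¹ * a * g)) * g⁻¹ = b * a := by group
    rw [e1, e2] at h2
    exact h2
  · exact bx_cj (fun x => mem_cent_conjS x) h.gam
  · rw [br_cj g V h.blk.1.1, ← cj_mulF, h.und]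
  · unfold ix
    rw [cent_conjS, tg_conjS]
    exact Subgroup.relIndex_map_map_of_injective _ _ (MulAut.conj g).injective

end Pool.Agent.PP.T3.H62
end
end -- Pool.Agent.Helper62_AT3.LCJ

section -- Pool.Agent.Helper86_AT8.TX8

/-!
# Squad AT8, row TX8: the subgroups of the normaliser of `U` which do not contain `U`
-/

open scoped BigOperators

noncomputable section

namespace Pool.Agent.PP.T8.H86

open Pool.Agent.Helper51_AWC Pool.Agent.Helper79_WRA Pool.Agent.PP Pool.Agent.PP.KF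
open Pool.Agent.PP.K9 Pool.Agent.PP.K9.H97 Pool.Agent.PP.H75 Pool.Agent.PP.T3 Pool.Agent.PP.T2

attribute [local instance] Ideal.Quotient.field

theorem tx_aux (hPWU : T2.PwuStmt) (hQT1 : T3.Qt1Stmt) (hQT3 : Qt3Stmt) (hLCJ : T3.LcjStmt)
    (hFQT : FqtStmt)
    (ℓ : ℕ) [hℓ : Fact ℓ.Prime] (M : Ideal (integralClosure ℤ ℂ)) [M.IsMaximal]
    (hM : (ℓ : integralClosure ℤ ℂ) ∈ M) (G : Type) [Group G] [Finite G] (e₀ : G → FF M)
    (V : Subgroup G) (γ₀ : G → FF M) (hL₀ : Ld ℓ e₀ V γ₀) (X : Type) [Group X]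
    [Finite X] (f : X → FF M) (W : Subgroup X) (γ : X → FF M) (hL : Ld ℓ f W γ) (a : ℕ)
    (ha : 0 < a) (hexp : Monoid.exponent W = ℓ ^ a)
    (hU : ∀ k : X, conjS k (Uw (ℓ ^ (a - 1)) W) = Uw (ℓ ^ (a - 1)) W)
    (hFq : Fq V γ₀ W γ) (n : ℕ) (hn : Nat.card X ≤ n) (hIh : Iq M ℓ a n V γ₀)
    (Q : Subgroup X) (hQ : IsPGroup ℓ Q) (hQb : Q ≠ ⊥)
    (hno : ¬ (Uw (ℓ ^ (a - 1)) W ≤ Q ∧
      Q ≤ Subgroup.centralizer (Uw (ℓ ^ (a - 1)) W : Set X))) : YQ ℓ f Q = 0 := by
  have hF : GoodF ℓ (FF M) := H50.fld ℓ Fact.out M hM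
  have hfid : IsIdem (fun t : Subgroup.normalizer (Q : Set X) => br Q f t) :=
    (H20.brm ℓ (FF M) hF X Q (Subgroup.normalizer (Q : Set X)) hQ
      (Subgroup.centralizer_le_normalizer _) le_rfl).2.2 f hL.blk.1
  have hk : (QuotientGroup.mk' (Q.subgroupOf (Subgroup.normalizer (Q : Set X)))).ker =
    Q.subgroupOf (Subgroup.normalizer (Q : Set X)) := QuotientGroup.ker_mk' _
  have hs := QuotientGroup.mk'_surjective (Q.subgroupOf (Subgroup.normalizer (Q : Set X)))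
  unfold YQ
  refine H9.addStmt ℓ (FF M) hF _ ⊤ inferInstance _ (push_isIdem hs hfid) ?_
  intro f₁ hf₁ hff₁
  obtain ⟨k, hQk, hTp⟩ := hQT1 ℓ M hM X f W γ hL Q hQ _ _ hs hk f₁ hf₁ hff₁
  obtain ⟨hLk, -⟩ := hLCJ ℓ (FF M) hF X f W γ hL k
  obtain ⟨γ', hL', hFe⟩ := hQT3 ℓ M hM X f (conjS k W) (cj k γ) hLk Q hQk _ _ hs hk f₁ hf₁ hff₁ hTp
  have hFq1 : Fq W γ (conjS k W) (cj k γ) := (hFQT ℓ (FF M) hF X f W γ hL).2.1 k
  have hFq2 := (hFQT ℓ (FF M) hF X f (conjS k W) (cj k γ) hLk).2.2.2 Q hQk _ _ γ' hFe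
  have hFq3 := (hFQT ℓ (FF M) hF X f W γ hL).1 _ _ _ _ _ _ hFq1 hFq2
  have hFq4 := (hFQT ℓ (FF M) hF G e₀ V γ₀ hL₀).1 _ _ _ _ _ _ hFq hFq3
  -- `U` is not contained in `Q`
  obtain ⟨-, hUW, -, -, hUc, -, -, -⟩ := hPWU X (ℓ ^ (a - 1)) W hL.ab
  have hUk : Uw (ℓ ^ (a - 1)) (conjS k W) = Uw (ℓ ^ (a - 1)) W := by rw [hUc k, hU k]
  have hUWk : Uw (ℓ ^ (a - 1)) W ≤ conjS k W := by
    rw [← hUk]
    exact (hPWU X (ℓ ^ (a - 1)) (conjS k W) hLk.ab).2.1
  have hUQ : ¬ Uw (ℓ ^ (a - 1)) W ≤ Q := by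
    intro h
    refine hno ⟨h, ?_⟩
    intro q hq
    rw [Subgroup.mem_centralizer_iff]
    intro u hu
    exact hLk.ab u (hUWk hu) q (hQk hq)
  -- the conjugate of `W` normalises `Q`
  have hWN : conjS k W ≤ Subgroup.normalizer (Q : Set X) := by
    intro w hw
    rw [Subgroup.mem_normalizer_iff]
    intro q
    constructor
    · intro hq
      have h1 : w * q * w⁻¹ = q := by
        rw [hLk.ab w hw q (hQk hq), mul_assoc, mul_inv_cancel, mul_one]
      show w * q * w⁻¹ ∈ Q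
      rw [h1]
      exact hq
    · intro hq
      have hq' : w * q * w⁻¹ ∈ Q := hq
      have h2 : q = w * q * w⁻¹ := by
        have h3 := hLk.ab w⁻¹ (inv_mem hw) _ (hQk hq')
        have h4 : w⁻¹ * (w * q * w⁻¹) = q * w⁻¹ := by group
        rw [h4] at h3
        have h5 : q * w⁻¹ * w = w * q * w⁻¹ * w⁻¹ * w := by rw [h3]
        have h6 : q * w⁻¹ * w = q := by group
        have h7 : w * q * w⁻¹ * w⁻¹ * w = w * q * w⁻¹ := by group
        rw [h6, h7] at h5
        exact h5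
      show q ∈ Q
      rw [h2]
      exact hq'
  -- the group `conjS k W` in the normaliser
  obtain ⟨W₁, hW₁⟩ : ∃ W₁, W₁ = (conjS k W).subgroupOf (Subgroup.normalizer (Q : Set X)) :=
    ⟨_, rfl⟩
  have τ1 : W ≃* conjS k W := conjSEquiv k W
  have τ2 : conjS k W ≃* W₁ := by
    rw [hW₁]
    exact (Subgroup.subgroupOfEquivOfLe hWN).symm
  have hW₁ab : ∀ a ∈ W₁, ∀ b ∈ W₁, a * b = b * a := by
    intro a ha b hb
    rw [hW₁, Subgroup.mem_subgroupOf] at ha hb
    exact Subtype.ext (hLk.ab a ha b hb)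
  have hexp1 : Monoid.exponent W₁ = ℓ ^ a := by
    rw [← hexp, Monoid.exponent_eq_of_mulEquiv (τ1.trans τ2)]
  obtain ⟨-, -, -, -, -, -, -, h8⟩ := hPWU (Subgroup.normalizer (Q : Set X)) (ℓ ^ (a - 1)) W₁ hW₁ab
  obtain ⟨-, -, -, -, -, -, h7, -⟩ := hPWU X (ℓ ^ (a - 1)) (conjS k W) hLk.ab
  have h9 := (h8 ℓ a ha hexp1 rfl).2 _
    (QuotientGroup.mk' (Q.subgroupOf (Subgroup.normalizer (Q : Set X))))
  have hexp2 : Monoid.exponent (W₁.map
      (QuotientGroup.mk' (Q.subgroupOf (Subgroup.normalizer (Q : Set X))))) = ℓ ^ a := by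
    rcases h9 with h | h
    · exact h
    · exfalso
      rw [hk, hW₁, h7 _ hWN, hUk] at h
      apply hUQ
      intro u hu
      have h10 : (⟨u, hWN (hUWk hu)⟩ : Subgroup.normalizer (Q : Set X)) ∈
          (Uw (ℓ ^ (a - 1)) W).subgroupOf (Subgroup.normalizer (Q : Set X)) := by
        rw [Subgroup.mem_subgroupOf]
        exact hu
      exact Subgroup.mem_subgroupOf.1 (h h10)
  -- the order
  have hcard : Nat.card (Subgroup.normalizer (Q : Set X) ⧸
      Q.subgroupOf (Subgroup.normalizer (Q : Set X))) < n := by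
    have hQ1 : 1 < Nat.card Q := by
      rw [Subgroup.one_lt_card_iff_ne_bot]
      exact hQb
    have h1 :=
      (Q.subgroupOf (Subgroup.normalizer (Q : Set X))).card_eq_card_quotient_mul_card_subgroup
    have h2 : Nat.card (Q.subgroupOf (Subgroup.normalizer (Q : Set X))) = Nat.card Q :=
      Nat.card_congr (Subgroup.subgroupOfEquivOfLe Subgroup.le_normalizer).toEquiv
    have h3 : Nat.card (Subgroup.normalizer (Q : Set X)) ≤ n :=
      (Subgroup.card_le_card_group _).trans hn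
    have h4 : 0 < Nat.card (Subgroup.normalizer (Q : Set X) ⧸
        Q.subgroupOf (Subgroup.normalizer (Q : Set X))) := Nat.card_pos
    rw [h2] at h1
    nlinarith
  rw [← hW₁] at hL' hFq4
  exact hIh _ hcard f₁ _ γ' hL' hexp2 hFq4

theorem tx8 (hQT3 : Qt3Stmt) (hFQT : FqtStmt) (hQT1 : T3.Qt1Stmt) (hLCJ : T3.LcjStmt)
    (hPWU : T2.PwuStmt) : Tx8Stmt := by
  intro ℓ hℓ M _ hM G _ _ e V γ hL a ha hexp U hU f hf hIh Q hQ hQb hno
  obtain ⟨-, hUV, hNV, hCV, -, -, h7, -⟩ := hPWU G (ℓ ^ (a - 1)) V hL.ab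
  have hVX : V ≤ Subgroup.normalizer (U : Set G) := by
    rw [hU]
    exact Subgroup.le_normalizer.trans hNV
  have hUX : Uw (ℓ ^ (a - 1)) (V.subgroupOf (Subgroup.normalizer (U : Set G))) =
      U.subgroupOf (Subgroup.normalizer (U : Set G)) := by
    rw [h7 _ hVX, hU]
  have τ : V ≃* V.subgroupOf (Subgroup.normalizer (U : Set G)) :=
    (Subgroup.subgroupOfEquivOfLe hVX).symm
  have hUn : (U.subgroupOf (Subgroup.normalizer (U : Set G))).Normal := inferInstance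
  have hF : GoodF ℓ (FF M) := H50.fld ℓ Fact.out M hM
  have hFq := (hFQT ℓ (FF M) hF G e V γ hL).2.2.1 U f hf
  refine tx_aux hPWU hQT1 hQT3 hLCJ hFQT ℓ M hM G e V γ hL (Subgroup.normalizer (U : Set G))
    (fun t : Subgroup.normalizer (U : Set G) => f t)
    (V.subgroupOf (Subgroup.normalizer (U : Set G)))
    (fun t : Subgroup.normalizer (U : Set G) => γ t) hf.ld a ha ?_ ?_ hFq (Nat.card G)
    (Subgroup.card_le_card_group _) hIh Q hQ hQb ?_
  · rw [← hexp, Monoid.exponent_eq_of_mulEquiv τ]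
  · intro k
    rw [hUX]
    ext x
    rw [T3.H62.mem_conjS]
    constructor
    · intro h
      have h1 := hUn.conj_mem _ h k
      have h2 : k * (k⁻¹ * x * k) * k⁻¹ = x := by group
      rwa [h2] at h1
    · intro h
      have h1 := hUn.conj_mem _ h k⁻¹
      rwa [inv_inv] at h1
  · rw [hUX]
    rintro ⟨h1, h2⟩
    refine hno ⟨h1, ?_⟩
    intro x hx
    rw [Subgroup.mem_subgroupOf, Subgroup.mem_centralizer_iff]
    intro u hu
    have h3 := Subgroup.mem_centralizer_iff.1 (h2 hx)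
      ⟨u, Subgroup.le_normalizer hu⟩ (Subgroup.mem_subgroupOf.2 hu)
    exact congrArg Subtype.val h3

end Pool.Agent.PP.T8.H86
end
end -- Pool.Agent.Helper86_AT8.TX8

section -- Pool.Agent.Helper86_AT2.TEX

/-!
# Squad AT2, row TEX: the subgroups of the normaliser of `U` which do not contain `U`
-/

open scoped BigOperators

noncomputable section

namespace Pool.Agent.PP.T2.H86

open Pool.Agent.Helper51_AWC Pool.Agent.Helper79_WRA Pool.Agent.PP Pool.Agent.PP.KF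
open Pool.Agent.PP.K9 Pool.Agent.PP.K9.H97 Pool.Agent.PP.H75 Pool.Agent.PP.T3

attribute [local instance] Ideal.Quotient.field

theorem tex_aux (hPWU : PwuStmt) (hQT1 : Qt1Stmt) (hQT2 : Qt2Stmt) (hLCJ : LcjStmt)
    (ℓ : ℕ) [hℓ : Fact ℓ.Prime] (M : Ideal (integralClosure ℤ ℂ)) [M.IsMaximal]
    (hM : (ℓ : integralClosure ℤ ℂ) ∈ M) (G : Type) [Group G] (V : Subgroup G) (X : Type) [Group X]
    [Finite X] (f : X → FF M) (W : Subgroup X) (γ : X → FF M) (hL : Ld ℓ f W γ) (a : ℕ)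
    (ha : 0 < a) (hexp : Monoid.exponent W = ℓ ^ a)
    (hU : ∀ k : X, conjS k (Uw (ℓ ^ (a - 1)) W) = Uw (ℓ ^ (a - 1)) W)
    (τ : V ≃* W) (n i : ℕ) (hn : Nat.card X ≤ n) (hi : ix W γ ≤ i) (hIh : Ih M ℓ a n V i)
    (Q : Subgroup X) (hQ : IsPGroup ℓ Q) (hQb : Q ≠ ⊥)
    (hno : ¬ (Uw (ℓ ^ (a - 1)) W ≤ Q ∧
      Q ≤ Subgroup.centralizer (Uw (ℓ ^ (a - 1)) W : Set X))) : YQ ℓ f Q = 0 := by
  have hF : GoodF ℓ (FF M) := H50.fld ℓ Fact.out M hM
  have hfid : IsIdem (fun t : Subgroup.normalizer (Q : Set X) => br Q f t) :=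
    (H20.brm ℓ (FF M) hF X Q (Subgroup.normalizer (Q : Set X)) hQ
      (Subgroup.centralizer_le_normalizer _) le_rfl).2.2 f hL.blk.1
  have hk : (QuotientGroup.mk' (Q.subgroupOf (Subgroup.normalizer (Q : Set X)))).ker =
    Q.subgroupOf (Subgroup.normalizer (Q : Set X)) := QuotientGroup.ker_mk' _
  have hs := QuotientGroup.mk'_surjective (Q.subgroupOf (Subgroup.normalizer (Q : Set X)))
  unfold YQ
  refine H9.addStmt ℓ (FF M) hF _ ⊤ inferInstance _ (push_isIdem hs hfid) ?_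
  intro f₁ hf₁ hff₁
  obtain ⟨k, hQk, hTp⟩ := hQT1 ℓ M hM X f W γ hL Q hQ _ _ hs hk f₁ hf₁ hff₁
  obtain ⟨hLk, hixk⟩ := hLCJ ℓ (FF M) hF X f W γ hL k
  obtain ⟨γ', hL', hi'⟩ := hQT2 ℓ M hM X f (conjS k W) (cj k γ) hLk Q hQk _ _ hs hk f₁ hf₁ hff₁ hTp
  -- `U` is not contained in `Q`
  obtain ⟨-, hUW, -, -, hUc, -, -, -⟩ := hPWU X (ℓ ^ (a - 1)) W hL.ab
  have hUk : Uw (ℓ ^ (a - 1)) (conjS k W) = Uw (ℓ ^ (a - 1)) W := by rw [hUc k, hU k]
  have hUWk : Uw (ℓ ^ (a - 1)) W ≤ conjS k W := by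
    rw [← hUk]
    exact (hPWU X (ℓ ^ (a - 1)) (conjS k W) hLk.ab).2.1
  have hUQ : ¬ Uw (ℓ ^ (a - 1)) W ≤ Q := by
    intro h
    refine hno ⟨h, ?_⟩
    intro q hq
    rw [Subgroup.mem_centralizer_iff]
    intro u hu
    exact hLk.ab u (hUWk hu) q (hQk hq)
  -- the conjugate of `W` normalises `Q`
  have hWN : conjS k W ≤ Subgroup.normalizer (Q : Set X) := by
    intro w hw
    rw [Subgroup.mem_normalizer_iff]
    intro q
    constructor
    · intro hq
      have h1 : w * q * w⁻¹ = q := by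
        rw [hLk.ab w hw q (hQk hq), mul_assoc, mul_inv_cancel, mul_one]
      show w * q * w⁻¹ ∈ Q
      rw [h1]
      exact hq
    · intro hq
      have hq' : w * q * w⁻¹ ∈ Q := hq
      have h2 : q = w * q * w⁻¹ := by
        have h3 := hLk.ab w⁻¹ (inv_mem hw) _ (hQk hq')
        have h4 : w⁻¹ * (w * q * w⁻¹) = q * w⁻¹ := by group
        rw [h4] at h3
        have h5 : q * w⁻¹ * w = w * q * w⁻¹ * w⁻¹ * w := by rw [h3]
        have h6 : q * w⁻¹ * w = q := by group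
        have h7 : w * q * w⁻¹ * w⁻¹ * w = w * q * w⁻¹ := by group
        rw [h6, h7] at h5
        exact h5
      show q ∈ Q
      rw [h2]
      exact hq'
  -- the group `conjS k W` in the normaliser
  obtain ⟨W₁, hW₁⟩ : ∃ W₁, W₁ = (conjS k W).subgroupOf (Subgroup.normalizer (Q : Set X)) :=
    ⟨_, rfl⟩
  have τ1 : W ≃* conjS k W := conjSEquiv k W
  have τ2 : conjS k W ≃* W₁ := by
    rw [hW₁]
    exact (Subgroup.subgroupOfEquivOfLe hWN).symm
  have hW₁ab : ∀ a ∈ W₁, ∀ b ∈ W₁, a * b = b * a := by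
    intro a ha b hb
    rw [hW₁, Subgroup.mem_subgroupOf] at ha hb
    exact Subtype.ext (hLk.ab a ha b hb)
  have hexp1 : Monoid.exponent W₁ = ℓ ^ a := by
    rw [← hexp, Monoid.exponent_eq_of_mulEquiv (τ1.trans τ2)]
  obtain ⟨-, -, -, -, -, -, -, h8⟩ := hPWU (Subgroup.normalizer (Q : Set X)) (ℓ ^ (a - 1)) W₁ hW₁ab
  obtain ⟨-, -, -, -, -, -, h7, -⟩ := hPWU X (ℓ ^ (a - 1)) (conjS k W) hLk.ab
  have h9 := (h8 ℓ a ha hexp1 rfl).2 _
    (QuotientGroup.mk' (Q.subgroupOf (Subgroup.normalizer (Q : Set X))))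
  have hexp2 : Monoid.exponent (W₁.map
      (QuotientGroup.mk' (Q.subgroupOf (Subgroup.normalizer (Q : Set X))))) = ℓ ^ a := by
    rcases h9 with h | h
    · exact h
    · exfalso
      rw [hk, hW₁, h7 _ hWN, hUk] at h
      apply hUQ
      intro u hu
      have h10 : (⟨u, hWN (hUWk hu)⟩ : Subgroup.normalizer (Q : Set X)) ∈
          (Uw (ℓ ^ (a - 1)) W).subgroupOf (Subgroup.normalizer (Q : Set X)) := by
        rw [Subgroup.mem_subgroupOf]
        exact hu
      exact Subgroup.mem_subgroupOf.1 (h h10)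
  -- the surjection
  have hsur : ∃ π : V →* W₁.map
      (QuotientGroup.mk' (Q.subgroupOf (Subgroup.normalizer (Q : Set X)))),
      Function.Surjective π := by
    refine ⟨((QuotientGroup.mk' (Q.subgroupOf (Subgroup.normalizer (Q : Set X)))).subgroupMap
      W₁).comp (τ.trans (τ1.trans τ2)).toMonoidHom, ?_⟩
    rw [MonoidHom.coe_comp]
    exact (MonoidHom.subgroupMap_surjective _ _).comp (τ.trans (τ1.trans τ2)).surjective
  -- the order
  have hcard : Nat.card (Subgroup.normalizer (Q : Set X) ⧸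
      Q.subgroupOf (Subgroup.normalizer (Q : Set X))) < n := by
    have hQ1 : 1 < Nat.card Q := by
      rw [Subgroup.one_lt_card_iff_ne_bot]
      exact hQb
    have h1 :=
      (Q.subgroupOf (Subgroup.normalizer (Q : Set X))).card_eq_card_quotient_mul_card_subgroup
    have h2 : Nat.card (Q.subgroupOf (Subgroup.normalizer (Q : Set X))) = Nat.card Q :=
      Nat.card_congr (Subgroup.subgroupOfEquivOfLe Subgroup.le_normalizer).toEquiv
    have h3 : Nat.card (Subgroup.normalizer (Q : Set X)) ≤ n :=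
      (Subgroup.card_le_card_group _).trans hn
    have h4 : 0 < Nat.card (Subgroup.normalizer (Q : Set X) ⧸
        Q.subgroupOf (Subgroup.normalizer (Q : Set X))) := Nat.card_pos
    rw [h2] at h1
    nlinarith
  rw [← hW₁] at hL' hi'
  refine hIh _ hcard f₁ _ γ' hL' hexp2 hsur ?_
  exact hi'.trans (by rw [hixk]; exact hi)

theorem tex (hPWU : PwuStmt) (hQT1 : Qt1Stmt) (hQT2 : Qt2Stmt) (hLCJ : LcjStmt) : TexStmt := by
  intro ℓ hℓ M _ hM G _ _ e V γ hL a ha hexp U hU f hf hIh Q hQ hQb hno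
  obtain ⟨-, hUV, hNV, hCV, -, -, h7, -⟩ := hPWU G (ℓ ^ (a - 1)) V hL.ab
  have hVX : V ≤ Subgroup.normalizer (U : Set G) := by
    rw [hU]
    exact Subgroup.le_normalizer.trans hNV
  have hUX : Uw (ℓ ^ (a - 1)) (V.subgroupOf (Subgroup.normalizer (U : Set G))) =
      U.subgroupOf (Subgroup.normalizer (U : Set G)) := by
    rw [h7 _ hVX, hU]
  have τ : V ≃* V.subgroupOf (Subgroup.normalizer (U : Set G)) :=
    (Subgroup.subgroupOfEquivOfLe hVX).symm
  have hUn : (U.subgroupOf (Subgroup.normalizer (U : Set G))).Normal := inferInstance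
  refine tex_aux hPWU hQT1 hQT2 hLCJ ℓ M hM G V (Subgroup.normalizer (U : Set G))
    (fun t : Subgroup.normalizer (U : Set G) => f t)
    (V.subgroupOf (Subgroup.normalizer (U : Set G)))
    (fun t : Subgroup.normalizer (U : Set G) => γ t) hf.ld a ha ?_ ?_ τ (Nat.card G) (ix V γ)
    (Subgroup.card_le_card_group _) hf.ix.le hIh Q hQ hQb ?_
  · rw [← hexp, Monoid.exponent_eq_of_mulEquiv τ]
  · intro k
    rw [hUX]
    ext x
    rw [T3.H62.mem_conjS]
    constructor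
    · intro h
      have h1 := hUn.conj_mem _ h k
      have h2 : k * (k⁻¹ * x * k) * k⁻¹ = x := by group
      rwa [h2] at h1
    · intro h
      have h1 := hUn.conj_mem _ h k⁻¹
      rwa [inv_inv] at h1
  · rw [hUX]
    rintro ⟨h1, h2⟩
    refine hno ⟨h1, ?_⟩
    intro x hx
    rw [Subgroup.mem_subgroupOf, Subgroup.mem_centralizer_iff]
    intro u hu
    have h3 := Subgroup.mem_centralizer_iff.1 (h2 hx)
      ⟨u, Subgroup.le_normalizer hu⟩ (Subgroup.mem_subgroupOf.2 hu)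
    exact congrArg Subtype.val h3

end Pool.Agent.PP.T2.H86
end
end -- Pool.Agent.Helper86_AT2.TEX

section -- Pool.Agent.Helper99_AT8.AVO

/-!
# Squad AT8, row AVO: Bessel's inequality for the averages
-/

set_option autoImplicit false
set_option maxHeartbeats 4000000

open scoped BigOperators

noncomputable section

namespace Pool.Agent.PP.T8.H99

open Pool.Agent.Helper51_AWC Pool.Agent.Helper79_WRA Pool.Agent.PP Pool.Agent.PP.KF
open Pool.Agent.PP.K9 Pool.Agent.PP.K9.H97 Pool.Agent.PP.H75 Pool.Agent.PP.T3 Pool.Agent.PP.T2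

attribute [local instance] Ideal.Quotient.field

/-- AVO: Bessel's inequality for the averages. -/
theorem avo (dor : DorStmt) (rkx : RkxStmt) (av1 : Av1Stmt) (bes : T3.BesStmt) (pwu : PwuStmt)
    (inx : K9.InxStmt) : AvoStmt := by
  intro ℓ hℓ M _ hM hℓ2 G _ _ N hN e V γ b d c ε hD a k hk hka hexp y hy j hj
  classical
  have := Fintype.ofFinite G
  have hp : ℓ.Prime := Fact.out
  have hF : GoodF ℓ (FF M) := H50.fld ℓ Fact.out M hM
  have hL := hD.ld
  have hab := hL.ab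
  have hix : ¬ ℓ ∣ ix V γ :=
    inx ℓ M hM G e hL.blk V hL.tp hab γ hL.gam.supp hL.gam.blk hL.und
  have hR := rkx ℓ (FF M) hF G e V γ hL hix a k hk hka hexp y hy
  obtain ⟨W, hW⟩ : ∃ W : Subgroup G, W = Uw (ℓ ^ k) V := ⟨_, rfl⟩
  have hWV : W ≤ V := by
    rw [hW]
    exact (pwu G (ℓ ^ k) V hab).2.1
  have hreg : ∀ j : ℕ, ¬ ℓ ∣ j → ∀ w ∈ W, Rg V γ (y ^ j * w) := by
    intro j hj w hw
    rw [hW] at hw
    exact ((rkx ℓ (FF M) hF G e V γ hL hix a k hk hka hexp _ (hR.1 j hj)).2.1 w hw).1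
  rw [← hW]
  have hnW : 0 < Nat.card W := Nat.card_pos
  have hnWr : (0 : ℝ) < Nat.card W := by exact_mod_cast hnW
  have hnWc : (Nat.card W : ℂ) ≠ 0 := by exact_mod_cast hnW.ne'
  obtain ⟨I, hI⟩ : ∃ I : Finset (G → ℂ), ∀ χ, χ ∈ I ↔ χ ∈ Irr G :=
    ⟨(irr_finite' (G := G)).toFinset, fun χ => Set.Finite.mem_toFinset _⟩
  obtain ⟨J, hJ⟩ : ∃ J : Fin (ℓ ^ (k - 1)) → ℕ, ∀ i, J i = j + ℓ * i := ⟨fun i => j + ℓ * i,
    fun _ => rfl⟩
  have hJm : ∀ i, j ≡ J i [MOD ℓ] := by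
    intro i
    rw [hJ]
    exact (Nat.modEq_iff_dvd' (Nat.le_add_right _ _)).2 (by simp)
  have hJd : ∀ i, ¬ ℓ ∣ J i := fun i h => hj (((hJm i).dvd_iff (dvd_refl ℓ)).2 h)
  have hfw : Fintype W := Fintype.ofFinite W
  have hcardW : (Fintype.card W : ℂ) = Nat.card W := by rw [Nat.card_eq_fintype_card]
  -- the inner products
  have hG : ∀ i i' : Fin (ℓ ^ (k - 1)), ∀ w w' : W,
      ∑ χ ∈ I, vv M b d (y ^ J i * w) χ * starRingEnd ℂ (vv M b d (y ^ J i' * w') χ) =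
        if i = i' ∧ w = w' then (Nat.card V : ℂ) else 0 := by
    intro i i' w w'
    have hr := hreg (J i) (hJd i) w w.2
    have hr' := hreg (J i') (hJd i') w' w'.2
    have h1 := dor ℓ M hM G e V γ b d c ε hD _ _ hr hr'
    have h3 : ∑ᶠ ψ ∈ Irr G, vv M b d (y ^ J i * w) ψ *
        starRingEnd ℂ (vv M b d (y ^ J i' * w') ψ) =
        ∑ ψ ∈ I, vv M b d (y ^ J i * w) ψ * starRingEnd ℂ (vv M b d (y ^ J i' * w') ψ) := by
      rw [← finsum_mem_coe_finset]
      refine finsum_mem_congr ?_ (fun _ _ => rfl)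
      ext ψ
      rw [Finset.mem_coe, hI]
    rw [h3] at h1
    split_ifs with hc
    · refine h1.1 ⟨1, (Tg V γ).one_mem, ?_⟩
      rw [hc.1, hc.2]
      group
    · refine h1.2 ?_
      rintro ⟨t, ht, htu⟩
      apply hc
      have hmod : J i' ≡ J i [MOD ℓ] := (hJm i').symm.trans (hJm i)
      have hw : (w : G) ∈ Uw (ℓ ^ k) V := (SetLike.ext_iff.1 hW _).1 w.2
      have hw' : (w' : G) ∈ Uw (ℓ ^ k) V := (SetLike.ext_iff.1 hW _).1 w'.2
      have hct := hR.2.2.1 (J i') (J i) (hJd i') hmod w' hw' w hw t ht htu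
      have hmem : y ^ J i' * (w' : G) ∈ V := hr'.1
      have hcomm := Subgroup.mem_centralizer_iff.1 hct _ hmem
      have heq : y ^ J i' * (w' : G) = y ^ J i * (w : G) := by
        rw [← htu, ← hcomm]
        group
      have hmodk := hR.2.2.2 (J i') (J i) w' hw' w hw heq
      have hii : i = i' := by
        have h4 : (ℓ * (i' : ℕ)) ≡ (ℓ * (i : ℕ)) [MOD ℓ ^ k] := by
          rw [hJ, hJ] at hmodk
          exact Nat.ModEq.add_left_cancel' j hmodk
        have h5 : ℓ ^ k = ℓ * ℓ ^ (k - 1) := by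
          rw [← pow_succ']
          congr 1
          omega
        rw [h5] at h4
        have h6 : (i' : ℕ) ≡ (i : ℕ) [MOD ℓ ^ (k - 1)] :=
          Nat.ModEq.mul_left_cancel' hp.pos.ne' h4
        have h7 : (i' : ℕ) = i := Nat.ModEq.eq_of_lt_of_lt h6 i'.2 i.2
        exact (Fin.ext h7).symm
      refine ⟨hii, ?_⟩
      rw [hii] at heq
      exact (Subtype.ext (mul_left_cancel heq)).symm
  -- the averages
  obtain ⟨aa, haa⟩ : ∃ aa : Fin (ℓ ^ (k - 1)) → (G → ℂ) → ℂ,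
      ∀ i χ, aa i χ = av M b d ε W (y ^ J i) χ := ⟨_, fun _ _ => rfl⟩
  have haa' : ∀ i χ, aa i χ = ∑ w : W, (Nat.card W : ℂ)⁻¹ * ((ε (y ^ J i * w) : ℂ) *
      vv M b d (y ^ J i * w) χ) := by
    intro i χ
    rw [haa, av, finsum_eq_sum_of_fintype, Finset.mul_sum]
  have hgram : ∀ i i', ∑ χ : I, aa i χ.1 * starRingEnd ℂ (aa i' χ.1) =
      if i = i' then ((Nat.card V / Nat.card W : ℝ) : ℂ) else 0 := by
    intro i i'
    rw [Finset.sum_coe_sort I (fun χ => aa i χ * starRingEnd ℂ (aa i' χ))]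
    have s1 : ∑ χ ∈ I, aa i χ * starRingEnd ℂ (aa i' χ) =
        ∑ w : W, ∑ w' : W, ((Nat.card W : ℂ)⁻¹ * (Nat.card W : ℂ)⁻¹ *
          ((ε (y ^ J i * w) : ℂ) * (ε (y ^ J i' * w') : ℂ))) *
          ∑ χ ∈ I, vv M b d (y ^ J i * w) χ *
            starRingEnd ℂ (vv M b d (y ^ J i' * w') χ) := by
      simp only [Finset.mul_sum]
      rw [Finset.sum_comm]
      have s2 : ∀ χ ∈ I, aa i χ * starRingEnd ℂ (aa i' χ) =
          ∑ w' : W, ∑ w : W, ((Nat.card W : ℂ)⁻¹ * (Nat.card W : ℂ)⁻¹ *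
          ((ε (y ^ J i * w) : ℂ) * (ε (y ^ J i' * w') : ℂ))) *
          (vv M b d (y ^ J i * w) χ * starRingEnd ℂ (vv M b d (y ^ J i' * w') χ)) := by
        intro χ _
        rw [haa' i, haa' i', map_sum, Finset.sum_mul_sum, Finset.sum_comm]
        refine Finset.sum_congr rfl fun w' _ => Finset.sum_congr rfl fun w _ => ?_
        rw [map_mul, map_mul, map_inv₀, Complex.conj_natCast, map_intCast]
        ring
      rw [Finset.sum_congr rfl s2, Finset.sum_comm]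
      refine Finset.sum_congr rfl fun w' _ => ?_
      rw [Finset.sum_comm]
    rw [s1]
    have s3 : ∀ w w' : W, ((Nat.card W : ℂ)⁻¹ * (Nat.card W : ℂ)⁻¹ *
          ((ε (y ^ J i * w) : ℂ) * (ε (y ^ J i' * w') : ℂ))) *
          ∑ χ ∈ I, vv M b d (y ^ J i * w) χ *
            starRingEnd ℂ (vv M b d (y ^ J i' * w') χ) =
        if w' = w then (if i = i' then (Nat.card W : ℂ)⁻¹ * (Nat.card W : ℂ)⁻¹ *
          (Nat.card V : ℂ) else 0) else 0 := by
      intro w w'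
      rw [hG]
      by_cases h1 : w' = w
      · subst h1
        by_cases h2 : i = i'
        · subst h2
          rw [if_pos ⟨rfl, rfl⟩, if_pos rfl, if_pos rfl]
          have hs : (ε (y ^ J i * w') : ℂ) * (ε (y ^ J i * w') : ℂ) = 1 := by
            rcases hD.sg _ (hreg (J i) (hJd i) w' w'.2) with h | h
            · rw [h]; norm_num
            · rw [h]; norm_num
          rw [hs]
          ring
        · rw [if_neg (fun h => h2 h.1), if_pos rfl, if_neg h2, mul_zero]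
      · rw [if_neg (fun h => h1 h.2.symm), if_neg h1, mul_zero]
    simp only [s3]
    rw [Finset.sum_congr rfl (fun w _ => Finset.sum_ite_eq' Finset.univ w _)]
    simp only [Finset.mem_univ, if_true]
    rw [Finset.sum_const, Finset.card_univ, nsmul_eq_mul, hcardW]
    split_ifs with h
    · push_cast
      field_simp
    · rw [mul_zero]
  -- Bessel's inequality
  obtain ⟨R, hRd⟩ : ∃ R : Finset (G → ℂ), ∀ χ, χ ∈ R ↔ χ ∈ IrrE M e ∧ ∀ g, χ (g ^ N) = χ g :=
    ⟨I.filter (fun χ => χ ∈ IrrE M e ∧ ∀ g, χ (g ^ N) = χ g), fun χ => by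
      rw [Finset.mem_filter]
      exact ⟨fun h => h.2, fun h => ⟨(hI χ).2 h.1.1, h⟩⟩⟩
  have hRI : R ⊆ I := fun χ h => (hI χ).2 ((hRd χ).1 h).1.1
  obtain ⟨x, hx⟩ : ∃ x : ℝ, x = ∑ χ ∈ R, Complex.normSq (av M b d ε W (y ^ j) χ) := ⟨_, rfl⟩
  have hfs : ∑ᶠ χ ∈ {χ | χ ∈ IrrE M e ∧ ∀ g, χ (g ^ N) = χ g},
      Complex.normSq (av M b d ε W (y ^ j) χ) = x := by
    rw [hx, ← finsum_mem_coe_finset]
    refine finsum_mem_congr ?_ (fun _ _ => rfl)
    ext χ
    rw [Finset.mem_coe, hRd]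
    rfl
  rw [hfs]
  have hx0 : 0 ≤ x := by
    rw [hx]
    exact Finset.sum_nonneg fun _ _ => Complex.normSq_nonneg _
  have hc0 : (0 : ℝ) ≤ Nat.card V / Nat.card W := by positivity
  have hB := bes (Fin (ℓ ^ (k - 1))) I (fun i χ => aa i χ.1) (Nat.card V / Nat.card W : ℝ) hc0 (by
    intro i
    simp only [hgram]
    rw [Finset.sum_eq_single i]
    · rw [if_pos rfl, Complex.norm_real, Real.norm_eq_abs, abs_of_nonneg hc0]
    · intro i' _ hne
      rw [if_neg (fun h => hne h.symm), norm_zero]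
    · intro h
      exact absurd (Finset.mem_univ _) h)
    (fun χ => if χ.1 ∈ R then starRingEnd ℂ (av M b d ε W (y ^ j) χ.1) else 0)
  have h1 : ∀ i : Fin (ℓ ^ (k - 1)), ∑ χ : I, (if χ.1 ∈ R then
      starRingEnd ℂ (av M b d ε W (y ^ j) χ.1) else 0) * aa i χ.1 = (x : ℂ) := by
    intro i
    rw [Finset.sum_coe_sort I (fun χ => (if χ ∈ R then
      starRingEnd ℂ (av M b d ε W (y ^ j) χ) else 0) * aa i χ)]
    rw [← Finset.sum_subset hRI]
    · rw [hx]
      push_cast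
      refine Finset.sum_congr rfl fun χ hχ => ?_
      rw [if_pos hχ, haa]
      have hχ' := (hRd χ).1 hχ
      have h2 := (av1 ℓ M hM hℓ2 G N hN e V γ b d c ε hD a k hk hka hexp y hy χ hχ'.1 hχ'.2 j
        hj).1 (J i) (hJm i)
      rw [← hW] at h2
      rw [← h2, Complex.normSq_eq_conj_mul_self]
    · intro χ _ hn
      rw [if_neg hn, zero_mul]
  have h2 : ∑ χ : I, Complex.normSq (if χ.1 ∈ R then
      starRingEnd ℂ (av M b d ε W (y ^ j) χ.1) else 0) = x := by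
    rw [Finset.sum_coe_sort I (fun χ => Complex.normSq (if χ ∈ R then
      starRingEnd ℂ (av M b d ε W (y ^ j) χ) else 0))]
    rw [← Finset.sum_subset hRI]
    · rw [hx]
      refine Finset.sum_congr rfl fun χ hχ => ?_
      rw [if_pos hχ, Complex.normSq_conj]
    · intro χ _ hn
      rw [if_neg hn, map_zero]
  simp only [h1, h2] at hB
  rw [Finset.sum_const, Finset.card_univ, Fintype.card_fin, nsmul_eq_mul, Complex.normSq_ofReal]
    at hB
  push_cast at hB
  rcases hx0.eq_or_lt with h0 | h0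
  · rw [← h0, mul_zero]
    exact Nat.cast_nonneg _
  · have h3 : (ℓ : ℝ) ^ (k - 1) * x ≤ Nat.card V / Nat.card W := by
      have h4 : ((ℓ : ℝ) ^ (k - 1) * x) * x ≤ (Nat.card V / Nat.card W : ℝ) * x := by
        rw [mul_assoc]
        exact hB
      exact le_of_mul_le_mul_right h4 h0
    rw [le_div_iff₀ hnWr] at h3
    calc (ℓ : ℝ) ^ (k - 1) * Nat.card W * x = (ℓ : ℝ) ^ (k - 1) * x * Nat.card W := by ring
      _ ≤ Nat.card V := h3

end Pool.Agent.PP.T8.H99
end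
end -- Pool.Agent.Helper99_AT8.AVO
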