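import Pool.Agent.Helper12_AWB.B115

/-!
# Merged copies (generated) of the modules

* `Pool.Agent.Helper23_AT3.TrgCore`
* `Pool.Agent.Helper33_AT8.TR2A`
* `Pool.Agent.Helper33_AT8.TR2B`
* `Pool.Agent.Helper33_AT8.TR2`
* `Pool.Agent.Helper23_AT3.TRG`
-/

set_option autoImplicit false

section -- Pool.Agent.Helper23_AT3.TrgCore

/-!
# Squad AT3, row TRG: the core of the trace argument, over a local domain
-/

open scoped BigOperators

noncomputable section

namespace Pool.Agent.PP.T3.H23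

section core

variable {R F : Type*} [CommRing R] [IsDomain R] [Field F] (r : R →+* F)
  {n : Type*} [Fintype n] [DecidableEq n]

theorem avg_comm {A : Type*} [Ring A] (V Y : A) (m : ℕ) (hV : V ^ m = 1) :
    V * ∑ k ∈ Finset.range m, V ^ k * Y * V ^ (m - k) =
      (∑ k ∈ Finset.range m, V ^ k * Y * V ^ (m - k)) * V := by
  have h1 : V * ∑ k ∈ Finset.range m, V ^ k * Y * V ^ (m - k) =
      ∑ k ∈ Finset.range m, (fun k => V ^ k * Y * V ^ (m + 1 - k)) (k + 1) := by
    rw [Finset.mul_sum]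
    refine Finset.sum_congr rfl fun k hk => ?_
    simp only [Nat.add_sub_add_right]
    rw [pow_succ' V k]
    simp only [mul_assoc]
  have h2 : (∑ k ∈ Finset.range m, V ^ k * Y * V ^ (m - k)) * V =
      ∑ k ∈ Finset.range m, (fun k => V ^ k * Y * V ^ (m + 1 - k)) k := by
    rw [Finset.sum_mul]
    refine Finset.sum_congr rfl fun k hk => ?_
    have hk' := Finset.mem_range.1 hk
    simp only
    rw [show m + 1 - k = (m - k) + 1 by omega, pow_succ V (m - k)]
    simp only [mul_assoc]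
  have h3 := Finset.sum_range_succ (fun k => V ^ k * Y * V ^ (m + 1 - k)) m
  have h4 := Finset.sum_range_succ' (fun k => V ^ k * Y * V ^ (m + 1 - k)) m
  have h5 : V ^ 0 * Y * V ^ (m + 1 - 0) = V ^ m * Y * V ^ (m + 1 - m) := by
    rw [show m + 1 - 0 = m + 1 by omega, show m + 1 - m = 1 by omega, pow_succ, hV]
    simp
  rw [h1, h2]
  rw [h3] at h4
  rw [← h5] at h4
  exact (add_right_cancel h4).symm

omit [IsDomain R] in
theorem eig {A : Type*} [Ring A] [Algebra R A] (U W X : A) (l : ℕ) (ω : R)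
    (hω : ω ^ l = 1) (hX : U ^ l * X * W ^ l = X) :
    U * (∑ i ∈ Finset.range l, ω ^ (l - i) • (U ^ i * X * W ^ i)) * W =
      ω • ∑ i ∈ Finset.range l, ω ^ (l - i) • (U ^ i * X * W ^ i) := by
  have h1 : U * (∑ i ∈ Finset.range l, ω ^ (l - i) • (U ^ i * X * W ^ i)) * W =
      ∑ i ∈ Finset.range l, (fun i => ω ^ (l + 1 - i) • (U ^ i * X * W ^ i)) (i + 1) := by
    rw [Finset.mul_sum, Finset.sum_mul]
    refine Finset.sum_congr rfl fun i hi => ?_
    simp only [Nat.add_sub_add_right]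
    rw [pow_succ' U i, pow_succ W i, mul_smul_comm, smul_mul_assoc]
    simp only [mul_assoc]
  have h2 : (ω • ∑ i ∈ Finset.range l, ω ^ (l - i) • (U ^ i * X * W ^ i)) =
      ∑ i ∈ Finset.range l, (fun i => ω ^ (l + 1 - i) • (U ^ i * X * W ^ i)) i := by
    rw [Finset.smul_sum]
    refine Finset.sum_congr rfl fun i hi => ?_
    have hi' := Finset.mem_range.1 hi
    simp only
    rw [show l + 1 - i = (l - i) + 1 by omega, pow_succ' ω (l - i), smul_smul]
  have h3 := Finset.sum_range_succ (fun i => ω ^ (l + 1 - i) • (U ^ i * X * W ^ i)) l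
  have h4 := Finset.sum_range_succ' (fun i => ω ^ (l + 1 - i) • (U ^ i * X * W ^ i)) l
  have h5 : ω ^ (l + 1 - 0) • (U ^ 0 * X * W ^ 0) = ω ^ (l + 1 - l) • (U ^ l * X * W ^ l) := by
    rw [show l + 1 - 0 = l + 1 by omega, show l + 1 - l = 1 by omega, pow_succ, hω, hX]
    simp
  rw [h1, h2]
  rw [h3] at h4
  rw [← h5] at h4
  exact (add_right_cancel h4).symm

theorem trg_core (l : ℕ) (hloc : ∀ x, r x ≠ 0 → IsUnit x) (ω : R) (hω : ω ^ l = 1)
    (hω1 : ω ≠ 1) (hrω : r ω = 1) (P U W V X : Matrix n n R) (m : ℕ) (hr : r (m : R) ≠ 0)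
    (hP : P * P = P) (hUW : U * W = 1) (hV : V ^ m = 1) (hUP : U * P = P * U) (hVP : V * P = P * V)
    (hUV : U * V = V * U) (hXU : X * U ^ l = U ^ l * X)
    (hs : r.mapMatrix P * (∑ i ∈ Finset.range l, r.mapMatrix U ^ i * r.mapMatrix X *
      r.mapMatrix W ^ i) * r.mapMatrix P = r.mapMatrix P) : (U * V * P).trace = 0 := by
  have hWU : W * U = 1 := mul_eq_one_comm.1 hUW
  have hWP : W * P = P * W := by
    calc W * P = W * P * (U * W) := by rw [hUW, mul_one]
      _ = W * (P * U) * W := by simp only [mul_assoc]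
      _ = W * (U * P) * W := by rw [hUP]
      _ = (W * U) * P * W := by simp only [mul_assoc]
      _ = P * W := by rw [hWU, one_mul]
  have hWV : W * V = V * W := by
    calc W * V = W * V * (U * W) := by rw [hUW, mul_one]
      _ = W * (V * U) * W := by simp only [mul_assoc]
      _ = W * (U * V) * W := by rw [hUV]
      _ = (W * U) * V * W := by simp only [mul_assoc]
      _ = V * W := by rw [hWU, one_mul]
  have cUP : ∀ i, U ^ i * P = P * U ^ i := fun i => (Commute.pow_left (show Commute U P from hUP) i)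
  have cWP : ∀ i, W ^ i * P = P * W ^ i := fun i => (Commute.pow_left (show Commute W P from hWP) i)
  have cVP : ∀ i, V ^ i * P = P * V ^ i := fun i => (Commute.pow_left (show Commute V P from hVP) i)
  have cUV : ∀ i j, U ^ i * V ^ j = V ^ j * U ^ i := fun i j =>
    (Commute.pow_pow (show Commute U V from hUV) i j)
  have cWV : ∀ i j, W ^ i * V ^ j = V ^ j * W ^ i := fun i j =>
    (Commute.pow_pow (show Commute W V from hWV) i j)
  have hUWp : ∀ i, U ^ i * W ^ i = 1 := fun i => by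
    rw [← (show Commute U W from hUW.trans hWU.symm).mul_pow, hUW, one_pow]
  obtain ⟨c, hc⟩ : ∃ c : R, c * (m : R) = 1 := by
    obtain ⟨u, hu⟩ := hloc _ hr
    exact ⟨(u⁻¹ : Rˣ), by rw [← hu]; simp⟩
  -- the average
  obtain ⟨Y, hYdef⟩ : ∃ Y, Y = P * X * P := ⟨_, rfl⟩
  have hYU : U ^ l * Y = Y * U ^ l := by
    calc U ^ l * Y = (U ^ l * P) * X * P := by rw [hYdef]; simp only [mul_assoc]
      _ = P * (U ^ l * X) * P := by rw [cUP]; simp only [mul_assoc]
      _ = P * X * (U ^ l * P) := by rw [← hXU]; simp only [mul_assoc]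
      _ = Y * U ^ l := by rw [cUP, hYdef]; simp only [mul_assoc]
  have hPY : P * Y = Y := by
    rw [hYdef, ← mul_assoc, ← mul_assoc, hP]
  have hYP : Y * P = Y := by
    rw [hYdef, mul_assoc, hP]
  obtain ⟨X₁, hX₁⟩ : ∃ X₁, X₁ = c • ∑ k ∈ Finset.range m, V ^ k * Y * V ^ (m - k) := ⟨_, rfl⟩
  have hVX : V * X₁ = X₁ * V := by
    rw [hX₁, mul_smul_comm, smul_mul_assoc, avg_comm V Y m hV]
  have hUX : U ^ l * X₁ = X₁ * U ^ l := by
    rw [hX₁, mul_smul_comm, smul_mul_assoc, Finset.mul_sum, Finset.sum_mul]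
    congr 1
    refine Finset.sum_congr rfl fun k _ => ?_
    calc U ^ l * (V ^ k * Y * V ^ (m - k)) = (U ^ l * V ^ k) * Y * V ^ (m - k) := by
          simp only [mul_assoc]
      _ = V ^ k * (U ^ l * Y) * V ^ (m - k) := by rw [cUV]; simp only [mul_assoc]
      _ = V ^ k * Y * (U ^ l * V ^ (m - k)) := by rw [hYU]; simp only [mul_assoc]
      _ = V ^ k * Y * V ^ (m - k) * U ^ l := by rw [cUV]; simp only [mul_assoc]
  have hPX : P * X₁ = X₁ := by
    rw [hX₁, mul_smul_comm, Finset.mul_sum]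
    congr 1
    refine Finset.sum_congr rfl fun k _ => ?_
    calc P * (V ^ k * Y * V ^ (m - k)) = (P * V ^ k) * Y * V ^ (m - k) := by
          simp only [mul_assoc]
      _ = V ^ k * (P * Y) * V ^ (m - k) := by rw [← cVP]; simp only [mul_assoc]
      _ = V ^ k * Y * V ^ (m - k) := by rw [hPY]
  have hXP : X₁ * P = X₁ := by
    rw [hX₁, smul_mul_assoc, Finset.sum_mul]
    congr 1
    refine Finset.sum_congr rfl fun k _ => ?_
    calc V ^ k * Y * V ^ (m - k) * P = V ^ k * (Y * P) * V ^ (m - k) := by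
          rw [mul_assoc, cVP]; simp only [mul_assoc]
      _ = V ^ k * Y * V ^ (m - k) := by rw [hYP]
  -- the eigenvector
  have hXl : U ^ l * X₁ * W ^ l = X₁ := by
    rw [hUX, mul_assoc, hUWp, mul_one]
  obtain ⟨φ, hφ⟩ : ∃ φ, φ = ∑ i ∈ Finset.range l, ω ^ (l - i) • (U ^ i * X₁ * W ^ i) := ⟨_, rfl⟩
  have hUφ : U * φ = ω • (φ * U) := by
    have h := eig U W X₁ l ω hω hXl
    rw [← hφ] at h
    calc U * φ = U * φ * (W * U) := by rw [hWU, mul_one]
      _ = (U * φ * W) * U := by simp only [mul_assoc]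
      _ = ω • (φ * U) := by rw [h, smul_mul_assoc]
  have hVφ : V * φ = φ * V := by
    rw [hφ, Finset.mul_sum, Finset.sum_mul]
    refine Finset.sum_congr rfl fun i _ => ?_
    rw [mul_smul_comm, smul_mul_assoc]
    congr 1
    have e1 := cUV i 1
    have e2 := cWV i 1
    rw [pow_one] at e1 e2
    calc V * (U ^ i * X₁ * W ^ i) = (V * U ^ i) * X₁ * W ^ i := by simp only [mul_assoc]
      _ = U ^ i * (V * X₁) * W ^ i := by rw [← e1]; simp only [mul_assoc]
      _ = U ^ i * X₁ * (V * W ^ i) := by rw [hVX]; simp only [mul_assoc]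
      _ = U ^ i * X₁ * W ^ i * V := by rw [← e2]; simp only [mul_assoc]
  have hPφ : P * φ = φ := by
    rw [hφ, Finset.mul_sum]
    refine Finset.sum_congr rfl fun i _ => ?_
    rw [mul_smul_comm]
    congr 1
    calc P * (U ^ i * X₁ * W ^ i) = (P * U ^ i) * X₁ * W ^ i := by simp only [mul_assoc]
      _ = U ^ i * (P * X₁) * W ^ i := by rw [← cUP]; simp only [mul_assoc]
      _ = U ^ i * X₁ * W ^ i := by rw [hPX]
  have hφP : φ * P = φ := by
    rw [hφ, Finset.sum_mul]
    refine Finset.sum_congr rfl fun i _ => ?_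
    rw [smul_mul_assoc]
    congr 1
    calc U ^ i * X₁ * W ^ i * P = U ^ i * (X₁ * P) * W ^ i := by
          rw [mul_assoc, cWP]; simp only [mul_assoc]
      _ = U ^ i * X₁ * W ^ i := by rw [hXP]
  -- the residue
  have hres : r.mapMatrix φ = r.mapMatrix P := by
    have rsm : ∀ (a : R) (A : Matrix n n R), r.mapMatrix (a • A) = r a • r.mapMatrix A := by
      intro a A
      ext i j
      simp
    have e1 : r.mapMatrix X₁ = r c • ∑ k ∈ Finset.range m, r.mapMatrix V ^ k *
        (r.mapMatrix P * r.mapMatrix X * r.mapMatrix P) * r.mapMatrix V ^ (m - k) := by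
      rw [hX₁, rsm, map_sum, hYdef]
      simp only [map_mul, map_pow]
    have e2 : r.mapMatrix φ = ∑ i ∈ Finset.range l, r.mapMatrix U ^ i * r.mapMatrix X₁ *
        r.mapMatrix W ^ i := by
      rw [hφ, map_sum]
      refine Finset.sum_congr rfl fun i _ => ?_
      rw [rsm, map_pow, hrω, one_pow, one_smul]
      simp only [map_mul, map_pow]
    have fUV : ∀ i j, r.mapMatrix U ^ i * r.mapMatrix V ^ j =
        r.mapMatrix V ^ j * r.mapMatrix U ^ i := fun i j => by
      rw [← map_pow, ← map_pow, ← map_mul, cUV, map_mul]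
    have fWV : ∀ i j, r.mapMatrix W ^ i * r.mapMatrix V ^ j =
        r.mapMatrix V ^ j * r.mapMatrix W ^ i := fun i j => by
      rw [← map_pow, ← map_pow, ← map_mul, cWV, map_mul]
    have fUP : ∀ i, r.mapMatrix U ^ i * r.mapMatrix P = r.mapMatrix P * r.mapMatrix U ^ i :=
      fun i => by rw [← map_pow, ← map_mul, cUP, map_mul]
    have fWP : ∀ i, r.mapMatrix W ^ i * r.mapMatrix P = r.mapMatrix P * r.mapMatrix W ^ i :=
      fun i => by rw [← map_pow, ← map_mul, cWP, map_mul]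
    have fVP : ∀ i, r.mapMatrix V ^ i * r.mapMatrix P = r.mapMatrix P * r.mapMatrix V ^ i :=
      fun i => by rw [← map_pow, ← map_mul, cVP, map_mul]
    have fV : r.mapMatrix V ^ m = 1 := by rw [← map_pow, hV, map_one]
    have fc : r c * (m : F) = 1 := by
      have := congrArg r hc
      rwa [map_mul, map_natCast, map_one] at this
    generalize r.mapMatrix P = p at *
    generalize r.mapMatrix U = u at *
    generalize r.mapMatrix V = v at *
    generalize r.mapMatrix W = w at *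
    generalize r.mapMatrix X = x at *
    have e3 : ∀ i k, u ^ i * (v ^ k * (p * x * p) * v ^ (m - k)) * w ^ i =
        v ^ k * (p * (u ^ i * x * w ^ i) * p) * v ^ (m - k) := by
      intro i k
      calc u ^ i * (v ^ k * (p * x * p) * v ^ (m - k)) * w ^ i
          = (u ^ i * v ^ k) * (p * x * p) * (v ^ (m - k) * w ^ i) := by simp only [mul_assoc]
        _ = v ^ k * (u ^ i * p) * x * (p * w ^ i) * v ^ (m - k) := by
            rw [fUV, ← fWV]; simp only [mul_assoc]
        _ = v ^ k * (p * (u ^ i * x * w ^ i) * p) * v ^ (m - k) := by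
            rw [fUP, ← fWP]; simp only [mul_assoc]
    calc r.mapMatrix φ = ∑ i ∈ Finset.range l, r c • ∑ k ∈ Finset.range m,
          v ^ k * (p * (u ^ i * x * w ^ i) * p) * v ^ (m - k) := by
          rw [e2]
          refine Finset.sum_congr rfl fun i _ => ?_
          rw [e1, mul_smul_comm, smul_mul_assoc, Finset.mul_sum, Finset.sum_mul]
          congr 1
          exact Finset.sum_congr rfl fun k _ => e3 i k
      _ = r c • ∑ k ∈ Finset.range m, v ^ k * (p * (∑ i ∈ Finset.range l, u ^ i * x * w ^ i) * p) *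
          v ^ (m - k) := by
          rw [← Finset.smul_sum, Finset.sum_comm]
          congr 1
          refine Finset.sum_congr rfl fun k _ => ?_
          rw [Finset.mul_sum, Finset.sum_mul, Finset.mul_sum, Finset.sum_mul]
      _ = r c • ∑ k ∈ Finset.range m, p := by
          congr 1
          refine Finset.sum_congr rfl fun k hk => ?_
          have hk' := Finset.mem_range.1 hk
          rw [hs, fVP, mul_assoc, ← pow_add, show k + (m - k) = m by omega, fV, mul_one]
      _ = p := by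
          rw [Finset.sum_const, Finset.card_range, ← Nat.cast_smul_eq_nsmul F, smul_smul, fc,
            one_smul]
  -- the unit
  obtain ⟨Z, hZ⟩ : ∃ Z, Z = φ + 1 - P := ⟨_, rfl⟩
  have hZr : r.mapMatrix Z = 1 := by
    rw [hZ, map_sub, map_add, hres, map_one]
    abel
  have hdet : IsUnit Z.det := by
    refine hloc _ ?_
    rw [RingHom.map_det, hZr, Matrix.det_one]
    exact one_ne_zero
  have hZi : Z * Z⁻¹ = 1 := Matrix.mul_nonsing_inv Z hdet
  have hiZ : Z⁻¹ * Z = 1 := Matrix.nonsing_inv_mul Z hdet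
  have hPZ : P * Z = φ := by
    rw [hZ, mul_sub, mul_add, hPφ, mul_one, hP]
    abel
  have hZP : Z * P = φ := by
    rw [hZ, sub_mul, add_mul, hφP, one_mul, hP]
    abel
  have h1 : φ * Z⁻¹ = P := by
    rw [← hPZ, mul_assoc, hZi, mul_one]
  have h2 : Z⁻¹ * φ = P := by
    rw [← hZP, ← mul_assoc, hiZ, one_mul]
  have h3 : U * V * P = ω • (φ * (U * V) * Z⁻¹) := by
    calc U * V * P = U * (V * φ) * Z⁻¹ := by rw [← h1]; simp only [mul_assoc]
      _ = (U * φ) * V * Z⁻¹ := by rw [hVφ]; simp only [mul_assoc]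
      _ = ω • (φ * (U * V) * Z⁻¹) := by
          rw [hUφ, smul_mul_assoc, smul_mul_assoc]
          simp only [mul_assoc]
  have h4 : (U * V * P).trace = ω * (U * V * P).trace := by
    have e1 : (φ * (U * V) * Z⁻¹).trace = (U * V * P).trace := by
      rw [Matrix.trace_mul_comm, ← mul_assoc, h2]
      rw [show P * (U * V) = U * V * P from by
        rw [← mul_assoc, ← hUP, mul_assoc, ← hVP, ← mul_assoc]]
    calc (U * V * P).trace = (ω • (φ * (U * V) * Z⁻¹)).trace := by rw [← h3]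
      _ = ω * (U * V * P).trace := by rw [Matrix.trace_smul, e1, smul_eq_mul]
  have h5 : (1 - ω) * (U * V * P).trace = 0 := by
    rw [sub_mul, one_mul, ← h4, sub_self]
  rcases mul_eq_zero.1 h5 with h | h
  · exact absurd (sub_eq_zero.1 h).symm hω1
  · exact h

end core

end Pool.Agent.PP.T3.H23
end
end -- Pool.Agent.Helper23_AT3.TrgCore

section -- Pool.Agent.Helper33_AT8.TR2A

/-!
# Squad AT8, row TR2: the field part and the averages
-/

open scoped BigOperators
open Matrix

noncomputable section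

namespace Pool.Agent.PP.T8.H33

section field

variable {F : Type*} [Field F] {n : Type*} [Fintype n] [DecidableEq n]

/-- `a + t (p - a)² + (1 - p)` is invertible if no eigenvalue `μ` of `a` satisfies
`t (1 - μ)² + μ = 0`. -/
theorem det_ne [IsAlgClosed F] (p a : Matrix n n F) (hp : p * p = p) (hpa : p * a = a)
    (hap : a * p = a) (t : F) (ht : t ≠ 0)
    (hav : ∀ μ : F, ∀ v : n → F, v ≠ 0 → a *ᵥ v = μ • v → t * (1 - μ) ^ 2 + μ ≠ 0) :
    (a + t • ((p - a) * (p - a)) + (1 - p)).det ≠ 0 := by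
  intro hdet
  obtain ⟨v, hv, hAv⟩ := Matrix.exists_mulVec_eq_zero_iff.2 hdet
  have h1 : (1 - p) * (a + t • ((p - a) * (p - a)) + (1 - p)) = 1 - p := by
    have e1 : (1 - p) * a = 0 := by rw [sub_mul, one_mul, hpa, sub_self]
    have e2 : (1 - p) * (p - a) = 0 := by
      rw [mul_sub, e1, sub_zero, sub_mul, one_mul, hp, sub_self]
    have e3 : (1 - p) * (1 - p) = 1 - p := by
      rw [mul_sub, mul_one, sub_mul, one_mul, hp, sub_self, sub_zero]
    rw [mul_add, mul_add, e1, mul_smul_comm, ← mul_assoc, e2, zero_mul, smul_zero, e3]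
    simp
  have h2 : (1 - p) *ᵥ v = 0 := by
    rw [← h1, ← Matrix.mulVec_mulVec, hAv, Matrix.mulVec_zero]
  have h3 : p *ᵥ v = v := by
    rw [Matrix.sub_mulVec, Matrix.one_mulVec] at h2
    exact (sub_eq_zero.1 h2).symm
  have h4 : (p - a) * (p - a) = p - a - a + a * a := by
    rw [sub_mul, mul_sub, mul_sub, hp, hpa, hap]
    abel
  obtain ⟨w, hw⟩ : ∃ w, w = a *ᵥ v := ⟨_, rfl⟩
  obtain ⟨z, hz⟩ : ∃ z, z = a *ᵥ w := ⟨_, rfl⟩
  have h5 : w + t • (v - w - w + z) = 0 := by
    have e1 : (a + t • ((p - a) * (p - a)) + (1 - p)) *ᵥ v =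
        a *ᵥ v + t • (p *ᵥ v - a *ᵥ v - a *ᵥ v + a *ᵥ (a *ᵥ v)) + (1 - p) *ᵥ v := by
      rw [h4, Matrix.add_mulVec, Matrix.add_mulVec, Matrix.smul_mulVec, Matrix.add_mulVec,
        Matrix.sub_mulVec, Matrix.sub_mulVec, Matrix.mulVec_mulVec]
    rw [h2, h3, ← hw, ← hz, add_zero] at e1
    rw [← e1]
    exact hAv
  obtain ⟨s, hs⟩ : ∃ s : F, t * s ^ 2 + (-1) * s + 1 = 0 := by
    obtain ⟨s, hs⟩ := IsAlgClosed.exists_root (Polynomial.C t * Polynomial.X ^ 2 +
      Polynomial.C (-1) * Polynomial.X + Polynomial.C 1) (by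
        rw [Polynomial.degree_quadratic ht]
        decide)
    refine ⟨s, ?_⟩
    simpa [Polynomial.IsRoot] using hs
  obtain ⟨y, hy⟩ : ∃ y, y = w - (1 - s) • v := ⟨_, rfl⟩
  have hay : a *ᵥ y = (1 + s - t⁻¹) • y := by
    have e1 : a *ᵥ y = z - (1 - s) • w := by
      rw [hy, Matrix.mulVec_sub, Matrix.mulVec_smul, ← hw, ← hz]
    have e2 : t • (z - (1 - s) • w - (1 + s - t⁻¹) • y) = 0 := by
      rw [hy, ← h5]
      ext i
      simp only [Pi.smul_apply, Pi.sub_apply, Pi.add_apply, smul_eq_mul]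
      field_simp
      linear_combination (-(v i)) * hs
    rcases smul_eq_zero.1 e2 with h | h
    · exact absurd h ht
    · rw [e1]
      exact sub_eq_zero.1 h
  by_cases hy0 : y = 0
  · refine hav (1 - s) v hv ?_ ?_
    · rw [← hw]
      exact sub_eq_zero.1 (hy.symm.trans hy0)
    · linear_combination hs
  · refine hav (1 + s - t⁻¹) y hy0 hay ?_
    have e3 : t * t⁻¹ = 1 := mul_inv_cancel₀ ht
    linear_combination hs + (t⁻¹ - 2 * s - 1 + 1) * e3

/-- the eigenvalues are roots of the characteristic polynomial -/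
theorem eig_mem (a : Matrix n n F) (μ : F) (v : n → F) (hv : v ≠ 0) (h : a *ᵥ v = μ • v) :
    μ ∈ a.charpoly.roots := by
  rw [Polynomial.mem_roots (Matrix.charpoly_monic a).ne_zero, Polynomial.IsRoot,
    Matrix.eval_charpoly]
  refine Matrix.exists_mulVec_eq_zero_iff.1 ⟨v, hv, ?_⟩
  rw [Matrix.sub_mulVec, h]
  ext i
  simp [Matrix.scalar_apply, Matrix.mulVec_diagonal]

theorem exists_t [IsAlgClosed F] (p q : Matrix n n F) (hp : p * p = p) (hq : q * q = q) :
    ∃ t : F, (p * q * p + t • ((p - p * q * p) * (p - p * q * p)) + (1 - p)).det ≠ 0 ∧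
      (q * p * q + t • ((q - q * p * q) * (q - q * p * q)) + (1 - q)).det ≠ 0 := by
  classical
  obtain ⟨t, ht⟩ := Infinite.exists_notMem_finset (insert (0 : F)
    (((p * q * p).charpoly.roots.toFinset ∪ (q * p * q).charpoly.roots.toFinset).image
      (fun μ => -μ / (1 - μ) ^ 2)))
  rw [Finset.mem_insert, not_or] at ht
  obtain ⟨ht0, ht1⟩ := ht
  have key : ∀ μ : F, μ ∈ (p * q * p).charpoly.roots.toFinset ∪
      (q * p * q).charpoly.roots.toFinset → t * (1 - μ) ^ 2 + μ ≠ 0 := by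
    intro μ hμ h0
    apply ht1
    refine Finset.mem_image.2 ⟨μ, hμ, ?_⟩
    have h1 : (1 - μ) ^ 2 ≠ 0 := by
      intro h2
      have h3 : 1 - μ = 0 := by
        exact (pow_eq_zero_iff two_ne_zero).1 h2
      rw [h3] at h0
      have : μ = 1 := (sub_eq_zero.1 h3).symm
      rw [this] at h0
      norm_num at h0
    rw [div_eq_iff h1]
    linear_combination -h0
  refine ⟨t, ?_, ?_⟩
  · refine det_ne p (p * q * p) hp (by simp only [← mul_assoc, hp]) (by rw [mul_assoc, hp]) t ht0 ?_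
    intro μ v hv h
    exact key μ (Finset.mem_union_left _ (Multiset.mem_toFinset.2 (eig_mem _ μ v hv h)))
  · refine det_ne q (q * p * q) hq (by simp only [← mul_assoc, hq]) (by rw [mul_assoc, hq]) t ht0 ?_
    intro μ v hv h
    exact key μ (Finset.mem_union_right _ (Multiset.mem_toFinset.2 (eig_mem _ μ v hv h)))

end field

section avg

variable {R F : Type*} [CommRing R] [Field F] (r : R →+* F)
  {n : Type*} [Fintype n] [DecidableEq n]

/-- the average of `X` over the powers of `V` -/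
theorem avg (l : ℕ) (U W V X : Matrix n n R) (m : ℕ) (c : R) (hc : c * (m : R) = 1)
    (hUW : U * W = 1) (hV : V ^ m = 1) (hUV : U * V = V * U) (hXU : X * U ^ l = U ^ l * X)
    (s : Matrix n n F) (hVs : r.mapMatrix V * s = s * r.mapMatrix V)
    (hs : ∑ i ∈ Finset.range l, r.mapMatrix U ^ i * r.mapMatrix X * r.mapMatrix W ^ i = s) :
    ∃ Y : Matrix n n R, V * Y = Y * V ∧ U ^ l * Y * W ^ l = Y ∧
      ∑ i ∈ Finset.range l, r.mapMatrix U ^ i * r.mapMatrix Y * r.mapMatrix W ^ i = s := by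
  have hWU : W * U = 1 := mul_eq_one_comm.1 hUW
  have hWV : W * V = V * W := by
    calc W * V = W * V * (U * W) := by rw [hUW, mul_one]
      _ = W * (V * U) * W := by simp only [mul_assoc]
      _ = W * (U * V) * W := by rw [hUV]
      _ = (W * U) * V * W := by simp only [mul_assoc]
      _ = V * W := by rw [hWU, one_mul]
  have cUV : ∀ i j, U ^ i * V ^ j = V ^ j * U ^ i := fun i j =>
    (Commute.pow_pow (show Commute U V from hUV) i j)
  have cWV : ∀ i j, W ^ i * V ^ j = V ^ j * W ^ i := fun i j =>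
    (Commute.pow_pow (show Commute W V from hWV) i j)
  have hUWp : ∀ i, U ^ i * W ^ i = 1 := fun i => by
    rw [← (show Commute U W from hUW.trans hWU.symm).mul_pow, hUW, one_pow]
  refine ⟨c • ∑ k ∈ Finset.range m, V ^ k * X * V ^ (m - k), ?_, ?_, ?_⟩
  · rw [mul_smul_comm, smul_mul_assoc, T3.H23.avg_comm V X m hV]
  · have e1 : U ^ l * (c • ∑ k ∈ Finset.range m, V ^ k * X * V ^ (m - k)) =
        (c • ∑ k ∈ Finset.range m, V ^ k * X * V ^ (m - k)) * U ^ l := by
      rw [mul_smul_comm, smul_mul_assoc, Finset.mul_sum, Finset.sum_mul]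
      congr 1
      refine Finset.sum_congr rfl fun k _ => ?_
      calc U ^ l * (V ^ k * X * V ^ (m - k)) = (U ^ l * V ^ k) * X * V ^ (m - k) := by
            simp only [mul_assoc]
        _ = V ^ k * (U ^ l * X) * V ^ (m - k) := by rw [cUV]; simp only [mul_assoc]
        _ = V ^ k * X * (U ^ l * V ^ (m - k)) := by rw [← hXU]; simp only [mul_assoc]
        _ = V ^ k * X * V ^ (m - k) * U ^ l := by rw [cUV]; simp only [mul_assoc]
    rw [e1, mul_assoc, hUWp, mul_one]
  · have rsm : ∀ (a : R) (A : Matrix n n R), r.mapMatrix (a • A) = r a • r.mapMatrix A := by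
      intro a A
      ext i j
      simp
    have fUV : ∀ i j, r.mapMatrix U ^ i * r.mapMatrix V ^ j =
        r.mapMatrix V ^ j * r.mapMatrix U ^ i := fun i j => by
      rw [← map_pow, ← map_pow, ← map_mul, cUV, map_mul]
    have fWV : ∀ i j, r.mapMatrix W ^ i * r.mapMatrix V ^ j =
        r.mapMatrix V ^ j * r.mapMatrix W ^ i := fun i j => by
      rw [← map_pow, ← map_pow, ← map_mul, cWV, map_mul]
    have fV : r.mapMatrix V ^ m = 1 := by rw [← map_pow, hV, map_one]
    have fc : r c * (m : F) = 1 := by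
      have := congrArg r hc
      rwa [map_mul, map_natCast, map_one] at this
    have e0 : r.mapMatrix (c • ∑ k ∈ Finset.range m, V ^ k * X * V ^ (m - k)) =
        r c • ∑ k ∈ Finset.range m, r.mapMatrix V ^ k * r.mapMatrix X *
          r.mapMatrix V ^ (m - k) := by
      rw [rsm, map_sum]
      simp only [map_mul, map_pow]
    rw [e0]
    have hVs' : ∀ k, r.mapMatrix V ^ k * s = s * r.mapMatrix V ^ k := fun k =>
      Commute.pow_left (show Commute (r.mapMatrix V) s from hVs) k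
    generalize r.mapMatrix U = u at *
    generalize r.mapMatrix V = v at *
    generalize r.mapMatrix W = w at *
    generalize r.mapMatrix X = x at *
    have e3 : ∀ i k, u ^ i * (v ^ k * x * v ^ (m - k)) * w ^ i =
        v ^ k * (u ^ i * x * w ^ i) * v ^ (m - k) := by
      intro i k
      calc u ^ i * (v ^ k * x * v ^ (m - k)) * w ^ i
          = (u ^ i * v ^ k) * x * (v ^ (m - k) * w ^ i) := by simp only [mul_assoc]
        _ = v ^ k * (u ^ i * x * w ^ i) * v ^ (m - k) := by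
            rw [fUV, ← fWV]; simp only [mul_assoc]
    calc ∑ i ∈ Finset.range l, u ^ i * (r c • ∑ k ∈ Finset.range m, v ^ k * x * v ^ (m - k)) * w ^ i
        = ∑ i ∈ Finset.range l, r c • ∑ k ∈ Finset.range m,
          v ^ k * (u ^ i * x * w ^ i) * v ^ (m - k) := by
          refine Finset.sum_congr rfl fun i _ => ?_
          rw [mul_smul_comm, smul_mul_assoc, Finset.mul_sum, Finset.sum_mul]
          congr 1
          exact Finset.sum_congr rfl fun k _ => e3 i k
      _ = r c • ∑ k ∈ Finset.range m, v ^ k * (∑ i ∈ Finset.range l, u ^ i * x * w ^ i) *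
          v ^ (m - k) := by
          rw [← Finset.smul_sum, Finset.sum_comm]
          congr 1
          refine Finset.sum_congr rfl fun k _ => ?_
          rw [Finset.mul_sum, Finset.sum_mul]
      _ = r c • ∑ k ∈ Finset.range m, s := by
          congr 1
          refine Finset.sum_congr rfl fun k hk => ?_
          have hk' := Finset.mem_range.1 hk
          rw [hs, hVs', mul_assoc, ← pow_add, show k + (m - k) = m by omega, fV, mul_one]
      _ = s := by
          rw [Finset.sum_const, Finset.card_range, ← Nat.cast_smul_eq_nsmul F, smul_smul, fc,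
            one_smul]

/-- the eigenvector -/
theorem phi (l : ℕ) (U W V Y : Matrix n n R) (ω : R) (hω : ω ^ l = 1) (hrω : r ω = 1)
    (hUW : U * W = 1) (hUV : U * V = V * U) (hVY : V * Y = Y * V) (hY : U ^ l * Y * W ^ l = Y)
    (s : Matrix n n F)
    (hs : ∑ i ∈ Finset.range l, r.mapMatrix U ^ i * r.mapMatrix Y * r.mapMatrix W ^ i = s) :
    ∃ φ : Matrix n n R, U * φ = ω • (φ * U) ∧ V * φ = φ * V ∧ r.mapMatrix φ = s := by
  have hWU : W * U = 1 := mul_eq_one_comm.1 hUW
  have hWV : W * V = V * W := by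
    calc W * V = W * V * (U * W) := by rw [hUW, mul_one]
      _ = W * (V * U) * W := by simp only [mul_assoc]
      _ = W * (U * V) * W := by rw [hUV]
      _ = (W * U) * V * W := by simp only [mul_assoc]
      _ = V * W := by rw [hWU, one_mul]
  have cUV : ∀ i j, U ^ i * V ^ j = V ^ j * U ^ i := fun i j =>
    (Commute.pow_pow (show Commute U V from hUV) i j)
  have cWV : ∀ i j, W ^ i * V ^ j = V ^ j * W ^ i := fun i j =>
    (Commute.pow_pow (show Commute W V from hWV) i j)
  obtain ⟨φ, hφ⟩ : ∃ φ, φ = ∑ i ∈ Finset.range l, ω ^ (l - i) • (U ^ i * Y * W ^ i) := ⟨_, rfl⟩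
  refine ⟨φ, ?_, ?_, ?_⟩
  · have h := T3.H23.eig U W Y l ω hω hY
    rw [← hφ] at h
    calc U * φ = U * φ * (W * U) := by rw [hWU, mul_one]
      _ = (U * φ * W) * U := by simp only [mul_assoc]
      _ = ω • (φ * U) := by rw [h, smul_mul_assoc]
  · rw [hφ, Finset.mul_sum, Finset.sum_mul]
    refine Finset.sum_congr rfl fun i _ => ?_
    rw [mul_smul_comm, smul_mul_assoc]
    congr 1
    have e1 := cUV i 1
    have e2 := cWV i 1
    rw [pow_one] at e1 e2
    calc V * (U ^ i * Y * W ^ i) = (V * U ^ i) * Y * W ^ i := by simp only [mul_assoc]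
      _ = U ^ i * (V * Y) * W ^ i := by rw [← e1]; simp only [mul_assoc]
      _ = U ^ i * Y * (V * W ^ i) := by rw [hVY]; simp only [mul_assoc]
      _ = U ^ i * Y * W ^ i * V := by rw [← e2]; simp only [mul_assoc]
  · have rsm : ∀ (a : R) (A : Matrix n n R), r.mapMatrix (a • A) = r a • r.mapMatrix A := by
      intro a A
      ext i j
      simp
    rw [hφ, map_sum, ← hs]
    refine Finset.sum_congr rfl fun i _ => ?_
    rw [rsm, map_pow, hrω, one_pow, one_smul]
    simp only [map_mul, map_pow]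

end avg

end Pool.Agent.PP.T8.H33
end
end -- Pool.Agent.Helper33_AT8.TR2A

section -- Pool.Agent.Helper33_AT8.TR2B

/-!
# Squad AT8, row TR2: the block matrices
-/

open scoped BigOperators
open Matrix

noncomputable section

namespace Pool.Agent.PP.T8.H33

variable {R F : Type*} [CommRing R] [IsDomain R] [Field F] (r : R →+* F)
  {n : Type*} [Fintype n] [DecidableEq n]

omit [IsDomain R] [DecidableEq n] in
theorem tr_blocks (A B C D : Matrix n n R) : (fromBlocks A B C D).trace = A.trace + D.trace := by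
  simp [Matrix.trace, Fintype.sum_sum_type]

theorem core (hloc : ∀ x, r x ≠ 0 → IsUnit x)
    (hid : ∀ E : Matrix (n ⊕ n) (n ⊕ n) R, E * E = E → E.trace = 0 → E = 0)
    (ω ω' : R) (hωω : ω * ω' = 1) (hω1 : ω ≠ 1) (t : R) (P₁ P₂ φ φ' D : Matrix n n R)
    (h1 : P₁ * P₁ = P₁) (h2 : P₂ * P₂ = P₂) (hD1 : D * P₁ = P₁ * D) (hD2 : D * P₂ = P₂ * D)
    (hφ : D * φ = ω • (φ * D)) (hφ' : D * φ' = ω' • (φ' * D))
    (rφ : r.mapMatrix φ = r.mapMatrix P₁ - r.mapMatrix P₂)
    (rφ' : r.mapMatrix φ' = r.mapMatrix P₁ - r.mapMatrix P₂)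
    (hA : (r.mapMatrix P₁ * r.mapMatrix P₂ * r.mapMatrix P₁ +
      r t • ((r.mapMatrix P₁ - r.mapMatrix P₁ * r.mapMatrix P₂ * r.mapMatrix P₁) *
        (r.mapMatrix P₁ - r.mapMatrix P₁ * r.mapMatrix P₂ * r.mapMatrix P₁)) +
      (1 - r.mapMatrix P₁)).det ≠ 0)
    (hB : (r.mapMatrix P₂ * r.mapMatrix P₁ * r.mapMatrix P₂ +
      r t • ((r.mapMatrix P₂ - r.mapMatrix P₂ * r.mapMatrix P₁ * r.mapMatrix P₂) *
        (r.mapMatrix P₂ - r.mapMatrix P₂ * r.mapMatrix P₁ * r.mapMatrix P₂)) +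
      (1 - r.mapMatrix P₂)).det ≠ 0) : (D * P₁).trace = (D * P₂).trace := by
  obtain ⟨Φ, hΦ⟩ : ∃ Φ, Φ = fromBlocks (P₂ * P₁) (t • (P₂ * φ * P₂)) (P₁ * φ' * P₁) (P₁ * P₂) :=
    ⟨_, rfl⟩
  obtain ⟨Ψ, hΨ⟩ : ∃ Ψ, Ψ = fromBlocks (P₁ * P₂) (t • (P₁ - P₁ * P₂ * P₁))
    (-(P₂ - P₂ * P₁ * P₂)) (P₂ * P₁) := ⟨_, rfl⟩
  obtain ⟨P, hP⟩ : ∃ P : Matrix (n ⊕ n) (n ⊕ n) R, P = fromBlocks P₁ 0 0 P₂ := ⟨_, rfl⟩
  obtain ⟨Q, hQ⟩ : ∃ Q : Matrix (n ⊕ n) (n ⊕ n) R, Q = fromBlocks P₂ 0 0 P₁ := ⟨_, rfl⟩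
  obtain ⟨T, hT⟩ : ∃ T : Matrix (n ⊕ n) (n ⊕ n) R, T = fromBlocks D 0 0 (ω • D) := ⟨_, rfl⟩
  have a1 : ∀ A : Matrix n n R, P₁ * (P₁ * A) = P₁ * A := fun A => by rw [← mul_assoc, h1]
  have a2 : ∀ A : Matrix n n R, P₂ * (P₂ * A) = P₂ * A := fun A => by rw [← mul_assoc, h2]
  have hPP : P * P = P := by
    rw [hP, fromBlocks_multiply]
    simp only [mul_zero, zero_mul, add_zero, zero_add, h1, h2]
  have hQQ : Q * Q = Q := by
    rw [hQ, fromBlocks_multiply]
    simp only [mul_zero, zero_mul, add_zero, zero_add, h1, h2]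
  have hΦP : Φ * P = Φ := by
    rw [hΦ, hP, fromBlocks_multiply]
    simp only [mul_zero, add_zero, zero_add, smul_mul_assoc, mul_assoc, h1, h2]
  have hQΦ : Q * Φ = Φ := by
    rw [hΦ, hQ, fromBlocks_multiply]
    simp only [zero_mul, add_zero, zero_add, mul_smul_comm, mul_assoc, a1, a2, smul_zero]
  have hPΨ : P * Ψ = Ψ := by
    rw [hΨ, hP, fromBlocks_multiply]
    simp only [zero_mul, add_zero, zero_add, mul_smul_comm, mul_assoc, mul_sub, mul_neg, a1, a2,
      h1, h2, smul_zero, sub_zero, neg_zero]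
  have hΨQ : Ψ * Q = Ψ := by
    rw [hΨ, hQ, fromBlocks_multiply]
    simp only [mul_zero, add_zero, zero_add, smul_mul_assoc, mul_assoc, sub_mul, neg_mul,
      h1, h2]
  have hTΦ : T * Φ = Φ * T := by
    rw [hΦ, hT, fromBlocks_multiply, fromBlocks_multiply]
    simp only [zero_mul, mul_zero, add_zero, zero_add]
    congr 1
    · rw [← mul_assoc, hD2, mul_assoc, hD1, mul_assoc]
    · rw [mul_smul_comm, smul_mul_assoc, mul_smul_comm]
      congr 1
      calc D * (P₂ * φ * P₂) = (D * P₂) * φ * P₂ := by simp only [mul_assoc]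
        _ = P₂ * (D * φ) * P₂ := by rw [hD2]; simp only [mul_assoc]
        _ = ω • (P₂ * φ * (D * P₂)) := by
            rw [hφ, mul_smul_comm, smul_mul_assoc]; simp only [mul_assoc]
        _ = ω • (P₂ * φ * P₂ * D) := by rw [hD2]; simp only [mul_assoc]
    · rw [smul_mul_assoc]
      calc ω • (D * (P₁ * φ' * P₁)) = ω • ((D * P₁) * φ' * P₁) := by simp only [mul_assoc]
        _ = ω • (P₁ * (D * φ') * P₁) := by rw [hD1]; simp only [mul_assoc]
        _ = (ω * ω') • (P₁ * φ' * (D * P₁)) := by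
            rw [hφ', mul_smul_comm, smul_mul_assoc, smul_smul]; simp only [mul_assoc]
        _ = P₁ * φ' * P₁ * D := by rw [hωω, one_smul, hD1]; simp only [mul_assoc]
    · rw [smul_mul_assoc, mul_smul_comm]
      congr 1
      rw [← mul_assoc, hD1, mul_assoc, hD2, mul_assoc]
  obtain ⟨Z, hZ⟩ : ∃ Z, Z = Ψ * Φ + 1 - P := ⟨_, rfl⟩
  have hdet : IsUnit Z.det := by
    refine hloc _ ?_
    have rsm : ∀ (a : R) (A : Matrix n n R), r.mapMatrix (a • A) = r a • r.mapMatrix A := by
      intro a A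
      ext i j
      simp
    have e1 : r.mapMatrix Z = fromBlocks
        (r.mapMatrix P₁ * r.mapMatrix P₂ * r.mapMatrix P₁ +
          r t • ((r.mapMatrix P₁ - r.mapMatrix P₁ * r.mapMatrix P₂ * r.mapMatrix P₁) *
            (r.mapMatrix P₁ - r.mapMatrix P₁ * r.mapMatrix P₂ * r.mapMatrix P₁)) +
          (1 - r.mapMatrix P₁)) 0 0
        (r.mapMatrix P₂ * r.mapMatrix P₁ * r.mapMatrix P₂ +
          r t • ((r.mapMatrix P₂ - r.mapMatrix P₂ * r.mapMatrix P₁ * r.mapMatrix P₂) *
            (r.mapMatrix P₂ - r.mapMatrix P₂ * r.mapMatrix P₁ * r.mapMatrix P₂)) +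
          (1 - r.mapMatrix P₂)) := by
      have e2 : r.mapMatrix Z = r.mapMatrix Ψ * r.mapMatrix Φ + 1 - r.mapMatrix P := by
        rw [hZ, map_sub, map_add, map_mul, map_one]
      have k1 : r.mapMatrix P₁ * r.mapMatrix P₁ = r.mapMatrix P₁ := by rw [← map_mul, h1]
      have k2 : r.mapMatrix P₂ * r.mapMatrix P₂ = r.mapMatrix P₂ := by rw [← map_mul, h2]
      have eΦ : r.mapMatrix Φ = fromBlocks (r.mapMatrix P₂ * r.mapMatrix P₁)
          (r t • (r.mapMatrix P₂ * (r.mapMatrix P₁ - r.mapMatrix P₂) * r.mapMatrix P₂))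
          (r.mapMatrix P₁ * (r.mapMatrix P₁ - r.mapMatrix P₂) * r.mapMatrix P₁)
          (r.mapMatrix P₁ * r.mapMatrix P₂) := by
        rw [hΦ, RingHom.mapMatrix_apply, fromBlocks_map]
        simp only [← RingHom.mapMatrix_apply, map_mul, rsm, rφ, rφ']
      have eΨ : r.mapMatrix Ψ = fromBlocks (r.mapMatrix P₁ * r.mapMatrix P₂)
          (r t • (r.mapMatrix P₁ - r.mapMatrix P₁ * r.mapMatrix P₂ * r.mapMatrix P₁))
          (-(r.mapMatrix P₂ - r.mapMatrix P₂ * r.mapMatrix P₁ * r.mapMatrix P₂))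
          (r.mapMatrix P₂ * r.mapMatrix P₁) := by
        rw [hΨ, RingHom.mapMatrix_apply, fromBlocks_map]
        simp only [← RingHom.mapMatrix_apply, map_mul, rsm, map_sub, map_neg]
      have eP : r.mapMatrix P = fromBlocks (r.mapMatrix P₁) 0 0 (r.mapMatrix P₂) := by
        rw [hP, RingHom.mapMatrix_apply, fromBlocks_map]
        simp only [← RingHom.mapMatrix_apply]
        congr 1 <;> · ext i j; simp
      rw [e2, eΦ, eΨ, eP]
      generalize r.mapMatrix P₁ = p at *
      generalize r.mapMatrix P₂ = q at *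
      have b1 : ∀ A : Matrix n n F, p * (p * A) = p * A := fun A => by rw [← mul_assoc, k1]
      have b2 : ∀ A : Matrix n n F, q * (q * A) = q * A := fun A => by rw [← mul_assoc, k2]
      rw [fromBlocks_multiply, ← fromBlocks_one, fromBlocks_add, sub_eq_add_neg, fromBlocks_neg,
        fromBlocks_add]
      congr 1
      · have e3 : p * (p - q) * p = p - p * q * p := by
          rw [mul_sub, sub_mul, k1, k1]
        have e4 : p * q * (q * p) = p * q * p := by
          simp only [mul_assoc, b2]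
        rw [e3, e4, smul_mul_assoc]
        abel
      · simp only [mul_sub, sub_mul, mul_assoc, mul_smul_comm, smul_mul_assoc, b1, b2, k2,
          smul_sub]
        abel
      · simp only [mul_sub, sub_mul, mul_assoc, b1, b2, k1, neg_mul]
        abel
      · have e3 : q * (p - q) * q = q * p * q - q := by
          rw [mul_sub, sub_mul, k2, k2]
        have e4 : q * p * (p * q) = q * p * q := by
          simp only [mul_assoc, b1]
        rw [e3, e4, mul_smul_comm, neg_mul, ← mul_neg, neg_sub]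
        abel
    rw [RingHom.map_det, e1, det_fromBlocks_zero₂₁]
    exact mul_ne_zero hA hB
  have hiZ : Z⁻¹ * Z = 1 := Matrix.nonsing_inv_mul Z hdet
  have hZP : Z * P = Ψ * Φ := by
    rw [hZ, sub_mul, add_mul, mul_assoc, hΦP, one_mul, hPP]
    abel
  obtain ⟨S, hS⟩ : ∃ S, S = Z⁻¹ * Ψ := ⟨_, rfl⟩
  have hSΦ : S * Φ = P := by
    rw [hS, mul_assoc, ← hZP, ← mul_assoc, hiZ, one_mul]
  have hSQ : S * Q = S := by
    rw [hS, mul_assoc, hΨQ]
  have hE : (Q - Φ * S) * (Q - Φ * S) = Q - Φ * S := by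
    have e1 : Q * (Φ * S) = Φ * S := by rw [← mul_assoc, hQΦ]
    have e2 : Φ * S * Q = Φ * S := by rw [mul_assoc, hSQ]
    have e3 : Φ * S * (Φ * S) = Φ * S := by
      calc Φ * S * (Φ * S) = Φ * (S * Φ) * S := by simp only [mul_assoc]
        _ = Φ * S := by rw [hSΦ, hΦP]
    rw [sub_mul, mul_sub, mul_sub, hQQ, e1, e2, e3]
    abel
  have htr : (Q - Φ * S).trace = 0 := by
    rw [Matrix.trace_sub, Matrix.trace_mul_comm, hSΦ, hP, hQ, tr_blocks, tr_blocks]
    ring
  have hQE : Q = Φ * S := sub_eq_zero.1 (hid _ hE htr)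
  have hfin : (T * Q).trace = (T * P).trace := by
    calc (T * Q).trace = (T * Φ * S).trace := by rw [hQE, mul_assoc]
      _ = (Φ * (T * S)).trace := by rw [hTΦ, mul_assoc]
      _ = (T * S * Φ).trace := by rw [Matrix.trace_mul_comm]
      _ = (T * P).trace := by rw [mul_assoc, hSΦ]
  rw [hT, hP, hQ, fromBlocks_multiply, fromBlocks_multiply, tr_blocks,
    tr_blocks] at hfin
  simp only [mul_zero, add_zero, zero_add, smul_mul_assoc, trace_smul, smul_eq_mul] at hfin
  have h5 : (1 - ω) * ((D * P₁).trace - (D * P₂).trace) = 0 := by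
    linear_combination -hfin
  rcases mul_eq_zero.1 h5 with h | h
  · exact absurd (sub_eq_zero.1 h).symm hω1
  · exact sub_eq_zero.1 h

end Pool.Agent.PP.T8.H33
end
end -- Pool.Agent.Helper33_AT8.TR2B

section -- Pool.Agent.Helper33_AT8.TR2

/-!
# Squad AT8, row TR2
-/

open scoped BigOperators
open Matrix

noncomputable section

namespace Pool.Agent.PP.T8.H33

open Pool.Agent.Helper51_AWC Pool.Agent.Helper79_WRA Pool.Agent.PP Pool.Agent.PP.KF
open Pool.Agent.PP.K9 Pool.Agent.PP.K9.H97 Pool.Agent.PP.H75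

attribute [local instance] Ideal.Quotient.field

/-- an idempotent matrix with trace zero is zero -/
theorem idem_zero {n : Type*} [Fintype n] [DecidableEq n] (E : Matrix n n ℂ) (h : E * E = E)
    (h0 : E.trace = 0) : E = 0 := by
  have h1 : IsIdempotentElem (Matrix.toLin' E) := by
    change Matrix.toLin' E * Matrix.toLin' E = Matrix.toLin' E
    rw [Module.End.mul_eq_comp, ← Matrix.toLin'_mul, h]
  have h2 : LinearMap.trace ℂ _ (Matrix.toLin' E) = 0 := by
    rw [Matrix.trace_toLin'_eq, h0]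
  have h3 := LinearMap.IsIdempotentElem.eq_zero_of_trace_eq_zero h1 h2
  exact Matrix.toLin'.map_eq_zero_iff.1 h3

theorem tr2 : Tr2Stmt := by
  intro ℓ hℓF M _ hℓ n _ _ P₁ P₂ U W V X m hm hmℓ hPi hQi hUi hWi hVi hXi hPP hQQ hUW hV hUP hUQ
    hVP hVQ hUV hXU hs
  have hp : ℓ.Prime := hℓF.out
  -- the matrices over the local ring
  let P' : Matrix n n (RM M) := Matrix.of fun i j => ⟨P₁ i j, hPi i j⟩
  let Q' : Matrix n n (RM M) := Matrix.of fun i j => ⟨P₂ i j, hQi i j⟩
  let U' : Matrix n n (RM M) := Matrix.of fun i j => ⟨U i j, hUi i j⟩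
  let W' : Matrix n n (RM M) := Matrix.of fun i j => ⟨W i j, hWi i j⟩
  let V' : Matrix n n (RM M) := Matrix.of fun i j => ⟨V i j, hVi i j⟩
  let X' : Matrix n n (RM M) := Matrix.of fun i j => ⟨X i j, hXi i j⟩
  let s : Matrix n n (RM M) →+* Matrix n n ℂ := (RM M).subtype.mapMatrix
  have sinj : Function.Injective s := by
    intro A B h
    ext i j
    exact congrFun (congrFun h i) j
  have sP : s P' = P₁ := by ext i j; rfl
  have sQ : s Q' = P₂ := by ext i j; rfl
  have sU : s U' = U := by ext i j; rfl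
  have sW : s W' = W := by ext i j; rfl
  have sV : s V' = V := by ext i j; rfl
  have sX : s X' = X := by ext i j; rfl
  have rP : (rrHom M).mapMatrix P' = P₁.map (rr M) := by ext i j; rfl
  have rQ : (rrHom M).mapMatrix Q' = P₂.map (rr M) := by ext i j; rfl
  have rU : (rrHom M).mapMatrix U' = U.map (rr M) := by ext i j; rfl
  have rW : (rrHom M).mapMatrix W' = W.map (rr M) := by ext i j; rfl
  have rX : (rrHom M).mapMatrix X' = X.map (rr M) := by ext i j; rfl
  clear_value P' Q' U' W' V' X'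
  have hloc : ∀ x : RM M, rrHom M x ≠ 0 → IsUnit x := by
    intro x hx
    obtain ⟨h1, h2⟩ := inv_RM x.2 hx
    refine isUnit_iff_exists_inv.2 ⟨⟨_, h1⟩, ?_⟩
    apply Subtype.ext
    exact mul_inv_cancel₀ h2
  have hid : ∀ E : Matrix (n ⊕ n) (n ⊕ n) (RM M), E * E = E → E.trace = 0 → E = 0 := by
    intro E h h0
    have e1 : (RM M).subtype.mapMatrix E = 0 := by
      refine idem_zero _ (by rw [← map_mul, h]) ?_
      have := AddMonoidHom.map_trace (RM M).subtype E
      rw [h0, map_zero] at this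
      exact this.symm
    ext i j
    exact congrFun (congrFun e1 i) j
  -- the root of unity
  have hprim := Complex.isPrimitiveRoot_exp ℓ hp.ne_zero
  obtain ⟨ω, hω⟩ : ∃ ω, ω = Complex.exp (2 * Real.pi * Complex.I / ℓ) := ⟨_, rfl⟩
  rw [← hω] at hprim
  have hωi : IsIntegral ℤ ω := hprim.isIntegral hp.pos
  let ω' : RM M := ⟨ω, RM_of_int hωi⟩
  have h1 : ω' ^ ℓ = 1 := by
    apply Subtype.ext
    exact hprim.pow_eq_one
  have h2 : ω' ≠ 1 := by
    intro h
    exact hprim.ne_one hp.one_lt (congrArg Subtype.val h)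
  have : CharP (FF M) ℓ := H50.charP_ff ℓ hp M hℓ
  have h3 : rrHom M ω' = 1 := by
    have e1 : rrHom M ω' ^ ℓ = 1 := by
      rw [← map_pow, h1, map_one]
    have e2 : (rrHom M ω' - 1) ^ ℓ = 0 := by
      rw [sub_pow_char, e1, one_pow, sub_self]
    exact sub_eq_zero.1 (pow_eq_zero_iff hp.ne_zero |>.1 e2)
  have h4 : rrHom M (m : RM M) ≠ 0 := by
    rw [map_natCast]
    intro h
    exact hmℓ ((CharP.cast_eq_zero_iff (FF M) ℓ m).1 h)
  obtain ⟨c, hc⟩ : ∃ c : RM M, c * (m : RM M) = 1 := by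
    obtain ⟨u, hu⟩ := hloc _ h4
    exact ⟨(u⁻¹ : (RM M)ˣ), by rw [← hu]; simp⟩
  have g1 : ω' * ω' ^ (ℓ - 1) = 1 := by
    rw [← pow_succ', Nat.sub_add_cancel hp.one_le, h1]
  have g2 : (ω' ^ (ℓ - 1)) ^ ℓ = 1 := by
    rw [← pow_mul, mul_comm, pow_mul, h1, one_pow]
  have g3 : rrHom M (ω' ^ (ℓ - 1)) = 1 := by
    rw [map_pow, h3, one_pow]
  -- the relations over the local ring
  have kPP : P' * P' = P' := sinj (by rw [map_mul, sP, hPP])
  have kQQ : Q' * Q' = Q' := sinj (by rw [map_mul, sQ, hQQ])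
  have kUW : U' * W' = 1 := sinj (by rw [map_mul, sU, sW, hUW, map_one])
  have kV : V' ^ m = 1 := sinj (by rw [map_pow, sV, hV, map_one])
  have kUP : U' * P' = P' * U' := sinj (by rw [map_mul, map_mul, sU, sP, hUP])
  have kUQ : U' * Q' = Q' * U' := sinj (by rw [map_mul, map_mul, sU, sQ, hUQ])
  have kVP : V' * P' = P' * V' := sinj (by rw [map_mul, map_mul, sV, sP, hVP])
  have kVQ : V' * Q' = Q' * V' := sinj (by rw [map_mul, map_mul, sV, sQ, hVQ])
  have kUV : U' * V' = V' * U' := sinj (by rw [map_mul, map_mul, sU, sV, hUV])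
  have kXU : X' * U' ^ ℓ = U' ^ ℓ * X' := sinj (by rw [map_mul, map_mul, map_pow, sU, sX, hXU])
  obtain ⟨Y, hY1, hY2, hY3⟩ := avg (rrHom M) ℓ U' W' V' X' m c hc kUW kV kUV kXU
    ((rrHom M).mapMatrix P' - (rrHom M).mapMatrix Q')
    (by rw [mul_sub, sub_mul, ← map_mul, ← map_mul, ← map_mul, ← map_mul, kVP, kVQ])
    (by rw [rP, rQ, rU, rW, rX]; exact hs)
  obtain ⟨φ, f1, f2, f3⟩ := phi (rrHom M) ℓ U' W' V' Y ω' h1 h3 kUW kUV hY1 hY2 _ hY3
  obtain ⟨φ', f1', f2', f3'⟩ := phi (rrHom M) ℓ U' W' V' Y (ω' ^ (ℓ - 1)) g2 g3 kUW kUV hY1 hY2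
    _ hY3
  have : IsAlgClosed (FF M) := H50.closed_ff M
  obtain ⟨t', ht1, ht2⟩ := exists_t ((rrHom M).mapMatrix P') ((rrHom M).mapMatrix Q')
    (by rw [← map_mul, kPP]) (by rw [← map_mul, kQQ])
  obtain ⟨t0, ht0, ht3⟩ := rr_surj (M := M) t'
  let t : RM M := ⟨t0, ht0⟩
  have ht : rrHom M t = t' := ht3
  rw [← ht] at ht1 ht2
  have hDφ : ∀ (w : RM M) (ψ : Matrix n n (RM M)), U' * ψ = w • (ψ * U') → V' * ψ = ψ * V' →
      U' * V' * ψ = w • (ψ * (U' * V')) := by
    intro w ψ e1 e2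
    rw [mul_assoc, e2, ← mul_assoc, e1, smul_mul_assoc, mul_assoc]
  have key := core (rrHom M) hloc hid ω' (ω' ^ (ℓ - 1)) g1 h2 t P' Q' φ φ' (U' * V') kPP kQQ
    (by rw [mul_assoc, kVP, ← mul_assoc, kUP, mul_assoc])
    (by rw [mul_assoc, kVQ, ← mul_assoc, kUQ, mul_assoc])
    (hDφ _ _ f1 f2) (hDφ _ _ f1' f2') f3 f3' ht1 ht2
  have h5 : (U * V * P₁).trace = (RM M).subtype (U' * V' * P').trace := by
    rw [← sP, ← sU, ← sV, ← map_mul, ← map_mul]
    exact (AddMonoidHom.map_trace (RM M).subtype (U' * V' * P')).symm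
  have h6 : (U * V * P₂).trace = (RM M).subtype (U' * V' * Q').trace := by
    rw [← sQ, ← sU, ← sV, ← map_mul, ← map_mul]
    exact (AddMonoidHom.map_trace (RM M).subtype (U' * V' * Q')).symm
  rw [h5, h6, key]

end Pool.Agent.PP.T8.H33
end
end -- Pool.Agent.Helper33_AT8.TR2

section -- Pool.Agent.Helper23_AT3.TRG

/-!
# Squad AT3, row TRG
-/

open scoped BigOperators

noncomputable section

namespace Pool.Agent.PP.T3.H23

open Pool.Agent.Helper51_AWC Pool.Agent.Helper79_WRA Pool.Agent.PP Pool.Agent.PP.KF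
open Pool.Agent.PP.K9 Pool.Agent.PP.K9.H97 Pool.Agent.PP.H75

attribute [local instance] Ideal.Quotient.field

theorem trg : TrgStmt := by
  intro ℓ hℓF M _ hℓ n _ _ P U W V X m hm hmℓ hPi hUi hWi hVi hXi hPP hUW hV hUP hVP hUV hXU hs
  have hp : ℓ.Prime := hℓF.out
  -- the matrices over the local ring
  let P' : Matrix n n (RM M) := Matrix.of fun i j => ⟨P i j, hPi i j⟩
  let U' : Matrix n n (RM M) := Matrix.of fun i j => ⟨U i j, hUi i j⟩
  let W' : Matrix n n (RM M) := Matrix.of fun i j => ⟨W i j, hWi i j⟩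
  let V' : Matrix n n (RM M) := Matrix.of fun i j => ⟨V i j, hVi i j⟩
  let X' : Matrix n n (RM M) := Matrix.of fun i j => ⟨X i j, hXi i j⟩
  let s : Matrix n n (RM M) →+* Matrix n n ℂ := (RM M).subtype.mapMatrix
  have sinj : Function.Injective s := by
    intro A B h
    ext i j
    exact congrFun (congrFun h i) j
  have sP : s P' = P := by ext i j; rfl
  have sU : s U' = U := by ext i j; rfl
  have sW : s W' = W := by ext i j; rfl
  have sV : s V' = V := by ext i j; rfl
  have sX : s X' = X := by ext i j; rfl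
  have rP : (rrHom M).mapMatrix P' = P.map (rr M) := by ext i j; rfl
  have rU : (rrHom M).mapMatrix U' = U.map (rr M) := by ext i j; rfl
  have rW : (rrHom M).mapMatrix W' = W.map (rr M) := by ext i j; rfl
  have rX : (rrHom M).mapMatrix X' = X.map (rr M) := by ext i j; rfl
  have hloc : ∀ x : RM M, rrHom M x ≠ 0 → IsUnit x := by
    intro x hx
    obtain ⟨h1, h2⟩ := inv_RM x.2 hx
    refine isUnit_iff_exists_inv.2 ⟨⟨_, h1⟩, ?_⟩
    apply Subtype.ext
    exact mul_inv_cancel₀ h2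
  -- the root of unity
  have hprim := Complex.isPrimitiveRoot_exp ℓ hp.ne_zero
  obtain ⟨ω, hω⟩ : ∃ ω, ω = Complex.exp (2 * Real.pi * Complex.I / ℓ) := ⟨_, rfl⟩
  rw [← hω] at hprim
  have hωi : IsIntegral ℤ ω := hprim.isIntegral hp.pos
  let ω' : RM M := ⟨ω, RM_of_int hωi⟩
  have h1 : ω' ^ ℓ = 1 := by
    apply Subtype.ext
    exact hprim.pow_eq_one
  have h2 : ω' ≠ 1 := by
    intro h
    exact hprim.ne_one hp.one_lt (congrArg Subtype.val h)
  have : CharP (FF M) ℓ := H50.charP_ff ℓ hp M hℓ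
  have h3 : rrHom M ω' = 1 := by
    have e1 : rrHom M ω' ^ ℓ = 1 := by
      rw [← map_pow, h1, map_one]
    have e2 : (rrHom M ω' - 1) ^ ℓ = 0 := by
      rw [sub_pow_char, e1, one_pow, sub_self]
    exact sub_eq_zero.1 (pow_eq_zero_iff hp.ne_zero |>.1 e2)
  have h4 : rrHom M (m : RM M) ≠ 0 := by
    rw [map_natCast]
    intro h
    exact hmℓ ((CharP.cast_eq_zero_iff (FF M) ℓ m).1 h)
  have key := trg_core (rrHom M) ℓ hloc ω' h1 h2 h3 P' U' W' V' X' m h4
    (sinj (by rw [map_mul, sP, hPP])) (sinj (by rw [map_mul, sU, sW, hUW, map_one]))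
    (sinj (by rw [map_pow, sV, hV, map_one])) (sinj (by rw [map_mul, map_mul, sU, sP, hUP]))
    (sinj (by rw [map_mul, map_mul, sV, sP, hVP])) (sinj (by rw [map_mul, map_mul, sU, sV, hUV]))
    (sinj (by rw [map_mul, map_mul, map_pow, sU, sX, hXU]))
    (by rw [rP, rU, rW, rX]; exact hs)
  have h5 : (U * V * P).trace = (RM M).subtype (U' * V' * P').trace := by
    rw [← sP, ← sU, ← sV, ← map_mul, ← map_mul]
    exact (AddMonoidHom.map_trace (RM M).subtype (U' * V' * P')).symm
  rw [h5, key, map_zero]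

end Pool.Agent.PP.T3.H23
end
end -- Pool.Agent.Helper23_AT3.TRG
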