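import Pool.Agent.Helper12_AWB.B114

/-!
# Merged copies (generated) of the modules

* `Pool.Agent.AT5.Defs`
* `Pool.Agent.AT5.Stmts1`
* `Pool.Agent.AT5.Stmts2`
* `Pool.Agent.Helper35_AT5.KSP`
* `Pool.Agent.Helper41_AT5.CHR`
* `Pool.Agent.Helper60_AT5.PR5`
-/

set_option autoImplicit false

section -- Pool.Agent.AT5.Defs

/-!
# Squad AT5: Alperin's weight conjecture for defect groups with a large central cyclic subgroup:
definitions

Text: `AWC_T5.md` (note 2700).  Everything on top of squads AT3, AT2.  THEOREM T5: let `ℓ` be any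
prime, `e` a block with a (perhaps nonabelian) defect group `V`, `C` a central cyclic subgroup of `V`
and `B` an abelian subgroup of `V`.  If `|C| ≥ ℓ |V : C|³ |V : B|` (`|C| ≥ 4 |V : C|³ |V : B|` for
`ℓ = 2`), then the alternating sum of `e` is zero.
-/

open scoped BigOperators

noncomputable section

namespace Pool.Agent.PP.T5

open Pool.Agent.Helper51_AWC Pool.Agent.Helper79_WRA Pool.Agent.PP Pool.Agent.PP.KF
open Pool.Agent.PP.K9 Pool.Agent.PP.K9.H97 Pool.Agent.PP.H75 Pool.Agent.PP.T3 Pool.Agent.PP.T2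

attribute [local instance] Ideal.Quotient.field

section defs

variable {G : Type} [Group G]

/-- `1` for an odd prime, `2` for `ℓ = 2`: the powers of `1 + ℓ ^ ep ℓ` are all the units which are
`1` modulo `ℓ ^ ep ℓ` -/
def ep (ℓ : ℕ) : ℕ := if ℓ = 2 then 2 else 1

/-- The class function `z` is invertible in the block `e` (`e` is a multiple of `z e`). -/
def Inv {F H : Type} [Field F] [Group H] (z e : H → F) : Prop :=
  ∃ c : H → F, IsCl c ∧ mulF (mulF c z) e = e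

/-- `u` is the `ℓ`-part of `g` -/
structure Lp (ℓ : ℕ) (g u : G) : Prop where
  el : El ℓ u
  com : Commute u g
  reg : Reg ℓ (u⁻¹ * g)

/-- the subgroup of order `ℓ` of the cyclic group generated by `u` of order `ℓ ^ a` -/
def Om (ℓ a : ℕ) (u : G) : Subgroup G := Subgroup.zpowers (u ^ ℓ ^ (a - 1))

/-- `V` has a central element of order `ℓ ^ a`, the order of `V` is at most `ℓ ^ (a + p)`, and `V`
has an abelian subgroup of index at most `ℓ ^ k`. -/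
structure Cy (ℓ a p k : ℕ) (V : Subgroup G) : Prop where
  pos : 0 < a
  lt : p < a
  cen : ∃ u ∈ V, (∀ v ∈ V, v * u = u * v) ∧ orderOf u = ℓ ^ a
  card : Nat.card V ≤ ℓ ^ (a + p)
  ab : ∃ B ≤ V, (∀ x ∈ B, ∀ y ∈ B, x * y = y * x) ∧ B.relIndex V ≤ ℓ ^ k

variable (G) in
/-- `N` acts trivially on the elements of order prime to `ℓ`; on the `ℓ`-elements its powers act as
all the numbers `1` modulo `ℓ ^ ep ℓ`; the power map by `N` has `ℓ`-power order. -/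
structure G5 (ℓ N : ℕ) : Prop where
  cop : N.Coprime (Nat.card G)
  reg : ∀ g : G, Reg ℓ g → g ^ N = g
  gen : ∀ j j' : ℕ, ¬ ℓ ∣ j → j ≡ j' [MOD ℓ ^ ep ℓ] → ∃ k : ℕ, ∀ y : G, El ℓ y →
    (y ^ j) ^ N ^ k = y ^ j'
  per : ∃ r : ℕ, 0 < r ∧ ∀ g : G, g ^ N ^ ℓ ^ r = g

variable (M : Ideal (integralClosure ℤ ℂ)) [M.IsMaximal]

/-- `∑ κ(s) conj κ(s')` over the characters `κ` of the subgroup `C` in `b` -/
def kr (C : Subgroup G) (b : G → FF M) (s s' : G) : ℂ :=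
  ∑ᶠ κ ∈ IrrE M (fun t : C => b t), H75.ext0 C κ s * starRingEnd ℂ (H75.ext0 C κ s')

/-- the trace of the conjugation with `h` on the class functions in `b` on the regular elements of
`C` -/
def tw (ℓ : ℕ) (C : Subgroup G) (b : G → FF M) (h : G) : ℂ :=
  (Nat.card C : ℂ)⁻¹ * ∑ᶠ (s : G) (_ : s ∈ C ∧ Reg ℓ s), kr M C b (h * s * h⁻¹) s

/-- the square of the norm of the function `s ↦ χ(w s b)` on the regular elements of `C` -/
def nm (ℓ : ℕ) (C : Subgroup G) (w : G) (b : G → FF M) (χ : G → ℂ) : ℝ :=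
  (Nat.card C : ℝ)⁻¹ * ∑ᶠ (s : G) (_ : s ∈ C ∧ Reg ℓ s), Complex.normSq (gv M C (w * s) b χ)

/-- the inner product of `κ` and `κ'` on the regular elements -/
def rip {H : Type} [Group H] (ℓ : ℕ) (κ κ' : H → ℂ) : ℂ :=
  (Nat.card H : ℂ)⁻¹ * ∑ᶠ (s : H) (_ : Reg ℓ s), κ s * starRingEnd ℂ (κ' s)

/-- the characters in `e` which are fixed by the power map -/
def Rf (N : ℕ) (e : G → FF M) : Set (G → ℂ) := {χ | χ ∈ IrrE M e ∧ ∀ g, χ (g ^ N) = χ g}

/-- `e` is a block with defect group `V`, `u` a central element of `V`, and `b` a block of `C(u)`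
under `e` for which `V` is good. -/
structure Lb (ℓ : ℕ) {F : Type} [Field F] (e : G → F) (V : Subgroup G) (u : G) (b : G → F) :
    Prop where
  blk : IsBlk e
  tp : Tp ℓ e V
  mem : u ∈ V
  cen : ∀ v ∈ V, v * u = u * v
  bx : Bx (Cu u) b
  und : mulF (fun t : Cu u => e t) (fun t : Cu u => b t) = fun t : Cu u => b t
  gd : Gd b V

/-- The element `u y`: `u` is central in the defect group `V` of `e`, of order `ℓ ^ a`,
`|V| < ℓ ^ (2 a)`, `y` is a regular element of `C(V)`, `V` is a Sylow subgroup of `C(u y)` and the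
class sum of `u y` is invertible in `e`. -/
structure Uy (ℓ a : ℕ) {F : Type} [Field F] (e : G → F) (V : Subgroup G) (u y : G) : Prop where
  pos : 0 < a
  blk : IsBlk e
  tp : Tp ℓ e V
  mem : u ∈ V
  cen : ∀ v ∈ V, v * u = u * v
  ord : orderOf u = ℓ ^ a
  small : Nat.card V < ℓ ^ (2 * a)
  reg : Reg ℓ y
  yc : y ∈ Subgroup.centralizer (V : Set G)
  syl : ¬ ℓ ∣ V.relIndex (Cu (u * y))
  inv : Inv (clsum F (⊤ : Subgroup G) (u * y)) e

/-- `f` is the block of `X = N(U)`, `U` of order `ℓ` in `⟨u⟩`, which is under `br_U(e)` and in which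
the class sum of `u y` (in `X`) is invertible. -/
structure Uf (ℓ a : ℕ) {F : Type} [Field F] (e : G → F) (V : Subgroup G) (u y : G) (f : G → F) :
    Prop where
  blk : Bx (Subgroup.normalizer (Om ℓ a u : Set G)) f
  supp : ∀ x, x ∉ Subgroup.centralizer (Om ℓ a u : Set G) → f x = 0
  und : mulF (br (Om ℓ a u) e) f = f
  nle : Subgroup.normalizer (V : Set G) ≤ Subgroup.normalizer (Om ℓ a u : Set G)
  tp : Tp ℓ (fun t : Subgroup.normalizer (Om ℓ a u : Set G) => f t)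
    (V.subgroupOf (Subgroup.normalizer (Om ℓ a u : Set G)))
  inv : Inv (fun t : Subgroup.normalizer (Om ℓ a u : Set G) =>
      clsum F (Subgroup.normalizer (Om ℓ a u : Set G)) (u * y) t)
    (fun t : Subgroup.normalizer (Om ℓ a u : Set G) => f t)
  nil : ∀ f' : G → F, Bx (Subgroup.normalizer (Om ℓ a u : Set G)) f' →
    mulF (br (Om ℓ a u) e) f' = f' → f' ≠ f →
    ∃ n : ℕ, (mulF (clsum F (Subgroup.normalizer (Om ℓ a u : Set G)) (u * y)))^[n] f' = 0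

/-- `f` is an idempotent of `N(U)` under `br_U(e)`, supported on `C(U)`, and the idempotents over
different conjugates of `U` are orthogonal. -/
structure Uo (ℓ : ℕ) {F : Type} [Field F] (e : G → F) (U : Subgroup G) (f : G → F) : Prop where
  ix : Ix (Subgroup.normalizer (U : Set G)) f
  supp : ∀ x, x ∉ Subgroup.centralizer (U : Set G) → f x = 0
  und : mulF (br U e) f = f
  ort : ∀ Q : Subgroup G, IsPGroup ℓ Q → ∀ g h : G, Bt U Q g → Bt U Q h →
    conjS g U ≠ conjS h U → mulF (br Q (cj g f)) (br Q (cj h f)) = 0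

/-- The hypothesis of the induction. -/
def Ih5 (ℓ a p k n : ℕ) : Prop :=
  ∀ (A : Type) [Group A] [Finite A], Nat.card A < n → ∀ f : A → FF M, IsBlk f →
    ∀ V' : Subgroup A, Tp ℓ f V' → Cy ℓ a p k V' → YY ℓ ⊤ f = 0

end defs

end Pool.Agent.PP.T5
end
end -- Pool.Agent.AT5.Defs

section -- Pool.Agent.AT5.Stmts1

/-!
# Squad AT5, part 1: the bound `l(e) ≤ ℓ ^ (3 p + ep ℓ)`

`e` a block of `G` with defect group `V`, `u` a central element of `V` of order `ℓ ^ a`,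
`|V| ≤ ℓ ^ (a + p)`.  Complete proofs in the docstrings; all rows are independent (a row may take the
rows which it uses as hypotheses).  `b^` is the lift `eh M b`; it vanishes at the singular elements
(`K9.H25.eh_sing`).  `conj κ(c) = κ(c⁻¹)`.
-/

open scoped BigOperators

noncomputable section

namespace Pool.Agent.PP.T5

open Pool.Agent.Helper51_AWC Pool.Agent.Helper79_WRA Pool.Agent.PP Pool.Agent.PP.KF
open Pool.Agent.PP.K9 Pool.Agent.PP.K9.H97 Pool.Agent.PP.H75 Pool.Agent.PP.T3 Pool.Agent.PP.T2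

attribute [local instance] Ideal.Quotient.field

/-! ## 1. The number of modular characters and the characters fixed by the power map -/

/-- PR5: existence of `N`.

Proof.  `|G| = ℓ ^ A m`, `m` prime to `ℓ`, `ε = ep ℓ`, `A' = A + ε`.  `N = 1 + ℓ ^ ε` mod `ℓ ^ A'`,
`N = 1` mod `m` (Chinese remainder theorem), so `N` is prime to `|G|`.  The units mod `ℓ ^ A'` which are
`1` mod `ℓ ^ ε` form a group of order `ℓ ^ (A' - ε)`, and `1 + ℓ ^ ε` has this order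
(`(1 + ℓ ^ ε) ^ ℓ ^ i = 1 + ℓ ^ (ε + i) c`, `c` prime to `ℓ`; for `ℓ = 2` this needs `ε = 2`), so its
powers are all these units.  `gen`: an `ℓ`-element of `G` has `y ^ ℓ ^ A' = 1`; `c = j'/j` mod
`ℓ ^ A'` is `1` mod `ℓ ^ ε`, so `c = N ^ k`.  `per`: `r = A'`. -/
def Pr5Stmt : Prop := ∀ (ℓ : ℕ) [Fact ℓ.Prime] (G : Type) [Group G] [Finite G],
  ∃ N : ℕ, G5 G ℓ N

/-- KER: the function `s ↦ χ(w s b)` on the regular elements.

Proof.  `f(c) = χ(w c)` is a class function on `C = C(u)` (`w` commutes with `C`), so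
`f = ∑_κ (f, κ) κ` over `κ ∈ Irr(C)`, and `gv M C (w s) b χ = ∑_t b^(t) f(s t)
= ∑_κ (f, κ) ∑_t b^(t) κ(s t)
= ∑_{κ ∈ b} (f, κ) κ(s)` (`IdmStmt`; `κ(s t) = κ(t s)`), `(f, κ) = |C|⁻¹ ∑_c f(c) conj κ(c)`.  Exchange
the sums; for singular `c` the inner sum `∑_{κ ∈ b} κ(s) conj κ(c)` vanishes (`WboStmt` for the
regular element `s⁻¹` and `c⁻¹`). -/
def KerStmt : Prop := ∀ (ℓ : ℕ) [Fact ℓ.Prime] (M : Ideal (integralClosure ℤ ℂ)) [M.IsMaximal],
  (ℓ : integralClosure ℤ ℂ) ∈ M → ∀ (G : Type) [Group G] [Finite G] (u w : G),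
  (∀ c ∈ Cu u, w * c = c * w) → ∀ b : G → FF M, Ix (Cu u) b → ∀ s ∈ Cu u, Reg ℓ s →
  ∀ χ ∈ Irr G, gv M (Cu u) (w * s) b χ =
    (Nat.card (Cu u) : ℂ)⁻¹ * ∑ᶠ (c : G) (_ : c ∈ Cu u ∧ Reg ℓ c), kr M (Cu u) b s c * χ (w * c)

/-- CO5: orthogonality for the functions `s ↦ χ(u s b)`.

Proof.  KER for both factors (`w = u`), and the second orthogonality relation
`∑_χ χ(x) conj χ(x') = #{z ∈ G | z x' z⁻¹ = x}`.  The sum is `|C|⁻¹ |C'|⁻¹` times the sum over the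
regular `c ∈ C = C(u)`, `c' ∈ C' = C(u')` and over the `z` with `z u' c' z⁻¹ = u c` of
`k(s, c) conj k'(s', c')`, `k`, `k'` the kernels of `b`, `b'`.  Comparing the `ℓ`-parts,
`z u' z⁻¹ = u`, `z c' z⁻¹ = c`.  For such a `z` (`C = z C' z⁻¹`) the sum over `c` is
`∑_c k(s, c) conj k'(s', z⁻¹ c z)`, `k'(s', z⁻¹ c z) = ∑ κ(z s' z⁻¹) conj κ(c)` over the characters
`κ` of `C` in `cj z b'`.  No character is in `b` and in `cj z b'` (`b cj z b' = 0`), so the sum is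
zero by the first orthogonality relation in `C` (the sum may be taken over all `c`, the
kernels vanish at singular `c`).  Compare `Helper62_AT3/CO2.lean` (`eh_orth`, `eh_equiv`, `cjE`). -/
def Co5Stmt : Prop := ∀ (ℓ : ℕ) [Fact ℓ.Prime] (M : Ideal (integralClosure ℤ ℂ)) [M.IsMaximal],
  (ℓ : integralClosure ℤ ℂ) ∈ M → ∀ (G : Type) [Group G] [Finite G] (u u' : G), El ℓ u → El ℓ u' →
  ∀ b b' : G → FF M, Ix (Cu u) b → Ix (Cu u') b' →
  (∀ x : G, x * u' * x⁻¹ = u → mulF b (cj x b') = 0) → ∀ s ∈ Cu u, Reg ℓ s → ∀ s' ∈ Cu u',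
  Reg ℓ s' →
    ∑ᶠ χ ∈ Irr G, gv M (Cu u) (u * s) b χ * starRingEnd ℂ (gv M (Cu u') (u' * s') b' χ) = 0

/-- CO3: the inner product of the vectors `χ(u s b)`, `χ(u s' b)`.

Proof.  As CO5 with `u' = u`, `b' = b`: the `z` are the elements of `C = C(u)`.  For each `z` the sum over
`c` is `∑_c k(s, c) conj k(s', z⁻¹ c z) = ∑_c k(s, c) conj k(s', c) = |C| k(s, s')` (first
orthogonality in `C`; `k(s, ·) = ∑_κ κ(s) conj κ`).  Total: `|C|⁻² |C| |C| k(s, s')`. -/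
def Co3Stmt : Prop := ∀ (ℓ : ℕ) [Fact ℓ.Prime] (M : Ideal (integralClosure ℤ ℂ)) [M.IsMaximal],
  (ℓ : integralClosure ℤ ℂ) ∈ M → ∀ (G : Type) [Group G] [Finite G] (u : G), El ℓ u →
  ∀ b : G → FF M, Ix (Cu u) b → ∀ s ∈ Cu u, Reg ℓ s → ∀ s' ∈ Cu u, Reg ℓ s' →
    ∑ᶠ χ ∈ Irr G, gv M (Cu u) (u * s) b χ * starRingEnd ℂ (gv M (Cu u) (u * s') b χ) =
      kr M (Cu u) b s s'

/-- TWY: the contribution of an `ℓ`-element `y` which is conjugate to its power.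

Proof.  `C = C(y)`; `g` normalises `C` (`y ^ n` generates `⟨y⟩`).  `b = e|C`, extended by zero.  By
SMG (for `b` and for `1 - b`, whose lifts have the sum `δ_1`) `χ(y s) = gv M C (y s) b χ` for
`χ ∈ e`, and `gv M C (y s) b χ = 0` for `χ ∉ e`; so CO3 gives
`∑_{χ ∈ e} χ(y s') conj χ(y s) = k(s', s)` for regular `s, s' ∈ C`.  For regular `s` in `C`:
`χ(y ^ n s) = χ(g y g⁻¹ s) = χ(y g⁻¹ s g)`.  So the sum is `∑_s k(g⁻¹ s g, s) = |C| t(g⁻¹)`. -/
def TwyStmt : Prop := ∀ (ℓ : ℕ) [Fact ℓ.Prime] (M : Ideal (integralClosure ℤ ℂ)) [M.IsMaximal],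
  (ℓ : integralClosure ℤ ℂ) ∈ M → ∀ (G : Type) [Group G] [Finite G] (e : G → FF M), IsIdem e →
  ∀ y : G, y ≠ 1 → El ℓ y → ∀ (n : ℕ) (g : G), g * y * g⁻¹ = y ^ n →
  ∑ᶠ (s : G) (_ : s ∈ Cu y ∧ Reg ℓ s), ∑ᶠ χ ∈ IrrE M e,
    χ (y ^ n * s) * starRingEnd ℂ (χ (y * s)) = (Nat.card (Cu y) : ℂ) * tw M ℓ (Cu y) e g⁻¹

/-- TWT: the sum of the twisted traces over `A/C`.

Proof.  The regular elements of `A` are in `C` (`A/C` is an `ℓ`-group).  LRK for `A`:
`|A| l_A(E) = ∑_s ∑_{χ ∈ Irr A in E} χ(s) conj χ(s)`, `s` over the regular elements of `C`.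
`TrcStmt` for `a = s E^`, `b = δ_{s⁻¹}` (with IDM: `χ(s E^) = χ(s)` or `0`): the inner sum is
`∑_{x ∈ A} E^(s⁻¹ x s x⁻¹)`.  `E^` is supported on `C` and it is also the lift of the restriction of
`E` to `C` (the lift of a central idempotent is unique: two commuting idempotents over `RM M` with
the same residue are equal, since `(E₁ - E₂)³ = E₁ - E₂` has residue `0`, or compare the central
characters; the lift for `C` is invariant under `A`).  In the same way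
`k(h s h⁻¹, s) = ∑_{κ ∈ Irr C in E} κ(h s h⁻¹) κ(s⁻¹) = ∑_{x ∈ C} E^(s⁻¹ (h⁻¹ x) s (h⁻¹ x)⁻¹)`
for `h ∈ A` (`TrcStmt` in `C`, and `E^` is invariant under `h`).  The sets `h⁻¹ C` are the cosets of
`C` in `A`, so `|A| l_A(E) = ∑_s ∑_{h ∈ A/C} k(h s h⁻¹, s) = |C| ∑_{h ∈ A/C} t(h)`. -/
def TwtStmt : Prop := ∀ (ℓ : ℕ) [Fact ℓ.Prime] (M : Ideal (integralClosure ℤ ℂ)) [M.IsMaximal],
  (ℓ : integralClosure ℤ ℂ) ∈ M → ∀ (G : Type) [Group G] [Finite G] (C A : Subgroup G), C ≤ A →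
  A ≤ Subgroup.normalizer (C : Set G) → (∃ n, C.relIndex A = ℓ ^ n) → ∀ E : G → FF M, Ix A E →
  (∀ x, x ∉ C → E x = 0) → ((C.relIndex A : ℕ) : ℂ) * (ln (fun t : A => E t) : ℂ) =
    ∑ᶠ h : A ⧸ C.subgroupOf A, tw M ℓ C E ((h.out : A) : G)

/-- NCL: a normal subgroup of index `ℓ`.

Proof.  `S₁` = the irreducible modular characters `φ` of `C` with `E φ = φ`, a finite linearly
independent set (`IbfStmt`), permuted by `A` (conjugation), `C` acts trivially; so the orbits have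
`1` or `ℓ` elements and there are at least `|S₁|/ℓ` orbits.  For an orbit `O` let
`f_O(x) = ∑_{φ ∈ O} φ(x_{ℓ'})`, `x ∈ A`, `x_{ℓ'}` the `ℓ'`-part of `x` (`PrtStmt`), which is in `C`.
`f_O ∈ TT(A)`: it is a class function of `A` which depends only on the `ℓ'`-part (the `φ` are in
`TT(C)`, `BrtStmt`).  On `C`, `f_O = ∑ φ` and `E f_O = f_O` there; `actF E f_O` and `f_O` are both in
`TT(A)` (central idempotents preserve `TT(A)` by `BrtStmt` and `EigStmt`) and agree on `C` (`E` is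
supported on `C`), so they are equal (the `ℓ'`-parts are in `C`).  The `f_O` are linearly
independent (restrict to `C`).  So the number of orbits is at most the rank of `E` on `TT(A)`,
which is `l_A(E)` (`RnkStmt`). -/
def NclStmt : Prop := ∀ (ℓ : ℕ) [Fact ℓ.Prime] (F : Type) [Field F], GoodF ℓ F → ∀ (G : Type)
  [Group G] [Finite G] (C A : Subgroup G), C ≤ A → A ≤ Subgroup.normalizer (C : Set G) →
  C.relIndex A = ℓ → ∀ E : G → F, Ix A E → (∀ x, x ∉ C → E x = 0) →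
  ln (fun t : C => E t) ≤ ℓ * ln (fun t : A => E t)

/-- CYS: the sum of the twisted traces of the powers of `g` is not negative.

Proof.  `t(h)` depends only on the coset `h C` (`k(c s c⁻¹, s') = k(s, s')` for `c ∈ C`), and
`t(1) = l_C(E)` (LRK).  Let `ℓ ^ d` be the order of `g C` in `N(C)/C`, `d ≤ r`.  If `d = 0` all the
terms are `l_C(E) ≥ 0`.  Let `d > 0`, `A = C⟨g⟩`, `A₁ = C⟨g ^ ℓ⟩`, of index `ℓ` in `A`.  The sum is
`ℓ ^ (r-d)` times the sum over the `j < ℓ ^ d` prime to `ℓ`, which is the sum over all `j < ℓ ^ d` minus the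
sum over the multiples of `ℓ`, i.e. (TWT for `A` and `A₁`)
`ℓ ^ d l_A(E) - ℓ ^ (d-1) l_{A₁}(E)`, which is not negative by NCL (for `A₁ ≤ A`). -/
def CysStmt : Prop := ∀ (ℓ : ℕ) [Fact ℓ.Prime] (M : Ideal (integralClosure ℤ ℂ)) [M.IsMaximal],
  (ℓ : integralClosure ℤ ℂ) ∈ M → ∀ (G : Type) [Group G] [Finite G] (C : Subgroup G)
  (E : G → FF M), Ix C E → ∀ g ∈ Subgroup.normalizer (C : Set G), cj g E = E → ∀ r : ℕ, 0 < r →
  g ^ ℓ ^ r ∈ C → ∃ x : ℝ, 0 ≤ x ∧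
    ∑ j ∈ (Finset.range (ℓ ^ r)).filter (fun j => ¬ ℓ ∣ j), tw M ℓ C E (g ^ j)⁻¹ = (x : ℂ)

/-- FX5: the number of modular characters is at most the number of characters fixed by the power
map.

Proof.  `σ χ = χ ∘ (· ^ N)` permutes the characters in `e` (`T3.H23.rtc'`), `σ ^ ℓ ^ r = 1`
(`G5.per`).  For `j` prime to `ℓ` the permutations `σ` and `σ ^ j` have the same fixed points, so
`φ(ℓ ^ r) |R| = ∑_{j < ℓ ^ r, ℓ ∤ j} ∑_{χ ∈ e} (σ ^ j χ, χ) = |G|⁻¹ ∑_y ∑_j τ_j(y)`, the sum over the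
`ℓ`-elements `y` (write `g = y s`), `τ_j(y) = ∑_s ∑_{χ ∈ e} χ(y ^ N ^ j s) conj χ(y s)`, `s` over the
regular elements of `C(y)`.  `y = 1`: `τ_j(1) = |G| ln e` (LRK).  `y ≠ 1`, `y ^ N` not conjugate to
`y`: no `y ^ N ^ j`, `j` prime to `ℓ`, is conjugate to `y` (if `g y g⁻¹ = y ^ N ^ j` and `j j' = 1` mod
`ℓ ^ r` then `g ^ j' y g ^ (-j') = y ^ N ^ (j j') = y ^ N`), so `τ_j(y) = 0` by `T2.FxyStmt` for
`N ^ j` (the hypothesis is empty).  `y ≠ 1`, `g y g⁻¹ = y ^ N`: `g ^ j y g ^ (-j) = y ^ N ^ j`, and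
`τ_j(y) = |C(y)| t((g ^ j)⁻¹)` by TWY; the sum over `j` is not negative by CYS (`g ^ ℓ ^ r`
commutes with `y`).  So `φ(ℓ ^ r) |R| ≥ φ(ℓ ^ r) ln e`. -/
def Fx5Stmt : Prop := ∀ (ℓ : ℕ) [Fact ℓ.Prime] (M : Ideal (integralClosure ℤ ℂ)) [M.IsMaximal],
  (ℓ : integralClosure ℤ ℂ) ∈ M → ∀ (G : Type) [Group G] [Finite G] (N : ℕ), G5 G ℓ N →
  ∀ e : G → FF M, IsIdem e → ln e ≤ (Rf M N e).ncard

/-! ## 2. Local blocks -/

/-- ORS: a class fixed by an `ℓ`-group of automorphisms.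

Proof.  `λ` = the central character of `β` (an irreducible representation in `β`, `EigStmt`):
`1 = λ(β) = ∑_K β(K) λ(K)`, over the classes `K` of `C` (`λ(K)` the value at the class sum).  `S`
acts on the classes; `β(K)` and `λ(K)` are invariant (`cj s β = β`).  Let `P` be a Sylow
`ℓ`-subgroup of `S`; `S = C P`.  By `OrbStmt` (for `P`) the sum over the classes fixed by `P`, so
by `S`, is `1`, so there is a class `K` of some `c`, fixed by `S`, with `β c ≠ 0`, `λ(K) ≠ 0`;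
the class sum is not nilpotent in `β`, so it is invertible (`H50.blk_dich`).  For `s ∈ S`:
`s c s⁻¹ = x⁻¹ c x` with `x ∈ C`, so `x s` commutes with `c`. -/
def OrsStmt : Prop := ∀ (ℓ : ℕ) [Fact ℓ.Prime] (F : Type) [Field F], GoodF ℓ F → ∀ (G : Type)
  [Group G] [Finite G] (C S : Subgroup G), C ≤ S → S ≤ Subgroup.normalizer (C : Set G) →
  (∃ n, C.relIndex S = ℓ ^ n) → ∀ β : G → F, Bx C β → (∀ s ∈ S, cj s β = β) →
  ∃ c ∈ C, β c ≠ 0 ∧ Inv (fun t : C => clsum F C c t) (fun t : C => β t) ∧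
    ∀ s ∈ S, ∃ x ∈ C, x * s * c = c * (x * s)

/-- LBX: the local block.

Proof.  `e|C(u)` is the sum of the blocks `b_i` of `C(u)` under `e`; `e` does not vanish on
`C(V) ≤ C(u)`, so some `b_i` does not.  Second part: a subgroup of `C(u)` good for `b` is good
for `e` (`e|C(u) b = b`; `K9.H97.gd_of_mul`, `gd_map`), so its order is at most `|V|`; `V ≤ C(u)`. -/
def LbxStmt : Prop := ∀ (ℓ : ℕ) [Fact ℓ.Prime] (M : Ideal (integralClosure ℤ ℂ)) [M.IsMaximal],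
  (ℓ : integralClosure ℤ ℂ) ∈ M → ∀ (G : Type) [Group G] [Finite G] (e : G → FF M)
  (V : Subgroup G) (u : G), IsBlk e → Tp ℓ e V → u ∈ V → (∀ v ∈ V, v * u = u * v) →
  (∃ b, Lb ℓ e V u b) ∧ ∀ b, Lb ℓ e V u b →
    Tp ℓ (fun t : Cu u => b t) (V.subgroupOf (Cu u)) ∧
    Nat.card (V.subgroupOf (Cu u)) = Nat.card V

/-- IX5: the inertial index is prime to `ℓ`, for all defect groups.

Proof.  `C = C(V)`, `T = Tg V γ ≥ V C` (`V` fixes `γ`, which is supported on `C(V)`).  Suppose `ℓ`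
divides `|T : V C|`; let `V C ≤ S ≤ T`, `|S : V C| = ℓ` (Cauchy).  `S/C` is an `ℓ`-group.  ORS for
`C`, `S`, `γ`: `c ∈ C` with `γ c ≠ 0`, and `C_S(c)` maps onto `S/C`.  Let `P` be a Sylow
`ℓ`-subgroup of `C_S(c)` which contains `V` (`V` commutes with `c`).  `P` maps onto `S/C` (an
`ℓ`-group), and the image of `V` in `S/C` is smaller, so `P > V`.  `P` is good for `e`:
`c ∈ C(P)`, `γ c ≠ 0`, `γ` is `P`-invariant, `br_V(e) γ = γ`, so (`H75.br_mulF`)
`br_P(br_V e) br_P(γ) = br_P(γ) ≠ 0`.  This contradicts the maximality of `V`. -/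
def Ix5Stmt : Prop := ∀ (ℓ : ℕ) [Fact ℓ.Prime] (M : Ideal (integralClosure ℤ ℂ)) [M.IsMaximal],
  (ℓ : integralClosure ℤ ℂ) ∈ M → ∀ (G : Type) [Group G] [Finite G] (e : G → FF M), IsBlk e →
  ∀ V : Subgroup G, Tp ℓ e V → ∀ γ : G → FF M, Bx (Subgroup.centralizer (V : Set G)) γ →
  mulF (br V e) γ = γ →
    ¬ ℓ ∣ (V ⊔ Subgroup.centralizer (V : Set G)).relIndex (Tg V γ)

/-- INC: an element which normalises `⟨u⟩`, stabilises `b` and has an `ℓ`-power in `C(u)` commutes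
with `u`.

Proof.  `C = C(u)`, `A₁ = C ⟨x⟩` (`x` normalises `C`), `A₁/C` an `ℓ`-group, `cj a b = b` for
`a ∈ A₁`.  ORS for `C`, `A₁`, `b`: `c ∈ C` with `b c ≠ 0`, the class sum of `c` in `C` is invertible in
`b`, `C_{A₁}(c)` maps onto `A₁/C`.  `V` is good for `b`, so a conjugate of `V` under `C` commutes with
`c` (apply `br_V`: `br_V(clsum c) br_V(b)` is invertible in `br_V(b) ≠ 0`, so `clsum c` does not
vanish on `C(V)`).  Replace `c` by a conjugate: `V ≤ C(c)`, `b c ≠ 0`.  Let `P ≥ V` be a Sylow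
`ℓ`-subgroup of `C_{A₁}(c)`.  `P` is good for `e`: `b c ≠ 0`, `c ∈ C(P)`, `b` is `P`-invariant,
`e b = b`, so `br_P(e) br_P(b) = br_P(b) ≠ 0`.  So `|P| ≤ |V|`, `P = V ≤ C`.  But `P` maps onto the
`ℓ`-group `A₁/C`, so `A₁ = C`, `x ∈ C`. -/
def IncStmt : Prop := ∀ (ℓ : ℕ) [Fact ℓ.Prime] (M : Ideal (integralClosure ℤ ℂ)) [M.IsMaximal],
  (ℓ : integralClosure ℤ ℂ) ∈ M → ∀ (G : Type) [Group G] [Finite G] (e : G → FF M)
  (V : Subgroup G) (u : G) (b : G → FF M), Lb ℓ e V u b → ∀ x : G,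
  x ∈ Subgroup.normalizer (Subgroup.zpowers u : Set G) → cj x b = b → ∀ k : ℕ,
  x ^ ℓ ^ k ∈ Cu u → x ∈ Cu u

/-- NZ5: `χ(u b) ≠ 0` for all characters in `e`.

Proof (compare `T3.RsvStmt` and `Helper97_K9/NZB.lean`, `NZR.lean`).  By `K9.OmgStmt` it is enough that
`res M z χ ≠ 0` for `z = trc (Cu u) u b`, the sum of the conjugates `q (u b) q⁻¹` over `q ∈ G/C(u)`.
Let `γ` be a block of `C(V)` with `br_V(b) γ = γ` (`V` is good for `b`); then `br_V(e) γ = γ`.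
`res M z χ` is the value `λ` of the central character of `γ` at `br_V(z)` (`a ↦ λ(br_V a)` and
`a ↦ res M a χ` are characters of the centre of `F G` with value `1` at `e`: `H50.char_uniq`).
The elements of `q (u b) q⁻¹` have the `ℓ`-part `u' = q u q⁻¹` (`b` is supported on regular elements), so
`br_V` of this term is zero unless `V ≤ C(u') = q C(u) q⁻¹`, and then it is `u' br_V(cj q b)`.
Suppose `br_V(cj q b) γ ≠ 0`.  Then `q⁻¹ V q ≤ C(u)` is good for `b`, of order `|V|`, so it is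
conjugate to `V` in `C(u)` (LBX, FMG for `C(u)`): after changing `q` in its coset `q C(u)`,
`q ∈ N(V)`.  `cj q⁻¹ γ` is a block of `C(V)` not orthogonal to `br_V(b)`, which is a block of
`N(V) ∩ C(u)` (FMG), so `cj q⁻¹ γ` and `γ` are conjugate under `N(V) ∩ C(u)` (`K9.OrbStmt`), so we
may assume `q ∈ T = Tg V γ`.  Conversely for `q ∈ T` the term is
`q u q⁻¹ br_V(cj q b) γ = (q u q⁻¹) γ`, and `q u q⁻¹ ∈ Z(V)` is central in `C(V)` and unipotent:
`λ = 1`.  So `res M z χ = |T : T ∩ C(u)|` in `F`, a divisor of `|T : V C(V)|`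
(`V C(V) ≤ T ∩ C(u)`), prime to `ℓ` by IX5. -/
def Nz5Stmt : Prop := ∀ (ℓ : ℕ) [Fact ℓ.Prime] (M : Ideal (integralClosure ℤ ℂ)) [M.IsMaximal],
  (ℓ : integralClosure ℤ ℂ) ∈ M → ∀ (G : Type) [Group G] [Finite G] (e : G → FF M)
  (V : Subgroup G) (u : G) (b : G → FF M), Lb ℓ e V u b → ∀ χ ∈ IrrE M e,
    gv M (Cu u) u b χ ≠ 0

/-- VJ5: the values of the fixed characters.

Proof.  KER with `w = u ^ j` and `w = u ^ j'`: for `c` regular in `C(u)` and the `k` of `G5.gen`,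
`χ(u ^ j c) = χ((u ^ j c) ^ N ^ k) = χ((u ^ j) ^ N ^ k c) = χ(u ^ j' c)` (iterate
`χ(g ^ N) = χ(g)`; `c ^ N = c`). -/
def Vj5Stmt : Prop := ∀ (ℓ : ℕ) [Fact ℓ.Prime] (M : Ideal (integralClosure ℤ ℂ)) [M.IsMaximal],
  (ℓ : integralClosure ℤ ℂ) ∈ M → ∀ (G : Type) [Group G] [Finite G] (N : ℕ), G5 G ℓ N →
  ∀ u : G, El ℓ u → ∀ b : G → FF M, Ix (Cu u) b → ∀ χ ∈ Irr G, (∀ g, χ (g ^ N) = χ g) →
  ∀ s ∈ Cu u, Reg ℓ s → ∀ j j' : ℕ, ¬ ℓ ∣ j → j ≡ j' [MOD ℓ ^ ep ℓ] →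
    gv M (Cu u) (u ^ j * s) b χ = gv M (Cu u) (u ^ j' * s) b χ

/-- OJ5: orthogonality for the powers of `u`.

Proof.  `C(u ^ j) = C(u ^ j') = C(u)`.  By CO5 it is enough that `b (cj x b) = 0` for all `x` with
`x u ^ j' x⁻¹ = u ^ j`.  Otherwise `cj x b = b` (`Bx.dich`; `x` normalises `⟨u⟩` and `C(u)`).
`x v x⁻¹ = v ^ c` for `v ∈ ⟨u⟩`, `c j' = j` mod `ℓ ^ a`, so `c = 1` mod `ℓ ^ ep ℓ`
(`ep ℓ ≤ a`), so `c ^ ℓ ^ a = 1` mod `ℓ ^ a` and `x ^ ℓ ^ a ∈ C(u)`.  INC: `x ∈ C(u)`,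
`u ^ j' = u ^ j`, a contradiction. -/
def Oj5Stmt : Prop := ∀ (ℓ : ℕ) [Fact ℓ.Prime] (M : Ideal (integralClosure ℤ ℂ)) [M.IsMaximal],
  (ℓ : integralClosure ℤ ℂ) ∈ M → ∀ (G : Type) [Group G] [Finite G] (e : G → FF M)
  (V : Subgroup G) (u : G) (b : G → FF M), Lb ℓ e V u b → ∀ a : ℕ, ep ℓ ≤ a →
  orderOf u = ℓ ^ a → ∀ j j' : ℕ, ¬ ℓ ∣ j → j ≡ j' [MOD ℓ ^ ep ℓ] → u ^ j ≠ u ^ j' →
  ∀ s ∈ Cu u, Reg ℓ s →
    ∑ᶠ χ ∈ Irr G, gv M (Cu u) (u ^ j * s) b χ *
      starRingEnd ℂ (gv M (Cu u) (u ^ j' * s) b χ) = 0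

/-- BS5: Bessel's inequality.

Proof.  Let `s ∈ C(u)` be regular, `v i = (gv M (Cu u) (u ^ i s) b χ)_χ` for the `ℓ ^ (a - ep ℓ)`
numbers `i < ℓ ^ a`, `i = j` mod `ℓ ^ ep ℓ`.  They are orthogonal (OJ5) of norm squared
`c = k(s, s) = ∑_{κ ∈ b} |κ(s)|²` (CO3 for `u ^ i`, `C(u ^ i) = C(u)`).  BES with the vector
`conj (v j χ)` for `χ ∈ R` and `0` otherwise: `v i χ = v j χ` for `χ ∈ R` (VJ5), so with
`x = ∑_{χ ∈ R} |v j χ|²`: `ℓ ^ (a - ep ℓ) x² ≤ c x`, `ℓ ^ (a - ep ℓ) x ≤ c`.  Now add over `s` and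
divide by `|C(u)|`: the right side becomes `ln b` (LRK for `C(u)`). -/
def Bs5Stmt : Prop := ∀ (ℓ : ℕ) [Fact ℓ.Prime] (M : Ideal (integralClosure ℤ ℂ)) [M.IsMaximal],
  (ℓ : integralClosure ℤ ℂ) ∈ M → ∀ (G : Type) [Group G] [Finite G] (N : ℕ), G5 G ℓ N →
  ∀ (e : G → FF M) (V : Subgroup G) (u : G) (b : G → FF M), Lb ℓ e V u b → ∀ a : ℕ, ep ℓ ≤ a →
  orderOf u = ℓ ^ a → ∀ j : ℕ, ¬ ℓ ∣ j →
    (ℓ : ℝ) ^ (a - ep ℓ) * ∑ᶠ χ ∈ Rf M N e, nm M ℓ (Cu u) (u ^ j) b χ ≤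
      ln (fun t : Cu u => b t)

/-! ## 3. Integrality on the regular elements -/

/-- ZIM: products of virtual characters.

Proof.  The product of two characters is the character of the tensor product
(`Representation.tprod`, or Kronecker products of matrices), and the character of a finite
dimensional representation is in `ZI` (its inner products with the irreducible characters are
natural numbers, `Helper30_KF/Mul.lean` `mult_int`, or complete reducibility).  The complex conjugate of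
an irreducible character is irreducible. -/
def ZimStmt : Prop := ∀ (H : Type) [Group H] [Finite H], ∀ f ∈ ZI H, ∀ h ∈ ZI H,
  (fun x => f x * h x) ∈ ZI H ∧ (fun x => starRingEnd ℂ (f x)) ∈ ZI H

open Classical in
/-- SEI: two virtual characters.

Proof.  For a prime `r`, `P_r` a Sylow `r`-subgroup, `f_r` the character induced from the
trivial character of `P_r`: it vanishes at the elements which are not `r`-elements, and
`f_r(1) = |H : P_r|`; `f_r ∈ ZI H` (Frobenius reciprocity: all its inner products with irreducible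
characters are multiplicities).  For a natural number `N`, `g ↦ f(g ^ N)` is in `ZI H` for
`f ∈ ZI H` (`K9.AdaStmt`: integral inner products).  (1) `N` with `g ^ N` = the `ℓ`-part of `g`
(Chinese remainder theorem), `r ≠ ℓ`: `f_r(g ^ N) ≠ 0` only if the `ℓ`-part of `g` is an `r`-element,
i.e. `1`: so `|H : P_r| 1_reg ∈ ZI H`.  In the same way `|H| 1_reg ∈ ZI H` (the regular
character).  The integers `n` with `n 1_reg ∈ ZI H` form a subgroup of `ℤ` which contains `|H|` and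
`|H : P_r|` for all primes `r ≠ ℓ`; so it contains the greatest common divisor, which divides
`|P_ℓ|`.  (2) `N` with `g ^ N` = the `ℓ'`-part of `g` (`PrtStmt`), `r = ℓ`: `f_ℓ(g ^ N) ≠ 0` only if
the `ℓ'`-part of `g` is an `ℓ`-element, i.e. `1`: so `|H : P_ℓ| 1_{ℓ-elements} ∈ ZI H`. -/
def SeiStmt : Prop := ∀ (ℓ : ℕ) [Fact ℓ.Prime] (H : Type) [Group H] [Finite H]
  (P : Sylow ℓ H), (fun h : H => if Reg ℓ h then (Nat.card P : ℂ) else 0) ∈ ZI H ∧
    (fun h : H => if El ℓ h then ((P : Subgroup H).index : ℂ) else 0) ∈ ZI H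

/-- DEG: the degrees.

Proof.  `y` from `FmgStmt`: `c K_y b = b`, so `ω_κ(K_y) = |H : C(y)| κ(y)/κ(1)` is not in the maximal
ideal of `RM M` (`res M` is multiplicative on class functions, `res M b κ = 1`), i.e. its inverse is in
`RM M`: `κ(1) / (|H : C(y)| κ(y)) ∈ RM M`, so `κ(1)/|H : C(y)| ∈ RM M` (`κ(y)` is an algebraic
integer), and `|V|/|H| = 1/(|H : C(y)| |C(y) : V|)`, `|C(y) : V|` prime to `ℓ`. -/
def DegStmt : Prop := ∀ (ℓ : ℕ) [Fact ℓ.Prime] (M : Ideal (integralClosure ℤ ℂ)) [M.IsMaximal],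
  (ℓ : integralClosure ℤ ℂ) ∈ M → ∀ (H : Type) [Group H] [Finite H] (b : H → FF M), IsBlk b →
  ∀ V : Subgroup H, Tp ℓ b V → ∀ κ ∈ IrrE M b, (Nat.card V * κ 1 / Nat.card H : ℂ) ∈ RM M

/-- INQ: the inner products on the regular elements.

Proof.  Let `P` be a Sylow `ℓ`-subgroup of `H`.  `|P| rip κ κ'` is the inner product of the virtual
characters `|P| 1_reg κ` and `κ'` (SEI (1), ZIM), an integer `z`.  `|V| rip κ κ' ∈ RM M`: it is
`(|V| κ(1)/|H|) ∑_K ω_κ(K) conj κ'(K)`, over the regular classes `K`, `ω_κ(K) = |K| κ(K)/κ(1)` an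
algebraic integer; DEG.  So the rational number `|V| z/|P|` is in `RM M`.  Its denominator is a
power of `ℓ`; a rational number with denominator divisible by `ℓ` (in lowest terms) is not in
`RM M` (otherwise `1/ℓ` would be in `RM M`).  So it is an integer. -/
def InqStmt : Prop := ∀ (ℓ : ℕ) [Fact ℓ.Prime] (M : Ideal (integralClosure ℤ ℂ)) [M.IsMaximal],
  (ℓ : integralClosure ℤ ℂ) ∈ M → ∀ (H : Type) [Group H] [Finite H] (b : H → FF M), IsBlk b →
  ∀ V : Subgroup H, Tp ℓ b V → ∀ κ ∈ IrrE M b, ∀ κ' ∈ IrrE M b,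
    ∃ n : ℤ, (Nat.card V : ℂ) * rip ℓ κ κ' = n

/-- NZM: a character of the block which is not orthogonal, on the regular elements, to any
character of the block.

Proof.  Let `π` be the indicator function of the `ℓ`-elements, `a_ψ = (π, ψ)` for
`ψ ∈ Irr(H)`; by SEI (2) `|H : P| a_ψ ∈ ℤ`, so `a_ψ ∈ RM M`.  For `x` regular:
`∑_{ψ ∈ b} a_ψ ψ(x) = |H|⁻¹ ∑_{c an ℓ-element} ∑_{ψ ∈ b} ψ(x) conj ψ(c) = |H|⁻¹ ∑_{ψ ∈ b} ψ(x) ψ(1)
= b^(x⁻¹)` (`WboStmt`: only `c = 1` contributes).  Let `κ ∈ b`.  `κ(1) = ∑_x b^(x) κ(x)` (IDM), `x`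
over the regular elements (`b^` vanishes at the others),
`= ∑_{ψ ∈ b} a_ψ ∑_x ψ(x⁻¹) κ(x) = ∑_ψ a_ψ |H| rip κ ψ`.  So `1 = ∑_ψ a_ψ r(κ, ψ)`,
`r(κ, ψ) = |H| rip κ ψ / κ(1) = ∑_K ω_κ(K) conj ψ(K)` over the regular classes; `r(κ, ψ)` is an
algebraic integer and its residue is `res M f_ψ κ`, `f_ψ` the class function over `FF M` with value
the residue of `conj ψ(x)` for `x` regular and `0` otherwise.  `res M f_ψ κ` is the same for all
`κ ∈ b` (`H50.char_uniq`, `b` is a block).  Fix `κ₁ ∈ b`; some `ψ ∈ b` has `res M f_ψ κ₁ ≠ 0`.  Then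
for all `κ ∈ b`, `res M f_ψ κ ≠ 0`, `r(κ, ψ) ≠ 0`, `rip κ ψ ≠ 0`. -/
def NzmStmt : Prop := ∀ (ℓ : ℕ) [Fact ℓ.Prime] (M : Ideal (integralClosure ℤ ℂ)) [M.IsMaximal],
  (ℓ : integralClosure ℤ ℂ) ∈ M → ∀ (H : Type) [Group H] [Finite H] (b : H → FF M), IsBlk b →
  ∃ ψ ∈ IrrE M b, ∀ κ ∈ IrrE M b, rip ℓ κ ψ ≠ 0

/-- KBF: the number of characters of a block is at most the square of the order of a defect group.

Proof.  `ψ` from NZM.  For `κ ∈ b` `|V| rip κ ψ` is an integer (INQ), not `0`, so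
`|rip κ ψ|² ≥ 1/|V|²`.  By Bessel's inequality for the orthonormal characters `κ ∈ b` and the
function `1_reg ψ`: `∑_{κ ∈ b} |rip κ ψ|² ≤ (1_reg ψ, 1_reg ψ) ≤ (ψ, ψ) = 1`. -/
def KbfStmt : Prop := ∀ (ℓ : ℕ) [Fact ℓ.Prime] (M : Ideal (integralClosure ℤ ℂ)) [M.IsMaximal],
  (ℓ : integralClosure ℤ ℂ) ∈ M → ∀ (H : Type) [Group H] [Finite H] (b : H → FF M), IsBlk b →
  ∀ V : Subgroup H, Tp ℓ b V → (IrrE M b).ncard ≤ Nat.card V ^ 2

/-- LNB: the number of modular characters of the local block.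

Proof.  `p : C(u) → B = C(u)/⟨u⟩`, `b' = push p b`, a block (PSG).  `ln b = ln b'`
(`cnt_push`, the central `ℓ`-subgroup `⟨u⟩` acts trivially on the irreducible modular
representations).  A subgroup `Q' ` good for `b'` has the preimage `Q ≥ ⟨u⟩`, good for `b`
(`K9.PugStmt`), of order `|Q'| ℓ ^ a ≤ |V|` (LBX), and `p(V)` is good for `b'`; so `Tp ℓ b' p(V)`,
`|p(V)| = |V|/ℓ ^ a ≤ ℓ ^ p`.  `ln b' ≤ |IrrE b'|` (`K9.LbdStmt`) and KBF. -/
def LnbStmt : Prop := ∀ (ℓ : ℕ) [Fact ℓ.Prime] (M : Ideal (integralClosure ℤ ℂ)) [M.IsMaximal],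
  (ℓ : integralClosure ℤ ℂ) ∈ M → ∀ (G : Type) [Group G] [Finite G] (e : G → FF M)
  (V : Subgroup G) (u : G) (b : G → FF M), Lb ℓ e V u b → ∀ a p : ℕ, orderOf u = ℓ ^ a →
  Nat.card V ≤ ℓ ^ (a + p) → ln (fun t : Cu u => b t) ≤ ℓ ^ (2 * p)

/-- GL5: the sum over the conjugates.

Proof.  `C = C(u)`, `χ|C = ∑_κ m_κ κ` (integers).  `u` is central in `C`: `κ(u ^ j s) =
ζ ^ (i j) κ(s)`, `i = i(κ)`, `ζ` of order `ℓ ^ a`.  So for regular `s`: `gv M C (u ^ j s) b χ =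
∑_{κ ∈ b} m_κ κ(u ^ j s) = ∑_i ζ ^ (i j) ψ_i(s)` (IDM, as in KER), `ψ_i = ∑_{κ ∈ b, i(κ) = i} m_κ κ`.
Let `B(f, g) = |V| rip f g` on the integral combinations of the `κ ∈ b`; it has integral values (INQ
for `C`, `b`, with LBX), `B(f, f) ≥ 0`, and `B(f, f) = 0` only if `f = 0` on the regular elements.
`|V| nm(u ^ j) = ∑_{i,i'} ζ ^ ((i - i') j) B(ψ_i, ψ_i')`.  The sum over all `j < ℓ ^ a` is
`ℓ ^ a ∑_i B(ψ_i, ψ_i)`, the sum over the multiples of `ℓ` is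
`ℓ ^ (a-1) ∑_r B(Ψ_r, Ψ_r)`, `Ψ_r` the sum of the `ψ_i`, `i = r` mod `ℓ ^ (a-1)` (`ℓ` of them).  So
the sum over the `j` prime to `ℓ` is `ℓ ^ (a-1) ∑_r D_r`,
`D_r = ∑_{i < i' in the class r} B(ψ_i - ψ_i', ψ_i - ψ_i')`.  If in every class all `ψ_i` are equal on
the regular elements, then `gv M C (u s) b χ = ∑_i ζ ^ i ψ_i(s) = 0`
(`∑_{i = r} ζ ^ i = 0`), against NZ5 (`s = 1`).  A class in which they are not all equal has at least
`ℓ - 1` unequal pairs, so `D_r ≥ ℓ - 1`. -/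
def Gl5Stmt : Prop := ∀ (ℓ : ℕ) [Fact ℓ.Prime] (M : Ideal (integralClosure ℤ ℂ)) [M.IsMaximal],
  (ℓ : integralClosure ℤ ℂ) ∈ M → ∀ (G : Type) [Group G] [Finite G] (e : G → FF M)
  (V : Subgroup G) (u : G) (b : G → FF M), Lb ℓ e V u b → ∀ a : ℕ, 0 < a → orderOf u = ℓ ^ a →
  ∀ χ ∈ IrrE M e, (((ℓ ^ (a - 1) * (ℓ - 1) : ℕ) : ℝ)) ≤
    Nat.card V * ∑ j ∈ (Finset.range (ℓ ^ a)).filter (fun j => ¬ ℓ ∣ j),
      nm M ℓ (Cu u) (u ^ j) b χ

/-- LB5: the bound for the number of modular characters.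

Proof.  `N` from PR5, `b` from LBX, `R = Rf M N e`.  Add GL5 over `χ ∈ R` and BS5 over the
`ℓ ^ (a-1) (ℓ - 1)` numbers `j < ℓ ^ a` prime to `ℓ`:
`ℓ ^ (a - ep ℓ) |R| ℓ ^ (a-1) (ℓ - 1) ≤ |V| ℓ ^ (a-1) (ℓ - 1) ln b`, so
`ℓ ^ (a - ep ℓ) |R| ≤ |V| ln b ≤ ℓ ^ (a + p) ℓ ^ (2 p)` (LNB), `|R| ≤ ℓ ^ (3 p + ep ℓ)`; FX5. -/
def Lb5Stmt : Prop := ∀ (ℓ : ℕ) [Fact ℓ.Prime] (M : Ideal (integralClosure ℤ ℂ)) [M.IsMaximal],
  (ℓ : integralClosure ℤ ℂ) ∈ M → ∀ (G : Type) [Group G] [Finite G] (e : G → FF M)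
  (V : Subgroup G) (u : G), IsBlk e → Tp ℓ e V → u ∈ V → (∀ v ∈ V, v * u = u * v) →
  ∀ a p : ℕ, 0 < a → ep ℓ ≤ a → orderOf u = ℓ ^ a → Nat.card V ≤ ℓ ^ (a + p) →
    ln e ≤ ℓ ^ (3 * p + ep ℓ)

end Pool.Agent.PP.T5
end
end -- Pool.Agent.AT5.Stmts1

section -- Pool.Agent.AT5.Stmts2

/-!
# Squad AT5, part 2: the recursion with telescoping, the theorem

`e` a block of `G` with defect group `V`, `u` a central element of `V` of order `ℓ ^ a`,
`|V| < ℓ ^ (2 a)`, `U = Om ℓ a u` of order `ℓ`, `X = N(U)`, `K` the class sum of `u y` in `G`,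
`K^X` the class sum of `u y` in `X`, `f` the block of `X` under `br_U(e)` in which `K^X` is
invertible.  Complete proofs in the docstrings; all rows are independent.
-/

open scoped BigOperators

noncomputable section

namespace Pool.Agent.PP.T5

open Pool.Agent.Helper51_AWC Pool.Agent.Helper79_WRA Pool.Agent.PP Pool.Agent.PP.KF
open Pool.Agent.PP.K9 Pool.Agent.PP.K9.H97 Pool.Agent.PP.H75 Pool.Agent.PP.T3 Pool.Agent.PP.T2

attribute [local instance] Ideal.Quotient.field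

/-! ## 4. Groups -/

/-- OMF: the subgroup of order `ℓ` of `⟨u⟩`.

Proof.  `u ^ ℓ ^ (a-1)` has order `ℓ`.  Last claim: the kernel of `φ` on `⟨u⟩` is a subgroup of a
cyclic `ℓ`-group; if it is not trivial it contains `Om ℓ a u`; so it is trivial. -/
def OmfStmt : Prop := ∀ (ℓ : ℕ) [Fact ℓ.Prime] (G : Type) [Group G] [Finite G] (a : ℕ) (u : G),
  0 < a → orderOf u = ℓ ^ a →
  IsPGroup ℓ (Om ℓ a u) ∧ Nat.card (Om ℓ a u) = ℓ ∧ Om ℓ a u ≠ ⊥ ∧ Om ℓ a u ≤ Subgroup.zpowers u ∧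
  Cu u ≤ Subgroup.centralizer (Om ℓ a u : Set G) ∧
  (∀ g : G, conjS g (Om ℓ a u) = Om ℓ a (g * u * g⁻¹) ∧ orderOf (g * u * g⁻¹) = ℓ ^ a) ∧
  (∀ v ∈ Subgroup.zpowers u, v ≠ 1 → Om ℓ a u ≤ Subgroup.zpowers v) ∧
  ∀ (H : Type) [Group H] (N : Subgroup G) (φ : N →* H) (hu : u ∈ N),
    ¬ Om ℓ a u ≤ φ.ker.map N.subtype → orderOf (φ ⟨u, hu⟩) = ℓ ^ a

/-- CHR: two central cyclic subgroups of order `ℓ ^ a` of a group of order less than `ℓ ^ (2 a)`.

Proof.  `⟨u⟩⟨v⟩ ≤ W` (commuting) has `ℓ ^ (2 a) / |⟨u⟩ ∩ ⟨v⟩|` elements, so the intersection is not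
trivial and contains `Om ℓ a u` and `Om ℓ a v` (OMF), which have order `ℓ` and are both the unique
subgroup of order `ℓ` of the cyclic intersection.  Second claim: for `n ∈ N(W)` apply the first
one to `v = n u n⁻¹`. -/
def ChrStmt : Prop := ∀ (ℓ : ℕ) [Fact ℓ.Prime] (G : Type) [Group G] [Finite G] (a : ℕ)
  (W : Subgroup G) (u : G), 0 < a → u ∈ W → (∀ w ∈ W, w * u = u * w) → orderOf u = ℓ ^ a →
  Nat.card W < ℓ ^ (2 * a) →
  (∀ v ∈ W, (∀ w ∈ W, w * v = v * w) → orderOf v = ℓ ^ a → Om ℓ a u = Om ℓ a v) ∧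
  Subgroup.normalizer (W : Set G) ≤ Subgroup.normalizer (Om ℓ a u : Set G)

/-- CYQ: sections.

Proof.  `|V'|` divides `|P| ≤ |V|`.  `B' =` the image of `P ∩ conjS g B`, `B ≤ V` abelian of index at
most `ℓ ^ k`: abelian, and `|V' : B'| ≤ |P : P ∩ conjS g B| ≤ |conjS g V : conjS g B|`. -/
def CyqStmt : Prop := ∀ (ℓ : ℕ) [Fact ℓ.Prime] (G A : Type) [Group G] [Finite G] [Group A]
  [Finite A] (a p k : ℕ) (V P N : Subgroup G) (g : G) (φ : N →* A) (V' : Subgroup A),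
  Cy ℓ a p k V → P ≤ conjS g V → P ≤ N → V' = (P.subgroupOf N).map φ →
  (∃ v ∈ V', (∀ w ∈ V', w * v = v * w) ∧ orderOf v = ℓ ^ a) → Cy ℓ a p k V'

/-! ## 5. One class sum -/

/-- KIN: the class sum of `u y` is invertible in the block.

Proof.  `y` from `FmgStmt` (`Reg ℓ y` because `e y ≠ 0`).  `N = N(V)`.  For an element `x` of `C(V)`
with `V` a Sylow subgroup of `C(x)`, `br_V(clsum ⊤ x) = clsum N x`: if `z x z⁻¹ ∈ C(V)`, then `V` and
`z⁻¹ V z` are Sylow subgroups of `C(x)`, so `z c ∈ N(V)` for some `c ∈ C(x)`.  This applies to `y`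
and to `u y` (`C(u y) = C(u) ∩ C(y) ≥ V`, as `u` and `y` are powers of `u y`).  If the class sum of
`u y` is not invertible in `e` it is nilpotent (`H50.blk_dich`), so `clsum N (u y) br_V(e)` is
nilpotent (`H75.br_mulF`).  Let `ρ` be an irreducible representation of `N` in `br_V(e)` (not
zero).  `V` acts trivially (`NlsStmt`), so `ρ(n u y n⁻¹) = ρ(n y n⁻¹)` and `ρ(clsum N (u y)) =
|C_N(y) : C_N(u y)| ρ(clsum N y)`; the index divides `|C(y) : V|` up to factors prime to `ℓ`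
(`V ≤ C_N(u y) ≤ C_N(y) ≤ C(y)`), so it is prime to `ℓ`; and `ρ(clsum N y)` is invertible
(`br_V(c) clsum N y br_V(e) = br_V(e)`).  A contradiction. -/
def KinStmt : Prop := ∀ (ℓ : ℕ) [Fact ℓ.Prime] (M : Ideal (integralClosure ℤ ℂ)) [M.IsMaximal],
  (ℓ : integralClosure ℤ ℂ) ∈ M → ∀ (G : Type) [Group G] [Finite G] (e : G → FF M)
  (V : Subgroup G) (u : G) (a : ℕ), 0 < a → IsBlk e → Tp ℓ e V → u ∈ V →
  (∀ v ∈ V, v * u = u * v) → orderOf u = ℓ ^ a → Nat.card V < ℓ ^ (2 * a) →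
  ∃ y, Uy ℓ a e V u y

/-- ZPT: an invertible class function is not zero at an element of `C(δ)` with `ℓ`-part in `Z(δ)`.

Proof.  `c z β = β` gives `br_δ(c) br_δ(z) br_δ(β) = br_δ(β) ≠ 0`.  Let `γ` be a block of `C(δ)` with
`br_δ(β) γ = γ`; so `br_δ(c) br_δ(z) γ = γ` in `F C(δ)`.  `Z = Z(δ)`, `p : C(δ) → C' = C(δ)/Z`,
`γ' = push p γ`, a block (PSG), `push p(br_δ c) push p(br_δ z) γ' = γ'`.  `γ'` has no good subgroup
`≠ 1`: a good `Q'` has the preimage `Q ≥ Z`, an `ℓ`-subgroup of `C(δ)` good for `γ`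
(`K9.PugStmt`), so `Q δ` is good for `β` (`γ ≠ 0` on `C(Q) ∩ C(δ) = C(Q δ)` and
`br_{Q δ}(β) br_{Q δ}(γ) = br_{Q δ}(γ)`), so `|Q δ| ≤ |δ|`, `Q ≤ δ`, `Q = Z`.  By `K9.DzoStmt`
`IrrE M γ' = {κ}` and `κ` vanishes at the singular elements.  `res M (push p(br_δ z)) κ ≠ 0`
(`res` is multiplicative on class functions of `C'`; `push p (br_δ z)` is one), and it is the
sum over the classes of `C'` of `push p (br_δ z)(x)` times the residue of `|K_x| κ(x)/κ(1)`: so there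
is a regular `x ∈ C'` with `push p (br_δ z)(x) ≠ 0`, and a preimage `c ∈ C(δ)` of `x` with
`z c ≠ 0`.  If `m` is the order of `x`, prime to `ℓ`, then `c ^ m ∈ Z(δ)`; the `ℓ`-part `u'` of `c` is a
power of `c ^ m`. -/
def ZptStmt : Prop := ∀ (ℓ : ℕ) [Fact ℓ.Prime] (M : Ideal (integralClosure ℤ ℂ)) [M.IsMaximal],
  (ℓ : integralClosure ℤ ℂ) ∈ M → ∀ (A : Type) [Group A] [Finite A] (β : A → FF M), IsBlk β →
  ∀ δ : Subgroup A, Tp ℓ β δ → ∀ z : A → FF M, IsCl z → Inv z β →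
  ∃ c ∈ Subgroup.centralizer (δ : Set A), z c ≠ 0 ∧ ∀ u' : A, Lp ℓ c u' → u' ∈ δ

/-- KSP: the class of `u y` is the union of the conjugates of its `X`-class.

Proof.  `C(u y) ≤ C(u) ≤ C(U) ≤ X` (`u` is the `ℓ`-part, a power, of `u y`), so
`q x (u y) (q x)⁻¹ = q' x' (u y) (q' x')⁻¹` implies `q X = q' X`: the sum has at most one nonzero
term at each `t`, equal to `1`.  Second part: `cj g (clsum X (u y)) c ≠ 0` means
`c = g x u y (g x)⁻¹` with `x ∈ X`; `u' = g x u (g x)⁻¹`, and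
`Om ℓ a u' = conjS g (conjS x U) = conjS g U` (OMF). -/
def KspStmt : Prop := ∀ (ℓ : ℕ) [Fact ℓ.Prime] (F : Type) [Field F] (G : Type) [Group G]
  [Finite G] (a : ℕ) (u y : G), 0 < a → orderOf u = ℓ ^ a → u * y = y * u → Reg ℓ y →
  (∀ t : G, ∑ᶠ q : G ⧸ Subgroup.normalizer (Om ℓ a u : Set G),
    cj q.out (clsum F (Subgroup.normalizer (Om ℓ a u : Set G)) (u * y)) t =
      clsum F (⊤ : Subgroup G) (u * y) t) ∧
  ∀ g c : G, cj g (clsum F (Subgroup.normalizer (Om ℓ a u : Set G)) (u * y)) c ≠ 0 →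
    ∃ u' : G, Lp ℓ c u' ∧ orderOf u' = ℓ ^ a ∧ Om ℓ a u' = conjS g (Om ℓ a u) ∧
      (∃ n : ℕ, u' = c ^ n) ∧ ∃ h : G, u' = h * u * h⁻¹

/-- FS5: the block `f` of `X = N(U)`.

Proof.  `N(V) ≤ X` (CHR).  `br_U(e)` is a central idempotent of `F X` (`BrmStmt`), the sum of the
blocks `f_i` of `X` under it.  `br_V(e) = br_V(br_U(e)) = ∑ br_V(f_i)`, orthogonal idempotents of the
centre of `F N(V)`, and `br_V(e)` is a block of `N(V)` (`FmgStmt`): so exactly one `f = f_i` has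
`br_V(f) = br_V(e)`.  `supp`: a central idempotent of `F X` vanishes outside of `C(U)`
(`T2.H32.supp_cent`).  `tp`: `V` is good for `f`; a subgroup good for `f` is good for `e`.  `inv`:
otherwise `(K^X) ^ n f = 0` (`H50.blk_dich`); `br_V` is multiplicative on `V`-invariant elements,
and `br_V(K^X) = clsum N(V) (u y) = br_V(K)` (`V` is a Sylow subgroup of `C(u y)`, `N(V) ≤ X`, see
KIN), so `br_V(K) ^ n br_V(e) = 0`, but `br_V(c) br_V(K) br_V(e) = br_V(e) ≠ 0` (`Uy.inv`).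
`nil`: let `f'` be a block of `X` under `br_U(e)` in which `K^X` is not nilpotent, so it is
invertible in `f'` (`H50.blk_dich` for the group `X`).  Let `δ ≤ X` be a defect group of `f'` (a good
`ℓ`-subgroup of maximal order).  ZPT (group `X`, `z = K^X`): `c ∈ C(δ)`, `K^X(c) ≠ 0`, so
`c = x u y x⁻¹`, `x ∈ X`, and its `ℓ`-part `u' = x u x⁻¹` is in `δ` and commutes with `δ`, `Om ℓ a u' =
conjS x U = U`.  `δ` is good for `e` (`br_U(e) f' = f'`, `U ≤ δ`), so `|δ| ≤ |V| < ℓ ^ (2 a)`.  CHR: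
`N_G(δ) ≤ N(U) = X`.  `|δ| = |V|`: otherwise, by FMG for `f'` in `X`, `br_δ(f')` is a block of
`N_X(δ) = N(δ)` with defect group `δ`, it is under `br_δ(e)`, and `K9.DunStmt` (for `e`, `Q = δ`)
gives a good `P > δ` for it, which contradicts the maximality.  So (`FmgStmt` for `e`)
`δ = conjS k V`.  `k u k⁻¹` and `u'` are central elements of order `ℓ ^ a` of `δ`, so (CHR)
`conjS k U = Om ℓ a (k u k⁻¹) = Om ℓ a u' = U`, `k ∈ X`.  So `V = conjS k⁻¹ δ` is a defect group of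
`f'` (in `X`, `f'` is invariant under `X`).  `br_V(f') ≠ 0` and `br_V(e) br_V(f') = br_V(f')`, so
`br_V(f') = br_V(e) = br_V(f)` (`br_V(e)` is a block of `N(V)`).  `br_V(f f') = br_V(e) ≠ 0`, so
`f f' ≠ 0`, `f' = f` (`Bx.dich`). -/
def Fs5Stmt : Prop := ∀ (ℓ : ℕ) [Fact ℓ.Prime] (M : Ideal (integralClosure ℤ ℂ)) [M.IsMaximal],
  (ℓ : integralClosure ℤ ℂ) ∈ M → ∀ (G : Type) [Group G] [Finite G] (a : ℕ) (e : G → FF M)
  (V : Subgroup G) (u y : G), Uy ℓ a e V u y → ∃ f, Uf ℓ a e V u y f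

/-- UO5: the idempotents over different conjugates of `U` are orthogonal.

Proof.  `E₁ = br_Q(cj g f)`, `E₂ = br_Q(cj h f)` are central idempotents of `F C(Q)`
(`C(Q) ≤ C(conjS g U) ≤ N(conjS g U)`, `Q` acts trivially on `cj g f`).  Suppose `E₁ E₂ ≠ 0`, and let
`b` be a block of `C(Q)` with `E₁ b = b = E₂ b`.  `b` is under `br_Q(e)` (`br_Q(e) E₁ = E₁`: conjugate
`Uf.und`, apply `br_Q`; `br_Q(br_{U'}(e)) = br_Q(e)` for `U' = conjS g U ≤ Q`).  Let `P` be a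
defect group of `b` (in `C(Q)`); it is good for `e`, so `|P| ≤ |V| < ℓ ^ (2 a)`.  `Uf.inv`:
`c K^X f = f`; conjugate with `g`, apply `br_Q` (all factors are `Q`-invariant, `Q ≤ N(conjS g U)`):
`br_Q(cj g c) br_Q(cj g K^X) E₁ = E₁`; multiply by `b`: `br_Q(cj g K^X)` is invertible in `b`
(class functions of `C(Q)`).  ZPT for the group `C(Q)`, the block `b`: an element
`c₁ ∈ C(Q) ∩ C(P)` with `cj g K^X(c₁) ≠ 0` whose `ℓ`-part `u₁` is in `P` (and commutes with `P`), and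
KSP: `u₁` has order `ℓ ^ a`, `Om ℓ a u₁ = conjS g U`.  In the same way `u₂ ∈ P`, `Om ℓ a u₂ =
conjS h U`.  CHR: `Om ℓ a u₁ = Om ℓ a u₂`, a contradiction. -/
def Uo5Stmt : Prop := ∀ (ℓ : ℕ) [Fact ℓ.Prime] (M : Ideal (integralClosure ℤ ℂ)) [M.IsMaximal],
  (ℓ : integralClosure ℤ ℂ) ∈ M → ∀ (G : Type) [Group G] [Finite G] (a : ℕ) (e : G → FF M)
  (V : Subgroup G) (u y : G), Uy ℓ a e V u y → ∀ f, Uf ℓ a e V u y f → Uo ℓ e (Om ℓ a u) f

/-! ## 6. The blocks of `N(Q)/Q` -/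

/-- QTP: good subgroups of the blocks of `N(Q)/Q`.

Proof.  `P` = the preimage of `V'` in `N(Q)`, an `ℓ`-group with `Q ≤ P`.  `V'` is good for
`push p (br_Q e)` (`gd_of_mul`: `push p (br_Q e) f₁ = f₁`), so by `K9.PugStmt` `P` is good for
`br_Q(e)`, so for `e`; `FmgStmt`, first part.  (Compare `card_good` in `Helper35_K9/CHQ.lean`.) -/
def QtpStmt : Prop := ∀ (ℓ : ℕ) [Fact ℓ.Prime] (M : Ideal (integralClosure ℤ ℂ)) [M.IsMaximal],
  (ℓ : integralClosure ℤ ℂ) ∈ M → ∀ (G : Type) [Group G] [Finite G] (e : G → FF M)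
  (V : Subgroup G), IsBlk e → Tp ℓ e V → ∀ Q : Subgroup G, IsPGroup ℓ Q → ∀ (A : Type)
  [Group A] [Finite A] (p : Subgroup.normalizer (Q : Set G) →* A), Function.Surjective p →
  p.ker = Q.subgroupOf (Subgroup.normalizer (Q : Set G)) → ∀ f₁ : A → FF M, IsBlk f₁ →
  mulF (push p (fun t : Subgroup.normalizer (Q : Set G) => br Q e t)) f₁ = f₁ →
  ∀ V' : Subgroup A, IsPGroup ℓ V' → Gd f₁ V' → ∃ (P : Subgroup G) (g : G), Q ≤ P ∧
    P ≤ Subgroup.normalizer (Q : Set G) ∧ P ≤ conjS g V ∧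
    V' = (P.subgroupOf (Subgroup.normalizer (Q : Set G))).map p

/-- TY5: the blocks of `N(Q)/Q` which are not over a conjugate of `(U, f)`.

Proof.  Let `V'` be a defect group of `f₁` (a good `ℓ`-subgroup of maximal order).  `c K e = e`
(`Uy.inv`) gives `push p (br_Q c) push p (br_Q K) f₁ = f₁`.  `K = ∑_q cj q K^X` (KSP).
`br_Q(cj q K^X) = 0` unless `Q ≤ C(conjS q U)`: if `c ∈ C(Q)` and `cj q K^X(c) ≠ 0` then the
`ℓ`-part `u'` of `c` (KSP) commutes with `Q`, and `conjS q U = Om ℓ a u'`.  Let `K₁` be the sum of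
the `cj q K^X` with `conjS q U ≤ Q`, `K₂` the sum of the others, both invariant under `N(Q)`.
(1) `push p (br_Q K₁) f₁` is nilpotent: only the `q` with `Bt U Q q` matter.  For such a `q`,
`U' = conjS q U`, `X' = N(U')`: `Q ≤ C(U') ≤ X'`, `br_{U'}(e) - cj q f` is the sum of the blocks
`f'' ≠ cj q f` of `X'` under `br_{U'}(e)`, in each of which `cj q K^X` is nilpotent (`Uf.nil`,
conjugated by `q`).  So `cj q K^X (br_{U'}(e) - cj q f)` is nilpotent, and, applying `br_Q`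
(multiplicative on `Q`-invariant elements; `br_Q(br_{U'}(e)) = br_Q(e)`) and `push p`, also
`w_q (push p (br_Q e) - push p (br_Q (cj q f)))`, `w_q = push p (br_Q(cj q K^X))`; multiplied by
`f₁` this is `w_q f₁`.  The `w_q` commute with each other (they are images of central elements of
`F C(Q)`: `C(Q) ≤ C(U') ≤ X'`) and with `f₁`, so `∑_q w_q f₁` is nilpotent.  (2) So
`push p (br_Q K₂)` is not nilpotent in `f₁` (the sum of two commuting nilpotent elements is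
nilpotent), it is invertible (`H50.blk_dich`).  ZPT (group `A`, block `f₁`): `x ∈ C_A(V')` with
`push p (br_Q K₂)(x) ≠ 0`, the `ℓ`-part of `x` in `V'`.  So there is `c ∈ C(Q)`, `p c = x`,
`cj q K^X(c) ≠ 0` for some `q` with `¬ conjS q U ≤ Q`.  `u'` = the `ℓ`-part of `c` (KSP), a power of
`c`; `v = p u'` is the `ℓ`-part of `x`, in `V'`, it commutes with `V'`.  `Om ℓ a u' = conjS q U` is
not contained in `Q = ker p`, so `v` has order `ℓ ^ a` (OMF).  QTP and CYQ: `Cy ℓ a p k V'`. -/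
def Ty5Stmt : Prop := ∀ (ℓ : ℕ) [Fact ℓ.Prime] (M : Ideal (integralClosure ℤ ℂ)) [M.IsMaximal],
  (ℓ : integralClosure ℤ ℂ) ∈ M → ∀ (G : Type) [Group G] [Finite G] (a p k : ℕ) (e : G → FF M)
  (V : Subgroup G) (u y : G), Uy ℓ a e V u y → Cy ℓ a p k V → ∀ f, Uf ℓ a e V u y f →
  ∀ Q : Subgroup G, IsPGroup ℓ Q → ∀ (A : Type) [Group A] [Finite A]
  (π : Subgroup.normalizer (Q : Set G) →* A), Function.Surjective π →
  π.ker = Q.subgroupOf (Subgroup.normalizer (Q : Set G)) → ∀ f₁ : A → FF M, IsBlk f₁ →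
  mulF (push π (fun t : Subgroup.normalizer (Q : Set G) => br Q e t)) f₁ = f₁ →
  (∀ g : G, Bt (Om ℓ a u) Q g →
    mulF (push π (fun t : Subgroup.normalizer (Q : Set G) => br Q (cj g f) t)) f₁ = 0) →
  ∃ V' : Subgroup A, Tp ℓ f₁ V' ∧ Cy ℓ a p k V'

/-- TA5: only the part over the conjugates of `(U, f)` contributes.

Proof (compare `T2.TeaStmt`, `Helper..._AT2/TEA.lean`).  The `E_q = br_Q(cj q f)`, `Bt U Q q`, `q` coset
representatives of `N(U)`, are orthogonal idempotents (`Uo.ort`; different cosets give different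
conjugates of `U`) under `br_Q(e)`, and their sum `brU U Q f` is invariant under `N(Q)` (which permutes
the conjugates of `(U, f)`; `cj g f` depends only on the coset of `g`).  So `brU U Q f` and
`E₀ = br_Q(e) - brU U Q f` are orthogonal central idempotents of `F N(Q)`; the same for their images
under `push`.  `AddStmt`: `YQ ℓ e Q = YY ⊤ (push E₀) + YY ⊤ (push (brU U Q f))`, and the first term is
the sum of the `YY ⊤ f₁` over the blocks `f₁` of `N(Q)/Q` under `push E₀`, for which the hypothesis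
gives `0` (`br_Q(cj g f) E₀ = 0` for `Bt U Q g`). -/
def Ta5Stmt : Prop := ∀ (ℓ : ℕ) [Fact ℓ.Prime] (F : Type) [Field F], GoodF ℓ F → ∀ (G : Type)
  [Group G] [Finite G] (e : G → F), IsIdem e → ∀ (U : Subgroup G) (f : G → F), IsPGroup ℓ U →
  Uo ℓ e U f → ∀ Q : Subgroup G, IsPGroup ℓ Q →
  (∀ f₁ : (Subgroup.normalizer (Q : Set G) ⧸ Q.subgroupOf (Subgroup.normalizer (Q : Set G))) → F,
    IsBlk f₁ → mulF (push (QuotientGroup.mk' (Q.subgroupOf (Subgroup.normalizer (Q : Set G))))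
      (fun t : Subgroup.normalizer (Q : Set G) => br Q e t)) f₁ = f₁ →
    (∀ g : G, Bt U Q g →
      mulF (push (QuotientGroup.mk' (Q.subgroupOf (Subgroup.normalizer (Q : Set G))))
        (fun t : Subgroup.normalizer (Q : Set G) => br Q (cj g f) t)) f₁ = 0) →
    YY ℓ ⊤ f₁ = 0) →
  YQ ℓ e Q = YY ℓ ⊤ (push (QuotientGroup.mk' (Q.subgroupOf (Subgroup.normalizer (Q : Set G))))
    (fun t : Subgroup.normalizer (Q : Set G) => brU U Q f t))

/-- TB5: the part over the conjugates of `(U, f)` is the same in `G` and in `N(U)`.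

Proof: see `T2.TebStmt`, word for word, with `Uo.ort` instead of ORT (`T2.FrsStmt` may be used). -/
def Tb5Stmt : Prop := ∀ (ℓ : ℕ) [Fact ℓ.Prime] (F : Type) [Field F], GoodF ℓ F → ∀ (G : Type)
  [Group G] [Finite G] (e : G → F), IsIdem e → ∀ (U : Subgroup G) (f : G → F), IsPGroup ℓ U →
  Uo ℓ e U f → ∀ Q : Subgroup G, IsPGroup ℓ Q →
  YY ℓ ⊤ (push (QuotientGroup.mk' (Q.subgroupOf (Subgroup.normalizer (Q : Set G))))
    (fun t : Subgroup.normalizer (Q : Set G) => brU U Q f t)) =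
    ∑ᶠ (q : G ⧸ Subgroup.normalizer (U : Set G)) (_ : Bt U Q q.out),
      YQ ℓ (fun t : Subgroup.normalizer (U : Set G) => f t)
        ((conjS q.out⁻¹ Q).subgroupOf (Subgroup.normalizer (U : Set G)))

/-- TX5: the subgroups of `X = N(U)` which are not between `U` and `C(U)`.

Proof.  `AddStmt`: `YQ` is the sum of the `YY ⊤ f₁` over the blocks `f₁` of `A = N_X(Q)/Q` under
`push (br_Q f_X)` (all in the group `X`).  Let `V'` be a defect group of `f₁`.  `Uf.inv` gives as in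
TY5 that the image of `br_Q(K^X)` is invertible in `f₁`, so by ZPT there is `c ∈ X`, `c ∈ C(Q)`,
`c = x u y x⁻¹` with `x ∈ X`, such that the image of its `ℓ`-part `u' = x u x⁻¹` is in `V'` and
commutes with `V'`.  `Om ℓ a u' = conjS x U = U`.  If `U_X ≤ Q`, then also `Q ≤ C(U)` (`u'` is a power
of `c ∈ C(Q)`, `U ≤ ⟨u'⟩`), which is excluded.  So the image of `u'` has order `ℓ ^ a` (OMF), and QTP
(for `X`, `f_X`, `V_X`) and CYQ (`Cy` for `V_X ≅ V`, or CYQ for the inclusion of `P` in `G`) give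
`Cy ℓ a p k V'`.  `|A| < |X| ≤ |G|` (`Q ≠ ⊥`), so `YY ⊤ f₁ = 0` by `Ih5`. -/
def Tx5Stmt : Prop := ∀ (ℓ : ℕ) [Fact ℓ.Prime] (M : Ideal (integralClosure ℤ ℂ)) [M.IsMaximal],
  (ℓ : integralClosure ℤ ℂ) ∈ M → ∀ (G : Type) [Group G] [Finite G] (a p k : ℕ) (e : G → FF M)
  (V : Subgroup G) (u y : G), Uy ℓ a e V u y → Cy ℓ a p k V → ∀ f, Uf ℓ a e V u y f →
  Ih5 M ℓ a p k (Nat.card G) → ∀ (U : Subgroup G), U = Om ℓ a u →
  ∀ Q : Subgroup (Subgroup.normalizer (U : Set G)), IsPGroup ℓ Q → Q ≠ ⊥ →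
  ¬ (U.subgroupOf (Subgroup.normalizer (U : Set G)) ≤ Q ∧
    Q ≤ (Subgroup.centralizer (U : Set G)).subgroupOf (Subgroup.normalizer (U : Set G))) →
  YQ ℓ (fun t : Subgroup.normalizer (U : Set G) => f t) Q = 0

/-- TS5: the telescoping sum.

Proof.  As `T2.TesStmt`: `YY ⊤ f_X = 0` (`YzrStmt`, `U_X ≠ ⊥` is a normal `ℓ`-subgroup of `X`),
RecStmt for `X` and (by the last hypothesis) only the `Q` between `U_X` and `C(U)` contribute;
RecStmt for `G` with the first hypothesis and TB5; for given `q` the map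
`Q ↦ (conjS q⁻¹ Q).subgroupOf X` is a bijection of the `ℓ`-subgroups `Q` with `Bt U Q q` onto the
`ℓ`-subgroups of `X` between `U_X` and `C(U)`. -/
def Ts5Stmt : Prop := ∀ (ℓ : ℕ) [Fact ℓ.Prime] (F : Type) [Field F], GoodF ℓ F → ∀ (G : Type)
  [Group G] [Finite G] (e : G → F), IsIdem e → ∀ (U : Subgroup G) (f : G → F), IsPGroup ℓ U →
  U ≠ ⊥ → Uo ℓ e U f →
  (∀ Q : Subgroup G, IsPGroup ℓ Q → Q ≠ ⊥ → YQ ℓ e Q =
    YY ℓ ⊤ (push (QuotientGroup.mk' (Q.subgroupOf (Subgroup.normalizer (Q : Set G))))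
      (fun t : Subgroup.normalizer (Q : Set G) => brU U Q f t))) →
  (∀ Q : Subgroup (Subgroup.normalizer (U : Set G)), IsPGroup ℓ Q → Q ≠ ⊥ →
    ¬ (U.subgroupOf (Subgroup.normalizer (U : Set G)) ≤ Q ∧
      Q ≤ (Subgroup.centralizer (U : Set G)).subgroupOf (Subgroup.normalizer (U : Set G))) →
    YQ ℓ (fun t : Subgroup.normalizer (U : Set G) => f t) Q = 0) →
  YY ℓ ⊤ e = (Nat.card G : ℤ) *
    ((ln e : ℤ) - (ln (fun t : Subgroup.normalizer (U : Set G) => f t) : ℤ))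

/-! ## 7. The theorem -/

/-- DV5: divisibility.

Proof.  `ML.IsDef ℓ M χ V` (`isDef_of_tp`, `Helper24_AT3/DVS.lean`).  Let `B ≤ V` be abelian of index
at most `ℓ ^ k`; replace `B` by `B ⟨u⟩` (`u` is central in `V`).  The transfer `ρ : V → B`
(`MonoidHom.transfer` of the identity) maps `u` to `u ^ |V : B|` (`MonoidHom.transfer_eq_pow`, `u`
central), and `|V : B| = ℓ ^ k'`, `k' ≤ k`; the order of `u ^ ℓ ^ k'` is divisible by `ℓ ^ (a - k)`.
`ML.Mn3Stmt` with `opCore ℓ G = ⊥`. -/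
def Dv5Stmt : Prop := ∀ (ℓ : ℕ) [Fact ℓ.Prime] (M : Ideal (integralClosure ℤ ℂ)) [M.IsMaximal],
  (ℓ : integralClosure ℤ ℂ) ∈ M → ∀ (G : Type) [Group G] [Finite G], opCore ℓ G = ⊥ →
  ∀ (a p k : ℕ) (e : G → FF M) (V : Subgroup G), IsBlk e → Tp ℓ e V → Cy ℓ a p k V →
  ∀ χ ∈ Irr G, res M e χ = 1 → ((ℓ ^ (a - k) : ℕ) : ℤ) ∣ altSum ℓ M χ

/-- T5A: the main theorem for block idempotents.

Proof.  Induction on `|G|`.  If `opCore ℓ G ≠ ⊥`: `YzrStmt`.  Let `opCore ℓ G = ⊥`.  `ep ℓ ≥ 1`, so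
`p < a`, `|V| ≤ ℓ ^ (a + p) < ℓ ^ (2 a)`.  `u` from `Cy.cen`, `y` from KIN, `f` from FS5, `Uo` from
UO5, `U = Om ℓ a u`, `X = N(U)`.  The first hypothesis of TS5: TA5 with TY5 (for
`π = QuotientGroup.mk'`) and the induction hypothesis (`|N(Q)/Q| < |G|`).  The second one: TX5.
TS5: `YY ⊤ e = |G| (ln e - ln f_X)`.  `1 ≤ ln e, ln f_X ≤ ℓ ^ (3 p + ep ℓ)` (`K9.LbdStmt`, LB5 for
`e`, `V`, `u` and for `f_X`, `V_X`, `u`; `V ≤ N(V) ≤ X`, so `|V_X| = |V|`).  `H75.block_case` (with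
`T3.PosStmt`) gives `χ` with `res M e χ = 1` and `|G| altSum χ = YY ⊤ e`, so
`|altSum χ| = |ln e - ln f_X| < ℓ ^ (3 p + ep ℓ) ≤ ℓ ^ (a - k)`, and `ℓ ^ (a - k)` divides it
(DV5): `altSum χ = 0`. -/
def T5aStmt : Prop := ∀ (ℓ : ℕ) [Fact ℓ.Prime] (M : Ideal (integralClosure ℤ ℂ)) [M.IsMaximal],
  (ℓ : integralClosure ℤ ℂ) ∈ M → ∀ a p k : ℕ, 3 * p + k + ep ℓ ≤ a → ∀ (G : Type) [Group G]
  [Finite G] (e : G → FF M) (V : Subgroup G), IsBlk e → Tp ℓ e V → Cy ℓ a p k V → YY ℓ ⊤ e = 0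

/-- DZ5: the defect group modulo `O_ℓ(G)`.

Proof.  `tp_of_isDef` in `Helper24_AT2/DZA.lean`: `Tp ℓ e D`.  The rest is the proof of `T2.DzaStmt`
without the last claim (no commutativity is needed): `p(D)` is good for `push p e`, and every good
`ℓ`-subgroup `R'` of `push p e` has the preimage `R ≥ opCore ℓ G`, good for `e` (`K9.PugStmt`), so
`|R'| |opCore| = |R| ≤ |D|`. -/
def Dz5Stmt : Prop := ∀ (ℓ : ℕ) [Fact ℓ.Prime] (M : Ideal (integralClosure ℤ ℂ)) [M.IsMaximal],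
  (ℓ : integralClosure ℤ ℂ) ∈ M → ∀ (G : Type) [Group G] [Finite G],
  opCore ℓ G ≤ Subgroup.center G → ∀ χ ∈ Irr G, ∀ D : Subgroup G, ML.IsDef ℓ M χ D →
  ∀ e : G → FF M, IsBlk e → res M e χ = 1 → ∀ (A : Type) [Group A] [Finite A] (p : G →* A),
  Function.Surjective p → p.ker = opCore ℓ G → IsBlk (push p e) ∧ opCore ℓ G ≤ D ∧
    Nat.card (D.map p) * Nat.card (opCore ℓ G) = Nat.card D ∧ Tp ℓ (push p e) (D.map p)

/-- FN5: the final theorem.  `D` is a defect group of `χ`, `z ∈ D` is central in `D` modulo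
`O_ℓ(G)`, of order `q` modulo `O_ℓ(G)`, `B ≤ D` is abelian modulo `O_ℓ(G)`,
`|D| = m q |O_ℓ(G)|`.

Proof.  `e` the block of `χ` (`H50.bid`), `Z = opCore ℓ G`, `π : G → G/Z`.  `H75.altSum_central`:
`|G| altSum χ = |Z|² YY ℓ ⊤ (push π e)`.  DZ5: `Tp ℓ (push π e) D'`, `D' = π(D)`, `|D'| = m q`.
`π z` is central in `D'` of order `q = ℓ ^ a`, `m = ℓ ^ p` (divisors of `|D'|`), `π(B)` is abelian of index
at most `|D : B| = ℓ ^ k` in `D'`.  The hypothesis says `ℓ ^ (ep ℓ + 3 p + k) ≤ ℓ ^ a`.  T5A. -/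
def Fn5Stmt : Prop := ∀ (ℓ : ℕ) [Fact ℓ.Prime] (M : Ideal (integralClosure ℤ ℂ)) [M.IsMaximal],
  (ℓ : integralClosure ℤ ℂ) ∈ M → ∀ (G : Type) [Group G] [Finite G],
  opCore ℓ G ≤ Subgroup.center G → ∀ χ ∈ Irr G, ∀ D : Subgroup G, ML.IsDef ℓ M χ D →
  ∀ z ∈ D, (∀ d ∈ D, z * d * z⁻¹ * d⁻¹ ∈ opCore ℓ G) →
  ∀ B ≤ D, (∀ x ∈ B, ∀ y ∈ B, x * y * x⁻¹ * y⁻¹ ∈ opCore ℓ G) →
  ∀ q m : ℕ, (∀ n : ℕ, z ^ n ∈ opCore ℓ G ↔ q ∣ n) → Nat.card D = m * q * Nat.card (opCore ℓ G) →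
  ℓ ^ ep ℓ * m ^ 3 * B.relIndex D ≤ q → altSum ℓ M χ = 0

end Pool.Agent.PP.T5
end
end -- Pool.Agent.AT5.Stmts2

section -- Pool.Agent.Helper35_AT5.KSP

/-!
# Row KSP: the class of `u y` is the union of the conjugates of its `X`-class
-/

open scoped BigOperators

noncomputable section

namespace Pool.Agent.PP.T5.H35

open Pool.Agent.Helper51_AWC Pool.Agent.Helper79_WRA Pool.Agent.PP Pool.Agent.PP.KF
open Pool.Agent.PP.K9 Pool.Agent.PP.K9.H97 Pool.Agent.PP.H75 Pool.Agent.PP.T3 Pool.Agent.PP.T2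

theorem pow_part {G : Type} [Group G] [Finite G] {ℓ a : ℕ} {u y : G}
    (hu : orderOf u = ℓ ^ a) (hc : u * y = y * u) (hy : Reg ℓ y) :
    ∃ n : ℕ, (u * y) ^ n = u := by
  have hco : (ℓ ^ a).Coprime (orderOf y) := by
    apply Nat.Coprime.pow_left
    exact Nat.Coprime.symm hy
  obtain ⟨n, h1, h2⟩ := Nat.chineseRemainder hco 1 0
  refine ⟨n, ?_⟩
  have hcm : Commute u y := hc
  rw [hcm.mul_pow]
  have e1 : u ^ n = u ^ 1 := by
    rw [pow_eq_pow_iff_modEq, hu]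
    exact h1
  have e2 : y ^ n = y ^ 0 := by
    rw [pow_eq_pow_iff_modEq]
    exact h2
  rw [e1, e2, pow_one, pow_zero, mul_one]

theorem ksp (omf : OmfStmt) : KspStmt := by
  intro ℓ _ F _ G _ _ a u y ha hu hc hy
  classical
  obtain ⟨hP, hcard, hne, hle, hcu, hconj, hmin, hker⟩ := omf ℓ G a u ha hu
  set X := Subgroup.normalizer (Om ℓ a u : Set G) with hX
  obtain ⟨n, hn⟩ := pow_part hu hc hy
  have hcent : ∀ c : G, c * (u * y) = (u * y) * c → c ∈ X := by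
    intro c hcc
    have h1 : Commute c ((u * y) ^ n) := Commute.pow_right hcc n
    rw [hn] at h1
    rw [hX, mem_normalizer_iff_conjS, (hconj c).1]
    have h2 : c * u * c⁻¹ = u := by
      rw [h1.eq, mul_inv_cancel_right]
    rw [h2]
  constructor
  · intro t
    by_cases hex : ∃ g : G, t = g * (u * y) * g⁻¹
    · obtain ⟨g, rfl⟩ := hex
      rw [finsum_eq_single _ (QuotientGroup.mk g : G ⧸ X)]
      · have h1 : ∃ q ∈ X, ((QuotientGroup.mk g : G ⧸ X).out)⁻¹ * (g * (u * y) * g⁻¹) *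
            (QuotientGroup.mk g : G ⧸ X).out = q * (u * y) * q⁻¹ := by
          refine ⟨((QuotientGroup.mk g : G ⧸ X).out)⁻¹ * g, ?_, by group⟩
          have : (QuotientGroup.mk ((QuotientGroup.mk g : G ⧸ X).out) : G ⧸ X) =
            QuotientGroup.mk g := Quotient.out_eq' _
          exact QuotientGroup.eq.1 this
        have h2 : ∃ q ∈ (⊤ : Subgroup G), g * (u * y) * g⁻¹ = q * (u * y) * q⁻¹ :=
          ⟨g, Subgroup.mem_top _, rfl⟩
        simp only [cj, clsum]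
        rw [if_pos h1, if_pos h2]
      · intro q hq
        simp only [cj, clsum]
        rw [if_neg]
        rintro ⟨x, hx, hxe⟩
        apply hq
        have h3 : g * (u * y) * g⁻¹ = (q.out * x) * (u * y) * (q.out * x)⁻¹ := by
          have := congrArg (fun z => q.out * z * q.out⁻¹) hxe
          calc g * (u * y) * g⁻¹ = q.out * (q.out⁻¹ * (g * (u * y) * g⁻¹) * q.out) * q.out⁻¹ := by
                group
            _ = q.out * (x * (u * y) * x⁻¹) * q.out⁻¹ := this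
            _ = _ := by group
        have h4 : (q.out * x)⁻¹ * g ∈ X := by
          apply hcent
          have := congrArg (fun z => (q.out * x)⁻¹ * z * g) h3
          calc (q.out * x)⁻¹ * g * (u * y) = (q.out * x)⁻¹ * (g * (u * y) * g⁻¹) * g := by group
            _ = (q.out * x)⁻¹ * ((q.out * x) * (u * y) * (q.out * x)⁻¹) * g := this
            _ = (u * y) * ((q.out * x)⁻¹ * g) := by group
        have h5 : (q.out)⁻¹ * g ∈ X := by
          have : (q.out)⁻¹ * g = x * ((q.out * x)⁻¹ * g) := by group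
          rw [this]
          exact X.mul_mem hx h4
        have h6 : (QuotientGroup.mk q.out : G ⧸ X) = QuotientGroup.mk g := QuotientGroup.eq.2 h5
        rw [← h6]
        exact (Quotient.out_eq' q).symm
    · have h0 : clsum F (⊤ : Subgroup G) (u * y) t = 0 := by
        simp only [clsum]
        rw [if_neg]
        rintro ⟨q, -, hq⟩
        exact hex ⟨q, hq⟩
      rw [h0]
      apply finsum_eq_zero_of_forall_eq_zero
      intro q
      simp only [cj, clsum]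
      rw [if_neg]
      rintro ⟨x, -, hxe⟩
      apply hex
      refine ⟨q.out * x, ?_⟩
      have := congrArg (fun z => q.out * z * q.out⁻¹) hxe
      calc t = q.out * (q.out⁻¹ * t * q.out) * q.out⁻¹ := by group
        _ = q.out * (x * (u * y) * x⁻¹) * q.out⁻¹ := this
        _ = _ := by group
  · intro g c hgc
    have hex : ∃ x ∈ X, g⁻¹ * c * g = x * (u * y) * x⁻¹ := by
      by_contra hcon
      apply hgc
      simp only [cj, clsum]
      rw [if_neg hcon]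
    obtain ⟨x, hx, hxe⟩ := hex
    have hce : c = (g * x) * (u * y) * (g * x)⁻¹ := by
      have := congrArg (fun z => g * z * g⁻¹) hxe
      calc c = g * (g⁻¹ * c * g) * g⁻¹ := by group
        _ = g * (x * (u * y) * x⁻¹) * g⁻¹ := this
        _ = _ := by group
    set h := g * x with hh
    have hupow : h * u * h⁻¹ = c ^ n := by
      rw [hce, conj_pow, hn]
    refine ⟨h * u * h⁻¹, ⟨?_, ?_, ?_⟩, (hconj h).2, ?_, ⟨n, hupow⟩, ⟨h, rfl⟩⟩
    · refine ⟨a, ?_⟩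
      rw [conj_pow, ← hu, pow_orderOf_eq_one, mul_one, mul_inv_cancel]
    · rw [hupow]
      exact (Commute.refl c).pow_left n
    · have h1 : (h * u * h⁻¹)⁻¹ * c = h * y * h⁻¹ := by
        rw [hce]; group
      rw [h1]
      have h2 : orderOf (h * y * h⁻¹) = orderOf y := by
        rw [← MulAut.conj_apply]
        exact orderOf_injective (MulAut.conj h).toMonoidHom (MulAut.conj h).injective y
      show (orderOf (h * y * h⁻¹)).Coprime ℓ
      rw [h2]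
      exact hy
    · rw [← (hconj h).1, hh, ← conjS_conjS, mem_normalizer_iff_conjS.1 hx]

end Pool.Agent.PP.T5.H35
end
end -- Pool.Agent.Helper35_AT5.KSP

section -- Pool.Agent.Helper41_AT5.CHR

/-!
# Squad AT5, modules CHR and CYQ
-/

noncomputable section

namespace Pool.Agent.PP.T5.H41

open Pool.Agent.Helper51_AWC Pool.Agent.Helper79_WRA Pool.Agent.PP Pool.Agent.PP.T5

theorem card_zp {G : Type} [Group G] {n : ℕ} {u : G} (h : orderOf u = n) :
    Nat.card (Subgroup.zpowers u) = n := by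
  rw [Nat.card_zpowers, h]

theorem om_eq (hOMF : OmfStmt) (ℓ : ℕ) [Fact ℓ.Prime] {G : Type} [Group G] [Finite G] {a : ℕ}
    {W : Subgroup G} {u v : G} (ha : 0 < a) (hu : u ∈ W) (hou : orderOf u = ℓ ^ a)
    (hW : Nat.card W < ℓ ^ (2 * a)) (hv : v ∈ W) (hov : orderOf v = ℓ ^ a) :
    Om ℓ a u = Om ℓ a v := by
  obtain ⟨-, cu, nu, lu, -, -, ru, -⟩ := hOMF ℓ G a u ha hou
  obtain ⟨-, cv, nv, lv, -, -, rv, -⟩ := hOMF ℓ G a v ha hov
  -- the intersection is not trivial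
  have hne : Subgroup.zpowers u ⊓ Subgroup.zpowers v ≠ ⊥ := by
    intro hbot
    have huW : Subgroup.zpowers u ≤ W := (Subgroup.zpowers_le).2 hu
    have hvW : Subgroup.zpowers v ≤ W := (Subgroup.zpowers_le).2 hv
    let f : Subgroup.zpowers u × Subgroup.zpowers v → W := fun t =>
      ⟨(t.1 : G) * (t.2 : G), W.mul_mem (huW t.1.2) (hvW t.2.2)⟩
    have hf : Function.Injective f := by
      rintro ⟨x, y⟩ ⟨x', y'⟩ hxy
      have h1 : (x : G) * (y : G) = (x' : G) * (y' : G) := congrArg Subtype.val hxy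
      have h2 : (x' : G)⁻¹ * (x : G) = (y' : G) * (y : G)⁻¹ := by
        rw [inv_mul_eq_iff_eq_mul, ← mul_assoc, ← h1, mul_assoc, mul_inv_cancel, mul_one]
      have h3 : (x' : G)⁻¹ * (x : G) ∈ Subgroup.zpowers u ⊓ Subgroup.zpowers v := by
        refine ⟨Subgroup.mul_mem _ (Subgroup.inv_mem _ x'.2) x.2, ?_⟩
        show (x' : G)⁻¹ * (x : G) ∈ Subgroup.zpowers v
        rw [h2]
        exact Subgroup.mul_mem _ y'.2 (Subgroup.inv_mem _ y.2)
      rw [hbot, Subgroup.mem_bot] at h3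
      have hx : (x : G) = (x' : G) := by
        rw [inv_mul_eq_one] at h3
        exact h3.symm
      have hy : (y : G) = (y' : G) := by
        rw [h3] at h2
        exact (mul_inv_eq_one.1 h2.symm).symm
      exact Prod.ext (Subtype.ext hx) (Subtype.ext hy)
    have hc := Nat.card_le_card_of_injective f hf
    rw [Nat.card_prod, card_zp hou, card_zp hov, ← pow_add, ← two_mul] at hc
    omega
  obtain ⟨w, hw1⟩ := (Subgroup.ne_bot_iff_exists_ne_one).1 hne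
  have h1 : Om ℓ a u ≤ Subgroup.zpowers (w : G) := ru _ w.2.1 (fun h' => hw1 (Subtype.ext h'))
  have h2 : Om ℓ a u ≤ Subgroup.zpowers v := h1.trans ((Subgroup.zpowers_le).2 w.2.2)
  obtain ⟨w', hw'⟩ := (Subgroup.ne_bot_iff_exists_ne_one).1 nu
  have h3 : Om ℓ a v ≤ Subgroup.zpowers (w' : G) :=
    rv _ (h2 w'.2) (fun h' => hw' (Subtype.ext h'))
  have h4 : Om ℓ a v ≤ Om ℓ a u := h3.trans ((Subgroup.zpowers_le).2 w'.2)
  exact (Subgroup.eq_of_le_of_card_ge h4 (by rw [cu, cv])).symm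

theorem chr (hOMF : OmfStmt) : ChrStmt := by
  intro ℓ _ G _ _ a W u ha hu hcu hou hW
  refine ⟨fun v hv _ hov => om_eq hOMF ℓ ha hu hou hW hv hov, fun n hn => ?_⟩
  have hnu : n * u * n⁻¹ ∈ W := (Subgroup.mem_normalizer_iff.1 hn u).1 hu
  obtain ⟨-, -, -, -, -, cj, -, -⟩ := hOMF ℓ G a u ha hou
  have h1 : Om ℓ a u = Om ℓ a (n * u * n⁻¹) := om_eq hOMF ℓ ha hu hou hW hnu (cj n).2
  rw [← (cj n).1] at h1
  rw [Subgroup.mem_normalizer_iff]
  intro x
  constructor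
  · intro hx
    have h2 : n * x * n⁻¹ ∈ conjS n (Om ℓ a u) := by
      rw [mem_conjS]
      have : n⁻¹ * (n * x * n⁻¹) * n = x := by group
      rw [this]
      exact hx
    rw [← h1] at h2
    exact h2
  · intro hx
    have h2 : n * x * n⁻¹ ∈ conjS n (Om ℓ a u) := by
      rw [← h1]
      exact hx
    rw [mem_conjS] at h2
    have : n⁻¹ * (n * x * n⁻¹) * n = x := by group
    rw [this] at h2
    exact h2

theorem cyq : CyqStmt := by
  intro ℓ _ G A _ _ _ _ a p k V P N g φ V' hV hP hPN hV' hcen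
  refine ⟨hV.pos, hV.lt, hcen, ?_, ?_⟩
  · rw [hV']
    calc Nat.card ((P.subgroupOf N).map φ) ≤ Nat.card (P.subgroupOf N) :=
          Nat.card_le_card_of_surjective _ (φ.subgroupMap_surjective (P.subgroupOf N))
      _ = Nat.card P := Nat.card_congr (Subgroup.subgroupOfEquivOfLe hPN).toEquiv
      _ ≤ Nat.card (conjS g V) := Subgroup.card_le_of_le hP
      _ = Nat.card V := card_conjS g V
      _ ≤ ℓ ^ (a + p) := hV.card
  · obtain ⟨B, hBV, hBc, hBi⟩ := hV.ab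
    refine ⟨((P ⊓ conjS g B).subgroupOf N).map φ, ?_, ?_, ?_⟩
    · rw [hV']
      apply Subgroup.map_mono
      intro x hx
      rw [Subgroup.mem_subgroupOf] at hx ⊢
      exact hx.1
    · rintro _ ⟨x, hx, rfl⟩ _ ⟨y, hy, rfl⟩
      rw [← map_mul, ← map_mul]
      congr 1
      apply Subtype.ext
      have hx2 : (x : G) ∈ conjS g B := (Subgroup.mem_subgroupOf.1 hx).2
      have hy2 : (y : G) ∈ conjS g B := (Subgroup.mem_subgroupOf.1 hy).2
      rw [mem_conjS] at hx2 hy2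
      have h := hBc _ hx2 _ hy2
      show (x : G) * (y : G) = (y : G) * (x : G)
      have h2 := congrArg (fun t => g * t * g⁻¹) h
      simpa [mul_assoc] using h2
    · have hfin : (conjS g B).relIndex (conjS g V) = B.relIndex V :=
        Subgroup.relIndex_map_map_of_injective _ _ (MulAut.conj g).injective
      rw [hV', ← Subgroup.relIndex_comap]
      calc (Subgroup.comap φ (((P ⊓ conjS g B).subgroupOf N).map φ)).relIndex (P.subgroupOf N)
          ≤ ((P ⊓ conjS g B).subgroupOf N).relIndex (P.subgroupOf N) := by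
            apply Subgroup.relIndex_le_of_le_left (Subgroup.le_comap_map _ _)
            exact Subgroup.index_ne_zero_of_finite
        _ = (P ⊓ conjS g B).relIndex P := Subgroup.relIndex_subgroupOf hPN
        _ = (conjS g B).relIndex P := Subgroup.inf_relIndex_left _ _
        _ ≤ (conjS g B).relIndex (conjS g V) := by
            apply Subgroup.relIndex_le_of_le_right hP
            exact Subgroup.index_ne_zero_of_finite
        _ = B.relIndex V := hfin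
        _ ≤ ℓ ^ k := hBi

end Pool.Agent.PP.T5.H41
end
end -- Pool.Agent.Helper41_AT5.CHR

section -- Pool.Agent.Helper60_AT5.PR5

/-! Squad AT5, row PR5: existence of the exponent `N`. -/

open scoped BigOperators

noncomputable section

namespace Pool.Agent.PP.T5.H60

open Pool.Agent.Helper51_AWC Pool.Agent.Helper79_WRA Pool.Agent.PP Pool.Agent.PP.KF
open Pool.Agent.PP.K9 Pool.Agent.PP.K9.H97 Pool.Agent.PP.H75 Pool.Agent.PP.T3 Pool.Agent.PP.T2

theorem ep_pos (ℓ : ℕ) : 0 < ep ℓ := by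
  unfold ep
  split_ifs <;> omega

theorem ep_le {ℓ : ℕ} (hp : ℓ.Prime) : ep ℓ + 2 ≤ ℓ * ep ℓ := by
  unfold ep
  split_ifs with h
  · subst h; omega
  · have := hp.two_le
    omega

theorem order_w {ℓ : ℕ} (hp : ℓ.Prime) (a : ℕ) :
    orderOf ((1 + ℓ ^ ep ℓ : ℕ) : ZMod (ℓ ^ (a + ep ℓ))) = ℓ ^ a := by
  have h := ZMod.orderOf_one_add_mul_prime_pow hp (ep ℓ) (ep_pos ℓ).ne' (ep_le hp) 1 (by
    intro h
    have h1 : (ℓ : ℤ) = 1 := Int.eq_one_of_dvd_one (by positivity) h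
    have h2 := hp.one_lt
    omega) a
  rw [← h]
  congr 1
  push_cast
  ring

/-- the units which are one modulo `ℓ ^ ep ℓ` are the powers of `1 + ℓ ^ ep ℓ` -/
theorem units_pow {ℓ : ℕ} (hp : ℓ.Prime) (a j j' : ℕ) (hj : ¬ ℓ ∣ j)
    (hjj : j ≡ j' [MOD ℓ ^ ep ℓ]) :
    ∃ k : ℕ, j * (1 + ℓ ^ ep ℓ) ^ k ≡ j' [MOD ℓ ^ (a + ep ℓ)] := by
  have hne1 : NeZero (ℓ ^ (a + ep ℓ)) := ⟨pow_ne_zero _ hp.ne_zero⟩
  have hne2 : NeZero (ℓ ^ ep ℓ) := ⟨pow_ne_zero _ hp.ne_zero⟩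
  have hfact : Fact ℓ.Prime := ⟨hp⟩
  have hep := ep_pos ℓ
  have hd : ℓ ^ ep ℓ ∣ ℓ ^ (a + ep ℓ) := pow_dvd_pow _ (by omega)
  have hj' : ¬ ℓ ∣ j' := by
    intro h
    have h1 : j ≡ j' [MOD ℓ] := hjj.of_dvd (dvd_pow_self ℓ (by omega))
    exact hj ((h1.dvd_iff (dvd_refl ℓ)).2 h)
  have hjc : Nat.Coprime j (ℓ ^ (a + ep ℓ)) :=
    Nat.Coprime.pow_right _ ((Nat.Prime.coprime_iff_not_dvd hp).2 hj).symm
  have hjc' : Nat.Coprime j' (ℓ ^ (a + ep ℓ)) :=
    Nat.Coprime.pow_right _ ((Nat.Prime.coprime_iff_not_dvd hp).2 hj').symm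
  have hwc : Nat.Coprime (1 + ℓ ^ ep ℓ) (ℓ ^ (a + ep ℓ)) := by
    apply Nat.Coprime.pow_right
    obtain ⟨i, hi⟩ : ∃ i, ep ℓ = i + 1 := ⟨ep ℓ - 1, by omega⟩
    rw [hi, pow_succ]
    exact (Nat.coprime_add_mul_right_left 1 ℓ (ℓ ^ i)).2 (Nat.coprime_one_left ℓ)
  obtain ⟨u, hu⟩ := (ZMod.isUnit_iff_coprime j (ℓ ^ (a + ep ℓ))).2 hjc
  obtain ⟨u', hu'⟩ := (ZMod.isUnit_iff_coprime j' (ℓ ^ (a + ep ℓ))).2 hjc'
  obtain ⟨w, hw⟩ := (ZMod.isUnit_iff_coprime (1 + ℓ ^ ep ℓ) (ℓ ^ (a + ep ℓ))).2 hwc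
  have how : orderOf w = ℓ ^ a := by
    rw [← orderOf_units, hw]
    exact order_w hp a
  set π := ZMod.unitsMap hd with hπ
  have hval : ∀ (x : (ZMod (ℓ ^ (a + ep ℓ)))ˣ) (i : ℕ),
      (x : ZMod (ℓ ^ (a + ep ℓ))) = (i : ZMod (ℓ ^ (a + ep ℓ))) →
      ((π x : (ZMod (ℓ ^ ep ℓ))ˣ) : ZMod (ℓ ^ ep ℓ)) = (i : ZMod (ℓ ^ ep ℓ)) := by
    intro x i hx
    rw [hπ, ZMod.unitsMap_val, hx]
    exact ZMod.cast_natCast hd i
  have hwk : w ∈ π.ker := by
    rw [MonoidHom.mem_ker]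
    ext
    rw [hval w (1 + ℓ ^ ep ℓ) hw, Nat.cast_add, ZMod.natCast_self]
    simp
  have hck : u' * u⁻¹ ∈ π.ker := by
    rw [MonoidHom.mem_ker, map_mul, map_inv, mul_inv_eq_one]
    ext
    rw [hval u' j' hu', hval u j hu]
    exact ((ZMod.natCast_eq_natCast_iff _ _ _).2 hjj).symm
  have hle : Subgroup.zpowers w ≤ π.ker := by
    rw [Subgroup.zpowers_le]
    exact hwk
  have hcard : Nat.card π.ker = ℓ ^ a := by
    have h1 := Subgroup.card_mul_index π.ker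
    have h2 : π.ker.index = Nat.card (ZMod (ℓ ^ ep ℓ))ˣ := by
      rw [Subgroup.index_ker, MonoidHom.range_eq_top.2 (ZMod.unitsMap_surjective hd)]
      exact Nat.card_congr Subgroup.topEquiv.toEquiv
    obtain ⟨i, hi⟩ : ∃ i, ep ℓ = i + 1 := ⟨ep ℓ - 1, by omega⟩
    have h3 : Nat.card (ZMod (ℓ ^ ep ℓ))ˣ = ℓ ^ i * (ℓ - 1) := by
      rw [Nat.card_eq_fintype_card, ZMod.card_units_eq_totient]
      rw [hi, Nat.totient_prime_pow_succ hp]
    have h4 : Nat.card (ZMod (ℓ ^ (a + ep ℓ)))ˣ = ℓ ^ a * (ℓ ^ i * (ℓ - 1)) := by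
      rw [Nat.card_eq_fintype_card, ZMod.card_units_eq_totient]
      rw [hi, ← add_assoc, Nat.totient_prime_pow_succ hp, pow_add, mul_assoc]
    rw [h2, h3, h4] at h1
    have h5 : 0 < ℓ ^ i * (ℓ - 1) := by
      have := hp.two_le
      have h6 : 0 < ℓ - 1 := by omega
      have h7 : 0 < ℓ ^ i := pow_pos hp.pos _
      positivity
    exact Nat.eq_of_mul_eq_mul_right h5 h1
  have heq : Subgroup.zpowers w = π.ker := by
    apply Subgroup.eq_of_le_of_card_ge hle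
    rw [hcard, Nat.card_zpowers, how]
  rw [← heq] at hck
  obtain ⟨k, hk⟩ := mem_powers_iff_mem_zpowers.2 hck
  refine ⟨k, ?_⟩
  rw [← ZMod.natCast_eq_natCast_iff, Nat.cast_mul, Nat.cast_pow, ← hu, ← hu', ← hw]
  have h1 : u * w ^ k = u' := by
    have h2 : w ^ k = u' * u⁻¹ := hk
    rw [h2, mul_comm u', ← mul_assoc, mul_inv_cancel, one_mul]
  rw [← h1]
  simp

theorem pr5 : Pr5Stmt := by
  intro ℓ hℓ G _ _
  have hp : ℓ.Prime := hℓ.out
  have hep := ep_pos ℓ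
  set n := Nat.card G with hn
  have hn0 : n ≠ 0 := Nat.card_pos.ne'
  set a := n.factorization ℓ with ha
  set m := n / ℓ ^ a with hm
  have hnm : ℓ ^ a * m = n := Nat.ordProj_mul_ordCompl_eq_self n ℓ
  have hcop : Nat.Coprime ℓ m := Nat.coprime_ordCompl hp hn0
  have hc2 : Nat.Coprime (ℓ ^ (a + ep ℓ)) m := Nat.Coprime.pow_left _ hcop
  obtain ⟨N, hN1, hN2⟩ := Nat.chineseRemainder hc2 (1 + ℓ ^ ep ℓ) 1
  have hNl1 : Nat.Coprime N ℓ := by
    have h1 : N ≡ 1 + ℓ ^ ep ℓ [MOD ℓ] := hN1.of_dvd (dvd_pow_self ℓ (by omega))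
    have h2 := h1.gcd_eq
    have h3 : Nat.gcd (1 + ℓ ^ ep ℓ) ℓ = 1 := by
      obtain ⟨i, hi⟩ : ∃ i, ep ℓ = i + 1 := ⟨ep ℓ - 1, by omega⟩
      have : Nat.Coprime (1 + ℓ ^ ep ℓ) ℓ := by
        rw [hi, pow_succ]
        exact (Nat.coprime_add_mul_right_left 1 ℓ (ℓ ^ i)).2 (Nat.coprime_one_left ℓ)
      exact this
    rw [h3] at h2
    exact h2
  have hNm : Nat.Coprime N m := by
    have := hN2.gcd_eq
    rw [Nat.gcd_one_left] at this
    exact this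
  have hord : ∀ y : G, El ℓ y → orderOf y ∣ ℓ ^ (a + ep ℓ) := by
    intro y hy
    obtain ⟨i, hi⟩ := hy
    have h3 : orderOf y ∣ ℓ ^ i := orderOf_dvd_of_pow_eq_one hi
    have h4 : orderOf y ∣ ℓ ^ a * m := by
      rw [hnm]
      exact orderOf_dvd_natCard y
    have h5 : Nat.Coprime (orderOf y) m :=
      Nat.Coprime.coprime_dvd_left h3 (Nat.Coprime.pow_left _ hcop)
    exact (h5.dvd_of_dvd_mul_right h4).trans (pow_dvd_pow _ (by omega))
  refine ⟨N, ?_, ?_, ?_, ?_⟩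
  · rw [← hn, ← hnm]
    exact Nat.Coprime.mul_right (Nat.Coprime.pow_right _ hNl1) hNm
  · intro g hg
    have h1 : orderOf g ∣ m := by
      have h2 : orderOf g ∣ ℓ ^ a * m := by
        rw [hnm]
        exact orderOf_dvd_natCard g
      exact (Nat.Coprime.pow_right a hg).dvd_of_dvd_mul_left h2
    have h2 : g ^ N = g ^ 1 := pow_eq_pow_iff_modEq.2 (hN2.of_dvd h1)
    rw [h2, pow_one]
  · intro j j' hj hjj
    obtain ⟨k, hk⟩ := units_pow hp a j j' hj hjj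
    refine ⟨k, fun y hy => ?_⟩
    rw [← pow_mul]
    apply pow_eq_pow_iff_modEq.2
    have h1 : j * N ^ k ≡ j * (1 + ℓ ^ ep ℓ) ^ k [MOD ℓ ^ (a + ep ℓ)] :=
      (Nat.ModEq.refl j).mul (hN1.pow k)
    exact (h1.trans hk).of_dvd (hord y hy)
  · refine ⟨a + 1, by omega, fun g => ?_⟩
    have h1 : N ^ ℓ ^ (a + 1) ≡ 1 [MOD ℓ ^ (a + ep ℓ)] := by
      refine (hN1.pow _).trans ?_
      rw [← ZMod.natCast_eq_natCast_iff, Nat.cast_pow, Nat.cast_one]
      apply orderOf_dvd_iff_pow_eq_one.1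
      rw [order_w hp a]
      exact pow_dvd_pow _ (by omega)
    have h2 : N ^ ℓ ^ (a + 1) ≡ 1 [MOD m] := by
      have h3 := hN2.pow (ℓ ^ (a + 1))
      rwa [one_pow] at h3
    have h3 : N ^ ℓ ^ (a + 1) ≡ 1 [MOD ℓ ^ a * m] :=
      (Nat.modEq_and_modEq_iff_modEq_mul (Nat.Coprime.pow_left a hcop)).1
        ⟨h1.of_dvd (pow_dvd_pow _ (by omega)), h2⟩
    have h4 : g ^ N ^ ℓ ^ (a + 1) = g ^ 1 := by
      apply pow_eq_pow_iff_modEq.2
      apply h3.of_dvd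
      rw [hnm]
      exact orderOf_dvd_natCard g
    rw [h4, pow_one]

end Pool.Agent.PP.T5.H60
end
end -- Pool.Agent.Helper60_AT5.PR5
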