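import Pool.Agent.Helper12_AWB.B115
import Pool.Agent.Helper12_AWB.B118

/-!
# Merged copies (generated) of the modules

* `Pool.Agent.ATZ.Defs`
* `Pool.Agent.ATZ.Stmts1`
-/

set_option autoImplicit false

section -- Pool.Agent.ATZ.Defs

/-!
# Squad ATZ: Alperin's weight conjecture for defect groups with a large centre: definitions

Everything on top of squads AT5, AT8, AT3, AT2.  `e` is a block of `G` with a (perhaps nonabelian)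
defect group `V`, `γ` a block of `C(V)` under `e`, `T = Tg V γ` the inertial group, `Z` a central
subgroup of `V` which is normalised by `T` and on which the fusion of the local blocks is controlled
by `T` (`Zd`).  `E = T / (T ∩ C(Z))`.  If `V` is abelian then `Z = V` is possible.
-/

open scoped BigOperators

noncomputable section

namespace Pool.Agent.PP.TB

open Pool.Agent.Helper51_AWC Pool.Agent.Helper79_WRA Pool.Agent.PP Pool.Agent.PP.KF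
open Pool.Agent.PP.K9 Pool.Agent.PP.K9.H97 Pool.Agent.PP.H75 Pool.Agent.PP.T3 Pool.Agent.PP.T2
open Pool.Agent.PP.T5

attribute [local instance] Ideal.Quotient.field

section defs

variable {G : Type} [Group G]

/-- the order of `E = T / (T ∩ C(Z))` -/
def iz {F : Type} (V Z : Subgroup G) (γ : G → F) : ℕ :=
  (Subgroup.centralizer (Z : Set G) ⊓ Tg V γ).relIndex (Tg V γ)

/-- the order of the centraliser of `z` in `E` -/
def cz {F : Type} (V Z : Subgroup G) (γ : G → F) (z : G) : ℕ :=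
  (Subgroup.centralizer (Z : Set G) ⊓ Tg V γ).relIndex (Tg V γ ⊓ Cu z)

/-- `e` is a block with defect group `V`, `γ` a block of `C(V)` under `e`, `Z` a central subgroup of
`V` which is stable under the inertial group `T`, `b z` the block of `C(z)` under `e` and over `γ`
for `z ∈ Z`, and `T` controls the fusion of the pairs `(z, b z)`. -/
structure Zd (ℓ : ℕ) {F : Type} [Field F] (e : G → F) (V Z : Subgroup G) (γ : G → F)
    (b : G → G → F) : Prop where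
  blk : IsBlk e
  tp : Tp ℓ e V
  gam : Bx (Subgroup.centralizer (V : Set G)) γ
  und : mulF (br V e) γ = γ
  le : Z ≤ V
  cen : ∀ z ∈ Z, ∀ v ∈ V, v * z = z * v
  nrm : ∀ t ∈ Tg V γ, ∀ z ∈ Z, t * z * t⁻¹ ∈ Z
  lb : ∀ z ∈ Z, Lb ℓ e V z (b z) ∧ mulF (br V (b z)) γ = γ
  fus : ∀ z ∈ Z, ∀ z' ∈ Z, ∀ x : G, x * z' * x⁻¹ = z → cj x (b z') = b z →
    ∃ t ∈ Tg V γ, t * z' * t⁻¹ = z

variable (M : Ideal (integralClosure ℤ ℂ)) [M.IsMaximal]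

/-- the inner product of the functions `s ↦ χ(w s b)` and `s ↦ ψ(w s b)` on the regular elements
of `C` -/
def mm (ℓ : ℕ) (C : Subgroup G) (w : G) (b : G → FF M) (χ ψ : G → ℂ) : ℂ :=
  (Nat.card C : ℂ)⁻¹ * ∑ᶠ (s : G) (_ : s ∈ C ∧ Reg ℓ s),
    gv M C (w * s) b χ * starRingEnd ℂ (gv M C (w * s) b ψ)

/-- `|V| |C_E(z)|` times the inner product of `χ` and `ψ` in the section of `(z, b z)` -/
def Az (ℓ : ℕ) (V Z : Subgroup G) (γ : G → FF M) (b : G → G → FF M) (χ ψ : G → ℂ) (z : G) : ℂ :=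
  (Nat.card V : ℂ) * (cz V Z γ z : ℂ) * mm M ℓ (Cu z) z (b z) χ ψ

/-- The theorem of Broué and Puig for the central subgroup `Z`: for characters `χ`, `ψ` in `e` the
function `Az` on `Z` is a combination of the linear characters of `Z` with coefficients in the local
ring. -/
def Star (ℓ : ℕ) (e : G → FF M) (V Z : Subgroup G) (γ : G → FF M) (b : G → G → FF M) : Prop :=
  ∀ χ ∈ IrrE M e, ∀ ψ ∈ IrrE M e, T8.Rv M Z (Az M ℓ V Z γ b χ ψ)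

/-- the sum of the `|C_E(w)|` times the inner products in the sections of `(w, b w)`, `w ∈ W` -/
def Pw (ℓ : ℕ) (V Z W : Subgroup G) (γ : G → FF M) (b : G → G → FF M) (χ ψ : G → ℂ) : ℂ :=
  ∑ᶠ w : W, (cz V Z γ (w : G) : ℂ) * mm M ℓ (Cu (w : G)) w (b w) χ ψ

end defs

end Pool.Agent.PP.TB
end
end -- Pool.Agent.ATZ.Defs

section -- Pool.Agent.ATZ.Stmts1

/-!
# Squad ATZ, part 1: from the theorem of Broué and Puig to the bound for `l(e)`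

`e` a block of `G` with (perhaps nonabelian) defect group `V`, `Z` a central subgroup of `V` as in
`Zd`, `T = Tg V γ`, `E = T/(T ∩ C(Z))` of order `iz V Z γ`, `cz V Z γ z` the order of `C_E(z)`.
Complete proofs in the docstrings; all rows are independent (a row may take the rows which it uses
as hypotheses).  `b^` is the lift `eh M b`; it vanishes at the singular elements
(`K9.H25.eh_sing`).  `conj κ(c) = κ(c⁻¹)`.  All statements of AT2 and AT3 are proved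
(`Pool.Agent.Helper98_AT2.Asm2`).
-/

open scoped BigOperators

noncomputable section

namespace Pool.Agent.PP.TB

open Pool.Agent.Helper51_AWC Pool.Agent.Helper79_WRA Pool.Agent.PP Pool.Agent.PP.KF
open Pool.Agent.PP.K9 Pool.Agent.PP.K9.H97 Pool.Agent.PP.H75 Pool.Agent.PP.T3 Pool.Agent.PP.T2
open Pool.Agent.PP.T5

attribute [local instance] Ideal.Quotient.field

/-! ## 1. Sections -/

/-- ZCP: conjugation and powers.

Proof.  (i) A block `β` of `C(z)`, `z ∈ Z`, with `br_V(β) γ = γ` is unique: for two of them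
`br_V(β β') γ = br_V(β) br_V(β') γ = γ ≠ 0` (`V ≤ C(z)`, `H75.br_mulF`), so `β β' ≠ 0`, `β = β'`
(`Bx.dich`).  `cj t (b z)` is a block of `t C(z) t⁻¹ = C(t z t⁻¹)` and `br_V(cj t (b z)) γ =
cj t (br_V(b z) γ) = cj t γ = γ` (`t` normalises `V` and fixes `γ`): it is `b (t z t⁻¹)`.  The map
`x ↦ t x t⁻¹` gives `T ∩ C(t z t⁻¹) = t (T ∩ C(z)) t⁻¹`, and `C(Z) ∩ T` is normal in `T` (`nrm`).
`gv M (t C t⁻¹) (t g t⁻¹) (cj t b) χ = gv M C g b χ` (`χ` is a class function; the lift `eh` is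
compatible with the isomorphism `C → t C t⁻¹`).  (ii) `z` is a power of `z ^ j` (`z` has `ℓ`-power
order), so `C(z ^ j) = C(z)`, and uniqueness.  (iii) orbit and stabiliser: the orbit of `z` under `T`
has `|T : T ∩ C(z)|` elements and `C(Z) ∩ T ≤ T ∩ C(z)`.  (iv) `V C(V) ≤ C(Z) ∩ T` (`V` fixes `γ`, which
is a class function of `C(V)` supported there and `V` commutes with `C(V)`; `V` commutes with `Z` by
`cen`, `C(V) ≤ C(Z)`), so `iz` divides `|T : V C(V)|`, which is prime to `ℓ` (`T5.Ix5Stmt`).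
(v) `C(1) = G`. -/
def ZcpStmt : Prop := ∀ (ℓ : ℕ) [Fact ℓ.Prime] (M : Ideal (integralClosure ℤ ℂ)) [M.IsMaximal],
  (ℓ : integralClosure ℤ ℂ) ∈ M → ∀ (G : Type) [Group G] [Finite G] (e : G → FF M)
  (V Z : Subgroup G) (γ : G → FF M) (b : G → G → FF M), Zd ℓ e V Z γ b →
  (∀ z ∈ Z, ∀ t ∈ Tg V γ, cj t (b z) = b (t * z * t⁻¹) ∧
    cz V Z γ (t * z * t⁻¹) = cz V Z γ z ∧
    ∀ χ ∈ Irr G, ∀ ψ ∈ Irr G,
      mm M ℓ (Cu (t * z * t⁻¹)) (t * z * t⁻¹) (b (t * z * t⁻¹)) χ ψ =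
        mm M ℓ (Cu z) z (b z) χ ψ) ∧
  (∀ z ∈ Z, ∀ j : ℕ, ¬ ℓ ∣ j → Cu (z ^ j) = Cu z ∧ b (z ^ j) = b z ∧
    cz V Z γ (z ^ j) = cz V Z γ z) ∧
  (∀ z ∈ Z, cz V Z γ z * {y | ∃ t ∈ Tg V γ, y = t * z * t⁻¹}.ncard = iz V Z γ) ∧
  0 < iz V Z γ ∧ ¬ ℓ ∣ iz V Z γ ∧ (∀ z ∈ Z, 0 < cz V Z γ z) ∧ cz V Z γ 1 = iz V Z γ

/-- XCH: the numbers `|G| (χ, ψ)_u / χ(1)` and the central character.

Proof.  `C = C(u)`, `g(s) = gv M C (u s) b ψ`.  `gv M C (u s) b χ = ∑_{t ∈ C} b^(t) χ(u s t)`, so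
`mm = |C|⁻¹ ∑_{c ∈ C} h(c) χ(u c)`, `h(c) = ∑_s b^(s⁻¹ c) conj g(s)`, `s` over the regular elements of
`C`.  `h` is a class function of `C` with values in `RM M`: `conj g(s) = ∑_t b^(t⁻¹) ψ((u s t)⁻¹)`
(`conj b^(t) = b^(t⁻¹)`), and the values of `ψ` are algebraic integers.  Let `h'(x) = h(u⁻¹ x)` for
`x ∈ C` and `0` otherwise, `z(g) = ∑_{q ∈ G/C} h'(q⁻¹ g q)`, a class function of `G` with values in
`RM M`.  `|G| mm / χ(1) = χ(1)⁻¹ ∑_g z(g) χ(g) = ∑_K z(K) |K| χ(K)/χ(1)`, over the classes `K`, and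
`|K| χ(K)/χ(1)` is an algebraic integer, so this is in `RM M`, with residue `res M (rr ∘ z) χ`.  For
`χ`, `χ'` in the block `e` these residues are equal (`H50.char_uniq` with `isChar_res`).  Compare
`K9.OmgStmt`. -/
def XchStmt : Prop := ∀ (ℓ : ℕ) [Fact ℓ.Prime] (M : Ideal (integralClosure ℤ ℂ)) [M.IsMaximal],
  (ℓ : integralClosure ℤ ℂ) ∈ M → ∀ (G : Type) [Group G] [Finite G] (e : G → FF M), IsBlk e →
  ∀ (u : G) (b : G → FF M), Ix (Cu u) b → ∀ ψ ∈ Irr G,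
  (∀ χ ∈ Irr G, ((Nat.card G : ℂ) * mm M ℓ (Cu u) u b χ ψ / χ 1) ∈ RM M) ∧
  ∀ χ ∈ IrrE M e, ∀ χ' ∈ IrrE M e,
    rr M ((Nat.card G : ℂ) * mm M ℓ (Cu u) u b χ ψ / χ 1) =
      rr M ((Nat.card G : ℂ) * mm M ℓ (Cu u) u b χ' ψ / χ' 1)

/-- ONE: the section of `1`.

Proof.  `C(1) = G`; `b 1` is a block of `C(1)` under `e`, so `b 1 = e` (as functions on `G`;
`Bx.dich`, `e` is a block).  `gv M C (1 s) e χ = ∑_t e^(t) χ(s t) = χ(s)` for `χ ∈ e` (`IdmStmt`). -/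
def OneStmt : Prop := ∀ (ℓ : ℕ) [Fact ℓ.Prime] (M : Ideal (integralClosure ℤ ℂ)) [M.IsMaximal],
  (ℓ : integralClosure ℤ ℂ) ∈ M → ∀ (G : Type) [Group G] [Finite G] (e : G → FF M)
  (V Z : Subgroup G) (γ : G → FF M) (b : G → G → FF M), Zd ℓ e V Z γ b →
  ∀ χ ∈ IrrE M e, ∀ ψ ∈ IrrE M e, mm M ℓ (Cu (1 : G)) 1 (b 1) χ ψ = rip ℓ χ ψ

/-- NZF: a character fixed by the power map which is not orthogonal to any character of the block on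
the regular elements, even modulo `M`.

Proof (compare `T5.NzmStmt`).  `π` = the indicator function of the `ℓ`-elements, `a_ψ = (π, ψ)`, in
`RM M` by `T5.SeiStmt` (2).  Fix `κ ∈ e`.  As in NZM, `1 = ∑_{ψ ∈ e} a_ψ r(κ, ψ)`,
`r(κ, ψ) = |G| rip κ ψ / κ(1) = ∑_K ω_κ(K) conj ψ(K)` over the regular classes `K`, an algebraic
integer with residue `res M f_ψ κ`, `f_ψ` the class function over `FF M` with value the residue of
`conj ψ(x)` for `x` regular and `0` otherwise; the residue is the same for all `κ ∈ e`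
(`H50.char_uniq`).  `σ ψ = ψ ∘ (· ^ N)` permutes `IrrE M e` (`T3.H23.rtc'`) and `σ ^ ℓ ^ r = 1`
(`G5.per`).  `a_(σ ψ) = a_ψ` (`g ↦ g ^ N` is a bijection of `G` which preserves `π`) and
`r(κ, σ ψ) = r(κ, ψ)` (`g ^ N = g` for `g` regular).  So the orbits of `σ` with more than one element
(their lengths are divisible by `ℓ`) contribute `0` to the residue of the sum, and there is a fixed
`ψ` with `r(κ, ψ)` of residue not `0`. -/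
def NzfStmt : Prop := ∀ (ℓ : ℕ) [Fact ℓ.Prime] (M : Ideal (integralClosure ℤ ℂ)) [M.IsMaximal],
  (ℓ : integralClosure ℤ ℂ) ∈ M → ∀ (G : Type) [Group G] [Finite G] (N : ℕ), G5 G ℓ N →
  ∀ e : G → FF M, IsBlk e → ∃ ψ ∈ Rf M N e, ∀ χ ∈ IrrE M e,
    ((Nat.card G : ℂ) * rip ℓ χ ψ / χ 1) ∈ RM M ∧
    rr M ((Nat.card G : ℂ) * rip ℓ χ ψ / χ 1) ≠ 0

/-- ZIN: the numbers `|V| (χ, ψ)_z` are in `ℤ[ζ]`, and they are conjugate for the powers of `z`.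

Proof (as `T5.Gl5Stmt`).  `C = C(z) = C(z ^ j)`, `b = b z = b (z ^ j)` (ZCP (ii)).  `χ|C = ∑ m_κ κ`
(integers).  `κ(z ^ j s) = ζ ^ (i j) κ(s)`, `i = i(κ)` (`z` is central in `C`, `z ^ ℓ ^ a = 1`).  For
regular `s`: `gv M C (z ^ j s) b χ = ∑_i ζ ^ (i j) ψ_i(s)`, `ψ_i = ∑_{κ ∈ b, i(κ) = i} m_κ κ`, and
similarly `∑_i ζ ^ (i j) ψ'_i(s)` for `ψ`.  So `|V| mm = ∑_{i, i'} ζ ^ ((i - i') j) B(ψ_i, ψ'_i')`,
`B = |V| rip`, which has integral values on the integral combinations of the characters of `b`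
(`T5.InqStmt` for the group `C`, the block `b`, its defect group `V`: `T5.LbxStmt`).  Collect the
terms with `i - i' = k` modulo `ℓ ^ a`. -/
def ZinStmt : Prop := ∀ (ℓ : ℕ) [Fact ℓ.Prime] (M : Ideal (integralClosure ℤ ℂ)) [M.IsMaximal],
  (ℓ : integralClosure ℤ ℂ) ∈ M → ∀ (G : Type) [Group G] [Finite G] (e : G → FF M)
  (V Z : Subgroup G) (γ : G → FF M) (b : G → G → FF M), Zd ℓ e V Z γ b →
  ∀ z ∈ Z, ∀ a : ℕ, 0 < a → z ^ ℓ ^ a = 1 → ∀ ζ : ℂ, IsPrimitiveRoot ζ (ℓ ^ a) →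
  ∀ χ ∈ Irr G, ∀ ψ ∈ Irr G, ∃ m : ℕ → ℤ, ∀ j : ℕ, ¬ ℓ ∣ j →
    (Nat.card V : ℂ) * mm M ℓ (Cu (z ^ j)) (z ^ j) (b (z ^ j)) χ ψ =
      ∑ i ∈ Finset.range (ℓ ^ a), (m i : ℂ) * ζ ^ (i * j)

/-- POZ: positivity.

Proof.  `mm χ χ = |C|⁻¹ ∑_s |gv M C (z s) b χ|²`, and for `χ ∈ e` the term for `s = 1` is not zero
(`T5.Nz5Stmt`). -/
def PozStmt : Prop := ∀ (ℓ : ℕ) [Fact ℓ.Prime] (M : Ideal (integralClosure ℤ ℂ)) [M.IsMaximal],
  (ℓ : integralClosure ℤ ℂ) ∈ M → ∀ (G : Type) [Group G] [Finite G] (e : G → FF M)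
  (V Z : Subgroup G) (γ : G → FF M) (b : G → G → FF M), Zd ℓ e V Z γ b → ∀ z ∈ Z,
  (∀ χ ∈ Irr G, ∃ x : ℝ, 0 ≤ x ∧ mm M ℓ (Cu z) z (b z) χ χ = (x : ℂ)) ∧
  ∀ χ ∈ IrrE M e, ∃ x : ℝ, 0 < x ∧ mm M ℓ (Cu z) z (b z) χ χ = (x : ℂ)

/-! ## 2. Orthogonality -/

/-- MMO: orthogonality of the sections.

Proof.  `C = C(z)`, `C' = C(z')`, `f(s) = gv M C (z s) (b z) χ₀`, `f'(s') = gv M C' (z' s') (b z') χ₀`.
The sum is `|C|⁻¹ |C'|⁻¹ ∑_{s, s'} conj f(s) f'(s') ∑_χ gv M C (z s) (b z) χ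
conj (gv M C' (z' s') (b z') χ)`.  If `z`, `z'` are not conjugate under `T` then for `x z' x⁻¹ = z` the
blocks `b z` and `cj x (b z')` of `C(z)` are different (`Zd.fus`), so their product is `0`
(`Bx.dich`) and the inner sums are `0` (`T5.Co5Stmt`).  If `t z' t⁻¹ = z` then `mm` is the same for `z`
and `z'` (ZCP), so let `z' = z`.  By `T5.Co3Stmt` the inner sum is `k(s, s') = kr M C (b z) s s'`.  It
is enough that `|C|⁻¹ ∑_{s'} k(s, s') f(s') = f(s)`.  By `T5.KerStmt` `f` is on the regular elements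
a combination of the `κ ∈ b z`, and `|C|⁻¹ ∑_{s'} k(s, s') κ(s') = κ(s)`: `k(s, ·)` vanishes at the
singular elements of `C` (`WboStmt`), so the sum may be taken over all `s' ∈ C`, and the first
orthogonality relation.  Total: `|C|⁻¹ ∑_s conj f(s) f(s)`. -/
def MmoStmt : Prop := ∀ (ℓ : ℕ) [Fact ℓ.Prime] (M : Ideal (integralClosure ℤ ℂ)) [M.IsMaximal],
  (ℓ : integralClosure ℤ ℂ) ∈ M → ∀ (G : Type) [Group G] [Finite G] (e : G → FF M)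
  (V Z : Subgroup G) (γ : G → FF M) (b : G → G → FF M), Zd ℓ e V Z γ b → ∀ z ∈ Z, ∀ z' ∈ Z,
  ∀ χ₀ ∈ Irr G,
  ((∃ t ∈ Tg V γ, t * z' * t⁻¹ = z) →
    ∑ᶠ χ ∈ Irr G, mm M ℓ (Cu z) z (b z) χ χ₀ *
      starRingEnd ℂ (mm M ℓ (Cu z') z' (b z') χ χ₀) = mm M ℓ (Cu z) z (b z) χ₀ χ₀) ∧
  ((¬ ∃ t ∈ Tg V γ, t * z' * t⁻¹ = z) →
    ∑ᶠ χ ∈ Irr G, mm M ℓ (Cu z) z (b z) χ χ₀ *
      starRingEnd ℂ (mm M ℓ (Cu z') z' (b z') χ χ₀) = 0)

/-- PJZ: the projection onto the sections of the elements of `W`.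

Proof.  MMO: `∑_χ |Pw χ χ₀|² = ∑_{w ∈ W} cz(w) (∑_{w'} cz(w')) mm(w) χ₀ χ₀`, `w'` over the `T`-orbit
of `w` (it is contained in `W`), where `cz(w') = cz(w)`, so the inner sum is `iz` (ZCP (i), (iii)).
So the sum is `iz Pw χ₀ χ₀`, `Pw χ₀ χ₀ = x` real and `≥ 0` (POZ).  One of the terms on the left is
`x²`, so `x² ≤ iz x` and `x ≤ iz`. -/
def PjzStmt : Prop := ∀ (ℓ : ℕ) [Fact ℓ.Prime] (M : Ideal (integralClosure ℤ ℂ)) [M.IsMaximal],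
  (ℓ : integralClosure ℤ ℂ) ∈ M → ∀ (G : Type) [Group G] [Finite G] (e : G → FF M)
  (V Z : Subgroup G) (γ : G → FF M) (b : G → G → FF M), Zd ℓ e V Z γ b →
  ∀ W : Subgroup G, W ≤ Z → (∀ t ∈ Tg V γ, ∀ w ∈ W, t * w * t⁻¹ ∈ W) → ∀ χ₀ ∈ Irr G,
  (∃ x : ℝ, Pw M ℓ V Z W γ b χ₀ χ₀ = (x : ℂ) ∧ x ≤ iz V Z γ) ∧
  ∑ᶠ χ ∈ Irr G, Complex.normSq (Pw M ℓ V Z W γ b χ χ₀) ≤ (iz V Z γ : ℝ) ^ 2

/-! ## 3. The characters fixed by the power map -/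

/-- IVZ: invariance.

Proof.  Let `z ≠ 1`, so `ℓ` divides `|G|` and `N` is prime to `ℓ`.  `C(z ^ N) = C(z)`,
`b (z ^ N) = b z`, `cz (z ^ N) = cz z` (ZCP (ii)).  By `T5.KerStmt` (for `u = z`, `w = z ^ N` and
`w = z`) it is enough that `χ(z ^ N c) = χ(z c)` for `c ∈ C(z)` regular:
`z ^ N c = z ^ N c ^ N = (z c) ^ N`.  The same for `ψ`. -/
def IvzStmt : Prop := ∀ (ℓ : ℕ) [Fact ℓ.Prime] (M : Ideal (integralClosure ℤ ℂ)) [M.IsMaximal],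
  (ℓ : integralClosure ℤ ℂ) ∈ M → ∀ (G : Type) [Group G] [Finite G] (e : G → FF M)
  (V Z : Subgroup G) (γ : G → FF M) (b : G → G → FF M), Zd ℓ e V Z γ b → ∀ N : ℕ, G5 G ℓ N →
  ∀ z ∈ Z, ∀ χ ∈ Irr G, (∀ g, χ (g ^ N) = χ g) → ∀ ψ ∈ Irr G, (∀ g, ψ (g ^ N) = ψ g) →
    Az M ℓ V Z γ b χ ψ (z ^ N) = Az M ℓ V Z γ b χ ψ z

/-- AVZ: the average over `W = Z ^ (ℓ ^ k)` (compare `T8.AvbStmt`, `y = 1`).

Proof.  `f(v) = ∑ a_lam lam(v)` with `a_lam ∈ RM M` (`T8.RvaStmt`, Fourier inversion).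
`f(v ^ N) = f(v)` gives `a_(lam ^ N) = a_lam`.  The average of `lam` over `W` is `1` if `lam` is
trivial on `W`, i.e. if `lam ^ (ℓ ^ k) = 1`, and `0` otherwise (`W` is the set of the
`v ^ (ℓ ^ k)`).  So the average is the sum of the `a_lam` over these `lam`, in `RM M`, and
`f(1)` minus the average is the sum of the `a_lam` over the `lam` of order `ℓ ^ m`, `m > k`.  The powers
of `N` act on the `ℓ`-elements as all the `v ↦ v ^ j`, `j = 1` modulo `ℓ ^ ep ℓ` (`G5.gen`), so `a` is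
constant on the class of the `lam ^ j` for these `j`.  For `lam` of order `ℓ ^ m` the class has
`ℓ ^ (m - ep ℓ)` elements if `m ≥ ep ℓ` and one element otherwise; in both cases its number of
elements is divisible by `ℓ ^ (k + 1 - ep ℓ)` (truncated subtraction). -/
def AvzStmt : Prop := ∀ (ℓ : ℕ) [Fact ℓ.Prime] (M : Ideal (integralClosure ℤ ℂ)) [M.IsMaximal],
  (ℓ : integralClosure ℤ ℂ) ∈ M → ∀ (G : Type) [Group G] [Finite G] (N : ℕ), G5 G ℓ N →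
  ∀ Z : Subgroup G, IsPGroup ℓ Z → (∀ a ∈ Z, ∀ b ∈ Z, a * b = b * a) → ∀ f : G → ℂ,
  T8.Rv M Z f → (∀ v ∈ Z, f (v ^ N) = f v) → ∀ (k : ℕ) (W : Subgroup G), W = Uw (ℓ ^ k) Z →
  ((Nat.card W : ℂ)⁻¹ * ∑ᶠ w : W, f w) ∈ RM M ∧
  (f 1 - (Nat.card W : ℂ)⁻¹ * ∑ᶠ w : W, f w) / ℓ ^ (k + 1 - ep ℓ) ∈ RM M

/-! ## 4. Heights -/

/-- NRZ: the conjugates of an element divisible by `ℓ ^ h` (compare `T8.NrmStmt`,
`Helper45_AT8/NRM.lean`).

Proof.  `m = ℓ ^ (a-1) (ℓ - 1)` the number of the `j < ℓ ^ a` prime to `ℓ`.  The product of the `x_j`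
over these `j` is a rational integer `Π` (the norm of `∑ m_i ζ ^ i`), positive, and
`Π/ℓ ^ (h m) = ∏ x_j/ℓ ^ h ∈ RM M`, so `ℓ ^ (h m)` divides `Π` and `Π ≥ ℓ ^ (h m)`.  By the inequality
between the arithmetic and the geometric mean `∑ x_j ≥ m ℓ ^ h`. -/
def NrzStmt : Prop := ∀ (ℓ : ℕ) [Fact ℓ.Prime] (M : Ideal (integralClosure ℤ ℂ)) [M.IsMaximal],
  (ℓ : integralClosure ℤ ℂ) ∈ M → ∀ (a h : ℕ), 0 < a → ∀ ζ : ℂ, IsPrimitiveRoot ζ (ℓ ^ a) →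
  ∀ (m : ℕ → ℤ) (x : ℕ → ℝ),
  (∀ j : ℕ, ¬ ℓ ∣ j → 0 < x j ∧
    (x j : ℂ) = ∑ i ∈ Finset.range (ℓ ^ a), (m i : ℂ) * ζ ^ (i * j)) →
  (∀ j : ℕ, ¬ ℓ ∣ j → (x j : ℂ) / ℓ ^ h ∈ RM M) →
  ((ℓ ^ (a - 1) * (ℓ - 1) * ℓ ^ h : ℕ) : ℝ) ≤
    ∑ j ∈ (Finset.range (ℓ ^ a)).filter (fun j => ¬ ℓ ∣ j), x j

/-- HTZ: the heights.

Proof.  Choose `a > 0` with `z ^ ℓ ^ a = 1` for all `z ∈ Z`, `ζ` of order `ℓ ^ a`.  For `z ∈ Z`,
`Az χ χ z / ℓ ^ h = cz z · (|V| χ(1)/(|G| ℓ ^ h)) · (|G| mm/χ(1))` is in `RM M` (XCH; `b z` is in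
`Ix (Cu z)`).  By ZIN, POZ and ZCP (ii) (`cz (z ^ j) = cz z > 0`), NRZ applies to
`x_j = Az χ χ (z ^ j)`: `∑_j Az χ χ (z ^ j) ≥ φ(ℓ ^ a) ℓ ^ h`, `j < ℓ ^ a` prime to `ℓ`.  Sum over
`z ∈ Z`; `z ↦ z ^ j` is a bijection of `Z`: `∑_z Az χ χ z ≥ |Z| ℓ ^ h`.  The left side is
`|V| Pw χ χ` for `W = Z`, at most `|V| iz` by PJZ (`Zd.nrm`). -/
def HtzStmt : Prop := ∀ (ℓ : ℕ) [Fact ℓ.Prime] (M : Ideal (integralClosure ℤ ℂ)) [M.IsMaximal],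
  (ℓ : integralClosure ℤ ℂ) ∈ M → ∀ (G : Type) [Group G] [Finite G] (e : G → FF M)
  (V Z : Subgroup G) (γ : G → FF M) (b : G → G → FF M), Zd ℓ e V Z γ b → ∀ χ ∈ IrrE M e,
  ∀ h : ℕ, ((Nat.card V : ℂ) * χ 1 / (Nat.card G * ℓ ^ h)) ∈ RM M →
    ℓ ^ h * Nat.card Z ≤ Nat.card V * iz V Z γ

/-! ## 5. The bound -/

/-- GIZ: the entries of the projection are rational integers, up to the factor `iz/|V|`.

Proof.  `F(w) = |V| mm(w) χ ψ`, constant on the `T`-orbits in `W` (ZCP (i)).  The orbit of `w` has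
`iz/cz(w)` elements (ZCP (iii)), so `|V| Pw = ∑_w cz(w) F(w) = iz S`, `S` the sum of `F` over
representatives of the orbits, an algebraic integer (ZIN, `ζ` is one).  `S` is rational:
choose `a > 0` with `w ^ ℓ ^ a = 1` for all `w ∈ W`; for `j` prime to `ℓ` the map `w ↦ w ^ j` is a
bijection of `W` and `cz(w ^ j) = cz(w)`, so `φ(ℓ ^ a) |V| Pw = ∑_w cz(w) ∑_j F(w ^ j)`, `j < ℓ ^ a`
prime to `ℓ`, and by ZIN `∑_j F(w ^ j) = ∑_i m_i ∑_j ζ ^ (i j)` is a rational integer (the inner sum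
is `φ(ℓ ^ a)`, `- ℓ ^ (a-1)` or `0`).  A rational algebraic integer is an integer. -/
def GizStmt : Prop := ∀ (ℓ : ℕ) [Fact ℓ.Prime] (M : Ideal (integralClosure ℤ ℂ)) [M.IsMaximal],
  (ℓ : integralClosure ℤ ℂ) ∈ M → ∀ (G : Type) [Group G] [Finite G] (e : G → FF M)
  (V Z : Subgroup G) (γ : G → FF M) (b : G → G → FF M), Zd ℓ e V Z γ b →
  ∀ W : Subgroup G, W ≤ Z → (∀ t ∈ Tg V γ, ∀ w ∈ W, t * w * t⁻¹ ∈ W) →
  ∀ χ ∈ Irr G, ∀ ψ ∈ Irr G, ∃ n : ℤ,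
    (Nat.card V : ℂ) * Pw M ℓ V Z W γ b χ ψ = (iz V Z γ : ℂ) * n

/-- BFZ: the number of the fixed characters.

Proof.  `R = Rf M N e`, `χ₀ ∈ R` from NZF, `W = Uw (ℓ ^ k) Z` (it is stable under `T`), `E = iz`, prime to
`ℓ` (ZCP).  Let `χ ∈ R`, `f(z) = Az χ χ₀ z`, in `Rv M Z` (Star), `f(z ^ N) = f(z)` (IVZ).  AVZ: the
average `A = |W|⁻¹ ∑_{w ∈ W} f(w) = |W|⁻¹ |V| Pw χ χ₀` is in `RM M` and
`(f(1) - A)/ℓ ^ k' ∈ RM M`, `k' = k + 1 - ep ℓ`.  GIZ: `A = E n/|W|`, `n` an integer.  If `n = 0` then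
`f(1)/ℓ ^ k' ∈ RM M`; `f(1) = |V| E rip χ χ₀` (ZCP (v), ONE) `= E (|V| χ(1)/|G|) r`,
`r = |G| rip χ χ₀/χ(1)` a unit of `RM M` (NZF), `E` a unit, so
`|V| χ(1)/(|G| ℓ ^ k') ∈ RM M` and HTZ gives `ℓ ^ k' |Z| ≤ |V| E`, against the hypothesis.  So
`n ≠ 0`.  `E n/|W| ∈ RM M`, `E` a unit of `RM M`, `|W|` a power of `ℓ`: so `|W|` divides `n` (otherwise
`1/ℓ ∈ RM M`), `|n| ≥ |W|` and `|A| ≥ E`.  So `∑_{χ ∈ R} |A|² ≥ |R| E²`, and by PJZ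
`∑_χ |A|² = (|V|/|W|)² ∑_χ |Pw χ χ₀|² ≤ (|V|/|W|)² E²`. -/
def BfzStmt : Prop := ∀ (ℓ : ℕ) [Fact ℓ.Prime] (M : Ideal (integralClosure ℤ ℂ)) [M.IsMaximal],
  (ℓ : integralClosure ℤ ℂ) ∈ M → ∀ (G : Type) [Group G] [Finite G] (e : G → FF M)
  (V Z : Subgroup G) (γ : G → FF M) (b : G → G → FF M), Zd ℓ e V Z γ b →
  Star M ℓ e V Z γ b → ∀ N : ℕ, G5 G ℓ N → ∀ k : ℕ,
  Nat.card V * iz V Z γ < ℓ ^ (k + 1 - ep ℓ) * Nat.card Z →
    (Rf M N e).ncard * Nat.card (Uw (ℓ ^ k) Z) ^ 2 ≤ Nat.card V ^ 2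

/-- LNZ: the bound for the number of modular characters.

Proof.  `N` from `T5.Pr5Stmt`, `T5.Fx5Stmt`: `ln e ≤ |R|`; BFZ. -/
def LnzStmt : Prop := ∀ (ℓ : ℕ) [Fact ℓ.Prime] (M : Ideal (integralClosure ℤ ℂ)) [M.IsMaximal],
  (ℓ : integralClosure ℤ ℂ) ∈ M → ∀ (G : Type) [Group G] [Finite G] (e : G → FF M)
  (V Z : Subgroup G) (γ : G → FF M) (b : G → G → FF M), Zd ℓ e V Z γ b →
  Star M ℓ e V Z γ b → ∀ k : ℕ,
  Nat.card V * iz V Z γ < ℓ ^ (k + 1 - ep ℓ) * Nat.card Z →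
    ln e * Nat.card (Uw (ℓ ^ k) Z) ^ 2 ≤ Nat.card V ^ 2

/-- ZAB: the data for an abelian defect group, `Z = V`.

Proof.  `b z` from `T3.LocStmt` (uniqueness is not needed; for `z ∉ V` take anything).  `Lb`: the block
`b z` does not vanish on `C(V)` since `br_V(b z) γ = γ ≠ 0`.  `nrm`: `T ≤ N(V)`.  `fus`:
`T3.FusStmt` (with `T3.LsbStmt`), as in the proof of `T3` row BRG.  `iz = ix`: the centraliser of
`V` is contained in `Tg V γ` (`γ` is a class function of `C(V)`), so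
`C(V) ⊓ T = C(V)`. -/
def ZabStmt : Prop := ∀ (ℓ : ℕ) [Fact ℓ.Prime] (M : Ideal (integralClosure ℤ ℂ)) [M.IsMaximal],
  (ℓ : integralClosure ℤ ℂ) ∈ M → ∀ (G : Type) [Group G] [Finite G] (e : G → FF M)
  (V : Subgroup G) (γ : G → FF M), Ld ℓ e V γ →
  (∃ b : G → G → FF M, Zd ℓ e V V γ b) ∧ iz V V γ = ix V γ

end Pool.Agent.PP.TB
end
end -- Pool.Agent.ATZ.Stmts1
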