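import Pool.Agent.Helper12_AWB.B119

/-!
# Merged copies (generated) of the modules

* `Pool.Agent.ATZ.Stmts2`
* `Pool.Agent.Helper52_ATZ.BND`
* `Pool.Agent.Helper65_ATZ.CLZ`
-/

set_option autoImplicit false

section -- Pool.Agent.ATZ.Stmts2

/-!
# Squad ATZ, part 2: the bound for `l(e)` in terms of the structure of the defect group

`Zc V` is the centre of `V`, `Cl ℓ r p V`: `V` has a central subgroup `Z₀` of index at most `ℓ ^ p`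
with `|Z₀ : Z₀ ^ ℓ| ≤ ℓ ^ r`.  Complete proofs in the docstrings.
-/

open scoped BigOperators

noncomputable section

namespace Pool.Agent.PP.TB

open Pool.Agent.Helper51_AWC Pool.Agent.Helper79_WRA Pool.Agent.PP Pool.Agent.PP.KF
open Pool.Agent.PP.K9 Pool.Agent.PP.K9.H97 Pool.Agent.PP.H75 Pool.Agent.PP.T3 Pool.Agent.PP.T2
open Pool.Agent.PP.T5

attribute [local instance] Ideal.Quotient.field

section defs

variable {G : Type} [Group G]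

/-- the centre of `V` -/
def Zc (V : Subgroup G) : Subgroup G := V ⊓ Subgroup.centralizer (V : Set G)

/-- `V` has a central subgroup `Z₀` of index at most `ℓ ^ p` with `|Z₀ : Z₀ ^ ℓ| ≤ ℓ ^ r`. -/
def Cl (ℓ r p : ℕ) (V : Subgroup G) : Prop :=
  ∃ Z₀ ≤ Zc V, Nat.card V ≤ ℓ ^ p * Nat.card Z₀ ∧ Nat.card Z₀ ≤ ℓ ^ r * Nat.card (Uw ℓ Z₀)

/-- the exponent of the bound for `l(e)` -/
def cb (ℓ r p : ℕ) : ℕ :=
  2 * (p + r * p + r * (p + r * p + r * r + ep ℓ))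

end defs

/-! ## 6. Groups -/

/-- UWA: powers in abelian subgroups.

Proof.  `A` is abelian, so `Uw n A` is the image of the homomorphism `x ↦ x ^ n` on `A`
(`T2.PwuStmt`), and `|A : Uw n A|` is the number of the `x ∈ A` with `x ^ n = 1`.  (i) For `B ≤ A` this
number is at least the number for `B`.  (ii) Induction on `k`: `Uw (ℓ ^ (k+1)) A =
Uw ℓ (Uw (ℓ ^ k) A)`, and by (i) `|Uw (ℓ ^ k) A : Uw ℓ (Uw (ℓ ^ k) A)| ≤ |A : Uw ℓ A| ≤ ℓ ^ r`.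
(iii) clear. -/
def UwaStmt : Prop := ∀ (G : Type) [Group G] [Finite G] (A : Subgroup G),
  (∀ x ∈ A, ∀ y ∈ A, x * y = y * x) →
  (∀ B : Subgroup G, B ≤ A → ∀ n : ℕ, Nat.card B * Nat.card (Uw n A) ≤
    Nat.card A * Nat.card (Uw n B)) ∧
  (∀ ℓ r k : ℕ, Nat.card A ≤ ℓ ^ r * Nat.card (Uw ℓ A) →
    Nat.card A ≤ ℓ ^ (r * k) * Nat.card (Uw (ℓ ^ k) A)) ∧
  ∀ B : Subgroup G, B ≤ A → ∀ n : ℕ, Uw n B ≤ Uw n A

/-- CLZ: the subgroup `Z = Z(V) ^ (ℓ ^ p)`.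

Proof.  `Z₀` from `Cl`; `|Zc V : Z₀| ≤ |V : Z₀| ≤ ℓ ^ p`, a power of `ℓ` (`V` is an `ℓ`-group), so it
divides `ℓ ^ p` and `x ^ ℓ ^ p ∈ Z₀` for `x ∈ Zc V` (abelian): `Z ≤ Z₀`.  So by UWA (i)
`|Z : Z ^ ℓ| ≤ |Z₀ : Z₀ ^ ℓ| ≤ ℓ ^ r`.  `Z ≥ Uw (ℓ ^ p) Z₀` (UWA (iii)), so by UWA (ii)
`|V| ≤ ℓ ^ p |Z₀| ≤ ℓ ^ p ℓ ^ (r p) |Z|`. -/
def ClzStmt : Prop := ∀ (ℓ : ℕ) [Fact ℓ.Prime] (G : Type) [Group G] [Finite G] (r p : ℕ)
  (V : Subgroup G), IsPGroup ℓ V → Cl ℓ r p V →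
  Nat.card V ≤ ℓ ^ p * Nat.card (Zc V) ∧
  Nat.card (Uw (ℓ ^ p) (Zc V)) ≤ ℓ ^ r * Nat.card (Uw ℓ (Uw (ℓ ^ p) (Zc V))) ∧
  Nat.card V ≤ ℓ ^ (p + r * p) * Nat.card (Uw (ℓ ^ p) (Zc V))

/-- IZB: the order of `E`.

Proof.  `E = T/(T ∩ C(Z))` acts faithfully on the abelian `ℓ`-group `Z`, and its order is prime to
`ℓ` (ZCP).  An element `t ∈ T` which acts trivially on `Z/Z ^ ℓ`, `Z ^ ℓ = Uw ℓ Z`, acts on `Z` as an
automorphism of `ℓ`-power order (the group of the automorphisms of `Z` which are trivial modulo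
`Z ^ ℓ` is an `ℓ`-group: `t z t⁻¹ = z y`, `y ∈ Z ^ ℓ`, and `t` acts trivially on the factors
`Z ^ (ℓ ^ i)/Z ^ (ℓ ^ (i+1))`; so `t ^ ℓ` acts trivially modulo `Z ^ (ℓ ^ 2)`, and so on), so
`t ∈ C(Z)`.  So `E` acts faithfully on `Z/Z ^ ℓ`, an elementary abelian group of order `ℓ ^ s`,
`s ≤ r`; an automorphism is determined by the images of `s` generators, so
`|E| ≤ (ℓ ^ s) ^ s ≤ ℓ ^ (r r)`. -/
def IzbStmt : Prop := ∀ (ℓ : ℕ) [Fact ℓ.Prime] (M : Ideal (integralClosure ℤ ℂ)) [M.IsMaximal],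
  (ℓ : integralClosure ℤ ℂ) ∈ M → ∀ (G : Type) [Group G] [Finite G] (e : G → FF M)
  (V Z : Subgroup G) (γ : G → FF M) (b : G → G → FF M), Zd ℓ e V Z γ b → ∀ r : ℕ,
  Nat.card Z ≤ ℓ ^ r * Nat.card (Uw ℓ Z) → iz V Z γ ≤ ℓ ^ (r * r)

/-- BND: the bound.  The hypothesis is the conclusion of the STAR block for
`Z = Z(V) ^ (ℓ ^ p)`.

Proof.  CLZ, `Z = Uw (ℓ ^ p) (Zc V)`, `k = p + r p + r r + ep ℓ`.  IZB: `|V| iz ≤
ℓ ^ (p + r p + r r) |Z| < ℓ ^ (k + 1 - ep ℓ) |Z|`.  LNZ: `ln e |W|² ≤ |V|²`, `W = Uw (ℓ ^ k) Z`, and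
`|V| ≤ ℓ ^ (p + r p) |Z| ≤ ℓ ^ (p + r p + r k) |W|` by UWA (ii). -/
def BndStmt : Prop := ∀ (ℓ : ℕ) [Fact ℓ.Prime] (M : Ideal (integralClosure ℤ ℂ)) [M.IsMaximal],
  (ℓ : integralClosure ℤ ℂ) ∈ M → ∀ (G : Type) [Group G] [Finite G] (e : G → FF M)
  (V : Subgroup G) (r p : ℕ), IsBlk e → Tp ℓ e V → Cl ℓ r p V →
  (∃ (γ : G → FF M) (b : G → G → FF M), Zd ℓ e V (Uw (ℓ ^ p) (Zc V)) γ b ∧
    Star M ℓ e V (Uw (ℓ ^ p) (Zc V)) γ b) →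
    ln e ≤ ℓ ^ cb ℓ r p

end Pool.Agent.PP.TB
end
end -- Pool.Agent.ATZ.Stmts2

section -- Pool.Agent.Helper52_ATZ.BND

/-! Squad ATZ, row BND. -/

open scoped BigOperators

noncomputable section

namespace Pool.Agent.PP.TB.H52

open Pool.Agent.Helper51_AWC Pool.Agent.Helper79_WRA Pool.Agent.PP Pool.Agent.PP.KF
open Pool.Agent.PP.K9 Pool.Agent.PP.K9.H97 Pool.Agent.PP.H75 Pool.Agent.PP.T3 Pool.Agent.PP.T2
open Pool.Agent.PP.T5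

attribute [local instance] Ideal.Quotient.field

theorem bnd (hCLZ : ClzStmt) (hIZB : IzbStmt) (hLNZ : LnzStmt) (hUWA : UwaStmt) : BndStmt := by
  intro ℓ _ M _ hM G _ _ e V r p _he hTp hCl hex
  obtain ⟨γ, b, hZd, hSt⟩ := hex
  have hl2 : 2 ≤ ℓ := (Fact.out : ℓ.Prime).two_le
  have hl0 : 0 < ℓ := by omega
  obtain ⟨_, hz2, hz3⟩ := hCLZ ℓ G r p V hTp.1 hCl
  set Z : Subgroup G := Uw (ℓ ^ p) (Zc V) with hZ
  have hiz := hIZB ℓ M hM G e V Z γ b hZd r hz2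
  have hZpos : 0 < Nat.card Z := Nat.card_pos
  set k : ℕ := p + r * p + r * r + ep ℓ with hk
  have hkk : k + 1 - ep ℓ = p + r * p + r * r + 1 := by omega
  have h1 : Nat.card V * iz V Z γ < ℓ ^ (k + 1 - ep ℓ) * Nat.card Z := by
    rw [hkk]
    calc Nat.card V * iz V Z γ ≤ (ℓ ^ (p + r * p) * Nat.card Z) * ℓ ^ (r * r) :=
          Nat.mul_le_mul hz3 hiz
      _ = ℓ ^ (p + r * p + r * r) * Nat.card Z := by rw [pow_add ℓ (p + r * p) (r * r)]; ring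
      _ < ℓ ^ (p + r * p + r * r + 1) * Nat.card Z := by
          apply Nat.mul_lt_mul_of_pos_right _ hZpos
          exact Nat.pow_lt_pow_right (by omega) (Nat.lt_succ_self _)
  have h2 := hLNZ ℓ M hM G e V Z γ b hZd hSt k h1
  set W : Subgroup G := Uw (ℓ ^ k) Z with hW
  have habel : ∀ x ∈ Z, ∀ y ∈ Z, x * y = y * x := fun x hx y hy =>
    hZd.cen y hy x (hZd.le hx)
  have h3 : Nat.card Z ≤ ℓ ^ (r * k) * Nat.card W := (hUWA G Z habel).2.1 ℓ r k hz2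
  have hWpos : 0 < Nat.card W := Nat.card_pos
  have h4 : Nat.card V ≤ ℓ ^ (p + r * p + r * k) * Nat.card W := by
    calc Nat.card V ≤ ℓ ^ (p + r * p) * Nat.card Z := hz3
      _ ≤ ℓ ^ (p + r * p) * (ℓ ^ (r * k) * Nat.card W) := Nat.mul_le_mul_left _ h3
      _ = ℓ ^ (p + r * p + r * k) * Nat.card W := by rw [pow_add ℓ (p + r * p) (r * k)]; ring
  have h5 : ln e * Nat.card W ^ 2 ≤ ℓ ^ (2 * (p + r * p + r * k)) * Nat.card W ^ 2 := by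
    calc ln e * Nat.card W ^ 2 ≤ Nat.card V ^ 2 := h2
      _ ≤ (ℓ ^ (p + r * p + r * k) * Nat.card W) ^ 2 := Nat.pow_le_pow_left h4 2
      _ = ℓ ^ (2 * (p + r * p + r * k)) * Nat.card W ^ 2 := by
          rw [mul_pow, ← pow_mul, mul_comm (p + r * p + r * k) 2]
  have h6 := Nat.le_of_mul_le_mul_right h5 (pow_pos hWpos 2)
  exact h6

end Pool.Agent.PP.TB.H52
end
end -- Pool.Agent.Helper52_ATZ.BND

section -- Pool.Agent.Helper65_ATZ.CLZ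

/-!
# Squad ATZ, row CLZ: the subgroup `Z(V) ^ (ℓ ^ p)`
-/

open scoped BigOperators

noncomputable section

namespace Pool.Agent.PP.TB.H65

open Pool.Agent.PP.T2 Pool.Agent.PP.TB

theorem zc_comm {G : Type} [Group G] (V : Subgroup G) :
    ∀ x ∈ Zc V, ∀ y ∈ Zc V, x * y = y * x := by
  intro x hx y hy
  have h1 : x ∈ V := (Subgroup.mem_inf.mp hx).1
  have h2 := (Subgroup.mem_inf.mp hy).2
  exact (Subgroup.mem_centralizer_iff.mp h2) x h1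

theorem clz (uwa : UwaStmt) : ClzStmt := by
  intro ℓ hℓ G _ _ r p V hV hCl
  obtain ⟨Z₀, hZ, h1, h2⟩ := hCl
  have hp := hℓ.out
  have hZV : Zc V ≤ V := inf_le_left
  have hcz := zc_comm V
  have hc0 : ∀ x ∈ Z₀, ∀ y ∈ Z₀, x * y = y * x := fun x hx y hy => hcz x (hZ hx) y (hZ hy)
  have hle0 : Nat.card Z₀ ≤ Nat.card (Zc V) := Subgroup.card_le_of_le hZ
  have hleV : Nat.card (Zc V) ≤ Nat.card V := Subgroup.card_le_of_le hZV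
  -- the index of `Z₀` in the centre is a power of `ℓ`
  have hpZ : IsPGroup ℓ (Zc V) := hV.to_le hZV
  obtain ⟨m, hm⟩ := (IsPGroup.iff_card.mp hpZ)
  have hrel : Z₀.relIndex (Zc V) * Nat.card Z₀ = Nat.card (Zc V) := by
    have h := Subgroup.relIndex_mul_relIndex ⊥ Z₀ (Zc V) bot_le hZ
    rw [Subgroup.relIndex_bot_left, Subgroup.relIndex_bot_left] at h
    rw [mul_comm]; exact h
  have hdvd : Z₀.relIndex (Zc V) ∣ ℓ ^ m := by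
    rw [← hm, ← hrel]; exact Dvd.intro _ rfl
  obtain ⟨k, hkm, hk⟩ := (Nat.dvd_prime_pow hp).mp hdvd
  have hpos0 : 0 < Nat.card Z₀ := Nat.card_pos
  have hkp : k ≤ p := by
    have h3 : ℓ ^ k * Nat.card Z₀ ≤ ℓ ^ p * Nat.card Z₀ := by
      rw [← hk, hrel]; exact le_trans hleV h1
    have h4 : ℓ ^ k ≤ ℓ ^ p := Nat.le_of_mul_le_mul_right h3 hpos0
    exact (Nat.pow_le_pow_iff_right hp.one_lt).mp h4
  have hpow : ∀ x ∈ Zc V, x ^ ℓ ^ p ∈ Z₀ := by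
    intro x hx
    have hn : (Z₀.subgroupOf (Zc V)).Normal := by
      constructor
      intro n hn g
      have : g * n * g⁻¹ = n := by
        apply Subtype.ext
        have := hcz g g.2 n n.2
        push_cast
        rw [this, mul_inv_cancel_right]
      rw [this]; exact hn
    have h5 := Subgroup.pow_index_mem (Z₀.subgroupOf (Zc V)) (⟨x, hx⟩ : Zc V)
    have h6 : (Z₀.subgroupOf (Zc V)).index = ℓ ^ k := hk
    rw [h6] at h5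
    have h7 : x ^ ℓ ^ k ∈ Z₀ := by
      have := Subgroup.mem_subgroupOf.mp h5
      simpa using this
    have h8 : x ^ ℓ ^ p = (x ^ ℓ ^ k) ^ ℓ ^ (p - k) := by
      rw [← pow_mul, ← pow_add, Nat.add_sub_cancel' hkp]
    rw [h8]
    exact Z₀.pow_mem h7 _
  have hZle : Uw (ℓ ^ p) (Zc V) ≤ Z₀ := by
    refine (Subgroup.closure_le _).mpr ?_
    rintro _ ⟨x, hx, rfl⟩
    exact hpow x hx
  have hU := uwa G Z₀ hc0
  refine ⟨le_trans h1 (Nat.mul_le_mul_left _ hle0), ?_, ?_⟩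
  · have h3 := hU.1 (Uw (ℓ ^ p) (Zc V)) hZle ℓ
    have hpu : 0 < Nat.card (Uw ℓ Z₀) := Nat.card_pos
    refine Nat.le_of_mul_le_mul_right ?_ hpu
    calc Nat.card (Uw (ℓ ^ p) (Zc V)) * Nat.card (Uw ℓ Z₀)
        ≤ Nat.card Z₀ * Nat.card (Uw ℓ (Uw (ℓ ^ p) (Zc V))) := h3
      _ ≤ (ℓ ^ r * Nat.card (Uw ℓ Z₀)) * Nat.card (Uw ℓ (Uw (ℓ ^ p) (Zc V))) :=
          Nat.mul_le_mul_right _ h2
      _ = ℓ ^ r * Nat.card (Uw ℓ (Uw (ℓ ^ p) (Zc V))) * Nat.card (Uw ℓ Z₀) := by ring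
  · have h3 := hU.2.1 ℓ r p h2
    have h4 : Uw (ℓ ^ p) Z₀ ≤ Uw (ℓ ^ p) (Zc V) := (uwa G (Zc V) hcz).2.2 Z₀ hZ (ℓ ^ p)
    have h5 : Nat.card (Uw (ℓ ^ p) Z₀) ≤ Nat.card (Uw (ℓ ^ p) (Zc V)) :=
      Subgroup.card_le_of_le h4
    calc Nat.card V ≤ ℓ ^ p * Nat.card Z₀ := h1
      _ ≤ ℓ ^ p * (ℓ ^ (r * p) * Nat.card (Uw (ℓ ^ p) Z₀)) := Nat.mul_le_mul_left _ h3
      _ ≤ ℓ ^ p * (ℓ ^ (r * p) * Nat.card (Uw (ℓ ^ p) (Zc V))) :=
          Nat.mul_le_mul_left _ (Nat.mul_le_mul_left _ h5)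
      _ = ℓ ^ (p + r * p) * Nat.card (Uw (ℓ ^ p) (Zc V)) := by rw [pow_add]; ring

end Pool.Agent.PP.TB.H65
end
end -- Pool.Agent.Helper65_ATZ.CLZ
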