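import Pool.Agent.Helper12_AWB.B119

/-!
# Merged copies (generated) of the modules

* `Pool.Agent.AT10.Defs`
* `Pool.Agent.AT10.Stmts1`
* `Pool.Agent.Helper86_AT10.PDC`
* `Pool.Agent.Helper86_AT10.RTR`
-/

set_option autoImplicit false

section -- Pool.Agent.AT10.Defs

/-!
# Squad AT10: the theorem of Broué and Puig for the central sections (STAR block): definitions

Everything on top of squads ATZ (`Pool.Agent.PP.TB`), AT8, AT5.  `A = F G` with the conjugation
action of `G`, `A ^ P` the subalgebra of the `P`-invariant elements.  For an `ℓ`-element `u` and an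
idempotent `j` of `F C(u)`, `tv M u j χ` is `χ(u j^)`, `j^` any lift of `j`.
-/

open scoped BigOperators

noncomputable section

namespace Pool.Agent.PP.T10

open Pool.Agent.Helper51_AWC Pool.Agent.Helper79_WRA Pool.Agent.PP Pool.Agent.PP.KF
open Pool.Agent.PP.K9 Pool.Agent.PP.K9.H97 Pool.Agent.PP.H75 Pool.Agent.PP.T3 Pool.Agent.PP.T2
open Pool.Agent.PP.T5 Pool.Agent.PP.TB
open Pool.Agent.PP.T8 (rs pw fv rd Ip Rv)

attribute [local instance] Ideal.Quotient.field

section defs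

variable {G : Type} [Group G]

/-- `i` is a primitive idempotent of the algebra of the `P`-invariant elements of the group ring. -/
structure Pm {F : Type} [Field F] (P : Subgroup G) (i : G → F) : Prop where
  id : mulF i i = i
  iv : ∀ v ∈ P, ∀ x, i (v * x * v⁻¹) = i x
  nz : i ≠ 0
  pr : ∀ j : G → F, mulF j j = j → (∀ v ∈ P, ∀ x, j (v * x * v⁻¹) = j x) → mulF i j = j →
    mulF j i = j → j = 0 ∨ j = i

/-- `Q` is a subgroup of index `ℓ` of `P`, `u` an element of `P` not in `Q`, `a` is `Q`-invariant,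
`i a = a = a i`, and the sum of the conjugates of `a` with `1, u, ..., u ^ (ℓ - 1)` is `i`. -/
structure Tq {F : Type} [Field F] (ℓ : ℕ) (P Q : Subgroup G) (u : G) (a i : G → F) : Prop where
  le : Q ≤ P
  ix : Q.relIndex P = ℓ
  mem : u ∈ P
  nm : u ∉ Q
  iv : ∀ v ∈ Q, ∀ x, a (v * x * v⁻¹) = a x
  lm : mulF i a = a
  rm : mulF a i = a
  tr : ∑ k ∈ Finset.range ℓ, cj (u ^ k) a = i

variable (M : Ideal (integralClosure ℤ ℂ)) [M.IsMaximal]

/-- `i` is an idempotent over the local ring which commutes with `u`, and the restriction of its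
reduction to `C(u)` is `j`. -/
structure Il (u : G) (j : G → FF M) (i : G → ℂ) : Prop where
  rm : ∀ g, i g ∈ RM M
  id : mulF i i = i
  iv : ∀ x, i (u * x * u⁻¹) = i x
  rd : rs (Cu u) (rd M i) = j

open Classical in
/-- the value `χ(u j^)`, `j^` any lift of the idempotent `j` of `F C(u)` -/
def tv (u : G) (j : G → FF M) (χ : G → ℂ) : ℂ :=
  if h : ∃ i, Il M u j i then fv h.choose u χ else 0

/-- For all virtual characters `κ` of `P` the average of `h κ` over `P` is in the local ring. -/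
def Cf (P : Subgroup G) (h : G → ℂ) : Prop :=
  ∀ κ ∈ ZI P, (Nat.card P : ℂ)⁻¹ * ∑ᶠ u : P, h u * κ u ∈ RM M

/-- For every `k`, `u ↦ β k u` is an equivariant family of central idempotents (perhaps `0`) of the
algebras `F C(u)`. -/
structure Ef {ι : Type} (β : ι → G → G → FF M) : Prop where
  ix : ∀ k u, Ix (Cu u) (β k u)
  eq : ∀ k (g u : G), β k (g * u * g⁻¹) = cj g (β k u)

/-- the combination with the coefficients `c k` of the values of `χ` at `u i β k u` -/
def fi {ι : Type} (c : ι → ℂ) (β : ι → G → G → FF M) (i : G → FF M) (χ : G → ℂ) (u : G) : ℂ :=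
  ∑ᶠ k : ι, c k * tv M u (mulF (rs (Cu u) i) (β k u)) χ

/-- the combination with the coefficients `c k` of the functions `s ↦ χ(u s β k u)` -/
def fu {ι : Type} (c : ι → ℂ) (β : ι → G → G → FF M) (χ : G → ℂ) (u s : G) : ℂ :=
  ∑ᶠ k : ι, c k * gv M (Cu u) (u * s) (β k u) χ

/-- the class function with the value `fu u s` at `u s`, `u` the `ℓ`-part and `s` the regular part -/
def fg {ι : Type} (ℓ : ℕ) (c : ι → ℂ) (β : ι → G → G → FF M) (χ : G → ℂ) (g : G) : ℂ :=
  ∑ᶠ (u : G) (_ : Lp ℓ g u), fu M c β χ u (u⁻¹ * g)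

/-- The conclusion of the coherence theorem for the family `β`. -/
def Hc {ι : Type} (ℓ : ℕ) (c : ι → ℂ) (β : ι → G → G → FF M) (χ : G → ℂ) : Prop :=
  ∀ P : Subgroup G, IsPGroup ℓ P → ∀ i : G → FF M, mulF i i = i →
    (∀ v ∈ P, ∀ x, i (v * x * v⁻¹) = i x) → Cf M P (fi M c β i χ)

open Classical in
/-- the block of `C(u)` which is conjugate to the block `b z` of `C(z)`, if `z` and `u` are
conjugate; otherwise `0` -/
def sb {F : Type} [Zero F] (b : G → G → F) (z u : G) : G → F :=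
  if h : ∃ q : G, q * z * q⁻¹ = u then fun x => b z (h.choose⁻¹ * x * h.choose) else 0

/-- the coefficient of the section of `z` in the function which belongs to the linear character
`nu` of `Z` -/
def cn {F : Type} (V Z : Subgroup G) (γ : G → F) (nu : Z →* ℂ) (z : Z) : ℂ :=
  ((Nat.card V : ℂ) / Nat.card Z) * cz V Z γ (z : G) * nu z

/-- The local property: for every primitive idempotent `i` of `A ^ P` under `e` which does not
vanish on `C(P)` there is a conjugate of `V` which contains `P`, such that for `u ∈ P` in the conjugate of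
`Z` the idempotent `br_u(i)` is under the conjugate of the local block, and for the other `u ∈ P` it
is orthogonal to all the blocks which are conjugate to local blocks. -/
def Lo (ℓ : ℕ) (e : G → FF M) (V Z : Subgroup G) (b : G → G → FF M) : Prop :=
  ∀ P : Subgroup G, IsPGroup ℓ P → ∀ i : G → FF M, Pm P i → mulF e i = i → br P i ≠ 0 →
    ∃ g : G, P ≤ conjS g V ∧
      (∀ u ∈ P, u ∈ conjS g Z →
        mulF (rs (Cu u) i) (cj g (b (g⁻¹ * u * g))) = rs (Cu u) i) ∧
      ∀ u ∈ P, u ∉ conjS g Z → ∀ z ∈ Z, ∀ q : G, q * z * q⁻¹ = u →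
        mulF (rs (Cu u) i) (cj q (b z)) = 0

end defs

end Pool.Agent.PP.T10
end
end -- Pool.Agent.AT10.Defs

section -- Pool.Agent.AT10.Stmts1

/-!
# Squad AT10, part 1: idempotents

`A = F G`, `G` acts by conjugation.  `rs C a` is the restriction of `a` to the subgroup `C`, `rd M i`
the reduction of `i : G → ℂ`, `Ip M V i`: `i` is an idempotent over the local ring which commutes
with `V`, `fv i u χ = χ(u i)`, `pw x n` the powers in the group ring, `cj g a` the conjugate of `a`.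
Complete proofs in the docstrings; all rows are independent (a row may take the rows which it uses as
hypotheses, also rows of T8 / AT8).  `rs (Cu u)` is multiplicative on the elements of `F G` which
commute with the `ℓ`-element `u` (`H75.br_mulF` for the group generated by `u`).
-/

open scoped BigOperators

noncomputable section

namespace Pool.Agent.PP.T10

open Pool.Agent.Helper51_AWC Pool.Agent.Helper79_WRA Pool.Agent.PP Pool.Agent.PP.KF
open Pool.Agent.PP.K9 Pool.Agent.PP.K9.H97 Pool.Agent.PP.H75 Pool.Agent.PP.T3 Pool.Agent.PP.T2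
open Pool.Agent.PP.T5 Pool.Agent.PP.TB
open Pool.Agent.PP.T8 (rs pw fv rd Ip Rv)

attribute [local instance] Ideal.Quotient.field

/-! ## 1. Lifts -/

/-- LF2: idempotents can be lifted under a given idempotent.

Proof.  As `T8.LftStmt` (`Helper27_AT8/LFT.lean`, lemmas `gen`, `cop`, `ev_idem`, `splits`,
`poly_inv`).  If `i = 1` this is LFT.  Let `i ≠ 1`, `x'` a lift of `x` with values in `RM M`,
vanishing outside `C`, invariant under `V` (as in LFT), `x'' = i x' i`; its reduction is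
`(rd i) x (rd i) = x`.  With `L` the matrix of `y ↦ x'' y` on `ℂ ^ G`, and `P`, `Q`, `A` as in LFT,
`i₁ = (A P)(x'')` is an idempotent over `x` which vanishes outside `C` and is invariant under `V`.
`x'' (1 - i) = 0` and `1 - i ≠ 0`, so `0` is an eigenvalue of `L` and `P(0) = 0`, so
`i₁ = x'' h(x'') = h(x'') x''` for a polynomial `h`, so `i i₁ = i₁ = i₁ i`. -/
def Lf2Stmt : Prop := ∀ (M : Ideal (integralClosure ℤ ℂ)) [M.IsMaximal] (G : Type) [Group G]
  [Finite G] (V C : Subgroup G) (i : G → ℂ), Ip M V i → (∀ g, g ∉ C → i g = 0) →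
  ∀ x : G → FF M, mulF x x = x → (∀ g, g ∉ C → x g = 0) →
  (∀ v ∈ V, ∀ g, x (v * g * v⁻¹) = x g) → mulF (rd M i) x = x → mulF x (rd M i) = x →
  ∃ i₁ : G → ℂ, Ip M V i₁ ∧ (∀ g, g ∉ C → i₁ g = 0) ∧ rd M i₁ = x ∧ mulF i i₁ = i₁ ∧
    mulF i₁ i = i₁

/-- TVS: the values `tv` are well defined.

Proof.  (i) `T8.LftStmt` with `V = ⊥`, `C = C(u)`; an element supported on `C(u)` commutes with `u`,
and `rs (Cu u) (rd M i) = rd M i = j`.  (ii) Let `i`, `i'` be two lifts (`Il M u j`).  `j` is supported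
on `C(u)` and it is an idempotent (`rs (Cu u)` is multiplicative on the elements which commute with
`u`), so by (i) there is a lift `j'` supported on `C(u)`.  `T8.SmiStmt` for `i`, `j'` and for `i'`, `j'`:
`fv i u th = fv j' u th = fv i' u th`.  (iii) `Il M u 0 0` and (ii). -/
def TvsStmt : Prop := ∀ (ℓ : ℕ) [Fact ℓ.Prime] (M : Ideal (integralClosure ℤ ℂ)) [M.IsMaximal],
  (ℓ : integralClosure ℤ ℂ) ∈ M → ∀ (G : Type) [Group G] [Finite G] (u : G), El ℓ u →
  (∀ j : G → FF M, mulF j j = j → (∀ g, g ∉ Cu u → j g = 0) →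
    ∃ i, Il M u j i ∧ ∀ g, g ∉ Cu u → i g = 0) ∧
  (∀ (j : G → FF M) (i : G → ℂ), Il M u j i → ∀ th : G → ℂ, (∀ x y, th (y * x * y⁻¹) = th x) →
    tv M u j th = fv i u th) ∧
  ∀ th : G → ℂ, (∀ x y, th (y * x * y⁻¹) = th x) → tv M u 0 th = 0

/-- TVA: additivity.

Proof.  `j = j₁ + j₂` is an idempotent supported on `C(u)`; let `i` be a lift supported on `C(u)`
(TVS (i)).  LF2 (`V = ⊥`, `C = C(u)`, `x = j₁`; `j j₁ = j₁ = j₁ j`): `i₁` with `i i₁ = i₁ = i₁ i`.
`i₂ = i - i₁` is an idempotent with reduction `j₂`.  All are supported on `C(u)`, so they commute with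
`u`.  `fv` is additive in the first argument; TVS (ii). -/
def TvaStmt : Prop := ∀ (ℓ : ℕ) [Fact ℓ.Prime] (M : Ideal (integralClosure ℤ ℂ)) [M.IsMaximal],
  (ℓ : integralClosure ℤ ℂ) ∈ M → ∀ (G : Type) [Group G] [Finite G] (u : G), El ℓ u →
  ∀ j₁ j₂ : G → FF M, mulF j₁ j₁ = j₁ → mulF j₂ j₂ = j₂ → mulF j₁ j₂ = 0 → mulF j₂ j₁ = 0 →
  (∀ g, g ∉ Cu u → j₁ g = 0) → (∀ g, g ∉ Cu u → j₂ g = 0) →
  ∀ th : G → ℂ, (∀ x y, th (y * x * y⁻¹) = th x) →
    tv M u (j₁ + j₂) th = tv M u j₁ th + tv M u j₂ th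

/-- TVC: conjugation.

Proof.  If `i` is a lift of `j` (TVS (i)) then `cj g i` is a lift of `cj g j` for `g u g⁻¹`
(`C(g u g⁻¹) = g C(u) g⁻¹`), and `fv (cj g i) (g u g⁻¹) th = ∑_x i(g⁻¹ x g) th(g u g⁻¹ x) =
∑_y i(y) th(g u y g⁻¹) = fv i u th`.  TVS (ii) twice. -/
def TvcStmt : Prop := ∀ (ℓ : ℕ) [Fact ℓ.Prime] (M : Ideal (integralClosure ℤ ℂ)) [M.IsMaximal],
  (ℓ : integralClosure ℤ ℂ) ∈ M → ∀ (G : Type) [Group G] [Finite G] (u g : G), El ℓ u →
  ∀ j : G → FF M, mulF j j = j → (∀ x, x ∉ Cu u → j x = 0) →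
  ∀ th : G → ℂ, (∀ x y, th (y * x * y⁻¹) = th x) →
    tv M (g * u * g⁻¹) (cj g j) th = tv M u j th

/-- FCZ: `u ↦ χ(u i)` is a virtual character of `P`.

Proof.  Let `ρ` afford `χ`.  `p = ∑ i(g) ρ(g)` is an idempotent matrix which commutes with the `ρ(u)`,
`u ∈ P`, and `fv i u χ = tr(ρ(u) p)`.  For `κ ∈ Irr P`, afforded by `σ`, the matrix
`q = |P|⁻¹ ∑_u ρ(u) ⊗ σ(u⁻¹)ᵀ` is an idempotent which commutes with `p ⊗ 1`, so
`|P|⁻¹ ∑_u fv i u χ κ(u⁻¹) = tr(q (p ⊗ 1))` is the trace of an idempotent matrix, a natural number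
(compare `T8.FchStmt`, `Helper53_AT8/FCH.lean`).  `u ↦ fv i u χ` is a class function of `P` (`i`
commutes with `P`), so it is the combination of the `κ ∈ Irr P` with these coefficients.  (Or: it is
the character of the representation of `P` on the image of `p`, and such characters are in `ZI`,
`Helper32_AT5/ZIM.lean`.) -/
def FczStmt : Prop := ∀ (M : Ideal (integralClosure ℤ ℂ)) [M.IsMaximal] (G : Type) [Group G]
  [Finite G] (P : Subgroup G) (i : G → ℂ), Ip M P i → ∀ χ ∈ Irr G,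
    (fun u : P => fv i (u : G) χ) ∈ ZI P

/-! ## 2. Primitive idempotents -/

/-- PDC: decomposition into primitive idempotents.

Proof.  Strong induction on the dimension of `i A` (the range of `y ↦ i y` on the functions
`G → F`).  `i = 0`: `n = 0`.  If `i` is primitive: `n = 1`.  Otherwise there is an idempotent
`P`-invariant `j ≠ 0, i` with `i j = j = j i`; `i A = j A ⊕ (i - j) A`, both summands are not `0`
(they contain `j` and `i - j`), and `i - j` is an idempotent; take the decompositions of `j` and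
`i - j` together (`k a = j (k a) = (k a) j` for the parts of `j`, and similarly for `i - j`, as
`k a = (∑ k b) k a`, so the parts are orthogonal). -/
def PdcStmt : Prop := ∀ (F : Type) [Field F] (G : Type) [Group G] [Finite G] (P : Subgroup G)
  (i : G → F), mulF i i = i → (∀ v ∈ P, ∀ x, i (v * x * v⁻¹) = i x) →
  ∃ (n : ℕ) (k : Fin n → G → F), (∀ a, Pm P (k a)) ∧
    (∀ a b, a ≠ b → mulF (k a) (k b) = 0) ∧ ∑ a, k a = i

/-- IDL: the algebra `i A ^ P i` is local for a primitive idempotent `i` of `A ^ P`.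

Proof.  `T8.IdpStmt`: `pw x n` is an idempotent for some `n > 0`; it is `P`-invariant and
`i (pw x n) = pw x n = (pw x n) i`, so it is `0` or `i`.  In the second case
`y = i (pw x (n - 1)) i` satisfies `x y = i = y x` (powers of `x` commute). -/
def IdlStmt : Prop := ∀ (ℓ : ℕ) (F : Type) [Field F], GoodF ℓ F → ∀ (G : Type) [Group G] [Finite G]
  (P : Subgroup G) (i : G → F), Pm P i → ∀ x : G → F, (∀ v ∈ P, ∀ g, x (v * g * v⁻¹) = x g) →
  mulF i x = x → mulF x i = x → (∃ n : ℕ, 0 < n ∧ pw x n = 0) ∨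
    ∃ y : G → F, (∀ v ∈ P, ∀ g, y (v * g * v⁻¹) = y g) ∧ mulF i y = y ∧ mulF y i = y ∧
      mulF x y = i ∧ mulF y x = i

/-- RTR: an element of `A ^ P` which vanishes on `C(P)` is a sum of traces from subgroups of index
`ℓ`.

Proof.  For `g ∈ G` not in `C(P)` the group `P ∩ C(g)` is a proper subgroup of the `ℓ`-group `P`, so
it is contained in a subgroup of index `ℓ` of `P`, which is normal in `P`.  Choose such a subgroup
`Q(g)` depending only on the `P`-orbit of `g` (`P ∩ C(v g v⁻¹) = v (P ∩ C(g)) v⁻¹ ≤ Q(g)`).  The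
subgroups `Q` of index `ℓ` are finite in number: `Q k`, `k : Fin m`; `u k ∈ P` not in `Q k`; the powers
`1, u, ..., u ^ (ℓ-1)` represent `P/Q`.  Let `Ω_k` be the set of the `g` with `Q(g) = Q k`, a union of
`P`-orbits.  `u = u k` permutes the `Q k`-orbits on `Ω_k`; if `u ^ j g u ^ (-j) = v g v⁻¹` with
`v ∈ Q k` then `v⁻¹ u ^ j ∈ P ∩ C(g) ≤ Q k`, so `ℓ ∣ j`: the `ℓ` orbits of the
`u ^ j g u ^ (-j)`, `j < ℓ`, are different.  Choose one `Q k`-orbit in each `P`-orbit of `Ω_k` and let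
`a k` be `x` on the chosen orbits and `0` elsewhere.  For `g ∈ Ω_k` exactly one of the numbers
`a k (u ^ (-j) g u ^ j)`, `j < ℓ`, comes from a chosen orbit, and it is `x(g)` (`x` is
`P`-invariant).  So `∑_j cj (u ^ j) (a k)` is `x` on `Ω_k` and `0` elsewhere; the sum over `k` is
`x`. -/
def RtrStmt : Prop := ∀ (ℓ : ℕ) [Fact ℓ.Prime] (F : Type) [Field F] (G : Type) [Group G] [Finite G]
  (P : Subgroup G), IsPGroup ℓ P → ∀ x : G → F, (∀ v ∈ P, ∀ g, x (v * g * v⁻¹) = x g) →
  (∀ g ∈ Subgroup.centralizer (P : Set G), x g = 0) →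
  ∃ (m : ℕ) (Q : Fin m → Subgroup G) (u : Fin m → G) (a : Fin m → G → F),
    (∀ k, Q k ≤ P ∧ (Q k).relIndex P = ℓ ∧ u k ∈ P ∧ u k ∉ Q k ∧
      ∀ v ∈ Q k, ∀ g, a k (v * g * v⁻¹) = a k g) ∧
    x = ∑ k, ∑ j ∈ Finset.range ℓ, cj (u k ^ j) (a k)

/-- ROS: a primitive idempotent of `A ^ P` which vanishes on `C(P)` is a trace.

Proof.  RTR for `x = i`: `i = ∑_k X'_k`, `X'_k = ∑_j cj (u k ^ j) (a k)`.  The `X'_k` are `P`-invariant
(`Q k` is normal in `P`, of index `ℓ`, and `cj (u k ^ ℓ) (a k) = a k` as `u k ^ ℓ ∈ Q k`).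
`i = i i i = ∑_k X_k`, `X_k = i X'_k i = ∑_j cj (u k ^ j) (i (a k) i)`, `X_k ∈ B = i A ^ P i`.
By IDL every element of `B` is nilpotent or invertible in `B` (with the unit `i`).  If `x, y ∈ B` and
`x + y` is invertible, with inverse `w`, then `x` or `y` is invertible: if `w x` is invertible then
`x` is (an element with a left inverse is not nilpotent unless `i = 0`: if `w' x = i` and `x` were
nilpotent, `x ^ n = 0`, then `i = w' ^ n x ^ n = 0`); otherwise `w x` is nilpotent and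
`w y = i - w x` is invertible.  So by induction some `X_k` is invertible, `X_k w = i`, `w ∈ B`.
`a = i (a k) i w`: since `w` is `P`-invariant, `∑_j cj (u k ^ j) a = X_k w = i`. -/
def RosStmt : Prop := ∀ (ℓ : ℕ) [Fact ℓ.Prime] (F : Type) [Field F], GoodF ℓ F → ∀ (G : Type)
  [Group G] [Finite G] (P : Subgroup G), IsPGroup ℓ P → ∀ i : G → F, Pm P i → br P i = 0 →
    ∃ (Q : Subgroup G) (u : G) (a : G → F), Tq ℓ P Q u a i

/-- GRN: Green's theorem with the polynomial `T ^ q - T`.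

Proof.  `Q` is normal in `P` (index `ℓ`).  Let `α = cj u`, an automorphism of `A` which preserves
`A ^ Q`, and `α ^ ℓ` is the identity on `A ^ Q` (`u ^ ℓ ∈ Q`); `α(i) = i`.  `B = i A ^ Q i`, with the
unit `i`.  `x = - ∑_{k < ℓ} k α ^ k(a) ∈ B`: `α(x) = - ∑_k k α ^ (k+1)(a) = - ∑_k (k - 1) α ^ k(a) =
x + i` (`ℓ = 0` in `F`).  The values of `x` lie in a finite subfield of `F` (`GoodF.tors`, see
`Helper25_AT8/IDP.lean`), so `pw x (ℓ ^ n) = pw x (ℓ ^ (n + m))` for some `n ≥ 0`, `m > 0`; let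
`y = pw x (ℓ ^ n)` (for `n = 0`: `y = x`; `y ∈ B`), `q = ℓ ^ m`: `y ^ q = y`.  `α(y) =
(x + i) ^ (ℓ ^ n) = x ^ (ℓ ^ n) + i = y + i` (`x i = i x`, characteristic `ℓ`).  For `β ∈ F` with
`β ^ q = β` let `w = y - β i`; `w ^ q = y ^ q - β ^ q i = w`.  `j_β = i - w ^ (q-1)` (power in `B`):
`w ^ (2 q - 2) = w ^ (q - 1)` (`q ≥ 2`), so `j_β` is an idempotent of `B`, and `w j_β = 0`, i.e.
`y j_β = β j_β = j_β y`; so `j_β j_γ = 0` for `β ≠ γ` (`β j_β j_γ = y j_β j_γ = γ j_β j_γ`).  Not all the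
`j_β` are `0`: otherwise all `y - β i`, `β ^ q = β`, are invertible in `B`, but their product is
`y ^ q - y = 0` (`T ^ q - T = ∏ (T - β)` over the `q` roots `β` in the algebraically closed field
`F`).  `α(j_β) = i - (y + i - β i) ^ (q-1) = j_(β-1)`.  Let `j_β ≠ 0`, `j = j_β`: the `ℓ` idempotents
`α ^ k(j) = j_(β-k)`, `k < ℓ`, are orthogonal (`β - k` are different; `(β - k) ^ q = β - k`), and
their sum `J` is an idempotent of `B` invariant under `α` (`j_(β-ℓ) = j_β`), so it is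
`P`-invariant (`P` is generated by `Q` and `u`), `J ≠ 0` as `J j = j`.  So `J = i` (`Pm.pr`). -/
def GrnStmt : Prop := ∀ (ℓ : ℕ) [Fact ℓ.Prime] (F : Type) [Field F], GoodF ℓ F → ∀ (G : Type)
  [Group G] [Finite G] (P : Subgroup G), IsPGroup ℓ P → ∀ i : G → F, Pm P i →
  ∀ (Q : Subgroup G) (u : G) (a : G → F), Tq ℓ P Q u a i →
    ∃ j : G → F, Tq ℓ P Q u j i ∧ mulF j j = j ∧ ∀ k m : ℕ, k < ℓ → m < ℓ → k ≠ m →
      mulF (cj (u ^ k) j) (cj (u ^ m) j) = 0

/-! ## 3. The coherence theorem -/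

/-- FIA: additivity in `i`.

Proof.  `rs (Cu u)` is additive, and multiplicative on the elements which commute with `u`, so
`rs i₁`, `rs i₂` are orthogonal idempotents of `F C(u)`; multiplied with the central idempotent
`β k u` of `F C(u)` they are orthogonal idempotents supported on `C(u)`.  TVA for every `k`, and
`finsum` over a finite type is additive. -/
def FiaStmt : Prop := ∀ (ℓ : ℕ) [Fact ℓ.Prime] (M : Ideal (integralClosure ℤ ℂ)) [M.IsMaximal],
  (ℓ : integralClosure ℤ ℂ) ∈ M → ∀ (G : Type) [Group G] [Finite G] (ι : Type) [Finite ι]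
  (c : ι → ℂ) (β : ι → G → G → FF M), Ef M β → ∀ χ ∈ Irr G, ∀ u : G, El ℓ u →
  ∀ i₁ i₂ : G → FF M, mulF i₁ i₁ = i₁ → mulF i₂ i₂ = i₂ → mulF i₁ i₂ = 0 → mulF i₂ i₁ = 0 →
  (∀ x, i₁ (u * x * u⁻¹) = i₁ x) → (∀ x, i₂ (u * x * u⁻¹) = i₂ x) →
    fi M c β (i₁ + i₂) χ u = fi M c β i₁ χ u + fi M c β i₂ χ u

/-- FIC: conjugation.

Proof.  `rs (Cu (g u g⁻¹)) (cj g i) = cj g (rs (Cu u) i)`, `β k (g u g⁻¹) = cj g (β k u)`, `cj g` is
multiplicative (`cj_mulF`), and `(rs i) (β k u)` is an idempotent supported on `C(u)` (`β k u` is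
central in `F C(u)`); TVC. -/
def FicStmt : Prop := ∀ (ℓ : ℕ) [Fact ℓ.Prime] (M : Ideal (integralClosure ℤ ℂ)) [M.IsMaximal],
  (ℓ : integralClosure ℤ ℂ) ∈ M → ∀ (G : Type) [Group G] [Finite G] (ι : Type) [Finite ι]
  (c : ι → ℂ) (β : ι → G → G → FF M), Ef M β → ∀ χ ∈ Irr G, ∀ u g : G, El ℓ u →
  ∀ i : G → FF M, mulF i i = i → (∀ x, i (u * x * u⁻¹) = i x) →
    fi M c β (cj g i) χ (g * u * g⁻¹) = fi M c β i χ u

/-- GRI: the induction step of Green's theorem.

Proof.  Let `κ ∈ ZI P`.  For `v ∈ P` not in `Q`: `Q v` generates `P/Q`, so `v` and `u` generate the same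
group modulo `Q`, and `i = ∑_{k < ℓ} cj (v ^ k) j` (the cosets `u ^ k Q` and `v ^ k Q` are the same
set, `j` is `Q`-invariant).  For `g ∈ C(v)`: `i(g) = ∑_k j(v ^ (-k) g v ^ k) = ℓ j(g) = 0`, so
`rs (Cu v) i = 0` and `fi i v = 0` (TVS (iii), `mulF 0 _ = 0`).  For `v ∈ Q`, the `cj (u ^ k) j` are
orthogonal idempotents invariant under `Q` (normal in `P`), so by FIA (iterated; `fi 0 v = 0`) and FIC
`fi i v = ∑_{k < ℓ} fi (cj (u ^ k) j) v = ∑_k fi j (u ^ (-k) v u ^ k)`.  Since `κ(u ^ (-k) v u ^ k) =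
κ(v)` (elements of `ZI P` are class functions) and `v ↦ u ^ (-k) v u ^ k` is a bijection of `Q`,
`∑_{v ∈ P} fi i v κ(v) = ℓ ∑_{v ∈ Q} fi j v κ(v)`, and `|P| = ℓ |Q|`; the restriction of `κ` to `Q` is
in `ZI Q` (restrictions of irreducible characters are characters, `Helper32_AT5/ZIM.lean`). -/
def GriStmt : Prop := ∀ (ℓ : ℕ) [Fact ℓ.Prime] (M : Ideal (integralClosure ℤ ℂ)) [M.IsMaximal],
  (ℓ : integralClosure ℤ ℂ) ∈ M → ∀ (G : Type) [Group G] [Finite G] (ι : Type) [Finite ι]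
  (c : ι → ℂ) (β : ι → G → G → FF M), Ef M β → ∀ χ ∈ Irr G,
  ∀ (P Q : Subgroup G) (u : G) (j i : G → FF M), IsPGroup ℓ P →
  (∀ v ∈ P, ∀ x, i (v * x * v⁻¹) = i x) → Tq ℓ P Q u j i → mulF j j = j →
  (∀ k m : ℕ, k < ℓ → m < ℓ → k ≠ m → mulF (cj (u ^ k) j) (cj (u ^ m) j) = 0) →
  Cf M Q (fi M c β j χ) → Cf M P (fi M c β i χ)

/-- CHT: the coherence theorem: it is enough to consider the primitive idempotents which do not
vanish on `C(P)`.

Proof.  Strong induction on `|P|`.  Let `i` be a `P`-invariant idempotent, `i = ∑_a k a` as in PDC.  By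
FIA (iterated) `fi i = ∑_a fi (k a)` on `P`, so it is enough to prove `Cf` for `k a`
(`Cf` is closed under sums).  If `br P (k a) ≠ 0` this is the hypothesis.  Otherwise ROS, GRN:
`Tq ℓ P Q u j (k a)`, `|Q| < |P|`, `Q` is an `ℓ`-group, `j` is a `Q`-invariant idempotent, so
`Cf M Q (fi j)` by induction, and GRI. -/
def ChtStmt : Prop := ∀ (ℓ : ℕ) [Fact ℓ.Prime] (M : Ideal (integralClosure ℤ ℂ)) [M.IsMaximal],
  (ℓ : integralClosure ℤ ℂ) ∈ M → ∀ (G : Type) [Group G] [Finite G] (ι : Type) [Finite ι]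
  (c : ι → ℂ) (β : ι → G → G → FF M), Ef M β → ∀ χ ∈ Irr G,
  (∀ P : Subgroup G, IsPGroup ℓ P → ∀ i : G → FF M, Pm P i → br P i ≠ 0 →
    Cf M P (fi M c β i χ)) → Hc M ℓ c β χ

end Pool.Agent.PP.T10
end
end -- Pool.Agent.AT10.Stmts1

section -- Pool.Agent.Helper86_AT10.PDC

/-!
# Squad AT10, row PDC: decomposition into primitive idempotents
-/

open scoped BigOperators

noncomputable section

namespace Pool.Agent.PP.T10.H86

open Pool.Agent.Helper51_AWC Pool.Agent.Helper79_WRA Pool.Agent.PP Pool.Agent.PP.KF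
open Pool.Agent.PP.K9 Pool.Agent.PP.K9.H97 Pool.Agent.PP.H75 Pool.Agent.PP.T3 Pool.Agent.PP.T2

section ring

variable {F A : Type} [Field F] [Ring A] [Algebra F A] [FiniteDimensional F A]

theorem dim_lt {i j : A} (hi : i * i = i) (hj : j * j = j) (h1 : i * j = j) (h2 : j * i = j)
    (hne : j ≠ i) : Module.finrank F (LinearMap.range (LinearMap.mulLeft F j)) <
      Module.finrank F (LinearMap.range (LinearMap.mulLeft F i)) := by
  apply Submodule.finrank_lt_finrank_of_lt
  refine lt_of_le_of_ne ?_ ?_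
  · rintro _ ⟨y, rfl⟩
    refine ⟨j * y, ?_⟩
    rw [LinearMap.mulLeft_apply, LinearMap.mulLeft_apply, ← mul_assoc, h1]
  · intro h
    have h3 : i ∈ LinearMap.range (LinearMap.mulLeft F j) := by
      rw [h]
      exact ⟨i, by rw [LinearMap.mulLeft_apply, hi]⟩
    obtain ⟨y, hy⟩ := h3
    rw [LinearMap.mulLeft_apply] at hy
    apply hne
    calc j = j * i := h2.symm
      _ = j * (j * y) := by rw [hy]
      _ = (j * j) * y := (mul_assoc _ _ _).symm
      _ = j * y := by rw [hj]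
      _ = i := hy

omit [FiniteDimensional F A] in
theorem mul_sum_self {m : ℕ} {k : Fin m → A} (hk : ∀ a, k a * k a = k a)
    (ho : ∀ a b, a ≠ b → k a * k b = 0) (a : Fin m) :
    k a * (∑ b, k b) = k a ∧ (∑ b, k b) * k a = k a := by
  constructor
  · rw [Finset.mul_sum, Finset.sum_eq_single a (fun b _ hb => ho a b (Ne.symm hb))
      (fun h => absurd (Finset.mem_univ _) h), hk]
  · rw [Finset.sum_mul, Finset.sum_eq_single a (fun b _ hb => ho b a hb)
      (fun h => absurd (Finset.mem_univ _) h), hk]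

/-- decomposition in a ring -/
theorem decomp (S : AddSubgroup A) : ∀ (n : ℕ) (i : A),
    Module.finrank F (LinearMap.range (LinearMap.mulLeft F i)) = n → i * i = i → i ∈ S →
    ∃ (m : ℕ) (k : Fin m → A), (∀ a, k a * k a = k a ∧ k a ∈ S ∧ k a ≠ 0 ∧
      ∀ j ∈ S, j * j = j → k a * j = j → j * k a = j → j = 0 ∨ j = k a) ∧
      (∀ a b, a ≠ b → k a * k b = 0) ∧ ∑ a, k a = i := by
  intro n
  induction n using Nat.strong_induction_on with
  | _ n ih =>
    intro i hn hi hiS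
    by_cases h0 : i = 0
    · refine ⟨0, Fin.elim0, fun a => a.elim0, fun a => a.elim0, ?_⟩
      rw [Finset.univ_eq_empty, Finset.sum_empty, h0]
    by_cases hp : ∀ j ∈ S, j * j = j → i * j = j → j * i = j → j = 0 ∨ j = i
    · refine ⟨1, fun _ => i, fun _ => ⟨hi, hiS, h0, hp⟩, ?_, ?_⟩
      · intro a b hab
        exact absurd (Subsingleton.elim a b) hab
      · rw [Fin.sum_univ_one]
    · push Not at hp
      obtain ⟨j, hjS, hj, h1, h2, hj0, hji⟩ := hp
      have hd : (i - j) * (i - j) = i - j := by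
        rw [sub_mul, mul_sub, mul_sub, hi, h1, h2, hj]
        abel
      have hd1 : i * (i - j) = i - j := by rw [mul_sub, hi, h1]
      have hd2 : (i - j) * i = i - j := by rw [sub_mul, hi, h2]
      have hdne : i - j ≠ i := by
        intro h
        apply hj0
        have h3 : i - j - i = 0 := by rw [h, sub_self]
        have h4 : -j = 0 := by rw [← h3]; abel
        exact neg_eq_zero.1 h4
      obtain ⟨m₁, k₁, hk₁, ho₁, hs₁⟩ := ih _ (by rw [← hn]; exact dim_lt (F := F) hi hj h1 h2 hji)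
        j rfl hj hjS
      obtain ⟨m₂, k₂, hk₂, ho₂, hs₂⟩ := ih _ (by
        rw [← hn]; exact dim_lt (F := F) hi hd hd1 hd2 hdne) (i - j) rfl hd (S.sub_mem hiS hjS)
      have hj1 : j * (i - j) = 0 := by rw [mul_sub, h2, hj, sub_self]
      have hj2 : (i - j) * j = 0 := by rw [sub_mul, h1, hj, sub_self]
      have e1 : ∀ a b, k₁ a * k₂ b = 0 := by
        intro a b
        have e2 := (mul_sum_self (fun a => (hk₁ a).1) ho₁ a).1
        have e3 := (mul_sum_self (fun a => (hk₂ a).1) ho₂ b).2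
        rw [hs₁] at e2
        rw [hs₂] at e3
        rw [← e2, ← e3]
        calc k₁ a * j * ((i - j) * k₂ b) = k₁ a * (j * (i - j)) * k₂ b := by noncomm_ring
          _ = 0 := by rw [hj1, mul_zero, zero_mul]
      have e4 : ∀ a b, k₂ b * k₁ a = 0 := by
        intro a b
        have e2 := (mul_sum_self (fun a => (hk₁ a).1) ho₁ a).2
        have e3 := (mul_sum_self (fun a => (hk₂ a).1) ho₂ b).1
        rw [hs₁] at e2
        rw [hs₂] at e3
        rw [← e2, ← e3]
        calc k₂ b * (i - j) * (j * k₁ a) = k₂ b * ((i - j) * j) * k₁ a := by noncomm_ring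
          _ = 0 := by rw [hj2, mul_zero, zero_mul]
      refine ⟨m₁ + m₂, Fin.append k₁ k₂, ?_, ?_, ?_⟩
      · intro a
        induction a using Fin.addCases with
        | left a =>
          rw [Fin.append_left]
          exact hk₁ a
        | right a =>
          rw [Fin.append_right]
          exact hk₂ a
      · intro a b
        induction a using Fin.addCases with
        | left a =>
          induction b using Fin.addCases with
          | left b =>
            intro hab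
            rw [Fin.append_left, Fin.append_left]
            exact ho₁ a b (fun h => hab (by rw [h]))
          | right b =>
            intro _
            rw [Fin.append_left, Fin.append_right]
            exact e1 a b
        | right a =>
          induction b using Fin.addCases with
          | left b =>
            intro _
            rw [Fin.append_left, Fin.append_right]
            exact e4 b a
          | right b =>
            intro hab
            rw [Fin.append_right, Fin.append_right]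
            exact ho₂ a b (fun h => hab (by rw [h]))
      · rw [Fin.sum_univ_add]
        simp only [Fin.append_left, Fin.append_right]
        rw [hs₁, hs₂]
        abel

end ring

theorem pdc : PdcStmt := by
  intro F _ G _ _ P i hi hiP
  have hfd : FiniteDimensional F (MonoidAlgebra F G) :=
    Module.Finite.equiv (maL : (G → F) ≃ₗ[F] MonoidAlgebra F G)
  let S : AddSubgroup (MonoidAlgebra F G) :=
    { carrier := {x | ∃ f : G → F, (∀ v ∈ P, ∀ x, f (v * x * v⁻¹) = f x) ∧ ma f = x}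
      add_mem' := by
        rintro _ _ ⟨f, hf, rfl⟩ ⟨g, hg, rfl⟩
        exact ⟨f + g, fun v hv x => by rw [Pi.add_apply, Pi.add_apply, hf v hv, hg v hv],
          ma_add f g⟩
      zero_mem' := ⟨0, fun _ _ _ => rfl, ma_zero⟩
      neg_mem' := by
        rintro _ ⟨f, hf, rfl⟩
        exact ⟨-f, fun v hv x => by rw [Pi.neg_apply, Pi.neg_apply, hf v hv], map_neg maL f⟩ }
  obtain ⟨m, k, hk, ho, hs⟩ := decomp (F := F) S _ (ma i) rfl (by rw [← ma_mul, hi])
    ⟨i, hiP, rfl⟩
  obtain ⟨f, hf⟩ : ∃ f : Fin m → G → F, ∀ a, (∀ v ∈ P, ∀ x, f a (v * x * v⁻¹) = f a x) ∧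
      ma (f a) = k a := by
    choose f hf using fun a => (hk a).2.1
    exact ⟨f, hf⟩
  refine ⟨m, f, ?_, ?_, ?_⟩
  · intro a
    obtain ⟨h1, -, h3, h4⟩ := hk a
    rw [← (hf a).2] at h1 h3 h4
    refine ⟨?_, (hf a).1, ?_, ?_⟩
    · apply ma_injective
      rw [ma_mul, h1]
    · rintro h
      apply h3
      rw [h, ma_zero]
    · intro j hj hjP hj1 hj2
      rcases h4 (ma j) ⟨j, hjP, rfl⟩ (by rw [← ma_mul, hj]) (by rw [← ma_mul, hj1])
        (by rw [← ma_mul, hj2]) with h | h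
      · left
        apply ma_injective
        rw [h, ma_zero]
      · right
        exact ma_injective h
  · intro a b hab
    apply ma_injective
    rw [ma_mul, (hf a).2, (hf b).2, ho a b hab, ma_zero]
  · apply ma_injective
    rw [ma_sum, ← hs]
    exact Finset.sum_congr rfl fun a _ => (hf a).2

end Pool.Agent.PP.T10.H86
end
end -- Pool.Agent.Helper86_AT10.PDC

section -- Pool.Agent.Helper86_AT10.RTR

/-!
# Squad AT10, row RTR: functions which vanish on the centraliser are sums of traces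
-/

open scoped BigOperators

noncomputable section

namespace Pool.Agent.PP.T10.H86

open Pool.Agent.Helper51_AWC Pool.Agent.Helper79_WRA Pool.Agent.PP Pool.Agent.PP.KF
open Pool.Agent.PP.K9 Pool.Agent.PP.K9.H97 Pool.Agent.PP.H75 Pool.Agent.PP.T3 Pool.Agent.PP.T2

/-- a proper subgroup of a group of prime power order is contained in a normal subgroup of index
`ℓ` -/
theorem exists_index (ℓ : ℕ) [hℓ : Fact ℓ.Prime] (P : Type) [Group P] [Finite P]
    (hP : IsPGroup ℓ P) (R : Subgroup P) (hR : R ≠ ⊤) :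
    ∃ Q : Subgroup P, R ≤ Q ∧ Q.index = ℓ ∧ Q.Normal := by
  obtain ⟨n, hn⟩ := IsPGroup.iff_card.1 hP
  obtain ⟨k, hk⟩ := IsPGroup.iff_card.1 (hP.to_subgroup R)
  have hkn : k < n := by
    have h1 : Nat.card R < Nat.card P := by
      refine lt_of_le_of_ne (Subgroup.card_le_card_group R) ?_
      intro h
      exact hR (Subgroup.eq_top_of_card_eq R h)
    rw [hn, hk] at h1
    exact (Nat.pow_lt_pow_iff_right hℓ.out.one_lt).1 h1
  obtain ⟨m, rfl⟩ : ∃ m, n = m + 1 := ⟨n - 1, by omega⟩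
  obtain ⟨Q, hQ, hRQ⟩ := Sylow.exists_subgroup_card_pow_prime_le (G := P) ℓ (n := k) (m := m)
    (by rw [hn]; exact pow_dvd_pow ℓ (by omega)) R hk (by omega)
  have hidx : Q.index = ℓ := by
    have h1 := Q.card_mul_index
    rw [hQ, hn, pow_succ] at h1
    exact Nat.eq_of_mul_eq_mul_left (pow_pos hℓ.out.pos m) h1
  refine ⟨Q, hRQ, hidx, ?_⟩
  apply Subgroup.normal_of_index_eq_minFac_card
  rw [hidx, hn, Nat.Prime.pow_minFac hℓ.out (by omega)]

section one

variable {F : Type} [Field F] {G : Type} [Group G] [Finite G]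

/-- the indicator function of an orbit is a trace -/
theorem one_orbit (ℓ : ℕ) [hℓ : Fact ℓ.Prime] (P : Subgroup G) (hP : IsPGroup ℓ P) (g₀ : G)
    (hg₀ : g₀ ∉ Subgroup.centralizer (P : Set G)) (c : F) :
    ∃ (Q : Subgroup G) (u : G) (a : G → F), (Q ≤ P ∧ Q.relIndex P = ℓ ∧ u ∈ P ∧ u ∉ Q ∧
      ∀ v ∈ Q, ∀ g, a (v * g * v⁻¹) = a g) ∧
      ∀ g, (∑ j ∈ Finset.range ℓ, cj (u ^ j) a) g =
        open Classical in if ∃ v ∈ P, g = v * g₀ * v⁻¹ then c else 0 := by
  classical
  have hR : (Subgroup.centralizer ({g₀} : Set G)).subgroupOf P ≠ ⊤ := by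
    intro h
    apply hg₀
    rw [Subgroup.mem_centralizer_iff]
    intro v hv
    have h1 : (⟨v, hv⟩ : P) ∈ (Subgroup.centralizer ({g₀} : Set G)).subgroupOf P := by
      rw [h]
      exact Subgroup.mem_top _
    rw [Subgroup.mem_subgroupOf, Subgroup.mem_centralizer_singleton_iff] at h1
    exact h1
  obtain ⟨Q₀, hRQ, hidx, hQn⟩ := exists_index ℓ P hP _ hR
  have hQtop : Q₀ ≠ ⊤ := by
    intro h
    rw [h, Subgroup.index_top] at hidx
    exact hℓ.out.one_lt.ne hidx
  obtain ⟨u₀, hu₀⟩ : ∃ u₀ : P, u₀ ∉ Q₀ := by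
    by_contra hcon
    push Not at hcon
    exact hQtop (eq_top_iff.2 fun x _ => hcon x)
  have hcard : Nat.card (P ⧸ Q₀) = ℓ := hidx
  have hu1 : ((u₀ : P) : P ⧸ Q₀) ≠ 1 := by
    intro h
    exact hu₀ ((QuotientGroup.eq_one_iff u₀).1 h)
  have hord : orderOf ((u₀ : P) : P ⧸ Q₀) = ℓ := orderOf_eq_card_of_forall_mem_zpowers
    (fun x => mem_zpowers_of_prime_card hcard hu1) |>.trans hcard
  obtain ⟨Q, hQ⟩ : ∃ Q : Subgroup G, Q = Q₀.map P.subtype := ⟨_, rfl⟩
  have hQm : ∀ x : P, (x : G) ∈ Q ↔ x ∈ Q₀ := by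
    intro x
    rw [hQ, Subgroup.mem_map]
    constructor
    · rintro ⟨y, hy, hyx⟩
      have : y = x := Subtype.ext hyx
      rwa [← this]
    · intro h
      exact ⟨x, h, rfl⟩
  have hQP : Q ≤ P := by
    rw [hQ]
    rintro _ ⟨y, -, rfl⟩
    exact y.2
  obtain ⟨a, ha⟩ : ∃ a : G → F, a = fun g => if ∃ q ∈ Q, g = q * g₀ * q⁻¹ then c else 0 := ⟨_, rfl⟩
  refine ⟨Q, u₀, a, ⟨hQP, ?_, u₀.2, fun h => hu₀ ((hQm u₀).1 h), ?_⟩, ?_⟩
  · unfold Subgroup.relIndex
    have h1 : Q.subgroupOf P = Q₀ := by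
      ext x
      rw [Subgroup.mem_subgroupOf]
      exact hQm x
    rw [h1, hidx]
  · intro v hv g
    rw [ha]
    change (if ∃ q ∈ Q, v * g * v⁻¹ = q * g₀ * q⁻¹ then c else 0) =
      if ∃ q ∈ Q, g = q * g₀ * q⁻¹ then c else 0
    have h1 : (∃ q ∈ Q, v * g * v⁻¹ = q * g₀ * q⁻¹) ↔ ∃ q ∈ Q, g = q * g₀ * q⁻¹ := by
      constructor
      · rintro ⟨q, hq, h⟩
        refine ⟨v⁻¹ * q, mul_mem (inv_mem hv) hq, ?_⟩
        have h2 : g = v⁻¹ * (v * g * v⁻¹) * v := by group
        rw [h2, h]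
        group
      · rintro ⟨q, hq, h⟩
        refine ⟨v * q, mul_mem hv hq, ?_⟩
        rw [h]
        group
    exact if_congr h1 rfl rfl
  · intro g
    rw [Finset.sum_apply]
    have hcj : ∀ j : ℕ, cj ((u₀ : G) ^ j) a g =
        if ∃ q ∈ Q, g = ((u₀ : G) ^ j * q) * g₀ * ((u₀ : G) ^ j * q)⁻¹ then c else 0 := by
      intro j
      rw [ha]
      change (if ∃ q ∈ Q, ((u₀ : G) ^ j)⁻¹ * g * (u₀ : G) ^ j = q * g₀ * q⁻¹ then c else 0) = _
      have h1 : (∃ q ∈ Q, ((u₀ : G) ^ j)⁻¹ * g * (u₀ : G) ^ j = q * g₀ * q⁻¹) ↔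
          ∃ q ∈ Q, g = ((u₀ : G) ^ j * q) * g₀ * ((u₀ : G) ^ j * q)⁻¹ := by
        constructor
        · rintro ⟨q, hq, h⟩
          refine ⟨q, hq, ?_⟩
          have h2 : g = (u₀ : G) ^ j * (((u₀ : G) ^ j)⁻¹ * g * (u₀ : G) ^ j) * ((u₀ : G) ^ j)⁻¹ := by
            group
          rw [h2, h]
          group
        · rintro ⟨q, hq, h⟩
          refine ⟨q, hq, ?_⟩
          rw [h]
          group
      exact if_congr h1 rfl rfl
    by_cases hg : ∃ v ∈ P, g = v * g₀ * v⁻¹
    · rw [if_pos hg]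
      obtain ⟨v, hv, hgv⟩ := hg
      -- the coset of `v`
      obtain ⟨j₀, hj₀⟩ : ∃ j : ℕ, ((u₀ : P) : P ⧸ Q₀) ^ j = ((⟨v, hv⟩ : P) : P ⧸ Q₀) := by
        have h1 := mem_powers_of_prime_card (g' := ((⟨v, hv⟩ : P) : P ⧸ Q₀)) hcard hu1
        exact Submonoid.mem_powers_iff _ _ |>.1 h1
      obtain ⟨j, hj⟩ : ∃ j : ℕ, j = j₀ % ℓ := ⟨_, rfl⟩
      have hjl : j < ℓ := by
        rw [hj]
        exact Nat.mod_lt _ hℓ.out.pos
      have hj₁ : ((u₀ : P) : P ⧸ Q₀) ^ j = ((⟨v, hv⟩ : P) : P ⧸ Q₀) := by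
        rw [← hj₀, hj]
        conv_lhs => rw [← hord]
        exact pow_mod_orderOf _ _
      have hq : (u₀ ^ j)⁻¹ * (⟨v, hv⟩ : P) ∈ Q₀ := by
        rw [← QuotientGroup.mk_pow] at hj₁
        exact QuotientGroup.eq.1 hj₁
      rw [Finset.sum_eq_single j]
      · rw [hcj, if_pos]
        refine ⟨_, (hQm _).2 hq, ?_⟩
        change g = (u₀ : G) ^ j * (((u₀ : G) ^ j)⁻¹ * v) * g₀ *
          ((u₀ : G) ^ j * (((u₀ : G) ^ j)⁻¹ * v))⁻¹
        rw [mul_inv_cancel_left, hgv]
      · intro i hi hij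
        rw [hcj, if_neg]
        rintro ⟨q, hq', h⟩
        apply hij
        obtain ⟨q₀, rfl⟩ : ∃ q₀ : P, (q₀ : G) = q := ⟨⟨q, hQP hq'⟩, rfl⟩
        have hq₀ : q₀ ∈ Q₀ := (hQm q₀).1 hq'
        -- an element of `P` which commutes with `g₀`
        have h1 : (⟨v, hv⟩ : P)⁻¹ * (u₀ ^ i * q₀) ∈ Q₀ := by
          apply hRQ
          rw [Subgroup.mem_subgroupOf, Subgroup.mem_centralizer_singleton_iff]
          change (v⁻¹ * ((u₀ : G) ^ i * q₀)) * g₀ = g₀ * (v⁻¹ * ((u₀ : G) ^ i * q₀))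
          have h2 : v * g₀ * v⁻¹ = ((u₀ : G) ^ i * q₀) * g₀ * ((u₀ : G) ^ i * q₀)⁻¹ := by
            rw [← hgv, ← h]
          calc (v⁻¹ * ((u₀ : G) ^ i * q₀)) * g₀ = v⁻¹ *
                (((u₀ : G) ^ i * q₀) * g₀ * ((u₀ : G) ^ i * q₀)⁻¹) * ((u₀ : G) ^ i * q₀) := by group
            _ = v⁻¹ * (v * g₀ * v⁻¹) * ((u₀ : G) ^ i * q₀) := by rw [← h2]
            _ = g₀ * (v⁻¹ * ((u₀ : G) ^ i * q₀)) := by group
        have h3 : ((⟨v, hv⟩ : P) : P ⧸ Q₀) = ((u₀ ^ i * q₀ : P) : P ⧸ Q₀) := QuotientGroup.eq.2 h1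
        rw [QuotientGroup.mk_mul, (QuotientGroup.eq_one_iff q₀).2 hq₀, mul_one,
          QuotientGroup.mk_pow] at h3
        have h4 : ((u₀ : P) : P ⧸ Q₀) ^ i = ((u₀ : P) : P ⧸ Q₀) ^ j := by rw [hj₁, h3]
        have h5 := pow_injOn_Iio_orderOf (x := ((u₀ : P) : P ⧸ Q₀))
          (by rw [hord]; exact Finset.mem_range.1 hi) (by rw [hord]; exact hjl) h4
        exact h5
      · intro h
        exact absurd (Finset.mem_range.2 hjl) h
    · rw [if_neg hg]
      refine Finset.sum_eq_zero fun j _ => ?_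
      rw [hcj, if_neg]
      rintro ⟨q, hq, h⟩
      exact hg ⟨_, mul_mem (pow_mem u₀.2 j) (hQP hq), h⟩

end one

theorem rtr : RtrStmt := by
  intro ℓ hℓ F _ G _ _ P hP
  classical
  have := Fintype.ofFinite G
  -- induction on the support
  have key : ∀ (n : ℕ) (x : G → F), (Finset.univ.filter fun g => x g ≠ 0).card = n →
      (∀ v ∈ P, ∀ g, x (v * g * v⁻¹) = x g) →
      (∀ g ∈ Subgroup.centralizer (P : Set G), x g = 0) →
      ∃ (m : ℕ) (Q : Fin m → Subgroup G) (u : Fin m → G) (a : Fin m → G → F),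
        (∀ k, Q k ≤ P ∧ (Q k).relIndex P = ℓ ∧ u k ∈ P ∧ u k ∉ Q k ∧
          ∀ v ∈ Q k, ∀ g, a k (v * g * v⁻¹) = a k g) ∧
        x = ∑ k, ∑ j ∈ Finset.range ℓ, cj (u k ^ j) (a k) := by
    intro n
    induction n using Nat.strong_induction_on with
    | _ n ih =>
      intro x hxn hxi hxc
      by_cases hx : x = 0
      · refine ⟨0, Fin.elim0, Fin.elim0, Fin.elim0, fun k => k.elim0, ?_⟩
        rw [hx, Finset.univ_eq_empty, Finset.sum_empty]
      · obtain ⟨g₀, hg₀⟩ : ∃ g₀, x g₀ ≠ 0 := by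
          by_contra hcon
          push Not at hcon
          exact hx (funext hcon)
        have hg₀c : g₀ ∉ Subgroup.centralizer (P : Set G) := fun h => hg₀ (hxc g₀ h)
        obtain ⟨Q₁, u₁, a₁, hQ₁, hsum⟩ := one_orbit (F := F) ℓ P hP g₀ hg₀c (x g₀)
        obtain ⟨y, hy⟩ : ∃ y : G → F, y = ∑ j ∈ Finset.range ℓ, cj (u₁ ^ j) a₁ := ⟨_, rfl⟩
        rw [← hy] at hsum
        have hy1 : ∀ v ∈ P, y (v * g₀ * v⁻¹) = x g₀ := by
          intro v hv
          rw [hsum, if_pos ⟨v, hv, rfl⟩]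
        have hy0 : ∀ g, (¬ ∃ v ∈ P, g = v * g₀ * v⁻¹) → y g = 0 := by
          intro g hg
          rw [hsum, if_neg hg]
        have hdiff : ∀ g, (x - y) g ≠ 0 → x g ≠ 0 ∧ ¬ ∃ v ∈ P, g = v * g₀ * v⁻¹ := by
          intro g hg
          by_cases h : ∃ v ∈ P, g = v * g₀ * v⁻¹
          · exfalso
            apply hg
            obtain ⟨v, hv, rfl⟩ := h
            rw [Pi.sub_apply, hy1 v hv, hxi v hv, sub_self]
          · refine ⟨?_, h⟩
            rw [Pi.sub_apply, hy0 g h, sub_zero] at hg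
            exact hg
        have hlt : (Finset.univ.filter fun g => (x - y) g ≠ 0).card < n := by
          rw [← hxn]
          apply Finset.card_lt_card
          rw [Finset.ssubset_iff_of_subset]
          · refine ⟨g₀, Finset.mem_filter.2 ⟨Finset.mem_univ _, hg₀⟩, ?_⟩
            intro h
            exact (hdiff g₀ (Finset.mem_filter.1 h).2).2 ⟨1, P.one_mem, by group⟩
          · intro g hg
            exact Finset.mem_filter.2 ⟨Finset.mem_univ _, (hdiff g (Finset.mem_filter.1 hg).2).1⟩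
        have hyi : ∀ v ∈ P, ∀ g, y (v * g * v⁻¹) = y g := by
          intro v hv g
          by_cases h : ∃ w ∈ P, g = w * g₀ * w⁻¹
          · obtain ⟨w, hw, rfl⟩ := h
            have h2 : v * (w * g₀ * w⁻¹) * v⁻¹ = (v * w) * g₀ * (v * w)⁻¹ := by group
            rw [h2, hy1 _ (mul_mem hv hw), hy1 w hw]
          · rw [hy0 g h, hy0]
            rintro ⟨w, hw, h2⟩
            apply h
            refine ⟨v⁻¹ * w, mul_mem (inv_mem hv) hw, ?_⟩
            have h3 : g = v⁻¹ * (v * g * v⁻¹) * v := by group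
            rw [h3, h2]
            group
        have hyc : ∀ g ∈ Subgroup.centralizer (P : Set G), y g = 0 := by
          intro g hg
          apply hy0
          rintro ⟨v, hv, h⟩
          apply hg₀c
          have h2 := Subgroup.mem_centralizer_iff.1 hg v hv
          have h3 : g₀ = g := by
            calc g₀ = v⁻¹ * (v * g₀ * v⁻¹) * v := by group
              _ = v⁻¹ * g * v := by rw [← h]
              _ = v⁻¹ * (g * v) := by group
              _ = v⁻¹ * (v * g) := by rw [← h2]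
              _ = g := by group
          rw [h3]
          exact hg
        obtain ⟨m, Q, u, a, hQ, hxy⟩ := ih _ hlt (x - y) rfl
          (fun v hv g => by rw [Pi.sub_apply, Pi.sub_apply, hxi v hv, hyi v hv])
          (fun g hg => by rw [Pi.sub_apply, hxc g hg, hyc g hg, sub_zero])
        refine ⟨m + 1, Fin.cons Q₁ Q, Fin.cons u₁ u, Fin.cons a₁ a, ?_, ?_⟩
        · intro k
          induction k using Fin.cases with
          | zero => exact hQ₁
          | succ k => exact hQ k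
        · rw [Fin.sum_univ_succ]
          simp only [Fin.cons_zero, Fin.cons_succ]
          rw [← hxy, ← hy]
          abel
  intro x hxi hxc
  exact key _ x rfl hxi hxc

end Pool.Agent.PP.T10.H86
end
end -- Pool.Agent.Helper86_AT10.RTR
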