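import Pool.Agent.Helper12_AWB.B051
import Pool.Agent.Helper12_AWB.B058
import Pool.Agent.Helper12_AWB.B082
import Pool.Agent.Helper12_AWB.B121

/-!
# Merged copies (generated) of the modules

* `Pool.Agent.Helper27_AT8.LFT`
* `Pool.Agent.Helper28_AT8.LCL`
* `Pool.Agent.Helper60_AT8.GEQ`
* `Pool.Agent.Helper95_AT10.TV`
* `Pool.Agent.Helper45_AT10.TVS`
* `Pool.Agent.Helper56_AT10.LF2`
-/

set_option autoImplicit false

section -- Pool.Agent.Helper27_AT8.LFT

/-!
# Squad AT8, LFT: idempotents can be lifted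
-/

open scoped BigOperators

noncomputable section

namespace Pool.Agent.PP.T8.H27

open Pool.Agent.Helper51_AWC Pool.Agent.Helper79_WRA Pool.Agent.PP Pool.Agent.PP.KF
open Pool.Agent.PP.K9 Pool.Agent.PP.K9.H97 Pool.Agent.PP.H75 Pool.Agent.PP.T3 Pool.Agent.PP.T2

attribute [local instance] Ideal.Quotient.field

section gen

variable {R F : Type} [CommRing R] [Field F] (φ : R →+* F)

theorem cop_prod {S : Type} [CommSemiring S] (q : S) (t : Multiset S) (h : ∀ p ∈ t, IsCoprime p q) :
    IsCoprime t.prod q := by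
  induction t using Multiset.induction_on with
  | empty => rw [Multiset.prod_zero]; exact isCoprime_one_left
  | cons a t ih =>
    rw [Multiset.prod_cons]
    exact IsCoprime.mul_left (h a (Multiset.mem_cons_self a t))
      (ih fun p hp => h p (Multiset.mem_cons_of_mem hp))

theorem cop (hu : ∀ a : R, φ a ≠ 0 → IsUnit a) (s t : Multiset R) (hs : ∀ a ∈ s, φ a = 0)
    (ht : ∀ a ∈ t, φ a ≠ 0) :
    IsCoprime (s.map fun a => (Polynomial.X - Polynomial.C a : Polynomial R)).prod
      (t.map fun a => (Polynomial.X - Polynomial.C a : Polynomial R)).prod := by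
  apply cop_prod
  intro p hp
  obtain ⟨a, ha, rfl⟩ := Multiset.mem_map.1 hp
  apply IsCoprime.symm
  apply cop_prod
  intro q hq
  obtain ⟨b, hb, rfl⟩ := Multiset.mem_map.1 hq
  apply Polynomial.isCoprime_X_sub_C_of_isUnit_sub
  apply hu
  rw [map_sub, hs a ha, sub_zero]
  exact ht b hb

/-- polynomials in an idempotent -/
theorem ev_idem {B : Type} [Ring B] [Algebra F B] {E : B} (hE : E * E = E) (h : Polynomial F) :
    Polynomial.aeval E h = h.eval 0 • (1 - E) + h.eval 1 • E := by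
  induction h using Polynomial.induction_on' with
  | add p q hp hq =>
    rw [map_add, hp, hq, Polynomial.eval_add, Polynomial.eval_add, add_smul, add_smul]
    abel
  | monomial n a =>
    rw [Polynomial.aeval_monomial, Polynomial.eval_monomial, Polynomial.eval_monomial, one_pow,
      mul_one]
    rcases Nat.eq_zero_or_pos n with rfl | hn
    · rw [pow_zero, mul_one, pow_zero, mul_one, Algebra.algebraMap_eq_smul_one, smul_sub]
      abel
    · rw [zero_pow hn.ne', mul_zero, zero_smul, zero_add, IsIdempotentElem.pow_eq hE hn.ne',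
        Algebra.smul_def]

theorem gen {B B' : Type} [Ring B] [Algebra R B] [Ring B'] [Algebra F B'] (ψ : B →+* B')
    (hψ : (algebraMap F B').comp φ = ψ.comp (algebraMap R B))
    (hu : ∀ a : R, φ a ≠ 0 → IsUnit a) (x : B) (hx : ψ x * ψ x = ψ x) (s : Multiset R)
    (hs : Polynomial.aeval x (s.map fun a => (Polynomial.X - Polynomial.C a : Polynomial R)).prod
      = 0) :
    ∃ p : Polynomial R, Polynomial.aeval x p * Polynomial.aeval x p = Polynomial.aeval x p ∧
      ψ (Polynomial.aeval x p) = ψ x := by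
  classical
  have hcop := cop φ hu (s.filter fun a => φ a = 0) (s.filter fun a => ¬ φ a = 0)
    (fun a ha => (Multiset.mem_filter.1 ha).2) (fun a ha => (Multiset.mem_filter.1 ha).2)
  obtain ⟨P, hP⟩ : ∃ P, P = ((s.filter fun a => φ a = 0).map
    fun a => (Polynomial.X - Polynomial.C a : Polynomial R)).prod := ⟨_, rfl⟩
  obtain ⟨Q, hQ⟩ : ∃ Q, Q = ((s.filter fun a => ¬ φ a = 0).map
    fun a => (Polynomial.X - Polynomial.C a : Polynomial R)).prod := ⟨_, rfl⟩
  obtain ⟨f, hf⟩ : ∃ f, f = (s.map fun a => (Polynomial.X - Polynomial.C a : Polynomial R)).prod :=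
    ⟨_, rfl⟩
  rw [← hP, ← hQ] at hcop
  rw [← hf] at hs
  have hPQ : P * Q = f := by
    rw [hP, hQ, hf, ← Multiset.prod_add, ← Multiset.map_add, Multiset.filter_add_not]
  obtain ⟨A, D, hAD⟩ := hcop
  have hev : ∀ h : Polynomial R, ψ (Polynomial.aeval x h) =
      (h.map φ).eval 0 • (1 - ψ x) + (h.map φ).eval 1 • ψ x := by
    intro h
    rw [Polynomial.map_aeval_eq_aeval_map hψ, ev_idem hx]
  have hf0 := hev f
  rw [hs, map_zero] at hf0
  have hfm : ∀ c : F, (f.map φ).eval c = (s.map fun a => c - φ a).prod := by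
    intro c
    rw [hf, Polynomial.map_multiset_prod, Polynomial.eval_multiset_prod, Multiset.map_map,
      Multiset.map_map]
    congr 1
    apply Multiset.map_congr rfl
    intro a _
    simp only [Function.comp_apply, Polynomial.map_sub, Polynomial.map_X, Polynomial.map_C,
      Polynomial.eval_sub, Polynomial.eval_X, Polynomial.eval_C]
  have hroot : ∀ (t : Multiset R) (c : F), (∃ a ∈ t, φ a = c) →
      ((t.map fun a => (Polynomial.X - Polynomial.C a : Polynomial R)).prod.map φ).eval c = 0 := by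
    intro t c hac
    obtain ⟨a, ha, rfl⟩ := hac
    rw [Polynomial.map_multiset_prod, Polynomial.eval_multiset_prod, Multiset.map_map,
      Multiset.map_map]
    apply Multiset.prod_eq_zero
    rw [Multiset.mem_map]
    refine ⟨a, ha, ?_⟩
    simp only [Function.comp_apply, Polynomial.map_sub, Polynomial.map_X, Polynomial.map_C,
      Polynomial.eval_sub, Polynomial.eval_X, Polynomial.eval_C, sub_self]
  have hex : ∀ c : F, (f.map φ).eval c = 0 → ∃ a ∈ s, φ a = c := by
    intro c hc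
    rw [hfm, Multiset.prod_eq_zero_iff, Multiset.mem_map] at hc
    obtain ⟨a, ha, h⟩ := hc
    exact ⟨a, ha, (sub_eq_zero.1 h).symm⟩
  have hxx : (1 - ψ x) * ψ x = 0 := by rw [sub_mul, one_mul, hx, sub_self]
  have hxx' : (1 - ψ x) * (1 - ψ x) = 1 - ψ x := by
    rw [mul_sub, mul_one, hxx, sub_zero]
  have h1 : ((A * P).map φ).eval 0 • (1 - ψ x) = 0 := by
    by_cases hE : ψ x = 1
    · rw [hE, sub_self, smul_zero]
    · have h2 := congrArg (fun y => (1 - ψ x) * y) hf0
      simp only [mul_zero, mul_add, mul_smul_comm, hxx', hxx, smul_zero, add_zero] at h2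
      have h3 : (f.map φ).eval 0 = 0 := by
        rcases smul_eq_zero.1 h2.symm with h | h
        · exact h
        · exact absurd (sub_eq_zero.1 h).symm hE
      obtain ⟨a, ha, ha0⟩ := hex 0 h3
      have h4 : (P.map φ).eval 0 = 0 := by
        rw [hP]
        exact hroot _ 0 ⟨a, Multiset.mem_filter.2 ⟨ha, ha0⟩, ha0⟩
      rw [Polynomial.map_mul, Polynomial.eval_mul, h4, mul_zero, zero_smul]
  have h2 : ((A * P).map φ).eval 1 • ψ x = ψ x := by
    by_cases hE : ψ x = 0
    · rw [hE, smul_zero]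
    · have h2 := congrArg (fun y => y * ψ x) hf0
      simp only [zero_mul, add_mul, smul_mul_assoc, hxx, hx, smul_zero, zero_add] at h2
      have h3 : (f.map φ).eval 1 = 0 := by
        rcases smul_eq_zero.1 h2.symm with h | h
        · exact h
        · exact absurd h hE
      obtain ⟨a, ha, ha0⟩ := hex 1 h3
      have h4 : (Q.map φ).eval 1 = 0 := by
        rw [hQ]
        refine hroot _ 1 ⟨a, Multiset.mem_filter.2 ⟨ha, ?_⟩, ha0⟩
        rw [ha0]
        exact one_ne_zero
      have h5 := congrArg (fun g : Polynomial R => (g.map φ).eval 1) hAD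
      simp only [Polynomial.map_add, Polynomial.map_mul, Polynomial.eval_add, Polynomial.eval_mul,
        Polynomial.map_one, Polynomial.eval_one, h4, mul_zero, add_zero] at h5
      rw [Polynomial.map_mul, Polynomial.eval_mul, h5, one_smul]
  refine ⟨A * P, ?_, ?_⟩
  · have h3 : A * P * (A * P) = A * P - (A * D) * f := by
      rw [← hPQ]
      have h4 : A * P = 1 - D * Q := by rw [← hAD]; ring
      calc A * P * (A * P) = A * P * (1 - D * Q) := by rw [← h4]
        _ = _ := by ring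
    rw [← map_mul, h3, map_sub, map_mul _ (A * D) f, hs, mul_zero, sub_zero]
  · rw [hev, h1, h2, zero_add]

end gen

section closed

variable {M : Ideal (integralClosure ℤ ℂ)} [hM : M.IsMaximal]

/-- common denominators -/
theorem den (n : ℕ) (a : ℕ → ℂ) (ha : ∀ i, a i ∈ RM M) :
    ∃ s : integralClosure ℤ ℂ, s ∉ M ∧ ∀ i < n, IsIntegral ℤ ((s : ℂ) * a i) := by
  induction n with
  | zero => exact ⟨1, one_notMem, fun i hi => absurd hi (Nat.not_lt_zero i)⟩
  | succ n ih =>
    obtain ⟨s, hs, h⟩ := ih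
    obtain ⟨s', t, hs', h'⟩ := ha n
    refine ⟨s * s', fun h0 => (hM.isPrime.mem_or_mem h0).elim hs hs', fun i hi => ?_⟩
    rcases Nat.lt_succ_iff_lt_or_eq.1 hi with h1 | rfl
    · have e : ((s * s' : integralClosure ℤ ℂ) : ℂ) * a i = (s' : ℂ) * ((s : ℂ) * a i) := by
        push_cast; ring
      rw [e]
      exact s'.2.mul (h i h1)
    · have e : ((s * s' : integralClosure ℤ ℂ) : ℂ) * a i = (s : ℂ) * (t : ℂ) := by
        push_cast; rw [← h']; ring
      rw [e]
      exact s.2.mul t.2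

/-- `RM M` is integrally closed -/
theorem int_closed {f : Polynomial (RM M)} (hf : f.Monic) {α : ℂ}
    (h : Polynomial.eval₂ (RM M).subtype α f = 0) : α ∈ RM M := by
  obtain ⟨s, hs, hden⟩ := den f.natDegree (fun i => (f.coeff i : ℂ)) fun i => (f.coeff i).2
  obtain ⟨g, hg⟩ : ∃ g, g = f.map (RM M).subtype := ⟨_, rfl⟩
  have hgm : g.Monic := by rw [hg]; exact hf.map _
  have hg0 : g.eval α = 0 := by rw [hg, Polynomial.eval_map]; exact h
  have hgd : g.natDegree = f.natDegree := by rw [hg]; exact hf.natDegree_map _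
  have h1 : Polynomial.eval₂ (RingHom.id ℂ) ((RingHom.id ℂ) (s : ℂ) * α)
      (Polynomial.scaleRoots g (s : ℂ)) = 0 := by
    apply Polynomial.scaleRoots_eval₂_eq_zero
    rw [Polynomial.eval₂_id]
    exact hg0
  have h2 : (Polynomial.scaleRoots g (s : ℂ)).Monic := (Polynomial.monic_scaleRoots_iff _).2 hgm
  have h3 : Polynomial.scaleRoots g (s : ℂ) ∈
      Polynomial.lifts (algebraMap (integralClosure ℤ ℂ) ℂ) := by
    rw [Polynomial.lifts_iff_coeff_lifts]
    intro i
    rw [Polynomial.coeff_scaleRoots]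
    have h4 : IsIntegral ℤ (g.coeff i * (s : ℂ) ^ (g.natDegree - i)) := by
      rcases lt_trichotomy i g.natDegree with hi | hi | hi
      · obtain ⟨k, hk⟩ : ∃ k, g.natDegree - i = k + 1 := ⟨g.natDegree - i - 1, by omega⟩
        rw [hk, pow_succ, mul_comm ((s : ℂ) ^ k), ← mul_assoc]
        refine IsIntegral.mul ?_ (s.2.pow k)
        rw [mul_comm, hg, Polynomial.coeff_map]
        exact hden i (hgd ▸ hi)
      · rw [hi, Nat.sub_self, pow_zero, mul_one, hgm.coeff_natDegree]
        exact isIntegral_one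
      · rw [Polynomial.coeff_eq_zero_of_natDegree_lt hi, zero_mul]
        exact isIntegral_zero
    exact ⟨⟨_, h4⟩, rfl⟩
  obtain ⟨q, hq, -, hqm⟩ := Polynomial.lifts_and_natDegree_eq_and_monic h3 h2
  have h5 : IsIntegral (integralClosure ℤ ℂ) ((s : ℂ) * α) := by
    refine ⟨q, hqm, ?_⟩
    rw [← Polynomial.eval_map, hq, ← Polynomial.eval₂_id]
    exact h1
  have h6 : IsIntegral ℤ ((s : ℂ) * α) := isIntegral_trans (A := integralClosure ℤ ℂ) _ h5
  exact ⟨s, ⟨_, h6⟩, hs, rfl⟩

/-- a monic polynomial over `RM M` splits -/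
theorem splits {f : Polynomial (RM M)} (hf : f.Monic) :
    ∃ s : Multiset (RM M),
      f = (s.map fun a => (Polynomial.X - Polynomial.C a : Polynomial (RM M))).prod := by
  obtain ⟨g, hg⟩ : ∃ g, g = f.map (RM M).subtype := ⟨_, rfl⟩
  have hgm : g.Monic := by rw [hg]; exact hf.map _
  have h1 : ∀ α ∈ g.roots, α ∈ RM M := by
    intro α hα
    apply int_closed hf
    rw [← Polynomial.eval_map, ← hg]
    exact (Polynomial.mem_roots hgm.ne_zero).1 hα
  obtain ⟨s, hs⟩ : ∃ s : Multiset (RM M), s.map (fun a : RM M => (a : ℂ)) = g.roots :=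
    ⟨g.roots.pmap (fun a h => ⟨a, h⟩) h1, by
      rw [Multiset.map_pmap]
      simp only [Multiset.pmap_eq_map, Multiset.map_id']⟩
  refine ⟨s, ?_⟩
  apply Polynomial.map_injective (RM M).subtype (RM M).subtype_injective
  rw [← hg, Polynomial.map_multiset_prod, Multiset.map_map]
  have h2 := (IsAlgClosed.splits g).eq_prod_roots_of_monic hgm
  rw [← hs, Multiset.map_map] at h2
  rw [h2]
  congr 1
  apply Multiset.map_congr rfl
  intro a _
  simp only [Function.comp_apply, Polynomial.map_sub, Polynomial.map_X, Polynomial.map_C]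
  rfl

end closed

section poly

variable {F G : Type} [Field F] [Group G] [Finite G]

/-- polynomials in a function with support in `C`, invariant under `V` -/
theorem poly_inv (V C : Subgroup G) (x : G → F) (hC : ∀ g, g ∉ C → x g = 0)
    (hV : ∀ v ∈ V, ∀ g, x (v * g * v⁻¹) = x g) (q : Polynomial F) :
    ∃ y : G → F, Polynomial.aeval (H20.toMA x) q = H20.toMA y ∧ (∀ g, g ∉ C → y g = 0) ∧
      ∀ v ∈ V, ∀ g, y (v * g * v⁻¹) = y g := by
  classical
  have hinv : ∀ v ∈ V, ∀ u : G → F, (∀ g, u (v * g * v⁻¹) = u g) ↔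
      (fun g => u (MulAut.conj v g)) = u := by
    intro v hv u
    exact ⟨fun h => funext h, fun h g => congrFun h g⟩
  induction q using Polynomial.induction_on with
  | C a =>
    refine ⟨fun g => if g = 1 then a else 0, ?_, ?_, ?_⟩
    · rw [Polynomial.aeval_C]
      apply MonoidAlgebra.coeff_injective
      ext g
      rw [H20.toMA_coeff, MonoidAlgebra.coe_algebraMap, Function.comp_apply,
        MonoidAlgebra.coeff_single, Finsupp.single_apply]
      simp only [Algebra.algebraMap_self, RingHom.id_apply, eq_comm]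
    · intro g hg
      refine if_neg ?_
      rintro rfl
      exact hg C.one_mem
    · intro v _ g
      have : v * g * v⁻¹ = 1 ↔ g = 1 := by
        constructor
        · intro h
          have := congrArg (fun t => v⁻¹ * t * v) h
          simpa [mul_assoc] using this
        · rintro rfl; simp
      simp only [this]
  | add p q hp hq =>
    obtain ⟨y, hy, h1, h2⟩ := hp
    obtain ⟨z, hz, h3, h4⟩ := hq
    refine ⟨y + z, ?_, ?_, ?_⟩
    · rw [map_add, hy, hz]
      exact (H20.maE.map_add y z).symm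
    · intro g hg
      rw [Pi.add_apply, h1 g hg, h3 g hg, add_zero]
    · intro v hv g
      rw [Pi.add_apply, Pi.add_apply, h2 v hv g, h4 v hv g]
  | monomial n a ih =>
    obtain ⟨y, hy, h1, h2⟩ := ih
    refine ⟨mulF y x, ?_, ?_, ?_⟩
    · rw [pow_succ, ← mul_assoc, map_mul, hy, Polynomial.aeval_X, H20.toMA_mulF]
    · intro g hg
      have := Fintype.ofFinite G
      unfold mulF
      rw [finsum_eq_sum_of_fintype]
      apply Finset.sum_eq_zero
      intro t _
      by_cases ht : t ∈ C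
      · rw [hC, mul_zero]
        intro h
        apply hg
        have := C.mul_mem ht h
        rwa [mul_inv_cancel_left] at this
      · rw [h1 t ht, zero_mul]
    · intro v hv
      rw [hinv v hv, ← H17.mulF_comp, (hinv v hv y).1 (h2 v hv), (hinv v hv x).1 (hV v hv)]

end poly

theorem lft : LftStmt := by
  intro M hM G _ _ V C x hx hC hV
  classical
  have := Fintype.ofFinite G
  -- a section of the residue map
  obtain ⟨s, hs0, hs⟩ : ∃ s : FF M → RM M, s 0 = 0 ∧ ∀ c, rrHom M (s c) = c := by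
    have h1 : ∀ c : FF M, ∃ z : RM M, rrHom M z = c := by
      intro c
      obtain ⟨z, hz, h⟩ := rr_surj c
      exact ⟨⟨z, hz⟩, h⟩
    choose s hs using h1
    refine ⟨fun c => if c = 0 then 0 else s c, if_pos rfl, fun c => ?_⟩
    by_cases hc : c = 0
    · simp only [hc, if_true, map_zero]
    · simp only [hc, if_false, hs]
  obtain ⟨X, hX⟩ : ∃ X : MonoidAlgebra (RM M) G,
      X = MonoidAlgebra.ofCoeff (Finsupp.equivFunOnFinite.symm fun g => s (x g)) := ⟨_, rfl⟩
  have hXc : ∀ g, X.coeff g = s (x g) := by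
    intro g
    rw [hX]
    rfl
  have hfin : Module.Finite (RM M) (MonoidAlgebra (RM M) G) := by
    let E : (G → RM M) ≃ₗ[RM M] MonoidAlgebra (RM M) G :=
      { toFun := fun a => MonoidAlgebra.ofCoeff (Finsupp.equivFunOnFinite.symm a)
        invFun := fun y => fun h => y.coeff h
        left_inv := fun _ => rfl
        right_inv := by
          intro y
          apply MonoidAlgebra.coeff_injective
          ext g
          rfl
        map_add' := by
          intro a b
          apply MonoidAlgebra.coeff_injective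
          ext g
          rfl
        map_smul' := by
          intro c a
          apply MonoidAlgebra.coeff_injective
          ext g
          rfl }
    exact Module.Finite.equiv E
  obtain ⟨f, hfm, hf⟩ : IsIntegral (RM M) X := IsIntegral.of_finite (RM M) X
  obtain ⟨r, hr⟩ := splits hfm
  have hψX : MonoidAlgebra.mapRingHom G (rrHom M) X = H20.toMA x := by
    apply MonoidAlgebra.coeff_injective
    ext g
    rw [H20.toMA_coeff, MonoidAlgebra.coeff_mapRingHom]
    rw [hXc]
    exact hs _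
  have hιX : MonoidAlgebra.mapRingHom G (RM M).subtype X = H20.toMA fun g => (s (x g) : ℂ) := by
    apply MonoidAlgebra.coeff_injective
    ext g
    rw [H20.toMA_coeff, MonoidAlgebra.coeff_mapRingHom]
    rw [hXc]
    rfl
  obtain ⟨p, hp1, hp2⟩ := gen (rrHom M) (MonoidAlgebra.mapRingHom G (rrHom M))
    (MonoidAlgebra.mapRingHom_comp_algebraMap (rrHom M)).symm
    (fun a ha => by
      obtain ⟨h1, h2⟩ := inv_RM a.2 ha
      exact IsUnit.of_mul_eq_one ⟨_, h1⟩ (Subtype.ext (mul_inv_cancel₀ h2)))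
    X (by rw [hψX, ← H20.toMA_mulF, hx]) r (by rw [← hr]; exact hf)
  have hmap : MonoidAlgebra.mapRingHom G (RM M).subtype (Polynomial.aeval X p) =
      Polynomial.aeval (H20.toMA fun g => (s (x g) : ℂ)) (p.map (RM M).subtype) := by
    rw [← hιX]
    exact Polynomial.map_aeval_eq_aeval_map
      (MonoidAlgebra.mapRingHom_comp_algebraMap (RM M).subtype).symm p X
  obtain ⟨y, hy, hyC, hyV⟩ := poly_inv V C (fun g => (s (x g) : ℂ))
    (fun g hg => by simp only [hC g hg, hs0]; rfl)
    (fun v hv g => by simp only [hV v hv g]) (p.map (RM M).subtype)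
  have hyc : ∀ g, y g = ((Polynomial.aeval X p).coeff g : ℂ) := by
    intro g
    rw [← H20.toMA_coeff y g, ← hy, ← hmap, MonoidAlgebra.coeff_mapRingHom]
    rfl
  refine ⟨y, ⟨fun g => ?_, ?_, hyV⟩, hyC, ?_⟩
  · rw [hyc]
    exact SetLike.coe_mem _
  · apply H20.toMA_injective
    rw [H20.toMA_mulF, ← hy, ← hmap, ← map_mul, hp1]
  · funext g
    show rr M (y g) = x g
    rw [hyc]
    have h1 := congrArg (fun z => z.coeff g) (hp2.trans hψX)
    simp only [MonoidAlgebra.coeff_mapRingHom] at h1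
    exact h1

end Pool.Agent.PP.T8.H27
end
end -- Pool.Agent.Helper27_AT8.LFT

section -- Pool.Agent.Helper28_AT8.LCL

/-!
# Squad AT8, LCL: the local idempotents
-/

open scoped BigOperators

noncomputable section

namespace Pool.Agent.PP.T8.H28

open Pool.Agent.Helper51_AWC Pool.Agent.Helper79_WRA Pool.Agent.PP Pool.Agent.PP.KF
open Pool.Agent.PP.K9 Pool.Agent.PP.K9.H97 Pool.Agent.PP.H75 Pool.Agent.PP.T3 Pool.Agent.PP.T2

attribute [local instance] Ideal.Quotient.field

section tools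

variable {M : Ideal (integralClosure ℤ ℂ)} [M.IsMaximal] {G : Type} [Group G] [Finite G]

/-- values of a product -/
theorem mulF_RM {a c : G → ℂ} (ha : ∀ g, a g ∈ RM M) (hc : ∀ g, c g ∈ RM M) (g : G) :
    mulF a c g ∈ RM M := by
  have := Fintype.ofFinite G
  unfold mulF
  rw [finsum_eq_sum_of_fintype]
  exact Subring.sum_mem _ fun t _ => (RM M).mul_mem (ha t) (hc _)

/-- the reduction of a product -/
theorem rd_mulF {a c : G → ℂ} (ha : ∀ g, a g ∈ RM M) (hc : ∀ g, c g ∈ RM M) :
    rd M (mulF a c) = mulF (rd M a) (rd M c) := by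
  have := Fintype.ofFinite G
  funext x
  unfold rd mulF
  rw [finsum_eq_sum_of_fintype, finsum_eq_sum_of_fintype,
    rr_sum _ _ fun t _ => (RM M).mul_mem (ha t) (hc _)]
  exact Finset.sum_congr rfl fun t _ => rr_mul (ha t) (hc _)

/-- an idempotent with zero residue is zero -/
theorem idem_zero {p : G → ℂ} (hp : ∀ g, p g ∈ RM M) (h0 : ∀ g, rr M (p g) = 0)
    (hpp : mulF p p = p) : p = 0 := by
  classical
  have := Fintype.ofFinite G
  let L : Matrix G G (RM M) := fun x t => ⟨p (x * t⁻¹), hp _⟩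
  have hLL : L * L = L := by
    ext x t
    rw [Matrix.mul_apply]
    change (((∑ s, L x s * L s t : RM M)) : ℂ) = p (x * t⁻¹)
    rw [AddSubmonoidClass.coe_finsetSum]
    have h1 : p (x * t⁻¹) = ∑ r, p r * p (r⁻¹ * (x * t⁻¹)) := by
      conv_lhs => rw [← hpp]
      unfold mulF
      rw [finsum_eq_sum_of_fintype]
    rw [h1, ← Equiv.sum_comp ((Equiv.inv G).trans (Equiv.mulLeft x))
      (fun r => p r * p (r⁻¹ * (x * t⁻¹)))]
    refine Finset.sum_congr rfl fun s _ => ?_
    change p (x * s⁻¹) * p (s * t⁻¹) = p (x * s⁻¹) * p ((x * s⁻¹)⁻¹ * (x * t⁻¹))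
    congr 2
    group
  have hdet : rrHom M ((1 - L).det) = 1 := by
    rw [RingHom.map_det]
    have h2 : (rrHom M).mapMatrix (1 - L) = 1 := by
      ext x t
      rw [RingHom.mapMatrix_apply, Matrix.map_apply, Matrix.sub_apply, map_sub]
      have h3 : rrHom M (L x t) = 0 := h0 _
      rw [h3, sub_zero, Matrix.one_apply, Matrix.one_apply]
      by_cases hxt : x = t
      · rw [if_pos hxt, if_pos hxt, map_one]
      · rw [if_neg hxt, if_neg hxt, map_zero]
    rw [h2, Matrix.det_one]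
  have hdet0 : (1 - L).det ≠ 0 := by
    intro h
    rw [h, map_zero] at hdet
    exact zero_ne_one hdet
  have hz : (1 - L) * L = 0 := by
    rw [sub_mul, one_mul, hLL, sub_self]
  have hz2 : (1 - L).det • L = 0 := by
    rw [← one_mul L, ← smul_mul_assoc, ← Matrix.adjugate_mul, mul_assoc, one_mul, hz, mul_zero]
  funext g
  have h4 := congrFun (congrFun hz2 g) 1
  have h5 : (1 - L).det * L g 1 = 0 := h4
  rcases mul_eq_zero.1 h5 with h6 | h6
  · exact absurd h6 hdet0
  · have h7 : p (g * 1⁻¹) = 0 := congrArg Subtype.val h6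
    rw [inv_one, mul_one] at h7
    exact h7

omit [Finite G] in
theorem mem_cent_zpowers (z t : G) :
    t ∈ Subgroup.centralizer ((Subgroup.zpowers z : Subgroup G) : Set G) ↔ t ∈ Cu z := by
  rw [Subgroup.mem_centralizer_iff, Subgroup.mem_centralizer_iff]
  constructor
  · intro h y hy
    rw [Set.mem_singleton_iff] at hy
    rw [hy]
    exact h z (Subgroup.mem_zpowers z)
  · rintro h y hy
    obtain ⟨n, rfl⟩ := Subgroup.mem_zpowers_iff.1 hy
    have h1 : Commute z t := h z rfl
    exact (h1.zpow_left n)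

/-- the restriction to the centraliser of `z` as a Brauer map -/
theorem rs_eq_br {F : Type} [Field F] (z : G) (a : G → F) :
    rs (Cu z) a = br (Subgroup.zpowers z) a := by
  funext t
  unfold rs
  by_cases ht : t ∈ Cu z
  · rw [if_pos ht, br_in _ ((mem_cent_zpowers z t).2 ht)]
  · rw [if_neg ht, br_out _ fun h => ht ((mem_cent_zpowers z t).1 h)]

theorem rs_mulF {F : Type} [Field F] {ℓ : ℕ} (hF : GoodF ℓ F) {z : G}
    (hz : IsPGroup ℓ (Subgroup.zpowers z)) {a c : G → F} (ha : ∀ x, a (z * x * z⁻¹) = a x)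
    (hc : ∀ x, c (z * x * z⁻¹) = c x) :
    rs (Cu z) (mulF a c) = mulF (rs (Cu z) a) (rs (Cu z) c) := by
  have key : ∀ b : G → F, (∀ x, b (z * x * z⁻¹) = b x) → ∀ p ∈ Subgroup.zpowers z,
      cj p b = b := by
    intro b hb p hp
    have h1 : z ∈ st b := by
      rw [mem_st, cj_eq_iff]
      exact hb
    have h2 : Subgroup.zpowers z ≤ st b := Subgroup.zpowers_le.2 h1
    exact mem_st.1 (h2 hp)
  rw [rs_eq_br, rs_eq_br, rs_eq_br]
  exact br_mulF H74.orb hF hz (key a ha) (key c hc)

end tools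

theorem lcl (lft : LftStmt) (smi : SmiStmt) (idm : KF.IdmStmt) : LclStmt := by
  intro ℓ _ M _ hM G _ _ e V γ hL i hi z hz b hb
  have hF : GoodF ℓ (FF M) := H50.fld ℓ Fact.out M hM
  have hzp : IsPGroup ℓ (Subgroup.zpowers z) :=
    hL.tp.pg.to_le (Subgroup.zpowers_le.2 hz)
  have hrdz : ∀ v ∈ V, ∀ x, rd M i (v * x * v⁻¹) = rd M i x := by
    intro v hv x
    unfold rd
    rw [hi.ip.iv v hv]
  -- the idempotent `x`
  have hxx : mulF (rs (Cu z) (rd M i)) (rs (Cu z) (rd M i)) = rs (Cu z) (rd M i) := by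
    rw [← rs_mulF hF hzp (hrdz z hz) (hrdz z hz), ← rd_mulF hi.ip.rm hi.ip.rm, hi.ip.id]
  have hxs : ∀ g, g ∉ Cu z → rs (Cu z) (rd M i) g = 0 := by
    intro g hg
    unfold rs
    rw [if_neg hg]
  have hxin : ∀ g, g ∈ Cu z → rs (Cu z) (rd M i) g = rd M i g := by
    intro g hg
    unfold rs
    rw [if_pos hg]
  have hVC : ∀ v ∈ V, v ∈ Cu z := by
    intro v hv
    rw [Subgroup.mem_centralizer_singleton_iff]
    exact hL.ab v hv z hz
  have hxv : ∀ v ∈ V, ∀ g, rs (Cu z) (rd M i) (v * g * v⁻¹) = rs (Cu z) (rd M i) g := by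
    intro v hv g
    by_cases hg : g ∈ Cu z
    · have hg' : v * g * v⁻¹ ∈ Cu z :=
        Subgroup.mul_mem _ (Subgroup.mul_mem _ (hVC v hv) hg) (Subgroup.inv_mem _ (hVC v hv))
      rw [hxin _ hg, hxin _ hg', hrdz v hv]
    · have hg' : v * g * v⁻¹ ∉ Cu z := by
        intro h
        apply hg
        have h1 := Subgroup.mul_mem _ (Subgroup.mul_mem _ (Subgroup.inv_mem _ (hVC v hv)) h)
          (hVC v hv)
        have e1 : v⁻¹ * (v * g * v⁻¹) * v = g := by group
        rwa [e1] at h1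
      rw [hxs _ hg, hxs _ hg']
  obtain ⟨j, hj, hjs, hjx⟩ := lft M G V (Cu z) (rs (Cu z) (rd M i)) hxx hxs hxv
  have hjr : ∀ g ∈ Cu z, rr M (j g) = rr M (i g) := by
    intro g hg
    have h1 := congrFun hjx g
    rw [hxin g hg] at h1
    exact h1
  refine ⟨j, hj, hjs, hjr, ?_, ?_⟩
  · -- the lift of `b`
    obtain ⟨hbv, hbi, -⟩ := idm M (Cu z) (fun t : Cu z => b t) hb.blk.blk.1
    set B : G → ℂ := PP.ext0 (Cu z) (eh M (fun t : Cu z => b t)) with hB
    have hBx : Ix (Cu z) B := by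
      refine ⟨fun x hx => H46.ext0_of_not_mem _ hx, ?_⟩
      rw [hB, H46.restr_ext0]
      exact hbi
    have hBR : ∀ g, B g ∈ RM M := by
      intro g
      by_cases hg : g ∈ Cu z
      · rw [hB, H46.ext0_of_mem _ hg]
        exact (hbv _).1
      · rw [hBx.supp g hg]
        exact (RM M).zero_mem
    have hBr : rd M B = b := by
      funext g
      unfold rd
      by_cases hg : g ∈ Cu z
      · rw [hB, H46.ext0_of_mem _ hg]
        exact (hbv _).2
      · rw [hBx.supp g hg, hb.blk.supp g hg]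
        exact rr_zero
    have hcomm : mulF j B = mulF B j :=
      mulF_comm_of (K := Cu z) hjs fun k hk => hBx.inv hk
    have hJ : ma j * ma j = ma j := by rw [← ma_mul, hj.id]
    have hBB : ma B * ma B = ma B := by rw [← ma_mul, hBx.mul]
    have hC : ma B * ma j = ma j * ma B := by rw [← ma_mul, ← ma_mul, hcomm]
    have hp0 : j - mulF j B = 0 := by
      refine idem_zero (M := M) (p := j - mulF j B) ?_ ?_ ?_
      · intro g
        exact (RM M).sub_mem (hj.rm g) (mulF_RM hj.rm hBR g)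
      · intro g
        change rr M (j g - mulF j B g) = 0
        rw [rr_sub (hj.rm g) (mulF_RM hj.rm hBR g)]
        have h1 : rr M (mulF j B g) = mulF (rd M j) (rd M B) g := by
          rw [← rd_mulF hj.rm hBR]
          rfl
        have h2 : rr M (j g) = rd M j g := rfl
        rw [h1, h2, hBr, hjx, hi.lb z hz b hb, sub_self]
      · apply ma_injective
        rw [ma_mul, ma_sub, ma_mul]
        have e1 : ma j * ma B * ma j = ma j * ma B := by
          rw [mul_assoc, hC, ← mul_assoc, hJ]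
        have e2 : ma j * ma B * (ma j * ma B) = ma j * ma B := by
          rw [← mul_assoc, e1, mul_assoc, hBB]
        rw [sub_mul, mul_sub, mul_sub, hJ, e1, e2, ← mul_assoc, hJ, sub_self, sub_zero]
    have h3 : j = mulF j B := sub_eq_zero.1 hp0
    exact h3.symm
  · intro th hth
    have hE : El ℓ z := by
      obtain ⟨k, hk⟩ := hL.tp.pg ⟨z, hz⟩
      exact ⟨k, congrArg Subtype.val hk⟩
    exact smi ℓ M hM G z hE i j hi.ip.rm hi.ip.id (hi.ip.iv z hz) hj.rm hj.id hjs hjr th hth

end Pool.Agent.PP.T8.H28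
end
end -- Pool.Agent.Helper28_AT8.LCL

section -- Pool.Agent.Helper60_AT8.GEQ

/-!
# Squad AT8, row GEQ: compatibility with the power map
-/

open scoped BigOperators

noncomputable section

namespace Pool.Agent.PP.T8.H60

open Pool.Agent.Helper51_AWC Pool.Agent.Helper79_WRA Pool.Agent.PP Pool.Agent.PP.KF
open Pool.Agent.PP.K9 Pool.Agent.PP.K9.H97 Pool.Agent.PP.H75 Pool.Agent.PP.T3 Pool.Agent.PP.T2

attribute [local instance] Ideal.Quotient.field

/-- sums of functions supported on a subgroup -/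
theorem fsum_supp {G A : Type} [Group G] [Finite G] [AddCommMonoid A] (C : Subgroup G) (f : G → A)
    (h : ∀ g, g ∉ C → f g = 0) : ∑ᶠ g, f g = ∑ᶠ c : C, f c := by
  classical
  have h1 : ∑ᶠ g, f g = ∑ᶠ (g) (_ : g ∈ C), f g := by
    apply finsum_congr
    intro g
    by_cases hg : g ∈ C
    · rw [finsum_eq_if, if_pos hg]
    · rw [finsum_eq_if, if_neg hg, h g hg]
  rw [h1]
  exact (finsum_subtype_eq_finsum_cond (fun g => g ∈ C)).symm

theorem cu_pow {G : Type} [Group G] [Finite G] (z : G) {N : ℕ} (hN : N.Coprime (Nat.card G)) :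
    Cu (z ^ N) = Cu z := by
  ext g
  rw [Subgroup.mem_centralizer_singleton_iff, Subgroup.mem_centralizer_singleton_iff]
  constructor
  · intro h
    obtain ⟨k, hk⟩ := exists_pow_eq_self_of_coprime
      (Nat.Coprime.coprime_dvd_right (orderOf_dvd_natCard z) hN)
    have h1 : Commute g (z ^ N) := h
    have h2 := h1.pow_right k
    rw [hk] at h2
    exact h2
  · intro h
    have h1 : Commute g z := h
    exact (h1.pow_right N).eq

theorem geq (lft : LftStmt) (smi : SmiStmt) (prj : PrjStmt) : GeqStmt := by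
  intro ℓ _ M _ hM G _ _ N hN V hV hab i hi χ hχ z hz
  have hF : GoodF ℓ (FF M) := H50.fld ℓ Fact.out M hM
  have hzp : IsPGroup ℓ (Subgroup.zpowers z) := hV.to_le (Subgroup.zpowers_le.2 hz)
  have hcu := cu_pow z hN.cop
  have hzi : ∀ x, rd M i (z * x * z⁻¹) = rd M i x := by
    intro x
    unfold rd
    rw [hi.iv z hz]
  have hxx : mulF (rs (Cu z) (rd M i)) (rs (Cu z) (rd M i)) = rs (Cu z) (rd M i) := by
    rw [← H28.rs_mulF hF hzp hzi hzi, ← H28.rd_mulF hi.rm hi.rm, hi.id]
  have hxs : ∀ g, g ∉ Cu z → rs (Cu z) (rd M i) g = 0 := by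
    intro g hg
    unfold rs
    rw [if_neg hg]
  have hxin : ∀ g, g ∈ Cu z → rs (Cu z) (rd M i) g = rd M i g := by
    intro g hg
    unfold rs
    rw [if_pos hg]
  obtain ⟨j, hj, hjs, hjx⟩ := lft M G ⊥ (Cu z) (rs (Cu z) (rd M i)) hxx hxs (by
    intro v hv g
    rw [Subgroup.mem_bot] at hv
    rw [hv, one_mul, inv_one, mul_one])
  have hjr : ∀ g ∈ Cu z, rr M (j g) = rr M (i g) := by
    intro g hg
    have h1 := congrFun hjx g
    rw [hxin g hg] at h1
    exact h1
  have hel : ∀ y ∈ V, El ℓ y := by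
    intro y hy
    obtain ⟨n, hn⟩ := hV ⟨y, hy⟩
    refine ⟨n, ?_⟩
    have := congrArg Subtype.val hn
    simpa using this
  have hcl : ∀ x y, χ (y * x * y⁻¹) = χ x := fun x y => irr_conj hχ x y
  have hcl' : ∀ x y, (fun g => χ (g ^ N)) (y * x * y⁻¹) = (fun g => χ (g ^ N)) x := by
    intro x y
    show χ ((y * x * y⁻¹) ^ N) = χ (x ^ N)
    rw [conj_pow, hcl]
  have s1 := smi ℓ M hM G z (hel z hz) i j hi.rm hi.id (hi.iv z hz) hj.rm hj.id hjs hjr
    (fun g => χ (g ^ N)) hcl'
  have s2 := smi ℓ M hM G (z ^ N) (hel _ (V.pow_mem hz N)) i j hi.rm hi.id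
    (hi.iv _ (V.pow_mem hz N)) hj.rm hj.id (by rw [hcu]; exact hjs) (by rw [hcu]; exact hjr) χ hcl
  rw [s1, s2]
  -- restriction to `C(z)`
  have e1 : fv j (z ^ N) χ = ∑ᶠ c : Cu z, j c * χ (z ^ N * c) := by
    unfold fv
    exact fsum_supp (Cu z) (fun g => j g * χ (z ^ N * g)) (fun g hg => by
      rw [hjs g hg, zero_mul])
  have e2 : fv j z (fun g => χ (g ^ N)) = ∑ᶠ c : Cu z, j c * χ ((z * c) ^ N) := by
    unfold fv
    exact fsum_supp (Cu z) (fun g => j g * χ ((z * g) ^ N)) (fun g hg => by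
      rw [hjs g hg, zero_mul])
  have hid : mulF (fun c : Cu z => j c) (fun c : Cu z => j c) = fun c : Cu z => j c := by
    funext c
    have h1 := congrFun hj.id (c : G)
    unfold mulF at h1 ⊢
    rw [fsum_supp (Cu z) (fun t => j t * j (t⁻¹ * (c : G))) (fun g hg => by
      rw [hjs g hg, zero_mul])] at h1
    exact h1
  have hp := prj ℓ M hM (Cu z) (fun c => j c) (fun c => hj.rm c) hid
    (fun c => χ (z ^ N * c) - χ ((z * c) ^ N)) ?_ ?_
  · have hfin := Fintype.ofFinite (Cu z)
    rw [e1, e2, finsum_eq_sum_of_fintype, finsum_eq_sum_of_fintype, ← sub_eq_zero,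
      ← Finset.sum_sub_distrib]
    rw [finsum_eq_sum_of_fintype] at hp
    rw [← hp]
    refine Finset.sum_congr rfl fun c _ => ?_
    rw [mul_sub]
  · intro x y
    have hyz : (y : G) * z = z * y := Subgroup.mem_centralizer_singleton_iff.1 y.2
    have hc : Commute (y : G) z := hyz
    have h1 : z ^ N * ((y : G) * x * (y : G)⁻¹) = y * (z ^ N * x) * (y : G)⁻¹ := by
      have h2 : (y : G) * z ^ N = z ^ N * y := (hc.pow_right N).eq
      rw [← mul_assoc (y : G) (z ^ N), h2]
      group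
    have h3 : z * ((y : G) * x * (y : G)⁻¹) = y * (z * x) * (y : G)⁻¹ := by
      rw [← mul_assoc (y : G) z, hyz]
      group
    show χ (z ^ N * ((y : G) * x * (y : G)⁻¹)) - χ ((z * ((y : G) * x * (y : G)⁻¹)) ^ N) =
      χ (z ^ N * x) - χ ((z * x) ^ N)
    rw [h1, h3, conj_pow, hcl, hcl]
  · intro x hx
    show χ (z ^ N * x) - χ ((z * x) ^ N) = 0
    have hc : Commute z (x : G) := (Subgroup.mem_centralizer_singleton_iff.1 x.2).symm
    have hx' : Reg ℓ (x : G) := by
      unfold Reg at hx ⊢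
      rwa [Subgroup.orderOf_coe]
    rw [hc.mul_pow, hN.reg _ hx', sub_self]

end Pool.Agent.PP.T8.H60
end
end -- Pool.Agent.Helper60_AT8.GEQ

section -- Pool.Agent.Helper95_AT10.TV

/-!
# Squad AT10, rows TVA, TVC, FIA, FIC: additivity and conjugation of the values
-/

set_option autoImplicit false
set_option linter.unusedSectionVars false

open scoped BigOperators

noncomputable section

namespace Pool.Agent.PP.T10.H95

open Pool.Agent.Helper51_AWC Pool.Agent.Helper79_WRA Pool.Agent.PP Pool.Agent.PP.KF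
open Pool.Agent.PP.K9 Pool.Agent.PP.K9.H97 Pool.Agent.PP.H75 Pool.Agent.PP.T3 Pool.Agent.PP.T2
open Pool.Agent.PP.T5 Pool.Agent.PP.TB
open Pool.Agent.PP.T8 (rs pw fv rd Ip Rv)

attribute [local instance] Ideal.Quotient.field

section

variable {M : Ideal (integralClosure ℤ ℂ)} [M.IsMaximal] {G : Type} [Group G] [Finite G]

theorem mem_cu {u x : G} : x ∈ Cu u ↔ u * x = x * u := by
  rw [Subgroup.mem_centralizer_iff]
  constructor
  · intro h
    exact h u rfl
  · rintro h y hy
    rw [Set.mem_singleton_iff] at hy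
    rw [hy]
    exact h

theorem mem_cu' {u x : G} : x ∈ Cu u ↔ u * x * u⁻¹ = x := by
  rw [mem_cu, mul_inv_eq_iff_eq_mul]

theorem conj_mem_cu {u g x : G} : x ∈ Cu (g * u * g⁻¹) ↔ g⁻¹ * x * g ∈ Cu u := by
  rw [mem_cu, mem_cu]
  constructor
  · intro h
    have h2 : g⁻¹ * (g * u * g⁻¹ * x) * g = g⁻¹ * (x * (g * u * g⁻¹)) * g := by rw [h]
    calc u * (g⁻¹ * x * g) = g⁻¹ * (g * u * g⁻¹ * x) * g := by group
      _ = g⁻¹ * (x * (g * u * g⁻¹)) * g := h2
      _ = g⁻¹ * x * g * u := by group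
  · intro h
    have h2 : g * (u * (g⁻¹ * x * g)) * g⁻¹ = g * (g⁻¹ * x * g * u) * g⁻¹ := by rw [h]
    calc g * u * g⁻¹ * x = g * (u * (g⁻¹ * x * g)) * g⁻¹ := by group
      _ = g * (g⁻¹ * x * g * u) * g⁻¹ := h2
      _ = x * (g * u * g⁻¹) := by group

/-- a function with support in the centraliser commutes -/
theorem iv_of_supp {F : Type} [Zero F] {u : G} {a : G → F} (h : ∀ x, x ∉ Cu u → a x = 0) (x : G) :
    a (u * x * u⁻¹) = a x := by
  by_cases hx : x ∈ Cu u
  · rw [mem_cu'.1 hx]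
  · rw [h x hx]
    apply h
    intro h1
    apply hx
    rw [mem_cu'] at h1 ⊢
    have h2 : u * x * u⁻¹ * u = u * (u * x * u⁻¹) * u⁻¹ * u := by rw [h1]
    have h3 : u * x = u * (u * x * u⁻¹) := by
      calc u * x = u * x * u⁻¹ * u := by group
        _ = u * (u * x * u⁻¹) * u⁻¹ * u := h2
        _ = u * (u * x * u⁻¹) := by group
    exact (mul_left_cancel h3).symm

theorem rs_supp {F : Type} [Zero F] {C : Subgroup G} {a : G → F} (h : ∀ x, x ∉ C → a x = 0) :
    rs C a = a := by
  funext x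
  unfold rs
  split_ifs with hx
  · rfl
  · exact (h x hx).symm

theorem rs_out {F : Type} [Zero F] {C : Subgroup G} {a : G → F} {x : G} (h : x ∉ C) :
    rs C a x = 0 := by
  unfold rs
  rw [if_neg h]

theorem rs_in {F : Type} [Zero F] {C : Subgroup G} {a : G → F} {x : G} (h : x ∈ C) :
    rs C a x = a x := by
  unfold rs
  rw [if_pos h]

theorem rs_add {F : Type} [Field F] {C : Subgroup G} (a b : G → F) :
    rs C (a + b) = rs C a + rs C b := by
  funext x
  by_cases hx : x ∈ C
  · rw [rs_in hx, Pi.add_apply, Pi.add_apply, rs_in hx, rs_in hx]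
  · rw [rs_out hx, Pi.add_apply, rs_out hx, rs_out hx, add_zero]

theorem rs_zero {F : Type} [Field F] {C : Subgroup G} : rs C (0 : G → F) = 0 := by
  funext x
  by_cases hx : x ∈ C
  · rw [rs_in hx]
  · rw [rs_out hx]
    rfl

theorem add_mulF {F : Type} [Field F] (a b c : G → F) :
    mulF (a + b) c = mulF a c + mulF b c := by
  apply ma_injective
  rw [ma_mul, ma_add, ma_add, ma_mul, ma_mul, add_mul]

theorem rd_zero : rd M (0 : G → ℂ) = 0 := by
  funext g
  exact rr_zero

theorem rd_supp {C : Subgroup G} {i : G → ℂ} (h : ∀ g, g ∉ C → i g = 0) :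
    ∀ g, g ∉ C → rd M i g = 0 := by
  intro g hg
  unfold rd
  rw [h g hg, rr_zero]

theorem fv_add (i i' : G → ℂ) (z : G) (th : G → ℂ) :
    fv (i + i') z th = fv i z th + fv i' z th := by
  have := Fintype.ofFinite G
  unfold fv
  rw [finsum_eq_sum_of_fintype, finsum_eq_sum_of_fintype, finsum_eq_sum_of_fintype,
    ← Finset.sum_add_distrib]
  refine Finset.sum_congr rfl fun g _ => ?_
  rw [Pi.add_apply, add_mul]

end

theorem tva (hTVS : TvsStmt) (hLF2 : Lf2Stmt) : TvaStmt := by
  intro ℓ _ M _ hM G _ _ u hu j₁ j₂ h11 h22 h12 h21 hs1 hs2 th hth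
  obtain ⟨hlift, hval, -⟩ := hTVS ℓ M hM G u hu
  have hj : mulF (j₁ + j₂) (j₁ + j₂) = j₁ + j₂ := by
    apply ma_injective
    rw [ma_mul, ma_add, add_mul, mul_add, mul_add, ← ma_mul, ← ma_mul, ← ma_mul, ← ma_mul, h11, h12,
      h21, h22, ma_zero, add_zero, zero_add]
  have hjs : ∀ g, g ∉ Cu u → (j₁ + j₂) g = 0 := by
    intro g hg
    rw [Pi.add_apply, hs1 g hg, hs2 g hg, add_zero]
  obtain ⟨i, hI, his⟩ := hlift (j₁ + j₂) hj hjs
  have hird : rd M i = j₁ + j₂ := by
    rw [← hI.rd, rs_supp (rd_supp his)]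
  have hIp : Ip M ⊥ i := by
    refine ⟨hI.rm, hI.id, ?_⟩
    intro v hv x
    rw [Subgroup.mem_bot.1 hv, one_mul, inv_one, mul_one]
  obtain ⟨i₁, hI1, hi1s, hi1rd, hii1, hi1i⟩ := hLF2 M G ⊥ (Cu u) i hIp his j₁ h11 hs1 (by
    intro v hv g
    rw [Subgroup.mem_bot.1 hv, one_mul, inv_one, mul_one]) (by
    rw [hird]
    apply ma_injective
    rw [ma_mul, ma_add, add_mul, ← ma_mul, ← ma_mul, h11, h21, ma_zero, add_zero]) (by
    rw [hird]
    apply ma_injective
    rw [ma_mul, ma_add, mul_add, ← ma_mul, ← ma_mul, h11, h12, ma_zero, add_zero])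
  set i₂ : G → ℂ := i - i₁ with hi2
  have hi2s : ∀ g, g ∉ Cu u → i₂ g = 0 := by
    intro g hg
    rw [hi2, Pi.sub_apply, his g hg, hi1s g hg, sub_zero]
  have hI1' : Il M u j₁ i₁ := ⟨hI1.rm, hI1.id, iv_of_supp hi1s, by
    rw [hi1rd, rs_supp hs1]⟩
  have hI2' : Il M u j₂ i₂ := by
    refine ⟨?_, ?_, iv_of_supp hi2s, ?_⟩
    · intro g
      exact (RM M).sub_mem (hI.rm g) (hI1.rm g)
    · apply ma_injective
      rw [ma_mul, hi2, ma_sub, sub_mul, mul_sub, mul_sub, ← ma_mul, ← ma_mul, ← ma_mul, ← ma_mul,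
        hI.id, hii1, hi1i, hI1.id, sub_self, sub_zero]
    · have h1 : rd M i₂ = j₂ := by
        funext g
        have h2 : rd M i₂ g = rd M i g - rd M i₁ g := by
          unfold rd
          rw [hi2, Pi.sub_apply, rr_sub (hI.rm g) (hI1.rm g)]
        rw [h2, hird, hi1rd, Pi.add_apply]
        ring
      rw [h1, rs_supp hs2]
  have hsum : i = i₁ + i₂ := by
    rw [hi2]
    ring
  rw [hval _ i hI th hth, hval _ i₁ hI1' th hth, hval _ i₂ hI2' th hth, ← fv_add, ← hsum]

theorem tvc (hTVS : TvsStmt) : TvcStmt := by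
  intro ℓ _ M _ hM G _ _ u g hu j hj hjs th hth
  obtain ⟨hlift, hval, -⟩ := hTVS ℓ M hM G u hu
  obtain ⟨i, hI, his⟩ := hlift j hj hjs
  have hu' : El ℓ (g * u * g⁻¹) := by
    obtain ⟨n, hn⟩ := hu
    refine ⟨n, ?_⟩
    rw [conj_pow, hn, mul_one, mul_inv_cancel]
  obtain ⟨-, hval', -⟩ := hTVS ℓ M hM G (g * u * g⁻¹) hu'
  have hI' : Il M (g * u * g⁻¹) (cj g j) (cj g i) := by
    refine ⟨fun x => hI.rm _, ?_, ?_, ?_⟩
    · rw [← cj_mulF, hI.id]
    · intro x
      unfold cj
      have h1 : g⁻¹ * (g * u * g⁻¹ * x * (g * u * g⁻¹)⁻¹) * g = u * (g⁻¹ * x * g) * u⁻¹ := by group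
      rw [h1, hI.iv]
    · rw [← hI.rd]
      funext x
      by_cases hx : x ∈ Cu (g * u * g⁻¹)
      · rw [rs_in hx]
        unfold cj
        rw [rs_in (conj_mem_cu.1 hx)]
        rfl
      · rw [rs_out hx]
        unfold cj
        rw [rs_out fun h => hx (conj_mem_cu.2 h)]
  rw [hval' _ _ hI' th hth, hval _ i hI th hth]
  have := Fintype.ofFinite G
  unfold fv
  rw [finsum_eq_sum_of_fintype, finsum_eq_sum_of_fintype]
  refine Fintype.sum_equiv (MulAut.conj g⁻¹).toEquiv _ _ fun x => ?_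
  have h1 : (MulAut.conj g⁻¹).toEquiv x = g⁻¹ * x * g := by
    simp
  rw [h1]
  unfold cj
  congr 1
  have h2 : g * u * g⁻¹ * x = g * (u * (g⁻¹ * x * g)) * g⁻¹ := by group
  rw [h2, hth]

section

variable {M : Ideal (integralClosure ℤ ℂ)} [M.IsMaximal] {G : Type} [Group G] [Finite G]

theorem pgroup_zpowers {ℓ : ℕ} {u : G} (hu : El ℓ u) : IsPGroup ℓ (Subgroup.zpowers u) := by
  obtain ⟨n, hn⟩ := hu
  rintro ⟨x, hx⟩
  obtain ⟨m, rfl⟩ := Subgroup.mem_zpowers_iff.1 hx
  refine ⟨n, Subtype.ext ?_⟩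
  show (u ^ m) ^ ℓ ^ n = 1
  rw [← zpow_natCast, ← zpow_mul, mul_comm, zpow_mul, zpow_natCast, hn, one_zpow]

/-- a central idempotent of `F C(u)` commutes with the functions supported on `C(u)` -/
theorem ix_comm {u : G} {b : G → FF M} (hb : Ix (Cu u) b) {a : G → FF M}
    (ha : ∀ x, x ∉ Cu u → a x = 0) : mulF a b = mulF b a := by
  have h1 : (fun t : Cu u => mulF a b t) = fun t : Cu u => mulF b a t := by
    rw [H66.mulF_sub ha, H66.mulF_sub hb.supp]
    exact (H46.mulF_comm hb.idem.1 _).symm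
  funext x
  by_cases hx : x ∈ Cu u
  · exact congrFun h1 ⟨x, hx⟩
  · rw [mulF_supp (Cu u) ha hb.supp x hx, mulF_supp (Cu u) hb.supp ha x hx]

theorem ix_idem {u : G} {b : G → FF M} (hb : Ix (Cu u) b) : mulF b b = b := by
  have h1 : (fun t : Cu u => mulF b b t) = fun t : Cu u => b t := by
    rw [H66.mulF_sub hb.supp]
    exact hb.idem.2
  funext x
  by_cases hx : x ∈ Cu u
  · exact congrFun h1 ⟨x, hx⟩
  · rw [mulF_supp (Cu u) hb.supp hb.supp x hx, hb.supp x hx]

/-- products with a central idempotent -/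
theorem mul_ix {u : G} {b : G → FF M} (hb : Ix (Cu u) b) {a c : G → FF M}
    (hc : ∀ x, x ∉ Cu u → c x = 0) :
    mulF (mulF a b) (mulF c b) = mulF (mulF a c) b := by
  have h1 := ix_comm hb hc
  apply ma_injective
  have h2 : ma b * ma c = ma c * ma b := by rw [← ma_mul, ← ma_mul, h1]
  have h3 : ma b * ma b = ma b := by rw [← ma_mul, ix_idem hb]
  rw [ma_mul, ma_mul, ma_mul, ma_mul, ma_mul]
  calc ma a * ma b * (ma c * ma b) = ma a * (ma b * ma c) * ma b := by
        simp only [mul_assoc]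
    _ = ma a * ma c * (ma b * ma b) := by
        rw [h2]
        simp only [mul_assoc]
    _ = ma a * ma c * ma b := by rw [h3]

theorem rs_supp' {u : G} (a : G → FF M) : ∀ x, x ∉ Cu u → rs (Cu u) a x = 0 :=
  fun _ hx => rs_out hx

end

theorem fia (hTVA : TvaStmt) : FiaStmt := by
  intro ℓ _ M _ hM G _ _ ι _ c β hβ χ hχ u hu i₁ i₂ h11 h22 h12 h21 hv1 hv2
  have hF : GoodF ℓ (FF M) := H50.fld ℓ Fact.out M hM
  have hup := pgroup_zpowers hu
  have := Fintype.ofFinite ι
  have hth : ∀ x y, χ (y * x * y⁻¹) = χ x := fun x y => Pool.Agent.Helper51_AWC.irr_conj hχ x y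
  unfold fi
  rw [finsum_eq_sum_of_fintype, finsum_eq_sum_of_fintype, finsum_eq_sum_of_fintype,
    ← Finset.sum_add_distrib]
  refine Finset.sum_congr rfl fun k _ => ?_
  have hb := hβ.ix k u
  rw [rs_add, add_mulF, ← mul_add]
  congr 1
  refine hTVA ℓ M hM G u hu _ _ ?_ ?_ ?_ ?_ ?_ ?_ χ hth
  · rw [mul_ix hb (rs_supp' _), ← T8.H28.rs_mulF hF hup hv1 hv1, h11]
  · rw [mul_ix hb (rs_supp' _), ← T8.H28.rs_mulF hF hup hv2 hv2, h22]
  · rw [mul_ix hb (rs_supp' _), ← T8.H28.rs_mulF hF hup hv1 hv2, h12, rs_zero, mulF_zero_left]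
  · rw [mul_ix hb (rs_supp' _), ← T8.H28.rs_mulF hF hup hv2 hv1, h21, rs_zero, mulF_zero_left]
  · exact mulF_supp (Cu u) (rs_supp' _) hb.supp
  · exact mulF_supp (Cu u) (rs_supp' _) hb.supp

theorem fic (hTVC : TvcStmt) : FicStmt := by
  intro ℓ _ M _ hM G _ _ ι _ c β hβ χ hχ u g hu i hii hiv
  have hF : GoodF ℓ (FF M) := H50.fld ℓ Fact.out M hM
  have hup := pgroup_zpowers hu
  have := Fintype.ofFinite ι
  have hth : ∀ x y, χ (y * x * y⁻¹) = χ x := fun x y => Pool.Agent.Helper51_AWC.irr_conj hχ x y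
  unfold fi
  rw [finsum_eq_sum_of_fintype, finsum_eq_sum_of_fintype]
  refine Finset.sum_congr rfl fun k _ => ?_
  have hb := hβ.ix k u
  have h1 : rs (Cu (g * u * g⁻¹)) (cj g i) = cj g (rs (Cu u) i) := by
    funext x
    by_cases hx : x ∈ Cu (g * u * g⁻¹)
    · rw [rs_in hx]
      unfold cj
      rw [rs_in (conj_mem_cu.1 hx)]
    · rw [rs_out hx]
      unfold cj
      rw [rs_out fun h => hx (conj_mem_cu.2 h)]
  rw [h1, hβ.eq, ← cj_mulF]
  congr 1
  refine hTVC ℓ M hM G u g hu _ ?_ ?_ χ hth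
  · rw [mul_ix hb (rs_supp' _), ← T8.H28.rs_mulF hF hup hiv hiv, hii]
  · exact mulF_supp (Cu u) (rs_supp' _) hb.supp

end Pool.Agent.PP.T10.H95
end
end -- Pool.Agent.Helper95_AT10.TV

section -- Pool.Agent.Helper45_AT10.TVS

/-!
# Squad AT10, row TVS: the values `tv` are well defined
-/

set_option autoImplicit false

open scoped BigOperators

noncomputable section

namespace Pool.Agent.PP.T10.H45

open Pool.Agent.Helper51_AWC Pool.Agent.Helper79_WRA Pool.Agent.PP Pool.Agent.PP.KF
open Pool.Agent.PP.K9 Pool.Agent.PP.K9.H97 Pool.Agent.PP.H75 Pool.Agent.PP.T3 Pool.Agent.PP.T2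
open Pool.Agent.PP.T5 Pool.Agent.PP.TB
open Pool.Agent.PP.T8 (rs pw fv rd Ip Rv)

attribute [local instance] Ideal.Quotient.field

theorem tvs (lft : T8.LftStmt) (smi : T8.SmiStmt) : TvsStmt := by
  intro ℓ _ M _ hM G _ _ u hu
  have hF : GoodF ℓ (FF M) := H50.fld ℓ Fact.out M hM
  have hup := H95.pgroup_zpowers hu
  have h1 : ∀ j : G → FF M, mulF j j = j → (∀ g, g ∉ Cu u → j g = 0) →
      ∃ i, Il M u j i ∧ ∀ g, g ∉ Cu u → i g = 0 := by
    intro j hj hs
    obtain ⟨i, hI, his, hrd⟩ := lft M G ⊥ (Cu u) j hj hs (by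
      intro v hv g
      rw [Subgroup.mem_bot.1 hv, one_mul, inv_one, mul_one])
    exact ⟨i, ⟨hI.rm, hI.id, H95.iv_of_supp his, by rw [hrd, H95.rs_supp hs]⟩, his⟩
  have h2 : ∀ (j : G → FF M) (i : G → ℂ), Il M u j i →
      mulF j j = j ∧ ∀ g, g ∉ Cu u → j g = 0 := by
    intro j i hI
    constructor
    · have hiv : ∀ x, rd M i (u * x * u⁻¹) = rd M i x := by
        intro x
        unfold rd
        rw [hI.iv]
      rw [← hI.rd, ← T8.H28.rs_mulF hF hup hiv hiv, ← T8.H28.rd_mulF hI.rm hI.rm, hI.id]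
    · intro g hg
      rw [← hI.rd, H95.rs_out hg]
  have h3 : ∀ (j : G → FF M) (i i' : G → ℂ), Il M u j i → Il M u j i' →
      ∀ th : G → ℂ, (∀ x y, th (y * x * y⁻¹) = th x) → fv i u th = fv i' u th := by
    intro j i i' hI hI' th hth
    obtain ⟨j', hJ, hJs⟩ := h1 j (h2 j i hI).1 (h2 j i hI).2
    have key : ∀ i : G → ℂ, Il M u j i → fv i u th = fv j' u th := by
      intro i hI
      refine smi ℓ M hM G u hu i j' hI.rm hI.id hI.iv hJ.rm hJ.id hJs (fun g hg => ?_) th hth
      have e1 := congrFun hI.rd g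
      have e2 := congrFun hJ.rd g
      rw [H95.rs_in hg] at e1 e2
      exact e2.trans e1.symm
    rw [key i hI, key i' hI']
  have h4 : ∀ (j : G → FF M) (i : G → ℂ), Il M u j i → ∀ th : G → ℂ,
      (∀ x y, th (y * x * y⁻¹) = th x) → tv M u j th = fv i u th := by
    intro j i hI th hth
    have hex : ∃ i, Il M u j i := ⟨i, hI⟩
    unfold tv
    rw [dif_pos hex]
    exact h3 j _ _ hex.choose_spec hI th hth
  refine ⟨h1, h4, ?_⟩
  intro th hth
  have h0 : Il M u (0 : G → FF M) (0 : G → ℂ) := by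
    refine ⟨fun g => (RM M).zero_mem, mulF_zero_left _, fun x => rfl, ?_⟩
    rw [H95.rd_zero, H95.rs_zero]
  rw [h4 0 0 h0 th hth]
  unfold fv
  simp

end Pool.Agent.PP.T10.H45
end
end -- Pool.Agent.Helper45_AT10.TVS

section -- Pool.Agent.Helper56_AT10.LF2

/-!
# Squad AT10, LF2: idempotents can be lifted under a given idempotent
-/

open scoped BigOperators

noncomputable section

namespace Pool.Agent.PP.T10.H56

open Pool.Agent.Helper51_AWC Pool.Agent.Helper79_WRA Pool.Agent.PP Pool.Agent.PP.KF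
open Pool.Agent.PP.K9 Pool.Agent.PP.K9.H97 Pool.Agent.PP.H75 Pool.Agent.PP.T3 Pool.Agent.PP.T2
open Pool.Agent.PP.T5 Pool.Agent.PP.TB Pool.Agent.PP.T8.H27
open Pool.Agent.PP.T8 (rs pw fv rd Ip Rv)

attribute [local instance] Ideal.Quotient.field

section gen

variable {F G : Type} [Field F] [Group G] [Finite G]

theorem mul_out (C : Subgroup G) {a b : G → F} (ha : ∀ g, g ∉ C → a g = 0)
    (hb : ∀ g, g ∉ C → b g = 0) : ∀ g, g ∉ C → mulF a b g = 0 := by
  intro g hg
  have := Fintype.ofFinite G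
  unfold mulF
  rw [finsum_eq_sum_of_fintype]
  apply Finset.sum_eq_zero
  intro t _
  by_cases ht : t ∈ C
  · rw [hb, mul_zero]
    intro h
    apply hg
    have := C.mul_mem ht h
    rwa [mul_inv_cancel_left] at this
  · rw [ha t ht, zero_mul]

theorem mul_iv (V : Subgroup G) {a b : G → F} (ha : ∀ v ∈ V, ∀ g, a (v * g * v⁻¹) = a g)
    (hb : ∀ v ∈ V, ∀ g, b (v * g * v⁻¹) = b g) :
    ∀ v ∈ V, ∀ g, mulF a b (v * g * v⁻¹) = mulF a b g := by
  intro v hv g
  have h := H17.mulF_comp (MulAut.conj v) a b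
  have h1 : (fun y => a ((MulAut.conj v) y)) = a := funext fun y => ha v hv y
  have h2 : (fun y => b ((MulAut.conj v) y)) = b := funext fun y => hb v hv y
  rw [h1, h2] at h
  exact (congrFun h g).symm

theorem comm_aeval {R B : Type} [CommRing R] [Ring B] [Algebra R B] {a x : B} (h : Commute a x)
    (p : Polynomial R) : Commute a (Polynomial.aeval x p) := by
  induction p using Polynomial.induction_on' with
  | add p q hp hq =>
    rw [map_add]
    exact hp.add_right hq
  | monomial n c =>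
    rw [Polynomial.aeval_monomial]
    exact Commute.mul_right (Algebra.commutes c a).symm (h.pow_right n)

end gen

theorem lf2 : Lf2Stmt := by
  intro M hM G _ _ V C i hi hiC x hx hxC hxV hix hxi
  classical
  have := Fintype.ofFinite G
  -- a section of the residue map
  obtain ⟨s, hs0, hs⟩ : ∃ s : FF M → RM M, s 0 = 0 ∧ ∀ c, rrHom M (s c) = c := by
    have h1 : ∀ c : FF M, ∃ z : RM M, rrHom M z = c := by
      intro c
      obtain ⟨z, hz, h⟩ := rr_surj c
      exact ⟨⟨z, hz⟩, h⟩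
    choose s hs using h1
    refine ⟨fun c => if c = 0 then 0 else s c, if_pos rfl, fun c => ?_⟩
    by_cases hc : c = 0
    · simp only [hc, if_true, map_zero]
    · simp only [hc, if_false, hs]
  obtain ⟨X, hX⟩ : ∃ X : MonoidAlgebra (RM M) G,
      X = MonoidAlgebra.ofCoeff (Finsupp.equivFunOnFinite.symm fun g => s (x g)) := ⟨_, rfl⟩
  have hXc : ∀ g, X.coeff g = s (x g) := by
    intro g
    rw [hX]
    rfl
  obtain ⟨I, hI⟩ : ∃ I : MonoidAlgebra (RM M) G,
      I = MonoidAlgebra.ofCoeff (Finsupp.equivFunOnFinite.symm fun g => (⟨i g, hi.rm g⟩ : RM M)) :=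
    ⟨_, rfl⟩
  have hIc : ∀ g, I.coeff g = (⟨i g, hi.rm g⟩ : RM M) := by
    intro g
    rw [hI]
    rfl
  have hfin : Module.Finite (RM M) (MonoidAlgebra (RM M) G) := by
    let E : (G → RM M) ≃ₗ[RM M] MonoidAlgebra (RM M) G :=
      { toFun := fun a => MonoidAlgebra.ofCoeff (Finsupp.equivFunOnFinite.symm a)
        invFun := fun y => fun h => y.coeff h
        left_inv := fun _ => rfl
        right_inv := by
          intro y
          apply MonoidAlgebra.coeff_injective
          ext g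
          rfl
        map_add' := by
          intro a b
          apply MonoidAlgebra.coeff_injective
          ext g
          rfl
        map_smul' := by
          intro c a
          apply MonoidAlgebra.coeff_injective
          ext g
          rfl }
    exact Module.Finite.equiv E
  have hψX : MonoidAlgebra.mapRingHom G (rrHom M) X = H20.toMA x := by
    apply MonoidAlgebra.coeff_injective
    ext g
    rw [H20.toMA_coeff, MonoidAlgebra.coeff_mapRingHom]
    rw [hXc]
    exact hs _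
  have hψI : MonoidAlgebra.mapRingHom G (rrHom M) I = H20.toMA (rd M i) := by
    apply MonoidAlgebra.coeff_injective
    ext g
    rw [H20.toMA_coeff, MonoidAlgebra.coeff_mapRingHom]
    rw [hIc]
    rfl
  have hιX : MonoidAlgebra.mapRingHom G (RM M).subtype X = H20.toMA fun g => (s (x g) : ℂ) := by
    apply MonoidAlgebra.coeff_injective
    ext g
    rw [H20.toMA_coeff, MonoidAlgebra.coeff_mapRingHom]
    rw [hXc]
    rfl
  have hιI : MonoidAlgebra.mapRingHom G (RM M).subtype I = H20.toMA i := by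
    apply MonoidAlgebra.coeff_injective
    ext g
    rw [H20.toMA_coeff, MonoidAlgebra.coeff_mapRingHom]
    rw [hIc]
    rfl
  have hinj : Function.Injective (MonoidAlgebra.mapRingHom G (RM M).subtype) := by
    intro a b hab
    apply MonoidAlgebra.coeff_injective
    ext g
    have h1 := congrArg (fun z => z.coeff g) hab
    simp only [MonoidAlgebra.coeff_mapRingHom] at h1
    exact h1
  have hII : I * I = I := by
    apply hinj
    rw [map_mul, hιI, ← H20.toMA_mulF, hi.id]
  obtain ⟨Y, hY⟩ : ∃ Y, Y = I * X * I := ⟨_, rfl⟩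
  have hIY : I * Y = Y := by rw [hY, ← mul_assoc, ← mul_assoc, hII]
  have hYI : Y * I = Y := by rw [hY, mul_assoc, hII]
  have hψY : MonoidAlgebra.mapRingHom G (rrHom M) Y = H20.toMA x := by
    rw [hY, map_mul, map_mul, hψX, hψI, ← H20.toMA_mulF, hix, ← H20.toMA_mulF, hxi]
  have hιY : MonoidAlgebra.mapRingHom G (RM M).subtype Y =
      H20.toMA (mulF (mulF i fun g => (s (x g) : ℂ)) i) := by
    rw [hY, map_mul, map_mul, hιX, hιI, ← H20.toMA_mulF, ← H20.toMA_mulF]
  obtain ⟨f, hfm, hf⟩ : IsIntegral (RM M) Y := IsIntegral.of_finite (RM M) Y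
  obtain ⟨r, hr⟩ := splits hfm
  obtain ⟨p, hp1, hp2⟩ := gen (rrHom M) (MonoidAlgebra.mapRingHom G (rrHom M))
    (MonoidAlgebra.mapRingHom_comp_algebraMap (rrHom M)).symm
    (fun a ha => by
      obtain ⟨h1, h2⟩ := inv_RM a.2 ha
      exact IsUnit.of_mul_eq_one ⟨_, h1⟩ (Subtype.ext (mul_inv_cancel₀ h2)))
    Y (by rw [hψY, ← H20.toMA_mulF, hx]) r (by rw [← hr]; exact hf)
  have hmap : MonoidAlgebra.mapRingHom G (RM M).subtype (Polynomial.aeval Y p) =
      Polynomial.aeval (H20.toMA (mulF (mulF i fun g => (s (x g) : ℂ)) i))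
        (p.map (RM M).subtype) := by
    rw [← hιY]
    exact Polynomial.map_aeval_eq_aeval_map
      (MonoidAlgebra.mapRingHom_comp_algebraMap (RM M).subtype).symm p Y
  have hsC : ∀ g, g ∉ C → (s (x g) : ℂ) = 0 := fun g hg => by
    rw [hxC g hg, hs0]; rfl
  have hsV : ∀ v ∈ V, ∀ g, (s (x (v * g * v⁻¹)) : ℂ) = s (x g) := fun v hv g => by
    rw [hxV v hv g]
  obtain ⟨y, hy, hyC, hyV⟩ := poly_inv V C (mulF (mulF i fun g => (s (x g) : ℂ)) i)
    (mul_out C (mul_out C hiC hsC) hiC) (mul_iv V (mul_iv V hi.iv hsV) hi.iv)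
    (p.map (RM M).subtype)
  obtain ⟨e, he⟩ : ∃ e, e = Polynomial.aeval Y p := ⟨_, rfl⟩
  rw [← he] at hp1 hp2 hmap
  have hιe : H20.toMA y = MonoidAlgebra.mapRingHom G (RM M).subtype e := by
    rw [hmap, hy]
  have hcomm : I * e = e * I := by
    rw [he]
    exact comm_aeval (by rw [Commute, SemiconjBy, hIY, hYI]) p
  have hιm : H20.toMA (mulF i y) = MonoidAlgebra.mapRingHom G (RM M).subtype (I * e) := by
    rw [H20.toMA_mulF, map_mul, hιI, hιe]
  have hyc : ∀ g, mulF i y g = ((I * e).coeff g : ℂ) := by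
    intro g
    rw [← H20.toMA_coeff (mulF i y) g, hιm, MonoidAlgebra.coeff_mapRingHom]
    rfl
  refine ⟨mulF i y, ⟨fun g => ?_, ?_, mul_iv V hi.iv hyV⟩, mul_out C hiC hyC, ?_, ?_, ?_⟩
  · rw [hyc]
    exact SetLike.coe_mem _
  · apply H20.toMA_injective
    rw [H20.toMA_mulF (mulF i y), hιm, ← map_mul]
    congr 1
    calc I * e * (I * e) = I * (e * I) * e := by simp only [mul_assoc]
      _ = (I * I) * (e * e) := by rw [← hcomm]; simp only [mul_assoc]
      _ = I * e := by rw [hII, hp1]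
  · funext g
    show rr M (mulF i y g) = x g
    rw [hyc]
    have h1 : MonoidAlgebra.mapRingHom G (rrHom M) (I * e) = H20.toMA x := by
      rw [map_mul, hp2, hψY, hψI, ← H20.toMA_mulF, hix]
    have h2 := congrArg (fun z => z.coeff g) h1
    simp only [MonoidAlgebra.coeff_mapRingHom] at h2
    exact h2
  · apply H20.toMA_injective
    rw [H20.toMA_mulF i, hιm, ← hιI, ← map_mul]
    congr 1
    rw [← mul_assoc, hII]
  · apply H20.toMA_injective
    rw [H20.toMA_mulF _ i, hιm, ← hιI, ← map_mul]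
    congr 1
    rw [mul_assoc, ← hcomm, ← mul_assoc, hII]

end Pool.Agent.PP.T10.H56
end
end -- Pool.Agent.Helper56_AT10.LF2
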