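import Pool.Agent.Helper12_AWB.B120
import Pool.Agent.Helper12_AWB.B121

/-!
# Merged copies (generated) of the modules

* `Pool.Agent.AT10.Stmts2`
* `Pool.Agent.AT10.Stmts3`
* `Pool.Agent.ATW.Defs`
* `Pool.Agent.ATW.Stmts`
-/

set_option autoImplicit false

section -- Pool.Agent.AT10.Stmts2

/-!
# Squad AT10, part 2: from the coherence theorem to STAR

Complete proofs in the docstrings; all rows are independent.  `fu M c β χ u s` is
`∑_k c k χ(u s β k u)`, `fg M ℓ c β χ g` its value at `g = u s`, `u` the `ℓ`-part of `g`.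
-/

open scoped BigOperators

noncomputable section

namespace Pool.Agent.PP.T10

open Pool.Agent.Helper51_AWC Pool.Agent.Helper79_WRA Pool.Agent.PP Pool.Agent.PP.KF
open Pool.Agent.PP.K9 Pool.Agent.PP.K9.H97 Pool.Agent.PP.H75 Pool.Agent.PP.T3 Pool.Agent.PP.T2
open Pool.Agent.PP.T5 Pool.Agent.PP.TB
open Pool.Agent.PP.T8 (rs pw fv rd Ip Rv)

attribute [local instance] Ideal.Quotient.field

/-! ## 4. Regular elements and the theorem of Frobenius -/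

/-- SPS: from idempotents to regular elements.

Proof.  Let `m` be the order of `s`, prime to `ℓ`, a unit of `RM M`.  For an `m`-th root of unity `ζ`
let `e_ζ = m⁻¹ ∑_{k < m} ζ ^ (-k) s ^ k`, in the group ring over `RM M` of `⟨s⟩`: orthogonal
idempotents, `Ip M P e_ζ` (`s` commutes with `P`), `s = ∑ ζ e_ζ`.  For `u ∈ P` let `b` be the extension
by zero of the lift `eh M (β k u)`, a central idempotent of the group ring of `C(u)` (IdmStmt);
`e_ζ b` is an idempotent which commutes with `u`, and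
`rs (Cu u) (rd (e_ζ b)) = (rs (Cu u) (rd e_ζ)) (β k u)`, so (TVS (ii))
`tv M u (mulF (rs (Cu u) (rd e_ζ)) (β k u)) χ = fv (e_ζ b) u χ`, and
`∑_ζ ζ fv (e_ζ b) u χ = fv (s b) u χ = ∑_t b(t) χ(u s t) = gv M (Cu u) (u s) (β k u) χ`.  So
`fu M c β χ u s = ∑_ζ ζ fi M c β (rd e_ζ) χ u` on `P`.  In the same way `ψ(u s) = ∑_ζ ζ fv e_ζ u ψ`, and
`u ↦ fv e_ζ u ψ` is in `ZI P` (FCZ).  For `κ ∈ ZI P` the average of
`fu M c β χ u s conj (ψ(u s)) κ(u)` is the sum over `ζ`, `η` of `ζ conj η` times the average of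
`fi (rd e_ζ) u` and the virtual character `conj (fv e_η u ψ) κ(u)` (`T5.ZimStmt`), in `RM M` by
the hypothesis. -/
def SpsStmt : Prop := ∀ (ℓ : ℕ) [Fact ℓ.Prime] (M : Ideal (integralClosure ℤ ℂ)) [M.IsMaximal],
  (ℓ : integralClosure ℤ ℂ) ∈ M → ∀ (G : Type) [Group G] [Finite G] (ι : Type) [Finite ι]
  (c : ι → ℂ) (β : ι → G → G → FF M), Ef M β → ∀ χ ∈ Irr G, Hc M ℓ c β χ → ∀ ψ ∈ Irr G,
  ∀ P : Subgroup G, IsPGroup ℓ P → ∀ s ∈ Subgroup.centralizer (P : Set G), Reg ℓ s →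
    Cf M P (fun u => fu M c β χ u s * starRingEnd ℂ (ψ (u * s)))

/-- FRG: averages over the `ℓ`-elements.

Proof.  Let `E` be the set of the `ℓ`-elements of `C`, `π(u) = #{x P ∈ C/P | u x P = x P}`.  For `u ∈ E`
`π(u) = |C : P|` modulo `ℓ` (the orbits of `⟨u⟩` on `C/P` which are not fixed points have length
divisible by `ℓ`), prime to `ℓ`.  `π` is the permutation character of `C` on `C/P`, so
`π ^ n ∈ ZI C` for all `n` (`T5.ZimStmt`; `π ∈ ZI C`: the character of a representation).  Let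
`ℓ ^ A` be the order of `P` and `m > 0` a multiple of `ℓ ^ A - ℓ ^ (A-1)` (for `A = 0` take
`m = 1`): `π(u) ^ m = 1` modulo `ℓ ^ A` for `u ∈ E`.  (i) `∑_{u ∈ E} h(u) π(u) ^ m =
∑_{u ∈ E} h(u) π(u) ^ (m-1) |P|⁻¹ #{x ∈ C | x⁻¹ u x ∈ P} = |P|⁻¹ ∑_{x ∈ C} ∑_{v ∈ P}
h(x v x⁻¹) π(x v x⁻¹) ^ (m-1) = (|C|/|P|) ∑_{v ∈ P} h(v) π(v) ^ (m-1)`, so
`|C|⁻¹ ∑_{u ∈ E} h(u) π(u) ^ m = |P|⁻¹ ∑_{v ∈ P} h(v) π(v) ^ (m-1) ∈ RM M` (hypothesis for
`κ = π ^ (m-1)`).  (ii) `|C|⁻¹ ∑_{u ∈ E} h(u) (π(u) ^ m - 1)` is in `RM M`, since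
`(π(u) ^ m - 1)/|P|` is an integer, `h(u) ∈ RM M` and `|P|/|C| ∈ RM M` (`|C : P|` is prime to
`ℓ`). -/
def FrgStmt : Prop := ∀ (ℓ : ℕ) [Fact ℓ.Prime] (M : Ideal (integralClosure ℤ ℂ)) [M.IsMaximal],
  (ℓ : integralClosure ℤ ℂ) ∈ M → ∀ (C : Type) [Group C] [Finite C] (P : Sylow ℓ C) (h : C → ℂ),
  (∀ x y, h (y * x * y⁻¹) = h x) → (∀ x, h x ∈ RM M) →
  (∀ κ ∈ ZI C, (Nat.card P : ℂ)⁻¹ * ∑ᶠ u : P, h (u : C) * κ (u : C) ∈ RM M) →
    (Nat.card C : ℂ)⁻¹ * ∑ᶠ (u : C) (_ : El ℓ u), h u ∈ RM M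

/-- FRB: the inner product of the function `fg` and `ψ`.

Proof.  The pairs `(u, s)`, `u` an `ℓ`-element, `s` regular, `u s = s u`, correspond to the elements
`g = u s` of `G` (`Lp ℓ g u`), and `fg M ℓ c β χ (u s) = fu M c β χ u s`.  So the inner product is
`|G|⁻¹ ∑_s ∑_{u ∈ C(s) ℓ-element} h_s(u)`, `h_s(u) = fu M c β χ u s conj (ψ(u s))`, `s` over the regular
elements.  For given `s` let `C = C(s)`; `h_s` is a class function on `C` (`fu (x u x⁻¹) (x s x⁻¹) =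
fu u s`: `β k (x u x⁻¹) = cj x (β k u)`, and `gv M (x C(u) x⁻¹) (x g x⁻¹) (cj x b) χ =
gv M (Cu u) g b χ`), with values in `RM M` (`IdmStmt`: the coefficients of the lifts are in `RM M`;
values of characters are algebraic integers).  FRG for `C` and a Sylow subgroup `P`: the hypothesis
holds by SPS (the image of `P` in `G` is an `ℓ`-group which commutes with `s`; the restriction of
`κ ∈ ZI C` to `P` is in `ZI P`).  So `x_s = |C(s)|⁻¹ ∑_u h_s(u)` is in `RM M`, and `x_s` depends only on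
the class of `s`, which has `|G|/|C(s)|` elements: `|G|⁻¹ ∑_s |C(s)| x_s` is the sum of `x_s` over
representatives of the regular classes. -/
def FrbStmt : Prop := ∀ (ℓ : ℕ) [Fact ℓ.Prime] (M : Ideal (integralClosure ℤ ℂ)) [M.IsMaximal],
  (ℓ : integralClosure ℤ ℂ) ∈ M → ∀ (G : Type) [Group G] [Finite G] (ι : Type) [Finite ι]
  (c : ι → ℂ) (β : ι → G → G → FF M), Ef M β → (∀ k, c k ∈ RM M) → ∀ χ ∈ Irr G, Hc M ℓ c β χ →
  ∀ ψ ∈ Irr G, (Nat.card G : ℂ)⁻¹ * ∑ᶠ g : G, fg M ℓ c β χ g * starRingEnd ℂ (ψ g) ∈ RM M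

/-! ## 5. The sections of the central subgroup -/

/-- BLO: in the inner product of a section the block may be omitted in one factor.

Proof.  Let `C = C(u)`, `k = kr M C b`, `g(s) = gv M C (w s) b χ`.  By `T5.KerStmt`, for regular
`s ∈ C`: `g(s) = |C|⁻¹ ∑_c k(s, c) χ(w c)` and `gv M C (w s) b ψ = |C|⁻¹ ∑_c k(s, c) ψ(w c)`, `c` over the
regular elements of `C`.  `conj k(s, c) = k(c, s)`, and `∑_c k(s, c) k(c, s') = |C| k(s, s')`, `c` over the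
regular elements: `k(s, c) = ∑_{κ ∈ b} κ(s) conj κ(c)` vanishes for singular `c` (`K9.WboStmt` for
`s⁻¹`), so the sum may be taken over all `c ∈ C`, and the first orthogonality relation.  So
`∑_s g(s) conj (gv M C (w s) b ψ) = |C|⁻¹ ∑_{s, c} g(s) k(c, s) conj ψ(w c) =
∑_c conj ψ(w c) |C|⁻¹ ∑_s k(c, s) g(s)`, and `|C|⁻¹ ∑_s k(c, s) g(s) = g(c)`. -/
def BloStmt : Prop := ∀ (ℓ : ℕ) [Fact ℓ.Prime] (M : Ideal (integralClosure ℤ ℂ)) [M.IsMaximal],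
  (ℓ : integralClosure ℤ ℂ) ∈ M → ∀ (G : Type) [Group G] [Finite G] (u w : G),
  (∀ c ∈ Cu u, w * c = c * w) → ∀ b : G → FF M, Ix (Cu u) b → ∀ χ ∈ Irr G, ∀ ψ ∈ Irr G,
    (Nat.card (Cu u) : ℂ)⁻¹ * ∑ᶠ (s : G) (_ : s ∈ Cu u ∧ Reg ℓ s),
      gv M (Cu u) (w * s) b χ * starRingEnd ℂ (ψ (w * s)) = mm M ℓ (Cu u) w b χ ψ

/-- SBE: the family `sb b`.

Proof.  `b z` is a block of `C(z)` (`Lb.bx`), so it is invariant under `C(z)` (`Ix.inv`).  If
`q z q⁻¹ = u` then `sb b z u = cj q (b z)` for this `q` (two such `q` differ by an element of `C(z)`), a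
block of `C(u) = q C(z) q⁻¹`.  `Ef.eq`: if `q z q⁻¹ = u` then `(g q) z (g q)⁻¹ = g u g⁻¹`, and
`cj (g q) (b z) = cj g (cj q (b z))`; if `z`, `u` are not conjugate both sides are `0`. -/
def SbeStmt : Prop := ∀ (ℓ : ℕ) [Fact ℓ.Prime] (M : Ideal (integralClosure ℤ ℂ)) [M.IsMaximal],
  (ℓ : integralClosure ℤ ℂ) ∈ M → ∀ (G : Type) [Group G] [Finite G] (e : G → FF M)
  (V Z : Subgroup G) (γ : G → FF M) (b : G → G → FF M), Zd ℓ e V Z γ b →
  Ef M (fun (z : Z) (u : G) => sb b (z : G) u) ∧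
  ∀ z ∈ Z, ∀ q : G, sb b z (q * z * q⁻¹) = cj q (b z)

/-- LNK: the inner product for the family `sb b`.

Proof.  For `z ∈ Z` let `S_z` be the sum of `gv M (Cu u) g (sb b z u) χ conj (ψ g)` over the `g ∈ G` whose
`ℓ`-part `u` is conjugate to `z` (for the other `g` the term is `0`); the left side is
`|G|⁻¹ ∑_z c z S_z` (`fg`, `fu`: `u (u⁻¹ g) = g`).  For `g` with `ℓ`-part `u = q z q⁻¹` put
`g = q z s q⁻¹`, `s ∈ C(z)` regular: `gv M (Cu u) g (cj q (b z)) χ = gv M (Cu z) (z s) (b z) χ` and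
`ψ(g) = ψ(z s)`; every `g` comes from exactly `|C(z)|` pairs `(q, s)`, `q ∈ G`.  So
`S_z = (|G|/|C(z)|) ∑_s gv M (Cu z) (z s) (b z) χ conj ψ(z s) = |G| mm` by BLO (`w = u = z`). -/
def LnkStmt : Prop := ∀ (ℓ : ℕ) [Fact ℓ.Prime] (M : Ideal (integralClosure ℤ ℂ)) [M.IsMaximal],
  (ℓ : integralClosure ℤ ℂ) ∈ M → ∀ (G : Type) [Group G] [Finite G] (e : G → FF M)
  (V Z : Subgroup G) (γ : G → FF M) (b : G → G → FF M), Zd ℓ e V Z γ b →
  ∀ c : Z → ℂ, ∀ χ ∈ Irr G, ∀ ψ ∈ Irr G,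
    (Nat.card G : ℂ)⁻¹ * ∑ᶠ g : G, fg M ℓ c (fun (z : Z) (u : G) => sb b (z : G) u) χ g *
      starRingEnd ℂ (ψ g) = ∑ᶠ z : Z, c z * mm M ℓ (Cu (z : G)) z (b z) χ ψ

/-- LCA: averages over a central subgroup of an `ℓ`-group.

Proof.  The function `u ↦ fv i u χ` on `P₀` is in `ZI P₀` (FCZ, `Ip M P₀ i` follows from `Ip M P i`), `lam`
is an irreducible character of `P₀` and `κ|P₀ ∈ ZI P₀` (restriction), so the product is in `ZI P₀`
(`T5.ZimStmt`) and its average is an integer (inner product with the trivial character). -/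
def LcaStmt : Prop := ∀ (M : Ideal (integralClosure ℤ ℂ)) [M.IsMaximal] (G : Type) [Group G]
  [Finite G] (P P₀ : Subgroup G), P₀ ≤ P → ∀ i : G → ℂ, Ip M P i → ∀ χ ∈ Irr G,
  ∀ lam : P₀ →* ℂ, ∀ κ ∈ ZI P, ∀ k : P₀ → P, (∀ u, (k u : G) = u) →
    ∃ n : ℤ, (Nat.card P₀ : ℂ)⁻¹ * ∑ᶠ u : P₀, lam u * fv i (u : G) χ * κ (k u) = n

/-- LCS: the local case.

Proof.  Let `β z u = sb b z u`, `c z = cn V Z γ nu z`, `T = Tg V γ`.  `e` is a central idempotent and `i`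
is primitive, so `e i = i` or `e i = 0` (`e i` is a `P`-invariant idempotent, `i (e i) = e i = (e i) i`).
If `e i = 0` then for `u ∈ P` and `z ∈ Z` with `q z q⁻¹ = u`: `cj q (b z)` is under `rs (Cu u) e`
(`Lb.und`, conjugated), so `(rs i) (cj q (b z)) = (rs i) (rs e) (cj q (b z)) = rs (i e) (cj q (b z)) = 0`
and `fi i u = 0` (TVS (iii)).  Let `e i = i`, `g` from `Lo`, `Z' = conjS g Z`, `P₀ = P ∩ Z'`, central in
`P` (`P ≤ conjS g V`, `cen`).  For `u ∈ P`, `u ∉ Z'` all terms of `fi i u` are `0`.  Let `u ∈ P₀`,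
`u₀ = g⁻¹ u g ∈ Z`, `β₀ = cj g (b u₀)`, `(rs i) β₀ = rs i`.  For `z ∈ Z` with `q z q⁻¹ = u`:
`cj q (b z)` and `β₀` are blocks of `C(u)`; if they are different the term is `0`
(`(rs i) β₀ (cj q (b z)) = 0`); they are equal iff `cj (g⁻¹ q) (b z) = b u₀`, `(g⁻¹ q) z (g⁻¹ q)⁻¹ =
u₀`, iff `z = t u₀ t⁻¹` for some `t ∈ T` (`Zd.fus`, and ZCP (i): `cj t (b u₀) = b (t u₀ t⁻¹)`, then
`q t g⁻¹` maps `u` to `u`, and `cj q (b (t u₀ t⁻¹)) = cj (q t) (b u₀)`, `q t ∈ C(u) g`: equal to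
`cj g (b u₀)`).  So `fi i u = (|V|/|Z|) (∑_z cz z nu z) tv M u (rs i) χ`, `z` over the `T`-orbit of
`u₀`, and this sum is `∑_t nu(t u₀ t⁻¹)`, over the cosets `t (T ∩ C(Z))` in `T` (each `z` of the orbit
comes from `cz z = |T ∩ C(z) : T ∩ C(Z)|` cosets; ZCP).  Let `i^` be a lift of `i` to an idempotent which
commutes with `P` (`T8.LftStmt`, `C = ⊤`): `tv M u (rs i) χ = fv i^ u χ` (TVS (ii)).  For
`κ ∈ ZI P`: `|P|⁻¹ ∑_{u ∈ P} fi i u κ(u) = (|V| |P₀| / (|Z| |P|)) ∑_t (|P₀|⁻¹ ∑_{u ∈ P₀}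
nu(t g⁻¹ u g t⁻¹) fv i^ u χ κ(u))`; the inner averages are integers (LCA; `u ↦ nu(t g⁻¹ u g t⁻¹)` is a
homomorphism, `Zd.nrm`), and `|P : P₀| = |P Z' : Z'|` divides `|conjS g V : Z'| = |V|/|Z|` (`P Z'` is a
subgroup of `conjS g V`, `Z'` is central in it). -/
def LcsStmt : Prop := ∀ (ℓ : ℕ) [Fact ℓ.Prime] (M : Ideal (integralClosure ℤ ℂ)) [M.IsMaximal],
  (ℓ : integralClosure ℤ ℂ) ∈ M → ∀ (G : Type) [Group G] [Finite G] (e : G → FF M)
  (V Z : Subgroup G) (γ : G → FF M) (b : G → G → FF M), Zd ℓ e V Z γ b →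
  Lo M ℓ e V Z b → ∀ nu : Z →* ℂ, ∀ χ ∈ Irr G,
  ∀ P : Subgroup G, IsPGroup ℓ P → ∀ i : G → FF M, Pm P i → br P i ≠ 0 →
    Cf M P (fi M (cn V Z γ nu) (fun (z : Z) (u : G) => sb b (z : G) u) i χ)

/-- STR: the theorem of Broué and Puig for the central subgroup `Z`.

Proof.  Let `lam : Z → ℂ` be a homomorphism, `nu(z) = lam(z⁻¹)` (a homomorphism: `Z` is abelian),
`c = cn V Z γ nu`, with values in `RM M` (`|V|/|Z|` is an integer).  SBE, LCS, CHT: `Hc M ℓ c β χ`.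
FRB and LNK: `∑_z c z mm(z) ∈ RM M`, and this is `|Z|⁻¹ ∑_z Az(z) lam(z⁻¹)`. -/
def StrStmt : Prop := ∀ (ℓ : ℕ) [Fact ℓ.Prime] (M : Ideal (integralClosure ℤ ℂ)) [M.IsMaximal],
  (ℓ : integralClosure ℤ ℂ) ∈ M → ∀ (G : Type) [Group G] [Finite G] (e : G → FF M)
  (V Z : Subgroup G) (γ : G → FF M) (b : G → G → FF M), Zd ℓ e V Z γ b →
  Lo M ℓ e V Z b → Star M ℓ e V Z γ b

end Pool.Agent.PP.T10
end
end -- Pool.Agent.AT10.Stmts2

section -- Pool.Agent.AT10.Stmts3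

/-!
# Squad AT10, part 3: Brauer pairs, primitive idempotents, strong closure of `Z(V) ^ (ℓ ^ p)`

`Cm P β`: `β` is a compatible function on the subgroups of the `ℓ`-group `P`: `β Q` is a block of
`C(Q)`, and `(Q, β Q)` is contained in `(S, β S)` as a Brauer pair for `Q ≤ S ≤ P`.  Complete proofs
in the docstrings; all rows are independent.  `br Q` is multiplicative on the `Q`-invariant elements
(`H75.br_mulF`).  A conjugate: `cj g a`, `conjS g Q = g Q g⁻¹`.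
-/

open scoped BigOperators

noncomputable section

namespace Pool.Agent.PP.T10

open Pool.Agent.Helper51_AWC Pool.Agent.Helper79_WRA Pool.Agent.PP Pool.Agent.PP.KF
open Pool.Agent.PP.K9 Pool.Agent.PP.K9.H97 Pool.Agent.PP.H75 Pool.Agent.PP.T3 Pool.Agent.PP.T2
open Pool.Agent.PP.T5 Pool.Agent.PP.TB
open Pool.Agent.PP.T8 (rs pw fv rd Ip Rv)

attribute [local instance] Ideal.Quotient.field

section defs

variable {G : Type} [Group G]

/-- `β` is a compatible function on the subgroups of `P`: `β Q` is a block of `C(Q)`, and for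
`Q ≤ S ≤ P` with `S ≤ N(Q)` it is invariant under `S` and `br_S(β Q)` is over `β S`. -/
structure Cm {F : Type} [Field F] (P : Subgroup G) (β : Subgroup G → G → F) : Prop where
  bx : ∀ Q ≤ P, Bx (Subgroup.centralizer (Q : Set G)) (β Q)
  st : ∀ Q S : Subgroup G, Q ≤ S → S ≤ P → S ≤ Subgroup.normalizer (Q : Set G) →
    ∀ s ∈ S, cj s (β Q) = β Q
  br : ∀ Q S : Subgroup G, Q ≤ S → S ≤ P → S ≤ Subgroup.normalizer (Q : Set G) →
    mulF (br S (β Q)) (β S) = β S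

end defs

/-! ## 6. Brauer pairs -/

/-- UNB: a primitive idempotent of `A ^ P` which does not vanish on `C(P)` defines a compatible
function.

Proof.  Let `B = i A ^ P i`; by IDL an element of `B` which is not nilpotent is invertible in `B`.
`br_Q(i) ≠ 0` for `Q ≤ P` (`br_P(i) = br_P(br_Q(i))`).  We show by descending induction on `Q` that
there is exactly one block `c` of `C(Q)` with `c br_Q(i) ≠ 0`; then `c br_Q(i) = br_Q(i)` (the sum of all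
blocks is `1`), and we put `β Q = c`.
(1) `Q = P`: let `c br_P(i) ≠ 0`.  `c` (on `G`) is `P`-invariant, `y = i c i ∈ B`,
`br_P(y) = c br_P(i)` is an idempotent `≠ 0`, so `y` is not nilpotent, `y z = i` for a `z ∈ B`, and
`br_P(i) = c br_P(i) br_P(z)`, so `c br_P(i) = br_P(i)`.
(2) `Q < P`: let `S₀ = P ∩ N(Q) > Q`.  Let `c` be a block of `C(Q)` with `c br_Q(i) ≠ 0`, `c'` the sum
of the different `S₀`-conjugates of `c`, a central idempotent of `F C(Q)` invariant under `S₀`, and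
`Y = c' br_Q(i)`, an idempotent `≠ 0` of `F C(Q)` invariant under `S₀`.  Claim A: `br_S(Y) ≠ 0` for
some `S` with `Q < S ≤ S₀`.  Otherwise `Y(g) ≠ 0` implies `S₀ ∩ C(g) = Q`, so
`Y = ∑_{v ∈ S₀/Q} cj v y`, `y` the restriction of `Y` to representatives of the `S₀`-orbits of these
`g`.  Let `t = ∑_{v ∈ P/Q} cj v y`, a `P`-invariant element.  For `g ∈ C(Q)` the number
`y(v⁻¹ g v)` depends only on the orbit of `v Q` under left multiplication with `Q`; the orbits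
which are not fixed points have length divisible by `ℓ`, and the fixed points are the `v Q`,
`v ∈ S₀`; so `br_Q(t) = Y`.  `z = i t i ∈ B`, `br_Q(z) = br_Q(i) Y br_Q(i) = Y` is an idempotent
`≠ 0`, so `z` is not nilpotent, `i = z w`, `w ∈ B`.  But `br_P(t) = |P : Q| y = 0` on `C(P)`, so
`br_P(i) = br_P(i) br_P(t) br_P(i w) = 0`, a contradiction.  Claim B: let `S` be as in A.
`br_S(c') br_S(i) = br_S(Y) ≠ 0` and `br_S(i) = β_S br_S(i)`, so `br_S(c') β_S ≠ 0`, and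
`br_S(c')` is a central idempotent of `F C(S)`, so `br_S(c') β_S = β_S`.  If `S < S₀` let
`S₁ = S₀ ∩ N(S) > S`: `br_(S₁)(c') br_(S₁)(β_S) = br_(S₁)(br_S(c') β_S) = br_(S₁)(β_S)` and
`br_(S₁)(β_S) β_(S₁) = β_(S₁)`, so `br_(S₁)(c') β_(S₁) = β_(S₁)`.  By iteration
`br_(S₀)(c') β_(S₀) = β_(S₀)`.  So the orbit of `c` is unique (for two of them
`β_(S₀) = br_(S₀)(c' c'') β_(S₀) = 0`), and it has one element: if the stabiliser `S'` of `c` in
`S₀` is not `S₀` then `br_(S₀)(c') = |S₀ : S'| c = 0` on `C(S₀)`.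
(3) Compatibility: `Q ≤ S ≤ P`, `S ≤ N(Q)`, `Q < S`: `S ≤ S₀` stabilises `β_Q`, and
`br_S(β_Q) br_S(i) = br_S(β_Q br_Q(i)) = br_S(i) ≠ 0`, so `br_S(β_Q) β_S ≠ 0`. -/
def UnbStmt : Prop := ∀ (ℓ : ℕ) [Fact ℓ.Prime] (F : Type) [Field F], GoodF ℓ F → ∀ (G : Type)
  [Group G] [Finite G] (P : Subgroup G), IsPGroup ℓ P → ∀ i : G → F, Pm P i → br P i ≠ 0 →
    ∃ β : Subgroup G → G → F, Cm P β ∧ ∀ Q ≤ P, mulF (br Q i) (β Q) = br Q i

/-- PRX: existence of compatible functions.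

Proof.  `b` is a `P`-invariant idempotent of `F G` (`C(P)` commutes with `P`), `b = ∑_a k a` (PDC).
`br_P(b) = b ≠ 0`, so `br_P(k a) ≠ 0` for some `a`, and `b (k a) = k a` (orthogonality), so
`b br_P(k a) = br_P(k a)`.  UNB for `k a`: `β P` and `b` are blocks of `C(P)` with
`b (β P) br_P(k a) = br_P(k a) ≠ 0`, so they are equal (`Bx.dich`). -/
def PrxStmt : Prop := ∀ (ℓ : ℕ) [Fact ℓ.Prime] (F : Type) [Field F], GoodF ℓ F → ∀ (G : Type)
  [Group G] [Finite G] (P : Subgroup G), IsPGroup ℓ P → ∀ b : G → F,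
  Bx (Subgroup.centralizer (P : Set G)) b → ∃ β : Subgroup G → G → F, Cm P β ∧ β P = b

/-- PRU: uniqueness of compatible functions.

Proof.  Descending induction on `Q`.  `Q < P`, `S = P ∩ N(Q) > Q`: `β S = β' S` by induction;
`br_S(β Q) β_S = β_S`, `br_S(β' Q) β_S = β_S`, so `br_S((β Q)(β' Q)) β_S = β_S ≠ 0` (`β Q`, `β' Q` are
`S`-invariant), `(β Q)(β' Q) ≠ 0`, `β Q = β' Q` (`Bx.dich`). -/
def PruStmt : Prop := ∀ (ℓ : ℕ) [Fact ℓ.Prime] (F : Type) [Field F], GoodF ℓ F → ∀ (G : Type)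
  [Group G] [Finite G] (P : Subgroup G), IsPGroup ℓ P → ∀ β β' : Subgroup G → G → F, Cm P β →
  Cm P β' → β P = β' P → ∀ Q ≤ P, β Q = β' Q

/-- PRM: every pair is contained in a conjugate of `(V, γ)`.

Proof.  Induction on `|V| - |P|`.  `P` is good for `e` (`br_P(e) b = b ≠ 0`), so `|P| ≤ |V|`.
(1) `|P| = |V|`: by `K9.FmgStmt` `P = conjS g₀ V`, and `br_P(e)` is a block of `N(P)` (conjugate of
FMG for `V`).  `b` and `cj g₀ γ` are blocks of `C(P)` under it, so (`K9.OrbStmt`) `b = cj (n g₀) γ`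
with `n ∈ N(P)`; `g = n g₀`, and PRX for `(P, b)`.
(2) `|P| < |V|`: let `f` be the block of `N(P)` with `f b = b` (`f` vanishes outside `C(P)`,
`T2.H32.supp_cent`, so it is a central idempotent of `F C(P)`).  `br_P(e) f = f`, as
`br_P(e) f b = b ≠ 0`.  `K9.DunStmt`: an `ℓ`-subgroup `R` of `N(P)` with `P < R` and `br_R(f) ≠ 0`.  By
`K9.OrbStmt` the blocks of `C(P)` under `f` are the `N(P)`-conjugates of `b`, so `f` is the sum of
the different `cj n b`, `n ∈ N(P)`.  The sum over an `R`-orbit with more than one element is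
annihilated by `br_R`, so for some `n ∈ N(P)` `b' = cj n b` is `R`-invariant and `br_R(b') ≠ 0`.
Replace `R` by `n⁻¹ R n`: `P < R ≤ N(P)`, `b` is `R`-invariant, `br_R(b) ≠ 0`.  Let `b₁` be a block of
`C(R)` with `br_R(b) b₁ = b₁`.  `br_R(e) b₁ = b₁` (`br_R(e) br_R(b) = br_R(br_P(e) b) = br_R(b)`).
Induction for `(R, b₁)`: `g`, `β` with `R ≤ conjS g V`, `β R = b₁`.  `β P` and `b` are `R`-invariant
blocks of `C(P)` with `br_R(β P) b₁ = b₁ = br_R(b) b₁`, so `(β P) b ≠ 0`, `β P = b`. -/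
def PrmStmt : Prop := ∀ (ℓ : ℕ) [Fact ℓ.Prime] (M : Ideal (integralClosure ℤ ℂ)) [M.IsMaximal],
  (ℓ : integralClosure ℤ ℂ) ∈ M → ∀ (G : Type) [Group G] [Finite G] (e : G → FF M)
  (V : Subgroup G) (γ : G → FF M), IsBlk e → Tp ℓ e V →
  Bx (Subgroup.centralizer (V : Set G)) γ → mulF (br V e) γ = γ → ∀ P : Subgroup G,
  IsPGroup ℓ P → ∀ b : G → FF M, Bx (Subgroup.centralizer (P : Set G)) b →
  mulF (br P e) b = b → ∃ (g : G) (β : Subgroup G → G → FF M), Cm (conjS g V) β ∧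
    P ≤ conjS g V ∧ β (conjS g V) = cj g γ ∧ β P = b

/-! ## 7. Strong closure -/

/-- IXP: powers and the index.

Proof.  Induction on `|A| / |H|`.  If `H = A`: clear.  Otherwise `H < N_A(H)`, so there is `H₁` with
`H < H₁ ≤ A`, `H` normal in `H₁` of index `ℓ` (a subgroup of order `ℓ` of `N_A(H)/H`).
`|A| ≤ ℓ ^ p |H|` implies `p > 0` and `|A| ≤ ℓ ^ (p-1) |H₁|`; `y ^ ℓ ^ (p-1) ∈ H₁` by induction, and
`x ^ ℓ ∈ H` for `x ∈ H₁`. -/
def IxpStmt : Prop := ∀ (ℓ : ℕ) [Fact ℓ.Prime] (G : Type) [Group G] [Finite G]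
  (A H : Subgroup G) (p : ℕ), IsPGroup ℓ A → H ≤ A → Nat.card A ≤ ℓ ^ p * Nat.card H →
  ∀ y ∈ A, y ^ ℓ ^ p ∈ H

/-- SCL: strong closure of `Z(V) ^ (ℓ ^ p)`.

Proof.  Let `β_u = β ⟨u⟩ = cj q b`, a block of `C(u)` (the centralisers of `{u}` and of `⟨u⟩` are
equal).  (1) `V' = conjS q V ≤ C(u)` (`z` is central in `V`), and `V'` is good for `β_u` (`V` is good
for `b`, `Lb.gd`).  An `ℓ`-subgroup of `C(u)` good for `β_u` is good for `e` (`e` is over `β_u`: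
conjugate `Lb.und`), so its order is at most `|V|`.  So `V'` is a defect group of `β_u` (in `C(u)`).
(2) `R = V ∩ C(u)` contains `u` and centralises it, so `br_R(β_u) β_R = β_R ≠ 0` (`Cm.br` for
`⟨u⟩ ≤ R ≤ V`): `R` is good for `β_u`, and by `K9.FmgStmt` for `C(u)` there is `c ∈ C(u)` with
`R ≤ conjS (c q) V`.  Replace `q` by `c q` (`(c q) z (c q)⁻¹ = u`, `cj c β_u = β_u`).
(3) `Zc V ≤ R ≤ V' = conjS q V`.  IXP for `A = V'`, `H = Zc V` (`|V'| = |V|`):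
`y ^ ℓ ^ p ∈ Zc V` for `y ∈ V'`.  `z = w ^ ℓ ^ p` with `w ∈ Zc V` (`T2.PwuStmt`: `Zc V` is abelian),
so `u = (q w q⁻¹) ^ ℓ ^ p ∈ Zc V`.  (4) So `R = V`, `V ≤ conjS q V`, and the orders are equal:
`q ∈ N(V)`.  (5) `br_V(β_u) γ = γ` (`Cm.br`, `⟨u⟩ ≤ V`, `u` central in `V`, `β V = γ`), and
`br_V(β_u) (cj q γ) = cj q (br_V(b) γ) = cj q γ`.  `br_V(β_u)` is a block of `N(V) ∩ C(u)`
(`K9.FmgStmt` for `C(u)`), `C(V) ≤ C(u)`, so by `K9.OrbStmt` (`N = N(V) ∩ C(u)`, `X = C(V)`) there is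
`n ∈ N(V) ∩ C(u)` with `cj n (cj q γ) = γ`.  `t = n q ∈ Tg V γ`, `t z t⁻¹ = n u n⁻¹ = u`. -/
def SclStmt : Prop := ∀ (ℓ : ℕ) [Fact ℓ.Prime] (M : Ideal (integralClosure ℤ ℂ)) [M.IsMaximal],
  (ℓ : integralClosure ℤ ℂ) ∈ M → ∀ (G : Type) [Group G] [Finite G] (e : G → FF M)
  (V : Subgroup G) (γ : G → FF M), IsBlk e → Tp ℓ e V →
  Bx (Subgroup.centralizer (V : Set G)) γ → mulF (br V e) γ = γ → ∀ p : ℕ,
  Nat.card V ≤ ℓ ^ p * Nat.card (Zc V) → ∀ β : Subgroup G → G → FF M, Cm V β → β V = γ →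
  ∀ z ∈ Uw (ℓ ^ p) (Zc V), ∀ b : G → FF M, Lb ℓ e V z b → mulF (br V b) γ = γ →
  ∀ u ∈ V, ∀ q : G, q * z * q⁻¹ = u → cj q b = β (Subgroup.zpowers u) →
    ∃ t ∈ Tg V γ, t * z * t⁻¹ = u

/-- ZLO: the data for `Z = Z(V) ^ (ℓ ^ p)` and the local property.

Proof.  `Z = Uw (ℓ ^ p) (Zc V) ≤ Zc V`.  For `z ∈ Z` let `b z` be a block of `C(z)` with
`br_V(b z) γ = γ` (the sum of all the blocks of `C(z)` is `1`, `br_V(1) = 1`, and
`br_V(b) γ` is `γ` or `0`); it is unique (`br_V(b b') γ = γ` implies `b b' ≠ 0`), under `e`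
(`br_V(e b) γ = br_V(e) γ = γ`), and `V` is good for it: `Lb`.  `nrm`: `t ∈ Tg V γ` normalises `V`, so
`Zc V` and `Z`.  Let `β₀` be a compatible function on `V` with `β₀ V = γ` (PRX).  (A) For `z ∈ Z`
`β₀ ⟨z⟩ = b z`: `Cm.br` for `⟨z⟩ ≤ V` and uniqueness (the centralisers of `{z}` and `⟨z⟩` are
equal).  `fus`: SCL for `z'`, `b z'`, `u = z`, `q = x` and (A).  `Lo`: let `i` be primitive in `A ^ P`,
`e i = i`, `br_P(i) ≠ 0`.  UNB: `β'` on `P`.  `b_P = β' P` is under `br_P(e)` (`br_P(e) b_P br_P(i) =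
br_P(i) ≠ 0`).  PRM: `g`, `β` on `conjS g V`, `β P = b_P`; PRU on `P` (`β` is compatible on `P`, too):
`β ⟨u⟩ = β' ⟨u⟩` for `u ∈ P`, and `(rs (Cu u) i) (β ⟨u⟩) = rs (Cu u) i` (`rs (Cu u) i = br ⟨u⟩ i`).
`Q ↦ cj g⁻¹ (β (conjS g Q))` is compatible on `V` with the value `γ` at `V`, so by PRU it is `β₀` on
the subgroups of `V`; in particular `β ⟨u⟩ = cj g (β₀ ⟨u₀⟩)`, `u₀ = g⁻¹ u g`.  (1) `u ∈ conjS g Z`:
`β₀ ⟨u₀⟩ = b u₀` by (A).  (2) `u ∉ conjS g Z`, `z ∈ Z`, `q z q⁻¹ = u`: if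
`(rs (Cu u) i) (cj q (b z)) ≠ 0` then `cj q (b z) = β ⟨u⟩` (`Bx.dich` for the blocks of `C(u)`), so
`cj (g⁻¹ q) (b z) = β₀ ⟨u₀⟩`, `(g⁻¹ q) z (g⁻¹ q)⁻¹ = u₀ ∈ V`, and SCL gives `t ∈ Tg V γ` with
`u₀ = t z t⁻¹ ∈ Z`, a contradiction. -/
def ZloStmt : Prop := ∀ (ℓ : ℕ) [Fact ℓ.Prime] (M : Ideal (integralClosure ℤ ℂ)) [M.IsMaximal],
  (ℓ : integralClosure ℤ ℂ) ∈ M → ∀ (G : Type) [Group G] [Finite G] (e : G → FF M)
  (V : Subgroup G) (γ : G → FF M), IsBlk e → Tp ℓ e V →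
  Bx (Subgroup.centralizer (V : Set G)) γ → mulF (br V e) γ = γ → ∀ p : ℕ,
  Nat.card V ≤ ℓ ^ p * Nat.card (Zc V) → ∃ b : G → G → FF M,
    Zd ℓ e V (Uw (ℓ ^ p) (Zc V)) γ b ∧ Lo M ℓ e V (Uw (ℓ ^ p) (Zc V)) b

/-- STF: the conclusion of the STAR block, the last hypothesis of `TB.BndStmt`.

Proof.  `V` is good for `e`, so there is a block `γ` of `C(V)` with `br_V(e) γ = γ` (a block under the
central idempotent `br_V(e) ≠ 0` of `F C(V)`).  `TB.ClzStmt`: `|V| ≤ ℓ ^ p |Zc V|`.  ZLO, STR. -/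
def StfStmt : Prop := ∀ (ℓ : ℕ) [Fact ℓ.Prime] (M : Ideal (integralClosure ℤ ℂ)) [M.IsMaximal],
  (ℓ : integralClosure ℤ ℂ) ∈ M → ∀ (G : Type) [Group G] [Finite G] (e : G → FF M)
  (V : Subgroup G) (r p : ℕ), IsBlk e → Tp ℓ e V → Cl ℓ r p V →
  ∃ (γ : G → FF M) (b : G → G → FF M), Zd ℓ e V (Uw (ℓ ^ p) (Zc V)) γ b ∧
    Star M ℓ e V (Uw (ℓ ^ p) (Zc V)) γ b

end Pool.Agent.PP.T10
end
end -- Pool.Agent.AT10.Stmts3

section -- Pool.Agent.ATW.Defs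

/-!
# Squad ATW: the prime 2, defect groups with two generators: definitions

THEOREM.  `e` a 2-block with an abelian defect group `V` which is generated by two elements and has
exponent `2 ^ a`, `a ≥ 2`.  Then `l(e) ≤ 2 ^ a`, and the alternating sum of `e` is zero.  Everything on
top of squads AT2, AT3, AT5, AT8, ATZ, AT10 (all their statements are proved).

Sketch.  The inertial quotient has order 1 (then `l(e) = 1`) or 3, and then it acts freely on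
`V - 1`.  Let `N` be `3` on the `2`-elements and `1` on the elements of odd order, `R` the set of the
characters in `e` which are fixed by the power map `N`; `l(e) ≤ |R|`.  All heights are zero.  For
`χ, ψ ∈ R` the function `u ↦ vv u χ conj (vv u ψ)` on `V - 1` extends to a function in `Rv M V`
(theorem of Broué and Puig, squad AT10), and the averages of such a function over the cosets of a
subgroup `W ≤ V ^ 2` have all the same residue.  For `χ ∈ R` the numbers `vv (u ^ j) χ` are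
`p ± q √-2`.  Let `y` have order `2 ^ a`, `w` an involution in `V ^ 2` not in `⟨y⟩`; `p, q` for `y`, `p', q'`
for `y w`.  The averages give `p p₀ = p' p₀'` modulo `4` (`p₀, p₀'` for a fixed `ψ ∈ R`), so for one
sign `s` the number `(p + s p')/2` is odd for all `χ ∈ R`, and Bessel's inequality for the vectors
`vv (y ^ j)`, `vv ((y w) ^ j)` gives `|R| ≤ 2 ^ a`.
-/

open scoped BigOperators

noncomputable section

namespace Pool.Agent.PP.TW

open Pool.Agent.Helper51_AWC Pool.Agent.Helper79_WRA Pool.Agent.PP Pool.Agent.PP.KF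
open Pool.Agent.PP.K9 Pool.Agent.PP.K9.H97 Pool.Agent.PP.H75 Pool.Agent.PP.T3 Pool.Agent.PP.T2
open Pool.Agent.PP.T5 Pool.Agent.PP.TB
open Pool.Agent.PP.T8 (rs pw fv rd Ip Rv vv Dat Fr)

attribute [local instance] Ideal.Quotient.field

/-- the square root of `-2` -/
def r2 : ℂ := Complex.I * (Real.sqrt 2 : ℂ)

/-- the sign of `j` modulo `8`: `1` for the powers of `3` -/
def sg8 (j : ℕ) : ℤ := if j % 8 = 1 ∨ j % 8 = 3 then 1 else -1

section defs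

variable {G : Type} [Group G]

variable (G) in
/-- `N` acts trivially on the elements of odd order and as `3` on the `2`-elements; its powers act on
the `2`-elements as all the numbers which are `1` or `3` modulo `8`. -/
structure G3 (N : ℕ) : Prop where
  cop : N.Coprime (Nat.card G)
  reg : ∀ g : G, Reg 2 g → g ^ N = g
  pow : ∀ y : G, El 2 y → y ^ N = y ^ 3
  gen : ∀ j : ℕ, j ≡ 1 [MOD 8] ∨ j ≡ 3 [MOD 8] → ∃ k : ℕ, ∀ y : G, El 2 y → y ^ N ^ k = y ^ j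

variable (M : Ideal (integralClosure ℤ ℂ)) [M.IsMaximal]

/-- The situation for the inertial quotient of order `3`: it acts freely on `V - 1`, `y ∈ V` has order
`2 ^ a`, `a ≥ 2`, `w` is an involution, the square of an element of `V` and not a power of `y`. -/
structure Sw (a : ℕ) (e : G → FF M) (V : Subgroup G) (γ : G → FF M) (b : G → G → FF M)
    (d : G → ℕ) (c : ℕ) (ε : G → ℤ) (y w : G) : Prop where
  dat : Dat M 2 e V γ b d c ε
  fr : Fr V γ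
  i3 : ix V γ ≤ 3
  le : 2 ≤ a
  exp : Monoid.exponent V = 2 ^ a
  card : Nat.card V ≤ 4 ^ a
  yV : y ∈ V
  oy : orderOf y = 2 ^ a
  wV : ∃ x ∈ V, w = x ^ 2
  w2 : w ^ 2 = 1
  wy : ∀ k : ℕ, y ^ k ≠ w

/-- The numbers `vv (u ^ j) χ` for `j` odd are `p ± q √-2`. -/
def Vq (a : ℕ) (b : G → G → FF M) (d : G → ℕ) (u : G) (χ : G → ℂ) (p q : ℤ) : Prop :=
  (∀ j : ℕ, ¬ 2 ∣ j → vv M b d (u ^ j) χ = p + sg8 j * q * r2) ∧ (a ≤ 2 → q = 0) ∧ Odd p

end defs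

/-- The theorem for the prime `ℓ` and block idempotents: defect groups with two generators and
exponent `ℓ ^ a`, `a ≥ 2`. -/
def Tt (ℓ : ℕ) [Fact ℓ.Prime] : Prop :=
  ∀ (M : Ideal (integralClosure ℤ ℂ)) [M.IsMaximal], (ℓ : integralClosure ℤ ℂ) ∈ M →
  ∀ (a : ℕ), 2 ≤ a → ∀ (G : Type) [Group G] [Finite G] (e : G → FF M) (V : Subgroup G)
  (γ : G → FF M), Ld ℓ e V γ → Monoid.exponent V = ℓ ^ a →
  (∃ x y : G, V = Subgroup.closure {x, y}) → YY ℓ ⊤ e = 0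

end Pool.Agent.PP.TW
end
end -- Pool.Agent.ATW.Defs

section -- Pool.Agent.ATW.Stmts

/-!
# Squad ATW: the prime 2, defect groups with two generators: statements

See `Defs.lean` for the sketch.  Complete proofs in the docstrings; all rows are independent (a row
takes the rows which it uses as hypotheses, also rows of the squads AT2, AT3, AT5, AT8, ATZ, AT10, which
are all proved).  `vv M b d u χ = χ(u b_u)/d_u`, `Rv M V f`: `f` is on `V` a combination of the linear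
characters with coefficients in the local ring `RM M`, `rr M` the residue map, `Rf M N e` the
characters in `e` which are fixed by the power map, `mm M ℓ (Cu u) u b χ ψ` the inner product of the
functions `s ↦ χ(u s b)`, `s ↦ ψ(u s b)` on the regular elements of `C(u)`, `Az ... z = |V| |C_E(z)| mm`.
-/

open scoped BigOperators

noncomputable section

namespace Pool.Agent.PP.TW

open Pool.Agent.Helper51_AWC Pool.Agent.Helper79_WRA Pool.Agent.PP Pool.Agent.PP.KF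
open Pool.Agent.PP.K9 Pool.Agent.PP.K9.H97 Pool.Agent.PP.H75 Pool.Agent.PP.T3 Pool.Agent.PP.T2
open Pool.Agent.PP.T5 Pool.Agent.PP.TB
open Pool.Agent.PP.T8 (rs pw fv rd Ip Rv vv Dat Fr)

attribute [local instance] Ideal.Quotient.field

/-! ## 1. The power map -/

/-- P3M: the powers of `3` modulo `2 ^ A`.

Proof.  `A ≤ 3`: check (`A = 3`: `3 ^ 0 = 1`, `3 ^ 1 = 3`).  `A ≥ 3`: induction on `A`.  Let
`3 ^ k = j` modulo `2 ^ A`; if not modulo `2 ^ (A+1)` then `3 ^ k = j + 2 ^ A` modulo `2 ^ (A+1)`, and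
`3 ^ (k + 2 ^ (A-2)) = 3 ^ k (1 + 2 ^ A) = j` modulo `2 ^ (A+1)`, because
`3 ^ (2 ^ (A-2)) = 1 + 2 ^ A` modulo `2 ^ (A+1)` (`A = 3`: `9`; squaring: `(1 + 2 ^ A c)² =
1 + 2 ^ (A+1) c + ...`, `c` odd). -/
def P3mStmt : Prop := ∀ A j : ℕ, j ≡ 1 [MOD 8] ∨ j ≡ 3 [MOD 8] → ∃ k : ℕ, 3 ^ k ≡ j [MOD 2 ^ A]

/-- PR3: existence of `N`.

Proof.  Compare `T5.Pr5Stmt`, `T2.Pr2Stmt`.  `|G| = 2 ^ A m`, `m` odd.  `N = 3` modulo `2 ^ (A+1)` and
`N = 1` modulo `m` (Chinese remainder theorem), so `N` is prime to `|G|`.  The order of a `2`-element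
divides `2 ^ A`, the order of a regular element divides `m`.  `gen`: P3M, `N ^ k = 3 ^ k = j` modulo
`2 ^ A`. -/
def Pr3Stmt : Prop := ∀ (G : Type) [Group G] [Finite G], ∃ N : ℕ, G3 G N

/-- FX3: a bound by the number of the fixed characters.

Proof.  As `T2.FxsStmt` (row FXS of squad AT2): by RTC (`T3.H23.rtc'`, for `N` prime to `|G|`, trivial
on the regular elements) `χ ∘ (· ^ N)` is an irreducible character in `e` for `χ` in `e`, so the number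
of the fixed characters is `|G|⁻¹ ∑_g ∑_{χ ∈ e} χ(g ^ N) conj χ(g)`.  Write `g = y s = s y`, `y` its
`2`-part.  The elements with `y ^ 2 ≠ 1` contribute `0` (`T2.FxyStmt` for each such `y`,
`(y s) ^ N = y ^ N s`).  If `y ^ 2 = 1` then `g ^ N = y ^ 3 s = g` and the contribution is
`∑ |χ(g)|² ≥ 0`.  The elements with `y = 1` give `ln e` (`T3.LrkStmt`). -/
def Fx3Stmt : Prop := ∀ (M : Ideal (integralClosure ℤ ℂ)) [M.IsMaximal],
  ((2 : ℕ) : integralClosure ℤ ℂ) ∈ M → ∀ (G : Type) [Group G] [Finite G] (N : ℕ), G3 G N →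
  ∀ e : G → FF M, IsIdem e →
  (∀ y : G, El 2 y → y ^ 2 ≠ 1 → ∀ b : G → FF M, Bx (Cu y) b →
    mulF (fun t : Cu y => e t) (fun t : Cu y => b t) = (fun t : Cu y => b t) →
    ∀ g : G, g * y * g⁻¹ = y ^ N → cj g b ≠ b) →
  ln e ≤ (Rf M N e).ncard

/-- ST3: no pair `(y, b)`, `y ^ 2 ≠ 1`, is conjugate to `(y ^ 3, b)`.

Proof.  As `T2.StgStmt` (row STG of squad AT2): one finds a `V₁` (conjugate to `V`, `y ∈ V₁`) and
`t ∈ T₁ = Tg V₁ γ₁` with `t y t⁻¹ = y ^ N = y ^ 3`.  Let `m = |T₁ : C(V₁)|`, an odd number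
(`K9.InxStmt`); `t ^ m ∈ C(V₁)`, so `y = y ^ (3 ^ m)`, `y ^ (3 ^ m - 1) = 1`.  As `m` is odd,
`3 ^ m - 1 = 2` modulo `8`, so it is twice an odd number, and `y ^ 2 = 1`, a contradiction. -/
def St3Stmt : Prop := ∀ (M : Ideal (integralClosure ℤ ℂ)) [M.IsMaximal],
  ((2 : ℕ) : integralClosure ℤ ℂ) ∈ M → ∀ (G : Type) [Group G] [Finite G] (N : ℕ), G3 G N →
  ∀ (e : G → FF M) (V : Subgroup G) (γ : G → FF M), Ld 2 e V γ → ∀ y : G, El 2 y → y ^ 2 ≠ 1 →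
  ∀ b : G → FF M, Bx (Cu y) b →
  mulF (fun t : Cu y => e t) (fun t : Cu y => b t) = (fun t : Cu y => b t) →
  ∀ g : G, g * y * g⁻¹ = y ^ N → cj g b ≠ b

/-! ## 2. The contributions of the regular elements -/

/-- LN1: blocks of inertial index one have one modular character.

Proof.  `T3.NilStmt`: `IrrE M b` has `|V|` elements, all of the same degree.  `T8.Rg1Stmt`: they all
agree with one of them, `κ₀`, on the regular elements.  Let `t = |H|⁻¹ ∑_{s regular} |κ₀(s)|²`, not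
`0` (`s = 1`).  `T3.LrkStmt`: `ln b = |V| t`.  Let `P κ κ' = |H|⁻¹ ∑_{s regular} κ(s) conj κ'(s) = t`
for `κ, κ' ∈ IrrE M b`.  By `K9.RotStmt` the product of `κ₀` with the indicator function of the
regular elements is `∑_{κ' ∈ b} P κ₀ κ' κ'`, so (take the inner product with this function)
`t = ∑_{κ'} |P κ₀ κ'|² = |V| t²`, and `|V| t = 1`. -/
def Ln1Stmt : Prop := ∀ (ℓ : ℕ) [Fact ℓ.Prime] (M : Ideal (integralClosure ℤ ℂ)) [M.IsMaximal],
  (ℓ : integralClosure ℤ ℂ) ∈ M → ∀ (H : Type) [Group H] [Finite H] (b : H → FF M)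
  (V : Subgroup H) (γ : H → FF M), Ld ℓ b V γ → ix V γ = 1 → ln b = 1

/-- DPV: conjugation with the inertial group, and powers (for all primes; compare `T8.DpwStmt`,
`Helper*_AT8/DPW.lean`, which has `ℓ ≠ 2` because of the signs `ε`).

Proof.  Let `t ∈ T`, `u' = t u t⁻¹`.  `u'` is regular (`T ∩ C(u') = t (T ∩ C(u)) t⁻¹`).  `cj t (b u)` is
the local block of `u'`: a block of `C(u') = t C(u) t⁻¹` under `e`, and
`br_V(cj t (b u)) γ = cj t (br_V(b u) γ) = γ`; by uniqueness (`T3.LocStmt`) it is `b u'`.  So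
`d u' = d u` (a block has a character), `gv u' (b u') χ = gv u (b u) χ` (`χ` is a class function).
Powers: `T3.LpwStmt` and uniqueness, `C(u ^ j) = C(u)`. -/
def DpvStmt : Prop := ∀ (ℓ : ℕ) [Fact ℓ.Prime] (M : Ideal (integralClosure ℤ ℂ)) [M.IsMaximal],
  (ℓ : integralClosure ℤ ℂ) ∈ M → ∀ (G : Type) [Group G] [Finite G] (e : G → FF M)
  (V : Subgroup G) (γ : G → FF M) (b : G → G → FF M) (d : G → ℕ) (c : ℕ) (ε : G → ℤ),
  Dat M ℓ e V γ b d c ε →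
  (∀ t ∈ Tg V γ, ∀ u, Rg V γ u → Rg V γ (t * u * t⁻¹) ∧
    ∀ χ ∈ Irr G, vv M b d (t * u * t⁻¹) χ = vv M b d u χ) ∧
  ∀ u, Rg V γ u → ∀ j : ℕ, ¬ ℓ ∣ j → Rg V γ (u ^ j) ∧ Cu (u ^ j) = Cu u ∧ b (u ^ j) = b u ∧
    d (u ^ j) = d u

/-- MMV: the inner product in the section of a regular element.

Proof.  `b = b u`.  By RGL (`T3.RglStmt`, `T3.LocStmt`, `T3.LsbStmt`) the block `b | C(u)` has inertial
index one; so `IrrE` of it has `|V|` elements of degree `d = d u` (`T3.NilStmt`), they all agree with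
one of them, `κ₀` (extended by zero), on the regular elements `s` of `C = C(u)` (`T8.Rg1Stmt`), and
`ln b = 1` (LN1).  So `kr M C b s c = |V| κ₀(s) conj κ₀(c)` for regular `s, c`, and `T5.KerStmt`
(`w = u`) gives `gv M C (u s) b χ = κ₀(s) X(χ)`, `X(χ) = |V| |C|⁻¹ ∑_c conj κ₀(c) χ(u c)`.  `s = 1`:
`X(χ) = gv M C u b χ / d = vv u χ`.  So `mm = vv u χ conj (vv u ψ) |C|⁻¹ ∑_s |κ₀(s)|²`, and
`|V| |C|⁻¹ ∑_s |κ₀(s)|² = ln b = 1` (`T3.LrkStmt`). -/
def MmvStmt : Prop := ∀ (ℓ : ℕ) [Fact ℓ.Prime] (M : Ideal (integralClosure ℤ ℂ)) [M.IsMaximal],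
  (ℓ : integralClosure ℤ ℂ) ∈ M → ∀ (G : Type) [Group G] [Finite G] (e : G → FF M)
  (V : Subgroup G) (γ : G → FF M) (b : G → G → FF M) (d : G → ℕ) (c : ℕ) (ε : G → ℤ),
  Dat M ℓ e V γ b d c ε → ∀ u, Rg V γ u → ∀ χ ∈ Irr G, ∀ ψ ∈ Irr G,
    (Nat.card V : ℂ) * mm M ℓ (Cu u) u (b u) χ ψ =
      vv M b d u χ * starRingEnd ℂ (vv M b d u ψ)

/-- STA: the theorem of Broué and Puig for an abelian defect group.

Proof.  `Zc V = V ⊓ C(V) = V`, `Uw (ℓ ^ 0) (Zc V) = V`.  `T10.ZloStmt` with `p = 0` gives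
`b'` with `Zd ℓ e V V γ b'` and `Lo M ℓ e V V b'` (rewrite `Uw (ℓ ^ 0) (Zc V) = V`); `T10.StrStmt`. -/
def StaStmt : Prop := ∀ (ℓ : ℕ) [Fact ℓ.Prime] (M : Ideal (integralClosure ℤ ℂ)) [M.IsMaximal],
  (ℓ : integralClosure ℤ ℂ) ∈ M → ∀ (G : Type) [Group G] [Finite G] (e : G → FF M)
  (V : Subgroup G) (γ : G → FF M), Ld ℓ e V γ → ∃ b' : G → G → FF M, Zd ℓ e V V γ b' ∧
    Star M ℓ e V V γ b'

/-- HCO: the function of a pair of characters.

Proof.  `b'` from STA, `f = Az M ℓ V V γ b' χ ψ`.  `Rv`: `Star`.  Let `u` be regular: `b' u` is the local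
block of `u` (`Zd.lb`: `Lb`, `br_V(b' u) γ = γ`), so `b' u = b u` (`Dat.lc`, `T3.LocStmt`);
`cz V V γ u = |T ∩ C(u) : C(V) ∩ T| = 1` as `u` is regular.  So `f u = |V| mm M ℓ (Cu u) u (b u) χ ψ`, MMV.
Power map: as `TB.IvzStmt` (`Helper*_ATZ/IVZ.lean`), which uses only these properties of `N`: let
`v ≠ 1`, so `ℓ` divides `|G|` and `N` is prime to `ℓ`; `C(v ^ N) = C(v)`, `b' (v ^ N) = b' v`,
`cz (v ^ N) = cz v` (`TB.ZcpStmt` (ii)).  By `T5.KerStmt` (for `u = v`, `w = v ^ N` and `w = v`) it is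
enough that `χ(v ^ N c) = χ(v c)` for `c ∈ C(v)` regular: `v ^ N c = v ^ N c ^ N = (v c) ^ N`. -/
def HcoStmt : Prop := ∀ (ℓ : ℕ) [Fact ℓ.Prime] (M : Ideal (integralClosure ℤ ℂ)) [M.IsMaximal],
  (ℓ : integralClosure ℤ ℂ) ∈ M → ∀ (G : Type) [Group G] [Finite G] (e : G → FF M)
  (V : Subgroup G) (γ : G → FF M) (b : G → G → FF M) (d : G → ℕ) (c : ℕ) (ε : G → ℤ),
  Dat M ℓ e V γ b d c ε → ∀ χ ∈ IrrE M e, ∀ ψ ∈ IrrE M e, ∃ f : G → ℂ, Rv M V f ∧
    (∀ u, Rg V γ u → f u = vv M b d u χ * starRingEnd ℂ (vv M b d u ψ)) ∧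
    ∀ N : ℕ, N.Coprime (Nat.card G) → (∀ g : G, Reg ℓ g → g ^ N = g) →
      (∀ g, χ (g ^ N) = χ g) → (∀ g, ψ (g ^ N) = ψ g) → ∀ v ∈ V, f (v ^ N) = f v

/-! ## 3. Group theory -/

/-- PYP: automorphisms of odd order of a `2`-group with two generators.

Proof.  Compare `T8.RgbStmt`, `T12.CpyStmt`.  Let `E ≠ 1`.  The cosets of `V ^ 2 = {v ^ 2}` are at
most `4` (two generators).  The `s ∈ E` which fix all cosets (`∀ v, ∃ w, s v = v w ^ 2`) form a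
subgroup, which is trivial by `T8.CprStmt`, last claim.  So there are `4` cosets (otherwise `E` fixes
all cosets) and `E` acts faithfully on the `3` cosets different from `V ^ 2`; its order is odd, so
it is `3`, and no `s ∈ E`, `s ≠ 1`, fixes a coset different from `V ^ 2` (otherwise `s ^ 2` fixes all
cosets).  Freeness: let `s ∈ E`, `s ≠ 1`, `s v₀ = v₀`; `s` generates `E`, so `v₀` is fixed by `E`.  Let
`π` be the homomorphism of CPR for `S = E`: its image `C` is the set of the fixed points of `E`, and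
`π(c) = c` for `c ∈ C`.  The coset of `c ∈ C` is fixed, so `c = x ^ 2`, `c = π(c) = π(x) ^ 2`: so the
map `c ↦ c ^ 2` of `C` to itself is surjective, so it is injective, and `C = 1` (otherwise `C`
contains an involution).  `y`: `V` has an element `y` of order `2 ^ a` (exponent, abelian).  Let
`s ∈ E`, `s ≠ 1`, `z = y ^ (2 ^ (a-1))`, `w = s z = x ^ 2`, `x = (s y) ^ (2 ^ (a-2))`.  `w ^ 2 = 1`,
`w ≠ 1`.  If `w` is a power of `y` then `w = z` (the only involution in `⟨y⟩`), `s z = z`, against the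
freeness. -/
def PypStmt : Prop := ∀ (V : Type) [CommGroup V] [Finite V] (a : ℕ), 2 ≤ a →
  Monoid.exponent V = 2 ^ a → (∃ x y : V, (⊤ : Subgroup V) = Subgroup.closure {x, y}) →
  ∀ E : Subgroup (MulAut V), ¬ 2 ∣ Nat.card E → E = ⊥ ∨
  (Nat.card E = 3 ∧ (∀ s ∈ E, ∀ v : V, s v = v → v = 1 ∨ s = 1) ∧
    ∃ y w x : V, orderOf y = 2 ^ a ∧ w = x ^ 2 ∧ w ^ 2 = 1 ∧ ∀ k : ℕ, y ^ k ≠ w)

/-- GTP: the two cases.

Proof.  As `T8.RtrStmt` (`Helper10_AT8/RTR.lean`): `V` is a commutative group, `E` the image of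
`T = Tg V γ` in its automorphism group, with kernel `C(V)`, `|E| = ix V γ`; PYP.  `|V| ≤ 4 ^ a`: every
element is `x ^ i y ^ j` with `i, j < 2 ^ a`. -/
def GtpStmt : Prop := ∀ (F : Type) [Field F], GoodF 2 F → ∀ (G : Type) [Group G] [Finite G]
  (e : G → F) (V : Subgroup G) (γ : G → F), Ld 2 e V γ → ¬ 2 ∣ ix V γ → ∀ a : ℕ, 2 ≤ a →
  Monoid.exponent V = 2 ^ a → (∃ x y : G, V = Subgroup.closure {x, y}) →
  ix V γ = 1 ∨ (ix V γ = 3 ∧ Fr V γ ∧ Nat.card V ≤ 4 ^ a ∧ ∃ y w : G, y ∈ V ∧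
    orderOf y = 2 ^ a ∧ (∃ x ∈ V, w = x ^ 2) ∧ w ^ 2 = 1 ∧ ∀ k : ℕ, y ^ k ≠ w)

/-- RGW: the elements `y ^ j` and `y ^ j w`.

Proof.  (i) By `Fr` all elements `≠ 1` of `V` are regular, and `y ^ j w ^ i ≠ 1` for `j` odd (`w ^ 2 = 1`,
`(y ^ j w ^ i) ^ 2 = y ^ (2 j) ≠ 1` as `a ≥ 2`).  (ii) Let `z = y ^ (2 ^ (a-1)) ≠ 1`, `z ^ 2 = 1`.
`(y ^ j w ^ i) ^ (2 ^ (a-1)) = z ^ j = z` (`a ≥ 2`, `w ^ 2 = 1`), and the same for `j'`, `i'`.  So
`t z t⁻¹ = z`, `t ∈ C(V)` by `Fr`.  (iii) `y ^ j w ^ i = y ^ j' w ^ i'`: if `i ≠ i'` modulo `2` then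
`w` is a power of `y` (`y` has finite order), a contradiction; so `w ^ i = w ^ i'` and
`y ^ j = y ^ j'`.  (iv) `w ^ j = w`. -/
def RgwStmt : Prop := ∀ (M : Ideal (integralClosure ℤ ℂ)) [M.IsMaximal],
  ((2 : ℕ) : integralClosure ℤ ℂ) ∈ M → ∀ (G : Type) [Group G] [Finite G] (a : ℕ) (e : G → FF M)
  (V : Subgroup G) (γ : G → FF M) (b : G → G → FF M) (d : G → ℕ) (c : ℕ) (ε : G → ℤ) (y w : G),
  Sw M a e V γ b d c ε y w →
  (∀ j i : ℕ, ¬ 2 ∣ j → Rg V γ (y ^ j * w ^ i)) ∧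
  (∀ j j' i i' : ℕ, ¬ 2 ∣ j → ¬ 2 ∣ j' → ∀ t ∈ Tg V γ,
    t * (y ^ j * w ^ i) * t⁻¹ = y ^ j' * w ^ i' → y ^ j * w ^ i = y ^ j' * w ^ i') ∧
  (∀ j j' i i' : ℕ, y ^ j * w ^ i = y ^ j' * w ^ i' → j ≡ j' [MOD 2 ^ a] ∧ i ≡ i' [MOD 2]) ∧
  ∀ j : ℕ, ¬ 2 ∣ j → (y * w) ^ j = y ^ j * w

/-! ## 4. Heights, values, averages -/

/-- HT2: all heights are zero.

Proof.  Let `b'` be as in `TB.ZabStmt` (or STA), `Zd ℓ e V V γ b'`.  `TB.PjzStmt` for `W = Z = V`: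
`∑_{v ∈ V} cz(v) mm(v) χ χ` is a real number `≤ iz = ix V γ ≤ 3`.  The term for `v = 1` is positive
(`TB.PozStmt`, `TB.ZcpStmt`).  For `v ≠ 1`: `v` is regular (`Fr`), `cz(v) = 1`, `b' v = b v` (see HCO), and
`|V| mm(v) χ χ = |vv v χ|²` (MMV).  So (1) `∑_{v ≠ 1} |vv v χ|² < 3 |V|`.  `vv u χ` is an algebraic
integer (`T3.InrStmt`), so it is in `RM M`.  Suppose `rr (vv u χ) = 0` for one regular `u`.  Let
`ρ = |G| c/(|C(V)| χ(1))`, a rational number `≠ 0`.  `T8.DcgStmt`: for all regular `u'` the number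
`vv u' χ ρ` is in `RM M` with residue `ε ix ≠ 0` (`ix` is odd, `K9.InxStmt`), so it is a unit of `RM M`.
So `ρ⁻¹ = vv u χ/(vv u χ ρ)` is in `RM M` with residue `0`; a rational number with this property is
`2` times an element of `RM M` (write it as `n/m`, `m, n` coprime: `m` is odd, otherwise
`1/2 ∈ RM M`; `n` is even, `KF.dvd_of_rr`).  So `vv u' χ/2 = (vv u' χ ρ) (ρ⁻¹/2)` is in `RM M` and
`vv u' χ ≠ 0` for all regular `u'`.  `T8.NrmStmt` (`ζ` of order `2 ^ a`, `s = 0`, `h = 1`), with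
`T3.InrStmt` for `u'` (`q = 2 ^ a`) and DPV (`b (u' ^ j) = b u'`, `d (u' ^ j) = d u'`):
`∑_j |vv (u' ^ j) χ|² ≥ 4 · 2 ^ (a-1)`, the sum over the odd `j < 2 ^ a`.  Sum over `u' ∈ V - 1`
(`u' ↦ u' ^ j` is a bijection of `V - 1`): `∑_{v ≠ 1} |vv v χ|² ≥ 4 (|V| - 1) ≥ 3 |V|`, as `|V| ≥ 4`,
against (1). -/
def Ht2Stmt : Prop := ∀ (M : Ideal (integralClosure ℤ ℂ)) [M.IsMaximal],
  ((2 : ℕ) : integralClosure ℤ ℂ) ∈ M → ∀ (G : Type) [Group G] [Finite G] (a : ℕ) (e : G → FF M)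
  (V : Subgroup G) (γ : G → FF M) (b : G → G → FF M) (d : G → ℕ) (c : ℕ) (ε : G → ℤ) (y w : G),
  Sw M a e V γ b d c ε y w → ∀ χ ∈ IrrE M e, ∀ u, Rg V γ u →
    vv M b d u χ ∈ RM M ∧ rr M (vv M b d u χ) ≠ 0

/-- AVP: the averages over the cosets of a subgroup of `V ^ 2`.

Proof.  Compare `T8.AvbStmt` (`Helper*_AT8/AVB.lean`).  `f(v) = ∑ a_lam lam(v)` with `a_lam ∈ RM M`
(`T8.RvaStmt`, Fourier inversion), over the homomorphisms `lam : V → ℂ`.  `f(v ^ 3) = f(v)` gives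
`a_(lam ^ 3) = a_lam` (uniqueness of the coefficients; `lam ↦ lam ^ 3` is a bijection).  The average of
`lam(y w)` over `w ∈ W` is `lam(y)` if `lam` is trivial on `W` and `0` otherwise.  So the average is the
sum of the `a_lam lam(y)` over the set `X_W` of the `lam` which are trivial on `W`, in `RM M`, and its
residue is the sum of the residues of these `a_lam` (`lam(y)` is a root of unity whose order is a power
of `2`, so its residue is `1`).  The map `lam ↦ lam ^ 3` is a permutation of `X_W` whose order is a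
power of `2` (`3 ^ (2 ^ k) = 1` modulo `2 ^ k`, and `lam ^ |V| = 1`), `a` is constant on its orbits, and the orbits
which are not fixed points have an even number of elements, so they contribute `0` (the residue
field has characteristic `2`).  The fixed points are the `lam` with `lam ^ 2 = 1`; all of these are in
`X_W`, because the elements of `W` are squares.  So the residue of the average is the sum of the
residues of the `a_lam` with `lam ^ 2 = 1`.  It does not depend on `W`; for `W = 1` the average is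
`f y`. -/
def AvpStmt : Prop := ∀ (M : Ideal (integralClosure ℤ ℂ)) [M.IsMaximal],
  ((2 : ℕ) : integralClosure ℤ ℂ) ∈ M → ∀ (G : Type) [Group G] [Finite G] (V : Subgroup G),
  IsPGroup 2 V → (∀ a ∈ V, ∀ b ∈ V, a * b = b * a) → ∀ f : G → ℂ, Rv M V f →
  (∀ v ∈ V, f (v ^ 3) = f v) → ∀ W : Subgroup G, W ≤ V → (∀ w ∈ W, ∃ x ∈ V, w = x ^ 2) →
  ∀ y ∈ V, f y ∈ RM M ∧ ((Nat.card W : ℂ)⁻¹ * ∑ᶠ w : W, f (y * w)) ∈ RM M ∧
    rr M ((Nat.card W : ℂ)⁻¹ * ∑ᶠ w : W, f (y * w)) = rr M (f y)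

/-- ZI2: elements of the ring of the `2 ^ a`-th roots of unity which are fixed by `ζ ↦ ζ ^ 3`.

Proof.  `x j` depends only on `j` modulo `2 ^ a`.  `a ≤ 2`: `x j = x 1` for all odd `j` (`3 = -1` modulo
`4`), and `x 1 = (x 1 + x 3)/2` (for `a = 2`) is `m_0 - m_2` (`ζ + ζ ^ 3 = 0`, `ζ ^ 2 = -1`); `a = 1`: clear.
`a ≥ 3`: by P3M every `j = 1` or `3` modulo `8` is a power of `3` modulo `2 ^ a`, so `x j = x 1`, and
`x j = x 5` for the `j = 5` or `7` modulo `8` (`5 · 3 ^ k`).  Average over the `2 ^ (a-2)` numbers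
`j < 2 ^ a`, `j = 1` or `3` modulo `8`: `∑_j ζ ^ (i j) = (ζ ^ i + ζ ^ (3 i)) ∑_{k < 2 ^ (a-3)} ζ ^ (8 i k)`
is `0` unless `2 ^ (a-3)` divides `i`, and for `i = 2 ^ (a-3) i'` it is `2 ^ (a-3) (η ^ i' + η ^ (3 i'))`,
`η = ζ ^ (2 ^ (a-3))` of order `8`.  `η ^ i' + η ^ (3 i')` is `2, -2` for `i' = 0, 4`, `0` for `i' = 2, 6`,
`τ` for `i' = 1, 3`, `- τ` for `i' = 5, 7`, `τ = η + η ^ 3`, `τ² = -2`, so `τ = r2` or `τ = - r2`.  So
`x 1 = P + Q τ/2` with integers `P = m_0 - m_(4 · 2 ^ (a-3))`, `Q`, and in the same way (replace `j` by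
`5 j`, `η ^ 5 = - η`) `x 5 = P - Q τ/2`.  `Q τ/2 = x 1 - P` is an algebraic integer, so its square
`- Q²/2` is, so `Q² /2` is an integer and `Q` is even. -/
def Zi2Stmt : Prop := ∀ (a : ℕ), 0 < a → ∀ ζ : ℂ, IsPrimitiveRoot ζ (2 ^ a) → ∀ (m : ℕ → ℤ)
  (x : ℕ → ℂ), (∀ j, x j = ∑ i ∈ Finset.range (2 ^ a), (m i : ℂ) * ζ ^ (i * j)) →
  (∀ j : ℕ, ¬ 2 ∣ j → x (3 * j) = x j) →
  ∃ p q : ℤ, (∀ j : ℕ, ¬ 2 ∣ j → x j = p + sg8 j * q * r2) ∧ (a ≤ 2 → q = 0)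

/-- VAL: the values of the fixed characters.

Proof.  `u ^ (2 ^ a) = 1` (exponent), `ζ` of order `2 ^ a`.  `T3.InrStmt` (`q = 2 ^ a`) and DPV:
`vv (u ^ j) χ = ∑ m_i ζ ^ (i j) = x j` for `j` odd (`b (u ^ j) = b u`, `d (u ^ j) = d u`,
`C(u ^ j) = C(u)`; `d u > 0`).  `x (3 j) = x j`: `gv M (Cu u) (u ^ (3 j)) b χ = gv M (Cu u) (u ^ j) b χ`,
because `eh M b` vanishes at the singular elements (or `T5.KerStmt`) and for `s` regular in `C(u)`:
`u ^ (3 j) s = (u ^ j) ^ N s ^ N = (u ^ j s) ^ N`, compare `T2.VjcStmt` (`Helper*_AT2/VJC.lean`).  ZI2.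
`p` is odd: `vv u χ = p + q r2`, `r2² = -2` has residue `0`, so `r2` (an algebraic integer) has residue
`0`, and `rr (vv u χ) ≠ 0` by HT2. -/
def ValStmt : Prop := ∀ (M : Ideal (integralClosure ℤ ℂ)) [M.IsMaximal],
  ((2 : ℕ) : integralClosure ℤ ℂ) ∈ M → ∀ (G : Type) [Group G] [Finite G] (N : ℕ), G3 G N →
  ∀ (a : ℕ) (e : G → FF M) (V : Subgroup G) (γ : G → FF M) (b : G → G → FF M) (d : G → ℕ)
  (c : ℕ) (ε : G → ℤ) (y w : G), Sw M a e V γ b d c ε y w → ∀ χ ∈ Rf M N e, ∀ u, Rg V γ u →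
  ∃ p q : ℤ, Vq M a b d u χ p q

/-- BDV: the congruences for two fixed characters.

Proof.  `f` from HCO, `f(v ^ 3) = f(v ^ N) = f(v)` on `V` (`G3.pow`).  For `j` odd, `k = 0, 1`,
`u = y w ^ k` (regular, RGW): `f(u ^ j) = (p_k + s q_k r2)(p0_k - s q0_k r2) =
p_k p0_k + 2 q_k q0_k + s (q_k p0_k - p_k q0_k) r2`, `s = sg8 j`, `(p_0, p_1) = (p, p')` etc.
(`conj r2 = - r2`, `r2² = -2`, `conj` of an integer).  (1) AVP for `W = {1, w}` (`= zpowers w`; its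
elements are squares): `(f(y) + f(y w))/2 = (B + D r2)/2` is in `RM M`,
`B = p p0 + p' p0' + 2 (q q0 + q' q0')`, `D = (q p0 - p q0) + (q' p0' - p' q0')`.  (2) AVP for
`W = {y ^ (4 i) w ^ k | i < 2 ^ (a-2), k < 2}` (`2 ^ (a-1)` different elements, RGW (iii); all are
squares; `W` is the closure of `{y ^ 4, w}`): `y y ^ (4 i) w ^ k = (y w ^ k) ^ (1 + 4 i)`, and
`sg8 (1 + 4 i)` is `1` for `i` even and `-1` for `i` odd, so for `a ≥ 3` the terms with `r2` cancel, and for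
`a = 2` all `q` are `0`: the average is `B/2`.  So `B/2 ∈ RM M` with residue `rr (f y) = rr (p p0) = 1`
(`r2` and `2` have residue `0`, `p, p0` are odd).  `B` is an integer, so `B` is even (`1/2 ∉ RM M`) and
`B/2` is odd.  From (1) `D r2/2 = (B + D r2)/2 - B/2` is in `RM M`, so `(D r2/2)² = - D²/2` is, so `D` is
even. -/
def BdvStmt : Prop := ∀ (M : Ideal (integralClosure ℤ ℂ)) [M.IsMaximal],
  ((2 : ℕ) : integralClosure ℤ ℂ) ∈ M → ∀ (G : Type) [Group G] [Finite G] (N : ℕ), G3 G N →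
  ∀ (a : ℕ) (e : G → FF M) (V : Subgroup G) (γ : G → FF M) (b : G → G → FF M) (d : G → ℕ)
  (c : ℕ) (ε : G → ℤ) (y w : G), Sw M a e V γ b d c ε y w → ∀ χ ∈ Rf M N e, ∀ ψ ∈ Rf M N e,
  ∀ p q p' q' p0 q0 p0' q0' : ℤ, Vq M a b d y χ p q → Vq M a b d (y * w) χ p' q' →
  Vq M a b d y ψ p0 q0 → Vq M a b d (y * w) ψ p0' q0' →
  (p * p0 + p' * p0' + 2 * (q * q0 + q' * q0')) % 4 = 2 ∧
    (2 : ℤ) ∣ (q * p0 - p * q0) + (q' * p0' - p' * q0')

/-- ARW: arithmetic.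

Proof.  `p0² + p0'² = 2` modulo `4`, so the second hypothesis gives `2 (q0² + q0'²) = 0` modulo `4`,
`q0 + q0'` is even.  The third one (all of `p, p', p0, p0'` are odd) gives that `q + q0 + q' + q0'` is
even, so `q + q'` is even and `q q0 + q' q0'` is even (all four parities: `q = q'`, `q0 = q0'` modulo
`2`).  So `p p0 + p' p0' = 2` modulo `4`, and `2 p' p0' = 2` modulo `4`.  Last claim: multiply
`p p0 = p' p0'` with `p0` (`p0² = 1` modulo `8`): `p = p' (p0 p0')` modulo `4`. -/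
def ArwStmt : Prop := ∀ p q p' q' p0 q0 p0' q0' : ℤ, Odd p → Odd p' → Odd p0 → Odd p0' →
  (p * p0 + p' * p0' + 2 * (q * q0 + q' * q0')) % 4 = 2 →
  (p0 * p0 + p0' * p0' + 2 * (q0 * q0 + q0' * q0')) % 4 = 2 →
  (2 : ℤ) ∣ (q * p0 - p * q0) + (q' * p0' - p' * q0') →
  p * p0 ≡ p' * p0' [ZMOD 4] ∧ ∀ s : ℤ, (s = 1 ∨ s = -1) → s ≡ p0 * p0' [ZMOD 4] →
    4 ≤ (p + s * p') ^ 2

/-! ## 5. Bessel's inequality and the bound -/

/-- BWS: the norm of the sum.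

Proof.  The `2 ^ a` elements `y ^ j`, `y ^ j w = (y w) ^ j`, `j < 2 ^ a` odd, are regular, different and no
two of them are conjugate under `T` (RGW).  `T8.DorStmt`: the vectors `(vv u χ)_χ` for these `u` are
orthogonal of norm squared `|V|`.  The vector in the claim is the sum of the first ones and `s` times
the sum of the other ones. -/
def BwsStmt : Prop := ∀ (M : Ideal (integralClosure ℤ ℂ)) [M.IsMaximal],
  ((2 : ℕ) : integralClosure ℤ ℂ) ∈ M → ∀ (G : Type) [Group G] [Finite G] (a : ℕ) (e : G → FF M)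
  (V : Subgroup G) (γ : G → FF M) (b : G → G → FF M) (d : G → ℕ) (c : ℕ) (ε : G → ℤ) (y w : G),
  Sw M a e V γ b d c ε y w → ∀ s : ℤ, s = 1 ∨ s = -1 →
  ∑ᶠ χ ∈ Irr G, Complex.normSq (∑ j ∈ (Finset.range (2 ^ a)).filter (fun j => ¬ 2 ∣ j),
    (vv M b d (y ^ j) χ + s * vv M b d ((y * w) ^ j) χ)) = 2 ^ a * Nat.card V

/-- NR3: the number of the fixed characters.

Proof.  `R = Rf M N e`; let `R ≠ ∅`, `ψ ∈ R`, `p0, q0, p0', q0'` from VAL for `y`, `y w` (regular, RGW);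
`s = ±1` with `s = p0 p0'` modulo `4`.  Let `χ ∈ R`, `p, q, p', q'` from VAL.  BDV for `(χ, ψ)` and for
`(ψ, ψ)`, ARW: `(p + s p')² ≥ 4`.  The sum over `j` in BWS is
`2 ^ (a-1) (p + s p') + (q + s q') r2 ∑_j sg8 j`; for `a ≥ 3` `∑_j sg8 j = 0` (the odd `j < 2 ^ a`), for
`a = 2` `q = q' = 0`.  So its norm squared is `4 ^ (a-1) (p + s p')² ≥ 4 ^ a`, and by BWS
`|R| 4 ^ a ≤ 2 ^ a |V| ≤ 2 ^ a 4 ^ a`. -/
def Nr3Stmt : Prop := ∀ (M : Ideal (integralClosure ℤ ℂ)) [M.IsMaximal],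
  ((2 : ℕ) : integralClosure ℤ ℂ) ∈ M → ∀ (G : Type) [Group G] [Finite G] (N : ℕ), G3 G N →
  ∀ (a : ℕ) (e : G → FF M) (V : Subgroup G) (γ : G → FF M) (b : G → G → FF M) (d : G → ℕ)
  (c : ℕ) (ε : G → ℤ) (y w : G), Sw M a e V γ b d c ε y w → (Rf M N e).ncard ≤ 2 ^ a

/-- LW2: the bound for the number of modular characters.

Proof.  `K9.InxStmt`, GTP.  `ix V γ = 1`: `ln e = 1` (LN1).  Otherwise: the data from `T8.DatStmt`, `N` from
PR3, FX3 with ST3: `ln e ≤ |Rf M N e|`, NR3. -/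
def Lw2Stmt : Prop := ∀ (M : Ideal (integralClosure ℤ ℂ)) [M.IsMaximal],
  ((2 : ℕ) : integralClosure ℤ ℂ) ∈ M → ∀ (G : Type) [Group G] [Finite G] (e : G → FF M)
  (V : Subgroup G) (γ : G → FF M), Ld 2 e V γ → ∀ a : ℕ, 2 ≤ a → Monoid.exponent V = 2 ^ a →
  (∃ x y : G, V = Subgroup.closure {x, y}) → ln e ≤ 2 ^ a

/-! ## 6. The theorem -/

/-- TWA: the main theorem for block idempotents, `ℓ = 2`.

Proof.  As `T2.T2aStmt` (`Helper92_AT2/T2A.lean`), with `ℓ = 2` and the type: two generators, exponent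
`2 ^ a`, `a ≥ 2` (closed under quotients of exponent `2 ^ a`: the images of two generators generate;
no condition on the inertial index).  Induction on `|G|`.  If `opCore 2 G ≠ ⊥`: `YzrStmt`.
Otherwise `T2.Ih` holds by induction; `T2.FstStmt`: `f`; `T2.TesStmt`:
`YY ⊤ e = |G| (ln e - ln f_X)`; `1 ≤ ln e, ln f_X ≤ 2 ^ a` (`K9.LbdStmt`, LW2 for `G` and for
`X = N(U)`, `f_X`, `V_X`: `Fs.ld`, `V_X ≅ V`); `T2.DvxStmt`: `2 ^ a` divides `ln e - ln f_X`. -/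
def TwaStmt : Prop := Tt 2

/-- FNZ: the final theorem for the prime `ℓ`, from the theorem for block idempotents.

Proof.  As `T2.Fn2Stmt` (`Helper*_AT2/FN2.lean`): `e` the block of `χ`, `p : G → G/Z`,
`Z = opCore ℓ G`.  `H75.altSum_central`: `|G| altSum χ = |Z|² YY ℓ ⊤ (push p e)`.  `T2.DzaStmt`:
`Ld ℓ (push p e) (D.map p) γ`.  `Tt ℓ`. -/
def FnzStmt : Prop := ∀ (ℓ : ℕ) [Fact ℓ.Prime], Tt ℓ → ∀ (M : Ideal (integralClosure ℤ ℂ))
  [M.IsMaximal], (ℓ : integralClosure ℤ ℂ) ∈ M → ∀ (G : Type) [Group G] [Finite G],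
  opCore ℓ G ≤ Subgroup.center G → ∀ χ ∈ Irr G, ∀ D : Subgroup G, ML.IsDef ℓ M χ D →
  (∀ x ∈ D, ∀ y ∈ D, x * y * x⁻¹ * y⁻¹ ∈ opCore ℓ G) → ∀ (A : Type) [Group A] [Finite A]
  (p : G →* A), Function.Surjective p → p.ker = opCore ℓ G → ∀ a : ℕ, 2 ≤ a →
  Monoid.exponent (D.map p) = ℓ ^ a → (∃ x y : A, D.map p = Subgroup.closure {x, y}) →
  altSum ℓ M χ = 0

end Pool.Agent.PP.TW
end
end -- Pool.Agent.ATW.Stmts
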