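import Pool.Agent.Helper12_AWB.B098
import Pool.Agent.Helper12_AWB.B123

/-!
# Merged copies (generated) of the modules

* `Pool.Agent.Helper34_ATW.BDV`
* `Pool.Agent.Helper3_ATW.MMV`
* `Pool.Agent.Helper53_ATW.ZI2`
* `Pool.Agent.Helper65_ATW.PR3`
* `Pool.Agent.Helper76_ATW.GTP`
* `Pool.Agent.Helper9_ATW.LN1`
-/

set_option autoImplicit false

section -- Pool.Agent.Helper34_ATW.BDV

/-!
Row BDV of the squad ATW: the congruences for two fixed characters.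
-/

open scoped BigOperators

noncomputable section

namespace Pool.Agent.PP.TW.H34

open Pool.Agent.Helper51_AWC Pool.Agent.Helper79_WRA Pool.Agent.PP Pool.Agent.PP.KF
open Pool.Agent.PP.K9 Pool.Agent.PP.K9.H97 Pool.Agent.PP.H75 Pool.Agent.PP.T3 Pool.Agent.PP.T2
open Pool.Agent.PP.T5 Pool.Agent.PP.TB
open Pool.Agent.PP.T8 (rs pw fv rd Ip Rv vv Dat Fr)

attribute [local instance] Ideal.Quotient.field

/-- the subgroup of the elements `y ^ (m i) w ^ k` -/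
theorem ex_W {G : Type} [Group G] [Finite G] (y w : G) (a m n : ℕ) (hc : Commute y w)
    (hy : y ^ (2 ^ a) = 1) (hw : w ^ 2 = 1) (hm : m * n = 2 ^ a)
    (inj : ∀ j j' i i' : ℕ, y ^ j * w ^ i = y ^ j' * w ^ i' →
      j ≡ j' [MOD 2 ^ a] ∧ i ≡ i' [MOD 2]) :
    ∃ W : Subgroup G, (∀ g ∈ W, ∃ i k : ℕ, g = y ^ (m * i) * w ^ k) ∧ Nat.card W = n * 2 ∧
      ∀ F : G → ℂ, ∑ᶠ v : W, F v =
        ∑ i ∈ Finset.range n, ∑ k ∈ Finset.range 2, F (y ^ (m * i) * w ^ k) := by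
  have hpos : 0 < m * n := by rw [hm]; positivity
  have hm0 : 0 < m := Nat.pos_of_mul_pos_right hpos
  have hn0 : 0 < n := Nat.pos_of_mul_pos_left hpos
  have hmul : ∀ i k i' k' : ℕ, y ^ (m * i) * w ^ k * (y ^ (m * i') * w ^ k') =
      y ^ (m * (i + i')) * w ^ (k + k') := by
    intro i k i' k'
    have h1 : w ^ k * y ^ (m * i') = y ^ (m * i') * w ^ k := (hc.symm.pow_pow k (m * i')).eq
    rw [mul_add, pow_add, pow_add, mul_assoc, ← mul_assoc (w ^ k), h1]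
    simp only [mul_assoc]
  let W : Subgroup G :=
    { carrier := {g | ∃ i k : ℕ, g = y ^ (m * i) * w ^ k}
      mul_mem' := by
        rintro g g' ⟨i, k, rfl⟩ ⟨i', k', rfl⟩
        exact ⟨i + i', k + k', hmul i k i' k'⟩
      one_mem' := ⟨0, 0, by rw [Nat.mul_zero, pow_zero, pow_zero, mul_one]⟩
      inv_mem' := by
        rintro g ⟨i, k, rfl⟩
        refine ⟨i * (2 ^ a - 1), k, ?_⟩
        apply inv_eq_of_mul_eq_one_right
        rw [hmul]
        have h1 : m * (i + i * (2 ^ a - 1)) = 2 ^ a * (m * i) := by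
          have h2 : 1 + (2 ^ a - 1) = 2 ^ a := by
            have : 0 < 2 ^ a := by positivity
            omega
          calc m * (i + i * (2 ^ a - 1)) = m * i * (1 + (2 ^ a - 1)) := by ring
            _ = 2 ^ a * (m * i) := by rw [h2]; ring
        rw [h1, pow_mul, hy, one_pow, one_mul, ← two_mul, pow_mul, hw, one_pow] }
  have hWm : ∀ g, g ∈ W ↔ ∃ i k : ℕ, g = y ^ (m * i) * w ^ k := fun g => Iff.rfl
  let φ : Fin n × Fin 2 → W := fun x => ⟨y ^ (m * x.1.val) * w ^ x.2.val, x.1.val, x.2.val, rfl⟩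
  have hφ : Function.Bijective φ := by
    constructor
    · rintro ⟨i, k⟩ ⟨i', k'⟩ h
      have h1 : y ^ (m * i.val) * w ^ k.val = y ^ (m * i'.val) * w ^ k'.val :=
        congrArg Subtype.val h
      obtain ⟨h2, h3⟩ := inj _ _ _ _ h1
      have h4 : m * i.val < 2 ^ a := by
        rw [← hm]; exact Nat.mul_lt_mul_of_pos_left i.2 hm0
      have h5 : m * i'.val < 2 ^ a := by
        rw [← hm]; exact Nat.mul_lt_mul_of_pos_left i'.2 hm0
      have h6 := Nat.eq_of_mul_eq_mul_left hm0 (Nat.ModEq.eq_of_lt_of_lt h2 h4 h5)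
      have h7 := Nat.ModEq.eq_of_lt_of_lt h3 k.2 k'.2
      exact Prod.ext (Fin.ext h6) (Fin.ext h7)
    · rintro ⟨g, hg⟩
      obtain ⟨i, k, rfl⟩ := (hWm _).1 hg
      refine ⟨(⟨i % n, Nat.mod_lt _ hn0⟩, ⟨k % 2, Nat.mod_lt _ (by norm_num)⟩), ?_⟩
      apply Subtype.ext
      show y ^ (m * (i % n)) * w ^ (k % 2) = y ^ (m * i) * w ^ k
      have e1 : y ^ (m * i) = y ^ (m * (i % n)) := by
        have h1 : m * i = 2 ^ a * (i / n) + m * (i % n) := by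
          rw [← hm]
          calc m * i = m * (n * (i / n) + i % n) := by rw [Nat.div_add_mod]
            _ = m * n * (i / n) + m * (i % n) := by ring
        rw [h1, pow_add, pow_mul, hy, one_pow, one_mul]
      have e2 : w ^ k = w ^ (k % 2) := by
        have h1 : k = 2 * (k / 2) + k % 2 := (Nat.div_add_mod k 2).symm
        conv_lhs => rw [h1]
        rw [pow_add, pow_mul, hw, one_pow, one_mul]
      rw [e1, e2]
  refine ⟨W, fun g hg => (hWm g).1 hg, ?_, ?_⟩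
  · rw [← Nat.card_congr (Equiv.ofBijective φ hφ), Nat.card_prod, Nat.card_fin, Nat.card_fin]
  · intro F
    have h1 := finsum_comp_equiv (Equiv.ofBijective φ hφ) (f := fun v : W => F v)
    rw [← h1, finsum_eq_sum_of_fintype, Fintype.sum_prod_type, Finset.sum_range]
    refine Finset.sum_congr rfl fun i _ => ?_
    rw [Finset.sum_range]
    rfl

theorem r2_sq : r2 * r2 = -2 := by
  unfold r2
  have h1 : ((Real.sqrt 2 : ℝ) : ℂ) * ((Real.sqrt 2 : ℝ) : ℂ) = 2 := by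
    rw [← Complex.ofReal_mul, Real.mul_self_sqrt (by norm_num)]
    norm_num
  calc Complex.I * (Real.sqrt 2 : ℂ) * (Complex.I * (Real.sqrt 2 : ℂ))
      = Complex.I * Complex.I * ((Real.sqrt 2 : ℂ) * (Real.sqrt 2 : ℂ)) := by ring
    _ = -2 := by rw [h1, Complex.I_mul_I]; ring

theorem conj_r2 : starRingEnd ℂ r2 = -r2 := by
  unfold r2
  rw [map_mul, Complex.conj_I, Complex.conj_ofReal]
  ring

theorem sg8_sq (j : ℕ) : (sg8 j : ℂ) * sg8 j = 1 := by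
  unfold sg8
  split_ifs <;> norm_num

theorem r2_int : IsIntegral ℤ r2 := by
  refine ⟨Polynomial.X ^ 2 + Polynomial.C 2, ?_, ?_⟩
  · exact Polynomial.monic_X_pow_add_C 2 (by norm_num)
  · rw [Polynomial.eval₂_add, Polynomial.eval₂_pow, Polynomial.eval₂_X, Polynomial.eval₂_C, sq,
      r2_sq]
    norm_num

theorem sum_sg8 (n : ℕ) : ∑ i ∈ Finset.range (2 * n), sg8 (1 + 4 * i) = 0 := by
  induction n with
  | zero => rfl
  | succ n ih =>
    rw [show 2 * (n + 1) = 2 * n + 1 + 1 by ring, Finset.sum_range_succ, Finset.sum_range_succ, ih]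
    unfold sg8
    rw [if_pos (by omega), if_neg (by omega)]
    norm_num

section
variable {M : Ideal (integralClosure ℤ ℂ)} [M.IsMaximal]

theorem two_res (hM : ((2 : ℕ) : integralClosure ℤ ℂ) ∈ M) : rr M ((2 : ℤ) : ℂ) = 0 :=
  (dvd_of_rr (M := M) (ℓ := 2) Nat.prime_two hM).2 (dvd_refl _)

/-- an integer whose half is in the local ring is even -/
theorem even_of (hM : ((2 : ℕ) : integralClosure ℤ ℂ) ∈ M) {B : ℤ} {z : ℂ} (hz : z ∈ RM M)
    (h : (B : ℂ) = z * 2) : (2 : ℤ) ∣ B := by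
  refine (dvd_of_rr (M := M) (ℓ := 2) Nat.prime_two hM).1 ?_
  have h2 : ((2 : ℤ) : ℂ) ∈ RM M := (rr_int 2).1
  have h3 : (B : ℂ) = z * ((2 : ℤ) : ℂ) := by rw [h]; norm_num
  rw [h3, rr_mul hz h2, two_res hM, mul_zero]

theorem r2_res (hM : ((2 : ℕ) : integralClosure ℤ ℂ) ∈ M) : rr M r2 = 0 := by
  have h1 : r2 ∈ RM M := RM_of_int r2_int
  have h2 : rr M (r2 * r2) = 0 := by
    rw [r2_sq]
    have h3 : (-2 : ℂ) = ((-2 : ℤ) : ℂ) := by norm_num
    rw [h3]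
    exact (dvd_of_rr (M := M) (ℓ := 2) Nat.prime_two hM).2 ⟨-1, by norm_num⟩
  rw [rr_mul h1 h1] at h2
  exact mul_self_eq_zero.1 h2

/-- the final argument -/
theorem fin (hM : ((2 : ℕ) : integralClosure ℤ ℂ) ∈ M) {B D A E : ℤ} (hA : ¬ (2 : ℤ) ∣ A)
    (h1 : ((B : ℂ) + D * r2) / 2 ∈ RM M) (h2 : (B : ℂ) / 2 ∈ RM M)
    (h3 : rr M ((B : ℂ) / 2) = rr M ((A : ℂ) + E * r2)) : B % 4 = 2 ∧ (2 : ℤ) ∣ D := by
  have hB : (2 : ℤ) ∣ B := even_of hM h2 (by ring)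
  obtain ⟨B', rfl⟩ := hB
  have e1 : (((2 * B' : ℤ) : ℂ)) / 2 = (B' : ℂ) := by push_cast; ring
  rw [e1] at h3
  have h4 : rr M ((A : ℂ) + E * r2) = rr M (A : ℂ) := by
    have i1 : r2 ∈ RM M := RM_of_int r2_int
    rw [rr_add (rr_int A).1 ((RM M).mul_mem (rr_int E).1 i1), rr_mul (rr_int E).1 i1, r2_res hM,
      mul_zero, add_zero]
  have h5 : ¬ (2 : ℤ) ∣ B' := by
    intro h
    apply hA
    have h6 := (dvd_of_rr (M := M) (ℓ := 2) Nat.prime_two hM).2 h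
    rw [h3, h4] at h6
    exact (dvd_of_rr (M := M) (ℓ := 2) Nat.prime_two hM).1 h6
  refine ⟨by omega, ?_⟩
  have h7 : (D : ℂ) * r2 / 2 ∈ RM M := by
    have := (RM M).sub_mem h1 h2
    have e2 : (((2 * B' : ℤ) : ℂ) + D * r2) / 2 - ((2 * B' : ℤ) : ℂ) / 2 = D * r2 / 2 := by ring
    rwa [e2] at this
  have h8 := (RM M).mul_mem h7 h7
  have e3 : (D : ℂ) * r2 / 2 * (D * r2 / 2) = -((D : ℂ) * D) / 2 := by
    calc (D : ℂ) * r2 / 2 * (D * r2 / 2) = D * D * (r2 * r2) / 4 := by ring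
      _ = -((D : ℂ) * D) / 2 := by rw [r2_sq]; ring
  rw [e3] at h8
  have h9 : (2 : ℤ) ∣ -(D * D) := even_of hM h8 (by push_cast; ring)
  rw [dvd_neg] at h9
  rcases Int.prime_two.dvd_or_dvd h9 with h | h <;> exact h

end

/-- the product of two values -/
theorem prodv (p q p0 q0 s : ℤ) (hs : (s : ℂ) * s = 1) :
    ((p : ℂ) + s * q * r2) * starRingEnd ℂ ((p0 : ℂ) + s * q0 * r2) =
      ((p * p0 + 2 * (q * q0) : ℤ) : ℂ) + s * ((q * p0 - p * q0 : ℤ) : ℂ) * r2 := by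
  have h1 : starRingEnd ℂ ((p0 : ℂ) + s * q0 * r2) = (p0 : ℂ) - s * q0 * r2 := by
    rw [map_add, map_mul, map_mul, conj_r2, map_intCast, map_intCast,
      map_intCast]
    ring
  rw [h1]
  push_cast
  calc ((p : ℂ) + s * q * r2) * ((p0 : ℂ) - s * q0 * r2) =
      (p : ℂ) * p0 - (s * s) * (q * q0) * (r2 * r2) + s * (q * p0 - p * q0) * r2 := by ring
    _ = (p : ℂ) * p0 + 2 * (q * q0) + s * (q * p0 - p * q0) * r2 := by
      rw [hs, r2_sq]; ring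

theorem bdv (hco : HcoStmt) (avp : AvpStmt) (rgw : RgwStmt) : BdvStmt := by
  intro M _ hM G _ _ N hN a e V γ b d c ε y w S χ hχ ψ hψ p q p' q' p0 q0 p0' q0' v1 v2 v3 v4
  obtain ⟨f, hf, hfu, hfN⟩ := hco 2 M hM G e V γ b d c ε S.dat χ hχ.1 ψ hψ.1
  obtain ⟨r1, -, r3, r4⟩ := rgw M hM G a e V γ b d c ε y w S
  have hab : ∀ s ∈ V, ∀ t ∈ V, s * t = t * s := S.dat.ld.ab
  have hexp : ∀ v ∈ V, v ^ (2 ^ a) = 1 := by
    intro v hv
    have h1 := Monoid.pow_exponent_eq_one (⟨v, hv⟩ : V)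
    rw [S.exp] at h1
    exact congrArg Subtype.val h1
  have hpg : IsPGroup 2 V := by
    intro v
    exact ⟨a, Subtype.ext (hexp v.1 v.2)⟩
  have hf3 : ∀ v ∈ V, f (v ^ 3) = f v := by
    intro v hv
    have h1 := hfN N hN.cop hN.reg hχ.2 hψ.2 v hv
    rwa [hN.pow v ⟨a, hexp v hv⟩] at h1
  have hwV : w ∈ V := by
    obtain ⟨x, hx, rfl⟩ := S.wV
    exact V.pow_mem hx 2
  have hc : Commute y w := hab y S.yV w hwV
  have hy : y ^ 2 ^ a = 1 := hexp y S.yV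
  obtain ⟨x, hxV, hwx⟩ := S.wV
  have hcx : Commute y x := hab y S.yV x hxV
  -- values
  have val0 : ∀ j : ℕ, ¬ 2 ∣ j → f (y ^ j) =
      ((p * p0 + 2 * (q * q0) : ℤ) : ℂ) + sg8 j * ((q * p0 - p * q0 : ℤ) : ℂ) * r2 := by
    intro j hj
    have h1 := r1 j 0 hj
    rw [pow_zero, mul_one] at h1
    rw [hfu _ h1, v1.1 j hj, v3.1 j hj]
    exact prodv p q p0 q0 (sg8 j) (sg8_sq j)
  have val1 : ∀ j : ℕ, ¬ 2 ∣ j → f (y ^ j * w) =
      ((p' * p0' + 2 * (q' * q0') : ℤ) : ℂ) +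
        sg8 j * ((q' * p0' - p' * q0' : ℤ) : ℂ) * r2 := by
    intro j hj
    have h1 := r1 j 1 hj
    rw [pow_one, ← r4 j hj] at h1
    rw [← r4 j hj, hfu _ h1, v2.1 j hj, v4.1 j hj]
    exact prodv p' q' p0' q0' (sg8 j) (sg8_sq j)
  have s1 : sg8 1 = 1 := by unfold sg8; norm_num
  have hone : ¬ 2 ∣ 1 := by norm_num
  have fy : f y = ((p * p0 + 2 * (q * q0) : ℤ) : ℂ) + ((q * p0 - p * q0 : ℤ) : ℂ) * r2 := by
    have h1 := val0 1 hone
    rw [pow_one, s1, Int.cast_one, one_mul] at h1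
    exact h1
  have fyw : f (y * w) =
      ((p' * p0' + 2 * (q' * q0') : ℤ) : ℂ) + ((q' * p0' - p' * q0' : ℤ) : ℂ) * r2 := by
    have h1 := val1 1 hone
    rw [pow_one, s1, Int.cast_one, one_mul] at h1
    exact h1
  have hle : 2 ≤ a := S.le
  have hpow : 4 * 2 ^ (a - 2) = 2 ^ a := by
    have : a = 2 + (a - 2) := by omega
    conv_rhs => rw [this, pow_add]
    norm_num
  -- the first average
  have avg : ∀ m n : ℕ, m * n = 2 ^ a → 2 ∣ m → ∃ W : Subgroup G,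
      ((Nat.card W : ℂ)⁻¹ * ∑ᶠ v : W, f (y * v)) ∈ RM M ∧
      rr M ((Nat.card W : ℂ)⁻¹ * ∑ᶠ v : W, f (y * v)) = rr M (f y) ∧
      (Nat.card W : ℂ)⁻¹ * ∑ᶠ v : W, f (y * v) =
        ((n : ℂ) * 2)⁻¹ * ∑ i ∈ Finset.range n, (f (y ^ (1 + m * i)) + f (y ^ (1 + m * i) * w)) := by
    intro m n hmn hm2
    obtain ⟨W, hW1, hW2, hW3⟩ := ex_W y w a m n hc hy S.w2 hmn r3
    obtain ⟨m', rfl⟩ := hm2
    have hWV : W ≤ V := by
      intro g hg
      obtain ⟨i, k, rfl⟩ := hW1 g hg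
      exact V.mul_mem (V.pow_mem S.yV _) (V.pow_mem hwV _)
    have hWs : ∀ g ∈ W, ∃ x ∈ V, g = x ^ 2 := by
      intro g hg
      obtain ⟨i, k, rfl⟩ := hW1 g hg
      refine ⟨y ^ (m' * i) * x ^ k, V.mul_mem (V.pow_mem S.yV _) (V.pow_mem hxV _), ?_⟩
      rw [(hcx.pow_pow (m' * i) k).mul_pow, ← pow_mul, ← pow_mul, hwx, ← pow_mul]
      rw [show 2 * m' * i = m' * i * 2 by ring, show 2 * k = k * 2 by ring]
    obtain ⟨-, h1, h2⟩ := avp M hM G V hpg hab f hf hf3 W hWV hWs y S.yV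
    refine ⟨W, h1, h2, ?_⟩
    rw [hW3 (fun g => f (y * g)), hW2]
    push_cast
    congr 1
    refine Finset.sum_congr rfl fun i _ => ?_
    rw [Finset.sum_range_succ, Finset.sum_range_succ, Finset.sum_range_zero, zero_add, pow_zero,
      mul_one, pow_one, ← mul_assoc, ← pow_succ', Nat.add_comm]
  obtain ⟨W1, a1, -, a3⟩ := avg (2 ^ a) 1 (Nat.mul_one _) (dvd_pow_self 2 (by omega))
  obtain ⟨W2, b1, b2, b3⟩ := avg 4 (2 ^ (a - 2)) hpow (by norm_num)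
  rw [a3] at a1
  rw [b3] at b1 b2
  rw [Finset.sum_range_one, Nat.mul_zero, Nat.add_zero, pow_one, fy, fyw] at a1
  have hn0 : (((2 ^ (a - 2) : ℕ) : ℂ)) ≠ 0 := by
    have : (2 : ℕ) ^ (a - 2) ≠ 0 := by positivity
    exact_mod_cast this
  have hsum : ∑ i ∈ Finset.range (2 ^ (a - 2)), (f (y ^ (1 + 4 * i)) + f (y ^ (1 + 4 * i) * w)) =
      ((2 ^ (a - 2) : ℕ) : ℂ) * ((p * p0 + p' * p0' + 2 * (q * q0 + q' * q0') : ℤ) : ℂ) := by
    have h1 : ∀ i ∈ Finset.range (2 ^ (a - 2)),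
        f (y ^ (1 + 4 * i)) + f (y ^ (1 + 4 * i) * w) =
        ((p * p0 + p' * p0' + 2 * (q * q0 + q' * q0') : ℤ) : ℂ) +
          (sg8 (1 + 4 * i) : ℂ) *
            ((((q * p0 - p * q0) + (q' * p0' - p' * q0') : ℤ) : ℂ) * r2) := by
      intro i _
      have hodd : ¬ 2 ∣ 1 + 4 * i := by omega
      rw [val0 _ hodd, val1 _ hodd]
      push_cast
      ring
    rw [Finset.sum_congr rfl h1, Finset.sum_add_distrib, ← Finset.sum_mul, Finset.sum_const,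
      Finset.card_range, nsmul_eq_mul]
    have h2 : (∑ i ∈ Finset.range (2 ^ (a - 2)), (sg8 (1 + 4 * i) : ℂ)) *
        ((((q * p0 - p * q0) + (q' * p0' - p' * q0') : ℤ) : ℂ) * r2) = 0 := by
      rcases Nat.lt_or_ge 2 a with h3 | h3
      · have h4 : a - 2 = (a - 3) + 1 := by omega
        have h5 : (2 : ℕ) ^ (a - 2) = 2 * 2 ^ (a - 3) := by rw [h4, pow_succ]; ring
        have h6 := sum_sg8 (2 ^ (a - 3))
        rw [← h5] at h6
        have h7 : (∑ i ∈ Finset.range (2 ^ (a - 2)), (sg8 (1 + 4 * i) : ℂ)) = 0 := by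
          rw [← Int.cast_sum, h6, Int.cast_zero]
        rw [h7, zero_mul]
      · have e1 := v1.2.1 h3
        have e2 := v2.2.1 h3
        have e3 := v3.2.1 h3
        have e4 := v4.2.1 h3
        rw [e1, e2, e3, e4]
        simp
    rw [h2, add_zero]
  rw [hsum] at b1 b2
  have eB : (((2 ^ (a - 2) : ℕ) : ℂ) * 2)⁻¹ * (((2 ^ (a - 2) : ℕ) : ℂ) *
      ((p * p0 + p' * p0' + 2 * (q * q0 + q' * q0') : ℤ) : ℂ)) =
      ((p * p0 + p' * p0' + 2 * (q * q0 + q' * q0') : ℤ) : ℂ) / 2 := by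
    field_simp
  rw [eB] at b1 b2
  rw [fy] at b2
  have eA : (((1 : ℕ) : ℂ) * 2)⁻¹ * (((p * p0 + 2 * (q * q0) : ℤ) : ℂ) +
      ((q * p0 - p * q0 : ℤ) : ℂ) * r2 + (((p' * p0' + 2 * (q' * q0') : ℤ) : ℂ) +
        ((q' * p0' - p' * q0' : ℤ) : ℂ) * r2)) =
      (((p * p0 + p' * p0' + 2 * (q * q0 + q' * q0') : ℤ) : ℂ) +
        (((q * p0 - p * q0) + (q' * p0' - p' * q0') : ℤ) : ℂ) * r2) / 2 := by
    push_cast
    ring
  rw [eA] at a1
  have hA : ¬ (2 : ℤ) ∣ p * p0 + 2 * (q * q0) := by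
    intro h
    have h1 : (2 : ℤ) ∣ p * p0 := by
      have := dvd_sub h (Dvd.intro (q * q0) rfl)
      rwa [add_sub_cancel_right] at this
    have h2 : Odd (p * p0) := v1.2.2.mul v3.2.2
    rcases h2 with ⟨k, hk⟩
    omega
  exact fin hM hA a1 b1 b2

end Pool.Agent.PP.TW.H34
end
end -- Pool.Agent.Helper34_ATW.BDV

section -- Pool.Agent.Helper3_ATW.MMV

/-!
# Row MMV: the inner product in the section of a regular element
-/

open scoped BigOperators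

noncomputable section

namespace Pool.Agent.PP.TW.H3

open Pool.Agent.Helper51_AWC Pool.Agent.Helper79_WRA Pool.Agent.PP Pool.Agent.PP.KF
open Pool.Agent.PP.K9 Pool.Agent.PP.K9.H97 Pool.Agent.PP.H75 Pool.Agent.PP.T3 Pool.Agent.PP.T2
open Pool.Agent.PP.T5 Pool.Agent.PP.TB
open Pool.Agent.PP.T8 (rs pw fv rd Ip Rv vv Dat Fr)

attribute [local instance] Ideal.Quotient.field

section sums

variable {G : Type} [Group G] [Finite G]

/-- a sum over the regular elements of a subgroup -/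
theorem sum_reg (ℓ : ℕ) (C : Subgroup G) (f : G → ℂ) :
    ∑ᶠ (s : G) (_ : s ∈ C ∧ Reg ℓ s), f s = ∑ᶠ (s : C) (_ : Reg ℓ s), f s := by
  classical
  rw [H75.sum_sub C (fun s => ∑ᶠ (_ : s ∈ C ∧ Reg ℓ s), f s)
    (fun x hx => by rw [finsum_eq_if, if_neg (fun h => hx h.1)])]
  refine finsum_congr fun s => ?_
  have h1 : ((s : G) ∈ C ∧ Reg ℓ (s : G)) = Reg ℓ s := by
    apply propext
    unfold Reg
    rw [Subgroup.orderOf_coe]
    exact ⟨fun h => h.2, fun h => ⟨s.2, h⟩⟩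
  exact finsum_congr_Prop h1 fun _ => rfl

end sums

/-- MMV -/
theorem mmv (hLn1 : Ln1Stmt) (hLsb : LsbStmt) (hNil : NilStmt) (hRg1 : T8.Rg1Stmt)
    (hKer : KerStmt) (hLrk : LrkStmt) : MmvStmt := by
  classical
  intro ℓ _ M _ hM G _ _ e V γ b d c ε hD u hu χ hχ ψ hψ
  have hL := hD.lc u hu
  obtain ⟨hld, hix, hcard, -, -⟩ := hLsb ℓ M hM G e V γ hD.ld u hu.1 (b u) hL
  have hix1 : ix (V.subgroupOf (Cu u)) (fun t : Cu u => γ t) = 1 := by
    rw [hix]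
    exact Subgroup.relIndex_eq_one.2 hu.2.2
  obtain ⟨-, hnc, -⟩ := hNil ℓ M hM (Cu u) _ _ _ hld hix1
  have hln := hLn1 ℓ M hM (Cu u) _ _ _ hld hix1
  have hag := hRg1 ℓ M hM (Cu u) _ _ _ hld hix1
  obtain ⟨hd0, hd⟩ := hD.dg u hu
  rw [hcard] at hnc
  have := Fintype.ofFinite (Cu u)
  have hfin : (IrrE M (fun t : Cu u => b u t)).Finite := irr_finite'.subset fun _ h => h.1
  have hne : (IrrE M (fun t : Cu u => b u t)).Nonempty := by
    rw [← Set.ncard_pos hfin, hnc]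
    exact Nat.card_pos
  obtain ⟨κ₀, hκ₀⟩ := hne
  have hC : (Nat.card (Cu u) : ℂ) ≠ 0 := by exact_mod_cast (Nat.card_pos (α := Cu u)).ne'
  have hV : (Nat.card V : ℂ) ≠ 0 := by exact_mod_cast (Nat.card_pos (α := V)).ne'
  have hdC : (d u : ℂ) ≠ 0 := Nat.cast_ne_zero.2 hd0.ne'
  -- the kernel
  have hreg : ∀ s : G, (hs : s ∈ Cu u) → Reg ℓ s → Reg ℓ (⟨s, hs⟩ : Cu u) := by
    intro s hs h
    unfold Reg at *
    rwa [← Subgroup.orderOf_coe]
  have hkr : ∀ s ∈ Cu u, Reg ℓ s → ∀ c ∈ Cu u, Reg ℓ c → T5.kr M (Cu u) (b u) s c =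
      (Nat.card V : ℂ) * (H75.ext0 (Cu u) κ₀ s * starRingEnd ℂ (H75.ext0 (Cu u) κ₀ c)) := by
    intro s hs hs' c hc hc'
    unfold T5.kr
    have h1 : ∀ κ ∈ IrrE M (fun t : Cu u => b u t),
        H75.ext0 (Cu u) κ s * starRingEnd ℂ (H75.ext0 (Cu u) κ c) =
        H75.ext0 (Cu u) κ₀ s * starRingEnd ℂ (H75.ext0 (Cu u) κ₀ c) := by
      intro κ hκ
      have e1 : H75.ext0 (Cu u) κ s = H75.ext0 (Cu u) κ₀ s := by
        have h2 := hag κ hκ κ₀ hκ₀ ⟨s, hs⟩ (hreg s hs hs')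
        have h3 := H75.ext0_apply (Cu u) κ ⟨s, hs⟩
        have h4 := H75.ext0_apply (Cu u) κ₀ ⟨s, hs⟩
        exact h3.trans (h2.trans h4.symm)
      have e2 : H75.ext0 (Cu u) κ c = H75.ext0 (Cu u) κ₀ c := by
        have h2 := hag κ hκ κ₀ hκ₀ ⟨c, hc⟩ (hreg c hc hc')
        have h3 := H75.ext0_apply (Cu u) κ ⟨c, hc⟩
        have h4 := H75.ext0_apply (Cu u) κ₀ ⟨c, hc⟩
        exact h3.trans (h2.trans h4.symm)
      rw [e1, e2]
    rw [finsum_mem_congr rfl h1, finsum_mem_eq_finite_toFinset_sum _ hfin, Finset.sum_const,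
      nsmul_eq_mul, ← Set.ncard_eq_toFinset_card _ hfin, hnc]
  have h1C : (1 : G) ∈ Cu u := Subgroup.one_mem _
  have hreg1 : Reg ℓ (1 : G) := by
    unfold Reg
    rw [orderOf_one]
    exact Nat.coprime_one_left ℓ
  -- the functions `s ↦ χ(u s b)`
  have hgv : ∀ θ ∈ Irr G, ∀ s ∈ Cu u, Reg ℓ s → gv M (Cu u) (u * s) (b u) θ =
      H75.ext0 (Cu u) κ₀ s * vv M b d u θ := by
    intro θ hθ
    obtain ⟨X, hX⟩ : ∃ X : ℂ, X = (Nat.card (Cu u) : ℂ)⁻¹ *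
        ∑ᶠ (c : G) (_ : c ∈ Cu u ∧ Reg ℓ c), (Nat.card V : ℂ) *
          (starRingEnd ℂ (H75.ext0 (Cu u) κ₀ c) * θ (u * c)) := ⟨_, rfl⟩
    have h2 : ∀ s ∈ Cu u, Reg ℓ s → gv M (Cu u) (u * s) (b u) θ =
        H75.ext0 (Cu u) κ₀ s * X := by
      intro s hs hs'
      rw [hKer ℓ M hM G u u (fun c hc => (Subgroup.mem_centralizer_singleton_iff.1 hc).symm)
        (b u) hL.blk.ix s hs hs' θ hθ, hX, ← mul_assoc, mul_comm (H75.ext0 (Cu u) κ₀ s),
        mul_assoc]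
      congr 1
      have h3 : ∑ᶠ (c : G) (_ : c ∈ Cu u ∧ Reg ℓ c), T5.kr M (Cu u) (b u) s c * θ (u * c) =
          ∑ᶠ c ∈ {c : G | c ∈ Cu u ∧ Reg ℓ c}, H75.ext0 (Cu u) κ₀ s * ((Nat.card V : ℂ) *
            (starRingEnd ℂ (H75.ext0 (Cu u) κ₀ c) * θ (u * c))) := by
        refine finsum_mem_congr rfl fun c hc => ?_
        rw [hkr s hs hs' c hc.1 hc.2]
        ring
      rw [h3, ← mul_finsum_mem]
      rfl
    have h3 := h2 1 h1C hreg1
    rw [mul_one] at h3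
    have h4 : H75.ext0 (Cu u) κ₀ 1 = d u := (H75.ext0_apply (Cu u) κ₀ 1).trans (hd κ₀ hκ₀)
    have h5 : vv M b d u θ = X := by
      unfold T8.vv
      rw [h3, h4, mul_div_cancel_left₀ _ hdC]
    rw [h5]
    exact h2
  -- the sum of the squares
  have hsq : (Nat.card V : ℂ) * ((Nat.card (Cu u) : ℂ)⁻¹ *
      ∑ᶠ (s : G) (_ : s ∈ Cu u ∧ Reg ℓ s), H75.ext0 (Cu u) κ₀ s *
        starRingEnd ℂ (H75.ext0 (Cu u) κ₀ s)) = 1 := by
    have h1 := hLrk ℓ M hM (Cu u) (fun t : Cu u => b u t) hL.blk.blk.1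
    rw [hln, Nat.cast_one] at h1
    rw [h1, ← mul_assoc, mul_comm (Nat.card V : ℂ), mul_assoc]
    congr 1
    rw [sum_reg ℓ (Cu u) (fun s => H75.ext0 (Cu u) κ₀ s * starRingEnd ℂ (H75.ext0 (Cu u) κ₀ s))]
    have h2 : ∑ᶠ (s : Cu u) (_ : Reg ℓ s), ∑ᶠ χ ∈ IrrE M (fun t : Cu u => b u t),
        χ s * starRingEnd ℂ (χ s) = ∑ᶠ s ∈ {s : Cu u | Reg ℓ s}, (Nat.card V : ℂ) *
          (H75.ext0 (Cu u) κ₀ s * starRingEnd ℂ (H75.ext0 (Cu u) κ₀ s)) := by
      refine finsum_mem_congr rfl fun s hs => ?_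
      have h3 : ∀ κ ∈ IrrE M (fun t : Cu u => b u t), κ s * starRingEnd ℂ (κ s) =
          H75.ext0 (Cu u) κ₀ s * starRingEnd ℂ (H75.ext0 (Cu u) κ₀ s) := by
        intro κ hκ
        rw [hag κ hκ κ₀ hκ₀ s hs, H75.ext0_apply]
      rw [finsum_mem_congr rfl h3, finsum_mem_eq_finite_toFinset_sum _ hfin, Finset.sum_const,
        nsmul_eq_mul, ← Set.ncard_eq_toFinset_card _ hfin, hnc]
    rw [h2, ← mul_finsum_mem]
    rfl
  unfold mm
  have h6 : ∑ᶠ (s : G) (_ : s ∈ Cu u ∧ Reg ℓ s), gv M (Cu u) (u * s) (b u) χ *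
      starRingEnd ℂ (gv M (Cu u) (u * s) (b u) ψ) =
      ∑ᶠ s ∈ {s : G | s ∈ Cu u ∧ Reg ℓ s}, (vv M b d u χ * starRingEnd ℂ (vv M b d u ψ)) *
        (H75.ext0 (Cu u) κ₀ s * starRingEnd ℂ (H75.ext0 (Cu u) κ₀ s)) := by
    refine finsum_mem_congr rfl fun s hs => ?_
    rw [hgv χ hχ s hs.1 hs.2, hgv ψ hψ s hs.1 hs.2, map_mul]
    ring
  rw [h6, ← mul_finsum_mem]
  have h7 : ∑ᶠ s ∈ {s : G | s ∈ Cu u ∧ Reg ℓ s}, H75.ext0 (Cu u) κ₀ s *
      starRingEnd ℂ (H75.ext0 (Cu u) κ₀ s) = ∑ᶠ (s : G) (_ : s ∈ Cu u ∧ Reg ℓ s),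
        H75.ext0 (Cu u) κ₀ s * starRingEnd ℂ (H75.ext0 (Cu u) κ₀ s) := rfl
  rw [h7]
  linear_combination (vv M b d u χ * starRingEnd ℂ (vv M b d u ψ)) * hsq

end Pool.Agent.PP.TW.H3
end
end -- Pool.Agent.Helper3_ATW.MMV

section -- Pool.Agent.Helper53_ATW.ZI2

/-!
# Squad ATW, row ZI2: elements of the ring of the `2 ^ a`-th roots of unity fixed by `ζ ↦ ζ ^ 3`
-/

open scoped BigOperators

noncomputable section

namespace Pool.Agent.PP.TW.H53

open Pool.Agent.PP.TW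

/-- the sum -/
def Xs (n : ℕ) (m : ℕ → ℤ) (ζ : ℂ) (j : ℕ) : ℂ := ∑ i ∈ Finset.range n, (m i : ℂ) * ζ ^ (i * j)

theorem sum_two_mul (n : ℕ) (f : ℕ → ℂ) : ∑ i ∈ Finset.range (2 * n), f i =
    ∑ i ∈ Finset.range n, f (2 * i) + ∑ i ∈ Finset.range n, f (2 * i + 1) := by
  induction n with
  | zero => simp
  | succ n ih =>
    rw [show 2 * (n + 1) = 2 * n + 1 + 1 by ring, Finset.sum_range_succ, Finset.sum_range_succ, ih,
      Finset.sum_range_succ, Finset.sum_range_succ]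
    ring

theorem prim_half {a : ℕ} {ζ : ℂ} (h : IsPrimitiveRoot ζ (2 ^ (a + 1))) : ζ ^ (2 ^ a) = -1 := by
  have h1 : (ζ ^ (2 ^ a)) ^ 2 = 1 := by
    rw [← pow_mul, ← pow_succ]
    exact h.pow_eq_one
  rcases sq_eq_one_iff.1 h1 with h2 | h2
  · exact absurd h2 (h.pow_ne_one_of_pos_of_lt (by positivity)
      (Nat.pow_lt_pow_right (by norm_num) (by omega)))
  · exact h2

theorem xs_congr (n : ℕ) (m : ℕ → ℤ) (ζ : ℂ) (N : ℕ) (hN : ζ ^ N = 1) {j j' : ℕ}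
    (h : j ≡ j' [MOD N]) : Xs n m ζ j = Xs n m ζ j' := by
  unfold Xs
  refine Finset.sum_congr rfl fun i _ => ?_
  rw [pow_eq_pow_of_modEq (Nat.ModEq.mul_left i h) hN]

theorem xs_red {a : ℕ} {ζ : ℂ} (h : IsPrimitiveRoot ζ (2 ^ (a + 1))) (m : ℕ → ℤ) (j : ℕ)
    (hx : Xs (2 ^ (a + 1)) m ζ (j + 2 ^ a) = Xs (2 ^ (a + 1)) m ζ j) :
    Xs (2 ^ (a + 1)) m ζ j = Xs (2 ^ a) (fun i => m (2 * i)) (ζ ^ 2) j := by
  have h1 := prim_half h
  have h2 : 2 ^ (a + 1) = 2 * 2 ^ a := by rw [pow_succ, mul_comm]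
  have e : ∀ j, Xs (2 ^ (a + 1)) m ζ j = ∑ i ∈ Finset.range (2 ^ a),
      (m (2 * i) : ℂ) * ζ ^ (2 * i * j) +
      ∑ i ∈ Finset.range (2 ^ a), (m (2 * i + 1) : ℂ) * ζ ^ ((2 * i + 1) * j) := by
    intro j
    unfold Xs
    rw [h2, sum_two_mul]
  have e' : Xs (2 ^ (a + 1)) m ζ (j + 2 ^ a) = ∑ i ∈ Finset.range (2 ^ a),
      (m (2 * i) : ℂ) * ζ ^ (2 * i * j) -
      ∑ i ∈ Finset.range (2 ^ a), (m (2 * i + 1) : ℂ) * ζ ^ ((2 * i + 1) * j) := by
    rw [e, sub_eq_add_neg, ← Finset.sum_neg_distrib]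
    refine congrArg₂ (· + ·) (Finset.sum_congr rfl fun i _ => ?_)
      (Finset.sum_congr rfl fun i _ => ?_)
    · rw [show 2 * i * (j + 2 ^ a) = 2 * i * j + 2 ^ a * (2 * i) by ring, pow_add, pow_mul ζ (2 ^ a),
        h1, pow_mul (-1 : ℂ) 2 i]
      norm_num
    · rw [show (2 * i + 1) * (j + 2 ^ a) = (2 * i + 1) * j + 2 ^ a * (2 * i + 1) by ring, pow_add,
        pow_mul ζ (2 ^ a), h1, pow_succ (-1 : ℂ), pow_mul (-1 : ℂ) 2 i]
      norm_num
  have h3 : ∑ i ∈ Finset.range (2 ^ a), (m (2 * i + 1) : ℂ) * ζ ^ ((2 * i + 1) * j) = 0 := by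
    rw [e', e j] at hx
    linear_combination (-1 / 2 : ℂ) * hx
  rw [e j, h3, add_zero]
  unfold Xs
  refine Finset.sum_congr rfl fun i _ => ?_
  rw [← pow_mul]
  congr 2
  ring

theorem xs_pow {n : ℕ} {m : ℕ → ℤ} {ζ : ℂ} (h : ∀ j : ℕ, ¬ 2 ∣ j → Xs n m ζ (3 * j) = Xs n m ζ j)
    (k : ℕ) : ∀ j : ℕ, ¬ 2 ∣ j → Xs n m ζ (3 ^ k * j) = Xs n m ζ j := by
  induction k with
  | zero => intro j _; simp
  | succ k ih =>
    intro j hj
    rw [pow_succ, mul_assoc, ih (3 * j) (by omega), h j hj]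

theorem r2_sq : r2 ^ 2 = -2 := by
  unfold r2
  rw [mul_pow, Complex.I_sq, ← Complex.ofReal_pow, Real.sq_sqrt (by norm_num)]
  push_cast
  ring

theorem xs_eight (m : ℕ → ℤ) (ζ : ℂ) (j : ℕ) (h : (ζ ^ j) ^ 4 = -1) : Xs 8 m ζ j =
    ((m 0 - m 4 : ℤ) : ℂ) + ((m 1 - m 5 : ℤ) : ℂ) * ζ ^ j + ((m 2 - m 6 : ℤ) : ℂ) * (ζ ^ j) ^ 2 +
      ((m 3 - m 7 : ℤ) : ℂ) * (ζ ^ j) ^ 3 := by
  unfold Xs
  simp only [Finset.sum_range_succ, Finset.sum_range_zero, pow_mul' ζ]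
  push_cast
  linear_combination ((m 4 : ℂ) + m 5 * ζ ^ j + m 6 * (ζ ^ j) ^ 2 + m 7 * (ζ ^ j) ^ 3) * h

/-- the case of the eighth roots of unity -/
theorem base3 (ζ : ℂ) (hζ : ζ ^ 4 = -1) (m : ℕ → ℤ) (h : Xs 8 m ζ 3 = Xs 8 m ζ 1) :
    ∃ p q : ℤ, ∀ j : ℕ, ¬ 2 ∣ j → Xs 8 m ζ j = p + sg8 j * q * r2 := by
  have h8 : ζ ^ 8 = 1 := by
    rw [show (8 : ℕ) = 4 * 2 by norm_num, pow_mul, hζ]
    norm_num
  have hodd : ∀ j : ℕ, ¬ 2 ∣ j → (ζ ^ j) ^ 4 = -1 := by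
    intro j hj
    rw [← pow_mul, mul_comm, pow_mul, hζ]
    exact Odd.neg_one_pow (Nat.odd_iff.2 (by omega))
  rw [xs_eight m ζ 3 (hodd 3 (by norm_num)), xs_eight m ζ 1 (hodd 1 (by norm_num))] at h
  set A : ℤ := m 1 - m 5 with hA
  set B : ℤ := m 2 - m 6 with hB
  set C : ℤ := m 3 - m 7 with hC
  have h6 : ζ ^ 6 = - ζ ^ 2 := by linear_combination ζ ^ 2 * hζ
  have h9 : ζ ^ 9 = ζ := by linear_combination ζ * h8
  have e1 : ((A - C : ℤ) : ℂ) * (ζ - ζ ^ 3) = -2 * B * ζ ^ 2 := by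
    push_cast
    rw [← pow_mul, ← pow_mul, pow_one] at h
    norm_num at h
    rw [h6, h9] at h
    linear_combination -h
  have e2 : ((A - C : ℤ) : ℂ) ^ 2 * 2 = - (4 * (B : ℂ) ^ 2) := by
    have e3 : (ζ - ζ ^ 3) ^ 2 = 2 := by linear_combination (ζ ^ 2 - 2) * hζ
    have e4 : (ζ ^ 2) ^ 2 = -1 := by linear_combination hζ
    calc ((A - C : ℤ) : ℂ) ^ 2 * 2 = (((A - C : ℤ) : ℂ) * (ζ - ζ ^ 3)) ^ 2 := by
          rw [mul_pow, e3]
      _ = - (4 * (B : ℂ) ^ 2) := by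
          rw [e1, mul_pow, e4]
          ring
  have e5 : (A - C) ^ 2 * 2 = - (4 * B ^ 2) := by exact_mod_cast e2
  have hAC : A = C := by nlinarith [sq_nonneg (A - C), sq_nonneg B]
  have hB0 : B = 0 := by
    rw [hAC] at e5
    nlinarith [sq_nonneg B]
  have hτ : (ζ + ζ ^ 3) ^ 2 = r2 ^ 2 := by
    rw [r2_sq]
    linear_combination (ζ ^ 2 + 2) * hζ
  have key : ∀ j : ℕ, ¬ 2 ∣ j → Xs 8 m ζ j = ((m 0 - m 4 : ℤ) : ℂ) + A * (sg8 j * (ζ + ζ ^ 3)) := by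
    intro j hj
    rw [xs_eight m ζ j (hodd j hj), ← hA, ← hB, ← hC, ← hAC, hB0]
    have hj8 : ζ ^ j = ζ ^ (j % 8) := pow_eq_pow_mod j h8
    have hcase : j % 8 = 1 ∨ j % 8 = 3 ∨ j % 8 = 5 ∨ j % 8 = 7 := by omega
    rw [hj8]
    rcases hcase with hc | hc | hc | hc
    · rw [hc, show sg8 j = 1 from by simp [sg8, hc]]
      push_cast
      ring
    · rw [hc, show sg8 j = 1 from by simp [sg8, hc]]
      push_cast
      linear_combination (A : ℂ) * h9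
    · rw [hc, show sg8 j = -1 from by simp [sg8, hc]]
      push_cast
      linear_combination (A : ℂ) * (ζ * hζ + ζ ^ 7 * h8 + ζ ^ 3 * hζ)
    · rw [hc, show sg8 j = -1 from by simp [sg8, hc]]
      push_cast
      linear_combination (A : ℂ) * (ζ ^ 3 * hζ + ζ ^ 13 * h8 + ζ ^ 5 * h8 + ζ * hζ)
  rcases sq_eq_sq_iff_eq_or_eq_neg.1 hτ with ht | ht
  · refine ⟨m 0 - m 4, A, fun j hj => ?_⟩
    rw [key j hj, ht]
    ring
  · refine ⟨m 0 - m 4, -A, fun j hj => ?_⟩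
    rw [key j hj, ht]
    push_cast
    ring

theorem xs_main (hP : P3mStmt) (n : ℕ) : ∀ ζ : ℂ, IsPrimitiveRoot ζ (2 ^ (n + 3)) →
    ∀ m : ℕ → ℤ, (∀ j : ℕ, ¬ 2 ∣ j → Xs (2 ^ (n + 3)) m ζ (3 * j) = Xs (2 ^ (n + 3)) m ζ j) →
    ∃ p q : ℤ, ∀ j : ℕ, ¬ 2 ∣ j → Xs (2 ^ (n + 3)) m ζ j = p + sg8 j * q * r2 := by
  induction n with
  | zero =>
    intro ζ hζ m h
    have h4 : ζ ^ 4 = -1 := by
      have := prim_half (a := 2) hζ
      exact this
    exact base3 ζ h4 m (h 1 (by norm_num))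
  | succ n ih =>
    intro ζ hζ m h
    have hζ' : IsPrimitiveRoot ζ (2 ^ ((n + 3) + 1)) := by
      rw [show n + 3 + 1 = n + 1 + 3 by ring]
      exact hζ
    rw [show n + 1 + 3 = (n + 3) + 1 by ring] at h ⊢
    obtain ⟨k, hk⟩ := hP (n + 3 + 1) (1 + 2 ^ (n + 3)) (Or.inl (by
      rw [pow_add, show (2 : ℕ) ^ 3 = 8 by norm_num]
      exact (Nat.modEq_iff_dvd' (by omega)).2 ⟨2 ^ n, by
        rw [Nat.add_sub_cancel_left]; ring⟩ |>.symm))
    have hsh : ∀ j : ℕ, ¬ 2 ∣ j → Xs (2 ^ (n + 3 + 1)) m ζ (j + 2 ^ (n + 3)) =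
        Xs (2 ^ (n + 3 + 1)) m ζ j := by
      intro j hj
      have h1 : 3 ^ k * j ≡ j + 2 ^ (n + 3) [MOD 2 ^ (n + 3 + 1)] := by
        refine (Nat.ModEq.mul_right j hk).trans ?_
        obtain ⟨i, hi⟩ : ∃ i, j = 2 * i + 1 := ⟨j / 2, by omega⟩
        have h2 : (1 + 2 ^ (n + 3)) * j = j + 2 ^ (n + 3) + 2 ^ (n + 3 + 1) * i := by
          rw [hi, pow_succ]
          ring
        rw [h2]
        exact (Nat.ModEq.refl _).trans (by
          have := Nat.add_mul_mod_self_left (j + 2 ^ (n + 3)) (2 ^ (n + 3 + 1)) i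
          exact this)
      rw [← xs_congr _ m ζ _ hζ'.pow_eq_one h1]
      exact xs_pow h k j hj
    have hred : ∀ j : ℕ, ¬ 2 ∣ j → Xs (2 ^ (n + 3 + 1)) m ζ j =
        Xs (2 ^ (n + 3)) (fun i => m (2 * i)) (ζ ^ 2) j :=
      fun j hj => xs_red hζ' m j (hsh j hj)
    have hζ2 : IsPrimitiveRoot (ζ ^ 2) (2 ^ (n + 3)) :=
      hζ'.pow (by positivity) (by rw [pow_succ, mul_comm])
    obtain ⟨p, q, hpq⟩ := ih (ζ ^ 2) hζ2 (fun i => m (2 * i)) (fun j hj => by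
      rw [← hred j hj, ← hred (3 * j) (by omega)]
      exact h j hj)
    exact ⟨p, q, fun j hj => (hred j hj).trans (hpq j hj)⟩

/-- ROW ZI2 -/
theorem zi2_ : P3mStmt → Zi2Stmt := by
  intro hP a ha ζ hζ m x hx h3
  have hX : ∀ j, x j = Xs (2 ^ a) m ζ j := hx
  have h3' : ∀ j : ℕ, ¬ 2 ∣ j → Xs (2 ^ a) m ζ (3 * j) = Xs (2 ^ a) m ζ j := by
    intro j hj
    rw [← hX, ← hX]
    exact h3 j hj
  simp only [hX]
  obtain rfl | rfl | ⟨n, rfl⟩ : a = 1 ∨ a = 2 ∨ ∃ n, a = n + 3 := by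
    rcases Nat.lt_or_ge a 3 with h | h
    · omega
    · exact Or.inr (Or.inr ⟨a - 3, by omega⟩)
  · have h1 : ζ = -1 := by
      have := prim_half (a := 0) hζ
      rwa [pow_zero, pow_one] at this
    refine ⟨m 0 - m 1, 0, fun j hj => ?_, fun _ => rfl⟩
    have h2 : ζ ^ j = -1 := by
      rw [h1]
      exact Odd.neg_one_pow (Nat.odd_iff.2 (by omega))
    unfold Xs
    rw [show (2 : ℕ) ^ 1 = 2 by norm_num]
    simp only [Finset.sum_range_succ, Finset.sum_range_zero, pow_mul' ζ, h2]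
    push_cast
    ring
  · have h1 : ζ ^ 2 = -1 := prim_half (a := 1) hζ
    have hodd : ∀ j : ℕ, ¬ 2 ∣ j → (ζ ^ j) ^ 2 = -1 := by
      intro j hj
      rw [← pow_mul, mul_comm, pow_mul, h1]
      exact Odd.neg_one_pow (Nat.odd_iff.2 (by omega))
    have e : ∀ j : ℕ, ¬ 2 ∣ j → Xs (2 ^ 2) m ζ j = ((m 0 - m 2 : ℤ) : ℂ) +
        ((m 1 - m 3 : ℤ) : ℂ) * ζ ^ j := by
      intro j hj
      unfold Xs
      rw [show (2 : ℕ) ^ 2 = 4 by norm_num]
      simp only [Finset.sum_range_succ, Finset.sum_range_zero, pow_mul' ζ]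
      push_cast
      linear_combination ((m 2 : ℂ) + m 3 * ζ ^ j) * hodd j hj
    have h4 := h3' 1 (by norm_num)
    rw [e _ (by norm_num), e _ (by norm_num)] at h4
    have hζ0 : ζ ≠ 0 := hζ.ne_zero (by norm_num)
    have h5 : ((m 1 - m 3 : ℤ) : ℂ) * (2 * ζ) = 0 := by
      have h6 : ζ ^ (3 * 1) = - ζ := by
        rw [show 3 * 1 = 3 by norm_num]
        linear_combination ζ * h1
      rw [h6] at h4
      rw [pow_one] at h4
      linear_combination -h4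
    have h7 : ((m 1 - m 3 : ℤ) : ℂ) = 0 := by
      rcases mul_eq_zero.1 h5 with h | h
      · exact h
      · exact absurd h (mul_ne_zero (by norm_num) hζ0)
    refine ⟨m 0 - m 2, 0, fun j hj => ?_, fun _ => rfl⟩
    rw [e j hj, h7]
    push_cast
    ring
  · obtain ⟨p, q, hpq⟩ := xs_main hP n ζ hζ m h3'
    exact ⟨p, q, hpq, fun h => by omega⟩

end Pool.Agent.PP.TW.H53
end
end -- Pool.Agent.Helper53_ATW.ZI2

section -- Pool.Agent.Helper65_ATW.PR3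

/-! Squad ATW, row PR3: existence of the exponent `N`. -/

open scoped BigOperators

noncomputable section

namespace Pool.Agent.PP.TW.H65

open Pool.Agent.Helper51_AWC Pool.Agent.Helper79_WRA Pool.Agent.PP Pool.Agent.PP.KF
open Pool.Agent.PP.K9 Pool.Agent.PP.K9.H97 Pool.Agent.PP.H75 Pool.Agent.PP.T3 Pool.Agent.PP.T2
open Pool.Agent.PP.T5 Pool.Agent.PP.TB

/-- PR3 -/
theorem pr3 (hP3m : P3mStmt) : Pr3Stmt := by
  intro G _ _
  have hp : Nat.Prime 2 := Nat.prime_two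
  obtain ⟨n, hn⟩ : ∃ n : ℕ, n = Nat.card G := ⟨_, rfl⟩
  have hn0 : n ≠ 0 := by
    rw [hn]
    exact Nat.card_pos.ne'
  obtain ⟨a, ha⟩ : ∃ a : ℕ, a = n.factorization 2 := ⟨_, rfl⟩
  obtain ⟨m, hm⟩ : ∃ m : ℕ, m = n / 2 ^ a := ⟨_, rfl⟩
  have hnm : 2 ^ a * m = n := by
    rw [hm, ha]
    exact Nat.ordProj_mul_ordCompl_eq_self n 2
  have hcop : Nat.Coprime 2 m := by
    rw [hm, ha]
    exact Nat.coprime_ordCompl hp hn0
  have hc2 : Nat.Coprime (2 ^ (a + 1)) m := Nat.Coprime.pow_left _ hcop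
  obtain ⟨N, hN1, hN2⟩ := Nat.chineseRemainder hc2 3 1
  have hNl1 : Nat.Coprime N 2 := by
    have h1 : N ≡ 3 [MOD 2] := hN1.of_dvd (dvd_pow_self 2 (by omega))
    have h2 := h1.gcd_eq
    have h3 : Nat.gcd 3 2 = 1 := by norm_num
    rw [h3] at h2
    exact h2
  have hNm : Nat.Coprime N m := by
    have := hN2.gcd_eq
    rw [Nat.gcd_one_left] at this
    exact this
  have hord : ∀ y : G, El 2 y → orderOf y ∣ 2 ^ (a + 1) := by
    intro y hy
    obtain ⟨i, hi⟩ := hy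
    have h3 : orderOf y ∣ 2 ^ i := orderOf_dvd_of_pow_eq_one hi
    have h4 : orderOf y ∣ 2 ^ a * m := by
      rw [hnm, hn]
      exact orderOf_dvd_natCard y
    have h5 : Nat.Coprime (orderOf y) m :=
      Nat.Coprime.coprime_dvd_left h3 (Nat.Coprime.pow_left _ hcop)
    exact (h5.dvd_of_dvd_mul_right h4).trans (pow_dvd_pow _ (by omega))
  refine ⟨N, ?_, ?_, ?_, ?_⟩
  · rw [← hn, ← hnm]
    exact Nat.Coprime.mul_right (Nat.Coprime.pow_right _ hNl1) hNm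
  · intro g hg
    have h1 : orderOf g ∣ m := by
      have h2 : orderOf g ∣ 2 ^ a * m := by
        rw [hnm, hn]
        exact orderOf_dvd_natCard g
      exact (Nat.Coprime.pow_right a hg).dvd_of_dvd_mul_left h2
    have h2 : g ^ N = g ^ 1 := pow_eq_pow_iff_modEq.2 (hN2.of_dvd h1)
    rw [h2, pow_one]
  · intro y hy
    exact pow_eq_pow_iff_modEq.2 (hN1.of_dvd (hord y hy))
  · intro j hj
    obtain ⟨k, hk⟩ := hP3m (a + 1) j hj
    refine ⟨k, fun y hy => ?_⟩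
    apply pow_eq_pow_iff_modEq.2
    exact ((hN1.pow k).trans hk).of_dvd (hord y hy)

end Pool.Agent.PP.TW.H65
end
end -- Pool.Agent.Helper65_ATW.PR3

section -- Pool.Agent.Helper76_ATW.GTP

/-!
# Squad ATW, row GTP: the two cases
-/

open scoped BigOperators

set_option autoImplicit false

noncomputable section

namespace Pool.Agent.PP.TW.H76

open Pool.Agent.Helper51_AWC Pool.Agent.Helper79_WRA Pool.Agent.PP Pool.Agent.PP.KF
open Pool.Agent.PP.K9 Pool.Agent.PP.K9.H97 Pool.Agent.PP.H75 Pool.Agent.PP.T3 Pool.Agent.PP.T2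
open Pool.Agent.PP.T5 Pool.Agent.PP.TB
open Pool.Agent.PP.T8 (rs pw fv rd Ip Rv vv Dat Fr)

/-- a commutative group with two generators and exponent dividing `n` has at most `n * n`
elements -/
theorem card_two_gen (V : Type) [CommGroup V] [Finite V] (n : ℕ) (hn : 0 < n)
    (hexp : ∀ v : V, v ^ n = 1) (x y : V) (h : (⊤ : Subgroup V) = Subgroup.closure {x, y}) :
    Nat.card V ≤ n * n := by
  have hpow : ∀ (v : V) (m : ℤ), ∃ i : Fin n, v ^ (i : ℕ) = v ^ m := by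
    intro v m
    have hn' : (0 : ℤ) < n := by exact_mod_cast hn
    have h1 : 0 ≤ m % n := Int.emod_nonneg m hn'.ne'
    have h2 : m % n < n := Int.emod_lt_of_pos m hn'
    refine ⟨⟨(m % n).toNat, by omega⟩, ?_⟩
    show v ^ (m % n).toNat = v ^ m
    have h3 : v ^ m = v ^ (m % n) := by
      conv_lhs => rw [← Int.mul_ediv_add_emod m n]
      rw [zpow_add, zpow_mul, zpow_natCast, hexp, one_zpow, one_mul]
    rw [h3, ← zpow_natCast, Int.toNat_of_nonneg h1]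
  have hs : Function.Surjective (fun p : Fin n × Fin n => x ^ (p.1 : ℕ) * y ^ (p.2 : ℕ)) := by
    intro v
    have hv : v ∈ Subgroup.closure {x, y} := by
      rw [← h]
      exact Subgroup.mem_top v
    obtain ⟨m, k, hmk⟩ := Subgroup.mem_closure_pair.1 hv
    obtain ⟨i, hi⟩ := hpow x m
    obtain ⟨j, hj⟩ := hpow y k
    exact ⟨(i, j), by rw [← hmk, ← hi, ← hj]⟩
  have h1 := Nat.card_le_card_of_surjective _ hs
  rwa [Nat.card_prod, Nat.card_fin] at h1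

theorem gtp (hP : PypStmt) : GtpStmt := by
  intro F _ hF G _ _ e V γ hL hix a ha hexp hgen
  have hab : ∀ a b : V, a * b = b * a := fun a b => Subtype.ext (hL.ab a a.2 b b.2)
  let _ : CommGroup V := { (inferInstance : Group V) with mul_comm := hab }
  have hTN : Tg V γ ≤ Subgroup.normalizer (V : Set G) := inf_le_left
  let f : Tg V γ →* MulAut V := (V.normalizerMonoidHom).comp (Subgroup.inclusion hTN)
  have hfv : ∀ (t : Tg V γ) (v : V), ((f t v : V) : G) = t * v * (t : G)⁻¹ := fun t v => rfl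
  have hker : ∀ t : Tg V γ, f t = 1 ↔ (t : G) ∈ Subgroup.centralizer (V : Set G) := by
    intro t
    constructor
    · intro h
      rw [Subgroup.mem_centralizer_iff]
      intro v hv
      have h1 : f t ⟨v, hv⟩ = ⟨v, hv⟩ := by rw [h]; rfl
      have h2 := congrArg (fun z : V => (z : G)) h1
      have h3 : (t : G) * v * (t : G)⁻¹ = v := (hfv t ⟨v, hv⟩).symm.trans h2
      calc v * (t : G) = ((t : G) * v * (t : G)⁻¹) * t := by rw [h3]
        _ = t * v := by group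
    · intro h
      ext v
      rw [hfv]
      have h1 := (Subgroup.mem_centralizer_iff.1 h) v v.2
      change (t : G) * v * (t : G)⁻¹ = v
      rw [← h1]
      group
  have hkk : f.ker = (Subgroup.centralizer (V : Set G)).subgroupOf (Tg V γ) := by
    ext t
    rw [MonoidHom.mem_ker, hker, Subgroup.mem_subgroupOf]
  have hcard : Nat.card f.range = ix V γ := by
    rw [← Subgroup.index_ker, hkk]
    rfl
  obtain ⟨x, z, hxz⟩ := hgen
  have hx : x ∈ V := by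
    rw [hxz]; exact Subgroup.subset_closure (Set.mem_insert _ _)
  have hz : z ∈ V := by
    rw [hxz]; exact Subgroup.subset_closure (Set.mem_insert_of_mem _ rfl)
  have hclo : (⊤ : Subgroup V) = Subgroup.closure {⟨x, hx⟩, ⟨z, hz⟩} := by
    apply Subgroup.map_injective V.subtype_injective
    rw [← MonoidHom.range_eq_map, Subgroup.range_subtype, MonoidHom.map_closure, Set.image_pair]
    exact hxz
  rcases hP V a ha hexp ⟨⟨x, hx⟩, ⟨z, hz⟩, hclo⟩ f.range (by rw [hcard]; exact hix) with h | h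
  · left
    rw [← hcard, h]
    exact Nat.card_eq_one_iff_unique.2 ⟨inferInstance, inferInstance⟩
  · obtain ⟨h3, hfree, y, w, x', hy, hw, hw2, hyw⟩ := h
    right
    refine ⟨by rw [← hcard, h3], ?_, ?_, y, w, y.2, ?_, ⟨x', x'.2, ?_⟩, ?_, ?_⟩
    · intro t ht v hv hv1 htv
      rcases hfree (f ⟨t, ht⟩) ⟨⟨t, ht⟩, rfl⟩ ⟨v, hv⟩ (by
        apply Subtype.ext
        rw [hfv]
        show t * v * t⁻¹ = v
        rw [htv]
        group) with h4 | h4
      · exact absurd (congrArg (fun u : V => (u : G)) h4) hv1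
      · exact (hker ⟨t, ht⟩).1 h4
    · have h4 := card_two_gen V (2 ^ a) (by positivity) (fun v => by
        rw [← hexp]
        exact Monoid.pow_exponent_eq_one v) ⟨x, hx⟩ ⟨z, hz⟩ hclo
      calc Nat.card V ≤ 2 ^ a * 2 ^ a := h4
        _ = 4 ^ a := by rw [← mul_pow]; norm_num
    · rw [Subgroup.orderOf_coe]
      exact hy
    · rw [hw]
      rfl
    · have := congrArg (fun u : V => (u : G)) hw2
      exact this
    · intro k h4
      exact hyw k (Subtype.ext h4)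

end Pool.Agent.PP.TW.H76
end
end -- Pool.Agent.Helper76_ATW.GTP

section -- Pool.Agent.Helper9_ATW.LN1

/-!
# Squad ATW, row LN1: blocks of inertial index one have one modular character
-/

set_option autoImplicit false

open scoped BigOperators

noncomputable section

namespace Pool.Agent.PP.TW.H9

open Pool.Agent.Helper51_AWC Pool.Agent.Helper79_WRA Pool.Agent.PP Pool.Agent.PP.KF
open Pool.Agent.PP.K9 Pool.Agent.PP.K9.H97 Pool.Agent.PP.H75 Pool.Agent.PP.T3 Pool.Agent.PP.T2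
open Pool.Agent.PP.T5 Pool.Agent.PP.TB
open Pool.Agent.PP.T8 (rs pw fv rd Ip Rv vv Dat Fr)

attribute [local instance] Ideal.Quotient.field

/-- the expansion of a function in the span of the characters of a block -/
theorem expand {M : Ideal (integralClosure ℤ ℂ)} [M.IsMaximal] {H : Type} [Group H] [Fintype H]
    (b : H → FF M) (S : Finset (H → ℂ)) (hS : ∀ κ, κ ∈ S ↔ κ ∈ IrrE M b) (f : H → ℂ)
    (hf : f ∈ Submodule.span ℂ (IrrE M b)) (x : H) :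
    f x = ∑ κ ∈ S, ((Fintype.card H : ℂ)⁻¹ * ∑ y, f y * κ y⁻¹) * κ x := by
  classical
  have hc : (Fintype.card H : ℂ) ≠ 0 := by exact_mod_cast Fintype.card_ne_zero
  induction hf using Submodule.span_induction with
  | mem f hf =>
    rw [Finset.sum_eq_single f]
    · rw [irr_orth_self hf.1, inv_mul_cancel₀ hc, one_mul]
    · intro κ hκ hne
      rw [irr_orth_ne hf.1 ((hS κ).1 hκ).1 (Ne.symm hne), mul_zero, zero_mul]
    · intro h
      exact absurd ((hS f).2 hf) h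
  | zero => simp
  | add f g _ _ h1 h2 =>
    rw [Pi.add_apply, h1, h2, ← Finset.sum_add_distrib]
    refine Finset.sum_congr rfl fun κ _ => ?_
    have : ∑ y, (f + g) y * κ y⁻¹ = ∑ y, f y * κ y⁻¹ + ∑ y, g y * κ y⁻¹ := by
      rw [← Finset.sum_add_distrib]
      exact Finset.sum_congr rfl fun y _ => by rw [Pi.add_apply, add_mul]
    rw [this]
    ring
  | smul a f _ h1 =>
    rw [Pi.smul_apply, smul_eq_mul, h1, Finset.mul_sum]
    refine Finset.sum_congr rfl fun κ _ => ?_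
    have : ∑ y, (a • f) y * κ y⁻¹ = a * ∑ y, f y * κ y⁻¹ := by
      rw [Finset.mul_sum]
      exact Finset.sum_congr rfl fun y _ => by rw [Pi.smul_apply, smul_eq_mul, mul_assoc]
    rw [this]
    ring

theorem ln1 : T3.NilStmt → T8.Rg1Stmt → T3.LrkStmt → K9.RotStmt → Ln1Stmt := by
  classical
  intro hnil hrg1 hlrk hrot ℓ _ M _ hM H _ _ b V γ hb hix
  have hFt : Fintype H := Fintype.ofFinite H
  have hid : IsIdem b := hb.blk.1
  obtain ⟨-, hcard, -⟩ := hnil ℓ M hM H b V γ hb hix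
  have hfin : (IrrE M b).Finite := (irr_finite' (G := H)).subset fun χ h => h.1
  set S : Finset (H → ℂ) := hfin.toFinset with hS
  have hSm : ∀ κ, κ ∈ S ↔ κ ∈ IrrE M b := fun κ => hfin.mem_toFinset
  have hScard : S.card = Nat.card V := by
    rw [← hcard, Set.ncard_eq_toFinset_card _ hfin]
  have hVpos : 0 < Nat.card V := Nat.card_pos
  obtain ⟨κ₀, hκS⟩ : S.Nonempty := by
    rw [← Finset.card_pos, hScard]
    exact hVpos
  have hκ₀ : κ₀ ∈ IrrE M b := (hSm κ₀).1 hκS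
  have hag : ∀ κ ∈ S, ∀ s, Reg ℓ s → κ s = κ₀ s := fun κ hκ s hs =>
    hrg1 ℓ M hM H b V γ hb hix κ ((hSm κ).1 hκ) κ₀ hκ₀ s hs
  have hcc : (Nat.card H : ℂ) = Fintype.card H := by rw [Nat.card_eq_fintype_card]
  set t : ℂ := (Fintype.card H : ℂ)⁻¹ *
    ∑ s ∈ Finset.univ.filter (fun s : H => Reg ℓ s), κ₀ s * starRingEnd ℂ (κ₀ s) with ht
  -- the number of modular characters
  have hln : (ln b : ℂ) = Nat.card V * t := by
    rw [hlrk ℓ M hM H b hid, hcc, ht]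
    have h1 : ∑ᶠ (s : H) (_ : Reg ℓ s), ∑ᶠ χ ∈ IrrE M b, χ s * starRingEnd ℂ (χ s) =
        ∑ s ∈ Finset.univ.filter (fun s : H => Reg ℓ s),
          (Nat.card V : ℂ) * (κ₀ s * starRingEnd ℂ (κ₀ s)) := by
      rw [finsum_eq_sum_of_fintype, Finset.sum_filter]
      refine Finset.sum_congr rfl fun s _ => ?_
      by_cases hs : Reg ℓ s
      · rw [if_pos hs, finsum_eq_if, if_pos hs]
        have h2 : ∑ᶠ χ ∈ IrrE M b, χ s * starRingEnd ℂ (χ s) =
            ∑ χ ∈ S, χ s * starRingEnd ℂ (χ s) := by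
          rw [hS, finsum_mem_eq_finite_toFinset_sum _ hfin]
        rw [h2, Finset.sum_congr rfl fun χ hχ => by rw [hag χ hχ s hs], Finset.sum_const,
          hScard, nsmul_eq_mul]
      · rw [if_neg hs, finsum_eq_if, if_neg hs]
    rw [h1, ← Finset.mul_sum]
    ring
  -- the restriction of `κ₀` to the regular elements
  set g : H → ℂ := fun x => if Reg ℓ x then κ₀ x else 0 with hg
  have hgs : g ∈ Submodule.span ℂ (IrrE M b) := by
    have := (hrot ℓ M hM H b hid).1 κ₀ (Submodule.subset_span hκ₀)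
    refine (congrArg (· ∈ Submodule.span ℂ (IrrE M b)) ?_).mp this
    funext x
    by_cases hx : Reg ℓ x
    · simp [hg, hx]
    · simp [hg, hx]
  have hcoef : ∀ κ ∈ S, (Fintype.card H : ℂ)⁻¹ * ∑ y, g y * κ y⁻¹ = t := by
    intro κ hκ
    rw [ht, Finset.sum_filter]
    congr 1
    refine Finset.sum_congr rfl fun y _ => ?_
    by_cases hy : Reg ℓ y
    · rw [if_pos hy, hg]
      simp only [if_pos hy]
      rw [← H94.irr_star ((hSm κ).1 hκ).1, hag κ hκ y hy]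
    · rw [if_neg hy, hg]
      simp only [if_neg hy, zero_mul]
  have hreg1 : Reg ℓ (1 : H) := by
    unfold Reg
    rw [orderOf_one]
    exact Nat.coprime_one_left ℓ
  have h1 := expand b S hSm g hgs 1
  have h2 : g 1 = κ₀ 1 := by
    rw [hg]
    simp only [if_pos hreg1]
  rw [h2, Finset.sum_congr rfl fun κ hκ => by rw [hcoef κ hκ, hag κ hκ 1 hreg1],
    Finset.sum_const, hScard, nsmul_eq_mul] at h1
  have hκ1 : κ₀ 1 ≠ 0 := irr_one_ne hκ₀.1
  have h3 : (Nat.card V : ℂ) * t = 1 := by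
    have : ((Nat.card V : ℂ) * t) * κ₀ 1 = 1 * κ₀ 1 := by
      rw [one_mul]
      conv_rhs => rw [h1]
      ring
    exact mul_right_cancel₀ hκ1 this
  rw [h3] at hln
  exact_mod_cast hln

end Pool.Agent.PP.TW.H9
end
end -- Pool.Agent.Helper9_ATW.LN1
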