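import Pool.Agent.Helper12_AWB.B098
import Pool.Agent.Helper12_AWB.B121
import Pool.Agent.Helper12_AWB.B125

/-!
# Merged copies (generated) of the modules

* `Pool.Agent.Helper32_AT5.ZIM`
* `Pool.Agent.Helper76_AT10.FCZ`
* `Pool.Agent.Helper88_AT6.YID`
-/

set_option autoImplicit false

section -- Pool.Agent.Helper32_AT5.ZIM

/-!
# Squad AT5, row ZIM: products and conjugates of virtual characters
-/

open scoped BigOperators
open Module

set_option linter.unusedSectionVars false

noncomputable section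

namespace Pool.Agent.PP.T5.H32

open Pool.Agent.Helper51_AWC Pool.Agent.Helper79_WRA Pool.Agent.PP Pool.Agent.PP.KF
open Pool.Agent.PP.K9

variable {H : Type} [Group H] [Finite H]

/-- the character of a finite dimensional representation is a virtual character -/
theorem char_mem_ZI {V : Type*} [AddCommGroup V] [Module ℂ V] [FiniteDimensional ℂ V]
    (ρ : Representation ℂ H V) : ρ.character ∈ ZI H := by
  classical
  have := Fintype.ofFinite H
  have hc : (Nat.card H : ℂ) ≠ 0 := by exact_mod_cast Nat.card_pos.ne'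
  have hc' : (Fintype.card H : ℂ) ≠ 0 := by exact_mod_cast Fintype.card_ne_zero
  have := invertibleOfNonzero hc
  set S := (irr_finite' (G := H)).toFinset with hS
  have hmem : ∀ χ, χ ∈ S ↔ χ ∈ Irr H := fun χ => Set.Finite.mem_toFinset _
  set c : (H → ℂ) → ℂ := fun ψ => (Nat.card H : ℂ)⁻¹ * ∑ g : H, ρ.character g * ψ g⁻¹ with hcd
  have hint : ∀ ψ ∈ Irr H, ∃ m : ℕ, c ψ = m := by
    rintro ψ ⟨n, σ, hσ, rfl⟩
    exact ⟨_, Representation.card_inv_mul_sum_char_mul_char_eq_finrank σ ρ⟩
  have key : (fun g => ρ.character g - ∑ ψ ∈ S, c ψ * ψ g) = 0 := by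
    apply irr_complete'
    · intro g h
      rw [ρ.char_conj]
      congr 1
      refine Finset.sum_congr rfl fun ψ hψ => ?_
      rw [irr_conj ((hmem ψ).1 hψ)]
    · intro φ hφ
      simp only [sub_mul, Finset.sum_sub_distrib, Finset.sum_mul]
      rw [Finset.sum_comm, Finset.sum_eq_single_of_mem φ ((hmem φ).2 hφ)]
      · simp_rw [mul_assoc]
        rw [← Finset.mul_sum, irr_orth_self hφ, hcd]
        simp only
        rw [mul_assoc, mul_comm (∑ g : H, ρ.character g * φ g⁻¹), ← mul_assoc,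
          ← Nat.card_eq_fintype_card, inv_mul_cancel₀ hc, one_mul, sub_self]
      · intro ψ hψ hne
        simp_rw [mul_assoc]
        rw [← Finset.mul_sum, irr_orth_ne ((hmem ψ).1 hψ) hφ hne, mul_zero]
  have h2 : ρ.character = ∑ ψ ∈ S, c ψ • ψ := by
    ext g
    have := congrFun key g
    simp only [Pi.zero_apply] at this
    rw [sub_eq_zero] at this
    rw [this, Finset.sum_apply]
    rfl
  rw [h2]
  refine AddSubgroup.sum_mem _ fun ψ hψ => ?_
  obtain ⟨m, hm⟩ := hint ψ ((hmem ψ).1 hψ)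
  have h3 : c ψ • ψ = m • ψ := by
    rw [hm]
    ext g
    simp
  rw [h3]
  exact AddSubgroup.nsmul_mem _ (AddSubgroup.subset_closure ((hmem ψ).1 hψ)) m

theorem mul_mem_ZI {f h : H → ℂ} (hf : f ∈ ZI H) (hh : h ∈ ZI H) :
    (fun x => f x * h x) ∈ ZI H := by
  have hirr : ∀ χ ∈ Irr H, ∀ ψ ∈ Irr H, (fun x => χ x * ψ x) ∈ ZI H := by
    rintro χ ⟨n, ρ, _, rfl⟩ ψ ⟨m, σ, _, rfl⟩
    have h1 := char_mem_ZI (ρ.tprod σ)
    rw [Representation.char_tensor] at h1
    exact h1
  refine AddSubgroup.closure_induction (p := fun f _ => (fun x => f x * h x) ∈ ZI H)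
    (fun χ hχ => ?_) ?_ (fun a b _ _ ha hb => ?_) (fun a _ ha => ?_) hf
  · refine AddSubgroup.closure_induction (p := fun h _ => (fun x => χ x * h x) ∈ ZI H)
      (fun ψ hψ => hirr χ hχ ψ hψ) ?_ (fun a b _ _ ha hb => ?_) (fun a _ ha => ?_) hh
    · have : (fun x => χ x * (0 : H → ℂ) x) = 0 := by ext x; simp
      rw [this]; exact AddSubgroup.zero_mem _
    · have : (fun x => χ x * (a + b) x) = (fun x => χ x * a x) + fun x => χ x * b x := by
        ext x; simp [mul_add]
      rw [this]; exact AddSubgroup.add_mem _ ha hb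
    · have : (fun x => χ x * (-a) x) = -fun x => χ x * a x := by
        ext x; simp
      rw [this]; exact AddSubgroup.neg_mem _ ha
  · have : (fun x => (0 : H → ℂ) x * h x) = 0 := by ext x; simp
    rw [this]; exact AddSubgroup.zero_mem _
  · have : (fun x => (a + b) x * h x) = (fun x => a x * h x) + fun x => b x * h x := by
      ext x; simp [add_mul]
    rw [this]; exact AddSubgroup.add_mem _ ha hb
  · have : (fun x => (-a) x * h x) = -fun x => a x * h x := by
      ext x; simp
    rw [this]; exact AddSubgroup.neg_mem _ ha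

theorem conj_mem_ZI {f : H → ℂ} (hf : f ∈ ZI H) : (fun x => starRingEnd ℂ (f x)) ∈ ZI H := by
  refine AddSubgroup.closure_induction (p := fun f _ => (fun x => starRingEnd ℂ (f x)) ∈ ZI H)
    (fun χ hχ => ?_) ?_ (fun a b _ _ ha hb => ?_) (fun a _ ha => ?_) hf
  · have h1 : (fun x => starRingEnd ℂ (χ x)) = fun x => χ x⁻¹ :=
      funext fun x => Pool.Agent.PP.H94.irr_star hχ x
    rw [h1]
    obtain ⟨n, ρ, _, rfl⟩ := hχ
    have h2 := char_mem_ZI ρ.dual
    have h3 : ρ.dual.character = fun x => ρ.character x⁻¹ := funext fun x => ρ.char_dual x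
    rw [h3] at h2
    exact h2
  · have : (fun x => starRingEnd ℂ ((0 : H → ℂ) x)) = 0 := by ext x; simp
    rw [this]; exact AddSubgroup.zero_mem _
  · have : (fun x => starRingEnd ℂ ((a + b) x)) =
        (fun x => starRingEnd ℂ (a x)) + fun x => starRingEnd ℂ (b x) := by
      ext x; simp
    rw [this]; exact AddSubgroup.add_mem _ ha hb
  · have : (fun x => starRingEnd ℂ ((-a) x)) = -fun x => starRingEnd ℂ (a x) := by
      ext x; simp
    rw [this]; exact AddSubgroup.neg_mem _ ha

/-- ZIM -/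
theorem zim : ZimStmt := fun _ _ _ _ hf _ hh => ⟨mul_mem_ZI hf hh, conj_mem_ZI hf⟩

end Pool.Agent.PP.T5.H32
end
end -- Pool.Agent.Helper32_AT5.ZIM

section -- Pool.Agent.Helper76_AT10.FCZ

/-!
# Squad AT10, row FCZ: `u ↦ χ(u i)` is a virtual character of `P`
-/

set_option autoImplicit false

open scoped BigOperators

noncomputable section

namespace Pool.Agent.PP.T10.H76

open Pool.Agent.Helper51_AWC Pool.Agent.Helper79_WRA Pool.Agent.PP Pool.Agent.PP.KF
open Pool.Agent.PP.K9 Pool.Agent.PP.K9.H97 Pool.Agent.PP.H75 Pool.Agent.PP.T3 Pool.Agent.PP.T2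
open Pool.Agent.PP.T5 Pool.Agent.PP.TB
open Pool.Agent.PP.T8 (rs pw fv rd Ip Rv)

attribute [local instance] Ideal.Quotient.field

/-- the representation on an invariant subspace -/
def restrictRep {H V : Type} [Group H] [AddCommGroup V] [Module ℂ V] (ρ : Representation ℂ H V)
    (W : Submodule ℂ V) (hW : ∀ (h : H), ∀ x ∈ W, ρ h x ∈ W) : Representation ℂ H W where
  toFun h := (ρ h).restrict (hW h)
  map_one' := by
    ext x
    simp
  map_mul' g h := by
    ext x
    simp

/-- FCZ -/
theorem fcz : FczStmt := by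
  intro M _ G _ _ P i hi χ hχ
  obtain ⟨n, ρ, _, hρ⟩ := hχ
  have hFG : Fintype G := Fintype.ofFinite G
  obtain ⟨p, hpdef⟩ : ∃ p : Module.End ℂ (Fin n → ℂ), p = ∑ g, i g • ρ g := ⟨_, rfl⟩
  have hp : p * p = p := by
    have h1 : p * p = ∑ g, ∑ h, (i g * i h) • ρ (g * h) := by
      simp only [hpdef, Finset.sum_mul, Finset.mul_sum]
      rw [Finset.sum_comm]
      refine Finset.sum_congr rfl fun h _ => Finset.sum_congr rfl fun g _ => ?_
      rw [map_mul, smul_mul_smul_comm]
    have h2 : ∀ x, i x = ∑ t, i t * i (t⁻¹ * x) := by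
      intro x
      conv_lhs => rw [← hi.id]
      rw [mulF, finsum_eq_sum_of_fintype]
    rw [h1]
    have h3 : p = ∑ x, ∑ t, (i t * i (t⁻¹ * x)) • ρ x := by
      simp only [hpdef]
      refine Finset.sum_congr rfl fun x _ => ?_
      rw [← Finset.sum_smul, ← h2]
    refine Eq.trans ?_ (h3.trans Finset.sum_comm).symm
    refine Finset.sum_congr rfl fun t _ => ?_
    rw [← Equiv.sum_comp (Equiv.mulLeft t) (fun x => (i t * i (t⁻¹ * x)) • ρ x)]
    refine Finset.sum_congr rfl fun x _ => ?_
    rw [Equiv.coe_mulLeft, inv_mul_cancel_left]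
  have hpv : ∀ v : P, ρ v * p = p * ρ v := by
    intro v
    simp only [hpdef, Finset.sum_mul, Finset.mul_sum]
    rw [← Equiv.sum_comp (MulAut.conj (v : G)).toEquiv (fun x => i x • ρ x * ρ (v : G))]
    refine Finset.sum_congr rfl fun x _ => ?_
    have h1 : (MulAut.conj (v : G)).toEquiv x = v * x * (v : G)⁻¹ := rfl
    rw [h1, hi.iv v v.2, mul_smul_comm, smul_mul_assoc, ← map_mul, ← map_mul,
      inv_mul_cancel_right]
  have hW : ∀ (u : P), ∀ x ∈ LinearMap.range p, (ρ.comp P.subtype) u x ∈ LinearMap.range p := by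
    rintro u x ⟨y, rfl⟩
    refine ⟨ρ u y, ?_⟩
    exact (LinearMap.congr_fun (hpv u) y).symm
  have h1 := H32.char_mem_ZI (restrictRep (ρ.comp P.subtype) (LinearMap.range p) hW)
  have h2 : (restrictRep (ρ.comp P.subtype) (LinearMap.range p) hW).character =
      fun u : P => fv i (u : G) χ := by
    funext u
    have hf : ∀ x, (ρ (u : G) * p) x ∈ LinearMap.range p := by
      intro x
      rw [hpv]
      exact ⟨ρ (u : G) x, rfl⟩
    have h3 := LinearMap.trace_restrict_eq_of_forall_mem (LinearMap.range p) (ρ (u : G) * p) hf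
    have h4 : (ρ (u : G) * p).restrict (fun x _ => hf x) =
        (restrictRep (ρ.comp P.subtype) (LinearMap.range p) hW) u := by
      ext x
      obtain ⟨x, y, rfl⟩ := x
      have h5 : p (p y) = p y := LinearMap.congr_fun hp y
      show (ρ (u : G)) (p (p y)) _ = (ρ (u : G)) (p y) _
      rw [h5]
    have h6 : (restrictRep (ρ.comp P.subtype) (LinearMap.range p) hW).character u =
        LinearMap.trace ℂ (LinearMap.range p)
          ((restrictRep (ρ.comp P.subtype) (LinearMap.range p) hW) u) := rfl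
    rw [h6, ← h4, h3, fv, finsum_eq_sum_of_fintype, hpdef, Finset.mul_sum, map_sum]
    refine Finset.sum_congr rfl fun g _ => ?_
    rw [mul_smul_comm, map_smul, smul_eq_mul, ← map_mul]
    congr 1
    rw [← hρ]
    rfl
  rw [h2] at h1
  exact h1

end Pool.Agent.PP.T10.H76
end
end -- Pool.Agent.Helper76_AT10.FCZ

section -- Pool.Agent.Helper88_AT6.YID

/-!
# Squad AT6, row YID: the inner product with an irreducible character through the group ring
-/

open scoped BigOperators

noncomputable section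

namespace Pool.Agent.PP.T6.H88

open Pool.Agent.Helper51_AWC Pool.Agent.Helper79_WRA Pool.Agent.PP Pool.Agent.PP.KF
open Pool.Agent.PP.K9 Pool.Agent.PP.K9.H97 Pool.Agent.PP.H75 Pool.Agent.PP.T3 Pool.Agent.PP.T2

attribute [local instance] Ideal.Quotient.field

/-- convolution of a class function with an irreducible character -/
theorem conv_irr {G : Type} [Group G] [Fintype G] (f : G → ℂ)
    (hf : ∀ x y, f (y * x * y⁻¹) = f x) {χ : G → ℂ} (hχ : χ ∈ Irr G) (x : G) :
    ∑ g, f g * χ (g⁻¹ * x) = (∑ g, f g * χ g⁻¹) * χ x / χ 1 := by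
  have h1 := irr_one_ne hχ
  obtain ⟨n, ρ, hρ, rfl⟩ := hχ
  obtain ⟨c, hc⟩ := act_scalar ρ (fun g => f g⁻¹) (fun g h => by
    have := hf g⁻¹ h
    rw [← this]
    congr 1
    group)
  have h2 : ∑ g, f g * ρ.character g⁻¹ = c * ρ.character 1 := by
    have h3 := act_trace ρ (fun g => f g⁻¹)
    rw [hc, map_smul, smul_eq_mul] at h3
    have h4 : LinearMap.trace ℂ (Fin n → ℂ) LinearMap.id = ρ.character 1 := by
      simp [Representation.character]
    rw [h4] at h3
    rw [h3, ← Equiv.sum_comp (Equiv.inv G)]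
    simp
  have h5 : ∑ g, f g * ρ.character (g⁻¹ * x) = c * ρ.character x := by
    have h6 : LinearMap.trace ℂ (Fin n → ℂ) (act ρ (fun g => f g⁻¹) * ρ x) =
        ∑ g, f g⁻¹ * ρ.character (g * x) := by
      unfold act
      rw [Finset.sum_mul, map_sum]
      refine Finset.sum_congr rfl fun g _ => ?_
      simp [Representation.character]
    have h7 : LinearMap.trace ℂ (Fin n → ℂ) (act ρ (fun g => f g⁻¹) * ρ x) =
        c * ρ.character x := by
      rw [hc]
      have h8 : (c • (LinearMap.id : (Fin n → ℂ) →ₗ[ℂ] (Fin n → ℂ))) * ρ x = c • ρ x := by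
        ext v
        simp
      rw [h8, map_smul, smul_eq_mul]
      rfl
    rw [← h7, h6, ← Equiv.sum_comp (Equiv.inv G)]
    simp
  rw [h5, h2]
  field_simp

theorem yid (hips : IpsStmt) (hsvv : SvvStmt) : YidStmt := by
  classical
  intro ℓ _ M _ hM G _ _ v hv b hb θ hθ χ hχ y
  have : Fintype G := Fintype.ofFinite G
  have hsc := (hsvv ℓ M hM G v b hb θ hθ).2.2.1
  have hI := hips ℓ M hM G v hv b hb θ χ hθ (fun x y => irr_conj hχ x y)
  have h1 : ∑ g, sv M ℓ v b θ g * χ g⁻¹ = Nat.card G * Pm M ℓ v b θ χ := by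
    rw [← hI, finsum_eq_sum_of_fintype]
    refine Finset.sum_congr rfl fun g _ => ?_
    rw [Pool.Agent.PP.H94.irr_star hχ g]
  rw [finsum_eq_sum_of_fintype]
  have h2 : ∀ g : G, T8.fv y g⁻¹ χ = ∑ h, y h * χ (g⁻¹ * h) := by
    intro g
    unfold T8.fv
    rw [finsum_eq_sum_of_fintype]
  have h3 : chv y χ = ∑ h, y h * χ h := by
    unfold chv
    rw [finsum_eq_sum_of_fintype]
  have h4 : ∑ g, sv M ℓ v b θ g * T8.fv y g⁻¹ χ =
      ∑ h, y h * ∑ g, sv M ℓ v b θ g * χ (g⁻¹ * h) := by
    simp only [h2, Finset.mul_sum]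
    rw [Finset.sum_comm]
    refine Finset.sum_congr rfl fun h _ => Finset.sum_congr rfl fun g _ => ?_
    ring
  rw [h4, h3]
  simp only [conv_irr _ (fun x y => hsc x y) hχ, h1]
  rw [Finset.mul_sum, Finset.sum_div, Finset.sum_mul]
  refine Finset.sum_congr rfl fun h _ => ?_
  ring

end Pool.Agent.PP.T6.H88
end
end -- Pool.Agent.Helper88_AT6.YID
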