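import Pool.Agent.Helper12_AWB.B125

/-!
# Merged copies (generated) of the modules

* `Pool.Agent.AT6.Stmts2`
* `Pool.Agent.AT6.Stmts3`
* `Pool.Agent.Helper83_AT6.PWN`
* `Pool.Agent.Helper94_AT6.AVG`
-/

set_option autoImplicit false

section -- Pool.Agent.AT6.Stmts2

/-!
# Squad AT6, part 2: the approximate theorem of Broué and Puig

Theorem T6.  Complete proofs in the docstrings.  `V` is an abelian defect group of the block `e` of
`G`, `T = Tg V γ`, `W ≤ V`, `H = C(W)`, `f` the block of `H` over `γ` (`Lw V γ W f`).  Main result (APX): for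
two characters `χ`, `χ'` in `e` fixed by the power map, the number `Mm v b χ χ'` depends modulo
`ℓ ^ c` only on the coset of `v` modulo `V ^ (ℓ ^ (3 c + 1))`.
-/

open scoped BigOperators

noncomputable section

namespace Pool.Agent.PP.T6

open Pool.Agent.Helper51_AWC Pool.Agent.Helper79_WRA Pool.Agent.PP Pool.Agent.PP.KF
open Pool.Agent.PP.K9 Pool.Agent.PP.K9.H97 Pool.Agent.PP.H75 Pool.Agent.PP.T3 Pool.Agent.PP.T2

attribute [local instance] Ideal.Quotient.field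

/-! ## 4. The block of the centraliser of `W` -/

/-- LWD: existence of `f`; the block `f` has the defect group `V` and the inertial group `T ∩ H`.

Proof.  As `T3.LocStmt` and `T3.LsbStmt` (`Helper88_AT3/Loc.lean`, `Helper85_AT3/LSB.lean`: `ld_of`,
`cequiv`, general transfer to a subgroup `X` with `V, C(V) ≤ X`) with `H = C(W)` instead of `C(u)`:
`1 = ∑ b_i`, the blocks of `H ≥ C(V)`; the `br_V(b_i) γ` are orthogonal central idempotents of
`F C(V)` with sum `γ`, so exactly one `f = b_i` has `br_V(f) γ = γ`.  `e|H` is an idempotent of `F H`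
(`H75.br_mulF`), `e|H f` is `f` or `0`, and `0` is impossible.  `V` is good for `f`, and a good subgroup
of `f` is good for `e`.  The centraliser and the normaliser of `V` in `H` are `C(V)` and
`N(V) ∩ H`. -/
def LwdStmt : Prop := ∀ (ℓ : ℕ) [Fact ℓ.Prime] (M : Ideal (integralClosure ℤ ℂ)) [M.IsMaximal],
  (ℓ : integralClosure ℤ ℂ) ∈ M → ∀ (G : Type) [Group G] [Finite G] (e : G → FF M)
  (V : Subgroup G) (γ : G → FF M), Ld ℓ e V γ → ∀ W : Subgroup G, W ≤ V →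
  (∃ f, Lw V γ W f) ∧ ∀ f, Lw V γ W f →
    Ld ℓ (fun t : Subgroup.centralizer (W : Set G) => f t)
      (V.subgroupOf (Subgroup.centralizer (W : Set G)))
      (fun t : Subgroup.centralizer (W : Set G) => γ t) ∧
    ∀ t : Subgroup.centralizer (W : Set G),
      t ∈ Tg (V.subgroupOf (Subgroup.centralizer (W : Set G)))
        (fun t : Subgroup.centralizer (W : Set G) => γ t) ↔ (t : G) ∈ Tg V γ

/-- CND: when is the local block `g'` of `v'` in `H` under a conjugate of the local block `b` of `v`?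

Proof.  `h = cj w b` is a block of `C_G(v')`; its restriction to `H` is an idempotent of
`F C_H(v')` (`H75.br_mulF` for `W ≤ C(v')`), so its product with the block `g'` is `g'` or `0`.
If `v' = t v t⁻¹`, `t ∈ T`: `w ∈ t C(v)`, so `h = cj t b` and `br_V(h) γ = cj t (br_V(b) γ) = γ`;
`br_V(h)` and `br_V(g')` only involve values on `C(V) ≤ H`, so
`br_V((h|H) g') γ = br_V(h) br_V(g') γ = γ ≠ 0` and `(h|H) g' = g'`.  Conversely if `(h|H) g' = g'` then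
`br_V(h) γ = br_V(h) br_V(g') γ = br_V(g') γ = γ`, so `h` is the local block of `v'` in `G` (it is under
`e` as a conjugate of `b`), and FUS (`u = v'`, `u' = v`, `g = w`) gives `t ∈ T` with
`t v t⁻¹ = v'`. -/
def CndStmt : Prop := ∀ (ℓ : ℕ) [Fact ℓ.Prime] (M : Ideal (integralClosure ℤ ℂ)) [M.IsMaximal],
  (ℓ : integralClosure ℤ ℂ) ∈ M → ∀ (G : Type) [Group G] [Finite G] (e : G → FF M)
  (V : Subgroup G) (γ : G → FF M), Ld ℓ e V γ → ∀ W : Subgroup G, W ≤ V → ∀ f, Lw V γ W f →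
  ∀ v ∈ V, ∀ b, Lc e V γ v b → ∀ v' : Subgroup.centralizer (W : Set G), (v' : G) ∈ V →
  ∀ g' : Subgroup.centralizer (W : Set G) → FF M,
  Lc (fun t : Subgroup.centralizer (W : Set G) => f t)
    (V.subgroupOf (Subgroup.centralizer (W : Set G)))
    (fun t : Subgroup.centralizer (W : Set G) => γ t) v' g' → ∀ w : G, w * v * w⁻¹ = v' →
  ((∃ t ∈ Tg V γ, t * v * t⁻¹ = v') →
    mulF (fun t : Subgroup.centralizer (W : Set G) => cj w b t) g' = g') ∧
  ((¬ ∃ t ∈ Tg V γ, t * v * t⁻¹ = v') →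
    mulF (fun t : Subgroup.centralizer (W : Set G) => cj w b t) g' = 0)

/-- CLC: the component in an idempotent `κ` of `C_H(x)` of a section component.

Proof.  `X = C_H(x)`, `φ(c) = sv v b θ (x c)` for `c ∈ X`, a class function of `X`; the left side is
`∑_{c ∈ X} κ^(c) φ(s c)`.  For `c ∈ X` regular the `ℓ`-part of `x c` is `x`.  If `x = w v w⁻¹`:
by SVV (i), (v) `φ(c) = gv M (Cu x) (x c) h θ =: φ'(c)`, `h = cj w b`, for `c` regular, and `φ'` is a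
class function of `C_G(x)`.  By KRF (for the group `H`) `φ` can be replaced by `φ'`, and
`∑_c κ^(c) φ'(s c) = ∑_c ∑_d κ^(c) h^(d) θ(x s c d)`.  If `x` is not conjugate to `v` then `φ` vanishes
at the regular elements (SVV (ii)), KRF. -/
def ClcStmt : Prop := ∀ (ℓ : ℕ) [Fact ℓ.Prime] (M : Ideal (integralClosure ℤ ℂ)) [M.IsMaximal],
  (ℓ : integralClosure ℤ ℂ) ∈ M → ∀ (G : Type) [Group G] [Finite G] (H : Subgroup G) (v : G),
  El ℓ v → ∀ b : G → FF M, Ix (Cu v) b → ∀ θ : G → ℂ, (∀ x y, θ (y * x * y⁻¹) = θ x) →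
  ∀ (x : H) (κ : H → FF M), El ℓ x → Ix (Cu x) κ → ∀ s : H, s ∈ Cu x → Reg ℓ s →
  (∀ w : G, w * v * w⁻¹ = x → gv M (Cu x) (x * s) κ (fun t : H => sv M ℓ v b θ t) =
    T8.fv (mulF (H75.ext0 H (hat M (Cu x) κ)) (hat M (Cu (x : G)) (cj w b))) ((x * s : H) : G) θ) ∧
  ((∀ w : G, w * v * w⁻¹ ≠ x) →
    gv M (Cu x) (x * s) κ (fun t : H => sv M ℓ v b θ t) = 0)

/-- BLK: the component in a local section of `H` of a section component of `G`, modulo `ℓ ^ c`.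

Proof.  `h = x s`, `x` the `ℓ`-part; `x`, `s` are powers of `h`, so they commute with `V₁`.  If `x` is not
conjugate to `v'` in `H` then both terms are `0` (SVV (ii)).  Let `x = u v' u⁻¹`, `u ∈ H`,
`κ = cj u g'`, a block of `X = C_H(x)`.  By SVV (i), (v), for every class function `ψ` of `H`,
`sv v' g' ψ h = gv M (Cu x) h κ ψ`.  If `x` is not conjugate to `v` in `G`, then `v'` is not in `T v` and
CLC gives `0`.  Let `x = w v w⁻¹`, `h₀ = cj w b`; CND for `u⁻¹ w`, conjugated with `u`: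
`(h₀|H) κ = κ` if `v' ∈ T v`, and `0` otherwise.  By CLC `gv M (Cu x) h κ (sv v b θ) = T8.fv (κ^ h₀^) h θ`.
`κ^` and `h₀^` commute (`h₀^` is a class function of `C_G(x)`, which contains the support of `κ^`) and
are idempotents.  `J = κ^ - κ^ h₀^` in the first case (the difference is `- T8.fv J h θ`),
`J = κ^ h₀^` in the second case.  `J` is an idempotent with values in `RM M`, invariant under `V₁`
(`V₁ ≤ C_H(x)`), and for `y ∈ H` the residue of `(κ^ h₀^)(y)` is `(κ (h₀|H))(y)`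
(`κ^` is supported on `H`), so `rr (J y) = 0` for `y ∈ H = C(W)`.  `Uw (ℓ ^ c) V₁ = W` (PWU), DIV
for `D = V₁`. -/
def BlkStmt : Prop := ∀ (ℓ : ℕ) [Fact ℓ.Prime] (M : Ideal (integralClosure ℤ ℂ)) [M.IsMaximal],
  (ℓ : integralClosure ℤ ℂ) ∈ M → ∀ (G : Type) [Group G] [Finite G] (e : G → FF M)
  (V : Subgroup G) (γ : G → FF M), Ld ℓ e V γ → ∀ (c : ℕ) (V₁ W : Subgroup G),
  V₁ = Uw (ℓ ^ c) V → W = Uw (ℓ ^ (2 * c)) V → ∀ f, Lw V γ W f → ∀ v ∈ V, ∀ b, Lc e V γ v b →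
  ∀ v' : Subgroup.centralizer (W : Set G), (v' : G) ∈ V →
  ∀ g' : Subgroup.centralizer (W : Set G) → FF M,
  Lc (fun t : Subgroup.centralizer (W : Set G) => f t)
    (V.subgroupOf (Subgroup.centralizer (W : Set G)))
    (fun t : Subgroup.centralizer (W : Set G) => γ t) v' g' → ∀ θ : G → ℂ,
  (∀ x y, θ (y * x * y⁻¹) = θ x) → (∀ x, θ x ∈ RM M) →
  ∀ h : Subgroup.centralizer (W : Set G), (h : G) ∈ Subgroup.centralizer (V₁ : Set G) →
  ((∃ t ∈ Tg V γ, t * v * t⁻¹ = v') → Dv M ((ℓ : ℂ) ^ c)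
    (sv M ℓ v' g' (fun t : Subgroup.centralizer (W : Set G) => sv M ℓ v b θ t) h -
      sv M ℓ v' g' (fun t : Subgroup.centralizer (W : Set G) => θ t) h)) ∧
  ((¬ ∃ t ∈ Tg V γ, t * v * t⁻¹ = v') → Dv M ((ℓ : ℂ) ^ c)
    (sv M ℓ v' g' (fun t : Subgroup.centralizer (W : Set G) => sv M ℓ v b θ t) h))

/-! ## 5. Translation by a central element -/

/-- TRN: translation by `z = w ^ (ℓ ^ (c+1))`, `w` central.

Proof.  `h ↦ h z` is a bijection of `S`.  `C(v z) = C(v)`.  (1) `sv (v z) b θ (h z)` and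
`sv v b θ h` are congruent modulo `ℓ ^ c`: `v z` is the `ℓ`-part of `u⁻¹ h z u` iff `v` is the
`ℓ`-part of `u⁻¹ h u` (`z` is a central `ℓ`-element); if there is such a `u` then by SVV (i) the two
numbers are `gv M (Cu v) (k z) b θ` and `gv M (Cu v) k b θ`, `k = u⁻¹ h u`, and CNB applies
(`a = hat (Cu v) b`, `w` is central); otherwise both are `0`.  (2) `T8.fv y (h z)⁻¹ θ'` and
`T8.fv y h⁻¹ θ'` are congruent modulo `ℓ ^ c` (CNB for `w⁻¹`).  All numbers are in `RM M`, so the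
products are congruent. -/
def TrnStmt : Prop := ∀ (ℓ : ℕ) [Fact ℓ.Prime] (M : Ideal (integralClosure ℤ ℂ)) [M.IsMaximal],
  (ℓ : integralClosure ℤ ℂ) ∈ M → ∀ (G : Type) [Group G] [Finite G] (θ θ' : G → ℂ),
  Cg M ℓ θ → Cg M ℓ θ' → ∀ w : G, El ℓ w → w ∈ Subgroup.center G → ∀ (c : ℕ) (v : G)
  (b : G → FF M), Ix (Cu v) b → ∀ y : G → ℂ, (∀ x, y x ∈ RM M) → ∀ S : Set G,
  (∀ h, h ∈ S ↔ h * w ^ ℓ ^ (c + 1) ∈ S) →
    Dv M ((ℓ : ℂ) ^ c)
      (∑ᶠ (h : G) (_ : h ∈ S), sv M ℓ (v * w ^ ℓ ^ (c + 1)) b θ h * T8.fv y h⁻¹ θ' -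
        ∑ᶠ (h : G) (_ : h ∈ S), sv M ℓ v b θ h * T8.fv y h⁻¹ θ')

/-! ## 6. The element `y` -/

/-- YEX: an element `y` of the group ring of `H` with a nonzero central character.

Proof.  `K9.FmgStmt` for the group `C(V)`, its block `γ` and the defect group `V` (first part of the
proof of `T3.DgcStmt`) gives `y₀ ∈ C(V)` such that `V` is a Sylow `ℓ`-subgroup of `C(V) ∩ C(y₀)` and
the class sum `K` of `y₀` in `C(V)` is invertible in `γ`.  Put `y = f^ γ^ δ_{y₀}` in the group ring of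
`H`: values in `RM M`, `f^ y = y`, invariant under `V`.  The residue of `y` is `f γ y₀`, and
`br_V(f γ y₀) = br_V(f) γ y₀ = γ y₀` (`H75.br_mulF`).  `T8.OmiStmt` for `i = y` (extended by zero): for
`χ ∈ e` and `κ ∈ γ` the number `|G| chv i χ/(|V| χ(1))` is in `RM M`, and its residue is `ix V γ` times
the residue of `n(i) = |C(V)| (∑_{t ∈ C(V)} i(t) κ(t))/(|V| κ(1))`.  The function
`i' = i|C(V) - γ^ δ_{y₀}` has residue zero, so `n(i')`, which is the value of the central character of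
`κ` at the sum of the conjugates of `i'` over `C(V)/V`, has residue zero (class sums have values in
`RM M`).  `n(γ^ δ_{y₀}) = |C(V)| κ(y₀)/(|V| κ(1)) = |C(V) ∩ C(y₀) : V| ω_κ(K)`, a unit of `RM M`.  `ix V γ`
is not `0` in `FF M` (`K9.InxStmt`). -/
def YexStmt : Prop := ∀ (ℓ : ℕ) [Fact ℓ.Prime] (M : Ideal (integralClosure ℤ ℂ)) [M.IsMaximal],
  (ℓ : integralClosure ℤ ℂ) ∈ M → ∀ (G : Type) [Group G] [Finite G] (e : G → FF M)
  (V : Subgroup G) (γ : G → FF M), Ld ℓ e V γ → ∀ W : Subgroup G, W ≤ V → ∀ f, Lw V γ W f →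
  ∃ y : Subgroup.centralizer (W : Set G) → ℂ, (∀ x, y x ∈ RM M) ∧
    (∀ v : Subgroup.centralizer (W : Set G), (v : G) ∈ V → ∀ x, y (v * x * v⁻¹) = y x) ∧
    mulF (eh M (fun t : Subgroup.centralizer (W : Set G) => f t)) y = y ∧
    ∀ χ ∈ IrrE M e,
      (Nat.card G * (∑ᶠ x : Subgroup.centralizer (W : Set G), y x * χ x) /
        (Nat.card V * χ 1)) ∈ RM M ∧
      rr M (Nat.card G * (∑ᶠ x : Subgroup.centralizer (W : Set G), y x * χ x) /
        (Nat.card V * χ 1)) ≠ 0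

/-! ## 7. The approximate theorem of Broué and Puig -/

/-- APS: the number `Mm v b χ χ'` in terms of the local sections of `H = C(W)`, modulo `ℓ ^ c`.

Proof.  Let `Y` be the extension of `y` by zero, `φ(g) = T8.fv Y g⁻¹ χ' = ∑_{x ∈ H} y(x) χ'(g⁻¹ x)`,
`θ = sv v b χ`; `θ` is a class function with values in `RM M`, `φ` has values in `RM M` and is
invariant under `V`.  All congruences are modulo `ℓ ^ c`.
(1) YID: `∑_{g ∈ G} θ(g) φ(g) = |V| ω Pm v b χ χ'`.  (2) By OR6 (`D = V`; `V` normalises `C(V₁)` and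
`H`) the sum over `G`, the sum over `C(V₁)` and the sum over `H` are congruent (`C(V₁) ≤ H` since
`W ≤ V₁`, PWU).  (3) `∑_{h ∈ H} θ(h) φ(h) = ∑_{h ∈ H} θ'(h) φ(h)`, `θ'(h) = T8.fv (f^) h θ` (in `H`): as
`y = f^ y`, `φ(h) = ∑_t f^(t) φ(t⁻¹ h)`, substitute `h = t h'`.  (4) By OR6 in `H` (`θ'` is a class
function of `H`) the sum of `θ' φ` over `H` is congruent to the sum over `C(V₁)`.  (5) SEC for `H`,
`f`: `θ'(h) = ∑_{v' ∈ V} wt' v' sv v' (g v') θ h`.  (6) BLK: for `h ∈ C(V₁)` the term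
`sv v' (g v') θ h` is congruent to `sv v' (g v') χ h` if `v' ∈ T v` and to `0` otherwise; `wt' v'` is in
`RM M` (`ix` of `f` is prime to `ℓ`, `K9.InxStmt`: `wt' v' = |T' ∩ C(v') : C(V)|/|T' : C(V)|`).  So
`|V| ω Pm v b χ χ'` is congruent to the sum over the `v' ∈ T v` of
`wt' v' ∑_{h ∈ C(V₁)} sv v' (g v') χ h φ(h)`.  Multiply by `|T ∩ C(v) : C(V)|`. -/
def ApsStmt : Prop := ∀ (ℓ : ℕ) [Fact ℓ.Prime] (M : Ideal (integralClosure ℤ ℂ)) [M.IsMaximal],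
  (ℓ : integralClosure ℤ ℂ) ∈ M → ∀ (G : Type) [Group G] [Finite G] (e : G → FF M)
  (V : Subgroup G) (γ : G → FF M), Ld ℓ e V γ → ∀ (c : ℕ) (V₁ W : Subgroup G),
  V₁ = Uw (ℓ ^ c) V → W = Uw (ℓ ^ (2 * c)) V → ∀ f, Lw V γ W f →
  ∀ g : Subgroup.centralizer (W : Set G) → Subgroup.centralizer (W : Set G) → FF M,
  (∀ v' : Subgroup.centralizer (W : Set G), (v' : G) ∈ V →
    Lc (fun t : Subgroup.centralizer (W : Set G) => f t)
      (V.subgroupOf (Subgroup.centralizer (W : Set G)))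
      (fun t : Subgroup.centralizer (W : Set G) => γ t) v' (g v')) →
  ∀ y : Subgroup.centralizer (W : Set G) → ℂ, (∀ x, y x ∈ RM M) →
  (∀ v : Subgroup.centralizer (W : Set G), (v : G) ∈ V → ∀ x, y (v * x * v⁻¹) = y x) →
  mulF (eh M (fun t : Subgroup.centralizer (W : Set G) => f t)) y = y →
  ∀ χ ∈ Irr G, ∀ χ' ∈ Irr G, ∀ v ∈ V, ∀ b, Lc e V γ v b →
  Dv M ((ℓ : ℂ) ^ c)
    ((Nat.card G * (∑ᶠ x : Subgroup.centralizer (W : Set G), y x * χ' x) /
        (Nat.card V * χ' 1)) * Mm M ℓ V γ v b χ χ' -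
      ((Subgroup.centralizer (V : Set G)).relIndex (Tg V γ ⊓ Cu v) : ℕ) *
      ∑ᶠ (v' : Subgroup.centralizer (W : Set G)) (_ : ∃ t ∈ Tg V γ, t * v * t⁻¹ = v'),
        wt (V.subgroupOf (Subgroup.centralizer (W : Set G)))
          (fun t : Subgroup.centralizer (W : Set G) => γ t) v' *
        ∑ᶠ (h : Subgroup.centralizer (W : Set G))
          (_ : (h : G) ∈ Subgroup.centralizer (V₁ : Set G)),
          sv M ℓ v' (g v') (fun t : Subgroup.centralizer (W : Set G) => χ t) h *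
            T8.fv y h⁻¹ (fun t : Subgroup.centralizer (W : Set G) => χ' t))

/-- APX: the approximate theorem of Broué and Puig.

Proof.  `V₁ = Uw (ℓ ^ c) V`, `W = Uw (ℓ ^ (2 c)) V`, `H = C(W)`, `f` and `g` from LWD (and LOC for `H`), `y` from
YEX, `ω` the number of YEX for `χ'`, a unit of `RM M`.  By CNA `χ` and `χ'` satisfy `Cg`, so do their
restrictions to `H`.  For `v' ∈ V` let `N v' = ∑_{h ∈ C(V₁)} sv v' (g v') χ h T8.fv y h⁻¹ χ'`.  For
`z' ∈ Uw (ℓ ^ (3 c + 1)) V`: `z' = w ^ (ℓ ^ (c+1))` with `w ∈ W` (PWU), `w` is central in `H`,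
`C_H(v' z') = C_H(v')` and `g (v' z') = g v'` (uniqueness in LOC), so TRN (`S = C(V₁)`) gives
`N (v' z') = N v'` mod `ℓ ^ c`.  By APS `ω Mm v b χ χ'` is congruent to
`|T ∩ C(v) : C(V)| ∑_{v' ∈ T v} wt' v' N v' = ∑_{q ∈ T/C(V)} wt' (q v q⁻¹) N (q v q⁻¹)` (every element
of `T v` is `q v q⁻¹` for `|T ∩ C(v) : C(V)|` cosets `q`).  Replace `v` by `v z`:
`q v z q⁻¹ = (q v q⁻¹) (q z q⁻¹)`, `q z q⁻¹ ∈ Uw (ℓ ^ (3 c + 1)) V` is central in `H`, so
`wt' (q v z q⁻¹) = wt' (q v q⁻¹)` and `N (q v z q⁻¹)` is congruent to `N (q v q⁻¹)`.  `wt'` has values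
in `RM M`.  So `ω (Mm (v z) b' χ χ' - Mm v b χ χ')` is divisible by `ℓ ^ c`, and `ω` is a unit. -/
def ApxStmt : Prop := ∀ (ℓ : ℕ) [Fact ℓ.Prime] (M : Ideal (integralClosure ℤ ℂ)) [M.IsMaximal],
  (ℓ : integralClosure ℤ ℂ) ∈ M → ∀ (G : Type) [Group G] [Finite G] (N : ℕ), T5.G5 G ℓ N →
  ∀ (e : G → FF M) (V : Subgroup G) (γ : G → FF M), Ld ℓ e V γ → ∀ c : ℕ,
  ∀ χ ∈ T5.Rf M N e, ∀ χ' ∈ T5.Rf M N e, ∀ v ∈ V, ∀ z ∈ Uw (ℓ ^ (3 * c + 1)) V, ∀ b b',
  Lc e V γ v b → Lc e V γ (v * z) b' →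
    Dv M ((ℓ : ℂ) ^ c) (Mm M ℓ V γ (v * z) b' χ χ' - Mm M ℓ V γ v b χ χ')

end Pool.Agent.PP.T6
end
end -- Pool.Agent.AT6.Stmts2

section -- Pool.Agent.AT6.Stmts3

/-!
# Squad AT6, part 3: the number of the characters fixed by the power map

Theorem T6.  Complete proofs in the docstrings.  `un ℓ a` is the set of the `j < ℓ ^ a` prime to `ℓ`.
`T5.Rf M N e` is the set of the characters in `e` fixed by the power map `g ↦ g ^ N`.
-/

open scoped BigOperators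

noncomputable section

namespace Pool.Agent.PP.T6

open Pool.Agent.Helper51_AWC Pool.Agent.Helper79_WRA Pool.Agent.PP Pool.Agent.PP.KF
open Pool.Agent.PP.K9 Pool.Agent.PP.K9.H97 Pool.Agent.PP.H75 Pool.Agent.PP.T3 Pool.Agent.PP.T2

attribute [local instance] Ideal.Quotient.field

/-! ## 8. Integrality and positivity -/

/-- INM: integrality of the numbers `Mm (v ^ j) b χ χ'`.

Proof (compare `T5.Gl5Stmt`).  Let `ℓ ∤ j`: `C(v ^ j) = C(v) = C` (LPW).  `χ|C = ∑ m_κ κ` with integers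
`m_κ` (`Helper30_KF/Mul.lean`, `mult_int`), `v` is central in `C`, so `κ(v ^ j s) = ζ ^ (i j) κ(s)`,
`i = i(κ)`, and `gv M C (v ^ j s) b χ = ∑_{κ ∈ b} m_κ κ(v ^ j s) = ∑_i ζ ^ (i j) ψ_i(s)` with
`ψ_i = ∑_{κ ∈ b, i(κ) = i} m_κ κ` (see `T3.InrStmt`, `T5.KerStmt`).  In the same way for `χ'` with
`ψ'_i`.  So `Mm (v ^ j) b χ χ' = |T ∩ C : C(V)| ∑_{i, i'} ζ ^ ((i - i') j) |V| rip ψ_i ψ'_i'` (inner
product on the regular elements of `C`), and `|V| rip κ κ'` is an integer for `κ, κ' ∈ b` by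
`T5.InqStmt` for the group `C` and its block `b`, with the defect group `V` (LSB).  Collect the
terms by `i - i'` modulo `ℓ ^ a`. -/
def InmStmt : Prop := ∀ (ℓ : ℕ) [Fact ℓ.Prime] (M : Ideal (integralClosure ℤ ℂ)) [M.IsMaximal],
  (ℓ : integralClosure ℤ ℂ) ∈ M → ∀ (G : Type) [Group G] [Finite G] (e : G → FF M)
  (V : Subgroup G) (γ : G → FF M), Ld ℓ e V γ → ∀ v ∈ V, ∀ b, Lc e V γ v b → ∀ a : ℕ,
  v ^ ℓ ^ a = 1 → ∀ ζ : ℂ, IsPrimitiveRoot ζ (ℓ ^ a) → ∀ χ ∈ Irr G, ∀ χ' ∈ Irr G,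
  ∃ n : ℕ → ℤ, ∀ j : ℕ, ¬ ℓ ∣ j → Mm M ℓ V γ (v ^ j) b χ χ' =
    ∑ i ∈ Finset.range (ℓ ^ a), (n i : ℂ) * ζ ^ (i * j)

/-- PSV: positivity and the inequality of Cauchy and Schwarz.

Proof.  `Mm v b χ χ` is a positive number times the sum of the `|gv M C (v s) b χ|²` over the regular
`s ∈ C(v)`.  For `χ ∈ e` the term `s = 1` is not zero (`K9.NzStmt`; `V` is good for `b` because
`br_V(b) γ = γ`).  The last claim is the inequality of Cauchy and Schwarz. -/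
def PsvStmt : Prop := ∀ (ℓ : ℕ) [Fact ℓ.Prime] (M : Ideal (integralClosure ℤ ℂ)) [M.IsMaximal],
  (ℓ : integralClosure ℤ ℂ) ∈ M → ∀ (G : Type) [Group G] [Finite G] (e : G → FF M)
  (V : Subgroup G) (γ : G → FF M), Ld ℓ e V γ → ∀ v ∈ V, ∀ b, Lc e V γ v b →
  (∀ χ : G → ℂ, Mm M ℓ V γ v b χ χ = (‖Mm M ℓ V γ v b χ χ‖ : ℝ)) ∧
  (∀ χ ∈ IrrE M e, Mm M ℓ V γ v b χ χ ≠ 0) ∧
  ∀ χ χ' : G → ℂ, ‖Mm M ℓ V γ v b χ χ'‖ ^ 2 ≤ ‖Mm M ℓ V γ v b χ χ‖ * ‖Mm M ℓ V γ v b χ' χ'‖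

/-- NRP: the product of the conjugates of an element divisible by `ℓ ^ c`.

Proof.  `y_j = ∑ m_i ζ ^ (i j)`.  The product `P` of the `y_j` over `j ∈ un ℓ a` is a rational integer
(the norm from `ℚ(ζ)` to `ℚ` of `y_1 ∈ ℤ[ζ]`, or the resultant with the cyclotomic polynomial),
and if one `y_j` is not zero then none is (they are conjugate).  Let `m` be the number of the `j`.
`y_j = ℓ ^ c t_j`, `t_j ∈ RM M`, so `P = ℓ ^ (c m) t`, `t ∈ RM M`, and so `ℓ ^ (c m)` divides `P` in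
`ℤ` (otherwise `r/ℓ ∈ RM M` for an integer `r` prime to `ℓ`, so `1/ℓ ∈ RM M`, but `ℓ ∈ M`).  So
`|P| ≥ ℓ ^ (c m)`. -/
def NrpStmt : Prop := ∀ (ℓ : ℕ) [Fact ℓ.Prime] (M : Ideal (integralClosure ℤ ℂ)) [M.IsMaximal],
  (ℓ : integralClosure ℤ ℂ) ∈ M → ∀ (a c : ℕ), 0 < a → ∀ ζ : ℂ, IsPrimitiveRoot ζ (ℓ ^ a) →
  ∀ m : ℕ → ℤ,
  (∀ j : ℕ, ¬ ℓ ∣ j →
    Dv M ((ℓ : ℂ) ^ c) (∑ i ∈ Finset.range (ℓ ^ a), (m i : ℂ) * ζ ^ (i * j))) →
  ∀ j₀ : ℕ, ¬ ℓ ∣ j₀ → ∑ i ∈ Finset.range (ℓ ^ a), (m i : ℂ) * ζ ^ (i * j₀) ≠ 0 →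
    ((ℓ : ℝ) ^ c) ^ (un ℓ a).card ≤
      ∏ j ∈ un ℓ a, ‖∑ i ∈ Finset.range (ℓ ^ a), (m i : ℂ) * ζ ^ (i * j)‖

/-- GEO: the average of the square roots of the diagonal entries is at least one.

Proof.  `y_j = Mm (v ^ j) b χ χ ≥ 0` (PSV for `v ^ j`, LPW), `y_1 ≠ 0`, `v ^ 1 = v`.  INM and NRP with
`c = 0` (the `y_j` are in `RM M` as `ζ` is): `1 ≤ ∏ y_j`, so `1 ≤ ∏ √y_j`, and by the inequality
between the arithmetic and the geometric mean the average of the `√y_j` is at least `1`. -/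
def GeoStmt : Prop := ∀ (ℓ : ℕ) [Fact ℓ.Prime] (M : Ideal (integralClosure ℤ ℂ)) [M.IsMaximal],
  (ℓ : integralClosure ℤ ℂ) ∈ M → ∀ (G : Type) [Group G] [Finite G] (e : G → FF M)
  (V : Subgroup G) (γ : G → FF M), Ld ℓ e V γ → ∀ v ∈ V, ∀ b, Lc e V γ v b → ∀ a : ℕ, 0 < a →
  v ^ ℓ ^ a = 1 → ∀ χ ∈ IrrE M e,
    ((un ℓ a).card : ℝ) ≤ ∑ j ∈ un ℓ a, Real.sqrt ‖Mm M ℓ V γ (v ^ j) b χ χ‖

/-- EQM: the numbers `Mm v b χ χ'` and `Mm (v z) b' χ χ'` are equal if the averages of the diagonal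
entries are small.

Proof.  Let `m` be the number of elements of `un ℓ a` and `y_j = Mm ((v z) ^ j) b' χ χ' -
Mm (v ^ j) b χ χ' = ∑_i n_i ζ ^ (i j)` for `ℓ ∤ j` (INM).  `(v z) ^ j = v ^ j z ^ j`, `z ^ j` is in
`Uw (ℓ ^ (3 c + 1)) V`, and `b`, `b'` are the local blocks of `v ^ j`, `(v z) ^ j` (LPW), so by APX all
`y_j` are divisible by `ℓ ^ c`.  Suppose some `y_j ≠ 0`.  NRP and the inequality between the
arithmetic and the geometric mean: `ℓ ^ c ≤ m⁻¹ ∑_j |y_j|`.  By PSV and Cauchy-Schwarz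
`∑_j |Mm (v ^ j) b χ χ'| ≤ (∑_j |Mm (v ^ j) b χ χ|) ^ (1/2) (∑_j |Mm (v ^ j) b χ' χ'|) ^ (1/2) ≤ K m`,
and the same for `v z`.  So `ℓ ^ c ≤ 2 K`, a contradiction. -/
def EqmStmt : Prop := ∀ (ℓ : ℕ) [Fact ℓ.Prime] (M : Ideal (integralClosure ℤ ℂ)) [M.IsMaximal],
  (ℓ : integralClosure ℤ ℂ) ∈ M → ∀ (G : Type) [Group G] [Finite G] (N : ℕ), T5.G5 G ℓ N →
  ∀ (e : G → FF M) (V : Subgroup G) (γ : G → FF M), Ld ℓ e V γ → ∀ c a : ℕ, 0 < a → ∀ K : ℝ,
  2 * K < (ℓ : ℝ) ^ c → ∀ v ∈ V, v ^ ℓ ^ a = 1 → ∀ z ∈ Uw (ℓ ^ (3 * c + 1)) V, z ^ ℓ ^ a = 1 →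
  ∀ b b', Lc e V γ v b → Lc e V γ (v * z) b' → ∀ χ ∈ T5.Rf M N e, ∀ χ' ∈ T5.Rf M N e,
  ∑ j ∈ un ℓ a, ‖Mm M ℓ V γ (v ^ j) b χ χ‖ ≤ K * (un ℓ a).card →
  ∑ j ∈ un ℓ a, ‖Mm M ℓ V γ (v ^ j) b χ' χ'‖ ≤ K * (un ℓ a).card →
  ∑ j ∈ un ℓ a, ‖Mm M ℓ V γ ((v * z) ^ j) b' χ χ‖ ≤ K * (un ℓ a).card →
  ∑ j ∈ un ℓ a, ‖Mm M ℓ V γ ((v * z) ^ j) b' χ' χ'‖ ≤ K * (un ℓ a).card →
  ∀ j : ℕ, ¬ ℓ ∣ j → Mm M ℓ V γ ((v * z) ^ j) b' χ χ' = Mm M ℓ V γ (v ^ j) b χ χ'

/-! ## 9. The dimension of a section and Bessel's inequality -/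

/-- DIM: an orthonormal basis of the functions on the regular elements spanned by the characters in
`b`.

Proof.  Let `R` be the set of the regular elements of `H` and `k(s, s') = |H|⁻¹ ∑_{κ ∈ b} κ(s) conj κ(s')`
on `R × R`, a hermitian matrix.  For `s ∈ R` and `s'` singular this number is `0` (`WboStmt`), so by
the first orthogonality relation `k` is idempotent and `∑_{s'} k(s, s') κ(s') = κ(s)` for
`κ ∈ b`.  Its trace is `ln b` (`T3.LrkStmt`).  So `k` is the orthogonal projection on a space of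
dimension `ln b`, which contains the `κ|R`, `κ ∈ b`.  Let `(q_i)` be an orthonormal basis of it and
`Q_i = √|H| q_i` (extended by zero). -/
def DimStmt : Prop := ∀ (ℓ : ℕ) [Fact ℓ.Prime] (M : Ideal (integralClosure ℤ ℂ)) [M.IsMaximal],
  (ℓ : integralClosure ℤ ℂ) ∈ M → ∀ (H : Type) [Group H] [Finite H] (b : H → FF M), IsIdem b →
  ∃ Q : Fin (ln b) → H → ℂ, (∀ i k, T5.rip ℓ (Q i) (Q k) = if i = k then 1 else 0) ∧
    ∀ κ ∈ IrrE M b, ∀ s, Reg ℓ s → κ s = ∑ i, T5.rip ℓ κ (Q i) * Q i s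

/-- PGR: coordinates of the functions `s ↦ gv M (Cu v) (w s) b χ`.

Proof.  DIM for `C(v)` and `b` (extend the `Q i` by zero).  By `T5.KerStmt` the function is, on the
regular elements of `C(v)`, a linear combination of the `κ ∈ b`. -/
def PgrStmt : Prop := ∀ (ℓ : ℕ) [Fact ℓ.Prime] (M : Ideal (integralClosure ℤ ℂ)) [M.IsMaximal],
  (ℓ : integralClosure ℤ ℂ) ∈ M → ∀ (G : Type) [Group G] [Finite G] (v : G) (b : G → FF M),
  Ix (Cu v) b → ∃ Q : Fin (ln (fun t : Cu v => b t)) → G → ℂ,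
    (∀ i k, (Nat.card (Cu v) : ℂ)⁻¹ * ∑ᶠ (s : G) (_ : s ∈ Cu v ∧ Reg ℓ s),
      Q i s * starRingEnd ℂ (Q k s) = if i = k then 1 else 0) ∧
    ∀ w : G, (∀ c ∈ Cu v, w * c = c * w) → ∀ χ ∈ Irr G, ∀ s ∈ Cu v, Reg ℓ s →
      gv M (Cu v) (w * s) b χ = ∑ i, ((Nat.card (Cu v) : ℂ)⁻¹ *
        ∑ᶠ (s' : G) (_ : s' ∈ Cu v ∧ Reg ℓ s'),
          gv M (Cu v) (w * s') b χ * starRingEnd ℂ (Q i s')) * Q i s

/-- BSL: Bessel's inequality for the sections.

Proof.  For `v ∈ q` and a function `Y` let `z_v(χ) = |C(v)|⁻¹ ∑_s gv M (Cu v) (v s) (b v) χ conj Y(s)`.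
(1) `∑_χ |z_v(χ)|² ≤ |C(v)|⁻¹ ∑_s |Y(s)|²`: by `T5.Co3Stmt` the left side is
`|C|⁻² ∑_{s, s'} conj Y(s) Y(s') ∑_{κ ∈ b} κ(s) conj κ(s') = ∑_{κ ∈ b} |(κ, Y)|²`, `(κ, Y)` the
inner product in `C` of `κ` and of `Y` extended by zero to the singular elements, and Bessel's
inequality for the orthonormal characters `κ`.  (2) `∑_χ z_v(χ) conj z_v'(χ) = 0` if `v`, `v'` are not
conjugate under `T`: `T5.Co5Stmt`; if `x v' x⁻¹ = v` then `b v (cj x (b v')) = 0`, otherwise the two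
blocks of `C(v)` are equal (`Bx.dich`) and FUS gives `t ∈ T` with `t v' t⁻¹ = v`.  (3) The sum of the
`|∑_v z_v(χ)|²` is the sum over the `T`-orbits `O` of `∑_χ |∑_{v ∈ O ∩ q} z_v(χ)|²`, at most
`|O| ∑_{v ∈ O ∩ q} ∑_χ |z_v(χ)|²`, and `|O| = |T : T ∩ C(v)| = ix V γ/|T ∩ C(v) : C(V)|`. -/
def BslStmt : Prop := ∀ (ℓ : ℕ) [Fact ℓ.Prime] (M : Ideal (integralClosure ℤ ℂ)) [M.IsMaximal],
  (ℓ : integralClosure ℤ ℂ) ∈ M → ∀ (G : Type) [Group G] [Finite G] (e : G → FF M)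
  (V : Subgroup G) (γ : G → FF M), Ld ℓ e V γ → ∀ q : Finset G, (∀ v ∈ q, v ∈ V) →
  ∀ b : G → G → FF M, (∀ v ∈ q, Lc e V γ v (b v)) → ∀ Y : G → G → ℂ,
    ∑ᶠ χ ∈ Irr G, Complex.normSq (∑ v ∈ q, (Nat.card (Cu v) : ℂ)⁻¹ *
      ∑ᶠ (s : G) (_ : s ∈ Cu v ∧ Reg ℓ s),
        gv M (Cu v) (v * s) (b v) χ * starRingEnd ℂ (Y v s)) ≤
    ix V γ * ∑ v ∈ q, ((((Subgroup.centralizer (V : Set G)).relIndex (Tg V γ ⊓ Cu v) : ℕ) : ℝ))⁻¹ *
      ((Nat.card (Cu v) : ℝ)⁻¹ * ∑ᶠ (s : G) (_ : s ∈ Cu v ∧ Reg ℓ s), Complex.normSq (Y v s))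

/-! ## 10. The averaging lemma -/

/-- ISO: vectors with the same Gram matrix.

Proof.  In `E = EuclideanSpace ℂ (Fin β)` the map `∑ c_χ p_χ ↦ ∑ c_χ q_χ` is a well defined linear
isometry on the span of the `p_χ` (`‖∑ c_χ p_χ‖ = ‖∑ c_χ q_χ‖` by the hypothesis); extend it to `E`
(`LinearIsometry.extend`) and take its matrix. -/
def IsoStmt : Prop := ∀ (β : ℕ) (X : Type) [Fintype X] (p q : X → Fin β → ℂ),
  (∀ χ χ', ∑ k, p χ k * starRingEnd ℂ (p χ' k) = ∑ k, q χ k * starRingEnd ℂ (q χ' k)) →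
  ∃ U : Matrix (Fin β) (Fin β) ℂ, U.conjTranspose * U = 1 ∧ ∀ χ, U.mulVec (p χ) = q χ

/-- AVG: the averaging lemma.

Proof.  For `χ ∈ X`, `v ∈ q` let `n_j(v, χ) = (∑_k |b j v χ k|²) ^ (1/2)`, `m(v, χ) = |J|⁻¹ ∑_j n_j(v, χ)²`,
`K = 256 ε²`.  Let `X_v = {χ | m(v, χ) ≤ K}`.  By the third hypothesis, for given `χ`, the number of the
`v` with `m(v, χ) > K` is at most `4 ε |q|/K ≤ |q|/64`.  So `∑_v |X_v| ≥ (63/64) |X| |q|`, and we can
choose `v₀` with `|X_{v₀}| ≥ (63/64) |X|`.  For `v ∈ q`, `j ∈ J` let `Y_v = X_{v₀} ∩ X_v`; the Gram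
matrices of `(b j v₀ χ)` and `(b j v χ)`, `χ ∈ Y_v`, are equal, so by ISO there is a unitary matrix
`U_{j,v}` with `U_{j,v} b j v₀ χ = b j v χ` for `χ ∈ Y_v`.  Let `u_j(χ) = ∑_v U_{j,v}* b j v χ ∈ ℂ ^ β`.
The first hypothesis for `y v = U_{j,v} e_k` (`e_k` the unit vectors), added over `k`, gives
(1) `∑_χ ‖u_j(χ)‖² ≤ D |q| β`.  For `χ ∈ X_{v₀}`: `u_j(χ) = n b j v₀ χ + ∑_{v, m(v,χ) > K} U* b j v χ`,
`n ≥ (63/64) |q|`, so `‖u_j(χ)‖ ≥ (63/64) |q| n_j(v₀, χ) - ∑_{v, m(v,χ) > K} n_j(v, χ)`.  Add over `j`: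
`∑_j n_j(v₀, χ) ≥ |J|` (second hypothesis), and for `m(v, χ) > K = (16 ε)²`:
`∑_j n_j(v, χ) ≤ |J| m(v,χ) ^ (1/2) ≤ |J| m(v, χ)/(16 ε)`; the sum over these `v` is at most
`|J| 4 ε |q|/(16 ε) = |J| |q|/4`.  So `∑_j ‖u_j(χ)‖ ≥ (47/64) |q| |J|` and
`∑_j ‖u_j(χ)‖² ≥ (47/64)² |q|² |J| ≥ |q|² |J|/2`.  With (1): `|X_{v₀}| |q|² |J|/2 ≤ |J| D |q| β`,
`|X| |q| ≤ (64/63) |X_{v₀}| |q| ≤ (64/63) 2 β D`. -/
def AvgStmt : Prop := ∀ (X q J : Type) [Fintype X] [Fintype q] [Fintype J] [Nonempty q]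
  [Nonempty J] (β : ℕ) (b : J → q → X → Fin β → ℂ) (ε D : ℝ), 1 ≤ ε → 0 ≤ D →
  (∀ (j : J) (y : q → Fin β → ℂ),
    ∑ χ, Complex.normSq (∑ v, ∑ k, b j v χ k * starRingEnd ℂ (y v k)) ≤
      D * ∑ v, ∑ k, Complex.normSq (y v k)) →
  (∀ v χ, (Fintype.card J : ℝ) ≤ ∑ j, Real.sqrt (∑ k, Complex.normSq (b j v χ k))) →
  (∀ χ, ∑ v, ∑ j, ∑ k, Complex.normSq (b j v χ k) ≤
    4 * ε * Fintype.card q * Fintype.card J) →
  (∀ v v' χ χ',
    ∑ j, ∑ k, Complex.normSq (b j v χ k) ≤ 256 * ε ^ 2 * Fintype.card J →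
    ∑ j, ∑ k, Complex.normSq (b j v χ' k) ≤ 256 * ε ^ 2 * Fintype.card J →
    ∑ j, ∑ k, Complex.normSq (b j v' χ k) ≤ 256 * ε ^ 2 * Fintype.card J →
    ∑ j, ∑ k, Complex.normSq (b j v' χ' k) ≤ 256 * ε ^ 2 * Fintype.card J →
    ∀ j, ∑ k, b j v χ k * starRingEnd ℂ (b j v χ' k) =
      ∑ k, b j v' χ k * starRingEnd ℂ (b j v' χ' k)) →
  (Fintype.card X : ℝ) * Fintype.card q ≤ 4 * β * D

/-- PIG: a coset of elements of order `ℓ ^ a` on which `F` is not larger than twice the average.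

Proof.  The elements of `V` of order less than `ℓ ^ a` form a proper subgroup, so the set `V'` of the
elements of order `ℓ ^ a` has at least `|V|/2` elements, and `V' W = V'`.
`∑_{v ∈ V'} ∑_{z ∈ W} F(v z) = |W| ∑_{v ∈ V'} F(v)`, so for some `v₀ ∈ V'`
`∑_{z ∈ W} F(v₀ z) ≤ |W| (∑_{v ∈ V} F(v))/|V'|`. -/
def PigStmt : Prop := ∀ (ℓ : ℕ) [Fact ℓ.Prime] (G : Type) [Group G] [Finite G] (V : Subgroup G),
  (∀ a ∈ V, ∀ b ∈ V, a * b = b * a) → ∀ a : ℕ, 0 < a → Monoid.exponent V = ℓ ^ a →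
  ∀ W : Subgroup G, W ≤ V → (∀ z ∈ W, z ^ ℓ ^ (a - 1) = 1) → ∀ F : G → ℝ,
  (∀ v ∈ V, 0 ≤ F v) → ∃ v₀ ∈ V, (∀ z ∈ W, orderOf (v₀ * z) = ℓ ^ a) ∧
    (∑ᶠ (z : G) (_ : z ∈ W), F (v₀ * z)) * Nat.card V ≤
      2 * Nat.card W * ∑ᶠ (v : G) (_ : v ∈ V), F v

/-- FBD: the bound for the number of the characters fixed by the power map.

Proof.  `R = T5.Rf M N e`, `m` the number of elements of `un ℓ a`, `ε = ix V γ`,
`W = Uw (ℓ ^ (3 c + 1)) V` (`z ^ (ℓ ^ (a-1)) = 1` for `z ∈ W`), `b v` the local blocks (LOC).  For `v ∈ V`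
let `F(v) = m⁻¹ ∑_{χ ∈ R} ∑_{j ∈ un} |Mm (v ^ j) (b v) χ χ|`.  `v ↦ v ^ j` is a bijection of `V`,
`b (v ^ j) = b v` (LPW), so by CPL (and PSV) `∑_{v ∈ V} F(v) = ε |V| |R|`.  PIG: `v₀` with
`∑_{z ∈ W} F(v₀ z) ≤ 2 ε |W| |R|`.  Let `X` be the set of the `χ ∈ R` with
`m⁻¹ ∑_{z ∈ W} ∑_j |Mm ((v₀ z) ^ j) (b (v₀ z)) χ χ| ≤ 4 ε |W|`; `|R| ≤ 2 |X|`.  AVG for `X`, `q = W`,
`J = un ℓ a`, `D = ε |V|`, and the following vectors: for `z ∈ W`, `v = v₀ z` (of order `ℓ ^ a`), let `Q`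
be as in PGR for `v`, `b v`, and `b j z χ k = (|V| |T ∩ C(v) : C(V)|) ^ (1/2)
|C(v)|⁻¹ ∑_s gv M (Cu v) (v ^ j s) (b v) χ conj Q_k(s)` for `k < ln (b v) ≤ β` and `0` for the other
`k < β`.  By PGR the Gram matrix of the `b j z χ` is `Mm (v ^ j) (b v) χ χ'`.  First hypothesis of AVG:
BSL for the elements `v ^ j` (`C(v ^ j) = C(v)`) and `Y (v ^ j) = (|V| |T ∩ C(v) : C(V)|) ^ (1/2)
∑_k y z k Q_k`.  Second hypothesis: GEO.  Third: definition of `X`.  Fourth: EQM with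
`K = 256 ε²`.  So `|X| |W| ≤ 4 β ε |V|`. -/
def FbdStmt : Prop := ∀ (ℓ : ℕ) [Fact ℓ.Prime] (M : Ideal (integralClosure ℤ ℂ)) [M.IsMaximal],
  (ℓ : integralClosure ℤ ℂ) ∈ M → ∀ (G : Type) [Group G] [Finite G] (N : ℕ), T5.G5 G ℓ N →
  ∀ (e : G → FF M) (V : Subgroup G) (γ : G → FF M), Ld ℓ e V γ → ∀ a : ℕ, 0 < a →
  Monoid.exponent V = ℓ ^ a → ∀ c : ℕ, 512 * ix V γ ^ 2 < ℓ ^ c → ∀ β : ℕ,
  (∀ v ∈ V, orderOf v = ℓ ^ a → ∀ b, Lc e V γ v b → ln (fun t : Cu v => b t) ≤ β) →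
  (T5.Rf M N e).ncard * Nat.card (Uw (ℓ ^ (3 * c + 1)) V) ≤ 8 * β * ix V γ * Nat.card V

end Pool.Agent.PP.T6
end
end -- Pool.Agent.AT6.Stmts3

section -- Pool.Agent.Helper83_AT6.PWN

/-!
# Squad AT6, row PWN: powers of an element of the group ring with residue zero
-/

open scoped BigOperators

set_option linter.unusedSectionVars false

noncomputable section

namespace Pool.Agent.PP.T6.H83

open Pool.Agent.Helper51_AWC Pool.Agent.Helper79_WRA Pool.Agent.PP Pool.Agent.PP.KF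
open Pool.Agent.PP.K9 Pool.Agent.PP.K9.H97 Pool.Agent.PP.H75 Pool.Agent.PP.T3 Pool.Agent.PP.T2

attribute [local instance] Ideal.Quotient.field

variable {M : Ideal (integralClosure ℤ ℂ)} [hM : M.IsMaximal]

variable (M) in
/-- the inclusion of the algebraic integers -/
def incl : integralClosure ℤ ℂ →+* RM M where
  toFun z := ⟨z, RM_of_int z.2⟩
  map_one' := rfl
  map_zero' := rfl
  map_mul' _ _ := rfl
  map_add' _ _ := rfl

theorem incl_coe (z : integralClosure ℤ ℂ) : ((incl M z : RM M) : ℂ) = z := rfl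

/-- elements outside `M` are units of the local ring -/
theorem incl_unit {s : integralClosure ℤ ℂ} (hs : s ∉ M) : IsUnit (incl M s) := by
  have h1 : rr M (s : ℂ) ≠ 0 := by
    rw [rr_eq (s := 1) (t := s) one_notMem (by simp), map_one, inv_one, mul_one]
    exact mk_ne hs
  obtain ⟨h2, h3⟩ := inv_RM (RM_of_int s.2) h1
  refine IsUnit.of_mul_eq_one ⟨((s : ℂ))⁻¹, h2⟩ ?_
  apply Subtype.ext
  exact mul_inv_cancel₀ h3

/-- the prime ideals of the local ring which contain `ℓ` contain the elements with residue zero -/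
theorem mem_prime {ℓ : ℕ} (hℓ : ℓ.Prime) (P : Ideal (RM M)) [hP : P.IsPrime]
    (hl : ((ℓ : ℕ) : RM M) ∈ P) (β : RM M) (hβ : rr M (β : ℂ) = 0) : β ∈ P := by
  have h1 : (P.comap (incl M)).IsPrime := Ideal.comap_isPrime _ _
  have hl' : ((ℓ : ℕ) : integralClosure ℤ ℂ) ∈ P.comap (incl M) := by
    rw [Ideal.mem_comap, map_natCast]
    exact hl
  -- `P ∩ ℤ` is maximal
  have h2 : ((P.comap (incl M)).comap (algebraMap ℤ (integralClosure ℤ ℂ))).IsMaximal := by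
    have h3 : ((P.comap (incl M)).comap (algebraMap ℤ (integralClosure ℤ ℂ))).IsPrime :=
      Ideal.comap_isPrime _ _
    refine h3.isMaximal ?_
    intro h4
    have h5 : (ℓ : ℤ) ∈ (P.comap (incl M)).comap (algebraMap ℤ (integralClosure ℤ ℂ)) := by
      rw [Ideal.mem_comap, map_natCast]
      exact hl'
    rw [h4, Ideal.mem_bot] at h5
    exact hℓ.ne_zero (by exact_mod_cast h5)
  have h3 : (P.comap (incl M)).IsMaximal :=
    Ideal.isMaximal_of_isIntegral_of_isMaximal_comap (R := ℤ) _ h2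
  have h4 : P.comap (incl M) ≤ M := by
    intro s hs
    by_contra hsM
    exact hP.ne_top (Ideal.eq_top_of_isUnit_mem _ hs (incl_unit hsM))
  have h5 : P.comap (incl M) = M := h3.eq_of_le hM.ne_top h4
  obtain ⟨s, t, hs, hst⟩ := β.2
  have ht : t ∈ M := by
    by_contra ht
    rw [rr_eq hs hst] at hβ
    rcases mul_eq_zero.1 hβ with h6 | h6
    · exact mk_ne ht h6
    · exact mk_ne hs (inv_eq_zero.1 h6)
  have h6 : incl M s * β = incl M t := Subtype.ext hst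
  have h7 : incl M s * β ∈ P := by
    rw [h6]
    have : t ∈ P.comap (incl M) := by rw [h5]; exact ht
    exact this
  rcases hP.mem_or_mem h7 with h8 | h8
  · exfalso
    apply hs
    rw [← h5]
    exact h8
  · exact h8

section pow

variable {G : Type} [Group G] [Fintype G]

open Classical in
/-- the powers, with values in the local ring -/
def vn (B : G → RM M) : ℕ → G → RM M
  | 0 => fun x => if x = 1 then 1 else 0
  | n + 1 => fun x => ∑ t, B t * vn B n (t⁻¹ * x)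

theorem vn_coe (B : G → RM M) (n : ℕ) (x : G) :
    ((vn B n x : RM M) : ℂ) = T8.pw (fun t => ((B t : RM M) : ℂ)) n x := by
  induction n generalizing x with
  | zero =>
    rw [vn, T8.pw]
    by_cases h : x = 1
    · simp only [if_pos h]
      rfl
    · simp only [if_neg h]
      rfl
  | succ n ih =>
    rw [vn, T8.pw, mulF, finsum_eq_sum_of_fintype]
    rw [AddSubmonoidClass.coe_finsetSum]
    refine Finset.sum_congr rfl fun t _ => ?_
    rw [← ih]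
    rfl

theorem vn_mem (B : G → RM M) (n : ℕ) (x : G) :
    vn B n x ∈ (Ideal.span (Set.range B)) ^ n := by
  induction n generalizing x with
  | zero =>
    rw [pow_zero, Ideal.one_eq_top]
    trivial
  | succ n ih =>
    rw [vn, pow_succ']
    refine Ideal.sum_mem _ fun t _ => ?_
    exact Ideal.mul_mem_mul (Ideal.subset_span ⟨t, rfl⟩) (ih _)

end pow

theorem pwn : PwnStmt := by
  intro ℓ hℓ M _ hlM G _ _ b hb hb0 c
  have := Fintype.ofFinite G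
  set B : G → RM M := fun x => ⟨b x, hb x⟩ with hB
  have hI : Ideal.span (Set.range B) ≤ (Ideal.span {(((ℓ : ℕ) : RM M)) ^ c}).radical := by
    rw [Ideal.span_le]
    rintro _ ⟨x, rfl⟩
    rw [SetLike.mem_coe, Ideal.radical_eq_sInf, Submodule.mem_sInf]
    rintro P ⟨hP1, hP2⟩
    have h1 : (((ℓ : ℕ) : RM M)) ^ c ∈ P := hP1 (Ideal.subset_span rfl)
    exact mem_prime hℓ.out P (hP2.mem_of_pow_mem c h1) (B x) (hb0 x)
  have hfg : (Ideal.span (Set.range B)).FG := ⟨(Set.finite_range B).toFinset, by simp⟩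
  obtain ⟨n, hn⟩ := Ideal.exists_pow_le_of_le_radical_of_fg hI hfg
  refine ⟨n, fun x => ?_⟩
  have h1 := hn (vn_mem B n x)
  rw [Ideal.mem_span_singleton'] at h1
  obtain ⟨a, ha⟩ := h1
  refine ⟨a, a.2, ?_⟩
  have h3 : T8.pw b n x = ((a * (((ℓ : ℕ) : RM M)) ^ c : RM M) : ℂ) := by
    rw [ha, vn_coe]
  rw [h3]
  push_cast
  ring

end Pool.Agent.PP.T6.H83
end
end -- Pool.Agent.Helper83_AT6.PWN

section -- Pool.Agent.Helper94_AT6.AVG

/-!
Squad AT6, row AVG (helper94): the averaging lemma.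
-/

open scoped BigOperators

noncomputable section

namespace Pool.Agent.PP.T6.H94

open Pool.Agent.PP Pool.Agent.PP.T6

/-- the norm of a vector -/
def nrm {β : ℕ} (x : Fin β → ℂ) : ℝ := Real.sqrt (∑ k, Complex.normSq (x k))

theorem nrm_eq {β : ℕ} (x : Fin β → ℂ) :
    nrm x = ‖(WithLp.toLp 2 x : EuclideanSpace ℂ (Fin β))‖ := by
  rw [EuclideanSpace.norm_eq]
  unfold nrm
  congr 1
  refine Finset.sum_congr rfl fun k _ => ?_
  rw [Complex.normSq_eq_norm_sq]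

theorem sum_nn {β : ℕ} (x : Fin β → ℂ) : 0 ≤ ∑ k, Complex.normSq (x k) :=
  Finset.sum_nonneg fun k _ => Complex.normSq_nonneg _

theorem nrm_nn {β : ℕ} (x : Fin β → ℂ) : 0 ≤ nrm x := Real.sqrt_nonneg _

theorem nrm_sq {β : ℕ} (x : Fin β → ℂ) : nrm x ^ 2 = ∑ k, Complex.normSq (x k) :=
  Real.sq_sqrt (sum_nn x)

theorem nrm_sum {β : ℕ} {ι : Type} (s : Finset ι) (f : ι → Fin β → ℂ) :
    nrm (∑ i ∈ s, f i) ≤ ∑ i ∈ s, nrm (f i) := by
  rw [nrm_eq]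
  have h : (WithLp.toLp 2 (∑ i ∈ s, f i) : EuclideanSpace ℂ (Fin β)) =
      ∑ i ∈ s, (WithLp.toLp 2 (f i) : EuclideanSpace ℂ (Fin β)) := by
    exact map_sum (WithLp.linearEquiv 2 ℂ (Fin β → ℂ)).symm f s
  rw [h]
  refine (norm_sum_le _ _).trans (le_of_eq ?_)
  refine Finset.sum_congr rfl fun i _ => ?_
  rw [nrm_eq]

theorem nrm_add_ge {β : ℕ} (x y : Fin β → ℂ) : nrm x - nrm y ≤ nrm (x + y) := by
  rw [nrm_eq, nrm_eq, nrm_eq]
  have h : (WithLp.toLp 2 (x + y) : EuclideanSpace ℂ (Fin β)) =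
      (WithLp.toLp 2 x : EuclideanSpace ℂ (Fin β)) + WithLp.toLp 2 y := rfl
  rw [h]
  have h1 := norm_sub_le ((WithLp.toLp 2 x : EuclideanSpace ℂ (Fin β)) + WithLp.toLp 2 y)
    (WithLp.toLp 2 y)
  rw [add_sub_cancel_right] at h1
  linarith

theorem nrm_smul {β : ℕ} (n : ℕ) (x : Fin β → ℂ) : nrm (n • x) = n * nrm x := by
  rw [nrm_eq, nrm_eq]
  have h : (WithLp.toLp 2 (n • x) : EuclideanSpace ℂ (Fin β)) =
      (n : ℂ) • (WithLp.toLp 2 x : EuclideanSpace ℂ (Fin β)) := by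
    ext k
    simp
  rw [h, norm_smul]
  simp

theorem dot_eq {β : ℕ} (x : Fin β → ℂ) :
    dotProduct (star x) x = ((∑ k, Complex.normSq (x k) : ℝ) : ℂ) := by
  unfold dotProduct
  push_cast
  refine Finset.sum_congr rfl fun k _ => ?_
  rw [Pi.star_apply, Complex.star_def, mul_comm, Complex.mul_conj]

theorem nrm_adj {β : ℕ} (U : Matrix (Fin β) (Fin β) ℂ) (hU : U.conjTranspose * U = 1)
    (x : Fin β → ℂ) : nrm (U.conjTranspose.mulVec x) = nrm x := by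
  have hU' : U * U.conjTranspose = 1 := mul_eq_one_comm.1 hU
  have h1 : dotProduct (star (U.conjTranspose.mulVec x)) (U.conjTranspose.mulVec x) =
      dotProduct (star x) x := by
    rw [Matrix.star_mulVec, Matrix.conjTranspose_conjTranspose, ← Matrix.dotProduct_mulVec,
      Matrix.mulVec_mulVec, hU', Matrix.one_mulVec]
  rw [dot_eq, dot_eq] at h1
  have h2 : (∑ k, Complex.normSq (U.conjTranspose.mulVec x k)) = ∑ k, Complex.normSq (x k) := by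
    exact_mod_cast h1
  unfold nrm
  rw [h2]

theorem col_one {β : ℕ} (U : Matrix (Fin β) (Fin β) ℂ) (hU : U.conjTranspose * U = 1)
    (k : Fin β) : ∑ k', Complex.normSq (U k' k) = 1 := by
  have h := congrFun (congrFun hU k) k
  rw [Matrix.mul_apply, Matrix.one_apply_eq] at h
  have h2 : ((∑ k', Complex.normSq (U k' k) : ℝ) : ℂ) = 1 := by
    rw [← h]
    push_cast
    refine Finset.sum_congr rfl fun k' _ => ?_
    rw [Matrix.conjTranspose_apply, Complex.star_def, mul_comm, Complex.mul_conj]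
  exact_mod_cast h2

theorem avg (iso : IsoStmt) : AvgStmt := by
  classical
  intro X q J _ _ _ _ _ β b ε D hε hD hB hlow hup hG
  -- notation
  set Q : ℝ := (Fintype.card q : ℝ) with hQ
  set JJ : ℝ := (Fintype.card J : ℝ) with hJJ
  have hQ0 : 0 < Q := by
    rw [hQ]
    exact_mod_cast Fintype.card_pos
  have hJ0 : 0 < JJ := by
    rw [hJJ]
    exact_mod_cast Fintype.card_pos
  let mJ : q → X → ℝ := fun v χ => ∑ j, ∑ k, Complex.normSq (b j v χ k)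
  have hmJ : ∀ v χ, 0 ≤ mJ v χ := fun v χ =>
    Finset.sum_nonneg fun j _ => sum_nn _
  let Gd : q → X → Prop := fun v χ => mJ v χ ≤ 256 * ε ^ 2 * JJ
  -- few bad `v` for every `χ`
  have hbad : ∀ χ, (((Finset.univ.filter fun v => ¬ Gd v χ).card : ℕ) : ℝ) ≤ Q / 64 := by
    intro χ
    have h1 : (((Finset.univ.filter fun v => ¬ Gd v χ).card : ℕ) : ℝ) * (256 * ε ^ 2 * JJ) ≤
        4 * ε * Q * JJ := by
      calc (((Finset.univ.filter fun v => ¬ Gd v χ).card : ℕ) : ℝ) * (256 * ε ^ 2 * JJ)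
          = ∑ v ∈ Finset.univ.filter fun v => ¬ Gd v χ, (256 * ε ^ 2 * JJ) := by
            rw [Finset.sum_const, nsmul_eq_mul]
        _ ≤ ∑ v ∈ Finset.univ.filter fun v => ¬ Gd v χ, mJ v χ := by
            refine Finset.sum_le_sum fun v hv => ?_
            exact (not_le.1 (Finset.mem_filter.1 hv).2).le
        _ ≤ ∑ v, mJ v χ := Finset.sum_le_sum_of_subset_of_nonneg (Finset.filter_subset _ _)
            fun v _ _ => hmJ v χ
        _ ≤ 4 * ε * Q * JJ := hup χ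
    have h2 : (((Finset.univ.filter fun v => ¬ Gd v χ).card : ℕ) : ℝ) * (64 * ε) ≤ Q := by
      have h3 : 0 < 4 * ε * JJ := by positivity
      refine le_of_mul_le_mul_right ?_ h3
      nlinarith
    have h4 : (0 : ℝ) ≤ (((Finset.univ.filter fun v => ¬ Gd v χ).card : ℕ) : ℝ) :=
      Nat.cast_nonneg _
    rw [le_div_iff₀ (by norm_num)]
    nlinarith
  have hgood : ∀ χ, 63 / 64 * Q ≤ (((Finset.univ.filter fun v => Gd v χ).card : ℕ) : ℝ) := by
    intro χ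
    have h1 := Finset.card_filter_add_card_filter_not (s := (Finset.univ : Finset q))
      (fun v => Gd v χ)
    have h2 : (((Finset.univ.filter fun v => Gd v χ).card : ℕ) : ℝ) +
        (((Finset.univ.filter fun v => ¬ Gd v χ).card : ℕ) : ℝ) = Q := by
      rw [hQ, ← Finset.card_univ, ← h1]
      push_cast
      ring
    have h3 := hbad χ
    linarith
  -- the choice of `v₀`
  obtain ⟨v₀, hv₀⟩ : ∃ v₀, 63 / 64 * (Fintype.card X : ℝ) ≤
      (((Finset.univ.filter fun χ => Gd v₀ χ).card : ℕ) : ℝ) := by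
    by_contra hcon
    push Not at hcon
    have h1 : ∑ v : q, (((Finset.univ.filter fun χ => Gd v χ).card : ℕ) : ℝ) <
        ∑ v : q, 63 / 64 * (Fintype.card X : ℝ) :=
      Finset.sum_lt_sum_of_nonempty Finset.univ_nonempty fun v _ => hcon v
    have h2 : ∑ v : q, (((Finset.univ.filter fun χ => Gd v χ).card : ℕ) : ℝ) =
        ∑ χ : X, (((Finset.univ.filter fun v => Gd v χ).card : ℕ) : ℝ) := by
      simp only [Finset.card_filter]
      push_cast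
      rw [Finset.sum_comm]
    have h3 : ∑ χ : X, 63 / 64 * Q ≤
        ∑ χ : X, (((Finset.univ.filter fun v => Gd v χ).card : ℕ) : ℝ) :=
      Finset.sum_le_sum fun χ _ => hgood χ
    rw [h2] at h1
    rw [Finset.sum_const, Finset.card_univ, nsmul_eq_mul] at h1 h3
    rw [← hQ] at h1
    nlinarith
  -- the unitary matrices
  have hU : ∀ (j : J) (v : q), ∃ U : Matrix (Fin β) (Fin β) ℂ, U.conjTranspose * U = 1 ∧
      ∀ χ, Gd v₀ χ → Gd v χ → U.mulVec (b j v₀ χ) = b j v χ := by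
    intro j v
    obtain ⟨U, h1, h2⟩ := iso β {χ : X // Gd v₀ χ ∧ Gd v χ} (fun χ => b j v₀ χ.1)
      (fun χ => b j v χ.1)
      (fun χ χ' => hG v₀ v χ.1 χ'.1 χ.2.1 χ'.2.1 χ.2.2 χ'.2.2 j)
    exact ⟨U, h1, fun χ h h' => h2 ⟨χ, h, h'⟩⟩
  choose U hU1 hU2 using hU
  let u : J → X → Fin β → ℂ := fun j χ => ∑ v, (U j v).conjTranspose.mulVec (b j v χ)
  -- upper bound
  have hup2 : ∀ j, ∑ χ, nrm (u j χ) ^ 2 ≤ D * Q * β := by
    intro j
    have h1 : ∀ k : Fin β, ∑ χ, Complex.normSq (u j χ k) ≤ D * Q := by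
      intro k
      have h2 := hB j (fun v k' => U j v k' k)
      have h3 : ∑ v : q, ∑ k', Complex.normSq (U j v k' k) = Q := by
        rw [Finset.sum_congr rfl fun v _ => col_one (U j v) (hU1 j v) k]
        rw [Finset.sum_const, Finset.card_univ, nsmul_eq_mul, mul_one]
      rw [h3] at h2
      refine le_trans (le_of_eq ?_) h2
      refine Finset.sum_congr rfl fun χ _ => ?_
      congr 1
      simp only [u, Finset.sum_apply]
      refine Finset.sum_congr rfl fun v _ => ?_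
      unfold Matrix.mulVec dotProduct
      refine Finset.sum_congr rfl fun k' _ => ?_
      change (U j v).conjTranspose k k' * b j v χ k' = _
      rw [Matrix.conjTranspose_apply, Complex.star_def, mul_comm]
    calc ∑ χ, nrm (u j χ) ^ 2 = ∑ χ, ∑ k, Complex.normSq (u j χ k) :=
          Finset.sum_congr rfl fun χ _ => nrm_sq _
      _ = ∑ k, ∑ χ, Complex.normSq (u j χ k) := Finset.sum_comm
      _ ≤ ∑ k : Fin β, D * Q := Finset.sum_le_sum fun k _ => h1 k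
      _ = D * Q * β := by
          rw [Finset.sum_const, Finset.card_univ, Fintype.card_fin, nsmul_eq_mul]
          ring
  -- lower bound
  have hbadsum : ∀ v χ, ¬ Gd v χ → ∑ j, nrm (b j v χ) ≤ mJ v χ / (16 * ε) := by
    intro v χ hv
    have h1 : (∑ j, nrm (b j v χ)) ^ 2 ≤ JJ * mJ v χ := by
      have h2 := sq_sum_le_card_mul_sum_sq (s := (Finset.univ : Finset J))
        (f := fun j => nrm (b j v χ))
      rw [Finset.card_univ] at h2
      refine h2.trans (le_of_eq ?_)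
      congr 1
      exact Finset.sum_congr rfl fun j _ => nrm_sq _
    have h3 : 256 * ε ^ 2 * JJ < mJ v χ := not_le.1 hv
    have h4 : 0 < mJ v χ := lt_of_le_of_lt (by positivity) h3
    have h5 : 0 ≤ ∑ j, nrm (b j v χ) := Finset.sum_nonneg fun j _ => nrm_nn _
    rw [le_div_iff₀ (by positivity)]
    refine le_of_sq_le_sq ?_ h4.le
    calc ((∑ j, nrm (b j v χ)) * (16 * ε)) ^ 2
        = (∑ j, nrm (b j v χ)) ^ 2 * (256 * ε ^ 2) := by ring
      _ ≤ (JJ * mJ v χ) * (256 * ε ^ 2) := mul_le_mul_of_nonneg_right h1 (by positivity)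
      _ = (256 * ε ^ 2 * JJ) * mJ v χ := by ring
      _ ≤ mJ v χ * mJ v χ := mul_le_mul_of_nonneg_right h3.le h4.le
      _ = mJ v χ ^ 2 := by ring
  have hlow2 : ∀ χ, Gd v₀ χ → Q ^ 2 * JJ / 2 ≤ ∑ j, nrm (u j χ) ^ 2 := by
    intro χ hχ
    have h1 : ∀ j, 63 / 64 * Q * nrm (b j v₀ χ) -
        ∑ v ∈ Finset.univ.filter (fun v => ¬ Gd v χ), nrm (b j v χ) ≤ nrm (u j χ) := by
      intro j
      have h2 : u j χ = (∑ v ∈ Finset.univ.filter (fun v => Gd v χ),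
          (U j v).conjTranspose.mulVec (b j v χ)) +
          ∑ v ∈ Finset.univ.filter (fun v => ¬ Gd v χ),
            (U j v).conjTranspose.mulVec (b j v χ) :=
        (Finset.sum_filter_add_sum_filter_not _ _ _).symm
      have h3 : (∑ v ∈ Finset.univ.filter (fun v => Gd v χ),
          (U j v).conjTranspose.mulVec (b j v χ)) =
          (Finset.univ.filter (fun v => Gd v χ)).card • b j v₀ χ := by
        rw [← Finset.sum_const]
        refine Finset.sum_congr rfl fun v hv => ?_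
        rw [← hU2 j v χ hχ (Finset.mem_filter.1 hv).2, Matrix.mulVec_mulVec, hU1,
          Matrix.one_mulVec]
      rw [h2, h3]
      refine le_trans ?_ (nrm_add_ge _ _)
      rw [nrm_smul]
      have h4 : nrm (∑ v ∈ Finset.univ.filter (fun v => ¬ Gd v χ),
          (U j v).conjTranspose.mulVec (b j v χ)) ≤
          ∑ v ∈ Finset.univ.filter (fun v => ¬ Gd v χ), nrm (b j v χ) := by
        refine (nrm_sum _ _).trans (le_of_eq ?_)
        exact Finset.sum_congr rfl fun v _ => nrm_adj _ (hU1 j v) _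
      have h5 : 63 / 64 * Q * nrm (b j v₀ χ) ≤
          (((Finset.univ.filter fun v => Gd v χ).card : ℕ) : ℝ) * nrm (b j v₀ χ) :=
        mul_le_mul_of_nonneg_right (hgood χ) (nrm_nn _)
      linarith
    have h6 : 47 / 64 * Q * JJ ≤ ∑ j, nrm (u j χ) := by
      have h7 : ∑ j, (63 / 64 * Q * nrm (b j v₀ χ) -
          ∑ v ∈ Finset.univ.filter (fun v => ¬ Gd v χ), nrm (b j v χ)) ≤ ∑ j, nrm (u j χ) :=
        Finset.sum_le_sum fun j _ => h1 j
      rw [Finset.sum_sub_distrib, ← Finset.mul_sum, Finset.sum_comm] at h7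
      have h8 : ∑ v ∈ Finset.univ.filter (fun v => ¬ Gd v χ), ∑ j, nrm (b j v χ) ≤
          Q * JJ / 4 := by
        calc ∑ v ∈ Finset.univ.filter (fun v => ¬ Gd v χ), ∑ j, nrm (b j v χ)
            ≤ ∑ v ∈ Finset.univ.filter (fun v => ¬ Gd v χ), mJ v χ / (16 * ε) :=
              Finset.sum_le_sum fun v hv => hbadsum v χ (Finset.mem_filter.1 hv).2
          _ ≤ ∑ v, mJ v χ / (16 * ε) :=
              Finset.sum_le_sum_of_subset_of_nonneg (Finset.filter_subset _ _)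
                fun v _ _ => div_nonneg (hmJ v χ) (by positivity)
          _ = (∑ v, mJ v χ) / (16 * ε) := by rw [Finset.sum_div]
          _ ≤ (4 * ε * Q * JJ) / (16 * ε) :=
              div_le_div_of_nonneg_right (hup χ) (by positivity)
          _ = Q * JJ / 4 := by
              field_simp
              ring
      have h9 : JJ ≤ ∑ j, nrm (b j v₀ χ) := hlow v₀ χ
      have h10 : 63 / 64 * Q * JJ ≤ 63 / 64 * Q * ∑ j, nrm (b j v₀ χ) :=
        mul_le_mul_of_nonneg_left h9 (by positivity)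
      linarith
    have h11 : (∑ j, nrm (u j χ)) ^ 2 ≤ JJ * ∑ j, nrm (u j χ) ^ 2 := by
      have h2 := sq_sum_le_card_mul_sum_sq (s := (Finset.univ : Finset J))
        (f := fun j => nrm (u j χ))
      rw [Finset.card_univ] at h2
      exact h2
    have h12 : (47 / 64 * Q * JJ) ^ 2 ≤ (∑ j, nrm (u j χ)) ^ 2 :=
      pow_le_pow_left₀ (by positivity) h6 2
    have h13 : JJ * (Q ^ 2 * JJ / 2) ≤ JJ * ∑ j, nrm (u j χ) ^ 2 := by
      refine le_trans ?_ (h12.trans h11)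
      have : 0 ≤ Q ^ 2 * JJ ^ 2 := by positivity
      nlinarith
    exact le_of_mul_le_mul_left h13 hJ0
  -- conclusion
  have hfin : (((Finset.univ.filter fun χ => Gd v₀ χ).card : ℕ) : ℝ) * (Q ^ 2 * JJ / 2) ≤
      JJ * (D * Q * β) := by
    calc (((Finset.univ.filter fun χ => Gd v₀ χ).card : ℕ) : ℝ) * (Q ^ 2 * JJ / 2)
        = ∑ χ ∈ Finset.univ.filter fun χ => Gd v₀ χ, (Q ^ 2 * JJ / 2) := by
          rw [Finset.sum_const, nsmul_eq_mul]
      _ ≤ ∑ χ ∈ Finset.univ.filter fun χ => Gd v₀ χ, ∑ j, nrm (u j χ) ^ 2 :=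
          Finset.sum_le_sum fun χ hχ => hlow2 χ (Finset.mem_filter.1 hχ).2
      _ ≤ ∑ χ, ∑ j, nrm (u j χ) ^ 2 :=
          Finset.sum_le_sum_of_subset_of_nonneg (Finset.filter_subset _ _)
            fun χ _ _ => Finset.sum_nonneg fun j _ => sq_nonneg _
      _ = ∑ j, ∑ χ, nrm (u j χ) ^ 2 := Finset.sum_comm
      _ ≤ ∑ j : J, D * Q * β := Finset.sum_le_sum fun j _ => hup2 j
      _ = JJ * (D * Q * β) := by rw [Finset.sum_const, Finset.card_univ, nsmul_eq_mul]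
  have h1 : (((Finset.univ.filter fun χ => Gd v₀ χ).card : ℕ) : ℝ) * Q ≤ 2 * β * D := by
    have h2 : 0 < Q * JJ / 2 := by positivity
    refine le_of_mul_le_mul_right ?_ h2
    nlinarith
  have h3 : 63 / 64 * (Fintype.card X : ℝ) * Q ≤ 2 * β * D :=
    (mul_le_mul_of_nonneg_right hv₀ hQ0.le).trans h1
  have h4 : 0 ≤ (β : ℝ) * D := mul_nonneg (Nat.cast_nonneg _) hD
  have h5 : 0 ≤ (Fintype.card X : ℝ) * Q := by positivity
  nlinarith

end Pool.Agent.PP.T6.H94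
end
end -- Pool.Agent.Helper94_AT6.AVG
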