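import Pool.Agent.AT3.Stmts3
import Pool.Agent.Helper12_AWB.B000

/-!
# Merged copies (generated) of the modules

* `Pool.Agent.ASO.DefsB`
* `Pool.Agent.ASO.Stmts2`
* `Pool.Agent.ASO.DefsC`
* `Pool.Agent.ASO.Stmts3`
* `Pool.Agent.Helper66_SOR.StmtX`
* `Pool.Agent.Helper70_ASO.RTX`
-/

set_option autoImplicit false

section -- Pool.Agent.ASO.DefsB

/-!
# Squad ASO, definitions, part B: triples in a group, types
-/

open scoped BigOperators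

noncomputable section

namespace Pool.Agent.PP.SO

open Pool.Agent.Helper51_AWC Pool.Agent.Helper79_WRA Pool.Agent.PP Pool.Agent.PP.KF
open Pool.Agent.PP.K9 Pool.Agent.PP.K9.H97 Pool.Agent.PP.H75 Pool.Agent.PP.T3

/-- the triples `(x, y, u)` with `[x, y] = g (u h u⁻¹)` -/
def XX {G : Type} [Group G] (g h : G) : Type :=
  {w : G × G × G // w.1 * w.2.1 * w.1⁻¹ * w.2.1⁻¹ = g * (w.2.2 * h * w.2.2⁻¹)}

/-- `x ↦ x ^ m` is the `ℓ`-part, `n > 1` is a power of `ℓ` which kills the `ℓ`-elements. -/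
structure PE (ℓ n m : ℕ) (G : Type) [Group G] : Prop where
  pw : ∃ r, 0 < r ∧ n = ℓ ^ r
  md : m % ℓ = 1
  el : ∀ g : G, El ℓ g → g ^ m = g ∧ g ^ n = 1
  rg : ∀ g : G, Reg ℓ g → g ^ m = 1

/-- a homomorphism to `ZMod ℓ` -/
def Hm {V₀ : Type} [CommGroup V₀] {ℓ : ℕ} (ρ : V₀ → ZMod ℓ) : Prop := ∀ v w, ρ (v * w) = ρ v + ρ w

/-- the index set of the types: `(i, j, p, q)` -/
abbrev SS (n : ℕ) (V₀ : Type) : Type := Fin n × Fin n × V₀ × V₀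

section types

variable {G : Type} [Group G] {V₀ : Type} [CommGroup V₀]

/-- `α₁ ^ i α₃ ^ j (x, y, u) = (p, q) (x, y, u)`, where `α₁ (x, y, u) = (x, y x^m, u)`,
`α₃ (x, y, u) = (x, X^m y, X^m u)`, `X = g⁻¹ x`, and `(p, q)` acts as
`(x, y, u) ↦ (p x p⁻¹, p y p⁻¹, p u q⁻¹)`. -/
def c13 (m : ℕ) (ι : V₀ →* G) (g x y u : G) (i j : ℕ) (p q : V₀) : Prop :=
  x = ι p * x * (ι p)⁻¹ ∧ ((g⁻¹ * x) ^ m) ^ j * y * (x ^ m) ^ i = ι p * y * (ι p)⁻¹ ∧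
    ((g⁻¹ * x) ^ m) ^ j * u = ι p * u * (ι q)⁻¹

/-- the commutator `x y x⁻¹ y⁻¹` -/
def kap (x y : G) : G := x * y * x⁻¹ * y⁻¹

/-- `α₁ ^ i α₁₂ ^ k (x, y, u) = (p, q) (x, y, u)`, where
`α₁₂ (x, y, u) = (κ^(-m) x κ^m, κ^(-m) y κ^m, u)`, `κ = x y x⁻¹ y⁻¹`. -/
def c12 (m : ℕ) (ι : V₀ →* G) (x y u : G) (i k : ℕ) (p q : V₀) : Prop :=
  ((kap x y ^ m) ^ k)⁻¹ * x * (kap x y ^ m) ^ k = ι p * x * (ι p)⁻¹ ∧
    ((kap x y ^ m) ^ k)⁻¹ * (y * (x ^ m) ^ i) * (kap x y ^ m) ^ k = ι p * y * (ι p)⁻¹ ∧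
    u = ι p * u * (ι q)⁻¹

/-- the type for `α₁`, `α₃` -/
def t13 (n m : ℕ) (ι : V₀ →* G) (P Q : Subgroup V₀) (g x y u : G) : Set (SS n V₀) :=
  {s | s.2.2.1 ∈ P ∧ s.2.2.2 ∈ Q ∧ c13 m ι g x y u s.1 s.2.1 s.2.2.1 s.2.2.2}

/-- the type for `α₁`, `α₁₂` -/
def t12 (n m : ℕ) (ι : V₀ →* G) (P Q : Subgroup V₀) (x y u : G) : Set (SS n V₀) :=
  {s | s.2.2.1 ∈ P ∧ s.2.2.2 ∈ Q ∧ c12 m ι x y u s.1 s.2.1 s.2.2.1 s.2.2.2}

/-- The properties of the functions of the types.  `ρ₁`, `ρ₂` homomorphisms, `r₁`, `r₂` integers. -/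
structure FT (ℓ n : ℕ) (ρ₁ ρ₂ : V₀ → ZMod ℓ) (c d : V₀) (r₁ r₂ : ℤ)
    (F₁₃ F₁₂ : Set (SS n V₀) → ℚ) : Prop where
  z13 : ∀ τ : Set (SS n V₀), (∀ s ∈ τ, s.2.2.1 = 1) ∨ (∀ s ∈ τ, s.2.2.2 = 1) → F₁₃ τ = 0
  z12 : ∀ τ : Set (SS n V₀), (∀ s ∈ τ, s.2.2.1 = 1 ∧ s.2.2.2 = 1) → F₁₂ τ = r₁ * r₂ / ℓ ^ 2
  main : ∀ (κ₁ κ₂ : V₀) (I : Set (Fin n)), (∃ i ∈ I, (i : ℕ) = 0) → κ₁ ≠ c⁻¹ → κ₂ ≠ d⁻¹ →
    F₁₂ {s | s.1 ∈ I ∧ s.2.2.1 = κ₁ ^ (s.2.1 : ℕ) ∧ s.2.2.2 = κ₂ ^ (s.2.1 : ℕ)} =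
      (r₁ * r₂ - (ρ₁ κ₁).val * (ρ₂ κ₂).val) / ℓ ^ 2

/-- The relation: for all frames `P`, `Q` the sum of `F₁₃ + F₁₂` over the triples is divisible by
`|P| |Q|`. -/
def Rel (ℓ : ℕ) [Fact ℓ.Prime] (n m : ℕ) (ι : V₀ →* G) (c d : V₀) (F₁₃ F₁₂ : Set (SS n V₀) → ℚ) :
    Prop :=
  ∀ P Q : Subgroup V₀, c ∈ P → d ∈ Q → ∀ s t : G, Reg ℓ s → Reg ℓ t →
    (∀ p ∈ P, ι p * s = s * ι p) → (∀ q ∈ Q, ι q * t = t * ι q) →
    ∃ z ∈ SOR.Rl ℓ, ∑ᶠ w : XX (ι c * s) (ι d * t),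
      (F₁₃ (t13 n m ι P Q (ι c * s) w.1.1 w.1.2.1 w.1.2.2) +
        F₁₂ (t12 n m ι P Q w.1.1 w.1.2.1 w.1.2.2)) = Nat.card P * Nat.card Q * z

end types

end Pool.Agent.PP.SO
end
end -- Pool.Agent.ASO.DefsB

section -- Pool.Agent.ASO.Stmts2

/-!
# Squad ASO, statements 2: the exact relation for triples in a finite group

Complete proofs in the docstrings.  Text: `AWC_SO.md`.
-/

open scoped BigOperators

noncomputable section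

namespace Pool.Agent.PP.SO

open Pool.Agent.Helper51_AWC Pool.Agent.Helper79_WRA Pool.Agent.PP Pool.Agent.PP.KF
open Pool.Agent.PP.K9 Pool.Agent.PP.K9.H97 Pool.Agent.PP.H75 Pool.Agent.PP.T3

/-- RTX: the relation for the triples in all finite groups, with universal functions of the types.

Proof.  A corollary of `RtyStmt` (`Helper66_SOR/StmtX.lean`, itself a corollary of `SOR.UniStmt` and
`SOR.BrxStmt`): let `x₁(v) = (ρ₁ v).val` for `v ≠ c⁻¹`, `x₁(c⁻¹) = r₁`, `x₂(v) = (ρ₂ v).val` for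
`v ≠ d⁻¹`, `x₂(d⁻¹) = r₂`.  `z13` is weaker than that of RTY (`p = 1` implies `ρ₁ p = 0`), `z12` follows (a
type with all `p = q = 1` is free), `main`: `prod`, `K1` (`n > 1`; the type is free and a product type). -/
def RtxStmt : Prop := ∀ (ℓ : ℕ) [Fact ℓ.Prime] (V₀ : Type) [CommGroup V₀] [Finite V₀],
  (∀ v : V₀, v ^ ℓ = 1) → ∀ (n : ℕ) (ρ₁ ρ₂ : V₀ → ZMod ℓ), (∃ r, 0 < r ∧ n = ℓ ^ r) → Hm ρ₁ →
  Hm ρ₂ → ∀ (c d : V₀) (r₁ r₂ : ℤ), (r₁ : ZMod ℓ) = - ρ₁ c → (r₂ : ZMod ℓ) = - ρ₂ d →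
  (ρ₁ c = 0 → r₁ = 0) → (ρ₂ d = 0 → r₂ = 0) →
  ∃ F₁₃ F₁₂ : Set (SS n V₀) → ℚ, FT ℓ n ρ₁ ρ₂ c d r₁ r₂ F₁₃ F₁₂ ∧
    ∀ (G : Type) [Group G] [Finite G] (m : ℕ) (ι : V₀ →* G), Function.Injective ι →
      PE ℓ n m G → Rel ℓ n m ι c d F₁₃ F₁₂

end Pool.Agent.PP.SO
end
end -- Pool.Agent.ASO.Stmts2

section -- Pool.Agent.ASO.DefsC

/-!
# Squad ASO, definitions, part C: the block, its local blocks, the counting functions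

`F = FF M`.  A datum `B : Bk F V₀ G` consists of a block `e` of `G`, an embedding `i` of the elementary
abelian group `V₀` of order `ℓ ^ 2` onto the defect group, a block `g` of its centraliser, the
blocks `b W` of the centralisers `C W` of the subgroups `i(W)` with `e ≤ b W ≤ g`, the degrees `D W` of
their characters and signs `S W` (for `W ≠ ⊥`).
-/

open scoped BigOperators

noncomputable section

namespace Pool.Agent.PP.SO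

open Pool.Agent.Helper51_AWC Pool.Agent.Helper79_WRA Pool.Agent.PP Pool.Agent.PP.KF
open Pool.Agent.PP.K9 Pool.Agent.PP.K9.H97 Pool.Agent.PP.H75 Pool.Agent.PP.T3

attribute [local instance] Ideal.Quotient.field

/-- `V₀` is elementary abelian of order `ℓ ^ 2` and the group `E₀` acts freely on `V₀ - 1`. -/
structure Fr (ℓ : ℕ) (V₀ : Type) [CommGroup V₀] (E₀ : Subgroup (MulAut V₀)) : Prop where
  ex : ∀ v : V₀, v ^ ℓ = 1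
  cd : Nat.card V₀ = ℓ ^ 2
  fr : ∀ σ ∈ E₀, σ ≠ 1 → ∀ v : V₀, σ v = v → v = 1

/-- a block with its local blocks, degrees and signs -/
structure Bk (F V₀ G : Type) [CommGroup V₀] [Group G] where
  /-- the block -/
  e : G → F
  /-- the block of the centraliser of the defect group -/
  g : G → F
  /-- the embedding of the defect group -/
  i : V₀ →* G
  /-- the local blocks -/
  b : Subgroup V₀ → G → F
  /-- the degrees -/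
  D : Subgroup V₀ → ℕ
  /-- the signs -/
  S : Subgroup V₀ → ℤ

section gen

variable {F V₀ G : Type} [CommGroup V₀] [Group G]

/-- the centraliser of `i(W)` -/
def Bk.C (B : Bk F V₀ G) (W : Subgroup V₀) : Subgroup G :=
  Subgroup.centralizer ((W.map B.i : Subgroup G) : Set G)

/-- the numbers `U` -/
def Bk.U (B : Bk F V₀ G) (W : Subgroup V₀) : ℚ :=
  B.S W * Nat.card (B.C W) * B.D ⊤ / (Nat.card (B.C ⊤) * B.D W)

/-- `b` is the block of the centraliser of `i(W)` under `e` and over `g`. -/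
structure Lb [Field F] (e g : G → F) (i : V₀ →* G) (W : Subgroup V₀) (b : G → F) : Prop where
  blk : Bx (Subgroup.centralizer ((W.map i : Subgroup G) : Set G)) b
  und : mulF (fun t : Subgroup.centralizer ((W.map i : Subgroup G) : Set G) => e t)
    (fun t : Subgroup.centralizer ((W.map i : Subgroup G) : Set G) => b t) =
      fun t : Subgroup.centralizer ((W.map i : Subgroup G) : Set G) => b t
  gam : mulF (br i.range b) g = g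

open Classical in
/-- `1` if `c ∈ W`, otherwise `U W` -/
def ux (U : Subgroup V₀ → ℚ) (W : Subgroup V₀) (c : V₀) : ℚ := if c ∈ W then 1 else U W

/-- the linear characters -/
def lin (V₀ : Type) [CommGroup V₀] : Set (V₀ → ℂ) := {f | f 1 = 1 ∧ ∀ v w, f (v * w) = f v * f w}

end gen

section blk

variable {V₀ G : Type} [CommGroup V₀] [Group G] (ℓ : ℕ) (M : Ideal (integralClosure ℤ ℂ))
  [M.IsMaximal]

/-- the basic conditions: `E₀` is the group of the automorphisms of `V₀` induced by the inertial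
group -/
structure Sb (E₀ : Subgroup (MulAut V₀)) (B : Bk (FF M) V₀ G) : Prop where
  inj : Function.Injective B.i
  ld : Ld ℓ B.e B.i.range B.g
  act : ∀ t ∈ Tg B.i.range B.g, ∃ σ ∈ E₀, ∀ v, t * B.i v * t⁻¹ = B.i (σ v)
  sur : ∀ σ ∈ E₀, ∃ t ∈ Tg B.i.range B.g, ∀ v, t * B.i v * t⁻¹ = B.i (σ v)
  lb : ∀ W, Lb B.e B.g B.i W (B.b W)

/-- the conditions for the degrees and the signs -/
structure Sy [Fact ℓ.Prime] (E₀ : Subgroup (MulAut V₀)) (B : Bk (FF M) V₀ G) : Prop extends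
    Sb ℓ M E₀ B where
  dg : ∀ W, W ≠ ⊥ → Dg M (fun t : B.C W => B.b W t) (B.D W)
  sg : ∀ W, W ≠ ⊥ → B.S W = 1 ∨ B.S W = -1
  un : ∀ W, W ≠ ⊥ → ∃ q ∈ SOR.Rl ℓ, B.U W = 1 + ℓ * q

variable {M}

/-- the lift of the idempotent `b W` as a function on `G` -/
def bh (B : Bk (FF M) V₀ G) (W : Subgroup V₀) : G → ℂ :=
  PP.ext0 (B.C W) (eh M (fun t : B.C W => B.b W t))

/-- The sum of the conjugates of `c b^` in the group ring of `C W`, `b` the block of the centraliser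
of `W` and `c`. -/
def fc (B : Bk (FF M) V₀ G) (W : Subgroup V₀) (c : V₀) : G → ℂ := fun g =>
  (Nat.card (B.C (W ⊔ Subgroup.zpowers c)) : ℂ)⁻¹ *
    ∑ᶠ z : B.C W, bh B (W ⊔ Subgroup.zpowers c) ((B.i c)⁻¹ * ((z : G)⁻¹ * g * z))

/-- the irreducible characters of the block `b W`, extended by zero -/
def Ch (B : Bk (FF M) V₀ G) (W : Subgroup V₀) : Set (G → ℂ) :=
  {χ | (∀ g, g ∉ B.C W → χ g = 0) ∧
    (fun t : B.C W => χ t) ∈ IrrE M (fun t : B.C W => B.b W t)}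

/-- the central character of `χ` at `f` -/
def cv (f χ : G → ℂ) : ℂ := (∑ᶠ g, f g * χ g) / χ 1

/-- the linear character of `V₀` which belongs to the character `χ` in `b W`, `W ≠ ⊥` -/
def lam (B : Bk (FF M) V₀ G) (W : Subgroup V₀) (χ : G → ℂ) (x : V₀) : ℂ :=
  cv (fc B W x) χ / (ux B.U W x : ℚ)

/-- `∑ ω_χ(f_c)`, `χ` in the block -/
def L1 (B : Bk (FF M) V₀ G) (c : V₀) : ℂ := ∑ᶠ χ ∈ IrrE M B.e, cv (fc B ⊥ c) χ

/-- `∑ ω_χ(f_c) ω_χ(f_d)`, `χ` in the block -/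
def L2 (B : Bk (FF M) V₀ G) (c d : V₀) : ℂ :=
  ∑ᶠ χ ∈ IrrE M B.e, cv (fc B ⊥ c) χ * cv (fc B ⊥ d) χ

/-- the sum `S(L; χ, χ')` -/
def SL (B : Bk (FF M) V₀ G) (m : ℕ) (L : Set (V₀ × V₀ × ℤ)) (χ χ' : G → ℂ) : ℂ :=
  ∑ᶠ w ∈ {w : G × G | ∀ s ∈ L, w.2 * B.i s.2.1 * w.2⁻¹ = B.i s.1 * (w.1 ^ m) ^ s.2.2},
    χ w.1 * χ' (w.2⁻¹ * w.1⁻¹ * w.2)

end blk

section types

variable {n : ℕ} {V₀ : Type} [CommGroup V₀]

/-- the subgroup generated by the components `p` -/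
def pL (L : Set (SS n V₀)) : Subgroup V₀ := Subgroup.closure {p | ∃ s ∈ L, s.2.2.1 = p}

/-- the subgroup generated by the components `q` -/
def qL (L : Set (SS n V₀)) : Subgroup V₀ := Subgroup.closure {q | ∃ s ∈ L, s.2.2.2 = q}

/-- the subgroup generated by the elements `κ ^ k p` -/
def aL (κ : V₀) (L : Set (SS n V₀)) : Subgroup V₀ :=
  Subgroup.closure {a | ∃ s ∈ L, κ ^ (s.2.1 : ℕ) * s.2.2.1 = a}

variable (E₀ : Subgroup (MulAut V₀))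

/-- the number of the `(σ, σ', X)` for `W13` -/
def N13 (c d : V₀) (L : Set (SS n V₀)) : ℕ :=
  {w : E₀ × E₀ × V₀ | w.1.1 w.2.2 = d * w.2.1.1 (c * w.2.2) ∧ ∀ s ∈ L,
    w.1.1 (s.2.2.1 * (w.2.2 ^ (s.2.1 : ℕ))⁻¹) = s.2.2.2 ∧
    w.2.1.1 (s.2.2.1 * (c * w.2.2) ^ (s.1 : ℕ)) = s.2.2.2}.ncard

/-- the number of the `(τ, X)` for `W12` -/
def N12 (κ : V₀) (L : Set (SS n V₀)) : ℕ :=
  {w : E₀ × V₀ | w.1.1 w.2 = κ * w.2 ∧ ∀ s ∈ L,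
    w.1.1 (κ ^ (s.2.1 : ℕ) * s.2.2.1 * (w.2 ^ (s.1 : ℕ))⁻¹) = κ ^ (s.2.1 : ℕ) * s.2.2.1}.ncard

/-- the value of `W13` -/
def P13 (U : Subgroup V₀ → ℚ) (c d : V₀) (L : Set (SS n V₀)) : ℚ :=
  ux U (pL L) c * ux U (qL L) d * N13 E₀ c d L

/-- the automorphisms `σ ∈ E₀` with `σ q = p` for all elements of `L` -/
def EL (L : Set (SS n V₀)) : Set (MulAut V₀) := {σ | σ ∈ E₀ ∧ ∀ s ∈ L, σ s.2.2.2 = s.2.2.1}

/-- the local part of the value of `W12` -/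
def P12 (U : Subgroup V₀ → ℚ) (c d : V₀) (L : Set (SS n V₀)) : ℚ :=
  ∑ᶠ σ ∈ {σ | σ ∈ EL E₀ L ∧ aL (c * σ d) L ≠ ⊥},
    ux U (pL L) c * ux U (pL L) (σ d) / ux U (pL L) (c * σ d) *
      (ux U (aL (c * σ d) L) (c * σ d) * N12 E₀ (c * σ d) L)

end types

section wsum

variable {V₀ G : Type} [CommGroup V₀] [Group G] {M : Ideal (integralClosure ℤ ℂ)} [M.IsMaximal]
  {n : ℕ}

/-- the weighted number of the triples whose `13`-type contains `L` -/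
def W13 (B : Bk (FF M) V₀ G) (m : ℕ) (c d : V₀) (L : Set (SS n V₀)) : ℂ :=
  ((Nat.card (B.C (pL L ⊔ Subgroup.zpowers c)) : ℂ) *
    Nat.card (B.C (qL L ⊔ Subgroup.zpowers d)))⁻¹ *
    ∑ᶠ w : G × G, bh B (pL L ⊔ Subgroup.zpowers c) w.1 * bh B (qL L ⊔ Subgroup.zpowers d) w.2 *
      {z : XX (B.i c * w.1) (B.i d * w.2) | ∀ s ∈ L,
        c13 m B.i (B.i c * w.1) z.1.1 z.1.2.1 z.1.2.2 s.1 s.2.1 s.2.2.1 s.2.2.2}.ncard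

/-- the weighted number of the triples whose `12`-type contains `L` -/
def W12 (B : Bk (FF M) V₀ G) (m : ℕ) (c d : V₀) (L : Set (SS n V₀)) : ℂ :=
  ((Nat.card (B.C (pL L ⊔ Subgroup.zpowers c)) : ℂ) *
    Nat.card (B.C (qL L ⊔ Subgroup.zpowers d)))⁻¹ *
    ∑ᶠ w : G × G, bh B (pL L ⊔ Subgroup.zpowers c) w.1 * bh B (qL L ⊔ Subgroup.zpowers d) w.2 *
      {z : XX (B.i c * w.1) (B.i d * w.2) | ∀ s ∈ L,
        c12 m B.i z.1.1 z.1.2.1 z.1.2.2 s.1 s.2.1 s.2.2.1 s.2.2.2}.ncard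

/-- The weighted number of the pairs `(x, y)` with commutator in the section of `κ` such that
`κ ^ k p` commutes with `x` and `y⁻¹ (κ ^ k p) y = (κ ^ k p) (x ^ m) ^ i`, for all elements of `L`. -/
def HK (B : Bk (FF M) V₀ G) (m : ℕ) (κ : V₀) (L : Set (SS n V₀)) : ℂ :=
  (Nat.card (B.C (aL κ L ⊔ Subgroup.zpowers κ)) : ℂ)⁻¹ *
    ∑ᶠ t : G, bh B (aL κ L ⊔ Subgroup.zpowers κ) t *
      {w : G × G | kap w.1 w.2 = B.i κ * t ∧ ∀ s ∈ L,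
        B.i (κ ^ (s.2.1 : ℕ) * s.2.2.1) * w.1 = w.1 * B.i (κ ^ (s.2.1 : ℕ) * s.2.2.1) ∧
        w.2⁻¹ * B.i (κ ^ (s.2.1 : ℕ) * s.2.2.1) * w.2 =
          B.i (κ ^ (s.2.1 : ℕ) * s.2.2.1) * (w.1 ^ m) ^ (s.1 : ℕ)}.ncard

/-- the weights of the two kinds of frames: `⊤` (rank two) and `⟨c⟩` -/
def wt (B : Bk (FF M) V₀ G) (c : V₀) (full : Bool) (s : G) : ℂ :=
  if full then (Nat.card (B.C ⊤) : ℂ)⁻¹ * bh B ⊤ s
  else (Nat.card (B.C (Subgroup.zpowers c)) : ℂ)⁻¹ * (bh B (Subgroup.zpowers c) s -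
    (Nat.card (B.C ⊤) : ℂ)⁻¹ * ∑ᶠ z : B.C (Subgroup.zpowers c), bh B ⊤ ((z : G)⁻¹ * s * z))

/-- the frame -/
def frm {V₀ : Type} [CommGroup V₀] (c : V₀) (full : Bool) : Subgroup V₀ :=
  if full then ⊤ else Subgroup.zpowers c

/-- the total sum -/
def TS (B : Bk (FF M) V₀ G) (m : ℕ) (c d : V₀) (F₁₃ F₁₂ : Set (SS n V₀) → ℚ) : ℂ :=
  ∑ f : Bool, ∑ f' : Bool, ∑ᶠ w : G × G, wt B c f w.1 * wt B d f' w.2 *
    ((∑ᶠ z : XX (B.i c * w.1) (B.i d * w.2),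
      (F₁₃ (t13 n m B.i (frm c f) (frm d f') (B.i c * w.1) z.1.1 z.1.2.1 z.1.2.2) +
        F₁₂ (t12 n m B.i (frm c f) (frm d f') z.1.1 z.1.2.1 z.1.2.2)) : ℚ) : ℂ)

/-- the Möbius transform -/
def mob {A : Type} (F : Set A → ℚ) (L : Set A) : ℚ :=
  ∑ᶠ T ∈ {T : Set A | T ⊆ L}, (-1) ^ (L \ T).ncard * F T

end wsum

end Pool.Agent.PP.SO
end
end -- Pool.Agent.ASO.DefsC

section -- Pool.Agent.ASO.Stmts3

/-!
# Squad ASO, statements 3: local blocks, character values, labels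

Complete proofs in the docstrings.  Text: notes 2773, 2790 on MP_6a3f1a_al.  Library: squad AT3
(`Pool/Agent/AT3/Asm.lean`: all statements of AT3 are proved, `T3.Asm.xxx_`), K9, KF.  `V = i(V₀)`.
-/

open scoped BigOperators

noncomputable section

namespace Pool.Agent.PP.SO

open Pool.Agent.Helper51_AWC Pool.Agent.Helper79_WRA Pool.Agent.PP Pool.Agent.PP.KF
open Pool.Agent.PP.K9 Pool.Agent.PP.K9.H97 Pool.Agent.PP.H75 Pool.Agent.PP.T3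

attribute [local instance] Ideal.Quotient.field

/-! ## 1. Local blocks -/

/-- LBU: existence and uniqueness of the block of `C(i W)` under `e` and over `g`.

Proof.  As `LocStmt` (`Helper88_AT3`), with the subgroup `i(W) ≤ V` instead of `u`: `C(V) ≤ C(i W)`;
`1 = ∑ b_j`, the blocks of `C(i W)`; `br_V` is multiplicative on the `V`-invariant elements (`V ≤ C(i W)`
as `V` is abelian), so exactly one `j` has `br_V(b_j) g = g`; `e|C(i W) b_j` is `b_j` or `0`, in the last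
case `g = br_V(e) br_V(b_j) g = 0`.  For `W = ⊤` the block is `g` (`br_V g = g`), for `W = ⊥` it is `e`
(`C(1) = G`). -/
def LbuStmt : Prop := ∀ (ℓ : ℕ) [Fact ℓ.Prime] (F : Type) [Field F], GoodF ℓ F → ∀ (V₀ G : Type)
  [CommGroup V₀] [Finite V₀] [Group G] [Finite G] (e g : G → F) (i : V₀ →* G),
  Function.Injective i → Ld ℓ e i.range g → (∀ W : Subgroup V₀, ∃ b, Lb e g i W b) ∧
  (∀ (W : Subgroup V₀) (b b' : G → F), Lb e g i W b → Lb e g i W b' → b = b') ∧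
  Lb e g i ⊤ g ∧ Lb e g i ⊥ e ∧
  ∀ (v : V₀) (b : G → F), Lb e g i (Subgroup.zpowers v) b ↔ Lc e i.range g (i v) b

/-- LBG: the local block of `W ≠ ⊥` has the defect group `V` and inertial index one.

Proof.  As `LsbStmt` (`Helper85_AT3`): `V` is good for `b W`; a good `ℓ`-subgroup of `b W` (in `C(i W)`) is
good for `e`; centraliser and normaliser of `V` in `C(i W)` are `C(V)` and `N(V) ∩ C(i W)`.  The
inertial group is `T ∩ C(i W)`; an element acts on `V` by some `σ ∈ E₀` which fixes `W ≠ ⊥`, so `σ = 1`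
(`Fr`), so it is in `C(V)`.  (`W` is `⊤` or generated by one element `v`, `|V₀| = ℓ ^ 2`; LSB for
`u = i v` may be used, `C(i W) = Cu (i v)`.) -/
def LbgStmt : Prop := ∀ (ℓ : ℕ) [Fact ℓ.Prime] (M : Ideal (integralClosure ℤ ℂ)) [M.IsMaximal],
  (ℓ : integralClosure ℤ ℂ) ∈ M → ∀ (V₀ G : Type) [CommGroup V₀] [Finite V₀] [Group G] [Finite G]
  (E₀ : Subgroup (MulAut V₀)), Fr ℓ V₀ E₀ → ∀ B : Bk (FF M) V₀ G, Sb ℓ M E₀ B →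
  ∀ W : Subgroup V₀, W ≠ ⊥ →
  Ld ℓ (fun t : B.C W => B.b W t) (B.i.range.subgroupOf (B.C W)) (fun t : B.C W => B.g t) ∧
  ix (B.i.range.subgroupOf (B.C W)) (fun t : B.C W => B.g t) = 1

/-- SYE: existence of the local data.

Proof.  `b W` from LBU.  `W ≠ ⊥`: LBG and `NilStmt` for the group `C(i W)`: all characters of `b W` have
the same degree `D W`.  `NitStmt` (for the group `C(i W)`; the block `g` of the centraliser of `V` in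
`C(i W)` is the transport of `g`, as in LSB): `r = |C W| D ⊤ / (|C ⊤| D W)` is in `RM M` with residue
`ε = ± 1`; `S W = ε`.  Then `U W = ε r` is a rational number in `RM M` with residue `1`, so
`U W - 1 = ℓ q` with `q ∈ Rl ℓ` (a rational number in `RM M` is in `Rl ℓ`: compare `KF.dvd_of_rr`). -/
def SyeStmt : Prop := ∀ (ℓ : ℕ) [Fact ℓ.Prime] (M : Ideal (integralClosure ℤ ℂ)) [M.IsMaximal],
  (ℓ : integralClosure ℤ ℂ) ∈ M → ∀ (V₀ G : Type) [CommGroup V₀] [Finite V₀] [Group G] [Finite G]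
  (E₀ : Subgroup (MulAut V₀)), Fr ℓ V₀ E₀ → ∀ (e g : G → FF M) (i : V₀ →* G),
  Function.Injective i → Ld ℓ e i.range g →
  (∀ t ∈ Tg i.range g, ∃ σ ∈ E₀, ∀ v, t * i v * t⁻¹ = i (σ v)) →
  (∀ σ ∈ E₀, ∃ t ∈ Tg i.range g, ∀ v, t * i v * t⁻¹ = i (σ v)) →
  ∃ B : Bk (FF M) V₀ G, B.e = e ∧ B.g = g ∧ B.i = i ∧ Sy ℓ M E₀ B

/-- DGV: the `ℓ`-parts of the degrees.

Proof.  `W = ⊤`: in the proof of CEN (`Helper86_AT3/CEN.lean`) `D ⊤ = κ₀(1)` for the only character `κ₀` of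
the block `push p g` of `C(V)/V`, which vanishes at the singular elements, so
`|C(V)/V| / κ₀(1)` is prime to `ℓ`: the lift `eh` of this block is in the local ring and its value at `1`
is `κ₀(1)² / |C(V)/V|`, so `κ₀(1)²/|C(V)/V| ∈ RM M`; and `|C(V)/V|/κ₀(1)` is an integer (degree divides
order); so both have the `ℓ`-part `1`: `ν(κ₀(1)) ≤ ν(|C/V|) ≤ 2 ν(κ₀(1))`... use the standard fact
(`DzoStmt`, `dz`): a character vanishing at the singular elements has degree divisible by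
`|H|_ℓ` (`κ₀` restricted to a Sylow subgroup `P` is a multiple of the regular character:
`κ₀(1)/|P|` is an integer).  `W ≠ ⊥` arbitrary: `U W = ± |C W| D ⊤/(|C ⊤| D W)` is a unit of `Rl ℓ`. -/
def DgvStmt : Prop := ∀ (ℓ : ℕ) [Fact ℓ.Prime] (M : Ideal (integralClosure ℤ ℂ)) [M.IsMaximal],
  (ℓ : integralClosure ℤ ℂ) ∈ M → ∀ (V₀ G : Type) [CommGroup V₀] [Finite V₀] [Group G] [Finite G]
  (E₀ : Subgroup (MulAut V₀)), Fr ℓ V₀ E₀ → ∀ B : Bk (FF M) V₀ G, Sy ℓ M E₀ B →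
  ∀ W : Subgroup V₀, W ≠ ⊥ → ((ℓ ^ 2 * B.D W / Nat.card (B.C W) : ℂ)) ∈ RM M ∧
    ((Nat.card (B.C W) / (ℓ ^ 2 * B.D W) : ℂ)) ∈ RM M

/-- CJT: conjugation with the inertial group.

Proof.  `t ∈ T` normalises `V`, `t g t⁻¹ = g` (`stabF`), `e` is a class function, `t i(W) t⁻¹ = i(σ W)`; so
`cj t (b W)` is a block of `C(i(σ W))` under `e` and over `g`, it is `b (σ W)` (LBU).  The characters of the
two blocks correspond, so `D (σ W) = D W` (`W ≠ ⊥`), `|C(σ W)| = |C W|`, `U (σ W) = ± U W`, and both are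
`≡ 1` modulo `ℓ`, `ℓ ≠ 2`, so `S (σ W) = S W`.  `bh` and `fc` are transported. -/
def CjtStmt : Prop := ∀ (ℓ : ℕ) [Fact ℓ.Prime] (M : Ideal (integralClosure ℤ ℂ)) [M.IsMaximal],
  (ℓ : integralClosure ℤ ℂ) ∈ M → ℓ ≠ 2 → ∀ (V₀ G : Type) [CommGroup V₀] [Finite V₀] [Group G]
  [Finite G] (E₀ : Subgroup (MulAut V₀)), Fr ℓ V₀ E₀ → ∀ B : Bk (FF M) V₀ G, Sy ℓ M E₀ B →
  ∀ σ ∈ E₀, ∀ t ∈ Tg B.i.range B.g, (∀ v, t * B.i v * t⁻¹ = B.i (σ v)) → ∀ W : Subgroup V₀,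
  cj t (B.b W) = B.b (W.map σ.toMonoidHom) ∧
  (∀ x, t * x * t⁻¹ ∈ B.C (W.map σ.toMonoidHom) ↔ x ∈ B.C W) ∧
  Nat.card (B.C (W.map σ.toMonoidHom)) = Nat.card (B.C W) ∧
  (∀ x, bh B (W.map σ.toMonoidHom) (t * x * t⁻¹) = bh B W x) ∧
  (∀ c x, fc B (W.map σ.toMonoidHom) (σ c) (t * x * t⁻¹) = fc B W c x) ∧
  (W ≠ ⊥ → B.D (W.map σ.toMonoidHom) = B.D W ∧ B.S (W.map σ.toMonoidHom) = B.S W ∧
    B.U (W.map σ.toMonoidHom) = B.U W)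

/-- FUW: fusion of the subpairs `(W', b W')`.

Proof.  As `FusStmt` (`Helper79_AT3`), for subgroups: `w V w⁻¹` is good for `cj w (b W') = b W`, in the group
`C(i W)`, of the order of `V`, so by `FmgStmt` for `C(i W)`, `b W` (LBG; for `W = ⊥` use `e`) there is
`c ∈ C(i W)` with `c w V w⁻¹ c⁻¹ = V`.  `n = c w ∈ N(V)`, `n i(v) n⁻¹ = i(f v)` for `v ∈ W'`, and `cj n g` is a
block of `C(V)` under `b W`; by `OrbStmt` there is `m ∈ N(V) ∩ C(i W)` with `cj n g = cj m g`.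
`t = m⁻¹ n ∈ T`, `t i(v) t⁻¹ = i(f v)` for `v ∈ W'`.  `t` acts on `V` by `σ ∈ E₀`, `f v = σ v` on `W'`, and
`t⁻¹ w` centralises `i(W')`. -/
def FuwStmt : Prop := ∀ (ℓ : ℕ) [Fact ℓ.Prime] (M : Ideal (integralClosure ℤ ℂ)) [M.IsMaximal],
  (ℓ : integralClosure ℤ ℂ) ∈ M → ∀ (V₀ G : Type) [CommGroup V₀] [Finite V₀] [Group G] [Finite G]
  (E₀ : Subgroup (MulAut V₀)), Fr ℓ V₀ E₀ → ∀ B : Bk (FF M) V₀ G, Sb ℓ M E₀ B →
  ∀ (W W' : Subgroup V₀) (w : G) (f : V₀ → V₀), (∀ v ∈ W', w * B.i v * w⁻¹ = B.i (f v)) →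
  (∀ v ∈ W', f v ∈ W) → (∀ v ∈ W, ∃ v' ∈ W', f v' = v) → cj w (B.b W') = B.b W →
  ∃ σ ∈ E₀, (∀ v ∈ W', f v = σ v) ∧ ∃ t ∈ Tg B.i.range B.g,
    (∀ v, t * B.i v * t⁻¹ = B.i (σ v)) ∧ t⁻¹ * w ∈ B.C W'

/-! ## 2. Character values in the local blocks -/

/-- ISO: an integral function on a cyclic group of order `ℓ` with `|m^(j)| = 1` for `j ≠ 0`.

Proof.  Parseval: `ℓ ∑ m_j² - (∑ m_j)² = ℓ - 1`, the left side is the sum of `(m_i - m_j)²` over the pairs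
`i < j`.  `m` is not constant; if some value is taken `k` times, `0 < k < ℓ`, there are at least
`k (ℓ - k) ≥ ℓ - 1` unequal pairs, so exactly `ℓ - 1`, all differences are `± 1` and `k = 1` or `ℓ - 1`:
all values but one are equal (for `ℓ = 2` also clear).  Then `m^(j) = ε ζ^(j₀ j)` for `ℓ ∤ j`. -/
def IsoStmt : Prop := ∀ (ℓ : ℕ) [Fact ℓ.Prime] (ζ : ℂ), IsPrimitiveRoot ζ ℓ → ∀ m : Fin ℓ → ℤ,
  (∀ j : ℕ, ¬ ℓ ∣ j → Complex.normSq (∑ k : Fin ℓ, (m k : ℂ) * ζ ^ ((k : ℕ) * j)) = 1) →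
  ∃ (j₀ : Fin ℓ) (ε m₀ : ℤ), (ε = 1 ∨ ε = -1) ∧ ∀ k, m k = m₀ + if k = j₀ then ε else 0

/-- NSV: the values of the central characters in the local blocks; bijection with the linear
characters of `V₀`; inversion; the multiplicities of the characters of `g`.

Proof.  `H = C(i W)`, `ψ ∈ Irr H`, `C = C(V) ≤ H`.  The restriction of `ψ` to `C` is `∑ m_κ κ`, `κ ∈ Irr C`,
`m_κ ≥ 0` integers.  The characters of `g` are `κ_μ`, `μ ∈ lin V₀` (`|V|` of them, CEN; `κ_μ(i(x) s) =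
μ(x) κ_μ(s)`, different `μ` by orthogonality `∑_κ κ(x) conj κ(y) = 0` for `x ≠ y ∈ V`, `PrgStmt`), of degree
`D ⊤`; let `m_μ` be the multiplicities.  For `x ∉ W`: `C_H(i x) = C` (`W ⊔ ⟨x⟩ = ⊤`), and
`cv (fc B W x) ψ = (|H|/|C|) ψ(i(x) g^)/ψ(1) = (|H| D ⊤/(|C| ψ(1))) V_x(ψ)`, `V_x(ψ) = ∑_μ m_μ μ(x)`; for
`x ∈ W`: `fc B W x = i(x) b^` and `cv = ψ(i x)/ψ(1)` for `ψ` in `b W`, `0` otherwise.
(5) If `m_μ ≠ 0` then `μ = ν` on `W`, `ν` the central character of `ψ` on `i(W)`.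
(1) `ψ` in `b W`.  If `V ≤ Z(H)` then `H = C`, `b W = g` and everything is clear (`S W = 1` by `un`).
Otherwise `x ∉ Z(H)` for `x ∉ W` and `|V_x(ψ)| = 1` (`NilStmt` for `H`, `b W`; `Lc` for `x` is `g`).
`W` has order `ℓ` (or `W = ⊤`, clear).  Let `τ` be a linear character `≠ 1` of `V₀` trivial on `W`,
`μ₀ = ν` on `W`; `m_(μ₀ τ^j) = m_j`; ISO gives `m_j = m₀ + ε δ_(j j₀)`, so with `μ_ψ = μ₀ τ^(j₀)`:
`V_x(ψ) = ε μ_ψ(x)` for `x ∉ W`, and `∑_μ m_μ = ℓ m₀ + ε`.  Sign: `(|H| D ⊤/(|C| D W)) V_x(ψ)` has residue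
`1` (`RsvStmt` in `H`, index one, `OmgStmt`), `μ_ψ(x)` has residue `1`, and `S W |H| D ⊤/(|C| D W)` has
residue `1`, so `ε = S W` (`ℓ ≠ 2`).  So `cv (fc B W x) ψ = U W μ_ψ(x)` (`x ∉ W`), `μ_ψ(x)` (`x ∈ W`), that
is `lam B W ψ = μ_ψ`.
(2) For `x, y ∈ V₀`: `∑_ψ V_x(ψ) conj V_y(ψ) = 0` for `x ≠ y`, `|V|` for `x = y` (`V_x(ψ) = ψ(i x)/D W` for
`x ∈ W`; `Co1Stmt`, `Co2Stmt`, `PrgStmt`, as in `NibStmt`; CO2 applies: `i x`, `i y` are not conjugate with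
their blocks in `H`, by `FusStmt` and index one); `|V|` characters.  So `ψ ↦ μ_ψ` is injective, and both
sets have `|V|` elements.
(3) `ψ ∉ b W`: `V_x(ψ) = 0` for `x ∉ W` (`SmgStmt` in `H`), so `m_μ` is constant on the coset
`{μ = ν on W}` (a function on a cyclic group of order `ℓ` whose transform vanishes outside of `0`),
`∑ m_μ = ℓ m₀`; if `W = ⊤` then `ψ(g^) = 0`.  So `cv (fc B W x) ψ = 0` for all `x`, i.e.
`fc B W x = fc B W x · bh B W`.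
(4) Inversion: the central idempotent of `ψ` (in `b W`), `(D W/|H|) ψ(h⁻¹)`, is `∑_x a_x fc B W x (h)` with
`a_x = conj μ_ψ(x)/(ℓ² ux(x))`: compare all central characters (orthogonality of the linear
characters). -/
def NsvStmt : Prop := ∀ (ℓ : ℕ) [Fact ℓ.Prime] (M : Ideal (integralClosure ℤ ℂ)) [M.IsMaximal],
  (ℓ : integralClosure ℤ ℂ) ∈ M → ℓ ≠ 2 → ∀ (V₀ G : Type) [CommGroup V₀] [Finite V₀] [Group G]
  [Finite G] (E₀ : Subgroup (MulAut V₀)), Fr ℓ V₀ E₀ → ∀ B : Bk (FF M) V₀ G, Sy ℓ M E₀ B →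
  ∀ W : Subgroup V₀, W ≠ ⊥ →
  Set.BijOn (lam B W) (Ch B W) (lin V₀) ∧
  (∀ χ ∈ Ch B W, ∀ x, cv (fc B W x) χ = (ux B.U W x : ℚ) * lam B W χ x) ∧
  (∀ χ : G → ℂ, (∀ x, x ∉ B.C W → χ x = 0) → (fun t : B.C W => χ t) ∈ Irr (B.C W) →
    χ ∉ Ch B W → ∀ x, cv (fc B W x) χ = 0) ∧
  (∀ χ ∈ Ch B W, ∀ h ∈ B.C W, χ h = (Nat.card (B.C W) : ℂ) / (ℓ ^ 2 * B.D W) *
    ∑ᶠ x : V₀, starRingEnd ℂ (lam B W χ x) / (ux B.U W x : ℚ) * fc B W x h⁻¹) ∧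
  (∀ χ ∈ Ch B W, ∃ m₀ : ℤ, ∑ᶠ s, bh B ⊤ s * χ s = B.D ⊤ * (ℓ * m₀ + B.S W) ∨
    (B.C W = B.C ⊤ ∧ ∑ᶠ s, bh B ⊤ s * χ s = B.D ⊤)) ∧
  (∀ χ : G → ℂ, (∀ x, x ∉ B.C W → χ x = 0) → (fun t : B.C W => χ t) ∈ Irr (B.C W) →
    χ ∉ Ch B W → ∃ m₀ : ℤ, ∑ᶠ s, bh B ⊤ s * χ s = B.D ⊤ * (ℓ * m₀)) ∧
  bh B W 1 = ℓ ^ 2 * B.D W ^ 2 / Nat.card (B.C W)

/-- MUL: products of the elements `f_c`.

Proof.  Both sides are in the centre of the group ring of `C W` times `b^` (NSV (3)); at the characters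
of `b W` both have the central character `ux(c) ux(d) lam(c d)` (NSV (1), (2): `lam` is
multiplicative). -/
def MulStmt : Prop := ∀ (ℓ : ℕ) [Fact ℓ.Prime] (M : Ideal (integralClosure ℤ ℂ)) [M.IsMaximal],
  (ℓ : integralClosure ℤ ℂ) ∈ M → ℓ ≠ 2 → ∀ (V₀ G : Type) [CommGroup V₀] [Finite V₀] [Group G]
  [Finite G] (E₀ : Subgroup (MulAut V₀)), Fr ℓ V₀ E₀ → ∀ B : Bk (FF M) V₀ G, Sy ℓ M E₀ B →
  ∀ W : Subgroup V₀, W ≠ ⊥ → ∀ (c d : V₀) (x : G), mulF (fc B W c) (fc B W d) x =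
    ((ux B.U W c * ux B.U W d / ux B.U W (c * d) : ℚ) : ℂ) * fc B W (c * d) x

/-! ## 3. Labels -/

/-- PRJ: functions in the span of the projective characters.

Proof.  `f = ∑_χ (f, χ) χ`, `(f, χ) = |H|⁻¹ ∑ f(h) χ(h⁻¹) ∈ RM M`.  If `s` is not regular the claim is
`0 ∈ RM M`.  Let `s` be regular, `P` a Sylow `ℓ`-subgroup of `C(s)`.  `∑_(x ∈ P) f(s x) = f(s)` (`s x` is
singular for `x ≠ 1`), and `|P|⁻¹ ∑_(x ∈ P) χ(s x)` is the trace of `s` on the fixed points of `P` in a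
representation with character `χ`, an algebraic integer.  So `f(s)/|P| ∈ RM M`, and `|C(s)|/|P|` is prime
to `ℓ`. -/
def PrjStmt : Prop := ∀ (ℓ : ℕ) [Fact ℓ.Prime] (M : Ideal (integralClosure ℤ ℂ)) [M.IsMaximal],
  (ℓ : integralClosure ℤ ℂ) ∈ M → ∀ (H : Type) [Group H] [Finite H] (f : H → ℂ),
  (∀ x y, f (y * x * y⁻¹) = f x) → (∀ x, ¬ Reg ℓ x → f x = 0) →
  (∀ χ ∈ Irr H, (Nat.card H : ℂ)⁻¹ * ∑ᶠ h, f h * χ h⁻¹ ∈ RM M) →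
  ∀ s, f s / Nat.card (Cu s) ∈ RM M

/-- CNG: integrality of the weights of the frames.

Proof.  (a) `full = true`: PRJ for `H = C ⊤`, `f = ℓ² bh B ⊤` (zero at the singular elements, `eh_sing`;
`(f, χ) = ℓ² D ⊤/|C ⊤|` for `conj χ` in `g`, `0` otherwise; DGV).
(b) `full = false`: `H = C ⟨c⟩`, `f = ℓ h`, `h(s) = bh ⟨c⟩ s - |C ⊤|⁻¹ ∑_(z ∈ H) bh ⊤ (z⁻¹ s z)`, a class
function of `H` which vanishes at the singular elements.  For `ψ ∈ Irr H` (`ψ` the conjugate of `χ`):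
`|H|⁻¹ ∑ f(s) ψ(s) = (ℓ/|H|) (∑ bh ⟨c⟩ s ψ(s) - (|H|/|C ⊤|) ∑ bh ⊤ s ψ(s))`.  If `ψ ∈ b ⟨c⟩` the first
sum is `D W` and the second `D ⊤ (ℓ m₀ + S W)` (NSV; `W = ⟨c⟩`), so the value is
`(ℓ D W/|H|) (1 - U W (1 + ℓ S W m₀))`, and `U W ≡ 1` modulo `ℓ`, `ℓ² D W/|H| ∈ RM M` (DGV).  (If
`C W = C ⊤` and the second sum is `D ⊤`, then `b W = g`, the value is `0`.)  If `ψ ∉ b ⟨c⟩` the
first sum is `0`, the second `D ⊤ ℓ m₀`, the value is `- m₀ ℓ² D ⊤/|C ⊤| ∈ RM M`. -/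
def CngStmt : Prop := ∀ (ℓ : ℕ) [Fact ℓ.Prime] (M : Ideal (integralClosure ℤ ℂ)) [M.IsMaximal],
  (ℓ : integralClosure ℤ ℂ) ∈ M → ℓ ≠ 2 → ∀ (V₀ G : Type) [CommGroup V₀] [Finite V₀] [Group G]
  [Finite G] (E₀ : Subgroup (MulAut V₀)), Fr ℓ V₀ E₀ → ∀ B : Bk (FF M) V₀ G, Sy ℓ M E₀ B →
  ∀ c : V₀, c ≠ 1 → ∀ (f : Bool) (s : G), s ∈ B.C (frm c f) →
    (Nat.card (frm c f) : ℂ) * (Nat.card (B.C (frm c f)) * wt B c f s) /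
      Nat.card (B.C (frm c f) ⊓ Cu s : Subgroup G) ∈ RM M

/-- LAC: integrality of the total sum.

Proof.  For given kinds `f`, `f'` let `P = frm c f`, `Q = frm d f'`, and `Y(s, t)` the sum of
`F₁₃ + F₁₂` over `XX (i c s) (i d t)`.  `wt B c f s = 0` unless `s ∈ C P` is regular (`ext0`, `eh_sing`).
For such `s`, `t`: `Y(s, t) ∈ |P| |Q| Rl ℓ` (`Rel`; `c ∈ P`, `d ∈ Q`).  `Y(z s z⁻¹, t) = Y(s, t)` for `z ∈ C P`
(substitute `(x, y, u) ↦ (z x z⁻¹, z y z⁻¹, z u)`; the types do not change, because `z` commutes with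
`i(P)`), and `Y(s, z t z⁻¹) = Y(s, t)` for `z ∈ C Q` (`u ↦ u z⁻¹`).  `wt` is a class function of `C P` in `s`.
So the sum over `s`, `t` is the sum over pairs of classes of `C P`, `C Q` of
`[|C P| wt s/|C P ∩ C(s)|] [|C Q| wt t/|C Q ∩ C(t)|] Y(s, t)`, in `RM M` by CNG (`|P| [..]`, `|Q| [..]` are in
`RM M`). -/
def LacStmt : Prop := ∀ (ℓ : ℕ) [Fact ℓ.Prime] (M : Ideal (integralClosure ℤ ℂ)) [M.IsMaximal],
  (ℓ : integralClosure ℤ ℂ) ∈ M → ℓ ≠ 2 → ∀ (V₀ G : Type) [CommGroup V₀] [Finite V₀] [Group G]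
  [Finite G] (E₀ : Subgroup (MulAut V₀)), Fr ℓ V₀ E₀ → ∀ B : Bk (FF M) V₀ G, Sy ℓ M E₀ B →
  ∀ (n m : ℕ) (c d : V₀), c ≠ 1 → d ≠ 1 → ∀ F₁₃ F₁₂ : Set (SS n V₀) → ℚ,
  Rel ℓ n m B.i c d F₁₃ F₁₂ → TS B m c d F₁₃ F₁₂ ∈ RM M

/-- MBI: Möbius inversion on the subsets of a finite set.

Proof.  `∑_(L ⊆ τ) mob F L = ∑_(T ⊆ τ) F(T) ∑_(T ⊆ L ⊆ τ) (-1)^|L - T| = F(τ)`.  If `F = 0` on all subsets of
`L` then `mob F L = 0`. -/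
def MbiStmt : Prop := ∀ (A : Type) [Finite A] (F : Set A → ℚ),
  (∀ τ, ∑ᶠ L ∈ {L : Set A | L ⊆ τ}, mob F L = F τ) ∧
  (∀ L, (∀ T ⊆ L, F T = 0) → mob F L = 0) ∧
  (∀ (L : Set A) (q : ℚ), L.Nonempty → mob (fun T => F T - q) L = mob F L) ∧
  mob F ∅ = F ∅

/-- LBS: the total sum in terms of the weighted numbers.

Proof.  MBI: `F₁₃(τ) = ∑_(L ⊆ τ) mob F₁₃ L`; so `TS` is the sum over `L` of `mob F₁₃ L` times
`∑_(f, f') ∑_(s, t) wt(s) wt(t) #{z : L ⊆ t13(z)}`, and in the same way for `F₁₂`.  `L ⊆ t13(z)` means: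
`pL L ≤ P`, `qL L ≤ Q` and `c13` for all elements of `L` (`P = frm c f`, `Q = frm d f'` subgroups).  For
given `L` and `t` let `Y(s)` be the number of the `z ∈ XX (i c s) (i d t)` with all `c13`.
`∑_f ∑_s wt B c f s [pL L ≤ frm c f] Y(s)` is: if `pL L ≤ ⟨c⟩`, `Y(z s z⁻¹) = Y(s)` for `z ∈ C ⟨c⟩` (see LAC), so
`∑_s |C ⟨c⟩|⁻¹ |C ⊤|⁻¹ ∑_z bh ⊤ (z⁻¹ s z) Y(s) = |C ⊤|⁻¹ ∑_s bh ⊤ s Y(s)`, which cancels with the term
`f = true`, and the total is `|C ⟨c⟩|⁻¹ ∑_s bh ⟨c⟩ s Y(s)`, `pL L ⊔ ⟨c⟩ = ⟨c⟩`.  If `pL L` is not contained in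
`⟨c⟩` only `f = true` remains, and `pL L ⊔ ⟨c⟩ = ⊤` (`|V₀| = ℓ ^ 2`, `c ≠ 1`).  The same for `t`. -/
def LbsStmt : Prop := ∀ (ℓ : ℕ) [Fact ℓ.Prime] (M : Ideal (integralClosure ℤ ℂ)) [M.IsMaximal],
  (ℓ : integralClosure ℤ ℂ) ∈ M → ∀ (V₀ G : Type) [CommGroup V₀] [Finite V₀] [Group G]
  [Finite G] (E₀ : Subgroup (MulAut V₀)), Fr ℓ V₀ E₀ → ∀ B : Bk (FF M) V₀ G, Sb ℓ M E₀ B →
  ∀ (n m : ℕ) (c d : V₀), c ≠ 1 → d ≠ 1 → ∀ F₁₃ F₁₂ : Set (SS n V₀) → ℚ,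
  TS B m c d F₁₃ F₁₂ = ∑ᶠ L : Set (SS n V₀), ((mob F₁₃ L : ℚ) * W13 B m c d L +
    (mob F₁₂ L : ℚ) * W12 B m c d L)

end Pool.Agent.PP.SO
end
end -- Pool.Agent.ASO.Stmts3

section -- Pool.Agent.Helper66_SOR.StmtX

/-!
# The relation for the triples in all finite groups, from `UniStmt` and `BrxStmt`
-/

open scoped BigOperators

noncomputable section

namespace Pool.Agent.PP.SO

open Pool.Agent.Helper51_AWC Pool.Agent.Helper79_WRA Pool.Agent.PP Pool.Agent.PP.KF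
open Pool.Agent.PP.K9 Pool.Agent.PP.K9.H97 Pool.Agent.PP.H75 Pool.Agent.PP.T3

section types

variable {V₀ : Type} [CommGroup V₀]

/-- the type `τ` is free: no element `≠ 1` of `P × Q` fixes the point -/
def Fre {n : ℕ} (τ : Set (SS n V₀)) : Prop :=
  ∀ s ∈ τ, (s.1 : ℕ) = 0 → (s.2.1 : ℕ) = 0 → s.2.2.1 = 1 ∧ s.2.2.2 = 1

/-- `x` is a lift of `ρ` to the integers, `0` where `ρ` is `0` -/
def Lf {ℓ : ℕ} (ρ : V₀ → ZMod ℓ) (x : V₀ → ℤ) : Prop :=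
  ∀ v, (x v : ZMod ℓ) = ρ v ∧ (ρ v = 0 → x v = 0)

/-- The properties of the functions `F₁₃` of the `(a, a₃)`-types, `F₁₂` of the `(a, T)`-types, `K` of
the `T`-types.  `x₁`, `x₂` are lifts of `ρ₁`, `ρ₂`. -/
structure FX (ℓ n : ℕ) (ρ₁ ρ₂ : V₀ → ZMod ℓ) (x₁ x₂ : V₀ → ℤ) (c d : V₀)
    (F₁₃ F₁₂ : Set (SS n V₀) → ℚ) (K : Set (Fin n × V₀ × V₀) → ℚ) : Prop where
  nf : ∀ τ, ¬ Fre τ → F₁₃ τ = 0 ∧ F₁₂ τ = 0
  z13 : ∀ τ, (∀ s ∈ τ, ρ₁ s.2.2.1 = 0) ∨ (∀ s ∈ τ, ρ₂ s.2.2.2 = 0) → F₁₃ τ = 0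
  z12 : ∀ τ, Fre τ → (∀ s ∈ τ, ρ₁ s.2.2.1 = 0 ∧ ρ₂ s.2.2.2 = 0) →
    F₁₂ τ = (x₁ c⁻¹ * x₂ d⁻¹ : ℤ) / (ℓ : ℚ) ^ 2
  prod : ∀ τ, Fre τ → (∀ s ∈ τ, ∃ s' ∈ τ, (s'.1 : ℕ) = 0 ∧ s'.2 = s.2) →
    (∀ s ∈ τ, (s.2.1 : ℕ) = 0 → ρ₁ s.2.2.1 = 0 ∧ ρ₂ s.2.2.2 = 0) →
    F₁₂ τ = (x₁ c⁻¹ * x₂ d⁻¹ : ℤ) / (ℓ : ℚ) ^ 2 - K {u | ∃ s ∈ τ, s.2 = u}
  K0 : ∀ U, (∀ u ∈ U, ρ₁ u.2.1 = 0) ∨ (∀ u ∈ U, ρ₂ u.2.2 = 0) → K U = 0
  K1 : ∀ (U : Set (Fin n × V₀ × V₀)) (κ₁ κ₂ : V₀), (∃ u ∈ U, (u.1 : ℕ) = 1) →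
    (∀ u ∈ U, (u.1 : ℕ) = 1 → u.2 = (κ₁, κ₂)) → K U = (x₁ κ₁ * x₂ κ₂ : ℤ) / (ℓ : ℚ) ^ 2

end types

/-- RTY: the relation for the triples in all finite groups, with universal functions of the types.

Proof.  `UniStmt` with `e = r`, `n = ℓ ^ r`, the group `V₀ × V₀`, `r₁(p, q) = x₁(p)/ℓ`,
`r₂(p, q) = x₂(q)/ℓ`, `p₀ = (c⁻¹, d⁻¹)`, gives `Φ`, `Ψ`, `K'`.  A type `τ ⊆ SS n V₀` is carried to the set
`τ' ⊆ L2 n (V₀ × V₀)` by the bijection `Fin n ≃ ZMod n`; `τ'_T = {(k, p, q) : (0, k, p, q) ∈ τ}`.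
`F₁₃ τ = - 12 Φ(τ')`, `F₁₂ τ = x₁(c⁻¹) x₂(d⁻¹)/ℓ² - K'(τ'_T) - 12 Ψ(τ')` if `τ` is free, `0` otherwise;
`K U = K'(U')`.  `nf` is clear, `z13`, `z12`, `K0`, `K1` are the properties of `Φ`, `Ψ`, `K'`
(`x_i(v)/ℓ ∈ Rl ℓ` iff `ρ_i(v) = 0`).  `prod`: `Ψ(τ') = 0` and `τ'_T = {u : (k, u) ∈ τ for some k}`.
For `G`: `X` = the triples `(x, y, u)` with `x y x⁻¹ y⁻¹ = g₁ u g₂ u⁻¹`, `g₁ = ι(c) s`, `g₂ = ι(d) t`, `D` of
BRX, `Q` = the subgroup `P × Q` of `V₀ × V₀`, `q₀ = (c⁻¹, d⁻¹)`, `(p, q)` acts as `(x, y, u) ↦ (p x p⁻¹,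
p y p⁻¹, p u q⁻¹)` (BRX for `V₁ = ι(P)`, `V₂ = ι(Q)`, they commute with `g₁`, `g₂`: `V₀` is commutative and
`P`, `Q` commute with `s`, `t`), `σ : (x, y, u) ↦ (s⁻¹ x s, s⁻¹ y s, s⁻¹ u t)`, its order divides
`orderOf s * orderOf t` and is prime to `ℓ`; `T*` acts as `q₀ σ`.  `Γ` = the subgroup of `Equiv.Perm X`
of the elements which commute with `P × Q` and `σ` (it contains `a`, `b`, `A`, `B`, `T*`), or the
centraliser.  `M` = a number with `M ≡ 1` modulo `n`, `x ^ M = x ^ m` for all `x ∈ G`: `M = m + n' k`...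
(`x = x_ℓ x_r`, `x ^ m = x_ℓ`; let `f` be the part of the order of `G` which is prime to `ℓ`, `M ≡ 1` modulo
`n`, `M ≡ 0` modulo `f`, then `x ^ M = x_ℓ` because `x_ℓ ^ n = 1`).  `(a ^ M) ^ n = 1`, because
`x ^ (M n) = 1`; the same for `a₃` and `T` (`κ ^ (M n) = 1`).  By the formulas of BRX for the powers
`ty2 n i q (a ^ M) (a₃ ^ M) z` is the image of `t13 ...` and `ty2 n i q (a ^ M) (T ^ M) z` the image of
`t12 ...` (for an integer `k` let `i` be its rest modulo `n`: `(a ^ M) ^ k = (a ^ M) ^ i`), `ty1` is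
`τ'_T`; `z ∈ Gd q` iff the types are free.  The relation of UNI is the assertion. -/
def RtyStmt : Prop := ∀ (ℓ : ℕ) [Fact ℓ.Prime] (V₀ : Type) [CommGroup V₀] [Finite V₀],
  (∀ v : V₀, v ^ ℓ = 1) → ∀ (n : ℕ) (ρ₁ ρ₂ : V₀ → ZMod ℓ), (∃ r, 0 < r ∧ n = ℓ ^ r) → Hm ρ₁ →
  Hm ρ₂ → ∀ (x₁ x₂ : V₀ → ℤ), Lf ρ₁ x₁ → Lf ρ₂ x₂ → ∀ (c d : V₀),
  ∃ (F₁₃ F₁₂ : Set (SS n V₀) → ℚ) (K : Set (Fin n × V₀ × V₀) → ℚ),
    FX ℓ n ρ₁ ρ₂ x₁ x₂ c d F₁₃ F₁₂ K ∧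
    ∀ (G : Type) [Group G] [Finite G] (m : ℕ) (ι : V₀ →* G), Function.Injective ι →
      PE ℓ n m G → Rel ℓ n m ι c d F₁₃ F₁₂

end Pool.Agent.PP.SO
end
end -- Pool.Agent.Helper66_SOR.StmtX

section -- Pool.Agent.Helper70_ASO.RTX

/-! MP_6a3f1a_al, squad ASO, row RTX (helper70): a corollary of RTY. -/

open scoped BigOperators

noncomputable section

namespace Pool.Agent.PP.SO.H70

open Pool.Agent.Helper51_AWC Pool.Agent.Helper79_WRA Pool.Agent.PP Pool.Agent.PP.KF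
open Pool.Agent.PP.K9 Pool.Agent.PP.K9.H97 Pool.Agent.PP.H75 Pool.Agent.PP.T3
open Pool.Agent.PP.SO

theorem hm_one {V₀ : Type} [CommGroup V₀] {ℓ : ℕ} {ρ : V₀ → ZMod ℓ} (h : Hm ρ) : ρ 1 = 0 := by
  have h1 := h 1 1
  rw [mul_one] at h1
  have h2 : ρ 1 + 0 = ρ 1 + ρ 1 := by rw [add_zero]; exact h1
  exact (add_left_cancel h2).symm

theorem hm_inv {V₀ : Type} [CommGroup V₀] {ℓ : ℕ} {ρ : V₀ → ZMod ℓ} (h : Hm ρ) (v : V₀) :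
    ρ v⁻¹ = -ρ v := by
  have h1 := h v⁻¹ v
  rw [inv_mul_cancel, hm_one h] at h1
  exact eq_neg_of_add_eq_zero_left h1.symm

open Classical in
/-- the lift with a given value at `c⁻¹` -/
def lft {V₀ : Type} [CommGroup V₀] {ℓ : ℕ} (ρ : V₀ → ZMod ℓ) (c : V₀) (r : ℤ) (v : V₀) : ℤ :=
  if v = c⁻¹ then r else ((ρ v).val : ℤ)

theorem lft_lf {V₀ : Type} [CommGroup V₀] {ℓ : ℕ} [Fact ℓ.Prime] {ρ : V₀ → ZMod ℓ} (h : Hm ρ)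
    (c : V₀) (r : ℤ) (h1 : (r : ZMod ℓ) = -ρ c) (h2 : ρ c = 0 → r = 0) : Lf ρ (lft ρ c r) := by
  intro v
  unfold lft
  by_cases hv : v = c⁻¹
  · rw [if_pos hv, hv, hm_inv h]
    exact ⟨h1, fun h3 => h2 (neg_eq_zero.1 h3)⟩
  · rw [if_neg hv]
    constructor
    · rw [Int.cast_natCast, ZMod.natCast_zmod_val]
    · intro h3
      rw [h3, ZMod.val_zero, Nat.cast_zero]

theorem rtx (hR : RtyStmt) : RtxStmt := by
  intro ℓ _ V₀ _ _ hexp n ρ₁ ρ₂ hn hρ₁ hρ₂ c d r₁ r₂ hr₁ hr₂ hr₁' hr₂'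
  obtain ⟨F₁₃, F₁₂, K, hFX, hrel⟩ := hR ℓ V₀ hexp n ρ₁ ρ₂ hn hρ₁ hρ₂ (lft ρ₁ c r₁) (lft ρ₂ d r₂)
    (lft_lf hρ₁ c r₁ hr₁ hr₁') (lft_lf hρ₂ d r₂ hr₂ hr₂') c d
  have hn1 : 1 < n := by
    obtain ⟨r, hr, rfl⟩ := hn
    exact Nat.one_lt_pow hr.ne' (Fact.out : ℓ.Prime).one_lt
  have hc1 : lft ρ₁ c r₁ c⁻¹ = r₁ := if_pos rfl
  have hd1 : lft ρ₂ d r₂ d⁻¹ = r₂ := if_pos rfl
  refine ⟨F₁₃, F₁₂, ⟨?_, ?_, ?_⟩, hrel⟩
  · intro τ h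
    refine hFX.z13 τ ?_
    rcases h with h | h
    · left
      intro s hs
      rw [h s hs, hm_one hρ₁]
    · right
      intro s hs
      rw [h s hs, hm_one hρ₂]
  · intro τ h
    have h1 := hFX.z12 τ (fun s hs _ _ => h s hs) (fun s hs => by
      rw [(h s hs).1, (h s hs).2, hm_one hρ₁, hm_one hρ₂]
      exact ⟨rfl, rfl⟩)
    rw [h1, hc1, hd1]
    push_cast
    rfl
  · intro κ₁ κ₂ I hI hκ₁ hκ₂
    obtain ⟨i₀, hi₀, hi0⟩ := hI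
    have h1 := hFX.prod {s | s.1 ∈ I ∧ s.2.2.1 = κ₁ ^ (s.2.1 : ℕ) ∧ s.2.2.2 = κ₂ ^ (s.2.1 : ℕ)}
      (by
        rintro s ⟨_, h2, h3⟩ _ h5
        rw [h2, h3, h5, pow_zero, pow_zero]
        exact ⟨rfl, rfl⟩)
      (by
        rintro s ⟨_, h2, h3⟩
        exact ⟨(i₀, s.2), ⟨hi₀, h2, h3⟩, hi0, rfl⟩)
      (by
        rintro s ⟨_, h2, h3⟩ h5
        rw [h2, h3, h5, pow_zero, pow_zero, hm_one hρ₁, hm_one hρ₂]
        exact ⟨rfl, rfl⟩)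
    have h2 := hFX.K1 {u | ∃ s ∈ ({s | s.1 ∈ I ∧ s.2.2.1 = κ₁ ^ (s.2.1 : ℕ) ∧
      s.2.2.2 = κ₂ ^ (s.2.1 : ℕ)} : Set (SS n V₀)), s.2 = u} κ₁ κ₂
      (by
        refine ⟨(⟨1, hn1⟩, κ₁, κ₂), ⟨(i₀, ⟨1, hn1⟩, κ₁, κ₂), ⟨hi₀, ?_, ?_⟩, rfl⟩, rfl⟩
        · change κ₁ = κ₁ ^ 1
          rw [pow_one]
        · change κ₂ = κ₂ ^ 1
          rw [pow_one])
      (by
        rintro u ⟨s, ⟨_, h3, h4⟩, rfl⟩ h5
        rw [h5, pow_one] at h3 h4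
        exact Prod.ext h3 h4)
    have e1 : lft ρ₁ c r₁ κ₁ = ((ρ₁ κ₁).val : ℤ) := if_neg hκ₁
    have e2 : lft ρ₂ d r₂ κ₂ = ((ρ₂ κ₂).val : ℤ) := if_neg hκ₂
    rw [h1, h2, hc1, hd1, e1, e2]
    push_cast
    ring

end Pool.Agent.PP.SO.H70
end
end -- Pool.Agent.Helper70_ASO.RTX
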