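import Pool.Agent.Helper12_AWB.B128

/-!
# Merged copies (generated) of the modules

* `Pool.Agent.ASO.StmtsL`
* `Pool.Agent.Helper13_ASO.KM2`
* `Pool.Agent.Helper13_ASO.LHF`
* `Pool.Agent.Helper17_ASO.LC3`
* `Pool.Agent.Helper18_ASO.LCM`
* `Pool.Agent.Helper25_ASO.LC2`
* `Pool.Agent.Helper35_ASO.LSM`
* `Pool.Agent.Helper37_ASO.LTB`
* `Pool.Agent.Helper45_ASO.LC1`
* `Pool.Agent.Helper56_ASO.LT1`
* `Pool.Agent.Helper62_ASO.RSL`
* `Pool.Agent.Helper67_ASO.KCP`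
* `Pool.Agent.Helper69_ASO.LAV`
* `Pool.Agent.Helper84_ASO.KAR`
* `Pool.Agent.Helper91_ASO.LQS`
* `Pool.Agent.Helper92_ASO.LIA`
-/

set_option autoImplicit false

section -- Pool.Agent.ASO.StmtsL

/-!
# Squad ASO, statements L: linear algebra over the field with `ℓ` elements

`KarStmt` is the output (used by KCM, `Stmts5.lean`).  Rows: LTB LSM LHF LT1 LID LAV LC1 LC2 LCM LQU LQS
LC3 LIA (linear algebra of a plane `V` over `ZMod ℓ` with a linear action of a finite group `Γ` of order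
prime to `ℓ`; no freeness), RSL KCP KM1 KM2 KAR.

All sums over `Γ`, `V` and `ZMod ℓ` are sums over finite types.
-/

open scoped BigOperators

noncomputable section

namespace Pool.Agent.PP.SO

section lin

variable {ℓ : ℕ} [Fact ℓ.Prime] {V Γ : Type} [AddCommGroup V] [Module (ZMod ℓ) V] [Fintype V]
  [Group Γ] [Fintype Γ]

/-- `F` is a homogeneous function on the plane `V`, invariant under `Γ`, with sum `- f₀`. -/
structure LF (ρ : Γ →* Module.End (ZMod ℓ) V) (F : V → ZMod ℓ) (f₀ : ZMod ℓ) : Prop where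
  od : ℓ ≠ 2
  rk : Module.finrank (ZMod ℓ) V = 2
  cp : (Fintype.card Γ : ZMod ℓ) ≠ 0
  fz : F 0 = 0
  fs : ∀ (j : ZMod ℓ) (v : V), j ≠ 0 → F (j • v) = F v
  fe : ∀ (e : Γ) (v : V), F (ρ e v) = F v
  sm : ∑ v, F v = - f₀

/-- the properties of the linear functionals `h c` -/
def HH (F : V → ZMod ℓ) (f₀ : ZMod ℓ) (h : V → V →ₗ[ZMod ℓ] ZMod ℓ) : Prop :=
  ∀ c : V, c ≠ 0 → h c c = F c - f₀ ∧ ∀ w : V, (∀ a : ZMod ℓ, w ≠ a • c) →
    h c w = ∑ s : ZMod ℓ, s * F (w + s • c)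

/-- the identity (I) -/
def II (ρ : Γ →* Module.End (ZMod ℓ) V) (F : V → ZMod ℓ) (f₀ : ZMod ℓ)
    (h : V → V →ₗ[ZMod ℓ] ZMod ℓ) : Prop :=
  ∀ c d : V, c ≠ 0 → d ≠ 0 → ∀ φ ψ : V →ₗ[ZMod ℓ] ZMod ℓ,
    ∑ e : Γ, ((f₀ - F c - F d) * φ (ρ e d) * ψ (ρ e⁻¹ c) + h c (ρ e d) * φ c * ψ (ρ e⁻¹ c) +
      h d (ρ e⁻¹ c) * φ (ρ e d) * ψ d) = 0

/-- the relation for the function `N` -/
structure LN (ρ : Γ →* Module.End (ZMod ℓ) V) (F : V → ZMod ℓ) (N : V → V → ZMod ℓ)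
    (s₀ : ZMod ℓ) : Prop where
  n1 : ∀ (φ ψ : V →ₗ[ZMod ℓ] ZMod ℓ) (c d : V), c ≠ 0 → d ≠ 0 →
    N c d * (φ c * ψ d) = ∑ e : Γ, F (c + ρ e d) * (φ (c + ρ e d) * ψ (ρ e⁻¹ c + d))
  n2 : ∀ c d : V, c ≠ 0 → d ≠ 0 → ∑ t : (ZMod ℓ)ˣ, ∑ s : (ZMod ℓ)ˣ, N (t • c) (s • d) =
    Fintype.card Γ * (F c + F d) - (Fintype.card Γ : ZMod ℓ) ^ 2 * s₀

end lin

/-- LTB: a basis of the plane.

Proof.  `c`, `w` are linearly independent (`w` is not a multiple of `c` and `c ≠ 0`: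
`LinearIndependent.pair_iff`), so a basis (`finrank = 2`, `basisOfLinearIndependentOfCardEqFinrank`). -/
def LTbStmt : Prop := ∀ (ℓ : ℕ) [Fact ℓ.Prime] (V : Type) [AddCommGroup V] [Module (ZMod ℓ) V],
  Module.finrank (ZMod ℓ) V = 2 → ∀ c w : V, c ≠ 0 → (∀ a : ZMod ℓ, w ≠ a • c) →
  (∀ v : V, ∃ a b : ZMod ℓ, v = a • w + b • c) ∧
  (∀ a b : ZMod ℓ, a • w + b • c = 0 → a = 0 ∧ b = 0) ∧
  (∀ x y : ZMod ℓ, ∃ φ : V →ₗ[ZMod ℓ] ZMod ℓ, φ w = x ∧ φ c = y)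

/-- LSM: the sum over the lines.

Proof.  By LTB the map `(a, s) ↦ a • (w + s • c)`, `a ≠ 0`, is a bijection onto the vectors which are no
multiples of `c`, and `F (a • (w + s • c)) = F (w + s • c)`, so their sum is
`(ℓ - 1) ∑ s, F (w + s • c) = - ∑ s, F (w + s • c)`; the multiples `a • c`, `a ≠ 0`, have the sum
`(ℓ - 1) F c = - F c`, and `F 0 = 0`.  So `- f₀ = - ∑ s, F (w + s • c) - F c`. -/
def LSmStmt : Prop := ∀ (ℓ : ℕ) [Fact ℓ.Prime] (V Γ : Type) [AddCommGroup V] [Module (ZMod ℓ) V]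
  [Fintype V] [Group Γ] [Fintype Γ] (ρ : Γ →* Module.End (ZMod ℓ) V) (F : V → ZMod ℓ)
  (f₀ : ZMod ℓ), LF ρ F f₀ → ∀ c w : V, c ≠ 0 → (∀ a : ZMod ℓ, w ≠ a • c) →
  ∑ s : ZMod ℓ, F (w + s • c) = f₀ - F c

/-- LHF: the functionals `h c` exist.

Proof.  Let `c ≠ 0`.  There is `w₀` which is not a multiple of `c` (`finrank = 2`).  Let
`X = ∑ s, s F (w₀ + s • c)` and let `h` be the linear functional with `h w₀ = X`, `h c = F c - f₀`
(LTB).  Let `w = a • w₀ + b • c`, `a ≠ 0` (every vector which is not a multiple of `c` is of this form).  Then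
`F (w + s • c) = F (w₀ + (a⁻¹ (b + s)) • c)` (`fs`), and with `s = a s' - b`,
`∑ s, s F (w + s • c) = ∑ s', (a s' - b) F (w₀ + s' • c) = a X - b (f₀ - F c) = h w` (LSM). -/
def LHfStmt : Prop := ∀ (ℓ : ℕ) [Fact ℓ.Prime] (V Γ : Type) [AddCommGroup V] [Module (ZMod ℓ) V]
  [Fintype V] [Group Γ] [Fintype Γ] (ρ : Γ →* Module.End (ZMod ℓ) V) (F : V → ZMod ℓ)
  (f₀ : ZMod ℓ), LF ρ F f₀ → ∃ h : V → V →ₗ[ZMod ℓ] ZMod ℓ, HH F f₀ h

/-- LT1: the sum for one element `e`.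

Proof.  Put `d' = ρ e d`, `c' = ρ e⁻¹ c`; so `c' + s • d = ρ e⁻¹ (c + s • d')`, `F c' = F c`, `F d' = F d`,
`F (c + s • d') = F (c' + s • d)`.  The term for `s = 0` is `0` (`0⁻¹ = 0`).  For `s ≠ 0`
`s⁻¹ φ (c + s d') ψ (c' + s d) = s⁻¹ φ c ψ c' + (φ d' ψ c' + φ c ψ d) + s φ d' ψ d`.
First case: `d'` is not a multiple of `c`.  Then (`s ↦ s⁻¹`, `F (c + s • d') = F (d' + s⁻¹ • c)`)
`∑ s ≠ 0, s⁻¹ F (c + s d') = ∑ s, s F (d' + s • c) = h c d'`;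
`∑ s ≠ 0, F (c + s d') = ∑ s ≠ 0, F (d' + s • c) = f₀ - F c - F d` (LSM, the term `s = 0` is `F d' = F d`);
`∑ s, s F (c + s d') = ∑ s, s F (c' + s d) = h d c'` (`c'` is not a multiple of `d`, since `c` is not a
multiple of `d'`: `d' ≠ 0`).
Second case: `d' = j • c`, `j ≠ 0` (`d ≠ 0` and `ρ e` is bijective); then `d = j • c'`.  `F (c + s d') = F c` if
`1 + s j ≠ 0`, otherwise `F 0 = 0` and `φ (c + s d') = 0`.  So the left side is
`∑ s ≠ 0, s⁻¹ F c (1 + s j) ^ 2 φ c ψ c' = F c φ c ψ c' (∑ s⁻¹ + 2 j (ℓ - 1) + j ^ 2 ∑ s) = - 2 j F c φ c ψ c'`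
(`∑ s = ∑ s ≠ 0, s⁻¹ = 0` as `ℓ ≠ 2`); the right side is (`F d = F c`, `h c d' = j (F c - f₀)`,
`h d c' = j⁻¹ (F c - f₀)`, `φ d' = j φ c`, `ψ d = j ψ c'`)
`j φ c ψ c' (2 (f₀ - 2 F c) + (F c - f₀) + (F c - f₀)) = - 2 j F c φ c ψ c'`. -/
def LT1Stmt : Prop := ∀ (ℓ : ℕ) [Fact ℓ.Prime] (V Γ : Type) [AddCommGroup V] [Module (ZMod ℓ) V]
  [Fintype V] [Group Γ] [Fintype Γ] (ρ : Γ →* Module.End (ZMod ℓ) V) (F : V → ZMod ℓ)
  (f₀ : ZMod ℓ) (h : V → V →ₗ[ZMod ℓ] ZMod ℓ), LF ρ F f₀ → HH F f₀ h → ∀ (e : Γ) (c d : V),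
  c ≠ 0 → d ≠ 0 → ∀ φ ψ : V →ₗ[ZMod ℓ] ZMod ℓ,
  ∑ s : ZMod ℓ, s⁻¹ * (F (c + s • ρ e d) * (φ (c + s • ρ e d) * ψ (ρ e⁻¹ c + s • d))) =
    (f₀ - F c - F d) * (φ (ρ e d) * ψ (ρ e⁻¹ c) + φ c * ψ d) + h c (ρ e d) * φ c * ψ (ρ e⁻¹ c) +
      h d (ρ e⁻¹ c) * φ (ρ e d) * ψ d

/-- LID: the identity (I).

Proof.  Let `n = |Γ|`, `f₀ = n s₀`.  For units `t`, `s` the relation `n1` for `t • c`, `s • d`, multiplied with
`(t s)⁻¹`: `N (t • c) (s • d) φ c ψ d = ∑ e, (t s)⁻¹ F (t c + s ρ e d) φ (t c + s ρ e d) ψ (t ρ e⁻¹ c + s d)`, and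
with `s = t s'` this is `∑ e, s'⁻¹ F (c + s' ρ e d) φ (c + s' ρ e d) ψ (ρ e⁻¹ c + s' d)` (homogeneity).  The sum over
`t` and `s'` gives with `n2` and LT1 (the sum over `t` is the factor `ℓ - 1 = - 1`)
`(n (F c + F d) - n f₀) φ c ψ d = - ∑ e, ((f₀ - F c - F d) (φ (ρ e d) ψ (ρ e⁻¹ c) + φ c ψ d) + ..)`;
the terms `n (f₀ - F c - F d) φ c ψ d` cancel. -/
def LIdStmt : Prop := ∀ (ℓ : ℕ) [Fact ℓ.Prime] (V Γ : Type) [AddCommGroup V] [Module (ZMod ℓ) V]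
  [Fintype V] [Group Γ] [Fintype Γ] (ρ : Γ →* Module.End (ZMod ℓ) V) (F : V → ZMod ℓ)
  (N : V → V → ZMod ℓ) (s₀ : ZMod ℓ) (h : V → V →ₗ[ZMod ℓ] ZMod ℓ),
  LF ρ F (Fintype.card Γ * s₀) → LN ρ F N s₀ → HH F (Fintype.card Γ * s₀) h →
  II ρ F (Fintype.card Γ * s₀) h

/-- LAV: the averages of the rank one operators.

Proof.  Let `A v = lam v • d` and `S = ∑ e, ρ e * A * ρ e⁻¹ = a • 1`.  The trace of `S` is `n lam d` and the trace of
`a • 1` is `2 a`.  So `S c = (n / 2) (lam d) • c`. -/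
def LAvStmt : Prop := ∀ (ℓ : ℕ) [Fact ℓ.Prime] (V Γ : Type) [AddCommGroup V] [Module (ZMod ℓ) V]
  [Fintype V] [Group Γ] [Fintype Γ] (ρ : Γ →* Module.End (ZMod ℓ) V), ℓ ≠ 2 →
  Module.finrank (ZMod ℓ) V = 2 →
  (∀ A : Module.End (ZMod ℓ) V, ∃ a : ZMod ℓ, ∑ e : Γ, ρ e * A * ρ e⁻¹ = a • 1) →
  ∀ (lam : V →ₗ[ZMod ℓ] ZMod ℓ) (c d : V),
  (2 : ZMod ℓ) • ∑ e : Γ, lam (ρ e⁻¹ c) • ρ e d = ((Fintype.card Γ : ZMod ℓ) * lam d) • c

/-- LC1: the absolutely irreducible case.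

Proof.  By LAV, for all functionals `lam`, `mu` and `c`, `d`:
`2 ∑ e, lam (ρ e⁻¹ c) mu (ρ e d) = n (lam d) (mu c)`.  So twice the identity (I) is
`n φ c ψ d ((f₀ - F c - F d) + (F c - f₀) + (F d - f₀)) = - n f₀ φ c ψ d` (for the three terms
`(lam, mu) = (ψ, φ)`, `(ψ, h c)`, `(h d, φ)`, with `h c c = F c - f₀`, `h d d = F d - f₀`).  Take `c = d ≠ 0` and
`φ = ψ` with `φ c = 1`. -/
def LC1Stmt : Prop := ∀ (ℓ : ℕ) [Fact ℓ.Prime] (V Γ : Type) [AddCommGroup V] [Module (ZMod ℓ) V]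
  [Fintype V] [Group Γ] [Fintype Γ] (ρ : Γ →* Module.End (ZMod ℓ) V) (F : V → ZMod ℓ)
  (f₀ : ZMod ℓ) (h : V → V →ₗ[ZMod ℓ] ZMod ℓ), LF ρ F f₀ → HH F f₀ h → II ρ F f₀ h →
  (∀ A : Module.End (ZMod ℓ) V, ∃ a : ZMod ℓ, ∑ e : Γ, ρ e * A * ρ e⁻¹ = a • 1) → f₀ = 0

/-- LC2: the case of scalars.

Proof.  `ρ e = a_e`, `a_e a_{e⁻¹} = 1`.  If `c`, `d` are linearly independent take `φ d = 1`, `φ c = 0`, `ψ c = 1`,
`ψ d = 0` (LTB): (I) is `n (f₀ - F c - F d) = 0`, so `F c + F d = f₀`.  Let `c`, `w` be independent; so are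
`c`, `w + s • c` and `w`, `w + c` : `F c = F w = F (w + c) = f₀ / 2`, and `F (w + s • c) = f₀ - F c = f₀ / 2` for
all `s`.  LSM: `0 = ℓ f₀ / 2 = f₀ - F c = f₀ / 2`. -/
def LC2Stmt : Prop := ∀ (ℓ : ℕ) [Fact ℓ.Prime] (V Γ : Type) [AddCommGroup V] [Module (ZMod ℓ) V]
  [Fintype V] [Group Γ] [Fintype Γ] (ρ : Γ →* Module.End (ZMod ℓ) V) (F : V → ZMod ℓ)
  (f₀ : ZMod ℓ) (h : V → V →ₗ[ZMod ℓ] ZMod ℓ), LF ρ F f₀ → HH F f₀ h → II ρ F f₀ h →
  (∀ e : Γ, ∃ a : ZMod ℓ, ρ e = a • 1) → f₀ = 0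

/-- LCM: operators which commute with an operator which is not scalar.

Proof.  If `θ c` is a multiple of `c` for all `c`, then `θ` is scalar (the multipliers for two independent
vectors and their sum).  So choose `c` with `θ c` not a multiple of `c`; by LTB every vector is a
combination of `θ c` and `c`.  If `g` commutes with `θ` and `g c = y • θ c + x • c`, then `g = y θ + x` at `c` and at
`θ c`, so `g = y θ + x`.  For `g = g₀` not scalar `y ≠ 0`, so `θ = y⁻¹ (g₀ - x)`, and every `g` which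
commutes with `θ` is a combination of `g₀` and `1`.  Last claim: `g₀ c` is not a multiple of `c` for some
`c` by the first step, `g₀ (g₀ c) = t • g₀ c - m • c` by LTB and `g₀ ^ 2 = t g₀ - m` at `c` and at `g₀ c`. -/
def LCmStmt : Prop := ∀ (ℓ : ℕ) [Fact ℓ.Prime] (V : Type) [AddCommGroup V] [Module (ZMod ℓ) V],
  Module.finrank (ZMod ℓ) V = 2 → ∀ g₀ : Module.End (ZMod ℓ) V, (∀ a : ZMod ℓ, g₀ ≠ a • 1) →
  (∃ c : V, ∀ a : ZMod ℓ, g₀ c ≠ a • c) ∧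
  (∀ θ g : Module.End (ZMod ℓ) V, (∀ a : ZMod ℓ, θ ≠ a • 1) → θ * g₀ = g₀ * θ → θ * g = g * θ →
    ∃ a b : ZMod ℓ, g = a • 1 + b • g₀) ∧
  ∃ t m : ZMod ℓ, g₀ * g₀ = t • g₀ - m • 1

/-- LQU: the square root of a scalar.

Proof.  `g₀ = ρ e₀`, `g₀ ^ 2 = t g₀ - m` (LCM), `u = g₀ - t / 2`, `Δ = t ^ 2 / 4 - m`: `u ^ 2 = Δ`.  If `Δ = 0` then
`u ^ 2 = 0`, `g₀ ^ k = (t / 2) ^ k + k (t / 2) ^ (k - 1) u` for all `k ≥ 1`; for `k = |Γ|` this is `1`
(`orderOf_dvd_card`, `pow_card_eq_one`); `t / 2 ≠ 0` (otherwise `g₀ ^ 2 = 0`, but `g₀` is invertible), so `u` would be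
scalar and `g₀` too.  For every `e`, `ρ e = x + y g₀ = (x + y t / 2) + y u` (LCM for `θ` and `g = ρ e`). -/
def LQuStmt : Prop := ∀ (ℓ : ℕ) [Fact ℓ.Prime] (V Γ : Type) [AddCommGroup V] [Module (ZMod ℓ) V]
  [Fintype V] [Group Γ] [Fintype Γ] (ρ : Γ →* Module.End (ZMod ℓ) V), ℓ ≠ 2 →
  Module.finrank (ZMod ℓ) V = 2 → (Fintype.card Γ : ZMod ℓ) ≠ 0 →
  ∀ (e₀ : Γ) (θ : Module.End (ZMod ℓ) V), (∀ a : ZMod ℓ, ρ e₀ ≠ a • 1) →
  (∀ a : ZMod ℓ, θ ≠ a • 1) → (∀ e, θ * ρ e = ρ e * θ) →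
  ∃ (u : Module.End (ZMod ℓ) V) (D : ZMod ℓ) (a b : Γ → ZMod ℓ), D ≠ 0 ∧ u * u = D • 1 ∧
    (∀ x : ZMod ℓ, u ≠ x • 1) ∧ (∀ e, ρ e = a e • 1 + b e • u) ∧ b e₀ = 1

/-- LQS: the sums of the coefficients.

Proof.  `1`, `u` are linearly independent (`u` is not scalar).  `q e = (a e) ^ 2 - (b e) ^ 2 D ≠ 0`:
`(a + b u) (a - b u) = q`; if `q = 0`, then `a - b u = 0` (`ρ e` is invertible), `a = b = 0`, `ρ e = 0`, a
contradiction (`V ≠ 0`).  So `ρ e⁻¹ = (a - b u) / q`.  `a (e e') = a a' + b b' D`, `b (e e') = a b' + b a'`,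
`q (e e') = q q'`.  Put `x e = (a ^ 2 + b ^ 2 D) / q`, `y e = 2 a b / q`.  Then `x (e e₀) = x x₀ + D y y₀`,
`y (e e₀) = x y₀ + y x₀`, `x₀ ^ 2 - D y₀ ^ 2 = 1`, `1 - x₀ = - 2 D / q₀ ≠ 0` (`b e₀ = 1`).  The sums `X`, `Y` over `Γ`
satisfy `X = X x₀ + D Y y₀`, `Y = X y₀ + Y x₀`, so `(1 - x₀) ^ 2 X = (1 - x₀) D Y y₀ = D y₀ ^ 2 X =
(x₀ ^ 2 - 1) X`, `2 (1 - x₀) X = 0`, `X = 0`, `Y = 0`.  With `∑ (a ^ 2 - b ^ 2 D) / q = n`:
`2 ∑ a ^ 2 / q = n`, `2 D ∑ b ^ 2 / q = - n`, `∑ a b / q = 0`. -/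
def LQsStmt : Prop := ∀ (ℓ : ℕ) [Fact ℓ.Prime] (V Γ : Type) [AddCommGroup V] [Module (ZMod ℓ) V]
  [Fintype V] [Group Γ] [Fintype Γ] (ρ : Γ →* Module.End (ZMod ℓ) V), ℓ ≠ 2 →
  Module.finrank (ZMod ℓ) V = 2 → ∀ (u : Module.End (ZMod ℓ) V) (D : ZMod ℓ) (a b : Γ → ZMod ℓ)
  (e₀ : Γ), D ≠ 0 → u * u = D • 1 → (∀ x : ZMod ℓ, u ≠ x • 1) →
  (∀ e, ρ e = a e • 1 + b e • u) → b e₀ = 1 →
  (∀ e, a e ^ 2 - b e ^ 2 * D ≠ 0) ∧
  (∀ e, ρ e⁻¹ = (a e / (a e ^ 2 - b e ^ 2 * D)) • 1 - (b e / (a e ^ 2 - b e ^ 2 * D)) • u) ∧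
  2 * ∑ e : Γ, a e ^ 2 / (a e ^ 2 - b e ^ 2 * D) = Fintype.card Γ ∧
  2 * D * ∑ e : Γ, b e ^ 2 / (a e ^ 2 - b e ^ 2 * D) = - (Fintype.card Γ : ZMod ℓ) ∧
  ∑ e : Γ, a e * b e / (a e ^ 2 - b e ^ 2 * D) = 0

/-- LC3: the commutative case.

Proof.  `u`, `D`, `a`, `b` from LQU, `q e = a ^ 2 - b ^ 2 D` as in LQS.  Choose `c` with `u c` not a multiple of `c`
(LCM for `u`), and (LTB) `ψ c = 0`, `ψ (u c) = 1`, `φ c = 1`, `φ (u c) = 0`.  (I) for `c = d` and `(ψ, ψ)`: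
`(f₀ - 2 F c) ∑ e, ψ (ρ e c) ψ (ρ e⁻¹ c) = (f₀ - 2 F c) ∑ e, b (- b / q) = 0`; by LQS the sum is not `0`
(`2 D ∑ b ^ 2 / q = - n ≠ 0`), so `f₀ = 2 F c`.  (I) for `c = d` and `(φ, φ)`:
`∑ e, h c (ρ e c) φ (ρ e⁻¹ c) + ∑ e, h c (ρ e⁻¹ c) φ (ρ e c) = 0`, the two sums are equal (`e ↦ e⁻¹`), and the
first is `∑ e, (a h c c + b h c (u c)) a / q = (n / 2) h c c`.  So `h c c = F c - f₀ = 0`; with `f₀ = 2 F c`:
`f₀ = 0`. -/
def LC3Stmt : Prop := ∀ (ℓ : ℕ) [Fact ℓ.Prime] (V Γ : Type) [AddCommGroup V] [Module (ZMod ℓ) V]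
  [Fintype V] [Group Γ] [Fintype Γ] (ρ : Γ →* Module.End (ZMod ℓ) V) (F : V → ZMod ℓ)
  (f₀ : ZMod ℓ) (h : V → V →ₗ[ZMod ℓ] ZMod ℓ), LF ρ F f₀ → HH F f₀ h → II ρ F f₀ h →
  ∀ (e₀ : Γ) (θ : Module.End (ZMod ℓ) V), (∀ a : ZMod ℓ, ρ e₀ ≠ a • 1) →
  (∀ a : ZMod ℓ, θ ≠ a • 1) → (∀ e, θ * ρ e = ρ e * θ) → f₀ = 0

/-- LIA: the conclusion of the linear algebra.

Proof.  `h` from LHF, (I) from LID.  If all averages `∑ e, ρ e * A * ρ e⁻¹` are scalar: LC1.  Otherwise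
some average `θ` is not scalar; it commutes with all `ρ e`.  If all `ρ e` are scalar: LC2.  Otherwise LC3.
So `n s₀ = 0` and `s₀ = 0`. -/
def LIaStmt : Prop := ∀ (ℓ : ℕ) [Fact ℓ.Prime] (V Γ : Type) [AddCommGroup V] [Module (ZMod ℓ) V]
  [Fintype V] [Group Γ] [Fintype Γ] (ρ : Γ →* Module.End (ZMod ℓ) V) (F : V → ZMod ℓ)
  (N : V → V → ZMod ℓ) (s₀ : ZMod ℓ), LF ρ F (Fintype.card Γ * s₀) → LN ρ F N s₀ → s₀ = 0

/-- RSL: residues of the elements of `Rl ℓ`.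

Proof.  `Rat.cast` to `ZMod ℓ`: `(q : ZMod ℓ) = q.num / q.den`, `Rat.cast_add_of_ne_zero`,
`Rat.cast_mul_of_ne_zero`.  If the residue is `0`, `ℓ` divides the numerator. -/
def RslStmt : Prop := ∀ (ℓ : ℕ) [Fact ℓ.Prime],
  (∀ x ∈ SOR.Rl ℓ, ∀ y ∈ SOR.Rl ℓ, ((x + y : ℚ) : ZMod ℓ) = (x : ZMod ℓ) + (y : ZMod ℓ) ∧
    ((x * y : ℚ) : ZMod ℓ) = (x : ZMod ℓ) * (y : ZMod ℓ)) ∧
  (∀ x ∈ SOR.Rl ℓ, ((x : ZMod ℓ) = 0 ↔ ∃ q ∈ SOR.Rl ℓ, x = ℓ * q)) ∧
  (∀ (I : Type) (s : Finset I) (f : I → ℚ), (∀ i ∈ s, f i ∈ SOR.Rl ℓ) →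
    (∑ i ∈ s, f i) ∈ SOR.Rl ℓ ∧ ((∑ i ∈ s, f i : ℚ) : ZMod ℓ) = ∑ i ∈ s, (f i : ZMod ℓ))

/-- KCP: the order of a group with a free action is prime to `ℓ`.

Proof.  Otherwise there is `σ ∈ E₀` of order `ℓ` (Cauchy).  The number of the fixed points of the group
generated by `σ` on `V₀` is divisible by `ℓ` (`IsPGroup.card_modEq_card_fixedPoints`) and `1` is a fixed
point, so there is a fixed point `v ≠ 1`. -/
def KcpStmt : Prop := ∀ (ℓ : ℕ) [Fact ℓ.Prime] (V₀ : Type) [CommGroup V₀] [Finite V₀]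
  (E₀ : Subgroup (MulAut V₀)), Fr ℓ V₀ E₀ → ¬ ℓ ∣ Nat.card E₀

/-- the data of the arithmetic part -/
structure KD (ℓ : ℕ) [Fact ℓ.Prime] {V₀ : Type} [CommGroup V₀] (E₀ : Subgroup (MulAut V₀))
    (D : V₀ → ℚ) (N : V₀ → V₀ → ℚ) (k : ℤ) : Prop where
  dr : ∀ c, D c ∈ SOR.Rl ℓ
  nr : ∀ c d, N c d ∈ SOR.Rl ℓ
  dp : ∀ (c : V₀) (j : ℕ), ¬ ℓ ∣ j → D (c ^ j) = D c
  de : ∀ σ ∈ E₀, ∀ c, D (σ c) = D c
  n1 : ∀ c d : V₀, c ≠ 1 → d ≠ 1 → ∃ q ∈ SOR.Rl ℓ, N c d = ℓ * q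
  n2 : (∀ c : V₀, c ≠ 1 → ∃ q ∈ SOR.Rl ℓ, D c = ℓ * q) → ∀ (ρ₁ ρ₂ : V₀ → ZMod ℓ), Hm ρ₁ → Hm ρ₂ →
    ∀ c d : V₀, c ≠ 1 → d ≠ 1 → ∃ q ∈ SOR.Rl ℓ, N c d * ((ρ₁ c).val * (ρ₂ d).val) -
      ∑ᶠ σ ∈ {σ : MulAut V₀ | σ ∈ E₀ ∧ c * σ d ≠ 1},
        ((ρ₁ (c * σ d)).val : ℚ) * (ρ₂ (σ⁻¹ (c * σ d))).val * D (c * σ d) = ℓ ^ 2 * q
  sf : ∀ c d : V₀, c ≠ 1 → d ≠ 1 → ∃ q ∈ SOR.Rl ℓ,
    ∑ t ∈ Finset.Icc 1 (ℓ - 1), ∑ s ∈ Finset.Icc 1 (ℓ - 1), N (c ^ t) (d ^ s) +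
      (Nat.card E₀ : ℚ) * (ℓ - 1) * (D c + D d) + (Nat.card E₀ : ℚ) ^ 2 * k = ℓ ^ 2 * q
  hh : ∃ q ∈ SOR.Rl ℓ, (Nat.card E₀ : ℚ) * k + ∑ᶠ c ∈ {c : V₀ | c ≠ 1}, D c = ℓ ^ 2 * q

/-- KM1: the part modulo `ℓ`.

Proof.  Everything modulo `ℓ` (RSL), `n = |E₀|` is prime to `ℓ` (KCP).  Let `c, d ≠ 1`.  `c ^ t, d ^ s ≠ 1` for
`1 ≤ t, s ≤ ℓ - 1`, so by `n1` the relation `sf` is `- n (D c + D d) + n ^ 2 k = 0`, `D c + D d = n k`; `d = c`:
`2 D c = n k`.  There are `ℓ ^ 2 - 1` elements `c ≠ 1`, so `2 hh`: `2 n k + (ℓ ^ 2 - 1) n k = n k = 0`.  So `k = 0`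
and `D c = 0`. -/
def Km1Stmt : Prop := ∀ (ℓ : ℕ) [Fact ℓ.Prime], 5 ≤ ℓ → ∀ (V₀ : Type) [CommGroup V₀] [Finite V₀]
  (E₀ : Subgroup (MulAut V₀)), Fr ℓ V₀ E₀ → ∀ (D : V₀ → ℚ) (N : V₀ → V₀ → ℚ) (k : ℤ),
  KD ℓ E₀ D N k → (∃ k' : ℤ, k = ℓ * k') ∧ ∀ c : V₀, c ≠ 1 → ∃ q ∈ SOR.Rl ℓ, D c = ℓ * q

/-- KM2: division by `ℓ`, functions on `V₀` with values in `ZMod ℓ`.

Proof.  `k = ℓ s₀` and `D c = ℓ D' c`, `N c d = ℓ N' c d` for `c, d ≠ 1` (KM1 and `n1`).  `F c` is the residue of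
`D' c` for `c ≠ 1`, `F 1 = 0`, `N'' c d` the residue of `N' c d`.  Divide `n2`, `sf`, `hh` by `ℓ` and take residues
(RSL; `(ρ x).val` has the residue `ρ x`; the terms with `c * σ d = 1` are `0`; `σ⁻¹ (c * σ d) = σ⁻¹ c * d`).
For `sf`: `n (ℓ - 1) (D' c + D' d)` has the residue `- n (F c + F d)`. -/
def Km2Stmt : Prop := ∀ (ℓ : ℕ) [Fact ℓ.Prime], 5 ≤ ℓ → ∀ (V₀ : Type) [CommGroup V₀] [Finite V₀]
  (E₀ : Subgroup (MulAut V₀)), Fr ℓ V₀ E₀ → ∀ (D : V₀ → ℚ) (N : V₀ → V₀ → ℚ) (k : ℤ),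
  KD ℓ E₀ D N k → ∃ (F : V₀ → ZMod ℓ) (N' : V₀ → V₀ → ZMod ℓ) (k' : ℤ), k = ℓ * k' ∧
  F 1 = 0 ∧ (∀ (c : V₀) (j : ℕ), ¬ ℓ ∣ j → F (c ^ j) = F c) ∧ (∀ σ ∈ E₀, ∀ c, F (σ c) = F c) ∧
  (∑ᶠ c : V₀, F c) = - ((Nat.card E₀ : ZMod ℓ) * k') ∧
  (∀ (ρ₁ ρ₂ : V₀ → ZMod ℓ), Hm ρ₁ → Hm ρ₂ → ∀ c d : V₀, c ≠ 1 → d ≠ 1 →
    N' c d * (ρ₁ c * ρ₂ d) = ∑ᶠ σ : E₀, F (c * σ.1 d) * (ρ₁ (c * σ.1 d) * ρ₂ (σ.1⁻¹ c * d))) ∧
  (∀ c d : V₀, c ≠ 1 → d ≠ 1 →
    ∑ t ∈ Finset.Icc 1 (ℓ - 1), ∑ s ∈ Finset.Icc 1 (ℓ - 1), N' (c ^ t) (d ^ s) =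
      (Nat.card E₀ : ZMod ℓ) * (F c + F d) - (Nat.card E₀ : ZMod ℓ) ^ 2 * k')

/-- KAR: the arithmetic part.

Proof.  KM2.  `V = Additive V₀` is a vector space over `ZMod ℓ` (`AddCommGroup.zmodModule`) of dimension two
(`Fr.cd`), `Γ = E₀`, `ρ σ = σ` as a linear map (`AddMonoidHom.toZModLinearMap`), `(ρ σ⁻¹) c = σ⁻¹ c`.  A linear
functional is a function with `Hm`.  `j • v` for `j : ZMod ℓ` is `v ^ j.val`; a sum over `(ZMod ℓ)ˣ` is a sum
over `Icc 1 (ℓ - 1)`.  So `LF`, `LN` hold with `s₀ = k'` (KCP for `cp`), LIA: `ℓ ∣ k'`. -/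
def KarStmt : Prop := ∀ (ℓ : ℕ) [Fact ℓ.Prime], 5 ≤ ℓ → ∀ (V₀ : Type) [CommGroup V₀] [Finite V₀]
  (E₀ : Subgroup (MulAut V₀)), Fr ℓ V₀ E₀ → ∀ (D : V₀ → ℚ) (N : V₀ → V₀ → ℚ) (k : ℤ),
  KD ℓ E₀ D N k → ((ℓ ^ 2 : ℕ) : ℤ) ∣ k

end Pool.Agent.PP.SO
end
end -- Pool.Agent.ASO.StmtsL

section -- Pool.Agent.Helper13_ASO.KM2

/-!
# ASO row KM2: division by `ℓ`, residues
-/

open scoped BigOperators

noncomputable section

namespace Pool.Agent.PP.SO.H13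

open Pool.Agent.PP.SO

/-- KM2 -/
theorem km2 (Rsl : RslStmt) (Km1 : Km1Stmt) : Km2Stmt := by
  classical
  intro ℓ _ h5 V₀ _ _ E₀ hFr D N k K
  obtain ⟨⟨k', hk⟩, hD⟩ := Km1 ℓ h5 V₀ E₀ hFr D N k K
  obtain ⟨hR1, -, -⟩ := Rsl ℓ
  have hℓ0 : (ℓ : ℚ) ≠ 0 := by
    have := (Fact.out : ℓ.Prime).pos
    positivity
  let r : SOR.Rl ℓ →+* ZMod ℓ :=
    { toFun := fun x => ((x : ℚ) : ZMod ℓ)
      map_one' := by simp
      map_zero' := by simp
      map_add' := fun x y => (hR1 x x.2 y y.2).1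
      map_mul' := fun x y => (hR1 x x.2 y y.2).2 }
  have hrℓ : r (ℓ : SOR.Rl ℓ) = 0 := by
    rw [map_natCast]
    exact ZMod.natCast_self ℓ
  have hD' : ∀ c, ∃ q : SOR.Rl ℓ, (c = 1 → q = 0) ∧ (c ≠ 1 → D c = ℓ * (q : ℚ)) := by
    intro c
    by_cases hc : c = 1
    · exact ⟨0, fun _ => rfl, fun h => absurd hc h⟩
    · obtain ⟨q, hq, h⟩ := hD c hc
      exact ⟨⟨q, hq⟩, fun h => absurd h hc, fun _ => h⟩
  have hN' : ∀ c d, ∃ q : SOR.Rl ℓ, c ≠ 1 → d ≠ 1 → N c d = ℓ * (q : ℚ) := by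
    intro c d
    by_cases hc : c ≠ 1 ∧ d ≠ 1
    · obtain ⟨q, hq, h⟩ := K.n1 c d hc.1 hc.2
      exact ⟨⟨q, hq⟩, fun _ _ => h⟩
    · exact ⟨0, fun h1 h2 => absurd ⟨h1, h2⟩ hc⟩
  choose D' hD0 hD1 using hD'
  choose N' hN1 using hN'
  have hpow : ∀ (c : V₀) (j : ℕ), c ≠ 1 → ¬ ℓ ∣ j → c ^ j ≠ 1 := by
    intro c j hc hj h
    have h1 : orderOf c = ℓ := orderOf_eq_prime (hFr.ex c) hc
    exact hj (h1 ▸ orderOf_dvd_of_pow_eq_one h)
  have huniq : ∀ a b : V₀, a ≠ 1 → b ≠ 1 → D a = D b → D' a = D' b := by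
    intro a b ha hb h
    rw [hD1 a ha, hD1 b hb] at h
    exact Subtype.ext (mul_left_cancel₀ hℓ0 h)
  refine ⟨fun c => r (D' c), fun c d => r (N' c d), k', hk, ?_, ?_, ?_, ?_, ?_, ?_⟩
  · simp only
    rw [hD0 1 rfl, map_zero]
  · intro c j hj
    simp only
    by_cases hc : c = 1
    · rw [hc, one_pow]
    · rw [huniq (c ^ j) c (hpow c j hc hj) hc (K.dp c j hj)]
  · intro σ hσ c
    simp only
    by_cases hc : c = 1
    · rw [hc, map_one]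
    · rw [huniq (σ c) c (by simpa using hc) hc (K.de σ hσ c)]
  · obtain ⟨q, hq, h⟩ := K.hh
    let _ : Fintype V₀ := Fintype.ofFinite V₀
    have hsum : ∑ᶠ c ∈ {c : V₀ | c ≠ 1}, D c = ℓ * ∑ c, (D' c : ℚ) := by
      rw [Finset.mul_sum, ← finsum_eq_sum_of_fintype]
      refine finsum_congr fun c => ?_
      by_cases hc : c = 1
      · simp [hc, hD0 1 rfl]
      · rw [finsum_eq_if, if_pos (show c ∈ {c : V₀ | c ≠ 1} from hc), hD1 c hc]
    rw [hsum, hk] at h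
    have h2 : (Nat.card E₀ : SOR.Rl ℓ) * (k' : SOR.Rl ℓ) + ∑ c, D' c = ℓ * ⟨q, hq⟩ := by
      apply Subtype.ext
      push_cast at h ⊢
      apply mul_left_cancel₀ hℓ0
      linear_combination h
    have h3 := congrArg r h2
    rw [map_add, map_mul, map_mul, map_sum, hrℓ, zero_mul, map_natCast, map_intCast] at h3
    rw [finsum_eq_sum_of_fintype]
    linear_combination h3
  · intro ρ₁ ρ₂ h1 h2 c d hc hd
    obtain ⟨q, hq, h⟩ := K.n2 hD ρ₁ ρ₂ h1 h2 c d hc hd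
    let _ : Fintype E₀ := Fintype.ofFinite E₀
    have hsum : ∑ᶠ σ ∈ {σ : MulAut V₀ | σ ∈ E₀ ∧ c * σ d ≠ 1},
        ((ρ₁ (c * σ d)).val : ℚ) * (ρ₂ (σ⁻¹ (c * σ d))).val * D (c * σ d) =
        ℓ * ∑ σ : E₀, ((ρ₁ (c * σ.1 d)).val : ℚ) * (ρ₂ (σ.1⁻¹ (c * σ.1 d))).val *
          (D' (c * σ.1 d) : ℚ) := by
      rw [Finset.mul_sum, ← finsum_eq_sum_of_fintype,
        finsum_subtype_eq_finsum_cond (fun σ => σ ∈ E₀) (f := fun σ : MulAut V₀ => (ℓ : ℚ) *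
          (((ρ₁ (c * σ d)).val : ℚ) * ((ρ₂ (σ⁻¹ (c * σ d))).val : ℚ) * (D' (c * σ d) : ℚ)))]
      refine finsum_congr fun σ => ?_
      rw [finsum_eq_if, finsum_eq_if]
      by_cases hσ : σ ∈ E₀
      · by_cases hcd : c * σ d = 1
        · rw [if_neg (fun h => h.2 hcd), if_pos hσ, hcd, hD0 1 rfl]
          simp
        · rw [if_pos (show σ ∈ {σ : MulAut V₀ | σ ∈ E₀ ∧ c * σ d ≠ 1} from ⟨hσ, hcd⟩),
            if_pos hσ, hD1 _ hcd]
          ring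
      · rw [if_neg (fun h => hσ h.1), if_neg hσ]
    rw [hsum, hN1 c d hc hd] at h
    have h2 : N' c d * (((ρ₁ c).val : SOR.Rl ℓ) * ((ρ₂ d).val : SOR.Rl ℓ)) -
        ∑ σ : E₀, ((ρ₁ (c * σ.1 d)).val : SOR.Rl ℓ) * ((ρ₂ (σ.1⁻¹ (c * σ.1 d))).val : SOR.Rl ℓ) *
          D' (c * σ.1 d) = ℓ * ⟨q, hq⟩ := by
      apply Subtype.ext
      push_cast at h ⊢
      apply mul_left_cancel₀ hℓ0
      linear_combination h
    have h3 := congrArg r h2
    simp only [map_sub r, map_mul r, map_sum r, map_natCast r, ZMod.natCast_zmod_val,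
      ZMod.natCast_self, zero_mul] at h3
    rw [finsum_eq_sum_of_fintype]
    change r (N' c d) * (ρ₁ c * ρ₂ d) = _
    rw [sub_eq_zero.1 h3]
    refine Finset.sum_congr rfl fun σ _ => ?_
    have h4 : σ.1⁻¹ (c * σ.1 d) = σ.1⁻¹ c * d := by
      rw [map_mul]
      congr 1
      exact MulAut.inv_apply_self V₀ σ.1 d
    rw [h4]
    ring
  · intro c d hc hd
    obtain ⟨q, hq, h⟩ := K.sf c d hc hd
    have hnd : ∀ t ∈ Finset.Icc 1 (ℓ - 1), ¬ ℓ ∣ t := by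
      intro t ht hdvd
      rw [Finset.mem_Icc] at ht
      have := Nat.le_of_dvd (by omega) hdvd
      omega
    have hsum : ∑ t ∈ Finset.Icc 1 (ℓ - 1), ∑ s ∈ Finset.Icc 1 (ℓ - 1), N (c ^ t) (d ^ s) =
        ℓ * ∑ t ∈ Finset.Icc 1 (ℓ - 1), ∑ s ∈ Finset.Icc 1 (ℓ - 1), (N' (c ^ t) (d ^ s) : ℚ) := by
      rw [Finset.mul_sum]
      refine Finset.sum_congr rfl fun t ht => ?_
      rw [Finset.mul_sum]
      refine Finset.sum_congr rfl fun s hs => ?_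
      exact hN1 _ _ (hpow c t hc (hnd t ht)) (hpow d s hd (hnd s hs))
    rw [hsum, hD1 c hc, hD1 d hd, hk] at h
    have h2 : (∑ t ∈ Finset.Icc 1 (ℓ - 1), ∑ s ∈ Finset.Icc 1 (ℓ - 1), N' (c ^ t) (d ^ s)) +
        (Nat.card E₀ : SOR.Rl ℓ) * ((ℓ : SOR.Rl ℓ) - 1) * (D' c + D' d) +
        (Nat.card E₀ : SOR.Rl ℓ) ^ 2 * (k' : SOR.Rl ℓ) = ℓ * ⟨q, hq⟩ := by
      apply Subtype.ext
      push_cast at h ⊢
      apply mul_left_cancel₀ hℓ0
      linear_combination h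
    have h3 := congrArg r h2
    simp only [map_sub, map_add, map_mul, map_sum, map_natCast, map_intCast, map_one, map_pow,
      ZMod.natCast_self, zero_mul] at h3
    linear_combination h3

end Pool.Agent.PP.SO.H13
end
end -- Pool.Agent.Helper13_ASO.KM2

section -- Pool.Agent.Helper13_ASO.LHF

/-!
# ASO row LHF: the functionals `h c` exist
-/

open scoped BigOperators

noncomputable section

namespace Pool.Agent.PP.SO.H13

open Pool.Agent.PP.SO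

/-- LHF -/
theorem lhf (LTb : LTbStmt) (LSm : LSmStmt) : LHfStmt := by
  intro ℓ _ V Γ _ _ _ _ _ ρ F f₀ L
  have hex : ∀ c : V, ∃ h : V →ₗ[ZMod ℓ] ZMod ℓ, c ≠ 0 → (h c = F c - f₀ ∧
      ∀ w : V, (∀ a : ZMod ℓ, w ≠ a • c) → h w = ∑ s : ZMod ℓ, s * F (w + s • c)) := by
    intro c
    by_cases hc : c = 0
    · exact ⟨0, fun h => absurd hc h⟩
    obtain ⟨w₀, hw₀⟩ : ∃ w₀ : V, ∀ a : ZMod ℓ, w₀ ≠ a • c := by
      by_contra hcon
      push Not at hcon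
      have h1 : Module.finrank (ZMod ℓ) V ≤ 1 := finrank_le_one c fun w => by
        obtain ⟨a, ha⟩ := hcon w
        exact ⟨a, ha.symm⟩
      rw [L.rk] at h1
      omega
    obtain ⟨hb, -, hf⟩ := LTb ℓ V L.rk c w₀ hc hw₀
    obtain ⟨h, h1, h2⟩ := hf (∑ s : ZMod ℓ, s * F (w₀ + s • c)) (F c - f₀)
    refine ⟨h, fun _ => ⟨h2, ?_⟩⟩
    intro w hw
    obtain ⟨a, b, hab⟩ := hb w
    have ha : a ≠ 0 := by
      rintro rfl
      exact hw b (by rw [hab]; simp)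
    have hS := LSm ℓ V Γ ρ F f₀ L c w₀ hc hw₀
    have key : ∑ s : ZMod ℓ, s * F (w + s • c) = ∑ s : ZMod ℓ, (a * s - b) * F (w₀ + s • c) := by
      rw [← Equiv.sum_comp ((Equiv.mulLeft₀ a ha).trans (Equiv.subRight b))]
      refine Finset.sum_congr rfl fun s _ => ?_
      change (a * s - b) * F (w + (a * s - b) • c) = (a * s - b) * F (w₀ + s • c)
      have h3 : w + (a * s - b) • c = a • (w₀ + s • c) := by
        rw [hab]
        module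
      rw [h3, L.fs a _ ha]
    rw [key]
    have h4 : ∑ s : ZMod ℓ, (a * s - b) * F (w₀ + s • c) =
        a * (∑ s : ZMod ℓ, s * F (w₀ + s • c)) - b * ∑ s : ZMod ℓ, F (w₀ + s • c) := by
      rw [Finset.mul_sum, Finset.mul_sum, ← Finset.sum_sub_distrib]
      refine Finset.sum_congr rfl fun s _ => ?_
      ring
    rw [h4, hS, hab, map_add, map_smul, map_smul, h1, h2]
    simp only [smul_eq_mul]
    ring
  choose h hh using hex
  exact ⟨h, fun c hc => hh c hc⟩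

end Pool.Agent.PP.SO.H13
end
end -- Pool.Agent.Helper13_ASO.LHF

section -- Pool.Agent.Helper17_ASO.LC3

/-!
Row LC3 of the table `aso` (statement by helper66): the commutative case of the linear algebra.
-/

open scoped BigOperators

namespace Pool.Agent.PP.SO.H17

open Pool.Agent.PP.SO

theorem lc3 (lqu : LQuStmt) (lqs : LQsStmt) (lcm : LCmStmt) (ltb : LTbStmt) : LC3Stmt := by
  intro ℓ _ V Γ _ _ _ _ _ ρ F f₀ h hLF hHH hII e₀ θ he₀ hθ hcomm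
  obtain ⟨u, D, a, b, hD, huu, hus, hρ, hb₀⟩ := lqu ℓ V Γ ρ hLF.od hLF.rk hLF.cp e₀ θ he₀ hθ hcomm
  obtain ⟨hq, hinv, hA, hB, -⟩ := lqs ℓ V Γ ρ hLF.od hLF.rk u D a b e₀ hD huu hus hρ hb₀
  obtain ⟨⟨c, hc⟩, -, -⟩ := lcm ℓ V hLF.rk u hus
  have hc0 : c ≠ 0 := by
    rintro rfl
    exact hc 0 (by simp)
  obtain ⟨-, -, hf⟩ := ltb ℓ V hLF.rk c (u c) hc0 hc
  obtain ⟨ψ, hψu, hψc⟩ := hf 1 0
  obtain ⟨φ, hφu, hφc⟩ := hf 0 1
  have e1 : ∀ e, ρ e c = a e • c + b e • u c := by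
    intro e
    rw [hρ e]
    simp
  have e2 : ∀ e, ρ e⁻¹ c = (a e / (a e ^ 2 - b e ^ 2 * D)) • c
      - (b e / (a e ^ 2 - b e ^ 2 * D)) • u c := by
    intro e
    rw [hinv e]
    simp
  have hn := hLF.cp
  -- first relation
  have r1 := hII c c hc0 hc0 ψ ψ
  have r1' : (f₀ - F c - F c) * (2 * D * ∑ e : Γ, b e ^ 2 / (a e ^ 2 - b e ^ 2 * D)) = 0 := by
    have h1 : ∑ e : Γ, ((f₀ - F c - F c) * ψ (ρ e c) * ψ (ρ e⁻¹ c) + h c (ρ e c) * ψ c * ψ (ρ e⁻¹ c) +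
        h c (ρ e⁻¹ c) * ψ (ρ e c) * ψ c) =
        - ((f₀ - F c - F c) * ∑ e : Γ, b e ^ 2 / (a e ^ 2 - b e ^ 2 * D)) := by
      rw [Finset.mul_sum, ← Finset.sum_neg_distrib]
      refine Finset.sum_congr rfl fun e _ => ?_
      rw [e1, e2]
      simp only [map_add, map_sub, map_smul, smul_eq_mul, hψu, hψc]
      ring
    rw [h1, neg_eq_zero] at r1
    linear_combination 2 * D * r1
  rw [hB] at r1'
  have hf2 : f₀ - F c - F c = 0 := by
    rcases mul_eq_zero.1 r1' with h1 | h1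
    · exact h1
    · exact absurd (neg_eq_zero.1 h1) hn
  -- second relation
  have r2 := hII c c hc0 hc0 φ φ
  have h2 : ∑ e : Γ, ((f₀ - F c - F c) * φ (ρ e c) * φ (ρ e⁻¹ c) + h c (ρ e c) * φ c * φ (ρ e⁻¹ c) +
      h c (ρ e⁻¹ c) * φ (ρ e c) * φ c) =
      h c c * (2 * ∑ e : Γ, a e ^ 2 / (a e ^ 2 - b e ^ 2 * D)) := by
    rw [Finset.mul_sum, Finset.mul_sum]
    refine Finset.sum_congr rfl fun e _ => ?_
    rw [e1, e2, hf2]
    simp only [map_add, map_sub, map_smul, smul_eq_mul, hφu, hφc]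
    ring
  rw [h2, hA] at r2
  have hcc : h c c = 0 := by
    rcases mul_eq_zero.1 r2 with h1 | h1
    · exact h1
    · exact absurd h1 hn
  have h3 := (hHH c hc0).1
  rw [hcc] at h3
  linear_combination (-1 : ZMod ℓ) * hf2 + 2 * h3

end Pool.Agent.PP.SO.H17
end -- Pool.Agent.Helper17_ASO.LC3

section -- Pool.Agent.Helper18_ASO.LCM

/-!
# Squad ASO, row LCM: operators which commute with an operator which is not scalar
-/

noncomputable section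

namespace Pool.Agent.PP.SO.H18

section

variable {ℓ : ℕ} [Fact ℓ.Prime] {V : Type} [AddCommGroup V] [Module (ZMod ℓ) V]

/-- two independent vectors -/
lemma exists_pair (h2 : Module.finrank (ZMod ℓ) V = 2) :
    ∃ c w : V, c ≠ 0 ∧ ∀ a : ZMod ℓ, w ≠ a • c := by
  have hnt : Nontrivial V := Module.nontrivial_of_finrank_pos (R := ZMod ℓ) (by omega)
  obtain ⟨c, hc⟩ := exists_ne (0 : V)
  by_contra hcon
  push Not at hcon
  have h1 : Module.finrank (ZMod ℓ) V ≤ 1 := by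
    refine finrank_le_one c fun w => ?_
    obtain ⟨a, ha⟩ := hcon c w hc
    exact ⟨a, ha.symm⟩
  omega

/-- an operator which is not scalar moves some line -/
lemma exists_mov (ltb : LTbStmt) (h2 : Module.finrank (ZMod ℓ) V = 2)
    (θ : Module.End (ZMod ℓ) V) (hθ : ∀ a : ZMod ℓ, θ ≠ a • 1) :
    ∃ c : V, ∀ a : ZMod ℓ, θ c ≠ a • c := by
  by_contra hcon
  push Not at hcon
  obtain ⟨c, w, hc, hw⟩ := exists_pair (ℓ := ℓ) h2
  obtain ⟨l1, l2, -⟩ := ltb ℓ V h2 c w hc hw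
  obtain ⟨α, hα⟩ := hcon c
  obtain ⟨β, hβ⟩ := hcon w
  obtain ⟨γ, hγ⟩ := hcon (w + c)
  have h3 : (β - γ) • w + (α - γ) • c = 0 := by
    rw [map_add, hα, hβ] at hγ
    rw [sub_smul, sub_smul]
    have : β • w + α • c - γ • (w + c) = 0 := sub_eq_zero.2 hγ
    rw [← this, smul_add]
    abel
  obtain ⟨e1, e2⟩ := l2 _ _ h3
  have e3 : α = β := by
    rw [sub_eq_zero] at e1 e2
    rw [e1, e2]
  refine hθ α ?_
  refine LinearMap.ext fun v => ?_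
  obtain ⟨a, b, rfl⟩ := l1 v
  rw [map_add, map_smul, map_smul, hα, hβ, e3]
  simp only [LinearMap.smul_apply, Module.End.one_apply, smul_add, smul_smul]
  rw [mul_comm a, mul_comm b]

/-- operators which commute with `θ` -/
lemma comm_form (ltb : LTbStmt) (h2 : Module.finrank (ZMod ℓ) V = 2)
    (θ g : Module.End (ZMod ℓ) V) (hθ : ∀ a : ZMod ℓ, θ ≠ a • 1) (hg : θ * g = g * θ) :
    ∃ x y : ZMod ℓ, g = x • 1 + y • θ := by
  obtain ⟨c, hc⟩ := exists_mov ltb h2 θ hθ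
  have hc0 : c ≠ 0 := by
    rintro rfl
    exact hc 0 (by simp)
  obtain ⟨l1, -, -⟩ := ltb ℓ V h2 c (θ c) hc0 hc
  obtain ⟨y, x, hyx⟩ := l1 (g c)
  have hcom : ∀ v, g (θ v) = θ (g v) := fun v => by
    have := congrArg (fun T : Module.End (ZMod ℓ) V => T v) hg
    exact this.symm
  refine ⟨x, y, LinearMap.ext fun v => ?_⟩
  obtain ⟨a, b, rfl⟩ := l1 v
  simp only [LinearMap.add_apply, LinearMap.smul_apply, Module.End.one_apply, map_add, map_smul,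
    hcom, hyx]
  module

end

/-- **LCM.** -/
theorem lcm (ltb : LTbStmt) : LCmStmt := by
  intro ℓ _ V _ _ h2 g₀ hg₀
  refine ⟨exists_mov ltb h2 g₀ hg₀, ?_, ?_⟩
  · intro θ g hθ h1 h3
    obtain ⟨x₀, y₀, e0⟩ := comm_form ltb h2 θ g₀ hθ h1
    obtain ⟨x, y, e1⟩ := comm_form ltb h2 θ g hθ h3
    have hy : y₀ ≠ 0 := by
      rintro rfl
      refine hg₀ x₀ ?_
      rw [e0, zero_smul, add_zero]
    refine ⟨x - y * y₀⁻¹ * x₀, y * y₀⁻¹, ?_⟩
    have h5 : y * y₀⁻¹ * y₀ = y := by rw [mul_assoc, inv_mul_cancel₀ hy, mul_one]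
    rw [e1, e0, smul_add, smul_smul (y * y₀⁻¹) y₀, h5, sub_smul, smul_smul]
    module
  · obtain ⟨x, y, e⟩ := comm_form ltb h2 g₀ (g₀ * g₀) hg₀ (by rw [mul_assoc])
    refine ⟨y, -x, ?_⟩
    rw [e, neg_smul, sub_neg_eq_add, add_comm]

end Pool.Agent.PP.SO.H18

end
end -- Pool.Agent.Helper18_ASO.LCM

section -- Pool.Agent.Helper25_ASO.LC2

/-!
# Squad ASO, row LC2: the case of scalars
-/

open scoped BigOperators

noncomputable section

namespace Pool.Agent.PP.SO.H25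

open Pool.Agent.PP.SO

/-- the relation `F c + F d = f₀` for independent vectors -/
theorem lc2_pair (ltb : LTbStmt) {ℓ : ℕ} [Fact ℓ.Prime] {V Γ : Type} [AddCommGroup V]
    [Module (ZMod ℓ) V] [Fintype V] [Group Γ] [Fintype Γ] (ρ : Γ →* Module.End (ZMod ℓ) V)
    (F : V → ZMod ℓ) (f₀ : ZMod ℓ) (h : V → V →ₗ[ZMod ℓ] ZMod ℓ) (hF : LF ρ F f₀)
    (hI : II ρ F f₀ h) (hs : ∀ e : Γ, ∃ a : ZMod ℓ, ρ e = a • 1) (c d : V) (hc : c ≠ 0)
    (hd : ∀ a : ZMod ℓ, d ≠ a • c) : F c + F d = f₀ := by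
  choose a ha using hs
  have hd0 : d ≠ 0 := by
    intro h0
    exact hd 0 (by rw [h0, zero_smul])
  have haa : ∀ e : Γ, a e * a e⁻¹ = 1 := by
    intro e
    have h1 : ρ e * ρ e⁻¹ = 1 := by rw [← map_mul, mul_inv_cancel, map_one]
    have h2 : (ρ e * ρ e⁻¹) c = c := by rw [h1]; rfl
    rw [ha e, ha e⁻¹] at h2
    have h3 : (a e * a e⁻¹) • c = c := by
      rw [mul_comm]
      simpa [smul_smul] using h2
    have h4 : (a e * a e⁻¹ - 1) • c = 0 := by rw [sub_smul, h3, one_smul, sub_self]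
    rcases smul_eq_zero.1 h4 with h5 | h5
    · exact sub_eq_zero.1 h5
    · exact absurd h5 hc
  obtain ⟨-, -, hφ⟩ := ltb ℓ V hF.rk c d hc hd
  obtain ⟨φ, φd, φc⟩ := hφ 1 0
  obtain ⟨ψ, ψd, ψc⟩ := hφ 0 1
  have key := hI c d hc hd0 φ ψ
  have hterm : ∀ e : Γ, (f₀ - F c - F d) * φ (ρ e d) * ψ (ρ e⁻¹ c) +
      h c (ρ e d) * φ c * ψ (ρ e⁻¹ c) + h d (ρ e⁻¹ c) * φ (ρ e d) * ψ d = f₀ - F c - F d := by
    intro e
    have e1 : φ (ρ e d) = a e := by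
      rw [ha e]
      simp [φd]
    have e2 : ψ (ρ e⁻¹ c) = a e⁻¹ := by
      rw [ha e⁻¹]
      simp [ψc]
    rw [e1, e2, φc, ψd, mul_zero, mul_zero, zero_mul, add_zero, add_zero, mul_assoc, haa, mul_one]
  rw [Finset.sum_congr rfl fun e _ => hterm e, Finset.sum_const, Finset.card_univ,
    nsmul_eq_mul] at key
  rcases mul_eq_zero.1 key with h5 | h5
  · exact absurd h5 hF.cp
  · have : f₀ = F c + F d := by
      have := sub_eq_zero.1 (show f₀ - (F c + F d) = 0 by rw [← h5]; ring)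
      exact this
    exact this.symm

theorem lc2 (ltb : LTbStmt) (lsm : LSmStmt) : LC2Stmt := by
  intro ℓ _ V Γ _ _ _ _ _ ρ F f₀ h hF _ hI hs
  have pair := lc2_pair ltb ρ F f₀ h hF hI hs
  have one : ∀ c w : V, c ≠ 0 → (∀ a : ZMod ℓ, w ≠ a • c) → F c = f₀ := by
    intro c w hc hw
    have h1 := lsm ℓ V Γ ρ F f₀ hF c w hc hw
    have h2 : ∀ s : ZMod ℓ, F (w + s • c) = f₀ - F c := by
      intro s
      have h3 : ∀ a : ZMod ℓ, w + s • c ≠ a • c := by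
        intro a h4
        refine hw (a - s) ?_
        rw [sub_smul, ← h4]
        abel
      have h5 := pair c (w + s • c) hc h3
      rw [← h5]
      ring
    rw [Finset.sum_congr rfl fun s _ => h2 s, Finset.sum_const, Finset.card_univ, ZMod.card,
      nsmul_eq_mul, CharP.cast_eq_zero, zero_mul] at h1
    exact (sub_eq_zero.1 h1.symm).symm
  let b := Module.finBasisOfFinrankEq (ZMod ℓ) V hF.rk
  have hb0 : b 0 ≠ 0 := b.ne_zero 0
  have hb1 : b 1 ≠ 0 := b.ne_zero 1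
  have h01 : ∀ a : ZMod ℓ, b 1 ≠ a • b 0 := by
    intro a ha
    have := congrArg (fun v => b.repr v 1) ha
    simp at this
  have h10 : ∀ a : ZMod ℓ, b 0 ≠ a • b 1 := by
    intro a ha
    have := congrArg (fun v => b.repr v 0) ha
    simp at this
  have e0 := one (b 0) (b 1) hb0 h01
  have e1 := one (b 1) (b 0) hb1 h10
  have e2 := pair (b 0) (b 1) hb0 h01
  rw [e0, e1] at e2
  exact add_eq_left.1 e2

end Pool.Agent.PP.SO.H25
end
end -- Pool.Agent.Helper25_ASO.LC2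

section -- Pool.Agent.Helper35_ASO.LSM

/-!
# Squad ASO, rows LSM and LID: the sum over a line, the identity (I)
-/

open scoped BigOperators

noncomputable section

namespace Pool.Agent.PP.SO.H35

open Pool.Agent.PP.SO

theorem sum_split {ℓ : ℕ} [Fact ℓ.Prime] (g : ZMod ℓ → ZMod ℓ) (x y : ZMod ℓ) (h0 : g 0 = x)
    (h1 : ∀ a, a ≠ 0 → g a = y) : ∑ a, g a = x - y := by
  have h2 : ∀ a, g a = y + if a = 0 then x - y else 0 := by
    intro a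
    by_cases ha : a = 0
    · rw [if_pos ha, ha, h0]
      ring
    · rw [if_neg ha, h1 a ha, add_zero]
  rw [Finset.sum_congr rfl fun a _ => h2 a, Finset.sum_add_distrib, Finset.sum_const,
    Finset.card_univ, ZMod.card, nsmul_eq_mul, CharP.cast_eq_zero, zero_mul, zero_add,
    Finset.sum_ite_eq' Finset.univ (0 : ZMod ℓ), if_pos (Finset.mem_univ _)]

/-- Row LSM. -/
theorem lsm (ltb : LTbStmt) : LSmStmt := by
  intro ℓ _ V Γ _ _ _ _ _ ρ F f₀ hF c w hc hw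
  obtain ⟨b1, b2, -⟩ := ltb ℓ V hF.rk c w hc hw
  have hbij : Function.Bijective (fun q : ZMod ℓ × ZMod ℓ => q.1 • w + q.2 • c) := by
    constructor
    · rintro ⟨a, b⟩ ⟨a', b'⟩ h
      have h1 : a • w + b • c = a' • w + b' • c := h
      have h2 : (a - a') • w + (b - b') • c = 0 := by
        have h3 : (a - a') • w + (b - b') • c = (a • w + b • c) - (a' • w + b' • c) := by
          rw [sub_smul, sub_smul]
          abel
        rw [h3, h1, sub_self]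
      obtain ⟨h3, h4⟩ := b2 _ _ h2
      rw [sub_eq_zero.1 h3, sub_eq_zero.1 h4]
    · intro v
      obtain ⟨a, b, h⟩ := b1 v
      exact ⟨(a, b), h.symm⟩
  have h1 : ∑ v, F v = ∑ a : ZMod ℓ, ∑ b : ZMod ℓ, F (a • w + b • c) := by
    rw [← Fintype.sum_prod_type' (f := fun a b : ZMod ℓ => F (a • w + b • c)),
      ← Equiv.sum_comp (Equiv.ofBijective _ hbij) F]
    rfl
  have h2 : ∑ b : ZMod ℓ, F ((0 : ZMod ℓ) • w + b • c) = - F c := by
    rw [sum_split (fun b => F ((0 : ZMod ℓ) • w + b • c)) 0 (F c)]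
    · rw [zero_sub]
    · rw [zero_smul, zero_smul, add_zero, hF.fz]
    · intro b hb
      rw [zero_smul, zero_add, hF.fs b c hb]
  have h3 : ∀ a : ZMod ℓ, a ≠ 0 → ∑ b : ZMod ℓ, F (a • w + b • c) =
      ∑ s : ZMod ℓ, F (w + s • c) := by
    intro a ha
    rw [← Equiv.sum_comp (Equiv.mulLeft₀ a ha) (fun b => F (a • w + b • c))]
    refine Finset.sum_congr rfl fun b _ => ?_
    change F (a • w + (a * b) • c) = F (w + b • c)
    rw [mul_smul, ← smul_add, hF.fs a _ ha]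
  have h4 := sum_split (fun a => ∑ b : ZMod ℓ, F (a • w + b • c)) _ _ h2 h3
  rw [h1.symm.trans hF.sm |>.symm.symm] at h4
  linear_combination h4

theorem sum_units {ℓ : ℕ} [Fact ℓ.Prime] (g : ZMod ℓ → ZMod ℓ) (h0 : g 0 = 0) :
    ∑ u : (ZMod ℓ)ˣ, g u = ∑ a, g a := by
  classical
  rw [← Finset.sum_image (s := Finset.univ) (g := fun u : (ZMod ℓ)ˣ => (u : ZMod ℓ)) (f := g)]
  · refine Finset.sum_subset (Finset.subset_univ _) ?_
    intro x _ hx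
    by_cases h : x = 0
    · rw [h, h0]
    · exact absurd (Finset.mem_image.2 ⟨Units.mk0 x h, Finset.mem_univ _, rfl⟩) hx
  · intro u _ v _ huv
    exact Units.ext huv

/-- Row LID. -/
theorem lid (lt1 : LT1Stmt) : LIdStmt := by
  intro ℓ _ V Γ _ _ _ _ _ ρ F N s₀ h hF hN hH c d hc hd φ ψ
  have hT := fun e => lt1 ℓ V Γ ρ F _ h hF hH e c d hc hd φ ψ
  obtain ⟨n, hn⟩ : ∃ n : ZMod ℓ, n = Fintype.card Γ := ⟨_, rfl⟩
  obtain ⟨f₀, hf₀⟩ : ∃ f₀ : ZMod ℓ, f₀ = Fintype.card Γ * s₀ := ⟨_, rfl⟩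
  rw [← hf₀] at hF hH ⊢
  simp only [← hf₀] at hT
  -- the sum over `t` and `s`
  have key : ∀ t s' : (ZMod ℓ)ˣ, N (t • c) ((t * s') • d) * (φ c * ψ d) =
      ∑ e : Γ, (s' : ZMod ℓ)⁻¹ * (F (c + (s' : ZMod ℓ) • ρ e d) *
        (φ (c + (s' : ZMod ℓ) • ρ e d) * ψ (ρ e⁻¹ c + (s' : ZMod ℓ) • d))) := by
    intro t s'
    have ht : (t : ZMod ℓ) ≠ 0 := t.ne_zero
    have hs' : (s' : ZMod ℓ) ≠ 0 := s'.ne_zero
    have e1 := hN.n1 φ ψ (t • c) ((t * s') • d) (by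
      rw [Units.smul_def]; exact smul_ne_zero ht hc) (by
      rw [Units.smul_def]; exact smul_ne_zero (t * s').ne_zero hd)
    have e2 : ∀ e : Γ, F (t • c + ρ e ((t * s') • d)) * (φ (t • c + ρ e ((t * s') • d)) *
        ψ (ρ e⁻¹ (t • c) + (t * s') • d)) = (t : ZMod ℓ) ^ 2 * (F (c + (s' : ZMod ℓ) • ρ e d) *
          (φ (c + (s' : ZMod ℓ) • ρ e d) * ψ (ρ e⁻¹ c + (s' : ZMod ℓ) • d))) := by
      intro e
      have e3 : t • c + ρ e ((t * s') • d) = (t : ZMod ℓ) • (c + (s' : ZMod ℓ) • ρ e d) := by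
        rw [Units.smul_def, Units.smul_def, map_smul, Units.val_mul, smul_add, mul_smul]
      have e4 : ρ e⁻¹ (t • c) + (t * s') • d = (t : ZMod ℓ) • (ρ e⁻¹ c + (s' : ZMod ℓ) • d) := by
        rw [Units.smul_def, Units.smul_def, map_smul, Units.val_mul, smul_add, mul_smul]
      rw [e3, e4, hF.fs _ _ ht, map_smul, map_smul, smul_eq_mul, smul_eq_mul]
      ring
    rw [Finset.sum_congr rfl fun e _ => e2 e, ← Finset.mul_sum, Units.smul_def t c,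
      Units.smul_def (t * s') d, map_smul, map_smul, smul_eq_mul, smul_eq_mul,
      Units.val_mul] at e1
    rw [← Finset.mul_sum, Units.smul_def t c, Units.smul_def (t * s') d, Units.val_mul]
    rw [eq_inv_mul_iff_mul_eq₀ hs']
    have e5 : (t : ZMod ℓ) ^ 2 ≠ 0 := pow_ne_zero _ ht
    apply mul_left_cancel₀ e5
    rw [← e1]
    ring
  have h1 : ∑ t : (ZMod ℓ)ˣ, ∑ s' : (ZMod ℓ)ˣ, N (t • c) ((t * s') • d) * (φ c * ψ d) =
      (n * (F c + F d) - n ^ 2 * s₀) * (φ c * ψ d) := by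
    rw [hn, ← hN.n2 c d hc hd, Finset.sum_mul]
    refine Finset.sum_congr rfl fun t _ => ?_
    rw [Finset.sum_mul]
    exact Equiv.sum_comp (Equiv.mulLeft t) (fun s => N (t • c) (s • d) * (φ c * ψ d))
  have h2 : ∑ t : (ZMod ℓ)ˣ, ∑ s' : (ZMod ℓ)ˣ, N (t • c) ((t * s') • d) * (φ c * ψ d) =
      - ∑ e : Γ, ((f₀ - F c - F d) * (φ (ρ e d) * ψ (ρ e⁻¹ c) + φ c * ψ d) +
        h c (ρ e d) * φ c * ψ (ρ e⁻¹ c) + h d (ρ e⁻¹ c) * φ (ρ e d) * ψ d) := by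
    have e1 : ∀ t : (ZMod ℓ)ˣ, ∑ s' : (ZMod ℓ)ˣ, N (t • c) ((t * s') • d) * (φ c * ψ d) =
        ∑ e : Γ, ((f₀ - F c - F d) * (φ (ρ e d) * ψ (ρ e⁻¹ c) + φ c * ψ d) +
        h c (ρ e d) * φ c * ψ (ρ e⁻¹ c) + h d (ρ e⁻¹ c) * φ (ρ e d) * ψ d) := by
      intro t
      rw [Finset.sum_congr rfl fun s' _ => key t s', Finset.sum_comm]
      refine Finset.sum_congr rfl fun e _ => ?_
      rw [← hT e]
      exact sum_units (fun s => s⁻¹ * (F (c + s • ρ e d) *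
        (φ (c + s • ρ e d) * ψ (ρ e⁻¹ c + s • d)))) (by rw [inv_zero, zero_mul])
    rw [Finset.sum_congr rfl fun t _ => e1 t, Finset.sum_const, Finset.card_univ,
      ZMod.card_units, nsmul_eq_mul, Nat.cast_sub (Fact.out : ℓ.Prime).one_le,
      CharP.cast_eq_zero, Nat.cast_one, zero_sub, neg_one_mul]
  rw [h1] at h2
  have h3 : ∑ e : Γ, ((f₀ - F c - F d) * (φ (ρ e d) * ψ (ρ e⁻¹ c) + φ c * ψ d) +
        h c (ρ e d) * φ c * ψ (ρ e⁻¹ c) + h d (ρ e⁻¹ c) * φ (ρ e d) * ψ d) =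
      ∑ e : Γ, ((f₀ - F c - F d) * φ (ρ e d) * ψ (ρ e⁻¹ c) + h c (ρ e d) * φ c * ψ (ρ e⁻¹ c) +
      h d (ρ e⁻¹ c) * φ (ρ e d) * ψ d) + n * ((f₀ - F c - F d) * (φ c * ψ d)) := by
    have e1 : n * ((f₀ - F c - F d) * (φ c * ψ d)) =
        ∑ _e : Γ, (f₀ - F c - F d) * (φ c * ψ d) := by
      rw [Finset.sum_const, Finset.card_univ, nsmul_eq_mul, hn]
    rw [e1, ← Finset.sum_add_distrib]
    refine Finset.sum_congr rfl fun e _ => ?_
    ring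
  rw [h3] at h2
  have h4 : n ^ 2 * s₀ = n * f₀ := by
    rw [hf₀, ← hn]
    ring
  linear_combination h2 + (φ c * ψ d) * h4

end Pool.Agent.PP.SO.H35
end
end -- Pool.Agent.Helper35_ASO.LSM

section -- Pool.Agent.Helper37_ASO.LTB

/-!
# Squad ASO, row LTB: a basis of the plane
-/

namespace Pool.Agent.PP.SO.H37

theorem ltb : LTbStmt := by
  intro ℓ _ V _ _ hrk c w hc hw
  have hli : LinearIndependent (ZMod ℓ) ![w, c] := by
    rw [LinearIndependent.pair_iff]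
    intro s t hst
    have hs : s = 0 := by
      by_contra hs
      refine hw (-(s⁻¹ * t)) ?_
      have h1 : w = s⁻¹ • (s • w) := by rw [smul_smul, inv_mul_cancel₀ hs, one_smul]
      have h2 : s • w = -(t • c) := eq_neg_of_add_eq_zero_left hst
      rw [h1, h2, smul_neg, smul_smul, neg_smul]
    refine ⟨hs, ?_⟩
    rw [hs, zero_smul, zero_add] at hst
    exact (smul_eq_zero.1 hst).resolve_right hc
  have hcard : Fintype.card (Fin 2) = Module.finrank (ZMod ℓ) V := by rw [hrk]; rfl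
  have hfin : Module.Finite (ZMod ℓ) V := Module.finite_of_finrank_pos (by rw [hrk]; norm_num)
  let b : Module.Basis (Fin 2) (ZMod ℓ) V := basisOfLinearIndependentOfCardEqFinrank hli hcard
  have hb : ⇑b = ![w, c] := coe_basisOfLinearIndependentOfCardEqFinrank hli hcard
  have hb0 : b 0 = w := by rw [hb]; rfl
  have hb1 : b 1 = c := by rw [hb]; rfl
  refine ⟨fun v => ⟨b.repr v 0, b.repr v 1, ?_⟩, fun x y hxy => ?_, fun x y => ?_⟩
  · have h1 := b.sum_repr v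
    rw [Fin.sum_univ_two, hb0, hb1] at h1
    exact h1.symm
  · exact LinearIndependent.pair_iff.1 hli x y hxy
  · refine ⟨b.constr (ZMod ℓ) ![x, y], ?_, ?_⟩
    · rw [← hb0, Module.Basis.constr_basis]; rfl
    · rw [← hb1, Module.Basis.constr_basis]; rfl

end Pool.Agent.PP.SO.H37
end -- Pool.Agent.Helper37_ASO.LTB

section -- Pool.Agent.Helper45_ASO.LC1

/-!
# Squad ASO, row LC1: the absolutely irreducible case
-/

open scoped BigOperators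

namespace Pool.Agent.PP.SO.H45

theorem lc1 (lav : LAvStmt) : LC1Stmt := by
  intro ℓ _ V Γ _ _ _ _ _ ρ F f₀ h hF hH hI hA
  have hav := lav ℓ V Γ ρ hF.od hF.rk hA
  have key : ∀ (lam mu : V →ₗ[ZMod ℓ] ZMod ℓ) (c d : V),
      (2 : ZMod ℓ) * ∑ e : Γ, lam (ρ e⁻¹ c) * mu (ρ e d) = (Fintype.card Γ : ZMod ℓ) * lam d * mu c := by
    intro lam mu c d
    have h1 := congrArg mu (hav lam c d)
    rw [map_smul, map_smul, map_sum, smul_eq_mul, smul_eq_mul] at h1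
    rw [← h1]
    congr 1
    apply Finset.sum_congr rfl
    intro e _
    rw [map_smul, smul_eq_mul]
  have : Nontrivial V := Module.nontrivial_of_finrank_pos (R := ZMod ℓ) (by rw [hF.rk]; norm_num)
  obtain ⟨c, hc⟩ := exists_ne (0 : V)
  obtain ⟨φ, hφ⟩ : ∃ φ : V →ₗ[ZMod ℓ] ZMod ℓ, φ c ≠ 0 := by
    by_contra hcon
    push Not at hcon
    exact hc ((Module.forall_dual_apply_eq_zero_iff (ZMod ℓ) c).1 hcon)
  have h1 := hI c c hc hc φ φ
  have hcc : h c c = F c - f₀ := (hH c hc).1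
  have k1 := key φ φ c c
  have k2 := key φ (h c) c c
  have k3 := key (h c) φ c c
  rw [hcc] at k2 k3
  have e1 : (2 : ZMod ℓ) * ∑ e : Γ, ((f₀ - F c - F c) * φ (ρ e c) * φ (ρ e⁻¹ c)
      + h c (ρ e c) * φ c * φ (ρ e⁻¹ c) + h c (ρ e⁻¹ c) * φ (ρ e c) * φ c)
      = (f₀ - F c - F c) * (2 * ∑ e : Γ, φ (ρ e⁻¹ c) * φ (ρ e c))
        + φ c * (2 * ∑ e : Γ, φ (ρ e⁻¹ c) * h c (ρ e c))
        + φ c * (2 * ∑ e : Γ, h c (ρ e⁻¹ c) * φ (ρ e c)) := by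
    rw [Finset.mul_sum, Finset.mul_sum, Finset.mul_sum, Finset.mul_sum, Finset.mul_sum,
      Finset.mul_sum, Finset.mul_sum, ← Finset.sum_add_distrib, ← Finset.sum_add_distrib]
    apply Finset.sum_congr rfl
    intro e _
    ring
  rw [h1, k1, k2, k3, mul_zero] at e1
  have e2 : (Fintype.card Γ : ZMod ℓ) * φ c ^ 2 * f₀ = 0 := by
    linear_combination e1
  rcases mul_eq_zero.1 e2 with e3 | e3
  · rcases mul_eq_zero.1 e3 with e4 | e4
    · exact absurd e4 hF.cp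
    · exact absurd (pow_eq_zero_iff two_ne_zero |>.1 e4) hφ
  · exact e3

end Pool.Agent.PP.SO.H45
end -- Pool.Agent.Helper45_ASO.LC1

section -- Pool.Agent.Helper56_ASO.LT1

/-!
# ASO, LT1: the sum for one element `e`
-/

open scoped BigOperators

noncomputable section

namespace Pool.Agent.PP.SO.H56

open Pool.Agent.PP.SO

theorem sum_inv_comp {ℓ : ℕ} [Fact ℓ.Prime] (f : ZMod ℓ → ZMod ℓ) :
    ∑ s : ZMod ℓ, f s⁻¹ = ∑ s : ZMod ℓ, f s :=
  Function.Bijective.sum_comp (inv_involutive.bijective) f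

theorem sum_id {ℓ : ℕ} [Fact ℓ.Prime] (h2 : ℓ ≠ 2) : ∑ s : ZMod ℓ, s = 0 := by
  have h1 : 1 < Fintype.card (ZMod ℓ) - 1 := by
    rw [ZMod.card]
    have := (Fact.out : ℓ.Prime).two_le
    omega
  have := FiniteField.sum_pow_lt_card_sub_one (ZMod ℓ) 1 h1
  simpa using this

theorem sum_ne {ℓ : ℕ} [Fact ℓ.Prime] (f : ZMod ℓ → ZMod ℓ) :
    ∑ s : ZMod ℓ, s⁻¹ * s * f s = ∑ s : ZMod ℓ, f s - f 0 := by
  classical
  have h1 : ∀ s : ZMod ℓ, s⁻¹ * s * f s = f s - (if s = 0 then f 0 else 0) := by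
    intro s
    by_cases hs : s = 0
    · rw [hs]
      simp
    · rw [inv_mul_cancel₀ hs, if_neg hs, one_mul, sub_zero]
  rw [Finset.sum_congr rfl fun s _ => h1 s, Finset.sum_sub_distrib, Finset.sum_ite_eq']
  simp

theorem lt1 (lsm : LSmStmt) : LT1Stmt := by
  intro ℓ _ V Γ _ _ _ _ _ ρ F f₀ h hF hH e c d hc hd φ ψ
  obtain ⟨d', hd'⟩ : ∃ d', d' = ρ e d := ⟨_, rfl⟩
  obtain ⟨c', hc'⟩ : ∃ c', c' = ρ e⁻¹ c := ⟨_, rfl⟩
  have hρ : ∀ v, ρ e (ρ e⁻¹ v) = v := by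
    intro v
    rw [← Module.End.mul_apply, ← map_mul, mul_inv_cancel, map_one, Module.End.one_apply]
  have hρ' : ∀ v, ρ e⁻¹ (ρ e v) = v := by
    intro v
    rw [← Module.End.mul_apply, ← map_mul, inv_mul_cancel, map_one, Module.End.one_apply]
  have e1 : ρ e c' = c := by rw [hc', hρ]
  have e2 : ρ e⁻¹ d' = d := by rw [hd', hρ']
  have hFc : F c' = F c := by rw [hc', hF.fe]
  have hFd : F d' = F d := by rw [hd', hF.fe]
  rw [← hd', ← hc']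
  have hG : ∀ s : ZMod ℓ, F (c + s • d') = F (c' + s • d) := by
    intro s
    rw [← hF.fe e⁻¹ (c + s • d'), map_add, map_smul, e2, ← hc']
  have hlhs : ∑ s : ZMod ℓ, s⁻¹ * (F (c + s • d') * (φ (c + s • d') * ψ (c' + s • d))) =
      (∑ s : ZMod ℓ, s⁻¹ * F (c + s • d')) * (φ c * ψ c') +
      (∑ s : ZMod ℓ, s⁻¹ * s * F (c + s • d')) * (φ d' * ψ c' + φ c * ψ d) +
      (∑ s : ZMod ℓ, s * F (c + s • d')) * (φ d' * ψ d) := by
    rw [Finset.sum_mul, Finset.sum_mul, Finset.sum_mul, ← Finset.sum_add_distrib,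
      ← Finset.sum_add_distrib]
    refine Finset.sum_congr rfl fun s _ => ?_
    rw [map_add, map_add, map_smul, map_smul, smul_eq_mul, smul_eq_mul]
    by_cases hs : s = 0
    · rw [hs]
      simp
    · have h1 : s⁻¹ * s = 1 := inv_mul_cancel₀ hs
      linear_combination (s * F (c + s • d') * φ d' * ψ d) * h1
  have hd'0 : d' ≠ 0 := by
    intro h0
    apply hd
    rw [← e2, h0, map_zero]
  by_cases hcase : ∀ a : ZMod ℓ, d' ≠ a • c
  · -- first case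
    have hinv : ∀ s : ZMod ℓ, s ≠ 0 → F (c + s • d') = F (d' + s⁻¹ • c) := by
      intro s hs
      rw [← hF.fs s⁻¹ (c + s • d') (inv_ne_zero hs), smul_add, smul_smul, inv_mul_cancel₀ hs,
        one_smul, add_comm]
    have hA : ∑ s : ZMod ℓ, s⁻¹ * F (c + s • d') = h c d' := by
      rw [(hH c hc).2 d' hcase, ← sum_inv_comp (fun s => s * F (d' + s • c))]
      refine Finset.sum_congr rfl fun s _ => ?_
      by_cases hs : s = 0
      · rw [hs, inv_zero, zero_mul, zero_mul]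
      · rw [hinv s hs]
    have hB : ∑ s : ZMod ℓ, s⁻¹ * s * F (c + s • d') = f₀ - F c - F d := by
      have h1 : ∑ s : ZMod ℓ, s⁻¹ * s * F (c + s • d') =
          ∑ s : ZMod ℓ, s⁻¹ * s * F (d' + s⁻¹ • c) := by
        refine Finset.sum_congr rfl fun s _ => ?_
        by_cases hs : s = 0
        · rw [hs, inv_zero, zero_mul, zero_mul, zero_mul]
        · rw [hinv s hs]
      have h2 := sum_inv_comp (ℓ := ℓ) (fun s => s⁻¹ * s * F (d' + s • c))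
      have h3 : ∑ s : ZMod ℓ, s⁻¹ * s * F (d' + s⁻¹ • c) =
          ∑ s : ZMod ℓ, s⁻¹ * s * F (d' + s • c) := by
        rw [← h2]
        refine Finset.sum_congr rfl fun s _ => ?_
        rw [inv_inv, mul_comm s s⁻¹]
      rw [h1, h3, sum_ne (fun s => F (d' + s • c)), lsm ℓ V Γ ρ F f₀ hF c d' hc hcase, zero_smul,
        add_zero, hFd]
    have hC : ∑ s : ZMod ℓ, s * F (c + s • d') = h d c' := by
      have h1 : ∀ a : ZMod ℓ, c' ≠ a • d := by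
        intro a ha
        have h2 : c = a • d' := by rw [← e1, ha, map_smul, ← hd']
        have ha0 : a ≠ 0 := by
          rintro rfl
          rw [zero_smul] at h2
          exact hc h2
        refine hcase a⁻¹ ?_
        rw [h2, smul_smul, inv_mul_cancel₀ ha0, one_smul]
      rw [(hH d hd).2 c' h1]
      refine Finset.sum_congr rfl fun s _ => ?_
      rw [hG]
    rw [hlhs, hA, hB, hC]
    ring
  · -- second case
    push Not at hcase
    obtain ⟨j, hj⟩ := hcase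
    have hj0 : j ≠ 0 := by
      rintro rfl
      rw [zero_smul] at hj
      exact hd'0 hj
    have hdj : d = j • c' := by rw [← e2, hj, map_smul, ← hc']
    have hFdc : F d = F c := by rw [← hFd, hj, hF.fs j c hj0]
    have hterm : ∀ s : ZMod ℓ, s⁻¹ * (F (c + s • d') * (φ (c + s • d') * ψ (c' + s • d))) =
        F c * (φ c * ψ c') * (s⁻¹ + 2 * j * (s⁻¹ * s) + j ^ 2 * s) := by
      intro s
      have h1 : c + s • d' = (1 + s * j) • c := by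
        rw [hj, smul_smul, add_smul, one_smul]
      have h2 : c' + s • d = (1 + s * j) • c' := by
        rw [hdj, smul_smul, add_smul, one_smul]
      rw [h1, h2, map_smul, map_smul, smul_eq_mul, smul_eq_mul]
      have h3 : F ((1 + s * j) • c) * (1 + s * j) = F c * (1 + s * j) := by
        by_cases h0 : 1 + s * j = 0
        · rw [h0, mul_zero, mul_zero]
        · rw [hF.fs _ c h0]
      by_cases hs : s = 0
      · rw [hs]
        simp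
      · have h4 : s⁻¹ * s = 1 := inv_mul_cancel₀ hs
        have h5 : s⁻¹ * (F ((1 + s * j) • c) * ((1 + s * j) * φ c * ((1 + s * j) * ψ c'))) =
            (F ((1 + s * j) • c) * (1 + s * j)) * (s⁻¹ * (1 + s * j) * (φ c * ψ c')) := by ring
        rw [h5, h3]
        linear_combination (F c * (φ c * ψ c') * j ^ 2 * s) * h4
    rw [Finset.sum_congr rfl fun s _ => hterm s, ← Finset.mul_sum, Finset.sum_add_distrib,
      Finset.sum_add_distrib, ← Finset.mul_sum, ← Finset.mul_sum]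
    have s1 : ∑ s : ZMod ℓ, s⁻¹ = 0 := by
      rw [sum_inv_comp (fun s : ZMod ℓ => s), sum_id hF.od]
    have s2 : ∑ s : ZMod ℓ, s⁻¹ * s = -1 := by
      have h1 := sum_ne (ℓ := ℓ) (fun _ => 1)
      simp only [mul_one] at h1
      rw [h1]
      simp
    rw [s1, s2, sum_id hF.od]
    have r1 : h c d' = j * (F c - f₀) := by
      rw [hj, map_smul, (hH c hc).1, smul_eq_mul]
    have r2 : h d c' = j⁻¹ * (F c - f₀) := by
      have h1 : c' = j⁻¹ • d := by rw [hdj, smul_smul, inv_mul_cancel₀ hj0, one_smul]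
      rw [h1, map_smul, (hH d hd).1, smul_eq_mul, hFdc]
    have r3 : φ d' = j * φ c := by rw [hj, map_smul, smul_eq_mul]
    have r4 : ψ d = j * ψ c' := by rw [hdj, map_smul, smul_eq_mul]
    have h4 : j⁻¹ * j = 1 := inv_mul_cancel₀ hj0
    rw [r1, r2, r3, r4, hFdc]
    linear_combination (-(F c - f₀) * φ c * j * ψ c') * h4

end Pool.Agent.PP.SO.H56
end
end -- Pool.Agent.Helper56_ASO.LT1

section -- Pool.Agent.Helper62_ASO.RSL

/-!
# Squad ASO, row RSL: residues of rational numbers with denominator prime to `ℓ`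
-/

open scoped BigOperators

noncomputable section

namespace Pool.Agent.PP.SO.H62

open Pool.Agent.PP.SO

theorem rsl_den {ℓ : ℕ} [Fact ℓ.Prime] {x : ℚ} (hx : x ∈ SOR.Rl ℓ) : (x.den : ZMod ℓ) ≠ 0 := by
  intro h
  exact hx ((ZMod.natCast_eq_zero_iff _ _).1 h)

theorem rsl_nat (ℓ : ℕ) [Fact ℓ.Prime] (n : ℕ) : (n : ℚ) ∈ SOR.Rl ℓ := by
  change ¬ ℓ ∣ (n : ℚ).den
  rw [Rat.den_natCast]
  have hp : Nat.Prime ℓ := Fact.out
  exact hp.one_lt.ne' ∘ Nat.dvd_one.1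

theorem rsl : RslStmt := by
  intro ℓ _
  have hadd : ∀ x ∈ SOR.Rl ℓ, ∀ y ∈ SOR.Rl ℓ, ((x + y : ℚ) : ZMod ℓ) = (x : ZMod ℓ) + (y : ZMod ℓ) :=
    fun x hx y hy => Rat.cast_add_of_ne_zero (rsl_den hx) (rsl_den hy)
  have hmul : ∀ x ∈ SOR.Rl ℓ, ∀ y ∈ SOR.Rl ℓ, ((x * y : ℚ) : ZMod ℓ) = (x : ZMod ℓ) * (y : ZMod ℓ) :=
    fun x hx y hy => Rat.cast_mul_of_ne_zero (rsl_den hx) (rsl_den hy)
  refine ⟨fun x hx y hy => ⟨hadd x hx y hy, hmul x hx y hy⟩, ?_, ?_⟩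
  · intro x hx
    constructor
    · intro h
      rw [Rat.cast_def, div_eq_zero_iff] at h
      rcases h with h | h
      · obtain ⟨k, hk⟩ := (ZMod.intCast_zmod_eq_zero_iff_dvd _ _).1 h
        refine ⟨(k : ℚ) / ((x.den : ℤ) : ℚ), ?_, ?_⟩
        · change ¬ ℓ ∣ ((k : ℚ) / ((x.den : ℤ) : ℚ)).den
          intro hd
          have h1 : (((k : ℚ) / ((x.den : ℤ) : ℚ)).den : ℤ) ∣ (x.den : ℤ) := by
            rw [← Rat.divInt_eq_div]
            exact Rat.den_dvd k x.den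
          exact hx (hd.trans (Int.natCast_dvd_natCast.1 h1))
        · have hx0 : (x.den : ℚ) ≠ 0 := by exact_mod_cast x.den_nz
          have h2 : (x.num : ℚ) = (ℓ : ℚ) * k := by
            rw [hk]
            push_cast
            ring
          rw [Int.cast_natCast, ← mul_div_assoc, ← h2]
          exact (Rat.num_div_den x).symm
      · exact absurd h (rsl_den hx)
    · rintro ⟨q, hq, rfl⟩
      rw [hmul _ (rsl_nat ℓ ℓ) _ hq, Rat.cast_natCast, ZMod.natCast_self, zero_mul]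
  · intro I s f
    induction s using Finset.cons_induction with
    | empty =>
      intro _
      refine ⟨?_, ?_⟩
      · rw [Finset.sum_empty]
        exact Subring.zero_mem _
      · rw [Finset.sum_empty, Finset.sum_empty, Rat.cast_zero]
    | cons i s hi ih =>
      intro hf
      obtain ⟨h1, h2⟩ := ih fun j hj => hf j (Finset.mem_cons_of_mem hj)
      have h3 := hf i (Finset.mem_cons_self i s)
      rw [Finset.sum_cons, Finset.sum_cons]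
      exact ⟨Subring.add_mem _ h3 h1, by rw [hadd _ h3 _ h1, h2]⟩

end Pool.Agent.PP.SO.H62
end
end -- Pool.Agent.Helper62_ASO.RSL

section -- Pool.Agent.Helper67_ASO.KCP

namespace Pool.Agent.PP.SO.H67

open Pool.Agent.PP.SO

theorem kcp : KcpStmt := by
  intro ℓ hℓ V₀ _ _ E₀ hF hdvd
  have hfin : Finite (MulAut V₀) := by
    have : Finite (V₀ ≃ V₀) := inferInstance
    exact Finite.of_injective (fun σ : MulAut V₀ => (σ.toEquiv : V₀ ≃ V₀)) (by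
      intro a b hab
      ext x
      exact congrArg (fun e : V₀ ≃ V₀ => e x) hab)
  have hfinE : Finite E₀ := inferInstance
  obtain ⟨σ, hσ⟩ := exists_prime_orderOf_dvd_card' (G := E₀) ℓ hdvd
  have hp : IsPGroup ℓ (Subgroup.zpowers (σ : MulAut V₀)) := by
    apply IsPGroup.of_card (n := 1)
    rw [Nat.card_zpowers, pow_one]
    have h1 : orderOf (σ : MulAut V₀) = orderOf σ := Subgroup.orderOf_coe σ
    rw [h1, hσ]
  have hdiv : ℓ ∣ Nat.card V₀ := by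
    rw [hF.cd]
    exact dvd_pow_self ℓ (by norm_num)
  have h1 : (1 : V₀) ∈ MulAction.fixedPoints (Subgroup.zpowers (σ : MulAut V₀)) V₀ := by
    intro τ
    show (τ : MulAut V₀) 1 = 1
    exact map_one _
  obtain ⟨v, hv, hv1⟩ := hp.exists_fixed_point_of_prime_dvd_card_of_fixed_point V₀ hdiv h1
  have hfix : (σ : MulAut V₀) v = v := hv ⟨(σ : MulAut V₀), Subgroup.mem_zpowers _⟩
  have hne : (σ : MulAut V₀) ≠ 1 := by
    intro h
    have h2 : orderOf (σ : MulAut V₀) = ℓ := by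
      rw [Subgroup.orderOf_coe σ, hσ]
    rw [h, orderOf_one] at h2
    exact hℓ.out.one_lt.ne h2
  exact hv1 (hF.fr _ σ.2 hne v hfix).symm

end Pool.Agent.PP.SO.H67
end -- Pool.Agent.Helper67_ASO.KCP

section -- Pool.Agent.Helper69_ASO.LAV

/-!
# Squad ASO, row LAV: averages of rank one operators
-/

open scoped BigOperators

noncomputable section

namespace Pool.Agent.PP.SO.H69

/-- LAV -/
theorem lav : LAvStmt := by
  intro ℓ _ V Γ _ _ _ _ _ ρ hℓ hrk hA lam c d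
  obtain ⟨a, ha⟩ := hA (lam.smulRight d)
  have hfin : Module.Finite (ZMod ℓ) V := Module.finite_of_finrank_pos (by omega)
  have h1 : ∑ e : Γ, lam (ρ e⁻¹ c) • ρ e d = a • c := by
    have h2 := LinearMap.congr_fun ha c
    rw [LinearMap.sum_apply] at h2
    have h3 : (a • (1 : Module.End (ZMod ℓ) V)) c = a • c := rfl
    rw [h3] at h2
    rw [← h2]
    apply Finset.sum_congr rfl
    intro e _
    change _ = ρ e ((lam.smulRight d) (ρ e⁻¹ c))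
    rw [LinearMap.smulRight_apply, map_smul]
  have h4 : (2 : ZMod ℓ) * a = (Fintype.card Γ : ZMod ℓ) * lam d := by
    have h5 := congrArg (LinearMap.trace (ZMod ℓ) V) ha
    rw [map_sum, map_smul, LinearMap.trace_one, hrk] at h5
    have h6 : ∀ e : Γ, LinearMap.trace (ZMod ℓ) V (ρ e * lam.smulRight d * ρ e⁻¹) = lam d := by
      intro e
      rw [LinearMap.trace_mul_cycle, ← map_mul, inv_mul_cancel, map_one, one_mul]
      exact LinearMap.trace_smulRight lam d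
    rw [Finset.sum_congr rfl (fun e _ => h6 e), Finset.sum_const, Finset.card_univ,
      nsmul_eq_mul] at h5
    rw [h5, smul_eq_mul]
    push_cast
    ring
  rw [h1, smul_smul, h4]

end Pool.Agent.PP.SO.H69
end
end -- Pool.Agent.Helper69_ASO.LAV

section -- Pool.Agent.Helper84_ASO.KAR

/-!
# Squad ASO, row KAR: the arithmetic part, transport to linear algebra
-/

open scoped BigOperators

noncomputable section

namespace Pool.Agent.PP.SO.H84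

open Pool.Agent.PP.SO

section rep

variable {ℓ : ℕ} {V₀ V : Type} [CommGroup V₀] [AddCommGroup V] [Module (ZMod ℓ) V]

/-- the automorphisms as linear maps -/
def lr (a : Additive V₀ ≃+ V) (E₀ : Subgroup (MulAut V₀)) : E₀ →* Module.End (ZMod ℓ) V where
  toFun σ := AddMonoidHom.toZModLinearMap ℓ ((a.toAddMonoidHom.comp
    (MonoidHom.toAdditive (MulEquiv.toMonoidHom (σ.1 : MulAut V₀)))).comp a.symm.toAddMonoidHom)
  map_one' := by
    ext v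
    exact a.apply_symm_apply v
  map_mul' σ τ := by
    ext v
    show a (Additive.ofMul (σ.1 (τ.1 (Additive.toMul (a.symm v))))) =
      a (Additive.ofMul (σ.1 (Additive.toMul (a.symm (a (Additive.ofMul (τ.1 (Additive.toMul
        (a.symm v)))))))))
    rw [a.symm_apply_apply]
    rfl

theorem lr_apply (a : Additive V₀ ≃+ V) (E₀ : Subgroup (MulAut V₀)) (σ : E₀) (v : V) :
    lr (ℓ := ℓ) a E₀ σ v = a (Additive.ofMul (σ.1 (Additive.toMul (a.symm v)))) := rfl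

theorem toMul_symm_smul [Fact ℓ.Prime] (a : Additive V₀ ≃+ V) (j : ZMod ℓ) (v : V) :
    Additive.toMul (a.symm (j • v)) = Additive.toMul (a.symm v) ^ j.val := by
  conv_lhs => rw [← ZMod.natCast_zmod_val j]
  rw [Nat.cast_smul_eq_nsmul, map_nsmul, toMul_nsmul]

end rep

/-- a sum over the units is a sum over `Icc 1 (ℓ - 1)` -/
theorem sum_units (ℓ : ℕ) [Fact ℓ.Prime] {R : Type} [AddCommMonoid R] (f : ℕ → R) :
    ∑ t : (ZMod ℓ)ˣ, f (t : ZMod ℓ).val = ∑ t ∈ Finset.Icc 1 (ℓ - 1), f t := by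
  have hp : ℓ.Prime := Fact.out
  refine Finset.sum_bij' (i := fun t _ => (t : ZMod ℓ).val)
    (j := fun t ht => Units.mk0 ((t : ℕ) : ZMod ℓ) ?_) ?_ ?_ ?_ ?_ ?_
  · rw [Finset.mem_Icc] at ht
    intro h0
    rw [ZMod.natCast_eq_zero_iff] at h0
    have := Nat.le_of_dvd (by omega) h0
    have := hp.one_lt
    omega
  · intro t _
    rw [Finset.mem_Icc]
    have h1 := ZMod.val_lt (t : ZMod ℓ)
    have h2 : (t : ZMod ℓ).val ≠ 0 := by
      rw [Ne, ZMod.val_eq_zero]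
      exact t.ne_zero
    omega
  · intro t ht
    exact Finset.mem_univ _
  · intro t _
    ext
    simp
  · intro t ht
    rw [Finset.mem_Icc] at ht
    have := hp.one_lt
    simp only [Units.val_mk0]
    exact ZMod.val_cast_of_lt (by omega)
  · intro t _
    rfl

theorem core (hLIA : LIaStmt) (hKCP : KcpStmt) (ℓ : ℕ) [Fact ℓ.Prime] (h5 : 5 ≤ ℓ)
    (V₀ V : Type) [CommGroup V₀] [Finite V₀] [AddCommGroup V] [Module (ZMod ℓ) V] [Fintype V]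
    (a : Additive V₀ ≃+ V) (E₀ : Subgroup (MulAut V₀)) [Fintype E₀] (hFr : Fr ℓ V₀ E₀)
    (F : V₀ → ZMod ℓ) (N' : V₀ → V₀ → ZMod ℓ) (k' : ℤ)
    (hF1 : F 1 = 0) (hFp : ∀ (c : V₀) (j : ℕ), ¬ ℓ ∣ j → F (c ^ j) = F c)
    (hFe : ∀ σ ∈ E₀, ∀ c, F (σ c) = F c)
    (hFs : (∑ᶠ c : V₀, F c) = - ((Nat.card E₀ : ZMod ℓ) * k'))
    (hN1 : ∀ (ρ₁ ρ₂ : V₀ → ZMod ℓ), Hm ρ₁ → Hm ρ₂ → ∀ c d : V₀, c ≠ 1 → d ≠ 1 →
      N' c d * (ρ₁ c * ρ₂ d) = ∑ᶠ σ : E₀, F (c * σ.1 d) * (ρ₁ (c * σ.1 d) * ρ₂ (σ.1⁻¹ c * d)))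
    (hN2 : ∀ c d : V₀, c ≠ 1 → d ≠ 1 →
      ∑ t ∈ Finset.Icc 1 (ℓ - 1), ∑ s ∈ Finset.Icc 1 (ℓ - 1), N' (c ^ t) (d ^ s) =
        (Nat.card E₀ : ZMod ℓ) * (F c + F d) - (Nat.card E₀ : ZMod ℓ) ^ 2 * k') :
    (k' : ZMod ℓ) = 0 := by
  have hp : ℓ.Prime := Fact.out
  have hcard : Fintype.card E₀ = Nat.card E₀ := (Nat.card_eq_fintype_card).symm
  have hne : ∀ c : V, c ≠ 0 → Additive.toMul (a.symm c) ≠ 1 := by
    intro c hc h0
    apply hc
    apply a.symm.injective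
    rw [map_zero]
    exact h0
  have hLF : LF (lr a E₀) (fun v : V => F (Additive.toMul (a.symm v)))
      (Fintype.card E₀ * (k' : ZMod ℓ)) := by
    refine ⟨by omega, ?_, ?_, ?_, ?_, ?_, ?_⟩
    · have h1 := Module.natCard_eq_pow_finrank (K := ZMod ℓ) (V := V)
      have h2 : Nat.card V = ℓ ^ 2 := by
        rw [← hFr.cd]
        exact Nat.card_congr (a.symm.toEquiv.trans Additive.toMul)
      rw [h2, Nat.card_zmod] at h1
      exact (Nat.pow_right_injective hp.two_le h1).symm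
    · rw [hcard, Ne, ZMod.natCast_eq_zero_iff]
      exact hKCP ℓ V₀ E₀ hFr
    · show F (Additive.toMul (a.symm 0)) = 0
      rw [map_zero]
      exact hF1
    · intro j v hj
      show F (Additive.toMul (a.symm (j • v))) = F (Additive.toMul (a.symm v))
      rw [toMul_symm_smul]
      apply hFp
      intro hd
      apply hj
      have h1 := ZMod.val_lt j
      rw [← ZMod.val_eq_zero]
      exact Nat.eq_zero_of_dvd_of_lt hd h1
    · intro e v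
      show F (Additive.toMul (a.symm (lr a E₀ e v))) = _
      rw [lr_apply, a.symm_apply_apply]
      exact hFe e.1 e.2 _
    · rw [hcard, ← hFs]
      let : Fintype V₀ := Fintype.ofFinite V₀
      rw [finsum_eq_sum_of_fintype]
      exact Fintype.sum_equiv (a.symm.toEquiv.trans Additive.toMul) _ _ (fun _ => rfl)
  have hLN : LN (lr a E₀) (fun v : V => F (Additive.toMul (a.symm v)))
      (fun v w => N' (Additive.toMul (a.symm v)) (Additive.toMul (a.symm w)))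
      (k' : ZMod ℓ) := by
    refine ⟨?_, ?_⟩
    · intro φ ψ c d hc hd
      have h1 := hN1 (fun v => φ (a (Additive.ofMul v))) (fun v => ψ (a (Additive.ofMul v)))
        (fun v w => by
          show φ (a (Additive.ofMul (v * w))) = _
          rw [ofMul_mul, map_add, map_add]) (fun v w => by
          show ψ (a (Additive.ofMul (v * w))) = _
          rw [ofMul_mul, map_add, map_add])
        (Additive.toMul (a.symm c)) (Additive.toMul (a.symm d)) (hne c hc) (hne d hd)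
      rw [finsum_eq_sum_of_fintype] at h1
      have h2 : ∀ v : V, a (Additive.ofMul (Additive.toMul (a.symm v))) = v := fun v =>
        a.apply_symm_apply v
      rw [h2, h2] at h1
      show N' (Additive.toMul (a.symm c)) (Additive.toMul (a.symm d)) * (φ c * ψ d) = _
      rw [h1]
      refine Finset.sum_congr rfl fun e _ => ?_
      have h3 : Additive.toMul (a.symm (c + lr (ℓ := ℓ) a E₀ e d)) =
          Additive.toMul (a.symm c) * e.1 (Additive.toMul (a.symm d)) := by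
        rw [map_add, lr_apply, a.symm_apply_apply]
        rfl
      have h4 : Additive.toMul (a.symm (lr (ℓ := ℓ) a E₀ e⁻¹ c + d)) =
          e.1⁻¹ (Additive.toMul (a.symm c)) * Additive.toMul (a.symm d) := by
        rw [map_add, lr_apply, a.symm_apply_apply]
        rfl
      rw [← h3, ← h4, h2, h2]
    · intro c d hc hd
      have h1 := hN2 _ _ (hne c hc) (hne d hd)
      rw [hcard]
      show _ = (Nat.card E₀ : ZMod ℓ) * (F (Additive.toMul (a.symm c)) +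
        F (Additive.toMul (a.symm d))) - (Nat.card E₀ : ZMod ℓ) ^ 2 * k'
      rw [← h1, ← sum_units ℓ]
      refine Finset.sum_congr rfl fun t _ => ?_
      rw [← sum_units ℓ]
      refine Finset.sum_congr rfl fun s _ => ?_
      show N' (Additive.toMul (a.symm ((t : ZMod ℓ) • c)))
        (Additive.toMul (a.symm ((s : ZMod ℓ) • d))) = _
      rw [toMul_symm_smul, toMul_symm_smul]
  exact hLIA ℓ V E₀ (lr a E₀) _ _ _ hLF hLN

theorem kar (hKM2 : Km2Stmt) (hLIA : LIaStmt) (hKCP : KcpStmt) : KarStmt := by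
  intro ℓ _ h5 V₀ _ _ E₀ hFr D N k hKD
  obtain ⟨F, N', k', hk, hF1, hFp, hFe, hFs, hN1, hN2⟩ := hKM2 ℓ h5 V₀ E₀ hFr D N k hKD
  have hex : ∀ x : Additive V₀, ℓ • x = 0 := fun x => by
    have := hFr.ex (Additive.toMul x)
    apply Additive.toMul.injective
    rw [toMul_nsmul, this]
    rfl
  have hfin : Finite (MulAut V₀) := by
    apply Finite.of_injective (fun σ : MulAut V₀ => (σ : V₀ → V₀))
    exact DFunLike.coe_injective
  have h0 := @core hLIA hKCP ℓ _ h5 V₀ (Additive V₀) _ _ _ (AddCommGroup.zmodModule hex)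
    (Fintype.ofFinite _) (AddEquiv.refl _) E₀ (Fintype.ofFinite _) hFr F N' k' hF1 hFp hFe hFs hN1
    hN2
  rw [ZMod.intCast_zmod_eq_zero_iff_dvd] at h0
  obtain ⟨m, rfl⟩ := h0
  rw [hk]
  refine ⟨m, ?_⟩
  push_cast
  ring

end Pool.Agent.PP.SO.H84
end
end -- Pool.Agent.Helper84_ASO.KAR

section -- Pool.Agent.Helper91_ASO.LQS

/-!
# LQS, LQU: sums of the coefficients; the square root of a scalar (squad ASO, block L)
-/

set_option autoImplicit false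

open scoped BigOperators

noncomputable section

namespace Pool.Agent.PP.SO.H91

theorem two_ne {ℓ : ℕ} [Fact ℓ.Prime] (h : ℓ ≠ 2) : (2 : ZMod ℓ) ≠ 0 := by
  intro h2
  have h3 : ((2 : ℕ) : ZMod ℓ) = 0 := by exact_mod_cast h2
  rw [ZMod.natCast_eq_zero_iff] at h3
  have h4 := (Nat.prime_dvd_prime_iff_eq Fact.out Nat.prime_two).mp h3
  exact h h4

section

variable {ℓ : ℕ} [Fact ℓ.Prime] {V : Type} [AddCommGroup V] [Module (ZMod ℓ) V]

theorem one_ne (h : Module.finrank (ZMod ℓ) V = 2) : (1 : Module.End (ZMod ℓ) V) ≠ 0 := by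
  have : Nontrivial V := by
    refine Module.nontrivial_of_finrank_pos (R := ZMod ℓ) ?_
    rw [h]; norm_num
  exact one_ne_zero

/-- `1` and an operator which is not scalar are linearly independent -/
theorem indep (h : Module.finrank (ZMod ℓ) V = 2) {u : Module.End (ZMod ℓ) V}
    (hu : ∀ x : ZMod ℓ, u ≠ x • 1) {x y : ZMod ℓ}
    (hxy : x • (1 : Module.End (ZMod ℓ) V) + y • u = 0) : x = 0 ∧ y = 0 := by
  have hy : y = 0 := by
    by_contra hy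
    apply hu (-(y⁻¹ * x))
    have h1 : y • u = -(x • (1 : Module.End (ZMod ℓ) V)) := by
      rw [eq_neg_iff_add_eq_zero, add_comm]; exact hxy
    calc u = y⁻¹ • (y • u) := by rw [smul_smul, inv_mul_cancel₀ hy, one_smul]
      _ = -(y⁻¹ * x) • 1 := by rw [h1, smul_neg, smul_smul, neg_smul]
  refine ⟨?_, hy⟩
  rw [hy, zero_smul, add_zero] at hxy
  rcases smul_eq_zero.mp hxy with h1 | h1
  · exact h1
  · exact absurd h1 (one_ne h)

theorem indep2 (h : Module.finrank (ZMod ℓ) V = 2) {u : Module.End (ZMod ℓ) V}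
    (hu : ∀ x : ZMod ℓ, u ≠ x • 1) {x y x' y' : ZMod ℓ}
    (hxy : x • (1 : Module.End (ZMod ℓ) V) + y • u = x' • 1 + y' • u) : x = x' ∧ y = y' := by
  have h1 : (x - x') • (1 : Module.End (ZMod ℓ) V) + (y - y') • u = 0 := by
    rw [sub_smul, sub_smul]
    calc x • (1 : Module.End (ZMod ℓ) V) - x' • 1 + (y • u - y' • u) =
        (x • (1 : Module.End (ZMod ℓ) V) + y • u) - (x' • 1 + y' • u) := by abel
      _ = 0 := by rw [hxy, sub_self]
  obtain ⟨h2, h3⟩ := indep h hu h1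
  exact ⟨sub_eq_zero.mp h2, sub_eq_zero.mp h3⟩

theorem prod_form {u : Module.End (ZMod ℓ) V} {D : ZMod ℓ} (hu : u * u = D • 1)
    (a b a' b' : ZMod ℓ) :
    (a • (1 : Module.End (ZMod ℓ) V) + b • u) * (a' • 1 + b' • u) =
      (a * a' + b * b' * D) • 1 + (a * b' + b * a') • u := by
  rw [add_mul, mul_add, mul_add, smul_mul_smul_comm, smul_mul_smul_comm, smul_mul_smul_comm,
    smul_mul_smul_comm, hu, mul_one, one_mul, mul_one]
  module

end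

theorem lqs : LQsStmt := by
  intro ℓ _ V Γ _ _ _ _ _ ρ hℓ hfr u D a b e₀ hD huu hu hρ hb
  have h2 : (2 : ZMod ℓ) ≠ 0 := two_ne hℓ
  have hinv : ∀ e, ρ e * ρ e⁻¹ = 1 := fun e => by rw [← map_mul, mul_inv_cancel, map_one]
  have hinv' : ∀ e, ρ e⁻¹ * ρ e = 1 := fun e => by rw [← map_mul, inv_mul_cancel, map_one]
  have hq : ∀ e, a e ^ 2 - b e ^ 2 * D ≠ 0 := by
    intro e h0
    have h1 : ρ e * (a e • 1 + (-b e) • u) = 0 := by
      rw [hρ e, prod_form huu]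
      have h3 : a e * a e + b e * -b e * D = 0 := by
        rw [← h0]; ring
      have h4 : a e * -b e + b e * a e = 0 := by ring
      rw [h3, h4, zero_smul, zero_smul, add_zero]
    have h3 : a e • (1 : Module.End (ZMod ℓ) V) + (-b e) • u = 0 := by
      calc a e • (1 : Module.End (ZMod ℓ) V) + (-b e) • u =
          (ρ e⁻¹ * ρ e) * (a e • 1 + (-b e) • u) := by rw [hinv', one_mul]
        _ = 0 := by rw [mul_assoc, h1, mul_zero]
    obtain ⟨h4, h5⟩ := indep hfr hu h3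
    have h6 : ρ e = 0 := by
      rw [hρ e, h4, neg_eq_zero.mp h5, zero_smul, zero_smul, add_zero]
    have h7 := hinv e
    rw [h6, zero_mul] at h7
    exact one_ne hfr h7.symm
  have hρi : ∀ e, ρ e⁻¹ = (a e / (a e ^ 2 - b e ^ 2 * D)) • 1 -
      (b e / (a e ^ 2 - b e ^ 2 * D)) • u := by
    intro e
    have hqe := hq e
    have h1 : ρ e * ((a e / (a e ^ 2 - b e ^ 2 * D)) • 1 +
        (-(b e / (a e ^ 2 - b e ^ 2 * D))) • u) = 1 := by
      conv_lhs => rw [hρ e]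
      rw [prod_form huu]
      have h3 : a e * (a e / (a e ^ 2 - b e ^ 2 * D)) +
          b e * -(b e / (a e ^ 2 - b e ^ 2 * D)) * D = 1 := by
        field_simp
        ring
      have h4 : a e * -(b e / (a e ^ 2 - b e ^ 2 * D)) +
          b e * (a e / (a e ^ 2 - b e ^ 2 * D)) = 0 := by
        ring
      rw [h3, h4, zero_smul, add_zero, one_smul]
    calc ρ e⁻¹ = ρ e⁻¹ * (ρ e * ((a e / (a e ^ 2 - b e ^ 2 * D)) • 1 +
          (-(b e / (a e ^ 2 - b e ^ 2 * D))) • u)) := by rw [h1, mul_one]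
      _ = (a e / (a e ^ 2 - b e ^ 2 * D)) • 1 + (-(b e / (a e ^ 2 - b e ^ 2 * D))) • u := by
          rw [← mul_assoc, hinv', one_mul]
      _ = _ := by module
  have hab : ∀ e e', a (e * e') = a e * a e' + b e * b e' * D ∧
      b (e * e') = a e * b e' + b e * a e' := by
    intro e e'
    refine indep2 hfr hu ?_
    rw [← hρ, map_mul, hρ e, hρ e', prod_form huu]
  -- the sums
  obtain ⟨q, hqd⟩ : ∃ q : Γ → ZMod ℓ, ∀ e, q e = a e ^ 2 - b e ^ 2 * D := ⟨_, fun _ => rfl⟩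
  have hq' : ∀ e, q e ≠ 0 := fun e => by rw [hqd]; exact hq e
  have hqm : ∀ e e', q (e * e') = q e * q e' := by
    intro e e'
    rw [hqd, hqd, hqd, (hab e e').1, (hab e e').2]
    ring
  obtain ⟨x, hx⟩ : ∃ x : Γ → ZMod ℓ, ∀ e, x e = (a e ^ 2 + b e ^ 2 * D) / q e :=
    ⟨_, fun _ => rfl⟩
  obtain ⟨y, hy⟩ : ∃ y : Γ → ZMod ℓ, ∀ e, y e = 2 * a e * b e / q e := ⟨_, fun _ => rfl⟩
  have hxm : ∀ e, x (e * e₀) = x e * x e₀ + D * y e * y e₀ := by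
    intro e
    have := hq' e
    have := hq' e₀
    rw [hx, hx, hx, hy, hy, hqm, (hab e e₀).1, (hab e e₀).2]
    field_simp
    ring
  have hym : ∀ e, y (e * e₀) = x e * y e₀ + y e * x e₀ := by
    intro e
    have := hq' e
    have := hq' e₀
    rw [hy, hx, hx, hy, hy, hqm, (hab e e₀).1, (hab e e₀).2]
    field_simp
    ring
  obtain ⟨X, hX⟩ : ∃ X : ZMod ℓ, X = ∑ e, x e := ⟨_, rfl⟩
  obtain ⟨Y, hY⟩ : ∃ Y : ZMod ℓ, Y = ∑ e, y e := ⟨_, rfl⟩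
  have hX1 : X = X * x e₀ + D * Y * y e₀ := by
    calc X = ∑ e, x (e * e₀) := by
          rw [hX]; exact (Equiv.sum_comp (Equiv.mulRight e₀) x).symm
      _ = ∑ e, (x e * x e₀ + D * y e * y e₀) := Finset.sum_congr rfl fun e _ => hxm e
      _ = X * x e₀ + D * Y * y e₀ := by
          rw [Finset.sum_add_distrib, ← Finset.sum_mul, ← Finset.sum_mul, ← Finset.mul_sum, ← hX,
            ← hY]
  have hY1 : Y = X * y e₀ + Y * x e₀ := by
    calc Y = ∑ e, y (e * e₀) := by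
          rw [hY]; exact (Equiv.sum_comp (Equiv.mulRight e₀) y).symm
      _ = ∑ e, (x e * y e₀ + y e * x e₀) := Finset.sum_congr rfl fun e _ => hym e
      _ = X * y e₀ + Y * x e₀ := by
          rw [Finset.sum_add_distrib, ← Finset.sum_mul, ← Finset.sum_mul, ← hX, ← hY]
  have hn : x e₀ ^ 2 - D * y e₀ ^ 2 = 1 := by
    have h1 := hq' e₀
    have h3 : q e₀ ^ 2 ≠ 0 := pow_ne_zero 2 h1
    have h4 : (a e₀ ^ 2 + b e₀ ^ 2 * D) ^ 2 - D * (2 * a e₀ * b e₀) ^ 2 = q e₀ ^ 2 := by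
      rw [hqd]; ring
    rw [hx, hy, div_pow, div_pow, mul_div_assoc', div_sub_div_same, h4, div_self h3]
  have hx0 : 1 - x e₀ ≠ 0 := by
    have h1 := hq' e₀
    have h3 : (1 - x e₀) * q e₀ = -(2 * D) := by
      rw [hx, sub_mul, div_mul_cancel₀ _ h1, hqd, hb]
      ring
    intro h4
    rw [h4, zero_mul] at h3
    exact mul_ne_zero h2 hD (neg_eq_zero.mp h3.symm)
  have hX0 : X = 0 := by
    have h1 : 2 * (1 - x e₀) * X = 0 := by
      have h3 : (1 - x e₀) * X = D * Y * y e₀ := by linear_combination hX1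
      have h4 : (1 - x e₀) * Y = X * y e₀ := by linear_combination hY1
      have h5 : (1 - x e₀) * ((1 - x e₀) * X) = D * y e₀ ^ 2 * X := by
        rw [h3]
        linear_combination D * y e₀ * h4
      linear_combination h5 - X * hn
    rcases mul_eq_zero.mp h1 with h3 | h3
    · exact absurd h3 (mul_ne_zero h2 hx0)
    · exact h3
  have hY0 : Y = 0 := by
    have h1 : (1 - x e₀) * Y = 0 := by
      rw [hX0, zero_mul, zero_add] at hY1
      linear_combination hY1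
    rcases mul_eq_zero.mp h1 with h3 | h3
    · exact absurd h3 hx0
    · exact h3
  -- conclusion
  have hs1 : ∑ e, a e ^ 2 / q e + D * ∑ e, b e ^ 2 / q e = 0 := by
    rw [← hX0, hX, Finset.mul_sum, ← Finset.sum_add_distrib]
    refine Finset.sum_congr rfl fun e _ => ?_
    rw [hx]
    ring
  have hs2 : ∑ e, a e ^ 2 / q e - D * ∑ e, b e ^ 2 / q e = Fintype.card Γ := by
    rw [Finset.mul_sum, ← Finset.sum_sub_distrib]
    have h1 : ∀ e ∈ (Finset.univ : Finset Γ), a e ^ 2 / q e - D * (b e ^ 2 / q e) = 1 := by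
      intro e _
      have h3 : a e ^ 2 / q e - D * (b e ^ 2 / q e) = (a e ^ 2 - b e ^ 2 * D) / q e := by ring
      rw [h3, ← hqd, div_self (hq' e)]
    rw [Finset.sum_congr rfl h1]
    simp
  have hs3 : 2 * ∑ e, a e * b e / q e = 0 := by
    rw [← hY0, hY, Finset.mul_sum]
    refine Finset.sum_congr rfl fun e _ => ?_
    rw [hy]
    ring
  refine ⟨hq, hρi, ?_, ?_, ?_⟩
  · simp only [← hqd]
    linear_combination hs1 + hs2
  · simp only [← hqd]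
    linear_combination hs1 - hs2
  · simp only [← hqd]
    rcases mul_eq_zero.mp hs3 with h3 | h3
    · exact absurd h3 h2
    · exact h3

theorem lqu (hLcm : LCmStmt) : LQuStmt := by
  intro ℓ _ V Γ _ _ _ _ _ ρ hℓ hfr hcard e₀ θ hg hθ hcom
  have h2 : (2 : ZMod ℓ) ≠ 0 := two_ne hℓ
  obtain ⟨g, hgd⟩ : ∃ g : Module.End (ZMod ℓ) V, g = ρ e₀ := ⟨_, rfl⟩
  rw [← hgd] at hg
  obtain ⟨-, hco, t, m, htm⟩ := hLcm ℓ V hfr g hg
  obtain ⟨s, hs⟩ : ∃ s : ZMod ℓ, s = t / 2 := ⟨_, rfl⟩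
  have hts : t = 2 * s := by rw [hs]; field_simp
  obtain ⟨u, hu⟩ : ∃ u : Module.End (ZMod ℓ) V, u = g - s • 1 := ⟨_, rfl⟩
  have hgu : g = s • 1 + (1 : ZMod ℓ) • u := by rw [hu, one_smul]; abel
  obtain ⟨D, hDd⟩ : ∃ D : ZMod ℓ, D = s ^ 2 - m := ⟨_, rfl⟩
  have huu : u * u = D • 1 := by
    rw [hu, sub_mul, mul_sub, mul_sub, smul_mul_smul_comm, htm, mul_smul_comm, smul_mul_assoc,
      mul_one, one_mul, mul_one, hts, hDd]
    module
  have hus : ∀ x : ZMod ℓ, u ≠ x • 1 := by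
    intro x hx
    apply hg (s + x)
    rw [hgu, hx, one_smul, add_smul]
  have hgi : g * ρ e₀⁻¹ = 1 := by rw [hgd, ← map_mul, mul_inv_cancel, map_one]
  have hD : D ≠ 0 := by
    intro hD0
    rw [hD0, zero_smul] at huu
    have hpow : ∀ k : ℕ, g ^ (k + 1) = s ^ (k + 1) • 1 + (((k + 1 : ℕ) : ZMod ℓ) * s ^ k) • u := by
      intro k
      induction k with
      | zero =>
        rw [zero_add, pow_one, pow_one, pow_zero, Nat.cast_one, mul_one]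
        exact hgu
      | succ k ih =>
        rw [pow_succ, ih]
        conv_lhs => rw [hgu]
        rw [prod_form (D := 0) (by rw [huu, zero_smul])]
        push_cast
        have h3 : s ^ (k + 1) * s + ((k : ZMod ℓ) + 1) * s ^ k * 1 * 0 = s ^ (k + 1 + 1) := by ring
        have h4 : s ^ (k + 1) * 1 + ((k : ZMod ℓ) + 1) * s ^ k * s =
            ((k : ZMod ℓ) + 1 + 1) * s ^ (k + 1) := by ring
        rw [h3, h4]
    have hn1 : g ^ Fintype.card Γ = 1 := by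
      rw [hgd, ← map_pow, pow_card_eq_one, map_one]
    obtain ⟨n, hn⟩ : ∃ n : ℕ, Fintype.card Γ = n + 1 :=
      ⟨Fintype.card Γ - 1, (Nat.succ_pred_eq_of_pos Fintype.card_pos).symm⟩
    rw [hn, hpow n] at hn1
    rw [hn] at hcard
    have h3 : s ^ (n + 1) • (1 : Module.End (ZMod ℓ) V) + (((n + 1 : ℕ) : ZMod ℓ) * s ^ n) • u =
        (1 : ZMod ℓ) • 1 + (0 : ZMod ℓ) • u := by
      rw [hn1, one_smul, zero_smul, add_zero]
    obtain ⟨h4, h5⟩ := indep2 hfr hus h3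
    rcases mul_eq_zero.mp h5 with h6 | h6
    · exact hcard h6
    · have h7 : s ^ (n + 1) = 0 := by rw [pow_succ, h6, zero_mul]
      rw [h7] at h4
      exact zero_ne_one h4
  have hex : ∀ e, ∃ a b : ZMod ℓ, ρ e = a • 1 + b • u := by
    intro e
    obtain ⟨a, b, hab⟩ := hco θ (ρ e) hθ (by rw [hgd]; exact hcom e₀) (hcom e)
    refine ⟨a + b * s, b, ?_⟩
    rw [hab, hgu]
    module
  choose a b hab using hex
  refine ⟨u, D, a, b, hD, huu, hus, hab, ?_⟩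
  have h3 : a e₀ • (1 : Module.End (ZMod ℓ) V) + b e₀ • u = s • 1 + (1 : ZMod ℓ) • u := by
    rw [← hab, ← hgd]
    exact hgu
  exact (indep2 hfr hus h3).2

end Pool.Agent.PP.SO.H91
end
end -- Pool.Agent.Helper91_ASO.LQS

section -- Pool.Agent.Helper92_ASO.LIA

/-!
# Squad ASO, row LIA: the conclusion of the linear algebra
-/

open scoped BigOperators

noncomputable section

namespace Pool.Agent.PP.SO.H92

/-- the averages commute with the group -/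
theorem avg_comm {ℓ : ℕ} {V Γ : Type} [AddCommGroup V] [Module (ZMod ℓ) V]
    [Group Γ] [Fintype Γ] (ρ : Γ →* Module.End (ZMod ℓ) V) (A : Module.End (ZMod ℓ) V) (e₁ : Γ) :
    (∑ e : Γ, ρ e * A * ρ e⁻¹) * ρ e₁ = ρ e₁ * ∑ e : Γ, ρ e * A * ρ e⁻¹ := by
  rw [Finset.sum_mul, Finset.mul_sum, ← Equiv.sum_comp (Equiv.mulLeft e₁)
    (fun e : Γ => ρ e * A * ρ e⁻¹ * ρ e₁)]
  refine Finset.sum_congr rfl fun e _ => ?_
  show ρ (e₁ * e) * A * ρ (e₁ * e)⁻¹ * ρ e₁ = ρ e₁ * (ρ e * A * ρ e⁻¹)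
  rw [mul_assoc _ (ρ (e₁ * e)⁻¹), ← map_mul, mul_inv_rev, inv_mul_cancel_right, map_mul]
  simp only [mul_assoc]

/-- **LIA** -/
theorem lia (lhf : LHfStmt) (lid : LIdStmt) (lc1 : LC1Stmt) (lc2 : LC2Stmt) (lc3 : LC3Stmt) :
    LIaStmt := by
  intro ℓ _ V Γ _ _ _ _ _ ρ F N s₀ hF hN
  obtain ⟨h, hh⟩ := lhf ℓ V Γ ρ F _ hF
  have hI := lid ℓ V Γ ρ F N s₀ h hF hN hh
  have h0 : (Fintype.card Γ : ZMod ℓ) * s₀ = 0 := by
    by_cases hA : ∀ A : Module.End (ZMod ℓ) V, ∃ a : ZMod ℓ, ∑ e : Γ, ρ e * A * ρ e⁻¹ = a • 1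
    · exact lc1 ℓ V Γ ρ F _ h hF hh hI hA
    · rw [not_forall] at hA
      obtain ⟨A, hA⟩ := hA
      rw [not_exists] at hA
      by_cases hS : ∀ e : Γ, ∃ a : ZMod ℓ, ρ e = a • 1
      · exact lc2 ℓ V Γ ρ F _ h hF hh hI hS
      · rw [not_forall] at hS
        obtain ⟨e₀, hS⟩ := hS
        rw [not_exists] at hS
        exact lc3 ℓ V Γ ρ F _ h hF hh hI e₀ _ hS hA fun e => avg_comm ρ A e
  exact (mul_eq_zero.1 h0).resolve_left hF.cp

end Pool.Agent.PP.SO.H92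
end
end -- Pool.Agent.Helper92_ASO.LIA
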