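import Pool.Agent.Helper12_AWB.B128

/-!
# Merged copies (generated) of the modules

* `Pool.Agent.ASO.Stmts4`
* `Pool.Agent.ASO.StmtsH`
* `Pool.Agent.ASO.StmtsH2`
* `Pool.Agent.ASO.Stmts5`
* `Pool.Agent.ASD.DefsD`
* `Pool.Agent.ASD.Stmts3`
* `Pool.Agent.ASD.Stmts4`
* `Pool.Agent.Helper77_ASO.HCO`
-/

set_option autoImplicit false

section -- Pool.Agent.ASO.Stmts4

/-!
# Squad ASO, statements 4: the counting and the comparison of two groups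

Complete proofs in the docstrings.  `V = i(V₀)`, `C₁ = C W₁`, ....  `X ^ m` is the `ℓ`-part of `X` (`PE`): if
`X = i(x) s` with `s` regular commuting with `i(x)` then `X ^ m = i(x)` (`i(x) ^ m = i(x)`, `s ^ m = 1`).
`bh B W` vanishes outside of the regular elements of `C W` (`ext0`, `eh_sing`).
-/

open scoped BigOperators

noncomputable section

namespace Pool.Agent.PP.SO

open Pool.Agent.Helper51_AWC Pool.Agent.Helper79_WRA Pool.Agent.PP Pool.Agent.PP.KF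
open Pool.Agent.PP.K9 Pool.Agent.PP.K9.H97 Pool.Agent.PP.H75 Pool.Agent.PP.T3

attribute [local instance] Ideal.Quotient.field

/-- the subgroup generated by the first components -/
def p1 {V₀ : Type} [CommGroup V₀] (L : Set (V₀ × V₀ × ℤ)) : Subgroup V₀ :=
  Subgroup.closure {p | ∃ s ∈ L, s.1 = p}

/-- the subgroup generated by the second components -/
def p2 {V₀ : Type} [CommGroup V₀] (L : Set (V₀ × V₀ × ℤ)) : Subgroup V₀ :=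
  Subgroup.closure {q | ∃ s ∈ L, s.2.1 = q}

/-- GPR: the product of the elements `f_x`, `f_(x'⁻¹)` under the conditions of `L`.

Proof.  `W₁ = p1 L`, `W₂ = p2 L`, `W = W₁ ⊔ ⟨x⟩`, `W' = W₂ ⊔ ⟨x'⟩`.  Insert the definition of `fc`: the left side is
`(|C W| |C W'|)⁻¹` times the sum over `(X, u)` and `z ∈ C₁`, `z' ∈ C₂` of `bh W (s) bh W' (s')`,
`s = i(x)⁻¹ z⁻¹ X z`, `s' = i(x') z'⁻¹ u⁻¹ X⁻¹ u z'`.  Substitute `X = z i(x) s z⁻¹`, `u = z w z'⁻¹` (for fixed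
`z`, `z'`: `(X, u) ↔ (s, w)`).  If the term is not `0`: `s ∈ C W` regular, so `X ^ m = z i(x) z⁻¹`; the condition
`u i(q) u⁻¹ = i(p) (X^m)^k` becomes `w i(q) w⁻¹ = i(p x^k)` (`z` commutes with `i(p)`, `z'` with `i(q)`).
`i(x')⁻¹ s' = w⁻¹ s⁻¹ i(x)⁻¹ w`; the `m`-th powers are `i(x')⁻¹` and `w⁻¹ i(x)⁻¹ w`, so `w i(x') w⁻¹ = i(x)` and
`s' = w⁻¹ s⁻¹ w`.  So the sum is `|C₁| |C₂|/(|C W| |C W'|)` times the sum over the `w` with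
`w i(x') w⁻¹ = i(x)`, `w i(q) w⁻¹ = i(p x^k)` (all of `L`) of `∑_s bh W s bh W' (w⁻¹ s⁻¹ w)`.  Such a `w` maps
`i(W')` onto `i(W)`, `W = ⟨x, p x^k⟩`, so `C W = w C W' w⁻¹`, the function `s ↦ bh W' (w⁻¹ s w)` is the lift
of the block `cj w (b W')` of `C W`, and the sum is the value at `1` of a product of two block
idempotents: `0`, or, if `cj w (b W') = b W`, `bh W 1 = ℓ² (D W)²/|C W|` (NSV (7)).  By FUW for such `w` there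
is `σ ∈ E₀` with `σ x' = x`, `σ q = p x^k`, and `w ∈ t C W'`, `t ∈ T` acting by `σ`; conversely for
such `σ` the elements of `t C W'` satisfy everything (`cj t (b W') = b (σ W') = b W`: CJT).  `σ` is
determined by `w` (`W' ≠ ⊥`, free action).  So the number of the `w` is `|C W'|` times the number of the
`σ`; `τ = σ⁻¹`; `|C W'| = |C W|`. -/
def GprStmt : Prop := ∀ (ℓ : ℕ) [Fact ℓ.Prime] (M : Ideal (integralClosure ℤ ℂ)) [M.IsMaximal],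
  (ℓ : integralClosure ℤ ℂ) ∈ M → ℓ ≠ 2 → ∀ (V₀ G : Type) [CommGroup V₀] [Finite V₀] [Group G]
  [Finite G] (E₀ : Subgroup (MulAut V₀)), Fr ℓ V₀ E₀ → ∀ B : Bk (FF M) V₀ G, Sy ℓ M E₀ B →
  ∀ n m : ℕ, PE ℓ n m G → ∀ L : Set (V₀ × V₀ × ℤ), p1 L ≠ ⊥ → p2 L ≠ ⊥ → ∀ x x' : V₀,
  ∑ᶠ w ∈ {w : G × G | ∀ s ∈ L, w.2 * B.i s.2.1 * w.2⁻¹ = B.i s.1 * (w.1 ^ m) ^ s.2.2},
    fc B (p1 L) x w.1 * fc B (p2 L) x'⁻¹ (w.2⁻¹ * w.1⁻¹ * w.2) =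
  (Nat.card (B.C (p1 L)) : ℂ) * Nat.card (B.C (p2 L)) *
    (ℓ ^ 2 * B.D (p1 L ⊔ Subgroup.zpowers x) ^ 2 /
      (Nat.card (B.C (p1 L ⊔ Subgroup.zpowers x)) : ℂ) ^ 2) *
    {τ : MulAut V₀ | τ ∈ E₀ ∧ τ x = x' ∧ ∀ s ∈ L, τ (s.1 * x ^ s.2.2) = s.2.1}.ncard

/-- SSL: the sums `SL`.

Proof.  `W₁ = p1 L`, `W₂ = p2 L`.  NSV (4): `χ(X) = (|C₁|/(ℓ² D₁)) ∑_x conj λ(x)/ux₁(x) · fc W₁ x X⁻¹`,
`χ'(u⁻¹ X⁻¹ u) = (|C₂|/(ℓ² D₂)) ∑_x' conj λ'(x')/ux₂(x') · fc W₂ x' (u⁻¹ X u)`, `λ = lam χ`, `λ' = lam χ'`.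
Replace `X` by `X⁻¹` (this changes `L` to `L⁻ = {(p, q, -k)}`, `p1`, `p2` are the same) and use GPR for
`L⁻` with `x'⁻¹` for `x'`: only `x' = τ(x)⁻¹` counts, `τ (p x^(-k)) = q`; put `y = x⁻¹`: `x' = τ y`,
`conj λ(x) = λ(y)` (values are roots of unity), `ux₁(x) = ux₁(y)`.  So
`SL = (|C₁| |C₂|/(ℓ⁴ D₁ D₂)) |C₁| |C₂| ∑_(τ, y) λ(y) conj λ'(τ y) ℓ² (D_W/|C W|)²/(ux₁(y) ux₂(τ y))`, `W = W₁ ⊔ ⟨y⟩`,
`τ (p y^k) = q`.  By the definition of `U`: `D_W/|C W| = ux₁(y) ε₁ D₁/|C₁|`, `ε₁ = 1` if `y ∈ W₁`, `S W₁`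
otherwise (then `W = ⊤`, `S W₁ ^ 2 = 1`), and in the same way for `W' = W₂ ⊔ ⟨τ y⟩ = τ W` (`D_W' = D_W`,
`|C W'| = |C W|`: CJT) `= ux₂(τ y) ε₂ D₂/|C₂|`.  So the term is `λ(y) conj λ'(τ y) ε₁ ε₂ ℓ² D₁ D₂/(|C₁| |C₂|)`.
Signs: `ε₁ ε₂ = S W₁ S W₂` (`S ⊤ = 1`: `U ⊤ = S ⊤ ≡ 1`, `ℓ ≠ 2`): `τ⁻¹ W₂` is generated by the `p y^k`.  If `W₁`,
`W₂` are `⊤` clear.  If `W₁` is a line and `W₂ = ⊤` then `y ∉ W₁`.  If `W₁ = ⊤`, `W₂` a line: `τ y ∉ W₂`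
(otherwise `y, p ∈ τ⁻¹ W₂` for all `p`).  Both lines: if `y ∈ W₁` then `τ⁻¹ W₂ ≤ W₁`, `τ W₁ = W₂ ∋ τ y`,
`ε₁ ε₂ = 1` and `S W₂ = S W₁` (CJT); if `y ∉ W₁` then `τ y ∉ W₂` (otherwise `y, p ∈ τ⁻¹ W₂`, all `p`,
`W₁ = τ⁻¹ W₂ ∋ y`). -/
def SslStmt : Prop := ∀ (ℓ : ℕ) [Fact ℓ.Prime] (M : Ideal (integralClosure ℤ ℂ)) [M.IsMaximal],
  (ℓ : integralClosure ℤ ℂ) ∈ M → ℓ ≠ 2 → ∀ (V₀ G : Type) [CommGroup V₀] [Finite V₀] [Group G]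
  [Finite G] (E₀ : Subgroup (MulAut V₀)), Fr ℓ V₀ E₀ → ∀ B : Bk (FF M) V₀ G, Sy ℓ M E₀ B →
  ∀ n m : ℕ, PE ℓ n m G → ∀ L : Set (V₀ × V₀ × ℤ), p1 L ≠ ⊥ → p2 L ≠ ⊥ →
  ∀ χ ∈ Ch B (p1 L), ∀ χ' ∈ Ch B (p2 L), SL B m L χ χ' =
    (Nat.card (B.C (p1 L)) : ℂ) * Nat.card (B.C (p2 L)) / ℓ ^ 2 * (B.S (p1 L) * B.S (p2 L)) *
    ∑ᶠ w ∈ {w : MulAut V₀ × V₀ | w.1 ∈ E₀ ∧ ∀ s ∈ L, w.1 (s.1 * w.2 ^ s.2.2) = s.2.1},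
      lam B (p1 L) χ w.2 * starRingEnd ℂ (lam B (p2 L) χ' (w.1 w.2))

/-- WTH: the value of `W13`.

Proof.  `W₁ = pL L`, `W₂ = qL L`, `C₁`, `C₂`.  For `g = i(c) s`, `h = i(d) t` and `(x, y, u)` with
`[x, y] = g (u h u⁻¹)` let `X = g⁻¹ x`, `w = y⁻¹ u`: `g = x X⁻¹`, `h = (u⁻¹ X u)(w⁻¹ x⁻¹ w)`.  The condition `c13`
for `(i, j, p, q)` is: `p` commutes with `x`; `u q u⁻¹ = (X^m)^(-j) p`; `w q w⁻¹ = (x^m)^i p`.  Terms are `0`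
unless `s ∈ C(W₁ ⊔ ⟨c⟩)`; then `g ∈ C₁`, `X ∈ C₁`, and the conditions are: `x, X ∈ C₁`,
`u q u⁻¹ = p (X^m)^(-j)`, `w q w⁻¹ = p (x^m)^i` (`L₋ = {(p, q, -j)}`, `L₊ = {(p, q, i)}`).  So `W13` is a sum over
independent pairs `(X, u)` and `(x, w)`.  Conjugate everything with `z ∈ C₁` and `z' ∈ C₂`
(`(x, X, u, w) ↦ (z x z⁻¹, z X z⁻¹, z u z'⁻¹, z w z'⁻¹)`) and take the mean:
`W13 = (|C₁| |C₂|)⁻¹ ∑ fc W₁ c (x X⁻¹) fc W₂ d ((u⁻¹ X u)(w⁻¹ x⁻¹ w))`.  By NSV (3), (6):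
`fc W₁ c (g) = ∑_(χ ∈ Ch W₁) cv(fc W₁ c) χ (D₁/|C₁|) χ(g⁻¹)`.  Now conjugate `(X, u)` alone,
`(z X z⁻¹, z u z'⁻¹)`: `|C₁|⁻¹ ∑_z χ(z X z⁻¹ x⁻¹) = χ(X) χ(x⁻¹)/D₁`, and the same for `z'`.  So
`W13 = (|C₁| |C₂|)⁻² ∑_(χ, χ') cv(fc c) χ cv(fc d) χ' SL(L₋; χ, χ') conj SL(L₊; χ, χ')`.  SSL, and
`cv(fc c) χ = ux₁(c) λ(c)` (NSV): the sum over `χ` (`λ` runs over all linear characters, NSV (1))
gives `ℓ²` if `c X = x` and `0` otherwise, the sum over `χ'` gives `ℓ²` if `d σ'(x) = σ(X)`.  Signs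
`(S W₁ S W₂)² = 1`. -/
def WthStmt : Prop := ∀ (ℓ : ℕ) [Fact ℓ.Prime] (M : Ideal (integralClosure ℤ ℂ)) [M.IsMaximal],
  (ℓ : integralClosure ℤ ℂ) ∈ M → ℓ ≠ 2 → ∀ (V₀ G : Type) [CommGroup V₀] [Finite V₀] [Group G]
  [Finite G] (E₀ : Subgroup (MulAut V₀)), Fr ℓ V₀ E₀ → ∀ B : Bk (FF M) V₀ G, Sy ℓ M E₀ B →
  ∀ n m : ℕ, PE ℓ n m G → ∀ (c d : V₀) (L : Set (SS n V₀)), pL L ≠ ⊥ → qL L ≠ ⊥ →
  W13 B m c d L = ((P13 E₀ B.U c d L : ℚ) : ℂ)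

/-- W12A: `W12` in terms of the numbers `HK`.

Proof.  `W₁ = pL L`, `W₂ = qL L`.  With `κ = [x, y]` and `a = (κ^m)^k p` the condition `c12` for `(i, k, p, q)` is:
`u q u⁻¹ = p`, `a x = x a`, `y⁻¹ a y = a (x^m)^i`.  If `W₁ = ⊥` and `W₂ ≠ ⊥` there is no `u`: `W12 = 0`.
Let `W₁ ≠ ⊥`, `R(κ)` the number of the `(x, y)` with `[x, y] = κ` and the conditions for the
`a = (κ^m)^k p`: a class function on `C₁`.  `W12 = (|C(W₁ ⊔ ⟨c⟩)| |C(W₂ ⊔ ⟨d⟩)|)⁻¹ ∑_(s, t) bh s bh t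
∑_u R(i(c) s · u i(d) t u⁻¹)` (`u q u⁻¹ = p` for all of `L`); the set of the `u` is invariant under `C₁` (left) and
`C₂` (right), so by taking means `W12 = (|C₁| |C₂|)⁻¹ ∑_u ∑_(g, h) fc W₁ c g fc W₂ d h R(g u h u⁻¹)`.  If there is no
`u` both sides are `0` (`EL = ∅`, see below).  Let `u` be given: `u i(W₂) u⁻¹ = i(W₁)`, `W₂ ≠ ⊥`;
`h' = u h u⁻¹`: `∑_κ (fc W₁ c * (conjugate of fc W₂ d)) (κ) R(κ)`; `fc W₁ c` is a multiple of the lift of `b W₁`, the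
conjugate a multiple of the lift of `cj u (b W₂)` (NSV (3)), both central in the group ring of `C₁`, so the
product is `0` unless `cj u (b W₂) = b W₁`.  In this case by FUW `p = σ q` for all of `L`, `σ ∈ E₀`,
`u ∈ t C₂`, `t` acting by `σ`, and the conjugate of `fc W₂ d` is `fc W₁ (σ d)` (CJT).  Each `σ ∈ EL` belongs to
`|C₂|` elements `u` (and `σ` is determined by `u`, `W₂ ≠ ⊥`).  With MUL:
`W12 = |C₁|⁻¹ ∑_σ (ux c ux (σ d)/ux (c σ d)) ∑_g fc W₁ (c σ d) g R(g)`.  With `κ = c σ d` and the definition of `fc`: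
`|C₁|⁻¹ ∑_g fc W₁ κ g R(g) = |C(W₁ ⊔ ⟨κ⟩)|⁻¹ ∑_s bh (W₁ ⊔ ⟨κ⟩) s R(i(κ) s)`, `(i(κ) s)^m = i(κ)`, which is `HK B m κ L`
(`aL κ L ⊔ ⟨κ⟩ = W₁ ⊔ ⟨κ⟩`). -/
def W12AStmt : Prop := ∀ (ℓ : ℕ) [Fact ℓ.Prime] (M : Ideal (integralClosure ℤ ℂ)) [M.IsMaximal],
  (ℓ : integralClosure ℤ ℂ) ∈ M → ℓ ≠ 2 → ∀ (V₀ G : Type) [CommGroup V₀] [Finite V₀] [Group G]
  [Finite G] (E₀ : Subgroup (MulAut V₀)), Fr ℓ V₀ E₀ → ∀ B : Bk (FF M) V₀ G, Sy ℓ M E₀ B →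
  ∀ n m : ℕ, PE ℓ n m G → ∀ (c d : V₀) (L : Set (SS n V₀)),
  (pL L = ⊥ → qL L ≠ ⊥ → W12 B m c d L = 0) ∧
  (pL L ≠ ⊥ → W12 B m c d L = ∑ᶠ σ ∈ EL E₀ L,
    ((ux B.U (pL L) c * ux B.U (pL L) (σ d) / ux B.U (pL L) (c * σ d) : ℚ) : ℂ) *
      HK B m (c * σ d) L)

/-- W12B: the value of `HK` for `aL ≠ ⊥`.

Proof.  `A = aL κ L`, `a = κ^k p`; the conditions for `(x, y)` are: `x ∈ C A`, `y⁻¹ a y = a (x^m)^i`, and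
`[x, y] = i(κ) t`.  They are invariant under conjugation with `C A`, so by taking the mean over `C A`
`HK = |C A|⁻¹ ∑_(x, y) fc A κ ([x, y])`, `fc A κ (g) = ∑_(χ ∈ Ch A) cv(fc A κ) χ (D A/|C A|) χ(g⁻¹)` (NSV (3), (6)).
Replace `y` by `z y`, `z ∈ C A` (the conditions do not change), `[x, z y]⁻¹ = z (y x y⁻¹) z⁻¹ x⁻¹`, and take the mean
over `z`: `χ(y x y⁻¹) χ(x⁻¹)/D A` (`y x y⁻¹ ∈ C A`: `y⁻¹ a y` commutes with `x`).  So with `u = y⁻¹`: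
`HK = |C A|⁻² ∑_χ cv(fc A κ) χ conj SL(L_A; χ, χ)`, `L_A = {(a, a, i)}`, and by SSL (the sign is
`(S A)² = 1`) `HK = ℓ⁻² ∑_(τ, x) ∑_χ ux(κ) λ(κ) conj λ(x) λ(τ x)`, `τ (a x^i) = a`, `= ux(κ) #{(τ, x) : κ τ(x) = x,
τ (a x^i) = a}`; with `X = x⁻¹` this is `N12`. -/
def W12BStmt : Prop := ∀ (ℓ : ℕ) [Fact ℓ.Prime] (M : Ideal (integralClosure ℤ ℂ)) [M.IsMaximal],
  (ℓ : integralClosure ℤ ℂ) ∈ M → ℓ ≠ 2 → ∀ (V₀ G : Type) [CommGroup V₀] [Finite V₀] [Group G]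
  [Finite G] (E₀ : Subgroup (MulAut V₀)), Fr ℓ V₀ E₀ → ∀ B : Bk (FF M) V₀ G, Sy ℓ M E₀ B →
  ∀ n m : ℕ, PE ℓ n m G → ∀ (κ : V₀) (L : Set (SS n V₀)), aL κ L ≠ ⊥ →
  HK B m κ L = ((ux B.U (aL κ L) κ * N12 E₀ κ L : ℚ) : ℂ)

/-- WZE: the evaluation of the sums without conditions.

Proof.  Frobenius: the number of the `(x, y)` with `[x, y] = g` is `∑_(χ ∈ Irr G) (|G|/χ(1)) χ(g)`.  (a) For
`c ≠ 1` and `χ ∉ e`: `cv (fc B ⊥ c) χ = |G| gv/(|C| χ 1)` (as HLNK in `StmtsH.lean`, which does not use that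
`χ` is in the block), `= 0` by `T3.SmgStmt`.  (b) By taking the mean over `G` the left side is
`|G|⁻¹ ∑_g fc ⊥ κ g #{[x, y] = g} = ∑_(χ ∈ Irr G) cv(fc ⊥ κ) χ`, and (a).  (c) In the same way
`W13 = W12 = |G|⁻² ∑_(g, h) fc c g fc d h #{(x, y, u) : [x, y] = g u h u⁻¹}`; substitute `h ↦ u⁻¹ h u` (`fc d` is a class
function): `|G|⁻¹ ∑_κ (fc c * fc d) κ #{[x, y] = κ} = ∑_χ cv(fc c) χ cv(fc d) χ`, and (a). -/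
def WzeStmt : Prop := ∀ (ℓ : ℕ) [Fact ℓ.Prime] (M : Ideal (integralClosure ℤ ℂ)) [M.IsMaximal],
  (ℓ : integralClosure ℤ ℂ) ∈ M → ∀ (V₀ G : Type) [CommGroup V₀] [Finite V₀] [Group G]
  [Finite G] (E₀ : Subgroup (MulAut V₀)), (∀ v : V₀, v ^ ℓ = 1) → ∀ B : Bk (FF M) V₀ G,
  Sb ℓ M E₀ B →
  (∀ c : V₀, c ≠ 1 → ∀ χ ∈ Irr G, χ ∉ IrrE M B.e → cv (fc B ⊥ c) χ = 0) ∧
  (∀ κ : V₀, κ ≠ 1 → (Nat.card (B.C (Subgroup.zpowers κ)) : ℂ)⁻¹ *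
    ∑ᶠ t : G, bh B (Subgroup.zpowers κ) t * {w : G × G | kap w.1 w.2 = B.i κ * t}.ncard =
      L1 B κ) ∧
  ∀ (n m : ℕ) (c d : V₀), c ≠ 1 → d ≠ 1 → W13 B m c d (∅ : Set (SS n V₀)) = L2 B c d ∧
    W12 B m c d (∅ : Set (SS n V₀)) = L2 B c d

/-- M12: the non local part of `W12`.

Proof.  For `L ⊆ τ₀ = {(i, k, κ⁻¹^k, κ₂⁻¹^k)}` all `κ^k p = 1`, so `aL κ L = ⊥`, `aL ⊔ ⟨κ⟩ = ⟨κ⟩`, and the conditions in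
`HK` are `(x^m)^i = 1` for all of `L`.  So the left side is `|C ⟨κ⟩|⁻¹ ∑_t bh ⟨κ⟩ t ∑_([x, y] = i(κ) t) ∑_(L ⊆ τ(x)) mob F L`,
`τ(x) = {(i, k, κ⁻¹^k, κ₂⁻¹^k) : (x^m)^i = 1}`; by MBI the inner sum is `F (τ(x)) = v` (`i = 0` satisfies the
condition).  WZE (b). -/
def M12Stmt : Prop := ∀ (ℓ : ℕ) [Fact ℓ.Prime] (M : Ideal (integralClosure ℤ ℂ)) [M.IsMaximal],
  (ℓ : integralClosure ℤ ℂ) ∈ M → ∀ (V₀ G : Type) [CommGroup V₀] [Finite V₀] [Group G]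
  [Finite G] (E₀ : Subgroup (MulAut V₀)), (∀ v : V₀, v ^ ℓ = 1) → ∀ B : Bk (FF M) V₀ G,
  Sb ℓ M E₀ B → ∀ (n m : ℕ) (κ κ₂ : V₀), κ ≠ 1 → ∀ (F : Set (SS n V₀) → ℚ) (v : ℚ), 0 < n →
  (∀ I : Set (Fin n), (∃ i ∈ I, (i : ℕ) = 0) →
    F {s | s.1 ∈ I ∧ s.2.2.1 = κ⁻¹ ^ (s.2.1 : ℕ) ∧ s.2.2.2 = κ₂⁻¹ ^ (s.2.1 : ℕ)} = v) →
  ∑ᶠ L ∈ {L : Set (SS n V₀) | ∀ s ∈ L, s.2.2.1 = κ⁻¹ ^ (s.2.1 : ℕ) ∧ s.2.2.2 = κ₂⁻¹ ^ (s.2.1 : ℕ)},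
    (mob F L : ℂ) * HK B m κ L = v * L1 B κ

/-- the local part of the total sum -/
def PPd {n : ℕ} {V₀ : Type} [CommGroup V₀] (E₀ : Subgroup (MulAut V₀)) (U : Subgroup V₀ → ℚ)
    (c d : V₀) (F₁₃ F₁₂ : Set (SS n V₀) → ℚ) : ℚ :=
  ∑ᶠ L ∈ {L : Set (SS n V₀) | pL L ≠ ⊥ ∧ qL L ≠ ⊥},
    (mob F₁₃ L * P13 E₀ U c d L + mob F₁₂ L * P12 E₀ U c d L)

/-- the coefficient of `L1 (c σ(d))` -/
def cfL {V₀ : Type} [CommGroup V₀] {ℓ : ℕ} (U : Subgroup V₀ → ℚ) (ρ₁ ρ₂ : V₀ → ZMod ℓ) (c d : V₀)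
    (σ : MulAut V₀) : ℚ :=
  (ρ₁ (c * σ d)⁻¹).val * (ρ₂ (σ⁻¹ (c * σ d))⁻¹).val *
    (ux U (Subgroup.zpowers (c * σ d)) c * ux U (Subgroup.zpowers (c * σ d)) (σ d))

/-- FIN: the relation between `L2` and `L1`.

Proof.  LAC and LBS: `∑_L (mob F₁₃ L W13 L + mob F₁₂ L W12 L) ∈ RM M`.  `L = ∅`: `mob F₁₃ ∅ = F₁₃ ∅ = 0` (z13),
`mob F₁₂ ∅ = F₁₂ ∅ = r₁ r₂/ℓ²` (z12), WZE (c).  Let `L ≠ ∅`.  If all `p = 1` or all `q = 1` in `L` then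
`mob F₁₃ L = 0` (MBI, z13).  Otherwise `W13 L = P13` (WTH).  Let `F = F₁₂ - r₁ r₂/ℓ²`, `mob F L = mob F₁₂ L` (MBI);
if all `p = q = 1` it is `0` (z12).  If exactly one of `pL`, `qL` is `⊥` then `W12 L = 0` (W12A; if
`qL = ⊥`, `pL ≠ ⊥` then `EL = ∅`), and `P12` does not appear in `PPd`.  Otherwise W12A: the terms with
`aL (c σ d) L ≠ ⊥` give `P12 L` (W12B).  The others: `σ ∈ E₀`, `κ = c σ(d)`, `p = κ⁻ᵏ`, `q = σ⁻¹ p = (σ⁻¹ κ)⁻ᵏ` for all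
of `L`, `pL L ≠ ⊥`, so `κ ≠ 1` and `pL L = ⟨κ⟩` (`ℓ` prime), and the coefficient is
`ux ⟨κ⟩ c · ux ⟨κ⟩ (σ d)/1`.  For given `σ` with `κ ≠ 1` these `L` are the `L ⊆ τ₀` of M12 (`κ₂ = σ⁻¹ κ`) with
`pL L ≠ ⊥`; for the other `L ⊆ τ₀` `mob F L = 0`.  M12 for `F`: `v = - (ρ₁ κ⁻¹).val (ρ₂ (σ⁻¹ κ)⁻¹).val/ℓ²` by `main`
(`κ⁻¹ ≠ c⁻¹` because `d ≠ 1`, `(σ⁻¹ κ)⁻¹ = (σ⁻¹(c) d)⁻¹ ≠ d⁻¹` because `c ≠ 1`). -/
def FinStmt : Prop := ∀ (ℓ : ℕ) [Fact ℓ.Prime] (M : Ideal (integralClosure ℤ ℂ)) [M.IsMaximal],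
  (ℓ : integralClosure ℤ ℂ) ∈ M → ℓ ≠ 2 → ∀ (V₀ G : Type) [CommGroup V₀] [Finite V₀] [Group G]
  [Finite G] (E₀ : Subgroup (MulAut V₀)), Fr ℓ V₀ E₀ → ∀ B : Bk (FF M) V₀ G, Sy ℓ M E₀ B →
  ∀ n m : ℕ, PE ℓ n m G → ∀ (ρ₁ ρ₂ : V₀ → ZMod ℓ) (c d : V₀) (r₁ r₂ : ℤ)
  (F₁₃ F₁₂ : Set (SS n V₀) → ℚ), c ≠ 1 → d ≠ 1 → FT ℓ n ρ₁ ρ₂ c d r₁ r₂ F₁₃ F₁₂ →
  Rel ℓ n m B.i c d F₁₃ F₁₂ →
  (r₁ * r₂ : ℂ) / ℓ ^ 2 * L2 B c d -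
    ∑ᶠ σ ∈ {σ : MulAut V₀ | σ ∈ E₀ ∧ c * σ d ≠ 1},
      ((cfL B.U ρ₁ ρ₂ c d σ : ℚ) : ℂ) / ℓ ^ 2 * L1 B (c * σ d) +
    ((PPd E₀ B.U c d F₁₃ F₁₂ : ℚ) : ℂ) ∈ RM M

/-- PPC: continuity of the local part.

Proof.  There are finitely many `L`; choose `K₀` with `ℓ^K₀ mob F₁₃ L`, `ℓ^K₀ mob F₁₂ L ∈ Rl ℓ` for all `L`,
`K = K₀`.  The numbers `U W`, `U' W` (`W ≠ ⊥`) are in `1 + ℓ Rl ℓ`, they and their inverses are in `Rl ℓ`, and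
congruent modulo `ℓ^K`; so the same holds for `ux U W x` (`W ≠ ⊥`), products and quotients, and
`P13`, `P12` are polynomials with integer coefficients in these. -/
def PpcStmt : Prop := ∀ (ℓ : ℕ) [Fact ℓ.Prime] (V₀ : Type) [CommGroup V₀] [Finite V₀]
  (E₀ : Subgroup (MulAut V₀)) (n : ℕ) (c d : V₀) (F₁₃ F₁₂ : Set (SS n V₀) → ℚ),
  ∃ K₀ : ℕ, ∀ K, K₀ ≤ K → ∀ U U' : Subgroup V₀ → ℚ,
  (∀ W, W ≠ ⊥ → ∃ q ∈ SOR.Rl ℓ, U W = 1 + ℓ * q) → (∀ W, W ≠ ⊥ → ∃ q ∈ SOR.Rl ℓ, U' W = 1 + ℓ * q) →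
  (∀ W, W ≠ ⊥ → ∃ q ∈ SOR.Rl ℓ, U W - U' W = ℓ ^ K * q) →
  PPd E₀ U c d F₁₃ F₁₂ - PPd E₀ U' c d F₁₃ F₁₂ ∈ SOR.Rl ℓ

/-- CPG: comparison of two groups.

Proof.  For `c, d ≠ 1`, homomorphisms `ρ₁`, `ρ₂` and `r₁ ≡ - ρ₁ c`, `r₂ ≡ - ρ₂ d`, where
`r₁ ∈ {(- ρ₁ c).val, (- ρ₁ c).val + ℓ}` (only the first if `ρ₁ c = 0`), `r₂ = (- ρ₂ d).val`, choose `F₁₃`, `F₁₂` by
RTX; `K ≥ 2` larger than the numbers `K₀` of PPC for these finitely many choices (they do not depend on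
the groups).  FIN for both systems with the same functions; the difference of the `PPd` is in `Rl ℓ`, so in
`RM M`.
(A) Choose `ρ₁`, `ρ₂` with `ρ₁ c ≠ 0`, `ρ₂ d ≠ 0` (`V₀` is a vector space over the field with `ℓ`
elements).  Subtract the difference for `r₁` from the one for `r₁ + ℓ`:
the terms with `L1` cancel and `(r₂/ℓ) (L2 - L2') ∈ RM M`, `ℓ ∤ r₂`.
(B) Use `ρ₁⁻`, `ρ₂⁻`, `ρ⁻(v) = ρ(v⁻¹) = - ρ v`, and `r₁ = (ρ₁ c).val`, `r₂ = (ρ₂ d).val`.  In the difference the coefficient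
of `σ` is `a/ℓ² (u L1 - u' L1') = a/ℓ² ((L1 - L1') + (u - 1)(L1 - L1') + (u - u') L1')`, `a` the product of the two
`val`, `u - 1 ∈ ℓ Rl ℓ`, `u - u' ∈ ℓ^K Rl ℓ`, `L1' ∈ RM M` (central characters at `fc ⊥ κ`), `L1 - L1' ∈ ℓ RM M`. -/
def CpgStmt : Prop := ∀ (ℓ : ℕ) [Fact ℓ.Prime] (M : Ideal (integralClosure ℤ ℂ)) [M.IsMaximal],
  (ℓ : integralClosure ℤ ℂ) ∈ M → ℓ ≠ 2 → ∀ (V₀ : Type) [CommGroup V₀] [Finite V₀]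
  (E₀ : Subgroup (MulAut V₀)), Fr ℓ V₀ E₀ → ∀ n : ℕ, ∃ K : ℕ, ∀ (G G' : Type) [Group G] [Finite G]
  [Group G'] [Finite G'] (B : Bk (FF M) V₀ G) (B' : Bk (FF M) V₀ G') (m m' : ℕ),
  Sy ℓ M E₀ B → Sy ℓ M E₀ B' → PE ℓ n m G → PE ℓ n m' G' →
  (∀ W, W ≠ ⊥ → ∃ q ∈ SOR.Rl ℓ, B.U W - B'.U W = ℓ ^ K * q) →
  (∀ c d : V₀, c ≠ 1 → d ≠ 1 → (L2 B c d - L2 B' c d) / ℓ ∈ RM M) ∧
  ((∀ c : V₀, c ≠ 1 → (L1 B c - L1 B' c) / ℓ ∈ RM M) → ∀ (ρ₁ ρ₂ : V₀ → ZMod ℓ), Hm ρ₁ → Hm ρ₂ →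
    ∀ c d : V₀, c ≠ 1 → d ≠ 1 →
    ((L2 B c d - L2 B' c d) * ((ρ₁ c).val * (ρ₂ d).val) -
      ∑ᶠ σ ∈ {σ : MulAut V₀ | σ ∈ E₀ ∧ c * σ d ≠ 1},
        ((ρ₁ (c * σ d)).val : ℂ) * (ρ₂ (σ⁻¹ (c * σ d))).val *
          (L1 B (c * σ d) - L1 B' (c * σ d))) / ℓ ^ 2 ∈ RM M)

end Pool.Agent.PP.SO
end
end -- Pool.Agent.ASO.Stmts4

section -- Pool.Agent.ASO.StmtsH

/-!
# Squad ASO, block H: heights, congruences for the sums of the central characters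

Complete proofs in the docstrings.  The rows are for `Sb`; most of them need one *regular* element:
`Rgl E₀ c`: `c ≠ 1` and no `σ ≠ 1` in `E₀` fixes `c`.  If `E₀` acts freely all `c ≠ 1` are regular.
`Es E₀ c` is the stabiliser of `c` in `E₀`.
-/

open scoped BigOperators

noncomputable section

namespace Pool.Agent.PP.SO

open Pool.Agent.Helper51_AWC Pool.Agent.Helper79_WRA Pool.Agent.PP Pool.Agent.PP.KF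
open Pool.Agent.PP.K9 Pool.Agent.PP.K9.H97 Pool.Agent.PP.H75 Pool.Agent.PP.T3

attribute [local instance] Ideal.Quotient.field

/-- the stabiliser of `c` in `E₀` -/
def Es {V₀ : Type} [CommGroup V₀] (E₀ : Subgroup (MulAut V₀)) (c : V₀) : Subgroup (MulAut V₀) where
  carrier := {σ | σ ∈ E₀ ∧ σ c = c}
  one_mem' := ⟨E₀.one_mem, rfl⟩
  mul_mem' := fun {a b} ha hb => ⟨E₀.mul_mem ha.1 hb.1, by
    rw [MulAut.mul_apply, hb.2, ha.2]⟩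
  inv_mem' := fun {a} ha => ⟨E₀.inv_mem ha.1, by
    rw [MulAut.inv_apply, MulEquiv.symm_apply_eq, ha.2]⟩

/-- the number of the elements of the `E₀`-orbit of `c` -/
def nE {V₀ : Type} [CommGroup V₀] (E₀ : Subgroup (MulAut V₀)) (c : V₀) : ℕ :=
  Nat.card E₀ / Nat.card (Es E₀ c)

/-- `c` is regular -/
def Rgl {V₀ : Type} [CommGroup V₀] (E₀ : Subgroup (MulAut V₀)) (c : V₀) : Prop :=
  c ≠ 1 ∧ ∀ σ ∈ E₀, σ c = c → σ = 1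

/-- the product of the powers of `ℓ` in the order of `G` -/
def lpG (ℓ : ℕ) (G : Type) : ℕ := ℓ ^ (Nat.card G).factorization ℓ

/-- HLNK: the central character at `f_c` and the number `gv`.

Proof.  `C(i c) = C ⟨i c⟩` and `(zpowers c).map i = zpowers (i c)` (`MonoidHom.map_zpowers`,
`Subgroup.centralizer_closure` or directly); `Lb` for `zpowers c` is `Lc` for `i c`.
`fc B ⊥ c g = |C_c|⁻¹ ∑_z bh B ⟨c⟩ ((i c)⁻¹ z⁻¹ g z)`, `z` in `B.C ⊥ = G` (`⊥ ⊔ zpowers c = zpowers c`);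
`χ` is a class function, so `∑_g fc B ⊥ c g χ g = (|G|/|C_c|) ∑_h bh B ⟨c⟩ ((i c)⁻¹ h) χ h =
(|G|/|C_c|) ∑_{t ∈ C_c} eh (t) χ((i c) t)`. -/
def HLnkStmt : Prop := ∀ (ℓ : ℕ) [Fact ℓ.Prime] (M : Ideal (integralClosure ℤ ℂ)) [M.IsMaximal],
  (ℓ : integralClosure ℤ ℂ) ∈ M → ∀ (V₀ : Type) [CommGroup V₀] [Finite V₀]
  (E₀ : Subgroup (MulAut V₀)) (G : Type) [Group G] [Finite G] (B : Bk (FF M) V₀ G),
  Sb ℓ M E₀ B → ∀ c : V₀, Cu (B.i c) = B.C (Subgroup.zpowers c) ∧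
    Lc B.e B.i.range B.g (B.i c) (B.b (Subgroup.zpowers c)) ∧
    ∀ χ ∈ Irr G, cv (fc B ⊥ c) χ = Nat.card G *
      gv M (Cu (B.i c)) (B.i c) (B.b (Subgroup.zpowers c)) χ /
        (Nat.card (B.C (Subgroup.zpowers c)) * χ 1)

/-- HIXE: the inertial index.

Proof.  `T = Tg V γ`, `V = i(V₀)`.  `t ↦ σ` (`act`; `σ` is unique because `i` is injective) is a
homomorphism `T → E₀`, surjective (`sur`), with kernel `T ∩ C(V) = C(V)` (`C(V) ≤ T`: `γ` is a central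
idempotent of `F C(V)`); the preimage of `Es E₀ c` is `T ∩ C(i c)`.  `ix V γ` is prime to `ℓ`
(`K9.InxStmt`).  `B.C ⊤ = C(V)` (`MonoidHom.range_eq_map`). -/
def HIxeStmt : Prop := ∀ (ℓ : ℕ) [Fact ℓ.Prime] (M : Ideal (integralClosure ℤ ℂ)) [M.IsMaximal],
  (ℓ : integralClosure ℤ ℂ) ∈ M → ∀ (V₀ : Type) [CommGroup V₀] [Finite V₀]
  (E₀ : Subgroup (MulAut V₀)) (G : Type) [Group G] [Finite G] (B : Bk (FF M) V₀ G),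
  Sb ℓ M E₀ B → ix B.i.range B.g = Nat.card E₀ ∧ ¬ ℓ ∣ Nat.card E₀ ∧
    B.C ⊤ = Subgroup.centralizer (B.i.range : Set G) ∧
    ∀ c : V₀, (Cu (B.i c)).relIndex (Tg B.i.range B.g) = nE E₀ c ∧
      nE E₀ c * Nat.card (Es E₀ c) = Nat.card E₀ ∧ (Rgl E₀ c → Rg B.i.range B.g (B.i c)) ∧
      (Rgl E₀ c → nE E₀ c = Nat.card E₀)

/-- HOMR: the residue of the central character at `f_c`.

Proof.  HLNK, `K9.OmgStmt` for `u = w = i c`, `T3.RsvStmt`, HIXE.  (`b` is an idempotent of `F C(u)`: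
`Lc`.) -/
def HOmrStmt : Prop := ∀ (ℓ : ℕ) [Fact ℓ.Prime] (M : Ideal (integralClosure ℤ ℂ)) [M.IsMaximal],
  (ℓ : integralClosure ℤ ℂ) ∈ M → ∀ (V₀ : Type) [CommGroup V₀] [Finite V₀]
  (E₀ : Subgroup (MulAut V₀)) (G : Type) [Group G] [Finite G] (B : Bk (FF M) V₀ G),
  Sb ℓ M E₀ B → ∀ c : V₀, ∀ χ ∈ IrrE M B.e, cv (fc B ⊥ c) χ ∈ RM M ∧
    rr M (cv (fc B ⊥ c) χ) = ((nE E₀ c : ℕ) : FF M)

/-- HFCE: `f_c` depends on the `E₀`-orbit of `c` only, and `f_1` is the block.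

Proof.  `t ∈ T` with `t i(v) t⁻¹ = i(σ v)` (`sur`).  `cj t (B.b ⟨c⟩)` is a block of `C(i(σ c))` under `e` and over
`cj t γ = γ`, so it is `B.b ⟨σ c⟩` (uniqueness in `T3.LocStmt`), `bh B ⟨σ c⟩ (t g t⁻¹) = bh B ⟨c⟩ g`, and the
orders of the centralisers are equal.  Substitute `z t` for `z` in the sum.  For `c = 1`: `B.b ⊥ = e`
(`T3.LocStmt` with `u = 1`; `e` has the properties), `fc B ⊥ 1` is the average of the class function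
`eh e`, and `∑_g eh e (g) χ(g) = χ(1)` for `χ` in the block. -/
def HFceStmt : Prop := ∀ (ℓ : ℕ) [Fact ℓ.Prime] (M : Ideal (integralClosure ℤ ℂ)) [M.IsMaximal],
  (ℓ : integralClosure ℤ ℂ) ∈ M → ∀ (V₀ : Type) [CommGroup V₀] [Finite V₀]
  (E₀ : Subgroup (MulAut V₀)) (G : Type) [Group G] [Finite G] (B : Bk (FF M) V₀ G),
  Sb ℓ M E₀ B → (∀ c : V₀, ∀ σ ∈ E₀, fc B ⊥ (σ c) = fc B ⊥ c) ∧
    ∀ χ ∈ IrrE M B.e, cv (fc B ⊥ 1) χ = 1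

/-- HTA: the degree of the characters of `γ`.

Proof.  `C = C(V)`, `V` central in `C`, `H = C/V`, `p : C → H`.  `γ' = push p γ` is a block (`T3.PsgStmt`), its good
`ℓ`-subgroups are trivial (`K9.PugStmt`: a good subgroup of `γ'` has a good preimage `R ≥ V`; good
subgroups of `γ` are good for `e`, so `|R| ≤ |V|`, see the proof of `T3.DgcStmt`), so `IrrE M γ' = {κ₀}`, `κ₀`
vanishes at the singular elements (`K9.DzoStmt`), and `κ₀ ∘ p` is in `IrrE M γ` (`K9.PsiStmt`), so `κ₀(1) = D`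
(`Dg`).  For a Sylow `ℓ`-subgroup `S` of `H` the inner product `(κ₀|S, 1) = κ₀(1)/|S|` is an integer
(`K9.AdaStmt` or the restriction is a character), and `D` divides `|H|` (or: `|H|/κ₀(1)` is an algebraic
integer).  So `|H|/D` is an integer prime to `ℓ`, `|C| = |V| |H|`. -/
def HTaStmt : Prop := ∀ (ℓ : ℕ) [Fact ℓ.Prime] (M : Ideal (integralClosure ℤ ℂ)) [M.IsMaximal],
  (ℓ : integralClosure ℤ ℂ) ∈ M → ∀ (G : Type) [Group G] [Finite G] (e : G → FF M)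
  (V : Subgroup G) (γ : G → FF M), Ld ℓ e V γ → ∀ d : ℕ,
  Dg M (fun t : Subgroup.centralizer (V : Set G) => γ t) d →
  ∃ m : ℕ, ¬ ℓ ∣ m ∧ Nat.card (Subgroup.centralizer (V : Set G)) = Nat.card V * d * m

/-- HTZ: the heights are zero.

Proof.  Let `u = i c` (order `ℓ`), `b` its local block, regular (`Rg`, HIXE), `d` its degree and
`|IrrE b| = |V|` (`T3.RglStmt`), `ζ` of order `ℓ`, `w_χ = |G| d/(|C(u)| χ(1))`, `v_j(χ) = gv u^j b χ/d =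
∑ m_i ζ ^ (i j)` (`T3.InrStmt`), `w_χ v_j(χ) = cv (f_(c^j)) χ` for `¬ ℓ ∣ j` (HLNK for `c ^ j`; `⟨c ^ j⟩ = ⟨c⟩`), a
number in `RM M` with residue `|E₀| ≠ 0` (HOMR, HIXE), a unit.  So `w_χ⁻¹ = v_j/(w_χ v_j)` is in `RM M`.
(1) `w_χ` is in `RM M`.  Otherwise `v_j/ℓ` is in `RM M` for all `j` prime to `ℓ` (`w_χ⁻¹` is rational, so it is
`ℓ` times an element of `RM M`).  `∑_{j=1}^{ℓ-1} v_j ζ ^ (- j k) = ℓ m_k - ∑ m_i`, so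
`m_k - m_0 = ∑_j (v_j/ℓ) (ζ ^ (- j k) - 1)` has residue `0` (`ζ` has residue `1`), it is divisible by `ℓ`, and
`v_j = ℓ ∑ ((m_i - m_0)/ℓ) ζ ^ (i j)` (`∑ ζ ^ (i j) = 0`), not zero, so by `T3.GlpStmt` (`a = 1`)
`∑_j |v_j(χ)|² ≥ ℓ² (ℓ - 1)`.  But `∑_{χ' ∈ Irr G} |v_j(χ')|² = |V| = ℓ²` (`T3.Co1Stmt`), so `v_j(χ') = 0` for
all `χ' ≠ χ`; the `v_j(χ')` are not zero for `χ'` in `e`, so `IrrE M e = {χ}`, and `χ(1) χ(g) = 0` for all singular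
`g` (`K9.PrgStmt`, first part), so `v_1(χ) = 0` (`eh b` vanishes at the singular elements), a
contradiction.
(2) By `T3.NitStmt` for `C(u)`, `b` (`ix = 1`, `T3.RglStmt`, `T3.LsbStmt`) `|C(u)| D/(|C(V)| d)` is in `RM M` with residue
`± 1`, so it and its inverse are in `RM M`.  The product with `w_χ` is `|G| D/(|C(V)| χ(1))`, so this number and its
inverse are in `RM M`; with HTA: `|G| = |V| χ(1) x/y`, `x`, `y` positive integers prime to `ℓ`. -/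
def HTzStmt : Prop := ∀ (ℓ : ℕ) [Fact ℓ.Prime] (M : Ideal (integralClosure ℤ ℂ)) [M.IsMaximal],
  (ℓ : integralClosure ℤ ℂ) ∈ M → ∀ (V₀ : Type) [CommGroup V₀] [Finite V₀],
  (∀ v : V₀, v ^ ℓ = 1) → Nat.card V₀ = ℓ ^ 2 → ∀
  (E₀ : Subgroup (MulAut V₀)) (G : Type) [Group G] [Finite G] (B : Bk (FF M) V₀ G),
  Sb ℓ M E₀ B → ∀ c : V₀, Rgl E₀ c → ∀ χ ∈ IrrE M B.e,
    ∃ x y : ℕ, ¬ ℓ ∣ x ∧ ¬ ℓ ∣ y ∧ (y : ℂ) * Nat.card G = ℓ ^ 2 * χ 1 * x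

/-- HKB: `k(B) ≤ ℓ ^ 2`.

Proof.  Notation of HTZ: `v_1(χ) ≠ 0` for `χ` in the block, so `∑_j |v_j(χ)|² ≥ ℓ - 1` by `T3.GlpStmt` (`a = 1`;
the sum over the `j < ℓ` prime to `ℓ`), and `∑_χ |v_j(χ)|² = ℓ²` for every `j` (`T3.Co1Stmt` for `u ^ j`,
`T3.RglStmt`; the block, the degree and the number of characters are the same for `u ^ j`,
`T3.LpwStmt`).  `(ℓ - 1) k ≤ (ℓ - 1) ℓ²`. -/
def HKbStmt : Prop := ∀ (ℓ : ℕ) [Fact ℓ.Prime] (M : Ideal (integralClosure ℤ ℂ)) [M.IsMaximal],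
  (ℓ : integralClosure ℤ ℂ) ∈ M → ∀ (V₀ : Type) [CommGroup V₀] [Finite V₀],
  (∀ v : V₀, v ^ ℓ = 1) → Nat.card V₀ = ℓ ^ 2 → ∀
  (E₀ : Subgroup (MulAut V₀)) (G : Type) [Group G] [Finite G] (B : Bk (FF M) V₀ G),
  Sb ℓ M E₀ B → ∀ c : V₀, Rgl E₀ c → (IrrE M B.e).Finite ∧ 0 < (IrrE M B.e).ncard ∧
    (IrrE M B.e).ncard ≤ ℓ ^ 2

/-- HRAT: the sum over a line is rational.

Proof.  `u = i c` of order `ℓ`, `b` its local block.  As in `T3.InrStmt` (the restriction of `χ` to `C(u)` is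
`∑ m_κ κ`, `κ(u ^ j) = ζ ^ (i j) κ(1)`): `gv u ^ j b χ = ∑_{i<ℓ} m_i ζ ^ (i j)` with integers `m_i = ∑ m_κ κ(1)`, the
sum over the `κ ∈ b` with `κ(u) = ζ ^ i κ(1)`, for all `j`.  The sum over `j = 1, …, ℓ - 1` is the integer
`ℓ m_0 - ∑ m_i`, and `cv (f_(c^j)) χ` is `gv u ^ j b χ` times the rational number `|G|/(|C(u)| χ(1))` (HLNK for
`c ^ j`).  So the sum is rational; it is in `RM M` with residue `(ℓ - 1) n_c = - n_c` (HOMR for `c ^ j`;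
`nE E₀ (c ^ j) = nE E₀ c`), and a rational number in `RM M` with residue `0` is `ℓ q`, `q ∈ Rl ℓ`. -/
def HRatStmt : Prop := ∀ (ℓ : ℕ) [Fact ℓ.Prime] (M : Ideal (integralClosure ℤ ℂ)) [M.IsMaximal],
  (ℓ : integralClosure ℤ ℂ) ∈ M → ∀ (V₀ : Type) [CommGroup V₀] [Finite V₀],
  (∀ v : V₀, v ^ ℓ = 1) → ∀
  (E₀ : Subgroup (MulAut V₀)) (G : Type) [Group G] [Finite G] (B : Bk (FF M) V₀ G),
  Sb ℓ M E₀ B → ∀ c : V₀, c ≠ 1 → ∀ χ ∈ IrrE M B.e, ∃ q ∈ SOR.Rl ℓ,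
    ∑ t ∈ Finset.Icc 1 (ℓ - 1), cv (fc B ⊥ (c ^ t)) χ = ((- (nE E₀ c : ℚ) + ℓ * q : ℚ) : ℂ)

/-- HL12: the sums `L1`, `L2`.

Proof.  Let `N` be as in `T3.PrmStmt` (`ℓ` odd; for `ℓ = 2` the claims `j` are empty and
`N = 1` does it), `j = N ^ k` on the `ℓ`-elements.  `χ ↦ χ(· ^ N)` is a bijection of `IrrE M e` (`T3.RtcStmt`;
injective because `g ↦ g ^ N` is a bijection of `G`, and the set is finite), and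
`cv (fc B ⊥ (c ^ N)) χ = cv (fc B ⊥ c) χ'`, `χ' = χ(· ^ N)`: HLNK, `χ((u s) ^ N) = χ(u ^ N s)` for `s` regular in `C(u)`,
`eh` vanishes at the singular elements, `χ'(1) = χ(1)`, `⟨c ^ N⟩ = ⟨c⟩`.  So `L1`, `L2` are invariant under `c ↦ c ^ j`.
*Rational:* with the numbers `m_i` of HRAT `cv (fc B ⊥ (c ^ j)) χ = w ∑ m_i ζ ^ (i j)`, `w` rational, so
`L2 (c ^ j) (d ^ j) = ∑_{k<ℓ} a_k ζ ^ (k j)` with rational `a_k` (all `j`); the sum over `j = 1, …, ℓ - 1` is rational, and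
all terms are equal.  `L1 c = L2 c 1` (HFCE).  They are in `RM M` (HOMR), so in `Rl ℓ`.  (If `ℓ = 2`:
`ζ = - 1`, all numbers are rational.)  `σ`: HFCE. -/
def HL12Stmt : Prop := ∀ (ℓ : ℕ) [Fact ℓ.Prime] (M : Ideal (integralClosure ℤ ℂ)) [M.IsMaximal],
  (ℓ : integralClosure ℤ ℂ) ∈ M → ∀ (V₀ : Type) [CommGroup V₀] [Finite V₀],
  (∀ v : V₀, v ^ ℓ = 1) → ∀
  (E₀ : Subgroup (MulAut V₀)) (G : Type) [Group G] [Finite G] (B : Bk (FF M) V₀ G),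
  Sb ℓ M E₀ B →
  (∀ c : V₀, ∃ q ∈ SOR.Rl ℓ, L1 B c = (q : ℂ)) ∧ (∀ c d : V₀, ∃ q ∈ SOR.Rl ℓ, L2 B c d = (q : ℂ)) ∧
  (∀ c : V₀, ∀ j : ℕ, ¬ ℓ ∣ j → L1 B (c ^ j) = L1 B c) ∧
  (∀ c d : V₀, ∀ j : ℕ, ¬ ℓ ∣ j → L2 B (c ^ j) (d ^ j) = L2 B c d) ∧
  (∀ c : V₀, ∀ σ ∈ E₀, L1 B (σ c) = L1 B c) ∧
  (∀ c d : V₀, ∀ σ ∈ E₀, ∀ τ ∈ E₀, L2 B (σ c) (τ d) = L2 B c d) ∧
  (∀ c d : V₀, L2 B c d = L2 B d c) ∧ (∀ c : V₀, L2 B c 1 = L1 B c) ∧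
  L1 B 1 = ((IrrE M B.e).ncard : ℂ)

/-- HFRO: Frobenius' theorem for characters.

Proof.  Let `S` be a Sylow `ℓ`-subgroup and `a(g)` the number of the fixed points of `g` on `G/S`, a character
of `G` (`1_S^G`; all its powers are characters, so all inner products with `χ` are integers).  `a(g) = 0` if
`g` is not an `ℓ`-element, and `a(g) ≡ |G : S|` modulo `ℓ`, prime to `ℓ`, if it is one.  So for
`N = (ℓ - 1) ℓ ^ n`, `n ≥` the exponent of `ℓ` in `|G|`, `a(g) ^ N = 1 + ℓ ^ (n + 1) b(g)`, `b(g)` an integer, for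
`ℓ`-elements `g`.  `(1/|G|) ∑_u χ(u) a(u) ^ N = z` is an integer, `∑_u χ(u) = |G| z - ℓ ^ (n+1) ∑_u b(u) χ(u)`;
divide by `lpG ℓ G`: the quotient is an algebraic integer. -/
def HFroStmt : Prop := ∀ (ℓ : ℕ) [Fact ℓ.Prime] (M : Ideal (integralClosure ℤ ℂ)) [M.IsMaximal],
  (ℓ : integralClosure ℤ ℂ) ∈ M → ∀ (G : Type) [Group G] [Finite G], ∀ χ ∈ Irr G,
  (∑ᶠ (u : G) (_ : El ℓ u), χ u) / (lpG ℓ G : ℂ) ∈ RM M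

/-- HFPR: the sum over the `ℓ`-elements.

Proof.  For an `ℓ`-element `u`: `χ(u) = ∑_b gv (C(u)) u b χ`, `b` over the blocks of `C(u)` (extended by zero; the sum of
the lifts `eh b` is `1` at `1` and `0` elsewhere).  If `e|C(u) b = 0` the term is `0`: for `u ≠ 1` `T3.SmgStmt`
(`s = 1`), for `u = 1` because `χ` is in `e`.  Let `Ω` be the set of the pairs `(u, b)`, `u` an `ℓ`-element, `b` a block of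
`C(u)` with `e|C(u) b = b`.  `G` acts on it by conjugation, the stabiliser of `(u, b)` is `C(u)`.  Every pair is conjugate
to some `(i c, B.b ⟨c⟩)`: by `T3.DugStmt` (`Q = ⟨u⟩`) there is a subgroup `P ≤ C(u)` with `u ∈ P`, `|P| = |V|`, good for
`b`, so good for `e`, so `P = k V k⁻¹` (`K9.FmgStmt`); replace the pair by its conjugate: `P = V`, `u ∈ V`.  Let
`γ₁` be a block of `C(V)` with `br_V(b) γ₁ = γ₁`; it is under `br_V(e)`, so `γ = cj n γ₁` with `n ∈ N(V)`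
(`K9.OrbStmt` for the block `br_V(e)` of `N(V)`, as in `T3.GchStmt`); replace by the conjugate with `n`: `γ₁ = γ`,
`u = i c`, and `b = B.b ⟨c⟩` by `T3.LocStmt`.  `(i c, B.b ⟨c⟩)` and `(i c', B.b ⟨c'⟩)` are conjugate iff `c' = σ c` for some
`σ ∈ E₀` (`T3.FusStmt`, `act`; conversely HFCE's argument).  So the number of the `(z, c) ∈ G × V₀` with
`z (i c, B.b ⟨c⟩) z⁻¹ = (u, b)` is `|C(u)| n_c`, and `∑_Ω gv = ∑_c ∑_z gv(i c, B.b ⟨c⟩)/(|C(i c)| n_c) =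
∑_c |G| gv/(|C(i c)| n_c) = χ(1) ∑_c cv (f_c) χ/n_c` (HLNK; `gv` is invariant under conjugation of the pair). -/
def HFprStmt : Prop := ∀ (ℓ : ℕ) [Fact ℓ.Prime] (M : Ideal (integralClosure ℤ ℂ)) [M.IsMaximal],
  (ℓ : integralClosure ℤ ℂ) ∈ M → ∀ (V₀ : Type) [CommGroup V₀] [Finite V₀]
  (E₀ : Subgroup (MulAut V₀)) (G : Type) [Group G] [Finite G] (B : Bk (FF M) V₀ G),
  Sb ℓ M E₀ B → ∀ χ ∈ IrrE M B.e,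
    ∑ᶠ (u : G) (_ : El ℓ u), χ u = χ 1 * ∑ᶠ c : V₀, cv (fc B ⊥ c) χ / nE E₀ c

/-- HSM: the relations for the linear algebra.

Proof.  (i) `k ≤ ℓ²`: HKB.  (ii) HRAT for `c` and `d`: `W_c(χ) = ∑_t cv (f_(c^t)) χ`, `(W_c + n_c)(W_d + n_d) = ℓ² q q'`;
add over `χ` in the block (finite).  (iii) For `χ` in the block: HFRO, HFPR, HTZ: `∑_c cv (f_c) χ/n_c =
(∑_u χ(u)/lpG) (lpG/χ(1))` and `lpG/χ(1)` is `ℓ²` times a unit of `Rl ℓ` (`|G| = lpG m`, `¬ ℓ ∣ m`), so the sum is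
`ℓ²` times an element of `RM M`; it is rational: group the `c ≠ 1` by the lines, HRAT (`n_(c^t) = n_c`; the number of
the pairs `(c, t)` with given `c ^ t` is `ℓ - 1`), and the term of `c = 1` is `1` (HFCE).  A rational number in `RM M` is in
`Rl ℓ`.  Multiply with `|E₀|` (`|E₀|/n_c = |Es E₀ c|`, HIXE) and add over `χ`. -/
def HSmStmt : Prop := ∀ (ℓ : ℕ) [Fact ℓ.Prime] (M : Ideal (integralClosure ℤ ℂ)) [M.IsMaximal],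
  (ℓ : integralClosure ℤ ℂ) ∈ M → ∀ (V₀ : Type) [CommGroup V₀] [Finite V₀],
  (∀ v : V₀, v ^ ℓ = 1) → Nat.card V₀ = ℓ ^ 2 → ∀
  (E₀ : Subgroup (MulAut V₀)) (G : Type) [Group G] [Finite G] (B : Bk (FF M) V₀ G),
  Sb ℓ M E₀ B → (∃ c : V₀, Rgl E₀ c) →
  ((IrrE M B.e).ncard ≤ ℓ ^ 2 ∧ 0 < (IrrE M B.e).ncard) ∧
  (∀ c d : V₀, c ≠ 1 → d ≠ 1 → ∃ q ∈ SOR.Rl ℓ,
    ∑ t ∈ Finset.Icc 1 (ℓ - 1), ∑ s ∈ Finset.Icc 1 (ℓ - 1), L2 B (c ^ t) (d ^ s) +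
      nE E₀ d * ∑ t ∈ Finset.Icc 1 (ℓ - 1), L1 B (c ^ t) +
      nE E₀ c * ∑ s ∈ Finset.Icc 1 (ℓ - 1), L1 B (d ^ s) +
      nE E₀ c * nE E₀ d * (IrrE M B.e).ncard = ((ℓ ^ 2 * q : ℚ) : ℂ)) ∧
  ∃ q ∈ SOR.Rl ℓ, ∑ᶠ c : V₀, Nat.card (Es E₀ c) * L1 B c = ((ℓ ^ 2 * q : ℚ) : ℂ)

end Pool.Agent.PP.SO
end
end -- Pool.Agent.ASO.StmtsH

section -- Pool.Agent.ASO.StmtsH2

/-!
# Squad ASO, block H, part 2: the conclusions for a free action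
-/

open scoped BigOperators

noncomputable section

namespace Pool.Agent.PP.SO

open Pool.Agent.Helper51_AWC Pool.Agent.Helper79_WRA Pool.Agent.PP Pool.Agent.PP.KF
open Pool.Agent.PP.K9 Pool.Agent.PP.K9.H97 Pool.Agent.PP.H75 Pool.Agent.PP.T3

attribute [local instance] Ideal.Quotient.field

/-- HCO: the conclusions of block H for a free action.

Proof.  If `Fr ℓ V₀ E₀` all `c ≠ 1` are regular, `Es E₀ c = ⊥`, `nE E₀ c = |E₀|` (HIXE), `Es E₀ 1 = E₀`,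
`nE E₀ 1 = 1`, and there is `c ≠ 1` (`|V₀| = ℓ²`).  HTZ, HSM, HL12. -/
def HCoStmt : Prop := ∀ (ℓ : ℕ) [Fact ℓ.Prime] (M : Ideal (integralClosure ℤ ℂ)) [M.IsMaximal],
  (ℓ : integralClosure ℤ ℂ) ∈ M → ∀ (V₀ : Type) [CommGroup V₀] [Finite V₀]
  (E₀ : Subgroup (MulAut V₀)), Fr ℓ V₀ E₀ → ∀ (G : Type) [Group G] [Finite G]
  (B : Bk (FF M) V₀ G), Sb ℓ M E₀ B →
  (∀ χ ∈ IrrE M B.e, ((Nat.card G : ℂ) / (ℓ ^ 2 * χ 1)) ∈ RM M) ∧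
  0 < (IrrE M B.e).ncard ∧ (IrrE M B.e).ncard ≤ ℓ ^ 2 ∧
  (∀ c : V₀, ∃ q ∈ SOR.Rl ℓ, L1 B c = (q : ℂ)) ∧ (∀ c d : V₀, ∃ q ∈ SOR.Rl ℓ, L2 B c d = (q : ℂ)) ∧
  (∀ c : V₀, ∀ j : ℕ, ¬ ℓ ∣ j → L1 B (c ^ j) = L1 B c) ∧
  (∀ c d : V₀, ∀ j : ℕ, ¬ ℓ ∣ j → L2 B (c ^ j) (d ^ j) = L2 B c d) ∧
  (∀ c d : V₀, ∀ σ ∈ E₀, ∀ τ ∈ E₀, L1 B (σ c) = L1 B c ∧ L2 B (σ c) (τ d) = L2 B c d) ∧
  L1 B 1 = ((IrrE M B.e).ncard : ℂ) ∧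
  (((Nat.card E₀ : ℂ) * (IrrE M B.e).ncard + ∑ᶠ c ∈ {c : V₀ | c ≠ 1}, L1 B c) / ℓ ^ 2) ∈ RM M ∧
  (∃ q ∈ SOR.Rl ℓ, (Nat.card E₀ : ℂ) * (IrrE M B.e).ncard + ∑ᶠ c ∈ {c : V₀ | c ≠ 1}, L1 B c =
    ((ℓ ^ 2 * q : ℚ) : ℂ)) ∧
  ∀ c d : V₀, c ≠ 1 → d ≠ 1 →
    (((∑ t ∈ Finset.Icc 1 (ℓ - 1), ∑ s ∈ Finset.Icc 1 (ℓ - 1), L2 B (c ^ t) (d ^ s) +
      (Nat.card E₀ : ℂ) * (ℓ - 1) * (L1 B c + L1 B d) +
      (Nat.card E₀ : ℂ) ^ 2 * (IrrE M B.e).ncard) / ℓ ^ 2) ∈ RM M) ∧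
    ∃ q ∈ SOR.Rl ℓ, ∑ t ∈ Finset.Icc 1 (ℓ - 1), ∑ s ∈ Finset.Icc 1 (ℓ - 1), L2 B (c ^ t) (d ^ s) +
      (Nat.card E₀ : ℂ) * (ℓ - 1) * (L1 B c + L1 B d) +
      (Nat.card E₀ : ℂ) ^ 2 * (IrrE M B.e).ncard = ((ℓ ^ 2 * q : ℚ) : ℂ)

end Pool.Agent.PP.SO
end
end -- Pool.Agent.ASO.StmtsH2

section -- Pool.Agent.ASO.Stmts5

/-!
# Squad ASO, statements 5: the number of characters modulo `ℓ ^ 2`

`K2bStmt` (`Stmts8.lean`) is the output.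

K2B.  Proof.  `U = B.U`: `U ⊤ = S ⊤ = 1` (`S ⊤ = ± 1`, `U ⊤ = S ⊤ |C ⊤| D ⊤/(|C ⊤| D ⊤)` is `1` modulo `ℓ`, `ℓ ≥ 5`,
`D ⊤ > 0` by `Dg`), `U (W.map σ) = U W` (CJT; `sur`).  PEX for `G`: `n = ℓ ^ r`, `m`, `PE ℓ n m G`.  Let `K` be the
number of KCM for `n`, `G'`, `B'`, `m'` the comparison block of `CmpStmt` (`Stmts7.lean`) for `k = K`, `r`.  KCM:
`ℓ ^ 2` divides `k(B) - k(B')`, and `k(B') = |Irr (V₀ : E₀)|`.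
-/

open scoped BigOperators

noncomputable section

namespace Pool.Agent.PP.SO

open Pool.Agent.Helper51_AWC Pool.Agent.Helper79_WRA Pool.Agent.PP Pool.Agent.PP.KF
open Pool.Agent.PP.K9 Pool.Agent.PP.K9.H97 Pool.Agent.PP.H75 Pool.Agent.PP.T3

attribute [local instance] Ideal.Quotient.field

/-- PEX: existence of the exponent `m`.

Proof.  `ℓ ^ r ≥ |G|_ℓ`, `|G| = ℓ^a b`, `ℓ ∤ b`: by the Chinese remainder theorem there is `m` with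
`m ≡ 1` modulo `ℓ ^ (max r a)` and `m ≡ 0` modulo `b`.  `El ℓ g`: the order of `g` is a power of `ℓ` dividing
`ℓ ^ r`; `Reg ℓ g`: the order of `g` divides `b`. -/
def PexStmt : Prop := ∀ (ℓ : ℕ) [Fact ℓ.Prime] (G : Type) [Group G] [Finite G],
  ∃ r m : ℕ, 0 < r ∧ PE ℓ (ℓ ^ r) m G

/-- KCM: two systems with numbers `U` congruent modulo `ℓ^K` have the same number of characters
modulo `ℓ ^ 2`.

Proof.  `K` from CPG.  Let `D c = L1 B c - L1 B' c`, `N c d = L2 B c d - L2 B' c d` (rational numbers in `Rl ℓ`,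
HCO), `k = k(B) - k(B')`.  The assumptions of KAR: invariance: HCO for both.  (A): CPG (A), a rational
number in `RM M` is in `Rl ℓ`.  (B): CPG (B).  (SF), (H): the differences of the two relations of HCO (with
the same `|E₀|`).  So `ℓ ^ 2 ∣ k`. -/
def KcmStmt : Prop := ∀ (ℓ : ℕ) [Fact ℓ.Prime] (M : Ideal (integralClosure ℤ ℂ)) [M.IsMaximal],
  (ℓ : integralClosure ℤ ℂ) ∈ M → 5 ≤ ℓ → ∀ (V₀ : Type) [CommGroup V₀] [Finite V₀]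
  (E₀ : Subgroup (MulAut V₀)), Fr ℓ V₀ E₀ → ∀ n : ℕ, ∃ K : ℕ, ∀ (G G' : Type) [Group G] [Finite G]
  [Group G'] [Finite G'] (B : Bk (FF M) V₀ G) (B' : Bk (FF M) V₀ G') (m m' : ℕ),
  Sy ℓ M E₀ B → Sy ℓ M E₀ B' → PE ℓ n m G → PE ℓ n m' G' →
  (∀ W, W ≠ ⊥ → ∃ q ∈ SOR.Rl ℓ, B.U W - B'.U W = ℓ ^ K * q) →
  ((ℓ ^ 2 : ℕ) : ℤ) ∣ ((IrrE M B.e).ncard : ℤ) - ((IrrE M B'.e).ncard : ℤ)

end Pool.Agent.PP.SO
end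
end -- Pool.Agent.ASO.Stmts5

section -- Pool.Agent.ASD.DefsD

/-!
# Squad ASD: elementary abelian defect groups of order `ℓ ^ 2`, diagonal inertial quotients:
definitions

On top of squad ASO.  `Rw E₀ W`: only `1 ∈ E₀` fixes `W ≠ ⊥` pointwise; then the local block `b W`
has inertial index one.  `Dx ℓ E₀ A₁ A₂`: `V₀ = A₁ × A₂` and `E₀` maps `A₁`, `A₂` to themselves; then all
`W` different from `⊥`, `A₁`, `A₂` satisfy `Rw`.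
-/

open scoped BigOperators

noncomputable section

namespace Pool.Agent.PP.SD

open Pool.Agent.Helper51_AWC Pool.Agent.Helper79_WRA Pool.Agent.PP Pool.Agent.PP.KF
open Pool.Agent.PP.K9 Pool.Agent.PP.K9.H97 Pool.Agent.PP.H75 Pool.Agent.PP.T3 Pool.Agent.PP.SO

attribute [local instance] Ideal.Quotient.field

section basic

variable {V₀ : Type} [CommGroup V₀]

/-- `V₀` is elementary abelian of order `ℓ ^ 2`, `E₀` has order prime to `ℓ`. -/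
structure Fq (ℓ : ℕ) (V₀ : Type) [CommGroup V₀] (E₀ : Subgroup (MulAut V₀)) : Prop where
  ex : ∀ v : V₀, v ^ ℓ = 1
  cd : Nat.card V₀ = ℓ ^ 2
  cp : ¬ ℓ ∣ Nat.card E₀

/-- the pointwise stabiliser of `W` in `E₀` -/
def St (E₀ : Subgroup (MulAut V₀)) (W : Subgroup V₀) : Subgroup (MulAut V₀) where
  carrier := {σ | σ ∈ E₀ ∧ ∀ w ∈ W, σ w = w}
  one_mem' := ⟨E₀.one_mem, fun _ _ => rfl⟩
  mul_mem' := fun {a b} ha hb => ⟨E₀.mul_mem ha.1 hb.1, fun w hw => by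
    rw [MulAut.mul_apply, hb.2 w hw, ha.2 w hw]⟩
  inv_mem' := fun {a} ha => ⟨E₀.inv_mem ha.1, fun w hw => by
    rw [MulAut.inv_apply, MulEquiv.symm_apply_eq, ha.2 w hw]⟩

/-- `W ≠ ⊥` and only `1 ∈ E₀` fixes `W` pointwise. -/
def Rw (E₀ : Subgroup (MulAut V₀)) (W : Subgroup V₀) : Prop :=
  W ≠ ⊥ ∧ ∀ σ ∈ E₀, (∀ w ∈ W, σ w = w) → σ = 1

/-- `V₀ = A₁ × A₂`, `E₀` maps `A₁` and `A₂` to themselves, it does not act trivially on `A₁`, and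
some `σ ≠ 1` in `E₀` acts trivially on `A₁`, or `E₀` acts trivially on `A₂`. -/
structure Dx (ℓ : ℕ) (E₀ : Subgroup (MulAut V₀)) (A₁ A₂ : Subgroup V₀) : Prop extends
    Fq ℓ V₀ E₀ where
  c1 : Nat.card A₁ = ℓ
  c2 : Nat.card A₂ = ℓ
  ds : A₁ ⊓ A₂ = ⊥
  s1 : ∀ σ ∈ E₀, ∀ v ∈ A₁, σ v ∈ A₁
  s2 : ∀ σ ∈ E₀, ∀ v ∈ A₂, σ v ∈ A₂
  nt : ∃ σ ∈ E₀, ∃ v ∈ A₁, σ v ≠ v
  cs : (∃ σ ∈ E₀, σ ≠ 1 ∧ ∀ v ∈ A₁, σ v = v) ∨ ∀ σ ∈ E₀, ∀ v ∈ A₂, σ v = v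

/-- the number of the elements of `E₀` which fix `c` -/
def kE (E₀ : Subgroup (MulAut V₀)) (c : V₀) : ℕ := Nat.card (Es E₀ c)

open Classical in
/-- the factor of the weighted numbers: `1` if `W ≤ ⟨c⟩`, otherwise `1/kE` -/
def kf (E₀ : Subgroup (MulAut V₀)) (W : Subgroup V₀) (c : V₀) : ℚ :=
  if W ≤ Subgroup.zpowers c then 1 else (kE E₀ c : ℚ)⁻¹

/-- the alternating sum of four numbers -/
def X4 {A : Type} [AddCommGroup A] (f : Fin 4 → A) : A := f 0 - f 1 - f 2 + f 3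

end basic

section blk

variable {V₀ G H : Type} [CommGroup V₀] [Group G] [Group H] (ℓ : ℕ)
  (M : Ideal (integralClosure ℤ ℂ)) [M.IsMaximal]

/-- the conditions for the degrees and the signs, for the `W` with `Rw E₀ W` -/
structure Sd [Fact ℓ.Prime] (E₀ : Subgroup (MulAut V₀)) (B : Bk (FF M) V₀ G) : Prop extends
    Sb ℓ M E₀ B where
  dg : ∀ W, Rw E₀ W → Dg M (fun t : B.C W => B.b W t) (B.D W)
  sg : ∀ W, Rw E₀ W → B.S W = 1 ∨ B.S W = -1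
  un : ∀ W, Rw E₀ W → ∃ q ∈ SOR.Rl ℓ, B.U W = 1 + ℓ * q

/-- The data `B` of `G` and `B'` of `H` have the same local structure at `A`: `j : H → G` is injective,
its image contains the centraliser of `i(A)`, and the local blocks for `W ≥ A` are the same. -/
structure Pr {F : Type} (A : Subgroup V₀) (B : Bk F V₀ G) (B' : Bk F V₀ H) (j : H →* G) : Prop where
  inj : Function.Injective j
  i : ∀ v, j (B'.i v) = B.i v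
  cen : ∀ x ∈ B.C A, ∃ h, j h = x
  g : ∀ h, B'.g h = B.g (j h)
  b : ∀ W, A ≤ W → ∀ h, B'.b W h = B.b W (j h)

variable {M}

/-- the weights of the two kinds of frames -/
def wtD (E₀ : Subgroup (MulAut V₀)) (B : Bk (FF M) V₀ G) (c : V₀) (full : Bool) (s : G) : ℂ :=
  if full then ((kE E₀ c : ℂ) * Nat.card (B.C ⊤))⁻¹ * bh B ⊤ s
  else (Nat.card (B.C (Subgroup.zpowers c)) : ℂ)⁻¹ * (bh B (Subgroup.zpowers c) s -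
    ((kE E₀ c : ℂ) * Nat.card (B.C ⊤))⁻¹ *
      ∑ᶠ z : B.C (Subgroup.zpowers c), bh B ⊤ ((z : G)⁻¹ * s * z))

/-- the total sum -/
def TSD {n : ℕ} (E₀ : Subgroup (MulAut V₀)) (B : Bk (FF M) V₀ G) (m : ℕ) (c d : V₀)
    (F₁₃ F₁₂ : Set (SO.SS n V₀) → ℚ) : ℂ :=
  ∑ f : Bool, ∑ f' : Bool, ∑ᶠ w : G × G, wtD E₀ B c f w.1 * wtD E₀ B d f' w.2 *
    ((∑ᶠ z : XX (B.i c * w.1) (B.i d * w.2),
      (F₁₃ (t13 n m B.i (frm c f) (frm d f') (B.i c * w.1) z.1.1 z.1.2.1 z.1.2.2) +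
        F₁₂ (t12 n m B.i (frm c f) (frm d f') z.1.1 z.1.2.1 z.1.2.2)) : ℚ) : ℂ)

/-- `∑ ω_χ(f_κ)`, `χ` in the block `b A` of the centraliser of `i(A)` -/
def L1A (B : Bk (FF M) V₀ G) (A : Subgroup V₀) (κ : V₀) : ℂ := ∑ᶠ χ ∈ Ch B A, cv (fc B A κ) χ

end blk

section rel

variable {V₀ : Type} [CommGroup V₀]

/-- The properties of the functions of the types, with the values at the types which are not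
products. -/
structure FY (ℓ : ℕ) [Fact ℓ.Prime] (n : ℕ) (ρ₁ ρ₂ : V₀ → ZMod ℓ) (x₁ x₂ : V₀ → ℤ) (c d : V₀)
    (F₁₃ F₁₂ : Set (SO.SS n V₀) → ℚ) (K : Set (Fin n × V₀ × V₀) → ℚ) : Prop extends
    FX ℓ n ρ₁ ρ₂ x₁ x₂ c d F₁₃ F₁₂ K where
  np : ∀ (p q : V₀) (i₀ : ℕ), ¬ ℓ ∣ i₀ → ∃ z ∈ SOR.Rl ℓ,
    F₁₂ {s | s.2.2.1 = p ^ (s.2.1 : ℕ) ∧ s.2.2.2 = q ^ (s.2.1 : ℕ) ∧
      (s.1 : ℕ) ≡ i₀ * (s.2.1 : ℕ) [MOD ℓ]} =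
    (x₁ c⁻¹ * x₂ d⁻¹ : ℤ) / (ℓ : ℚ) ^ 2 - 12 * (x₁ p * x₂ q : ℤ) / ((ℓ : ℚ) ^ 2 * i₀) + z / ℓ

end rel

end Pool.Agent.PP.SD
end
end -- Pool.Agent.ASD.DefsD

section -- Pool.Agent.ASD.Stmts3

/-!
# Squad ASD, statements 3: the rows of `ASO/Stmts3.lean` and `ASO/Stmts4.lean` without freeness

`Fr ℓ V₀ E₀` is replaced by `Fq ℓ V₀ E₀`, `Sy` by `Sd`, and `W ≠ ⊥` by `Rw E₀ W` (only `1 ∈ E₀` fixes `W`
pointwise).  Where freeness was used, it was used in one of the following forms, which hold for `Rw`: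
`σ ∈ E₀` is determined by its values on `W`; the local block `b W` has inertial index one.  Also: if
`Rw E₀ W` and `W ≤ W'` then `Rw E₀ W'`; `Rw E₀ (σ W)` for `σ ∈ E₀` (`Rw E₀ W`); `Rw E₀ ⊤` (the elements of
`MulAut V₀` act faithfully, and `V₀ ≠ 1`); `W ≠ ⊥` is `⊤` or has order `ℓ` (`|V₀| = ℓ ^ 2`).  The numbers
`B.D W`, `B.S W`, `B.U W` have a meaning only for `Rw E₀ W`.  The proofs of the rows of ASO can be copied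
(files `Pool/Agent/HelperN_ASO/...`); the changes are given in the docstrings.
-/

open scoped BigOperators

noncomputable section

namespace Pool.Agent.PP.SD

open Pool.Agent.Helper51_AWC Pool.Agent.Helper79_WRA Pool.Agent.PP Pool.Agent.PP.KF
open Pool.Agent.PP.K9 Pool.Agent.PP.K9.H97 Pool.Agent.PP.H75 Pool.Agent.PP.T3 Pool.Agent.PP.SO

attribute [local instance] Ideal.Quotient.field

/-! ## 0. The condition `Rw` -/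

/-- RWD: properties of `Rw`.

Proof.  (1) `W ≤ W' `: `W' ≠ ⊥`, and what fixes `W'` fixes `W`.  (2) `τ ∈ E₀` fixes `σ W` pointwise iff
`σ⁻¹ τ σ` fixes `W` pointwise.  (3) `|V₀| = ℓ ^ 2 > 1`; an automorphism which fixes all elements is `1`.
(4) `σ⁻¹ τ` fixes `W` pointwise.  (5) The order of `W` divides `ℓ ^ 2`. -/
def RwdStmt : Prop := ∀ (ℓ : ℕ) [Fact ℓ.Prime] (V₀ : Type) [CommGroup V₀] [Finite V₀]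
  (E₀ : Subgroup (MulAut V₀)), Fq ℓ V₀ E₀ →
  (∀ W W' : Subgroup V₀, Rw E₀ W → W ≤ W' → Rw E₀ W') ∧
  (∀ σ ∈ E₀, ∀ W : Subgroup V₀, Rw E₀ (W.map σ.toMonoidHom) ↔ Rw E₀ W) ∧
  Rw E₀ ⊤ ∧
  (∀ W : Subgroup V₀, Rw E₀ W → ∀ σ ∈ E₀, ∀ τ ∈ E₀, (∀ w ∈ W, σ w = τ w) → σ = τ) ∧
  (∀ W : Subgroup V₀, W ≠ ⊥ → W = ⊤ ∨ Nat.card W = ℓ)

/-! ## 1. Local blocks -/

/-- LBD: the local block of `W` has the defect group `V`; its inertial index.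

Proof.  As LBG (`Helper40_ASO/LBG.lean`); that `V` is a defect group of `b W` does not use freeness.  The
inertial group is `T ∩ C(i W)`; `T ∩ C(i W) / C(V)` is isomorphic to `St E₀ W` (an element `t ∈ T` acts
on `V` by `σ ∈ E₀` (`act`), all `σ` occur (`sur`), `t ∈ C(V)` iff `σ = 1`, `t ∈ C(i W)` iff `σ` fixes `W`).
The second claim for `Rw E₀ W`: `St E₀ W = 1`. -/
def LbdStmt : Prop := ∀ (ℓ : ℕ) [Fact ℓ.Prime] (M : Ideal (integralClosure ℤ ℂ)) [M.IsMaximal],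
  (ℓ : integralClosure ℤ ℂ) ∈ M → ∀ (V₀ G : Type) [CommGroup V₀] [Finite V₀] [Group G] [Finite G]
  (E₀ : Subgroup (MulAut V₀)), Fq ℓ V₀ E₀ → ∀ B : Bk (FF M) V₀ G, Sb ℓ M E₀ B →
  ∀ W : Subgroup V₀,
  Ld ℓ (fun t : B.C W => B.b W t) (B.i.range.subgroupOf (B.C W)) (fun t : B.C W => B.g t) ∧
  ix (B.i.range.subgroupOf (B.C W)) (fun t : B.C W => B.g t) = Nat.card (St E₀ W) ∧
  (Rw E₀ W → ix (B.i.range.subgroupOf (B.C W)) (fun t : B.C W => B.g t) = 1)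

/-- SYD: existence of the local data.

Proof.  As SYE (`Helper1_ASO/SYE.lean`) for the `W` with `Rw E₀ W`; for the other `W` let `D W = 1`,
`S W = 1`. -/
def SydStmt : Prop := ∀ (ℓ : ℕ) [Fact ℓ.Prime] (M : Ideal (integralClosure ℤ ℂ)) [M.IsMaximal],
  (ℓ : integralClosure ℤ ℂ) ∈ M → ∀ (V₀ G : Type) [CommGroup V₀] [Finite V₀] [Group G] [Finite G]
  (E₀ : Subgroup (MulAut V₀)), Fq ℓ V₀ E₀ → ∀ (e g : G → FF M) (i : V₀ →* G),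
  Function.Injective i → Ld ℓ e i.range g →
  (∀ t ∈ Tg i.range g, ∃ σ ∈ E₀, ∀ v, t * i v * t⁻¹ = i (σ v)) →
  (∀ σ ∈ E₀, ∃ t ∈ Tg i.range g, ∀ v, t * i v * t⁻¹ = i (σ v)) →
  ∃ B : Bk (FF M) V₀ G, B.e = e ∧ B.g = g ∧ B.i = i ∧ Sd ℓ M E₀ B

/-- DGD: the `ℓ`-parts of the degrees.

Proof.  As DGV (`Helper79_ASO/DGV.lean`): `W = ⊤` first, then `U W` is a unit for `Rw E₀ W`. -/
def DgdStmt : Prop := ∀ (ℓ : ℕ) [Fact ℓ.Prime] (M : Ideal (integralClosure ℤ ℂ)) [M.IsMaximal],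
  (ℓ : integralClosure ℤ ℂ) ∈ M → ∀ (V₀ G : Type) [CommGroup V₀] [Finite V₀] [Group G] [Finite G]
  (E₀ : Subgroup (MulAut V₀)), Fq ℓ V₀ E₀ → ∀ B : Bk (FF M) V₀ G, Sd ℓ M E₀ B →
  ∀ W : Subgroup V₀, Rw E₀ W → ((ℓ ^ 2 * B.D W / Nat.card (B.C W) : ℂ)) ∈ RM M ∧
    ((Nat.card (B.C W) / (ℓ ^ 2 * B.D W) : ℂ)) ∈ RM M

/-- CJD: conjugation with the inertial group.

Proof.  As CJT (`Helper69_ASO/CJT.lean`): the first five claims follow from the uniqueness of the local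
blocks (LBU) and need only `Sb`; the last one is for `Rw E₀ W`. -/
def CjdStmt : Prop := ∀ (ℓ : ℕ) [Fact ℓ.Prime] (M : Ideal (integralClosure ℤ ℂ)) [M.IsMaximal],
  (ℓ : integralClosure ℤ ℂ) ∈ M → ℓ ≠ 2 → ∀ (V₀ G : Type) [CommGroup V₀] [Finite V₀] [Group G]
  [Finite G] (E₀ : Subgroup (MulAut V₀)), Fq ℓ V₀ E₀ → ∀ B : Bk (FF M) V₀ G, Sb ℓ M E₀ B →
  ∀ σ ∈ E₀, ∀ t ∈ Tg B.i.range B.g, (∀ v, t * B.i v * t⁻¹ = B.i (σ v)) → ∀ W : Subgroup V₀,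
  cj t (B.b W) = B.b (W.map σ.toMonoidHom) ∧
  (∀ x, t * x * t⁻¹ ∈ B.C (W.map σ.toMonoidHom) ↔ x ∈ B.C W) ∧
  Nat.card (B.C (W.map σ.toMonoidHom)) = Nat.card (B.C W) ∧
  (∀ x, bh B (W.map σ.toMonoidHom) (t * x * t⁻¹) = bh B W x) ∧
  (∀ c x, fc B (W.map σ.toMonoidHom) (σ c) (t * x * t⁻¹) = fc B W c x) ∧
  (Sd ℓ M E₀ B → Rw E₀ W → B.D (W.map σ.toMonoidHom) = B.D W ∧
    B.S (W.map σ.toMonoidHom) = B.S W ∧ B.U (W.map σ.toMonoidHom) = B.U W)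

/-- FUD: fusion of the subpairs `(W', b W')`.

Proof.  As FUW (`Helper76_ASO/FUW.lean`), freeness is not used (only the first part of LBG, now
LBD). -/
def FudStmt : Prop := ∀ (ℓ : ℕ) [Fact ℓ.Prime] (M : Ideal (integralClosure ℤ ℂ)) [M.IsMaximal],
  (ℓ : integralClosure ℤ ℂ) ∈ M → ∀ (V₀ G : Type) [CommGroup V₀] [Finite V₀] [Group G] [Finite G]
  (E₀ : Subgroup (MulAut V₀)), Fq ℓ V₀ E₀ → ∀ B : Bk (FF M) V₀ G, Sb ℓ M E₀ B →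
  ∀ (W W' : Subgroup V₀) (w : G) (f : V₀ → V₀), (∀ v ∈ W', w * B.i v * w⁻¹ = B.i (f v)) →
  (∀ v ∈ W', f v ∈ W) → (∀ v ∈ W, ∃ v' ∈ W', f v' = v) → cj w (B.b W') = B.b W →
  ∃ σ ∈ E₀, (∀ v ∈ W', f v = σ v) ∧ ∃ t ∈ Tg B.i.range B.g,
    (∀ v, t * B.i v * t⁻¹ = B.i (σ v)) ∧ t⁻¹ * w ∈ B.C W'

/-- FCD: `fc W x` is in the ideal of the block `b W`, for all `W`.

Proof.  `χ ∈ Irr H`, `H = C W`, `χ` not in `b W`.  As NSV (3) for `x ∉ W`: `cv (fc B W x) χ = (|H|/(|C_H(i x)|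
χ(1))) χ(i(x) b^)`, `b = b (W ⊔ ⟨x⟩)` the block of `C_H(i x) = C(W ⊔ ⟨x⟩)` under `b W` (`Lc`), and this is `0`
by `T3.SmgStmt` for the group `H` and the block `b W` (LBD).  For `x ∈ W`: `fc B W x = i(x) b^`,
`b = b W`, and `cv = λ χ(b^)/χ(1) = 0` (`i(x)` is central in `H`).  The last claim: all central characters
of both sides at the `χ ∈ Irr H` are equal. -/
def FcdStmt : Prop := ∀ (ℓ : ℕ) [Fact ℓ.Prime] (M : Ideal (integralClosure ℤ ℂ)) [M.IsMaximal],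
  (ℓ : integralClosure ℤ ℂ) ∈ M → ∀ (V₀ G : Type) [CommGroup V₀] [Finite V₀] [Group G]
  [Finite G] (E₀ : Subgroup (MulAut V₀)), Fq ℓ V₀ E₀ → ∀ B : Bk (FF M) V₀ G, Sb ℓ M E₀ B →
  ∀ W : Subgroup V₀,
  (∀ χ : G → ℂ, (∀ x, x ∉ B.C W → χ x = 0) → (fun t : B.C W => χ t) ∈ Irr (B.C W) →
    χ ∉ Ch B W → ∀ x, cv (fc B W x) χ = 0) ∧
  ∀ c x, mulF (fc B W c) (bh B W) x = fc B W c x

/-! ## 2. Character values in the local blocks -/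

/-- NSD: the values of the central characters in the local blocks with `Rw E₀ W`.

Proof.  As NSV (`Helper33_ASO/`), freeness was used only through `ix = 1` (LBD). -/
def NsdStmt : Prop := ∀ (ℓ : ℕ) [Fact ℓ.Prime] (M : Ideal (integralClosure ℤ ℂ)) [M.IsMaximal],
  (ℓ : integralClosure ℤ ℂ) ∈ M → ℓ ≠ 2 → ∀ (V₀ G : Type) [CommGroup V₀] [Finite V₀] [Group G]
  [Finite G] (E₀ : Subgroup (MulAut V₀)), Fq ℓ V₀ E₀ → ∀ B : Bk (FF M) V₀ G, Sd ℓ M E₀ B →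
  ∀ W : Subgroup V₀, Rw E₀ W →
  Set.BijOn (lam B W) (Ch B W) (lin V₀) ∧
  (∀ χ ∈ Ch B W, ∀ x, cv (fc B W x) χ = (ux B.U W x : ℚ) * lam B W χ x) ∧
  (∀ χ : G → ℂ, (∀ x, x ∉ B.C W → χ x = 0) → (fun t : B.C W => χ t) ∈ Irr (B.C W) →
    χ ∉ Ch B W → ∀ x, cv (fc B W x) χ = 0) ∧
  (∀ χ ∈ Ch B W, ∀ h ∈ B.C W, χ h = (Nat.card (B.C W) : ℂ) / (ℓ ^ 2 * B.D W) *
    ∑ᶠ x : V₀, starRingEnd ℂ (lam B W χ x) / (ux B.U W x : ℚ) * fc B W x h⁻¹) ∧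
  (∀ χ ∈ Ch B W, ∃ m₀ : ℤ, ∑ᶠ s, bh B ⊤ s * χ s = B.D ⊤ * (ℓ * m₀ + B.S W) ∨
    (B.C W = B.C ⊤ ∧ ∑ᶠ s, bh B ⊤ s * χ s = B.D ⊤)) ∧
  (∀ χ : G → ℂ, (∀ x, x ∉ B.C W → χ x = 0) → (fun t : B.C W => χ t) ∈ Irr (B.C W) →
    χ ∉ Ch B W → ∃ m₀ : ℤ, ∑ᶠ s, bh B ⊤ s * χ s = B.D ⊤ * (ℓ * m₀)) ∧
  bh B W 1 = ℓ ^ 2 * B.D W ^ 2 / Nat.card (B.C W)

/-- MUD: products of the elements `f_c`.  Proof: as MUL (`Helper3_ASO/MUL.lean`) with NSD. -/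
def MudStmt : Prop := ∀ (ℓ : ℕ) [Fact ℓ.Prime] (M : Ideal (integralClosure ℤ ℂ)) [M.IsMaximal],
  (ℓ : integralClosure ℤ ℂ) ∈ M → ℓ ≠ 2 → ∀ (V₀ G : Type) [CommGroup V₀] [Finite V₀] [Group G]
  [Finite G] (E₀ : Subgroup (MulAut V₀)), Fq ℓ V₀ E₀ → ∀ B : Bk (FF M) V₀ G, Sd ℓ M E₀ B →
  ∀ W : Subgroup V₀, Rw E₀ W → ∀ (c d : V₀) (x : G), mulF (fc B W c) (fc B W d) x =
    ((ux B.U W c * ux B.U W d / ux B.U W (c * d) : ℚ) : ℂ) * fc B W (c * d) x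

/-! ## 3. Counting -/

/-- GPD: the product of the elements `f_x`, `f_(x'⁻¹)` under the conditions of `L`.

Proof.  As GPR (`Helper82_ASO/GPR.lean`) with NSD, FUD, CJD: `Rw (p1 L ⊔ ⟨x⟩)`, `Rw (p2 L ⊔ ⟨x'⟩)` (RWD),
`σ` is determined by its values on `p2 L ⊔ ⟨x'⟩` (RWD (4)). -/
def GpdStmt : Prop := ∀ (ℓ : ℕ) [Fact ℓ.Prime] (M : Ideal (integralClosure ℤ ℂ)) [M.IsMaximal],
  (ℓ : integralClosure ℤ ℂ) ∈ M → ℓ ≠ 2 → ∀ (V₀ G : Type) [CommGroup V₀] [Finite V₀] [Group G]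
  [Finite G] (E₀ : Subgroup (MulAut V₀)), Fq ℓ V₀ E₀ → ∀ B : Bk (FF M) V₀ G, Sd ℓ M E₀ B →
  ∀ n m : ℕ, PE ℓ n m G → ∀ L : Set (V₀ × V₀ × ℤ), Rw E₀ (p1 L) → Rw E₀ (p2 L) → ∀ x x' : V₀,
  ∑ᶠ w ∈ {w : G × G | ∀ s ∈ L, w.2 * B.i s.2.1 * w.2⁻¹ = B.i s.1 * (w.1 ^ m) ^ s.2.2},
    fc B (p1 L) x w.1 * fc B (p2 L) x'⁻¹ (w.2⁻¹ * w.1⁻¹ * w.2) =
  (Nat.card (B.C (p1 L)) : ℂ) * Nat.card (B.C (p2 L)) *
    (ℓ ^ 2 * B.D (p1 L ⊔ Subgroup.zpowers x) ^ 2 /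
      (Nat.card (B.C (p1 L ⊔ Subgroup.zpowers x)) : ℂ) ^ 2) *
    {τ : MulAut V₀ | τ ∈ E₀ ∧ τ x = x' ∧ ∀ s ∈ L, τ (s.1 * x ^ s.2.2) = s.2.1}.ncard

/-- SSD: the sums `SL`.  Proof: as SSL (`Helper59_ASO/SSL.lean`) with GPD, NSD, CJD. -/
def SsdStmt : Prop := ∀ (ℓ : ℕ) [Fact ℓ.Prime] (M : Ideal (integralClosure ℤ ℂ)) [M.IsMaximal],
  (ℓ : integralClosure ℤ ℂ) ∈ M → ℓ ≠ 2 → ∀ (V₀ G : Type) [CommGroup V₀] [Finite V₀] [Group G]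
  [Finite G] (E₀ : Subgroup (MulAut V₀)), Fq ℓ V₀ E₀ → ∀ B : Bk (FF M) V₀ G, Sd ℓ M E₀ B →
  ∀ n m : ℕ, PE ℓ n m G → ∀ L : Set (V₀ × V₀ × ℤ), Rw E₀ (p1 L) → Rw E₀ (p2 L) →
  ∀ χ ∈ Ch B (p1 L), ∀ χ' ∈ Ch B (p2 L), SL B m L χ χ' =
    (Nat.card (B.C (p1 L)) : ℂ) * Nat.card (B.C (p2 L)) / ℓ ^ 2 * (B.S (p1 L) * B.S (p2 L)) *
    ∑ᶠ w ∈ {w : MulAut V₀ × V₀ | w.1 ∈ E₀ ∧ ∀ s ∈ L, w.1 (s.1 * w.2 ^ s.2.2) = s.2.1},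
      lam B (p1 L) χ w.2 * starRingEnd ℂ (lam B (p2 L) χ' (w.1 w.2))

/-- WTD: the value of `W13`.  Proof: as WTH (`Helper79_ASO/WTH.lean`) with SSD, NSD. -/
def WtdStmt : Prop := ∀ (ℓ : ℕ) [Fact ℓ.Prime] (M : Ideal (integralClosure ℤ ℂ)) [M.IsMaximal],
  (ℓ : integralClosure ℤ ℂ) ∈ M → ℓ ≠ 2 → ∀ (V₀ G : Type) [CommGroup V₀] [Finite V₀] [Group G]
  [Finite G] (E₀ : Subgroup (MulAut V₀)), Fq ℓ V₀ E₀ → ∀ B : Bk (FF M) V₀ G, Sd ℓ M E₀ B →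
  ∀ n m : ℕ, PE ℓ n m G → ∀ (c d : V₀) (L : Set (SO.SS n V₀)), Rw E₀ (pL L) → Rw E₀ (qL L) →
  W13 B m c d L = ((P13 E₀ B.U c d L : ℚ) : ℂ)

/-- W2A: `W12` in terms of the numbers `HK`.

Proof.  As W12A (`Helper63_ASO/`).  (1) No `u`.  (2) `pL L ≠ ⊥` and `EL E₀ L = ∅`: the formula
`W12 = (|C₁| |C₂|)⁻¹ ∑_u ∑_(g, h) fc W₁ c g fc W₂ d h R(g u h u⁻¹)` of the proof of W12A holds; for given `u` (with
`u i(q) u⁻¹ = i(p)` for all of `L`) the inner sum is `∑_κ (fc W₁ c * (conjugate of fc W₂ d)) (κ) R(κ)`, and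
`fc W₁ c`, `fc W₂ d` are multiples of `bh W₁`, `bh W₂` (FCD), so the product is `0` unless
`cj u (b W₂) = b W₁`; then FUD gives an element of `EL E₀ L`, a contradiction.  (If `qL L = ⊥` there is
no `u`.)  (3) `Rw E₀ (pL L)`: as W12A; if `EL E₀ L` is empty use (2), otherwise `Rw E₀ (qL L)` (RWD). -/
def W2aStmt : Prop := ∀ (ℓ : ℕ) [Fact ℓ.Prime] (M : Ideal (integralClosure ℤ ℂ)) [M.IsMaximal],
  (ℓ : integralClosure ℤ ℂ) ∈ M → ℓ ≠ 2 → ∀ (V₀ G : Type) [CommGroup V₀] [Finite V₀] [Group G]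
  [Finite G] (E₀ : Subgroup (MulAut V₀)), Fq ℓ V₀ E₀ → ∀ B : Bk (FF M) V₀ G, Sb ℓ M E₀ B →
  ∀ n m : ℕ, PE ℓ n m G → ∀ (c d : V₀) (L : Set (SO.SS n V₀)),
  (pL L = ⊥ → qL L ≠ ⊥ → W12 B m c d L = 0) ∧
  (pL L ≠ ⊥ → EL E₀ L = ∅ → W12 B m c d L = 0) ∧
  (Sd ℓ M E₀ B → Rw E₀ (pL L) → W12 B m c d L = ∑ᶠ σ ∈ EL E₀ L,
    ((ux B.U (pL L) c * ux B.U (pL L) (σ d) / ux B.U (pL L) (c * σ d) : ℚ) : ℂ) *
      HK B m (c * σ d) L)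

/-- W2B: the value of `HK` for `Rw E₀ (aL κ L)`.  Proof: as W12B (`Helper10_ASO/W12B.lean`) with SSD,
NSD. -/
def W2bStmt : Prop := ∀ (ℓ : ℕ) [Fact ℓ.Prime] (M : Ideal (integralClosure ℤ ℂ)) [M.IsMaximal],
  (ℓ : integralClosure ℤ ℂ) ∈ M → ℓ ≠ 2 → ∀ (V₀ G : Type) [CommGroup V₀] [Finite V₀] [Group G]
  [Finite G] (E₀ : Subgroup (MulAut V₀)), Fq ℓ V₀ E₀ → ∀ B : Bk (FF M) V₀ G, Sd ℓ M E₀ B →
  ∀ n m : ℕ, PE ℓ n m G → ∀ (κ : V₀) (L : Set (SO.SS n V₀)), Rw E₀ (aL κ L) →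
  HK B m κ L = ((ux B.U (aL κ L) κ * N12 E₀ κ L : ℚ) : ℂ)

end Pool.Agent.PP.SD
end
end -- Pool.Agent.ASD.Stmts3

section -- Pool.Agent.ASD.Stmts4

/-!
# Squad ASD, statements 4: characters, fibres, pairs, the mixed types, the part at `A₂`

Complete proofs in the docstrings.  These statements hold for every `B` with `Sb` unless said
otherwise; `b W` is the local block of `C W`, `V = i(V₀)`.  All the general facts about local blocks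
are in `Stmts3.lean` (`LBD`: `V` is a defect group of `b W`, `FUD`: fusion).
-/

open scoped BigOperators

noncomputable section

namespace Pool.Agent.PP.SD

open Pool.Agent.Helper51_AWC Pool.Agent.Helper79_WRA Pool.Agent.PP Pool.Agent.PP.KF
open Pool.Agent.PP.K9 Pool.Agent.PP.K9.H97 Pool.Agent.PP.H75 Pool.Agent.PP.T3 Pool.Agent.PP.SO

attribute [local instance] Ideal.Quotient.field

/-- the conditions for `(X, u)` -/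
def Lm {n : ℕ} {V₀ : Type} (L : Set (SO.SS n V₀)) : Set (V₀ × V₀ × ℤ) :=
  {s | ∃ t ∈ L, s = (t.2.2.1, t.2.2.2, -((t.2.1 : ℕ) : ℤ))}

/-- the conditions for `(x, w)` -/
def Lq {n : ℕ} {V₀ : Type} (L : Set (SO.SS n V₀)) : Set (V₀ × V₀ × ℤ) :=
  {s | ∃ t ∈ L, s = (t.2.2.1, t.2.2.2, ((t.1 : ℕ) : ℤ))}

/-! ## 1. The local blocks as blocks, characters -/

/-- RDA: the datum of the local block of `W`.

Proof.  `B'.e = b W`, `B'.g = g`, `B'.i = i`, `B'.b W' = b (W ⊔ W')`, all restricted to `C W`; `D`, `S` arbitrary.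
The centraliser of `i(W')` in `C W` is `C (W ⊔ W')`.  `ld` is LBD.  `act`, `sur`: an element of the inertial
group of `B'` is an element `t ∈ T ∩ C W`, it acts on `V` by `σ ∈ E₀` with `σ = 1` on `W`; conversely, if
`σ ∈ St E₀ W` and `t ∈ T` acts by `σ` then `t ∈ C W`.  `lb`: `b' = b (W ⊔ W')` is a block of `C (W ⊔ W')`, over `g` (`lb` of `B`); it is
under `b W`: `e` restricted to `C (W ⊔ W')` is the sum of the restrictions of the blocks `β` of `C W` under `e`, and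
`e b' = b'`, so `β b' = b'` (restriction to `C (W ⊔ W')`) for one of them, hence `br_V(β) g = g`
(`br_V(b') g = g`), so `β = b W` (`LBU`, second claim, `Helper4_ASO`).  The formula for `fc`: the sums over the conjugates
are the same.  The last claim is the definition of `Ch`. -/
def RdaStmt : Prop := ∀ (ℓ : ℕ) [Fact ℓ.Prime] (M : Ideal (integralClosure ℤ ℂ)) [M.IsMaximal],
  (ℓ : integralClosure ℤ ℂ) ∈ M → ℓ ≠ 2 → ∀ (V₀ G : Type) [CommGroup V₀] [Finite V₀] [Group G]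
  [Finite G] (E₀ : Subgroup (MulAut V₀)), Fq ℓ V₀ E₀ → ∀ B : Bk (FF M) V₀ G, Sb ℓ M E₀ B →
  ∀ W : Subgroup V₀, Fq ℓ V₀ (St E₀ W) ∧ ∃ B' : Bk (FF M) V₀ (B.C W), Sb ℓ M (St E₀ W) B' ∧
    (∀ t, B'.e t = B.b W t) ∧ (∀ t, B'.g t = B.g t) ∧ (∀ v, (B'.i v : G) = B.i v) ∧
    (∀ W' t, B'.b W' t = B.b (W ⊔ W') t) ∧ (∀ W' t, t ∈ B'.C W' ↔ (t : G) ∈ B.C (W ⊔ W')) ∧
    (∀ W', Nat.card (B'.C W') = Nat.card (B.C (W ⊔ W'))) ∧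
    (∀ x t, fc B' ⊥ x t = fc B W x t) ∧
    (∀ χ : G → ℂ, (∀ t, t ∉ B.C W → χ t = 0) →
      (χ ∈ Ch B W ↔ (fun t : B.C W => χ t) ∈ IrrE M B'.e) ∧
      ∀ x, cv (fc B' ⊥ x) (fun t : B.C W => χ t) = cv (fc B W x) χ) ∧
    (∀ κ, L1 B' κ = L1A B W κ)

/-- W3C: `W13` in terms of characters.

Proof.  This is the first part of the proof of `WTH` (`Helper79_ASO/WTH.lean`), which needs no
freeness: `C₁ = C(pL L)`, `C₂ = C(qL L)`.  `fc B W c (g) = ∑_(χ ∈ Ch W) cv(fc B W c) χ (χ 1/|C W|) χ(g⁻¹)` for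
`g ∈ C W` by FCD, and the mean values give `χ(X) χ(x⁻¹)/χ 1`. -/
def W3cStmt : Prop := ∀ (ℓ : ℕ) [Fact ℓ.Prime] (M : Ideal (integralClosure ℤ ℂ)) [M.IsMaximal],
  (ℓ : integralClosure ℤ ℂ) ∈ M → ℓ ≠ 2 → ∀ (V₀ G : Type) [CommGroup V₀] [Finite V₀] [Group G]
  [Finite G] (E₀ : Subgroup (MulAut V₀)), Fq ℓ V₀ E₀ → ∀ B : Bk (FF M) V₀ G,
  Sb ℓ M E₀ B → ∀ n m : ℕ, PE ℓ n m G → ∀ (c d : V₀) (L : Set (SO.SS n V₀)),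
  W13 B m c d L = ((Nat.card (B.C (pL L)) : ℂ) * Nat.card (B.C (qL L)))⁻¹ ^ 2 *
    ∑ᶠ χ ∈ Ch B (pL L), ∑ᶠ χ' ∈ Ch B (qL L), cv (fc B (pL L) c) χ * cv (fc B (qL L) d) χ' *
      (SL B m (Lm L) χ χ' * starRingEnd ℂ (SL B m (Lq L) χ χ'))

/-- HKC: weighted numbers of commutators in terms of characters.

Proof.  As in the proof of `W12B` (`Helper10_ASO/W12B.lean`).  Let `g = i(κ) t`, `t ∈ C(A ⊔ ⟨κ⟩)` regular; with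
`R(g) = ∑_([x, y] = g, x ∈ C A) Φ (x^m) y`, a class function on `C A` by the two invariances
(`(x, y) ↦ (v x v⁻¹, v y v⁻¹)`), the left side is `|C A|⁻¹ ∑_g fc A κ g R(g)`.  If `x`, `[x, y] ∈ C A` then
`y x y⁻¹ ∈ C A`.  FCD: `fc A κ (g) = ∑_(χ ∈ Ch A) cv(fc A κ) χ (χ 1/|C A|) χ(g⁻¹)`.  Replace `y` by `v y`,
`v ∈ C A`: `[x, v y]⁻¹ = v (y x y⁻¹) v⁻¹ x⁻¹`, the mean value is `χ(y x y⁻¹) χ(x⁻¹)/χ 1`. -/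
def HkcStmt : Prop := ∀ (ℓ : ℕ) [Fact ℓ.Prime] (M : Ideal (integralClosure ℤ ℂ)) [M.IsMaximal],
  (ℓ : integralClosure ℤ ℂ) ∈ M → ℓ ≠ 2 → ∀ (V₀ G : Type) [CommGroup V₀] [Finite V₀] [Group G]
  [Finite G] (E₀ : Subgroup (MulAut V₀)), Fq ℓ V₀ E₀ → ∀ B : Bk (FF M) V₀ G,
  Sb ℓ M E₀ B → ∀ n m : ℕ, PE ℓ n m G → ∀ (A : Subgroup V₀) (κ : V₀) (Φ : G → G → ℂ),
  (∀ z y, ∀ v ∈ B.C A, Φ (v * z * v⁻¹) (y * v⁻¹) = Φ z y) →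
  (∀ z y, ∀ v ∈ B.C A, Φ z (v * y) = Φ z y) →
  (Nat.card (B.C (A ⊔ Subgroup.zpowers κ)) : ℂ)⁻¹ *
    ∑ᶠ t : G, bh B (A ⊔ Subgroup.zpowers κ) t *
      ∑ᶠ w ∈ {w : G × G | SO.kap w.1 w.2 = B.i κ * t ∧ w.1 ∈ B.C A}, Φ (w.1 ^ m) w.2 =
  (Nat.card (B.C A) : ℂ)⁻¹ ^ 2 * ∑ᶠ χ ∈ Ch B A, cv (fc B A κ) χ *
    ∑ᶠ w ∈ {w : G × G | w.1 ∈ B.C A ∧ w.2 * w.1 * w.2⁻¹ ∈ B.C A},
      Φ (w.1 ^ m) w.2 * (χ (w.2 * w.1 * w.2⁻¹) * χ w.1⁻¹)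

/-! ## 2. Fibres -/

/-- PSC: the sections of the local blocks.

Proof.  As in `HFPR` (`StmtsH.lean`, `Helper13_ASO`), in the group `C W`, whose block `b W` has the defect
group `V` (LBD).  `T3.DugStmt` (`Q = ⟨z⟩`, in `C W`): an `ℓ`-subgroup `P ∋ z` of `C W ∩ C(z)` with
`|P| = |V|`, good for `β`, so good for `b W`, so `P = k V k⁻¹`, `k ∈ C W` (`K9.FmgStmt`).  Replace `(z, β)` by the
conjugate with `k⁻¹`: `P = V`, `z = i(v)`, `C W ∩ C(z) = C(W ⊔ ⟨v⟩)`.  Let `γ₁` be a block of `C(V)` with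
`br_V(β) γ₁ = γ₁`; it is under `br_V(b W)`, so `g = cj n γ₁` with `n ∈ N(V) ∩ C W` (`K9.OrbStmt` in `C W`).
Conjugate with `n`: `n i(v) n⁻¹ = i(v')`, `cj n β` is a block of `C(W ⊔ ⟨v'⟩)` over `g` and under `b W`, so under `e`
(`e b W = b W` on `C W`); so it is `b (W ⊔ ⟨v'⟩)` (LBU). -/
def PscStmt : Prop := ∀ (ℓ : ℕ) [Fact ℓ.Prime] (M : Ideal (integralClosure ℤ ℂ)) [M.IsMaximal],
  (ℓ : integralClosure ℤ ℂ) ∈ M → ℓ ≠ 2 → ∀ (V₀ G : Type) [CommGroup V₀] [Finite V₀] [Group G]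
  [Finite G] (E₀ : Subgroup (MulAut V₀)), Fq ℓ V₀ E₀ → ∀ B : Bk (FF M) V₀ G, Sb ℓ M E₀ B →
  ∀ (W : Subgroup V₀) (z : G), z ∈ B.C W → El ℓ z → ∀ β : G → FF M, Bx (B.C W ⊓ Cu z) β →
  mulF (fun t : (B.C W ⊓ Cu z : Subgroup G) => B.b W t)
    (fun t : (B.C W ⊓ Cu z : Subgroup G) => β t) =
      (fun t : (B.C W ⊓ Cu z : Subgroup G) => β t) →
  ∃ g ∈ B.C W, ∃ v : V₀, z = g * B.i v * g⁻¹ ∧ β = cj g (B.b (W ⊔ Subgroup.zpowers v))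

/-- FIB: the sum over the regular elements for given `y` and given `ℓ`-part `z`.

Proof.  `R` = the subgroup generated by `i(W)` and `z` = the one generated by `y i(W') y⁻¹` and `z`
(hypothesis), `C(R) = C W ∩ C(z) = (y C W' y⁻¹) ∩ C(z)`.  Let `χ₁(x) = χ'(y⁻¹ x y)`, a character of
`y C W' y⁻¹` in the block `cj y (b W')`.  For `x ∈ C(R)` regular `χ(z x) = ∑_β χ(z x β^)`, over the blocks `β` of
`C(R)` (the sum of the lifts is `1`), and the terms with `β` not under `b W` vanish (`z ≠ 1`: `T3.SmgStmt`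
in the group `C W`, for the regular element `x` as in `gv` of `z x`; or apply it to the function
`x ↦ χ(z x)`; `z = 1`: `R = i(W)`, `χ` is in `b W`); the same for `χ₁(z⁻¹ x⁻¹)` and `cj y (b W')`.  The function
`x ↦ χ(z x β^)` on the regular elements of `C(R)` is a combination of the characters in `β`
(restriction to `C(R)`, `z` central in `C(R)`), and for different blocks `β`, `β'` of `C(R)`
`∑_(x regular) κ(x) κ'(x⁻¹) = 0` (`K9.RotStmt`).  So if the sum is not `0` there is a block `β` of `C(R)` under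
`b W` and under `cj y (b W')`.  PSC for `W`, `z`, `β`: `g`, `v`.  PSC for `W'`, `y⁻¹ z y`, `cj y⁻¹ β`: `g'`, `v'`:
`y⁻¹ z y = g' i(v') g'⁻¹`, `cj y⁻¹ β = cj g' (b (W' ⊔ ⟨v'⟩))`.  `τ = g⁻¹ y g'` maps `i(v')` to `i(v)`,
`cj τ (b (W' ⊔ ⟨v'⟩)) = b (W ⊔ ⟨v⟩)`, and `τ i(W' ⊔ ⟨v'⟩) τ⁻¹ = g⁻¹ R g = i(W ⊔ ⟨v⟩)` (`g'` centralises `i(W')`, `g`
centralises `i(W)`).  FUD: `σ ∈ E₀`, `t ∈ T` with `t⁻¹ τ ∈ C(W' ⊔ ⟨v'⟩) ≤ C W'`.  `y = g t (t⁻¹ τ g'⁻¹)`. -/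
def FibStmt : Prop := ∀ (ℓ : ℕ) [Fact ℓ.Prime] (M : Ideal (integralClosure ℤ ℂ)) [M.IsMaximal],
  (ℓ : integralClosure ℤ ℂ) ∈ M → ℓ ≠ 2 → ∀ (V₀ G : Type) [CommGroup V₀] [Finite V₀] [Group G]
  [Finite G] (E₀ : Subgroup (MulAut V₀)), Fq ℓ V₀ E₀ → ∀ B : Bk (FF M) V₀ G, Sb ℓ M E₀ B →
  ∀ W W' : Subgroup V₀, ∀ χ ∈ Ch B W, ∀ χ' ∈ Ch B W', ∀ y z : G, El ℓ z → z ∈ B.C W →
  y⁻¹ * z * y ∈ B.C W' →
  (∀ q ∈ W', ∃ p ∈ W, ∃ k : ℤ, y * B.i q * y⁻¹ = B.i p * z ^ k) →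
  (∀ p ∈ W, ∃ q ∈ W', ∃ k : ℤ, B.i p = y * B.i q * y⁻¹ * z ^ k) →
  ∑ᶠ x ∈ {x : G | x ∈ B.C W ∧ x * z = z * x ∧ Reg ℓ x}, χ (z * x) * χ' (y⁻¹ * (z * x)⁻¹ * y) ≠ 0 →
  ∃ σ ∈ E₀, ∃ t ∈ Tg B.i.range B.g, (∀ v, t * B.i v * t⁻¹ = B.i (σ v)) ∧
    ∃ g ∈ B.C W, ∃ g' ∈ B.C W', ∃ v : V₀, y = g * t * g' ∧ z = g * B.i v * g⁻¹

/-! ## 3. Pairs -/

/-- PCH: the dictionary for a pair.

Proof.  For `W ≥ A`: `C W ≤ C A ≤ j(H)`, so `j` restricts to an isomorphism of `B'.C W` onto `B.C W`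
(`j (B'.i v) = B.i v`, `j` injective), which carries `B'.b W` to `B.b W` (and vanishing outside).  So
`bh`, `fc` (it uses only `C W`, `C (W ⊔ ⟨x⟩)`, `b (W ⊔ ⟨x⟩)`), `Ch`, `cv` (the functions `fc B W x`, `χ` vanish outside
of `C W`), and the numbers of modular characters correspond. -/
def PchStmt : Prop := ∀ (ℓ : ℕ) [Fact ℓ.Prime] (M : Ideal (integralClosure ℤ ℂ)) [M.IsMaximal],
  (ℓ : integralClosure ℤ ℂ) ∈ M → ℓ ≠ 2 → ∀ (V₀ G H : Type) [CommGroup V₀] [Finite V₀] [Group G]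
  [Finite G] [Group H] [Finite H] (E₀ : Subgroup (MulAut V₀)) (A : Subgroup V₀)
  (B : Bk (FF M) V₀ G) (B' : Bk (FF M) V₀ H) (j : H →* G), Sb ℓ M E₀ B → Sb ℓ M E₀ B' →
  Pr A B B' j → ∀ W : Subgroup V₀, A ≤ W →
  Nat.card (B'.C W) = Nat.card (B.C W) ∧ (∀ h, j h ∈ B.C W ↔ h ∈ B'.C W) ∧
  (∀ x ∈ B.C W, ∃ h, j h = x) ∧ (∀ h, bh B' W h = bh B W (j h)) ∧
  (∀ x h, fc B' W x h = fc B W x (j h)) ∧
  Set.BijOn (fun (χ : G → ℂ) (h : H) => χ (j h)) (Ch B W) (Ch B' W) ∧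
  (∀ x, ∀ χ ∈ Ch B W, cv (fc B' W x) (fun h => χ (j h)) = cv (fc B W x) χ) ∧
  ln (fun t : B'.C W => B'.b W t) = ln (fun t : B.C W => B.b W t)

/-- SLP: the sums `SL` for a pair.

Proof.  Group the terms `w = (X, u)` of `SL B m L χ χ'` (with `X ∈ C A`, `u⁻¹ X u ∈ C A`, otherwise the term
is `0`) by `u` and the `ℓ`-part `z = X ^ m` of `X` (`PE`; `X = z x`, `x = z⁻¹ X` regular, commuting with
`z`, both in `C A`): the condition `u i(q) u⁻¹ = i(p) (X^m)^k` depends only on `(u, z)`.  It implies the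
hypotheses of FIB for `y = u`, `W = W' = A` (they hold for the generators `q` of `p2 L = A` and `p` of
`p1 L = A`; the set of the `q` with the property is a subgroup, as `z` commutes with `i(A)` and with
`u i(A) u⁻¹`).  So only `u ∈ C A t C A`, `t ∈ T` inducing some `σ ∈ E₀`, contribute.  `C A ≤ j(H)`; and
`t ∈ j(H)`: by `sur` for `B'` there is `t'` in the inertial group of `B'` inducing `σ`, and `(j t')⁻¹ t` centralises `V`,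
so it is in `C A ≤ j(H)`.  `X ∈ C A ≤ j(H)`.  So the sum over `G` is the sum over `j(H)`. -/
def SlpStmt : Prop := ∀ (ℓ : ℕ) [Fact ℓ.Prime] (M : Ideal (integralClosure ℤ ℂ)) [M.IsMaximal],
  (ℓ : integralClosure ℤ ℂ) ∈ M → ℓ ≠ 2 → ∀ (V₀ G H : Type) [CommGroup V₀] [Finite V₀] [Group G]
  [Finite G] [Group H] [Finite H] (E₀ : Subgroup (MulAut V₀)) (A : Subgroup V₀), Fq ℓ V₀ E₀ →
  ∀ (B : Bk (FF M) V₀ G) (B' : Bk (FF M) V₀ H) (j : H →* G), Sb ℓ M E₀ B → Sb ℓ M E₀ B' →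
  Pr A B B' j → ∀ n m : ℕ, PE ℓ n m G → ∀ L : Set (V₀ × V₀ × ℤ), p1 L = A → p2 L = A →
  ∀ χ ∈ Ch B A, ∀ χ' ∈ Ch B A,
    SL B' m L (fun h => χ (j h)) (fun h => χ' (j h)) = SL B m L χ χ'

/-- PRT: `W13` for a pair.

Proof.  W3C for `G` and for `H` (`PE ℓ n m H` follows), PCH, SLP (`p1 (Lm L) = p1 (Lq L) = pL L`,
`p2 (Lm L) = p2 (Lq L) = qL L`). -/
def PrtStmt : Prop := ∀ (ℓ : ℕ) [Fact ℓ.Prime] (M : Ideal (integralClosure ℤ ℂ)) [M.IsMaximal],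
  (ℓ : integralClosure ℤ ℂ) ∈ M → ℓ ≠ 2 → ∀ (V₀ G H : Type) [CommGroup V₀] [Finite V₀] [Group G]
  [Finite G] [Group H] [Finite H] (E₀ : Subgroup (MulAut V₀)) (A : Subgroup V₀), Fq ℓ V₀ E₀ →
  ∀ (B : Bk (FF M) V₀ G) (B' : Bk (FF M) V₀ H) (j : H →* G), Sb ℓ M E₀ B → Sb ℓ M E₀ B' →
  Pr A B B' j → ∀ n m : ℕ, PE ℓ n m G → ∀ (c d : V₀) (L : Set (SO.SS n V₀)), pL L = A → qL L = A →
    W13 B' m c d L = W13 B m c d L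

/-- PRH: `HK` for a pair.

Proof.  HKC with `Φ z y = 1` if `y⁻¹ a y = a z ^ i` for all the `a = i(κ^k p)` of `L`, `0` otherwise (`aL κ L = A`:
the condition `a x = x a` for all of them is `x ∈ C A`); the inner sum is
`conj SL(L_A; χ, χ)`, `L_A = {(κ^k p, κ^k p, i)}`, `p1 L_A = p2 L_A = A` (`u = y⁻¹`; `χ(x⁻¹) = conj χ(x)`).  PCH, SLP. -/
def PrhStmt : Prop := ∀ (ℓ : ℕ) [Fact ℓ.Prime] (M : Ideal (integralClosure ℤ ℂ)) [M.IsMaximal],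
  (ℓ : integralClosure ℤ ℂ) ∈ M → ℓ ≠ 2 → ∀ (V₀ G H : Type) [CommGroup V₀] [Finite V₀] [Group G]
  [Finite G] [Group H] [Finite H] (E₀ : Subgroup (MulAut V₀)) (A : Subgroup V₀), Fq ℓ V₀ E₀ →
  ∀ (B : Bk (FF M) V₀ G) (B' : Bk (FF M) V₀ H) (j : H →* G), Sb ℓ M E₀ B → Sb ℓ M E₀ B' →
  Pr A B B' j → ∀ n m : ℕ, PE ℓ n m G → ∀ (κ : V₀) (L : Set (SO.SS n V₀)), aL κ L = A →
    HK B' m κ L = HK B m κ L

/-- PRO: `W12` of pure conditions for a pair.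

Proof.  For `i = k = 0` the conditions `c12` are: `p` commutes with `x` and `y`, `u q u⁻¹ = p`.  So
`x, y ∈ C A`, `u i(A) u⁻¹ = i(A)`, and the condition for `u` is invariant under `u ↦ v u v'`, `v, v' ∈ C A`.
`W12 = |C A|⁻² ∑_u ∑_(g, h) fc A c g fc A d h R(g u h u⁻¹)`, `R(k)` the number of the `(x, y)` in `C A` with
`[x, y] = k` (means over `C A` on both sides, as in `W12A`).  For fixed `u` the element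
`fc A c * (u fc A d u⁻¹)` of the group ring of `C A` is a multiple of the product of the lifts of `b A` and
`cj u (b A)` (FCD), so it is `0` unless `cj u (b A) = b A`; then by FUD `u ∈ t C A`, `t ∈ T`, so `u ∈ j(H)` (see SLP).
Everything takes place in `j(H)`; PCH. -/
def ProStmt : Prop := ∀ (ℓ : ℕ) [Fact ℓ.Prime] (M : Ideal (integralClosure ℤ ℂ)) [M.IsMaximal],
  (ℓ : integralClosure ℤ ℂ) ∈ M → ℓ ≠ 2 → ∀ (V₀ G H : Type) [CommGroup V₀] [Finite V₀] [Group G]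
  [Finite G] [Group H] [Finite H] (E₀ : Subgroup (MulAut V₀)) (A : Subgroup V₀), Fq ℓ V₀ E₀ →
  ∀ (B : Bk (FF M) V₀ G) (B' : Bk (FF M) V₀ H) (j : H →* G), Sb ℓ M E₀ B → Sb ℓ M E₀ B' →
  Pr A B B' j → ∀ n m : ℕ, PE ℓ n m G → ∀ (c d : V₀) (L : Set (SO.SS n V₀)), pL L = A → qL L = A →
  (∀ s ∈ L, (s.1 : ℕ) = 0 ∧ (s.2.1 : ℕ) = 0) → W12 B' m c d L = W12 B m c d L

/-! ## 4. Mixed types -/

/-- SMX: the sums `SL` if only the second block has inertial index one.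

Proof.  `W₁ = p1 L`, `W₂ = p2 L`, `C₁`, `C₂`.  NSD (4) for `χ'` (`Rw E₀ W₂`):
`χ'(u⁻¹ X⁻¹ u) = (|C₂|/(ℓ² D₂)) ∑_x conj λ'(x)/ux₂(x) · fc W₂ x (u⁻¹ X u)`, `λ' = lam χ'`.  Insert the definition of
`fc W₂ x`, `W' = W₂ ⊔ ⟨x⟩`: `|C W'|⁻¹ ∑_(z' ∈ C₂) bh W' (i(x)⁻¹ z'⁻¹ u⁻¹ X u z')`; substitute `u ↦ u z'⁻¹`:
`∑_((X, u), cond) χ(X) fc W₂ x (u⁻¹ X u) = (|C₂|/|C W'|) ∑_(u, s) χ(u i(x) s u⁻¹) bh W' s`, `s ∈ C W'` regular,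
`X^m = u i(x) u⁻¹`, condition `u i(q x^(-k)) u⁻¹ = i(p)`.  For given `u` let `W₂'` be the subgroup
generated by the `q x^(-k)` (it depends only on `L`, `x`); `u i(W₂') u⁻¹ = i(W₁)`, `W₂' ⊔ ⟨x⟩ = W'`.
`χᵘ(y) = χ(u y u⁻¹)` is a character of `C W₂'` in the block `cj u⁻¹ (b W₁)`, and
`∑_s bh W' s χᵘ(i(x) s) = 0` (`T3.SmgStmt` in `C W₂'`; if `x ∈ W₂'` directly) unless `b W'` is under
`cj u⁻¹ (b W₁)`; then `cj u⁻¹ (b W₁) = b W₂'` (both are blocks of `C W₂'` which are over `b W'`; `br_V` and `g`).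
By FUD `u ∈ t C W₂'`, `t ∈ T` inducing `σ ∈ E₀` with `σ(q x^(-k)) = p` for all of `L`.  Conversely, for such `σ`
all `u ∈ t C W₂'` satisfy the condition, and the value is `∑_s χ(t i(x) s t⁻¹) bh W' s =
∑_s χ(i(σ x) s) bh (σ W') s` (CJD), `σ W' = W₁ ⊔ ⟨σ x⟩`.  `|C W₂'| = |C₁|` elements `u` for every `σ`, and every
`u` belongs to the `|St E₀ W₁|` elements `σ` of one coset of `St E₀ W₂'` (`|St E₀ W₂'| = |St E₀ W₁|`). -/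
def SmxStmt : Prop := ∀ (ℓ : ℕ) [Fact ℓ.Prime] (M : Ideal (integralClosure ℤ ℂ)) [M.IsMaximal],
  (ℓ : integralClosure ℤ ℂ) ∈ M → ℓ ≠ 2 → ∀ (V₀ G : Type) [CommGroup V₀] [Finite V₀] [Group G]
  [Finite G] (E₀ : Subgroup (MulAut V₀)), Fq ℓ V₀ E₀ → ∀ B : Bk (FF M) V₀ G, Sd ℓ M E₀ B →
  ∀ n m : ℕ, PE ℓ n m G → ∀ L : Set (V₀ × V₀ × ℤ), Rw E₀ (p2 L) → ∀ χ ∈ Ch B (p1 L),
  ∀ χ' ∈ Ch B (p2 L), SL B m L χ χ' =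
    (Nat.card (B.C (p1 L)) : ℂ) * (Nat.card (B.C (p2 L)) : ℂ) ^ 2 /
      (ℓ ^ 2 * B.D (p2 L) * Nat.card (St E₀ (p1 L))) *
    ∑ᶠ w ∈ {w : MulAut V₀ × V₀ | w.1 ∈ E₀ ∧ ∀ s ∈ L, w.1 (s.2.1 * (w.2 ^ s.2.2)⁻¹) = s.1},
      starRingEnd ℂ (lam B (p2 L) χ' w.2) / (ux B.U (p2 L) w.2 : ℚ) *
        (Nat.card (B.C (p2 L ⊔ Subgroup.zpowers w.2)) : ℂ)⁻¹ *
        ∑ᶠ s, bh B (p1 L ⊔ Subgroup.zpowers (w.1 w.2)) s * χ (B.i (w.1 w.2) * s)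

/-- MXA: `W13` if `c ∈ pL L` and the block of `qL L` has inertial index one.

Proof.  `W₁ = pL L`, `W₂ = qL L`, `k₁ = |St E₀ W₁|`.  W3C and SMX for `Lm L`, `Lq L`.  For `χ ∈ Ch W₁` let
`V_x(χ) = ∑_s bh (W₁ ⊔ ⟨x⟩) s χ(i(x) s)`.  `cv (fc W₁ c) χ = χ(i c)/χ 1` (`c ∈ W₁`), `i(c)` is central in `C₁`, so
`(χ(i c)/χ 1) V_x(χ) = V_(c x)(χ)`.  The sum over `χ` is `∑_χ V_(c x)(χ) conj V_(x')(χ)`, `x = σ₋ x₋`, `x' = σ₊ x₊`;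
`W₁ ⊔ ⟨x⟩ = σ₋ (W₂ ⊔ ⟨x₋⟩)` satisfies `Rw`, the same for `x'`.  By `T3.Co2Stmt`, `FUD` in `C₁` it is `0`
unless `x' = h (c x)` for some `h ∈ St E₀ W₁` (unique, `Rw`), and then by `T3.Co1Stmt` (or: the sum of the
`|κ(y b^)|²` is `|C(W')| b^(1)`) it is `|C W'| bh W' 1 = ℓ² (D W')²`, `W' = W₁ ⊔ ⟨x⟩` (NSD (7)).  The sum over `χ'` of
`cv (fc W₂ d) χ' conj λ'(x₋) λ'(x₊)` is `ux₂(d) ℓ²` if `x₋ = d x₊`, `0` otherwise (NSD).  As in SSL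
`D W'/|C W'| = ux₂(x₋) ε₋ D₂/|C₂| = ux₂(x₊) ε₊ D₂/|C₂|` (CJD), `ε₋ = ε₊ = ±1` (`x₋ ∈ W₂` iff
`|C(W₂ ⊔ ⟨x₋⟩)| ...`: `W₂ ⊔ ⟨x₋⟩` and `W₂ ⊔ ⟨x₊⟩` have the same order).  So
`W13 = ux₂(d) k₁⁻² #{(σ₋, x₋, σ₊, x₊, h)}` with `σ₋(q x₋^j) = p`, `σ₊(q x₊^(-i)) = p`, `x₋ = d x₊`,
`σ₊ x₊ = h(c σ₋ x₋)`.  Put `X = σ₋ x₋`, `σ₁ = σ₋⁻¹`, `σ₂ = σ₊⁻¹ h`: `σ₁(p X^(-j)) = q`,
`σ₂(p (c X)^i) = q` (`h p = p`), `σ₁ X = d σ₂(c X)`: for every `h` the elements of `N13`. -/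
def MxaStmt : Prop := ∀ (ℓ : ℕ) [Fact ℓ.Prime] (M : Ideal (integralClosure ℤ ℂ)) [M.IsMaximal],
  (ℓ : integralClosure ℤ ℂ) ∈ M → ℓ ≠ 2 → ∀ (V₀ G : Type) [CommGroup V₀] [Finite V₀] [Group G]
  [Finite G] (E₀ : Subgroup (MulAut V₀)), Fq ℓ V₀ E₀ → ∀ B : Bk (FF M) V₀ G, Sd ℓ M E₀ B →
  ∀ n m : ℕ, PE ℓ n m G → ∀ (c d : V₀) (L : Set (SO.SS n V₀)), c ∈ pL L → pL L ≠ ⊥ →
  Rw E₀ (qL L) →
  W13 B m c d L = (((Nat.card (St E₀ (pL L)) : ℚ)⁻¹ * P13 E₀ B.U c d L : ℚ) : ℂ)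

/-- MXB: the same with the two sides exchanged.

Proof.  The substitution `(x, y, u) ↦ (x̂, ŷ, û)`: in the notation of `WTH` `(x, w)`, `(X, u)` with
`g = x X⁻¹`, `h = (u⁻¹ X u)(w⁻¹ x⁻¹ w)` go to `x̂ = u⁻¹ X u`, `ŵ = u⁻¹`, `X̂ = w⁻¹ x w`, `û = w⁻¹`: then
`h = x̂ X̂⁻¹`, `g = (û⁻¹ X̂ û)(ŵ⁻¹ x̂⁻¹ ŵ)`, and the conditions of `(i, j, p, q)` become those of
`(j, i, q, p)`.  So `W13 B m c d L = W13 B m d c L^`, `L^ = {(j, i, q, p)}` (or use W3C: `SL (Lm L) χ χ'` is the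
conjugate of `SL (Lq L^) χ' χ`), and `N13 E₀ c d L = N13 E₀ d c L^` (`(σ₁, σ₂, X) ↦ (σ₂⁻¹, σ₁⁻¹, σ₂(c X))`:
`σ₂⁻¹(σ₂ (c X)) = c X`, and `c σ₁⁻¹(d σ₂(c X)) = c X`).  MXA. -/
def MxbStmt : Prop := ∀ (ℓ : ℕ) [Fact ℓ.Prime] (M : Ideal (integralClosure ℤ ℂ)) [M.IsMaximal],
  (ℓ : integralClosure ℤ ℂ) ∈ M → ℓ ≠ 2 → ∀ (V₀ G : Type) [CommGroup V₀] [Finite V₀] [Group G]
  [Finite G] (E₀ : Subgroup (MulAut V₀)), Fq ℓ V₀ E₀ → ∀ B : Bk (FF M) V₀ G, Sd ℓ M E₀ B →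
  ∀ n m : ℕ, PE ℓ n m G → ∀ (c d : V₀) (L : Set (SO.SS n V₀)), d ∈ qL L → qL L ≠ ⊥ →
  Rw E₀ (pL L) →
  W13 B m c d L = (((Nat.card (St E₀ (qL L)) : ℚ)⁻¹ * P13 E₀ B.U c d L : ℚ) : ℂ)

/-- W2X: `W12` if `c` and all `σ(d)` are in `pL L`.

Proof.  As `W12A` (`Helper63_ASO`), `W₁ = pL L`, `W₂ = qL L`: `W12 = (|C₁| |C₂|)⁻¹ ∑_u ∑_κ (fc W₁ c * (u fc W₂ d u⁻¹)) κ R(κ)`,
and only the `u` with `cj u (b W₂) = b W₁` count (FCD), `u ∈ t C₂`, `t` inducing some `σ ∈ EL` (FUD); every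
`σ ∈ EL` belongs to `|C₂|` elements `u` and every `u` to the `|St E₀ W₂|` elements of a coset `σ (St E₀ W₂)`
(`W₂` is generated by the `q`).  `u fc W₂ d u⁻¹ = fc W₁ (σ d)` (CJD).  As `c`, `σ d ∈ W₁`:
`fc W₁ c (g) = bh W₁ (i(c)⁻¹ g)`, `fc W₁ c * fc W₁ (σ d) = fc W₁ (c σ d)`.  The rest is as in `W12A`.  If
`EL = ∅` both sides are `0`. -/
def W2xStmt : Prop := ∀ (ℓ : ℕ) [Fact ℓ.Prime] (M : Ideal (integralClosure ℤ ℂ)) [M.IsMaximal],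
  (ℓ : integralClosure ℤ ℂ) ∈ M → ℓ ≠ 2 → ∀ (V₀ G : Type) [CommGroup V₀] [Finite V₀] [Group G]
  [Finite G] (E₀ : Subgroup (MulAut V₀)), Fq ℓ V₀ E₀ → ∀ B : Bk (FF M) V₀ G,
  Sb ℓ M E₀ B → ∀ n m : ℕ, PE ℓ n m G → ∀ (c d : V₀) (L : Set (SO.SS n V₀)), pL L ≠ ⊥ →
  c ∈ pL L → (∀ σ ∈ EL E₀ L, σ d ∈ pL L) →
  W12 B m c d L = (Nat.card (St E₀ (qL L)) : ℂ)⁻¹ * ∑ᶠ σ ∈ EL E₀ L, HK B m (c * σ d) L

/-! ## 5. Labels -/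

/-- CND: integrality of the weights of the frames.

Proof.  `k = kE E₀ c`, prime to `ℓ` (`Fq.cp`).  (a) `full = true`: as in `CNG` (`Helper35_ASO/CNG.lean`), the
additional factor `k⁻¹`.  (b) `full = false`: `H = C ⟨c⟩`, `PRJ` (`SO.PrjStmt`) for `f = ℓ h`,
`h(s) = bh ⟨c⟩ s - (k |C ⊤|)⁻¹ ∑_(z ∈ H) bh ⊤ (z⁻¹ s z)`.  Let `ψ ∈ Irr H`,
`|H|⁻¹ ∑ f ψ = (ℓ/|H|)(∑ bh ⟨c⟩ s ψ s - (|H|/(k |C ⊤|)) ∑ bh ⊤ s ψ s)`.  As in `NSV`: the restriction of `ψ` to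
`C(V)` is `∑ m_κ κ`, the characters of `g` are `κ_μ`, `μ ∈ lin V₀`, of degree `D ⊤`; if `m_μ ≠ 0` then `μ = ν` on
`⟨c⟩`, `ν` the central character of `ψ` on `i(⟨c⟩)`; `V_x(ψ) = ∑_μ m_μ μ(x)`; `∑ bh ⊤ s ψ(s) = D ⊤ V_1`.
*`ψ` not in `b ⟨c⟩`:* the first sum is `0`, `V_x(ψ) = 0` for `x ∉ ⟨c⟩` (`T3.SmgStmt` in `H`), so `m_μ` is constant on
the `ℓ` characters `μ` with `μ = ν` on `⟨c⟩`, `V_1 = ℓ m₀`, and the value is `- k⁻¹ m₀ ℓ² D ⊤/|C ⊤|`, in `RM M` (DGD for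
`⊤`, `Rw E₀ ⊤`).
*`ψ` in `b ⟨c⟩`:* the first sum is `ψ 1`, and with `r = |H| D ⊤/(|C ⊤| ψ 1)` the value is
`(ℓ ψ 1/|H|) (1 - r V_1/k)`.  `r V_x = cv (fc B ⟨c⟩ x) ψ` for `x ∉ ⟨c⟩` is in `RM M` with residue `|St E₀ ⟨c⟩| = k`:
`SO.HOmrStmt` for the datum of `C ⟨c⟩` (`RDA`: `Es (St E₀ ⟨c⟩) x = 1` for `x ∉ ⟨c⟩`, because it fixes
`V₀`).  Such an `x` is regular for the datum of `C ⟨c⟩`, so by `SO.HTzStmt` for this datum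
`ℓ² ψ 1/|H|` and its inverse are in `RM M`; with DGD: `r` and `r⁻¹` are in `RM M`.  So
`V_x ∈ RM M`, and `V_x - V_1 = ∑ m_μ (μ(x) - 1)` has residue `0`; so `r V_1` is a rational number in `RM M`
with residue `k`, `1 - r V_1/k = ℓ q`, `q ∈ Rl ℓ`, and the value is `(ℓ² ψ 1/|H|) q`. -/
def CndStmt : Prop := ∀ (ℓ : ℕ) [Fact ℓ.Prime] (M : Ideal (integralClosure ℤ ℂ)) [M.IsMaximal],
  (ℓ : integralClosure ℤ ℂ) ∈ M → ℓ ≠ 2 → ∀ (V₀ G : Type) [CommGroup V₀] [Finite V₀] [Group G]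
  [Finite G] (E₀ : Subgroup (MulAut V₀)), Fq ℓ V₀ E₀ → ∀ B : Bk (FF M) V₀ G, Sd ℓ M E₀ B →
  ∀ c : V₀, c ≠ 1 → ∀ (f : Bool) (s : G), s ∈ B.C (frm c f) →
    (Nat.card (frm c f) : ℂ) * (Nat.card (B.C (frm c f)) * wtD E₀ B c f s) /
      Nat.card (B.C (frm c f) ⊓ Cu s : Subgroup G) ∈ RM M

/-- LAD: integrality of the total sum.  Proof.  As `LAC` (`Helper10_ASO/LAC.lean`), with CND. -/
def LadStmt : Prop := ∀ (ℓ : ℕ) [Fact ℓ.Prime] (M : Ideal (integralClosure ℤ ℂ)) [M.IsMaximal],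
  (ℓ : integralClosure ℤ ℂ) ∈ M → ℓ ≠ 2 → ∀ (V₀ G : Type) [CommGroup V₀] [Finite V₀] [Group G]
  [Finite G] (E₀ : Subgroup (MulAut V₀)), Fq ℓ V₀ E₀ → ∀ B : Bk (FF M) V₀ G, Sd ℓ M E₀ B →
  ∀ (n m : ℕ) (c d : V₀), c ≠ 1 → d ≠ 1 → ∀ F₁₃ F₁₂ : Set (SO.SS n V₀) → ℚ,
  Rel ℓ n m B.i c d F₁₃ F₁₂ → TSD E₀ B m c d F₁₃ F₁₂ ∈ RM M

/-- LBX: the total sum in terms of the weighted numbers.

Proof.  As `LBS` (`Helper62_ASO/LBS.lean`): if `pL L ≤ ⟨c⟩` the two terms with `bh ⊤` cancel and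
`|C ⟨c⟩|⁻¹ ∑ bh ⟨c⟩ s Y(s)` remains; if not, only `full = true` remains, `pL L ⊔ ⟨c⟩ = ⊤`, with the factor
`(kE E₀ c)⁻¹ = kf E₀ (pL L) c`. -/
def LbxStmt : Prop := ∀ (ℓ : ℕ) [Fact ℓ.Prime] (M : Ideal (integralClosure ℤ ℂ)) [M.IsMaximal],
  (ℓ : integralClosure ℤ ℂ) ∈ M → ℓ ≠ 2 → ∀ (V₀ G : Type) [CommGroup V₀] [Finite V₀] [Group G]
  [Finite G] (E₀ : Subgroup (MulAut V₀)), Fq ℓ V₀ E₀ → ∀ B : Bk (FF M) V₀ G, Sb ℓ M E₀ B →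
  ∀ (n m : ℕ) (c d : V₀), c ≠ 1 → d ≠ 1 → ∀ F₁₃ F₁₂ : Set (SO.SS n V₀) → ℚ,
  TSD E₀ B m c d F₁₃ F₁₂ = ∑ᶠ L : Set (SO.SS n V₀),
    ((mob F₁₃ L : ℚ) * ((kf E₀ (pL L) c * kf E₀ (qL L) d : ℚ) : ℂ) * W13 B m c d L +
      (mob F₁₂ L : ℚ) * ((kf E₀ (pL L) c * kf E₀ (qL L) d : ℚ) : ℂ) * W12 B m c d L)

/-! ## 6. The part at `A₂ = ⟨w⟩` -/

/-- the conditions `(i, k, (κ w)^(-k), (σ⁻¹(κ w))^(-k))` -/
def TP {V₀ : Type} [CommGroup V₀] (n : ℕ) (κ w : V₀) (σ : MulAut V₀) : Set (SO.SS n V₀) :=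
  {s | s.2.2.1 = (κ * w)⁻¹ ^ (s.2.1 : ℕ) ∧ s.2.2.2 = (σ⁻¹ (κ * w))⁻¹ ^ (s.2.1 : ℕ)}

section t5

variable {V₀ G : Type} [CommGroup V₀] [Group G] {M : Ideal (integralClosure ℤ ℂ)} [M.IsMaximal]

/-- the sum over the sets `L` of conditions in `TP` -/
def T5 {n : ℕ} (B : Bk (FF M) V₀ G) (m : ℕ) (κ w : V₀) (σ : MulAut V₀)
    (F : Set (SO.SS n V₀) → ℚ) : ℂ :=
  ∑ᶠ L ∈ {L : Set (SO.SS n V₀) | L ⊆ TP n κ w σ ∧ pL L ≠ ⊥}, (mob F L : ℚ) * HK B m κ L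

/-- the weighted number of the `(x, y)` with `x` in the centraliser of `w` and
`y⁻¹ w⁻¹ y = w⁻¹ z ^ i₀`, `z ^ i₀ ≠ 1`, `z` the `ℓ`-part of `x` -/
def nI (ℓ : ℕ) (B : Bk (FF M) V₀ G) (m : ℕ) (κ w : V₀) (i₀ : ℕ) : ℂ :=
  (Nat.card (B.C ⊤) : ℂ)⁻¹ * ∑ᶠ t : G, bh B ⊤ t *
    {x : G × G | SO.kap x.1 x.2 = B.i κ * t ∧ B.i w * x.1 = x.1 * B.i w ∧
      x.2⁻¹ * (B.i w)⁻¹ * x.2 = (B.i w)⁻¹ * (x.1 ^ m) ^ i₀ ∧ (x.1 ^ m) ^ i₀ ≠ 1 ∧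
      (x.1 ^ m) ^ ℓ = 1}.ncard

end t5

/-- TFA: the evaluation of `T5`.

Proof.  `A = ⟨w⟩`, `p₀ = (κ w)⁻¹`, `q₀ = (σ⁻¹(κ w))⁻¹`, `F = F₁₂`, `v₀ = x₁(c⁻¹) x₂(d⁻¹)/ℓ²`.  For `L ⊆ TP` the elements
`κ^k p` are the `w^(-k)`; if `pL L ≠ ⊥` then `aL κ L = A`, `A ⊔ ⟨κ⟩ = ⊤`.  So
`T5 = |C ⊤|⁻¹ ∑_t bh ⊤ t ∑_([x, y] = i(κ) t) ∑_(L ⊆ τ(x, y), pL L ≠ ⊥) mob F L`, where `τ(x, y)` is the set of the
`s ∈ TP` with `w^(-k) x = x w^(-k)`, `y⁻¹ w^(-k) y = w^(-k) (x^m)^i`; by MBI the inner sum is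
`F(τ) - F(τ ∩ {ℓ ∣ k})`, and `F(τ ∩ {ℓ ∣ k}) = v₀` by `z12` (`p = q = 1` there, `ρ 1 = 0`).  It is `0` unless
`w x = x w` and some `(i', 1, p₀, q₀) ∈ τ` (if `(i, k) ∈ τ`, `ℓ ∤ k`, take the power `k'`, `k k' ≡ 1` mod `ℓ`; `w`
commutes with `x^m`; `(x^m)^(i k')` depends only on `i k'` modulo `n`).
(I) `y w = w y`: then `τ = {(i, k) : (x^m)^i = 1}`, `prod` and `K1` give `F(τ) = v₀ - x₁(p₀) x₂(q₀)/ℓ²`; the weighted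
number of these `(x, y)` (the pairs in `C A` with `[x, y] = i(κ) t`) is `∑_(χ ∈ Ch A) cv (fc A κ) χ = L1A`: HKC with
`Φ z y = 1` for `y ∈ C A` and `z ∈ C A`, `0` otherwise; the inner sum is
`∑_(x, y ∈ C A) χ(y x y⁻¹) χ(x⁻¹) = |C A|²`.
(II) `y w ≠ w y`.  `F(τ(x, y)) - v₀ =: f(x^m, y)` depends on `(x^m, y)` only and is invariant as in HKC.  HKC and
FIB (for `y⁻¹`, `W = W' = A`, `z = x^m`, `χ = χ'`, conjugated): for given `(x^m, y)` the sum over the regular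
parts is `0` unless `x^m` is conjugate into `V`, so `(x^m)^ℓ = 1`.  So the terms with `(x^m)^ℓ ≠ 1` may be
omitted, and in the others `(x^m)^(i') ≠ 1`, so `i₀ = i' mod ℓ ≠ 0` and `τ = {(i, k) : i ≡ i₀ k mod ℓ}`, the set
of `np`.  `nI` is the weighted number of these `(x, y)`. -/
def TfaStmt : Prop := ∀ (ℓ : ℕ) [Fact ℓ.Prime] (M : Ideal (integralClosure ℤ ℂ)) [M.IsMaximal],
  (ℓ : integralClosure ℤ ℂ) ∈ M → ℓ ≠ 2 → ∀ (V₀ G : Type) [CommGroup V₀] [Finite V₀] [Group G]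
  [Finite G] (E₀ : Subgroup (MulAut V₀)), Fq ℓ V₀ E₀ → ∀ B : Bk (FF M) V₀ G, Sb ℓ M E₀ B →
  ∀ n m r : ℕ, 0 < r → n = ℓ ^ r → PE ℓ n m G → ∀ (ρ₁ ρ₂ : V₀ → ZMod ℓ) (x₁ x₂ : V₀ → ℤ)
  (c d : V₀) (F₁₃ F₁₂ : Set (SO.SS n V₀) → ℚ) (K : Set (Fin n × V₀ × V₀) → ℚ), Hm ρ₁ → Hm ρ₂ →
  FY ℓ n ρ₁ ρ₂ x₁ x₂ c d F₁₃ F₁₂ K → ∀ (κ w : V₀) (σ : MulAut V₀), w ≠ 1 →
  κ ∉ Subgroup.zpowers w →
  T5 B m κ w σ F₁₂ = -(((x₁ (κ * w)⁻¹ * x₂ (σ⁻¹ (κ * w))⁻¹ : ℤ) : ℂ) / ℓ ^ 2) *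
      L1A B (Subgroup.zpowers w) κ +
    ∑ i₀ ∈ Finset.Icc 1 (ℓ - 1), ((F₁₂ {s | s.2.2.1 = (κ * w)⁻¹ ^ (s.2.1 : ℕ) ∧
      s.2.2.2 = (σ⁻¹ (κ * w))⁻¹ ^ (s.2.1 : ℕ) ∧ (s.1 : ℕ) ≡ i₀ * (s.2.1 : ℕ) [MOD ℓ]} -
      (x₁ c⁻¹ * x₂ d⁻¹ : ℤ) / (ℓ : ℚ) ^ 2 : ℚ) : ℂ) * nI ℓ B m κ w i₀

/-- TFN: the numbers `nI`.

Proof.  (i) For fixed `t` let `Z` be the set in the definition of `nI`; `V` acts on it by conjugation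
(`t ∈ C(V)`, `V` is abelian).  `y` does not commute with `w`, so the stabilisers do not contain `A = ⟨w⟩`: they
are `1` or lines `S ≠ A`, and `|Z| = e + ∑_S |Z_S|`, `e` the number of the elements with trivial stabiliser,
divisible by `ℓ²`, `Z_S` the elements of `Z` in `C(S)` (with stabiliser exactly `S`).  `t ↦ e` is a class
function on `C ⊤`; `|C ⊤|⁻¹ ∑_t bh ⊤ t e(t)` is the sum over the classes of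
`(ℓ² bh ⊤ t/|C ⊤ ∩ C(t)|)(e/ℓ²) ∈ RM M` (CND (a), as in `SO.PrjStmt`; the factor `kE` is a unit).  `Z_S`: the
`(x, y)` in `C(S)` with `[x, y] = i(κ) t`, `x w = w x`, `y⁻¹ w⁻¹ y = w⁻¹ (x^m)^(i₀)` are the pairs of `HK B m κ L'` for
`L' = {(i₀, 1, p₀, 1)} ∪ {(0, 0, s, 1) : s ∈ S}`, `p₀ = (κ w)⁻¹` (the components `q` do not matter in `HK`),
`aL κ L' = A ⊔ S = ⊤`, those with in addition `(x^m)^(i₀) = 1`, i.e. `y w = w y`, the ones for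
`L'' = L' ∪ {(0, 1, p₀, 1)}` (if `i₀` is not smaller than `n` take its rest modulo `ℓ`; `n > 1` is a power of
`ℓ`); the weighted numbers are integers by W2B (`Rw E₀ ⊤`, `ux ⊤ = 1`).  The condition `(x^m)^ℓ = 1` may be
added: by HKC (for `A = ⊤`) and FIB the pairs with `(x^m)^ℓ ≠ 1` contribute `0`.
(ii) The sets are equal: `w` commutes with `z = x^m`, `z^ℓ = 1`, `w^ℓ = 1`; raise the equation to the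
power `j`, and to a power `j'` with `j j' ≡ 1` modulo `ℓ`.
(iii) HKC for `A = ⟨w⟩` (the conditions are of the form `Φ (x^m) y`) and FIB: for given `(x^m, y)` the sum over
the regular parts is `0` unless `y ∈ C A t C A` with `t` inducing `σ ∈ E₀`, `σ w = w`; then `y ∈ C A` and
`(x^m)^(i₀) = 1`, a contradiction. -/
def TfnStmt : Prop := ∀ (ℓ : ℕ) [Fact ℓ.Prime] (M : Ideal (integralClosure ℤ ℂ)) [M.IsMaximal],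
  (ℓ : integralClosure ℤ ℂ) ∈ M → ℓ ≠ 2 → ∀ (V₀ G : Type) [CommGroup V₀] [Finite V₀] [Group G]
  [Finite G] (E₀ : Subgroup (MulAut V₀)), Fq ℓ V₀ E₀ → ∀ B : Bk (FF M) V₀ G, Sd ℓ M E₀ B →
  ∀ n m r : ℕ, 0 < r → n = ℓ ^ r → PE ℓ n m G → ∀ κ w : V₀, w ≠ 1 → κ ∉ Subgroup.zpowers w →
  (∀ i₀ : ℕ, nI ℓ B m κ w i₀ ∈ RM M) ∧
  (∀ j i₀ i₁ : ℕ, ¬ ℓ ∣ j → i₁ ≡ j * i₀ [MOD ℓ] → nI ℓ B m κ (w ^ j) i₁ = nI ℓ B m κ w i₀) ∧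
  ((∀ σ ∈ E₀, σ w = w) → ∀ i₀ : ℕ, nI ℓ B m κ w i₀ = 0)

/-- TFH: the sum of the central characters of `b A` at `f_κ` is divisible by `ℓ`.

Proof.  `B_A` the datum of `C A` (`RDA`), `E_A = St E₀ A`.  `L1A B A κ = L1 B_A κ`, a rational number in
`Rl ℓ` (`SO.HL12Stmt`), and every term has the residue `nE E_A κ = |E_A|` (`SO.HOmrStmt`; an element of `E_A`
which fixes `κ` fixes `V₀`), so the residue is `|E_A| k`, `k` the number of the characters in `b A`.  `KLD`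
(`Stmts8.lean`) for `B_A`: `|E_A| k = ∑_v |Es E_A v| ln (b (A ⊔ ⟨v⟩))`; the `ℓ` terms with `v ∈ A` are equal, and for
`v ∉ A` they are `1` (`Es E_A v = 1`; `A ⊔ ⟨v⟩ = ⊤`, `ln g = 1`, `KLD`), `ℓ² - ℓ` of them.  So `ℓ ∣ |E_A| k`. -/
def TfhStmt : Prop := ∀ (ℓ : ℕ) [Fact ℓ.Prime] (M : Ideal (integralClosure ℤ ℂ)) [M.IsMaximal],
  (ℓ : integralClosure ℤ ℂ) ∈ M → ℓ ≠ 2 → ∀ (V₀ G : Type) [CommGroup V₀] [Finite V₀] [Group G]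
  [Finite G] (E₀ : Subgroup (MulAut V₀)), Fq ℓ V₀ E₀ → ∀ B : Bk (FF M) V₀ G, Sb ℓ M E₀ B →
  ∀ (A : Subgroup V₀) (κ : V₀), Nat.card A = ℓ → κ ∉ A → L1A B A κ / ℓ ∈ RM M

/-- TFV: sums of the numbers `T5` over `w`.

Proof.  `p_w = (κ w)⁻¹`, `q_w = (σ⁻¹(κ w))⁻¹`; TFA, `np`: `F₁₂(..) - v₀ = - 12 x₁(p_w) x₂(q_w)/(ℓ² i₀) + z/ℓ`.  The first term
of TFA times `ℓ` is `- x₁ x₂ L1A/ℓ ∈ RM M` (TFH).  The terms with `z` are clear (TFN (i)).  There remains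
`(12/ℓ) S`, `S = ∑_w u(w) x₁(p_w) x₂(q_w) ∑_(i₀) nI(w, i₀)/i₀`.  If `E₀` acts trivially on `A₂` all `nI` are `0` (TFN
(iii)).  Otherwise there is `τ ≠ 1` in `E₀` with `τ = 1` on `A₁` (`Dx.cs`); `τ w = w ^ j` on `A₂` with `ℓ ∤ j`,
`j ≢ 1` modulo `ℓ` (`τ ≠ 1`).  Modulo `ℓ` the number `x₁(p_w) = ρ₁(p_w) = ρ₁(κ⁻¹)` does not depend on `w` (`ρ₁ = 0` on
`A₂`), the same for `x₂(q_w)` (`σ⁻¹ w ∈ A₂`).  So `S ≡ C S'`, `S' = ∑_w u(w) ∑_(i₀) nI(w, i₀)/i₀`, modulo `ℓ RM M`.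
Substitute `w ↦ w ^ j = τ w` (`u(τ w) = u(w)`): `S' = ∑_w u(w) ∑_(i₁) nI(w^j, i₁)/i₁`, and with `i₁ ≡ j i₀` (TFN (ii))
`= ∑_w u(w) ∑_(i₀) nI(w, i₀)/i₁ ≡ S'/j`.  So `(j - 1) S' ∈ ℓ RM M`, `S' ∈ ℓ RM M`. -/
def TfvStmt : Prop := ∀ (ℓ : ℕ) [Fact ℓ.Prime] (M : Ideal (integralClosure ℤ ℂ)) [M.IsMaximal],
  (ℓ : integralClosure ℤ ℂ) ∈ M → ℓ ≠ 2 → ∀ (V₀ G : Type) [CommGroup V₀] [Finite V₀] [Group G]
  [Finite G] (E₀ : Subgroup (MulAut V₀)) (A₁ A₂ : Subgroup V₀), Dx ℓ E₀ A₁ A₂ →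
  ∀ B : Bk (FF M) V₀ G, Sd ℓ M E₀ B → ∀ n m r : ℕ, 0 < r → n = ℓ ^ r → PE ℓ n m G →
  ∀ (ρ₁ ρ₂ : V₀ → ZMod ℓ) (x₁ x₂ : V₀ → ℤ) (c d : V₀) (F₁₃ F₁₂ : Set (SO.SS n V₀) → ℚ)
  (K : Set (Fin n × V₀ × V₀) → ℚ), Hm ρ₁ → Hm ρ₂ → Lf ρ₁ x₁ → Lf ρ₂ x₂ →
  (∀ v ∈ A₂, ρ₁ v = 0 ∧ ρ₂ v = 0) → FY ℓ n ρ₁ ρ₂ x₁ x₂ c d F₁₃ F₁₂ K →
  ∀ (κ : V₀) (σ : MulAut V₀), κ ∉ A₂ → σ ∈ E₀ → ∀ u : V₀ → ℚ,
  (∀ w ∈ A₂, u w ∈ SOR.Rl ℓ) → (∀ τ ∈ St E₀ A₁, ∀ w ∈ A₂, u (τ w) = u w) →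
  (ℓ : ℂ) * ∑ᶠ w ∈ {w : V₀ | w ∈ A₂ ∧ w ≠ 1}, (u w : ℂ) * T5 B m κ w σ F₁₂ ∈ RM M

end Pool.Agent.PP.SD
end
end -- Pool.Agent.ASD.Stmts4

section -- Pool.Agent.Helper77_ASO.HCO

/-!
# Squad ASO, row HCO: the conclusions of block H for a free action
-/

open scoped BigOperators

noncomputable section

namespace Pool.Agent.PP.SO.H77

open Pool.Agent.Helper51_AWC Pool.Agent.Helper79_WRA Pool.Agent.PP Pool.Agent.PP.KF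
open Pool.Agent.PP.K9 Pool.Agent.PP.K9.H97 Pool.Agent.PP.H75 Pool.Agent.PP.T3

attribute [local instance] Ideal.Quotient.field

/-! ### numbers -/

theorem nat_not_mem {ℓ : ℕ} [Fact ℓ.Prime] {M : Ideal (integralClosure ℤ ℂ)} [M.IsMaximal]
    (hℓ : (ℓ : integralClosure ℤ ℂ) ∈ M) {y : ℕ} (hy : ¬ ℓ ∣ y) :
    (y : integralClosure ℤ ℂ) ∉ M := by
  intro hm
  have hp : Nat.Prime ℓ := Fact.out
  have hc : IsCoprime (ℓ : ℤ) (y : ℤ) :=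
    Nat.isCoprime_iff_coprime.mpr ((Nat.Prime.coprime_iff_not_dvd hp).mpr hy)
  obtain ⟨a, b, hab⟩ := hc
  have h1 : (a : integralClosure ℤ ℂ) * (ℓ : integralClosure ℤ ℂ) +
      (b : integralClosure ℤ ℂ) * (y : integralClosure ℤ ℂ) = 1 := by
    have := congrArg (fun t : ℤ => (t : integralClosure ℤ ℂ)) hab
    simpa only [Int.cast_add, Int.cast_mul, Int.cast_natCast, Int.cast_one] using this
  have h2 : (1 : integralClosure ℤ ℂ) ∈ M := by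
    rw [← h1]
    exact M.add_mem (M.mul_mem_left _ hℓ) (M.mul_mem_left _ hm)
  exact (Ideal.IsMaximal.ne_top inferInstance : M ≠ ⊤) ((Ideal.eq_top_iff_one M).mpr h2)

theorem div_mem {ℓ : ℕ} [Fact ℓ.Prime] {M : Ideal (integralClosure ℤ ℂ)} [M.IsMaximal]
    (hℓ : (ℓ : integralClosure ℤ ℂ) ∈ M) {z : ℂ} {x : ℤ} {y : ℕ} (hy : ¬ ℓ ∣ y)
    (h : (y : ℂ) * z = x) : z ∈ RM M := by
  refine ⟨(y : integralClosure ℤ ℂ), (x : integralClosure ℤ ℂ), nat_not_mem hℓ hy, ?_⟩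
  push_cast
  exact h

theorem rat_mem {ℓ : ℕ} [Fact ℓ.Prime] {M : Ideal (integralClosure ℤ ℂ)} [M.IsMaximal]
    (hℓ : (ℓ : integralClosure ℤ ℂ) ∈ M) {q : ℚ} (hq : q ∈ SOR.Rl ℓ) : (q : ℂ) ∈ RM M := by
  have hq' : ¬ ℓ ∣ q.den := hq
  refine div_mem (x := q.num) hℓ hq' ?_
  have h1 : (q.den : ℚ) * q = q.num := by
    rw [mul_comm]
    exact Rat.mul_den_eq_num q
  exact_mod_cast congrArg (fun t : ℚ => (t : ℂ)) h1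

/-! ### free actions -/

theorem es_one {V₀ : Type} [CommGroup V₀] (E₀ : Subgroup (MulAut V₀)) : Es E₀ 1 = E₀ := by
  ext σ
  exact ⟨fun h => h.1, fun h => ⟨h, map_one σ⟩⟩

theorem es_bot {ℓ : ℕ} {V₀ : Type} [CommGroup V₀] {E₀ : Subgroup (MulAut V₀)}
    (hF : Fr ℓ V₀ E₀) {c : V₀} (hc : c ≠ 1) : Es E₀ c = ⊥ := by
  rw [eq_bot_iff]
  intro σ hσ
  rw [Subgroup.mem_bot]
  by_contra h
  exact hc (hF.fr σ hσ.1 h c hσ.2)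

theorem rgl {ℓ : ℕ} {V₀ : Type} [CommGroup V₀] {E₀ : Subgroup (MulAut V₀)}
    (hF : Fr ℓ V₀ E₀) {c : V₀} (hc : c ≠ 1) : Rgl E₀ c := by
  refine ⟨hc, fun σ hσ h => ?_⟩
  by_contra h1
  exact hc (hF.fr σ hσ h1 c h)

theorem exists_ne' {ℓ : ℕ} [Fact ℓ.Prime] {V₀ : Type} [CommGroup V₀] [Finite V₀]
    {E₀ : Subgroup (MulAut V₀)} (hF : Fr ℓ V₀ E₀) : ∃ c : V₀, c ≠ 1 := by
  have hp : Nat.Prime ℓ := Fact.out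
  have h1 : 1 < Nat.card V₀ := by
    rw [hF.cd]
    exact Nat.one_lt_pow two_ne_zero hp.one_lt
  have := Finite.one_lt_card_iff_nontrivial.mp h1
  exact _root_.exists_ne 1

theorem nE_ne {ℓ : ℕ} {V₀ : Type} [CommGroup V₀] {E₀ : Subgroup (MulAut V₀)}
    (hF : Fr ℓ V₀ E₀) {c : V₀} (hc : c ≠ 1) : nE E₀ c = Nat.card E₀ := by
  unfold nE
  rw [es_bot hF hc, Subgroup.card_bot, Nat.div_one]

theorem hco (htz : HTzStmt) (hsm : HSmStmt) (hl12 : HL12Stmt) : HCoStmt := by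
  intro ℓ _ M _ hℓ V₀ _ _ E₀ hF G _ _ B hB
  obtain ⟨c₀, hc₀⟩ := exists_ne' hF
  have hp : Nat.Prime ℓ := Fact.out
  have hl0 : (ℓ : ℂ) ^ 2 ≠ 0 := pow_ne_zero 2 (Nat.cast_ne_zero.mpr hp.ne_zero)
  obtain ⟨a1, a2, a3, a4, a5, a6, a7, a8, a9⟩ := hl12 ℓ M hℓ V₀ hF.ex E₀ G B hB
  obtain ⟨⟨b1, b2⟩, b3, b4⟩ := hsm ℓ M hℓ V₀ hF.ex hF.cd E₀ G B hB ⟨c₀, rgl hF hc₀⟩
  -- the sum over the elements different from `1`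
  have hsum : ∑ᶠ c : V₀, Nat.card (Es E₀ c) * L1 B c =
      (Nat.card E₀ : ℂ) * (IrrE M B.e).ncard + ∑ᶠ c ∈ {c : V₀ | c ≠ 1}, L1 B c := by
    have hfin : (Set.univ : Set V₀).Finite := Set.toFinite _
    have e1 : ∑ᶠ c : V₀, (Nat.card (Es E₀ c) : ℂ) * L1 B c =
        ∑ᶠ c ∈ insert (1 : V₀) {c : V₀ | c ≠ 1}, (Nat.card (Es E₀ c) : ℂ) * L1 B c := by
      have e2 : insert (1 : V₀) {c : V₀ | c ≠ 1} = Set.univ := by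
        ext c
        by_cases h : c = 1
        · simp [h]
        · simp [h]
      rw [e2, finsum_mem_univ]
    rw [e1, finsum_mem_insert _ (by simp) (Set.toFinite _), es_one, a9]
    refine congrArg₂ (· + ·) rfl (finsum_mem_congr rfl fun c hc => ?_)
    rw [es_bot hF hc, Subgroup.card_bot, Nat.cast_one, one_mul]
  -- the sum over the powers
  have hpow : ∀ c : V₀, ∑ t ∈ Finset.Icc 1 (ℓ - 1), L1 B (c ^ t) = ((ℓ : ℂ) - 1) * L1 B c := by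
    intro c
    have e1 : ∀ t ∈ Finset.Icc 1 (ℓ - 1), L1 B (c ^ t) = L1 B c := by
      intro t ht
      rw [Finset.mem_Icc] at ht
      refine a3 c t fun hd => ?_
      have := Nat.le_of_dvd (by omega) hd
      have := hp.one_lt
      omega
    rw [Finset.sum_congr rfl e1, Finset.sum_const, Nat.card_Icc, nsmul_eq_mul]
    have e2 : ((ℓ - 1 + 1 - 1 : ℕ) : ℂ) = (ℓ : ℂ) - 1 := by
      have := hp.one_lt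
      have e3 : ℓ - 1 + 1 - 1 = ℓ - 1 := by omega
      rw [e3, Nat.cast_sub (by omega), Nat.cast_one]
    rw [e2]
  have hq : ∃ q ∈ SOR.Rl ℓ, (Nat.card E₀ : ℂ) * (IrrE M B.e).ncard +
      ∑ᶠ c ∈ {c : V₀ | c ≠ 1}, L1 B c = ((ℓ ^ 2 * q : ℚ) : ℂ) := by
    obtain ⟨q, hq, h⟩ := b4
    exact ⟨q, hq, hsum ▸ h⟩
  have hdiv : ∀ (z : ℂ) (q : ℚ), q ∈ SOR.Rl ℓ → z = ((ℓ ^ 2 * q : ℚ) : ℂ) →
      z / (ℓ : ℂ) ^ 2 ∈ RM M := by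
    intro z q hq h
    have e1 : z / (ℓ : ℂ) ^ 2 = (q : ℂ) := by
      rw [h, Rat.cast_mul, Rat.cast_pow, Rat.cast_natCast]
      exact mul_div_cancel_left₀ _ hl0
    rw [e1]
    exact rat_mem hℓ hq
  refine ⟨?_, b2, b1, a1, a2, a3, a4, fun c d σ hσ τ hτ => ⟨a5 c σ hσ, a6 c d σ hσ τ hτ⟩, a9, ?_,
    hq, ?_⟩
  · intro χ hχ
    obtain ⟨x, y, hx, hy, h⟩ := htz ℓ M hℓ V₀ hF.ex hF.cd E₀ G B hB c₀ (rgl hF hc₀) χ hχ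
    have h1 : χ 1 ≠ 0 := irr_one_ne hχ.1
    refine div_mem (x := (x : ℤ)) hℓ hy ?_
    rw [← mul_div_assoc, h, Int.cast_natCast]
    rw [mul_div_assoc, mul_comm, div_mul_cancel₀ _ (mul_ne_zero hl0 h1)]
  · obtain ⟨q, hq, h⟩ := hq
    exact hdiv _ q hq h
  · intro c d hc hd
    have key : ∃ q ∈ SOR.Rl ℓ,
        ∑ t ∈ Finset.Icc 1 (ℓ - 1), ∑ s ∈ Finset.Icc 1 (ℓ - 1), L2 B (c ^ t) (d ^ s) +
        (Nat.card E₀ : ℂ) * (ℓ - 1) * (L1 B c + L1 B d) +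
        (Nat.card E₀ : ℂ) ^ 2 * (IrrE M B.e).ncard = ((ℓ ^ 2 * q : ℚ) : ℂ) := by
      obtain ⟨q, hq, h⟩ := b3 c d hc hd
      refine ⟨q, hq, ?_⟩
      rw [← h, nE_ne hF hc, nE_ne hF hd, hpow, hpow]
      ring
    refine ⟨?_, key⟩
    obtain ⟨q, hq, h⟩ := key
    exact hdiv _ q hq h

end Pool.Agent.PP.SO.H77
end
end -- Pool.Agent.Helper77_ASO.HCO
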