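import Pool.Agent.Helper12_AWB.B130

/-!
# Merged copies (generated) of the modules

* `Pool.Agent.ASE.DefsE`
* `Pool.Agent.ASE.Stmts3`
* `Pool.Agent.Helper85_ASE.PRB`
* `Pool.Agent.Helper9_ASE.MPB`
* `Pool.Agent.Helper20_ASE.HKF`
* `Pool.Agent.Helper44_ASE.FMB`
* `Pool.Agent.Helper79_ASE.X3S`
* `Pool.Agent.Helper94_ASE.CN2`
-/

set_option autoImplicit false

section -- Pool.Agent.ASE.DefsE

/-!
# Squad ASE: elementary abelian defect groups of order `ℓ ^ 2`, all inertial quotients: definitions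

On top of squads ASO and ASD.  Text: `Pool/Agent/ASE/AWC_SOE.md`.
`R = RL ℓ E₀` is the set of the subgroups `W` of order `ℓ` of `V₀` whose pointwise stabiliser `St E₀ W` in
`E₀` is not trivial, `nS E₀ W` its order, `pr ℓ E₀ W` the projection of `V₀` on `W`.
`Rs` is the interface of the local blocks (section 1 of the text).
-/

open scoped BigOperators

noncomputable section

namespace Pool.Agent.PP.SE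

open Pool.Agent.Helper51_AWC Pool.Agent.Helper79_WRA Pool.Agent.PP Pool.Agent.PP.KF
open Pool.Agent.PP.K9 Pool.Agent.PP.K9.H97 Pool.Agent.PP.H75 Pool.Agent.PP.T3 Pool.Agent.PP.SO
open Pool.Agent.PP.SD

attribute [local instance] Ideal.Quotient.field

section basic

variable {V₀ : Type} [CommGroup V₀]

/-- the order of the pointwise stabiliser of `W` -/
def nS (E₀ : Subgroup (MulAut V₀)) (W : Subgroup V₀) : ℕ := Nat.card (St E₀ W)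

/-- the reflection lines: the set `R` -/
def RL (ℓ : ℕ) (E₀ : Subgroup (MulAut V₀)) : Set (Subgroup V₀) :=
  {W | Nat.card W = ℓ ∧ 1 < nS E₀ W}

/-- The average of `c` over the pointwise stabiliser of `W`; for `W ∈ R` this is the projection on `W`
with the kernel `[V₀, St E₀ W]`. -/
def pr (ℓ : ℕ) (E₀ : Subgroup (MulAut V₀)) (W : Subgroup V₀) (c : V₀) : V₀ :=
  (∏ᶠ τ : St E₀ W, (τ : MulAut V₀) c) ^ ((nS E₀ W : ZMod ℓ)⁻¹).val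

/-- the image of `W` -/
def mp (σ : MulAut V₀) (W : Subgroup V₀) : Subgroup V₀ := W.map (σ : V₀ ≃* V₀).toMonoidHom

variable {n : ℕ}

/-- The contribution of the characters which are fixed by `σ⁻¹ σ'`, for the `13`-sums. -/
def M13 (ℓ : ℕ) (E₀ : Subgroup (MulAut V₀)) (fx : Subgroup V₀ → MulAut V₀ → ℚ) (c d : V₀)
    (L : Set (SO.SS n V₀)) : ℚ :=
  ∑ᶠ w ∈ {w : E₀ × E₀ × V₀ | Nat.card (pL L) = ℓ ∧ mp w.1 (pL L) = qL L ∧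
    mp w.2.1 (pL L) = qL L ∧ w.2.2 ∈ pL L ∧
    w.1.1 w.2.2 = pr ℓ E₀ (qL L) d * w.2.1.1 (pr ℓ E₀ (pL L) c * w.2.2) ∧ ∀ s ∈ L,
      w.1.1 (s.2.2.1 * (w.2.2 ^ (s.2.1 : ℕ))⁻¹) = s.2.2.2 ∧
      w.2.1.1 (s.2.2.1 * (pr ℓ E₀ (pL L) c * w.2.2) ^ (s.1 : ℕ)) = s.2.2.2},
    (fx (pL L) ((w.1 : MulAut V₀)⁻¹ * (w.2.1 : MulAut V₀)) - 1)

/-- The contribution of the characters which are fixed by `τ`, for the `12`-sums. -/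
def M12 (ℓ : ℕ) (E₀ : Subgroup (MulAut V₀)) (fx : Subgroup V₀ → MulAut V₀ → ℚ) (κ : V₀)
    (L : Set (SO.SS n V₀)) : ℚ :=
  ∑ᶠ w ∈ {w : E₀ × V₀ | Nat.card (aL κ L) = ℓ ∧ mp w.1 (aL κ L) = aL κ L ∧ w.2 ∈ aL κ L ∧
    w.1.1 w.2 = pr ℓ E₀ (aL κ L) κ * w.2 ∧ ∀ s ∈ L,
      w.1.1 (κ ^ (s.2.1 : ℕ) * s.2.2.1 * (w.2 ^ (s.1 : ℕ))⁻¹) = κ ^ (s.2.1 : ℕ) * s.2.2.1},
    (fx (aL κ L) (w.1 : MulAut V₀) - 1)

/-- the coefficient of the term of `σ` -/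
def cS (U : Subgroup V₀ → ℚ) (c d : V₀) (σ : MulAut V₀) (W : Subgroup V₀) : ℚ :=
  ux U W c * ux U W (σ d) / ux U W (c * σ d)

/-- the value of the `13`-sums -/
def P13 (ℓ : ℕ) (E₀ : Subgroup (MulAut V₀)) (U : Subgroup V₀ → ℚ)
    (fx : Subgroup V₀ → MulAut V₀ → ℚ) (c d : V₀) (L : Set (SO.SS n V₀)) : ℚ :=
  ux U (pL L) c * ux U (qL L) d * (N13 E₀ c d L + M13 ℓ E₀ fx c d L)

/-- the exact local part of the value of the `12`-sums -/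
def P12 (ℓ : ℕ) (E₀ : Subgroup (MulAut V₀)) (U : Subgroup V₀ → ℚ)
    (fx : Subgroup V₀ → MulAut V₀ → ℚ) (c d : V₀) (L : Set (SO.SS n V₀)) : ℚ :=
  ∑ᶠ σ ∈ {σ | σ ∈ EL E₀ L ∧ aL (c * σ d) L ≠ ⊥},
    cS U c d σ (pL L) * (ux U (aL (c * σ d) L) (c * σ d) *
      (N12 E₀ (c * σ d) L + M12 ℓ E₀ fx (c * σ d) L))

/-- the exact local part of the total sum -/
def PPE (ℓ : ℕ) (E₀ : Subgroup (MulAut V₀)) (U : Subgroup V₀ → ℚ)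
    (fx : Subgroup V₀ → MulAut V₀ → ℚ) (c d : V₀) (F₁₃ F₁₂ : Set (SO.SS n V₀) → ℚ) : ℚ :=
  ∑ᶠ L ∈ {L : Set (SO.SS n V₀) | pL L ≠ ⊥ ∧ qL L ≠ ⊥},
    (mob F₁₃ L * P13 ℓ E₀ U fx c d L + mob F₁₂ L * P12 ℓ E₀ U fx c d L)

end basic

/-- the data of the interface: the numbers `U`, the functions `D`, `R`, the elements `et`, the numbers of
fixed characters `fx` -/
structure Rd (V₀ G : Type) [CommGroup V₀] where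
  /-- the numbers `U` -/
  U : Subgroup V₀ → ℚ
  /-- the functions `DD` -/
  D : Subgroup V₀ → (G → ℂ) → V₀ → ℂ
  /-- the functions `RR` -/
  R : Subgroup V₀ → (G → ℂ) → (G → ℂ) → ℂ
  /-- the elements `et` -/
  et : Subgroup V₀ → G → ℂ
  /-- the numbers of the fixed characters -/
  fx : Subgroup V₀ → MulAut V₀ → ℚ

section blk

variable {V₀ G : Type} [CommGroup V₀] [Group G] {M : Ideal (integralClosure ℤ ℂ)} [M.IsMaximal]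

/-- the central character of `χ` on `i(W)` -/
def nu (B : Bk (FF M) V₀ G) (χ : G → ℂ) (w : V₀) : ℂ := χ (B.i w) / χ 1

open Classical in
/-- an element of the inertial group which induces `σ` -/
def tt (B : Bk (FF M) V₀ G) (σ : MulAut V₀) : G :=
  if h : ∃ t ∈ Tg B.i.range B.g, ∀ v, t * B.i v * t⁻¹ = B.i (σ v) then h.choose else 1

/-- the conjugate of `χ`; it maps `Ch B W` onto `Ch B (σ W)` -/
def ac (B : Bk (FF M) V₀ G) (σ : MulAut V₀) (χ : G → ℂ) : G → ℂ := fun x =>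
  χ ((tt B σ)⁻¹ * x * tt B σ)

/-- the product of `i(κ)` and `f` -/
def tk (B : Bk (FF M) V₀ G) (κ : V₀) (f : G → ℂ) : G → ℂ := fun g => f ((B.i κ)⁻¹ * g)

/-- `a` is in the centre of the group ring of `C W`, in the block `b W`. -/
structure Cz (B : Bk (FF M) V₀ G) (W : Subgroup V₀) (a : G → ℂ) : Prop where
  sup : ∀ g, g ∉ B.C W → a g = 0
  cls : ∀ z ∈ B.C W, ∀ g, a (z * g * z⁻¹) = a g
  blk : ∀ ψ : G → ℂ, (∀ g, g ∉ B.C W → ψ g = 0) → (fun t : B.C W => ψ t) ∈ Irr (B.C W) →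
    ψ ∉ Ch B W → cv a ψ = 0

open Classical in
/-- the corrected element `fm W c`; for `c ∈ W` it is `n c b^` -/
def fm (ℓ : ℕ) (E₀ : Subgroup (MulAut V₀)) (B : Bk (FF M) V₀ G) (D : Rd V₀ G)
    (W : Subgroup V₀) (c : V₀) : G → ℂ := fun g =>
  (if c ∈ W then (nS E₀ W : ℂ) else 1) * fc B W c g -
    (if c ∈ W then 0 else tk B (pr ℓ E₀ W c) (D.et W) g)

open Classical in
/-- the label of `c ≠ 1` at `W` -/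
def mnl (E₀ : Subgroup (MulAut V₀)) (B : Bk (FF M) V₀ G) (c : V₀) (W : Subgroup V₀) : G → ℂ :=
  fun g => (if W ≤ Subgroup.zpowers c then (kE E₀ c : ℂ) else 1) * fc B W c g

open Classical in
/-- the label `κ et` of the line `a ∋ κ` at `W` -/
def etl (B : Bk (FF M) V₀ G) (D : Rd V₀ G) (a : Subgroup V₀) (κ : V₀) (W : Subgroup V₀) :
    G → ℂ := fun g =>
  if W = a then tk B κ (D.et a) g
  else if W = ⊥ then (Nat.card (B.C a) : ℂ)⁻¹ * ∑ᶠ z : G, tk B κ (D.et a) (z⁻¹ * g * z)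
  else 0

open Classical in
/-- the weights of the terms of `κ et` -/
def wtE (ℓ : ℕ) (E₀ : Subgroup (MulAut V₀)) (B : Bk (FF M) V₀ G) (D : Rd V₀ G)
    (W : Subgroup V₀) (κ : V₀) (τ : MulAut V₀) (y : V₀) : ℂ :=
  ((ℓ : ℂ) ^ 2 * (nS E₀ W : ℂ) ^ 2)⁻¹ * ∑ᶠ χ ∈ Ch B W, nu B χ κ * cv (D.et W) χ *
      (starRingEnd ℂ (D.D W χ y) * D.D W χ (τ y)) +
    if mp τ W = W ∧ y ∈ W then (nS E₀ W : ℂ)⁻¹ * ∑ᶠ χ ∈ Ch B W, nu B χ κ * cv (D.et W) χ *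
      (nu B χ (τ y * y⁻¹) * D.R W χ (ac B τ⁻¹ χ)) else 0

open Classical in
/-- The interface of the local blocks. -/
structure Rs (ℓ : ℕ) [Fact ℓ.Prime] (E₀ : Subgroup (MulAut V₀)) (B : Bk (FF M) V₀ G)
    (D : Rd V₀ G) : Prop where
  ut : D.U ⊤ = 1
  u1 : ∀ W, W ≠ ⊥ → ∃ q ∈ SOR.Rl ℓ, D.U W = 1 + ℓ * q
  ue : ∀ W, W ≠ ⊥ → ∀ σ ∈ E₀, D.U (mp σ W) = D.U W
  d1 : ∀ W, W ≠ ⊥ → ∀ χ ∈ Ch B W, ∀ x, x ∉ W ∨ W = ⊤ →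
    (B.D ⊤ : ℂ) * D.D W χ x = ∑ᶠ s, bh B ⊤ s * χ (B.i x * s)
  d2 : ∀ W, W ≠ ⊥ → ∀ χ ∈ Ch B W, D.D W χ 1 ≠ 0 ∧
    (∀ x, starRingEnd ℂ (D.D W χ x) = D.D W χ x⁻¹) ∧
    ∀ w ∈ W, ∀ x, D.D W χ (w * x) = nu B χ w * D.D W χ x
  d3 : ∀ W, W ≠ ⊥ → ∀ χ ∈ Ch B W, ∀ c x, cv (fm ℓ E₀ B D W c) χ * D.D W χ x =
    (ux D.U W c : ℚ) * ∑ᶠ τ : St E₀ W, D.D W χ (x * (τ : MulAut V₀) c)
  d4 : ∀ W, W ≠ ⊥ → ∀ x y, ∑ᶠ χ ∈ Ch B W, D.D W χ x * starRingEnd ℂ (D.D W χ y) =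
    (ℓ : ℂ) ^ 2 * {τ : MulAut V₀ | τ ∈ St E₀ W ∧ τ x = y}.ncard
  d5 : ∀ W, W ≠ ⊥ → ∀ χ ∈ Ch B W, ∀ ψ ∈ Ch B W,
    (Nat.card (B.C W) : ℂ)⁻¹ * ∑ᶠ s ∈ {s : G | s ∈ B.C W ∧ Reg ℓ s},
      χ s * starRingEnd ℂ (ψ s) =
    D.D W χ 1 * starRingEnd ℂ (D.D W ψ 1) / ((ℓ : ℂ) ^ 2 * nS E₀ W) + D.R W χ ψ
  d6 : ∀ W, W ≠ ⊥ → ∀ ψ ∈ Ch B W, (∀ x, ∑ᶠ χ ∈ Ch B W, D.D W χ x * D.R W χ ψ = 0) ∧
    ∀ χ ∈ Ch B W, D.R W χ ψ = D.R W ψ χ ∧ starRingEnd ℂ (D.R W χ ψ) = D.R W χ ψ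
  d7 : ∀ W, W ≠ ⊥ → ∀ ψ ∈ Ch B W, ∀ ψ' ∈ Ch B W, ∀ z ∈ W, ∀ c,
    ∑ᶠ χ ∈ Ch B W, D.R W ψ χ * (nu B χ z * cv (fm ℓ E₀ B D W c) χ) * D.R W χ ψ' =
      if pr ℓ E₀ W c * z = 1 then (nS E₀ W : ℂ) * (ux D.U W c : ℚ) * D.R W ψ ψ' else 0
  d8 : ∀ W, W ≠ ⊥ → ∀ g ∈ E₀, mp g W = W → ∀ z ∈ W, ∀ c,
    ∑ᶠ χ ∈ Ch B W, cv (fm ℓ E₀ B D W c) χ * nu B χ z * D.R W χ (ac B g⁻¹ χ) =
      if pr ℓ E₀ W c * z = 1 then (nS E₀ W : ℂ) * (ux D.U W c : ℚ) * ((D.fx W g : ℚ) - 1) else 0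
  f1 : ∀ W, W ≠ ⊥ → nS E₀ W = 1 → D.et W = 0 ∧ ∀ g, D.fx W g = 1
  fe : ∀ W, W ≠ ⊥ → ∀ σ ∈ E₀, ∀ g ∈ E₀, mp g W = W → D.fx (mp σ W) (σ * g * σ⁻¹) = D.fx W g
  e1 : ∀ W, W ≠ ⊥ → Cz B W (D.et W)
  e2 : ∀ W, W ≠ ⊥ → ∀ g, ¬ Reg ℓ g → D.et W g = 0
  e3 : ∀ W, W ≠ ⊥ → ∀ χ ∈ Ch B W, cv (D.et W) χ ≠ 0 → ∀ c, cv (fm ℓ E₀ B D W c) χ =
    (nS E₀ W : ℂ) * (ux D.U W c : ℚ) * nu B χ (pr ℓ E₀ W c)
  e4 : ∀ W, W ≠ ⊥ → ∀ χ ∈ Ch B W, cv (D.et W) χ / ℓ ∈ RM M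
  e5 : ∀ W, W ≠ ⊥ → ∀ s ∈ B.C W,
    (ℓ : ℂ) * D.et W s / Nat.card (B.C W ⊓ Cu s : Subgroup G) ∈ RM M
  e6 : ∀ W ∈ RL ℓ E₀, ∀ κ ∈ W, ∀ τ ∈ E₀, ∀ y, wtE ℓ E₀ B D W κ τ y / ℓ ∈ RM M
  e7 : ∀ W ∈ RL ℓ E₀, ∀ κ ∈ W, (∑ᶠ χ ∈ Ch B W, nu B χ κ * cv (D.et W) χ) / (ℓ : ℂ) ^ 2 ∈ RM M ∧
    (∑ᶠ χ ∈ Ch B W, nu B χ κ * cv (D.et W) χ ^ 2) / (ℓ : ℂ) ^ 2 ∈ RM M
  e8 : ∀ W, W ≠ ⊥ → ∀ σ ∈ E₀, ∀ t ∈ Tg B.i.range B.g, (∀ v, t * B.i v * t⁻¹ = B.i (σ v)) →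
    (∀ g, D.et (mp σ W) (t * g * t⁻¹) = D.et W g) ∧ ∀ χ ∈ Ch B W, ∀ ψ ∈ Ch B W,
      (∀ x, D.D (mp σ W) (fun g => χ (t⁻¹ * g * t)) (σ x) = D.D W χ x) ∧
      D.R (mp σ W) (fun g => χ (t⁻¹ * g * t)) (fun g => ψ (t⁻¹ * g * t)) = D.R W χ ψ
  e9 : ∀ W, W ≠ ⊥ → ∀ χ ∈ Ch B W, ∃ q : ℚ, cv (D.et W) χ = (q : ℂ)
  h1 : ∀ W, W ≠ ⊥ → ∀ χ ∈ Ch B W, (ℓ : ℂ) ^ 2 * χ 1 / Nat.card (B.C W) ∈ RM M ∧
    (Nat.card (B.C W) : ℂ) / ((ℓ : ℂ) ^ 2 * χ 1) ∈ RM M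

/-- the `13`-sum of two elements -/
def X13 {n : ℕ} (B : Bk (FF M) V₀ G) (m : ℕ) (a b : Subgroup V₀ → G → ℂ)
    (L : Set (SO.SS n V₀)) : ℂ :=
  ((Nat.card (B.C (pL L)) : ℂ) * Nat.card (B.C (qL L)))⁻¹ *
    ∑ᶠ w : G × G, a (pL L) w.1 * b (qL L) w.2 * {z : XX w.1 w.2 | ∀ s ∈ L,
      c13 m B.i w.1 z.1.1 z.1.2.1 z.1.2.2 s.1 s.2.1 s.2.2.1 s.2.2.2}.ncard

/-- the `12`-sum of two elements -/
def X12 {n : ℕ} (B : Bk (FF M) V₀ G) (m : ℕ) (a b : Subgroup V₀ → G → ℂ)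
    (L : Set (SO.SS n V₀)) : ℂ :=
  ((Nat.card (B.C (pL L)) : ℂ) * Nat.card (B.C (qL L)))⁻¹ *
    ∑ᶠ w : G × G, a (pL L) w.1 * b (qL L) w.2 * {z : XX w.1 w.2 | ∀ s ∈ L,
      c12 m B.i z.1.1 z.1.2.1 z.1.2.2 s.1 s.2.1 s.2.2.1 s.2.2.2}.ncard

/-- the weighted number of the pairs `(x, y)` with the conditions for `κ ^ k p`, `κ` the `ℓ`-part of
`[x, y]` -/
def HX {n : ℕ} (B : Bk (FF M) V₀ G) (m : ℕ) (W : Subgroup V₀) (a : G → ℂ)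
    (L : Set (SO.SS n V₀)) : ℂ :=
  (Nat.card (B.C W) : ℂ)⁻¹ * ∑ᶠ g : G, a g * {w : G × G | SO.kap w.1 w.2 = g ∧ ∀ s ∈ L,
    ((g ^ m) ^ (s.2.1 : ℕ) * B.i s.2.2.1) * w.1 = w.1 * ((g ^ m) ^ (s.2.1 : ℕ) * B.i s.2.2.1) ∧
    w.2⁻¹ * ((g ^ m) ^ (s.2.1 : ℕ) * B.i s.2.2.1) * w.2 =
      (g ^ m) ^ (s.2.1 : ℕ) * B.i s.2.2.1 * (w.1 ^ m) ^ (s.1 : ℕ)}.ncard

/-- the sum of the products of the central characters over the block -/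
def NN (B : Bk (FF M) V₀ G) (a b : G → ℂ) : ℂ := ∑ᶠ χ ∈ IrrE M B.e, cv a χ * cv b χ

/-- the sum of the central characters over the block -/
def LL (B : Bk (FF M) V₀ G) (a : G → ℂ) : ℂ := ∑ᶠ χ ∈ IrrE M B.e, cv a χ

end blk

section rel

variable {V₀ : Type} [CommGroup V₀]

open Classical in
/-- the function `F₁₂` of the labels `kc`, `kd` -/
def F12 {n : ℕ} (ℓ : ℕ) (x₁ x₂ : V₀ → ℤ) (Ψ M₁ M₂ : Set (SO.SS n V₀) → ℚ)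
    (K : Set (Fin n × V₀ × V₀) → ℚ) (kc kd : V₀) (τ : Set (SO.SS n V₀)) : ℚ :=
  if Fre τ then (x₁ kc⁻¹ : ℚ) / ℓ * ((x₂ kd⁻¹ : ℚ) / ℓ) -
    K {u | ∃ s ∈ τ, (s.1 : ℕ) = 0 ∧ s.2 = u} -
    12 * (Ψ τ + (x₁ kc⁻¹ : ℚ) / ℓ * M₂ τ + (x₂ kd⁻¹ : ℚ) / ℓ * M₁ τ) else 0

/-- The values of the universal functions on the types which occur. -/
structure FE (ℓ : ℕ) [Fact ℓ.Prime] (n : ℕ) (ρ₁ ρ₂ : V₀ → ZMod ℓ) (x₁ x₂ : V₀ → ℤ)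
    (F₁₃ Ψ M₁ M₂ : Set (SO.SS n V₀) → ℚ) (K : Set (Fin n × V₀ × V₀) → ℚ) : Prop where
  z13 : ∀ τ, (∀ s ∈ τ, ρ₁ s.2.2.1 = 0) ∨ (∀ s ∈ τ, ρ₂ s.2.2.2 = 0) → F₁₃ τ = 0
  K0 : ∀ U, (∀ u ∈ U, ρ₁ u.2.1 = 0) ∨ (∀ u ∈ U, ρ₂ u.2.2 = 0) → K U = 0
  K1 : ∀ (U : Set (Fin n × V₀ × V₀)) (κ₁ κ₂ : V₀), (∃ u ∈ U, (u.1 : ℕ) = 1) →
    (∀ u ∈ U, (u.1 : ℕ) = 1 → u.2 = (κ₁, κ₂)) → K U = (x₁ κ₁ * x₂ κ₂ : ℤ) / (ℓ : ℚ) ^ 2
  e0 : ∀ τ, Fre τ → (∀ s ∈ τ, ρ₁ s.2.2.1 = 0 ∧ ρ₂ s.2.2.2 = 0) → Ψ τ = 0 ∧ M₁ τ = 0 ∧ M₂ τ = 0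
  e1 : ∀ τ, Fre τ → (∀ s ∈ τ, ∃ s' ∈ τ, (s'.1 : ℕ) = 0 ∧ s'.2 = s.2) →
    (∀ s ∈ τ, (s.2.1 : ℕ) = 0 → ρ₁ s.2.2.1 = 0 ∧ ρ₂ s.2.2.2 = 0) →
    Ψ τ = 0 ∧ M₁ τ = 0 ∧ M₂ τ = 0
  e2 : ∀ p₁ q₁ p₂ q₂ : V₀, Ψ {s | s.2.2.1 = p₁ ^ (s.1 : ℕ) * p₂ ^ (s.2.1 : ℕ) ∧
      s.2.2.2 = q₁ ^ (s.1 : ℕ) * q₂ ^ (s.2.1 : ℕ)} =
        - (x₁ p₂ * x₂ q₁ + x₁ p₁ * x₂ q₂ : ℤ) / (ℓ : ℚ) ^ 2 ∧
    M₁ {s | s.2.2.1 = p₁ ^ (s.1 : ℕ) * p₂ ^ (s.2.1 : ℕ) ∧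
      s.2.2.2 = q₁ ^ (s.1 : ℕ) * q₂ ^ (s.2.1 : ℕ)} = (x₁ p₁ : ℚ) / ℓ ∧
    M₂ {s | s.2.2.1 = p₁ ^ (s.1 : ℕ) * p₂ ^ (s.2.1 : ℕ) ∧
      s.2.2.2 = q₁ ^ (s.1 : ℕ) * q₂ ^ (s.2.1 : ℕ)} = (x₂ q₁ : ℚ) / ℓ
  e2' : ∀ p₁ q₁ : V₀, Ψ {s | ℓ ∣ (s.2.1 : ℕ) ∧ s.2.2.1 = p₁ ^ (s.1 : ℕ) ∧
      s.2.2.2 = q₁ ^ (s.1 : ℕ)} = 0 ∧
    M₁ {s | ℓ ∣ (s.2.1 : ℕ) ∧ s.2.2.1 = p₁ ^ (s.1 : ℕ) ∧ s.2.2.2 = q₁ ^ (s.1 : ℕ)} =
      (x₁ p₁ : ℚ) / ℓ ∧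
    M₂ {s | ℓ ∣ (s.2.1 : ℕ) ∧ s.2.2.1 = p₁ ^ (s.1 : ℕ) ∧ s.2.2.2 = q₁ ^ (s.1 : ℕ)} =
      (x₂ q₁ : ℚ) / ℓ
  e3 : ∀ (p q : V₀) (i₀ : ℕ), ¬ ℓ ∣ i₀ → (ℓ : ℚ) ^ 2 * Ψ {s | s.2.2.1 = p ^ (s.2.1 : ℕ) ∧
      s.2.2.2 = q ^ (s.2.1 : ℕ) ∧ (s.1 : ℕ) ≡ i₀ * (s.2.1 : ℕ) [MOD ℓ]} ∈ SOR.Rl ℓ ∧
    M₁ {s | s.2.2.1 = p ^ (s.2.1 : ℕ) ∧ s.2.2.2 = q ^ (s.2.1 : ℕ) ∧
      (s.1 : ℕ) ≡ i₀ * (s.2.1 : ℕ) [MOD ℓ]} = 0 ∧
    M₂ {s | s.2.2.1 = p ^ (s.2.1 : ℕ) ∧ s.2.2.2 = q ^ (s.2.1 : ℕ) ∧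
      (s.1 : ℕ) ≡ i₀ * (s.2.1 : ℕ) [MOD ℓ]} = 0

end rel

end Pool.Agent.PP.SE
end
end -- Pool.Agent.ASE.DefsE

section -- Pool.Agent.ASE.Stmts3

/-!
# Squad ASE, statements 3: the sums `SL`, `X13`, `X12`, `HX` (section 3 of `AWC_SOE.md`)

Complete proofs in the docstrings.  `C₁ = C W₁`, `n₁ = nS E₀ W₁`, `n_Y = nS E₀ Y`, `V = i(V₀)`, `tt σ` an element of the
inertial group `T` inducing `σ ∈ E₀`.  Only `Sb` is used where there is no `Rs`.  `Sd` is not needed, except that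
`NSD` for `⊤` (`Rw E₀ ⊤`) is used through `Rs.d1`.
-/

open scoped BigOperators

noncomputable section

namespace Pool.Agent.PP.SE

open Pool.Agent.Helper51_AWC Pool.Agent.Helper79_WRA Pool.Agent.PP Pool.Agent.PP.KF
open Pool.Agent.PP.K9 Pool.Agent.PP.K9.H97 Pool.Agent.PP.H75 Pool.Agent.PP.T3 Pool.Agent.PP.SO
open Pool.Agent.PP.SD

attribute [local instance] Ideal.Quotient.field

/-! ## 0. Definitions -/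

section defs

variable {V₀ G : Type} [CommGroup V₀] [Group G] {M : Ideal (integralClosure ℤ ℂ)} [M.IsMaximal]

/-- the component in the block `b Y` of the function `s ↦ χ(i(y) s)` on `C Y` -/
def cx (B : Bk (FF M) V₀ G) (Y : Subgroup V₀) (y : V₀) (χ : G → ℂ) (s : G) : ℂ :=
  ∑ᶠ r : G, bh B Y r * χ (B.i y * s * r)

/-- the pairs `(σ, y)` with `σ (p y ^ k) = q` for the triples of `L` -/
def QL (E₀ : Subgroup (MulAut V₀)) (L : Set (V₀ × V₀ × ℤ)) : Set (MulAut V₀ × V₀) :=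
  {w | w.1 ∈ E₀ ∧ ∀ s ∈ L, w.1 (s.1 * w.2 ^ s.2.2) = s.2.1}

/-- the pairs `(α, i)`, `α = κ ^ k p` -/
def TL {n : ℕ} (κ : V₀) (L : Set (SO.SS n V₀)) : Set (V₀ × ℕ) :=
  {t | ∃ s ∈ L, t = (κ ^ (s.2.1 : ℕ) * s.2.2.1, (s.1 : ℕ))}

/-- the weighted number of the pairs `(x, y)` with `α x = x α`, `y⁻¹ α y = α (x^m)^i` for `(α, i) ∈ T` -/
def HY (B : Bk (FF M) V₀ G) (m : ℕ) (A : Subgroup V₀) (a : G → ℂ) (T : Set (V₀ × ℕ)) : ℂ :=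
  (Nat.card (B.C A) : ℂ)⁻¹ * ∑ᶠ g : G, a g * {w : G × G | SO.kap w.1 w.2 = g ∧ ∀ t ∈ T,
    B.i t.1 * w.1 = w.1 * B.i t.1 ∧ w.2⁻¹ * B.i t.1 * w.2 = B.i t.1 * (w.1 ^ m) ^ t.2}.ncard

/-- the triples `(α, α, i)` -/
def LT (T : Set (V₀ × ℕ)) : Set (V₀ × V₀ × ℤ) := {s | ∃ t ∈ T, s = (t.1, t.1, (t.2 : ℤ))}

end defs

/-! ## 1. Basic facts -/

/-- PRB: the projections `pr`.

Proof.  `N = St E₀ W`, `n = |N|` is prime to `ℓ` (`cp`, Lagrange), `n⁻¹` is the inverse in `ZMod ℓ`, so `v ^ (n * n⁻¹) = v`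
(`ex`).  (1) `∏ τ c = c ^ n` for `c ∈ W`.  (2) `V₀` is commutative.  (3) substitution `τ' ↦ τ' τ`, `τ τ'`.
(4) `St E₀ (mp σ W) = σ (St E₀ W) σ⁻¹`.  (5) `W ∈ RL`: the fixed points of `N` are a subgroup containing `W`, different from
`V₀` (some `τ ≠ 1` in `N`), so equal to `W` (orders); `pr c` is fixed by `N`.  (6) `N = 1`: `c ^ 1`, `(1 : ZMod ℓ)⁻¹ = 1`,
`(1 : ZMod ℓ).val = 1`.  (7) `|V₀| = ℓ²`; an automorphism fixing all elements is `1`.  (8) clear.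
(9) the fixed points of `τ` contain `W` and `x`.  (10) (1)-(3): `∏ τ v` is fixed by `N`...: `(pr v)^n = (∏ τ v)^(n⁻¹ n) = ∏ τ v`. -/
def PrbStmt : Prop := ∀ (ℓ : ℕ) [Fact ℓ.Prime] (V₀ : Type) [CommGroup V₀] [Finite V₀]
  (E₀ : Subgroup (MulAut V₀)), Fq ℓ V₀ E₀ → ∀ W : Subgroup V₀,
  (∀ c ∈ W, pr ℓ E₀ W c = c) ∧
  (pr ℓ E₀ W 1 = 1 ∧ (∀ c d, pr ℓ E₀ W (c * d) = pr ℓ E₀ W c * pr ℓ E₀ W d) ∧
    ∀ c (k : ℤ), pr ℓ E₀ W (c ^ k) = pr ℓ E₀ W c ^ k) ∧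
  (∀ τ ∈ St E₀ W, ∀ c, pr ℓ E₀ W (τ c) = pr ℓ E₀ W c ∧ τ (pr ℓ E₀ W c) = pr ℓ E₀ W c) ∧
  (∀ σ ∈ E₀, nS E₀ (mp σ W) = nS E₀ W ∧ ∀ c, pr ℓ E₀ (mp σ W) (σ c) = σ (pr ℓ E₀ W c)) ∧
  (W ∈ RL ℓ E₀ → ∀ c, pr ℓ E₀ W c ∈ W) ∧
  (nS E₀ W = 1 → ∀ c, pr ℓ E₀ W c = c) ∧
  (W ≠ ⊥ → (nS E₀ W = 1 ∨ W ∈ RL ℓ E₀) ∧ (W = ⊤ ∨ Nat.card W = ℓ)) ∧
  (nS E₀ (⊤ : Subgroup V₀) = 1 ∧ 0 < nS E₀ W ∧ ¬ ℓ ∣ nS E₀ W) ∧
  (W ≠ ⊥ → ∀ x, x ∉ W → W ⊔ Subgroup.zpowers x = ⊤ ∧ ∀ τ ∈ St E₀ W, τ x = x → τ = 1) ∧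
  (∀ v, ∏ᶠ τ : St E₀ W, (τ : MulAut V₀) v = pr ℓ E₀ W v ^ nS E₀ W)

/-- MPB: images of subgroups.

Proof.  Clear. -/
def MpbStmt : Prop := ∀ (V₀ : Type) [CommGroup V₀] [Finite V₀] (σ τ : MulAut V₀)
  (W W' : Subgroup V₀), mp 1 W = W ∧ mp (σ * τ) W = mp σ (mp τ W) ∧ Nat.card (mp σ W) = Nat.card W ∧
  (∀ v, v ∈ mp σ W ↔ σ⁻¹ v ∈ W) ∧ (∀ v, σ v ∈ mp σ W ↔ v ∈ W) ∧
  (∀ v, mp σ (Subgroup.zpowers v) = Subgroup.zpowers (σ v)) ∧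
  mp σ (W ⊔ W') = mp σ W ⊔ mp σ W' ∧ mp σ (⊤ : Subgroup V₀) = ⊤ ∧ mp σ (⊥ : Subgroup V₀) = ⊥ ∧
  (mp σ W = W' ↔ mp σ⁻¹ W' = W) ∧ (W ≤ W' → mp σ W ≤ mp σ W')

/-- CZB: central elements.

Proof.  `H = C W`, the central characters of `H`: a class function `a` on `H` is `∑_ψ cv a ψ (ψ 1/|H|) ψ(g⁻¹)` (the sum over
`Irr H`), the central character of a product (`mulF`) of class functions is the product.  `Cz` for `fc B W c`: FCD.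
(3) the product of `i(κ)` (`κ ∈ W`, `i(κ)` central in `H`): `∑_g a(i(κ)⁻¹ g) χ(g) = ∑_g a(g) χ(i(κ) g)`, `χ(i(κ) g) = nu χ κ χ(g)` by
Schur's lemma; `nu` is a homomorphism `W → ℂˣ` (finite order). -/
def CzbStmt : Prop := ∀ (ℓ : ℕ) [Fact ℓ.Prime] (M : Ideal (integralClosure ℤ ℂ)) [M.IsMaximal],
  (ℓ : integralClosure ℤ ℂ) ∈ M → ℓ ≠ 2 → ∀ (V₀ G : Type) [CommGroup V₀] [Finite V₀] [Group G]
  [Finite G] (E₀ : Subgroup (MulAut V₀)), Fq ℓ V₀ E₀ → ∀ B : Bk (FF M) V₀ G, Sb ℓ M E₀ B →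
  ∀ W : Subgroup V₀,
  (∀ c, Cz B W (fc B W c)) ∧
  (∀ a, Cz B W a → ∀ g ∈ B.C W, a g = ∑ᶠ χ ∈ Ch B W, cv a χ * (χ 1 / Nat.card (B.C W)) * χ g⁻¹) ∧
  (∀ a, Cz B W a → ∀ κ ∈ W, Cz B W (tk B κ a) ∧
    ∀ χ ∈ Ch B W, cv (tk B κ a) χ = nu B χ κ * cv a χ) ∧
  (∀ a b, Cz B W a → Cz B W b → Cz B W (fun g => mulF a b g) ∧
    ∀ χ ∈ Ch B W, cv (fun g => mulF a b g) χ = cv a χ * cv b χ) ∧
  (∀ a b, Cz B W a → Cz B W b → ∀ z z' : ℂ, Cz B W (fun g => z * a g + z' * b g) ∧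
    ∀ χ, cv (fun g => z * a g + z' * b g) χ = z * cv a χ + z' * cv b χ) ∧
  (∀ a b, Cz B W a → Cz B W b → (∀ χ ∈ Ch B W, cv a χ = cv b χ) → a = b) ∧
  (∀ χ ∈ Ch B W, χ 1 ≠ 0 ∧ nu B χ 1 = 1 ∧
    (∀ w ∈ W, starRingEnd ℂ (nu B χ w) = nu B χ w⁻¹ ∧ (∀ g, χ (B.i w * g) = nu B χ w * χ g) ∧
      ∀ w' ∈ W, nu B χ (w * w') = nu B χ w * nu B χ w') ∧
    (∀ g, χ g⁻¹ = starRingEnd ℂ (χ g)) ∧ ∀ z ∈ B.C W, ∀ g, χ (z * g * z⁻¹) = χ g) ∧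
  (Ch B W).Finite

/-- ACB: conjugation with `tt σ`.

Proof.  `tt B σ ∈ T` acts by `σ` (`Sb.sur`, `choose_spec`).  If `t ∈ T` acts by `σ` then `t = tt σ · z` with `z ∈ C ⊤ ≤ C W` (or
`t = z (tt σ)`), and a class function of `C W` is invariant under `z`; CJD (`Stmts3` of ASD): `x ∈ C W ↔ t x t⁻¹ ∈ C (σ W)`,
`b (σ W) = cj t (b W)`, `bh`, `fc`.  `ac 1 a = a`, `ac (σ σ') a = ac σ (ac σ' a)` for the same reason. -/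
def AcbStmt : Prop := ∀ (ℓ : ℕ) [Fact ℓ.Prime] (M : Ideal (integralClosure ℤ ℂ)) [M.IsMaximal],
  (ℓ : integralClosure ℤ ℂ) ∈ M → ℓ ≠ 2 → ∀ (V₀ G : Type) [CommGroup V₀] [Finite V₀] [Group G]
  [Finite G] (E₀ : Subgroup (MulAut V₀)), Fq ℓ V₀ E₀ → ∀ B : Bk (FF M) V₀ G, Sb ℓ M E₀ B →
  (∀ σ ∈ E₀, tt B σ ∈ Tg B.i.range B.g ∧ ∀ v, tt B σ * B.i v * (tt B σ)⁻¹ = B.i (σ v)) ∧
  ∀ W : Subgroup V₀, ∀ σ ∈ E₀,
  (∀ t ∈ Tg B.i.range B.g, (∀ v, t * B.i v * t⁻¹ = B.i (σ v)) → ∀ a : G → ℂ,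
    (∀ g, g ∉ B.C W → a g = 0) → (∀ z ∈ B.C W, ∀ g, a (z * g * z⁻¹) = a g) →
    ∀ x, ac B σ a x = a (t⁻¹ * x * t)) ∧
  (∀ a, Cz B W a → Cz B (mp σ W) (ac B σ a) ∧ ac B 1 a = a ∧
    ∀ σ' ∈ E₀, ac B (σ' * σ) a = ac B σ' (ac B σ a)) ∧
  (∀ χ ∈ Ch B W, ac B σ χ ∈ Ch B (mp σ W) ∧ ac B 1 χ = χ ∧
    (∀ σ' ∈ E₀, ac B (σ' * σ) χ = ac B σ' (ac B σ χ)) ∧ (∀ w, nu B (ac B σ χ) (σ w) = nu B χ w) ∧
    ∀ a, Cz B W a → cv (ac B σ a) (ac B σ χ) = cv a χ) ∧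
  Set.BijOn (ac B σ) (Ch B W) (Ch B (mp σ W)) ∧
  (∀ c, ac B σ (fc B W c) = fc B (mp σ W) (σ c)) ∧ ac B σ (bh B W) = bh B (mp σ W) ∧
  Nat.card (B.C (mp σ W)) = Nat.card (B.C W) ∧
  (∀ κ a, Cz B W a → ac B σ (tk B κ a) = tk B (σ κ) (ac B σ a))

/-- FMB: the elements `fm`.

Proof.  `n = nS E₀ W`.  (1) CZB, `Rs.e1`; for `c ∉ W` and `n > 1`: `pr W c ∈ W` (PRB (5), `W ∈ RL`); if `n = 1` then `et W = 0` (`f1`).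
(2) d3 for `x = 1`, and again: `cv (fm c) cv (fm c') D(1) = cv (fm c) ux(c') ∑_τ D(τ c') = ux(c') ux(c) ∑_τ ∑_τ' D(τ c' τ' c)`
(`St` is closed under products: `τ c' τ' c = τ'(c τ'⁻¹ τ c')`); the right side times `D(1)`:
`∑_τ (ux c ux (τ c')/ux (c τ c')) ux(c τ c') ∑_τ' D(τ' (c τ c'))` is the same (`ux (τ c') = ux c'`: `τ` fixes `W`), `D(1) ≠ 0`; `ux ≠ 0` (`u1`: `1 + ℓ q`, `q ∈ Rl ℓ`, is not
`0`).  CZB (6).  (3) e3, CZB (3), (4), (6).  (4) ACB, e8, PRB (4).  (5) conjugate d3 for `x = 1`, d2: `conj D(τ c) = D(τ c⁻¹)`, `D(1)` is real.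
(6) d3, `pr`: for `c ∈ W` `fm c = n i(c) b^`, and d3 is d2.  In general `cv (fm 1) χ = n`: `fm 1 = n b^`.  (7) CZB, (`tk` is multiplicative). -/
def FmbStmt : Prop := ∀ (ℓ : ℕ) [Fact ℓ.Prime] (M : Ideal (integralClosure ℤ ℂ)) [M.IsMaximal],
  (ℓ : integralClosure ℤ ℂ) ∈ M → ℓ ≠ 2 → ∀ (V₀ G : Type) [CommGroup V₀] [Finite V₀] [Group G]
  [Finite G] (E₀ : Subgroup (MulAut V₀)), Fq ℓ V₀ E₀ → ∀ B : Bk (FF M) V₀ G, Sb ℓ M E₀ B →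
  ∀ D : Rd V₀ G, Rs ℓ E₀ B D → ∀ W : Subgroup V₀, W ≠ ⊥ →
  (∀ c, Cz B W (fm ℓ E₀ B D W c)) ∧
  (∀ c c' x, mulF (fm ℓ E₀ B D W c) (fm ℓ E₀ B D W c') x = ∑ᶠ τ : St E₀ W,
    ((ux D.U W c * ux D.U W ((τ : MulAut V₀) c') / ux D.U W (c * (τ : MulAut V₀) c') : ℚ) : ℂ) *
      fm ℓ E₀ B D W (c * (τ : MulAut V₀) c') x) ∧
  (∀ κ ∈ W, Cz B W (tk B κ (D.et W)) ∧ ∀ c x,
    mulF (tk B κ (D.et W)) (fm ℓ E₀ B D W c) x =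
      (nS E₀ W : ℂ) * (ux D.U W c : ℚ) * tk B (κ * pr ℓ E₀ W c) (D.et W) x) ∧
  (∀ σ ∈ E₀, (∀ c, ac B σ (fm ℓ E₀ B D W c) = fm ℓ E₀ B D (mp σ W) (σ c)) ∧
    ∀ κ ∈ W, ac B σ (tk B κ (D.et W)) = tk B (σ κ) (D.et (mp σ W))) ∧
  (∀ χ ∈ Ch B W, ∀ c, starRingEnd ℂ (cv (fm ℓ E₀ B D W c) χ) = cv (fm ℓ E₀ B D W c⁻¹) χ) ∧
  (∀ χ ∈ Ch B W, cv (fm ℓ E₀ B D W 1) χ = nS E₀ W) ∧
  (∀ κ ∈ W, ∀ κ' ∈ W, ∀ x, mulF (tk B κ (D.et W)) (tk B κ' (D.et W)) x =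
    tk B (κ * κ') (fun g => mulF (D.et W) (D.et W) g) x) ∧
  (∀ c, ux D.U W c ≠ 0) ∧ (∀ τ ∈ St E₀ W, ∀ c, ux D.U W (τ c) = ux D.U W c) ∧
  (∀ σ ∈ E₀, ∀ c, ux D.U (mp σ W) (σ c) = ux D.U W c)

/-! ## 2. The sums `SL` -/

/-- FBR: the sums `SL` as sums over the fibres.

Proof.  `W₁ = p1 L`, `W₂ = p2 L`.  Group the pairs `(X, u)` of `SL` with `X ∈ C₁`, `u⁻¹ X u ∈ C₂` (otherwise the term is `0`) by
`u` and `z = X ^ m`, the `ℓ`-part (`PE`): `X = z x`, `x` regular, commuting with `z`; the condition `u i(q) u⁻¹ = i(p) z^k` depends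
only on `(z, u)`.  It implies that `z` and `i(W₁)` generate the same group `R` as `z` and `u i(W₂) u⁻¹`; `x` runs over the
regular elements of `C(R) = C₁ ∩ Cu z`.  The term is `S(z, u) = ∑_x f(x) f'(x)`, `f(x) = χ(z x)`, `f'(x) = χ'(u⁻¹ (z x)⁻¹ u)`.  Decompose the
class function `f` of `C(R)` into its components `f_β` in the blocks `β` of `C(R)` (`f_β(x) = ∑_r β^(r) f(x r)`), and `f'` too; for regular sums different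
blocks are orthogonal (`K9.RotStmt`): `S = ∑_β ∑_x f_β(x) conj(f''_β(x))`, `f''(x) = conj f'(x) = χ'(u⁻¹ z x u)`.  `f_β` vanishes at the regular elements
unless `β` is under `b W₁` (as in FIB), `f''_β` unless `β` is under `cj u (b W₂)`.
For such `(z, u, β)`: PSC for `W₁`: `z = g i(y) g⁻¹`, `β = cj g (b Y)`, `Y = W₁ ⊔ ⟨y⟩`, `g ∈ C₁`, and as in the proof of FIB `u = g (tt σ)⁻¹ g'` with
`g' ∈ C₂`, `σ ∈ E₀`, and the condition becomes `σ (p y^k) = q`, `(σ, y) ∈ QL`.  Conversely every `(g, σ, y, g') ∈ C₁ × QL × C₂` defines such a triple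
`(z, u, β)` (if `β` is not under `cj u (b W₂)` the value is `0`; but it is: `cj g (b Y) = cj (g tt(σ)⁻¹) (b (σ Y))` and `W₂ ≤ σ Y`).
*Fibres.*  Let `(g₀, σ₀, y₀, g₀')` be given, `h = g₀⁻¹ g ∈ C₁`.  `(g, y)` gives the same `(z, β)` iff `h i(y) h⁻¹ = i(y₀)`, `cj h (b Y) = b Y₀`; by FUD there is
`π ∈ E₀` with `π = 1` on `W₁`, `π y = y₀`, `h ∈ t C Y`, `t ∈ T` inducing `π`.  So the `h` are the elements of `(C Y₀) (tt π)`, `π ∈ St E₀ W₁`; two `π`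
give the same set iff they are equal on `Y = π⁻¹ Y₀`, so there are `|C Y₀| n₁/n_(Y₀)` elements `h`, and `y` is determined by `h`.  Given `g`, `y`: `u = g (tt σ)⁻¹ g'` iff
`g' = (tt σ) g⁻¹ u ∈ C₂`; with `g⁻¹ u = (tt π)⁻¹ c (tt σ₀)⁻¹ g₀'`, `c ∈ C Y₀`, and `W₂ ≤ σ₀ Y₀`, this is `(tt σ)(tt π)⁻¹ (tt σ₀)⁻¹` modulo `C₂`, so the condition is that
`σ` and `σ₀ π` are equal on `(σ₀ π)⁻¹ W₂`, i.e. `σ ∈ (St E₀ W₂) σ₀ π`: `n₂` elements `σ`, one `g'` each; `(σ, y) ∈ QL` is automatic.  So every fibre has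
`|C Y| n₁ n₂/n_Y` elements (`|C Y| = |C Y₀|`, `n_Y = n_(Y₀)`).
*Value.*  Conjugate with `g`: `x = g s g⁻¹`, `s ∈ C Y` regular: `f_β(x) = cx B Y y χ s` (`χ` is a class function of `C₁`, `β^ = bh Y` conjugated),
`u⁻¹ z x u = g'⁻¹ (tt σ) i(y) s (tt σ)⁻¹ g'`, so `f''(x) = χ'((tt σ) i(y) s (tt σ)⁻¹) = (ac B σ⁻¹ χ')(i(y) s)` (ACB), and `f''_β(x) = cx B Y y (ac B σ⁻¹ χ') s`. -/
def FbrStmt : Prop := ∀ (ℓ : ℕ) [Fact ℓ.Prime] (M : Ideal (integralClosure ℤ ℂ)) [M.IsMaximal],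
  (ℓ : integralClosure ℤ ℂ) ∈ M → ℓ ≠ 2 → ∀ (V₀ G : Type) [CommGroup V₀] [Finite V₀] [Group G]
  [Finite G] (E₀ : Subgroup (MulAut V₀)), Fq ℓ V₀ E₀ → ∀ B : Bk (FF M) V₀ G, Sb ℓ M E₀ B →
  ∀ n m : ℕ, PE ℓ n m G → ∀ L : Set (V₀ × V₀ × ℤ), p1 L ≠ ⊥ → p2 L ≠ ⊥ → ∀ χ ∈ Ch B (p1 L),
  ∀ χ' ∈ Ch B (p2 L), SL B m L χ χ' =
    (Nat.card (B.C (p1 L)) : ℂ) * Nat.card (B.C (p2 L)) * ∑ᶠ w ∈ QL E₀ L,
      (nS E₀ (p1 L ⊔ Subgroup.zpowers w.2) : ℂ) / ((nS E₀ (p1 L) : ℂ) * nS E₀ (p2 L) *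
        Nat.card (B.C (p1 L ⊔ Subgroup.zpowers w.2))) *
      ∑ᶠ s ∈ {s : G | s ∈ B.C (p1 L ⊔ Subgroup.zpowers w.2) ∧ Reg ℓ s},
        cx B (p1 L ⊔ Subgroup.zpowers w.2) w.2 χ s *
          starRingEnd ℂ (cx B (p1 L ⊔ Subgroup.zpowers w.2) w.2 (ac B w.1⁻¹ χ') s)

/-- CXV: the functions `cx`.

Proof.  (1) `C = C ⊤`.  The function `s ↦ χ(i(y) s)` on `C` is a combination of `Irr C` (restriction of `χ` to `C`, `i(y)` central);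
its component in `g` is a combination of the characters `κ_μ` of `g` (`μ ∈ lin V₀`), which are equal to `κ₁` at the regular elements (as in `NSV`, `CEN`; NSD (4)
for `W = ⊤`, `Rw E₀ ⊤`: `κ_μ(h) = (|C|/(ℓ² D)) bh ⊤ h⁻¹` for `h` regular, `D = D ⊤`).  So `cx ⊤ y χ s = a κ₁(s)` for regular `s`, with `a D = cx ⊤ y χ 1 = ∑_r bh ⊤ r χ(i(y) r) = D DD(χ, y)`
(`Rs.d1`: `y ∉ W` or `W = ⊤`).  The same for `ψ` at `W'`.  `∑_(s regular) |κ₁(s)|² = (|C|/(ℓ² D))² ∑_s |bh ⊤ s|² = (|C|/(ℓ² D))² bh ⊤ 1 = |C|/ℓ²`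
(idempotent, `bh s⁻¹ = conj`; NSD (7)).  (2) `Y = W`: `i(y)` is central in `C W`, `χ` is in `b W`: `∑_r bh W r χ(i(y) s r) = χ(i(y) s) = nu χ y χ(s)`. -/
def CxvStmt : Prop := ∀ (ℓ : ℕ) [Fact ℓ.Prime] (M : Ideal (integralClosure ℤ ℂ)) [M.IsMaximal],
  (ℓ : integralClosure ℤ ℂ) ∈ M → ℓ ≠ 2 → ∀ (V₀ G : Type) [CommGroup V₀] [Finite V₀] [Group G]
  [Finite G] (E₀ : Subgroup (MulAut V₀)), Fq ℓ V₀ E₀ → ∀ B : Bk (FF M) V₀ G, Sd ℓ M E₀ B →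
  ∀ D : Rd V₀ G, Rs ℓ E₀ B D → ∀ W : Subgroup V₀, W ≠ ⊥ → ∀ χ ∈ Ch B W, ∀ y : V₀,
  (y ∉ W ∨ W = ⊤ → ∀ W' : Subgroup V₀, W' ≠ ⊥ → (y ∉ W' ∨ W' = ⊤) → ∀ ψ ∈ Ch B W',
    ∑ᶠ s ∈ {s : G | s ∈ B.C ⊤ ∧ Reg ℓ s}, cx B ⊤ y χ s * starRingEnd ℂ (cx B ⊤ y ψ s) =
      (Nat.card (B.C ⊤) : ℂ) / ℓ ^ 2 * (D.D W χ y * starRingEnd ℂ (D.D W' ψ y))) ∧
  (y ∈ W → ∀ s ∈ B.C W, cx B W y χ s = nu B χ y * χ s)

/-- SLE: the sums `SL` (formula (3.1)).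

Proof.  FBR.  `(σ, y) ∈ QL`, `Y = W₁ ⊔ ⟨y⟩`, `χ'' = ac B σ⁻¹ χ' ∈ Ch B (σ⁻¹ W₂)` (ACB).  `p y^k = σ⁻¹ q`, so `σ⁻¹ W₂ ≤ Y` and
`Y = σ⁻¹ W₂ ⊔ ⟨y⟩`.
(a) `Y = ⊤`: `n_Y = 1`.  `y ∉ W₁` or `W₁ = ⊤`, and `y ∉ σ⁻¹ W₂` or `σ⁻¹ W₂ = ⊤`.  CXV (1): the value is
`(n₁ n₂ |C ⊤|)⁻¹ (|C ⊤|/ℓ²) DD(χ, y) conj DD(χ'', y)`, and `DD(χ'', y) = DD_(W₂)(χ', σ y)` (`Rs.e8` for `σ⁻¹`).  If in this case `y ∈ W₁` (so `W₁ = ⊤`)
the second sum has no term (`|W₁| ≠ ℓ`).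
(b) `Y ≠ ⊤`: then `Y = W₁` is of order `ℓ`, `y ∈ W₁`, `σ⁻¹ W₂ = W₁` (`≠ ⊥`), `n₂ = n₁`.  CXV (2) for `χ` and `χ''` (both in `Ch B W₁`):
`(n₁/(n₁ n₂ |C₁|)) nu χ y conj (nu χ'' y) |C₁| rip(χ, χ'')`, `nu χ'' y = nu χ' (σ y)`, and d5:
`rip = DD(χ, 1) conj DD(χ'', 1)/(ℓ² n₁) + RR(χ, χ'')`; `nu χ y DD(χ, 1) = DD(χ, y)` (d2), `conj (nu χ'' y DD(χ'', 1)) = conj DD(χ'', y) = conj DD_(W₂)(χ', σ y)`.
The two conditions of the second sum (`mp σ W₁ = W₂`, `y ∈ W₁`, `|W₁| = ℓ`) are the case (b). -/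
def SleStmt : Prop := ∀ (ℓ : ℕ) [Fact ℓ.Prime] (M : Ideal (integralClosure ℤ ℂ)) [M.IsMaximal],
  (ℓ : integralClosure ℤ ℂ) ∈ M → ℓ ≠ 2 → ∀ (V₀ G : Type) [CommGroup V₀] [Finite V₀] [Group G]
  [Finite G] (E₀ : Subgroup (MulAut V₀)), Fq ℓ V₀ E₀ → ∀ B : Bk (FF M) V₀ G, Sd ℓ M E₀ B →
  ∀ D : Rd V₀ G, Rs ℓ E₀ B D →
  ∀ n m : ℕ, PE ℓ n m G → ∀ L : Set (V₀ × V₀ × ℤ), p1 L ≠ ⊥ → p2 L ≠ ⊥ → ∀ χ ∈ Ch B (p1 L),
  ∀ χ' ∈ Ch B (p2 L), SL B m L χ χ' =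
    (Nat.card (B.C (p1 L)) : ℂ) * Nat.card (B.C (p2 L)) *
      (((ℓ : ℂ) ^ 2 * nS E₀ (p1 L) * nS E₀ (p2 L))⁻¹ * ∑ᶠ w ∈ QL E₀ L,
        D.D (p1 L) χ w.2 * starRingEnd ℂ (D.D (p2 L) χ' (w.1 w.2)) +
      (nS E₀ (p1 L) : ℂ)⁻¹ * ∑ᶠ w ∈ {w : MulAut V₀ × V₀ | w ∈ QL E₀ L ∧ Nat.card (p1 L) = ℓ ∧
          mp w.1 (p1 L) = p2 L ∧ w.2 ∈ p1 L},
        nu B χ w.2 * starRingEnd ℂ (nu B χ' (w.1 w.2)) * D.R (p1 L) χ (ac B w.1⁻¹ χ'))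

/-! ## 3. The sums `X13` -/

/-- X3C: `X13` in terms of characters.

Proof.  As `W3C` (the first part of the proof of `WTH`, `Helper79_ASO/WTH.lean`; `Helper*_ASD` for W3C) with `a`, `b` in place of `fc W₁ c`,
`fc W₂ d`: only `Cz` is used.  For `(x, y, u)` with `[x, y] = g (u h u⁻¹)`, `g ∈ C₁`, `h ∈ C₂` let `X = g⁻¹ x`, `w = y⁻¹ u`: `g = x X⁻¹`,
`h = (u⁻¹ X u)(w⁻¹ x⁻¹ w)`; the conditions are `x, X ∈ C₁`, `u q u⁻¹ = p (X^m)^(-j)`, `w q w⁻¹ = p (x^m)^i`, so (`a`, `b` class functions) `X13` is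
`(|C₁| |C₂|)⁻¹ ∑ a(x X⁻¹) b((u⁻¹ X u)(w⁻¹ x⁻¹ w))`; insert CZB (2) and take the means. -/
def X3cStmt : Prop := ∀ (ℓ : ℕ) [Fact ℓ.Prime] (M : Ideal (integralClosure ℤ ℂ)) [M.IsMaximal],
  (ℓ : integralClosure ℤ ℂ) ∈ M → ℓ ≠ 2 → ∀ (V₀ G : Type) [CommGroup V₀] [Finite V₀] [Group G]
  [Finite G] (E₀ : Subgroup (MulAut V₀)), Fq ℓ V₀ E₀ → ∀ B : Bk (FF M) V₀ G,
  Sb ℓ M E₀ B → ∀ n m : ℕ, PE ℓ n m G → ∀ (L : Set (SO.SS n V₀)) (a b : Subgroup V₀ → G → ℂ),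
  Cz B (pL L) (a (pL L)) → Cz B (qL L) (b (qL L)) →
  X13 B m a b L = ((Nat.card (B.C (pL L)) : ℂ) * Nat.card (B.C (qL L)))⁻¹ ^ 2 *
    ∑ᶠ χ ∈ Ch B (pL L), ∑ᶠ χ' ∈ Ch B (qL L), cv (a (pL L)) χ * cv (b (qL L)) χ' *
      (SL B m (Lm L) χ χ' * starRingEnd ℂ (SL B m (Lq L) χ χ'))

/-- CN3: a count for `X13`.

Proof.  `N₁ = St E₀ (pL L)`, `N₂ = St E₀ (qL L)`.  The map `(σ, y, σ', y', π, π', ρ, ρ') ↦ (X, s, s')`, `X = π⁻¹ y`, `s = (ρ' ρ)⁻¹ σ π`,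
`s' = ρ⁻¹ σ' π' π`: the conditions are `σ (p y^(-j)) = q`, `σ' (p y'^i) = q`, `y' = π'(y π(c))`, `σ y = ρ'(σ' y' ρ(d))`.  `π p = p`, `ρ q = q`.
`s X = ρ⁻¹ ρ'⁻¹ σ y = ρ⁻¹ (σ' y') d = d s'(c X)` (`σ' y' = σ' π' π (X c)`), `s (p X^(-j)) = (ρ' ρ)⁻¹ σ (p y^(-j)) = q`,
`s' (p (c X)^i) = ρ⁻¹ σ' (p (π' (π X π c))^i) = ρ⁻¹ σ'(p y'^i) = q`: so `(s, s', X)` is in the set of `N13`.  Conversely for `(s, s', X)` and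
`π, π' ∈ N₁`, `ρ, ρ' ∈ N₂` put `y = π X`, `σ = ρ' ρ s π⁻¹`, `σ' = ρ s' π⁻¹ π'⁻¹`, `y' = π'(y π(c))`: the same computations.  So the number is
`n₁² n₂² N13`. -/
def Cn3Stmt : Prop := ∀ (V₀ : Type) [CommGroup V₀] [Finite V₀] (E₀ : Subgroup (MulAut V₀)) (n : ℕ)
  (c d : V₀) (L : Set (SO.SS n V₀)),
  {w : ((MulAut V₀ × V₀) × (MulAut V₀ × V₀)) × ((St E₀ (pL L) × St E₀ (pL L)) ×
      (St E₀ (qL L) × St E₀ (qL L))) | w.1.1 ∈ QL E₀ (Lm L) ∧ w.1.2 ∈ QL E₀ (Lq L) ∧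
    w.1.2.2 = (w.2.1.2 : MulAut V₀) (w.1.1.2 * (w.2.1.1 : MulAut V₀) c) ∧
    w.1.1.1 w.1.1.2 = (w.2.2.2 : MulAut V₀) (w.1.2.1 w.1.2.2 * (w.2.2.1 : MulAut V₀) d)}.ncard =
  nS E₀ (pL L) ^ 2 * nS E₀ (qL L) ^ 2 * N13 E₀ c d L

/-- X3S: the sums over the characters for `X13`.

Proof.  `W` a subgroup, `n = nS E₀ W`.  (1) d3, d4 (`conj (conj D y') ..`): `cv (fm c) χ D(χ, y) = ux c ∑_π D(χ, y π c)` and the orthogonality.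
(2) d3 and d6; `conj (nu χ z) D(χ, x) = nu χ z⁻¹ D(χ, x) = D(χ, z⁻¹ x)` (d2, CZB (7)).  (3) the same with `conj D(χ, y) = D(χ, y⁻¹)`. -/
def X3sStmt : Prop := ∀ (ℓ : ℕ) [Fact ℓ.Prime] (M : Ideal (integralClosure ℤ ℂ)) [M.IsMaximal],
  (ℓ : integralClosure ℤ ℂ) ∈ M → ℓ ≠ 2 → ∀ (V₀ G : Type) [CommGroup V₀] [Finite V₀] [Group G]
  [Finite G] (E₀ : Subgroup (MulAut V₀)), Fq ℓ V₀ E₀ → ∀ B : Bk (FF M) V₀ G, Sb ℓ M E₀ B →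
  ∀ D : Rd V₀ G, Rs ℓ E₀ B D → ∀ W : Subgroup V₀, W ≠ ⊥ → ∀ c : V₀,
  (∀ y y' : V₀, ∑ᶠ χ ∈ Ch B W, cv (fm ℓ E₀ B D W c) χ * (D.D W χ y *
      starRingEnd ℂ (D.D W χ y')) = (ux D.U W c : ℚ) * (ℓ : ℂ) ^ 2 *
    {w : St E₀ W × St E₀ W | y' = (w.2 : MulAut V₀) (y * (w.1 : MulAut V₀) c)}.ncard) ∧
  (∀ ψ ∈ Ch B W, ∀ z ∈ W, ∀ y : V₀, ∑ᶠ χ ∈ Ch B W, cv (fm ℓ E₀ B D W c) χ *
      (D.D W χ y * (starRingEnd ℂ (nu B χ z) * D.R W χ ψ)) = 0) ∧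
  (∀ ψ ∈ Ch B W, ∀ z ∈ W, ∀ y : V₀, ∑ᶠ χ ∈ Ch B W, cv (fm ℓ E₀ B D W c) χ *
      (starRingEnd ℂ (D.D W χ y) * (nu B χ z * D.R W χ ψ)) = 0)

/-- X3R: the value of `X13` (formula (3.2)).

Proof.  `W₁ = pL L = p1 (Lm L) = p1 (Lq L)`, `W₂ = qL L`.  X3C (FMB (1)) and SLE for `Lm L`, `Lq L`:
`SL₋/(|C₁| |C₂|) = (ℓ² n₁ n₂)⁻¹ ∑_(σ, y) DD(χ, y) conj DD(χ', σ y) + n₁⁻¹ ∑_(σ, y) nu χ y conj (nu χ' (σ y)) RR(χ, σ⁻¹ χ')` (`(σ, y) ∈ QL (Lm L)`), and the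
conjugate of `SL₊` with `(σ', y') ∈ QL (Lq L)` (`RR` is real, d6).  Multiply out.
*DD DD*: X3S (1) for `χ` at `W₁` (`y, y'`) and for `χ'` at `W₂` (`DD(χ', σ' y') conj DD(χ', σ y)`: the number of the `(ρ, ρ')` with
`σ y = ρ'(σ' y' ρ(d))`): `(ℓ² n₁ n₂)⁻² ℓ⁴ ux₁(c) ux₂(d)` times the number of CN3, which is `ux₁(c) ux₂(d) N13`.
*DD RR* and *RR DD*: for fixed `χ'` the sum over `χ` is `0` (X3S (2): `cv (fm c) χ DD(χ, y) conj (nu χ y') RR(χ, σ'⁻¹ χ')`; X3S (3)).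
*RR RR*: `n₁⁻² ∑ nu χ y conj (nu χ y') conj (nu χ' (σ y)) nu χ' (σ' y') cv cv RR(χ, σ⁻¹ χ') RR(χ, σ'⁻¹ χ')` over `(σ, y)`, `(σ', y')` in the second sets (so `|W₁| = ℓ`,
`mp σ W₁ = W₂ = mp σ' W₁`, `y, y' ∈ W₁`).  The sum over `χ`: d7 with `z = y y'⁻¹`, `ψ = σ⁻¹ χ'`, `ψ' = σ'⁻¹ χ'` (symmetric): `n₁ ux₁(c) [y' = pr c y] RR(σ⁻¹ χ', σ'⁻¹ χ')`.
`RR_(W₁)(σ⁻¹ χ', σ'⁻¹ χ') = RR_(W₂)(χ', g⁻¹ χ')`, `g = σ' σ⁻¹` (e8, ACB), and the sum over `χ'` is by d8 (`z = σ' y' (σ y)⁻¹`)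
`n₂ ux₂(d) [pr_(W₂) d σ' y' = σ y] (fx_(W₂)(σ' σ⁻¹) - 1)`, `fx_(W₂)(σ' σ⁻¹) = fx_(W₁)(σ⁻¹ σ')` (fe with `σ`).  `n₂ = n₁`.  With `s = σ`, `s' = σ'`, `w.2.2 = y`
these are the terms of `M13` times `ux₁(c) ux₂(d)`. -/
def X3rStmt : Prop := ∀ (ℓ : ℕ) [Fact ℓ.Prime] (M : Ideal (integralClosure ℤ ℂ)) [M.IsMaximal],
  (ℓ : integralClosure ℤ ℂ) ∈ M → ℓ ≠ 2 → ∀ (V₀ G : Type) [CommGroup V₀] [Finite V₀] [Group G]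
  [Finite G] (E₀ : Subgroup (MulAut V₀)), Fq ℓ V₀ E₀ → ∀ B : Bk (FF M) V₀ G, Sd ℓ M E₀ B →
  ∀ D : Rd V₀ G, Rs ℓ E₀ B D → ∀ n m : ℕ, PE ℓ n m G → ∀ (c d : V₀) (L : Set (SO.SS n V₀)),
  pL L ≠ ⊥ → qL L ≠ ⊥ →
  X13 B m (fun W => fm ℓ E₀ B D W c) (fun W => fm ℓ E₀ B D W d) L =
    ((P13 ℓ E₀ D.U D.fx c d L : ℚ) : ℂ)

/-! ## 4. The sums `X12` -/

/-- X2C: `X12` in terms of `HX`.

Proof.  As `W12A` / `W2A` / `W2X` (`Helper63_ASO/W12A.lean`, squad ASD), with `a`, `b` in place of `fc W₁ c`, `fc W₂ d`.  With `κ = [x, y] = g (u h u⁻¹)`,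
`g ∈ C₁`, `h ∈ C₂` and `α = (κ^m)^k i(p)` the condition `c12` for `(i, k, p, q)` is: `u i(q) u⁻¹ = i(p)`, `α x = x α`, `y⁻¹ α y = α (x^m)^i` (`κ ∈ C₁`, so `p` commutes with
`κ^m`).  (1) If exactly one of `W₁`, `W₂` is `⊥` there is no `u`.  (2) `W₁ ≠ ⊥`: `R(κ)` = the number of the `(x, y)` with `[x, y] = κ` and the conditions for
the `α`: a class function on `C₁`.  `X12 = (|C₁| |C₂|)⁻¹ ∑_u ∑_(g, h) a g b h R(g u h u⁻¹)`, and for given `u` (`u i(W₂) u⁻¹ = i(W₁)`) the inner sum is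
`∑_κ (a * (u b u⁻¹))(κ) R(κ)`; `a` is a multiple of the lift of `b W₁`, `u b u⁻¹` of the lift of `cj u (b W₂)` (`Cz`), so it is `0` unless `cj u (b W₂) = b W₁`, and
then by FUD `u ∈ t C₂`, `t ∈ T` inducing some `σ ∈ E₀` with `σ q = p` for all of `L`, and `u b u⁻¹ = ac σ b` (ACB).  Every `σ ∈ EL E₀ L` belongs to the `|C₂|`
elements of `(tt σ) C₂`, every such `u` to the `|St E₀ W₂| = n₂` elements `σ` of a coset (`W₂` is generated by the `q`), `n₂ = nS (pL L)`.  If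
`EL = ∅` both sides are `0`. -/
def X2cStmt : Prop := ∀ (ℓ : ℕ) [Fact ℓ.Prime] (M : Ideal (integralClosure ℤ ℂ)) [M.IsMaximal],
  (ℓ : integralClosure ℤ ℂ) ∈ M → ℓ ≠ 2 → ∀ (V₀ G : Type) [CommGroup V₀] [Finite V₀] [Group G]
  [Finite G] (E₀ : Subgroup (MulAut V₀)), Fq ℓ V₀ E₀ → ∀ B : Bk (FF M) V₀ G,
  Sb ℓ M E₀ B → ∀ n m : ℕ, PE ℓ n m G → ∀ (L : Set (SO.SS n V₀)) (a b : Subgroup V₀ → G → ℂ),
  (((pL L = ⊥ ∧ qL L ≠ ⊥) ∨ (pL L ≠ ⊥ ∧ qL L = ⊥)) → X12 B m a b L = 0) ∧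
  (Cz B (pL L) (a (pL L)) → Cz B (qL L) (b (qL L)) → pL L ≠ ⊥ →
    X12 B m a b L = (nS E₀ (pL L) : ℂ)⁻¹ * ∑ᶠ σ ∈ EL E₀ L,
    HX B m (pL L) (fun g => mulF (a (pL L)) (ac B σ (b (qL L))) g) L)

/-- X2R: the values of `X12`.

Proof.  X2C.  `σ ∈ EL E₀ L`: `mp σ (qL L) = pL L = W`, `n = nS E₀ W`.  FMB (4): `ac σ (fm (qL L) d) = fm W (σ d)`,
`ac σ (tk (pr d) et) = tk (σ (pr d)) (et W) = tk (pr W (σ d)) (et W)` (PRB (4)).  (1) FMB (2): `n⁻¹ ∑_σ ∑_τ (ux c ux (τ σ d)/ux (c τ σ d)) HX(fm (c τ σ d))`; for `τ ∈ St E₀ W` the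
map `σ ↦ τ σ` is a bijection of `EL E₀ L` (`τ p = p`), so this is the sum over `σ`.  (2), (3) FMB (3); `pr c pr (σ d) = pr (c σ d)`
(for (3) `mulF` is commutative on `Cz` elements: equal central characters, CZB (6)).  (4) FMB (7).  `HX` is linear in the element. -/
def X2rStmt : Prop := ∀ (ℓ : ℕ) [Fact ℓ.Prime] (M : Ideal (integralClosure ℤ ℂ)) [M.IsMaximal],
  (ℓ : integralClosure ℤ ℂ) ∈ M → ℓ ≠ 2 → ∀ (V₀ G : Type) [CommGroup V₀] [Finite V₀] [Group G]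
  [Finite G] (E₀ : Subgroup (MulAut V₀)), Fq ℓ V₀ E₀ → ∀ B : Bk (FF M) V₀ G, Sb ℓ M E₀ B →
  ∀ D : Rd V₀ G, Rs ℓ E₀ B D → ∀ n m : ℕ, PE ℓ n m G → ∀ (c d : V₀) (L : Set (SO.SS n V₀)),
  pL L ≠ ⊥ →
  X12 B m (fun W => fm ℓ E₀ B D W c) (fun W => fm ℓ E₀ B D W d) L = ∑ᶠ σ ∈ EL E₀ L,
    ((cS D.U c d σ (pL L) : ℚ) : ℂ) * HX B m (pL L) (fm ℓ E₀ B D (pL L) (c * σ d)) L ∧
  (pL L ∈ RL ℓ E₀ →
    X12 B m (fun W => tk B (pr ℓ E₀ W c) (D.et W)) (fun W => fm ℓ E₀ B D W d) L =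
      ∑ᶠ σ ∈ EL E₀ L, (ux D.U (pL L) (σ d) : ℚ) *
        HX B m (pL L) (tk B (pr ℓ E₀ (pL L) (c * σ d)) (D.et (pL L))) L ∧
    X12 B m (fun W => fm ℓ E₀ B D W c) (fun W => tk B (pr ℓ E₀ W d) (D.et W)) L =
      ∑ᶠ σ ∈ EL E₀ L, (ux D.U (pL L) c : ℚ) *
        HX B m (pL L) (tk B (pr ℓ E₀ (pL L) (c * σ d)) (D.et (pL L))) L ∧
    X12 B m (fun W => tk B (pr ℓ E₀ W c) (D.et W)) (fun W => tk B (pr ℓ E₀ W d) (D.et W)) L =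
      (nS E₀ (pL L) : ℂ)⁻¹ * ∑ᶠ σ ∈ EL E₀ L, HX B m (pL L)
        (tk B (pr ℓ E₀ (pL L) (c * σ d)) (fun g => mulF (D.et (pL L)) (D.et (pL L)) g)) L)

/-! ## 5. The sums `HX`, `HY` -/

/-- HXY: `HX` in terms of `HY`.

Proof.  (1) `HX B m (pL L) (fc B (pL L) κ) L = HK B m κ L`: `W = pL L`; the definition of `fc` and the invariance of the conditions under `C W` (the elements
`α` are conjugated; `i(p)` commutes with `C W`): `|C W|⁻¹ ∑_g fc g R(g) = |C(W ⊔ ⟨κ⟩)|⁻¹ ∑_s bh (W ⊔ ⟨κ⟩) s R(i(κ) s)`, `(i(κ) s)^m = i(κ)` (`s` regular in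
`C(W ⊔ ⟨κ⟩)`), and `aL κ L ⊔ ⟨κ⟩ = W ⊔ ⟨κ⟩`.
(2) `HK B m κ L = HY (aL κ L) (fc (aL κ L) κ) (TL κ L)`: in the same way, `A = aL κ L`, the elements `α = κ^k p ∈ A` commute with `C A`.
(3) `f` vanishes at the elements which are not regular, and outside of `C W`, `κ' ∈ W`: `g = i(κ') s`, `g^m = i(κ')`. -/
def HxyStmt : Prop := ∀ (ℓ : ℕ) [Fact ℓ.Prime] (M : Ideal (integralClosure ℤ ℂ)) [M.IsMaximal],
  (ℓ : integralClosure ℤ ℂ) ∈ M → ∀ (V₀ G : Type) [CommGroup V₀] [Finite V₀] [Group G]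
  [Finite G] (E₀ : Subgroup (MulAut V₀)), Fq ℓ V₀ E₀ → ∀ B : Bk (FF M) V₀ G, Sb ℓ M E₀ B →
  ∀ n m : ℕ, PE ℓ n m G → ∀ (L : Set (SO.SS n V₀)) (κ : V₀),
  HX B m (pL L) (fc B (pL L) κ) L = HK B m κ L ∧
  HK B m κ L = HY B m (aL κ L) (fc B (aL κ L) κ) (TL κ L) ∧
  ∀ (W : Subgroup V₀) (f : G → ℂ), κ ∈ W → (∀ g, g ∉ B.C W → f g = 0) →
    (∀ g, ¬ Reg ℓ g → f g = 0) → HX B m W (tk B κ f) L = HY B m W (tk B κ f) (TL κ L)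

/-- HYC: `HY` in terms of characters.

Proof.  As `HKC` (`Stmts4` of ASD) with `a` in place of `fc A κ`: `R(g)` is a class function on `C A`; CZB (2); replace `y` by `v y`, `v ∈ C A`, and take the
mean: `HY = |C A|⁻² ∑_χ cv a χ ∑_(x, y) χ(y x y⁻¹) χ(x⁻¹)` over the `(x, y)` with `α x = x α` (i.e. `x ∈ C A`), `y⁻¹ α y = α (x^m)^i` for all of `T` (then
`y x y⁻¹ ∈ C A`); with `u = y⁻¹`, `X = x` this is the conjugate of `SL B m (LT T) χ χ` (`χ(x⁻¹) = conj χ(x)`; in `SL` the terms with `X ∉ C A` vanish). -/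
def HycStmt : Prop := ∀ (ℓ : ℕ) [Fact ℓ.Prime] (M : Ideal (integralClosure ℤ ℂ)) [M.IsMaximal],
  (ℓ : integralClosure ℤ ℂ) ∈ M → ℓ ≠ 2 → ∀ (V₀ G : Type) [CommGroup V₀] [Finite V₀] [Group G]
  [Finite G] (E₀ : Subgroup (MulAut V₀)), Fq ℓ V₀ E₀ → ∀ B : Bk (FF M) V₀ G, Sb ℓ M E₀ B →
  ∀ n m : ℕ, PE ℓ n m G → ∀ (A : Subgroup V₀) (a : G → ℂ) (T : Set (V₀ × ℕ)), Cz B A a →
  Subgroup.closure {α | ∃ t ∈ T, t.1 = α} = A →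
  HY B m A a T = (Nat.card (B.C A) : ℂ)⁻¹ ^ 2 * ∑ᶠ χ ∈ Ch B A, cv a χ *
    starRingEnd ℂ (SL B m (LT T) χ χ)

/-- HYE: `HY` at `κ et`.

Proof.  HYC, SLE for `LT T` (`p1 = p2 = A`, `n₁ = n₂ = n`), `cv (tk κ et) χ = nu χ κ cv et χ` (CZB (3)).  The conjugate of SLE:
`SL/|C A|² = (ℓ² n²)⁻¹ ∑_((τ, y) ∈ QL) conj DD(χ, y) DD(χ, τ y) + n⁻¹ ∑ conj (nu χ y) nu χ (τ y) RR(χ, τ⁻¹ χ)`, `nu χ (τ y) conj (nu χ y) = nu χ (τ y y⁻¹)`.  `A ∈ RL`: `|A| = ℓ`. -/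
def HyeStmt : Prop := ∀ (ℓ : ℕ) [Fact ℓ.Prime] (M : Ideal (integralClosure ℤ ℂ)) [M.IsMaximal],
  (ℓ : integralClosure ℤ ℂ) ∈ M → ℓ ≠ 2 → ∀ (V₀ G : Type) [CommGroup V₀] [Finite V₀] [Group G]
  [Finite G] (E₀ : Subgroup (MulAut V₀)), Fq ℓ V₀ E₀ → ∀ B : Bk (FF M) V₀ G, Sd ℓ M E₀ B →
  ∀ D : Rd V₀ G, Rs ℓ E₀ B D → ∀ n m : ℕ, PE ℓ n m G → ∀ A ∈ RL ℓ E₀, ∀ κ ∈ A,
  ∀ T : Set (V₀ × ℕ), Subgroup.closure {α | ∃ t ∈ T, t.1 = α} = A →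
  HY B m A (tk B κ (D.et A)) T = ∑ᶠ w ∈ QL E₀ (LT T), wtE ℓ E₀ B D A κ w.1 w.2

/-- CN2: a count for `HY`.

Proof.  `N = St E₀ A`, `A` generated by the `α` of `T`.  `(τ, y, π, π')` with `τ (α y^i) = α` (for all of `T`), `y = π'(τ y π(κ))`.  Put `X = π⁻¹ τ y`,
`s = (π' π)⁻¹ τ⁻¹ π`: `s X = (π' π)⁻¹ y = π⁻¹ (τ y π κ) = X κ`, `s (α X^(-i)) = (π' π)⁻¹ τ⁻¹ (α (τ y)^(-i)) = (π' π)⁻¹ (τ⁻¹ α y^(-i)) = α`.  Conversely for `(s, X)` and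
`π, π'`: `τ = π s⁻¹ (π' π)⁻¹`, `y = τ⁻¹ π X`. -/
def Cn2Stmt : Prop := ∀ (V₀ : Type) [CommGroup V₀] [Finite V₀] (E₀ : Subgroup (MulAut V₀)) (n : ℕ)
  (κ : V₀) (L : Set (SO.SS n V₀)),
  {w : (MulAut V₀ × V₀) × (St E₀ (aL κ L) × St E₀ (aL κ L)) | w.1 ∈ QL E₀ (LT (TL κ L)) ∧
    w.1.2 = (w.2.2 : MulAut V₀) (w.1.1 w.1.2 * (w.2.1 : MulAut V₀) κ)}.ncard =
  nS E₀ (aL κ L) ^ 2 * N12 E₀ κ L

/-- HYF: `HY` at `fm`.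

Proof.  `A = aL κ L`, `n = nS E₀ A`, `T = TL κ L`.  HYC (FMB (1)), SLE for `LT T`, conjugated.  *DD*: `(ℓ² n²)⁻¹ ∑_(τ, y) ∑_χ cv (fm κ) χ DD(χ, τ y) conj DD(χ, y)` is by X3S (1)
`(n²)⁻¹ ux(κ)` times the number of CN2, i.e. `ux(κ) N12`.  *RR* (`|A| = ℓ`): `n⁻¹ ∑_((τ, y), mp τ A = A, y ∈ A) ∑_χ cv (fm κ) χ nu χ (τ y y⁻¹) RR(χ, τ⁻¹ χ)`, by d8
`ux(κ) ∑ [pr κ τ y = y] (fx(τ) - 1)`; with `s = τ⁻¹`, `X = τ y`: `s X = y = pr κ X`, `s (α X^(-i)) = τ⁻¹ α y^(-i) = α`, and `fx (τ⁻¹) = fx τ`: d8 for `c = 1`, `z = 1`,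
`cv (fm 1) χ = n` (FMB (6)): `∑_χ RR(χ, τ⁻¹ χ) = fx τ - 1`; `RR(χ, τ⁻¹ χ) = RR(τ⁻¹ χ, χ) = RR(χ'', τ χ'')` with `χ'' = τ⁻¹ χ` (d6; `ac τ⁻¹` is a bijection of
`Ch B A`, ACB).  So the sum is `ux(κ) M12`. -/
def HyfStmt : Prop := ∀ (ℓ : ℕ) [Fact ℓ.Prime] (M : Ideal (integralClosure ℤ ℂ)) [M.IsMaximal],
  (ℓ : integralClosure ℤ ℂ) ∈ M → ℓ ≠ 2 → ∀ (V₀ G : Type) [CommGroup V₀] [Finite V₀] [Group G]
  [Finite G] (E₀ : Subgroup (MulAut V₀)), Fq ℓ V₀ E₀ → ∀ B : Bk (FF M) V₀ G, Sd ℓ M E₀ B →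
  ∀ D : Rd V₀ G, Rs ℓ E₀ B D → ∀ n m : ℕ, PE ℓ n m G → ∀ (κ : V₀) (L : Set (SO.SS n V₀)),
  aL κ L ≠ ⊥ →
  HY B m (aL κ L) (fm ℓ E₀ B D (aL κ L) κ) (TL κ L) =
    ((ux D.U (aL κ L) κ * (N12 E₀ κ L + M12 ℓ E₀ D.fx κ L) : ℚ) : ℂ)

open Classical in
/-- HKF: the value of `HK` for `aL ≠ ⊥`.

Proof.  HXY (2), HYF; `A = aL κ L`.  `κ ∈ A`: `fm A κ = n fc A κ`.  `κ ∉ A`: `fc A κ = fm A κ + tk (pr A κ) (et A)`; for `A ∉ RL` (`nS = 1`, PRB (7)) `et A = 0`;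
otherwise HYE (`pr A κ ∈ A`, PRB (5)).  `HY` is linear in the element. -/
def HkfStmt : Prop := ∀ (ℓ : ℕ) [Fact ℓ.Prime] (M : Ideal (integralClosure ℤ ℂ)) [M.IsMaximal],
  (ℓ : integralClosure ℤ ℂ) ∈ M → ℓ ≠ 2 → ∀ (V₀ G : Type) [CommGroup V₀] [Finite V₀] [Group G]
  [Finite G] (E₀ : Subgroup (MulAut V₀)), Fq ℓ V₀ E₀ → ∀ B : Bk (FF M) V₀ G, Sd ℓ M E₀ B →
  ∀ D : Rd V₀ G, Rs ℓ E₀ B D → ∀ n m : ℕ, PE ℓ n m G → ∀ (κ : V₀) (L : Set (SO.SS n V₀)),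
  aL κ L ≠ ⊥ →
  (if κ ∈ aL κ L then (nS E₀ (aL κ L) : ℂ) else 1) * HK B m κ L =
    ((ux D.U (aL κ L) κ * (N12 E₀ κ L + M12 ℓ E₀ D.fx κ L) : ℚ) : ℂ) +
    if κ ∉ aL κ L ∧ aL κ L ∈ RL ℓ E₀ then
      ∑ᶠ w ∈ QL E₀ (LT (TL κ L)), wtE ℓ E₀ B D (aL κ L) (pr ℓ E₀ (aL κ L) κ) w.1 w.2 else 0

end Pool.Agent.PP.SE
end
end -- Pool.Agent.ASE.Stmts3

section -- Pool.Agent.Helper85_ASE.PRB

/-!
# Squad ASE, row PRB: the projections `pr`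
-/

open scoped BigOperators

noncomputable section

namespace Pool.Agent.PP.SE.H85

open Pool.Agent.PP Pool.Agent.PP.SE Pool.Agent.PP.SD

section basic

variable {ℓ : ℕ} [hℓ : Fact ℓ.Prime] {V₀ : Type} [CommGroup V₀] [Finite V₀]
  {E₀ : Subgroup (MulAut V₀)}

instance finAut : Finite (MulAut V₀) := by
  refine Finite.of_injective (fun σ : MulAut V₀ => (σ : V₀ → V₀)) ?_
  intro σ τ h
  exact MulEquiv.ext fun x => congrFun h x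

/-- the product over the stabiliser -/
def Ps (E₀ : Subgroup (MulAut V₀)) (W : Subgroup V₀) (c : V₀) : V₀ :=
  ∏ᶠ τ : St E₀ W, (τ : MulAut V₀) c

theorem nS_pos (W : Subgroup V₀) : 0 < nS E₀ W := Nat.card_pos

theorem St_le (W : Subgroup V₀) : St E₀ W ≤ E₀ := fun _ h => h.1

theorem nS_cop (hF : Fq ℓ V₀ E₀) (W : Subgroup V₀) : ¬ ℓ ∣ nS E₀ W := fun h =>
  hF.cp (h.trans (Subgroup.card_dvd_of_le (St_le W)))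

theorem pow_inv (hF : Fq ℓ V₀ E₀) (W : Subgroup V₀) (v : V₀) :
    v ^ (nS E₀ W * ((nS E₀ W : ZMod ℓ)⁻¹).val) = v := by
  have h0 : (nS E₀ W : ZMod ℓ) ≠ 0 := fun h =>
    nS_cop hF W ((ZMod.natCast_eq_zero_iff _ _).1 h)
  have h1 : ((nS E₀ W * ((nS E₀ W : ZMod ℓ)⁻¹).val : ℕ) : ZMod ℓ) = ((1 : ℕ) : ZMod ℓ) := by
    rw [Nat.cast_mul, ZMod.natCast_zmod_val, mul_inv_cancel₀ h0, Nat.cast_one]
  have h2 := (ZMod.natCast_eq_natCast_iff _ _ _).1 h1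
  have h3 : orderOf v ∣ ℓ := orderOf_dvd_of_pow_eq_one (hF.ex v)
  have h4 := (pow_eq_pow_iff_modEq (x := v)).2 (h2.of_dvd h3)
  rw [h4, pow_one]

theorem pr_eq (ℓ : ℕ) (W : Subgroup V₀) (c : V₀) :
    pr ℓ E₀ W c = Ps E₀ W c ^ ((nS E₀ W : ZMod ℓ)⁻¹).val := rfl

theorem Ps_mul (W : Subgroup V₀) (c d : V₀) : Ps E₀ W (c * d) = Ps E₀ W c * Ps E₀ W d := by
  unfold Ps
  rw [← finprod_mul_distrib (Set.toFinite _) (Set.toFinite _)]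
  exact finprod_congr fun τ => map_mul _ _ _

theorem Ps_one (W : Subgroup V₀) : Ps E₀ W 1 = 1 := by
  unfold Ps
  have h : (fun τ : St E₀ W => (τ : MulAut V₀) (1 : V₀)) = fun _ => 1 :=
    funext fun τ => map_one _
  rw [h, finprod_one]

/-- the projection as a homomorphism -/
def prH (ℓ : ℕ) (E₀ : Subgroup (MulAut V₀)) (W : Subgroup V₀) : V₀ →* V₀ where
  toFun := pr ℓ E₀ W
  map_one' := by rw [pr_eq, Ps_one, one_pow]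
  map_mul' c d := by rw [pr_eq, pr_eq, pr_eq, Ps_mul, mul_pow]

theorem Ps_fix (W : Subgroup V₀) {c : V₀} (h : ∀ τ ∈ St E₀ W, τ c = c) :
    Ps E₀ W c = c ^ nS E₀ W := by
  unfold Ps nS
  have : Fintype (St E₀ W) := Fintype.ofFinite _
  rw [finprod_eq_prod_of_fintype, Nat.card_eq_fintype_card, ← Finset.card_univ,
    ← Finset.prod_const]
  exact Finset.prod_congr rfl fun τ _ => h τ τ.2

theorem Ps_inv (W : Subgroup V₀) {τ : MulAut V₀} (hτ : τ ∈ St E₀ W) (c : V₀) :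
    Ps E₀ W (τ c) = Ps E₀ W c ∧ τ (Ps E₀ W c) = Ps E₀ W c := by
  constructor
  · unfold Ps
    exact finprod_eq_of_bijective (fun σ : St E₀ W => σ * ⟨τ, hτ⟩)
      (Group.mulRight_bijective (⟨τ, hτ⟩ : St E₀ W)) fun σ => rfl
  · unfold Ps
    have h1 : τ (∏ᶠ σ : St E₀ W, (σ : MulAut V₀) c) = ∏ᶠ σ : St E₀ W, τ ((σ : MulAut V₀) c) :=
      (τ : V₀ ≃* V₀).toMonoidHom.map_finprod_of_preimage_one (fun x hx => by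
        have : τ x = 1 := hx
        exact (MulEquiv.map_eq_one_iff τ).1 this) _
    rw [h1]
    exact finprod_eq_of_bijective (fun σ : St E₀ W => ⟨τ, hτ⟩ * σ)
      (Group.mulLeft_bijective (⟨τ, hτ⟩ : St E₀ W)) fun σ => rfl

theorem pr_inv (W : Subgroup V₀) {τ : MulAut V₀} (hτ : τ ∈ St E₀ W) (c : V₀) :
    pr ℓ E₀ W (τ c) = pr ℓ E₀ W c ∧ τ (pr ℓ E₀ W c) = pr ℓ E₀ W c := by
  rw [pr_eq, pr_eq, (Ps_inv W hτ c).1, map_pow, (Ps_inv W hτ c).2]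
  exact ⟨rfl, rfl⟩

theorem mem_mp {σ : MulAut V₀} {W : Subgroup V₀} {v : V₀} : σ v ∈ mp σ W ↔ v ∈ W := by
  constructor
  · rintro ⟨w, hw, h⟩
    have : w = v := σ.injective h
    rw [← this]
    exact hw
  · intro h
    exact ⟨v, h, rfl⟩

theorem conj_mem {σ : MulAut V₀} (hσ : σ ∈ E₀) (W : Subgroup V₀) (τ : MulAut V₀) :
    σ * τ * σ⁻¹ ∈ St E₀ (mp σ W) ↔ τ ∈ St E₀ W := by
  constructor
  · rintro ⟨h1, h2⟩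
    refine ⟨?_, fun w hw => ?_⟩
    · have h3 := E₀.mul_mem (E₀.mul_mem (E₀.inv_mem hσ) h1) hσ
      have e : σ⁻¹ * (σ * τ * σ⁻¹) * σ = τ := by group
      rwa [e] at h3
    · have h3 := h2 (σ w) (mem_mp.2 hw)
      rw [MulAut.mul_apply, MulAut.mul_apply, MulAut.inv_apply_self] at h3
      exact σ.injective h3
  · rintro ⟨h1, h2⟩
    refine ⟨E₀.mul_mem (E₀.mul_mem hσ h1) (E₀.inv_mem hσ), ?_⟩
    rintro w ⟨v, hv, rfl⟩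
    show (σ * τ * σ⁻¹) (σ v) = σ v
    rw [MulAut.mul_apply, MulAut.mul_apply, MulAut.inv_apply_self, h2 v hv]

/-- the stabilisers of `W` and of its image -/
def stEq {σ : MulAut V₀} (hσ : σ ∈ E₀) (W : Subgroup V₀) : St E₀ W ≃ St E₀ (mp σ W) where
  toFun τ := ⟨σ * τ * σ⁻¹, (conj_mem hσ W τ).2 τ.2⟩
  invFun τ := ⟨σ⁻¹ * τ * σ, (conj_mem hσ W _).1 (by
    have e : σ * (σ⁻¹ * (τ : MulAut V₀) * σ) * σ⁻¹ = τ := by group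
    rw [e]
    exact τ.2)⟩
  left_inv τ := by
    apply Subtype.ext
    show σ⁻¹ * (σ * (τ : MulAut V₀) * σ⁻¹) * σ = τ
    group
  right_inv τ := by
    apply Subtype.ext
    show σ * (σ⁻¹ * (τ : MulAut V₀) * σ) * σ⁻¹ = τ
    group

theorem nS_mp {σ : MulAut V₀} (hσ : σ ∈ E₀) (W : Subgroup V₀) : nS E₀ (mp σ W) = nS E₀ W :=
  (Nat.card_congr (stEq hσ W)).symm

theorem pr_mp {σ : MulAut V₀} (hσ : σ ∈ E₀) (W : Subgroup V₀) (c : V₀) :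
    pr ℓ E₀ (mp σ W) (σ c) = σ (pr ℓ E₀ W c) := by
  rw [pr_eq, pr_eq, map_pow, nS_mp hσ]
  congr 1
  unfold Ps
  have h1 : σ (∏ᶠ τ : St E₀ W, (τ : MulAut V₀) c) = ∏ᶠ τ : St E₀ W, σ ((τ : MulAut V₀) c) :=
    (σ : V₀ ≃* V₀).toMonoidHom.map_finprod_of_preimage_one (fun x hx => by
      have : σ x = 1 := hx
      exact (MulEquiv.map_eq_one_iff σ).1 this) _
  rw [h1]
  refine (finprod_eq_of_bijective (stEq hσ W) (stEq hσ W).bijective fun τ => ?_).symm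
  show σ ((τ : MulAut V₀) c) = (σ * (τ : MulAut V₀) * σ⁻¹) (σ c)
  rw [MulAut.mul_apply, MulAut.mul_apply, MulAut.inv_apply_self]

/-- the fixed points of a set of automorphisms -/
def Fx (S : Subgroup (MulAut V₀)) : Subgroup V₀ where
  carrier := {v | ∀ τ ∈ S, τ v = v}
  one_mem' := fun _ _ => map_one _
  mul_mem' := fun {a b} ha hb τ hτ => by rw [map_mul, ha τ hτ, hb τ hτ]
  inv_mem' := fun {a} ha τ hτ => by rw [map_inv, ha τ hτ]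

theorem card_cases (hF : Fq ℓ V₀ E₀) (W : Subgroup V₀) (h : W ≠ ⊥) :
    W = ⊤ ∨ Nat.card W = ℓ := by
  have h1 : Nat.card W ∣ ℓ ^ 2 := by
    rw [← hF.cd]
    exact Subgroup.card_subgroup_dvd_card W
  obtain ⟨k, hk, hk2⟩ := (Nat.dvd_prime_pow hℓ.out).1 h1
  interval_cases k
  · rw [pow_zero] at hk2
    exact absurd (Subgroup.card_eq_one.1 hk2) h
  · right
    rw [hk2, pow_one]
  · left
    apply Subgroup.eq_top_of_card_eq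
    rw [hk2, hF.cd]

theorem eq_of_card (hF : Fq ℓ V₀ E₀) {W F : Subgroup V₀} (hW : Nat.card W = ℓ) (hle : W ≤ F)
    (hne : F ≠ ⊤) : F = W := by
  have hb : F ≠ ⊥ := by
    rintro rfl
    have : W = ⊥ := le_bot_iff.1 hle
    rw [this, Subgroup.card_bot] at hW
    exact hℓ.out.one_lt.ne hW
  rcases card_cases hF F hb with h | h
  · exact absurd h hne
  · exact (Subgroup.eq_of_le_of_card_ge hle (by rw [h, hW])).symm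

theorem sup_top (hF : Fq ℓ V₀ E₀) {W F : Subgroup V₀} (hW : W ≠ ⊥) (hle : W ≤ F) {x : V₀}
    (hx : x ∉ W) (hxF : x ∈ F) : F = ⊤ := by
  by_contra hne
  rcases card_cases hF W hW with h | h
  · rw [h] at hx
    exact hx (Subgroup.mem_top x)
  · have := eq_of_card hF h hle hne
    rw [this] at hxF
    exact hx hxF

theorem nS_top : nS E₀ (⊤ : Subgroup V₀) = 1 := by
  unfold nS
  rw [Subgroup.card_eq_one, Subgroup.eq_bot_iff_forall]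
  intro τ hτ
  exact MulEquiv.ext fun x => hτ.2 x (Subgroup.mem_top x)

theorem nS_one {W : Subgroup V₀} (h : nS E₀ W = 1) (c : V₀) : Ps E₀ W c = c := by
  have h1 : St E₀ W = ⊥ := Subgroup.card_eq_one.1 h
  have h2 := Ps_fix (E₀ := E₀) W (c := c) (fun τ hτ => by
    rw [h1, Subgroup.mem_bot] at hτ
    rw [hτ]
    rfl)
  rw [h2, h, pow_one]

end basic

theorem prb : PrbStmt := by
  intro ℓ hℓ V₀ _ _ E₀ hF W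
  refine ⟨?_, ⟨?_, ?_, ?_⟩, ?_, ?_, ?_, ?_, ?_, ?_, ?_, ?_⟩
  · intro c hc
    rw [pr_eq, Ps_fix W (fun τ hτ => hτ.2 c hc), ← pow_mul, pow_inv hF]
  · exact map_one (prH ℓ E₀ W)
  · exact map_mul (prH ℓ E₀ W)
  · exact fun c k => map_zpow (prH ℓ E₀ W) c k
  · exact fun τ hτ c => pr_inv W hτ c
  · exact fun σ hσ => ⟨nS_mp hσ W, pr_mp hσ W⟩
  · rintro ⟨h1, h2⟩ c
    have h3 : Fx (St E₀ W) = W := by
      refine eq_of_card hF h1 (fun w hw τ hτ => hτ.2 w hw) ?_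
      intro htop
      have h4 : St E₀ W = ⊥ := by
        rw [Subgroup.eq_bot_iff_forall]
        intro τ hτ
        refine MulEquiv.ext fun x => ?_
        have hx : x ∈ Fx (St E₀ W) := by rw [htop]; exact Subgroup.mem_top x
        exact hx τ hτ
      unfold nS at h2
      rw [h4, Subgroup.card_bot] at h2
      exact lt_irrefl _ h2
    have h4 : pr ℓ E₀ W c ∈ Fx (St E₀ W) := fun τ hτ => (pr_inv W hτ c).2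
    rw [h3] at h4
    exact h4
  · intro h c
    have : Fact (1 < ℓ) := ⟨hℓ.out.one_lt⟩
    rw [pr_eq, nS_one h, h, Nat.cast_one, inv_one, ZMod.val_one, pow_one]
  · intro h
    have h1 := card_cases hF W h
    refine ⟨?_, h1⟩
    rcases h1 with h1 | h1
    · left
      rw [h1]
      exact nS_top
    · rcases Nat.lt_or_ge 1 (nS E₀ W) with h2 | h2
      · exact Or.inr ⟨h1, h2⟩
      · left
        have := nS_pos (E₀ := E₀) W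
        omega
  · exact ⟨nS_top, nS_pos W, nS_cop hF W⟩
  · intro hW x hx
    refine ⟨sup_top hF hW le_sup_left hx (le_sup_right (a := W) (Subgroup.mem_zpowers x)), ?_⟩
    intro τ hτ hτx
    have h1 : Fx (Subgroup.zpowers τ) = ⊤ := by
      refine sup_top hF hW ?_ hx ?_
      · intro w hw σ hσ
        have : σ ∈ St E₀ W := (Subgroup.zpowers_le.2 hτ) hσ
        exact this.2 w hw
      · intro σ hσ
        have hle : Subgroup.zpowers τ ≤ St (⊤ : Subgroup (MulAut V₀)) (Subgroup.zpowers x) := by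
          rw [Subgroup.zpowers_le]
          refine ⟨Subgroup.mem_top _, ?_⟩
          rintro w ⟨k, rfl⟩
          show τ (x ^ k) = x ^ k
          rw [map_zpow, hτx]
        exact (hle hσ).2 x (Subgroup.mem_zpowers x)
    refine MulEquiv.ext fun v => ?_
    have hv : v ∈ Fx (Subgroup.zpowers τ) := by rw [h1]; exact Subgroup.mem_top v
    exact hv τ (Subgroup.mem_zpowers τ)
  · intro v
    show Ps E₀ W v = _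
    rw [pr_eq, ← pow_mul, mul_comm, pow_inv hF]

end Pool.Agent.PP.SE.H85
end
end -- Pool.Agent.Helper85_ASE.PRB

section -- Pool.Agent.Helper9_ASE.MPB

/-!
# Squad ASE, row MPB (helper9): images of subgroups
-/

namespace Pool.Agent.PP.SE.H9

open Pool.Agent.PP.SE

theorem mem_mp {V₀ : Type} [CommGroup V₀] (σ : MulAut V₀) (W : Subgroup V₀) (v : V₀) :
    v ∈ mp σ W ↔ σ⁻¹ v ∈ W := by
  unfold mp
  rw [Subgroup.mem_map]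
  constructor
  · rintro ⟨x, hx, rfl⟩
    have : σ⁻¹ (σ x) = x := MulAut.inv_apply_self V₀ σ x
    show σ⁻¹ (σ x) ∈ W
    rwa [this]
  · intro h
    exact ⟨σ⁻¹ v, h, MulAut.apply_inv_self V₀ σ v⟩

theorem mpb : MpbStmt := by
  intro V₀ _ _ σ τ W W'
  have h1 : mp 1 W = W := by
    ext v
    rw [mem_mp]
    simp
  have h2 : ∀ (σ τ : MulAut V₀) (W : Subgroup V₀), mp (σ * τ) W = mp σ (mp τ W) := by
    intro σ τ W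
    ext v
    rw [mem_mp, mem_mp, mem_mp, mul_inv_rev, MulAut.mul_apply]
  refine ⟨h1, h2 σ τ W, ?_, fun v => mem_mp σ W v, fun v => ?_, fun v => ?_, ?_, ?_, ?_, ?_, ?_⟩
  · exact Nat.card_congr (Subgroup.equivMapOfInjective W _ (σ : V₀ ≃* V₀).injective).symm.toEquiv
  · rw [mem_mp, MulAut.inv_apply_self]
  · exact MonoidHom.map_zpowers _ v
  · exact Subgroup.map_sup _ _ _
  · exact Subgroup.map_top_of_surjective _ (σ : V₀ ≃* V₀).surjective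
  · exact Subgroup.map_bot _
  · constructor
    · rintro rfl
      rw [← h2, inv_mul_cancel]
      ext v
      rw [mem_mp]
      simp
    · rintro rfl
      rw [← h2, mul_inv_cancel]
      ext v
      rw [mem_mp]
      simp
  · intro h
    exact Subgroup.map_mono h

end Pool.Agent.PP.SE.H9
end -- Pool.Agent.Helper9_ASE.MPB

section -- Pool.Agent.Helper20_ASE.HKF

/-!
# Squad ASE, row HKF: the value of `HK` for `aL ≠ ⊥`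
-/

set_option autoImplicit false

open scoped BigOperators

noncomputable section

namespace Pool.Agent.PP.SE.H20

open Pool.Agent.Helper51_AWC Pool.Agent.Helper79_WRA Pool.Agent.PP Pool.Agent.PP.KF
open Pool.Agent.PP.K9 Pool.Agent.PP.K9.H97 Pool.Agent.PP.H75 Pool.Agent.PP.T3 Pool.Agent.PP.SO
open Pool.Agent.PP.SD Pool.Agent.PP.SE

attribute [local instance] Ideal.Quotient.field

section lin

variable {V₀ G : Type} [CommGroup V₀] [Group G] [Finite G] {M : Ideal (integralClosure ℤ ℂ)}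
  [M.IsMaximal]

theorem HY_add (B : Bk (FF M) V₀ G) (m : ℕ) (A : Subgroup V₀) (a b : G → ℂ)
    (T : Set (V₀ × ℕ)) : HY B m A (fun g => a g + b g) T = HY B m A a T + HY B m A b T := by
  have := Fintype.ofFinite G
  unfold HY
  simp only [finsum_eq_sum_of_fintype, add_mul, Finset.sum_add_distrib, mul_add]

theorem HY_smul (B : Bk (FF M) V₀ G) (m : ℕ) (A : Subgroup V₀) (z : ℂ) (a : G → ℂ)
    (T : Set (V₀ × ℕ)) : HY B m A (fun g => z * a g) T = z * HY B m A a T := by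
  have := Fintype.ofFinite G
  unfold HY
  simp only [finsum_eq_sum_of_fintype, mul_assoc, ← Finset.mul_sum]
  ring

theorem HY_zero (B : Bk (FF M) V₀ G) (m : ℕ) (A : Subgroup V₀)
    (T : Set (V₀ × ℕ)) : HY B m A (fun _ => 0) T = 0 := by
  have := Fintype.ofFinite G
  unfold HY
  simp only [finsum_eq_sum_of_fintype, zero_mul, Finset.sum_const_zero, mul_zero]

end lin

theorem closure_TL {V₀ : Type} [CommGroup V₀] {n : ℕ} (κ : V₀) (L : Set (SO.SS n V₀)) :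
    Subgroup.closure {α | ∃ t ∈ TL κ L, t.1 = α} = aL κ L := by
  unfold aL
  congr 1
  ext α
  constructor
  · rintro ⟨t, ⟨s, hs, rfl⟩, rfl⟩
    exact ⟨s, hs, rfl⟩
  · rintro ⟨s, hs, rfl⟩
    exact ⟨_, ⟨s, hs, rfl⟩, rfl⟩

open Classical in
theorem hkf (hHXY : HxyStmt) (hHYF : HyfStmt) (hHYE : HyeStmt) (hPRB : PrbStmt) : HkfStmt := by
  intro ℓ _ M _ hM hl2 V₀ G _ _ _ _ E₀ hFq B hB D hD n m hPE κ L hA
  have hSb : Sb ℓ M E₀ B := hB.toSb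
  obtain ⟨-, h2, -⟩ := hHXY ℓ M hM V₀ G E₀ hFq B hSb n m hPE L κ
  have hF := hHYF ℓ M hM hl2 V₀ G E₀ hFq B hB D hD n m hPE κ L hA
  obtain ⟨p1, p2, p3, p4, p5, p6, p7, p8, p9, p10⟩ := hPRB ℓ V₀ E₀ hFq (aL κ L)
  rw [h2, ← hF]
  by_cases hk : κ ∈ aL κ L
  · rw [if_pos hk, if_neg (fun h => h.1 hk), add_zero]
    have e1 : (fm ℓ E₀ B D (aL κ L) κ) = fun g => (nS E₀ (aL κ L) : ℂ) * fc B (aL κ L) κ g := by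
      funext g
      unfold fm
      rw [if_pos hk, if_pos hk, sub_zero]
    rw [e1, HY_smul]
  · rw [if_neg hk, one_mul]
    have e1 : fc B (aL κ L) κ = fun g => fm ℓ E₀ B D (aL κ L) κ g +
        tk B (pr ℓ E₀ (aL κ L) κ) (D.et (aL κ L)) g := by
      funext g
      unfold fm
      rw [if_neg hk, if_neg hk, one_mul, sub_add_cancel]
    rw [e1, HY_add]
    congr 1
    by_cases hR : aL κ L ∈ RL ℓ E₀
    · rw [if_pos ⟨hk, hR⟩]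
      exact hHYE ℓ M hM hl2 V₀ G E₀ hFq B hB D hD n m hPE (aL κ L) hR _ (p5 hR κ) (TL κ L)
        (closure_TL κ L)
    · rw [if_neg (fun h => hR h.2)]
      have hn : nS E₀ (aL κ L) = 1 := ((p7 hA).1).resolve_right hR
      have h0 := (hD.f1 (aL κ L) hA hn).1
      have e2 : tk B (pr ℓ E₀ (aL κ L) κ) (D.et (aL κ L)) = fun _ => 0 := by
        funext g
        unfold tk
        rw [h0]
        rfl
      rw [e2, HY_zero]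

end Pool.Agent.PP.SE.H20
end
end -- Pool.Agent.Helper20_ASE.HKF

section -- Pool.Agent.Helper44_ASE.FMB

/-!
# Squad ASE, row FMB (helper44): the elements `fm`
-/

open scoped BigOperators

noncomputable section

namespace Pool.Agent.PP.SE.H44

open Pool.Agent.Helper51_AWC Pool.Agent.Helper79_WRA Pool.Agent.PP Pool.Agent.PP.KF
open Pool.Agent.PP.K9 Pool.Agent.PP.K9.H97 Pool.Agent.PP.H75 Pool.Agent.PP.T3 Pool.Agent.PP.SO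
open Pool.Agent.PP.SD

attribute [local instance] Ideal.Quotient.field

theorem one_add_ne {ℓ : ℕ} [hp : Fact ℓ.Prime] {q : ℚ} (hq : q ∈ SOR.Rl ℓ) :
    (1 : ℚ) + ℓ * q ≠ 0 := by
  intro h
  have hl : (ℓ : ℚ) ≠ 0 := Nat.cast_ne_zero.2 hp.out.ne_zero
  have h1 : q = -(ℓ : ℚ)⁻¹ := by
    field_simp
    linarith
  have h2 : ¬ ℓ ∣ q.den := hq
  rw [h1, Rat.neg_den, Rat.inv_natCast_den_of_pos hp.out.pos] at h2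
  exact h2 dvd_rfl

section basic

variable {V₀ : Type} [CommGroup V₀]

theorem ux_ne {ℓ : ℕ} [Fact ℓ.Prime] {U : Subgroup V₀ → ℚ} {W : Subgroup V₀}
    (h : ∃ q ∈ SOR.Rl ℓ, U W = 1 + ℓ * q) (c : V₀) : ux U W c ≠ 0 := by
  unfold ux
  split_ifs
  · exact one_ne_zero
  · obtain ⟨q, hq, h1⟩ := h
    rw [h1]
    exact one_add_ne hq

theorem ux_mem {U : Subgroup V₀ → ℚ} {W : Subgroup V₀} {c : V₀} (h : c ∈ W) : ux U W c = 1 := by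
  unfold ux
  rw [if_pos h]

theorem ux_congr {U : Subgroup V₀ → ℚ} {W : Subgroup V₀} {c c' : V₀} (h : c ∈ W ↔ c' ∈ W) :
    ux U W c = ux U W c' := by
  unfold ux
  by_cases hc : c ∈ W
  · rw [if_pos hc, if_pos (h.1 hc)]
  · rw [if_neg hc, if_neg fun h' => hc (h.2 h')]

theorem st_mem {E₀ : Subgroup (MulAut V₀)} {W : Subgroup V₀} {τ : MulAut V₀} (hτ : τ ∈ St E₀ W)
    (c : V₀) : τ c ∈ W ↔ c ∈ W := by
  have h1 : ∀ w ∈ W, τ w = w := hτ.2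
  refine ⟨fun h => ?_, fun h => by rw [h1 c h]; exact h⟩
  have h2 : τ (τ c) = τ c := h1 _ h
  have h3 : τ c = c := τ.injective h2
  rw [← h3]
  exact h

theorem mp_mem (σ : MulAut V₀) (W : Subgroup V₀) (c : V₀) : σ c ∈ mp σ W ↔ c ∈ W := by
  unfold mp
  constructor
  · rintro ⟨w, hw, h⟩
    have : w = c := σ.injective h
    rw [← this]
    exact hw
  · intro h
    exact ⟨c, h, rfl⟩

end basic

section blk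

variable {V₀ G : Type} [CommGroup V₀] [Group G] {M : Ideal (integralClosure ℤ ℂ)} [M.IsMaximal]

theorem fm_mem {ℓ : ℕ} {E₀ : Subgroup (MulAut V₀)} {B : Bk (FF M) V₀ G} {D : Rd V₀ G}
    {W : Subgroup V₀} {c : V₀} (h : c ∈ W) :
    fm ℓ E₀ B D W c = fun g => (nS E₀ W : ℂ) * fc B W c g := by
  funext g
  unfold fm
  rw [if_pos h, if_pos h, sub_zero]

theorem fm_not {ℓ : ℕ} {E₀ : Subgroup (MulAut V₀)} {B : Bk (FF M) V₀ G} {D : Rd V₀ G}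
    {W : Subgroup V₀} {c : V₀} (h : c ∉ W) :
    fm ℓ E₀ B D W c = fun g => fc B W c g - tk B (pr ℓ E₀ W c) (D.et W) g := by
  funext g
  unfold fm
  rw [if_neg h, if_neg h, one_mul]

theorem cv_zero (χ : G → ℂ) : cv (fun _ : G => (0 : ℂ)) χ = 0 := by
  unfold cv
  have h : ∀ g : G, (0 : ℂ) * χ g = 0 := fun g => zero_mul _
  rw [finsum_congr h, finsum_zero, zero_div]

/-- part 5 of CZB -/
def P5 (B : Bk (FF M) V₀ G) (W : Subgroup V₀) : Prop :=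
  ∀ a b, Cz B W a → Cz B W b → ∀ z z' : ℂ, Cz B W (fun g => z * a g + z' * b g) ∧
    ∀ χ, cv (fun g => z * a g + z' * b g) χ = z * cv a χ + z' * cv b χ

theorem cz_zero {B : Bk (FF M) V₀ G} {W : Subgroup V₀} (h5 : P5 B W) {a : G → ℂ} (ha : Cz B W a) :
    Cz B W (fun _ => (0 : ℂ)) := by
  have h := (h5 a a ha ha 0 0).1
  have h1 : (fun g => (0 : ℂ) * a g + 0 * a g) = fun _ => 0 := by
    funext g
    rw [zero_mul, zero_add]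
  rwa [h1] at h

theorem cz_smul {B : Bk (FF M) V₀ G} {W : Subgroup V₀} (h5 : P5 B W) {a : G → ℂ} (ha : Cz B W a)
    (z : ℂ) : Cz B W (fun g => z * a g) ∧ ∀ χ, cv (fun g => z * a g) χ = z * cv a χ := by
  obtain ⟨h, h'⟩ := h5 a a ha ha z 0
  have h1 : (fun g => z * a g + 0 * a g) = fun g => z * a g := by
    funext g
    rw [zero_mul, add_zero]
  rw [h1] at h h'
  exact ⟨h, fun χ => by rw [h' χ, zero_mul, add_zero]⟩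

theorem cz_sum {B : Bk (FF M) V₀ G} {W : Subgroup V₀} (h5 : P5 B W)
    (h0 : Cz B W (fun _ => (0 : ℂ))) {ι : Type} (s : Finset ι) (z : ι → ℂ) (a : ι → G → ℂ)
    (ha : ∀ i, Cz B W (a i)) :
    Cz B W (fun g => ∑ i ∈ s, z i * a i g) ∧
      ∀ χ, cv (fun g => ∑ i ∈ s, z i * a i g) χ = ∑ i ∈ s, z i * cv (a i) χ := by
  classical
  induction s using Finset.induction_on with
  | empty =>
    simp only [Finset.sum_empty]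
    exact ⟨h0, cv_zero⟩
  | insert i s hi ih =>
    obtain ⟨h, h'⟩ := h5 (a i) (fun g => ∑ i ∈ s, z i * a i g) (ha i) ih.1 (z i) 1
    have h1 : (fun g => z i * a i g + 1 * ∑ i ∈ s, z i * a i g) =
        fun g => ∑ i ∈ insert i s, z i * a i g := by
      funext g
      rw [Finset.sum_insert hi, one_mul]
    rw [h1] at h h'
    refine ⟨h, fun χ => ?_⟩
    rw [h' χ, ih.2 χ, one_mul, Finset.sum_insert hi]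

end blk

theorem fmb (czb : CzbStmt) (acb : AcbStmt) (prb : PrbStmt) : FmbStmt := by
  intro ℓ _ M _ hM hℓ V₀ G _ _ _ _ E₀ hF B hB D hD W hW
  obtain ⟨z1, -, z3, z4, z5, z6, z7, -⟩ := czb ℓ M hM hℓ V₀ G E₀ hF B hB W
  obtain ⟨a0, a1⟩ := acb ℓ M hM hℓ V₀ G E₀ hF B hB
  obtain ⟨-, -, -, p4, p5, -, p7, p8, -, -⟩ := prb ℓ V₀ E₀ hF W
  obtain ⟨p7, -⟩ := p7 hW
  obtain ⟨-, p8, -⟩ := p8
  have h5 : P5 B W := z5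
  have he1 : Cz B W (D.et W) := hD.e1 W hW
  have h0 : Cz B W (fun _ => (0 : ℂ)) := cz_zero h5 he1
  haveI : Finite (MulAut V₀) := inferInstance
  haveI : Fintype (St E₀ W) := Fintype.ofFinite _
  -- `tk (κ pr c) et`
  have htk : ∀ κ ∈ W, ∀ c, Cz B W (tk B (κ * pr ℓ E₀ W c) (D.et W)) ∧ ∀ χ ∈ Ch B W,
      cv (tk B (κ * pr ℓ E₀ W c) (D.et W)) χ =
        nu B χ κ * (nu B χ (pr ℓ E₀ W c) * cv (D.et W) χ) := by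
    intro κ hκ c
    rcases p7 with h | h
    · have h1 : D.et W = 0 := (hD.f1 W hW h).1
      have h2 : tk B (κ * pr ℓ E₀ W c) (D.et W) = fun _ => (0 : ℂ) := by
        rw [h1]
        rfl
      have h3 : ∀ χ, cv (D.et W) χ = 0 := by
        intro χ
        rw [h1]
        exact cv_zero χ
      rw [h2]
      refine ⟨h0, fun χ hχ => ?_⟩
      rw [cv_zero, h3, mul_zero, mul_zero]
    · obtain ⟨h1, h2⟩ := z3 (D.et W) he1 _ (W.mul_mem hκ (p5 h c))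
      refine ⟨h1, fun χ hχ => ?_⟩
      rw [h2 χ hχ, ((z7 χ hχ).2.2.1 κ hκ).2.2 _ (p5 h c), mul_assoc]
  have hfm : ∀ c, Cz B W (fm ℓ E₀ B D W c) := by
    intro c
    by_cases hc : c ∈ W
    · rw [fm_mem hc]
      exact (cz_smul h5 (z1 c) _).1
    · rw [fm_not hc]
      have h1 := (htk 1 W.one_mem c).1
      rw [one_mul] at h1
      have h2 := (h5 _ _ (z1 c) h1 1 (-1)).1
      have h3 : (fun g => (1 : ℂ) * fc B W c g + (-1) * tk B (pr ℓ E₀ W c) (D.et W) g) =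
          fun g => fc B W c g - tk B (pr ℓ E₀ W c) (D.et W) g := by
        funext g
        ring
      rwa [h3] at h2
  have hux : ∀ c, ux D.U W c ≠ 0 := ux_ne (hD.u1 W hW)
  have huτ : ∀ τ ∈ St E₀ W, ∀ c, ux D.U W (τ c) = ux D.U W c :=
    fun τ hτ c => ux_congr (st_mem hτ c)
  -- `d3` with a finite sum
  have hd3 : ∀ χ ∈ Ch B W, ∀ c x, cv (fm ℓ E₀ B D W c) χ * D.D W χ x =
      (ux D.U W c : ℚ) * ∑ τ : St E₀ W, D.D W χ (x * (τ : MulAut V₀) c) := by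
    intro χ hχ c x
    rw [hD.d3 W hW χ hχ c x, finsum_eq_sum_of_fintype]
  have hprod : ∀ c c' x, mulF (fm ℓ E₀ B D W c) (fm ℓ E₀ B D W c') x = ∑ᶠ τ : St E₀ W,
      ((ux D.U W c * ux D.U W ((τ : MulAut V₀) c') / ux D.U W (c * (τ : MulAut V₀) c') : ℚ) : ℂ) *
        fm ℓ E₀ B D W (c * (τ : MulAut V₀) c') x := by
    intro c c' x
    obtain ⟨h1, h2⟩ := z4 _ _ (hfm c) (hfm c')
    obtain ⟨h3, h4⟩ := cz_sum h5 h0 (Finset.univ : Finset (St E₀ W))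
      (fun τ => ((ux D.U W c * ux D.U W ((τ : MulAut V₀) c') /
        ux D.U W (c * (τ : MulAut V₀) c') : ℚ) : ℂ))
      (fun τ => fm ℓ E₀ B D W (c * (τ : MulAut V₀) c')) (fun τ => hfm _)
    have h6 := z6 _ _ h1 h3 (fun χ hχ => by
      rw [h2 χ hχ, h4 χ]
      have hd := (hD.d2 W hW χ hχ).1
      apply mul_right_cancel₀ hd
      have e1 : cv (fm ℓ E₀ B D W c) χ * cv (fm ℓ E₀ B D W c') χ * D.D W χ 1 =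
          (ux D.U W c : ℂ) * (ux D.U W c' : ℂ) * ∑ τ : St E₀ W, ∑ τ' : St E₀ W,
            D.D W χ (1 * (τ : MulAut V₀) c' * (τ' : MulAut V₀) c) := by
        rw [mul_assoc, hd3 χ hχ c' 1, mul_left_comm, Finset.mul_sum, Finset.mul_sum,
          Finset.mul_sum]
        refine Finset.sum_congr rfl fun τ _ => ?_
        rw [hd3 χ hχ c]
        ring
      have e2 : (∑ τ : St E₀ W, ((ux D.U W c * ux D.U W ((τ : MulAut V₀) c') /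
          ux D.U W (c * (τ : MulAut V₀) c') : ℚ) : ℂ) *
            cv (fm ℓ E₀ B D W (c * (τ : MulAut V₀) c')) χ) * D.D W χ 1 =
          (ux D.U W c : ℂ) * (ux D.U W c' : ℂ) * ∑ τ : St E₀ W, ∑ τ' : St E₀ W,
            D.D W χ (1 * (τ : MulAut V₀) c' * (τ' : MulAut V₀) c) := by
        rw [Finset.sum_mul]
        have e3 : ∀ τ : St E₀ W, ((ux D.U W c * ux D.U W ((τ : MulAut V₀) c') /
            ux D.U W (c * (τ : MulAut V₀) c') : ℚ) : ℂ) *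
            cv (fm ℓ E₀ B D W (c * (τ : MulAut V₀) c')) χ * D.D W χ 1 =
            (ux D.U W c : ℂ) * (ux D.U W c' : ℂ) * ∑ τ' : St E₀ W,
              D.D W χ (1 * ((τ' * τ : St E₀ W) : MulAut V₀) c' * (τ' : MulAut V₀) c) := by
          intro τ
          rw [mul_assoc, hd3 χ hχ, huτ τ τ.2 c']
          have hne : ((ux D.U W (c * (τ : MulAut V₀) c') : ℚ) : ℂ) ≠ 0 :=
            Rat.cast_ne_zero.2 (hux _)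
          have e4 : ∀ τ' : St E₀ W, D.D W χ (1 * (τ' : MulAut V₀) (c * (τ : MulAut V₀) c')) =
              D.D W χ (1 * ((τ' * τ : St E₀ W) : MulAut V₀) c' * (τ' : MulAut V₀) c) := by
            intro τ'
            have e5 : (τ' : MulAut V₀) (c * (τ : MulAut V₀) c') =
                ((τ' * τ : St E₀ W) : MulAut V₀) c' * (τ' : MulAut V₀) c := by
              rw [map_mul, mul_comm]
              rfl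
            rw [e5, mul_assoc]
          rw [Finset.sum_congr rfl fun τ' _ => e4 τ']
          push_cast
          field_simp
        rw [Finset.sum_congr rfl fun τ _ => e3 τ, ← Finset.mul_sum, Finset.sum_comm]
        congr 1
        rw [Finset.sum_comm (γ := St E₀ W) (f := fun τ τ' : St E₀ W =>
          D.D W χ (1 * (τ : MulAut V₀) c' * (τ' : MulAut V₀) c))]
        refine Finset.sum_congr rfl fun τ' _ => ?_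
        exact Fintype.sum_equiv (Equiv.mulLeft τ') _
          (fun τ : St E₀ W => D.D W χ (1 * (τ : MulAut V₀) c' * (τ' : MulAut V₀) c))
          (fun τ => rfl)
      rw [e1, e2])
    have h7 := congrFun h6 x
    rw [finsum_eq_sum_of_fintype]
    exact h7
  refine ⟨hfm, hprod, ?_, ?_, ?_, ?_, ?_, hux, huτ, ?_⟩
  · intro κ hκ
    obtain ⟨h1, h2⟩ := z3 _ he1 κ hκ
    refine ⟨h1, fun c x => ?_⟩
    obtain ⟨h3, h4⟩ := z4 _ _ h1 (hfm c)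
    obtain ⟨h6, h7⟩ := htk κ hκ c
    obtain ⟨h8, h9⟩ := cz_smul h5 h6 ((nS E₀ W : ℂ) * (ux D.U W c : ℚ))
    have h10 := z6 _ _ h3 h8 (fun χ hχ => by
      rw [h4 χ hχ, h9 χ, h7 χ hχ, h2 χ hχ]
      by_cases hc : cv (D.et W) χ = 0
      · rw [hc]
        ring
      · rw [hD.e3 W hW χ hχ hc c]
        ring)
    exact congrFun h10 x
  · intro σ hσ
    obtain ⟨p41, p42⟩ := p4 σ hσ
    obtain ⟨-, -, -, -, b5, -, -, b8⟩ := a1 W σ hσ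
    obtain ⟨t1, t2⟩ := a0 σ hσ
    have het : ac B σ (D.et W) = D.et (mp σ W) := by
      funext x
      have h := (hD.e8 W hW σ hσ (tt B σ) t1 t2).1 ((tt B σ)⁻¹ * x * tt B σ)
      have h' : tt B σ * ((tt B σ)⁻¹ * x * tt B σ) * (tt B σ)⁻¹ = x := by group
      rw [h'] at h
      exact h.symm
    have hk : ∀ κ, ac B σ (tk B κ (D.et W)) = tk B (σ κ) (D.et (mp σ W)) := by
      intro κ
      rw [b8 κ _ he1, het]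
    refine ⟨fun c => ?_, fun κ _ => hk κ⟩
    by_cases hc : c ∈ W
    · rw [fm_mem hc, fm_mem ((mp_mem σ W c).2 hc), ← b5 c, p41]
      rfl
    · rw [fm_not hc, fm_not (fun h => hc ((mp_mem σ W c).1 h)), ← b5 c, p42, ← hk]
      rfl
  · intro χ hχ c
    obtain ⟨d1, d2, -⟩ := hD.d2 W hW χ hχ
    apply mul_right_cancel₀ d1
    have h1 : starRingEnd ℂ (D.D W χ 1) = D.D W χ 1 := by
      rw [d2, inv_one]
    have h2 : starRingEnd ℂ (cv (fm ℓ E₀ B D W c) χ) * D.D W χ 1 =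
        starRingEnd ℂ (cv (fm ℓ E₀ B D W c) χ * D.D W χ 1) := by
      rw [map_mul, h1]
    have h3 : ux D.U W c⁻¹ = ux D.U W c := ux_congr W.inv_mem_iff
    rw [h2, hd3 χ hχ, hd3 χ hχ, map_mul, map_sum, h3, map_ratCast]
    congr 1
    refine Finset.sum_congr rfl fun τ _ => ?_
    rw [d2, map_inv, one_mul, one_mul]
  · intro χ hχ
    obtain ⟨d1, -, -⟩ := hD.d2 W hW χ hχ
    apply mul_right_cancel₀ d1
    rw [hd3 χ hχ, ux_mem W.one_mem]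
    have h1 : ∀ τ : St E₀ W, D.D W χ (1 * (τ : MulAut V₀) 1) = D.D W χ 1 := by
      intro τ
      rw [map_one, one_mul]
    rw [Finset.sum_congr rfl fun τ _ => h1 τ, Finset.sum_const, Finset.card_univ, nsmul_eq_mul,
      Rat.cast_one, one_mul, ← Nat.card_eq_fintype_card]
    rfl
  · intro κ hκ κ' hκ' x
    obtain ⟨h1, h2⟩ := z3 _ he1 κ hκ
    obtain ⟨h3, h4⟩ := z3 _ he1 κ' hκ'
    obtain ⟨h6, h7⟩ := z4 _ _ h1 h3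
    obtain ⟨h8, h9⟩ := z4 _ _ he1 he1
    obtain ⟨h10, h11⟩ := z3 _ h8 (κ * κ') (W.mul_mem hκ hκ')
    have h12 := z6 _ _ h6 h10 (fun χ hχ => by
      rw [h7 χ hχ, h2 χ hχ, h4 χ hχ, h11 χ hχ, h9 χ hχ,
        ((z7 χ hχ).2.2.1 κ hκ).2.2 κ' hκ']
      ring)
    exact congrFun h12 x
  · intro σ hσ c
    unfold ux
    by_cases hc : c ∈ W
    · rw [if_pos hc, if_pos ((mp_mem σ W c).2 hc)]
    · rw [if_neg hc, if_neg (fun h => hc ((mp_mem σ W c).1 h)), hD.ue W hW σ hσ]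

end Pool.Agent.PP.SE.H44
end
end -- Pool.Agent.Helper44_ASE.FMB

section -- Pool.Agent.Helper79_ASE.X3S

/-!
# Squad ASE, row X3S: the sums over the characters for `X13`
-/

open scoped BigOperators

noncomputable section

namespace Pool.Agent.PP.SE.H79

open Pool.Agent.Helper51_AWC Pool.Agent.Helper79_WRA Pool.Agent.PP Pool.Agent.PP.KF
open Pool.Agent.PP.K9 Pool.Agent.PP.K9.H97 Pool.Agent.PP.H75 Pool.Agent.PP.T3 Pool.Agent.PP.SO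
open Pool.Agent.PP.SD Pool.Agent.PP.SE

attribute [local instance] Ideal.Quotient.field

open Classical in
theorem x3s (hCz : CzbStmt) : X3sStmt := by
  intro ℓ _ M _ hM h2 V₀ G _ _ _ _ E₀ hF B hB D hD W hW c
  have hc := hCz ℓ M hM h2 V₀ G E₀ hF B hB W
  obtain ⟨-, -, -, -, -, -, hnu, hfin⟩ := hc
  have d2 := hD.d2 W hW
  have d3 := hD.d3 W hW
  have d4 := hD.d4 W hW
  have d6 := hD.d6 W hW
  haveI : Fintype (MulAut V₀) := Fintype.ofFinite _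
  haveI : Fintype (St E₀ W) := Fintype.ofFinite _
  set S : Finset (G → ℂ) := hfin.toFinset with hS
  have hSm : ∀ χ, χ ∈ S ↔ χ ∈ Ch B W := fun χ => hfin.mem_toFinset
  have hconv : ∀ f : (G → ℂ) → ℂ, ∑ᶠ χ ∈ Ch B W, f χ = ∑ χ ∈ S, f χ := fun f =>
    finsum_mem_eq_finite_toFinset_sum f hfin
  -- the key rewriting
  have key : ∀ (g : (G → ℂ) → ℂ) (x : V₀),
      ∑ χ ∈ S, cv (fm ℓ E₀ B D W c) χ * (D.D W χ x * g χ) =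
        ((ux D.U W c : ℚ) : ℂ) * ∑ τ : St E₀ W, ∑ χ ∈ S,
          D.D W χ (x * (τ : MulAut V₀) c) * g χ := by
    intro g x
    have h1 : ∀ χ ∈ S, cv (fm ℓ E₀ B D W c) χ * (D.D W χ x * g χ) =
        ((ux D.U W c : ℚ) : ℂ) * ∑ τ : St E₀ W, D.D W χ (x * (τ : MulAut V₀) c) * g χ := by
      intro χ hχ
      have := d3 χ ((hSm χ).1 hχ) c x
      rw [← mul_assoc, this, finsum_eq_sum_of_fintype, mul_assoc, Finset.sum_mul]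
    rw [Finset.sum_congr rfl h1, ← Finset.mul_sum, Finset.sum_comm]
  refine ⟨?_, ?_, ?_⟩
  · intro y y'
    rw [hconv, key (fun χ => starRingEnd ℂ (D.D W χ y')) y]
    have h2' : ∀ τ : St E₀ W, ∑ χ ∈ S, D.D W χ (y * (τ : MulAut V₀) c) *
        starRingEnd ℂ (D.D W χ y') = (ℓ : ℂ) ^ 2 *
          ({τ' : St E₀ W | y' = (τ' : MulAut V₀) (y * (τ : MulAut V₀) c)}.ncard : ℂ) := by
      intro τ
      rw [← hconv (fun χ => D.D W χ (y * (τ : MulAut V₀) c) * starRingEnd ℂ (D.D W χ y')), d4]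
      have hcard : {τ' : MulAut V₀ | τ' ∈ St E₀ W ∧ τ' (y * (τ : MulAut V₀) c) = y'}.ncard =
          {τ' : St E₀ W | y' = (τ' : MulAut V₀) (y * (τ : MulAut V₀) c)}.ncard := by
        rw [← Set.ncard_image_of_injective
          {τ' : St E₀ W | y' = (τ' : MulAut V₀) (y * (τ : MulAut V₀) c)} Subtype.val_injective]
        apply congrArg Set.ncard
        ext τ'
        constructor
        · rintro ⟨ha, hb⟩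
          exact ⟨⟨τ', ha⟩, hb.symm, rfl⟩
        · rintro ⟨τ'', hb, rfl⟩
          exact ⟨τ''.2, (show y' = (τ'' : MulAut V₀) (y * (τ : MulAut V₀) c) from hb).symm⟩
      rw [hcard]
    rw [Finset.sum_congr rfl (fun τ _ => h2' τ), ← Finset.mul_sum, ← mul_assoc]
    congr 1
    -- count the pairs
    have hcnt : {w : St E₀ W × St E₀ W |
        y' = (w.2 : MulAut V₀) (y * (w.1 : MulAut V₀) c)}.ncard =
        ∑ τ : St E₀ W, {τ' : St E₀ W | y' = (τ' : MulAut V₀) (y * (τ : MulAut V₀) c)}.ncard := by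
      have e : ({w : St E₀ W × St E₀ W | y' = (w.2 : MulAut V₀) (y * (w.1 : MulAut V₀) c)} :
          Set (St E₀ W × St E₀ W)) = ((Finset.univ.filter (fun w : St E₀ W × St E₀ W =>
            y' = (w.2 : MulAut V₀) (y * (w.1 : MulAut V₀) c)) : Finset (St E₀ W × St E₀ W)) :
              Set (St E₀ W × St E₀ W)) := by
        ext w; simp
      rw [e, Set.ncard_coe_finset, Finset.card_filter, Fintype.sum_prod_type]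
      refine Finset.sum_congr rfl fun τ _ => ?_
      have e' : ({τ' : St E₀ W | y' = (τ' : MulAut V₀) (y * (τ : MulAut V₀) c)} :
          Set (St E₀ W)) = ((Finset.univ.filter (fun τ' : St E₀ W =>
            y' = (τ' : MulAut V₀) (y * (τ : MulAut V₀) c)) : Finset (St E₀ W)) :
              Set (St E₀ W)) := by
        ext w; simp
      rw [e', Set.ncard_coe_finset, Finset.card_filter]
    rw [hcnt, Nat.cast_sum]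
  · intro ψ hψ z hz y
    rw [hconv, key (fun χ => starRingEnd ℂ (nu B χ z) * D.R W χ ψ) y]
    have h0 : ∀ τ : St E₀ W, ∑ χ ∈ S, D.D W χ (y * (τ : MulAut V₀) c) *
        (starRingEnd ℂ (nu B χ z) * D.R W χ ψ) = 0 := by
      intro τ
      have h1 : ∀ χ ∈ S, D.D W χ (y * (τ : MulAut V₀) c) *
          (starRingEnd ℂ (nu B χ z) * D.R W χ ψ) =
            D.D W χ (z⁻¹ * (y * (τ : MulAut V₀) c)) * D.R W χ ψ := by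
        intro χ hχ
        have hχ' := (hSm χ).1 hχ
        rw [((hnu χ hχ').2.2.1 z hz).1, (d2 χ hχ').2.2 z⁻¹ (W.inv_mem hz)]
        ring
      rw [Finset.sum_congr rfl h1, ← hconv (fun χ =>
        D.D W χ (z⁻¹ * (y * (τ : MulAut V₀) c)) * D.R W χ ψ)]
      exact (d6 ψ hψ).1 _
    rw [Finset.sum_eq_zero (fun τ _ => h0 τ), mul_zero]
  · intro ψ hψ z hz y
    have hrw : ∀ χ ∈ S, cv (fm ℓ E₀ B D W c) χ *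
        (starRingEnd ℂ (D.D W χ y) * (nu B χ z * D.R W χ ψ)) =
        cv (fm ℓ E₀ B D W c) χ * (D.D W χ y⁻¹ * (nu B χ z * D.R W χ ψ)) := by
      intro χ hχ
      rw [(d2 χ ((hSm χ).1 hχ)).2.1 y]
    rw [hconv, Finset.sum_congr rfl hrw, key (fun χ => nu B χ z * D.R W χ ψ) y⁻¹]
    have h0 : ∀ τ : St E₀ W, ∑ χ ∈ S, D.D W χ (y⁻¹ * (τ : MulAut V₀) c) *
        (nu B χ z * D.R W χ ψ) = 0 := by
      intro τ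
      have h1 : ∀ χ ∈ S, D.D W χ (y⁻¹ * (τ : MulAut V₀) c) *
          (nu B χ z * D.R W χ ψ) =
            D.D W χ (z * (y⁻¹ * (τ : MulAut V₀) c)) * D.R W χ ψ := by
        intro χ hχ
        have hχ' := (hSm χ).1 hχ
        rw [(d2 χ hχ').2.2 z hz]
        ring
      rw [Finset.sum_congr rfl h1, ← hconv (fun χ =>
        D.D W χ (z * (y⁻¹ * (τ : MulAut V₀) c)) * D.R W χ ψ)]
      exact (d6 ψ hψ).1 _
    rw [Finset.sum_eq_zero (fun τ _ => h0 τ), mul_zero]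

end Pool.Agent.PP.SE.H79
end
end -- Pool.Agent.Helper79_ASE.X3S

section -- Pool.Agent.Helper94_ASE.CN2

/-!
# ASE row CN2: a count for `HY`
-/

namespace Pool.Agent.PP.SE.H94

open Pool.Agent.PP.SE Pool.Agent.PP.SD

theorem cn2 : Cn2Stmt := by
  intro V₀ _ _ E₀ n κ L
  set A := SO.aL κ L with hA
  have hαA : ∀ s ∈ L, κ ^ (s.2.1 : ℕ) * s.2.2.1 ∈ A := fun s hs =>
    Subgroup.subset_closure ⟨s, hs, rfl⟩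
  have hfix : ∀ π ∈ St E₀ A, ∀ s ∈ L, π (κ ^ (s.2.1 : ℕ) * s.2.2.1) = κ ^ (s.2.1 : ℕ) * s.2.2.1 :=
    fun π hπ s hs => hπ.2 _ (hαA s hs)
  have hfix' : ∀ π ∈ St E₀ A, ∀ s ∈ L,
      π⁻¹ (κ ^ (s.2.1 : ℕ) * s.2.2.1) = κ ^ (s.2.1 : ℕ) * s.2.2.1 :=
    fun π hπ s hs => ((St E₀ A).inv_mem hπ).2 _ (hαA s hs)
  have hQ : ∀ (τ : MulAut V₀) (y : V₀), (τ, y) ∈ QL E₀ (LT (TL κ L)) ↔
      τ ∈ E₀ ∧ ∀ s ∈ L, τ ((κ ^ (s.2.1 : ℕ) * s.2.2.1) * y ^ (s.1 : ℕ)) =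
        κ ^ (s.2.1 : ℕ) * s.2.2.1 := by
    intro τ y
    constructor
    · rintro ⟨h1, h2⟩
      refine ⟨h1, fun s hs => ?_⟩
      have := h2 (κ ^ (s.2.1 : ℕ) * s.2.2.1, κ ^ (s.2.1 : ℕ) * s.2.2.1, ((s.1 : ℕ) : ℤ))
        ⟨(κ ^ (s.2.1 : ℕ) * s.2.2.1, (s.1 : ℕ)), ⟨s, hs, rfl⟩, rfl⟩
      simpa using this
    · rintro ⟨h1, h2⟩
      refine ⟨h1, ?_⟩
      rintro _ ⟨_, ⟨s, hs, rfl⟩, rfl⟩
      simpa using h2 s hs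
  unfold SO.N12 nS
  rw [← Nat.card_coe_set_eq, ← Nat.card_coe_set_eq, pow_two, ← Nat.card_prod,
    ← Nat.card_prod]
  refine Nat.card_congr
    { toFun := fun w => ((w.1.2.1, w.1.2.2),
        ⟨(⟨((w.1.2.2 : MulAut V₀) * (w.1.2.1 : MulAut V₀))⁻¹ * (w.1.1.1)⁻¹ *
            (w.1.2.1 : MulAut V₀), ?_⟩, (w.1.2.1 : MulAut V₀)⁻¹ (w.1.1.1 w.1.1.2)), ?_⟩)
      invFun := fun z => ⟨(((z.1.1 : MulAut V₀) * (z.2.1.1 : MulAut V₀)⁻¹ *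
          ((z.1.2 : MulAut V₀) * (z.1.1 : MulAut V₀))⁻¹,
        ((z.1.1 : MulAut V₀) * (z.2.1.1 : MulAut V₀)⁻¹ *
          ((z.1.2 : MulAut V₀) * (z.1.1 : MulAut V₀))⁻¹)⁻¹ ((z.1.1 : MulAut V₀) z.2.1.2)),
        (z.1.1, z.1.2)), ?_⟩
      left_inv := ?_
      right_inv := ?_ }
  · obtain ⟨⟨⟨τ, y⟩, ⟨π, hπ⟩, ⟨π', hπ'⟩⟩, h1, h2⟩ := w
    obtain ⟨h1, -⟩ := (hQ τ y).1 h1
    exact E₀.mul_mem (E₀.mul_mem (E₀.inv_mem (E₀.mul_mem hπ'.1 hπ.1)) (E₀.inv_mem h1)) hπ.1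
  · obtain ⟨⟨⟨τ, y⟩, ⟨π, hπ⟩, ⟨π', hπ'⟩⟩, h1, h2⟩ := w
    obtain ⟨h1, h3⟩ := (hQ τ y).1 h1
    simp only at h2 h3 ⊢
    constructor
    · show ((π' * π)⁻¹ * τ⁻¹ * π) (π⁻¹ (τ y)) = κ * π⁻¹ (τ y)
      have e1 : ((π' * π)⁻¹ * τ⁻¹ * π) (π⁻¹ (τ y)) = π⁻¹ (π'⁻¹ y) := by
        simp [MulAut.mul_apply, mul_inv_rev]
      have e2 : π'⁻¹ y = τ y * π κ := by
        conv_lhs => rw [h2]
        exact MulEquiv.symm_apply_apply _ _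
      have e3 : π⁻¹ (π κ) = κ := MulEquiv.symm_apply_apply _ _
      rw [e1, e2, map_mul, e3, mul_comm]
    · intro s hs
      show ((π' * π)⁻¹ * τ⁻¹ * π) ((κ ^ (s.2.1 : ℕ) * s.2.2.1) *
        ((π⁻¹ (τ y)) ^ (s.1 : ℕ))⁻¹) = κ ^ (s.2.1 : ℕ) * s.2.2.1
      have e0 : π (π⁻¹ (τ y)) = τ y := MulEquiv.apply_symm_apply _ _
      have e1 : π ((κ ^ (s.2.1 : ℕ) * s.2.2.1) * ((π⁻¹ (τ y)) ^ (s.1 : ℕ))⁻¹) =
          (κ ^ (s.2.1 : ℕ) * s.2.2.1) * ((τ y) ^ (s.1 : ℕ))⁻¹ := by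
        rw [map_mul, hfix π hπ s hs, map_inv, map_pow, e0]
      have e2 : τ ((κ ^ (s.2.1 : ℕ) * s.2.2.1)) * (τ y) ^ (s.1 : ℕ) =
          κ ^ (s.2.1 : ℕ) * s.2.2.1 := by
        rw [← map_pow, ← map_mul]; exact h3 s hs
      have e3 : (κ ^ (s.2.1 : ℕ) * s.2.2.1) * ((τ y) ^ (s.1 : ℕ))⁻¹ =
          τ (κ ^ (s.2.1 : ℕ) * s.2.2.1) := mul_inv_eq_of_eq_mul e2.symm
      have e4 : τ⁻¹ (τ (κ ^ (s.2.1 : ℕ) * s.2.2.1)) = κ ^ (s.2.1 : ℕ) * s.2.2.1 :=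
        MulEquiv.symm_apply_apply _ _
      rw [MulAut.mul_apply, MulAut.mul_apply, e1, e3, e4]
      exact hfix' _ ((St E₀ A).mul_mem hπ' hπ) s hs
  · obtain ⟨⟨⟨π, hπ⟩, ⟨π', hπ'⟩⟩, ⟨⟨⟨s, hs⟩, X⟩, h1, h2⟩⟩ := z
    simp only at h1 h2 ⊢
    have hτ : π * s⁻¹ * (π' * π)⁻¹ ∈ E₀ :=
      E₀.mul_mem (E₀.mul_mem hπ.1 (E₀.inv_mem hs)) (E₀.inv_mem (E₀.mul_mem hπ'.1 hπ.1))
    have hy : (π * s⁻¹ * (π' * π)⁻¹) ((π * s⁻¹ * (π' * π)⁻¹)⁻¹ (π X)) = π X :=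
      MulEquiv.apply_symm_apply _ _
    have hy2 : (π * s⁻¹ * (π' * π)⁻¹)⁻¹ (π X) = π' (π (s X)) := by
      have : (π * s⁻¹ * (π' * π)⁻¹)⁻¹ = π' * π * s * π⁻¹ := by group
      rw [this]
      simp only [MulAut.mul_apply]
      congr 2
      congr 1
      exact MulEquiv.symm_apply_apply _ _
    refine ⟨(hQ _ _).2 ⟨hτ, fun t ht => ?_⟩, ?_⟩
    · rw [map_mul, map_pow, hy]
      have e1 : s (κ ^ (t.2.1 : ℕ) * t.2.2.1) * ((s X) ^ (t.1 : ℕ))⁻¹ =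
          κ ^ (t.2.1 : ℕ) * t.2.2.1 := by
        rw [← map_pow, ← map_inv, ← map_mul]; exact h2 t ht
      have e2 : s (κ ^ (t.2.1 : ℕ) * t.2.2.1) = (κ ^ (t.2.1 : ℕ) * t.2.2.1) * (s X) ^ (t.1 : ℕ) :=
        mul_inv_eq_iff_eq_mul.1 e1
      have e3 : s⁻¹ (κ ^ (t.2.1 : ℕ) * t.2.2.1) * X ^ (t.1 : ℕ) = κ ^ (t.2.1 : ℕ) * t.2.2.1 := by
        have e5 : s⁻¹ (s X) = X := MulEquiv.symm_apply_apply _ _
        have e6 : s⁻¹ (s (κ ^ (t.2.1 : ℕ) * t.2.2.1)) = κ ^ (t.2.1 : ℕ) * t.2.2.1 :=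
          MulEquiv.symm_apply_apply _ _
        calc s⁻¹ (κ ^ (t.2.1 : ℕ) * t.2.2.1) * X ^ (t.1 : ℕ)
            = s⁻¹ ((κ ^ (t.2.1 : ℕ) * t.2.2.1) * (s X) ^ (t.1 : ℕ)) := by
              rw [MulEquiv.map_mul s⁻¹ (κ ^ (t.2.1 : ℕ) * t.2.2.1) ((s X) ^ (t.1 : ℕ)),
                map_pow s⁻¹ (s X), e5]
          _ = s⁻¹ (s (κ ^ (t.2.1 : ℕ) * t.2.2.1)) := by rw [← e2]
          _ = κ ^ (t.2.1 : ℕ) * t.2.2.1 := e6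
      have e4 : (π * s⁻¹ * (π' * π)⁻¹) (κ ^ (t.2.1 : ℕ) * t.2.2.1) =
          π (s⁻¹ (κ ^ (t.2.1 : ℕ) * t.2.2.1)) := by
        rw [MulAut.mul_apply, MulAut.mul_apply]
        congr 2
        exact hfix' _ ((St E₀ A).mul_mem hπ' hπ) t ht
      rw [e4, ← map_pow, ← map_mul, e3]
      exact hfix π hπ t ht
    · rw [hy, hy2, ← map_mul, h1, mul_comm]
  · rintro ⟨⟨⟨τ, y⟩, ⟨π, hπ⟩, ⟨π', hπ'⟩⟩, h1, h2⟩
    apply Subtype.ext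
    have e1 : π * ((π' * π)⁻¹ * τ⁻¹ * π)⁻¹ * (π' * π)⁻¹ = τ := by group
    have e2 : π (π⁻¹ (τ y)) = τ y := MulEquiv.apply_symm_apply _ _
    have e3 : τ⁻¹ (τ y) = y := MulEquiv.symm_apply_apply _ _
    simp only [e1, e2, e3]
  · rintro ⟨⟨⟨π, hπ⟩, ⟨π', hπ'⟩⟩, ⟨⟨⟨s, hs⟩, X⟩, h1, h2⟩⟩
    have e1 : (π' * π)⁻¹ * (π * s⁻¹ * (π' * π)⁻¹)⁻¹ * π = s := by group
    have hy : (π * s⁻¹ * (π' * π)⁻¹) ((π * s⁻¹ * (π' * π)⁻¹)⁻¹ (π X)) = π X :=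
      MulEquiv.apply_symm_apply _ _
    have e3 : π⁻¹ (π X) = X := MulEquiv.symm_apply_apply _ _
    simp only [e1, hy, e3]

end Pool.Agent.PP.SE.H94
end -- Pool.Agent.Helper94_ASE.CN2
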