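import Pool.Agent.Helper12_AWB.B053
import Pool.Agent.Helper12_AWB.B068
import Pool.Agent.Helper12_AWB.B085
import Pool.Agent.Helper12_AWB.B090
import Pool.Agent.Helper57_K9.Stmts
import Pool.Agent.Helper66_ML.Stmts3

/-!
# Merged copies (generated) of the modules

* `Pool.Agent.Helper43_DF.Cov`
* `Pool.Agent.Helper57_K9.Stmts3`
* `Pool.Agent.Helper57_C2.Stmts`
* `Pool.Agent.Helper52_C2.COVN`
* `Pool.Agent.Helper81_C2.INU`
* `Pool.Agent.Helper25_K9.GRB`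
* `Pool.Agent.Helper6_K9.GRA`
-/

set_option autoImplicit false

section -- Pool.Agent.Helper43_DF.Cov

/-!
# Squad DF: row COV

A nonzero central idempotent over a stable block of the normal subgroup `Y` does not vanish on the
centraliser of an `ℓ`-subgroup `Q` of `Y` if the block does not vanish there.
-/

open scoped BigOperators

noncomputable section

namespace Pool.Agent.DF.H43

open Pool.Agent.Helper51_AWC Pool.Agent.Helper79_WRA Pool.Agent.PP Pool.Agent.PP.J74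

variable {F X : Type} [Field F] [Group X] [Finite X] {Y : Subgroup X} {b e : X → F}

/-- the part of `e` on the coset `q` -/
def part1 (Y : Subgroup X) (e : X → F) (q : X ⧸ Y) : X → F := cut {h : X | (h : X ⧸ Y) = q} e

theorem part1_sum (e : X → F) [Fintype (X ⧸ Y)] : e = ∑ q : X ⧸ Y, part1 Y e q := by
  classical
  funext h
  rw [Finset.sum_apply, Finset.sum_eq_single (h : X ⧸ Y)]
  · exact (cut_of_mem (S := {h' : X | (h' : X ⧸ Y) = (h : X ⧸ Y)}) e rfl).symm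
  · intro c _ hc
    exact cut_of_not_mem e fun h' => hc h'.symm
  · intro h'
    exact absurd (Finset.mem_univ _) h'

theorem part1_CE (hY : Y.Normal) (hb : SBlk Y b) (he : CC b Y e) (g : X) :
    CE b Y g (part1 Y e (g : X ⧸ Y)) := by
  have hmem : ∀ h : X, (h : X ⧸ Y) = (g : X ⧸ Y) ↔ g⁻¹ * h ∈ Y := by
    intro h
    rw [eq_comm, QuotientGroup.eq]
  refine ⟨?_, ?_, ?_⟩
  · intro h hh
    exact cut_of_not_mem e fun h' => hh ((hmem h).1 h')
  · intro n hn h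
    have h1 : ((n * h * n⁻¹ : X) : X ⧸ Y) = (h : X ⧸ Y) := by
      have hn1 : ((n : X) : X ⧸ Y) = 1 := (QuotientGroup.eq_one_iff n).2 hn
      rw [QuotientGroup.mk_mul, QuotientGroup.mk_mul, QuotientGroup.mk_inv, hn1]
      simp
    unfold part1
    by_cases hh : (h : X ⧸ Y) = (g : X ⧸ Y)
    · rw [cut_of_mem (S := {h' : X | (h' : X ⧸ Y) = (g : X ⧸ Y)}) e hh,
        cut_of_mem (S := {h' : X | (h' : X ⧸ Y) = (g : X ⧸ Y)}) e (h1.trans hh), he.inv n hn]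
    · rw [cut_of_not_mem (S := {h' : X | (h' : X ⧸ Y) = (g : X ⧸ Y)}) (h := h) e hh,
        cut_of_not_mem (S := {h' : X | (h' : X ⧸ Y) = (g : X ⧸ Y)}) e
          (fun h' => hh (h1.symm.trans h'))]
  · unfold part1
    rw [mulF_cut hb.supp _ e, he.abs]
    intro n hn x
    have hn1 : ((n : X) : X ⧸ Y) = 1 := (QuotientGroup.eq_one_iff n).2 hn
    change ((n⁻¹ * x : X) : X ⧸ Y) = _ ↔ _
    rw [QuotientGroup.mk_mul, QuotientGroup.mk_inv, hn1]
    simp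

/-- a nonzero idempotent has a part outside of `J₁ C` -/
theorem exists_part1 (he : IsIdem e) (h0 : e ≠ 0) :
    ∃ g : X, part1 Y e (g : X ⧸ Y) ∉ J1C b Y := by
  classical
  by_contra hcon
  simp only [not_exists, not_not] at hcon
  have := Fintype.ofFinite (X ⧸ Y)
  have h1 : e ∈ J1C b Y := by
    rw [part1_sum (Y := Y) e]
    refine Submodule.sum_mem _ fun q _ => ?_
    obtain ⟨g, rfl⟩ := QuotientGroup.mk_surjective q
    exact hcon g
  obtain ⟨n, hn⟩ := (J1C_nil h1).2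
  have hpow : ∀ k : ℕ, ma e ^ (k + 1) = ma e := by
    intro k
    induction k with
    | zero => simp
    | succ k ih => rw [pow_succ, ih, ← ma_mul, he.2]
  apply h0
  apply ma_injective
  rw [ma_zero, ← hpow n, pow_succ, hn, zero_mul]

/-- COV -/
theorem covE : CovEStmt := by
  intro ℓ F _ hF X _ _ Y hY b hb e he h0 heb Q hQ hp hg
  have hbe : mulF b e = e := by rw [f_comm hb, heb]
  have heC : CC b Y e := ⟨fun n _ h => he.1 h n, hbe⟩
  obtain ⟨g, hgJ⟩ := exists_part1 (Y := Y) (b := b) he h0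
  have hE := part1_CE hY hb heC g
  obtain ⟨xf1, -, -, xf2, -, -⟩ := xfs ℓ F hF X Y hY b hb
  obtain ⟨lo1, -, -, -, -, -⟩ := loc ℓ F hF X Y hY b hb
  have hgX : g ∈ XF b Y := by
    by_contra hgn
    apply hgJ
    have h1 : part1 Y e (g : X ⧸ Y) = 0 := by
      funext h
      by_cases hh : (h : X ⧸ Y) = (g : X ⧸ Y)
      · unfold part1
        rw [cut_of_mem (S := {h' : X | (h' : X ⧸ Y) = (g : X ⧸ Y)}) e hh]
        apply supJ ℓ F hF X Y hY b hb e he heb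
        intro hX
        apply hgn
        have h2 : h⁻¹ * g ∈ Y := QuotientGroup.eq.1 hh
        have h3 := (XF b Y).mul_mem hX (le_XF hY hb h2)
        rwa [mul_inv_cancel_left] at h3
      · exact cut_of_not_mem e hh
    rw [h1]
    exact Submodule.zero_mem _
  obtain ⟨u, u', hu⟩ := (xf1 g).1 hgX
  obtain ⟨-, -, -, -, hv, -, -⟩ := xf2 g u u' hu
  obtain ⟨z, hz, ez⟩ := hv _ hE
  obtain ⟨hres, -, hinv⟩ := lo1 z hz
  have hl : lamJ b z ≠ 0 := by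
    intro hl
    rw [hl] at hres
    unfold IsRes at hres
    rw [zero_smul, sub_zero] at hres
    apply hgJ
    rw [ez]
    exact Submodule.subset_span ⟨z, u, hz, hres, hu.left.cc, rfl⟩
  obtain ⟨z', hz', ezz⟩ := hinv hl
  have key : mulF (part1 Y e (g : X ⧸ Y)) (mulF u' z') = b := by
    rw [ez, mulF_assoc, ← mulF_assoc u, hu.mul, hz'.abs, ezz]
  obtain ⟨t, ht, ht'⟩ := hg
  by_contra hcon
  simp only [not_exists, not_and, not_not] at hcon
  apply ht'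
  have h1 : PP.br Q (part1 Y e (g : X ⧸ Y)) = 0 := by
    funext h
    by_cases hh : h ∈ Subgroup.centralizer (Q : Set X)
    · rw [H66.br_of_mem hh]
      unfold part1 cut
      rw [hcon h hh, ite_self]
      rfl
    · rw [H66.br_of_not_mem hh]
      rfl
  have h2 := H66.br_mulF hF hp (a := part1 Y e (g : X ⧸ Y)) (b := mulF u' z')
    (fun p hp t => hE.inv p (hQ hp) t)
    (fun p hp t => inv_mulF hu.right.inv hz'.inv p (hQ hp) t)
  rw [key, h1] at h2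
  have h3 := congrFun h2 t
  rw [H66.br_of_mem ht] at h3
  rw [h3]
  unfold mulF
  simp

end Pool.Agent.DF.H43
end
end -- Pool.Agent.Helper43_DF.Cov

section -- Pool.Agent.Helper57_K9.Stmts3

/-!
# Squad K9, part KL: blocks with defect groups of order `ℓ ^ 2` have at most `ℓ ^ 2` characters

Text: `AWC_KL.md`.
-/

open scoped BigOperators

noncomputable section

namespace Pool.Agent.PP.K9

open Pool.Agent.Helper51_AWC Pool.Agent.Helper79_WRA Pool.Agent.PP Pool.Agent.PP.KF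

attribute [local instance] Ideal.Quotient.field

/-- Virtual characters `g_i`, `h_ij` in `e` which vanish at the singular elements, with
`c h_ij = w_j g_i - w_i g_j`: the conclusion for blocks with defect groups of order `ℓ`. -/
def DL (ℓ : ℕ) (M : Ideal (integralClosure ℤ ℂ)) [M.IsMaximal] {G : Type} [Group G]
    (e : G → FF M) : Prop :=
  ∃ (n m : ℕ) (c : ℤ) (w : Fin n → ℤ) (g : Fin n → G → ℂ) (h : Fin n → Fin n → G → ℂ),
    0 < n ∧ 0 < m ∧ c ≠ 0 ∧ (∀ i, w i ≠ 0) ∧ (∀ i, g i ∈ ZE M e ∧ Rc ℓ (g i)) ∧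
    (∀ i j, h i j ∈ ZE M e ∧ Rc ℓ (h i j)) ∧
    (∀ i j, (c : ℂ) • h i j = (w j : ℂ) • g i - (w i : ℂ) • g j) ∧
    2 * ∑ i, ipn (g i) (g i) + m * ∑ i, ∑ j, ipn (h i j) (h i j) = 2 * n * ℓ ∧
    ∃ d : Fin n → ℂ, pr M e = ∑ i, d i • g i

/-! ## 1. Arithmetic -/

/-- GAL: the conjugates of a nonzero element of `ℤ[ζ]`. -/
def GalStmt : Prop := ∀ (ℓ : ℕ) [Fact ℓ.Prime] (ζ : ℂ), IsPrimitiveRoot ζ ℓ → ∀ m : ℕ → ℤ,
  ∑ i ∈ Finset.range ℓ, (m i : ℂ) * ζ ^ i ≠ 0 →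
  ((ℓ : ℝ) - 1) ≤ ∑ j ∈ Finset.Ico 1 ℓ,
    Complex.normSq (∑ i ∈ Finset.range ℓ, (m i : ℂ) * ζ ^ (i * j))

/-- GRA: from orthogonal vectors over `ℤ[ζ]` to integral vectors with Gram matrix `I + e J`. -/
def GraStmt : Prop := ∀ (ℓ : ℕ) [Fact ℓ.Prime] (ι : Type) [Fintype ι] (ζ : ℂ),
  IsPrimitiveRoot ζ ℓ → ∀ (a : ι → ℕ → ℤ) (deg : ι → ℕ) (δ : ℕ → ι → ℂ),
  (∀ j i, δ j i = ∑ s ∈ Finset.range ℓ, (a i s : ℂ) * ζ ^ (s * j)) →
  (∀ j ∈ Finset.Ico 1 ℓ, (∀ i, δ j i ≠ 0) ∧ ∑ i, δ j i * starRingEnd ℂ (δ j i) = ℓ ∧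
    ∑ i, δ j i * deg i = 0) →
  (∀ j ∈ Finset.Ico 1 ℓ, ∀ j' ∈ Finset.Ico 1 ℓ, (∀ i, δ j i = δ j' i) ∨
    ∑ i, δ j i * starRingEnd ℂ (δ j' i) = 0) →
  ∃ (m e : ℕ) (b : Fin m → ι → ℤ) (cl : ℕ → Fin m), 0 < m ∧ m * e = ℓ - 1 ∧
    (∀ s ∈ Finset.Ico 1 ℓ, ∀ i, a i s - a i 0 = b (cl s) i) ∧
    (∀ j j', ∑ i, b j i * b j' i = (if j = j' then 1 else 0) + e) ∧
    (∀ i, ∃ j, b j i ≠ 0) ∧ ∀ j, ∑ i, b j i * deg i = 0

/-- GRB: integral vectors with Gram matrix `I + e J`. -/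
def GrbStmt : Prop := ∀ (m e : ℕ), 0 < m → ∀ (ι : Type) [Fintype ι] [DecidableEq ι]
  (b : Fin m → ι → ℤ), (∀ j j', ∑ i, b j i * b j' i = (if j = j' then 1 else 0) + e) →
  ∃ (r : Fin m → ι) (σ : Fin m → ℤ) (t : ℤ) (w : ι → ℤ), Function.Injective r ∧
    (∀ j, σ j * σ j = 1) ∧ (∀ j i, b j i = w i + if i = r j then σ j else 0) ∧
    (∀ j, w (r j) = t * σ j) ∧ (m : ℤ) * t + 1 ≠ 0

/-- GRM: the vectors `g_i`, `h_ij`. -/
def GrmStmt : Prop := ∀ (ℓ : ℕ) [Fact ℓ.Prime] (ι : Type) [Fintype ι] (ζ : ℂ),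
  IsPrimitiveRoot ζ ℓ → ∀ (a : ι → ℕ → ℤ) (deg : ι → ℕ) (δ : ℕ → ι → ℂ), (∀ i, deg i ≠ 0) →
  (∀ j i, δ j i = ∑ s ∈ Finset.range ℓ, (a i s : ℂ) * ζ ^ (s * j)) →
  (∀ j ∈ Finset.Ico 1 ℓ, (∀ i, δ j i ≠ 0) ∧ ∑ i, δ j i * starRingEnd ℂ (δ j i) = ℓ ∧
    ∑ i, δ j i * deg i = 0) →
  (∀ j ∈ Finset.Ico 1 ℓ, ∀ j' ∈ Finset.Ico 1 ℓ, (∀ i, δ j i = δ j' i) ∨
    ∑ i, δ j i * starRingEnd ℂ (δ j' i) = 0) →
  ∃ (n m : ℕ) (c : ℤ) (w : Fin n → ℤ) (g : Fin n → ι → ℤ) (h : Fin n → Fin n → ι → ℤ),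
    0 < n ∧ 0 < m ∧ c ≠ 0 ∧ (∀ r, w r ≠ 0) ∧
    (∀ r s x, c * h r s x = w s * g r x - w r * g s x) ∧
    (∀ j ∈ Finset.Ico 1 ℓ, (∀ r, ∑ x, (g r x : ℂ) * δ j x = 0) ∧
      ∀ r s, ∑ x, (h r s x : ℂ) * δ j x = 0) ∧
    2 * ∑ r, ∑ x, g r x * g r x + m * ∑ r, ∑ s, ∑ x, h r s x * h r s x = 2 * n * ℓ ∧
    ∃ d : Fin n → ℂ, ∀ x, (deg x : ℂ) = ∑ r, d r * g r x

/-! ## 2. Blocks -/

/-- TRN: the blocks of the centraliser of `v` are conjugate. -/
def TrnStmt : Prop := ∀ (ℓ : ℕ) [Fact ℓ.Prime] (M : Ideal (integralClosure ℤ ℂ)) [M.IsMaximal],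
  (ℓ : integralClosure ℤ ℂ) ∈ M → ∀ (G H : Type) [Group G] [Finite G] [Group H] [Finite H]
  (e : G → FF M), IsBlk e → ∀ v : G, Tp ℓ e (Subgroup.zpowers v) → ∀ π : Cu v →* H, Qt ℓ v π →
  ∀ γ γ' : Cu v → FF M, IsBlk γ → IsBlk γ' → mulF (fun t : Cu v => e t) γ = γ →
  mulF (fun t : Cu v => e t) γ' = γ' → ∀ κ κ' : H → ℂ, IrrE M (H75.push π γ) = {κ} →
  IrrE M (H75.push π γ') = {κ'} → ∀ w ∈ Subgroup.zpowers v, w ≠ 1 →
  ∃ w' ∈ Subgroup.zpowers v, w' ≠ 1 ∧ ∀ χ ∈ Irr G, Av ℓ π w κ' χ = Av ℓ π w' κ χ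

/-- DTL: blocks with defect groups of order `ℓ`. -/
def DtlStmt : Prop := ∀ (ℓ : ℕ) [Fact ℓ.Prime] (M : Ideal (integralClosure ℤ ℂ)) [M.IsMaximal],
  (ℓ : integralClosure ℤ ℂ) ∈ M → ∀ (G : Type) [Group G] [Finite G] (e : G → FF M),
  IsBlk e → ∀ V : Subgroup G, Tp ℓ e V → Nat.card V = ℓ → DL ℓ M e

/-- KL: a block with a defect group of order `ℓ ^ 2` has at most `ℓ ^ 2` characters. -/
def KlStmt : Prop := ∀ (ℓ : ℕ) [Fact ℓ.Prime] (M : Ideal (integralClosure ℤ ℂ)) [M.IsMaximal],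
  (ℓ : integralClosure ℤ ℂ) ∈ M → ∀ (G : Type) [Group G] [Finite G] (e : G → FF M),
  IsBlk e → ∀ V : Subgroup G, Tp ℓ e V → Nat.card V = ℓ ^ 2 → (IrrE M e).ncard ≤ ℓ ^ 2

/-- CTL: blocks with a defect group of order `ℓ ^ 2` if `ℓ ^ 2` divides the alternating sum. -/
def CtlStmt : Prop := ∀ (ℓ : ℕ) [Fact ℓ.Prime] (M : Ideal (integralClosure ℤ ℂ)) [M.IsMaximal],
  (ℓ : integralClosure ℤ ℂ) ∈ M → ∀ (G : Type) [Group G] [Finite G], opCore ℓ G = ⊥ →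
  ∀ e : G → FF M, IsBlk e → Pos ℓ e ⊤ → ∀ V : Subgroup G, Tp ℓ e V → Nat.card V = ℓ ^ 2 →
  (∀ χ ∈ Irr G, res M e χ = 1 → ((ℓ ^ 2 : ℕ) : ℤ) ∣ altSum ℓ M χ) → YY ℓ ⊤ e = 0

end Pool.Agent.PP.K9
end
end -- Pool.Agent.Helper57_K9.Stmts3

section -- Pool.Agent.Helper57_C2.Stmts

/-!
# Squad C2: blocks with defect groups of type `(ℓ ^ n, ℓ)`, `n ≥ 2`

Text: `AWC_C2.md`.
-/

open scoped BigOperators

noncomputable section

namespace Pool.Agent.PP.C2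

open Pool.Agent.Helper51_AWC Pool.Agent.Helper79_WRA Pool.Agent.PP Pool.Agent.PP.KF
open Pool.Agent.PP.K9

attribute [local instance] Ideal.Quotient.field

section defs

variable {F G H : Type} [Field F] [Group G] [Group H]

/-- `β` is a block of the subgroup `C`, extended by zero. -/
structure Bk (C : Subgroup G) (β : G → F) : Prop where
  off : ∀ x, x ∉ C → β x = 0
  blk : IsBlk (fun t : C => β t)

/-- the number of irreducible modular characters on which `e` acts as the identity -/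
def lb (e : G → F) : ℕ := {f : G → F | f ∈ IBr F G ∧ actF e f = f}.ncard

/-- `V` is an abelian defect group of the block `e`, `γ` is a block of `C(V)` under `e`, and `T` is
the stabiliser of `γ` in `N(V)`. -/
structure Inr (ℓ : ℕ) (e : G → F) (V : Subgroup G) (γ : G → F) (T : Subgroup G) : Prop where
  blk : IsBlk e
  tp : Tp ℓ e V
  comm : ∀ a ∈ V, ∀ b ∈ V, a * b = b * a
  gam : Bk (Subgroup.centralizer (V : Set G)) γ
  und : mulF (br V e) γ = γ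
  stb : T = Subgroup.normalizer (V : Set G) ⊓ stabF γ

/-- For `w ∈ V`: `β` is the block of `C(w)` above the block `γ` of `C(V)`. -/
structure Ab (V : Subgroup G) (γ : G → F) (w : G) (β : G → F) : Prop where
  bk : Bk (Cu w) β
  und : mulF (br V β) γ = γ

/-- `u` has order `q` and `π` is a homomorphism of its centraliser onto `H` with kernel `⟨u⟩`. -/
structure Qn (q : ℕ) (u : G) (π : Cu u →* H) : Prop where
  ord : orderOf u = q
  sur : Function.Surjective π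
  ker : ∀ c : Cu u, π c = 1 ↔ (c : G) ∈ Subgroup.zpowers u

/-- `V` is abelian of type `(ℓ ^ n, ℓ)`. -/
structure Tn (ℓ n : ℕ) (V : Subgroup G) : Prop where
  comm : ∀ a ∈ V, ∀ b ∈ V, a * b = b * a
  card : Nat.card V = ℓ ^ (n + 1)
  gen : ∃ u ∈ V, orderOf u = ℓ ^ n
  ncyc : ¬ IsCyclic V

/-- the preimage in `G` of a subgroup of a quotient `A` of `N` -/
def upm {A : Type} [Group A] {N : Subgroup G} (p : N →* A) (R : Subgroup A) : Subgroup G :=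
  (R.comap p).map N.subtype

/-- `YY` of the image of `br_Q(e)` in the quotient `N(Q) / Q` -/
def yq (ℓ : ℕ) [Finite G] (Q : Subgroup G) (e : G → F) : ℤ :=
  YY ℓ ⊤ (H75.push (QuotientGroup.mk' (Q.subgroupOf (Subgroup.normalizer (Q : Set G))))
    (fun t : Subgroup.normalizer (Q : Set G) => br Q e t))

variable (M : Ideal (integralClosure ℤ ℂ)) [M.IsMaximal]

/-- The structure of a block with defect groups of order `ℓ`: `E` virtual characters which are a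
basis of those which vanish at the singular elements, with Gram matrix `I + m J`, `E m = ℓ - 1`. -/
structure St (ℓ : ℕ) (e : G → FF M) (E m : ℕ) : Prop where
  mul : E * m + 1 = ℓ
  ex : ∃ g : Fin E → G → ℂ, (∀ i, g i ∈ ZE M e ∧ Rc ℓ (g i)) ∧
    (∀ i j, ipn (g i) (g j) = (if i = j then 1 else 0) + m) ∧
    ∀ f ∈ Submodule.span ℂ (IrrE M e), Rc ℓ f → ∃ d : Fin E → ℂ, f = ∑ i, d i • g i

/-- The alternating sum vanishes for the blocks with defect groups of type `(ℓ ^ n, ℓ)`. -/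
def Awn (ℓ n : ℕ) : Prop := ∀ (G : Type) [Group G] [Finite G] (e : G → FF M), IsBlk e →
  ∀ V : Subgroup G, Tp ℓ e V → Tn ℓ n V → YY ℓ ⊤ e = 0

end defs

/-! ## 1. Arithmetic -/

/-- CNF: Parseval's identity on a coset. -/
def CnfStmt : Prop := ∀ (ℓ : ℕ) [Fact ℓ.Prime] (n : ℕ), 1 ≤ n → ∀ ζ : ℂ,
  IsPrimitiveRoot ζ (ℓ ^ n) → ∀ (ι : Type) [Fintype ι] (a : ι → ℕ → ℤ) (A : ι → ℕ → ℂ) (K : ℂ),
  (∀ x j, A x j = ∑ s ∈ Finset.range (ℓ ^ n), (a x s : ℂ) * ζ ^ (s * j)) →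
  (∀ j j' : ℕ, j.Coprime ℓ → j'.Coprime ℓ → j ≡ j' [MOD ℓ] →
    ∑ x, A x j * starRingEnd ℂ (A x j') = if j ≡ j' [MOD ℓ ^ n] then (ℓ : ℂ) ^ n * K else 0) →
  ∀ k < ℓ ^ (n - 1), ∑ x, ∑ s ∈ Finset.range ℓ, ∑ s' ∈ Finset.range ℓ,
    ((a x (k + ℓ ^ (n - 1) * s) : ℂ) - a x (k + ℓ ^ (n - 1) * s')) ^ 2 =
      2 * ℓ * ((ℓ : ℂ) - 1) * K

/-- CNM: integral vectors. -/
def CnmStmt : Prop := ∀ (ℓ E : ℕ) (b : Fin E → ℕ → ℤ), 2 ≤ ℓ →
  (∃ i, ∃ s < ℓ, ∃ s' < ℓ, b i s ≠ b i s') →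
  4 * ((ℓ : ℤ) - 1) * E ≤ ∑ s ∈ Finset.range ℓ, ∑ s' ∈ Finset.range ℓ,
    (2 * ∑ i, (b i s - b i s') ^ 2 +
      ∑ i, ∑ i', ((b i s - b i' s) - (b i s' - b i' s')) ^ 2)

/-- CNS: functions whose Fourier transform vanishes at the numbers prime to `ℓ`. -/
def CnsStmt : Prop := ∀ (ℓ : ℕ) [Fact ℓ.Prime] (n : ℕ), 1 ≤ n → ∀ ζ : ℂ,
  IsPrimitiveRoot ζ (ℓ ^ n) → ∀ f : ℕ → ℂ,
  (∀ j : ℕ, j.Coprime ℓ → ∑ s ∈ Finset.range (ℓ ^ n), f s * ζ ^ (s * j) = 0) →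
  ∀ k < ℓ ^ (n - 1), ∀ s < ℓ, ∀ s' < ℓ, f (k + ℓ ^ (n - 1) * s) = f (k + ℓ ^ (n - 1) * s')

/-- CNT: the counting lemma. -/
def CntStmt : Prop := ∀ (ℓ : ℕ) [Fact ℓ.Prime] (n : ℕ), 2 ≤ n → ∀ ζ : ℂ,
  IsPrimitiveRoot ζ (ℓ ^ n) → ∀ (ι : Type) [Fintype ι] (X : Finset ι) (E m : ℕ)
  (A : ι → Fin E → ℕ → ℂ),
  (∀ x i, ∃ a : ℕ → ℤ, ∀ j, A x i j = ∑ s ∈ Finset.range (ℓ ^ n), (a s : ℂ) * ζ ^ (s * j)) →
  (∀ j j' : ℕ, j.Coprime ℓ → j'.Coprime ℓ → j ≡ j' [MOD ℓ] → ∀ i i',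
    ∑ x, A x i j * starRingEnd ℂ (A x i' j') =
      if j ≡ j' [MOD ℓ ^ n] then (ℓ : ℂ) ^ n * ((if i = i' then 1 else 0) + m) else 0) →
  (∀ x ∈ X, ∃ i, A x i 1 ≠ 0) →
  ∀ R : Finset ℕ, (∀ α ∈ R, α.Coprime ℓ) → (∀ α ∈ R, ∀ β ∈ R, α ≡ β [MOD ℓ] → α = β) →
  (∀ α ∈ R, ∃ c : Fin E → Fin E → ℂ, ∀ x ∈ X, ∀ i, ∀ j : ℕ, j.Coprime ℓ →
    A x i (α * j) = ∑ i', c i i' * A x i' j) →
  R.card * X.card ≤ ℓ * (E + m) * (R.card + (ℓ ^ (n - 1) - 1))

open Classical in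
/-- GRA2: `GraStmt` with the number `e` computed. -/
def Gra2Stmt : Prop := ∀ (ℓ : ℕ) [Fact ℓ.Prime] (ι : Type) [Fintype ι] (ζ : ℂ),
  IsPrimitiveRoot ζ ℓ → ∀ (a : ι → ℕ → ℤ) (δ : ℕ → ι → ℂ),
  (∀ j i, δ j i = ∑ s ∈ Finset.range ℓ, (a i s : ℂ) * ζ ^ (s * j)) →
  (∀ j ∈ Finset.Ico 1 ℓ, (∀ i, δ j i ≠ 0) ∧ ∑ i, δ j i * starRingEnd ℂ (δ j i) = ℓ) →
  (∀ j ∈ Finset.Ico 1 ℓ, ∀ j' ∈ Finset.Ico 1 ℓ, (∀ i, δ j i = δ j' i) ∨
    ∑ i, δ j i * starRingEnd ℂ (δ j' i) = 0) →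
  ∀ E : ℕ, E = ((Finset.Ico 1 ℓ).filter (fun b => ∀ i, δ b i = δ 1 i)).card →
  ∃ (m : ℕ) (b : Fin m → ι → ℤ) (cl : ℕ → Fin m), 0 < m ∧ E * m + 1 = ℓ ∧
    (∀ s ∈ Finset.Ico 1 ℓ, ∀ i, a i s - a i 0 = b (cl s) i) ∧
    (∀ j, ∃ s ∈ Finset.Ico 1 ℓ, cl s = j) ∧
    (∀ j j', ∑ i, b j i * b j' i = (if j = j' then 1 else 0) + E) ∧ ∀ i, ∃ j, b j i ≠ 0

open Classical in
/-- GRC: the lattice of the block. -/
def GrcStmt : Prop := ∀ (ℓ : ℕ) [Fact ℓ.Prime] (ι : Type) [Fintype ι] (ζ : ℂ),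
  IsPrimitiveRoot ζ ℓ → ∀ (a : ι → ℕ → ℤ) (δ : ℕ → ι → ℂ),
  (∀ j i, δ j i = ∑ s ∈ Finset.range ℓ, (a i s : ℂ) * ζ ^ (s * j)) →
  (∀ j ∈ Finset.Ico 1 ℓ, (∀ i, δ j i ≠ 0) ∧ ∑ i, δ j i * starRingEnd ℂ (δ j i) = ℓ) →
  (∀ j ∈ Finset.Ico 1 ℓ, ∀ j' ∈ Finset.Ico 1 ℓ, (∀ i, δ j i = δ j' i) ∨
    ∑ i, δ j i * starRingEnd ℂ (δ j' i) = 0) →
  ∀ E m : ℕ, E = ((Finset.Ico 1 ℓ).filter (fun b => ∀ i, δ b i = δ 1 i)).card →
  E * m + 1 = ℓ → E + m ≤ Fintype.card ι → Fintype.card ι = E + m ∧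
  ∃ g : Fin E → ι → ℤ, (∀ i j, ∑ x, g i x * g j x = (if i = j then 1 else 0) + m) ∧
    (∀ j ∈ Finset.Ico 1 ℓ, ∀ i, ∑ x, (g i x : ℂ) * δ j x = 0) ∧
    ∀ f : ι → ℂ, (∀ j ∈ Finset.Ico 1 ℓ, ∑ x, f x * δ j x = 0) →
      ∃ d : Fin E → ℂ, ∀ x, f x = ∑ i, d i * g i x

/-! ## 2. Characters -/

/-- INT2: integrality. -/
def Int2Stmt : Prop := ∀ (ℓ : ℕ) [Fact ℓ.Prime] (n : ℕ) (G H : Type) [Group G] [Finite G]
  [Group H] [Finite H] (u : G) (π : Cu u →* H), Qn (ℓ ^ n) u π → ∀ p ∈ ZI H, Rc ℓ p →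
  ∀ χ ∈ Irr G, ∀ ζ : ℂ, IsPrimitiveRoot ζ (ℓ ^ n) → ∃ m : ℕ → ℤ, ∀ j : ℕ,
    Av ℓ π (u ^ j) p χ = ∑ i ∈ Finset.range (ℓ ^ n), (m i : ℂ) * ζ ^ (i * j)

/-- SEC2: orthogonality relations. -/
def Sec2Stmt : Prop := ∀ (ℓ : ℕ) [Fact ℓ.Prime] (n : ℕ) (G H : Type) [Group G] [Finite G]
  [Group H] [Finite H] (u : G) (π : Cu u →* H), Qn (ℓ ^ n) u π → ∀ p q : H → ℂ, Rc ℓ p → Rc ℓ q →
  ∀ j : ℕ, j.Coprime ℓ →
    ∑ᶠ χ ∈ Irr G, Av ℓ π (u ^ j) p χ * starRingEnd ℂ (Av ℓ π (u ^ j) q χ) =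
      (ℓ : ℂ) ^ n * ipn q p ∧
    ∀ j' : ℕ, j'.Coprime ℓ → (¬ ∃ t : G, u ^ j' = t * u ^ j * t⁻¹) →
      ∑ᶠ χ ∈ Irr G, Av ℓ π (u ^ j) p χ * starRingEnd ℂ (Av ℓ π (u ^ j') q χ) = 0

/-- TAU: conjugation by an element `t` which normalises `⟨u⟩`. -/
def TauStmt : Prop := ∀ (ℓ q : ℕ) (G H : Type) [Group G] [Finite G] [Group H] [Finite H]
  (u : G) (π : Cu u →* H), Qn q u π → ∀ t : G, t * u * t⁻¹ ∈ Subgroup.zpowers u →
  ∃ τ : H ≃* H, (∀ s s' : Cu u, (s' : G) = t * s * t⁻¹ → π s' = τ (π s)) ∧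
    (∀ s : Cu u, t * (s : G) * t⁻¹ ∈ Cu u) ∧
    ∀ (w : G) (p : H → ℂ), ∀ χ ∈ Irr G,
      Av ℓ π (t * w * t⁻¹) p χ = Av ℓ π w (fun h => p (τ h)) χ

/-- PRG2: the projective character. -/
def Prg2Stmt : Prop := ∀ (ℓ : ℕ) [Fact ℓ.Prime] (M : Ideal (integralClosure ℤ ℂ)) [M.IsMaximal],
  (ℓ : integralClosure ℤ ℂ) ∈ M → ∀ (n : ℕ) (G H : Type) [Group G] [Finite G] [Group H]
  [Finite H] (u : G) (π : Cu u →* H), Qn (ℓ ^ n) u π → ∀ b : Cu u → FF M, IsIdem b →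
  ∀ w ∈ Subgroup.zpowers u, ∀ χ ∈ Irr G,
    Av ℓ π w (pr M (H75.push π b)) χ = gbv (Cu u) w (eh M b) χ

/-- PSN: the image of a block modulo a central `ℓ`-subgroup is a block. -/
def PsnStmt : Prop := ∀ (ℓ : ℕ) [Fact ℓ.Prime] (F : Type) [Field F], GoodF ℓ F → ∀ (A B : Type)
  [Group A] [Finite A] [Group B] [Finite B] (p : A →* B), Function.Surjective p →
  IsPGroup ℓ p.ker → p.ker ≤ Subgroup.center A → ∀ e : A → F, IsBlk e → IsBlk (H75.push p e)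

/-! ## 3. Groups and fusion -/

/-- INE: existence of `γ` and `T`. -/
def IneStmt : Prop := ∀ (ℓ : ℕ) [Fact ℓ.Prime] (F : Type) [Field F], GoodF ℓ F → ∀ (G : Type)
  [Group G] [Finite G] (e : G → F), IsBlk e → ∀ V : Subgroup G, Tp ℓ e V →
  (∀ a ∈ V, ∀ b ∈ V, a * b = b * a) → ∃ (γ : G → F) (T : Subgroup G), Inr ℓ e V γ T

/-- EXB: existence and uniqueness of the block `β` of `C(w)` above `γ`. -/
def ExbStmt : Prop := ∀ (ℓ : ℕ) [Fact ℓ.Prime] (F : Type) [Field F], GoodF ℓ F → ∀ (G : Type)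
  [Group G] [Finite G] (e : G → F) (V : Subgroup G) (γ : G → F) (T : Subgroup G),
  Inr ℓ e V γ T → ∀ w ∈ V, ∃ β : G → F, Ab V γ w β ∧
    mulF (fun t : Cu w => e t) (fun t : Cu w => β t) = (fun t : Cu w => β t) ∧
    Tp ℓ (fun t : Cu w => β t) (V.subgroupOf (Cu w)) ∧
    (∀ β' : G → F, Ab V γ w β' → β' = β) ∧
    ∀ t ∈ T, Ab V γ (t * w * t⁻¹) (fun x => β (t⁻¹ * x * t))

/-- INU: the situation in `C(w)`. -/
def InuStmt : Prop := ∀ (ℓ : ℕ) [Fact ℓ.Prime] (F : Type) [Field F], GoodF ℓ F → ∀ (G : Type)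
  [Group G] [Finite G] (e : G → F) (V : Subgroup G) (γ : G → F) (T : Subgroup G),
  Inr ℓ e V γ T → ∀ w ∈ V, ∀ β : G → F, Ab V γ w β →
    Inr ℓ (fun t : Cu w => β t) (V.subgroupOf (Cu w)) (fun t : Cu w => γ t)
      (T.subgroupOf (Cu w))

/-- FUS: `T` controls the fusion. -/
def FusStmt : Prop := ∀ (ℓ : ℕ) [Fact ℓ.Prime] (M : Ideal (integralClosure ℤ ℂ)) [M.IsMaximal],
  (ℓ : integralClosure ℤ ℂ) ∈ M → ∀ (G : Type) [Group G] [Finite G] (e : G → FF M)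
  (V : Subgroup G) (γ : G → FF M) (T : Subgroup G), Inr ℓ e V γ T →
  ∀ w ∈ V, ∀ w' ∈ V, ∀ β β' : G → FF M, Ab V γ w β → Ab V γ w' β' →
  ∀ g : G, w' = g * w * g⁻¹ → (∀ x, β' (g * x * g⁻¹) = β x) → ∃ c ∈ Cu w', c * g ∈ T

/-- COL: the number of columns. -/
def ColStmt : Prop := ∀ (ℓ : ℕ) [Fact ℓ.Prime] (M : Ideal (integralClosure ℤ ℂ)) [M.IsMaximal],
  (ℓ : integralClosure ℤ ℂ) ∈ M → ∀ (G : Type) [Group G] [Finite G] (e : G → FF M)
  (V : Subgroup G) (γ : G → FF M) (T : Subgroup G), Inr ℓ e V γ T →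
  ∀ (W : Set G) (L : G → ℕ), (∀ w ∈ W, w ∈ V ∧ w ≠ 1) → (∀ t ∈ T, ∀ w ∈ W, t * w * t⁻¹ ∈ W) →
  (∀ w ∈ W, ∀ β : G → FF M, Ab V γ w β → L w ≤ lb (fun t : Cu w => β t)) →
  ∑ᶠ w ∈ W, L w * (Subgroup.centralizer (V : Set G)).relIndex (T ⊓ Cu w) +
    (Subgroup.centralizer (V : Set G)).relIndex T * lb e ≤
      (Subgroup.centralizer (V : Set G)).relIndex T * (IrrE M e).ncard

/-- UEX: an invariant cyclic subgroup of order `ℓ ^ n`. -/
def UexStmt : Prop := ∀ (ℓ : ℕ) [Fact ℓ.Prime] (M : Ideal (integralClosure ℤ ℂ)) [M.IsMaximal],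
  (ℓ : integralClosure ℤ ℂ) ∈ M → ∀ (G : Type) [Group G] [Finite G] (e : G → FF M)
  (V : Subgroup G) (γ : G → FF M) (T : Subgroup G), Inr ℓ e V γ T → ∀ n : ℕ, 2 ≤ n →
  Tn ℓ n V → ∃ u ∈ V, orderOf u = ℓ ^ n ∧ ∀ t ∈ T, t * u * t⁻¹ ∈ Subgroup.zpowers u

/-- TYQ: noncyclic quotients of a group of type `(ℓ ^ n, ℓ)`. -/
def TyqStmt : Prop := ∀ (ℓ : ℕ) [Fact ℓ.Prime] (P A : Type) [Group P] [Finite P] [Group A]
  (n : ℕ), 1 ≤ n → (∀ a b : P, a * b = b * a) → Nat.card P = ℓ ^ (n + 1) →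
  (∃ u : P, orderOf u = ℓ ^ n) → ¬ IsCyclic P → ∀ p : P →* A, Function.Surjective p →
  ¬ IsCyclic A → ∃ i : ℕ, 1 ≤ i ∧ i ≤ n ∧ Nat.card A = ℓ ^ (i + 1) ∧
    (∃ a : A, orderOf a = ℓ ^ i) ∧ (∀ a b : A, a * b = b * a) ∧
    ∀ x : P, x ∈ p.ker ↔ ∃ y : P, y ^ ℓ ^ i = x

/-! ## 4. The bound -/

/-- NRM: the blocks of `N(V)`. -/
def NrmStmt : Prop := ∀ (ℓ : ℕ) [Fact ℓ.Prime] (M : Ideal (integralClosure ℤ ℂ)) [M.IsMaximal],
  (ℓ : integralClosure ℤ ℂ) ∈ M → ∀ (G : Type) [Group G] [Finite G] (e : G → FF M)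
  (V : Subgroup G) (γ : G → FF M) (T : Subgroup G), Inr ℓ e V γ T →
  (∃ t₀ ∈ T, ∀ t ∈ T, ∃ k : ℕ, t₀ ^ k * t ∈ Subgroup.centralizer (V : Set G)) →
  (Subgroup.centralizer (V : Set G)).relIndex T ≤
    lb (fun t : Subgroup.normalizer (V : Set G) => br V e t)

/-- CYC: blocks with defect groups of order `ℓ`. -/
def CycStmt : Prop := ∀ (ℓ : ℕ) [Fact ℓ.Prime] (M : Ideal (integralClosure ℤ ℂ)) [M.IsMaximal],
  (ℓ : integralClosure ℤ ℂ) ∈ M → ∀ (G : Type) [Group G] [Finite G] (e : G → FF M), IsBlk e →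
  ∀ V : Subgroup G, Tp ℓ e V → Nat.card V = ℓ →
  lb e = lb (fun t : Subgroup.normalizer (V : Set G) => br V e t)

/-- LBU: lower bound for the block of `C(u)`. -/
def LbuStmt : Prop := ∀ (ℓ : ℕ) [Fact ℓ.Prime] (M : Ideal (integralClosure ℤ ℂ)) [M.IsMaximal],
  (ℓ : integralClosure ℤ ℂ) ∈ M → ∀ (G : Type) [Group G] [Finite G] (e : G → FF M)
  (V : Subgroup G) (γ : G → FF M) (T : Subgroup G), Inr ℓ e V γ T →
  ∀ u ∈ V, Nat.card V = ℓ * orderOf u → ∀ β : G → FF M, Ab V γ u β →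
  (Subgroup.centralizer (V : Set G)).relIndex (T ⊓ Cu u) ≤ lb (fun t : Cu u => β t)

/-- DTN: the vectors of a block with a defect group of order `ℓ`. -/
def DtnStmt : Prop := ∀ (ℓ : ℕ) [Fact ℓ.Prime] (M : Ideal (integralClosure ℤ ℂ)) [M.IsMaximal],
  (ℓ : integralClosure ℤ ℂ) ∈ M → ∀ (G H : Type) [Group G] [Finite G] [Group H] [Finite H]
  (e : G → FF M) (v : G) (γ : G → FF M) (T : Subgroup G), Inr ℓ e (Subgroup.zpowers v) γ T →
  ∀ π : Cu v →* H, Qt ℓ v π → ∀ κ : H → ℂ, Rc ℓ κ →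
  IrrE M (H75.push π (fun t : Cu v => γ t)) = {κ} →
  ∀ j ∈ Finset.Ico 1 ℓ, ∀ j' ∈ Finset.Ico 1 ℓ,
    ((∃ t ∈ T, v ^ j' = t * v ^ j * t⁻¹) →
      ∀ χ ∈ Irr G, Av ℓ π (v ^ j') κ χ = Av ℓ π (v ^ j) κ χ) ∧
    ((¬ ∃ t ∈ T, v ^ j' = t * v ^ j * t⁻¹) →
      ∑ᶠ χ ∈ Irr G, Av ℓ π (v ^ j) κ χ * starRingEnd ℂ (Av ℓ π (v ^ j') κ χ) = 0)

/-- STA: the structure of the blocks with defect groups of order `ℓ`. -/
def StaStmt : Prop := ∀ (ℓ : ℕ) [Fact ℓ.Prime] (M : Ideal (integralClosure ℤ ℂ)) [M.IsMaximal],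
  (ℓ : integralClosure ℤ ℂ) ∈ M → ∀ (G : Type) [Group G] [Finite G] (e : G → FF M), IsBlk e →
  ∀ V : Subgroup G, Tp ℓ e V → Nat.card V = ℓ → ∃ m : ℕ, St M ℓ e (lb e) m

/-- BN1: the number of ordinary characters. -/
def Bn1Stmt : Prop := ∀ (ℓ : ℕ) [Fact ℓ.Prime] (M : Ideal (integralClosure ℤ ℂ)) [M.IsMaximal],
  (ℓ : integralClosure ℤ ℂ) ∈ M → ∀ (G : Type) [Group G] [Finite G] (e : G → FF M)
  (V : Subgroup G) (γ : G → FF M) (T : Subgroup G), Inr ℓ e V γ T → ∀ n : ℕ, 2 ≤ n →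
  Tn ℓ n V → ∀ u ∈ V, orderOf u = ℓ ^ n → (∀ t ∈ T, t * u * t⁻¹ ∈ Subgroup.zpowers u) →
  ∀ β : G → FF M, Ab V γ u β → ∃ m : ℕ, lb (fun t : Cu u => β t) * m + 1 = ℓ ∧
    (T ⊓ Cu u).relIndex T * (IrrE M e).ncard ≤
      ℓ * (lb (fun t : Cu u => β t) + m) * ((T ⊓ Cu u).relIndex T + (ℓ ^ (n - 1) - 1))

/-- BN2: the columns of order `ℓ ^ n`. -/
def Bn2Stmt : Prop := ∀ (ℓ : ℕ) [Fact ℓ.Prime] (M : Ideal (integralClosure ℤ ℂ)) [M.IsMaximal],
  (ℓ : integralClosure ℤ ℂ) ∈ M → ∀ (G : Type) [Group G] [Finite G] (e : G → FF M)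
  (V : Subgroup G) (γ : G → FF M) (T : Subgroup G), Inr ℓ e V γ T → ∀ n : ℕ, 2 ≤ n →
  Tn ℓ n V → ∀ u ∈ V, orderOf u = ℓ ^ n → (∀ t ∈ T, t * u * t⁻¹ ∈ Subgroup.zpowers u) →
  ∀ β : G → FF M, Ab V γ u β → ∀ m : ℕ, lb (fun t : Cu u => β t) * m + 1 = ℓ →
    ℓ ^ (n - 1) * (ℓ - 1) * (lb (fun t : Cu u => β t) + m) + (T ⊓ Cu u).relIndex T * lb e ≤
      (T ⊓ Cu u).relIndex T * (IrrE M e).ncard

/-- BND: a block with defect groups of type `(ℓ ^ n, ℓ)` has at most `ℓ ^ n` irreducible modular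
characters. -/
def BndStmt : Prop := ∀ (ℓ : ℕ) [Fact ℓ.Prime] (M : Ideal (integralClosure ℤ ℂ)) [M.IsMaximal],
  (ℓ : integralClosure ℤ ℂ) ∈ M → ∀ (G : Type) [Group G] [Finite G] (e : G → FF M), IsBlk e →
  ∀ V : Subgroup G, Tp ℓ e V → ∀ n : ℕ, 2 ≤ n → Tn ℓ n V → lb e ≤ ℓ ^ n

/-! ## 5. Chains -/

/-- REC: the smallest nontrivial member of a chain. -/
def RecStmt : Prop := ∀ (ℓ : ℕ) [Fact ℓ.Prime] (F : Type) [Field F], GoodF ℓ F → ∀ (G : Type)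
  [Group G] [Finite G] (e : G → F), IsIdem e →
  YY ℓ ⊤ e = (Nat.card G : ℤ) * lnum (⊤ : Subgroup G) e -
    ∑ᶠ (Q : Subgroup G) (_ : IsPGroup ℓ Q ∧ Q ≠ ⊥), (Nat.card Q : ℤ) * yq ℓ Q e

/-- COVN: covering blocks and good subgroups. -/
def CovnStmt : Prop := ∀ (ℓ : ℕ) [Fact ℓ.Prime] (F : Type) [Field F], GoodF ℓ F → ∀ (X : Type)
  [Group X] [Finite X] (Y : Subgroup X), Y.Normal → ∀ b : X → F, Bk Y b → ∀ e : X → F,
  IsIdem e → mulF e b ≠ 0 → ∀ Q : Subgroup X, Q ≤ Y → IsPGroup ℓ Q → Gd b Q → Gd e Q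

/-- DUG: the blocks of `C(Q)` have larger defect groups than `Q`. -/
def DugStmt : Prop := ∀ (ℓ : ℕ) [Fact ℓ.Prime] (M : Ideal (integralClosure ℤ ℂ)) [M.IsMaximal],
  (ℓ : integralClosure ℤ ℂ) ∈ M → ∀ (G : Type) [Group G] [Finite G] (e : G → FF M), IsBlk e →
  ∀ V : Subgroup G, Tp ℓ e V → (∀ a ∈ V, ∀ b ∈ V, a * b = b * a) → ∀ Q : Subgroup G,
  IsPGroup ℓ Q → (∀ a ∈ Q, ∀ b ∈ Q, a * b = b * a) → Nat.card Q < Nat.card V →
  ∀ g : G → FF M, Bk (Subgroup.centralizer (Q : Set G)) g → mulF (br Q e) g = g →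
  ∃ P : Subgroup G, IsPGroup ℓ P ∧ Q < P ∧ P ≤ Subgroup.centralizer (Q : Set G) ∧
    (∀ a ∈ P, ∀ b ∈ P, a * b = b * a) ∧ Gd g P

/-- GDV: the blocks of `C(Q)` have defect groups of order `|V|`. -/
def GdvStmt : Prop := ∀ (ℓ : ℕ) [Fact ℓ.Prime] (M : Ideal (integralClosure ℤ ℂ)) [M.IsMaximal],
  (ℓ : integralClosure ℤ ℂ) ∈ M → ∀ (G : Type) [Group G] [Finite G] (e : G → FF M), IsBlk e →
  ∀ V : Subgroup G, Tp ℓ e V → (∀ a ∈ V, ∀ b ∈ V, a * b = b * a) → ∀ Q : Subgroup G,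
  IsPGroup ℓ Q → ∀ g : G → FF M, Bk (Subgroup.centralizer (Q : Set G)) g →
  mulF (br Q e) g = g → ∃ P : Subgroup G, IsPGroup ℓ P ∧ Q ≤ P ∧
    P ≤ Subgroup.centralizer (Q : Set G) ∧ Nat.card P = Nat.card V ∧ Gd g P

/-- DUV: the blocks of `N(Q) / Q`. -/
def DuvStmt : Prop := ∀ (ℓ : ℕ) [Fact ℓ.Prime] (M : Ideal (integralClosure ℤ ℂ)) [M.IsMaximal],
  (ℓ : integralClosure ℤ ℂ) ∈ M → ∀ (G : Type) [Group G] [Finite G] (e : G → FF M), IsBlk e →
  ∀ V : Subgroup G, Tp ℓ e V → (∀ a ∈ V, ∀ b ∈ V, a * b = b * a) → ∀ Q : Subgroup G,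
  IsPGroup ℓ Q → ∀ (A : Type) [Group A] [Finite A] (p : Subgroup.normalizer (Q : Set G) →* A),
  Function.Surjective p → p.ker = Q.subgroupOf (Subgroup.normalizer (Q : Set G)) →
  ∀ f : A → FF M, IsBlk f →
  mulF (H75.push p (fun t : Subgroup.normalizer (Q : Set G) => br Q e t)) f = f →
  ∃ R : Subgroup A, Tp ℓ f R ∧ ∃ g : G, upm p R = conjS g V

/-- CHS: `ChqStmt` for idempotents whose blocks have defect groups of order `ℓ ^ 2`. -/
def ChsStmt : Prop := ∀ (ℓ : ℕ) [Fact ℓ.Prime] (M : Ideal (integralClosure ℤ ℂ)) [M.IsMaximal],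
  (ℓ : integralClosure ℤ ℂ) ∈ M → ∀ (A : Type) [Group A] [Finite A] (f : A → FF M), IsIdem f →
  (∀ c : A → FF M, IsBlk c → mulF f c = c → ∃ V : Subgroup A, Tp ℓ c V ∧ Nat.card V = ℓ ^ 2) →
  YY ℓ ⊤ f = (Nat.card A : ℤ) * lnum (⊤ : Subgroup A) f -
    ∑ᶠ (V : Subgroup A) (_ : Nat.card V = ℓ ^ 2),
      (Nat.card (Subgroup.normalizer (V : Set A)) : ℤ) *
        lnum (Subgroup.normalizer (V : Set A)) f

/-- YQZ: the terms which vanish. -/
def YqzStmt : Prop := ∀ (ℓ : ℕ) [Fact ℓ.Prime] (M : Ideal (integralClosure ℤ ℂ)) [M.IsMaximal],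
  (ℓ : integralClosure ℤ ℂ) ∈ M → ∀ n : ℕ, 2 ≤ n → (∀ i, 2 ≤ i → i < n → Awn M ℓ i) →
  ∀ (G : Type) [Group G] [Finite G] (e : G → FF M), IsBlk e → ∀ V : Subgroup G, Tp ℓ e V →
  Tn ℓ n V → ∀ Q₁ : Subgroup G, (∀ x, x ∈ Q₁ ↔ ∃ y ∈ V, y ^ ℓ = x) → ∀ Q : Subgroup G,
  IsPGroup ℓ Q → Q ≠ ⊥ → Nat.card Q ≠ Nat.card V → (¬ ∃ g : G, Q = conjS g Q₁) → yq ℓ Q e = 0

/-- YQN: the term for `Q₁`. -/
def YqnStmt : Prop := ∀ (ℓ : ℕ) [Fact ℓ.Prime] (M : Ideal (integralClosure ℤ ℂ)) [M.IsMaximal],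
  (ℓ : integralClosure ℤ ℂ) ∈ M → ∀ n : ℕ, 2 ≤ n → ∀ (G : Type) [Group G] [Finite G]
  (e : G → FF M), IsBlk e → ∀ V : Subgroup G, Tp ℓ e V → Tn ℓ n V →
  ∀ Q₁ : Subgroup G, (∀ x, x ∈ Q₁ ↔ ∃ y ∈ V, y ^ ℓ = x) →
  ∃ f : Subgroup.normalizer (Q₁ : Set G) → FF M, IsBlk f ∧
    Tp ℓ f (V.subgroupOf (Subgroup.normalizer (Q₁ : Set G))) ∧
    (Nat.card Q₁ : ℤ) * yq ℓ Q₁ e =
      (Nat.card (Subgroup.normalizer (Q₁ : Set G)) : ℤ) * ((lb f : ℤ) -
        (lb (fun t : Subgroup.normalizer (V : Set G) => br V e t) : ℤ))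

/-- YQV: the terms with `|Q| = |V|`. -/
def YqvStmt : Prop := ∀ (ℓ : ℕ) [Fact ℓ.Prime] (M : Ideal (integralClosure ℤ ℂ)) [M.IsMaximal],
  (ℓ : integralClosure ℤ ℂ) ∈ M → ∀ (G : Type) [Group G] [Finite G] (e : G → FF M), IsBlk e →
  ∀ V : Subgroup G, Tp ℓ e V → ∀ Q : Subgroup G, IsPGroup ℓ Q → Nat.card Q = Nat.card V →
  (Nat.card Q : ℤ) * yq ℓ Q e = (Nat.card (Subgroup.normalizer (Q : Set G)) : ℤ) *
    lnum (Subgroup.normalizer (Q : Set G)) e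

/-- CHN: the alternating sum is a difference of two numbers of modular characters. -/
def ChnStmt : Prop := ∀ (ℓ : ℕ) [Fact ℓ.Prime] (M : Ideal (integralClosure ℤ ℂ)) [M.IsMaximal],
  (ℓ : integralClosure ℤ ℂ) ∈ M → ∀ n : ℕ, 2 ≤ n → (∀ i, 2 ≤ i → i < n → Awn M ℓ i) →
  ∀ (G : Type) [Group G] [Finite G] (e : G → FF M), IsBlk e → ∀ V : Subgroup G, Tp ℓ e V →
  Tn ℓ n V → ∃ (X : Type) (_ : Group X) (_ : Finite X) (f : X → FF M) (V' : Subgroup X),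
    IsBlk f ∧ Tp ℓ f V' ∧ Tn ℓ n V' ∧ YY ℓ ⊤ e = (Nat.card G : ℤ) * ((lb e : ℤ) - (lb f : ℤ))

/-! ## 6. The theorem -/

/-- TDF: defect groups. -/
def TdfStmt : Prop := ∀ (ℓ : ℕ) [Fact ℓ.Prime] (M : Ideal (integralClosure ℤ ℂ)) [M.IsMaximal],
  (ℓ : integralClosure ℤ ℂ) ∈ M → ∀ (G : Type) [Group G] [Finite G] (e : G → FF M), IsBlk e →
  ∀ V : Subgroup G, Tp ℓ e V → ∀ χ ∈ Irr G, res M e χ = 1 → ML.IsDef ℓ M χ V

/-- DTF: defect groups. -/
def DtfStmt : Prop := ∀ (ℓ : ℕ) [Fact ℓ.Prime] (M : Ideal (integralClosure ℤ ℂ)) [M.IsMaximal],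
  (ℓ : integralClosure ℤ ℂ) ∈ M → ∀ (G : Type) [Group G] [Finite G] (e : G → FF M), IsBlk e →
  ∀ χ ∈ Irr G, res M e χ = 1 → ∀ D : Subgroup G, ML.IsDef ℓ M χ D → Tp ℓ e D

/-- DIV: the order of an element of the defect group divides the alternating sum. -/
def DivStmt : Prop := ∀ (ℓ : ℕ) [Fact ℓ.Prime] (M : Ideal (integralClosure ℤ ℂ)) [M.IsMaximal],
  (ℓ : integralClosure ℤ ℂ) ∈ M → ∀ (G : Type) [Group G] [Finite G], opCore ℓ G = ⊥ →
  ∀ e : G → FF M, IsBlk e → ∀ V : Subgroup G, Tp ℓ e V → (∀ a ∈ V, ∀ b ∈ V, a * b = b * a) →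
  ∀ χ ∈ Irr G, res M e χ = 1 → ∀ z ∈ V, ((orderOf z : ℕ) : ℤ) ∣ altSum ℓ M χ

/-- AWN: the alternating sum vanishes. -/
def AwnStmt : Prop := ∀ (ℓ : ℕ) [Fact ℓ.Prime] (M : Ideal (integralClosure ℤ ℂ)) [M.IsMaximal],
  (ℓ : integralClosure ℤ ℂ) ∈ M → ∀ n : ℕ, 2 ≤ n → Awn M ℓ n

/-- FIN: the final theorem. -/
def FinC2Stmt : Prop := ∀ (ℓ : ℕ) [Fact ℓ.Prime] (M : Ideal (integralClosure ℤ ℂ)) [M.IsMaximal],
  (ℓ : integralClosure ℤ ℂ) ∈ M → ∀ (G : Type) [Group G] [Finite G],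
  opCore ℓ G ≤ Subgroup.center G → ∀ χ ∈ Irr G, ∀ D : Subgroup G, ML.IsDef ℓ M χ D →
  ¬ D ≤ opCore ℓ G → (∀ a ∈ D, ∀ b ∈ D, a * b * a⁻¹ * b⁻¹ ∈ opCore ℓ G) →
  ∀ u ∈ D, (opCore ℓ G ⊔ Subgroup.zpowers u).relIndex D ≤ ℓ →
  (opCore ℓ G).relIndex D ≠ ℓ ^ 2 → altSum ℓ M χ = 0

/-- FIR: the relative form for `ℓ = 2`, `3`. -/
def FirStmt : Prop := ∀ (ℓ : ℕ) [Fact ℓ.Prime], ℓ ≤ 3 →
  ∀ (M : Ideal (integralClosure ℤ ℂ)) [M.IsMaximal],
  (ℓ : integralClosure ℤ ℂ) ∈ M → ∀ (G : Type) [Group G] [Finite G],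
  opCore ℓ G ≤ Subgroup.center G → ∀ N : Subgroup G, N.Normal →
  ∀ χ ∈ Irr G, ∀ ψ ∈ Irr N, (∑ᶠ n : N, χ n * starRingEnd ℂ (ψ n)) ≠ 0 → LargeDefect ℓ M ψ →
  (∃ (x : N) (P : Subgroup N), ¬ Cong M (omega (MonoidHom.id N) ψ x) 0 ∧
    P ≤ Subgroup.centralizer ({x} : Set N) ∧ IsPGroup ℓ P ∧
    ¬ ℓ ∣ P.relIndex (Subgroup.centralizer ({x} : Set N)) ∧
    (∀ a ∈ P, ∀ b ∈ P, a * b * a⁻¹ * b⁻¹ ∈ opCore ℓ N) ∧
    ∃ u ∈ P, (opCore ℓ N ⊔ Subgroup.zpowers u).relIndex P ≤ ℓ) →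
  altSum ℓ M χ = 0

end Pool.Agent.PP.C2
end
end -- Pool.Agent.Helper57_C2.Stmts

section -- Pool.Agent.Helper52_C2.COVN

/-!
# Squad C2, row COVN (helper52)
-/

open scoped BigOperators

noncomputable section

namespace Pool.Agent.PP.C2.H52

open Pool.Agent.Helper51_AWC Pool.Agent.Helper79_WRA Pool.Agent.PP Pool.Agent.PP.KF
open Pool.Agent.PP.K9

attribute [local instance] Ideal.Quotient.field

/-- COVN -/
theorem covn : CovnStmt := by
  classical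
  intro ℓ _ F _ hF X _ _ Y hY b hb e he hne Q hQY hQ hg
  have h : H75.Bd Y b := ⟨hY, hb.off, hb.blk⟩
  have := Fintype.ofFinite (H75.Om b)
  have hcor := (h.fam2 he).cor (H75.omk b 1)
  rw [H75.om_stab, H75.omk_one] at hcor
  have hsupp := hcor.supp
  have hid := hcor.isIdem
  -- `b` is invariant under `Y`
  have hbY : ∀ n ∈ Y, ∀ x, b (n * x * n⁻¹) = b x := by
    intro n hn x
    by_cases hx : x ∈ Y
    · exact hb.blk.1.1 ⟨x, hx⟩ ⟨n, hn⟩
    · have hx' : n * x * n⁻¹ ∉ Y := by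
        intro hc
        apply hx
        have h1 := Y.mul_mem (Y.mul_mem (Y.inv_mem hn) hc) hn
        have e1 : n⁻¹ * (n * x * n⁻¹) * n = x := by group
        rw [e1] at h1; exact h1
      rw [hb.off _ hx, hb.off _ hx']
  set T : Subgroup X := H75.st b with hT
  have hYT : Y ≤ T := by
    intro n hn
    rw [hT, H75.mem_st, H75.cj_eq_iff]
    exact hbY n hn
  let Y' : Subgroup T := Y.subgroupOf T
  have hY' : Y'.Normal := hY.subgroupOf T
  let ι : Y' ≃* Y := Subgroup.subgroupOfEquivOfLe hYT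
  let bT : T → F := fun t => b t
  have hbT : IsBlk (fun t : Y' => bT t) := H18.blk_equiv ι hb.blk
  have hbT0 : ∀ x, x ∉ Y' → bT x = 0 := fun x hx => hb.off x (fun h => hx h)
  have hbTc : IsCl bT := by
    intro x y
    have h1 : (y : X) ∈ H75.st b := y.2
    rw [H75.mem_st, H75.cj_eq_iff] at h1
    exact h1 x
  have hsb : SBlk Y' bT := ⟨hbT0, hbTc, hbT⟩
  let eT : T → F := fun t => mulF e b t
  have hbb : mulF b b = b := by
    have h1 := H75.mulF_res Y b hb.off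
    funext x
    by_cases hx : x ∈ Y
    · have h2 := congrFun h1 ⟨x, hx⟩
      have h3 : mulF b b x = mulF (fun t : Y => b t) (fun t : Y => b t) ⟨x, hx⟩ := h2
      rw [h3, hb.blk.1.2]
    · rw [hb.off _ hx]
      exact H75.mulF_supp Y hb.off hb.off x hx
  have hmul : mulF eT bT = eT := by
    have h1 := H75.mulF_res T (a := mulF e b) b hsupp
    have h2 : mulF (mulF e b) b = mulF e b := by
      apply ma_injective
      rw [ma_mul, ma_mul, mul_assoc, ← ma_mul, hbb]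
    rw [h2] at h1
    exact h1.symm
  have heT : eT ≠ 0 := by
    intro h0
    apply hne
    funext x
    by_cases hx : x ∈ T
    · exact congrFun h0 ⟨x, hx⟩
    · exact hsupp x hx
  have hQT : Q ≤ T := hQY.trans hYT
  obtain ⟨g, hgC, hgb⟩ := hg
  have hmemC : ∀ x : T, x ∈ Subgroup.centralizer ((Q.subgroupOf T : Subgroup T) : Set T) ↔
      (x : X) ∈ Subgroup.centralizer (Q : Set X) := by
    intro x
    rw [Subgroup.mem_centralizer_iff, Subgroup.mem_centralizer_iff]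
    constructor
    · intro hx q hq
      exact congrArg Subtype.val (hx ⟨q, hQT hq⟩ hq)
    · intro hx q hq
      exact Subtype.ext (hx q hq)
  have hgY : g ∈ Y := by
    by_contra hc
    exact hgb (hb.off g hc)
  obtain ⟨g', hg'C, hg'⟩ := DF.H43.covE ℓ F hF T Y' hY' bT hsb eT hid heT hmul (Q.subgroupOf T)
    (fun x hx => hQY hx) (hQ.comap_of_injective T.subtype T.subtype_injective)
    ⟨⟨g, hYT hgY⟩, (hmemC _).2 hgC, hgb⟩
  have hg2 : (g' : X) ∈ Subgroup.centralizer (Q : Set X) := (hmemC g').1 hg'C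
  have hbr := H66.br_mulF hF hQ (a := e) (b := b) (fun p _ t => he.1 t p)
    (fun p hp t => hbY p (hQY hp) t)
  by_contra hcon
  have hcon' : ∀ x ∈ Subgroup.centralizer (Q : Set X), e x = 0 := by
    intro x hx
    by_contra h0
    exact hcon ⟨x, hx, h0⟩
  have hz : PP.br Q e = 0 := by
    funext x
    by_cases hx : x ∈ Subgroup.centralizer (Q : Set X)
    · rw [H66.br_of_mem hx]; exact hcon' x hx
    · rw [H66.br_of_not_mem hx]; rfl
  apply hg'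
  change mulF e b (g' : X) = 0
  rw [← H66.br_of_mem (a := mulF e b) hg2, hbr, hz]
  unfold mulF
  simp

end Pool.Agent.PP.C2.H52
end
end -- Pool.Agent.Helper52_C2.COVN

section -- Pool.Agent.Helper81_C2.INU

/-!
# Squad C2, row INU: the situation in `C(w)`
-/

open scoped BigOperators

noncomputable section

namespace Pool.Agent.PP.C2.H81

open Pool.Agent.Helper51_AWC Pool.Agent.Helper79_WRA Pool.Agent.PP Pool.Agent.PP.KF
open Pool.Agent.PP.K9 Pool.Agent.PP.C2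

theorem inu (hEXB : ExbStmt) : InuStmt := by
  intro ℓ _ F _ hF G _ _ e V γ T hI w hw β hβ
  obtain ⟨β', -, -, htp, huniq, -⟩ := hEXB ℓ F hF G e V γ T hI w hw
  have hββ : β = β' := huniq β hβ
  rw [← hββ] at htp
  have hVC : ∀ v ∈ V, v ∈ Cu w := by
    intro v hv
    rw [Subgroup.mem_centralizer_singleton_iff]
    exact hI.comm _ hv _ hw
  have hCC : Subgroup.centralizer (V : Set G) ≤ Cu w := by
    intro x hx
    rw [Subgroup.mem_centralizer_singleton_iff]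
    exact (Subgroup.mem_centralizer_iff.1 hx w hw).symm
  have hcen : ∀ x : Cu w, x ∈ Subgroup.centralizer ((V.subgroupOf (Cu w) : Subgroup (Cu w)) :
      Set (Cu w)) ↔ (x : G) ∈ Subgroup.centralizer (V : Set G) := by
    intro x
    rw [Subgroup.mem_centralizer_iff, Subgroup.mem_centralizer_iff]
    constructor
    · intro h v hv
      exact congrArg Subtype.val (h ⟨v, hVC v hv⟩ hv)
    · intro h v hv
      exact Subtype.ext (h v hv)
  have hbr : (fun t : Cu w => br V β t) = br (V.subgroupOf (Cu w)) (fun t : Cu w => β t) := by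
    funext t
    unfold br
    by_cases ht : (t : G) ∈ Subgroup.centralizer (V : Set G)
    · rw [if_pos ht, if_pos ((hcen t).2 ht)]
    · rw [if_neg ht, if_neg (fun h => ht ((hcen t).1 h))]
  have hsup : ∀ t, t ∉ Cu w → br V β t = 0 := by
    intro t ht
    unfold br
    rw [if_neg (fun h => ht (hCC h))]
  refine ⟨hβ.bk.blk, htp, ?_, ⟨?_, ?_⟩, ?_, ?_⟩
  · intro a ha b hb
    exact Subtype.ext (hI.comm _ ha _ hb)
  · intro x hx
    exact hI.gam.off _ fun h => hx ((hcen x).2 h)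
  · let φ : Subgroup.centralizer ((V.subgroupOf (Cu w) : Subgroup (Cu w)) : Set (Cu w)) ≃*
        Subgroup.centralizer (V : Set G) :=
      { toFun := fun x => ⟨((x : Cu w) : G), (hcen _).1 x.2⟩
        invFun := fun y => ⟨⟨(y : G), hCC y.2⟩, (hcen _).2 y.2⟩
        left_inv := fun x => rfl
        right_inv := fun y => rfl
        map_mul' := fun x y => rfl }
    exact H20.IsBlk_equiv φ hI.gam.blk
  · rw [← hbr, ← H20.restr_mul (Cu w) hsup, hβ.und]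
  · ext t
    rw [Subgroup.mem_inf, Subgroup.mem_subgroupOf, hI.stb, Subgroup.mem_inf]
    apply and_congr
    · rw [Subgroup.mem_normalizer_iff, Subgroup.mem_normalizer_iff]
      constructor
      · intro h x
        exact h x
      · intro h x
        constructor
        · intro hx
          exact (h ⟨x, hVC x hx⟩).1 hx
        · intro hx
          have h1 : (t : G) * x * (t : G)⁻¹ ∈ Cu w := hVC _ hx
          have h2 : x ∈ Cu w := by
            have h3 := (Cu w).mul_mem ((Cu w).mul_mem ((Cu w).inv_mem t.2) h1) t.2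
            have h4 : (t : G)⁻¹ * ((t : G) * x * (t : G)⁻¹) * (t : G) = x := by group
            rwa [h4] at h3
          exact (h ⟨x, h2⟩).2 hx
    · constructor
      · intro h x
        exact h x
      · intro h x
        by_cases hx : x ∈ Cu w
        · exact h ⟨x, hx⟩
        · have h1 : x ∉ Subgroup.centralizer (V : Set G) := fun h => hx (hCC h)
          have h2 : (t : G) * x * (t : G)⁻¹ ∉ Subgroup.centralizer (V : Set G) := by
            intro h3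
            apply hx
            have h4 := (Cu w).mul_mem ((Cu w).mul_mem ((Cu w).inv_mem t.2) (hCC h3)) t.2
            have h5 : (t : G)⁻¹ * ((t : G) * x * (t : G)⁻¹) * (t : G) = x := by group
            rwa [h5] at h4
          rw [hI.gam.off _ h1, hI.gam.off _ h2]

end Pool.Agent.PP.C2.H81
end
end -- Pool.Agent.Helper81_C2.INU

section -- Pool.Agent.Helper25_K9.GRB

/-!
# K9, row KL_GRB: integral vectors with Gram matrix `I + e J`
-/

open scoped BigOperators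

noncomputable section

namespace Pool.Agent.PP.K9.H25

set_option linter.unusedSectionVars false

section vec

variable {ι : Type} [Fintype ι] [DecidableEq ι]

theorem sum_one (g : ι → ℤ) (hg : ∀ i, 0 ≤ g i) (p : ι) : g p ≤ ∑ i, g i :=
  Finset.single_le_sum (fun i _ => hg i) (Finset.mem_univ p)

theorem sum_two (g : ι → ℤ) (hg : ∀ i, 0 ≤ g i) {p q : ι} (h : p ≠ q) : g p + g q ≤ ∑ i, g i := by
  have h1 : ∑ i ∈ ({p, q} : Finset ι), g i = g p + g q := Finset.sum_pair h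
  rw [← h1]
  exact Finset.sum_le_sum_of_subset_of_nonneg (Finset.subset_univ _) fun i _ _ => hg i

theorem sum_three (g : ι → ℤ) (hg : ∀ i, 0 ≤ g i) {p q i : ι} (h : p ≠ q) (h1 : i ≠ p)
    (h2 : i ≠ q) : g i + (g p + g q) ≤ ∑ i, g i := by
  have h3 : ∑ x ∈ ({i, p, q} : Finset ι), g x = g i + (g p + g q) := by
    rw [Finset.sum_insert (by simp [h1, h2]), Finset.sum_pair h]
  rw [← h3]
  exact Finset.sum_le_sum_of_subset_of_nonneg (Finset.subset_univ _) fun i _ _ => hg i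

theorem sq_one_of {n : ℤ} (h : n ≠ 0) (h2 : n * n ≤ 2) : n * n = 1 := by
  have h3 : n ≤ 1 := by nlinarith
  have h4 : -1 ≤ n := by nlinarith
  have h5 : n = -1 ∨ n = 0 ∨ n = 1 := by omega
  rcases h5 with rfl | rfl | rfl
  · rfl
  · exact absurd rfl h
  · rfl

/-- an integral vector of norm one -/
theorem norm_one {f : ι → ℤ} (h : ∑ i, f i * f i = 1) :
    ∃ (r : ι) (σ : ℤ), σ * σ = 1 ∧ ∀ i, f i = if i = r then σ else 0 := by
  have hpos : ∀ i, 0 ≤ f i * f i := fun i => mul_self_nonneg _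
  obtain ⟨r, hr⟩ : ∃ r, f r ≠ 0 := by
    by_contra hcon
    push Not at hcon
    simp [hcon] at h
  have h1 : f r * f r = 1 := by
    apply sq_one_of hr
    have := sum_one (fun i => f i * f i) hpos r
    omega
  refine ⟨r, f r, h1, fun i => ?_⟩
  by_cases hi : i = r
  · rw [if_pos hi, hi]
  · rw [if_neg hi]
    have h2 := sum_two (fun i => f i * f i) hpos (Ne.symm hi)
    rw [h, h1] at h2
    have h3 : f i * f i = 0 := by
      have := hpos i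
      omega
    exact mul_self_eq_zero.1 h3

/-- an integral vector of norm two -/
theorem norm_two {d : ι → ℤ} (h : ∑ i, d i * d i = 2) :
    ∃ p q : ι, p ≠ q ∧ d p * d p = 1 ∧ d q * d q = 1 ∧ ∀ i, i ≠ p → i ≠ q → d i = 0 := by
  have hpos : ∀ i, 0 ≤ d i * d i := fun i => mul_self_nonneg _
  obtain ⟨p, hp⟩ : ∃ r, d r ≠ 0 := by
    by_contra hcon
    push Not at hcon
    simp [hcon] at h
  have h1 : ∀ r, d r ≠ 0 → d r * d r = 1 := fun r hr => by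
    apply sq_one_of hr
    have := sum_one (fun i => d i * d i) hpos r
    omega
  obtain ⟨q, hqp, hq⟩ : ∃ q, q ≠ p ∧ d q ≠ 0 := by
    by_contra hcon
    push Not at hcon
    have h2 : ∑ i, d i * d i = d p * d p :=
      Finset.sum_eq_single p (fun i _ hi => by rw [hcon i hi, mul_zero])
        (fun h => absurd (Finset.mem_univ p) h)
    rw [h, h1 p hp] at h2
    omega
  refine ⟨p, q, Ne.symm hqp, h1 p hp, h1 q hq, fun i hip hiq => ?_⟩
  have h2 := sum_three (fun i => d i * d i) hpos (Ne.symm hqp) hip hiq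
  rw [h, h1 p hp, h1 q hq] at h2
  have h3 : d i * d i = 0 := by
    have := hpos i
    omega
  exact mul_self_eq_zero.1 h3

theorem inner_two {d : ι → ℤ} {p q : ι} (hpq : p ≠ q) (h : ∀ i, i ≠ p → i ≠ q → d i = 0)
    (v : ι → ℤ) : ∑ i, d i * v i = d p * v p + d q * v q :=
  Finset.sum_eq_add p q hpq (fun i _ hi => by rw [h i hi.1 hi.2, zero_mul])
    (fun h => absurd (Finset.mem_univ p) h) (fun h => absurd (Finset.mem_univ q) h)

/-- the common vector: `D` is a family of vectors of norm two with inner products one, `c` an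
integral vector with odd inner products with all of them -/
theorem common {J : Type} (D : J → ι → ℤ) (j₀ : J)
    (h2 : ∀ j, ∑ i, D j i * D j i = 2) (h1 : ∀ j k, j ≠ k → ∑ i, D j i * D k i = 1)
    (c : ι → ℤ) (hc : ∀ j, ∑ i, c i * D j i = -1) :
    ∃ (p : ι) (s : ℤ), s * s = 1 ∧ ∀ j, D j p = s := by
  classical
  obtain ⟨p, q, hpq, hp, hq, h0⟩ := norm_two (h2 j₀)
  have hle : ∀ j i, D j i * D j i ≤ 2 := fun j i => by
    rw [← h2 j]
    exact sum_one (fun i => D j i * D j i) (fun i => mul_self_nonneg _) i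
  -- the two types
  have htype : ∀ j, j ≠ j₀ → (D j p = D j₀ p ∧ D j q = 0) ∨ (D j q = D j₀ q ∧ D j p = 0) := by
    intro j hj
    have e1 := h1 j₀ j (Ne.symm hj)
    rw [inner_two hpq h0] at e1
    have b1 := hle j p
    have b2 := hle j q
    have hp' : D j₀ p = 1 ∨ D j₀ p = -1 := mul_self_eq_one_iff.1 hp
    have hq' : D j₀ q = 1 ∨ D j₀ q = -1 := mul_self_eq_one_iff.1 hq
    have c1 : D j p ≤ 1 := by nlinarith
    have c2 : -1 ≤ D j p := by nlinarith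
    have c3 : D j q ≤ 1 := by nlinarith
    have c4 : -1 ≤ D j q := by nlinarith
    rcases hp' with hp' | hp' <;> rcases hq' with hq' | hq' <;> rw [hp', hq'] at e1 <;>
      rw [hp', hq'] <;> omega
  by_cases hA : ∀ j, j ≠ j₀ → D j p = D j₀ p
  · refine ⟨p, D j₀ p, hp, fun j => ?_⟩
    by_cases hj : j = j₀
    · rw [hj]
    · exact hA j hj
  by_cases hB : ∀ j, j ≠ j₀ → D j q = D j₀ q
  · refine ⟨q, D j₀ q, hq, fun j => ?_⟩
    by_cases hj : j = j₀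
    · rw [hj]
    · exact hB j hj
  exfalso
  push Not at hA hB
  obtain ⟨k, hk, hkp⟩ := hA
  obtain ⟨j, hj, hjq⟩ := hB
  have tk := (htype k hk).resolve_left (fun h => hkp h.1)
  have tj := (htype j hj).resolve_right (fun h => hjq h.1)
  have hjk : j ≠ k := by
    rintro rfl
    exact hkp tj.1
  -- the rest of `D j`, `D k`
  have hrest : ∀ i, i ≠ p → i ≠ q → D j i = D k i := by
    intro i hip hiq
    have e1 : ∑ i, (D j i - D k i) * (D j i - D k i) = 2 := by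
      have e2 : ∀ i, (D j i - D k i) * (D j i - D k i) =
          D j i * D j i - 2 * (D j i * D k i) + D k i * D k i := fun i => by ring
      simp only [e2]
      rw [Finset.sum_add_distrib, Finset.sum_sub_distrib, ← Finset.mul_sum, h2, h2, h1 j k hjk]
      norm_num
    have e3 := sum_three (fun i => (D j i - D k i) * (D j i - D k i))
      (fun i => mul_self_nonneg _) hpq hip hiq
    rw [e1, tj.1, tj.2, tk.1, tk.2, sub_zero, hp] at e3
    have e4 : (0 - D j₀ q) * (0 - D j₀ q) = 1 := by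
      rw [← hq]; ring
    rw [e4] at e3
    have e5 : (D j i - D k i) * (D j i - D k i) = 0 := by
      have := mul_self_nonneg (D j i - D k i)
      omega
    exact sub_eq_zero.1 (mul_self_eq_zero.1 e5)
  have heven : ∀ i, (2 : ℤ) ∣ c i * (D j₀ i + D j i + D k i) := by
    intro i
    apply Dvd.dvd.mul_left
    by_cases hip : i = p
    · rw [hip, tj.1, tk.2]
      exact ⟨D j₀ p, by ring⟩
    by_cases hiq : i = q
    · rw [hiq, tj.2, tk.1]
      exact ⟨D j₀ q, by ring⟩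
    · rw [h0 i hip hiq, hrest i hip hiq]
      exact ⟨D k i, by ring⟩
  have hsum : ∑ i, c i * (D j₀ i + D j i + D k i) = -3 := by
    have e2 : ∀ i, c i * (D j₀ i + D j i + D k i) = c i * D j₀ i + c i * D j i + c i * D k i :=
      fun i => by ring
    simp only [e2]
    rw [Finset.sum_add_distrib, Finset.sum_add_distrib, hc, hc, hc]
    norm_num
  have h3 : (2 : ℤ) ∣ -3 := by
    rw [← hsum]
    exact Finset.dvd_sum fun i _ => heven i
  omega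

end vec

theorem grb : GrbStmt := by
  intro m e hm ι _ _ b hb
  rcases Nat.lt_or_ge 1 m with hm1 | hm1
  · -- at least two vectors
    obtain ⟨z, hz⟩ : ∃ z : Fin m, z = ⟨0, hm⟩ := ⟨_, rfl⟩
    obtain ⟨D, hD⟩ : ∃ D : {j : Fin m // j ≠ z} → ι → ℤ, D = fun j i => b j.1 i - b z i := ⟨_, rfl⟩
    have hDa : ∀ j i, D j i = b j i - b z i := fun j i => by rw [hD]
    have hne : (⟨1, hm1⟩ : Fin m) ≠ z := by
      rw [hz]
      intro h
      have := congrArg Fin.val h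
      simp at this
    have h2 : ∀ j, ∑ i, D j i * D j i = 2 := by
      intro j
      have e1 : ∀ i, D j i * D j i =
          b j i * b j i - 2 * (b j i * b z i) + b z i * b z i := fun i => by rw [hDa]; ring
      simp only [e1]
      rw [Finset.sum_add_distrib, Finset.sum_sub_distrib, ← Finset.mul_sum, hb, hb, hb,
        if_pos rfl, if_pos rfl, if_neg j.2]
      ring
    have h1 : ∀ j k, j ≠ k → ∑ i, D j i * D k i = 1 := by
      intro j k hjk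
      have e1 : ∀ i, D j i * D k i =
          b j i * b k i - b j i * b z i - b z i * b k i + b z i * b z i := fun i => by
        rw [hDa, hDa]; ring
      simp only [e1]
      rw [Finset.sum_add_distrib, Finset.sum_sub_distrib, Finset.sum_sub_distrib, hb, hb, hb, hb,
        if_pos rfl, if_neg j.2, if_neg (Ne.symm k.2), if_neg (fun h => hjk (Subtype.ext h))]
      ring
    have hc : ∀ j, ∑ i, b z i * D j i = -1 := by
      intro j
      have e1 : ∀ i, b z i * D j i = b z i * b j i - b z i * b z i := fun i => by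
        rw [hDa]; ring
      simp only [e1]
      rw [Finset.sum_sub_distrib, hb, hb, if_pos rfl, if_neg (Ne.symm j.2)]
      ring
    obtain ⟨p, s, hs, hDp⟩ := common D ⟨⟨1, hm1⟩, hne⟩ h2 h1 (b z) hc
    have hsp : ∀ v : ι → ℤ, ∑ i, v i * (if i = p then s else 0) = v p * s := by
      intro v
      rw [Finset.sum_eq_single p]
      · rw [if_pos rfl]
      · intro i _ hi
        rw [if_neg hi, mul_zero]
      · intro h
        exact absurd (Finset.mem_univ p) h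
    have hf : ∀ j : {j : Fin m // j ≠ z},
        ∃ (r : ι) (σ : ℤ), σ * σ = 1 ∧ ∀ i, D j i - (if i = p then s else 0) =
          if i = r then σ else 0 := by
      intro j
      apply norm_one
      have e1 : ∀ i, (D j i - (if i = p then s else 0)) * (D j i - (if i = p then s else 0)) =
          D j i * D j i - 2 * (D j i * (if i = p then s else 0)) +
            (if i = p then s else 0) * (if i = p then s else 0) := fun i => by ring
      simp only [e1]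
      rw [Finset.sum_add_distrib, Finset.sum_sub_distrib, ← Finset.mul_sum, h2, hsp, hsp, hDp,
        if_pos rfl, hs]
      norm_num
    choose r σ hσ hr using hf
    have hrp : ∀ j, r j ≠ p := by
      intro j h
      have e1 := hr j p
      rw [if_pos rfl, hDp, sub_self, if_pos h.symm] at e1
      have e2 := hσ j
      rw [← e1] at e2
      omega
    have hDr : ∀ j i, D j i = (if i = p then s else 0) + if i = r j then σ j else 0 := by
      intro j i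
      rw [← hr j i]
      ring
    have hrr : ∀ j k, j ≠ k → r j ≠ r k := by
      intro j k hjk h
      have e1 := h1 j k hjk
      have e2 : ∀ i, D j i * D k i = D j i * (if i = p then s else 0) +
          D j i * (if i = r k then σ k else 0) := fun i => by rw [hDr k i]; ring
      simp only [e2] at e1
      rw [Finset.sum_add_distrib, hsp, hDp, hs] at e1
      have e3 : ∑ i, D j i * (if i = r k then σ k else 0) = D j (r k) * σ k := by
        rw [Finset.sum_eq_single (r k)]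
        · rw [if_pos rfl]
        · intro i _ hi
          rw [if_neg hi, mul_zero]
        · intro h
          exact absurd (Finset.mem_univ _) h
      rw [e3, hDr j (r k), if_neg (hrp k), if_pos h.symm, zero_add] at e1
      have e4 : σ j * σ k = 0 := by omega
      rcases mul_eq_zero.1 e4 with h5 | h5
      · have := hσ j
        rw [h5] at this
        omega
      · have := hσ k
        rw [h5] at this
        omega
    refine ⟨fun j => if h : j = z then p else r ⟨j, h⟩, fun j => if h : j = z then -s else σ ⟨j, h⟩,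
      -s * b z p - 1, fun i => b z i + if i = p then s else 0, ?_, ?_, ?_, ?_, ?_⟩
    · intro j k hjk
      simp only at hjk
      by_cases hj : j = z
      · by_cases hk : k = z
        · rw [hj, hk]
        · rw [dif_pos hj, dif_neg hk] at hjk
          exact absurd hjk.symm (hrp _)
      · by_cases hk : k = z
        · rw [dif_neg hj, dif_pos hk] at hjk
          exact absurd hjk (hrp _)
        · rw [dif_neg hj, dif_neg hk] at hjk
          by_contra hne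
          exact hrr ⟨j, hj⟩ ⟨k, hk⟩ (fun h => hne (congrArg Subtype.val h)) hjk
    · intro j
      by_cases hj : j = z
      · simp only [dif_pos hj]
        rw [← hs]; ring
      · simp only [dif_neg hj]
        exact hσ _
    · intro j i
      by_cases hj : j = z
      · simp only [dif_pos hj]
        rw [hj]
        by_cases hi : i = p
        · rw [if_pos hi, if_pos hi]; ring
        · rw [if_neg hi, if_neg hi]; ring
      · simp only [dif_neg hj]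
        have e1 := hDr ⟨j, hj⟩ i
        rw [hDa] at e1
        linarith
    · intro j
      by_cases hj : j = z
      · simp only [dif_pos hj, if_true]
        linear_combination (-(b z p)) * hs
      · simp only [dif_neg hj]
        rw [if_neg (hrp _), add_zero]
        have e1 := hc ⟨j, hj⟩
        have e2 : ∀ i, b z i * D ⟨j, hj⟩ i = b z i * (if i = p then s else 0) +
            b z i * (if i = r ⟨j, hj⟩ then σ ⟨j, hj⟩ else 0) := fun i => by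
          rw [hDr ⟨j, hj⟩ i]; ring
        simp only [e2] at e1
        rw [Finset.sum_add_distrib, hsp] at e1
        have e3 : ∑ i, b z i * (if i = r ⟨j, hj⟩ then σ ⟨j, hj⟩ else 0) =
            b z (r ⟨j, hj⟩) * σ ⟨j, hj⟩ := by
          rw [Finset.sum_eq_single (r ⟨j, hj⟩)]
          · rw [if_pos rfl]
          · intro i _ hi
            rw [if_neg hi, mul_zero]
          · intro h
            exact absurd (Finset.mem_univ _) h
        rw [e3] at e1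
        have e4 := hσ ⟨j, hj⟩
        linear_combination σ ⟨j, hj⟩ * e1 - b z (r ⟨j, hj⟩) * e4
    · intro h
      have h3 : (m : ℤ) ∣ 1 := ⟨-(-s * b z p - 1), by linarith⟩
      have h4 : m ∣ 1 := by exact_mod_cast h3
      have h5 := Nat.le_of_dvd one_pos h4
      omega
  · -- one vector
    obtain rfl : m = 1 := by omega
    have h0 : ∑ i, b 0 i * b 0 i = 1 + e := by
      rw [hb 0 0, if_pos rfl]
    obtain ⟨r, hr⟩ : ∃ r, b 0 r ≠ 0 := by
      by_contra hcon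
      push Not at hcon
      simp only [hcon, mul_zero, Finset.sum_const_zero] at h0
      omega
    obtain ⟨σ, hσ, hσr⟩ : ∃ σ : ℤ, σ * σ = 1 ∧ 0 < σ * b 0 r := by
      rcases lt_or_gt_of_ne hr with h | h
      · exact ⟨-1, by norm_num, by linarith⟩
      · exact ⟨1, by norm_num, by linarith⟩
    refine ⟨fun _ => r, fun _ => σ, σ * b 0 r - 1, fun i => b 0 i - if i = r then σ else 0, ?_, ?_,
      ?_, ?_, ?_⟩
    · intro j k _
      exact Subsingleton.elim _ _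
    · intro _
      exact hσ
    · intro j i
      rw [Subsingleton.elim j 0]
      ring
    · intro j
      simp only [if_true]
      linear_combination (-(b 0 r)) * hσ
    · push_cast
      intro h
      linarith

end Pool.Agent.PP.K9.H25
end
end -- Pool.Agent.Helper25_K9.GRB

section -- Pool.Agent.Helper6_K9.GRA

/-! KL, row GRA: from orthogonal vectors over `ℤ[ζ]` to integral vectors with Gram matrix
`I + e J`. -/

open scoped BigOperators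

noncomputable section

namespace Pool.Agent.PP.K9.H6

open Pool.Agent.PP.K9

/-- linear independence of the powers `ζ, …, ζ ^ (ℓ - 1)` -/
theorem li_nat (ℓ : ℕ) [hp : Fact ℓ.Prime] {ζ : ℂ} (hζ : IsPrimitiveRoot ζ ℓ) (c : ℕ → ℤ)
    (h : ∑ s : Fin (ℓ - 1), (c s : ℂ) * ζ ^ ((s : ℕ) + 1) = 0) : ∀ s : Fin (ℓ - 1), c s = 0 := by
  have hζ0 : ζ ≠ 0 := hζ.ne_zero hp.out.ne_zero
  set P : Polynomial ℚ := ∑ s : Fin (ℓ - 1), Polynomial.C (c s : ℚ) * Polynomial.X ^ (s : ℕ)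
    with hP
  have h1 : Polynomial.aeval ζ P = 0 := by
    have h2 : ζ * Polynomial.aeval ζ P = 0 := by
      rw [← h, hP, map_sum, Finset.mul_sum]
      refine Finset.sum_congr rfl fun s _ => ?_
      rw [map_mul, map_pow, Polynomial.aeval_C, Polynomial.aeval_X]
      simp only [map_intCast]
      ring
    exact (mul_eq_zero.mp h2).resolve_left hζ0
  have h3 : P = 0 := by
    by_contra hne
    have h4 := Polynomial.natDegree_le_natDegree (minpoly.degree_le_of_ne_zero ℚ ζ hne h1)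
    rw [← Polynomial.cyclotomic_eq_minpoly_rat hζ hp.out.pos, Polynomial.natDegree_cyclotomic,
      Nat.totient_prime hp.out] at h4
    have h5 : P.degree < ((ℓ - 1 : ℕ) : WithBot ℕ) := by
      rw [hP]; exact Polynomial.degree_sum_fin_lt (fun s : Fin (ℓ - 1) => (c s : ℚ))
    have h6 : P.natDegree < ℓ - 1 := by
      rwa [Polynomial.degree_eq_natDegree hne, Nat.cast_lt] at h5
    omega
  intro s
  have h7 : P.coeff s = 0 := by rw [h3]; simp
  rw [hP, Polynomial.finsetSum_coeff] at h7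
  simp only [Polynomial.coeff_C_mul, Polynomial.coeff_X_pow] at h7
  rw [Finset.sum_eq_single s] at h7
  · simpa using h7
  · intro t _ hts
    have : (s : ℕ) ≠ t := fun hh => hts (Fin.ext hh.symm)
    simp [this]
  · intro hs; exact absurd (Finset.mem_univ s) hs

section

variable {ℓ : ℕ} [hp : Fact ℓ.Prime] {ζ : ℂ}

/-- the character of `ℤ/ℓ` -/
def ch (hζ : IsPrimitiveRoot ζ ℓ) : AddChar (ZMod ℓ) ℂ := AddChar.zmodChar ℓ hζ.pow_eq_one

theorem ch_apply (hζ : IsPrimitiveRoot ζ ℓ) (x : ZMod ℓ) : ch hζ x = ζ ^ x.val := rfl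

theorem ch_nat (hζ : IsPrimitiveRoot ζ ℓ) (n : ℕ) : ch hζ (n : ZMod ℓ) = ζ ^ n :=
  AddChar.zmodChar_apply' hζ.pow_eq_one n

theorem ch_sum (hζ : IsPrimitiveRoot ζ ℓ) (z : ZMod ℓ) :
    ∑ x : ZMod ℓ, ch hζ (x * z) = if z = 0 then (ℓ : ℂ) else 0 := by
  have h := AddChar.sum_mulShift (ψ := ch hζ) z
    (AddChar.zmodChar_primitive_of_primitive_root ℓ hζ)
  rw [h, ZMod.card]
  split_ifs <;> simp

theorem ch_neg (hζ : IsPrimitiveRoot ζ ℓ) (x : ZMod ℓ) :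
    starRingEnd ℂ (ch hζ x) = ch hζ (-x) := (AddChar.map_neg_eq_conj _ x).symm

/-- sums over `ZMod ℓ` and over `range ℓ` -/
theorem sum_zmod (f : ℕ → ℂ) : ∑ x : ZMod ℓ, f x.val = ∑ s ∈ Finset.range ℓ, f s := by
  refine Finset.sum_bij (fun x _ => x.val) ?_ ?_ ?_ ?_
  · intro x _; exact Finset.mem_range.mpr (ZMod.val_lt x)
  · intro x _ y _ h; exact ZMod.val_injective ℓ h
  · intro s hs
    exact ⟨(s : ZMod ℓ), Finset.mem_univ _, ZMod.val_cast_of_lt (Finset.mem_range.mp hs)⟩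
  · intro x _; rfl

/-- linear independence over `ZMod ℓ` -/
theorem li (hζ : IsPrimitiveRoot ζ ℓ) (c : ZMod ℓ → ℤ) (h0 : c 0 = 0)
    (h : ∑ x : ZMod ℓ, (c x : ℂ) * ch hζ x = 0) : ∀ x, c x = 0 := by
  have hl : 1 ≤ ℓ := hp.out.one_lt.le
  have h1 : ∑ s : Fin (ℓ - 1), ((c ((((s : ℕ) + 1 : ℕ)) : ZMod ℓ) : ℤ) : ℂ) * ζ ^ ((s : ℕ) + 1)
      = 0 := by
    have h2 : ∑ x : ZMod ℓ, (c x : ℂ) * ch hζ x
        = ∑ s ∈ Finset.range ℓ, ((c (s : ZMod ℓ) : ℤ) : ℂ) * ζ ^ s := by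
      rw [← sum_zmod (ℓ := ℓ) (fun s => ((c (s : ZMod ℓ) : ℤ) : ℂ) * ζ ^ s)]
      refine Finset.sum_congr rfl fun x _ => ?_
      rw [ZMod.natCast_zmod_val, ch_apply]
    obtain ⟨k, rfl⟩ : ∃ k, ℓ = k + 1 := ⟨ℓ - 1, by omega⟩
    rw [h2, Finset.sum_range_succ'] at h
    simp only [Nat.cast_zero, h0, Int.cast_zero, zero_mul, add_zero] at h
    rw [← h]
    exact (Finset.sum_range (fun s => ((c (((s + 1 : ℕ)) : ZMod (k + 1)) : ℤ) : ℂ) *
      ζ ^ (s + 1))).symm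
  have h3 := li_nat ℓ hζ (fun s => c (((s + 1 : ℕ)) : ZMod ℓ)) h1
  intro x
  by_cases hx : x = 0
  · rw [hx, h0]
  · have hv : x.val ≠ 0 := fun hh => hx ((ZMod.val_eq_zero x).mp hh)
    have hlt := ZMod.val_lt x
    have h4 := h3 ⟨x.val - 1, by omega⟩
    have h5 : ((x.val - 1 + 1 : ℕ) : ZMod ℓ) = x := by
      rw [Nat.sub_add_cancel (by omega), ZMod.natCast_zmod_val]
    simpa only [h5] using h4

/-- sums over the units -/
theorem ch_units (hζ : IsPrimitiveRoot ζ ℓ) (z : ZMod ℓ) :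
    ∑ u : (ZMod ℓ)ˣ, ch hζ ((u : ZMod ℓ) * z) = (if z = 0 then (ℓ : ℂ) else 0) - 1 := by
  classical
  have h := ch_sum hζ z
  rw [← h, ← Finset.add_sum_erase Finset.univ _ (Finset.mem_univ (0 : ZMod ℓ)), zero_mul,
    AddChar.map_zero_eq_one, add_sub_cancel_left]
  refine Finset.sum_bij (fun u _ => (u : ZMod ℓ)) ?_ ?_ ?_ ?_
  · intro u _; exact Finset.mem_erase.mpr ⟨u.ne_zero, Finset.mem_univ _⟩
  · intro u _ v _ huv; exact Units.ext huv
  · intro x hx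
    exact ⟨Units.mk0 x (Finset.ne_of_mem_erase hx), Finset.mem_univ _, rfl⟩
  · intro u _; rfl

variable {ι : Type}

/-- the subgroup of the multipliers -/
def SS (N : ZMod ℓ → ι → ℤ) : Subgroup (ZMod ℓ)ˣ where
  carrier := {b | ∀ x i, N ((b : ZMod ℓ) * x) i = N x i}
  mul_mem' := by
    intro a b ha hb x i
    change ∀ x i, N ((a : ZMod ℓ) * x) i = N x i at ha
    change ∀ x i, N ((b : ZMod ℓ) * x) i = N x i at hb
    rw [Units.val_mul, mul_assoc, ha, hb]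
  one_mem' := by intro x i; simp
  inv_mem' := by
    intro a ha x i
    change ∀ x i, N ((a : ZMod ℓ) * x) i = N x i at ha
    rw [← ha, Units.mul_inv_cancel_left]

/-- the Fourier transform -/
def DD (hζ : IsPrimitiveRoot ζ ℓ) (N : ZMod ℓ → ι → ℤ) (j : ZMod ℓ) (i : ι) : ℂ :=
  ∑ x : ZMod ℓ, (N x i : ℂ) * ch hζ (x * j)

theorem dd_scale (hζ : IsPrimitiveRoot ζ ℓ) (N : ZMod ℓ → ι → ℤ) (b u : (ZMod ℓ)ˣ) (i : ι) :
    DD hζ N ((b : ZMod ℓ) * u) i = ∑ x : ZMod ℓ, (N ((b⁻¹ : (ZMod ℓ)ˣ) * x) i : ℂ) *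
      ch hζ (x * u) := by
  unfold DD
  refine (Equiv.sum_comp (Units.mulLeft (b⁻¹)) _).symm.trans ?_
  refine Finset.sum_congr rfl fun x _ => ?_
  simp only [Units.mulLeft_apply]
  congr 2
  rw [show ((b⁻¹ : (ZMod ℓ)ˣ) : ZMod ℓ) * x * ((b : ZMod ℓ) * u)
    = (((b⁻¹ : (ZMod ℓ)ˣ) : ZMod ℓ) * b) * (x * u) by ring, Units.inv_mul, one_mul]

theorem dd_mem (hζ : IsPrimitiveRoot ζ ℓ) (N : ZMod ℓ → ι → ℤ) (b u : (ZMod ℓ)ˣ)
    (hb : b ∈ SS N) (i : ι) : DD hζ N ((b : ZMod ℓ) * u) i = DD hζ N u i := by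
  rw [dd_scale]
  refine Finset.sum_congr rfl fun x _ => ?_
  rw [(SS N).inv_mem hb x i]

theorem mem_dd (hζ : IsPrimitiveRoot ζ ℓ) (N : ZMod ℓ → ι → ℤ) (hN : ∀ i, N 0 i = 0)
    (b u : (ZMod ℓ)ˣ) (h : ∀ i, DD hζ N ((b : ZMod ℓ) * u) i = DD hζ N u i) : b ∈ SS N := by
  have hinv : b⁻¹ ∈ SS N := by
    intro x i
    -- the difference
    have h1 : ∑ y : ZMod ℓ, ((N ((b⁻¹ : (ZMod ℓ)ˣ) * ((u⁻¹ : (ZMod ℓ)ˣ) * y)) i
        - N ((u⁻¹ : (ZMod ℓ)ˣ) * y) i : ℤ) : ℂ) * ch hζ y = 0 := by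
      have h2 := h i
      rw [dd_scale] at h2
      unfold DD at h2
      have e1 : ∑ x : ZMod ℓ, (N ((b⁻¹ : (ZMod ℓ)ˣ) * x) i : ℂ) * ch hζ (x * u)
          = ∑ y : ZMod ℓ, (N ((b⁻¹ : (ZMod ℓ)ˣ) * ((u⁻¹ : (ZMod ℓ)ˣ) * y)) i : ℂ) * ch hζ y := by
        refine (Equiv.sum_comp (Units.mulLeft (u⁻¹)) _).symm.trans ?_
        refine Finset.sum_congr rfl fun y _ => ?_
        simp only [Units.mulLeft_apply]
        rw [show ((u⁻¹ : (ZMod ℓ)ˣ) : ZMod ℓ) * y * (u : ZMod ℓ)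
          = (((u⁻¹ : (ZMod ℓ)ˣ) : ZMod ℓ) * u) * y by ring, Units.inv_mul, one_mul]
      have e2 : ∑ x : ZMod ℓ, (N x i : ℂ) * ch hζ (x * u)
          = ∑ y : ZMod ℓ, (N ((u⁻¹ : (ZMod ℓ)ˣ) * y) i : ℂ) * ch hζ y := by
        refine (Equiv.sum_comp (Units.mulLeft (u⁻¹)) _).symm.trans ?_
        refine Finset.sum_congr rfl fun y _ => ?_
        simp only [Units.mulLeft_apply]
        rw [show ((u⁻¹ : (ZMod ℓ)ˣ) : ZMod ℓ) * y * (u : ZMod ℓ)
          = (((u⁻¹ : (ZMod ℓ)ˣ) : ZMod ℓ) * u) * y by ring, Units.inv_mul, one_mul]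
      rw [e1, e2] at h2
      rw [← sub_eq_zero, ← Finset.sum_sub_distrib] at h2
      rw [← h2]
      refine Finset.sum_congr rfl fun y _ => ?_
      push_cast
      ring
    have h3 := li hζ (fun y => N ((b⁻¹ : (ZMod ℓ)ˣ) * ((u⁻¹ : (ZMod ℓ)ˣ) * y)) i
        - N ((u⁻¹ : (ZMod ℓ)ˣ) * y) i) (by simp only [mul_zero, hN, sub_self]) h1
          ((u : ZMod ℓ) * x)
    simp only [Units.inv_mul_cancel_left] at h3
    linarith
  simpa using (SS N).inv_mem hinv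

/-- inversion -/
theorem inv_dd (hζ : IsPrimitiveRoot ζ ℓ) (N : ZMod ℓ → ι → ℤ) (hN : ∀ i, N 0 i = 0)
    (x : ZMod ℓ) (i : ι) : (ℓ : ℂ) * N x i
      = ∑ j : (ZMod ℓ)ˣ, (ch hζ (-((j : ZMod ℓ) * x)) - 1) * DD hζ N j i := by
  have h1 : ∀ y : ZMod ℓ, ∑ j : (ZMod ℓ)ˣ, (ch hζ (-((j : ZMod ℓ) * x)) - 1) *
      ((N y i : ℂ) * ch hζ (y * j))
      = (N y i : ℂ) * ((if y - x = 0 then (ℓ : ℂ) else 0) - (if y = 0 then (ℓ : ℂ) else 0)) := by
    intro y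
    have e1 := ch_units hζ (y - x)
    have e2 := ch_units hζ y
    rw [show ((if y - x = 0 then (ℓ : ℂ) else 0) - (if y = 0 then (ℓ : ℂ) else 0))
      = ((if y - x = 0 then (ℓ : ℂ) else 0) - 1) - ((if y = 0 then (ℓ : ℂ) else 0) - 1) by ring,
      ← e1, ← e2, ← Finset.sum_sub_distrib, Finset.mul_sum]
    refine Finset.sum_congr rfl fun j _ => ?_
    have e3 : ch hζ ((j : ZMod ℓ) * (y - x)) = ch hζ (-((j : ZMod ℓ) * x)) * ch hζ (y * j) := by
      rw [← AddChar.map_add_eq_mul]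
      congr 1
      ring
    rw [e3, mul_comm (j : ZMod ℓ) y]
    ring
  unfold DD
  simp only [Finset.mul_sum]
  rw [Finset.sum_comm]
  simp only [h1, sub_eq_zero]
  have h2 : ∑ y : ZMod ℓ, (N y i : ℂ) * ((if y = x then (ℓ : ℂ) else 0)
      - (if y = 0 then (ℓ : ℂ) else 0)) = (N x i : ℂ) * ℓ - (N 0 i : ℂ) * ℓ := by
    simp [mul_sub, Finset.sum_sub_distrib]
  rw [h2, hN]
  push_cast
  ring

/-- the Gram matrix -/
theorem gram (hζ : IsPrimitiveRoot ζ ℓ) [Fintype ι] (N : ZMod ℓ → ι → ℤ) (hN : ∀ i, N 0 i = 0)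
    [DecidablePred (· ∈ SS N)]
    (hD : ∀ b u : (ZMod ℓ)ˣ, ∑ i, DD hζ N u i * starRingEnd ℂ (DD hζ N ((b : ZMod ℓ) * u) i)
      = if b ∈ SS N then (ℓ : ℂ) else 0) (x y : (ZMod ℓ)ˣ) :
    ∑ i, N x i * N y i = (if x * y⁻¹ ∈ SS N then 1 else 0) + (Nat.card (SS N) : ℤ) := by
  classical
  have hl : (ℓ : ℂ) ≠ 0 := Nat.cast_ne_zero.mpr hp.out.ne_zero
  have hconj : ∀ z : ZMod ℓ, ∀ i, (ℓ : ℂ) * N z i
      = ∑ j : (ZMod ℓ)ˣ, (ch hζ ((j : ZMod ℓ) * z) - 1) * starRingEnd ℂ (DD hζ N j i) := by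
    intro z i
    have h := congrArg (starRingEnd ℂ) (inv_dd hζ N hN z i)
    simp only [map_mul, map_natCast, map_intCast, map_sum, map_sub, map_one, ch_neg,
      neg_neg] at h
    exact h
  have h1 : (ℓ : ℂ) * ((ℓ : ℂ) * ∑ i, (N x i : ℂ) * N y i)
      = ∑ j : (ZMod ℓ)ˣ, ∑ b : (ZMod ℓ)ˣ, (ch hζ (-((j : ZMod ℓ) * x)) - 1) *
        (ch hζ ((b : ZMod ℓ) * j * y) - 1) * (if b ∈ SS N then (ℓ : ℂ) else 0) := by
    have h2 : (ℓ : ℂ) * ((ℓ : ℂ) * ∑ i, (N x i : ℂ) * N y i)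
        = ∑ i, ((ℓ : ℂ) * N x i) * ((ℓ : ℂ) * N y i) := by
      rw [Finset.mul_sum, Finset.mul_sum]
      exact Finset.sum_congr rfl fun i _ => by ring
    rw [h2]
    have h3 : ∀ i, ((ℓ : ℂ) * N x i) * ((ℓ : ℂ) * N y i)
        = ∑ j : (ZMod ℓ)ˣ, ∑ b : (ZMod ℓ)ˣ, (ch hζ (-((j : ZMod ℓ) * x)) - 1) *
          (ch hζ ((b : ZMod ℓ) * j * y) - 1) *
          (DD hζ N j i * starRingEnd ℂ (DD hζ N ((b : ZMod ℓ) * j) i)) := by
      intro i
      rw [inv_dd hζ N hN x i, hconj y i, Finset.sum_mul]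
      refine Finset.sum_congr rfl fun j _ => ?_
      rw [Finset.mul_sum]
      refine (Equiv.sum_comp (Equiv.mulRight j) _).symm.trans ?_
      refine Finset.sum_congr rfl fun b _ => ?_
      simp only [Equiv.coe_mulRight, Units.val_mul]
      ring
    rw [Finset.sum_congr rfl fun i _ => h3 i, Finset.sum_comm]
    refine Finset.sum_congr rfl fun j _ => ?_
    rw [Finset.sum_comm]
    refine Finset.sum_congr rfl fun b _ => ?_
    rw [← Finset.mul_sum, hD b j]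
  have h4 : ∀ b : (ZMod ℓ)ˣ, ∑ j : (ZMod ℓ)ˣ, (ch hζ (-((j : ZMod ℓ) * x)) - 1) *
      (ch hζ ((b : ZMod ℓ) * j * y) - 1) = (if b * y = x then (ℓ : ℂ) else 0) + ℓ := by
    intro b
    have e1 := ch_units hζ ((b : ZMod ℓ) * y - x)
    have e2 := ch_units hζ (-(x : ZMod ℓ))
    have e3 := ch_units hζ ((b : ZMod ℓ) * y)
    rw [if_neg (neg_ne_zero.mpr x.ne_zero)] at e2
    rw [if_neg (mul_ne_zero b.ne_zero y.ne_zero)] at e3
    have e0 : ∑ j : (ZMod ℓ)ˣ, (1 : ℂ) = ℓ - 1 := by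
      rw [Finset.sum_const, Finset.card_univ, ZMod.card_units_eq_totient,
        Nat.totient_prime hp.out, nsmul_eq_mul, mul_one, Nat.cast_sub hp.out.one_lt.le,
        Nat.cast_one]
    have e5 : (if (b : ZMod ℓ) * y - x = 0 then (ℓ : ℂ) else 0)
        = (if b * y = x then (ℓ : ℂ) else 0) := by
      by_cases hb : b * y = x
      · rw [if_pos hb, if_pos]
        rw [← hb]; simp
      · rw [if_neg hb, if_neg]
        intro hh
        exact hb (Units.ext (by simpa using sub_eq_zero.mp hh))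
    rw [e5] at e1
    have e6 : ∀ j : (ZMod ℓ)ˣ, (ch hζ (-((j : ZMod ℓ) * x)) - 1) *
        (ch hζ ((b : ZMod ℓ) * j * y) - 1) = ch hζ ((j : ZMod ℓ) * ((b : ZMod ℓ) * y - x))
          - ch hζ ((j : ZMod ℓ) * (-(x : ZMod ℓ))) - ch hζ ((j : ZMod ℓ) * ((b : ZMod ℓ) * y))
          + 1 := by
      intro j
      have e7 : ch hζ ((j : ZMod ℓ) * ((b : ZMod ℓ) * y - x))
          = ch hζ (-((j : ZMod ℓ) * x)) * ch hζ ((b : ZMod ℓ) * j * y) := by
        rw [← AddChar.map_add_eq_mul]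
        congr 1
        ring
      rw [e7, show (j : ZMod ℓ) * (-(x : ZMod ℓ)) = -((j : ZMod ℓ) * x) by ring,
        show (j : ZMod ℓ) * ((b : ZMod ℓ) * y) = (b : ZMod ℓ) * j * y by ring]
      ring
    rw [Finset.sum_congr rfl fun j _ => e6 j, Finset.sum_add_distrib, Finset.sum_sub_distrib,
      Finset.sum_sub_distrib, e1, e2, e3, e0]
    ring
  have h5 : (ℓ : ℂ) * ((ℓ : ℂ) * ∑ i, (N x i : ℂ) * N y i)
      = (ℓ : ℂ) * ((ℓ : ℂ) * ((if x * y⁻¹ ∈ SS N then 1 else 0) + (Nat.card (SS N) : ℂ))) := by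
    rw [h1, Finset.sum_comm]
    have h6 : ∀ b : (ZMod ℓ)ˣ, ∑ j : (ZMod ℓ)ˣ, (ch hζ (-((j : ZMod ℓ) * x)) - 1) *
        (ch hζ ((b : ZMod ℓ) * j * y) - 1) * (if b ∈ SS N then (ℓ : ℂ) else 0)
        = (ℓ : ℂ) * (ℓ : ℂ) * ((if b = x * y⁻¹ then (if x * y⁻¹ ∈ SS N then 1 else 0) else 0)
          + (if b ∈ SS N then 1 else 0)) := by
      intro b
      rw [← Finset.sum_mul, h4 b]
      by_cases hb : b = x * y⁻¹
      · have hb' : b * y = x := by rw [hb]; simp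
        rw [if_pos hb', if_pos hb, ← hb]
        by_cases hm : b ∈ SS N <;> simp [hm]
        ring
      · have hb' : b * y ≠ x := fun hh => hb (by rw [← hh]; simp)
        rw [if_neg hb', if_neg hb]
        by_cases hm : b ∈ SS N <;> simp [hm]
    rw [Finset.sum_congr rfl fun b _ => h6 b, ← Finset.mul_sum, Finset.sum_add_distrib,
      Finset.sum_ite_eq' Finset.univ, if_pos (Finset.mem_univ _), mul_assoc]
    congr 3
    rw [Finset.sum_boole, Nat.card_eq_fintype_card, Fintype.card_subtype]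
  have h7 := mul_left_cancel₀ hl (mul_left_cancel₀ hl h5)
  have h8 : ((∑ i, N x i * N y i : ℤ) : ℂ)
      = (((if x * y⁻¹ ∈ SS N then 1 else 0) + (Nat.card (SS N) : ℤ) : ℤ) : ℂ) := by
    push_cast
    rw [h7]
  exact_mod_cast h8

end

/-- GRA -/
theorem gra : GraStmt := by
  intro ℓ hp ι _ ζ hζ a deg δ hδ h1 h2
  classical
  have hpos := hp.out.pos
  set N : ZMod ℓ → ι → ℤ := fun x i => a i x.val - a i 0 with hNdef
  have hN : ∀ i, N 0 i = 0 := by intro i; simp [hNdef, ZMod.val_zero]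
  have hD : ∀ (j : (ZMod ℓ)ˣ) (i : ι), DD hζ N j i = δ (j : ZMod ℓ).val i := by
    intro j i
    have e1 : ∑ x : ZMod ℓ, ch hζ (x * (j : ZMod ℓ)) = 0 := by
      rw [ch_sum, if_neg j.ne_zero]
    have e2 : ∀ x : ZMod ℓ, ch hζ (x * (j : ZMod ℓ)) = ζ ^ (x.val * (j : ZMod ℓ).val) := by
      intro x
      rw [← ch_nat hζ (x.val * (j : ZMod ℓ).val), Nat.cast_mul, ZMod.natCast_zmod_val,
        ZMod.natCast_zmod_val]
    rw [hδ, ← sum_zmod (ℓ := ℓ) (fun s => (a i s : ℂ) * ζ ^ (s * (j : ZMod ℓ).val))]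
    have e3 : DD hζ N j i = ∑ x : ZMod ℓ, (a i x.val : ℂ) * ch hζ (x * (j : ZMod ℓ))
        - (a i 0 : ℂ) * ∑ x : ZMod ℓ, ch hζ (x * (j : ZMod ℓ)) := by
      unfold DD
      rw [Finset.mul_sum, ← Finset.sum_sub_distrib]
      refine Finset.sum_congr rfl fun x _ => ?_
      rw [hNdef]
      push_cast
      ring
    rw [e3, e1, mul_zero, sub_zero]
    exact Finset.sum_congr rfl fun x _ => by rw [e2]
  have hval : ∀ u : (ZMod ℓ)ˣ, (u : ZMod ℓ).val ∈ Finset.Ico 1 ℓ := by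
    intro u
    refine Finset.mem_Ico.mpr ⟨?_, ZMod.val_lt _⟩
    have : (u : ZMod ℓ).val ≠ 0 := fun hh => u.ne_zero ((ZMod.val_eq_zero _).mp hh)
    omega
  have hO : ∀ b u : (ZMod ℓ)ˣ, ∑ i, DD hζ N u i *
      starRingEnd ℂ (DD hζ N ((b : ZMod ℓ) * u) i) = if b ∈ SS N then (ℓ : ℂ) else 0 := by
    intro b u
    by_cases hb : b ∈ SS N
    · rw [if_pos hb, ← (h1 _ (hval u)).2.1]
      refine Finset.sum_congr rfl fun i _ => ?_
      rw [dd_mem hζ N b u hb, hD]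
    · rw [if_neg hb]
      have e1 : ∀ i, DD hζ N ((b : ZMod ℓ) * u) i = δ ((b * u : (ZMod ℓ)ˣ) : ZMod ℓ).val i := by
        intro i
        rw [← hD, Units.val_mul]
      rcases h2 _ (hval u) _ (hval (b * u)) with h | h
      · exact absurd (mem_dd hζ N hN b u (fun i => by rw [e1, ← h i, hD])) hb
      · rw [← h]
        exact Finset.sum_congr rfl fun i _ => by rw [e1, hD]
  have hG := gram hζ N hN hO
  -- the classes
  have hfin : Finite ((ZMod ℓ)ˣ ⧸ SS N) := inferInstance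
  set q : ((ZMod ℓ)ˣ ⧸ SS N) ≃ Fin (Nat.card ((ZMod ℓ)ˣ ⧸ SS N)) := Finite.equivFin _ with hq
  have hout : ∀ (u : (ZMod ℓ)ˣ) (i : ι),
      N (((QuotientGroup.mk u : (ZMod ℓ)ˣ ⧸ SS N).out : (ZMod ℓ)ˣ) : ZMod ℓ) i
        = N (u : ZMod ℓ) i := by
    intro u i
    obtain ⟨s, hs⟩ := QuotientGroup.mk_out_eq_mul (SS N) u
    rw [hs, Units.val_mul, mul_comm]
    exact s.2 _ _
  have hcard : Nat.card (ZMod ℓ)ˣ = ℓ - 1 := by
    rw [Nat.card_eq_fintype_card, ZMod.card_units_eq_totient, Nat.totient_prime hp.out]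
  -- not all zero
  have hne : ∀ i, ∃ u : (ZMod ℓ)ˣ, N (u : ZMod ℓ) i ≠ 0 := by
    intro i
    by_contra hcon
    push Not at hcon
    have h3 : DD hζ N ((1 : (ZMod ℓ)ˣ) : ZMod ℓ) i = 0 := by
      unfold DD
      refine Finset.sum_eq_zero fun x _ => ?_
      have h4 : N x i = 0 := by
        by_cases hx : x = 0
        · rw [hx, hN]
        · exact hcon (Units.mk0 x hx)
      rw [h4]
      push_cast
      ring
    rw [hD] at h3
    exact (h1 _ (hval 1)).1 i h3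
  -- degrees
  have hdeg : ∀ x : ZMod ℓ, ∑ i, N x i * deg i = 0 := by
    refine li hζ (fun x => ∑ i, N x i * deg i) (by simp [hN]) ?_
    have h3 := (h1 _ (hval 1)).2.2
    have h4 : ∑ x : ZMod ℓ, ((∑ i, N x i * deg i : ℤ) : ℂ) * ch hζ x
        = ∑ i, δ ((1 : (ZMod ℓ)ˣ) : ZMod ℓ).val i * deg i := by
      have h5 : ∀ i, δ ((1 : (ZMod ℓ)ˣ) : ZMod ℓ).val i * (deg i : ℂ)
          = ∑ x : ZMod ℓ, (N x i : ℂ) * deg i * ch hζ x := by
        intro i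
        rw [← hD]
        unfold DD
        rw [Finset.sum_mul]
        refine Finset.sum_congr rfl fun x _ => ?_
        rw [Units.val_one, mul_one]
        ring
      rw [Finset.sum_congr rfl fun i _ => h5 i, Finset.sum_comm]
      refine Finset.sum_congr rfl fun x _ => ?_
      push_cast
      rw [Finset.sum_mul]
    rw [h4, h3]
  refine ⟨Nat.card ((ZMod ℓ)ˣ ⧸ SS N), Nat.card (SS N),
    fun j i => N (((q.symm j).out : (ZMod ℓ)ˣ) : ZMod ℓ) i,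
    fun s => if h : (s : ZMod ℓ) ≠ 0 then
      q (QuotientGroup.mk (Units.mk0 (s : ZMod ℓ) h)) else q (QuotientGroup.mk 1),
    Nat.card_pos, ?_, ?_, ?_, ?_, ?_⟩
  · rw [← hcard]
    exact (Subgroup.card_eq_card_quotient_mul_card_subgroup (SS N)).symm
  · intro s hs i
    obtain ⟨hs1, hs2⟩ := Finset.mem_Ico.mp hs
    have hv : ((s : ZMod ℓ)).val = s := ZMod.val_cast_of_lt hs2
    have hs0 : (s : ZMod ℓ) ≠ 0 := by
      intro hh
      rw [hh, ZMod.val_zero] at hv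
      omega
    simp only [hs0, ne_eq, not_false_eq_true, dif_pos, Equiv.symm_apply_apply]
    rw [hout, Units.val_mk0, hNdef]
    simp only [hv]
  · intro j j'
    rw [hG]
    congr 1
    have h3 : (((q.symm j).out : (ZMod ℓ)ˣ) * ((q.symm j').out : (ZMod ℓ)ˣ)⁻¹ ∈ SS N) ↔ j = j' := by
      rw [← (q.symm).injective.eq_iff]
      conv_rhs => rw [← QuotientGroup.out_eq' (q.symm j), ← QuotientGroup.out_eq' (q.symm j')]
      rw [QuotientGroup.eq, ← (SS N).inv_mem_iff, mul_inv_rev, inv_inv, mul_comm]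
    by_cases hj : j = j'
    · rw [if_pos hj, if_pos (h3.mpr hj)]
    · rw [if_neg hj, if_neg (fun hh => hj (h3.mp hh))]
  · intro i
    obtain ⟨u, hu⟩ := hne i
    refine ⟨q (QuotientGroup.mk u), ?_⟩
    simp only [Equiv.symm_apply_apply]
    rw [hout]
    exact hu
  · intro j
    exact hdeg _

end Pool.Agent.PP.K9.H6
end
end -- Pool.Agent.Helper6_K9.GRA
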