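import Pool.Agent.Helper12_AWB.B047
import Pool.Agent.Helper50_PP.Dic
import Pool.Agent.Helper57_K9.Stmts

/-!
# Merged copies (generated) of the modules

* `Pool.Agent.Helper55_KF.Fm4`
* `Pool.Agent.Helper34_K9.INX`
-/

set_option autoImplicit false

section -- Pool.Agent.Helper55_KF.Fm4

/-!
# AWC, part KF, module FM4: the first main theorem for Klein four defect groups
-/

open scoped BigOperators Pointwise

noncomputable section

namespace Pool.Agent.PP.KF.H55

open Pool.Agent.Helper51_AWC Pool.Agent.Helper79_WRA Pool.Agent.PP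

attribute [local instance] Ideal.Quotient.field

section group

variable {K : Type} [Group K]

theorem v4_card {Q : Type} [Group Q] (h : V4 Q) : Nat.card Q ≤ 4 := by
  obtain ⟨j, hj⟩ := h
  have h1 := Nat.card_le_card_of_injective j hj
  have h2 : Nat.card (Multiplicative (ZMod 2) × Multiplicative (ZMod 2)) = 4 := by
    rw [Nat.card_prod, Nat.card_congr Multiplicative.toAdd, Nat.card_zmod]
  rwa [h2] at h1

theorem subCl_v4 : DF.SubCl V4 := by
  intro Q R _ _ j hj h
  obtain ⟨k, hk⟩ := h
  exact ⟨k.comp j, hk.comp hj⟩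

theorem isP4 {V : Subgroup K} (hV : Nat.card V = 4) : IsPGroup 2 V :=
  IsPGroup.of_card (n := 2) (by rw [hV]; rfl)

theorem card_conj4 (g : K) (P : Subgroup K) : Nat.card (conjS g P) = Nat.card P :=
  (Nat.card_congr (P.equivMapOfInjective (MulAut.conj g).toMonoidHom
    (MulAut.conj g).injective).toEquiv).symm

/-- two subgroups of order four of the centraliser of `y` are conjugate there if `8` does not
divide its order -/
theorem conj_four [Finite K] {y : K}
    (h8 : ¬ 8 ∣ Nat.card (Subgroup.centralizer ({y} : Set K))) {V W : Subgroup K}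
    (hV : V ≤ Subgroup.centralizer ({y} : Set K)) (hW : W ≤ Subgroup.centralizer ({y} : Set K))
    (cV : Nat.card V = 4) (cW : Nat.card W = 4) :
    ∃ c ∈ Subgroup.centralizer ({y} : Set K), W = conjS c V := by
  have hfact : Fact (Nat.Prime 2) := ⟨Nat.prime_two⟩
  set C := Subgroup.centralizer ({y} : Set K) with hC
  have key : ∀ U : Subgroup K, U ≤ C → Nat.card U = 4 →
      IsPGroup 2 (U.subgroupOf C) ∧ ¬ 2 ∣ (U.subgroupOf C).index := by
    intro U hU cU
    have h1 : Nat.card (U.subgroupOf C) = 4 := by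
      rw [Nat.card_congr (Subgroup.subgroupOfEquivOfLe hU).toEquiv, cU]
    refine ⟨isP4 h1, fun h => h8 ?_⟩
    obtain ⟨k, hk⟩ := h
    have h2 := Subgroup.card_mul_index (U.subgroupOf C)
    rw [h1, hk] at h2
    exact ⟨k, by rw [← h2]; ring⟩
  let S : Sylow 2 C := (key V hV cV).1.toSylow (key V hV cV).2
  let T : Sylow 2 C := (key W hW cW).1.toSylow (key W hW cW).2
  obtain ⟨c, hc⟩ := MulAction.exists_smul_eq C S T
  refine ⟨c, c.2, ?_⟩
  have h1 : ((c • S : Sylow 2 C) : Subgroup C) = W.subgroupOf C := by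
    rw [hc]
    rfl
  have h2 : ((c • S : Sylow 2 C) : Subgroup C) = MulAut.conj c • (V.subgroupOf C) := rfl
  rw [h2] at h1
  ext x
  rw [mem_conjS]
  constructor
  · intro hx
    have h3 : (⟨x, hW hx⟩ : C) ∈ W.subgroupOf C := hx
    rw [← h1, Subgroup.mem_pointwise_smul_iff_inv_smul_mem] at h3
    have h4 : ((MulAut.conj c)⁻¹ • (⟨x, hW hx⟩ : C) : C) = c⁻¹ * ⟨x, hW hx⟩ * c := by
      rw [← map_inv]
      change c⁻¹ * _ * c⁻¹⁻¹ = _
      rw [inv_inv]
    rw [h4] at h3
    exact h3
  · intro hx
    have h3 : (c⁻¹ * (⟨c * ((c : K)⁻¹ * x * c) * (c : K)⁻¹, by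
      exact mul_mem (mul_mem c.2 (hV hx)) (inv_mem c.2)⟩ : C) * c) ∈ V.subgroupOf C := by
      change (c : K)⁻¹ * (c * ((c : K)⁻¹ * x * c) * (c : K)⁻¹) * c ∈ V
      have h5 : (c : K)⁻¹ * (c * ((c : K)⁻¹ * x * c) * (c : K)⁻¹) * c = (c : K)⁻¹ * x * c := by
        group
      rw [h5]
      exact hx
    have h4 : (⟨c * ((c : K)⁻¹ * x * c) * (c : K)⁻¹, by
      exact mul_mem (mul_mem c.2 (hV hx)) (inv_mem c.2)⟩ : C) ∈
        MulAut.conj c • (V.subgroupOf C) := by
      rw [Subgroup.mem_pointwise_smul_iff_inv_smul_mem, ← map_inv]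
      change c⁻¹ * _ * c⁻¹⁻¹ ∈ _
      rw [inv_inv]
      exact h3
    rw [h1] at h4
    have h6 : (c : K) * ((c : K)⁻¹ * x * c) * (c : K)⁻¹ ∈ W := h4
    have h7 : (c : K) * ((c : K)⁻¹ * x * c) * (c : K)⁻¹ = x := by group
    rwa [h7] at h6

/-- the centralisers of the elements at which `e` does not vanish -/
theorem bd8 [Finite K] {F : Type} [Field F] {e : K → F} (h : DF.DfE 2 V4 e ⊤) : Bd8 e := by
  intro g hg h8
  have hfact : Fact (Nat.Prime 2) := ⟨Nat.prime_two⟩
  set C := Subgroup.centralizer ({g} : Set K) with hC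
  obtain ⟨S, hS⟩ := Sylow.exists_subgroup_card_pow_prime (G := C) 2 (n := 3) (by
    rw [show (2 : ℕ) ^ 3 = 8 from rfl]
    exact h8)
  have h1 : Nat.card (S.map C.subtype) = 8 := by
    rw [← Nat.card_congr (S.equivMapOfInjective C.subtype C.subtype_injective).toEquiv, hS]
    rfl
  have h2 := v4_card (h (S.map C.subtype) le_top (IsPGroup.of_card (n := 3) (by rw [h1]; rfl))
    ⟨g, by
      rw [Subgroup.mem_centralizer_iff]
      rintro _ ⟨s, hs, rfl⟩
      exact (Subgroup.mem_centralizer_singleton_iff.1 s.2), hg⟩)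
  rw [h1] at h2
  omega

/-- normaliser growth -/
theorem eight_of_norm [Finite K] {V : Subgroup K} (cV : Nat.card V = 4)
    {y : Subgroup.normalizer (V : Set K)} (hV : V ≤ Subgroup.centralizer ({(y : K)} : Set K))
    (h8 : 8 ∣ Nat.card (Subgroup.centralizer ({(y : K)} : Set K))) :
    8 ∣ Nat.card (Subgroup.centralizer ({y} : Set (Subgroup.normalizer (V : Set K)))) := by
  have hfact : Fact (Nat.Prime 2) := ⟨Nat.prime_two⟩
  set C := Subgroup.centralizer ({(y : K)} : Set K) with hC
  have h1 : Nat.card (V.subgroupOf C) = 2 ^ 2 := by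
    rw [Nat.card_congr (Subgroup.subgroupOfEquivOfLe hV).toEquiv, cV]
    rfl
  have h2 := Sylow.prime_pow_dvd_card_normalizer (p := 2) (n := 2) (G := C) (by
    rw [show (2 : ℕ) ^ (2 + 1) = 8 from rfl]
    exact h8) h1
  refine h2.trans ?_
  have hn : ∀ t : Subgroup.normalizer ((V.subgroupOf C : Subgroup C) : Set C),
      ((t : C) : K) ∈ Subgroup.normalizer (V : Set K) := by
    intro t
    rw [Subgroup.mem_normalizer_iff]
    intro v
    have h3 := Subgroup.mem_normalizer_iff.1 t.2
    constructor
    · intro hv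
      exact (h3 ⟨v, hV hv⟩).1 hv
    · intro hv
      have h4 : ((t : C) : K)⁻¹ * (((t : C) : K) * v * ((t : C) : K)⁻¹) * ((t : C) : K) = v := by
        group
      have h5 : v ∈ C := by
        rw [← h4]
        exact mul_mem (mul_mem (inv_mem (t : C).2) (hV hv)) (t : C).2
      exact (h3 ⟨v, h5⟩).2 hv
  let φ : Subgroup.normalizer ((V.subgroupOf C : Subgroup C) : Set C) →*
      Subgroup.centralizer ({y} : Set (Subgroup.normalizer (V : Set K))) :=
    { toFun := fun t => ⟨⟨((t : C) : K), hn t⟩, by
        rw [Subgroup.mem_centralizer_singleton_iff]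
        apply Subtype.ext
        exact Subgroup.mem_centralizer_singleton_iff.1 (t : C).2⟩
      map_one' := rfl
      map_mul' := fun _ _ => rfl }
  refine Subgroup.card_dvd_of_injective φ ?_
  intro a b hab
  apply Subtype.ext
  apply Subtype.ext
  exact congrArg (fun z => ((z : Subgroup.centralizer
    ({y} : Set (Subgroup.normalizer (V : Set K)))) : Subgroup.normalizer (V : Set K)).1) hab

end group

section supp

variable {F K : Type} [Field F] [Group K] [Finite K]

/-- a central idempotent is supported on the centraliser of a normal `ℓ`-subgroup -/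
theorem br_idem {ℓ : ℕ} (hF : GoodF ℓ F) {R : Subgroup K} (hn : R.Normal) (hR : IsPGroup ℓ R)
    {g : K → F} (hg : IsIdem g) : br R g = g := by
  have hcl : IsCl (br R g) := by
    intro x y
    have h1 : y * x * y⁻¹ ∈ Subgroup.centralizer (R : Set K) ↔
        x ∈ Subgroup.centralizer (R : Set K) := by
      have hcn : (Subgroup.centralizer (R : Set K)).Normal := inferInstance
      constructor
      · intro h
        have h2 := hcn.conj_mem _ h y⁻¹
        have h3 : y⁻¹ * (y * x * y⁻¹) * y⁻¹⁻¹ = x := by group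
        rwa [h3] at h2
      · intro h
        exact hcn.conj_mem _ h y
    by_cases hx : x ∈ Subgroup.centralizer (R : Set K)
    · rw [H66.br_of_mem hx, H66.br_of_mem (h1.2 hx)]
      exact hg.1 x y
    · rw [H66.br_of_not_mem hx, H66.br_of_not_mem (fun h => hx (h1.1 h))]
  have hh : mulF (br R g) (br R g) = br R g := by
    rw [← H66.br_mulF hF hR (H66.IsCl.inv hg.1 R) (H66.IsCl.inv hg.1 R), hg.2]
  set c : K → F := g - br R g with hc
  have hcc : IsCl c := (cfs F K).sub_mem hg.1 hcl
  have h1 : ∀ (n : ℕ) (ρ : K →* Matrix (Fin n) (Fin n) F), IsIrr ρ → ev ρ c = 0 := by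
    intro n ρ hρ
    have h2 := ((H20.nls ℓ F hF K R hn hR n ρ hρ).2 g hg.1).1
    have h3 : ev ρ c = ev ρ g - ev ρ (br R g) := by
      have := Fintype.ofFinite K
      unfold ev
      rw [finsum_eq_sum_of_fintype, finsum_eq_sum_of_fintype, finsum_eq_sum_of_fintype,
        ← Finset.sum_sub_distrib]
      refine Finset.sum_congr rfl fun t _ => ?_
      rw [hc, Pi.sub_apply, sub_smul]
    rw [h3, h2, sub_self]
  obtain ⟨k, hk⟩ := H20.ibn ℓ F hF K c h1
  have h3 : mulF c (mulF c c) = c := by
    apply ma_injective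
    rw [ma_mul, ma_mul]
    have e1 : ma g * ma g = ma g := by rw [← ma_mul, hg.2]
    have e2 : ma (br R g) * ma (br R g) = ma (br R g) := by rw [← ma_mul, hh]
    have e3 : ma (br R g) * ma g = ma g * ma (br R g) :=
      (Subalgebra.mem_center_iff.1 ((isCl_iff g).1 hg.1)) (ma (br R g))
    have e4 : ma c = ma g - ma (br R g) := by
      rw [hc]
      exact map_sub (maL : (K → F) ≃ₗ[F] MonoidAlgebra F K) g (br R g)
    rw [e4]
    have e5 : (ma g - ma (br R g)) * (ma g - ma (br R g)) =
        ma g - ma g * ma (br R g) - ma g * ma (br R g) + ma (br R g) := by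
      rw [sub_mul, mul_sub, mul_sub, e1, e2, e3]
      abel
    rw [e5, sub_mul, mul_add, mul_sub, mul_sub, mul_add, mul_sub, mul_sub, ← mul_assoc,
      ← mul_assoc, e1, e2, e3, mul_assoc, e2]
    abel
  have h4 : ∀ m : ℕ, (mulF c)^[2 * m] c = c := by
    intro m
    induction m with
    | zero => rfl
    | succ m ih =>
      rw [show 2 * (m + 1) = 2 * m + 1 + 1 from by ring, Function.iterate_succ_apply,
        Function.iterate_succ_apply, h3, ih]
  have h5 : ∀ m : ℕ, (mulF c)^[m] (0 : K → F) = 0 := by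
    intro m
    induction m with
    | zero => rfl
    | succ m ih => rw [Function.iterate_succ_apply, H46.mulF_zero, ih]
  have h6 : c = 0 := by
    have h7 := h4 k
    rw [two_mul, Function.iterate_add_apply, hk, h5] at h7
    exact h7.symm
  rw [hc, sub_eq_zero] at h6
  exact h6.symm

end supp

section main

variable {M : Ideal (integralClosure ℤ ℂ)} [hM : M.IsMaximal]

/-- an element of the support whose class sum is invertible on the block -/
theorem exists_y {X : Type} [Group X] [Finite X] {b : X → FF M} (hb : IsBlk b) :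
    ∃ y, b y ≠ 0 ∧ ∃ u : X → FF M, IsCl u ∧
      mulF (mulF u (clsum (FF M) (⊤ : Subgroup X) y)) b = b := by
  have := Fintype.ofFinite (ConjClasses X)
  obtain ⟨χ, hχ, h1, -⟩ := H50.exists_irr_blk hb
  have h2 : ∃ c : ConjClasses X, b (Quotient.out c) * labF M χ (Quotient.out c) ≠ 0 := by
    by_contra hcon
    push Not at hcon
    rw [H50.res_eq_lab, finsum_eq_sum_of_fintype, Finset.sum_eq_zero fun c _ => hcon c] at h1
    exact zero_ne_one h1
  obtain ⟨c, hc⟩ := h2
  refine ⟨Quotient.out c, left_ne_zero_of_mul hc, ?_⟩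
  rcases H50.blk_dich hb (H50.isCl_clsum (F := FF M) (Quotient.out c)) with ⟨n, hn⟩ | h3
  · exfalso
    apply right_ne_zero_of_mul hc
    rw [← H50.res_clsum]
    exact H50.zero_of_nil hb.1.1 (H50.isCl_clsum _) (H50.isChar_res hχ) h1 hn
  · exact h3

/-- the `2`-subgroups on whose centraliser `b` does not vanish -/
theorem below {X : Type} [Group X] [Finite X] (hF : GoodF 2 (FF M)) {b : X → FF M} (hb : IsCl b)
    {y : X} {u : X → FF M} (hu : IsCl u)
    (h : mulF (mulF u (clsum (FF M) (⊤ : Subgroup X) y)) b = b) {V : Subgroup X}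
    (hV : IsPGroup 2 V) (hg : ∃ g ∈ Subgroup.centralizer (V : Set X), b g ≠ 0) :
    ∃ r : X, conjS r V ≤ Subgroup.centralizer ({y} : Set X) := by
  obtain ⟨g, hg, hg0⟩ := hg
  have hk := H50.isCl_clsum (F := FF M) y
  have h1 : br V b ≠ 0 := by
    intro h0
    apply hg0
    have := congrFun h0 g
    rwa [H66.br_of_mem hg] at this
  have h2 : br V (clsum (FF M) (⊤ : Subgroup X) y) ≠ 0 := by
    intro h0
    apply h1
    rw [← h, H66.br_mulF hF hV (H66.IsCl.inv (H50.isCl_mulF hu hk) V) (H66.IsCl.inv hb V),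
      H66.br_mulF hF hV (H66.IsCl.inv hu V) (H66.IsCl.inv hk V), h0, H46.mulF_zero]
    apply ma_injective
    rw [ma_mul, ma_zero, zero_mul]
  obtain ⟨z, hz⟩ : ∃ z, br V (clsum (FF M) (⊤ : Subgroup X) y) z ≠ 0 := by
    by_contra hcon
    push Not at hcon
    exact h2 (funext hcon)
  have hzV : z ∈ Subgroup.centralizer (V : Set X) := by
    by_contra hcon
    exact hz (H66.br_of_not_mem hcon)
  rw [H66.br_of_mem hzV] at hz
  obtain ⟨r, hr⟩ : ∃ r, z = r * y * r⁻¹ := by
    by_contra hcon
    apply hz
    unfold clsum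
    rw [if_neg]
    rintro ⟨q, -, hq⟩
    exact hcon ⟨q, hq⟩
  refine ⟨r⁻¹, fun v hv => ?_⟩
  rw [mem_conjS, inv_inv] at hv
  rw [Subgroup.mem_centralizer_singleton_iff]
  have h4 := Subgroup.mem_centralizer_iff.1 hzV _ hv
  rw [hr] at h4
  have h5 : r * (v * y) * r⁻¹ = r * (y * v) * r⁻¹ := by
    calc r * (v * y) * r⁻¹ = r * v * r⁻¹ * (r * y * r⁻¹) := by group
      _ = r * y * r⁻¹ * (r * v * r⁻¹) := h4
      _ = r * (y * v) * r⁻¹ := by group
  exact mul_left_cancel (mul_right_cancel h5)

/-- the class sum of `y` in the normaliser of `V` -/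
theorem br_clsum {X : Type} [Group X] [Finite X] {F : Type} [Field F] {V : Subgroup X}
    (cV : Nat.card V = 4) {y : Subgroup.normalizer (V : Set X)}
    (hy : (y : X) ∈ Subgroup.centralizer (V : Set X))
    (h8 : ¬ 8 ∣ Nat.card (Subgroup.centralizer ({(y : X)} : Set X))) :
    (fun t : Subgroup.normalizer (V : Set X) => br V (clsum F (⊤ : Subgroup X) (y : X)) t) =
      clsum F (⊤ : Subgroup (Subgroup.normalizer (V : Set X))) y := by
  funext t
  have hconj : ∀ n : X, n ∈ Subgroup.normalizer (V : Set X) →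
      n * y * n⁻¹ ∈ Subgroup.centralizer (V : Set X) := by
    intro n hn
    rw [Subgroup.mem_centralizer_iff]
    intro v hv
    have h1 : n⁻¹ * v * n ∈ V := by
      have := (Subgroup.mem_normalizer_iff.1 (inv_mem hn) v).1 hv
      rwa [inv_inv] at this
    have h2 := Subgroup.mem_centralizer_iff.1 hy _ h1
    calc v * (n * y * n⁻¹) = n * (n⁻¹ * v * n * y) * n⁻¹ := by group
      _ = n * (y * (n⁻¹ * v * n)) * n⁻¹ := by rw [h2]
      _ = n * y * n⁻¹ * v := by group
  by_cases ht : (t : X) ∈ Subgroup.centralizer (V : Set X)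
  · rw [H66.br_of_mem ht]
    have hiff : (∃ q ∈ (⊤ : Subgroup X), (t : X) = q * y * q⁻¹) ↔
        ∃ q ∈ (⊤ : Subgroup (Subgroup.normalizer (V : Set X))), t = q * y * q⁻¹ := by
      constructor
      · rintro ⟨q, -, hq⟩
        have hV1 : V ≤ Subgroup.centralizer ({(y : X)} : Set X) := by
          intro v hv
          rw [Subgroup.mem_centralizer_singleton_iff]
          exact Subgroup.mem_centralizer_iff.1 hy v hv
        have hV2 : conjS q⁻¹ V ≤ Subgroup.centralizer ({(y : X)} : Set X) := by
          intro v hv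
          rw [mem_conjS, inv_inv] at hv
          rw [Subgroup.mem_centralizer_singleton_iff]
          have h4 := Subgroup.mem_centralizer_iff.1 ht _ hv
          rw [hq] at h4
          have h5 : q * (v * y) * q⁻¹ = q * (y * v) * q⁻¹ := by
            calc q * (v * y) * q⁻¹ = q * v * q⁻¹ * (q * y * q⁻¹) := by group
              _ = q * y * q⁻¹ * (q * v * q⁻¹) := h4
              _ = q * (y * v) * q⁻¹ := by group
          exact mul_left_cancel (mul_right_cancel h5)
        obtain ⟨c, hc, h6⟩ := conj_four h8 hV2 hV1 (by rw [card_conj4, cV]) cV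
        have hn : q * c⁻¹ ∈ Subgroup.normalizer (V : Set X) := by
          rw [Subgroup.mem_normalizer_iff]
          intro v
          have h7 : ∀ w : X, w ∈ V ↔ q * (c⁻¹ * w * c) * q⁻¹ ∈ V := by
            intro w
            conv_lhs => rw [h6]
            rw [mem_conjS, mem_conjS, inv_inv]
          rw [h7 v]
          have h8 : q * (c⁻¹ * v * c) * q⁻¹ = q * c⁻¹ * v * (q * c⁻¹)⁻¹ := by group
          rw [h8]
        refine ⟨⟨q * c⁻¹, hn⟩, Subgroup.mem_top _, Subtype.ext ?_⟩
        change (t : X) = q * c⁻¹ * y * (q * c⁻¹)⁻¹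
        have h9 := Subgroup.mem_centralizer_singleton_iff.1 hc
        rw [hq]
        have h10 : c⁻¹ * (y : X) * c = y := by
          rw [mul_assoc, ← h9]
          group
        calc q * (y : X) * q⁻¹ = q * (c⁻¹ * y * c) * q⁻¹ := by rw [h10]
          _ = q * c⁻¹ * y * (q * c⁻¹)⁻¹ := by group
      · rintro ⟨q, -, hq⟩
        exact ⟨q, Subgroup.mem_top _, congrArg Subtype.val hq⟩
    unfold clsum
    by_cases hc : ∃ q ∈ (⊤ : Subgroup X), (t : X) = q * y * q⁻¹
    · rw [if_pos hc, if_pos (hiff.1 hc)]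
    · rw [if_neg hc, if_neg (fun h => hc (hiff.2 h))]
  · rw [H66.br_of_not_mem ht]
    unfold clsum
    rw [if_neg]
    rintro ⟨q, -, hq⟩
    apply ht
    rw [hq]
    exact hconj q q.2

/-- FM4 -/
theorem fm4 : Fm4Stmt := by
  intro M _ h2M X _ _ b hb
  have hF : GoodF 2 (FF M) := H50.fld 2 Nat.prime_two M h2M
  have hb8 : Bd8 b := bd8 hb.df
  obtain ⟨y, hy, u, hu, huy⟩ := exists_y hb.blk
  refine ⟨?_, ?_⟩
  · intro V V' cV cV' hV hV'
    obtain ⟨r, hr⟩ := below hF hb.blk.1.1 hu huy (isP4 cV) hV
    obtain ⟨s, hs⟩ := below hF hb.blk.1.1 hu huy (isP4 cV') hV'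
    obtain ⟨c, -, hc⟩ := conj_four (hb8 y hy) hr hs (by rw [card_conj4, cV])
      (by rw [card_conj4, cV'])
    refine ⟨s⁻¹ * (c * r), ?_⟩
    rw [← conjS_conjS, ← conjS_conjS, ← hc, conjS_conjS, inv_mul_cancel, conjS_one]
  · intro V cV hV
    have hVp := isP4 cV
    have hCN : Subgroup.centralizer (V : Set X) ≤ Subgroup.normalizer (V : Set X) := by
      intro g hg
      rw [Subgroup.mem_normalizer_iff]
      intro v
      have h1 := Subgroup.mem_centralizer_iff.1 hg
      constructor
      · intro hv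
        rw [← h1 v hv, mul_inv_cancel_right]
        exact hv
      · intro hv
        have h2 := h1 _ hv
        have h3 : g * v = g * (g * v * g⁻¹) := by
          rw [← h2]
          group
        rw [mul_left_cancel h3]
        exact hv
    have hVN : V ≤ Subgroup.normalizer (V : Set X) := Subgroup.le_normalizer
    have hB := H20.brm 2 (FF M) hF X V (Subgroup.normalizer (V : Set X)) hVp hCN le_rfl
    set f : Subgroup.normalizer (V : Set X) → FF M := fun t => br V b t with hf
    have hfI : IsIdem f := hB.2.2 b hb.blk.1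
    have hfD : DF.DfE 2 V4 f ⊤ := DF.DfE.br subCl_v4 V hb.df le_top
    obtain ⟨g₀, hg₀, hg₀'⟩ := hV
    have hf0 : f ≠ 0 := by
      intro h0
      apply hg₀'
      have h1 := congrFun h0 ⟨g₀, hCN hg₀⟩
      change br V b g₀ = 0 at h1
      rwa [H66.br_of_mem hg₀] at h1
    have hVcard : Nat.card (V.subgroupOf (Subgroup.normalizer (V : Set X))) = 4 := by
      rw [Nat.card_congr (Subgroup.subgroupOfEquivOfLe hVN).toEquiv, cV]
    refine ⟨⟨hfI, hf0, ?_⟩, hfD, V.subgroupOf (Subgroup.normalizer (V : Set X)), hVcard,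
      ⟨g₀, hCN hg₀⟩, ?_, ?_⟩
    · intro g hg
      by_contra hcon
      rw [not_or] at hcon
      obtain ⟨hc1, hc2⟩ := hcon
      set f₁ := mulF f g with hf₁
      have hf1I : IsIdem f₁ := H46.isIdem_mul hfI hg
      have hff1 : mulF f f₁ = f₁ := by
        apply ma_injective
        rw [hf₁, ma_mul, ma_mul, ← mul_assoc, H46.ma_idem hfI]
      have hf1f : mulF f₁ f = f₁ := by
        rw [H46.mulF_comm hf1I.1, hff1]
      have hf2I : IsIdem (f - f₁) := by
        refine ⟨(cfs (FF M) _).sub_mem hfI.1 hf1I.1, ?_⟩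
        apply ma_injective
        have e4 : ma (f - f₁) = ma f - ma f₁ :=
          map_sub (maL : (_ → FF M) ≃ₗ[FF M] MonoidAlgebra (FF M) _) f f₁
        rw [ma_mul, e4, sub_mul, mul_sub, mul_sub, H46.ma_idem hfI, H46.ma_idem hf1I,
          ← ma_mul, ← ma_mul, hff1, hf1f, sub_self, sub_zero]
      have hf2 : f - f₁ ≠ 0 := by
        intro h0
        exact hc1 (sub_eq_zero.1 h0).symm
      obtain ⟨ϑ₁, hϑ₁, h11⟩ := H50.exists_irr_res hf1I hc2
      obtain ⟨ϑ₂, hϑ₂, h22⟩ := H50.exists_irr_res hf2I hf2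
      have := Fintype.ofFinite (Subgroup.normalizer (V : Set X))
      have hr : ∀ ϑ ∈ Irr (Subgroup.normalizer (V : Set X)),
          res M f₁ ϑ = res M f ϑ * res M f₁ ϑ := by
        intro ϑ hϑ
        rw [← H50.res_mul hfI.1 hf1I.1 hϑ, hff1]
      have hf11 : res M f ϑ₁ = 1 := by
        have h3 := hr ϑ₁ hϑ₁
        rw [h11, mul_one] at h3
        exact h3.symm
      have h23 : res M f ϑ₂ - res M f₁ ϑ₂ = 1 := by rw [← H50.res_sub, h22]
      have hf22 : res M f ϑ₂ = 1 := by
        rcases H50.res_idem hfI hϑ₂ with h3 | h3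
        · exfalso
          have h4 := hr ϑ₂ hϑ₂
          rw [h3, zero_mul] at h4
          rw [h3, h4, sub_zero] at h23
          exact zero_ne_one h23
        · exact h3
      have h12 : res M f₁ ϑ₂ = 0 := by
        rw [hf22] at h23
        exact sub_eq_self.1 h23
      -- the central characters of `X`
      have hch : ∀ ϑ ∈ Irr (Subgroup.normalizer (V : Set X)), H50.IsChar (fun a : X → FF M =>
          res M (fun t : Subgroup.normalizer (V : Set X) => br V a t) ϑ) := by
        intro ϑ hϑ
        refine ⟨?_, ?_, ?_⟩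
        · intro a c _ _
          rw [← H50.res_sub]
          congr 1
          funext t
          by_cases ht : (t : X) ∈ Subgroup.centralizer (V : Set X)
          · rw [H66.br_of_mem ht, Pi.sub_apply, Pi.sub_apply, H66.br_of_mem ht, H66.br_of_mem ht]
          · rw [H66.br_of_not_mem ht, Pi.sub_apply, H66.br_of_not_mem ht, H66.br_of_not_mem ht,
              sub_zero]
        · intro c a _
          rw [← H50.res_smul]
          congr 1
          funext t
          by_cases ht : (t : X) ∈ Subgroup.centralizer (V : Set X)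
          · rw [H66.br_of_mem ht, Pi.smul_apply, Pi.smul_apply, H66.br_of_mem ht]
          · rw [H66.br_of_not_mem ht, Pi.smul_apply, H66.br_of_not_mem ht, smul_zero]
        · intro a c ha hc
          change res M (fun t : Subgroup.normalizer (V : Set X) => br V (mulF a c) t) ϑ = _
          rw [hB.1 a c ha hc, hB.2.1 a c]
          exact H50.res_mul (H50.br_cl le_rfl ha) (H50.br_cl le_rfl hc) hϑ
      have huniq : ∀ a : X → FF M, IsCl a →
          res M (fun t : Subgroup.normalizer (V : Set X) => br V a t) ϑ₁ =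
          res M (fun t : Subgroup.normalizer (V : Set X) => br V a t) ϑ₂ := fun a ha =>
        H50.char_uniq hb.blk (hch ϑ₁ hϑ₁) (hch ϑ₂ hϑ₂) hf11 hf22 ha
      -- the support of `f₁`
      have hn : (V.subgroupOf (Subgroup.normalizer (V : Set X))).Normal :=
        Subgroup.normal_in_normalizer
      have hbf := br_idem hF hn (isP4 hVcard) hf1I
      have hf18 : Bd8 f₁ := bd8 (DF.DfE.le hF hfI.1 hf1I.1 hff1 hfD)
      have hlab : ∀ z, f₁ z ≠ 0 → labF M ϑ₁ z = labF M ϑ₂ z := by
        intro z hz
        have hzV : (z : X) ∈ Subgroup.centralizer (V : Set X) := by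
          have h3 : z ∈ Subgroup.centralizer
              ((V.subgroupOf (Subgroup.normalizer (V : Set X)) :
                Subgroup (Subgroup.normalizer (V : Set X))) : Set _) := by
            by_contra h4
            apply hz
            rw [← hbf, H66.br_of_not_mem h4]
          rw [Subgroup.mem_centralizer_iff] at h3 ⊢
          intro v hv
          exact congrArg Subtype.val (h3 ⟨v, hVN hv⟩ hv)
        have hV1 : V ≤ Subgroup.centralizer ({(z : X)} : Set X) := by
          intro v hv
          rw [Subgroup.mem_centralizer_singleton_iff]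
          exact Subgroup.mem_centralizer_iff.1 hzV v hv
        have h8 : ¬ 8 ∣ Nat.card (Subgroup.centralizer ({(z : X)} : Set X)) :=
          fun h => hf18 z hz (eight_of_norm cV hV1 h)
        have h5 := huniq _ (H50.isCl_clsum (F := FF M) (z : X))
        rw [br_clsum cV hzV h8] at h5
        rwa [H50.res_clsum, H50.res_clsum] at h5
      have := Fintype.ofFinite (ConjClasses (Subgroup.normalizer (V : Set X)))
      have heq : res M f₁ ϑ₁ = res M f₁ ϑ₂ := by
        rw [H50.res_eq_lab, H50.res_eq_lab, finsum_eq_sum_of_fintype, finsum_eq_sum_of_fintype]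
        refine Finset.sum_congr rfl fun c _ => ?_
        by_cases hc : f₁ (Quotient.out c) = 0
        · rw [hc, zero_mul, zero_mul]
        · rw [hlab _ hc]
      rw [h11, h12] at heq
      exact one_ne_zero heq
    · rw [Subgroup.mem_centralizer_iff]
      intro v hv
      exact Subtype.ext (Subgroup.mem_centralizer_iff.1 hg₀ _ hv)
    · change br V b g₀ ≠ 0
      rw [H66.br_of_mem hg₀]
      exact hg₀'

end main

end Pool.Agent.PP.KF.H55
end
end -- Pool.Agent.Helper55_KF.Fm4

section -- Pool.Agent.Helper34_K9.INX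

/-!
# K9, row INX: the inertial index is prime to the characteristic
-/

open scoped BigOperators

noncomputable section

namespace Pool.Agent.PP.K9.H34

open Pool.Agent.Helper51_AWC Pool.Agent.Helper79_WRA Pool.Agent.PP Pool.Agent.PP.KF

attribute [local instance] Ideal.Quotient.field

section comp

variable {F X : Type} [Field F] [Group X]

theorem mulF_comp (φ : X ≃* X) (a b : X → F) :
    (fun x => mulF a b (φ x)) = mulF (fun x => a (φ x)) (fun x => b (φ x)) := by
  funext x
  unfold mulF
  rw [← finsum_comp_equiv φ.toEquiv]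
  apply finsum_congr
  intro t
  change a (φ t) * b ((φ t)⁻¹ * φ x) = a (φ t) * b (φ (t⁻¹ * x))
  rw [map_mul, map_inv]

theorem isCl_comp (φ : X ≃* X) {a : X → F} (ha : IsCl a) : IsCl (fun x => a (φ x)) := by
  intro x y
  change a (φ (y * x * y⁻¹)) = a (φ x)
  rw [map_mul, map_mul, map_inv]
  exact ha _ _

theorem isChar_comp (φ : X ≃* X) {lam : (X → F) → F} (h : H50.IsChar lam) :
    H50.IsChar (fun a => lam (fun x => a (φ x))) where
  sub a b ha hb := h.sub _ _ (isCl_comp φ ha) (isCl_comp φ hb)
  smul c a ha := h.smul c _ (isCl_comp φ ha)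
  mul a b ha hb := by
    change lam (fun x => mulF a b (φ x)) = _
    rw [mulF_comp φ a b]
    exact h.mul _ _ (isCl_comp φ ha) (isCl_comp φ hb)

end comp

section grp

variable {G : Type} [Group G]

theorem conj_cent {V : Subgroup G} {t x : G} (ht : t ∈ Subgroup.normalizer (V : Set G))
    (hx : x ∈ Subgroup.centralizer (V : Set G)) : t * x * t⁻¹ ∈ Subgroup.centralizer (V : Set G) := by
  rw [Subgroup.mem_centralizer_iff]
  intro v hv
  have h1 : t⁻¹ * v * t ∈ V := by
    have := (Subgroup.mem_normalizer_iff.1 (inv_mem ht) v).1 hv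
    rwa [inv_inv] at this
  have h2 := Subgroup.mem_centralizer_iff.1 hx _ h1
  calc v * (t * x * t⁻¹) = t * (t⁻¹ * v * t * x) * t⁻¹ := by group
    _ = t * (x * (t⁻¹ * v * t)) * t⁻¹ := by rw [h2]
    _ = t * x * t⁻¹ * v := by group

/-- conjugation by an element of the normaliser of `V`, on the centraliser of `V` -/
def cj (V : Subgroup G) (t : G) (ht : t ∈ Subgroup.normalizer (V : Set G)) :
    Subgroup.centralizer (V : Set G) ≃* Subgroup.centralizer (V : Set G) where
  toFun x := ⟨t * x * t⁻¹, conj_cent ht x.2⟩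
  invFun x := ⟨t⁻¹ * x * t, by
    have := conj_cent (inv_mem ht) x.2
    rwa [inv_inv] at this⟩
  left_inv x := Subtype.ext (by change t⁻¹ * (t * x * t⁻¹) * t = x; group)
  right_inv x := Subtype.ext (by change t * (t⁻¹ * x * t) * t⁻¹ = x; group)
  map_mul' x y := Subtype.ext (by
    change t * (x * y) * t⁻¹ = t * x * t⁻¹ * (t * y * t⁻¹)
    group)

theorem cj_coe (V : Subgroup G) (t : G) (ht : t ∈ Subgroup.normalizer (V : Set G))
    (x : Subgroup.centralizer (V : Set G)) : ((cj V t ht x : Subgroup.centralizer (V : Set G)) : G) =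
      t * x * t⁻¹ := rfl

/-- the action on the classes of the centraliser -/
def act (V P : Subgroup G) (hP : P ≤ Subgroup.normalizer (V : Set G)) :
    MulAction P (ConjClasses (Subgroup.centralizer (V : Set G))) where
  smul p c := ConjClasses.map (cj V p (hP p.2)).toMonoidHom c
  one_smul c := by
    induction c using Quotient.inductionOn with
    | h x =>
      change ConjClasses.mk (cj V ((1 : P) : G) _ x) = ConjClasses.mk x
      congr 1
      apply Subtype.ext
      rw [cj_coe]
      simp
  mul_smul p q c := by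
    induction c using Quotient.inductionOn with
    | h x =>
      change ConjClasses.mk (cj V ((p * q : P) : G) _ x) =
        ConjClasses.mk (cj V (p : G) _ (cj V (q : G) _ x))
      congr 1
      apply Subtype.ext
      rw [cj_coe, cj_coe, cj_coe]
      push_cast
      group

/-- an element of order prime to `ℓ` modulo `X` -/
theorem not_mem_pow {ℓ : ℕ} (hl : ℓ.Prime) {T : Type} [Group T] {X : Subgroup T} [X.Normal] {q : T}
    (hq : q ∉ X) {m b : ℕ} (h1 : q ^ ℓ ^ m ∈ X) (hb : ¬ ℓ ∣ b) : q ^ b ∉ X := by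
  intro h
  apply hq
  rw [← QuotientGroup.eq_one_iff] at h h1 ⊢
  have e1 : ((q : T) : T ⧸ X) ^ b = 1 := by rw [← QuotientGroup.mk_pow]; exact h
  have e2 : ((q : T) : T ⧸ X) ^ ℓ ^ m = 1 := by rw [← QuotientGroup.mk_pow]; exact h1
  have e3 := Nat.dvd_gcd (orderOf_dvd_of_pow_eq_one e1) (orderOf_dvd_of_pow_eq_one e2)
  have e4 : Nat.gcd b (ℓ ^ m) = 1 :=
    Nat.Coprime.pow_right m ((Nat.Prime.coprime_iff_not_dvd hl).2 hb).symm
  rw [e4, Nat.dvd_one, orderOf_eq_one_iff] at e3
  exact e3

end grp

variable {M : Ideal (integralClosure ℤ ℂ)} [hM : M.IsMaximal]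

theorem lab_conj {X : Type} [Group X] (χ : X → ℂ) {a b : X} (h : IsConj a b) :
    labF M χ a = labF M χ b := by
  unfold labF
  rw [H50.omega_isConj χ h]

/-- the labels are invariant under the inertial group -/
theorem lab_inv {G : Type} [Group G] [Finite G] {V : Subgroup G} {γ : G → FF M}
    (hγ : IsBlk (fun t : Subgroup.centralizer (V : Set G) => γ t))
    {χ : Subgroup.centralizer (V : Set G) → ℂ} (hχ : χ ∈ Irr (Subgroup.centralizer (V : Set G)))
    (h1 : res M (fun t : Subgroup.centralizer (V : Set G) => γ t) χ = 1) {t : G}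
    (ht : t ∈ Subgroup.normalizer (V : Set G)) (hs : t ∈ stabF γ)
    (x : Subgroup.centralizer (V : Set G)) : labF M χ (cj V t ht x) = labF M χ x := by
  have hl := H50.isChar_res (M := M) hχ
  have hl' := isChar_comp (cj V t ht) hl
  have h2 := H50.char_uniq hγ hl hl' h1 (by
    change res M (fun x : Subgroup.centralizer (V : Set G) => γ (t * x * t⁻¹)) χ = 1
    have h3 : (fun x : Subgroup.centralizer (V : Set G) => γ (t * x * t⁻¹)) =
        fun x : Subgroup.centralizer (V : Set G) => γ x := by
      funext x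
      exact hs x
    rw [h3]
    exact h1) (H50.isCl_clsum (F := FF M) (cj V t ht x))
  have h4 : (fun z => clsum (FF M) (⊤ : Subgroup (Subgroup.centralizer (V : Set G)))
      (cj V t ht x) (cj V t ht z)) =
      clsum (FF M) (⊤ : Subgroup (Subgroup.centralizer (V : Set G))) x := by
    funext z
    unfold clsum
    have hiff : (∃ q ∈ (⊤ : Subgroup (Subgroup.centralizer (V : Set G))),
        cj V t ht z = q * cj V t ht x * q⁻¹) ↔
        ∃ q ∈ (⊤ : Subgroup (Subgroup.centralizer (V : Set G))), z = q * x * q⁻¹ := by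
      constructor
      · rintro ⟨q, -, hq⟩
        refine ⟨(cj V t ht).symm q, Subgroup.mem_top _, (cj V t ht).injective ?_⟩
        rw [map_mul, map_mul, map_inv, MulEquiv.apply_symm_apply]
        exact hq
      · rintro ⟨q, -, hq⟩
        exact ⟨cj V t ht q, Subgroup.mem_top _, by rw [hq, map_mul, map_mul, map_inv]⟩
    by_cases h : ∃ q ∈ (⊤ : Subgroup (Subgroup.centralizer (V : Set G))), z = q * x * q⁻¹
    · rw [if_pos h, if_pos (hiff.2 h)]
    · rw [if_neg h, if_neg (fun h' => h (hiff.1 h'))]
  change res M (clsum (FF M) (⊤ : Subgroup (Subgroup.centralizer (V : Set G))) (cj V t ht x)) χ =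
    res M (fun z => clsum (FF M) (⊤ : Subgroup (Subgroup.centralizer (V : Set G)))
      (cj V t ht x) (cj V t ht z)) χ at h2
  rw [h4, H50.res_clsum, H50.res_clsum] at h2
  exact h2

/-- INX -/
theorem inx : InxStmt := by
  intro ℓ hℓ M _ hlM G _ _ e he V hV hab γ hγX hγ hbγ hdiv
  classical
  set X := Subgroup.centralizer (V : Set G) with hX
  have hF : GoodF ℓ (FF M) := H50.fld ℓ hℓ.out M hlM
  have := hF.char
  have hXN : X ≤ Subgroup.normalizer (V : Set G) := Subgroup.centralizer_le_normalizer _
  have hVX : V ≤ X := by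
    intro a ha
    rw [Subgroup.mem_centralizer_iff]
    exact fun b hb => hab b hb a ha
  obtain ⟨y, hy0, c, hc, hcy⟩ := KF.H55.exists_y he
  obtain ⟨χ, hχ, hχγ, -⟩ := H50.exists_irr_blk hγ
  have hK := H50.isCl_clsum (F := FF M) y
  set k : X → FF M := fun t => clsum (FF M) (⊤ : Subgroup G) y (t : G) with hk
  have hkc : IsCl k := fun a b => hK (a : G) (b : G)
  have hcc : IsCl (fun t : X => c t) := fun a b => hc (a : G) (b : G)
  -- the class sum is invertible on `γ`
  have hE : mulF (mulF (fun t : X => c t) k) (fun t : X => γ t) = fun t : X => γ t := by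
    have h1 : mulF (mulF (br V c) (br V (clsum (FF M) (⊤ : Subgroup G) y))) (br V e) = br V e := by
      rw [← H66.br_mulF hF hV.pg (H66.IsCl.inv hc V) (H66.IsCl.inv hK V),
        ← H66.br_mulF hF hV.pg (H66.IsCl.inv (H50.isCl_mulF hc hK) V) (H66.IsCl.inv he.1.1 V), hcy]
    have h2 : mulF (mulF (br V c) (br V (clsum (FF M) (⊤ : Subgroup G) y))) γ = γ := by
      have h3 : ma (mulF (mulF (br V c) (br V (clsum (FF M) (⊤ : Subgroup G) y))) γ) = ma γ := by
        conv_lhs => rw [← hbγ]
        rw [ma_mul, ma_mul (br V e) γ, ← mul_assoc, ← ma_mul, h1, ← ma_mul, hbγ]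
      exact ma_injective h3
    have hs : ∀ a : G → FF M, ∀ x, x ∉ X → br V a x = 0 := fun a x hx => H66.br_of_not_mem hx
    have hr : ∀ a : G → FF M, (fun t : X => br V a t) = fun t : X => a t := fun a => by
      funext t
      exact H66.br_of_mem t.2
    have h4 : (fun t : X => mulF (mulF (br V c) (br V (clsum (FF M) (⊤ : Subgroup G) y))) γ t) =
        fun t : X => γ t := by rw [h2]
    rw [H75.mulF_res X γ (H75.mulF_supp X (hs c) (hs _)), H75.mulF_res X _ (hs c), hr, hr] at h4
    exact h4
  have hk0 : res M k χ ≠ 0 := by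
    intro h0
    have := Fintype.ofFinite X
    have h1 := congrArg (fun a => res M a χ) hE
    change res M (mulF (mulF (fun t : X => c t) k) (fun t : X => γ t)) χ = _ at h1
    rw [H50.res_mul (H50.isCl_mulF hcc hkc) hγ.1.1 hχ, H50.res_mul hcc hkc hχ, h0, mul_zero,
      zero_mul] at h1
    rw [hχγ] at h1
    exact zero_ne_one h1
  -- a Sylow subgroup of the inertial group
  obtain ⟨P, hP, hPT, p0, hp0, hp0X⟩ : ∃ P : Subgroup G, IsPGroup ℓ P ∧
      P ≤ Subgroup.normalizer (V : Set G) ⊓ stabF γ ∧ ∃ p ∈ P, p ∉ X := by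
    let S : Sylow ℓ (Subgroup.normalizer (V : Set G) ⊓ stabF γ : Subgroup G) := default
    refine ⟨(S : Subgroup (Subgroup.normalizer (V : Set G) ⊓ stabF γ : Subgroup G)).map
      (Subgroup.subtype _), S.2.map _, ?_, ?_⟩
    · rintro _ ⟨s, -, rfl⟩
      exact s.2
    · by_contra hcon
      push Not at hcon
      apply S.not_dvd_index
      have h1 : (S : Subgroup (Subgroup.normalizer (V : Set G) ⊓ stabF γ : Subgroup G)) ≤
          X.subgroupOf (Subgroup.normalizer (V : Set G) ⊓ stabF γ) := by
        intro s hs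
        exact hcon s ⟨s, hs, rfl⟩
      exact hdiv.trans (Subgroup.index_dvd_of_le h1)
  -- the orbits of the Sylow subgroup on the classes
  let inst : MulAction P (ConjClasses X) := act V P (hPT.trans inf_le_left)
  have := Fintype.ofFinite (ConjClasses X)
  have hout : ∀ x : X, IsConj (Quotient.out (ConjClasses.mk x)) x := fun x =>
    ConjClasses.mk_eq_mk_iff_isConj.1 (Quotient.out_eq (ConjClasses.mk x))
  have hkout : ∀ a b : X, IsConj a b → k a = k b := by
    intro a b hab
    obtain ⟨z, hz⟩ := isConj_iff.1 hab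
    rw [← hz]
    exact (hkc a z).symm
  apply hk0
  rw [H50.res_eq_lab, finsum_eq_sum_of_fintype, Pool.Agent.PP.H74.orbit_sum_ring hP _ ?_]
  · refine Finset.sum_eq_zero fun d hd => ?_
    have hfix := (Finset.mem_filter.1 hd).2 ⟨p0, hp0⟩
    induction d using Quotient.inductionOn with
    | h x =>
      by_contra hne
      have hkx : k x ≠ 0 := by
        have h5 : k (Quotient.out (ConjClasses.mk x)) ≠ 0 := left_ne_zero_of_mul hne
        rwa [hkout _ _ (hout x)] at h5
      have hp0N := (hPT hp0).1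
      have h1 : IsConj (cj V p0 hp0N x) x := ConjClasses.mk_eq_mk_iff_isConj.1 hfix
      obtain ⟨z, hz⟩ := isConj_iff.1 h1
      have hz' : (z : G) * (p0 * x * p0⁻¹) * (z : G)⁻¹ = x := congrArg Subtype.val hz
      obtain ⟨r, hr⟩ : ∃ r, (x : G) = r * y * r⁻¹ := by
        by_contra hcon
        apply hkx
        change clsum (FF M) (⊤ : Subgroup G) y (x : G) = 0
        unfold clsum
        rw [if_neg]
        rintro ⟨q, -, hq⟩
        exact hcon ⟨q, hq⟩
      have hex : e x ≠ 0 := by
        rw [hr, he.1.1 y r]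
        exact hy0
      -- an element of the normaliser of `V` which commutes with `x`
      set q : G := z * p0 with hq
      have hqx : q * x = x * q := by
        have h2 : q * x * q⁻¹ = x := by
          rw [hq]
          calc (z : G) * p0 * x * (z * p0)⁻¹ = z * (p0 * x * p0⁻¹) * (z : G)⁻¹ := by group
            _ = x := hz'
        calc q * x = q * x * q⁻¹ * q := by group
          _ = x * q := by rw [h2]
      have hqN : q ∈ Subgroup.normalizer (V : Set G) := mul_mem (hXN z.2) hp0N
      -- powers of `q` modulo `X`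
      let N := Subgroup.normalizer (V : Set G)
      let X' : Subgroup N := X.subgroupOf N
      have hX'n : X'.Normal := ⟨fun a ha b => conj_cent b.2 ha⟩
      let qN : N := ⟨q, hqN⟩
      let zN : N := ⟨z, hXN z.2⟩
      let pN : N := ⟨p0, hp0N⟩
      have hqz : qN = zN * pN := rfl
      obtain ⟨m, hm⟩ := hP ⟨p0, hp0⟩
      have hm' : p0 ^ ℓ ^ m = 1 := congrArg Subtype.val hm
      have hpow : qN ^ ℓ ^ m ∈ X' := by
        rw [← QuotientGroup.eq_one_iff, QuotientGroup.mk_pow, hqz, QuotientGroup.mk_mul,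
          (QuotientGroup.eq_one_iff zN).2 z.2, one_mul, ← QuotientGroup.mk_pow,
          QuotientGroup.eq_one_iff]
        have h5 : pN ^ ℓ ^ m = 1 := Subtype.ext hm'
        rw [h5]
        exact one_mem _
      have hqX : qN ∉ X' := by
        intro h
        apply hp0X
        have h5 : (z : G)⁻¹ * q ∈ X := mul_mem (inv_mem z.2) h
        rwa [hq, inv_mul_cancel_left] at h5
      have hord : orderOf q ≠ 0 := (orderOf_pos q).ne'
      obtain ⟨a, b, hb, hab'⟩ := Nat.exists_eq_pow_mul_and_not_dvd hord ℓ hℓ.out.ne_one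
      have hqb : qN ^ b ∉ X' := not_mem_pow hℓ.out hqX hpow hb
      have hqb' : q ^ b ∉ X := hqb
      have hq1 : (q ^ b) ^ ℓ ^ a = 1 := by
        rw [← pow_mul, mul_comm, ← hab', pow_orderOf_eq_one]
      -- the subgroup generated by `V` and this power
      have hW1 : IsPGroup ℓ (Subgroup.zpowers (q ^ b)) := by
        obtain ⟨s, -, hs⟩ := (Nat.dvd_prime_pow hℓ.out).1 (orderOf_dvd_of_pow_eq_one hq1)
        exact IsPGroup.of_card (n := s) (by rw [Nat.card_zpowers, hs])
      have hW2 : Subgroup.zpowers (q ^ b) ≤ Subgroup.normalizer (V : Set G) :=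
        Subgroup.zpowers_le.2 (pow_mem hqN b)
      have hW := hW1.to_sup_of_normal_right' hV.pg hW2
      have hWx : ∀ w ∈ Subgroup.zpowers (q ^ b) ⊔ V, w * x = x * w := by
        have h6 : Subgroup.zpowers (q ^ b) ⊔ V ≤ Subgroup.centralizer ({(x : G)} : Set G) := by
          refine sup_le (Subgroup.zpowers_le.2 (pow_mem ?_ b)) ?_
          · exact Subgroup.mem_centralizer_singleton_iff.2 hqx
          · intro v hv
            exact Subgroup.mem_centralizer_singleton_iff.2 (Subgroup.mem_centralizer_iff.1 x.2 v hv)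
        intro w hw
        exact Subgroup.mem_centralizer_singleton_iff.1 (h6 hw)
      have hgd : Gd e (Subgroup.zpowers (q ^ b) ⊔ V) :=
        ⟨x, Subgroup.mem_centralizer_iff.2 fun w hw => hWx w hw, hex⟩
      have hcard := hV.mx _ hW hgd
      have h7 : V = Subgroup.zpowers (q ^ b) ⊔ V :=
        Subgroup.eq_of_le_of_card_ge le_sup_right hcard
      apply hqb'
      apply hVX
      rw [h7]
      exact (le_sup_left : Subgroup.zpowers (q ^ b) ≤ Subgroup.zpowers (q ^ b) ⊔ V)
        (Subgroup.mem_zpowers (q ^ b))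
  · intro p d
    induction d using Quotient.inductionOn with
    | h x =>
      have hpN := (hPT p.2).1
      have h1 : IsConj (Quotient.out (ConjClasses.mk (cj V p hpN x))) (cj V p hpN x) := hout _
      change k (Quotient.out (ConjClasses.mk (cj V p hpN x))) *
        labF M χ (Quotient.out (ConjClasses.mk (cj V p hpN x))) =
        k (Quotient.out (ConjClasses.mk x)) * labF M χ (Quotient.out (ConjClasses.mk x))
      rw [hkout _ _ h1, hkout _ _ (hout x), lab_conj χ h1, lab_conj χ (hout x),
        lab_inv hγ hχ hχγ hpN (hPT p.2).2 x]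
      have h2 : k (cj V p hpN x) = k x := hK (x : G) (p : G)
      rw [h2]

end Pool.Agent.PP.K9.H34
end
end -- Pool.Agent.Helper34_K9.INX
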