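import Pool.Agent.Helper12_AWB.B047
import Pool.Agent.Helper50_PP.Blk3
import Pool.Agent.Helper50_PP.Ffa
import Pool.Agent.Helper57_K9.Stmts

/-!
# Merged copies (generated) of the modules

* `Pool.Agent.Helper25_KF.Idm`
* `Pool.Agent.Helper88_K9.Val`
-/

set_option autoImplicit false

section -- Pool.Agent.Helper25_KF.Idm

/-!
# Squad KF, module IDM: the lift of a central idempotent has coefficients in the local ring
-/

open scoped BigOperators
open Polynomial

noncomputable section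

namespace Pool.Agent.PP.KF.H25

open Pool.Agent.PP Pool.Agent.PP.KF Pool.Agent.PP.H50 Pool.Agent.Helper51_AWC
  Pool.Agent.Helper79_WRA

attribute [local instance] Ideal.Quotient.field

section pw

variable {G : Type} [Group G] [Fintype G]

open Classical in
/-- powers in the group ring, on functions -/
def pw {K : Type*} [CommRing K] (a : G → K) : ℕ → G → K
  | 0 => fun g => if g = 1 then 1 else 0
  | n + 1 => fun y => ∑ h, pw a n h * a (h⁻¹ * y)

theorem pw_map {K L : Type*} [CommRing K] [CommRing L] (f : K →+* L) (a : G → K) (n : ℕ)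
    (g : G) : f (pw a n g) = pw (fun t => f (a t)) n g := by
  induction n generalizing g with
  | zero =>
    simp only [pw]
    split_ifs <;> simp
  | succ n ih =>
    simp only [pw, map_sum, map_mul]
    exact Finset.sum_congr rfl fun h _ => by rw [ih]

theorem pw_cl {K : Type*} [CommRing K] {a : G → K} (ha : ∀ x y, a (y * x * y⁻¹) = a x) (n : ℕ) :
    ∀ x y, pw a n (y * x * y⁻¹) = pw a n x := by
  induction n with
  | zero =>
    intro x y
    simp only [pw]
    have : y * x * y⁻¹ = 1 ↔ x = 1 := by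
      constructor
      · intro h
        have h' : x = y⁻¹ * (y * x * y⁻¹) * y := by group
        rw [h', h]; group
      · rintro rfl; group
    by_cases hx : x = 1
    · rw [if_pos hx, if_pos (this.2 hx)]
    · rw [if_neg hx, if_neg (fun h => hx (this.1 h))]
  | succ n ih =>
    intro x y
    simp only [pw]
    rw [← Equiv.sum_comp (MulAut.conj y).toEquiv
      (fun h => pw a n h * a (h⁻¹ * (y * x * y⁻¹)))]
    refine Finset.sum_congr rfl fun h _ => ?_
    change pw a n (y * h * y⁻¹) * a ((y * h * y⁻¹)⁻¹ * (y * x * y⁻¹)) = _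
    have h2 : (y * h * y⁻¹)⁻¹ * (y * x * y⁻¹) = y * (h⁻¹ * x) * y⁻¹ := by group
    rw [h2, ha, ih]

theorem pw_om {a : G → ℂ} (ha : ∀ x y, a (y * x * y⁻¹) = a x) {χ : G → ℂ} (hχ : χ ∈ Irr G)
    (n : ℕ) : om (pw a n) χ = om a χ ^ n := by
  induction n with
  | zero =>
    have h1 : χ 1 ≠ 0 := irr_one_ne hχ
    rw [om, Finset.sum_eq_single_of_mem (1 : G) (Finset.mem_univ _), pow_zero]
    · simp only [pw, if_true, one_mul]
      exact div_self h1
    · intro b _ hb
      simp only [pw, if_neg hb, zero_mul]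
  | succ n ih =>
    have h1 : pw a (n + 1) = fun y => ∑ h, pw a n h * a (h⁻¹ * y) := rfl
    rw [h1, om_mul ha hχ, ih, pow_succ]

theorem pw_idem {K : Type*} [CommRing K] {e : G → K} (he : ∀ y, ∑ h, e h * e (h⁻¹ * y) = e y)
    (n : ℕ) : pw e (n + 1) = e := by
  classical
  induction n with
  | zero =>
    funext y
    simp only [pw]
    rw [Finset.sum_eq_single_of_mem (1 : G) (Finset.mem_univ _)]
    · simp
    · intro b _ hb
      simp [hb]
  | succ n ih =>
    funext y
    have h1 : pw e (n + 1 + 1) y = ∑ h, pw e (n + 1) h * e (h⁻¹ * y) := rfl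
    rw [h1, ih, he]

/-- a class function is determined by its central characters -/
theorem ext_om {f g : G → ℂ} (hf : ∀ x y, f (y * x * y⁻¹) = f x)
    (hg : ∀ x y, g (y * x * y⁻¹) = g x) (h : ∀ χ ∈ Irr G, om f χ = om g χ) : f = g := by
  have h1 : (fun x => f x⁻¹ - g x⁻¹) = 0 := by
    apply irr_complete'
    · intro x y
      have e1 : (y * x * y⁻¹)⁻¹ = y * x⁻¹ * y⁻¹ := by group
      rw [e1, hf, hg]
    · intro χ hχ
      have h2 := h χ hχ
      have h3 : χ 1 ≠ 0 := irr_one_ne hχ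
      rw [om, om, div_left_inj' h3] at h2
      rw [← Equiv.sum_comp (Equiv.inv G)]
      simp only [Equiv.inv_apply, inv_inv, sub_mul, Finset.sum_sub_distrib]
      rw [h2, sub_self]
  funext x
  have := congrFun h1 x⁻¹
  simp only [inv_inv, Pi.zero_apply] at this
  exact sub_eq_zero.1 this

end pw

section lift

variable {G : Type} [Group G] [Fintype G] {M : Ideal (integralClosure ℤ ℂ)}

theorem irrE_fin (e : G → FF M) : (IrrE M e).Finite :=
  (irr_finite' (G := G)).subset fun _ h => h.1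

theorem eh_eq (e : G → FF M) (g : G) : eh M e g =
    (Fintype.card G : ℂ)⁻¹ * ∑ χ ∈ (irrE_fin e).toFinset, χ 1 * χ g⁻¹ := by
  rw [eh, Nat.card_eq_fintype_card, finsum_mem_eq_finite_toFinset_sum]

theorem eh_cl (e : G → FF M) : ∀ x y, eh M e (y * x * y⁻¹) = eh M e x := by
  intro x y
  rw [eh_eq, eh_eq]
  congr 1
  refine Finset.sum_congr rfl fun χ hχ => ?_
  have h1 : χ ∈ Irr G := ((irrE_fin e).mem_toFinset.1 hχ).1
  have e1 : (y * x * y⁻¹)⁻¹ = y * x⁻¹ * y⁻¹ := by group
  rw [e1, irr_conj h1]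

theorem eh_om (e : G → FF M) {ψ : G → ℂ} (hψ : ψ ∈ Irr G) :
    (ψ ∈ IrrE M e → om (eh M e) ψ = 1) ∧ (ψ ∉ IrrE M e → om (eh M e) ψ = 0) := by
  classical
  have hc : (Fintype.card G : ℂ) ≠ 0 := by exact_mod_cast Fintype.card_ne_zero
  have hn : ψ 1 ≠ 0 := irr_one_ne hψ
  have h1 : ∑ t, eh M e t * ψ t = (Fintype.card G : ℂ)⁻¹ *
      ∑ χ ∈ (irrE_fin e).toFinset, χ 1 * ∑ t, ψ t * χ t⁻¹ := by
    simp_rw [eh_eq, mul_assoc, ← Finset.mul_sum, Finset.sum_mul]
    rw [Finset.sum_comm]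
    congr 1
    refine Finset.sum_congr rfl fun χ _ => ?_
    rw [Finset.mul_sum]
    refine Finset.sum_congr rfl fun t _ => ?_
    ring
  constructor
  · intro h
    rw [om, h1, Finset.sum_eq_single_of_mem ψ ((irrE_fin e).mem_toFinset.2 h),
      irr_orth_self hψ]
    · field_simp
    · intro χ hχ hne
      have h2 : χ ∈ Irr G := ((irrE_fin e).mem_toFinset.1 hχ).1
      rw [irr_orth_ne hψ h2 (Ne.symm hne), mul_zero]
  · intro h
    rw [om, h1, Finset.sum_eq_zero, mul_zero, zero_div]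
    intro χ hχ
    have h2 := (irrE_fin e).mem_toFinset.1 hχ
    have hne : χ ≠ ψ := fun h3 => h (h3 ▸ h2)
    rw [irr_orth_ne hψ h2.1 (Ne.symm hne), mul_zero]

theorem mulF_eq (a b : G → ℂ) : mulF a b = fun y => ∑ h, a h * b (h⁻¹ * y) := by
  funext y
  rw [mulF, finsum_eq_sum_of_fintype]

theorem eh_idem (e : G → FF M) : IsIdem (eh M e) := by
  refine ⟨eh_cl e, ?_⟩
  apply ext_om _ (eh_cl e)
  · intro χ hχ
    rw [mulF_eq, om_mul (eh_cl e) hχ]
    by_cases h : χ ∈ IrrE M e
    · rw [(eh_om e hχ).1 h, one_mul]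
    · rw [(eh_om e hχ).2 h, zero_mul]
  · intro x y
    rw [mulF_eq]
    change ∑ h, eh M e h * eh M e (h⁻¹ * (y * x * y⁻¹)) = ∑ h, eh M e h * eh M e (h⁻¹ * x)
    rw [← Equiv.sum_comp (MulAut.conj y).toEquiv
      (fun h => eh M e h * eh M e (h⁻¹ * (y * x * y⁻¹)))]
    refine Finset.sum_congr rfl fun h _ => ?_
    change eh M e (y * h * y⁻¹) * eh M e ((y * h * y⁻¹)⁻¹ * (y * x * y⁻¹)) = _
    have h2 : (y * h * y⁻¹)⁻¹ * (y * x * y⁻¹) = y * (h⁻¹ * x) * y⁻¹ := by group
    rw [h2, eh_cl, eh_cl]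

theorem chv_eh (e : G → FF M) {χ : G → ℂ} (hχ : χ ∈ Irr G) (a : G → ℂ) :
    chv (mulF (eh M e) a) χ = om (eh M e) χ * chv a χ := by
  rw [chv, chv, finsum_eq_sum_of_fintype, finsum_eq_sum_of_fintype, mulF_eq]
  have h2 : ∑ t, (∑ h, eh M e h * a (h⁻¹ * t)) * χ t =
      ∑ s, a s * ∑ h, eh M e h * χ (h * s) := by
    simp_rw [Finset.sum_mul, Finset.mul_sum]
    rw [Finset.sum_comm]
    have h3 : ∀ h, ∑ t, eh M e h * a (h⁻¹ * t) * χ t = ∑ s, a s * (eh M e h * χ (h * s)) := by
      intro h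
      rw [← Equiv.sum_comp (Equiv.mulLeft h) (fun t => eh M e h * a (h⁻¹ * t) * χ t)]
      refine Finset.sum_congr rfl fun t _ => ?_
      rw [Equiv.coe_mulLeft, inv_mul_cancel_left]
      ring
    simp_rw [h3]
    rw [Finset.sum_comm]
  rw [h2, Finset.mul_sum]
  refine Finset.sum_congr rfl fun s _ => ?_
  rw [eigen (eh_cl e) hχ]
  ring

end lift

section main

variable {G : Type} [Group G] [Fintype G] {M : Ideal (integralClosure ℤ ℂ)} [hM : M.IsMaximal]

theorem main (e : G → FF M) (he : IsIdem e) (g : G) :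
    eh M e g ∈ RM M ∧ rr M (eh M e g) = e g := by
  classical
  by_cases hY : IrrE M e = ∅
  · have h0 : e = 0 := by
      by_contra h
      obtain ⟨χ, hχ, h1⟩ := exists_irr_res he h
      have : χ ∈ IrrE M e := ⟨hχ, h1⟩
      rw [hY] at this
      exact this
    have h1 : eh M e g = 0 := by
      rw [eh, hY]
      simp
    rw [h1, h0]
    exact ⟨(RM M).zero_mem, rr_zero⟩
  obtain ⟨χ₀, hχ₀⟩ := Set.nonempty_iff_ne_empty.2 hY
  obtain ⟨a, ha, ea⟩ := exists_lift (M := M) (b := e) he.1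
  let aC : G → ℂ := fun t => (a t : ℂ)
  have haC : ∀ x y, aC (y * x * y⁻¹) = aC x := fun x y => by simp only [aC, ha x y]
  let aR : G → RM M := fun t => ⟨a t, RM_of_int (a t).2⟩
  have hee : (fun t => Ideal.Quotient.mk M (a t)) = e := funext ea
  -- the central characters
  have hint : ∀ χ ∈ Irr G, IsIntegral ℤ (om aC χ) := fun χ hχ => (res_irr (M := M) a ha hχ).2
  have hred : ∀ χ ∈ Irr G, rr M (om aC χ) = res M e χ := by
    intro χ hχ
    rw [rr_of_int (hint χ hχ), ← (res_irr (M := M) a ha hχ).1, hee]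
  let t : (G → ℂ) → RM M := fun χ => if h : χ ∈ Irr G then ⟨om aC χ, RM_of_int (hint χ h)⟩ else 0
  have ht : ∀ χ ∈ Irr G, ((t χ : RM M) : ℂ) = om aC χ := by
    intro χ hχ
    simp only [t, dif_pos hχ]
  have htr : ∀ χ ∈ Irr G, rrHom M (t χ) = res M e χ := by
    intro χ hχ
    rw [rrHom_apply, ht χ hχ, hred χ hχ]
  let Y : Finset (G → ℂ) := (irrE_fin e).toFinset
  let Nn : Finset (G → ℂ) := (irr_finite' (G := G)).toFinset \ Y
  have hYm : ∀ χ, χ ∈ Y ↔ χ ∈ Irr G ∧ res M e χ = 1 := fun χ => (irrE_fin e).mem_toFinset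
  have hNm : ∀ χ, χ ∈ Nn ↔ χ ∈ Irr G ∧ res M e χ = 0 := by
    intro χ
    simp only [Nn, Finset.mem_sdiff, Set.Finite.mem_toFinset, hYm]
    constructor
    · rintro ⟨h1, h2⟩
      refine ⟨h1, ?_⟩
      rcases res_idem he h1 with h | h
      · exact h
      · exact absurd ⟨h1, h⟩ h2
    · rintro ⟨h1, h2⟩
      refine ⟨h1, fun h3 => ?_⟩
      rw [h2] at h3
      exact zero_ne_one h3.2
  let P : (RM M)[X] := X * ∏ χ ∈ Nn, (X - C (t χ))
  have hPe : ∀ z : RM M, P.eval z = z * ∏ χ ∈ Nn, (z - t χ) := by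
    intro z
    simp only [P, eval_mul, eval_X, eval_prod, eval_sub, eval_C]
  have hPr : ∀ z : RM M, rrHom M (P.eval z) = rrHom M z * rrHom M z ^ Nn.card := by
    intro z
    rw [hPe, map_mul, map_prod]
    congr 1
    rw [Finset.prod_congr rfl (g := fun _ => rrHom M z), Finset.prod_const]
    intro χ hχ
    have h1 := (hNm χ).1 hχ
    rw [map_sub, htr χ h1.1, h1.2, sub_zero]
  -- units
  have hu : ∀ χ ∈ Y, ∃ v : RM M, v * P.eval (t χ) = 1 ∧ rrHom M v = 1 := by
    intro χ hχ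
    have h1 := (hYm χ).1 hχ
    have h2 : rrHom M (P.eval (t χ)) = 1 := by
      rw [hPr, htr χ h1.1, h1.2, one_pow, one_mul]
    have h3 : rr M ((P.eval (t χ) : RM M) : ℂ) ≠ 0 := by
      rw [← rrHom_apply, h2]
      exact one_ne_zero
    obtain ⟨h4, h5⟩ := inv_RM (P.eval (t χ)).2 h3
    refine ⟨⟨_, h4⟩, ?_, ?_⟩
    · apply Subtype.ext
      push_cast
      exact inv_mul_cancel₀ h5
    · rw [rrHom_apply]
      change rr M (((P.eval (t χ) : RM M) : ℂ)⁻¹) = 1
      rw [rr_inv (P.eval (t χ)).2 h3, ← rrHom_apply, h2, inv_one]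
  choose! v hv1 hv2 using hu
  let Q : (RM M)[X] := 1 - ∏ χ ∈ Y, (1 - C (v χ) * P)
  have hQe : ∀ z : RM M, Q.eval z = 1 - ∏ χ ∈ Y, (1 - v χ * P.eval z) := by
    intro z
    simp only [Q, eval_sub, eval_one, eval_prod, eval_mul, eval_C]
  have hQ1 : ∀ χ ∈ Y, Q.eval (t χ) = 1 := by
    intro χ hχ
    rw [hQe, Finset.prod_eq_zero hχ, sub_zero]
    rw [hv1 χ hχ, sub_self]
  have hQ0 : ∀ χ ∈ Nn, Q.eval (t χ) = 0 := by
    intro χ hχ
    have h0 : ∏ ψ ∈ Nn, (t χ - t ψ) = 0 := Finset.prod_eq_zero hχ (sub_self _)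
    have h1 : P.eval (t χ) = 0 := by
      rw [hPe, h0, mul_zero]
    rw [hQe, h1]
    simp
  have hQr0 : rrHom M (Q.eval 0) = 0 := by
    rw [hQe]
    have h1 : P.eval 0 = 0 := by rw [hPe, zero_mul]
    rw [h1]
    simp
  have hχY : χ₀ ∈ Y := (hYm _).2 hχ₀
  have hQr1 : rrHom M (Q.eval 1) = 1 := by
    rw [hQe, map_sub, map_one, map_prod, Finset.prod_eq_zero hχY, sub_zero]
    rw [map_sub, map_one, map_mul, hv2 χ₀ hχY, hPr, map_one, one_pow, one_mul, one_mul, sub_self]
  -- the element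
  let p : G → RM M := fun g => ∑ n ∈ Finset.range (Q.natDegree + 1), Q.coeff n * pw aR n g
  have hpC : ∀ g, ((p g : RM M) : ℂ) =
      ∑ n ∈ Finset.range (Q.natDegree + 1), (Q.coeff n : ℂ) * pw aC n g := by
    intro g
    have h1 := map_sum (RM M).subtype (fun n => Q.coeff n * pw aR n g)
      (Finset.range (Q.natDegree + 1))
    refine Eq.trans h1 (Finset.sum_congr rfl fun n _ => ?_)
    rw [map_mul, pw_map]
    rfl
  have hpF : ∀ g, rrHom M (p g) =
      ∑ n ∈ Finset.range (Q.natDegree + 1), rrHom M (Q.coeff n) * pw e n g := by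
    intro g
    have h1 := map_sum (rrHom M) (fun n => Q.coeff n * pw aR n g)
      (Finset.range (Q.natDegree + 1))
    refine Eq.trans h1 (Finset.sum_congr rfl fun n _ => ?_)
    rw [map_mul, pw_map]
    congr 2
    funext s
    rw [rrHom_apply]
    change rr M ((a s : integralClosure ℤ ℂ) : ℂ) = e s
    rw [rr_of_int (a s).2, red_of (a s).2, ← ea s]
  -- the element is the lift
  have hpe : (fun g => ((p g : RM M) : ℂ)) = eh M e := by
    apply ext_om _ (eh_cl e)
    · intro χ hχ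
      have h1 : om (fun g => ((p g : RM M) : ℂ)) χ = ((Q.eval (t χ) : RM M) : ℂ) := by
        have h2 : ∀ n, ∑ s, pw aC n s * χ s = om aC χ ^ n * χ 1 := by
          intro n
          rw [← pw_om haC hχ, om, div_mul_cancel₀ _ (irr_one_ne hχ)]
        have h3 : ∑ s, ((p s : RM M) : ℂ) * χ s =
            (∑ n ∈ Finset.range (Q.natDegree + 1), (Q.coeff n : ℂ) * om aC χ ^ n) * χ 1 := by
          simp_rw [hpC, Finset.sum_mul]
          rw [Finset.sum_comm]
          refine Finset.sum_congr rfl fun n _ => ?_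
          simp_rw [mul_assoc]
          rw [← Finset.mul_sum, h2]
        rw [om, h3, mul_div_cancel_right₀ _ (irr_one_ne hχ), eval_eq_sum_range]
        rw [← ht χ hχ]
        push_cast
        rfl
      rw [h1]
      by_cases h : χ ∈ Y
      · rw [hQ1 χ h, (eh_om e hχ).1 ((hYm χ).1 h)]
        rfl
      · have h4 : χ ∈ Nn := by
          rw [hNm]
          refine ⟨hχ, ?_⟩
          rcases res_idem he hχ with h5 | h5
          · exact h5
          · exact absurd ((hYm χ).2 ⟨hχ, h5⟩) h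
        rw [hQ0 χ h4, (eh_om e hχ).2 (fun h5 => h ((hYm χ).2 h5))]
        rfl
    · intro x y
      simp only [hpC]
      exact Finset.sum_congr rfl fun n _ => by rw [pw_cl haC]
  have hg : eh M e g = ((p g : RM M) : ℂ) := (congrFun hpe g).symm
  rw [hg]
  refine ⟨(p g).2, ?_⟩
  rw [← rrHom_apply, hpF]
  have hid : ∀ y, ∑ h, e h * e (h⁻¹ * y) = e y := by
    intro y
    have := congrFun he.2 y
    rw [mulF, finsum_eq_sum_of_fintype] at this
    exact this
  rw [Finset.sum_range_succ']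
  have h1 : ∀ n ∈ Finset.range Q.natDegree, rrHom M (Q.coeff (n + 1)) * pw e (n + 1) g =
      rrHom M (Q.coeff (n + 1)) * e g := fun n _ => by rw [pw_idem hid]
  rw [Finset.sum_congr rfl h1, ← Finset.sum_mul]
  have h2 : Q.coeff 0 = Q.eval 0 := coeff_zero_eq_eval_zero Q
  have h3 : ∑ n ∈ Finset.range Q.natDegree, rrHom M (Q.coeff (n + 1)) = 1 := by
    have h4 : Q.eval 1 = ∑ n ∈ Finset.range (Q.natDegree + 1), Q.coeff n := by
      rw [eval_eq_sum_range]
      simp
    have h5 := hQr1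
    rw [h4, map_sum, Finset.sum_range_succ', h2, hQr0, add_zero] at h5
    exact h5
  rw [h2, hQr0, h3, one_mul, zero_mul, add_zero]

end main

theorem idm : IdmStmt := by
  intro M _ G _ _ e he
  have := Fintype.ofFinite G
  refine ⟨fun g => main e he g, eh_idem e, ?_⟩
  intro χ hχ a
  constructor
  · intro h
    rw [chv_eh e hχ, (eh_om e hχ).1 ⟨hχ, h⟩, one_mul]
  · intro h
    rw [chv_eh e hχ, (eh_om e hχ).2 (fun h' => h h'.2), zero_mul]

end Pool.Agent.PP.KF.H25
end
end -- Pool.Agent.Helper25_KF.Idm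

section -- Pool.Agent.Helper88_K9.Val

/-!
# Squad K9, row VAL: the values at the singular elements
-/

open scoped BigOperators

noncomputable section

namespace Pool.Agent.PP.K9.H88

open Pool.Agent.Helper51_AWC Pool.Agent.Helper79_WRA Pool.Agent.PP Pool.Agent.PP.KF
  Pool.Agent.PP.K9

attribute [local instance] Ideal.Quotient.field

/-- a nontrivial element of a group of prime order generates it -/
theorem mem_zp {G : Type} [Group G] [Finite G] {ℓ : ℕ} (hl : ℓ.Prime) {v w : G}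
    (hv : orderOf v = ℓ) (hw : w ∈ Subgroup.zpowers v) (h1 : w ≠ 1) :
    orderOf w = ℓ ∧ v ∈ Subgroup.zpowers w := by
  have h2 : orderOf w ∣ ℓ := by
    rw [← hv]; exact orderOf_dvd_of_mem_zpowers hw
  have h3 : orderOf w = ℓ := by
    rcases (Nat.dvd_prime hl).1 h2 with h | h
    · exact absurd (orderOf_eq_one_iff.1 h) h1
    · exact h
  refine ⟨h3, ?_⟩
  have h4 : Subgroup.zpowers w ≤ Subgroup.zpowers v := by
    rw [Subgroup.zpowers_le]; exact hw
  have h5 : Subgroup.zpowers w = Subgroup.zpowers v :=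
    Subgroup.eq_of_le_of_card_ge h4 (by rw [Nat.card_zpowers, Nat.card_zpowers, hv, h3])
  rw [h5]
  exact Subgroup.mem_zpowers v

theorem cu_cent {G : Type} [Group G] (u : G) :
    Cu u = Subgroup.centralizer (Subgroup.zpowers u : Set G) := by
  apply le_antisymm
  · intro x hx
    rw [Subgroup.mem_centralizer_iff]
    rintro _ ⟨k, rfl⟩
    have : Commute x u := Subgroup.mem_centralizer_singleton_iff.1 hx
    exact (this.zpow_right k).eq.symm
  · refine Subgroup.centralizer_le ?_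
    rw [Set.singleton_subset_iff]
    exact Subgroup.mem_zpowers u

/-- the restriction to the centraliser of an element of order `ℓ` -/
theorem idem_cu {ℓ : ℕ} {F X : Type} [Field F] (hF : GoodF ℓ F) [Group X] [Finite X] {e : X → F}
    (he : IsIdem e) {u : X} (hu : orderOf u = ℓ) : IsIdem (fun t : Cu u => e t) := by
  have : Fact ℓ.Prime := ⟨hF.prime⟩
  have hp : IsPGroup ℓ (Subgroup.zpowers u) :=
    IsPGroup.of_card (n := 1) (by rw [Nat.card_zpowers, hu, pow_one])
  have hc := (cu_cent u).ge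
  have hc' := (cu_cent u).le
  have hn : Cu u ≤ Subgroup.normalizer (Subgroup.zpowers u : Set X) :=
    hc'.trans (Subgroup.centralizer_le_normalizer _)
  have h := (H20.brm ℓ F hF X (Subgroup.zpowers u) (Cu u) hp hc hn).2.2 e he
  have h2 : (fun t : Cu u => br (Subgroup.zpowers u) e t) = fun t : Cu u => e t := by
    funext t
    exact H66.br_of_mem (hc' t.2)
  rwa [h2] at h

section gb

variable {G : Type} [Group G] [Finite G] {M : Ideal (integralClosure ℤ ℂ)} [hM : M.IsMaximal]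

omit hM in
open Classical in
/-- `χ(x b)` in terms of the constituents of the restriction -/
theorem gbv_eq (C : Subgroup G) [Fintype (Irr C)] (b : C → FF M) (m : Irr C → ℂ) {χ : G → ℂ}
    (hm : ∀ c : C, χ c = ∑ κ : Irr C, m κ * (κ : C → ℂ) c) (x : C) :
    gbv C x (eh M b) χ = ∑ κ : Irr C, if (κ : C → ℂ) ∈ IrrE M b then m κ * (κ : C → ℂ) x
      else 0 := by
  have := Fintype.ofFinite C
  rw [gbv, finsum_eq_sum_of_fintype]
  have h1 : ∀ c : C, eh M b c * χ ((x : G) * c) =
      ∑ κ : Irr C, m κ * (eh M b c * (κ : C → ℂ) (c * x)) := by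
    intro c
    have h2 : χ ((x : G) * c) = χ ((x * c : C) : G) := by rw [Subgroup.coe_mul]
    rw [h2, hm, Finset.mul_sum]
    refine Finset.sum_congr rfl fun κ _ => ?_
    rw [irr_mul_comm κ.2 c x]
    ring
  simp_rw [h1]
  rw [Finset.sum_comm]
  refine Finset.sum_congr rfl fun κ _ => ?_
  rw [← Finset.mul_sum, H50.eigen (H25.eh_cl b) κ.2 x]
  split_ifs with h
  · rw [(H25.eh_om b κ.2).1 h, one_mul]
  · rw [(H25.eh_om b κ.2).2 h, zero_mul, mul_zero]

/-- the restriction of a function in the block to the elements with `u` as a power -/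
theorem key (sm2 : Sm2Stmt) {ℓ : ℕ} [Fact ℓ.Prime] (hl : (ℓ : integralClosure ℤ ℂ) ∈ M)
    {e : G → FF M} (he : IsIdem e) {u : G} (hu : orderOf u = ℓ) {χ : G → ℂ}
    (hχ : χ ∈ IrrE M e) : ∃ g ∈ Submodule.span ℂ (IrrE M (fun t : Cu u => e t)),
      ∀ x : Cu u, u ∈ Subgroup.zpowers (x : G) → χ x = g x := by
  classical
  have := Fintype.ofFinite (Cu u)
  have := Fintype.ofFinite (Irr (Cu u))
  have hF : GoodF ℓ (FF M) := H50.fld ℓ (Fact.out) M hl
  have heC : IsIdem (fun t : Cu u => e t) := idem_cu hF he hu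
  obtain ⟨m, hm⟩ := H50.decomp (fun c : Cu u => χ c) (fun x y => irr_conj hχ.1 _ _)
  have hm' : ∀ c : Cu u, χ c = ∑ κ : Irr (Cu u), m κ * (κ : Cu u → ℂ) c := by
    intro c
    have := congrFun hm c
    rw [Finset.sum_apply] at this
    exact this
  obtain ⟨hb, hb0⟩ := H46.isIdem_sub (H46.isIdem_one (F := FF M) (H := Cu u)) heC
    (H46.one_mulF _)
  have hbE : ∀ κ : Irr (Cu u), (κ : Cu u → ℂ) ∈ IrrE M (dl (FF M) (1 : Cu u) -
      fun t : Cu u => e t) ↔ ¬ (κ : Cu u → ℂ) ∈ IrrE M (fun t : Cu u => e t) := by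
    intro κ
    have h1 : res M (dl (FF M) (1 : Cu u) - fun t : Cu u => e t) κ =
        1 - res M (fun t : Cu u => e t) κ := by
      rw [H50.res_sub, H50.res_one (irr_one_ne κ.2) (fun g => omega_integral _ κ.2 g)]
    rcases H50.res_idem heC κ.2 with h | h
    · constructor
      · rintro - ⟨-, h3⟩
        rw [h] at h3
        exact zero_ne_one h3
      · intro _
        exact ⟨κ.2, by rw [h1, h, sub_zero]⟩
    · constructor
      · rintro ⟨-, h3⟩
        rw [h1, h, sub_self] at h3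
        exact absurd h3 zero_ne_one
      · intro h3
        exact absurd ⟨κ.2, h⟩ h3
  refine ⟨∑ κ : Irr (Cu u), if (κ : Cu u → ℂ) ∈ IrrE M (fun t : Cu u => e t) then
    m κ • (κ : Cu u → ℂ) else 0, ?_, ?_⟩
  · refine Submodule.sum_mem _ fun κ _ => ?_
    split_ifs with h
    · exact Submodule.smul_mem _ _ (Submodule.subset_span h)
    · exact Submodule.zero_mem _
  · intro x hx
    have hxu : (x : G) ∈ Cu u := x.2
    have h2 := (sm2 ℓ M hl G u hu x hxu hx _ hb e he).2 hb0 χ hχ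
    rw [gbv_eq (Cu u) _ m hm' x] at h2
    rw [hm' x, Finset.sum_apply, ← sub_eq_zero, ← Finset.sum_sub_distrib, ← h2]
    refine Finset.sum_congr rfl fun κ _ => ?_
    by_cases h : (κ : Cu u → ℂ) ∈ IrrE M (fun t : Cu u => e t)
    · rw [if_pos h, if_neg (fun h' => (hbE κ).1 h' h), Pi.smul_apply, smul_eq_mul, sub_self]
    · rw [if_neg h, if_pos ((hbE κ).2 h), Pi.zero_apply, sub_zero]

theorem key_span (sm2 : Sm2Stmt) {ℓ : ℕ} [Fact ℓ.Prime] (hl : (ℓ : integralClosure ℤ ℂ) ∈ M)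
    {e : G → FF M} (he : IsIdem e) {u : G} (hu : orderOf u = ℓ) {f : G → ℂ}
    (hf : f ∈ Submodule.span ℂ (IrrE M e)) :
    ∃ g ∈ Submodule.span ℂ (IrrE M (fun t : Cu u => e t)),
      ∀ x : Cu u, u ∈ Subgroup.zpowers (x : G) → f x = g x := by
  induction hf using Submodule.span_induction with
  | mem χ hχ => exact key sm2 hl he hu hχ
  | zero => exact ⟨0, Submodule.zero_mem _, fun _ _ => rfl⟩
  | add a b _ _ ha hb =>
    obtain ⟨g, hg, h1⟩ := ha
    obtain ⟨g', hg', h2⟩ := hb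
    refine ⟨g + g', Submodule.add_mem _ hg hg', fun x hx => ?_⟩
    rw [Pi.add_apply, Pi.add_apply, h1 x hx, h2 x hx]
  | smul c a _ ha =>
    obtain ⟨g, hg, h1⟩ := ha
    refine ⟨c • g, Submodule.smul_mem _ _ hg, fun x hx => ?_⟩
    rw [Pi.smul_apply, Pi.smul_apply, h1 x hx]

end gb

section loc

variable {G H : Type} [Group G] [Finite G] [Group H] [Finite H]
  {M : Ideal (integralClosure ℤ ℂ)} [hM : M.IsMaximal]

omit [Finite G] [Finite H] hM in
/-- the characters of the blocks of the quotient -/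
def K0 (e : G → FF M) {v : G} (π : Cu v →* H) : Set (H → ℂ) :=
  {κ | ∃ γ : Cu v → FF M, IsBlk γ ∧ mulF (fun t : Cu v => e t) γ = γ ∧
    κ ∈ IrrE M (H75.push π γ)}

theorem loc (ce0 : Ce0Stmt) (kap : KapStmt) {ℓ : ℕ} [Fact ℓ.Prime]
    (hl : (ℓ : integralClosure ℤ ℂ) ∈ M) {e : G → FF M} (he : IsBlk e) {v : G}
    (hV : Tp ℓ e (Subgroup.zpowers v)) {π : Cu v →* H} (hπ : Qt ℓ v π) {vC : Cu v}
    (hvC : (vC : G) = v) {κ : Cu v → ℂ} (hκ : κ ∈ IrrE M (fun t : Cu v => e t)) :
    ∃ κ₀ ∈ K0 e π, ∃ ω : ℂ,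
      (∀ (i : ℕ) (s : Cu v), Reg ℓ s → κ (vC ^ i * s) = ω ^ i * κ₀ (π s)) ∧
      ∀ x : Cu v, (∀ (i : ℕ) (s : Cu v), Reg ℓ s → x ≠ vC ^ i * s) → κ x = 0 := by
  classical
  have := Fintype.ofFinite (Cu v)
  have hF : GoodF ℓ (FF M) := H50.fld ℓ (Fact.out) M hl
  have heC : IsIdem (fun t : Cu v => e t) := idem_cu hF he.1 hπ.ord
  obtain ⟨γ, hγ, h1⟩ := H50.exists_block (M := M) hκ.1
  have h2 : mulF (fun t : Cu v => e t) γ = γ := by
    rw [H46.mulF_comm heC.1]
    rcases hγ.2.2 _ heC with h | h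
    · exact h
    · exfalso
      have h3 := H50.res_mul hγ.1.1 heC.1 hκ.1
      rw [h, H50.res_zero, h1, hκ.2, one_mul] at h3
      exact zero_ne_one h3
  obtain ⟨κ₀, hκ₀, hR⟩ := kap ℓ M hl G H e he v hV π hπ γ hγ h2
  have hcen : vC ∈ Subgroup.center (Cu v) := by
    rw [Subgroup.mem_center_iff]
    intro c
    apply Subtype.ext
    rw [Subgroup.coe_mul, Subgroup.coe_mul, hvC]
    exact Subgroup.mem_centralizer_singleton_iff.1 c.2
  have hord : orderOf vC = ℓ := by
    rw [← Subgroup.orderOf_coe, hvC, hπ.ord]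
  have hker : ∀ c : Cu v, π c = 1 ↔ c ∈ Subgroup.zpowers vC := by
    intro c
    rw [hπ.ker c, Subgroup.mem_zpowers_iff, Subgroup.mem_zpowers_iff]
    refine exists_congr fun k => ?_
    have hk : ((vC ^ k : Cu v) : G) = v ^ k := by rw [Subgroup.coe_zpow, hvC]
    rw [← hk, Subtype.ext_iff]
  obtain ⟨ω, -, h4, h5⟩ := ce0 ℓ M hl (Cu v) H π hπ.sur vC hcen hord hker γ hγ.1 κ₀ hκ₀ hR κ
    ⟨hκ.1, h1⟩
  exact ⟨κ₀, ⟨γ, hγ, h2, by rw [hκ₀]; rfl⟩, ω, h4, h5⟩

theorem loc_span (ce0 : Ce0Stmt) (kap : KapStmt) {ℓ : ℕ} [Fact ℓ.Prime]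
    (hl : (ℓ : integralClosure ℤ ℂ) ∈ M) {e : G → FF M} (he : IsBlk e) {v : G}
    (hV : Tp ℓ e (Subgroup.zpowers v)) {π : Cu v →* H} (hπ : Qt ℓ v π) {vC : Cu v}
    (hvC : (vC : G) = v) (i : ℕ) {g : Cu v → ℂ}
    (hg : g ∈ Submodule.span ℂ (IrrE M (fun t : Cu v => e t))) :
    (∃ F ∈ Submodule.span ℂ (K0 e π), ∀ s : Cu v, Reg ℓ s → g (vC ^ i * s) = F (π s)) ∧
      ∀ x : Cu v, (∀ (j : ℕ) (s : Cu v), Reg ℓ s → x ≠ vC ^ j * s) → g x = 0 := by
  induction hg using Submodule.span_induction with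
  | mem χ hχ =>
    obtain ⟨κ₀, h0, ω, h1, h2⟩ := loc ce0 kap hl he hV hπ hvC hχ
    refine ⟨⟨ω ^ i • κ₀, Submodule.smul_mem _ _ (Submodule.subset_span h0), fun s hs => ?_⟩, h2⟩
    rw [h1 i s hs, Pi.smul_apply, smul_eq_mul]
  | zero => exact ⟨⟨0, Submodule.zero_mem _, fun _ _ => rfl⟩, fun _ _ => rfl⟩
  | add a b _ _ ha hb =>
    obtain ⟨⟨F, hF, h1⟩, h2⟩ := ha
    obtain ⟨⟨F', hF', h3⟩, h4⟩ := hb
    refine ⟨⟨F + F', Submodule.add_mem _ hF hF', fun s hs => ?_⟩, fun x hx => ?_⟩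
    · rw [Pi.add_apply, Pi.add_apply, h1 s hs, h3 s hs]
    · rw [Pi.add_apply, h2 x hx, h4 x hx, add_zero]
  | smul c a _ ha =>
    obtain ⟨⟨F, hF, h1⟩, h2⟩ := ha
    refine ⟨⟨c • F, Submodule.smul_mem _ _ hF, fun s hs => ?_⟩, fun x hx => ?_⟩
    · rw [Pi.smul_apply, Pi.smul_apply, h1 s hs]
    · rw [Pi.smul_apply, h2 x hx, smul_zero]

end loc

theorem span_conj {G : Type} [Group G] {S : Set (G → ℂ)} (hS : S ⊆ Irr G) {f : G → ℂ}
    (hf : f ∈ Submodule.span ℂ S) (x y : G) : f (y * x * y⁻¹) = f x := by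
  induction hf using Submodule.span_induction with
  | mem χ hχ =>
    obtain ⟨n, ρ, hρ, rfl⟩ := hS hχ
    exact Representation.char_conj ρ x y
  | zero => rfl
  | add a b _ _ ha hb => rw [Pi.add_apply, Pi.add_apply, ha, hb]
  | smul c a _ ha => rw [Pi.smul_apply, Pi.smul_apply, ha]

theorem val (fmg : FmgStmt) (sm2 : Sm2Stmt) (ce0 : Ce0Stmt) (kap : KapStmt) : ValStmt := by
  intro ℓ _ M _ hl G H _ _ _ _ e he v hV π hπ f hf hA x hx
  classical
  have := Fintype.ofFinite G
  have := Fintype.ofFinite (Cu v)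
  have hlp : ℓ.Prime := Fact.out
  have hcl := span_conj (fun χ hχ => hχ.1) hf
  -- the main case
  have main : ∀ x : G, ¬ Reg ℓ x → v ∈ Subgroup.zpowers x → f x = 0 := by
    intro x hx hvx
    have hxC : x ∈ Cu v := by
      rw [Subgroup.mem_centralizer_singleton_iff]
      obtain ⟨k, hk⟩ := Subgroup.mem_zpowers_iff.1 hvx
      rw [← hk]
      exact ((Commute.refl x).zpow_right k).eq
    obtain ⟨vC, hvC⟩ : ∃ vC : Cu v, (vC : G) = v :=
      ⟨⟨v, Subgroup.mem_centralizer_singleton_iff.2 rfl⟩, rfl⟩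
    obtain ⟨g, hg, hgx⟩ := key_span sm2 hl he.1 hπ.ord hf
    have h0 : f x = g ⟨x, hxC⟩ := hgx ⟨x, hxC⟩ hvx
    by_cases hform : ∃ (i : ℕ) (s : Cu v), Reg ℓ s ∧ (⟨x, hxC⟩ : Cu v) = vC ^ i * s
    · obtain ⟨i, s₀, hs₀, hx₀⟩ := hform
      have hx1 : x = v ^ i * s₀ := by
        have := congrArg (Subtype.val : Cu v → G) hx₀
        rw [Subgroup.coe_mul, Subgroup.coe_pow, hvC] at this
        exact this
      have hw : v ^ i ∈ Subgroup.zpowers v := ⟨i, zpow_natCast v i⟩
      have hw1 : v ^ i ≠ 1 := by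
        intro h
        rw [h, one_mul] at hx1
        apply hx
        rw [hx1]
        have h1 : (orderOf s₀).Coprime ℓ := hs₀
        rw [← Subgroup.orderOf_coe] at h1
        exact h1
      obtain ⟨hwo, -⟩ := mem_zp hlp hπ.ord hw hw1
      obtain ⟨⟨F, hF, hFs⟩, -⟩ := loc_span ce0 kap hl he hV hπ hvC i hg
      have hpow : ∀ s : Cu v, Reg ℓ s → v ∈ Subgroup.zpowers (v ^ i * (s : G)) := by
        intro s hs
        have hcm : Commute (v ^ i) (s : G) := by
          have h1 : Commute (s : G) v := Subgroup.mem_centralizer_singleton_iff.1 s.2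
          exact (h1.pow_right i).symm
        have h1 : (orderOf (s : G)).Coprime ℓ := by
          have h2 : (orderOf s).Coprime ℓ := hs
          rwa [← Subgroup.orderOf_coe] at h2
        have h2 : (v ^ i * (s : G)) ^ orderOf (s : G) = (v ^ i) ^ orderOf (s : G) := by
          rw [hcm.mul_pow, pow_orderOf_eq_one, mul_one]
        have h3 : (v ^ i) ^ orderOf (s : G) ≠ 1 := by
          intro h
          have h4 := orderOf_dvd_of_pow_eq_one h
          rw [hwo] at h4
          have h5 := (Nat.Prime.coprime_iff_not_dvd hlp).1 h1.symm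
          exact h5 h4
        have h4 := (mem_zp hlp hπ.ord (Subgroup.pow_mem _ hw _) h3).2
        rw [← h2] at h4
        have h5 : Subgroup.zpowers ((v ^ i * (s : G)) ^ orderOf (s : G)) ≤
            Subgroup.zpowers (v ^ i * (s : G)) := by
          rw [Subgroup.zpowers_le]
          exact Subgroup.pow_mem _ (Subgroup.mem_zpowers _) _
        exact h5 h4
      have hfw : ∀ s : Cu v, Reg ℓ s → f (v ^ i * s) = F (π s) := by
        intro s hs
        rw [← hFs s hs]
        have h1 : v ^ i * (s : G) = ((vC ^ i * s : Cu v) : G) := by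
          rw [Subgroup.coe_mul, Subgroup.coe_pow, hvC]
        rw [h1]
        apply hgx
        rw [← h1]
        exact hpow s hs
      have hH : (Nat.card H : ℂ) ≠ 0 := by
        have : 0 < Nat.card H := Nat.card_pos
        exact_mod_cast this.ne'
      have hz : ∀ p ∈ Submodule.span ℂ (K0 e π),
          ∑ s : Cu v, (if Reg ℓ s then f (v ^ i * s) * starRingEnd ℂ (p (π s)) else 0) = 0 := by
        intro p hp
        induction hp using Submodule.span_induction with
        | mem κ hκ =>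
          obtain ⟨γ, hγ, h1, h2⟩ := hκ
          have h3 := hA γ hγ h1 κ h2 (v ^ i) hw hw1
          rw [Av, mul_eq_zero] at h3
          have h4 := h3.resolve_left (inv_ne_zero hH)
          rw [finsum_eq_sum_of_fintype] at h4
          refine Eq.trans (Finset.sum_congr rfl fun s _ => ?_) h4
          rw [finsum_eq_if]
        | zero => simp
        | add a b _ _ ha hb =>
          have h1 : ∑ s : Cu v, (if Reg ℓ s then f (v ^ i * s) *
              starRingEnd ℂ ((a + b) (π s)) else 0) =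
              ∑ s : Cu v, (if Reg ℓ s then f (v ^ i * s) * starRingEnd ℂ (a (π s)) else 0) +
              ∑ s : Cu v, (if Reg ℓ s then f (v ^ i * s) * starRingEnd ℂ (b (π s)) else 0) := by
            rw [← Finset.sum_add_distrib]
            refine Finset.sum_congr rfl fun s _ => ?_
            split_ifs
            · rw [Pi.add_apply, map_add, mul_add]
            · rw [add_zero]
          rw [h1, ha, hb, add_zero]
        | smul c a _ ha =>
          have h1 : ∑ s : Cu v, (if Reg ℓ s then f (v ^ i * s) *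
              starRingEnd ℂ ((c • a) (π s)) else 0) = starRingEnd ℂ c *
              ∑ s : Cu v, (if Reg ℓ s then f (v ^ i * s) * starRingEnd ℂ (a (π s)) else 0) := by
            rw [Finset.mul_sum]
            refine Finset.sum_congr rfl fun s _ => ?_
            split_ifs
            · rw [Pi.smul_apply, smul_eq_mul, map_mul]
              ring
            · rw [mul_zero]
          rw [h1, ha, mul_zero]
      have hsq := hz F hF
      have hre : ∑ s : Cu v, (if Reg ℓ s then Complex.normSq (f (v ^ i * s)) else 0) = 0 := by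
        have h1 : ((∑ s : Cu v, (if Reg ℓ s then Complex.normSq (f (v ^ i * s)) else 0) : ℝ) : ℂ)
            = 0 := by
          rw [← hsq, Complex.ofReal_sum]
          refine Finset.sum_congr rfl fun s _ => ?_
          split_ifs with h
          · rw [← hfw s h, Complex.mul_conj]
          · simp
        exact_mod_cast h1
      have hall := (Finset.sum_eq_zero_iff_of_nonneg (fun s _ => by
        split_ifs
        · exact Complex.normSq_nonneg _
        · exact le_rfl)).1 hre s₀ (Finset.mem_univ _)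
      rw [if_pos hs₀] at hall
      rw [hx1]
      exact Complex.normSq_eq_zero.1 hall
    · rw [h0]
      refine (loc_span ce0 kap hl he hV hπ hvC 0 hg).2 _ fun j s hs h => ?_
      exact hform ⟨j, s, hs, h⟩
  -- an element of order `ℓ` which is a power of `x`
  have hdvd : ℓ ∣ orderOf x := by
    by_contra h
    exact hx ((Nat.Prime.coprime_iff_not_dvd hlp).2 h).symm
  obtain ⟨z, hz, hzx⟩ : ∃ z, orderOf z = ℓ ∧ z ∈ Subgroup.zpowers x :=
    ⟨x ^ (orderOf x / ℓ), orderOf_pow_orderOf_div (orderOf_pos x).ne' hdvd,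
      Subgroup.pow_mem _ (Subgroup.mem_zpowers x) _⟩
  by_cases hgd : Gd e (Subgroup.zpowers z)
  · have hzp : IsPGroup ℓ (Subgroup.zpowers z) :=
      IsPGroup.of_card (n := 1) (by rw [Nat.card_zpowers, hz, pow_one])
    obtain ⟨a, ha⟩ := (fmg ℓ M hl G e he _ hV).1 _ hzp hgd
    obtain ⟨y, hy, hyz⟩ := ha (Subgroup.mem_zpowers z)
    have hyz' : a * y * a⁻¹ = z := hyz
    have hy1 : y ≠ 1 := by
      rintro rfl
      rw [mul_one, mul_inv_cancel] at hyz'
      rw [← hyz', orderOf_one] at hz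
      exact hlp.one_lt.ne hz
    have hvy := (mem_zp hlp hπ.ord hy hy1).2
    obtain ⟨k, hk⟩ := Subgroup.mem_zpowers_iff.1 hzx
    have hyx : y = (a⁻¹ * x * a⁻¹⁻¹) ^ k := by
      rw [conj_zpow, hk, ← hyz']
      group
    have hvx : v ∈ Subgroup.zpowers (a⁻¹ * x * a⁻¹⁻¹) := by
      have h1 : Subgroup.zpowers y ≤ Subgroup.zpowers (a⁻¹ * x * a⁻¹⁻¹) := by
        rw [Subgroup.zpowers_le, hyx]
        exact Subgroup.zpow_mem _ (Subgroup.mem_zpowers _) _
      exact h1 hvy
    rw [← hcl x a⁻¹]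
    refine main _ ?_ hvx
    intro h
    apply hx
    have h1 : (orderOf (a⁻¹ * x * a⁻¹⁻¹)).Coprime ℓ := h
    have h2 : orderOf (a⁻¹ * x * a⁻¹⁻¹) = orderOf x := by
      have := orderOf_injective (MulAut.conj a⁻¹).toMonoidHom (MulAut.conj a⁻¹).injective x
      exact this
    rw [h2] at h1
    exact h1
  · have hxz : x ∈ Cu z := by
      rw [Subgroup.mem_centralizer_singleton_iff]
      obtain ⟨k, hk⟩ := Subgroup.mem_zpowers_iff.1 hzx
      rw [← hk]
      exact ((Commute.refl x).zpow_right k).eq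
    obtain ⟨g, hg, hgx⟩ := key_span sm2 hl he.1 hz hf
    have h0 : (fun t : Cu z => e t) = 0 := by
      funext t
      by_contra h
      apply hgd
      refine ⟨t, ?_, h⟩
      rw [← cu_cent z]
      exact t.2
    have := Fintype.ofFinite (Cu z)
    have h1 : IrrE M (fun t : Cu z => e t) = ∅ := by
      rw [h0]
      ext κ
      constructor
      · rintro ⟨-, h2⟩
        rw [H50.res_zero] at h2
        exact absurd h2 zero_ne_one
      · intro h2
        exact absurd h2 (Set.notMem_empty _)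
    rw [h1, Submodule.span_empty, Submodule.mem_bot] at hg
    have h2 := hgx ⟨x, hxz⟩ hzx
    rw [hg] at h2
    exact h2

end Pool.Agent.PP.K9.H88
end
end -- Pool.Agent.Helper88_K9.Val
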