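import Pool.Agent.Helper12_AWB.B096
import Pool.Agent.Helper12_AWB.B123
import Pool.Agent.Helper12_AWB.B134

/-!
# Merged copies (generated) of the modules

* `Pool.Agent.Helper32_ATW.ARW`
* `Pool.Agent.Helper53_ATW.PYP`
* `Pool.Agent.Helper3_AT10.PRX`
* `Pool.Agent.Helper81_AT10.STR`
* `Pool.Agent.Helper92_AT10.PRU`
* `Pool.Agent.Helper77_ATW.P3M`
* `Pool.Agent.Helper84_ATW.RGW`
-/

set_option autoImplicit false

section -- Pool.Agent.Helper32_ATW.ARW

/-!
# Squad ATW, row ARW: arithmetic modulo four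
-/

set_option autoImplicit false

noncomputable section

namespace Pool.Agent.PP.TW.H32

open Pool.Agent.PP.TW

theorem arw : ArwStmt := by
  intro p q p' q' p0 q0 p0' q0' hp hp' h0 h0' h1 h2 h3
  obtain ⟨a, rfl⟩ := hp
  obtain ⟨a', rfl⟩ := hp'
  obtain ⟨b, rfl⟩ := h0
  obtain ⟨b', rfl⟩ := h0'
  -- the parity of `q0 + q0'`
  have e2 : (2 * b + 1) * (2 * b + 1) + (2 * b' + 1) * (2 * b' + 1) +
      2 * (q0 * q0 + q0' * q0') = 4 * (b * b + b + b' * b' + b') + 2 + 2 * (q0 * q0 + q0' * q0') := by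
    ring
  rw [e2] at h2
  have h4 : (q0 * q0 + q0' * q0') % 2 = 0 := by omega
  have h5 : (q0 + q0') % 2 = 0 := by
    have e : q0 * q0 + q0' * q0' = (q0 + q0') + (q0 * (q0 - 1) + q0' * (q0' - 1)) := by ring
    have e1 : ∀ x : ℤ, x * (x - 1) % 2 = 0 := fun x => by
      have := Int.even_mul_pred_self x
      exact Int.even_iff.1 this
    have e3 := e1 q0
    have e4 := e1 q0'
    rw [e] at h4
    omega
  -- the parity of `q + q'`
  have h6 : (q + q') % 2 = 0 := by
    obtain ⟨k, hk⟩ := h3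
    have e : q * (2 * b + 1) - (2 * a + 1) * q0 + (q' * (2 * b' + 1) - (2 * a' + 1) * q0') =
        (q + q') - (q0 + q0') + 2 * (q * b - a * q0 + q' * b' - a' * q0') := by ring
    rw [e] at hk
    omega
  obtain ⟨x, hx⟩ : ∃ x, q' = 2 * x - q := ⟨(q + q') / 2, by omega⟩
  obtain ⟨y, hy⟩ : ∃ y, q0' = 2 * y - q0 := ⟨(q0 + q0') / 2, by omega⟩
  have e7 : (2 * a + 1) * (2 * b + 1) + (2 * a' + 1) * (2 * b' + 1) + 2 * (q * q0 + q' * q0') =
      4 * (a * b + a' * b' + q * q0 - x * q0 - y * q + 2 * x * y) + 2 * (a + b + a' + b') + 2 := by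
    rw [hx, hy]
    ring
  rw [e7] at h1
  have h8 : (a + b + a' + b') % 2 = 0 := by omega
  have h9 : (2 * a + 1) * (2 * b + 1) ≡ (2 * a' + 1) * (2 * b' + 1) [ZMOD 4] := by
    rw [Int.modEq_iff_dvd]
    have e : (2 * a' + 1) * (2 * b' + 1) - (2 * a + 1) * (2 * b + 1) =
        4 * (a' * b' - a * b) + 2 * (a' + b' - a - b) := by ring
    rw [e]
    obtain ⟨z, hz⟩ : ∃ z, a' + b' - a - b = 2 * z := ⟨(a' + b' - a - b) / 2, by omega⟩
    rw [hz]
    exact ⟨a' * b' - a * b + z, by ring⟩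
  refine ⟨h9, fun s hs hsm => ?_⟩
  -- `s` is one plus twice the sum
  rw [Int.modEq_iff_dvd] at hsm
  obtain ⟨t, ht⟩ := hsm
  have e10 : s = 4 * (b * b' - t) + 2 * (b + b') + 1 := by
    have : (2 * b + 1) * (2 * b' + 1) = 4 * (b * b') + 2 * (b + b') + 1 := by ring
    rw [this] at ht
    omega
  have key : (2 * a + 1 + s * (2 * a' + 1)) % 4 = 2 := by
    have e : 2 * a + 1 + s * (2 * a' + 1) =
        4 * ((b * b' - t) * (2 * a' + 1) + (b + b') * a') + 2 * (a + a' + b + b') + 2 := by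
      rw [e10]
      ring
    rw [e]
    omega
  have h11 : 2 * a + 1 + s * (2 * a' + 1) ≤ -2 ∨ 2 ≤ 2 * a + 1 + s * (2 * a' + 1) := by omega
  generalize 2 * a + 1 + s * (2 * a' + 1) = X at h11
  rcases h11 with h | h
  · nlinarith
  · nlinarith

end Pool.Agent.PP.TW.H32
end
end -- Pool.Agent.Helper32_ATW.ARW

section -- Pool.Agent.Helper53_ATW.PYP

/-!
# Squad ATW, row PYP: automorphisms of odd order of an abelian `2`-group with two generators
-/

noncomputable section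

namespace Pool.Agent.PP.TW.H53P

open Pool.Agent.PP.TW Pool.Agent.PP

variable {V : Type} [CommGroup V]

/-- the squares -/
def Sq (V : Type) [CommGroup V] : Subgroup V := (powMonoidHom 2 : V →* V).range

theorem mem_sq {v : V} : v ∈ Sq V ↔ ∃ w : V, w ^ 2 = v := by
  unfold Sq
  exact MonoidHom.mem_range

theorem map_sq (s : V ≃* V) : (Sq V).map (s : V →* V) = Sq V := by
  ext v
  rw [Subgroup.mem_map]
  constructor
  · rintro ⟨u, hu, rfl⟩
    obtain ⟨w, rfl⟩ := mem_sq.1 hu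
    exact mem_sq.2 ⟨s w, by simp⟩
  · intro hv
    obtain ⟨w, rfl⟩ := mem_sq.1 hv
    exact ⟨(s.symm w) ^ 2, mem_sq.2 ⟨_, rfl⟩, by simp⟩

/-- the action on the cosets of the squares -/
def act (E : Subgroup (MulAut V)) : E →* Equiv.Perm (V ⧸ Sq V) where
  toFun s := (QuotientGroup.congr (Sq V) (Sq V) (s : MulAut V) (map_sq _)).toEquiv
  map_one' := by
    ext q
    induction q using QuotientGroup.induction_on with
    | H v => rfl
  map_mul' s t := by
    ext q
    induction q using QuotientGroup.induction_on with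
    | H v => rfl

theorem act_mk (E : Subgroup (MulAut V)) (s : E) (v : V) :
    act E s (v : V ⧸ Sq V) = (((s : MulAut V) v : V) : V ⧸ Sq V) := rfl

theorem card_quot [Finite V] {x y : V} (hxy : (⊤ : Subgroup V) = Subgroup.closure {x, y}) :
    Nat.card (V ⧸ Sq V) ≤ 4 := by
  have hsq : ∀ (v : V) (i : ℤ), ((v ^ i : V) : V ⧸ Sq V) =
      ((v ^ ((i % 2).toNat) : V) : V ⧸ Sq V) := by
    intro v i
    rw [QuotientGroup.eq]
    refine mem_sq.2 ⟨v ^ (-(i / 2)), ?_⟩
    have h1 : ((i % 2).toNat : ℤ) = i % 2 := Int.toNat_of_nonneg (Int.emod_nonneg _ (by norm_num))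
    rw [← zpow_natCast v, h1, ← zpow_neg, ← zpow_add, ← zpow_natCast, ← zpow_mul]
    congr 1
    push_cast
    omega
  have hlt : ∀ i : ℤ, (i % 2).toNat < 2 := fun i => by omega
  let f : Fin 2 × Fin 2 → V ⧸ Sq V := fun t => ((x ^ (t.1 : ℕ) * y ^ (t.2 : ℕ) : V) : V ⧸ Sq V)
  have hf : Function.Surjective f := by
    intro q
    induction q using QuotientGroup.induction_on with
    | H v =>
      have hv : v ∈ Subgroup.closure {x, y} := by rw [← hxy]; exact Subgroup.mem_top _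
      obtain ⟨i, j, hij⟩ := Subgroup.mem_closure_pair.1 hv
      refine ⟨(⟨(i % 2).toNat, hlt i⟩, ⟨(j % 2).toNat, hlt j⟩), ?_⟩
      show ((x ^ (i % 2).toNat * y ^ (j % 2).toNat : V) : V ⧸ Sq V) = (v : V ⧸ Sq V)
      rw [← hij, QuotientGroup.mk_mul, QuotientGroup.mk_mul, ← hsq x i, ← hsq y j]
  have h1 := Nat.card_le_card_of_surjective f hf
  rwa [Nat.card_prod, Nat.card_fin] at h1

theorem act_inj [Finite V] (hC : T8.CprStmt) {a : ℕ} (hexp : Monoid.exponent V = 2 ^ a)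
    (E : Subgroup (MulAut V)) (hE : ¬ 2 ∣ Nat.card E) : Function.Injective (act E) := by
  rw [← MonoidHom.ker_eq_bot_iff]
  have hprime : Fact (Nat.Prime 2) := ⟨Nat.prime_two⟩
  have hS : (act E).ker.map E.subtype = ⊥ := by
    refine (hC 2 V a hexp ((act E).ker.map E.subtype) ?_).2 ?_
    · intro h
      apply hE
      refine h.trans ((Subgroup.card_dvd_of_le (K := E) ?_))
      intro s hs
      obtain ⟨t, _, rfl⟩ := Subgroup.mem_map.1 hs
      exact t.2
    · intro s hs v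
      obtain ⟨t, ht, rfl⟩ := Subgroup.mem_map.1 hs
      have h1 : act E t (v : V ⧸ Sq V) = (v : V ⧸ Sq V) := by
        rw [MonoidHom.mem_ker.1 ht]
        rfl
      rw [act_mk] at h1
      obtain ⟨w, hw⟩ := mem_sq.1 (QuotientGroup.eq.1 h1.symm)
      exact ⟨w, by
        show (t : MulAut V) v = v * w ^ 2
        rw [hw, mul_inv_cancel_left]⟩
  exact (Subgroup.map_eq_bot_iff_of_injective _ E.subtype_injective).1 hS

/-- the fixed points modulo squares are trivial -/
theorem fixed_coset [Finite V] {x y : V} (hxy : (⊤ : Subgroup V) = Subgroup.closure {x, y})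
    (hC : T8.CprStmt) {a : ℕ} (hexp : Monoid.exponent V = 2 ^ a)
    (E : Subgroup (MulAut V)) (hE : ¬ 2 ∣ Nat.card E) (hE3 : Nat.card E = 3) (s : E)
    (hs : s ≠ 1) (c : V) (hc : (s : MulAut V) c = c) : c ∈ Sq V := by
  classical
  have hfin : Finite (V ⧸ Sq V) := Quotient.finite _
  let _ : Fintype (V ⧸ Sq V) := Fintype.ofFinite _
  have hprime : Fact (Nat.Prime 3) := ⟨Nat.prime_three⟩
  set σ : Equiv.Perm (V ⧸ Sq V) := act E s with hσ
  have hσ1 : σ ≠ 1 := by
    intro h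
    apply hs
    apply act_inj hC hexp E hE
    rw [map_one]
    exact h
  have hσ3 : σ ^ 3 = 1 := by
    rw [hσ, ← map_pow, ← hE3, pow_card_eq_one', map_one]
  let g : Function.End (V ⧸ Sq V) := fun q => σ q
  have hσf : g ^ 3 ^ 1 = 1 := by
    rw [pow_one, pow_succ, pow_two]
    funext q
    have h := congrArg (fun τ : Equiv.Perm (V ⧸ Sq V) => τ q) hσ3
    rw [pow_succ, pow_two] at h
    exact h
  have hmod := Equiv.Perm.card_fixedPoints_modEq hσf
  rw [← Nat.card_eq_fintype_card, ← Nat.card_eq_fintype_card] at hmod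
  have h4 := card_quot hxy
  set F := Function.fixedPoints g with hF
  have h1F : (1 : V ⧸ Sq V) ∈ F := by
    show σ 1 = 1
    have := act_mk E s 1
    rw [map_one] at this
    exact this
  have hcF : (c : V ⧸ Sq V) ∈ F := by
    show σ (c : V ⧸ Sq V) = (c : V ⧸ Sq V)
    rw [hσ, act_mk, hc]
  have hlt : Fintype.card F < Fintype.card (V ⧸ Sq V) := by
    obtain ⟨q, hq⟩ : ∃ q, σ q ≠ q := by
      by_contra hcon
      push Not at hcon
      exact hσ1 (Equiv.ext hcon)
    exact Fintype.card_subtype_lt (p := fun q => q ∈ F) (x := q) hq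
  rw [← Nat.card_eq_fintype_card, ← Nat.card_eq_fintype_card] at hlt
  have hle : Fintype.card F ≤ 1 := by
    have h0 : 0 < Fintype.card F := Fintype.card_pos_iff.2 ⟨⟨1, h1F⟩⟩
    rw [← Nat.card_eq_fintype_card] at h0 ⊢
    unfold Nat.ModEq at hmod
    omega
  have h5 := Fintype.card_le_one_iff.1 hle ⟨c, hcF⟩ ⟨1, h1F⟩
  have h6 : (c : V ⧸ Sq V) = 1 := congrArg Subtype.val h5
  exact (QuotientGroup.eq_one_iff c).1 h6

/-- freeness -/
theorem free_ [Finite V] {x y : V} (hxy : (⊤ : Subgroup V) = Subgroup.closure {x, y})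
    (hC : T8.CprStmt) {a : ℕ} (hexp : Monoid.exponent V = 2 ^ a)
    (E : Subgroup (MulAut V)) (hE : ¬ 2 ∣ Nat.card E) (hE3 : Nat.card E = 3) (s : E)
    (hs : s ≠ 1) (c : V) (hc : (s : MulAut V) c = c) : c = 1 := by
  have hs3 : ∀ v : V, (s : MulAut V) ((s : MulAut V) ((s : MulAut V) v)) = v := by
    intro v
    have h1 : s ^ 3 = 1 := by rw [← hE3, pow_card_eq_one']
    have h2 : ((s : MulAut V)) ^ 3 = 1 := by
      rw [← Subgroup.coe_pow, h1, Subgroup.coe_one]
    have h3 := congrArg (fun τ : MulAut V => τ v) h2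
    rw [pow_succ, pow_two] at h3
    exact h3
  have hstep : ∀ c : V, (s : MulAut V) c = c → ∃ c' : V, (s : MulAut V) c' = c' ∧ c = c' ^ 2 := by
    intro c hc
    obtain ⟨w, hw⟩ := mem_sq.1 (fixed_coset hxy hC hexp E hE hE3 s hs c hc)
    have hN : (s : MulAut V) (w * (s : MulAut V) w * (s : MulAut V) ((s : MulAut V) w)) =
        w * (s : MulAut V) w * (s : MulAut V) ((s : MulAut V) w) := by
      rw [map_mul, map_mul, hs3 w]
      rw [mul_comm _ w, mul_assoc, ← mul_assoc]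
      
    have hN2 : (w * (s : MulAut V) w * (s : MulAut V) ((s : MulAut V) w)) ^ 2 = c ^ 3 := by
      rw [mul_pow, mul_pow, ← map_pow, ← map_pow, ← map_pow, hw, hc, hc]
      rw [pow_succ, pow_two]
    refine ⟨w * (s : MulAut V) w * (s : MulAut V) ((s : MulAut V) w) * c⁻¹, ?_, ?_⟩
    · rw [map_mul, hN, map_inv, hc]
    · rw [mul_pow, hN2, inv_pow, pow_succ c 2]
      rw [mul_comm (c ^ 2) c, mul_assoc, mul_inv_cancel, mul_one]
  have hiter : ∀ n : ℕ, ∀ c : V, (s : MulAut V) c = c →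
      ∃ c' : V, (s : MulAut V) c' = c' ∧ c = c' ^ 2 ^ n := by
    intro n
    induction n with
    | zero => intro c hc; exact ⟨c, hc, by simp⟩
    | succ n ih =>
      intro c hc
      obtain ⟨c₁, h1, h2⟩ := ih c hc
      obtain ⟨c₂, h3, h4⟩ := hstep c₁ h1
      exact ⟨c₂, h3, by rw [h2, h4, ← pow_mul, ← pow_succ']⟩
  obtain ⟨c', _, h⟩ := hiter a c hc
  rw [h, ← hexp, Monoid.pow_exponent_eq_one]

/-- ROW PYP -/
theorem pyp_ : T8.CprStmt → PypStmt := by
  intro hC V _ _ a ha hexp ⟨x, y, hxy⟩ E hE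
  have hdvd : Nat.card E ∣ 24 := by
    have h1 := Subgroup.card_dvd_of_injective (act E) (act_inj hC hexp E hE)
    rw [Nat.card_perm] at h1
    have h2 := Nat.factorial_dvd_factorial (card_quot hxy)
    exact h1.trans h2
  have h13 : Nat.card E = 1 ∨ Nat.card E = 3 := by
    have h1 : Nat.card E ∈ Nat.divisors 24 := Nat.mem_divisors.2 ⟨hdvd, by norm_num⟩
    have h2 : Nat.divisors 24 = {1, 2, 3, 4, 6, 8, 12, 24} := by decide
    rw [h2] at h1
    simp only [Finset.mem_insert, Finset.mem_singleton] at h1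
    omega
  rcases h13 with h1 | h3
  · exact Or.inl (Subgroup.eq_bot_of_card_eq E h1)
  right
  have hfree : ∀ s ∈ E, ∀ v : V, s v = v → v = 1 ∨ s = 1 := by
    intro s hs v hv
    by_cases h : (⟨s, hs⟩ : E) = 1
    · exact Or.inr (congrArg Subtype.val h)
    · exact Or.inl (free_ hxy hC hexp E hE h3 ⟨s, hs⟩ h v hv)
  refine ⟨h3, hfree, ?_⟩
  obtain ⟨u, hu⟩ := Monoid.exists_orderOf_eq_exponent (G := V) Monoid.ExponentExists.of_finite
  rw [hexp] at hu
  obtain ⟨s, hs⟩ : ∃ s : E, s ≠ 1 := by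
    by_contra hcon
    push Not at hcon
    have : Subsingleton E := ⟨fun a b => by rw [hcon a, hcon b]⟩
    rw [Nat.card_of_subsingleton (1 : E)] at h3
    omega
  obtain ⟨b, rfl⟩ : ∃ b, a = b + 2 := ⟨a - 2, by omega⟩
  set z : V := u ^ 2 ^ (b + 1) with hz
  have hz2 : z ^ 2 = 1 := by
    rw [hz, ← pow_mul, ← pow_succ, show b + 1 + 1 = b + 2 by ring, ← hu, pow_orderOf_eq_one]
  have hz1 : z ≠ 1 := by
    intro h
    have h1 := orderOf_dvd_of_pow_eq_one h
    rw [hu, Nat.pow_dvd_pow_iff_le_right (by norm_num)] at h1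
    omega
  refine ⟨u, (s : MulAut V) z, ((s : MulAut V) u) ^ 2 ^ b, hu, ?_, ?_, ?_⟩
  · rw [hz, map_pow, ← pow_mul, ← pow_succ]
  · rw [← map_pow, hz2, map_one]
  · intro k hk
    have h1 : u ^ (k * 2) = 1 := by
      rw [pow_mul, hk, ← map_pow, hz2, map_one]
    have h2 := orderOf_dvd_of_pow_eq_one h1
    rw [hu, pow_succ 2 (b + 1)] at h2
    obtain ⟨i, hi⟩ := Nat.dvd_of_mul_dvd_mul_right (by norm_num) h2
    have h3' : u ^ k = z ^ i := by rw [hi, pow_mul, hz]
    rw [h3'] at hk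
    rcases Nat.even_or_odd' i with ⟨j, hj | hj⟩
    · rw [hj, pow_mul, hz2, one_pow] at hk
      have : z = 1 := by
        have h5 := (map_eq_one_iff (s : MulAut V) (s : MulAut V).injective).1 hk.symm
        exact h5
      exact hz1 this
    · rw [hj, pow_succ, pow_mul, hz2, one_pow, one_mul] at hk
      rcases hfree s s.2 z hk.symm with h5 | h5
      · exact hz1 h5
      · exact hs (Subtype.ext h5)

end Pool.Agent.PP.TW.H53P
end
end -- Pool.Agent.Helper53_ATW.PYP

section -- Pool.Agent.Helper3_AT10.PRX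

/-!
# Squad AT10, row PRX: existence of compatible functions
-/

open scoped BigOperators

noncomputable section

namespace Pool.Agent.PP.T10.H3

open Pool.Agent.Helper51_AWC Pool.Agent.Helper79_WRA Pool.Agent.PP Pool.Agent.PP.KF
open Pool.Agent.PP.K9 Pool.Agent.PP.K9.H97 Pool.Agent.PP.H75 Pool.Agent.PP.T3 Pool.Agent.PP.T2
open Pool.Agent.PP.T5 Pool.Agent.PP.TB
open Pool.Agent.PP.T8 (rs pw fv rd Ip Rv)

theorem iv_of_bx {F G : Type} [Field F] [Group G] {P : Subgroup G} {b : G → F}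
    (hb : Bx (Subgroup.centralizer (P : Set G)) b) : ∀ v ∈ P, ∀ x, b (v * x * v⁻¹) = b x := by
  intro v hv x
  by_cases hx : x ∈ Subgroup.centralizer (P : Set G)
  · have h1 := Subgroup.mem_centralizer_iff.1 hx v hv
    rw [h1, mul_inv_cancel_right]
  · rw [hb.supp x hx, hb.supp]
    intro h
    apply hx
    have h1 := Subgroup.mem_centralizer_iff.1 h v hv
    have h2 : v * x * v⁻¹ = x := by
      have h3 : v * (v * x * v⁻¹) = v * x := by rw [h1, inv_mul_cancel_right]
      exact mul_left_cancel h3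
    rwa [h2] at h

theorem prx (pdc : PdcStmt) (unb : UnbStmt) : PrxStmt := by
  intro ℓ _ F _ hF G _ _ P hP b hb
  obtain ⟨n, k, hk, hort, hsum⟩ := pdc F G P b hb.mul (iv_of_bx hb)
  have hbr : ∑ a, br P (k a) = b := by
    funext x
    rw [Finset.sum_apply]
    by_cases hx : x ∈ Subgroup.centralizer (P : Set G)
    · rw [← congrFun hsum x, Finset.sum_apply]
      exact Finset.sum_congr rfl (fun a _ => br_in _ hx)
    · rw [hb.supp x hx]
      exact Finset.sum_eq_zero (fun a _ => br_out _ hx)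
  obtain ⟨a, ha⟩ : ∃ a, br P (k a) ≠ 0 := by
    by_contra h
    push Not at h
    apply hb.ne
    rw [← hbr]
    exact Finset.sum_eq_zero (fun a _ => h a)
  obtain ⟨β, hβ, h1⟩ := unb ℓ F hF G P hP (k a) (hk a) ha
  refine ⟨β, hβ, ?_⟩
  have h2 : mulF (k a) b = k a := by
    have h3 : mulF (k a) (∑ c, k c) = ∑ c, mulF (k a) (k c) := by
      have h4 : ∀ s : Finset (Fin n), mulF (k a) (∑ c ∈ s, k c) = ∑ c ∈ s, mulF (k a) (k c) := by
        intro s
        classical
        induction s using Finset.induction_on with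
        | empty => rw [Finset.sum_empty, Finset.sum_empty, mulF_zero_right]
        | insert c s hc ih => rw [Finset.sum_insert hc, Finset.sum_insert hc, H46.mulF_add, ih]
      exact h4 Finset.univ
    rw [← hsum, h3, Finset.sum_eq_single a]
    · exact (hk a).id
    · intro c _ hc
      exact hort a c (Ne.symm hc)
    · intro h
      exact absurd (Finset.mem_univ a) h
  have h3 : mulF (br P (k a)) b = br P (k a) := by
    rw [← H94.br_mul_right hb.supp, h2]
  rcases (hβ.bx P le_rfl).dich hb with h4 | h4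
  · exact h4
  · exfalso
    apply ha
    rw [← h3, ← h1 P le_rfl, mulF_assoc, h4, mulF_zero_right]

end Pool.Agent.PP.T10.H3
end
end -- Pool.Agent.Helper3_AT10.PRX

section -- Pool.Agent.Helper81_AT10.STR

/-!
# Squad AT10, row STR: the theorem of Broué and Puig for the central subgroup `Z`
-/

open scoped BigOperators

noncomputable section

namespace Pool.Agent.PP.T10.H81

open Pool.Agent.Helper51_AWC Pool.Agent.Helper79_WRA Pool.Agent.PP Pool.Agent.PP.KF
open Pool.Agent.PP.K9 Pool.Agent.PP.K9.H97 Pool.Agent.PP.H75 Pool.Agent.PP.T3 Pool.Agent.PP.T2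
open Pool.Agent.PP.T5 Pool.Agent.PP.TB
open Pool.Agent.PP.T8 (rs pw fv rd Ip Rv)

attribute [local instance] Ideal.Quotient.field

/-- the inverse of a linear character -/
def inv' {Z : Type} [Group Z] (lam : Z →* ℂ) : Z →* ℂ where
  toFun z := lam z⁻¹
  map_one' := by rw [inv_one, map_one]
  map_mul' x y := by rw [mul_inv_rev, map_mul, mul_comm]

theorem str (sbe : SbeStmt) (lcs : LcsStmt) (cht : ChtStmt) (frb : FrbStmt) (lnk : LnkStmt) :
    StrStmt := by
  intro ℓ hℓ M _ hM G _ _ e V Z γ b hZ hLo χ hχ ψ hψ lam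
  have := Fintype.ofFinite G
  have := Fintype.ofFinite Z
  set nu : Z →* ℂ := inv' lam with hnu
  have hV : (Nat.card Z : ℂ) ≠ 0 := by exact_mod_cast Nat.card_pos.ne'
  obtain ⟨k, hk⟩ := Subgroup.card_dvd_of_le hZ.le
  have hq : (Nat.card V : ℂ) / Nat.card Z = (k : ℂ) := by
    rw [hk]
    push_cast
    field_simp
  have hnur : ∀ z : Z, nu z ∈ RM M := by
    intro z
    apply RM_of_int
    have h1 : (nu z) ^ Nat.card Z = 1 := by
      rw [← map_pow, pow_card_eq_one', map_one]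
    refine IsIntegral.of_pow (Nat.card_pos (α := Z)) ?_
    rw [h1]
    exact isIntegral_one
  have hc : ∀ z : Z, cn V Z γ nu z ∈ RM M := by
    intro z
    unfold cn
    rw [hq]
    exact (RM M).mul_mem ((RM M).mul_mem (natCast_mem (RM M) k) (natCast_mem (RM M) _)) (hnur z)
  have h1 := sbe ℓ M hM G e V Z γ b hZ
  have h2 : Hc M ℓ (cn V Z γ nu) (fun (z : Z) (u : G) => sb b (z : G) u) χ :=
    cht ℓ M hM G Z (cn V Z γ nu) _ h1.1 χ hχ.1
      fun P hP i hi hbr => lcs ℓ M hM G e V Z γ b hZ hLo nu χ hχ.1 P hP i hi hbr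
  have h3 := frb ℓ M hM G Z (cn V Z γ nu) _ h1.1 hc χ hχ.1 h2 ψ hψ.1
  rw [lnk ℓ M hM G e V Z γ b hZ (cn V Z γ nu) χ hχ.1 ψ hψ.1] at h3
  have h4 : (Nat.card Z : ℂ)⁻¹ * ∑ᶠ v : Z, Az M ℓ V Z γ b χ ψ v * lam v⁻¹ =
      ∑ᶠ z : Z, cn V Z γ nu z * mm M ℓ (Cu (z : G)) z (b z) χ ψ := by
    rw [finsum_eq_sum_of_fintype, finsum_eq_sum_of_fintype, Finset.mul_sum]
    refine Finset.sum_congr rfl fun z _ => ?_
    have h5 : nu z = lam z⁻¹ := rfl
    unfold Az cn
    rw [h5]
    field_simp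
  rw [h4]
  exact h3

end Pool.Agent.PP.T10.H81
end
end -- Pool.Agent.Helper81_AT10.STR

section -- Pool.Agent.Helper92_AT10.PRU

/-!
# Squad AT10, row PRU: uniqueness of compatible functions
-/

set_option autoImplicit false

open scoped BigOperators

noncomputable section

namespace Pool.Agent.PP.T10.H92

open Pool.Agent.Helper51_AWC Pool.Agent.Helper79_WRA Pool.Agent.PP Pool.Agent.PP.KF
open Pool.Agent.PP.K9 Pool.Agent.PP.K9.H97 Pool.Agent.PP.H75 Pool.Agent.PP.T3 Pool.Agent.PP.T2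
open Pool.Agent.PP.T5 Pool.Agent.PP.TB

/-- PRU -/
theorem pru : PruStmt := by
  classical
  intro ℓ hℓ F _ hF G _ _ P hP β β' hβ hβ' hPP
  have key : ∀ n : ℕ, ∀ Q : Subgroup G, Q ≤ P → Nat.card P - Nat.card Q ≤ n → β Q = β' Q := by
    intro n
    induction n with
    | zero =>
      intro Q hQ hn
      have h1 : Q = P := Subgroup.eq_of_le_of_card_ge hQ (by omega)
      rw [h1]
      exact hPP
    | succ n ih =>
      intro Q hQ hn
      by_cases hQP : Q = P
      · rw [hQP]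
        exact hPP
      have hlt : Q < P := lt_of_le_of_ne hQ hQP
      obtain ⟨x, hxP, hxQ, hxN⟩ := H94.grow hP hlt
      set S : Subgroup G := P ⊓ Subgroup.normalizer (Q : Set G) with hSdef
      have hSP : S ≤ P := inf_le_left
      have hSN : S ≤ Subgroup.normalizer (Q : Set G) := inf_le_right
      have hQS : Q ≤ S := le_inf hQ Subgroup.le_normalizer
      have hxS : x ∈ S := ⟨hxP, hxN⟩
      have hcard : Nat.card Q < Nat.card S := by
        have h1 : Nat.card Q ≤ Nat.card S := Subgroup.card_le_of_le hQS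
        rcases h1.lt_or_eq with h2 | h2
        · exact h2
        · exfalso
          have h3 : Q = S := Subgroup.eq_of_le_of_card_ge hQS h2.ge
          rw [h3] at hxQ
          exact hxQ hxS
      have hcard2 : Nat.card S ≤ Nat.card P := Subgroup.card_le_of_le hSP
      have hS : β S = β' S := ih S hSP (by omega)
      have hSg : IsPGroup ℓ S := hP.to_le hSP
      have hi : H66.Inv S (β Q) := fun s hs t =>
        (cj_eq_iff s (β Q)).1 (hβ.st Q S hQS hSP hSN s hs) t
      have hi' : H66.Inv S (β' Q) := fun s hs t =>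
        (cj_eq_iff s (β' Q)).1 (hβ'.st Q S hQS hSP hSN s hs) t
      have hb := hβ.br Q S hQS hSP hSN
      have hb' := hβ'.br Q S hQS hSP hSN
      rcases (hβ.bx Q hQ).dich (hβ'.bx Q hQ) with h | h
      · exact h
      · exfalso
        have h1 : mulF (br S (mulF (β Q) (β' Q))) (β S) = β S := by
          rw [H66.br_mulF hF hSg hi hi', Pool.Agent.PP.mulF_assoc]
          have h2 : mulF (br S (β' Q)) (β S) = β S := by
            rw [hS]
            exact hb'
          rw [h2]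
          exact hb
        apply (hβ.bx S hSP).ne
        rw [← h1, h]
        have h3 : br S (0 : G → F) = 0 := by
          funext t
          by_cases ht : t ∈ Subgroup.centralizer (S : Set G)
          · rw [H66.br_of_mem ht]
          · rw [H66.br_of_not_mem ht]
            rfl
        rw [h3, H75.mulF_zero_left]
  intro Q hQ
  exact key _ Q hQ le_rfl

end Pool.Agent.PP.T10.H92
end
end -- Pool.Agent.Helper92_AT10.PRU

section -- Pool.Agent.Helper77_ATW.P3M

/-!
# Squad ATW, row P3M: the powers of `3` modulo `2 ^ A`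
-/

namespace Pool.Agent.PP.TW.H77

theorem pw (n : ℕ) : ∃ c : ℤ, (3 : ℤ) ^ (2 ^ (n + 1)) = 1 + 2 ^ (n + 3) * (2 * c + 1) := by
  induction n with
  | zero => exact ⟨0, by norm_num⟩
  | succ n ih =>
    obtain ⟨c, hc⟩ := ih
    refine ⟨c + 2 ^ (n + 1) * (2 * c + 1) ^ 2, ?_⟩
    rw [pow_succ 2 (n + 1), pow_mul, hc]
    ring

theorem main (n : ℕ) (j : ℕ) (hj : j ≡ 1 [MOD 8] ∨ j ≡ 3 [MOD 8]) :
    ∃ (k : ℕ) (t : ℤ), (3 : ℤ) ^ k = j + 2 ^ (n + 3) * t := by
  induction n with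
  | zero =>
    rcases hj with h | h
    · obtain ⟨t, ht⟩ := (Nat.modEq_iff_dvd).1 h
      exact ⟨0, t, by push_cast at ht; rw [pow_zero]; norm_num; linarith⟩
    · obtain ⟨t, ht⟩ := (Nat.modEq_iff_dvd).1 h
      exact ⟨1, t, by push_cast at ht; rw [pow_one]; norm_num; linarith⟩
  | succ n ih =>
    obtain ⟨k, t, hk⟩ := ih
    rcases Int.even_or_odd' t with ⟨u, hu | hu⟩
    · exact ⟨k, u, by rw [hk, hu]; ring⟩
    · obtain ⟨c, hc⟩ := pw n
      obtain ⟨v, hv⟩ : Odd ((3 : ℤ) ^ k) := Odd.pow (by decide)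
      refine ⟨k + 2 ^ (n + 1), u + c * (2 * v + 1) + v + 1, ?_⟩
      have h1 : (3 : ℤ) ^ (k + 2 ^ (n + 1)) =
          (3 : ℤ) ^ k + 2 ^ (n + 3) * (2 * c + 1) * (3 : ℤ) ^ k := by
        rw [pow_add, hc]
        ring
      have h2 : (3 : ℤ) ^ k + 2 ^ (n + 3) * (2 * c + 1) * (3 : ℤ) ^ k =
          (j + 2 ^ (n + 3) * (2 * u + 1)) + 2 ^ (n + 3) * (2 * c + 1) * (2 * v + 1) := by
        rw [← hu, ← hk, ← hv]
      rw [h1, h2]
      ring

theorem p3m : P3mStmt := by
  intro A j hj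
  obtain ⟨k, t, hk⟩ := main A j hj
  refine ⟨k, ?_⟩
  have h1 : j ≡ 3 ^ k [MOD 2 ^ A] := by
    rw [Nat.modEq_iff_dvd]
    refine ⟨2 ^ 3 * t, ?_⟩
    push_cast
    rw [hk]
    ring
  exact h1.symm

end Pool.Agent.PP.TW.H77
end -- Pool.Agent.Helper77_ATW.P3M

section -- Pool.Agent.Helper84_ATW.RGW

/-!
# Squad ATW, row RGW: the elements `y ^ j w ^ i`
-/

set_option autoImplicit false

noncomputable section

namespace Pool.Agent.PP.TW.H84

open Pool.Agent.Helper51_AWC Pool.Agent.Helper79_WRA Pool.Agent.PP Pool.Agent.PP.KF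
open Pool.Agent.PP.K9 Pool.Agent.PP.K9.H97 Pool.Agent.PP.H75 Pool.Agent.PP.T3 Pool.Agent.PP.T2
open Pool.Agent.PP.T5 Pool.Agent.PP.TB
open Pool.Agent.PP.T8 (rs pw fv rd Ip Rv vv Dat Fr)

attribute [local instance] Ideal.Quotient.field

/-- RGW -/
theorem rgw : RgwStmt := by
  intro M _ _ G _ _ a e V γ b d c ε y w h
  have hw : w ∈ V := by
    obtain ⟨x, hx, rfl⟩ := h.wV
    exact V.pow_mem hx 2
  have hyw : Commute y w := h.dat.ld.ab y h.yV w hw
  have hmem : ∀ j i : ℕ, y ^ j * w ^ i ∈ V := fun j i =>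
    V.mul_mem (V.pow_mem h.yV j) (V.pow_mem hw i)
  have hcomm : ∀ j i : ℕ, Commute (y ^ j) (w ^ i) := fun j i => hyw.pow_pow j i
  obtain ⟨k, hk⟩ : ∃ k, a = k + 2 := ⟨a - 2, by have := h.le; omega⟩
  have hw2 : ∀ n : ℕ, 2 ∣ n → w ^ n = 1 := by
    rintro n ⟨m, rfl⟩
    rw [pow_mul, h.w2, one_pow]
  have hne : ∀ j i : ℕ, ¬ 2 ∣ j → y ^ j * w ^ i ≠ 1 := by
    intro j i hj h1
    have h2 : (y ^ j * w ^ i) ^ 2 = 1 := by rw [h1, one_pow]
    rw [(hcomm j i).mul_pow, ← pow_mul, ← pow_mul, hw2 (i * 2) ⟨i, by ring⟩, mul_one] at h2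
    have h3 := orderOf_dvd_of_pow_eq_one h2
    rw [h.oy, hk, pow_succ] at h3
    have h4 : 2 ^ (k + 1) ∣ j := Nat.dvd_of_mul_dvd_mul_right (by norm_num) h3
    exact hj ((dvd_pow_self 2 (by omega)).trans h4)
  have hz : ∀ j i : ℕ, ¬ 2 ∣ j → (y ^ j * w ^ i) ^ 2 ^ (k + 1) = y ^ 2 ^ (k + 1) := by
    intro j i hj
    rw [(hcomm j i).mul_pow, ← pow_mul, ← pow_mul,
      hw2 (i * 2 ^ (k + 1)) ((dvd_pow_self 2 (by omega)).mul_left i), mul_one]
    rw [pow_eq_pow_iff_modEq, h.oy, hk]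
    obtain ⟨m, hm⟩ : ∃ m, j = 2 * m + 1 := ⟨j / 2, by omega⟩
    have h1 : j * 2 ^ (k + 1) = 2 ^ (k + 1) + 2 ^ (k + 2) * m := by
      rw [hm]
      ring
    rw [h1]
    change (2 ^ (k + 1) + 2 ^ (k + 2) * m) % 2 ^ (k + 2) = 2 ^ (k + 1) % 2 ^ (k + 2)
    rw [Nat.add_mul_mod_self_left]
  refine ⟨?_, ?_, ?_, ?_⟩
  · intro j i hj
    refine ⟨hmem j i, hne j i hj, ?_⟩
    rintro t ⟨ht, htc⟩
    refine h.fr t ht _ (hmem j i) (hne j i hj) ?_
    have h1 := Subgroup.mem_centralizer_iff.1 htc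
    exact (h1 _ (Set.mem_singleton _)).symm
  · intro j j' i i' hj hj' t ht h1
    have h2 : t * y ^ 2 ^ (k + 1) * t⁻¹ = y ^ 2 ^ (k + 1) := by
      have h3 : (t * (y ^ j * w ^ i) * t⁻¹) ^ 2 ^ (k + 1) = (y ^ j' * w ^ i') ^ 2 ^ (k + 1) := by
        rw [h1]
      rw [conj_pow, hz j i hj, hz j' i' hj'] at h3
      exact h3
    have h3 : y ^ 2 ^ (k + 1) ≠ 1 := by
      intro h4
      have h5 := orderOf_dvd_of_pow_eq_one h4
      rw [h.oy, hk] at h5
      have h6 := (Nat.pow_dvd_pow_iff_le_right (by norm_num : 1 < 2)).1 h5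
      omega
    have h4 : t ∈ Subgroup.centralizer (V : Set G) := by
      refine h.fr t ht _ (V.pow_mem h.yV _) h3 ?_
      rw [← mul_inv_eq_iff_eq_mul]
      exact h2
    have h5 := Subgroup.mem_centralizer_iff.1 h4 _ (hmem j i)
    rw [← h1, ← h5, mul_inv_cancel_right]
  · intro j j' i i' h1
    have h2 : i ≡ i' [MOD 2] := by
      by_contra h3
      have h4 : y ^ (j' + j * (2 ^ a - 1)) = w ^ (i + i') := by
        have h5 : y ^ (j + j * (2 ^ a - 1)) = 1 := by
          have h6 : j + j * (2 ^ a - 1) = 2 ^ a * j := by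
            have h7 : 1 ≤ 2 ^ a := Nat.one_le_two_pow
            obtain ⟨n, hn⟩ := Nat.exists_eq_add_of_le h7
            rw [hn, Nat.add_sub_cancel_left]
            ring
          rw [h6, pow_mul, ← h.oy, pow_orderOf_eq_one, one_pow]
        have h6 : y ^ j * w ^ i * w ^ i' = y ^ j' := by
          rw [h1, mul_assoc, ← pow_add, hw2 (i' + i') ⟨i', by ring⟩, mul_one]
        rw [pow_add, ← h6, mul_assoc, mul_assoc, ← mul_assoc (w ^ i), ← pow_add,
          ← (hcomm (j * (2 ^ a - 1)) (i + i')).eq, ← mul_assoc, ← pow_add, h5, one_mul]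
      have h5 : w ^ (i + i') = w := by
        have h6 : (i + i') % 2 = 1 := by
          unfold Nat.ModEq at h3
          omega
        obtain ⟨m, hm⟩ : ∃ m, i + i' = 2 * m + 1 := ⟨(i + i') / 2, by omega⟩
        rw [hm, pow_succ, hw2 _ ⟨m, rfl⟩, one_mul]
      exact h.wy _ (h4.trans h5)
    refine ⟨?_, h2⟩
    have h3 : w ^ i = w ^ i' := by
      rw [pow_eq_pow_iff_modEq]
      exact h2.of_dvd (orderOf_dvd_of_pow_eq_one h.w2)
    rw [h3] at h1
    have h4 := mul_right_cancel h1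
    rw [pow_eq_pow_iff_modEq, h.oy] at h4
    exact h4
  · intro j hj
    rw [hyw.mul_pow]
    obtain ⟨m, hm⟩ : ∃ m, j = 2 * m + 1 := ⟨j / 2, by omega⟩
    have h5 : w ^ j = w := by
      rw [hm, pow_succ, hw2 _ ⟨m, rfl⟩, one_mul]
    rw [h5]

end Pool.Agent.PP.TW.H84
end
end -- Pool.Agent.Helper84_ATW.RGW
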