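import Pool.Agent.Helper12_AWB.B048
import Pool.Agent.Helper12_AWB.B134

/-!
# Merged copies (generated) of the modules

* `Pool.Agent.Helper77_KF.Trc`
* `Pool.Agent.Helper71_KF.Sqa`
* `Pool.Agent.Helper92_KF.Sqb`
* `Pool.Agent.Helper82_K9.TRB`
* `Pool.Agent.Helper82_K9.WBO`
-/

set_option autoImplicit false

section -- Pool.Agent.Helper77_KF.Trc

/-!
Row TRC of the squad KF: the trace of `x ↦ a x b` on the group ring (column orthogonality).
-/

open scoped BigOperators

noncomputable section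

namespace Pool.Agent.PP.KF

open Pool.Agent.Helper51_AWC Pool.Agent.Helper79_WRA Pool.Agent.PP

/-- column orthogonality, in the form which counts the conjugating elements -/
theorem col_sum {G : Type} [Group G] [Fintype G] [DecidableEq G] [Fintype (Irr G)] (g h : G) :
    ∑ χ : Irr G, (χ : G → ℂ) g * (χ : G → ℂ) h = ∑ x : G, if x⁻¹ * g⁻¹ * x = h then 1 else 0 := by
  have key : (fun h : G => ∑ χ : Irr G, (χ : G → ℂ) g * (χ : G → ℂ) h -
      ∑ x : G, if x⁻¹ * g⁻¹ * x = h then (1 : ℂ) else 0) = 0 := by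
    apply irr_complete'
    · intro y z
      have h1 : ∑ χ : Irr G, (χ : G → ℂ) g * (χ : G → ℂ) (z * y * z⁻¹) =
          ∑ χ : Irr G, (χ : G → ℂ) g * (χ : G → ℂ) y :=
        Finset.sum_congr rfl fun χ _ => by rw [irr_conj χ.2]
      have h2 : ∑ x : G, (if x⁻¹ * g⁻¹ * x = z * y * z⁻¹ then (1 : ℂ) else 0) =
          ∑ x : G, if x⁻¹ * g⁻¹ * x = y then (1 : ℂ) else 0 := by
        rw [← Equiv.sum_comp (Equiv.mulRight z⁻¹)]
        refine Finset.sum_congr rfl fun x _ => ?_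
        rw [Equiv.coe_mulRight]
        have h3 : (x * z⁻¹)⁻¹ * g⁻¹ * (x * z⁻¹) = z * (x⁻¹ * g⁻¹ * x) * z⁻¹ := by group
        rw [h3]
        have h4 : z * (x⁻¹ * g⁻¹ * x) * z⁻¹ = z * y * z⁻¹ ↔ x⁻¹ * g⁻¹ * x = y := by
          rw [mul_left_inj, mul_right_inj]
        simp only [h4]
      rw [h1, h2]
    · intro ψ hψ
      simp only [sub_mul, Finset.sum_sub_distrib, Finset.sum_mul]
      rw [sub_eq_zero, Finset.sum_comm, Finset.sum_eq_single_of_mem ⟨ψ, hψ⟩ (Finset.mem_univ _)]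
      · simp_rw [mul_assoc]
        rw [← Finset.mul_sum, irr_orth_self hψ, Finset.sum_comm]
        have h5 : ∀ x : G, ∑ h : G, (if x⁻¹ * (g⁻¹ * x) = h then (1 : ℂ) else 0) * ψ h⁻¹ = ψ g := by
          intro x
          rw [Finset.sum_eq_single_of_mem (x⁻¹ * (g⁻¹ * x)) (Finset.mem_univ _)]
          · rw [if_pos rfl, one_mul]
            have h6 : (x⁻¹ * (g⁻¹ * x))⁻¹ = x⁻¹ * g * (x⁻¹)⁻¹ := by group
            rw [h6, irr_conj hψ]
          · intro h _ hne
            rw [if_neg (Ne.symm hne), zero_mul]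
        rw [Finset.sum_congr rfl fun x _ => h5 x, Finset.sum_const, Finset.card_univ,
          nsmul_eq_mul, mul_comm]
      · intro χ _ hne
        simp_rw [mul_assoc]
        rw [← Finset.mul_sum, irr_orth_ne χ.2 hψ (fun h => hne (Subtype.ext h)), mul_zero]
  exact sub_eq_zero.1 (congrFun key h)

theorem trc : TrcStmt := by
  intro G _ _ a b
  classical
  have : Fintype G := Fintype.ofFinite G
  have : Fintype (Irr G) := Fintype.ofFinite _
  have hch : ∀ (c χ : G → ℂ), chv c χ = ∑ g, c g * χ g := fun c χ =>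
    finsum_eq_sum_of_fintype _
  have h1 : ∑ᶠ χ ∈ Irr G, chv a χ * chv b χ = ∑ χ : Irr G, chv a χ * chv b χ := by
    rw [← finsum_set_coe_eq_finsum_mem (Irr G)]
    exact finsum_eq_sum_of_fintype _
  have h2 : ∑ᶠ (x : G) (g : G), a g * b (x⁻¹ * g⁻¹ * x) =
      ∑ x : G, ∑ g : G, a g * b (x⁻¹ * g⁻¹ * x) := by
    rw [finsum_eq_sum_of_fintype]
    exact Finset.sum_congr rfl fun x _ => finsum_eq_sum_of_fintype _
  rw [h1, h2]
  calc ∑ χ : Irr G, chv a χ * chv b χ
      = ∑ χ : Irr G, ∑ g : G, ∑ h : G, a g * b h * ((χ : G → ℂ) g * (χ : G → ℂ) h) := by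
        refine Finset.sum_congr rfl fun χ _ => ?_
        rw [hch, hch, Finset.sum_mul_sum]
        refine Finset.sum_congr rfl fun g _ => Finset.sum_congr rfl fun h _ => ?_
        ring
    _ = ∑ g : G, ∑ h : G, a g * b h * ∑ χ : Irr G, ((χ : G → ℂ) g * (χ : G → ℂ) h) := by
        rw [Finset.sum_comm]
        refine Finset.sum_congr rfl fun g _ => ?_
        rw [Finset.sum_comm]
        refine Finset.sum_congr rfl fun h _ => ?_
        rw [Finset.mul_sum]
    _ = ∑ g : G, ∑ x : G, a g * b (x⁻¹ * g⁻¹ * x) := by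
        refine Finset.sum_congr rfl fun g _ => ?_
        simp_rw [col_sum, Finset.mul_sum]
        rw [Finset.sum_comm]
        refine Finset.sum_congr rfl fun x _ => ?_
        rw [Finset.sum_eq_single_of_mem (x⁻¹ * g⁻¹ * x) (Finset.mem_univ _)]
        · rw [if_pos rfl, mul_one]
        · intro h _ hne
          rw [if_neg (Ne.symm hne), mul_zero]
    _ = ∑ x : G, ∑ g : G, a g * b (x⁻¹ * g⁻¹ * x) := Finset.sum_comm

end Pool.Agent.PP.KF
end
end -- Pool.Agent.Helper77_KF.Trc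

section -- Pool.Agent.Helper71_KF.Sqa

/-!
# Squad KF, module SQA: the sum of the squares of `χ(u b)` over all `χ`
-/

open scoped BigOperators

set_option linter.unusedSectionVars false

noncomputable section

namespace Pool.Agent.PP.KF.H71

open Pool.Agent.Helper51_AWC Pool.Agent.Helper79_WRA Pool.Agent.PP

attribute [local instance] Ideal.Quotient.field

/-! ## 1. Matrices of multiplications on the group ring -/

section mats

variable {F : Type} [Field F] {G : Type} [Group G] [Fintype G] [DecidableEq G]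

/-- the matrix of the left multiplication by `a` -/
def Lm (a : G → F) : Matrix G G F := Matrix.of fun x y => a (x * y⁻¹)

/-- the matrix of the right multiplication by `b` -/
def Rm (b : G → F) : Matrix G G F := Matrix.of fun x y => b (y⁻¹ * x)

theorem Lm_mul (a a' : G → F) : Lm a * Lm a' = Lm (mulF a a') := by
  ext x y
  simp only [Lm, Matrix.mul_apply, Matrix.of_apply, mulF, finsum_eq_sum_of_fintype]
  refine Fintype.sum_equiv ((Equiv.inv G).trans (Equiv.mulLeft x)) _ _ fun z => ?_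
  simp [mul_assoc]

theorem Rm_mul (b b' : G → F) : Rm b * Rm b' = Rm (mulF b' b) := by
  ext x y
  simp only [Rm, Matrix.mul_apply, Matrix.of_apply, mulF, finsum_eq_sum_of_fintype]
  refine Fintype.sum_equiv (Equiv.mulLeft y⁻¹) _ _ fun z => ?_
  simp [mul_assoc, mul_comm]

theorem Lm_Rm (a b : G → F) (x y : G) :
    (Lm a * Rm b) x y = ∑ g, a g * b (y⁻¹ * g⁻¹ * x) := by
  simp only [Lm, Rm, Matrix.mul_apply, Matrix.of_apply]
  refine Fintype.sum_equiv ((Equiv.inv G).trans (Equiv.mulLeft x)) _ _ fun z => ?_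
  simp [mul_assoc]

theorem Lm_comm_Rm (a b : G → F) : Rm b * Lm a = Lm a * Rm b := by
  ext x y
  rw [Lm_Rm]
  simp only [Lm, Rm, Matrix.mul_apply, Matrix.of_apply]
  refine Fintype.sum_equiv (Equiv.mulRight y⁻¹) _ _ fun z => ?_
  simp [mul_comm]

/-- the matrix of `x ↦ a x b` -/
def Km (a b : G → F) : Matrix G G F := Lm a * Rm b

theorem Km_apply (a b : G → F) (x y : G) : Km a b x y = ∑ g, a g * b (y⁻¹ * g⁻¹ * x) :=
  Lm_Rm a b x y

theorem Km_mul (a b a' b' : G → F) : Km a b * Km a' b' = Km (mulF a a') (mulF b' b) := by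
  unfold Km
  rw [← Lm_mul, ← Rm_mul, Matrix.mul_assoc, ← Matrix.mul_assoc (Rm b), Lm_comm_Rm]
  simp only [Matrix.mul_assoc]

theorem Km_dl (z : G) (x y : G) :
    Km (dl F z) (dl F z) x y = if y = z⁻¹ * x * z⁻¹ then 1 else 0 := by
  rw [Km_apply, Finset.sum_eq_single z]
  · rw [dl, if_pos rfl, one_mul, dl]
    have : (y⁻¹ * z⁻¹ * x = z) ↔ y = z⁻¹ * x * z⁻¹ := by
      constructor
      · intro h
        calc y = y * z * z⁻¹ := by group
          _ = y * (y⁻¹ * z⁻¹ * x) * z⁻¹ := by rw [h]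
          _ = z⁻¹ * x * z⁻¹ := by group
      · rintro rfl
        group
    by_cases h : y = z⁻¹ * x * z⁻¹
    · rw [if_pos (this.2 h), if_pos h]
    · rw [if_neg (fun h' => h (this.1 h')), if_neg h]
  · intro t _ ht
    rw [dl, if_neg ht, zero_mul]
  · intro h
    exact absurd (Finset.mem_univ _) h

theorem Km_one : Km (dl F (1 : G)) (dl F (1 : G)) = 1 := by
  ext x y
  rw [Km_dl, Matrix.one_apply]
  simp [eq_comm]

/-- the block of the complement of the subgroup `C` -/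
def sb (C : Subgroup G) (A : Matrix G G F) : Matrix {g : G // g ∉ C} {g : G // g ∉ C} F :=
  A.submatrix Subtype.val Subtype.val

/-- block diagonal matrices -/
def BD (C : Subgroup G) (A : Matrix G G F) : Prop := ∀ x y, x ∈ C → y ∉ C → A x y = 0

theorem BD_Km (C : Subgroup G) {a b : G → F} (ha : ∀ g, g ∉ C → a g = 0)
    (hb : ∀ g, g ∉ C → b g = 0) : BD C (Km a b) := by
  intro x y hx hy
  rw [Km_apply]
  refine Finset.sum_eq_zero fun g _ => ?_
  by_cases hg : g ∈ C
  · rw [hb, mul_zero]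
    intro h
    apply hy
    have h1 := C.mul_mem h (C.mul_mem (C.inv_mem hx) hg)
    have h2 : y⁻¹ * g⁻¹ * x * (x⁻¹ * g) = y⁻¹ := by group
    rw [h2] at h1
    simpa using C.inv_mem h1
  · rw [ha g hg, zero_mul]

theorem sb_mul (C : Subgroup G) [DecidablePred (· ∈ C)] [Fintype {g : G // g ∉ C}]
    (A B : Matrix G G F) (hB : BD C B) :
    sb C (A * B) = sb C A * sb C B := by
  ext x y
  simp only [sb, Matrix.submatrix_apply, Matrix.mul_apply]
  rw [← Finset.sum_filter_add_sum_filter_not Finset.univ (fun g => g ∈ C)]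
  rw [Finset.sum_eq_zero, zero_add]
  · exact (Finset.sum_subtype _ (by simp) (fun z => A x z * B z y))
  · intro z hz
    rw [hB z y (Finset.mem_filter.1 hz).2 y.2, mul_zero]

end mats

/-! ## 2. The trace of a fixed point free permutation times a projection -/

section rep

/-- representatives of the orbits of a fixed point free involution -/
theorem exists_half {n : Type} [Fintype n] (σ : n → n) (hσ : ∀ x, σ (σ x) = x)
    (hf : ∀ x, σ x ≠ x) : ∃ A : Set n, ∀ x, (x ∈ A ∧ σ x ∉ A) ∨ (x ∉ A ∧ σ x ∈ A) := by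
  let e := Fintype.equivFin n
  refine ⟨{x | e x < e (σ x)}, fun x => ?_⟩
  simp only [Set.mem_setOf_eq, hσ]
  have h : e x ≠ e (σ x) := fun h => hf x (e.injective h).symm
  rcases lt_or_gt_of_ne h with h | h
  · exact Or.inl ⟨h, not_lt.2 h.le⟩
  · exact Or.inr ⟨not_lt.2 h.le, h⟩

variable {M : Ideal (integralClosure ℤ ℂ)} [hM : M.IsMaximal] {n : Type} [Fintype n]

theorem map_rr_mul {A B : Matrix n n ℂ} (hA : ∀ i j, A i j ∈ RM M) (hB : ∀ i j, B i j ∈ RM M) :
    (A * B).map (rr M) = A.map (rr M) * B.map (rr M) := by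
  ext i j
  simp only [Matrix.map_apply, Matrix.mul_apply]
  rw [rr_sum _ _ fun z _ => (RM M).mul_mem (hA i z) (hB z j)]
  exact Finset.sum_congr rfl fun z _ => rr_mul (hA i z) (hB z j)

theorem trm_half (trm : TrmStmt) (h2 : (2 : integralClosure ℤ ℂ) ∈ M) [DecidableEq n]
    (P U : Matrix n n ℂ) (hP : ∀ i j, P i j ∈ RM M) (σ : n → n) (hσ : ∀ x, σ (σ x) = x)
    (hf : ∀ x, σ x ≠ x) (hU : ∀ x y, U x y = if y = σ x then 1 else 0) (hPP : P * P = P)
    (hUP : U * P = P * U) : (U * P).trace = 0 := by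
  classical
  have hU' : ∀ i j, U i j ∈ RM M := by
    intro i j
    rw [hU]
    split_ifs
    · exact (RM M).one_mem
    · exact (RM M).zero_mem
  have hUU : U * U = 1 := by
    ext x y
    rw [Matrix.mul_apply, Finset.sum_eq_single (σ x)]
    · rw [hU, hU, if_pos rfl, one_mul, hσ, Matrix.one_apply]
      simp [eq_comm]
    · intro z _ hz
      rw [hU, if_neg hz, zero_mul]
    · intro h
      exact absurd (Finset.mem_univ _) h
  refine trm M h2 n P U hP hU' hPP hUU hUP fun v hv1 hv2 => ?_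
  have hUv : ∀ (v : n → FF M) (x : n), (U.map (rr M)).mulVec v x = v (σ x) := by
    intro v x
    rw [Matrix.mulVec, dotProduct, Finset.sum_eq_single (σ x)]
    · rw [Matrix.map_apply, hU, if_pos rfl, rr_one, one_mul]
    · intro z _ hz
      rw [Matrix.map_apply, hU, if_neg hz, rr_zero, zero_mul]
    · intro h
      exact absurd (Finset.mem_univ _) h
  obtain ⟨A, hA⟩ := exists_half σ hσ hf
  let v0 : n → FF M := fun x => if x ∈ A then v x else 0
  have hv0 : v = v0 + (U.map (rr M)).mulVec v0 := by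
    funext x
    rw [Pi.add_apply, hUv]
    have h1 : v (σ x) = v x := by rw [← hUv v x, hv2]
    rcases hA x with ⟨h3, h4⟩ | ⟨h3, h4⟩
    · simp only [v0]
      rw [if_pos h3, if_neg h4, add_zero]
    · simp only [v0]
      rw [if_neg h3, if_pos h4, zero_add, h1]
  refine ⟨(P.map (rr M)).mulVec v0, ?_, ?_⟩
  · rw [Matrix.mulVec_mulVec, ← map_rr_mul hP hP, hPP]
  · rw [Matrix.mulVec_mulVec, ← map_rr_mul hU' hP, hUP, map_rr_mul hP hU',
      ← Matrix.mulVec_mulVec, ← Matrix.mulVec_add, ← hv0, hv1]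

end rep

/-! ## 3. The theorem -/

theorem sqa (trm : TrmStmt) (idm : IdmStmt) (trc : TrcStmt) : SqaStmt := by
  intro M _ hM G _ _ u hu b hb
  classical
  have := Fintype.ofFinite G
  obtain ⟨h1, h2, -⟩ := idm M (Cu u) b hb
  have hbh : eh M b 1 = (Nat.card (Cu u) : ℂ)⁻¹ * ∑ᶠ χ ∈ IrrE M b, χ 1 ^ 2 := by
    rw [eh]
    simp only [inv_one, pow_two]
  generalize eh M b = bh at h1 h2 hbh ⊢
  set B : G → ℂ := PP.ext0 (Cu u) bh with hB
  have hBs : ∀ g, g ∉ Cu u → B g = 0 := by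
    intro g hg
    rw [hB, PP.ext0, dif_neg hg]
  have hBa : ∀ t : Cu u, B t = bh t := by
    intro t
    rw [hB, PP.ext0, dif_pos t.2]
  have hui : u⁻¹ = u := inv_eq_of_mul_eq_one_left hu.sq
  have huC : u ∈ Cu u := by
    rw [Subgroup.mem_centralizer_iff]
    intro h hh
    rw [Set.mem_singleton_iff.1 hh]
  have hcm : ∀ {c : G}, c ∈ Cu u → c * u = u * c := by
    intro c hc
    exact ((Subgroup.mem_centralizer_iff.1 hc) u rfl).symm
  have hBR : ∀ g, B g ∈ RM M := by
    intro g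
    by_cases hg : g ∈ Cu u
    · rw [hBa ⟨g, hg⟩]
      exact (h1 _).1
    · rw [hBs g hg]
      exact (RM M).zero_mem
  have hBB : mulF B B = B := by
    have e1 := H75.mulF_res (Cu u) B hBs
    have e2 : (fun t : Cu u => B t) = bh := funext hBa
    rw [e2, h2.2] at e1
    funext x
    by_cases hx : x ∈ Cu u
    · have := congrFun e1 ⟨x, hx⟩
      rw [hBa ⟨x, hx⟩]
      exact this
    · rw [H75.mulF_supp (Cu u) hBs hBs x hx, hBs x hx]
  have hBc : ∀ c ∈ Cu u, ∀ x, B (c * x * c⁻¹) = B x := by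
    intro c hc x
    by_cases hx : x ∈ Cu u
    · have := h2.1 ⟨x, hx⟩ ⟨c, hc⟩
      rw [← hBa, ← hBa] at this
      exact this
    · rw [hBs x hx, hBs]
      intro h
      apply hx
      have := (Cu u).mul_mem ((Cu u).mul_mem ((Cu u).inv_mem hc) h) hc
      have e : c⁻¹ * (c * x * c⁻¹) * c = x := by group
      rwa [e] at this
  set w : G → ℂ := ub u bh with hw
  have hwa : ∀ g, w g = B (u⁻¹ * g) := fun g => rfl
  have hw1 : mulF (dl ℂ u) B = w := by
    funext g
    rw [H75.mulF_dl_left, hwa]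
  have hw2 : mulF B (dl ℂ u) = w := by
    funext g
    rw [H75.mulF_dl_right, hwa, ← hBc u⁻¹ ((Cu u).inv_mem huC) (g * u⁻¹)]
    congr 1
    group
  have hds : ∀ g, g ∉ Cu u → dl ℂ u g = 0 := by
    intro g hg
    rw [dl, if_neg]
    rintro rfl
    exact hg huC
  have hL : ∑ᶠ χ ∈ Irr G, chv w χ ^ 2 = ∑ x, Km w w x x := by
    simp only [pow_two]
    rw [trc G w w, finsum_eq_sum_of_fintype]
    refine Finset.sum_congr rfl fun x _ => ?_
    rw [finsum_eq_sum_of_fintype, Km_apply]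
  rw [hL, ← Finset.sum_filter_add_sum_filter_not Finset.univ (fun g => g ∈ Cu u)]
  -- the complement of the centraliser
  have hc : ∑ x ∈ Finset.univ.filter (fun g => ¬ g ∈ Cu u), Km w w x x = 0 := by
    let σ : {g : G // g ∉ Cu u} → {g : G // g ∉ Cu u} := fun x => ⟨u⁻¹ * x * u⁻¹, by
      intro h
      apply x.2
      have := (Cu u).mul_mem ((Cu u).mul_mem huC h) huC
      have e : u * (u⁻¹ * x * u⁻¹) * u = (x : G) := by group
      rwa [e] at this⟩
    have key := trm_half trm hM (sb (Cu u) (Km B B)) (sb (Cu u) (Km (dl ℂ u) (dl ℂ u))) ?_ σ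
      ?_ ?_ ?_ ?_ ?_
    · rw [← sb_mul _ _ _ (BD_Km _ hBs hBs), Km_mul, hw1, hw2] at key
      rw [Finset.sum_subtype (p := fun g => g ∉ Cu u) _ (by simp) (fun x => Km w w x x)]
      exact key
    · intro i j
      rw [sb, Matrix.submatrix_apply, Km_apply]
      exact Subring.sum_mem _ fun g _ => (RM M).mul_mem (hBR _) (hBR _)
    · intro x
      apply Subtype.ext
      change u⁻¹ * (u⁻¹ * x * u⁻¹) * u⁻¹ = (x : G)
      have e : u⁻¹ * (u⁻¹ * x * u⁻¹) * u⁻¹ = (u * u)⁻¹ * x * (u * u)⁻¹ := by group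
      rw [e, hu.sq]
      simp
    · intro x hx
      apply x.2
      have e : u⁻¹ * (x : G) * u⁻¹ = x := congrArg Subtype.val hx
      rw [Subgroup.mem_centralizer_iff]
      intro h hh
      rw [Set.mem_singleton_iff.1 hh]
      rw [hui] at e
      calc u * (x : G) = u * x * (u * u) := by rw [hu.sq, mul_one]
        _ = (u * x * u) * u := by group
        _ = x * u := by rw [e]
    · intro x y
      rw [sb, Matrix.submatrix_apply, Km_dl]
      by_cases h : y = σ x
      · rw [if_pos h, if_pos (by rw [h])]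
      · rw [if_neg h, if_neg (fun h' => h (Subtype.ext h'))]
    · rw [← sb_mul _ _ _ (BD_Km _ hBs hBs), Km_mul, hBB]
    · rw [← sb_mul _ _ _ (BD_Km _ hBs hBs), ← sb_mul _ _ _ (BD_Km _ hds hds), Km_mul, Km_mul,
        hw1, hw2]
  rw [hc, add_zero]
  -- the centraliser
  have hS : ∑ g, w g * w g⁻¹ = bh 1 := by
    have e1 : mulF B B 1 = bh 1 := by
      rw [hBB]
      exact hBa 1
    rw [← e1, mulF, finsum_eq_sum_of_fintype]
    refine Fintype.sum_equiv (Equiv.mulLeft u⁻¹) _ _ fun g => ?_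
    rw [hwa, hwa, Equiv.coe_mulLeft]
    congr 1
    rw [← hBc u huC ((u⁻¹ * g)⁻¹ * 1)]
    congr 1
    rw [hui]
    have e : u * ((u * g)⁻¹ * 1) * u = u * g⁻¹ * (u⁻¹ * u) := by group
    rw [e]
    simp
  have hC : ∀ x ∈ Finset.univ.filter (fun g => g ∈ Cu u), Km w w x x = bh 1 := by
    intro x hx
    have hx' : x ∈ Cu u := (Finset.mem_filter.1 hx).2
    rw [Km_apply, ← hS]
    refine Finset.sum_congr rfl fun g _ => ?_
    congr 1
    rw [hwa, hwa, ← hBc x hx' (u⁻¹ * (x⁻¹ * g⁻¹ * x))]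
    congr 1
    have e : x * u⁻¹ = u⁻¹ * x := by
      rw [hui, hcm hx']
    calc x * (u⁻¹ * (x⁻¹ * g⁻¹ * x)) * x⁻¹ = (x * u⁻¹) * x⁻¹ * g⁻¹ := by group
      _ = u⁻¹ * g⁻¹ := by rw [e]; group
  rw [Finset.sum_congr rfl hC, Finset.sum_const, hbh, nsmul_eq_mul]
  have hcard : (Finset.univ.filter (fun g => g ∈ Cu u)).card = Nat.card (Cu u) := by
    rw [Nat.card_eq_fintype_card, Fintype.card_subtype]
  rw [hcard, ← mul_assoc, mul_inv_cancel₀, one_mul]
  exact Nat.cast_ne_zero.2 Nat.card_pos.ne'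

end Pool.Agent.PP.KF.H71
end
end -- Pool.Agent.Helper71_KF.Sqa

section -- Pool.Agent.Helper92_KF.Sqb

/-!
# Squad KF, module SQB: the second main theorem
-/

open scoped BigOperators

set_option linter.unusedSectionVars false

noncomputable section

namespace Pool.Agent.PP.KF.H92

open Pool.Agent.Helper51_AWC Pool.Agent.Helper79_WRA Pool.Agent.PP
open Pool.Agent.PP.KF.H71

attribute [local instance] Ideal.Quotient.field

/-! ## 1. The group ring -/

section grp

variable {F : Type} [Field F] {G : Type} [Group G] [Fintype G] [DecidableEq G]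

theorem Km_mulVec (a b v : G → F) : (Km a b).mulVec v = mulF a (mulF v b) := by
  funext x
  rw [Matrix.mulVec, dotProduct]
  simp only [Km_apply, mulF, finsum_eq_sum_of_fintype, Finset.sum_mul, Finset.mul_sum]
  rw [Finset.sum_comm]
  refine Finset.sum_congr rfl fun g _ => Finset.sum_congr rfl fun y _ => ?_
  rw [← mul_assoc y⁻¹]
  ring

theorem dl_one_mulF (a : G → F) : mulF (dl F (1 : G)) a = a := by
  funext x
  rw [H75.mulF_dl_left]
  simp

theorem dl_cl : IsCl (dl F (1 : G)) := by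
  intro x y
  unfold dl
  by_cases h : x = 1
  · rw [if_pos h, if_pos (by rw [h]; group)]
  · rw [if_neg h, if_neg]
    intro h'
    apply h
    have : x = y⁻¹ * (y * x * y⁻¹) * y := by group
    rw [this, h']
    group

variable (u : G) (b : Cu u → F)

theorem e0_supp : ∀ g, g ∉ Cu u → PP.ext0 (Cu u) b g = 0 := by
  intro g hg
  rw [PP.ext0, dif_neg hg]

theorem e0_app (t : Cu u) : PP.ext0 (Cu u) b t = b t := by
  rw [PP.ext0, dif_pos t.2]

theorem e0_res : (fun t : Cu u => PP.ext0 (Cu u) b t) = b := funext (e0_app u b)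

theorem e0_idem (h : mulF b b = b) :
    mulF (PP.ext0 (Cu u) b) (PP.ext0 (Cu u) b) = PP.ext0 (Cu u) b := by
  have e1 := H75.mulF_res (Cu u) (PP.ext0 (Cu u) b) (e0_supp u b)
  rw [e0_res, h] at e1
  funext x
  by_cases hx : x ∈ Cu u
  · have := congrFun e1 ⟨x, hx⟩
    rw [e0_app u b ⟨x, hx⟩]
    exact this
  · rw [H75.mulF_supp (Cu u) (e0_supp u b) (e0_supp u b) x hx, e0_supp u b x hx]

theorem e0_conj (h : IsCl b) : ∀ c ∈ Cu u, ∀ x, PP.ext0 (Cu u) b (c * x * c⁻¹) =
    PP.ext0 (Cu u) b x := by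
  intro c hc x
  by_cases hx : x ∈ Cu u
  · have := h ⟨x, hx⟩ ⟨c, hc⟩
    rw [← e0_app u b, ← e0_app u b] at this
    exact this
  · rw [e0_supp u b x hx, e0_supp u b]
    intro h
    apply hx
    have := (Cu u).mul_mem ((Cu u).mul_mem ((Cu u).inv_mem hc) h) hc
    have e : c⁻¹ * (c * x * c⁻¹) * c = x := by group
    rwa [e] at this

theorem u_mem : u ∈ Cu u := by
  rw [Subgroup.mem_centralizer_iff]
  intro h hh
  rw [Set.mem_singleton_iff.1 hh]

theorem dl_comm_e0 (h : IsCl b) : mulF (PP.ext0 (Cu u) b) (dl F u) =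
    mulF (dl F u) (PP.ext0 (Cu u) b) := by
  funext g
  rw [H75.mulF_dl_left, H75.mulF_dl_right,
    ← e0_conj u b h u⁻¹ ((Cu u).inv_mem (u_mem u)) (g * u⁻¹)]
  congr 1
  group

/-- the element `(1 - e) b` vanishes on the centraliser -/
theorem al_zero (e : G → F) (he : IsCl e) (hb : IsCl b) (h : mulF (fun t : Cu u => e t) b = b) :
    ∀ x ∈ Cu u, mulF (dl F (1 : G) - e) (PP.ext0 (Cu u) b) x = 0 := by
  intro x hx
  have h1 : IsCl (dl F (1 : G) - e) := H20.isCl_sub dl_cl he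
  rw [H20.mulF_comm_of_cl h1]
  have e1 := congrFun (H75.mulF_res (Cu u) (dl F (1 : G) - e) (e0_supp u b)) ⟨x, hx⟩
  rw [e0_res] at e1
  have h2 : (fun t : Cu u => (dl F (1 : G) - e) t) =
      dl F (1 : Cu u) - (fun t : Cu u => e t) := by
    funext t
    simp only [Pi.sub_apply]
    congr 1
    unfold dl
    by_cases ht : t = 1
    · rw [if_pos ht, if_pos (by rw [ht]; rfl)]
    · rw [if_neg ht, if_neg]
      exact fun h' => ht (Subtype.ext h')
  rw [h2, H20.mulF_comm_of_cl hb, H20.sub_mulF] at e1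
  have h3 : mulF (dl F (1 : Cu u)) b = b := by
    funext t
    rw [H75.mulF_dl_left]
    simp
  rw [h3, h, sub_self] at e1
  exact e1

theorem cl_idem {f B : G → F} (hfc : IsCl f) (hff : mulF f f = f) (hBB : mulF B B = B) :
    mulF (mulF f B) (mulF f B) = mulF f B := by
  calc mulF (mulF f B) (mulF f B) = mulF f (mulF (mulF B f) B) := by
        rw [H20.mulF_assoc, ← H20.mulF_assoc B f B]
    _ = mulF (mulF f f) (mulF B B) := by
        rw [← H20.mulF_comm_of_cl hfc B, H20.mulF_assoc, H20.mulF_assoc]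
    _ = mulF f B := by rw [hff, hBB]

theorem chv_sub (a c χ : G → ℂ) : chv (a - c) χ = chv a χ - chv c χ := by
  simp only [chv, finsum_eq_sum_of_fintype, Pi.sub_apply, sub_mul, Finset.sum_sub_distrib]

end grp

/-! ## 2. Reduction -/

section red

variable {M : Ideal (integralClosure ℤ ℂ)} [hM : M.IsMaximal] {G : Type} [Group G] [Fintype G]

theorem mulF_RM {a c : G → ℂ} (ha : ∀ g, a g ∈ RM M) (hc : ∀ g, c g ∈ RM M) (x : G) :
    mulF a c x ∈ RM M ∧ rr M (mulF a c x) = mulF (fun g => rr M (a g)) (fun g => rr M (c g)) x := by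
  simp only [mulF, finsum_eq_sum_of_fintype]
  refine ⟨Subring.sum_mem _ fun g _ => (RM M).mul_mem (ha _) (hc _), ?_⟩
  rw [rr_sum _ _ fun g _ => (RM M).mul_mem (ha _) (hc _)]
  exact Finset.sum_congr rfl fun g _ => rr_mul (ha _) (hc _)

theorem Km_RM [DecidableEq G] {a c : G → ℂ} (ha : ∀ g, a g ∈ RM M) (hc : ∀ g, c g ∈ RM M)
    (x y : G) : Km a c x y ∈ RM M := by
  rw [Km_apply]
  exact Subring.sum_mem _ fun g _ => (RM M).mul_mem (ha _) (hc _)

theorem Km_map [DecidableEq G] {a c : G → ℂ} (ha : ∀ g, a g ∈ RM M) (hc : ∀ g, c g ∈ RM M) :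
    (Km a c).map (rr M) = Km (fun g => rr M (a g)) (fun g => rr M (c g)) := by
  ext x y
  rw [Matrix.map_apply, Km_apply, Km_apply, rr_sum _ _ fun g _ => (RM M).mul_mem (ha _) (hc _)]
  exact Finset.sum_congr rfl fun g _ => rr_mul (ha _) (hc _)

theorem dl_RM (z g : G) : dl ℂ z g ∈ RM M ∧ rr M (dl ℂ z g) = dl (FF M) z g := by
  unfold dl
  split_ifs
  · exact ⟨(RM M).one_mem, rr_one⟩
  · exact ⟨(RM M).zero_mem, rr_zero⟩

end red

/-! ## 3. The theorem -/

theorem sqb (trm : TrmStmt) (idm : IdmStmt) (trc : TrcStmt) : SqbStmt := by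
  intro M _ hM G _ _ u hu b hb e he heb
  classical
  have := Fintype.ofFinite G
  obtain ⟨h1, h2, -⟩ := idm M (Cu u) b hb
  obtain ⟨k1, k2, k3⟩ := idm M G e he
  generalize eh M b = bh at h1 h2 ⊢
  generalize eh M e = E at k1 k2 k3 ⊢
  have hui : u⁻¹ = u := inv_eq_of_mul_eq_one_left hu.sq
  have hone : ∀ {F : Type} [Field F] (a : G → F), mulF a (dl F (1 : G)) = a := by
    intro F _ a
    rw [← H20.mulF_comm_of_cl dl_cl, dl_one_mulF]
  have hduu : ∀ (F : Type) [Field F], mulF (dl F u) (dl F u) = dl F (1 : G) := by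
    intro F _
    funext g
    rw [H75.mulF_dl_left, hui]
    unfold dl
    by_cases h : g = 1
    · rw [if_pos h, if_pos (by rw [h, mul_one])]
    · rw [if_neg h, if_neg]
      intro h'
      exact h (mul_eq_left.1 h')
  -- over the complex numbers
  set B : G → ℂ := PP.ext0 (Cu u) bh with hB
  set f : G → ℂ := dl ℂ (1 : G) - E with hf
  have hfc : IsCl f := H20.isCl_sub dl_cl k2.1
  have hff : mulF f f = f := by
    rw [hf, H20.mulF_sub, hone, H20.sub_mulF, dl_one_mulF, k2.2, sub_self, sub_zero]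
  have hBB : mulF B B = B := e0_idem u bh h2.2
  have hBu : mulF B (dl ℂ u) = mulF (dl ℂ u) B := dl_comm_e0 u bh h2.1
  set w : G → ℂ := ub u bh with hw
  have hw1 : mulF (dl ℂ u) B = w := by
    funext g
    rw [H75.mulF_dl_left]
    rfl
  have hfB : mulF (mulF f B) (mulF f B) = mulF f B := cl_idem hfc hff hBB
  -- the sum is a trace
  have hL : ∑ᶠ χ ∈ {χ : G → ℂ | χ ∈ Irr G ∧ res M e χ ≠ 1}, chv w χ ^ 2 =
      ∑ x, Km (mulF f w) w x x := by
    have hfw : mulF f w = w - mulF E w := by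
      rw [hf, H20.sub_mulF, dl_one_mulF]
    have q1 : ∀ χ ∈ Irr G, res M e χ ≠ 1 → chv (mulF f w) χ = chv w χ := by
      intro χ hχ hr
      rw [hfw, chv_sub, (k3 χ hχ w).2 hr, sub_zero]
    have q2 : ∀ χ ∈ Irr G, res M e χ = 1 → chv (mulF f w) χ = 0 := by
      intro χ hχ hr
      rw [hfw, chv_sub, (k3 χ hχ w).1 hr, sub_self]
    calc ∑ᶠ χ ∈ {χ : G → ℂ | χ ∈ Irr G ∧ res M e χ ≠ 1}, chv w χ ^ 2
        = ∑ᶠ χ ∈ {χ : G → ℂ | χ ∈ Irr G ∧ res M e χ ≠ 1}, chv (mulF f w) χ * chv w χ := by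
          refine finsum_mem_congr rfl fun χ hχ => ?_
          rw [q1 χ hχ.1 hχ.2, pow_two]
      _ = ∑ᶠ χ ∈ Irr G, chv (mulF f w) χ * chv w χ := by
          apply finsum_mem_inter_support_eq
          ext χ
          constructor
          · rintro ⟨h3, h4⟩
            exact ⟨h3.1, h4⟩
          · rintro ⟨h3, h4⟩
            refine ⟨⟨h3, fun h5 => h4 ?_⟩, h4⟩
            change chv (mulF f w) χ * chv w χ = 0
            rw [q2 χ h3 h5, zero_mul]
      _ = ∑ x, Km (mulF f w) w x x := by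
          rw [trc G (mulF f w) w, finsum_eq_sum_of_fintype]
          refine Finset.sum_congr rfl fun x _ => ?_
          rw [finsum_eq_sum_of_fintype, Km_apply]
  rw [hL]
  -- the reductions
  set f' : G → FF M := dl (FF M) (1 : G) - e with hf'
  set B' : G → FF M := PP.ext0 (Cu u) b with hB'
  have hfr : ∀ g, f g ∈ RM M ∧ rr M (f g) = f' g := by
    intro g
    rw [hf, hf', Pi.sub_apply, Pi.sub_apply]
    refine ⟨(RM M).sub_mem (dl_RM _ _).1 (k1 g).1, ?_⟩
    rw [rr_sub (dl_RM _ _).1 (k1 g).1, (dl_RM _ _).2, (k1 g).2]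
  have hBr : ∀ g, B g ∈ RM M ∧ rr M (B g) = B' g := by
    intro g
    by_cases hg : g ∈ Cu u
    · rw [hB, hB', e0_app u bh ⟨g, hg⟩, e0_app u b ⟨g, hg⟩]
      exact h1 _
    · rw [hB, hB', e0_supp u bh g hg, e0_supp u b g hg]
      exact ⟨(RM M).zero_mem, rr_zero⟩
  have hff' : (fun g => rr M (f g)) = f' := funext fun g => (hfr g).2
  have hBB' : (fun g => rr M (B g)) = B' := funext fun g => (hBr g).2
  have hfBr : ∀ g, mulF f B g ∈ RM M := fun g =>
    (mulF_RM (fun g => (hfr g).1) (fun g => (hBr g).1) g).1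
  have hfBr' : (fun g => rr M (mulF f B g)) = mulF f' B' := by
    funext g
    rw [(mulF_RM (fun g => (hfr g).1) (fun g => (hBr g).1) g).2, hff', hBB']
  set P : Matrix G G ℂ := Km (mulF f B) B with hP
  set U : Matrix G G ℂ := Km (dl ℂ u) (dl ℂ u) with hU
  have hPR : ∀ i j, P i j ∈ RM M := fun i j => Km_RM hfBr (fun g => (hBr g).1) i j
  have hUR : ∀ i j, U i j ∈ RM M := fun i j =>
    Km_RM (fun g => (dl_RM u g).1) (fun g => (dl_RM u g).1) i j
  have hPm : P.map (rr M) = Km (mulF f' B') B' := by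
    rw [hP, Km_map hfBr (fun g => (hBr g).1), hfBr', hBB']
  have hUm : U.map (rr M) = Km (dl (FF M) u) (dl (FF M) u) := by
    rw [hU, Km_map (fun g => (dl_RM u g).1) (fun g => (dl_RM u g).1)]
    have : (fun g => rr M (dl ℂ u g)) = dl (FF M) u := funext fun g => (dl_RM u g).2
    rw [this]
  have hPP : P * P = P := by
    rw [hP, Km_mul, hfB, hBB]
  have hUU : U * U = 1 := by
    rw [hU, Km_mul, hduu, Km_one]
  have hUP : U * P = Km (mulF f w) w := by
    rw [hU, hP, Km_mul, hBu, hw1, ← H20.mulF_assoc, ← H20.mulF_comm_of_cl hfc, H20.mulF_assoc,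
      hw1]
  have hPU : P * U = Km (mulF f w) w := by
    rw [hU, hP, Km_mul, H20.mulF_assoc, hBu, hw1]
  have key := trm M hM G P U hPR hUR hPP hUU (hUP.trans hPU.symm) ?_
  · rw [hUP] at key
    exact key
  -- the reduction is free
  intro v hv hv'
  rw [hPm, Km_mulVec] at hv
  rw [hUm, Km_mulVec] at hv'
  set al : G → FF M := mulF f' B' with hal
  have hfc' : IsCl f' := H20.isCl_sub dl_cl he.1
  have hff2 : mulF f' f' = f' := by
    rw [hf', H20.mulF_sub, hone, H20.sub_mulF, dl_one_mulF, he.2, sub_self, sub_zero]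
  have hBB2 : mulF B' B' = B' := e0_idem u b hb.2
  have haa : mulF al al = al := cl_idem hfc' hff2 hBB2
  have hBu' : mulF B' (dl (FF M) u) = mulF (dl (FF M) u) B' := dl_comm_e0 u b hb.1
  have hav : mulF al v = v := by
    calc mulF al v = mulF al (mulF al (mulF v B')) := by rw [hv]
      _ = mulF al (mulF v B') := by rw [← H20.mulF_assoc, haa]
      _ = v := hv
  have hvu : mulF v (dl (FF M) u) = mulF (dl (FF M) u) v := by
    calc mulF v (dl (FF M) u) = mulF (dl (FF M) (1 : G)) (mulF v (dl (FF M) u)) := by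
          rw [dl_one_mulF]
      _ = mulF (dl (FF M) u) (mulF (dl (FF M) u) (mulF v (dl (FF M) u))) := by
          rw [← hduu, H20.mulF_assoc]
      _ = mulF (dl (FF M) u) v := by rw [hv']
  have hau : ∀ g, al (u⁻¹ * g * u⁻¹) = al g := by
    intro g
    have q : mulF (dl (FF M) u) (mulF al (dl (FF M) u)) = al := by
      rw [hal, H20.mulF_assoc, hBu', ← H20.mulF_assoc f', H20.mulF_comm_of_cl hfc',
        H20.mulF_assoc, ← H20.mulF_assoc (dl (FF M) u), hduu, dl_one_mulF,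
        H20.mulF_comm_of_cl hfc']
    have q1 := congrFun q g
    rw [H75.mulF_dl_left, H75.mulF_dl_right] at q1
    exact q1
  have haC : ∀ g ∈ Cu u, al g = 0 := al_zero u b e he.1 hb.1 heb
  let i := Fintype.equivFin G
  let c : G → FF M := fun g => if i g < i (u⁻¹ * g * u⁻¹) then al g else 0
  have hc : al = c + mulF (dl (FF M) u) (mulF c (dl (FF M) u)) := by
    funext g
    rw [Pi.add_apply, H75.mulF_dl_left, H75.mulF_dl_right]
    have e1 : u⁻¹ * (u⁻¹ * g * u⁻¹) * u⁻¹ = g := by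
      have e2 : u⁻¹ * (u⁻¹ * g * u⁻¹) * u⁻¹ = (u * u)⁻¹ * g * (u * u)⁻¹ := by group
      rw [e2, hu.sq]
      simp
    simp only [c]
    rw [e1, hau]
    rcases lt_trichotomy (i g) (i (u⁻¹ * g * u⁻¹)) with h | h | h
    · rw [if_pos h, if_neg (not_lt.2 h.le), add_zero]
    · rw [if_neg (lt_irrefl _ |> fun q => by rwa [← h]), if_neg (by rw [← h]; exact lt_irrefl _),
        add_zero]
      apply haC
      have e3 : g = u⁻¹ * g * u⁻¹ := i.injective h
      rw [Subgroup.mem_centralizer_iff]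
      intro t ht
      rw [Set.mem_singleton_iff.1 ht]
      calc u * g = u * (u⁻¹ * g * u⁻¹) := by rw [← e3]
        _ = g * u⁻¹ := by group
        _ = g * u := by rw [hui]
    · rw [if_neg (not_lt.2 h.le), if_pos h, zero_add]
  set w0 : G → FF M := mulF c v with hw0
  have hvw : v = w0 + (U.map (rr M)).mulVec w0 := by
    rw [hUm, Km_mulVec, hw0, H20.mulF_assoc, hvu, ← H20.mulF_assoc c, ← H20.mulF_assoc,
      ← H20.add_mulF, ← hc, hav]
  have hPPm : P.map (rr M) * P.map (rr M) = P.map (rr M) := by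
    rw [← map_rr_mul hPR hPR, hPP]
  have hUPm : U.map (rr M) * P.map (rr M) = P.map (rr M) * U.map (rr M) := by
    rw [← map_rr_mul hPR hUR, ← map_rr_mul hUR hPR, hUP, hPU]
  refine ⟨(P.map (rr M)).mulVec w0, ?_, ?_⟩
  · rw [Matrix.mulVec_mulVec, hPPm]
  · rw [Matrix.mulVec_mulVec, hUPm, ← Matrix.mulVec_mulVec, ← Matrix.mulVec_add, ← hvw, hPm,
      Km_mulVec, hv]

end Pool.Agent.PP.KF.H92
end
end -- Pool.Agent.Helper92_KF.Sqb

section -- Pool.Agent.Helper82_K9.TRB

/-!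
# Squad K9, row TRB: traces of `U V P`
-/

open scoped BigOperators

noncomputable section

namespace Pool.Agent.PP.K9.H82

open Pool.Agent.Helper51_AWC Pool.Agent.Helper79_WRA Pool.Agent.PP Pool.Agent.PP.KF

attribute [local instance] Ideal.Quotient.field

variable {M : Ideal (integralClosure ℤ ℂ)} [hM : M.IsMaximal] {n : Type} [Fintype n]
  [DecidableEq n]

theorem nat_ne {ℓ : ℕ} [hℓ : Fact ℓ.Prime] (h : (ℓ : integralClosure ℤ ℂ) ∈ M) {m : ℕ}
    (hm : ¬ ℓ ∣ m) : ((m : ℕ) : FF M) ≠ 0 := by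
  intro h0
  have h1 : ((ℓ : ℕ) : FF M) = 0 := by
    have : (Ideal.Quotient.mk M (ℓ : integralClosure ℤ ℂ)) = 0 :=
      Ideal.Quotient.eq_zero_iff_mem.2 h
    rwa [map_natCast] at this
  have h2 : Nat.Coprime ℓ m := (Nat.Prime.coprime_iff_not_dvd hℓ.out).2 hm
  obtain ⟨x, y, hxy⟩ := Nat.isCoprime_iff_coprime.2 h2
  have h3 : ((x * ℓ + y * m : ℤ) : FF M) = ((1 : ℤ) : FF M) := by rw [hxy]
  push_cast at h3
  rw [h1, h0, mul_zero, mul_zero, add_zero] at h3
  exact zero_ne_one h3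

theorem e_mul {A B : Matrix n n ℂ} (hA : ∀ i j, A i j ∈ RM M) (hB : ∀ i j, B i j ∈ RM M)
    (i j : n) : (A * B) i j ∈ RM M := by
  rw [Matrix.mul_apply]
  exact Subring.sum_mem _ fun k _ => (RM M).mul_mem (hA i k) (hB k j)

theorem e_pow {A : Matrix n n ℂ} (hA : ∀ i j, A i j ∈ RM M) (k : ℕ) :
    ∀ i j, (A ^ k) i j ∈ RM M := by
  induction k with
  | zero =>
    intro i j
    rw [pow_zero, Matrix.one_apply]
    split_ifs
    · exact (RM M).one_mem
    · exact (RM M).zero_mem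
  | succ k ih =>
    intro i j
    rw [pow_succ]
    exact e_mul ih hA i j

theorem e_smul {A : Matrix n n ℂ} (hA : ∀ i j, A i j ∈ RM M) {c : ℂ} (hc : c ∈ RM M) (i j : n) :
    (c • A) i j ∈ RM M := by
  rw [Matrix.smul_apply, smul_eq_mul]
  exact (RM M).mul_mem hc (hA i j)

theorem e_sum {A : ℕ → Matrix n n ℂ} (hA : ∀ k i j, A k i j ∈ RM M) (m : ℕ) (i j : n) :
    (∑ k ∈ Finset.range m, A k) i j ∈ RM M := by
  rw [Matrix.sum_apply]
  exact Subring.sum_mem _ fun k _ => hA k i j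

/-- row TRB -/
theorem trb (tra : TraStmt) : TrbStmt := by
  intro ℓ _ M _ hℓ n _ _ P U V a m ha hm hP hU hV hPP hUa hVm hUP hVP hUV hyp
  have hm0 : m ≠ 0 := fun h => hm (h ▸ dvd_zero ℓ)
  have hmC : (m : ℂ) ≠ 0 := Nat.cast_ne_zero.2 hm0
  have hmR : (m : ℂ) ∈ RM M ∧ rr M (m : ℂ) = (m : FF M) := rr_nat m
  have hinv : (m : ℂ)⁻¹ ∈ RM M := (inv_RM hmR.1 (by rw [hmR.2]; exact nat_ne hℓ hm)).1
  have hζ := Complex.isPrimitiveRoot_exp m hm0
  set ζ : ℂ := Complex.exp (2 * Real.pi * Complex.I / m) with hζd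
  have hζR : ζ ∈ RM M := RM_of_int (hζ.isIntegral (Nat.pos_of_ne_zero hm0))
  have hζ0 : ζ ≠ 0 := hζ.ne_zero hm0
  set W : ℕ → Matrix n n ℂ := fun i => ζ ^ i • V with hW
  set T : ℕ → Matrix n n ℂ := fun i => (m : ℂ)⁻¹ • ∑ k ∈ Finset.range m, W i ^ k with hT
  have hWm : ∀ i, W i ^ m = 1 := fun i => by
    simp only [hW]
    rw [smul_pow, hVm, ← pow_mul, mul_comm, pow_mul, hζ.pow_eq_one, one_pow, one_smul]
  have hWT : ∀ i, W i * T i = T i := fun i => by
    have h1 := mul_geom_sum (W i) m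
    rw [hWm, sub_self, sub_mul, one_mul, sub_eq_zero] at h1
    simp only [hT]
    rw [Matrix.mul_smul, h1]
  have hWkT : ∀ i k, W i ^ k * T i = T i := by
    intro i k
    induction k with
    | zero => rw [pow_zero, one_mul]
    | succ k ih => rw [pow_succ, mul_assoc, hWT, ih]
  have hTT : ∀ i, T i * T i = T i := fun i => by
    have h1 : (∑ k ∈ Finset.range m, W i ^ k) * T i = (m : ℂ) • T i := by
      rw [Finset.sum_mul, Finset.sum_congr rfl fun k _ => hWkT i k, Finset.sum_const,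
        Finset.card_range, ← Nat.cast_smul_eq_nsmul ℂ]
    have h2 : T i * T i = (m : ℂ)⁻¹ • ((∑ k ∈ Finset.range m, W i ^ k) * T i) := by
      conv_lhs => lhs; simp only [hT]
      rw [Matrix.smul_mul]
    rw [h2, h1, smul_smul, inv_mul_cancel₀ hmC, one_smul]
  -- commutation
  have hcomm : ∀ (X : Matrix n n ℂ), V * X = X * V → ∀ i, T i * X = X * T i := by
    intro X hX i
    have h1 : Commute (W i) X := by
      simp only [hW]
      exact (Commute.smul_left (show Commute V X from hX) _)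
    have h2 : Commute (∑ k ∈ Finset.range m, W i ^ k) X :=
      Commute.sum_left _ _ _ fun k _ => h1.pow_left k
    simp only [hT]
    exact (h2.smul_left ((m : ℂ)⁻¹)).eq
  have hTP : ∀ i, T i * P = P * T i := hcomm P hVP
  have hTU : ∀ i, T i * U = U * T i := hcomm U hUV.symm
  -- the matrices `T i * P`
  have hQR : ∀ i, ∀ r s, (T i * P) r s ∈ RM M := by
    intro i
    refine e_mul (fun r s => ?_) hP
    refine e_smul (e_sum (fun k => e_pow (e_smul hV ((RM M).pow_mem hζR i)) k) m) hinv r s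
  have hzero : ∀ i, (U * (T i * P)).trace = 0 := by
    intro i
    have hQU : U * (T i * P) = T i * P * U := by
      rw [← mul_assoc, ← hTU, mul_assoc, mul_assoc, hUP]
    have hPQ : P * (T i * P) = T i * P := by
      rw [hTP, ← mul_assoc, hPP]
    refine tra ℓ M hℓ n (T i * P) U a ha (hQR i) hU ?_ hUa hQU ?_
    · rw [mul_assoc, hPQ, ← mul_assoc, hTT]
    · intro v hv hUv
      have e1 : (P.map (rr M)) * ((T i * P).map (rr M)) = (T i * P).map (rr M) := by
        rw [← H71.map_rr_mul hP (hQR i), hPQ]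
      have e2 : Commute (U.map (rr M)) ((T i * P).map (rr M)) := by
        show _ * _ = _ * _
        rw [← H71.map_rr_mul hU (hQR i), ← H71.map_rr_mul (hQR i) hU, hQU]
      have e3 : (T i * P).map (rr M) * (T i * P).map (rr M) = (T i * P).map (rr M) := by
        rw [← H71.map_rr_mul (hQR i) (hQR i), mul_assoc, hPQ, ← mul_assoc, hTT]
      have hPv : (P.map (rr M)).mulVec v = v := by
        conv_lhs => rw [← hv]
        rw [Matrix.mulVec_mulVec, e1, hv]
      obtain ⟨w, _, hw2⟩ := hyp v hPv hUv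
      refine ⟨((T i * P).map (rr M)).mulVec w, by rw [Matrix.mulVec_mulVec, e3], ?_⟩
      have h5 : ∀ j, ((U.map (rr M)) ^ j).mulVec (((T i * P).map (rr M)).mulVec w) =
          ((T i * P).map (rr M)).mulVec (((U.map (rr M)) ^ j).mulVec w) := by
        intro j
        rw [Matrix.mulVec_mulVec, Matrix.mulVec_mulVec, (e2.pow_left j).eq]
      rw [Finset.sum_congr rfl fun j _ => h5 j, ← Matrix.mulVec_sum, ← hw2, hv]
  -- the sum of the `T i`
  have hsum : ∑ i ∈ Finset.range m, T i = 1 := by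
    have h1 : ∀ i, T i = (m : ℂ)⁻¹ • ∑ k ∈ Finset.range m, (ζ ^ k) ^ i • V ^ k := fun i => by
      simp only [hT, hW]
      congr 1
      refine Finset.sum_congr rfl fun k _ => ?_
      rw [smul_pow, ← pow_mul, ← pow_mul, mul_comm]
    rw [Finset.sum_congr rfl fun i _ => h1 i, ← Finset.smul_sum, Finset.sum_comm]
    have h2 : ∀ k ∈ Finset.range m, ∑ i ∈ Finset.range m, (ζ ^ k) ^ i • V ^ k =
        if k = 0 then (m : ℂ) • (1 : Matrix n n ℂ) else 0 := by
      intro k hk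
      rw [← Finset.sum_smul]
      split_ifs with h
      · subst h
        simp
      · have h3 : ζ ^ k ≠ 1 := by
          intro h4
          have := hζ.pow_eq_one_iff_dvd k |>.1 h4
          exact absurd (Nat.le_of_dvd (Nat.pos_of_ne_zero h) this)
            (not_le.2 (Finset.mem_range.1 hk))
        rw [geom_sum_eq h3, ← pow_mul, mul_comm, pow_mul, hζ.pow_eq_one, one_pow, sub_self,
          zero_div, zero_smul]
    rw [Finset.sum_congr rfl h2, Finset.sum_ite_eq' (Finset.range m) 0,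
      if_pos (Finset.mem_range.2 (Nat.pos_of_ne_zero hm0)), smul_smul, inv_mul_cancel₀ hmC,
      one_smul]
  have hfin : U * V * P = ∑ i ∈ Finset.range m, (ζ ^ i)⁻¹ • (U * (T i * P)) := by
    have h1 : ∀ i, U * V * (T i * P) = (ζ ^ i)⁻¹ • (U * (T i * P)) := by
      intro i
      have h2 : V * T i = (ζ ^ i)⁻¹ • T i := by
        conv_rhs => rw [← hWT i]
        simp only [hW]
        rw [Matrix.smul_mul, smul_smul, inv_mul_cancel₀ (pow_ne_zero i hζ0), one_smul]
      rw [mul_assoc U V, ← mul_assoc V, h2, Matrix.smul_mul, Matrix.mul_smul]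
    rw [← Finset.sum_congr rfl fun i _ => h1 i, ← Finset.mul_sum, ← Finset.sum_mul, hsum,
      one_mul]
  rw [hfin, Matrix.trace_sum]
  refine Finset.sum_eq_zero fun i _ => ?_
  rw [Matrix.trace_smul, hzero i, smul_zero]

end Pool.Agent.PP.K9.H82
end
end -- Pool.Agent.Helper82_K9.TRB

section -- Pool.Agent.Helper82_K9.WBO

/-!
# Squad K9, row WBO: weak block orthogonality
-/

open scoped BigOperators

set_option linter.unusedSectionVars false

noncomputable section

namespace Pool.Agent.PP.K9.H82W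

open Pool.Agent.Helper51_AWC Pool.Agent.Helper79_WRA Pool.Agent.PP Pool.Agent.PP.KF
open Pool.Agent.PP.KF.H71 Pool.Agent.PP.KF.H92

attribute [local instance] Ideal.Quotient.field

/-- the `ℓ`-part and the `ℓ'`-part of an element which is not regular -/
theorem parts {ℓ : ℕ} [hℓ : Fact ℓ.Prime] {G : Type} [Group G] [Finite G] {g : G}
    (hg : ¬ Reg ℓ g) : ∃ (y t : G) (a m : ℕ), 0 < a ∧ orderOf y = ℓ ^ a ∧ ¬ ℓ ∣ m ∧ t ^ m = 1 ∧
      y * t = g ∧ t * y = g ∧ y ∈ Subgroup.zpowers g ∧ t ∈ Subgroup.zpowers g := by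
  obtain ⟨a, m, hm, hN⟩ := Nat.exists_eq_pow_mul_and_not_dvd (orderOf_pos g).ne' ℓ hℓ.out.ne_one
  have hco : Nat.Coprime (ℓ ^ a) m :=
    Nat.Coprime.pow_left a ((Nat.Prime.coprime_iff_not_dvd hℓ.out).2 hm)
  obtain ⟨u, v, huv⟩ := Nat.isCoprime_iff_coprime.2 hco
  have hgN : g ^ ((ℓ ^ a * m : ℕ) : ℤ) = 1 := by
    rw [zpow_natCast, ← hN, pow_orderOf_eq_one]
  have hy : (g ^ (v * m)) ^ ℓ ^ a = 1 := by
    rw [← zpow_natCast, ← zpow_mul]
    have : v * (m : ℤ) * ((ℓ ^ a : ℕ) : ℤ) = ((ℓ ^ a * m : ℕ) : ℤ) * v := by push_cast; ring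
    rw [this, zpow_mul, hgN, one_zpow]
  have ht : (g ^ (u * (ℓ ^ a : ℕ))) ^ m = 1 := by
    rw [← zpow_natCast, ← zpow_mul]
    have : u * ((ℓ ^ a : ℕ) : ℤ) * (m : ℤ) = ((ℓ ^ a * m : ℕ) : ℤ) * u := by push_cast; ring
    rw [this, zpow_mul, hgN, one_zpow]
  have h1 : g ^ (v * m) * g ^ (u * (ℓ ^ a : ℕ)) = g := by
    rw [← zpow_add]
    have : v * (m : ℤ) + u * ((ℓ ^ a : ℕ) : ℤ) = 1 := by
      rw [← huv]; push_cast; ring
    rw [this, zpow_one]
  have h2 : g ^ (u * (ℓ ^ a : ℕ)) * g ^ (v * m) = g := by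
    rw [← zpow_add, add_comm, zpow_add]
    exact h1
  have hy1 : g ^ (v * m) ≠ 1 := by
    intro h
    rw [h, one_mul] at h1
    rw [h1] at ht
    apply hg
    unfold Reg
    refine Nat.Coprime.coprime_dvd_left (orderOf_dvd_of_pow_eq_one ht) ?_
    exact ((Nat.Prime.coprime_iff_not_dvd hℓ.out).2 hm).symm
  obtain ⟨b, _, hb⟩ := (Nat.dvd_prime_pow hℓ.out).1 (orderOf_dvd_of_pow_eq_one hy)
  refine ⟨g ^ (v * m), g ^ (u * (ℓ ^ a : ℕ)), b, m, ?_, hb, hm, ht, h1, h2,
    ⟨_, rfl⟩, ⟨_, rfl⟩⟩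
  rcases Nat.eq_zero_or_pos b with h | h
  · rw [h, pow_zero, orderOf_eq_one_iff] at hb
    exact absurd hb hy1
  · exact h

section free

variable {F : Type} [Field F] {G : Type} [Group G] [Fintype G] [DecidableEq G]

theorem dl_mul_dl (a b : G) : mulF (dl F a) (dl F b) = dl F (a * b) := by
  funext g
  rw [H75.mulF_dl_left]
  unfold dl
  by_cases h : g = a * b
  · rw [if_pos h, if_pos (by rw [h]; group)]
  · rw [if_neg h, if_neg]
    intro h'
    exact h (by rw [← h']; group)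

theorem mulF_dl_one (a : G → F) : mulF a (dl F (1 : G)) = a := by
  rw [← H20.mulF_comm_of_cl dl_cl, dl_one_mulF]

theorem Km_dl_pow (z w : G) (k : ℕ) :
    (Km (dl F z) (dl F w)) ^ k = Km (dl F (z ^ k)) (dl F (w ^ k)) := by
  induction k with
  | zero => rw [pow_zero, pow_zero, pow_zero, Km_one]
  | succ k ih => rw [pow_succ, ih, Km_mul, dl_mul_dl, dl_mul_dl, ← pow_succ, ← pow_succ']

/-- a function invariant under the left multiplication by `y` is a sum over the orbits -/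
theorem free_left (y : G) {v : G → F} (hv : ∀ x, v (y⁻¹ * x) = v x) :
    ∃ v0 : G → F, ∀ x, v x = ∑ i ∈ Finset.range (orderOf y), v0 ((y ^ i)⁻¹ * x) := by
  classical
  let R : G → G := fun x => (((x⁻¹ : G) : G ⧸ Subgroup.zpowers y).out)⁻¹
  have hR1 : ∀ x, ∃ h ∈ Subgroup.zpowers y, R x = h * x := by
    intro x
    obtain ⟨h, hh⟩ := QuotientGroup.mk_out_eq_mul (Subgroup.zpowers y) x⁻¹
    refine ⟨(h : G)⁻¹, (Subgroup.zpowers y).inv_mem h.2, ?_⟩
    simp only [R]
    rw [hh]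
    group
  have hR2 : ∀ x, ∀ h ∈ Subgroup.zpowers y, R (h * x) = R x := by
    intro x h hh
    simp only [R]
    congr 2
    rw [QuotientGroup.eq]
    have : ((h * x)⁻¹)⁻¹ * x⁻¹ = h := by group
    rw [this]
    exact hh
  have hinv : ∀ i : ℕ, ∀ x, v ((y ^ i)⁻¹ * x) = v x := by
    intro i
    induction i with
    | zero => intro x; simp
    | succ i ih =>
      intro x
      have : (y ^ (i + 1))⁻¹ * x = (y ^ i)⁻¹ * (y⁻¹ * x) := by
        rw [pow_succ']
        group
      rw [this, ih, hv]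
  refine ⟨fun x => if R x = x then v x else 0, fun x => ?_⟩
  obtain ⟨h, hh, hRx⟩ := hR1 x
  obtain ⟨i, hi, hyi⟩ : ∃ i < orderOf y, y ^ i = h⁻¹ := by
    have h1 : h⁻¹ ∈ Subgroup.zpowers y := (Subgroup.zpowers y).inv_mem hh
    rw [mem_zpowers_iff_mem_range_orderOf, Finset.mem_image] at h1
    obtain ⟨i, hi, hi2⟩ := h1
    exact ⟨i, Finset.mem_range.1 hi, hi2⟩
  rw [Finset.sum_eq_single i]
  · have h1 : (y ^ i)⁻¹ * x = R x := by rw [hyi, inv_inv, hRx]
    have h2 : R ((y ^ i)⁻¹ * x) = (y ^ i)⁻¹ * x := by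
      rw [hR2 x _ ((Subgroup.zpowers y).inv_mem ⟨i, by simp⟩), h1]
    show v x = if R ((y ^ i)⁻¹ * x) = (y ^ i)⁻¹ * x then v ((y ^ i)⁻¹ * x) else 0
    rw [if_pos h2, hinv]
  · intro j hj hji
    have h1 : R ((y ^ j)⁻¹ * x) = R x :=
      hR2 x _ ((Subgroup.zpowers y).inv_mem ⟨j, by simp⟩)
    show (if R ((y ^ j)⁻¹ * x) = (y ^ j)⁻¹ * x then v ((y ^ j)⁻¹ * x) else 0) = 0
    rw [if_neg]
    intro h2
    rw [h1, hRx] at h2
    have h3 : h = (y ^ j)⁻¹ := mul_right_cancel h2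
    have h4 : y ^ i = y ^ j := by rw [hyi, h3, inv_inv]
    exact hji (pow_injOn_Iio_orderOf (Finset.mem_range.1 hj) hi h4.symm)
  · intro h1
    exact absurd (Finset.mem_range.2 hi) h1

end free

theorem chv_dl {G : Type} [Group G] [Finite G] (z : G) (χ : G → ℂ) : chv (dl ℂ z) χ = χ z := by
  unfold chv
  rw [finsum_eq_single _ z]
  · rw [dl, if_pos rfl, one_mul]
  · intro t ht
    rw [dl, if_neg ht, zero_mul]

/-- row WBO -/
theorem wbo (trb : TrbStmt) : WboStmt := by
  intro ℓ _ M hM hℓ G _ _ e he s g hs hg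
  classical
  have := Fintype.ofFinite G
  obtain ⟨k1, k2, k3⟩ := H25.idm M G e he
  generalize eh M e = E at k1 k2 k3
  obtain ⟨y, t, a, m, ha, hy, hm, htm, hyt, hty, -, -⟩ := parts hg
  -- the sum is a trace
  have hL : ∑ᶠ χ ∈ IrrE M e, χ s⁻¹ * χ g = (Km (mulF E (dl ℂ g)) (dl ℂ s⁻¹)).trace := by
    calc ∑ᶠ χ ∈ IrrE M e, χ s⁻¹ * χ g
        = ∑ᶠ χ ∈ IrrE M e, chv (mulF E (dl ℂ g)) χ * chv (dl ℂ s⁻¹) χ := by
          refine finsum_mem_congr rfl fun χ hχ => ?_
          rw [(k3 χ hχ.1 _).1 hχ.2, chv_dl, chv_dl, mul_comm]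
      _ = ∑ᶠ χ ∈ Irr G, chv (mulF E (dl ℂ g)) χ * chv (dl ℂ s⁻¹) χ := by
          apply finsum_mem_inter_support_eq
          ext χ
          constructor
          · rintro ⟨h3, h4⟩
            exact ⟨h3.1, h4⟩
          · rintro ⟨h3, h4⟩
            refine ⟨⟨h3, ?_⟩, h4⟩
            by_contra h5
            apply h4
            change chv (mulF E (dl ℂ g)) χ * chv (dl ℂ s⁻¹) χ = 0
            rw [(k3 χ h3 _).2 h5, zero_mul]
      _ = (Km (mulF E (dl ℂ g)) (dl ℂ s⁻¹)).trace := by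
          rw [KF.trc G _ _, finsum_eq_sum_of_fintype, Matrix.trace]
          refine Finset.sum_congr rfl fun x _ => ?_
          rw [finsum_eq_sum_of_fintype, Matrix.diag_apply, Km_apply]
  rw [hL]
  set P : Matrix G G ℂ := Km E (dl ℂ 1) with hP
  set U : Matrix G G ℂ := Km (dl ℂ y) (dl ℂ 1) with hU
  set V : Matrix G G ℂ := Km (dl ℂ t) (dl ℂ s⁻¹) with hV
  have hPR : ∀ i j, P i j ∈ RM M := fun i j => Km_RM (fun g => (k1 g).1) (fun g => (dl_RM 1 g).1) i j
  have hUR : ∀ i j, U i j ∈ RM M := fun i j =>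
    Km_RM (fun g => (dl_RM y g).1) (fun g => (dl_RM 1 g).1) i j
  have hVR : ∀ i j, V i j ∈ RM M := fun i j =>
    Km_RM (fun g => (dl_RM t g).1) (fun g => (dl_RM s⁻¹ g).1) i j
  have hPP : P * P = P := by
    rw [hP, Km_mul, k2.2, dl_one_mulF]
  have hUa : U ^ ℓ ^ a = 1 := by
    rw [hU, Km_dl_pow, one_pow, ← hy, pow_orderOf_eq_one, Km_one]
  have hVm : V ^ (m * orderOf s) = 1 := by
    rw [hV, Km_dl_pow, pow_mul, htm, one_pow, mul_comm m, pow_mul, inv_pow, pow_orderOf_eq_one,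
      inv_one, one_pow, Km_one]
  have hmm : ¬ ℓ ∣ m * orderOf s := by
    intro h
    rcases (Fact.out : ℓ.Prime).dvd_mul.1 h with h | h
    · exact hm h
    · exact (Nat.Prime.coprime_iff_not_dvd Fact.out).1 (Nat.Coprime.symm hs) h
  have hEy : ∀ z : G, mulF (dl ℂ z) E = mulF E (dl ℂ z) := fun z =>
    (H20.mulF_comm_of_cl k2.1 _).symm
  have hUP : U * P = P * U := by
    rw [hU, hP, Km_mul, Km_mul, hEy]
  have hVP : V * P = P * V := by
    rw [hV, hP, Km_mul, Km_mul, hEy, dl_one_mulF, mulF_dl_one]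
  have hUV : U * V = V * U := by
    rw [hU, hV, Km_mul, Km_mul]
    simp only [dl_mul_dl, hyt, hty, one_mul, mul_one]
  have hUVP : U * V * P = Km (mulF E (dl ℂ g)) (dl ℂ s⁻¹) := by
    rw [hU, hV, hP, Km_mul, Km_mul, dl_mul_dl, hyt, hEy, dl_one_mulF, mulF_dl_one]
  rw [← hUVP]
  refine trb ℓ M hℓ G P U V a (m * orderOf s) ha hmm hPR hUR hVR hPP hUa hVm hUP hVP hUV ?_
  intro v hv hUv
  have hdl : ∀ z : G, (fun g => rr M (dl ℂ z g)) = dl (FF M) z := fun z =>
    funext fun g => (dl_RM z g).2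
  have hPm : P.map (rr M) = Km e (dl (FF M) 1) := by
    have hE : (fun g => rr M (E g)) = e := funext fun g => (k1 g).2
    rw [hP, Km_map (fun g => (k1 g).1) (fun g => (dl_RM 1 g).1), hdl, hE]
  have hUm : U.map (rr M) = Km (dl (FF M) y) (dl (FF M) 1) := by
    rw [hU, Km_map (fun g => (dl_RM y g).1) (fun g => (dl_RM 1 g).1), hdl, hdl]
  have hv1 : ∀ x, v (y⁻¹ * x) = v x := by
    intro x
    rw [hUm, Km_mulVec, mulF_dl_one] at hUv
    have := congrFun hUv x
    rwa [H75.mulF_dl_left] at this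
  obtain ⟨v0, hv0⟩ := free_left y hv1
  rw [hy] at hv0
  have hPPm : P.map (rr M) * P.map (rr M) = P.map (rr M) := by
    rw [← map_rr_mul hPR hPR, hPP]
  have hUPm : Commute (U.map (rr M)) (P.map (rr M)) := by
    show _ * _ = _ * _
    rw [← map_rr_mul hPR hUR, ← map_rr_mul hUR hPR, hUP]
  have hsum : v = ∑ i ∈ Finset.range (ℓ ^ a), ((U.map (rr M)) ^ i).mulVec v0 := by
    funext x
    rw [hv0 x, Finset.sum_apply]
    refine Finset.sum_congr rfl fun i _ => ?_
    rw [hUm, Km_dl_pow, one_pow, Km_mulVec, mulF_dl_one, H75.mulF_dl_left]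
  refine ⟨(P.map (rr M)).mulVec v0, by rw [Matrix.mulVec_mulVec, hPPm], ?_⟩
  have h5 : ∀ j, ((U.map (rr M)) ^ j).mulVec ((P.map (rr M)).mulVec v0) =
      (P.map (rr M)).mulVec (((U.map (rr M)) ^ j).mulVec v0) := by
    intro j
    rw [Matrix.mulVec_mulVec, Matrix.mulVec_mulVec, (hUPm.pow_left j).eq]
  rw [Finset.sum_congr rfl fun j _ => h5 j, ← Matrix.mulVec_sum, ← hsum, hv]

end Pool.Agent.PP.K9.H82W
end
end -- Pool.Agent.Helper82_K9.WBO
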