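import Pool.Agent.Helper12_AWB.B061
import Pool.Agent.Helper12_AWB.B098
import Pool.Agent.Helper12_AWB.B134

/-!
# Merged copies (generated) of the modules

* `Pool.Agent.Helper25_K9.ADA`
* `Pool.Agent.Helper65_ML.Grp`
* `Pool.Agent.Helper65_K9.AZR`
-/

set_option autoImplicit false

section -- Pool.Agent.Helper25_K9.ADA

/-!
# K9, row ADA: Adams operations map virtual characters to virtual characters
-/

open scoped BigOperators

noncomputable section

namespace Pool.Agent.PP.K9.H25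

open Pool.Agent.Helper51_AWC Pool.Agent.Helper79_WRA Pool.Agent.PP Pool.Agent.PP.KF

set_option linter.unusedSectionVars false

variable {G : Type} [Group G]

theorem ipn_eq [Fintype G] (f h : G → ℂ) :
    ipn f h = (Fintype.card G : ℂ)⁻¹ * ∑ x, f x * starRingEnd ℂ (h x) := by
  unfold ipn
  rw [Nat.card_eq_fintype_card, finsum_eq_sum_of_fintype]

theorem ipn_add_left [Finite G] (f f' h : G → ℂ) : ipn (f + f') h = ipn f h + ipn f' h := by
  have := Fintype.ofFinite G
  rw [ipn_eq, ipn_eq, ipn_eq, ← mul_add, ← Finset.sum_add_distrib]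
  congr 1
  exact Finset.sum_congr rfl fun x _ => by rw [Pi.add_apply, add_mul]

theorem ipn_add_right [Finite G] (f h h' : G → ℂ) : ipn f (h + h') = ipn f h + ipn f h' := by
  have := Fintype.ofFinite G
  rw [ipn_eq, ipn_eq, ipn_eq, ← mul_add, ← Finset.sum_add_distrib]
  congr 1
  exact Finset.sum_congr rfl fun x _ => by rw [Pi.add_apply, map_add, mul_add]

theorem ipn_neg_left [Finite G] (f h : G → ℂ) : ipn (-f) h = - ipn f h := by
  have := Fintype.ofFinite G
  rw [ipn_eq, ipn_eq, ← mul_neg, ← Finset.sum_neg_distrib]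
  congr 1
  exact Finset.sum_congr rfl fun x _ => by rw [Pi.neg_apply, neg_mul]

theorem ipn_neg_right [Finite G] (f h : G → ℂ) : ipn f (-h) = - ipn f h := by
  have := Fintype.ofFinite G
  rw [ipn_eq, ipn_eq, ← mul_neg, ← Finset.sum_neg_distrib]
  congr 1
  exact Finset.sum_congr rfl fun x _ => by rw [Pi.neg_apply, map_neg, mul_neg]

theorem ipn_zero_left (h : G → ℂ) : ipn 0 h = 0 := by
  unfold ipn
  simp

theorem ipn_zero_right (f : G → ℂ) : ipn f 0 = 0 := by
  unfold ipn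
  simp

theorem ipn_irr [Finite G] {χ ψ : G → ℂ} (hχ : χ ∈ Irr G) (hψ : ψ ∈ Irr G) :
    ∃ m : ℤ, ipn χ ψ = m := by
  have := Fintype.ofFinite G
  have hc : (Fintype.card G : ℂ) ≠ 0 := by exact_mod_cast Fintype.card_ne_zero
  have h1 : ∑ x, χ x * starRingEnd ℂ (ψ x) = ∑ x, χ x * ψ x⁻¹ :=
    Finset.sum_congr rfl fun x _ => by rw [H94.irr_star hψ]
  rw [ipn_eq, h1]
  rcases irr_orth hχ hψ with h | h
  · exact ⟨0, by rw [h]; simp⟩
  · exact ⟨1, by rw [h.2, inv_mul_cancel₀ hc]; simp⟩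

theorem zi_cl {f : G → ℂ} (hf : f ∈ ZI G) : ∀ x y, f (y * x * y⁻¹) = f x := by
  unfold ZI at hf
  induction hf using AddSubgroup.closure_induction with
  | mem χ hχ => exact fun x y => irr_conj hχ x y
  | zero => exact fun x y => rfl
  | add f g _ _ hf hg => exact fun x y => by rw [Pi.add_apply, Pi.add_apply, hf, hg]
  | neg f _ hf => exact fun x y => by rw [Pi.neg_apply, Pi.neg_apply, hf]

theorem zi_one {f : G → ℂ} (hf : f ∈ ZI G) : ∃ m : ℤ, f 1 = m := by
  unfold ZI at hf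
  induction hf using AddSubgroup.closure_induction with
  | mem χ hχ =>
    obtain ⟨d, -, hd⟩ := irr_one hχ
    exact ⟨d, by rw [hd]; simp⟩
  | zero => exact ⟨0, by simp⟩
  | add f g _ _ hf hg =>
    obtain ⟨m, hm⟩ := hf
    obtain ⟨n, hn⟩ := hg
    exact ⟨m + n, by rw [Pi.add_apply, hm, hn]; push_cast; rfl⟩
  | neg f _ hf =>
    obtain ⟨m, hm⟩ := hf
    exact ⟨-m, by rw [Pi.neg_apply, hm]; push_cast; rfl⟩

theorem irr_zi_ipn [Finite G] {χ h : G → ℂ} (hχ : χ ∈ Irr G) (hh : h ∈ ZI G) :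
    ∃ m : ℤ, ipn χ h = m := by
  unfold ZI at hh
  induction hh using AddSubgroup.closure_induction with
  | mem ψ hψ => exact ipn_irr hχ hψ
  | zero => exact ⟨0, by rw [ipn_zero_right]; simp⟩
  | add f g _ _ hf hg =>
    obtain ⟨m, hm⟩ := hf
    obtain ⟨n, hn⟩ := hg
    exact ⟨m + n, by rw [ipn_add_right, hm, hn]; push_cast; rfl⟩
  | neg f _ hf =>
    obtain ⟨m, hm⟩ := hf
    exact ⟨-m, by rw [ipn_neg_right, hm]; push_cast; rfl⟩

/-- the inner product of two virtual characters is an integer -/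
theorem zi_ipn [Finite G] {f h : G → ℂ} (hf : f ∈ ZI G) (hh : h ∈ ZI G) :
    ∃ m : ℤ, ipn f h = m := by
  unfold ZI at hf
  induction hf using AddSubgroup.closure_induction with
  | mem ψ hψ => exact irr_zi_ipn hψ hh
  | zero => exact ⟨0, by rw [ipn_zero_left]; simp⟩
  | add f g _ _ hf hg =>
    obtain ⟨m, hm⟩ := hf
    obtain ⟨n, hn⟩ := hg
    exact ⟨m + n, by rw [ipn_add_left, hm, hn]; push_cast; rfl⟩
  | neg f _ hf =>
    obtain ⟨m, hm⟩ := hf
    exact ⟨-m, by rw [ipn_neg_left, hm]; push_cast; rfl⟩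

/-- a class function with integral inner products is a virtual character -/
theorem mem_zi_of [Finite G] {f : G → ℂ} (hf : ∀ x y, f (y * x * y⁻¹) = f x)
    (h : ∀ η ∈ Irr G, ∃ m : ℤ, ipn f η = m) : f ∈ ZI G := by
  classical
  have := Fintype.ofFinite G
  have := Fintype.ofFinite (Irr G)
  have hc : (Fintype.card G : ℂ) ≠ 0 := by exact_mod_cast Fintype.card_ne_zero
  choose m hm using fun χ : Irr G => h χ χ.2
  have hm' : ∀ χ : Irr G, ∑ x, f x * (χ : G → ℂ) x⁻¹ = (m χ : ℂ) * Fintype.card G := by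
    intro χ
    have h1 : ∑ x, f x * (χ : G → ℂ) x⁻¹ = ∑ x, f x * starRingEnd ℂ ((χ : G → ℂ) x) :=
      Finset.sum_congr rfl fun x _ => by rw [H94.irr_star χ.2]
    rw [h1, ← hm χ, ipn_eq]
    field_simp
  have h2 : f = ∑ χ : Irr G, (m χ : ℂ) • (χ : G → ℂ) := by
    rw [← sub_eq_zero]
    apply irr_complete'
    · intro g h
      simp only [Pi.sub_apply, Finset.sum_apply, Pi.smul_apply, hf]
      congr 1
      refine Finset.sum_congr rfl fun χ _ => ?_
      rw [irr_conj χ.2]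
    · intro ψ hψ
      simp only [Pi.sub_apply, Finset.sum_apply, Pi.smul_apply, smul_eq_mul, sub_mul,
        Finset.sum_sub_distrib, Finset.sum_mul]
      rw [hm' ⟨ψ, hψ⟩, Finset.sum_comm, Finset.sum_eq_single_of_mem ⟨ψ, hψ⟩ (Finset.mem_univ _)]
      · simp_rw [mul_assoc]
        rw [← Finset.mul_sum, irr_orth_self hψ, sub_self]
      · intro χ _ hne
        simp_rw [mul_assoc]
        rw [← Finset.mul_sum, irr_orth_ne χ.2 hψ (fun h => hne (Subtype.ext h)), mul_zero]
  rw [h2]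
  refine AddSubgroup.sum_mem _ fun χ _ => ?_
  rw [Int.cast_smul_eq_zsmul]
  exact AddSubgroup.zsmul_mem _ (AddSubgroup.subset_closure χ.2) _

theorem psi_prime (adp : AdpStmt) [Finite G] {r : ℕ} (hr : r.Prime) {f : G → ℂ} (hf : f ∈ ZI G) :
    (fun g => f (g ^ r)) ∈ ZI G := by
  unfold ZI at hf
  induction hf using AddSubgroup.closure_induction with
  | mem χ hχ =>
    refine mem_zi_of (fun x y => ?_) fun η hη => adp G r hr χ hχ η hη
    have h1 : (y * x * y⁻¹) ^ r = y * x ^ r * y⁻¹ := conj_pow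
    rw [h1, irr_conj hχ]
  | zero => exact AddSubgroup.zero_mem _
  | add f g _ _ hf hg => exact AddSubgroup.add_mem _ hf hg
  | neg f _ hf => exact AddSubgroup.neg_mem _ hf

theorem psi_all (adp : AdpStmt) [Finite G] (N : ℕ) :
    ∀ f : G → ℂ, f ∈ ZI G → (fun g => f (g ^ N)) ∈ ZI G := by
  classical
  have := Fintype.ofFinite G
  induction N using induction_on_primes with
  | zero =>
    intro f hf
    obtain ⟨m, hm⟩ := zi_one hf
    have hone : (fun _ : G => (1 : ℂ)) ∈ Irr G := by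
      have := linear_mem_Irr (1 : G →* ℂˣ)
      simpa using this
    have h1 : (fun g : G => f (g ^ 0)) = m • (fun _ : G => (1 : ℂ)) := by
      funext g
      rw [Pi.smul_apply, pow_zero, hm]
      simp
    rw [h1]
    exact AddSubgroup.zsmul_mem _ (AddSubgroup.subset_closure hone) _
  | one =>
    intro f hf
    simpa using hf
  | prime_mul p a hp ih =>
    intro f hf
    have h1 := psi_prime adp hp (ih f hf)
    simp only [← pow_mul] at h1
    exact h1

theorem ada (adp : AdpStmt) : AdaStmt := by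
  intro G _ _ N f hf h hh
  exact zi_ipn (psi_all adp N f hf) hh

end Pool.Agent.PP.K9.H25
end
end -- Pool.Agent.Helper25_K9.ADA

section -- Pool.Agent.Helper65_ML.Grp

/-!
# Group theory for the Brauer class correspondence (squad ML, row EXG)
-/

open scoped Pointwise

namespace Pool.Agent.PP.ML.H65

variable {ℓ : ℕ} [hℓ : Fact ℓ.Prime] {G : Type} [Group G] [Finite G]

/-- Sylow subgroups of a subgroup are conjugate -/
theorem syl_conj {K D E : Subgroup G} (hD : IsPGroup ℓ D) (hE : IsPGroup ℓ E) (hDK : D ≤ K)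
    (hEK : E ≤ K) (hDi : ¬ ℓ ∣ D.relIndex K) (hEi : ¬ ℓ ∣ E.relIndex K) :
    ∃ u ∈ K, ∀ e, e ∈ E ↔ u * e * u⁻¹ ∈ D := by
  have hD' : IsPGroup ℓ (D.subgroupOf K) := hD.comap_subtype
  have hE' : IsPGroup ℓ (E.subgroupOf K) := hE.comap_subtype
  obtain ⟨u, hu⟩ := MulAction.exists_smul_eq K (hE'.toSylow hEi) (hD'.toSylow hDi)
  have hmem : ∀ e : K, e ∈ E.subgroupOf K ↔ u * e * u⁻¹ ∈ D.subgroupOf K := by
    intro e
    have h1 : ((u • (hE'.toSylow hEi) : Sylow ℓ K) : Subgroup K) =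
        MulAut.conj u • (E.subgroupOf K) := rfl
    rw [hu] at h1
    have h2 : D.subgroupOf K = MulAut.conj u • (E.subgroupOf K) := h1
    rw [h2]
    have h3 : u * e * u⁻¹ = MulAut.conj u • e := rfl
    rw [h3, Subgroup.smul_mem_pointwise_smul_iff]
  refine ⟨u, u.2, fun e => ?_⟩
  constructor
  · intro he
    have := (hmem ⟨e, hEK he⟩).1 (Subgroup.mem_subgroupOf.2 he)
    exact Subgroup.mem_subgroupOf.1 this
  · intro he
    have heK : e ∈ K := by
      have h1 := K.mul_mem (K.mul_mem (K.inv_mem u.2) (hDK he)) u.2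
      have h2 : (u : G)⁻¹ * (u * e * (u : G)⁻¹) * u = e := by group
      rwa [h2] at h1
    exact (hmem ⟨e, heK⟩).2 (Subgroup.mem_subgroupOf.2 he)

/-- the normalizer step -/
theorem norm_step {K D : Subgroup G} (hD : IsPGroup ℓ D) (hDK : D ≤ K)
    (h : ¬ ℓ ∣ D.relIndex (Subgroup.normalizer (D : Set G) ⊓ K)) : ¬ ℓ ∣ D.relIndex K := by
  have hD' : IsPGroup ℓ (D.subgroupOf K) := hD.comap_subtype
  obtain ⟨n, hn⟩ := hD'.exists_card_eq
  have h1 := Sylow.card_quotient_normalizer_modEq_card_quotient hn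
  have h2 : Nat.card (K ⧸ D.subgroupOf K) = D.relIndex K := rfl
  have h3 : Nat.card (Subgroup.normalizer ((D.subgroupOf K : Subgroup K) : Set K) ⧸
      (D.subgroupOf K).comap (Subgroup.normalizer ((D.subgroupOf K : Subgroup K) : Set K)).subtype) =
      D.relIndex (Subgroup.normalizer (D : Set G) ⊓ K) := by
    have h4 : Nat.card (Subgroup.normalizer ((D.subgroupOf K : Subgroup K) : Set K) ⧸
      (D.subgroupOf K).comap (Subgroup.normalizer ((D.subgroupOf K : Subgroup K) : Set K)).subtype) =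
      (D.subgroupOf K).relIndex (Subgroup.normalizer ((D.subgroupOf K : Subgroup K) : Set K)) := rfl
    rw [h4, ← Subgroup.subgroupOf_normalizer_eq hDK, ← Subgroup.inf_subgroupOf_right (Subgroup.normalizer (D : Set G)) K,
      Subgroup.relIndex_subgroupOf inf_le_right]
  rw [h3, h2] at h1
  intro hd
  apply h
  exact (Nat.modEq_zero_iff_dvd).1 (h1.trans ((Nat.modEq_zero_iff_dvd).2 hd))

/-- central `ℓ`-elements are in the Sylow subgroups -/
theorem central_mem {K D : Subgroup G} (hD : IsPGroup ℓ D) (hDK : D ≤ K)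
    (hDi : ¬ ℓ ∣ D.relIndex K) {y : G} (hyK : y ∈ K) (hyc : ∀ d ∈ D, y * d = d * y) {a : ℕ}
    (hy : y ^ (ℓ ^ a) = 1) : y ∈ D := by
  have hZ : IsPGroup ℓ (Subgroup.zpowers y) := by
    intro ⟨w, hw⟩
    refine ⟨a, ?_⟩
    obtain ⟨m, rfl⟩ := Subgroup.mem_zpowers_iff.1 hw
    apply Subtype.ext
    show (y ^ m) ^ (ℓ ^ a) = 1
    rw [← zpow_natCast, ← zpow_mul, mul_comm, zpow_mul, zpow_natCast, hy, one_zpow]
  have hDN : D ≤ Subgroup.normalizer ((Subgroup.zpowers y : Subgroup G) : Set G) := by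
    intro d hd
    have hcomm : Commute d y := (hyc d hd).symm
    rw [Subgroup.mem_normalizer_iff]
    intro w
    constructor
    · intro hw
      obtain ⟨m, rfl⟩ := Subgroup.mem_zpowers_iff.1 hw
      have : d * y ^ m * d⁻¹ = y ^ m := by
        rw [(hcomm.zpow_right m).eq, mul_assoc, mul_inv_cancel, mul_one]
      rw [this]
      exact hw
    · intro hw
      obtain ⟨m, hm⟩ := Subgroup.mem_zpowers_iff.1 hw
      have : w = y ^ m := by
        have h1 : w = d⁻¹ * (d * w * d⁻¹) * d := by group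
        rw [h1, ← hm, ((hcomm.zpow_right m).inv_left).eq, mul_assoc, inv_mul_cancel, mul_one]
      rw [this]
      exact Subgroup.zpow_mem_zpowers y m
  have hS : IsPGroup ℓ (D ⊔ Subgroup.zpowers y : Subgroup G) :=
    hD.to_sup_of_normal_right' hZ hDN
  have hSK : D ⊔ Subgroup.zpowers y ≤ K :=
    sup_le hDK (Subgroup.zpowers_le.2 hyK)
  have h1 := Subgroup.relIndex_mul_relIndex D (D ⊔ Subgroup.zpowers y) K le_sup_left hSK
  have h2 : ¬ ℓ ∣ D.relIndex (D ⊔ Subgroup.zpowers y) := fun h => hDi (h1 ▸ h.mul_right _)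
  obtain ⟨n, hn⟩ := hS.index (D.subgroupOf (D ⊔ Subgroup.zpowers y))
  have h3 : D.relIndex (D ⊔ Subgroup.zpowers y) = ℓ ^ n := hn
  have h4 : n = 0 := by
    by_contra hne
    apply h2
    rw [h3]
    exact dvd_pow_self ℓ hne
  rw [h4, pow_zero, Subgroup.relIndex_eq_one] at h3
  exact h3 (Subgroup.mem_sup_right (Subgroup.mem_zpowers y))

/-- the conjugates of `g` in the centralizer of `D` -/
theorem conj_in {D : Subgroup G} (hD : IsPGroup ℓ D) {g y : G}
    (hg : ∀ d ∈ D, g * d = d * g)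
    (hi : ¬ ℓ ∣ D.relIndex (Subgroup.centralizer ({g} : Set G)))
    (hy : ∀ d ∈ D, y * d = d * y) (hc : IsConj g y) :
    ∃ n ∈ Subgroup.normalizer (D : Set G), n * g * n⁻¹ = y := by
  obtain ⟨h, hh⟩ := isConj_iff.1 hc
  have hcent : ∀ (a w : G), w ∈ Subgroup.centralizer ({a} : Set G) ↔ w * a = a * w := by
    intro a w
    rw [Subgroup.mem_centralizer_singleton_iff]
  obtain ⟨E, hE⟩ : ∃ E : Subgroup G, E = D.map (MulAut.conj h).toMonoidHom := ⟨_, rfl⟩
  have hEmem : ∀ w, w ∈ E ↔ h⁻¹ * w * h ∈ D := by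
    intro w
    rw [hE, Subgroup.mem_map]
    constructor
    · rintro ⟨d, hd, rfl⟩
      have : h⁻¹ * ((MulAut.conj h).toMonoidHom d) * h = d := by
        show h⁻¹ * (h * d * h⁻¹) * h = d
        group
      rwa [this]
    · intro hw
      refine ⟨_, hw, ?_⟩
      show h * (h⁻¹ * w * h) * h⁻¹ = w
      group
  have hKmap : Subgroup.centralizer ({y} : Set G) =
      (Subgroup.centralizer ({g} : Set G)).map (MulAut.conj h).toMonoidHom := by
    ext w
    rw [Subgroup.mem_map, hcent]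
    constructor
    · intro hw
      refine ⟨h⁻¹ * w * h, ?_, ?_⟩
      · rw [hcent]
        have h1 : g = h⁻¹ * y * h := by rw [← hh]; group
        rw [h1]
        calc h⁻¹ * w * h * (h⁻¹ * y * h) = h⁻¹ * (w * y) * h := by group
          _ = h⁻¹ * (y * w) * h := by rw [hw]
          _ = h⁻¹ * y * h * (h⁻¹ * w * h) := by group
      · show h * (h⁻¹ * w * h) * h⁻¹ = w
        group
    · rintro ⟨v, hv, rfl⟩
      rw [hcent] at hv
      show h * v * h⁻¹ * y = y * (h * v * h⁻¹)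
      rw [← hh]
      calc h * v * h⁻¹ * (h * g * h⁻¹) = h * (v * g) * h⁻¹ := by group
        _ = h * (g * v) * h⁻¹ := by rw [hv]
        _ = h * g * h⁻¹ * (h * v * h⁻¹) := by group
  have hEp : IsPGroup ℓ E := by
    rw [hE]
    exact hD.map _
  have hDg : D ≤ Subgroup.centralizer ({g} : Set G) := fun d hd => (hcent g d).2 (hg d hd).symm
  have hDK : D ≤ Subgroup.centralizer ({y} : Set G) := fun d hd => (hcent y d).2 (hy d hd).symm
  have hEK : E ≤ Subgroup.centralizer ({y} : Set G) := by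
    rw [hKmap, hE]
    exact Subgroup.map_mono hDg
  have hEi : E.relIndex (Subgroup.centralizer ({y} : Set G)) =
      D.relIndex (Subgroup.centralizer ({g} : Set G)) := by
    rw [hKmap, hE]
    exact Subgroup.relIndex_map_map_of_injective _ _ (MulAut.conj h).injective
  -- the cardinality gives the index of `D`
  have hcardE : Nat.card E = Nat.card D := by
    rw [hE]
    exact Subgroup.card_map_of_injective (MulAut.conj h).injective
  have hDi : D.relIndex (Subgroup.centralizer ({y} : Set G)) =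
      E.relIndex (Subgroup.centralizer ({y} : Set G)) := by
    have h1 := Subgroup.relIndex_mul_relIndex ⊥ D _ bot_le hDK
    have h2 := Subgroup.relIndex_mul_relIndex ⊥ E _ bot_le hEK
    rw [Subgroup.relIndex_bot_left] at h1 h2
    rw [hcardE, ← h1] at h2
    exact (Nat.eq_of_mul_eq_mul_left Nat.card_pos h2).symm
  obtain ⟨u, huK, hu⟩ := syl_conj hD hEp hDK hEK (by rw [hDi, hEi]; exact hi)
    (by rw [hEi]; exact hi)
  refine ⟨u * h, ?_, ?_⟩
  · rw [Subgroup.mem_normalizer_iff]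
    intro d
    have h1 := hu (h * d * h⁻¹)
    rw [hEmem] at h1
    have h2 : h⁻¹ * (h * d * h⁻¹) * h = d := by group
    have h3 : u * (h * d * h⁻¹) * u⁻¹ = u * h * d * (u * h)⁻¹ := by group
    rw [h2, h3] at h1
    exact h1
  · rw [hcent] at huK
    calc u * h * g * (u * h)⁻¹ = u * (h * g * h⁻¹) * u⁻¹ := by group
      _ = u * y * u⁻¹ := by rw [hh]
      _ = y := by rw [huK]; group

/-- a transversal -/
theorem transversal (H K : Subgroup G) (_ : H ≤ K) : ∃ R : Finset G, (∀ r ∈ R, r ∈ K) ∧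
    (∀ k ∈ K, ∃ r ∈ R, r⁻¹ * k ∈ H) ∧ (∀ r ∈ R, ∀ r' ∈ R, r⁻¹ * r' ∈ H → r = r') ∧
    R.card = H.relIndex K := by
  classical
  have := Fintype.ofFinite (K ⧸ H.subgroupOf K)
  refine ⟨Finset.univ.image fun q : K ⧸ H.subgroupOf K => ((Quotient.out q : K) : G), ?_, ?_, ?_, ?_⟩
  · intro r hr
    obtain ⟨q, -, rfl⟩ := Finset.mem_image.1 hr
    exact (Quotient.out q : K).2
  · intro k hk
    refine ⟨_, Finset.mem_image.2 ⟨((⟨k, hk⟩ : K) : K ⧸ H.subgroupOf K), Finset.mem_univ _, rfl⟩, ?_⟩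
    have h1 : (((Quotient.out ((⟨k, hk⟩ : K) : K ⧸ H.subgroupOf K) : K)) : K ⧸ H.subgroupOf K) =
        ((⟨k, hk⟩ : K) : K ⧸ H.subgroupOf K) := Quotient.out_eq' _
    rw [QuotientGroup.eq, Subgroup.mem_subgroupOf] at h1
    exact h1
  · intro r hr r' hr' h
    obtain ⟨q, -, rfl⟩ := Finset.mem_image.1 hr
    obtain ⟨q', -, rfl⟩ := Finset.mem_image.1 hr'
    have h1 : ((Quotient.out q : K) : K ⧸ H.subgroupOf K) =
        ((Quotient.out q' : K) : K ⧸ H.subgroupOf K) := by
      rw [QuotientGroup.eq, Subgroup.mem_subgroupOf]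
      exact h
    have h2 : ((Quotient.out q : K) : K ⧸ H.subgroupOf K) = q := Quotient.out_eq' q
    have h3 : ((Quotient.out q' : K) : K ⧸ H.subgroupOf K) = q' := Quotient.out_eq' q'
    rw [h2, h3] at h1
    rw [h1]
  · rw [Finset.card_image_of_injective, Finset.card_univ, ← Nat.card_eq_fintype_card]
    · rfl
    · intro q q' h
      have h1 : (Quotient.out q : K) = Quotient.out q' := Subtype.ext h
      exact Quotient.out_inj.1 h1

/-- the two parts are powers -/
theorem powers {z s : G} (hc : Commute z s) {b m : ℕ} (hz : z ^ (ℓ ^ b) = 1) (hs : s ^ m = 1)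
    (hm : ¬ ℓ ∣ m) : ∃ k k' : ℕ, (z * s) ^ k = z ∧ (z * s) ^ k' = s := by
  have hcop : Nat.Coprime (ℓ ^ b) m :=
    Nat.Coprime.pow_left b ((Nat.Prime.coprime_iff_not_dvd hℓ.out).2 hm)
  obtain ⟨k, hk1, hk2⟩ := Nat.chineseRemainder hcop 1 0
  obtain ⟨k', hk1', hk2'⟩ := Nat.chineseRemainder hcop 0 1
  have hzp : ∀ k : ℕ, k ≡ 1 [MOD ℓ ^ b] → z ^ k = z := by
    intro k hk
    have h1 := (pow_eq_pow_iff_modEq (x := z) (n := k) (m := 1)).2
      (hk.of_dvd (orderOf_dvd_of_pow_eq_one hz))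
    rwa [pow_one] at h1
  have hz0 : ∀ k : ℕ, k ≡ 0 [MOD ℓ ^ b] → z ^ k = 1 := by
    intro k hk
    have h1 := (pow_eq_pow_iff_modEq (x := z) (n := k) (m := 0)).2
      (hk.of_dvd (orderOf_dvd_of_pow_eq_one hz))
    rwa [pow_zero] at h1
  have hsp : ∀ k : ℕ, k ≡ 1 [MOD m] → s ^ k = s := by
    intro k hk
    have h1 := (pow_eq_pow_iff_modEq (x := s) (n := k) (m := 1)).2
      (hk.of_dvd (orderOf_dvd_of_pow_eq_one hs))
    rwa [pow_one] at h1
  have hs0 : ∀ k : ℕ, k ≡ 0 [MOD m] → s ^ k = 1 := by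
    intro k hk
    have h1 := (pow_eq_pow_iff_modEq (x := s) (n := k) (m := 0)).2
      (hk.of_dvd (orderOf_dvd_of_pow_eq_one hs))
    rwa [pow_zero] at h1
  refine ⟨k, k', ?_, ?_⟩
  · rw [hc.mul_pow, hzp k hk1, hs0 k hk2, mul_one]
  · rw [hc.mul_pow, hz0 k' hk1', hsp k' hk2', one_mul]

/-- the `ℓ`-part and the `ℓ'`-part -/
theorem parts (x : G) : ∃ (y s : G) (e e' a m : ℕ), y = x ^ e ∧ s = x ^ e' ∧ y * s = x ∧
    y ^ (ℓ ^ a) = 1 ∧ s ^ m = 1 ∧ ¬ ℓ ∣ m := by
  obtain ⟨a, m, hm, hN⟩ := Nat.exists_eq_pow_mul_and_not_dvd (n := orderOf x)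
    (orderOf_pos x).ne' ℓ hℓ.out.ne_one
  have hcop : Nat.Coprime (ℓ ^ a) m :=
    Nat.Coprime.pow_left a ((Nat.Prime.coprime_iff_not_dvd hℓ.out).2 hm)
  obtain ⟨e, h1, h2⟩ := Nat.chineseRemainder hcop 1 0
  obtain ⟨e', h1', h2'⟩ := Nat.chineseRemainder hcop 0 1
  refine ⟨x ^ e, x ^ e', e, e', a, m, rfl, rfl, ?_, ?_, ?_, hm⟩
  · rw [← pow_add]
    have h3 : e + e' ≡ 1 [MOD orderOf x] := by
      rw [hN]
      refine (Nat.modEq_and_modEq_iff_modEq_mul hcop).1 ⟨?_, ?_⟩
      · exact h1.add h1'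
      · exact h2.add h2'
    have h4 := (pow_eq_pow_iff_modEq (x := x)).2 h3
    rwa [pow_one] at h4
  · rw [← pow_mul, ← orderOf_dvd_iff_pow_eq_one, hN, mul_comm]
    exact Nat.mul_dvd_mul ((Nat.modEq_zero_iff_dvd).1 h2) dvd_rfl
  · rw [← pow_mul, ← orderOf_dvd_iff_pow_eq_one, hN]
    exact Nat.mul_dvd_mul ((Nat.modEq_zero_iff_dvd).1 h1') dvd_rfl

/-- representatives of an equivalence relation on a finite set -/
theorem reps {α : Type} [Finite α] (A : Set α) (r : α → α → Prop) (hr : Equivalence r) :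
    ∃ T : Finset α, (∀ y ∈ T, y ∈ A) ∧ (∀ a ∈ A, ∃ y ∈ T, r y a) ∧
      ∀ y ∈ T, ∀ y' ∈ T, r y y' → y = y' := by
  classical
  have := Fintype.ofFinite α
  obtain ⟨f, hf⟩ : ∃ f : α → α, ∀ a, (r (f a) a) ∧ (a ∈ A → f a ∈ A) ∧
      ∀ b, r a b → (a ∈ A ↔ a ∈ A) → (∃ c ∈ A, r c a) → f a = f b := by
    let S : Setoid α := ⟨r, hr⟩
    refine ⟨fun a => if h : ∃ c ∈ A, r c a then
      (Classical.epsilon (h := ⟨a⟩) fun c => c ∈ A ∧ r c a) else a, fun a => ⟨?_, ?_, ?_⟩⟩
    · by_cases h : ∃ c ∈ A, r c a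
      · simp only [h, dif_pos]
        exact (@Classical.epsilon_spec_aux α ⟨a⟩ (fun c => c ∈ A ∧ r c a) h).2
      · simp only [h, dif_neg, not_false_iff]
        exact hr.refl a
    · intro ha
      have h : ∃ c ∈ A, r c a := ⟨a, ha, hr.refl a⟩
      simp only [h, dif_pos]
      exact (@Classical.epsilon_spec_aux α ⟨a⟩ (fun c => c ∈ A ∧ r c a) h).1
    · intro b hab _ h
      have h' : ∃ c ∈ A, r c b := by
        obtain ⟨c, hc, hca⟩ := h
        exact ⟨c, hc, hr.trans hca hab⟩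
      simp only [h, h', dif_pos]
      have : (fun c => c ∈ A ∧ r c a) = fun c => c ∈ A ∧ r c b := by
        funext c
        apply propext
        constructor
        · rintro ⟨h1, h2⟩
          exact ⟨h1, hr.trans h2 hab⟩
        · rintro ⟨h1, h2⟩
          exact ⟨h1, hr.trans h2 (hr.symm hab)⟩
      rw [this]
  refine ⟨(Finset.univ.filter fun a => a ∈ A).image f, ?_, ?_, ?_⟩
  · intro y hy
    obtain ⟨a, ha, rfl⟩ := Finset.mem_image.1 hy
    exact (hf a).2.1 (Finset.mem_filter.1 ha).2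
  · intro a ha
    exact ⟨f a, Finset.mem_image.2 ⟨a, Finset.mem_filter.2 ⟨Finset.mem_univ a, ha⟩, rfl⟩, (hf a).1⟩
  · intro y hy y' hy' h
    obtain ⟨a, ha, rfl⟩ := Finset.mem_image.1 hy
    obtain ⟨a', ha', rfl⟩ := Finset.mem_image.1 hy'
    have haA := (Finset.mem_filter.1 ha).2
    have h1 : r a a' := hr.trans (hr.symm (hf a).1) (hr.trans h (hf a').1)
    exact (hf a).2.2 a' h1 Iff.rfl ⟨a, haA, hr.refl a⟩

end Pool.Agent.PP.ML.H65
end -- Pool.Agent.Helper65_ML.Grp

section -- Pool.Agent.Helper65_K9.AZR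

/-!
# Squad K9, row AZR: `A_χ(p)` vanishes outside the block
-/

open scoped BigOperators

noncomputable section

namespace Pool.Agent.PP.K9.H65

open Pool.Agent.Helper51_AWC Pool.Agent.Helper79_WRA Pool.Agent.PP Pool.Agent.PP.KF
  Pool.Agent.PP.K9

attribute [local instance] Ideal.Quotient.field

variable {M : Ideal (integralClosure ℤ ℂ)} [M.IsMaximal]

/-- The lifted idempotent acts as the identity on the conjugates of the class functions of the
block. -/
theorem eh_act {C : Type} [Group C] [Fintype C] (b : C → FF M) {q : C → ℂ}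
    (hq : q ∈ Submodule.span ℂ (IrrE M b)) (t : C) :
    ∑ c, eh M b c * starRingEnd ℂ (q (t * c⁻¹)) = starRingEnd ℂ (q t) := by
  induction hq using Submodule.span_induction with
  | mem θ hθ =>
    have hI : θ ∈ Irr C := hθ.1
    have h1 := H50.eigen (H25.eh_cl (M := M) b) hI t⁻¹
    rw [(H25.eh_om (M := M) b hI).1 hθ, one_mul] at h1
    rw [H94.irr_star hI, ← h1]
    refine Finset.sum_congr rfl fun c _ => ?_
    rw [H94.irr_star hI]
    have e : (t * c⁻¹)⁻¹ = c * t⁻¹ := by group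
    rw [e]
  | zero => simp
  | add f g _ _ hf hg =>
    simp only [Pi.add_apply, map_add, mul_add, Finset.sum_add_distrib]
    rw [hf, hg]
  | smul a f _ hf =>
    simp only [Pi.smul_apply, smul_eq_mul, map_mul]
    rw [← hf, Finset.mul_sum]
    refine Finset.sum_congr rfl fun c _ => ?_
    ring

/-- Row AZR. -/
theorem azr (rot : RotStmt) (sm2 : Sm2Stmt) (psi : PsiStmt) : AzrStmt := by
  intro ℓ _ M _ hl G H _ _ _ _ u π hπ e he b hb heb p hp hRc w hw hw1 χ hχ hχe
  classical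
  have := Fintype.ofFinite (Cu u)
  have hℓ : ℓ.Prime := Fact.out
  -- the pull-back of `p`
  have hpull : (fun c : Cu u => p (π c)) ∈ Submodule.span ℂ (IrrE M b) := by
    have hset := (psi M (Cu u) H π hπ.sur b hb.1).1
    rw [hset] at hp
    clear hRc
    induction hp using Submodule.span_induction with
    | mem θ hθ => exact Submodule.subset_span hθ.2
    | zero => exact Submodule.zero_mem _
    | add f g _ _ hf hg => exact Submodule.add_mem _ hf hg
    | smul a f _ hf => exact Submodule.smul_mem _ a hf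
  obtain ⟨q, hq⟩ : ∃ q : Cu u → ℂ, q = fun g => if Reg ℓ g then p (π g) else 0 := ⟨_, rfl⟩
  have hqs : q ∈ Submodule.span ℂ (IrrE M b) := by
    rw [hq]
    exact (rot ℓ M hl (Cu u) b hb).1 _ hpull
  -- the value
  have hval : ∀ s : Cu u, Reg ℓ s → gbv (Cu u) (w * s) (eh M b) χ = 0 := by
    intro s hs
    have hsu : (s : G) * u = u * s := Subgroup.mem_centralizer_singleton_iff.1 s.2
    obtain ⟨j, hj⟩ := Subgroup.mem_zpowers_iff.1 hw
    have hcw : Commute w (s : G) := by
      rw [← hj]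
      exact (show Commute u (s : G) from hsu.symm).zpow_left j
    have hwℓ : w ^ (ℓ ^ 1) = 1 := by
      rw [pow_one, ← hj, ← zpow_natCast, ← zpow_mul, mul_comm, zpow_mul, zpow_natCast,
        ← hπ.ord, pow_orderOf_eq_one, one_zpow]
    have hsm : (s : G) ^ (orderOf s) = 1 := by
      have := pow_orderOf_eq_one s
      exact_mod_cast congrArg Subtype.val this
    have hmℓ : ¬ ℓ ∣ orderOf s := by
      have h1 : (orderOf s).Coprime ℓ := hs
      exact (Nat.Prime.coprime_iff_not_dvd hℓ).1 h1.symm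
    obtain ⟨k, k', hk, hk'⟩ := Pool.Agent.PP.ML.H65.powers (ℓ := ℓ) hcw hwℓ hsm hmℓ
    have hwg : w ∈ Subgroup.zpowers (w * (s : G)) := by
      have h1 : (w * (s : G)) ^ k ∈ Subgroup.zpowers (w * (s : G)) :=
        Subgroup.pow_mem _ (Subgroup.mem_zpowers _) k
      rwa [hk] at h1
    have huw : u ∈ Subgroup.zpowers w := by
      -- `⟨u⟩` has prime order
      have hcard : Nat.card (Subgroup.zpowers u) = ℓ := by
        rw [Nat.card_zpowers, hπ.ord]
      have hwle : Subgroup.zpowers w ≤ Subgroup.zpowers u := Subgroup.zpowers_le.2 hw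
      have hd := Subgroup.card_dvd_of_le hwle
      rw [hcard] at hd
      rcases (Nat.dvd_prime hℓ).1 hd with h1 | h1
      · exfalso
        apply hw1
        have h2 : Subgroup.zpowers w = ⊥ := Subgroup.card_eq_one.1 h1
        rwa [Subgroup.zpowers_eq_bot] at h2
      · have h2 : Subgroup.zpowers w = Subgroup.zpowers u :=
          Subgroup.eq_of_le_of_card_ge hwle (by rw [hcard, h1])
        rw [h2]
        exact Subgroup.mem_zpowers u
    have hug : u ∈ Subgroup.zpowers (w * (s : G)) :=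
      (Subgroup.zpowers_le.2 hwg) huw
    have hgC : w * (s : G) ∈ Cu u := by
      refine (Cu u).mul_mem ?_ s.2
      rw [Subgroup.mem_centralizer_singleton_iff, ← hj]
      exact ((Commute.refl u).zpow_left j).eq
    exact (sm2 ℓ M hl G u hπ.ord _ hgC hug b hb e he).1 heb χ hχ hχe
  -- the sum
  have hsum : ∑ s : Cu u, starRingEnd ℂ (q s) * χ (w * s) = 0 := by
    have h1 : ∀ s : Cu u, starRingEnd ℂ (q s) * χ (w * s) =
        ∑ c : Cu u, eh M b c * starRingEnd ℂ (q (s * c⁻¹)) * χ (w * s) := by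
      intro s
      rw [← Finset.sum_mul, eh_act b hqs]
    rw [Finset.sum_congr rfl fun s _ => h1 s, Finset.sum_comm]
    have h2 : ∀ c : Cu u, ∑ s : Cu u, eh M b c * starRingEnd ℂ (q (s * c⁻¹)) * χ (w * s) =
        ∑ s : Cu u, starRingEnd ℂ (q s) * (eh M b c * χ (w * s * c)) := by
      intro c
      rw [← Equiv.sum_comp (Equiv.mulRight c)
        (fun s : Cu u => eh M b c * starRingEnd ℂ (q (s * c⁻¹)) * χ (w * s))]
      refine Finset.sum_congr rfl fun s _ => ?_
      rw [Equiv.coe_mulRight, mul_inv_cancel_right, Subgroup.coe_mul, ← mul_assoc w]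
      ring
    rw [Finset.sum_congr rfl fun c _ => h2 c, Finset.sum_comm]
    refine Finset.sum_eq_zero fun s _ => ?_
    rw [← Finset.mul_sum]
    by_cases hs : Reg ℓ s
    · have h3 := hval s hs
      rw [gbv, finsum_eq_sum_of_fintype] at h3
      rw [h3, mul_zero]
    · have h3 : q s = 0 := by
        rw [hq]
        exact if_neg hs
      rw [h3, map_zero, zero_mul]
  unfold Av
  rw [finsum_eq_sum_of_fintype]
  have h4 : ∀ s : Cu u, (∑ᶠ (_ : Reg ℓ s), χ (w * s) * starRingEnd ℂ (p (π s))) =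
      starRingEnd ℂ (q s) * χ (w * s) := by
    intro s
    rw [finsum_eq_if, hq]
    by_cases hs : Reg ℓ s
    · simp only [if_pos hs]
      ring
    · simp only [if_neg hs]
      rw [map_zero, zero_mul]
  rw [Finset.sum_congr rfl fun s _ => h4 s, hsum, mul_zero]

end Pool.Agent.PP.K9.H65
end
end -- Pool.Agent.Helper65_K9.AZR
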