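import Pool.Agent.Helper12_AWB.B060
import Pool.Agent.Helper12_AWB.B137
import Pool.Agent.Helper66_ML.Stmts3

/-!
# Merged copies (generated) of the modules

* `Pool.Agent.Helper65_ML.EXG`
* `Pool.Agent.Helper66_ML.Stmts4`
* `Pool.Agent.Helper10_ML.Idq`
* `Pool.Agent.Helper65_ML.DEX`
* `Pool.Agent.Helper86_ML.EXR`
-/

set_option autoImplicit false

section -- Pool.Agent.Helper65_ML.EXG

/-!
# EXG: the class correspondence (squad ML, stage 2)
-/

open scoped BigOperators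

noncomputable section

namespace Pool.Agent.PP.ML.H65

open Pool.Agent.Helper51_AWC Pool.Agent.Helper79_WRA Pool.Agent.PP Pool.Agent.Helper98_CC
  Pool.Agent.PP.ML

variable {ℓ : ℕ} [hℓ : Fact ℓ.Prime] {M : Ideal (integralClosure ℤ ℂ)} [hM : M.IsMaximal]

theorem nat_ne (hl : (ℓ : integralClosure ℤ ℂ) ∈ M) {a : ℕ} (ha : ¬ ℓ ∣ a) :
    (a : FF M) ≠ 0 := by
  intro h0
  have h1 : ((a : integralClosure ℤ ℂ)) ∈ M := by
    rw [← Ideal.Quotient.eq_zero_iff_mem, map_natCast]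
    exact h0
  have hc : Nat.Coprime ℓ a := (Nat.Prime.coprime_iff_not_dvd hℓ.out).2 ha
  have hc' : IsCoprime (ℓ : ℤ) (a : ℤ) := Nat.isCoprime_iff_coprime.2 hc
  obtain ⟨x, y, hxy⟩ := hc'
  have : (1 : integralClosure ℤ ℂ) ∈ M := by
    have h2 : (1 : integralClosure ℤ ℂ) =
        ((x : ℤ) : integralClosure ℤ ℂ) * (ℓ : integralClosure ℤ ℂ) +
          ((y : ℤ) : integralClosure ℤ ℂ) * (a : integralClosure ℤ ℂ) := by
      have := congrArg (fun t : ℤ => (t : integralClosure ℤ ℂ)) hxy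
      push_cast at this
      rw [this]
    rw [h2]
    exact M.add_mem (M.mul_mem_left _ hl) (M.mul_mem_left _ h1)
  exact hM.ne_top ((Ideal.eq_top_iff_one M).mpr this)

theorem nat_zero (hl : (ℓ : integralClosure ℤ ℂ) ∈ M) {a : ℕ} (ha : ℓ ∣ a) :
    (a : FF M) = 0 := by
  obtain ⟨b, rfl⟩ := ha
  have h1 : ((ℓ : ℕ) : FF M) = 0 := by
    have := (Ideal.Quotient.eq_zero_iff_mem).2 hl
    rw [map_natCast] at this
    exact this
  rw [Nat.cast_mul, h1, zero_mul]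

theorem red_ne_iff {G : Type} [Group G] [Finite G] {χ : G → ℂ} (hχ : χ ∈ Irr G) (g : G) :
    (¬ Cong M (omega (MonoidHom.id G) χ g) 0) ↔ red M (omega (MonoidHom.id G) χ g) ≠ 0 := by
  have h1 := red_eq_iff (M := M) (omega_integral (MonoidHom.id G) hχ g) isIntegral_zero
  rw [red_zero] at h1
  exact (not_congr h1).symm

theorem exg (hLYO : LyoStmt) : ExgStmt := by
  intro ℓ _ M _ hl G _ _ χ hχ D hD z hzD hzc
  classical
  obtain ⟨μ, -, hμc, hμz, hμsum⟩ := hLYO ℓ M hl G χ hχ D hD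
  obtain ⟨hDp, ⟨x, hx, hDx, hix⟩, -⟩ := hD
  rw [red_ne_iff hχ] at hx
  -- the centralizer and the normalizer
  obtain ⟨C, hC⟩ : ∃ C : Subgroup G, C = Subgroup.centralizer (D : Set G) := ⟨_, rfl⟩
  obtain ⟨N, hN⟩ : ∃ N : Subgroup G, N = Subgroup.normalizer (D : Set G) := ⟨_, rfl⟩
  have hCm : ∀ w, w ∈ C ↔ ∀ d ∈ D, w * d = d * w := by
    intro w
    rw [hC, Subgroup.mem_centralizer_iff]
    exact ⟨fun h d hd => (h d hd).symm, fun h d hd => (h d hd).symm⟩
  have hNm : ∀ n, n ∈ N ↔ ∀ d, d ∈ D ↔ n * d * n⁻¹ ∈ D := by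
    intro n
    rw [hN, Subgroup.mem_normalizer_iff]
  have hcent : ∀ (a w : G), w ∈ Subgroup.centralizer ({a} : Set G) ↔ w * a = a * w := by
    intro a w
    rw [Subgroup.mem_centralizer_singleton_iff]
  have hCN : C ≤ N := by
    intro c hc
    rw [hNm]
    intro d
    rw [hCm] at hc
    constructor
    · intro hd
      rw [hc d hd, mul_assoc, mul_inv_cancel, mul_one]
      exact hd
    · intro hd
      have h1 := hc _ hd
      have h2 : d = c⁻¹ * (c * d * c⁻¹) * c := by group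
      have h3 : c⁻¹ * (c * d * c⁻¹) * c = c⁻¹ * (c * (c * d * c⁻¹)) := by
        rw [h1, mul_assoc]
      rw [h3, inv_mul_cancel_left] at h2
      rw [h2]
      exact hd
  have hDN : D ≤ N := by
    rw [hN]
    exact Subgroup.le_normalizer
  have hconjD : ∀ n ∈ N, ∀ d ∈ D, n * d * n⁻¹ ∈ D := fun n hn d hd => ((hNm n).1 hn d).1 hd
  have hconjC : ∀ n ∈ N, ∀ c ∈ C, n * c * n⁻¹ ∈ C := by
    intro n hn c hc
    rw [hCm] at hc ⊢
    intro d hd
    have h1 := hc _ (hconjD n⁻¹ (N.inv_mem hn) d hd)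
    rw [inv_inv] at h1
    calc n * c * n⁻¹ * d = n * (c * (n⁻¹ * d * n)) * n⁻¹ := by group
      _ = n * (n⁻¹ * d * n * c) * n⁻¹ := by rw [h1]
      _ = d * (n * c * n⁻¹) := by group
  -- the parts of `x`
  obtain ⟨xl, s, e, e', a, m, hxl, hs, hprod, hxla, hsm, hm⟩ := parts (ℓ := ℓ) x
  have hDx' : ∀ d ∈ D, x * d = d * x := fun d hd => ((hcent x d).1 (hDx hd)).symm
  have hxC : x ∈ C := (hCm x).2 hDx'
  have hsC : s ∈ C := by rw [hs]; exact C.pow_mem hxC _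
  have hxlC : xl ∈ C := by rw [hxl]; exact C.pow_mem hxC _
  have hxlD : xl ∈ D := by
    refine central_mem hDp hDx hix ?_ (fun d hd => (hCm xl).1 hxlC d hd) hxla
    rw [hcent, hxl]
    exact (Commute.refl x).pow_left e
  -- representatives of the `C`-classes in the `N`-class of `s`
  obtain ⟨T, hT1, hT2, hT3⟩ := reps {y : G | ∃ n ∈ N, y = n * s * n⁻¹}
    (fun y y' => ∃ c ∈ C, y' = c * y * c⁻¹) ⟨fun y => ⟨1, C.one_mem, by group⟩,
      fun {y y'} => by
        rintro ⟨c, hc, rfl⟩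
        exact ⟨c⁻¹, C.inv_mem hc, by group⟩,
      fun {y y' y''} => by
        rintro ⟨c, hc, rfl⟩ ⟨c', hc', rfl⟩
        exact ⟨c' * c, C.mul_mem hc' hc, by group⟩⟩
  have hν : ∀ y : G, ∃ n : G, y ∈ T → n ∈ N ∧ y = n * s * n⁻¹ := by
    intro y
    by_cases hy : y ∈ T
    · obtain ⟨n, hn, hn'⟩ := hT1 y hy
      exact ⟨n, fun _ => ⟨hn, hn'⟩⟩
    · exact ⟨1, fun h => absurd h hy⟩
  choose ν hν using hν
  obtain ⟨Ns, hNs⟩ : ∃ Ns : Subgroup G, Ns = N ⊓ Subgroup.centralizer ({s} : Set G) := ⟨_, rfl⟩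
  have hNsm : ∀ w, w ∈ Ns ↔ w ∈ N ∧ w * s = s * w := by
    intro w
    rw [hNs, Subgroup.mem_inf, hcent]
  have hDNs : D ≤ Ns := fun d hd => (hNsm d).2 ⟨hDN hd, ((hCm s).1 hsC d hd).symm⟩
  -- the key formula
  have key : ∀ w ∈ D, (∀ d ∈ D, w * d = d * w) →
      ¬ ℓ ∣ D.relIndex (Subgroup.centralizer ({w * s} : Set G)) →
      red M (omega (MonoidHom.id G) χ (w * s)) =
        ((N ⊓ Subgroup.centralizer ({w * s} : Set G)).relIndex Ns : FF M) * ∑ y ∈ T, μ y := by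
    intro w hwD hwc hiw
    have hwC : w ∈ C := (hCm w).2 hwc
    have hcomm : Commute w s := ((hCm s).1 hsC w hwD).symm
    obtain ⟨b, hb⟩ : ∃ b : ℕ, w ^ (ℓ ^ b) = 1 := by
      obtain ⟨b, hb⟩ := hDp ⟨w, hwD⟩
      exact ⟨b, congrArg Subtype.val hb⟩
    obtain ⟨k, k', hk, hk'⟩ := powers hcomm hb hsm hm
    obtain ⟨g, hg⟩ : ∃ g : G, g = w * s := ⟨_, rfl⟩
    rw [← hg] at hk hk' hiw ⊢
    have hgC : g ∈ C := by rw [hg]; exact C.mul_mem hwC hsC
    obtain ⟨Ng, hNg⟩ : ∃ Ng : Subgroup G, Ng = N ⊓ Subgroup.centralizer ({g} : Set G) :=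
      ⟨_, rfl⟩
    rw [← hNg]
    have hNgm : ∀ v, v ∈ Ng ↔ v ∈ N ∧ v * g = g * v := by
      intro v
      rw [hNg, Subgroup.mem_inf, hcent]
    have hgs : ∀ v : G, v * g = g * v → v * s = s * v := by
      intro v hv
      rw [← hk']
      exact ((show Commute v g from hv).pow_right k').eq
    have hNgNs : Ng ≤ Ns := by
      intro v hv
      rw [hNgm] at hv
      exact (hNsm v).2 ⟨hv.1, hgs v hv.2⟩
    obtain ⟨R, hR1, hR2, hR3, hR4⟩ := transversal Ng Ns hNgNs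
    -- the elements
    obtain ⟨F, hF⟩ : ∃ F : G × G → G, F = fun p => (ν p.1 * p.2) * g * (ν p.1 * p.2)⁻¹ := ⟨_, rfl⟩
    have huniq : ∀ p ∈ T ×ˢ R, ∀ p' ∈ T ×ˢ R, ∀ c ∈ C, c * F p * c⁻¹ = F p' → p = p' := by
      rintro ⟨y, r⟩ hp ⟨y', r'⟩ hp' c hc h
      rw [Finset.mem_product] at hp hp'
      obtain ⟨hy, hr⟩ := hp
      obtain ⟨hy', hr'⟩ := hp'
      obtain ⟨hn, hyn⟩ := hν y hy
      obtain ⟨hn', hyn'⟩ := hν y' hy'
      have hrs := (hNsm r).1 (hR1 r hr)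
      have hrs' := (hNsm r').1 (hR1 r' hr')
      rw [hF] at h
      change c * ((ν y * r) * g * (ν y * r)⁻¹) * c⁻¹ = (ν y' * r') * g * (ν y' * r')⁻¹ at h
      obtain ⟨m', hm'⟩ : ∃ m' : G, m' = (ν y' * r')⁻¹ * c * (ν y * r) := ⟨_, rfl⟩
      have hm'g : m' * g = g * m' := by
        have h1 : c * (ν y * r) * g = (ν y' * r') * g * (ν y' * r')⁻¹ * c * (ν y * r) := by
          rw [← h]; group
        calc m' * g = (ν y' * r')⁻¹ * (c * (ν y * r) * g) := by rw [hm']; group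
          _ = g * m' := by rw [h1, hm']; group
      have hm'N : m' ∈ N := by
        rw [hm']
        exact N.mul_mem (N.mul_mem (N.inv_mem (N.mul_mem hn' hrs'.1)) (hCN hc))
          (N.mul_mem hn hrs.1)
      have hm's := hgs m' hm'g
      have hm'Ng : m' ∈ Ng := (hNgm m').2 ⟨hm'N, hm'g⟩
      -- the first components agree
      have hyy : y = y' := by
        apply hT3 y hy y' hy'
        refine ⟨c, hc, ?_⟩
        have h1 : c * (ν y * r) = (ν y' * r') * m' := by rw [hm']; group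
        calc y' = ν y' * s * (ν y')⁻¹ := hyn'
          _ = (ν y' * r') * m' * s * ((ν y' * r') * m')⁻¹ := by
              have h2 : r' * m' * s = s * (r' * m') := by
                rw [mul_assoc, hm's, ← mul_assoc, hrs'.2, mul_assoc]
              calc ν y' * s * (ν y')⁻¹ = ν y' * (s * (r' * m')) * (r' * m')⁻¹ * (ν y')⁻¹ := by
                    group
                _ = ν y' * (r' * m' * s) * (r' * m')⁻¹ * (ν y')⁻¹ := by rw [h2]
                _ = _ := by group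
          _ = c * (ν y * r) * s * (c * (ν y * r))⁻¹ := by rw [h1]
          _ = c * (ν y * (r * s) * r⁻¹ * (ν y)⁻¹) * c⁻¹ := by group
          _ = c * (ν y * s * (ν y)⁻¹) * c⁻¹ := by rw [hrs.2]; group
          _ = c * y * c⁻¹ := by rw [← hyn]
      subst hyy
      obtain ⟨c', hc'⟩ : ∃ c' : G, c' = (ν y)⁻¹ * c * ν y := ⟨_, rfl⟩
      have hc'C : c' ∈ C := by
        have := hconjC (ν y)⁻¹ (N.inv_mem hn) c hc
        rw [inv_inv] at this
        rw [hc']
        exact this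
      have h3 : r' * m' = c' * r := by
        rw [hm', hc']; group
      have hc'' : r⁻¹ * c' * r ∈ C := by
        have := hconjC r⁻¹ (N.inv_mem hrs.1) c' hc'C
        rwa [inv_inv] at this
      have h4 : r⁻¹ * r' * m' = r⁻¹ * c' * r := by
        rw [mul_assoc, h3, mul_assoc]
      have h5 : r⁻¹ * r' = (r⁻¹ * c' * r) * m'⁻¹ := by
        rw [← h4]; group
      have h6 : (r⁻¹ * c' * r) ∈ Ns := by
        rw [← h4]
        exact Ns.mul_mem (Ns.mul_mem (Ns.inv_mem (hR1 r hr)) (hR1 r' hr')) (hNgNs hm'Ng)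
      have h7 : (r⁻¹ * c' * r) ∈ Ng := by
        rw [hNgm]
        refine ⟨hCN hc'', ?_⟩
        have h8 := ((hNsm _).1 h6).2
        have h9 := (hCm _).1 hc'' w hwD
        rw [hg, ← mul_assoc, h9, mul_assoc, h8, ← mul_assoc]
      have h8 : r = r' := by
        apply hR3 r hr r' hr'
        rw [h5]
        exact Ng.mul_mem h7 (Ng.inv_mem hm'Ng)
      rw [h8]
    have hinj : Set.InjOn F (T ×ˢ R : Finset (G × G)) := by
      intro p hp p' hp' h
      exact huniq p hp p' hp' 1 C.one_mem (by rw [h]; group)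
    rw [hμsum g ((T ×ˢ R).image F) ?_ ?_]
    · rw [Finset.sum_image hinj, Finset.sum_product]
      have hval : ∀ y ∈ T, ∀ r ∈ R, μ (F (y, r)) = μ y := by
        intro y hy r hr
        obtain ⟨hn, hyn⟩ := hν y hy
        have hrs := (hNsm r).1 (hR1 r hr)
        have hnr : ν y * r ∈ N := N.mul_mem hn hrs.1
        have h1 : F (y, r) = ((ν y * r) * w * (ν y * r)⁻¹) * y := by
          rw [hF]
          show (ν y * r) * g * (ν y * r)⁻¹ = ((ν y * r) * w * (ν y * r)⁻¹) * y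
          have h2 : y = (ν y * r) * s * (ν y * r)⁻¹ := by
            calc y = ν y * s * (ν y)⁻¹ := hyn
              _ = ν y * (s * r) * r⁻¹ * (ν y)⁻¹ := by group
              _ = ν y * (r * s) * r⁻¹ * (ν y)⁻¹ := by rw [hrs.2]
              _ = _ := by group
          calc (ν y * r) * g * (ν y * r)⁻¹ = ((ν y * r) * w * (ν y * r)⁻¹) *
                ((ν y * r) * s * (ν y * r)⁻¹) := by rw [hg]; group
            _ = _ := by rw [← h2]
        rw [h1]
        refine hμz y ?_ _ (hconjD _ hnr w hwD) ?_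
        · rw [← hC, hyn]
          exact hconjC _ hn s hsC
        · rw [← hC]
          exact hconjC _ hnr w hwC
      rw [Finset.mul_sum]
      refine Finset.sum_congr rfl fun y hy => ?_
      rw [Finset.sum_congr rfl fun r hr => hval y hy r hr, Finset.sum_const, nsmul_eq_mul, hR4]
    · intro v hv
      obtain ⟨⟨y, r⟩, hp, rfl⟩ := Finset.mem_image.1 hv
      rw [Finset.mem_product] at hp
      obtain ⟨hn, hyn⟩ := hν y hp.1
      have hrs := (hNsm r).1 (hR1 r hp.2)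
      rw [hF]
      refine ⟨?_, ?_⟩
      · rw [← hC]
        exact hconjC _ (N.mul_mem hn hrs.1) g hgC
      · exact isConj_iff.2 ⟨_, rfl⟩
    · intro v hv hgv
      rw [← hC] at hv ⊢
      obtain ⟨n, hn, hng⟩ := conj_in hDp ((hCm g).1 hgC) hiw ((hCm v).1 hv) hgv
      rw [← hN] at hn
      -- existence
      have hex : ∃ p ∈ T ×ˢ R, ∃ c ∈ C, v = c * F p * c⁻¹ := by
        obtain ⟨y, hy, c, hc, hyc⟩ := hT2 (n * s * n⁻¹) ⟨n, hn, rfl⟩
        obtain ⟨hny, hyn⟩ := hν y hy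
        have h1 : ((ν y)⁻¹ * c⁻¹ * n) * s = s * ((ν y)⁻¹ * c⁻¹ * n) := by
          have h2 : n * s = c * y * c⁻¹ * n := by rw [← hyc]; group
          calc ((ν y)⁻¹ * c⁻¹ * n) * s = (ν y)⁻¹ * c⁻¹ * (n * s) := by group
            _ = (ν y)⁻¹ * y * c⁻¹ * n := by rw [h2]; group
            _ = (ν y)⁻¹ * (ν y * s * (ν y)⁻¹) * c⁻¹ * n := by rw [← hyn]
            _ = _ := by group
        have h2 : ((ν y)⁻¹ * c⁻¹ * n) ∈ Ns :=
          (hNsm _).2 ⟨N.mul_mem (N.mul_mem (N.inv_mem hny) (N.inv_mem (hCN hc))) hn, h1⟩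
        obtain ⟨r, hr, hrm⟩ := hR2 _ h2
        refine ⟨(y, r), Finset.mem_product.2 ⟨hy, hr⟩, c, hc, ?_⟩
        have h3 := ((hNgm _).1 hrm).2
        have h4 : n = c * (ν y * r) * (r⁻¹ * ((ν y)⁻¹ * c⁻¹ * n)) := by group
        rw [hF]
        show v = c * ((ν y * r) * g * (ν y * r)⁻¹) * c⁻¹
        obtain ⟨q, hq⟩ : ∃ q : G, q = r⁻¹ * ((ν y)⁻¹ * c⁻¹ * n) := ⟨_, rfl⟩
        rw [← hq] at h3 h4
        calc v = n * g * n⁻¹ := hng.symm
          _ = (c * (ν y * r)) * (q * g) * q⁻¹ * (c * (ν y * r))⁻¹ := by rw [h4]; group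
          _ = _ := by rw [h3]; group
      obtain ⟨p, hp, c, hc, hv'⟩ := hex
      refine ⟨F p, ⟨Finset.mem_image.2 ⟨p, hp, rfl⟩, c, hc, hv'⟩, ?_⟩
      rintro v' ⟨hv1, c1, hc1, hv2⟩
      obtain ⟨p', hp', rfl⟩ := Finset.mem_image.1 hv1
      have h5 : p = p' := by
        refine huniq p hp p' hp' (c1⁻¹ * c) (C.mul_mem (C.inv_mem hc1) hc) ?_
        calc c1⁻¹ * c * F p * (c1⁻¹ * c)⁻¹ = c1⁻¹ * (c * F p * c⁻¹) * c1 := by group
          _ = c1⁻¹ * (c1 * F p' * c1⁻¹) * c1 := by rw [← hv', hv2]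
          _ = F p' := by group
      rw [h5]
  -- the indices
  have hidx : ∀ w ∈ D, (∀ d ∈ D, w * d = d * w) →
      D ≤ N ⊓ Subgroup.centralizer ({w * s} : Set G) ∧
      N ⊓ Subgroup.centralizer ({w * s} : Set G) ≤ Ns := by
    intro w hwD hwc
    have hcomm : Commute w s := ((hCm s).1 hsC w hwD).symm
    obtain ⟨b, hb⟩ : ∃ b : ℕ, w ^ (ℓ ^ b) = 1 := by
      obtain ⟨b, hb⟩ := hDp ⟨w, hwD⟩
      exact ⟨b, congrArg Subtype.val hb⟩
    obtain ⟨k, k', hk, hk'⟩ := powers hcomm hb hsm hm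
    constructor
    · intro d hd
      rw [Subgroup.mem_inf, hcent]
      refine ⟨hDN hd, ?_⟩
      have h1 := hwc d hd
      have h2 := (hCm s).1 hsC d hd
      rw [← mul_assoc, ← h1, mul_assoc, ← h2, ← mul_assoc]
    · intro v hv
      rw [Subgroup.mem_inf, hcent] at hv
      refine (hNsm v).2 ⟨hv.1, ?_⟩
      rw [← hk']
      exact ((show Commute v (w * s) from hv.2).pow_right k').eq
  have hxlc : ∀ d ∈ D, xl * d = d * xl := fun d hd => (hCm xl).1 hxlC d hd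
  obtain ⟨hi1, hi2⟩ := hidx xl hxlD hxlc
  rw [hprod] at hi1 hi2
  have hkx := key xl hxlD hxlc (by rw [hprod]; exact hix)
  rw [hprod] at hkx
  rw [hkx] at hx
  have hS : ∑ y ∈ T, μ y ≠ 0 := right_ne_zero_of_mul hx
  have hj : ¬ ℓ ∣ (N ⊓ Subgroup.centralizer ({x} : Set G)).relIndex Ns := fun h =>
    (left_ne_zero_of_mul hx) (nat_zero hl h)
  have hDNx : ¬ ℓ ∣ D.relIndex (N ⊓ Subgroup.centralizer ({x} : Set G)) := by
    intro h
    apply hix
    rw [← Subgroup.relIndex_mul_relIndex D _ _ hi1 inf_le_right]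
    exact h.mul_right _
  have hDNs' : ¬ ℓ ∣ D.relIndex Ns := by
    rw [← Subgroup.relIndex_mul_relIndex D _ _ hi1 hi2]
    intro h
    rcases (Nat.Prime.dvd_mul (Fact.out : ℓ.Prime)).1 h with h | h
    · exact hDNx h
    · exact hj h
  -- the element `g = z s`
  obtain ⟨hg1, hg2⟩ := hidx z hzD hzc
  have hgi : ¬ ℓ ∣ D.relIndex (N ⊓ Subgroup.centralizer ({z * s} : Set G)) := by
    intro h
    apply hDNs'
    rw [← Subgroup.relIndex_mul_relIndex D _ _ hg1 hg2]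
    exact h.mul_right _
  have hgj : ¬ ℓ ∣ (N ⊓ Subgroup.centralizer ({z * s} : Set G)).relIndex Ns := by
    intro h
    apply hDNs'
    rw [← Subgroup.relIndex_mul_relIndex D _ _ hg1 hg2]
    exact h.mul_left _
  have hDg : D ≤ Subgroup.centralizer ({z * s} : Set G) := hg1.trans inf_le_right
  have hgK : ¬ ℓ ∣ D.relIndex (Subgroup.centralizer ({z * s} : Set G)) :=
    norm_step hDp hDg (by rw [← hN]; exact hgi)
  have hcomm : Commute z s := ((hCm s).1 hsC z hzD).symm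
  obtain ⟨b, hb⟩ : ∃ b : ℕ, z ^ (ℓ ^ b) = 1 := by
    obtain ⟨b, hb⟩ := hDp ⟨z, hzD⟩
    exact ⟨b, congrArg Subtype.val hb⟩
  obtain ⟨k, k', hk, -⟩ := powers hcomm hb hsm hm
  refine ⟨z * s, k, ?_, hDg, hgK, hk⟩
  rw [red_ne_iff hχ, key z hzD hzc hgK]
  exact mul_ne_zero (nat_ne hl hgj) hS

end Pool.Agent.PP.ML.H65
end
end -- Pool.Agent.Helper65_ML.EXG

section -- Pool.Agent.Helper66_ML.Stmts4

/-!
# Squad ML, stage 2: central `O_ℓ(G)`, elements central modulo `O_ℓ(G)`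
-/

open scoped BigOperators

noncomputable section

namespace Pool.Agent.PP.ML

open Pool.Agent.Helper51_AWC Pool.Agent.Helper79_WRA Pool.Agent.PP Pool.Agent.Helper98_CC

/-- DEX: defect groups exist (min-max theorem).  Proof: let `y` be an element with
`ω_χ(y) ∉ M` such that a Sylow `ℓ`-subgroup `P` of `C(y)` is as small as possible.  Let
`ω_χ(y') ∉ M`.  Modulo `M` the product of the values at the classes of `y` and `y'` is the sum over
the classes of `h` of `a_h ω_χ(h)`, `a_h` = number of the pairs `(u, v)`, `u ∼ y`, `v ∼ y'`,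
`u v = h`.  Some `a_h ω_χ(h)` is not zero.  A Sylow subgroup `P_h` of `C(h)` acts on these pairs, and
`ℓ ∤ a_h`, so a pair is fixed: `P_h` commutes with conjugates of `y` and `y'`, hence is conjugate to
a subgroup of `P` (so to `P`, by minimality), and is in the centraliser of a conjugate of `y'`. -/
def DexStmt : Prop := ∀ (ℓ : ℕ) [Fact ℓ.Prime] (M : Ideal (integralClosure ℤ ℂ)) [M.IsMaximal],
  (ℓ : integralClosure ℤ ℂ) ∈ M → ∀ (G : Type) [Group G] [Finite G] (χ : G → ℂ), χ ∈ Irr G →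
  ∃ D : Subgroup G, IsDef ℓ M χ D

/-- EXR: the element of EXG for `z = 1` is `ℓ`-regular (the element `s` in the proof of EXG). -/
def ExrStmt : Prop := ∀ (ℓ : ℕ) [Fact ℓ.Prime] (M : Ideal (integralClosure ℤ ℂ)) [M.IsMaximal],
  (ℓ : integralClosure ℤ ℂ) ∈ M → ∀ (G : Type) [Group G] [Finite G] (χ : G → ℂ), χ ∈ Irr G →
  ∀ D : Subgroup G, IsDef ℓ M χ D →
  ∃ s : G, ¬ ℓ ∣ orderOf s ∧ ¬ Cong M (omega (MonoidHom.id G) χ s) 0 ∧
    D ≤ Subgroup.centralizer ({s} : Set G) ∧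
    ¬ ℓ ∣ D.relIndex (Subgroup.centralizer ({s} : Set G))

/-- IDQ: defect groups of a block of `A / Z`, `Z` a central `ℓ`-subgroup.  Proof:
`ω_(ψ p)(y) = n_y ω_ψ(p y)`, `n_y` the number of the `z ∈ Z` with `z y ∼ y`, a power of `ℓ`.
(1) `x` as in `IsDef` for `χ`: `ω_χ(x) ∉ M`, so `n_x = 1`, `ω_ψ(p x) ∉ M`, `C(p x) = p(C(x))`,
`Z ≤ D`.  (2) if `ȳ` is `ℓ`-regular and `ω_ψ(ȳ) ∉ M`: `ȳ = p y`, `y` `ℓ`-regular, `n_y = 1`, so
`ω_χ(y) ∉ M` and a conjugate of `D` commutes with `y`.  (3) let `D'` be a defect group of `ψ` (DEX),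
`s` as in EXR for `D'`: by (2) a conjugate of `p D` is in `C(s)`, so conjugate to a subgroup of `D'`.
So for every `y` with `ω_ψ(y) ∉ M` a conjugate of `p D` commutes with `y`. -/
def IdqStmt : Prop := ∀ (ℓ : ℕ) [Fact ℓ.Prime] (M : Ideal (integralClosure ℤ ℂ)) [M.IsMaximal],
  (ℓ : integralClosure ℤ ℂ) ∈ M → ∀ (A B : Type) [Group A] [Finite A] [Group B] [Finite B]
  (p : A →* B), Function.Surjective p → IsPGroup ℓ p.ker → p.ker ≤ Subgroup.center A →
  ∀ χ ∈ Irr A, ∀ D : Subgroup A, IsDef ℓ M χ D → ∀ ψ ∈ Irr B,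
    (∀ g : A, red M (omega (MonoidHom.id A) (fun a => ψ (p a)) g) =
      red M (omega (MonoidHom.id A) χ g)) → IsDef ℓ M ψ (D.map p)

/-- MN4: the main theorem, for elements `z` of `D` which are central modulo `O_ℓ(G)`.  Proof: as MN2
(Helper9_ML/MN2.lean: `altSum χ = |Z| ∑ altSum ψ` over blocks of `G / Z`), IDQ, MN3 for `G / Z`. -/
def Mn4Stmt : Prop := ∀ (ℓ : ℕ) [Fact ℓ.Prime] (M : Ideal (integralClosure ℤ ℂ)) [M.IsMaximal],
  (ℓ : integralClosure ℤ ℂ) ∈ M → ∀ (G : Type) [Group G] [Finite G],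
  opCore ℓ G ≤ Subgroup.center G → ∀ χ ∈ Irr G, ∀ D : Subgroup G, IsDef ℓ M χ D →
  ∀ (A : Type) [CommGroup A] (ρ : D →* A), (∀ r : D, (r : G) ∈ opCore ℓ G → ρ r = 1) →
  ∀ z : D, (∀ d : D, (z * d * (z : G)⁻¹ * (d : G)⁻¹ : G) ∈ opCore ℓ G) →
    ((orderOf (ρ z) * Nat.card (opCore ℓ G) : ℕ) : ℤ) ∣ altSum ℓ M χ

end Pool.Agent.PP.ML
end
end -- Pool.Agent.Helper66_ML.Stmts4

section -- Pool.Agent.Helper10_ML.Idq

/-!
# Squad ML, stage 2, row IDQ: defect groups of a block of `A / Z`, `Z` a central `ℓ`-subgroup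
-/

open scoped BigOperators

set_option linter.unusedSectionVars false

noncomputable section

namespace Pool.Agent.PP.ML.H10D

open Pool.Agent.Helper51_AWC Pool.Agent.Helper79_WRA Pool.Agent.PP Pool.Agent.Helper98_CC

section grp

variable {A B : Type} [Group A] [Group B] [Finite A] [Finite B]

theorem conj_mul_central {x v u : A} (hu : u ∈ Subgroup.center A) (h : IsConj x (x * v)) :
    IsConj (x * u) (x * v * u) := by
  obtain ⟨w, hw⟩ := isConj_iff.1 h
  refine isConj_iff.2 ⟨w, ?_⟩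
  have hc : ∀ g, g * u = u * g := fun g => Subgroup.mem_center_iff.1 hu g
  calc w * (x * u) * w⁻¹ = w * x * (u * w⁻¹) := by group
    _ = w * x * (w⁻¹ * u) := by rw [hc]
    _ = w * x * w⁻¹ * u := by group
    _ = x * v * u := by rw [hw]

/-- the elements `u` of the kernel with `x ∼ x u` -/
def stZ (p : A →* B) (hc : p.ker ≤ Subgroup.center A) (x : A) : Subgroup A where
  carrier := {u | u ∈ p.ker ∧ IsConj x (x * u)}
  one_mem' := ⟨one_mem _, by rw [mul_one]⟩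
  mul_mem' := by
    rintro u v ⟨hu, hu'⟩ ⟨hv, hv'⟩
    refine ⟨mul_mem hu hv, ?_⟩
    have h := hv'.trans (conj_mul_central (hc hv) hu')
    rw [mul_assoc] at h
    exact h
  inv_mem' := by
    rintro u ⟨hu, hu'⟩
    refine ⟨inv_mem hu, ?_⟩
    have h := conj_mul_central (hc (inv_mem hu)) hu'
    rw [mul_inv_cancel_right] at h
    exact h.symm

theorem mem_stZ {p : A →* B} {hc : p.ker ≤ Subgroup.center A} {x u : A} :
    u ∈ stZ p hc x ↔ u ∈ p.ker ∧ IsConj x (x * u) := Iff.rfl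

open Classical in
theorem sum_fib (p : A →* B) (hp : Function.Surjective p) (hc : p.ker ≤ Subgroup.center A)
    [Fintype A] [Fintype B] (x : A) (ψ : B → ℂ) :
    ∑ h ∈ Finset.univ.filter (fun h : A => IsConj x h), ψ (p h) =
      (Nat.card (stZ p hc x) : ℂ) *
        ∑ h ∈ Finset.univ.filter (fun h : B => IsConj (p x) h), ψ h := by
  have hlift : ∀ h' : B, IsConj (p x) h' → ∃ h : A, IsConj x h ∧ p h = h' := by
    intro h' hh
    obtain ⟨b, rfl⟩ := isConj_iff.1 hh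
    obtain ⟨a, rfl⟩ := hp b
    exact ⟨a * x * a⁻¹, isConj_iff.2 ⟨a, rfl⟩, by rw [map_mul, map_mul, map_inv]⟩
  choose! r hr1 hr2 using hlift
  have hcard : Nat.card (stZ p hc x) =
      (Finset.univ.filter (fun u : A => u ∈ stZ p hc x)).card := by
    rw [Nat.card_eq_fintype_card, Fintype.card_subtype]
  rw [hcard, Finset.mul_sum]
  have e1 : ∀ h ∈ Finset.univ.filter (fun h : B => IsConj (p x) h),
      (((Finset.univ.filter (fun u : A => u ∈ stZ p hc x)).card : ℕ) : ℂ) * ψ h =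
        ∑ _u ∈ Finset.univ.filter (fun u : A => u ∈ stZ p hc x), ψ h := by
    intro h _
    rw [Finset.sum_const, nsmul_eq_mul]
  rw [Finset.sum_congr rfl e1, ← Finset.sum_product']
  symm
  refine Finset.sum_bij' (fun q _ => r q.1 * q.2) (fun h _ => (p h, (r (p h))⁻¹ * h))
    ?_ ?_ ?_ ?_ ?_
  · rintro ⟨h, u⟩ hq
    rw [Finset.mem_product, Finset.mem_filter, Finset.mem_filter] at hq
    obtain ⟨⟨_, h1⟩, _, h2, h3⟩ := hq
    rw [Finset.mem_filter]
    refine ⟨Finset.mem_univ _, ?_⟩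
    change IsConj x (r h * u)
    obtain ⟨w, hw⟩ := isConj_iff.1 (hr1 h h1)
    have hcu : ∀ g, g * u = u * g := fun g => Subgroup.mem_center_iff.1 (hc h2) g
    have h4 : IsConj (x * u) (r h * u) := by
      refine isConj_iff.2 ⟨w, ?_⟩
      calc w * (x * u) * w⁻¹ = w * x * (u * w⁻¹) := by group
        _ = w * x * (w⁻¹ * u) := by rw [hcu]
        _ = w * x * w⁻¹ * u := by group
        _ = r h * u := by rw [hw]
    exact h3.trans h4
  · intro h hh
    rw [Finset.mem_filter] at hh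
    have hpc : IsConj (p x) (p h) := by
      obtain ⟨w, rfl⟩ := isConj_iff.1 hh.2
      exact isConj_iff.2 ⟨p w, by rw [map_mul, map_mul, map_inv]⟩
    rw [Finset.mem_product, Finset.mem_filter, Finset.mem_filter]
    refine ⟨⟨Finset.mem_univ _, hpc⟩, Finset.mem_univ _, ?_⟩
    change (r (p h))⁻¹ * h ∈ stZ p hc x
    have hk : (r (p h))⁻¹ * h ∈ p.ker := by
      rw [MonoidHom.mem_ker, map_mul, map_inv, hr2 _ hpc, inv_mul_cancel]
    refine ⟨hk, ?_⟩
    obtain ⟨w, hw⟩ := isConj_iff.1 (hr1 _ hpc)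
    set u := (r (p h))⁻¹ * h with hu
    have hcu : ∀ g, g * u = u * g := fun g => Subgroup.mem_center_iff.1 (hc hk) g
    have h4 : IsConj (x * u) h := by
      refine isConj_iff.2 ⟨w, ?_⟩
      calc w * (x * u) * w⁻¹ = w * x * (u * w⁻¹) := by group
        _ = w * x * (w⁻¹ * u) := by rw [hcu]
        _ = w * x * w⁻¹ * u := by group
        _ = r (p h) * u := by rw [hw]
        _ = h := by rw [hu, mul_inv_cancel_left]
    exact hh.2.trans h4.symm
  · rintro ⟨h, u⟩ hq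
    rw [Finset.mem_product, Finset.mem_filter, Finset.mem_filter] at hq
    obtain ⟨⟨_, h1⟩, _, h2, h3⟩ := hq
    have h5 : p (r h * u) = h := by
      rw [map_mul, hr2 h h1, MonoidHom.mem_ker.1 h2, mul_one]
    change (p (r h * u), (r (p (r h * u)))⁻¹ * (r h * u)) = (h, u)
    rw [h5, inv_mul_cancel_left]
  · intro h _
    change r (p h) * ((r (p h))⁻¹ * h) = h
    rw [mul_inv_cancel_left]
  · rintro ⟨h, u⟩ hq
    rw [Finset.mem_product, Finset.mem_filter, Finset.mem_filter] at hq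
    obtain ⟨⟨_, h1⟩, _, h2, h3⟩ := hq
    change ψ h = ψ (p (r h * u))
    rw [map_mul, hr2 h h1, MonoidHom.mem_ker.1 h2, mul_one]

/-- `ω_(ψ p)(x) = n_x ω_ψ(p x)` -/
theorem omega_comp (p : A →* B) (hp : Function.Surjective p) (hc : p.ker ≤ Subgroup.center A)
    (x : A) (ψ : B → ℂ) :
    omega (MonoidHom.id A) (fun a => ψ (p a)) x =
      (Nat.card (stZ p hc x) : ℂ) * omega (MonoidHom.id B) ψ (p x) := by
  classical
  have := Fintype.ofFinite A
  have := Fintype.ofFinite B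
  rw [omega_eq, omega_eq, ← Finset.sum_filter, ← Finset.sum_filter, ← mul_div_assoc]
  have h := sum_fib p hp hc x ψ
  simp only [MonoidHom.id_apply] at h ⊢
  rw [map_one, ← h]

/-- the centraliser of the image -/
theorem cent_map {p : A →* B} (hp : Function.Surjective p) {hc : p.ker ≤ Subgroup.center A} {x : A}
    (hx : stZ p hc x = ⊥) :
    Subgroup.centralizer ({p x} : Set B) = (Subgroup.centralizer ({x} : Set A)).map p := by
  apply le_antisymm
  · intro y hy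
    obtain ⟨w, rfl⟩ := hp y
    rw [Subgroup.mem_centralizer_singleton_iff] at hy
    refine ⟨w, ?_, rfl⟩
    change w ∈ Subgroup.centralizer ({x} : Set A)
    rw [Subgroup.mem_centralizer_singleton_iff]
    have h1 : w * x * w⁻¹ = x * (x⁻¹ * (w * x * w⁻¹)) := by rw [mul_inv_cancel_left]
    have h2 : x⁻¹ * (w * x * w⁻¹) ∈ p.ker := by
      rw [MonoidHom.mem_ker]
      simp only [map_mul, map_inv]
      rw [hy]
      group
    have h3 : x⁻¹ * (w * x * w⁻¹) ∈ stZ p hc x := ⟨h2, isConj_iff.2 ⟨w, h1⟩⟩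
    rw [hx, Subgroup.mem_bot] at h3
    rw [h3, mul_one] at h1
    exact mul_inv_eq_iff_eq_mul.1 h1
  · rintro _ ⟨w, hw, rfl⟩
    have hw' : w ∈ Subgroup.centralizer ({x} : Set A) := hw
    rw [Subgroup.mem_centralizer_singleton_iff] at hw' ⊢
    rw [← map_mul, hw', map_mul]

/-- `ℓ`-regular elements -/
theorem stZ_reg {ℓ : ℕ} (hℓ : ℓ.Prime) {p : A →* B} (hk : IsPGroup ℓ p.ker)
    {hc : p.ker ≤ Subgroup.center A} {y : A} (hy : ¬ ℓ ∣ orderOf y) : stZ p hc y = ⊥ := by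
  rw [eq_bot_iff]
  rintro u ⟨hu, hu'⟩
  rw [Subgroup.mem_bot]
  obtain ⟨w, hw⟩ := isConj_iff.1 hu'
  have hcomm : Commute y u := Subgroup.mem_center_iff.1 (hc hu) y
  have h1 : (y * u) ^ orderOf y = 1 := by
    rw [← hw, conj_pow, pow_orderOf_eq_one, mul_one, mul_inv_cancel]
  rw [hcomm.mul_pow, pow_orderOf_eq_one, one_mul] at h1
  obtain ⟨n, hn⟩ := hk ⟨u, hu⟩
  have hn' : u ^ ℓ ^ n = 1 := congrArg Subtype.val hn
  have h2 : orderOf u ∣ orderOf y := orderOf_dvd_of_pow_eq_one h1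
  have h3 : orderOf u ∣ ℓ ^ n := orderOf_dvd_of_pow_eq_one hn'
  have h4 : Nat.Coprime (orderOf y) (ℓ ^ n) :=
    Nat.Coprime.pow_right n ((Nat.Prime.coprime_iff_not_dvd hℓ).2 hy).symm
  have h5 : orderOf u = 1 := Nat.dvd_one.1 (h4 ▸ Nat.dvd_gcd h2 h3)
  exact orderOf_eq_one_iff.1 h5

/-- `ℓ`-regular elements can be lifted -/
theorem lift_reg {ℓ : ℕ} (hℓ : ℓ.Prime) {p : A →* B} (hp : Function.Surjective p)
    {s : B} (hs : ¬ ℓ ∣ orderOf s) : ∃ y : A, ¬ ℓ ∣ orderOf y ∧ p y = s := by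
  obtain ⟨y₀, hy₀⟩ := hp s
  have hpos : orderOf y₀ ≠ 0 := (orderOf_pos y₀).ne'
  obtain ⟨a, m, hm, ham⟩ := Nat.exists_eq_pow_mul_and_not_dvd hpos ℓ hℓ.ne_one
  have hcop : Nat.Coprime (ℓ ^ a) (orderOf s) :=
    Nat.Coprime.pow_left a ((Nat.Prime.coprime_iff_not_dvd hℓ).2 hs)
  obtain ⟨t, ht⟩ := exists_pow_eq_self_of_coprime hcop
  refine ⟨(y₀ ^ ℓ ^ a) ^ t, ?_, ?_⟩
  · intro h
    apply hm
    refine h.trans (orderOf_dvd_of_pow_eq_one ?_)
    rw [← pow_mul, ← pow_mul, mul_comm t m, ← mul_assoc, pow_mul, ← ham, pow_orderOf_eq_one,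
      one_pow]
  · rw [map_pow, map_pow, hy₀, ht]

theorem conj_into {G : Type} [Group G] [Finite G] {ℓ : ℕ} [Fact ℓ.Prime] {C P D : Subgroup G}
    (hP : IsPGroup ℓ P) (hPC : P ≤ C) (hD : IsPGroup ℓ D) (hi : ¬ ℓ ∣ D.relIndex C) :
    ∃ c ∈ C, ∀ x ∈ P, c * x * c⁻¹ ∈ D := by
  have hD' : IsPGroup ℓ (D.subgroupOf C) := hD.comap_subtype
  let S : Sylow ℓ C := hD'.toSylow hi
  have hP' : IsPGroup ℓ (P.subgroupOf C) := hP.comap_subtype
  obtain ⟨Q, hQ⟩ := hP'.exists_le_sylow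
  obtain ⟨g, hg⟩ := MulAction.exists_smul_eq C Q S
  refine ⟨g, g.2, fun x hx => ?_⟩
  have h1 : (⟨x, hPC hx⟩ : C) ∈ (Q : Subgroup C) := hQ (Subgroup.mem_subgroupOf.2 hx)
  have h2 : g * (⟨x, hPC hx⟩ : C) * g⁻¹ ∈ ((g • Q : Sylow ℓ C) : Subgroup C) := ⟨_, h1, rfl⟩
  rw [hg] at h2
  have h3 : g * (⟨x, hPC hx⟩ : C) * g⁻¹ ∈ D.subgroupOf C := h2
  exact Subgroup.mem_subgroupOf.1 h3

theorem relIndex_map_dvd (p : A →* B) (D C : Subgroup A) (h : D ≤ C) :
    (D.map p).relIndex (C.map p) ∣ D.relIndex C := by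
  have h1 : (D.subgroupOf C).map (p.subgroupMap C) = (D.map p).subgroupOf (C.map p) := by
    ext ⟨y, hy⟩
    rw [Subgroup.mem_subgroupOf]
    constructor
    · rintro ⟨⟨x, hx⟩, hx1, hx2⟩
      refine ⟨x, Subgroup.mem_subgroupOf.1 hx1, ?_⟩
      exact congrArg Subtype.val hx2
    · rintro ⟨x, hx, hxy⟩
      refine ⟨⟨x, h hx⟩, Subgroup.mem_subgroupOf.2 hx, ?_⟩
      exact Subtype.ext hxy
  rw [Subgroup.relIndex, Subgroup.relIndex, ← h1]
  exact Subgroup.index_map_dvd _ (p.subgroupMap_surjective C)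

end grp

/-- if `ω_χ(x) ∉ M` then `n_x = 1` and `ω_(ψ p)(x) = ω_ψ(p x)` -/
theorem stZ_bot {ℓ : ℕ} [Fact ℓ.Prime] {M : Ideal (integralClosure ℤ ℂ)}
    (hM : (ℓ : integralClosure ℤ ℂ) ∈ M) {A B : Type} [Group A] [Finite A] [Group B] [Finite B]
    {p : A →* B} (hp : Function.Surjective p) (hk : IsPGroup ℓ p.ker)
    (hc : p.ker ≤ Subgroup.center A) {ψ : B → ℂ} (hψ : ψ ∈ Irr B) {x : A}
    (hx : ¬ Cong M (omega (MonoidHom.id A) (fun a => ψ (p a)) x) 0) :
    stZ p hc x = ⊥ := by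
  have hle : stZ p hc x ≤ p.ker := fun u hu => hu.1
  have hpg : IsPGroup ℓ (stZ p hc x) := hk.to_le hle
  obtain ⟨n, hn⟩ := IsPGroup.iff_card.1 hpg
  rcases Nat.eq_zero_or_pos n with h0 | h0
  · rw [h0, pow_zero] at hn
    exact Subgroup.card_eq_one.1 hn
  · exfalso
    apply hx
    rw [omega_comp p hp hc x ψ, hn]
    have h1 : Cong M (((ℓ ^ n : ℕ) : ℂ)) 0 := by
      refine ⟨(ℓ : integralClosure ℤ ℂ) ^ n, ?_, ?_⟩
      · obtain ⟨m, rfl⟩ := Nat.exists_eq_add_of_lt h0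
        rw [zero_add, pow_succ]
        exact M.mul_mem_left _ hM
      · push_cast
        ring
    exact h1.mul_zero_right (omega_integral _ hψ _)

theorem omega_comp_one {A B : Type} [Group A] [Finite A] [Group B] [Finite B]
    {p : A →* B} (hp : Function.Surjective p) {hc : p.ker ≤ Subgroup.center A} {ψ : B → ℂ} {x : A}
    (hx : stZ p hc x = ⊥) : omega (MonoidHom.id A) (fun a => ψ (p a)) x =
      omega (MonoidHom.id B) ψ (p x) := by
  rw [omega_comp p hp hc x ψ, hx, Subgroup.card_bot, Nat.cast_one, one_mul]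

/-- IDQ -/
theorem idq (dex : DexStmt) (exr : ExrStmt) : IdqStmt := by
  intro ℓ hℓ M hMm hM A B _ _ _ _ p hp hk hc χ hχ D hD ψ hψ hred
  obtain ⟨hDp, ⟨x, hx, hxD, hxi⟩, hD3⟩ := hD
  -- integrality
  have hint : ∀ g : A, IsIntegral ℤ (omega (MonoidHom.id A) (fun a => ψ (p a)) g) := by
    intro g
    rw [omega_comp p hp hc g ψ]
    exact (isIntegral_natCast _).mul (omega_integral _ hψ _)
  have hiff : ∀ g : A, Cong M (omega (MonoidHom.id A) (fun a => ψ (p a)) g) 0 ↔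
      Cong M (omega (MonoidHom.id A) χ g) 0 := by
    intro g
    rw [← red_eq_iff (hint g) isIntegral_zero, ← red_eq_iff (omega_integral _ hχ g)
      isIntegral_zero, hred g]
  have hx' : ¬ Cong M (omega (MonoidHom.id A) (fun a => ψ (p a)) x) 0 := fun h => hx ((hiff x).1 h)
  have hxb := stZ_bot hM hp hk hc hψ hx'
  rw [omega_comp_one hp hxb] at hx'
  refine ⟨hDp.map p, ⟨p x, hx', ?_, ?_⟩, ?_⟩
  · rw [cent_map hp hxb]
    exact Subgroup.map_mono hxD
  · rw [cent_map hp hxb]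
    exact fun h => hxi (h.trans (relIndex_map_dvd p D _ hxD))
  · -- the third property
    obtain ⟨D', hD'⟩ := dex ℓ M hM B ψ hψ
    obtain ⟨s, hs1, hs2, hs3, hs4⟩ := exr ℓ M hM B ψ hψ D' hD'
    obtain ⟨y, hy1, hy2⟩ := lift_reg (A := A) hℓ.out hp hs1
    have hyb : stZ p hc y = ⊥ := stZ_reg hℓ.out hk hy1
    have hy3 : ¬ Cong M (omega (MonoidHom.id A) χ y) 0 := by
      rw [← hiff y, omega_comp_one hp hyb, hy2]
      exact hs2
    obtain ⟨g, hg⟩ := hD3 y hy3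
    -- the conjugate of `p D` in the centraliser of `s`
    let P : Subgroup B := (D.map p).map (MulAut.conj (p g)).toMonoidHom
    have hP : IsPGroup ℓ P := (hDp.map p).map _
    have hPC : P ≤ Subgroup.centralizer ({s} : Set B) := by
      rintro _ ⟨_, ⟨d, hd, rfl⟩, rfl⟩
      rw [Subgroup.mem_centralizer_singleton_iff]
      change p g * p d * (p g)⁻¹ * s = s * (p g * p d * (p g)⁻¹)
      rw [← hy2, ← map_inv, ← map_mul, ← map_mul, ← map_mul, ← map_mul, hg d hd]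
    obtain ⟨c, _, hcD⟩ := conj_into hP hPC hD'.1 hs4
    intro y' hy'
    obtain ⟨g', hg'⟩ := hD'.2.2 y' hy'
    refine ⟨g' * c * p g, ?_⟩
    intro d hd
    have h1 : c * (p g * d * (p g)⁻¹) * c⁻¹ ∈ D' := hcD _ ⟨d, hd, rfl⟩
    have h2 := hg' _ h1
    have e : g' * c * p g * d * (g' * c * p g)⁻¹ = g' * (c * (p g * d * (p g)⁻¹) * c⁻¹) * g'⁻¹ := by
      group
    rw [e]
    exact h2

end Pool.Agent.PP.ML.H10D
end
end -- Pool.Agent.Helper10_ML.Idq

section -- Pool.Agent.Helper65_ML.DEX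

/-!
# DEX: existence of defect groups (squad ML)
-/

open scoped BigOperators

noncomputable section

namespace Pool.Agent.PP.ML.H65x

open Pool.Agent.Helper51_AWC Pool.Agent.Helper79_WRA Pool.Agent.PP Pool.Agent.Helper98_CC
  Pool.Agent.PP.ML

variable {ℓ : ℕ} [hℓ : Fact ℓ.Prime]

/-- Sylow subgroups of a centraliser as subgroups of `G`. -/
theorem exists_syl {G : Type} [Group G] [Finite G] (K : Subgroup G) :
    ∃ P : Subgroup G, IsPGroup ℓ P ∧ P ≤ K ∧ ¬ ℓ ∣ P.relIndex K := by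
  obtain ⟨S⟩ : Nonempty (Sylow ℓ K) := inferInstance
  refine ⟨(S : Subgroup K).map K.subtype, S.isPGroup'.map _, Subgroup.map_subtype_le _, ?_⟩
  have h1 : ((S : Subgroup K).map K.subtype).relIndex K = (S : Subgroup K).index := by
    unfold Subgroup.relIndex
    rw [Subgroup.subgroupOf, Subgroup.comap_map_eq_self_of_injective K.subtype_injective]
  rw [h1]
  exact S.not_dvd_index

/-- Large `ℓ`-subgroups are Sylow subgroups. -/
theorem syl_of_card {G : Type} [Group G] [Finite G] {K P E : Subgroup G} (hP : IsPGroup ℓ P)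
    (hE : IsPGroup ℓ E) (hPK : P ≤ K) (hEK : E ≤ K) (hPi : ¬ ℓ ∣ P.relIndex K)
    (hc : Nat.card P ≤ Nat.card E) : ¬ ℓ ∣ E.relIndex K := by
  intro hd
  have h1 := Subgroup.relIndex_mul_relIndex (⊥ : Subgroup G) P K bot_le hPK
  have h2 := Subgroup.relIndex_mul_relIndex (⊥ : Subgroup G) E K bot_le hEK
  rw [Subgroup.relIndex_bot_left, Subgroup.relIndex_bot_left] at h1 h2
  obtain ⟨a, ha⟩ := IsPGroup.iff_card.1 hP
  obtain ⟨b, hb⟩ := IsPGroup.iff_card.1 hE
  rw [ha] at h1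
  rw [hb] at h2
  rw [ha, hb] at hc
  have hab : a ≤ b := (Nat.pow_le_pow_iff_right hℓ.out.one_lt).1 hc
  have h3 : ℓ ^ (a + 1) ∣ ℓ ^ a * P.relIndex K := by
    rw [h1, ← h2, pow_succ]
    exact mul_dvd_mul (pow_dvd_pow ℓ hab) hd
  rw [pow_succ] at h3
  exact hPi (Nat.dvd_of_mul_dvd_mul_left (pow_pos hℓ.out.pos a) h3)

section act
variable {G : Type} [Group G]

/-- the pairs `(u, v)`, `u ∼ y`, `v ∼ y'`, `u v = h` -/
def Prs (y y' h : G) : Type := {u : G // IsConj y u ∧ IsConj y' (u⁻¹ * h)}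

/-- conjugation with the elements of a subgroup `P` of the centraliser of `h` -/
def actPrs (y y' h : G) (P : Subgroup G) (hP : ∀ c ∈ P, c * h = h * c) :
    MulAction P (Prs y y' h) where
  smul c u := ⟨c * u.1 * (c : G)⁻¹, u.2.1.trans (isConj_iff.2 ⟨c, rfl⟩), by
    refine u.2.2.trans (isConj_iff.2 ⟨c, ?_⟩)
    have h1 := hP c c.2
    have h2 : (c : G)⁻¹ * h = h * (c : G)⁻¹ := by
      rw [inv_mul_eq_iff_eq_mul, ← mul_assoc, h1, mul_assoc, mul_inv_cancel, mul_one]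
    calc (c : G) * (u.1⁻¹ * h) * (c : G)⁻¹ = c * u.1⁻¹ * (h * (c : G)⁻¹) := by group
      _ = c * u.1⁻¹ * ((c : G)⁻¹ * h) := by rw [h2]
      _ = (c * u.1 * (c : G)⁻¹)⁻¹ * h := by group⟩
  one_smul u := by
    apply Subtype.ext
    show ((1 : P) : G) * u.1 * ((1 : P) : G)⁻¹ = u.1
    simp
  mul_smul c d u := by
    apply Subtype.ext
    show ((c * d : P) : G) * u.1 * ((c * d : P) : G)⁻¹ = c * (d * u.1 * (d : G)⁻¹) * (c : G)⁻¹
    rw [Subgroup.coe_mul]
    group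

/-- a fixed point -/
theorem fixed [Finite G] {y y' h : G} {P : Subgroup G} (hPp : IsPGroup ℓ P)
    (hP : ∀ c ∈ P, c * h = h * c) (hn : ¬ ℓ ∣ Nat.card (Prs y y' h)) :
    ∃ u : G, IsConj y u ∧ IsConj y' (u⁻¹ * h) ∧ ∀ c ∈ P, c * u = u * c := by
  letI := actPrs y y' h P hP
  have : Finite (Prs y y' h) := Subtype.finite
  obtain ⟨u, hu⟩ := hPp.nonempty_fixed_point_of_prime_not_dvd_card (Prs y y' h) hn
  refine ⟨u.1, u.2.1, u.2.2, fun c hc => ?_⟩
  have h1 := congrArg Subtype.val (hu ⟨c, hc⟩)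
  have h2 : c * u.1 * c⁻¹ = u.1 := h1
  rw [mul_inv_eq_iff_eq_mul] at h2
  exact h2

theorem card_prs [Fintype G] (y y' h : G) [∀ u, Decidable (IsConj y u)]
    [∀ u, Decidable (IsConj y' u)] :
    ∑ u : G, (if IsConj y u then (1 : ℂ) else 0) * (if IsConj y' (u⁻¹ * h) then (1 : ℂ) else 0) =
      (Nat.card (Prs y y' h) : ℂ) := by
  classical
  have h1 : ∀ u : G, (if IsConj y u then (1 : ℂ) else 0) *
      (if IsConj y' (u⁻¹ * h) then (1 : ℂ) else 0) =
      if (IsConj y u ∧ IsConj y' (u⁻¹ * h)) then 1 else 0 := by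
    intro u
    by_cases h1 : IsConj y u
    · by_cases h2 : IsConj y' (u⁻¹ * h)
      · rw [if_pos h1, if_pos h2, if_pos ⟨h1, h2⟩, one_mul]
      · rw [if_neg h2, mul_zero,
          if_neg (fun hh : IsConj y u ∧ IsConj y' (u⁻¹ * h) => h2 hh.2)]
    · rw [if_neg h1, zero_mul,
        if_neg (fun hh : IsConj y u ∧ IsConj y' (u⁻¹ * h) => h1 hh.1)]
  rw [Finset.sum_congr rfl fun u _ => h1 u, Finset.sum_boole, Prs, Nat.card_eq_fintype_card,
    Fintype.card_subtype]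

theorem card_prs_conj [Finite G] (y y' h g : G) :
    Nat.card (Prs y y' (g * h * g⁻¹)) = Nat.card (Prs y y' h) := by
  refine Nat.card_congr ⟨fun u => ⟨g⁻¹ * u.1 * g, ?_, ?_⟩, fun u => ⟨g * u.1 * g⁻¹, ?_, ?_⟩, ?_, ?_⟩
  · exact u.2.1.trans (isConj_iff.2 ⟨g⁻¹, by group⟩)
  · exact u.2.2.trans (isConj_iff.2 ⟨g⁻¹, by group⟩)
  · exact u.2.1.trans (isConj_iff.2 ⟨g, by group⟩)
  · exact u.2.2.trans (isConj_iff.2 ⟨g, by group⟩)
  · intro u
    apply Subtype.ext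
    show g * (g⁻¹ * u.1 * g) * g⁻¹ = u.1
    group
  · intro u
    apply Subtype.ext
    show g⁻¹ * (g * u.1 * g⁻¹) * g = u.1
    group

end act

/-- the product of two values modulo `M` -/
theorem prod_ne {M : Ideal (integralClosure ℤ ℂ)} [hM : M.IsMaximal]
    (hl : (ℓ : integralClosure ℤ ℂ) ∈ M) {G : Type} [Group G] [Finite G] {χ : G → ℂ}
    (hχ : χ ∈ Irr G) {y y' : G} (hy : red M (omega (MonoidHom.id G) χ y) ≠ 0)
    (hy' : red M (omega (MonoidHom.id G) χ y') ≠ 0) :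
    ∃ h : G, red M (omega (MonoidHom.id G) χ h) ≠ 0 ∧ ¬ ℓ ∣ Nat.card (Prs y y' h) := by
  classical
  have := Fintype.ofFinite G
  have hint : ∀ g, IsIntegral ℤ (omega (MonoidHom.id G) χ g) := fun g =>
    omega_integral (MonoidHom.id G) hχ g
  obtain ⟨a, ha⟩ : ∃ a : G → G → ℂ, a = fun y u => if IsConj y u then (1 : ℂ) else 0 := ⟨_, rfl⟩
  have hom : ∀ y, H50.om (a y) χ = omega (MonoidHom.id G) χ y := by
    intro y
    rw [H50.om, omega_eq, ha]
    congr 1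
    refine Finset.sum_congr rfl fun t _ => ?_
    show (if IsConj y t then (1 : ℂ) else 0) * χ t = _
    rw [MonoidHom.id_apply]
    by_cases h1 : IsConj y t
    · rw [if_pos h1, if_pos h1, one_mul]
    · rw [if_neg h1, if_neg h1, zero_mul]
  have hcl : ∀ y x z, a y (z * x * z⁻¹) = a y x := by
    intro y x z
    rw [ha]
    show (if IsConj y (z * x * z⁻¹) then (1 : ℂ) else 0) = if IsConj y x then (1 : ℂ) else 0
    have h1 : IsConj x (z * x * z⁻¹) := isConj_iff.2 ⟨z, rfl⟩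
    exact if_congr ⟨fun h => h.trans h1.symm, fun h => h.trans h1⟩ rfl rfl
  have h1 := H50.om_mul (a := a y) (b := a y') (fun x z => hcl y' x z) hχ
  have h2 : (fun z => ∑ h, a y h * a y' (h⁻¹ * z)) = fun z => (Nat.card (Prs y y' z) : ℂ) := by
    funext z
    rw [ha]
    exact card_prs y y' z
  rw [h2, hom, hom, H50.om] at h1
  have hF : ∀ g h : G, (Nat.card (Prs y y' (h * g * h⁻¹)) : ℂ) = (Nat.card (Prs y y' g) : ℂ) := by
    intro g h
    rw [card_prs_conj]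
  have hFi : ∀ g : G, IsIntegral ℤ ((Nat.card (Prs y y' g) : ℂ)) := by
    intro g
    have := isIntegral_algebraMap (R := ℤ) (A := ℂ) (x := ((Nat.card (Prs y y' g) : ℕ) : ℤ))
    simpa using this
  have : Fintype (ConjClasses G) := Fintype.ofFinite _
  have h3 := H62.red_val_classes M (F := fun z => (Nat.card (Prs y y' z) : ℂ)) hF hFi hint
  rw [h1, red_mul (hint y) (hint y')] at h3
  letI := Ideal.Quotient.field M
  have h4 : red M (omega (MonoidHom.id G) χ y) * red M (omega (MonoidHom.id G) χ y') ≠ 0 :=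
    mul_ne_zero hy hy'
  rw [h3] at h4
  obtain ⟨C, -, hC⟩ := Finset.exists_ne_zero_of_sum_ne_zero h4
  refine ⟨Quotient.out C, ?_, ?_⟩
  · intro h0
    apply hC
    have h5 : labF M χ (Quotient.out C) = red M (omega (MonoidHom.id G) χ (Quotient.out C)) := rfl
    rw [h5, h0, mul_zero]
  · intro hd
    apply hC
    have h6 : red M ((Nat.card (Prs y y' (Quotient.out C)) : ℂ)) =
        ((Nat.card (Prs y y' (Quotient.out C)) : ℕ) : FF M) := by
      rw [red_of (hFi _)]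
      have h7 : (⟨(Nat.card (Prs y y' (Quotient.out C)) : ℂ), hFi _⟩ : integralClosure ℤ ℂ) =
          ((Nat.card (Prs y y' (Quotient.out C)) : ℕ) : integralClosure ℤ ℂ) := by
        apply Subtype.ext
        simp
      rw [h7, map_natCast]
    rw [h6, H65.nat_zero hl hd, zero_mul]

/-- Row DEX. -/
theorem dex : DexStmt := by
  intro ℓ _ M _ hl G _ _ χ hχ
  classical
  have hcent : ∀ (a w : G), w ∈ Subgroup.centralizer ({a} : Set G) ↔ w * a = a * w := by
    intro a w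
    rw [Subgroup.mem_centralizer_singleton_iff]
  choose P hPp hPle hPi using fun y : G =>
    exists_syl (ℓ := ℓ) (Subgroup.centralizer ({y} : Set G))
  have := Fintype.ofFinite G
  obtain ⟨S, hS⟩ : ∃ S : Finset G,
      S = Finset.univ.filter fun y => red M (omega (MonoidHom.id G) χ y) ≠ 0 := ⟨_, rfl⟩
  have hSm : ∀ y, y ∈ S ↔ red M (omega (MonoidHom.id G) χ y) ≠ 0 := by
    intro y
    rw [hS, Finset.mem_filter]
    exact ⟨fun h => h.2, fun h => ⟨Finset.mem_univ _, h⟩⟩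
  have h1S : (1 : G) ∈ S := by
    rw [hSm, omega_one Function.injective_id (irr_one_ne hχ), red_one]
    letI := Ideal.Quotient.field M
    exact one_ne_zero
  obtain ⟨y, hyS, hymin⟩ := Finset.exists_min_image S (fun y => Nat.card (P y)) ⟨1, h1S⟩
  have hy := (hSm y).1 hyS
  refine ⟨P y, hPp y, ⟨y, (H65.red_ne_iff hχ y).2 hy, hPle y, hPi y⟩, ?_⟩
  intro y' hy'
  rw [H65.red_ne_iff hχ y'] at hy'
  obtain ⟨h, hh, hn⟩ := prod_ne hl hχ hy hy'
  obtain ⟨u, hu1, hu2, hu3⟩ := fixed (hPp h) (fun c hc => (hcent h c).1 (hPle h hc)) hn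
  obtain ⟨g, hg⟩ := isConj_iff.1 hu1
  obtain ⟨g', hg'⟩ := isConj_iff.1 hu2
  -- the conjugate of `P h` in the centralizer of `y`
  obtain ⟨E, hE⟩ : ∃ E : Subgroup G, E = (P h).map (MulAut.conj g⁻¹).toMonoidHom := ⟨_, rfl⟩
  have hEm : ∀ w, w ∈ E ↔ g * w * g⁻¹ ∈ P h := by
    intro w
    rw [hE, Subgroup.mem_map]
    constructor
    · rintro ⟨d, hd, rfl⟩
      have : g * ((MulAut.conj g⁻¹).toMonoidHom d) * g⁻¹ = d := by
        show g * (g⁻¹ * d * g⁻¹⁻¹) * g⁻¹ = d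
        group
      rwa [this]
    · intro hw
      refine ⟨_, hw, ?_⟩
      show g⁻¹ * (g * w * g⁻¹) * g⁻¹⁻¹ = w
      group
  have hEp : IsPGroup ℓ E := by
    rw [hE]
    exact (hPp h).map _
  have hEle : E ≤ Subgroup.centralizer ({y} : Set G) := by
    intro w hw
    rw [hEm] at hw
    rw [hcent]
    have h1 := hu3 _ hw
    rw [← hg] at h1
    have h2 : g * w * g⁻¹ * (g * y * g⁻¹) = g * (w * y) * g⁻¹ := by group
    have h3 : g * y * g⁻¹ * (g * w * g⁻¹) = g * (y * w) * g⁻¹ := by group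
    rw [h2, h3] at h1
    exact mul_left_cancel (mul_right_cancel h1)
  have hEc : Nat.card E = Nat.card (P h) := by
    rw [hE]
    exact Nat.card_congr
      ((P h).equivMapOfInjective _ (MulAut.conj g⁻¹).injective).toEquiv.symm
  have hEi : ¬ ℓ ∣ E.relIndex (Subgroup.centralizer ({y} : Set G)) := by
    refine syl_of_card (hPp y) hEp (hPle y) hEle (hPi y) ?_
    rw [hEc]
    exact hymin h ((hSm h).2 hh)
  obtain ⟨c, hc, hc2⟩ := H65.syl_conj hEp (hPp y) hEle (hPle y) hEi (hPi y)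
  -- `P y` is conjugate into `P h`, which commutes with `u⁻¹ h`
  refine ⟨g'⁻¹ * (g * c), fun d hd => ?_⟩
  have h1 : c * d * c⁻¹ ∈ E := (hc2 d).1 hd
  rw [hEm] at h1
  have h2 : g * (c * d * c⁻¹) * g⁻¹ = (g * c) * d * (g * c)⁻¹ := by group
  rw [h2] at h1
  obtain ⟨w, hw⟩ : ∃ w : G, w = (g * c) * d * (g * c)⁻¹ := ⟨_, rfl⟩
  rw [← hw] at h1
  have h3 := hu3 w h1
  have h4 := (hcent h w).1 (hPle h h1)
  have h5 : w * (u⁻¹ * h) = (u⁻¹ * h) * w := by
    have h6 : w * u⁻¹ = u⁻¹ * w := by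
      rw [eq_inv_mul_iff_mul_eq, ← mul_assoc, ← h3, mul_assoc, mul_inv_cancel, mul_one]
    rw [← mul_assoc, h6, mul_assoc, h4, mul_assoc]
  rw [← hg'] at h5
  have h7 : g'⁻¹ * (g * c) * d * (g'⁻¹ * (g * c))⁻¹ = g'⁻¹ * w * g' := by
    rw [hw]
    group
  rw [h7]
  calc g'⁻¹ * w * g' * y' = g'⁻¹ * (w * (g' * y' * g'⁻¹)) * g' := by group
    _ = g'⁻¹ * (g' * y' * g'⁻¹ * w) * g' := by rw [h5]
    _ = y' * (g'⁻¹ * w * g') := by group

end Pool.Agent.PP.ML.H65x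
end
end -- Pool.Agent.Helper65_ML.DEX

section -- Pool.Agent.Helper86_ML.EXR

/-!
# EXR: an `ℓ`-regular element with defect group `D` (squad ML, stage 2)

Adapted from `Pool/Agent/Helper65_ML/EXG.lean` (`z = 1`).
-/

open scoped BigOperators

noncomputable section

namespace Pool.Agent.PP.ML.H86

open Pool.Agent.Helper51_AWC Pool.Agent.Helper79_WRA Pool.Agent.PP Pool.Agent.Helper98_CC
  Pool.Agent.PP.ML Pool.Agent.PP.ML.H65

theorem exr (hLYO : LyoStmt) : ExrStmt := by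
  intro ℓ _ M _ hl G _ _ χ hχ D hD
  classical
  obtain ⟨μ, -, hμc, hμz, hμsum⟩ := hLYO ℓ M hl G χ hχ D hD
  obtain ⟨hDp, ⟨x, hx, hDx, hix⟩, -⟩ := hD
  rw [red_ne_iff hχ] at hx
  -- the centralizer and the normalizer
  obtain ⟨C, hC⟩ : ∃ C : Subgroup G, C = Subgroup.centralizer (D : Set G) := ⟨_, rfl⟩
  obtain ⟨N, hN⟩ : ∃ N : Subgroup G, N = Subgroup.normalizer (D : Set G) := ⟨_, rfl⟩
  have hCm : ∀ w, w ∈ C ↔ ∀ d ∈ D, w * d = d * w := by
    intro w
    rw [hC, Subgroup.mem_centralizer_iff]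
    exact ⟨fun h d hd => (h d hd).symm, fun h d hd => (h d hd).symm⟩
  have hNm : ∀ n, n ∈ N ↔ ∀ d, d ∈ D ↔ n * d * n⁻¹ ∈ D := by
    intro n
    rw [hN, Subgroup.mem_normalizer_iff]
  have hcent : ∀ (a w : G), w ∈ Subgroup.centralizer ({a} : Set G) ↔ w * a = a * w := by
    intro a w
    rw [Subgroup.mem_centralizer_singleton_iff]
  have hCN : C ≤ N := by
    intro c hc
    rw [hNm]
    intro d
    rw [hCm] at hc
    constructor
    · intro hd
      rw [hc d hd, mul_assoc, mul_inv_cancel, mul_one]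
      exact hd
    · intro hd
      have h1 := hc _ hd
      have h2 : d = c⁻¹ * (c * d * c⁻¹) * c := by group
      have h3 : c⁻¹ * (c * d * c⁻¹) * c = c⁻¹ * (c * (c * d * c⁻¹)) := by
        rw [h1, mul_assoc]
      rw [h3, inv_mul_cancel_left] at h2
      rw [h2]
      exact hd
  have hDN : D ≤ N := by
    rw [hN]
    exact Subgroup.le_normalizer
  have hconjD : ∀ n ∈ N, ∀ d ∈ D, n * d * n⁻¹ ∈ D := fun n hn d hd => ((hNm n).1 hn d).1 hd
  have hconjC : ∀ n ∈ N, ∀ c ∈ C, n * c * n⁻¹ ∈ C := by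
    intro n hn c hc
    rw [hCm] at hc ⊢
    intro d hd
    have h1 := hc _ (hconjD n⁻¹ (N.inv_mem hn) d hd)
    rw [inv_inv] at h1
    calc n * c * n⁻¹ * d = n * (c * (n⁻¹ * d * n)) * n⁻¹ := by group
      _ = n * (n⁻¹ * d * n * c) * n⁻¹ := by rw [h1]
      _ = d * (n * c * n⁻¹) := by group
  -- the parts of `x`
  obtain ⟨xl, s, e, e', a, m, hxl, hs, hprod, hxla, hsm, hm⟩ := parts (ℓ := ℓ) x
  have hDx' : ∀ d ∈ D, x * d = d * x := fun d hd => ((hcent x d).1 (hDx hd)).symm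
  have hxC : x ∈ C := (hCm x).2 hDx'
  have hsC : s ∈ C := by rw [hs]; exact C.pow_mem hxC _
  have hxlC : xl ∈ C := by rw [hxl]; exact C.pow_mem hxC _
  have hxlD : xl ∈ D := by
    refine central_mem hDp hDx hix ?_ (fun d hd => (hCm xl).1 hxlC d hd) hxla
    rw [hcent, hxl]
    exact (Commute.refl x).pow_left e
  -- representatives of the `C`-classes in the `N`-class of `s`
  obtain ⟨T, hT1, hT2, hT3⟩ := reps {y : G | ∃ n ∈ N, y = n * s * n⁻¹}
    (fun y y' => ∃ c ∈ C, y' = c * y * c⁻¹) ⟨fun y => ⟨1, C.one_mem, by group⟩,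
      fun {y y'} => by
        rintro ⟨c, hc, rfl⟩
        exact ⟨c⁻¹, C.inv_mem hc, by group⟩,
      fun {y y' y''} => by
        rintro ⟨c, hc, rfl⟩ ⟨c', hc', rfl⟩
        exact ⟨c' * c, C.mul_mem hc' hc, by group⟩⟩
  have hν : ∀ y : G, ∃ n : G, y ∈ T → n ∈ N ∧ y = n * s * n⁻¹ := by
    intro y
    by_cases hy : y ∈ T
    · obtain ⟨n, hn, hn'⟩ := hT1 y hy
      exact ⟨n, fun _ => ⟨hn, hn'⟩⟩
    · exact ⟨1, fun h => absurd h hy⟩
  choose ν hν using hν
  obtain ⟨Ns, hNs⟩ : ∃ Ns : Subgroup G, Ns = N ⊓ Subgroup.centralizer ({s} : Set G) := ⟨_, rfl⟩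
  have hNsm : ∀ w, w ∈ Ns ↔ w ∈ N ∧ w * s = s * w := by
    intro w
    rw [hNs, Subgroup.mem_inf, hcent]
  have hDNs : D ≤ Ns := fun d hd => (hNsm d).2 ⟨hDN hd, ((hCm s).1 hsC d hd).symm⟩
  -- the key formula
  have key : ∀ w ∈ D, (∀ d ∈ D, w * d = d * w) →
      ¬ ℓ ∣ D.relIndex (Subgroup.centralizer ({w * s} : Set G)) →
      red M (omega (MonoidHom.id G) χ (w * s)) =
        ((N ⊓ Subgroup.centralizer ({w * s} : Set G)).relIndex Ns : FF M) * ∑ y ∈ T, μ y := by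
    intro w hwD hwc hiw
    have hwC : w ∈ C := (hCm w).2 hwc
    have hcomm : Commute w s := ((hCm s).1 hsC w hwD).symm
    obtain ⟨b, hb⟩ : ∃ b : ℕ, w ^ (ℓ ^ b) = 1 := by
      obtain ⟨b, hb⟩ := hDp ⟨w, hwD⟩
      exact ⟨b, congrArg Subtype.val hb⟩
    obtain ⟨k, k', hk, hk'⟩ := powers hcomm hb hsm hm
    obtain ⟨g, hg⟩ : ∃ g : G, g = w * s := ⟨_, rfl⟩
    rw [← hg] at hk hk' hiw ⊢
    have hgC : g ∈ C := by rw [hg]; exact C.mul_mem hwC hsC
    obtain ⟨Ng, hNg⟩ : ∃ Ng : Subgroup G, Ng = N ⊓ Subgroup.centralizer ({g} : Set G) :=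
      ⟨_, rfl⟩
    rw [← hNg]
    have hNgm : ∀ v, v ∈ Ng ↔ v ∈ N ∧ v * g = g * v := by
      intro v
      rw [hNg, Subgroup.mem_inf, hcent]
    have hgs : ∀ v : G, v * g = g * v → v * s = s * v := by
      intro v hv
      rw [← hk']
      exact ((show Commute v g from hv).pow_right k').eq
    have hNgNs : Ng ≤ Ns := by
      intro v hv
      rw [hNgm] at hv
      exact (hNsm v).2 ⟨hv.1, hgs v hv.2⟩
    obtain ⟨R, hR1, hR2, hR3, hR4⟩ := transversal Ng Ns hNgNs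
    -- the elements
    obtain ⟨F, hF⟩ : ∃ F : G × G → G, F = fun p => (ν p.1 * p.2) * g * (ν p.1 * p.2)⁻¹ := ⟨_, rfl⟩
    have huniq : ∀ p ∈ T ×ˢ R, ∀ p' ∈ T ×ˢ R, ∀ c ∈ C, c * F p * c⁻¹ = F p' → p = p' := by
      rintro ⟨y, r⟩ hp ⟨y', r'⟩ hp' c hc h
      rw [Finset.mem_product] at hp hp'
      obtain ⟨hy, hr⟩ := hp
      obtain ⟨hy', hr'⟩ := hp'
      obtain ⟨hn, hyn⟩ := hν y hy
      obtain ⟨hn', hyn'⟩ := hν y' hy'
      have hrs := (hNsm r).1 (hR1 r hr)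
      have hrs' := (hNsm r').1 (hR1 r' hr')
      rw [hF] at h
      change c * ((ν y * r) * g * (ν y * r)⁻¹) * c⁻¹ = (ν y' * r') * g * (ν y' * r')⁻¹ at h
      obtain ⟨m', hm'⟩ : ∃ m' : G, m' = (ν y' * r')⁻¹ * c * (ν y * r) := ⟨_, rfl⟩
      have hm'g : m' * g = g * m' := by
        have h1 : c * (ν y * r) * g = (ν y' * r') * g * (ν y' * r')⁻¹ * c * (ν y * r) := by
          rw [← h]; group
        calc m' * g = (ν y' * r')⁻¹ * (c * (ν y * r) * g) := by rw [hm']; group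
          _ = g * m' := by rw [h1, hm']; group
      have hm'N : m' ∈ N := by
        rw [hm']
        exact N.mul_mem (N.mul_mem (N.inv_mem (N.mul_mem hn' hrs'.1)) (hCN hc))
          (N.mul_mem hn hrs.1)
      have hm's := hgs m' hm'g
      have hm'Ng : m' ∈ Ng := (hNgm m').2 ⟨hm'N, hm'g⟩
      -- the first components agree
      have hyy : y = y' := by
        apply hT3 y hy y' hy'
        refine ⟨c, hc, ?_⟩
        have h1 : c * (ν y * r) = (ν y' * r') * m' := by rw [hm']; group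
        calc y' = ν y' * s * (ν y')⁻¹ := hyn'
          _ = (ν y' * r') * m' * s * ((ν y' * r') * m')⁻¹ := by
              have h2 : r' * m' * s = s * (r' * m') := by
                rw [mul_assoc, hm's, ← mul_assoc, hrs'.2, mul_assoc]
              calc ν y' * s * (ν y')⁻¹ = ν y' * (s * (r' * m')) * (r' * m')⁻¹ * (ν y')⁻¹ := by
                    group
                _ = ν y' * (r' * m' * s) * (r' * m')⁻¹ * (ν y')⁻¹ := by rw [h2]
                _ = _ := by group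
          _ = c * (ν y * r) * s * (c * (ν y * r))⁻¹ := by rw [h1]
          _ = c * (ν y * (r * s) * r⁻¹ * (ν y)⁻¹) * c⁻¹ := by group
          _ = c * (ν y * s * (ν y)⁻¹) * c⁻¹ := by rw [hrs.2]; group
          _ = c * y * c⁻¹ := by rw [← hyn]
      subst hyy
      obtain ⟨c', hc'⟩ : ∃ c' : G, c' = (ν y)⁻¹ * c * ν y := ⟨_, rfl⟩
      have hc'C : c' ∈ C := by
        have := hconjC (ν y)⁻¹ (N.inv_mem hn) c hc
        rw [inv_inv] at this
        rw [hc']
        exact this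
      have h3 : r' * m' = c' * r := by
        rw [hm', hc']; group
      have hc'' : r⁻¹ * c' * r ∈ C := by
        have := hconjC r⁻¹ (N.inv_mem hrs.1) c' hc'C
        rwa [inv_inv] at this
      have h4 : r⁻¹ * r' * m' = r⁻¹ * c' * r := by
        rw [mul_assoc, h3, mul_assoc]
      have h5 : r⁻¹ * r' = (r⁻¹ * c' * r) * m'⁻¹ := by
        rw [← h4]; group
      have h6 : (r⁻¹ * c' * r) ∈ Ns := by
        rw [← h4]
        exact Ns.mul_mem (Ns.mul_mem (Ns.inv_mem (hR1 r hr)) (hR1 r' hr')) (hNgNs hm'Ng)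
      have h7 : (r⁻¹ * c' * r) ∈ Ng := by
        rw [hNgm]
        refine ⟨hCN hc'', ?_⟩
        have h8 := ((hNsm _).1 h6).2
        have h9 := (hCm _).1 hc'' w hwD
        rw [hg, ← mul_assoc, h9, mul_assoc, h8, ← mul_assoc]
      have h8 : r = r' := by
        apply hR3 r hr r' hr'
        rw [h5]
        exact Ng.mul_mem h7 (Ng.inv_mem hm'Ng)
      rw [h8]
    have hinj : Set.InjOn F (T ×ˢ R : Finset (G × G)) := by
      intro p hp p' hp' h
      exact huniq p hp p' hp' 1 C.one_mem (by rw [h]; group)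
    rw [hμsum g ((T ×ˢ R).image F) ?_ ?_]
    · rw [Finset.sum_image hinj, Finset.sum_product]
      have hval : ∀ y ∈ T, ∀ r ∈ R, μ (F (y, r)) = μ y := by
        intro y hy r hr
        obtain ⟨hn, hyn⟩ := hν y hy
        have hrs := (hNsm r).1 (hR1 r hr)
        have hnr : ν y * r ∈ N := N.mul_mem hn hrs.1
        have h1 : F (y, r) = ((ν y * r) * w * (ν y * r)⁻¹) * y := by
          rw [hF]
          show (ν y * r) * g * (ν y * r)⁻¹ = ((ν y * r) * w * (ν y * r)⁻¹) * y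
          have h2 : y = (ν y * r) * s * (ν y * r)⁻¹ := by
            calc y = ν y * s * (ν y)⁻¹ := hyn
              _ = ν y * (s * r) * r⁻¹ * (ν y)⁻¹ := by group
              _ = ν y * (r * s) * r⁻¹ * (ν y)⁻¹ := by rw [hrs.2]
              _ = _ := by group
          calc (ν y * r) * g * (ν y * r)⁻¹ = ((ν y * r) * w * (ν y * r)⁻¹) *
                ((ν y * r) * s * (ν y * r)⁻¹) := by rw [hg]; group
            _ = _ := by rw [← h2]
        rw [h1]
        refine hμz y ?_ _ (hconjD _ hnr w hwD) ?_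
        · rw [← hC, hyn]
          exact hconjC _ hn s hsC
        · rw [← hC]
          exact hconjC _ hnr w hwC
      rw [Finset.mul_sum]
      refine Finset.sum_congr rfl fun y hy => ?_
      rw [Finset.sum_congr rfl fun r hr => hval y hy r hr, Finset.sum_const, nsmul_eq_mul, hR4]
    · intro v hv
      obtain ⟨⟨y, r⟩, hp, rfl⟩ := Finset.mem_image.1 hv
      rw [Finset.mem_product] at hp
      obtain ⟨hn, hyn⟩ := hν y hp.1
      have hrs := (hNsm r).1 (hR1 r hp.2)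
      rw [hF]
      refine ⟨?_, ?_⟩
      · rw [← hC]
        exact hconjC _ (N.mul_mem hn hrs.1) g hgC
      · exact isConj_iff.2 ⟨_, rfl⟩
    · intro v hv hgv
      rw [← hC] at hv ⊢
      obtain ⟨n, hn, hng⟩ := conj_in hDp ((hCm g).1 hgC) hiw ((hCm v).1 hv) hgv
      rw [← hN] at hn
      -- existence
      have hex : ∃ p ∈ T ×ˢ R, ∃ c ∈ C, v = c * F p * c⁻¹ := by
        obtain ⟨y, hy, c, hc, hyc⟩ := hT2 (n * s * n⁻¹) ⟨n, hn, rfl⟩
        obtain ⟨hny, hyn⟩ := hν y hy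
        have h1 : ((ν y)⁻¹ * c⁻¹ * n) * s = s * ((ν y)⁻¹ * c⁻¹ * n) := by
          have h2 : n * s = c * y * c⁻¹ * n := by rw [← hyc]; group
          calc ((ν y)⁻¹ * c⁻¹ * n) * s = (ν y)⁻¹ * c⁻¹ * (n * s) := by group
            _ = (ν y)⁻¹ * y * c⁻¹ * n := by rw [h2]; group
            _ = (ν y)⁻¹ * (ν y * s * (ν y)⁻¹) * c⁻¹ * n := by rw [← hyn]
            _ = _ := by group
        have h2 : ((ν y)⁻¹ * c⁻¹ * n) ∈ Ns :=
          (hNsm _).2 ⟨N.mul_mem (N.mul_mem (N.inv_mem hny) (N.inv_mem (hCN hc))) hn, h1⟩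
        obtain ⟨r, hr, hrm⟩ := hR2 _ h2
        refine ⟨(y, r), Finset.mem_product.2 ⟨hy, hr⟩, c, hc, ?_⟩
        have h3 := ((hNgm _).1 hrm).2
        have h4 : n = c * (ν y * r) * (r⁻¹ * ((ν y)⁻¹ * c⁻¹ * n)) := by group
        rw [hF]
        show v = c * ((ν y * r) * g * (ν y * r)⁻¹) * c⁻¹
        obtain ⟨q, hq⟩ : ∃ q : G, q = r⁻¹ * ((ν y)⁻¹ * c⁻¹ * n) := ⟨_, rfl⟩
        rw [← hq] at h3 h4
        calc v = n * g * n⁻¹ := hng.symm
          _ = (c * (ν y * r)) * (q * g) * q⁻¹ * (c * (ν y * r))⁻¹ := by rw [h4]; group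
          _ = _ := by rw [h3]; group
      obtain ⟨p, hp, c, hc, hv'⟩ := hex
      refine ⟨F p, ⟨Finset.mem_image.2 ⟨p, hp, rfl⟩, c, hc, hv'⟩, ?_⟩
      rintro v' ⟨hv1, c1, hc1, hv2⟩
      obtain ⟨p', hp', rfl⟩ := Finset.mem_image.1 hv1
      have h5 : p = p' := by
        refine huniq p hp p' hp' (c1⁻¹ * c) (C.mul_mem (C.inv_mem hc1) hc) ?_
        calc c1⁻¹ * c * F p * (c1⁻¹ * c)⁻¹ = c1⁻¹ * (c * F p * c⁻¹) * c1 := by group
          _ = c1⁻¹ * (c1 * F p' * c1⁻¹) * c1 := by rw [← hv', hv2]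
          _ = F p' := by group
      rw [h5]
  -- the indices
  have hidx : ∀ w ∈ D, (∀ d ∈ D, w * d = d * w) →
      D ≤ N ⊓ Subgroup.centralizer ({w * s} : Set G) ∧
      N ⊓ Subgroup.centralizer ({w * s} : Set G) ≤ Ns := by
    intro w hwD hwc
    have hcomm : Commute w s := ((hCm s).1 hsC w hwD).symm
    obtain ⟨b, hb⟩ : ∃ b : ℕ, w ^ (ℓ ^ b) = 1 := by
      obtain ⟨b, hb⟩ := hDp ⟨w, hwD⟩
      exact ⟨b, congrArg Subtype.val hb⟩
    obtain ⟨k, k', hk, hk'⟩ := powers hcomm hb hsm hm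
    constructor
    · intro d hd
      rw [Subgroup.mem_inf, hcent]
      refine ⟨hDN hd, ?_⟩
      have h1 := hwc d hd
      have h2 := (hCm s).1 hsC d hd
      rw [← mul_assoc, ← h1, mul_assoc, ← h2, ← mul_assoc]
    · intro v hv
      rw [Subgroup.mem_inf, hcent] at hv
      refine (hNsm v).2 ⟨hv.1, ?_⟩
      rw [← hk']
      exact ((show Commute v (w * s) from hv.2).pow_right k').eq
  have hxlc : ∀ d ∈ D, xl * d = d * xl := fun d hd => (hCm xl).1 hxlC d hd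
  obtain ⟨hi1, hi2⟩ := hidx xl hxlD hxlc
  rw [hprod] at hi1 hi2
  have hkx := key xl hxlD hxlc (by rw [hprod]; exact hix)
  rw [hprod] at hkx
  rw [hkx] at hx
  have hS : ∑ y ∈ T, μ y ≠ 0 := right_ne_zero_of_mul hx
  have hj : ¬ ℓ ∣ (N ⊓ Subgroup.centralizer ({x} : Set G)).relIndex Ns := fun h =>
    (left_ne_zero_of_mul hx) (nat_zero hl h)
  have hDNx : ¬ ℓ ∣ D.relIndex (N ⊓ Subgroup.centralizer ({x} : Set G)) := by
    intro h
    apply hix
    rw [← Subgroup.relIndex_mul_relIndex D _ _ hi1 inf_le_right]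
    exact h.mul_right _
  have hDNs' : ¬ ℓ ∣ D.relIndex Ns := by
    rw [← Subgroup.relIndex_mul_relIndex D _ _ hi1 hi2]
    intro h
    rcases (Nat.Prime.dvd_mul (Fact.out : ℓ.Prime)).1 h with h | h
    · exact hDNx h
    · exact hj h
  -- the element `s`
  have hzD : (1 : G) ∈ D := D.one_mem
  have hzc : ∀ d ∈ D, (1 : G) * d = d * 1 := fun d _ => by rw [one_mul, mul_one]
  obtain ⟨hg1, hg2⟩ := hidx 1 hzD hzc
  have hkey := key 1 hzD hzc
  rw [one_mul] at hg1 hg2 hkey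
  have hgi : ¬ ℓ ∣ D.relIndex (N ⊓ Subgroup.centralizer ({s} : Set G)) := by
    intro h
    apply hDNs'
    rw [← Subgroup.relIndex_mul_relIndex D _ _ hg1 hg2]
    exact h.mul_right _
  have hgj : ¬ ℓ ∣ (N ⊓ Subgroup.centralizer ({s} : Set G)).relIndex Ns := by
    intro h
    apply hDNs'
    rw [← Subgroup.relIndex_mul_relIndex D _ _ hg1 hg2]
    exact h.mul_left _
  have hDg : D ≤ Subgroup.centralizer ({s} : Set G) := hg1.trans inf_le_right
  have hgK : ¬ ℓ ∣ D.relIndex (Subgroup.centralizer ({s} : Set G)) :=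
    norm_step hDp hDg (by rw [← hN]; exact hgi)
  refine ⟨s, fun h => hm (h.trans (orderOf_dvd_of_pow_eq_one hsm)), ?_, hDg, hgK⟩
  rw [red_ne_iff hχ, hkey hgK]
  exact mul_ne_zero (nat_ne hl hgj) hS

end Pool.Agent.PP.ML.H86
end
end -- Pool.Agent.Helper86_ML.EXR
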