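import Pool.Agent.AT3.Stmts3
import Pool.Agent.Helper12_AWB.B083
import Pool.Agent.Helper12_AWB.B090
import Pool.Agent.Helper12_AWB.B113
import Pool.Agent.Helper12_AWB.B134

/-!
# Merged copies (generated) of the modules

* `Pool.Agent.Helper65_KF.Omc`
* `Pool.Agent.Helper19_K9.OMG`
* `Pool.Agent.Helper41_K9.EIS`
* `Pool.Agent.Helper6_K9.NZ`
* `Pool.Agent.Helper90_K9.Cnj`
* `Pool.Agent.Helper41_AT3.NIL`
* `Pool.Agent.Helper41_AT3.NIT`
-/

set_option autoImplicit false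

section -- Pool.Agent.Helper65_KF.Omc

/-!
# Squad KF: the central characters of a block at the conjugates of `u b` (OMC)
-/

open scoped BigOperators

noncomputable section

namespace Pool.Agent.PP.KF.H65

open Pool.Agent.Helper51_AWC Pool.Agent.Helper79_WRA Pool.Agent.PP Pool.Agent.PP.KF

attribute [local instance] Ideal.Quotient.field

section zet

variable {G : Type} [Group G] [Fintype G] (C : Subgroup G) (w : G → ℂ)

open Classical in
/-- the sum over the cosets -/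
def zet (g : G) : ℂ := ∑ q : G ⧸ C, w (q.out⁻¹ * g * q.out)

theorem w_out {C : Subgroup G} {w : G → ℂ} (hw : ∀ c ∈ C, ∀ g, w (c * g * c⁻¹) = w g) (t g : G) :
    w ((QuotientGroup.mk t : G ⧸ C).out⁻¹ * g * (QuotientGroup.mk t : G ⧸ C).out) =
      w (t⁻¹ * g * t) := by
  obtain ⟨c, hc⟩ := QuotientGroup.mk_out_eq_mul C t
  rw [hc]
  have : (t * (c : G))⁻¹ * g * (t * (c : G)) =
      ((c : G)⁻¹) * (t⁻¹ * g * t) * ((c : G)⁻¹)⁻¹ := by group
  rw [this, hw _ (C.inv_mem c.2)]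

theorem zet_cl {C : Subgroup G} {w : G → ℂ} (hw : ∀ c ∈ C, ∀ g, w (c * g * c⁻¹) = w g) :
    H50.Cl (zet C w) := by
  classical
  intro x y
  unfold zet
  rw [← Equiv.sum_comp (MulAction.toPerm (α := G) (β := G ⧸ C) y)]
  refine Finset.sum_congr rfl fun q _ => ?_
  show w ((y • q).out⁻¹ * (y * x * y⁻¹) * (y • q).out) = w (q.out⁻¹ * x * q.out)
  have h1 : y • q = (QuotientGroup.mk (y * q.out) : G ⧸ C) := by
    conv_lhs => rw [← QuotientGroup.out_eq' q]
    rfl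
  rw [h1, w_out hw]
  congr 1
  group

theorem zet_om {C : Subgroup G} {w : G → ℂ} {χ : G → ℂ} (hχ : χ ∈ Irr G) :
    H50.om (zet C w) χ = Nat.card G * chv w χ / (Nat.card C * χ 1) := by
  classical
  have h1 : ∑ t, zet C w t * χ t = (Fintype.card (G ⧸ C) : ℂ) * ∑ g, w g * χ g := by
    unfold zet
    simp_rw [Finset.sum_mul]
    rw [Finset.sum_comm]
    have : ∀ q : G ⧸ C, ∑ t, w (q.out⁻¹ * t * q.out) * χ t = ∑ g, w g * χ g := by
      intro q
      rw [← Equiv.sum_comp (MulAut.conj q.out).toEquiv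
        (fun t => w (q.out⁻¹ * t * q.out) * χ t)]
      refine Finset.sum_congr rfl fun g _ => ?_
      show w (q.out⁻¹ * (q.out * g * q.out⁻¹) * q.out) * χ (q.out * g * q.out⁻¹) = w g * χ g
      rw [irr_conj hχ]
      congr 2
      group
    rw [Finset.sum_congr rfl fun q _ => this q, Finset.sum_const, nsmul_eq_mul, Finset.card_univ]
  have h2 : (Nat.card G : ℂ) = Fintype.card (G ⧸ C) * Nat.card C := by
    rw [Subgroup.card_eq_card_quotient_mul_card_subgroup C, Nat.card_eq_fintype_card (α := G ⧸ C)]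
    push_cast
    rfl
  have h3 : (Nat.card C : ℂ) ≠ 0 := Nat.cast_ne_zero.2 Nat.card_pos.ne'
  have h4 : χ 1 ≠ 0 := irr_one_ne hχ
  rw [H50.om, h1, chv, finsum_eq_sum_of_fintype, h2]
  field_simp

end zet

variable {M : Ideal (integralClosure ℤ ℂ)} [hM : M.IsMaximal]

/-- the central character at a class function with values in the local ring -/
theorem om_RM {G : Type} [Group G] [Fintype G] {a : G → ℂ} (ha : H50.Cl a)
    (hR : ∀ g, a g ∈ RM M) {χ : G → ℂ} (hχ : χ ∈ Irr G) :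
    H50.om a χ ∈ RM M ∧ rr M (H50.om a χ) = res M (fun g => rr M (a g)) χ := by
  classical
  have := Fintype.ofFinite (ConjClasses G)
  have h1 : ∀ c : ConjClasses G, omega (MonoidHom.id G) χ (Quotient.out c) ∈ RM M := fun c =>
    RM_of_int (omega_integral _ hχ _)
  rw [H50.om_classes ha]
  refine ⟨Subring.sum_mem _ fun c _ => Subring.mul_mem _ (hR _) (h1 c), ?_⟩
  rw [rr_sum _ _ fun c _ => Subring.mul_mem _ (hR _) (h1 c), res, finsum_eq_sum_of_fintype]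
  refine Finset.sum_congr rfl fun c _ => ?_
  rw [rr_mul (hR _) (h1 c), rr_of_int (omega_integral _ hχ _)]

theorem omc (idm : IdmStmt) : OmcStmt := by
  intro M _ G _ _ u b hb e he χ hχ χ' hχ'
  classical
  have := Fintype.ofFinite G
  obtain ⟨h1, h2, -⟩ := idm M (Cu u) b hb
  have hcl := h2.1
  -- values of `u b`
  have hR : ∀ g, ub u (eh M b) g ∈ RM M := by
    intro g
    unfold ub PP.ext0
    split_ifs with h
    · exact (h1 _).1
    · exact Subring.zero_mem _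
  have hw : ∀ c ∈ Cu u, ∀ g, ub u (eh M b) (c * g * c⁻¹) = ub u (eh M b) g := by
    intro c hc g
    have hcu : c * u = u * c := by
      have := Subgroup.mem_centralizer_iff.1 hc u (Set.mem_singleton u)
      exact this.symm
    have e1 : u⁻¹ * (c * g * c⁻¹) = c * (u⁻¹ * g) * c⁻¹ := by
      have : u⁻¹ * c = c * u⁻¹ := by
        rw [inv_mul_eq_iff_eq_mul, ← mul_assoc, ← hcu, mul_inv_cancel_right]
      rw [mul_assoc c g, ← mul_assoc u⁻¹ c, this]
      group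
    unfold ub
    rw [e1]
    unfold PP.ext0
    by_cases h : u⁻¹ * g ∈ Cu u
    · have h' : c * (u⁻¹ * g) * c⁻¹ ∈ Cu u :=
        (Cu u).mul_mem ((Cu u).mul_mem hc h) ((Cu u).inv_mem hc)
      rw [dif_pos h', dif_pos h]
      exact hcl ⟨u⁻¹ * g, h⟩ ⟨c, hc⟩
    · have h' : c * (u⁻¹ * g) * c⁻¹ ∉ Cu u := by
        intro h'
        apply h
        have : u⁻¹ * g = c⁻¹ * (c * (u⁻¹ * g) * c⁻¹) * c := by group
        rw [this]
        exact (Cu u).mul_mem ((Cu u).mul_mem ((Cu u).inv_mem hc) h') hc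
      rw [dif_neg h', dif_neg h]
  have hz := zet_cl (C := Cu u) hw
  have hzR : ∀ g, zet (Cu u) (ub u (eh M b)) g ∈ RM M := fun g =>
    Subring.sum_mem _ fun q _ => hR _
  have hrcl : IsCl (fun g => rr M (zet (Cu u) (ub u (eh M b)) g)) := by
    intro x y
    show rr M _ = rr M _
    rw [hz]
  have k1 := om_RM (M := M) hz hzR hχ.1
  have k2 := om_RM (M := M) hz hzR hχ'.1
  have k3 := H50.char_uniq he (H50.isChar_res hχ.1) (H50.isChar_res hχ'.1) hχ.2 hχ'.2 hrcl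
  rw [zet_om hχ.1] at k1
  rw [zet_om hχ'.1] at k2
  exact ⟨k1.1, k1.2.trans (k3.trans k2.2.symm)⟩

end Pool.Agent.PP.KF.H65
end
end -- Pool.Agent.Helper65_KF.Omc

section -- Pool.Agent.Helper19_K9.OMG

/-!
# Squad K9: the central characters at the sum of the conjugates of `w b` (OMG)
-/

open scoped BigOperators

noncomputable section

namespace Pool.Agent.PP.K9.H19

open Pool.Agent.Helper51_AWC Pool.Agent.Helper79_WRA Pool.Agent.PP Pool.Agent.PP.KF

attribute [local instance] Ideal.Quotient.field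

/-- the translate of an element of the group ring of a subgroup -/
def tw {G : Type} [Group G] (C : Subgroup G) (w : G) (b : C → ℂ) : G → ℂ :=
  fun g => PP.ext0 C b (w⁻¹ * g)

theorem chv_tw {G : Type} [Group G] [Fintype G] (C : Subgroup G) (w : G) (b : C → ℂ)
    (χ : G → ℂ) : chv (tw C w b) χ = gbv C w b χ := by
  classical
  unfold chv gbv tw
  rw [finsum_eq_sum_of_fintype, finsum_eq_sum_of_fintype]
  rw [← Equiv.sum_comp (Equiv.mulLeft w) (fun g => PP.ext0 C b (w⁻¹ * g) * χ g)]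
  have h1 : ∀ g : G, PP.ext0 C b (w⁻¹ * (Equiv.mulLeft w) g) * χ ((Equiv.mulLeft w) g) =
      PP.ext0 C b g * χ (w * g) := by
    intro g
    show PP.ext0 C b (w⁻¹ * (w * g)) * χ (w * g) = _
    rw [inv_mul_cancel_left]
  rw [Finset.sum_congr rfl fun g _ => h1 g]
  symm
  have h2 : ∀ c : C, b c * χ (w * c) = PP.ext0 C b (c : G) * χ (w * (c : G)) := by
    intro c
    have : PP.ext0 C b (c : G) = b c := dif_pos c.2
    rw [this]
  rw [Finset.sum_congr rfl fun c _ => h2 c]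
  refine Eq.trans (Finset.sum_subtype (Finset.univ.filter fun g : G => g ∈ C)
    (fun x => by rw [Finset.mem_filter]; exact ⟨fun h => h.2, fun h => ⟨Finset.mem_univ _, h⟩⟩)
    (fun g : G => PP.ext0 C b g * χ (w * g))).symm ?_
  rw [Finset.sum_filter]
  refine Finset.sum_congr rfl fun g _ => ?_
  by_cases hg : g ∈ C
  · rw [if_pos hg]
  · rw [if_neg hg]
    have : PP.ext0 C b g = 0 := dif_neg hg
    rw [this, zero_mul]

theorem omg : OmgStmt := by
  intro M _ G _ _ u b hb w hw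
  classical
  have := Fintype.ofFinite G
  obtain ⟨h1, h2, -⟩ := KF.H25.idm M (Cu u) b hb
  have hcl := h2.1
  have hR : ∀ g, tw (Cu u) w (eh M b) g ∈ RM M := by
    intro g
    unfold tw PP.ext0
    split_ifs with h
    · exact (h1 _).1
    · exact Subring.zero_mem _
  have hwc : ∀ c ∈ Cu u, c * w = w * c := by
    intro c hc
    have hcu : c * u = u * c := by
      have := Subgroup.mem_centralizer_iff.1 hc u (Set.mem_singleton u)
      exact this.symm
    obtain ⟨k, rfl⟩ := Subgroup.mem_zpowers_iff.1 hw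
    exact (Commute.zpow_right (show Commute c u from hcu) k)
  have hw1 : ∀ c ∈ Cu u, ∀ g, tw (Cu u) w (eh M b) (c * g * c⁻¹) = tw (Cu u) w (eh M b) g := by
    intro c hc g
    have hcu := hwc c hc
    have e1 : w⁻¹ * (c * g * c⁻¹) = c * (w⁻¹ * g) * c⁻¹ := by
      have : w⁻¹ * c = c * w⁻¹ := by
        rw [inv_mul_eq_iff_eq_mul, ← mul_assoc, ← hcu, mul_inv_cancel_right]
      rw [mul_assoc c g, ← mul_assoc w⁻¹ c, this]
      group
    unfold tw
    rw [e1]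
    unfold PP.ext0
    by_cases h : w⁻¹ * g ∈ Cu u
    · have h' : c * (w⁻¹ * g) * c⁻¹ ∈ Cu u :=
        (Cu u).mul_mem ((Cu u).mul_mem hc h) ((Cu u).inv_mem hc)
      rw [dif_pos h', dif_pos h]
      exact hcl ⟨w⁻¹ * g, h⟩ ⟨c, hc⟩
    · have h' : c * (w⁻¹ * g) * c⁻¹ ∉ Cu u := by
        intro h'
        apply h
        have : w⁻¹ * g = c⁻¹ * (c * (w⁻¹ * g) * c⁻¹) * c := by group
        rw [this]
        exact (Cu u).mul_mem ((Cu u).mul_mem ((Cu u).inv_mem hc) h') hc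
      rw [dif_neg h', dif_neg h]
  have hz := KF.H65.zet_cl (C := Cu u) hw1
  have hzR : ∀ g, KF.H65.zet (Cu u) (tw (Cu u) w (eh M b)) g ∈ RM M := fun g =>
    Subring.sum_mem _ fun q _ => hR _
  have htr : (fun g => rr M (KF.H65.zet (Cu u) (tw (Cu u) w (eh M b)) g)) =
      trc (Cu u) w b := by
    funext g
    unfold KF.H65.zet trc
    rw [rr_sum _ _ fun q _ => hR _, finsum_eq_sum_of_fintype]
    refine Finset.sum_congr rfl fun q _ => ?_
    unfold tw PP.ext0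
    split_ifs with h
    · exact (h1 _).2
    · exact rr_zero
  refine ⟨?_, fun χ hχ => ?_⟩
  · rw [← htr]
    intro x y
    show rr M _ = rr M _
    rw [hz]
  · have k1 := KF.H65.om_RM (M := M) hz hzR hχ
    rw [KF.H65.zet_om hχ, chv_tw, htr] at k1
    exact k1

end Pool.Agent.PP.K9.H19
end
end -- Pool.Agent.Helper19_K9.OMG

section -- Pool.Agent.Helper41_K9.EIS

/-!
# Row K9_EIS: orthogonal vectors over the Eisenstein integers
-/

open scoped BigOperators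

namespace Pool.Agent.PP.K9.H41

variable {ω : ℂ}

lemma om_sq (h : IsPrimitiveRoot ω 3) : ω ^ 2 = -1 - ω := by
  have h1 : ω ^ 3 = 1 := h.pow_eq_one
  have h2 : ω - 1 ≠ 0 := sub_ne_zero.mpr (h.ne_one (by norm_num))
  have h3 : (ω - 1) * (ω ^ 2 + ω + 1) = 0 := by
    have : (ω - 1) * (ω ^ 2 + ω + 1) = ω ^ 3 - 1 := by ring
    rw [this, h1, sub_self]
  have h4 := (mul_eq_zero.mp h3).resolve_left h2
  linear_combination h4

lemma om_conj (h : IsPrimitiveRoot ω 3) : starRingEnd ℂ ω = -1 - ω := by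
  have h1 : ω ^ 3 = 1 := h.pow_eq_one
  have hn : ‖ω‖ = 1 := Complex.norm_eq_one_of_pow_eq_one h1 (by norm_num)
  have h2 : ω * starRingEnd ℂ ω = 1 := by
    rw [Complex.mul_conj, Complex.normSq_eq_norm_sq, hn]
    norm_num
  have h0 : ω ≠ 0 := h.ne_zero (by norm_num)
  have h3 : ω * starRingEnd ℂ ω = ω * ω ^ 2 := by
    rw [h2]
    rw [← h1]
    ring
  rw [mul_left_cancel₀ h0 h3, om_sq h]

lemma om_li (h : IsPrimitiveRoot ω 3) {p q : ℤ} (hpq : (p : ℂ) + q * ω = 0) : p = 0 ∧ q = 0 := by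
  have h1 : starRingEnd ℂ ((p : ℂ) + q * ω) = 0 := by rw [hpq, map_zero]
  have h2 : (p : ℂ) + q * (-1 - ω) = 0 := by
    rw [← om_conj h, ← h1, map_add, map_mul]
    simp
  have h3 : (q : ℂ) * (2 * ω + 1) = 0 := by linear_combination hpq - h2
  have h4 : (2 * ω + 1 : ℂ) ≠ 0 := by
    intro h5
    have h6 := om_sq h
    have h7 : ω = -1 / 2 := by linear_combination h5 / 2
    rw [h7] at h6
    norm_num at h6
  have hq : (q : ℂ) = 0 := (mul_eq_zero.mp h3).resolve_right h4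
  have hp : (p : ℂ) = 0 := by rw [hq] at hpq; simpa using hpq
  exact ⟨by exact_mod_cast hp, by exact_mod_cast hq⟩

lemma om_norm (h : IsPrimitiveRoot ω 3) (a b : ℤ) :
    ((a : ℂ) + b * ω) * starRingEnd ℂ ((a : ℂ) + b * ω) = ((a * a - a * b + b * b : ℤ) : ℂ) := by
  have h1 : starRingEnd ℂ ((a : ℂ) + b * ω) = a + b * (-1 - ω) := by
    rw [← om_conj h, map_add, map_mul]
    simp
  rw [h1]
  push_cast
  linear_combination (-(b : ℂ) * b) * om_sq h

/-- the units -/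
lemma units (h : IsPrimitiveRoot ω 3) {z : ℂ} (hz : ∃ a b : ℤ, z = a + b * ω)
    (h1 : z * starRingEnd ℂ z = 1) : ∃ ε : ℤ, (ε = 1 ∨ ε = -1) ∧ ∃ j : ℕ, j < 3 ∧ z = ε * ω ^ j := by
  obtain ⟨a, b, rfl⟩ := hz
  rw [om_norm h] at h1
  have h2 : a * a - a * b + b * b = 1 := by exact_mod_cast h1
  have hb : b * b ≤ 1 := by nlinarith [sq_nonneg (2 * a - b)]
  have ha : a * a ≤ 1 := by nlinarith [sq_nonneg (2 * b - a)]
  have hb1 : b ≤ 1 := by nlinarith
  have hb2 : -1 ≤ b := by nlinarith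
  have ha1 : a ≤ 1 := by nlinarith
  have ha2 : -1 ≤ a := by nlinarith
  have hs := om_sq h
  interval_cases a <;> interval_cases b
  · refine ⟨1, Or.inl rfl, 2, by norm_num, ?_⟩
    rw [hs]; push_cast; ring
  · refine ⟨-1, Or.inr rfl, 0, by norm_num, ?_⟩
    push_cast; ring
  · norm_num at h2
  · refine ⟨-1, Or.inr rfl, 1, by norm_num, ?_⟩
    push_cast; ring
  · norm_num at h2
  · refine ⟨1, Or.inl rfl, 1, by norm_num, ?_⟩
    push_cast; ring
  · norm_num at h2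
  · refine ⟨1, Or.inl rfl, 0, by norm_num, ?_⟩
    push_cast; ring
  · refine ⟨-1, Or.inr rfl, 2, by norm_num, ?_⟩
    rw [hs]; push_cast; ring

/-- the size of `ι` -/
lemma three (h : IsPrimitiveRoot ω 3) {ι : Type} [Fintype ι] {deg : ι → ℕ} (hdeg : ∀ i, deg i ≠ 0)
    {δ : ι → ℂ} (h1 : ∀ i, δ i ≠ 0 ∧ ∃ a b : ℤ, δ i = a + b * ω)
    (h2 : ∑ i, δ i * starRingEnd ℂ (δ i) = 3) (h3 : ∑ i, δ i * deg i = 0) :
    Fintype.card ι = 3 ∧ ∀ i, δ i * starRingEnd ℂ (δ i) = 1 := by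
  classical
  choose h0 a b hab using h1
  have hN : ∀ i, δ i * starRingEnd ℂ (δ i) = ((a i * a i - a i * b i + b i * b i : ℤ) : ℂ) := by
    intro i
    rw [hab i, om_norm h]
  have hsum : ∑ i, (a i * a i - a i * b i + b i * b i) = 3 := by
    have : ((∑ i, (a i * a i - a i * b i + b i * b i) : ℤ) : ℂ) = ((3 : ℤ) : ℂ) := by
      push_cast
      rw [← h2]
      refine Finset.sum_congr rfl fun i _ => ?_
      rw [hN i]
      push_cast
      ring
    exact_mod_cast this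
  have hpos : ∀ i, 1 ≤ a i * a i - a i * b i + b i * b i := by
    intro i
    have h4 : 0 ≤ a i * a i - a i * b i + b i * b i := by
      nlinarith [sq_nonneg (2 * a i - b i), sq_nonneg (b i)]
    have h5 : a i * a i - a i * b i + b i * b i ≠ 0 := by
      intro h6
      have h7 : δ i * starRingEnd ℂ (δ i) = 0 := by rw [hN i, h6]; simp
      rcases mul_eq_zero.mp h7 with h8 | h8
      · exact h0 i h8
      · exact h0 i ((map_eq_zero _).mp h8)
    omega
  have hne2 : ∀ i, a i * a i - a i * b i + b i * b i ≠ 2 := by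
    intro i h4
    generalize a i = x at h4
    generalize b i = y at h4
    have hb : y * y ≤ 2 := by nlinarith [sq_nonneg (2 * x - y)]
    have ha : x * x ≤ 2 := by nlinarith [sq_nonneg (2 * y - x)]
    have hb1 : y ≤ 1 := by nlinarith
    have hb2 : -1 ≤ y := by nlinarith
    have ha1 : x ≤ 1 := by nlinarith
    have ha2 : -1 ≤ x := by nlinarith
    interval_cases x <;> interval_cases y <;> norm_num at h4
  have hcard : (Fintype.card ι : ℤ) ≤ 3 := by
    rw [← hsum]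
    calc (Fintype.card ι : ℤ) = ∑ _i : ι, (1 : ℤ) := by simp
      _ ≤ _ := Finset.sum_le_sum fun i _ => hpos i
  have hc : Fintype.card ι = 3 := by
    have hc4 : Fintype.card ι = 0 ∨ Fintype.card ι = 1 ∨ Fintype.card ι = 2 ∨
      Fintype.card ι = 3 := by omega
    rcases hc4 with hc | hc | hc | hc
    · exfalso
      have := Fintype.card_eq_zero_iff.mp hc
      rw [Fintype.sum_empty] at hsum
      norm_num at hsum
    · exfalso
      obtain ⟨x, hx⟩ := Fintype.card_eq_one_iff.mp hc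
      have hu : (Finset.univ : Finset ι) = {x} := by
        ext i; simp [hx i]
      rw [hu, Finset.sum_singleton] at h3
      rcases mul_eq_zero.mp h3 with h4 | h4
      · exact h0 x h4
      · exact hdeg x (by exact_mod_cast h4)
    · exfalso
      obtain ⟨x, y, hxy, hu⟩ := Finset.card_eq_two.mp (show (Finset.univ : Finset ι).card = 2 from hc)
      rw [hu, Finset.sum_pair hxy] at hsum
      have hx := hpos x
      have hy := hpos y
      have hx2 := hne2 x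
      have hy2 := hne2 y
      omega
    · exact hc
  refine ⟨hc, fun i => ?_⟩
  rw [hN i]
  have hle : a i * a i - a i * b i + b i * b i ≤ 1 := by
    by_contra hlt
    push Not at hlt
    have h5 : ∑ _i : ι, (1 : ℤ) < ∑ i, (a i * a i - a i * b i + b i * b i) :=
      Finset.sum_lt_sum (fun i _ => hpos i) ⟨i, Finset.mem_univ i, hlt⟩
    rw [hsum] at h5
    simp [hc] at h5
  have h6 := hpos i
  have h7 : a i * a i - a i * b i + b i * b i = 1 := by omega
  rw [h7]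
  norm_num

/-- the real case -/
lemma case_real {x₁ x₂ x₃ y₁ y₂ y₃ : ℂ} (hx1 : starRingEnd ℂ x₁ = x₁) (hx2 : starRingEnd ℂ x₂ = x₂)
    (h1 : x₁ ≠ 0) (h3 : x₃ ≠ 0)
    (hy1 : y₁ * starRingEnd ℂ y₁ = 1) (hy2 : y₂ * starRingEnd ℂ y₂ = 1)
    (hy3 : y₃ ≠ 0) (hx : x₁ + x₂ + x₃ = 0) (hy : y₁ + y₂ + y₃ = 0)
    (hxy : x₁ * y₁ + x₂ * y₂ + x₃ * y₃ = 0) : False := by
  have hx3 : x₃ = -x₁ - x₂ := by linear_combination hx
  have hy3' : y₃ = -y₁ - y₂ := by linear_combination hy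
  have e1 : y₁ * (2 * x₁ + x₂) = -(y₂ * (2 * x₂ + x₁)) := by
    rw [hx3, hy3'] at hxy
    linear_combination hxy
  have e2 : starRingEnd ℂ y₁ * (2 * x₁ + x₂) = -(starRingEnd ℂ y₂ * (2 * x₂ + x₁)) := by
    have h := congrArg (starRingEnd ℂ) e1
    simpa [map_mul, map_add, map_neg, hx1, hx2, Complex.conj_ofNat] using h
  have e3 : (2 * x₁ + x₂) * (2 * x₁ + x₂) = (2 * x₂ + x₁) * (2 * x₂ + x₁) := by
    have h : (y₁ * (2 * x₁ + x₂)) * (starRingEnd ℂ y₁ * (2 * x₁ + x₂)) =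
        (-(y₂ * (2 * x₂ + x₁))) * (-(starRingEnd ℂ y₂ * (2 * x₂ + x₁))) := by rw [e1, e2]
    linear_combination h - (2 * x₁ + x₂) * (2 * x₁ + x₂) * hy1 +
      (2 * x₂ + x₁) * (2 * x₂ + x₁) * hy2
  have e4 : (x₁ - x₂) * (x₁ + x₂) = 0 := by linear_combination e3 / 3
  rcases mul_eq_zero.mp e4 with h | h
  · have hx12 : x₂ = x₁ := by linear_combination -h
    rw [hx12] at hx3 hxy
    rw [hx3] at hxy
    have h5 : x₁ * (3 * y₃) = 0 := by
      linear_combination -hxy + x₁ * hy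
    rcases mul_eq_zero.mp h5 with h6 | h6
    · exact h1 h6
    · exact hy3 (by linear_combination h6 / 3)
  · exact h3 (by linear_combination hx - h)

/-- the nonreal case -/
lemma case_nr (h : IsPrimitiveRoot ω 3) {z₁ z₂ z₃ : ℂ} {d₁ d₂ d₃ : ℕ} (_hd1 : d₁ ≠ 0) (_hd2 : d₂ ≠ 0)
    (hd3 : d₃ ≠ 0) (hz1 : ∃ ε : ℤ, (ε = 1 ∨ ε = -1) ∧ ∃ j : ℕ, j < 3 ∧ z₁ = ε * ω ^ j)
    (hz2 : ∃ ε : ℤ, (ε = 1 ∨ ε = -1) ∧ ∃ j : ℕ, j < 3 ∧ z₂ = ε * ω ^ j)
    (hz3 : ∃ ε : ℤ, (ε = 1 ∨ ε = -1) ∧ ∃ j : ℕ, j < 3 ∧ z₃ = ε * ω ^ j)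
    (hs : z₁ * z₁ + z₂ * z₂ + z₃ * z₃ = 0) (hd : z₁ * d₁ + z₂ * d₂ + z₃ * d₃ = 0) :
    d₁ = d₂ ∧ d₁ = d₃ ∧ z₁ + z₂ + z₃ = 0 := by
  obtain ⟨e₁, he1, j₁, hj1, rfl⟩ := hz1
  obtain ⟨e₂, he2, j₂, hj2, rfl⟩ := hz2
  obtain ⟨e₃, he3, j₃, hj3, rfl⟩ := hz3
  have hq := om_sq h
  have h3 := h.pow_eq_one
  have h4 : ω ^ 4 = ω := by
    have : ω ^ 4 = ω ^ 3 * ω := by ring
    rw [this, h3, one_mul]
  have q1 : (e₁ : ℂ) * e₁ = 1 := by rcases he1 with r | r <;> rw [r] <;> norm_num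
  have q2 : (e₂ : ℂ) * e₂ = 1 := by rcases he2 with r | r <;> rw [r] <;> norm_num
  have q3 : (e₃ : ℂ) * e₃ = 1 := by rcases he3 with r | r <;> rw [r] <;> norm_num
  -- squares
  have hs' : ω ^ (2 * j₁) + ω ^ (2 * j₂) + ω ^ (2 * j₃) = 0 := by
    have e : ∀ (e : ℤ) (j : ℕ), (e : ℂ) * e = 1 → (e : ℂ) * ω ^ j * (e * ω ^ j) = ω ^ (2 * j) := by
      intro e j he
      rw [two_mul, pow_add]
      linear_combination (ω ^ j * ω ^ j) * he
    rw [e _ _ q1, e _ _ q2, e _ _ q3] at hs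
    exact hs
  have fin : ∀ x₁ x₂ x₃ : ℤ, x₁ = e₁ * d₁ → x₂ = e₂ * d₂ → x₃ = e₃ * d₃ → x₁ = x₂ → x₁ = x₃ →
      d₁ = d₂ ∧ d₁ = d₃ ∧ e₁ = e₂ ∧ e₁ = e₃ := by
    intro x₁ x₂ x₃ g1 g2 g3 g4 g5
    rw [g1] at g4 g5
    rw [g2] at g4
    rw [g3] at g5
    rcases he1 with rfl | rfl <;> rcases he2 with rfl | rfl <;> rcases he3 with rfl | rfl <;> omega
  have pw : ∀ j : ℕ, j < 3 → ∃ p q P Q : ℤ, ω ^ j = p + q * ω ∧ ω ^ (2 * j) = P + Q * ω ∧
      ((p = 1 ∧ q = 0 ∧ P = 1 ∧ Q = 0) ∨ (p = 0 ∧ q = 1 ∧ P = -1 ∧ Q = -1) ∨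
        (p = -1 ∧ q = -1 ∧ P = 0 ∧ Q = 1)) := by
    intro j hj
    interval_cases j
    · refine ⟨1, 0, 1, 0, ?_, ?_, Or.inl ⟨rfl, rfl, rfl, rfl⟩⟩ <;> simp
    · refine ⟨0, 1, -1, -1, ?_, ?_, Or.inr (Or.inl ⟨rfl, rfl, rfl, rfl⟩)⟩
      · simp
      · rw [mul_one, hq]; push_cast; ring
    · refine ⟨-1, -1, 0, 1, ?_, ?_, Or.inr (Or.inr ⟨rfl, rfl, rfl, rfl⟩)⟩
      · rw [hq]; push_cast; ring
      · rw [show 2 * 2 = 4 from rfl, h4]; push_cast; ring
  obtain ⟨p₁, r₁, P₁, R₁, a1, b1, c1⟩ := pw j₁ hj1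
  obtain ⟨p₂, r₂, P₂, R₂, a2, b2, c2⟩ := pw j₂ hj2
  obtain ⟨p₃, r₃, P₃, R₃, a3, b3, c3⟩ := pw j₃ hj3
  have k1 := om_li h (p := P₁ + P₂ + P₃) (q := R₁ + R₂ + R₃) (by
    rw [← hs', b1, b2, b3]; push_cast; ring)
  have k2 := om_li h (p := e₁ * d₁ * p₁ + e₂ * d₂ * p₂ + e₃ * d₃ * p₃)
    (q := e₁ * d₁ * r₁ + e₂ * d₂ * r₂ + e₃ * d₃ * r₃) (by
    rw [← hd, a1, a2, a3]; push_cast; ring)
  obtain ⟨k11, k12⟩ := k1
  obtain ⟨k21, k22⟩ := k2
  obtain ⟨X₁, hX1⟩ : ∃ x : ℤ, x = e₁ * d₁ := ⟨_, rfl⟩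
  obtain ⟨X₂, hX2⟩ : ∃ x : ℤ, x = e₂ * d₂ := ⟨_, rfl⟩
  obtain ⟨X₃, hX3⟩ : ∃ x : ℤ, x = e₃ * d₃ := ⟨_, rfl⟩
  rw [← hX1, ← hX2, ← hX3] at k21 k22
  have all : X₁ = X₂ ∧ X₁ = X₃ ∧ p₁ + p₂ + p₃ = 0 ∧ r₁ + r₂ + r₃ = 0 := by
    rcases c1 with ⟨rfl, rfl, rfl, rfl⟩ | ⟨rfl, rfl, rfl, rfl⟩ | ⟨rfl, rfl, rfl, rfl⟩ <;>
    rcases c2 with ⟨rfl, rfl, rfl, rfl⟩ | ⟨rfl, rfl, rfl, rfl⟩ | ⟨rfl, rfl, rfl, rfl⟩ <;>
    rcases c3 with ⟨rfl, rfl, rfl, rfl⟩ | ⟨rfl, rfl, rfl, rfl⟩ | ⟨rfl, rfl, rfl, rfl⟩ <;>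
    first
      | (exfalso; omega)
      | (refine ⟨?_, ?_, ?_, ?_⟩ <;> omega)
  obtain ⟨g1, g2, g3, g4⟩ := all
  obtain ⟨f1, f2, f3, f4⟩ := fin X₁ X₂ X₃ hX1 hX2 hX3 g1 g2
  refine ⟨f1, f2, ?_⟩
  rw [← f3, ← f4, a1, a2, a3]
  have g3' : (p₁ : ℂ) + p₂ + p₃ = 0 := by exact_mod_cast g3
  have g4' : (r₁ : ℂ) + r₂ + r₃ = 0 := by exact_mod_cast g4
  linear_combination (e₁ : ℂ) * g3' + (e₁ : ℂ) * ω * g4'

theorem eis : EisStmt := by
  classical
  intro ι _ ω hω deg hdeg D hD h1 h2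
  obtain ⟨δ₀, hδ₀⟩ := hD
  obtain ⟨hc, -⟩ := three hω hdeg (h1 δ₀ hδ₀).1 (h1 δ₀ hδ₀).2.1 (h1 δ₀ hδ₀).2.2.1
  have hunit : ∀ δ ∈ D, ∀ i, δ i * starRingEnd ℂ (δ i) = 1 := fun δ hδ =>
    (three hω hdeg (h1 δ hδ).1 (h1 δ hδ).2.1 (h1 δ hδ).2.2.1).2
  obtain ⟨x, y, z, hxy, hxz, hyz, hu⟩ :=
    Finset.card_eq_three.mp (show (Finset.univ : Finset ι).card = 3 from hc)
  have hall : ∀ i, i = x ∨ i = y ∨ i = z := by
    intro i
    have : i ∈ (Finset.univ : Finset ι) := Finset.mem_univ i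
    rw [hu] at this
    simpa using this
  have hsC : ∀ f : ι → ℂ, ∑ i, f i = f x + f y + f z := by
    intro f
    rw [hu, Finset.sum_insert (by simp [hxy, hxz]), Finset.sum_pair hyz]
    ring
  have hsZ : ∀ f : ι → ℤ, ∑ i, f i = f x + f y + f z := by
    intro f
    rw [hu, Finset.sum_insert (by simp [hxy, hxz]), Finset.sum_pair hyz]
    ring
  by_cases hreal : ∃ δ ∈ D, ∀ i, starRingEnd ℂ (δ i) = δ i
  · -- a real vector
    right
    obtain ⟨δ, hδ, hr⟩ := hreal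
    have hpm : ∀ i, ∃ ε : ℤ, (ε = 1 ∨ ε = -1) ∧ δ i = ε := by
      intro i
      have h3 := hunit δ hδ i
      rw [hr i] at h3
      have h4 : (δ i - 1) * (δ i + 1) = 0 := by linear_combination h3
      rcases mul_eq_zero.mp h4 with h5 | h5
      · exact ⟨1, Or.inl rfl, by push_cast; linear_combination h5⟩
      · exact ⟨-1, Or.inr rfl, by push_cast; linear_combination h5⟩
    choose ε hε hδε using hpm
    have hεε : ∀ i, ε i * ε i = 1 := by
      intro i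
      rcases hε i with r | r <;> rw [r] <;> norm_num
    have hεC : ∀ i, (ε i : ℂ) * ε i = 1 := by
      intro i
      exact_mod_cast hεε i
    have hεr : ∀ i, starRingEnd ℂ (ε i : ℂ) = ε i := by
      intro i
      simp
    have hdg := (h1 δ hδ).2.2.1
    rw [hsC] at hdg
    have huniq : ∀ δ' ∈ D, δ' = δ := by
      intro δ' hδ'
      by_contra hne
      have h3 := h2 δ' hδ' δ hδ hne
      have h4 := (h1 δ' hδ').2.2.1
      rw [hsC] at h3 h4
      have hn : ∀ i, (ε i * δ' i) * starRingEnd ℂ (ε i * δ' i) = 1 := by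
        intro i
        rw [map_mul, hεr]
        linear_combination (δ' i * starRingEnd ℂ (δ' i)) * hεC i + hunit δ' hδ' i
      refine case_real (x₁ := ε x * deg x) (x₂ := ε y * deg y) (x₃ := ε z * deg z)
        (y₁ := ε x * δ' x) (y₂ := ε y * δ' y) (y₃ := ε z * δ' z) ?_ ?_ ?_ ?_ (hn x) (hn y) ?_
        ?_ ?_ ?_
      · simp
      · simp
      · refine mul_ne_zero ?_ (by exact_mod_cast hdeg x)
        intro h5
        have := hεC x
        rw [h5] at this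
        simp at this
      · refine mul_ne_zero ?_ (by exact_mod_cast hdeg z)
        intro h5
        have := hεC z
        rw [h5] at this
        simp at this
      · intro h5
        have := hn z
        rw [h5] at this
        simp at this
      · rw [← hδε x, ← hδε y, ← hδε z]
        exact hdg
      · simp only [hδε, hεr] at h3
        linear_combination h3
      · linear_combination h4 + (deg x * δ' x) * hεC x + (deg y * δ' y) * hεC y +
          (deg z * δ' z) * hεC z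
    refine ⟨fun i => if i = x then ε x else if i = y then -ε y else 0,
      fun i => if i = x then ε x else if i = y then 0 else -ε z, ?_, ?_, ?_, ?_,
      -(ε y * deg y), -(ε z * deg z), ?_⟩
    · rw [hsZ]
      simp only [if_true, hxy.symm, hxz.symm, hyz.symm, if_false]
      linear_combination hεε x + hεε y
    · rw [hsZ]
      simp only [if_true, hxy.symm, hxz.symm, hyz.symm, if_false]
      linear_combination hεε x + hεε z
    · rw [hsZ]
      simp only [if_true, hxy.symm, hxz.symm, hyz.symm, if_false]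
      linear_combination hεε x
    · intro δ' hδ'
      rw [huniq δ' hδ', hsC, hsC]
      simp only [if_true, hxy.symm, hxz.symm, hyz.symm, if_false, hδε]
      push_cast
      exact ⟨by linear_combination hεC x - hεC y, by linear_combination hεC x - hεC z⟩
    · intro i
      rw [hδε, hδε, hδε] at hdg
      rcases hall i with rfl | rfl | rfl
      · simp only [if_true]
        linear_combination (ε i : ℂ) * hdg - (deg i : ℂ) * hεC i
      · simp only [if_true, hxy.symm, if_false]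
        push_cast
        linear_combination -(deg i : ℂ) * hεC i
      · simp only [hxz.symm, hyz.symm, if_false]
        push_cast
        linear_combination -(deg i : ℂ) * hεC i
  · -- no real vector
    left
    have hfin : ∀ δ ∈ D, deg x = deg y ∧ deg x = deg z ∧ δ x + δ y + δ z = 0 := by
      intro δ hδ
      have hne : δ ≠ fun i => starRingEnd ℂ (δ i) := by
        intro h3
        exact hreal ⟨δ, hδ, fun i => (congrFun h3 i).symm⟩
      have h3 := h2 δ hδ _ (h1 δ hδ).2.2.2 hne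
      have h4 := (h1 δ hδ).2.2.1
      rw [hsC] at h3 h4
      simp only [Complex.conj_conj] at h3
      exact case_nr hω (hdeg x) (hdeg y) (hdeg z)
        (units hω ((h1 δ hδ).1 x).2 (hunit δ hδ x)) (units hω ((h1 δ hδ).1 y).2 (hunit δ hδ y))
        (units hω ((h1 δ hδ).1 z).2 (hunit δ hδ z)) h3 h4
    refine ⟨fun _ => 1, ?_, ?_, deg x, ?_⟩
    · rw [hsZ]; norm_num
    · intro δ hδ
      rw [hsC]
      push_cast
      linear_combination (hfin δ hδ).2.2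
    · intro i
      obtain ⟨g1, g2, -⟩ := hfin δ₀ hδ₀
      rcases hall i with rfl | rfl | rfl
      · simp
      · rw [g1]; simp
      · rw [g2]; simp

end Pool.Agent.PP.K9.H41
end -- Pool.Agent.Helper41_K9.EIS

section -- Pool.Agent.Helper6_K9.NZ

/-! K9, row NZ: `χ(w b) ≠ 0`. -/

open scoped BigOperators

noncomputable section

namespace Pool.Agent.PP.K9.H6

open Pool.Agent.Helper51_AWC Pool.Agent.Helper79_WRA Pool.Agent.PP Pool.Agent.PP.KF

attribute [local instance] Ideal.Quotient.field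

/-- NZ -/
theorem nz (omg : OmgStmt) (nzr : NzrStmt) : NzStmt := by
  intro ℓ _ M _ hM G _ _ e he V hV hab u hu b hb heb hgd w hw χ hχ h0
  have hbi : IsIdem b := hb.1
  have h1 := (omg M G u b hbi w hw).2 χ hχ.1
  have h2 := nzr ℓ M hM G e he V hV hab u hu b hb heb hgd w hw χ hχ
  apply h2
  rw [← h1.2, h0, mul_zero, zero_div, rr_zero]

end Pool.Agent.PP.K9.H6
end
end -- Pool.Agent.Helper6_K9.NZ

section -- Pool.Agent.Helper90_K9.Cnj

/-!
# Squad K9, row CNJ: conjugate elements of `⟨u⟩`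
-/

open scoped BigOperators

noncomputable section

namespace Pool.Agent.PP.K9.H90

open Pool.Agent.Helper51_AWC Pool.Agent.Helper79_WRA Pool.Agent.PP Pool.Agent.PP.KF
open Pool.Agent.PP.K9

/-- an automorphism of the source which respects the kernel descends -/
theorem exists_desc {C H : Type} [Group C] [Group H] (π : C →* H) (hs : Function.Surjective π)
    (κ : C ≃* C) (hk : ∀ c, π c = 1 ↔ π (κ c) = 1) : ∃ τ : H ≃* H, ∀ c, τ (π c) = π (κ c) := by
  have hker : π.ker ≤ (π.comp κ.toMonoidHom).ker := by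
    intro c hc
    rw [MonoidHom.mem_ker] at hc ⊢
    exact (hk c).1 hc
  let τ₀ : H →* H := π.liftOfSurjective hs ⟨π.comp κ.toMonoidHom, hker⟩
  have hτ : ∀ c, τ₀ (π c) = π (κ c) := fun c =>
    MonoidHom.liftOfRightInverse_comp_apply π _ (Function.rightInverse_surjInv hs)
      ⟨π.comp κ.toMonoidHom, hker⟩ c
  have hinj : Function.Injective τ₀ := by
    rw [injective_iff_map_eq_one]
    intro h hh
    obtain ⟨c, rfl⟩ := hs h
    rw [hτ] at hh
    exact (hk c).2 hh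
  have hsur : Function.Surjective τ₀ := by
    intro h
    obtain ⟨c, rfl⟩ := hs h
    refine ⟨π (κ.symm c), ?_⟩
    rw [hτ, MulEquiv.apply_symm_apply]
  exact ⟨MulEquiv.ofBijective τ₀ ⟨hinj, hsur⟩, hτ⟩

/-- conjugation by an element which normalises a subgroup from both sides -/
def cj {G : Type} [Group G] (C : Subgroup G) (t : G) (h1 : ∀ c ∈ C, t * c * t⁻¹ ∈ C)
    (h2 : ∀ c ∈ C, t⁻¹ * c * t ∈ C) : C ≃* C where
  toFun c := ⟨t * c * t⁻¹, h1 c c.2⟩
  invFun c := ⟨t⁻¹ * c * t, h2 c c.2⟩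
  left_inv c := by ext; simp [mul_assoc]
  right_inv c := by ext; simp [mul_assoc]
  map_mul' c d := by ext; simp [mul_assoc]

/-- a nontrivial element of a group of prime order generates it -/
theorem zpowers_eq {G : Type} [Group G] {ℓ : ℕ} (hℓ : ℓ.Prime) {u w : G} (hu : orderOf u = ℓ)
    (hw : w ∈ Subgroup.zpowers u) (h1 : w ≠ 1) : Subgroup.zpowers w = Subgroup.zpowers u := by
  have hle : Subgroup.zpowers w ≤ Subgroup.zpowers u := by
    rw [Subgroup.zpowers_le]; exact hw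
  have hc : Nat.card (Subgroup.zpowers u) = ℓ := by rw [Nat.card_zpowers, hu]
  haveI : Finite (Subgroup.zpowers u) := Nat.finite_of_card_ne_zero (by rw [hc]; exact hℓ.ne_zero)
  have hd : orderOf w ∣ ℓ := by
    rw [← hc, ← Nat.card_zpowers]
    exact Subgroup.card_dvd_of_le hle
  have ho : orderOf w = ℓ := by
    rcases (Nat.dvd_prime hℓ).1 hd with h | h
    · exact absurd (orderOf_eq_one_iff.1 h) h1
    · exact h
  exact Subgroup.eq_of_le_of_card_ge hle (by rw [hc, Nat.card_zpowers, ho])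

/-- CNJ. -/
theorem cnj : CnjStmt := by
  intro ℓ _ G H _ _ _ _ u π hQ w hw hw1 w' hw' t ht
  have hℓ : ℓ.Prime := Fact.out
  have hw'1 : w' ≠ 1 := by
    rintro rfl
    apply hw1
    have h2 : t * w * t⁻¹ = 1 := ht.symm
    have : w = t⁻¹ * (t * w * t⁻¹) * t := by group
    rw [this, h2]; group
  have z1 := zpowers_eq hℓ hQ.ord hw hw1
  have z2 := zpowers_eq hℓ hQ.ord hw' hw'1
  -- elements of `⟨u⟩` commute with `C`
  have hcom : ∀ c ∈ Cu u, ∀ z ∈ Subgroup.zpowers u, z * c = c * z := by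
    intro c hc z hz
    obtain ⟨k, rfl⟩ := Subgroup.mem_zpowers_iff.1 hz
    have h1 : Commute u c := Subgroup.mem_centralizer_iff.1 hc u rfl
    exact h1.zpow_left k
  -- conjugation by `t` preserves `⟨u⟩`
  have hz1 : ∀ z ∈ Subgroup.zpowers u, t * z * t⁻¹ ∈ Subgroup.zpowers u := by
    intro z hz
    rw [← z1] at hz
    obtain ⟨k, rfl⟩ := Subgroup.mem_zpowers_iff.1 hz
    have : t * w ^ k * t⁻¹ = w' ^ k := by rw [ht, conj_zpow]
    rw [this]
    exact Subgroup.zpow_mem _ hw' k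
  have hz2 : ∀ z ∈ Subgroup.zpowers u, t⁻¹ * z * t ∈ Subgroup.zpowers u := by
    intro z hz
    rw [← z2] at hz
    obtain ⟨k, rfl⟩ := Subgroup.mem_zpowers_iff.1 hz
    have : t⁻¹ * w' ^ k * t = w ^ k := by rw [ht, conj_zpow]; group
    rw [this]
    exact Subgroup.zpow_mem _ hw k
  have hc1 : ∀ c ∈ Cu u, t * c * t⁻¹ ∈ Cu u := by
    intro c hc
    rw [Subgroup.mem_centralizer_iff]
    rintro x (rfl : x = u)
    have h1 := hcom c hc _ (hz2 x (Subgroup.mem_zpowers x))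
    calc x * (t * c * t⁻¹) = t * ((t⁻¹ * x * t) * c) * t⁻¹ := by group
      _ = t * (c * (t⁻¹ * x * t)) * t⁻¹ := by rw [h1]
      _ = t * c * t⁻¹ * x := by group
  have hc2 : ∀ c ∈ Cu u, t⁻¹ * c * t ∈ Cu u := by
    intro c hc
    rw [Subgroup.mem_centralizer_iff]
    rintro x (rfl : x = u)
    have h1 := hcom c hc _ (hz1 x (Subgroup.mem_zpowers x))
    calc x * (t⁻¹ * c * t) = t⁻¹ * ((t * x * t⁻¹) * c) * t := by group
      _ = t⁻¹ * (c * (t * x * t⁻¹)) * t := by rw [h1]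
      _ = t⁻¹ * c * t * x := by group
  obtain ⟨τ, hτ⟩ := exists_desc π hQ.sur (cj (Cu u) t hc1 hc2) (by
    intro c
    rw [hQ.ker, hQ.ker]
    constructor
    · intro h; exact hz1 _ h
    · intro h
      have h2 := hz2 _ h
      have : t⁻¹ * (t * (c : G) * t⁻¹) * t = c := by group
      rwa [show ((cj (Cu u) t hc1 hc2 c : Cu u) : G) = t * c * t⁻¹ from rfl, this] at h2)
  refine ⟨τ, fun p χ hχ => ?_⟩
  unfold Av
  rw [← finsum_comp_equiv (cj (Cu u) t hc1 hc2).toEquiv]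
  refine congrArg _ (finsum_congr fun s => ?_)
  have hreg : Reg ℓ ((cj (Cu u) t hc1 hc2).toEquiv s) ↔ Reg ℓ s := by
    unfold Reg
    rw [show ((cj (Cu u) t hc1 hc2).toEquiv s) = cj (Cu u) t hc1 hc2 s from rfl, MulEquiv.orderOf_eq]
  have hval : χ (w' * ((cj (Cu u) t hc1 hc2).toEquiv s : Cu u)) = χ (w * s) := by
    have e1 : w' * (((cj (Cu u) t hc1 hc2).toEquiv s : Cu u) : G) = (t * (w * s)) * t⁻¹ := by
      rw [show (((cj (Cu u) t hc1 hc2).toEquiv s : Cu u) : G) = t * s * t⁻¹ from rfl, ht]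
      group
    rw [e1, irr_mul_comm hχ]
    have e2 : t⁻¹ * (t * (w * (s : G))) = w * s := by group
    rw [e2]
  have hp : p (π ((cj (Cu u) t hc1 hc2).toEquiv s)) = p (τ (π s)) := by
    rw [hτ]; rfl
  rw [hval, hp]
  exact finsum_congr_Prop (propext hreg) (fun _ => rfl)

end Pool.Agent.PP.K9.H90
end
end -- Pool.Agent.Helper90_K9.Cnj

section -- Pool.Agent.Helper41_AT3.NIL

/-!
# Squad AT3, row NIL: blocks with an abelian defect group and inertial index one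
-/

open scoped BigOperators

noncomputable section

namespace Pool.Agent.PP.T3.H41

open Pool.Agent.Helper51_AWC Pool.Agent.Helper79_WRA Pool.Agent.PP Pool.Agent.PP.KF
open Pool.Agent.PP.K9 Pool.Agent.PP.K9.H97 Pool.Agent.PP.H75

attribute [local instance] Ideal.Quotient.field

theorem irrF (G : Type) [Group G] [Finite G] : (Irr G).Finite := by
  have := Fintype.ofFinite G
  exact irr_finite'

section tools

variable (M : Ideal (integralClosure ℤ ℂ)) [M.IsMaximal]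

theorem irrE_fin {G : Type} [Group G] [Finite G] (b : G → FF M) : (IrrE M b).Finite :=
  (irrF G).subset fun _ h => h.1

theorem irrE_ne {ℓ : ℕ} [Fact ℓ.Prime] (hM : (ℓ : integralClosure ℤ ℂ) ∈ M) {G : Type} [Group G]
    [Finite G] {b : G → FF M} (hb : IsBlk b) : ∃ χ, χ ∈ IrrE M b := by
  obtain ⟨h1, h2⟩ := H3.lbd ℓ M hM G b hb.1 hb.2.1
  have h3 : 0 < (IrrE M b).ncard := lt_of_lt_of_le one_pos (h1.trans h2)
  exact (Set.ncard_pos (irrE_fin M b)).1 h3

theorem dg_uniq {ℓ : ℕ} [Fact ℓ.Prime] (hM : (ℓ : integralClosure ℤ ℂ) ∈ M) {G : Type} [Group G]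
    [Finite G] {b : G → FF M} (hb : IsBlk b) {d d' : ℕ} (h : Dg M b d) (h' : Dg M b d') :
    d = d' := by
  obtain ⟨χ, hχ⟩ := irrE_ne M hM hb
  have h1 := (h.2 χ hχ).symm.trans (h'.2 χ hχ)
  exact_mod_cast h1

/-- the sum of the squares `|gv/d|²` over all the irreducible characters -/
theorem sum_gv (hCO1 : Co1Stmt) {ℓ : ℕ} [Fact ℓ.Prime] (hM : (ℓ : integralClosure ℤ ℂ) ∈ M)
    {H : Type} [Group H] [Finite H] {x : H} (hx : El ℓ x) {c : H → FF M} (hc : Ix (Cu x) c)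
    {d N : ℕ} (hd : Dg M (fun t : Cu x => c t) d)
    (hN : (IrrE M (fun t : Cu x => c t)).ncard = N) :
    ∑ χ ∈ (irrF H).toFinset, Complex.normSq (gv M (Cu x) x c χ / d) = N := by
  have h1 := hCO1 ℓ M hM H x hx c hc
  have hfin := irrE_fin M (fun t : Cu x => c t)
  rw [finsum_mem_eq_finite_toFinset_sum _ (irrF H),
    finsum_mem_eq_finite_toFinset_sum _ hfin] at h1
  have h2 : ∑ κ ∈ hfin.toFinset, (κ 1 : ℂ) ^ 2 = ((N * d ^ 2 : ℕ) : ℂ) := by
    rw [Finset.sum_congr rfl (g := fun _ => (d : ℂ) ^ 2)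
      (fun κ hκ => by rw [hd.2 κ (hfin.mem_toFinset.1 hκ)]), Finset.sum_const, nsmul_eq_mul,
      ← Set.ncard_eq_toFinset_card _ hfin, hN]
    push_cast
    ring
  rw [h2] at h1
  have h3 : ((∑ χ ∈ (irrF H).toFinset, Complex.normSq (gv M (Cu x) x c χ) : ℝ) : ℂ) =
      (((N * d ^ 2 : ℕ) : ℝ) : ℂ) := by
    rw [← Complex.ofReal_natCast] at h1
    rw [← h1]
    push_cast
    refine Finset.sum_congr rfl fun χ _ => ?_
    rw [Complex.mul_conj]
  have h4 := Complex.ofReal_injective h3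
  have hd0 : (0 : ℝ) < d := by exact_mod_cast hd.1
  have h5 : ∀ χ : H → ℂ, Complex.normSq (gv M (Cu x) x c χ / d) =
      Complex.normSq (gv M (Cu x) x c χ) / (d : ℝ) ^ 2 := by
    intro χ
    rw [Complex.normSq_div, Complex.normSq_natCast, sq]
  rw [Finset.sum_congr rfl (fun χ _ => h5 χ), ← Finset.sum_div, h4]
  push_cast
  field_simp

end tools

theorem nil (hLOC : LocStmt) (hLSB : LsbStmt) (hCEN : CenStmt) (hGSM : GsmStmt) (hNIB : NibStmt)
    (hCO1 : Co1Stmt) : NilStmt := by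
  intro ℓ hℓ M _ hM
  have hF : GoodF ℓ (FF M) := H50.fld ℓ Fact.out M hM
  suffices hmain : ∀ n : ℕ, ∀ (H : Type) [Group H] [Finite H], Nat.card H = n →
      ∀ (b : H → FF M) (V : Subgroup H) (γ : H → FF M), Ld ℓ b V γ → ix V γ = 1 →
      (∃ d, Dg M b d) ∧ (IrrE M b).ncard = Nat.card V ∧
      ∀ x ∈ V, x ∉ Subgroup.center H → ∀ c, Lc b V γ x c → ∀ d : ℕ,
        Dg M (fun t : Cu x => c t) d →
        ∀ κ ∈ IrrE M b, Complex.normSq (gv M (Cu x) x c κ / d) = 1 by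
    intro H _ _ b V γ hL hix
    exact hmain _ H rfl b V γ hL hix
  intro n
  induction n using Nat.strong_induction_on with
  | _ n ih =>
  intro H _ _ hn b V γ hL hix
  classical
  by_cases hVz : V ≤ Subgroup.center H
  · obtain ⟨h1, h2⟩ := hCEN ℓ M hM H b hL.blk V hL.tp hVz
    exact ⟨h1, h2, fun x hx hx2 => absurd (hVz hx) hx2⟩
  have := Fintype.ofFinite H
  obtain ⟨S, hS⟩ : ∃ S : Finset H, ∀ x, x ∈ S ↔ x ∈ V ∧ x ∉ Subgroup.center H :=
    ⟨Finset.univ.filter fun x => x ∈ V ∧ x ∉ Subgroup.center H, fun x => by simp⟩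
  obtain ⟨Z, hZ⟩ : ∃ Z : Finset H, ∀ x, x ∈ Z ↔ x ∈ V ∧ x ∈ Subgroup.center H :=
    ⟨Finset.univ.filter fun x => x ∈ V ∧ x ∈ Subgroup.center H, fun x => by simp⟩
  -- `V` is an `ℓ`-group
  have hEl : ∀ x ∈ V, El ℓ x := by
    intro x hx
    obtain ⟨k, hk⟩ := hL.tp.pg ⟨x, hx⟩
    exact ⟨k, congrArg Subtype.val hk⟩
  -- the local blocks
  have hTC : Tg V γ ≤ Subgroup.centralizer (V : Set H) := Subgroup.relIndex_eq_one.1 hix
  have hloc : ∀ x : H, ∃ (c : H → FF M) (d : ℕ), x ∈ S → Lc b V γ x c ∧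
      Dg M (fun t : Cu x => c t) d ∧ (IrrE M (fun t : Cu x => c t)).ncard = Nat.card V := by
    intro x
    by_cases hx : x ∈ S
    · obtain ⟨hxV, hxc⟩ := (hS x).1 hx
      obtain ⟨⟨c, hc⟩, -⟩ := hLOC ℓ (FF M) hF H b V γ hL x hxV
      obtain ⟨h1, h2, h3, h4, h5⟩ := hLSB ℓ M hM H b V γ hL x hxV c hc
      have hlt : Nat.card (Cu x) < n := by
        rw [← hn]
        refine lt_of_le_of_ne (Subgroup.card_le_card_group _) fun h => hxc ?_
        have htop : Cu x = ⊤ := Subgroup.eq_top_of_card_eq _ h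
        rw [Subgroup.mem_center_iff]
        intro g
        have hg : g ∈ Cu x := by rw [htop]; exact Subgroup.mem_top g
        exact Subgroup.mem_centralizer_singleton_iff.1 hg
      have h6 : ix (V.subgroupOf (Cu x)) (fun t : Cu x => γ t) = 1 := by
        rw [h2]
        exact Subgroup.relIndex_eq_one.2 (inf_le_left.trans hTC)
      obtain ⟨⟨d, hd⟩, h7, -⟩ := ih _ hlt (Cu x) rfl _ _ _ h1 h6
      exact ⟨c, d, fun _ => ⟨hc, hd, h7.trans h3⟩⟩
    · exact ⟨0, 0, fun h => absurd h hx⟩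
  choose c d hcd using hloc
  -- cardinalities
  have hSZ : S.card + Z.card = Nat.card V := by
    have h1 : Disjoint S Z := by
      rw [Finset.disjoint_left]
      intro x hx hx2
      exact ((hS x).1 hx).2 ((hZ x).1 hx2).2
    rw [← Finset.card_union_of_disjoint h1, Nat.card_eq_fintype_card]
    refine (Fintype.card_of_subtype _ fun x => ?_).symm
    rw [Finset.mem_union, hS, hZ]
    constructor
    · rintro (h | h)
      · exact h.1
      · exact h.1
    · intro h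
      by_cases h2 : x ∈ Subgroup.center H
      · exact Or.inr ⟨h, h2⟩
      · exact Or.inl ⟨h, h2⟩
  have hS1 : ∀ x ∈ S, x ∈ V ∧ x ≠ 1 := by
    intro x hx
    obtain ⟨h1, h2⟩ := (hS x).1 hx
    refine ⟨h1, fun h => h2 ?_⟩
    rw [h]
    exact Subgroup.one_mem _
  have hSp : ∀ x ∈ S, ∀ j : ℕ, ¬ ℓ ∣ j → x ^ j ∈ S := by
    intro x hx j hj
    obtain ⟨h1, h2⟩ := (hS x).1 hx
    refine (hS _).2 ⟨V.pow_mem h1 j, fun h3 => h2 ?_⟩
    obtain ⟨k, hk⟩ := hEl x h1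
    have h4 : j.Coprime (orderOf x) := by
      refine Nat.Coprime.coprime_dvd_right (orderOf_dvd_of_pow_eq_one hk) ?_
      exact Nat.Coprime.pow_right _ (((Nat.Prime.coprime_iff_not_dvd hℓ.out).2 hj).symm)
    obtain ⟨m, hm⟩ := exists_pow_eq_self_of_coprime h4
    rw [← hm]
    exact Subgroup.pow_mem _ h3 m
  have hSpos : 0 < (S.card : ℝ) := by
    obtain ⟨x, hx, hx2⟩ := Set.not_subset.1 hVz
    exact_mod_cast Finset.card_pos.2 ⟨x, (hS x).2 ⟨hx, hx2⟩⟩
  have hZpos : 0 < (Z.card : ℝ) := by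
    exact_mod_cast Finset.card_pos.2 ⟨1, (hZ 1).2 ⟨V.one_mem, Subgroup.one_mem _⟩⟩
  have hVr : (S.card : ℝ) + Z.card = Nat.card V := by exact_mod_cast hSZ
  have hVpos : 0 < (Nat.card V : ℝ) := by rw [← hVr]; linarith
  have hBf := irrE_fin M b
  obtain ⟨B, hBd⟩ : ∃ B : Finset (H → ℂ), B = hBf.toFinset := ⟨_, rfl⟩
  have hBm : ∀ κ, κ ∈ B ↔ κ ∈ IrrE M b := fun κ => by rw [hBd]; exact hBf.mem_toFinset
  obtain ⟨κ₀, hκ₀⟩ := irrE_ne M hM hL.blk
  have hBk : (B.card : ℝ) = (IrrE M b).ncard := by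
    rw [hBd, ← Set.ncard_eq_toFinset_card _ hBf]
  obtain ⟨σ, hσ⟩ : ∃ σ : ℝ, σ = ∑ᶠ χ ∈ IrrE M b, Complex.normSq (χ 1) := ⟨_, rfl⟩
  have hσ2 : σ = ∑ χ ∈ B, Complex.normSq (χ 1) := by
    rw [hσ, finsum_mem_eq_finite_toFinset_sum _ hBf, hBd]
  have hqpos : ∀ κ ∈ IrrE M b, 0 < Complex.normSq (κ 1) := fun κ hκ =>
    Complex.normSq_pos.2 (irr_one_ne hκ.1)
  have hσpos : 0 < σ := by
    rw [hσ2]
    exact Finset.sum_pos (fun κ hκ => hqpos κ ((hBm κ).1 hκ)) ⟨κ₀, (hBm κ₀).2 hκ₀⟩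
  have hgsm := fun κ (hκ : κ ∈ IrrE M b) => hGSM ℓ M hM H b V γ hL S hS1 hSp c d
    (fun x hx => ⟨(hcd x hx).1, (hcd x hx).2.1⟩) κ hκ
  have hnib : ∀ κ ∈ IrrE M b,
      (∑ x ∈ S, Complex.normSq (gv M (Cu x) x (c x) κ / d x)) / Nat.card V +
        Z.card * Complex.normSq (κ 1) / σ ≤ 1 := by
    intro κ hκ
    rw [hσ]
    exact hNIB ℓ M hM H b V γ hL hix S Z hS hZ c d (fun x hx => hcd x hx) κ hκ
  -- (1)
  have h1 : ∀ κ ∈ IrrE M b, Nat.card V * Complex.normSq (κ 1) ≤ σ := by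
    intro κ hκ
    have e1 := (hgsm κ hκ).1
    have e2 := hnib κ hκ
    have e3 : (S.card : ℝ) / Nat.card V ≤
        (∑ x ∈ S, Complex.normSq (gv M (Cu x) x (c x) κ / d x)) / Nat.card V := by
      gcongr
    have e4 : (Z.card : ℝ) * Complex.normSq (κ 1) / σ ≤ Z.card / Nat.card V := by
      have e5 : (Z.card : ℝ) / Nat.card V = 1 - S.card / Nat.card V := by
        rw [← hVr]
        have : (S.card : ℝ) + Z.card ≠ 0 := by rw [hVr]; exact hVpos.ne'
        field_simp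
        ring
      rw [e5]
      linarith
    rw [div_le_div_iff₀ hσpos hVpos] at e4
    have e6 : (Z.card : ℝ) * (Nat.card V * Complex.normSq (κ 1)) ≤ Z.card * σ := by
      calc (Z.card : ℝ) * (Nat.card V * Complex.normSq (κ 1))
          = Z.card * Complex.normSq (κ 1) * Nat.card V := by ring
        _ ≤ Z.card * σ := e4
    exact le_of_mul_le_mul_left e6 hZpos
  have h2 : (Nat.card V : ℝ) ≤ B.card := by
    have e1 : (Nat.card V : ℝ) * σ ≤ B.card * σ := by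
      calc (Nat.card V : ℝ) * σ = ∑ κ ∈ B, Nat.card V * Complex.normSq (κ 1) := by
            rw [← Finset.mul_sum, ← hσ2]
        _ ≤ ∑ κ ∈ B, σ := Finset.sum_le_sum fun κ hκ => h1 κ ((hBm κ).1 hκ)
        _ = B.card * σ := by rw [Finset.sum_const, nsmul_eq_mul]
    exact le_of_mul_le_mul_right e1 hσpos
  have h3 : (B.card : ℝ) ≤ Nat.card V := by
    have e1 : (B.card : ℝ) * S.card ≤ Nat.card V * S.card := by
      calc (B.card : ℝ) * S.card = ∑ κ ∈ B, (S.card : ℝ) := by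
            rw [Finset.sum_const, nsmul_eq_mul]
        _ ≤ ∑ κ ∈ B, ∑ x ∈ S, Complex.normSq (gv M (Cu x) x (c x) κ / d x) :=
            Finset.sum_le_sum fun κ hκ => (hgsm κ ((hBm κ).1 hκ)).1
        _ = ∑ x ∈ S, ∑ κ ∈ B, Complex.normSq (gv M (Cu x) x (c x) κ / d x) :=
            Finset.sum_comm
        _ ≤ ∑ x ∈ S, ∑ κ ∈ (irrF H).toFinset,
              Complex.normSq (gv M (Cu x) x (c x) κ / d x) := by
            refine Finset.sum_le_sum fun x _ => ?_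
            refine Finset.sum_le_sum_of_subset_of_nonneg ?_ fun _ _ _ => Complex.normSq_nonneg _
            intro κ hκ
            exact (irrF H).mem_toFinset.2 ((hBm κ).1 hκ).1
        _ = ∑ x ∈ S, (Nat.card V : ℝ) := by
            refine Finset.sum_congr rfl fun x hx => ?_
            obtain ⟨k1, k2, k3⟩ := hcd x hx
            exact sum_gv M hCO1 hM (hEl x (hS1 x hx).1) k1.blk.ix k2 k3
        _ = Nat.card V * S.card := by rw [Finset.sum_const, nsmul_eq_mul, mul_comm]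
    exact le_of_mul_le_mul_right e1 hSpos
  have h4 : (B.card : ℝ) = Nat.card V := le_antisymm h3 h2
  have h5 : ∀ κ ∈ IrrE M b, Nat.card V * Complex.normSq (κ 1) = σ := by
    have e1 : ∑ κ ∈ B, (σ - Nat.card V * Complex.normSq (κ 1)) = 0 := by
      rw [Finset.sum_sub_distrib, Finset.sum_const, nsmul_eq_mul, ← Finset.mul_sum, ← hσ2, h4,
        sub_self]
    have e2 := (Finset.sum_eq_zero_iff_of_nonneg (fun κ hκ =>
      sub_nonneg.2 (h1 κ ((hBm κ).1 hκ)))).1 e1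
    intro κ hκ
    have e3 := e2 κ ((hBm κ).2 hκ)
    linarith
  refine ⟨?_, ?_, ?_⟩
  · obtain ⟨d₀, hd₀, hd₀'⟩ := irr_one hκ₀.1
    refine ⟨d₀, hd₀, fun κ hκ => ?_⟩
    obtain ⟨d₁, hd₁, hd₁'⟩ := irr_one hκ.1
    have e1 := (h5 κ hκ).trans (h5 κ₀ hκ₀).symm
    have e2 := mul_left_cancel₀ hVpos.ne' e1
    rw [hd₀', hd₁', Complex.normSq_natCast, Complex.normSq_natCast] at e2
    have e3 : d₁ * d₁ = d₀ * d₀ := by exact_mod_cast e2
    rw [hd₁', Nat.mul_self_inj.1 e3]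
  · have e1 := hBk.symm.trans h4
    exact_mod_cast e1
  · intro x hxV hxc c' hc' d' hd' κ hκ
    have hxS : x ∈ S := (hS x).2 ⟨hxV, hxc⟩
    obtain ⟨k1, k2, k3⟩ := hcd x hxS
    have e1 : c' = c x := (hLOC ℓ (FF M) hF H b V γ hL x hxV).2 _ _ hc' k1
    subst e1
    have e2 : d' = d x := dg_uniq M hM k1.blk.blk hd' k2
    subst e2
    obtain ⟨g1, g2⟩ := hgsm κ hκ
    refine g2 (le_antisymm ?_ g1) x hxS
    have e3 := hnib κ hκ
    have e4 : (Z.card : ℝ) * Complex.normSq (κ 1) / σ = Z.card / Nat.card V := by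
      rw [← h5 κ hκ]
      have := (hqpos κ hκ).ne'
      field_simp
    rw [e4, ← add_div, div_le_one hVpos] at e3
    linarith

end Pool.Agent.PP.T3.H41
end
end -- Pool.Agent.Helper41_AT3.NIL

section -- Pool.Agent.Helper41_AT3.NIT

/-!
# Squad AT3, row NIT: the degrees modulo `ℓ` (inertial index one)
-/

open scoped BigOperators ComplexConjugate

noncomputable section

namespace Pool.Agent.PP.T3.H41

open Pool.Agent.Helper51_AWC Pool.Agent.Helper79_WRA Pool.Agent.PP Pool.Agent.PP.KF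
open Pool.Agent.PP.K9 Pool.Agent.PP.K9.H97 Pool.Agent.PP.H75

attribute [local instance] Ideal.Quotient.field

section tools

variable {M : Ideal (integralClosure ℤ ℂ)} [M.IsMaximal]

/-- the residue of a root of unity of `ℓ`-power order -/
theorem rr_root {ℓ : ℕ} [hℓ : Fact ℓ.Prime] (hM : (ℓ : integralClosure ℤ ℂ) ∈ M) {ζ : ℂ} {k : ℕ}
    (hζ : ζ ^ ℓ ^ k = 1) : ζ ∈ RM M ∧ rr M ζ = 1 := by
  have hq : ℓ ^ k ≠ 0 := pow_ne_zero _ hℓ.out.ne_zero
  have hR : ζ ∈ RM M := by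
    refine RM_of_int ⟨Polynomial.X ^ ℓ ^ k - 1, Polynomial.monic_X_pow_sub_C 1 hq, ?_⟩
    simp [hζ]
  have hch : CharP (FF M) ℓ := (H50.fld ℓ Fact.out M hM).char
  refine ⟨hR, ?_⟩
  have h1 : (rr M ζ - 1) ^ ℓ ^ k = rr M ζ ^ ℓ ^ k - 1 ^ ℓ ^ k :=
    sub_pow_char_pow_of_commute _ _ (Commute.all _ _)
  have h2 : rr M (ζ ^ ℓ ^ k) = rr M ζ ^ ℓ ^ k := map_pow (rrHom M) ⟨ζ, hR⟩ _
  rw [← h2, hζ, rr_one, one_pow, sub_self] at h1
  exact sub_eq_zero.1 ((pow_eq_zero_iff hq).1 h1)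

theorem rr_val {ℓ : ℕ} [hℓ : Fact ℓ.Prime] (hM : (ℓ : integralClosure ℤ ℂ) ∈ M) {ζ : ℂ} {k : ℕ}
    (hζ : ζ ^ ℓ ^ k = 1) (m : ℕ → ℤ) (s : Finset ℕ) :
    (∑ i ∈ s, (m i : ℂ) * ζ ^ i) ∈ RM M ∧
      rr M (∑ i ∈ s, (m i : ℂ) * ζ ^ i) = ((∑ i ∈ s, m i : ℤ) : FF M) := by
  have h1 : ∀ i : ℕ, ζ ^ i ∈ RM M ∧ rr M (ζ ^ i) = 1 := by
    intro i
    refine rr_root hM (k := k) ?_
    rw [← pow_mul, mul_comm, pow_mul, hζ, one_pow]
  have h2 : ∀ i ∈ s, (m i : ℂ) * ζ ^ i ∈ RM M := fun i _ =>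
    (RM M).mul_mem (rr_int (m i)).1 (h1 i).1
  refine ⟨Subring.sum_mem _ h2, ?_⟩
  rw [rr_sum _ _ h2, Int.cast_sum]
  refine Finset.sum_congr rfl fun i _ => ?_
  rw [rr_mul (rr_int (m i)).1 (h1 i).1, (rr_int (m i)).2, (h1 i).2, mul_one]

end tools

theorem nit_central {ℓ : ℕ} [hℓ : Fact ℓ.Prime] (M : Ideal (integralClosure ℤ ℂ)) [M.IsMaximal]
    (hM : (ℓ : integralClosure ℤ ℂ) ∈ M) (H : Type) [Group H] [Finite H] (b : H → FF M)
    (V : Subgroup H) (γ : H → FF M) (hL : Ld ℓ b V γ) (hVz : V ≤ Subgroup.center H) (d c : ℕ)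
    (hd : Dg M b d) (hc : Dg M (fun t : Subgroup.centralizer (V : Set H) => γ t) c) :
    Nat.card (Subgroup.centralizer (V : Set H)) = Nat.card H ∧ c = d := by
  have htop : Subgroup.centralizer (V : Set H) = ⊤ := by
    rw [eq_top_iff]
    intro g _
    rw [Subgroup.mem_centralizer_iff]
    intro v hv
    exact (Subgroup.mem_center_iff.1 (hVz hv) g).symm
  refine ⟨by rw [htop, Subgroup.card_top], ?_⟩
  have hbrb : br V b = b := funext fun x => H66.br_of_mem (by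
    rw [htop]
    exact Subgroup.mem_top x)
  have hγb : IsBlk γ := by
    have h1 : ∀ C : Subgroup H, C = ⊤ → IsBlk (fun t : C => γ t) → IsBlk γ := by
      rintro _ rfl h
      exact H9.blk_tr Subgroup.topEquiv.symm h
    exact h1 _ htop hL.gam.blk
  have hmul : mulF b γ = γ := by
    have h1 := hL.und
    rwa [hbrb] at h1
  have hbγ : b = γ := H17.blk_eq hL.blk hγb (by
    rw [hmul]
    exact hγb.2.1)
  obtain ⟨κ, hκ⟩ := irrE_ne M hM hL.blk
  have hsurj : Function.Surjective (Subgroup.centralizer (V : Set H)).subtype := by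
    intro y
    exact ⟨⟨y, by rw [htop]; exact Subgroup.mem_top y⟩, rfl⟩
  have hpush : PP.H75.push (Subgroup.centralizer (V : Set H)).subtype
      (fun t : Subgroup.centralizer (V : Set H) => γ t) = γ := by
    classical
    have := Fintype.ofFinite (Subgroup.centralizer (V : Set H))
    funext y
    rw [PP.H75.push_eq]
    rw [Finset.sum_eq_single (⟨y, by rw [htop]; exact Subgroup.mem_top y⟩ :
      Subgroup.centralizer (V : Set H))]
    · exact if_pos rfl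
    · intro z _ hz
      exact if_neg fun h => hz (Subtype.ext h)
    · intro h
      exact absurd (Finset.mem_univ _) h
  have hpsi := (K9.H3.psi M _ _ (Subgroup.centralizer (V : Set H)).subtype hsurj
    (fun t : Subgroup.centralizer (V : Set H) => γ t) hL.gam.blk.1.1).1
  rw [hpush] at hpsi
  have hκ2 : κ ∈ IrrE M γ := by rw [← hbγ]; exact hκ
  rw [hpsi] at hκ2
  have h1 := hc.2 _ hκ2.2
  have h2 := hd.2 κ hκ
  have h3 : (c : ℂ) = d := h1.symm.trans h2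
  exact_mod_cast h3

theorem nit (hLOC : LocStmt) (hLSB : LsbStmt) (hNIL : NilStmt) (hINR : InrStmt)
    (hRSV : RsvStmt) : NitStmt := by
  intro ℓ hℓ M _ hM
  have hF : GoodF ℓ (FF M) := H50.fld ℓ Fact.out M hM
  suffices hmain : ∀ n : ℕ, ∀ (H : Type) [Group H] [Finite H], Nat.card H = n →
      ∀ (b : H → FF M) (V : Subgroup H) (γ : H → FF M), Ld ℓ b V γ → ix V γ = 1 →
      ∀ d c : ℕ, Dg M b d → Dg M (fun t : Subgroup.centralizer (V : Set H) => γ t) c →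
      ∃ ε : ℤ, (ε = 1 ∨ ε = -1) ∧
      ((Nat.card H * c : ℂ) / (Nat.card (Subgroup.centralizer (V : Set H)) * d)) ∈ RM M ∧
      rr M ((Nat.card H * c : ℂ) / (Nat.card (Subgroup.centralizer (V : Set H)) * d)) =
        (ε : FF M) by
    intro H _ _ b V γ hL hix
    exact hmain _ H rfl b V γ hL hix
  intro n
  induction n using Nat.strong_induction_on with
  | _ n ih =>
  intro H _ _ hn b V γ hL hix d c hd hc
  have hTC : Tg V γ ≤ Subgroup.centralizer (V : Set H) := Subgroup.relIndex_eq_one.1 hix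
  have hd0 : (d : ℂ) ≠ 0 := Nat.cast_ne_zero.2 hd.1.ne'
  have hH0 : (Nat.card H : ℂ) ≠ 0 := Nat.cast_ne_zero.2 Nat.card_pos.ne'
  by_cases hVz : V ≤ Subgroup.center H
  · obtain ⟨h1, h2⟩ := nit_central M hM H b V γ hL hVz d c hd hc
    refine ⟨1, Or.inl rfl, ?_⟩
    rw [h1, h2, div_self (mul_ne_zero hH0 hd0), rr_one, Int.cast_one]
    exact ⟨(RM M).one_mem, rfl⟩
  obtain ⟨x, hxV, hxc⟩ := Set.not_subset.1 hVz
  obtain ⟨⟨bx, hbx⟩, -⟩ := hLOC ℓ (FF M) hF H b V γ hL x hxV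
  obtain ⟨l1, l2, l3, l4, l5⟩ := hLSB ℓ M hM H b V γ hL x hxV bx hbx
  have hlt : Nat.card (Cu x) < n := by
    rw [← hn]
    refine lt_of_le_of_ne (Subgroup.card_le_card_group _) fun h => hxc ?_
    have htop : Cu x = ⊤ := Subgroup.eq_top_of_card_eq _ h
    refine Subgroup.mem_center_iff.2 fun g => ?_
    have hg : g ∈ Cu x := by rw [htop]; exact Subgroup.mem_top g
    exact Subgroup.mem_centralizer_singleton_iff.1 hg
  have h6 : ix (V.subgroupOf (Cu x)) (fun t : Cu x => γ t) = 1 := by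
    rw [l2]
    exact Subgroup.relIndex_eq_one.2 (inf_le_left.trans hTC)
  obtain ⟨⟨dx, hdx⟩, -, -⟩ := hNIL ℓ M hM (Cu x) _ _ _ l1 h6
  obtain ⟨ε₁, hε₁, r1, r2⟩ := ih _ hlt (Cu x) rfl _ _ _ l1 h6 dx c hdx (l5 c hc)
  rw [l4] at r1 r2
  obtain ⟨κ, hκ⟩ := irrE_ne M hM hL.blk
  have hnil := (hNIL ℓ M hM H b V γ hL hix).2.2 x hxV hxc bx hbx dx hdx κ hκ
  obtain ⟨k, hk⟩ := hL.tp.pg ⟨x, hxV⟩
  have hk' : x ^ ℓ ^ k = 1 := congrArg Subtype.val hk
  have hq : 0 < ℓ ^ k := pow_pos hℓ.out.pos _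
  obtain ⟨ζ, hζ⟩ : ∃ ζ : ℂ, IsPrimitiveRoot ζ (ℓ ^ k) :=
    ⟨_, Complex.isPrimitiveRoot_exp _ hq.ne'⟩
  obtain ⟨m, hm⟩ := hINR M H x (ℓ ^ k) hq hk' bx hbx.blk.ix dx hdx ζ hζ κ hκ.1
  obtain ⟨v, hv⟩ : ∃ v : ℂ, v = ∑ i ∈ Finset.range (ℓ ^ k), (m i : ℂ) * ζ ^ i := ⟨_, rfl⟩
  have hdx0 : (dx : ℂ) ≠ 0 := Nat.cast_ne_zero.2 hdx.1.ne'
  have hm1 : gv M (Cu x) x bx κ = dx * v := by
    have h1 := hm 1
    rw [pow_one] at h1
    rw [h1, hv]
    simp only [mul_one]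
  rw [hm1, mul_div_cancel_left₀ _ hdx0] at hnil
  have hvc : v * conj v = 1 := by
    rw [Complex.mul_conj, hnil, Complex.ofReal_one]
  obtain ⟨v1, v2⟩ := rr_val hM hζ.pow_eq_one m (Finset.range (ℓ ^ k))
  have hζc : (conj ζ) ^ ℓ ^ k = 1 := by rw [← map_pow, hζ.pow_eq_one, map_one]
  obtain ⟨w1, w2⟩ := rr_val hM hζc m (Finset.range (ℓ ^ k))
  have hcv : ∑ i ∈ Finset.range (ℓ ^ k), (m i : ℂ) * (conj ζ) ^ i = conj v := by
    rw [hv, map_sum]
    refine Finset.sum_congr rfl fun i _ => ?_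
    rw [map_mul, map_pow, map_intCast]
  rw [← hv] at v1 v2
  rw [hcv] at w1 w2
  obtain ⟨nn, hnn⟩ : ∃ nn : ℤ, nn = ∑ i ∈ Finset.range (ℓ ^ k), m i := ⟨_, rfl⟩
  rw [← hnn] at v2 w2
  have hn2 : (nn : FF M) * nn = 1 := by
    have h1 := rr_mul v1 w1
    rw [hvc, rr_one, v2, w2] at h1
    exact h1.symm
  obtain ⟨ε₂, hε₂, e2⟩ : ∃ ε : ℤ, (ε = 1 ∨ ε = -1) ∧ (nn : FF M) = ε := by
    rcases mul_self_eq_one_iff.1 hn2 with h | h
    · exact ⟨1, Or.inl rfl, by rw [h, Int.cast_one]⟩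
    · exact ⟨-1, Or.inr rfl, by rw [h, Int.cast_neg, Int.cast_one]⟩
  rw [e2] at w2
  have hCx : Subgroup.centralizer (V : Set H) ≤ Cu x :=
    Subgroup.centralizer_le (Set.singleton_subset_iff.2 hxV)
  obtain ⟨-, o⟩ := K9.H19.omg M H x (fun t : Cu x => bx t) hbx.blk.blk.1 x
    (Subgroup.mem_zpowers x)
  obtain ⟨o1, o2⟩ := o κ hκ.1
  have o3 := hRSV ℓ M hM H b V γ hL x hxV bx hbx κ hκ
  have o4 : (Cu x).relIndex (Tg V γ) = 1 := Subgroup.relIndex_eq_one.2 (hTC.trans hCx)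
  rw [o4, Nat.cast_one] at o3
  have o5 : gbv (Cu x) x (eh M (fun t : Cu x => bx t)) κ = dx * v := hm1
  rw [o3, o5, hd.2 κ hκ] at o2
  rw [o5, hd.2 κ hκ] at o1
  have hCx0 : (Nat.card (Cu x) : ℂ) ≠ 0 := Nat.cast_ne_zero.2 Nat.card_pos.ne'
  have hCV0 : (Nat.card (Subgroup.centralizer (V : Set H)) : ℂ) ≠ 0 :=
    Nat.cast_ne_zero.2 Nat.card_pos.ne'
  have key : (Nat.card H * c : ℂ) / (Nat.card (Subgroup.centralizer (V : Set H)) * d) =
      (Nat.card (Cu x) * c : ℂ) / (Nat.card (Subgroup.centralizer (V : Set H)) * dx) *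
        ((Nat.card H * (dx * v) / (Nat.card (Cu x) * d)) * conj v) := by
    have h1 : (Nat.card (Cu x) * c : ℂ) / (Nat.card (Subgroup.centralizer (V : Set H)) * dx) *
        ((Nat.card H * (dx * v) / (Nat.card (Cu x) * d)) * conj v) =
        (Nat.card H * c : ℂ) / (Nat.card (Subgroup.centralizer (V : Set H)) * d) *
          (v * conj v) := by
      field_simp
    rw [h1, hvc, mul_one]
  refine ⟨ε₁ * ε₂, ?_, ?_, ?_⟩
  · rcases hε₁ with h | h <;> rcases hε₂ with h' | h' <;> rw [h, h'] <;> norm_num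
  · rw [key]
    exact (RM M).mul_mem r1 ((RM M).mul_mem o1 w1)
  · rw [key, rr_mul r1 ((RM M).mul_mem o1 w1), rr_mul o1 w1, r2, o2, w2, one_mul, Int.cast_mul]

end Pool.Agent.PP.T3.H41
end
end -- Pool.Agent.Helper41_AT3.NIT
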