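import Pool.Agent.AT3.Stmts1
import Pool.Agent.Helper12_AWB.B098
import Pool.Agent.Helper12_AWB.B113
import Pool.Agent.Helper12_AWB.B134

/-!
# Merged copies (generated) of the modules

* `Pool.Agent.Helper25_K9.ROT`
* `Pool.Agent.Helper25_K9.PRG`
* `Pool.Agent.Helper27_K9.PRT`
* `Pool.Agent.Helper48_KF.Trm`
* `Pool.Agent.Helper53_K9.Tra`
* `Pool.Agent.Helper43_AT3.LRK`
-/

set_option autoImplicit false

section -- Pool.Agent.Helper25_K9.ROT

/-!
# K9, row ROT: the restriction to the regular elements respects the blocks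
-/

open scoped BigOperators

noncomputable section

namespace Pool.Agent.PP.K9.H25

open Pool.Agent.Helper51_AWC Pool.Agent.Helper79_WRA Pool.Agent.PP Pool.Agent.PP.KF

attribute [local instance] Ideal.Quotient.field

set_option linter.unusedSectionVars false

section rot

variable {G : Type} [Group G] [Fintype G]

theorem irrE_finite (M : Ideal (integralClosure ℤ ℂ)) [M.IsMaximal] (e : G → FF M) :
    (IrrE M e).Finite := irr_finite'.subset fun _ h => h.1

/-- projection to the span of a finite set of characters -/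
def pj (S : Finset (G → ℂ)) (f : G → ℂ) : G → ℂ :=
  ∑ ψ ∈ S, ((Fintype.card G : ℂ)⁻¹ * ∑ x, f x * ψ x⁻¹) • ψ

theorem pj_apply (S : Finset (G → ℂ)) (f : G → ℂ) (g : G) :
    pj S f g = (Fintype.card G : ℂ)⁻¹ * ∑ x, f x * ∑ ψ ∈ S, ψ x⁻¹ * ψ g := by
  unfold pj
  rw [Finset.sum_apply]
  simp only [Pi.smul_apply, smul_eq_mul, Finset.mul_sum, Finset.sum_mul]
  rw [Finset.sum_comm]
  refine Finset.sum_congr rfl fun x _ => Finset.sum_congr rfl fun ψ _ => ?_
  ring

theorem pj_add (S : Finset (G → ℂ)) (f h : G → ℂ) : pj S (f + h) = pj S f + pj S h := by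
  funext g
  rw [Pi.add_apply, pj_apply, pj_apply, pj_apply, ← mul_add, ← Finset.sum_add_distrib]
  congr 1
  exact Finset.sum_congr rfl fun x _ => by rw [Pi.add_apply, add_mul]

theorem pj_smul (S : Finset (G → ℂ)) (c : ℂ) (f : G → ℂ) : pj S (c • f) = c • pj S f := by
  funext g
  rw [Pi.smul_apply, pj_apply, pj_apply, smul_eq_mul, mul_left_comm, Finset.mul_sum (a := c)]
  congr 1
  exact Finset.sum_congr rfl fun x _ => by rw [Pi.smul_apply, smul_eq_mul, mul_assoc]

theorem pj_zero (S : Finset (G → ℂ)) : pj S (0 : G → ℂ) = 0 := by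
  funext g
  rw [pj_apply]
  simp

theorem pj_mem (S : Finset (G → ℂ)) (f : G → ℂ) : pj S f ∈ Submodule.span ℂ (S : Set (G → ℂ)) :=
  Submodule.sum_mem _ fun _ hψ => Submodule.smul_mem _ _ (Submodule.subset_span hψ)

theorem pj_self {S : Finset (G → ℂ)} (hS : ∀ ψ ∈ S, ψ ∈ Irr G) {χ : G → ℂ} (hχ : χ ∈ S) :
    pj S χ = χ := by
  have hc : (Fintype.card G : ℂ) ≠ 0 := by exact_mod_cast Fintype.card_ne_zero
  unfold pj
  rw [Finset.sum_eq_single_of_mem χ hχ]
  · rw [irr_orth_self (hS χ hχ), inv_mul_cancel₀ hc, one_smul]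
  · intro ψ hψ hne
    rw [irr_orth_ne (hS χ hχ) (hS ψ hψ) (Ne.symm hne), mul_zero, zero_smul]

theorem pj_span {S : Finset (G → ℂ)} (hS : ∀ ψ ∈ S, ψ ∈ Irr G) {f : G → ℂ}
    (hf : f ∈ Submodule.span ℂ (S : Set (G → ℂ))) : pj S f = f := by
  induction hf using Submodule.span_induction with
  | mem χ hχ => exact pj_self hS hχ
  | zero => exact pj_zero S
  | add f g _ _ hf hg => rw [pj_add, hf, hg]
  | smul c f _ hf => rw [pj_smul, hf]

theorem span_orth {S : Finset (G → ℂ)} (hS : ∀ ψ ∈ S, ψ ∈ Irr G) {ψ : G → ℂ} (hψ : ψ ∈ Irr G)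
    (hψS : ψ ∉ S) {f : G → ℂ} (hf : f ∈ Submodule.span ℂ (S : Set (G → ℂ))) :
    ∑ x, f x * ψ x⁻¹ = 0 := by
  induction hf using Submodule.span_induction with
  | mem χ hχ => exact irr_orth_ne (hS χ hχ) hψ (fun h => hψS (h ▸ hχ))
  | zero => simp
  | add f g _ _ hf hg =>
    simp only [Pi.add_apply, add_mul, Finset.sum_add_distrib, hf, hg, add_zero]
  | smul c f _ hf =>
    simp only [Pi.smul_apply, smul_eq_mul, mul_assoc]
    rw [← Finset.mul_sum, hf, mul_zero]

end rot

theorem reg_inv {ℓ : ℕ} {G : Type} [Group G] {g : G} : Reg ℓ g⁻¹ ↔ Reg ℓ g := by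
  unfold Reg
  rw [orderOf_inv]

open Classical in
theorem rot (wbo : WboStmt) : RotStmt := by
  intro ℓ _ M _ hM G _ _ e he
  have := Fintype.ofFinite G
  obtain ⟨S, hSdef⟩ : ∃ S, S = (irrE_finite M e).toFinset := ⟨_, rfl⟩
  have hSc : (S : Set (G → ℂ)) = IrrE M e := by rw [hSdef, Set.Finite.coe_toFinset]
  have hS : ∀ ψ ∈ S, ψ ∈ Irr G := fun ψ hψ => by
    rw [hSdef, Set.Finite.mem_toFinset] at hψ
    exact hψ.1
  have hw : ∀ s g : G, Reg ℓ s → ¬ Reg ℓ g → ∑ ψ ∈ S, ψ s⁻¹ * ψ g = 0 := by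
    intro s g hs hg
    have h1 := wbo ℓ M hM G e he s g hs hg
    rw [finsum_mem_eq_finite_toFinset_sum _ (irrE_finite M e)] at h1
    rw [hSdef]
    exact h1
  have hi : ∀ f ∈ Submodule.span ℂ (IrrE M e),
      (fun g => if Reg ℓ g then f g else 0) ∈ Submodule.span ℂ (IrrE M e) := by
    intro f hf
    rw [← hSc] at hf ⊢
    have h1 := pj_span hS hf
    have h2 : f = (fun g => if Reg ℓ g then f g else 0) + (fun g => if Reg ℓ g then 0 else f g) := by
      funext g
      rw [Pi.add_apply]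
      by_cases hg : Reg ℓ g <;> simp [hg]
    have h3 : ∀ g, ¬ Reg ℓ g → pj S (fun g => if Reg ℓ g then f g else 0) g = 0 := by
      intro g hg
      rw [pj_apply]
      have : ∀ x, (if Reg ℓ x then f x else 0) * ∑ ψ ∈ S, ψ x⁻¹ * ψ g = 0 := by
        intro x
        by_cases hx : Reg ℓ x
        · rw [hw x g hx hg, mul_zero]
        · rw [if_neg hx, zero_mul]
      simp only [this, Finset.sum_const_zero, mul_zero]
    have h4 : ∀ g, Reg ℓ g → pj S (fun g => if Reg ℓ g then 0 else f g) g = 0 := by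
      intro g hg
      rw [pj_apply]
      have : ∀ x, (if Reg ℓ x then 0 else f x) * ∑ ψ ∈ S, ψ x⁻¹ * ψ g = 0 := by
        intro x
        by_cases hx : Reg ℓ x
        · rw [if_pos hx, zero_mul]
        · have h5 := hw g⁻¹ x⁻¹ (reg_inv.2 hg) (fun h => hx (reg_inv.1 h))
          rw [inv_inv] at h5
          have h6 : ∑ ψ ∈ S, ψ x⁻¹ * ψ g = 0 := by
            rw [← h5]
            exact Finset.sum_congr rfl fun ψ _ => mul_comm _ _
          rw [h6, mul_zero]
      simp only [this, Finset.sum_const_zero, mul_zero]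
    have h5 : (fun g => if Reg ℓ g then f g else 0) =
        pj S (fun g => if Reg ℓ g then f g else 0) := by
      funext g
      by_cases hg : Reg ℓ g
      · rw [if_pos hg]
        conv_lhs => rw [← h1, h2, pj_add, Pi.add_apply]
        rw [h4 g hg, add_zero]
      · rw [if_neg hg, h3 g hg]
    rw [h5]
    exact pj_mem S _
  refine ⟨hi, ?_⟩
  intro χ hχ ψ hψ hψe
  have h1 := hi χ (Submodule.subset_span hχ)
  rw [← hSc] at h1
  have h2 := span_orth hS hψ (fun h => hψe (by rw [← hSc]; exact h)) h1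
  rw [← h2, finsum_eq_sum_of_fintype]
  refine Finset.sum_congr rfl fun s _ => ?_
  rw [← H94.irr_star hψ]
  by_cases hs : Reg ℓ s
  · simp [hs]
  · simp [hs]

end Pool.Agent.PP.K9.H25
end
end -- Pool.Agent.Helper25_K9.ROT

section -- Pool.Agent.Helper25_K9.PRG

/-!
# K9, row PRG: the number `A_χ` for the projective character
-/

open scoped BigOperators

noncomputable section

namespace Pool.Agent.PP.K9.H25

open Pool.Agent.Helper51_AWC Pool.Agent.Helper79_WRA Pool.Agent.PP Pool.Agent.PP.KF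

attribute [local instance] Ideal.Quotient.field

set_option linter.unusedSectionVars false

section eh

variable {G : Type} [Group G] [Fintype G] (M : Ideal (integralClosure ℤ ℂ)) [M.IsMaximal]

theorem eh_eq (e : G → FF M) (g : G) :
    eh M e g = (Fintype.card G : ℂ)⁻¹ * ∑ χ ∈ (irrE_finite M e).toFinset, χ 1 * χ g⁻¹ := by
  unfold eh
  rw [Nat.card_eq_fintype_card, finsum_mem_eq_finite_toFinset_sum _ (irrE_finite M e)]

theorem pr_eq (e : G → FF M) (g : G) :
    pr M e g = ∑ χ ∈ (irrE_finite M e).toFinset, χ 1 * χ g := by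
  unfold pr
  rw [finsum_mem_eq_finite_toFinset_sum _ (irrE_finite M e)]

theorem star_one {χ : G → ℂ} (hχ : χ ∈ Irr G) : starRingEnd ℂ (χ 1) = χ 1 := by
  rw [H94.irr_star hχ, inv_one]

/-- the projective character and the lift of the idempotent -/
theorem star_pr (e : G → FF M) (g : G) :
    starRingEnd ℂ (pr M e g) = Fintype.card G * eh M e g := by
  have hc : (Fintype.card G : ℂ) ≠ 0 := by exact_mod_cast Fintype.card_ne_zero
  rw [pr_eq, eh_eq, ← mul_assoc, mul_inv_cancel₀ hc, one_mul, map_sum]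
  refine Finset.sum_congr rfl fun χ hχ => ?_
  rw [Set.Finite.mem_toFinset] at hχ
  rw [map_mul, H94.irr_star hχ.1, H94.irr_star hχ.1, inv_one]

theorem eh_cl (e : G → FF M) (x y : G) : eh M e (y * x * y⁻¹) = eh M e x := by
  rw [eh_eq, eh_eq]
  congr 1
  refine Finset.sum_congr rfl fun χ hχ => ?_
  rw [Set.Finite.mem_toFinset] at hχ
  have : (y * x * y⁻¹)⁻¹ = y * x⁻¹ * y⁻¹ := by group
  rw [this, irr_conj hχ.1]

open Classical in
theorem eh_chv (e : G → FF M) {χ : G → ℂ} (hχ : χ ∈ Irr G) :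
    ∑ g, eh M e g * χ g = if χ ∈ IrrE M e then χ 1 else 0 := by
  have hc : (Fintype.card G : ℂ) ≠ 0 := by exact_mod_cast Fintype.card_ne_zero
  have h1 : ∑ g, eh M e g * χ g = ∑ ψ ∈ (irrE_finite M e).toFinset,
      (Fintype.card G : ℂ)⁻¹ * (ψ 1 * ∑ g, χ g * ψ g⁻¹) := by
    simp only [eh_eq, Finset.mul_sum, Finset.sum_mul]
    rw [Finset.sum_comm]
    refine Finset.sum_congr rfl fun ψ _ => Finset.sum_congr rfl fun g _ => ?_
    ring
  rw [h1]
  by_cases h : χ ∈ IrrE M e
  · rw [if_pos h, Finset.sum_eq_single_of_mem χ ((Set.Finite.mem_toFinset _).2 h)]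
    · rw [irr_orth_self hχ]
      field_simp
    · intro ψ hψ hne
      rw [Set.Finite.mem_toFinset] at hψ
      rw [irr_orth_ne hχ hψ.1 (Ne.symm hne), mul_zero, mul_zero]
  · rw [if_neg h]
    refine Finset.sum_eq_zero fun ψ hψ => ?_
    rw [Set.Finite.mem_toFinset] at hψ
    rw [irr_orth_ne hχ hψ.1 (fun h' => h (h' ▸ hψ)), mul_zero, mul_zero]

end eh

theorem reg_one {ℓ : ℕ} {G : Type} [Group G] : Reg ℓ (1 : G) := by
  unfold Reg
  rw [orderOf_one]
  exact Nat.coprime_one_left ℓ

/-- (i) -/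
theorem rc_pr (wbo : WboStmt) (ℓ : ℕ) [Fact ℓ.Prime] (M : Ideal (integralClosure ℤ ℂ))
    [M.IsMaximal] (hM : (ℓ : integralClosure ℤ ℂ) ∈ M) (G : Type) [Group G] [Finite G]
    (e : G → FF M) (he : IsIdem e) : Rc ℓ (pr M e) := by
  have := Fintype.ofFinite G
  refine ⟨fun x y => ?_, fun x hx => ?_⟩
  · rw [pr_eq, pr_eq]
    refine Finset.sum_congr rfl fun χ hχ => ?_
    rw [Set.Finite.mem_toFinset] at hχ
    rw [irr_conj hχ.1]
  · have h1 := wbo ℓ M hM G e he 1 x reg_one hx
    rw [inv_one] at h1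
    exact h1

open Classical in
/-- the lift of the image of an idempotent -/
theorem eh_push (psi : PsiStmt) (M : Ideal (integralClosure ℤ ℂ)) [M.IsMaximal] {A B : Type}
    [Group A] [Fintype A] [Group B] [Fintype B] (p : A →* B) (hp : Function.Surjective p)
    (b : A → FF M) (hb : IsCl b) (y : B) :
    eh M (H75.push p b) y = ∑ a : A, if p a = y then eh M b a else 0 := by
  obtain ⟨h1, h2⟩ := psi M A B p hp b hb
  have h3 : (fun y => eh M (H75.push p b) y - ∑ a : A, if p a = y then eh M b a else 0) = 0 := by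
    apply irr_complete
    · intro g h
      rw [eh_cl]
      congr 1
      obtain ⟨k, rfl⟩ := hp h
      rw [← Equiv.sum_comp (MulAut.conj k).toEquiv
        (fun a => if p a = p k * g * (p k)⁻¹ then eh M b a else 0)]
      refine Finset.sum_congr rfl fun a _ => ?_
      have h4 : (MulAut.conj k).toEquiv a = k * a * k⁻¹ := rfl
      rw [h4, eh_cl, map_mul, map_mul, map_inv]
      have h5 : p k * p a * (p k)⁻¹ = p k * g * (p k)⁻¹ ↔ p a = g := by
        rw [mul_left_inj, mul_right_inj]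
      simp only [h5]
    · intro θ hθ
      simp only [sub_mul, Finset.sum_sub_distrib]
      rw [eh_chv M _ hθ]
      have h4 : ∑ y, (∑ a : A, if p a = y then eh M b a else 0) * θ y =
          ∑ a, eh M b a * θ (p a) := by
        simp only [Finset.sum_mul]
        rw [Finset.sum_comm]
        refine Finset.sum_congr rfl fun a _ => ?_
        rw [Finset.sum_eq_single (p a)]
        · rw [if_pos rfl]
        · intro z _ hz
          rw [if_neg (Ne.symm hz), zero_mul]
        · intro h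
          exact absurd (Finset.mem_univ _) h
      rw [h4, eh_chv M b (h2 θ hθ)]
      have h5 : θ ∈ IrrE M (H75.push p b) ↔ (fun a => θ (p a)) ∈ IrrE M b := by
        rw [h1]
        exact ⟨fun h => h.2, fun h => ⟨hθ, h⟩⟩
      simp only [h5, map_one, sub_self]
  exact sub_eq_zero.1 (congrFun h3 y)

theorem eh_sing (wbo : WboStmt) (ℓ : ℕ) [Fact ℓ.Prime] (M : Ideal (integralClosure ℤ ℂ))
    [M.IsMaximal] (hM : (ℓ : integralClosure ℤ ℂ) ∈ M) {G : Type} [Group G] [Fintype G]
    (e : G → FF M) (he : IsIdem e) (x : G) (hx : ¬ Reg ℓ x) : eh M e x = 0 := by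
  unfold eh
  have h1 := wbo ℓ M hM G e he 1 x⁻¹ reg_one (fun h => hx (reg_inv.1 h))
  rw [inv_one] at h1
  rw [h1, mul_zero]

/-- a regular element times a non-trivial element of the central subgroup of order `ℓ` -/
theorem reg_ker {ℓ : ℕ} [Fact ℓ.Prime] {G H : Type} [Group G] [Finite G] [Group H] {u : G}
    {π : Cu u →* H} (hq : Qt ℓ u π) {s c : Cu u} (hs : Reg ℓ s) (hc : Reg ℓ c)
    (h : π c = π s) : c = s := by
  have h1 : π (s⁻¹ * c) = 1 := by rw [map_mul, map_inv, h, inv_mul_cancel]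
  have h2 : ((s⁻¹ * c : Cu u) : G) ∈ Subgroup.zpowers u := (hq.ker _).1 h1
  obtain ⟨j, hj⟩ := h2
  have hcomm : Commute s⁻¹ c := by
    have h3 : Commute s (s⁻¹ * c) := by
      apply Subtype.ext
      have h4 : (s : G) * u = u * s := (Subgroup.mem_centralizer_singleton_iff.1 s.2)
      have h5 : Commute (s : G) (u ^ j) := (show Commute (s : G) u from h4).zpow_right j
      have h6 : ((s⁻¹ * c : Cu u) : G) = u ^ j := hj.symm
      change (s : G) * ((s⁻¹ * c : Cu u) : G) = ((s⁻¹ * c : Cu u) : G) * (s : G)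
      rw [h6]
      exact h5
    have h4 : Commute s c := by
      have h5 : c = s * (s⁻¹ * c) := by group
      rw [h5]
      exact (Commute.refl s).mul_right h3
    exact h4.inv_left
  have h3 : (orderOf (s⁻¹ * c)).Coprime ℓ := by
    have h4 := hcomm.orderOf_mul_dvd_mul_orderOf
    have h5 : (orderOf s⁻¹ * orderOf c).Coprime ℓ :=
      Nat.Coprime.mul_left (by rw [orderOf_inv]; exact hs) hc
    exact Nat.Coprime.coprime_dvd_left h4 h5
  have h4 : (s⁻¹ * c) ^ ℓ = 1 := by
    apply Subtype.ext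
    change ((s⁻¹ * c : Cu u) : G) ^ ℓ = 1
    rw [← hj]
    change (u ^ j) ^ ℓ = 1
    rw [← zpow_natCast, ← zpow_mul, mul_comm, zpow_mul, zpow_natCast, ← hq.ord, pow_orderOf_eq_one,
      one_zpow]
  have h5 : orderOf (s⁻¹ * c) ∣ ℓ := orderOf_dvd_of_pow_eq_one h4
  have h6 : orderOf (s⁻¹ * c) = 1 := Nat.eq_one_of_dvd_coprimes h3 dvd_rfl h5
  rw [orderOf_eq_one_iff] at h6
  exact (inv_mul_eq_one.1 h6).symm

theorem prg (wbo : WboStmt) (psi : PsiStmt) : PrgStmt := by
  classical
  intro ℓ _ M _ hM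
  refine ⟨fun G _ _ e he => rc_pr wbo ℓ M hM G e he, ?_⟩
  intro G H _ _ _ _ u π hq b hb w _ χ _
  have := Fintype.ofFinite G
  have := Fintype.ofFinite H
  have := Fintype.ofFinite (Cu u)
  have hc : (Fintype.card H : ℂ) ≠ 0 := by exact_mod_cast Fintype.card_ne_zero
  have h1 : ∀ s : Cu u, Reg ℓ s → eh M (H75.push π b) (π s) = eh M b s := by
    intro s hs
    rw [eh_push psi M π hq.sur b hb.1, Finset.sum_eq_single s]
    · rw [if_pos rfl]
    · intro c _ hcs
      by_cases hpc : π c = π s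
      · rw [if_pos hpc]
        refine eh_sing wbo ℓ M hM b hb c fun hcr => hcs ?_
        exact reg_ker hq hs hcr hpc
      · rw [if_neg hpc]
    · intro h
      exact absurd (Finset.mem_univ _) h
  unfold Av gbv
  rw [finsum_eq_sum_of_fintype, finsum_eq_sum_of_fintype, Nat.card_eq_fintype_card, Finset.mul_sum]
  refine Finset.sum_congr rfl fun s _ => ?_
  by_cases hs : Reg ℓ s
  · rw [finsum_eq_if, if_pos hs, star_pr, h1 s hs]
    field_simp
  · rw [finsum_eq_if, if_neg hs, mul_zero, eh_sing wbo ℓ M hM b hb s hs, zero_mul]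

end Pool.Agent.PP.K9.H25
end
end -- Pool.Agent.Helper25_K9.PRG

section -- Pool.Agent.Helper27_K9.PRT

/-!
# Squad K9, row PRT: a power which gives the `ℓ'`-part of all elements
-/

noncomputable section

namespace Pool.Agent.PP.K9.H27

open Pool.Agent.PP

theorem prt : PrtStmt := by
  intro ℓ hp G _ _
  have hcard : Nat.card G ≠ 0 := Nat.card_pos.ne'
  obtain ⟨a, m, hm, hG⟩ := Nat.exists_eq_pow_mul_and_not_dvd hcard ℓ hp.out.ne_one
  have hcop : Nat.Coprime ℓ m := (hp.out.coprime_iff_not_dvd).2 hm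
  have hcop' : Nat.Coprime (ℓ ^ a) m := hcop.pow_left a
  obtain ⟨N, hN0, hN1⟩ := Nat.chineseRemainder hcop' 0 1
  have hN0' : ℓ ^ a ∣ N := (Nat.modEq_zero_iff_dvd).1 hN0
  have hord : ∀ g : G, orderOf g ∣ ℓ ^ a * m := fun g => hG ▸ orderOf_dvd_natCard g
  refine ⟨N, fun g => ⟨?_, a, ?_⟩, ?_⟩
  · have h1 : orderOf (g ^ N) ∣ m := by
      apply orderOf_dvd_of_pow_eq_one
      rw [← pow_mul]
      obtain ⟨k, hk⟩ := hN0'
      apply orderOf_dvd_iff_pow_eq_one.1
      refine (hord g).trans ?_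
      rw [hk]
      exact ⟨k, by ring⟩
    exact (Nat.Coprime.coprime_dvd_left h1 hcop.symm)
  · have hc : Commute (g ^ N)⁻¹ g := ((Commute.refl g).pow_left N).inv_left
    rw [hc.mul_pow, inv_pow, inv_mul_eq_one, ← pow_mul, pow_eq_pow_iff_modEq]
    apply Nat.ModEq.of_dvd (hord g)
    rw [mul_comm (ℓ ^ a) m]
    have h1 : N * ℓ ^ a ≡ 1 * ℓ ^ a [MOD m * ℓ ^ a] := Nat.ModEq.mul_right' (ℓ ^ a) hN1
    rwa [one_mul] at h1
  · rintro x y hxy hx ⟨n, hy⟩
    rw [hxy.mul_pow]
    have h1 : y ^ N = 1 := by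
      apply orderOf_dvd_iff_pow_eq_one.1
      have h2 : orderOf y ∣ ℓ ^ n := orderOf_dvd_of_pow_eq_one hy
      have h3 : Nat.Coprime (orderOf y) m := Nat.Coprime.coprime_dvd_left h2 (hcop.pow_left n)
      exact (h3.dvd_of_dvd_mul_right (hord y)).trans hN0'
    have h2 : x ^ N = x := by
      conv_rhs => rw [← pow_one x]
      rw [pow_eq_pow_iff_modEq]
      have h3 : Nat.Coprime (orderOf x) (ℓ ^ a) := Nat.Coprime.pow_right a hx
      exact Nat.ModEq.of_dvd (h3.dvd_of_dvd_mul_left (hord x)) hN1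
    rw [h1, h2, mul_one]

end Pool.Agent.PP.K9.H27
end
end -- Pool.Agent.Helper27_K9.PRT

section -- Pool.Agent.Helper48_KF.Trm

/-!
# KF_TRM: an involution on a projective lattice whose reduction is free has trace zero
-/

set_option autoImplicit false

open scoped BigOperators

noncomputable section

namespace Pool.Agent.PP.KF.H48

open Pool.Agent.Helper51_AWC Pool.Agent.Helper79_WRA Pool.Agent.PP Pool.Agent.PP.KF

/-- The rank does not increase under reduction. -/
theorem rank_red {R K F : Type*} [CommRing R] [Field K] [Field F] (i : R →+* K)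
    (hi : Function.Injective i) (q : R →+* F) (hq : Function.Surjective q) {n : Type*} [Fintype n]
    [DecidableEq n] (A : Matrix n n R) : (A.map q).rank ≤ (A.map i).rank := by
  classical
  set f : (n → F) →ₗ[F] (n → F) := (A.map q).mulVecLin with hf
  set r : ℕ := (A.map q).rank with hr
  have hr' : Module.finrank F (LinearMap.range f) = r := rfl
  let e : (Fin r → F) ≃ₗ[F] LinearMap.range f :=
    LinearEquiv.ofFinrankEq _ _ (by rw [hr', Module.finrank_fin_fun])
  obtain ⟨g, hg⟩ := LinearMap.exists_rightInverse_of_surjective f.rangeRestrict f.range_rangeRestrict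
  let x : (Fin r → F) →ₗ[F] (n → F) := g ∘ₗ e.toLinearMap
  have hx : f ∘ₗ x = (LinearMap.range f).subtype ∘ₗ e.toLinearMap := by
    ext v j
    have h1 := LinearMap.congr_fun hg (e (Pi.single v 1))
    have h2 := congrArg (fun z : LinearMap.range f => (z : n → F) j) h1
    simpa [x] using h2
  have hinj : LinearMap.ker (f ∘ₗ x) = ⊥ := by
    rw [hx]
    refine LinearMap.ker_eq_bot.2 ?_
    exact (Submodule.subtype_injective _).comp e.injective
  obtain ⟨y, hy⟩ := (f ∘ₗ x).exists_leftInverse_of_injective hinj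
  -- matrices
  have hXY : LinearMap.toMatrix' y * (A.map q) * LinearMap.toMatrix' x = 1 := by
    have h1 : LinearMap.toMatrix' (y ∘ₗ f ∘ₗ x) = 1 := by rw [hy, LinearMap.toMatrix'_id]
    rw [LinearMap.toMatrix'_comp, LinearMap.toMatrix'_comp] at h1
    have h2 : LinearMap.toMatrix' f = A.map q := by
      rw [hf, ← Matrix.toLin'_apply', LinearMap.toMatrix'_toLin']
    rw [h2] at h1
    rw [Matrix.mul_assoc]
    exact h1
  choose s hs using hq
  set X : Matrix n (Fin r) R := (LinearMap.toMatrix' x).map s with hX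
  set Y : Matrix (Fin r) n R := (LinearMap.toMatrix' y).map s with hY
  have hX1 : X.map q = LinearMap.toMatrix' x := by
    ext a b
    simp [hX, hs]
  have hY1 : Y.map q = LinearMap.toMatrix' y := by
    ext a b
    simp [hY, hs]
  have hdet : q (Y * A * X).det = 1 := by
    rw [RingHom.map_det, RingHom.mapMatrix_apply, Matrix.map_mul, Matrix.map_mul, hX1, hY1, hXY,
      Matrix.det_one]
  have hdet2 : i (Y * A * X).det ≠ 0 := by
    intro h
    have h0 : (Y * A * X).det = 0 := hi (by rw [h, map_zero])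
    rw [h0, map_zero] at hdet
    exact zero_ne_one hdet
  have hU : IsUnit ((Y.map i) * (A.map i) * (X.map i)) := by
    rw [Matrix.isUnit_iff_isUnit_det, isUnit_iff_ne_zero]
    rw [← Matrix.map_mul, ← Matrix.map_mul, ← RingHom.mapMatrix_apply, ← RingHom.map_det]
    exact hdet2
  have h3 := Matrix.rank_of_isUnit _ hU
  rw [Fintype.card_fin] at h3
  calc r = ((Y.map i) * (A.map i) * (X.map i)).rank := h3.symm
    _ ≤ ((Y.map i) * (A.map i)).rank := Matrix.rank_mul_le_left _ _
    _ ≤ (A.map i).rank := Matrix.rank_mul_le_right _ _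

/-- The trace of an idempotent matrix is its rank. -/
theorem trace_idem {n : Type*} [Fintype n] [DecidableEq n] {K : Type*} [Field K] {Q : Matrix n n K}
    (hQ : Q * Q = Q) : Q.trace = (Q.rank : K) := by
  have h1 : IsIdempotentElem (Matrix.toLin' Q) := by
    unfold IsIdempotentElem
    rw [Module.End.mul_eq_comp, ← Matrix.toLin'_mul, hQ]
  have h2 := (LinearMap.IsIdempotentElem.isProj_range _ h1).trace
  rw [Matrix.trace_toLin'_eq] at h2
  exact h2

/-- rank of an idempotent and of its complement -/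
theorem rank_idem_compl {n : Type*} [Fintype n] [DecidableEq n] {K : Type*} [Field K]
    {Q : Matrix n n K} (hQ : Q * Q = Q) : Q.rank + (1 - Q).rank = Fintype.card n := by
  have h1 := LinearMap.finrank_range_add_finrank_ker Q.mulVecLin
  have h2 : LinearMap.ker Q.mulVecLin = LinearMap.range (1 - Q).mulVecLin := by
    ext v
    rw [LinearMap.mem_ker, LinearMap.mem_range, Matrix.mulVecLin_apply]
    constructor
    · intro h
      refine ⟨v, ?_⟩
      rw [Matrix.mulVecLin_apply, Matrix.sub_mulVec, Matrix.one_mulVec, h, sub_zero]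
    · rintro ⟨w, rfl⟩
      rw [Matrix.mulVecLin_apply, Matrix.mulVec_mulVec, Matrix.mul_sub, Matrix.mul_one, hQ, sub_self,
        Matrix.zero_mulVec]
  rw [h2, Module.finrank_fintype_fun_eq_card] at h1
  exact h1

/-- Over a field of characteristic two: if the kernel of `1 + U` on the image of `P` is contained
in the image of `1 + U` on the image of `P`, then `P` has at most twice the rank of `(1 + U) P`. -/
theorem rank_char2 {n : Type*} [Fintype n] [DecidableEq n] {F : Type*} [Field F] (h2 : (2 : F) = 0)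
    {P U : Matrix n n F} (hP : P * P = P)
    (H : ∀ v : n → F, P.mulVec v = v → U.mulVec v = v →
      ∃ w, P.mulVec w = w ∧ v = w + U.mulVec w) : P.rank ≤ 2 * ((1 + U) * P).rank := by
  -- `g = 1 + U` on the range of `P`
  set V : Submodule F (n → F) := LinearMap.range P.mulVecLin with hV
  have hmem : ∀ v : n → F, v ∈ V ↔ P.mulVec v = v := by
    intro v
    constructor
    · rintro ⟨w, rfl⟩
      rw [Matrix.mulVecLin_apply, Matrix.mulVec_mulVec, hP]
    · intro h
      exact ⟨v, h⟩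
  let g : V →ₗ[F] (n → F) := (1 + U).mulVecLin ∘ₗ V.subtype
  have hg : ∀ v : V, g v = (v : n → F) + U.mulVec (v : n → F) := by
    intro v
    change (1 + U).mulVec (v : n → F) = _
    rw [Matrix.add_mulVec, Matrix.one_mulVec]
  have h3 := LinearMap.finrank_range_add_finrank_ker g
  have hrange : LinearMap.range g = LinearMap.range ((1 + U) * P).mulVecLin := by
    rw [Matrix.mulVecLin_mul, LinearMap.range_comp, LinearMap.range_comp, Submodule.range_subtype]
  have hker : Module.finrank F (LinearMap.ker g) ≤ Module.finrank F (LinearMap.range g) := by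
    have h4 : (LinearMap.ker g).map V.subtype ≤ LinearMap.range g := by
      rintro _ ⟨v, hv, rfl⟩
      have hv0 : g v = 0 := hv
      rw [hg] at hv0
      have hv1 : U.mulVec (v : n → F) = v := by
        funext j
        have h5 := congrFun hv0 j
        rw [Pi.add_apply, Pi.zero_apply] at h5
        have h6 : (v : n → F) j + (v : n → F) j = 0 := by
          rw [← two_mul, h2, zero_mul]
        exact add_left_cancel (h5.trans h6.symm)
      obtain ⟨w, hw1, hw2⟩ := H v ((hmem _).1 v.2) hv1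
      exact ⟨⟨w, (hmem w).2 hw1⟩, (hg _).trans hw2.symm⟩
    have h5 := Submodule.finrank_mono h4
    rwa [LinearEquiv.finrank_eq (Submodule.equivMapOfInjective V.subtype
      (Submodule.subtype_injective V) (LinearMap.ker g)).symm] at h5
  have h6 : Module.finrank F V = P.rank := rfl
  have h7 : Module.finrank F (LinearMap.range g) = ((1 + U) * P).rank := by
    rw [hrange]
    rfl
  omega

theorem trm : TrmStmt := by
  intro M hM h2M n _ _ P U hPR hUR hP hU hUP H
  classical
  let _ : Field (FF M) := Ideal.Quotient.field M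
  -- matrices over the local ring
  let P' : Matrix n n (RM M) := fun i j => ⟨P i j, hPR i j⟩
  let U' : Matrix n n (RM M) := fun i j => ⟨U i j, hUR i j⟩
  let ι : RM M →+* ℂ := (RM M).subtype
  have hι : Function.Injective ι := Subtype.val_injective
  have hq : Function.Surjective (rrHom M) := by
    intro c
    obtain ⟨z, hz, h⟩ := rr_surj c
    exact ⟨⟨z, hz⟩, h⟩
  have eP : P'.map ι = P := rfl
  have eU : U'.map ι = U := rfl
  have fP : P'.map (rrHom M) = P.map (rr M) := rfl
  have fU : U'.map (rrHom M) = U.map (rr M) := rfl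
  have hinjM : Function.Injective fun A : Matrix n n (RM M) => A.map ι := by
    intro A B h
    ext i j
    exact congrFun (congrFun h i) j
  have hP' : P' * P' = P' := by
    apply hinjM
    change (P' * P').map ι = P'.map ι
    rw [Matrix.map_mul, eP, hP]
  set Pb : Matrix n n (FF M) := P'.map (rrHom M) with hPb
  set Ub : Matrix n n (FF M) := U'.map (rrHom M) with hUb
  have hPb1 : Pb * Pb = Pb := by rw [hPb, ← Matrix.map_mul, hP']
  have h2 : (2 : FF M) = 0 := by
    have := Ideal.Quotient.eq_zero_iff_mem.2 h2M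
    rwa [map_ofNat] at this
  -- ranks
  have a1 : Pb.rank ≤ P.rank := by rw [← eP]; exact rank_red ι hι (rrHom M) hq P'
  have a2 : (1 - Pb).rank ≤ (1 - P).rank := by
    have := rank_red ι hι (rrHom M) hq (1 - P')
    rw [Matrix.map_sub _ (map_sub _), Matrix.map_sub _ (map_sub _), Matrix.map_one _ (map_zero ι)
      (map_one ι), Matrix.map_one _ (map_zero _) (map_one _)] at this
    exact this
  have a3 := rank_idem_compl hPb1
  have a4 := rank_idem_compl hP
  have a5 : P.rank = Pb.rank := by omega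
  have a6 : Pb.rank ≤ 2 * ((1 + Ub) * Pb).rank := rank_char2 h2 hPb1 H
  have a7 : ((1 + Ub) * Pb).rank ≤ ((1 + U) * P).rank := by
    have := rank_red ι hι (rrHom M) hq ((1 + U') * P')
    rw [Matrix.map_mul, Matrix.map_mul, Matrix.map_add _ (map_add _), Matrix.map_add _ (map_add _),
      Matrix.map_one _ (map_zero ι) (map_one ι), Matrix.map_one _ (map_zero _) (map_one _)] at this
    exact this
  have a8 : ((1 + Ub) * Pb).rank ≤ ((1 - U) * P).rank := by
    have := rank_red ι hι (rrHom M) hq ((1 - U') * P')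
    rw [Matrix.map_mul, Matrix.map_mul, Matrix.map_sub _ (map_sub _), Matrix.map_sub _ (map_sub _),
      Matrix.map_one _ (map_zero ι) (map_one ι), Matrix.map_one _ (map_zero _) (map_one _)] at this
    have e : (1 : Matrix n n (FF M)) - Ub = 1 + Ub := by
      rw [sub_eq_add_neg]
      refine congrArg _ ?_
      ext i j
      have h5 : Ub i j + Ub i j = 0 := by rw [← two_mul, h2, zero_mul]
      exact (neg_eq_of_add_eq_zero_left h5)
    rw [← e]
    exact this
  -- the two idempotents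
  have b1 : ((1 / 2 : ℂ) • ((1 + U) * P)) * ((1 / 2 : ℂ) • ((1 + U) * P)) =
      (1 / 2 : ℂ) • ((1 + U) * P) := by
    have e : ((1 + U) * P) * ((1 + U) * P) = (2 : ℂ) • ((1 + U) * P) := by
      calc ((1 + U) * P) * ((1 + U) * P) = (1 + U) * ((P + P * U) * P) := by noncomm_ring
        _ = (1 + U) * ((P + U * P) * P) := by rw [hUP]
        _ = (1 + U + U + U * U) * (P * P) := by noncomm_ring
        _ = (2 : ℂ) • ((1 + U) * P) := by
          rw [hU, hP, two_smul]
          noncomm_ring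
    rw [Matrix.smul_mul, Matrix.mul_smul, e, smul_smul, smul_smul]
    norm_num
  have b2 : ((1 / 2 : ℂ) • ((1 - U) * P)) * ((1 / 2 : ℂ) • ((1 - U) * P)) =
      (1 / 2 : ℂ) • ((1 - U) * P) := by
    have e : ((1 - U) * P) * ((1 - U) * P) = (2 : ℂ) • ((1 - U) * P) := by
      calc ((1 - U) * P) * ((1 - U) * P) = (1 - U) * ((P - P * U) * P) := by noncomm_ring
        _ = (1 - U) * ((P - U * P) * P) := by rw [hUP]
        _ = (1 - U - U + U * U) * (P * P) := by noncomm_ring
        _ = (2 : ℂ) • ((1 - U) * P) := by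
          rw [hU, hP, two_smul]
          noncomm_ring
    rw [Matrix.smul_mul, Matrix.mul_smul, e, smul_smul, smul_smul]
    norm_num
  have c1 := trace_idem b1
  have c2 := trace_idem b2
  have c3 := trace_idem hP
  have d1 : ((1 / 2 : ℂ) • ((1 + U) * P)).rank = ((1 + U) * P).rank :=
    Matrix.rank_smul_of_mem_nonZeroDivisors _ (mem_nonZeroDivisors_of_ne_zero (by norm_num))
  have d2 : ((1 / 2 : ℂ) • ((1 - U) * P)).rank = ((1 - U) * P).rank :=
    Matrix.rank_smul_of_mem_nonZeroDivisors _ (mem_nonZeroDivisors_of_ne_zero (by norm_num))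
  rw [d1] at c1
  rw [d2] at c2
  have e1 : (1 / 2 : ℂ) • ((1 + U) * P) + (1 / 2 : ℂ) • ((1 - U) * P) = P := by
    rw [← smul_add]
    have : (1 + U) * P + (1 - U) * P = (2 : ℂ) • P := by
      rw [two_smul]
      noncomm_ring
    rw [this, smul_smul]
    norm_num
  have e2 : (1 / 2 : ℂ) • ((1 + U) * P) - (1 / 2 : ℂ) • ((1 - U) * P) = U * P := by
    rw [← smul_sub]
    have : (1 + U) * P - (1 - U) * P = (2 : ℂ) • (U * P) := by
      rw [two_smul]
      noncomm_ring
    rw [this, smul_smul]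
    norm_num
  have e3 : (((1 + U) * P).rank : ℂ) + (((1 - U) * P).rank : ℂ) = (P.rank : ℂ) := by
    rw [← c1, ← c2, ← c3, ← Matrix.trace_add, e1]
  have e4 : ((1 + U) * P).rank + ((1 - U) * P).rank = P.rank := by exact_mod_cast e3
  have e5 : ((1 + U) * P).rank = ((1 - U) * P).rank := by omega
  rw [← e2, Matrix.trace_sub, c1, c2, e5, sub_self]

end Pool.Agent.PP.KF.H48
end
end -- Pool.Agent.Helper48_KF.Trm

section -- Pool.Agent.Helper53_K9.Tra

/-!
# K9_TRA: an automorphism of order `ℓ ^ a` on a projective lattice whose reduction is free has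
trace zero
-/

set_option autoImplicit false

open scoped BigOperators

noncomputable section

namespace Pool.Agent.PP.K9.H53

open Pool.Agent.Helper51_AWC Pool.Agent.Helper79_WRA Pool.Agent.PP Pool.Agent.PP.KF

/-- the kernel of a power of an endomorphism -/
theorem finrank_ker_pow {F : Type*} [Field F] {W : Type*} [AddCommGroup W] [Module F W]
    [FiniteDimensional F W] (T : W →ₗ[F] W) (k : ℕ) :
    Module.finrank F (LinearMap.ker (T ^ k)) ≤ k * Module.finrank F (LinearMap.ker T) := by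
  induction k with
  | zero =>
    rw [pow_zero, zero_mul, Module.End.one_eq_id, LinearMap.ker_id, finrank_bot]
  | succ k ih =>
    let g : LinearMap.ker (T ^ (k + 1)) →ₗ[F] W := (T ^ k) ∘ₗ (LinearMap.ker (T ^ (k + 1))).subtype
    have h1 := LinearMap.finrank_range_add_finrank_ker g
    have h2 : LinearMap.range g ≤ LinearMap.ker T := by
      rintro _ ⟨⟨v, hv⟩, rfl⟩
      rw [LinearMap.mem_ker] at hv ⊢
      rw [pow_succ'] at hv
      exact hv
    have h3 : (LinearMap.ker g).map (LinearMap.ker (T ^ (k + 1))).subtype ≤ LinearMap.ker (T ^ k) := by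
      rintro _ ⟨v, hv, rfl⟩
      exact hv
    have h4 := Submodule.finrank_mono h2
    have h5 := Submodule.finrank_mono h3
    rw [LinearEquiv.finrank_eq (Submodule.equivMapOfInjective
      (LinearMap.ker (T ^ (k + 1))).subtype
      (Submodule.subtype_injective _) (LinearMap.ker g)).symm] at h5
    rw [add_mul, one_mul]
    omega

/-- a nilpotent endomorphism -/
theorem finrank_nil {F : Type*} [Field F] {W : Type*} [AddCommGroup W] [Module F W]
    [FiniteDimensional F W] (T : W →ₗ[F] W) (q : ℕ) (hT : T ^ q = 0) :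
    Module.finrank F W ≤ q * Module.finrank F (LinearMap.ker T) := by
  have h1 := finrank_ker_pow T q
  rw [hT, LinearMap.ker_zero, finrank_top] at h1
  exact h1

/-- If the kernel of `U - 1` on the image of `P` is contained
in the image of `∑ U ^ i` on the image of `P`, then `P` has at most `q` times the rank of
`(∑ U ^ i) P`. -/
theorem rank_charl {n : Type*} [Fintype n] [DecidableEq n] {F : Type*} [Field F] (l : ℕ)
    [Fact l.Prime] [CharP F l] (a : ℕ) {P U : Matrix n n F} (hP : P * P = P) (hU : U ^ l ^ a = 1)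
    (hUP : U * P = P * U)
    (H : ∀ v : n → F, P.mulVec v = v → U.mulVec v = v →
      ∃ w, P.mulVec w = w ∧ v = ∑ i ∈ Finset.range (l ^ a), (U ^ i).mulVec w) :
    P.rank ≤ l ^ a * ((∑ i ∈ Finset.range (l ^ a), U ^ i) * P).rank := by
  set V : Submodule F (n → F) := LinearMap.range P.mulVecLin with hV
  have hmem : ∀ v : n → F, v ∈ V ↔ P.mulVec v = v := by
    intro v
    constructor
    · rintro ⟨w, rfl⟩
      rw [Matrix.mulVecLin_apply, Matrix.mulVec_mulVec, hP]
    · intro h
      exact ⟨v, h⟩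
  have hUV : ∀ v ∈ V, U.mulVecLin v ∈ V := by
    intro v hv
    rw [hmem] at hv ⊢
    rw [Matrix.mulVecLin_apply, Matrix.mulVec_mulVec, ← hUP, ← Matrix.mulVec_mulVec, hv]
  let UV : V →ₗ[F] V := U.mulVecLin.restrict hUV
  have hUVk : ∀ (k : ℕ) (v : V), ((UV ^ k) v : n → F) = (U ^ k).mulVec (v : n → F) := by
    intro k
    induction k with
    | zero =>
      intro v
      rw [pow_zero, pow_zero, Matrix.one_mulVec, Module.End.one_apply]
    | succ k ih =>
      intro v
      rw [pow_succ, pow_succ, Module.End.mul_apply, ih, ← Matrix.mulVec_mulVec]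
      rfl
  have hUVq : UV ^ l ^ a = 1 := by
    refine LinearMap.ext fun v => Subtype.ext ?_
    rw [hUVk, hU, Matrix.one_mulVec, Module.End.one_apply]
  have hnil : (UV - 1) ^ l ^ a = 0 := by
    have h1 : ((Polynomial.X : Polynomial F) - 1) ^ l ^ a = Polynomial.X ^ l ^ a - 1 ^ l ^ a :=
      sub_pow_char_pow_of_commute _ _ (Commute.all _ _)
    have h2 := congrArg (Polynomial.aeval UV) h1
    rw [map_pow, map_sub, map_sub, map_pow, Polynomial.aeval_X, map_one, one_pow, map_one, hUVq,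
      sub_self] at h2
    exact h2
  have h1 := finrank_nil (UV - 1) _ hnil
  have h6 : Module.finrank F V = P.rank := rfl
  rw [h6] at h1
  refine h1.trans (Nat.mul_le_mul_left _ ?_)
  have h4 : (LinearMap.ker (UV - 1)).map V.subtype ≤
      LinearMap.range ((∑ i ∈ Finset.range (l ^ a), U ^ i) * P).mulVecLin := by
    rintro _ ⟨v, hv, rfl⟩
    have hv0 : (UV - 1) v = 0 := hv
    have hv1 : U.mulVec (v : n → F) = v := by
      have h5 := congrArg (fun z : V => (z : n → F)) hv0
      have h7 : ((UV - 1) v : V) = UV v - v := rfl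
      simp only [h7] at h5
      exact sub_eq_zero.1 h5
    obtain ⟨w, hw1, hw2⟩ := H v ((hmem _).1 v.2) hv1
    refine ⟨w, ?_⟩
    rw [Matrix.mulVecLin_apply, ← Matrix.mulVec_mulVec, hw1, Matrix.sum_mulVec]
    exact hw2.symm
  have h5 := Submodule.finrank_mono h4
  rwa [LinearEquiv.finrank_eq (Submodule.equivMapOfInjective V.subtype
    (Submodule.subtype_injective V) (LinearMap.ker (UV - 1))).symm] at h5

/-- sums of powers -/
theorem geo_mul {A : Type*} [Ring A] (x : A) (q : ℕ) (hx : x ^ q = 1) :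
    x * (∑ i ∈ Finset.range q, x ^ i) = ∑ i ∈ Finset.range q, x ^ i := by
  have h1 := mul_geom_sum x q
  rw [hx, sub_self, sub_mul, one_mul] at h1
  exact sub_eq_zero.1 h1

theorem geo_sq {A : Type*} [Ring A] (x : A) (q : ℕ) (hx : x ^ q = 1) :
    (∑ i ∈ Finset.range q, x ^ i) * (∑ i ∈ Finset.range q, x ^ i) =
      q • ∑ i ∈ Finset.range q, x ^ i := by
  have h1 : ∀ k : ℕ, x ^ k * (∑ i ∈ Finset.range q, x ^ i) = ∑ i ∈ Finset.range q, x ^ i := by
    intro k
    induction k with
    | zero => rw [pow_zero, one_mul]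
    | succ k ih => rw [pow_succ, mul_assoc, geo_mul x q hx, ih]
  rw [Finset.sum_mul, Finset.sum_congr rfl fun i _ => h1 i, Finset.sum_const, Finset.card_range]

theorem map_geo {R K : Type*} [CommRing R] [CommRing K] (φ : R →+* K) {n : Type*} [Fintype n]
    [DecidableEq n] (z : R) (U P : Matrix n n R) (q : ℕ) :
    ((∑ k ∈ Finset.range q, (z • U) ^ k) * P).map φ =
      (∑ k ∈ Finset.range q, (φ z • U.map φ) ^ k) * P.map φ := by
  have h1 : φ.mapMatrix (z • U) = φ z • U.map φ := by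
    ext i j
    simp
  have h2 : ((∑ k ∈ Finset.range q, (z • U) ^ k) * P).map φ =
      φ.mapMatrix ((∑ k ∈ Finset.range q, (z • U) ^ k) * P) := rfl
  rw [h2, map_mul, map_sum]
  simp only [map_pow, h1]
  rfl

theorem root_sum {ω : ℂ} {q : ℕ} (hω : IsPrimitiveRoot ω q) {k : ℕ} (hk : k < q) (hk0 : k ≠ 0) :
    ∑ j ∈ Finset.range q, (ω ^ j) ^ k = 0 := by
  have h1 : ω ^ k ≠ 1 := hω.pow_ne_one_of_pos_of_lt hk0 hk
  have h2 := mul_geom_sum (ω ^ k) q
  rw [← pow_mul, mul_comm k q, pow_mul, hω.pow_eq_one, one_pow, sub_self] at h2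
  rcases mul_eq_zero.1 h2 with h3 | h3
  · exact absurd (sub_eq_zero.1 h3) h1
  · rw [← h3]
    refine Finset.sum_congr rfl fun j _ => ?_
    rw [← pow_mul, ← pow_mul, mul_comm]

theorem tra : TraStmt := by
  intro l hl M hM hlM n _ _ P U a ha hPR hUR hP hU hUP H
  classical
  let _ : Field (FF M) := Ideal.Quotient.field M
  have hl0 : (l : FF M) = 0 := by
    have := Ideal.Quotient.eq_zero_iff_mem.2 hlM
    rwa [map_natCast] at this
  have hchar : CharP (FF M) l := (CharP.charP_iff_prime_eq_zero hl.out).2 hl0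
  set q : ℕ := l ^ a with hq
  have hq0 : q ≠ 0 := pow_ne_zero _ hl.out.ne_zero
  have hq1 : 1 < q := Nat.one_lt_pow ha.ne' hl.out.one_lt
  have hqC : (q : ℂ) ≠ 0 := Nat.cast_ne_zero.2 hq0
  have hω := Complex.isPrimitiveRoot_exp q hq0
  set ω : ℂ := Complex.exp (2 * Real.pi * Complex.I / q) with hωd
  -- matrices over the local ring
  let P' : Matrix n n (RM M) := fun i j => ⟨P i j, hPR i j⟩
  let U' : Matrix n n (RM M) := fun i j => ⟨U i j, hUR i j⟩
  let ι : RM M →+* ℂ := (RM M).subtype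
  have hι : Function.Injective ι := Subtype.val_injective
  have hqs : Function.Surjective (rrHom M) := by
    intro c
    obtain ⟨z, hz, h⟩ := rr_surj c
    exact ⟨⟨z, hz⟩, h⟩
  have eP : P'.map ι = P := rfl
  have eU : U'.map ι = U := rfl
  have fP : P'.map (rrHom M) = P.map (rr M) := rfl
  have fU : U'.map (rrHom M) = U.map (rr M) := rfl
  have hinjM : Function.Injective fun A : Matrix n n (RM M) => A.map ι := by
    intro A B h
    ext i j
    exact congrFun (congrFun h i) j
  have hP' : P' * P' = P' := by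
    apply hinjM
    change (P' * P').map ι = P'.map ι
    rw [Matrix.map_mul, eP, hP]
  have hUP' : U' * P' = P' * U' := by
    apply hinjM
    change (U' * P').map ι = (P' * U').map ι
    rw [Matrix.map_mul, Matrix.map_mul, eP, eU, hUP]
  have hU' : U' ^ q = 1 := by
    apply hinjM
    change ι.mapMatrix (U' ^ q) = ι.mapMatrix 1
    rw [map_pow, map_one]
    exact hU
  set Pb : Matrix n n (FF M) := P'.map (rrHom M) with hPb
  set Ub : Matrix n n (FF M) := U'.map (rrHom M) with hUb
  have hPb1 : Pb * Pb = Pb := by rw [hPb, ← Matrix.map_mul, hP']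
  have hUPb : Ub * Pb = Pb * Ub := by rw [hPb, hUb, ← Matrix.map_mul, ← Matrix.map_mul, hUP']
  have hUb1 : Ub ^ q = 1 := by
    change ((rrHom M).mapMatrix U') ^ q = 1
    rw [← map_pow, hU', map_one]
  -- the root of unity
  have hωR : ω ∈ RM M := by
    refine RM_of_int ?_
    refine ⟨Polynomial.X ^ q - 1, Polynomial.monic_X_pow_sub_C 1 hq0, ?_⟩
    simp [hω.pow_eq_one]
  let ω' : RM M := ⟨ω, hωR⟩
  have hω'1 : ω' ^ q = 1 := by
    apply hι
    rw [map_pow, map_one]
    exact hω.pow_eq_one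
  have hω2 : rrHom M ω' = 1 := by
    have h1 : (rrHom M ω' - 1) ^ l ^ a = (rrHom M ω') ^ l ^ a - 1 ^ l ^ a :=
      sub_pow_char_pow_of_commute _ _ (Commute.all _ _)
    rw [← map_pow, hω'1, map_one, one_pow, sub_self] at h1
    exact sub_eq_zero.1 (pow_eq_zero_iff (pow_ne_zero _ hl.out.ne_zero) |>.1 h1)
  -- the projections
  let N : ℂ → Matrix n n ℂ := fun z => (∑ k ∈ Finset.range q, (z • U) ^ k) * P
  have hzU : ∀ z : ℂ, z ^ q = 1 → (z • U) ^ q = 1 := by
    intro z hz
    rw [smul_pow, hz, hU, one_smul]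
  have hN2 : ∀ z : ℂ, z ^ q = 1 → N z * N z = (q : ℂ) • N z := by
    intro z hz
    have h1 : Commute P (∑ k ∈ Finset.range q, (z • U) ^ k) := by
      refine Commute.sum_right _ _ _ fun k _ => ?_
      refine Commute.pow_right ?_ k
      exact Commute.smul_right (hUP.symm) z
    have h2 := geo_sq (z • U) q (hzU z hz)
    change ((∑ k ∈ Finset.range q, (z • U) ^ k) * P) * ((∑ k ∈ Finset.range q, (z • U) ^ k) * P) =
      (q : ℂ) • ((∑ k ∈ Finset.range q, (z • U) ^ k) * P)
    rw [mul_assoc, ← mul_assoc P, h1.eq, mul_assoc, hP, ← mul_assoc, h2, smul_mul_assoc,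
      Nat.cast_smul_eq_nsmul]
  have hUN : ∀ z : ℂ, z ^ q = 1 → U * N z = z⁻¹ • N z := by
    intro z hz
    have hz0 : z ≠ 0 := by
      intro h
      rw [h, zero_pow hq0] at hz
      exact zero_ne_one hz
    have h1 := geo_mul (z • U) q (hzU z hz)
    have h2 : z • (U * N z) = N z := by
      change z • (U * ((∑ k ∈ Finset.range q, (z • U) ^ k) * P)) =
        (∑ k ∈ Finset.range q, (z • U) ^ k) * P
      rw [← mul_assoc, ← smul_mul_assoc, ← smul_mul_assoc, h1]
    rw [← h2, smul_smul, inv_mul_cancel₀ hz0, one_smul]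
    rw [h2]
  have hrk : ∀ z : ℂ, z ^ q = 1 → (N z).trace = (q : ℂ) * ((N z).rank : ℂ) := by
    intro z hz
    have h1 : ((q : ℂ)⁻¹ • N z) * ((q : ℂ)⁻¹ • N z) = (q : ℂ)⁻¹ • N z := by
      rw [Matrix.smul_mul, Matrix.mul_smul, hN2 z hz, smul_smul, smul_smul]
      congr 1
      field_simp
    have h2 := KF.H48.trace_idem h1
    have h3 : ((q : ℂ)⁻¹ • N z).rank = (N z).rank :=
      Matrix.rank_smul_of_mem_nonZeroDivisors _
        (mem_nonZeroDivisors_of_ne_zero (inv_ne_zero hqC))
    rw [h3, Matrix.trace_smul, smul_eq_mul] at h2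
    rw [← h2, ← mul_assoc, mul_inv_cancel₀ hqC, one_mul]
  -- the ranks
  set r : ℕ := ((∑ i ∈ Finset.range q, Ub ^ i) * Pb).rank with hr
  have hle : ∀ j : ℕ, r ≤ (N (ω ^ j)).rank := by
    intro j
    have h1 := KF.H48.rank_red ι hι (rrHom M) hqs
      ((∑ k ∈ Finset.range q, ((ω' ^ j) • U') ^ k) * P')
    rw [map_geo, map_geo, map_pow, hω2, one_pow, one_smul, map_pow] at h1
    exact h1
  have a1 : Pb.rank ≤ P.rank := by rw [← eP]; exact KF.H48.rank_red ι hι (rrHom M) hqs P'
  have a2 : (1 - Pb).rank ≤ (1 - P).rank := by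
    have := KF.H48.rank_red ι hι (rrHom M) hqs (1 - P')
    rw [Matrix.map_sub _ (map_sub _), Matrix.map_sub _ (map_sub _), Matrix.map_one _ (map_zero ι)
      (map_one ι), Matrix.map_one _ (map_zero _) (map_one _)] at this
    exact this
  have a3 := KF.H48.rank_idem_compl hPb1
  have a4 := KF.H48.rank_idem_compl hP
  have a5 : P.rank = Pb.rank := by omega
  have a6 : Pb.rank ≤ q * r := by
    refine rank_charl l a hPb1 hUb1 hUPb ?_
    intro v h1 h2
    obtain ⟨w, hw1, hw2⟩ := H v h1 h2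
    exact ⟨w, hw1, hw2⟩
  -- the sum of the projections
  have hωj : ∀ j : ℕ, (ω ^ j) ^ q = 1 := by
    intro j
    rw [← pow_mul, mul_comm, pow_mul, hω.pow_eq_one, one_pow]
  have hsum : ∑ j ∈ Finset.range q, N (ω ^ j) = (q : ℂ) • P := by
    have h1 : ∀ j ∈ Finset.range q, N (ω ^ j) =
        (∑ k ∈ Finset.range q, ((ω ^ j) ^ k) • U ^ k) * P := by
      intro j _
      change (∑ k ∈ Finset.range q, ((ω ^ j) • U) ^ k) * P = _
      simp only [smul_pow]
    rw [Finset.sum_congr rfl h1, ← Finset.sum_mul, Finset.sum_comm]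
    have h2 : ∀ k ∈ Finset.range q, ∑ j ∈ Finset.range q, ((ω ^ j) ^ k) • U ^ k =
        if k = 0 then (q : ℂ) • (1 : Matrix n n ℂ) else 0 := by
      intro k hk
      rw [← Finset.sum_smul]
      split_ifs with h0
      · subst h0
        simp
      · rw [root_sum hω (Finset.mem_range.1 hk) h0, zero_smul]
    rw [Finset.sum_congr rfl h2, Finset.sum_ite_eq' (Finset.range q) 0, if_pos
      (Finset.mem_range.2 (Nat.pos_of_ne_zero hq0)), smul_mul_assoc, one_mul]
  have c1 : ∑ j ∈ Finset.range q, ((N (ω ^ j)).rank : ℂ) = (P.rank : ℂ) := by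
    have h1 := congrArg Matrix.trace hsum
    rw [Matrix.trace_sum, Matrix.trace_smul, smul_eq_mul, KF.H48.trace_idem hP,
      Finset.sum_congr rfl fun j _ => hrk (ω ^ j) (hωj j), ← Finset.mul_sum] at h1
    exact mul_left_cancel₀ hqC h1
  have c2 : ∑ j ∈ Finset.range q, (N (ω ^ j)).rank = P.rank := by exact_mod_cast c1
  have c3 : ∀ j ∈ Finset.range q, (N (ω ^ j)).rank = r := by
    have h1 : ∑ j ∈ Finset.range q, r = ∑ j ∈ Finset.range q, (N (ω ^ j)).rank := by
      refine le_antisymm (Finset.sum_le_sum fun j _ => hle j) ?_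
      rw [c2, Finset.sum_const, Finset.card_range, smul_eq_mul, a5]
      exact a6
    intro j hj
    exact ((Finset.sum_eq_sum_iff_of_le fun j _ => hle j).1 h1 j hj).symm
  -- the trace
  have d1 : (q : ℂ) * (U * P).trace = 0 := by
    have h1 : (q : ℂ) • (U * P) = ∑ j ∈ Finset.range q, (ω ^ j)⁻¹ • N (ω ^ j) := by
      rw [← Matrix.mul_smul, ← hsum, Finset.mul_sum]
      exact Finset.sum_congr rfl fun j _ => hUN _ (hωj j)
    have h2 := congrArg Matrix.trace h1
    rw [Matrix.trace_smul, smul_eq_mul, Matrix.trace_sum] at h2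
    rw [h2]
    have h3 : ∀ j ∈ Finset.range q, ((ω ^ j)⁻¹ • N (ω ^ j)).trace =
        ((q : ℂ) * (r : ℂ)) * ((ω⁻¹ ^ j) ^ 1) := by
      intro j hj
      rw [Matrix.trace_smul, smul_eq_mul, hrk _ (hωj j), c3 j hj, pow_one, inv_pow, mul_comm]
    rw [Finset.sum_congr rfl h3, ← Finset.mul_sum,
      root_sum (IsPrimitiveRoot.inv hω) hq1 one_ne_zero, mul_zero]
  exact (mul_eq_zero.1 d1).resolve_left hqC

end Pool.Agent.PP.K9.H53
end
end -- Pool.Agent.Helper53_K9.Tra

section -- Pool.Agent.Helper43_AT3.LRK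

/-!
# AT3, row LRK: the number of modular characters as a character sum
-/

open scoped BigOperators

noncomputable section

namespace Pool.Agent.PP.T3.H43

open Pool.Agent.Helper51_AWC Pool.Agent.Helper79_WRA Pool.Agent.PP Pool.Agent.PP.KF
open Pool.Agent.PP.K9 Pool.Agent.PP.K9.H97 Pool.Agent.PP.H75 Pool.Agent.PP.T3

attribute [local instance] Ideal.Quotient.field

set_option linter.unusedSectionVars false

section cls

variable (ℓ : ℕ) (G : Type) [Group G]

/-- the regular classes -/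
abbrev Kr : Type := {c : ConjClasses G // Reg ℓ (Quotient.out c)}

variable {ℓ G}

theorem mk_out (c : ConjClasses G) : ConjClasses.mk (Quotient.out c) = c := Quotient.out_eq c

theorem reg_conj {x y : G} (h : IsConj x y) : Reg ℓ x ↔ Reg ℓ y := by
  obtain ⟨c, rfl⟩ := isConj_iff.1 h
  unfold Reg
  rw [show c * x * c⁻¹ = MulAut.conj c x from rfl, MulEquiv.orderOf_eq]

theorem reg_out (x : G) : Reg ℓ (Quotient.out (ConjClasses.mk x)) ↔ Reg ℓ x :=
  reg_conj (ConjClasses.mk_eq_mk_iff_isConj.1 (mk_out _))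

theorem cl_out {F : Type} {f : G → F} (hf : ∀ x y, f (y * x * y⁻¹) = f x) (x : G) :
    f (Quotient.out (ConjClasses.mk x)) = f x := by
  have h : IsConj x (Quotient.out (ConjClasses.mk x)) :=
    (ConjClasses.mk_eq_mk_iff_isConj.1 (mk_out _)).symm
  obtain ⟨c, hc⟩ := isConj_iff.1 h
  rw [← hc, hf]

variable [Fintype G]

open Classical in
/-- sums over the classes -/
theorem sum_kr {F : Type} [AddCommMonoid F] [Fintype (Kr ℓ G)] (f : G → Kr ℓ G → F) :
    ∑ K : Kr ℓ G, ∑ y : G, (if ConjClasses.mk y = K.1 then f y K else 0) =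
      ∑ y : G, if h : Reg ℓ y then f y ⟨ConjClasses.mk y, (reg_out y).2 h⟩ else 0 := by
  rw [Finset.sum_comm]
  refine Finset.sum_congr rfl fun y _ => ?_
  by_cases h : Reg ℓ y
  · rw [dif_pos h, Finset.sum_eq_single_of_mem ⟨ConjClasses.mk y, (reg_out y).2 h⟩
      (Finset.mem_univ _), if_pos rfl]
    intro K _ hK
    rw [if_neg]
    intro h'
    exact hK (Subtype.ext h'.symm)
  · rw [dif_neg h]
    refine Finset.sum_eq_zero fun K _ => ?_
    rw [if_neg]
    intro h'
    apply h
    have := K.2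
    rw [← h'] at this
    exact (reg_out y).1 this

end cls

section cx

variable {G : Type} [Group G] [Fintype G] {M : Ideal (integralClosure ℤ ℂ)} [M.IsMaximal]

theorem mk_conj (x y : G) : ConjClasses.mk (y * x * y⁻¹) = ConjClasses.mk x :=
  ConjClasses.mk_eq_mk_iff_isConj.2 (isConj_iff.2 ⟨y, rfl⟩).symm

open Classical in
/-- an eigenvalue identity -/
theorem irr_cls {ψ : G → ℂ} (hψ : ψ ∈ Irr G) (L : ConjClasses G) (x : G) :
    ψ 1 * ∑ y : G, (if ConjClasses.mk y = L then ψ (x * y⁻¹) else 0) =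
      (∑ y : G, if ConjClasses.mk y = L then ψ y⁻¹ else 0) * ψ x := by
  have h1 := H94.eig_conv hψ (A := fun t => if ConjClasses.mk t⁻¹ = L then 1 else 0) (by
    intro g h
    have e : (h * g * h⁻¹)⁻¹ = h * g⁻¹ * h⁻¹ := by group
    simp only [e, mk_conj]) x
  have h2 := irr_one_ne hψ
  have h3 : ∑ y : G, (if ConjClasses.mk y = L then ψ (x * y⁻¹) else 0) =
      ∑ t : G, (if ConjClasses.mk t⁻¹ = L then (1 : ℂ) else 0) * ψ (t * x) := by
    rw [← Equiv.sum_comp (Equiv.inv G)]
    refine Finset.sum_congr rfl fun t _ => ?_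
    simp only [Equiv.inv_apply, inv_inv, ite_mul, one_mul, zero_mul]
    rw [irr_mul_comm hψ]
  have h4 : ∑ y : G, (if ConjClasses.mk y = L then ψ y⁻¹ else 0) =
      ∑ t : G, (if ConjClasses.mk t⁻¹ = L then (1 : ℂ) else 0) * ψ t := by
    rw [← Equiv.sum_comp (Equiv.inv G)]
    refine Finset.sum_congr rfl fun t _ => ?_
    simp only [Equiv.inv_apply, inv_inv, ite_mul, one_mul, zero_mul]
  rw [h3, h4, h1, wC]
  field_simp

open Classical in
/-- sums of the coefficients of the lift over a translate of a class -/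
theorem eh_cls (e : G → FF M) (L : ConjClasses G) (x : G) :
    ∑ t : G, (if ConjClasses.mk (t * x) = L then eh M e t else 0) =
      K9.H25.pj (K9.H25.irrE_finite M e).toFinset
        (fun y => if ConjClasses.mk y = L then 1 else 0) x := by
  rw [K9.H25.pj_apply, ← Equiv.sum_comp (Equiv.mulRight x⁻¹)]
  simp only [Equiv.coe_mulRight, inv_mul_cancel_right, ite_mul, one_mul, zero_mul]
  have h1 : ∀ y : G, (if ConjClasses.mk y = L then eh M e (y * x⁻¹) else 0) =
      (Fintype.card G : ℂ)⁻¹ * ∑ χ ∈ (K9.H25.irrE_finite M e).toFinset,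
        χ 1 * (if ConjClasses.mk y = L then χ (x * y⁻¹) else 0) := by
    intro y
    by_cases h : ConjClasses.mk y = L
    · simp only [if_pos h]
      rw [KF.H25.eh_eq, mul_inv_rev, inv_inv]
    · simp only [if_neg h, mul_zero, Finset.sum_const_zero]
  have h2 : ∀ y : G, (if ConjClasses.mk y = L then
      ∑ χ ∈ (K9.H25.irrE_finite M e).toFinset, χ y⁻¹ * χ x else 0) =
      ∑ χ ∈ (K9.H25.irrE_finite M e).toFinset,
        (if ConjClasses.mk y = L then χ y⁻¹ else 0) * χ x := by
    intro y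
    by_cases h : ConjClasses.mk y = L
    · simp only [if_pos h]
    · simp only [if_neg h, zero_mul, Finset.sum_const_zero]
  simp only [h1, h2]
  rw [← Finset.mul_sum, Finset.sum_comm, Finset.sum_comm (s := Finset.univ)]
  congr 1
  refine Finset.sum_congr rfl fun χ hχ => ?_
  have h3 : χ ∈ Irr G := ((K9.H25.irrE_finite M e).mem_toFinset.1 hχ).1
  rw [← Finset.mul_sum, irr_cls h3, Finset.sum_mul]

variable (M) in
open Classical in
/-- the matrix of the idempotent on the class functions on the regular elements -/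
def AC (ℓ : ℕ) (e : G → FF M) : Matrix (Kr ℓ G) (Kr ℓ G) ℂ := fun K L =>
  ∑ t : G, (if ConjClasses.mk (t * Quotient.out K.1) = L.1 then eh M e t else 0)

open Classical in
/-- the same for an arbitrary function -/
def AF {F : Type} [Field F] (ℓ : ℕ) (e : G → F) : Matrix (Kr ℓ G) (Kr ℓ G) F := fun K L =>
  ∑ t : G, (if ConjClasses.mk (t * Quotient.out K.1) = L.1 then e t else 0)

theorem AC_mem {ℓ : ℕ} {e : G → FF M} (he : IsIdem e) (K L : Kr ℓ G) :
    AC M ℓ e K L ∈ RM M ∧ rr M (AC M ℓ e K L) = AF ℓ e K L := by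
  classical
  have h1 := (KF.H25.idm M G e he).1
  have h2 : ∀ t : G, (if ConjClasses.mk (t * Quotient.out K.1) = L.1 then eh M e t else 0) ∈ RM M := by
    intro t
    split_ifs
    · exact (h1 t).1
    · exact (RM M).zero_mem
  refine ⟨Subring.sum_mem _ fun t _ => h2 t, ?_⟩
  unfold AC AF
  rw [rr_sum _ _ fun t _ => h2 t]
  refine Finset.sum_congr rfl fun t _ => ?_
  split_ifs
  · exact (h1 t).2
  · exact rr_zero

theorem AC_sq (rot : RotStmt) {ℓ : ℕ} [Fact ℓ.Prime]
    (hM : (ℓ : integralClosure ℤ ℂ) ∈ M) {e : G → FF M} (he : IsIdem e) [Fintype (Kr ℓ G)] :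
    AC M ℓ e * AC M ℓ e = AC M ℓ e := by
  classical
  obtain ⟨S, hSdef⟩ : ∃ S, S = (K9.H25.irrE_finite M e).toFinset := ⟨_, rfl⟩
  have hSc : (S : Set (G → ℂ)) = IrrE M e := by rw [hSdef, Set.Finite.coe_toFinset]
  have hS : ∀ ψ ∈ S, ψ ∈ Irr G := fun ψ hψ => by
    rw [hSdef, Set.Finite.mem_toFinset] at hψ
    exact hψ.1
  have hA : ∀ (K L : Kr ℓ G), AC M ℓ e K L =
      K9.H25.pj S (fun y => if ConjClasses.mk y = L.1 then 1 else 0) (Quotient.out K.1) := by
    intro K L
    rw [hSdef, ← eh_cls]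
    rfl
  ext K N
  rw [Matrix.mul_apply]
  set f : G → ℂ := K9.H25.pj S (fun y => if ConjClasses.mk y = N.1 then 1 else 0) with hf
  have hfm : f ∈ Submodule.span ℂ (S : Set (G → ℂ)) := K9.H25.pj_mem _ _
  have hfc : ∀ x y, f (y * x * y⁻¹) = f x := by
    intro x y
    rw [hf, K9.H25.pj_apply, K9.H25.pj_apply]
    congr 1
    refine Finset.sum_congr rfl fun z _ => ?_
    congr 1
    refine Finset.sum_congr rfl fun ψ hψ => ?_
    rw [irr_conj (hS ψ hψ)]
  set h : G → ℂ := fun g => if Reg ℓ g then f g else 0 with hh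
  have hhm : h ∈ Submodule.span ℂ (S : Set (G → ℂ)) := by
    rw [hSc] at hfm ⊢
    exact (rot ℓ M hM G e he).1 f hfm
  have h1 := K9.H25.pj_span hS hhm
  have h2 : ∑ L : Kr ℓ G, AC M ℓ e K L * AC M ℓ e L N = K9.H25.pj S h (Quotient.out K.1) := by
    have e1 : ∀ L : Kr ℓ G, AC M ℓ e K L * AC M ℓ e L N = ∑ y : G,
        (if ConjClasses.mk y = L.1 then (Fintype.card G : ℂ)⁻¹ *
          (f (Quotient.out L.1) * ∑ ψ ∈ S, ψ y⁻¹ * ψ (Quotient.out K.1)) else 0) := by
      intro L
      rw [hA K L, hA L N, ← hf, K9.H25.pj_apply, mul_assoc, Finset.sum_mul, Finset.mul_sum]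
      refine Finset.sum_congr rfl fun y _ => ?_
      by_cases hy : ConjClasses.mk y = L.1
      · simp only [if_pos hy]
        ring
      · simp only [if_neg hy, zero_mul, mul_zero]
    rw [Finset.sum_congr rfl fun L _ => e1 L, sum_kr (fun y L => (Fintype.card G : ℂ)⁻¹ *
          (f (Quotient.out L.1) * ∑ ψ ∈ S, ψ y⁻¹ * ψ (Quotient.out K.1))),
      K9.H25.pj_apply, Finset.mul_sum]
    refine Finset.sum_congr rfl fun y _ => ?_
    by_cases hy : Reg ℓ y
    · rw [dif_pos hy, hh]
      simp only [if_pos hy]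
      rw [cl_out hfc]
    · rw [dif_neg hy, hh]
      simp only [if_neg hy, zero_mul, mul_zero]
  rw [h2, h1, hh, hA K N]
  simp only [if_pos K.2]
  rfl

theorem AC_trace {ℓ : ℕ} (e : G → FF M) [Fintype (Kr ℓ G)] :
    (AC M ℓ e).trace = (Nat.card G : ℂ)⁻¹ *
      ∑ᶠ (s : G) (_ : Reg ℓ s), ∑ᶠ χ ∈ IrrE M e, χ s * starRingEnd ℂ (χ s) := by
  classical
  obtain ⟨S, hSdef⟩ : ∃ S, S = (K9.H25.irrE_finite M e).toFinset := ⟨_, rfl⟩
  have hS : ∀ ψ ∈ S, ψ ∈ Irr G := fun ψ hψ => by
    rw [hSdef, Set.Finite.mem_toFinset] at hψ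
    exact hψ.1
  have e1 : ∀ L : Kr ℓ G, AC M ℓ e L L = ∑ y : G,
      (if ConjClasses.mk y = L.1 then (Fintype.card G : ℂ)⁻¹ *
        ∑ ψ ∈ S, ψ y⁻¹ * ψ (Quotient.out L.1) else 0) := by
    intro L
    rw [show AC M ℓ e L L = K9.H25.pj S
      (fun y => if ConjClasses.mk y = L.1 then 1 else 0) (Quotient.out L.1) by
        rw [hSdef, ← eh_cls]; rfl, K9.H25.pj_apply, Finset.mul_sum]
    refine Finset.sum_congr rfl fun y _ => ?_
    by_cases hy : ConjClasses.mk y = L.1
    · simp only [if_pos hy, one_mul]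
    · simp only [if_neg hy, zero_mul, mul_zero]
  unfold Matrix.trace
  simp only [Matrix.diag_apply]
  rw [Finset.sum_congr rfl fun L _ => e1 L, sum_kr (fun y L => (Fintype.card G : ℂ)⁻¹ *
          ∑ ψ ∈ S, ψ y⁻¹ * ψ (Quotient.out L.1)), finsum_eq_sum_of_fintype,
    Nat.card_eq_fintype_card, Finset.mul_sum]
  refine Finset.sum_congr rfl fun y _ => ?_
  by_cases hy : Reg ℓ y
  · rw [dif_pos hy, finsum_eq_if, if_pos hy, finsum_mem_eq_finite_toFinset_sum _
      (K9.H25.irrE_finite M e), ← hSdef]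
    congr 1
    refine Finset.sum_congr rfl fun ψ hψ => ?_
    rw [cl_out (fun x y => irr_conj (hS ψ hψ) x y), H94.irr_star (hS ψ hψ), mul_comm]
  · rw [dif_neg hy, finsum_eq_if, if_neg hy, mul_zero]

end cx

section mod

variable {F : Type} [Field F] {G : Type} [Group G] [Fintype G] {ℓ : ℕ}

/-- values at the regular classes -/
def Rs (ℓ : ℕ) : (G → F) →ₗ[F] (Kr ℓ G → F) where
  toFun f K := f (Quotient.out K.1)
  map_add' _ _ := rfl
  map_smul' _ _ := rfl

theorem TT_stab (hF : GoodF ℓ F) {e : G → F} (he : IsIdem e) {f : G → F}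
    (hf : f ∈ Pool.Agent.PP.TT F G ℓ) : actL e f ∈ Pool.Agent.PP.TT F G ℓ := by
  have brt : BrtStmt := Pool.Agent.PP.H74.brt Pool.Agent.PP.H20.ibf Pool.Agent.PP.H20.ibc
    Pool.Agent.PP.H20.ibj Pool.Agent.PP.H20.ibn
  rw [← brt ℓ F hF G] at hf ⊢
  induction hf using Submodule.span_induction with
  | mem χ hχ =>
    obtain ⟨n, ρ, hρ, rfl⟩ := hχ
    obtain ⟨w, _, hw2, _⟩ := Pool.Agent.PP.H20.eig F G n ρ hρ e he.1
    change actF e (tr ρ) ∈ _
    rw [hw2]
    exact Submodule.smul_mem _ _ (Submodule.subset_span ⟨n, ρ, hρ, rfl⟩)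
  | zero => rw [map_zero]; exact Submodule.zero_mem _
  | add f g _ _ hf hg => rw [map_add]; exact Submodule.add_mem _ hf hg
  | smul c f _ hf => rw [map_smul]; exact Submodule.smul_mem _ _ hf

theorem Rs_act (hF : GoodF ℓ F) {e : G → F} (he : IsIdem e) [Fintype (Kr ℓ G)] {f : G → F}
    (hf : f ∈ Pool.Agent.PP.TT F G ℓ) : Rs ℓ (actL e f) = (AF ℓ e).mulVec (Rs ℓ f) := by
  classical
  funext K
  set h : G → F := fun g => if Reg ℓ g then f g else 0 with hh
  set g : G → F := fun g => if Reg ℓ g then 0 else f g with hg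
  have hfg : f = h + g := by
    funext x
    rw [Pi.add_apply]
    by_cases hx : Reg ℓ x <;> simp [hh, hg, hx]
  have hrc : ∀ x y : G, Reg ℓ (y * x * y⁻¹) ↔ Reg ℓ x := fun x y =>
    (reg_conj (isConj_iff.2 ⟨y, rfl⟩)).symm
  have hfc := hf.1
  have hgc : IsCl g := by
    intro x y
    simp only [hg, hrc]
    rw [hfc]
  have h1 : actF e g (Quotient.out K.1) = 0 :=
    H74.rgl ℓ F hF G e g he hgc (fun x hx => by simp [hg, hx]) _ K.2
  change actF e f (Quotient.out K.1) = ∑ L : Kr ℓ G, AF ℓ e K L * f (Quotient.out L.1)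
  have h2 : actF e f (Quotient.out K.1) = actF e h (Quotient.out K.1) := by
    have := congrFun (map_add (actL e) h g) (Quotient.out K.1)
    rw [← hfg, Pi.add_apply] at this
    change actF e f (Quotient.out K.1) = actF e h (Quotient.out K.1) +
      actF e g (Quotient.out K.1) at this
    rw [this, h1, add_zero]
  rw [h2, actF, finsum_eq_sum_of_fintype]
  have e1 : ∀ L : Kr ℓ G, AF ℓ e K L * f (Quotient.out L.1) = ∑ y : G,
      (if ConjClasses.mk y = L.1 then e (y * (Quotient.out K.1)⁻¹) *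
        f (Quotient.out L.1) else 0) := by
    intro L
    unfold AF
    rw [Finset.sum_mul, ← Equiv.sum_comp (Equiv.mulRight (Quotient.out K.1)⁻¹)]
    refine Finset.sum_congr rfl fun y _ => ?_
    simp only [Equiv.coe_mulRight, inv_mul_cancel_right, ite_mul, zero_mul]
  rw [Finset.sum_congr rfl fun L _ => e1 L, sum_kr (fun y L => e (y * (Quotient.out K.1)⁻¹) *
        f (Quotient.out L.1)), ← Equiv.sum_comp (Equiv.mulRight (Quotient.out K.1)⁻¹)]
  refine Finset.sum_congr rfl fun y _ => ?_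
  simp only [Equiv.coe_mulRight, inv_mul_cancel_right]
  by_cases hy : Reg ℓ y
  · rw [dif_pos hy, hh]
    simp only [if_pos hy]
    rw [cl_out hfc]
  · rw [dif_neg hy, hh]
    simp only [if_neg hy, mul_zero]

theorem Rs_inj [Fact ℓ.Prime] {f : G → F} (hf : f ∈ Pool.Agent.PP.TT F G ℓ)
    (h0 : Rs ℓ f = 0) : f = 0 := by
  obtain ⟨N, hN1, hN2⟩ := H27.prt ℓ G
  funext x
  obtain ⟨h1, n, hn⟩ := hN1 x
  have hc : Commute (x ^ N) ((x ^ N)⁻¹ * x) := by
    have : Commute (x ^ N) x := (Commute.refl x).pow_left N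
    exact ((Commute.refl _).inv_right).mul_right this
  have h2 := hf.2 (x ^ N) ((x ^ N)⁻¹ * x) hc ⟨n, hn⟩
  rw [mul_inv_cancel_left] at h2
  rw [h2]
  have h3 := congrFun h0 ⟨ConjClasses.mk (x ^ N), (reg_out _).2 h1⟩
  change f (Quotient.out (ConjClasses.mk (x ^ N))) = 0 at h3
  rw [cl_out hf.1] at h3
  exact h3

theorem Rs_surj [Fact ℓ.Prime] (v : Kr ℓ G → F) :
    ∃ f ∈ Pool.Agent.PP.TT F G ℓ, Rs ℓ f = v := by
  obtain ⟨N, hN1, hN2⟩ := H27.prt ℓ G
  have hy1 : ∀ y : G, (∃ n : ℕ, y ^ ℓ ^ n = 1) → y ^ N = 1 := by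
    intro y hy
    have := hN2 1 y (Commute.one_left y) (by
      unfold Reg
      rw [orderOf_one]
      exact Nat.coprime_one_left ℓ) hy
    rwa [one_mul] at this
  refine ⟨fun x => v ⟨ConjClasses.mk (x ^ N), (reg_out _).2 (hN1 x).1⟩, ⟨?_, ?_⟩, ?_⟩
  · intro x y
    refine congrArg v (Subtype.ext ?_)
    change ConjClasses.mk ((y * x * y⁻¹) ^ N) = ConjClasses.mk (x ^ N)
    rw [conj_pow, mk_conj]
  · rintro x y hxy ⟨n, hn⟩
    refine congrArg v (Subtype.ext ?_)
    change ConjClasses.mk ((x * y) ^ N) = ConjClasses.mk (x ^ N)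
    rw [hxy.mul_pow, hy1 y ⟨n, hn⟩, mul_one]
  · funext K
    change v _ = v K
    congr 1
    apply Subtype.ext
    change ConjClasses.mk (Quotient.out K.1 ^ N) = K.1
    have h1 := hN2 (Quotient.out K.1) 1 (Commute.one_right _) K.2 ⟨0, by simp⟩
    rw [mul_one] at h1
    rw [h1, mk_out]

theorem AF_rank [Fact ℓ.Prime] (hF : GoodF ℓ F) {e : G → F} (he : IsIdem e)
    [Fintype (Kr ℓ G)] [DecidableEq (Kr ℓ G)] : (AF ℓ e).rank = ln e := by
  have h1 := K9.H3.rnk_ ℓ F hF G e he
  have h2 : ln e = Module.finrank F ((Pool.Agent.PP.TT F G ℓ).map (actL e)) := h1.symm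
  rw [h2]
  have h3 : ((Pool.Agent.PP.TT F G ℓ).map (actL e)).map (Rs ℓ) =
      LinearMap.range (AF ℓ e).mulVecLin := by
    apply le_antisymm
    · rintro _ ⟨_, ⟨f, hf, rfl⟩, rfl⟩
      exact ⟨Rs ℓ f, (Rs_act hF he hf).symm⟩
    · rintro _ ⟨v, rfl⟩
      obtain ⟨f, hf, rfl⟩ := Rs_surj v
      exact ⟨actL e f, ⟨f, hf, rfl⟩, Rs_act hF he hf⟩
  have h4 : Module.finrank F (((Pool.Agent.PP.TT F G ℓ).map (actL e)).map (Rs ℓ)) =
      Module.finrank F ((Pool.Agent.PP.TT F G ℓ).map (actL e)) := by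
    apply LinearEquiv.finrank_eq
    refine (LinearEquiv.ofBijective
      ((Rs ℓ).submoduleMap ((Pool.Agent.PP.TT F G ℓ).map (actL e))) ⟨?_, ?_⟩).symm
    · rw [← LinearMap.ker_eq_bot, LinearMap.ker_eq_bot']
      rintro ⟨f, hf⟩ h0
      have h0' : Rs ℓ f = 0 := congrArg Subtype.val h0
      obtain ⟨g, hg, rfl⟩ := hf
      exact Subtype.ext (Rs_inj (TT_stab hF he hg) h0')
    · exact LinearMap.submoduleMap_surjective _ _
  rw [← h4, h3]
  rfl

end mod

/-- row LRK -/
theorem lrk (rot : RotStmt) : LrkStmt := by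
  intro ℓ _ M _ hM G _ _ e he
  classical
  have := Fintype.ofFinite G
  have hfin : Finite (ConjClasses G) := inferInstance
  have := Fintype.ofFinite (Kr ℓ G)
  have hF : GoodF ℓ (FF M) := H50.fld ℓ Fact.out M hM
  rw [← AC_trace e]
  -- matrices over the local ring
  let P' : Matrix (Kr ℓ G) (Kr ℓ G) (RM M) := fun i j => ⟨AC M ℓ e i j, (AC_mem he i j).1⟩
  let ι : RM M →+* ℂ := (RM M).subtype
  have hι : Function.Injective ι := Subtype.val_injective
  have hq : Function.Surjective (rrHom M) := by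
    intro c
    obtain ⟨z, hz, h⟩ := rr_surj c
    exact ⟨⟨z, hz⟩, h⟩
  have eP : P'.map ι = AC M ℓ e := rfl
  have fP : P'.map (rrHom M) = AF ℓ e := by
    ext i j
    exact (AC_mem he i j).2
  have hP : AC M ℓ e * AC M ℓ e = AC M ℓ e := AC_sq rot hM he
  have hP' : P' * P' = P' := by
    ext i j
    have h1 : ((P' * P').map ι) i j = (P'.map ι) i j := by
      rw [Matrix.map_mul, eP, hP]
    exact h1
  have hPb : AF ℓ e * AF ℓ e = AF ℓ e := by rw [← fP, ← Matrix.map_mul, hP']
  have a1 : (AF ℓ e).rank ≤ (AC M ℓ e).rank := by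
    rw [← eP, ← fP]; exact KF.H48.rank_red ι hι (rrHom M) hq P'
  have a2 : (1 - AF ℓ e).rank ≤ (1 - AC M ℓ e).rank := by
    have := KF.H48.rank_red ι hι (rrHom M) hq (1 - P')
    rw [Matrix.map_sub _ (map_sub _), Matrix.map_sub _ (map_sub _), Matrix.map_one _ (map_zero ι)
      (map_one ι), Matrix.map_one _ (map_zero _) (map_one _), fP] at this
    exact this
  have a3 := KF.H48.rank_idem_compl hPb
  have a4 := KF.H48.rank_idem_compl hP
  have a5 : (AC M ℓ e).rank = ln e := by
    rw [← AF_rank hF he]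
    omega
  rw [KF.H48.trace_idem hP, a5]

end Pool.Agent.PP.T3.H43
end
end -- Pool.Agent.Helper43_AT3.LRK
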