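import Pool.Agent.Helper12_AWB.B132
import Pool.Agent.Helper12_AWB.B136
import Pool.Agent.Helper12_AWB.B140

/-!
# Merged copies (generated) of the modules

* `Pool.Agent.Helper86_K9.Quot`
* `Pool.Agent.Helper86_K9.CE0`
* `Pool.Agent.Helper86_K9.SEC`
* `Pool.Agent.Helper25_C2.SEC2`
-/

set_option autoImplicit false

section -- Pool.Agent.Helper86_K9.Quot

/-!
# Squad K9: regular elements and quotients by a central subgroup of exponent `ℓ`
-/

open scoped BigOperators

set_option linter.unusedSectionVars false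

noncomputable section

namespace Pool.Agent.PP.K9.H86

open Pool.Agent.PP

variable {ℓ : ℕ} [hℓ : Fact ℓ.Prime] {C H : Type} [Group C] [Finite C] [Group H] [Finite H]
  {π : C →* H}

theorem reg_map {s : C} (hs : Reg ℓ s) : Reg ℓ (π s) :=
  Nat.Coprime.coprime_dvd_left (orderOf_map_dvd π s) hs

theorem reg_lift (hsur : Function.Surjective π) (hk : ∀ c : C, π c = 1 → c ^ ℓ = 1) {h : H}
    (hh : Reg ℓ h) : ∃ s : C, Reg ℓ s ∧ π s = h := by
  obtain ⟨c, rfl⟩ := hsur h
  obtain ⟨m, hm⟩ : ∃ m, m = orderOf (π c) := ⟨_, rfl⟩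
  have hcop : Nat.Coprime m ℓ := by rw [hm]; exact hh
  obtain ⟨k, hk1, hk0⟩ := Nat.chineseRemainder hcop 1 0
  have hk0' : ℓ ∣ k := (Nat.modEq_zero_iff_dvd).1 hk0
  have hcm : (c ^ m) ^ ℓ = 1 := by
    apply hk
    rw [map_pow, hm, pow_orderOf_eq_one]
  refine ⟨c ^ k, ?_, ?_⟩
  · have h1 : (c ^ k) ^ m = 1 := by
      obtain ⟨j, rfl⟩ := hk0'
      rw [← pow_mul]
      have : ℓ * j * m = m * ℓ * j := by ring
      rw [this, pow_mul, pow_mul, hcm, one_pow]
    exact Nat.Coprime.coprime_dvd_left (orderOf_dvd_of_pow_eq_one h1) hcop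
  · rw [map_pow]
    conv_rhs => rw [← pow_one (π c)]
    rw [pow_eq_pow_iff_modEq, ← hm]
    exact hk1

theorem reg_uniq (hk : ∀ c : C, π c = 1 → c ^ ℓ = 1) (hc : ∀ c d : C, π c = 1 → c * d = d * c)
    {s s' : C} (hs : Reg ℓ s) (hs' : Reg ℓ s') (h : π s = π s') : s = s' := by
  obtain ⟨N, -, hN⟩ := H27.prt ℓ C
  have h1 : π (s⁻¹ * s') = 1 := by rw [map_mul, map_inv, h, inv_mul_cancel]
  have h2 : s' = s * (s⁻¹ * s') := by group
  have h3 : s' ^ N = s := by
    rw [h2]
    exact hN s (s⁻¹ * s') (hc _ s h1).symm hs ⟨1, by rw [pow_one]; exact hk _ h1⟩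
  have h4 : s' ^ N = s' := by
    have := hN s' 1 (Commute.one_right s') hs' ⟨0, one_pow _⟩
    rwa [mul_one] at this
  rw [← h3, h4]

open Classical in
theorem sum_reg [Fintype C] [Fintype H] (hsur : Function.Surjective π)
    (hk : ∀ c : C, π c = 1 → c ^ ℓ = 1) (hc : ∀ c d : C, π c = 1 → c * d = d * c) (f : H → ℂ) :
    ∑ s : C, (if Reg ℓ s then f (π s) else 0) = ∑ h : H, if Reg ℓ h then f h else 0 := by
  rw [← Finset.sum_filter, ← Finset.sum_filter]
  refine Finset.sum_bij (fun s _ => π s) ?_ ?_ ?_ ?_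
  · intro s hs
    rw [Finset.mem_filter] at hs ⊢
    exact ⟨Finset.mem_univ _, reg_map hs.2⟩
  · intro s hs s' hs' h
    rw [Finset.mem_filter] at hs hs'
    exact reg_uniq hk hc hs.2 hs'.2 h
  · intro h hh
    rw [Finset.mem_filter] at hh
    obtain ⟨s, hs, hs2⟩ := reg_lift hsur hk hh.2
    exact ⟨s, Finset.mem_filter.2 ⟨Finset.mem_univ _, hs⟩, hs2⟩
  · intro s _
    rfl

theorem card_eq (hsur : Function.Surjective π) : Nat.card C = Nat.card π.ker * Nat.card H := by
  rw [← Subgroup.card_mul_index π.ker, Subgroup.index_ker, MonoidHom.range_eq_top.2 hsur]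
  rw [Nat.card_congr (Subgroup.topEquiv (G := H)).toEquiv]

end Pool.Agent.PP.K9.H86
end
end -- Pool.Agent.Helper86_K9.Quot

section -- Pool.Agent.Helper86_K9.CE0

/-!
# Squad K9, row CE0: blocks with a central defect group of order `ℓ`
-/

open scoped BigOperators

set_option linter.unusedSectionVars false

noncomputable section

namespace Pool.Agent.PP.K9.H86

open Pool.Agent.Helper51_AWC Pool.Agent.Helper79_WRA Pool.Agent.PP Pool.Agent.PP.KF

attribute [local instance] Ideal.Quotient.field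

/-- a central element acts by a scalar -/
theorem cent_scalar {C : Type} [Group C] {θ : C → ℂ} (hθ : θ ∈ Irr C) {z : C}
    (hz : ∀ c, z * c = c * z) {ℓ : ℕ} (hz2 : z ^ ℓ = 1) :
    ∃ k : ℂ, k ^ ℓ = 1 ∧ ∀ (i : ℕ) (c : C), θ (z ^ i * c) = k ^ i * θ c := by
  have hne : θ 1 ≠ 0 := irr_one_ne hθ
  obtain ⟨n, ρ, hρ, rfl⟩ := hθ
  obtain ⟨k, hk⟩ := schur_scalar ρ (ρ z) (by
    intro g
    have h1 : ρ z * ρ g = ρ g * ρ z := by rw [← map_mul, ← map_mul, hz]
    exact h1)
  have h1 : ∀ c, ρ.character (z * c) = k * ρ.character c := by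
    intro c
    show LinearMap.trace ℂ _ (ρ (z * c)) = k * LinearMap.trace ℂ _ (ρ c)
    rw [map_mul, hk, smul_mul_assoc, map_smul, smul_eq_mul]
    rfl
  have h2 : ∀ (i : ℕ) (c : C), ρ.character (z ^ i * c) = k ^ i * ρ.character c := by
    intro i
    induction i with
    | zero => intro c; rw [pow_zero, pow_zero, one_mul, one_mul]
    | succ i ih =>
      intro c
      rw [pow_succ', mul_assoc, h1, ih, pow_succ']
      ring
  refine ⟨k, ?_, h2⟩
  have h3 := h2 ℓ 1
  rw [hz2, one_mul] at h3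
  have h4 : (k ^ ℓ - 1) * ρ.character 1 = 0 := by linear_combination -h3
  rcases mul_eq_zero.1 h4 with h | h
  · exact sub_eq_zero.1 h
  · exact absurd h hne

/-- a character with a trivial central kernel element comes from the quotient -/
theorem irr_defl {A B : Type} [Group A] [Group B] {p : A →* B} (hp : Function.Surjective p) {z : A}
    (hz : ∀ c, z * c = c * z) (hk : ∀ c : A, p c = 1 → ∃ i : ℕ, c = z ^ i) {μ : A → ℂ}
    (hμ : μ ∈ Irr A) (h1 : ∀ c, μ (z * c) = μ c) : ∃ θ ∈ Irr B, μ = fun a => θ (p a) := by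
  have hne : μ 1 ≠ 0 := irr_one_ne hμ
  obtain ⟨n, ρ, hρ, rfl⟩ := hμ
  obtain ⟨k, hk'⟩ := schur_scalar ρ (ρ z) (by
    intro g
    have h1 : ρ z * ρ g = ρ g * ρ z := by rw [← map_mul, ← map_mul, hz]
    exact h1)
  have hk1 : k = 1 := by
    have h2 : ρ.character (z * 1) = k * ρ.character 1 := by
      show LinearMap.trace ℂ _ (ρ (z * 1)) = k * LinearMap.trace ℂ _ (ρ 1)
      rw [map_mul, hk', smul_mul_assoc, map_smul, smul_eq_mul]
      rfl
    rw [h1] at h2
    have h3 : (k - 1) * ρ.character 1 = 0 := by linear_combination -h2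
    rcases mul_eq_zero.1 h3 with h | h
    · exact sub_eq_zero.1 h
    · exact absurd h hne
  have hρz : ρ z = 1 := by
    rw [hk', hk1, one_smul]
    rfl
  have hρe : ∀ x y : A, p x = p y → ρ x = ρ y := by
    intro x y hxy
    obtain ⟨i, hi⟩ := hk (x * y⁻¹) (by rw [map_mul, map_inv, hxy, mul_inv_cancel])
    have h2 : x = z ^ i * y := by rw [← hi]; group
    rw [h2, map_mul, map_pow, hρz, one_pow, one_mul]
  choose σ hσ using hp
  let ρ' : Representation ℂ B (Fin n → ℂ) :=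
    { toFun := fun b => ρ (σ b)
      map_one' := by
        have : ρ (σ 1) = ρ 1 := hρe _ _ (by rw [hσ, map_one])
        rw [this, map_one]
      map_mul' := fun b b' => by
        have : ρ (σ (b * b')) = ρ (σ b * σ b') := hρe _ _ (by rw [hσ, map_mul, hσ, hσ])
        rw [this, map_mul] }
  have hρ' : ∀ a, ρ' (p a) = ρ a := fun a => hρe _ _ (hσ (p a))
  refine ⟨ρ'.character, ⟨n, ρ', ?_, rfl⟩, ?_⟩
  · have f : Subrepresentation ρ' ≃o Subrepresentation ρ :=
      { toFun := fun S => ⟨S.toSubmodule, fun g v hv => by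
          rw [← hρ' g]
          exact S.apply_mem_toSubmodule (p g) hv⟩
        invFun := fun S => ⟨S.toSubmodule, fun h v hv => S.apply_mem_toSubmodule (σ h) hv⟩
        left_inv := fun S => rfl
        right_inv := fun S => rfl
        map_rel_iff' := Iff.rfl }
    exact (OrderIso.isSimpleOrder_iff f).2 hρ
  · funext a
    show LinearMap.trace ℂ _ (ρ a) = LinearMap.trace ℂ _ (ρ' (p a))
    rw [hρ']

theorem geom {ℓ : ℕ} {ζ : ℂ} (h : ζ ^ ℓ = 1) (h1 : ζ ≠ 1) :
    ∑ i ∈ Finset.range ℓ, ζ ^ i = 0 := by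
  have h2 := geom_sum_mul ζ ℓ
  rw [h, sub_self] at h2
  rcases mul_eq_zero.1 h2 with h3 | h3
  · exact h3
  · exact absurd (sub_eq_zero.1 h3) h1

theorem ce0 (wbo : WboStmt) (ada : AdaStmt) (psi : PsiStmt) : Ce0Stmt := by
  intro ℓ _ M _ hM A B _ _ _ _ p hp z hz hzo hker γ hγ κ₀ hκ₀ hrc κ hκ
  classical
  have := Fintype.ofFinite A
  have := Fintype.ofFinite B
  have := Fintype.ofFinite (Irr A)
  have hzc : ∀ c, z * c = c * z := fun c => (Subgroup.mem_center_iff.1 hz c).symm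
  have hzp : z ^ ℓ = 1 := by rw [← hzo, pow_orderOf_eq_one]
  have hℓ0 : 0 < ℓ := (Fact.out : ℓ.Prime).pos
  have hℓC : (ℓ : ℂ) ≠ 0 := by exact_mod_cast hℓ0.ne'
  -- the kernel
  have hkp : ∀ c : A, p c = 1 → ∃ i : ℕ, c = z ^ i := by
    intro c hc
    have h1 := (hker c).1 hc
    obtain ⟨i, hi⟩ := (Submonoid.mem_powers_iff c z).1 ((mem_powers_iff_mem_zpowers).2 h1)
    exact ⟨i, hi.symm⟩
  have hk1 : ∀ c : A, p c = 1 → c ^ ℓ = 1 := by
    intro c hc
    obtain ⟨i, rfl⟩ := hkp c hc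
    rw [← pow_mul, mul_comm, pow_mul, hzp, one_pow]
  have hk2 : ∀ c d : A, p c = 1 → c * d = d * c := by
    intro c d hc
    obtain ⟨i, rfl⟩ := hkp c hc
    exact ((show Commute z d from hzc d).pow_left i).eq
  have hpz : ∀ (i : ℕ) (x : A), p (z ^ i * x) = p x := by
    intro i x
    have : p z = 1 := (hker z).2 (Subgroup.mem_zpowers z)
    rw [map_mul, map_pow, this, one_pow, one_mul]
  -- the characters
  obtain ⟨hpsi1, hpsi2⟩ := psi M A B p hp γ hγ.1
  rw [hκ₀] at hpsi1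
  have hκ₀B : κ₀ ∈ Irr B ∧ (fun a => κ₀ (p a)) ∈ IrrE M γ := by
    have : κ₀ ∈ ({κ₀} : Set (B → ℂ)) := rfl
    rw [hpsi1] at this
    exact this
  have hκ₀A : (fun a => κ₀ (p a)) ∈ Irr A := hκ₀B.2.1
  -- the scalars
  have hsc : ∀ μ : A → ℂ, ∃ k : ℂ, μ ∈ Irr A →
      k ^ ℓ = 1 ∧ ∀ (i : ℕ) (c : A), μ (z ^ i * c) = k ^ i * μ c := by
    intro μ
    by_cases hμ : μ ∈ Irr A
    · obtain ⟨k, h1, h2⟩ := cent_scalar hμ hzc hzp
      exact ⟨k, fun _ => ⟨h1, h2⟩⟩
    · exact ⟨0, fun h => absurd h hμ⟩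
  choose lam hlam using hsc
  -- the finite set of the characters
  have hfin : (IrrE M γ).Finite := Set.Finite.subset (Set.toFinite (Irr A)) fun χ h => h.1
  obtain ⟨Γ, hΓ⟩ : ∃ Γ : Finset (A → ℂ), Γ = hfin.toFinset := ⟨_, rfl⟩
  have hΓm : ∀ μ, μ ∈ Γ ↔ μ ∈ IrrE M γ := by
    intro μ
    rw [hΓ, Set.Finite.mem_toFinset]
  have hsum : ∀ f : (A → ℂ) → ℂ, ∑ᶠ χ ∈ IrrE M γ, f χ = ∑ χ ∈ Γ, f χ := by
    intro f
    rw [hΓ]
    exact finsum_mem_eq_finite_toFinset_sum f hfin
  obtain ⟨N, -, hN⟩ := H27.prt ℓ A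
  have hpowN : ∀ (i : ℕ) (s : A), Reg ℓ s → (z ^ i * s) ^ N = s := by
    intro i s hs
    have h1 : Commute s (z ^ i) := ((show Commute z s from hzc s).pow_left i).symm
    rw [← h1.eq]
    refine hN s (z ^ i) h1 hs ⟨1, ?_⟩
    rw [pow_one, ← pow_mul, mul_comm, pow_mul, hzp, one_pow]
  -- singular elements
  have hsing : ∀ (i : ℕ) (s : A), Reg ℓ s → 0 < i → i < ℓ → ¬ Reg ℓ (z ^ i * s) := by
    intro i s hs hi hi2 hreg
    have h1 := hpowN i s hs
    have h2 := hpowN 0 (z ^ i * s) hreg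
    rw [pow_zero, one_mul] at h2
    rw [h2] at h1
    have h3 : z ^ i = 1 := by
      have : z ^ i * s = 1 * s := by rw [h1, one_mul]
      exact mul_right_cancel this
    have h4 := orderOf_dvd_of_pow_eq_one h3
    rw [hzo] at h4
    exact absurd (Nat.le_of_dvd hi h4) (not_le.2 hi2)
  -- the sums over the characters with a given scalar
  have hE0 : ∀ l : ℂ, l ^ ℓ = 1 → ∀ s s' : A, Reg ℓ s → Reg ℓ s' →
      (ℓ : ℂ) * ∑ μ ∈ Γ.filter (fun μ => lam μ = l), μ s⁻¹ * μ s' = ∑ μ ∈ Γ, μ s⁻¹ * μ s' := by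
    intro l hl s s' hs hs'
    have hl0 : l ≠ 0 := by
      rintro rfl
      rw [zero_pow hℓ0.ne'] at hl
      exact zero_ne_one hl
    have h1 : ∑ i ∈ Finset.range ℓ, (l⁻¹) ^ i * ∑ μ ∈ Γ, μ s⁻¹ * μ (z ^ i * s') =
        ∑ μ ∈ Γ, μ s⁻¹ * μ s' := by
      rw [Finset.sum_eq_single_of_mem 0 (Finset.mem_range.2 hℓ0)]
      · simp only [pow_zero, one_mul]
      · intro i hi hi0
        rw [← hsum, wbo ℓ M hM A γ hγ s (z ^ i * s') hs
          (hsing i s' hs' (Nat.pos_of_ne_zero hi0) (Finset.mem_range.1 hi)), mul_zero]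
    rw [← h1]
    calc (ℓ : ℂ) * ∑ μ ∈ Γ.filter (fun μ => lam μ = l), μ s⁻¹ * μ s'
        = ∑ μ ∈ Γ, (μ s⁻¹ * μ s') * ∑ i ∈ Finset.range ℓ, (l⁻¹ * lam μ) ^ i := by
          rw [Finset.mul_sum, Finset.sum_filter]
          refine Finset.sum_congr rfl fun μ hμ => ?_
          have hμ' := (hlam μ ((hΓm μ).1 hμ).1).1
          by_cases h : lam μ = l
          · rw [if_pos h, h, inv_mul_cancel₀ hl0]
            simp
            ring
          · rw [if_neg h, geom, mul_zero]
            · rw [mul_pow, inv_pow, hl, hμ', inv_one, one_mul]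
            · intro h2
              apply h
              field_simp at h2
              exact h2
      _ = ∑ i ∈ Finset.range ℓ, (l⁻¹) ^ i * ∑ μ ∈ Γ, μ s⁻¹ * μ (z ^ i * s') := by
          simp_rw [Finset.mul_sum]
          rw [Finset.sum_comm]
          refine Finset.sum_congr rfl fun i _ => Finset.sum_congr rfl fun μ hμ => ?_
          rw [(hlam μ ((hΓm μ).1 hμ).1).2, mul_pow]
          ring
  -- the characters with the scalar one
  have hone : Γ.filter (fun μ => lam μ = 1) = {fun a => κ₀ (p a)} := by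
    ext μ
    rw [Finset.mem_filter, Finset.mem_singleton, hΓm]
    constructor
    · rintro ⟨hμ, hμ1⟩
      -- `μ` is inflated
      have hμA := hμ.1
      obtain ⟨θ, hθ, hθμ⟩ := irr_defl hp hzc hkp hμA (fun c => by
        have := (hlam μ hμA).2 1 c
        rwa [pow_one, pow_one, hμ1, one_mul] at this)
      have h1 : θ ∈ ({κ₀} : Set (B → ℂ)) := by
        rw [hpsi1]
        exact ⟨hθ, by rw [← hθμ]; exact hμ⟩
      rw [hθμ, Set.mem_singleton_iff.1 h1]
    · rintro rfl
      refine ⟨hκ₀B.2, ?_⟩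
      have h1 := (hlam _ hκ₀A).2 1 1
      rw [pow_one, pow_one] at h1
      have h2 : κ₀ (p (z * 1)) = κ₀ (p 1) := by
        have := hpz 1 1
        rw [pow_one] at this
        rw [this]
      have h3 : κ₀ (p 1) ≠ 0 := irr_one_ne hκ₀A
      have h4 : (lam (fun a => κ₀ (p a)) - 1) * κ₀ (p 1) = 0 := by
        rw [h2] at h1
        linear_combination -h1
      rcases mul_eq_zero.1 h4 with h | h
      · exact sub_eq_zero.1 h
      · exact absurd h h3
  have hE : ∀ l : ℂ, l ^ ℓ = 1 → ∀ s s' : A, Reg ℓ s → Reg ℓ s' →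
      ∑ μ ∈ Γ.filter (fun μ => lam μ = l), μ s⁻¹ * μ s' = κ₀ (p s⁻¹) * κ₀ (p s') := by
    intro l hl s s' hs hs'
    have h1 := hE0 l hl s s' hs hs'
    have h2 := hE0 1 (one_pow _) s s' hs hs'
    rw [← h2, hone, Finset.sum_singleton] at h1
    exact mul_left_cancel₀ hℓC h1
  -- real numbers
  obtain ⟨d, hd, hκd⟩ := irr_one hκ.1
  obtain ⟨d₀, hd₀, hκd₀'⟩ := irr_one hκ₀A
  have hκd₀ : κ₀ (p 1) = d₀ := hκd₀'
  obtain ⟨l, hl⟩ : ∃ l, l = lam κ := ⟨_, rfl⟩
  have hll : l ^ ℓ = 1 := by rw [hl]; exact (hlam κ hκ.1).1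
  have hκl : κ ∈ Γ.filter (fun μ => lam μ = l) := by
    rw [Finset.mem_filter, hΓm]
    exact ⟨hκ, hl.symm⟩
  have hreg1 : Reg ℓ (1 : A) := by
    unfold Reg
    rw [orderOf_one]
    exact Nat.coprime_one_left ℓ
  have hsq : ∀ μ ∈ Irr A, ∀ x : A, μ x * μ x⁻¹ = ((‖μ x‖ ^ 2 : ℝ) : ℂ) := by
    intro μ hμ x
    rw [← H94.irr_star hμ, Complex.mul_conj, Complex.normSq_eq_norm_sq]
  -- proportionality
  have hprop : ∀ s : A, Reg ℓ s → κ₀ (p 1) * κ s = κ₀ (p s) * κ 1 := by
    intro s hs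
    have hterm : ∀ μ ∈ Γ.filter (fun μ => lam μ = l),
        ((‖κ₀ (p 1) * μ s - κ₀ (p s) * μ 1‖ ^ 2 : ℝ) : ℂ) =
        κ₀ (p 1) * κ₀ (p 1) * (μ s⁻¹ * μ s) - κ₀ (p 1) * κ₀ (p s⁻¹) * (μ 1⁻¹ * μ s) -
          κ₀ (p s) * κ₀ (p 1) * (μ s⁻¹ * μ 1) + κ₀ (p s) * κ₀ (p s⁻¹) * (μ 1⁻¹ * μ 1) := by
      intro μ hμ
      have hμA : μ ∈ Irr A := ((hΓm μ).1 (Finset.mem_filter.1 hμ).1).1
      rw [← Complex.normSq_eq_norm_sq, ← Complex.mul_conj, map_sub, map_mul, map_mul,
        H94.irr_star hμA, H94.irr_star hμA]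
      have e1 : starRingEnd ℂ (κ₀ (p 1)) = κ₀ (p 1⁻¹) := H94.irr_star hκ₀A 1
      have e2 : starRingEnd ℂ (κ₀ (p s)) = κ₀ (p s⁻¹) := H94.irr_star hκ₀A s
      rw [e1, e2]
      simp only [inv_one]
      ring
    have hzero : ((∑ μ ∈ Γ.filter (fun μ => lam μ = l),
        ‖κ₀ (p 1) * μ s - κ₀ (p s) * μ 1‖ ^ 2 : ℝ) : ℂ) = 0 := by
      push_cast
      have h0 : ∀ μ ∈ Γ.filter (fun μ => lam μ = l),
          ((‖κ₀ (p 1) * μ s - κ₀ (p s) * μ 1‖ : ℝ) : ℂ) ^ 2 =
          κ₀ (p 1) * κ₀ (p 1) * (μ s⁻¹ * μ s) - κ₀ (p 1) * κ₀ (p s⁻¹) * (μ 1⁻¹ * μ s) -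
          κ₀ (p s) * κ₀ (p 1) * (μ s⁻¹ * μ 1) + κ₀ (p s) * κ₀ (p s⁻¹) * (μ 1⁻¹ * μ 1) := by
        intro μ hμ
        rw [← hterm μ hμ]
        push_cast
        rfl
      rw [Finset.sum_congr rfl h0, Finset.sum_add_distrib, Finset.sum_sub_distrib,
        Finset.sum_sub_distrib, ← Finset.mul_sum, ← Finset.mul_sum, ← Finset.mul_sum,
        ← Finset.mul_sum, hE l hll s s hs hs, hE l hll 1 s hreg1 hs, hE l hll s 1 hs hreg1,
        hE l hll 1 1 hreg1 hreg1, inv_one]
      ring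
    have hzero' : ∑ μ ∈ Γ.filter (fun μ => lam μ = l),
        ‖κ₀ (p 1) * μ s - κ₀ (p s) * μ 1‖ ^ 2 = 0 := by exact_mod_cast hzero
    have h2 := (Finset.sum_eq_zero_iff_of_nonneg (fun μ _ => by positivity)).1 hzero' κ hκl
    have h3 : ‖κ₀ (p 1) * κ s - κ₀ (p s) * κ 1‖ = 0 := by
      exact pow_eq_zero_iff (two_ne_zero) |>.1 h2
    exact sub_eq_zero.1 (norm_eq_zero.1 h3)
  -- every element over a regular element
  have hdec : ∀ x : A, Reg ℓ (p x) → ∃ (i : ℕ) (s : A), Reg ℓ s ∧ x = z ^ i * s := by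
    intro x hx
    obtain ⟨s, hs, hsx⟩ := reg_lift (π := p) hp hk1 hx
    obtain ⟨i, hi⟩ := hkp (x * s⁻¹) (by rw [map_mul, map_inv, hsx, mul_inv_cancel])
    exact ⟨i, s, hs, by rw [← hi]; group⟩
  -- the ratio of the degrees is an integer
  have hκ₀ZI : (fun a => κ₀ (p a)) ∈ ZI A := AddSubgroup.subset_closure hκ₀A
  have hκZI : κ ∈ ZI A := AddSubgroup.subset_closure hκ.1
  obtain ⟨m, hm⟩ := ada A N κ hκZI (fun a => κ₀ (p a)) hκ₀ZI
  have hcardA : (Fintype.card A : ℂ) ≠ 0 := by exact_mod_cast Fintype.card_ne_zero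
  have hm2 : κ₀ (p 1) * m = κ 1 := by
    rw [← hm]
    unfold ipn
    rw [finsum_eq_sum_of_fintype, Nat.card_eq_fintype_card]
    have h1 : ∀ x : A, κ₀ (p 1) * (κ (x ^ N) * starRingEnd ℂ (κ₀ (p x))) =
        κ 1 * (κ₀ (p x) * κ₀ (p x⁻¹)) := by
      intro x
      have e1 : starRingEnd ℂ (κ₀ (p x)) = κ₀ (p x⁻¹) := H94.irr_star hκ₀A x
      rw [e1]
      by_cases hx : Reg ℓ (p x)
      · obtain ⟨i, s, hs, hxs⟩ := hdec x hx
        have h2 : κ (x ^ N) = κ s := by rw [hxs, hpowN i s hs]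
        have h3 : p x = p s := by rw [hxs, hpz]
        rw [h2, h3, ← mul_assoc, hprop s hs]
        ring
      · have h2 : κ₀ (p x) = 0 := hrc.sg _ hx
        have h3 : κ₀ (p x⁻¹) = 0 := by rw [← e1, h2, map_zero]
        rw [h3, mul_zero, mul_zero, mul_zero, mul_zero]
    have h2 : κ₀ (p 1) * ((Fintype.card A : ℂ)⁻¹ *
        ∑ x : A, κ (x ^ N) * starRingEnd ℂ (κ₀ (p x))) =
        (Fintype.card A : ℂ)⁻¹ * (κ 1 * ∑ x : A, κ₀ (p x) * κ₀ (p x⁻¹)) := by
      rw [Finset.mul_sum (s := Finset.univ) (a := κ 1), ← Finset.sum_congr rfl fun x _ => h1 x,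
        ← Finset.mul_sum]
      ring
    rw [h2]
    have h3 : ∑ x : A, κ₀ (p x) * κ₀ (p x⁻¹) = Fintype.card A := irr_orth_self hκ₀A
    rw [h3]
    field_simp
  -- the degrees are equal
  have hdeg : κ 1 = κ₀ (p 1) := by
    have h1 := hE l hll 1 1 hreg1 hreg1
    rw [inv_one] at h1
    have h2 : ∀ μ ∈ Γ.filter (fun μ => lam μ = l), ∃ a : ℕ, μ 1 = a := by
      intro μ hμ
      obtain ⟨a, -, ha⟩ := irr_one ((hΓm μ).1 (Finset.mem_filter.1 hμ).1).1
      exact ⟨a, ha⟩
    have h3 : ∃ r : ℕ, ∑ μ ∈ (Γ.filter (fun μ => lam μ = l)).erase κ, μ 1 * μ 1 = r := by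
      have h4 : ∀ S : Finset (A → ℂ), (∀ μ ∈ S, ∃ a : ℕ, μ 1 = a) →
          ∃ r : ℕ, ∑ μ ∈ S, μ 1 * μ 1 = r := by
        intro S
        induction S using Finset.induction_on with
        | empty => exact fun _ => ⟨0, by simp⟩
        | insert μ S hμ ih =>
          intro h
          obtain ⟨a, ha⟩ := h μ (Finset.mem_insert_self _ _)
          obtain ⟨r, hr⟩ := ih fun ν hν => h ν (Finset.mem_insert_of_mem hν)
          refine ⟨a * a + r, ?_⟩
          rw [Finset.sum_insert hμ, ha, hr]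
          push_cast
          ring
      exact h4 _ fun μ hμ => h2 μ (Finset.mem_of_mem_erase hμ)
    obtain ⟨r, hr⟩ := h3
    rw [← Finset.add_sum_erase _ _ hκl, hr, hκd, hκd₀] at h1
    have h5 : d * d + r = d₀ * d₀ := by exact_mod_cast h1
    rw [hκd₀, hκd] at hm2
    have h6 : (d₀ : ℤ) * m = d := by exact_mod_cast hm2
    have hd0Z : (0 : ℤ) < d₀ := by exact_mod_cast hd₀
    have hdZ : (0 : ℤ) < d := by exact_mod_cast hd
    have hmpos : 0 < m := by
      by_contra h
      have : (d₀ : ℤ) * m ≤ 0 := mul_nonpos_of_nonneg_of_nonpos hd0Z.le (not_lt.1 h)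
      omega
    have h7 : (d : ℤ) * d ≤ d₀ * d₀ := by
      have : ((d * d + r : ℕ) : ℤ) = ((d₀ * d₀ : ℕ) : ℤ) := by rw [h5]
      push_cast at this
      have hr0 : (0 : ℤ) ≤ r := by positivity
      linarith
    have h8 : (d : ℤ) ≤ d₀ := by
      by_contra h
      push Not at h
      nlinarith
    have h9 : m = 1 := by
      have : m ≤ 1 := by
        by_contra h
        push Not at h
        have : (d₀ : ℤ) * 2 ≤ d₀ * m := mul_le_mul_of_nonneg_left (by omega) hd0Z.le
        omega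
      omega
    rw [h9, mul_one] at h6
    rw [hκd, hκd₀]
    exact_mod_cast h6.symm
  have hreg : ∀ s : A, Reg ℓ s → κ s = κ₀ (p s) := by
    intro s hs
    have h1 := hprop s hs
    rw [hdeg, mul_comm] at h1
    exact mul_right_cancel₀ (irr_one_ne hκ₀A) h1
  have hform : ∀ (i : ℕ) (s : A), Reg ℓ s → κ (z ^ i * s) = l ^ i * κ₀ (p s) := by
    intro i s hs
    rw [(hlam κ hκ.1).2, ← hl, hreg s hs]
  refine ⟨l, hll, hform, fun x hx => ?_⟩
  -- the norms
  have hl1 : ‖l‖ = 1 := by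
    have h1 : ‖l‖ ^ ℓ = 1 := by rw [← norm_pow, hll, norm_one]
    exact (pow_eq_one_iff_of_nonneg (norm_nonneg _) hℓ0.ne').1 h1
  have hn1 : ∑ x : A, ‖κ x‖ ^ 2 = ∑ x : A, ‖κ₀ (p x)‖ ^ 2 := by
    have h1 := irr_orth_self hκ.1
    have h2 : ∑ x : A, κ₀ (p x) * κ₀ (p x⁻¹) = Fintype.card A := irr_orth_self hκ₀A
    rw [← h2, Finset.sum_congr rfl fun x _ => hsq κ hκ.1 x] at h1
    have h3 : ∀ x : A, κ₀ (p x) * κ₀ (p x⁻¹) = ((‖κ₀ (p x)‖ ^ 2 : ℝ) : ℂ) := hsq _ hκ₀A
    rw [Finset.sum_congr rfl fun x _ => h3 x] at h1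
    exact_mod_cast h1
  have hle : ∀ x : A, ‖κ₀ (p x)‖ ^ 2 ≤ ‖κ x‖ ^ 2 := by
    intro x
    by_cases hx : Reg ℓ (p x)
    · obtain ⟨i, s, hs, hxs⟩ := hdec x hx
      rw [hxs, hform i s hs, hpz, norm_mul, norm_pow, hl1, one_pow, one_mul]
    · rw [hrc.sg _ hx, norm_zero, zero_pow two_ne_zero]
      positivity
  have heq := (Finset.sum_eq_sum_iff_of_le (fun x _ => hle x)).1 hn1.symm
  have h1 := heq x (Finset.mem_univ x)
  have h2 : ¬ Reg ℓ (p x) := by
    intro h
    obtain ⟨i, s, hs, hxs⟩ := hdec x h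
    exact hx i s hs hxs
  rw [hrc.sg _ h2, norm_zero] at h1
  have h3 : ‖κ x‖ = 0 := by
    have : ‖κ x‖ ^ 2 = 0 := by rw [← h1]; norm_num
    exact pow_eq_zero_iff (two_ne_zero) |>.1 this
  exact norm_eq_zero.1 h3

end Pool.Agent.PP.K9.H86
end
end -- Pool.Agent.Helper86_K9.CE0

section -- Pool.Agent.Helper86_K9.SEC

/-!
# Squad K9, row SEC: orthogonality relations for the `A_χ`
-/

open scoped BigOperators

set_option linter.unusedSectionVars false

noncomputable section

namespace Pool.Agent.PP.K9.H86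

open Pool.Agent.Helper51_AWC Pool.Agent.Helper79_WRA Pool.Agent.PP Pool.Agent.PP.KF

variable {ℓ : ℕ} [hℓ : Fact ℓ.Prime] {G H : Type} [Group G] [Finite G] [Group H] [Finite H]
  {u : G} {π : Cu u →* H}

open Classical in
theorem av_eq [Fintype (Cu u)] (w : G) (p : H → ℂ) (χ : G → ℂ) :
    Av ℓ π w p χ = (Nat.card H : ℂ)⁻¹ *
      ∑ s : Cu u, χ (w * s) * (if Reg ℓ s then starRingEnd ℂ (p (π s)) else 0) := by
  unfold Av
  congr 1
  rw [finsum_eq_sum_of_fintype]
  refine Finset.sum_congr rfl fun s _ => ?_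
  by_cases hs : Reg ℓ s
  · rw [if_pos hs, finsum_eq_single _ hs (fun h hh => absurd rfl hh)]
  · rw [if_neg hs, mul_zero]
    have : IsEmpty (Reg ℓ s) := ⟨hs⟩
    exact finsum_of_isEmpty _

open Classical in
theorem av_star [Fintype (Cu u)] (w : G) (p : H → ℂ) {χ : G → ℂ} (hχ : χ ∈ Irr G) :
    starRingEnd ℂ (Av ℓ π w p χ) = (Nat.card H : ℂ)⁻¹ *
      ∑ s : Cu u, χ (w * s)⁻¹ * (if Reg ℓ s then p (π s) else 0) := by
  rw [av_eq, map_mul, map_inv₀, Complex.conj_natCast, map_sum]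
  congr 1
  refine Finset.sum_congr rfl fun s _ => ?_
  rw [map_mul, H94.irr_star hχ]
  congr 1
  by_cases hs : Reg ℓ s
  · rw [if_pos hs, if_pos hs, Complex.conj_conj]
  · rw [if_neg hs, if_neg hs, map_zero]

open Classical in
/-- the orthogonality relation as a sum over the group -/
theorem pair [Fintype G] [Fintype (Cu u)] [Fintype (Irr G)] (w w' : G) (a b : Cu u → ℂ) :
    ∑ χ : Irr G, (∑ s : Cu u, (χ : G → ℂ) (w * s) * a s) *
      (∑ s' : Cu u, (χ : G → ℂ) (w' * s')⁻¹ * b s') =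
    ∑ x : G, ∑ s : Cu u, ∑ s' : Cu u,
      if x⁻¹ * (w * s) * x = w' * s' then a s * b s' else 0 := by
  calc ∑ χ : Irr G, (∑ s : Cu u, (χ : G → ℂ) (w * s) * a s) *
      (∑ s' : Cu u, (χ : G → ℂ) (w' * s')⁻¹ * b s')
      = ∑ χ : Irr G, ∑ s : Cu u, ∑ s' : Cu u,
          (a s * b s') * ((χ : G → ℂ) (w * s) * (χ : G → ℂ) (w' * s')⁻¹) := by
        refine Finset.sum_congr rfl fun χ _ => ?_
        rw [Finset.sum_mul_sum]
        exact Finset.sum_congr rfl fun s _ => Finset.sum_congr rfl fun s' _ => by ring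
    _ = ∑ s : Cu u, ∑ s' : Cu u, (a s * b s') *
          ∑ χ : Irr G, ((χ : G → ℂ) (w * s) * (χ : G → ℂ) (w' * s')⁻¹) := by
        rw [Finset.sum_comm]
        refine Finset.sum_congr rfl fun s _ => ?_
        rw [Finset.sum_comm]
        exact Finset.sum_congr rfl fun s' _ => by rw [Finset.mul_sum]
    _ = ∑ s : Cu u, ∑ s' : Cu u, ∑ x : G,
          if x⁻¹ * (w * s) * x = w' * s' then a s * b s' else 0 := by
        refine Finset.sum_congr rfl fun s _ => Finset.sum_congr rfl fun s' _ => ?_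
        rw [col_sum, Finset.mul_sum]
        refine Finset.sum_congr rfl fun x _ => ?_
        have h1 : x⁻¹ * (w * (s : G))⁻¹ * x = (w' * (s' : G))⁻¹ ↔
            x⁻¹ * (w * (s : G)) * x = w' * s' := by
          rw [← inv_inj, inv_inv]
          have : (x⁻¹ * (w * (s : G))⁻¹ * x)⁻¹ = x⁻¹ * (w * (s : G)) * x := by group
          rw [this]
        by_cases h : x⁻¹ * (w * (s : G)) * x = w' * s'
        · rw [if_pos h, if_pos (h1.2 h), mul_one]
        · rw [if_neg h, if_neg (fun h' => h (h1.1 h')), mul_zero]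
    _ = ∑ s : Cu u, ∑ x : G, ∑ s' : Cu u,
          if x⁻¹ * (w * s) * x = w' * s' then a s * b s' else 0 :=
        Finset.sum_congr rfl fun s _ => Finset.sum_comm
    _ = _ := Finset.sum_comm

theorem mem_pow {w : G} (hw : w ∈ Subgroup.zpowers u) (hu : orderOf u = ℓ) : w ^ ℓ = 1 := by
  obtain ⟨k, rfl⟩ := hw
  rw [← zpow_natCast, ← zpow_mul, mul_comm, zpow_mul, zpow_natCast, ← hu, pow_orderOf_eq_one,
    one_zpow]

theorem comm_pow {w : G} (hw : w ∈ Subgroup.zpowers u) (s : Cu u) : Commute (s : G) w := by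
  obtain ⟨k, rfl⟩ := hw
  have h1 : (s : G) * u = u * s := Subgroup.mem_centralizer_singleton_iff.1 s.2
  exact (show Commute (s : G) u from h1).zpow_right k

theorem gen_pow {w : G} (hw : w ∈ Subgroup.zpowers u) (hw1 : w ≠ 1) (hu : orderOf u = ℓ) :
    ∃ k : ℤ, u = w ^ k := by
  have h1 : orderOf w = ℓ := orderOf_eq_prime (mem_pow hw hu) hw1
  have h2 : Subgroup.zpowers w ≤ Subgroup.zpowers u := by
    rw [Subgroup.zpowers_le]
    exact hw
  have h3 : Subgroup.zpowers w = Subgroup.zpowers u := by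
    apply Subgroup.eq_of_le_of_card_ge h2
    rw [Nat.card_zpowers, Nat.card_zpowers, h1, hu]
  have h4 : u ∈ Subgroup.zpowers w := by
    rw [h3]
    exact Subgroup.mem_zpowers u
  obtain ⟨k, hk⟩ := h4
  exact ⟨k, hk.symm⟩

theorem reg_coe {s : Cu u} (hs : Reg ℓ s) : Reg ℓ (s : G) := by
  unfold Reg at hs ⊢
  rwa [Subgroup.orderOf_coe]

/-- the parts of conjugate elements are conjugate -/
theorem parts_conj (hu : orderOf u = ℓ) {w w' : G} (hw : w ∈ Subgroup.zpowers u)
    (hw' : w' ∈ Subgroup.zpowers u) {s s' : Cu u} (hs : Reg ℓ s) (hs' : Reg ℓ s') {x : G}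
    (h : x⁻¹ * (w * s) * x = w' * s') : x⁻¹ * w * x = w' ∧ x⁻¹ * s * x = s' := by
  obtain ⟨N, -, hN⟩ := H27.prt ℓ G
  have key : ∀ (v : G) (_ : v ∈ Subgroup.zpowers u) (t : Cu u) (_ : Reg ℓ t), (v * t) ^ N = t := by
    intro v hv t ht
    have h1 := comm_pow hv t
    rw [← h1.eq]
    exact hN t v h1 (reg_coe ht) ⟨1, by rw [pow_one]; exact mem_pow hv hu⟩
  have h1 : x⁻¹ * s * x = s' := by
    rw [← key w' hw' s' hs', ← h]
    have h2 : x⁻¹ * (w * s) * x = x⁻¹ * (w * s) * (x⁻¹)⁻¹ := by group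
    rw [h2, conj_pow, key w hw s hs]
    group
  refine ⟨?_, h1⟩
  have h2 : x⁻¹ * (w * s) * x = (x⁻¹ * w * x) * (x⁻¹ * s * x) := by group
  rw [h2, h1] at h
  exact mul_right_cancel h

theorem qt_pow (hQ : Qt ℓ u π) (c : Cu u) (h : π c = 1) : c ^ ℓ = 1 := by
  have h1 := (hQ.ker c).1 h
  apply Subtype.ext
  exact mem_pow h1 hQ.ord

theorem qt_comm (hQ : Qt ℓ u π) (c d : Cu u) (h : π c = 1) : c * d = d * c := by
  have h1 := (hQ.ker c).1 h
  apply Subtype.ext
  exact (comm_pow h1 d).eq.symm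

theorem qt_card (hQ : Qt ℓ u π) : Nat.card (Cu u) = ℓ * Nat.card H := by
  rw [card_eq hQ.sur]
  congr 1
  have h1 : Nat.card π.ker = Nat.card (Subgroup.zpowers u) := by
    refine Nat.card_congr
      { toFun := fun k => ⟨((k : Cu u) : G), (hQ.ker _).1 k.2⟩
        invFun := fun g => ⟨⟨g, ?_⟩, (hQ.ker _).2 g.2⟩
        left_inv := fun k => rfl
        right_inv := fun g => rfl }
    rw [Subgroup.mem_centralizer_singleton_iff]
    obtain ⟨k, hk⟩ := g.2
    rw [← hk]
    exact ((Commute.refl u).zpow_left k).eq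
  rw [h1, Nat.card_zpowers, hQ.ord]

theorem finsum_irr [Fintype (Irr G)] (f : (G → ℂ) → ℂ) :
    ∑ᶠ χ ∈ Irr G, f χ = ∑ χ : Irr G, f χ := by
  rw [← finsum_set_coe_eq_finsum_mem (Irr G)]
  exact finsum_eq_sum_of_fintype _

theorem sec : SecStmt := by
  intro ℓ _ G H _ _ _ _ u π hQ p q hp hq w hw hw1
  classical
  have := Fintype.ofFinite G
  have := Fintype.ofFinite H
  have := Fintype.ofFinite (Cu u)
  have := Fintype.ofFinite (Irr G)
  -- the general form
  have gen : ∀ w' ∈ Subgroup.zpowers u,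
      ∑ᶠ χ ∈ Irr G, Av ℓ π w p χ * starRingEnd ℂ (Av ℓ π w' q χ) =
      ((Nat.card H : ℂ)⁻¹ * (Nat.card H : ℂ)⁻¹) * ∑ x : G, ∑ s : Cu u, ∑ s' : Cu u,
        if x⁻¹ * (w * s) * x = w' * s' then
          (if Reg ℓ s then starRingEnd ℂ (p (π s)) else 0) * (if Reg ℓ s' then q (π s') else 0)
        else 0 := by
    intro w' _
    rw [finsum_irr, ← pair, Finset.mul_sum]
    refine Finset.sum_congr rfl fun χ _ => ?_
    rw [av_eq, av_star w' q χ.2]
    ring
  refine ⟨?_, ?_, ?_⟩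
  · rw [gen w hw]
    -- the inner sums
    have h1 : ∀ x : G, ∑ s : Cu u, ∑ s' : Cu u, (if x⁻¹ * (w * s) * x = w * s' then
          (if Reg ℓ s then starRingEnd ℂ (p (π s)) else 0) * (if Reg ℓ s' then q (π s') else 0)
        else 0) = if x ∈ Cu u then
          ∑ s : Cu u, (if Reg ℓ s then starRingEnd ℂ (p (π s)) * q (π s) else 0) else 0 := by
      intro x
      by_cases hx : x ∈ Cu u
      · rw [if_pos hx]
        refine Finset.sum_congr rfl fun s _ => ?_
        by_cases hs : Reg ℓ s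
        · obtain ⟨t, ht⟩ : ∃ t : Cu u, t = ⟨x, hx⟩⁻¹ * s * ⟨x, hx⟩ := ⟨_, rfl⟩
          have hxw : x⁻¹ * w * x = w := by
            have := (comm_pow hw ⟨x, hx⟩).eq
            change x * w = w * x at this
            rw [mul_assoc, ← this]
            group
          rw [Finset.sum_eq_single t]
          · have e1 : x⁻¹ * (w * s) * x = w * t := by
              have : x⁻¹ * (w * s) * x = (x⁻¹ * w * x) * (x⁻¹ * s * x) := by group
              rw [this, hxw, ht]
              rfl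
            have e2 : Reg ℓ t := by
              have e3 : t = (⟨x, hx⟩ : Cu u)⁻¹ * s * ((⟨x, hx⟩ : Cu u)⁻¹)⁻¹ := by
                rw [ht, inv_inv]
              unfold Reg at hs ⊢
              have e4 : orderOf t = orderOf s := by
                rw [e3, ← MulAut.conj_apply]
                exact MulEquiv.orderOf_eq _ _
              rw [e4]
              exact hs
            have e5 : q (π t) = q (π s) := by
              have e6 : π t = (π ⟨x, hx⟩)⁻¹ * π s * ((π ⟨x, hx⟩)⁻¹)⁻¹ := by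
                rw [ht, map_mul, map_mul, map_inv, inv_inv]
              rw [e6, hq.cl]
            rw [if_pos e1, if_pos hs, if_pos e2, if_pos hs, e5]
          · intro s' _ hne
            by_cases h : x⁻¹ * (w * s) * x = w * s'
            · rw [if_pos h]
              by_cases hs' : Reg ℓ s'
              · exfalso
                apply hne
                apply Subtype.ext
                rw [ht]
                exact (parts_conj hQ.ord hw hw hs hs' h).2.symm
              · rw [if_neg hs', mul_zero]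
            · rw [if_neg h]
          · intro h
            exact absurd (Finset.mem_univ _) h
        · have e0 : (if Reg ℓ s then starRingEnd ℂ (p (π s)) * q (π s) else 0) = 0 := if_neg hs
          rw [e0]
          refine Finset.sum_eq_zero fun s' _ => ?_
          rw [if_neg hs, zero_mul, ite_self]
      · rw [if_neg hx]
        refine Finset.sum_eq_zero fun s _ => Finset.sum_eq_zero fun s' _ => ?_
        by_cases h : x⁻¹ * (w * s) * x = w * s'
        · rw [if_pos h]
          by_cases hs : Reg ℓ s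
          · by_cases hs' : Reg ℓ s'
            · exfalso
              apply hx
              have h2 := (parts_conj hQ.ord hw hw hs hs' h).1
              have h3 : Commute x w := by
                have : w * x = x * w := by
                  calc w * x = x * (x⁻¹ * w * x) := by group
                    _ = x * w := by rw [h2]
                exact this.symm
              obtain ⟨k, hk⟩ := gen_pow hw hw1 hQ.ord
              rw [Subgroup.mem_centralizer_singleton_iff, hk]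
              exact (h3.zpow_right k).eq
            · rw [if_neg hs', mul_zero]
          · rw [if_neg hs, zero_mul]
        · rw [if_neg h]
    rw [Finset.sum_congr rfl fun x _ => h1 x]
    rw [← Finset.sum_filter, Finset.sum_const, nsmul_eq_mul]
    have h2 : ((Finset.univ.filter fun x : G => x ∈ Cu u).card : ℂ) = (ℓ : ℂ) * Nat.card H := by
      have h3 : (Finset.univ.filter fun x : G => x ∈ Cu u).card = Nat.card (Cu u) := by
        rw [Nat.card_eq_fintype_card]
        exact (Fintype.card_subtype _).symm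
      rw [h3, qt_card hQ]
      push_cast
      rfl
    rw [h2, sum_reg (f := fun h => starRingEnd ℂ (p h) * q h) hQ.sur (qt_pow hQ) (qt_comm hQ)]
    have h4 : ∑ h : H, (if Reg ℓ h then starRingEnd ℂ (p h) * q h else 0) =
        ∑ h : H, q h * starRingEnd ℂ (p h) := by
      refine Finset.sum_congr rfl fun h _ => ?_
      by_cases hh : Reg ℓ h
      · rw [if_pos hh, mul_comm]
      · rw [if_neg hh, hq.sg h hh, zero_mul]
    rw [h4]
    unfold ipn
    rw [finsum_eq_sum_of_fintype]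
    have h5 : (Nat.card H : ℂ) ≠ 0 := by
      exact_mod_cast Nat.card_pos.ne'
    field_simp
  · rw [finsum_irr]
    have h1 : ∀ χ : Irr G, Av ℓ π w p χ * (χ : G → ℂ) 1 = (Nat.card H : ℂ)⁻¹ *
        ∑ s : Cu u, (if Reg ℓ s then starRingEnd ℂ (p (π s)) else 0) *
          ((χ : G → ℂ) (w * s) * (χ : G → ℂ) 1) := by
      intro χ
      rw [av_eq, mul_assoc, Finset.sum_mul]
      congr 1
      exact Finset.sum_congr rfl fun s _ => by ring
    rw [Finset.sum_congr rfl fun χ _ => h1 χ, ← Finset.mul_sum, Finset.sum_comm]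
    have h2 : ∑ s : Cu u, ∑ χ : Irr G, (if Reg ℓ s then starRingEnd ℂ (p (π s)) else 0) *
          ((χ : G → ℂ) (w * s) * (χ : G → ℂ) 1) = 0 := by
      refine Finset.sum_eq_zero fun s _ => ?_
      rw [← Finset.mul_sum, col_sum]
      by_cases hs : Reg ℓ s
      · have h3 : ∑ x : G, (if x⁻¹ * (w * (s : G))⁻¹ * x = 1 then (1 : ℂ) else 0) = 0 := by
          refine Finset.sum_eq_zero fun x _ => ?_
          rw [if_neg]
          intro h
          have h4 : w * (s : G) = 1 := by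
            have : (w * (s : G))⁻¹ = x * (x⁻¹ * (w * (s : G))⁻¹ * x) * x⁻¹ := by group
            rw [h] at this
            have h5 : (w * (s : G))⁻¹ = 1 := by rw [this]; group
            exact inv_eq_one.1 h5
          apply hw1
          have h5 : x⁻¹ * (w * (s : G)) * x = (1 : G) * ((1 : Cu u) : G) := by
            rw [h4]
            simp
          have h6 := (parts_conj hQ.ord hw (Subgroup.one_mem _) hs (by
            unfold Reg
            rw [orderOf_one]
            exact Nat.coprime_one_left ℓ) h5).1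
          have h7 : w = x * (x⁻¹ * w * x) * x⁻¹ := by group
          rw [h7, h6]
          group
        rw [h3, mul_zero]
      · rw [if_neg hs, zero_mul]
    rw [h2, mul_zero]
  · intro w' hw' hw'1 hnc
    rw [gen w' hw']
    have h1 : ∑ x : G, ∑ s : Cu u, ∑ s' : Cu u, (if x⁻¹ * (w * s) * x = w' * s' then
          (if Reg ℓ s then starRingEnd ℂ (p (π s)) else 0) * (if Reg ℓ s' then q (π s') else 0)
        else 0) = 0 := by
      refine Finset.sum_eq_zero fun x _ => Finset.sum_eq_zero fun s _ =>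
        Finset.sum_eq_zero fun s' _ => ?_
      by_cases h : x⁻¹ * (w * s) * x = w' * s'
      · rw [if_pos h]
        by_cases hs : Reg ℓ s
        · by_cases hs' : Reg ℓ s'
          · exfalso
            apply hnc
            refine ⟨x⁻¹, ?_⟩
            rw [inv_inv]
            exact (parts_conj hQ.ord hw hw' hs hs' h).1.symm
          · rw [if_neg hs', mul_zero]
        · rw [if_neg hs, zero_mul]
      · rw [if_neg h]
    rw [h1, mul_zero]

end Pool.Agent.PP.K9.H86
end
end -- Pool.Agent.Helper86_K9.SEC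

section -- Pool.Agent.Helper25_C2.SEC2

/-!
# Squad C2, row SEC2: orthogonality relations for the `A_χ`, for `u` of order `ℓ ^ n`

Same proof as row SEC of squad K9 (`Pool/Agent/Helper86_K9/SEC.lean`).
-/

open scoped BigOperators

set_option linter.unusedSectionVars false

noncomputable section

namespace Pool.Agent.PP.C2.H25

open Pool.Agent.Helper51_AWC Pool.Agent.Helper79_WRA Pool.Agent.PP Pool.Agent.PP.KF
open Pool.Agent.PP.K9 Pool.Agent.PP.K9.H86

section quot

variable {ℓ : ℕ} [hℓ : Fact ℓ.Prime] {C H : Type} [Group C] [Finite C] [Group H] [Finite H]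
  {π : C →* H} {n : ℕ}

theorem reg_lift (hsur : Function.Surjective π) (hk : ∀ c : C, π c = 1 → c ^ ℓ ^ n = 1) {h : H}
    (hh : Reg ℓ h) : ∃ s : C, Reg ℓ s ∧ π s = h := by
  obtain ⟨c, rfl⟩ := hsur h
  obtain ⟨m, hm⟩ : ∃ m, m = orderOf (π c) := ⟨_, rfl⟩
  have hcop0 : Nat.Coprime m ℓ := by rw [hm]; exact hh
  have hcop : Nat.Coprime m (ℓ ^ n) := hcop0.pow_right n
  obtain ⟨k, hk1, hk0⟩ := Nat.chineseRemainder hcop 1 0
  have hk0' : ℓ ^ n ∣ k := (Nat.modEq_zero_iff_dvd).1 hk0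
  have hcm : (c ^ m) ^ ℓ ^ n = 1 := by
    apply hk
    rw [map_pow, hm, pow_orderOf_eq_one]
  refine ⟨c ^ k, ?_, ?_⟩
  · have h1 : (c ^ k) ^ m = 1 := by
      obtain ⟨j, rfl⟩ := hk0'
      rw [← pow_mul]
      have : ℓ ^ n * j * m = m * ℓ ^ n * j := by ring
      rw [this, pow_mul, pow_mul, hcm, one_pow]
    exact Nat.Coprime.coprime_dvd_left (orderOf_dvd_of_pow_eq_one h1) hcop0
  · rw [map_pow]
    conv_rhs => rw [← pow_one (π c)]
    rw [pow_eq_pow_iff_modEq, ← hm]
    exact hk1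

theorem reg_uniq (hk : ∀ c : C, π c = 1 → c ^ ℓ ^ n = 1)
    (hc : ∀ c d : C, π c = 1 → c * d = d * c)
    {s s' : C} (hs : Reg ℓ s) (hs' : Reg ℓ s') (h : π s = π s') : s = s' := by
  obtain ⟨N, -, hN⟩ := H27.prt ℓ C
  have h1 : π (s⁻¹ * s') = 1 := by rw [map_mul, map_inv, h, inv_mul_cancel]
  have h2 : s' = s * (s⁻¹ * s') := by group
  have h3 : s' ^ N = s := by
    rw [h2]
    exact hN s (s⁻¹ * s') (hc _ s h1).symm hs ⟨n, hk _ h1⟩
  have h4 : s' ^ N = s' := by
    have := hN s' 1 (Commute.one_right s') hs' ⟨0, one_pow _⟩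
    rwa [mul_one] at this
  rw [← h3, h4]

open Classical in
theorem sum_reg [Fintype C] [Fintype H] (hsur : Function.Surjective π)
    (hk : ∀ c : C, π c = 1 → c ^ ℓ ^ n = 1) (hc : ∀ c d : C, π c = 1 → c * d = d * c)
    (f : H → ℂ) :
    ∑ s : C, (if Reg ℓ s then f (π s) else 0) = ∑ h : H, if Reg ℓ h then f h else 0 := by
  rw [← Finset.sum_filter, ← Finset.sum_filter]
  refine Finset.sum_bij (fun s _ => π s) ?_ ?_ ?_ ?_
  · intro s hs
    rw [Finset.mem_filter] at hs ⊢
    exact ⟨Finset.mem_univ _, reg_map hs.2⟩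
  · intro s hs s' hs' h
    rw [Finset.mem_filter] at hs hs'
    exact reg_uniq hk hc hs.2 hs'.2 h
  · intro h hh
    rw [Finset.mem_filter] at hh
    obtain ⟨s, hs, hs2⟩ := reg_lift hsur hk hh.2
    exact ⟨s, Finset.mem_filter.2 ⟨Finset.mem_univ _, hs⟩, hs2⟩
  · intro s _
    rfl

end quot

variable {ℓ : ℕ} [hℓ : Fact ℓ.Prime] {G H : Type} [Group G] [Finite G] [Group H] [Finite H]
  {u : G} {π : Cu u →* H} {n : ℕ}

theorem mem_pow {w : G} (hw : w ∈ Subgroup.zpowers u) (hu : orderOf u = ℓ ^ n) :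
    w ^ ℓ ^ n = 1 := by
  obtain ⟨k, rfl⟩ := hw
  rw [← zpow_natCast, ← zpow_mul, mul_comm, zpow_mul, zpow_natCast, ← hu, pow_orderOf_eq_one,
    one_zpow]

theorem gen_pow {j : ℕ} (hj : j.Coprime ℓ) (hu : orderOf u = ℓ ^ n) :
    ∃ k : ℕ, u = (u ^ j) ^ k := by
  have h1 : Nat.Coprime j (orderOf u) := by
    rw [hu]
    exact hj.pow_right n
  obtain ⟨k, hk⟩ := exists_pow_eq_self_of_coprime h1
  exact ⟨k, hk.symm⟩

/-- the parts of conjugate elements are conjugate -/
theorem parts_conj (hu : orderOf u = ℓ ^ n) {w w' : G} (hw : w ∈ Subgroup.zpowers u)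
    (hw' : w' ∈ Subgroup.zpowers u) {s s' : Cu u} (hs : Reg ℓ s) (hs' : Reg ℓ s') {x : G}
    (h : x⁻¹ * (w * s) * x = w' * s') : x⁻¹ * w * x = w' ∧ x⁻¹ * s * x = s' := by
  obtain ⟨N, -, hN⟩ := H27.prt ℓ G
  have key : ∀ (v : G) (_ : v ∈ Subgroup.zpowers u) (t : Cu u) (_ : Reg ℓ t), (v * t) ^ N = t := by
    intro v hv t ht
    have h1 := comm_pow hv t
    rw [← h1.eq]
    exact hN t v h1 (reg_coe ht) ⟨n, mem_pow hv hu⟩
  have h1 : x⁻¹ * s * x = s' := by
    rw [← key w' hw' s' hs', ← h]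
    have h2 : x⁻¹ * (w * s) * x = x⁻¹ * (w * s) * (x⁻¹)⁻¹ := by group
    rw [h2, conj_pow, key w hw s hs]
    group
  refine ⟨?_, h1⟩
  have h2 : x⁻¹ * (w * s) * x = (x⁻¹ * w * x) * (x⁻¹ * s * x) := by group
  rw [h2, h1] at h
  exact mul_right_cancel h

theorem qt_pow (hQ : Qn (ℓ ^ n) u π) (c : Cu u) (h : π c = 1) : c ^ ℓ ^ n = 1 := by
  have h1 := (hQ.ker c).1 h
  apply Subtype.ext
  exact mem_pow h1 hQ.ord

theorem qt_comm (hQ : Qn (ℓ ^ n) u π) (c d : Cu u) (h : π c = 1) : c * d = d * c := by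
  have h1 := (hQ.ker c).1 h
  apply Subtype.ext
  exact (comm_pow h1 d).eq.symm

theorem qt_card (hQ : Qn (ℓ ^ n) u π) : Nat.card (Cu u) = ℓ ^ n * Nat.card H := by
  rw [card_eq hQ.sur]
  congr 1
  have h1 : Nat.card π.ker = Nat.card (Subgroup.zpowers u) := by
    refine Nat.card_congr
      { toFun := fun k => ⟨((k : Cu u) : G), (hQ.ker _).1 k.2⟩
        invFun := fun g => ⟨⟨g, ?_⟩, (hQ.ker _).2 g.2⟩
        left_inv := fun k => rfl
        right_inv := fun g => rfl }
    rw [Subgroup.mem_centralizer_singleton_iff]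
    obtain ⟨k, hk⟩ := g.2
    rw [← hk]
    exact ((Commute.refl u).zpow_left k).eq
  rw [h1, Nat.card_zpowers, hQ.ord]

theorem sec2 : Sec2Stmt := by
  intro ℓ _ n G H _ _ _ _ u π hQ p q hp hq j hj
  classical
  obtain ⟨w, hwj⟩ : ∃ w, w = u ^ j := ⟨_, rfl⟩
  have hw : w ∈ Subgroup.zpowers u := by
    rw [hwj]
    exact Subgroup.pow_mem _ (Subgroup.mem_zpowers u) j
  rw [← hwj]
  have := Fintype.ofFinite G
  have := Fintype.ofFinite H
  have := Fintype.ofFinite (Cu u)
  have := Fintype.ofFinite (Irr G)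
  -- the general form
  have gen : ∀ w' ∈ Subgroup.zpowers u,
      ∑ᶠ χ ∈ Irr G, Av ℓ π w p χ * starRingEnd ℂ (Av ℓ π w' q χ) =
      ((Nat.card H : ℂ)⁻¹ * (Nat.card H : ℂ)⁻¹) * ∑ x : G, ∑ s : Cu u, ∑ s' : Cu u,
        if x⁻¹ * (w * s) * x = w' * s' then
          (if Reg ℓ s then starRingEnd ℂ (p (π s)) else 0) * (if Reg ℓ s' then q (π s') else 0)
        else 0 := by
    intro w' _
    rw [finsum_irr, ← pair, Finset.mul_sum]
    refine Finset.sum_congr rfl fun χ _ => ?_
    rw [av_eq, av_star w' q χ.2]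
    ring
  refine ⟨?_, ?_⟩
  · rw [gen w hw]
    -- the inner sums
    have h1 : ∀ x : G, ∑ s : Cu u, ∑ s' : Cu u, (if x⁻¹ * (w * s) * x = w * s' then
          (if Reg ℓ s then starRingEnd ℂ (p (π s)) else 0) * (if Reg ℓ s' then q (π s') else 0)
        else 0) = if x ∈ Cu u then
          ∑ s : Cu u, (if Reg ℓ s then starRingEnd ℂ (p (π s)) * q (π s) else 0) else 0 := by
      intro x
      by_cases hx : x ∈ Cu u
      · rw [if_pos hx]
        refine Finset.sum_congr rfl fun s _ => ?_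
        by_cases hs : Reg ℓ s
        · obtain ⟨t, ht⟩ : ∃ t : Cu u, t = ⟨x, hx⟩⁻¹ * s * ⟨x, hx⟩ := ⟨_, rfl⟩
          have hxw : x⁻¹ * w * x = w := by
            have := (comm_pow hw ⟨x, hx⟩).eq
            change x * w = w * x at this
            rw [mul_assoc, ← this]
            group
          rw [Finset.sum_eq_single t]
          · have e1 : x⁻¹ * (w * s) * x = w * t := by
              have : x⁻¹ * (w * s) * x = (x⁻¹ * w * x) * (x⁻¹ * s * x) := by group
              rw [this, hxw, ht]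
              rfl
            have e2 : Reg ℓ t := by
              have e3 : t = (⟨x, hx⟩ : Cu u)⁻¹ * s * ((⟨x, hx⟩ : Cu u)⁻¹)⁻¹ := by
                rw [ht, inv_inv]
              unfold Reg at hs ⊢
              have e4 : orderOf t = orderOf s := by
                rw [e3, ← MulAut.conj_apply]
                exact MulEquiv.orderOf_eq _ _
              rw [e4]
              exact hs
            have e5 : q (π t) = q (π s) := by
              have e6 : π t = (π ⟨x, hx⟩)⁻¹ * π s * ((π ⟨x, hx⟩)⁻¹)⁻¹ := by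
                rw [ht, map_mul, map_mul, map_inv, inv_inv]
              rw [e6, hq.cl]
            rw [if_pos e1, if_pos hs, if_pos e2, if_pos hs, e5]
          · intro s' _ hne
            by_cases h : x⁻¹ * (w * s) * x = w * s'
            · rw [if_pos h]
              by_cases hs' : Reg ℓ s'
              · exfalso
                apply hne
                apply Subtype.ext
                rw [ht]
                exact (parts_conj hQ.ord hw hw hs hs' h).2.symm
              · rw [if_neg hs', mul_zero]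
            · rw [if_neg h]
          · intro h
            exact absurd (Finset.mem_univ _) h
        · have e0 : (if Reg ℓ s then starRingEnd ℂ (p (π s)) * q (π s) else 0) = 0 := if_neg hs
          rw [e0]
          refine Finset.sum_eq_zero fun s' _ => ?_
          rw [if_neg hs, zero_mul, ite_self]
      · rw [if_neg hx]
        refine Finset.sum_eq_zero fun s _ => Finset.sum_eq_zero fun s' _ => ?_
        by_cases h : x⁻¹ * (w * s) * x = w * s'
        · rw [if_pos h]
          by_cases hs : Reg ℓ s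
          · by_cases hs' : Reg ℓ s'
            · exfalso
              apply hx
              have h2 := (parts_conj hQ.ord hw hw hs hs' h).1
              have h3 : Commute x w := by
                have : w * x = x * w := by
                  calc w * x = x * (x⁻¹ * w * x) := by group
                    _ = x * w := by rw [h2]
                exact this.symm
              obtain ⟨k, hk⟩ := gen_pow hj hQ.ord
              rw [Subgroup.mem_centralizer_singleton_iff, hk, ← hwj]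
              exact (h3.pow_right k).eq
            · rw [if_neg hs', mul_zero]
          · rw [if_neg hs, zero_mul]
        · rw [if_neg h]
    rw [Finset.sum_congr rfl fun x _ => h1 x]
    rw [← Finset.sum_filter, Finset.sum_const, nsmul_eq_mul]
    have h2 : ((Finset.univ.filter fun x : G => x ∈ Cu u).card : ℂ) = (ℓ : ℂ) ^ n * Nat.card H := by
      have h3 : (Finset.univ.filter fun x : G => x ∈ Cu u).card = Nat.card (Cu u) := by
        rw [Nat.card_eq_fintype_card]
        exact (Fintype.card_subtype _).symm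
      rw [h3, qt_card hQ]
      push_cast
      rfl
    rw [h2, sum_reg (f := fun h => starRingEnd ℂ (p h) * q h) hQ.sur (qt_pow hQ) (qt_comm hQ)]
    have h4 : ∑ h : H, (if Reg ℓ h then starRingEnd ℂ (p h) * q h else 0) =
        ∑ h : H, q h * starRingEnd ℂ (p h) := by
      refine Finset.sum_congr rfl fun h _ => ?_
      by_cases hh : Reg ℓ h
      · rw [if_pos hh, mul_comm]
      · rw [if_neg hh, hq.sg h hh, zero_mul]
    rw [h4]
    unfold ipn
    rw [finsum_eq_sum_of_fintype]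
    have h5 : (Nat.card H : ℂ) ≠ 0 := by
      exact_mod_cast Nat.card_pos.ne'
    field_simp
  · intro j' _ hnc
    obtain ⟨w', hwj'⟩ : ∃ w', w' = u ^ j' := ⟨_, rfl⟩
    have hw' : w' ∈ Subgroup.zpowers u := by
      rw [hwj']
      exact Subgroup.pow_mem _ (Subgroup.mem_zpowers u) j'
    rw [← hwj'] at hnc ⊢
    rw [gen w' hw']
    have h1 : ∑ x : G, ∑ s : Cu u, ∑ s' : Cu u, (if x⁻¹ * (w * s) * x = w' * s' then
          (if Reg ℓ s then starRingEnd ℂ (p (π s)) else 0) * (if Reg ℓ s' then q (π s') else 0)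
        else 0) = 0 := by
      refine Finset.sum_eq_zero fun x _ => Finset.sum_eq_zero fun s _ =>
        Finset.sum_eq_zero fun s' _ => ?_
      by_cases h : x⁻¹ * (w * s) * x = w' * s'
      · rw [if_pos h]
        by_cases hs : Reg ℓ s
        · by_cases hs' : Reg ℓ s'
          · exfalso
            apply hnc
            refine ⟨x⁻¹, ?_⟩
            rw [inv_inv]
            exact (parts_conj hQ.ord hw hw' hs hs' h).1.symm
          · rw [if_neg hs', mul_zero]
        · rw [if_neg hs, zero_mul]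
      · rw [if_neg h]
    rw [h1, mul_zero]

end Pool.Agent.PP.C2.H25
end
end -- Pool.Agent.Helper25_C2.SEC2
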