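import Pool.Agent.Helper12_AWB.B132
import Pool.Agent.Helper12_AWB.B137
import Pool.Agent.Helper12_AWB.B140

/-!
# Merged copies (generated) of the modules

* `Pool.Agent.Helper20_K9.Adp`
* `Pool.Agent.Helper30_KF.Mul`
* `Pool.Agent.Helper60_KF.Lin`
* `Pool.Agent.Helper92_KF.Lk`
* `Pool.Agent.Helper77_K9.INT`
* `Pool.Agent.Helper63_AT3.INR`
* `Pool.Agent.Helper48_C2.INT2`
-/

set_option autoImplicit false

section -- Pool.Agent.Helper20_K9.Adp

/-!
# Squad K9, row ADP: Adams operations for a prime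

The character of `G wr C_r` on the `r`-th tensor power, extended by a linear character `lam` of
`C_r`, is restricted to `G × C_r`; at `(g, s)`, `s ≠ 0`, its value is `lam s * χ (g ^ r)`.
-/

open scoped BigOperators

noncomputable section

namespace Pool.Agent.PP.K9.H20

open Pool.Agent.Helper51_AWC Pool.Agent.Helper79_WRA Pool.Agent.PP Pool.Agent.PP.KF

section

variable {r : ℕ} {G : Type} [Group G]

/-- the diagonal embedding of `G × C_r` -/
def iota (r : ℕ) (G : Type) [Group G] : G × Multiplicative (ZMod r) →* Wr r G where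
  toFun x := ⟨fun _ => x.1, Multiplicative.toAdd x.2⟩
  map_one' := rfl
  map_mul' x y := by
    apply Wr.ext
    · funext i
      rfl
    · rfl

/-- the conjugating element -/
def cw (g : G) (s : ZMod r) : ZMod r → G := fun i => (g⁻¹) ^ (i * s⁻¹).val

variable [hr : Fact r.Prime]

theorem const_conj (g : G) {s : ZMod r} (hs : s ≠ 0) :
    IsConj (single (g ^ r) s) (⟨fun _ => g, s⟩ : Wr r G) := by
  have hone : (1 : ZMod r).val = 1 := ZMod.val_one r
  have key : Wr.base r G (cw g s) * (⟨fun _ => g, s⟩ : Wr r G) * (Wr.base r G (cw g s))⁻¹ =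
      single (g ^ r) s := by
    apply Wr.ext
    · funext i
      rw [Wr.conj_f]
      simp only [Wr.base_f, single, cw]
      by_cases hi : i = 0
      · subst hi
        rw [Pi.mulSingle_eq_same, zero_mul, ZMod.val_zero, pow_zero, one_mul, zero_sub, neg_mul,
          mul_inv_cancel₀ hs, ZMod.neg_val, if_neg one_ne_zero, hone, inv_pow, inv_inv,
          ← pow_succ']
        congr 1
        have := hr.out.pos
        omega
      · rw [Pi.mulSingle_eq_of_ne hi]
        have h1 : (i - s) * s⁻¹ = i * s⁻¹ - 1 := by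
          rw [sub_mul, mul_inv_cancel₀ hs]
        have h2 : i * s⁻¹ ≠ 0 := mul_ne_zero hi (inv_ne_zero hs)
        have h3 : 1 ≤ (i * s⁻¹).val := by
          have : (i * s⁻¹).val ≠ 0 := by
            rw [Ne, ZMod.val_eq_zero]
            exact h2
          omega
        rw [h1, ZMod.val_sub (by rw [hone]; exact h3), hone]
        obtain ⟨k, hk⟩ : ∃ k, (i * s⁻¹).val = k + 1 := ⟨(i * s⁻¹).val - 1, by omega⟩
        rw [hk, Nat.add_sub_cancel, pow_succ]
        group
    · rw [Wr.conj_s]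
      rfl
  exact (isConj_iff.2 ⟨_, key⟩).symm

/-- multiplicities -/
theorem mult [Fintype G] {θ : Wr r G → ℂ} (hθ : θ ∈ Irr (Wr r G)) {η : G → ℂ}
    (hη : η ∈ Irr G) :
    ∃ m : ℕ, ∑ x : G × Multiplicative (ZMod r), θ (iota r G x) * η (x.1)⁻¹ =
      m * (Fintype.card G * r : ℂ) := by
  classical
  obtain ⟨n, ρ, _, rfl⟩ := hθ
  obtain ⟨k, σ, _, rfl⟩ := hη
  let ρ' : Representation ℂ (G × Multiplicative (ZMod r)) (Fin n → ℂ) := ρ.comp (iota r G)
  let σ' : Representation ℂ (G × Multiplicative (ZMod r)) (Fin k → ℂ) :=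
    σ.comp (MonoidHom.fst G (Multiplicative (ZMod r)))
  have hc : (Nat.card (G × Multiplicative (ZMod r)) : ℂ) ≠ 0 := by
    exact_mod_cast Nat.card_pos.ne'
  have hinv := invertibleOfNonzero hc
  refine ⟨Module.finrank ℂ (Representation.IntertwiningMap σ' ρ'), ?_⟩
  have h1 := Representation.card_inv_mul_sum_char_mul_char_eq_finrank σ' ρ'
  have h2 : (Nat.card (G × Multiplicative (ZMod r)) : ℂ) = Fintype.card G * r := by
    rw [Nat.card_prod, Nat.card_eq_fintype_card]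
    have : Nat.card (Multiplicative (ZMod r)) = r := by
      rw [Nat.card_eq_fintype_card, Fintype.card_multiplicative, ZMod.card]
    rw [this]
    push_cast
    rfl
  rw [← h1, ← h2, mul_comm _ (Nat.card (G × Multiplicative (ZMod r)) : ℂ), ← mul_assoc,
    mul_inv_cancel₀ hc, one_mul]
  rfl

/-- the sum over the cyclic group -/
theorem sum_eq [Fintype G] {χ : G → ℂ} (hχ : χ ∈ Irr G) (η : G → ℂ)
    (lam : AddChar (ZMod r) ℂ) :
    ∑ x : G × Multiplicative (ZMod r), extChar χ lam (iota r G x) * η (x.1)⁻¹ =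
      ∑ g : G, piChar (fun _ : ZMod r => χ) (fun _ => g) * η g⁻¹ +
        (∑ g : G, χ (g ^ r) * η g⁻¹) * (∑ s : ZMod r, lam s - 1) := by
  classical
  have hsum : ∀ F : G × Multiplicative (ZMod r) → ℂ,
      ∑ x, F x = ∑ g : G, ∑ s : ZMod r, F (g, Multiplicative.ofAdd s) := by
    intro F
    rw [Fintype.sum_prod_type]
    refine Finset.sum_congr rfl fun g _ => ?_
    exact (Equiv.sum_comp Multiplicative.ofAdd (fun s => F (g, s))).symm
  rw [hsum]
  have hlam : ∑ s : ZMod r, lam s - 1 = ∑ s ∈ Finset.univ.erase (0 : ZMod r), lam s := by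
    rw [← Finset.add_sum_erase Finset.univ _ (Finset.mem_univ (0 : ZMod r)),
      AddChar.map_zero_eq_one]
    ring
  have hterm : ∀ g : G, ∑ s : ZMod r,
      extChar χ lam (iota r G (g, Multiplicative.ofAdd s)) * η (g, Multiplicative.ofAdd s).1⁻¹ =
      piChar (fun _ : ZMod r => χ) (fun _ => g) * η g⁻¹ +
        χ (g ^ r) * η g⁻¹ * ∑ s ∈ Finset.univ.erase (0 : ZMod r), lam s := by
    intro g
    rw [← Finset.add_sum_erase Finset.univ _ (Finset.mem_univ (0 : ZMod r)), Finset.mul_sum]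
    congr 1
    · have : iota r G (g, Multiplicative.ofAdd (0 : ZMod r)) = Wr.base r G (fun _ => g) := rfl
      rw [this, extChar_base hχ]
    · refine Finset.sum_congr rfl fun s hs => ?_
      have hs0 : s ≠ 0 := Finset.ne_of_mem_erase hs
      have h1 : iota r G (g, Multiplicative.ofAdd s) = (⟨fun _ => g, s⟩ : Wr r G) := rfl
      rw [h1, ← irr_isConj (extChar_mem hχ lam) (const_conj g hs0), extChar_single hχ lam hs0]
      ring
  rw [Finset.sum_congr rfl fun g _ => hterm g, Finset.sum_add_distrib, hlam, Finset.sum_mul]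

end

theorem adp : AdpStmt := by
  intro G _ _ r hr χ hχ η hη
  classical
  have : Fact r.Prime := ⟨hr⟩
  have := Fintype.ofFinite G
  have hr0 : (r : ℂ) ≠ 0 := by exact_mod_cast hr.ne_zero
  have hG : (Fintype.card G : ℂ) ≠ 0 := by exact_mod_cast Fintype.card_ne_zero
  obtain ⟨m1, h1⟩ := mult (r := r) (extChar_mem hχ (1 : AddChar (ZMod r) ℂ)) hη
  obtain ⟨m2, h2⟩ := mult (r := r) (extChar_mem hχ (ZMod.stdAddChar (N := r))) hη
  rw [sum_eq hχ] at h1 h2
  have hs1 : ∑ s : ZMod r, (1 : AddChar (ZMod r) ℂ) s = r := by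
    simp [AddChar.one_apply, ZMod.card]
  have hs2 : ∑ s : ZMod r, ZMod.stdAddChar (N := r) s = 0 := by
    apply AddChar.sum_eq_zero_of_ne_one
    intro h
    have h3 : ZMod.stdAddChar (N := r) 1 = ZMod.stdAddChar (N := r) 0 := by
      rw [h, AddChar.one_apply, AddChar.one_apply]
    have h4 := ZMod.injective_stdAddChar h3
    exact one_ne_zero h4
  rw [hs1] at h1
  rw [hs2] at h2
  obtain ⟨A, hA⟩ : ∃ A, A = ∑ g : G, χ (g ^ r) * η g⁻¹ := ⟨_, rfl⟩
  rw [← hA] at h1 h2
  have h3 : A = (m1 - m2) * Fintype.card G := by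
    have h4 : (r : ℂ) * A = r * ((m1 - m2) * Fintype.card G) := by linear_combination h1 - h2
    exact mul_left_cancel₀ hr0 h4
  refine ⟨(m1 : ℤ) - m2, ?_⟩
  unfold ipn
  rw [finsum_eq_sum_of_fintype]
  have h5 : ∑ x : G, χ (x ^ r) * starRingEnd ℂ (η x) = A := by
    rw [hA]
    exact Finset.sum_congr rfl fun g _ => by rw [Pool.Agent.PP.H94.irr_star hη]
  rw [h5, h3, Nat.card_eq_fintype_card]
  push_cast
  field_simp

end Pool.Agent.PP.K9.H20
end
end -- Pool.Agent.Helper20_K9.Adp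

section -- Pool.Agent.Helper30_KF.Mul

/-!
# Squad KF, row MUL: `χ(u b)` is an integral multiple of the common degree
-/

open scoped BigOperators

noncomputable section

namespace Pool.Agent.PP.KF.H30

open Pool.Agent.Helper51_AWC Pool.Agent.Helper79_WRA Pool.Agent.PP Pool.Agent.PP.KF

/-- a central element of order two acts by a sign -/
theorem cent_sign {C : Type} [Group C] {θ : C → ℂ} (hθ : θ ∈ Irr C) {z : C}
    (hz : ∀ c, z * c = c * z) (hz2 : z * z = 1) : ∃ s : ℤ, ∀ c, θ (z * c) = s * θ c := by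
  obtain ⟨n, ρ, hρ, rfl⟩ := hθ
  obtain ⟨k, hk⟩ := schur_scalar ρ (ρ z) (by
    intro g
    have h1 : ρ z * ρ g = ρ g * ρ z := by rw [← map_mul, ← map_mul, hz]
    exact h1)
  have h1 : ∀ c, ρ.character (z * c) = k * ρ.character c := by
    intro c
    show LinearMap.trace ℂ _ (ρ (z * c)) = k * LinearMap.trace ℂ _ (ρ c)
    rw [map_mul, hk, smul_mul_assoc, map_smul, smul_eq_mul]
    rfl
  have h2 : ρ.character 1 ≠ 0 := irr_one_ne (mem_Irr_of_irreducible ρ)
  have h3 : k * k = 1 := by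
    have e1 := h1 (z * 1)
    rw [h1 1, ← mul_assoc, hz2, one_mul, ← mul_assoc] at e1
    exact (mul_right_cancel₀ h2 (by rw [one_mul]; exact e1)).symm
  rcases mul_self_eq_one_iff.1 h3 with h | h
  · exact ⟨1, fun c => by rw [h1, h]; push_cast; ring⟩
  · exact ⟨-1, fun c => by rw [h1, h]; push_cast; ring⟩

/-- the multiplicity of an irreducible character of a subgroup in a character is an integer -/
theorem mult_int {G : Type} [Group G] (C : Subgroup G) [Fintype C] {χ : G → ℂ} (hχ : χ ∈ Irr G)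
    {θ : C → ℂ} (hθ : θ ∈ Irr C) :
    ∃ m : ℤ, (Nat.card C : ℂ)⁻¹ * ∑ c : C, χ c * θ c⁻¹ = m := by
  obtain ⟨n, ρ, hρ, rfl⟩ := hχ
  obtain ⟨n', σ, hσ, rfl⟩ := hθ
  have hc : (Nat.card C : ℂ) ≠ 0 := by exact_mod_cast Nat.card_pos.ne'
  have := invertibleOfNonzero hc
  obtain ⟨τ, hτ⟩ : ∃ τ : Representation ℂ C (Fin n → ℂ), τ = ρ.comp C.subtype := ⟨_, rfl⟩
  have h := Representation.card_inv_mul_sum_char_mul_char_eq_finrank σ τ
  refine ⟨_, Eq.trans ?_ (h.trans (Int.cast_natCast _).symm)⟩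
  rw [hτ]
  rfl

theorem mul_ : MulStmt := by
  intro M _ G _ _ u hu b hb a ha χ hχ
  classical
  have := Fintype.ofFinite G
  have := Fintype.ofFinite (Cu u)
  have hS : (IrrE M b).Finite := irr_finite'.subset (fun θ h => h.1)
  obtain ⟨uC, huC⟩ : ∃ uC : Cu u, (uC : G) = u :=
    ⟨⟨u, Subgroup.mem_centralizer_singleton_iff.2 rfl⟩, rfl⟩
  have hz : ∀ c : Cu u, uC * c = c * uC := by
    intro c
    apply Subtype.ext
    show (uC : G) * c = c * uC
    rw [huC]
    exact (Subgroup.mem_centralizer_singleton_iff.1 c.2).symm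
  have hz2 : uC * uC = 1 := by
    apply Subtype.ext
    show (uC : G) * uC = 1
    rw [huC]
    exact hu.sq
  -- the value as a sum over the centraliser
  have h1 : chv (ub u (eh M b)) χ = ∑ c : Cu u, eh M b c * χ (u * c) := by
    rw [chv, finsum_eq_sum_of_fintype, ← Equiv.sum_comp (Equiv.mulLeft u)]
    symm
    apply Fintype.sum_of_injective (fun c : Cu u => (c : G)) Subtype.val_injective
    · intro g hg
      have hg' : g ∉ Cu u := fun h => hg ⟨⟨g, h⟩, rfl⟩
      show ub u (eh M b) (u * g) * χ (u * g) = 0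
      rw [ub, inv_mul_cancel_left, PP.ext0, dif_neg hg', zero_mul]
    · intro c
      show eh M b c * χ (u * c) = ub u (eh M b) (u * c) * χ (u * c)
      rw [ub, inv_mul_cancel_left, PP.ext0, dif_pos c.2]
  have h2 : ∀ θ ∈ hS.toFinset, ∃ m : ℤ,
      (Nat.card (Cu u) : ℂ)⁻¹ * ∑ c : Cu u, θ c⁻¹ * χ (u * c) = m := by
    intro θ hθ
    have hθ' : θ ∈ Irr (Cu u) := (hS.mem_toFinset.1 hθ).1
    obtain ⟨s, hs⟩ := cent_sign hθ' hz hz2
    obtain ⟨m, hm⟩ := mult_int (Cu u) hχ hθ'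
    refine ⟨s * m, ?_⟩
    push_cast
    rw [← hm, mul_left_comm (s : ℂ), Finset.mul_sum (a := (s : ℂ)),
      ← Equiv.sum_comp (Equiv.mulLeft uC)]
    refine congrArg ((Nat.card (Cu u) : ℂ)⁻¹ * ·) (Finset.sum_congr rfl fun c _ => ?_)
    show θ (uC * c)⁻¹ * χ (u * ((uC * c : Cu u) : G)) = s * (χ c * θ c⁻¹)
    have e1 : u * ((uC * c : Cu u) : G) = c := by
      rw [Subgroup.coe_mul, huC, ← mul_assoc, hu.sq, one_mul]
    have e2 : (uC * c)⁻¹ = uC * c⁻¹ := by
      have e3 : uC⁻¹ = uC := inv_eq_of_mul_eq_one_left hz2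
      rw [mul_inv_rev, e3, hz]
    rw [e1, e2, hs]
    ring
  choose! m hm using h2
  refine ⟨∑ θ ∈ hS.toFinset, m θ, ?_⟩
  rw [h1]
  have h3 : ∀ c : Cu u, eh M b c =
      (Nat.card (Cu u) : ℂ)⁻¹ * ∑ θ ∈ hS.toFinset, (a : ℂ) * θ c⁻¹ := by
    intro c
    rw [eh, finsum_mem_eq_finite_toFinset_sum _ hS]
    congr 1
    refine Finset.sum_congr rfl fun θ hθ => ?_
    rw [ha θ (hS.mem_toFinset.1 hθ)]
  have h4 : ((∑ θ ∈ hS.toFinset, m θ : ℤ) : ℂ) = ∑ θ ∈ hS.toFinset,
      (Nat.card (Cu u) : ℂ)⁻¹ * ∑ c : Cu u, θ c⁻¹ * χ (u * c) := by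
    rw [Int.cast_sum]
    exact Finset.sum_congr rfl fun θ hθ => (hm θ hθ).symm
  rw [h4]
  simp only [h3]
  simp_rw [Finset.mul_sum, Finset.sum_mul]
  rw [Finset.sum_comm]
  refine Finset.sum_congr rfl fun θ _ => Finset.sum_congr rfl fun c _ => ?_
  ring

end Pool.Agent.PP.KF.H30
end
end -- Pool.Agent.Helper30_KF.Mul

section -- Pool.Agent.Helper60_KF.Lin

/-!
# Squad KF, row LIN: the lift of an idempotent vanishes at the involutions
-/

open scoped BigOperators

noncomputable section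

namespace Pool.Agent.PP.H60

open Pool.Agent.Helper51_AWC Pool.Agent.Helper79_WRA Pool.Agent.PP Pool.Agent.PP.KF

attribute [local instance] Ideal.Quotient.field

section

variable {R : Type} [CommRing R] {G : Type} [Group G] [Fintype G] [DecidableEq G]

omit [Fintype G] [DecidableEq G] in
/-- left multiplication by an element of the group ring -/
def Pm (a : G → R) : Matrix G G R := fun y x => a (y * x⁻¹)

omit [Fintype G] in
/-- left multiplication by `z⁻¹` -/
def Um (R : Type) [CommRing R] (z : G) : Matrix G G R := fun y x => if x = z * y then 1 else 0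

theorem Um_mulVec (z : G) (v : G → R) (y : G) : (Um R z).mulVec v y = v (z * y) := by
  unfold Um Matrix.mulVec dotProduct
  simp

theorem Um_mul (z : G) (A : Matrix G G R) (y x : G) : (Um R z * A) y x = A (z * y) x := by
  unfold Um
  rw [Matrix.mul_apply]
  simp

theorem mul_Um (z : G) (A : Matrix G G R) (y x : G) : (A * Um R z) y x = A y (z⁻¹ * x) := by
  unfold Um
  rw [Matrix.mul_apply, Finset.sum_eq_single (z⁻¹ * x)]
  · simp
  · intro b _ hb
    rw [if_neg, mul_zero]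
    rintro rfl
    exact hb (by group)
  · intro h
    exact absurd (Finset.mem_univ _) h

omit [DecidableEq G] in
theorem Pm_mul (a b : G → R) : Pm a * Pm b = Pm (fun x => ∑ t, a t * b (t⁻¹ * x)) := by
  ext y x
  rw [Matrix.mul_apply]
  unfold Pm
  refine Fintype.sum_equiv ((Equiv.inv G).trans (Equiv.mulLeft y)) _ _ fun w => ?_
  simp only [Equiv.trans_apply, Equiv.inv_apply, Equiv.coe_mulLeft]
  congr 2
  group

/-- decomposition along a fixed point free involution -/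
theorem split_inv {z : G} (hz : z * z = 1) (hz1 : z ≠ 1) (v : G → R) (hv : ∀ y, v (z * y) = v y) :
    ∃ v0 : G → R, v = v0 + (Um R z).mulVec v0 := by
  have hne : ∀ y, z * y ≠ y := by
    intro y h
    exact hz1 (mul_eq_right.1 h)
  let i := Fintype.equivFin G
  refine ⟨fun y => if i y < i (z * y) then v y else 0, ?_⟩
  funext y
  rw [Pi.add_apply, Um_mulVec, ← mul_assoc, hz, one_mul]
  rcases lt_trichotomy (i y) (i (z * y)) with h | h | h
  · rw [if_pos h, if_neg (not_lt.2 h.le), add_zero]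
  · exact absurd (i.injective h).symm (hne y)
  · rw [if_neg (not_lt.2 h.le), if_pos h, zero_add, hv]

end

/-- Row LIN. -/
theorem lin (trm : KF.TrmStmt) (idm : KF.IdmStmt) : KF.LinStmt := by
  classical
  intro M _ h2 G _ _ e he z hz
  have := Fintype.ofFinite G
  obtain ⟨h1, hI, -⟩ := idm M G e he
  have hcl : ∀ x y, eh M e (y * x * y⁻¹) = eh M e x := hI.1
  have hcle : ∀ x y, e (y * x * y⁻¹) = e x := he.1
  have hmul : (fun x => ∑ t, eh M e t * eh M e (t⁻¹ * x)) = eh M e := by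
    have h := hI.2
    funext x
    have h' := congrFun h x
    rw [mulF, finsum_eq_sum_of_fintype] at h'
    exact h'
  have hmule : (fun x => ∑ t, e t * e (t⁻¹ * x)) = e := by
    funext x
    have h' := congrFun he.2 x
    rw [mulF, finsum_eq_sum_of_fintype] at h'
    exact h'
  have hPr : (Pm (eh M e)).map (rr M) = Pm e := by
    ext y x
    exact (h1 _).2
  have hUr : (Um ℂ z).map (rr M) = Um (FF M) z := by
    ext y x
    rw [Matrix.map_apply]
    unfold Um
    split_ifs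
    · exact rr_one
    · exact rr_zero
  have hswap : ∀ {R : Type} [CommRing R] (a : G → R), (∀ x y, a (y * x * y⁻¹) = a x) →
      Um R z * Pm a = Pm a * Um R z := by
    intro R _ a ha
    ext y x
    rw [Um_mul, mul_Um]
    unfold Pm
    have h3 : z * y * x⁻¹ = z * (y * (z⁻¹ * x)⁻¹) * z⁻¹ := by group
    rw [h3, ha]
  have htr := trm M h2 G (Pm (eh M e)) (Um ℂ z) (fun i j => (h1 _).1) (fun i j => ?_) ?_ ?_
    (hswap _ hcl) ?_
  · have h3 : (Um ℂ z * Pm (eh M e)).trace = Fintype.card G * eh M e z := by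
      rw [Matrix.trace]
      have h4 : ∀ y, (Um ℂ z * Pm (eh M e)).diag y = eh M e z := by
        intro y
        rw [Matrix.diag_apply, Um_mul]
        unfold Pm
        rw [mul_inv_cancel_right]
      rw [Finset.sum_congr rfl fun y _ => h4 y, Finset.sum_const, nsmul_eq_mul, Finset.card_univ]
    rw [h3] at htr
    exact (mul_eq_zero.1 htr).resolve_left (by exact_mod_cast Fintype.card_ne_zero)
  · unfold Um
    split_ifs
    · exact (RM M).one_mem
    · exact (RM M).zero_mem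
  · rw [Pm_mul, hmul]
  · ext y x
    rw [Um_mul]
    unfold Um
    rw [Matrix.one_apply, ← mul_assoc, hz.sq, one_mul]
    simp only [eq_comm]
  · intro v hv hv'
    rw [hPr] at hv
    rw [hUr] at hv'
    rw [hPr, hUr]
    obtain ⟨v0, h0⟩ := split_inv hz.sq hz.ne v (fun y => by
      have h := congrFun hv' y
      rwa [Um_mulVec] at h)
    refine ⟨(Pm e).mulVec v0, ?_, ?_⟩
    · rw [Matrix.mulVec_mulVec, Pm_mul, hmule]
    · rw [Matrix.mulVec_mulVec, hswap e hcle, ← Matrix.mulVec_mulVec, ← Matrix.mulVec_add, ← h0,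
        hv]

end Pool.Agent.PP.H60
end
end -- Pool.Agent.Helper60_KF.Lin

section -- Pool.Agent.Helper92_KF.Lk

/-!
# Squad KF: the main lemma (LK)
-/

open scoped BigOperators

noncomputable section

namespace Pool.Agent.PP.KF.H92

open Pool.Agent.Helper51_AWC Pool.Agent.Helper79_WRA Pool.Agent.PP Pool.Agent.PP.KF

attribute [local instance] Ideal.Quotient.field

/-- integers: a sum of squares equal to four -/
theorem four_squares {ι : Type*} [DecidableEq ι] (T : Finset ι) (d : ι → ℤ)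
    (h4 : ∑ i ∈ T, d i ^ 2 = 4) (hne : ∀ i ∈ T, d i ≠ 0)
    (h2 : ∀ i ∈ T, ¬ ((d i = 2 ∨ d i = -2) ∧ ∀ j ∈ T, j ≠ i → d j = 0)) :
    T.card = 4 ∧ ∀ i ∈ T, d i = 1 ∨ d i = -1 := by
  have hpos : ∀ i ∈ T, 1 ≤ d i ^ 2 := by
    intro i hi
    have := hne i hi
    have h : 0 < d i ^ 2 := by positivity
    omega
  have hone : ∀ i ∈ T, d i = 1 ∨ d i = -1 := by
    intro i hi
    have hle : d i ^ 2 ≤ 4 := by
      rw [← h4]
      exact Finset.single_le_sum (f := fun i => d i ^ 2) (fun j _ => sq_nonneg (d j)) hi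
    have hb1 : d i ≤ 2 := by nlinarith
    have hb2 : -2 ≤ d i := by nlinarith
    have h0 := hne i hi
    by_contra hcon
    have h22 : d i = 2 ∨ d i = -2 := by omega
    refine h2 i hi ⟨h22, ?_⟩
    intro j hj hji
    have hsum : d i ^ 2 + ∑ k ∈ T.erase i, d k ^ 2 = 4 := by
      rw [← h4]
      exact Finset.add_sum_erase T (fun k => d k ^ 2) hi
    have hi4 : d i ^ 2 = 4 := by rcases h22 with h | h <;> rw [h] <;> norm_num
    have hz : ∑ k ∈ T.erase i, d k ^ 2 = 0 := by omega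
    have := (Finset.sum_eq_zero_iff_of_nonneg (fun k _ => sq_nonneg (d k))).1 hz j
      (Finset.mem_erase.2 ⟨hji, hj⟩)
    exact pow_eq_zero_iff (two_ne_zero) |>.1 this
  refine ⟨?_, hone⟩
  have h5 : ∑ i ∈ T, d i ^ 2 = ∑ i ∈ T, (1 : ℤ) := by
    refine Finset.sum_congr rfl fun i hi => ?_
    rcases hone i hi with h | h <;> rw [h] <;> norm_num
  rw [h5, Finset.sum_const, nsmul_eq_mul, mul_one] at h4
  exact_mod_cast h4

/-- even integers: a sum of squares equal to four -/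
theorem four_even {ι : Type*} [DecidableEq ι] (T : Finset ι) (d : ι → ℤ)
    (h4 : ∑ i ∈ T, d i ^ 2 = 4) (hev : ∀ i ∈ T, (2 : ℤ) ∣ d i) :
    ∃ i ∈ T, (d i = 2 ∨ d i = -2) ∧ ∀ j ∈ T, j ≠ i → d j = 0 := by
  have : ∃ i ∈ T, d i ≠ 0 := by
    by_contra hcon
    push Not at hcon
    rw [Finset.sum_eq_zero (fun i hi => by rw [hcon i hi]; norm_num)] at h4
    norm_num at h4
  obtain ⟨i, hi, h0⟩ := this
  have hle : d i ^ 2 ≤ 4 := by
    rw [← h4]
    exact Finset.single_le_sum (f := fun i => d i ^ 2) (fun j _ => sq_nonneg (d j)) hi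
  have hb1 : d i ≤ 2 := by nlinarith
  have hb2 : -2 ≤ d i := by nlinarith
  have hev' := hev i hi
  have h22 : d i = 2 ∨ d i = -2 := by omega
  refine ⟨i, hi, h22, ?_⟩
  intro j hj hji
  have hsum : d i ^ 2 + ∑ k ∈ T.erase i, d k ^ 2 = 4 := by
    rw [← h4]
    exact Finset.add_sum_erase T (fun k => d k ^ 2) hi
  have hi4 : d i ^ 2 = 4 := by rcases h22 with h | h <;> rw [h] <;> norm_num
  have hz : ∑ k ∈ T.erase i, d k ^ 2 = 0 := by omega
  have := (Finset.sum_eq_zero_iff_of_nonneg (fun k _ => sq_nonneg (d k))).1 hz j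
    (Finset.mem_erase.2 ⟨hji, hj⟩)
  exact pow_eq_zero_iff (two_ne_zero) |>.1 this

theorem chv_single {G : Type} [Group G] (z : G) (χ : G → ℂ) :
    chv (fun g => open Classical in if g = z then (1 : ℂ) else 0) χ = χ z := by
  classical
  unfold chv
  rw [finsum_eq_single _ z]
  · simp
  · intro g hg
    simp [hg]

theorem lk (hmul : MulStmt) (hsqa : SqaStmt) (hsqb : SqbStmt) (hlin : LinStmt) (homc : OmcStmt)
    (hhgt : HgtStmt) (htrc : TrcStmt) : LkStmt := by
  classical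
  intro M _ h2 G _ _ e he hbd u hu b hb heb a ha
  have hFG := Fintype.ofFinite G
  have hFC := Fintype.ofFinite (Cu u)
  have hfG : (Irr G).Finite := irr_finite'
  have hfC : (Irr (Cu u)).Finite := irr_finite'
  have hfE : (IrrE M e).Finite := hfG.subset fun χ h => h.1
  have hfB : (IrrE M b).Finite := hfC.subset fun χ h => h.1
  set w := ub u (eh M b) with hw
  -- the integers d
  have hd : ∀ χ : G → ℂ, ∃ d : ℤ, χ ∈ Irr G → chv w χ = a * d := by
    intro χ
    by_cases h : χ ∈ Irr G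
    · obtain ⟨d, hd⟩ := hmul M G u hu b hb.1 a ha.deg χ h
      exact ⟨d, fun _ => hd⟩
    · exact ⟨0, fun h' => absurd h' h⟩
  choose d hd using hd
  have hane : (a : ℂ) ≠ 0 := by
    have hne : (IrrE M b).Nonempty := by
      rw [← Set.ncard_pos hfB, ha.card]
      norm_num
    obtain ⟨θ, hθ⟩ := hne
    rw [← ha.deg θ hθ]
    exact irr_one_ne hθ.1
  have hC0 : (Nat.card (Cu u) : ℂ) ≠ 0 := by
    exact_mod_cast Nat.card_pos.ne'
  have hG0 : (Nat.card G : ℂ) ≠ 0 := by
    exact_mod_cast Nat.card_pos.ne'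
  -- outside the block
  have hout : ∀ χ ∈ Irr G, res M e χ ≠ 1 → d χ = 0 := by
    intro χ hχ hr
    have h1 := hsqb M h2 G u hu b hb.1 e he.1 heb
    have hfin : {χ : G → ℂ | χ ∈ Irr G ∧ res M e χ ≠ 1}.Finite := hfG.subset fun χ h => h.1
    rw [finsum_mem_eq_finite_toFinset_sum _ hfin] at h1
    have h3 : ∑ χ ∈ hfin.toFinset, ((a : ℂ) ^ 2 * ((d χ ^ 2 : ℤ) : ℂ)) = 0 := by
      rw [← h1]
      refine Finset.sum_congr rfl fun ψ hψ => ?_
      have hψ' := (hfin.mem_toFinset.1 hψ).1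
      rw [hd ψ hψ']
      push_cast
      ring
    rw [← Finset.mul_sum, mul_eq_zero] at h3
    have h4 := h3.resolve_left (pow_ne_zero 2 hane)
    rw [← Int.cast_sum] at h4
    have h5 : ∑ χ ∈ hfin.toFinset, d χ ^ 2 = 0 := by exact_mod_cast h4
    have h6 := (Finset.sum_eq_zero_iff_of_nonneg (fun k _ => sq_nonneg (d k))).1 h5 χ
      (hfin.mem_toFinset.2 ⟨hχ, hr⟩)
    exact pow_eq_zero_iff (two_ne_zero) |>.1 h6
  -- sums over all characters reduce to the block
  have hred : ∀ f : (G → ℂ) → ℂ, ∑ χ ∈ hfG.toFinset, f χ * (d χ : ℂ) =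
      ∑ χ ∈ hfE.toFinset, f χ * (d χ : ℂ) := by
    intro f
    symm
    refine Finset.sum_subset ?_ ?_
    · intro χ hχ
      exact hfG.mem_toFinset.2 (hfE.mem_toFinset.1 hχ).1
    · intro χ hχ hn
      have h1 := hfG.mem_toFinset.1 hχ
      have h3 : res M e χ ≠ 1 := fun h => hn (hfE.mem_toFinset.2 ⟨h1, h⟩)
      rw [hout χ h1 h3]
      simp
  have hsq : ∑ χ ∈ hfE.toFinset, d χ ^ 2 = 4 := by
    have h1 := hsqa M h2 G u hu b hb.1
    rw [finsum_mem_eq_finite_toFinset_sum _ hfG, finsum_mem_eq_finite_toFinset_sum _ hfB] at h1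
    have h3 : ∑ θ ∈ hfB.toFinset, θ 1 ^ 2 = 4 * (a : ℂ) ^ 2 := by
      rw [Finset.sum_congr rfl (g := fun _ => (a : ℂ) ^ 2) (fun θ hθ => by
        rw [ha.deg θ (hfB.mem_toFinset.1 hθ)]), Finset.sum_const, nsmul_eq_mul]
      congr 1
      have := ha.card
      rw [Set.ncard_eq_toFinset_card _ hfB] at this
      rw [this]
      norm_num
    have h4 : ∑ χ ∈ hfG.toFinset, chv w χ ^ 2 =
        (a : ℂ) ^ 2 * ∑ χ ∈ hfG.toFinset, (d χ : ℂ) * (d χ : ℂ) := by
      rw [Finset.mul_sum]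
      refine Finset.sum_congr rfl fun ψ hψ => ?_
      rw [hd ψ (hfG.mem_toFinset.1 hψ)]
      ring
    rw [h4, h3, hred] at h1
    have h5 : ∑ χ ∈ hfE.toFinset, (d χ : ℂ) * (d χ : ℂ) = 4 := by
      have h6 : (a : ℂ) ^ 2 ≠ 0 := pow_ne_zero 2 hane
      apply mul_left_cancel₀ h6
      rw [h1]
      ring
    have h7 : ((∑ χ ∈ hfE.toFinset, d χ ^ 2 : ℤ) : ℂ) = ((4 : ℤ) : ℂ) := by
      push_cast
      rw [← h5]
      exact Finset.sum_congr rfl fun χ _ => by ring
    exact_mod_cast h7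
  -- central elements
  have hcen : ∀ z ∈ Subgroup.center G, z * z = 1 → z ≠ u →
      ∑ χ ∈ hfE.toFinset, (d χ : ℂ) * χ z = 0 := by
    intro z hz hzz hzu
    have h1 := htrc G w (fun g => if g = z then (1 : ℂ) else 0)
    rw [finsum_mem_eq_finite_toFinset_sum _ hfG] at h1
    have hzc : ∀ x, x * z = z * x := Subgroup.mem_center_iff.1 hz
    have hzinv : z⁻¹ = z := inv_eq_of_mul_eq_one_left hzz
    have huinv : u⁻¹ = u := inv_eq_of_mul_eq_one_left hu.sq
    have hR : (∑ᶠ (x : G) (g : G), w g * (if x⁻¹ * g⁻¹ * x = z then (1 : ℂ) else 0)) = 0 := by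
      have hwz : w z = 0 := by
        rw [hw]
        unfold ub PP.ext0
        have hmem : u⁻¹ * z ∈ Cu u := by
          rw [Subgroup.mem_centralizer_singleton_iff]
          rw [mul_assoc, ← hzc u, ← mul_assoc, ← mul_assoc, inv_mul_cancel, mul_inv_cancel]
        rw [dif_pos hmem]
        refine hlin M h2 (Cu u) b hb.1 ⟨u⁻¹ * z, hmem⟩ ⟨?_, ?_⟩
        · apply Subtype.ext
          show u⁻¹ * z * (u⁻¹ * z) = 1
          rw [huinv, mul_assoc, ← mul_assoc z u z, ← hzc u, mul_assoc u z z, hzz, mul_one, hu.sq]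
        · intro h
          have h' : u⁻¹ * z = 1 := congrArg Subtype.val h
          exact hzu (inv_mul_eq_one.1 h').symm
      apply finsum_eq_zero_of_forall_eq_zero
      intro x
      apply finsum_eq_zero_of_forall_eq_zero
      intro g
      split_ifs with h
      · have hg : g = z := by
          have h3 : g⁻¹ = x * z * x⁻¹ := by rw [← h]; group
          rw [hzc x, mul_inv_cancel_right] at h3
          rw [← inv_inv g, h3, hzinv]
        rw [hg, hwz, zero_mul]
      · rw [mul_zero]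
    rw [hR] at h1
    have h3 : ∑ χ ∈ hfG.toFinset, chv w χ * chv (fun g => if g = z then (1 : ℂ) else 0) χ =
        (a : ℂ) * ∑ χ ∈ hfG.toFinset, χ z * (d χ : ℂ) := by
      rw [Finset.mul_sum]
      refine Finset.sum_congr rfl fun ψ hψ => ?_
      rw [hd ψ (hfG.mem_toFinset.1 hψ)]
      have := chv_single z ψ
      rw [show chv (fun g => if g = z then (1 : ℂ) else 0) ψ = ψ z from by
        convert this]
      ring
    rw [h3, hred] at h1
    have h4 := (mul_eq_zero.1 h1).resolve_left hane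
    rw [← h4]
    exact Finset.sum_congr rfl fun χ _ => mul_comm _ _
  -- a single character is impossible
  have hsingle : ∀ i ∈ hfE.toFinset,
      ¬ ((d i = 2 ∨ d i = -2) ∧ ∀ j ∈ hfE.toFinset, j ≠ i → d j = 0) := by
    rintro i hi ⟨h22, hj⟩
    have h1 := hcen 1 (Subgroup.one_mem _) (mul_one 1) (Ne.symm hu.ne)
    rw [Finset.sum_eq_single_of_mem i hi (fun j hj' hji => by rw [hj j hj' hji]; simp)] at h1
    have h3 := irr_one_ne (hfE.mem_toFinset.1 hi).1
    rcases mul_eq_zero.1 h1 with h | h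
    · have : d i = 0 := by exact_mod_cast h
      omega
    · exact h3 h
  -- central characters
  have hkap : rr M (4 * a / Nat.card (Cu u) : ℂ) ≠ 0 := by
    intro h
    have h1 := rr_mul ha.unit ha.unit'
    rw [h, zero_mul] at h1
    have h3 : (4 * a / Nat.card (Cu u) : ℂ) * (Nat.card (Cu u) / (4 * a) : ℂ) = 1 := by
      field_simp
    rw [h3, rr_one] at h1
    exact one_ne_zero h1
  have hstar : ∀ χ ∈ IrrE M e,
      (Nat.card G * chv w χ / (Nat.card (Cu u) * χ 1)) * (4 * χ 1 / Nat.card G) =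
        (4 * a / Nat.card (Cu u) : ℂ) * ((d χ : ℤ) : ℂ) := by
    intro χ hχ
    have h1 := irr_one_ne hχ.1
    rw [hd χ hχ.1]
    field_simp
  have hne : ∀ χ ∈ IrrE M e, rr M (Nat.card G * chv w χ / (Nat.card (Cu u) * χ 1)) ≠ 0 := by
    intro χ hχ h0
    have hall : ∀ ψ ∈ hfE.toFinset, (2 : ℤ) ∣ d ψ := by
      intro ψ hψ
      have hψ' := hfE.mem_toFinset.1 hψ
      obtain ⟨h1, h3⟩ := homc M G u b hb.1 e he ψ hψ' χ hχ
      have h4 := rr_mul h1 (hhgt M h2 G e he.1 hbd ψ hψ')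
      rw [← hw] at h4 h3
      rw [hstar ψ hψ', h3, h0, zero_mul, rr_mul ha.unit (rr_int (d ψ)).1] at h4
      have h5 := (mul_eq_zero.1 h4).resolve_left hkap
      exact (dvd_of_rr (M := M) Nat.prime_two (by exact_mod_cast h2)).1 h5
    obtain ⟨i, hi, h22⟩ := four_even _ d hsq hall
    exact hsingle i hi h22
  have hdne : ∀ i ∈ hfE.toFinset, d i ≠ 0 := by
    intro χ hχ h0
    have hχ' := hfE.mem_toFinset.1 hχ
    apply hne χ hχ'
    rw [hd χ hχ'.1, h0]
    simp [rr_zero]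
  obtain ⟨hc4, hpm⟩ := four_squares _ d hsq hdne hsingle
  refine ⟨?_, d, ?_, ?_⟩
  · rw [Set.ncard_eq_toFinset_card _ hfE]
    exact hc4
  · intro χ hχ
    have hχ' := hfE.mem_toFinset.2 hχ
    refine ⟨hpm χ hχ', hhgt M h2 G e he.1 hbd χ hχ, ?_⟩
    have h1 := irr_one_ne hχ.1
    have h3 : (Nat.card G / (4 * χ 1) : ℂ) =
        (Nat.card G * chv w χ / (Nat.card (Cu u) * χ 1)) * (Nat.card (Cu u) / (4 * a) : ℂ) *
          ((d χ : ℤ) : ℂ) := by
      have h4 : ((d χ : ℤ) : ℂ) * ((d χ : ℤ) : ℂ) = 1 := by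
        rcases hpm χ hχ' with h | h <;> rw [h] <;> norm_num
      rw [hd χ hχ.1]
      have h5 : (Nat.card G * (a * (d χ : ℂ)) / (Nat.card (Cu u) * χ 1)) *
          (Nat.card (Cu u) / (4 * a) : ℂ) * (d χ : ℂ) =
          Nat.card G / (4 * χ 1) * ((d χ : ℂ) * (d χ : ℂ)) := by
        field_simp
      rw [h5, h4, mul_one]
    rw [h3]
    exact Subring.mul_mem _ (Subring.mul_mem _ (homc M G u b hb.1 e he χ hχ χ hχ).1 ha.unit')
      (rr_int (d χ)).1
  · intro z hz hzz hzu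
    rw [finsum_mem_eq_finite_toFinset_sum _ hfE]
    exact hcen z hz hzz hzu

end Pool.Agent.PP.KF.H92
end
end -- Pool.Agent.Helper92_KF.Lk

section -- Pool.Agent.Helper77_K9.INT

/-!
# Squad K9, row INT: the numbers `A_χ(p)` are in `ℤ[ζ]`
-/

open scoped BigOperators

set_option linter.unusedSectionVars false

noncomputable section

namespace Pool.Agent.PP.K9.H77

open Pool.Agent.Helper51_AWC Pool.Agent.Helper79_WRA Pool.Agent.PP Pool.Agent.PP.KF

/-- a central element of order dividing `ℓ` acts by a power of `ζ` -/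
theorem cent_pow {C : Type} [Group C] {θ : C → ℂ} (hθ : θ ∈ Irr C) {z : C}
    (hz : ∀ c, z * c = c * z) {ℓ : ℕ} (hℓ : 0 < ℓ) (hzℓ : z ^ ℓ = 1) {ζ : ℂ}
    (hζ : IsPrimitiveRoot ζ ℓ) :
    ∃ i, i < ℓ ∧ ∀ (j : ℕ) (c : C), θ (z ^ j * c) = ζ ^ (i * j) * θ c := by
  have hne := irr_one_ne hθ
  obtain ⟨n, ρ, hρ, rfl⟩ := hθ
  obtain ⟨k, hk⟩ := schur_scalar ρ (ρ z) (by
    intro g
    have h1 : ρ z * ρ g = ρ g * ρ z := by rw [← map_mul, ← map_mul, hz]
    exact h1)
  have h1 : ∀ c, ρ.character (z * c) = k * ρ.character c := by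
    intro c
    show LinearMap.trace ℂ _ (ρ (z * c)) = k * LinearMap.trace ℂ _ (ρ c)
    rw [map_mul, hk, smul_mul_assoc, map_smul, smul_eq_mul]
    rfl
  have h2 : ∀ (j : ℕ) (c : C), ρ.character (z ^ j * c) = k ^ j * ρ.character c := by
    intro j
    induction j with
    | zero => intro c; rw [pow_zero, pow_zero, one_mul, one_mul]
    | succ j ih => intro c; rw [pow_succ', mul_assoc, h1, ih, pow_succ']; ring
  have h3 : k ^ ℓ = 1 := by
    have e1 := h2 ℓ 1
    rw [hzℓ, one_mul] at e1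
    exact (mul_right_cancel₀ hne (by rw [one_mul]; exact e1)).symm
  have : NeZero ℓ := ⟨hℓ.ne'⟩
  obtain ⟨i, hi, rfl⟩ := hζ.eq_pow_of_pow_eq_one h3
  exact ⟨i, hi, fun j c => by rw [h2, pow_mul]⟩

theorem zi_infl {A B : Type} [Group A] [Group B] {p : A →* B} (hp : Function.Surjective p)
    {f : B → ℂ} (hf : f ∈ ZI B) : (fun a => f (p a)) ∈ ZI A := by
  unfold ZI at hf
  induction hf using AddSubgroup.closure_induction with
  | mem θ hθ => exact AddSubgroup.subset_closure (H3.irr_infl hp hθ)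
  | zero => exact AddSubgroup.zero_mem _
  | add f g _ _ hf hg => exact AddSubgroup.add_mem _ hf hg
  | neg f _ hf => exact AddSubgroup.neg_mem _ hf

theorem zi_res {G : Type} [Group G] [Finite G] (C : Subgroup G) {χ : G → ℂ} (hχ : χ ∈ Irr G) :
    (fun c : C => χ c) ∈ ZI C := by
  classical
  have := Fintype.ofFinite C
  apply H25.mem_zi_of
  · intro x y
    exact irr_conj hχ (x : G) (y : G)
  · intro η hη
    obtain ⟨m, hm⟩ := H30.mult_int C hχ hη
    refine ⟨m, ?_⟩
    rw [← hm, ipn, finsum_eq_sum_of_fintype]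
    congr 1
    refine Finset.sum_congr rfl fun c _ => ?_
    rw [Pool.Agent.PP.H94.irr_star hη]

section main

variable {ℓ : ℕ} {G H : Type} [Group G] [Finite G] [Group H] [Finite H] {u : G} {π : Cu u →* H}

/-- `u` as an element of its centraliser -/
def uC (u : G) : Cu u := ⟨u, Subgroup.mem_centralizer_singleton_iff.2 rfl⟩

theorem uC_comm (u : G) (c : Cu u) : uC u * c = c * uC u := by
  apply Subtype.ext
  exact (Subgroup.mem_centralizer_singleton_iff.1 c.2).symm

theorem orderOf_uC (h : Qt ℓ u π) : orderOf (uC u) = ℓ := by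
  rw [← Subgroup.orderOf_coe]
  exact h.ord

theorem pi_pow_uC (h : Qt ℓ u π) (j : ℕ) (s : Cu u) : π (uC u ^ j * s) = π s := by
  have h1 : π (uC u) = 1 := (h.ker _).2 (Subgroup.mem_zpowers u)
  rw [map_mul, map_pow, h1, one_pow, one_mul]

/-- the decomposition of the elements with regular image -/
theorem exists_decomp (hℓ : ℓ.Prime) (h : Qt ℓ u π) {N : ℕ}
    (hN : ∀ g : Cu u, Reg ℓ (g ^ N) ∧ ∃ n : ℕ, ((g ^ N)⁻¹ * g) ^ ℓ ^ n = 1) {c : Cu u}
    (hc : Reg ℓ (π c)) : ∃ j < ℓ, c = uC u ^ j * c ^ N := by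
  classical
  obtain ⟨h1, n, h2⟩ := hN c
  have h3 : π ((c ^ N)⁻¹ * c) = 1 := by
    rw [← orderOf_eq_one_iff]
    have e1 : orderOf (π ((c ^ N)⁻¹ * c)) ∣ ℓ ^ n :=
      orderOf_dvd_of_pow_eq_one (by rw [← map_pow, h2, map_one])
    have e2 : orderOf (π ((c ^ N)⁻¹ * c)) ∣ orderOf (π c) := by
      apply orderOf_dvd_of_pow_eq_one
      rw [← map_pow]
      have e3 : ((c ^ N)⁻¹ * c) ^ orderOf (π c) = (c ^ orderOf (π c)) ^ (1 - N : ℤ) := by
        have e4 : (c ^ N)⁻¹ * c = c ^ (1 - N : ℤ) := by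
          rw [sub_eq_neg_add, zpow_add, zpow_neg, zpow_natCast, zpow_one]
        rw [e4, ← zpow_natCast, ← zpow_natCast, ← zpow_mul, ← zpow_mul, mul_comm]
      rw [e3, map_zpow, map_pow, pow_orderOf_eq_one, one_zpow]
    have e3 : Nat.Coprime (orderOf (π c)) (ℓ ^ n) := Nat.Coprime.pow_right n hc
    exact Nat.dvd_one.1 (e3 ▸ Nat.dvd_gcd e2 e1)
  have h4 := (h.ker _).1 h3
  rw [mem_zpowers_iff_mem_range_orderOf, h.ord, Finset.mem_image] at h4
  obtain ⟨j, hj, he⟩ := h4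
  refine ⟨j, Finset.mem_range.1 hj, ?_⟩
  have h5 : (c ^ N)⁻¹ * c = uC u ^ j := Subtype.ext he.symm
  have h6 : uC u ^ j * c ^ N = c ^ N * uC u ^ j :=
    ((show Commute (uC u) (c ^ N) from uC_comm u _).pow_left j).eq
  rw [h6, ← h5, mul_inv_cancel_left]

theorem card_Cu (h : Qt ℓ u π) : Nat.card (Cu u) = ℓ * Nat.card H := by
  have h1 : Nat.card π.ker = ℓ := by
    have h2 : π.ker = Subgroup.zpowers (uC u) := by
      ext c
      rw [MonoidHom.mem_ker, h.ker]
      constructor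
      · rintro ⟨k, hk⟩
        exact ⟨k, Subtype.ext hk⟩
      · rintro ⟨k, hk⟩
        exact ⟨k, congrArg Subtype.val hk⟩
    rw [h2, Nat.card_zpowers, orderOf_uC h]
  have h3 := π.ker.card_mul_index
  rw [h1, Subgroup.index_ker, MonoidHom.range_eq_top.2 h.sur, Subgroup.card_top] at h3
  exact h3.symm

open Classical in
/-- the sum over the centraliser -/
theorem sum_eq [Fintype (Cu u)] (hℓ : ℓ.Prime) (h : Qt ℓ u π) {N : ℕ}
    (hN : ∀ g : Cu u, Reg ℓ (g ^ N) ∧ ∃ n : ℕ, ((g ^ N)⁻¹ * g) ^ ℓ ^ n = 1)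
    (hN' : ∀ x y : Cu u, Commute x y → Reg ℓ x → (∃ n : ℕ, y ^ ℓ ^ n = 1) → (x * y) ^ N = x)
    {p : H → ℂ} (hp : Rc ℓ p) (κ : Cu u → ℂ) :
    ∑ c : Cu u, κ (c ^ N) * starRingEnd ℂ (p (π c)) =
      ℓ * ∑ s ∈ Finset.univ.filter (fun s : Cu u => Reg ℓ s),
        κ s * starRingEnd ℂ (p (π s)) := by
  have hinv : ∀ (j : ℕ) (s : Cu u), Reg ℓ s → (uC u ^ j * s) ^ N = s := by
    intro j s hs
    have hc : Commute s (uC u ^ j) := ((show Commute (uC u) s from uC_comm u s).pow_left j).symm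
    rw [← hc.eq]
    refine hN' s _ hc hs ⟨1, ?_⟩
    rw [pow_one, ← pow_mul, mul_comm, pow_mul, ← orderOf_uC h, pow_orderOf_eq_one, one_pow]
  have h1 : ∑ c : Cu u, κ (c ^ N) * starRingEnd ℂ (p (π c)) =
      ∑ c ∈ Finset.univ.filter (fun c : Cu u => Reg ℓ (π c)),
        κ (c ^ N) * starRingEnd ℂ (p (π c)) := by
    rw [Finset.sum_filter]
    refine Finset.sum_congr rfl fun c _ => ?_
    split_ifs with hc
    · rfl
    · rw [hp.sg _ hc, map_zero, mul_zero]
  have h2 : ∑ c ∈ Finset.univ.filter (fun c : Cu u => Reg ℓ (π c)),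
        κ (c ^ N) * starRingEnd ℂ (p (π c)) =
      ∑ x ∈ Finset.range ℓ ×ˢ Finset.univ.filter (fun s : Cu u => Reg ℓ s),
        κ x.2 * starRingEnd ℂ (p (π x.2)) := by
    symm
    refine Finset.sum_bij (fun x _ => uC u ^ x.1 * x.2) ?_ ?_ ?_ ?_
    · rintro ⟨j, s⟩ hx
      simp only [Finset.mem_product, Finset.mem_filter, Finset.mem_univ, true_and] at hx ⊢
      rw [pi_pow_uC h]
      exact Nat.Coprime.coprime_dvd_left (orderOf_map_dvd π s) hx.2
    · rintro ⟨j, s⟩ hx ⟨j', s'⟩ hx' he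
      simp only [Finset.mem_product, Finset.mem_filter, Finset.mem_univ, true_and,
        Finset.mem_range] at hx hx' he
      have e1 : s = s' := by
        have := congrArg (· ^ N) he
        simp only [hinv j s hx.2, hinv j' s' hx'.2] at this
        exact this
      rw [e1] at he
      have e2 := mul_right_cancel he
      have e3 := pow_injOn_Iio_orderOf (x := uC u)
        (show j ∈ Set.Iio (orderOf (uC u)) by rw [orderOf_uC h]; exact hx.1)
        (show j' ∈ Set.Iio (orderOf (uC u)) by rw [orderOf_uC h]; exact hx'.1) e2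
      rw [e1, e3]
    · intro c hc
      simp only [Finset.mem_filter, Finset.mem_univ, true_and] at hc
      obtain ⟨j, hj, he⟩ := exists_decomp hℓ h hN hc
      refine ⟨(j, c ^ N), ?_, he.symm⟩
      simp only [Finset.mem_product, Finset.mem_filter, Finset.mem_univ, true_and,
        Finset.mem_range]
      exact ⟨hj, (hN c).1⟩
    · rintro ⟨j, s⟩ hx
      simp only [Finset.mem_product, Finset.mem_filter, Finset.mem_univ, true_and] at hx
      rw [hinv j s hx.2, pi_pow_uC h]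
  rw [h1, h2, Finset.sum_product]
  show ∑ _x ∈ Finset.range ℓ, ∑ s ∈ Finset.univ.filter (fun s : Cu u => Reg ℓ s),
        κ s * starRingEnd ℂ (p (π s)) = _
  rw [Finset.sum_const, Finset.card_range, nsmul_eq_mul]

end main

theorem int_ (ada : AdaStmt) (prt : PrtStmt) : IntStmt := by
  classical
  intro ℓ hℓ G H _ _ _ _ u π h p hp hpc χ hχ ζ hζ
  have := Fintype.ofFinite (Cu u)
  obtain ⟨N, hN, hN'⟩ := prt ℓ (Cu u)
  have hpos : 0 < ℓ := hℓ.out.pos
  have hH : (Nat.card H : ℂ) ≠ 0 := by exact_mod_cast Nat.card_pos.ne'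
  have hℓ0 : (ℓ : ℂ) ≠ 0 := by exact_mod_cast hpos.ne'
  -- the statement for virtual characters of the centraliser
  have key : ∀ f ∈ ZI (Cu u), ∃ m : ℕ → ℤ, ∀ j : ℕ,
      (Nat.card H : ℂ)⁻¹ * ∑ s ∈ Finset.univ.filter (fun s : Cu u => Reg ℓ s),
        f (uC u ^ j * s) * starRingEnd ℂ (p (π s)) =
        ∑ i ∈ Finset.range ℓ, (m i : ℂ) * ζ ^ (i * j) := by
    intro f hf
    unfold ZI at hf
    induction hf using AddSubgroup.closure_induction with
    | mem κ hκ =>
      obtain ⟨i, hi, hk⟩ := cent_pow hκ (uC_comm u) hpos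
        (by rw [← orderOf_uC h]; exact pow_orderOf_eq_one _) hζ
      obtain ⟨m, hm⟩ := ada (Cu u) N κ (AddSubgroup.subset_closure hκ) _ (zi_infl h.sur hp)
      have e1 : (Nat.card H : ℂ)⁻¹ * ∑ s ∈ Finset.univ.filter (fun s : Cu u => Reg ℓ s),
          κ s * starRingEnd ℂ (p (π s)) = m := by
        rw [← hm, ipn, finsum_eq_sum_of_fintype, sum_eq hℓ.out h hN hN' hpc κ, card_Cu h]
        push_cast
        field_simp
      refine ⟨fun k => if k = i then m else 0, fun j => ?_⟩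
      rw [Finset.sum_eq_single i]
      · show _ = ((if i = i then m else 0 : ℤ) : ℂ) * ζ ^ (i * j)
        rw [if_pos rfl, ← e1]
        simp only [hk, Finset.mul_sum, Finset.sum_mul]
        refine Finset.sum_congr rfl fun s _ => ?_
        ring
      · intro k _ hki
        show ((if k = i then m else 0 : ℤ) : ℂ) * ζ ^ (k * j) = 0
        rw [if_neg hki, Int.cast_zero, zero_mul]
      · intro hni
        exact absurd (Finset.mem_range.2 hi) hni
    | zero =>
      refine ⟨0, fun j => ?_⟩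
      simp
    | add f g _ _ hf hg =>
      obtain ⟨m, hm⟩ := hf
      obtain ⟨m', hm'⟩ := hg
      refine ⟨m + m', fun j => ?_⟩
      simp only [Pi.add_apply, add_mul, Finset.sum_add_distrib, mul_add, Int.cast_add]
      rw [hm, hm']
    | neg f _ hf =>
      obtain ⟨m, hm⟩ := hf
      refine ⟨-m, fun j => ?_⟩
      simp only [Pi.neg_apply, neg_mul, Finset.sum_neg_distrib, mul_neg, Int.cast_neg]
      rw [hm]
  obtain ⟨m, hm⟩ := key _ (zi_res (Cu u) hχ)
  refine ⟨m, fun j => ?_⟩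
  rw [← hm j, Av, finsum_eq_sum_of_fintype, Finset.sum_filter]
  refine congrArg ((Nat.card H : ℂ)⁻¹ * ·) (Finset.sum_congr rfl fun s _ => ?_)
  rw [finsum_eq_if]
  rfl

end Pool.Agent.PP.K9.H77
end
end -- Pool.Agent.Helper77_K9.INT

section -- Pool.Agent.Helper63_AT3.INR

/-!
# Squad AT3, row INR: integrality of `χ(u b^)/d`
-/

open scoped BigOperators

noncomputable section

namespace Pool.Agent.PP.T3.H63

open Pool.Agent.Helper51_AWC Pool.Agent.Helper79_WRA Pool.Agent.PP Pool.Agent.PP.KF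
open Pool.Agent.PP.K9 Pool.Agent.PP.K9.H97 Pool.Agent.PP.H75

attribute [local instance] Ideal.Quotient.field

/-- a central element acts by a scalar -/
theorem cent_root {C : Type} [Group C] {θ : C → ℂ} (hθ : θ ∈ Irr C) {z : C}
    (hz : ∀ c, z * c = c * z) {q : ℕ} (hq : z ^ q = 1) :
    ∃ k : ℂ, k ^ q = 1 ∧ ∀ (j : ℕ) (c : C), θ (z ^ j * c) = k ^ j * θ c := by
  obtain ⟨n, ρ, hρ, rfl⟩ := hθ
  obtain ⟨k, hk⟩ := schur_scalar ρ (ρ z) (by
    intro g
    have h1 : ρ z * ρ g = ρ g * ρ z := by rw [← map_mul, ← map_mul, hz]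
    exact h1)
  have h1 : ∀ c, ρ.character (z * c) = k * ρ.character c := by
    intro c
    show LinearMap.trace ℂ _ (ρ (z * c)) = k * LinearMap.trace ℂ _ (ρ c)
    rw [map_mul, hk, smul_mul_assoc, map_smul, smul_eq_mul]
    rfl
  have h2 : ρ.character 1 ≠ 0 := irr_one_ne (mem_Irr_of_irreducible ρ)
  have h3 : ∀ (j : ℕ) (c : C), ρ.character (z ^ j * c) = k ^ j * ρ.character c := by
    intro j
    induction j with
    | zero => intro c; rw [pow_zero, one_mul, pow_zero, one_mul]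
    | succ j ih =>
      intro c
      rw [pow_succ', mul_assoc, h1, ih, pow_succ', mul_assoc]
  refine ⟨k, ?_, h3⟩
  have e := h3 q 1
  rw [hq, one_mul] at e
  exact mul_right_cancel₀ h2 (by rw [one_mul]; exact e.symm)

theorem inr : InrStmt := by
  intro M _ G _ _ u q hq hu b hb d hd ζ hζ χ hχ
  classical
  have := Fintype.ofFinite G
  have := Fintype.ofFinite (Cu u)
  obtain ⟨b', hb'⟩ : ∃ b' : Cu u → FF M, b' = fun t : Cu u => b t := ⟨_, rfl⟩
  have hS : (IrrE M b').Finite := irr_finite'.subset (fun θ h => h.1)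
  obtain ⟨uC, huC⟩ : ∃ uC : Cu u, (uC : G) = u :=
    ⟨⟨u, Subgroup.mem_centralizer_singleton_iff.2 rfl⟩, rfl⟩
  have hz : ∀ c : Cu u, uC * c = c * uC := by
    intro c
    apply Subtype.ext
    show (uC : G) * c = c * uC
    rw [huC]
    exact (Subgroup.mem_centralizer_singleton_iff.1 c.2).symm
  have hzq : uC ^ q = 1 := by
    apply Subtype.ext
    rw [Subgroup.coe_pow, huC, hu, Subgroup.coe_one]
  -- the exponents and the multiplicities
  have h1 : ∀ θ ∈ hS.toFinset, ∃ i : ℕ, i < q ∧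
      ∀ (j : ℕ) (c : Cu u), θ (uC ^ j * c) = (ζ ^ i) ^ j * θ c := by
    intro θ hθ
    have hθ' : θ ∈ Irr (Cu u) := (hS.mem_toFinset.1 hθ).1
    obtain ⟨k, hk, hkj⟩ := cent_root hθ' hz hzq
    have : NeZero q := ⟨hq.ne'⟩
    obtain ⟨i, hi, rfl⟩ := hζ.eq_pow_of_pow_eq_one hk
    exact ⟨i, hi, hkj⟩
  have h2 : ∀ θ ∈ hS.toFinset, ∃ m : ℤ,
      (Nat.card (Cu u) : ℂ)⁻¹ * ∑ c : Cu u, χ c * θ c⁻¹ = m := by
    intro θ hθ
    exact KF.H30.mult_int (Cu u) hχ (hS.mem_toFinset.1 hθ).1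
  choose! ix hix hix2 using h1
  choose! mu hmu using h2
  refine ⟨fun i => ∑ θ ∈ hS.toFinset.filter (fun θ => ix θ = i), mu θ, ?_⟩
  intro j
  have e1 : gv M (Cu u) (u ^ j) b χ = ∑ c : Cu u, eh M b' c * χ (u ^ j * c) := by
    rw [gv, gbv, finsum_eq_sum_of_fintype, hb']
  have e2 : ∀ c : Cu u, eh M b' c =
      (Nat.card (Cu u) : ℂ)⁻¹ * ∑ θ ∈ hS.toFinset, (d : ℂ) * θ c⁻¹ := by
    intro c
    rw [eh, finsum_mem_eq_finite_toFinset_sum _ hS]
    congr 1
    refine Finset.sum_congr rfl fun θ hθ => ?_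
    have : θ ∈ IrrE M (fun t : Cu u => b t) := by
      have := hS.mem_toFinset.1 hθ
      rw [hb'] at this
      exact this
    rw [hd.2 θ this]
  have e3 : ∀ θ ∈ hS.toFinset, (Nat.card (Cu u) : ℂ)⁻¹ * ∑ c : Cu u, θ c⁻¹ * χ (u ^ j * c) =
      mu θ * ζ ^ (ix θ * j) := by
    intro θ hθ
    rw [← hmu θ hθ, ← Equiv.sum_comp (Equiv.mulLeft (uC ^ j))
      (fun c : Cu u => χ c * θ c⁻¹), mul_assoc, Finset.sum_mul]
    refine congrArg ((Nat.card (Cu u) : ℂ)⁻¹ * ·) (Finset.sum_congr rfl fun c _ => ?_)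
    show θ c⁻¹ * χ (u ^ j * c) = χ ((uC ^ j * c : Cu u) : G) * θ (uC ^ j * c)⁻¹ * ζ ^ (ix θ * j)
    have a1 : ((uC ^ j * c : Cu u) : G) = u ^ j * c := by
      rw [Subgroup.coe_mul, Subgroup.coe_pow, huC]
    have hcomm : ∀ (c : Cu u), uC ^ j * c = c * uC ^ j := fun c =>
      (Commute.pow_left (hz c) j)
    have a2 : θ c⁻¹ = (ζ ^ (ix θ)) ^ j * θ (uC ^ j * c)⁻¹ := by
      rw [← hix2 θ hθ, mul_inv_rev, ← mul_assoc, hcomm c⁻¹, mul_assoc, mul_inv_cancel, mul_one]
    rw [a1, a2, pow_mul]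
    ring
  rw [e1]
  simp only [e2]
  have e4 : ∑ c : Cu u, (Nat.card (Cu u) : ℂ)⁻¹ * (∑ θ ∈ hS.toFinset, (d : ℂ) * θ c⁻¹) *
      χ (u ^ j * c) = ∑ θ ∈ hS.toFinset, (d : ℂ) * ((Nat.card (Cu u) : ℂ)⁻¹ *
        ∑ c : Cu u, θ c⁻¹ * χ (u ^ j * c)) := by
    simp_rw [Finset.mul_sum, Finset.sum_mul]
    rw [Finset.sum_comm]
    refine Finset.sum_congr rfl fun θ _ => Finset.sum_congr rfl fun c _ => ?_
    ring
  rw [e4, ← Finset.mul_sum]
  congr 1
  rw [Finset.sum_congr rfl e3]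
  rw [← Finset.sum_fiberwise_of_maps_to (s := hS.toFinset) (t := Finset.range q) (g := ix)
    (fun θ hθ => Finset.mem_range.2 (hix θ hθ))]
  refine Finset.sum_congr rfl fun i _ => ?_
  rw [Int.cast_sum, Finset.sum_mul]
  refine Finset.sum_congr rfl fun θ hθ => ?_
  rw [(Finset.mem_filter.1 hθ).2]

end Pool.Agent.PP.T3.H63
end
end -- Pool.Agent.Helper63_AT3.INR

section -- Pool.Agent.Helper48_C2.INT2

/-!
# Squad C2, row INT2: the numbers `A_χ(p)` are in `ℤ[ζ]`, for `u` of order `ℓ ^ n`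
-/

open scoped BigOperators

set_option linter.unusedSectionVars false

noncomputable section

namespace Pool.Agent.PP.C2.H48

open Pool.Agent.Helper51_AWC Pool.Agent.Helper79_WRA Pool.Agent.PP Pool.Agent.PP.KF
open Pool.Agent.PP.K9 Pool.Agent.PP.K9.H77

section main

variable {ℓ n : ℕ} {G H : Type} [Group G] [Finite G] [Group H] [Finite H] {u : G} {π : Cu u →* H}

theorem orderOf_uC2 (h : Qn (ℓ ^ n) u π) : orderOf (uC u) = ℓ ^ n := by
  rw [← Subgroup.orderOf_coe]
  exact h.ord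

theorem pi_pow_uC2 (h : Qn (ℓ ^ n) u π) (j : ℕ) (s : Cu u) : π (uC u ^ j * s) = π s := by
  have h1 : π (uC u) = 1 := (h.ker _).2 (Subgroup.mem_zpowers u)
  rw [map_mul, map_pow, h1, one_pow, one_mul]

/-- the decomposition of the elements with regular image -/
theorem exists_decomp2 (h : Qn (ℓ ^ n) u π) {N : ℕ}
    (hN : ∀ g : Cu u, Reg ℓ (g ^ N) ∧ ∃ n : ℕ, ((g ^ N)⁻¹ * g) ^ ℓ ^ n = 1) {c : Cu u}
    (hc : Reg ℓ (π c)) : ∃ j < ℓ ^ n, c = uC u ^ j * c ^ N := by
  classical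
  obtain ⟨h1, k, h2⟩ := hN c
  have h3 : π ((c ^ N)⁻¹ * c) = 1 := by
    rw [← orderOf_eq_one_iff]
    have e1 : orderOf (π ((c ^ N)⁻¹ * c)) ∣ ℓ ^ k :=
      orderOf_dvd_of_pow_eq_one (by rw [← map_pow, h2, map_one])
    have e2 : orderOf (π ((c ^ N)⁻¹ * c)) ∣ orderOf (π c) := by
      apply orderOf_dvd_of_pow_eq_one
      rw [← map_pow]
      have e3 : ((c ^ N)⁻¹ * c) ^ orderOf (π c) = (c ^ orderOf (π c)) ^ (1 - N : ℤ) := by
        have e4 : (c ^ N)⁻¹ * c = c ^ (1 - N : ℤ) := by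
          rw [sub_eq_neg_add, zpow_add, zpow_neg, zpow_natCast, zpow_one]
        rw [e4, ← zpow_natCast, ← zpow_natCast, ← zpow_mul, ← zpow_mul, mul_comm]
      rw [e3, map_zpow, map_pow, pow_orderOf_eq_one, one_zpow]
    have e3 : Nat.Coprime (orderOf (π c)) (ℓ ^ k) := Nat.Coprime.pow_right k hc
    exact Nat.dvd_one.1 (e3 ▸ Nat.dvd_gcd e2 e1)
  have h4 := (h.ker _).1 h3
  rw [mem_zpowers_iff_mem_range_orderOf, h.ord, Finset.mem_image] at h4
  obtain ⟨j, hj, he⟩ := h4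
  refine ⟨j, Finset.mem_range.1 hj, ?_⟩
  have h5 : (c ^ N)⁻¹ * c = uC u ^ j := Subtype.ext he.symm
  have h6 : uC u ^ j * c ^ N = c ^ N * uC u ^ j :=
    ((show Commute (uC u) (c ^ N) from uC_comm u _).pow_left j).eq
  rw [h6, ← h5, mul_inv_cancel_left]

theorem card_Cu2 (h : Qn (ℓ ^ n) u π) : Nat.card (Cu u) = ℓ ^ n * Nat.card H := by
  have h1 : Nat.card π.ker = ℓ ^ n := by
    have h2 : π.ker = Subgroup.zpowers (uC u) := by
      ext c
      rw [MonoidHom.mem_ker, h.ker]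
      constructor
      · rintro ⟨k, hk⟩
        exact ⟨k, Subtype.ext hk⟩
      · rintro ⟨k, hk⟩
        exact ⟨k, congrArg Subtype.val hk⟩
    rw [h2, Nat.card_zpowers, orderOf_uC2 h]
  have h3 := π.ker.card_mul_index
  rw [h1, Subgroup.index_ker, MonoidHom.range_eq_top.2 h.sur, Subgroup.card_top] at h3
  exact h3.symm

open Classical in
/-- the sum over the centraliser -/
theorem sum_eq2 [Fintype (Cu u)] (h : Qn (ℓ ^ n) u π) {N : ℕ}
    (hN : ∀ g : Cu u, Reg ℓ (g ^ N) ∧ ∃ n : ℕ, ((g ^ N)⁻¹ * g) ^ ℓ ^ n = 1)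
    (hN' : ∀ x y : Cu u, Commute x y → Reg ℓ x → (∃ n : ℕ, y ^ ℓ ^ n = 1) → (x * y) ^ N = x)
    {p : H → ℂ} (hp : Rc ℓ p) (κ : Cu u → ℂ) :
    ∑ c : Cu u, κ (c ^ N) * starRingEnd ℂ (p (π c)) =
      (ℓ ^ n : ℕ) * ∑ s ∈ Finset.univ.filter (fun s : Cu u => Reg ℓ s),
        κ s * starRingEnd ℂ (p (π s)) := by
  have hinv : ∀ (j : ℕ) (s : Cu u), Reg ℓ s → (uC u ^ j * s) ^ N = s := by
    intro j s hs
    have hc : Commute s (uC u ^ j) := ((show Commute (uC u) s from uC_comm u s).pow_left j).symm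
    rw [← hc.eq]
    refine hN' s _ hc hs ⟨n, ?_⟩
    rw [← pow_mul, mul_comm, pow_mul, ← orderOf_uC2 h, pow_orderOf_eq_one, one_pow]
  have h1 : ∑ c : Cu u, κ (c ^ N) * starRingEnd ℂ (p (π c)) =
      ∑ c ∈ Finset.univ.filter (fun c : Cu u => Reg ℓ (π c)),
        κ (c ^ N) * starRingEnd ℂ (p (π c)) := by
    rw [Finset.sum_filter]
    refine Finset.sum_congr rfl fun c _ => ?_
    split_ifs with hc
    · rfl
    · rw [hp.sg _ hc, map_zero, mul_zero]
  have h2 : ∑ c ∈ Finset.univ.filter (fun c : Cu u => Reg ℓ (π c)),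
        κ (c ^ N) * starRingEnd ℂ (p (π c)) =
      ∑ x ∈ Finset.range (ℓ ^ n) ×ˢ Finset.univ.filter (fun s : Cu u => Reg ℓ s),
        κ x.2 * starRingEnd ℂ (p (π x.2)) := by
    symm
    refine Finset.sum_bij (fun x _ => uC u ^ x.1 * x.2) ?_ ?_ ?_ ?_
    · rintro ⟨j, s⟩ hx
      simp only [Finset.mem_product, Finset.mem_filter, Finset.mem_univ, true_and] at hx ⊢
      rw [pi_pow_uC2 h]
      exact Nat.Coprime.coprime_dvd_left (orderOf_map_dvd π s) hx.2
    · rintro ⟨j, s⟩ hx ⟨j', s'⟩ hx' he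
      simp only [Finset.mem_product, Finset.mem_filter, Finset.mem_univ, true_and,
        Finset.mem_range] at hx hx' he
      have e1 : s = s' := by
        have := congrArg (· ^ N) he
        simp only [hinv j s hx.2, hinv j' s' hx'.2] at this
        exact this
      rw [e1] at he
      have e2 := mul_right_cancel he
      have e3 := pow_injOn_Iio_orderOf (x := uC u)
        (show j ∈ Set.Iio (orderOf (uC u)) by rw [orderOf_uC2 h]; exact hx.1)
        (show j' ∈ Set.Iio (orderOf (uC u)) by rw [orderOf_uC2 h]; exact hx'.1) e2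
      rw [e1, e3]
    · intro c hc
      simp only [Finset.mem_filter, Finset.mem_univ, true_and] at hc
      obtain ⟨j, hj, he⟩ := exists_decomp2 h hN hc
      refine ⟨(j, c ^ N), ?_, he.symm⟩
      simp only [Finset.mem_product, Finset.mem_filter, Finset.mem_univ, true_and,
        Finset.mem_range]
      exact ⟨hj, (hN c).1⟩
    · rintro ⟨j, s⟩ hx
      simp only [Finset.mem_product, Finset.mem_filter, Finset.mem_univ, true_and] at hx
      rw [hinv j s hx.2, pi_pow_uC2 h]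
  rw [h1, h2, Finset.sum_product]
  show ∑ _x ∈ Finset.range (ℓ ^ n), ∑ s ∈ Finset.univ.filter (fun s : Cu u => Reg ℓ s),
        κ s * starRingEnd ℂ (p (π s)) = _
  rw [Finset.sum_const, Finset.card_range, nsmul_eq_mul]

end main

theorem int2_ (ada : AdaStmt) (prt : PrtStmt) : Int2Stmt := by
  classical
  intro ℓ hℓ n G H _ _ _ _ u π h p hp hpc χ hχ ζ hζ
  have := Fintype.ofFinite (Cu u)
  obtain ⟨N, hN, hN'⟩ := prt ℓ (Cu u)
  have hpos : 0 < ℓ ^ n := pow_pos hℓ.out.pos n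
  have hH : (Nat.card H : ℂ) ≠ 0 := by exact_mod_cast Nat.card_pos.ne'
  have hℓ0 : ((ℓ ^ n : ℕ) : ℂ) ≠ 0 := by exact_mod_cast hpos.ne'
  -- the statement for virtual characters of the centraliser
  have key : ∀ f ∈ ZI (Cu u), ∃ m : ℕ → ℤ, ∀ j : ℕ,
      (Nat.card H : ℂ)⁻¹ * ∑ s ∈ Finset.univ.filter (fun s : Cu u => Reg ℓ s),
        f (uC u ^ j * s) * starRingEnd ℂ (p (π s)) =
        ∑ i ∈ Finset.range (ℓ ^ n), (m i : ℂ) * ζ ^ (i * j) := by
    intro f hf
    unfold ZI at hf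
    induction hf using AddSubgroup.closure_induction with
    | mem κ hκ =>
      obtain ⟨i, hi, hk⟩ := cent_pow hκ (uC_comm u) hpos
        (by rw [← orderOf_uC2 h]; exact pow_orderOf_eq_one _) hζ
      obtain ⟨m, hm⟩ := ada (Cu u) N κ (AddSubgroup.subset_closure hκ) _ (zi_infl h.sur hp)
      have e1 : (Nat.card H : ℂ)⁻¹ * ∑ s ∈ Finset.univ.filter (fun s : Cu u => Reg ℓ s),
          κ s * starRingEnd ℂ (p (π s)) = m := by
        rw [← hm, ipn, finsum_eq_sum_of_fintype, sum_eq2 h hN hN' hpc κ, card_Cu2 h,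
          Nat.cast_mul]
        field_simp
      refine ⟨fun k => if k = i then m else 0, fun j => ?_⟩
      rw [Finset.sum_eq_single i]
      · show _ = ((if i = i then m else 0 : ℤ) : ℂ) * ζ ^ (i * j)
        rw [if_pos rfl, ← e1]
        simp only [hk, Finset.mul_sum, Finset.sum_mul]
        refine Finset.sum_congr rfl fun s _ => ?_
        ring
      · intro k _ hki
        show ((if k = i then m else 0 : ℤ) : ℂ) * ζ ^ (k * j) = 0
        rw [if_neg hki, Int.cast_zero, zero_mul]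
      · intro hni
        exact absurd (Finset.mem_range.2 hi) hni
    | zero =>
      refine ⟨0, fun j => ?_⟩
      simp
    | add f g _ _ hf hg =>
      obtain ⟨m, hm⟩ := hf
      obtain ⟨m', hm'⟩ := hg
      refine ⟨m + m', fun j => ?_⟩
      simp only [Pi.add_apply, add_mul, Finset.sum_add_distrib, mul_add, Int.cast_add]
      rw [hm, hm']
    | neg f _ hf =>
      obtain ⟨m, hm⟩ := hf
      refine ⟨-m, fun j => ?_⟩
      simp only [Pi.neg_apply, neg_mul, Finset.sum_neg_distrib, mul_neg, Int.cast_neg]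
      rw [hm]
  obtain ⟨m, hm⟩ := key _ (zi_res (Cu u) hχ)
  refine ⟨m, fun j => ?_⟩
  rw [← hm j, Av, finsum_eq_sum_of_fintype, Finset.sum_filter]
  refine congrArg ((Nat.card H : ℂ)⁻¹ * ·) (Finset.sum_congr rfl fun s _ => ?_)
  rw [finsum_eq_if]
  rfl

/-- INT2 -/
theorem int2 : Int2Stmt := int2_ (K9.H25.ada K9.H20.adp) K9.H27.prt

end Pool.Agent.PP.C2.H48
end
end -- Pool.Agent.Helper48_C2.INT2
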