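import Pool.Agent.Helper12_AWB.B119
import Pool.Agent.Helper12_AWB.B142

/-!
# Merged copies (generated) of the modules

* `Pool.Agent.Helper65_K9.GAL`
* `Pool.Agent.Helper56_AT3.GLP`
* `Pool.Agent.Helper92_AT5.GL5a`
* `Pool.Agent.Helper92_AT5.GL5`
* `Pool.Agent.Helper76_ATZ.ZIN`
* `Pool.Agent.Helper92_ATZ.POZ`
-/

set_option autoImplicit false

section -- Pool.Agent.Helper65_K9.GAL

/-!
# Squad KL, row GAL: the conjugates of a nonzero element of `ℤ[ζ]`
-/

open scoped BigOperators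

noncomputable section

namespace Pool.Agent.PP.K9.H65g

open Pool.Agent.PP.K9

theorem geom_zero {η : ℂ} {ℓ : ℕ} (h1 : η ≠ 1) (h : η ^ ℓ = 1) :
    ∑ j ∈ Finset.range ℓ, η ^ j = 0 := by
  have h2 := mul_geom_sum η ℓ
  rw [h, sub_self] at h2
  rcases mul_eq_zero.1 h2 with h3 | h3
  · exact absurd (sub_eq_zero.1 h3) h1
  · exact h3

theorem conj_root {ζ : ℂ} {ℓ : ℕ} (hl : 0 < ℓ) (hζ : IsPrimitiveRoot ζ ℓ) :
    ζ * starRingEnd ℂ ζ = 1 := by
  have h1 : ‖ζ‖ = 1 := hζ.norm'_eq_one hl.ne'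
  rw [Complex.mul_conj, Complex.normSq_eq_norm_sq, h1]
  norm_num

/-- Parseval. -/
theorem parseval {ζ : ℂ} {ℓ : ℕ} (hl : 0 < ℓ) (hζ : IsPrimitiveRoot ζ ℓ) (n : ℕ → ℤ) :
    ∑ j ∈ Finset.range ℓ, Complex.normSq (∑ i ∈ Finset.range ℓ, (n i : ℂ) * ζ ^ (i * j)) =
      ℓ * ∑ i ∈ Finset.range ℓ, (n i : ℝ) ^ 2 := by
  have hcj := conj_root hl hζ
  have key : ∀ i ∈ Finset.range ℓ, ∀ i' ∈ Finset.range ℓ,
      ∑ j ∈ Finset.range ℓ, ζ ^ (i * j) * (starRingEnd ℂ ζ) ^ (i' * j) =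
        if i' = i then (ℓ : ℂ) else 0 := by
    intro i hi i' hi'
    have e : ∀ j ∈ Finset.range ℓ, ζ ^ (i * j) * (starRingEnd ℂ ζ) ^ (i' * j) =
        (ζ ^ i * (starRingEnd ℂ ζ) ^ i') ^ j := by
      intro j _
      rw [mul_pow, ← pow_mul, ← pow_mul]
    rw [Finset.sum_congr rfl e]
    by_cases h : i' = i
    · rw [if_pos h, h, ← mul_pow, hcj, one_pow]
      simp
    · rw [if_neg h]
      apply geom_zero
      · intro h1
        apply h
        have h2 : ζ ^ i = ζ ^ i' := by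
          calc ζ ^ i = ζ ^ i * (starRingEnd ℂ ζ) ^ i' * ζ ^ i' := by
                rw [mul_assoc, ← mul_pow, mul_comm (starRingEnd ℂ ζ) ζ, hcj, one_pow, mul_one]
            _ = ζ ^ i' := by rw [h1, one_mul]
        exact (hζ.pow_inj (Finset.mem_range.1 hi) (Finset.mem_range.1 hi') h2).symm
      · have h3 : (starRingEnd ℂ ζ) ^ ℓ = 1 := by
          rw [← map_pow, hζ.pow_eq_one, map_one]
        rw [mul_pow, ← pow_mul, ← pow_mul, mul_comm i, mul_comm i', pow_mul, pow_mul,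
          hζ.pow_eq_one, h3, one_pow, one_pow, one_mul]
  have hC : ((∑ j ∈ Finset.range ℓ, Complex.normSq (∑ i ∈ Finset.range ℓ,
      (n i : ℂ) * ζ ^ (i * j)) : ℝ) : ℂ) = ((ℓ * ∑ i ∈ Finset.range ℓ, (n i : ℝ) ^ 2 : ℝ) : ℂ) := by
    rw [Complex.ofReal_sum]
    have e1 : ∀ j ∈ Finset.range ℓ, ((Complex.normSq (∑ i ∈ Finset.range ℓ,
        (n i : ℂ) * ζ ^ (i * j)) : ℝ) : ℂ) = ∑ i ∈ Finset.range ℓ, ∑ i' ∈ Finset.range ℓ,
          (n i : ℂ) * (n i' : ℂ) * (ζ ^ (i * j) * (starRingEnd ℂ ζ) ^ (i' * j)) := by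
      intro j _
      rw [← Complex.mul_conj, map_sum, Finset.sum_mul_sum]
      refine Finset.sum_congr rfl fun i _ => Finset.sum_congr rfl fun i' _ => ?_
      rw [map_mul, map_pow, map_intCast]
      ring
    rw [Finset.sum_congr rfl e1, Finset.sum_comm]
    have e2 : ∀ i ∈ Finset.range ℓ, ∑ j ∈ Finset.range ℓ, ∑ i' ∈ Finset.range ℓ,
        (n i : ℂ) * (n i' : ℂ) * (ζ ^ (i * j) * (starRingEnd ℂ ζ) ^ (i' * j)) =
        (ℓ : ℂ) * (n i : ℂ) ^ 2 := by
      intro i hi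
      rw [Finset.sum_comm]
      have e3 : ∀ i' ∈ Finset.range ℓ, ∑ j ∈ Finset.range ℓ,
          (n i : ℂ) * (n i' : ℂ) * (ζ ^ (i * j) * (starRingEnd ℂ ζ) ^ (i' * j)) =
          if i' = i then (ℓ : ℂ) * (n i : ℂ) ^ 2 else 0 := by
        intro i' hi'
        rw [← Finset.mul_sum, key i hi i' hi']
        by_cases h : i' = i
        · rw [if_pos h, if_pos h, h]
          ring
        · rw [if_neg h, if_neg h, mul_zero]
      rw [Finset.sum_congr rfl e3, Finset.sum_ite_eq' (Finset.range ℓ) i, if_pos hi]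
    rw [Finset.sum_congr rfl e2, ← Finset.mul_sum]
    push_cast
    ring
  exact_mod_cast hC

/-- Row GAL. -/
theorem gal : GalStmt := by
  intro ℓ _ ζ hζ m hm
  have hp : ℓ.Prime := Fact.out
  have hl := hp.pos
  have h2 := hp.two_le
  obtain ⟨n, hn⟩ : ∃ n : ℕ → ℤ, n = fun i => m i - m 0 := ⟨_, rfl⟩
  have hni : ∀ i, n i = m i - m 0 := fun i => by rw [hn]
  -- the values do not change
  have hval : ∀ j ∈ Finset.Ico 1 ℓ, ∑ i ∈ Finset.range ℓ, (m i : ℂ) * ζ ^ (i * j) =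
      ∑ i ∈ Finset.range ℓ, (n i : ℂ) * ζ ^ (i * j) := by
    intro j hj
    rw [Finset.mem_Ico] at hj
    have h3 : ∑ i ∈ Finset.range ℓ, ζ ^ (i * j) = 0 := by
      have e : ∀ i ∈ Finset.range ℓ, ζ ^ (i * j) = (ζ ^ j) ^ i := by
        intro i _
        rw [← pow_mul, mul_comm]
      rw [Finset.sum_congr rfl e]
      apply geom_zero
      · exact hζ.pow_ne_one_of_pos_of_lt (by omega) hj.2
      · rw [← pow_mul, mul_comm, pow_mul, hζ.pow_eq_one, one_pow]
    have h4 : ∑ i ∈ Finset.range ℓ, (n i : ℂ) * ζ ^ (i * j) =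
        ∑ i ∈ Finset.range ℓ, (m i : ℂ) * ζ ^ (i * j) -
          (m 0 : ℂ) * ∑ i ∈ Finset.range ℓ, ζ ^ (i * j) := by
      rw [Finset.mul_sum, ← Finset.sum_sub_distrib]
      refine Finset.sum_congr rfl fun i _ => ?_
      rw [hni]
      push_cast
      ring
    rw [h4, h3, mul_zero, sub_zero]
  -- the support
  obtain ⟨T, hT⟩ : ∃ T : Finset ℕ, T = (Finset.range ℓ).filter (fun i => n i ≠ 0) := ⟨_, rfl⟩
  have hTm : ∀ i, i ∈ T ↔ i < ℓ ∧ n i ≠ 0 := by
    intro i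
    rw [hT, Finset.mem_filter, Finset.mem_range]
  have hT1 : 1 ≤ T.card := by
    rw [Nat.one_le_iff_ne_zero, Finset.card_ne_zero]
    by_contra hcon
    rw [Finset.not_nonempty_iff_eq_empty] at hcon
    apply hm
    have h3 := hval 1 (Finset.mem_Ico.2 ⟨le_rfl, by omega⟩)
    simp only [mul_one] at h3
    rw [h3]
    refine Finset.sum_eq_zero fun i hi => ?_
    have h4 : n i = 0 := by
      by_contra h5
      have : i ∈ T := (hTm i).2 ⟨Finset.mem_range.1 hi, h5⟩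
      rw [hcon] at this
      exact absurd this (Finset.notMem_empty i)
    rw [h4]
    simp
  have hT2 : T.card ≤ ℓ - 1 := by
    have h3 : T ⊆ (Finset.range ℓ).erase 0 := by
      intro i hi
      have h4 := (hTm i).1 hi
      rw [Finset.mem_erase, Finset.mem_range]
      refine ⟨?_, h4.1⟩
      intro h5
      apply h4.2
      rw [h5, hni, sub_self]
    have h4 := Finset.card_le_card h3
    rwa [Finset.card_erase_of_mem (Finset.mem_range.2 hl), Finset.card_range] at h4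
  have hsum1 : ∑ i ∈ Finset.range ℓ, (n i : ℝ) = ∑ i ∈ T, (n i : ℝ) := by
    rw [hT, Finset.sum_filter]
    refine Finset.sum_congr rfl fun i _ => ?_
    by_cases h : n i ≠ 0
    · rw [if_pos h]
    · rw [if_neg h, not_not.1 h, Int.cast_zero]
  have hsum2 : ∑ i ∈ Finset.range ℓ, (n i : ℝ) ^ 2 = ∑ i ∈ T, (n i : ℝ) ^ 2 := by
    rw [hT, Finset.sum_filter]
    refine Finset.sum_congr rfl fun i _ => ?_
    by_cases h : n i ≠ 0
    · rw [if_pos h]
    · rw [if_neg h, not_not.1 h, Int.cast_zero]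
      norm_num
  have hcs : (∑ i ∈ T, (n i : ℝ)) ^ 2 ≤ (T.card : ℝ) * ∑ i ∈ T, (n i : ℝ) ^ 2 :=
    sq_sum_le_card_mul_sum_sq
  have hge : (T.card : ℝ) ≤ ∑ i ∈ T, (n i : ℝ) ^ 2 := by
    have h3 : ∀ i ∈ T, (1 : ℝ) ≤ (n i : ℝ) ^ 2 := by
      intro i hi
      have h4 : 1 ≤ |n i| := Int.one_le_abs ((hTm i).1 hi).2
      have h5 : (1 : ℝ) ≤ |(n i : ℝ)| := by exact_mod_cast h4
      rw [← sq_abs]
      nlinarith
    calc (T.card : ℝ) = ∑ _i ∈ T, (1 : ℝ) := by simp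
      _ ≤ _ := Finset.sum_le_sum h3
  -- Parseval
  have hP := parseval hl hζ n
  have hsplit : ∑ j ∈ Finset.range ℓ,
      Complex.normSq (∑ i ∈ Finset.range ℓ, (n i : ℂ) * ζ ^ (i * j)) =
      Complex.normSq (∑ i ∈ Finset.range ℓ, (n i : ℂ) * ζ ^ (i * 0)) +
      ∑ j ∈ Finset.Ico 1 ℓ,
        Complex.normSq (∑ i ∈ Finset.range ℓ, (n i : ℂ) * ζ ^ (i * j)) := by
    rw [Finset.range_eq_Ico, Finset.sum_eq_sum_Ico_succ_bot hl]
  have h0 : Complex.normSq (∑ i ∈ Finset.range ℓ, (n i : ℂ) * ζ ^ (i * 0)) =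
      (∑ i ∈ T, (n i : ℝ)) ^ 2 := by
    have e : ∑ i ∈ Finset.range ℓ, (n i : ℂ) * ζ ^ (i * 0) =
        ((∑ i ∈ Finset.range ℓ, (n i : ℝ) : ℝ) : ℂ) := by
      rw [Complex.ofReal_sum]
      refine Finset.sum_congr rfl fun i _ => ?_
      rw [mul_zero, pow_zero, mul_one]
      push_cast
      rfl
    rw [e, Complex.normSq_ofReal, hsum1]
    ring
  have hgoal : ∑ j ∈ Finset.Ico 1 ℓ,
      Complex.normSq (∑ i ∈ Finset.range ℓ, (m i : ℂ) * ζ ^ (i * j)) =
      ∑ j ∈ Finset.Ico 1 ℓ,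
        Complex.normSq (∑ i ∈ Finset.range ℓ, (n i : ℂ) * ζ ^ (i * j)) :=
    Finset.sum_congr rfl fun j hj => by rw [hval j hj]
  rw [hgoal]
  rw [hsplit, h0, hsum2] at hP
  have hb1 : (1 : ℝ) ≤ T.card := by exact_mod_cast hT1
  have hb2 : (T.card : ℝ) ≤ ℓ - 1 := by
    have : T.card + 1 ≤ ℓ := by omega
    have h3 : ((T.card + 1 : ℕ) : ℝ) ≤ ℓ := by exact_mod_cast this
    push_cast at h3
    linarith
  obtain ⟨Q, hQ⟩ : ∃ Q : ℝ, Q = ∑ i ∈ T, (n i : ℝ) ^ 2 := ⟨_, rfl⟩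
  rw [← hQ] at hP hge hcs
  have h5 : ((ℓ : ℝ) - T.card) * T.card ≤ ((ℓ : ℝ) - T.card) * Q :=
    mul_le_mul_of_nonneg_left hge (by linarith)
  nlinarith

end Pool.Agent.PP.K9.H65g
end
end -- Pool.Agent.Helper65_K9.GAL

section -- Pool.Agent.Helper56_AT3.GLP

/-!
# Squad AT3, row GLP: the conjugates of an element of `ℤ[ζ]`, `ζ` of order `ℓ ^ a`
-/

set_option autoImplicit false

open scoped BigOperators

noncomputable section

namespace Pool.Agent.PP.T3.H56

open Pool.Agent.PP.K9.H65g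

theorem sum_shift {M : Type} [AddCommMonoid M] (f : ℕ → M) (N : ℕ) : ∀ l : ℕ,
    ∑ i ∈ Finset.range (N * l), f i =
      ∑ r ∈ Finset.range N, ∑ t ∈ Finset.range l, f (r + N * t) := by
  intro l
  induction l with
  | zero => simp
  | succ l ih =>
    rw [Nat.mul_succ, Finset.sum_range_add, ih]
    simp only [Finset.sum_range_succ]
    rw [Finset.sum_add_distrib]
    congr 1
    exact Finset.sum_congr rfl fun r _ => by rw [add_comm]

/-- the discriminant form -/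
def Dd (l : ℕ) (f : ℕ → ℤ) : ℤ :=
  l * ∑ t ∈ Finset.range l, f t ^ 2 - (∑ t ∈ Finset.range l, f t) ^ 2

theorem Dd_const {l : ℕ} {f : ℕ → ℤ} {c : ℤ} (h : ∀ t, t < l → f t = c) : Dd l f = 0 := by
  unfold Dd
  rw [Finset.sum_congr rfl (g := fun _ => c ^ 2) (fun t ht => by rw [h t (Finset.mem_range.1 ht)]),
    Finset.sum_congr rfl (g := fun _ => c) (fun t ht => h t (Finset.mem_range.1 ht)),
    Finset.sum_const, Finset.sum_const, Finset.card_range, nsmul_eq_mul, nsmul_eq_mul]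
  ring

theorem Dd_shift (l : ℕ) (f : ℕ → ℤ) (c : ℤ) : Dd l f = Dd l (fun t => f t - c) := by
  unfold Dd
  have e1 : ∀ t, (f t - c) ^ 2 = f t ^ 2 - 2 * c * f t + c ^ 2 := fun t => by ring
  simp only [e1]
  rw [Finset.sum_add_distrib, Finset.sum_sub_distrib, Finset.sum_sub_distrib, ← Finset.mul_sum,
    Finset.sum_const, Finset.sum_const, Finset.card_range, nsmul_eq_mul, nsmul_eq_mul]
  ring

theorem arith {l : ℕ} (hl : 2 ≤ l) (f : ℕ → ℤ) : (∃ c, ∀ t, t < l → f t = c) ∨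
    ((l : ℤ) - 1 ≤ Dd l f ∧ (Dd l f = (l : ℤ) - 1 → ∃ t₀, t₀ < l ∧ ∃ c ε : ℤ, ε ^ 2 = 1 ∧
      ∀ t, t < l → f t = c + if t = t₀ then ε else 0)) := by
  obtain ⟨n, hn⟩ : ∃ n : ℕ → ℤ, n = fun i => f i - f 0 := ⟨_, rfl⟩
  have hni : ∀ i, n i = f i - f 0 := fun i => by rw [hn]
  have hD : Dd l f = Dd l n := by rw [hn]; exact Dd_shift l f (f 0)
  obtain ⟨T, hT⟩ : ∃ T : Finset ℕ, T = (Finset.range l).filter (fun i => n i ≠ 0) := ⟨_, rfl⟩
  have hTm : ∀ i, i ∈ T ↔ i < l ∧ n i ≠ 0 := by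
    intro i
    rw [hT, Finset.mem_filter, Finset.mem_range]
  have hTsub : T ⊆ (Finset.range l).erase 0 := by
    intro i hi
    have h4 := (hTm i).1 hi
    rw [Finset.mem_erase, Finset.mem_range]
    refine ⟨?_, h4.1⟩
    intro h5
    apply h4.2
    rw [h5, hni, sub_self]
  have hecard : ((Finset.range l).erase 0).card = l - 1 := by
    rw [Finset.card_erase_of_mem (Finset.mem_range.2 (by omega)), Finset.card_range]
  by_cases hT0 : T = ∅
  · left
    refine ⟨f 0, ?_⟩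
    intro t ht
    by_contra h
    have : t ∈ T := (hTm t).2 ⟨ht, by rw [hni]; exact sub_ne_zero.2 h⟩
    rw [hT0] at this
    exact absurd this (Finset.notMem_empty t)
  · right
    have hT1 : 1 ≤ T.card := Finset.card_pos.2 (Finset.nonempty_iff_ne_empty.2 hT0)
    have hT2 : T.card ≤ l - 1 := by
      have h4 := Finset.card_le_card hTsub
      rwa [hecard] at h4
    have hsum1 : ∑ i ∈ Finset.range l, n i = ∑ i ∈ T, n i := by
      rw [hT, Finset.sum_filter]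
      refine Finset.sum_congr rfl fun i _ => ?_
      by_cases h : n i ≠ 0
      · rw [if_pos h]
      · rw [if_neg h, not_not.1 h]
    have hsum2 : ∑ i ∈ Finset.range l, n i ^ 2 = ∑ i ∈ T, n i ^ 2 := by
      rw [hT, Finset.sum_filter]
      refine Finset.sum_congr rfl fun i _ => ?_
      by_cases h : n i ≠ 0
      · rw [if_pos h]
      · rw [if_neg h, not_not.1 h]
        norm_num
    have hcs : (∑ i ∈ T, n i) ^ 2 ≤ (T.card : ℤ) * ∑ i ∈ T, n i ^ 2 := sq_sum_le_card_mul_sum_sq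
    have h1T : ∀ i ∈ T, 1 ≤ n i ^ 2 := by
      intro i hi
      have h4 : 1 ≤ |n i| := Int.one_le_abs ((hTm i).1 hi).2
      rw [← sq_abs]
      nlinarith
    have hge : (T.card : ℤ) ≤ ∑ i ∈ T, n i ^ 2 := by
      calc (T.card : ℤ) = ∑ _i ∈ T, (1 : ℤ) := by simp
        _ ≤ _ := Finset.sum_le_sum h1T
    rw [hD]
    unfold Dd
    rw [hsum1, hsum2]
    obtain ⟨k, hk⟩ : ∃ k : ℤ, k = (T.card : ℤ) := ⟨_, rfl⟩
    obtain ⟨Q, hQ⟩ : ∃ Q : ℤ, Q = ∑ i ∈ T, n i ^ 2 := ⟨_, rfl⟩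
    obtain ⟨S, hS⟩ : ∃ S : ℤ, S = ∑ i ∈ T, n i := ⟨_, rfl⟩
    rw [← hk, ← hQ] at hcs hge
    rw [← hS] at hcs
    rw [← hQ, ← hS]
    have hk1 : 1 ≤ k := by rw [hk]; exact_mod_cast hT1
    have hk2 : k ≤ (l : ℤ) - 1 := by
      rw [hk]
      have : T.card + 1 ≤ l := by omega
      have h3 : ((T.card + 1 : ℕ) : ℤ) ≤ l := by exact_mod_cast this
      push_cast at h3
      linarith
    have h5 : ((l : ℤ) - k) * k ≤ ((l : ℤ) - k) * Q := mul_le_mul_of_nonneg_left hge (by linarith)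
    have h6 : 0 ≤ (k - 1) * ((l : ℤ) - 1 - k) := mul_nonneg (by linarith) (by linarith)
    refine ⟨by nlinarith, ?_⟩
    intro heq
    have e1 : (k - 1) * ((l : ℤ) - 1 - k) = 0 := by nlinarith
    have e2 : ((l : ℤ) - k) * (Q - k) = 0 := by nlinarith
    have e3 : Q = k := by
      rcases mul_eq_zero.1 e2 with h | h
      · exfalso
        linarith
      · linarith
    have e4 : S ^ 2 = k ^ 2 := by
      have : S ^ 2 = k * Q := by nlinarith
      rw [this, e3]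
      ring
    -- all values are `±1`
    have h7 : ∀ i ∈ T, n i ^ 2 = 1 := by
      have h8 : ∑ i ∈ T, (n i ^ 2 - 1) = 0 := by
        rw [Finset.sum_sub_distrib, ← hQ, Finset.sum_const, nsmul_eq_mul, mul_one, ← hk, e3]
        ring
      have h9 := (Finset.sum_eq_zero_iff_of_nonneg (fun i hi => by
        have := h1T i hi
        linarith)).1 h8
      intro i hi
      have := h9 i hi
      linarith
    have hval : ∃ ε : ℤ, ε ^ 2 = 1 ∧ ∀ i ∈ T, n i = ε := by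
      have hle : ∀ i ∈ T, n i ≤ 1 ∧ -1 ≤ n i := by
        intro i hi
        have := h7 i hi
        constructor <;> nlinarith
      rcases sq_eq_sq_iff_eq_or_eq_neg.1 e4 with h | h
      · refine ⟨1, by norm_num, ?_⟩
        have h8 : ∑ i ∈ T, (1 - n i) = 0 := by
          rw [Finset.sum_sub_distrib, ← hS, Finset.sum_const, nsmul_eq_mul, mul_one, ← hk, h]
          ring
        have h9 := (Finset.sum_eq_zero_iff_of_nonneg (fun i hi => by
          have := (hle i hi).1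
          linarith)).1 h8
        intro i hi
        have := h9 i hi
        linarith
      · refine ⟨-1, by norm_num, ?_⟩
        have h8 : ∑ i ∈ T, (1 + n i) = 0 := by
          rw [Finset.sum_add_distrib, ← hS, Finset.sum_const, nsmul_eq_mul, mul_one, ← hk, h]
          ring
        have h9 := (Finset.sum_eq_zero_iff_of_nonneg (fun i hi => by
          have := (hle i hi).2
          linarith)).1 h8
        intro i hi
        have := h9 i hi
        linarith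
    obtain ⟨ε, hε, hval⟩ := hval
    have hout : ∀ i, i < l → i ∉ T → f i = f 0 := by
      intro i hi hiT
      by_contra h
      exact hiT ((hTm i).2 ⟨hi, by rw [hni]; exact sub_ne_zero.2 h⟩)
    rcases mul_eq_zero.1 e1 with h | h
    · have hc1 : T.card = 1 := by
        have : (T.card : ℤ) = 1 := by rw [← hk]; linarith
        exact_mod_cast this
      obtain ⟨t₀, ht₀⟩ := Finset.card_eq_one.1 hc1
      have hm : t₀ ∈ T := by rw [ht₀]; exact Finset.mem_singleton_self _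
      refine ⟨t₀, ((hTm t₀).1 hm).1, f 0, ε, hε, ?_⟩
      intro t ht
      by_cases htt : t = t₀
      · rw [if_pos htt, htt]
        have := hval t₀ hm
        rw [hni] at this
        linarith
      · rw [if_neg htt, add_zero]
        apply hout t ht
        rw [ht₀, Finset.mem_singleton]
        exact htt
    · have hc1 : T.card = l - 1 := by
        have h3 : (T.card : ℤ) = (l : ℤ) - 1 := by rw [← hk]; linarith
        omega
      have hTe : T = (Finset.range l).erase 0 :=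
        Finset.eq_of_subset_of_card_le hTsub (by rw [hecard, hc1])
      refine ⟨0, by omega, f 0 + ε, -ε, by rw [neg_sq]; exact hε, ?_⟩
      intro t ht
      by_cases htt : t = 0
      · rw [if_pos htt, htt]
        ring
      · rw [if_neg htt, add_zero]
        have hm : t ∈ T := by
          rw [hTe, Finset.mem_erase, Finset.mem_range]
          exact ⟨htt, ht⟩
        have := hval t hm
        rw [hni] at this
        linarith

theorem Dd_nonneg {l : ℕ} (hl : 2 ≤ l) (f : ℕ → ℤ) : 0 ≤ Dd l f := by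
  rcases arith hl f with ⟨c, hc⟩ | ⟨h, _⟩
  · rw [Dd_const hc]
  · have : (2 : ℤ) ≤ l := by exact_mod_cast hl
    linarith

/-- the values of the element at the exponents prime to `ℓ` -/
theorem val_eq {l N : ℕ} (hN : 0 < N) (hl : 0 < l) {ζ : ℂ} (hζ : IsPrimitiveRoot ζ (N * l))
    (m : ℕ → ℤ) (c : ℕ → ℤ) {j : ℕ} (hj : ¬ l ∣ j) :
    ∑ i ∈ Finset.range (N * l), (m i : ℂ) * ζ ^ (i * j) =
      ∑ r ∈ Finset.range N, ζ ^ (r * j) *
        ∑ t ∈ Finset.range l, ((m (r + N * t) - c r : ℤ) : ℂ) * (ζ ^ (N * j)) ^ t := by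
  rw [sum_shift]
  apply Finset.sum_congr rfl
  intro r _
  have h0 : ∑ t ∈ Finset.range l, (ζ ^ (N * j)) ^ t = 0 := by
    apply geom_zero
    · intro h
      rw [hζ.pow_eq_one_iff_dvd] at h
      exact hj (Nat.dvd_of_mul_dvd_mul_left hN h)
    · rw [← pow_mul, show N * j * l = (N * l) * j by ring, pow_mul, hζ.pow_eq_one, one_pow]
  have h1 : ∑ t ∈ Finset.range l, ((m (r + N * t) - c r : ℤ) : ℂ) * (ζ ^ (N * j)) ^ t =
      ∑ t ∈ Finset.range l, (m (r + N * t) : ℂ) * (ζ ^ (N * j)) ^ t := by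
    have h2 : ∀ t, ((m (r + N * t) - c r : ℤ) : ℂ) * (ζ ^ (N * j)) ^ t =
        (m (r + N * t) : ℂ) * (ζ ^ (N * j)) ^ t - (c r : ℂ) * (ζ ^ (N * j)) ^ t := by
      intro t
      push_cast
      ring
    simp only [h2]
    rw [Finset.sum_sub_distrib, ← Finset.mul_sum, h0, mul_zero, sub_zero]
  rw [h1, Finset.mul_sum]
  apply Finset.sum_congr rfl
  intro t _
  have h3 : ζ ^ ((r + N * t) * j) = ζ ^ (r * j) * (ζ ^ (N * j)) ^ t := by
    rw [← pow_mul, ← pow_add]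
    congr 1
    ring
  rw [h3]
  ring

/-- the identity -/
theorem main_id {l N : ℕ} (hN : 0 < N) (hl : 0 < l) {ζ : ℂ} (hζ : IsPrimitiveRoot ζ (N * l))
    (m : ℕ → ℤ) :
    ∑ j ∈ (Finset.range (N * l)).filter (fun j => ¬ l ∣ j),
      Complex.normSq (∑ i ∈ Finset.range (N * l), (m i : ℂ) * ζ ^ (i * j)) =
      N * ((∑ r ∈ Finset.range N, Dd l (fun t => m (r + N * t)) : ℤ) : ℝ) := by
  have hp := parseval (Nat.mul_pos hN hl) hζ m
  have hη : IsPrimitiveRoot (ζ ^ l) N := hζ.pow (Nat.mul_pos hN hl) (by ring)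
  obtain ⟨Mr, hMr⟩ : ∃ Mr : ℕ → ℤ, Mr = fun r => ∑ t ∈ Finset.range l, m (r + N * t) := ⟨_, rfl⟩
  have hp2 := parseval hN hη Mr
  have hsplit := Finset.sum_filter_add_sum_filter_not (Finset.range (N * l)) (fun j => l ∣ j)
    (fun j => Complex.normSq (∑ i ∈ Finset.range (N * l), (m i : ℂ) * ζ ^ (i * j)))
  have hdiv : ∑ j ∈ (Finset.range (N * l)).filter (fun j => l ∣ j),
      Complex.normSq (∑ i ∈ Finset.range (N * l), (m i : ℂ) * ζ ^ (i * j)) =
      ∑ k ∈ Finset.range N,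
        Complex.normSq (∑ r ∈ Finset.range N, (Mr r : ℂ) * (ζ ^ l) ^ (r * k)) := by
    symm
    apply Finset.sum_nbij (fun k => l * k)
    · intro k hk
      rw [Finset.mem_filter, Finset.mem_range]
      rw [Finset.mem_range] at hk
      refine ⟨?_, Dvd.intro _ rfl⟩
      rw [Nat.mul_comm N l]
      exact Nat.mul_lt_mul_of_pos_left hk hl
    · intro k _ k' _ h
      exact Nat.eq_of_mul_eq_mul_left hl h
    · intro j hj
      rw [Finset.mem_coe, Finset.mem_filter, Finset.mem_range] at hj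
      obtain ⟨hj1, k, rfl⟩ := hj
      refine ⟨k, ?_, rfl⟩
      rw [Finset.mem_coe, Finset.mem_range]
      rw [Nat.mul_comm N l] at hj1
      exact Nat.lt_of_mul_lt_mul_left hj1
    · intro k _
      congr 1
      rw [sum_shift]
      apply Finset.sum_congr rfl
      intro r _
      rw [hMr]
      push_cast
      rw [Finset.sum_mul]
      apply Finset.sum_congr rfl
      intro t _
      congr 1
      rw [← pow_mul]
      have h3 : (r + N * t) * (l * k) = l * (r * k) + (N * l) * (t * k) := by ring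
      rw [h3, pow_add, pow_mul ζ (N * l), hζ.pow_eq_one, one_pow, mul_one]
  have hsq : ∑ i ∈ Finset.range (N * l), (m i : ℝ) ^ 2 =
      ∑ r ∈ Finset.range N, ∑ t ∈ Finset.range l, (m (r + N * t) : ℝ) ^ 2 := sum_shift _ N l
  have hfin : ((∑ r ∈ Finset.range N, Dd l (fun t => m (r + N * t)) : ℤ) : ℝ) =
      l * ∑ r ∈ Finset.range N, ∑ t ∈ Finset.range l, (m (r + N * t) : ℝ) ^ 2 -
        ∑ r ∈ Finset.range N, (Mr r : ℝ) ^ 2 := by
    unfold Dd
    rw [hMr]
    push_cast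
    rw [Finset.sum_sub_distrib, Finset.mul_sum]
  rw [hdiv, hp2, hp, hsq] at hsplit
  rw [hfin]
  push_cast at hsplit
  linarith

theorem glp : GlpStmt := by
  intro ℓ hfact a ha ζ hζ m hm
  have hp : ℓ.Prime := Fact.out
  have hl2 := hp.two_le
  have hl := hp.pos
  obtain ⟨N, hN⟩ : ∃ N : ℕ, N = ℓ ^ (a - 1) := ⟨_, rfl⟩
  have hN0 : 0 < N := by rw [hN]; exact Nat.pow_pos hl
  have hNl : ℓ ^ a = N * ℓ := by
    rw [hN, ← pow_succ]
    congr 1
    omega
  rw [hNl] at hζ hm ⊢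
  rw [← hN]
  rw [main_id hN0 hl hζ m]
  have hndiv1 : ¬ ℓ ∣ 1 := by
    intro h
    have := Nat.le_of_dvd one_pos h
    omega
  -- some class is not constant
  have hex : ∃ r ∈ Finset.range N, ¬ ∃ c, ∀ t, t < ℓ → m (r + N * t) = c := by
    by_contra hcon
    push Not at hcon
    choose! c hc using hcon
    apply hm
    have h1 := val_eq hN0 hl hζ m c hndiv1
    simp only [mul_one] at h1
    rw [h1]
    apply Finset.sum_eq_zero
    intro r hr
    have h2 : ∑ t ∈ Finset.range ℓ, ((m (r + N * t) - c r : ℤ) : ℂ) * (ζ ^ N) ^ t = 0 := by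
      apply Finset.sum_eq_zero
      intro t ht
      rw [hc r hr t (Finset.mem_range.1 ht), sub_self]
      simp
    rw [h2, mul_zero]
  obtain ⟨r₀, hr₀, hnc⟩ := hex
  have har : ∀ r, (∃ c, ∀ t, t < ℓ → m (r + N * t) = c) ∨
    ((ℓ : ℤ) - 1 ≤ Dd ℓ (fun t => m (r + N * t)) ∧
      (Dd ℓ (fun t => m (r + N * t)) = (ℓ : ℤ) - 1 → ∃ t₀, t₀ < ℓ ∧ ∃ c ε : ℤ, ε ^ 2 = 1 ∧
      ∀ t, t < ℓ → m (r + N * t) = c + if t = t₀ then ε else 0)) :=
    fun r => arith hl2 (fun t => m (r + N * t))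
  have h0 : ∀ r, 0 ≤ Dd ℓ (fun t => m (r + N * t)) := fun r => Dd_nonneg hl2 _
  have hr1 : (ℓ : ℤ) - 1 ≤ Dd ℓ (fun t => m (r₀ + N * t)) := by
    rcases har r₀ with h | h
    · exact absurd h hnc
    · exact h.1
  have hsplit := Finset.add_sum_erase (Finset.range N)
    (fun r => Dd ℓ (fun t => m (r + N * t))) hr₀
  have hrest : 0 ≤ ∑ r ∈ (Finset.range N).erase r₀, Dd ℓ (fun t => m (r + N * t)) :=
    Finset.sum_nonneg fun r _ => h0 r
  have hcast : (((N * (ℓ - 1) : ℕ) : ℕ) : ℝ) = N * (((ℓ : ℤ) - 1 : ℤ) : ℝ) := by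
    push_cast [hp.one_le]
    ring
  have hNR : (0 : ℝ) < N := by exact_mod_cast hN0
  constructor
  · rw [hcast]
    apply mul_le_mul_of_nonneg_left _ hNR.le
    have : (ℓ : ℤ) - 1 ≤ ∑ r ∈ Finset.range N, Dd ℓ (fun t => m (r + N * t)) := by
      rw [← hsplit]
      linarith
    exact_mod_cast this
  · intro heq j hj
    rw [hcast] at heq
    have heq2 : ∑ r ∈ Finset.range N, Dd ℓ (fun t => m (r + N * t)) = (ℓ : ℤ) - 1 := by
      have := mul_left_cancel₀ hNR.ne' heq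
      exact_mod_cast this
    rw [← hsplit] at heq2
    have e1 : Dd ℓ (fun t => m (r₀ + N * t)) = (ℓ : ℤ) - 1 := by linarith
    have e2 : ∑ r ∈ (Finset.range N).erase r₀, Dd ℓ (fun t => m (r + N * t)) = 0 := by linarith
    have e3 := (Finset.sum_eq_zero_iff_of_nonneg (fun r _ => h0 r)).1 e2
    have hcon : ∀ r, r ∈ (Finset.range N).erase r₀ → ∃ c, ∀ t, t < ℓ → m (r + N * t) = c := by
      intro r hr
      rcases har r with h | h
      · exact h
      · exfalso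
        have h1 := e3 r hr
        have h2 := h.1
        have h3 : (2 : ℤ) ≤ ℓ := by exact_mod_cast hl2
        linarith
    obtain ⟨t₀, ht₀, c₀, ε, hε, hval⟩ : ∃ t₀, t₀ < ℓ ∧ ∃ c ε : ℤ, ε ^ 2 = 1 ∧
        ∀ t, t < ℓ → m (r₀ + N * t) = c + if t = t₀ then ε else 0 := by
      rcases har r₀ with h | h
      · exact absurd h hnc
      · exact h.2 e1
    choose! c hc using hcon
    have h1 := val_eq hN0 hl hζ m (fun r => if r = r₀ then c₀ else c r) hj
    rw [h1, ← Finset.add_sum_erase _ _ hr₀]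
    have h2 : ∑ r ∈ (Finset.range N).erase r₀, ζ ^ (r * j) *
        ∑ t ∈ Finset.range ℓ, ((m (r + N * t) - (if r = r₀ then c₀ else c r) : ℤ) : ℂ) *
          (ζ ^ (N * j)) ^ t = 0 := by
      apply Finset.sum_eq_zero
      intro r hr
      have h3 : ∑ t ∈ Finset.range ℓ, ((m (r + N * t) - (if r = r₀ then c₀ else c r) : ℤ) : ℂ) *
          (ζ ^ (N * j)) ^ t = 0 := by
        apply Finset.sum_eq_zero
        intro t ht
        rw [if_neg (Finset.ne_of_mem_erase hr), hc r hr t (Finset.mem_range.1 ht), sub_self]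
        simp
      rw [h3, mul_zero]
    rw [h2, add_zero]
    have h4 : ∑ t ∈ Finset.range ℓ, ((m (r₀ + N * t) - (if r₀ = r₀ then c₀ else c r₀) : ℤ) : ℂ) *
          (ζ ^ (N * j)) ^ t = (ε : ℂ) * (ζ ^ (N * j)) ^ t₀ := by
      rw [Finset.sum_eq_single t₀]
      · rw [if_pos rfl, hval t₀ ht₀, if_pos rfl, add_sub_cancel_left]
      · intro t ht htt
        rw [if_pos rfl, hval t (Finset.mem_range.1 ht), if_neg htt, add_zero, sub_self]
        simp
      · intro h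
        exact absurd (Finset.mem_range.2 ht₀) h
    rw [h4]
    have hnorm : Complex.normSq ζ = 1 := by
      rw [Complex.normSq_eq_norm_sq, hζ.norm'_eq_one (Nat.mul_pos hN0 hl).ne']
      norm_num
    rw [map_mul, map_mul, map_pow, map_pow, map_pow, hnorm, one_pow, one_pow, one_pow, one_mul,
      mul_one]
    have h5 : Complex.normSq (ε : ℂ) = ((ε ^ 2 : ℤ) : ℝ) := by
      rw [← Complex.ofReal_intCast, Complex.normSq_ofReal]
      push_cast
      ring
    rw [h5, hε]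
    norm_num

end Pool.Agent.PP.T3.H56
end
end -- Pool.Agent.Helper56_AT3.GLP

section -- Pool.Agent.Helper92_AT5.GL5a

/-!
# Squad AT5, row GL5, part 1: the sum over the conjugates, for vector-valued coefficients
-/

set_option autoImplicit false

open scoped BigOperators

noncomputable section

namespace Pool.Agent.PP.T5.H92

open Pool.Agent.PP.K9.H65g Pool.Agent.PP.T3.H56

/-- Parseval. -/
theorem pars {ζ : ℂ} {l : ℕ} (hl : 0 < l) (hζ : IsPrimitiveRoot ζ l) (n : ℕ → ℂ) :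
    ∑ j ∈ Finset.range l, Complex.normSq (∑ i ∈ Finset.range l, n i * ζ ^ (i * j)) =
      l * ∑ i ∈ Finset.range l, Complex.normSq (n i) := by
  have hcj := conj_root hl hζ
  have key : ∀ i ∈ Finset.range l, ∀ i' ∈ Finset.range l,
      ∑ j ∈ Finset.range l, ζ ^ (i * j) * (starRingEnd ℂ ζ) ^ (i' * j) =
        if i' = i then (l : ℂ) else 0 := by
    intro i hi i' hi'
    have e : ∀ j ∈ Finset.range l, ζ ^ (i * j) * (starRingEnd ℂ ζ) ^ (i' * j) =
        (ζ ^ i * (starRingEnd ℂ ζ) ^ i') ^ j := by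
      intro j _
      rw [mul_pow, ← pow_mul, ← pow_mul]
    rw [Finset.sum_congr rfl e]
    by_cases h : i' = i
    · rw [if_pos h, h, ← mul_pow, hcj, one_pow]
      simp
    · rw [if_neg h]
      apply geom_zero
      · intro h1
        apply h
        have h2 : ζ ^ i = ζ ^ i' := by
          calc ζ ^ i = ζ ^ i * (starRingEnd ℂ ζ) ^ i' * ζ ^ i' := by
                rw [mul_assoc, ← mul_pow, mul_comm (starRingEnd ℂ ζ) ζ, hcj, one_pow, mul_one]
            _ = ζ ^ i' := by rw [h1, one_mul]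
        exact (hζ.pow_inj (Finset.mem_range.1 hi) (Finset.mem_range.1 hi') h2).symm
      · have h3 : (starRingEnd ℂ ζ) ^ l = 1 := by
          rw [← map_pow, hζ.pow_eq_one, map_one]
        rw [mul_pow, ← pow_mul, ← pow_mul, mul_comm i, mul_comm i', pow_mul, pow_mul,
          hζ.pow_eq_one, h3, one_pow, one_pow, one_mul]
  have hC : ((∑ j ∈ Finset.range l, Complex.normSq (∑ i ∈ Finset.range l,
      n i * ζ ^ (i * j)) : ℝ) : ℂ) =
      ((l * ∑ i ∈ Finset.range l, Complex.normSq (n i) : ℝ) : ℂ) := by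
    rw [Complex.ofReal_sum]
    have e1 : ∀ j ∈ Finset.range l, ((Complex.normSq (∑ i ∈ Finset.range l,
        n i * ζ ^ (i * j)) : ℝ) : ℂ) = ∑ i ∈ Finset.range l, ∑ i' ∈ Finset.range l,
          n i * starRingEnd ℂ (n i') * (ζ ^ (i * j) * (starRingEnd ℂ ζ) ^ (i' * j)) := by
      intro j _
      rw [← Complex.mul_conj, map_sum, Finset.sum_mul_sum]
      refine Finset.sum_congr rfl fun i _ => Finset.sum_congr rfl fun i' _ => ?_
      rw [map_mul, map_pow]
      ring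
    rw [Finset.sum_congr rfl e1, Finset.sum_comm]
    have e2 : ∀ i ∈ Finset.range l, ∑ j ∈ Finset.range l, ∑ i' ∈ Finset.range l,
        n i * starRingEnd ℂ (n i') * (ζ ^ (i * j) * (starRingEnd ℂ ζ) ^ (i' * j)) =
        (l : ℂ) * ((Complex.normSq (n i) : ℝ) : ℂ) := by
      intro i hi
      rw [Finset.sum_comm]
      have e3 : ∀ i' ∈ Finset.range l, ∑ j ∈ Finset.range l,
          n i * starRingEnd ℂ (n i') * (ζ ^ (i * j) * (starRingEnd ℂ ζ) ^ (i' * j)) =
          if i' = i then (l : ℂ) * ((Complex.normSq (n i) : ℝ) : ℂ) else 0 := by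
        intro i' hi'
        rw [← Finset.mul_sum, key i hi i' hi']
        by_cases h : i' = i
        · rw [if_pos h, if_pos h, h, ← Complex.mul_conj]
          ring
        · rw [if_neg h, if_neg h, mul_zero]
      rw [Finset.sum_congr rfl e3, Finset.sum_ite_eq' (Finset.range l) i, if_pos hi]
    rw [Finset.sum_congr rfl e2, ← Finset.mul_sum]
    push_cast
    ring
  exact_mod_cast hC

/-- the values at the exponents prime to `ℓ` do not change if a function of the class is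
subtracted -/
theorem val_eqC {l N : ℕ} (hN : 0 < N) {ζ : ℂ} (hζ : IsPrimitiveRoot ζ (N * l))
    (m c : ℕ → ℂ) {j : ℕ} (hj : ¬ l ∣ j) :
    ∑ i ∈ Finset.range (N * l), m i * ζ ^ (i * j) =
      ∑ i ∈ Finset.range (N * l), (m i - c (i % N)) * ζ ^ (i * j) := by
  have h1 : ∑ i ∈ Finset.range (N * l), c (i % N) * ζ ^ (i * j) = 0 := by
    rw [sum_shift]
    apply Finset.sum_eq_zero
    intro r hr
    have h0 : ∑ t ∈ Finset.range l, (ζ ^ (N * j)) ^ t = 0 := by
      apply geom_zero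
      · intro h
        rw [hζ.pow_eq_one_iff_dvd] at h
        exact hj (Nat.dvd_of_mul_dvd_mul_left hN h)
      · rw [← pow_mul, show N * j * l = (N * l) * j by ring, pow_mul, hζ.pow_eq_one, one_pow]
    have h2 : ∀ t ∈ Finset.range l, c ((r + N * t) % N) * ζ ^ ((r + N * t) * j) =
        c r * ζ ^ (r * j) * (ζ ^ (N * j)) ^ t := by
      intro t _
      rw [Nat.add_mul_mod_self_left, Nat.mod_eq_of_lt (Finset.mem_range.1 hr), mul_assoc]
      congr 1
      rw [← pow_mul, ← pow_add]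
      congr 1
      ring
    rw [Finset.sum_congr rfl h2, ← Finset.mul_sum, h0, mul_zero]
  simp only [sub_mul]
  rw [Finset.sum_sub_distrib, h1, sub_zero]

/-- the identity -/
theorem main_idC {l N : ℕ} (hN : 0 < N) (hl : 0 < l) {ζ : ℂ} (hζ : IsPrimitiveRoot ζ (N * l))
    (m : ℕ → ℂ) :
    ∑ j ∈ (Finset.range (N * l)).filter (fun j => ¬ l ∣ j),
      Complex.normSq (∑ i ∈ Finset.range (N * l), m i * ζ ^ (i * j)) =
      N * ∑ r ∈ Finset.range N, (l * ∑ t ∈ Finset.range l, Complex.normSq (m (r + N * t)) -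
        Complex.normSq (∑ t ∈ Finset.range l, m (r + N * t))) := by
  have hp := pars (Nat.mul_pos hN hl) hζ m
  have hη : IsPrimitiveRoot (ζ ^ l) N := hζ.pow (Nat.mul_pos hN hl) (by ring)
  obtain ⟨Mr, hMr⟩ : ∃ Mr : ℕ → ℂ, Mr = fun r => ∑ t ∈ Finset.range l, m (r + N * t) := ⟨_, rfl⟩
  have hp2 := pars hN hη Mr
  have hsplit := Finset.sum_filter_add_sum_filter_not (Finset.range (N * l)) (fun j => l ∣ j)
    (fun j => Complex.normSq (∑ i ∈ Finset.range (N * l), m i * ζ ^ (i * j)))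
  have hdiv : ∑ j ∈ (Finset.range (N * l)).filter (fun j => l ∣ j),
      Complex.normSq (∑ i ∈ Finset.range (N * l), m i * ζ ^ (i * j)) =
      ∑ k ∈ Finset.range N,
        Complex.normSq (∑ r ∈ Finset.range N, Mr r * (ζ ^ l) ^ (r * k)) := by
    symm
    apply Finset.sum_nbij (fun k => l * k)
    · intro k hk
      rw [Finset.mem_filter, Finset.mem_range]
      rw [Finset.mem_range] at hk
      refine ⟨?_, Dvd.intro _ rfl⟩
      rw [Nat.mul_comm N l]
      exact Nat.mul_lt_mul_of_pos_left hk hl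
    · intro k _ k' _ h
      exact Nat.eq_of_mul_eq_mul_left hl h
    · intro j hj
      rw [Finset.mem_coe, Finset.mem_filter, Finset.mem_range] at hj
      obtain ⟨hj1, k, rfl⟩ := hj
      refine ⟨k, ?_, rfl⟩
      rw [Finset.mem_coe, Finset.mem_range]
      rw [Nat.mul_comm N l] at hj1
      exact Nat.lt_of_mul_lt_mul_left hj1
    · intro k _
      congr 1
      rw [sum_shift]
      apply Finset.sum_congr rfl
      intro r _
      rw [hMr]
      change (∑ t ∈ Finset.range l, m (r + N * t)) * (ζ ^ l) ^ (r * k) = _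
      rw [Finset.sum_mul]
      apply Finset.sum_congr rfl
      intro t _
      congr 1
      rw [← pow_mul]
      have h3 : (r + N * t) * (l * k) = l * (r * k) + (N * l) * (t * k) := by ring
      rw [h3, pow_add, pow_mul ζ (N * l), hζ.pow_eq_one, one_pow, mul_one]
  have hsq : ∑ i ∈ Finset.range (N * l), Complex.normSq (m i) =
      ∑ r ∈ Finset.range N, ∑ t ∈ Finset.range l, Complex.normSq (m (r + N * t)) :=
    sum_shift _ N l
  rw [hdiv, hp2, hp, hsq] at hsplit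
  rw [Finset.sum_sub_distrib, ← Finset.mul_sum, mul_sub]
  have e1 : ∑ r ∈ Finset.range N, Complex.normSq (Mr r) =
    ∑ r ∈ Finset.range N, Complex.normSq (∑ t ∈ Finset.range l, m (r + N * t)) := by rw [hMr]
  rw [← e1]
  push_cast at hsplit
  linarith

theorem normSq_sum_le {ι : Type} (T : Finset ι) (n : ι → ℂ) :
    Complex.normSq (∑ t ∈ T, n t) ≤ (T.card : ℝ) * ∑ t ∈ T, Complex.normSq (n t) := by
  have h1 : Complex.normSq (∑ t ∈ T, n t) ≤ (∑ t ∈ T, ‖n t‖) ^ 2 := by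
    rw [Complex.normSq_eq_norm_sq]
    exact pow_le_pow_left₀ (norm_nonneg _) (norm_sum_le _ _) 2
  refine h1.trans ?_
  have h2 : (∑ t ∈ T, ‖n t‖) ^ 2 ≤ (T.card : ℝ) * ∑ t ∈ T, ‖n t‖ ^ 2 := sq_sum_le_card_mul_sum_sq
  simp only [Complex.normSq_eq_norm_sq]
  exact h2

/-- the estimate -/
theorem core {l N : ℕ} (hN : 0 < N) (hl : 2 ≤ l) {ζ : ℂ} (hζ : IsPrimitiveRoot ζ (N * l))
    {ι : Type} (R : Finset ι) (ψ : ℕ → ι → ℂ) (κ : ℝ)
    (hint : ∀ i i', (∀ s ∈ R, ψ i s - ψ i' s = 0) ∨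
      1 ≤ κ * ∑ s ∈ R, Complex.normSq (ψ i s - ψ i' s)) (hκ : 0 ≤ κ)
    (hne : ∃ s ∈ R, ∑ i ∈ Finset.range (N * l), ψ i s * ζ ^ i ≠ 0) :
    ((N * (l - 1) : ℕ) : ℝ) ≤ κ * ∑ j ∈ (Finset.range (N * l)).filter (fun j => ¬ l ∣ j),
      ∑ s ∈ R, Complex.normSq (∑ i ∈ Finset.range (N * l), ψ i s * ζ ^ (i * j)) := by
  classical
  have hl0 : 0 < l := by omega
  -- the differences
  obtain ⟨n, hn⟩ : ∃ n : ℕ → ℕ → ι → ℂ, n = fun r t s => ψ (r + N * t) s - ψ r s := ⟨_, rfl⟩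
  have hni : ∀ r t s, n r t s = ψ (r + N * t) s - ψ r s := fun r t s => by rw [hn]
  obtain ⟨T, hT⟩ : ∃ T : ℕ → Finset ℕ, T = fun r => (Finset.range l).filter
    (fun t => ∃ s ∈ R, n r t s ≠ 0) := ⟨_, rfl⟩
  have hTm : ∀ r t, t ∈ T r ↔ t < l ∧ ∃ s ∈ R, n r t s ≠ 0 := by
    intro r t
    rw [hT, Finset.mem_filter, Finset.mem_range]
  have hT0 : ∀ r, (T r).card ≤ l - 1 := by
    intro r
    have h1 : T r ⊆ (Finset.range l).erase 0 := by
      intro t ht
      rw [hTm] at ht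
      rw [Finset.mem_erase, Finset.mem_range]
      refine ⟨?_, ht.1⟩
      rintro rfl
      obtain ⟨s, -, hs⟩ := ht.2
      apply hs
      rw [hni, mul_zero, add_zero, sub_self]
    have h2 := Finset.card_le_card h1
    rwa [Finset.card_erase_of_mem (Finset.mem_range.2 hl0), Finset.card_range] at h2
  -- the identity for one `s`
  have hs : ∀ s, ∑ j ∈ (Finset.range (N * l)).filter (fun j => ¬ l ∣ j),
      Complex.normSq (∑ i ∈ Finset.range (N * l), ψ i s * ζ ^ (i * j)) =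
      N * ∑ r ∈ Finset.range N, (l * ∑ t ∈ Finset.range l, Complex.normSq (n r t s) -
        Complex.normSq (∑ t ∈ Finset.range l, n r t s)) := by
    intro s
    have h1 : ∑ j ∈ (Finset.range (N * l)).filter (fun j => ¬ l ∣ j),
        Complex.normSq (∑ i ∈ Finset.range (N * l), ψ i s * ζ ^ (i * j)) =
        ∑ j ∈ (Finset.range (N * l)).filter (fun j => ¬ l ∣ j),
        Complex.normSq (∑ i ∈ Finset.range (N * l), (ψ i s - ψ (i % N) s) * ζ ^ (i * j)) := by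
      refine Finset.sum_congr rfl fun j hj => ?_
      rw [val_eqC hN hζ (fun i => ψ i s) (fun i => ψ i s) (Finset.mem_filter.1 hj).2]
    rw [h1, main_idC hN hl0 hζ (fun i => ψ i s - ψ (i % N) s)]
    congr 1
    refine Finset.sum_congr rfl fun r hr => ?_
    have h2 : ∀ t, ψ (r + N * t) s - ψ ((r + N * t) % N) s = n r t s := by
      intro t
      rw [Nat.add_mul_mod_self_left, Nat.mod_eq_of_lt (Finset.mem_range.1 hr), hni]
    simp only [h2]
  -- one class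
  have hcl : ∀ r, (((l - (T r).card : ℕ) : ℝ)) * (T r).card ≤
      κ * ∑ s ∈ R, (l * ∑ t ∈ Finset.range l, Complex.normSq (n r t s) -
        Complex.normSq (∑ t ∈ Finset.range l, n r t s)) := by
    intro r
    have hz : ∀ t ∈ Finset.range l, t ∉ T r → ∀ s ∈ R, n r t s = 0 := by
      intro t ht htT s hs
      by_contra h
      exact htT ((hTm r t).2 ⟨Finset.mem_range.1 ht, s, hs, h⟩)
    have hsub : T r ⊆ Finset.range l := fun t ht => Finset.mem_range.2 ((hTm r t).1 ht).1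
    have h1 : ∀ s ∈ R, ((l - (T r).card : ℕ) : ℝ) * ∑ t ∈ T r, Complex.normSq (n r t s) ≤
        l * ∑ t ∈ Finset.range l, Complex.normSq (n r t s) -
        Complex.normSq (∑ t ∈ Finset.range l, n r t s) := by
      intro s hs
      have h2 : ∑ t ∈ Finset.range l, n r t s = ∑ t ∈ T r, n r t s :=
        (Finset.sum_subset hsub (fun t ht htT => hz t ht htT s hs)).symm
      have h3 : ∑ t ∈ Finset.range l, Complex.normSq (n r t s) =
          ∑ t ∈ T r, Complex.normSq (n r t s) :=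
        (Finset.sum_subset hsub (fun t ht htT => by rw [hz t ht htT s hs, map_zero])).symm
      rw [h2, h3, Nat.cast_sub ((hT0 r).trans (Nat.sub_le _ _)), sub_mul]
      have h4 := normSq_sum_le (T r) (fun t => n r t s)
      linarith
    have h2 : κ * ∑ s ∈ R, ((l - (T r).card : ℕ) : ℝ) * ∑ t ∈ T r, Complex.normSq (n r t s) ≤
        κ * ∑ s ∈ R, (l * ∑ t ∈ Finset.range l, Complex.normSq (n r t s) -
        Complex.normSq (∑ t ∈ Finset.range l, n r t s)) :=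
      mul_le_mul_of_nonneg_left (Finset.sum_le_sum h1) hκ
    refine le_trans ?_ h2
    have h3 : κ * ∑ s ∈ R, ((l - (T r).card : ℕ) : ℝ) * ∑ t ∈ T r, Complex.normSq (n r t s) =
        ((l - (T r).card : ℕ) : ℝ) * ∑ t ∈ T r, (κ * ∑ s ∈ R, Complex.normSq (n r t s)) := by
      rw [← Finset.mul_sum, Finset.sum_comm, ← Finset.mul_sum]
      ring
    rw [h3]
    apply mul_le_mul_of_nonneg_left _ (Nat.cast_nonneg _)
    have h4 : ((T r).card : ℝ) = ∑ _t ∈ T r, (1 : ℝ) := by simp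
    rw [h4]
    refine Finset.sum_le_sum fun t ht => ?_
    obtain ⟨s, hs, hns⟩ := ((hTm r t).1 ht).2
    rcases hint (r + N * t) r with h | h
    · exfalso
      apply hns
      rw [hni]
      exact h s hs
    · simp only [hni]
      exact h
  -- a class with a nonzero difference
  obtain ⟨r₀, hr₀, hk₀⟩ : ∃ r ∈ Finset.range N, 0 < (T r).card := by
    by_contra hcon
    push Not at hcon
    obtain ⟨s, hs, hne⟩ := hne
    apply hne
    have hdiv : ¬ l ∣ 1 := by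
      intro h
      have := Nat.le_of_dvd one_pos h
      omega
    have h1 := val_eqC hN hζ (fun i => ψ i s) (fun i => ψ i s) hdiv
    simp only [mul_one] at h1
    rw [h1, sum_shift]
    apply Finset.sum_eq_zero
    intro r hr
    apply Finset.sum_eq_zero
    intro t ht
    rw [Nat.add_mul_mod_self_left, Nat.mod_eq_of_lt (Finset.mem_range.1 hr), ← hni]
    have h2 : n r t s = 0 := by
      by_contra h3
      have h4 : t ∈ T r := (hTm r t).2 ⟨Finset.mem_range.1 ht, s, hs, h3⟩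
      have h5 := Finset.card_pos.2 ⟨t, h4⟩
      have h6 := hcon r hr
      omega
    rw [h2, zero_mul]
  have hsum : κ * ∑ j ∈ (Finset.range (N * l)).filter (fun j => ¬ l ∣ j),
      ∑ s ∈ R, Complex.normSq (∑ i ∈ Finset.range (N * l), ψ i s * ζ ^ (i * j)) =
      N * ∑ r ∈ Finset.range N, (κ * ∑ s ∈ R, (l * ∑ t ∈ Finset.range l,
        Complex.normSq (n r t s) - Complex.normSq (∑ t ∈ Finset.range l, n r t s))) := by
    rw [Finset.sum_comm, Finset.sum_congr rfl (fun s _ => hs s), ← Finset.mul_sum,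
      ← Finset.mul_sum, Finset.sum_comm]
    ring
  rw [hsum, Nat.cast_mul]
  apply mul_le_mul_of_nonneg_left _ (Nat.cast_nonneg _)
  have hnn : ∀ r, (0 : ℝ) ≤ κ * ∑ s ∈ R, (l * ∑ t ∈ Finset.range l,
        Complex.normSq (n r t s) - Complex.normSq (∑ t ∈ Finset.range l, n r t s)) :=
    fun r => le_trans (mul_nonneg (Nat.cast_nonneg _) (Nat.cast_nonneg _)) (hcl r)
  refine le_trans ?_ (Finset.single_le_sum (fun r _ => hnn r) hr₀)
  refine le_trans ?_ (hcl r₀)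
  rw [← Nat.cast_mul]
  apply Nat.cast_le.2
  obtain ⟨k, hk⟩ : ∃ k, k = (T r₀).card := ⟨_, rfl⟩
  have hk1 := hT0 r₀
  rw [← hk] at hk1 hk₀ ⊢
  obtain ⟨d, rfl⟩ : ∃ d, l = k + 1 + d := ⟨l - (k + 1), by omega⟩
  obtain ⟨k', rfl⟩ : ∃ k', k = k' + 1 := ⟨k - 1, by omega⟩
  have e1 : k' + 1 + 1 + d - 1 = k' + 1 + d := by omega
  have e2 : k' + 1 + 1 + d - (k' + 1) = 1 + d := by omega
  rw [e1, e2]
  nlinarith

end Pool.Agent.PP.T5.H92
end
end -- Pool.Agent.Helper92_AT5.GL5a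

section -- Pool.Agent.Helper92_AT5.GL5

/-!
# Squad AT5, row GL5: the sum over the conjugates
-/

set_option autoImplicit false

open scoped BigOperators

noncomputable section

namespace Pool.Agent.PP.T5.H92

open Pool.Agent.Helper51_AWC Pool.Agent.Helper79_WRA Pool.Agent.PP Pool.Agent.PP.KF
open Pool.Agent.PP.K9 Pool.Agent.PP.K9.H97 Pool.Agent.PP.H75 Pool.Agent.PP.T3 Pool.Agent.PP.T2

attribute [local instance] Ideal.Quotient.field

/-- the convolution of the restriction of `χ` with an irreducible character -/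
theorem conv_irr {G : Type} [Group G] {C : Subgroup G} [Fintype C] {χ : G → ℂ} (hχ : χ ∈ Irr G)
    {θ : C → ℂ} (hθ : θ ∈ Irr C) (w : C) :
    θ 1 * ((Nat.card C : ℂ)⁻¹ * ∑ c : C, θ c⁻¹ * χ (w * c)) =
      ((Nat.card C : ℂ)⁻¹ * ∑ c : C, χ c * θ c⁻¹) * θ w := by
  have hcl : ∀ g h : C, (fun t : C => χ (t⁻¹ : C)) (h * g * h⁻¹) =
      (fun t : C => χ (t⁻¹ : C)) g := by
    intro g h
    obtain ⟨n, ρ, hρ, rfl⟩ := hχ
    change ρ.character ((h * g * h⁻¹)⁻¹ : C) = ρ.character (g⁻¹ : C)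
    have e : (((h * g * h⁻¹)⁻¹ : C) : G) = (h : G) * ((g⁻¹ : C) : G) * (h : G)⁻¹ := by
      rw [Subgroup.coe_inv, Subgroup.coe_mul, Subgroup.coe_mul, Subgroup.coe_inv,
        Subgroup.coe_inv]
      group
    rw [e]
    exact Representation.char_conj _ _ _
  have h1 := H94.eig_conv (A := fun t : C => χ (t⁻¹ : C)) hθ hcl w
  have h2 := H94.eig_conv (A := fun t : C => χ (t⁻¹ : C)) hθ hcl 1
  have e1 : ∑ t : C, (fun t : C => χ (t⁻¹ : C)) t * θ (t * w) = ∑ c : C, θ c⁻¹ * χ (w * c) := by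
    refine Fintype.sum_equiv ((Equiv.inv C).trans (Equiv.mulLeft w⁻¹)) _ _ fun t => ?_
    rw [Equiv.trans_apply, Equiv.inv_apply, Equiv.coe_mulLeft]
    have e2 : (w : G) * ((w⁻¹ * t⁻¹ : C) : G) = ((t⁻¹ : C) : G) := by
      rw [Subgroup.coe_mul, Subgroup.coe_inv, mul_inv_cancel_left]
    have e3 : (w⁻¹ * t⁻¹)⁻¹ = t * w := by group
    rw [e2, e3, mul_comm]
  have e2 : ∑ t : C, (fun t : C => χ (t⁻¹ : C)) t * θ (t * 1) = ∑ c : C, χ c * θ c⁻¹ := by
    refine Fintype.sum_equiv (Equiv.inv C) _ _ fun t => ?_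
    rw [Equiv.inv_apply, inv_inv, mul_one]
  rw [e1] at h1
  rw [e2] at h2
  rw [h1, h2]
  ring

/-- the sum over the regular elements of a subgroup -/
theorem finsum_reg {G : Type} [Group G] {C : Subgroup G} [Fintype C] {ℓ : ℕ}
    [DecidablePred (fun s : C => Reg ℓ s)] {A : Type} [AddCommMonoid A] (f : G → A) :
    ∑ᶠ (s : G) (_ : s ∈ C ∧ Reg ℓ s), f s =
      ∑ s ∈ Finset.univ.filter (fun s : C => Reg ℓ s), f s := by
  classical
  have h1 : ∀ s : C, Reg ℓ s ↔ Reg ℓ (s : G) := by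
    intro s
    unfold Reg
    rw [Subgroup.orderOf_coe]
  have h2 : ({s : G | s ∈ C ∧ Reg ℓ s} : Set G) =
      ((Finset.univ.filter (fun s : C => Reg ℓ s)).image (fun s : C => (s : G)) : Set G) := by
    ext s
    rw [Finset.coe_image, Finset.coe_filter, Set.mem_image]
    constructor
    · rintro ⟨hs, hr⟩
      exact ⟨⟨s, hs⟩, ⟨Finset.mem_univ _, (h1 _).2 hr⟩, rfl⟩
    · rintro ⟨t, ht, rfl⟩
      exact ⟨t.2, (h1 _).1 ht.2⟩
  have h3 : ∑ᶠ (s : G) (_ : s ∈ C ∧ Reg ℓ s), f s = ∑ᶠ s ∈ {s : G | s ∈ C ∧ Reg ℓ s}, f s := rfl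
  rw [h3, h2, finsum_mem_coe_finset, Finset.sum_image]
  intro a _ b _ h
  exact Subtype.ext h

theorem finsum_reg' {H : Type} [Fintype H] [Group H] {ℓ : ℕ}
    [DecidablePred (fun s : H => Reg ℓ s)] {A : Type} [AddCommMonoid A] (f : H → A) :
    ∑ᶠ (s : H) (_ : Reg ℓ s), f s = ∑ s ∈ Finset.univ.filter (fun s : H => Reg ℓ s), f s := by
  have h3 : ∑ᶠ (s : H) (_ : Reg ℓ s), f s = ∑ᶠ s ∈ {s : H | Reg ℓ s}, f s := rfl
  have h2 : ({s : H | Reg ℓ s} : Set H) =
      ((Finset.univ.filter (fun s : H => Reg ℓ s) : Finset H) : Set H) := by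
    ext s
    simp
  rw [h3, h2, finsum_mem_coe_finset]

/-- GL5 -/
theorem gl5 (inq : InqStmt) (nz5 : Nz5Stmt) (lbx : LbxStmt) : Gl5Stmt := by
  intro ℓ hfact M _ hM G _ _ e V u b hL a ha hou χ hχ
  classical
  have := Fintype.ofFinite G
  have := Fintype.ofFinite (Cu u)
  have hp : ℓ.Prime := Fact.out
  have hl2 := hp.two_le
  obtain ⟨b', hb'⟩ : ∃ b' : Cu u → FF M, b' = fun t : Cu u => b t := ⟨_, rfl⟩
  obtain ⟨htp, hVc⟩ := (lbx ℓ M hM G e V u hL.blk hL.tp hL.mem hL.cen).2 b hL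
  have hS : (IrrE M b').Finite := irr_finite'.subset (fun θ h => h.1)
  obtain ⟨uC, huC⟩ : ∃ uC : Cu u, (uC : G) = u :=
    ⟨⟨u, Subgroup.mem_centralizer_singleton_iff.2 rfl⟩, rfl⟩
  have hz : ∀ c : Cu u, uC * c = c * uC := by
    intro c
    apply Subtype.ext
    show (uC : G) * c = c * uC
    rw [huC]
    exact (Subgroup.mem_centralizer_singleton_iff.1 c.2).symm
  obtain ⟨N, hN⟩ : ∃ N : ℕ, N = ℓ ^ (a - 1) := ⟨_, rfl⟩
  have hN0 : 0 < N := by rw [hN]; exact Nat.pow_pos hp.pos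
  have hNl : ℓ ^ a = N * ℓ := by
    rw [hN, ← pow_succ]
    congr 1
    omega
  have hq0 : 0 < N * ℓ := Nat.mul_pos hN0 hp.pos
  have hzq : uC ^ (N * ℓ) = 1 := by
    apply Subtype.ext
    rw [Subgroup.coe_pow, huC, ← hNl, ← hou, pow_orderOf_eq_one, Subgroup.coe_one]
  have hζ := Complex.isPrimitiveRoot_exp (N * ℓ) hq0.ne'
  generalize Complex.exp (2 * Real.pi * Complex.I / ((N * ℓ : ℕ) : ℂ)) = ζ at hζ
  -- the exponents and the multiplicities
  have h1 : ∀ θ ∈ hS.toFinset, ∃ i : ℕ, i < N * ℓ ∧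
      ∀ (j : ℕ) (c : Cu u), θ (uC ^ j * c) = (ζ ^ i) ^ j * θ c := by
    intro θ hθ
    have hθ' : θ ∈ Irr (Cu u) := (hS.mem_toFinset.1 hθ).1
    obtain ⟨k, hk, hkj⟩ := T3.H63.cent_root hθ' hz hzq
    have : NeZero (N * ℓ) := ⟨hq0.ne'⟩
    obtain ⟨i, hi, rfl⟩ := hζ.eq_pow_of_pow_eq_one hk
    exact ⟨i, hi, hkj⟩
  have h2 : ∀ θ ∈ hS.toFinset, ∃ m : ℤ,
      (Nat.card (Cu u) : ℂ)⁻¹ * ∑ c : Cu u, χ c * θ c⁻¹ = m := by
    intro θ hθ
    exact KF.H30.mult_int (Cu u) hχ.1 (hS.mem_toFinset.1 hθ).1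
  choose! ix hix hix2 using h1
  choose! mu hmu using h2
  obtain ⟨ψ, hψ⟩ : ∃ ψ : ℕ → Cu u → ℂ, ψ = fun i s =>
    ∑ θ ∈ hS.toFinset, (((if ix θ = i then mu θ else 0) : ℤ) : ℂ) * θ s := ⟨_, rfl⟩
  -- the values
  have hgv : ∀ (j : ℕ) (s : Cu u), gv M (Cu u) (u ^ j * s) b χ =
      ∑ i ∈ Finset.range (N * ℓ), ψ i s * ζ ^ (i * j) := by
    intro j s
    have e1 : gv M (Cu u) (u ^ j * s) b χ = ∑ c : Cu u, eh M b' c * χ (u ^ j * s * c) := by
      rw [gv, gbv, finsum_eq_sum_of_fintype, hb']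
    have e2 : ∀ c : Cu u, eh M b' c =
        (Nat.card (Cu u) : ℂ)⁻¹ * ∑ θ ∈ hS.toFinset, θ 1 * θ c⁻¹ := by
      intro c
      rw [eh, finsum_mem_eq_finite_toFinset_sum _ hS]
    have e3 : gv M (Cu u) (u ^ j * s) b χ = ∑ θ ∈ hS.toFinset, θ 1 *
        ((Nat.card (Cu u) : ℂ)⁻¹ * ∑ c : Cu u, θ c⁻¹ * χ (((uC ^ j * s : Cu u) : G) * c)) := by
      rw [e1]
      simp only [e2]
      have e4 : ((uC ^ j * s : Cu u) : G) = u ^ j * s := by
        rw [Subgroup.coe_mul, Subgroup.coe_pow, huC]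
      rw [e4]
      simp_rw [Finset.mul_sum, Finset.sum_mul]
      rw [Finset.sum_comm]
      refine Finset.sum_congr rfl fun θ _ => Finset.sum_congr rfl fun c _ => ?_
      ring
    rw [e3]
    have e5 : ∀ θ ∈ hS.toFinset, θ 1 * ((Nat.card (Cu u) : ℂ)⁻¹ *
        ∑ c : Cu u, θ c⁻¹ * χ (((uC ^ j * s : Cu u) : G) * c)) =
        ∑ i ∈ Finset.range (N * ℓ),
          (((if ix θ = i then mu θ else 0) : ℤ) : ℂ) * θ s * ζ ^ (i * j) := by
      intro θ hθ
      rw [conv_irr hχ.1 (hS.mem_toFinset.1 hθ).1, hmu θ hθ, hix2 θ hθ,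
        Finset.sum_eq_single (ix θ)]
      · rw [if_pos rfl, pow_mul]
        ring
      · intro i _ hi
        rw [if_neg (Ne.symm hi), Int.cast_zero, zero_mul, zero_mul]
      · intro h
        exact absurd (Finset.mem_range.2 (hix θ hθ)) h
    rw [Finset.sum_congr rfl e5, Finset.sum_comm]
    refine Finset.sum_congr rfl fun i _ => ?_
    rw [hψ]
    change _ = (∑ θ ∈ hS.toFinset, (((if ix θ = i then mu θ else 0) : ℤ) : ℂ) * θ s) * _
    rw [Finset.sum_mul]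
  -- the form
  obtain ⟨κ, hκ⟩ : ∃ κ : ℝ, κ = (Nat.card V : ℝ) * (Nat.card (Cu u) : ℝ)⁻¹ := ⟨_, rfl⟩
  have hCpos : (0 : ℝ) < Nat.card (Cu u) := by exact_mod_cast Nat.card_pos
  have hVpos : (0 : ℝ) < Nat.card V := by exact_mod_cast Nat.card_pos
  have hκ0 : 0 < κ := by rw [hκ]; positivity
  obtain ⟨R, hR⟩ : ∃ R : Finset (Cu u), R = Finset.univ.filter (fun s : Cu u => Reg ℓ s) :=
    ⟨_, rfl⟩
  have hrip : ∀ θ ∈ hS.toFinset, ∀ θ' ∈ hS.toFinset, ∃ n : ℤ,
      (κ : ℂ) * ∑ s ∈ R, θ s * starRingEnd ℂ (θ' s) = n := by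
    intro θ hθ θ' hθ'
    obtain ⟨n, hn⟩ := inq ℓ M hM (Cu u) b' (by rw [hb']; exact hL.bx.blk) _
      (by rw [hb']; exact htp) θ (hS.mem_toFinset.1 hθ) θ' (hS.mem_toFinset.1 hθ')
    refine ⟨n, ?_⟩
    rw [← hn, hVc, rip, finsum_reg', ← hR, hκ]
    push_cast
    ring
  have hint0 : ∀ c : (Cu u → ℂ) → ℤ, ∃ n : ℤ,
      κ * ∑ s ∈ R, Complex.normSq (∑ θ ∈ hS.toFinset, (c θ : ℂ) * θ s) = n := by
    intro c
    choose! n hn using hrip
    refine ⟨∑ θ ∈ hS.toFinset, ∑ θ' ∈ hS.toFinset, c θ * c θ' * n θ θ', ?_⟩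
    have hC : ((κ * ∑ s ∈ R, Complex.normSq (∑ θ ∈ hS.toFinset, (c θ : ℂ) * θ s) : ℝ) : ℂ) =
        ((∑ θ ∈ hS.toFinset, ∑ θ' ∈ hS.toFinset, c θ * c θ' * n θ θ' : ℤ) : ℂ) := by
      push_cast
      have e1 : ∀ s ∈ R, ((Complex.normSq (∑ θ ∈ hS.toFinset, (c θ : ℂ) * θ s) : ℝ) : ℂ) =
          ∑ θ ∈ hS.toFinset, ∑ θ' ∈ hS.toFinset, (c θ : ℂ) * c θ' *
            (θ s * starRingEnd ℂ (θ' s)) := by
        intro s _
        rw [← Complex.mul_conj, map_sum, Finset.sum_mul_sum]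
        refine Finset.sum_congr rfl fun θ _ => Finset.sum_congr rfl fun θ' _ => ?_
        rw [map_mul, map_intCast]
        ring
      rw [Finset.sum_congr rfl e1, Finset.mul_sum]
      simp_rw [Finset.mul_sum]
      rw [Finset.sum_comm]
      refine Finset.sum_congr rfl fun θ hθ => ?_
      rw [Finset.sum_comm]
      refine Finset.sum_congr rfl fun θ' hθ' => ?_
      rw [← hn θ hθ θ' hθ', Finset.mul_sum, Finset.mul_sum]
      refine Finset.sum_congr rfl fun s _ => ?_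
      ring
    exact_mod_cast hC
  have hint : ∀ i i', (∀ s ∈ R, ψ i s - ψ i' s = 0) ∨
      1 ≤ κ * ∑ s ∈ R, Complex.normSq (ψ i s - ψ i' s) := by
    intro i i'
    by_cases h : ∀ s ∈ R, ψ i s - ψ i' s = 0
    · exact Or.inl h
    · right
      obtain ⟨n, hn⟩ := hint0 (fun θ => (if ix θ = i then mu θ else 0) -
        (if ix θ = i' then mu θ else 0))
      have e1 : ∀ s : Cu u, ∑ θ ∈ hS.toFinset, (((if ix θ = i then mu θ else 0) -
          (if ix θ = i' then mu θ else 0) : ℤ) : ℂ) * θ s = ψ i s - ψ i' s := by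
        intro s
        rw [hψ]
        change _ = (∑ θ ∈ hS.toFinset, (((if ix θ = i then mu θ else 0) : ℤ) : ℂ) * θ s) -
          ∑ θ ∈ hS.toFinset, (((if ix θ = i' then mu θ else 0) : ℤ) : ℂ) * θ s
        rw [← Finset.sum_sub_distrib]
        refine Finset.sum_congr rfl fun θ _ => ?_
        rw [Int.cast_sub, sub_mul]
      simp only [e1] at hn
      rw [hn]
      push Not at h
      obtain ⟨s, hs, hne⟩ := h
      have hpos : 0 < κ * ∑ s ∈ R, Complex.normSq (ψ i s - ψ i' s) := by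
        apply mul_pos hκ0
        exact Finset.sum_pos' (fun s _ => Complex.normSq_nonneg _)
          ⟨s, hs, Complex.normSq_pos.2 hne⟩
      rw [hn] at hpos
      have h3 : (0 : ℤ) < n := by exact_mod_cast hpos
      exact_mod_cast h3
  have hne : ∃ s ∈ R, ∑ i ∈ Finset.range (N * ℓ), ψ i s * ζ ^ i ≠ 0 := by
    refine ⟨1, ?_, ?_⟩
    · rw [hR, Finset.mem_filter]
      refine ⟨Finset.mem_univ _, ?_⟩
      unfold Reg
      rw [orderOf_one]
      exact Nat.coprime_one_left ℓ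
    · have e1 := hgv 1 1
      rw [pow_one, Subgroup.coe_one, mul_one] at e1
      simp only [mul_one] at e1
      rw [← e1]
      exact nz5 ℓ M hM G e V u b hL χ hχ
  have hmain := core hN0 hl2 hζ R ψ κ hint hκ0.le hne
  rw [← hN, hNl]
  refine hmain.trans (le_of_eq ?_)
  rw [Finset.mul_sum, Finset.mul_sum]
  refine Finset.sum_congr rfl fun j _ => ?_
  rw [nm, finsum_reg, ← hR, hκ]
  simp only [hgv]
  ring

end Pool.Agent.PP.T5.H92
end
end -- Pool.Agent.Helper92_AT5.GL5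

section -- Pool.Agent.Helper76_ATZ.ZIN

/-!
# Squad ATZ, row ZIN: the numbers `|V| (χ, ψ)_z` are integral and conjugate for the powers of `z`
-/

set_option autoImplicit false

open scoped BigOperators

noncomputable section

namespace Pool.Agent.PP.TB.H76

open Pool.Agent.Helper51_AWC Pool.Agent.Helper79_WRA Pool.Agent.PP Pool.Agent.PP.KF
open Pool.Agent.PP.K9 Pool.Agent.PP.K9.H97 Pool.Agent.PP.H75 Pool.Agent.PP.T3 Pool.Agent.PP.T2
open Pool.Agent.PP.T5

attribute [local instance] Ideal.Quotient.field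

/-- ZIN -/
theorem zin (zcp : ZcpStmt) (inq : InqStmt) (lbx : LbxStmt) : ZinStmt := by
  intro ℓ hfact M _ hM G _ _ e V Z γ b hZ z hz a ha hza ζ hζ χ hχ ψ hψ
  classical
  have := Fintype.ofFinite G
  have := Fintype.ofFinite (Cu z)
  have hp : ℓ.Prime := Fact.out
  have hzV : z ∈ V := hZ.le hz
  have hcz : ∀ v ∈ V, v * z = z * v := fun v hv => hZ.cen z hz v hv
  have hL : Lb ℓ e V z (b z) := (hZ.lb z hz).1
  obtain ⟨b', hb'⟩ : ∃ b' : Cu z → FF M, b' = fun t : Cu z => b z t := ⟨_, rfl⟩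
  obtain ⟨htp, hVc⟩ := (lbx ℓ M hM G e V z hZ.blk hZ.tp hzV hcz).2 (b z) hL
  have hS : (IrrE M b').Finite := irr_finite'.subset (fun θ h => h.1)
  obtain ⟨uC, huC⟩ : ∃ uC : Cu z, (uC : G) = z :=
    ⟨⟨z, Subgroup.mem_centralizer_singleton_iff.2 rfl⟩, rfl⟩
  have hcen : ∀ c : Cu z, uC * c = c * uC := by
    intro c
    apply Subtype.ext
    show (uC : G) * c = c * uC
    rw [huC]
    exact (Subgroup.mem_centralizer_singleton_iff.1 c.2).symm
  obtain ⟨q, hq⟩ : ∃ q : ℕ, q = ℓ ^ a := ⟨_, rfl⟩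
  rw [← hq] at hζ hza
  have hq0 : 0 < q := by rw [hq]; exact Nat.pow_pos hp.pos
  have hzq : uC ^ q = 1 := by
    apply Subtype.ext
    rw [Subgroup.coe_pow, huC, hza, Subgroup.coe_one]
  have hzero : NeZero q := ⟨hq0.ne'⟩
  -- the exponents and the multiplicities
  have h1 : ∀ θ ∈ hS.toFinset, ∃ i : ℕ, i < q ∧
      ∀ (j : ℕ) (c : Cu z), θ (uC ^ j * c) = (ζ ^ i) ^ j * θ c := by
    intro θ hθ
    have hθ' : θ ∈ Irr (Cu z) := (hS.mem_toFinset.1 hθ).1
    obtain ⟨k, hk, hkj⟩ := T3.H63.cent_root hθ' hcen hzq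
    obtain ⟨i, hi, rfl⟩ := hζ.eq_pow_of_pow_eq_one hk
    exact ⟨i, hi, hkj⟩
  have h2 : ∀ φ ∈ Irr G, ∀ θ ∈ hS.toFinset, ∃ m : ℤ,
      (Nat.card (Cu z) : ℂ)⁻¹ * ∑ c : Cu z, φ c * θ c⁻¹ = m := by
    intro φ hφ θ hθ
    exact KF.H30.mult_int (Cu z) hφ (hS.mem_toFinset.1 hθ).1
  choose! ix hix hix2 using h1
  choose! mu hmu using h2
  -- the values
  have hgv : ∀ φ ∈ Irr G, ∀ (j : ℕ) (s : Cu z), gv M (Cu z) (z ^ j * s) (b z) φ =
      ∑ θ ∈ hS.toFinset, (mu φ θ : ℂ) * (ζ ^ ix θ) ^ j * θ s := by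
    intro φ hφ j s
    have e1 : gv M (Cu z) (z ^ j * s) (b z) φ = ∑ c : Cu z, eh M b' c * φ (z ^ j * s * c) := by
      rw [gv, gbv, finsum_eq_sum_of_fintype, hb']
    have e2 : ∀ c : Cu z, eh M b' c =
        (Nat.card (Cu z) : ℂ)⁻¹ * ∑ θ ∈ hS.toFinset, θ 1 * θ c⁻¹ := by
      intro c
      rw [eh, finsum_mem_eq_finite_toFinset_sum _ hS]
    have e3 : gv M (Cu z) (z ^ j * s) (b z) φ = ∑ θ ∈ hS.toFinset, θ 1 *
        ((Nat.card (Cu z) : ℂ)⁻¹ * ∑ c : Cu z, θ c⁻¹ * φ (((uC ^ j * s : Cu z) : G) * c)) := by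
      rw [e1]
      simp only [e2]
      have e4 : ((uC ^ j * s : Cu z) : G) = z ^ j * s := by
        rw [Subgroup.coe_mul, Subgroup.coe_pow, huC]
      rw [e4]
      simp_rw [Finset.mul_sum, Finset.sum_mul]
      rw [Finset.sum_comm]
      refine Finset.sum_congr rfl fun θ _ => Finset.sum_congr rfl fun c _ => ?_
      ring
    rw [e3]
    refine Finset.sum_congr rfl fun θ hθ => ?_
    rw [H92.conv_irr hφ (hS.mem_toFinset.1 hθ).1, hmu φ hφ θ hθ, hix2 θ hθ]
    ring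
  -- the form
  obtain ⟨R, hR⟩ : ∃ R : Finset (Cu z), R = Finset.univ.filter (fun s : Cu z => Reg ℓ s) :=
    ⟨_, rfl⟩
  obtain ⟨κ, hκ⟩ : ∃ κ : ℂ, κ = (Nat.card V : ℂ) * (Nat.card (Cu z) : ℂ)⁻¹ := ⟨_, rfl⟩
  have hrip : ∀ θ ∈ hS.toFinset, ∀ θ' ∈ hS.toFinset, ∃ n : ℤ,
      κ * ∑ s ∈ R, θ s * starRingEnd ℂ (θ' s) = n := by
    intro θ hθ θ' hθ'
    obtain ⟨n, hn⟩ := inq ℓ M hM (Cu z) b' (by rw [hb']; exact hL.bx.blk) _
      (by rw [hb']; exact htp) θ (hS.mem_toFinset.1 hθ) θ' (hS.mem_toFinset.1 hθ')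
    refine ⟨n, ?_⟩
    rw [← hn, hVc, rip, H92.finsum_reg', ← hR, hκ]
    ring
  choose! n hn using hrip
  have hζc : starRingEnd ℂ ζ = ζ ^ (q - 1) := by
    have h1 : ζ ^ q = 1 := hζ.pow_eq_one
    have h3 : ‖ζ‖ = 1 := Complex.norm_eq_one_of_pow_eq_one h1 hq0.ne'
    have h4 : ζ * starRingEnd ℂ ζ = 1 := by
      rw [Complex.mul_conj, Complex.normSq_eq_norm_sq, h3]
      norm_num
    have h5 : ζ * ζ ^ (q - 1) = 1 := by
      rw [← pow_succ', Nat.sub_add_cancel hq0, h1]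
    have h6 : ζ ≠ 0 := hζ.ne_zero hq0.ne'
    exact mul_left_cancel₀ h6 (h4.trans h5.symm)
  refine ⟨fun i => ∑ θ ∈ hS.toFinset, ∑ θ' ∈ hS.toFinset,
    if (ix θ + (q - 1) * ix θ') % q = i then mu χ θ * mu ψ θ' * n θ θ' else 0, ?_⟩
  intro j hj
  obtain ⟨hc1, hc2, -⟩ := (zcp ℓ M hM G e V Z γ b hZ).2.1 z hz j hj
  rw [hc1, hc2, ← hq, mm, H92.finsum_reg, ← hR, ← mul_assoc, ← hκ]
  have e1 : κ * ∑ s ∈ R, gv M (Cu z) (z ^ j * s) (b z) χ *
      starRingEnd ℂ (gv M (Cu z) (z ^ j * s) (b z) ψ) =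
      ∑ θ ∈ hS.toFinset, ∑ θ' ∈ hS.toFinset, (mu χ θ : ℂ) * mu ψ θ' *
        ζ ^ (((ix θ + (q - 1) * ix θ') % q) * j) * n θ θ' := by
    have e2 : ∀ s ∈ R, gv M (Cu z) (z ^ j * s) (b z) χ *
        starRingEnd ℂ (gv M (Cu z) (z ^ j * s) (b z) ψ) =
        ∑ θ ∈ hS.toFinset, ∑ θ' ∈ hS.toFinset, (mu χ θ : ℂ) * mu ψ θ' *
          ζ ^ (((ix θ + (q - 1) * ix θ') % q) * j) * (θ s * starRingEnd ℂ (θ' s)) := by
      intro s _
      rw [hgv χ hχ, hgv ψ hψ, map_sum, Finset.sum_mul_sum]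
      refine Finset.sum_congr rfl fun θ _ => Finset.sum_congr rfl fun θ' _ => ?_
      rw [map_mul, map_mul, map_intCast, map_pow, map_pow, hζc]
      have e3 : ζ ^ (((ix θ + (q - 1) * ix θ') % q) * j) =
          (ζ ^ ix θ) ^ j * ((ζ ^ (q - 1)) ^ ix θ') ^ j := by
        rw [pow_mul, ← pow_mul ζ (q - 1), ← mul_pow, ← pow_add]
        congr 1
        exact (pow_eq_pow_mod _ hζ.pow_eq_one).symm
      rw [e3]
      ring
    rw [Finset.sum_congr rfl e2, Finset.mul_sum]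
    simp_rw [Finset.mul_sum]
    rw [Finset.sum_comm]
    refine Finset.sum_congr rfl fun θ hθ => ?_
    rw [Finset.sum_comm]
    refine Finset.sum_congr rfl fun θ' hθ' => ?_
    rw [← hn θ hθ θ' hθ', Finset.mul_sum, Finset.mul_sum]
    refine Finset.sum_congr rfl fun s _ => ?_
    ring
  rw [e1]
  have e4 : ∀ i ∈ Finset.range q, (((∑ θ ∈ hS.toFinset, ∑ θ' ∈ hS.toFinset,
      if (ix θ + (q - 1) * ix θ') % q = i then mu χ θ * mu ψ θ' * n θ θ' else 0 : ℤ)) : ℂ) *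
      ζ ^ (i * j) = ∑ θ ∈ hS.toFinset, ∑ θ' ∈ hS.toFinset,
        if (ix θ + (q - 1) * ix θ') % q = i then
          (mu χ θ : ℂ) * mu ψ θ' * n θ θ' * ζ ^ (i * j) else 0 := by
    intro i _
    push_cast
    rw [Finset.sum_mul]
    refine Finset.sum_congr rfl fun θ _ => ?_
    rw [Finset.sum_mul]
    refine Finset.sum_congr rfl fun θ' _ => ?_
    split_ifs
    · ring
    · rw [zero_mul]
  refine Eq.trans ?_ (Finset.sum_congr rfl e4).symm
  rw [Finset.sum_comm (s := Finset.range q)]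
  refine Finset.sum_congr rfl fun θ _ => ?_
  rw [Finset.sum_comm (s := Finset.range q)]
  refine Finset.sum_congr rfl fun θ' _ => ?_
  rw [Finset.sum_ite_eq, if_pos (Finset.mem_range.2 (Nat.mod_lt _ hq0))]
  ring

end Pool.Agent.PP.TB.H76
end
end -- Pool.Agent.Helper76_ATZ.ZIN

section -- Pool.Agent.Helper92_ATZ.POZ

/-!
# Squad ATZ, row POZ: positivity
-/

set_option autoImplicit false

open scoped BigOperators

noncomputable section

namespace Pool.Agent.PP.TB.H92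

open Pool.Agent.Helper51_AWC Pool.Agent.Helper79_WRA Pool.Agent.PP Pool.Agent.PP.KF
open Pool.Agent.PP.K9 Pool.Agent.PP.K9.H97 Pool.Agent.PP.H75 Pool.Agent.PP.T3 Pool.Agent.PP.T2
open Pool.Agent.PP.T5

attribute [local instance] Ideal.Quotient.field

/-- POZ -/
theorem poz (nz5 : T5.Nz5Stmt) : PozStmt := by
  intro ℓ _ M _ hM G _ _ e V Z γ b hZ z hz
  classical
  have := Fintype.ofFinite (Cu z)
  have hmm : ∀ χ : G → ℂ, mm M ℓ (Cu z) z (b z) χ χ = (((Nat.card (Cu z) : ℝ)⁻¹ *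
      ∑ s ∈ Finset.univ.filter (fun s : Cu z => Reg ℓ s),
        Complex.normSq (gv M (Cu z) (z * s) (b z) χ) : ℝ) : ℂ) := by
    intro χ
    rw [mm, T5.H92.finsum_reg]
    push_cast
    congr 1
    refine Finset.sum_congr rfl fun s _ => ?_
    rw [Complex.mul_conj]
  have hC : (0 : ℝ) < Nat.card (Cu z) := by exact_mod_cast Nat.card_pos
  constructor
  · intro χ _
    refine ⟨_, ?_, hmm χ⟩
    exact mul_nonneg (inv_nonneg.2 hC.le) (Finset.sum_nonneg fun s _ => Complex.normSq_nonneg _)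
  · intro χ hχ
    refine ⟨_, ?_, hmm χ⟩
    apply mul_pos (inv_pos.2 hC)
    refine Finset.sum_pos' (fun s _ => Complex.normSq_nonneg _) ⟨1, ?_, ?_⟩
    · rw [Finset.mem_filter]
      refine ⟨Finset.mem_univ _, ?_⟩
      unfold Reg
      rw [orderOf_one]
      exact Nat.coprime_one_left ℓ
    · rw [Complex.normSq_pos, Subgroup.coe_one, mul_one]
      exact nz5 ℓ M hM G e V z (b z) (hZ.lb z hz).1 χ hχ

end Pool.Agent.PP.TB.H92
end
end -- Pool.Agent.Helper92_ATZ.POZ
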