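import Pool.Agent.Helper12_AWB.B127
import Pool.Agent.Helper12_AWB.B137
import Pool.Agent.Helper12_AWB.B144

/-!
# Merged copies (generated) of the modules

* `Pool.Agent.Helper24_AT5.INQ`
* `Pool.Agent.Helper45_AT5.KER`
* `Pool.Agent.Helper82_AT5.NCL`
* `Pool.Agent.Helper66_AT6.Tools`
* `Pool.Agent.Helper69_AT6.SVV`
* `Pool.Agent.Helper66_AT6.TRN`
* `Pool.Agent.Helper69_AT6.DIV`
* `Pool.Agent.Helper81_AT6.PGR`
* `Pool.Agent.Helper89_AT6.KRF`
-/

set_option autoImplicit false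

section -- Pool.Agent.Helper24_AT5.INQ

/-!
# Squad AT5, row INQ: the inner products on the regular elements
-/

set_option autoImplicit false

open scoped BigOperators

noncomputable section

namespace Pool.Agent.PP.T5.H24

open Pool.Agent.Helper51_AWC Pool.Agent.Helper79_WRA Pool.Agent.PP Pool.Agent.PP.KF
open Pool.Agent.PP.K9 Pool.Agent.PP.K9.H97 Pool.Agent.PP.H75 Pool.Agent.PP.T3 Pool.Agent.PP.T2
open Pool.Agent.PP.K9.H25

attribute [local instance] Ideal.Quotient.field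

/-- an element of the local ring whose product with a power of `ℓ` is an integer is an integer -/
theorem int_of_RM {ℓ : ℕ} (hℓ : ℓ.Prime) {M : Ideal (integralClosure ℤ ℂ)} [M.IsMaximal]
    (hM : (ℓ : integralClosure ℤ ℂ) ∈ M) :
    ∀ (A : ℕ) (x : ℂ), x ∈ RM M → ∀ n : ℤ, (ℓ : ℂ) ^ A * x = n → ∃ z : ℤ, x = z := by
  intro A
  induction A with
  | zero =>
    intro x _ n h
    rw [pow_zero, one_mul] at h
    exact ⟨n, h⟩
  | succ A ih =>
    intro x hx n h
    have hpos : (ℓ : ℂ) ≠ 0 := by exact_mod_cast hℓ.pos.ne'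
    have h0 : ∀ k : ℕ, (ℓ : ℂ) ^ k ∈ RM M := by
      intro k
      have h1 := (rr_nat (M := M) (ℓ ^ k)).1
      push_cast at h1
      exact h1
    have h1 : rr M (n : ℂ) = 0 := by
      have h2 : (n : ℂ) = ((ℓ : ℕ) : ℂ) * ((ℓ : ℂ) ^ A * x) := by
        rw [← h, pow_succ]
        ring
      rw [h2, rr_mul (rr_nat ℓ).1 ((RM M).mul_mem (h0 A) hx), (rr_nat ℓ).2]
      have h3 : (ℓ : FF M) = 0 := by
        have := Ideal.Quotient.eq_zero_iff_mem.2 hM
        rwa [map_natCast] at this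
      rw [h3, zero_mul]
    obtain ⟨n', hn'⟩ := (dvd_of_rr hℓ hM).1 h1
    refine ih x hx n' ?_
    have h4 : (ℓ : ℂ) * ((ℓ : ℂ) ^ A * x) = ℓ * n' := by
      rw [← mul_assoc, ← pow_succ', h, hn']
      push_cast
      ring
    exact mul_left_cancel₀ hpos h4

theorem reg_conj {G : Type} [Group G] {ℓ : ℕ} (x y : G) : Reg ℓ (y * x * y⁻¹) ↔ Reg ℓ x := by
  unfold Reg
  have : orderOf (y * x * y⁻¹) = orderOf x :=
    orderOf_injective (MulAut.conj y).toMonoidHom (MulAut.conj y).injective x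
  rw [this]

open Classical in
/-- `|H| rip κ ψ = κ(1) r` with `r` an algebraic integer -/
theorem rip_int {M : Ideal (integralClosure ℤ ℂ)} [M.IsMaximal] {ℓ : ℕ} {H : Type} [Group H]
    [Finite H] {κ ψ : H → ℂ} (hκ : κ ∈ Irr H) (hψ : ψ ∈ Irr H) :
    ∃ r ∈ RM M, (Nat.card H : ℂ) * rip ℓ κ ψ = κ 1 * r := by
  have := Fintype.ofFinite H
  have hc : (Fintype.card H : ℂ) ≠ 0 := by exact_mod_cast Fintype.card_ne_zero
  have hκ1 : κ 1 ≠ 0 := by
    obtain ⟨d, hd0, hd⟩ := irr_one hκ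
    rw [hd]
    exact_mod_cast hd0.ne'
  obtain ⟨F, hF⟩ : ∃ F : H → integralClosure ℤ ℂ, ∀ x,
      ((F x : integralClosure ℤ ℂ) : ℂ) = if Reg ℓ x then ψ x⁻¹ else 0 := by
    refine ⟨fun x => if Reg ℓ x then ⟨ψ x⁻¹, irr_integral hψ x⁻¹⟩ else 0, ?_⟩
    intro x
    by_cases hx : Reg ℓ x
    · simp only [if_pos hx]
    · simp only [if_neg hx]
      rfl
  have hFc : H50.Cl F := by
    intro x y
    apply Subtype.ext
    rw [hF, hF]
    have h1 : (y * x * y⁻¹)⁻¹ = y * x⁻¹ * y⁻¹ := by group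
    rw [h1, irr_conj hψ]
    simp only [reg_conj]
  obtain ⟨-, h2⟩ := H50.res_irr (M := M) F hFc hκ
  refine ⟨_, RM_of_int h2, ?_⟩
  rw [rip, ← mul_assoc, Nat.card_eq_fintype_card, mul_inv_cancel₀ hc, one_mul,
    finsum_eq_sum_of_fintype]
  simp only [H50.om]
  rw [mul_div_cancel₀ _ hκ1]
  refine Finset.sum_congr rfl fun x _ => ?_
  rw [hF, finsum_eq_if]
  by_cases hx : Reg ℓ x
  · rw [if_pos hx, if_pos hx, H94.irr_star hψ, mul_comm]
  · rw [if_neg hx, if_neg hx, zero_mul]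

/-- row INQ -/
theorem inq (sei : SeiStmt) (zim : ZimStmt) (deg : DegStmt) : InqStmt := by
  classical
  intro ℓ _ M _ hM H _ _ b hb V hTp κ hκ κ' hκ'
  have hℓ : ℓ.Prime := Fact.out
  have := Fintype.ofFinite H
  have hH : (Nat.card H : ℂ) ≠ 0 := by exact_mod_cast Nat.card_pos.ne'
  obtain ⟨P⟩ : Nonempty (Sylow ℓ H) := inferInstance
  obtain ⟨A, hA⟩ := IsPGroup.iff_card.1 P.isPGroup'
  -- the product with the order of a Sylow subgroup is an integer
  obtain ⟨z, hz⟩ : ∃ z : ℤ, (Nat.card P : ℂ) * rip ℓ κ κ' = z := by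
    obtain ⟨z, hz⟩ := zi_ipn ((zim H _ (sei ℓ H P).1 κ (AddSubgroup.subset_closure hκ.1)).1)
      (AddSubgroup.subset_closure hκ'.1 : κ' ∈ ZI H)
    refine ⟨z, ?_⟩
    rw [← hz, ipn_eq, rip, Nat.card_eq_fintype_card (α := H), finsum_eq_sum_of_fintype,
      mul_left_comm, Finset.mul_sum]
    congr 1
    refine Finset.sum_congr rfl fun x _ => ?_
    rw [finsum_eq_if]
    by_cases hx : Reg ℓ x
    · rw [if_pos hx, if_pos hx, mul_assoc]
    · rw [if_neg hx, if_neg hx, zero_mul, zero_mul, mul_zero]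
  -- the product with the order of `V` is in the local ring
  have hVR : (Nat.card V : ℂ) * rip ℓ κ κ' ∈ RM M := by
    obtain ⟨r, hr, hrr⟩ := rip_int (M := M) (ℓ := ℓ) hκ.1 hκ'.1
    have h1 : (Nat.card V : ℂ) * rip ℓ κ κ' = (Nat.card V * κ 1 / Nat.card H : ℂ) * r := by
      have h2 : rip ℓ κ κ' = (Nat.card H : ℂ)⁻¹ * (κ 1 * r) := by
        rw [← hrr, inv_mul_cancel_left₀ hH]
      rw [h2]
      field_simp
    rw [h1]
    exact (RM M).mul_mem (deg ℓ M hM H b hb V hTp κ hκ) hr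
  refine int_of_RM hℓ hM A _ hVR (Nat.card V * z) ?_
  rw [mul_left_comm, ← Nat.cast_pow, ← hA]
  have h3 : (Nat.card P : ℂ) * rip ℓ κ κ' = z := hz
  push_cast
  rw [← h3]

end Pool.Agent.PP.T5.H24
end
end -- Pool.Agent.Helper24_AT5.INQ

section -- Pool.Agent.Helper45_AT5.KER

/-!
# Squad AT5, row KER: the function `s ↦ χ(w s b)` on the regular elements
-/

open scoped BigOperators

noncomputable section

namespace Pool.Agent.PP.T5.H45

open Pool.Agent.Helper51_AWC Pool.Agent.Helper79_WRA Pool.Agent.PP Pool.Agent.PP.KF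
open Pool.Agent.PP.K9 Pool.Agent.PP.K9.H97 Pool.Agent.PP.H75 Pool.Agent.PP.T3 Pool.Agent.PP.T2

attribute [local instance] Ideal.Quotient.field

/-- the convolution of an irreducible character with a class function -/
theorem conv_cl {H : Type} [Group H] [Fintype H] {κ : H → ℂ} (hκ : κ ∈ Irr H) {f : H → ℂ}
    (hf : ∀ x y, f (y * x * y⁻¹) = f x) (s : H) :
    κ 1 * ∑ c, κ c⁻¹ * f (s * c) = κ s * ∑ c, κ c⁻¹ * f c := by
  have hg : ∀ x y : H, f (y * x * y⁻¹)⁻¹ = f x⁻¹ := by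
    intro x y
    rw [show (y * x * y⁻¹)⁻¹ = y * x⁻¹ * y⁻¹ by group, hf]
  have h1 := H50.eigen (a := fun t => f t⁻¹) hg hκ s
  have h2 : ∑ c, κ c⁻¹ * f (s * c) = ∑ t, f t⁻¹ * κ (t * s) := by
    refine Fintype.sum_equiv ((Equiv.mulLeft s).trans (Equiv.inv H)) _ _ fun c => ?_
    rw [Equiv.trans_apply, Equiv.coe_mulLeft, Equiv.inv_apply, inv_inv, mul_inv_rev,
      inv_mul_cancel_right, mul_comm]
  have h3 : ∑ c, κ c⁻¹ * f c = ∑ t, f t⁻¹ * κ t := by
    refine Fintype.sum_equiv (Equiv.inv H) _ _ fun c => ?_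
    rw [Equiv.inv_apply, inv_inv, mul_comm]
  have h4 : κ 1 ≠ 0 := irr_one_ne hκ
  rw [h2, h3, h1]
  unfold H50.om
  field_simp

theorem ker : KerStmt := by
  intro ℓ hℓ M _ hM G _ _ u w hw b hb s hs hsr χ hχ
  classical
  have := Fintype.ofFinite G
  have := Fintype.ofFinite (Cu u)
  set C : Subgroup G := Cu u with hC
  set b' : C → FF M := fun t => b t with hb'
  set S := (K9.H25.irrE_finite M b').toFinset with hS
  have hmem : ∀ κ, κ ∈ S ↔ κ ∈ IrrE M b' := fun κ => Set.Finite.mem_toFinset _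
  set s' : C := ⟨s, hs⟩ with hs'
  set f : C → ℂ := fun t => χ (w * (t : G)) with hf
  have hfc : ∀ x y : C, f (y * x * y⁻¹) = f x := by
    intro x y
    simp only [hf]
    have h1 : w * ((y * x * y⁻¹ : C) : G) = (y : G) * (w * (x : G)) * (y : G)⁻¹ := by
      rw [Subgroup.coe_mul, Subgroup.coe_mul, Subgroup.coe_inv]
      have h2 := hw y y.2
      calc w * ((y : G) * x * (y : G)⁻¹) = (w * y) * x * (y : G)⁻¹ := by group
        _ = (y * w) * x * (y : G)⁻¹ := by rw [h2]
        _ = _ := by group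
    rw [h1, irr_conj hχ]
  -- the left side
  have h1 : gv M C (w * s) b χ =
      (Nat.card C : ℂ)⁻¹ * ∑ c : C, (∑ κ ∈ S, κ s' * κ c⁻¹) * f c := by
    unfold gv gbv
    rw [finsum_eq_sum_of_fintype]
    have h2 : ∀ c : C, eh M b' c * χ (w * s * (c : G)) =
        (Nat.card C : ℂ)⁻¹ * ∑ κ ∈ S, κ 1 * (κ c⁻¹ * f (s' * c)) := by
      intro c
      rw [K9.H25.eh_eq, Nat.card_eq_fintype_card, mul_assoc, Finset.sum_mul]
      congr 1
      refine Finset.sum_congr rfl fun κ _ => ?_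
      simp only [hf, hs', Subgroup.coe_mul]
      rw [mul_assoc, mul_assoc w]
    rw [Finset.sum_congr rfl fun c _ => h2 c, ← Finset.mul_sum, Finset.sum_comm]
    congr 1
    have h3 : ∀ κ ∈ S, ∑ c : C, κ 1 * (κ c⁻¹ * f (s' * c)) = ∑ c : C, κ s' * κ c⁻¹ * f c := by
      intro κ hκ
      rw [← Finset.mul_sum, conv_cl ((hmem κ).1 hκ).1 hfc, Finset.mul_sum]
      refine Finset.sum_congr rfl fun c _ => ?_
      rw [mul_assoc]
    rw [Finset.sum_congr rfl h3, Finset.sum_comm]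
    refine Finset.sum_congr rfl fun c _ => ?_
    rw [Finset.sum_mul]
  -- the kernel
  have h2 : ∀ c : C, kr M C b s c = ∑ κ ∈ S, κ s' * κ c⁻¹ := by
    intro c
    unfold kr
    rw [finsum_mem_eq_finite_toFinset_sum _ (K9.H25.irrE_finite M b')]
    refine Finset.sum_congr rfl fun κ hκ => ?_
    have e1 : H75.ext0 C κ s = κ s' := ext0_apply C κ s'
    rw [e1, ext0_apply, H94.irr_star ((hmem κ).1 hκ).1]
  have h3 : ∀ c : C, ¬ Reg ℓ c → ∑ κ ∈ S, κ s' * κ c⁻¹ = 0 := by
    intro c hc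
    have hsr' : Reg ℓ s' := by
      unfold Reg at hsr ⊢
      rwa [← Subgroup.orderOf_coe]
    have h4 := T3.H62.wbo_ ℓ M hM C b' hb.idem s'⁻¹ c⁻¹ (K9.H25.reg_inv.2 hsr')
      (fun h => hc (K9.H25.reg_inv.1 h))
    rw [finsum_mem_eq_finite_toFinset_sum _ (K9.H25.irrE_finite M b')] at h4
    simpa using h4
  rw [h1]
  congr 1
  have h4 : ∑ᶠ (c : G) (_ : c ∈ C ∧ Reg ℓ c), kr M C b s c * χ (w * c) =
      ∑ᶠ c : G, (if c ∈ C ∧ Reg ℓ c then kr M C b s c * χ (w * c) else 0) :=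
    finsum_congr fun c => finsum_eq_if
  rw [h4, H75.sum_sub C _ (fun x hx => if_neg fun h => hx h.1), finsum_eq_sum_of_fintype]
  refine Finset.sum_congr rfl fun c _ => ?_
  by_cases hc : Reg ℓ (c : G)
  · rw [if_pos ⟨c.2, hc⟩, h2]
  · rw [if_neg (fun h => hc h.2), h3 c (fun h => hc (T3.H62.reg_coe h)), zero_mul]

end Pool.Agent.PP.T5.H45
end
end -- Pool.Agent.Helper45_AT5.KER

section -- Pool.Agent.Helper82_AT5.NCL

/-!
# Squad AT5, row NCL: a normal subgroup of index `ℓ`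

No orbits: on the functions of `TT(C)` fixed by `E` the conjugation `σ` by an element of `A` outside
`C` satisfies `(σ - 1) ^ ℓ = σ ^ ℓ - 1 = 0`, so the dimension is at most `ℓ` times the dimension of
the functions fixed by `σ`, and these extend to functions in `TT(A)` fixed by `E`.
-/

open scoped BigOperators

set_option linter.unusedSectionVars false

noncomputable section

namespace Pool.Agent.PP.T5.H82

open Pool.Agent.Helper51_AWC Pool.Agent.Helper79_WRA Pool.Agent.PP Pool.Agent.PP.KF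
open Pool.Agent.PP.K9 Pool.Agent.PP.K9.H97 Pool.Agent.PP.H75 Pool.Agent.PP.T3 Pool.Agent.PP.T2

section linalg

variable {F V V' : Type} [Field F] [AddCommGroup V] [Module F V] [AddCommGroup V'] [Module F V']
  [Module.Finite F V]

theorem finrank_map_add (f : V →ₗ[F] V') (P : Submodule F V) :
    Module.finrank F (P.map f) + Module.finrank F (P ⊓ LinearMap.ker f : Submodule F V) =
      Module.finrank F P := by
  have h := LinearMap.finrank_range_add_finrank_ker (f.domRestrict P)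
  rw [LinearMap.range_domRestrict] at h
  have e : P ⊓ LinearMap.ker f = Submodule.map P.subtype (Submodule.comap P.subtype
      (LinearMap.ker f)) := by
    rw [Submodule.map_comap_subtype]
  rw [← h, e, Submodule.finrank_map_subtype_eq, LinearMap.ker_domRestrict]

/-- the dimension of the kernel of a power on an invariant subspace -/
theorem finrank_ker_pow (n : V →ₗ[F] V) (W : Submodule F V) (hW : ∀ v ∈ W, n v ∈ W) (k : ℕ) :
    Module.finrank F (W ⊓ LinearMap.ker (n ^ k) : Submodule F V) ≤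
      k * Module.finrank F (W ⊓ LinearMap.ker n : Submodule F V) := by
  have hWk : ∀ k : ℕ, ∀ v ∈ W, (n ^ k) v ∈ W := by
    intro k
    induction k with
    | zero => intro v hv; exact hv
    | succ k ih =>
      intro v hv
      rw [pow_succ]
      exact ih _ (hW v hv)
  induction k with
  | zero =>
    have e : (W ⊓ LinearMap.ker (n ^ 0) : Submodule F V) = ⊥ := by
      rw [pow_zero]
      apply eq_bot_iff.2
      rintro v ⟨_, hv⟩
      exact hv
    rw [e, finrank_bot, zero_mul]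
  | succ k ih =>
    rw [← finrank_map_add (n ^ k), add_mul, one_mul, add_comm]
    apply add_le_add
    · refine le_trans (Submodule.finrank_mono ?_) ih
      rintro v ⟨⟨hv, _⟩, hv'⟩
      exact ⟨hv, hv'⟩
    · apply Submodule.finrank_mono
      rintro _ ⟨v, ⟨hv, hv'⟩, rfl⟩
      refine ⟨hWk k v hv, ?_⟩
      have : (n ^ (k + 1)) v = 0 := hv'
      rw [pow_succ'] at this
      exact this

/-- an automorphism of order `ℓ` in characteristic `ℓ` -/
theorem finrank_le_fixed (ℓ : ℕ) [Fact ℓ.Prime] [CharP F ℓ] (σ : V →ₗ[F] V) (W : Submodule F V)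
    (hW : ∀ v ∈ W, σ v ∈ W) (hℓ : ∀ v ∈ W, (σ ^ ℓ) v = v) :
    Module.finrank F W ≤ ℓ * Module.finrank F (W ⊓ LinearMap.ker (σ - 1) : Submodule F V) := by
  have h1 : (σ - 1) ^ ℓ = σ ^ ℓ - 1 := by
    have h2 : (Polynomial.X - 1 : Polynomial F) ^ ℓ = Polynomial.X ^ ℓ - 1 := by
      rw [sub_pow_char, one_pow]
    have h3 := congrArg (Polynomial.aeval σ) h2
    simp only [map_pow, map_sub, Polynomial.aeval_X, map_one] at h3
    exact h3
  have h := finrank_ker_pow (σ - 1) W (fun v hv => W.sub_mem (hW v hv) hv) ℓ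
  have e : W ⊓ LinearMap.ker ((σ - 1) ^ ℓ) = W := by
    apply inf_eq_left.2
    intro v hv
    rw [LinearMap.mem_ker, h1, LinearMap.sub_apply, hℓ v hv]
    exact sub_self v
  rwa [e] at h

end linalg

section main

variable {F K H : Type} [Field F] [Group K] [Finite K] [Group H] [Finite H]

/-- `TT` is invariant under class functions -/
theorem actF_TT (hbrt : BrtStmt) (heig : EigStmt) {ℓ : ℕ} (hF : GoodF ℓ F) {a : H → F}
    (ha : IsCl a) {f : H → F} (hf : f ∈ TT F H ℓ) : actF a f ∈ TT F H ℓ := by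
  have h : (TT F H ℓ).map (actL a) ≤ TT F H ℓ := by
    rw [← hbrt ℓ F hF H, Submodule.map_span, Submodule.span_le]
    rintro _ ⟨_, ⟨n, ρ, hρ, rfl⟩, rfl⟩
    obtain ⟨w, _, hw, _⟩ := heig F H n ρ hρ a ha
    change actF a (tr ρ) ∈ _
    rw [hw]
    exact Submodule.smul_mem _ _ (Submodule.subset_span ⟨n, ρ, hρ, rfl⟩)
  exact h ⟨f, hf, rfl⟩

variable {ℓ : ℕ} (ι : K →* H) (hι : Function.Injective ι)

include hι

/-- a sum supported on the image of `ι` -/
theorem sum_im (f : H → F) (hf : ∀ h, h ∉ ι.range → f h = 0) :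
    ∑ᶠ h, f h = ∑ᶠ k, f (ι k) := by
  have := Fintype.ofFinite H
  have := Fintype.ofFinite K
  rw [finsum_eq_sum_of_fintype, finsum_eq_sum_of_fintype]
  symm
  apply Fintype.sum_of_injective ι hι
  · intro h hh
    exact hf h hh
  · intro k
    rfl

theorem actF_im {e : H → F} (hs : ∀ h, h ∉ ι.range → e h = 0) (f : H → F) (k : K) :
    actF e f (ι k) = actF (fun t => e (ι t)) (fun t => f (ι t)) k := by
  unfold actF
  rw [sum_im ι hι _ (fun h hh => by rw [hs h hh, zero_mul])]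
  simp only [map_mul]

theorem mulF_im {e : H → F} (hs : ∀ h, h ∉ ι.range → e h = 0) (f : H → F) (k : K) :
    mulF e f (ι k) = mulF (fun t => e (ι t)) (fun t => f (ι t)) k := by
  unfold mulF
  rw [sum_im ι hι _ (fun h hh => by rw [hs h hh, zero_mul])]
  simp only [map_mul, map_inv]

theorem idem_im {e : H → F} (he : IsIdem e) (hs : ∀ h, h ∉ ι.range → e h = 0) :
    IsIdem (fun t : K => e (ι t)) := by
  refine ⟨fun x y => ?_, ?_⟩
  · change e (ι (y * x * y⁻¹)) = e (ι x)
    rw [map_mul, map_mul, map_inv]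
    exact he.1 _ _
  · funext k
    rw [← mulF_im ι hι hs, he.2]

/-- the main inequality -/
theorem main (hp : Fact ℓ.Prime) (hF : GoodF ℓ F) (hbrt : BrtStmt) (heig : EigStmt) (g : H)
    (φ : K ≃* K) (hφ : ∀ k, ι (φ k) = g⁻¹ * ι k * g)
    (hgen : ∀ h : H, ∃ (i : ℕ) (k : K), h = g ^ i * ι k) (k₀ : K) (hk₀ : ι k₀ = g ^ ℓ)
    (hreg : ∀ h : H, Reg ℓ h → h ∈ ι.range) {e : H → F} (he : IsIdem e)
    (hs : ∀ h, h ∉ ι.range → e h = 0) :
    rk (fun t : K => e (ι t)) (TT F K ℓ) ≤ ℓ * rk e (TT F H ℓ) := by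
  have := hF.char
  set ε : K → F := fun t => e (ι t) with hε
  have hid : IsIdem ε := idem_im ι hι he hs
  set W : Submodule F (K → F) := (TT F K ℓ).map (actL ε) with hW
  have hW1 : ∀ f ∈ W, f ∈ TT F K ℓ := by
    rintro _ ⟨f, hf, rfl⟩
    exact actF_TT hbrt heig hF hid.1 hf
  have hW2 : ∀ f ∈ W, actF ε f = f := by
    rintro _ ⟨f, hf, rfl⟩
    change actF ε (actF ε f) = actF ε f
    rw [← actF_mulF, hid.2]
  -- powers of `φ`
  have hit : ∀ (n : ℕ) (k : K), ι (φ^[n] k) = (g ^ n)⁻¹ * ι k * g ^ n := by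
    intro n k
    induction n with
    | zero => simp
    | succ n ih =>
      rw [Function.iterate_succ_apply', hφ, ih, pow_succ]
      group
  set σ : (K → F) →ₗ[F] (K → F) := LinearMap.funLeft F F φ with hσ
  have hσa : ∀ f k, σ f k = f (φ k) := fun f k => rfl
  have hσn : ∀ (n : ℕ) (f : K → F) (k : K), (σ ^ n) f k = f (φ^[n] k) := by
    intro n
    induction n with
    | zero => intro f k; rfl
    | succ n ih =>
      intro f k
      rw [pow_succ, Module.End.mul_apply, ih, hσa, ← Function.iterate_succ_apply' φ]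
  have hσW : ∀ f ∈ W, σ f ∈ W := by
    intro f hf
    have hf1 := hW1 f hf
    have hT : σ f ∈ TT F K ℓ := by
      refine ⟨fun x y => ?_, fun x y hxy hy => ?_⟩
      · rw [hσa, hσa, map_mul, map_mul, map_inv]
        exact hf1.1 _ _
      · rw [hσa, hσa, map_mul]
        apply hf1.2 _ _ (hxy.map φ)
        obtain ⟨n, hn⟩ := hy
        exact ⟨n, by rw [← map_pow, hn, map_one]⟩
    refine ⟨σ f, hT, ?_⟩
    change actF ε (σ f) = σ f
    funext x
    have h1 : actF ε f (φ x) = f (φ x) := by rw [hW2 f hf]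
    rw [hσa, ← h1]
    unfold actF
    rw [← finsum_comp_equiv φ.toEquiv (f := fun t => ε t * f (t * φ x))]
    apply finsum_congr
    intro t
    change ε t * f (φ (t * x)) = ε (φ t) * f (φ t * φ x)
    have h2 : ε (φ t) = ε t := by
      change e (ι (φ t)) = e (ι t)
      rw [hφ]
      have := he.1 (ι t) g⁻¹
      rwa [inv_inv] at this
    rw [map_mul, h2]
  have hσℓ : ∀ f ∈ W, (σ ^ ℓ) f = f := by
    intro f hf
    funext k
    rw [hσn]
    have h1 : φ^[ℓ] k = k₀⁻¹ * k * k₀ := by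
      apply hι
      rw [hit, ← hk₀, map_mul, map_mul, map_inv]
    rw [h1]
    have := (hW1 f hf).1 k k₀⁻¹
    rwa [inv_inv] at this
  have hdim := finrank_le_fixed ℓ σ W hσW hσℓ
  refine le_trans hdim (Nat.mul_le_mul_left ℓ ?_)
  -- the fixed functions are invariant
  have hinv : ∀ f ∈ W ⊓ LinearMap.ker (σ - 1), ∀ (h : H) (k k' : K), ι k' = h * ι k * h⁻¹ →
      f k' = f k := by
    rintro f ⟨hf, hf'⟩ h k k' hk
    have hf2 : σ f = f := sub_eq_zero.1 hf'
    have hf3 : ∀ n : ℕ, (σ ^ n) f = f := by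
      intro n
      induction n with
      | zero => rfl
      | succ n ih => rw [pow_succ, Module.End.mul_apply, hf2, ih]
    obtain ⟨i, c, rfl⟩ := hgen h
    have h1 : φ^[i] k' = c * k * c⁻¹ := by
      apply hι
      rw [hit, hk, map_mul, map_mul, map_inv]
      group
    have h2 := congrFun (hf3 i) k'
    rw [hσn, h1] at h2
    rw [← h2]
    exact (hW1 f hf).1 k c
  -- the power map
  obtain ⟨N, hN1, hN2⟩ := Pool.Agent.PP.K9.H27.prt ℓ H
  have hNr : ∀ h : H, ∃ k : K, ι k = h ^ N := fun h => hreg _ (hN1 h).1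
  choose p hp' using hNr
  set L : (K → F) →ₗ[F] (H → F) := LinearMap.funLeft F F p with hL
  have hLa : ∀ f h, L f h = f (p h) := fun f h => rfl
  have hTN : ∀ f ∈ TT F H ℓ, ∀ h, f h = f (ι (p h)) := by
    intro f hf h
    rw [hp']
    have hc : Commute (h ^ N) ((h ^ N)⁻¹ * h) := by
      have : Commute (h ^ N) h := (Commute.refl h).pow_left N
      exact ((Commute.refl (h ^ N)).inv_right).mul_right this
    have := hf.2 (h ^ N) ((h ^ N)⁻¹ * h) hc (hN1 h).2
    rwa [mul_inv_cancel_left] at this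
  have hpι : ∀ k, ι (p (ι k)) = ι (k ^ N) := fun k => by rw [hp', map_pow]
  have hLι : ∀ f ∈ TT F K ℓ, ∀ k, L f (ι k) = f k := by
    intro f hf k
    rw [hLa, hι (hpι k)]
    have hc : Commute (k ^ N) ((k ^ N)⁻¹ * k) := by
      have : Commute (k ^ N) k := (Commute.refl k).pow_left N
      exact ((Commute.refl (k ^ N)).inv_right).mul_right this
    obtain ⟨n, hn⟩ := (hN1 (ι k)).2
    have := hf.2 (k ^ N) ((k ^ N)⁻¹ * k) hc ⟨n, hι (by
      rw [map_pow, map_mul, map_inv, map_pow, map_one, hn])⟩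
    rw [mul_inv_cancel_left] at this
    exact this.symm
  have hLT : ∀ f ∈ W ⊓ LinearMap.ker (σ - 1), L f ∈ TT F H ℓ := by
    intro f hf
    refine ⟨fun x y => ?_, fun x y hxy hy => ?_⟩
    · rw [hLa, hLa]
      apply hinv f hf y
      rw [hp', hp']
      exact (MulAut.conj y).toMonoidHom.map_pow x N |>.symm
    · rw [hLa, hLa]
      congr 1
      apply hι
      rw [hp', hp']
      have hc1 : Commute (x ^ N) x := (Commute.refl x).pow_left N
      have hc2 : Commute (x ^ N) y := hxy.pow_left N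
      have hc3 : Commute ((x ^ N)⁻¹ * x) y := (hc2.inv_left).mul_left hxy
      have e : x * y = x ^ N * ((x ^ N)⁻¹ * x * y) := by group
      rw [e]
      apply hN2
      · exact (((Commute.refl (x ^ N)).inv_right).mul_right hc1).mul_right hc2
      · exact (hN1 x).1
      · obtain ⟨n, hn⟩ := (hN1 x).2
        obtain ⟨m, hm⟩ := hy
        refine ⟨n + m, ?_⟩
        rw [hc3.mul_pow, pow_add, pow_mul, hn, one_pow, one_mul, mul_comm (ℓ ^ n), pow_mul, hm,
          one_pow]
  have hLe : ∀ f ∈ W ⊓ LinearMap.ker (σ - 1), actF e (L f) = L f := by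
    intro f hf
    funext h
    rw [hTN _ (actF_TT hbrt heig hF he.1 (hLT f hf)), hTN _ (hLT f hf) h, actF_im ι hι hs,
      hLι f (hW1 f hf.1)]
    have e1 : (fun t => L f (ι t)) = f := funext fun t => hLι f (hW1 f hf.1) t
    rw [e1, hW2 f hf.1]
  have hmap : (W ⊓ LinearMap.ker (σ - 1)).map L ≤ (TT F H ℓ).map (actL e) := by
    rintro _ ⟨f, hf, rfl⟩
    exact ⟨L f, hLT f hf, hLe f hf⟩
  have h1 := finrank_map_add L (W ⊓ LinearMap.ker (σ - 1))
  have e : (W ⊓ LinearMap.ker (σ - 1) ⊓ LinearMap.ker L : Submodule F (K → F)) = ⊥ := by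
    apply eq_bot_iff.2
    rintro f ⟨hf, hf'⟩
    have h2 : L f = 0 := hf'
    change f = 0
    funext k
    rw [← hLι f (hW1 f hf.1) k, h2]
    rfl
  rw [e, finrank_bot, add_zero] at h1
  rw [← h1]
  exact Submodule.finrank_mono hmap

end main

theorem ncl (hbrt : BrtStmt) (hrnk : RnkStmt) (heig : EigStmt) : NclStmt := by
  intro ℓ hp F _ hF G _ _ C A hCA hAN hidx E hE hs
  have hℓ := hp.out
  have hid : IsIdem (fun t : C => E t) := by
    refine ⟨fun x y => ?_, ?_⟩
    · have := hE.idem.1 ⟨x, hCA x.2⟩ ⟨y, hCA y.2⟩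
      exact this
    · rw [← mulF_res C E hs, hE.mul]
  have hidA : IsIdem (fun t : A => E t) := hE.idem
  -- the quotient
  set N : Subgroup A := C.subgroupOf A with hN
  have hNn : N.Normal := Subgroup.normal_subgroupOf_of_le_normalizer hAN
  have hNi : Nat.card (A ⧸ N) = ℓ := by
    rw [← Subgroup.index_eq_card]
    exact hidx
  have hNT : N ≠ ⊤ := by
    intro h
    have h1 : N.index = 1 := by rw [h, Subgroup.index_top]
    have h2 : N.index = ℓ := hidx
    exact hℓ.ne_one (h2.symm.trans h1)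
  obtain ⟨g, hg⟩ : ∃ g : A, g ∉ N := by
    by_contra h
    push Not at h
    exact hNT (eq_top_iff.2 fun x _ => h x)
  have hgC : (g : G) ∉ C := fun h => hg (Subgroup.mem_subgroupOf.2 h)
  have hgN : (g : G) ∈ Subgroup.normalizer (C : Set G) := hAN g.2
  -- conjugation
  have hc1 : ∀ x : G, (g : G)⁻¹ * x * g ∈ C ↔ x ∈ C := conj_mem_iff hgN
  let φ : C ≃* C :=
    { toFun := fun x => ⟨(g : G)⁻¹ * x * g, (hc1 x).2 x.2⟩
      invFun := fun x => ⟨(g : G) * x * (g : G)⁻¹, by
        have := (hc1 ((g : G) * x * (g : G)⁻¹)).1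
        apply this
        have e : (g : G)⁻¹ * ((g : G) * x * (g : G)⁻¹) * g = x := by group
        rw [e]
        exact x.2⟩
      left_inv := fun x => Subtype.ext (by
        change (g : G) * ((g : G)⁻¹ * x * g) * (g : G)⁻¹ = x
        group)
      right_inv := fun x => Subtype.ext (by
        change (g : G)⁻¹ * ((g : G) * x * (g : G)⁻¹) * g = x
        group)
      map_mul' := fun x y => Subtype.ext (by
        change (g : G)⁻¹ * (x * y) * g = (g : G)⁻¹ * x * g * ((g : G)⁻¹ * y * g)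
        group) }
  have hgen : ∀ h : A, ∃ (i : ℕ) (k : C), h = g ^ i * Subgroup.inclusion hCA k := by
    intro h
    have := Fact.mk hℓ
    have hgq : (QuotientGroup.mk g : A ⧸ N) ≠ 1 := by
      intro h1
      exact hg ((QuotientGroup.eq_one_iff g).1 h1)
    have h1 : (QuotientGroup.mk h : A ⧸ N) ∈ Submonoid.powers (QuotientGroup.mk g : A ⧸ N) :=
      mem_powers_of_prime_card hNi hgq
    obtain ⟨i, hi⟩ := h1
    have h2 : ((g ^ i : A) : A ⧸ N) = (h : A ⧸ N) := hi
    have h3 := Subgroup.mem_subgroupOf.1 (QuotientGroup.eq.1 h2)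
    refine ⟨i, ⟨_, h3⟩, ?_⟩
    apply Subtype.ext
    change (h : G) = ((g ^ i : A) : G) * (((g ^ i)⁻¹ * h : A) : G)
    rw [← Subgroup.coe_mul, mul_inv_cancel_left]
  have hpow : g ^ ℓ ∈ N := by
    rw [← QuotientGroup.eq_one_iff, QuotientGroup.mk_pow, ← hNi]
    exact pow_card_eq_one'
  have hreg : ∀ h : A, Reg ℓ h → h ∈ (Subgroup.inclusion hCA).range := by
    intro h hr
    have h1 : (QuotientGroup.mk h : A ⧸ N) = 1 := by
      rw [← orderOf_eq_one_iff]
      have h2 : orderOf (QuotientGroup.mk h : A ⧸ N) ∣ ℓ := by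
        rw [← hNi]
        exact orderOf_dvd_natCard _
      have h3 : orderOf (QuotientGroup.mk h : A ⧸ N) ∣ orderOf h :=
        orderOf_map_dvd (QuotientGroup.mk' N) h
      have h4 := Nat.dvd_gcd h3 h2
      rw [hr.gcd_eq_one] at h4
      exact Nat.dvd_one.1 h4
    have h2 := Subgroup.mem_subgroupOf.1 ((QuotientGroup.eq_one_iff h).1 h1)
    exact ⟨⟨h, h2⟩, Subtype.ext rfl⟩
  have hmain := main (F := F) (ℓ := ℓ) (Subgroup.inclusion hCA) (Subgroup.inclusion_injective hCA)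
    hp hF hbrt heig g φ (fun k => Subtype.ext rfl) hgen ⟨((g ^ ℓ : A) : G),
      Subgroup.mem_subgroupOf.1 hpow⟩ (Subtype.ext rfl) hreg hidA (by
      intro h hh
      apply hs
      intro h1
      exact hh ⟨⟨h, h1⟩, Subtype.ext rfl⟩)
  have h1 := hrnk ℓ F hF C (fun t : C => E t) hid
  have h2 := hrnk ℓ F hF A (fun t : A => E t) hidA
  unfold T3.ln
  rw [← h1, ← h2]
  exact hmain

end Pool.Agent.PP.T5.H82
end
end -- Pool.Agent.Helper82_AT5.NCL

section -- Pool.Agent.Helper66_AT6.Tools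

/-!
# Squad AT6: small tools (divisibility, lifts)
-/

open scoped BigOperators

noncomputable section

namespace Pool.Agent.PP.T6.H66

open Pool.Agent.Helper51_AWC Pool.Agent.Helper79_WRA Pool.Agent.PP Pool.Agent.PP.KF
open Pool.Agent.PP.K9 Pool.Agent.PP.K9.H97 Pool.Agent.PP.H75 Pool.Agent.PP.T3 Pool.Agent.PP.T2

attribute [local instance] Ideal.Quotient.field

section dv

variable {M : Ideal (integralClosure ℤ ℂ)} [M.IsMaximal] {m z z' t : ℂ}

theorem dv_zero : Dv M m 0 := ⟨0, (RM M).zero_mem, by rw [mul_zero]⟩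

theorem dv_add (h : Dv M m z) (h' : Dv M m z') : Dv M m (z + z') := by
  obtain ⟨t, ht, rfl⟩ := h
  obtain ⟨t', ht', rfl⟩ := h'
  exact ⟨t + t', (RM M).add_mem ht ht', by ring⟩

theorem dv_neg (h : Dv M m z) : Dv M m (-z) := by
  obtain ⟨t, ht, rfl⟩ := h
  exact ⟨-t, (RM M).neg_mem ht, by ring⟩

theorem dv_sub (h : Dv M m z) (h' : Dv M m z') : Dv M m (z - z') := by
  rw [sub_eq_add_neg]
  exact dv_add h (dv_neg h')

theorem dv_mul_left (ht : t ∈ RM M) (h : Dv M m z) : Dv M m (t * z) := by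
  obtain ⟨s, hs, rfl⟩ := h
  exact ⟨t * s, (RM M).mul_mem ht hs, by ring⟩

theorem dv_mul_right (h : Dv M m z) (ht : t ∈ RM M) : Dv M m (z * t) := by
  rw [mul_comm]
  exact dv_mul_left ht h

theorem dv_self (ht : t ∈ RM M) : Dv M m (m * t) := ⟨t, ht, rfl⟩

theorem dv_sum {ι : Type*} (s : Finset ι) (f : ι → ℂ) (h : ∀ i ∈ s, Dv M m (f i)) :
    Dv M m (∑ i ∈ s, f i) := by
  classical
  induction s using Finset.induction_on with
  | empty => rw [Finset.sum_empty]; exact dv_zero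
  | insert a s ha ih =>
    rw [Finset.sum_insert ha]
    exact dv_add (h a (Finset.mem_insert_self a s))
      (ih (fun i hi => h i (Finset.mem_insert_of_mem hi)))

theorem dv_finsum {ι : Type*} (f : ι → ℂ) (h : ∀ i, Dv M m (f i)) :
    Dv M m (∑ᶠ i, f i) := by
  classical
  by_cases hf : (Function.support f).Finite
  · rw [finsum_eq_sum_of_support_subset f (s := hf.toFinset) (by simp)]
    exact dv_sum _ _ (fun i _ => h i)
  · rw [finsum_of_infinite_support hf]
    exact dv_zero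

/-- products of congruent numbers -/
theorem dv_mul_sub {a a' b b' : ℂ} (ha : a ∈ RM M) (hb' : b' ∈ RM M) (h : Dv M m (a - a'))
    (h' : Dv M m (b - b')) : Dv M m (a * b - a' * b') := by
  have e : a * b - a' * b' = a * (b - b') + (a - a') * b' := by ring
  rw [e]
  exact dv_add (dv_mul_left ha h') (dv_mul_right h hb')

theorem rm_finsum {ι : Type*} (f : ι → ℂ) (h : ∀ i, f i ∈ RM M) : ∑ᶠ i, f i ∈ RM M := by
  classical
  by_cases hf : (Function.support f).Finite
  · rw [finsum_eq_sum_of_support_subset f (s := hf.toFinset) (by simp)]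
    exact (RM M).sum_mem (fun i _ => h i)
  · rw [finsum_of_infinite_support hf]
    exact (RM M).zero_mem

end dv

section hat

variable {M : Ideal (integralClosure ℤ ℂ)} [M.IsMaximal] {G : Type} [Group G] [Finite G]

theorem hat_mem {X : Subgroup G} {b : G → FF M} (hb : Ix X b) (x : G) : hat M X b x ∈ RM M := by
  unfold hat
  by_cases hx : x ∈ X
  · rw [H75.ext0, dif_pos hx]
    exact ((KF.H25.idm M X _ hb.idem).1 _).1
  · rw [ext0_supp X _ x hx]
    exact (RM M).zero_mem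

theorem gv_eq_fv (C : Subgroup G) (k : G) (b : G → FF M) (θ : G → ℂ) :
    gv M C k b θ = T8.fv (hat M C b) k θ := by
  unfold gv gbv T8.fv hat
  rw [← finsum_mem_univ (f := fun g => H75.ext0 C (eh M fun t : C => b t) g * θ (k * g))]
  have h1 : ∑ᶠ (g : G) (_ : g ∈ Set.univ), H75.ext0 C (eh M fun t : C => b t) g * θ (k * g) =
      ∑ᶠ (g : G) (_ : g ∈ Set.range (Subtype.val : C → G)),
        H75.ext0 C (eh M fun t : C => b t) g * θ (k * g) := by
    apply finsum_mem_inter_support_eq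
    ext g
    simp only [Set.mem_inter_iff, Set.mem_univ, true_and, Function.mem_support]
    constructor
    · intro h
      refine ⟨?_, h⟩
      by_contra h2
      apply h
      rw [ext0_supp C _ g (fun h3 => h2 ⟨⟨g, h3⟩, rfl⟩), zero_mul]
    · exact fun h => h.2
  rw [h1, finsum_mem_range Subtype.val_injective]
  apply finsum_congr
  intro c
  rw [ext0_apply]

end hat

end Pool.Agent.PP.T6.H66
end
end -- Pool.Agent.Helper66_AT6.Tools

section -- Pool.Agent.Helper69_AT6.SVV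

/-!
# Squad AT6, row SVV: properties of the section components
-/

open scoped BigOperators

noncomputable section

namespace Pool.Agent.PP.T6.H69

open Pool.Agent.Helper51_AWC Pool.Agent.Helper79_WRA Pool.Agent.PP Pool.Agent.PP.KF
open Pool.Agent.PP.K9 Pool.Agent.PP.K9.H97 Pool.Agent.PP.H75 Pool.Agent.PP.T3 Pool.Agent.PP.T2

attribute [local instance] Ideal.Quotient.field

section lp

variable {G : Type} [Group G] {ℓ : ℕ}

/-- the `ℓ`-part is unique -/
theorem lp_unique [Finite G] [Fact ℓ.Prime] {g u u' : G} (h : T5.Lp ℓ g u) (h' : T5.Lp ℓ g u') :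
    u = u' := by
  obtain ⟨N, -, hN⟩ := H27.prt ℓ G
  have key : ∀ {w : G}, T5.Lp ℓ g w → g ^ N = w⁻¹ * g := by
    intro w hw
    have hc : Commute (w⁻¹ * g) w := by
      have := hw.com
      exact (((Commute.refl w).inv_right).mul_right this).symm
    have h1 := hN (w⁻¹ * g) w hc hw.reg hw.el
    rw [← h1, hc.eq]
    congr 1
    group
  have h2 := (key h).symm.trans (key h')
  exact inv_injective (mul_right_cancel h2)

theorem el_conj {y t : G} (h : El ℓ y) : El ℓ (t * y * t⁻¹) := by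
  obtain ⟨n, hn⟩ := h
  exact ⟨n, by rw [conj_pow, hn]; group⟩

theorem reg_conj {y t : G} (h : Reg ℓ y) : Reg ℓ (t * y * t⁻¹) := by
  unfold Reg at h ⊢
  have : orderOf (t * y * t⁻¹) = orderOf y := by
    have h1 := orderOf_injective (MulAut.conj t).toMonoidHom (MulAut.conj t).injective y
    simpa using h1
  rwa [this]

theorem lp_conj {g v : G} (t : G) (h : T5.Lp ℓ g v) : T5.Lp ℓ (t * g * t⁻¹) (t * v * t⁻¹) := by
  refine ⟨el_conj h.el, ?_, ?_⟩
  · have h1 : v * g = g * v := h.com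
    change t * v * t⁻¹ * (t * g * t⁻¹) = t * g * t⁻¹ * (t * v * t⁻¹)
    calc t * v * t⁻¹ * (t * g * t⁻¹) = t * (v * g) * t⁻¹ := by group
      _ = t * (g * v) * t⁻¹ := by rw [h1]
      _ = t * g * t⁻¹ * (t * v * t⁻¹) := by group
  · have h1 : (t * v * t⁻¹)⁻¹ * (t * g * t⁻¹) = t * (v⁻¹ * g) * t⁻¹ := by group
    rw [h1]
    exact reg_conj h.reg

theorem lp_conj_iff {g v : G} (t : G) :
    T5.Lp ℓ (t * g * t⁻¹) (t * v * t⁻¹) ↔ T5.Lp ℓ g v := by
  refine ⟨fun h => ?_, lp_conj t⟩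
  have h1 := lp_conj t⁻¹ h
  have e1 : t⁻¹ * (t * g * t⁻¹) * t⁻¹⁻¹ = g := by group
  have e2 : t⁻¹ * (t * v * t⁻¹) * t⁻¹⁻¹ = v := by group
  rwa [e1, e2] at h1

end lp

section gvc

variable {M : Ideal (integralClosure ℤ ℂ)} [M.IsMaximal] {G : Type} [Group G] [Finite G]

/-- conjugation -/
theorem gv_cj {v : G} {b : G → FF M} (hb : Ix (Cu v) b) {θ : G → ℂ}
    (hθ : ∀ x y, θ (y * x * y⁻¹) = θ x) (t k : G) :
    gv M (Cu (t * v * t⁻¹)) (t * k * t⁻¹) (cj t b) θ = gv M (Cu v) k b θ := by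
  let φ := T3.H62.cjE (u := t * v * t⁻¹) (u' := v) (x := t) rfl
  change (∑ᶠ c : Cu (t * v * t⁻¹), eh M (fun s : Cu (t * v * t⁻¹) => cj t b s) c *
      θ (t * k * t⁻¹ * c)) = ∑ᶠ c : Cu v, eh M (fun s : Cu v => b s) c * θ (k * c)
  rw [← finsum_comp_equiv φ.toEquiv]
  refine finsum_congr fun c => ?_
  have h1 := T3.H62.eh_equiv (M := M) φ hb.idem.1 c
  have h2 : (fun y : Cu (t * v * t⁻¹) => b ((φ.symm y : Cu v) : G)) =
      fun s : Cu (t * v * t⁻¹) => cj t b s := rfl
  rw [h2] at h1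
  change eh M (fun s : Cu (t * v * t⁻¹) => cj t b s) (φ c) * θ (t * k * t⁻¹ * (t * c * t⁻¹)) = _
  rw [h1]
  congr 1
  have h3 : t * k * t⁻¹ * (t * (c : G) * t⁻¹) = t * (k * c) * t⁻¹ := by group
  rw [h3, hθ]

theorem gv_cj_mem {v : G} {b : G → FF M} (hb : Ix (Cu v) b) {θ : G → ℂ}
    (hθ : ∀ x y, θ (y * x * y⁻¹) = θ x) {c : G} (hc : c ∈ Cu v) (k : G) :
    gv M (Cu v) (c * k * c⁻¹) b θ = gv M (Cu v) k b θ := by
  have h1 := gv_cj hb hθ c k
  have h2 : c * v * c⁻¹ = v := by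
    have : c * v = v * c := T3.H62.comm_Cu hc
    rw [this]
    group
  rw [h2, hb.inv hc] at h1
  exact h1

end gvc

/-- SVV: properties of the section components. -/
theorem svv : SvvStmt := by
  classical
  intro ℓ hℓ M _ hM G _ _ v b hb θ hθ
  have := Fintype.ofFinite G
  have P1 : ∀ g u : G, T5.Lp ℓ (u⁻¹ * g * u) v →
      sv M ℓ v b θ g = gv M (Cu v) (u⁻¹ * g * u) b θ := by
    intro g u hu
    unfold sv
    rw [← finsum_comp_equiv (Equiv.mulLeft u)]
    have h1 : ∀ c : G, (∑ᶠ (_ : T5.Lp ℓ (((Equiv.mulLeft u) c)⁻¹ * g * (Equiv.mulLeft u) c) v),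
        gv M (Cu v) (((Equiv.mulLeft u) c)⁻¹ * g * (Equiv.mulLeft u) c) b θ) =
        if c ∈ Cu v then gv M (Cu v) (u⁻¹ * g * u) b θ else 0 := by
      intro c
      have e1 : ((Equiv.mulLeft u) c)⁻¹ * g * (Equiv.mulLeft u) c =
          c⁻¹ * (u⁻¹ * g * u) * c⁻¹⁻¹ := by
        simp only [Equiv.coe_mulLeft]
        group
      rw [e1]
      by_cases hc : c ∈ Cu v
      · rw [if_pos hc]
        have h2 : T5.Lp ℓ (c⁻¹ * (u⁻¹ * g * u) * c⁻¹⁻¹) v := by
          have h3 := lp_conj c⁻¹ hu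
          have h4 : c⁻¹ * v * c⁻¹⁻¹ = v := by
            have : c * v = v * c := T3.H62.comm_Cu hc
            rw [inv_inv, mul_assoc, ← this]
            group
          rwa [h4] at h3
        rw [finsum_eq_if, if_pos h2]
        exact gv_cj_mem hb hθ (inv_mem hc) _
      · rw [if_neg hc, finsum_eq_if, if_neg]
        intro h2
        apply hc
        have h3 := (lp_conj_iff (g := u⁻¹ * g * u) (v := c * v * c⁻¹) c⁻¹).1 (by
          have h4 : c⁻¹ * (c * v * c⁻¹) * c⁻¹⁻¹ = v := by group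
          rwa [h4])
        have h4 := lp_unique hu h3
        rw [Subgroup.mem_centralizer_singleton_iff]
        have h5 : v * c = c * v * c⁻¹ * c := by rw [← h4]
        rw [h5]
        group
    rw [finsum_congr h1, finsum_eq_sum_of_fintype, Finset.sum_ite, Finset.sum_const_zero, add_zero,
      Finset.sum_const, nsmul_eq_mul, ← mul_assoc]
    have h2 : (Finset.univ.filter fun c : G => c ∈ Cu v).card = Nat.card (Cu v) := by
      rw [Nat.card_eq_fintype_card, Fintype.card_subtype]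
    rw [h2, inv_mul_cancel₀, one_mul]
    have : 0 < Nat.card (Cu v) := Nat.card_pos
    exact_mod_cast this.ne'
  have P2 : ∀ g : G, (∀ u : G, ¬ T5.Lp ℓ (u⁻¹ * g * u) v) → sv M ℓ v b θ g = 0 := by
    intro g hg
    unfold sv
    have h1 : ∀ u : G, (∑ᶠ (_ : T5.Lp ℓ (u⁻¹ * g * u) v), gv M (Cu v) (u⁻¹ * g * u) b θ) = 0 := by
      intro u
      rw [finsum_eq_if, if_neg (hg u)]
    rw [finsum_congr h1, finsum_zero, mul_zero]
  refine ⟨P1, P2, ?_, ?_, ?_⟩
  · intro x y
    unfold sv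
    congr 1
    rw [← finsum_comp_equiv (Equiv.mulLeft y)]
    refine finsum_congr fun u => ?_
    have e1 : ((Equiv.mulLeft y) u)⁻¹ * (y * x * y⁻¹) * (Equiv.mulLeft y) u = u⁻¹ * x * u := by
      simp only [Equiv.coe_mulLeft]
      group
    rw [e1]
  · intro hr x
    by_cases hx : ∃ u : G, T5.Lp ℓ (u⁻¹ * x * u) v
    · obtain ⟨u, hu⟩ := hx
      rw [P1 x u hu, H66.gv_eq_fv]
      exact H66.rm_finsum _ fun g => (RM M).mul_mem (H66.hat_mem hb g) (hr _)
    · rw [P2 x (fun u hu => hx ⟨u, hu⟩)]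
      exact (RM M).zero_mem
  · intro t g
    unfold sv
    have hcard : Nat.card (Cu (t * v * t⁻¹)) = Nat.card (Cu v) :=
      (Nat.card_congr (T3.H62.cjE (u := t * v * t⁻¹) (u' := v) (x := t) rfl).toEquiv).symm
    rw [hcard]
    congr 1
    rw [← finsum_comp_equiv (Equiv.mulRight t) (f := fun u : G =>
      ∑ᶠ (_ : T5.Lp ℓ (u⁻¹ * g * u) v), gv M (Cu v) (u⁻¹ * g * u) b θ)]
    refine finsum_congr fun u => ?_
    have e1 : u⁻¹ * g * u = t * (((Equiv.mulRight t) u)⁻¹ * g * (Equiv.mulRight t) u) * t⁻¹ := by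
      simp only [Equiv.coe_mulRight]
      group
    rw [e1]
    refine finsum_congr_Prop (propext (lp_conj_iff t)) fun _ => ?_
    exact gv_cj hb hθ t _

end Pool.Agent.PP.T6.H69
end
end -- Pool.Agent.Helper69_AT6.SVV

section -- Pool.Agent.Helper66_AT6.TRN

/-!
# Squad AT6, row TRN: translation by a central element
-/

open scoped BigOperators

noncomputable section

namespace Pool.Agent.PP.T6.H66

open Pool.Agent.Helper51_AWC Pool.Agent.Helper79_WRA Pool.Agent.PP Pool.Agent.PP.KF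
open Pool.Agent.PP.K9 Pool.Agent.PP.K9.H97 Pool.Agent.PP.H75 Pool.Agent.PP.T3 Pool.Agent.PP.T2

attribute [local instance] Ideal.Quotient.field

section el

variable {G : Type} [Group G] {ℓ : ℕ}

theorem el_mul {x y : G} (hx : El ℓ x) (hy : El ℓ y) (h : Commute x y) : El ℓ (x * y) := by
  obtain ⟨n, hn⟩ := hx
  obtain ⟨m, hm⟩ := hy
  refine ⟨n + m, ?_⟩
  rw [h.mul_pow, pow_add, pow_mul, hn, one_pow, one_mul, mul_comm (ℓ ^ n), pow_mul, hm, one_pow]

theorem el_inv {x : G} (hx : El ℓ x) : El ℓ x⁻¹ := by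
  obtain ⟨n, hn⟩ := hx
  exact ⟨n, by rw [inv_pow, hn, inv_one]⟩

theorem el_pow {x : G} (hx : El ℓ x) (k : ℕ) : El ℓ (x ^ k) := by
  obtain ⟨n, hn⟩ := hx
  exact ⟨n, by rw [← pow_mul, mul_comm, pow_mul, hn, one_pow]⟩

theorem lp_mul_central {g v z : G} (hz : El ℓ z) (hc : z ∈ Subgroup.center G)
    (h : T5.Lp ℓ g v) : T5.Lp ℓ (g * z) (v * z) := by
  have hz' : ∀ x : G, Commute z x := fun x => ((Subgroup.mem_center_iff.1 hc x).symm)
  refine ⟨el_mul h.el hz (hz' v).symm, ?_, ?_⟩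
  · exact ((h.com.mul_right (hz' v).symm).mul_left ((hz' g).mul_right (Commute.refl z)))
  · have e : (v * z)⁻¹ * (g * z) = v⁻¹ * g := by
      rw [← (hz' v).eq]
      have : (z * v)⁻¹ * (g * z) = v⁻¹ * (z⁻¹ * g * z) := by group
      rw [this]
      congr 1
      rw [mul_assoc, ← (hz' g).eq]
      group
    rw [e]
    exact h.reg

end el

theorem trn (svv : SvvStmt) (cnb : CnbStmt) : TrnStmt := by
  intro ℓ _ M _ hℓ G _ _ θ θ' hθ hθ' w hw hwc c v b hb y hy S hS
  classical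
  have := Fintype.ofFinite G
  set z : G := w ^ ℓ ^ (c + 1) with hzdef
  have hz : El ℓ z := el_pow hw _
  have hzc : z ∈ Subgroup.center G := (Subgroup.center G).pow_mem hwc _
  have hzx : ∀ x : G, z * x = x * z := fun x => (Subgroup.mem_center_iff.1 hzc x).symm
  have hwx : ∀ x : G, w * x = x * w := fun x => (Subgroup.mem_center_iff.1 hwc x).symm
  have hCu : Cu (v * z) = Cu v := by
    ext x
    rw [Subgroup.mem_centralizer_singleton_iff, Subgroup.mem_centralizer_singleton_iff]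
    constructor
    · intro h
      have h2 : x * v * z = v * x * z := by
        rw [mul_assoc, h, mul_assoc v z x, hzx, ← mul_assoc]
      exact mul_right_cancel h2
    · intro h
      rw [← mul_assoc, h, mul_assoc, ← hzx, ← mul_assoc]
  have hb' : Ix (Cu (v * z)) b := by rw [hCu]; exact hb
  obtain ⟨s1, s2, _, s4, _⟩ := svv ℓ M hℓ G v b hb θ hθ.cl
  obtain ⟨t1, t2, _, t4, _⟩ := svv ℓ M hℓ G (v * z) b hb' θ hθ.cl
  -- the section components
  have key1 : ∀ h : G, Dv M ((ℓ : ℂ) ^ c) (sv M ℓ (v * z) b θ (h * z) - sv M ℓ v b θ h) := by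
    intro h
    by_cases hu : ∃ u : G, T5.Lp ℓ (u⁻¹ * h * u) v
    · obtain ⟨u, hu⟩ := hu
      have e1 : u⁻¹ * (h * z) * u = u⁻¹ * h * u * z := by
        rw [← mul_assoc, mul_assoc _ z u, hzx u, ← mul_assoc]
      rw [s1 h u hu, t1 (h * z) u (by rw [e1]; exact lp_mul_central hz hzc hu), e1, hCu,
        gv_eq_fv, gv_eq_fv]
      exact cnb ℓ M G θ hθ (hat M (Cu v) b) (hat_mem hb) w _ hw (hwx _)
        (fun x => by rw [hwx x, mul_inv_cancel_right]) c
    · rw [s2 h (fun u hu' => hu ⟨u, hu'⟩), t2 (h * z), sub_zero]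
      · exact dv_zero
      · intro u hu'
        apply hu
        refine ⟨u, ?_⟩
        have e1 : u⁻¹ * (h * z) * u = u⁻¹ * h * u * z := by
          rw [← mul_assoc, mul_assoc _ z u, hzx u, ← mul_assoc]
        rw [e1] at hu'
        have h3 := lp_mul_central (el_inv hz) ((Subgroup.center G).inv_mem hzc) hu'
        rwa [mul_inv_cancel_right, mul_inv_cancel_right] at h3
  have key2 : ∀ h : G, Dv M ((ℓ : ℂ) ^ c) (T8.fv y (h * z)⁻¹ θ' - T8.fv y h⁻¹ θ') := by
    intro h
    have e1 : (h * z)⁻¹ = h⁻¹ * w⁻¹ ^ ℓ ^ (c + 1) := by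
      rw [← hzx h, mul_inv_rev, hzdef, inv_pow]
    rw [e1]
    exact cnb ℓ M G θ' hθ' y hy w⁻¹ h⁻¹ (el_inv hw)
      (by rw [← mul_inv_rev, ← mul_inv_rev, hwx])
      (fun x => by
        have : w⁻¹ * x * w⁻¹⁻¹ = x := by
          rw [inv_inv, mul_assoc, ← hwx x, ← mul_assoc, inv_mul_cancel, one_mul]
        rw [this]) c
  have hfv : ∀ k : G, T8.fv y k θ' ∈ RM M :=
    fun k => rm_finsum _ (fun x => (RM M).mul_mem (hy x) (hθ'.rm _))
  have hsv : ∀ x, sv M ℓ (v * z) b θ x ∈ RM M := t4 hθ.rm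
  -- change of variables
  have hsum : ∑ᶠ (h : G) (_ : h ∈ S), sv M ℓ (v * z) b θ h * T8.fv y h⁻¹ θ' =
      ∑ᶠ (h : G) (_ : h ∈ S), sv M ℓ (v * z) b θ (h * z) * T8.fv y (h * z)⁻¹ θ' := by
    rw [finsum_mem_def, finsum_mem_def, finsum_eq_sum_of_fintype, finsum_eq_sum_of_fintype]
    symm
    apply Fintype.sum_equiv (Equiv.mulRight z)
    intro h
    simp only [Set.indicator, Equiv.coe_mulRight]
    by_cases hh : h ∈ S
    · rw [if_pos hh, if_pos ((hS h).1 hh)]
    · rw [if_neg hh, if_neg (fun h2 => hh ((hS h).2 h2))]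
  rw [hsum, finsum_mem_def, finsum_mem_def, finsum_eq_sum_of_fintype, finsum_eq_sum_of_fintype,
    ← Finset.sum_sub_distrib]
  apply dv_sum
  intro h _
  simp only [Set.indicator]
  by_cases hh : h ∈ S
  · rw [if_pos hh, if_pos hh]
    exact dv_mul_sub (hsv _) (hfv _) (key1 h) (key2 h)
  · rw [if_neg hh, if_neg hh, sub_zero]
    exact dv_zero

end Pool.Agent.PP.T6.H66
end
end -- Pool.Agent.Helper66_AT6.TRN

section -- Pool.Agent.Helper69_AT6.DIV

/-!
# Squad AT6, row DIV: idempotents whose residue vanishes on the centraliser of `D ^ (ℓ ^ c)`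
-/

open scoped BigOperators

noncomputable section

namespace Pool.Agent.PP.T6.H69

open Pool.Agent.Helper51_AWC Pool.Agent.Helper79_WRA Pool.Agent.PP Pool.Agent.PP.KF
open Pool.Agent.PP.K9 Pool.Agent.PP.K9.H97 Pool.Agent.PP.H75 Pool.Agent.PP.T3 Pool.Agent.PP.T2

attribute [local instance] Ideal.Quotient.field

section fvm

variable {G : Type} [Group G] [Fintype G]

theorem mulF_sum (p r : G → ℂ) (x : G) : mulF p r x = ∑ t, p t * r (t⁻¹ * x) :=
  finsum_eq_sum_of_fintype _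

theorem fv_sum (r : G → ℂ) (z : G) (θ : G → ℂ) : T8.fv r z θ = ∑ x, r x * θ (z * x) :=
  finsum_eq_sum_of_fintype _

/-- the value at a product -/
theorem fv_mul (p r : G → ℂ) (z : G) (θ : G → ℂ) :
    T8.fv (mulF p r) z θ = ∑ t, p t * T8.fv r (z * t) θ := by
  rw [fv_sum]
  have h1 : ∀ y, mulF p r y * θ (z * y) = ∑ t, p t * r (t⁻¹ * y) * θ (z * y) := by
    intro y
    rw [mulF_sum, Finset.sum_mul]
  rw [Finset.sum_congr rfl fun y _ => h1 y, Finset.sum_comm]
  refine Finset.sum_congr rfl fun t _ => ?_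
  rw [fv_sum, ← Equiv.sum_comp (Equiv.mulLeft t), Finset.mul_sum]
  refine Finset.sum_congr rfl fun x _ => ?_
  simp only [Equiv.coe_mulLeft, inv_mul_cancel_left]
  rw [mul_assoc z t x]
  ring

theorem fv_add (p r : G → ℂ) (z : G) (θ : G → ℂ) :
    T8.fv (p + r) z θ = T8.fv p z θ + T8.fv r z θ := by
  rw [fv_sum, fv_sum, fv_sum, ← Finset.sum_add_distrib]
  refine Finset.sum_congr rfl fun x _ => ?_
  rw [Pi.add_apply]
  ring

theorem fv_conj {q θ : G → ℂ} {d : G} (hq : ∀ x, q (d * x * d⁻¹) = q x)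
    (hθ : ∀ x y, θ (y * x * y⁻¹) = θ x) (k : G) :
    T8.fv q (d * k * d⁻¹) θ = T8.fv q k θ := by
  rw [fv_sum, fv_sum, ← Equiv.sum_comp (MulAut.conj d).toEquiv]
  refine Finset.sum_congr rfl fun x _ => ?_
  have e1 : (MulAut.conj d).toEquiv x = d * x * d⁻¹ := rfl
  rw [e1, hq]
  congr 1
  have e2 : d * k * d⁻¹ * (d * x * d⁻¹) = d * (k * x) * d⁻¹ := by group
  rw [e2, hθ]

/-- invariance under the elements of `D` -/
def Iv (D : Subgroup G) (q : G → ℂ) : Prop := ∀ d ∈ D, ∀ x, q (d * x * d⁻¹) = q x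

theorem iv_mul {D : Subgroup G} {p q : G → ℂ} (hp : Iv D p) (hq : Iv D q) : Iv D (mulF p q) := by
  intro d hd x
  rw [mulF_sum, mulF_sum, ← Equiv.sum_comp (MulAut.conj d).toEquiv]
  refine Finset.sum_congr rfl fun t _ => ?_
  have e1 : (MulAut.conj d).toEquiv t = d * t * d⁻¹ := rfl
  rw [e1, hp d hd]
  congr 1
  have e2 : (d * t * d⁻¹)⁻¹ * (d * x * d⁻¹) = d * (t⁻¹ * x) * d⁻¹ := by group
  rw [e2, hq d hd]

theorem rm_mul {M : Ideal (integralClosure ℤ ℂ)} [M.IsMaximal] {p q : G → ℂ}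
    (hp : ∀ x, p x ∈ RM M) (hq : ∀ x, q x ∈ RM M) (x : G) : mulF p q x ∈ RM M := by
  rw [mulF_sum]
  exact (RM M).sum_mem fun t _ => (RM M).mul_mem (hp _) (hq _)

end fvm

/-- DIV: idempotents whose residue vanishes on the centraliser of `D ^ (ℓ ^ c)`. -/
theorem div (hP : PwnStmt) (hO : Or6Stmt) : DivStmt := by
  classical
  intro ℓ hℓ M _ hM G _ _ D hDp hDab c J hJr hJJ hJD hJ0 θ hθ hθr g hg
  have := Fintype.ofFinite G
  set C : Subgroup G := Subgroup.centralizer (Uw (ℓ ^ c) D : Set G) with hC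
  -- `D` normalises `C`
  have hUD : Uw (ℓ ^ c) D ≤ D := by
    unfold Uw
    rw [Subgroup.closure_le]
    rintro _ ⟨x, hx, rfl⟩
    exact D.pow_mem hx _
  have hCD : ∀ d ∈ D, ∀ x, x ∈ C → d * x * d⁻¹ ∈ C := by
    intro d hd x hx
    rw [hC, Subgroup.mem_centralizer_iff] at hx ⊢
    intro w hw
    have h1 : w * d = d * w := hDab w (hUD hw) d hd
    have h2 : w * x = x * w := hx w hw
    have h3 : w * d⁻¹ = d⁻¹ * w := hDab w (hUD hw) d⁻¹ (D.inv_mem hd)
    calc w * (d * x * d⁻¹) = (w * d) * x * d⁻¹ := by group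
      _ = d * (w * x) * d⁻¹ := by rw [h1]; group
      _ = d * x * (w * d⁻¹) := by rw [h2]; group
      _ = d * x * d⁻¹ * w := by rw [h3]; group
  have hCD' : ∀ d ∈ D, ∀ x, d * x * d⁻¹ ∈ C ↔ x ∈ C := by
    intro d hd x
    refine ⟨fun h => ?_, hCD d hd x⟩
    have h1 := hCD d⁻¹ (D.inv_mem hd) _ h
    have h2 : d⁻¹ * (d * x * d⁻¹) * d⁻¹⁻¹ = x := by group
    rwa [h2] at h1
  -- the two parts
  set b : G → ℂ := fun x => if x ∈ C then J x else 0 with hb
  set a : G → ℂ := fun x => if x ∈ C then 0 else J x with ha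
  have hab : J = b + a := by
    funext x
    rw [Pi.add_apply, hb, ha]
    by_cases hx : x ∈ C
    · simp [hx]
    · simp [hx]
  have hbr : ∀ x, b x ∈ RM M := by
    intro x
    rw [hb]
    by_cases hx : x ∈ C
    · simp only [hx, if_true]
      exact hJr x
    · simp only [hx, if_false]
      exact (RM M).zero_mem
  have har : ∀ x, a x ∈ RM M := by
    intro x
    rw [ha]
    by_cases hx : x ∈ C
    · simp only [hx, if_true]
      exact (RM M).zero_mem
    · simp only [hx, if_false]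
      exact hJr x
  have hbI : Iv D b := by
    intro d hd x
    simp only [hb, hCD' d hd x, hJD d hd x]
  have haI : Iv D a := by
    intro d hd x
    simp only [ha, hCD' d hd x, hJD d hd x]
  have hJI : Iv D J := hJD
  have hb0 : ∀ x, rr M (b x) = 0 := by
    intro x
    rw [hb]
    by_cases hx : x ∈ C
    · simp only [hx, if_true]
      exact hJ0 x hx
    · simp only [hx, if_false]
      exact rr_zero
  -- the key divisibility
  have key : ∀ p q : G → ℂ, (∀ x, p x ∈ RM M) → (∀ x, q x ∈ RM M) → Iv D p → Iv D q →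
      Dv M ((ℓ : ℂ) ^ c) (T8.fv (mulF p (mulF a q)) g θ) := by
    intro p q hp hq hpI hqI
    have h1 : T8.fv (mulF p (mulF a q)) g θ =
        ∑ x, a x * ∑ t, p t * T8.fv q (g * t * x) θ := by
      rw [fv_mul]
      have h2 : ∀ t, p t * T8.fv (mulF a q) (g * t) θ =
          ∑ x, a x * (p t * T8.fv q (g * t * x) θ) := by
        intro t
        rw [fv_mul, Finset.mul_sum]
        refine Finset.sum_congr rfl fun x _ => ?_
        ring
      rw [Finset.sum_congr rfl fun t _ => h2 t, Finset.sum_comm]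
      refine Finset.sum_congr rfl fun x _ => ?_
      rw [Finset.mul_sum]
    set F : G → ℂ := fun x => a x * ∑ t, p t * T8.fv q (g * t * x) θ with hF
    have hFI : ∀ d ∈ D, ∀ x, F (d * x * d⁻¹) = F x := by
      intro d hd x
      rw [hF]
      simp only []
      rw [haI d hd]
      congr 1
      rw [← Equiv.sum_comp (MulAut.conj d).toEquiv]
      refine Finset.sum_congr rfl fun t _ => ?_
      have e1 : (MulAut.conj d).toEquiv t = d * t * d⁻¹ := rfl
      rw [e1, hpI d hd]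
      congr 1
      have h3 : g * d = d * g := ((Subgroup.mem_centralizer_iff.1 hg) d hd).symm
      have e2 : g * (d * t * d⁻¹) * (d * x * d⁻¹) = d * (g * t * x) * d⁻¹ := by
        calc g * (d * t * d⁻¹) * (d * x * d⁻¹) = (g * d) * t * x * d⁻¹ := by group
          _ = d * (g * t * x) * d⁻¹ := by rw [h3]; group
      rw [e2]
      exact fv_conj (hqI d hd) hθ _
    have hFr : ∀ x, F x ∈ RM M := by
      intro x
      refine (RM M).mul_mem (har x) ((RM M).sum_mem fun t _ => (RM M).mul_mem (hp t) ?_)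
      rw [fv_sum]
      exact (RM M).sum_mem fun y _ => (RM M).mul_mem (hq y) (hθr _)
    have h3 := hO ℓ M G D hDp hDab c {x | x ∉ C} (fun d hd x hx h => hx ((hCD' d hd x).1 h))
      (fun x hx => hx) F hFr hFI
    have h4 : ∑ᶠ (x : G) (_ : x ∈ {x | x ∉ C}), F x = ∑ x, F x := by
      rw [finsum_eq_sum_of_fintype]
      refine Finset.sum_congr rfl fun x _ => ?_
      by_cases hx : x ∈ C
      · rw [finsum_eq_if, if_neg (fun h => h hx)]
        rw [hF]
        simp only [ha, hx, if_true, zero_mul]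
      · rw [finsum_eq_if, if_pos (show x ∈ {x | x ∉ C} from hx)]
    rw [h4] at h3
    rw [h1]
    exact h3
  -- the telescope
  have hone : ∀ x : G, dl ℂ (1 : G) x ∈ RM M := by
    intro x
    by_cases hx : x = 1
    · have : dl ℂ (1 : G) x = 1 := by simp [dl, hx]
      rw [this]
      exact (RM M).one_mem
    · have : dl ℂ (1 : G) x = 0 := by simp [dl, hx]
      rw [this]
      exact (RM M).zero_mem
  have honeI : Iv D (dl ℂ (1 : G)) := by
    intro d _ x
    have : d * x * d⁻¹ = 1 ↔ x = 1 := by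
      constructor
      · intro h
        have h2 : d⁻¹ * (d * x * d⁻¹) * d = d⁻¹ * 1 * d := by rw [h]
        have h3 : d⁻¹ * (d * x * d⁻¹) * d = x := by group
        rw [h3] at h2
        rw [h2]
        group
      · intro h
        rw [h]
        group
    simp [dl, this]
  have tel : ∀ n : ℕ, ∀ p : G → ℂ, (∀ x, p x ∈ RM M) → Iv D p →
      Dv M ((ℓ : ℂ) ^ c) (T8.fv (mulF p (J - T8.pw b (n + 1))) g θ) := by
    intro n
    induction n with
    | zero =>
      intro p hp hpI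
      have e1 : J - T8.pw b (0 + 1) = mulF a (dl ℂ (1 : G)) := by
        have e2 : T8.pw b (0 + 1) = b := by
          change mulF b (T8.pw b 0) = b
          have e3 : T8.pw b 0 = dl ℂ (1 : G) := by
            funext x
            simp [T8.pw, dl]
          rw [e3, H46.mulF_one]
        rw [e2, H46.mulF_one, hab]
        funext x
        simp
      rw [e1]
      exact key p _ hp hone hpI honeI
    | succ n ih =>
      intro p hp hpI
      have e1 : J - T8.pw b (n + 1 + 1) = mulF a J + mulF b (J - T8.pw b (n + 1)) := by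
        have e2 : T8.pw b (n + 1 + 1) = mulF b (T8.pw b (n + 1)) := rfl
        have e3 : mulF a J = J - mulF b J := by
          have e4 : a = J - b := by
            rw [hab]
            funext x
            simp
          rw [e4, H20.sub_mulF, hJJ]
        rw [e2, H20.mulF_sub, e3]
        funext x
        simp
      rw [e1, H20.mulF_add, fv_add, ← H20.mulF_assoc p b]
      exact H66.dv_add (key p J hp hJr hpI hJI)
        (ih (mulF p b) (rm_mul hp hbr) (iv_mul hpI hbI))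
  obtain ⟨n, hn⟩ := hP ℓ M hM G b hbr hb0 c
  have hn' : ∀ x, Dv M ((ℓ : ℂ) ^ c) (T8.pw b (n + 1) x) := by
    intro x
    change Dv M _ (mulF b (T8.pw b n) x)
    rw [mulF_sum]
    exact H66.dv_sum _ _ fun t _ => H66.dv_mul_left (hbr t) (hn _)
  have h1 := tel n (dl ℂ (1 : G)) hone honeI
  rw [H46.one_mulF] at h1
  have h2 : J = (J - T8.pw b (n + 1)) + T8.pw b (n + 1) := by
    funext x
    simp
  rw [h2, fv_add]
  refine H66.dv_add h1 ?_
  rw [fv_sum]
  exact H66.dv_sum _ _ fun x _ => H66.dv_mul_right (hn' x) (hθr _)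

end Pool.Agent.PP.T6.H69
end
end -- Pool.Agent.Helper69_AT6.DIV

section -- Pool.Agent.Helper81_AT6.PGR

/-!
# Squad AT6, row PGR: coordinates of the functions `s ↦ gv M (Cu v) (w s) b χ`
-/

open scoped BigOperators

noncomputable section

namespace Pool.Agent.PP.T6.H81

open Pool.Agent.Helper51_AWC Pool.Agent.Helper79_WRA Pool.Agent.PP Pool.Agent.PP.KF
open Pool.Agent.PP.K9 Pool.Agent.PP.K9.H97 Pool.Agent.PP.H75 Pool.Agent.PP.T3 Pool.Agent.PP.T2

attribute [local instance] Ideal.Quotient.field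

/-- a sum over the regular elements of a subgroup -/
theorem sum_reg {G : Type} [Group G] [Finite G] (ℓ : ℕ) (C : Subgroup G) (F : G → ℂ) :
    ∑ᶠ (s : G) (_ : s ∈ C ∧ Reg ℓ s), F s = ∑ᶠ (s : C) (_ : Reg ℓ s), F s := by
  classical
  have := Fintype.ofFinite C
  have h4 : ∑ᶠ (c : G) (_ : c ∈ C ∧ Reg ℓ c), F c =
      ∑ᶠ c : G, (if c ∈ C ∧ Reg ℓ c then F c else 0) :=
    finsum_congr fun c => finsum_eq_if
  have h5 : ∑ᶠ (c : C) (_ : Reg ℓ c), F c =
      ∑ᶠ c : C, (if Reg ℓ c then F c else 0) :=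
    finsum_congr fun c => finsum_eq_if
  rw [h4, h5, H75.sum_sub C _ (fun x hx => if_neg fun h => hx h.1)]
  refine finsum_congr fun c => ?_
  have h6 : Reg ℓ (c : G) ↔ Reg ℓ c := by
    unfold Reg
    rw [Subgroup.orderOf_coe]
  by_cases hc : Reg ℓ c
  · rw [if_pos hc, if_pos ⟨c.2, h6.2 hc⟩]
  · rw [if_neg hc, if_neg fun h => hc (h6.1 h.2)]

theorem pgr (dim : DimStmt) : PgrStmt := by
  intro ℓ hℓ M _ hM G _ _ v b hb
  classical
  have := Fintype.ofFinite G
  have := Fintype.ofFinite (Cu v)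
  set C : Subgroup G := Cu v with hC
  set b' : C → FF M := fun t => b t with hb'
  obtain ⟨Q, hQ1, hQ2⟩ := dim ℓ M hM C b' hb.idem
  refine ⟨fun i => H75.ext0 C (Q i), ?_, ?_⟩
  · intro i k
    rw [sum_reg ℓ C (fun s => H75.ext0 C (Q i) s * starRingEnd ℂ (H75.ext0 C (Q k) s))]
    have h1 := hQ1 i k
    unfold T5.rip at h1
    rw [← h1]
    congr 1
    refine finsum_congr fun s => finsum_congr fun _ => ?_
    rw [ext0_apply, ext0_apply]
  · intro w hw χ hχ
    set S := (K9.H25.irrE_finite M b').toFinset with hS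
    have hmem : ∀ κ, κ ∈ S ↔ κ ∈ IrrE M b' := fun κ => Set.Finite.mem_toFinset _
    -- the coefficients
    set a : (C → ℂ) → ℂ := fun κ => (Nat.card C : ℂ)⁻¹ *
      ∑ᶠ (c : G) (_ : c ∈ C ∧ Reg ℓ c), starRingEnd ℂ (H75.ext0 C κ c) * χ (w * c) with ha
    have h1 : ∀ s : C, Reg ℓ s → gv M C (w * s) b χ = ∑ κ ∈ S, a κ * κ s := by
      intro s hs
      rw [T5.H45.ker ℓ M hM G v w hw b hb s s.2 (T3.H62.reg_coe hs) χ hχ]
      have h2 : ∀ c : G, T5.kr M C b s c * χ (w * c) =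
          ∑ κ ∈ S, κ s * (starRingEnd ℂ (H75.ext0 C κ c) * χ (w * c)) := by
        intro c
        unfold T5.kr
        rw [finsum_mem_eq_finite_toFinset_sum _ (K9.H25.irrE_finite M b'), Finset.sum_mul]
        refine Finset.sum_congr rfl fun κ _ => ?_
        rw [ext0_apply, mul_assoc]
      have h3 : ∑ᶠ (c : G) (_ : c ∈ C ∧ Reg ℓ c), T5.kr M C b s c * χ (w * c) =
          ∑ κ ∈ S, κ s * ∑ᶠ (c : G) (_ : c ∈ C ∧ Reg ℓ c),
            starRingEnd ℂ (H75.ext0 C κ c) * χ (w * c) := by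
        have e1 : ∀ F : G → ℂ, ∑ᶠ (c : G) (_ : c ∈ C ∧ Reg ℓ c), F c =
            ∑ c ∈ Finset.univ.filter (fun c : G => c ∈ C ∧ Reg ℓ c), F c := by
          intro F
          rw [← finsum_mem_coe_finset]
          refine finsum_congr fun c => ?_
          simp
        rw [e1]
        rw [Finset.sum_congr rfl fun c _ => h2 c, Finset.sum_comm]
        refine Finset.sum_congr rfl fun κ _ => ?_
        rw [e1, Finset.mul_sum]
      rw [h3, Finset.mul_sum]
      refine Finset.sum_congr rfl fun κ _ => ?_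
      simp only [ha]
      ring
    -- the products with the basis
    have h2 : ∀ i, (Nat.card C : ℂ)⁻¹ * ∑ᶠ (s' : G) (_ : s' ∈ C ∧ Reg ℓ s'),
        gv M C (w * s') b χ * starRingEnd ℂ (H75.ext0 C (Q i) s') =
        ∑ κ ∈ S, a κ * T5.rip ℓ κ (Q i) := by
      intro i
      rw [sum_reg ℓ C (fun s' => gv M C (w * s') b χ * starRingEnd ℂ (H75.ext0 C (Q i) s'))]
      have e1 : ∀ F : C → ℂ, ∑ᶠ (c : C) (_ : Reg ℓ c), F c =
          ∑ c ∈ Finset.univ.filter (fun c : C => Reg ℓ c), F c := by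
        intro F
        rw [← finsum_mem_coe_finset]
        refine finsum_congr fun c => ?_
        simp
      rw [e1]
      have e2 : ∀ s' ∈ Finset.univ.filter (fun c : C => Reg ℓ c),
          gv M C (w * s') b χ * starRingEnd ℂ (H75.ext0 C (Q i) s') =
          ∑ κ ∈ S, a κ * (κ s' * starRingEnd ℂ (Q i s')) := by
        intro s' hs'
        rw [h1 s' (Finset.mem_filter.1 hs').2, ext0_apply, Finset.sum_mul]
        refine Finset.sum_congr rfl fun κ _ => ?_
        ring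
      rw [Finset.sum_congr rfl e2, Finset.sum_comm, Finset.mul_sum]
      refine Finset.sum_congr rfl fun κ _ => ?_
      unfold T5.rip
      rw [e1, ← Finset.mul_sum]
      ring
    intro s hs hsr
    have hsr' : Reg ℓ (⟨s, hs⟩ : C) := by
      unfold Reg at hsr ⊢
      rwa [← Subgroup.orderOf_coe]
    have h3 := h1 ⟨s, hs⟩ hsr'
    have h4 : ∀ κ ∈ S, a κ * κ ⟨s, hs⟩ = ∑ i, a κ * T5.rip ℓ κ (Q i) * Q i ⟨s, hs⟩ := by
      intro κ hκ
      rw [hQ2 κ ((hmem κ).1 hκ) _ hsr', Finset.mul_sum]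
      refine Finset.sum_congr rfl fun i _ => ?_
      ring
    rw [Finset.sum_congr rfl h4, Finset.sum_comm] at h3
    rw [h3]
    refine Finset.sum_congr rfl fun i _ => ?_
    rw [h2 i, Finset.sum_mul]
    refine Finset.sum_congr rfl fun κ _ => ?_
    have e5 : H75.ext0 C (Q i) s = Q i ⟨s, hs⟩ := ext0_apply C (Q i) ⟨s, hs⟩
    change _ = a κ * T5.rip ℓ κ (Q i) * H75.ext0 C (Q i) s
    rw [e5]

end Pool.Agent.PP.T6.H81
end
end -- Pool.Agent.Helper81_AT6.PGR

section -- Pool.Agent.Helper89_AT6.KRF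

/-!
# Squad AT6, row KRF
-/

open scoped BigOperators

noncomputable section

namespace Pool.Agent.PP.T6.H89

open Pool.Agent.Helper51_AWC Pool.Agent.Helper79_WRA Pool.Agent.PP Pool.Agent.PP.KF
open Pool.Agent.PP.K9 Pool.Agent.PP.K9.H97 Pool.Agent.PP.H75 Pool.Agent.PP.T3 Pool.Agent.PP.T2

attribute [local instance] Ideal.Quotient.field

theorem krf : KrfStmt := by
  intro ℓ hℓ M _ hM G _ _ X b hb φ hφ hreg s hs hsr
  classical
  have := Fintype.ofFinite G
  have := Fintype.ofFinite X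
  set b' : X → FF M := fun t => b t with hb'
  set S := (K9.H25.irrE_finite M b').toFinset with hS
  have hmem : ∀ κ, κ ∈ S ↔ κ ∈ IrrE M b' := fun κ => Set.Finite.mem_toFinset _
  set s' : X := ⟨s, hs⟩ with hs'
  set f : X → ℂ := fun t => φ (t : G) with hf
  have hfc : ∀ x y : X, f (y * x * y⁻¹) = f x := by
    intro x y
    exact hφ x x.2 y y.2
  have h3 : ∀ c : X, ¬ Reg ℓ c → ∑ κ ∈ S, κ s' * κ c⁻¹ = 0 := by
    intro c hc
    have hsr' : Reg ℓ s' := by
      unfold Reg at hsr ⊢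
      rwa [← Subgroup.orderOf_coe]
    have h4 := T3.H62.wbo_ ℓ M hM X b' hb.idem s'⁻¹ c⁻¹ (K9.H25.reg_inv.2 hsr')
      (fun h => hc (K9.H25.reg_inv.1 h))
    rw [finsum_mem_eq_finite_toFinset_sum _ (K9.H25.irrE_finite M b')] at h4
    simpa using h4
  have h1 : gv M X s b φ =
      (Nat.card X : ℂ)⁻¹ * ∑ c : X, (∑ κ ∈ S, κ s' * κ c⁻¹) * f c := by
    unfold gv gbv
    rw [finsum_eq_sum_of_fintype]
    have h2 : ∀ c : X, eh M b' c * φ (s * (c : G)) =
        (Nat.card X : ℂ)⁻¹ * ∑ κ ∈ S, κ 1 * (κ c⁻¹ * f (s' * c)) := by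
      intro c
      rw [K9.H25.eh_eq, Nat.card_eq_fintype_card, mul_assoc, Finset.sum_mul]
      congr 1
      refine Finset.sum_congr rfl fun κ _ => ?_
      simp only [hf, hs', Subgroup.coe_mul]
      rw [mul_assoc]
    rw [Finset.sum_congr rfl fun c _ => h2 c, ← Finset.mul_sum, Finset.sum_comm]
    congr 1
    have h3 : ∀ κ ∈ S, ∑ c : X, κ 1 * (κ c⁻¹ * f (s' * c)) = ∑ c : X, κ s' * κ c⁻¹ * f c := by
      intro κ hκ
      rw [← Finset.mul_sum, T5.H45.conv_cl ((hmem κ).1 hκ).1 hfc, Finset.mul_sum]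
      refine Finset.sum_congr rfl fun c _ => ?_
      rw [mul_assoc]
    rw [Finset.sum_congr rfl h3, Finset.sum_comm]
    refine Finset.sum_congr rfl fun c _ => ?_
    rw [Finset.sum_mul]
  rw [h1, Finset.sum_eq_zero, mul_zero]
  intro c _
  by_cases hc : Reg ℓ c
  · have : f c = 0 := hreg c c.2 (T3.H62.reg_coe hc)
    rw [this, mul_zero]
  · rw [h3 c hc, zero_mul]

end Pool.Agent.PP.T6.H89
end
end -- Pool.Agent.Helper89_AT6.KRF
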