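import Pool.Agent.Helper12_AWB.B090
import Pool.Agent.Helper12_AWB.B115
import Pool.Agent.Helper12_AWB.B118
import Pool.Agent.Helper12_AWB.B144

/-!
# Merged copies (generated) of the modules

* `Pool.Agent.Helper49_AT3.CNT`
* `Pool.Agent.Helper49_AT3.BRG`
* `Pool.Agent.Helper8_AT8.ORI`
* `Pool.Agent.Helper48_AT2.UX1`
* `Pool.Agent.Helper94_AT2.BJC`
* `Pool.Agent.Helper49_AT3.LBE`
* `Pool.Agent.Helper6_AT5.BS5`
-/

set_option autoImplicit false

section -- Pool.Agent.Helper49_AT3.CNT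

/-! Squad AT3, row CNT: the number of the regular elements. -/

open scoped BigOperators

noncomputable section

namespace Pool.Agent.PP.T3.H49

open Pool.Agent.Helper51_AWC Pool.Agent.Helper79_WRA Pool.Agent.PP Pool.Agent.PP.KF
open Pool.Agent.PP.K9 Pool.Agent.PP.K9.H97 Pool.Agent.PP.H75

theorem cen_le_Tg {G : Type} [Group G] [Finite G] {F : Type} [Field F] {V : Subgroup G} {γ : G → F}
    (hγ : Bx (Subgroup.centralizer (V : Set G)) γ) :
    Subgroup.centralizer (V : Set G) ≤ Tg V γ := by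
  intro c hc
  refine Subgroup.mem_inf.2 ⟨?_, ?_⟩
  · rw [Subgroup.mem_normalizer_iff]
    intro h
    constructor
    · intro hh
      have := (Subgroup.mem_centralizer_iff.1 hc) h hh
      rw [← this, mul_inv_cancel_right]
      exact hh
    · intro hh
      have := (Subgroup.mem_centralizer_iff.1 hc) _ hh
      have e : h = c * h * c⁻¹ := by
        have e2 : c * h * c⁻¹ * c = c * (c * h * c⁻¹) := this
        have e3 : c * h = c * (c * h * c⁻¹) := by
          rw [← e2]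
          group
        exact mul_left_cancel e3
      rw [e]
      exact hh
  · exact (cj_eq_iff _ _).1 (hγ.ix.inv hc)

theorem arith_cnt (ℓ v E r : ℕ) (h5 : 5 ≤ ℓ) (h3 : 3 * E ≤ ℓ) (hE : 1 ≤ E) (hv : 1 ≤ v)
    (h : ℓ * v - 1 ≤ r + (E - 1) * (v - 1)) : 2 * (E * v) < r := by
  obtain ⟨E, rfl⟩ : ∃ E', E = E' + 1 := ⟨E - 1, by omega⟩
  obtain ⟨v, rfl⟩ : ∃ v', v = v' + 1 := ⟨v - 1, by omega⟩
  simp only [Nat.add_sub_cancel] at h
  have h6 : ℓ * (v + 1) ≤ r + E * v + 1 := by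
    have : 1 ≤ ℓ * (v + 1) := Nat.one_le_iff_ne_zero.2 (mul_ne_zero (by omega) (by omega))
    omega
  rcases Nat.eq_zero_or_pos E with h0 | h0
  · subst h0
    nlinarith
  · nlinarith

theorem cnt : CntStmt := by
  intro ℓ hℓ F _ hF G _ _ e V γ hL hV h5 h3
  classical
  have hp : ℓ.Prime := hℓ.out
  set C := Subgroup.centralizer (V : Set G) with hC
  set T := Tg V γ with hT
  have hCT : C ≤ T := cen_le_Tg hL.gam
  have hE : ix V γ = Nat.card (T ⧸ C.subgroupOf T) := rfl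
  set E := ix V γ with hEd
  have hE1 : 1 ≤ E := by
    rw [hE]
    exact Nat.card_pos
  haveI := Fintype.ofFinite G
  haveI : Fintype (T ⧸ C.subgroupOf T) := Fintype.ofFinite _
  -- the order of V
  obtain ⟨a, ha⟩ := (IsPGroup.iff_card.1 hL.tp.pg)
  have ha0 : a ≠ 0 := by
    intro h
    rw [h, pow_zero] at ha
    exact hV (Subgroup.card_eq_one.1 ha)
  obtain ⟨b, rfl⟩ := Nat.exists_eq_succ_of_ne_zero ha0
  set v := ℓ ^ b with hv
  have hVv : Nat.card V = ℓ * v := by rw [ha, hv, Nat.succ_eq_add_one, pow_succ, mul_comm]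
  have hv1 : 1 ≤ v := Nat.one_le_iff_ne_zero.2 (pow_ne_zero _ hp.ne_zero)
  -- the fixed subgroups
  let W : (T ⧸ C.subgroupOf T) → Subgroup G := fun q => V ⊓ Cu ((q.out : T) : G)
  have hW : ∀ q, q ≠ ((1 : T) : T ⧸ C.subgroupOf T) → Nat.card (W q) ≤ v := by
    intro q hq
    have h1 : Nat.card (W q) ∣ ℓ ^ (b + 1) := by
      rw [← Nat.succ_eq_add_one, ← ha]
      exact Subgroup.card_dvd_of_le inf_le_left
    obtain ⟨i, hi, hi2⟩ := (Nat.dvd_prime_pow hp).1 h1
    rw [hi2, hv]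
    rcases Nat.lt_or_ge i (b + 1) with h2 | h2
    · exact Nat.pow_le_pow_right hp.pos (by omega)
    · exfalso
      have h3 : i = b + 1 := le_antisymm hi h2
      have h4 : Nat.card (W q) = Nat.card V := by rw [hi2, h3, ha]
      have h5 : W q = V := Subgroup.eq_of_le_of_card_ge inf_le_left h4.ge
      apply hq
      have h6 : ((q.out : T) : G) ∈ C := by
        refine Subgroup.mem_centralizer_iff.2 ?_
        intro w hw
        have h7 : w ∈ W q := by
          rw [h5]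
          exact hw
        have h8 := (Subgroup.mem_inf.1 h7).2
        exact (Subgroup.mem_centralizer_iff.1 h8 _ rfl).symm
      have h9 : ((q.out : T) : T ⧸ C.subgroupOf T) = ((1 : T) : T ⧸ C.subgroupOf T) := by
        rw [QuotientGroup.eq, mul_one, Subgroup.inv_mem_iff, Subgroup.mem_subgroupOf]
        exact h6
      rw [← h9]
      exact (Quotient.out_eq' q).symm
  -- the sets
  let A : Finset G := Finset.univ.filter (fun u => u ∈ V ∧ u ≠ 1)
  let R : Finset G := Finset.univ.filter (fun u => Rg V γ u)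
  let S : Finset G := (Finset.univ.filter (fun q : T ⧸ C.subgroupOf T =>
    q ≠ ((1 : T) : T ⧸ C.subgroupOf T))).biUnion
      (fun q => Finset.univ.filter (fun u => u ∈ W q ∧ u ≠ 1))
  have hR : {u | Rg V γ u}.ncard = R.card := by
    rw [← Set.ncard_coe_finset]
    congr 1
    ext u
    simp [R]
  have cardsub : ∀ H : Subgroup G, (Finset.univ.filter (fun u => u ∈ H ∧ u ≠ 1)).card
      = Nat.card H - 1 := by
    intro H
    have h1 : (Finset.univ.filter (fun u => u ∈ H ∧ u ≠ 1))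
        = (Finset.univ.filter (fun u : G => u ∈ H)).erase 1 := by
      ext u
      simp only [Finset.mem_filter, Finset.mem_univ, true_and, Finset.mem_erase, ne_eq]
      tauto
    rw [h1, Finset.card_erase_of_mem (by simp [H.one_mem])]
    congr 1
    rw [← Set.ncard_coe_finset]
    have : ((Finset.univ.filter (fun u : G => u ∈ H) : Finset G) : Set G) = (H : Set G) := by
      ext u
      simp
    rw [this, Set.ncard_eq_toFinset_card' , ← Nat.card_eq_card_toFinset]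
    rfl
  have hA : A.card = Nat.card V - 1 := cardsub V
  have hsub : A ⊆ R ∪ S := by
    intro u hu
    simp only [A, Finset.mem_filter, Finset.mem_univ, true_and] at hu
    by_cases hr : Rg V γ u
    · exact Finset.mem_union_left _ (by simp [R, hr])
    · apply Finset.mem_union_right
      have h1 : ¬ (Tg V γ ⊓ Cu u ≤ Subgroup.centralizer (V : Set G)) := by
        intro h
        exact hr ⟨hu.1, hu.2, h⟩
      rw [SetLike.not_le_iff_exists] at h1
      obtain ⟨t, ht, htC⟩ := h1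
      obtain ⟨htT, htu⟩ := Subgroup.mem_inf.1 ht
      let t' : T := ⟨t, htT⟩
      let q : T ⧸ C.subgroupOf T := (t' : T ⧸ C.subgroupOf T)
      have hq : q ≠ ((1 : T) : T ⧸ C.subgroupOf T) := by
        intro h
        rw [QuotientGroup.eq, mul_one, Subgroup.inv_mem_iff, Subgroup.mem_subgroupOf] at h
        exact htC h
      have hc : ((t' : T)⁻¹ * q.out) ∈ C.subgroupOf T := by
        rw [← QuotientGroup.eq]
        exact (Quotient.out_eq' q).symm
      rw [Subgroup.mem_subgroupOf] at hc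
      simp only [S, Finset.mem_biUnion, Finset.mem_filter, Finset.mem_univ, true_and]
      refine ⟨q, hq, ?_, hu.2⟩
      refine Subgroup.mem_inf.2 ⟨hu.1, ?_⟩
      rw [Subgroup.mem_centralizer_iff]
      intro w hw
      rw [Set.mem_singleton_iff] at hw
      rw [hw]
      have h2 : u * t = t * u := Subgroup.mem_centralizer_iff.1 htu u rfl
      have h3 := Subgroup.mem_centralizer_iff.1 hc u hu.1
      have h4 : ((q.out : T) : G) = t * (((t' : T)⁻¹ * q.out : T) : G) := by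
        simp [t']
      rw [h4]
      calc t * (((t' : T)⁻¹ * q.out : T) : G) * u
          = t * ((((t' : T)⁻¹ * q.out : T) : G) * u) := by group
        _ = t * (u * (((t' : T)⁻¹ * q.out : T) : G)) := by rw [h3]
        _ = (t * u) * (((t' : T)⁻¹ * q.out : T) : G) := by group
        _ = (u * t) * (((t' : T)⁻¹ * q.out : T) : G) := by rw [h2]
        _ = u * (t * (((t' : T)⁻¹ * q.out : T) : G)) := by group
  have hS : S.card ≤ (E - 1) * (v - 1) := by
    have h1 : S.card ≤ ∑ q ∈ (Finset.univ.filter (fun q : T ⧸ C.subgroupOf T =>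
        q ≠ ((1 : T) : T ⧸ C.subgroupOf T))), (v - 1) := by
      refine le_trans Finset.card_biUnion_le (Finset.sum_le_sum fun q hq => ?_)
      rw [cardsub]
      have := hW q (by simpa using hq)
      omega
    rw [Finset.sum_const, smul_eq_mul] at h1
    have h2 : (Finset.univ.filter (fun q : T ⧸ C.subgroupOf T =>
        q ≠ ((1 : T) : T ⧸ C.subgroupOf T))).card = E - 1 := by
      rw [Finset.filter_ne', Finset.card_erase_of_mem (Finset.mem_univ _), Finset.card_univ, hE,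
        Nat.card_eq_fintype_card]
    rw [h2] at h1
    exact h1
  have hfin : Nat.card V - 1 ≤ R.card + (E - 1) * (v - 1) := by
    rw [← hA]
    exact le_trans (Finset.card_le_card hsub) (le_trans (Finset.card_union_le _ _) (by omega))
  rw [hR, hVv]
  rw [hVv] at hfin
  have hgoal : 2 * (E * v) < R.card := arith_cnt ℓ v E R.card h5 h3 hE1 hv1 hfin
  calc 2 * (E * (ℓ * v)) = ℓ * (2 * (E * v)) := by ring
    _ < ℓ * R.card := Nat.mul_lt_mul_of_pos_left hgoal hp.pos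

end Pool.Agent.PP.T3.H49
end
end -- Pool.Agent.Helper49_AT3.CNT

section -- Pool.Agent.Helper49_AT3.BRG


/-! Squad AT3, row BRG: Bessel's inequality for the regular elements. -/

open scoped BigOperators

noncomputable section

namespace Pool.Agent.PP.T3.H49

open Pool.Agent.Helper51_AWC Pool.Agent.Helper79_WRA Pool.Agent.PP Pool.Agent.PP.KF
open Pool.Agent.PP.K9 Pool.Agent.PP.K9.H97 Pool.Agent.PP.H75

attribute [local instance] Ideal.Quotient.field

section tools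

variable {G : Type} [Group G] {F : Type} [Field F]

theorem cu_conj {u u' x : G} (h : x * u' * x⁻¹ = u) (t : G) : x⁻¹ * t * x ∈ Cu u' ↔ t ∈ Cu u := by
  rw [Subgroup.mem_centralizer_singleton_iff, Subgroup.mem_centralizer_singleton_iff, ← h]
  constructor
  · intro h1
    have : x * (x⁻¹ * t * x * u') * x⁻¹ = x * (u' * (x⁻¹ * t * x)) * x⁻¹ := by rw [h1]
    calc t * (x * u' * x⁻¹) = x * (x⁻¹ * t * x * u') * x⁻¹ := by group
      _ = x * (u' * (x⁻¹ * t * x)) * x⁻¹ := this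
      _ = x * u' * x⁻¹ * t := by group
  · intro h1
    calc x⁻¹ * t * x * u' = x⁻¹ * (t * (x * u' * x⁻¹)) * x := by group
      _ = x⁻¹ * (x * u' * x⁻¹ * t) * x := by rw [h1]
      _ = u' * (x⁻¹ * t * x) := by group

/-- conjugation as an isomorphism of centralisers -/
def cuEquiv {u u' x : G} (h : x * u' * x⁻¹ = u) : Cu u ≃* Cu u' where
  toFun t := ⟨x⁻¹ * t * x, (cu_conj h _).2 t.2⟩
  invFun t := ⟨x * t * x⁻¹, by
    rw [← cu_conj h]
    have e : x⁻¹ * (x * (t : G) * x⁻¹) * x = t := by group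
    rw [e]
    exact t.2⟩
  left_inv t := by
    apply Subtype.ext
    change x * (x⁻¹ * (t : G) * x) * x⁻¹ = t
    group
  right_inv t := by
    apply Subtype.ext
    change x⁻¹ * (x * (t : G) * x⁻¹) * x = t
    group
  map_mul' s t := by
    apply Subtype.ext
    change x⁻¹ * ((s : G) * t) * x = (x⁻¹ * s * x) * (x⁻¹ * t * x)
    group

theorem bx_cj {u u' x : G} (h : x * u' * x⁻¹ = u) {b : G → F} (hb : Bx (Cu u') b) :
    Bx (Cu u) (cj x b) := by
  refine ⟨?_, ?_⟩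
  · intro t ht
    apply hb.supp
    rw [cu_conj h]
    exact ht
  · exact H20.IsBlk_equiv (cuEquiv h) hb.blk

theorem finsum_mem_const_eq {α : Type} {S : Set α} (hS : S.Finite) (f : α → ℂ) (c : ℂ)
    (h : ∀ x ∈ S, f x = c) : ∑ᶠ x ∈ S, f x = S.ncard * c := by
  rw [finsum_mem_eq_finite_toFinset_sum _ hS, Finset.sum_congr rfl (fun x hx => h x (by
    simpa using hx)), Finset.sum_const, Set.ncard_eq_toFinset_card S hS, nsmul_eq_mul]

theorem finsum_mem_fintype {α β : Type} [AddCommMonoid β] {S : Set α} [Fintype S] (f : α → β) :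
    ∑ᶠ x ∈ S, f x = ∑ k : S, f k := by
  rw [← finsum_set_coe_eq_finsum_mem, finsum_eq_sum_of_fintype]

theorem irr_fin (H : Type) [Group H] [Finite H] : (Irr H).Finite := by
  haveI := Fintype.ofFinite H
  exact irr_finite'

theorem irrE_fin {H : Type} [Group H] [Finite H] (M : Ideal (integralClosure ℤ ℂ)) [M.IsMaximal]
    (b : H → FF M) : (IrrE M b).Finite := (irr_fin H).subset fun _ h => h.1

/-- the number of the conjugates under the inertial group -/
theorem card_conj_le [Finite G] (V : Subgroup G) (γ : G → F)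
    (u : G) (hu : u ∈ V) (S : Finset G)
    (hS : ∀ u' ∈ S, ∃ t ∈ Tg V γ, t * u' * t⁻¹ = u) : S.card ≤ ix V γ := by
  classical
  set C := Subgroup.centralizer (V : Set G) with hC
  set T := Tg V γ with hT
  have hE : ix V γ = Nat.card (T ⧸ C.subgroupOf T) := rfl
  haveI : Fintype (T ⧸ C.subgroupOf T) := Fintype.ofFinite _
  rw [hE, Nat.card_eq_fintype_card, ← Finset.card_univ]
  have h1 : S ⊆ (Finset.univ : Finset (T ⧸ C.subgroupOf T)).image
      (fun q => ((q.out : T) : G) * u * ((q.out : T) : G)⁻¹) := by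
    intro u' hu'
    obtain ⟨t, ht, htu⟩ := hS u' hu'
    rw [Finset.mem_image]
    let t' : T := ⟨t, ht⟩
    let q : T ⧸ C.subgroupOf T := ((t'⁻¹ : T) : T ⧸ C.subgroupOf T)
    refine ⟨q, Finset.mem_univ _, ?_⟩
    have hc : ((t'⁻¹ : T)⁻¹ * q.out) ∈ C.subgroupOf T := by
      rw [← QuotientGroup.eq]
      exact (Quotient.out_eq' q).symm
    rw [Subgroup.mem_subgroupOf] at hc
    set c : T := (t'⁻¹ : T)⁻¹ * q.out with hcd
    have h4 : ((q.out : T) : G) = t⁻¹ * (c : G) := by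
      simp [t', hcd]
    have h3 : u * (c : G) = c * u := Subgroup.mem_centralizer_iff.1 hc u hu
    rw [h4]
    calc t⁻¹ * (c : G) * u * (t⁻¹ * (c : G))⁻¹ = t⁻¹ * ((c : G) * u) * (c : G)⁻¹ * t := by group
      _ = t⁻¹ * (u * (c : G)) * (c : G)⁻¹ * t := by rw [h3]
      _ = t⁻¹ * u * t := by group
      _ = u' := by
        rw [← htu]
        group
  exact le_trans (Finset.card_le_card h1) Finset.card_image_le

end tools

theorem norm_sum_le {κ : Type} [Fintype κ] (v w : κ → ℂ) (c : ℝ)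
    (hv : ∑ k, v k * starRingEnd ℂ (v k) = (c : ℂ)) (hw : ∑ k, w k * starRingEnd ℂ (w k) = (c : ℂ)) :
    ‖∑ k, v k * starRingEnd ℂ (w k)‖ ≤ c := by
  have h1 : ∀ z : κ → ℂ, ∑ k, z k * starRingEnd ℂ (z k) = (c : ℂ) → ∑ k, ‖z k‖ ^ 2 = c := by
    intro z hz
    have h2 : ((∑ k, ‖z k‖ ^ 2 : ℝ) : ℂ) = (c : ℂ) := by
      rw [← hz]
      push_cast
      refine Finset.sum_congr rfl fun k _ => ?_
      rw [Complex.mul_conj, Complex.normSq_eq_norm_sq]
      push_cast
      rfl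
    exact_mod_cast h2
  have h2 := h1 v hv
  have h3 := h1 w hw
  calc ‖∑ k, v k * starRingEnd ℂ (w k)‖ ≤ ∑ k, ‖v k * starRingEnd ℂ (w k)‖ :=
        _root_.norm_sum_le _ _
    _ = ∑ k, ‖v k‖ * ‖w k‖ := by
        refine Finset.sum_congr rfl fun k _ => ?_
        rw [norm_mul, RCLike.norm_conj]
    _ ≤ ∑ k, (‖v k‖ ^ 2 + ‖w k‖ ^ 2) / 2 := by
        refine Finset.sum_le_sum fun k _ => ?_
        nlinarith [sq_nonneg (‖v k‖ - ‖w k‖)]
    _ = c := by
        rw [← Finset.sum_div, Finset.sum_add_distrib, h2, h3]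
        ring

theorem brg (co1 : Co1Stmt) (co2 : Co2Stmt) (fus : FusStmt) (bes : BesStmt) (rgl : RglStmt)
    (loc : LocStmt) : BrgStmt := by
  intro ℓ _ M _ hM G _ _ e V γ hL R hR b d hbd s
  classical
  have hF : GoodF ℓ (FF M) := H50.fld ℓ Fact.out M hM
  haveI : Finite (Irr G) := (irr_fin G).to_subtype
  haveI : Fintype (Irr G) := Fintype.ofFinite _
  let v : {u // u ∈ R} → (Irr G) → ℂ := fun u χ => gv M (Cu (u : G)) u (b u) χ / d u
  have hEl : ∀ u ∈ R, El ℓ u := by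
    intro u hu
    have h1 := ((hR u).1 hu).1
    obtain ⟨n, hn⟩ := hL.tp.pg ⟨u, h1⟩
    exact ⟨n, congrArg Subtype.val hn⟩
  have hd : ∀ u ∈ R, 0 < d u := fun u hu => (hbd u hu).2.1
  -- the norms
  have hnorm : ∀ u : {u // u ∈ R}, ∑ k, v u k * starRingEnd ℂ (v u k) = ((Nat.card V : ℝ) : ℂ) := by
    rintro ⟨u, hu⟩
    obtain ⟨hb, hdg⟩ := hbd u hu
    have h1 := co1 ℓ M hM G u (hEl u hu) (b u) hb.blk.ix
    obtain ⟨b', d', hb', hd', hcard, -⟩ := rgl ℓ M hM G e V γ hL u ((hR u).1 hu)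
    have hbb : b' = b u := (loc ℓ (FF M) hF G e V γ hL u ((hR u).1 hu).1).2 b' (b u) hb' hb
    rw [hbb] at hcard
    have hfin : (IrrE M (fun t : Cu u => b u t)).Finite := irrE_fin M _
    have h2 : ∑ᶠ κ ∈ IrrE M (fun t : Cu u => b u t), κ 1 ^ 2 =
        (Nat.card V : ℂ) * (d u : ℂ) ^ 2 := by
      rw [finsum_mem_const_eq hfin (fun κ => κ 1 ^ 2) ((d u : ℂ) ^ 2) (by
        intro κ hκ
        rw [hdg.2 κ hκ]), hcard]
    rw [h2, finsum_mem_fintype] at h1
    have hd0 : (d u : ℂ) ≠ 0 := by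
      exact_mod_cast (hd u hu).ne'
    have h3 : ∀ k : Irr G, v ⟨u, hu⟩ k * starRingEnd ℂ (v ⟨u, hu⟩ k) =
        (gv M (Cu u) u (b u) k * starRingEnd ℂ (gv M (Cu u) u (b u) k)) / (d u : ℂ) ^ 2 := by
      intro k
      simp only [v, map_div₀, Complex.conj_natCast]
      field_simp
    simp only [h3]
    rw [← Finset.sum_div, h1]
    push_cast
    field_simp
  -- orthogonality
  have horth : ∀ u u' : {u // u ∈ R}, (¬ ∃ t ∈ Tg V γ, t * (u' : G) * t⁻¹ = u) →
      ∑ k, v u k * starRingEnd ℂ (v u' k) = 0 := by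
    rintro ⟨u, hu⟩ ⟨u', hu'⟩ hno
    obtain ⟨hb, hdg⟩ := hbd u hu
    obtain ⟨hb', hdg'⟩ := hbd u' hu'
    have h1 := co2 ℓ M hM G u u' (hEl u hu) (hEl u' hu') (b u) (b u') hb.blk.ix hb'.blk.ix (by
      intro x hx
      rcases hb.blk.dich (bx_cj hx hb'.blk) with h2 | h2
      · exfalso
        apply hno
        exact fus ℓ M hM G e V γ hL u ((hR u).1 hu).1 u' ((hR u').1 hu').1 (b u) (b u') hb hb' x hx
          h2.symm
      · exact h2)
    rw [finsum_mem_fintype] at h1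
    have h3 : ∀ k : Irr G, v ⟨u, hu⟩ k * starRingEnd ℂ (v ⟨u', hu'⟩ k) =
        (gv M (Cu u) u (b u) k * starRingEnd ℂ (gv M (Cu u') u' (b u') k)) /
          ((d u : ℂ) * (d u' : ℂ)) := by
      intro k
      simp only [v, map_div₀, Complex.conj_natCast]
      rw [div_mul_div_comm]
    simp only [h3]
    rw [← Finset.sum_div, h1, zero_div]
  -- row sums
  have hrow : ∀ u : {u // u ∈ R}, ∑ u', ‖∑ k, v u k * starRingEnd ℂ (v u' k)‖ ≤
      ((ix V γ * Nat.card V : ℕ) : ℝ) := by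
    intro u
    let S : Finset {u // u ∈ R} := Finset.univ.filter
      (fun u' => ∃ t ∈ Tg V γ, t * (u' : G) * t⁻¹ = u)
    have h1 : ∑ u', ‖∑ k, v u k * starRingEnd ℂ (v u' k)‖ =
        ∑ u' ∈ S, ‖∑ k, v u k * starRingEnd ℂ (v u' k)‖ := by
      symm
      apply Finset.sum_subset (Finset.subset_univ _)
      intro u' _ hu'
      rw [horth u u' (fun h => hu' (by simpa [S] using h)), norm_zero]
    have h2 : S.card ≤ ix V γ := by
      have h3 : (S.image (fun u' : {u // u ∈ R} => (u' : G))).card = S.card :=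
        Finset.card_image_of_injective _ Subtype.val_injective
      rw [← h3]
      apply card_conj_le V γ (u : G) ((hR u).1 u.2).1
      intro u' hu'
      rw [Finset.mem_image] at hu'
      obtain ⟨w, hw, rfl⟩ := hu'
      simpa [S] using hw
    rw [h1]
    calc ∑ u' ∈ S, ‖∑ k, v u k * starRingEnd ℂ (v u' k)‖ ≤ ∑ u' ∈ S, (Nat.card V : ℝ) :=
          Finset.sum_le_sum fun u' _ => norm_sum_le (v u) (v u') _ (hnorm u) (hnorm u')
      _ = S.card * (Nat.card V : ℝ) := by rw [Finset.sum_const, nsmul_eq_mul]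
      _ ≤ (ix V γ : ℝ) * (Nat.card V : ℝ) := by
          apply mul_le_mul_of_nonneg_right _ (by positivity)
          exact_mod_cast h2
      _ = ((ix V γ * Nat.card V : ℕ) : ℝ) := by push_cast; ring
  have h := bes {u // u ∈ R} (Irr G) v _ (by positivity) hrow (fun k => s k)
  rw [finsum_mem_fintype, ← Finset.sum_coe_sort]
  have h4 : ∀ u : {u // u ∈ R}, ∑ᶠ χ ∈ Irr G, s χ * (gv M (Cu (u : G)) u (b u) χ / d u) =
      ∑ k : Irr G, s k * v u k := fun u => finsum_mem_fintype _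
  simp only [h4]
  exact h

end Pool.Agent.PP.T3.H49
end
end -- Pool.Agent.Helper49_AT3.BRG

section -- Pool.Agent.Helper8_AT8.ORI

/-!
# Squad AT8, row ORI: orthogonality for all the elements of `V`
-/

open scoped BigOperators

noncomputable section

namespace Pool.Agent.PP.T8.H8

open Pool.Agent.Helper51_AWC Pool.Agent.Helper79_WRA Pool.Agent.PP Pool.Agent.PP.KF
open Pool.Agent.PP.K9 Pool.Agent.PP.K9.H97 Pool.Agent.PP.H75 Pool.Agent.PP.T3 Pool.Agent.PP.T2
open Pool.Agent.PP.T8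

attribute [local instance] Ideal.Quotient.field

section core

variable {G : Type} [Group G] [Finite G]

/-- the average over the centraliser -/
def avj (z : G) (j : G → ℂ) : G → ℂ :=
  fun s => (Nat.card (Cu z) : ℂ)⁻¹ * ∑ᶠ x : Cu z, j (x * s * (x : G)⁻¹)

omit [Finite G] in
theorem mem_conj_Cu {z : G} (x : Cu z) (s : G) : (x : G) * s * (x : G)⁻¹ ∈ Cu z ↔ s ∈ Cu z := by
  constructor
  · intro h
    have h1 := mul_mem (mul_mem (inv_mem x.2) h) x.2
    have e : (x : G)⁻¹ * ((x : G) * s * (x : G)⁻¹) * x = s := by group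
    rwa [e] at h1
  · intro h
    exact mul_mem (mul_mem x.2 h) (inv_mem x.2)

omit [Finite G] in
theorem avj_supp {z : G} {j : G → ℂ} (hj : ∀ g, g ∉ Cu z → j g = 0) (s : G) (hs : s ∉ Cu z) :
    avj z j s = 0 := by
  unfold avj
  rw [finsum_eq_zero_of_forall_eq_zero, mul_zero]
  intro x
  exact hj _ (fun h => hs ((mem_conj_Cu x s).1 h))

/-- the average has the same values at the class functions -/
theorem avj_val {z : G} {j : G → ℂ} {χ : G → ℂ} (hχ : ∀ x y, χ (y * x * y⁻¹) = χ x) :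
    ∑ᶠ g, avj z j g * χ (z * g) = ∑ᶠ g, j g * χ (z * g) := by
  classical
  have := Fintype.ofFinite G
  have := Fintype.ofFinite (Cu z)
  have hc : (Nat.card (Cu z) : ℂ) ≠ 0 := by exact_mod_cast Nat.card_pos.ne'
  rw [finsum_eq_sum_of_fintype, finsum_eq_sum_of_fintype]
  unfold avj
  have h1 : ∀ g : G, (Nat.card (Cu z) : ℂ)⁻¹ * (∑ᶠ x : Cu z, j (x * g * (x : G)⁻¹)) * χ (z * g) =
      (Nat.card (Cu z) : ℂ)⁻¹ * ∑ x : Cu z, j (x * g * (x : G)⁻¹) * χ (z * g) := by
    intro g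
    rw [finsum_eq_sum_of_fintype, mul_assoc, Finset.sum_mul]
  rw [Finset.sum_congr rfl (fun g _ => h1 g), ← Finset.mul_sum, Finset.sum_comm]
  have h2 : ∀ x : Cu z, ∑ g : G, j (x * g * (x : G)⁻¹) * χ (z * g) = ∑ g : G, j g * χ (z * g) := by
    intro x
    rw [← Equiv.sum_comp (MulAut.conj (x : G)).toEquiv (fun g => j g * χ (z * g))]
    refine Finset.sum_congr rfl fun g _ => ?_
    change _ = j (x * g * (x : G)⁻¹) * χ (z * (x * g * (x : G)⁻¹))
    have e : z * ((x : G) * g * (x : G)⁻¹) = x * (z * g) * (x : G)⁻¹ := by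
      have h3 : (x : G) * z = z * x := Subgroup.mem_centralizer_singleton_iff.1 x.2
      calc z * ((x : G) * g * (x : G)⁻¹) = (z * x) * g * (x : G)⁻¹ := by group
        _ = (x * z) * g * (x : G)⁻¹ := by rw [h3]
        _ = _ := by group
    rw [e, hχ]
  rw [Finset.sum_congr rfl (fun x _ => h2 x), Finset.sum_const, Finset.card_univ,
    ← Nat.card_eq_fintype_card, nsmul_eq_mul, ← mul_assoc, inv_mul_cancel₀ hc, one_mul]

/-- the average vanishes at the singular elements -/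
theorem avj_sing {ℓ : ℕ} {z : G} {j : G → ℂ}
    (hprj : ∀ th : Cu z → ℂ, (∀ x y, th (y * x * y⁻¹) = th x) → (∀ x, Reg ℓ x → th x = 0) →
      ∑ᶠ h : Cu z, j h * th h = 0) (s : Cu z) (hs : ¬ Reg ℓ s) : avj z j s = 0 := by
  classical
  have := Fintype.ofFinite (Cu z)
  let th : Cu z → ℂ := fun h => ∑ x : Cu z, if x * s * x⁻¹ = h then 1 else 0
  have h1 : ∀ x y, th (y * x * y⁻¹) = th x := by
    intro x y
    change (∑ w : Cu z, if w * s * w⁻¹ = y * x * y⁻¹ then (1 : ℂ) else 0) =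
      ∑ w : Cu z, if w * s * w⁻¹ = x then (1 : ℂ) else 0
    rw [← Equiv.sum_comp (Equiv.mulLeft y)]
    refine Finset.sum_congr rfl fun w _ => ?_
    refine if_congr ?_ rfl rfl
    change y * w * s * (y * w)⁻¹ = y * x * y⁻¹ ↔ w * s * w⁻¹ = x
    have e : y * w * s * (y * w)⁻¹ = y * (w * s * w⁻¹) * y⁻¹ := by group
    rw [e]
    constructor
    · intro h
      exact mul_left_cancel (mul_right_cancel h)
    · rintro rfl
      rfl
  have h2 : ∀ x, Reg ℓ x → th x = 0 := by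
    intro x hx
    change (∑ w : Cu z, if w * s * w⁻¹ = x then (1 : ℂ) else 0) = 0
    refine Finset.sum_eq_zero fun w _ => ?_
    rw [if_neg]
    rintro rfl
    apply hs
    unfold Reg at hx ⊢
    have e : orderOf (w * s * w⁻¹) = orderOf s :=
      (MulAut.conj w).orderOf_eq s
    rwa [e] at hx
  have h3 := hprj th h1 h2
  rw [finsum_eq_sum_of_fintype] at h3
  have h4 : ∑ h : Cu z, j h * th h = ∑ x : Cu z, j ((x : G) * s * (x : G)⁻¹) := by
    simp only [th, Finset.mul_sum]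
    rw [Finset.sum_comm]
    refine Finset.sum_congr rfl fun x _ => ?_
    rw [Finset.sum_eq_single (x * s * x⁻¹)]
    · rw [if_pos rfl, mul_one]
      rfl
    · intro h _ hne
      rw [if_neg (fun h' => hne h'.symm), mul_zero]
    · intro h
      exact absurd (Finset.mem_univ _) h
  unfold avj
  rw [finsum_eq_sum_of_fintype, ← h4, h3, mul_zero]

/-- the average of `j` is under the same idempotent -/
theorem avj_mul {z : G} {j B : G → ℂ} (hB : ∀ x ∈ Cu z, ∀ s, B (x * s * x⁻¹) = B s)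
    (hj : mulF j B = j) : mulF (avj z j) B = avj z j := by
  classical
  have := Fintype.ofFinite G
  have := Fintype.ofFinite (Cu z)
  funext s
  unfold mulF
  rw [finsum_eq_sum_of_fintype]
  unfold avj
  simp only [finsum_eq_sum_of_fintype]
  have h1 : ∀ t : G, (Nat.card (Cu z) : ℂ)⁻¹ * (∑ x : Cu z, j (x * t * (x : G)⁻¹)) *
      B (t⁻¹ * s) = (Nat.card (Cu z) : ℂ)⁻¹ * ∑ x : Cu z, j (x * t * (x : G)⁻¹) * B (t⁻¹ * s) := by
    intro t
    rw [mul_assoc, Finset.sum_mul]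
  rw [Finset.sum_congr rfl (fun t _ => h1 t), ← Finset.mul_sum, Finset.sum_comm]
  congr 1
  refine Finset.sum_congr rfl fun x _ => ?_
  have h2 := congrFun hj ((x : G) * s * (x : G)⁻¹)
  unfold mulF at h2
  rw [finsum_eq_sum_of_fintype] at h2
  rw [← h2, ← Equiv.sum_comp (MulAut.conj (x : G)).toEquiv
    (fun t => j t * B (t⁻¹ * ((x : G) * s * (x : G)⁻¹)))]
  refine Finset.sum_congr rfl fun t _ => ?_
  change _ = j (x * t * (x : G)⁻¹) * B ((x * t * (x : G)⁻¹)⁻¹ * ((x : G) * s * (x : G)⁻¹))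
  have e : ((x : G) * t * (x : G)⁻¹)⁻¹ * ((x : G) * s * (x : G)⁻¹) =
      x * (t⁻¹ * s) * (x : G)⁻¹ := by group
  rw [e, hB x x.2]

/-- the orthogonality -/
theorem ori_core {ℓ : ℕ} [Fact ℓ.Prime] (M : Ideal (integralClosure ℤ ℂ)) [M.IsMaximal]
    (hM : (ℓ : integralClosure ℤ ℂ) ∈ M) {z u : G} (hz : El ℓ z) (hu : El ℓ u)
    {c b : G → FF M} (hc : Ix (Cu z) c) (hb : Ix (Cu u) b) {J : G → ℂ}
    (hJs : ∀ g, g ∉ Cu z → J g = 0) (hJr : ∀ s : Cu z, ¬ Reg ℓ s → J s = 0)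
    (hJm : mulF J (H75.ext0 (Cu z) (eh M (fun t : Cu z => c t))) = J)
    (hcon : ∀ x : G, x * u * x⁻¹ = z → mulF c (H75.cj x b) = 0) :
    ∑ᶠ χ ∈ Irr G, (∑ᶠ g, J g * χ (z * g)) * starRingEnd ℂ (gv M (Cu u) u b χ) = 0 := by
  classical
  have := Fintype.ofFinite G
  obtain ⟨B', hB'⟩ : ∃ B' : G → ℂ, B' = H75.ext0 (Cu u) (eh M (fun t : Cu u => b t)) :=
    ⟨_, rfl⟩
  have sumext : ∀ (C : Subgroup G) (f : C → ℂ) (h : G → ℂ),
      ∑ᶠ c : C, f c * h c = ∑ g : G, H75.ext0 C f g * h g := by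
    intro C f h
    have := Fintype.ofFinite C
    rw [finsum_eq_sum_of_fintype]
    have h1 : ∀ g : G, H75.ext0 C f g * h g = ∑ c : C, if (c : G) = g then f c * h c else 0 := by
      intro g
      by_cases hg : g ∈ C
      · rw [Finset.sum_eq_single (⟨g, hg⟩ : C)]
        · rw [if_pos rfl, H75.ext0, dif_pos hg]
        · intro c _ hc
          rw [if_neg]
          intro h'
          exact hc (Subtype.ext h')
        · intro h'; exact absurd (Finset.mem_univ _) h'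
      · rw [H75.ext0, dif_neg hg, zero_mul, Finset.sum_eq_zero]
        intro c _
        rw [if_neg]
        intro h'
        exact hg (h' ▸ c.2)
    rw [Finset.sum_congr rfl (fun g _ => h1 g), Finset.sum_comm]
    refine Finset.sum_congr rfl fun c _ => ?_
    simp
  have hreg : ∀ g, J g ≠ 0 → g ∈ Cu z ∧ Reg ℓ g := by
    intro g hg
    by_cases h : g ∈ Cu z
    · refine ⟨h, ?_⟩
      by_contra hcon
      exact hg (hJr ⟨g, h⟩ (fun hr => hcon (T3.H62.reg_coe hr)))
    · exact absurd (hJs g h) hg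
  have hreg' : ∀ g, B' g ≠ 0 → g ∈ Cu u ∧ Reg ℓ g := by
    intro g hg
    rw [hB'] at hg
    by_cases h : g ∈ Cu u
    · refine ⟨h, ?_⟩
      have := Fintype.ofFinite (Cu u)
      by_contra hcon
      apply hg
      rw [H75.ext0, dif_pos h]
      exact H25.eh_sing T3.H62.wbo_ ℓ M hM _ hb.idem ⟨g, h⟩ (fun hr => hcon (T3.H62.reg_coe hr))
    · exact absurd (H75.ext0_supp _ _ g h) hg
  -- the values
  have e1 : ∀ χ : G → ℂ, (∑ᶠ g, J g * χ (z * g)) = chv (fun g => J (z⁻¹ * g)) χ := by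
    intro χ
    change (∑ᶠ g, J g * χ (z * g)) = ∑ᶠ g, J (z⁻¹ * g) * χ g
    rw [finsum_eq_sum_of_fintype, finsum_eq_sum_of_fintype,
      ← Equiv.sum_comp (Equiv.mulLeft z) (fun g => J (z⁻¹ * g) * χ g)]
    refine Finset.sum_congr rfl fun g _ => ?_
    simp only [Equiv.coe_mulLeft, inv_mul_cancel_left]
  have e2 : ∀ χ ∈ Irr G, starRingEnd ℂ (gv M (Cu u) u b χ) =
      chv (fun g => B' (u * g)) χ := by
    intro χ hχ
    change starRingEnd ℂ (∑ᶠ c : Cu u, eh M (fun t : Cu u => b t) c * χ (u * c)) =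
      ∑ᶠ g, B' (u * g) * χ g
    have := Fintype.ofFinite (Cu u)
    rw [finsum_eq_sum_of_fintype, map_sum, ← Equiv.sum_comp (Equiv.inv (Cu u))]
    have e3 : ∀ c : Cu u, starRingEnd ℂ (eh M (fun t : Cu u => b t) ((Equiv.inv (Cu u)) c) *
        χ (u * (((Equiv.inv (Cu u)) c : Cu u) : G))) =
        eh M (fun t : Cu u => b t) c * χ (u⁻¹ * c) := by
      intro c
      rw [map_mul, H10.eh_conj, H94.irr_star hχ]
      have e4 : (u * (((Equiv.inv (Cu u)) c : Cu u) : G))⁻¹ = u⁻¹ * c := by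
        have h1 : ((((Equiv.inv (Cu u)) c : Cu u) : G)) = (c : G)⁻¹ := rfl
        rw [h1, mul_inv_rev, inv_inv]
        exact ((T3.H62.comm_Cu c.2).inv_right).eq
      have e5 : ((Equiv.inv (Cu u)) c)⁻¹ = c := by
        change (c⁻¹)⁻¹ = c
        rw [inv_inv]
      rw [e4, e5]
    rw [Finset.sum_congr rfl (fun c _ => e3 c), ← finsum_eq_sum_of_fintype,
      sumext (Cu u) (eh M (fun t : Cu u => b t)) (fun g => χ (u⁻¹ * g)),
      finsum_eq_sum_of_fintype,
      ← Equiv.sum_comp (Equiv.mulLeft u⁻¹) (fun g => B' (u * g) * χ g), hB']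
    refine Finset.sum_congr rfl fun g _ => ?_
    simp only [Equiv.coe_mulLeft, mul_inv_cancel_left]
  have e6 : ∑ᶠ χ ∈ Irr G, (∑ᶠ g, J g * χ (z * g)) * starRingEnd ℂ (gv M (Cu u) u b χ) =
      ∑ᶠ χ ∈ Irr G, chv (fun g => J (z⁻¹ * g)) χ * chv (fun g => B' (u * g)) χ := by
    refine finsum_mem_congr rfl fun χ hχ => ?_
    rw [e1, e2 χ hχ]
  rw [e6, Pool.Agent.PP.KF.trc]
  -- parts
  obtain ⟨N, -, hN⟩ := H27.prt ℓ G
  refine finsum_eq_zero_of_forall_eq_zero fun x => ?_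
  by_cases hx : x * u * x⁻¹ = z
  · have h0 := hcon x hx
    let φ := T3.H62.cjE hx
    have hcx : ∀ w, w ∈ Cu z ↔ x⁻¹ * w * x ∈ Cu u := by
      intro w
      constructor
      · intro hw
        exact (φ.symm ⟨w, hw⟩).2
      · intro hw
        have h1 := (φ ⟨x⁻¹ * w * x, hw⟩).2
        change x * (x⁻¹ * w * x) * x⁻¹ ∈ Cu z at h1
        have h2 : x * (x⁻¹ * w * x) * x⁻¹ = w := by group
        rwa [h2] at h1
    have hB0 : mulF J (H75.cj x B') = 0 := by
      obtain ⟨B, hB⟩ : ∃ B : G → ℂ, B = H75.ext0 (Cu z) (eh M (fun t : Cu z => c t)) := ⟨_, rfl⟩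
      have hB1 : mulF B (H75.cj x B') = 0 := by
        have hs1 : ∀ w, w ∉ Cu z → B w = 0 := by
          rw [hB]; exact H75.ext0_supp _ _
        have hs2 : ∀ w, w ∉ Cu z → H75.cj x B' w = 0 := by
          intro w hw
          change B' (x⁻¹ * w * x) = 0
          rw [hB']
          apply H75.ext0_supp
          intro h
          exact hw ((hcx w).2 h)
        apply eq_of_res (mulF_supp (Cu z) hs1 hs2) (fun _ _ => rfl)
        rw [mulF_res (Cu z) _ hs1]
        have h1 : (fun t : Cu z => B t) = eh M (fun t : Cu z => c t) := by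
          rw [hB]
          exact funext (H75.ext0_apply _ _)
        have h2 : (fun t : Cu z => H75.cj x B' t) = eh M (fun t : Cu z => H75.cj x b t) := by
          funext t
          have h3 := T3.H62.eh_equiv (M := M) φ hb.idem.1 (φ.symm t)
          rw [φ.apply_symm_apply] at h3
          have h4 : (fun y : Cu z => b ((φ.symm y : Cu u) : G)) =
              fun t : Cu z => H75.cj x b t := rfl
          rw [h4] at h3
          rw [h3]
          change B' (x⁻¹ * (t : G) * x) = _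
          rw [hB']
          exact H75.ext0_apply (Cu u) _ (φ.symm t)
        rw [h1, h2]
        have h5 : IsIdem (fun t : Cu z => H75.cj x b t) := by
          refine ⟨?_, ?_⟩
          · intro w y
            change b (x⁻¹ * ((y : G) * w * (y : G)⁻¹) * x) = b (x⁻¹ * w * x)
            have h6 := hb.idem.1 (φ.symm w) (φ.symm y)
            have h7 : ((φ.symm y * φ.symm w * (φ.symm y)⁻¹ : Cu u) : G) =
                x⁻¹ * ((y : G) * w * (y : G)⁻¹) * x := by
              rw [← map_inv, ← map_mul, ← map_mul]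
              rfl
            change b ((φ.symm y * φ.symm w * (φ.symm y)⁻¹ : Cu u) : G) = b (x⁻¹ * w * x) at h6
            rw [h7] at h6
            exact h6
          · have hs3 : ∀ w, w ∉ Cu z → H75.cj x b w = 0 := by
              intro w hw
              change b (x⁻¹ * w * x) = 0
              apply hb.supp
              intro h
              exact hw ((hcx w).2 h)
            rw [← mulF_res (Cu z) (H75.cj x b) hs3, ← cj_mulF, hb.mul]
        have h6 : mulF (fun t : Cu z => c t) (fun t : Cu z => H75.cj x b t) = 0 := by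
          rw [← mulF_res (Cu z) (H75.cj x b) hc.supp, h0]
          rfl
        exact T3.H62.eh_orth hc.idem h5 h6
      rw [← hB] at hJm
      rw [← hJm, H20.mulF_assoc, hB1, mulF_zero_right]
    have h1 := congrFun hB0 1
    change (∑ᶠ t, J t * B' (x⁻¹ * (t⁻¹ * 1) * x)) = 0 at h1
    rw [finsum_eq_sum_of_fintype] at h1 ⊢
    rw [← h1, ← Equiv.sum_comp (Equiv.mulLeft z)
      (fun g => J (z⁻¹ * g) * B' (u * (x⁻¹ * g⁻¹ * x)))]
    refine Finset.sum_congr rfl fun g _ => ?_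
    simp only [Equiv.coe_mulLeft, inv_mul_cancel_left, mul_one]
    by_cases hg : J g = 0
    · rw [hg, zero_mul, zero_mul]
    · congr 2
      have h2 : Commute g z := T3.H62.comm_Cu (hreg g hg).1
      have h3 : u = x⁻¹ * z * x := by rw [← hx]; group
      rw [h3, h2.symm.eq, mul_inv_rev]
      group
  · refine finsum_eq_zero_of_forall_eq_zero fun g => ?_
    by_contra hne
    have h1 : J (z⁻¹ * g) ≠ 0 := left_ne_zero_of_mul hne
    have h2 : B' (u * (x⁻¹ * g⁻¹ * x)) ≠ 0 := right_ne_zero_of_mul hne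
    obtain ⟨s, hs⟩ : ∃ s, s = z⁻¹ * g := ⟨_, rfl⟩
    obtain ⟨s', hs'⟩ : ∃ s', s' = u * (x⁻¹ * g⁻¹ * x) := ⟨_, rfl⟩
    rw [← hs] at h1
    rw [← hs'] at h2
    obtain ⟨hsC, hsR⟩ := hreg s h1
    obtain ⟨hsC', hsR'⟩ := hreg' s' h2
    have hg : g = z * s := by rw [hs]; group
    have h3 : x⁻¹ * (s⁻¹ * z⁻¹) * x = s' * u⁻¹ := by
      have h4 : Commute s' u⁻¹ := (T3.H62.comm_Cu hsC').inv_right
      rw [h4.eq, hs', hg, mul_inv_rev]
      group
    have hsi : Reg ℓ s⁻¹ := by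
      unfold Reg at hsR ⊢
      rwa [orderOf_inv]
    have hinv : ∀ {y : G}, El ℓ y → ∃ n : ℕ, (y⁻¹) ^ ℓ ^ n = 1 := by
      rintro y ⟨n, hn⟩
      exact ⟨n, by rw [inv_pow, hn, inv_one]⟩
    have k1 : (s⁻¹ * z⁻¹) ^ N = s⁻¹ :=
      hN s⁻¹ z⁻¹ (T3.H62.comm_Cu hsC).inv_inv hsi (hinv hz)
    have k2 : (s' * u⁻¹) ^ N = s' :=
      hN s' u⁻¹ (T3.H62.comm_Cu hsC').inv_right hsR' (hinv hu)
    have h5 : x⁻¹ * s⁻¹ * x = s' := by
      rw [← k2, ← h3]
      have h6 : x⁻¹ * (s⁻¹ * z⁻¹) * x = x⁻¹ * (s⁻¹ * z⁻¹) * (x⁻¹)⁻¹ := by group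
      rw [h6, conj_pow, k1]
      group
    apply hx
    have h7 : x⁻¹ * (s⁻¹ * z⁻¹) * x = (x⁻¹ * s⁻¹ * x) * (x⁻¹ * z⁻¹ * x) := by group
    rw [h7, h5] at h3
    have h8 : x⁻¹ * z⁻¹ * x = u⁻¹ := mul_left_cancel h3
    have h9 : u = x⁻¹ * z * x := by
      have h10 := congrArg (·⁻¹) h8
      simp only [inv_inv, mul_inv_rev] at h10
      rw [← h10]
      group
    rw [h9]
    group

end core

/-- row ORI -/
theorem ori (hLCL : LclStmt) (hPRJ : PrjStmt) (hLOC : T3.LocStmt) (hFUS : T3.FusStmt) :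
    OriStmt := by
  intro ℓ _ M _ hM G _ _ e V γ b d c ε hD i hi u hu z hz hne
  classical
  have hF : GoodF ℓ (FF M) := H50.fld ℓ Fact.out M hM
  have hL := hD.ld
  obtain ⟨bz, hbz⟩ := (hLOC ℓ (FF M) hF G e V γ hL z hz).1
  obtain ⟨j, hj, hjs, -, hjm, hjv⟩ := hLCL ℓ M hM G e V γ hL i hi z hz bz hbz
  have hlcu := hD.lc u hu
  have hEl : ∀ v ∈ V, El ℓ v := by
    intro v hv
    obtain ⟨n, hn⟩ := hL.tp.pg ⟨v, hv⟩
    exact ⟨n, congrArg (fun v : V => (v : G)) hn⟩
  have hBc : ∀ x ∈ Cu z, ∀ s, H75.ext0 (Cu z) (eh M (fun t : Cu z => bz t)) (x * s * x⁻¹) =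
      H75.ext0 (Cu z) (eh M (fun t : Cu z => bz t)) s := by
    intro x hx s
    have := Fintype.ofFinite (Cu z)
    by_cases hs : s ∈ Cu z
    · have h1 := KF.H25.eh_cl (M := M) (fun t : Cu z => bz t) ⟨s, hs⟩ ⟨x, hx⟩
      have h2 := H75.ext0_apply (Cu z) (eh M (fun t : Cu z => bz t)) ⟨s, hs⟩
      have h3 := H75.ext0_apply (Cu z) (eh M (fun t : Cu z => bz t))
        ((⟨x, hx⟩ : Cu z) * ⟨s, hs⟩ * (⟨x, hx⟩ : Cu z)⁻¹)
      rw [h1, ← h2] at h3
      exact h3
    · rw [H75.ext0_supp _ _ _ hs, H75.ext0_supp]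
      intro h
      exact hs ((mem_conj_Cu ⟨x, hx⟩ s).1 h)
  have hjm' : mulF j (H75.ext0 (Cu z) (eh M (fun t : Cu z => bz t))) = j := hjm
  have hres : ∀ th : Cu z → ℂ, (∀ x y, th (y * x * y⁻¹) = th x) → (∀ x, Reg ℓ x → th x = 0) →
      ∑ᶠ h : Cu z, j h * th h = 0 := by
    intro th h1 h2
    have h3 : mulF (fun t : Cu z => j t) (fun t : Cu z => j t) = fun t : Cu z => j t := by
      rw [← mulF_res (Cu z) j hjs, hj.id]
    exact hPRJ ℓ M hM (Cu z) (fun t : Cu z => j t) (fun g => hj.rm g) h3 th h1 h2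
  have key := ori_core (G := G) M hM (hEl z hz) (hEl u hu.1) hbz.blk.ix hlcu.blk.ix
    (J := avj z j) (avj_supp hjs) (fun s hs => avj_sing hres s hs) (avj_mul hBc hjm') (by
      intro x hx
      rcases hbz.blk.dich (T3.H49.bx_cj hx hlcu.blk) with h | h
      · exfalso
        obtain ⟨t, ht, htu⟩ := hFUS ℓ M hM G e V γ hL z hz u hu.1 bz (b u) hbz hlcu x hx h.symm
        exact hne t ht htu
      · exact h)
  have h1 : ∀ χ ∈ Irr G, fv i z χ * starRingEnd ℂ (vv M b d u χ) =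
      (∑ᶠ g, avj z j g * χ (z * g)) * starRingEnd ℂ (gv M (Cu u) u (b u) χ) * (d u : ℂ)⁻¹ := by
    intro χ hχ
    have hcl : ∀ x y, χ (y * x * y⁻¹) = χ x := fun x y => irr_conj hχ x y
    rw [hjv χ hcl, avj_val hcl]
    unfold vv fv
    rw [map_div₀, Complex.conj_natCast, div_eq_mul_inv, mul_assoc]
  rw [finsum_mem_congr rfl h1]
  have hfin : (Irr G).Finite := T3.H49.irr_fin G
  rw [finsum_mem_eq_finite_toFinset_sum _ hfin, ← Finset.sum_mul,
    ← finsum_mem_eq_finite_toFinset_sum _ hfin, key, zero_mul]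

end Pool.Agent.PP.T8.H8
end
end -- Pool.Agent.Helper8_AT8.ORI

section -- Pool.Agent.Helper48_AT2.UX1

/-! Squad AT2, row UX1: a regular element of order `ℓ ^ a` if the inertial index is smaller
than `ℓ`. -/

open scoped BigOperators

noncomputable section

namespace Pool.Agent.PP.T2.H48

open Pool.Agent.Helper51_AWC Pool.Agent.Helper79_WRA Pool.Agent.PP Pool.Agent.PP.KF
open Pool.Agent.PP.K9 Pool.Agent.PP.K9.H97 Pool.Agent.PP.H75 Pool.Agent.PP.T3

/-- a proper subgroup of a group of order `ℓ ^ (b + 1)` has at most `ℓ ^ b` elements -/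
theorem card_le_of_ne {G : Type} [Group G] [Finite G] {ℓ b : ℕ} (hp : ℓ.Prime) {V W : Subgroup G}
    (hV : Nat.card V = ℓ ^ (b + 1)) (hWV : W ≤ V) (hne : W ≠ V) : Nat.card W ≤ ℓ ^ b := by
  have h1 : Nat.card W ∣ ℓ ^ (b + 1) := by
    rw [← hV]
    exact Subgroup.card_dvd_of_le hWV
  obtain ⟨i, hi, hi2⟩ := (Nat.dvd_prime_pow hp).1 h1
  rw [hi2]
  rcases Nat.lt_or_ge i (b + 1) with h2 | h2
  · exact Nat.pow_le_pow_right hp.pos (by omega)
  · exfalso
    have h3 : i = b + 1 := le_antisymm hi h2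
    have h4 : Nat.card W = Nat.card V := by rw [hi2, h3, hV]
    exact hne (Subgroup.eq_of_le_of_card_ge hWV h4.ge)

/-- the elements of an abelian subgroup with `u ^ n = 1` -/
def Om {G : Type} [Group G] (V : Subgroup G) (hab : ∀ a ∈ V, ∀ b ∈ V, a * b = b * a) (n : ℕ) :
    Subgroup G where
  carrier := {u | u ∈ V ∧ u ^ n = 1}
  one_mem' := ⟨V.one_mem, one_pow n⟩
  mul_mem' := by
    rintro x y ⟨hx, hx2⟩ ⟨hy, hy2⟩
    refine ⟨V.mul_mem hx hy, ?_⟩
    have hc : Commute x y := hab x hx y hy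
    rw [hc.mul_pow, hx2, hy2, one_mul]
  inv_mem' := by
    rintro x ⟨hx, hx2⟩
    refine ⟨V.inv_mem hx, ?_⟩
    rw [inv_pow, hx2, inv_one]

theorem mem_Om {G : Type} [Group G] {V : Subgroup G} {hab : ∀ a ∈ V, ∀ b ∈ V, a * b = b * a}
    {n : ℕ} {u : G} : u ∈ Om V hab n ↔ u ∈ V ∧ u ^ n = 1 := Iff.rfl

theorem ux1 : Ux1Stmt := by
  intro ℓ hℓ F _ hF G _ _ e V γ hL a ha hexp hix
  classical
  have hp : ℓ.Prime := hℓ.out
  set C := Subgroup.centralizer (V : Set G) with hC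
  set T := Tg V γ with hT
  have hCT : C ≤ T := Pool.Agent.PP.T3.H49.cen_le_Tg hL.gam
  have hE : ix V γ = Nat.card (T ⧸ C.subgroupOf T) := rfl
  set E := ix V γ with hEd
  have hE1 : 1 ≤ E := by
    rw [hE]
    exact Nat.card_pos
  haveI := Fintype.ofFinite G
  haveI : Fintype (T ⧸ C.subgroupOf T) := Fintype.ofFinite _
  -- the order of V
  obtain ⟨k, hk⟩ := (IsPGroup.iff_card.1 hL.tp.pg)
  have hk0 : k ≠ 0 := by
    intro h
    rw [h, pow_zero] at hk
    have h1 : V = ⊥ := Subgroup.card_eq_one.1 hk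
    have h2 : Monoid.exponent V ∣ 1 := by
      rw [← hk]
      exact Group.exponent_dvd_nat_card
    rw [hexp] at h2
    have h3 := Nat.dvd_one.1 h2
    have h4 : 1 < ℓ ^ a := Nat.one_lt_pow (by omega) hp.one_lt
    omega
  obtain ⟨b, rfl⟩ := Nat.exists_eq_succ_of_ne_zero hk0
  set v := ℓ ^ b with hv
  have hVb : Nat.card V = ℓ ^ (b + 1) := hk
  have hVv : Nat.card V = ℓ * v := by rw [hk, hv, Nat.succ_eq_add_one, pow_succ, mul_comm]
  have hv1 : 1 ≤ v := Nat.one_le_iff_ne_zero.2 (pow_ne_zero _ hp.ne_zero)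
  -- the elements of small order
  have hOm : Nat.card (Om V hL.ab (ℓ ^ (a - 1))) ≤ v := by
    refine card_le_of_ne hp hVb (fun u hu => (mem_Om.1 hu).1) ?_
    intro h
    have h1 : Monoid.exponent V ∣ ℓ ^ (a - 1) := by
      refine Monoid.exponent_dvd_of_forall_pow_eq_one fun u => ?_
      have h2 : (u : G) ∈ Om V hL.ab (ℓ ^ (a - 1)) := by
        rw [h]
        exact u.2
      apply Subtype.ext
      rw [Subgroup.coe_pow, Subgroup.coe_one]
      exact (mem_Om.1 h2).2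
    rw [hexp] at h1
    have h2 := (Nat.pow_dvd_pow_iff_le_right hp.one_lt).1 h1
    omega
  -- the fixed subgroups
  let W : (T ⧸ C.subgroupOf T) → Subgroup G := fun q => V ⊓ Cu ((q.out : T) : G)
  have hW : ∀ q, q ≠ ((1 : T) : T ⧸ C.subgroupOf T) → Nat.card (W q) ≤ v := by
    intro q hq
    refine card_le_of_ne hp hVb inf_le_left ?_
    intro h5
    apply hq
    have h6 : ((q.out : T) : G) ∈ C := by
      refine Subgroup.mem_centralizer_iff.2 ?_
      intro w hw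
      have h7 : w ∈ W q := by
        rw [h5]
        exact hw
      have h8 := (Subgroup.mem_inf.1 h7).2
      exact (Subgroup.mem_centralizer_iff.1 h8 _ rfl).symm
    have h9 : ((q.out : T) : T ⧸ C.subgroupOf T) = ((1 : T) : T ⧸ C.subgroupOf T) := by
      rw [QuotientGroup.eq, mul_one, Subgroup.inv_mem_iff, Subgroup.mem_subgroupOf]
      exact h6
    rw [← h9]
    exact (Quotient.out_eq' q).symm
  -- the sets
  let A : Finset G := Finset.univ.filter (fun u => u ∈ V)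
  let O : Finset G := Finset.univ.filter (fun u => u ∈ Om V hL.ab (ℓ ^ (a - 1)))
  let S : Finset G := (Finset.univ.filter (fun q : T ⧸ C.subgroupOf T =>
    q ≠ ((1 : T) : T ⧸ C.subgroupOf T))).biUnion
      (fun q => Finset.univ.filter (fun u => u ∈ W q))
  have cardsub : ∀ H : Subgroup G, (Finset.univ.filter (fun u => u ∈ H)).card = Nat.card H := by
    intro H
    rw [← Set.ncard_coe_finset]
    have : ((Finset.univ.filter (fun u : G => u ∈ H) : Finset G) : Set G) = (H : Set G) := by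
      ext u
      simp
    rw [this, Set.ncard_eq_toFinset_card' , ← Nat.card_eq_card_toFinset]
    rfl
  have hS : S.card ≤ (E - 1) * v := by
    have h1 : S.card ≤ ∑ q ∈ (Finset.univ.filter (fun q : T ⧸ C.subgroupOf T =>
        q ≠ ((1 : T) : T ⧸ C.subgroupOf T))), v := by
      refine le_trans Finset.card_biUnion_le (Finset.sum_le_sum fun q hq => ?_)
      rw [cardsub]
      exact hW q (by simpa using hq)
    rw [Finset.sum_const, smul_eq_mul] at h1
    have h2 : (Finset.univ.filter (fun q : T ⧸ C.subgroupOf T =>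
        q ≠ ((1 : T) : T ⧸ C.subgroupOf T))).card = E - 1 := by
      rw [Finset.filter_ne', Finset.card_erase_of_mem (Finset.mem_univ _), Finset.card_univ, hE,
        Nat.card_eq_fintype_card]
    rw [h2] at h1
    exact h1
  have hlt : (O ∪ S).card < A.card := by
    have h1 : (O ∪ S).card ≤ v + (E - 1) * v :=
      le_trans (Finset.card_union_le _ _) (add_le_add (by rw [cardsub]; exact hOm) hS)
    have h2 : A.card = ℓ * v := by rw [← hVv]; exact cardsub V
    have h3 : v + (E - 1) * v = E * v := by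
      obtain ⟨E', hE'⟩ : ∃ E', E = E' + 1 := ⟨E - 1, by omega⟩
      rw [hE', Nat.add_sub_cancel]
      ring
    rw [h2]
    refine lt_of_le_of_lt h1 ?_
    rw [h3]
    exact Nat.mul_lt_mul_of_pos_right hix hv1
  obtain ⟨u, huA, huN⟩ : ∃ u ∈ A, u ∉ O ∪ S := by
    by_contra hcon
    push Not at hcon
    exact absurd (Finset.card_le_card hcon) (not_le.2 hlt)
  have huV : u ∈ V := by simpa [A] using huA
  have huO : u ∉ Om V hL.ab (ℓ ^ (a - 1)) := by
    intro h
    exact huN (Finset.mem_union_left _ (by simp [O, h]))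
  have hpow : ¬ u ^ ℓ ^ (a - 1) = 1 := fun h => huO (mem_Om.2 ⟨huV, h⟩)
  refine ⟨u, ⟨huV, ?_, ?_⟩, ?_⟩
  · rintro rfl
    exact hpow (one_pow _)
  · intro t ht
    obtain ⟨htT, htu⟩ := Subgroup.mem_inf.1 ht
    by_contra htC
    apply huN
    apply Finset.mem_union_right
    let t' : T := ⟨t, htT⟩
    let q : T ⧸ C.subgroupOf T := (t' : T ⧸ C.subgroupOf T)
    have hq : q ≠ ((1 : T) : T ⧸ C.subgroupOf T) := by
      intro h
      rw [QuotientGroup.eq, mul_one, Subgroup.inv_mem_iff, Subgroup.mem_subgroupOf] at h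
      exact htC h
    have hc : ((t' : T)⁻¹ * q.out) ∈ C.subgroupOf T := by
      rw [← QuotientGroup.eq]
      exact (Quotient.out_eq' q).symm
    rw [Subgroup.mem_subgroupOf] at hc
    simp only [S, Finset.mem_biUnion, Finset.mem_filter, Finset.mem_univ, true_and]
    refine ⟨q, hq, ?_⟩
    refine Subgroup.mem_inf.2 ⟨huV, ?_⟩
    rw [Subgroup.mem_centralizer_iff]
    intro w hw
    rw [Set.mem_singleton_iff] at hw
    rw [hw]
    have h2 : u * t = t * u := Subgroup.mem_centralizer_iff.1 htu u rfl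
    have h3 := Subgroup.mem_centralizer_iff.1 hc u huV
    have h4 : ((q.out : T) : G) = t * (((t' : T)⁻¹ * q.out : T) : G) := by
      simp [t']
    rw [h4]
    calc t * (((t' : T)⁻¹ * q.out : T) : G) * u
        = t * ((((t' : T)⁻¹ * q.out : T) : G) * u) := by group
      _ = t * (u * (((t' : T)⁻¹ * q.out : T) : G)) := by rw [h3]
      _ = (t * u) * (((t' : T)⁻¹ * q.out : T) : G) := by group
      _ = (u * t) * (((t' : T)⁻¹ * q.out : T) : G) := by rw [h2]
      _ = u * (t * (((t' : T)⁻¹ * q.out : T) : G)) := by group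
  · obtain ⟨a', rfl⟩ : ∃ a', a = a' + 1 := ⟨a - 1, by omega⟩
    rw [Nat.add_sub_cancel] at hpow
    refine orderOf_eq_prime_pow hpow ?_
    have h1 : (⟨u, huV⟩ : V) ^ Monoid.exponent V = 1 := Monoid.pow_exponent_eq_one _
    rw [hexp] at h1
    have h2 := congrArg (fun x : V => (x : G)) h1
    simpa using h2

end Pool.Agent.PP.T2.H48
end
end -- Pool.Agent.Helper48_AT2.UX1

section -- Pool.Agent.Helper94_AT2.BJC

/-!
# Squad AT2, rows BJC and BN2

Bessel's inequality for the powers of a regular element, and the bound for the number of the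
characters which are fixed by the power map.
-/

open scoped BigOperators

noncomputable section

namespace Pool.Agent.PP.T2.H94

open Pool.Agent.Helper51_AWC Pool.Agent.Helper79_WRA Pool.Agent.PP Pool.Agent.PP.KF
open Pool.Agent.PP.K9 Pool.Agent.PP.K9.H97 Pool.Agent.PP.H75 Pool.Agent.PP.T3

attribute [local instance] Ideal.Quotient.field

theorem fm_ind {α : Type} {S I : Set α} (hSI : S ⊆ I) [Fintype I] (f : α → ℝ)
    [DecidablePred (· ∈ S)] :
    ∑ᶠ x ∈ S, f x = ∑ x : I, (if (x : α) ∈ S then f x else 0) := by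
  classical
  rw [← T3.H49.finsum_mem_fintype (fun x : α => if x ∈ S then f x else 0)]
  refine finsum_congr fun x => ?_
  rw [finsum_eq_if, finsum_eq_if]
  by_cases h : x ∈ S
  · simp [h, hSI h]
  · rw [if_neg h]
    split_ifs <;> rfl

theorem bjc (co1 : T3.Co1Stmt) (bes : T3.BesStmt) (rgl : T3.RglStmt) (loc : T3.LocStmt)
    (lpw : T3.LpwStmt) (orj : T2.OrjStmt) (vjc : T2.VjcStmt) : T2.BjcStmt := by
  intro ℓ hℓ M _ hM G _ _ N hN e V γ hL u a hu ha hou b hb d hdg j hj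
  classical
  have hp : ℓ.Prime := hℓ.out
  have hF : GoodF ℓ (FF M) := H50.fld ℓ Fact.out M hM
  haveI : Finite (Irr G) := (T3.H49.irr_fin G).to_subtype
  haveI : Fintype (Irr G) := Fintype.ofFinite _
  have huV : u ∈ V := hu.1
  have hEl : ∀ w ∈ V, El ℓ w := by
    intro w hw
    obtain ⟨n, hn⟩ := hL.tp.pg ⟨w, hw⟩
    exact ⟨n, congrArg Subtype.val hn⟩
  have hd : 0 < d := hdg.1
  have hd0 : (d : ℂ) ≠ 0 := by exact_mod_cast hd.ne'
  -- the exponents
  let ex : Fin (ℓ ^ (a - 1)) → ℕ := fun k => j % ℓ + ℓ * k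
  have hex2 : ∀ k, j ≡ ex k [MOD ℓ] := by
    intro k
    change j % ℓ = (j % ℓ + ℓ * k) % ℓ
    rw [Nat.add_mul_mod_self_left, Nat.mod_mod]
  have hex1 : ∀ k, ¬ ℓ ∣ ex k := by
    intro k h
    apply hj
    have h1 := hex2 k
    exact (h1.dvd_iff (dvd_refl ℓ)).2 h
  have hlt : ∀ k, ex k < ℓ ^ a := by
    intro k
    have h1 : j % ℓ < ℓ := Nat.mod_lt _ hp.pos
    have h2 : (k : ℕ) + 1 ≤ ℓ ^ (a - 1) := k.2
    have h3 : ℓ * ((k : ℕ) + 1) ≤ ℓ * ℓ ^ (a - 1) := Nat.mul_le_mul_left _ h2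
    have h4 : ℓ * ℓ ^ (a - 1) = ℓ ^ a := by
      rw [← pow_succ']
      congr 1
      omega
    rw [h4, mul_add, mul_one] at h3
    change j % ℓ + ℓ * (k : ℕ) < ℓ ^ a
    omega
  have hex3 : ∀ k k', k ≠ k' → u ^ ex k ≠ u ^ ex k' := by
    intro k k' hne h
    apply hne
    have h1 : ex k = ex k' := by
      refine pow_injOn_Iio_orderOf ?_ ?_ h
      · rw [Set.mem_Iio, hou]
        exact hlt k
      · rw [Set.mem_Iio, hou]
        exact hlt k'
    have h2 : ℓ * (k : ℕ) = ℓ * (k' : ℕ) := by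
      have : j % ℓ + ℓ * (k : ℕ) = j % ℓ + ℓ * (k' : ℕ) := h1
      omega
    exact Fin.ext (Nat.eq_of_mul_eq_mul_left hp.pos h2)
  let v : Fin (ℓ ^ (a - 1)) → Irr G → ℂ := fun k χ => gv M (Cu u) (u ^ ex k) b χ / d
  -- norms
  have hnorm : ∀ k, ∑ χ, v k χ * starRingEnd ℂ (v k χ) = ((Nat.card V : ℝ) : ℂ) := by
    intro k
    obtain ⟨hCu, hLc⟩ := lpw ℓ (FF M) hF G e V γ hL u huV b hb (ex k) (hex1 k)
    have h1 := co1 ℓ M hM G (u ^ ex k) (hEl _ (V.pow_mem huV _)) b hLc.blk.ix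
    rw [hCu] at h1
    obtain ⟨b', d', hb', hd', hcard, -⟩ := rgl ℓ M hM G e V γ hL u hu
    have hbb : b' = b := (loc ℓ (FF M) hF G e V γ hL u huV).2 b' b hb' hb
    rw [hbb] at hcard
    have hfin : (IrrE M (fun t : Cu u => b t)).Finite := T3.H49.irrE_fin M _
    have h2 : ∑ᶠ κ ∈ IrrE M (fun t : Cu u => b t), κ 1 ^ 2 =
        (Nat.card V : ℂ) * (d : ℂ) ^ 2 := by
      rw [T3.H49.finsum_mem_const_eq hfin (fun κ => κ 1 ^ 2) ((d : ℂ) ^ 2) (by
        intro κ hκ
        rw [hdg.2 κ hκ]), hcard]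
    rw [h2, T3.H49.finsum_mem_fintype] at h1
    have h3 : ∀ χ : Irr G, v k χ * starRingEnd ℂ (v k χ) =
        (gv M (Cu u) (u ^ ex k) b χ * starRingEnd ℂ (gv M (Cu u) (u ^ ex k) b χ)) /
          (d : ℂ) ^ 2 := by
      intro χ
      simp only [v, map_div₀, Complex.conj_natCast]
      field_simp
    simp only [h3]
    rw [← Finset.sum_div, h1]
    push_cast
    field_simp
  have horth : ∀ k k', k ≠ k' → ∑ χ, v k χ * starRingEnd ℂ (v k' χ) = 0 := by
    intro k k' hne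
    have h1 := orj ℓ M hM G e V γ hL u huV b hb (ex k) (ex k') (hex1 k)
      ((hex2 k).symm.trans (hex2 k')) (hex3 k k' hne)
    rw [T3.H49.finsum_mem_fintype] at h1
    have h3 : ∀ χ : Irr G, v k χ * starRingEnd ℂ (v k' χ) =
        (gv M (Cu u) (u ^ ex k) b χ * starRingEnd ℂ (gv M (Cu u) (u ^ ex k') b χ)) /
          ((d : ℂ) * (d : ℂ)) := by
      intro χ
      simp only [v, map_div₀, Complex.conj_natCast]
      rw [div_mul_div_comm]
    simp only [h3]
    rw [← Finset.sum_div, h1, zero_div]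
  have hrow : ∀ k, ∑ k', ‖∑ χ, v k χ * starRingEnd ℂ (v k' χ)‖ ≤ (Nat.card V : ℝ) := by
    intro k
    rw [Finset.sum_eq_single k]
    · rw [hnorm k, Complex.norm_real]
      simp
    · intro k' _ hne
      rw [horth k k' (Ne.symm hne), norm_zero]
    · intro h
      exact absurd (Finset.mem_univ k) h
  -- the test vector
  let P : Set (G → ℂ) := {χ | χ ∈ IrrE M e ∧ ∀ g, χ (g ^ N) = χ g}
  have hPI : P ⊆ Irr G := fun χ h => h.1.1
  let w : (G → ℂ) → ℂ := fun χ => gv M (Cu u) (u ^ j) b χ / d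
  let s : Irr G → ℂ := fun χ => if (χ : G → ℂ) ∈ P then starRingEnd ℂ (w χ) else 0
  obtain ⟨x, hx⟩ : ∃ x : ℝ, x = ∑ᶠ χ ∈ P, Complex.normSq (w χ) := ⟨_, rfl⟩
  have hx1 : x = ∑ χ : Irr G, (if (χ : G → ℂ) ∈ P then Complex.normSq (w χ) else 0) := by
    rw [hx]
    exact fm_ind hPI _
  have hx0 : 0 ≤ x := by
    rw [hx1]
    refine Finset.sum_nonneg fun χ _ => ?_
    split_ifs
    · exact Complex.normSq_nonneg _
    · exact le_rfl
  have hsv : ∀ k, ∑ χ, s χ * v k χ = (x : ℂ) := by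
    intro k
    rw [hx1]
    push_cast
    refine Finset.sum_congr rfl fun χ _ => ?_
    by_cases h : (χ : G → ℂ) ∈ P
    · have h1 : gv M (Cu u) (u ^ j) b χ = gv M (Cu u) (u ^ ex k) b χ :=
        vjc ℓ M hM G N hN u (hEl u huV) b hb.blk.ix χ h.1.1 h.2 j (ex k) hj (hex2 k)
      have h2 : v k χ = w χ := by
        simp only [v, w]
        rw [h1]
      rw [h2]
      simp only [s, if_pos h]
      rw [mul_comm, Complex.mul_conj]
    · simp only [s, if_neg h]
      simp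
  have hss : ∑ χ, Complex.normSq (s χ) = x := by
    rw [hx1]
    refine Finset.sum_congr rfl fun χ _ => ?_
    by_cases h : (χ : G → ℂ) ∈ P
    · simp only [s, if_pos h]
      rw [Complex.normSq_conj]
    · simp only [s, if_neg h]
      simp
  have hB := bes (Fin (ℓ ^ (a - 1))) (Irr G) v _ (Nat.cast_nonneg _) hrow s
  rw [hss] at hB
  simp only [hsv, Complex.normSq_ofReal] at hB
  rw [Finset.sum_const, Finset.card_univ, Fintype.card_fin, nsmul_eq_mul] at hB
  change (ℓ : ℝ) ^ (a - 1) * ∑ᶠ χ ∈ P, Complex.normSq (w χ) ≤ Nat.card V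
  rw [← hx]
  push_cast at hB
  rcases hx0.eq_or_lt with h | h
  · rw [← h, mul_zero]
    positivity
  · have h1 : ((ℓ : ℝ) ^ (a - 1) * x) * x ≤ (Nat.card V : ℝ) * x := by
      calc ((ℓ : ℝ) ^ (a - 1) * x) * x = (ℓ : ℝ) ^ (a - 1) * (x * x) := by ring
        _ ≤ _ := hB
    exact le_of_mul_le_mul_right h1 h

theorem card_units {ℓ a : ℕ} (hp : ℓ.Prime) (ha : 0 < a) :
    ((Finset.range (ℓ ^ a)).filter (fun j => ¬ ℓ ∣ j)).card = ℓ ^ (a - 1) * (ℓ - 1) := by
  rw [← Nat.totient_prime_pow hp ha, Nat.totient_eq_card_coprime]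
  congr 1
  refine Finset.filter_congr fun j _ => ?_
  rw [Nat.coprime_pow_left_iff ha, hp.coprime_iff_not_dvd]

theorem bn2 (inr : T3.InrStmt) (glp : T3.GlpStmt) (lsb : T3.LsbStmt) (nz : K9.NzStmt)
    (rgl : T3.RglStmt) (bjc : T2.BjcStmt) : T2.Bn2Stmt := by
  intro ℓ hℓ M _ hM G _ _ N hN e V γ hL u a hu ha hou
  classical
  have hp : ℓ.Prime := hℓ.out
  obtain ⟨b, d, hb, hdg, -, -⟩ := rgl ℓ M hM G e V γ hL u hu
  have hd0 : (d : ℂ) ≠ 0 := by exact_mod_cast hdg.1.ne'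
  let P : Set (G → ℂ) := {χ | χ ∈ IrrE M e ∧ ∀ g, χ (g ^ N) = χ g}
  have hPf : P.Finite := (T3.H49.irrE_fin M e).subset fun _ h => h.1
  have hq : 0 < ℓ ^ a := pow_pos hp.pos a
  obtain ⟨ζ, hζ⟩ : ∃ ζ : ℂ, IsPrimitiveRoot ζ (ℓ ^ a) :=
    ⟨_, Complex.isPrimitiveRoot_exp (ℓ ^ a) hq.ne'⟩
  have huq : u ^ (ℓ ^ a) = 1 := by
    rw [← hou]
    exact pow_orderOf_eq_one u
  have hex : ∀ χ : G → ℂ, ∃ m : ℕ → ℤ, χ ∈ P → ∀ j : ℕ, gv M (Cu u) (u ^ j) b χ =
      d * ∑ i ∈ Finset.range (ℓ ^ a), (m i : ℂ) * ζ ^ (i * j) := by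
    intro χ
    by_cases h : χ ∈ P
    · obtain ⟨m, hm⟩ := inr M G u (ℓ ^ a) hq huq b hb.blk.ix d hdg ζ hζ χ h.1.1
      exact ⟨m, fun _ => hm⟩
    · exact ⟨0, fun h' => absurd h' h⟩
  choose m hm using hex
  let J : Finset ℕ := (Finset.range (ℓ ^ a)).filter (fun j => ¬ ℓ ∣ j)
  have hJ : J.card = ℓ ^ (a - 1) * (ℓ - 1) := card_units hp ha
  let f : (G → ℂ) → ℕ → ℝ := fun χ j =>
    Complex.normSq (∑ i ∈ Finset.range (ℓ ^ a), (m χ i : ℂ) * ζ ^ (i * j))
  have h1 : ∀ χ ∈ P, ((ℓ ^ (a - 1) * (ℓ - 1) : ℕ) : ℝ) ≤ ∑ j ∈ J, f χ j := by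
    intro χ hχ
    refine (glp ℓ a ha ζ hζ (m χ) ?_).1
    intro h0
    have h2 := lsb ℓ M hM G e V γ hL u hu.1 b hb
    have h3 := nz ℓ M hM G e hL.blk V hL.tp hL.ab u hu.1 (fun t : Cu u => b t) hb.blk.blk hb.und
      h2.1.tp.gd u (Subgroup.mem_zpowers u) χ hχ.1
    apply h3
    have h4 := hm χ hχ 1
    rw [pow_one] at h4
    change gv M (Cu u) u b χ = 0
    rw [h4]
    simp only [mul_one]
    rw [h0, mul_zero]
  have h2 : ∀ j ∈ J, (ℓ : ℝ) ^ (a - 1) * ∑ χ ∈ hPf.toFinset, f χ j ≤ Nat.card V := by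
    intro j hj
    have hj' : ¬ ℓ ∣ j := (Finset.mem_filter.1 hj).2
    have h3 := bjc ℓ M hM G N hN e V γ hL u a hu ha hou b hb d hdg j hj'
    have h4 : ∑ᶠ χ ∈ P, Complex.normSq (gv M (Cu u) (u ^ j) b χ / d) =
        ∑ χ ∈ hPf.toFinset, f χ j := by
      rw [finsum_mem_eq_finite_toFinset_sum _ hPf]
      refine Finset.sum_congr rfl fun χ hχ => ?_
      have hχ' : χ ∈ P := by simpa using hχ
      rw [hm χ hχ' j, mul_div_cancel_left₀ _ hd0]
    rw [← h4]
    exact h3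
  have hl0 : (0 : ℝ) < (ℓ : ℝ) ^ (a - 1) := pow_pos (by exact_mod_cast hp.pos) _
  have h3 : (P.ncard : ℝ) * ((ℓ ^ (a - 1) * (ℓ - 1) : ℕ) : ℝ) ≤
      ∑ χ ∈ hPf.toFinset, ∑ j ∈ J, f χ j := by
    have h4 : (P.ncard : ℝ) * ((ℓ ^ (a - 1) * (ℓ - 1) : ℕ) : ℝ) =
        ∑ χ ∈ hPf.toFinset, ((ℓ ^ (a - 1) * (ℓ - 1) : ℕ) : ℝ) := by
      rw [Finset.sum_const, nsmul_eq_mul, Set.ncard_eq_toFinset_card P hPf]
    rw [h4]
    refine Finset.sum_le_sum fun χ hχ => h1 χ ?_
    simpa using hχ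
  rw [Finset.sum_comm] at h3
  have h5 : (ℓ : ℝ) ^ (a - 1) * ∑ j ∈ J, ∑ χ ∈ hPf.toFinset, f χ j ≤
      ((ℓ ^ (a - 1) * (ℓ - 1) : ℕ) : ℝ) * Nat.card V := by
    rw [Finset.mul_sum, ← hJ]
    calc ∑ j ∈ J, (ℓ : ℝ) ^ (a - 1) * ∑ χ ∈ hPf.toFinset, f χ j ≤ ∑ j ∈ J, (Nat.card V : ℝ) :=
          Finset.sum_le_sum h2
      _ = (J.card : ℝ) * Nat.card V := by rw [Finset.sum_const, nsmul_eq_mul]
  have hc : (0 : ℝ) < ((ℓ ^ (a - 1) * (ℓ - 1) : ℕ) : ℝ) := by
    have h6 : 0 < ℓ ^ (a - 1) * (ℓ - 1) :=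
      Nat.mul_pos (pow_pos hp.pos _) (by have := hp.two_le; omega)
    exact_mod_cast h6
  have h7 : ((P.ncard : ℝ) * (ℓ : ℝ) ^ (a - 1)) * ((ℓ ^ (a - 1) * (ℓ - 1) : ℕ) : ℝ) ≤
      (Nat.card V : ℝ) * ((ℓ ^ (a - 1) * (ℓ - 1) : ℕ) : ℝ) := by
    have h8 := mul_le_mul_of_nonneg_left h3 hl0.le
    calc ((P.ncard : ℝ) * (ℓ : ℝ) ^ (a - 1)) * ((ℓ ^ (a - 1) * (ℓ - 1) : ℕ) : ℝ) =
          (ℓ : ℝ) ^ (a - 1) * ((P.ncard : ℝ) * ((ℓ ^ (a - 1) * (ℓ - 1) : ℕ) : ℝ)) := by ring
      _ ≤ _ := h8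
      _ ≤ _ := h5
      _ = _ := by ring
  have h9 := le_of_mul_le_mul_right h7 hc
  change P.ncard * ℓ ^ (a - 1) ≤ Nat.card V
  exact_mod_cast h9

end Pool.Agent.PP.T2.H94
end
end -- Pool.Agent.Helper94_AT2.BJC

section -- Pool.Agent.Helper49_AT3.LBE

/-! Squad AT3, row LBE: the bound `2 l(B) < ℓ`. -/

open scoped BigOperators

noncomputable section

namespace Pool.Agent.PP.T3.H49

open Pool.Agent.Helper51_AWC Pool.Agent.Helper79_WRA Pool.Agent.PP Pool.Agent.PP.KF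
open Pool.Agent.PP.K9 Pool.Agent.PP.K9.H97 Pool.Agent.PP.H75

attribute [local instance] Ideal.Quotient.field

theorem lbe (prm : PrmStmt) (fix : FixStmt) (nst : NstStmt) (lrk : LrkStmt) (rgl : RglStmt)
    (rin : RinStmt) (cgz : CgzStmt) (brg : BrgStmt) (cnt : CntStmt) (ari : AriStmt)
    (lsb : LsbStmt) (nz : K9.NzStmt) : LbeStmt := by
  intro ℓ hℓ M _ hM G _ _ e V γ hL hV h5 h3
  classical
  have hp : ℓ.Prime := hℓ.out
  have hF : GoodF ℓ (FF M) := H50.fld ℓ Fact.out M hM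
  have hE1 : 1 ≤ ix V γ := by
    have : ix V γ = Nat.card (Tg V γ ⧸ (Subgroup.centralizer (V : Set G)).subgroupOf (Tg V γ)) := rfl
    rw [this]
    exact Nat.card_pos
  have hEl : ix V γ + 1 < ℓ := by omega
  obtain ⟨N, hN⟩ := prm ℓ (by omega) G
  -- the number of the rows
  let P : Set (G → ℂ) := {χ | χ ∈ IrrE M e ∧ ∀ g, χ (g ^ N) = χ g}
  have hPf : P.Finite := (irrE_fin M e).subset fun _ h => h.1
  have hcard : P.ncard = ln e := by
    have h1 := fix ℓ M hM G N hN e hL.blk.1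
      (fun y hy1 hy b hb he g hg => nst ℓ M hM G N hN e V γ hL hEl y hy1 hy b hb he g hg)
    have h2 := lrk ℓ M hM G e hL.blk.1
    rw [← h2] at h1
    exact_mod_cast h1
  -- the columns
  let R : Finset G := (Set.toFinite {u | Rg V γ u}).toFinset
  have hR : ∀ u, u ∈ R ↔ Rg V γ u := by
    intro u
    simp [R]
  have hRc : R.card = {u | Rg V γ u}.ncard := by
    rw [Set.ncard_eq_toFinset_card _ (Set.toFinite _)]
  have hex : ∀ u : G, ∃ b : G → FF M, ∃ d : ℕ, Rg V γ u →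
      (Lc e V γ u b ∧ Dg M (fun t : Cu u => b t) d) := by
    intro u
    by_cases hu : Rg V γ u
    · obtain ⟨b, d, h1, h2, -, -⟩ := rgl ℓ M hM G e V γ hL u hu
      exact ⟨b, d, fun _ => ⟨h1, h2⟩⟩
    · exact ⟨0, 0, fun h => absurd h hu⟩
  choose b d hbd using hex
  have hElu : ∀ u, Rg V γ u → El ℓ u := by
    intro u hu
    obtain ⟨n, hn⟩ := hL.tp.pg ⟨u, hu.1⟩
    exact ⟨n, congrArg Subtype.val hn⟩
  have hex2 : ∀ (χ : G → ℂ) (u : G), ∃ z : ℤ, χ ∈ P → Rg V γ u →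
      gv M (Cu u) u (b u) χ = d u * z := by
    intro χ u
    by_cases hu : Rg V γ u
    · by_cases hχ : χ ∈ P
      · obtain ⟨z, hz⟩ := rin ℓ M hM G N hN u (hElu u hu) (b u) (hbd u hu).1.blk.ix (d u)
          (hbd u hu).2 χ hχ.1.1 hχ.2
        exact ⟨z, fun _ _ => hz⟩
      · exact ⟨0, fun h => absurd h hχ⟩
    · exact ⟨0, fun _ h => absurd h hu⟩
  choose z hz using hex2
  obtain ⟨ε, hε, hcong⟩ := cgz ℓ M hM G e V γ hL
  have hd : ∀ u, Rg V γ u → 0 < d u := fun u hu => (hbd u hu).2.1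
  haveI : Fintype P := hPf.fintype
  let a : P → {u // u ∈ R} → ℤ := fun χ u => ε u * z χ u
  have hε2 : ∀ u, ε u ^ 2 = 1 := by
    intro u
    rcases hε u with h | h <;> rw [h] <;> norm_num
  have ha0 : ∀ r i, a r i ≠ 0 := by
    rintro ⟨χ, hχ⟩ ⟨u, hu⟩ h
    have hu' := (hR u).1 hu
    obtain ⟨hb, hdg⟩ := hbd u hu'
    have h1 := lsb ℓ M hM G e V γ hL u hu'.1 (b u) hb
    have h2 := nz ℓ M hM G e hL.blk V hL.tp hL.ab u hu'.1 (fun t : Cu u => b u t) hb.blk.blk hb.und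
      h1.1.tp.gd u (Subgroup.mem_zpowers u) χ hχ.1
    apply h2
    change gv M (Cu u) u (b u) χ = 0
    rw [hz χ u hχ hu']
    have h3 : z χ u = 0 := by
      have h4 : ε u * z χ u = 0 := h
      rcases mul_eq_zero.1 h4 with h5 | h5
      · exfalso
        rcases hε u with h6 | h6 <;> rw [h6] at h5 <;> norm_num at h5
      · exact h5
    rw [h3]
    simp
  have hadv : ∀ r i i', (ℓ : ℤ) ∣ a r i - a r i' := by
    rintro ⟨χ, hχ⟩ ⟨u, hu⟩ ⟨u', hu'⟩
    have h1 := (hR u).1 hu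
    have h2 := (hR u').1 hu'
    exact hcong u u' h1 h2 (b u) (b u') (hbd u h1).1 (hbd u' h2).1 (d u) (d u') (hbd u h1).2
      (hbd u' h2).2 χ hχ.1 (z χ u) (z χ u') (hz χ u hχ h1) (hz χ u' hχ h2)
  set K := ix V γ * Nat.card V with hK
  have hcnt := cnt ℓ (FF M) hF G e V γ hL hV h5 h3
  rw [← hK, ← hRc] at hcnt
  have hbes : ∀ s : P → ℤ, ∑ i, (∑ r, s r * a r i) ^ 2 ≤ K * ∑ r, s r ^ 2 := by
    intro s
    let S : (G → ℂ) → ℂ := fun χ => if h : χ ∈ P then (s ⟨χ, h⟩ : ℂ) else 0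
    have hb := brg ℓ M hM G e V γ hL R hR b d (fun u hu => hbd u ((hR u).1 hu)) S
    rw [← hK] at hb
    have hPI : P ⊆ Irr G := fun χ h => h.1.1
    have key : ∀ f : (G → ℂ) → ℂ, ∑ᶠ χ ∈ Irr G, S χ * f χ = ∑ r : P, (s r : ℂ) * f r := by
      intro f
      have h1 : ∑ᶠ χ ∈ Irr G, S χ * f χ = ∑ᶠ χ ∈ P, S χ * f χ := by
        refine (finsum_mem_inter_support_eq _ _ _ ?_)
        ext χ
        simp only [Set.mem_inter_iff, Function.mem_support]
        constructor
        · rintro ⟨-, h2⟩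
          refine ⟨?_, h2⟩
          by_contra h3
          apply h2
          simp only [S, dif_neg h3, zero_mul]
        · rintro ⟨h2, h3⟩
          exact ⟨hPI h2, h3⟩
      rw [h1, finsum_mem_fintype]
      refine Finset.sum_congr rfl fun r _ => ?_
      simp only [S]
      rw [dif_pos r.2]
    have keyn : ∑ᶠ χ ∈ Irr G, Complex.normSq (S χ) = ∑ r : P, (s r : ℝ) ^ 2 := by
      have h1 : ∑ᶠ χ ∈ Irr G, Complex.normSq (S χ) = ∑ᶠ χ ∈ P, Complex.normSq (S χ) := by
        refine (finsum_mem_inter_support_eq _ _ _ ?_)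
        ext χ
        simp only [Set.mem_inter_iff, Function.mem_support]
        constructor
        · rintro ⟨-, h2⟩
          refine ⟨?_, h2⟩
          by_contra h3
          apply h2
          simp only [S, dif_neg h3, map_zero]
        · rintro ⟨h2, h3⟩
          exact ⟨hPI h2, h3⟩
      rw [h1, ← finsum_set_coe_eq_finsum_mem, finsum_eq_sum_of_fintype]
      refine Finset.sum_congr rfl fun r _ => ?_
      simp only [S]
      rw [dif_pos r.2]
      have : ((s r : ℤ) : ℂ) = (((s r : ℤ) : ℝ) : ℂ) := by push_cast; rfl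
      rw [this, Complex.normSq_ofReal, sq]
    rw [keyn] at hb
    have hterm : ∀ u ∈ R, Complex.normSq (∑ᶠ χ ∈ Irr G, S χ *
        (gv M (Cu u) u (b u) χ / d u)) = (((∑ r : P, s r * (ε u * z r u)) ^ 2 : ℤ) : ℝ) := by
      intro u hu
      have hu' := (hR u).1 hu
      rw [key]
      have hd0 : (d u : ℂ) ≠ 0 := by exact_mod_cast (hd u hu').ne'
      have h1 : ∀ r : P, (s r : ℂ) * (gv M (Cu u) u (b u) r / d u) = ((s r * z r u : ℤ) : ℂ) := by
        intro r
        rw [hz r u r.2 hu', mul_div_cancel_left₀ _ hd0]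
        push_cast
        rfl
      simp only [h1]
      have h2 : ∑ r : P, s r * (ε u * z r u) = ε u * ∑ r : P, s r * z r u := by
        rw [Finset.mul_sum]
        exact Finset.sum_congr rfl fun r _ => by ring
      rw [h2, mul_pow, hε2, one_mul]
      have h3 : ∑ r : P, ((s r * z r u : ℤ) : ℂ) = (((∑ r : P, s r * z r u : ℤ) : ℝ) : ℂ) := by
        push_cast
        rfl
      rw [h3, Complex.normSq_ofReal]
      push_cast
      ring
    rw [Finset.sum_congr rfl hterm] at hb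
    have h5 : ((∑ u ∈ R, (∑ r : P, s r * (ε u * z r u)) ^ 2 : ℤ) : ℝ) ≤
        ((K * ∑ r : P, s r ^ 2 : ℤ) : ℝ) := by
      push_cast
      push_cast at hb
      exact hb
    have h6 : ∑ u ∈ R, (∑ r : P, s r * (ε u * z r u)) ^ 2 ≤ K * ∑ r : P, s r ^ 2 := by
      exact_mod_cast h5
    rw [← Finset.sum_coe_sort] at h6
    exact h6
  have hari := ari ℓ K P {u // u ∈ R} a (by omega) (hp.odd_of_ne_two (by omega))
    (by rw [Fintype.card_coe]; exact hcnt) ha0 hadv hbes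
  rw [Fintype.card_coe] at hari
  have hPc : Fintype.card P = ln e := by
    rw [← hcard, ← Nat.card_coe_set_eq, Nat.card_eq_fintype_card]
  rw [hPc] at hari
  by_contra hcon
  have h7 : ℓ ≤ 2 * ln e := by omega
  have h8 : ℓ * R.card ≤ 2 * ln e * R.card := Nat.mul_le_mul_right _ h7
  have h9 : 2 * ln e * R.card ≤ 2 * K := by
    rw [mul_assoc]
    exact Nat.mul_le_mul_left _ hari
  omega

end Pool.Agent.PP.T3.H49
end
end -- Pool.Agent.Helper49_AT3.LBE

section -- Pool.Agent.Helper6_AT5.BS5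

/-! Squad AT5, row BS5: Bessel's inequality for the powers of `u`. -/

open scoped BigOperators

noncomputable section

namespace Pool.Agent.PP.T5.H6

open Pool.Agent.Helper51_AWC Pool.Agent.Helper79_WRA Pool.Agent.PP Pool.Agent.PP.KF
open Pool.Agent.PP.K9 Pool.Agent.PP.K9.H97 Pool.Agent.PP.H75 Pool.Agent.PP.T3 Pool.Agent.PP.T2

attribute [local instance] Ideal.Quotient.field

theorem fm_ind {α : Type} {S I : Set α} (hSI : S ⊆ I) [Fintype I] (f : α → ℝ)
    [DecidablePred (· ∈ S)] :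
    ∑ᶠ x ∈ S, f x = ∑ x : I, (if (x : α) ∈ S then f x else 0) := by
  classical
  rw [← T3.H49.finsum_mem_fintype (fun x : α => if x ∈ S then f x else 0)]
  refine finsum_congr fun x => ?_
  rw [finsum_eq_if, finsum_eq_if]
  by_cases h : x ∈ S
  · simp [h, hSI h]
  · rw [if_neg h]
    split_ifs <;> rfl

theorem cu_pow' {G : Type} [Group G] {ℓ a : ℕ} (hp : ℓ.Prime) {u : G} (ho : orderOf u = ℓ ^ a)
    {i : ℕ} (hi : ¬ ℓ ∣ i) : Cu (u ^ i) = Cu u := by
  have hcop : Nat.Coprime (orderOf u) i := by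
    rw [ho]
    exact Nat.Coprime.pow_left _ ((Nat.Prime.coprime_iff_not_dvd hp).2 hi)
  obtain ⟨i', hi'⟩ := exists_pow_eq_self_of_coprime hcop.symm
  ext x
  rw [Subgroup.mem_centralizer_singleton_iff, Subgroup.mem_centralizer_singleton_iff]
  constructor
  · intro h
    have h1 : Commute x (u ^ i) := h
    have h2 := h1.pow_right i'
    rw [hi'] at h2
    exact h2
  · intro h
    have h1 : Commute x u := h
    exact h1.pow_right i

/-- `∑ |κ(s)|²` over the characters `κ` of `C` in `b` -/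
def ks (M : Ideal (integralClosure ℤ ℂ)) [M.IsMaximal] {G : Type} [Group G] (C : Subgroup G)
    (b : G → FF M) (s : G) : ℝ :=
  ∑ᶠ κ ∈ IrrE M (fun t : C => b t), Complex.normSq (H75.ext0 C κ s)

theorem kr_self (M : Ideal (integralClosure ℤ ℂ)) [M.IsMaximal] {G : Type} [Group G] [Finite G]
    (C : Subgroup G) (b : G → FF M) (s : G) : kr M C b s s = ((ks M C b s : ℝ) : ℂ) := by
  have hfin : (IrrE M (fun t : C => b t)).Finite := T3.H49.irrE_fin M _
  unfold kr ks
  rw [finsum_mem_eq_finite_toFinset_sum _ hfin, finsum_mem_eq_finite_toFinset_sum _ hfin]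
  push_cast
  exact Finset.sum_congr rfl fun κ _ => Complex.mul_conj _

theorem ks_nonneg (M : Ideal (integralClosure ℤ ℂ)) [M.IsMaximal] {G : Type} [Group G] [Finite G]
    (C : Subgroup G) (b : G → FF M) (s : G) : 0 ≤ ks M C b s := by
  have hfin : (IrrE M (fun t : C => b t)).Finite := T3.H49.irrE_fin M _
  unfold ks
  rw [finsum_mem_eq_finite_toFinset_sum _ hfin]
  exact Finset.sum_nonneg fun κ _ => Complex.normSq_nonneg _

/-- LRK for a subgroup -/
theorem ln_ks (lrk : T3.LrkStmt) {ℓ : ℕ} [Fact ℓ.Prime] (M : Ideal (integralClosure ℤ ℂ))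
    [M.IsMaximal] (hM : (ℓ : integralClosure ℤ ℂ) ∈ M) {G : Type} [Group G] [Finite G]
    (C : Subgroup G) {b : G → FF M} (hb : Ix C b) :
    (ln (fun t : C => b t) : ℝ) =
      (Nat.card C : ℝ)⁻¹ * ∑ᶠ s ∈ {s : G | s ∈ C ∧ Reg ℓ s}, ks M C b s := by
  have h1 := lrk ℓ M hM C (fun t : C => b t) hb.idem
  have hS : {s : G | s ∈ C ∧ Reg ℓ s} = (Subtype.val : C → G) '' {s : C | Reg ℓ s} := by
    ext s
    constructor
    · rintro ⟨h2, h3⟩
      refine ⟨⟨s, h2⟩, ?_, rfl⟩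
      change (orderOf (⟨s, h2⟩ : C)).Coprime ℓ
      rw [← Subgroup.orderOf_coe]
      exact h3
    · rintro ⟨t, ht, rfl⟩
      exact ⟨t.2, T3.H62.reg_coe ht⟩
  have h2 : ∑ᶠ (s : C) (_ : Reg ℓ s), ∑ᶠ χ ∈ IrrE M (fun t : C => b t),
      χ s * starRingEnd ℂ (χ s) =
      ((∑ᶠ s ∈ {s : G | s ∈ C ∧ Reg ℓ s}, ks M C b s : ℝ) : ℂ) := by
    rw [hS, finsum_mem_image (Subtype.val_injective.injOn)]
    have hfin : {s : C | Reg ℓ s}.Finite := Set.toFinite _
    have h3 : ∑ᶠ (s : C) (_ : Reg ℓ s), ∑ᶠ χ ∈ IrrE M (fun t : C => b t),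
        χ s * starRingEnd ℂ (χ s) = ∑ᶠ s ∈ {s : C | Reg ℓ s}, (ks M C b s : ℂ) := by
      refine finsum_mem_congr (s := {s : C | Reg ℓ s}) rfl fun s _ => ?_
      rw [← kr_self]
      unfold kr
      refine finsum_mem_congr rfl fun κ _ => ?_
      have h4 : H75.ext0 C κ (s : G) = κ s := by
        rw [H75.ext0, dif_pos s.2]
      rw [h4]
    rw [h3, finsum_mem_eq_finite_toFinset_sum _ hfin, finsum_mem_eq_finite_toFinset_sum _ hfin]
    push_cast
    rfl
  rw [h2] at h1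
  apply Complex.ofReal_injective
  rw [Complex.ofReal_mul, Complex.ofReal_inv, Complex.ofReal_natCast, Complex.ofReal_natCast]
  exact h1

theorem bs5 (oj5 : Oj5Stmt) (co3 : Co3Stmt) (vj5 : Vj5Stmt) (bes : T3.BesStmt)
    (lrk : T3.LrkStmt) : Bs5Stmt := by
  intro ℓ hℓ M _ hM G _ _ N hN e V u b hLb a hea hou j hj
  classical
  have hp : ℓ.Prime := hℓ.out
  have hep : 0 < ep ℓ := by
    unfold ep
    split_ifs <;> norm_num
  have : Finite (Irr G) := (T3.H49.irr_fin G).to_subtype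
  have : Fintype (Irr G) := Fintype.ofFinite _
  have hua : u ^ ℓ ^ a = 1 := by rw [← hou]; exact pow_orderOf_eq_one u
  have hEl : ∀ i : ℕ, El ℓ (u ^ i) := by
    intro i
    refine ⟨a, ?_⟩
    rw [← pow_mul, mul_comm, pow_mul, hua, one_pow]
  have hElu : El ℓ u := ⟨a, hua⟩
  obtain ⟨q, hq⟩ : ∃ q, q = ℓ ^ ep ℓ := ⟨_, rfl⟩
  have hq0 : 0 < q := by rw [hq]; exact pow_pos hp.pos _
  have hlq : ℓ ∣ q := by rw [hq]; exact dvd_pow_self ℓ hep.ne'
  -- the exponents
  let ex : Fin (ℓ ^ (a - ep ℓ)) → ℕ := fun k => j % q + q * k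
  have hex2 : ∀ k, j ≡ ex k [MOD q] := by
    intro k
    change j % q = (j % q + q * k) % q
    rw [Nat.add_mul_mod_self_left, Nat.mod_mod]
  have hex1 : ∀ k, ¬ ℓ ∣ ex k := by
    intro k h
    apply hj
    have h1 := (hex2 k).of_dvd hlq
    exact (h1.dvd_iff (dvd_refl ℓ)).2 h
  have hlt : ∀ k, ex k < ℓ ^ a := by
    intro k
    have h1 : j % q < q := Nat.mod_lt _ hq0
    have h2 : (k : ℕ) + 1 ≤ ℓ ^ (a - ep ℓ) := k.2
    have h3 : q * ((k : ℕ) + 1) ≤ q * ℓ ^ (a - ep ℓ) := Nat.mul_le_mul_left _ h2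
    have h4 : q * ℓ ^ (a - ep ℓ) = ℓ ^ a := by
      rw [hq, ← pow_add]
      congr 1
      omega
    rw [h4, mul_add, mul_one] at h3
    change j % q + q * (k : ℕ) < ℓ ^ a
    omega
  have hex3 : ∀ k k', k ≠ k' → u ^ ex k ≠ u ^ ex k' := by
    intro k k' hne h
    apply hne
    have h1 : ex k = ex k' := by
      refine pow_injOn_Iio_orderOf ?_ ?_ h
      · rw [Set.mem_Iio, hou]
        exact hlt k
      · rw [Set.mem_Iio, hou]
        exact hlt k'
    have h2 : q * (k : ℕ) = q * (k' : ℕ) := by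
      have : j % q + q * (k : ℕ) = j % q + q * (k' : ℕ) := h1
      omega
    exact Fin.ext (Nat.eq_of_mul_eq_mul_left hq0 h2)
  have hPI : Rf M N e ⊆ Irr G := fun χ h => h.1.1
  -- Bessel for one `s`
  have key : ∀ s ∈ Cu u, Reg ℓ s → (ℓ : ℝ) ^ (a - ep ℓ) *
      ∑ᶠ χ ∈ Rf M N e, Complex.normSq (gv M (Cu u) (u ^ j * s) b χ) ≤ ks M (Cu u) b s := by
    intro s hs hsr
    let v : Fin (ℓ ^ (a - ep ℓ)) → Irr G → ℂ := fun k χ => gv M (Cu u) (u ^ ex k * s) b χ
    have hnorm : ∀ k, ∑ χ, v k χ * starRingEnd ℂ (v k χ) = ((ks M (Cu u) b s : ℝ) : ℂ) := by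
      intro k
      have hC := cu_pow' hp hou (hex1 k)
      have h1 := co3 ℓ M hM G (u ^ ex k) (hEl _) b (by rw [hC]; exact hLb.bx.ix) s
        (by rw [hC]; exact hs) hsr s (by rw [hC]; exact hs) hsr
      rw [hC, T3.H49.finsum_mem_fintype, kr_self] at h1
      exact h1
    have horth : ∀ k k', k ≠ k' → ∑ χ, v k χ * starRingEnd ℂ (v k' χ) = 0 := by
      intro k k' hne
      have h1 := oj5 ℓ M hM G e V u b hLb a hea hou (ex k) (ex k') (hex1 k)
        (by rw [← hq]; exact (hex2 k).symm.trans (hex2 k')) (hex3 k k' hne) s hs hsr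
      rw [T3.H49.finsum_mem_fintype] at h1
      exact h1
    have hks := ks_nonneg M (Cu u) b s
    have hrow : ∀ k, ∑ k', ‖∑ χ, v k χ * starRingEnd ℂ (v k' χ)‖ ≤ ks M (Cu u) b s := by
      intro k
      rw [Finset.sum_eq_single k]
      · rw [hnorm k, Complex.norm_real, Real.norm_of_nonneg hks]
      · intro k' _ hne
        rw [horth k k' (Ne.symm hne), norm_zero]
      · intro h
        exact absurd (Finset.mem_univ k) h
    let w : (G → ℂ) → ℂ := fun χ => gv M (Cu u) (u ^ j * s) b χ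
    let t : Irr G → ℂ := fun χ => if (χ : G → ℂ) ∈ Rf M N e then starRingEnd ℂ (w χ) else 0
    obtain ⟨x, hx⟩ : ∃ x : ℝ, x = ∑ᶠ χ ∈ Rf M N e, Complex.normSq (w χ) := ⟨_, rfl⟩
    have hx1 : x = ∑ χ : Irr G,
        (if (χ : G → ℂ) ∈ Rf M N e then Complex.normSq (w χ) else 0) := by
      rw [hx]
      exact fm_ind hPI _
    have hx0 : 0 ≤ x := by
      rw [hx1]
      refine Finset.sum_nonneg fun χ _ => ?_
      split_ifs
      · exact Complex.normSq_nonneg _
      · exact le_rfl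
    have hsv : ∀ k, ∑ χ, t χ * v k χ = (x : ℂ) := by
      intro k
      rw [hx1]
      push_cast
      refine Finset.sum_congr rfl fun χ _ => ?_
      by_cases h : (χ : G → ℂ) ∈ Rf M N e
      · have h1 : gv M (Cu u) (u ^ j * s) b χ = gv M (Cu u) (u ^ ex k * s) b χ :=
          vj5 ℓ M hM G N hN u hElu b hLb.bx.ix χ h.1.1 h.2 s hs hsr j (ex k) hj
            (by rw [← hq]; exact hex2 k)
        have h2 : v k χ = w χ := by
          simp only [v, w]
          rw [h1]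
        rw [h2]
        simp only [t, if_pos h]
        rw [mul_comm, Complex.mul_conj]
      · simp only [t, if_neg h]
        simp
    have hss : ∑ χ, Complex.normSq (t χ) = x := by
      rw [hx1]
      refine Finset.sum_congr rfl fun χ _ => ?_
      by_cases h : (χ : G → ℂ) ∈ Rf M N e
      · simp only [t, if_pos h]
        rw [Complex.normSq_conj]
      · simp only [t, if_neg h]
        simp
    have hB := bes (Fin (ℓ ^ (a - ep ℓ))) (Irr G) v _ hks hrow t
    rw [hss] at hB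
    simp only [hsv, Complex.normSq_ofReal] at hB
    rw [Finset.sum_const, Finset.card_univ, Fintype.card_fin, nsmul_eq_mul] at hB
    change (ℓ : ℝ) ^ (a - ep ℓ) * ∑ᶠ χ ∈ Rf M N e, Complex.normSq (w χ) ≤ ks M (Cu u) b s
    rw [← hx]
    push_cast at hB
    rcases hx0.eq_or_lt with h | h
    · rw [← h, mul_zero]
      exact hks
    · have h1 : ((ℓ : ℝ) ^ (a - ep ℓ) * x) * x ≤ ks M (Cu u) b s * x := by
        calc ((ℓ : ℝ) ^ (a - ep ℓ) * x) * x = (ℓ : ℝ) ^ (a - ep ℓ) * (x * x) := by ring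
          _ ≤ _ := hB
      exact le_of_mul_le_mul_right h1 h
  -- the sum over `s`
  have hR : (Rf M N e).Finite := (T3.H49.irrE_fin M e).subset fun _ h => h.1
  have hS : {s : G | s ∈ Cu u ∧ Reg ℓ s}.Finite := Set.toFinite _
  rw [ln_ks lrk M hM (Cu u) hLb.bx.ix, finsum_mem_eq_finite_toFinset_sum _ hS,
    finsum_mem_eq_finite_toFinset_sum _ hR]
  have h1 : ∀ χ, nm M ℓ (Cu u) (u ^ j) b χ = (Nat.card (Cu u) : ℝ)⁻¹ *
      ∑ s ∈ hS.toFinset, Complex.normSq (gv M (Cu u) (u ^ j * s) b χ) := by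
    intro χ
    unfold nm
    rw [← finsum_mem_eq_finite_toFinset_sum _ hS]
    rfl
  simp only [h1]
  rw [← Finset.mul_sum, Finset.sum_comm, ← mul_assoc, mul_comm ((ℓ : ℝ) ^ (a - ep ℓ)), mul_assoc,
    Finset.mul_sum]
  refine mul_le_mul_of_nonneg_left (Finset.sum_le_sum fun s hs => ?_) (by positivity)
  have hs' : s ∈ {s : G | s ∈ Cu u ∧ Reg ℓ s} := by simpa using hs
  have h2 := key s hs'.1 hs'.2
  rw [finsum_mem_eq_finite_toFinset_sum _ hR] at h2
  exact h2

end Pool.Agent.PP.T5.H6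
end
end -- Pool.Agent.Helper6_AT5.BS5
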