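import Pool.Agent.Helper12_AWB.B045
import Pool.Agent.Helper12_AWB.B050
import Pool.Agent.Helper12_AWB.B053
import Pool.Agent.Helper12_AWB.B054
import Pool.Agent.Helper12_AWB.B055
import Pool.Agent.Helper12_AWB.B099
import Pool.Agent.Helper66_D1.Stmts

/-!
# Merged copies (generated) of the modules

* `Pool.Agent.Helper59_PP.GalF`
* `Pool.Agent.Helper59_PP.Core`
* `Pool.Agent.Helper59_PP.Loc`
* `Pool.Agent.Helper59_PP.Dzq`
* `Pool.Agent.Helper66_BN.Co3`
* `Pool.Agent.Helper96_BN.BCS`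
* `Pool.Agent.Helper96_BN.BC4`
* `Pool.Agent.Helper76_D1.C4d`
* `Pool.Agent.Helper96_BN.Bcq`
-/

set_option autoImplicit false

section -- Pool.Agent.Helper59_PP.GalF

/-!
# Squad PP: Gallagher correspondence for a surjective homomorphism
-/

open scoped BigOperators

set_option linter.unusedSectionVars false

noncomputable section

namespace Pool.Agent.PP.H59

open Pool.Agent.PP Pool.Agent.PP.H33

section

variable {F X X' : Type} [Field F] [Group X] [Finite X] [Group X'] [Finite X']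

/-- the tensor product with an inflated representation -/
def tensq {n m : ℕ} (q : X →* X') (α : X →* Matrix (Fin n) (Fin n) F)
    (K : X' →* Matrix (Fin m) (Fin m) F) : X →* Matrix (Fin (n * m)) (Fin (n * m)) F where
  toFun x := kr (α x) (K (q x))
  map_one' := by rw [map_one, map_one, map_one, kr_one]
  map_mul' x y := by rw [map_mul, map_mul, map_mul, kr_mul]

theorem tensq_apply {n m : ℕ} (q : X →* X') (α : X →* Matrix (Fin n) (Fin n) F)
    (K : X' →* Matrix (Fin m) (Fin m) F) (x : X) : tensq q α K x = kr (α x) (K (q x)) := rfl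

theorem tr_tensq {n m : ℕ} (q : X →* X') (α : X →* Matrix (Fin n) (Fin n) F)
    (K : X' →* Matrix (Fin m) (Fin m) F) (x : X) :
    tr (tensq q α K) x = tr α x * tr K (q x) := kr_trace _ _

theorem irr_comp_equiv {A B : Type} [Group A] [Group B] (e : A ≃* B) {n : ℕ}
    {σ : B →* Matrix (Fin n) (Fin n) F} (hσ : IsIrr σ) : IsIrr (σ.comp e.toMonoidHom) := by
  refine ⟨hσ.1, ?_⟩
  have h : Set.range (σ.comp e.toMonoidHom) = Set.range σ := by
    ext M
    constructor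
    · rintro ⟨x, rfl⟩
      exact ⟨e x, rfl⟩
    · rintro ⟨y, rfl⟩
      exact ⟨e.symm y, congrArg σ (e.apply_symm_apply y)⟩
  rw [h]
  exact hσ.2

theorem ibr_equiv {A B : Type} [Group A] [Group B] (e : A ≃* B) {κ : B → F} (h : κ ∈ IBr F B) :
    (fun x => κ (e x)) ∈ IBr F A := by
  obtain ⟨n, ρ, hρ, rfl⟩ := h
  exact ⟨n, ρ.comp e.toMonoidHom, irr_comp_equiv e hρ, rfl⟩

theorem actF_equiv {A B : Type} [Group A] [Finite A] [Group B] [Finite B] (e : A ≃* B)
    (a f : B → F) (x : A) : actF (fun t => a (e t)) (fun t => f (e t)) x = actF a f (e x) := by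
  have := Fintype.ofFinite A
  have := Fintype.ofFinite B
  unfold actF
  rw [finsum_eq_sum_of_fintype, finsum_eq_sum_of_fintype, ← Equiv.sum_comp e.toEquiv]
  refine Finset.sum_congr rfl fun t _ => ?_
  show a (e t) * f (e (t * x)) = a (e t) * f (e t * e x)
  rw [map_mul]

theorem isCl_equiv {A B : Type} [Group A] [Group B] (e : A ≃* B) {a : B → F} (ha : IsCl a) :
    IsCl (fun t => a (e t)) := by
  intro x y
  show a (e (y * x * y⁻¹)) = a (e x)
  rw [map_mul, map_mul, map_inv]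
  exact ha _ _

variable (ℓ : ℕ) (hF : GoodF ℓ F) (q : X →* X') (hq : Function.Surjective q) {n : ℕ}
  (α : X →* Matrix (Fin n) (Fin n) F) (hα : IsIrr (α.comp q.ker.subtype))

include hF hq hα

theorem galF_one {m : ℕ} (K : X' →* Matrix (Fin m) (Fin m) F) (hK : IsIrr K) :
    IsIrr (tensq q α K) := by
  let e : X ⧸ q.ker ≃* X' := QuotientGroup.quotientKerEquivOfSurjective q hq
  obtain ⟨T, hT, hT1, _⟩ := (gal ℓ F hF X q.ker n α hα).1 m (K.comp e.toMonoidHom)
    (irr_comp_equiv e hK)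
  have h : T = tensq q α K := by
    ext1 x
    rw [hT1 x]
    rfl
  rw [← h]
  exact hT

theorem galF_two {k : ℕ} (V : X →* Matrix (Fin k) (Fin k) F) (hV : IsIrr V)
    (h : ∀ a : q.ker → F, ev (α.comp q.ker.subtype) a = 0 → ev (V.comp q.ker.subtype) a = 0) :
    ∃ κ ∈ IBr F X', ∀ x : X, tr V x = tr α x * κ (q x) := by
  let e : X ⧸ q.ker ≃* X' := QuotientGroup.quotientKerEquivOfSurjective q hq
  obtain ⟨m, K, hK, hK1⟩ := (gal ℓ F hF X q.ker n α hα).2.1 k V hV h
  refine ⟨tr (K.comp e.symm.toMonoidHom), ⟨m, _, irr_comp_equiv e.symm hK, rfl⟩, fun x => ?_⟩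
  rw [hK1 x]
  have h1 : e.symm (q x) = (x : X ⧸ q.ker) := by
    rw [MulEquiv.symm_apply_eq]
    rfl
  show _ = tr α x * (K (e.symm (q x))).trace
  rw [h1]
  rfl

theorem galF_three {κ κ' : X' → F} (h1 : κ ∈ IBr F X') (h2 : κ' ∈ IBr F X')
    (h : ∀ x : X, tr α x * κ (q x) = tr α x * κ' (q x)) : κ = κ' := by
  let e : X ⧸ q.ker ≃* X' := QuotientGroup.quotientKerEquivOfSurjective q hq
  have h3 := (gal ℓ F hF X q.ker n α hα).2.2.1 _ (ibr_equiv e h1) _ (ibr_equiv e h2) h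
  funext y
  have h4 := congrFun h3 (e.symm y)
  simpa only [MulEquiv.apply_symm_apply] using h4

theorem galF_four (a : X → F) (a' : X' → F) (ha' : IsCl a')
    (h : ∀ g : X, ∑ᶠ c : q.ker, a (g * c) • α (g * c) = Matrix.scalar (Fin n) (a' (q g)))
    {κ : X' → F} (hκ : κ ∈ IBr F X') :
    actF a (fun x : X => tr α x * κ (q x)) = (fun x : X => tr α x * κ (q x)) ↔
      actF a' κ = κ := by
  let e : X ⧸ q.ker ≃* X' := QuotientGroup.quotientKerEquivOfSurjective q hq
  have h3 := (gal ℓ F hF X q.ker n α hα).2.2.2 a (fun t => a' (e t)) (isCl_equiv e ha') h _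
    (ibr_equiv e hκ)
  refine h3.trans ?_
  constructor
  · intro h4
    funext y
    have h5 := congrFun h4 (e.symm y)
    rw [actF_equiv e a' κ (e.symm y)] at h5
    simpa only [MulEquiv.apply_symm_apply] using h5
  · intro h4
    funext y
    rw [actF_equiv e a' κ y, h4]

end

end Pool.Agent.PP.H59
end
end -- Pool.Agent.Helper59_PP.GalF

section -- Pool.Agent.Helper59_PP.Core

/-!
# Squad PP, module DZQ: comparison of the numbers of irreducible modular characters of `X` and of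
a quotient `X'`, by the counting lemma
-/

open scoped BigOperators

set_option linter.unusedSectionVars false

noncomputable section

namespace Pool.Agent.PP.H59

open Pool.Agent.PP Pool.Agent.PP.H33

section sums

variable {X X' : Type} [Group X] [Finite X] [Group X'] [Finite X'] (q : X →* X')
  (hq : Function.Surjective q)

include hq

theorem sum_fib (g : X' → ℂ) : ∑ᶠ x : X, g (q x) = (Nat.card q.ker : ℂ) * ∑ᶠ y : X', g y := by
  classical
  have := Fintype.ofFinite X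
  have := Fintype.ofFinite X'
  have := Fintype.ofFinite q.ker
  rw [finsum_eq_sum_of_fintype, finsum_eq_sum_of_fintype, Finset.sum_comp g q,
    Finset.image_univ_of_surjective hq, Finset.mul_sum]
  refine Finset.sum_congr rfl fun y _ => ?_
  have h1 : (Finset.univ.filter fun x : X => q x = y).card = Nat.card q.ker := by
    rw [MonoidHom.card_fiber_eq_of_mem_range q (hq y) (hq 1), Nat.card_eq_fintype_card,
      Fintype.card_subtype]
    apply congrArg
    ext x
    simp only [Finset.mem_filter, MonoidHom.mem_ker]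
  rw [h1, nsmul_eq_mul]

theorem card_dom : Nat.card X = Nat.card q.ker * Nat.card X' := by
  have h := sum_fib q hq (fun _ => (1 : ℂ))
  have := Fintype.ofFinite X
  have := Fintype.ofFinite X'
  rw [finsum_eq_sum_of_fintype, finsum_eq_sum_of_fintype, Finset.sum_const, Finset.sum_const,
    Finset.card_univ, Finset.card_univ, nsmul_eq_mul, nsmul_eq_mul, mul_one, mul_one,
    ← Nat.card_eq_fintype_card, ← Nat.card_eq_fintype_card] at h
  exact_mod_cast h

end sums

section core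

variable {F X X' : Type} [Field F] [Group X] [Finite X] [Group X'] [Finite X'] {ℓ : ℕ}

theorem kr_unit {n m : ℕ} {A : Matrix (Fin n) (Fin n) F} {B : Matrix (Fin m) (Fin m) F}
    (hA : IsUnit A) (hB : IsUnit B) : IsUnit (kr A B) := by
  obtain ⟨u, rfl⟩ := hA
  obtain ⟨v, rfl⟩ := hB
  refine ⟨⟨kr u v, kr (u⁻¹ : (Matrix (Fin n) (Fin n) F)ˣ) (v⁻¹ : (Matrix (Fin m) (Fin m) F)ˣ),
    ?_, ?_⟩, rfl⟩
  · rw [← kr_mul, Units.mul_inv, Units.mul_inv, kr_one]
  · rw [← kr_mul, Units.inv_mul, Units.inv_mul, kr_one]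

theorem trace_conj_eq {n : ℕ} {Z A B : Matrix (Fin n) (Fin n) F} (hZ : IsUnit Z)
    (h : Z * A = B * Z) : B.trace = A.trace := by
  obtain ⟨u, rfl⟩ := hZ
  have h1 : B = (u : Matrix (Fin n) (Fin n) F) * A *
      ((u⁻¹ : (Matrix (Fin n) (Fin n) F)ˣ) : Matrix (Fin n) (Fin n) F) := by
    rw [h, mul_assoc, Units.mul_inv, mul_one]
  rw [h1, Matrix.trace_mul_comm, ← mul_assoc, Units.inv_mul, one_mul]

/-- The data of the comparison. -/
structure CD (ℓ : ℕ) (q : X →* X') (L : Subgroup X) [L.Normal] (a : X → F) (a' : X' → F) {m : ℕ}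
    (β : L →* Matrix (Fin m) (Fin m) F) : Prop where
  hF : GoodF ℓ F
  surj : Function.Surjective q
  ker : q.ker ≤ L
  ha : IsCl a
  hal : ∀ h, h ∉ L → a h = 0
  ha' : IsCl a'
  hal' : ∀ h, h ∉ L.map q → a' h = 0
  irr : IsIrr (β.comp (q.subgroupMap L).ker.subtype)
  sum : ∀ g : L, ∑ᶠ c : (q.subgroupMap L).ker, a ((g * c : L) : X) • β (g * c) =
    Matrix.scalar (Fin m) (a' (q g))
  ovr : ∀ (k : ℕ) (V : L →* Matrix (Fin k) (Fin k) F), IsIrr V →
    actF (fun t : L => a t) (tr V) = tr V → ∀ w : (q.subgroupMap L).ker → F,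
    ev (β.comp (q.subgroupMap L).ker.subtype) w = 0 →
    ev (V.comp (q.subgroupMap L).ker.subtype) w = 0
  impl : ∀ x : X, ∃ Z : Matrix (Fin m) (Fin m) F, IsUnit Z ∧
    ∀ g : L, Z * β g = β (MulAut.conjNormal x g) * Z
  comm : ∀ (x y : X) (hk : x * y * x⁻¹ * y⁻¹ ∈ L) (Zx Zy : Matrix (Fin m) (Fin m) F),
    IsUnit Zx → IsUnit Zy → (∀ g : L, Zx * β g = β (MulAut.conjNormal x g) * Zx) →
    (∀ g : L, Zy * β g = β (MulAut.conjNormal y g) * Zy) → Zx * Zy = β ⟨_, hk⟩ * Zy * Zx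

variable {q : X →* X'} {L : Subgroup X} [L.Normal] {a : X → F} {a' : X' → F} {m : ℕ}
  {β : L →* Matrix (Fin m) (Fin m) F}

/-- the correspondence -/
def ek (q : X →* X') (β : L →* Matrix (Fin m) (Fin m) F) (κ : L.map q → F) : L → F :=
  fun g => tr β g * κ (q.subgroupMap L g)

theorem sm_surj (q : X →* X') (L : Subgroup X) : Function.Surjective (q.subgroupMap L) :=
  MonoidHom.subgroupMap_surjective q L

theorem sm_conj [(L.map q).Normal] (x : X) (l : L) :
    q.subgroupMap L (MulAut.conjNormal x l) = MulAut.conjNormal (q x) (q.subgroupMap L l) := by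
  apply Subtype.ext
  simp only [MonoidHom.subgroupMap_apply_coe, MulAut.conjNormal_apply, map_mul, map_inv]

namespace CD

variable (D : CD ℓ q L a a' β)

include D

theorem tr_conj (x : X) (l : L) : tr β (MulAut.conjNormal x l) = tr β l := by
  obtain ⟨Z, hZ, h⟩ := D.impl x
  exact trace_conj_eq hZ (h l)

theorem four {κ : L.map q → F} (hκ : κ ∈ IBr F (L.map q)) :
    actF (fun t : L => a t) (ek q β κ) = ek q β κ ↔ actF (fun t : L.map q => a' t) κ = κ := by
  have h1 : IsCl (fun t : L.map q => a' t) := by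
    intro x y
    exact D.ha' x y
  exact galF_four ℓ D.hF (q.subgroupMap L) (sm_surj q L) β D.irr (fun t : L => a t)
    (fun t : L.map q => a' t) h1 D.sum hκ

theorem comp_mem [(L.map q).Normal] {κ : L.map q → F} (hκ : κ ∈ IBr F (L.map q)) (x' : X') :
    (fun l => κ (MulAut.conjNormal x' l)) ∈ IBr F (L.map q) :=
  ibr_equiv (MulAut.conjNormal x' : (L.map q) ≃* (L.map q)) hκ

theorem bijOn [(L.map q).Normal] (x y : X) :
    Set.BijOn (ek q β) (phiSet (L.map q) a' (q x) (q y)) (phiSet L a x y) := by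
  refine ⟨?_, ?_, ?_⟩
  · rintro κ ⟨hκ, h1, h2, h3⟩
    refine ⟨?_, (D.four hκ).2 h1, fun l => ?_, fun l => ?_⟩
    · obtain ⟨k, K, hK, rfl⟩ := hκ
      refine ⟨_, tensq (q.subgroupMap L) β K, galF_one ℓ D.hF _ (sm_surj q L) β D.irr K hK, ?_⟩
      funext g
      exact (tr_tensq _ _ _ _).symm
    · show tr β _ * κ _ = tr β l * κ _
      rw [D.tr_conj, sm_conj, h2]
    · show tr β _ * κ _ = tr β l * κ _
      rw [D.tr_conj, sm_conj, h3]
  · rintro κ ⟨hκ, _⟩ κ' ⟨hκ', _⟩ h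
    exact galF_three ℓ D.hF _ (sm_surj q L) β D.irr hκ hκ' fun g => congrFun h g
  · rintro φ ⟨⟨k, V, hV, rfl⟩, h1, h2, h3⟩
    obtain ⟨κ, hκ, h4⟩ := galF_two ℓ D.hF _ (sm_surj q L) β D.irr V hV (D.ovr k V hV h1)
    have h5 : ek q β κ = tr V := funext fun g => (h4 g).symm
    have h6 : ∀ z : X, (∀ l, tr V (MulAut.conjNormal z l) = tr V l) →
        ∀ l, κ (MulAut.conjNormal (q z) l) = κ l := by
      intro z hz l
      have h7 := galF_three ℓ D.hF _ (sm_surj q L) β D.irr (D.comp_mem hκ (q z)) hκ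
        (fun g => by
          show tr β g * κ (MulAut.conjNormal (q z) (q.subgroupMap L g)) = _
          rw [← sm_conj, ← D.tr_conj z g, ← h4, hz, h4, D.tr_conj z g])
      exact congrFun h7 l
    refine ⟨κ, ⟨hκ, ?_, h6 x h2, h6 y h3⟩, h5⟩
    rw [← D.four hκ, h5]
    exact h1

theorem tc_eq (hclu : CluStmt) [(L.map q).Normal] (x y : X) (hk : x * y * x⁻¹ * y⁻¹ ∈ L)
    {κ : L.map q → F} (hκ : κ ∈ phiSet (L.map q) a' (q x) (q y)) :
    tc (L.map q) κ (q x) (q y) = tc L (ek q β κ) x y := by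
  obtain ⟨g1, g2, g3, g4⟩ := hκ
  obtain ⟨f1, _, f3, f4⟩ := (D.bijOn x y).1 ⟨g1, g2, g3, g4⟩
  have hk' : q x * q y * (q x)⁻¹ * (q y)⁻¹ ∈ L.map q := by
    refine ⟨_, hk, ?_⟩
    rw [map_mul, map_mul, map_mul, map_inv, map_inv]
  obtain ⟨_, h1, _⟩ := hclu ℓ F D.hF X' (L.map q) κ g1 (q x) (q y) hk' g3 g4
  obtain ⟨_, _, h2⟩ := hclu ℓ F D.hF X L (ek q β κ) f1 x y hk f3 f4
  apply h2
  obtain ⟨k, K, A, B, hk'', hK, hKtr, hA, hB, h3, h4, h5⟩ := h1
  obtain ⟨Zx, hZx, hx⟩ := D.impl x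
  obtain ⟨Zy, hZy, hy⟩ := D.impl y
  refine ⟨_, tensq (q.subgroupMap L) β K, kr Zx A, kr Zy B, hk,
    galF_one ℓ D.hF _ (sm_surj q L) β D.irr K hK, ?_, kr_unit hZx hA, kr_unit hZy hB,
    fun g => ?_, fun g => ?_, ?_⟩
  · funext g
    rw [tr_tensq, hKtr]
    rfl
  · rw [tensq_apply, tensq_apply, ← kr_mul, ← kr_mul, hx, h3, sm_conj]
  · rw [tensq_apply, tensq_apply, ← kr_mul, ← kr_mul, hy, h4, sm_conj]
  · rw [tensq_apply, ← kr_mul, ← kr_mul, ← kr_mul, h5, kr_smul_right,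
      D.comm x y hk Zx Zy hZx hZy hx hy]
    have h6 : q.subgroupMap L ⟨x * y * x⁻¹ * y⁻¹, hk⟩ =
        ⟨q x * q y * (q x)⁻¹ * (q y)⁻¹, hk''⟩ := by
      apply Subtype.ext
      show q (x * y * x⁻¹ * y⁻¹) = _
      rw [map_mul, map_mul, map_mul, map_inv, map_inv]
    rw [h6]

theorem csum_eq (hclu : CluStmt) [(L.map q).Normal] (τ : F → ℂ) (x y : X)
    (hk : x * y * x⁻¹ * y⁻¹ ∈ L) :
    csum τ L a x y = csum τ (L.map q) a' (q x) (q y) := by
  unfold csum
  exact (finsum_mem_eq_of_bijOn (ek q β) (D.bijOn x y) fun κ hκ => by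
    rw [D.tc_eq hclu x y hk hκ]).symm

theorem mem_iff (x : X) : q x ∈ L.map q ↔ x ∈ L := by
  constructor
  · rintro ⟨y, hy, h⟩
    have h1 : y⁻¹ * x ∈ q.ker := by
      rw [MonoidHom.mem_ker, map_mul, map_inv, h, inv_mul_cancel]
    have h2 := L.mul_mem hy (D.ker h1)
    rwa [mul_inv_cancel_left] at h2
  · exact fun h => ⟨x, h, rfl⟩

theorem reg_iff [(L.map q).Normal] (x : X) :
    Reg ℓ (x : X ⧸ L) ↔ Reg ℓ ((q x : X') : X' ⧸ L.map q) := by
  let φ : X ⧸ L →* X' ⧸ L.map q := QuotientGroup.map L (L.map q) q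
    (fun x hx => Subgroup.mem_comap.2 ⟨x, hx, rfl⟩)
  have hφ : Function.Injective φ := by
    rw [injective_iff_map_eq_one]
    intro z
    induction z using QuotientGroup.induction_on with
    | H z =>
      intro hz
      have h1 : φ (z : X ⧸ L) = ((q z : X') : X' ⧸ L.map q) := rfl
      rw [h1, QuotientGroup.eq_one_iff, D.mem_iff] at hz
      exact (QuotientGroup.eq_one_iff z).2 hz
  have h2 : orderOf ((q x : X') : X' ⧸ L.map q) = orderOf (x : X ⧸ L) :=
    orderOf_injective φ hφ (x : X ⧸ L)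
  unfold Reg
  rw [h2]

theorem core (hcl : ClStmt) (hclu : CluStmt) :
    {θ : X → F | θ ∈ IBr F X ∧ actF a θ = θ}.ncard =
      {κ : X' → F | κ ∈ IBr F X' ∧ actF a' κ = κ}.ncard := by
  have hn : (L.map q).Normal := Subgroup.Normal.map inferInstance q D.surj
  obtain ⟨τ, hτ⟩ := exists_lift ℓ F D.hF
  have h1 := hcl ℓ F D.hF τ hτ X L a D.ha D.hal
  have h2 := hcl ℓ F D.hF τ hτ X' (L.map q) a' D.ha' D.hal'
  set N1 := {θ : X → F | θ ∈ IBr F X ∧ actF a θ = θ}.ncard with hN1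
  set N2 := {κ : X' → F | κ ∈ IBr F X' ∧ actF a' κ = κ}.ncard with hN2
  have hcond : ∀ x y : X, (Reg ℓ (x : X ⧸ L) ∧ x * y * x⁻¹ * y⁻¹ ∈ L) ↔
      (Reg ℓ ((q x : X') : X' ⧸ L.map q) ∧ q x * q y * (q x)⁻¹ * (q y)⁻¹ ∈ L.map q) := by
    intro x y
    rw [← D.reg_iff, ← D.mem_iff (x * y * x⁻¹ * y⁻¹), map_mul, map_mul, map_mul, map_inv,
      map_inv]
  set W : X' → X' → ℂ := fun x' y' =>
    ∑ᶠ (_ : Reg ℓ (x' : X' ⧸ L.map q) ∧ x' * y' * x'⁻¹ * y'⁻¹ ∈ L.map q),
      csum τ (L.map q) a' x' y' with hW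
  have h3 : ∀ x y : X, (∑ᶠ (_ : Reg ℓ (x : X ⧸ L) ∧ x * y * x⁻¹ * y⁻¹ ∈ L), csum τ L a x y) =
      W (q x) (q y) := by
    intro x y
    classical
    rw [hW]
    simp only
    rw [finsum_eq_if, finsum_eq_if]
    by_cases h : Reg ℓ (x : X ⧸ L) ∧ x * y * x⁻¹ * y⁻¹ ∈ L
    · rw [if_pos h, if_pos ((hcond x y).1 h), D.csum_eq hclu τ x y h.2]
    · rw [if_neg h, if_neg (fun h' => h ((hcond x y).2 h'))]
  have h4 : ∑ᶠ (x : X) (y : X), W (q x) (q y) =
      (Nat.card q.ker : ℂ) * ((Nat.card q.ker : ℂ) * ∑ᶠ (x' : X') (y' : X'), W x' y') := by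
    have h5 : ∀ x : X, ∑ᶠ y : X, W (q x) (q y) =
        (Nat.card q.ker : ℂ) * ∑ᶠ y' : X', W (q x) y' := fun x => sum_fib q D.surj _
    have h6 : ∑ᶠ (x : X) (y : X), W (q x) (q y) =
        ∑ᶠ x : X, (fun x' => (Nat.card q.ker : ℂ) * ∑ᶠ y' : X', W x' y') (q x) :=
      finsum_congr h5
    have h7 := sum_fib q D.surj (fun x' => (Nat.card q.ker : ℂ) * ∑ᶠ y' : X', W x' y')
    refine h6.trans (h7.trans ?_)
    have := Fintype.ofFinite X'
    rw [finsum_eq_sum_of_fintype, finsum_eq_sum_of_fintype]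
    simp only [Finset.mul_sum]
  have h5 : (∑ᶠ (x : X) (y : X) (_ : Reg ℓ (x : X ⧸ L) ∧ x * y * x⁻¹ * y⁻¹ ∈ L),
      csum τ L a x y) = ∑ᶠ (x : X) (y : X), W (q x) (q y) :=
    finsum_congr fun x => finsum_congr fun y => h3 x y
  rw [h5, h4] at h1
  have h6 : (∑ᶠ (x' : X') (y' : X'), W x' y') =
      (Nat.card X' : ℂ) * Nat.card (L.map q) * (N2 : ℂ) := h2.symm
  rw [h6] at h1
  have hc1 := card_dom q D.surj
  have hc2 := card_dom (q.subgroupMap L) (sm_surj q L)
  have hc3 : Nat.card (q.subgroupMap L).ker = Nat.card q.ker := by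
    apply Nat.card_congr
    refine ⟨fun z => ⟨(z : L), ?_⟩, fun z => ⟨⟨z, D.ker z.2⟩, ?_⟩, fun z => rfl, fun z => rfl⟩
    · have h7 : q.subgroupMap L z = 1 := z.2
      exact congrArg Subtype.val h7
    · exact Subtype.ext z.2
  rw [hc3] at hc2
  have hp1 : (Nat.card q.ker : ℂ) ≠ 0 := Nat.cast_ne_zero.2 Nat.card_pos.ne'
  have hp2 : (Nat.card X' : ℂ) ≠ 0 := Nat.cast_ne_zero.2 Nat.card_pos.ne'
  have hp3 : (Nat.card (L.map q) : ℂ) ≠ 0 := Nat.cast_ne_zero.2 Nat.card_pos.ne'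
  rw [hc1, hc2] at h1
  push_cast at h1
  have h8 : ((Nat.card q.ker : ℂ) * (Nat.card q.ker : ℂ) * (Nat.card X' : ℂ) *
      (Nat.card (L.map q) : ℂ)) * (N1 : ℂ) = ((Nat.card q.ker : ℂ) * (Nat.card q.ker : ℂ) *
      (Nat.card X' : ℂ) * (Nat.card (L.map q) : ℂ)) * (N2 : ℂ) := by
    linear_combination h1
  have h9 : (N1 : ℂ) = (N2 : ℂ) :=
    mul_left_cancel₀ (mul_ne_zero (mul_ne_zero (mul_ne_zero hp1 hp1) hp2) hp3) h8
  exact_mod_cast h9

end CD

end core

end Pool.Agent.PP.H59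
end
end -- Pool.Agent.Helper59_PP.Core

section -- Pool.Agent.Helper59_PP.Loc

/-!
# Squad PP, module DZQ: the local data for a good `ℓ`-subgroup `P`
-/

open scoped BigOperators

set_option linter.unusedSectionVars false

noncomputable section

namespace Pool.Agent.PP.H59

open Pool.Agent.PP Pool.Agent.PP.H18

/-- The local data. -/
structure LD (ℓ : ℕ) {F : Type} [Field F] {G : Type} [Group G] [Finite G] (N : Subgroup G)
    [N.Normal] (b e : G → F) (f : G ⧸ N → F) {n : ℕ} (α : G →* Matrix (Fin n) (Fin n) F)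
    (H P : Subgroup G) : Prop where
  hF : GoodF ℓ F
  nb : NB ℓ N b
  irr : IsIrr (α.comp N.subtype)
  evb : ev (α.comp N.subtype) (fun x : N => b x) = 1
  he : IsIdem e
  heb : mulF e b = e
  hf : IsIdem f
  hsum : ∀ g : G, ∑ᶠ h : N, e (g * h) • α (g * h) = Matrix.scalar (Fin n) (f g)
  good : Good ℓ N b P
  hPH : P ≤ H
  hHn : H ≤ Subgroup.normalizer (P : Set G)
  hC : Subgroup.centralizer (P : Set G) ≤ H
  hQ : Subgroup.centralizer ((P.map (QuotientGroup.mk' N) : Subgroup (G ⧸ N)) : Set (G ⧸ N)) =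
    (Subgroup.centralizer (P : Set G)).map (QuotientGroup.mk' N)

variable {ℓ : ℕ} {F : Type} [Field F] {G : Type} [Group G] [Finite G] {N : Subgroup G}
    [N.Normal] {b e : G → F} {f : G ⧸ N → F} {n : ℕ} {α : G →* Matrix (Fin n) (Fin n) F}
    {H P : Subgroup G}

/-- conjugation on the normal subgroup -/
abbrev cj (N : Subgroup G) [N.Normal] : G →* MulAut N := MulAut.conjNormal

/-- the group of automorphisms induced by `P` -/
abbrev hat (N : Subgroup G) [N.Normal] (P : Subgroup G) : Subgroup (MulAut N) := P.map (cj N)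

/-- the representation of `N`, written for the top subgroup -/
def rh (N : Subgroup G) (α : G →* Matrix (Fin n) (Fin n) F) :
    (⊤ : Subgroup N) →* Matrix (Fin n) (Fin n) F :=
  (α.comp N.subtype).comp (Subgroup.subtype ⊤)

theorem rh_apply (h : (⊤ : Subgroup N)) : rh N α h = α ((h : N) : G) := rfl

theorem mem_fix {h : N} : h ∈ fixN (hat N P) ↔ (h : G) ∈ Subgroup.centralizer (P : Set G) := by
  rw [Subgroup.mem_centralizer_iff]
  constructor
  · intro hh p hp
    have h1 := hh (cj N p) ⟨p, hp, rfl⟩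
    have h2 := congrArg Subtype.val h1
    rw [MulAut.conjNormal_apply] at h2
    exact mul_inv_eq_iff_eq_mul.1 h2
  · rintro hh _ ⟨p, hp, rfl⟩
    apply Subtype.ext
    rw [MulAut.conjNormal_apply]
    exact mul_inv_eq_iff_eq_mul.2 (hh p hp)

theorem rh_impl (g : G) : Impl (rh N α) (cj N g) (MonoidHom.toHomUnits α g) := by
  intro h h' hh
  rw [MonoidHom.coe_toHomUnits, rh_apply, rh_apply, hh, MulAut.conjNormal_apply, ← map_mul,
    ← map_mul, inv_mul_cancel_right]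

theorem hat_comm {g : G} (hg : g ∈ Subgroup.centralizer (P : Set G)) :
    ∀ p ∈ hat N P, Commute (cj N g) p := by
  rintro _ ⟨p, hp, rfl⟩
  have h1 : Commute g p := ((Subgroup.mem_centralizer_iff.1 hg) p hp).symm
  exact h1.map (cj N)

theorem hat_norm {x : G} (hx : x ∈ Subgroup.normalizer (P : Set G)) :
    ∀ p ∈ hat N P, cj N x * p * (cj N x)⁻¹ ∈ hat N P := by
  rintro _ ⟨p, hp, rfl⟩
  refine ⟨x * p * x⁻¹, (Subgroup.mem_normalizer_iff.1 hx p).1 hp, ?_⟩
  rw [map_mul, map_mul, map_inv]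

namespace LD

variable (D : LD ℓ N b e f α H P)

include D

theorem b_conj (g : G) (h : N) : (fun x : N => b x) (cj N g h) = b h := by
  show b (cj N g h : N) = b h
  rw [MulAut.conjNormal_apply]
  exact D.nb.2.1 _ _

theorem b_inv : InvF (hat N P) (fun x : N => b x) := by
  rintro _ ⟨p, _, rfl⟩ h
  exact D.b_conj p h

theorem b_ne : ∃ x ∈ fixN (hat N P), (fun x : N => b x) x ≠ 0 := by
  obtain ⟨_, _, x, hx, hxc, hb⟩ := D.good
  exact ⟨⟨x, hx⟩, mem_fix.2 hxc, hb⟩

theorem hat_p : IsPGroup ℓ (hat N P) := D.good.1.map _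

theorem dzb' (hbk : BlkStmt) : DZB ℓ (fun x : fixN (hat N P) => b (x : N)) :=
  hbk ℓ F D.hF N (fun x : N => b x) D.nb.2.2.2 (hat N P) D.hat_p D.b_inv D.b_ne

theorem exists_rep (hm : MatStmt) (hbk : BlkStmt) :
    ∃ (n' : ℕ) (ρ' : fixN (hat N P) →* Matrix (Fin n') (Fin n') F), IsIrr ρ' ∧
      ev ρ' (fun x => b (x : N)) = 1 :=
  (hm ℓ F D.hF _ _ (D.dzb' hbk)).1

theorem dat {n' : ℕ} {ρ' : fixN (hat N P) →* Matrix (Fin n') (Fin n') F} (h1 : IsIrr ρ')
    (h2 : ev ρ' (fun x => b (x : N)) = 1) :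
    Dat ℓ F (fun x : N => b x) (hat N P) (rh N α) ρ' where
  good := D.hF
  hb := D.nb.2.2.2
  hP := D.hat_p
  inv := D.b_inv
  irr := H18.irr_equiv (Subgroup.topEquiv (G := N)) D.irr
  irr' := h1
  evb := by
    have h := H18.ev_equiv (Subgroup.topEquiv (G := N)) (α.comp N.subtype) (fun x : N => b x)
    rw [D.evb] at h
    exact h
  evb' := h2

variable {n' : ℕ} {ρ' : fixN (hat N P) →* Matrix (Fin n') (Fin n') F} (h1 : IsIrr ρ')
    (h2 : ev ρ' (fun x => b (x : N)) = 1) (hm : MatStmt) (hc : IbcStmt)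

include h1 h2 hm hc

theorem fixM {g : G} (hg : g ∈ Subgroup.centralizer (P : Set G)) :
    FixM (rh N α) (hat N P) (α g) :=
  ((D.dat h1 h2).comm hm hc (cj N g) (hat_comm hg) _ (rh_impl g)).1

/-- the truncated representation of the centraliser of `P` -/
def bt : Subgroup.centralizer (P : Set G) →* Matrix (Fin n') (Fin n') F where
  toFun g := bet (hat N P) (rh N α) ρ' (α g)
  map_one' := by
    rw [Subgroup.coe_one, map_one]
    exact (D.dat h1 h2).one hm
  map_mul' x y := by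
    rw [Subgroup.coe_mul, map_mul]
    exact ((D.dat h1 h2).mul hm hc (D.fixM h1 h2 hm hc x.2) (D.fixM h1 h2 hm hc y.2)).2

theorem bt_apply (g : Subgroup.centralizer (P : Set G)) :
    D.bt h1 h2 hm hc g = bet (hat N P) (rh N α) ρ' (α g) := rfl

/-- on the fixed points the truncated representation is `ρ'` -/
theorem bt_fix (h : fixN (hat N P)) :
    D.bt h1 h2 hm hc ⟨((h : N) : G), mem_fix.1 h.2⟩ = ρ' h := by
  rw [bt_apply]
  have e1 : α ((h : N) : G) = ev (rh N α) (fun x => dl F (h : N) x) := by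
    rw [ev_tp, ev_dl, tp_apply]
    rfl
  have e2 : ev ρ' (fun x => dl F (h : N) x) = ρ' h := by
    have : (fun x : fixN (hat N P) => dl F (h : N) x) = dl F h := by
      funext x
      by_cases hx : x = h
      · have hx' : (x : N) = h := congrArg Subtype.val hx
        unfold dl
        rw [if_pos hx', if_pos hx]
      · have hx' : ¬ (x : N) = h := fun e => hx (Subtype.ext e)
        unfold dl
        rw [if_neg hx', if_neg hx]
    rw [this, ev_dl]
  show bet (hat N P) (rh N α) ρ' (α ((h : N) : G)) = ρ' h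
  rw [e1, (D.dat h1 h2).bet_ev hm (inv_dl (h : N) h.2), e2]

/-- the truncation of a scalar matrix -/
theorem bet_scalar (w : F) : bet (hat N P) (rh N α) ρ' (Matrix.scalar (Fin n) w) =
    Matrix.scalar (Fin n') w := by
  have e1 : ∀ {m : ℕ} {K : Subgroup N} (σ : K →* Matrix (Fin m) (Fin m) F),
      ev σ (fun x => (fun y : N => w * b y) x) = w • ev σ (fun x => b (x : N)) := by
    intro m K σ
    have := Fintype.ofFinite K
    unfold ev
    rw [finsum_eq_sum_of_fintype, finsum_eq_sum_of_fintype, Finset.smul_sum]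
    exact Finset.sum_congr rfl fun t _ => by rw [smul_smul]
  have e2 : InvF (hat N P) (fun y : N => w * b y) := by
    intro p hp h
    have := D.b_inv p hp h
    show w * b (p h) = w * b h
    rw [show b (p h : N) = b h from this]
  have e3 : ∀ {m : ℕ}, Matrix.scalar (Fin m) w = w • (1 : Matrix (Fin m) (Fin m) F) := by
    intro m
    rw [Matrix.scalar_apply, Matrix.smul_one_eq_diagonal]
  have e4 := (D.dat h1 h2).bet_ev hm e2
  rw [e1, e1, show ev (rh N α) (fun x => b ((x : N) : G)) = 1 from (D.dat h1 h2).evb, h2] at e4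
  rw [e3, e3]
  exact e4

/-- the sum over a coset of the fixed points -/
theorem bt_sum (g : Subgroup.centralizer (P : Set G)) :
    D.bt h1 h2 hm hc g * ev ρ' (fun x => e (g * ((x : N) : G))) =
      Matrix.scalar (Fin n') (f ((g : G) : G ⧸ N)) := by
  set v : N → F := fun h => e (g * h) with hv
  have hinv : InvF (hat N P) v := by
    rintro _ ⟨p, hp, rfl⟩ h
    show e (g * (cj N p h : N)) = e (g * h)
    have h3 : (p : G) * g = g * p := (Subgroup.mem_centralizer_iff.1 g.2) p hp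
    have h4 : (g : G) * (cj N p h : N) = p * (g * h) * p⁻¹ := by
      rw [MulAut.conjNormal_apply]
      simp only [← mul_assoc]
      rw [h3]
    rw [h4]
    exact D.he.1 _ _
  have e1 : α g * ev (rh N α) (fun x => v x) = Matrix.scalar (Fin n) (f ((g : G) : G ⧸ N)) := by
    rw [← D.hsum g]
    have h5 := H18.ev_equiv (Subgroup.topEquiv (G := N)) (α.comp N.subtype) v
    have h6 : ev (rh N α) (fun x => v x) = ev (α.comp N.subtype) v := h5
    rw [h6]
    have := Fintype.ofFinite N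
    unfold ev
    rw [finsum_eq_sum_of_fintype, finsum_eq_sum_of_fintype, Finset.mul_sum]
    refine Finset.sum_congr rfl fun t _ => ?_
    rw [mul_smul_comm, map_mul]
    rfl
  have e2 := ((D.dat h1 h2).mul hm hc (D.fixM h1 h2 hm hc g.2) ((D.dat h1 h2).fix hinv)).2
  rw [e1, D.bet_scalar h1 h2 hm hc, (D.dat h1 h2).bet_ev hm hinv] at e2
  exact e2.symm

/-- implementation -/
theorem bt_conj (hbk : BlkStmt) {x : G} (hx : x ∈ Subgroup.normalizer (P : Set G)) :
    ∃ Z : (Matrix (Fin n') (Fin n') F)ˣ, Impl ρ' (cj N x) Z := by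
  have h3 := fixN_stable (hat_norm (N := N) hx)
  refine exists_impl D.hF hm hc (b := fun x : N => b x) (D.dzb' hbk) ρ' h1 h2 (cj N x) h3.2 ?_
  exact D.b_conj x

theorem bt_conj' {x : G} (hx : x ∈ Subgroup.normalizer (P : Set G))
    (Z : (Matrix (Fin n') (Fin n') F)ˣ) (hZ : Impl ρ' (cj N x) Z)
    (g g' : Subgroup.centralizer (P : Set G)) (hg : (g' : G) = x * g * x⁻¹) :
    (Z : Matrix (Fin n') (Fin n') F) * D.bt h1 h2 hm hc g = D.bt h1 h2 hm hc g' * Z := by
  have h3 := ((D.dat h1 h2).conj hm hc (cj N x) (hat_norm hx) _ Z (rh_impl x) hZ (α g)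
    (D.fixM h1 h2 hm hc g.2)).2
  have h4 : ((MonoidHom.toHomUnits α x : (Matrix (Fin n) (Fin n) F)ˣ) :
      Matrix (Fin n) (Fin n) F) * α g *
      (((MonoidHom.toHomUnits α x)⁻¹ : (Matrix (Fin n) (Fin n) F)ˣ) : Matrix (Fin n) (Fin n) F) =
      α g' := by
    rw [← map_inv, MonoidHom.coe_toHomUnits, MonoidHom.coe_toHomUnits, ← map_mul, ← map_mul, hg]
  rw [h4] at h3
  rw [bt_apply, bt_apply, h3, mul_assoc, Units.inv_mul, mul_one]

theorem bt_comm (heps : EpsStmt) {x y : G} (hx : x ∈ Subgroup.normalizer (P : Set G))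
    (hy : y ∈ Subgroup.normalizer (P : Set G))
    (hxy : x * y * x⁻¹ * y⁻¹ ∈ Subgroup.centralizer (P : Set G))
    (X Y : (Matrix (Fin n') (Fin n') F)ˣ) (hX : Impl ρ' (cj N x) X) (hY : Impl ρ' (cj N y) Y) :
    (X : Matrix (Fin n') (Fin n') F) * Y = D.bt h1 h2 hm hc ⟨_, hxy⟩ * Y * X := by
  have hD := D.dat h1 h2
  obtain ⟨a, ha, ha'⟩ := hD.surj hm hc (D.fixM h1 h2 hm hc hxy)
  have h3 := heps ℓ F D.hF N (fun x : N => b x) D.nb.2.2.2 (hat N P) D.hat_p D.b_inv D.b_ne n n'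
    (rh N α) ρ' hD.irr h1 hD.evb h2 (cj N x) (cj N y) (hat_norm hx) (hat_norm hy) (D.b_conj x)
    (D.b_conj y) (by
      have h4 : cj N x * cj N y * (cj N x)⁻¹ * (cj N y)⁻¹ = cj N (x * y * x⁻¹ * y⁻¹) := by
        rw [map_mul, map_mul, map_mul, map_inv, map_inv]
      rw [h4]
      exact hat_comm hxy)
    (MonoidHom.toHomUnits α x) (MonoidHom.toHomUnits α y) X Y (rh_impl x) (rh_impl y) hX hY a ha
    (by
      rw [ha', ← map_inv, ← map_inv, ← map_mul, ← map_mul, ← map_mul,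
        MonoidHom.coe_toHomUnits])
  rw [bt_apply]
  show _ = bet (hat N P) (rh N α) ρ' (α (x * y * x⁻¹ * y⁻¹)) * Y * X
  rw [← ha', hD.bet_ev hm ha, h3]
  simp only [Units.val_mul, mul_assoc, Units.inv_mul, mul_one]

end LD

end Pool.Agent.PP.H59
end
end -- Pool.Agent.Helper59_PP.Loc

section -- Pool.Agent.Helper59_PP.Dzq

/-!
# Squad PP, module DZQ: comparison of the `ℓ`-numbers of the stabilisers
-/

open scoped BigOperators

set_option linter.unusedSectionVars false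

noncomputable section

namespace Pool.Agent.PP.H59

open Pool.Agent.PP Pool.Agent.PP.H18 Pool.Agent.Helper51_AWC Pool.Agent.Helper79_WRA

theorem br_of_mem {F G : Type} [Field F] [Group G] {R : Subgroup G} {a : G → F} {t : G}
    (h : t ∈ Subgroup.centralizer (R : Set G)) : br R a t = a t := if_pos h

theorem br_of_not_mem {F G : Type} [Field F] [Group G] {R : Subgroup G} {a : G → F} {t : G}
    (h : t ∉ Subgroup.centralizer (R : Set G)) : br R a t = 0 := if_neg h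

theorem isCl_br {F X : Type} [Field F] [Group X] {R : Subgroup X} (hR : R.Normal) {a : X → F}
    (ha : IsCl a) : IsCl (br R a) := by
  have hn : (Subgroup.centralizer (R : Set X)).Normal := inferInstance
  intro x y
  by_cases h : x ∈ Subgroup.centralizer (R : Set X)
  · rw [br_of_mem h, br_of_mem (hn.conj_mem x h y), ha]
  · rw [br_of_not_mem h, br_of_not_mem]
    intro h'
    apply h
    have h2 := hn.conj_mem _ h' y⁻¹
    have e1 : y⁻¹ * (y * x * y⁻¹) * y⁻¹⁻¹ = x := by group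
    rwa [e1] at h2

variable {ℓ : ℕ} {F : Type} [Field F] {G : Type} [Group G] [Finite G] {N : Subgroup G}
    [N.Normal] {b e : G → F} {f : G ⧸ N → F} {n : ℕ} {α : G →* Matrix (Fin n) (Fin n) F}
    {H P : Subgroup G}

/-- the centraliser of `P` in `H` -/
abbrev LL (H P : Subgroup G) : Subgroup H :=
  Subgroup.centralizer ((P.subgroupOf H : Subgroup H) : Set H)

/-- the quotient map on `H` -/
abbrev qq (N : Subgroup G) [N.Normal] (H : Subgroup G) : H →* H.map (QuotientGroup.mk' N) :=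
  (QuotientGroup.mk' N).subgroupMap H

/-- the map on the centraliser -/
abbrev qL (N : Subgroup G) [N.Normal] (H P : Subgroup G) :
    LL H P →* (LL H P).map (qq N H) := (qq N H).subgroupMap (LL H P)

/-- the truncation of the class function `e` to the centraliser of `P`, on `H` -/
abbrev ea (H P : Subgroup G) (e : G → F) : H → F := br (P.subgroupOf H) (fun t : H => e t)

theorem mem_LL (hPH : P ≤ H) {x : H} :
    x ∈ LL H P ↔ (x : G) ∈ Subgroup.centralizer (P : Set G) := by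
  rw [Subgroup.mem_centralizer_iff, Subgroup.mem_centralizer_iff]
  constructor
  · intro h p hp
    exact congrArg Subtype.val (h ⟨p, hPH hp⟩ (Subgroup.mem_subgroupOf.2 hp))
  · intro h p hp
    exact Subtype.ext (h p (Subgroup.mem_subgroupOf.1 hp))

/-- the `ℓ`-number by the truncation -/
theorem lnum_eq (hnls : NlsStmt) (hF : GoodF ℓ F) (H P : Subgroup G)
    (hn : (P.subgroupOf H).Normal) (hP : IsPGroup ℓ P) (e : G → F) (he : IsCl e) :
    lnum H e = {θ : H → F | θ ∈ IBr F H ∧ actF (ea H P e) θ = θ}.ncard := by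
  have h1 : IsPGroup ℓ (P.subgroupOf H) := hP.comap_subtype
  have h2 : IsCl (fun t : H => e t) := fun x y => he _ _
  have h3 : {θ : H → F | θ ∈ IBr F H ∧ actF (fun t : H => e t) θ = θ} =
      {θ : H → F | θ ∈ IBr F H ∧ actF (ea H P e) θ = θ} := by
    ext θ
    simp only [Set.mem_ofPred_eq]
    refine and_congr_right fun hθ => ?_
    obtain ⟨k, ρ, hρ, rfl⟩ := hθ
    rw [((hnls ℓ F hF H (P.subgroupOf H) hn h1 k ρ hρ).2 _ h2).2]
  unfold lnum
  rw [h3]

namespace LD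

variable (D : LD ℓ N b e f α H P)

include D

theorem normal : (P.subgroupOf H).Normal :=
  (Subgroup.normal_subgroupOf_iff_le_normalizer D.hPH).2 D.hHn

theorem normal' : ((P.map (QuotientGroup.mk' N)).subgroupOf (H.map (QuotientGroup.mk' N))).Normal := by
  rw [Subgroup.normal_subgroupOf_iff_le_normalizer (Subgroup.map_mono D.hPH)]
  rintro _ ⟨x, hx, rfl⟩
  rw [Subgroup.mem_normalizer_iff]
  have h1 : ∀ z ∈ Subgroup.normalizer (P : Set G), ∀ y,
      y ∈ P.map (QuotientGroup.mk' N) → QuotientGroup.mk' N z * y * (QuotientGroup.mk' N z)⁻¹ ∈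
        P.map (QuotientGroup.mk' N) := by
    rintro z hz _ ⟨p, hp, rfl⟩
    exact ⟨z * p * z⁻¹, (Subgroup.mem_normalizer_iff.1 hz p).1 hp, by
      rw [map_mul, map_mul, map_inv]⟩
  intro y
  constructor
  · exact h1 x (D.hHn hx) y
  · intro hy
    have h2 := h1 x⁻¹ ((Subgroup.normalizer (P : Set G)).inv_mem (D.hHn hx)) _ hy
    rw [map_inv] at h2
    have e1 : (QuotientGroup.mk' N x)⁻¹ * (QuotientGroup.mk' N x * y * (QuotientGroup.mk' N x)⁻¹) *
        (QuotientGroup.mk' N x)⁻¹⁻¹ = y := by group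
    rwa [e1] at h2

theorem qq_ker : (qq N H).ker ≤ LL H P := by
  intro x hx
  rw [mem_LL D.hPH]
  have h1 : (x : G) ∈ N := by
    have h2 : QuotientGroup.mk' N (x : G) = 1 := congrArg Subtype.val hx
    exact (QuotientGroup.eq_one_iff _).1 h2
  rw [Subgroup.mem_centralizer_iff]
  intro p hp
  have h3 : (x : G) * p * (x : G)⁻¹ ∈ P := (Subgroup.mem_normalizer_iff.1 (D.hHn x.2) p).1 hp
  have h4 : (x : G) * p * (x : G)⁻¹ * p⁻¹ ∈ P ⊓ N := by
    refine Subgroup.mem_inf.2 ⟨P.mul_mem h3 (P.inv_mem hp), ?_⟩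
    have h5 : p * (x : G)⁻¹ * p⁻¹ ∈ N := D.nb.1.conj_mem _ (inv_mem h1) p
    have h6 := mul_mem h1 h5
    have e1 : (x : G) * (p * (x : G)⁻¹ * p⁻¹) = (x : G) * p * (x : G)⁻¹ * p⁻¹ := by group
    rwa [e1] at h6
  rw [D.good.2.1, Subgroup.mem_bot] at h4
  have h7 : (x : G) * p * (x : G)⁻¹ = p := mul_inv_eq_one.1 h4
  exact (mul_inv_eq_iff_eq_mul.1 h7).symm

theorem mem_ker {z : LL H P} : z ∈ (qL N H P).ker ↔ ((z : H) : G) ∈ N := by
  rw [MonoidHom.mem_ker]
  constructor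
  · intro h
    have h1 : qq N H (z : H) = 1 := congrArg Subtype.val h
    have h2 : QuotientGroup.mk' N ((z : H) : G) = 1 := congrArg Subtype.val h1
    exact (QuotientGroup.eq_one_iff _).1 h2
  · intro h
    apply Subtype.ext
    apply Subtype.ext
    exact (QuotientGroup.eq_one_iff _).2 h

/-- the centraliser of `P` in `H` and in `G` -/
def eL : LL H P ≃* Subgroup.centralizer (P : Set G) where
  toFun x := ⟨((x : H) : G), (mem_LL D.hPH).1 x.2⟩
  invFun x := ⟨⟨(x : G), D.hC x.2⟩, (mem_LL D.hPH).2 x.2⟩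
  left_inv _ := rfl
  right_inv _ := rfl
  map_mul' _ _ := rfl

/-- the kernel and the fixed points -/
def eK : (qL N H P).ker ≃* fixN (hat N P) where
  toFun z := ⟨⟨(((z : LL H P) : H) : G), D.mem_ker.1 z.2⟩,
    mem_fix.2 ((mem_LL D.hPH).1 (z : LL H P).2)⟩
  invFun h := ⟨⟨⟨((h : N) : G), D.hC ((mem_fix (h := (h : N))).1 h.2)⟩,
    (mem_LL D.hPH).2 ((mem_fix (h := (h : N))).1 h.2)⟩, D.mem_ker.2 (h : N).2⟩
  left_inv _ := rfl
  right_inv _ := rfl
  map_mul' _ _ := rfl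

theorem idem_L (hbrm : BrmStmt) :
    mulF (fun t : LL H P => e ((t : H) : G)) (fun t : LL H P => b ((t : H) : G)) =
      fun t : LL H P => e ((t : H) : G) := by
  obtain ⟨h1, h2, _⟩ := hbrm ℓ F D.hF G P (Subgroup.centralizer (P : Set G)) D.good.1 le_rfl
    (D.hC.trans D.hHn)
  have h3 := h1 e b D.he.1 D.nb.2.1
  rw [D.heb] at h3
  have h4 := h2 e b
  rw [← h3] at h4
  have h5 : ∀ a : G → F, (fun t : Subgroup.centralizer (P : Set G) => br P a t) =
      fun t : Subgroup.centralizer (P : Set G) => a t := by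
    intro a
    funext t
    exact br_of_mem t.2
  rw [h5, h5] at h4
  have h6 := mulF_equiv D.eL (fun t : Subgroup.centralizer (P : Set G) => e t)
    (fun t : Subgroup.centralizer (P : Set G) => b t)
  rw [← h4] at h6
  exact h6

/-- a representation of the centraliser on which `e` acts as the identity -/
theorem ovr (hbrm : BrmStmt) (heig : EigStmt) (hbk : BlkStmt) (hm : MatStmt) {n' : ℕ}
    {ρ' : fixN (hat N P) →* Matrix (Fin n') (Fin n') F} (h1 : IsIrr ρ')
    (h2 : ev ρ' (fun x => b (x : N)) = 1) (k : ℕ) (V : LL H P →* Matrix (Fin k) (Fin k) F)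
    (hV : IsIrr V) (hact : actF (fun t : LL H P => ea H P e t) (tr V) = tr V)
    (w : fixN (hat N P) → F) (hw : ev ρ' w = 0) :
    ev (V.comp (qL N H P).ker.subtype) (fun z => w (D.eK z)) = 0 := by
  have e0 : (fun t : LL H P => ea H P e t) = fun t : LL H P => e ((t : H) : G) := by
    funext t
    exact br_of_mem t.2
  rw [e0] at hact
  have hcl : IsCl (fun t : LL H P => e ((t : H) : G)) := fun x y => D.he.1 _ _
  obtain ⟨c, hc1, hc2, _⟩ := heig F (LL H P) k V hV _ hcl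
  have hc : c = 1 := by
    rw [hact] at hc2
    obtain ⟨x, hx⟩ := H33.tr_ne_zero hV
    have h3 := congrFun hc2 x
    rw [Pi.smul_apply, smul_eq_mul] at h3
    have h4 : (1 - c) * tr V x = 0 := by linear_combination h3
    rcases mul_eq_zero.1 h4 with h5 | h5
    · exact (sub_eq_zero.1 h5).symm
    · exact absurd h5 hx
  rw [hc, map_one] at hc1
  have h3 : ev V (fun t : LL H P => b ((t : H) : G)) = 1 := by
    have h4 := congrArg (ev V) (D.idem_L hbrm)
    rw [ev_mulF, hc1, one_mul] at h4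
    exact h4
  -- the function `b` is supported in the kernel
  have h4 : ev (V.comp (qL N H P).ker.subtype) (fun z => b ((D.eK z : N) : G)) = 1 := by
    rw [← h3]
    classical
    have := Fintype.ofFinite (LL H P)
    have := Fintype.ofFinite (qL N H P).ker
    unfold ev
    rw [finsum_eq_sum_of_fintype, finsum_eq_sum_of_fintype]
    have h5 : ∀ t : LL H P, t ∉ (Finset.univ.image fun z : (qL N H P).ker => (z : LL H P)) →
        b ((t : H) : G) • V t = 0 := by
      intro t ht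
      have h6 : ((t : H) : G) ∉ N := by
        intro h7
        apply ht
        rw [Finset.mem_image]
        exact ⟨⟨t, D.mem_ker.2 h7⟩, Finset.mem_univ _, rfl⟩
      rw [D.nb.2.2.1 _ h6, zero_smul]
    rw [← Finset.sum_subset (Finset.subset_univ
      (Finset.univ.image fun z : (qL N H P).ker => (z : LL H P)))
      (fun t _ ht => h5 t ht), Finset.sum_image (fun x _ y _ h => Subtype.ext h)]
    rfl
  have h5 : mulF w (fun x : fixN (hat N P) => b (x : N)) = 0 :=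
    (hm ℓ F D.hF _ _ (D.dzb' hbk)).2.1 n' ρ' h1 h2 w hw
  have h6 := mulF_equiv D.eK w (fun x : fixN (hat N P) => b (x : N))
  rw [h5] at h6
  have h7 := congrArg (ev (V.comp (qL N H P).ker.subtype)) h6
  rw [ev_mulF, h4, mul_one] at h7
  rw [h7]
  unfold ev
  simp only [Pi.zero_apply, zero_smul, finsum_zero]

/-- the data of the comparison -/
theorem cd (hbrm : BrmStmt) (heig : EigStmt) (hbk : BlkStmt) (hm : MatStmt) (hc : IbcStmt)
    (heps : EpsStmt) [hL : (LL H P).Normal] {n' : ℕ}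
    {ρ' : fixN (hat N P) →* Matrix (Fin n') (Fin n') F} (h1 : IsIrr ρ')
    (h2 : ev ρ' (fun x => b (x : N)) = 1) :
    CD ℓ (qq N H) (LL H P) (ea H P e)
      (ea (H.map (QuotientGroup.mk' N)) (P.map (QuotientGroup.mk' N)) f)
      ((D.bt h1 h2 hm hc).comp D.eL.toMonoidHom) where
  hF := D.hF
  surj := MonoidHom.subgroupMap_surjective _ _
  ker := D.qq_ker
  ha := isCl_br D.normal (fun x y => D.he.1 _ _)
  hal h hh := br_of_not_mem hh
  ha' := isCl_br D.normal' (fun x y => D.hf.1 _ _)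
  hal' h hh := by
    apply br_of_not_mem
    intro h3
    apply hh
    have h4 : (h : G ⧸ N) ∈ Subgroup.centralizer
        ((P.map (QuotientGroup.mk' N) : Subgroup (G ⧸ N)) : Set (G ⧸ N)) :=
      (mem_LL (Subgroup.map_mono D.hPH)).1 h3
    rw [D.hQ] at h4
    obtain ⟨g, hg, hgh⟩ := h4
    exact ⟨⟨g, D.hC hg⟩, (mem_LL D.hPH).2 hg, Subtype.ext hgh⟩
  irr := by
    have h3 : ((D.bt h1 h2 hm hc).comp D.eL.toMonoidHom).comp (qL N H P).ker.subtype =
        ρ'.comp D.eK.toMonoidHom := by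
      ext1 z
      exact D.bt_fix h1 h2 hm hc (D.eK z)
    rw [h3]
    exact irr_comp_equiv D.eK h1
  sum g := by
    have h3 : ∀ c : (qL N H P).ker,
        ea H P e ((g * (c : LL H P) : LL H P) : H) •
          ((D.bt h1 h2 hm hc).comp D.eL.toMonoidHom) (g * (c : LL H P)) =
        D.bt h1 h2 hm hc (D.eL g) *
          (e (((D.eL g : Subgroup.centralizer (P : Set G)) : G) * ((D.eK c : N) : G)) •
            ρ' (D.eK c)) := by
      intro c
      rw [← D.bt_fix h1 h2 hm hc (D.eK c), mul_smul_comm]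
      have h4 : ea H P e ((g * (c : LL H P) : LL H P) : H) =
          e (((D.eL g : Subgroup.centralizer (P : Set G)) : G) * ((D.eK c : N) : G)) :=
        br_of_mem (g * (c : LL H P)).2
      rw [h4, map_mul]
      rfl
    rw [finsum_congr h3]
    have := Fintype.ofFinite (qL N H P).ker
    have := Fintype.ofFinite (fixN (hat N P))
    rw [finsum_eq_sum_of_fintype, ← Finset.mul_sum]
    have h5 : (∑ c : (qL N H P).ker,
        e (((D.eL g : Subgroup.centralizer (P : Set G)) : G) * ((D.eK c : N) : G)) •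
          ρ' (D.eK c)) =
        ev ρ' (fun x => e (((D.eL g : Subgroup.centralizer (P : Set G)) : G) *
          ((x : N) : G))) := by
      unfold ev
      rw [finsum_eq_sum_of_fintype]
      exact Equiv.sum_comp D.eK.toEquiv (fun x : fixN (hat N P) =>
        e (((D.eL g : Subgroup.centralizer (P : Set G)) : G) * ((x : N) : G)) • ρ' x)
    rw [h5, D.bt_sum h1 h2 hm hc]
    have h6 : ea (H.map (QuotientGroup.mk' N)) (P.map (QuotientGroup.mk' N)) f (qq N H (g : H)) =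
        f ((((g : H) : G)) : G ⧸ N) := by
      apply br_of_mem
      rw [mem_LL (Subgroup.map_mono D.hPH), D.hQ]
      exact ⟨((g : H) : G), (mem_LL D.hPH).1 g.2, rfl⟩
    rw [h6]
    rfl
  ovr k V hV hact w hw := by
    have h3 : w = fun z => (fun x => w (D.eK.symm x)) (D.eK z) := by
      funext z
      show w z = w (D.eK.symm (D.eK z))
      rw [MulEquiv.symm_apply_apply]
    rw [h3]
    refine D.ovr hbrm heig hbk hm h1 h2 k V hV hact (fun x => w (D.eK.symm x)) ?_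
    have h4 : ((D.bt h1 h2 hm hc).comp D.eL.toMonoidHom).comp (qL N H P).ker.subtype =
        ρ'.comp D.eK.toMonoidHom := by
      ext1 z
      exact D.bt_fix h1 h2 hm hc (D.eK z)
    rw [h4] at hw
    have h5 := H18.ev_equiv D.eK ρ' (fun x => w (D.eK.symm x))
    rw [← h5, ← h3]
    exact hw
  impl x := by
    obtain ⟨Z, hZ⟩ := D.bt_conj h1 h2 hm hc hbk (D.hHn x.2)
    refine ⟨Z, Z.isUnit, fun g => ?_⟩
    exact D.bt_conj' h1 h2 hm hc (D.hHn x.2) Z hZ (D.eL g) (D.eL (MulAut.conjNormal x g)) rfl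
  comm x y hk Zx Zy hZx hZy hx hy := by
    obtain ⟨X, rfl⟩ := hZx
    obtain ⟨Y, rfl⟩ := hZy
    have key : ∀ (z : H) (Z : (Matrix (Fin n') (Fin n') F)ˣ),
        (∀ g : LL H P, (Z : Matrix (Fin n') (Fin n') F) *
          ((D.bt h1 h2 hm hc).comp D.eL.toMonoidHom) g =
          ((D.bt h1 h2 hm hc).comp D.eL.toMonoidHom) (MulAut.conjNormal z g) * Z) →
        Impl ρ' (cj N (z : G)) Z := by
      intro z Z hz h h' hh
      have h3 := hz (D.eK.symm h : LL H P)
      have h4 : ((D.bt h1 h2 hm hc).comp D.eL.toMonoidHom) (D.eK.symm h : LL H P) = ρ' h :=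
        D.bt_fix h1 h2 hm hc h
      have h5 : ((D.bt h1 h2 hm hc).comp D.eL.toMonoidHom)
          (MulAut.conjNormal z (D.eK.symm h : LL H P)) = ρ' h' := by
        rw [← D.bt_fix h1 h2 hm hc h']
        have h6 : D.eL (MulAut.conjNormal z (D.eK.symm h : LL H P)) =
            ⟨((h' : N) : G), mem_fix.1 h'.2⟩ := by
          apply Subtype.ext
          show ((z : G) * ((h : N) : G) * (z : G)⁻¹) = ((h' : N) : G)
          rw [hh, MulAut.conjNormal_apply]
        show D.bt h1 h2 hm hc (D.eL (MulAut.conjNormal z (D.eK.symm h : LL H P))) = _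
        rw [h6]
      rw [h4, h5] at h3
      exact h3
    exact D.bt_comm h1 h2 hm hc heps (D.hHn x.2) (D.hHn y.2) ((mem_LL D.hPH).1 hk) X Y
      (key x X hx) (key y Y hy)

theorem main (hcl : ClStmt) (hclu : CluStmt) (hnls : NlsStmt) (hbrm : BrmStmt) (heig : EigStmt)
    (hbk : BlkStmt) (hm : MatStmt) (hc : IbcStmt) (heps : EpsStmt) :
    lnum H e = lnum (H.map (QuotientGroup.mk' N)) f := by
  obtain ⟨n', ρ', h1, h2⟩ := D.exists_rep hm hbk
  have hn := D.normal
  have hL : (LL H P).Normal := inferInstance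
  rw [lnum_eq hnls D.hF H P D.normal D.good.1 e D.he.1,
    lnum_eq hnls D.hF (H.map (QuotientGroup.mk' N)) (P.map (QuotientGroup.mk' N)) D.normal'
      (D.good.1.map _) f D.hf.1]
  exact (D.cd hbrm heig hbk hm hc heps h1 h2).core hcl hclu

end LD

theorem dzq (hcl : ClStmt) (hclu : CluStmt) (heps : EpsStmt) (hbk : BlkStmt) (hm : MatStmt)
    (hnco : NcoStmt) (hnls : NlsStmt) (hbrm : BrmStmt) (heig : EigStmt) (hc : IbcStmt) :
    DzqStmt := by
  intro ℓ F _ hF G _ _ N _ b e n α hNB hα hαb he heb f hf hsum c hcc hcn hcg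
  obtain ⟨_, hc2, hc3⟩ := mem_chainsOn.1 hcc
  have htop := H94.top_mem hc3 ⟨_, hc2⟩
  have hstab : ∀ x, x ∈ stab c ↔ ∀ E ∈ c, x ∈ Subgroup.normalizer (E : Set G) := by
    intro x
    simp only [stab, Subgroup.mem_iInf]
  have hPH : top c ≤ stab c := by
    intro x hx
    rw [hstab]
    exact fun E hE => hcn E hE hx
  have hHn : stab c ≤ Subgroup.normalizer ((top c : Subgroup G) : Set G) := by
    intro x hx
    exact (hstab x).1 hx _ htop.1
  have hC : Subgroup.centralizer ((top c : Subgroup G) : Set G) ≤ stab c := by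
    intro x hx
    rw [hstab]
    intro E hE
    have h1 : x ∈ Subgroup.centralizer (E : Set G) :=
      Subgroup.centralizer_le (fun y hy => htop.2 E hE hy) hx
    exact Subgroup.centralizer_le_normalizer _ h1
  have hQ := ((hnco ℓ F hF G N ⊤ b hNB inferInstance le_top).1 c hcc hcn hcg).2.2.2.2.2
  have D : LD ℓ N b e f α (stab c) (top c) := ⟨hF, hNB, hα, hαb, he, heb, hf, hsum, hcg, hPH, hHn,
    hC, hQ⟩
  exact D.main hcl hclu hnls hbrm heig hbk hm hc heps

end Pool.Agent.PP.H59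
end
end -- Pool.Agent.Helper59_PP.Dzq

section -- Pool.Agent.Helper66_BN.Co3

/-!
# Squad PP, part BN: the correspondence is equivariant
-/

open scoped BigOperators

noncomputable section

namespace Pool.Agent.PP.BN.H66

open Pool.Agent.PP Pool.Agent.Helper51_AWC Pool.Agent.Helper79_WRA

variable {F D : Type} [Field F] [Group D]

/-- conjugation by an element of the normaliser as a permutation of `U` inside `M` -/
def cjU (M U : Subgroup D) [M.Normal] (x : Subgroup.normalizer (U : Set D)) :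
    U.subgroupOf M ≃ U.subgroupOf M where
  toFun u := ⟨MulAut.conjNormal (x : D) u, by
    rw [Subgroup.mem_subgroupOf, MulAut.conjNormal_apply]
    exact (Subgroup.mem_normalizer_iff.1 x.2 _).1 (Subgroup.mem_subgroupOf.1 u.2)⟩
  invFun u := ⟨MulAut.conjNormal (x⁻¹ : D) u, by
    rw [Subgroup.mem_subgroupOf, MulAut.conjNormal_apply]
    exact (Subgroup.mem_normalizer_iff.1 (inv_mem x.2) _).1 (Subgroup.mem_subgroupOf.1 u.2)⟩
  left_inv u := by
    apply Subtype.ext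
    apply Subtype.ext
    simp only [MulAut.conjNormal_apply]
    group
  right_inv u := by
    apply Subtype.ext
    apply Subtype.ext
    simp only [MulAut.conjNormal_apply]
    group

theorem cjU_coe (M U : Subgroup D) [M.Normal] (x : Subgroup.normalizer (U : Set D))
    (u : U.subgroupOf M) : ((cjU M U x u : U.subgroupOf M) : M) = MulAut.conjNormal (x : D) u := rfl

/-- CO3 -/
theorem co3 : Co3Stmt := by
  intro ℓ _ F _ D _ _ M U _ φ κ _ hc x
  obtain ⟨k, ρ, v, h1, h2, h3, h4, h5, h6⟩ := hc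
  refine ⟨k, ρ.comp (MulAut.conjNormal (x : D) : M ≃* M).toMonoidHom, v, ⟨h1.1, ?_⟩, ?_, ?_, h4,
    fun b => ?_, fun w hw => h6 w fun u hu => ?_⟩
  · have h7 : Set.range (ρ.comp (MulAut.conjNormal (x : D) : M ≃* M).toMonoidHom) =
        Set.range ρ := by
      ext A
      constructor
      · rintro ⟨g, rfl⟩
        exact ⟨_, rfl⟩
      · rintro ⟨g, rfl⟩
        exact ⟨(MulAut.conjNormal (x : D) : M ≃* M).symm g, by simp⟩
    rw [h7]
    exact h1.2
  · funext l
    rw [← h2]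
    rfl
  · unfold SZ
    have h7 := finsum_comp_equiv (cjU M U x) (f := fun u : U.subgroupOf M => ρ u)
    rw [show ∑ᶠ u : U.subgroupOf M, ρ u = 0 from h3] at h7
    rw [← h7]
    rfl
  · have h7 := h5 (MulAut.conjNormal x b)
    rw [← h7]
    have h8 : ((MulAut.conjNormal (x : D) : M ≃* M)
        ⟨((b : Subgroup.normalizer (U : Set D)) : D), b.2⟩ : M) =
        ⟨(((MulAut.conjNormal x b : M.subgroupOf (Subgroup.normalizer (U : Set D))) :
          Subgroup.normalizer (U : Set D)) : D), (MulAut.conjNormal x b).2⟩ := by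
      apply Subtype.ext
      simp only [MulAut.conjNormal_apply, Subgroup.coe_mul, InvMemClass.coe_inv]
    show (ρ ((MulAut.conjNormal (x : D) : M ≃* M) _)).mulVec v = _
    rw [h8]
  · have h7 := hw ((cjU M U x).symm ⟨u, hu⟩) ((cjU M U x).symm ⟨u, hu⟩).2
    have h8 : (MulAut.conjNormal (x : D) : M ≃* M) (((cjU M U x).symm ⟨u, hu⟩ : U.subgroupOf M) : M)
        = u := by
      rw [← cjU_coe, Equiv.apply_symm_apply]
    have h9 : (ρ ((MulAut.conjNormal (x : D) : M ≃* M)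
      (((cjU M U x).symm ⟨u, hu⟩ : U.subgroupOf M) : M))).mulVec w = w := h7
    rwa [h8] at h9

end Pool.Agent.PP.BN.H66
end
end -- Pool.Agent.Helper66_BN.Co3

section -- Pool.Agent.Helper96_BN.BCS

/-!
# Squad PP, part BN, module BCS: the sums of the counting lemma depend only on the cosets
-/

open scoped BigOperators

set_option linter.unusedSectionVars false

noncomputable section

namespace Pool.Agent.PP.BN.H96

open Pool.Agent.PP

variable {F H : Type} [Field F] [Group H] {L : Subgroup H} [L.Normal]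

/-- a trace is invariant under inner automorphisms -/
theorem tr_inn {K : Type} [Group K] {φ : K → F} (hφ : φ ∈ IBr F K) (l g : K) :
    φ (l * g * l⁻¹) = φ g := by
  obtain ⟨n, ρ, _, rfl⟩ := hφ
  unfold tr
  rw [map_mul, map_mul, Matrix.trace_mul_comm, ← mul_assoc, ← map_mul, inv_mul_cancel, map_one,
    one_mul]

/-- the stabiliser of a character contains `L` -/
theorem stab_mul {φ : L → F} (hφ : φ ∈ IBr F L) (x : H) {l : H} (hl : l ∈ L) :
    (∀ g, φ (MulAut.conjNormal (x * l) g) = φ g) ↔ ∀ g, φ (MulAut.conjNormal x g) = φ g := by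
  have key : ∀ g : L, MulAut.conjNormal (x * l) g =
      MulAut.conjNormal x (⟨l, hl⟩ * g * ⟨l, hl⟩⁻¹) := by
    intro g
    apply Subtype.ext
    simp only [MulAut.conjNormal_apply, Subgroup.coe_mul, Subgroup.coe_inv]
    group
  constructor
  · intro h g
    have h1 := h (⟨l, hl⟩⁻¹ * g * ⟨l, hl⟩)
    rw [key] at h1
    have e : (⟨l, hl⟩ : L) * (⟨l, hl⟩⁻¹ * g * ⟨l, hl⟩) * ⟨l, hl⟩⁻¹ = g := by group
    rw [e] at h1
    rw [h1]
    have h2 := tr_inn hφ (⟨l, hl⟩⁻¹ : L) g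
    rw [inv_inv] at h2
    exact h2
  · intro h g
    rw [key, h, tr_inn hφ]

theorem phiSet_mul (a : H → F) (x y : H) {l m : H} (hl : l ∈ L) (hm : m ∈ L) :
    phiSet L a (x * l) (y * m) = phiSet L a x y := by
  ext φ
  unfold phiSet
  constructor
  · rintro ⟨h1, h2, h3, h4⟩
    exact ⟨h1, h2, (stab_mul h1 x hl).1 h3, (stab_mul h1 y hm).1 h4⟩
  · rintro ⟨h1, h2, h3, h4⟩
    exact ⟨h1, h2, (stab_mul h1 x hl).2 h3, (stab_mul h1 y hm).2 h4⟩

theorem isTC_mul {φ : L → F} {x y : H} {c : F} (h : IsTC L φ x y c) {l m : H} (hl : l ∈ L)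
    (hm : m ∈ L) : IsTC L φ (x * l) (y * m) c := by
  obtain ⟨n, ρ, X, Y, hk, hρ, htr, hX, hY, iX, iY, he⟩ := h
  have hk' : x * l * (y * m) * (x * l)⁻¹ * (y * m)⁻¹ ∈ L := by
    rw [← QuotientGroup.eq_one_iff] at hk hl hm ⊢
    simp only [QuotientGroup.mk_mul, QuotientGroup.mk_inv, hl, hm, mul_one] at hk ⊢
    exact hk
  have jX := (⟨hX, iX⟩ : Helper58_CL.Imp ρ x X).mul (Helper58_CL.Imp.coe (ρ := ρ) (⟨l, hl⟩ : L))
  have jY := (⟨hY, iY⟩ : Helper58_CL.Imp ρ y Y).mul (Helper58_CL.Imp.coe (ρ := ρ) (⟨m, hm⟩ : L))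
  refine ⟨n, ρ, X * ρ ⟨l, hl⟩, Y * ρ ⟨m, hm⟩, hk', hρ, htr, jX.unit, jY.unit, jX.eq, jY.eq, ?_⟩
  rw [iX, iY]
  have e1 : ρ (MulAut.conjNormal x ⟨l, hl⟩) * X * (ρ (MulAut.conjNormal y ⟨m, hm⟩) * Y) =
      c • (ρ (MulAut.conjNormal x ⟨l, hl⟩ * MulAut.conjNormal x (MulAut.conjNormal y ⟨m, hm⟩) *
        ⟨x * y * x⁻¹ * y⁻¹, hk⟩) * Y * X) := by
    rw [map_mul, map_mul]
    calc ρ (MulAut.conjNormal x ⟨l, hl⟩) * X * (ρ (MulAut.conjNormal y ⟨m, hm⟩) * Y)
        = ρ (MulAut.conjNormal x ⟨l, hl⟩) * (X * ρ (MulAut.conjNormal y ⟨m, hm⟩)) * Y := by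
          simp only [mul_assoc]
      _ = ρ (MulAut.conjNormal x ⟨l, hl⟩) *
          ρ (MulAut.conjNormal x (MulAut.conjNormal y ⟨m, hm⟩)) * (X * Y) := by
          rw [iX]
          simp only [mul_assoc]
      _ = _ := by
          rw [he, mul_smul_comm]
          simp only [mul_assoc]
  have e2 : ρ (MulAut.conjNormal y ⟨m, hm⟩) * Y * (ρ (MulAut.conjNormal x ⟨l, hl⟩) * X) =
      ρ (MulAut.conjNormal y ⟨m, hm⟩ * MulAut.conjNormal y (MulAut.conjNormal x ⟨l, hl⟩)) *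
        Y * X := by
    rw [map_mul]
    calc ρ (MulAut.conjNormal y ⟨m, hm⟩) * Y * (ρ (MulAut.conjNormal x ⟨l, hl⟩) * X)
        = ρ (MulAut.conjNormal y ⟨m, hm⟩) * (Y * ρ (MulAut.conjNormal x ⟨l, hl⟩)) * X := by
          simp only [mul_assoc]
      _ = _ := by
          rw [iY]
          simp only [mul_assoc]
  have e3 : MulAut.conjNormal x ⟨l, hl⟩ * MulAut.conjNormal x (MulAut.conjNormal y ⟨m, hm⟩) *
      ⟨x * y * x⁻¹ * y⁻¹, hk⟩ = (⟨x * l * (y * m) * (x * l)⁻¹ * (y * m)⁻¹, hk'⟩ : L) *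
      (MulAut.conjNormal y ⟨m, hm⟩ * MulAut.conjNormal y (MulAut.conjNormal x ⟨l, hl⟩)) := by
    apply Subtype.ext
    simp only [Subgroup.coe_mul, MulAut.conjNormal_apply]
    group
  rw [e1, e3, map_mul, mul_assoc (ρ ⟨x * l * (y * m) * (x * l)⁻¹ * (y * m)⁻¹, hk'⟩)
    (ρ (MulAut.conjNormal y ⟨m, hm⟩) * Y), e2]
  simp only [mul_assoc]

/-- BCS. -/
theorem cos : CosStmt := by
  intro ℓ F _ hF τ H _ _ L _ a x y hk l hl m hm
  unfold csum
  rw [phiSet_mul a x y hl hm]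
  refine finsum_mem_congr rfl fun φ hφ => ?_
  obtain ⟨h1, h2, h3, h4⟩ := hφ
  have hclu := Helper58_CL.clu H20.ibc ℓ F hF H L φ h1
  obtain ⟨-, t1, -⟩ := hclu x y hk h3 h4
  have t2 := isTC_mul t1 hl hm
  have hk' : x * l * (y * m) * (x * l)⁻¹ * (y * m)⁻¹ ∈ L := by
    obtain ⟨n, ρ, X, Y, hk', -⟩ := t2
    exact hk'
  obtain ⟨-, -, t3⟩ := hclu (x * l) (y * m) hk' ((stab_mul h1 x hl).2 h3) ((stab_mul h1 y hm).2 h4)
  rw [← t3 _ t2]

end Pool.Agent.PP.BN.H96
end
end -- Pool.Agent.Helper96_BN.BCS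

section -- Pool.Agent.Helper96_BN.BC4

/-!
# Squad PP, part BN, module BC4: the scalars of the counting lemma agree

`Co4Stmt` of `Helper66_BN/Stmts.lean` with the additional hypothesis that `U` is an `ℓ`-group.
-/

open scoped BigOperators

set_option linter.unusedSectionVars false

noncomputable section

namespace Pool.Agent.PP.BN.H96

open Pool.Agent.PP

/-- `Co4Stmt` for `ℓ`-groups `U`. -/
def Co4pStmt : Prop := ∀ (ℓ : ℕ) [Fact ℓ.Prime] (F : Type) [Field F], GoodF ℓ F →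
  ∀ (D : Type) [Group D] [Finite D] (M U : Subgroup D) [M.Normal] (φ : M → F)
    (κ : M.subgroupOf (Subgroup.normalizer (U : Set D)) → F), U ≤ M → IsPGroup ℓ U →
  Cor M U φ κ → κ ∈ IBr F (M.subgroupOf (Subgroup.normalizer (U : Set D))) →
  ∀ x y : Subgroup.normalizer (U : Set D),
    x * y * x⁻¹ * y⁻¹ ∈ M.subgroupOf (Subgroup.normalizer (U : Set D)) →
    (∀ l, φ (MulAut.conjNormal (x : D) l) = φ l) → (∀ l, φ (MulAut.conjNormal (y : D) l) = φ l) →
    (∀ l, κ (MulAut.conjNormal x l) = κ l) → (∀ l, κ (MulAut.conjNormal y l) = κ l) →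
    tc M φ (x : D) (y : D) = tc (M.subgroupOf (Subgroup.normalizer (U : Set D))) κ x y

section

variable {ℓ : ℕ} {F : Type} [Field F] {D : Type} [Group D] {M U : Subgroup D}
  {κ : M.subgroupOf (Subgroup.normalizer (U : Set D)) → F} {k : ℕ}
  {ρ : M →* Matrix (Fin k) (Fin k) F} {v : Fin k → F}

theorem kap_mul (hv : v ≠ 0)
    (hb : ∀ b : M.subgroupOf (Subgroup.normalizer (U : Set D)),
      (ρ ⟨((b : Subgroup.normalizer (U : Set D)) : D), b.2⟩).mulVec v = κ b • v)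
    (b c : M.subgroupOf (Subgroup.normalizer (U : Set D))) : κ (b * c) = κ b * κ c := by
  have h1 := hb (b * c)
  have h2 : (ρ ⟨(((b * c : M.subgroupOf (Subgroup.normalizer (U : Set D))) :
      Subgroup.normalizer (U : Set D)) : D), (b * c).2⟩) =
      ρ ⟨((b : Subgroup.normalizer (U : Set D)) : D), b.2⟩ *
        ρ ⟨((c : Subgroup.normalizer (U : Set D)) : D), c.2⟩ := by
    rw [← map_mul]
    rfl
  rw [h2, ← Matrix.mulVec_mulVec, hb c, Matrix.mulVec_smul, hb b, smul_smul] at h1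
  have h3 := smul_left_injective F hv h1
  rw [mul_comm] at h3
  exact h3.symm

theorem kap_one (hv : v ≠ 0)
    (hb : ∀ b : M.subgroupOf (Subgroup.normalizer (U : Set D)),
      (ρ ⟨((b : Subgroup.normalizer (U : Set D)) : D), b.2⟩).mulVec v = κ b • v) :
    κ 1 = 1 := by
  have h1 : (ρ (⟨1, M.one_mem⟩ : M)).mulVec v = κ 1 • v := hb 1
  have h2 : ρ (⟨1, M.one_mem⟩ : M) = 1 := map_one ρ
  rw [h2, Matrix.one_mulVec] at h1
  have h3 : (1 : F) • v = κ 1 • v := by rw [one_smul]; exact h1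
  exact (smul_left_injective F hv h3).symm

/-- `κ` as a homomorphism -/
def kapH (hv : v ≠ 0)
    (hb : ∀ b : M.subgroupOf (Subgroup.normalizer (U : Set D)),
      (ρ ⟨((b : Subgroup.normalizer (U : Set D)) : D), b.2⟩).mulVec v = κ b • v) :
    M.subgroupOf (Subgroup.normalizer (U : Set D)) →* F where
  toFun := κ
  map_one' := kap_one hv hb
  map_mul' := kap_mul hv hb

/-- `κ` is trivial on `U` -/
theorem kap_U (hF : GoodF ℓ F) (hUp : IsPGroup ℓ U) (hv : v ≠ 0)
    (hb : ∀ b : M.subgroupOf (Subgroup.normalizer (U : Set D)),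
      (ρ ⟨((b : Subgroup.normalizer (U : Set D)) : D), b.2⟩).mulVec v = κ b • v)
    (b : M.subgroupOf (Subgroup.normalizer (U : Set D)))
    (hbU : ((b : Subgroup.normalizer (U : Set D)) : D) ∈ U) : κ b = 1 := by
  have hch := hF.char
  have : Fact ℓ.Prime := ⟨hF.prime⟩
  obtain ⟨j, hj⟩ := hUp ⟨_, hbU⟩
  have h1 : b ^ ℓ ^ j = 1 := by
    apply Subtype.ext
    apply Subtype.ext
    have := congrArg Subtype.val hj
    simpa using this
  have h2 : (kapH hv hb) b ^ ℓ ^ j = 1 := by rw [← map_pow, h1, map_one]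
  have h3 : (κ b - 1) ^ ℓ ^ j = 0 := by
    rw [sub_pow_char_pow, one_pow]
    have h4 : κ b ^ ℓ ^ j = 1 := h2
    rw [h4, sub_self]
  exact sub_eq_zero.1 (pow_eq_zero_iff (pow_ne_zero _ hF.prime.ne_zero) |>.1 h3)

/-- an implementer of an element of the normaliser maps the line to itself -/
theorem imp_line (hF : GoodF ℓ F) [Finite D] [M.Normal] (hUM : U ≤ M) (hUp : IsPGroup ℓ U)
    (hv : v ≠ 0)
    (hb : ∀ b : M.subgroupOf (Subgroup.normalizer (U : Set D)),
      (ρ ⟨((b : Subgroup.normalizer (U : Set D)) : D), b.2⟩).mulVec v = κ b • v)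
    (huniq : ∀ w : Fin k → F, (∀ u ∈ U.subgroupOf M, (ρ u).mulVec w = w) → ∃ c : F, w = c • v)
    (x : Subgroup.normalizer (U : Set D)) {X : Matrix (Fin k) (Fin k) F}
    (hX : Helper58_CL.Imp ρ (x : D) X) : ∃ s : F, s ≠ 0 ∧ X.mulVec v = s • v := by
  obtain ⟨s, hs⟩ := huniq (X.mulVec v) (by
    intro u hu
    have huU : (u : D) ∈ U := hu
    have h1 : (x : D)⁻¹ * u * x ∈ U := by
      have h2 := Subgroup.mem_normalizer_iff''.1 x.2 (u : D)
      exact h2.1 huU
    have hx1 : (x : D)⁻¹ * u * x ∈ M := hUM h1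
    have h3 := hX.eq ⟨_, hx1⟩
    have h4 : MulAut.conjNormal (x : D) (⟨(x : D)⁻¹ * u * x, hx1⟩ : M) = u := by
      apply Subtype.ext
      simp only [MulAut.conjNormal_apply]
      group
    rw [h4] at h3
    have hx2 : (x : D)⁻¹ * u * x ∈ Subgroup.normalizer (U : Set D) := Subgroup.le_normalizer h1
    have h5 := hb (⟨⟨_, hx2⟩, hx1⟩ : M.subgroupOf (Subgroup.normalizer (U : Set D)))
    have h6 := kap_U hF hUp hv hb
      (⟨⟨_, hx2⟩, hx1⟩ : M.subgroupOf (Subgroup.normalizer (U : Set D))) h1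
    rw [h6, one_smul] at h5
    have h7 : (ρ ⟨(x : D)⁻¹ * u * x, hx1⟩).mulVec v = v := h5
    rw [Matrix.mulVec_mulVec, ← h3, ← Matrix.mulVec_mulVec, h7])
  refine ⟨s, ?_, hs⟩
  rintro rfl
  rw [zero_smul] at hs
  apply hv
  obtain ⟨W, hW⟩ := hX.unit
  have h8 : ((W⁻¹).val * X).mulVec v = 0 := by
    rw [← Matrix.mulVec_mulVec, hs, Matrix.mulVec_zero]
  rw [← hW, Units.inv_mul, Matrix.one_mulVec] at h8
  exact h8

/-- the scalar for a linear character -/
theorem isTC_lin {K : Type} [Group K] {L : Subgroup K} [L.Normal] (κ : L →* F) {x y : K}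
    (hk : x * y * x⁻¹ * y⁻¹ ∈ L) (hx : ∀ l, κ (MulAut.conjNormal x l) = κ l)
    (hy : ∀ l, κ (MulAut.conjNormal y l) = κ l) :
    IsTC L (κ : L → F) x y (κ ⟨x * y * x⁻¹ * y⁻¹, hk⟩)⁻¹ := by
  let ρ₁ : L →* Matrix (Fin 1) (Fin 1) F :=
    { toFun := fun b => Matrix.scalar (Fin 1) (κ b)
      map_one' := by rw [map_one, map_one]
      map_mul' := fun a b => by rw [map_mul, map_mul] }
  have hne : κ ⟨x * y * x⁻¹ * y⁻¹, hk⟩ ≠ 0 := by
    have := (Group.isUnit (⟨x * y * x⁻¹ * y⁻¹, hk⟩ : L)).map κ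
    exact this.ne_zero
  refine ⟨1, ρ₁, 1, 1, hk, ⟨one_pos, ?_⟩, ?_, isUnit_one, isUnit_one, ?_, ?_, ?_⟩
  · rw [eq_top_iff]
    intro A _
    have h1 : A = A 0 0 • ρ₁ 1 := by
      rw [map_one]
      ext i j
      rw [Subsingleton.elim i 0, Subsingleton.elim j 0]
      simp
    rw [h1]
    exact Submodule.smul_mem _ _ (Submodule.subset_span ⟨1, rfl⟩)
  · funext b
    show (Matrix.scalar (Fin 1) (κ b)).trace = κ b
    simp [Matrix.trace]
  · intro g
    show 1 * Matrix.scalar (Fin 1) (κ g) = Matrix.scalar (Fin 1) (κ (MulAut.conjNormal x g)) * 1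
    rw [hx, one_mul, mul_one]
  · intro g
    show 1 * Matrix.scalar (Fin 1) (κ g) = Matrix.scalar (Fin 1) (κ (MulAut.conjNormal y g)) * 1
    rw [hy, one_mul, mul_one]
  · show (1 : Matrix (Fin 1) (Fin 1) F) * 1 = (κ ⟨x * y * x⁻¹ * y⁻¹, hk⟩)⁻¹ •
      (Matrix.scalar (Fin 1) (κ ⟨x * y * x⁻¹ * y⁻¹, hk⟩) * 1 * 1)
    ext i j
    rw [Subsingleton.elim i 0, Subsingleton.elim j 0]
    simp [hne]

/-- BC4. -/
theorem co4 : Co4pStmt := by
  intro ℓ _ F _ hF D _ _ M U _ φ κ hUM hUp hcor hκ x y hk hx hy hκx hκy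
  obtain ⟨k, ρ, v, hρ, htr, hsz, hv, hb, huniq⟩ := hcor
  have hφ : φ ∈ IBr F M := ⟨k, ρ, hρ, htr.symm⟩
  have hk' : (x : D) * y * (x : D)⁻¹ * (y : D)⁻¹ ∈ M := hk
  obtain ⟨X, hX⟩ := Helper58_CL.exists_imp H20.ibc hF hρ (x := (x : D)) (by rw [htr]; exact hx)
  obtain ⟨Y, hY⟩ := Helper58_CL.exists_imp H20.ibc hF hρ (x := (y : D)) (by rw [htr]; exact hy)
  obtain ⟨c, hc, he⟩ := Helper58_CL.exists_scalar hρ hX hY hk'
  obtain ⟨s, hs, hXv⟩ := imp_line hF hUM hUp hv hb huniq x hX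
  obtain ⟨t, ht, hYv⟩ := imp_line hF hUM hUp hv hb huniq y hY
  have h1 := hb ⟨x * y * x⁻¹ * y⁻¹, hk⟩
  have h2 : (ρ ⟨(x : D) * y * (x : D)⁻¹ * (y : D)⁻¹, hk'⟩).mulVec v =
      κ ⟨x * y * x⁻¹ * y⁻¹, hk⟩ • v := h1
  have h3 : (X * Y).mulVec v = (s * t) • v := by
    rw [← Matrix.mulVec_mulVec, hYv, Matrix.mulVec_smul, hXv, smul_smul, mul_comm]
  have h4 : (X * Y).mulVec v = (c * (κ ⟨x * y * x⁻¹ * y⁻¹, hk⟩ * (t * s))) • v := by
    rw [he, Matrix.smul_mulVec, ← Matrix.mulVec_mulVec, hXv, Matrix.mulVec_smul,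
      ← Matrix.mulVec_mulVec, hYv, Matrix.mulVec_smul, h2, smul_smul, smul_smul, smul_smul]
    congr 1
    ring
  have h5 : s * t = c * (κ ⟨x * y * x⁻¹ * y⁻¹, hk⟩ * (t * s)) :=
    smul_left_injective F hv (h3.symm.trans h4)
  have h6 : c = (κ ⟨x * y * x⁻¹ * y⁻¹, hk⟩)⁻¹ := by
    have h7 : c * κ ⟨x * y * x⁻¹ * y⁻¹, hk⟩ = 1 := by
      have hst : s * t ≠ 0 := mul_ne_zero hs ht
      apply mul_right_cancel₀ hst
      rw [one_mul]
      calc c * κ ⟨x * y * x⁻¹ * y⁻¹, hk⟩ * (s * t)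
          = c * (κ ⟨x * y * x⁻¹ * y⁻¹, hk⟩ * (t * s)) := by ring
        _ = s * t := h5.symm
    exact eq_inv_of_mul_eq_one_left h7
  have h8 : IsTC M φ (x : D) (y : D) c :=
    ⟨k, ρ, X, Y, hk', hρ, htr, hX.unit, hY.unit, hX.eq, hY.eq, he⟩
  obtain ⟨-, -, h9⟩ := Helper58_CL.clu H20.ibc ℓ F hF D M φ hφ x y hk' hx hy
  obtain ⟨-, -, h10⟩ := Helper58_CL.clu H20.ibc ℓ F hF _
    (M.subgroupOf (Subgroup.normalizer (U : Set D))) κ hκ x y hk hκx hκy
  rw [← h9 _ h8, h6]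
  exact h10 _ (isTC_lin (kapH hv hb) hk hκx hκy)

end

end Pool.Agent.PP.BN.H96
end
end -- Pool.Agent.Helper96_BN.BC4

section -- Pool.Agent.Helper76_D1.C4d

/-!
# Squad PP, part D1, module C4D: the scalars of the counting lemma agree
-/

open scoped BigOperators

set_option autoImplicit false

noncomputable section

namespace Pool.Agent.PP.D1.H76

open Pool.Agent.PP Pool.Agent.Helper51_AWC Pool.Agent.Helper79_WRA Pool.Agent.PP.BN.H66

section

variable {F : Type} [Field F] {G : Type} [Group G] {N P : Subgroup G} [N.Normal] {n m : ℕ}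
  {σ : N →* Matrix (Fin n) (Fin n) F}
  {κ : N.subgroupOf (Subgroup.normalizer (P : Set G)) →* Matrix (Fin m) (Fin m) F}
  {π : (Fin n → F) →ₗ[F] (Fin m → F)}

omit [N.Normal] in
theorem mrep_eq (g : N) (v : Fin n → F) : mrep σ g v = (σ g).mulVec v := rfl

theorem imp_inv {x : G} (X : (Matrix (Fin n) (Fin n) F)ˣ)
    (hX : Helper58_CL.Imp σ x (X : Matrix (Fin n) (Fin n) F)) :
    Helper58_CL.Imp σ x⁻¹ ((X⁻¹ : (Matrix (Fin n) (Fin n) F)ˣ) : Matrix (Fin n) (Fin n) F) := by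
  refine ⟨(X⁻¹).isUnit, fun g => ?_⟩
  have h1 := hX.eq (MulAut.conjNormal x⁻¹ g)
  have h2 : MulAut.conjNormal x (MulAut.conjNormal x⁻¹ g) = g := by
    apply Subtype.ext
    simp only [MulAut.conjNormal_apply]
    group
  rw [h2] at h1
  calc (X⁻¹).val * σ g = (X⁻¹).val * (σ g * X) * (X⁻¹).val := by
        rw [mul_assoc, mul_assoc, Units.mul_inv, mul_one]
    _ = (X⁻¹).val * (X * σ (MulAut.conjNormal x⁻¹ g)) * (X⁻¹).val := by rw [h1]
    _ = σ (MulAut.conjNormal x⁻¹ g) * (X⁻¹).val := by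
        rw [← mul_assoc (X⁻¹).val, Units.inv_mul, one_mul]

/-- implementers preserve the fixed points -/
theorem imp_fix (x : Subgroup.normalizer (P : Set G)) {X : Matrix (Fin n) (Fin n) F}
    (hX : Helper58_CL.Imp σ (x : G) X) (v : Fin n → F)
    (hv : v ∈ fixV (mrep σ) (P.subgroupOf N)) :
    X.mulVec v ∈ fixV (mrep σ) (P.subgroupOf N) := by
  intro p hp
  have h1 := ((cjU N P x).symm ⟨p, hp⟩).2
  have h2 : MulAut.conjNormal (x : G) (((cjU N P x).symm ⟨p, hp⟩ : P.subgroupOf N) : N) = p := by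
    rw [← cjU_coe, Equiv.apply_symm_apply]
  have h3 := hX.eq (((cjU N P x).symm ⟨p, hp⟩ : P.subgroupOf N) : N)
  rw [h2] at h3
  have h4 := hv _ h1
  rw [mrep_eq] at h4 ⊢
  rw [Matrix.mulVec_mulVec, ← h3, ← Matrix.mulVec_mulVec, h4]

/-- implementers preserve the image of the norm -/
theorem imp_nrm [Finite G] (x : Subgroup.normalizer (P : Set G)) {X : Matrix (Fin n) (Fin n) F}
    (hX : Helper58_CL.Imp σ (x : G) X) (v : Fin n → F)
    (hv : v ∈ nrmV (mrep σ) (P.subgroupOf N)) :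
    X.mulVec v ∈ nrmV (mrep σ) (P.subgroupOf N) := by
  classical
  have := Fintype.ofFinite (P.subgroupOf N)
  obtain ⟨w, rfl⟩ := hv
  refine ⟨X.mulVec w, ?_⟩
  rw [finsum_eq_sum_of_fintype, LinearMap.sum_apply, LinearMap.sum_apply, Matrix.mulVec_sum]
  rw [← Equiv.sum_comp (cjU N P x) (fun p : P.subgroupOf N => mrep σ p (X.mulVec w))]
  refine Finset.sum_congr rfl (fun p _ => ?_)
  rw [cjU_coe, mrep_eq, mrep_eq, Matrix.mulVec_mulVec, Matrix.mulVec_mulVec, hX.eq]

/-- the induced matrix -/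
theorem induced [Finite G]
    (hV : HV (jN N (Subgroup.normalizer (P : Set G))) (P.subgroupOf N) κ (mrep σ) π)
    (x : Subgroup.normalizer (P : Set G)) {X : Matrix (Fin n) (Fin n) F}
    (hX : Helper58_CL.Imp σ (x : G) X) :
    ∃ X' : Matrix (Fin m) (Fin m) F, ∀ v ∈ fixV (mrep σ) (P.subgroupOf N),
      π (X.mulVec v) = X'.mulVec (π v) := by
  have hsur : Function.Surjective (π.domRestrict (fixV (mrep σ) (P.subgroupOf N))) := by
    intro w
    obtain ⟨v, hv, h⟩ := hV.sur w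
    exact ⟨⟨v, hv⟩, h⟩
  obtain ⟨s, hs⟩ := LinearMap.exists_rightInverse_of_surjective
    (π.domRestrict (fixV (mrep σ) (P.subgroupOf N))) (LinearMap.range_eq_top.2 hsur)
  have hs' : ∀ w, π ((s w : fixV (mrep σ) (P.subgroupOf N)) : Fin n → F) = w := by
    intro w
    exact LinearMap.congr_fun hs w
  let f : (Fin m → F) →ₗ[F] (Fin m → F) :=
    π ∘ₗ X.mulVecLin ∘ₗ (Submodule.subtype _) ∘ₗ s
  refine ⟨LinearMap.toMatrix' f, fun v hv => ?_⟩
  have h1 : (LinearMap.toMatrix' f).mulVec (π v) = f (π v) := by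
    rw [← Matrix.toLin'_apply, Matrix.toLin'_toMatrix']
  rw [h1]
  show π (X.mulVec v) = π (X.mulVec ((s (π v) : fixV (mrep σ) (P.subgroupOf N)) : Fin n → F))
  have h2 : v - ((s (π v) : fixV (mrep σ) (P.subgroupOf N)) : Fin n → F) ∈
      fixV (mrep σ) (P.subgroupOf N) := Submodule.sub_mem _ hv (s (π v)).2
  have h3 : π (v - ((s (π v) : fixV (mrep σ) (P.subgroupOf N)) : Fin n → F)) = 0 := by
    rw [map_sub, hs', sub_self]
  have h4 := imp_nrm x hX _ ((hV.ker _ h2).1 h3)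
  have h5 := (hV.ker _ (imp_fix x hX _ h2)).2 h4
  rw [Matrix.mulVec_sub, map_sub, sub_eq_zero] at h5
  exact h5

/-- elements of `N ∩ N_G(P)` preserve the fixed points -/
theorem fix_j (a : N.subgroupOf (Subgroup.normalizer (P : Set G))) (v : Fin n → F)
    (hv : v ∈ fixV (mrep σ) (P.subgroupOf N)) :
    (σ (jN N (Subgroup.normalizer (P : Set G)) a)).mulVec v ∈ fixV (mrep σ) (P.subgroupOf N) := by
  have h := Helper58_CL.Imp.coe (ρ := σ) (jN N (Subgroup.normalizer (P : Set G)) a)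
  exact imp_fix (a : Subgroup.normalizer (P : Set G)) h v hv

theorem conj_j (x : Subgroup.normalizer (P : Set G))
    (a : N.subgroupOf (Subgroup.normalizer (P : Set G))) :
    ((MulAut.conjNormal (x : G) : N ≃* N) (jN N (Subgroup.normalizer (P : Set G)) a) : N) =
      jN N (Subgroup.normalizer (P : Set G)) (MulAut.conjNormal x a) := by
  apply Subtype.ext
  simp only [MulAut.conjNormal_apply, jN, MonoidHom.coe_mk, OneHom.coe_mk, Subgroup.coe_mul,
    InvMemClass.coe_inv]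

/-- the induced matrix implements -/
theorem induced_imp [Finite G]
    (hV : HV (jN N (Subgroup.normalizer (P : Set G))) (P.subgroupOf N) κ (mrep σ) π)
    (x : Subgroup.normalizer (P : Set G)) {X : Matrix (Fin n) (Fin n) F}
    (hX : Helper58_CL.Imp σ (x : G) X) {X' : Matrix (Fin m) (Fin m) F}
    (hX' : ∀ v ∈ fixV (mrep σ) (P.subgroupOf N), π (X.mulVec v) = X'.mulVec (π v)) :
    IsUnit X' ∧ ∀ a : N.subgroupOf (Subgroup.normalizer (P : Set G)),
      X' * κ a = κ (MulAut.conjNormal x a) * X' := by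
  constructor
  · obtain ⟨U, hU⟩ := hX.unit
    have hUX : Helper58_CL.Imp σ (x : G) (U : Matrix (Fin n) (Fin n) F) := by rw [hU]; exact hX
    have hi := imp_inv U hUX
    have hi' : Helper58_CL.Imp σ ((x⁻¹ : Subgroup.normalizer (P : Set G)) : G)
        ((U⁻¹ : (Matrix (Fin n) (Fin n) F)ˣ) : Matrix (Fin n) (Fin n) F) := hi
    obtain ⟨Z, hZ⟩ := induced hV x⁻¹ hi'
    have h1 : X' * Z = 1 := by
      apply Matrix.mulVec_injective
      funext w
      obtain ⟨v, hv, rfl⟩ := hV.sur w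
      rw [← Matrix.mulVec_mulVec, ← hZ v hv, ← hX' _ (imp_fix x⁻¹ hi' v hv), ← hU,
        Matrix.mulVec_mulVec, Units.mul_inv, Matrix.one_mulVec, Matrix.one_mulVec]
    exact IsUnit.of_mul_eq_one _ h1
  · intro a
    apply Matrix.mulVec_injective
    funext w
    obtain ⟨v, hv, rfl⟩ := hV.sur w
    have h1 := hV.int a v hv
    have h2 := hV.int (MulAut.conjNormal x a) (X.mulVec v) (imp_fix x hX v hv)
    rw [mrep_eq] at h1 h2
    rw [← Matrix.mulVec_mulVec, ← h1, ← hX' _ (fix_j a v hv), Matrix.mulVec_mulVec, hX.eq,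
      conj_j, ← Matrix.mulVec_mulVec, h2, hX' v hv, Matrix.mulVec_mulVec]

end

/-- C4D. -/
theorem c4d : C4dStmt := by
  intro ℓ _ F _ hF G _ _ N P _ hPN φ θ hcor x y hk hx hy hθx hθy
  obtain ⟨n, σ, m, κ, π, hσ, htr, hκ, htrκ, hV⟩ := hcor
  have hφ : φ ∈ IBr F N := ⟨n, σ, hσ, htr.symm⟩
  have hθ : θ ∈ IBr F (N.subgroupOf (Subgroup.normalizer (P : Set G))) := ⟨m, κ, hκ, htrκ.symm⟩
  have hk' : (x : G) * y * (x : G)⁻¹ * (y : G)⁻¹ ∈ N := hk
  obtain ⟨X, hX⟩ := Helper58_CL.exists_imp Pool.Agent.PP.H20.ibc hF hσ (x := (x : G)) (by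
    rw [htr]; exact hx)
  obtain ⟨Y, hY⟩ := Helper58_CL.exists_imp Pool.Agent.PP.H20.ibc hF hσ (x := (y : G)) (by
    rw [htr]; exact hy)
  obtain ⟨c, hc, he⟩ := Helper58_CL.exists_scalar hσ hX hY hk'
  obtain ⟨X', hX'⟩ := induced hV x hX
  obtain ⟨Y', hY'⟩ := induced hV y hY
  obtain ⟨uX, iX⟩ := induced_imp hV x hX hX'
  obtain ⟨uY, iY⟩ := induced_imp hV y hY hY'
  have hrel : X' * Y' = c • (κ ⟨x * y * x⁻¹ * y⁻¹, hk⟩ * Y' * X') := by
    apply Matrix.mulVec_injective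
    funext w
    obtain ⟨v, hv, rfl⟩ := hV.sur w
    have h1 := hV.int ⟨x * y * x⁻¹ * y⁻¹, hk⟩ (Y.mulVec (X.mulVec v))
      (imp_fix y hY _ (imp_fix x hX v hv))
    rw [mrep_eq] at h1
    have h2 : jN N (Subgroup.normalizer (P : Set G)) ⟨x * y * x⁻¹ * y⁻¹, hk⟩ =
      ⟨(x : G) * y * (x : G)⁻¹ * (y : G)⁻¹, hk'⟩ := rfl
    rw [h2] at h1
    rw [← Matrix.mulVec_mulVec, ← hY' v hv, ← hX' _ (imp_fix y hY v hv), Matrix.mulVec_mulVec, he,
      Matrix.smul_mulVec, Matrix.smul_mulVec, map_smul, ← Matrix.mulVec_mulVec,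
      ← Matrix.mulVec_mulVec, h1, hY' _ (imp_fix x hX v hv), hX' v hv, Matrix.mulVec_mulVec,
      Matrix.mulVec_mulVec, mul_assoc]
  have h8 : IsTC N φ (x : G) (y : G) c :=
    ⟨n, σ, X, Y, hk', hσ, htr, hX.unit, hY.unit, hX.eq, hY.eq, he⟩
  have h8' : IsTC (N.subgroupOf (Subgroup.normalizer (P : Set G))) θ x y c :=
    ⟨m, κ, X', Y', hk, hκ, htrκ, uX, uY, iX, iY, hrel⟩
  obtain ⟨-, -, h9⟩ := Helper58_CL.clu Pool.Agent.PP.H20.ibc ℓ F hF G N φ hφ x y hk' hx hy
  obtain ⟨-, -, h10⟩ := Helper58_CL.clu Pool.Agent.PP.H20.ibc ℓ F hF _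
    (N.subgroupOf (Subgroup.normalizer (P : Set G))) θ hθ x y hk hθx hθy
  rw [← h9 _ h8]
  exact h10 _ h8'

end Pool.Agent.PP.D1.H76
end
end -- Pool.Agent.Helper76_D1.C4d

section -- Pool.Agent.Helper96_BN.Bcq

/-!
# Squad PP, part BN, module BCQ: comparison of two counts with the same outer group
-/

open scoped BigOperators

set_option linter.unusedSectionVars false

noncomputable section

namespace Pool.Agent.PP.BN.H96

open Pool.Agent.PP

open Classical in
/-- the counting lemma as a sum over the quotient -/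
theorem cl_quot (hcl : ClStmt) {ℓ : ℕ} {F : Type} [Field F] (hF : GoodF ℓ F) {τ : F → ℂ}
    (hτ : IsLift τ) {H : Type} [Group H] [Finite H] (L : Subgroup H) [L.Normal] {a : H → F}
    (ha : IsCl a) (ha0 : ∀ h, h ∉ L → a h = 0) {Q : Type} [Group Q] [Finite Q] (q : H →* Q)
    (hker : ∀ x, q x = 1 ↔ x ∈ L) (s : Q → H) (hs : ∀ X, q (s X) = X) :
    (Nat.card Q : ℂ) * ({θ : H → F | θ ∈ IBr F H ∧ actF a θ = θ}.ncard : ℂ) =
      ∑ᶠ (X : Q) (Y : Q), if Reg ℓ X ∧ X * Y * X⁻¹ * Y⁻¹ = 1 then csum τ L a (s X) (s Y) else 0 := by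
  have hq : Function.Surjective q := fun X => ⟨s X, hs X⟩
  have hkerL : q.ker = L := by
    ext x
    rw [MonoidHom.mem_ker, hker]
  have h1 := hcl ℓ F hF τ hτ H L a ha ha0
  have hreg : ∀ x : H, Reg ℓ (x : H ⧸ L) ↔ Reg ℓ (q x) := by
    intro x
    unfold Reg
    have h2 : orderOf (x : H ⧸ L) = orderOf (q x) := by
      rw [orderOf_eq_orderOf_iff]
      intro k
      rw [← QuotientGroup.mk_pow, QuotientGroup.eq_one_iff, ← map_pow, hker]
    rw [h2]
  have hcomm : ∀ x y : H, x * y * x⁻¹ * y⁻¹ ∈ L ↔ q x * q y * (q x)⁻¹ * (q y)⁻¹ = 1 := by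
    intro x y
    rw [← hker, map_mul, map_mul, map_mul, map_inv, map_inv]
  have hterm : ∀ x y : H, (∑ᶠ _ : Reg ℓ (x : H ⧸ L) ∧ x * y * x⁻¹ * y⁻¹ ∈ L, csum τ L a x y) =
      if Reg ℓ (q x) ∧ q x * q y * (q x)⁻¹ * (q y)⁻¹ = 1 then
        csum τ L a (s (q x)) (s (q y)) else 0 := by
    intro x y
    rw [finsum_eq_if]
    by_cases hc : Reg ℓ (x : H ⧸ L) ∧ x * y * x⁻¹ * y⁻¹ ∈ L
    · rw [if_pos hc, if_pos ⟨(hreg x).1 hc.1, (hcomm x y).1 hc.2⟩]
      have hl : ∀ z : H, (s (q z))⁻¹ * z ∈ L := by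
        intro z
        rw [← hker, map_mul, map_inv, hs, inv_mul_cancel]
      have h3 : s (q x) * s (q y) * (s (q x))⁻¹ * (s (q y))⁻¹ ∈ L := by
        rw [hcomm, hs, hs]
        exact (hcomm x y).1 hc.2
      have h4 := cos ℓ F hF τ H L a (s (q x)) (s (q y)) h3 _ (hl x) _ (hl y)
      rw [mul_inv_cancel_left, mul_inv_cancel_left] at h4
      exact h4
    · rw [if_neg hc, if_neg]
      rintro ⟨c1, c2⟩
      exact hc ⟨(hreg x).2 c1, (hcomm x y).2 c2⟩
  have h5 : (∑ᶠ (x : H) (y : H) (_ : Reg ℓ (x : H ⧸ L) ∧ x * y * x⁻¹ * y⁻¹ ∈ L), csum τ L a x y) =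
      (Nat.card L : ℂ) * ((Nat.card L : ℂ) * ∑ᶠ (X : Q) (Y : Q),
        if Reg ℓ X ∧ X * Y * X⁻¹ * Y⁻¹ = 1 then csum τ L a (s X) (s Y) else 0) := by
    have h6 : ∀ x : H, (∑ᶠ (y : H) (_ : Reg ℓ (x : H ⧸ L) ∧ x * y * x⁻¹ * y⁻¹ ∈ L),
        csum τ L a x y) = (Nat.card L : ℂ) * ∑ᶠ Y : Q,
          if Reg ℓ (q x) ∧ q x * Y * (q x)⁻¹ * Y⁻¹ = 1 then csum τ L a (s (q x)) (s Y) else 0 := by
      intro x
      rw [finsum_congr fun y => hterm x y]
      have h7 := H59.sum_fib q hq (fun Y : Q => if Reg ℓ (q x) ∧ q x * Y * (q x)⁻¹ * Y⁻¹ = 1 then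
        csum τ L a (s (q x)) (s Y) else 0)
      rw [hkerL] at h7
      exact h7
    rw [finsum_congr h6]
    have h8 := H59.sum_fib q hq (fun X : Q => (Nat.card L : ℂ) * ∑ᶠ Y : Q,
      if Reg ℓ X ∧ X * Y * X⁻¹ * Y⁻¹ = 1 then csum τ L a (s X) (s Y) else 0)
    rw [hkerL] at h8
    rw [h8]
    congr 1
    have := Fintype.ofFinite Q
    simp only [finsum_eq_sum_of_fintype, Finset.mul_sum]
  have h9 := H59.card_dom q hq
  rw [hkerL] at h9
  have hL : (Nat.card L : ℂ) ≠ 0 := Nat.cast_ne_zero.2 Nat.card_pos.ne'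
  rw [h5, h9, Nat.cast_mul] at h1
  apply mul_left_cancel₀ hL
  apply mul_left_cancel₀ hL
  rw [← h1]
  ring

/-- BCQ. -/
theorem cmq (hcl : ClStmt) : CmqStmt := by
  intro ℓ _ F _ hF D _ _ M N _ hMN a b ha ha0 hb hb0 hc
  classical
  obtain ⟨τ, hτ⟩ := H59.exists_lift ℓ F hF
  let q : N →* D ⧸ M := (QuotientGroup.mk' M).comp N.subtype
  have hq : Function.Surjective q := by
    intro X
    obtain ⟨x, rfl⟩ := QuotientGroup.mk'_surjective M X
    have hx : x ∈ N ⊔ M := by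
      rw [sup_comm, hMN]
      trivial
    rw [← SetLike.mem_coe, Subgroup.mul_normal] at hx
    obtain ⟨y, hy, m, hm, rfl⟩ := hx
    refine ⟨⟨y, hy⟩, ?_⟩
    show QuotientGroup.mk' M y = QuotientGroup.mk' M (y * m)
    rw [map_mul]
    have : QuotientGroup.mk' M m = 1 := (QuotientGroup.eq_one_iff _).2 hm
    rw [this, mul_one]
  choose s hs using hq
  have h1 := cl_quot hcl hF hτ M ha ha0 (QuotientGroup.mk' M)
    (fun x => QuotientGroup.eq_one_iff x) (fun X => (s X : D)) hs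
  have h2 := cl_quot hcl hF hτ (M.subgroupOf N) hb hb0 q
    (fun x => QuotientGroup.eq_one_iff (x : D)) s hs
  have h3 : ∀ X Y : D ⧸ M, X * Y * X⁻¹ * Y⁻¹ = 1 →
      csum τ M a (s X) (s Y) = csum τ (M.subgroupOf N) b (s X) (s Y) := by
    intro X Y h
    apply hc τ hτ
    have h4 : q (s X * s Y * (s X)⁻¹ * (s Y)⁻¹) = 1 := by
      rw [map_mul, map_mul, map_mul, map_inv, map_inv, hs, hs]
      exact h
    exact (QuotientGroup.eq_one_iff (N := M) ((s X * s Y * (s X)⁻¹ * (s Y)⁻¹ : N) : D)).1 h4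
  have h4 : (Nat.card (D ⧸ M) : ℂ) * ({θ : D → F | θ ∈ IBr F D ∧ actF a θ = θ}.ncard : ℂ) =
      (Nat.card (D ⧸ M) : ℂ) * ({θ : N → F | θ ∈ IBr F N ∧ actF b θ = θ}.ncard : ℂ) := by
    rw [h1, h2]
    refine finsum_congr fun X => finsum_congr fun Y => ?_
    by_cases h : Reg ℓ X ∧ X * Y * X⁻¹ * Y⁻¹ = 1
    · rw [if_pos h, if_pos h, h3 X Y h.2]
    · rw [if_neg h, if_neg h]
  have h5 : (Nat.card (D ⧸ M) : ℂ) ≠ 0 := Nat.cast_ne_zero.2 Nat.card_pos.ne'
  exact_mod_cast mul_left_cancel₀ h5 h4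

end Pool.Agent.PP.BN.H96
end
end -- Pool.Agent.Helper96_BN.Bcq
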