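import Pool.Agent.Helper12_AWB.B048
import Pool.Agent.Helper12_AWB.B051
import Pool.Agent.Helper66_D1.Stmts
import Pool.Agent.Helper66_PP.Pos1

/-!
# Merged copies (generated) of the modules

* `Pool.Agent.Helper20_PP.Mat`
* `Pool.Agent.Helper20_PP.MatS`
* `Pool.Agent.Helper20_PP.Blk`
* `Pool.Agent.Helper51_D1.Wts`
* `Pool.Agent.Helper51_D1.Cld`
-/

set_option autoImplicit false

section -- Pool.Agent.Helper20_PP.Mat

/-!
MAT: blocks of defect zero are matrix algebras.
-/

open scoped BigOperators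

noncomputable section

namespace Pool.Agent.PP.H20

section abs

variable {F : Type} [Field F]

/-- the complement of a kernel -/
theorem mat_abs {A : Type} [Ring A] [Algebra F A] {N : Type} [Group N] [Fintype N] (g : N →* A)
    (hg : Submodule.span F (Set.range g) = ⊤) {n : ℕ} (ρ : A →ₐ[F] Matrix (Fin n) (Fin n) F)
    (hρ : Function.Surjective ρ) (b w : A) (hb : ∀ x, b * x = x * b) (hbb : b * b = b)
    (hbw : b = ∑ m, g m * w * g m⁻¹) (hρb : ρ b = 1) :
    ∃ f : A, (∀ x, f * x = x * f) ∧ f * f = f ∧ f * b = f ∧ ρ f = 0 ∧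
      ∀ a, ρ a = 0 → a * b * f = a * b := by
  obtain ⟨σ, hσ⟩ := ρ.toLinearMap.exists_rightInverse_of_surjective
    (LinearMap.range_eq_top.2 hρ)
  have hσ' : ∀ X, ρ (σ X) = X := fun X => LinearMap.congr_fun hσ X
  -- left section
  let τ : Matrix (Fin n) (Fin n) F →ₗ[F] A :=
    { toFun := fun X => ∑ m, g m * w * σ (ρ (g m⁻¹) * X) * b
      map_add' := by
        intro X Y
        rw [← Finset.sum_add_distrib]
        apply Finset.sum_congr rfl
        intro m _
        rw [mul_add, map_add, mul_add, add_mul]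
      map_smul' := by
        intro c X
        rw [Finset.smul_sum]
        apply Finset.sum_congr rfl
        intro m _
        rw [mul_smul_comm, map_smul, mul_smul_comm, smul_mul_assoc]
        rfl }
  have hτ : ∀ X, τ X = ∑ m, g m * w * σ (ρ (g m⁻¹) * X) * b := fun _ => rfl
  have hτρ : ∀ X, ρ (τ X) = X := by
    intro X
    have h1 : ρ b * X = X := by rw [hρb, one_mul]
    rw [hbw, map_sum, Finset.sum_mul] at h1
    rw [hτ, map_sum]
    refine Eq.trans (Finset.sum_congr rfl fun m _ => ?_) h1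
    rw [map_mul, map_mul, hσ', hρb, mul_one, map_mul _ (g m * w) (g m⁻¹), mul_assoc]
  have hτg : ∀ k X, τ (ρ (g k) * X) = g k * τ X := by
    intro k X
    rw [hτ, hτ, Finset.mul_sum]
    symm
    apply Fintype.sum_equiv (Equiv.mulLeft k)
    intro m
    show g k * (g m * w * σ (ρ (g m⁻¹) * X) * b) =
      g (k * m) * w * σ (ρ (g (k * m)⁻¹) * (ρ (g k) * X)) * b
    have h1 : ρ (g (k * m)⁻¹) * (ρ (g k) * X) = ρ (g m⁻¹) * X := by
      rw [← mul_assoc, ← map_mul, ← map_mul]
      congr 3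
      group
    rw [h1, map_mul g k m]
    noncomm_ring
  have hτa : ∀ a X, τ (ρ a * X) = a * τ X := by
    intro a X
    have ha : a ∈ Submodule.span F (Set.range g) := by rw [hg]; trivial
    induction ha using Submodule.span_induction with
    | mem x hx =>
      obtain ⟨k, rfl⟩ := hx
      exact hτg k X
    | zero => rw [map_zero, zero_mul, map_zero, zero_mul]
    | add x y _ _ hx hy => rw [map_add, add_mul, map_add, hx, hy, add_mul]
    | smul c x _ hx => rw [map_smul, smul_mul_assoc, map_smul, hx, smul_mul_assoc]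
  have hτb : τ 1 * b = τ 1 := by
    rw [hτ, Finset.sum_mul]
    apply Finset.sum_congr rfl
    intro m _
    rw [mul_assoc, hbb]
  -- right section
  let τ' : Matrix (Fin n) (Fin n) F →ₗ[F] A :=
    { toFun := fun X => ∑ m, b * σ (X * ρ (g m)) * w * g m⁻¹
      map_add' := by
        intro X Y
        rw [← Finset.sum_add_distrib]
        apply Finset.sum_congr rfl
        intro m _
        rw [add_mul, map_add, mul_add, add_mul, add_mul]
      map_smul' := by
        intro c X
        rw [Finset.smul_sum]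
        apply Finset.sum_congr rfl
        intro m _
        rw [smul_mul_assoc, map_smul, mul_smul_comm, smul_mul_assoc, smul_mul_assoc]
        rfl }
  have hτ' : ∀ X, τ' X = ∑ m, b * σ (X * ρ (g m)) * w * g m⁻¹ := fun _ => rfl
  have hτρ' : ∀ X, ρ (τ' X) = X := by
    intro X
    have h1 : X * ρ b = X := by rw [hρb, mul_one]
    rw [hbw, map_sum, Finset.mul_sum] at h1
    rw [hτ', map_sum]
    refine Eq.trans (Finset.sum_congr rfl fun m _ => ?_) h1
    rw [map_mul, map_mul, map_mul, hσ', hρb, one_mul, map_mul _ (g m * w) (g m⁻¹), map_mul _ (g m)]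
    noncomm_ring
  have hτg' : ∀ k X, τ' (X * ρ (g k)) = τ' X * g k := by
    intro k X
    rw [hτ', hτ', Finset.sum_mul]
    apply Fintype.sum_equiv (Equiv.mulLeft k)
    intro m
    show b * σ (X * ρ (g k) * ρ (g m)) * w * g m⁻¹ =
      b * σ (X * ρ (g (k * m))) * w * g (k * m)⁻¹ * g k
    have h1 : g (k * m)⁻¹ * g k = g m⁻¹ := by
      rw [← map_mul]
      congr 1
      group
    rw [mul_assoc _ (g (k * m)⁻¹) (g k), h1, map_mul g k m, map_mul ρ (g k) (g m), mul_assoc X]
  have hτa' : ∀ a X, τ' (X * ρ a) = τ' X * a := by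
    intro a X
    have ha : a ∈ Submodule.span F (Set.range g) := by rw [hg]; trivial
    induction ha using Submodule.span_induction with
    | mem x hx =>
      obtain ⟨k, rfl⟩ := hx
      exact hτg' k X
    | zero => rw [map_zero, mul_zero, map_zero, mul_zero]
    | add x y _ _ hx hy => rw [map_add, mul_add, map_add, hx, hy, mul_add]
    | smul c x _ hx => rw [map_smul, mul_smul_comm, map_smul, hx, mul_smul_comm]
  have hτb' : b * τ' 1 = τ' 1 := by
    rw [hτ', Finset.mul_sum]
    apply Finset.sum_congr rfl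
    intro m _
    rw [← mul_assoc, ← mul_assoc, ← mul_assoc, hbb]
  -- the idempotents
  have hl : ∀ a, ρ a = 0 → a * b * (b - τ 1) = a * b := by
    intro a ha
    have h1 : a * b * τ 1 = 0 := by
      rw [← hτa, map_mul ρ a b, ha, zero_mul, zero_mul, map_zero]
    rw [mul_sub, h1, sub_zero, mul_assoc, hbb]
  have hr : ∀ a, ρ a = 0 → (b - τ' 1) * (b * a) = b * a := by
    intro a ha
    have h1 : τ' 1 * (b * a) = 0 := by
      rw [← hτa', map_mul ρ b a, ha, mul_zero, mul_zero, map_zero]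
    rw [sub_mul, h1, sub_zero, ← mul_assoc, hbb]
  have hf0 : ρ (b - τ 1) = 0 := by rw [map_sub, hτρ, hρb, sub_self]
  have hf0' : ρ (b - τ' 1) = 0 := by rw [map_sub, hτρ', hρb, sub_self]
  have hfb : (b - τ 1) * b = b - τ 1 := by rw [sub_mul, hbb, hτb]
  have hfb' : b * (b - τ' 1) = b - τ' 1 := by rw [mul_sub, hbb, hτb']
  have hbf : b * (b - τ 1) = b - τ 1 := by rw [hb, hfb]
  have hfb'' : (b - τ' 1) * b = b - τ' 1 := by rw [← hb, hfb']
  have hff : b - τ 1 = b - τ' 1 := by
    have h1 := hr _ hf0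
    rw [hbf] at h1
    have h2 := hl _ hf0'
    rw [hfb''] at h2
    rw [← h1, h2]
  have hxf : ∀ x, ρ x = 0 → x * b = x → x * (b - τ 1) = x := by
    intro x hx hxb
    have := hl x hx
    rwa [hxb] at this
  have hfx : ∀ x, ρ x = 0 → b * x = x → (b - τ 1) * x = x := by
    intro x hx hxb
    have := hr x hx
    rw [hxb] at this
    rwa [hff]
  refine ⟨b - τ 1, ?_, ?_, hfb, hf0, hl⟩
  · intro x
    have h1 : x * (b - τ 1) * b = x * (b - τ 1) := by rw [mul_assoc, hfb]
    have h2 : b * (x * (b - τ 1)) = x * (b - τ 1) := by rw [hb, h1]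
    have h3 : b * ((b - τ 1) * x) = (b - τ 1) * x := by rw [← mul_assoc, hbf]
    have h4 : (b - τ 1) * x * b = (b - τ 1) * x := by rw [← hb, h3]
    have h5 := hfx (x * (b - τ 1)) (by rw [map_mul, hf0, mul_zero]) h2
    have h6 := hxf ((b - τ 1) * x) (by rw [map_mul, hf0, zero_mul]) h4
    rw [← h5, ← mul_assoc, h6]
  · exact hxf _ hf0 hfb

end abs

section blk

variable {F N : Type} [Field F] [Group N] [Finite N]

/-- a block has an irreducible representation -/
theorem blk_rep {ℓ : ℕ} (hF : GoodF ℓ F) {b : N → F} (hb : IsIdem b) (h0 : b ≠ 0) :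
    ∃ (n : ℕ) (ρ : N →* Matrix (Fin n) (Fin n) F), IsIrr ρ ∧ ev ρ b = 1 := by
  by_contra hc
  push Not at hc
  apply h0
  obtain ⟨k, hk⟩ := ibn ℓ F hF N b (by
    intro n ρ hρ
    obtain ⟨w, hw, -, h2⟩ := eig F N n ρ hρ b hb.1
    rcases h2 hb with h | h
    · rw [hw, h, map_zero]
    · exfalso
      apply hc n ρ hρ
      rw [hw, h, map_one])
  have h1 : ∀ k : ℕ, (mulF b)^[k] b = b := by
    intro k
    induction k with
    | zero => rfl
    | succ k ih => rw [Function.iterate_succ_apply', ih, hb.2]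
  rw [← h1 k, hk]

/-- a block of defect zero is a matrix algebra -/
theorem mat {ℓ : ℕ} (hF : GoodF ℓ F) {b : N → F} (hb : IsBlk b) (hs : Sup0 ℓ b) {n : ℕ}
    {ρ : N →* Matrix (Fin n) (Fin n) F} (hρ : IsIrr ρ) (hρb : ev ρ b = 1) {a : N → F}
    (ha : ev ρ a = 0) : mulF a b = 0 := by
  have hfin := Fintype.ofFinite N
  have hN : NeZero n := ⟨hρ.1.ne'⟩
  obtain ⟨w, hw⟩ := exists_Trc hF.prime hF.char hb.1.1 hs
  have hspan : Submodule.span F (Set.range (MonoidAlgebra.of F N)) = ⊤ := by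
    rw [eq_top_iff]
    rintro x -
    obtain ⟨c, rfl⟩ := toMA_surjective x
    rw [toMA_eq c]
    apply Submodule.sum_mem
    intro g _
    have h1 : MonoidAlgebra.single g (c g) = c g • MonoidAlgebra.of F N g := by
      rw [MonoidAlgebra.of_apply, MonoidAlgebra.smul_single, smul_eq_mul, mul_one]
    rw [h1]
    exact Submodule.smul_mem _ _ (Submodule.subset_span ⟨g, rfl⟩)
  obtain ⟨f, hfc, hff, hfb, hf0, hfa⟩ := mat_abs (MonoidAlgebra.of F N) hspan
    (MonoidAlgebra.lift F (Matrix (Fin n) (Fin n) F) N ρ) ((lift_surjective ρ).2 hρ.2) (toMA b)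
    (toMA w) ((isCl_iff b).1 hb.1.1) (by rw [← toMA_mulF, hb.1.2]) (by
      rw [hw, toMA_Trc]
      rfl) (by rw [lift_toMA, hρb])
  obtain ⟨g, rfl⟩ := toMA_surjective f
  have hg : IsIdem g := ⟨(isCl_iff g).2 hfc, toMA_injective (by rw [toMA_mulF, hff])⟩
  have hbg : mulF b g = g := by
    rw [mulF_comm_of_cl hb.1.1]
    apply toMA_injective
    rw [toMA_mulF, hfb]
  have hg0 : g = 0 := by
    rcases hb.2.2 g hg with h | h
    · exfalso
      rw [hbg] at h
      rw [h, lift_toMA, hρb] at hf0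
      exact one_ne_zero hf0
    · rw [← hbg, h]
  have h1 := hfa (toMA a) (by rw [lift_toMA, ha])
  rw [hg0, toMA_zero, mul_zero, ← toMA_mulF] at h1
  apply toMA_injective
  rw [← h1, toMA_zero]

/-- central elements act on a block of defect zero by scalars -/
theorem mat_central {ℓ : ℕ} (hF : GoodF ℓ F) {b : N → F} (hb : IsBlk b) (hs : Sup0 ℓ b) {n : ℕ}
    {ρ : N →* Matrix (Fin n) (Fin n) F} (hρ : IsIrr ρ) (hρb : ev ρ b = 1) {z : N → F}
    (hz : IsCl z) : ∃ w : F, ev ρ z = Matrix.scalar (Fin n) w ∧ mulF z b = w • b := by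
  obtain ⟨w, hw, -, -⟩ := eig F N n ρ hρ z hz
  refine ⟨w, hw, ?_⟩
  have h1 : ev ρ (z - w • b) = 0 := by
    rw [← lift_toMA, toMA_sub, toMA_smul, map_sub, map_smul, lift_toMA, lift_toMA, hw, hρb,
      Matrix.scalar_apply, Matrix.smul_one_eq_diagonal, sub_self]
  have h2 := mat hF hb hs hρ hρb h1
  rw [sub_mulF, smul_mulF, hb.1.2, sub_eq_zero] at h2
  exact h2

/-- uniqueness of the irreducible representation -/
theorem mat_unique {ℓ : ℕ} (hF : GoodF ℓ F) {b : N → F} (hb : IsBlk b) (hs : Sup0 ℓ b) {n m : ℕ}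
    {ρ : N →* Matrix (Fin n) (Fin n) F} (hρ : IsIrr ρ) (hρb : ev ρ b = 1)
    {ρ' : N →* Matrix (Fin m) (Fin m) F} (hρ' : IsIrr ρ') (hρb' : ev ρ' b = 1) :
    tr ρ = tr ρ' := by
  by_contra hne
  have hN : NeZero n := ⟨hρ.1.ne'⟩
  have hM : NeZero m := ⟨hρ'.1.ne'⟩
  let d : Bool → ℕ := fun i => if i then n else m
  let P : ∀ i : Bool, N →* Matrix (Fin (d i)) (Fin (d i)) F := fun i =>
    match i with
    | true => ρ
    | false => ρ'
  obtain ⟨a, ha⟩ := ibj ℓ F hF N Bool d P (by
    intro i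
    match i with
    | true => exact hρ
    | false => exact hρ') (by
    intro i j hij
    match i, j with
    | true, true => rfl
    | false, false => rfl
    | true, false => exact absurd hij hne
    | false, true => exact absurd hij.symm hne) (fun i =>
      match i with
      | true => (0 : Matrix (Fin n) (Fin n) F)
      | false => (1 : Matrix (Fin m) (Fin m) F))
  have h1 : ev ρ a = 0 := ha true
  have h2 : ev ρ' a = 1 := ha false
  have h3 := mat hF hb hs hρ hρb h1
  have h4 : ev ρ' (mulF a b) = 1 := by rw [ev_mulF, h2, hρb', one_mul]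
  rw [h3] at h4
  have h5 : ev ρ' (0 : N → F) = 0 := by rw [← lift_toMA, toMA_zero, map_zero]
  rw [h5] at h4
  exact zero_ne_one h4

end blk

end Pool.Agent.PP.H20
end
end -- Pool.Agent.Helper20_PP.Mat

section -- Pool.Agent.Helper20_PP.MatS

/-!
MAT, PCI: the statements of part DZ.
-/

open scoped BigOperators

noncomputable section

namespace Pool.Agent.PP.H20

theorem matS : MatStmt := by
  intro ℓ F _ hF N _ _ b hb
  have hs : Sup0 ℓ b := hb.2.2
  refine ⟨blk_rep hF hb.1.1 hb.1.2.1, ?_, ?_, ?_⟩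
  · intro n ρ hρ hρb a ha
    exact mat hF hb.1 hs hρ hρb ha
  · intro n m ρ σ hρ hσ hρb hσb
    exact mat_unique hF hb.1 hs hρ hρb hσ hσb
  · intro z hz
    obtain ⟨n, ρ, hρ, hρb⟩ := blk_rep hF hb.1.1 hb.1.2.1
    obtain ⟨w, -, hw⟩ := mat_central hF hb.1 hs hρ hρb hz
    exact ⟨w, hw⟩

theorem pci : PciStmt := by
  intro ℓ F _ hF N _ _ a z ha hz
  have h1 : PrC ℓ (mulF z a) :=
    ⟨isCl_mulF hz ha.1, sup0_mulF hF.prime hF.char hz ha.1 ha.2⟩
  refine ⟨h1, ?_⟩
  rw [mulF_comm_of_cl ha.1]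
  exact h1

end Pool.Agent.PP.H20
end
end -- Pool.Agent.Helper20_PP.MatS

section -- Pool.Agent.Helper20_PP.Blk

/-!
BLK: the block of the fixed points of an `ℓ`-group of automorphisms.
-/

open scoped BigOperators

noncomputable section

namespace Pool.Agent.PP.H20

section fix

variable {N : Type} [Group N]

/-- the elements conjugating `x` into `y` -/
def Tra (x y : N) : Type := {n : N // n * x * n⁻¹ = y}

/-- the action of a group of automorphisms on the transporter -/
@[instance_reducible] def traAct (P : Subgroup (MulAut N)) {x y : N} (hx : x ∈ fixN P) (hy : y ∈ fixN P) :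
    MulAction P (Tra x y) where
  smul p n := ⟨(p : MulAut N) n.1, by
    have h1 := congrArg (p : MulAut N) n.2
    rw [map_mul, map_mul, map_inv, hx p p.2, hy p p.2] at h1
    exact h1⟩
  one_smul _ := rfl
  mul_smul _ _ _ := rfl

theorem card_tra [Finite N] {x y : N} (q : N) (hq : q * x * q⁻¹ = y) :
    Nat.card (Tra x y) = Nat.card (Tra x x) := by
  apply Nat.card_congr
  refine
    { toFun := fun n => ⟨q⁻¹ * n.1, ?_⟩
      invFun := fun n => ⟨q * n.1, ?_⟩
      left_inv := fun n => Subtype.ext (by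
        show q * (q⁻¹ * n.1) = n.1
        group)
      right_inv := fun n => Subtype.ext (by
        show q⁻¹ * (q * n.1) = n.1
        group) }
  · calc q⁻¹ * n.1 * x * (q⁻¹ * n.1)⁻¹ = q⁻¹ * (n.1 * x * n.1⁻¹) * q := by group
      _ = q⁻¹ * y * q := by rw [n.2]
      _ = q⁻¹ * (q * x * q⁻¹) * q := by rw [hq]
      _ = x := by group
  · calc q * n.1 * x * (q * n.1)⁻¹ = q * (n.1 * x * n.1⁻¹) * q⁻¹ := by group
      _ = q * x * q⁻¹ := by rw [n.2]
      _ = y := hq

theorem card_tra_fixed (P : Subgroup (MulAut N)) {x : N} (hx : x ∈ fixN P) :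
    Nat.card (letI := traAct P hx hx; MulAction.fixedPoints P (Tra x x)) =
      Nat.card (Subgroup.centralizer ({(⟨x, hx⟩ : fixN P)} : Set (fixN P))) := by
  let _ := traAct P hx hx
  apply Nat.card_congr
  refine
    { toFun := fun n => ⟨⟨n.1.1, ?_⟩, ?_⟩
      invFun := fun c => ⟨⟨c.1.1, ?_⟩, ?_⟩
      left_inv := fun n => rfl
      right_inv := fun n => rfl }
  · intro p hp
    have := n.2 ⟨p, hp⟩
    exact congrArg Subtype.val this
  · rw [Subgroup.mem_centralizer_singleton_iff]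
    apply Subtype.ext
    show n.1.1 * x = x * n.1.1
    have h1 := n.1.2
    calc n.1.1 * x = n.1.1 * x * n.1.1⁻¹ * n.1.1 := by group
      _ = x * n.1.1 := by rw [h1]
  · have h1 := congrArg Subtype.val (Subgroup.mem_centralizer_singleton_iff.1 c.2)
    have h2 : c.1.1 * x = x * c.1.1 := h1
    rw [h2]
    group
  · intro p
    apply Subtype.ext
    exact c.1.2 p p.2

/-- centralisers of fixed elements -/
theorem cent_mod {ℓ : ℕ} (hℓ : ℓ.Prime) [Finite N] (P : Subgroup (MulAut N)) (hP : IsPGroup ℓ P)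
    {x : N} (hx : x ∈ fixN P) :
    Nat.card (Tra x x) ≡
      Nat.card (Subgroup.centralizer ({(⟨x, hx⟩ : fixN P)} : Set (fixN P))) [MOD ℓ] := by
  have : Fact ℓ.Prime := ⟨hℓ⟩
  have hfin : Finite (Tra x x) := Subtype.finite
  rw [← card_tra_fixed P hx]
  let _ := traAct P hx hx
  exact hP.card_modEq_card_fixedPoints (Tra x x)

/-- conjugation in the group and in the fixed points -/
theorem fix_conj {ℓ : ℕ} (hℓ : ℓ.Prime) [Finite N] (P : Subgroup (MulAut N)) (hP : IsPGroup ℓ P)
    {x y : N} (hx : x ∈ fixN P) (hy : y ∈ fixN P)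
    (hc : ¬ ℓ ∣ Nat.card (Subgroup.centralizer ({(⟨x, hx⟩ : fixN P)} : Set (fixN P)))) (q : N)
    (hq : q * x * q⁻¹ = y) : ∃ n ∈ fixN P, n * x * n⁻¹ = y := by
  have : Fact ℓ.Prime := ⟨hℓ⟩
  have hfin : Finite (Tra x y) := Subtype.finite
  have h1 : ¬ ℓ ∣ Nat.card (Tra x y) := by
    intro h
    rw [card_tra q hq] at h
    apply hc
    exact (Nat.ModEq.dvd_iff (cent_mod hℓ P hP hx) dvd_rfl).1 h
  let _ := traAct P hx hy
  have h2 := hP.card_modEq_card_fixedPoints (Tra x y)
  have h3 : ¬ ℓ ∣ Nat.card (MulAction.fixedPoints P (Tra x y)) := by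
    intro h
    exact h1 ((Nat.ModEq.dvd_iff h2 dvd_rfl).2 h)
  have h4 : Nonempty (MulAction.fixedPoints P (Tra x y)) := by
    by_contra hne
    rw [not_nonempty_iff] at hne
    apply h3
    rw [Nat.card_of_isEmpty]
    exact dvd_zero _
  obtain ⟨n, hn⟩ := h4
  refine ⟨n.1, ?_, n.2⟩
  intro p hp
  exact congrArg Subtype.val (hn ⟨p, hp⟩)

end fix

section blk

variable {F N : Type} [Field F] [Group N] [Finite N]

/-- truncation to the fixed points is multiplicative on invariant functions -/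
theorem trunc_mul {ℓ : ℕ} (hF : GoodF ℓ F) (P : Subgroup (MulAut N)) (hP : IsPGroup ℓ P)
    {a c : N → F} (ha : InvF P a) (hc : InvF P c) :
    (fun x : fixN P => mulF a c x) = mulF (fun x : fixN P => a x) (fun x : fixN P => c x) := by
  have hch := hF.char
  have : Fact ℓ.Prime := ⟨hF.prime⟩
  have hfin := Fintype.ofFinite N
  classical
  funext g
  have hV : ∀ v : F, ℓ • v = 0 := by
    intro v
    rw [nsmul_eq_mul, CharP.cast_eq_zero, zero_mul]
  let _ : MulAction P N :=
    { smul := fun p t => (p : MulAut N) t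
      one_smul := fun _ => rfl
      mul_smul := fun _ _ _ => rfl }
  have hsm : ∀ (p : P) (t : N), p • t = (p : MulAut N) t := fun _ _ => rfl
  show mulF a c (g : N) = mulF (fun x : fixN P => a x) (fun x : fixN P => c x) g
  unfold mulF
  rw [finsum_eq_sum_of_fintype, finsum_eq_sum_of_fintype]
  rw [Pool.Agent.PP.H74.orbit_sum hP hV (fun t => a t * c (t⁻¹ * g)) (fun p t => by
    rw [hsm]
    show a ((p : MulAut N) t) * c (((p : MulAut N) t)⁻¹ * g) = a t * c (t⁻¹ * g)
    have h1 : ((p : MulAut N) t)⁻¹ * g = (p : MulAut N) (t⁻¹ * g) := by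
      rw [map_mul, map_inv, g.2 p p.2]
    rw [h1, ha p p.2, hc p p.2])]
  symm
  rw [Finset.sum_filter]
  apply Fintype.sum_of_injective (fun t : fixN P => (t : N)) Subtype.val_injective
  · intro t ht
    rw [if_neg]
    intro hc
    exact ht ⟨⟨t, fun p hp => hc ⟨p, hp⟩⟩, rfl⟩
  · intro t
    rw [if_pos]
    · rfl
    · intro p
      exact t.2 p p.2

theorem blk : BlkStmt := by
  intro ℓ F _ hF N _ _ b hb P hP hinv hex
  have hℓ := hF.prime
  have hch := hF.char
  classical
  have hcl : IsCl (fun x : fixN P => b x) := by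
    intro x y
    exact hb.2.1 x y
  have hprc : PrC ℓ (fun x : fixN P => b x) := by
    refine ⟨hcl, ?_⟩
    intro x hx
    apply hb.2.2
    apply hx.trans
    let φ : Subgroup.centralizer ({x} : Set (fixN P)) →* Subgroup.centralizer ({(x : N)} : Set N) :=
      { toFun := fun c => ⟨c.1.1, by
          rw [Subgroup.mem_centralizer_singleton_iff]
          exact congrArg Subtype.val (Subgroup.mem_centralizer_singleton_iff.1 c.2)⟩
        map_one' := rfl
        map_mul' := fun _ _ => rfl }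
    apply Subgroup.card_dvd_of_injective φ
    intro c c' h
    have h1 : (φ c).1 = (φ c').1 := by rw [h]
    apply Subtype.ext
    apply Subtype.ext
    exact h1
  have hidem : IsIdem (fun x : fixN P => b x) := by
    refine ⟨hcl, ?_⟩
    rw [← trunc_mul hF P hP hinv hinv, hb.1.1.2]
  have hne : (fun x : fixN P => b x) ≠ 0 := by
    obtain ⟨x, hx, hbx⟩ := hex
    intro h
    exact hbx (congrFun h ⟨x, hx⟩)
  refine ⟨⟨hidem, hne, ?_⟩, hprc⟩
  intro c hc
  -- the idempotent below `b`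
  obtain ⟨c1, hc1⟩ : ∃ c1, c1 = mulF (fun x : fixN P => b x) c := ⟨_, rfl⟩
  have hc1cl : IsCl c1 := by rw [hc1]; exact isCl_mulF hcl hc.1
  have hc1s : Sup0 ℓ c1 := by
    rw [hc1]
    exact (pci ℓ F hF (fixN P) _ c hprc hc.1).2.2
  have hc1b : mulF c1 (fun x : fixN P => b x) = c1 := by
    rw [mulF_comm_of_cl hc1cl, hc1, ← mulF_assoc, hidem.2]
  have hc1i : mulF c1 c1 = c1 := by
    have h1 : mulF c1 c = c1 := by rw [hc1, mulF_assoc, hc.2]
    have h2 : mulF c1 c1 = mulF (mulF c1 (fun x : fixN P => b x)) c := by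
      rw [mulF_assoc, ← hc1]
    rw [h2, hc1b, h1]
  -- the lift
  have hdef : ∀ (x x' : fixN P), ¬ ℓ ∣ Nat.card (Subgroup.centralizer ({x} : Set (fixN P))) →
      (∃ q : N, q * x * q⁻¹ = x') → c1 x = c1 x' := by
    intro x x' hx hq
    obtain ⟨q, hq⟩ := hq
    obtain ⟨n, hn, hn'⟩ := fix_conj hℓ P hP x.2 x'.2 hx q hq
    have h1 := hc1cl x ⟨n, hn⟩
    rw [← h1]
    congr 1
    exact Subtype.ext hn'
  let z : N → F := fun y => if h : ∃ x : fixN P,
    (¬ ℓ ∣ Nat.card (Subgroup.centralizer ({x} : Set (fixN P)))) ∧ ∃ q : N, q * x * q⁻¹ = y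
    then c1 h.choose else 0
  have hz1 : ∀ (y : N) (x : fixN P), (¬ ℓ ∣ Nat.card (Subgroup.centralizer ({x} : Set (fixN P)))) →
      (∃ q : N, q * x * q⁻¹ = y) → z y = c1 x := by
    intro y x hx hq
    have h : ∃ x : fixN P, (¬ ℓ ∣ Nat.card (Subgroup.centralizer ({x} : Set (fixN P)))) ∧
        ∃ q : N, q * x * q⁻¹ = y := ⟨x, hx, hq⟩
    have h1 : z y = c1 h.choose := dif_pos h
    rw [h1]
    obtain ⟨h2, q2, hq2⟩ := h.choose_spec
    obtain ⟨q, hq⟩ := hq
    apply hdef _ _ h2
    refine ⟨q⁻¹ * q2, ?_⟩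
    calc q⁻¹ * q2 * (h.choose : N) * (q⁻¹ * q2)⁻¹ = q⁻¹ * (q2 * (h.choose : N) * q2⁻¹) * q := by
          group
      _ = q⁻¹ * y * q := by rw [hq2]
      _ = q⁻¹ * (q * x * q⁻¹) * q := by rw [hq]
      _ = x := by group
  have hz0 : ∀ y : N, (¬ ∃ x : fixN P, (¬ ℓ ∣ Nat.card (Subgroup.centralizer ({x} : Set (fixN P)))) ∧
      ∃ q : N, q * x * q⁻¹ = y) → z y = 0 := fun y h => dif_neg h
  have hzcl : IsCl z := by
    intro y k
    by_cases h : ∃ x : fixN P, (¬ ℓ ∣ Nat.card (Subgroup.centralizer ({x} : Set (fixN P)))) ∧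
      ∃ q : N, q * x * q⁻¹ = y
    · obtain ⟨x, hx, q, hq⟩ := h
      rw [hz1 y x hx ⟨q, hq⟩, hz1 _ x hx ⟨k * q, by rw [← hq]; group⟩]
    · rw [hz0 y h, hz0]
      rintro ⟨x, hx, q, hq⟩
      apply h
      refine ⟨x, hx, k⁻¹ * q, ?_⟩
      calc k⁻¹ * q * x * (k⁻¹ * q)⁻¹ = k⁻¹ * (q * x * q⁻¹) * k := by group
        _ = k⁻¹ * (k * y * k⁻¹) * k := by rw [hq]
        _ = y := by group
  have hzinv : InvF P z := by
    intro p hp y
    by_cases h : ∃ x : fixN P, (¬ ℓ ∣ Nat.card (Subgroup.centralizer ({x} : Set (fixN P)))) ∧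
      ∃ q : N, q * x * q⁻¹ = y
    · obtain ⟨x, hx, q, hq⟩ := h
      rw [hz1 y x hx ⟨q, hq⟩, hz1 _ x hx ⟨p q, by
        rw [← hq, map_mul, map_mul, map_inv, x.2 p hp]⟩]
    · rw [hz0 y h, hz0]
      rintro ⟨x, hx, q, hq⟩
      apply h
      refine ⟨x, hx, p⁻¹ q, ?_⟩
      have h1 := congrArg (p⁻¹ : MulAut N) hq
      rw [map_mul, map_mul, map_inv, x.2 p⁻¹ (P.inv_mem hp), MulAut.inv_apply_self] at h1
      exact h1
  have hztr : (fun x : fixN P => z x) = c1 := by
    funext y
    show z y = c1 y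
    by_cases h : ℓ ∣ Nat.card (Subgroup.centralizer ({y} : Set (fixN P)))
    · rw [hc1s y h]
      by_cases h' : ∃ x : fixN P, (¬ ℓ ∣ Nat.card (Subgroup.centralizer ({x} : Set (fixN P)))) ∧
        ∃ q : N, q * x * q⁻¹ = y
      · obtain ⟨x, hx, q, hq⟩ := h'
        rw [hz1 y x hx ⟨q, hq⟩, hdef x y hx ⟨q, hq⟩, hc1s y h]
      · exact hz0 y h'
    · exact hz1 y y h ⟨1, by group⟩
  -- conclusion
  obtain ⟨n, ρ, hρ, hρb⟩ := blk_rep hF hb.1.1 hb.1.2.1
  obtain ⟨w, -, hw⟩ := mat_central hF hb.1 hb.2.2 hρ hρb hzcl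
  have h1 : mulF c1 (fun x : fixN P => b x) = w • (fun x : fixN P => b x) := by
    rw [← hztr, ← trunc_mul hF P hP hzinv hinv, hw]
    rfl
  rw [hc1b] at h1
  have h2 : w * w = w ∨ c1 = 0 := by
    by_cases h0 : w = 0
    · right
      rw [h1, h0, zero_smul]
    · left
      have h3 : w • (w • (fun x : fixN P => b x)) = w • (fun x : fixN P => b x) := by
        have h4 := hc1i
        rw [h1, mulF_smul, smul_mulF, hidem.2] at h4
        exact h4
      rw [smul_smul, ← sub_eq_zero, ← sub_smul, smul_eq_zero] at h3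
      rcases h3 with h3 | h3
      · exact sub_eq_zero.1 h3
      · exact absurd h3 hne
  rw [← hc1]
  rcases h2 with h2 | h2
  · by_cases h0 : w = 0
    · right
      rw [h1, h0, zero_smul]
    · left
      have h3 : w = 1 := mul_left_cancel₀ h0 (h2.trans (mul_one w).symm)
      rw [h1, h3, one_smul]
  · exact Or.inr h2

end blk

end Pool.Agent.PP.H20
end
end -- Pool.Agent.Helper20_PP.Blk

section -- Pool.Agent.Helper51_D1.Wts

/-!
# Squad PP, part D1: weights and class sums
-/

open scoped BigOperators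

set_option linter.unusedSectionVars false

noncomputable section

namespace Pool.Agent.PP.D1H51

open Pool.Agent.Helper51_AWC Pool.Agent.Helper79_WRA Pool.Agent.PP

section

variable {F : Type} [Field F] {G : Type} [Group G] [Finite G]

/-- weights exist -/
theorem exists_w (F : Type) [Field F] {N P : Subgroup G} (hPN : P ≤ N) :
    ∃ c : G → F, IsW N P c := by
  classical
  refine ⟨fun g => if g ∈ N ∧ (QuotientGroup.mk g : G ⧸ P).out = g then 1 else 0, ?_, ?_⟩
  · intro g hg
    exact if_neg fun h => hg h.1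
  · intro g hg
    have h1 : (QuotientGroup.mk g : G ⧸ P) =
        QuotientGroup.mk ((QuotientGroup.mk g : G ⧸ P).out) := (QuotientGroup.out_eq' _).symm
    have hr : g⁻¹ * (QuotientGroup.mk g : G ⧸ P).out ∈ P := QuotientGroup.eq.1 h1
    rw [finsum_eq_single _ ⟨g⁻¹ * (QuotientGroup.mk g : G ⧸ P).out, hr⟩]
    · have h2 : g * (g⁻¹ * (QuotientGroup.mk g : G ⧸ P).out) =
          (QuotientGroup.mk g : G ⧸ P).out := mul_inv_cancel_left _ _
      show (if g * (g⁻¹ * (QuotientGroup.mk g : G ⧸ P).out) ∈ N ∧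
        (QuotientGroup.mk (g * (g⁻¹ * (QuotientGroup.mk g : G ⧸ P).out)) : G ⧸ P).out =
          g * (g⁻¹ * (QuotientGroup.mk g : G ⧸ P).out) then (1 : F) else 0) = 1
      rw [h2, if_pos]
      refine ⟨?_, ?_⟩
      · rw [← h2]
        exact N.mul_mem hg (hPN hr)
      · rw [← h1]
    · intro p hp
      apply if_neg
      rintro ⟨-, h3⟩
      apply hp
      apply Subtype.ext
      have h4 : (QuotientGroup.mk (g * (p : G)) : G ⧸ P) = QuotientGroup.mk g :=
        QuotientGroup.mk_mul_of_mem g p.2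
      rw [h4] at h3
      show (p : G) = g⁻¹ * (QuotientGroup.mk g : G ⧸ P).out
      rw [h3, inv_mul_cancel_left]

/-- the sum of the weights over a coset of `C` -/
theorem w_sum {N P C : Subgroup G} (hPC : P ≤ C) (hCN : C ≤ N) {c : G → F} (hc : IsW N P c)
    {n : G} (hn : n ∈ N) : ∑ᶠ g : C, c (n * g) = (P.relIndex C : F) := by
  classical
  have hfC := Fintype.ofFinite C
  have hfq := Fintype.ofFinite (C ⧸ P.subgroupOf C)
  have hfp := Fintype.ofFinite (P.subgroupOf C)
  have hfP := Fintype.ofFinite P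
  have hbij : Function.Bijective (fun q : (C ⧸ P.subgroupOf C) × P.subgroupOf C =>
      (q.1.out * q.2 : C)) := by
    constructor
    · rintro ⟨q, p⟩ ⟨q', p'⟩ h
      have h0 : q.out * (p : C) = q'.out * p' := h
      have h1 : (QuotientGroup.mk (q.out * (p : C)) : C ⧸ P.subgroupOf C) = q := by
        rw [QuotientGroup.mk_mul_of_mem _ p.2, QuotientGroup.out_eq']
      have h2 : (QuotientGroup.mk (q'.out * (p' : C)) : C ⧸ P.subgroupOf C) = q' := by
        rw [QuotientGroup.mk_mul_of_mem _ p'.2, QuotientGroup.out_eq']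
      have h3 : q = q' := by rw [← h1, h0, h2]
      subst h3
      have h4 : (p : C) = p' := mul_left_cancel h0
      rw [Subtype.ext h4]
    · intro g
      have h1 : (QuotientGroup.mk g : C ⧸ P.subgroupOf C) =
          QuotientGroup.mk ((QuotientGroup.mk g : C ⧸ P.subgroupOf C).out) :=
        (QuotientGroup.out_eq' _).symm
      have hr : (QuotientGroup.mk g : C ⧸ P.subgroupOf C).out⁻¹ * g ∈ P.subgroupOf C :=
        QuotientGroup.eq.1 h1.symm
      refine ⟨⟨QuotientGroup.mk g, ⟨_, hr⟩⟩, ?_⟩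
      exact mul_inv_cancel_left _ _
  rw [finsum_eq_sum_of_fintype, ← Function.Bijective.sum_comp hbij (fun g : C => c (n * g)),
    Fintype.sum_prod_type]
  have hin : ∀ q : C ⧸ P.subgroupOf C,
      ∑ p : P.subgroupOf C, c (n * ((q.out * (p : C) : C) : G)) = 1 := by
    intro q
    have h1 := hc.sum (n * (q.out : C)) (N.mul_mem hn (hCN (q.out : C).2))
    rw [finsum_eq_sum_of_fintype] at h1
    rw [← h1]
    refine Fintype.sum_equiv (Subgroup.subgroupOfEquivOfLe hPC).toEquiv _ _ fun p => ?_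
    show c (n * (((q.out : C) : G) * ((p : C) : G))) = c (n * ((q.out : C) : G) * ((p : C) : G))
    rw [mul_assoc]
  rw [Finset.sum_congr rfl fun q _ => hin q, Finset.sum_const, nsmul_eq_mul, mul_one,
    Finset.card_univ, Subgroup.relIndex, Subgroup.index, Nat.card_eq_fintype_card]

/-- the class sum from the weights -/
theorem cls_w {N P : Subgroup G} {x : G}
    (hP : P ≤ Subgroup.centralizer ({x} : Set G) ⊓ N) {c : G → F} (hc : IsW N P c)
    [Fintype G] (k : G) [DecidableEq G] :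
    ∑ g : G, (if g * x * g⁻¹ = k then c g else 0) =
      (P.relIndex (Subgroup.centralizer ({x} : Set G) ⊓ N) : F) * clsum F N x k := by
  classical
  by_cases h : ∃ q ∈ N, k = q * x * q⁻¹
  · have hk : clsum F N x k = 1 := by
      unfold clsum
      rw [if_pos h]
    obtain ⟨q, hq, rfl⟩ := h
    rw [hk, mul_one, ← w_sum hP inf_le_right hc hq]
    have hfC := Fintype.ofFinite (Subgroup.centralizer ({x} : Set G) ⊓ N : Subgroup G)
    rw [finsum_eq_sum_of_fintype, ← Equiv.sum_comp (Equiv.mulLeft q)]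
    have e1 : ∑ g : (Subgroup.centralizer ({x} : Set G) ⊓ N : Subgroup G), c (q * g) =
        ∑ g ∈ Finset.univ.filter
          (fun g : G => g ∈ (Subgroup.centralizer ({x} : Set G) ⊓ N : Subgroup G)),
          c (q * g) := by
      symm
      apply Finset.sum_subtype
      intro g
      rw [Finset.mem_filter]
      exact ⟨fun h => h.2, fun h => ⟨Finset.mem_univ _, h⟩⟩
    rw [e1]
    symm
    have hcomm : ∀ g : G, q * g * x * (q * g)⁻¹ = q * x * q⁻¹ ↔
        g ∈ Subgroup.centralizer ({x} : Set G) := by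
      intro g
      rw [Subgroup.mem_centralizer_singleton_iff]
      constructor
      · intro h
        calc g * x = q⁻¹ * (q * g * x * (q * g)⁻¹) * q * g := by group
          _ = q⁻¹ * (q * x * q⁻¹) * q * g := by rw [h]
          _ = x * g := by group
      · intro h
        calc q * g * x * (q * g)⁻¹ = q * (g * x) * g⁻¹ * q⁻¹ := by group
          _ = q * (x * g) * g⁻¹ * q⁻¹ := by rw [h]
          _ = q * x * q⁻¹ := by group
    rw [Finset.sum_filter]
    refine Finset.sum_congr rfl fun g _ => ?_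
    show (if g ∈ (Subgroup.centralizer ({x} : Set G) ⊓ N : Subgroup G) then c (q * g) else 0) =
      if q * g * x * (q * g)⁻¹ = q * x * q⁻¹ then c (q * g) else 0
    by_cases h1 : g ∈ Subgroup.centralizer ({x} : Set G)
    · rw [if_pos ((hcomm g).2 h1)]
      by_cases h2 : g ∈ N
      · rw [if_pos ⟨h1, h2⟩]
      · rw [if_neg fun h => h2 h.2, hc.supp]
        intro h3
        apply h2
        have := N.mul_mem (N.inv_mem hq) h3
        rwa [inv_mul_cancel_left] at this
    · rw [if_neg fun h => h1 h.1, if_neg fun h => h1 ((hcomm g).1 h)]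
  · have hk : clsum F N x k = 0 := by
      unfold clsum
      rw [if_neg h]
    rw [hk, mul_zero]
    refine Finset.sum_eq_zero fun g _ => ?_
    split_ifs with h1
    · apply hc.supp
      intro hg
      exact h ⟨g, hg, h1.symm⟩
    · rfl

/-- products of class sums and invariant functions are relative traces -/
theorem prj_of {N P : Subgroup G} {x : G} (hx : x ∈ N)
    (hP : P ≤ Subgroup.centralizer ({x} : Set G) ⊓ N)
    (hm : (P.relIndex (Subgroup.centralizer ({x} : Set G) ⊓ N) : F) ≠ 0) {V : G → F}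
    (hVN : ∀ y, y ∉ N → V y = 0) (hVi : ∀ n ∈ N, ∀ y, V (n * y * n⁻¹) = V y) :
    PrjB N P (mulF (clsum F N x) V) := by
  classical
  have hfG := Fintype.ofFinite G
  obtain ⟨c, hc⟩ := exists_w F (hP.trans inf_le_right)
  set m : F := (P.relIndex (Subgroup.centralizer ({x} : Set G) ⊓ N) : F) with hmdef
  refine ⟨c, fun y => m⁻¹ * V (x⁻¹ * y), hc, ?_, ?_, ?_⟩
  · intro y hy
    show m⁻¹ * V (x⁻¹ * y) = 0
    rw [hVN, mul_zero]
    intro h
    apply hy
    have := N.mul_mem hx h
    rwa [mul_inv_cancel_left] at this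
  · intro p hp y
    show m⁻¹ * V (x⁻¹ * (p * y * p⁻¹)) = m⁻¹ * V (x⁻¹ * y)
    have h1 : p * x = x * p := Subgroup.mem_centralizer_singleton_iff.1 (hP hp).1
    have h2 : x⁻¹ * (p * y * p⁻¹) = p * (x⁻¹ * y) * p⁻¹ := by
      have h3 : x⁻¹ * p = p * x⁻¹ := by
        rw [inv_mul_eq_iff_eq_mul, ← mul_assoc, ← h1, mul_inv_cancel_right]
      calc x⁻¹ * (p * y * p⁻¹) = (x⁻¹ * p) * y * p⁻¹ := by group
        _ = (p * x⁻¹) * y * p⁻¹ := by rw [h3]
        _ = _ := by group
    rw [h2, hVi p (hP hp).2]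
  · intro y
    rw [finsum_eq_sum_of_fintype]
    unfold mulF
    rw [finsum_eq_sum_of_fintype]
    have h1 : ∀ g : G, c g * (m⁻¹ * V (x⁻¹ * (g⁻¹ * y * g))) =
        ∑ k : G, (if g * x * g⁻¹ = k then c g else 0) * (m⁻¹ * V (k⁻¹ * y)) := by
      intro g
      rw [Finset.sum_eq_single (g * x * g⁻¹)]
      · rw [if_pos rfl]
        by_cases hg : g ∈ N
        · congr 2
          rw [← hVi g hg (x⁻¹ * (g⁻¹ * y * g))]
          congr 1
          group
        · rw [hc.supp g hg, zero_mul, zero_mul]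
      · intro k _ hk
        rw [if_neg (fun h => hk h.symm), zero_mul]
      · intro h
        exact absurd (Finset.mem_univ _) h
    rw [Finset.sum_congr rfl fun g _ => h1 g, Finset.sum_comm]
    refine Finset.sum_congr rfl fun k _ => ?_
    rw [← Finset.sum_mul, cls_w hP hc k, ← hmdef]
    field_simp

end

end Pool.Agent.PP.D1H51
end
end -- Pool.Agent.Helper51_D1.Wts

section -- Pool.Agent.Helper51_D1.Cld

/-!
# Squad PP, part D1, module CLD: the defect group of a block of defect one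
-/

open scoped BigOperators

set_option linter.unusedSectionVars false

noncomputable section

namespace Pool.Agent.PP.D1H51

open Pool.Agent.Helper51_AWC Pool.Agent.Helper79_WRA Pool.Agent.PP

/-! ### Class functions -/

section cls

variable {F N : Type} [Field F] [Group N] [Finite N]

theorem clsum_cl (x : N) : IsCl (clsum F (⊤ : Subgroup N) x) := by
  classical
  intro y g
  unfold clsum
  have hiff : (∃ q ∈ (⊤ : Subgroup N), g * y * g⁻¹ = q * x * q⁻¹) ↔
      ∃ q ∈ (⊤ : Subgroup N), y = q * x * q⁻¹ := by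
    constructor
    · rintro ⟨q, -, h⟩
      refine ⟨g⁻¹ * q, Subgroup.mem_top _, ?_⟩
      calc y = g⁻¹ * (g * y * g⁻¹) * g := by group
        _ = g⁻¹ * (q * x * q⁻¹) * g := by rw [h]
        _ = _ := by group
    · rintro ⟨q, -, h⟩
      refine ⟨g * q, Subgroup.mem_top _, ?_⟩
      rw [h]
      group
  by_cases h : ∃ q ∈ (⊤ : Subgroup N), y = q * x * q⁻¹
  · rw [if_pos h, if_pos (hiff.2 h)]
  · rw [if_neg h, if_neg (fun h' => h (hiff.1 h'))]

/-- a class function is a combination of class sums -/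
theorem cl_expand {a : N → F} (ha : IsCl a) [Fintype (ConjClasses N)] :
    a = ∑ K : ConjClasses N, a (Quotient.out K) • clsum F ⊤ (Quotient.out K) := by
  classical
  funext y
  rw [Finset.sum_apply]
  have hout : ∀ K : ConjClasses N, ConjClasses.mk (Quotient.out K) = K := fun K =>
    Quotient.out_eq K
  have hiff : ∀ K : ConjClasses N, (∃ q ∈ (⊤ : Subgroup N),
      y = q * Quotient.out K * q⁻¹) ↔ K = ConjClasses.mk y := by
    intro K
    constructor
    · rintro ⟨q, -, h⟩
      rw [← hout K, ConjClasses.mk_eq_mk_iff_isConj, isConj_iff]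
      exact ⟨q, h.symm⟩
    · intro h
      rw [← hout K, ConjClasses.mk_eq_mk_iff_isConj, isConj_iff] at h
      obtain ⟨q, hq⟩ := h
      exact ⟨q, Subgroup.mem_top _, hq.symm⟩
  rw [Finset.sum_eq_single (ConjClasses.mk y)]
  · have h1 := (hiff (ConjClasses.mk y)).2 rfl
    obtain ⟨q, -, hq⟩ := h1
    have h2 : a y = a (Quotient.out (ConjClasses.mk y)) := by
      conv_lhs => rw [hq]
      exact ha _ _
    show a y = a (Quotient.out (ConjClasses.mk y)) *
      clsum F ⊤ (Quotient.out (ConjClasses.mk y)) y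
    unfold clsum
    rw [if_pos ((hiff (ConjClasses.mk y)).2 rfl), mul_one]
    exact h2
  · intro K _ hK
    show a (Quotient.out K) * clsum F ⊤ (Quotient.out K) y = 0
    unfold clsum
    rw [if_neg (fun h => hK ((hiff K).1 h)), mul_zero]
  · intro h
    exact absurd (Finset.mem_univ _) h

theorem dz_of_prC {ℓ : ℕ} {a : N → F} (h : PrC ℓ a) : DZ ℓ a := by
  classical
  have := Fintype.ofFinite (ConjClasses N)
  unfold DZ
  rw [cl_expand h.1]
  refine Submodule.sum_mem _ fun K _ => ?_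
  by_cases h0 : a (Quotient.out K) = 0
  · rw [h0, zero_smul]
    exact Submodule.zero_mem _
  · refine Submodule.smul_mem _ _ (Submodule.subset_span ⟨Quotient.out K, ?_, rfl⟩)
    intro hd
    exact h0 (h.2 _ hd)

/-- the class sum of an element of defect zero -/
theorem prC_clsum {ℓ : ℕ} {x : N} (hx : ¬ ℓ ∣ Nat.card (Subgroup.centralizer ({x} : Set N))) :
    PrC ℓ (clsum F (⊤ : Subgroup N) x) := by
  classical
  refine ⟨clsum_cl x, ?_⟩
  intro y hy
  unfold clsum
  rw [if_neg]
  rintro ⟨q, -, rfl⟩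
  apply hx
  have h2 : (Subgroup.centralizer ({x} : Set N)).map (MulAut.conj q).toMonoidHom =
      Subgroup.centralizer ({q * x * q⁻¹} : Set N) := by
    ext g
    rw [Subgroup.mem_map, Subgroup.mem_centralizer_singleton_iff]
    constructor
    · rintro ⟨z, hz, rfl⟩
      rw [Subgroup.mem_centralizer_singleton_iff] at hz
      have h3 : (MulAut.conj q).toMonoidHom z = q * z * q⁻¹ := rfl
      rw [h3]
      calc q * z * q⁻¹ * (q * x * q⁻¹) = q * (z * x) * q⁻¹ := by group
        _ = q * (x * z) * q⁻¹ := by rw [hz]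
        _ = q * x * q⁻¹ * (q * z * q⁻¹) := by group
    · intro hg
      refine ⟨q⁻¹ * g * q, ?_, ?_⟩
      · rw [Subgroup.mem_centralizer_singleton_iff]
        calc q⁻¹ * g * q * x = q⁻¹ * (g * (q * x * q⁻¹)) * q := by group
          _ = q⁻¹ * (q * x * q⁻¹ * g) * q := by rw [hg]
          _ = x * (q⁻¹ * g * q) := by group
      · show q * (q⁻¹ * g * q) * q⁻¹ = g
        group
  rw [← h2, Subgroup.card_map_of_injective (MulAut.conj q).injective] at hy
  exact hy

theorem ev_lin {n : ℕ} (ρ : N →* Matrix (Fin n) (Fin n) F) {ι : Type} (s : Finset ι) (c : ι → F)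
    (a : ι → N → F) : ev ρ (∑ i ∈ s, c i • a i) = ∑ i ∈ s, c i • ev ρ (a i) := by
  have := Fintype.ofFinite N
  unfold ev
  simp only [finsum_eq_sum_of_fintype, Finset.sum_apply, Pi.smul_apply, smul_eq_mul]
  simp only [Finset.smul_sum, Finset.sum_smul]
  rw [Finset.sum_comm]
  refine Finset.sum_congr rfl fun i _ => Finset.sum_congr rfl fun t _ => ?_
  rw [smul_smul]

theorem ev_iter {n : ℕ} (ρ : N →* Matrix (Fin n) (Fin n) F) (z b : N → F) (k : ℕ) :
    ev ρ ((mulF z)^[k] b) = ev ρ z ^ k * ev ρ b := by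
  induction k with
  | zero => rw [Function.iterate_zero, id, pow_zero, one_mul]
  | succ k ih => rw [Function.iterate_succ_apply', H20.ev_mulF, ih, ← mul_assoc, pow_succ']

/-- an element acting by a nonzero scalar in a representation over `b` is not nilpotent under
`b` -/
theorem not_nil {n : ℕ} {ρ : N →* Matrix (Fin n) (Fin n) F} (hρ : IsIrr ρ) {z b : N → F} {w : F}
    (hw : w ≠ 0) (hz : ev ρ z = Matrix.scalar (Fin n) w) (hb : ev ρ b = 1) (k : ℕ) :
    (mulF z)^[k] b ≠ 0 := by
  intro h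
  have hn : NeZero n := ⟨hρ.1.ne'⟩
  have h1 := ev_iter ρ z b k
  rw [h, hz, hb, mul_one, ← map_pow] at h1
  have h2 : ev ρ (0 : N → F) = 0 := by
    unfold ev
    simp
  rw [h2] at h1
  have h3 : Matrix.scalar (Fin n) (w ^ k) = Matrix.scalar (Fin n) (0 : F) := by
    rw [← h1, map_zero]
  exact pow_ne_zero k hw (Matrix.scalar_inj.1 h3)

/-- a class sum with nonzero coefficient which is not nilpotent under the block -/
theorem exists_class {n : ℕ} {ρ : N →* Matrix (Fin n) (Fin n) F} (hρ : IsIrr ρ) {b : N → F}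
    (hb : IsCl b) (h1 : ev ρ b = 1) :
    ∃ x : N, b x ≠ 0 ∧ ∃ w : F, w ≠ 0 ∧ ev ρ (clsum F ⊤ x) = Matrix.scalar (Fin n) w := by
  classical
  have := Fintype.ofFinite (ConjClasses N)
  have hn : NeZero n := ⟨hρ.1.ne'⟩
  by_contra hcon
  push Not at hcon
  have h2 : ev ρ b = 0 := by
    conv_lhs => rw [cl_expand hb]
    rw [ev_lin]
    refine Finset.sum_eq_zero fun K _ => ?_
    by_cases h0 : b (Quotient.out K) = 0
    · rw [h0, zero_smul]
    · obtain ⟨w, hw, -, -⟩ := H20.eig F N n ρ hρ _ (clsum_cl (Quotient.out K))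
      by_cases hw0 : w = 0
      · rw [hw, hw0, map_zero, smul_zero]
      · exact absurd hw (hcon _ h0 w hw0)
  rw [h1] at h2
  have h3 : Matrix.scalar (Fin n) (1 : F) = Matrix.scalar (Fin n) (0 : F) := by
    rw [map_one, map_zero, h2]
  exact one_ne_zero (Matrix.scalar_inj.1 h3)

/-- traces are combinations of class sums of defect zero -/
theorem prC_trace {ℓ : ℕ} [Fact ℓ.Prime] [CharP F ℓ] (a : N → F) :
    PrC ℓ (fun y => ∑ᶠ n : N, a (n⁻¹ * y * n)) := by
  classical
  have hfin := Fintype.ofFinite N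
  refine ⟨?_, ?_⟩
  · intro y g
    show ∑ᶠ n : N, a (n⁻¹ * (g * y * g⁻¹) * n) = ∑ᶠ n : N, a (n⁻¹ * y * n)
    rw [finsum_eq_sum_of_fintype, finsum_eq_sum_of_fintype]
    refine Fintype.sum_equiv (Equiv.mulLeft g⁻¹) _ _ fun n => ?_
    show a (n⁻¹ * (g * y * g⁻¹) * n) = a ((g⁻¹ * n)⁻¹ * y * (g⁻¹ * n))
    congr 1
    group
  · intro y hy
    obtain ⟨c, hc⟩ := exists_prime_orderOf_dvd_card' ℓ hy
    let R : Subgroup N := Subgroup.zpowers (c : N)
    have hc1 : orderOf (c : N) = ℓ := by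
      rw [← hc]
      exact (orderOf_injective (Subgroup.centralizer ({y} : Set N)).subtype
        (Subgroup.subtype_injective _) c)
    have hRcard : Nat.card R = ℓ := by rw [Nat.card_zpowers, hc1]
    have hR : IsPGroup ℓ R := IsPGroup.of_card (n := 1) (by rw [hRcard, pow_one])
    have hRC : R ≤ Subgroup.centralizer ({y} : Set N) := by
      rw [Subgroup.zpowers_le]
      exact c.2
    show ∑ᶠ n : N, a (n⁻¹ * y * n) = 0
    rw [finsum_eq_sum_of_fintype,
      Pool.Agent.PP.H74.orbit_sum_ring (T := N) hR (fun n => a (n⁻¹ * y * n)) (by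
        intro r n
        have h1 : (r : N) * y = y * r := Subgroup.mem_centralizer_singleton_iff.1 (hRC r.2)
        show a (((r : N) * n)⁻¹ * y * ((r : N) * n)) = a (n⁻¹ * y * n)
        congr 1
        calc ((r : N) * n)⁻¹ * y * ((r : N) * n) = n⁻¹ * (r : N)⁻¹ * (y * r) * n := by group
          _ = n⁻¹ * (r : N)⁻¹ * (r * y) * n := by rw [h1]
          _ = _ := by group)]
    refine Finset.sum_eq_zero fun n hn => ?_
    exfalso
    rw [Finset.mem_filter] at hn
    have h2 := hn.2 ⟨(c : N), Subgroup.mem_zpowers _⟩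
    have h3 : (c : N) * n = n := h2
    have h4 : (c : N) = 1 := mul_eq_right.1 h3
    rw [h4, orderOf_one] at hc1
    exact (Fact.out : ℓ.Prime).one_lt.ne hc1

theorem ev_trace_sum {n : ℕ} (ρ : N →* Matrix (Fin n) (Fin n) F) (a : N → F) :
    ev ρ (fun y => ∑ᶠ g : N, a (g⁻¹ * y * g)) = ∑ᶠ g : N, ρ g * ev ρ a * ρ g⁻¹ := by
  have := Fintype.ofFinite N
  unfold ev
  simp only [finsum_eq_sum_of_fintype, Finset.sum_smul]
  rw [Finset.sum_comm]
  refine Finset.sum_congr rfl fun g _ => ?_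
  rw [Finset.mul_sum, Finset.sum_mul]
  refine Fintype.sum_equiv (MulAut.conj g⁻¹).toEquiv _ _ fun y => ?_
  show a (g⁻¹ * y * g) • ρ y = ρ g * (a (g⁻¹ * y * g⁻¹⁻¹) • ρ (g⁻¹ * y * g⁻¹⁻¹)) * ρ g⁻¹
  rw [inv_inv, mul_smul_comm, smul_mul_assoc, ← map_mul, ← map_mul]
  congr 2
  group

end cls

/-! ### Sylow subgroups of subgroups -/

section syl

variable {ℓ : ℕ} [Fact ℓ.Prime] {G : Type} [Group G] [Finite G]

theorem syl_exists (C : Subgroup G) : ∃ P : Subgroup G, P ≤ C ∧ IsPGroup ℓ P ∧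
    ¬ ℓ ∣ P.relIndex C ∧ ∀ Q ≤ C, IsPGroup ℓ Q → ∃ c ∈ C, Q ≤ conjS c P := by
  obtain ⟨P₀⟩ : Nonempty (Sylow ℓ C) := inferInstance
  refine ⟨P₀.1.map C.subtype, Subgroup.map_subtype_le _, P₀.isPGroup'.map _, ?_, ?_⟩
  · unfold Subgroup.relIndex
    have h1 : (P₀.1.map C.subtype).subgroupOf C = P₀.1 :=
      Subgroup.comap_map_eq_self_of_injective C.subtype_injective _
    rw [h1]
    exact P₀.not_dvd_index
  · intro Q hQC hQ
    obtain ⟨Q₀, hQ₀⟩ := (hQ.of_equiv (Subgroup.subgroupOfEquivOfLe hQC).symm :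
      IsPGroup ℓ (Q.subgroupOf C)).exists_le_sylow
    obtain ⟨c, hc⟩ := MulAction.exists_smul_eq C P₀ Q₀
    refine ⟨c, c.2, ?_⟩
    intro q hq
    have h1 : (⟨q, hQC hq⟩ : C) ∈ Q₀ := hQ₀ hq
    rw [← hc] at h1
    have h2 : (⟨q, hQC hq⟩ : C) ∈ (P₀.1 : Subgroup C).map (MulAut.conj c).toMonoidHom := h1
    obtain ⟨y, hy, hyq⟩ := h2
    refine ⟨y, ⟨y, hy, rfl⟩, ?_⟩
    exact congrArg Subtype.val hyq

theorem conjS_mul (g h : G) (A : Subgroup G) : conjS g (conjS h A) = conjS (g * h) A := by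
  ext x
  simp only [mem_conjS, mul_inv_rev, mul_assoc]

theorem conjS_one (A : Subgroup G) : conjS 1 A = A := by
  ext x
  simp [mem_conjS]

theorem le_conjS_iff {g : G} {A B : Subgroup G} : A ≤ conjS g B ↔ conjS g⁻¹ A ≤ B := by
  rw [← conjS_mono (g := g) (D := conjS g⁻¹ A), conjS_mul, mul_inv_cancel, conjS_one]

theorem centralizer_conj (x n : G) {N : Subgroup G} (hn : n ∈ N) :
    Subgroup.centralizer ({n * x * n⁻¹} : Set G) ⊓ N =
      conjS n (Subgroup.centralizer ({x} : Set G) ⊓ N) := by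
  ext g
  rw [mem_conjS, Subgroup.mem_inf, Subgroup.mem_inf, Subgroup.mem_centralizer_singleton_iff,
    Subgroup.mem_centralizer_singleton_iff]
  constructor
  · rintro ⟨h1, h2⟩
    refine ⟨?_, N.mul_mem (N.mul_mem (N.inv_mem hn) h2) hn⟩
    calc n⁻¹ * g * n * x = n⁻¹ * (g * (n * x * n⁻¹)) * n := by group
      _ = n⁻¹ * (n * x * n⁻¹ * g) * n := by rw [h1]
      _ = x * (n⁻¹ * g * n) := by group
  · rintro ⟨h1, h2⟩
    constructor
    · calc g * (n * x * n⁻¹) = n * (n⁻¹ * g * n * x) * n⁻¹ := by group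
        _ = n * (x * (n⁻¹ * g * n)) * n⁻¹ := by rw [h1]
        _ = n * x * n⁻¹ * g := by group
    · have h3 := N.mul_mem (N.mul_mem hn h2) (N.inv_mem hn)
      have h4 : n * (n⁻¹ * g * n) * n⁻¹ = g := by group
      rwa [h4] at h3

end syl

/-! ### The main theorem -/

section main

variable {ℓ : ℕ} [Fact ℓ.Prime] {F : Type} [Field F] {G : Type} [Group G] [Finite G]
  {N : Subgroup G}

theorem ext0_clsum' (x : N) : ext0 N (clsum F (⊤ : Subgroup N) x) = clsum F N (x : G) := by
  classical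
  funext y
  by_cases hy : y ∈ N
  · rw [H46.ext0_of_mem _ hy]
    unfold clsum
    have hiff : (∃ q ∈ (⊤ : Subgroup N), (⟨y, hy⟩ : N) = q * x * q⁻¹) ↔
        ∃ q ∈ N, y = q * (x : G) * q⁻¹ := by
      constructor
      · rintro ⟨q, _, h⟩
        exact ⟨q, q.2, congrArg Subtype.val h⟩
      · rintro ⟨q, hq, h⟩
        exact ⟨⟨q, hq⟩, Subgroup.mem_top _, Subtype.ext h⟩
    by_cases h : ∃ q ∈ N, y = q * (x : G) * q⁻¹
    · rw [if_pos h, if_pos (hiff.2 h)]
    · rw [if_neg h, if_neg (fun h' => h (hiff.1 h'))]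
  · rw [H46.ext0_of_not_mem _ hy]
    unfold clsum
    rw [if_neg]
    rintro ⟨q, hq, rfl⟩
    exact hy (mul_mem (mul_mem hq x.2) (inv_mem hq))

theorem ext0_inv {a : N → F} (ha : IsCl a) {n : G} (hn : n ∈ N) (y : G) :
    ext0 N a (n * y * n⁻¹) = ext0 N a y := by
  by_cases hy : y ∈ N
  · have h1 : n * y * n⁻¹ ∈ N := N.mul_mem (N.mul_mem hn hy) (N.inv_mem hn)
    rw [H46.ext0_of_mem _ hy, H46.ext0_of_mem _ h1]
    exact ha ⟨y, hy⟩ ⟨n, hn⟩
  · have h1 : n * y * n⁻¹ ∉ N := by
      intro h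
      apply hy
      have h2 := N.mul_mem (N.mul_mem (N.inv_mem hn) h) hn
      have h3 : n⁻¹ * (n * y * n⁻¹) * n = y := by group
      rwa [h3] at h2
    rw [H46.ext0_of_not_mem _ hy, H46.ext0_of_not_mem _ h1]

theorem card_cent (x : N) : Nat.card (Subgroup.centralizer ({x} : Set N)) =
    Nat.card (Subgroup.centralizer ({(x : G)} : Set G) ⊓ N : Subgroup G) := by
  have h1 : (Subgroup.centralizer ({x} : Set N)).map N.subtype =
      Subgroup.centralizer ({(x : G)} : Set G) ⊓ N := by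
    ext g
    rw [Subgroup.mem_map, Subgroup.mem_inf, Subgroup.mem_centralizer_singleton_iff]
    constructor
    · rintro ⟨y, hy, rfl⟩
      rw [Subgroup.mem_centralizer_singleton_iff] at hy
      exact ⟨congrArg Subtype.val hy, y.2⟩
    · rintro ⟨h2, h3⟩
      refine ⟨⟨g, h3⟩, ?_, rfl⟩
      rw [Subgroup.mem_centralizer_singleton_iff]
      exact Subtype.ext h2
  rw [← h1, Subgroup.card_map_of_injective N.subtype_injective]

/-- the irreducible representations over `b` are not traces -/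
theorem npj_of (hinv : InvStmt) (hF : GoodF ℓ F) {b : N → F} (hblk : IsBlk b) (hdz : ¬ DZ ℓ b)
    (k : ℕ) (τ : N →* Matrix (Fin k) (Fin k) F) (hτ : IsIrr τ) (hτb : ev τ b = 1)
    (ψ : Matrix (Fin k) (Fin k) F) : ∑ᶠ n : N, τ n * ψ * τ n⁻¹ ≠ 1 := by
  intro h1
  have hchar := hF.char
  apply hdz
  -- the matrix comes from the group ring
  obtain ⟨a, ha⟩ : ∃ a : N → F, ev τ a = ψ := by
    have h2 := (H20.lift_surjective τ).2 hτ.2 ψ
    obtain ⟨y, hy⟩ := h2
    obtain ⟨a, rfl⟩ := H20.toMA_surjective y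
    exact ⟨a, by rw [← H20.lift_toMA]; exact hy⟩
  have hprc := prC_trace (ℓ := ℓ) a
  have hev : ev τ (fun y => ∑ᶠ g : N, a (g⁻¹ * y * g)) = 1 := by
    rw [ev_trace_sum, ha]
    exact h1
  have hsc : ev τ (fun y => ∑ᶠ g : N, a (g⁻¹ * y * g)) = Matrix.scalar (Fin k) (1 : F) := by
    rw [hev, map_one]
  obtain ⟨u, hu, hub⟩ := hinv ℓ F hF N b _ hblk hprc.1
    (not_nil hτ one_ne_zero hsc hτb)
  have h3 := (H20.pci ℓ F hF N _ u hprc hu).2
  have h4 := (H20.pci ℓ F hF N _ b h3 hblk.1.1).1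
  rw [hub] at h4
  exact dz_of_prC h4

/-- CLD: existence of the defect group of a stable block of defect one -/
theorem cld (hinv : InvStmt) : CldStmt := by
  intro ℓ _ F _ hF G _ _ N hN b hbcl hbN hblk hdz hsmall
  classical
  have hchar := hF.char
  have hℓ : ℓ.Prime := Fact.out
  obtain ⟨n, ρ, hρ, hρb⟩ := H20.blk_rep hF hblk.1 hblk.2.1
  obtain ⟨x, hbx, w, hw, hwx⟩ := exists_class hρ hblk.1.1 hρb
  obtain ⟨u, hu, hub⟩ := hinv ℓ F hF N (fun t : N => b t) (clsum F ⊤ x) hblk (clsum_cl x)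
    (not_nil hρ hw hwx hρb)
  have hzub : mulF (clsum F ⊤ x) (mulF u (fun t : N => b t)) = fun t : N => b t := by
    rw [← mulF_assoc, ← H20.mulF_comm_of_cl hblk.1.1, hub]
  have hucl : IsCl (mulF u (fun t : N => b t)) := H20.isCl_mulF hu hblk.1.1
  set V : G → F := ext0 N (mulF u (fun t : N => b t)) with hV
  have hKV : mulF (clsum F N (x : G)) V = b := by
    rw [← ext0_clsum', hV, ← H46.ext0_mul, hzub, H46.ext0_restr hbN]
  have hVN : ∀ y, y ∉ N → V y = 0 := fun y hy => H46.ext0_of_not_mem _ hy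
  have hVi : ∀ m ∈ N, ∀ y, V (m * y * m⁻¹) = V y := fun m hm y => ext0_inv hucl hm y
  have hKi : ∀ m ∈ N, ∀ y, clsum F N (x : G) (m * y * m⁻¹) = clsum F N (x : G) y := by
    intro m hm y
    rw [← ext0_clsum']
    exact ext0_inv (clsum_cl x) hm y
  set C : Subgroup G := Subgroup.centralizer ({(x : G)} : Set G) ⊓ N with hC
  obtain ⟨P, hPC, hPp, hPidx, hPsyl⟩ := syl_exists (ℓ := ℓ) C
  have hPN : P ≤ N := hPC.trans inf_le_right
  have hxP : (x : G) ∈ Subgroup.centralizer (P : Set G) := by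
    rw [Subgroup.mem_centralizer_iff]
    intro p hp
    exact Subgroup.mem_centralizer_singleton_iff.1 (hPC hp).1
  have hcard_le : Nat.card P ≤ ℓ := by
    refine hsmall P hPN hPp fun h => hbx ?_
    have h1 := congrFun h (x : G)
    rw [H66.br_of_mem hxP] at h1
    exact h1
  have hcard : Nat.card P = ℓ := by
    obtain ⟨k, hk⟩ := IsPGroup.iff_card.1 hPp
    rcases k with _ | _ | k
    · exfalso
      apply hdz
      rw [pow_zero] at hk
      have hPbot : P = ⊥ := Subgroup.card_eq_one.1 hk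
      rw [hPbot, Subgroup.relIndex_bot_left] at hPidx
      rw [hC, ← card_cent] at hPidx
      have h1 := (H20.pci ℓ F hF N _ _ (prC_clsum (F := F) hPidx) hucl).2
      rw [hzub] at h1
      exact dz_of_prC h1
    · rw [hk, zero_add, pow_one]
    · exfalso
      rw [hk] at hcard_le
      have h1 : ℓ ^ 1 < ℓ ^ (k + 1 + 1) := Nat.pow_lt_pow_right hℓ.one_lt (by omega)
      rw [pow_one] at h1
      omega
  -- the Brauer maps
  have hbrk : ∀ Q : Subgroup G, Q ≤ N → IsPGroup ℓ Q → br Q b ≠ 0 →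
      ∃ m ∈ N, Q ≤ conjS m P := by
    intro Q hQN hQ hbr
    have h1 : br Q b = mulF (br Q (clsum F N (x : G))) (br Q V) := by
      rw [← hKV]
      exact H66.br_mulF hF hQ (fun q hq t => hKi q (hQN hq) t) (fun q hq t => hVi q (hQN hq) t)
    have h2 : br Q (clsum F N (x : G)) ≠ 0 := by
      intro h
      apply hbr
      rw [h1, h]
      funext y
      unfold mulF
      simp
    obtain ⟨y, hy⟩ := Function.ne_iff.1 h2
    have hyQ : y ∈ Subgroup.centralizer (Q : Set G) := by
      by_contra h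
      exact hy (H66.br_of_not_mem h)
    rw [H66.br_of_mem hyQ] at hy
    have hex : ∃ q ∈ N, y = q * (x : G) * q⁻¹ := by
      by_contra h
      apply hy
      unfold clsum
      rw [if_neg h]
      rfl
    obtain ⟨m, hm, rfl⟩ := hex
    have h3 : Q ≤ conjS m C := by
      rw [hC, ← centralizer_conj (x : G) m hm]
      intro q hq
      refine ⟨Subgroup.mem_centralizer_singleton_iff.2 ?_, hQN hq⟩
      exact Subgroup.mem_centralizer_iff.1 hyQ q hq
    rw [le_conjS_iff] at h3
    obtain ⟨c, hc, h4⟩ := hPsyl _ h3 (conjS_pgroup hQ)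
    refine ⟨m * c, N.mul_mem hm hc.2, ?_⟩
    rw [← conjS_mul, le_conjS_iff]
    exact h4
  have hbru : ∀ Q : Subgroup G, Q ≤ N → IsPGroup ℓ Q → br Q b ≠ 0 →
      Q = ⊥ ∨ ∃ m ∈ N, Q = conjS m P := by
    intro Q hQN hQ hbr
    obtain ⟨m, hm, h1⟩ := hbrk Q hQN hQ hbr
    have h2 : Nat.card (conjS m P) = ℓ := by rw [card_conjS, hcard]
    have h3 : Nat.card Q ∣ ℓ := by
      rw [← h2]
      exact Subgroup.card_dvd_of_le h1
    rcases (Nat.dvd_prime hℓ).1 h3 with h4 | h4
    · exact Or.inl (Subgroup.card_eq_one.1 h4)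
    · refine Or.inr ⟨m, hm, ?_⟩
      exact Subgroup.eq_of_le_of_card_ge h1 (by rw [h2, h4])
  have hPbot : P ≠ ⊥ := by
    intro h
    rw [h, Subgroup.card_bot] at hcard
    exact hℓ.one_lt.ne hcard
  -- Frattini
  have hfrat : N ⊔ Subgroup.normalizer (P : Set G) = ⊤ := by
    rw [eq_top_iff]
    intro g _
    have h1 : conjS g P ≤ N := by
      intro y hy
      rw [mem_conjS] at hy
      have h2 := hN.conj_mem _ (hPN hy) g
      have h3 : g * (g⁻¹ * y * g) * g⁻¹ = y := by group
      rwa [h3] at h2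
    have h2 : br (conjS g P) b ≠ 0 := by
      intro h
      apply hbx
      have h3 : g * (x : G) * g⁻¹ ∈ Subgroup.centralizer (conjS g P : Set G) := by
        rw [Subgroup.mem_centralizer_iff]
        intro y hy
        have hy' : g⁻¹ * y * g ∈ P := mem_conjS.1 hy
        have h4 := Subgroup.mem_centralizer_iff.1 hxP _ hy'
        calc y * (g * (x : G) * g⁻¹) = g * (g⁻¹ * y * g * x) * g⁻¹ := by group
          _ = g * (x * (g⁻¹ * y * g)) * g⁻¹ := by rw [h4]
          _ = g * x * g⁻¹ * y := by group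
      have h5 := congrFun h (g * (x : G) * g⁻¹)
      rw [H66.br_of_mem h3, hbcl] at h5
      exact h5
    rcases hbru _ h1 (conjS_pgroup hPp) h2 with h3 | ⟨m, hm, h3⟩
    · exfalso
      have h4 := card_conjS g P
      rw [h3, Subgroup.card_bot, hcard] at h4
      exact hℓ.one_lt.ne h4
    · have h4 : m⁻¹ * g ∈ Subgroup.normalizer (P : Set G) := by
        rw [mem_normalizer_iff_conjS, ← conjS_mul, h3, conjS_mul, inv_mul_cancel, conjS_one]
      have h5 : g = m * (m⁻¹ * g) := (mul_inv_cancel_left m g).symm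
      rw [h5]
      exact mul_mem (Subgroup.mem_sup_left hm) (Subgroup.mem_sup_right h4)
  -- the idempotent
  have hidem : IsIdem b := by
    refine ⟨hbcl, ?_⟩
    have h1 := hblk.1.2
    rw [← H46.ext0_restr hbN, ← H46.ext0_mul, h1]
  have hidx0 : ∀ m : ℕ, ¬ ℓ ∣ m → (m : F) ≠ 0 := by
    intro m hm h
    exact hm ((CharP.cast_eq_zero_iff F ℓ m).1 h)
  have hprj : PrjB N P b := by
    have h1 := prj_of (F := F) x.2 (P := P) (by rw [← hC]; exact hPC)
      (by rw [← hC]; exact hidx0 _ hPidx) hVN hVi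
    rw [hKV] at h1
    exact h1
  -- the normaliser
  set N₁ : Subgroup G := N ⊓ Subgroup.normalizer (P : Set G) with hN₁
  have hcentN : Subgroup.centralizer (P : Set G) ≤ Subgroup.normalizer (P : Set G) := by
    intro g hg
    rw [Subgroup.mem_normalizer_iff]
    intro p
    have h2 := Subgroup.mem_centralizer_iff.1 hg
    constructor
    · intro hp
      rw [← h2 p hp, mul_inv_cancel_right]
      exact hp
    · intro hp
      have h3 := h2 _ hp
      have h4 : g * p * g⁻¹ = p := by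
        have h5 : g * p = g * (g * p * g⁻¹) := by rw [← h3, inv_mul_cancel_right]
        exact (mul_left_cancel h5).symm
      rwa [h4] at hp
  have hbrN₁ : ∀ m ∈ Subgroup.normalizer (P : Set G), ∀ y,
      (m * y * m⁻¹ ∈ Subgroup.centralizer (P : Set G) ↔
        y ∈ Subgroup.centralizer (P : Set G)) := by
    intro m hm y
    have h1 := Subgroup.mem_normalizer_iff.1 hm
    have h2 := Subgroup.mem_normalizer_iff.1 (inv_mem hm)
    rw [Subgroup.mem_centralizer_iff, Subgroup.mem_centralizer_iff]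
    constructor
    · intro h p hp
      have h3 := h _ ((h1 p).1 hp)
      calc p * y = m⁻¹ * ((m * p * m⁻¹) * (m * y * m⁻¹)) * m := by group
        _ = m⁻¹ * ((m * y * m⁻¹) * (m * p * m⁻¹)) * m := by rw [h3]
        _ = y * p := by group
    · intro h p hp
      have h3 := h _ ((h2 p).1 hp)
      rw [inv_inv] at h3
      calc p * (m * y * m⁻¹) = m * ((m⁻¹ * p * m) * y) * m⁻¹ := by group
        _ = m * (y * (m⁻¹ * p * m)) * m⁻¹ := by rw [h3]
        _ = m * y * m⁻¹ * p := by group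
  have hbrK : br P (clsum F N (x : G)) = clsum F N₁ (x : G) := by
    funext y
    by_cases hy : y ∈ Subgroup.centralizer (P : Set G)
    · rw [H66.br_of_mem hy]
      unfold clsum
      have hiff : (∃ q ∈ N, y = q * (x : G) * q⁻¹) ↔ ∃ q ∈ N₁, y = q * (x : G) * q⁻¹ := by
        constructor
        · rintro ⟨m, hm, rfl⟩
          have h3 : P ≤ conjS m C := by
            rw [hC, ← centralizer_conj (x : G) m hm]
            intro q hq
            refine ⟨Subgroup.mem_centralizer_singleton_iff.2 ?_, hPN hq⟩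
            exact Subgroup.mem_centralizer_iff.1 hy q hq
          rw [le_conjS_iff] at h3
          obtain ⟨c, hc, h4⟩ := hPsyl _ h3 (conjS_pgroup hPp)
          have h5 : conjS m⁻¹ P = conjS c P :=
            Subgroup.eq_of_le_of_card_ge h4 (by rw [card_conjS, card_conjS])
          have h6 : conjS (m * c) P = P := by
            rw [← conjS_mul, ← h5, conjS_mul, mul_inv_cancel, conjS_one]
          refine ⟨m * c, ⟨N.mul_mem hm hc.2, mem_normalizer_iff_conjS.2 h6⟩, ?_⟩
          have h7 : c * (x : G) = x * c := Subgroup.mem_centralizer_singleton_iff.1 hc.1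
          calc m * (x : G) * m⁻¹ = m * (x * c) * c⁻¹ * m⁻¹ := by group
            _ = m * (c * x) * c⁻¹ * m⁻¹ := by rw [h7]
            _ = m * c * x * (m * c)⁻¹ := by group
        · rintro ⟨m, hm, h⟩
          exact ⟨m, hm.1, h⟩
      by_cases h : ∃ q ∈ N, y = q * (x : G) * q⁻¹
      · rw [if_pos h, if_pos (hiff.1 h)]
      · rw [if_neg h, if_neg (fun h' => h (hiff.2 h'))]
    · rw [H66.br_of_not_mem hy]
      unfold clsum
      rw [if_neg]
      rintro ⟨m, hm, rfl⟩
      exact hy ((hbrN₁ m hm.2 _).2 hxP)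
  have hprj1 : PrjB N₁ P (br P b) := by
    have hPC1 : P ≤ Subgroup.centralizer ({(x : G)} : Set G) ⊓ N₁ := by
      intro p hp
      exact ⟨(hPC hp).1, hPN hp, Subgroup.le_normalizer hp⟩
    have hC1C : Subgroup.centralizer ({(x : G)} : Set G) ⊓ N₁ ≤ C := by
      intro p hp
      exact ⟨hp.1, hp.2.1⟩
    have hidx1 : ¬ ℓ ∣ P.relIndex (Subgroup.centralizer ({(x : G)} : Set G) ⊓ N₁) := by
      intro h
      apply hPidx
      rw [← Subgroup.relIndex_mul_relIndex _ _ _ hPC1 hC1C]
      exact h.mul_right _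
    have h1 := prj_of (F := F) (N := N₁) (P := P) (x := (x : G)) (V := br P V)
      ⟨x.2, hcentN hxP⟩ hPC1 (hidx0 _ hidx1)
      (by
        intro y hy
        by_cases hyc : y ∈ Subgroup.centralizer (P : Set G)
        · rw [H66.br_of_mem hyc]
          apply hVN
          intro h
          exact hy ⟨h, hcentN hyc⟩
        · exact H66.br_of_not_mem hyc)
      (by
        intro m hm y
        by_cases hyc : y ∈ Subgroup.centralizer (P : Set G)
        · rw [H66.br_of_mem hyc, H66.br_of_mem ((hbrN₁ m hm.2 y).2 hyc)]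
          exact hVi m hm.1 y
        · rw [H66.br_of_not_mem hyc, H66.br_of_not_mem (fun h => hyc ((hbrN₁ m hm.2 y).1 h))])
    rw [← hbrK, ← H66.br_mulF hF hPp (fun q hq t => hKi q (hPN hq) t)
      (fun q hq t => hVi q (hPN hq) t), hKV] at h1
    exact h1
  refine ⟨P, ⟨hN, hcard, hPN, hidem, hbN, hfrat, hprj, hprj1, ?_⟩, ?_⟩
  · intro k τ hτ hτb ψ
    exact npj_of hinv hF hblk hdz k τ hτ hτb ψ
  · intro Q hQN hQ hbr
    rcases hbru Q hQN hQ hbr with h | ⟨m, -, h⟩
    · exact Or.inl h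
    · exact Or.inr ⟨m, h⟩

end main

end Pool.Agent.PP.D1H51
end
end -- Pool.Agent.Helper51_D1.Cld
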