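import Pool.Agent.Helper12_AWB.B133
import Pool.Agent.Helper12_AWB.B149

/-!
# Merged copies (generated) of the modules

* `Pool.Agent.Helper24_D2.Psb`
* `Pool.Agent.Helper32_KF.Cdz`
* `Pool.Agent.Helper1_K9.DZO`
* `Pool.Agent.Helper32_KF.St1`
* `Pool.Agent.Helper69_K9.Fmg`
* `Pool.Agent.Helper69_K9.Kap`
-/

set_option autoImplicit false

section -- Pool.Agent.Helper24_D2.Psb

/-!
# Part D2, module PSB: blocks modulo a central subgroup of order `ℓ`
-/

open scoped BigOperators

noncomputable section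

namespace Pool.Agent.PP.CD2.H24

open Pool.Agent.PP Pool.Agent.Helper51_AWC Pool.Agent.Helper79_WRA Pool.Agent.PP.H20

variable {F : Type} [Field F] {G H : Type} [Group G] [Finite G] [Group H] [Finite H]

/-- the map of group algebras -/
def Phi (F : Type) [Field F] (p : G →* H) : MonoidAlgebra F G →+* MonoidAlgebra F H :=
  MonoidAlgebra.mapDomainRingHom F p

omit [Finite G] [Finite H] in
theorem Phi_single (p : G →* H) (g : G) (r : F) :
    Phi F p (MonoidAlgebra.single g r) = MonoidAlgebra.single (p g) r :=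
  MonoidAlgebra.mapDomain_single

theorem Phi_toMA (p : G →* H) (a : G → F) : Phi F p (toMA a) = toMA (H75.push p a) := by
  classical
  have := Fintype.ofFinite G
  have := Fintype.ofFinite H
  rw [toMA_eq, toMA_eq, map_sum]
  simp only [Phi_single]
  rw [← Finset.sum_fiberwise Finset.univ p]
  refine Finset.sum_congr rfl fun h _ => ?_
  rw [H75.push_eq, ← Finset.sum_filter]
  have h1 : ∀ g ∈ Finset.univ.filter (fun g => p g = h), MonoidAlgebra.single (p g) (a g) =
      MonoidAlgebra.single h (a g) := fun g hg => by rw [(Finset.mem_filter.1 hg).2]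
  rw [Finset.sum_congr rfl h1]
  exact (map_sum (MonoidAlgebra.singleAddHom h) a _).symm

/-- central elements of the group -/
theorem u_comm {y : G} (hy : y ∈ Subgroup.center G) (x : MonoidAlgebra F G) :
    Commute (MonoidAlgebra.single y (1 : F)) x := by
  obtain ⟨c, rfl⟩ := toMA_surjective x
  rw [Commute, SemiconjBy, single_mul_toMA, toMA_mul_single]
  congr 1
  funext z
  congr 1
  exact (Subgroup.mem_center_iff.1 (inv_mem hy) z).symm

theorem u1_comm {y : G} (hy : y ∈ Subgroup.center G) (x : MonoidAlgebra F G) :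
    Commute (MonoidAlgebra.single y (1 : F) - 1) x :=
  (u_comm hy x).sub_left (Commute.one_left x)

/-- the kernel -/
theorem ker_Phi {p : G →* H} (hp : Function.Surjective p) {y : G} (hy : y ∈ Subgroup.center G)
    (hk : p.ker = Subgroup.zpowers y) (x : MonoidAlgebra F G) (hx : Phi F p x = 0) :
    ∃ c, x = (MonoidAlgebra.single y (1 : F) - 1) * c := by
  classical
  have := Fintype.ofFinite G
  have := Fintype.ofFinite H
  obtain ⟨a, rfl⟩ := toMA_surjective x
  have h0 : H75.push p a = 0 := by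
    apply toMA_injective
    rw [← Phi_toMA, hx, toMA_zero]
  let s : H → G := Function.surjInv hp
  have hs : ∀ h, p (s h) = h := Function.surjInv_eq hp
  have h1 : ∑ g, MonoidAlgebra.single (s (p g)) (a g) = (0 : MonoidAlgebra F G) := by
    rw [← Finset.sum_fiberwise Finset.univ p]
    refine Finset.sum_eq_zero fun h _ => ?_
    have h2 : ∀ g ∈ Finset.univ.filter (fun g => p g = h), MonoidAlgebra.single (s (p g)) (a g) =
        MonoidAlgebra.single (s h) (a g) := fun g hg => by rw [(Finset.mem_filter.1 hg).2]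
    rw [Finset.sum_congr rfl h2]
    have h3 := congrFun h0 h
    rw [H75.push_eq, ← Finset.sum_filter] at h3
    have h4 := (map_sum (MonoidAlgebra.singleAddHom (R := F) (s h)) a
      (Finset.univ.filter (fun g => p g = h))).symm
    rw [h3] at h4
    exact h4.trans (map_zero _)
  have h2 : ∀ g : G, ∃ c : MonoidAlgebra F G,
      MonoidAlgebra.single g (a g) - MonoidAlgebra.single (s (p g)) (a g) =
        (MonoidAlgebra.single y (1 : F) - 1) * c := by
    intro g
    have h3 : (s (p g))⁻¹ * g ∈ Subgroup.zpowers y := by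
      rw [← hk, MonoidHom.mem_ker, map_mul, map_inv, hs, inv_mul_cancel]
    obtain ⟨k, hk⟩ := mem_powers_iff_mem_zpowers.2 h3
    refine ⟨MonoidAlgebra.single (s (p g)) (a g) *
      ∑ i ∈ Finset.range k, MonoidAlgebra.single y (1 : F) ^ i, ?_⟩
    rw [← mul_assoc, (u1_comm hy (MonoidAlgebra.single (s (p g)) (a g))).eq, mul_assoc,
      mul_geom_sum, mul_sub, mul_one, MonoidAlgebra.single_pow, one_pow,
      MonoidAlgebra.single_mul_single, mul_one]
    have h4 : s (p g) * y ^ k = g := by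
      change y ^ k = _ at hk
      rw [hk, mul_inv_cancel_left]
    rw [h4]
  choose c hc using h2
  refine ⟨∑ g, c g, ?_⟩
  rw [Finset.mul_sum, ← Finset.sum_congr rfl (fun g _ => hc g), Finset.sum_sub_distrib, h1,
    sub_zero, toMA_eq]

theorem u1_nil {ℓ : ℕ} [Fact ℓ.Prime] [CharP F ℓ] {y : G} (hy : orderOf y = ℓ) :
    (MonoidAlgebra.single y (1 : F) - 1 : MonoidAlgebra F G) ^ ℓ = 0 := by
  have : CharP (MonoidAlgebra F G) ℓ := charP_of_injective_algebraMap
    (algebraMap F (MonoidAlgebra F G)).injective ℓ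
  rw [sub_pow_char_of_commute ℓ (Commute.one_right _), one_pow,
    MonoidAlgebra.single_pow, one_pow, ← hy, pow_orderOf_eq_one]
  exact sub_self _

theorem ker_nil {ℓ : ℕ} [Fact ℓ.Prime] [CharP F ℓ] {p : G →* H} (hp : Function.Surjective p)
    {y : G} (hy : y ∈ Subgroup.center G) (ho : orderOf y = ℓ)
    (hk : p.ker = Subgroup.zpowers y) (x : MonoidAlgebra F G) (hx : Phi F p x = 0) :
    IsNilpotent x := by
  obtain ⟨c, rfl⟩ := ker_Phi hp hy hk x hx
  refine ⟨ℓ, ?_⟩
  rw [(u1_comm hy c).mul_pow, u1_nil ho, zero_mul]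

/-- an idempotent which is central modulo the kernel is central -/
theorem central_of {ℓ : ℕ} [Fact ℓ.Prime] [CharP F ℓ] {p : G →* H} (hp : Function.Surjective p)
    {y : G} (hy : y ∈ Subgroup.center G) (ho : orderOf y = ℓ)
    (hk : p.ker = Subgroup.zpowers y) (f : MonoidAlgebra F G) (hf : f * f = f)
    (hc : ∀ z, Phi F p f * z = z * Phi F p f) (a : MonoidAlgebra F G) : f * a = a * f := by
  have key : ∀ e e' : MonoidAlgebra F G, e * e = e → e' * e' = e' →
      (∀ a, Phi F p (e * a * e') = 0) → ∀ n : ℕ, ∀ a, ∃ c,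
        e * a * e' = (MonoidAlgebra.single y (1 : F) - 1) ^ n * (e * c * e') := by
    intro e e' he he' h n
    induction n with
    | zero => exact fun a => ⟨a, by rw [pow_zero, one_mul]⟩
    | succ n ih =>
      intro a
      obtain ⟨c, hc⟩ := ker_Phi hp hy hk _ (h a)
      obtain ⟨c', hc'⟩ := ih c
      refine ⟨c', ?_⟩
      have h1 : e * a * e' = e * (e * a * e') * e' := by
        calc e * a * e' = (e * e) * a * (e' * e') := by rw [he, he']
          _ = e * (e * a * e') * e' := by simp only [mul_assoc]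
      rw [h1, hc, ← mul_assoc e, ← (u1_comm hy e).eq, mul_assoc (_ - 1) e, mul_assoc (_ - 1), hc',
        ← mul_assoc, ← pow_succ']
  have hz : ∀ e e' : MonoidAlgebra F G, e * e = e → e' * e' = e' →
      (∀ a, Phi F p (e * a * e') = 0) → ∀ a, e * a * e' = 0 := by
    intro e e' he he' h a
    obtain ⟨c, hc⟩ := key e e' he he' h ℓ a
    rw [hc, u1_nil ho, zero_mul]
  have hf1 : (1 - f) * (1 - f) = 1 - f := by
    rw [mul_sub, mul_one, sub_mul, one_mul, hf, sub_self, sub_zero]
  have h1 : f * a * (1 - f) = 0 := by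
    refine hz f (1 - f) hf hf1 (fun b => ?_) a
    rw [map_mul, map_mul, map_sub, map_one, hc, mul_assoc, mul_sub, mul_one, ← map_mul, hf,
      sub_self, mul_zero]
  have h2 : (1 - f) * a * f = 0 := by
    refine hz (1 - f) f hf1 hf (fun b => ?_) a
    rw [map_mul, map_mul, map_sub, map_one, mul_assoc, ← hc, ← mul_assoc, sub_mul, one_mul,
      ← map_mul, hf, sub_self, zero_mul]
  rw [mul_sub, mul_one, sub_eq_zero] at h1
  rw [mul_assoc, sub_mul, one_mul, sub_eq_zero, ← mul_assoc] at h2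
  rw [h1, h2]

/-- PSB -/
theorem psb : PsbStmt := by
  intro ℓ _ F _ hF G H _ _ _ _ p hp y ho hy hk e he
  have := hF.char
  refine ⟨H75.push_isIdem hp he.1, ?_, ?_⟩
  · intro h0
    apply he.2.1
    have h1 : Phi F p (toMA e) = 0 := by rw [Phi_toMA, h0, toMA_zero]
    obtain ⟨n, hn⟩ := ker_nil hp hy ho hk _ h1
    have h2 : IsIdempotentElem (toMA e) := by
      rw [IsIdempotentElem, ← toMA_mulF, he.1.2]
    apply toMA_injective
    rw [toMA_zero]
    have h3 := h2.pow_succ_eq n
    rw [pow_succ, hn, zero_mul] at h3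
    exact h3.symm
  · intro g' hg'
    have hg2 : IsIdempotentElem (toMA g') := by
      rw [IsIdempotentElem, ← toMA_mulF, hg'.2]
    have hsur : toMA g' ∈ (Phi F p).range := by
      have := Fintype.ofFinite H
      rw [toMA_eq]
      refine sum_mem fun h _ => ?_
      obtain ⟨g, rfl⟩ := hp h
      exact ⟨MonoidAlgebra.single g (g' (p g)), Phi_single p g _⟩
    obtain ⟨f, hf, hfg⟩ := exists_isIdempotentElem_eq_of_ker_isNilpotent (Phi F p)
      (fun x hx => ker_nil hp hy ho hk x hx) _ hsur hg2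
    obtain ⟨g, rfl⟩ := toMA_surjective f
    have hpg : H75.push p g = g' := by
      apply toMA_injective
      rw [← Phi_toMA, hfg]
    have hcl : IsCl g := by
      rw [Pool.Agent.PP.H20.isCl_iff]
      refine central_of hp hy ho hk _ hf ?_
      rw [hfg]
      exact (Pool.Agent.PP.H20.isCl_iff g').1 hg'.1
    have hid : IsIdem g := ⟨hcl, by
      apply toMA_injective
      rw [toMA_mulF]
      exact hf⟩
    rw [← hpg, ← H75.push_mulF]
    rcases he.2.2 g hid with h | h
    · exact Or.inl (by rw [h])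
    · exact Or.inr (by rw [h, H75.push_zero])

end Pool.Agent.PP.CD2.H24
end
end -- Pool.Agent.Helper24_D2.Psb

section -- Pool.Agent.Helper32_KF.Cdz

/-!
# Squad KF, module CDZ
-/

open scoped BigOperators

set_option linter.unusedSectionVars false

noncomputable section

namespace Pool.Agent.PP.KF.H32

open Pool.Agent.Helper51_AWC Pool.Agent.Helper79_WRA Pool.Agent.PP

variable {F A B : Type} [Field F] [Group A] [Group B] [Finite A] [Finite B]

theorem push_comp {C : Type} [Group C] [Finite C] (q : A →* C) (r : C →* B) (e : A → F) :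
    H75.push (r.comp q) e = H75.push r (H75.push q e) := by
  classical
  have := Fintype.ofFinite A
  have := Fintype.ofFinite C
  funext y
  have h1 : H75.push r (H75.push q e) y = ∑ c, H75.push q e c * (if r c = y then 1 else 0) := by
    rw [H75.push_eq]
    refine Finset.sum_congr rfl fun c _ => ?_
    split_ifs
    · rw [mul_one]
    · rw [mul_zero]
  rw [h1, H75.sum_push q e (fun c => if r c = y then 1 else 0), H75.push_eq]
  refine Finset.sum_congr rfl fun x _ => ?_
  change (if r (q x) = y then e x else 0) = _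
  split_ifs
  · rw [mul_one]
  · rw [mul_zero]

/-- a subgroup of order two is generated by an involution -/
theorem zp_of_card_two {A : Type} [Group A] (K : Subgroup A) (hK : Nat.card K = 2) :
    ∃ y : A, y ∈ K ∧ orderOf y = 2 ∧ K = Subgroup.zpowers y := by
  have : Fact (Nat.Prime 2) := ⟨Nat.prime_two⟩
  have hfin : Finite K := Nat.finite_of_card_ne_zero (by rw [hK]; norm_num)
  obtain ⟨y, hy⟩ := exists_prime_orderOf_dvd_card' 2 (G := K) (by rw [hK])
  have hy' : orderOf (y : A) = 2 := by rw [Subgroup.orderOf_coe, hy]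
  refine ⟨y, y.2, hy', ?_⟩
  symm
  apply Subgroup.eq_of_le_of_card_ge
  · rw [Subgroup.zpowers_le]
    exact y.2
  · rw [Nat.card_zpowers, hy', hK]

/-- blocks modulo a central subgroup of order two -/
theorem blk_two (hF : GoodF 2 F) (p : A →* B) (hp : Function.Surjective p)
    (hc : p.ker ≤ Subgroup.center A) (hk : Nat.card p.ker = 2) {e : A → F} (he : IsBlk e) :
    IsBlk (H75.push p e) := by
  have : Fact (Nat.Prime 2) := ⟨Nat.prime_two⟩
  obtain ⟨y, hy, ho, hz⟩ := zp_of_card_two p.ker hk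
  exact CD2.H24.psb 2 F hF A B p hp y ho (hc hy) hz e he

/-- blocks modulo a central subgroup of order four -/
theorem blk_four (hF : GoodF 2 F) (p : A →* B) (hp : Function.Surjective p)
    (hc : p.ker ≤ Subgroup.center A) (hk : Nat.card p.ker = 4) {e : A → F} (he : IsBlk e) :
    IsBlk (H75.push p e) := by
  have : Fact (Nat.Prime 2) := ⟨Nat.prime_two⟩
  obtain ⟨y, hy⟩ := exists_prime_orderOf_dvd_card' 2 (G := p.ker) (by rw [hk]; norm_num)
  have hy' : orderOf (y : A) = 2 := by rw [Subgroup.orderOf_coe, hy]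
  have hyc : (y : A) ∈ Subgroup.center A := hc y.2
  let Z : Subgroup A := Subgroup.zpowers (y : A)
  have hZc : Z ≤ Subgroup.center A := by rw [Subgroup.zpowers_le]; exact hyc
  have hZn : Z.Normal := by
    constructor
    intro n hn g
    have h1 := Subgroup.mem_center_iff.1 (hZc hn) g
    rw [h1, mul_inv_cancel_right]
    exact hn
  have hZk : Z ≤ p.ker := by rw [Subgroup.zpowers_le]; exact y.2
  let q : A →* A ⧸ Z := QuotientGroup.mk' Z
  have hq : Function.Surjective q := QuotientGroup.mk'_surjective Z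
  let r : A ⧸ Z →* B := QuotientGroup.lift Z p (fun x hx => MonoidHom.mem_ker.1 (hZk hx))
  have hrq : ∀ x, r (q x) = p x := fun x => rfl
  have hr : Function.Surjective r := by
    intro z
    obtain ⟨x, rfl⟩ := hp z
    exact ⟨q x, hrq x⟩
  have hqk : q.ker = Z := QuotientGroup.ker_mk' Z
  have hcard : Nat.card q.ker = 2 := by rw [hqk, Nat.card_zpowers, hy']
  have hrk : r.ker.comap q = p.ker := by
    ext x
    rw [Subgroup.mem_comap, MonoidHom.mem_ker, MonoidHom.mem_ker, hrq]
  have hcard2 : Nat.card r.ker = 2 := by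
    have h1 := H75.card_comap hq r.ker
    rw [hrk, hk, hcard] at h1
    omega
  have hrc : r.ker ≤ Subgroup.center (A ⧸ Z) := by
    intro z hz
    obtain ⟨x, rfl⟩ := hq z
    have hx : x ∈ p.ker := by
      rw [← hrk]
      exact hz
    rw [Subgroup.mem_center_iff]
    intro g
    obtain ⟨g, rfl⟩ := hq g
    rw [← map_mul, ← map_mul, Subgroup.mem_center_iff.1 (hc hx) g]
  have h1 : IsBlk (H75.push q e) := blk_two hF q hq (by rw [hqk]; exact hZc) hcard he
  have h2 : IsBlk (H75.push r (H75.push q e)) := blk_two hF r hr hrc hcard2 h1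
  rw [← push_comp] at h2
  exact h2

theorem prc (hF : GoodF 2 F) (p : A →* B) (hp : Function.Surjective p)
    (hc : p.ker ≤ Subgroup.center A) (hk : Nat.card p.ker = 4) {e : A → F} (he : IsCl e)
    (h8 : Bd8 e) : PrC 2 (H75.push p e) := by
  classical
  have : Fact (Nat.Prime 2) := ⟨Nat.prime_two⟩
  have := Fintype.ofFinite A
  have hchar := hF.char
  refine ⟨H75.push_isCl hp he, ?_⟩
  intro x hx
  obtain ⟨y, hy⟩ := exists_prime_orderOf_dvd_card' 2 hx
  have hy' : orderOf (y : B) = 2 := by rw [Subgroup.orderOf_coe, hy]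
  have hyx : (y : B) * x = x * (y : B) :=
    (Subgroup.mem_centralizer_singleton_iff.1 y.2)
  obtain ⟨q, hq⟩ := hp (y : B)
  have hq2 : q * q ∈ Subgroup.center A := by
    apply hc
    rw [MonoidHom.mem_ker, map_mul, hq, ← pow_two, ← hy', pow_orderOf_eq_one]
  have hno : ∀ z : A, p z = x → e z ≠ 0 → q * z * q⁻¹ ≠ z := by
    intro z hz hez hfix
    apply h8 z hez
    have h1 : (Subgroup.zpowers (y : B)).comap p ≤ Subgroup.centralizer ({z} : Set A) := by
      intro g hg
      rw [Subgroup.mem_comap, Subgroup.mem_zpowers_iff] at hg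
      obtain ⟨k, hk⟩ := hg
      rw [← hq, ← map_zpow] at hk
      have h2 : g * (q ^ k)⁻¹ ∈ Subgroup.center A := by
        apply hc
        rw [MonoidHom.mem_ker, map_mul, map_inv, hk, mul_inv_cancel]
      have h3 : g = (g * (q ^ k)⁻¹) * q ^ k := by rw [inv_mul_cancel_right]
      rw [h3]
      refine mul_mem ?_ ?_
      · exact Subgroup.center_le_centralizer _ h2
      · apply Subgroup.zpow_mem
        rw [Subgroup.mem_centralizer_singleton_iff]
        exact mul_inv_eq_iff_eq_mul.1 hfix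
    have h2 := Subgroup.card_dvd_of_le h1
    rw [H75.card_comap hp, hk, Nat.card_zpowers, hy'] at h2
    exact h2
  rw [H75.push_eq, ← Finset.sum_filter]
  apply Finset.sum_involution (fun z _ => q * z * q⁻¹)
  · intro z _
    rw [he]
    exact CharTwo.add_self_eq_zero _
  · intro z hz hez
    exact hno z (Finset.mem_filter.1 hz).2 hez
  · intro z hz
    rw [Finset.mem_filter] at hz ⊢
    refine ⟨Finset.mem_univ _, ?_⟩
    rw [map_mul, map_mul, map_inv, hz.2, hq, hyx, mul_inv_cancel_right]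
  · intro z _
    have h1 := Subgroup.mem_center_iff.1 hq2 z
    have h2 : q * (q * z * q⁻¹) * q⁻¹ = (q * q) * z * (q * q)⁻¹ := by
      rw [mul_inv_rev]
      simp only [mul_assoc]
    rw [h2, ← h1, mul_inv_cancel_right]

theorem rk_le_one {e : B → F} (h : ∀ z : B → F, IsCl z → ∃ w : F, mulF z e = w • e) :
    rk e (cfs F B) ≤ 1 := by
  classical
  have := Fintype.ofFinite B
  have hle : (cfs F B).map (actL e) ≤ Submodule.span F {fun x : B => e x⁻¹} := by
    rintro _ ⟨f, hf, rfl⟩
    have hz : IsCl (fun y : B => f y⁻¹) := by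
      intro x y
      change f (y * x * y⁻¹)⁻¹ = f x⁻¹
      have h1 : (y * x * y⁻¹)⁻¹ = y * x⁻¹ * y⁻¹ := by group
      rw [h1]
      exact hf _ _
    obtain ⟨w, hw⟩ := h _ hz
    rw [Submodule.mem_span_singleton]
    refine ⟨w, ?_⟩
    funext x
    change w * e x⁻¹ = actF e f x
    have h1 : mulF (fun y : B => f y⁻¹) e x⁻¹ = w * e x⁻¹ := congrFun hw x⁻¹
    rw [← h1]
    unfold mulF actF
    rw [finsum_eq_sum_of_fintype, finsum_eq_sum_of_fintype,
      ← Equiv.sum_comp ((Equiv.inv B).trans (Equiv.mulLeft x⁻¹))]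
    refine Finset.sum_congr rfl fun t _ => ?_
    change f (x⁻¹ * t⁻¹)⁻¹ * e ((x⁻¹ * t⁻¹)⁻¹ * x⁻¹) = e t * f (t * x)
    have h2 : (x⁻¹ * t⁻¹)⁻¹ = t * x := by group
    rw [h2, mul_inv_cancel_right, mul_comm]
  unfold rk
  refine (Submodule.finrank_mono hle).trans ?_
  exact (finrank_span_le_card _).trans (by simp)

theorem cdz : CdzStmt := by
  intro F _ hF A B _ _ _ _ p hp hc hk e he h8
  exact rk_le_one (H20.matS 2 F hF B (H75.push p e)
    ⟨blk_four hF p hp hc hk he, prc hF p hp hc hk he.1.1 h8⟩).2.2.2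

end Pool.Agent.PP.KF.H32
end
end -- Pool.Agent.Helper32_KF.Cdz

section -- Pool.Agent.Helper1_K9.DZO

/-!
# Squad K9, module DZO: blocks of defect zero
-/

open scoped BigOperators

noncomputable section

namespace Pool.Agent.PP.K9.H1

open Pool.Agent.Helper51_AWC Pool.Agent.Helper79_WRA Pool.Agent.PP Pool.Agent.PP.KF

attribute [local instance] Ideal.Quotient.field

/-- If every good subgroup of `e` is trivial then `e` vanishes at the elements whose centraliser
has order divisible by `ℓ`. -/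
theorem prc {F G : Type} [Field F] [Group G] [Finite G] {ℓ : ℕ} [Fact ℓ.Prime] {e : G → F}
    (he : IsCl e) (h : ∀ Q : Subgroup G, IsPGroup ℓ Q → Gd e Q → Q = ⊥) : PrC ℓ e := by
  refine ⟨he, ?_⟩
  intro x hx
  by_contra hne
  obtain ⟨y, hy⟩ := exists_prime_orderOf_dvd_card' ℓ hx
  have hy' : orderOf (y : G) = ℓ := by rw [Subgroup.orderOf_coe, hy]
  have hyx : (y : G) * x = x * (y : G) := Subgroup.mem_centralizer_singleton_iff.1 y.2
  have hpg : IsPGroup ℓ (Subgroup.zpowers (y : G)) := by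
    apply IsPGroup.of_card (n := 1)
    rw [Nat.card_zpowers, hy', pow_one]
  have hgd : Gd e (Subgroup.zpowers (y : G)) := by
    refine ⟨x, ?_, hne⟩
    rw [Subgroup.mem_centralizer_iff]
    intro g hg
    obtain ⟨k, rfl⟩ := Subgroup.mem_zpowers_iff.1 hg
    exact ((show Commute (y : G) x from hyx).zpow_left k).eq
  have h1 := h _ hpg hgd
  rw [Subgroup.zpowers_eq_bot] at h1
  rw [h1, orderOf_one] at hy'
  exact (Fact.out : ℓ.Prime).one_lt.ne hy'

theorem dzo (wbo : WboStmt) : DzoStmt := by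
  intro ℓ hℓ M hM hlM G _ _ e he h
  have hF : GoodF ℓ (FF M) := H50.fld ℓ hℓ.out M hlM
  have hrk : rk e (cfs (FF M) G) ≤ 1 :=
    H32.rk_le_one (H20.matS ℓ (FF M) hF G e ⟨he, prc he.1.1 h⟩).2.2.2
  have hnc : rk e (cfs (FF M) G) = (IrrE M e).ncard := H50.chp ℓ hℓ.out M hlM G e he.1
  obtain ⟨κ, hκ, hκ1⟩ := H50.exists_irr_res he.1 he.2.1
  have hmem : κ ∈ IrrE M e := ⟨hκ, hκ1⟩
  have := Fintype.ofFinite G
  have hfin : (IrrE M e).Finite := irr_finite'.subset fun χ hχ => hχ.1
  have heq : IrrE M e = {κ} := by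
    have h1 : (IrrE M e).ncard ≤ 1 := by rw [← hnc]; exact hrk
    have h2 := (Set.ncard_le_one hfin).1 h1
    ext θ
    exact ⟨fun hθ => h2 θ hθ κ hmem, fun hθ => by rw [Set.mem_singleton_iff.1 hθ]; exact hmem⟩
  refine ⟨κ, heq, ⟨fun x y => irr_conj hκ _ _, ?_⟩⟩
  intro x hx
  have h1 := wbo ℓ M hlM G e he.1 1 x (by
    unfold Reg
    rw [orderOf_one]
    exact Nat.coprime_one_left ℓ) hx
  rw [heq, finsum_mem_singleton, inv_one] at h1
  exact (mul_eq_zero.1 h1).resolve_left (irr_one_ne hκ)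

end Pool.Agent.PP.K9.H1
end
end -- Pool.Agent.Helper1_K9.DZO

section -- Pool.Agent.Helper32_KF.St1

/-!
# Squad KF, module ST1
-/

open scoped BigOperators

set_option linter.unusedSectionVars false

noncomputable section

namespace Pool.Agent.PP.KF.H32

open Pool.Agent.Helper51_AWC Pool.Agent.Helper79_WRA Pool.Agent.PP

/-! ## Signs -/

theorem comb {ι : Type*} (S : Finset ι) (d : ι → ℕ) (eu ev : ι → ℤ)
    (hd : ∀ i ∈ S, 0 < d i) (hu : ∀ i ∈ S, eu i = 1 ∨ eu i = -1)
    (hv : ∀ i ∈ S, ev i = 1 ∨ ev i = -1) (h4 : S.card ≤ 4) (hne : S.Nonempty)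
    (h1 : ∑ i ∈ S, (d i : ℤ) ^ 2 * eu i = 0) (h2 : ∑ i ∈ S, (d i : ℤ) ^ 2 * ev i = 0)
    (h3 : ∑ i ∈ S, (d i : ℤ) ^ 2 * (eu i * ev i) = 0) :
    S.card = 4 ∧ ∃ a : ℕ, (∀ i ∈ S, d i = a) ∧ ∃ i ∈ S, eu i = 1 ∧ ev i = 1 := by
  classical
  set T : ℤ := ∑ i ∈ S, (d i : ℤ) ^ 2 with hT
  have hT0 : 0 < T := by
    obtain ⟨i, hi⟩ := hne
    refine Finset.sum_pos' (fun j _ => sq_nonneg _) ⟨i, hi, ?_⟩
    have := hd i hi
    positivity
  let Fs : ℤ → ℤ → Finset ι := fun s t => S.filter (fun i => eu i = s ∧ ev i = t)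
  have key : ∀ s t : ℤ, (s = 1 ∨ s = -1) → (t = 1 ∨ t = -1) →
      4 * ∑ i ∈ Fs s t, (d i : ℤ) ^ 2 = T := by
    intro s t hs ht
    have e1 : ∀ i ∈ S, 4 * (if eu i = s ∧ ev i = t then (d i : ℤ) ^ 2 else 0) =
        (d i : ℤ) ^ 2 + s * ((d i : ℤ) ^ 2 * eu i) + t * ((d i : ℤ) ^ 2 * ev i) +
          s * t * ((d i : ℤ) ^ 2 * (eu i * ev i)) := by
      intro i hi
      rcases hu i hi with h | h <;> rcases hv i hi with h' | h' <;>
        rcases hs with rfl | rfl <;> rcases ht with rfl | rfl <;> rw [h, h'] <;> norm_num <;> ring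
    rw [Finset.sum_filter, Finset.mul_sum, Finset.sum_congr rfl e1, Finset.sum_add_distrib,
      Finset.sum_add_distrib, Finset.sum_add_distrib, ← Finset.mul_sum, ← Finset.mul_sum,
      ← Finset.mul_sum, h1, h2, h3]
    ring
  have hne' : ∀ s t : ℤ, (s = 1 ∨ s = -1) → (t = 1 ∨ t = -1) → 1 ≤ (Fs s t).card := by
    intro s t hs ht
    rw [Nat.one_le_iff_ne_zero]
    intro h
    have h5 := key s t hs ht
    rw [Finset.card_eq_zero.1 h, Finset.sum_empty] at h5
    omega
  have hcard : S.card = (Fs 1 1).card + (Fs 1 (-1)).card + (Fs (-1) 1).card +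
      (Fs (-1) (-1)).card := by
    rw [Finset.card_filter, Finset.card_filter, Finset.card_filter, Finset.card_filter,
      ← Finset.sum_add_distrib, ← Finset.sum_add_distrib, ← Finset.sum_add_distrib,
      Finset.card_eq_sum_ones]
    refine Finset.sum_congr rfl fun i hi => ?_
    rcases hu i hi with h | h <;> rcases hv i hi with h' | h' <;> rw [h, h'] <;> norm_num
  have c1 := hne' 1 1 (Or.inl rfl) (Or.inl rfl)
  have c2 := hne' 1 (-1) (Or.inl rfl) (Or.inr rfl)
  have c3 := hne' (-1) 1 (Or.inr rfl) (Or.inl rfl)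
  have c4 := hne' (-1) (-1) (Or.inr rfl) (Or.inr rfl)
  have hc1 : ∀ s t : ℤ, (s = 1 ∨ s = -1) → (t = 1 ∨ t = -1) → (Fs s t).card = 1 := by
    intro s t hs ht
    rcases hs with rfl | rfl <;> rcases ht with rfl | rfl <;> omega
  have hsq : ∀ i ∈ S, 4 * (d i : ℤ) ^ 2 = T := by
    intro i hi
    have h5 := key (eu i) (ev i) (hu i hi) (hv i hi)
    have h6 : i ∈ Fs (eu i) (ev i) := Finset.mem_filter.2 ⟨hi, rfl, rfl⟩
    obtain ⟨j, hj⟩ := Finset.card_eq_one.1 (hc1 (eu i) (ev i) (hu i hi) (hv i hi))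
    rw [hj, Finset.mem_singleton] at h6
    rw [hj, Finset.sum_singleton, ← h6] at h5
    exact h5
  refine ⟨by omega, ?_⟩
  obtain ⟨j, hj⟩ := Finset.card_pos.1 (by omega : 0 < (Fs 1 1).card)
  obtain ⟨hjS, hj1, hj2⟩ := Finset.mem_filter.1 hj
  refine ⟨d j, ?_, j, hjS, hj1, hj2⟩
  intro i hi
  have h5 := hsq i hi
  have h6 := hsq j hjS
  have h7 : (d i : ℤ) ^ 2 = (d j : ℤ) ^ 2 := by omega
  have h8 : (d i : ℤ) = (d j : ℤ) := by
    have a1 : (0 : ℤ) ≤ d i := Int.natCast_nonneg _
    have a2 : (0 : ℤ) ≤ d j := Int.natCast_nonneg _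
    exact (sq_eq_sq₀ a1 a2).1 h7
  exact_mod_cast h8

/-! ## Characters at central elements -/

section cent

variable {H : Type} [Group H]

theorem central_scalar {n : ℕ} (ρ : Representation ℂ H (Fin n → ℂ)) (hρ : ρ.IsIrreducible)
    {z : H} (hz : z ∈ Subgroup.center H) :
    ρ z = (ρ.character z / ρ.character 1) • LinearMap.id := by
  obtain ⟨c, hc⟩ := schur_scalar ρ (ρ z) (fun g => by
    have h1 : ρ z * ρ g = ρ g * ρ z := by
      rw [← map_mul, ← map_mul, Subgroup.mem_center_iff.1 hz g]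
    exact h1)
  have h1 : ρ.character 1 ≠ 0 := irr_one_ne ⟨n, ρ, hρ, rfl⟩
  have h2 : ρ.character z = c * ρ.character 1 := by
    have h3 : LinearMap.trace ℂ (Fin n → ℂ) (ρ z) =
        c * LinearMap.trace ℂ (Fin n → ℂ) LinearMap.id := by
      rw [hc, map_smul, smul_eq_mul]
    have h4 : ρ.character 1 = LinearMap.trace ℂ (Fin n → ℂ) LinearMap.id := by
      rw [Representation.character, map_one]; rfl
    rw [h4]
    exact h3
  rw [h2, mul_div_assoc, div_self h1, mul_one]
  exact hc

theorem central_mul {χ : H → ℂ} (hχ : χ ∈ Irr H) {z : H} (hz : z ∈ Subgroup.center H) (x : H) :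
    χ (z * x) = χ z / χ 1 * χ x := by
  obtain ⟨n, ρ, hρ, rfl⟩ := hχ
  have h1 := central_scalar ρ hρ hz
  have h2 : ρ.character (z * x) = LinearMap.trace ℂ (Fin n → ℂ) (ρ z * ρ x) := by
    rw [← map_mul]; rfl
  rw [h2, h1, smul_mul_assoc, map_smul, smul_eq_mul]
  rfl

/-- the sign of a central involution -/
theorem sign {χ : H → ℂ} (hχ : χ ∈ Irr H) {z : H} (hz : z ∈ Subgroup.center H)
    (h2 : z * z = 1) : ∃ s : ℤ, (s = 1 ∨ s = -1) ∧ χ z / χ 1 = s := by
  have h1 : χ 1 ≠ 0 := irr_one_ne hχ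
  have h3 := central_mul hχ hz z
  rw [h2] at h3
  have h4 : (χ z / χ 1) ^ 2 = 1 := by
    rw [div_pow, div_eq_one_iff_eq (pow_ne_zero 2 h1)]
    field_simp at h3
    exact h3.symm
  rcases mul_self_eq_one_iff.1 ((pow_two _).symm.trans h4) with h | h
  · exact ⟨1, Or.inl rfl, by rw [h]; norm_num⟩
  · exact ⟨-1, Or.inr rfl, by rw [h]; norm_num⟩

end cent

/-! ## The quotient -/

section quot

variable {A B : Type} [Group A] [Finite A] [Group B] [Finite B]

theorem push_one (p : A →* B) (hp : Function.Surjective p) (y : B) :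
    H75.push p (fun _ => (1 : ℂ)) y = Nat.card p.ker := by
  classical
  have := Fintype.ofFinite A
  have := Fintype.ofFinite B
  obtain ⟨a, rfl⟩ := hp y
  rw [H75.push_eq, ← Finset.sum_filter, Finset.sum_const, nsmul_eq_mul, mul_one,
    Nat.card_eq_fintype_card]
  congr 1
  rw [Fintype.card_subtype]
  refine Finset.card_bij (fun x _ => x * a⁻¹) ?_ ?_ ?_
  · intro x hx
    rw [Finset.mem_filter] at hx ⊢
    refine ⟨Finset.mem_univ _, ?_⟩
    rw [MonoidHom.mem_ker, map_mul, map_inv, hx.2, mul_inv_cancel]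
  · intro x _ y _ h
    exact mul_right_cancel h
  · intro x hx
    rw [Finset.mem_filter] at hx
    refine ⟨x * a, ?_, mul_inv_cancel_right _ _⟩
    rw [Finset.mem_filter]
    refine ⟨Finset.mem_univ _, ?_⟩
    rw [map_mul, MonoidHom.mem_ker.1 hx.2, one_mul]

/-- characters of the quotient -/
theorem descend (p : A →* B) (hp : Function.Surjective p) {χ : A → ℂ} (hχ : χ ∈ Irr A)
    (hc : p.ker ≤ Subgroup.center A) (h1 : ∀ z ∈ p.ker, χ z = χ 1) :
    ∃ χ' ∈ Irr B, ∀ x, χ' (p x) = χ x := by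
  classical
  have := Fintype.ofFinite A
  have := Fintype.ofFinite B
  obtain ⟨n, ρ, hρ, rfl⟩ := hχ
  have h0 : ρ.character 1 ≠ 0 := irr_one_ne ⟨n, ρ, hρ, rfl⟩
  have htriv : ∀ z ∈ p.ker, ρ z = 1 := by
    intro z hz
    rw [central_scalar ρ hρ (hc hz), h1 z hz, div_self h0, one_smul]
    rfl
  have hkey : ∀ x x', p x = p x' → ρ x = ρ x' := by
    intro x x' h
    have h1 : x'⁻¹ * x ∈ p.ker := by
      rw [MonoidHom.mem_ker, map_mul, map_inv, h, inv_mul_cancel]
    have h2 := htriv _ h1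
    calc ρ x = ρ (x' * (x'⁻¹ * x)) := by rw [mul_inv_cancel_left]
      _ = ρ x' := by rw [map_mul, h2, mul_one]
  let s : B → A := Function.surjInv hp
  have hs : ∀ y, p (s y) = y := Function.surjInv_eq hp
  let σ : Representation ℂ B (Fin n → ℂ) :=
    { toFun := fun y => ρ (s y)
      map_one' := by
        change ρ (s 1) = 1
        rw [← map_one ρ]
        apply hkey
        rw [hs, map_one]
      map_mul' := fun y z => by
        change ρ (s (y * z)) = ρ (s y) * ρ (s z)
        rw [← map_mul]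
        apply hkey
        rw [hs, map_mul, hs, hs] }
  have hσ : ∀ x, σ (p x) = ρ x := fun x => hkey _ _ (hs _)
  have hch : ∀ x, σ.character (p x) = ρ.character x := by
    intro x
    change LinearMap.trace ℂ (Fin n → ℂ) (σ (p x)) = LinearMap.trace ℂ (Fin n → ℂ) (ρ x)
    rw [hσ]
  refine ⟨σ.character, ?_, hch⟩
  apply mem_Irr_of_norm
  have h2 := irr_orth_self (χ := ρ.character) ⟨n, ρ, hρ, rfl⟩
  have h3 := H75.sum_push p (fun _ => (1 : ℂ)) (fun y => σ.character y * σ.character y⁻¹)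
  have h4 : ∀ y, H75.push p (fun _ => (1 : ℂ)) y * (σ.character y * σ.character y⁻¹) =
      (Nat.card p.ker : ℂ) * (σ.character y * σ.character y⁻¹) := fun y => by rw [push_one p hp]
  have h5 : ∀ x, (1 : ℂ) * (σ.character (p x) * σ.character (p x)⁻¹) =
      ρ.character x * ρ.character x⁻¹ := fun x => by rw [one_mul, ← map_inv, hch, hch]
  rw [Finset.sum_congr rfl (fun y _ => h4 y), ← Finset.mul_sum,
    Finset.sum_congr rfl (fun x _ => h5 x), h2] at h3
  have h6 : (Fintype.card A : ℂ) = Nat.card p.ker * Fintype.card B := by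
    have h7 := H75.card_comap hp ⊤
    rw [Subgroup.comap_top, Subgroup.card_top, Subgroup.card_top] at h7
    rw [← Nat.card_eq_fintype_card, ← Nat.card_eq_fintype_card, h7]
    push_cast
    ring
  rw [h6] at h3
  have h8 : (Nat.card p.ker : ℂ) ≠ 0 := by exact_mod_cast Nat.card_pos.ne'
  exact mul_left_cancel₀ h8 h3

/-- the degree of an irreducible character divides the order of the group -/
theorem codeg_int {χ : B → ℂ} (hχ : χ ∈ Irr B) : IsIntegral ℤ ((Nat.card B : ℂ) / χ 1) := by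
  classical
  have := Fintype.ofFinite B
  have := Fintype.ofFinite (ConjClasses B)
  rw [Nat.card_eq_fintype_card, codeg_eq hχ]
  exact IsIntegral.sum _ fun K _ =>
    (omega_integral (MonoidHom.id B) hχ _).mul (irr_integral hχ _)

end quot

/-- the group generated by two central involutions -/
theorem four {H : Type} [Group H] [Finite H] {u v : H} (hu : Inv2 u) (hv : Inv2 v) (huv : u ≠ v)
    (huc : u ∈ Subgroup.center H) (hvc : v ∈ Subgroup.center H) :
    ∃ (C B : Type) (_ : Group C) (_ : Finite C) (_ : Group B) (_ : Finite B) (q : H →* C)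
      (r : C →* B), Function.Surjective q ∧ Function.Surjective r ∧
      q.ker ≤ Subgroup.center H ∧ r.ker ≤ Subgroup.center C ∧
      (r.comp q).ker ≤ Subgroup.center H ∧ Nat.card q.ker = 2 ∧ Nat.card r.ker = 2 ∧
      Nat.card (r.comp q).ker = 4 ∧
      ∀ z ∈ (r.comp q).ker, z = 1 ∨ z = u ∨ z = v ∨ z = u * v := by
  classical
  have hou : orderOf u = 2 := orderOf_eq_prime (by rw [pow_two]; exact hu.sq) hu.ne
  have hzu : ∀ z ∈ Subgroup.zpowers u, z = 1 ∨ z = u := by
    intro z hz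
    obtain ⟨k, rfl⟩ := (isOfFinOrder_of_finite u).mem_powers_iff_mem_zpowers.2 hz
    have h1 : u ^ k = u ^ (k % 2) := by
      rw [← hou]
      exact (pow_mod_orderOf u k).symm
    change u ^ k = 1 ∨ u ^ k = u
    rw [h1]
    rcases Nat.mod_two_eq_zero_or_one k with h | h
    · left
      rw [h, pow_zero]
    · right
      rw [h, pow_one]
  let Z : Subgroup H := Subgroup.zpowers u
  have hZc : Z ≤ Subgroup.center H := by rw [Subgroup.zpowers_le]; exact huc
  have hZn : Z.Normal := by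
    constructor
    intro n hn g
    rw [Subgroup.mem_center_iff.1 (hZc hn) g, mul_inv_cancel_right]
    exact hn
  let q : H →* H ⧸ Z := QuotientGroup.mk' Z
  have hq : Function.Surjective q := QuotientGroup.mk'_surjective Z
  have hqk : q.ker = Z := QuotientGroup.ker_mk' Z
  have hqv2 : q v * q v = 1 := by rw [← map_mul, hv.sq, map_one]
  have hqv1 : q v ≠ 1 := by
    intro h
    have h1 : v ∈ q.ker := MonoidHom.mem_ker.2 h
    rw [hqk] at h1
    rcases hzu v h1 with h2 | h2
    · exact hv.ne h2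
    · exact huv h2.symm
  have hov : orderOf (q v) = 2 := orderOf_eq_prime (by rw [pow_two]; exact hqv2) hqv1
  have hqvc : q v ∈ Subgroup.center (H ⧸ Z) := by
    rw [Subgroup.mem_center_iff]
    intro g
    obtain ⟨g, rfl⟩ := hq g
    rw [← map_mul, ← map_mul, Subgroup.mem_center_iff.1 hvc g]
  let Y : Subgroup (H ⧸ Z) := Subgroup.zpowers (q v)
  have hYc : Y ≤ Subgroup.center (H ⧸ Z) := by rw [Subgroup.zpowers_le]; exact hqvc
  have hYn : Y.Normal := by
    constructor
    intro n hn g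
    rw [Subgroup.mem_center_iff.1 (hYc hn) g, mul_inv_cancel_right]
    exact hn
  let r : H ⧸ Z →* (H ⧸ Z) ⧸ Y := QuotientGroup.mk' Y
  have hr : Function.Surjective r := QuotientGroup.mk'_surjective Y
  have hrk : r.ker = Y := QuotientGroup.ker_mk' Y
  have hk : (r.comp q).ker = r.ker.comap q := by
    ext x
    rfl
  have hmem : ∀ z ∈ (r.comp q).ker, z = 1 ∨ z = u ∨ z = v ∨ z = u * v := by
    intro z hz
    rw [hk, Subgroup.mem_comap, hrk] at hz
    obtain ⟨k, hk⟩ := (isOfFinOrder_of_finite (q v)).mem_powers_iff_mem_zpowers.2 hz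
    have h1 : (q v) ^ k = (q v) ^ (k % 2) := by
      rw [← hov]
      exact (pow_mod_orderOf (q v) k).symm
    change (q v) ^ k = q z at hk
    rw [h1] at hk
    rcases Nat.mod_two_eq_zero_or_one k with h | h
    · rw [h, pow_zero] at hk
      have h2 : z ∈ q.ker := MonoidHom.mem_ker.2 hk.symm
      rw [hqk] at h2
      rcases hzu z h2 with h3 | h3
      · exact Or.inl h3
      · exact Or.inr (Or.inl h3)
    · rw [h, pow_one] at hk
      have h2 : z * v⁻¹ ∈ q.ker := by
        rw [MonoidHom.mem_ker, map_mul, map_inv, hk, mul_inv_cancel]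
      rw [hqk] at h2
      rcases hzu _ h2 with h3 | h3
      · exact Or.inr (Or.inr (Or.inl (mul_inv_eq_one.1 h3)))
      · exact Or.inr (Or.inr (Or.inr (mul_inv_eq_iff_eq_mul.1 h3)))
  refine ⟨H ⧸ Z, (H ⧸ Z) ⧸ Y, inferInstance, inferInstance, inferInstance, inferInstance, q, r,
    hq, hr, by rw [hqk]; exact hZc, by rw [hrk]; exact hYc, ?_, ?_, ?_, ?_, hmem⟩
  · intro z hz
    rcases hmem z hz with rfl | rfl | rfl | rfl
    · exact one_mem _
    · exact huc
    · exact hvc
    · exact mul_mem huc hvc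
  · rw [hqk, Nat.card_zpowers, hou]
  · rw [hrk, Nat.card_zpowers, hov]
  · rw [hk, H75.card_comap hq, hqk, hrk, Nat.card_zpowers, Nat.card_zpowers, hou, hov]

theorem st1 (cqu : CquStmt) (cdz : CdzStmt) (lin : LinStmt) (hgt : HgtStmt) : St1Stmt := by
  classical
  intro M _ hM2 H _ _ u v hu hv huv huc hvc b hb h8
  let _ : Field (FF M) := Ideal.Quotient.field M
  have hF : GoodF 2 (FF M) := H50.fld 2 Nat.prime_two M (by exact_mod_cast hM2)
  have := Fintype.ofFinite H
  have hfin : (IrrE M b).Finite := irr_finite'.subset (fun χ h => h.1)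
  obtain ⟨C, B, _, _, _, _, q, r, hq, hr, hqc, hrc, hpc, hq2, hr2, hp4, hmem⟩ :=
    four hu hv huv huc hvc
  have hp : Function.Surjective (r.comp q) := hr.comp hq
  -- at most four characters
  have hle4 : (IrrE M b).ncard ≤ 4 := by
    have e0 : rk b (cfs (FF M) H) = (IrrE M b).ncard := H50.chp_main hb.1
    have e1 := cqu (FF M) hF H C q hq hqc hq2 b hb.1
    have e2 := cqu (FF M) hF C B r hr hrc hr2 (H75.push q b) (H75.push_isIdem hq hb.1)
    rw [← push_comp] at e2
    have e3 := cdz (FF M) hF H B (r.comp q) hp hpc hp4 b hb h8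
    omega
  -- the degrees
  have hdeg : ∀ χ : H → ℂ, ∃ d : ℕ, χ ∈ IrrE M b → 0 < d ∧ χ 1 = d := by
    intro χ
    by_cases h : χ ∈ IrrE M b
    · obtain ⟨d, h1, h2⟩ := irr_one h.1
      exact ⟨d, fun _ => ⟨h1, h2⟩⟩
    · exact ⟨0, fun h' => absurd h' h⟩
  choose d hd using hdeg
  have hsg : ∀ z : H, z ∈ Subgroup.center H → z * z = 1 → ∀ χ : H → ℂ, ∃ s : ℤ,
      χ ∈ IrrE M b → (s = 1 ∨ s = -1) ∧ χ z / χ 1 = s := by
    intro z hz h2 χ
    by_cases h : χ ∈ IrrE M b
    · obtain ⟨s, h1, h2⟩ := sign h.1 hz h2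
      exact ⟨s, fun _ => ⟨h1, h2⟩⟩
    · exact ⟨0, fun h' => absurd h' h⟩
  choose eu heu using hsg u huc hu.sq
  choose ev hev using hsg v hvc hv.sq
  have huvI : Inv2 (u * v) := by
    constructor
    · have h1 : u * v * (u * v) = (u * u) * (v * v) := by
        rw [mul_assoc, ← mul_assoc v u v, Subgroup.mem_center_iff.1 huc v]
        simp only [mul_assoc]
      rw [h1, hu.sq, hv.sq, one_mul]
    · intro h
      apply huv
      rw [mul_eq_one_iff_eq_inv] at h
      rw [h]
      exact inv_eq_of_mul_eq_one_right hv.sq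
  have hsum : ∀ z : H, Inv2 z → ∑ χ ∈ hfin.toFinset, χ 1 * χ z = 0 := by
    intro z hz
    have h1 := lin M hM2 H b hb.1 z hz
    have hzi : z⁻¹ = z := inv_eq_of_mul_eq_one_right hz.sq
    have h2 : (Nat.card H : ℂ)⁻¹ * ∑ᶠ χ ∈ IrrE M b, χ 1 * χ z⁻¹ = 0 := h1
    rw [hzi, mul_eq_zero, inv_eq_zero] at h2
    rcases h2 with h2 | h2
    · exact absurd h2 (by exact_mod_cast Nat.card_pos.ne')
    · rw [finsum_mem_eq_finite_toFinset_sum _ hfin] at h2
      exact h2
  have hS : ∀ χ ∈ hfin.toFinset, χ ∈ IrrE M b := fun χ h => (Set.Finite.mem_toFinset hfin).1 h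
  have hval : ∀ χ ∈ IrrE M b, χ u = (d χ : ℂ) * eu χ ∧ χ v = (d χ : ℂ) * ev χ ∧
      χ (u * v) = (d χ : ℂ) * (eu χ * ev χ) := by
    intro χ h
    have h1 : χ 1 ≠ 0 := irr_one_ne h.1
    have a1 := (heu χ h).2
    have a2 := (hev χ h).2
    rw [div_eq_iff h1, (hd χ h).2] at a1 a2
    refine ⟨by rw [a1]; ring, by rw [a2]; ring, ?_⟩
    rw [central_mul h.1 huc, (heu χ h).2, a2]
    ring
  have k1 : ∑ χ ∈ hfin.toFinset, (d χ : ℤ) ^ 2 * eu χ = 0 := by
    have h1 := hsum u hu
    rw [Finset.sum_congr rfl (fun χ hχ => by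
      rw [(hd χ (hS χ hχ)).2, (hval χ (hS χ hχ)).1] :
      ∀ χ ∈ hfin.toFinset, χ 1 * χ u = (d χ : ℂ) * ((d χ : ℂ) * eu χ))] at h1
    have h2 : ((∑ χ ∈ hfin.toFinset, (d χ : ℤ) ^ 2 * eu χ : ℤ) : ℂ) = 0 := by
      push_cast
      rw [← h1]
      exact Finset.sum_congr rfl fun χ _ => by ring
    exact_mod_cast h2
  have k2 : ∑ χ ∈ hfin.toFinset, (d χ : ℤ) ^ 2 * ev χ = 0 := by
    have h1 := hsum v hv
    rw [Finset.sum_congr rfl (fun χ hχ => by
      rw [(hd χ (hS χ hχ)).2, (hval χ (hS χ hχ)).2.1] :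
      ∀ χ ∈ hfin.toFinset, χ 1 * χ v = (d χ : ℂ) * ((d χ : ℂ) * ev χ))] at h1
    have h2 : ((∑ χ ∈ hfin.toFinset, (d χ : ℤ) ^ 2 * ev χ : ℤ) : ℂ) = 0 := by
      push_cast
      rw [← h1]
      exact Finset.sum_congr rfl fun χ _ => by ring
    exact_mod_cast h2
  have k3 : ∑ χ ∈ hfin.toFinset, (d χ : ℤ) ^ 2 * (eu χ * ev χ) = 0 := by
    have h1 := hsum (u * v) huvI
    rw [Finset.sum_congr rfl (fun χ hχ => by
      rw [(hd χ (hS χ hχ)).2, (hval χ (hS χ hχ)).2.2] :
      ∀ χ ∈ hfin.toFinset, χ 1 * χ (u * v) = (d χ : ℂ) * ((d χ : ℂ) * (eu χ * ev χ)))] at h1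
    have h2 : ((∑ χ ∈ hfin.toFinset, (d χ : ℤ) ^ 2 * (eu χ * ev χ) : ℤ) : ℂ) = 0 := by
      push_cast
      rw [← h1]
      exact Finset.sum_congr rfl fun χ _ => by ring
    exact_mod_cast h2
  have hcard : (IrrE M b).ncard = hfin.toFinset.card := Set.ncard_eq_toFinset_card _ hfin
  have hne : hfin.toFinset.Nonempty := by
    obtain ⟨χ, h1, h2⟩ := H50.exists_irr_res hb.1 hb.2.1
    exact ⟨χ, (Set.Finite.mem_toFinset hfin).2 ⟨h1, h2⟩⟩
  obtain ⟨c4, a, ha, χ, hχ, hχu, hχv⟩ := comb hfin.toFinset d eu ev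
    (fun χ h => (hd χ (hS χ h)).1) (fun χ h => (heu χ (hS χ h)).1)
    (fun χ h => (hev χ (hS χ h)).1) (by rw [← hcard]; exact hle4) hne k1 k2 k3
  have hχS := hS χ hχ
  have h1a : χ 1 = a := by rw [(hd χ hχS).2, ha χ hχ]
  refine ⟨a, by rw [hcard, c4], ?_, ?_, ?_⟩
  · intro θ hθ
    rw [(hd θ hθ).2, ha θ ((Set.Finite.mem_toFinset hfin).2 hθ)]
  · have h2 := hgt M hM2 H b hb.1 h8 χ hχS
    rw [h1a] at h2
    exact h2
  · -- the character of the quotient
    have hker : ∀ z ∈ (r.comp q).ker, χ z = χ 1 := by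
      intro z hz
      have e1 := hval χ hχS
      have e2 : χ 1 = (d χ : ℂ) := (hd χ hχS).2
      rw [hχu, hχv] at e1
      rcases hmem z hz with rfl | rfl | rfl | rfl
      · rfl
      · rw [e1.1, e2]; push_cast; ring
      · rw [e1.2.1, e2]; push_cast; ring
      · rw [e1.2.2, e2]; push_cast; ring
    obtain ⟨χ', hχ', hch⟩ := descend (r.comp q) hp hχS.1 hpc hker
    have h2 := codeg_int hχ'
    have h3 : χ' 1 = a := by
      have := hch 1
      rw [map_one] at this
      rw [this, h1a]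
    rw [h3] at h2
    have h4 : (Nat.card H : ℂ) = 4 * Nat.card B := by
      have h5 := H75.card_comap hp ⊤
      rw [Subgroup.comap_top, Subgroup.card_top, Subgroup.card_top, hp4] at h5
      rw [h5]
      push_cast
      ring
    have h5 : (Nat.card H / (4 * a) : ℂ) = Nat.card B / a := by
      rw [h4]
      rw [mul_div_mul_left _ _ (by norm_num : (4 : ℂ) ≠ 0)]
    rw [h5]
    exact RM_of_int h2

end Pool.Agent.PP.KF.H32
end
end -- Pool.Agent.Helper32_KF.St1

section -- Pool.Agent.Helper69_K9.Fmg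

/-!
# Squad K9, row FMG: the first main theorem (adapted from `Helper55_KF/Fm4.lean`)
-/

open scoped BigOperators Pointwise

noncomputable section

namespace Pool.Agent.PP.K9.H69

open Pool.Agent.Helper51_AWC Pool.Agent.Helper79_WRA Pool.Agent.PP Pool.Agent.PP.KF

attribute [local instance] Ideal.Quotient.field

section group

variable {K : Type} [Group K]

theorem card_conj (g : K) (P : Subgroup K) : Nat.card (conjS g P) = Nat.card P :=
  (Nat.card_congr (P.equivMapOfInjective (MulAut.conj g).toMonoidHom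
    (MulAut.conj g).injective).toEquiv).symm

/-- an `ℓ`-subgroup of `C` is conjugate to a subgroup of a Sylow subgroup -/
theorem conj_le [Finite K] {ℓ : ℕ} [Fact ℓ.Prime] {C V W : Subgroup K} (hV : V ≤ C) (hW : W ≤ C)
    (pV : IsPGroup ℓ V) (hi : ¬ ℓ ∣ V.relIndex C) (pW : IsPGroup ℓ W) :
    ∃ c ∈ C, W ≤ conjS c V := by
  have pV' : IsPGroup ℓ (V.subgroupOf C) := pV.comap_subtype
  have pW' : IsPGroup ℓ (W.subgroupOf C) := pW.comap_subtype
  obtain ⟨T, hT⟩ := pW'.exists_le_sylow
  let S : Sylow ℓ C := pV'.toSylow hi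
  obtain ⟨c, hc⟩ := MulAction.exists_smul_eq C S T
  refine ⟨c, c.2, fun x hx => ?_⟩
  have h2 : ((c • S : Sylow ℓ C) : Subgroup C) = MulAut.conj c • (V.subgroupOf C) := rfl
  have h3 : (⟨x, hW hx⟩ : C) ∈ (T : Subgroup C) := hT hx
  rw [← hc, h2, Subgroup.mem_pointwise_smul_iff_inv_smul_mem] at h3
  have h4 : ((MulAut.conj c)⁻¹ • (⟨x, hW hx⟩ : C) : C) = c⁻¹ * ⟨x, hW hx⟩ * c := by
    rw [← map_inv]
    change c⁻¹ * _ * c⁻¹⁻¹ = _
    rw [inv_inv]
  rw [h4] at h3
  rw [mem_conjS]
  exact h3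

theorem not_dvd_rel [Finite K] {ℓ n : ℕ} {C V : Subgroup K} (hV : V ≤ C)
    (cV : Nat.card V = ℓ ^ n) (h : ¬ ℓ ^ (n + 1) ∣ Nat.card C) : ¬ ℓ ∣ V.relIndex C := by
  rintro ⟨k, hk⟩
  apply h
  have h1 := Subgroup.card_mul_index (V.subgroupOf C)
  have h2 : Nat.card (V.subgroupOf C) = ℓ ^ n := by
    rw [Nat.card_congr (Subgroup.subgroupOfEquivOfLe hV).toEquiv, cV]
  have h3 : (V.subgroupOf C).index = ℓ * k := hk
  rw [h2, h3] at h1
  exact ⟨k, by rw [← h1]; ring⟩

/-- normaliser growth -/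
theorem pow_of_norm [Finite K] {ℓ n : ℕ} [Fact ℓ.Prime] {V : Subgroup K}
    (cV : Nat.card V = ℓ ^ n)
    {y : Subgroup.normalizer (V : Set K)} (hV : V ≤ Subgroup.centralizer ({(y : K)} : Set K))
    (h8 : ℓ ^ (n + 1) ∣ Nat.card (Subgroup.centralizer ({(y : K)} : Set K))) :
    ℓ ^ (n + 1) ∣
      Nat.card (Subgroup.centralizer ({y} : Set (Subgroup.normalizer (V : Set K)))) := by
  set C := Subgroup.centralizer ({(y : K)} : Set K) with hC
  have h1 : Nat.card (V.subgroupOf C) = ℓ ^ n := by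
    rw [Nat.card_congr (Subgroup.subgroupOfEquivOfLe hV).toEquiv, cV]
  have h2 := Sylow.prime_pow_dvd_card_normalizer (p := ℓ) (n := n) (G := C) h8 h1
  refine h2.trans ?_
  have hn : ∀ t : Subgroup.normalizer ((V.subgroupOf C : Subgroup C) : Set C),
      ((t : C) : K) ∈ Subgroup.normalizer (V : Set K) := by
    intro t
    rw [Subgroup.mem_normalizer_iff]
    intro v
    have h3 := Subgroup.mem_normalizer_iff.1 t.2
    constructor
    · intro hv
      exact (h3 ⟨v, hV hv⟩).1 hv
    · intro hv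
      have h4 : ((t : C) : K)⁻¹ * (((t : C) : K) * v * ((t : C) : K)⁻¹) * ((t : C) : K) = v := by
        group
      have h5 : v ∈ C := by
        rw [← h4]
        exact mul_mem (mul_mem (inv_mem (t : C).2) (hV hv)) (t : C).2
      exact (h3 ⟨v, h5⟩).2 hv
  let φ : Subgroup.normalizer ((V.subgroupOf C : Subgroup C) : Set C) →*
      Subgroup.centralizer ({y} : Set (Subgroup.normalizer (V : Set K))) :=
    { toFun := fun t => ⟨⟨((t : C) : K), hn t⟩, by
        rw [Subgroup.mem_centralizer_singleton_iff]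
        apply Subtype.ext
        exact Subgroup.mem_centralizer_singleton_iff.1 (t : C).2⟩
      map_one' := rfl
      map_mul' := fun _ _ => rfl }
  refine Subgroup.card_dvd_of_injective φ ?_
  intro a b hab
  apply Subtype.ext
  apply Subtype.ext
  exact congrArg (fun z => ((z : Subgroup.centralizer
    ({y} : Set (Subgroup.normalizer (V : Set K)))) : Subgroup.normalizer (V : Set K)).1) hab

/-- if `e y ≠ 0` and the good `ℓ`-subgroups have order at most `ℓ ^ n` -/
theorem bd [Finite K] {ℓ n : ℕ} [Fact ℓ.Prime] {F : Type} [Field F] {e : K → F}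
    (h : ∀ Q : Subgroup K, IsPGroup ℓ Q → Gd e Q → Nat.card Q ≤ ℓ ^ n) {g : K} (hg : e g ≠ 0) :
    ¬ ℓ ^ (n + 1) ∣ Nat.card (Subgroup.centralizer ({g} : Set K)) := by
  intro h8
  set C := Subgroup.centralizer ({g} : Set K) with hC
  obtain ⟨S, hS⟩ := Sylow.exists_subgroup_card_pow_prime (G := C) ℓ (n := n + 1) h8
  have h1 : Nat.card (S.map C.subtype) = ℓ ^ (n + 1) := by
    rw [← Nat.card_congr (S.equivMapOfInjective C.subtype C.subtype_injective).toEquiv, hS]
  have h2 := h (S.map C.subtype) (IsPGroup.of_card h1) ⟨g, by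
      rw [Subgroup.mem_centralizer_iff]
      rintro _ ⟨s, hs, rfl⟩
      exact (Subgroup.mem_centralizer_singleton_iff.1 s.2), hg⟩
  rw [h1] at h2
  have h3 : ℓ ^ n < ℓ ^ (n + 1) := Nat.pow_lt_pow_right (Fact.out : ℓ.Prime).one_lt (Nat.lt_succ_self n)
  omega

theorem cent_le_norm (V : Subgroup K) :
    Subgroup.centralizer (V : Set K) ≤ Subgroup.normalizer (V : Set K) := by
  intro g hg
  rw [Subgroup.mem_normalizer_iff]
  intro v
  have h1 := Subgroup.mem_centralizer_iff.1 hg
  constructor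
  · intro hv
    rw [← h1 v hv, mul_inv_cancel_right]
    exact hv
  · intro hv
    have h2 := h1 _ hv
    have h3 : g * v = g * (g * v * g⁻¹) := by
      rw [← h2]
      group
    rw [mul_left_cancel h3]
    exact hv

end group

section good

variable {F K : Type} [Field F] [Group K] [Finite K]

theorem gd_br {e : K → F} {P : Subgroup K} (h : Gd e P) : br P e ≠ 0 := by
  obtain ⟨g, hg, hg0⟩ := h
  intro h0
  apply hg0
  have := congrFun h0 g
  rwa [H66.br_of_mem hg] at this

theorem gd_of_br {e : K → F} {P : Subgroup K} (h : br P e ≠ 0) : Gd e P := by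
  obtain ⟨z, hz⟩ : ∃ z, br P e z ≠ 0 := by
    by_contra hcon
    push Not at hcon
    exact h (funext hcon)
  have hzP : z ∈ Subgroup.centralizer (P : Set K) := by
    by_contra hcon
    exact hz (H66.br_of_not_mem hcon)
  rw [H66.br_of_mem hzP] at hz
  exact ⟨z, hzP, hz⟩

/-- good subgroups of a factor -/
theorem gd_factor {ℓ : ℕ} (hF : GoodF ℓ F) {f g : K → F} (hf : IsCl f) (hg : IsCl g)
    (h : mulF f g = g) {P : Subgroup K} (hP : IsPGroup ℓ P) (hgP : Gd g P) : Gd f P := by
  apply gd_of_br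
  intro h0
  apply gd_br hgP
  rw [← h, H66.br_mulF hF hP (H66.IsCl.inv hf P) (H66.IsCl.inv hg P), h0]
  apply ma_injective
  rw [ma_mul, ma_zero, zero_mul]

/-- good subgroups of the Brauer map -/
theorem gd_norm {e : K → F} {V : Subgroup K}
    {Q : Subgroup (Subgroup.normalizer (V : Set K))}
    (h : Gd (fun t : Subgroup.normalizer (V : Set K) => br V e t) Q) :
    Gd e (Q.map (Subgroup.normalizer (V : Set K)).subtype) := by
  obtain ⟨z, hz, hz0⟩ := h
  have hzV : (z : K) ∈ Subgroup.centralizer (V : Set K) := by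
    by_contra hcon
    exact hz0 (H66.br_of_not_mem hcon)
  change br V e z ≠ 0 at hz0
  rw [H66.br_of_mem hzV] at hz0
  refine ⟨z, ?_, hz0⟩
  rw [Subgroup.mem_centralizer_iff]
  rintro _ ⟨q, hq, rfl⟩
  exact congrArg Subtype.val (Subgroup.mem_centralizer_iff.1 hz q hq)

theorem card_map (V : Subgroup K) (Q : Subgroup V) : Nat.card (Q.map V.subtype) = Nat.card Q :=
  (Nat.card_congr (Q.equivMapOfInjective V.subtype V.subtype_injective).toEquiv).symm

end good

section main

variable {M : Ideal (integralClosure ℤ ℂ)} [hM : M.IsMaximal]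

/-- the `ℓ`-subgroups on whose centraliser `b` does not vanish -/
theorem below {ℓ : ℕ} {X : Type} [Group X] [Finite X] {F : Type} [Field F] (hF : GoodF ℓ F)
    {b : X → F} (hb : IsCl b)
    {y : X} {u : X → F} (hu : IsCl u)
    (h : mulF (mulF u (clsum F (⊤ : Subgroup X) y)) b = b) {V : Subgroup X}
    (hV : IsPGroup ℓ V) (hg : Gd b V) :
    ∃ r : X, conjS r V ≤ Subgroup.centralizer ({y} : Set X) := by
  have hk := H50.isCl_clsum (F := F) y
  have h1 : br V b ≠ 0 := gd_br hg
  have h2 : br V (clsum F (⊤ : Subgroup X) y) ≠ 0 := by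
    intro h0
    apply h1
    rw [← h, H66.br_mulF hF hV (H66.IsCl.inv (H50.isCl_mulF hu hk) V) (H66.IsCl.inv hb V),
      H66.br_mulF hF hV (H66.IsCl.inv hu V) (H66.IsCl.inv hk V), h0, H46.mulF_zero]
    apply ma_injective
    rw [ma_mul, ma_zero, zero_mul]
  obtain ⟨z, hzV, hz⟩ := gd_of_br h2
  obtain ⟨r, hr⟩ : ∃ r, z = r * y * r⁻¹ := by
    by_contra hcon
    apply hz
    unfold clsum
    rw [if_neg]
    rintro ⟨q, -, hq⟩
    exact hcon ⟨q, hq⟩
  refine ⟨r⁻¹, fun v hv => ?_⟩
  rw [mem_conjS, inv_inv] at hv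
  rw [Subgroup.mem_centralizer_singleton_iff]
  have h4 := Subgroup.mem_centralizer_iff.1 hzV _ hv
  rw [hr] at h4
  have h5 : r * (v * y) * r⁻¹ = r * (y * v) * r⁻¹ := by
    calc r * (v * y) * r⁻¹ = r * v * r⁻¹ * (r * y * r⁻¹) := by group
      _ = r * y * r⁻¹ * (r * v * r⁻¹) := h4
      _ = r * (y * v) * r⁻¹ := by group
  exact mul_left_cancel (mul_right_cancel h5)

/-- the class sum of `y` in the normaliser of `V` -/
theorem br_clsum {ℓ : ℕ} [Fact ℓ.Prime] {X : Type} [Group X] [Finite X] {F : Type} [Field F]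
    {V : Subgroup X} (pV : IsPGroup ℓ V) {y : Subgroup.normalizer (V : Set X)}
    (hy : (y : X) ∈ Subgroup.centralizer (V : Set X))
    (h8 : ¬ ℓ ∣ V.relIndex (Subgroup.centralizer ({(y : X)} : Set X))) :
    (fun t : Subgroup.normalizer (V : Set X) => br V (clsum F (⊤ : Subgroup X) (y : X)) t) =
      clsum F (⊤ : Subgroup (Subgroup.normalizer (V : Set X))) y := by
  funext t
  have hconj : ∀ n : X, n ∈ Subgroup.normalizer (V : Set X) →
      n * y * n⁻¹ ∈ Subgroup.centralizer (V : Set X) := by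
    intro n hn
    rw [Subgroup.mem_centralizer_iff]
    intro v hv
    have h1 : n⁻¹ * v * n ∈ V := by
      have := (Subgroup.mem_normalizer_iff.1 (inv_mem hn) v).1 hv
      rwa [inv_inv] at this
    have h2 := Subgroup.mem_centralizer_iff.1 hy _ h1
    calc v * (n * y * n⁻¹) = n * (n⁻¹ * v * n * y) * n⁻¹ := by group
      _ = n * (y * (n⁻¹ * v * n)) * n⁻¹ := by rw [h2]
      _ = n * y * n⁻¹ * v := by group
  by_cases ht : (t : X) ∈ Subgroup.centralizer (V : Set X)
  · rw [H66.br_of_mem ht]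
    have hiff : (∃ q ∈ (⊤ : Subgroup X), (t : X) = q * y * q⁻¹) ↔
        ∃ q ∈ (⊤ : Subgroup (Subgroup.normalizer (V : Set X))), t = q * y * q⁻¹ := by
      constructor
      · rintro ⟨q, -, hq⟩
        have hV1 : V ≤ Subgroup.centralizer ({(y : X)} : Set X) := by
          intro v hv
          rw [Subgroup.mem_centralizer_singleton_iff]
          exact Subgroup.mem_centralizer_iff.1 hy v hv
        have hV2 : conjS q⁻¹ V ≤ Subgroup.centralizer ({(y : X)} : Set X) := by
          intro v hv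
          rw [mem_conjS, inv_inv] at hv
          rw [Subgroup.mem_centralizer_singleton_iff]
          have h4 := Subgroup.mem_centralizer_iff.1 ht _ hv
          rw [hq] at h4
          have h5 : q * (v * y) * q⁻¹ = q * (y * v) * q⁻¹ := by
            calc q * (v * y) * q⁻¹ = q * v * q⁻¹ * (q * y * q⁻¹) := by group
              _ = q * y * q⁻¹ * (q * v * q⁻¹) := h4
              _ = q * (y * v) * q⁻¹ := by group
          exact mul_left_cancel (mul_right_cancel h5)
        obtain ⟨c, hc, h6⟩ := conj_le hV1 hV2 pV h8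
          (pV.of_equiv ((V.equivMapOfInjective (MulAut.conj q⁻¹).toMonoidHom
            (MulAut.conj q⁻¹).injective)))
        have h6' : conjS q⁻¹ V = conjS c V :=
          Subgroup.eq_of_le_of_card_ge h6 (by rw [card_conj, card_conj])
        have hn : q * c ∈ Subgroup.normalizer (V : Set X) := by
          rw [Subgroup.mem_normalizer_iff]
          intro v
          have h7 : ∀ w : X, q * w * q⁻¹ ∈ V ↔ c⁻¹ * w * c ∈ V := by
            intro w
            have h8 : w ∈ conjS q⁻¹ V ↔ w ∈ conjS c V := by rw [h6']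
            rw [mem_conjS, mem_conjS, inv_inv] at h8
            exact h8
          have h9 := h7 (c * v * c⁻¹)
          have h10 : c⁻¹ * (c * v * c⁻¹) * c = v := by group
          have h11 : q * (c * v * c⁻¹) * q⁻¹ = q * c * v * (q * c)⁻¹ := by group
          rw [h10, h11] at h9
          exact h9.symm
        refine ⟨⟨q * c, hn⟩, Subgroup.mem_top _, Subtype.ext ?_⟩
        change (t : X) = q * c * y * (q * c)⁻¹
        have h9 := Subgroup.mem_centralizer_singleton_iff.1 hc
        rw [hq]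
        calc q * (y : X) * q⁻¹ = q * (y * c) * c⁻¹ * q⁻¹ := by group
          _ = q * (c * y) * c⁻¹ * q⁻¹ := by rw [h9]
          _ = q * c * y * (q * c)⁻¹ := by group
      · rintro ⟨q, -, hq⟩
        exact ⟨q, Subgroup.mem_top _, congrArg Subtype.val hq⟩
    unfold clsum
    by_cases hc : ∃ q ∈ (⊤ : Subgroup X), (t : X) = q * y * q⁻¹
    · rw [if_pos hc, if_pos (hiff.1 hc)]
    · rw [if_neg hc, if_neg (fun h => hc (hiff.2 h))]
  · rw [H66.br_of_not_mem ht]
    unfold clsum
    rw [if_neg]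
    rintro ⟨q, -, hq⟩
    apply ht
    rw [hq]
    exact hconj q q.2

theorem clsum_conj {X : Type} [Group X] {F : Type} [Field F] (r y : X) :
    clsum F (⊤ : Subgroup X) (r⁻¹ * y * r) = clsum F (⊤ : Subgroup X) y := by
  funext t
  have hiff : (∃ q ∈ (⊤ : Subgroup X), t = q * (r⁻¹ * y * r) * q⁻¹) ↔
      ∃ q ∈ (⊤ : Subgroup X), t = q * y * q⁻¹ := by
    constructor
    · rintro ⟨q, -, hq⟩
      exact ⟨q * r⁻¹, Subgroup.mem_top _, by rw [hq]; group⟩
    · rintro ⟨q, -, hq⟩
      exact ⟨q * r, Subgroup.mem_top _, by rw [hq]; group⟩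
  unfold clsum
  by_cases hc : ∃ q ∈ (⊤ : Subgroup X), t = q * y * q⁻¹
  · rw [if_pos hc, if_pos (hiff.2 hc)]
  · rw [if_neg hc, if_neg (fun h => hc (hiff.1 h))]

/-- row FMG -/
theorem fmg : FmgStmt := by
  intro ℓ _ M _ hℓM X _ _ b hb V hTp
  have hℓ : ℓ.Prime := Fact.out
  have hF : GoodF ℓ (FF M) := H50.fld ℓ hℓ M hℓM
  obtain ⟨n, cV⟩ := (IsPGroup.iff_card (p := ℓ) (G := V)).1 hTp.pg
  have hbd : ∀ Q : Subgroup X, IsPGroup ℓ Q → Gd b Q → Nat.card Q ≤ ℓ ^ n := by
    intro Q hQ hQ'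
    rw [← cV]
    exact hTp.mx Q hQ hQ'
  obtain ⟨y, hy, u, hu, huy⟩ := H55.exists_y hb
  obtain ⟨r, hr⟩ := below hF hb.1.1 hu huy hTp.pg hTp.gd
  have pconj : ∀ (g : X) (Q : Subgroup X), IsPGroup ℓ Q → IsPGroup ℓ (conjS g Q) := by
    intro g Q hQ
    exact hQ.of_equiv (Q.equivMapOfInjective (MulAut.conj g).toMonoidHom (MulAut.conj g).injective)
  have hnd : ¬ ℓ ∣ (conjS r V).relIndex (Subgroup.centralizer ({y} : Set X)) :=
    not_dvd_rel hr (by rw [card_conj, cV]) (bd hbd hy)
  refine ⟨?_, ?_, ?_⟩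
  · intro Q hQ hQ'
    obtain ⟨s, hs⟩ := below hF hb.1.1 hu huy hQ hQ'
    obtain ⟨c, -, hc⟩ := conj_le hr hs (pconj r V hTp.pg) hnd (pconj s Q hQ)
    refine ⟨s⁻¹ * (c * r), fun x hx => ?_⟩
    have h1 : s * x * s⁻¹ ∈ conjS s Q := by
      rw [mem_conjS]
      have h2 : s⁻¹ * (s * x * s⁻¹) * s = x := by group
      rwa [h2]
    have h3 := hc h1
    rw [mem_conjS, mem_conjS] at h3
    rw [mem_conjS]
    have h4 : (s⁻¹ * (c * r))⁻¹ * x * (s⁻¹ * (c * r)) = r⁻¹ * (c⁻¹ * (s * x * s⁻¹) * c) * r := by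
      group
    rwa [h4]
  · have hVp := hTp.pg
    have hCN := cent_le_norm V
    have hVN : V ≤ Subgroup.normalizer (V : Set X) := Subgroup.le_normalizer
    have hB := H20.brm ℓ (FF M) hF X V (Subgroup.normalizer (V : Set X)) hVp hCN le_rfl
    set f : Subgroup.normalizer (V : Set X) → FF M := fun t => br V b t with hf
    have hfI : IsIdem f := hB.2.2 b hb.1
    obtain ⟨g₀, hg₀, hg₀'⟩ := hTp.gd
    have hf0 : f ≠ 0 := by
      intro h0
      apply hg₀'
      have h1 := congrFun h0 ⟨g₀, hCN hg₀⟩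
      change br V b g₀ = 0 at h1
      rwa [H66.br_of_mem hg₀] at h1
    have hVcard : Nat.card (V.subgroupOf (Subgroup.normalizer (V : Set X))) = ℓ ^ n := by
      rw [Nat.card_congr (Subgroup.subgroupOfEquivOfLe hVN).toEquiv, cV]
    have hfbd : ∀ Q : Subgroup (Subgroup.normalizer (V : Set X)), IsPGroup ℓ Q → Gd f Q →
        Nat.card Q ≤ ℓ ^ n := by
      intro Q hQ hQ'
      have h1 := hbd (Q.map (Subgroup.normalizer (V : Set X)).subtype)
        (hQ.of_equiv (Q.equivMapOfInjective _ (Subgroup.normalizer (V : Set X)).subtype_injective))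
        (gd_norm hQ')
      rwa [card_map] at h1
    refine ⟨⟨hfI, hf0, ?_⟩, ?_, ?_, ?_⟩
    · intro g hg
      by_contra hcon
      rw [not_or] at hcon
      obtain ⟨hc1, hc2⟩ := hcon
      set f₁ := mulF f g with hf₁
      have hf1I : IsIdem f₁ := H46.isIdem_mul hfI hg
      have hff1 : mulF f f₁ = f₁ := by
        apply ma_injective
        rw [hf₁, ma_mul, ma_mul, ← mul_assoc, H46.ma_idem hfI]
      have hf1f : mulF f₁ f = f₁ := by
        rw [H46.mulF_comm hf1I.1, hff1]
      have hf2I : IsIdem (f - f₁) := by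
        refine ⟨(cfs (FF M) _).sub_mem hfI.1 hf1I.1, ?_⟩
        apply ma_injective
        have e4 : ma (f - f₁) = ma f - ma f₁ :=
          map_sub (maL : (_ → FF M) ≃ₗ[FF M] MonoidAlgebra (FF M) _) f f₁
        rw [ma_mul, e4, sub_mul, mul_sub, mul_sub, H46.ma_idem hfI, H46.ma_idem hf1I,
          ← ma_mul, ← ma_mul, hff1, hf1f, sub_self, sub_zero]
      have hf2 : f - f₁ ≠ 0 := by
        intro h0
        exact hc1 (sub_eq_zero.1 h0).symm
      obtain ⟨ϑ₁, hϑ₁, h11⟩ := H50.exists_irr_res hf1I hc2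
      obtain ⟨ϑ₂, hϑ₂, h22⟩ := H50.exists_irr_res hf2I hf2
      have := Fintype.ofFinite (Subgroup.normalizer (V : Set X))
      have hr : ∀ ϑ ∈ Irr (Subgroup.normalizer (V : Set X)),
          res M f₁ ϑ = res M f ϑ * res M f₁ ϑ := by
        intro ϑ hϑ
        rw [← H50.res_mul hfI.1 hf1I.1 hϑ, hff1]
      have hf11 : res M f ϑ₁ = 1 := by
        have h3 := hr ϑ₁ hϑ₁
        rw [h11, mul_one] at h3
        exact h3.symm
      have h23 : res M f ϑ₂ - res M f₁ ϑ₂ = 1 := by rw [← H50.res_sub, h22]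
      have hf22 : res M f ϑ₂ = 1 := by
        rcases H50.res_idem hfI hϑ₂ with h3 | h3
        · exfalso
          have h4 := hr ϑ₂ hϑ₂
          rw [h3, zero_mul] at h4
          rw [h3, h4, sub_zero] at h23
          exact zero_ne_one h23
        · exact h3
      have h12 : res M f₁ ϑ₂ = 0 := by
        rw [hf22] at h23
        exact sub_eq_self.1 h23
      -- the central characters of `X`
      have hch : ∀ ϑ ∈ Irr (Subgroup.normalizer (V : Set X)), H50.IsChar (fun a : X → FF M =>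
          res M (fun t : Subgroup.normalizer (V : Set X) => br V a t) ϑ) := by
        intro ϑ hϑ
        refine ⟨?_, ?_, ?_⟩
        · intro a c _ _
          rw [← H50.res_sub]
          congr 1
          funext t
          by_cases ht : (t : X) ∈ Subgroup.centralizer (V : Set X)
          · rw [H66.br_of_mem ht, Pi.sub_apply, Pi.sub_apply, H66.br_of_mem ht, H66.br_of_mem ht]
          · rw [H66.br_of_not_mem ht, Pi.sub_apply, H66.br_of_not_mem ht, H66.br_of_not_mem ht,
              sub_zero]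
        · intro c a _
          rw [← H50.res_smul]
          congr 1
          funext t
          by_cases ht : (t : X) ∈ Subgroup.centralizer (V : Set X)
          · rw [H66.br_of_mem ht, Pi.smul_apply, Pi.smul_apply, H66.br_of_mem ht]
          · rw [H66.br_of_not_mem ht, Pi.smul_apply, H66.br_of_not_mem ht, smul_zero]
        · intro a c ha hc
          change res M (fun t : Subgroup.normalizer (V : Set X) => br V (mulF a c) t) ϑ = _
          rw [hB.1 a c ha hc, hB.2.1 a c]
          exact H50.res_mul (H50.br_cl le_rfl ha) (H50.br_cl le_rfl hc) hϑ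
      have huniq : ∀ a : X → FF M, IsCl a →
          res M (fun t : Subgroup.normalizer (V : Set X) => br V a t) ϑ₁ =
          res M (fun t : Subgroup.normalizer (V : Set X) => br V a t) ϑ₂ := fun a ha =>
        H50.char_uniq hb (hch ϑ₁ hϑ₁) (hch ϑ₂ hϑ₂) hf11 hf22 ha
      -- the support of `f₁`
      have hn : (V.subgroupOf (Subgroup.normalizer (V : Set X))).Normal :=
        Subgroup.normal_in_normalizer
      have hbf := H55.br_idem hF hn hVp.comap_subtype hf1I
      have hf18 : ∀ z, f₁ z ≠ 0 → ¬ ℓ ^ (n + 1) ∣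
          Nat.card (Subgroup.centralizer ({z} : Set (Subgroup.normalizer (V : Set X)))) :=
        fun z hz => bd (fun Q hQ hQ' => hfbd Q hQ (gd_factor hF hfI.1 hf1I.1 hff1 hQ hQ')) hz
      have hlab : ∀ z, f₁ z ≠ 0 → labF M ϑ₁ z = labF M ϑ₂ z := by
        intro z hz
        have hzV : (z : X) ∈ Subgroup.centralizer (V : Set X) := by
          have h3 : z ∈ Subgroup.centralizer
              ((V.subgroupOf (Subgroup.normalizer (V : Set X)) :
                Subgroup (Subgroup.normalizer (V : Set X))) : Set _) := by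
            by_contra h4
            apply hz
            rw [← hbf, H66.br_of_not_mem h4]
          rw [Subgroup.mem_centralizer_iff] at h3 ⊢
          intro v hv
          exact congrArg Subtype.val (h3 ⟨v, hVN hv⟩ hv)
        have hV1 : V ≤ Subgroup.centralizer ({(z : X)} : Set X) := by
          intro v hv
          rw [Subgroup.mem_centralizer_singleton_iff]
          exact Subgroup.mem_centralizer_iff.1 hzV v hv
        have h8 : ¬ ℓ ^ (n + 1) ∣ Nat.card (Subgroup.centralizer ({(z : X)} : Set X)) :=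
          fun h => hf18 z hz (pow_of_norm cV hV1 h)
        have h5 := huniq _ (H50.isCl_clsum (F := FF M) (z : X))
        rw [br_clsum hVp hzV (not_dvd_rel hV1 cV h8)] at h5
        rwa [H50.res_clsum, H50.res_clsum] at h5
      have := Fintype.ofFinite (ConjClasses (Subgroup.normalizer (V : Set X)))
      have heq : res M f₁ ϑ₁ = res M f₁ ϑ₂ := by
        rw [H50.res_eq_lab, H50.res_eq_lab, finsum_eq_sum_of_fintype, finsum_eq_sum_of_fintype]
        refine Finset.sum_congr rfl fun c _ => ?_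
        by_cases hc : f₁ (Quotient.out c) = 0
        · rw [hc, zero_mul, zero_mul]
        · rw [hlab _ hc]
      rw [h11, h12] at heq
      exact one_ne_zero heq
    · exact hVp.comap_subtype
    · refine ⟨⟨g₀, hCN hg₀⟩, ?_, ?_⟩
      · rw [Subgroup.mem_centralizer_iff]
        intro v hv
        exact Subtype.ext (Subgroup.mem_centralizer_iff.1 hg₀ _ hv)
      · change br V b g₀ ≠ 0
        rw [H66.br_of_mem hg₀]
        exact hg₀'
    · intro Q hQ hQ'
      rw [hVcard]
      exact hfbd Q hQ hQ'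
  · have hV1 : V ≤ Subgroup.centralizer ({r⁻¹ * y * r} : Set X) := by
      intro v hv
      have h1 : r * v * r⁻¹ ∈ conjS r V := by
        rw [mem_conjS]
        have h2 : r⁻¹ * (r * v * r⁻¹) * r = v := by group
        rwa [h2]
      have h3 := Subgroup.mem_centralizer_singleton_iff.1 (hr h1)
      rw [Subgroup.mem_centralizer_singleton_iff]
      calc v * (r⁻¹ * y * r) = r⁻¹ * (r * v * r⁻¹ * y) * r := by group
        _ = r⁻¹ * (y * (r * v * r⁻¹)) * r := by rw [h3]
        _ = r⁻¹ * y * r * v := by group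
    have hby : b (r⁻¹ * y * r) ≠ 0 := by
      have h1 := hb.1.1 y r⁻¹
      rw [inv_inv] at h1
      rw [h1]
      exact hy
    refine ⟨r⁻¹ * y * r, ?_, hby, not_dvd_rel hV1 cV (bd hbd hby), u, hu, ?_⟩
    · rw [Subgroup.mem_centralizer_iff]
      intro v hv
      exact Subgroup.mem_centralizer_singleton_iff.1 (hV1 hv)
    · rw [clsum_conj]
      exact huy

end main

end Pool.Agent.PP.K9.H69
end
end -- Pool.Agent.Helper69_K9.Fmg

section -- Pool.Agent.Helper69_K9.Kap

/-!
# Squad K9, row KAP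
-/

open scoped BigOperators Pointwise

noncomputable section

namespace Pool.Agent.PP.K9.H69

open Pool.Agent.Helper51_AWC Pool.Agent.Helper79_WRA Pool.Agent.PP Pool.Agent.PP.KF

attribute [local instance] Ideal.Quotient.field

/-- row KAP -/
theorem kap (dzo : DzoStmt) (pug : PugStmt) : KapStmt := by
  intro ℓ _ M _ hℓM G H _ _ _ _ e he v hTp π hQt γ hγ heγ
  have hℓ : ℓ.Prime := Fact.out
  have hF : GoodF ℓ (FF M) := H50.fld ℓ hℓ M hℓM
  have hv : v ∈ Cu v := by
    rw [Cu, Subgroup.mem_centralizer_singleton_iff]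
  have hcen : (⟨v, hv⟩ : Cu v) ∈ Subgroup.center (Cu v) := by
    rw [Subgroup.mem_center_iff]
    intro c
    apply Subtype.ext
    exact Subgroup.mem_centralizer_singleton_iff.1 c.2
  have hord : orderOf (⟨v, hv⟩ : Cu v) = ℓ := by
    rw [← hQt.ord]
    exact (Subgroup.orderOf_coe (⟨v, hv⟩ : Cu v)).symm
  have hker : π.ker = Subgroup.zpowers (⟨v, hv⟩ : Cu v) := by
    ext c
    rw [MonoidHom.mem_ker, hQt.ker, Subgroup.mem_zpowers_iff, Subgroup.mem_zpowers_iff]
    constructor
    · rintro ⟨k, hk⟩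
      exact ⟨k, Subtype.ext hk⟩
    · rintro ⟨k, hk⟩
      exact ⟨k, congrArg Subtype.val hk⟩
  have hkc : Nat.card π.ker = ℓ := by
    rw [hker, Nat.card_zpowers, hord]
  have hkp : IsPGroup ℓ π.ker := IsPGroup.of_card (n := 1) (by rw [hkc, pow_one])
  have hblk : IsBlk (H75.push π γ) :=
    CD2.H24.psb ℓ (FF M) hF (Cu v) H π hQt.sur ⟨v, hv⟩ hord hcen hker γ hγ
  refine dzo ℓ M hℓM H (H75.push π γ) hblk ?_
  intro Q hQ hgQ
  by_contra hne
  have hQ' : IsPGroup ℓ (Q.comap π) := hQ.comap_of_ker_isPGroup π hkp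
  have hle : π.ker ≤ Q.comap π := by
    intro c hc
    rw [Subgroup.mem_comap, MonoidHom.mem_ker.1 hc]
    exact one_mem Q
  have h1 : Gd γ (Q.comap π) := by
    rw [pug ℓ (FF M) hF (Cu v) H π hQt.sur hkp γ hγ.1 (Q.comap π) hle hQ',
      Subgroup.map_comap_eq_self_of_surjective hQt.sur]
    exact hgQ
  have hecl : IsCl (fun t : Cu v => e t) := fun x y => he.1.1 x y
  have h2 : Gd (fun t : Cu v => e t) (Q.comap π) := gd_factor hF hecl hγ.1.1 heγ hQ' h1
  have h3 : Gd e ((Q.comap π).map (Cu v).subtype) := by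
    obtain ⟨z, hz, hz0⟩ := h2
    refine ⟨z, ?_, hz0⟩
    rw [Subgroup.mem_centralizer_iff]
    rintro _ ⟨q, hq, rfl⟩
    exact congrArg Subtype.val (Subgroup.mem_centralizer_iff.1 hz q hq)
  have h4 := hTp.mx _ (hQ'.of_equiv
    ((Q.comap π).equivMapOfInjective _ (Cu v).subtype_injective)) h3
  rw [card_map, Nat.card_zpowers, hQt.ord] at h4
  have h5 : π.ker = Q.comap π := Subgroup.eq_of_le_of_card_ge hle (by rw [hkc]; exact h4)
  apply hne
  rw [Subgroup.eq_bot_iff_forall]
  intro q hq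
  obtain ⟨c, rfl⟩ := hQt.sur q
  have h6 : c ∈ Q.comap π := hq
  rw [← h5] at h6
  exact h6

end Pool.Agent.PP.K9.H69
end
end -- Pool.Agent.Helper69_K9.Kap
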