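import Pool.Agent.Helper12_AWB.B053
import Pool.Agent.Helper12_AWB.B097
import Pool.Agent.Helper12_AWB.B149
import Pool.Agent.Helper66_DF.StmtsE2

/-!
# Merged copies (generated) of the modules

* `Pool.Agent.Helper66_DF.Lift`
* `Pool.Agent.Helper66_DF.DzE`
* `Pool.Agent.Helper66_DF.S1nE`
* `Pool.Agent.Helper66_DF.StmE`
-/

set_option autoImplicit false

section -- Pool.Agent.Helper66_DF.Lift

/-!
# Squad DF: control of the defect groups and central extensions
-/

open scoped BigOperators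

set_option linter.unusedSectionVars false

noncomputable section

namespace Pool.Agent.DF

open Pool.Agent.Helper51_AWC Pool.Agent.Helper79_WRA Pool.Agent.PP Pool.Agent.PP.H74

section lift

variable {ℓ : ℕ} {𝒟 : (Q : Type) → [Group Q] → Prop} {F E G : Type} [Field F] [Group E] [Group G]
  [Finite E] [Finite G]

/-- the centraliser of the lift of an `ℓ`-subgroup -/
theorem lift_cent (hℓ : ℓ.Prime) (f : E →* G) (M : Subgroup E) (hM : M.Normal)
    (hc : ∀ k, f k = 1 → ∀ m ∈ M, k * m = m * k)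
    (hk : ¬ ℓ ∣ Nat.card (f.ker ⊓ M : Subgroup E)) {D : Subgroup E} (hD : IsPGroup ℓ D)
    (hDM : D ≤ M) {x : E} (hx : f x ∈ Subgroup.centralizer ((D.map f : Subgroup G) : Set G)) :
    x ∈ Subgroup.centralizer (D : Set E) := by
  rw [Subgroup.mem_centralizer_iff]
  intro y hy
  obtain ⟨k, hk1⟩ := pgroup_pow hD hy
  have h1 := Subgroup.mem_centralizer_iff.1 hx (f y) ⟨y, hy, rfl⟩
  have hz : f (x * y * x⁻¹ * y⁻¹) = 1 := by
    rw [map_mul, map_mul, map_mul, map_inv, map_inv, ← h1, mul_inv_cancel_right, mul_inv_cancel]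
  have hzM : x * y * x⁻¹ * y⁻¹ ∈ M :=
    M.mul_mem (hM.conj_mem y (hDM hy) x) (M.inv_mem (hDM hy))
  have hcomm : Commute (x * y * x⁻¹ * y⁻¹) y := hc _ hz y (hDM hy)
  have hz1 : x * y * x⁻¹ * y⁻¹ = 1 := by
    apply chf_ker_eq_one hℓ f M hk hz hzM (k := k)
    have h2 : (x * y * x⁻¹ * y⁻¹ * y) ^ ℓ ^ k = (x * y * x⁻¹ * y⁻¹) ^ ℓ ^ k := by
      rw [hcomm.mul_pow, hk1, mul_one]
    rw [← h2, inv_mul_cancel_right, conj_pow, hk1, mul_one, mul_inv_cancel]
  have h3 : x * y * x⁻¹ = y := by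
    calc x * y * x⁻¹ = x * y * x⁻¹ * y⁻¹ * y := by group
      _ = y := by rw [hz1, one_mul]
  calc y * x = x * y * x⁻¹ * x := by rw [h3]
    _ = x * y := by group

/-- from a group to its image -/
theorem DfE.push (h𝒟 : SubCl 𝒟) (hℓ : ℓ.Prime) (f : E →* G) (M : Subgroup E) (hM : M.Normal)
    (hc : ∀ k, f k = 1 → ∀ m ∈ M, k * m = m * k)
    (hk : ¬ ℓ ∣ Nat.card (f.ker ⊓ M : Subgroup E)) {ê : E → F} {e : G → F}
    (he : ∀ y, e y ≠ 0 → ∃ x, f x = y ∧ ê x ≠ 0) (h : DfE ℓ 𝒟 ê M) : DfE ℓ 𝒟 e (M.map f) := by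
  intro Q hQ hp hg
  obtain ⟨g, hg, hg'⟩ := hg
  obtain ⟨D, hDM, hD, rfl⟩ := chf_lift hℓ f M hk hp hQ
  obtain ⟨x, rfl, hx⟩ := he g hg'
  have h1 := h D hDM hD ⟨x, lift_cent hℓ f M hM hc hk hD hDM hg, hx⟩
  have hinj : Function.Injective (f.subgroupMap D) := by
    rw [injective_iff_map_eq_one]
    intro y hy
    obtain ⟨k, hk1⟩ := pgroup_pow hD y.2
    exact Subtype.ext (chf_ker_eq_one hℓ f M hk (congrArg Subtype.val hy) (hDM y.2) hk1)
  let i : D ≃* D.map f := MulEquiv.ofBijective (f.subgroupMap D)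
    ⟨hinj, f.subgroupMap_surjective D⟩
  exact h𝒟 (D.map f) D i.symm.toMonoidHom i.symm.injective h1

/-- from a group to a central extension -/
theorem DfE.pull (h𝒟 : SubCl 𝒟) (hℓ : ℓ.Prime) (p : E →* G) (M : Subgroup E) {N : Subgroup G}
    (hMN : M.map p ≤ N) (hk : ¬ ℓ ∣ Nat.card (p.ker ⊓ M : Subgroup E)) {ê : E → F} {e : G → F}
    (he : ∀ x, ê x ≠ 0 → e (p x) ≠ 0) (h : DfE ℓ 𝒟 e N) : DfE ℓ 𝒟 ê M := by
  intro Q hQ hp hg
  obtain ⟨g, hg, hg'⟩ := hg
  have h1 : 𝒟 (Q.map p) := by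
    refine h (Q.map p) ((Subgroup.map_mono hQ).trans hMN) (hp.map p) ⟨p g, ?_, he g hg'⟩
    rw [Subgroup.mem_centralizer_iff]
    rintro _ ⟨q, hq, rfl⟩
    rw [← map_mul, ← map_mul, Subgroup.mem_centralizer_iff.1 hg q hq]
  have hinj : Function.Injective (p.subgroupMap Q) := by
    rw [injective_iff_map_eq_one]
    intro y hy
    obtain ⟨k, hk1⟩ := pgroup_pow hp y.2
    exact Subtype.ext (chf_ker_eq_one hℓ p M hk (congrArg Subtype.val hy) (hQ y.2) hk1)
  exact h𝒟 Q (Q.map p) (p.subgroupMap Q) hinj h1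

/-- a central kernel of order prime to `ℓ` -/
theorem not_dvd_inf {p : E →* G} (hk : ¬ ℓ ∣ Nat.card p.ker) (M : Subgroup E) :
    ¬ ℓ ∣ Nat.card (p.ker ⊓ M : Subgroup E) :=
  fun h => hk (h.trans (Subgroup.card_dvd_of_le inf_le_left))

end lift

end Pool.Agent.DF
end
end -- Pool.Agent.Helper66_DF.Lift

section -- Pool.Agent.Helper66_DF.DzE

/-!
# Squad DF, module DZE: a normal subgroup with a block of defect zero
-/

open scoped BigOperators

set_option linter.unusedSectionVars false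

noncomputable section

namespace Pool.Agent.DF

open Pool.Agent.Helper51_AWC Pool.Agent.Helper79_WRA Pool.Agent.PP
open Pool.Agent.PP.H18 (tr_stable dzb_equiv ev_equiv' mulF_supp step2 grp)

open Classical in
/-- the extension to a central extension with kernel of order prime to `ℓ` -/
theorem step1E (hcov : CovStmt) (hcen : CenStmt) (hm : MatStmt) {ℓ : ℕ} {F : Type} [Field F]
    (hF : GoodF ℓ F) {G : Type} [Group G] [Finite G] (N M : Subgroup G) (b e : G → F)
    (hNB : NB ℓ N b) (he : IsIdem e) (heb : mulF e b = e) (hM : M.Normal) (hpos : Pos ℓ e M) :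
    ∃ (E : Type) (_ : Group E) (_ : Finite E) (π : E →* G) (K : Subgroup E) (bE eE : E → F) (n : ℕ)
      (α : E →* Matrix (Fin n) (Fin n) F), Function.Surjective π ∧
      (∀ x, π x = 1 → x ∈ Subgroup.center E) ∧ ¬ ℓ ∣ Nat.card π.ker ∧
      (∀ x ∈ K, π x = 1 → x = 1) ∧ K.map π = N ∧ NB ℓ K bE ∧ IsIrr (α.comp K.subtype) ∧
      ev (α.comp K.subtype) (fun x : K => bE x) = 1 ∧ IsIdem eE ∧ mulF eE bE = eE ∧
      Pos ℓ eE (M.comap π) ∧ (∀ x, eE x ≠ 0 → e (π x) ≠ 0) ∧
      YY ℓ (M.comap π) eE = Nat.card π.ker * YY ℓ M e := by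
  obtain ⟨n, ρ, hρ, hρb⟩ := (hm ℓ F hF N _ hNB.2.2.2).1
  obtain ⟨E, i1, i2, π, α, hπ, hcentral, hprime, hinj, _, himp, hext⟩ := hcov ℓ F hF G N n ρ hNB.1 hρ
    (fun g c c' h => tr_stable hF hm hNB ρ hρ hρb g c c' h)
  obtain ⟨hidem, _, hcm⟩ := hcen ℓ F hF E G π hπ hcentral hprime e he
  obtain ⟨hYY, hPos⟩ := hcm M hM
  have hα1 : ∀ x : E, α x * α x⁻¹ = 1 := fun x => by rw [← map_mul, mul_inv_cancel, map_one]
  have hα2 : ∀ x : E, α x⁻¹ * α x = 1 := fun x => by rw [← map_mul, inv_mul_cancel, map_one]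
  let K : Subgroup E :=
    { carrier := {x | ∃ h : N, π x = h ∧ α x = ρ h}
      one_mem' := ⟨1, by rw [map_one]; rfl, by rw [map_one, map_one]⟩
      mul_mem' := by
        rintro x y ⟨h, h1, h2⟩ ⟨h', h1', h2'⟩
        exact ⟨h * h', by rw [map_mul, h1, h1']; rfl, by rw [map_mul, map_mul, h2, h2']⟩
      inv_mem' := by
        rintro x ⟨h, h1, h2⟩
        refine ⟨h⁻¹, by rw [map_inv, h1]; rfl, ?_⟩
        have e1 : ρ h * ρ h⁻¹ = 1 := by rw [← map_mul, mul_inv_cancel, map_one]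
        calc α x⁻¹ = α x⁻¹ * (α x * ρ h⁻¹) := by rw [h2, e1, mul_one]
          _ = ρ h⁻¹ := by rw [← mul_assoc, hα2, one_mul] }
  have hK : ∀ x, x ∈ K ↔ ∃ h : N, π x = h ∧ α x = ρ h := fun _ => Iff.rfl
  have hKinj : ∀ x ∈ K, π x = 1 → x = 1 := by
    rintro x ⟨h, h1, h2⟩ hx
    have : h = 1 := Subtype.ext (by rw [← h1, hx]; rfl)
    apply hinj x hx
    rw [h2, this, map_one]
  have hKmap : K.map π = N := by
    ext y
    constructor
    · rintro ⟨x, ⟨h, h1, _⟩, rfl⟩
      rw [h1]; exact h.2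
    · intro hy
      obtain ⟨x, h1, h2⟩ := hext ⟨y, hy⟩
      exact ⟨x, ⟨⟨y, hy⟩, h1, h2⟩, h1⟩
  let κ : K ≃* N := MulEquiv.ofBijective
    ((π.comp K.subtype).codRestrict N (fun x => by
      obtain ⟨h, h1, _⟩ := x.2
      change π (x : E) ∈ N
      rw [h1]; exact h.2))
    ⟨by
      intro x y hxy
      have h1 : π x = π y := congrArg Subtype.val hxy
      have h2 : (x : E) * (y : E)⁻¹ = 1 := hKinj _ (K.mul_mem x.2 (K.inv_mem y.2))
        (by rw [map_mul, map_inv, h1, mul_inv_cancel])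
      exact Subtype.ext (mul_inv_eq_one.1 h2),
    by
      intro y
      obtain ⟨x, h1, h2⟩ := hext y
      exact ⟨⟨x, y, h1, h2⟩, Subtype.ext h1⟩⟩
  have hκ : ∀ x : K, ((κ x : N) : G) = π x := fun _ => rfl
  have hκα : ∀ x : K, (α.comp K.subtype) x = ρ (κ x) := by
    intro x
    obtain ⟨h, h1, h2⟩ := x.2
    have : κ x = h := Subtype.ext (by rw [hκ, h1])
    rw [this]; exact h2
  have hKnormal : K.Normal := by
    refine ⟨fun x hx g => ?_⟩
    obtain ⟨h, h1, h2⟩ := hx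
    refine ⟨⟨π g * h * (π g)⁻¹, hNB.1.conj_mem h h.2 _⟩, ?_, ?_⟩
    · rw [map_mul, map_mul, map_inv, h1]
    · have h3 := himp g h ⟨π g * h * (π g)⁻¹, hNB.1.conj_mem h h.2 _⟩ rfl
      rw [map_mul, map_mul, h2, h3, mul_assoc, hα1, mul_one]
  let bE : E → F := fun x => if x ∈ K then b (π x) else 0
  have hbE : ∀ x : K, bE x = b ((κ x : N) : G) := by
    intro x
    change (if (x : E) ∈ K then b (π x) else 0) = _
    rw [if_pos x.2, hκ]
  have hbE' : (fun x : K => bE x) = fun x : K => (fun y : N => b y) (κ x) := funext hbE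
  refine ⟨E, i1, i2, π, K, bE, fun x => (Nat.card π.ker : F)⁻¹ * e (π x), n, α, hπ, hcentral,
    hprime, hKinj, hKmap, ⟨hKnormal, ?_, ?_, ?_⟩, ?_, ?_, hidem, ?_, hPos hpos, fun x hx h0 => hx (by
      change (Nat.card π.ker : F)⁻¹ * e (π x) = 0
      rw [h0, mul_zero]), hYY⟩
  · intro x y
    change (if y * x * y⁻¹ ∈ K then b (π (y * x * y⁻¹)) else 0) = if x ∈ K then b (π x) else 0
    have h1 : y * x * y⁻¹ ∈ K ↔ x ∈ K := by
      constructor
      · intro h
        have := hKnormal.conj_mem _ h y⁻¹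
        have e1 : y⁻¹ * (y * x * y⁻¹) * y⁻¹⁻¹ = x := by group
        rwa [e1] at this
      · exact fun h => hKnormal.conj_mem x h y
    by_cases hx : x ∈ K
    · rw [if_pos (h1.2 hx), if_pos hx, map_mul, map_mul, map_inv, hNB.2.1]
    · rw [if_neg (fun h => hx (h1.1 h)), if_neg hx]
  · intro g hg
    exact if_neg hg
  · rw [hbE']
    exact dzb_equiv κ hNB.2.2.2
  · refine ⟨hρ.1, ?_⟩
    have : Set.range (α.comp K.subtype) = Set.range ρ := by
      ext A
      constructor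
      · rintro ⟨x, rfl⟩; exact ⟨κ x, (hκα x).symm⟩
      · rintro ⟨x, rfl⟩; exact ⟨κ.symm x, by rw [hκα, MulEquiv.apply_symm_apply]⟩
    rw [this, hρ.2]
  · rw [hbE']
    exact (ev_equiv' κ ρ (α.comp K.subtype) hκα (fun y : N => b y)).trans hρb
  · have := Fintype.ofFinite K
    have := Fintype.ofFinite N
    funext x
    have h1 : mulF e b (π x) = e (π x) := congrFun heb (π x)
    rw [← h1, mulF_supp K _ bE (fun g hg => if_neg hg), mulF_supp N e b hNB.2.2.1,
      finsum_eq_sum_of_fintype, finsum_eq_sum_of_fintype,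
      ← Equiv.sum_comp κ.toEquiv (fun k : N => e (π x * (k : G)⁻¹) * b k), Finset.mul_sum]
    refine Finset.sum_congr rfl fun k _ => ?_
    have e1 : κ.toEquiv k = κ k := rfl
    rw [e1, hbE, hκ, map_mul, map_inv, mul_assoc]


/-- the extendible case -/
theorem step2E (hnch : NchStmt) (hsup : SupStmt) (hnco : NcoStmt) (hdzq : DzqStmt)
    (hpsf : PsfStmt) (hdfq : DfqStmt) (hcmp : CmpStmt) {ℓ : ℕ} {F : Type} [Field F]
    (hF : GoodF ℓ F) {G : Type} [Group G] [Finite G]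
    (N M : Subgroup G) [N.Normal] (b e : G → F) (n : ℕ) (α : G →* Matrix (Fin n) (Fin n) F)
    (hNB : NB ℓ N b) (hα : IsIrr (α.comp N.subtype))
    (hαb : ev (α.comp N.subtype) (fun x : N => b x) = 1)
    (he : IsIdem e) (heb : mulF e b = e) (hM : M.Normal) (hNM : N ≤ M) (hpos : Pos ℓ e M) :
    ∃ f : G ⧸ N → F, IsIdem f ∧ Pos ℓ f (M.map (QuotientGroup.mk' N)) ∧
      (∀ 𝒟 : (Q : Type) → [Group Q] → Prop, SubCl 𝒟 → DfE ℓ 𝒟 e M →
        DfE ℓ 𝒟 f (M.map (QuotientGroup.mk' N))) ∧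
      YY ℓ M e = (Nat.card N : ℤ) * YY ℓ (M.map (QuotientGroup.mk' N)) f := by
  classical
  have : Fact ℓ.Prime := ⟨hF.prime⟩
  obtain ⟨f, hf, hfi, hfp⟩ := hpsf ℓ F hF G N b e n α hNB hα hαb he heb
  refine ⟨f, hfi, hfp M hM hNM hpos, ?_, ?_⟩
  · intro 𝒟 h𝒟 hd Q hQM hQ hg
    set T : Subgroup G := Q.comap (QuotientGroup.mk' N) with hT
    have hNT : N ≤ T := by
      intro x hx
      have h1 : QuotientGroup.mk' N x = 1 := (QuotientGroup.eq_one_iff x).2 hx
      change QuotientGroup.mk' N x ∈ Q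
      rw [h1]
      exact Q.one_mem
    have hTQ : T.map (QuotientGroup.mk' N) = Q :=
      Subgroup.map_comap_eq_self_of_surjective (QuotientGroup.mk'_surjective N) Q
    obtain ⟨k, hk⟩ := IsPGroup.iff_card.1 hQ
    have hidx : N.relIndex T = ℓ ^ k := by
      have h1 : (⊥ : Subgroup (G ⧸ N)).comap (QuotientGroup.mk' N) = N := by
        rw [MonoidHom.comap_bot, QuotientGroup.ker_mk']
      have h2 := Subgroup.relIndex_comap (⊥ : Subgroup (G ⧸ N)) (QuotientGroup.mk' N) T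
      rw [h1, hTQ, Subgroup.relIndex_bot_left, hk] at h2
      exact h2
    obtain ⟨P, hP, hPN⟩ := (hcmp ℓ F hF G N T b hNB hNT ⟨k, hidx⟩).1
    have hPQ : P.map (QuotientGroup.mk' N) = Q := by
      have h1 : (P ⊔ N).map (QuotientGroup.mk' N) = P.map (QuotientGroup.mk' N) := by
        rw [Subgroup.map_sup, (Subgroup.map_eq_bot_iff N).2 (by rw [QuotientGroup.ker_mk']),
          sup_bot_eq]
      rw [← h1, hPN, hTQ]
    have hPM : P ≤ M := by
      intro x hx
      have h1 : QuotientGroup.mk' N x ∈ M.map (QuotientGroup.mk' N) := by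
        apply hQM
        rw [← hPQ]
        exact ⟨x, hx, rfl⟩
      obtain ⟨y, hy, hyx⟩ := h1
      have h2 : y⁻¹ * x ∈ N := QuotientGroup.eq.1 hyx
      have h3 := M.mul_mem hy (hNM h2)
      rwa [mul_inv_cancel_left] at h3
    have h4 : 𝒟 P := by
      refine hd P hPM hP.1 (hdfq ℓ F hF G N b e n α hNB hα hαb he heb f hf P hP ?_)
      rw [hPQ]
      exact hg
    have hinj : Function.Injective ((QuotientGroup.mk' N).subgroupMap P) := by
      rw [injective_iff_map_eq_one]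
      intro y hy
      have h5 : (y : G) ∈ N := (QuotientGroup.eq_one_iff (y : G)).1 (congrArg Subtype.val hy)
      have h6 : (y : G) ∈ P ⊓ N := ⟨y.2, h5⟩
      rw [hP.2.1, Subgroup.mem_bot] at h6
      exact Subtype.ext h6
    let i : P ≃* P.map (QuotientGroup.mk' N) := MulEquiv.ofBijective _
      ⟨hinj, (QuotientGroup.mk' N).subgroupMap_surjective P⟩
    have h5 : 𝒟 (P.map (QuotientGroup.mk' N)) := h𝒟 _ P i.symm.toMonoidHom i.symm.injective h4
    rw [hPQ] at h5
    exact h5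
  have e1 : YY ℓ M e = ∑ d ∈ (chainsOn (psubIn ℓ M) ⊥).filter NormalChain,
      (-1) ^ (d.card + 1) * ((Nat.card (stab d) : ℤ) * (lnum (stab d) e : ℤ)) :=
    hnch ℓ G M (fun S _ => (Nat.card S : ℤ) * (lnum S e : ℤ))
  have e2 : YY ℓ (M.map (QuotientGroup.mk' N)) f =
      ∑ d ∈ (chainsOn (psubIn ℓ (M.map (QuotientGroup.mk' N))) ⊥).filter NormalChain,
      (-1) ^ (d.card + 1) * ((Nat.card (stab d) : ℤ) * (lnum (stab d) f : ℤ)) :=
    hnch ℓ (G ⧸ N) (M.map (QuotientGroup.mk' N)) (fun S _ => (Nat.card S : ℤ) * (lnum S f : ℤ))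
  obtain ⟨h1, h2⟩ := hnco ℓ F hF G N M b hNB hM hNM
  have h3 := h2 (fun c => (lnum (stab c) e : ℤ)) (fun c => (lnum (stab c) f : ℤ)) (by
    intro c hc hcn hcg
    obtain ⟨_, _, _, _, h4, _⟩ := h1 c hc hcn hcg
    rw [h4, hdzq ℓ F hF G N b e n α hNB hα hαb he heb f hfi hf c
      (H18.chainsOn_mono le_top hc) hcn hcg])
  rw [e1, e2, ← h3]
  symm
  apply Finset.sum_subset_zero_on_sdiff
  · intro c hc
    rw [Finset.mem_filter] at hc ⊢
    exact ⟨hc.1, hc.2.1⟩
  · intro c hc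
    rw [Finset.mem_sdiff, Finset.mem_filter, Finset.mem_filter] at hc
    have hg : ¬ Good ℓ N b (top c) := fun hg => hc.2 ⟨hc.1.1, hc.1.2, hg⟩
    rw [(hsup ℓ F hF G N b e hNB he heb).2.2 c (H18.chainsOn_mono le_top hc.1.1) hc.1.2 hg,
      Nat.cast_zero, mul_zero, mul_zero]
  · intro c _
    rfl

/-- DZE -/
theorem dzE (hdfq : DfqStmt) (hcmp : CmpStmt) (hcov : CovStmt) (hcen : CenStmt) (hm : MatStmt)
    (hnch : NchStmt) (hsup : SupStmt) (hnco : NcoStmt) (hdzq : DzqStmt) (hpsf : PsfStmt) :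
    DzEStmt := by
  intro ℓ F _ hF G _ _ N M _ b e hNB hM hNM he heb hpos
  obtain ⟨E, i1, i2, π, K, bE, eE, n, α, hπ, hcentral, hprime, hKinj, hKmap, hNBE, hα, hαb, heE,
    heEb, hposE, hev, hYY⟩ := step1E hcov hcen hm hF N M b e hNB he heb hM hpos
  have hKn : K.Normal := hNBE.1
  have hKM : K ≤ M.comap π := by
    intro x hx
    apply hNM
    rw [← hKmap]
    exact ⟨x, hx, rfl⟩
  obtain ⟨f, hf1, hf2, hfd, hf3⟩ := step2E hnch hsup hnco hdzq hpsf hdfq hcmp hF K (M.comap π) bE eE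
    n α hNBE hα hαb heE heEb (hM.comap π) hKM hposE
  obtain ⟨h1, h2, h3, h4, h5, ⟨ψ, p1, p2⟩, φ, h6, h7, h8⟩ := grp π hπ hcentral K hKinj N M hKmap hM
  refine ⟨E ⧸ K, inferInstance, inferInstance, (π.ker).map (QuotientGroup.mk' K),
    (M.comap π).map (QuotientGroup.mk' K), φ, ψ, f, p1, p2, h1, ?_, h3, h4, h6, h7, h8, hf1, hf2,
    ?_, ?_⟩
  · rw [h2]; exact hprime
  · intro 𝒟 h𝒟 hd
    exact hfd 𝒟 h𝒟 (DfE.pull h𝒟 hF.prime π (M.comap π) (Subgroup.map_comap_le π M)
      (not_dvd_inf hprime _) hev hd)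
  · rw [h2, ← hYY, hf3, h5]

end Pool.Agent.DF
end
end -- Pool.Agent.Helper66_DF.DzE

section -- Pool.Agent.Helper66_DF.S1nE

/-!
# Squad DF, module S1NE: the case of a simple chief factor, nilpotent outer part
-/

open scoped BigOperators

set_option linter.unusedSectionVars false

noncomputable section

namespace Pool.Agent.DF

open Pool.Agent.Helper51_AWC Pool.Agent.Helper79_WRA Pool.Agent.PP Pool.Agent.PP.H67

theorem iter_idem {F H : Type} [Field F] [Group H] {a : H → F} (h : mulF a a = a) (k : ℕ) :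
    (mulF a)^[k] a = a := by
  induction k with
  | zero => rfl
  | succ k ih => rw [Function.iterate_succ_apply', ih, h]

/-- two class functions with the same action on the irreducible representations -/
theorem DfE.of_ev {ℓ : ℕ} {𝒟 : (Q : Type) → [Group Q] → Prop} {F H : Type} [Field F] [Group H]
    [Finite H] (hF : GoodF ℓ F) {s f : H → F} (hs : IsCl s) (hf : IsIdem f)
    (hev : ∀ (m : ℕ) (κ : H →* Matrix (Fin m) (Fin m) F), IsIrr κ → ev κ f = ev κ s)
    {N : Subgroup H} (h : DfE ℓ 𝒟 s N) : DfE ℓ 𝒟 f N := by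
  intro Q hQ hp hg
  obtain ⟨g, hg, hg'⟩ := hg
  by_contra hQ'
  apply hg'
  have h0 : PP.br Q s = 0 := by
    funext t
    by_cases ht : t ∈ Subgroup.centralizer (Q : Set H)
    · rw [H66.br_of_mem ht]
      by_contra h1
      exact hQ' (h Q hQ hp ⟨t, ht, h1⟩)
    · rw [H66.br_of_not_mem ht]
      rfl
  obtain ⟨k, hk⟩ := H20.ibn ℓ F hF H (fun x => f x - s x) (by
    intro n ρ hρ
    have h1 : ev ρ (fun x => f x - s x) = ev ρ f - ev ρ s := by
      have := Fintype.ofFinite H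
      unfold ev
      rw [finsum_eq_sum_of_fintype, finsum_eq_sum_of_fintype, finsum_eq_sum_of_fintype,
        ← Finset.sum_sub_distrib]
      exact Finset.sum_congr rfl fun t _ => sub_smul _ _ _
    rw [h1, hev n ρ hρ, sub_self])
  have hcl : H66.Inv Q (fun x => f x - s x) := by
    intro p _ t
    change f (p * t * p⁻¹) - s (p * t * p⁻¹) = f t - s t
    rw [hf.1, hs]
  have hfc : H66.Inv Q f := fun p _ t => hf.1 t p
  have h2 : PP.br Q (fun x => f x - s x) = PP.br Q f := by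
    funext t
    by_cases ht : t ∈ Subgroup.centralizer (Q : Set H)
    · have h3 := congrFun h0 t
      rw [H66.br_of_mem ht] at h3
      rw [H66.br_of_mem ht, H66.br_of_mem ht]
      change f t - s t = f t
      rw [h3]
      exact sub_zero _
    · rw [H66.br_of_not_mem ht, H66.br_of_not_mem ht]
  have h3 := H66.br_iter hF hp hcl hcl k
  rw [hk, h2, H66.br_zero] at h3
  have h4 : mulF (PP.br Q f) (PP.br Q f) = PP.br Q f := by
    rw [← H66.br_mulF hF hp hfc hfc, hf.2]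
  rw [iter_idem h4] at h3
  have h5 := congrFun h3 g
  rw [H66.br_of_mem hg] at h5
  exact h5.symm

section s1

variable {ℓ : ℕ} [Fact ℓ.Prime] {𝒟 : (Q : Type) → [Group Q] → Prop} {F : Type} [Field F]
  {G : Type} [Group G] [Finite G]

/-- The reduction to the nearly simple group for one `θ`. -/
theorem s1_thetaE (h𝒟 : SubCl 𝒟) (hchf : ChfStmt) (hpow : PowStmt) (hpse : PseStmt) (hstr : StrStmt)
    (hlqu : LquEStmt) (hlma : LmaStmt) (hF : GoodF ℓ F)
    {N : Subgroup G} (hN : N.Normal) (hO : opCore ℓ N = ⊥)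
    (hS : NASimple (N ⧸ (Subgroup.center G).subgroupOf N)) (hnil : NilOut N)
    (hY : YltE ℓ 𝒟 F (mu N))
    (hyp : ∀ (D : Type) [Group D] [Finite D], opCore ℓ D = ⊥ →
      NearlySimpleL ℓ D (N ⧸ (Subgroup.center G).subgroupOf N) →
      Involves G (D ⧸ Subgroup.center D) → ∀ f : D → F, IsIdem f →
      (∀ z ∈ Subgroup.center D, z ≠ 1 → ∃ c : F, c ≠ 1 ∧ ∀ x, f (z * x) = c * f x) →
      Pos ℓ f ⊤ → DfE ℓ 𝒟 f ⊤ → YY ℓ ⊤ f = 0)
    (hgood : ∀ (E : Type) [Group E] [Finite E] (p : E →* G) (K : Subgroup E) [K.Normal],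
      (∀ x, p x = 1 → x ∈ Subgroup.center E) →
      GoodPE ℓ 𝒟 F ((N.comap p).map (QuotientGroup.mk' K)))
    {e : G → F} (he : IsIdem e) (hPos : Pos ℓ e N) (hdf : DfE ℓ 𝒟 e N)
    (hC : (Subgroup.centralizer (N : Set G)).Normal)
    {n : ℕ} {ρ : Subgroup.centralizer (N : Set G) →* Matrix (Fin n) (Fin n) F} {E : Type}
    [Group E] [Finite E] {p : E →* G} {α : E →* Matrix (Fin n) (Fin n) F} {K : Subgroup E}
    [K.Normal] (hcov : Cover ℓ (Subgroup.centralizer (N : Set G)) (stC hC (tr ρ)) ρ p α K) :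
    ∑ d ∈ chainsOn (psubIn ℓ N) ⊥, (-1) ^ (d.card + 1) *
      ((Nat.card (stab d ⊓ stC hC (tr ρ) : Subgroup G) : ℤ) *
        ((LT (stab d ⊓ stC hC (tr ρ)) (tr ρ) e).ncard : ℤ)) = 0 := by
  classical
  have hF' := hF.char
  obtain ⟨s, hs1, hs2, hs3, hs4⟩ := hlma ℓ F hF G E _ hC n ρ p α K hcov e he
  -- the irreducible representations of `D`
  have hkey : ∀ (m : ℕ) (κ : E ⧸ K →* Matrix (Fin m) (Fin m) F) (w : F), IsIrr κ →
      ev κ s = Matrix.scalar (Fin m) w → w ≠ 0 → w = 1 ∧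
      ∃ (k : ℕ) (σ : G →* Matrix (Fin k) (Fin k) F) (P : Matrix (Fin (n * m)) (Fin k) F)
        (Q : Matrix (Fin k) (Fin (n * m)) F), IsIrr σ ∧ ev σ e = 1 ∧ P * Q = 1 ∧
        ∀ x : E, Q * P * σ (p x) = σ (p x) * (Q * P) ∧ P * σ (p x) * Q = kr (α x) (κ x) := by
    intro m κ w hκ hw hw0
    obtain ⟨σ', h1, h2, h3, h4⟩ := hs4 m κ w hκ hw hw0
    obtain ⟨k, σ, P, Q, k1, k2, k3, k4, k5⟩ := clr ℓ F hF G _ hC n (n * m) ρ σ' hcov.irr h1 h2
    obtain ⟨w', l1, -, l3⟩ := H20.eig F G k σ k1 e he.1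
    have hnm : 0 < n * m := Nat.mul_pos hcov.irr.1 hκ.1
    have h5 : w = w' := scalar_inj hnm (h4.symm.trans (k5 e w' he.1 l1))
    have h6 : w = 1 := by
      rcases l3 he with h | h
      · exact absurd (h5.trans h) hw0
      · exact h5.trans h
    refine ⟨h6, k, σ, P, Q, k1, ?_, k2, ?_⟩
    · rw [l1, ← h5, h6, map_one]
    · intro x
      have hx : p x ∈ stC hC (tr ρ) := by
        rw [← hcov.range]
        exact ⟨x, rfl⟩
      refine ⟨k4 ⟨p x, hx⟩, ?_⟩
      rw [← h3 x hx]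
      exact k3 ⟨p x, hx⟩
  obtain ⟨f, hf1, hf2, hf3, hf4⟩ := hpow ℓ F hF (E ⧸ K) s hs1 (by
    intro m κ w hκ hw
    by_cases h0 : w = 0
    · exact Or.inl h0
    · exact Or.inr (hkey m κ w hκ hw h0).1)
  -- the structure of `D`
  have hNC : ∀ x ∈ N, ∀ c ∈ Subgroup.centralizer (N : Set G), x * c = c * x :=
    fun x hx c hc => Subgroup.mem_centralizer_iff.1 hc x hx
  have hNL : N ≤ stC hC (tr ρ) := by
    intro g hg c
    congr 1
    apply Subtype.ext
    show g * (c : G) * g⁻¹ = c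
    rw [hNC g hg c c.2]
    group
  have hNr : N ≤ p.range := by rw [hcov.range]; exact hNL
  obtain ⟨t1, t2, t3, t5, t4, t6, t7, t8, t9, t10⟩ := hstr ℓ G E N hN hO hS hnil p K hNr
    (by rw [hcov.range]; exact hcov.le) hcov.central hcov.prime hcov.map_K hcov.inf_ker
  have hmapN : (N.comap p).map p = N := by
    rw [Subgroup.map_comap_eq]
    exact inf_eq_right.2 hNr
  have hCN : ¬ ℓ ∣ Nat.card (Subgroup.centralizer (N : Set G) ⊓ N : Subgroup G) := by
    intro h
    apply t2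
    have h1 : (K ⊓ N.comap p).map p = Subgroup.centralizer (N : Set G) ⊓ N := by
      ext g
      constructor
      · rintro ⟨x, ⟨hx, hx'⟩, rfl⟩
        refine ⟨?_, hx'⟩
        rw [← hcov.map_K]
        exact ⟨x, hx, rfl⟩
      · rintro ⟨hg, hg'⟩
        have h2 : g ∈ K.map p := by rw [hcov.map_K]; exact hg
        obtain ⟨x, hx, rfl⟩ := h2
        exact ⟨x, ⟨hx, hg'⟩, rfl⟩
    rw [← h1] at h
    exact h.trans (Subgroup.card_map_dvd _ p)
  -- positivity
  have hPosf : Pos ℓ f ((N.comap p).map (QuotientGroup.mk' K)) := by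
    refine hpse ℓ F hF G E _ _ n ρ p α K hC hcov N hN hNL hNC hCN e he hPos f hf1 ?_
    intro m κ hκ h0
    obtain ⟨w, hw, -, -⟩ := H20.eig F (E ⧸ K) m κ hκ s hs1
    have hw0 : w ≠ 0 := by
      rintro rfl
      apply h0
      rw [hf2 m κ hκ, hw, map_zero]
    exact (hkey m κ w hκ hw hw0).2
  -- the defect groups
  have hdff : DfE ℓ 𝒟 f ((N.comap p).map (QuotientGroup.mk' K)) := by
    refine DfE.of_ev hF hs1 hf1 hf2 ?_
    refine DfE.push h𝒟 hF.prime (QuotientGroup.mk' K) (N.comap p) (hN.comap p) ?_ ?_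
      (ê := fun x => e (p x)) ?_ (DfE.pull h𝒟 hF.prime p (N.comap p) (Subgroup.map_comap_le p N)
        (not_dvd_inf hcov.prime _) (fun x hx => hx) hdf)
    · intro k hk m hm
      exact t1 k ((QuotientGroup.eq_one_iff k).1 hk) m hm
    · rw [QuotientGroup.ker_mk']
      exact t2
    · intro y hy
      obtain ⟨x, rfl⟩ := QuotientGroup.mk'_surjective K y
      by_contra hcon
      apply hy
      apply scalar_inj hcov.irr.1
      rw [map_zero]
      have h1 := hs2 x
      change Matrix.scalar (Fin n) (s (x : E ⧸ K)) = 0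
      rw [← h1, ← finsum_zero (α := K)]
      apply finsum_congr
      intro k
      have h2 : e (p (x * k)) = 0 := by
        by_contra h3
        refine hcon ⟨x * k, ?_, h3⟩
        rw [map_mul]
        have h4 : QuotientGroup.mk' K (k : E) = 1 := (QuotientGroup.eq_one_iff (k : E)).2 k.2
        rw [h4, mul_one]
      rw [h2, mul_zero, zero_smul]
  -- faithfulness
  have hfaith : ∀ z ∈ Subgroup.center (E ⧸ K), z ≠ 1 →
      ∃ c : F, c ≠ 1 ∧ ∀ x, f (z * x) = c * f x := by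
    intro z hz hz1
    rw [t4] at hz
    obtain ⟨y, hy, rfl⟩ := hz
    have hy1 : p y = 1 := hy
    obtain ⟨c, hc⟩ := hcov.scalar y hy1
    refine ⟨c, ?_, hf4 _ c ?_⟩
    · rintro rfl
      apply hz1
      have h1 : y = 1 := hcov.faithful y hy1 (by rw [hc, map_one])
      rw [h1, map_one]
    · intro x
      obtain ⟨x, rfl⟩ := QuotientGroup.mk'_surjective K x
      have h1 := hs2 x
      have h2 := hs2 (y * x)
      have hK := Fintype.ofFinite K
      rw [finsum_eq_sum_of_fintype] at h1 h2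
      have h3 : ∀ k : K, ((Nat.card p.ker : F)⁻¹ * e (p (y * x * k))) • α (y * x * k) =
          c • (((Nat.card p.ker : F)⁻¹ * e (p (x * k))) • α (x * k)) := by
        intro k
        rw [mul_assoc y, map_mul p, hy1, one_mul, map_mul α, hc, Matrix.scalar_apply,
          ← Matrix.smul_eq_diagonal_mul, smul_comm]
      rw [Finset.sum_congr rfl (fun k _ => h3 k), ← Finset.smul_sum, h1] at h2
      apply scalar_inj hcov.irr.1
      have h4 : Matrix.scalar (Fin n) (c * s (QuotientGroup.mk' K x)) =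
          c • Matrix.scalar (Fin n) (s (QuotientGroup.mk' K x)) := by
        rw [Matrix.scalar_apply, Matrix.scalar_apply, ← Matrix.smul_one_eq_diagonal,
          ← Matrix.smul_one_eq_diagonal, smul_smul]
      rw [h4]
      exact h2.symm
  have hfin : YY ℓ ((N.comap p).map (QuotientGroup.mk' K)) f = 0 := by
    refine hlqu ℓ 𝒟 h𝒟 F hF (N ⧸ (Subgroup.center G).subgroupOf N) hS (E ⧸ K) _ t6 t3 t5 t7 t8 t9
      (t10.trans (Subgroup.index_eq_card _)) (hgood E p K hcov.central) ?_ ?_ f hf1 hfaith hPosf hdff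
    · rw [t10]
      exact hY
    · intro D₀ _ _ i hi h1 h2
      refine hyp D₀ h1 h2 ?_
      obtain ⟨T, hT⟩ := h2.nearlySimple.socle hS
      refine hT.involves_central p hcov.central ?_
      exact Involves.of_surjective (QuotientGroup.mk' K) (QuotientGroup.mk'_surjective K)
        (Involves.of_injective i hi (Involves.of_surjective (QuotientGroup.mk' _)
          (QuotientGroup.mk'_surjective _) (Involves.refl _)))
  -- the chains
  have hM : (N.comap p).Normal := hN.comap p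
  have hCst : ∀ d ∈ chainsOn (psubIn ℓ N) ⊥, Subgroup.centralizer (N : Set G) ≤ stab d :=
    fun d hd => cent_le_stab hd
  have hkerp : ∀ X : Subgroup G, p.ker ≤ X.comap p := by
    intro X x hx
    have h1 : p x = 1 := hx
    rw [Subgroup.mem_comap, h1]
    exact X.one_mem
  have hcount : ∀ X : Subgroup G, Subgroup.centralizer (N : Set G) ≤ X →
      Nat.card p.ker * Nat.card (X ⊓ stC hC (tr ρ) : Subgroup G) =
        Nat.card K * Nat.card ((X.comap p).map (QuotientGroup.mk' K)) := by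
    intro X hX
    have h1 := card_ker_mul p (X.comap p) (hkerp X)
    have h2 := card_ker_mul (QuotientGroup.mk' K) (X.comap p) (by
      rw [QuotientGroup.ker_mk']
      intro x hx
      obtain ⟨c, hc, -⟩ := (hcov.mem x).1 hx
      rw [Subgroup.mem_comap, hc]
      exact hX c.2)
    rw [Subgroup.map_comap_eq, hcov.range] at h1
    rw [QuotientGroup.ker_mk'] at h2
    rw [h2, ← h1, inf_comm]
  have hcl : Nat.card p.ker ≠ 0 := Nat.card_pos.ne'
  have hcl' : (Nat.card p.ker : ℤ) ≠ 0 := by exact_mod_cast hcl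
  apply (mul_eq_zero.1 ?_).resolve_left hcl'
  rw [Finset.mul_sum]
  have hw := hchf ℓ E G p (N.comap p) hM (fun k hk m _ => by
      have := Subgroup.mem_center_iff.1 (hcov.central k hk) m
      exact this.symm) (fun h => hcov.prime (h.trans (Subgroup.card_dvd_of_le inf_le_left)))
    (fun Y => (Nat.card (Y.map (QuotientGroup.mk' K)) : ℤ) *
      (lnum (Y.map (QuotientGroup.mk' K)) s : ℤ))
  have hw' := hchf ℓ E (E ⧸ K) (QuotientGroup.mk' K) (N.comap p) hM (fun k hk m hm => by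
      apply t1 k _ m hm
      rw [← QuotientGroup.ker_mk' K]
      exact hk) (by rw [QuotientGroup.ker_mk']; exact t2)
    (fun Y => (Nat.card (Y.map (QuotientGroup.mk' K)) : ℤ) *
      (lnum (Y.map (QuotientGroup.mk' K)) s : ℤ))
  rw [hmapN] at hw
  have hmc : ∀ Y : Subgroup (E ⧸ K), (Y.comap (QuotientGroup.mk' K)).map (QuotientGroup.mk' K) =
      Y := by
    intro Y
    rw [Subgroup.map_comap_eq, MonoidHom.range_eq_top.2 (QuotientGroup.mk'_surjective K), top_inf_eq]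
  simp only [hmc] at hw'
  have hYY : YY ℓ ((N.comap p).map (QuotientGroup.mk' K)) s = 0 := by
    rw [← hf3 _ t6, hfin]
  rw [hw'] at hw
  change YY ℓ ((N.comap p).map (QuotientGroup.mk' K)) s = _ at hw
  rw [hYY] at hw
  have hfinal : ∀ d ∈ chainsOn (psubIn ℓ N) ⊥, (Nat.card p.ker : ℤ) * ((-1) ^ (d.card + 1) *
      ((Nat.card (stab d ⊓ stC hC (tr ρ) : Subgroup G) : ℤ) *
        ((LT (stab d ⊓ stC hC (tr ρ)) (tr ρ) e).ncard : ℤ))) = (Nat.card K : ℤ) *
      ((-1) ^ (d.card + 1) * ((Nat.card (((stab d).comap p).map (QuotientGroup.mk' K)) : ℤ) *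
      (lnum (((stab d).comap p).map (QuotientGroup.mk' K)) s : ℤ))) := by
    intro d hd
    have h1 := hcount (stab d) (hCst d hd)
    rw [hs3 (stab d) (hCst d hd)]
    have h2 : (Nat.card p.ker : ℤ) * (Nat.card (stab d ⊓ stC hC (tr ρ) : Subgroup G) : ℤ) =
        (Nat.card K : ℤ) * (Nat.card (((stab d).comap p).map (QuotientGroup.mk' K)) : ℤ) := by
      exact_mod_cast h1
    linear_combination ((-1) ^ (d.card + 1) *
      (lnum (((stab d).comap p).map (QuotientGroup.mk' K)) s : ℤ)) * h2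
  rw [Finset.sum_congr rfl hfinal, ← Finset.mul_sum, ← hw, mul_zero]

/-- S1, the case of a simple chief factor, with the hypotheses on nearly simple groups and on the
induction in a general form. -/
theorem s1_coreE (h𝒟 : SubCl 𝒟) (hcvr : CvrStmt) (hchf : ChfStmt) (hpow : PowStmt) (hpse : PseStmt)
    (hstr : StrStmt) (hlqu : LquEStmt) (hlma : LmaStmt) (hF : GoodF ℓ F)
    {N : Subgroup G} (hN : N.Normal) (hO : opCore ℓ N = ⊥)
    (hS : NASimple (N ⧸ (Subgroup.center G).subgroupOf N)) (hnil : NilOut N)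
    (hY : YltE ℓ 𝒟 F (mu N))
    (hyp : ∀ (D : Type) [Group D] [Finite D], opCore ℓ D = ⊥ →
      NearlySimpleL ℓ D (N ⧸ (Subgroup.center G).subgroupOf N) →
      Involves G (D ⧸ Subgroup.center D) → ∀ f : D → F, IsIdem f →
      (∀ z ∈ Subgroup.center D, z ≠ 1 → ∃ c : F, c ≠ 1 ∧ ∀ x, f (z * x) = c * f x) →
      Pos ℓ f ⊤ → DfE ℓ 𝒟 f ⊤ → YY ℓ ⊤ f = 0)
    (hgood : ∀ (E : Type) [Group E] [Finite E] (p : E →* G) (K : Subgroup E) [K.Normal],
      (∀ x, p x = 1 → x ∈ Subgroup.center E) →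
      GoodPE ℓ 𝒟 F ((N.comap p).map (QuotientGroup.mk' K)))
    {e : G → F} (he : IsIdem e) (hPos : Pos ℓ e N) (hdf : DfE ℓ 𝒟 e N) : YY ℓ N e = 0 := by
  classical
  have hC : (Subgroup.centralizer (N : Set G)).Normal := inferInstance
  have hfin : (IBr F (Subgroup.centralizer (N : Set G))).Finite := (H20.ibf ℓ F hF _).1
  have h1 : ∀ d ∈ chainsOn (psubIn ℓ N) ⊥, (-1 : ℤ) ^ (d.card + 1) *
      ((Nat.card (stab d) : ℤ) * (lnum (stab d) e : ℤ)) = ∑ θ ∈ hfin.toFinset,
        (-1) ^ (d.card + 1) * ((Nat.card (stab d ⊓ stC hC θ : Subgroup G) : ℤ) *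
          ((LT (stab d ⊓ stC hC θ) θ e).ncard : ℤ)) := by
    intro d hd
    rw [cls ℓ F hF G _ hC (stab d) (cent_le_stab hd) e he.1,
      finsum_mem_eq_finite_toFinset_sum _ hfin, Finset.mul_sum]
  rw [YY, Finset.sum_congr rfl h1, Finset.sum_comm]
  apply Finset.sum_eq_zero
  intro θ hθ
  obtain ⟨n, ρ, hρ, rfl⟩ := (Set.Finite.mem_toFinset hfin).1 hθ
  obtain ⟨E, _, _, p, α, K, hK, hcov⟩ := hcvr ℓ F hF G _ hC n ρ hρ
  exact s1_thetaE h𝒟 hchf hpow hpse hstr hlqu hlma hF hN hO hS hnil hY hyp hgood he hPos hdf hC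
    hcov

end s1

/-- SI1 -/
theorem s1nE (hcvr : CvrStmt) (hpow : PowStmt) (hlma : LmaStmt) (hlqu : LquEStmt) :
    S1nEStmt := by
  intro ℓ hℓ 𝒟 h𝒟 F _ hF G _ _ N hN hO hS hnil hG hY e he hPos hdf
  by_cases hdvd : ℓ ∣ Nat.card (N ⧸ (Subgroup.center G).subgroupOf N)
  · refine s1_coreE h𝒟 hcvr H74.chfStmt hpow H94.pse H63.str hlqu hlma hF hN hO hS hnil hY ?_ ?_ he
      hPos hdf
    · intro D _ _ h1 h2 h3 f hf hz hp hd
      have hI : Involves N (N ⧸ (Subgroup.center G).subgroupOf N) :=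
        Involves.of_surjective (QuotientGroup.mk' _) (QuotientGroup.mk'_surjective _)
          (Involves.refl _)
      refine hG _ hS hdvd hI D h1 ?_ h3 f hf hz hp hd
      first
        | exact h2.nearlySimple
        | exact h2
    · intro E _ _ p K _ hp
      exact hG.cover p hp K
  · have h1 : ¬ ℓ ∣ Nat.card N := by
      rw [Subgroup.card_eq_card_quotient_mul_card_subgroup ((Subgroup.center G).subgroupOf N),
        hℓ.out.dvd_mul, not_or]
      exact ⟨hdvd, not_dvd_central hO⟩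
    rw [eq_zero_of_pos h1 hPos]
    exact YY_zero hF N

end Pool.Agent.DF
end
end -- Pool.Agent.Helper66_DF.S1nE

section -- Pool.Agent.Helper66_DF.StmE

/-!
# Squad DF, module STME: reduction to stem groups
-/

open scoped BigOperators

set_option linter.unusedSectionVars false

noncomputable section

namespace Pool.Agent.DF

open Pool.Agent.Helper51_AWC Pool.Agent.Helper79_WRA Pool.Agent.PP Pool.Agent.PP.H18
open Pool.Agent.PP.H96

/-- STM -/
theorem stmE : StmEStmt := by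
  intro ℓ hℓ 𝒟 h𝒟 F _ hF H _ _ N _ hQ S _ _ hS hdvd hI D _ _ hO hns hinv e he hcl hpos hdf
  by_cases he0 : e = 0
  · rw [he0]
    exact H67.YY_zero hF ⊤
  have := hF.closed
  have := hF.char
  obtain ⟨a0, ha0⟩ : ∃ a, e a ≠ 0 := Function.ne_iff.1 he0
  -- the character `ζ`
  have hex : ∀ z : Subgroup.center D, ∃ c : F, ∀ x, e (z * x) = c * e x := by
    intro z
    by_cases hz : (z : D) = 1
    · exact ⟨1, fun x => by rw [hz, one_mul, one_mul]⟩
    · obtain ⟨c, -, hc⟩ := hcl z z.2 hz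
      exact ⟨c, hc⟩
  choose c hc using hex
  have huniq : ∀ (z : Subgroup.center D) (w : F), (∀ x, e (z * x) = w * e x) → w = c z := by
    intro z w hw
    exact mul_right_cancel₀ ha0 ((hw a0).symm.trans (hc z a0))
  have hc1 : c 1 = 1 := (huniq 1 1 (fun x => by rw [Subgroup.coe_one, one_mul, one_mul])).symm
  have hcm : ∀ z w, c (z * w) = c z * c w := fun z w =>
    (huniq (z * w) _ (fun x => by rw [Subgroup.coe_mul, mul_assoc, hc z, hc w, mul_assoc])).symm
  have hcu : ∀ z, c z ≠ 0 := by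
    intro z hz
    have h1 := hcm z z⁻¹
    rw [mul_inv_cancel, hc1, hz, zero_mul] at h1
    exact one_ne_zero h1
  obtain ⟨ζ, hζ⟩ : ∃ ζ : Subgroup.center D →* Fˣ, ∀ (z : Subgroup.center D) (x : D),
      e (z * x) = (ζ z : F) * e x :=
    ⟨{ toFun := fun z => Units.mk0 (c z) (hcu z)
       map_one' := Units.ext hc1
       map_mul' := fun z w => Units.ext (hcm z w) }, fun z x => hc z x⟩
  have hinj : Function.Injective ζ := by
    rw [injective_iff_map_eq_one]
    intro z hz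
    by_contra hne
    obtain ⟨w, hw1, hw⟩ := hcl z z.2 (fun h => hne (Subtype.ext h))
    have h1 := huniq z w hw
    have h2 := huniq z (ζ z : F) (hζ z)
    rw [hz, Units.val_one] at h2
    exact hw1 (h1.trans h2.symm)
  -- the extension of `ζ ^ n₀`
  obtain ⟨n₀, hn₀⟩ : ∃ n, n = Nat.card (Subgroup.center D ⊓ commutator D : Subgroup D) := ⟨_, rfl⟩
  have hn0 : 0 < n₀ := hn₀ ▸ Nat.card_pos
  have hpow : ∀ z : Subgroup.center D, (z : D) ∈ commutator D → ζ z ^ n₀ = 1 := by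
    intro z hz
    have h1 : (⟨z, z.2, hz⟩ : (Subgroup.center D ⊓ commutator D : Subgroup D)) ^ n₀ = 1 := by
      rw [hn₀]
      exact pow_card_eq_one'
    have h1' : (z : D) ^ n₀ = 1 := congrArg Subtype.val h1
    have h2 : z ^ n₀ = 1 := Subtype.ext h1'
    rw [← map_pow, h2, map_one]
  obtain ⟨lam, hlam⟩ := exists_lin (Subgroup.center D) ((powMonoidHom n₀).comp ζ) hpow
  have h : ∀ z, ζ z ^ n₀ = lam z := fun z => (hlam z).symm
  have hfin := hat_finite lam hn0
  have hZn : (zh h).range.Normal := zh_normal h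
  have hs := p1_surj lam hn0
  obtain ⟨hcen, ⟨φ⟩⟩ := quot_equiv h hn0 hinj
  obtain ⟨q, hq⟩ : ∃ q, q = QuotientGroup.mk' (zh h).range := ⟨_, rfl⟩
  have hqs : Function.Surjective q := by rw [hq]; exact QuotientGroup.mk'_surjective _
  have hqk : q.ker = (zh h).range := by rw [hq]; exact QuotientGroup.ker_mk' _
  -- the kernels have order prime to `ℓ`
  have hk1 : ¬ ℓ ∣ Nat.card (p1 lam n₀).ker := by
    apply not_dvd_of
    intro x hx hxl
    apply hat_ext
    · rw [map_one]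
      exact hx
    · rw [map_one]
      apply units_pow hF
      rw [← map_pow, hxl, map_one]
  have hk2 : ¬ ℓ ∣ Nat.card q.ker := by
    apply not_dvd_of
    intro x hx hxl
    rw [hqk] at hx
    obtain ⟨z, rfl⟩ := hx
    have h1 : ζ z = 1 := by
      apply units_pow hF
      rw [← chi_zh h z, ← map_pow, hxl, map_one]
    rw [← map_one ζ] at h1
    rw [hinj h1, map_one]
  -- the centre of `D₀`
  have hone : ∀ w : hat lam n₀ ⧸ (zh h).range, w ∈ Subgroup.center (hat lam n₀ ⧸ (zh h).range) →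
      ∃ y : hat lam n₀, p1 lam n₀ y = 1 ∧ w = q y := by
    intro w hw
    obtain ⟨x, rfl⟩ := QuotientGroup.mk'_surjective (zh h).range w
    rw [hq]
    exact exists_one h ((hcen x).1 hw)
  have hcard : ¬ ℓ ∣ Nat.card (Subgroup.center (hat lam n₀ ⧸ (zh h).range)) := by
    apply not_dvd_of
    intro w hw hwl
    obtain ⟨y, hy1, rfl⟩ := hone w hw
    have h1 : y ^ ℓ ∈ (zh h).range := by rw [← hqk, MonoidHom.mem_ker, map_pow, hwl]
    have h2 : y ^ ℓ = 1 := one_inj h (by rw [map_pow, hy1, one_pow]) h1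
    have h3 : y = 1 := by
      apply hat_ext
      · rw [hy1, map_one]
      · rw [map_one]
        apply units_pow hF
        rw [← map_pow, h2, map_one]
    rw [h3, map_one]
  have hnsF : NearlySimpleF ℓ (hat lam n₀ ⧸ (zh h).range) S := nf_equiv φ hns
  obtain ⟨T, t1, t2, t3, -⟩ := hnsF
  have hO' : opCore ℓ (hat lam n₀ ⧸ (zh h).range) = ⊥ := opCore_bot hS T ⟨hS, t1, t2, t3⟩ hcard
  -- the centre of `D₀` lies in the commutator subgroup
  have hstem : Subgroup.center (hat lam n₀ ⧸ (zh h).range) ≤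
      commutator (hat lam n₀ ⧸ (zh h).range) := by
    intro w hw
    obtain ⟨y, hy1, rfl⟩ := hone w hw
    have hyr : (chi lam n₀ y)⁻¹ ^ n₀ = 1 := by
      rw [inv_pow, hat_rel, hy1, map_one, inv_one]
    -- a preimage under `ζ`
    obtain ⟨z, hz1, hz2⟩ : ∃ z : Subgroup.center D, (z : D) ∈ commutator D ∧
        ζ z = (chi lam n₀ y)⁻¹ := by
      have : NeZero n₀ := ⟨hn0.ne'⟩
      let θ : (Subgroup.center D ⊓ commutator D : Subgroup D) → rootsOfUnity n₀ F := fun z =>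
        ⟨ζ ⟨z, z.2.1⟩, by
          rw [mem_rootsOfUnity]
          exact hpow ⟨z, z.2.1⟩ z.2.2⟩
      have hθ : Function.Injective θ := by
        intro a b hab
        have h1 := congrArg Subtype.val hab
        have h2 := hinj h1
        rw [Subtype.mk.injEq] at h2
        exact Subtype.ext h2
      have hle : Nat.card (rootsOfUnity n₀ F) ≤
          Nat.card (Subgroup.center D ⊓ commutator D : Subgroup D) := by
        rw [← hn₀]
        exact card_rootsOfUnity F n₀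
      have hθb := (Function.Injective.bijective_of_nat_card_le hθ hle).2
      obtain ⟨z, hz⟩ := hθb ⟨(chi lam n₀ y)⁻¹, by rw [mem_rootsOfUnity]; exact hyr⟩
      exact ⟨⟨z, z.2.1⟩, z.2.2, congrArg Subtype.val hz⟩
    -- `(1, c) ζ̂(z) = (z, 1)` lies in the commutator subgroup
    have hmap : (commutator (hat lam n₀)).map (p1 lam n₀) = commutator D := by
      rw [commutator_def, Subgroup.map_commutator, Subgroup.map_top_of_surjective _ hs,
        commutator_def]
    obtain ⟨v, hv, hv1⟩ : (z : D) ∈ (commutator (hat lam n₀)).map (p1 lam n₀) := by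
      rw [hmap]
      exact hz1
    have hv2 : chi lam n₀ v = 1 := by
      have h1 : commutator (hat lam n₀) ≤ (chi lam n₀).ker :=
        Abelianization.commutator_subset_ker _
      exact h1 hv
    have h1 : v = y * zh h z := by
      apply hat_ext
      · rw [hv1, map_mul, hy1, one_mul, p1_zh]
      · rw [hv2, map_mul, chi_zh, hz2, mul_inv_cancel]
    have h2 : q y = q v := by
      have h3 : q (zh h z) = 1 := by
        rw [← MonoidHom.mem_ker, hqk]
        exact ⟨_, rfl⟩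
      rw [h1, map_mul, h3, mul_one]
    rw [h2]
    have h3 : (commutator (hat lam n₀)).map q = commutator (hat lam n₀ ⧸ (zh h).range) := by
      rw [commutator_def, Subgroup.map_commutator, Subgroup.map_top_of_surjective _ hqs,
        commutator_def]
    rw [← h3]
    exact ⟨v, hv, rfl⟩
  have hinv' : Involves H ((hat lam n₀ ⧸ (zh h).range) ⧸
      Subgroup.center (hat lam n₀ ⧸ (zh h).range)) := hinv.trans_equiv φ
  -- the idempotents
  have hp1c : ∀ x, p1 lam n₀ x = 1 → x ∈ Subgroup.center (hat lam n₀) := by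
    intro x hx
    apply central_of
    rw [hx]
    exact Subgroup.one_mem _
  have hqc : ∀ x, q x = 1 → x ∈ Subgroup.center (hat lam n₀) := by
    intro x hx
    rw [← MonoidHom.mem_ker, hqk] at hx
    exact zh_central h hx
  obtain ⟨i1, -, i2⟩ := H74.cen ℓ F hF (hat lam n₀) D (p1 lam n₀) hs hp1c hk1 e he
  have hcop1 : (Nat.card (p1 lam n₀).ker).Coprime ℓ :=
    ((hF.prime.coprime_iff_not_dvd).2 hk1).symm
  have hcop2 : (Nat.card q.ker).Coprime ℓ := ((hF.prime.coprime_iff_not_dvd).2 hk2).symm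
  have hne1 := H74.natCast_ne hF hcop1
  have hne2 := H74.natCast_ne hF hcop2
  obtain ⟨ê, hê⟩ : ∃ ê, ê = twl (chi lam n₀)⁻¹ (H74.infl (p1 lam n₀) e) := ⟨_, rfl⟩
  have hêv : ∀ x, ê x = (Nat.card (p1 lam n₀).ker : F)⁻¹ * e (p1 lam n₀ x) *
      (((chi lam n₀ x)⁻¹ : Fˣ) : F) := by
    intro x
    rw [hê]
    rfl
  have hinvar : ∀ z x, ê (zh h z * x) = ê x := by
    intro z x
    rw [hêv, hêv, map_mul, map_mul, p1_zh, chi_zh, hζ, mul_inv, Units.val_mul,
      Units.val_inv_eq_inv_val, Units.val_inv_eq_inv_val]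
    have h1 : (ζ z : F) ≠ 0 := (ζ z).ne_zero
    field_simp
  have hinvar' : ∀ x y, q x = q y → ê x = ê y := by
    intro x y hxy
    have h1 : x * y⁻¹ ∈ (zh h).range := by
      rw [← hqk, MonoidHom.mem_ker, map_mul, map_inv, hxy, mul_inv_cancel]
    obtain ⟨z, hz⟩ := h1
    have h2 : x = zh h z * y := by rw [hz, inv_mul_cancel_right]
    rw [h2, hinvar]
  choose r hr using hqs
  obtain ⟨e₀, he₀⟩ : ∃ e₀ : hat lam n₀ ⧸ (zh h).range → F, e₀ = fun w =>
      (Nat.card q.ker : F) * ê (r w) := ⟨_, rfl⟩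
  have he₀v : ∀ x, e₀ (q x) = (Nat.card q.ker : F) * ê x := by
    intro x
    rw [he₀]
    change (Nat.card q.ker : F) * ê (r (q x)) = _
    rw [hinvar' (r (q x)) x (hr _)]
  have hinfl : H74.infl q e₀ = ê := by
    funext x
    unfold H74.infl
    rw [he₀v, ← mul_assoc, inv_mul_cancel₀ hne2, one_mul]
  have hêi : IsIdem ê := by
    rw [hê]
    exact twl_idem _ i1
  have hqs' : Function.Surjective q := fun w => ⟨r w, hr w⟩
  have he₀i : IsIdem e₀ := idem_of_infl hF q hqs' hcop2 (by rw [hinfl]; exact hêi)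
  have hpos1 : Pos ℓ (H74.infl (p1 lam n₀) e) ⊤ := by
    have := (i2 ⊤ inferInstance).2 hpos
    rwa [Subgroup.comap_top] at this
  have hposê : Pos ℓ ê ⊤ := by
    rw [hê]
    exact twl_Pos _ _ hpos1
  have hpos0 : Pos ℓ e₀ ⊤ := by
    apply Pos_of_infl hF q hqs' hcop2
    rw [hinfl, Subgroup.comap_top]
    exact hposê
  have hclause : ∀ w ∈ Subgroup.center (hat lam n₀ ⧸ (zh h).range), w ≠ 1 →
      ∃ c : F, c ≠ 1 ∧ ∀ x, e₀ (w * x) = c * e₀ x := by
    intro w hw hw1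
    obtain ⟨y, hy1, rfl⟩ := hone w hw
    refine ⟨(((chi lam n₀ y)⁻¹ : Fˣ) : F), ?_, ?_⟩
    · intro hcon
      apply hw1
      have h1 : (chi lam n₀ y)⁻¹ = 1 := Units.ext hcon
      have h2 : y = 1 := by
        apply hat_ext
        · rw [hy1, map_one]
        · rw [map_one]
          exact inv_eq_one.1 h1
      rw [h2, map_one]
    · intro x
      obtain ⟨x, rfl⟩ := hqs' x
      rw [← map_mul, he₀v, he₀v, hêv, hêv, map_mul, map_mul, hy1, one_mul, mul_inv,
        Units.val_mul]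
      ring
  have hdf1 : DfE ℓ 𝒟 ê ⊤ := by
    refine DfE.pull h𝒟 hF.prime (p1 lam n₀) ⊤ le_top (not_dvd_inf hk1 _) (fun x hx => ?_) hdf
    intro h0
    apply hx
    rw [hêv, h0, mul_zero, zero_mul]
  have hdf0 : DfE ℓ 𝒟 e₀ ⊤ := by
    have h1 := DfE.push (e := e₀) h𝒟 hF.prime q ⊤ inferInstance (fun k hk m _ =>
      (Subgroup.mem_center_iff.1 (hqc k hk) m).symm) (not_dvd_inf hk2 _) (fun w hw => by
        obtain ⟨x, rfl⟩ := hqs' w
        refine ⟨x, rfl, fun h0 => hw ?_⟩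
        rw [he₀v, h0, mul_zero]) hdf1
    rwa [Subgroup.map_top_of_surjective q hqs'] at h1
  have hzero := hQ S hS hdvd hI (hat lam n₀ ⧸ (zh h).range) hO' (nf_equiv φ hns) hinv' hstem e₀
    he₀i hclause hpos0 hdf0
  -- the sums
  obtain ⟨-, -, i3⟩ := H74.cen ℓ F hF (hat lam n₀) _ q hqs' hqc hk2 e₀ he₀i
  have j1 : YY ℓ ⊤ ê = 0 := by
    have h1 := (i3 ⊤ inferInstance).1
    rw [hzero, mul_zero, Subgroup.comap_top] at h1
    rw [← hinfl]
    exact h1
  have j2 : YY ℓ ⊤ (H74.infl (p1 lam n₀) e) = 0 := by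
    rw [hê, twl_YY] at j1
    exact j1
  have j3 := (i2 ⊤ inferInstance).1
  rw [Subgroup.comap_top] at j3
  have j4 : (Nat.card (p1 lam n₀).ker : ℤ) * YY ℓ ⊤ e = 0 := j3.symm.trans j2
  rcases mul_eq_zero.1 j4 with h1 | h1
  · exact absurd h1 (by exact_mod_cast (Nat.card_pos (α := (p1 lam n₀).ker)).ne')
  · exact h1

end Pool.Agent.DF
end
end -- Pool.Agent.Helper66_DF.StmE
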